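import Pool.Agent.MP_61a8e3_al.G4.KL0
import Pool.Agent.MP_61a8e3_al.G4.KL1
import Pool.Agent.MP_61a8e3_al.G4.KL2
import Pool.Agent.MP_61a8e3_al.G4.KL3
import Pool.Agent.MP_61a8e3_al.G4.KL4
import Pool.Agent.MP_61a8e3_al.G4.KL5
import Pool.Agent.MP_61a8e3_al.G4.KL6
import Pool.Agent.MP_61a8e3_al.G4.KL7

/-! Part K: classes, part 0. -/

set_option autoImplicit false
set_option maxRecDepth 100000
set_option linter.all false

namespace Pool.Agent.MP_61a8e3_al.G4.K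

noncomputable def a0 : T16 Cl := @T16.mk Cl
  (@Cl.mk (nat_lit 0x20002000e000e00020002000e000e00020002000e000e00020002000e000e) (nat_lit 0xc000c000c000c0) (nat_lit 4) l4 (@T16.mk En
    (@En.n l1 (nat_lit 0) (nat_lit 1) (nat_lit 14))
    (@En.i (nat_lit 14113) (nat_lit 10) (nat_lit 14))
    (@En.n l2 (nat_lit 0) (nat_lit 2) (nat_lit 2))
    (@En.n l3 (nat_lit 0) (nat_lit 3) (nat_lit 2))
    (@En.n l43686 (nat_lit 0) (nat_lit 1) (nat_lit 14))
    (@En.n l4 (nat_lit 14113) (nat_lit 10) (nat_lit 14))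
    (@En.n l43687 (nat_lit 0) (nat_lit 2) (nat_lit 2))
    (@En.n l43688 (nat_lit 0) (nat_lit 3) (nat_lit 2))
    (@En.n l43689 (nat_lit 0) (nat_lit 1) (nat_lit 14))
    (@En.n l43690 (nat_lit 14113) (nat_lit 10) (nat_lit 14))
    (@En.n l43691 (nat_lit 0) (nat_lit 2) (nat_lit 2))
    (@En.n l43692 (nat_lit 0) (nat_lit 3) (nat_lit 2))
    (@En.n l43693 (nat_lit 0) (nat_lit 1) (nat_lit 14))
    (@En.n l43694 (nat_lit 14113) (nat_lit 10) (nat_lit 14))
    (@En.n l43695 (nat_lit 0) (nat_lit 2) (nat_lit 2))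
    (@En.n l43696 (nat_lit 0) (nat_lit 3) (nat_lit 2))))
  (@Cl.mk (nat_lit 0x200050003000e000b0002000e000d000200050003000e000b0002000e000d) (nat_lit 0x0) (nat_lit 8) l24 (@T16.mk En
    (@En.n l19 (nat_lit 194) (nat_lit 9) (nat_lit 13))
    (@En.n l20 (nat_lit 193) (nat_lit 10) (nat_lit 14))
    (@En.n l12 (nat_lit 1) (nat_lit 2) (nat_lit 2))
    (@En.n l21 (nat_lit 193) (nat_lit 12) (nat_lit 11))
    (@En.i (nat_lit 2628) (nat_lit 13) (nat_lit 14))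
    (@En.n l22 (nat_lit 194) (nat_lit 5) (nat_lit 3))
    (@En.n l23 (nat_lit 201) (nat_lit 6) (nat_lit 5))
    (@En.n l3 (nat_lit 1) (nat_lit 7) (nat_lit 2))
    (@En.n l43697 (nat_lit 194) (nat_lit 9) (nat_lit 13))
    (@En.n l43698 (nat_lit 193) (nat_lit 10) (nat_lit 14))
    (@En.n l43699 (nat_lit 1) (nat_lit 2) (nat_lit 2))
    (@En.n l43700 (nat_lit 193) (nat_lit 12) (nat_lit 11))
    (@En.n l24 (nat_lit 2628) (nat_lit 13) (nat_lit 14))
    (@En.n l238 (nat_lit 194) (nat_lit 5) (nat_lit 3))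
    (@En.n l27 (nat_lit 201) (nat_lit 6) (nat_lit 5))
    (@En.n l43701 (nat_lit 1) (nat_lit 7) (nat_lit 2))))
  (@Cl.mk (nat_lit 0x2000d000d000400030003000e000c0002000d000d000400030003000e000c) (nat_lit 0x0) (nat_lit 8) l191 (@T16.mk En
    (@En.n l187 (nat_lit 175) (nat_lit 9) (nat_lit 12))
    (@En.i (nat_lit 3552) (nat_lit 1) (nat_lit 14))
    (@En.n l188 (nat_lit 194) (nat_lit 13) (nat_lit 3))
    (@En.n l18 (nat_lit 173) (nat_lit 11) (nat_lit 3))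
    (@En.n l189 (nat_lit 128) (nat_lit 0) (nat_lit 4))
    (@En.n l61 (nat_lit 173) (nat_lit 14) (nat_lit 13))
    (@En.n l190 (nat_lit 134) (nat_lit 7) (nat_lit 13))
    (@En.n l7 (nat_lit 2) (nat_lit 7) (nat_lit 2))
    (@En.n l43702 (nat_lit 175) (nat_lit 9) (nat_lit 12))
    (@En.n l191 (nat_lit 3552) (nat_lit 1) (nat_lit 14))
    (@En.n l283 (nat_lit 194) (nat_lit 13) (nat_lit 3))
    (@En.n l1980 (nat_lit 173) (nat_lit 11) (nat_lit 3))
    (@En.n l248 (nat_lit 128) (nat_lit 0) (nat_lit 4))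
    (@En.n l1981 (nat_lit 173) (nat_lit 14) (nat_lit 13))
    (@En.n l253 (nat_lit 134) (nat_lit 7) (nat_lit 13))
    (@En.n l43703 (nat_lit 2) (nat_lit 7) (nat_lit 2))))
  (@Cl.mk (nat_lit 0x2000500050004000b000b000e000c0002000500050004000b000b000e000c) (nat_lit 0x0) (nat_lit 8) l257 (@T16.mk En
    (@En.n l254 (nat_lit 149) (nat_lit 9) (nat_lit 12))
    (@En.n l18 (nat_lit 203) (nat_lit 10) (nat_lit 14))
    (@En.n l61 (nat_lit 203) (nat_lit 11) (nat_lit 11))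
    (@En.n l255 (nat_lit 2464) (nat_lit 12) (nat_lit 11))
    (@En.i (nat_lit 155) (nat_lit 4) (nat_lit 4))
    (@En.n l256 (nat_lit 193) (nat_lit 14) (nat_lit 5))
    (@En.n l197 (nat_lit 205) (nat_lit 6) (nat_lit 5))
    (@En.n l67 (nat_lit 3) (nat_lit 7) (nat_lit 2))
    (@En.n l68 (nat_lit 149) (nat_lit 9) (nat_lit 12))
    (@En.n l43704 (nat_lit 203) (nat_lit 10) (nat_lit 14))
    (@En.n l43705 (nat_lit 203) (nat_lit 11) (nat_lit 11))
    (@En.n l888 (nat_lit 2464) (nat_lit 12) (nat_lit 11))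
    (@En.n l257 (nat_lit 155) (nat_lit 4) (nat_lit 4))
    (@En.n l654 (nat_lit 193) (nat_lit 14) (nat_lit 5))
    (@En.n l43706 (nat_lit 205) (nat_lit 6) (nat_lit 5))
    (@En.n l43707 (nat_lit 3) (nat_lit 7) (nat_lit 2))))
  (@Cl.mk (nat_lit 0x20006000e000a00020006000e000a00020006000e000a00020006000e000a) (nat_lit 0x0) (nat_lit 4) l318 (@T16.mk En
    (@En.n l315 (nat_lit 12527) (nat_lit 4) (nat_lit 10))
    (@En.n l316 (nat_lit 2115) (nat_lit 10) (nat_lit 14))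
    (@En.n l317 (nat_lit 12307) (nat_lit 2) (nat_lit 6))
    (@En.n l28 (nat_lit 4) (nat_lit 3) (nat_lit 2))
    (@En.n l43708 (nat_lit 12527) (nat_lit 4) (nat_lit 10))
    (@En.n l43709 (nat_lit 2115) (nat_lit 10) (nat_lit 14))
    (@En.n l43710 (nat_lit 12307) (nat_lit 2) (nat_lit 6))
    (@En.n l43711 (nat_lit 4) (nat_lit 3) (nat_lit 2))
    (@En.n l13 (nat_lit 12527) (nat_lit 4) (nat_lit 10))
    (@En.n l350 (nat_lit 2115) (nat_lit 10) (nat_lit 14))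
    (@En.n l309 (nat_lit 12307) (nat_lit 2) (nat_lit 6))
    (@En.n l43712 (nat_lit 4) (nat_lit 3) (nat_lit 2))
    (@En.n l74 (nat_lit 12527) (nat_lit 4) (nat_lit 10))
    (@En.n l1116 (nat_lit 2115) (nat_lit 10) (nat_lit 14))
    (@En.n l3701 (nat_lit 12307) (nat_lit 2) (nat_lit 6))
    (@En.n l43713 (nat_lit 4) (nat_lit 3) (nat_lit 2))))
  (@Cl.mk (nat_lit 0x2000d000b000e00030002000e00050002000d000b000e00030002000e0005) (nat_lit 0x0) (nat_lit 8) l383 (@T16.mk En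
    (@En.n l378 (nat_lit 144) (nat_lit 14) (nat_lit 5))
    (@En.n l379 (nat_lit 179) (nat_lit 1) (nat_lit 14))
    (@En.n l3 (nat_lit 5) (nat_lit 2) (nat_lit 2))
    (@En.n l380 (nat_lit 140) (nat_lit 3) (nat_lit 3))
    (@En.n l381 (nat_lit 14116) (nat_lit 4) (nat_lit 14))
    (@En.i (nat_lit 137) (nat_lit 14) (nat_lit 11))
    (@En.n l382 (nat_lit 2420) (nat_lit 12) (nat_lit 13))
    (@En.n l17 (nat_lit 5) (nat_lit 7) (nat_lit 2))
    (@En.n l997 (nat_lit 144) (nat_lit 14) (nat_lit 5))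
    (@En.n l998 (nat_lit 179) (nat_lit 1) (nat_lit 14))
    (@En.n l43714 (nat_lit 5) (nat_lit 2) (nat_lit 2))
    (@En.n l7 (nat_lit 140) (nat_lit 3) (nat_lit 3))
    (@En.n l843 (nat_lit 14116) (nat_lit 4) (nat_lit 14))
    (@En.n l383 (nat_lit 137) (nat_lit 14) (nat_lit 11))
    (@En.n l1301 (nat_lit 2420) (nat_lit 12) (nat_lit 13))
    (@En.n l43715 (nat_lit 5) (nat_lit 7) (nat_lit 2))))
  (@Cl.mk (nat_lit 0x4000400040004000c000c000c000c0004000400040004000c000c000c000c) (nat_lit 0x800000008000) (nat_lit 8) l1934 (@T16.mk En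
    (@En.n l61 (nat_lit 139) (nat_lit 4) (nat_lit 12))
    (@En.n l1927 (nat_lit 101) (nat_lit 4) (nat_lit 12))
    (@En.n l1928 (nat_lit 143) (nat_lit 4) (nat_lit 12))
    (@En.n l1929 (nat_lit 2224) (nat_lit 12) (nat_lit 12))
    (@En.n l1930 (nat_lit 149) (nat_lit 12) (nat_lit 4))
    (@En.n l1931 (nat_lit 136) (nat_lit 12) (nat_lit 4))
    (@En.n l1932 (nat_lit 175) (nat_lit 12) (nat_lit 4))
    (@En.n l1933 (nat_lit 103) (nat_lit 0) (nat_lit 4))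
    (@En.n l43716 (nat_lit 139) (nat_lit 4) (nat_lit 12))
    (@En.n l43717 (nat_lit 101) (nat_lit 4) (nat_lit 12))
    (@En.n l43718 (nat_lit 143) (nat_lit 4) (nat_lit 12))
    (@En.n l8010 (nat_lit 2224) (nat_lit 12) (nat_lit 12))
    (@En.n l1958 (nat_lit 149) (nat_lit 12) (nat_lit 4))
    (@En.n l43719 (nat_lit 136) (nat_lit 12) (nat_lit 4))
    (@En.n l50 (nat_lit 175) (nat_lit 12) (nat_lit 4))
    (@En.n l1960 (nat_lit 103) (nat_lit 0) (nat_lit 4))))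
  (@Cl.mk (nat_lit 0x20006000d000a00050003000e000b00020006000d000a00050003000e000b) (nat_lit 0x0) (nat_lit 8) l191 (@T16.mk En
    (@En.n l1979 (nat_lit 12650) (nat_lit 9) (nat_lit 11))
    (@En.n l134 (nat_lit 12562) (nat_lit 1) (nat_lit 14))
    (@En.n l1980 (nat_lit 12646) (nat_lit 2) (nat_lit 3))
    (@En.n l248 (nat_lit 6375) (nat_lit 3) (nat_lit 5))
    (@En.n l1981 (nat_lit 12565) (nat_lit 4) (nat_lit 10))
    (@En.n l189 (nat_lit 378) (nat_lit 6) (nat_lit 13))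
    (@En.n l608 (nat_lit 12498) (nat_lit 6) (nat_lit 6))
    (@En.n l3 (nat_lit 7) (nat_lit 7) (nat_lit 2))
    (@En.n l5780 (nat_lit 12650) (nat_lit 9) (nat_lit 11))
    (@En.n l43720 (nat_lit 12562) (nat_lit 1) (nat_lit 14))
    (@En.n l18 (nat_lit 12646) (nat_lit 2) (nat_lit 3))
    (@En.n l189 (nat_lit 6375) (nat_lit 3) (nat_lit 5))
    (@En.n l61 (nat_lit 12565) (nat_lit 4) (nat_lit 10))
    (@En.n l248 (nat_lit 378) (nat_lit 6) (nat_lit 13))
    (@En.n l14298 (nat_lit 12498) (nat_lit 6) (nat_lit 6))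
    (@En.n l43721 (nat_lit 7) (nat_lit 7) (nat_lit 2))))
  (@Cl.mk (nat_lit 0x2000d0003000e00030002000e000d0002000d0003000e00030002000e000d) (nat_lit 0x0) (nat_lit 8) l1998 (@T16.mk En
    (@En.n l1995 (nat_lit 174) (nat_lit 9) (nat_lit 13))
    (@En.i (nat_lit 3548) (nat_lit 1) (nat_lit 14))
    (@En.n l725 (nat_lit 8) (nat_lit 2) (nat_lit 2))
    (@En.n l1996 (nat_lit 173) (nat_lit 3) (nat_lit 3))
    (@En.n l1643 (nat_lit 236) (nat_lit 0) (nat_lit 14))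
    (@En.n l1353 (nat_lit 174) (nat_lit 5) (nat_lit 3))
    (@En.n l1997 (nat_lit 166) (nat_lit 12) (nat_lit 13))
    (@En.n l50 (nat_lit 8) (nat_lit 7) (nat_lit 2))
    (@En.n l564 (nat_lit 174) (nat_lit 9) (nat_lit 13))
    (@En.n l1998 (nat_lit 3548) (nat_lit 1) (nat_lit 14))
    (@En.n l43722 (nat_lit 8) (nat_lit 2) (nat_lit 2))
    (@En.n l287 (nat_lit 173) (nat_lit 3) (nat_lit 3))
    (@En.n l1997 (nat_lit 236) (nat_lit 0) (nat_lit 14))
    (@En.n l2865 (nat_lit 174) (nat_lit 5) (nat_lit 3))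
    (@En.n l1643 (nat_lit 166) (nat_lit 12) (nat_lit 13))
    (@En.n l43723 (nat_lit 8) (nat_lit 7) (nat_lit 2))))
  (@Cl.mk (nat_lit 0x20005000d000c000b0003000e000400020005000d000c000b0003000e0004) (nat_lit 0x0) (nat_lit 8) l2011 (@T16.mk En
    (@En.n l187 (nat_lit 101) (nat_lit 8) (nat_lit 4))
    (@En.n l2005 (nat_lit 98) (nat_lit 10) (nat_lit 14))
    (@En.n l2006 (nat_lit 96) (nat_lit 10) (nat_lit 3))
    (@En.n l2007 (nat_lit 183) (nat_lit 3) (nat_lit 11))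
    (@En.n l2008 (nat_lit 97) (nat_lit 13) (nat_lit 12))
    (@En.n l2009 (nat_lit 2292) (nat_lit 6) (nat_lit 13))
    (@En.n l2010 (nat_lit 180) (nat_lit 13) (nat_lit 5))
    (@En.n l18 (nat_lit 9) (nat_lit 7) (nat_lit 2))
    (@En.n l43724 (nat_lit 101) (nat_lit 8) (nat_lit 4))
    (@En.n l2141 (nat_lit 98) (nat_lit 10) (nat_lit 14))
    (@En.n l7 (nat_lit 96) (nat_lit 10) (nat_lit 3))
    (@En.n l43725 (nat_lit 183) (nat_lit 3) (nat_lit 11))
    (@En.n l644 (nat_lit 97) (nat_lit 13) (nat_lit 12))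
    (@En.n l5828 (nat_lit 2292) (nat_lit 6) (nat_lit 13))
    (@En.n l1953 (nat_lit 180) (nat_lit 13) (nat_lit 5))
    (@En.n l43726 (nat_lit 9) (nat_lit 7) (nat_lit 2))))
  (@Cl.mk (nat_lit 0x3000300060004000a000d000d000c0003000300060004000a000d000d000c) (nat_lit 0x0) (nat_lit 8) l2025 (@T16.mk En
    (@En.n l2019 (nat_lit 84) (nat_lit 0) (nat_lit 12))
    (@En.n l217 (nat_lit 81) (nat_lit 3) (nat_lit 13))
    (@En.n l890 (nat_lit 100) (nat_lit 5) (nat_lit 13))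
    (@En.n l2020 (nat_lit 526) (nat_lit 12) (nat_lit 10))
    (@En.n l2021 (nat_lit 104) (nat_lit 4) (nat_lit 4))
    (@En.n l2022 (nat_lit 80) (nat_lit 12) (nat_lit 6))
    (@En.n l2023 (nat_lit 80) (nat_lit 13) (nat_lit 3))
    (@En.n l2024 (nat_lit 81) (nat_lit 0) (nat_lit 3))
    (@En.n l26406 (nat_lit 84) (nat_lit 0) (nat_lit 12))
    (@En.n l13878 (nat_lit 81) (nat_lit 3) (nat_lit 13))
    (@En.n l5691 (nat_lit 100) (nat_lit 5) (nat_lit 13))
    (@En.n l1836 (nat_lit 526) (nat_lit 12) (nat_lit 10))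
    (@En.n l43727 (nat_lit 104) (nat_lit 4) (nat_lit 4))
    (@En.n l14909 (nat_lit 80) (nat_lit 12) (nat_lit 6))
    (@En.n l24397 (nat_lit 80) (nat_lit 13) (nat_lit 3))
    (@En.n l50 (nat_lit 81) (nat_lit 0) (nat_lit 3))))
  (@Cl.mk (nat_lit 0x20005000b000e000b0002000e000500020005000b000e000b0002000e0005) (nat_lit 0x0) (nat_lit 8) l1998 (@T16.mk En
    (@En.n l893 (nat_lit 203) (nat_lit 14) (nat_lit 5))
    (@En.n l1998 (nat_lit 222) (nat_lit 1) (nat_lit 14))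
    (@En.n l11 (nat_lit 11) (nat_lit 2) (nat_lit 2))
    (@En.n l2865 (nat_lit 222) (nat_lit 3) (nat_lit 11))
    (@En.n l2866 (nat_lit 225) (nat_lit 4) (nat_lit 14))
    (@En.i (nat_lit 2531) (nat_lit 14) (nat_lit 11))
    (@En.n l1643 (nat_lit 158) (nat_lit 6) (nat_lit 5))
    (@En.n l3 (nat_lit 11) (nat_lit 7) (nat_lit 2))
    (@En.n l5276 (nat_lit 203) (nat_lit 14) (nat_lit 5))
    (@En.i (nat_lit 222) (nat_lit 1) (nat_lit 14))
    (@En.n l43728 (nat_lit 11) (nat_lit 2) (nat_lit 2))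
    (@En.n l1353 (nat_lit 222) (nat_lit 3) (nat_lit 11))
    (@En.n l2036 (nat_lit 225) (nat_lit 4) (nat_lit 14))
    (@En.n l1998 (nat_lit 2531) (nat_lit 14) (nat_lit 11))
    (@En.n l1997 (nat_lit 158) (nat_lit 6) (nat_lit 5))
    (@En.n l5856 (nat_lit 11) (nat_lit 7) (nat_lit 2))))
  (@Cl.mk (nat_lit 0x20005000b0006000b000a000e000500020005000b0006000b000a000e0005) (nat_lit 0x0) (nat_lit 8) l1998 (@T16.mk En
    (@En.n l892 (nat_lit 12729) (nat_lit 8) (nat_lit 5))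
    (@En.n l2876 (nat_lit 12658) (nat_lit 10) (nat_lit 14))
    (@En.n l2877 (nat_lit 12655) (nat_lit 11) (nat_lit 10))
    (@En.n l2878 (nat_lit 906) (nat_lit 3) (nat_lit 11))
    (@En.n l2879 (nat_lit 11652) (nat_lit 4) (nat_lit 6))
    (@En.n l2880 (nat_lit 11961) (nat_lit 14) (nat_lit 11))
    (@En.n l2881 (nat_lit 12746) (nat_lit 6) (nat_lit 5))
    (@En.n l11 (nat_lit 12) (nat_lit 7) (nat_lit 2))
    (@En.n l8369 (nat_lit 12729) (nat_lit 8) (nat_lit 5))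
    (@En.n l7 (nat_lit 12658) (nat_lit 10) (nat_lit 14))
    (@En.n l43729 (nat_lit 12655) (nat_lit 11) (nat_lit 10))
    (@En.n l43730 (nat_lit 906) (nat_lit 3) (nat_lit 11))
    (@En.n l43731 (nat_lit 11652) (nat_lit 4) (nat_lit 6))
    (@En.n l476 (nat_lit 11961) (nat_lit 14) (nat_lit 11))
    (@En.n l899 (nat_lit 12746) (nat_lit 6) (nat_lit 5))
    (@En.n l43728 (nat_lit 12) (nat_lit 7) (nat_lit 2))))
  (@Cl.mk (nat_lit 0x2000d000500040003000b000e000c0002000d000500040003000b000e000c) (nat_lit 0x0) (nat_lit 8) l2923 (@T16.mk En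
    (@En.n l2917 (nat_lit 136) (nat_lit 9) (nat_lit 12))
    (@En.n l2918 (nat_lit 206) (nat_lit 4) (nat_lit 14))
    (@En.n l2919 (nat_lit 881) (nat_lit 11) (nat_lit 11))
    (@En.n l2920 (nat_lit 93) (nat_lit 11) (nat_lit 3))
    (@En.n l2921 (nat_lit 138) (nat_lit 0) (nat_lit 4))
    (@En.n l2922 (nat_lit 109) (nat_lit 14) (nat_lit 5))
    (@En.i (nat_lit 110) (nat_lit 7) (nat_lit 13))
    (@En.n l2196 (nat_lit 13) (nat_lit 7) (nat_lit 2))
    (@En.n l2197 (nat_lit 136) (nat_lit 9) (nat_lit 12))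
    (@En.n l6134 (nat_lit 206) (nat_lit 4) (nat_lit 14))
    (@En.n l43732 (nat_lit 881) (nat_lit 11) (nat_lit 11))
    (@En.n l28 (nat_lit 93) (nat_lit 11) (nat_lit 3))
    (@En.n l43733 (nat_lit 138) (nat_lit 0) (nat_lit 4))
    (@En.n l43734 (nat_lit 109) (nat_lit 14) (nat_lit 5))
    (@En.n l2923 (nat_lit 110) (nat_lit 7) (nat_lit 13))
    (@En.n l43735 (nat_lit 13) (nat_lit 7) (nat_lit 2))))
  (@Cl.mk (nat_lit 0x200060006000a000a0006000e000a000200060006000a000a0006000e000a) (nat_lit 0x0) (nat_lit 8) l3705 (@T16.mk En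
    (@En.n l1119 (nat_lit 4530) (nat_lit 9) (nat_lit 10))
    (@En.n l1116 (nat_lit 4896) (nat_lit 10) (nat_lit 14))
    (@En.n l1123 (nat_lit 11329) (nat_lit 2) (nat_lit 6))
    (@En.n l3702 (nat_lit 12555) (nat_lit 12) (nat_lit 10))
    (@En.n l3703 (nat_lit 4557) (nat_lit 13) (nat_lit 10))
    (@En.n l315 (nat_lit 12527) (nat_lit 5) (nat_lit 6))
    (@En.n l3704 (nat_lit 11533) (nat_lit 6) (nat_lit 6))
    (@En.n l28 (nat_lit 14) (nat_lit 7) (nat_lit 2))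
    (@En.n l43736 (nat_lit 4530) (nat_lit 9) (nat_lit 10))
    (@En.n l43737 (nat_lit 4896) (nat_lit 10) (nat_lit 14))
    (@En.n l3703 (nat_lit 11329) (nat_lit 2) (nat_lit 6))
    (@En.n l2277 (nat_lit 12555) (nat_lit 12) (nat_lit 10))
    (@En.n l1123 (nat_lit 4557) (nat_lit 13) (nat_lit 10))
    (@En.n l217 (nat_lit 12527) (nat_lit 5) (nat_lit 6))
    (@En.n l309 (nat_lit 11533) (nat_lit 6) (nat_lit 6))
    (@En.n l43738 (nat_lit 14) (nat_lit 7) (nat_lit 2))))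
  (@Cl.mk (nat_lit 0x2000a0006000e000a0002000e00060002000a0006000e000a0002000e0006) (nat_lit 0x0) (nat_lit 8) l3758 (@T16.mk En
    (@En.n l3753 (nat_lit 12555) (nat_lit 14) (nat_lit 6))
    (@En.n l3754 (nat_lit 12558) (nat_lit 1) (nat_lit 14))
    (@En.n l3 (nat_lit 15) (nat_lit 2) (nat_lit 2))
    (@En.n l3754 (nat_lit 12554) (nat_lit 3) (nat_lit 10))
    (@En.n l3755 (nat_lit 2114) (nat_lit 1) (nat_lit 14))
    (@En.n l3756 (nat_lit 12552) (nat_lit 14) (nat_lit 6))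
    (@En.n l3757 (nat_lit 4550) (nat_lit 12) (nat_lit 10))
    (@En.n l50 (nat_lit 15) (nat_lit 7) (nat_lit 2))
    (@En.n l3757 (nat_lit 12555) (nat_lit 14) (nat_lit 6))
    (@En.n l9085 (nat_lit 12558) (nat_lit 1) (nat_lit 14))
    (@En.n l43739 (nat_lit 15) (nat_lit 2) (nat_lit 2))
    (@En.n l9085 (nat_lit 12554) (nat_lit 3) (nat_lit 10))
    (@En.n l43740 (nat_lit 2114) (nat_lit 1) (nat_lit 14))
    (@En.n l7150 (nat_lit 12552) (nat_lit 14) (nat_lit 6))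
    (@En.n l3753 (nat_lit 4550) (nat_lit 12) (nat_lit 10))
    (@En.n l43741 (nat_lit 15) (nat_lit 7) (nat_lit 2))))
noncomputable def a1 : T16 Cl := @T16.mk Cl
  (@Cl.mk (nat_lit 0x300060003000a0006000d000a000d000300060003000a0006000d000a000d) (nat_lit 0x0) (nat_lit 8) l1185 (@T16.mk En
    (@En.n l3817 (nat_lit 1013) (nat_lit 0) (nat_lit 13))
    (@En.n l3818 (nat_lit 12413) (nat_lit 10) (nat_lit 10))
    (@En.n l3819 (nat_lit 10691) (nat_lit 11) (nat_lit 13))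
    (@En.n l3820 (nat_lit 10690) (nat_lit 14) (nat_lit 6))
    (@En.n l3821 (nat_lit 10681) (nat_lit 4) (nat_lit 10))
    (@En.n l3822 (nat_lit 10775) (nat_lit 5) (nat_lit 3))
    (@En.i (nat_lit 11373) (nat_lit 0) (nat_lit 6))
    (@En.n l3823 (nat_lit 10768) (nat_lit 7) (nat_lit 3))
    (@En.n l2038 (nat_lit 1013) (nat_lit 0) (nat_lit 13))
    (@En.n l29710 (nat_lit 12413) (nat_lit 10) (nat_lit 10))
    (@En.n l3821 (nat_lit 10691) (nat_lit 11) (nat_lit 13))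
    (@En.n l43742 (nat_lit 10690) (nat_lit 14) (nat_lit 6))
    (@En.n l3819 (nat_lit 10681) (nat_lit 4) (nat_lit 10))
    (@En.n l14883 (nat_lit 10775) (nat_lit 5) (nat_lit 3))
    (@En.n l1185 (nat_lit 11373) (nat_lit 0) (nat_lit 6))
    (@En.n l50 (nat_lit 10768) (nat_lit 7) (nat_lit 3))))
  (@Cl.mk (nat_lit 0x200050005000c000b000b000e0004000200050005000c000b000b000e0004) (nat_lit 0x0) (nat_lit 8) l4174 (@T16.mk En
    (@En.n l4169 (nat_lit 143) (nat_lit 8) (nat_lit 4))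
    (@En.n l4170 (nat_lit 144) (nat_lit 10) (nat_lit 14))
    (@En.n l4171 (nat_lit 144) (nat_lit 11) (nat_lit 11))
    (@En.i (nat_lit 118) (nat_lit 3) (nat_lit 11))
    (@En.n l4172 (nat_lit 775) (nat_lit 13) (nat_lit 12))
    (@En.n l4173 (nat_lit 222) (nat_lit 5) (nat_lit 5))
    (@En.n l3340 (nat_lit 202) (nat_lit 13) (nat_lit 5))
    (@En.n l3 (nat_lit 17) (nat_lit 7) (nat_lit 2))
    (@En.n l3333 (nat_lit 143) (nat_lit 8) (nat_lit 4))
    (@En.n l43743 (nat_lit 144) (nat_lit 10) (nat_lit 14))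
    (@En.n l43744 (nat_lit 144) (nat_lit 11) (nat_lit 11))
    (@En.n l4174 (nat_lit 118) (nat_lit 3) (nat_lit 11))
    (@En.n l5853 (nat_lit 775) (nat_lit 13) (nat_lit 12))
    (@En.n l5592 (nat_lit 222) (nat_lit 5) (nat_lit 5))
    (@En.n l43745 (nat_lit 202) (nat_lit 13) (nat_lit 5))
    (@En.n l43746 (nat_lit 17) (nat_lit 7) (nat_lit 2))))
  (@Cl.mk (nat_lit 0x2000d000d000c00030003000e00040002000d000d000c00030003000e0004) (nat_lit 0x0) (nat_lit 8) l2595 (@T16.mk En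
    (@En.n l2592 (nat_lit 139) (nat_lit 8) (nat_lit 4))
    (@En.i (nat_lit 122) (nat_lit 1) (nat_lit 14))
    (@En.n l4181 (nat_lit 174) (nat_lit 13) (nat_lit 3))
    (@En.n l778 (nat_lit 140) (nat_lit 11) (nat_lit 3))
    (@En.n l2594 (nat_lit 172) (nat_lit 0) (nat_lit 12))
    (@En.n l3344 (nat_lit 140) (nat_lit 14) (nat_lit 13))
    (@En.n l2595 (nat_lit 2382) (nat_lit 7) (nat_lit 13))
    (@En.n l28 (nat_lit 18) (nat_lit 7) (nat_lit 2))
    (@En.n l7948 (nat_lit 139) (nat_lit 8) (nat_lit 4))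
    (@En.n l2595 (nat_lit 122) (nat_lit 1) (nat_lit 14))
    (@En.n l107 (nat_lit 174) (nat_lit 13) (nat_lit 3))
    (@En.n l3922 (nat_lit 140) (nat_lit 11) (nat_lit 3))
    (@En.n l10852 (nat_lit 172) (nat_lit 0) (nat_lit 12))
    (@En.n l43747 (nat_lit 140) (nat_lit 14) (nat_lit 13))
    (@En.i (nat_lit 2382) (nat_lit 7) (nat_lit 13))
    (@En.n l43748 (nat_lit 18) (nat_lit 7) (nat_lit 2))))
  (@Cl.mk (nat_lit 0x200080008000800080006000e000a000200080008000800080006000e000a) (nat_lit 0x0) (nat_lit 8) l10515 (@T16.mk En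
    (@En.n l10508 (nat_lit 3169) (nat_lit 9) (nat_lit 10))
    (@En.n l10509 (nat_lit 1616) (nat_lit 10) (nat_lit 14))
    (@En.n l10510 (nat_lit 5719) (nat_lit 2) (nat_lit 6))
    (@En.n l10511 (nat_lit 4890) (nat_lit 3) (nat_lit 8))
    (@En.n l10512 (nat_lit 3168) (nat_lit 4) (nat_lit 8))
    (@En.n l10513 (nat_lit 5042) (nat_lit 14) (nat_lit 8))
    (@En.n l10514 (nat_lit 5783) (nat_lit 6) (nat_lit 8))
    (@En.n l50 (nat_lit 19) (nat_lit 7) (nat_lit 2))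
    (@En.n l644 (nat_lit 3169) (nat_lit 9) (nat_lit 10))
    (@En.n l39219 (nat_lit 1616) (nat_lit 10) (nat_lit 14))
    (@En.n l43749 (nat_lit 5719) (nat_lit 2) (nat_lit 6))
    (@En.n l8390 (nat_lit 4890) (nat_lit 3) (nat_lit 8))
    (@En.n l43750 (nat_lit 3168) (nat_lit 4) (nat_lit 8))
    (@En.n l43751 (nat_lit 5042) (nat_lit 14) (nat_lit 8))
    (@En.n l38491 (nat_lit 5783) (nat_lit 6) (nat_lit 8))
    (@En.n l43752 (nat_lit 19) (nat_lit 7) (nat_lit 2))))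
  (@Cl.mk (nat_lit 0x4000a00050005000c000b000b00060004000a00050005000c000b000b0006) (nat_lit 0x0) (nat_lit 8) l13855 (@T16.mk En
    (@En.n l13849 (nat_lit 12689) (nat_lit 0) (nat_lit 6))
    (@En.n l5653 (nat_lit 12680) (nat_lit 5) (nat_lit 11))
    (@En.n l13850 (nat_lit 12441) (nat_lit 5) (nat_lit 11))
    (@En.n l13851 (nat_lit 10283) (nat_lit 3) (nat_lit 12))
    (@En.n l13852 (nat_lit 12682) (nat_lit 11) (nat_lit 5))
    (@En.n l117 (nat_lit 9242) (nat_lit 5) (nat_lit 5))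
    (@En.n l13853 (nat_lit 11198) (nat_lit 0) (nat_lit 10))
    (@En.n l13854 (nat_lit 12681) (nat_lit 1) (nat_lit 4))
    (@En.n l43753 (nat_lit 12689) (nat_lit 0) (nat_lit 6))
    (@En.n l43754 (nat_lit 12680) (nat_lit 5) (nat_lit 11))
    (@En.n l18177 (nat_lit 12441) (nat_lit 5) (nat_lit 11))
    (@En.n l9934 (nat_lit 10283) (nat_lit 3) (nat_lit 12))
    (@En.n l43755 (nat_lit 12682) (nat_lit 11) (nat_lit 5))
    (@En.n l43756 (nat_lit 9242) (nat_lit 5) (nat_lit 5))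
    (@En.n l43757 (nat_lit 11198) (nat_lit 0) (nat_lit 10))
    (@En.n l77 (nat_lit 12681) (nat_lit 1) (nat_lit 4))))
  (@Cl.mk (nat_lit 0x300030006000c000a000d000d0004000300030006000c000a000d000d0004) (nat_lit 0x0) (nat_lit 8) l2025 (@T16.mk En
    (@En.n l13877 (nat_lit 117) (nat_lit 0) (nat_lit 4))
    (@En.n l13878 (nat_lit 95) (nat_lit 3) (nat_lit 13))
    (@En.n l5709 (nat_lit 114) (nat_lit 5) (nat_lit 13))
    (@En.i (nat_lit 86) (nat_lit 3) (nat_lit 10))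
    (@En.n l2621 (nat_lit 2256) (nat_lit 13) (nat_lit 12))
    (@En.n l13879 (nat_lit 108) (nat_lit 12) (nat_lit 6))
    (@En.n l13880 (nat_lit 108) (nat_lit 13) (nat_lit 3))
    (@En.n l50 (nat_lit 95) (nat_lit 0) (nat_lit 3))
    (@En.n l43758 (nat_lit 117) (nat_lit 0) (nat_lit 4))
    (@En.n l217 (nat_lit 95) (nat_lit 3) (nat_lit 13))
    (@En.n l227 (nat_lit 114) (nat_lit 5) (nat_lit 13))
    (@En.n l2025 (nat_lit 86) (nat_lit 3) (nat_lit 10))
    (@En.n l5640 (nat_lit 2256) (nat_lit 13) (nat_lit 12))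
    (@En.n l14041 (nat_lit 108) (nat_lit 12) (nat_lit 6))
    (@En.n l14042 (nat_lit 108) (nat_lit 13) (nat_lit 3))
    (@En.n l2024 (nat_lit 95) (nat_lit 0) (nat_lit 3))))
  (@Cl.mk (nat_lit 0x4000b000b0006000c000a000500050004000b000b0006000c000a00050005) (nat_lit 0x0) (nat_lit 8) l14123 (@T16.mk En
    (@En.n l152 (nat_lit 12650) (nat_lit 11) (nat_lit 5))
    (@En.n l5737 (nat_lit 9247) (nat_lit 1) (nat_lit 5))
    (@En.n l5740 (nat_lit 12684) (nat_lit 0) (nat_lit 10))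
    (@En.i (nat_lit 303) (nat_lit 1) (nat_lit 12))
    (@En.n l14121 (nat_lit 9991) (nat_lit 2) (nat_lit 6))
    (@En.n l13994 (nat_lit 12729) (nat_lit 5) (nat_lit 11))
    (@En.n l14122 (nat_lit 9738) (nat_lit 13) (nat_lit 11))
    (@En.n l817 (nat_lit 11838) (nat_lit 12) (nat_lit 4))
    (@En.n l43759 (nat_lit 12650) (nat_lit 11) (nat_lit 5))
    (@En.n l77 (nat_lit 9247) (nat_lit 1) (nat_lit 5))
    (@En.n l43760 (nat_lit 12684) (nat_lit 0) (nat_lit 10))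
    (@En.n l14123 (nat_lit 303) (nat_lit 1) (nat_lit 12))
    (@En.n l43761 (nat_lit 9991) (nat_lit 2) (nat_lit 6))
    (@En.n l397 (nat_lit 12729) (nat_lit 5) (nat_lit 11))
    (@En.n l43762 (nat_lit 9738) (nat_lit 13) (nat_lit 11))
    (@En.n l43763 (nat_lit 11838) (nat_lit 12) (nat_lit 4))))
  (@Cl.mk (nat_lit 0x20005000d0004000b0003000e000c00020005000d0004000b0003000e000c) (nat_lit 0x0) (nat_lit 8) l1998 (@T16.mk En
    (@En.n l1998 (nat_lit 12647) (nat_lit 9) (nat_lit 12))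
    (@En.n l1998 (nat_lit 12649) (nat_lit 10) (nat_lit 14))
    (@En.n l287 (nat_lit 12646) (nat_lit 10) (nat_lit 3))
    (@En.n l1998 (nat_lit 1273) (nat_lit 3) (nat_lit 11))
    (@En.n l2865 (nat_lit 12594) (nat_lit 4) (nat_lit 4))
    (@En.i (nat_lit 374) (nat_lit 6) (nat_lit 13))
    (@En.n l1998 (nat_lit 12743) (nat_lit 6) (nat_lit 5))
    (@En.n l3 (nat_lit 23) (nat_lit 7) (nat_lit 2))
    (@En.i (nat_lit 12647) (nat_lit 9) (nat_lit 12))
    (@En.i (nat_lit 12649) (nat_lit 10) (nat_lit 14))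
    (@En.n l1996 (nat_lit 12646) (nat_lit 10) (nat_lit 3))
    (@En.i (nat_lit 1273) (nat_lit 3) (nat_lit 11))
    (@En.n l1353 (nat_lit 12594) (nat_lit 4) (nat_lit 4))
    (@En.n l1998 (nat_lit 374) (nat_lit 6) (nat_lit 13))
    (@En.i (nat_lit 12743) (nat_lit 6) (nat_lit 5))
    (@En.n l5856 (nat_lit 23) (nat_lit 7) (nat_lit 2))))
  (@Cl.mk (nat_lit 0x2000d000b00060003000a000e00050002000d000b00060003000a000e0005) (nat_lit 0x0) (nat_lit 8) l383 (@T16.mk En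
    (@En.i (nat_lit 12680) (nat_lit 8) (nat_lit 5))
    (@En.i (nat_lit 693) (nat_lit 10) (nat_lit 14))
    (@En.n l1016 (nat_lit 11268) (nat_lit 11) (nat_lit 10))
    (@En.n l936 (nat_lit 12657) (nat_lit 11) (nat_lit 3))
    (@En.n l13264 (nat_lit 11648) (nat_lit 0) (nat_lit 6))
    (@En.n l936 (nat_lit 12368) (nat_lit 14) (nat_lit 11))
    (@En.n l850 (nat_lit 12666) (nat_lit 7) (nat_lit 13))
    (@En.n l17 (nat_lit 24) (nat_lit 7) (nat_lit 2))
    (@En.n l383 (nat_lit 12680) (nat_lit 8) (nat_lit 5))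
    (@En.n l383 (nat_lit 693) (nat_lit 10) (nat_lit 14))
    (@En.n l1304 (nat_lit 11268) (nat_lit 11) (nat_lit 10))
    (@En.n l7596 (nat_lit 12657) (nat_lit 11) (nat_lit 3))
    (@En.n l2493 (nat_lit 11648) (nat_lit 0) (nat_lit 6))
    (@En.n l7596 (nat_lit 12368) (nat_lit 14) (nat_lit 11))
    (@En.n l3039 (nat_lit 12666) (nat_lit 7) (nat_lit 13))
    (@En.n l43715 (nat_lit 24) (nat_lit 7) (nat_lit 2))))
  (@Cl.mk (nat_lit 0x200060005000a0005000b000e000b000200060005000a0005000b000e000b) (nat_lit 0x0) (nat_lit 8) l1998 (@T16.mk En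
    (@En.n l14374 (nat_lit 12682) (nat_lit 9) (nat_lit 11))
    (@En.n l14375 (nat_lit 12557) (nat_lit 10) (nat_lit 14))
    (@En.n l2205 (nat_lit 610) (nat_lit 2) (nat_lit 11))
    (@En.n l14299 (nat_lit 12579) (nat_lit 3) (nat_lit 5))
    (@En.n l601 (nat_lit 11199) (nat_lit 13) (nat_lit 10))
    (@En.n l14027 (nat_lit 12649) (nat_lit 14) (nat_lit 5))
    (@En.n l1998 (nat_lit 12267) (nat_lit 6) (nat_lit 6))
    (@En.n l3 (nat_lit 25) (nat_lit 7) (nat_lit 2))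
    (@En.n l8469 (nat_lit 12682) (nat_lit 9) (nat_lit 11))
    (@En.n l7643 (nat_lit 12557) (nat_lit 10) (nat_lit 14))
    (@En.n l601 (nat_lit 610) (nat_lit 2) (nat_lit 11))
    (@En.n l29285 (nat_lit 12579) (nat_lit 3) (nat_lit 5))
    (@En.n l2205 (nat_lit 11199) (nat_lit 13) (nat_lit 10))
    (@En.n l28 (nat_lit 12649) (nat_lit 14) (nat_lit 5))
    (@En.i (nat_lit 12267) (nat_lit 6) (nat_lit 6))
    (@En.n l5856 (nat_lit 25) (nat_lit 7) (nat_lit 2))))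
  (@Cl.mk (nat_lit 0x3000b0006000c000a000d000500040003000b0006000c000a000d00050004) (nat_lit 0x0) (nat_lit 8) l5851 (@T16.mk En
    (@En.n l5851 (nat_lit 12047) (nat_lit 0) (nat_lit 4))
    (@En.n l14476 (nat_lit 12433) (nat_lit 0) (nat_lit 5))
    (@En.i (nat_lit 1104) (nat_lit 5) (nat_lit 13))
    (@En.n l14477 (nat_lit 12412) (nat_lit 3) (nat_lit 10))
    (@En.i (nat_lit 12203) (nat_lit 13) (nat_lit 12))
    (@En.n l14478 (nat_lit 10689) (nat_lit 14) (nat_lit 6))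
    (@En.n l14479 (nat_lit 10480) (nat_lit 14) (nat_lit 11))
    (@En.n l14480 (nat_lit 10775) (nat_lit 13) (nat_lit 3))
    (@En.i (nat_lit 12047) (nat_lit 0) (nat_lit 4))
    (@En.n l1993 (nat_lit 12433) (nat_lit 0) (nat_lit 5))
    (@En.n l5851 (nat_lit 1104) (nat_lit 5) (nat_lit 13))
    (@En.n l14478 (nat_lit 12412) (nat_lit 3) (nat_lit 10))
    (@En.n l5851 (nat_lit 12203) (nat_lit 13) (nat_lit 12))
    (@En.n l14477 (nat_lit 10689) (nat_lit 14) (nat_lit 6))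
    (@En.n l43764 (nat_lit 10480) (nat_lit 14) (nat_lit 11))
    (@En.n l24147 (nat_lit 10775) (nat_lit 13) (nat_lit 3))))
  (@Cl.mk (nat_lit 0x200020006000e000a0002000e000e000200020006000e000a0002000e000e) (nat_lit 0xc0000000c0) (nat_lit 8) l1998 (@T16.mk En
    (@En.n l180 (nat_lit 27) (nat_lit 1) (nat_lit 14))
    (@En.i (nat_lit 264) (nat_lit 10) (nat_lit 14))
    (@En.n l476 (nat_lit 27) (nat_lit 2) (nat_lit 2))
    (@En.n l625 (nat_lit 269) (nat_lit 3) (nat_lit 10))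
    (@En.i (nat_lit 14082) (nat_lit 5) (nat_lit 14))
    (@En.n l2568 (nat_lit 265) (nat_lit 5) (nat_lit 6))
    (@En.n l17 (nat_lit 27) (nat_lit 6) (nat_lit 2))
    (@En.n l18 (nat_lit 27) (nat_lit 7) (nat_lit 2))
    (@En.n l14518 (nat_lit 27) (nat_lit 1) (nat_lit 14))
    (@En.n l1998 (nat_lit 264) (nat_lit 10) (nat_lit 14))
    (@En.n l2880 (nat_lit 27) (nat_lit 2) (nat_lit 2))
    (@En.n l5925 (nat_lit 269) (nat_lit 3) (nat_lit 10))
    (@En.n l1998 (nat_lit 14082) (nat_lit 5) (nat_lit 14))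
    (@En.n l2031 (nat_lit 265) (nat_lit 5) (nat_lit 6))
    (@En.n l35560 (nat_lit 27) (nat_lit 6) (nat_lit 2))
    (@En.n l43765 (nat_lit 27) (nat_lit 7) (nat_lit 2))))
  (@Cl.mk (nat_lit 0x2000d000300060003000a000e000d0002000d000300060003000a000e000d) (nat_lit 0x0) (nat_lit 8) l1998 (@T16.mk En
    (@En.i (nat_lit 80) (nat_lit 9) (nat_lit 13))
    (@En.n l611 (nat_lit 165) (nat_lit 10) (nat_lit 14))
    (@En.n l2568 (nat_lit 525) (nat_lit 11) (nat_lit 10))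
    (@En.n l3291 (nat_lit 93) (nat_lit 3) (nat_lit 3))
    (@En.i (nat_lit 253) (nat_lit 12) (nat_lit 6))
    (@En.n l1999 (nat_lit 80) (nat_lit 5) (nat_lit 3))
    (@En.i (nat_lit 92) (nat_lit 0) (nat_lit 13))
    (@En.n l50 (nat_lit 28) (nat_lit 7) (nat_lit 2))
    (@En.n l1998 (nat_lit 80) (nat_lit 9) (nat_lit 13))
    (@En.n l4316 (nat_lit 165) (nat_lit 10) (nat_lit 14))
    (@En.n l2031 (nat_lit 525) (nat_lit 11) (nat_lit 10))
    (@En.n l678 (nat_lit 93) (nat_lit 3) (nat_lit 3))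
    (@En.n l1998 (nat_lit 253) (nat_lit 12) (nat_lit 6))
    (@En.n l117 (nat_lit 80) (nat_lit 5) (nat_lit 3))
    (@En.n l1998 (nat_lit 92) (nat_lit 0) (nat_lit 13))
    (@En.n l43723 (nat_lit 28) (nat_lit 7) (nat_lit 2))))
  (@Cl.mk (nat_lit 0x200060005000a000d000b000e0003000200060005000a000d000b000e0003) (nat_lit 0x0) (nat_lit 8) l1998 (@T16.mk En
    (@En.n l14526 (nat_lit 81) (nat_lit 8) (nat_lit 3))
    (@En.n l1643 (nat_lit 252) (nat_lit 0) (nat_lit 14))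
    (@En.n l14527 (nat_lit 159) (nat_lit 2) (nat_lit 11))
    (@En.n l1997 (nat_lit 94) (nat_lit 12) (nat_lit 13))
    (@En.i (nat_lit 530) (nat_lit 13) (nat_lit 10))
    (@En.n l897 (nat_lit 98) (nat_lit 14) (nat_lit 5))
    (@En.n l13708 (nat_lit 81) (nat_lit 6) (nat_lit 6))
    (@En.n l17 (nat_lit 29) (nat_lit 7) (nat_lit 2))
    (@En.n l7915 (nat_lit 81) (nat_lit 8) (nat_lit 3))
    (@En.n l1997 (nat_lit 252) (nat_lit 0) (nat_lit 14))
    (@En.n l43766 (nat_lit 159) (nat_lit 2) (nat_lit 11))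
    (@En.n l1643 (nat_lit 94) (nat_lit 12) (nat_lit 13))
    (@En.n l1998 (nat_lit 530) (nat_lit 13) (nat_lit 10))
    (@En.n l43767 (nat_lit 98) (nat_lit 14) (nat_lit 5))
    (@En.n l5927 (nat_lit 81) (nat_lit 6) (nat_lit 6))
    (@En.n l35560 (nat_lit 29) (nat_lit 7) (nat_lit 2))))
  (@Cl.mk (nat_lit 0x20006000d000a000d0003000e000300020006000d000a000d0003000e0003) (nat_lit 0x0) (nat_lit 8) l1998 (@T16.mk En
    (@En.n l14529 (nat_lit 95) (nat_lit 8) (nat_lit 3))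
    (@En.i (nat_lit 246) (nat_lit 0) (nat_lit 14))
    (@En.n l3596 (nat_lit 96) (nat_lit 2) (nat_lit 3))
    (@En.i (nat_lit 125) (nat_lit 12) (nat_lit 13))
    (@En.n l2038 (nat_lit 94) (nat_lit 4) (nat_lit 10))
    (@En.i (nat_lit 2254) (nat_lit 6) (nat_lit 13))
    (@En.n l2003 (nat_lit 95) (nat_lit 6) (nat_lit 6))
    (@En.n l17 (nat_lit 30) (nat_lit 7) (nat_lit 2))
    (@En.n l798 (nat_lit 95) (nat_lit 8) (nat_lit 3))
    (@En.n l1998 (nat_lit 246) (nat_lit 0) (nat_lit 14))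
    (@En.n l613 (nat_lit 96) (nat_lit 2) (nat_lit 3))
    (@En.n l1998 (nat_lit 125) (nat_lit 12) (nat_lit 13))
    (@En.n l5880 (nat_lit 94) (nat_lit 4) (nat_lit 10))
    (@En.n l1998 (nat_lit 2254) (nat_lit 6) (nat_lit 13))
    (@En.n l43768 (nat_lit 95) (nat_lit 6) (nat_lit 6))
    (@En.n l35560 (nat_lit 30) (nat_lit 7) (nat_lit 2))))
  (@Cl.mk (nat_lit 0x200080008000400080008000e000c000200080008000400080008000e000c) (nat_lit 0x0) (nat_lit 8) l7031 (@T16.mk En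
    (@En.n l17013 (nat_lit 3370) (nat_lit 9) (nat_lit 12))
    (@En.n l3508 (nat_lit 3351) (nat_lit 10) (nat_lit 14))
    (@En.n l1722 (nat_lit 3443) (nat_lit 2) (nat_lit 8))
    (@En.n l3357 (nat_lit 3623) (nat_lit 3) (nat_lit 8))
    (@En.n l5965 (nat_lit 4552) (nat_lit 4) (nat_lit 4))
    (@En.n l61 (nat_lit 3368) (nat_lit 8) (nat_lit 8))
    (@En.n l7036 (nat_lit 4553) (nat_lit 6) (nat_lit 8))
    (@En.n l7 (nat_lit 31) (nat_lit 7) (nat_lit 2))
    (@En.n l10156 (nat_lit 3370) (nat_lit 9) (nat_lit 12))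
    (@En.n l2790 (nat_lit 3351) (nat_lit 10) (nat_lit 14))
    (@En.n l9895 (nat_lit 3443) (nat_lit 2) (nat_lit 8))
    (@En.n l7038 (nat_lit 3623) (nat_lit 3) (nat_lit 8))
    (@En.n l43769 (nat_lit 4552) (nat_lit 4) (nat_lit 4))
    (@En.n l43770 (nat_lit 3368) (nat_lit 8) (nat_lit 8))
    (@En.n l3098 (nat_lit 4553) (nat_lit 6) (nat_lit 8))
    (@En.n l43771 (nat_lit 31) (nat_lit 7) (nat_lit 2))))
noncomputable def a2 : T16 Cl := @T16.mk Cl
  (@Cl.mk (nat_lit 0x200080008000800050008000e000b000200080008000800050008000e000b) (nat_lit 0x0) (nat_lit 8) l17127 (@T16.mk En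
    (@En.n l1012 (nat_lit 5758) (nat_lit 9) (nat_lit 11))
    (@En.n l1063 (nat_lit 5779) (nat_lit 10) (nat_lit 14))
    (@En.n l2680 (nat_lit 13387) (nat_lit 10) (nat_lit 8))
    (@En.n l2669 (nat_lit 5693) (nat_lit 3) (nat_lit 5))
    (@En.n l6872 (nat_lit 5766) (nat_lit 8) (nat_lit 8))
    (@En.n l17125 (nat_lit 932) (nat_lit 14) (nat_lit 8))
    (@En.n l17126 (nat_lit 5056) (nat_lit 6) (nat_lit 8))
    (@En.n l3 (nat_lit 32) (nat_lit 7) (nat_lit 2))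
    (@En.n l6870 (nat_lit 5758) (nat_lit 9) (nat_lit 11))
    (@En.n l43772 (nat_lit 5779) (nat_lit 10) (nat_lit 14))
    (@En.n l43773 (nat_lit 13387) (nat_lit 10) (nat_lit 8))
    (@En.n l32705 (nat_lit 5693) (nat_lit 3) (nat_lit 5))
    (@En.n l32706 (nat_lit 5766) (nat_lit 8) (nat_lit 8))
    (@En.n l575 (nat_lit 932) (nat_lit 14) (nat_lit 8))
    (@En.n l43774 (nat_lit 5056) (nat_lit 6) (nat_lit 8))
    (@En.n l43775 (nat_lit 32) (nat_lit 7) (nat_lit 2))))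
  (@Cl.mk (nat_lit 0x2000d0005000c0003000b000e00040002000d0005000c0003000b000e0004) (nat_lit 0x0) (nat_lit 8) l1998 (@T16.mk En
    (@En.n l12278 (nat_lit 12660) (nat_lit 8) (nat_lit 4))
    (@En.i (nat_lit 964) (nat_lit 4) (nat_lit 14))
    (@En.n l1998 (nat_lit 908) (nat_lit 11) (nat_lit 11))
    (@En.n l1998 (nat_lit 12657) (nat_lit 3) (nat_lit 3))
    (@En.i (nat_lit 6372) (nat_lit 0) (nat_lit 12))
    (@En.i (nat_lit 12658) (nat_lit 14) (nat_lit 5))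
    (@En.i (nat_lit 12661) (nat_lit 7) (nat_lit 13))
    (@En.n l17 (nat_lit 33) (nat_lit 7) (nat_lit 2))
    (@En.n l2869 (nat_lit 12660) (nat_lit 8) (nat_lit 4))
    (@En.n l1998 (nat_lit 964) (nat_lit 4) (nat_lit 14))
    (@En.i (nat_lit 908) (nat_lit 11) (nat_lit 11))
    (@En.i (nat_lit 12657) (nat_lit 3) (nat_lit 3))
    (@En.n l1998 (nat_lit 6372) (nat_lit 0) (nat_lit 12))
    (@En.n l1998 (nat_lit 12658) (nat_lit 14) (nat_lit 5))
    (@En.n l1998 (nat_lit 12661) (nat_lit 7) (nat_lit 13))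
    (@En.n l35560 (nat_lit 33) (nat_lit 7) (nat_lit 2))))
  (@Cl.mk (nat_lit 0x3000b00060004000a000d0005000c0003000b00060004000a000d0005000c) (nat_lit 0x0) (nat_lit 8) l1998 (@T16.mk En
    (@En.n l19994 (nat_lit 1022) (nat_lit 0) (nat_lit 12))
    (@En.n l4991 (nat_lit 11986) (nat_lit 9) (nat_lit 5))
    (@En.i (nat_lit 12353) (nat_lit 5) (nat_lit 13))
    (@En.n l2205 (nat_lit 10682) (nat_lit 3) (nat_lit 10))
    (@En.n l19995 (nat_lit 12420) (nat_lit 4) (nat_lit 4))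
    (@En.n l19996 (nat_lit 10691) (nat_lit 14) (nat_lit 6))
    (@En.n l19997 (nat_lit 10763) (nat_lit 1) (nat_lit 11))
    (@En.n l19998 (nat_lit 10764) (nat_lit 7) (nat_lit 3))
    (@En.n l19995 (nat_lit 1022) (nat_lit 0) (nat_lit 12))
    (@En.n l28457 (nat_lit 11986) (nat_lit 9) (nat_lit 5))
    (@En.n l1998 (nat_lit 12353) (nat_lit 5) (nat_lit 13))
    (@En.n l601 (nat_lit 10682) (nat_lit 3) (nat_lit 10))
    (@En.n l19994 (nat_lit 12420) (nat_lit 4) (nat_lit 4))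
    (@En.n l43776 (nat_lit 10691) (nat_lit 14) (nat_lit 6))
    (@En.n l28529 (nat_lit 10763) (nat_lit 1) (nat_lit 11))
    (@En.n l43777 (nat_lit 10764) (nat_lit 7) (nat_lit 3))))
  (@Cl.mk (nat_lit 0x2000500030006000b000a000e000d0002000500030006000b000a000e000d) (nat_lit 0x0) (nat_lit 8) l1998 (@T16.mk En
    (@En.n l6148 (nat_lit 108) (nat_lit 9) (nat_lit 13))
    (@En.n l619 (nat_lit 109) (nat_lit 10) (nat_lit 14))
    (@En.n l625 (nat_lit 92) (nat_lit 11) (nat_lit 10))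
    (@En.n l1997 (nat_lit 2261) (nat_lit 12) (nat_lit 11))
    (@En.n l1998 (nat_lit 262) (nat_lit 12) (nat_lit 6))
    (@En.n l3291 (nat_lit 108) (nat_lit 5) (nat_lit 3))
    (@En.i (nat_lit 221) (nat_lit 6) (nat_lit 5))
    (@En.n l18 (nat_lit 35) (nat_lit 7) (nat_lit 2))
    (@En.n l1012 (nat_lit 108) (nat_lit 9) (nat_lit 13))
    (@En.n l11680 (nat_lit 109) (nat_lit 10) (nat_lit 14))
    (@En.n l5925 (nat_lit 92) (nat_lit 11) (nat_lit 10))
    (@En.n l1643 (nat_lit 2261) (nat_lit 12) (nat_lit 11))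
    (@En.i (nat_lit 262) (nat_lit 12) (nat_lit 6))
    (@En.n l678 (nat_lit 108) (nat_lit 5) (nat_lit 3))
    (@En.n l1998 (nat_lit 221) (nat_lit 6) (nat_lit 5))
    (@En.n l43765 (nat_lit 35) (nat_lit 7) (nat_lit 2))))
  (@Cl.mk (nat_lit 0x2000800080008000d0008000e00030002000800080008000d0008000e0003) (nat_lit 0x0) (nat_lit 8) l13147 (@T16.mk En
    (@En.n l107 (nat_lit 3631) (nat_lit 8) (nat_lit 3))
    (@En.n l830 (nat_lit 12953) (nat_lit 0) (nat_lit 14))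
    (@En.i (nat_lit 5715) (nat_lit 2) (nat_lit 8))
    (@En.n l22126 (nat_lit 3625) (nat_lit 12) (nat_lit 13))
    (@En.n l10946 (nat_lit 5450) (nat_lit 4) (nat_lit 8))
    (@En.n l22127 (nat_lit 5500) (nat_lit 14) (nat_lit 8))
    (@En.n l19717 (nat_lit 6011) (nat_lit 6) (nat_lit 8))
    (@En.n l7 (nat_lit 36) (nat_lit 7) (nat_lit 2))
    (@En.n l10949 (nat_lit 3631) (nat_lit 8) (nat_lit 3))
    (@En.n l43778 (nat_lit 12953) (nat_lit 0) (nat_lit 14))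
    (@En.n l13147 (nat_lit 5715) (nat_lit 2) (nat_lit 8))
    (@En.n l43779 (nat_lit 3625) (nat_lit 12) (nat_lit 13))
    (@En.n l61 (nat_lit 5450) (nat_lit 4) (nat_lit 8))
    (@En.n l10952 (nat_lit 5500) (nat_lit 14) (nat_lit 8))
    (@En.n l7705 (nat_lit 6011) (nat_lit 6) (nat_lit 8))
    (@En.n l43780 (nat_lit 36) (nat_lit 7) (nat_lit 2))))
  (@Cl.mk (nat_lit 0x60006000a000a00060006000a000a00060006000a000a00060006000a000a) (nat_lit 0x0) (nat_lit 4) l9927 (@T16.mk En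
    (@En.n l22878 (nat_lit 4529) (nat_lit 6) (nat_lit 10))
    (@En.n l22484 (nat_lit 4523) (nat_lit 9) (nat_lit 10))
    (@En.n l22879 (nat_lit 4530) (nat_lit 10) (nat_lit 6))
    (@En.n l22880 (nat_lit 8008) (nat_lit 3) (nat_lit 6))
    (@En.n l152 (nat_lit 4529) (nat_lit 6) (nat_lit 10))
    (@En.n l117 (nat_lit 4523) (nat_lit 9) (nat_lit 10))
    (@En.n l43781 (nat_lit 4530) (nat_lit 10) (nat_lit 6))
    (@En.n l9897 (nat_lit 8008) (nat_lit 3) (nat_lit 6))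
    (@En.n l9955 (nat_lit 4529) (nat_lit 6) (nat_lit 10))
    (@En.n l24831 (nat_lit 4523) (nat_lit 9) (nat_lit 10))
    (@En.n l61 (nat_lit 4530) (nat_lit 10) (nat_lit 6))
    (@En.n l9956 (nat_lit 8008) (nat_lit 3) (nat_lit 6))
    (@En.n l43782 (nat_lit 4529) (nat_lit 6) (nat_lit 10))
    (@En.n l43783 (nat_lit 4523) (nat_lit 9) (nat_lit 10))
    (@En.n l3692 (nat_lit 4530) (nat_lit 10) (nat_lit 6))
    (@En.n l38297 (nat_lit 8008) (nat_lit 3) (nat_lit 6))))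
  (@Cl.mk (nat_lit 0x2000a00060006000a000a000e00060002000a00060006000a000a000e0006) (nat_lit 0x0) (nat_lit 8) l23209 (@T16.mk En
    (@En.n l23208 (nat_lit 4529) (nat_lit 8) (nat_lit 6))
    (@En.n l23209 (nat_lit 12253) (nat_lit 10) (nat_lit 14))
    (@En.n l23210 (nat_lit 12556) (nat_lit 2) (nat_lit 10))
    (@En.n l23211 (nat_lit 3401) (nat_lit 3) (nat_lit 10))
    (@En.n l23209 (nat_lit 12554) (nat_lit 4) (nat_lit 6))
    (@En.n l11 (nat_lit 11347) (nat_lit 14) (nat_lit 6))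
    (@En.n l23212 (nat_lit 4524) (nat_lit 7) (nat_lit 10))
    (@En.n l17 (nat_lit 38) (nat_lit 7) (nat_lit 2))
    (@En.n l43784 (nat_lit 4529) (nat_lit 8) (nat_lit 6))
    (@En.i (nat_lit 12253) (nat_lit 10) (nat_lit 14))
    (@En.n l33 (nat_lit 12556) (nat_lit 2) (nat_lit 10))
    (@En.n l43785 (nat_lit 3401) (nat_lit 3) (nat_lit 10))
    (@En.i (nat_lit 12554) (nat_lit 4) (nat_lit 6))
    (@En.n l43786 (nat_lit 11347) (nat_lit 14) (nat_lit 6))
    (@En.n l43787 (nat_lit 4524) (nat_lit 7) (nat_lit 10))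
    (@En.n l43788 (nat_lit 38) (nat_lit 7) (nat_lit 2))))
  (@Cl.mk (nat_lit 0x30006000b000a0006000d000a000500030006000b000a0006000d000a0005) (nat_lit 0x0) (nat_lit 8) l1185 (@T16.mk En
    (@En.n l23469 (nat_lit 12045) (nat_lit 0) (nat_lit 5))
    (@En.n l23470 (nat_lit 11816) (nat_lit 10) (nat_lit 10))
    (@En.n l3821 (nat_lit 10689) (nat_lit 11) (nat_lit 13))
    (@En.n l23471 (nat_lit 11833) (nat_lit 3) (nat_lit 6))
    (@En.i (nat_lit 12431) (nat_lit 4) (nat_lit 10))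
    (@En.n l23469 (nat_lit 10685) (nat_lit 14) (nat_lit 11))
    (@En.n l23472 (nat_lit 8057) (nat_lit 12) (nat_lit 6))
    (@En.n l50 (nat_lit 12439) (nat_lit 15) (nat_lit 3))
    (@En.n l43789 (nat_lit 12045) (nat_lit 0) (nat_lit 5))
    (@En.n l10625 (nat_lit 11816) (nat_lit 10) (nat_lit 10))
    (@En.n l3819 (nat_lit 10689) (nat_lit 11) (nat_lit 13))
    (@En.n l12743 (nat_lit 11833) (nat_lit 3) (nat_lit 6))
    (@En.n l1185 (nat_lit 12431) (nat_lit 4) (nat_lit 10))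
    (@En.n l43789 (nat_lit 10685) (nat_lit 14) (nat_lit 11))
    (@En.n l11 (nat_lit 8057) (nat_lit 12) (nat_lit 6))
    (@En.n l3823 (nat_lit 12439) (nat_lit 15) (nat_lit 3))))
  (@Cl.mk (nat_lit 0x4000800080004000c00080008000c0004000800080004000c00080008000c) (nat_lit 0x0) (nat_lit 8) l10664 (@T16.mk En
    (@En.i (nat_lit 12007) (nat_lit 0) (nat_lit 12))
    (@En.n l133 (nat_lit 11671) (nat_lit 8) (nat_lit 8))
    (@En.n l23806 (nat_lit 12192) (nat_lit 14) (nat_lit 8))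
    (@En.n l10666 (nat_lit 11405) (nat_lit 12) (nat_lit 12))
    (@En.n l23807 (nat_lit 11605) (nat_lit 4) (nat_lit 4))
    (@En.n l152 (nat_lit 11699) (nat_lit 8) (nat_lit 8))
    (@En.n l23808 (nat_lit 12208) (nat_lit 11) (nat_lit 8))
    (@En.n l3875 (nat_lit 10353) (nat_lit 7) (nat_lit 4))
    (@En.n l10664 (nat_lit 12007) (nat_lit 0) (nat_lit 12))
    (@En.n l43790 (nat_lit 11671) (nat_lit 8) (nat_lit 8))
    (@En.n l6669 (nat_lit 12192) (nat_lit 14) (nat_lit 8))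
    (@En.n l43791 (nat_lit 11405) (nat_lit 12) (nat_lit 12))
    (@En.n l1672 (nat_lit 11605) (nat_lit 4) (nat_lit 4))
    (@En.n l43792 (nat_lit 11699) (nat_lit 8) (nat_lit 8))
    (@En.n l43793 (nat_lit 12208) (nat_lit 11) (nat_lit 8))
    (@En.n l43794 (nat_lit 10353) (nat_lit 7) (nat_lit 4))))
  (@Cl.mk (nat_lit 0x3000a00060005000a000d000b00060003000a00060005000a000d000b0006) (nat_lit 0x0) (nat_lit 8) l22779 (@T16.mk En
    (@En.n l23824 (nat_lit 10777) (nat_lit 0) (nat_lit 6))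
    (@En.n l23825 (nat_lit 11839) (nat_lit 10) (nat_lit 11))
    (@En.n l23824 (nat_lit 12347) (nat_lit 5) (nat_lit 13))
    (@En.n l23826 (nat_lit 10762) (nat_lit 3) (nat_lit 10))
    (@En.n l23827 (nat_lit 12414) (nat_lit 11) (nat_lit 5))
    (@En.n l17 (nat_lit 10765) (nat_lit 14) (nat_lit 6))
    (@En.i (nat_lit 10643) (nat_lit 1) (nat_lit 10))
    (@En.n l4659 (nat_lit 10764) (nat_lit 15) (nat_lit 3))
    (@En.n l43795 (nat_lit 10777) (nat_lit 0) (nat_lit 6))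
    (@En.n l10409 (nat_lit 11839) (nat_lit 10) (nat_lit 11))
    (@En.n l43795 (nat_lit 12347) (nat_lit 5) (nat_lit 13))
    (@En.n l1236 (nat_lit 10762) (nat_lit 3) (nat_lit 10))
    (@En.n l43796 (nat_lit 12414) (nat_lit 11) (nat_lit 5))
    (@En.n l43797 (nat_lit 10765) (nat_lit 14) (nat_lit 6))
    (@En.n l22779 (nat_lit 10643) (nat_lit 1) (nat_lit 10))
    (@En.n l16732 (nat_lit 10764) (nat_lit 15) (nat_lit 3))))
  (@Cl.mk (nat_lit 0x2000a000e00060002000a000e00060002000a000e00060002000a000e0006) (nat_lit 0x0) (nat_lit 4) l24001 (@T16.mk En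
    (@En.n l23209 (nat_lit 12556) (nat_lit 4) (nat_lit 6))
    (@En.i (nat_lit 2701) (nat_lit 6) (nat_lit 14))
    (@En.n l3887 (nat_lit 3404) (nat_lit 2) (nat_lit 10))
    (@En.n l17 (nat_lit 42) (nat_lit 3) (nat_lit 2))
    (@En.n l3887 (nat_lit 12556) (nat_lit 4) (nat_lit 6))
    (@En.n l24001 (nat_lit 2701) (nat_lit 6) (nat_lit 14))
    (@En.i (nat_lit 3404) (nat_lit 2) (nat_lit 10))
    (@En.n l43798 (nat_lit 42) (nat_lit 3) (nat_lit 2))
    (@En.i (nat_lit 12556) (nat_lit 4) (nat_lit 6))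
    (@En.n l23209 (nat_lit 2701) (nat_lit 6) (nat_lit 14))
    (@En.n l24001 (nat_lit 3404) (nat_lit 2) (nat_lit 10))
    (@En.n l43788 (nat_lit 42) (nat_lit 3) (nat_lit 2))
    (@En.n l24001 (nat_lit 12556) (nat_lit 4) (nat_lit 6))
    (@En.n l3887 (nat_lit 2701) (nat_lit 6) (nat_lit 14))
    (@En.n l23209 (nat_lit 3404) (nat_lit 2) (nat_lit 10))
    (@En.n l43799 (nat_lit 42) (nat_lit 3) (nat_lit 2))))
  (@Cl.mk (nat_lit 0x30006000c000a0005000d0004000b00030006000c000a0005000d0004000b) (nat_lit 0x0) (nat_lit 8) l1998 (@T16.mk En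
    (@En.n l1998 (nat_lit 11681) (nat_lit 0) (nat_lit 11))
    (@En.n l19985 (nat_lit 12687) (nat_lit 9) (nat_lit 4))
    (@En.n l24130 (nat_lit 10690) (nat_lit 11) (nat_lit 13))
    (@En.n l24131 (nat_lit 10771) (nat_lit 3) (nat_lit 5))
    (@En.n l9926 (nat_lit 11823) (nat_lit 4) (nat_lit 10))
    (@En.n l10748 (nat_lit 12448) (nat_lit 14) (nat_lit 12))
    (@En.n l6178 (nat_lit 12662) (nat_lit 12) (nat_lit 6))
    (@En.n l24132 (nat_lit 12439) (nat_lit 7) (nat_lit 3))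
    (@En.i (nat_lit 11681) (nat_lit 0) (nat_lit 11))
    (@En.n l21056 (nat_lit 12687) (nat_lit 9) (nat_lit 4))
    (@En.n l16554 (nat_lit 10690) (nat_lit 11) (nat_lit 13))
    (@En.n l9926 (nat_lit 10771) (nat_lit 3) (nat_lit 5))
    (@En.n l24131 (nat_lit 11823) (nat_lit 4) (nat_lit 10))
    (@En.n l6178 (nat_lit 12448) (nat_lit 14) (nat_lit 12))
    (@En.n l10748 (nat_lit 12662) (nat_lit 12) (nat_lit 6))
    (@En.n l16513 (nat_lit 12439) (nat_lit 7) (nat_lit 3))))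
  (@Cl.mk (nat_lit 0x300060004000a0005000d000c000b000300060004000a0005000d000c000b) (nat_lit 0x0) (nat_lit 8) l2595 (@T16.mk En
    (@En.n l10852 (nat_lit 12640) (nat_lit 0) (nat_lit 11))
    (@En.n l24154 (nat_lit 10774) (nat_lit 10) (nat_lit 12))
    (@En.n l24155 (nat_lit 10765) (nat_lit 11) (nat_lit 13))
    (@En.n l5693 (nat_lit 12688) (nat_lit 3) (nat_lit 5))
    (@En.i (nat_lit 10646) (nat_lit 13) (nat_lit 10))
    (@En.n l17559 (nat_lit 12415) (nat_lit 5) (nat_lit 4))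
    (@En.n l3337 (nat_lit 11912) (nat_lit 12) (nat_lit 6))
    (@En.n l2587 (nat_lit 10768) (nat_lit 15) (nat_lit 3))
    (@En.n l2594 (nat_lit 12640) (nat_lit 0) (nat_lit 11))
    (@En.n l17560 (nat_lit 10774) (nat_lit 10) (nat_lit 12))
    (@En.n l4549 (nat_lit 10765) (nat_lit 11) (nat_lit 13))
    (@En.n l43800 (nat_lit 12688) (nat_lit 3) (nat_lit 5))
    (@En.n l2595 (nat_lit 10646) (nat_lit 13) (nat_lit 10))
    (@En.n l6680 (nat_lit 12415) (nat_lit 5) (nat_lit 4))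
    (@En.n l19960 (nat_lit 11912) (nat_lit 12) (nat_lit 6))
    (@En.n l3927 (nat_lit 10768) (nat_lit 15) (nat_lit 3))))
  (@Cl.mk (nat_lit 0x4000800080006000c000a000800080004000800080006000c000a00080008) (nat_lit 0x0) (nat_lit 8) l25138 (@T16.mk En
    (@En.n l25131 (nat_lit 12289) (nat_lit 8) (nat_lit 8))
    (@En.n l25132 (nat_lit 10349) (nat_lit 1) (nat_lit 8))
    (@En.n l25133 (nat_lit 12093) (nat_lit 11) (nat_lit 10))
    (@En.n l25134 (nat_lit 11661) (nat_lit 12) (nat_lit 12))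
    (@En.i (nat_lit 11091) (nat_lit 4) (nat_lit 6))
    (@En.n l25135 (nat_lit 10352) (nat_lit 8) (nat_lit 8))
    (@En.n l25136 (nat_lit 10418) (nat_lit 11) (nat_lit 8))
    (@En.n l25137 (nat_lit 10344) (nat_lit 15) (nat_lit 4))
    (@En.n l43801 (nat_lit 12289) (nat_lit 8) (nat_lit 8))
    (@En.n l25134 (nat_lit 10349) (nat_lit 1) (nat_lit 8))
    (@En.n l43802 (nat_lit 12093) (nat_lit 11) (nat_lit 10))
    (@En.n l25132 (nat_lit 11661) (nat_lit 12) (nat_lit 12))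
    (@En.n l25138 (nat_lit 11091) (nat_lit 4) (nat_lit 6))
    (@En.n l43803 (nat_lit 10352) (nat_lit 8) (nat_lit 8))
    (@En.n l39805 (nat_lit 10418) (nat_lit 11) (nat_lit 8))
    (@En.n l12925 (nat_lit 10344) (nat_lit 15) (nat_lit 4))))
  (@Cl.mk (nat_lit 0x200020008000800080008000e000e000200020008000800080008000e000e) (nat_lit 0xc0000000c0) (nat_lit 8) l26329 (@T16.mk En
    (@En.n l5 (nat_lit 46) (nat_lit 1) (nat_lit 14))
    (@En.n l26329 (nat_lit 12785) (nat_lit 10) (nat_lit 14))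
    (@En.n l26330 (nat_lit 14083) (nat_lit 2) (nat_lit 8))
    (@En.n l26331 (nat_lit 14062) (nat_lit 3) (nat_lit 8))
    (@En.n l26332 (nat_lit 14061) (nat_lit 13) (nat_lit 8))
    (@En.n l12595 (nat_lit 12965) (nat_lit 5) (nat_lit 8))
    (@En.n l107 (nat_lit 46) (nat_lit 6) (nat_lit 2))
    (@En.n l3 (nat_lit 46) (nat_lit 7) (nat_lit 2))
    (@En.n l43804 (nat_lit 46) (nat_lit 1) (nat_lit 14))
    (@En.i (nat_lit 12785) (nat_lit 10) (nat_lit 14))
    (@En.n l3996 (nat_lit 14083) (nat_lit 2) (nat_lit 8))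
    (@En.n l134 (nat_lit 14062) (nat_lit 3) (nat_lit 8))
    (@En.n l55 (nat_lit 14061) (nat_lit 13) (nat_lit 8))
    (@En.n l8122 (nat_lit 12965) (nat_lit 5) (nat_lit 8))
    (@En.n l43805 (nat_lit 46) (nat_lit 6) (nat_lit 2))
    (@En.n l43806 (nat_lit 46) (nat_lit 7) (nat_lit 2))))
  (@Cl.mk (nat_lit 0x20008000b000800080008000e000500020008000b000800080008000e0005) (nat_lit 0x0) (nat_lit 8) l26756 (@T16.mk En
    (@En.n l21089 (nat_lit 5752) (nat_lit 8) (nat_lit 5))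
    (@En.n l5051 (nat_lit 3193) (nat_lit 10) (nat_lit 14))
    (@En.n l26755 (nat_lit 5807) (nat_lit 2) (nat_lit 8))
    (@En.n l21091 (nat_lit 5751) (nat_lit 3) (nat_lit 8))
    (@En.n l7843 (nat_lit 5050) (nat_lit 4) (nat_lit 8))
    (@En.n l26756 (nat_lit 3294) (nat_lit 14) (nat_lit 11))
    (@En.n l2037 (nat_lit 5752) (nat_lit 6) (nat_lit 8))
    (@En.n l107 (nat_lit 47) (nat_lit 7) (nat_lit 2))
    (@En.n l3596 (nat_lit 5752) (nat_lit 8) (nat_lit 5))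
    (@En.n l7843 (nat_lit 3193) (nat_lit 10) (nat_lit 14))
    (@En.n l644 (nat_lit 5807) (nat_lit 2) (nat_lit 8))
    (@En.n l43807 (nat_lit 5751) (nat_lit 3) (nat_lit 8))
    (@En.n l5051 (nat_lit 5050) (nat_lit 4) (nat_lit 8))
    (@En.i (nat_lit 3294) (nat_lit 14) (nat_lit 11))
    (@En.n l21092 (nat_lit 5752) (nat_lit 6) (nat_lit 8))
    (@En.n l43808 (nat_lit 47) (nat_lit 7) (nat_lit 2))))
noncomputable def a3 : T16 Cl := @T16.mk Cl
  (@Cl.mk (nat_lit 0x500050008000b000b000800080008000500050008000b000b000800080008) (nat_lit 0x0) (nat_lit 8) l12951 (@T16.mk En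
    (@En.n l12239 (nat_lit 5371) (nat_lit 8) (nat_lit 8))
    (@En.n l12952 (nat_lit 933) (nat_lit 8) (nat_lit 8))
    (@En.n l1055 (nat_lit 5052) (nat_lit 2) (nat_lit 8))
    (@En.n l217 (nat_lit 5752) (nat_lit 5) (nat_lit 11))
    (@En.i (nat_lit 5740) (nat_lit 7) (nat_lit 11))
    (@En.n l12953 (nat_lit 5758) (nat_lit 10) (nat_lit 8))
    (@En.n l12954 (nat_lit 5758) (nat_lit 11) (nat_lit 5))
    (@En.n l26757 (nat_lit 5692) (nat_lit 0) (nat_lit 5))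
    (@En.n l77 (nat_lit 5371) (nat_lit 8) (nat_lit 8))
    (@En.n l43809 (nat_lit 933) (nat_lit 8) (nat_lit 8))
    (@En.n l43810 (nat_lit 5052) (nat_lit 2) (nat_lit 8))
    (@En.n l43811 (nat_lit 5752) (nat_lit 5) (nat_lit 11))
    (@En.n l12951 (nat_lit 5740) (nat_lit 7) (nat_lit 11))
    (@En.n l7350 (nat_lit 5758) (nat_lit 10) (nat_lit 8))
    (@En.n l13606 (nat_lit 5758) (nat_lit 11) (nat_lit 5))
    (@En.n l5934 (nat_lit 5692) (nat_lit 0) (nat_lit 5))))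
  (@Cl.mk (nat_lit 0x30003000800080008000d000d000800030003000800080008000d000d0008) (nat_lit 0x0) (nat_lit 8) l26827 (@T16.mk En
    (@En.n l11383 (nat_lit 5699) (nat_lit 0) (nat_lit 8))
    (@En.n l26823 (nat_lit 3631) (nat_lit 3) (nat_lit 13))
    (@En.n l11413 (nat_lit 3628) (nat_lit 11) (nat_lit 13))
    (@En.n l26824 (nat_lit 5447) (nat_lit 8) (nat_lit 8))
    (@En.n l26825 (nat_lit 5131) (nat_lit 8) (nat_lit 8))
    (@En.n l26826 (nat_lit 6014) (nat_lit 5) (nat_lit 8))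
    (@En.n l11676 (nat_lit 2959) (nat_lit 13) (nat_lit 3))
    (@En.n l28 (nat_lit 3631) (nat_lit 0) (nat_lit 3))
    (@En.n l34125 (nat_lit 5699) (nat_lit 0) (nat_lit 8))
    (@En.n l77 (nat_lit 3631) (nat_lit 3) (nat_lit 13))
    (@En.n l6140 (nat_lit 3628) (nat_lit 11) (nat_lit 13))
    (@En.n l61 (nat_lit 5447) (nat_lit 8) (nat_lit 8))
    (@En.n l10952 (nat_lit 5131) (nat_lit 8) (nat_lit 8))
    (@En.n l17953 (nat_lit 6014) (nat_lit 5) (nat_lit 8))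
    (@En.n l15355 (nat_lit 2959) (nat_lit 13) (nat_lit 3))
    (@En.n l10949 (nat_lit 3631) (nat_lit 0) (nat_lit 3))))
  (@Cl.mk (nat_lit 0x200080003000800080008000e000d000200080003000800080008000e000d) (nat_lit 0x0) (nat_lit 8) l7031 (@T16.mk En
    (@En.n l26828 (nat_lit 2959) (nat_lit 9) (nat_lit 13))
    (@En.i (nat_lit 4883) (nat_lit 10) (nat_lit 14))
    (@En.n l26829 (nat_lit 5451) (nat_lit 2) (nat_lit 8))
    (@En.n l26830 (nat_lit 5128) (nat_lit 3) (nat_lit 8))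
    (@En.n l7031 (nat_lit 2951) (nat_lit 4) (nat_lit 8))
    (@En.n l26831 (nat_lit 2959) (nat_lit 5) (nat_lit 3))
    (@En.n l11774 (nat_lit 1645) (nat_lit 0) (nat_lit 8))
    (@En.n l3 (nat_lit 50) (nat_lit 7) (nat_lit 2))
    (@En.n l43812 (nat_lit 2959) (nat_lit 9) (nat_lit 13))
    (@En.n l7031 (nat_lit 4883) (nat_lit 10) (nat_lit 14))
    (@En.n l43813 (nat_lit 5451) (nat_lit 2) (nat_lit 8))
    (@En.n l43814 (nat_lit 5128) (nat_lit 3) (nat_lit 8))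
    (@En.i (nat_lit 2951) (nat_lit 4) (nat_lit 8))
    (@En.n l43815 (nat_lit 2959) (nat_lit 5) (nat_lit 3))
    (@En.n l1724 (nat_lit 1645) (nat_lit 0) (nat_lit 8))
    (@En.n l43816 (nat_lit 50) (nat_lit 7) (nat_lit 2))))
  (@Cl.mk (nat_lit 0x4000400080008000c000c000800080004000400080008000c000c00080008) (nat_lit 0x0) (nat_lit 8) l28429 (@T16.mk En
    (@En.n l28422 (nat_lit 3371) (nat_lit 8) (nat_lit 8))
    (@En.n l14276 (nat_lit 4526) (nat_lit 1) (nat_lit 8))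
    (@En.n l28423 (nat_lit 3373) (nat_lit 4) (nat_lit 12))
    (@En.n l28424 (nat_lit 2801) (nat_lit 7) (nat_lit 12))
    (@En.n l28425 (nat_lit 3380) (nat_lit 8) (nat_lit 8))
    (@En.n l28426 (nat_lit 3481) (nat_lit 11) (nat_lit 8))
    (@En.n l28427 (nat_lit 3370) (nat_lit 12) (nat_lit 4))
    (@En.n l28428 (nat_lit 4522) (nat_lit 0) (nat_lit 4))
    (@En.n l14273 (nat_lit 3371) (nat_lit 8) (nat_lit 8))
    (@En.n l43817 (nat_lit 4526) (nat_lit 1) (nat_lit 8))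
    (@En.n l55 (nat_lit 3373) (nat_lit 4) (nat_lit 12))
    (@En.n l564 (nat_lit 2801) (nat_lit 7) (nat_lit 12))
    (@En.n l644 (nat_lit 3380) (nat_lit 8) (nat_lit 8))
    (@En.n l1353 (nat_lit 3481) (nat_lit 11) (nat_lit 8))
    (@En.n l61 (nat_lit 3370) (nat_lit 12) (nat_lit 4))
    (@En.n l43818 (nat_lit 4522) (nat_lit 0) (nat_lit 4))))
  (@Cl.mk (nat_lit 0x30008000800080005000d0008000b00030008000800080005000d0008000b) (nat_lit 0x0) (nat_lit 8) l17127 (@T16.mk En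
    (@En.i (nat_lit 4136) (nat_lit 0) (nat_lit 11))
    (@En.n l32703 (nat_lit 6532) (nat_lit 10) (nat_lit 8))
    (@En.n l32704 (nat_lit 6526) (nat_lit 11) (nat_lit 13))
    (@En.n l32705 (nat_lit 11399) (nat_lit 3) (nat_lit 5))
    (@En.n l32706 (nat_lit 5804) (nat_lit 8) (nat_lit 8))
    (@En.n l575 (nat_lit 6530) (nat_lit 8) (nat_lit 8))
    (@En.n l32707 (nat_lit 11737) (nat_lit 6) (nat_lit 8))
    (@En.n l2869 (nat_lit 5802) (nat_lit 7) (nat_lit 3))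
    (@En.n l17127 (nat_lit 4136) (nat_lit 0) (nat_lit 11))
    (@En.n l2579 (nat_lit 6532) (nat_lit 10) (nat_lit 8))
    (@En.n l25370 (nat_lit 6526) (nat_lit 11) (nat_lit 13))
    (@En.n l2669 (nat_lit 11399) (nat_lit 3) (nat_lit 5))
    (@En.n l6872 (nat_lit 5804) (nat_lit 8) (nat_lit 8))
    (@En.n l17125 (nat_lit 6530) (nat_lit 8) (nat_lit 8))
    (@En.n l6874 (nat_lit 11737) (nat_lit 6) (nat_lit 8))
    (@En.n l43819 (nat_lit 5802) (nat_lit 7) (nat_lit 3))))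
  (@Cl.mk (nat_lit 0x30008000800040008000d0008000c00030008000800040008000d0008000c) (nat_lit 0x0) (nat_lit 8) l7031 (@T16.mk En
    (@En.i (nat_lit 2747) (nat_lit 0) (nat_lit 12))
    (@En.n l35133 (nat_lit 11740) (nat_lit 4) (nat_lit 8))
    (@En.n l3508 (nat_lit 10927) (nat_lit 11) (nat_lit 13))
    (@En.n l35134 (nat_lit 3252) (nat_lit 11) (nat_lit 8))
    (@En.n l35135 (nat_lit 10561) (nat_lit 4) (nat_lit 4))
    (@En.n l61 (nat_lit 12145) (nat_lit 8) (nat_lit 8))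
    (@En.n l7031 (nat_lit 10562) (nat_lit 1) (nat_lit 8))
    (@En.n l7264 (nat_lit 10560) (nat_lit 7) (nat_lit 3))
    (@En.n l7031 (nat_lit 2747) (nat_lit 0) (nat_lit 12))
    (@En.n l3384 (nat_lit 11740) (nat_lit 4) (nat_lit 8))
    (@En.n l2790 (nat_lit 10927) (nat_lit 11) (nat_lit 13))
    (@En.n l20089 (nat_lit 3252) (nat_lit 11) (nat_lit 8))
    (@En.n l19424 (nat_lit 10561) (nat_lit 4) (nat_lit 4))
    (@En.n l43770 (nat_lit 12145) (nat_lit 8) (nat_lit 8))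
    (@En.i (nat_lit 10562) (nat_lit 1) (nat_lit 8))
    (@En.n l43820 (nat_lit 10560) (nat_lit 7) (nat_lit 3))))
  (@Cl.mk (nat_lit 0x30008000800050008000d000b000800030008000800050008000d000b0008) (nat_lit 0x0) (nat_lit 8) l24080 (@T16.mk En
    (@En.n l35138 (nat_lit 9327) (nat_lit 0) (nat_lit 8))
    (@En.n l19475 (nat_lit 10558) (nat_lit 10) (nat_lit 11))
    (@En.n l35153 (nat_lit 10928) (nat_lit 11) (nat_lit 13))
    (@En.n l35154 (nat_lit 3253) (nat_lit 10) (nat_lit 8))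
    (@En.n l6080 (nat_lit 10600) (nat_lit 4) (nat_lit 5))
    (@En.n l35155 (nat_lit 12233) (nat_lit 8) (nat_lit 8))
    (@En.n l35156 (nat_lit 10552) (nat_lit 6) (nat_lit 8))
    (@En.n l18 (nat_lit 10560) (nat_lit 15) (nat_lit 3))
    (@En.n l19472 (nat_lit 9327) (nat_lit 0) (nat_lit 8))
    (@En.n l43821 (nat_lit 10558) (nat_lit 10) (nat_lit 11))
    (@En.n l7441 (nat_lit 10928) (nat_lit 11) (nat_lit 13))
    (@En.n l7471 (nat_lit 3253) (nat_lit 10) (nat_lit 8))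
    (@En.n l39207 (nat_lit 10600) (nat_lit 4) (nat_lit 5))
    (@En.n l152 (nat_lit 12233) (nat_lit 8) (nat_lit 8))
    (@En.n l29923 (nat_lit 10552) (nat_lit 6) (nat_lit 8))
    (@En.n l39208 (nat_lit 10560) (nat_lit 15) (nat_lit 3))))
  (@Cl.mk (nat_lit 0x30008000b00080008000d0008000500030008000b00080008000d00080005) (nat_lit 0x0) (nat_lit 8) l36564 (@T16.mk En
    (@En.n l36559 (nat_lit 7562) (nat_lit 0) (nat_lit 5))
    (@En.n l36560 (nat_lit 12173) (nat_lit 0) (nat_lit 8))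
    (@En.n l36561 (nat_lit 10444) (nat_lit 11) (nat_lit 13))
    (@En.n l36562 (nat_lit 12074) (nat_lit 8) (nat_lit 8))
    (@En.n l36563 (nat_lit 10730) (nat_lit 4) (nat_lit 8))
    (@En.n l36564 (nat_lit 5615) (nat_lit 7) (nat_lit 11))
    (@En.n l36565 (nat_lit 10605) (nat_lit 6) (nat_lit 8))
    (@En.n l36566 (nat_lit 10607) (nat_lit 15) (nat_lit 3))
    (@En.n l28 (nat_lit 7562) (nat_lit 0) (nat_lit 5))
    (@En.n l6576 (nat_lit 12173) (nat_lit 0) (nat_lit 8))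
    (@En.n l23976 (nat_lit 10444) (nat_lit 11) (nat_lit 13))
    (@En.n l61 (nat_lit 12074) (nat_lit 8) (nat_lit 8))
    (@En.n l601 (nat_lit 10730) (nat_lit 4) (nat_lit 8))
    (@En.i (nat_lit 5615) (nat_lit 7) (nat_lit 11))
    (@En.n l43822 (nat_lit 10605) (nat_lit 6) (nat_lit 8))
    (@En.n l152 (nat_lit 10607) (nat_lit 15) (nat_lit 3))))
  (@Cl.mk (nat_lit 0x4000800050008000c000b000800080004000800050008000c000b00080008) (nat_lit 0x0) (nat_lit 8) l31418 (@T16.mk En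
    (@En.n l36573 (nat_lit 12480) (nat_lit 8) (nat_lit 8))
    (@En.n l36574 (nat_lit 10031) (nat_lit 1) (nat_lit 8))
    (@En.n l36575 (nat_lit 10605) (nat_lit 5) (nat_lit 11))
    (@En.n l19379 (nat_lit 11936) (nat_lit 7) (nat_lit 12))
    (@En.n l23876 (nat_lit 2802) (nat_lit 10) (nat_lit 8))
    (@En.n l36576 (nat_lit 7256) (nat_lit 5) (nat_lit 5))
    (@En.n l36577 (nat_lit 12174) (nat_lit 11) (nat_lit 8))
    (@En.n l8648 (nat_lit 10026) (nat_lit 15) (nat_lit 4))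
    (@En.n l8649 (nat_lit 12480) (nat_lit 8) (nat_lit 8))
    (@En.n l20547 (nat_lit 10031) (nat_lit 1) (nat_lit 8))
    (@En.n l43823 (nat_lit 10605) (nat_lit 5) (nat_lit 11))
    (@En.n l36576 (nat_lit 11936) (nat_lit 7) (nat_lit 12))
    (@En.n l50 (nat_lit 2802) (nat_lit 10) (nat_lit 8))
    (@En.n l19379 (nat_lit 7256) (nat_lit 5) (nat_lit 5))
    (@En.n l35600 (nat_lit 12174) (nat_lit 11) (nat_lit 8))
    (@En.n l18543 (nat_lit 10026) (nat_lit 15) (nat_lit 4))))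
  (@Cl.mk (nat_lit 0x3000b000800080008000d000500080003000b000800080008000d00050008) (nat_lit 0x0) (nat_lit 8) l26756 (@T16.mk En
    (@En.n l5050 (nat_lit 5018) (nat_lit 10) (nat_lit 8))
    (@En.n l21089 (nat_lit 5172) (nat_lit 9) (nat_lit 5))
    (@En.n l36982 (nat_lit 4176) (nat_lit 11) (nat_lit 13))
    (@En.n l26755 (nat_lit 6539) (nat_lit 8) (nat_lit 8))
    (@En.n l36983 (nat_lit 6579) (nat_lit 8) (nat_lit 8))
    (@En.n l36984 (nat_lit 10953) (nat_lit 14) (nat_lit 8))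
    (@En.n l2037 (nat_lit 5173) (nat_lit 7) (nat_lit 11))
    (@En.n l2221 (nat_lit 6449) (nat_lit 7) (nat_lit 3))
    (@En.n l43824 (nat_lit 5018) (nat_lit 10) (nat_lit 8))
    (@En.n l3596 (nat_lit 5172) (nat_lit 9) (nat_lit 5))
    (@En.n l8910 (nat_lit 4176) (nat_lit 11) (nat_lit 13))
    (@En.n l644 (nat_lit 6539) (nat_lit 8) (nat_lit 8))
    (@En.n l2650 (nat_lit 6579) (nat_lit 8) (nat_lit 8))
    (@En.n l43825 (nat_lit 10953) (nat_lit 14) (nat_lit 8))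
    (@En.n l21092 (nat_lit 5173) (nat_lit 7) (nat_lit 11))
    (@En.n l43826 (nat_lit 6449) (nat_lit 7) (nat_lit 3))))
  (@Cl.mk (nat_lit 0x60006000a000a000800080008000800060006000a000a0008000800080008) (nat_lit 0x0) (nat_lit 8) l38644 (@T16.mk En
    (@En.n l8390 (nat_lit 4892) (nat_lit 8) (nat_lit 8))
    (@En.n l38641 (nat_lit 3167) (nat_lit 8) (nat_lit 8))
    (@En.n l38642 (nat_lit 4783) (nat_lit 8) (nat_lit 8))
    (@En.n l38490 (nat_lit 7735) (nat_lit 8) (nat_lit 8))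
    (@En.n l38643 (nat_lit 4780) (nat_lit 6) (nat_lit 10))
    (@En.n l38644 (nat_lit 3152) (nat_lit 9) (nat_lit 10))
    (@En.n l10508 (nat_lit 3169) (nat_lit 10) (nat_lit 6))
    (@En.n l23001 (nat_lit 6444) (nat_lit 10) (nat_lit 6))
    (@En.n l43827 (nat_lit 4892) (nat_lit 8) (nat_lit 8))
    (@En.n l43828 (nat_lit 3167) (nat_lit 8) (nat_lit 8))
    (@En.n l4969 (nat_lit 4783) (nat_lit 8) (nat_lit 8))
    (@En.n l26559 (nat_lit 7735) (nat_lit 8) (nat_lit 8))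
    (@En.n l644 (nat_lit 4780) (nat_lit 6) (nat_lit 10))
    (@En.i (nat_lit 3152) (nat_lit 9) (nat_lit 10))
    (@En.n l61 (nat_lit 3169) (nat_lit 10) (nat_lit 6))
    (@En.n l7398 (nat_lit 6444) (nat_lit 10) (nat_lit 6))))
  (@Cl.mk (nat_lit 0x5000a0008000b00080008000800060005000a0008000b0008000800080006) (nat_lit 0x0) (nat_lit 8) l39149 (@T16.mk En
    (@En.n l8116 (nat_lit 11087) (nat_lit 10) (nat_lit 6))
    (@En.n l23695 (nat_lit 6542) (nat_lit 8) (nat_lit 8))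
    (@En.n l55 (nat_lit 5169) (nat_lit 8) (nat_lit 8))
    (@En.n l39158 (nat_lit 11079) (nat_lit 8) (nat_lit 8))
    (@En.i (nat_lit 5700) (nat_lit 7) (nat_lit 11))
    (@En.n l39159 (nat_lit 5173) (nat_lit 8) (nat_lit 8))
    (@En.n l4021 (nat_lit 5435) (nat_lit 10) (nat_lit 10))
    (@En.i (nat_lit 5167) (nat_lit 11) (nat_lit 5))
    (@En.n l43829 (nat_lit 11087) (nat_lit 10) (nat_lit 6))
    (@En.n l11086 (nat_lit 6542) (nat_lit 8) (nat_lit 8))
    (@En.n l43830 (nat_lit 5169) (nat_lit 8) (nat_lit 8))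
    (@En.n l11088 (nat_lit 11079) (nat_lit 8) (nat_lit 8))
    (@En.n l39149 (nat_lit 5700) (nat_lit 7) (nat_lit 11))
    (@En.n l43831 (nat_lit 5173) (nat_lit 8) (nat_lit 8))
    (@En.n l43832 (nat_lit 5435) (nat_lit 10) (nat_lit 10))
    (@En.n l39149 (nat_lit 5167) (nat_lit 11) (nat_lit 5))))
  (@Cl.mk (nat_lit 0x4000800080005000c0008000b00080004000800080005000c0008000b0008) (nat_lit 0x0) (nat_lit 8) l24080 (@T16.mk En
    (@En.n l39207 (nat_lit 4527) (nat_lit 0) (nat_lit 8))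
    (@En.i (nat_lit 10336) (nat_lit 7) (nat_lit 11))
    (@En.n l7433 (nat_lit 4537) (nat_lit 14) (nat_lit 8))
    (@En.n l6840 (nat_lit 4538) (nat_lit 12) (nat_lit 12))
    (@En.n l39207 (nat_lit 9843) (nat_lit 4) (nat_lit 5))
    (@En.n l152 (nat_lit 10342) (nat_lit 8) (nat_lit 8))
    (@En.n l4806 (nat_lit 10389) (nat_lit 11) (nat_lit 8))
    (@En.n l39208 (nat_lit 11479) (nat_lit 15) (nat_lit 4))
    (@En.n l6080 (nat_lit 4527) (nat_lit 0) (nat_lit 8))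
    (@En.n l24080 (nat_lit 10336) (nat_lit 7) (nat_lit 11))
    (@En.n l43614 (nat_lit 4537) (nat_lit 14) (nat_lit 8))
    (@En.n l43833 (nat_lit 4538) (nat_lit 12) (nat_lit 12))
    (@En.n l6080 (nat_lit 9843) (nat_lit 4) (nat_lit 5))
    (@En.n l35155 (nat_lit 10342) (nat_lit 8) (nat_lit 8))
    (@En.n l43834 (nat_lit 10389) (nat_lit 11) (nat_lit 8))
    (@En.n l18 (nat_lit 11479) (nat_lit 15) (nat_lit 4))))
  (@Cl.mk (nat_lit 0x30008000400080008000d000c000800030008000400080008000d000c0008) (nat_lit 0x0) (nat_lit 8) l39211 (@T16.mk En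
    (@En.n l12066 (nat_lit 10090) (nat_lit 0) (nat_lit 8))
    (@En.n l39209 (nat_lit 4525) (nat_lit 4) (nat_lit 12))
    (@En.n l6825 (nat_lit 10075) (nat_lit 11) (nat_lit 13))
    (@En.n l39210 (nat_lit 4707) (nat_lit 8) (nat_lit 8))
    (@En.n l39211 (nat_lit 10457) (nat_lit 4) (nat_lit 8))
    (@En.i (nat_lit 4521) (nat_lit 5) (nat_lit 4))
    (@En.n l39212 (nat_lit 11466) (nat_lit 0) (nat_lit 8))
    (@En.n l4814 (nat_lit 10454) (nat_lit 15) (nat_lit 3))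
    (@En.n l24083 (nat_lit 10090) (nat_lit 0) (nat_lit 8))
    (@En.n l24085 (nat_lit 4525) (nat_lit 4) (nat_lit 12))
    (@En.n l43835 (nat_lit 10075) (nat_lit 11) (nat_lit 13))
    (@En.n l77 (nat_lit 4707) (nat_lit 8) (nat_lit 8))
    (@En.i (nat_lit 10457) (nat_lit 4) (nat_lit 8))
    (@En.n l39211 (nat_lit 4521) (nat_lit 5) (nat_lit 4))
    (@En.n l43836 (nat_lit 11466) (nat_lit 0) (nat_lit 8))
    (@En.n l43837 (nat_lit 10454) (nat_lit 15) (nat_lit 3))))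
  (@Cl.mk (nat_lit 0x2000a0008000800080008000e00060002000a0008000800080008000e0006) (nat_lit 0x0) (nat_lit 8) l39227 (@T16.mk En
    (@En.n l61 (nat_lit 4780) (nat_lit 8) (nat_lit 6))
    (@En.n l39222 (nat_lit 5746) (nat_lit 10) (nat_lit 14))
    (@En.n l8390 (nat_lit 2118) (nat_lit 2) (nat_lit 8))
    (@En.n l39223 (nat_lit 4827) (nat_lit 3) (nat_lit 8))
    (@En.n l39224 (nat_lit 2119) (nat_lit 8) (nat_lit 8))
    (@En.n l39225 (nat_lit 5736) (nat_lit 14) (nat_lit 8))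
    (@En.n l39226 (nat_lit 2123) (nat_lit 7) (nat_lit 10))
    (@En.n l50 (nat_lit 62) (nat_lit 7) (nat_lit 2))
    (@En.n l38643 (nat_lit 4780) (nat_lit 8) (nat_lit 6))
    (@En.n l43838 (nat_lit 5746) (nat_lit 10) (nat_lit 14))
    (@En.n l43839 (nat_lit 2118) (nat_lit 2) (nat_lit 8))
    (@En.n l43840 (nat_lit 4827) (nat_lit 3) (nat_lit 8))
    (@En.n l43841 (nat_lit 2119) (nat_lit 8) (nat_lit 8))
    (@En.n l43842 (nat_lit 5736) (nat_lit 14) (nat_lit 8))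
    (@En.n l13902 (nat_lit 2123) (nat_lit 7) (nat_lit 10))
    (@En.n l43843 (nat_lit 62) (nat_lit 7) (nat_lit 2))))
  (@Cl.mk (nat_lit 0x30008000800080006000d000a000800030008000800080006000d000a0008) (nat_lit 0x0) (nat_lit 8) l39232 (@T16.mk En
    (@En.n l39228 (nat_lit 5714) (nat_lit 0) (nat_lit 8))
    (@En.n l1236 (nat_lit 5168) (nat_lit 10) (nat_lit 10))
    (@En.n l6444 (nat_lit 5436) (nat_lit 11) (nat_lit 13))
    (@En.n l16496 (nat_lit 11406) (nat_lit 3) (nat_lit 6))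
    (@En.n l39229 (nat_lit 5801) (nat_lit 8) (nat_lit 8))
    (@En.n l39230 (nat_lit 7728) (nat_lit 8) (nat_lit 8))
    (@En.n l39231 (nat_lit 10424) (nat_lit 6) (nat_lit 8))
    (@En.n l28 (nat_lit 5802) (nat_lit 15) (nat_lit 3))
    (@En.n l9845 (nat_lit 5714) (nat_lit 0) (nat_lit 8))
    (@En.n l29329 (nat_lit 5168) (nat_lit 10) (nat_lit 10))
    (@En.n l42307 (nat_lit 5436) (nat_lit 11) (nat_lit 13))
    (@En.n l34327 (nat_lit 11406) (nat_lit 3) (nat_lit 6))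
    (@En.n l27594 (nat_lit 5801) (nat_lit 8) (nat_lit 8))
    (@En.n l644 (nat_lit 7728) (nat_lit 8) (nat_lit 8))
    (@En.n l23940 (nat_lit 10424) (nat_lit 6) (nat_lit 8))
    (@En.n l43844 (nat_lit 5802) (nat_lit 15) (nat_lit 3))))
noncomputable def a4 : T16 Cl := @T16.mk Cl
  (@Cl.mk (nat_lit 0x20002000e00060002000a000e000e00020002000e00060002000a000e000e) (nat_lit 0xc0000000c0) (nat_lit 8) l27103 (@T16.mk En
    (@En.n l97 (nat_lit 64) (nat_lit 1) (nat_lit 14))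
    (@En.n l11680 (nat_lit 282) (nat_lit 10) (nat_lit 14))
    (@En.i (nat_lit 13946) (nat_lit 11) (nat_lit 10))
    (@En.n l8 (nat_lit 64) (nat_lit 3) (nat_lit 2))
    (@En.i (nat_lit 254) (nat_lit 13) (nat_lit 6))
    (@En.n l4670 (nat_lit 276) (nat_lit 6) (nat_lit 14))
    (@En.n l17 (nat_lit 64) (nat_lit 6) (nat_lit 2))
    (@En.n l18 (nat_lit 64) (nat_lit 7) (nat_lit 2))
    (@En.n l43845 (nat_lit 64) (nat_lit 1) (nat_lit 14))
    (@En.n l420 (nat_lit 282) (nat_lit 10) (nat_lit 14))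
    (@En.n l27103 (nat_lit 13946) (nat_lit 11) (nat_lit 10))
    (@En.n l12238 (nat_lit 64) (nat_lit 3) (nat_lit 2))
    (@En.n l27103 (nat_lit 254) (nat_lit 13) (nat_lit 6))
    (@En.n l28438 (nat_lit 276) (nat_lit 6) (nat_lit 14))
    (@En.n l43846 (nat_lit 64) (nat_lit 6) (nat_lit 2))
    (@En.n l43847 (nat_lit 64) (nat_lit 7) (nat_lit 2))))
  (@Cl.mk (nat_lit 0x2000200060006000a000a000e000e0002000200060006000a000a000e000e) (nat_lit 0xc0000000c0) (nat_lit 8) l1874 (@T16.mk En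
    (@En.n l97 (nat_lit 65) (nat_lit 1) (nat_lit 14))
    (@En.i (nat_lit 249) (nat_lit 10) (nat_lit 14))
    (@En.n l172 (nat_lit 254) (nat_lit 11) (nat_lit 10))
    (@En.n l1599 (nat_lit 13944) (nat_lit 12) (nat_lit 10))
    (@En.n l77 (nat_lit 269) (nat_lit 4) (nat_lit 6))
    (@En.n l11977 (nat_lit 248) (nat_lit 5) (nat_lit 6))
    (@En.n l17 (nat_lit 65) (nat_lit 6) (nat_lit 2))
    (@En.n l18 (nat_lit 65) (nat_lit 7) (nat_lit 2))
    (@En.n l43848 (nat_lit 65) (nat_lit 1) (nat_lit 14))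
    (@En.n l1874 (nat_lit 249) (nat_lit 10) (nat_lit 14))
    (@En.n l5530 (nat_lit 254) (nat_lit 11) (nat_lit 10))
    (@En.n l11977 (nat_lit 13944) (nat_lit 12) (nat_lit 10))
    (@En.n l11983 (nat_lit 269) (nat_lit 4) (nat_lit 6))
    (@En.n l1599 (nat_lit 248) (nat_lit 5) (nat_lit 6))
    (@En.n l43849 (nat_lit 65) (nat_lit 6) (nat_lit 2))
    (@En.n l43850 (nat_lit 65) (nat_lit 7) (nat_lit 2))))
  (@Cl.mk (nat_lit 0x40004000c0004000c000c0004000c00040004000c0004000c000c0004000c) (nat_lit 0x0) (nat_lit 8) l1998 (@T16.mk En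
    (@En.i (nat_lit 315) (nat_lit 0) (nat_lit 12))
    (@En.n l1998 (nat_lit 12694) (nat_lit 1) (nat_lit 4))
    (@En.n l634 (nat_lit 12660) (nat_lit 4) (nat_lit 12))
    (@En.n l14431 (nat_lit 10537) (nat_lit 1) (nat_lit 12))
    (@En.n l5834 (nat_lit 12427) (nat_lit 4) (nat_lit 4))
    (@En.n l7 (nat_lit 12446) (nat_lit 0) (nat_lit 12))
    (@En.n l644 (nat_lit 12647) (nat_lit 12) (nat_lit 4))
    (@En.n l32576 (nat_lit 12583) (nat_lit 0) (nat_lit 4))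
    (@En.n l1998 (nat_lit 315) (nat_lit 0) (nat_lit 12))
    (@En.i (nat_lit 12694) (nat_lit 1) (nat_lit 4))
    (@En.n l5837 (nat_lit 12660) (nat_lit 4) (nat_lit 12))
    (@En.n l43851 (nat_lit 10537) (nat_lit 1) (nat_lit 12))
    (@En.n l3289 (nat_lit 12427) (nat_lit 4) (nat_lit 4))
    (@En.n l2876 (nat_lit 12446) (nat_lit 0) (nat_lit 12))
    (@En.n l5839 (nat_lit 12647) (nat_lit 12) (nat_lit 4))
    (@En.n l20048 (nat_lit 12583) (nat_lit 0) (nat_lit 4))))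
  (@Cl.mk (nat_lit 0x5000a0005000b0006000b000a00060005000a0005000b0006000b000a0006) (nat_lit 0x0) (nat_lit 8) l38213 (@T16.mk En
    (@En.n l40987 (nat_lit 10280) (nat_lit 0) (nat_lit 6))
    (@En.i (nat_lit 11987) (nat_lit 6) (nat_lit 10))
    (@En.n l29989 (nat_lit 10644) (nat_lit 9) (nat_lit 11))
    (@En.n l21574 (nat_lit 8010) (nat_lit 2) (nat_lit 6))
    (@En.n l40988 (nat_lit 10281) (nat_lit 3) (nat_lit 11))
    (@En.n l32505 (nat_lit 8013) (nat_lit 5) (nat_lit 5))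
    (@En.n l345 (nat_lit 10481) (nat_lit 10) (nat_lit 10))
    (@En.n l40989 (nat_lit 11793) (nat_lit 11) (nat_lit 5))
    (@En.n l43852 (nat_lit 10280) (nat_lit 0) (nat_lit 6))
    (@En.n l38213 (nat_lit 11987) (nat_lit 6) (nat_lit 10))
    (@En.n l43853 (nat_lit 10644) (nat_lit 9) (nat_lit 11))
    (@En.n l43854 (nat_lit 8010) (nat_lit 2) (nat_lit 6))
    (@En.n l43855 (nat_lit 10281) (nat_lit 3) (nat_lit 11))
    (@En.n l43856 (nat_lit 8013) (nat_lit 5) (nat_lit 5))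
    (@En.n l43857 (nat_lit 10481) (nat_lit 10) (nat_lit 10))
    (@En.n l43858 (nat_lit 11793) (nat_lit 11) (nat_lit 5))))
  (@Cl.mk (nat_lit 0x3000a000800080008000d000800060003000a000800080008000d00080006) (nat_lit 0x0) (nat_lit 8) l42021 (@T16.mk En
    (@En.n l42321 (nat_lit 6470) (nat_lit 0) (nat_lit 6))
    (@En.n l30795 (nat_lit 6438) (nat_lit 10) (nat_lit 8))
    (@En.n l42322 (nat_lit 12065) (nat_lit 11) (nat_lit 13))
    (@En.n l42323 (nat_lit 6536) (nat_lit 8) (nat_lit 8))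
    (@En.n l42324 (nat_lit 6528) (nat_lit 8) (nat_lit 8))
    (@En.n l31721 (nat_lit 11420) (nat_lit 14) (nat_lit 8))
    (@En.n l42325 (nat_lit 6527) (nat_lit 7) (nat_lit 10))
    (@En.n l42326 (nat_lit 6449) (nat_lit 15) (nat_lit 3))
    (@En.n l18 (nat_lit 6470) (nat_lit 0) (nat_lit 6))
    (@En.n l43859 (nat_lit 6438) (nat_lit 10) (nat_lit 8))
    (@En.n l23143 (nat_lit 12065) (nat_lit 11) (nat_lit 13))
    (@En.n l575 (nat_lit 6536) (nat_lit 8) (nat_lit 8))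
    (@En.n l43860 (nat_lit 6528) (nat_lit 8) (nat_lit 8))
    (@En.n l42020 (nat_lit 11420) (nat_lit 14) (nat_lit 8))
    (@En.n l43861 (nat_lit 6527) (nat_lit 7) (nat_lit 10))
    (@En.n l7 (nat_lit 6449) (nat_lit 15) (nat_lit 3))))
  (@Cl.mk (nat_lit 0x200080008000c00080008000e0004000200080008000c00080008000e0004) (nat_lit 0x0) (nat_lit 8) l12940 (@T16.mk En
    (@En.n l42376 (nat_lit 3373) (nat_lit 8) (nat_lit 4))
    (@En.i (nat_lit 4488) (nat_lit 10) (nat_lit 14))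
    (@En.n l42377 (nat_lit 3374) (nat_lit 2) (nat_lit 8))
    (@En.n l42378 (nat_lit 4834) (nat_lit 3) (nat_lit 8))
    (@En.n l12940 (nat_lit 2784) (nat_lit 13) (nat_lit 12))
    (@En.n l42379 (nat_lit 3412) (nat_lit 14) (nat_lit 8))
    (@En.n l42380 (nat_lit 3479) (nat_lit 6) (nat_lit 8))
    (@En.n l28 (nat_lit 69) (nat_lit 7) (nat_lit 2))
    (@En.n l43862 (nat_lit 3373) (nat_lit 8) (nat_lit 4))
    (@En.n l12940 (nat_lit 4488) (nat_lit 10) (nat_lit 14))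
    (@En.n l20485 (nat_lit 3374) (nat_lit 2) (nat_lit 8))
    (@En.n l43863 (nat_lit 4834) (nat_lit 3) (nat_lit 8))
    (@En.i (nat_lit 2784) (nat_lit 13) (nat_lit 12))
    (@En.n l1504 (nat_lit 3412) (nat_lit 14) (nat_lit 8))
    (@En.n l34758 (nat_lit 3479) (nat_lit 6) (nat_lit 8))
    (@En.n l43864 (nat_lit 69) (nat_lit 7) (nat_lit 2))))
  (@Cl.mk (nat_lit 0x4000b00080008000c0008000500080004000b00080008000c000800050008) (nat_lit 0x0) (nat_lit 8) l36564 (@T16.mk En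
    (@En.n l27012 (nat_lit 3410) (nat_lit 10) (nat_lit 8))
    (@En.n l36559 (nat_lit 11441) (nat_lit 1) (nat_lit 5))
    (@En.n l42550 (nat_lit 5240) (nat_lit 0) (nat_lit 8))
    (@En.n l36561 (nat_lit 10571) (nat_lit 7) (nat_lit 12))
    (@En.n l36562 (nat_lit 10902) (nat_lit 8) (nat_lit 8))
    (@En.n l37603 (nat_lit 4312) (nat_lit 14) (nat_lit 8))
    (@En.n l42551 (nat_lit 4536) (nat_lit 13) (nat_lit 11))
    (@En.n l42552 (nat_lit 10904) (nat_lit 7) (nat_lit 4))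
    (@En.n l43865 (nat_lit 3410) (nat_lit 10) (nat_lit 8))
    (@En.n l28 (nat_lit 11441) (nat_lit 1) (nat_lit 5))
    (@En.n l478 (nat_lit 5240) (nat_lit 0) (nat_lit 8))
    (@En.n l23976 (nat_lit 10571) (nat_lit 7) (nat_lit 12))
    (@En.n l61 (nat_lit 10902) (nat_lit 8) (nat_lit 8))
    (@En.n l10134 (nat_lit 4312) (nat_lit 14) (nat_lit 8))
    (@En.n l5011 (nat_lit 4536) (nat_lit 13) (nat_lit 11))
    (@En.n l43866 (nat_lit 10904) (nat_lit 7) (nat_lit 4))))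
  (@Cl.mk (nat_lit 0x300080008000c0008000d00080004000300080008000c0008000d00080004) (nat_lit 0x0) (nat_lit 8) l39142 (@T16.mk En
    (@En.n l39142 (nat_lit 3411) (nat_lit 0) (nat_lit 4))
    (@En.n l9530 (nat_lit 10909) (nat_lit 0) (nat_lit 8))
    (@En.i (nat_lit 2956) (nat_lit 1) (nat_lit 13))
    (@En.n l42565 (nat_lit 11391) (nat_lit 3) (nat_lit 8))
    (@En.n l42566 (nat_lit 10437) (nat_lit 13) (nat_lit 12))
    (@En.n l42567 (nat_lit 4710) (nat_lit 8) (nat_lit 8))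
    (@En.n l40099 (nat_lit 10450) (nat_lit 6) (nat_lit 8))
    (@En.n l42568 (nat_lit 10455) (nat_lit 15) (nat_lit 3))
    (@En.i (nat_lit 3411) (nat_lit 0) (nat_lit 4))
    (@En.n l43867 (nat_lit 10909) (nat_lit 0) (nat_lit 8))
    (@En.n l39142 (nat_lit 2956) (nat_lit 1) (nat_lit 13))
    (@En.n l10861 (nat_lit 11391) (nat_lit 3) (nat_lit 8))
    (@En.n l29439 (nat_lit 10437) (nat_lit 13) (nat_lit 12))
    (@En.n l61 (nat_lit 4710) (nat_lit 8) (nat_lit 8))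
    (@En.n l8017 (nat_lit 10450) (nat_lit 6) (nat_lit 8))
    (@En.n l10862 (nat_lit 10455) (nat_lit 15) (nat_lit 3))))
  (@Cl.mk (nat_lit 0x40008000b0008000c00080008000500040008000b0008000c000800080005) (nat_lit 0x0) (nat_lit 8) l42724 (@T16.mk En
    (@En.n l22921 (nat_lit 10596) (nat_lit 0) (nat_lit 5))
    (@En.n l9272 (nat_lit 12142) (nat_lit 8) (nat_lit 8))
    (@En.n l42723 (nat_lit 10555) (nat_lit 1) (nat_lit 8))
    (@En.i (nat_lit 2753) (nat_lit 7) (nat_lit 12))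
    (@En.n l28929 (nat_lit 11801) (nat_lit 4) (nat_lit 8))
    (@En.i (nat_lit 10990) (nat_lit 7) (nat_lit 11))
    (@En.n l15973 (nat_lit 10558) (nat_lit 11) (nat_lit 8))
    (@En.i (nat_lit 10559) (nat_lit 12) (nat_lit 4))
    (@En.n l43868 (nat_lit 10596) (nat_lit 0) (nat_lit 5))
    (@En.n l43013 (nat_lit 12142) (nat_lit 8) (nat_lit 8))
    (@En.n l3518 (nat_lit 10555) (nat_lit 1) (nat_lit 8))
    (@En.n l42724 (nat_lit 2753) (nat_lit 7) (nat_lit 12))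
    (@En.n l43869 (nat_lit 11801) (nat_lit 4) (nat_lit 8))
    (@En.n l42724 (nat_lit 10990) (nat_lit 7) (nat_lit 11))
    (@En.n l43870 (nat_lit 10558) (nat_lit 11) (nat_lit 8))
    (@En.n l42724 (nat_lit 10559) (nat_lit 12) (nat_lit 4))))
  (@Cl.mk (nat_lit 0x4000a00080008000c0008000800060004000a00080008000c000800080006) (nat_lit 0x0) (nat_lit 8) l42343 (@T16.mk En
    (@En.n l38311 (nat_lit 10704) (nat_lit 0) (nat_lit 6))
    (@En.n l42895 (nat_lit 11687) (nat_lit 8) (nat_lit 8))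
    (@En.n l42896 (nat_lit 11054) (nat_lit 1) (nat_lit 8))
    (@En.i (nat_lit 10924) (nat_lit 7) (nat_lit 12))
    (@En.n l42897 (nat_lit 10911) (nat_lit 8) (nat_lit 8))
    (@En.n l42898 (nat_lit 11968) (nat_lit 14) (nat_lit 8))
    (@En.n l42899 (nat_lit 8009) (nat_lit 11) (nat_lit 10))
    (@En.n l29772 (nat_lit 10913) (nat_lit 12) (nat_lit 4))
    (@En.n l43871 (nat_lit 10704) (nat_lit 0) (nat_lit 6))
    (@En.n l43872 (nat_lit 11687) (nat_lit 8) (nat_lit 8))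
    (@En.n l43873 (nat_lit 11054) (nat_lit 1) (nat_lit 8))
    (@En.n l42343 (nat_lit 10924) (nat_lit 7) (nat_lit 12))
    (@En.n l43874 (nat_lit 10911) (nat_lit 8) (nat_lit 8))
    (@En.n l43875 (nat_lit 11968) (nat_lit 14) (nat_lit 8))
    (@En.n l43876 (nat_lit 8009) (nat_lit 11) (nat_lit 10))
    (@En.n l43877 (nat_lit 10913) (nat_lit 12) (nat_lit 4))))
  (@Cl.mk (nat_lit 0x500080005000b0008000b00080008000500080005000b0008000b00080008) (nat_lit 0x0) (nat_lit 8) l42724 (@T16.mk En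
    (@En.n l43013 (nat_lit 4541) (nat_lit 8) (nat_lit 8))
    (@En.n l3518 (nat_lit 10393) (nat_lit 1) (nat_lit 8))
    (@En.n l42724 (nat_lit 11568) (nat_lit 7) (nat_lit 11))
    (@En.n l43014 (nat_lit 4536) (nat_lit 14) (nat_lit 8))
    (@En.n l43015 (nat_lit 4537) (nat_lit 13) (nat_lit 11))
    (@En.n l42724 (nat_lit 11446) (nat_lit 11) (nat_lit 5))
    (@En.n l43016 (nat_lit 5275) (nat_lit 10) (nat_lit 8))
    (@En.n l22921 (nat_lit 9846) (nat_lit 1) (nat_lit 5))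
    (@En.n l9272 (nat_lit 4541) (nat_lit 8) (nat_lit 8))
    (@En.n l42723 (nat_lit 10393) (nat_lit 1) (nat_lit 8))
    (@En.i (nat_lit 11568) (nat_lit 7) (nat_lit 11))
    (@En.n l12268 (nat_lit 4536) (nat_lit 14) (nat_lit 8))
    (@En.n l43878 (nat_lit 4537) (nat_lit 13) (nat_lit 11))
    (@En.i (nat_lit 11446) (nat_lit 11) (nat_lit 5))
    (@En.n l13131 (nat_lit 5275) (nat_lit 10) (nat_lit 8))
    (@En.n l43868 (nat_lit 9846) (nat_lit 1) (nat_lit 5))))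
  (@Cl.mk (nat_lit 0x30008000c00080008000d0004000800030008000c00080008000d00040008) (nat_lit 0x0) (nat_lit 8) l12940 (@T16.mk En
    (@En.n l41556 (nat_lit 10112) (nat_lit 0) (nat_lit 8))
    (@En.n l34752 (nat_lit 10606) (nat_lit 9) (nat_lit 4))
    (@En.i (nat_lit 9556) (nat_lit 0) (nat_lit 13))
    (@En.n l42377 (nat_lit 12483) (nat_lit 8) (nat_lit 8))
    (@En.n l42378 (nat_lit 10728) (nat_lit 4) (nat_lit 8))
    (@En.n l43221 (nat_lit 11023) (nat_lit 14) (nat_lit 12))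
    (@En.n l43222 (nat_lit 2797) (nat_lit 6) (nat_lit 8))
    (@En.n l20482 (nat_lit 10607) (nat_lit 7) (nat_lit 3))
    (@En.n l2571 (nat_lit 10112) (nat_lit 0) (nat_lit 8))
    (@En.n l36497 (nat_lit 10606) (nat_lit 9) (nat_lit 4))
    (@En.n l12940 (nat_lit 9556) (nat_lit 0) (nat_lit 13))
    (@En.n l20485 (nat_lit 12483) (nat_lit 8) (nat_lit 8))
    (@En.n l43863 (nat_lit 10728) (nat_lit 4) (nat_lit 8))
    (@En.n l20482 (nat_lit 11023) (nat_lit 14) (nat_lit 12))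
    (@En.n l43879 (nat_lit 2797) (nat_lit 6) (nat_lit 8))
    (@En.n l43221 (nat_lit 10607) (nat_lit 7) (nat_lit 3))))
  (@Cl.mk (nat_lit 0x500080006000b000a000800080008000500080006000b000a000800080008) (nat_lit 0x0) (nat_lit 8) l12951 (@T16.mk En
    (@En.n l77 (nat_lit 7544) (nat_lit 8) (nat_lit 8))
    (@En.n l13151 (nat_lit 5749) (nat_lit 8) (nat_lit 8))
    (@En.n l43522 (nat_lit 11738) (nat_lit 2) (nat_lit 8))
    (@En.n l43523 (nat_lit 5301) (nat_lit 6) (nat_lit 10))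
    (@En.n l11294 (nat_lit 6532) (nat_lit 9) (nat_lit 11))
    (@En.n l43524 (nat_lit 7736) (nat_lit 10) (nat_lit 6))
    (@En.n l43523 (nat_lit 5157) (nat_lit 10) (nat_lit 8))
    (@En.n l5934 (nat_lit 11400) (nat_lit 15) (nat_lit 5))
    (@En.n l12239 (nat_lit 7544) (nat_lit 8) (nat_lit 8))
    (@En.n l4963 (nat_lit 5749) (nat_lit 8) (nat_lit 8))
    (@En.n l14752 (nat_lit 11738) (nat_lit 2) (nat_lit 8))
    (@En.n l26887 (nat_lit 5301) (nat_lit 6) (nat_lit 10))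
    (@En.n l43524 (nat_lit 6532) (nat_lit 9) (nat_lit 11))
    (@En.n l11294 (nat_lit 7736) (nat_lit 10) (nat_lit 6))
    (@En.n l26887 (nat_lit 5157) (nat_lit 10) (nat_lit 8))
    (@En.n l26757 (nat_lit 11400) (nat_lit 15) (nat_lit 5))))
  (@Cl.mk (nat_lit 0x30008000300080008000d0008000d00030008000300080008000d0008000d) (nat_lit 0x0) (nat_lit 8) l7031 (@T16.mk En
    (@En.i (nat_lit 2954) (nat_lit 0) (nat_lit 13))
    (@En.n l43594 (nat_lit 11388) (nat_lit 3) (nat_lit 8))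
    (@En.n l7031 (nat_lit 10430) (nat_lit 11) (nat_lit 13))
    (@En.n l43595 (nat_lit 4711) (nat_lit 8) (nat_lit 8))
    (@En.n l43596 (nat_lit 10456) (nat_lit 4) (nat_lit 8))
    (@En.n l34071 (nat_lit 10455) (nat_lit 7) (nat_lit 3))
    (@En.n l32324 (nat_lit 9929) (nat_lit 0) (nat_lit 8))
    (@En.n l5572 (nat_lit 10454) (nat_lit 7) (nat_lit 3))
    (@En.n l7031 (nat_lit 2954) (nat_lit 0) (nat_lit 13))
    (@En.n l43880 (nat_lit 11388) (nat_lit 3) (nat_lit 8))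
    (@En.i (nat_lit 10430) (nat_lit 11) (nat_lit 13))
    (@En.n l43881 (nat_lit 4711) (nat_lit 8) (nat_lit 8))
    (@En.n l43882 (nat_lit 10456) (nat_lit 4) (nat_lit 8))
    (@En.n l43883 (nat_lit 10455) (nat_lit 7) (nat_lit 3))
    (@En.n l43884 (nat_lit 9929) (nat_lit 0) (nat_lit 8))
    (@En.n l43885 (nat_lit 10454) (nat_lit 7) (nat_lit 3))))
  (@Cl.mk (nat_lit 0x8000800080008000800080008000800080008000800080008000800080008) (nat_lit 0x0) (nat_lit 1) l6958 (@T16.mk En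
    (@En.n l43679 (nat_lit 1619) (nat_lit 8) (nat_lit 8))
    (@En.n l43886 (nat_lit 1619) (nat_lit 8) (nat_lit 8))
    (@En.n l43887 (nat_lit 1619) (nat_lit 8) (nat_lit 8))
    (@En.n l26760 (nat_lit 1619) (nat_lit 8) (nat_lit 8))
    (@En.n l43888 (nat_lit 1619) (nat_lit 8) (nat_lit 8))
    (@En.n l43889 (nat_lit 1619) (nat_lit 8) (nat_lit 8))
    (@En.n l43890 (nat_lit 1619) (nat_lit 8) (nat_lit 8))
    (@En.n l61 (nat_lit 1619) (nat_lit 8) (nat_lit 8))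
    (@En.n l43891 (nat_lit 1619) (nat_lit 8) (nat_lit 8))
    (@En.n l43892 (nat_lit 1619) (nat_lit 8) (nat_lit 8))
    (@En.n l43893 (nat_lit 1619) (nat_lit 8) (nat_lit 8))
    (@En.n l43894 (nat_lit 1619) (nat_lit 8) (nat_lit 8))
    (@En.n l43895 (nat_lit 1619) (nat_lit 8) (nat_lit 8))
    (@En.n l43896 (nat_lit 1619) (nat_lit 8) (nat_lit 8))
    (@En.n l26767 (nat_lit 1619) (nat_lit 8) (nat_lit 8))
    (@En.n l43897 (nat_lit 1619) (nat_lit 8) (nat_lit 8))))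
  (@Cl.mk (nat_lit 0x4000800040008000c0008000c00080004000800040008000c0008000c0008) (nat_lit 0x0) (nat_lit 8) l43685 (@T16.mk En
    (@En.n l43680 (nat_lit 10022) (nat_lit 0) (nat_lit 8))
    (@En.n l43681 (nat_lit 10452) (nat_lit 1) (nat_lit 12))
    (@En.n l43682 (nat_lit 10566) (nat_lit 4) (nat_lit 8))
    (@En.n l43683 (nat_lit 4317) (nat_lit 7) (nat_lit 12))
    (@En.n l15347 (nat_lit 10485) (nat_lit 11) (nat_lit 8))
    (@En.n l43680 (nat_lit 10024) (nat_lit 7) (nat_lit 4))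
    (@En.n l43684 (nat_lit 10732) (nat_lit 0) (nat_lit 8))
    (@En.i (nat_lit 10604) (nat_lit 1) (nat_lit 4))
    (@En.n l43898 (nat_lit 10022) (nat_lit 0) (nat_lit 8))
    (@En.n l43899 (nat_lit 10452) (nat_lit 1) (nat_lit 12))
    (@En.n l43900 (nat_lit 10566) (nat_lit 4) (nat_lit 8))
    (@En.n l43901 (nat_lit 4317) (nat_lit 7) (nat_lit 12))
    (@En.n l43902 (nat_lit 10485) (nat_lit 11) (nat_lit 8))
    (@En.n l43898 (nat_lit 10024) (nat_lit 7) (nat_lit 4))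
    (@En.n l2642 (nat_lit 10732) (nat_lit 0) (nat_lit 8))
    (@En.n l43685 (nat_lit 10604) (nat_lit 1) (nat_lit 4))))
noncomputable def a5 : T16 Cl := @T16.mk Cl
  (@Cl.mk (nat_lit 0x2000d000300060003000a000d000d000c0003000300060004000a000e000d) (nat_lit 0xb000000001) (nat_lit 16) Lb.e (@T16.mk En
    (@En.n l5882 (nat_lit 10) (nat_lit 2) (nat_lit 13))
    (@En.n l4316 (nat_lit 134) (nat_lit 1) (nat_lit 14))
    (@En.n l226 (nat_lit 523) (nat_lit 2) (nat_lit 10))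
    (@En.n l227 (nat_lit 150) (nat_lit 3) (nat_lit 4))
    (@En.n l2876 (nat_lit 28) (nat_lit 4) (nat_lit 6))
    (@En.n l5839 (nat_lit 28) (nat_lit 5) (nat_lit 3))
    (@En.n l618 (nat_lit 82) (nat_lit 0) (nat_lit 3))
    (@En.n l5883 (nat_lit 93) (nat_lit 8) (nat_lit 12))
    (@En.n l620 (nat_lit 82) (nat_lit 3) (nat_lit 13))
    (@En.n l226 (nat_lit 107) (nat_lit 5) (nat_lit 13))
    (@En.i (nat_lit 524) (nat_lit 11) (nat_lit 10))
    (@En.n l699 (nat_lit 84) (nat_lit 11) (nat_lit 3))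
    (@En.i (nat_lit 250) (nat_lit 12) (nat_lit 6))
    (@En.n l5884 (nat_lit 10) (nat_lit 6) (nat_lit 3))
    (@En.i (nat_lit 87) (nat_lit 0) (nat_lit 13))
    (@En.n l50 (nat_lit 80) (nat_lit 15) (nat_lit 2))))
  (@Cl.mk (nat_lit 0x200060005000a000d000d000c0003000300060004000a000d000b000e0003) (nat_lit 0x1000000b000) (nat_lit 16) Lb.e (@T16.mk En
    (@En.n l2025 (nat_lit 10) (nat_lit 7) (nat_lit 3))
    (@En.n l890 (nat_lit 250) (nat_lit 0) (nat_lit 14))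
    (@En.n l2110 (nat_lit 155) (nat_lit 2) (nat_lit 11))
    (@En.n l890 (nat_lit 89) (nat_lit 5) (nat_lit 13))
    (@En.n l5507 (nat_lit 529) (nat_lit 4) (nat_lit 10))
    (@En.n l890 (nat_lit 102) (nat_lit 5) (nat_lit 4))
    (@En.n l730 (nat_lit 82) (nat_lit 6) (nat_lit 6))
    (@En.n l731 (nat_lit 82) (nat_lit 7) (nat_lit 3))
    (@En.n l5892 (nat_lit 29) (nat_lit 0) (nat_lit 3))
    (@En.n l5893 (nat_lit 83) (nat_lit 10) (nat_lit 12))
    (@En.n l2104 (nat_lit 29) (nat_lit 3) (nat_lit 13))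
    (@En.n l5881 (nat_lit 98) (nat_lit 5) (nat_lit 13))
    (@En.n l1836 (nat_lit 528) (nat_lit 13) (nat_lit 10))
    (@En.n l77 (nat_lit 100) (nat_lit 14) (nat_lit 5))
    (@En.n l5894 (nat_lit 10) (nat_lit 5) (nat_lit 6))
    (@En.n l18 (nat_lit 81) (nat_lit 15) (nat_lit 2))))
  (@Cl.mk (nat_lit 0x200060005000a000e000d0002000d000300060003000a000d000b000e0003) (nat_lit 0x1000000b000) (nat_lit 16) Lb.e (@T16.mk En
    (@En.n l798 (nat_lit 80) (nat_lit 6) (nat_lit 3))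
    (@En.n l6129 (nat_lit 253) (nat_lit 0) (nat_lit 14))
    (@En.n l271 (nat_lit 156) (nat_lit 2) (nat_lit 11))
    (@En.n l564 (nat_lit 91) (nat_lit 5) (nat_lit 13))
    (@En.n l5880 (nat_lit 531) (nat_lit 11) (nat_lit 10))
    (@En.n l6129 (nat_lit 83) (nat_lit 5) (nat_lit 3))
    (@En.n l564 (nat_lit 252) (nat_lit 12) (nat_lit 6))
    (@En.n l615 (nat_lit 81) (nat_lit 7) (nat_lit 3))
    (@En.n l5928 (nat_lit 85) (nat_lit 0) (nat_lit 13))
    (@En.n l107 (nat_lit 82) (nat_lit 9) (nat_lit 2))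
    (@En.n l1643 (nat_lit 81) (nat_lit 11) (nat_lit 13))
    (@En.n l619 (nat_lit 131) (nat_lit 12) (nat_lit 14))
    (@En.n l564 (nat_lit 527) (nat_lit 13) (nat_lit 10))
    (@En.n l644 (nat_lit 107) (nat_lit 14) (nat_lit 5))
    (@En.n l2003 (nat_lit 80) (nat_lit 4) (nat_lit 6))
    (@En.n l17 (nat_lit 82) (nat_lit 15) (nat_lit 2))))
  (@Cl.mk (nat_lit 0x200060005000b000e000c0002000d000500040003000a000d000b000e0003) (nat_lit 0xa0000000000) (nat_lit 16) Lb.e (@T16.mk En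
    (@En.n l6155 (nat_lit 84) (nat_lit 6) (nat_lit 3))
    (@En.n l678 (nat_lit 258) (nat_lit 0) (nat_lit 14))
    (@En.n l4316 (nat_lit 205) (nat_lit 2) (nat_lit 11))
    (@En.i (nat_lit 111) (nat_lit 5) (nat_lit 13))
    (@En.n l287 (nat_lit 879) (nat_lit 11) (nat_lit 10))
    (@En.n l6156 (nat_lit 82) (nat_lit 5) (nat_lit 3))
    (@En.n l6157 (nat_lit 133) (nat_lit 6) (nat_lit 4))
    (@En.n l6158 (nat_lit 85) (nat_lit 14) (nat_lit 5))
    (@En.n l678 (nat_lit 88) (nat_lit 9) (nat_lit 13))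
    (@En.n l3 (nat_lit 83) (nat_lit 9) (nat_lit 2))
    (@En.i (nat_lit 102) (nat_lit 11) (nat_lit 12))
    (@En.n l283 (nat_lit 192) (nat_lit 4) (nat_lit 14))
    (@En.n l1001 (nat_lit 799) (nat_lit 13) (nat_lit 11))
    (@En.n l6159 (nat_lit 106) (nat_lit 14) (nat_lit 5))
    (@En.n l904 (nat_lit 84) (nat_lit 4) (nat_lit 6))
    (@En.n l50 (nat_lit 83) (nat_lit 15) (nat_lit 2))))
  (@Cl.mk (nat_lit 0x2000d000500040003000a000d000d000c0003000300060004000b000e000c) (nat_lit 0x11000000a) (nat_lit 16) Lb.e (@T16.mk En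
    (@En.n l1708 (nat_lit 104) (nat_lit 10) (nat_lit 12))
    (@En.n l2140 (nat_lit 162) (nat_lit 4) (nat_lit 14))
    (@En.n l2141 (nat_lit 798) (nat_lit 2) (nat_lit 11))
    (@En.n l2142 (nat_lit 136) (nat_lit 3) (nat_lit 4))
    (@En.n l2143 (nat_lit 93) (nat_lit 12) (nat_lit 6))
    (@En.n l2144 (nat_lit 93) (nat_lit 13) (nat_lit 3))
    (@En.n l2145 (nat_lit 83) (nat_lit 0) (nat_lit 3))
    (@En.n l2146 (nat_lit 13) (nat_lit 0) (nat_lit 12))
    (@En.n l2147 (nat_lit 83) (nat_lit 3) (nat_lit 13))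
    (@En.n l2148 (nat_lit 106) (nat_lit 5) (nat_lit 13))
    (@En.i (nat_lit 878) (nat_lit 11) (nat_lit 10))
    (@En.n l396 (nat_lit 80) (nat_lit 11) (nat_lit 3))
    (@En.n l1063 (nat_lit 135) (nat_lit 0) (nat_lit 4))
    (@En.n l7 (nat_lit 87) (nat_lit 14) (nat_lit 5))
    (@En.n l2149 (nat_lit 86) (nat_lit 8) (nat_lit 13))
    (@En.n l18 (nat_lit 84) (nat_lit 15) (nat_lit 2))))
  (@Cl.mk (nat_lit 0x2000500030006000a000d000b000e0003000200060005000b000a000e000d) (nat_lit 0x11b) (nat_lit 16) Lb.e (@T16.mk En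
    (@En.n l9922 (nat_lit 88) (nat_lit 10) (nat_lit 13))
    (@En.n l15249 (nat_lit 83) (nat_lit 11) (nat_lit 14))
    (@En.n l7368 (nat_lit 82) (nat_lit 12) (nat_lit 10))
    (@En.i (nat_lit 805) (nat_lit 3) (nat_lit 11))
    (@En.n l897 (nat_lit 105) (nat_lit 4) (nat_lit 5))
    (@En.n l3337 (nat_lit 87) (nat_lit 5) (nat_lit 6))
    (@En.n l17 (nat_lit 85) (nat_lit 6) (nat_lit 2))
    (@En.n l2869 (nat_lit 87) (nat_lit 7) (nat_lit 3))
    (@En.n l5448 (nat_lit 255) (nat_lit 0) (nat_lit 14))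
    (@En.n l2579 (nat_lit 190) (nat_lit 10) (nat_lit 11))
    (@En.n l1643 (nat_lit 112) (nat_lit 11) (nat_lit 13))
    (@En.n l2036 (nat_lit 848) (nat_lit 12) (nat_lit 10))
    (@En.n l1997 (nat_lit 248) (nat_lit 12) (nat_lit 6))
    (@En.n l1559 (nat_lit 88) (nat_lit 6) (nat_lit 3))
    (@En.i (nat_lit 158) (nat_lit 0) (nat_lit 5))
    (@En.n l28 (nat_lit 85) (nat_lit 15) (nat_lit 2))))
  (@Cl.mk (nat_lit 0x3000300060004000c000a000d000d0004000300030006000a000d000d000c) (nat_lit 0x1ab00008000) (nat_lit 16) Lb.e (@T16.mk En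
    (@En.n l2013 (nat_lit 110) (nat_lit 0) (nat_lit 12))
    (@En.n l637 (nat_lit 88) (nat_lit 3) (nat_lit 13))
    (@En.i (nat_lit 97) (nat_lit 5) (nat_lit 13))
    (@En.n l639 (nat_lit 592) (nat_lit 3) (nat_lit 10))
    (@En.n l2114 (nat_lit 87) (nat_lit 12) (nat_lit 6))
    (@En.n l1959 (nat_lit 87) (nat_lit 13) (nat_lit 3))
    (@En.n l50 (nat_lit 89) (nat_lit 0) (nat_lit 3))
    (@En.n l829 (nat_lit 151) (nat_lit 0) (nat_lit 4))
    (@En.n l217 (nat_lit 89) (nat_lit 3) (nat_lit 13))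
    (@En.i (nat_lit 135) (nat_lit 5) (nat_lit 13))
    (@En.i (nat_lit 10) (nat_lit 3) (nat_lit 10))
    (@En.i (nat_lit 737) (nat_lit 12) (nat_lit 12))
    (@En.i (nat_lit 103) (nat_lit 5) (nat_lit 4))
    (@En.n l730 (nat_lit 90) (nat_lit 12) (nat_lit 6))
    (@En.n l731 (nat_lit 90) (nat_lit 13) (nat_lit 3))
    (@En.n l1106 (nat_lit 88) (nat_lit 0) (nat_lit 3))))
  (@Cl.mk (nat_lit 0x2000500030006000a000d000d000c0003000300060004000b000a000e000d) (nat_lit 0x100000011b) (nat_lit 16) Lb.e (@T16.mk En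
    (@En.n l1708 (nat_lit 86) (nat_lit 9) (nat_lit 13))
    (@En.i (nat_lit 84) (nat_lit 1) (nat_lit 14))
    (@En.n l890 (nat_lit 80) (nat_lit 2) (nat_lit 10))
    (@En.n l649 (nat_lit 785) (nat_lit 3) (nat_lit 11))
    (@En.i (nat_lit 113) (nat_lit 4) (nat_lit 4))
    (@En.n l476 (nat_lit 92) (nat_lit 5) (nat_lit 6))
    (@En.n l152 (nat_lit 92) (nat_lit 6) (nat_lit 3))
    (@En.n l1865 (nat_lit 85) (nat_lit 7) (nat_lit 3))
    (@En.n l619 (nat_lit 109) (nat_lit 9) (nat_lit 12))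
    (@En.n l1867 (nat_lit 85) (nat_lit 10) (nat_lit 13))
    (@En.n l226 (nat_lit 105) (nat_lit 11) (nat_lit 13))
    (@En.i (nat_lit 847) (nat_lit 12) (nat_lit 10))
    (@En.n l889 (nat_lit 247) (nat_lit 12) (nat_lit 6))
    (@En.n l1063 (nat_lit 86) (nat_lit 5) (nat_lit 3))
    (@En.i (nat_lit 157) (nat_lit 0) (nat_lit 5))
    (@En.n l18 (nat_lit 87) (nat_lit 15) (nat_lit 2))))
  (@Cl.mk (nat_lit 0x200060005000c000a000d000d0004000300030006000a000d000b000e0003) (nat_lit 0x1ab00000b000) (nat_lit 16) Lb.e (@T16.mk En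
    (@En.n l3596 (nat_lit 86) (nat_lit 15) (nat_lit 3))
    (@En.i (nat_lit 257) (nat_lit 0) (nat_lit 14))
    (@En.n l5891 (nat_lit 186) (nat_lit 2) (nat_lit 11))
    (@En.n l798 (nat_lit 95) (nat_lit 5) (nat_lit 13))
    (@En.i (nat_lit 594) (nat_lit 4) (nat_lit 10))
    (@En.n l14040 (nat_lit 85) (nat_lit 12) (nat_lit 6))
    (@En.n l5205 (nat_lit 85) (nat_lit 13) (nat_lit 3))
    (@En.n l18 (nat_lit 94) (nat_lit 7) (nat_lit 3))
    (@En.n l3348 (nat_lit 160) (nat_lit 0) (nat_lit 4))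
    (@En.n l61 (nat_lit 94) (nat_lit 10) (nat_lit 13))
    (@En.n l12494 (nat_lit 133) (nat_lit 11) (nat_lit 13))
    (@En.n l2168 (nat_lit 81) (nat_lit 12) (nat_lit 10))
    (@En.n l5910 (nat_lit 783) (nat_lit 13) (nat_lit 12))
    (@En.n l2682 (nat_lit 97) (nat_lit 14) (nat_lit 5))
    (@En.n l2037 (nat_lit 86) (nat_lit 13) (nat_lit 6))
    (@En.n l107 (nat_lit 88) (nat_lit 15) (nat_lit 2))))
  (@Cl.mk (nat_lit 0x20006000a000d000d000c0003000300060004000d000a000d0003000e0003) (nat_lit 0x200000a1a030) (nat_lit 16) Lb.e (@T16.mk En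
    (@En.i (nat_lit 86) (nat_lit 6) (nat_lit 3))
    (@En.n l889 (nat_lit 247) (nat_lit 0) (nat_lit 14))
    (@En.i (nat_lit 100) (nat_lit 2) (nat_lit 3))
    (@En.i (nat_lit 132) (nat_lit 5) (nat_lit 13))
    (@En.i (nat_lit 81) (nat_lit 4) (nat_lit 10))
    (@En.i (nat_lit 782) (nat_lit 6) (nat_lit 13))
    (@En.i (nat_lit 99) (nat_lit 6) (nat_lit 4))
    (@En.n l730 (nat_lit 91) (nat_lit 7) (nat_lit 6))
    (@En.n l731 (nat_lit 91) (nat_lit 8) (nat_lit 3))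
    (@En.n l1106 (nat_lit 94) (nat_lit 0) (nat_lit 3))
    (@En.n l619 (nat_lit 111) (nat_lit 11) (nat_lit 12))
    (@En.n l637 (nat_lit 94) (nat_lit 3) (nat_lit 13))
    (@En.i (nat_lit 96) (nat_lit 5) (nat_lit 13))
    (@En.n l639 (nat_lit 593) (nat_lit 14) (nat_lit 10))
    (@En.n l1738 (nat_lit 86) (nat_lit 4) (nat_lit 6))
    (@En.n l18 (nat_lit 89) (nat_lit 15) (nat_lit 2))))
  (@Cl.mk (nat_lit 0x2000d000300060003000c000a000d000d0004000300030006000a000e000d) (nat_lit 0x200001a00000001) (nat_lit 16) Lb.e (@T16.mk En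
    (@En.n l1643 (nat_lit 86) (nat_lit 2) (nat_lit 13))
    (@En.n l619 (nat_lit 126) (nat_lit 1) (nat_lit 14))
    (@En.i (nat_lit 595) (nat_lit 2) (nat_lit 10))
    (@En.n l1295 (nat_lit 92) (nat_lit 12) (nat_lit 6))
    (@En.n l2101 (nat_lit 92) (nat_lit 13) (nat_lit 3))
    (@En.n l18 (nat_lit 91) (nat_lit 0) (nat_lit 3))
    (@En.i (nat_lit 153) (nat_lit 0) (nat_lit 4))
    (@En.n l61 (nat_lit 91) (nat_lit 3) (nat_lit 13))
    (@En.n l1643 (nat_lit 164) (nat_lit 5) (nat_lit 13))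
    (@En.n l798 (nat_lit 80) (nat_lit 10) (nat_lit 10))
    (@En.i (nat_lit 784) (nat_lit 11) (nat_lit 12))
    (@En.i (nat_lit 110) (nat_lit 11) (nat_lit 3))
    (@En.i (nat_lit 257) (nat_lit 12) (nat_lit 6))
    (@En.n l615 (nat_lit 86) (nat_lit 14) (nat_lit 3))
    (@En.i (nat_lit 108) (nat_lit 0) (nat_lit 13))
    (@En.n l107 (nat_lit 90) (nat_lit 15) (nat_lit 2))))
  (@Cl.mk (nat_lit 0x20006000a000e000d0002000d000300060003000d000a000d0003000e0003) (nat_lit 0xa100000a1b030) (nat_lit 16) Lb.e (@T16.mk En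
    (@En.i (nat_lit 90) (nat_lit 5) (nat_lit 3))
    (@En.n l513 (nat_lit 249) (nat_lit 0) (nat_lit 14))
    (@En.i (nat_lit 107) (nat_lit 2) (nat_lit 3))
    (@En.n l1643 (nat_lit 166) (nat_lit 5) (nat_lit 13))
    (@En.i (nat_lit 82) (nat_lit 4) (nat_lit 10))
    (@En.i (nat_lit 787) (nat_lit 6) (nat_lit 13))
    (@En.n l1643 (nat_lit 111) (nat_lit 6) (nat_lit 3))
    (@En.i (nat_lit 256) (nat_lit 12) (nat_lit 6))
    (@En.n l615 (nat_lit 89) (nat_lit 8) (nat_lit 3))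
    (@En.i (nat_lit 112) (nat_lit 0) (nat_lit 13))
    (@En.n l107 (nat_lit 91) (nat_lit 10) (nat_lit 2))
    (@En.n l1643 (nat_lit 89) (nat_lit 12) (nat_lit 13))
    (@En.n l619 (nat_lit 124) (nat_lit 13) (nat_lit 14))
    (@En.i (nat_lit 597) (nat_lit 14) (nat_lit 10))
    (@En.n l617 (nat_lit 90) (nat_lit 3) (nat_lit 6))
    (@En.n l17 (nat_lit 91) (nat_lit 15) (nat_lit 2))))
  (@Cl.mk (nat_lit 0x2000500030006000a000e000d0002000d000300060003000b000a000e000d) (nat_lit 0x80101000010b) (nat_lit 16) Lb.e (@T16.mk En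
    (@En.n l1012 (nat_lit 90) (nat_lit 8) (nat_lit 13))
    (@En.n l15198 (nat_lit 93) (nat_lit 9) (nat_lit 14))
    (@En.n l5925 (nat_lit 28) (nat_lit 2) (nat_lit 10))
    (@En.i (nat_lit 804) (nat_lit 3) (nat_lit 11))
    (@En.i (nat_lit 109) (nat_lit 4) (nat_lit 3))
    (@En.n l2100 (nat_lit 255) (nat_lit 12) (nat_lit 6))
    (@En.n l117 (nat_lit 87) (nat_lit 6) (nat_lit 3))
    (@En.i (nat_lit 35) (nat_lit 0) (nat_lit 13))
    (@En.n l3 (nat_lit 92) (nat_lit 8) (nat_lit 2))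
    (@En.i (nat_lit 87) (nat_lit 10) (nat_lit 13))
    (@En.i (nat_lit 170) (nat_lit 11) (nat_lit 14))
    (@En.n l2100 (nat_lit 849) (nat_lit 12) (nat_lit 10))
    (@En.n l889 (nat_lit 249) (nat_lit 12) (nat_lit 6))
    (@En.n l3291 (nat_lit 90) (nat_lit 4) (nat_lit 3))
    (@En.i (nat_lit 154) (nat_lit 0) (nat_lit 5))
    (@En.n l18 (nat_lit 92) (nat_lit 15) (nat_lit 2))))
  (@Cl.mk (nat_lit 0x2000d000300060003000b000e000c0002000d000500040003000a000e000d) (nat_lit 0xca01000001) (nat_lit 16) Lb.e (@T16.mk En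
    (@En.n l1295 (nat_lit 84) (nat_lit 9) (nat_lit 13))
    (@En.n l6133 (nat_lit 169) (nat_lit 10) (nat_lit 14))
    (@En.n l2199 (nat_lit 880) (nat_lit 11) (nat_lit 10))
    (@En.n l2101 (nat_lit 28) (nat_lit 3) (nat_lit 3))
    (@En.n l2921 (nat_lit 164) (nat_lit 0) (nat_lit 4))
    (@En.n l2922 (nat_lit 92) (nat_lit 14) (nat_lit 5))
    (@En.i (nat_lit 90) (nat_lit 7) (nat_lit 13))
    (@En.n l2196 (nat_lit 93) (nat_lit 7) (nat_lit 2))
    (@En.n l2197 (nat_lit 150) (nat_lit 9) (nat_lit 12))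
    (@En.n l6134 (nat_lit 163) (nat_lit 4) (nat_lit 14))
    (@En.n l6135 (nat_lit 800) (nat_lit 11) (nat_lit 11))
    (@En.n l2923 (nat_lit 13) (nat_lit 3) (nat_lit 3))
    (@En.i (nat_lit 258) (nat_lit 12) (nat_lit 6))
    (@En.n l6136 (nat_lit 84) (nat_lit 5) (nat_lit 3))
    (@En.n l2589 (nat_lit 109) (nat_lit 0) (nat_lit 13))
    (@En.n l107 (nat_lit 93) (nat_lit 15) (nat_lit 2))))
  (@Cl.mk (nat_lit 0x200060005000d000a000d0003000e000300020006000a000d000b000e0003) (nat_lit 0xb1a0300081000) (nat_lit 16) Lb.e (@T16.mk En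
    (@En.n l3596 (nat_lit 89) (nat_lit 9) (nat_lit 3))
    (@En.i (nat_lit 256) (nat_lit 0) (nat_lit 14))
    (@En.n l5891 (nat_lit 184) (nat_lit 2) (nat_lit 11))
    (@En.i (nat_lit 30) (nat_lit 5) (nat_lit 13))
    (@En.i (nat_lit 596) (nat_lit 4) (nat_lit 10))
    (@En.n l617 (nat_lit 88) (nat_lit 5) (nat_lit 6))
    (@En.n l17 (nat_lit 94) (nat_lit 6) (nat_lit 2))
    (@En.i (nat_lit 88) (nat_lit 7) (nat_lit 3))
    (@En.i (nat_lit 248) (nat_lit 0) (nat_lit 14))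
    (@En.i (nat_lit 98) (nat_lit 2) (nat_lit 3))
    (@En.n l12494 (nat_lit 129) (nat_lit 11) (nat_lit 13))
    (@En.n l14528 (nat_lit 29) (nat_lit 4) (nat_lit 10))
    (@En.n l2031 (nat_lit 788) (nat_lit 13) (nat_lit 13))
    (@En.n l2682 (nat_lit 96) (nat_lit 14) (nat_lit 5))
    (@En.n l2037 (nat_lit 89) (nat_lit 7) (nat_lit 6))
    (@En.n l107 (nat_lit 94) (nat_lit 15) (nat_lit 2))))
  (@Cl.mk (nat_lit 0x20006000c000a000d000d0004000300030006000d000a000d0003000e0003) (nat_lit 0x1a10000a1b030) (nat_lit 16) Lb.e (@T16.mk En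
    (@En.i (nat_lit 21) (nat_lit 7) (nat_lit 3))
    (@En.n l227 (nat_lit 245) (nat_lit 0) (nat_lit 14))
    (@En.n l1951 (nat_lit 97) (nat_lit 2) (nat_lit 3))
    (@En.n l227 (nat_lit 123) (nat_lit 5) (nat_lit 13))
    (@En.n l6247 (nat_lit 88) (nat_lit 4) (nat_lit 10))
    (@En.n l227 (nat_lit 2253) (nat_lit 6) (nat_lit 13))
    (@En.n l14041 (nat_lit 112) (nat_lit 12) (nat_lit 6))
    (@En.n l14042 (nat_lit 112) (nat_lit 13) (nat_lit 3))
    (@En.n l14043 (nat_lit 30) (nat_lit 0) (nat_lit 3))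
    (@En.n l13877 (nat_lit 121) (nat_lit 0) (nat_lit 4))
    (@En.n l14044 (nat_lit 30) (nat_lit 3) (nat_lit 13))
    (@En.n l5709 (nat_lit 122) (nat_lit 12) (nat_lit 13))
    (@En.i (nat_lit 89) (nat_lit 13) (nat_lit 10))
    (@En.n l2621 (nat_lit 2255) (nat_lit 14) (nat_lit 12))
    (@En.n l1738 (nat_lit 21) (nat_lit 5) (nat_lit 6))
    (@En.n l18 (nat_lit 95) (nat_lit 15) (nat_lit 2))))
noncomputable def a6 : T16 Cl := @T16.mk Cl
  (@Cl.mk (nat_lit 0x20005000d000a000d0003000e000300020006000d000c000b0003000e0004) (nat_lit 0xb10010) (nat_lit 16) Lb.e (@T16.mk En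
    (@En.n l187 (nat_lit 99) (nat_lit 8) (nat_lit 4))
    (@En.n l2005 (nat_lit 94) (nat_lit 1) (nat_lit 14))
    (@En.n l1106 (nat_lit 30) (nat_lit 2) (nat_lit 3))
    (@En.n l2007 (nat_lit 188) (nat_lit 3) (nat_lit 11))
    (@En.n l5687 (nat_lit 95) (nat_lit 13) (nat_lit 12))
    (@En.n l2009 (nat_lit 2293) (nat_lit 6) (nat_lit 13))
    (@En.n l1738 (nat_lit 97) (nat_lit 6) (nat_lit 6))
    (@En.n l18 (nat_lit 96) (nat_lit 7) (nat_lit 2))
    (@En.i (nat_lit 97) (nat_lit 8) (nat_lit 3))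
    (@En.n l226 (nat_lit 244) (nat_lit 0) (nat_lit 14))
    (@En.n l2011 (nat_lit 9) (nat_lit 2) (nat_lit 3))
    (@En.n l226 (nat_lit 127) (nat_lit 12) (nat_lit 13))
    (@En.n l5881 (nat_lit 98) (nat_lit 13) (nat_lit 10))
    (@En.n l226 (nat_lit 2252) (nat_lit 6) (nat_lit 13))
    (@En.n l1953 (nat_lit 121) (nat_lit 13) (nat_lit 5))
    (@En.n l476 (nat_lit 96) (nat_lit 15) (nat_lit 2))))
  (@Cl.mk (nat_lit 0x20005000c000a000d000d0004000300030006000d000c000b0003000e0004) (nat_lit 0xa0010000b10010) (nat_lit 16) Lb.e (@T16.mk En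
    (@En.n l187 (nat_lit 103) (nat_lit 7) (nat_lit 4))
    (@En.n l2005 (nat_lit 88) (nat_lit 1) (nat_lit 14))
    (@En.n l5686 (nat_lit 95) (nat_lit 2) (nat_lit 3))
    (@En.n l2007 (nat_lit 189) (nat_lit 3) (nat_lit 11))
    (@En.n l5687 (nat_lit 21) (nat_lit 4) (nat_lit 12))
    (@En.n l2009 (nat_lit 2286) (nat_lit 6) (nat_lit 13))
    (@En.n l5688 (nat_lit 105) (nat_lit 12) (nat_lit 6))
    (@En.n l5689 (nat_lit 105) (nat_lit 13) (nat_lit 3))
    (@En.n l50 (nat_lit 96) (nat_lit 8) (nat_lit 3))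
    (@En.n l5690 (nat_lit 180) (nat_lit 0) (nat_lit 4))
    (@En.n l217 (nat_lit 96) (nat_lit 11) (nat_lit 13))
    (@En.n l226 (nat_lit 130) (nat_lit 12) (nat_lit 13))
    (@En.n l5691 (nat_lit 100) (nat_lit 13) (nat_lit 10))
    (@En.n l5692 (nat_lit 2192) (nat_lit 14) (nat_lit 12))
    (@En.n l1953 (nat_lit 117) (nat_lit 13) (nat_lit 5))
    (@En.n l476 (nat_lit 97) (nat_lit 15) (nat_lit 2))))
  (@Cl.mk (nat_lit 0x20005000a000d000b000e0003000200060005000d000c000b0003000e0004) (nat_lit 0x810c0000b10010) (nat_lit 16) Lb.e (@T16.mk En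
    (@En.n l215 (nat_lit 102) (nat_lit 7) (nat_lit 4))
    (@En.n l5889 (nat_lit 29) (nat_lit 1) (nat_lit 14))
    (@En.n l50 (nat_lit 94) (nat_lit 9) (nat_lit 3))
    (@En.i (nat_lit 192) (nat_lit 3) (nat_lit 11))
    (@En.n l217 (nat_lit 88) (nat_lit 12) (nat_lit 12))
    (@En.n l2567 (nat_lit 792) (nat_lit 6) (nat_lit 13))
    (@En.n l5890 (nat_lit 9) (nat_lit 6) (nat_lit 5))
    (@En.n l2037 (nat_lit 100) (nat_lit 7) (nat_lit 6))
    (@En.n l107 (nat_lit 98) (nat_lit 8) (nat_lit 2))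
    (@En.n l3596 (nat_lit 100) (nat_lit 9) (nat_lit 3))
    (@En.i (nat_lit 259) (nat_lit 0) (nat_lit 14))
    (@En.n l5891 (nat_lit 182) (nat_lit 2) (nat_lit 11))
    (@En.n l613 (nat_lit 96) (nat_lit 13) (nat_lit 13))
    (@En.i (nat_lit 590) (nat_lit 4) (nat_lit 10))
    (@En.n l3327 (nat_lit 160) (nat_lit 13) (nat_lit 5))
    (@En.n l17 (nat_lit 98) (nat_lit 15) (nat_lit 2))))
  (@Cl.mk (nat_lit 0x20006000c000c000c000c0004000400040004000d000a000d0003000e0003) (nat_lit 0x89200000000000) (nat_lit 16) Lb.e (@T16.mk En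
    (@En.i (nat_lit 103) (nat_lit 15) (nat_lit 3))
    (@En.n l889 (nat_lit 240) (nat_lit 0) (nat_lit 14))
    (@En.i (nat_lit 101) (nat_lit 2) (nat_lit 3))
    (@En.i (nat_lit 171) (nat_lit 5) (nat_lit 13))
    (@En.n l890 (nat_lit 102) (nat_lit 4) (nat_lit 10))
    (@En.n l227 (nat_lit 2251) (nat_lit 6) (nat_lit 13))
    (@En.n l11 (nat_lit 184) (nat_lit 12) (nat_lit 4))
    (@En.n l152 (nat_lit 111) (nat_lit 7) (nat_lit 4))
    (@En.n l1950 (nat_lit 124) (nat_lit 8) (nat_lit 4))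
    (@En.i (nat_lit 95) (nat_lit 9) (nat_lit 4))
    (@En.n l1952 (nat_lit 122) (nat_lit 11) (nat_lit 12))
    (@En.n l1596 (nat_lit 96) (nat_lit 4) (nat_lit 12))
    (@En.n l1953 (nat_lit 121) (nat_lit 4) (nat_lit 12))
    (@En.n l1001 (nat_lit 2227) (nat_lit 14) (nat_lit 12))
    (@En.n l1738 (nat_lit 103) (nat_lit 13) (nat_lit 6))
    (@En.n l18 (nat_lit 99) (nat_lit 15) (nat_lit 2))))
  (@Cl.mk (nat_lit 0x20005000a000d000d000c0003000300060004000d000c000b0003000e0004) (nat_lit 0x81200000b10010) (nat_lit 16) Lb.e (@T16.mk En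
    (@En.n l2012 (nat_lit 104) (nat_lit 6) (nat_lit 4))
    (@En.n l642 (nat_lit 81) (nat_lit 1) (nat_lit 14))
    (@En.n l7 (nat_lit 89) (nat_lit 2) (nat_lit 3))
    (@En.n l643 (nat_lit 162) (nat_lit 3) (nat_lit 11))
    (@En.n l644 (nat_lit 86) (nat_lit 11) (nat_lit 12))
    (@En.i (nat_lit 794) (nat_lit 6) (nat_lit 13))
    (@En.i (nat_lit 101) (nat_lit 6) (nat_lit 4))
    (@En.n l730 (nat_lit 107) (nat_lit 7) (nat_lit 6))
    (@En.n l731 (nat_lit 107) (nat_lit 8) (nat_lit 3))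
    (@En.n l1106 (nat_lit 98) (nat_lit 9) (nat_lit 3))
    (@En.n l2013 (nat_lit 106) (nat_lit 11) (nat_lit 12))
    (@En.n l637 (nat_lit 98) (nat_lit 12) (nat_lit 13))
    (@En.i (nat_lit 9) (nat_lit 5) (nat_lit 13))
    (@En.n l639 (nat_lit 589) (nat_lit 14) (nat_lit 10))
    (@En.n l640 (nat_lit 151) (nat_lit 13) (nat_lit 5))
    (@En.n l18 (nat_lit 100) (nat_lit 15) (nat_lit 2))))
  (@Cl.mk (nat_lit 0x20005000c000c000c000c0004000400040004000d000c000b0003000e0004) (nat_lit 0x891000000a0000) (nat_lit 16) Lb.e (@T16.mk En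
    (@En.n l1948 (nat_lit 6) (nat_lit 6) (nat_lit 4))
    (@En.n l396 (nat_lit 102) (nat_lit 1) (nat_lit 14))
    (@En.n l7 (nat_lit 99) (nat_lit 2) (nat_lit 3))
    (@En.n l643 (nat_lit 195) (nat_lit 3) (nat_lit 11))
    (@En.n l644 (nat_lit 103) (nat_lit 4) (nat_lit 12))
    (@En.n l1949 (nat_lit 2281) (nat_lit 6) (nat_lit 13))
    (@En.n l11 (nat_lit 182) (nat_lit 12) (nat_lit 4))
    (@En.n l731 (nat_lit 106) (nat_lit 7) (nat_lit 4))
    (@En.n l1950 (nat_lit 128) (nat_lit 8) (nat_lit 4))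
    (@En.n l1951 (nat_lit 97) (nat_lit 9) (nat_lit 4))
    (@En.n l1952 (nat_lit 130) (nat_lit 11) (nat_lit 12))
    (@En.n l1596 (nat_lit 9) (nat_lit 4) (nat_lit 12))
    (@En.n l1953 (nat_lit 180) (nat_lit 4) (nat_lit 12))
    (@En.n l1001 (nat_lit 2225) (nat_lit 14) (nat_lit 12))
    (@En.n l640 (nat_lit 143) (nat_lit 13) (nat_lit 5))
    (@En.n l18 (nat_lit 101) (nat_lit 15) (nat_lit 2))))
  (@Cl.mk (nat_lit 0x200060005000c000c000c000c0004000400040004000a000d000b000e0003) (nat_lit 0x89200000810c0) (nat_lit 16) Lb.e (@T16.mk En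
    (@En.n l5724 (nat_lit 104) (nat_lit 15) (nat_lit 3))
    (@En.n l227 (nat_lit 260) (nat_lit 0) (nat_lit 14))
    (@En.n l4316 (nat_lit 149) (nat_lit 2) (nat_lit 11))
    (@En.i (nat_lit 99) (nat_lit 5) (nat_lit 13))
    (@En.n l227 (nat_lit 587) (nat_lit 4) (nat_lit 10))
    (@En.n l5725 (nat_lit 159) (nat_lit 12) (nat_lit 4))
    (@En.n l152 (nat_lit 83) (nat_lit 6) (nat_lit 4))
    (@En.n l5726 (nat_lit 131) (nat_lit 7) (nat_lit 4))
    (@En.n l227 (nat_lit 88) (nat_lit 8) (nat_lit 4))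
    (@En.n l5727 (nat_lit 133) (nat_lit 10) (nat_lit 12))
    (@En.n l230 (nat_lit 98) (nat_lit 4) (nat_lit 12))
    (@En.n l5728 (nat_lit 160) (nat_lit 4) (nat_lit 12))
    (@En.n l1001 (nat_lit 795) (nat_lit 13) (nat_lit 12))
    (@En.n l699 (nat_lit 101) (nat_lit 14) (nat_lit 5))
    (@En.n l661 (nat_lit 104) (nat_lit 13) (nat_lit 6))
    (@En.n l50 (nat_lit 102) (nat_lit 15) (nat_lit 2))))
  (@Cl.mk (nat_lit 0x300030006000c000c000c000c0004000400040004000c000a000d000d0004) (nat_lit 0x8920000090010) (nat_lit 16) Lb.e (@T16.mk En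
    (@En.n l829 (nat_lit 143) (nat_lit 0) (nat_lit 4))
    (@En.n l217 (nat_lit 99) (nat_lit 3) (nat_lit 13))
    (@En.i (nat_lit 139) (nat_lit 5) (nat_lit 13))
    (@En.n l2021 (nat_lit 104) (nat_lit 3) (nat_lit 10))
    (@En.n l5640 (nat_lit 2189) (nat_lit 12) (nat_lit 12))
    (@En.n l11 (nat_lit 186) (nat_lit 12) (nat_lit 4))
    (@En.n l731 (nat_lit 110) (nat_lit 12) (nat_lit 4))
    (@En.n l1950 (nat_lit 126) (nat_lit 12) (nat_lit 4))
    (@En.i (nat_lit 21) (nat_lit 0) (nat_lit 4))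
    (@En.n l1952 (nat_lit 114) (nat_lit 4) (nat_lit 12))
    (@En.n l1596 (nat_lit 97) (nat_lit 4) (nat_lit 12))
    (@En.n l1953 (nat_lit 117) (nat_lit 4) (nat_lit 12))
    (@En.n l1001 (nat_lit 2226) (nat_lit 13) (nat_lit 12))
    (@En.n l2114 (nat_lit 113) (nat_lit 12) (nat_lit 6))
    (@En.n l1959 (nat_lit 113) (nat_lit 13) (nat_lit 3))
    (@En.n l50 (nat_lit 99) (nat_lit 0) (nat_lit 3))))
  (@Cl.mk (nat_lit 0x3000300060004000c000c000c000c0004000400040004000a000d000d000c) (nat_lit 0x892000008122) (nat_lit 16) Lb.e (@T16.mk En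
    (@En.n l1954 (nat_lit 136) (nat_lit 0) (nat_lit 12))
    (@En.n l1955 (nat_lit 102) (nat_lit 3) (nat_lit 13))
    (@En.n l1956 (nat_lit 101) (nat_lit 5) (nat_lit 13))
    (@En.n l1957 (nat_lit 586) (nat_lit 3) (nat_lit 10))
    (@En.n l1958 (nat_lit 155) (nat_lit 12) (nat_lit 4))
    (@En.n l1959 (nat_lit 84) (nat_lit 12) (nat_lit 4))
    (@En.n l50 (nat_lit 134) (nat_lit 12) (nat_lit 4))
    (@En.n l1960 (nat_lit 86) (nat_lit 7) (nat_lit 4))
    (@En.n l61 (nat_lit 135) (nat_lit 4) (nat_lit 12))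
    (@En.n l1927 (nat_lit 100) (nat_lit 4) (nat_lit 12))
    (@En.n l1928 (nat_lit 151) (nat_lit 4) (nat_lit 12))
    (@En.n l1961 (nat_lit 791) (nat_lit 12) (nat_lit 12))
    (@En.i (nat_lit 6) (nat_lit 4) (nat_lit 4))
    (@En.n l1962 (nat_lit 150) (nat_lit 12) (nat_lit 6))
    (@En.n l1931 (nat_lit 150) (nat_lit 13) (nat_lit 3))
    (@En.n l1963 (nat_lit 102) (nat_lit 0) (nat_lit 3))))
  (@Cl.mk (nat_lit 0x2000500030006000d000c000b0003000e000400020005000b000a000e000d) (nat_lit 0xb00010000001) (nat_lit 16) Lb.e (@T16.mk En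
    (@En.n l6197 (nat_lit 97) (nat_lit 11) (nat_lit 13))
    (@En.n l2676 (nat_lit 106) (nat_lit 12) (nat_lit 14))
    (@En.n l2038 (nat_lit 107) (nat_lit 13) (nat_lit 10))
    (@En.i (nat_lit 2191) (nat_lit 3) (nat_lit 11))
    (@En.n l2039 (nat_lit 118) (nat_lit 4) (nat_lit 5))
    (@En.n l17 (nat_lit 105) (nat_lit 5) (nat_lit 2))
    (@En.n l215 (nat_lit 113) (nat_lit 6) (nat_lit 4))
    (@En.n l998 (nat_lit 85) (nat_lit 8) (nat_lit 14))
    (@En.n l50 (nat_lit 112) (nat_lit 8) (nat_lit 3))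
    (@En.n l52 (nat_lit 191) (nat_lit 10) (nat_lit 11))
    (@En.n l217 (nat_lit 108) (nat_lit 11) (nat_lit 12))
    (@En.n l1889 (nat_lit 2287) (nat_lit 12) (nat_lit 13))
    (@En.i (nat_lit 244) (nat_lit 12) (nat_lit 6))
    (@En.n l2128 (nat_lit 97) (nat_lit 7) (nat_lit 3))
    (@En.i (nat_lit 181) (nat_lit 8) (nat_lit 5))
    (@En.n l11 (nat_lit 105) (nat_lit 15) (nat_lit 2))))
  (@Cl.mk (nat_lit 0x20005000b000e000c0002000d000500040003000d000c000b0003000e0004) (nat_lit 0xca02000b00010) (nat_lit 16) Lb.e (@T16.mk En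
    (@En.n l50 (nat_lit 136) (nat_lit 5) (nat_lit 4))
    (@En.n l2126 (nat_lit 83) (nat_lit 1) (nat_lit 14))
    (@En.n l808 (nat_lit 111) (nat_lit 2) (nat_lit 3))
    (@En.i (nat_lit 206) (nat_lit 3) (nat_lit 11))
    (@En.n l217 (nat_lit 110) (nat_lit 10) (nat_lit 12))
    (@En.n l2127 (nat_lit 2285) (nat_lit 6) (nat_lit 13))
    (@En.n l28 (nat_lit 107) (nat_lit 6) (nat_lit 3))
    (@En.n l814 (nat_lit 130) (nat_lit 7) (nat_lit 4))
    (@En.n l810 (nat_lit 105) (nat_lit 14) (nat_lit 5))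
    (@En.n l2128 (nat_lit 97) (nat_lit 10) (nat_lit 13))
    (@En.n l107 (nat_lit 106) (nat_lit 10) (nat_lit 2))
    (@En.n l1643 (nat_lit 101) (nat_lit 12) (nat_lit 12))
    (@En.n l619 (nat_lit 183) (nat_lit 4) (nat_lit 14))
    (@En.n l28 (nat_lit 2193) (nat_lit 14) (nat_lit 11))
    (@En.n l617 (nat_lit 145) (nat_lit 13) (nat_lit 5))
    (@En.n l17 (nat_lit 106) (nat_lit 15) (nat_lit 2))))
  (@Cl.mk (nat_lit 0x20005000a000e000d0002000d000300060003000d000c000b0003000e0004) (nat_lit 0x8a202000a10010) (nat_lit 16) Lb.e (@T16.mk En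
    (@En.n l50 (nat_lit 150) (nat_lit 5) (nat_lit 4))
    (@En.n l612 (nat_lit 82) (nat_lit 1) (nat_lit 14))
    (@En.n l50 (nat_lit 91) (nat_lit 2) (nat_lit 3))
    (@En.i (nat_lit 163) (nat_lit 3) (nat_lit 11))
    (@En.n l217 (nat_lit 90) (nat_lit 10) (nat_lit 12))
    (@En.i (nat_lit 793) (nat_lit 6) (nat_lit 13))
    (@En.i (nat_lit 106) (nat_lit 6) (nat_lit 3))
    (@En.i (nat_lit 259) (nat_lit 12) (nat_lit 6))
    (@En.n l615 (nat_lit 100) (nat_lit 8) (nat_lit 3))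
    (@En.i (nat_lit 105) (nat_lit 0) (nat_lit 13))
    (@En.n l107 (nat_lit 107) (nat_lit 10) (nat_lit 2))
    (@En.n l1643 (nat_lit 100) (nat_lit 12) (nat_lit 13))
    (@En.n l619 (nat_lit 128) (nat_lit 13) (nat_lit 14))
    (@En.i (nat_lit 591) (nat_lit 14) (nat_lit 10))
    (@En.n l617 (nat_lit 153) (nat_lit 13) (nat_lit 5))
    (@En.n l17 (nat_lit 107) (nat_lit 15) (nat_lit 2))))
  (@Cl.mk (nat_lit 0x2000500030006000c000a000d000d0004000300030006000b000a000e000d) (nat_lit 0xa1b000000101) (nat_lit 16) Lb.e (@T16.mk En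
    (@En.n l15251 (nat_lit 21) (nat_lit 2) (nat_lit 13))
    (@En.n l2676 (nat_lit 110) (nat_lit 1) (nat_lit 14))
    (@En.n l2038 (nat_lit 90) (nat_lit 2) (nat_lit 10))
    (@En.i (nat_lit 2259) (nat_lit 3) (nat_lit 11))
    (@En.n l1295 (nat_lit 35) (nat_lit 4) (nat_lit 6))
    (@En.n l2101 (nat_lit 35) (nat_lit 5) (nat_lit 3))
    (@En.n l18 (nat_lit 112) (nat_lit 6) (nat_lit 3))
    (@En.n l947 (nat_lit 118) (nat_lit 7) (nat_lit 4))
    (@En.n l61 (nat_lit 112) (nat_lit 9) (nat_lit 13))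
    (@En.n l1643 (nat_lit 115) (nat_lit 10) (nat_lit 13))
    (@En.n l798 (nat_lit 87) (nat_lit 11) (nat_lit 10))
    (@En.n l12639 (nat_lit 2258) (nat_lit 12) (nat_lit 12))
    (@En.i (nat_lit 245) (nat_lit 12) (nat_lit 6))
    (@En.n l2169 (nat_lit 21) (nat_lit 6) (nat_lit 3))
    (@En.i (nat_lit 187) (nat_lit 0) (nat_lit 5))
    (@En.n l11 (nat_lit 108) (nat_lit 15) (nat_lit 2))))
  (@Cl.mk (nat_lit 0x2000500030006000b000e000c0002000d000500040003000b000a000e000d) (nat_lit 0xca01000011b) (nat_lit 16) Lb.e (@T16.mk En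
    (@En.n l1012 (nat_lit 110) (nat_lit 8) (nat_lit 13))
    (@En.n l8507 (nat_lit 13) (nat_lit 1) (nat_lit 14))
    (@En.n l8508 (nat_lit 93) (nat_lit 2) (nat_lit 10))
    (@En.n l287 (nat_lit 883) (nat_lit 3) (nat_lit 11))
    (@En.n l11 (nat_lit 92) (nat_lit 4) (nat_lit 3))
    (@En.n l2004 (nat_lit 115) (nat_lit 5) (nat_lit 4))
    (@En.n l5609 (nat_lit 35) (nat_lit 6) (nat_lit 5))
    (@En.n l678 (nat_lit 108) (nat_lit 8) (nat_lit 13))
    (@En.n l3 (nat_lit 109) (nat_lit 8) (nat_lit 2))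
    (@En.i (nat_lit 113) (nat_lit 10) (nat_lit 12))
    (@En.i (nat_lit 191) (nat_lit 11) (nat_lit 14))
    (@En.n l903 (nat_lit 2264) (nat_lit 12) (nat_lit 11))
    (@En.n l889 (nat_lit 243) (nat_lit 12) (nat_lit 6))
    (@En.n l3291 (nat_lit 110) (nat_lit 4) (nat_lit 3))
    (@En.i (nat_lit 220) (nat_lit 0) (nat_lit 5))
    (@En.n l18 (nat_lit 109) (nat_lit 15) (nat_lit 2))))
  (@Cl.mk (nat_lit 0x2000d000500040003000c000a000d000d0004000300030006000b000e000c) (nat_lit 0x1000a1ab00000ca) (nat_lit 16) Lb.e (@T16.mk En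
    (@En.n l1643 (nat_lit 103) (nat_lit 11) (nat_lit 12))
    (@En.n l619 (nat_lit 189) (nat_lit 4) (nat_lit 14))
    (@En.n l28 (nat_lit 2230) (nat_lit 2) (nat_lit 11))
    (@En.n l1295 (nat_lit 109) (nat_lit 12) (nat_lit 6))
    (@En.n l2101 (nat_lit 109) (nat_lit 13) (nat_lit 3))
    (@En.n l2630 (nat_lit 111) (nat_lit 0) (nat_lit 3))
    (@En.i (nat_lit 145) (nat_lit 0) (nat_lit 4))
    (@En.n l2631 (nat_lit 111) (nat_lit 3) (nat_lit 13))
    (@En.n l1643 (nat_lit 138) (nat_lit 5) (nat_lit 13))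
    (@En.n l2166 (nat_lit 84) (nat_lit 10) (nat_lit 10))
    (@En.n l3308 (nat_lit 886) (nat_lit 11) (nat_lit 12))
    (@En.n l28 (nat_lit 90) (nat_lit 11) (nat_lit 3))
    (@En.n l814 (nat_lit 114) (nat_lit 0) (nat_lit 4))
    (@En.n l810 (nat_lit 108) (nat_lit 14) (nat_lit 5))
    (@En.n l6165 (nat_lit 21) (nat_lit 1) (nat_lit 13))
    (@En.n l107 (nat_lit 110) (nat_lit 15) (nat_lit 2))))
  (@Cl.mk (nat_lit 0x20006000b000e000c0002000d000500040003000d000a000d0003000e0003) (nat_lit 0xa02000b1a030) (nat_lit 16) Lb.e (@T16.mk En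
    (@En.n l2568 (nat_lit 110) (nat_lit 5) (nat_lit 3))
    (@En.n l889 (nat_lit 243) (nat_lit 0) (nat_lit 14))
    (@En.n l2568 (nat_lit 106) (nat_lit 2) (nat_lit 3))
    (@En.i (nat_lit 167) (nat_lit 5) (nat_lit 13))
    (@En.n l890 (nat_lit 83) (nat_lit 4) (nat_lit 10))
    (@En.n l287 (nat_lit 2320) (nat_lit 6) (nat_lit 13))
    (@En.n l1001 (nat_lit 91) (nat_lit 6) (nat_lit 3))
    (@En.n l2238 (nat_lit 122) (nat_lit 7) (nat_lit 4))
    (@En.n l2621 (nat_lit 112) (nat_lit 14) (nat_lit 5))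
    (@En.n l3478 (nat_lit 95) (nat_lit 10) (nat_lit 13))
    (@En.n l3 (nat_lit 111) (nat_lit 10) (nat_lit 2))
    (@En.i (nat_lit 99) (nat_lit 12) (nat_lit 12))
    (@En.n l766 (nat_lit 188) (nat_lit 4) (nat_lit 14))
    (@En.n l1001 (nat_lit 2232) (nat_lit 14) (nat_lit 11))
    (@En.n l2624 (nat_lit 110) (nat_lit 3) (nat_lit 6))
    (@En.n l18 (nat_lit 111) (nat_lit 15) (nat_lit 2))))
noncomputable def a7 : T16 Cl := @T16.mk Cl
  (@Cl.mk (nat_lit 0x2000500030006000d000a000d0003000e000300020006000b000a000e000d) (nat_lit 0xb1b03000011b) (nat_lit 16) Lb.e (@T16.mk En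
    (@En.n l15251 (nat_lit 95) (nat_lit 11) (nat_lit 13))
    (@En.n l7745 (nat_lit 111) (nat_lit 12) (nat_lit 14))
    (@En.n l2038 (nat_lit 91) (nat_lit 13) (nat_lit 10))
    (@En.i (nat_lit 2260) (nat_lit 3) (nat_lit 11))
    (@En.n l617 (nat_lit 108) (nat_lit 4) (nat_lit 6))
    (@En.n l17 (nat_lit 112) (nat_lit 5) (nat_lit 2))
    (@En.i (nat_lit 108) (nat_lit 6) (nat_lit 3))
    (@En.n l1997 (nat_lit 262) (nat_lit 0) (nat_lit 14))
    (@En.i (nat_lit 105) (nat_lit 8) (nat_lit 3))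
    (@En.n l1643 (nat_lit 168) (nat_lit 10) (nat_lit 13))
    (@En.n l5928 (nat_lit 85) (nat_lit 11) (nat_lit 10))
    (@En.n l1889 (nat_lit 2257) (nat_lit 12) (nat_lit 13))
    (@En.i (nat_lit 246) (nat_lit 12) (nat_lit 6))
    (@En.n l6165 (nat_lit 95) (nat_lit 7) (nat_lit 3))
    (@En.i (nat_lit 185) (nat_lit 0) (nat_lit 5))
    (@En.n l11 (nat_lit 112) (nat_lit 15) (nat_lit 2))))
  (@Cl.mk (nat_lit 0x2000500030006000c000c000c000c0004000400040004000b000a000e000d) (nat_lit 0x891000000001) (nat_lit 16) Lb.e (@T16.mk En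
    (@En.n l1708 (nat_lit 103) (nat_lit 2) (nat_lit 13))
    (@En.n l2142 (nat_lit 136) (nat_lit 1) (nat_lit 14))
    (@En.n l6247 (nat_lit 150) (nat_lit 2) (nat_lit 10))
    (@En.n l227 (nat_lit 2184) (nat_lit 3) (nat_lit 11))
    (@En.n l11 (nat_lit 190) (nat_lit 4) (nat_lit 4))
    (@En.n l152 (nat_lit 109) (nat_lit 5) (nat_lit 4))
    (@En.n l839 (nat_lit 170) (nat_lit 6) (nat_lit 4))
    (@En.n l227 (nat_lit 108) (nat_lit 7) (nat_lit 4))
    (@En.n l6248 (nat_lit 115) (nat_lit 9) (nat_lit 12))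
    (@En.n l230 (nat_lit 105) (nat_lit 10) (nat_lit 12))
    (@En.n l2040 (nat_lit 118) (nat_lit 11) (nat_lit 12))
    (@En.i (nat_lit 2229) (nat_lit 12) (nat_lit 12))
    (@En.n l889 (nat_lit 240) (nat_lit 12) (nat_lit 6))
    (@En.n l1063 (nat_lit 103) (nat_lit 14) (nat_lit 3))
    (@En.i (nat_lit 204) (nat_lit 0) (nat_lit 5))
    (@En.n l18 (nat_lit 113) (nat_lit 15) (nat_lit 2))))
  (@Cl.mk (nat_lit 0x2000c000a000d000d0004000300030006000d000d000c00030003000e0004) (nat_lit 0x1300009ba0040) (nat_lit 16) Lb.e (@T16.mk En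
    (@En.n l2683 (nat_lit 103) (nat_lit 6) (nat_lit 4))
    (@En.n l7787 (nat_lit 95) (nat_lit 1) (nat_lit 14))
    (@En.n l107 (nat_lit 123) (nat_lit 2) (nat_lit 3))
    (@En.n l2684 (nat_lit 119) (nat_lit 3) (nat_lit 3))
    (@En.n l575 (nat_lit 126) (nat_lit 0) (nat_lit 12))
    (@En.n l2685 (nat_lit 119) (nat_lit 6) (nat_lit 13))
    (@En.i (nat_lit 2377) (nat_lit 7) (nat_lit 13))
    (@En.n l5684 (nat_lit 115) (nat_lit 12) (nat_lit 6))
    (@En.n l5685 (nat_lit 115) (nat_lit 13) (nat_lit 3))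
    (@En.n l18 (nat_lit 122) (nat_lit 0) (nat_lit 3))
    (@En.i (nat_lit 142) (nat_lit 0) (nat_lit 4))
    (@En.n l61 (nat_lit 122) (nat_lit 3) (nat_lit 13))
    (@En.n l1353 (nat_lit 18) (nat_lit 5) (nat_lit 13))
    (@En.n l798 (nat_lit 135) (nat_lit 14) (nat_lit 10))
    (@En.n l2865 (nat_lit 1852) (nat_lit 11) (nat_lit 12))
    (@En.n l28 (nat_lit 114) (nat_lit 15) (nat_lit 2))))
  (@Cl.mk (nat_lit 0x2000500030006000d000d000c00030003000e00040002000b000a000e000d) (nat_lit 0x9aa004000002) (nat_lit 16) Lb.e (@T16.mk En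
    (@En.n l6148 (nat_lit 114) (nat_lit 12) (nat_lit 13))
    (@En.n l619 (nat_lit 138) (nat_lit 13) (nat_lit 14))
    (@En.n l625 (nat_lit 164) (nat_lit 14) (nat_lit 10))
    (@En.n l2568 (nat_lit 2181) (nat_lit 3) (nat_lit 11))
    (@En.n l17 (nat_lit 115) (nat_lit 4) (nat_lit 2))
    (@En.n l9513 (nat_lit 113) (nat_lit 5) (nat_lit 4))
    (@En.n l998 (nat_lit 112) (nat_lit 7) (nat_lit 14))
    (@En.n l50 (nat_lit 168) (nat_lit 7) (nat_lit 3))
    (@En.n l2567 (nat_lit 116) (nat_lit 8) (nat_lit 3))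
    (@En.n l5853 (nat_lit 170) (nat_lit 10) (nat_lit 12))
    (@En.n l9514 (nat_lit 116) (nat_lit 11) (nat_lit 13))
    (@En.n l5545 (nat_lit 2379) (nat_lit 12) (nat_lit 13))
    (@En.n l2031 (nat_lit 238) (nat_lit 12) (nat_lit 6))
    (@En.n l678 (nat_lit 114) (nat_lit 8) (nat_lit 3))
    (@En.n l998 (nat_lit 148) (nat_lit 0) (nat_lit 5))
    (@En.n l107 (nat_lit 115) (nat_lit 15) (nat_lit 2))))
  (@Cl.mk (nat_lit 0x2000500030006000d000b000e00030002000e00050002000b000a000e000d) (nat_lit 0x910002000003) (nat_lit 16) Lb.e (@T16.mk En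
    (@En.n l1012 (nat_lit 119) (nat_lit 12) (nat_lit 13))
    (@En.n l3287 (nat_lit 137) (nat_lit 13) (nat_lit 14))
    (@En.n l3288 (nat_lit 152) (nat_lit 14) (nat_lit 10))
    (@En.n l1014 (nat_lit 2180) (nat_lit 3) (nat_lit 11))
    (@En.n l11 (nat_lit 116) (nat_lit 4) (nat_lit 2))
    (@En.n l1015 (nat_lit 118) (nat_lit 5) (nat_lit 5))
    (@En.n l1016 (nat_lit 105) (nat_lit 7) (nat_lit 14))
    (@En.n l3 (nat_lit 116) (nat_lit 7) (nat_lit 2))
    (@En.n l3289 (nat_lit 115) (nat_lit 8) (nat_lit 3))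
    (@En.n l1018 (nat_lit 14090) (nat_lit 4) (nat_lit 14))
    (@En.i (nat_lit 109) (nat_lit 11) (nat_lit 11))
    (@En.n l3290 (nat_lit 2274) (nat_lit 12) (nat_lit 13))
    (@En.n l889 (nat_lit 241) (nat_lit 12) (nat_lit 6))
    (@En.n l3291 (nat_lit 119) (nat_lit 8) (nat_lit 3))
    (@En.i (nat_lit 223) (nat_lit 0) (nat_lit 5))
    (@En.n l18 (nat_lit 116) (nat_lit 15) (nat_lit 2))))
  (@Cl.mk (nat_lit 0x200050005000c000a000d000d0004000300030006000c000b000b000e0004) (nat_lit 0x81200) (nat_lit 16) Lb.e (@T16.mk En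
    (@En.n l2675 (nat_lit 103) (nat_lit 8) (nat_lit 4))
    (@En.n l2676 (nat_lit 119) (nat_lit 4) (nat_lit 14))
    (@En.n l2677 (nat_lit 119) (nat_lit 5) (nat_lit 11))
    (@En.i (nat_lit 108) (nat_lit 3) (nat_lit 11))
    (@En.n l810 (nat_lit 2269) (nat_lit 13) (nat_lit 12))
    (@En.n l7783 (nat_lit 118) (nat_lit 12) (nat_lit 6))
    (@En.n l7784 (nat_lit 118) (nat_lit 13) (nat_lit 3))
    (@En.n l18 (nat_lit 121) (nat_lit 7) (nat_lit 3))
    (@En.n l7785 (nat_lit 17) (nat_lit 0) (nat_lit 4))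
    (@En.n l61 (nat_lit 121) (nat_lit 10) (nat_lit 13))
    (@En.n l7748 (nat_lit 142) (nat_lit 11) (nat_lit 13))
    (@En.n l798 (nat_lit 151) (nat_lit 12) (nat_lit 10))
    (@En.n l7786 (nat_lit 774) (nat_lit 13) (nat_lit 12))
    (@En.n l2681 (nat_lit 187) (nat_lit 14) (nat_lit 5))
    (@En.n l2682 (nat_lit 186) (nat_lit 13) (nat_lit 5))
    (@En.n l11 (nat_lit 117) (nat_lit 15) (nat_lit 2))))
  (@Cl.mk (nat_lit 0x2000500030006000c000b000b000e0004000200050005000b000a000e000d) (nat_lit 0x812100009001) (nat_lit 16) Lb.e (@T16.mk En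
    (@En.n l9510 (nat_lit 117) (nat_lit 10) (nat_lit 13))
    (@En.n l4170 (nat_lit 145) (nat_lit 11) (nat_lit 14))
    (@En.n l9511 (nat_lit 153) (nat_lit 12) (nat_lit 10))
    (@En.i (nat_lit 771) (nat_lit 3) (nat_lit 11))
    (@En.n l9512 (nat_lit 221) (nat_lit 4) (nat_lit 5))
    (@En.n l3340 (nat_lit 190) (nat_lit 5) (nat_lit 5))
    (@En.n l3 (nat_lit 118) (nat_lit 6) (nat_lit 2))
    (@En.n l3333 (nat_lit 113) (nat_lit 7) (nat_lit 4))
    (@En.n l3334 (nat_lit 116) (nat_lit 9) (nat_lit 14))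
    (@En.n l3335 (nat_lit 116) (nat_lit 10) (nat_lit 11))
    (@En.n l3336 (nat_lit 35) (nat_lit 3) (nat_lit 11))
    (@En.n l2031 (nat_lit 2267) (nat_lit 12) (nat_lit 12))
    (@En.n l3337 (nat_lit 228) (nat_lit 12) (nat_lit 6))
    (@En.n l6111 (nat_lit 117) (nat_lit 6) (nat_lit 3))
    (@En.i (nat_lit 222) (nat_lit 7) (nat_lit 5))
    (@En.n l7 (nat_lit 118) (nat_lit 15) (nat_lit 2))))
  (@Cl.mk (nat_lit 0x2000c000a000d000d0004000300030006000d000b000e00030002000e0005) (nat_lit 0x200000a1c0020) (nat_lit 16) Lb.e (@T16.mk En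
    (@En.n l810 (nat_lit 117) (nat_lit 14) (nat_lit 5))
    (@En.n l811 (nat_lit 97) (nat_lit 1) (nat_lit 14))
    (@En.n l107 (nat_lit 119) (nat_lit 2) (nat_lit 2))
    (@En.n l812 (nat_lit 114) (nat_lit 3) (nat_lit 3))
    (@En.n l2629 (nat_lit 14091) (nat_lit 4) (nat_lit 14))
    (@En.i (nat_lit 110) (nat_lit 2) (nat_lit 11))
    (@En.n l814 (nat_lit 2275) (nat_lit 7) (nat_lit 13))
    (@En.n l1295 (nat_lit 116) (nat_lit 12) (nat_lit 6))
    (@En.n l2101 (nat_lit 116) (nat_lit 13) (nat_lit 3))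
    (@En.n l2630 (nat_lit 120) (nat_lit 0) (nat_lit 3))
    (@En.i (nat_lit 144) (nat_lit 0) (nat_lit 4))
    (@En.n l2631 (nat_lit 120) (nat_lit 3) (nat_lit 13))
    (@En.n l1643 (nat_lit 140) (nat_lit 5) (nat_lit 13))
    (@En.n l2167 (nat_lit 161) (nat_lit 14) (nat_lit 10))
    (@En.n l2632 (nat_lit 1856) (nat_lit 12) (nat_lit 12))
    (@En.n l28 (nat_lit 119) (nat_lit 15) (nat_lit 2))))
  (@Cl.mk (nat_lit 0x20006000d000b000e00030002000e00050002000d000a000d0003000e0003) (nat_lit 0x8100020000b000) (nat_lit 16) Lb.e (@T16.mk En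
    (@En.n l2568 (nat_lit 119) (nat_lit 9) (nat_lit 3))
    (@En.n l889 (nat_lit 241) (nat_lit 0) (nat_lit 14))
    (@En.n l2568 (nat_lit 179) (nat_lit 2) (nat_lit 3))
    (@En.n l1016 (nat_lit 177) (nat_lit 0) (nat_lit 13))
    (@En.n l2619 (nat_lit 178) (nat_lit 4) (nat_lit 10))
    (@En.n l2620 (nat_lit 1857) (nat_lit 6) (nat_lit 13))
    (@En.n l11 (nat_lit 120) (nat_lit 6) (nat_lit 2))
    (@En.n l2621 (nat_lit 121) (nat_lit 14) (nat_lit 5))
    (@En.n l2557 (nat_lit 96) (nat_lit 1) (nat_lit 14))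
    (@En.n l3 (nat_lit 120) (nat_lit 9) (nat_lit 2))
    (@En.n l2622 (nat_lit 122) (nat_lit 10) (nat_lit 3))
    (@En.n l2623 (nat_lit 14089) (nat_lit 4) (nat_lit 14))
    (@En.i (nat_lit 111) (nat_lit 13) (nat_lit 11))
    (@En.n l2238 (nat_lit 2372) (nat_lit 7) (nat_lit 13))
    (@En.n l2624 (nat_lit 119) (nat_lit 7) (nat_lit 6))
    (@En.n l18 (nat_lit 120) (nat_lit 15) (nat_lit 2))))
  (@Cl.mk (nat_lit 0x200050005000d000a000d0003000e000300020006000c000b000b000e0004) (nat_lit 0xb0000081210) (nat_lit 16) Lb.e (@T16.mk En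
    (@En.n l2675 (nat_lit 99) (nat_lit 9) (nat_lit 4))
    (@En.n l7745 (nat_lit 120) (nat_lit 11) (nat_lit 14))
    (@En.n l7746 (nat_lit 120) (nat_lit 12) (nat_lit 11))
    (@En.i (nat_lit 112) (nat_lit 3) (nat_lit 11))
    (@En.n l2678 (nat_lit 2371) (nat_lit 14) (nat_lit 12))
    (@En.n l617 (nat_lit 117) (nat_lit 5) (nat_lit 6))
    (@En.n l17 (nat_lit 121) (nat_lit 6) (nat_lit 2))
    (@En.i (nat_lit 117) (nat_lit 7) (nat_lit 3))
    (@En.n l7747 (nat_lit 228) (nat_lit 0) (nat_lit 14))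
    (@En.i (nat_lit 180) (nat_lit 9) (nat_lit 3))
    (@En.n l7748 (nat_lit 211) (nat_lit 11) (nat_lit 13))
    (@En.n l7749 (nat_lit 160) (nat_lit 12) (nat_lit 10))
    (@En.n l2680 (nat_lit 2278) (nat_lit 13) (nat_lit 13))
    (@En.n l2681 (nat_lit 185) (nat_lit 14) (nat_lit 5))
    (@En.n l2682 (nat_lit 184) (nat_lit 13) (nat_lit 5))
    (@En.n l11 (nat_lit 121) (nat_lit 15) (nat_lit 2))))
  (@Cl.mk (nat_lit 0x20006000d000d000c00030003000e00040002000d000a000d0003000e0003) (nat_lit 0xa9a001000020c0) (nat_lit 16) Lb.e (@T16.mk En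
    (@En.i (nat_lit 114) (nat_lit 9) (nat_lit 3))
    (@En.i (nat_lit 238) (nat_lit 0) (nat_lit 14))
    (@En.i (nat_lit 130) (nat_lit 2) (nat_lit 3))
    (@En.n l2865 (nat_lit 174) (nat_lit 0) (nat_lit 13))
    (@En.i (nat_lit 133) (nat_lit 4) (nat_lit 10))
    (@En.n l2865 (nat_lit 1853) (nat_lit 6) (nat_lit 13))
    (@En.n l28 (nat_lit 122) (nat_lit 6) (nat_lit 2))
    (@En.n l2683 (nat_lit 99) (nat_lit 7) (nat_lit 4))
    (@En.n l1578 (nat_lit 30) (nat_lit 1) (nat_lit 14))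
    (@En.n l107 (nat_lit 125) (nat_lit 9) (nat_lit 3))
    (@En.n l2381 (nat_lit 120) (nat_lit 10) (nat_lit 3))
    (@En.n l575 (nat_lit 124) (nat_lit 12) (nat_lit 12))
    (@En.n l7750 (nat_lit 120) (nat_lit 13) (nat_lit 13))
    (@En.i (nat_lit 2374) (nat_lit 7) (nat_lit 13))
    (@En.n l617 (nat_lit 114) (nat_lit 7) (nat_lit 6))
    (@En.n l17 (nat_lit 122) (nat_lit 15) (nat_lit 2))))
  (@Cl.mk (nat_lit 0x2000c000a000d000d0004000300030006000e000d0002000d0003000e0003) (nat_lit 0x20000aa02030) (nat_lit 16) Lb.e (@T16.mk En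
    (@En.i (nat_lit 126) (nat_lit 11) (nat_lit 3))
    (@En.n l798 (nat_lit 263) (nat_lit 0) (nat_lit 14))
    (@En.i (nat_lit 114) (nat_lit 2) (nat_lit 3))
    (@En.i (nat_lit 90) (nat_lit 0) (nat_lit 13))
    (@En.n l3 (nat_lit 123) (nat_lit 4) (nat_lit 2))
    (@En.n l97 (nat_lit 114) (nat_lit 6) (nat_lit 13))
    (@En.i (nat_lit 2877) (nat_lit 1) (nat_lit 14))
    (@En.n l5684 (nat_lit 168) (nat_lit 12) (nat_lit 6))
    (@En.n l5685 (nat_lit 168) (nat_lit 13) (nat_lit 3))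
    (@En.n l18 (nat_lit 125) (nat_lit 0) (nat_lit 3))
    (@En.i (nat_lit 211) (nat_lit 0) (nat_lit 4))
    (@En.n l61 (nat_lit 125) (nat_lit 3) (nat_lit 13))
    (@En.n l1353 (nat_lit 174) (nat_lit 8) (nat_lit 13))
    (@En.n l798 (nat_lit 132) (nat_lit 14) (nat_lit 10))
    (@En.i (nat_lit 1855) (nat_lit 10) (nat_lit 12))
    (@En.n l28 (nat_lit 123) (nat_lit 15) (nat_lit 2))))
  (@Cl.mk (nat_lit 0x20006000e000c0002000d000d000400030003000d000a000d0003000e0003) (nat_lit 0x99033000900040) (nat_lit 16) Lb.e (@T16.mk En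
    (@En.i (nat_lit 126) (nat_lit 4) (nat_lit 3))
    (@En.n l164 (nat_lit 239) (nat_lit 0) (nat_lit 14))
    (@En.i (nat_lit 128) (nat_lit 2) (nat_lit 3))
    (@En.n l287 (nat_lit 173) (nat_lit 0) (nat_lit 13))
    (@En.i (nat_lit 131) (nat_lit 4) (nat_lit 10))
    (@En.n l2004 (nat_lit 2250) (nat_lit 6) (nat_lit 13))
    (@En.i (nat_lit 188) (nat_lit 13) (nat_lit 3))
    (@En.n l11 (nat_lit 125) (nat_lit 7) (nat_lit 3))
    (@En.n l614 (nat_lit 96) (nat_lit 0) (nat_lit 4))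
    (@En.n l55 (nat_lit 125) (nat_lit 10) (nat_lit 13))
    (@En.n l615 (nat_lit 89) (nat_lit 11) (nat_lit 13))
    (@En.n l3 (nat_lit 124) (nat_lit 11) (nat_lit 2))
    (@En.n l616 (nat_lit 99) (nat_lit 13) (nat_lit 12))
    (@En.i (nat_lit 3517) (nat_lit 1) (nat_lit 14))
    (@En.n l617 (nat_lit 126) (nat_lit 2) (nat_lit 6))
    (@En.n l17 (nat_lit 124) (nat_lit 15) (nat_lit 2))))
  (@Cl.mk (nat_lit 0x20006000e000d0002000d0003000e00030002000d000a000d0003000e0003) (nat_lit 0xab020400001000) (nat_lit 16) Lb.e (@T16.mk En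
    (@En.i (nat_lit 123) (nat_lit 9) (nat_lit 3))
    (@En.i (nat_lit 237) (nat_lit 0) (nat_lit 14))
    (@En.i (nat_lit 127) (nat_lit 2) (nat_lit 3))
    (@En.n l1998 (nat_lit 8) (nat_lit 0) (nat_lit 13))
    (@En.i (nat_lit 129) (nat_lit 4) (nat_lit 10))
    (@En.n l1998 (nat_lit 1854) (nat_lit 6) (nat_lit 13))
    (@En.n l28 (nat_lit 125) (nat_lit 6) (nat_lit 2))
    (@En.i (nat_lit 124) (nat_lit 7) (nat_lit 3))
    (@En.i (nat_lit 265) (nat_lit 0) (nat_lit 14))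
    (@En.i (nat_lit 122) (nat_lit 9) (nat_lit 3))
    (@En.i (nat_lit 91) (nat_lit 11) (nat_lit 13))
    (@En.n l3 (nat_lit 125) (nat_lit 11) (nat_lit 2))
    (@En.n l97 (nat_lit 122) (nat_lit 13) (nat_lit 13))
    (@En.i (nat_lit 3567) (nat_lit 1) (nat_lit 14))
    (@En.n l617 (nat_lit 123) (nat_lit 7) (nat_lit 6))
    (@En.n l17 (nat_lit 125) (nat_lit 15) (nat_lit 2))))
  (@Cl.mk (nat_lit 0x2000d000d000400030003000c000a000d000d0004000300030006000e000c) (nat_lit 0x1300000010000c9) (nat_lit 16) Lb.e (@T16.mk En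
    (@En.n l616 (nat_lit 103) (nat_lit 12) (nat_lit 12))
    (@En.i (nat_lit 3515) (nat_lit 1) (nat_lit 14))
    (@En.n l796 (nat_lit 170) (nat_lit 12) (nat_lit 6))
    (@En.n l797 (nat_lit 170) (nat_lit 13) (nat_lit 3))
    (@En.n l18 (nat_lit 124) (nat_lit 0) (nat_lit 3))
    (@En.i (nat_lit 200) (nat_lit 0) (nat_lit 4))
    (@En.n l61 (nat_lit 124) (nat_lit 3) (nat_lit 13))
    (@En.n l287 (nat_lit 172) (nat_lit 8) (nat_lit 13))
    (@En.n l798 (nat_lit 134) (nat_lit 9) (nat_lit 10))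
    (@En.i (nat_lit 2185) (nat_lit 10) (nat_lit 12))
    (@En.i (nat_lit 189) (nat_lit 13) (nat_lit 3))
    (@En.n l11 (nat_lit 123) (nat_lit 0) (nat_lit 3))
    (@En.n l614 (nat_lit 97) (nat_lit 0) (nat_lit 4))
    (@En.n l55 (nat_lit 123) (nat_lit 3) (nat_lit 13))
    (@En.n l615 (nat_lit 86) (nat_lit 1) (nat_lit 13))
    (@En.n l3 (nat_lit 126) (nat_lit 15) (nat_lit 2))))
  (@Cl.mk (nat_lit 0x20005000e000d0002000d0003000e00030002000d000c000b0003000e0004) (nat_lit 0x9b030300910040) (nat_lit 16) Lb.e (@T16.mk En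
    (@En.n l215 (nat_lit 171) (nat_lit 9) (nat_lit 4))
    (@En.n l612 (nat_lit 129) (nat_lit 1) (nat_lit 14))
    (@En.n l50 (nat_lit 125) (nat_lit 2) (nat_lit 3))
    (@En.i (nat_lit 208) (nat_lit 3) (nat_lit 11))
    (@En.n l217 (nat_lit 123) (nat_lit 14) (nat_lit 12))
    (@En.n l613 (nat_lit 2307) (nat_lit 6) (nat_lit 13))
    (@En.n l28 (nat_lit 127) (nat_lit 6) (nat_lit 2))
    (@En.i (nat_lit 128) (nat_lit 7) (nat_lit 3))
    (@En.n l613 (nat_lit 268) (nat_lit 0) (nat_lit 14))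
    (@En.i (nat_lit 130) (nat_lit 9) (nat_lit 3))
    (@En.i (nat_lit 107) (nat_lit 11) (nat_lit 13))
    (@En.n l3 (nat_lit 127) (nat_lit 11) (nat_lit 2))
    (@En.n l97 (nat_lit 130) (nat_lit 13) (nat_lit 13))
    (@En.i (nat_lit 3566) (nat_lit 1) (nat_lit 14))
    (@En.n l617 (nat_lit 211) (nat_lit 13) (nat_lit 5))
    (@En.n l17 (nat_lit 127) (nat_lit 15) (nat_lit 2))))
noncomputable def a8 : T16 Cl := @T16.mk Cl
  (@Cl.mk (nat_lit 0x20005000e000c0002000d000d000400030003000d000c000b0003000e0004) (nat_lit 0x99034000810000) (nat_lit 16) Lb.e (@T16.mk En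
    (@En.n l215 (nat_lit 175) (nat_lit 4) (nat_lit 4))
    (@En.n l612 (nat_lit 131) (nat_lit 1) (nat_lit 14))
    (@En.n l50 (nat_lit 124) (nat_lit 2) (nat_lit 3))
    (@En.i (nat_lit 194) (nat_lit 3) (nat_lit 11))
    (@En.n l217 (nat_lit 126) (nat_lit 9) (nat_lit 12))
    (@En.n l613 (nat_lit 2306) (nat_lit 6) (nat_lit 13))
    (@En.i (nat_lit 183) (nat_lit 13) (nat_lit 3))
    (@En.n l11 (nat_lit 127) (nat_lit 7) (nat_lit 3))
    (@En.n l614 (nat_lit 9) (nat_lit 0) (nat_lit 4))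
    (@En.n l55 (nat_lit 127) (nat_lit 10) (nat_lit 13))
    (@En.n l615 (nat_lit 100) (nat_lit 11) (nat_lit 13))
    (@En.n l3 (nat_lit 128) (nat_lit 11) (nat_lit 2))
    (@En.n l616 (nat_lit 101) (nat_lit 13) (nat_lit 12))
    (@En.i (nat_lit 3519) (nat_lit 1) (nat_lit 14))
    (@En.n l617 (nat_lit 200) (nat_lit 13) (nat_lit 5))
    (@En.n l17 (nat_lit 128) (nat_lit 15) (nat_lit 2))))
  (@Cl.mk (nat_lit 0x200060005000e000d0002000d0003000e00030002000a000d000b000e0003) (nat_lit 0xa902040081030) (nat_lit 16) Lb.e (@T16.mk En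
    (@En.n l798 (nat_lit 132) (nat_lit 10) (nat_lit 3))
    (@En.n l5880 (nat_lit 282) (nat_lit 0) (nat_lit 14))
    (@En.n l51 (nat_lit 209) (nat_lit 2) (nat_lit 11))
    (@En.n l564 (nat_lit 125) (nat_lit 5) (nat_lit 13))
    (@En.n l5880 (nat_lit 565) (nat_lit 4) (nat_lit 10))
    (@En.n l28 (nat_lit 129) (nat_lit 5) (nat_lit 2))
    (@En.i (nat_lit 131) (nat_lit 6) (nat_lit 3))
    (@En.n l51 (nat_lit 267) (nat_lit 0) (nat_lit 14))
    (@En.i (nat_lit 133) (nat_lit 8) (nat_lit 3))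
    (@En.i (nat_lit 82) (nat_lit 10) (nat_lit 13))
    (@En.n l3 (nat_lit 129) (nat_lit 10) (nat_lit 2))
    (@En.n l97 (nat_lit 133) (nat_lit 12) (nat_lit 13))
    (@En.n l564 (nat_lit 781) (nat_lit 13) (nat_lit 14))
    (@En.n l644 (nat_lit 127) (nat_lit 14) (nat_lit 5))
    (@En.n l2003 (nat_lit 132) (nat_lit 8) (nat_lit 6))
    (@En.n l17 (nat_lit 129) (nat_lit 15) (nat_lit 2))))
  (@Cl.mk (nat_lit 0x20005000d000d000c00030003000e00040002000d000c000b0003000e0004) (nat_lit 0xaba00100010000) (nat_lit 16) Lb.e (@T16.mk En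
    (@En.n l215 (nat_lit 139) (nat_lit 9) (nat_lit 4))
    (@En.n l612 (nat_lit 133) (nat_lit 1) (nat_lit 14))
    (@En.n l50 (nat_lit 122) (nat_lit 2) (nat_lit 3))
    (@En.n l52 (nat_lit 207) (nat_lit 3) (nat_lit 11))
    (@En.n l217 (nat_lit 114) (nat_lit 14) (nat_lit 12))
    (@En.n l613 (nat_lit 2282) (nat_lit 6) (nat_lit 13))
    (@En.n l28 (nat_lit 130) (nat_lit 6) (nat_lit 2))
    (@En.n l2683 (nat_lit 101) (nat_lit 7) (nat_lit 4))
    (@En.n l2463 (nat_lit 96) (nat_lit 9) (nat_lit 14))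
    (@En.n l107 (nat_lit 127) (nat_lit 9) (nat_lit 3))
    (@En.n l2684 (nat_lit 179) (nat_lit 10) (nat_lit 3))
    (@En.n l575 (nat_lit 128) (nat_lit 12) (nat_lit 12))
    (@En.n l2685 (nat_lit 179) (nat_lit 13) (nat_lit 13))
    (@En.i (nat_lit 2376) (nat_lit 7) (nat_lit 13))
    (@En.n l617 (nat_lit 142) (nat_lit 13) (nat_lit 5))
    (@En.n l17 (nat_lit 130) (nat_lit 15) (nat_lit 2))))
  (@Cl.mk (nat_lit 0x200060005000e000c0002000d000d000400030003000a000d000b000e0003) (nat_lit 0xc90230008a0c0) (nat_lit 16) Lb.e (@T16.mk En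
    (@En.n l798 (nat_lit 134) (nat_lit 5) (nat_lit 3))
    (@En.n l2001 (nat_lit 281) (nat_lit 0) (nat_lit 14))
    (@En.n l51 (nat_lit 196) (nat_lit 2) (nat_lit 11))
    (@En.n l564 (nat_lit 124) (nat_lit 5) (nat_lit 13))
    (@En.n l2001 (nat_lit 585) (nat_lit 4) (nat_lit 10))
    (@En.n l793 (nat_lit 192) (nat_lit 13) (nat_lit 3))
    (@En.n l11 (nat_lit 129) (nat_lit 6) (nat_lit 3))
    (@En.n l2001 (nat_lit 98) (nat_lit 0) (nat_lit 4))
    (@En.n l55 (nat_lit 129) (nat_lit 9) (nat_lit 13))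
    (@En.n l615 (nat_lit 81) (nat_lit 10) (nat_lit 13))
    (@En.n l3 (nat_lit 131) (nat_lit 10) (nat_lit 2))
    (@En.n l2002 (nat_lit 102) (nat_lit 12) (nat_lit 12))
    (@En.n l564 (nat_lit 635) (nat_lit 13) (nat_lit 14))
    (@En.n l644 (nat_lit 128) (nat_lit 14) (nat_lit 5))
    (@En.n l2003 (nat_lit 134) (nat_lit 3) (nat_lit 6))
    (@En.n l17 (nat_lit 131) (nat_lit 15) (nat_lit 2))))
  (@Cl.mk (nat_lit 0x2000a000d000d000c0003000300060004000e000d0002000d0003000e0003) (nat_lit 0x8a200000a902040) (nat_lit 16) Lb.e (@T16.mk En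
    (@En.i (nat_lit 134) (nat_lit 11) (nat_lit 3))
    (@En.i (nat_lit 251) (nat_lit 0) (nat_lit 14))
    (@En.i (nat_lit 135) (nat_lit 2) (nat_lit 3))
    (@En.i (nat_lit 80) (nat_lit 0) (nat_lit 13))
    (@En.n l7 (nat_lit 132) (nat_lit 4) (nat_lit 2))
    (@En.n l601 (nat_lit 135) (nat_lit 6) (nat_lit 13))
    (@En.n l226 (nat_lit 637) (nat_lit 1) (nat_lit 14))
    (@En.i (nat_lit 171) (nat_lit 7) (nat_lit 4))
    (@En.n l476 (nat_lit 166) (nat_lit 8) (nat_lit 6))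
    (@En.n l152 (nat_lit 166) (nat_lit 9) (nat_lit 3))
    (@En.n l618 (nat_lit 129) (nat_lit 0) (nat_lit 3))
    (@En.n l619 (nat_lit 167) (nat_lit 12) (nat_lit 12))
    (@En.n l620 (nat_lit 129) (nat_lit 3) (nat_lit 13))
    (@En.n l226 (nat_lit 127) (nat_lit 5) (nat_lit 13))
    (@En.i (nat_lit 564) (nat_lit 10) (nat_lit 10))
    (@En.n l17 (nat_lit 132) (nat_lit 15) (nat_lit 2))))
  (@Cl.mk (nat_lit 0x200060005000d000d000c00030003000e00040002000a000d000b000e0003) (nat_lit 0x89a00400810c0) (nat_lit 16) Lb.e (@T16.mk En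
    (@En.n l798 (nat_lit 135) (nat_lit 10) (nat_lit 3))
    (@En.n l7725 (nat_lit 279) (nat_lit 0) (nat_lit 14))
    (@En.n l51 (nat_lit 147) (nat_lit 2) (nat_lit 11))
    (@En.n l564 (nat_lit 122) (nat_lit 5) (nat_lit 13))
    (@En.n l5880 (nat_lit 562) (nat_lit 4) (nat_lit 10))
    (@En.n l28 (nat_lit 133) (nat_lit 5) (nat_lit 2))
    (@En.n l7726 (nat_lit 102) (nat_lit 6) (nat_lit 4))
    (@En.n l7725 (nat_lit 94) (nat_lit 8) (nat_lit 14))
    (@En.n l107 (nat_lit 129) (nat_lit 8) (nat_lit 3))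
    (@En.n l7725 (nat_lit 178) (nat_lit 9) (nat_lit 3))
    (@En.n l575 (nat_lit 131) (nat_lit 11) (nat_lit 12))
    (@En.n l7727 (nat_lit 178) (nat_lit 12) (nat_lit 13))
    (@En.n l564 (nat_lit 789) (nat_lit 13) (nat_lit 13))
    (@En.n l644 (nat_lit 130) (nat_lit 14) (nat_lit 5))
    (@En.n l2003 (nat_lit 135) (nat_lit 8) (nat_lit 6))
    (@En.n l17 (nat_lit 133) (nat_lit 15) (nat_lit 2))))
  (@Cl.mk (nat_lit 0x2000d000d000400030003000a000d000d000c0003000300060004000e000c) (nat_lit 0x1300089b00000c9) (nat_lit 16) Lb.e (@T16.mk En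
    (@En.n l601 (nat_lit 104) (nat_lit 11) (nat_lit 12))
    (@En.n l226 (nat_lit 633) (nat_lit 1) (nat_lit 14))
    (@En.i (nat_lit 175) (nat_lit 2) (nat_lit 4))
    (@En.n l476 (nat_lit 165) (nat_lit 12) (nat_lit 6))
    (@En.n l152 (nat_lit 165) (nat_lit 13) (nat_lit 3))
    (@En.n l618 (nat_lit 131) (nat_lit 0) (nat_lit 3))
    (@En.n l619 (nat_lit 169) (nat_lit 0) (nat_lit 12))
    (@En.n l620 (nat_lit 131) (nat_lit 3) (nat_lit 13))
    (@En.n l226 (nat_lit 128) (nat_lit 5) (nat_lit 13))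
    (@En.n l18 (nat_lit 567) (nat_lit 10) (nat_lit 10))
    (@En.i (nat_lit 162) (nat_lit 13) (nat_lit 3))
    (@En.n l18 (nat_lit 132) (nat_lit 0) (nat_lit 3))
    (@En.n l192 (nat_lit 100) (nat_lit 0) (nat_lit 4))
    (@En.n l61 (nat_lit 132) (nat_lit 3) (nat_lit 13))
    (@En.n l621 (nat_lit 10) (nat_lit 1) (nat_lit 13))
    (@En.n l7 (nat_lit 134) (nat_lit 15) (nat_lit 2))))
  (@Cl.mk (nat_lit 0x2000a000d000d000c0003000300060004000d000d000c00030003000e0004) (nat_lit 0x8120000089a0040) (nat_lit 16) Lb.e (@T16.mk En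
    (@En.i (nat_lit 104) (nat_lit 5) (nat_lit 4))
    (@En.n l5 (nat_lit 89) (nat_lit 1) (nat_lit 14))
    (@En.n l50 (nat_lit 132) (nat_lit 2) (nat_lit 3))
    (@En.i (nat_lit 161) (nat_lit 3) (nat_lit 3))
    (@En.n l217 (nat_lit 134) (nat_lit 0) (nat_lit 12))
    (@En.n l601 (nat_lit 161) (nat_lit 6) (nat_lit 13))
    (@En.n l226 (nat_lit 786) (nat_lit 7) (nat_lit 13))
    (@En.i (nat_lit 139) (nat_lit 7) (nat_lit 4))
    (@En.n l476 (nat_lit 164) (nat_lit 8) (nat_lit 6))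
    (@En.n l152 (nat_lit 164) (nat_lit 9) (nat_lit 3))
    (@En.n l618 (nat_lit 133) (nat_lit 0) (nat_lit 3))
    (@En.n l619 (nat_lit 138) (nat_lit 12) (nat_lit 12))
    (@En.n l620 (nat_lit 133) (nat_lit 3) (nat_lit 13))
    (@En.n l226 (nat_lit 130) (nat_lit 5) (nat_lit 13))
    (@En.i (nat_lit 558) (nat_lit 3) (nat_lit 10))
    (@En.n l17 (nat_lit 135) (nat_lit 15) (nat_lit 2))))
  (@Cl.mk (nat_lit 0x2000d000500040003000c000c000c000c0004000400040004000b000e000c) (nat_lit 0x20008a1000000c1) (nat_lit 16) Lb.e (@T16.mk En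
    (@En.n l2161 (nat_lit 6) (nat_lit 2) (nat_lit 12))
    (@En.n l2162 (nat_lit 195) (nat_lit 4) (nat_lit 14))
    (@En.n l28 (nat_lit 2190) (nat_lit 2) (nat_lit 11))
    (@En.n l2163 (nat_lit 205) (nat_lit 12) (nat_lit 4))
    (@En.n l1935 (nat_lit 13) (nat_lit 4) (nat_lit 4))
    (@En.n l2164 (nat_lit 169) (nat_lit 5) (nat_lit 4))
    (@En.i (nat_lit 110) (nat_lit 6) (nat_lit 4))
    (@En.n l2165 (nat_lit 138) (nat_lit 4) (nat_lit 12))
    (@En.n l742 (nat_lit 106) (nat_lit 4) (nat_lit 12))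
    (@En.n l396 (nat_lit 145) (nat_lit 4) (nat_lit 12))
    (@En.n l2166 (nat_lit 885) (nat_lit 11) (nat_lit 12))
    (@En.n l28 (nat_lit 150) (nat_lit 11) (nat_lit 3))
    (@En.n l2167 (nat_lit 139) (nat_lit 0) (nat_lit 4))
    (@En.n l2168 (nat_lit 113) (nat_lit 14) (nat_lit 5))
    (@En.n l2169 (nat_lit 103) (nat_lit 1) (nat_lit 13))
    (@En.n l107 (nat_lit 136) (nat_lit 15) (nat_lit 2))))
  (@Cl.mk (nat_lit 0x2000b000e000c0002000d000500040003000d000b000e00030002000e0005) (nat_lit 0x9c0010008100020) (nat_lit 16) Lb.e (@T16.mk En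
    (@En.n l997 (nat_lit 145) (nat_lit 14) (nat_lit 5))
    (@En.n l998 (nat_lit 106) (nat_lit 1) (nat_lit 14))
    (@En.n l50 (nat_lit 137) (nat_lit 2) (nat_lit 2))
    (@En.n l7 (nat_lit 138) (nat_lit 3) (nat_lit 3))
    (@En.n l828 (nat_lit 14109) (nat_lit 4) (nat_lit 14))
    (@En.n l999 (nat_lit 13) (nat_lit 2) (nat_lit 11))
    (@En.n l828 (nat_lit 2404) (nat_lit 11) (nat_lit 13))
    (@En.n l11 (nat_lit 152) (nat_lit 7) (nat_lit 3))
    (@En.n l383 (nat_lit 140) (nat_lit 0) (nat_lit 4))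
    (@En.n l1000 (nat_lit 116) (nat_lit 14) (nat_lit 5))
    (@En.n l999 (nat_lit 119) (nat_lit 11) (nat_lit 13))
    (@En.n l3 (nat_lit 137) (nat_lit 11) (nat_lit 2))
    (@En.i (nat_lit 141) (nat_lit 13) (nat_lit 12))
    (@En.n l249 (nat_lit 201) (nat_lit 4) (nat_lit 14))
    (@En.n l1001 (nat_lit 2141) (nat_lit 12) (nat_lit 11))
    (@En.n l17 (nat_lit 137) (nat_lit 15) (nat_lit 2))))
  (@Cl.mk (nat_lit 0x2000b000e000c0002000d000500040003000d000d000c00030003000e0004) (nat_lit 0xca0400089a0040) (nat_lit 16) Lb.e (@T16.mk En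
    (@En.n l997 (nat_lit 136) (nat_lit 4) (nat_lit 4))
    (@En.n l5 (nat_lit 111) (nat_lit 1) (nat_lit 14))
    (@En.n l50 (nat_lit 167) (nat_lit 2) (nat_lit 3))
    (@En.i (nat_lit 137) (nat_lit 3) (nat_lit 3))
    (@En.n l217 (nat_lit 169) (nat_lit 9) (nat_lit 12))
    (@En.n l601 (nat_lit 137) (nat_lit 6) (nat_lit 13))
    (@En.n l678 (nat_lit 2380) (nat_lit 11) (nat_lit 13))
    (@En.n l11 (nat_lit 164) (nat_lit 7) (nat_lit 3))
    (@En.n l1016 (nat_lit 18) (nat_lit 0) (nat_lit 4))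
    (@En.n l524 (nat_lit 115) (nat_lit 14) (nat_lit 5))
    (@En.n l678 (nat_lit 114) (nat_lit 11) (nat_lit 13))
    (@En.n l3 (nat_lit 138) (nat_lit 11) (nat_lit 2))
    (@En.i (nat_lit 139) (nat_lit 13) (nat_lit 12))
    (@En.i (nat_lit 207) (nat_lit 4) (nat_lit 14))
    (@En.n l1001 (nat_lit 2148) (nat_lit 2) (nat_lit 11))
    (@En.n l17 (nat_lit 138) (nat_lit 15) (nat_lit 2))))
  (@Cl.mk (nat_lit 0x2000c000c000c000c0004000400040004000d000d000c00030003000e0004) (nat_lit 0x99210000aba0010) (nat_lit 16) Lb.e (@T16.mk En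
    (@En.n l1934 (nat_lit 6) (nat_lit 5) (nat_lit 4))
    (@En.n l5 (nat_lit 99) (nat_lit 1) (nat_lit 14))
    (@En.n l50 (nat_lit 171) (nat_lit 2) (nat_lit 3))
    (@En.i (nat_lit 141) (nat_lit 3) (nat_lit 3))
    (@En.n l217 (nat_lit 175) (nat_lit 0) (nat_lit 12))
    (@En.n l601 (nat_lit 141) (nat_lit 6) (nat_lit 13))
    (@En.n l227 (nat_lit 2378) (nat_lit 7) (nat_lit 13))
    (@En.n l11 (nat_lit 147) (nat_lit 12) (nat_lit 4))
    (@En.n l152 (nat_lit 138) (nat_lit 8) (nat_lit 4))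
    (@En.n l839 (nat_lit 172) (nat_lit 12) (nat_lit 4))
    (@En.n l227 (nat_lit 114) (nat_lit 10) (nat_lit 4))
    (@En.n l1947 (nat_lit 18) (nat_lit 4) (nat_lit 12))
    (@En.n l230 (nat_lit 130) (nat_lit 4) (nat_lit 12))
    (@En.n l603 (nat_lit 142) (nat_lit 4) (nat_lit 12))
    (@En.i (nat_lit 2146) (nat_lit 11) (nat_lit 12))
    (@En.n l17 (nat_lit 139) (nat_lit 15) (nat_lit 2))))
  (@Cl.mk (nat_lit 0x2000d000b000e00030002000e00050002000d000d000c00030003000e0004) (nat_lit 0xb10001009100010) (nat_lit 16) Lb.e (@T16.mk En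
    (@En.n l1297 (nat_lit 141) (nat_lit 8) (nat_lit 4))
    (@En.n l5 (nat_lit 120) (nat_lit 1) (nat_lit 14))
    (@En.n l1298 (nat_lit 177) (nat_lit 13) (nat_lit 3))
    (@En.n l383 (nat_lit 5) (nat_lit 3) (nat_lit 3))
    (@En.n l1299 (nat_lit 176) (nat_lit 0) (nat_lit 12))
    (@En.n l1300 (nat_lit 5) (nat_lit 6) (nat_lit 13))
    (@En.n l1301 (nat_lit 2383) (nat_lit 12) (nat_lit 13))
    (@En.n l11 (nat_lit 140) (nat_lit 7) (nat_lit 2))
    (@En.n l1302 (nat_lit 142) (nat_lit 14) (nat_lit 5))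
    (@En.n l1016 (nat_lit 130) (nat_lit 1) (nat_lit 14))
    (@En.n l3 (nat_lit 140) (nat_lit 10) (nat_lit 2))
    (@En.n l1017 (nat_lit 18) (nat_lit 3) (nat_lit 3))
    (@En.n l1303 (nat_lit 14107) (nat_lit 4) (nat_lit 14))
    (@En.i (nat_lit 138) (nat_lit 14) (nat_lit 11))
    (@En.n l1304 (nat_lit 2387) (nat_lit 7) (nat_lit 13))
    (@En.n l17 (nat_lit 140) (nat_lit 15) (nat_lit 2))))
  (@Cl.mk (nat_lit 0x2000c000c000c000c0004000400040004000d000b000e00030002000e0005) (nat_lit 0x9a210000a100010) (nat_lit 16) Lb.e (@T16.mk En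
    (@En.n l300 (nat_lit 143) (nat_lit 14) (nat_lit 5))
    (@En.n l5 (nat_lit 101) (nat_lit 1) (nat_lit 14))
    (@En.n l50 (nat_lit 141) (nat_lit 2) (nat_lit 2))
    (@En.n l7 (nat_lit 139) (nat_lit 3) (nat_lit 3))
    (@En.n l828 (nat_lit 14110) (nat_lit 4) (nat_lit 14))
    (@En.n l838 (nat_lit 136) (nat_lit 2) (nat_lit 11))
    (@En.n l227 (nat_lit 2241) (nat_lit 7) (nat_lit 13))
    (@En.n l11 (nat_lit 146) (nat_lit 12) (nat_lit 4))
    (@En.n l152 (nat_lit 137) (nat_lit 8) (nat_lit 4))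
    (@En.n l839 (nat_lit 176) (nat_lit 12) (nat_lit 4))
    (@En.n l838 (nat_lit 119) (nat_lit 10) (nat_lit 4))
    (@En.n l840 (nat_lit 140) (nat_lit 4) (nat_lit 12))
    (@En.n l841 (nat_lit 179) (nat_lit 4) (nat_lit 12))
    (@En.n l842 (nat_lit 144) (nat_lit 4) (nat_lit 12))
    (@En.n l843 (nat_lit 2147) (nat_lit 12) (nat_lit 12))
    (@En.n l17 (nat_lit 141) (nat_lit 15) (nat_lit 2))))
  (@Cl.mk (nat_lit 0x200050005000d000d000c00030003000e00040002000c000b000b000e0004) (nat_lit 0x9b00010081210) (nat_lit 16) Lb.e (@T16.mk En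
    (@En.n l215 (nat_lit 139) (nat_lit 10) (nat_lit 4))
    (@En.n l4175 (nat_lit 140) (nat_lit 12) (nat_lit 14))
    (@En.n l4176 (nat_lit 140) (nat_lit 13) (nat_lit 11))
    (@En.n l2589 (nat_lit 115) (nat_lit 3) (nat_lit 11))
    (@En.n l4177 (nat_lit 2201) (nat_lit 11) (nat_lit 12))
    (@En.n l28 (nat_lit 142) (nat_lit 5) (nat_lit 2))
    (@En.n l4178 (nat_lit 143) (nat_lit 6) (nat_lit 4))
    (@En.n l4179 (nat_lit 121) (nat_lit 8) (nat_lit 14))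
    (@En.n l107 (nat_lit 211) (nat_lit 8) (nat_lit 3))
    (@En.n l2684 (nat_lit 144) (nat_lit 9) (nat_lit 3))
    (@En.n l575 (nat_lit 200) (nat_lit 11) (nat_lit 12))
    (@En.n l2685 (nat_lit 144) (nat_lit 12) (nat_lit 13))
    (@En.i (nat_lit 2381) (nat_lit 13) (nat_lit 13))
    (@En.n l4180 (nat_lit 148) (nat_lit 14) (nat_lit 5))
    (@En.n l884 (nat_lit 147) (nat_lit 13) (nat_lit 5))
    (@En.n l18 (nat_lit 142) (nat_lit 15) (nat_lit 2))))
  (@Cl.mk (nat_lit 0x200050005000c000c000c000c0004000400040004000c000b000b000e0004) (nat_lit 0x91210000a1210) (nat_lit 16) Lb.e (@T16.mk En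
    (@En.n l2741 (nat_lit 6) (nat_lit 7) (nat_lit 4))
    (@En.n l1063 (nat_lit 141) (nat_lit 4) (nat_lit 14))
    (@En.n l1064 (nat_lit 141) (nat_lit 5) (nat_lit 11))
    (@En.i (nat_lit 113) (nat_lit 3) (nat_lit 11))
    (@En.n l2742 (nat_lit 2237) (nat_lit 5) (nat_lit 12))
    (@En.n l11 (nat_lit 202) (nat_lit 12) (nat_lit 4))
    (@En.n l2702 (nat_lit 145) (nat_lit 6) (nat_lit 4))
    (@En.n l2743 (nat_lit 200) (nat_lit 7) (nat_lit 4))
    (@En.n l227 (nat_lit 117) (nat_lit 8) (nat_lit 4))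
    (@En.n l2744 (nat_lit 142) (nat_lit 10) (nat_lit 12))
    (@En.n l230 (nat_lit 180) (nat_lit 11) (nat_lit 12))
    (@En.n l2745 (nat_lit 17) (nat_lit 4) (nat_lit 12))
    (@En.n l2746 (nat_lit 773) (nat_lit 13) (nat_lit 12))
    (@En.n l699 (nat_lit 204) (nat_lit 14) (nat_lit 5))
    (@En.n l17 (nat_lit 149) (nat_lit 13) (nat_lit 5))
    (@En.n l18 (nat_lit 143) (nat_lit 15) (nat_lit 2))))
noncomputable def a9 : T16 Cl := @T16.mk Cl
  (@Cl.mk (nat_lit 0x200050005000d000b000e00030002000e00050002000c000b000b000e0004) (nat_lit 0xa9c0000091110) (nat_lit 16) Lb.e (@T16.mk En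
    (@En.n l806 (nat_lit 141) (nat_lit 10) (nat_lit 4))
    (@En.n l1288 (nat_lit 5) (nat_lit 4) (nat_lit 14))
    (@En.n l1289 (nat_lit 5) (nat_lit 5) (nat_lit 11))
    (@En.n l1290 (nat_lit 116) (nat_lit 3) (nat_lit 11))
    (@En.n l1291 (nat_lit 2419) (nat_lit 12) (nat_lit 12))
    (@En.n l28 (nat_lit 144) (nat_lit 5) (nat_lit 2))
    (@En.n l1292 (nat_lit 17) (nat_lit 6) (nat_lit 5))
    (@En.n l1293 (nat_lit 180) (nat_lit 8) (nat_lit 14))
    (@En.n l107 (nat_lit 144) (nat_lit 8) (nat_lit 2))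
    (@En.n l812 (nat_lit 142) (nat_lit 9) (nat_lit 3))
    (@En.n l1294 (nat_lit 14115) (nat_lit 4) (nat_lit 14))
    (@En.i (nat_lit 145) (nat_lit 12) (nat_lit 11))
    (@En.n l814 (nat_lit 2418) (nat_lit 13) (nat_lit 13))
    (@En.n l1295 (nat_lit 223) (nat_lit 14) (nat_lit 5))
    (@En.n l1296 (nat_lit 146) (nat_lit 13) (nat_lit 5))
    (@En.n l18 (nat_lit 144) (nat_lit 15) (nat_lit 2))))
  (@Cl.mk (nat_lit 0x200050005000b000e000c0002000d000500040003000c000b000b000e0004) (nat_lit 0x8c20100091210) (nat_lit 16) Lb.e (@T16.mk En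
    (@En.n l50 (nat_lit 136) (nat_lit 6) (nat_lit 4))
    (@En.n l1643 (nat_lit 137) (nat_lit 4) (nat_lit 14))
    (@En.n l2165 (nat_lit 137) (nat_lit 5) (nat_lit 11))
    (@En.n l1290 (nat_lit 109) (nat_lit 3) (nat_lit 11))
    (@En.n l3308 (nat_lit 887) (nat_lit 11) (nat_lit 12))
    (@En.n l28 (nat_lit 153) (nat_lit 5) (nat_lit 3))
    (@En.n l814 (nat_lit 142) (nat_lit 6) (nat_lit 4))
    (@En.n l3309 (nat_lit 118) (nat_lit 14) (nat_lit 5))
    (@En.n l2923 (nat_lit 117) (nat_lit 9) (nat_lit 13))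
    (@En.n l107 (nat_lit 145) (nat_lit 9) (nat_lit 2))
    (@En.n l1290 (nat_lit 143) (nat_lit 11) (nat_lit 12))
    (@En.n l3310 (nat_lit 198) (nat_lit 4) (nat_lit 14))
    (@En.n l28 (nat_lit 769) (nat_lit 13) (nat_lit 11))
    (@En.n l1295 (nat_lit 220) (nat_lit 14) (nat_lit 5))
    (@En.n l2101 (nat_lit 205) (nat_lit 13) (nat_lit 5))
    (@En.n l18 (nat_lit 145) (nat_lit 15) (nat_lit 2))))
  (@Cl.mk (nat_lit 0x2000500050004000d000b000e00030002000e00050002000b000b000e000c) (nat_lit 0x3) (nat_lit 16) Lb.e (@T16.mk En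
    (@En.n l68 (nat_lit 141) (nat_lit 12) (nat_lit 12))
    (@En.n l297 (nat_lit 223) (nat_lit 4) (nat_lit 14))
    (@En.n l298 (nat_lit 223) (nat_lit 5) (nat_lit 11))
    (@En.n l299 (nat_lit 2149) (nat_lit 3) (nat_lit 11))
    (@En.n l17 (nat_lit 146) (nat_lit 4) (nat_lit 2))
    (@En.n l300 (nat_lit 202) (nat_lit 5) (nat_lit 5))
    (@En.n l5 (nat_lit 182) (nat_lit 7) (nat_lit 14))
    (@En.n l50 (nat_lit 146) (nat_lit 7) (nat_lit 2))
    (@En.n l7 (nat_lit 147) (nat_lit 8) (nat_lit 3))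
    (@En.n l301 (nat_lit 14112) (nat_lit 4) (nat_lit 14))
    (@En.n l302 (nat_lit 205) (nat_lit 11) (nat_lit 11))
    (@En.n l303 (nat_lit 2176) (nat_lit 12) (nat_lit 13))
    (@En.i (nat_lit 161) (nat_lit 7) (nat_lit 4))
    (@En.n l304 (nat_lit 201) (nat_lit 14) (nat_lit 5))
    (@En.n l197 (nat_lit 137) (nat_lit 9) (nat_lit 5))
    (@En.n l67 (nat_lit 146) (nat_lit 15) (nat_lit 2))))
  (@Cl.mk (nat_lit 0x2000500050004000d000d000c00030003000e00040002000b000b000e000c) (nat_lit 0x10000008903) (nat_lit 16) Lb.e (@T16.mk En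
    (@En.n l68 (nat_lit 139) (nat_lit 12) (nat_lit 12))
    (@En.n l831 (nat_lit 148) (nat_lit 4) (nat_lit 14))
    (@En.n l1068 (nat_lit 148) (nat_lit 5) (nat_lit 11))
    (@En.i (nat_lit 2150) (nat_lit 3) (nat_lit 11))
    (@En.n l17 (nat_lit 147) (nat_lit 4) (nat_lit 2))
    (@En.n l1069 (nat_lit 149) (nat_lit 5) (nat_lit 4))
    (@En.n l5 (nat_lit 184) (nat_lit 7) (nat_lit 14))
    (@En.n l50 (nat_lit 209) (nat_lit 7) (nat_lit 3))
    (@En.i (nat_lit 146) (nat_lit 8) (nat_lit 3))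
    (@En.n l217 (nat_lit 196) (nat_lit 10) (nat_lit 12))
    (@En.n l601 (nat_lit 146) (nat_lit 11) (nat_lit 13))
    (@En.n l195 (nat_lit 2488) (nat_lit 12) (nat_lit 13))
    (@En.i (nat_lit 135) (nat_lit 7) (nat_lit 4))
    (@En.n l891 (nat_lit 207) (nat_lit 14) (nat_lit 5))
    (@En.n l197 (nat_lit 138) (nat_lit 9) (nat_lit 5))
    (@En.n l67 (nat_lit 147) (nat_lit 15) (nat_lit 2))))
  (@Cl.mk (nat_lit 0x20005000d000d000c00030003000e00040002000b000e000b0002000e0005) (nat_lit 0x8c2020) (nat_lit 16) Lb.e (@T16.mk En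
    (@En.n l2611 (nat_lit 147) (nat_lit 14) (nat_lit 5))
    (@En.n l3341 (nat_lit 142) (nat_lit 1) (nat_lit 14))
    (@En.n l3 (nat_lit 148) (nat_lit 2) (nat_lit 2))
    (@En.n l3342 (nat_lit 142) (nat_lit 3) (nat_lit 11))
    (@En.n l778 (nat_lit 234) (nat_lit 4) (nat_lit 14))
    (@En.n l617 (nat_lit 2203) (nat_lit 2) (nat_lit 11))
    (@En.n l17 (nat_lit 148) (nat_lit 6) (nat_lit 2))
    (@En.n l2592 (nat_lit 204) (nat_lit 7) (nat_lit 4))
    (@En.i (nat_lit 185) (nat_lit 9) (nat_lit 14))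
    (@En.n l3343 (nat_lit 210) (nat_lit 9) (nat_lit 3))
    (@En.n l778 (nat_lit 223) (nat_lit 10) (nat_lit 3))
    (@En.n l2594 (nat_lit 199) (nat_lit 12) (nat_lit 12))
    (@En.n l3344 (nat_lit 223) (nat_lit 13) (nat_lit 13))
    (@En.n l3345 (nat_lit 2489) (nat_lit 7) (nat_lit 13))
    (@En.n l3346 (nat_lit 133) (nat_lit 13) (nat_lit 5))
    (@En.n l28 (nat_lit 148) (nat_lit 15) (nat_lit 2))))
  (@Cl.mk (nat_lit 0x2000500050004000c000c000c000c0004000400040004000b000b000e000c) (nat_lit 0x90a100008901) (nat_lit 16) Lb.e (@T16.mk En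
    (@En.n l648 (nat_lit 6) (nat_lit 1) (nat_lit 12))
    (@En.n l18 (nat_lit 204) (nat_lit 4) (nat_lit 14))
    (@En.n l61 (nat_lit 204) (nat_lit 5) (nat_lit 11))
    (@En.n l656 (nat_lit 2235) (nat_lit 3) (nat_lit 11))
    (@En.n l11 (nat_lit 3) (nat_lit 4) (nat_lit 4))
    (@En.n l152 (nat_lit 205) (nat_lit 5) (nat_lit 4))
    (@En.n l657 (nat_lit 196) (nat_lit 6) (nat_lit 4))
    (@En.n l653 (nat_lit 186) (nat_lit 7) (nat_lit 4))
    (@En.n l658 (nat_lit 147) (nat_lit 9) (nat_lit 12))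
    (@En.n l659 (nat_lit 182) (nat_lit 10) (nat_lit 12))
    (@En.n l660 (nat_lit 202) (nat_lit 11) (nat_lit 12))
    (@En.i (nat_lit 2475) (nat_lit 12) (nat_lit 12))
    (@En.n l661 (nat_lit 104) (nat_lit 12) (nat_lit 4))
    (@En.n l654 (nat_lit 195) (nat_lit 14) (nat_lit 5))
    (@En.n l662 (nat_lit 136) (nat_lit 13) (nat_lit 5))
    (@En.n l7 (nat_lit 149) (nat_lit 15) (nat_lit 2))))
  (@Cl.mk (nat_lit 0x2000d000300060003000c000c000c000c0004000400040004000a000e000d) (nat_lit 0x2000892000008a2) (nat_lit 16) Lb.e (@T16.mk En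
    (@En.n l5722 (nat_lit 104) (nat_lit 2) (nat_lit 13))
    (@En.n l2162 (nat_lit 175) (nat_lit 1) (nat_lit 14))
    (@En.i (nat_lit 588) (nat_lit 2) (nat_lit 10))
    (@En.n l2163 (nat_lit 156) (nat_lit 12) (nat_lit 4))
    (@En.n l1935 (nat_lit 93) (nat_lit 4) (nat_lit 4))
    (@En.n l2164 (nat_lit 165) (nat_lit 5) (nat_lit 4))
    (@En.i (nat_lit 90) (nat_lit 6) (nat_lit 4))
    (@En.n l2165 (nat_lit 164) (nat_lit 4) (nat_lit 12))
    (@En.n l742 (nat_lit 107) (nat_lit 4) (nat_lit 12))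
    (@En.n l396 (nat_lit 153) (nat_lit 4) (nat_lit 12))
    (@En.n l798 (nat_lit 796) (nat_lit 11) (nat_lit 12))
    (@En.i (nat_lit 136) (nat_lit 11) (nat_lit 3))
    (@En.i (nat_lit 260) (nat_lit 12) (nat_lit 6))
    (@En.n l5723 (nat_lit 104) (nat_lit 14) (nat_lit 3))
    (@En.n l798 (nat_lit 113) (nat_lit 0) (nat_lit 13))
    (@En.n l107 (nat_lit 150) (nat_lit 15) (nat_lit 2))))
  (@Cl.mk (nat_lit 0x200050005000a000d000d000c0003000300060004000c000b000b000e0004) (nat_lit 0x8023000081200) (nat_lit 16) Lb.e (@T16.mk En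
    (@En.n l2699 (nat_lit 104) (nat_lit 7) (nat_lit 4))
    (@En.n l1063 (nat_lit 161) (nat_lit 4) (nat_lit 14))
    (@En.n l1064 (nat_lit 161) (nat_lit 5) (nat_lit 11))
    (@En.i (nat_lit 87) (nat_lit 3) (nat_lit 11))
    (@En.n l2700 (nat_lit 577) (nat_lit 12) (nat_lit 12))
    (@En.i (nat_lit 143) (nat_lit 5) (nat_lit 4))
    (@En.n l2701 (nat_lit 153) (nat_lit 6) (nat_lit 6))
    (@En.n l2702 (nat_lit 153) (nat_lit 7) (nat_lit 3))
    (@En.n l1060 (nat_lit 160) (nat_lit 8) (nat_lit 3))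
    (@En.n l2703 (nat_lit 145) (nat_lit 10) (nat_lit 12))
    (@En.n l2704 (nat_lit 160) (nat_lit 11) (nat_lit 13))
    (@En.n l226 (nat_lit 180) (nat_lit 12) (nat_lit 13))
    (@En.n l2705 (nat_lit 766) (nat_lit 13) (nat_lit 10))
    (@En.n l699 (nat_lit 157) (nat_lit 14) (nat_lit 5))
    (@En.n l17 (nat_lit 155) (nat_lit 13) (nat_lit 5))
    (@En.n l18 (nat_lit 151) (nat_lit 15) (nat_lit 2))))
  (@Cl.mk (nat_lit 0x2000a000e000d0002000d000300060003000d000b000e00030002000e0005) (nat_lit 0x8a0040008100020) (nat_lit 16) Lb.e (@T16.mk En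
    (@En.n l997 (nat_lit 153) (nat_lit 14) (nat_lit 5))
    (@En.n l998 (nat_lit 107) (nat_lit 1) (nat_lit 14))
    (@En.n l50 (nat_lit 152) (nat_lit 2) (nat_lit 2))
    (@En.n l7 (nat_lit 164) (nat_lit 3) (nat_lit 3))
    (@En.n l2565 (nat_lit 14108) (nat_lit 4) (nat_lit 14))
    (@En.n l2026 (nat_lit 93) (nat_lit 10) (nat_lit 11))
    (@En.n l2566 (nat_lit 896) (nat_lit 11) (nat_lit 13))
    (@En.i (nat_lit 137) (nat_lit 7) (nat_lit 3))
    (@En.n l998 (nat_lit 278) (nat_lit 12) (nat_lit 6))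
    (@En.n l117 (nat_lit 161) (nat_lit 9) (nat_lit 3))
    (@En.n l2567 (nat_lit 116) (nat_lit 0) (nat_lit 13))
    (@En.n l3 (nat_lit 152) (nat_lit 11) (nat_lit 2))
    (@En.i (nat_lit 161) (nat_lit 13) (nat_lit 13))
    (@En.i (nat_lit 176) (nat_lit 1) (nat_lit 14))
    (@En.n l2568 (nat_lit 560) (nat_lit 12) (nat_lit 10))
    (@En.n l17 (nat_lit 152) (nat_lit 15) (nat_lit 2))))
  (@Cl.mk (nat_lit 0x200050005000a000e000d0002000d000300060003000c000b000b000e0004) (nat_lit 0x8a10200081210) (nat_lit 16) Lb.e (@T16.mk En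
    (@En.n l50 (nat_lit 150) (nat_lit 6) (nat_lit 4))
    (@En.n l1643 (nat_lit 152) (nat_lit 4) (nat_lit 14))
    (@En.n l2165 (nat_lit 152) (nat_lit 5) (nat_lit 11))
    (@En.n l1290 (nat_lit 92) (nat_lit 3) (nat_lit 11))
    (@En.n l3348 (nat_lit 803) (nat_lit 11) (nat_lit 12))
    (@En.i (nat_lit 145) (nat_lit 5) (nat_lit 3))
    (@En.i (nat_lit 277) (nat_lit 12) (nat_lit 6))
    (@En.n l882 (nat_lit 151) (nat_lit 7) (nat_lit 3))
    (@En.n l947 (nat_lit 118) (nat_lit 0) (nat_lit 13))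
    (@En.n l107 (nat_lit 153) (nat_lit 9) (nat_lit 2))
    (@En.n l1290 (nat_lit 151) (nat_lit 11) (nat_lit 13))
    (@En.n l619 (nat_lit 200) (nat_lit 12) (nat_lit 14))
    (@En.i (nat_lit 768) (nat_lit 13) (nat_lit 10))
    (@En.n l1295 (nat_lit 154) (nat_lit 14) (nat_lit 5))
    (@En.n l2101 (nat_lit 156) (nat_lit 13) (nat_lit 5))
    (@En.n l18 (nat_lit 153) (nat_lit 15) (nat_lit 2))))
  (@Cl.mk (nat_lit 0x20005000a000e000d0002000d000300060003000b000e000b0002000e0005) (nat_lit 0x9003000802020) (nat_lit 16) Lb.e (@T16.mk En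
    (@En.i (nat_lit 156) (nat_lit 14) (nat_lit 5))
    (@En.n l1012 (nat_lit 153) (nat_lit 1) (nat_lit 14))
    (@En.n l7 (nat_lit 154) (nat_lit 2) (nat_lit 2))
    (@En.n l1013 (nat_lit 153) (nat_lit 3) (nat_lit 11))
    (@En.i (nat_lit 266) (nat_lit 4) (nat_lit 14))
    (@En.n l2031 (nat_lit 582) (nat_lit 11) (nat_lit 11))
    (@En.i (nat_lit 220) (nat_lit 6) (nat_lit 3))
    (@En.i (nat_lit 276) (nat_lit 12) (nat_lit 6))
    (@En.n l117 (nat_lit 157) (nat_lit 8) (nat_lit 3))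
    (@En.i (nat_lit 221) (nat_lit 0) (nat_lit 13))
    (@En.n l3 (nat_lit 154) (nat_lit 10) (nat_lit 2))
    (@En.i (nat_lit 157) (nat_lit 12) (nat_lit 13))
    (@En.i (nat_lit 199) (nat_lit 13) (nat_lit 14))
    (@En.i (nat_lit 743) (nat_lit 14) (nat_lit 10))
    (@En.n l2035 (nat_lit 82) (nat_lit 13) (nat_lit 5))
    (@En.n l17 (nat_lit 154) (nat_lit 15) (nat_lit 2))))
  (@Cl.mk (nat_lit 0x2000500050004000a000d000d000c0003000300060004000b000b000e000c) (nat_lit 0x200008903) (nat_lit 16) Lb.e (@T16.mk En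
    (@En.n l648 (nat_lit 104) (nat_lit 9) (nat_lit 12))
    (@En.n l18 (nat_lit 157) (nat_lit 4) (nat_lit 14))
    (@En.n l61 (nat_lit 157) (nat_lit 5) (nat_lit 11))
    (@En.n l649 (nat_lit 797) (nat_lit 3) (nat_lit 11))
    (@En.i (nat_lit 149) (nat_lit 4) (nat_lit 4))
    (@En.n l476 (nat_lit 156) (nat_lit 5) (nat_lit 6))
    (@En.n l152 (nat_lit 156) (nat_lit 6) (nat_lit 3))
    (@En.n l650 (nat_lit 159) (nat_lit 7) (nat_lit 3))
    (@En.n l619 (nat_lit 205) (nat_lit 9) (nat_lit 12))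
    (@En.n l651 (nat_lit 159) (nat_lit 10) (nat_lit 13))
    (@En.n l652 (nat_lit 182) (nat_lit 11) (nat_lit 13))
    (@En.i (nat_lit 741) (nat_lit 12) (nat_lit 10))
    (@En.n l653 (nat_lit 10) (nat_lit 4) (nat_lit 4))
    (@En.n l654 (nat_lit 162) (nat_lit 14) (nat_lit 5))
    (@En.n l655 (nat_lit 84) (nat_lit 13) (nat_lit 5))
    (@En.n l7 (nat_lit 155) (nat_lit 15) (nat_lit 2))))
  (@Cl.mk (nat_lit 0x2000500050004000a000e000d0002000d000300060003000b000b000e000c) (nat_lit 0x91040008913) (nat_lit 16) Lb.e (@T16.mk En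
    (@En.n l900 (nat_lit 150) (nat_lit 8) (nat_lit 12))
    (@En.n l18 (nat_lit 154) (nat_lit 4) (nat_lit 14))
    (@En.n l61 (nat_lit 154) (nat_lit 5) (nat_lit 11))
    (@En.n l2030 (nat_lit 802) (nat_lit 3) (nat_lit 11))
    (@En.i (nat_lit 205) (nat_lit 4) (nat_lit 3))
    (@En.n l2099 (nat_lit 261) (nat_lit 12) (nat_lit 6))
    (@En.n l117 (nat_lit 155) (nat_lit 6) (nat_lit 3))
    (@En.n l2030 (nat_lit 190) (nat_lit 0) (nat_lit 13))
    (@En.n l3 (nat_lit 156) (nat_lit 8) (nat_lit 2))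
    (@En.i (nat_lit 155) (nat_lit 10) (nat_lit 13))
    (@En.n l284 (nat_lit 196) (nat_lit 11) (nat_lit 14))
    (@En.n l2100 (nat_lit 746) (nat_lit 12) (nat_lit 10))
    (@En.n l2030 (nat_lit 80) (nat_lit 3) (nat_lit 4))
    (@En.n l905 (nat_lit 163) (nat_lit 14) (nat_lit 5))
    (@En.n l900 (nat_lit 93) (nat_lit 5) (nat_lit 5))
    (@En.n l7 (nat_lit 156) (nat_lit 15) (nat_lit 2))))
  (@Cl.mk (nat_lit 0x20005000a000d000d000c0003000300060004000b000e000b0002000e0005) (nat_lit 0xb0000008c2010) (nat_lit 16) Lb.e (@T16.mk En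
    (@En.i (nat_lit 155) (nat_lit 14) (nat_lit 5))
    (@En.n l5 (nat_lit 151) (nat_lit 1) (nat_lit 14))
    (@En.n l7 (nat_lit 157) (nat_lit 2) (nat_lit 2))
    (@En.n l890 (nat_lit 151) (nat_lit 3) (nat_lit 11))
    (@En.i (nat_lit 251) (nat_lit 4) (nat_lit 14))
    (@En.n l649 (nat_lit 580) (nat_lit 2) (nat_lit 11))
    (@En.i (nat_lit 204) (nat_lit 6) (nat_lit 4))
    (@En.n l476 (nat_lit 154) (nat_lit 7) (nat_lit 6))
    (@En.n l152 (nat_lit 154) (nat_lit 8) (nat_lit 3))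
    (@En.n l1865 (nat_lit 158) (nat_lit 9) (nat_lit 3))
    (@En.n l619 (nat_lit 220) (nat_lit 11) (nat_lit 12))
    (@En.n l1867 (nat_lit 158) (nat_lit 12) (nat_lit 13))
    (@En.n l226 (nat_lit 181) (nat_lit 5) (nat_lit 13))
    (@En.i (nat_lit 744) (nat_lit 14) (nat_lit 10))
    (@En.n l889 (nat_lit 81) (nat_lit 13) (nat_lit 5))
    (@En.n l17 (nat_lit 157) (nat_lit 15) (nat_lit 2))))
  (@Cl.mk (nat_lit 0x20005000a000d000b000e0003000200060005000b000e000b0002000e0005) (nat_lit 0xb200000802000) (nat_lit 16) Lb.e (@T16.mk En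
    (@En.n l5927 (nat_lit 159) (nat_lit 14) (nat_lit 5))
    (@En.n l2037 (nat_lit 160) (nat_lit 1) (nat_lit 14))
    (@En.n l107 (nat_lit 158) (nat_lit 2) (nat_lit 2))
    (@En.n l3596 (nat_lit 160) (nat_lit 3) (nat_lit 11))
    (@En.n l2579 (nat_lit 267) (nat_lit 4) (nat_lit 14))
    (@En.i (nat_lit 581) (nat_lit 13) (nat_lit 11))
    (@En.n l897 (nat_lit 181) (nat_lit 14) (nat_lit 5))
    (@En.n l3337 (nat_lit 157) (nat_lit 7) (nat_lit 6))
    (@En.n l17 (nat_lit 158) (nat_lit 8) (nat_lit 2))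
    (@En.n l2869 (nat_lit 157) (nat_lit 9) (nat_lit 3))
    (@En.n l2034 (nat_lit 276) (nat_lit 0) (nat_lit 14))
    (@En.n l2579 (nat_lit 203) (nat_lit 2) (nat_lit 11))
    (@En.n l1643 (nat_lit 185) (nat_lit 13) (nat_lit 13))
    (@En.n l2031 (nat_lit 742) (nat_lit 4) (nat_lit 10))
    (@En.n l1998 (nat_lit 29) (nat_lit 5) (nat_lit 5))
    (@En.n l7 (nat_lit 158) (nat_lit 15) (nat_lit 2))))
  (@Cl.mk (nat_lit 0x2000500050004000a000d000b000e0003000200060005000b000b000e000c) (nat_lit 0xb1b00008913) (nat_lit 16) Lb.e (@T16.mk En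
    (@En.n l2103 (nat_lit 102) (nat_lit 10) (nat_lit 12))
    (@En.n l2104 (nat_lit 158) (nat_lit 4) (nat_lit 14))
    (@En.n l2105 (nat_lit 158) (nat_lit 5) (nat_lit 11))
    (@En.n l2106 (nat_lit 801) (nat_lit 3) (nat_lit 11))
    (@En.n l77 (nat_lit 182) (nat_lit 4) (nat_lit 5))
    (@En.n l2107 (nat_lit 155) (nat_lit 5) (nat_lit 6))
    (@En.n l18 (nat_lit 159) (nat_lit 6) (nat_lit 2))
    (@En.n l2108 (nat_lit 155) (nat_lit 7) (nat_lit 3))
    (@En.n l2109 (nat_lit 261) (nat_lit 0) (nat_lit 14))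
    (@En.n l2110 (nat_lit 3) (nat_lit 2) (nat_lit 11))
    (@En.n l890 (nat_lit 184) (nat_lit 11) (nat_lit 13))
    (@En.n l2111 (nat_lit 745) (nat_lit 12) (nat_lit 10))
    (@En.i (nat_lit 81) (nat_lit 5) (nat_lit 4))
    (@En.n l2112 (nat_lit 192) (nat_lit 14) (nat_lit 5))
    (@En.n l2113 (nat_lit 83) (nat_lit 7) (nat_lit 5))
    (@En.n l67 (nat_lit 159) (nat_lit 15) (nat_lit 2))))
noncomputable def a10 : T16 Cl := @T16.mk Cl
  (@Cl.mk (nat_lit 0x200050005000a000d000b000e0003000200060005000c000b000b000e0004) (nat_lit 0x810b0000812c0) (nat_lit 16) Lb.e (@T16.mk En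
    (@En.n l7718 (nat_lit 102) (nat_lit 8) (nat_lit 4))
    (@En.n l4790 (nat_lit 178) (nat_lit 10) (nat_lit 14))
    (@En.n l7719 (nat_lit 178) (nat_lit 11) (nat_lit 11))
    (@En.n l7386 (nat_lit 85) (nat_lit 3) (nat_lit 11))
    (@En.i (nat_lit 583) (nat_lit 13) (nat_lit 12))
    (@En.n l7720 (nat_lit 180) (nat_lit 5) (nat_lit 5))
    (@En.n l7721 (nat_lit 151) (nat_lit 6) (nat_lit 6))
    (@En.n l18 (nat_lit 160) (nat_lit 7) (nat_lit 2))
    (@En.n l7722 (nat_lit 151) (nat_lit 8) (nat_lit 3))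
    (@En.n l3082 (nat_lit 277) (nat_lit 0) (nat_lit 14))
    (@En.n l3439 (nat_lit 202) (nat_lit 2) (nat_lit 11))
    (@En.n l7723 (nat_lit 121) (nat_lit 12) (nat_lit 13))
    (@En.i (nat_lit 767) (nat_lit 13) (nat_lit 10))
    (@En.n l637 (nat_lit 158) (nat_lit 14) (nat_lit 5))
    (@En.n l7724 (nat_lit 159) (nat_lit 13) (nat_lit 5))
    (@En.n l28 (nat_lit 160) (nat_lit 15) (nat_lit 2))))
  (@Cl.mk (nat_lit 0x2000a000d000d000c0003000300060004000d000b000e00030002000e0005) (nat_lit 0x8b21000081c0020) (nat_lit 16) Lb.e (@T16.mk En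
    (@En.n l300 (nat_lit 151) (nat_lit 14) (nat_lit 5))
    (@En.n l5 (nat_lit 100) (nat_lit 1) (nat_lit 14))
    (@En.n l50 (nat_lit 161) (nat_lit 2) (nat_lit 2))
    (@En.n l7 (nat_lit 135) (nat_lit 3) (nat_lit 3))
    (@En.n l828 (nat_lit 14093) (nat_lit 4) (nat_lit 14))
    (@En.n l829 (nat_lit 84) (nat_lit 2) (nat_lit 11))
    (@En.n l226 (nat_lit 894) (nat_lit 7) (nat_lit 13))
    (@En.i (nat_lit 141) (nat_lit 7) (nat_lit 4))
    (@En.n l476 (nat_lit 152) (nat_lit 8) (nat_lit 6))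
    (@En.n l152 (nat_lit 152) (nat_lit 9) (nat_lit 3))
    (@En.n l830 (nat_lit 178) (nat_lit 0) (nat_lit 3))
    (@En.n l619 (nat_lit 137) (nat_lit 12) (nat_lit 12))
    (@En.n l831 (nat_lit 178) (nat_lit 3) (nat_lit 13))
    (@En.n l832 (nat_lit 179) (nat_lit 5) (nat_lit 13))
    (@En.i (nat_lit 561) (nat_lit 12) (nat_lit 10))
    (@En.n l17 (nat_lit 161) (nat_lit 15) (nat_lit 2))))
  (@Cl.mk (nat_lit 0x200050003000a000d000d000c0003000300060004000e000b0002000e000d) (nat_lit 0xa00000c9012) (nat_lit 16) Lb.e (@T16.mk En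
    (@En.n l61 (nat_lit 134) (nat_lit 14) (nat_lit 13))
    (@En.n l62 (nat_lit 155) (nat_lit 1) (nat_lit 14))
    (@En.n l7 (nat_lit 162) (nat_lit 2) (nat_lit 2))
    (@En.n l63 (nat_lit 155) (nat_lit 3) (nat_lit 11))
    (@En.n l220 (nat_lit 634) (nat_lit 5) (nat_lit 14))
    (@En.i (nat_lit 195) (nat_lit 5) (nat_lit 4))
    (@En.n l221 (nat_lit 163) (nat_lit 6) (nat_lit 6))
    (@En.n l222 (nat_lit 163) (nat_lit 7) (nat_lit 3))
    (@En.n l223 (nat_lit 192) (nat_lit 8) (nat_lit 3))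
    (@En.n l224 (nat_lit 206) (nat_lit 10) (nat_lit 12))
    (@En.n l225 (nat_lit 192) (nat_lit 11) (nat_lit 13))
    (@En.n l226 (nat_lit 183) (nat_lit 12) (nat_lit 13))
    (@En.n l18 (nat_lit 747) (nat_lit 13) (nat_lit 10))
    (@En.n l72 (nat_lit 134) (nat_lit 10) (nat_lit 3))
    (@En.n l73 (nat_lit 161) (nat_lit 0) (nat_lit 5))
    (@En.n l17 (nat_lit 162) (nat_lit 15) (nat_lit 2))))
  (@Cl.mk (nat_lit 0x200050003000a000e000d0002000d000300060003000e000b0002000e000d) (nat_lit 0x100000b9022) (nat_lit 16) Lb.e (@T16.mk En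
    (@En.n l269 (nat_lit 165) (nat_lit 7) (nat_lit 13))
    (@En.n l270 (nat_lit 156) (nat_lit 1) (nat_lit 14))
    (@En.n l50 (nat_lit 163) (nat_lit 2) (nat_lit 2))
    (@En.n l271 (nat_lit 156) (nat_lit 3) (nat_lit 11))
    (@En.n l767 (nat_lit 632) (nat_lit 5) (nat_lit 14))
    (@En.i (nat_lit 206) (nat_lit 5) (nat_lit 3))
    (@En.i (nat_lit 280) (nat_lit 12) (nat_lit 6))
    (@En.n l56 (nat_lit 162) (nat_lit 7) (nat_lit 3))
    (@En.n l52 (nat_lit 191) (nat_lit 0) (nat_lit 13))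
    (@En.n l107 (nat_lit 163) (nat_lit 9) (nat_lit 2))
    (@En.n l276 (nat_lit 162) (nat_lit 11) (nat_lit 13))
    (@En.n l619 (nat_lit 194) (nat_lit 12) (nat_lit 14))
    (@En.i (nat_lit 749) (nat_lit 13) (nat_lit 10))
    (@En.n l279 (nat_lit 165) (nat_lit 3) (nat_lit 3))
    (@En.n l280 (nat_lit 152) (nat_lit 0) (nat_lit 5))
    (@En.n l17 (nat_lit 163) (nat_lit 15) (nat_lit 2))))
  (@Cl.mk (nat_lit 0x2000a000e000d0002000d000300060003000d000d000c00030003000e0004) (nat_lit 0x8920300099a0040) (nat_lit 16) Lb.e (@T16.mk En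
    (@En.n l997 (nat_lit 150) (nat_lit 4) (nat_lit 4))
    (@En.n l998 (nat_lit 91) (nat_lit 1) (nat_lit 14))
    (@En.n l50 (nat_lit 166) (nat_lit 2) (nat_lit 3))
    (@En.i (nat_lit 152) (nat_lit 3) (nat_lit 3))
    (@En.n l217 (nat_lit 165) (nat_lit 9) (nat_lit 12))
    (@En.n l601 (nat_lit 152) (nat_lit 6) (nat_lit 13))
    (@En.n l2031 (nat_lit 790) (nat_lit 11) (nat_lit 13))
    (@En.i (nat_lit 138) (nat_lit 7) (nat_lit 3))
    (@En.n l998 (nat_lit 279) (nat_lit 12) (nat_lit 6))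
    (@En.n l117 (nat_lit 135) (nat_lit 9) (nat_lit 3))
    (@En.i (nat_lit 115) (nat_lit 0) (nat_lit 13))
    (@En.n l3 (nat_lit 164) (nat_lit 11) (nat_lit 2))
    (@En.i (nat_lit 135) (nat_lit 13) (nat_lit 13))
    (@En.i (nat_lit 172) (nat_lit 1) (nat_lit 14))
    (@En.n l2568 (nat_lit 563) (nat_lit 2) (nat_lit 10))
    (@En.n l17 (nat_lit 164) (nat_lit 15) (nat_lit 2))))
  (@Cl.mk (nat_lit 0x2000d000300060003000e000c0002000d000d000400030003000a000e000d) (nat_lit 0x2000c901200001a) (nat_lit 16) Lb.e (@T16.mk En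
    (@En.i (nat_lit 134) (nat_lit 8) (nat_lit 13))
    (@En.i (nat_lit 2) (nat_lit 1) (nat_lit 14))
    (@En.n l675 (nat_lit 584) (nat_lit 2) (nat_lit 10))
    (@En.n l674 (nat_lit 163) (nat_lit 13) (nat_lit 3))
    (@En.n l18 (nat_lit 166) (nat_lit 0) (nat_lit 3))
    (@En.n l675 (nat_lit 107) (nat_lit 0) (nat_lit 4))
    (@En.n l61 (nat_lit 166) (nat_lit 3) (nat_lit 13))
    (@En.n l1999 (nat_lit 80) (nat_lit 8) (nat_lit 13))
    (@En.n l7 (nat_lit 165) (nat_lit 8) (nat_lit 2))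
    (@En.n l677 (nat_lit 150) (nat_lit 10) (nat_lit 12))
    (@En.n l2000 (nat_lit 636) (nat_lit 1) (nat_lit 14))
    (@En.i (nat_lit 169) (nat_lit 11) (nat_lit 3))
    (@En.n l675 (nat_lit 281) (nat_lit 12) (nat_lit 6))
    (@En.n l117 (nat_lit 134) (nat_lit 4) (nat_lit 3))
    (@En.n l2000 (nat_lit 170) (nat_lit 0) (nat_lit 13))
    (@En.n l3 (nat_lit 165) (nat_lit 15) (nat_lit 2))))
  (@Cl.mk (nat_lit 0x2000a000e000d0002000d000300060003000e000d0002000d0003000e0003) (nat_lit 0xab02000aa01030) (nat_lit 16) Lb.e (@T16.mk En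
    (@En.i (nat_lit 165) (nat_lit 4) (nat_lit 3))
    (@En.i (nat_lit 266) (nat_lit 0) (nat_lit 14))
    (@En.i (nat_lit 164) (nat_lit 2) (nat_lit 3))
    (@En.n l1998 (nat_lit 28) (nat_lit 0) (nat_lit 13))
    (@En.n l7 (nat_lit 166) (nat_lit 4) (nat_lit 2))
    (@En.n l601 (nat_lit 164) (nat_lit 6) (nat_lit 13))
    (@En.n l2031 (nat_lit 780) (nat_lit 1) (nat_lit 14))
    (@En.i (nat_lit 167) (nat_lit 7) (nat_lit 3))
    (@En.n l2568 (nat_lit 282) (nat_lit 12) (nat_lit 6))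
    (@En.n l117 (nat_lit 132) (nat_lit 9) (nat_lit 3))
    (@En.i (nat_lit 168) (nat_lit 0) (nat_lit 13))
    (@En.n l3 (nat_lit 166) (nat_lit 11) (nat_lit 2))
    (@En.i (nat_lit 132) (nat_lit 13) (nat_lit 13))
    (@En.i (nat_lit 173) (nat_lit 9) (nat_lit 14))
    (@En.n l2568 (nat_lit 566) (nat_lit 2) (nat_lit 10))
    (@En.n l17 (nat_lit 166) (nat_lit 15) (nat_lit 2))))
  (@Cl.mk (nat_lit 0x2000b000e000c0002000d000500040003000e000d0002000d0003000e0003) (nat_lit 0x9a03000a902040) (nat_lit 16) Lb.e (@T16.mk En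
    (@En.i (nat_lit 169) (nat_lit 4) (nat_lit 3))
    (@En.i (nat_lit 233) (nat_lit 0) (nat_lit 14))
    (@En.i (nat_lit 138) (nat_lit 2) (nat_lit 3))
    (@En.n l678 (nat_lit 93) (nat_lit 0) (nat_lit 13))
    (@En.n l7 (nat_lit 167) (nat_lit 4) (nat_lit 2))
    (@En.n l601 (nat_lit 138) (nat_lit 6) (nat_lit 13))
    (@En.n l678 (nat_lit 3580) (nat_lit 1) (nat_lit 14))
    (@En.n l11 (nat_lit 166) (nat_lit 7) (nat_lit 3))
    (@En.n l1016 (nat_lit 174) (nat_lit 3) (nat_lit 4))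
    (@En.n l524 (nat_lit 168) (nat_lit 14) (nat_lit 5))
    (@En.n l678 (nat_lit 123) (nat_lit 11) (nat_lit 13))
    (@En.n l3 (nat_lit 167) (nat_lit 11) (nat_lit 2))
    (@En.i (nat_lit 171) (nat_lit 13) (nat_lit 12))
    (@En.n l283 (nat_lit 208) (nat_lit 4) (nat_lit 14))
    (@En.n l1001 (nat_lit 2187) (nat_lit 2) (nat_lit 11))
    (@En.n l17 (nat_lit 167) (nat_lit 15) (nat_lit 2))))
  (@Cl.mk (nat_lit 0x2000500030006000e000d0002000d0003000e00030002000b000a000e000d) (nat_lit 0xaa02030001a1) (nat_lit 16) Lb.e (@T16.mk En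
    (@En.n l6148 (nat_lit 123) (nat_lit 12) (nat_lit 13))
    (@En.n l619 (nat_lit 167) (nat_lit 13) (nat_lit 14))
    (@En.n l625 (nat_lit 166) (nat_lit 14) (nat_lit 10))
    (@En.n l2568 (nat_lit 2182) (nat_lit 3) (nat_lit 11))
    (@En.n l17 (nat_lit 168) (nat_lit 4) (nat_lit 2))
    (@En.n l2000 (nat_lit 170) (nat_lit 5) (nat_lit 3))
    (@En.i (nat_lit 264) (nat_lit 0) (nat_lit 14))
    (@En.i (nat_lit 115) (nat_lit 7) (nat_lit 3))
    (@En.n l1998 (nat_lit 92) (nat_lit 9) (nat_lit 13))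
    (@En.n l7 (nat_lit 168) (nat_lit 9) (nat_lit 2))
    (@En.n l601 (nat_lit 115) (nat_lit 11) (nat_lit 13))
    (@En.n l5545 (nat_lit 3568) (nat_lit 12) (nat_lit 14))
    (@En.n l2031 (nat_lit 237) (nat_lit 12) (nat_lit 6))
    (@En.n l678 (nat_lit 123) (nat_lit 8) (nat_lit 3))
    (@En.n l1998 (nat_lit 210) (nat_lit 0) (nat_lit 5))
    (@En.n l107 (nat_lit 168) (nat_lit 15) (nat_lit 2))))
  (@Cl.mk (nat_lit 0x2000d000500040003000e000c0002000d000d000400030003000b000e000c) (nat_lit 0x2000c902300000a) (nat_lit 16) Lb.e (@T16.mk En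
    (@En.i (nat_lit 175) (nat_lit 8) (nat_lit 12))
    (@En.n l283 (nat_lit 194) (nat_lit 4) (nat_lit 14))
    (@En.n l673 (nat_lit 2186) (nat_lit 2) (nat_lit 11))
    (@En.n l674 (nat_lit 206) (nat_lit 13) (nat_lit 3))
    (@En.n l18 (nat_lit 167) (nat_lit 0) (nat_lit 3))
    (@En.n l675 (nat_lit 106) (nat_lit 0) (nat_lit 4))
    (@En.n l61 (nat_lit 167) (nat_lit 3) (nat_lit 13))
    (@En.n l676 (nat_lit 84) (nat_lit 8) (nat_lit 13))
    (@En.n l7 (nat_lit 169) (nat_lit 8) (nat_lit 2))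
    (@En.n l677 (nat_lit 136) (nat_lit 10) (nat_lit 12))
    (@En.n l678 (nat_lit 3523) (nat_lit 1) (nat_lit 14))
    (@En.n l11 (nat_lit 165) (nat_lit 11) (nat_lit 3))
    (@En.n l679 (nat_lit 172) (nat_lit 3) (nat_lit 4))
    (@En.n l680 (nat_lit 170) (nat_lit 14) (nat_lit 5))
    (@En.n l678 (nat_lit 126) (nat_lit 6) (nat_lit 13))
    (@En.n l3 (nat_lit 169) (nat_lit 15) (nat_lit 2))))
  (@Cl.mk (nat_lit 0x2000500030006000e000c0002000d000d000400030003000b000a000e000d) (nat_lit 0xc90230000111) (nat_lit 16) Lb.e (@T16.mk En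
    (@En.n l622 (nat_lit 126) (nat_lit 7) (nat_lit 13))
    (@En.n l2203 (nat_lit 169) (nat_lit 1) (nat_lit 14))
    (@En.n l2204 (nat_lit 165) (nat_lit 2) (nat_lit 10))
    (@En.n l248 (nat_lit 2183) (nat_lit 3) (nat_lit 11))
    (@En.i (nat_lit 191) (nat_lit 4) (nat_lit 3))
    (@En.n l2205 (nat_lit 168) (nat_lit 5) (nat_lit 3))
    (@En.n l248 (nat_lit 105) (nat_lit 6) (nat_lit 4))
    (@En.n l2206 (nat_lit 168) (nat_lit 8) (nat_lit 13))
    (@En.n l253 (nat_lit 87) (nat_lit 9) (nat_lit 13))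
    (@En.n l3 (nat_lit 170) (nat_lit 9) (nat_lit 2))
    (@En.n l187 (nat_lit 113) (nat_lit 11) (nat_lit 12))
    (@En.n l535 (nat_lit 3514) (nat_lit 12) (nat_lit 14))
    (@En.n l889 (nat_lit 239) (nat_lit 12) (nat_lit 6))
    (@En.n l992 (nat_lit 126) (nat_lit 3) (nat_lit 3))
    (@En.i (nat_lit 199) (nat_lit 0) (nat_lit 5))
    (@En.n l18 (nat_lit 170) (nat_lit 15) (nat_lit 2))))
  (@Cl.mk (nat_lit 0x2000c000c000c000c0004000400040004000e000d0002000d0003000e0003) (nat_lit 0x892000009b03030) (nat_lit 16) Lb.e (@T16.mk En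
    (@En.i (nat_lit 175) (nat_lit 11) (nat_lit 3))
    (@En.i (nat_lit 230) (nat_lit 0) (nat_lit 14))
    (@En.i (nat_lit 139) (nat_lit 2) (nat_lit 3))
    (@En.n l227 (nat_lit 150) (nat_lit 0) (nat_lit 13))
    (@En.n l7 (nat_lit 171) (nat_lit 4) (nat_lit 2))
    (@En.n l601 (nat_lit 139) (nat_lit 6) (nat_lit 13))
    (@En.n l227 (nat_lit 3544) (nat_lit 1) (nat_lit 14))
    (@En.n l11 (nat_lit 209) (nat_lit 12) (nat_lit 4))
    (@En.n l152 (nat_lit 167) (nat_lit 8) (nat_lit 4))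
    (@En.n l839 (nat_lit 173) (nat_lit 4) (nat_lit 4))
    (@En.n l227 (nat_lit 123) (nat_lit 10) (nat_lit 4))
    (@En.n l1947 (nat_lit 174) (nat_lit 7) (nat_lit 12))
    (@En.n l230 (nat_lit 127) (nat_lit 4) (nat_lit 12))
    (@En.n l603 (nat_lit 211) (nat_lit 4) (nat_lit 12))
    (@En.i (nat_lit 2222) (nat_lit 10) (nat_lit 12))
    (@En.n l17 (nat_lit 171) (nat_lit 15) (nat_lit 2))))
  (@Cl.mk (nat_lit 0x2000d000d000400030003000d000d000c00030003000e00040002000e000c) (nat_lit 0x34000ab1005008a) (nat_lit 16) Lb.e (@T16.mk En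
    (@En.n l187 (nat_lit 139) (nat_lit 14) (nat_lit 12))
    (@En.i (nat_lit 3547) (nat_lit 1) (nat_lit 14))
    (@En.n l17 (nat_lit 172) (nat_lit 2) (nat_lit 2))
    (@En.n l373 (nat_lit 175) (nat_lit 3) (nat_lit 4))
    (@En.n l245 (nat_lit 124) (nat_lit 1) (nat_lit 14))
    (@En.n l50 (nat_lit 173) (nat_lit 13) (nat_lit 3))
    (@En.i (nat_lit 176) (nat_lit 6) (nat_lit 3))
    (@En.n l885 (nat_lit 2) (nat_lit 0) (nat_lit 12))
    (@En.n l601 (nat_lit 176) (nat_lit 9) (nat_lit 13))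
    (@En.n l248 (nat_lit 2384) (nat_lit 10) (nat_lit 13))
    (@En.i (nat_lit 207) (nat_lit 13) (nat_lit 3))
    (@En.n l250 (nat_lit 174) (nat_lit 11) (nat_lit 3))
    (@En.n l248 (nat_lit 130) (nat_lit 0) (nat_lit 4))
    (@En.n l252 (nat_lit 174) (nat_lit 14) (nat_lit 13))
    (@En.n l253 (nat_lit 135) (nat_lit 12) (nat_lit 13))
    (@En.n l3 (nat_lit 172) (nat_lit 15) (nat_lit 2))))
  (@Cl.mk (nat_lit 0x2000d0003000e00030002000e000c0002000d000d000400030003000e000d) (nat_lit 0xb0400990310009b) (nat_lit 16) Lb.e (@T16.mk En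
    (@En.n l601 (nat_lit 172) (nat_lit 9) (nat_lit 13))
    (@En.n l248 (nat_lit 3551) (nat_lit 1) (nat_lit 14))
    (@En.n l283 (nat_lit 208) (nat_lit 13) (nat_lit 3))
    (@En.n l609 (nat_lit 8) (nat_lit 3) (nat_lit 3))
    (@En.n l248 (nat_lit 127) (nat_lit 0) (nat_lit 4))
    (@En.n l610 (nat_lit 8) (nat_lit 6) (nat_lit 13))
    (@En.n l253 (nat_lit 132) (nat_lit 12) (nat_lit 13))
    (@En.n l3 (nat_lit 173) (nat_lit 7) (nat_lit 2))
    (@En.n l187 (nat_lit 171) (nat_lit 14) (nat_lit 12))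
    (@En.i (nat_lit 3550) (nat_lit 1) (nat_lit 14))
    (@En.n l17 (nat_lit 173) (nat_lit 10) (nat_lit 2))
    (@En.i (nat_lit 2) (nat_lit 3) (nat_lit 3))
    (@En.i (nat_lit 235) (nat_lit 0) (nat_lit 14))
    (@En.i (nat_lit 172) (nat_lit 5) (nat_lit 3))
    (@En.n l611 (nat_lit 165) (nat_lit 0) (nat_lit 13))
    (@En.n l7 (nat_lit 173) (nat_lit 15) (nat_lit 2))))
  (@Cl.mk (nat_lit 0x2000d0003000e00030002000d000d000c00030003000e00040002000e000d) (nat_lit 0x30300bba0010091) (nat_lit 16) Lb.e (@T16.mk En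
    (@En.n l2591 (nat_lit 18) (nat_lit 6) (nat_lit 13))
    (@En.i (nat_lit 3543) (nat_lit 1) (nat_lit 14))
    (@En.n l17 (nat_lit 174) (nat_lit 2) (nat_lit 2))
    (@En.n l2592 (nat_lit 171) (nat_lit 8) (nat_lit 4))
    (@En.i (nat_lit 125) (nat_lit 1) (nat_lit 14))
    (@En.n l2593 (nat_lit 8) (nat_lit 5) (nat_lit 3))
    (@En.i (nat_lit 177) (nat_lit 6) (nat_lit 3))
    (@En.n l2594 (nat_lit 173) (nat_lit 8) (nat_lit 12))
    (@En.n l1363 (nat_lit 177) (nat_lit 9) (nat_lit 13))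
    (@En.n l779 (nat_lit 2385) (nat_lit 10) (nat_lit 13))
    (@En.n l28 (nat_lit 174) (nat_lit 10) (nat_lit 2))
    (@En.n l780 (nat_lit 172) (nat_lit 11) (nat_lit 3))
    (@En.n l778 (nat_lit 234) (nat_lit 0) (nat_lit 14))
    (@En.n l2595 (nat_lit 18) (nat_lit 2) (nat_lit 3))
    (@En.n l781 (nat_lit 164) (nat_lit 12) (nat_lit 13))
    (@En.n l3 (nat_lit 174) (nat_lit 15) (nat_lit 2))))
  (@Cl.mk (nat_lit 0x2000d000d000400030003000c000c000c000c0004000400040004000e000c) (nat_lit 0x34000a922000099) (nat_lit 16) Lb.e (@T16.mk En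
    (@En.n l601 (nat_lit 6) (nat_lit 3) (nat_lit 12))
    (@En.n l227 (nat_lit 3521) (nat_lit 1) (nat_lit 14))
    (@En.n l11 (nat_lit 196) (nat_lit 12) (nat_lit 4))
    (@En.n l152 (nat_lit 169) (nat_lit 12) (nat_lit 4))
    (@En.n l602 (nat_lit 2) (nat_lit 4) (nat_lit 4))
    (@En.n l227 (nat_lit 126) (nat_lit 5) (nat_lit 4))
    (@En.n l229 (nat_lit 172) (nat_lit 7) (nat_lit 12))
    (@En.n l230 (nat_lit 128) (nat_lit 4) (nat_lit 12))
    (@En.n l603 (nat_lit 200) (nat_lit 4) (nat_lit 12))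
    (@En.n l18 (nat_lit 2223) (nat_lit 10) (nat_lit 12))
    (@En.i (nat_lit 195) (nat_lit 13) (nat_lit 3))
    (@En.n l18 (nat_lit 171) (nat_lit 0) (nat_lit 3))
    (@En.n l192 (nat_lit 101) (nat_lit 0) (nat_lit 4))
    (@En.n l61 (nat_lit 171) (nat_lit 3) (nat_lit 13))
    (@En.n l604 (nat_lit 104) (nat_lit 1) (nat_lit 13))
    (@En.n l7 (nat_lit 175) (nat_lit 15) (nat_lit 2))))
noncomputable def a11 : T16 Cl := @T16.mk Cl
  (@Cl.mk (nat_lit 0x2000d000d000400030003000d000b000e00030002000e00050002000e000c) (nat_lit 0x32000a10001009a) (nat_lit 16) Lb.e (@T16.mk En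
    (@En.n l187 (nat_lit 141) (nat_lit 14) (nat_lit 12))
    (@En.i (nat_lit 2570) (nat_lit 1) (nat_lit 14))
    (@En.n l17 (nat_lit 176) (nat_lit 2) (nat_lit 2))
    (@En.n l244 (nat_lit 200) (nat_lit 14) (nat_lit 5))
    (@En.n l245 (nat_lit 128) (nat_lit 1) (nat_lit 14))
    (@En.n l50 (nat_lit 176) (nat_lit 5) (nat_lit 2))
    (@En.n l7 (nat_lit 172) (nat_lit 6) (nat_lit 3))
    (@En.n l246 (nat_lit 14111) (nat_lit 4) (nat_lit 14))
    (@En.n l247 (nat_lit 169) (nat_lit 2) (nat_lit 11))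
    (@En.n l248 (nat_lit 2390) (nat_lit 10) (nat_lit 13))
    (@En.n l249 (nat_lit 201) (nat_lit 13) (nat_lit 3))
    (@En.n l250 (nat_lit 177) (nat_lit 11) (nat_lit 3))
    (@En.n l251 (nat_lit 179) (nat_lit 0) (nat_lit 4))
    (@En.n l252 (nat_lit 177) (nat_lit 14) (nat_lit 13))
    (@En.n l253 (nat_lit 161) (nat_lit 12) (nat_lit 13))
    (@En.n l3 (nat_lit 176) (nat_lit 15) (nat_lit 2))))
  (@Cl.mk (nat_lit 0x2000d0003000e00030002000d000b000e00030002000e00050002000e000d) (nat_lit 0x10300a10005008a) (nat_lit 16) Lb.e (@T16.mk En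
    (@En.n l774 (nat_lit 140) (nat_lit 6) (nat_lit 13))
    (@En.i (nat_lit 3541) (nat_lit 1) (nat_lit 14))
    (@En.n l17 (nat_lit 177) (nat_lit 2) (nat_lit 2))
    (@En.n l775 (nat_lit 211) (nat_lit 14) (nat_lit 5))
    (@En.i (nat_lit 127) (nat_lit 1) (nat_lit 14))
    (@En.n l776 (nat_lit 177) (nat_lit 5) (nat_lit 2))
    (@En.n l50 (nat_lit 174) (nat_lit 6) (nat_lit 3))
    (@En.n l777 (nat_lit 14106) (nat_lit 4) (nat_lit 14))
    (@En.n l778 (nat_lit 167) (nat_lit 14) (nat_lit 11))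
    (@En.n l779 (nat_lit 2391) (nat_lit 10) (nat_lit 13))
    (@En.n l28 (nat_lit 177) (nat_lit 10) (nat_lit 2))
    (@En.n l780 (nat_lit 176) (nat_lit 11) (nat_lit 3))
    (@En.n l778 (nat_lit 231) (nat_lit 0) (nat_lit 14))
    (@En.n l778 (nat_lit 140) (nat_lit 2) (nat_lit 3))
    (@En.n l781 (nat_lit 152) (nat_lit 12) (nat_lit 13))
    (@En.n l3 (nat_lit 177) (nat_lit 15) (nat_lit 2))))
  (@Cl.mk (nat_lit 0x200060005000d000b000e00030002000e00050002000a000d000b000e0003) (nat_lit 0x81b00200811b0) (nat_lit 16) Lb.e (@T16.mk En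
    (@En.n l2604 (nat_lit 161) (nat_lit 10) (nat_lit 3))
    (@En.i (nat_lit 278) (nat_lit 0) (nat_lit 14))
    (@En.n l2605 (nat_lit 146) (nat_lit 2) (nat_lit 11))
    (@En.n l778 (nat_lit 120) (nat_lit 5) (nat_lit 13))
    (@En.n l2606 (nat_lit 559) (nat_lit 4) (nat_lit 10))
    (@En.n l17 (nat_lit 178) (nat_lit 5) (nat_lit 2))
    (@En.n l2607 (nat_lit 160) (nat_lit 14) (nat_lit 5))
    (@En.i (nat_lit 98) (nat_lit 1) (nat_lit 14))
    (@En.n l776 (nat_lit 178) (nat_lit 8) (nat_lit 2))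
    (@En.n l2608 (nat_lit 133) (nat_lit 9) (nat_lit 3))
    (@En.n l2609 (nat_lit 14092) (nat_lit 4) (nat_lit 14))
    (@En.n l778 (nat_lit 83) (nat_lit 12) (nat_lit 11))
    (@En.n l779 (nat_lit 895) (nat_lit 13) (nat_lit 13))
    (@En.n l2610 (nat_lit 179) (nat_lit 14) (nat_lit 5))
    (@En.n l2611 (nat_lit 161) (nat_lit 8) (nat_lit 6))
    (@En.n l107 (nat_lit 178) (nat_lit 15) (nat_lit 2))))
  (@Cl.mk (nat_lit 0x20005000d000b000e00030002000e00050002000d000c000b0003000e0004) (nat_lit 0xa1000100a120c0) (nat_lit 16) Lb.e (@T16.mk En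
    (@En.n l806 (nat_lit 141) (nat_lit 9) (nat_lit 4))
    (@En.n l807 (nat_lit 178) (nat_lit 1) (nat_lit 14))
    (@En.n l808 (nat_lit 120) (nat_lit 2) (nat_lit 3))
    (@En.n l278 (nat_lit 201) (nat_lit 3) (nat_lit 11))
    (@En.n l217 (nat_lit 119) (nat_lit 14) (nat_lit 12))
    (@En.n l809 (nat_lit 2280) (nat_lit 6) (nat_lit 13))
    (@En.n l28 (nat_lit 179) (nat_lit 6) (nat_lit 2))
    (@En.n l810 (nat_lit 180) (nat_lit 14) (nat_lit 5))
    (@En.n l811 (nat_lit 9) (nat_lit 1) (nat_lit 14))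
    (@En.n l107 (nat_lit 179) (nat_lit 9) (nat_lit 2))
    (@En.n l812 (nat_lit 130) (nat_lit 10) (nat_lit 3))
    (@En.n l813 (nat_lit 14114) (nat_lit 4) (nat_lit 14))
    (@En.i (nat_lit 106) (nat_lit 13) (nat_lit 11))
    (@En.n l814 (nat_lit 2247) (nat_lit 14) (nat_lit 13))
    (@En.n l617 (nat_lit 144) (nat_lit 13) (nat_lit 5))
    (@En.n l17 (nat_lit 179) (nat_lit 15) (nat_lit 2))))
  (@Cl.mk (nat_lit 0x200050005000d000c000b0003000e000400020005000c000b000b000e0004) (nat_lit 0xb100c00081210) (nat_lit 16) Lb.e (@T16.mk En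
    (@En.n l2675 (nat_lit 101) (nat_lit 9) (nat_lit 4))
    (@En.n l2676 (nat_lit 179) (nat_lit 11) (nat_lit 14))
    (@En.n l2677 (nat_lit 179) (nat_lit 12) (nat_lit 11))
    (@En.i (nat_lit 105) (nat_lit 3) (nat_lit 11))
    (@En.n l2678 (nat_lit 2243) (nat_lit 14) (nat_lit 12))
    (@En.n l2039 (nat_lit 17) (nat_lit 5) (nat_lit 5))
    (@En.n l17 (nat_lit 180) (nat_lit 6) (nat_lit 2))
    (@En.n l215 (nat_lit 143) (nat_lit 7) (nat_lit 4))
    (@En.n l2679 (nat_lit 160) (nat_lit 9) (nat_lit 14))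
    (@En.n l50 (nat_lit 121) (nat_lit 9) (nat_lit 3))
    (@En.n l2563 (nat_lit 198) (nat_lit 3) (nat_lit 11))
    (@En.n l217 (nat_lit 117) (nat_lit 12) (nat_lit 12))
    (@En.n l2680 (nat_lit 2279) (nat_lit 13) (nat_lit 13))
    (@En.n l2681 (nat_lit 181) (nat_lit 6) (nat_lit 5))
    (@En.n l2682 (nat_lit 182) (nat_lit 13) (nat_lit 5))
    (@En.n l11 (nat_lit 180) (nat_lit 15) (nat_lit 2))))
  (@Cl.mk (nat_lit 0x20005000b000e000b0002000e000500020005000d000c000b0003000e0004) (nat_lit 0x80202000a00010) (nat_lit 16) Lb.e (@T16.mk En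
    (@En.n l215 (nat_lit 204) (nat_lit 8) (nat_lit 4))
    (@En.n l998 (nat_lit 158) (nat_lit 10) (nat_lit 14))
    (@En.n l50 (nat_lit 185) (nat_lit 10) (nat_lit 3))
    (@En.n l52 (nat_lit 197) (nat_lit 3) (nat_lit 11))
    (@En.n l217 (nat_lit 187) (nat_lit 13) (nat_lit 12))
    (@En.n l2036 (nat_lit 2558) (nat_lit 6) (nat_lit 13))
    (@En.i (nat_lit 98) (nat_lit 6) (nat_lit 5))
    (@En.n l28 (nat_lit 181) (nat_lit 7) (nat_lit 2))
    (@En.n l2037 (nat_lit 182) (nat_lit 14) (nat_lit 5))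
    (@En.n l1578 (nat_lit 180) (nat_lit 1) (nat_lit 14))
    (@En.n l3 (nat_lit 181) (nat_lit 10) (nat_lit 2))
    (@En.n l2038 (nat_lit 180) (nat_lit 3) (nat_lit 11))
    (@En.n l613 (nat_lit 268) (nat_lit 4) (nat_lit 14))
    (@En.i (nat_lit 2245) (nat_lit 14) (nat_lit 11))
    (@En.n l2039 (nat_lit 222) (nat_lit 13) (nat_lit 5))
    (@En.n l17 (nat_lit 181) (nat_lit 15) (nat_lit 2))))
  (@Cl.mk (nat_lit 0x2000500050004000d000c000b0003000e000400020005000b000b000e000c) (nat_lit 0xb920c0008912) (nat_lit 16) Lb.e (@T16.mk En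
    (@En.n l68 (nat_lit 101) (nat_lit 11) (nat_lit 12))
    (@En.n l637 (nat_lit 181) (nat_lit 12) (nat_lit 14))
    (@En.n l638 (nat_lit 181) (nat_lit 13) (nat_lit 11))
    (@En.n l639 (nat_lit 2234) (nat_lit 3) (nat_lit 11))
    (@En.n l640 (nat_lit 202) (nat_lit 4) (nat_lit 5))
    (@En.n l18 (nat_lit 182) (nat_lit 5) (nat_lit 2))
    (@En.n l641 (nat_lit 149) (nat_lit 6) (nat_lit 4))
    (@En.n l642 (nat_lit 159) (nat_lit 8) (nat_lit 14))
    (@En.n l7 (nat_lit 184) (nat_lit 8) (nat_lit 3))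
    (@En.n l643 (nat_lit 193) (nat_lit 3) (nat_lit 11))
    (@En.n l644 (nat_lit 186) (nat_lit 11) (nat_lit 12))
    (@En.n l645 (nat_lit 2063) (nat_lit 12) (nat_lit 13))
    (@En.i (nat_lit 100) (nat_lit 6) (nat_lit 4))
    (@En.n l646 (nat_lit 183) (nat_lit 14) (nat_lit 5))
    (@En.n l647 (nat_lit 106) (nat_lit 8) (nat_lit 5))
    (@En.n l67 (nat_lit 182) (nat_lit 15) (nat_lit 2))))
  (@Cl.mk (nat_lit 0x200050003000d000c000b0003000e000400020005000e000b0002000e000d) (nat_lit 0xb0100000b9024) (nat_lit 16) Lb.e (@T16.mk En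
    (@En.n l55 (nat_lit 128) (nat_lit 10) (nat_lit 13))
    (@En.n l212 (nat_lit 182) (nat_lit 1) (nat_lit 14))
    (@En.n l3 (nat_lit 183) (nat_lit 2) (nat_lit 2))
    (@En.n l213 (nat_lit 182) (nat_lit 3) (nat_lit 11))
    (@En.i (nat_lit 3518) (nat_lit 5) (nat_lit 14))
    (@En.n l214 (nat_lit 198) (nat_lit 5) (nat_lit 5))
    (@En.n l17 (nat_lit 183) (nat_lit 6) (nat_lit 2))
    (@En.n l215 (nat_lit 195) (nat_lit 7) (nat_lit 4))
    (@En.n l216 (nat_lit 192) (nat_lit 9) (nat_lit 14))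
    (@En.n l50 (nat_lit 188) (nat_lit 9) (nat_lit 3))
    (@En.n l53 (nat_lit 1) (nat_lit 3) (nat_lit 11))
    (@En.n l217 (nat_lit 189) (nat_lit 12) (nat_lit 12))
    (@En.n l53 (nat_lit 2064) (nat_lit 13) (nat_lit 13))
    (@En.n l218 (nat_lit 128) (nat_lit 6) (nat_lit 3))
    (@En.n l219 (nat_lit 179) (nat_lit 7) (nat_lit 5))
    (@En.n l28 (nat_lit 183) (nat_lit 15) (nat_lit 2))))
  (@Cl.mk (nat_lit 0x2000500050004000d000a000d0003000e000300020006000b000b000e000c) (nat_lit 0xa120c0008903) (nat_lit 16) Lb.e (@T16.mk En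
    (@En.n l68 (nat_lit 99) (nat_lit 11) (nat_lit 12))
    (@En.n l637 (nat_lit 185) (nat_lit 4) (nat_lit 14))
    (@En.n l638 (nat_lit 185) (nat_lit 5) (nat_lit 11))
    (@En.n l639 (nat_lit 2233) (nat_lit 3) (nat_lit 11))
    (@En.n l1738 (nat_lit 186) (nat_lit 4) (nat_lit 6))
    (@En.n l18 (nat_lit 184) (nat_lit 5) (nat_lit 2))
    (@En.i (nat_lit 186) (nat_lit 6) (nat_lit 3))
    (@En.n l889 (nat_lit 229) (nat_lit 0) (nat_lit 14))
    (@En.i (nat_lit 182) (nat_lit 8) (nat_lit 3))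
    (@En.i (nat_lit 209) (nat_lit 10) (nat_lit 13))
    (@En.i (nat_lit 159) (nat_lit 11) (nat_lit 10))
    (@En.n l645 (nat_lit 2059) (nat_lit 12) (nat_lit 13))
    (@En.i (nat_lit 89) (nat_lit 6) (nat_lit 4))
    (@En.n l646 (nat_lit 188) (nat_lit 14) (nat_lit 5))
    (@En.n l197 (nat_lit 111) (nat_lit 8) (nat_lit 5))
    (@En.n l67 (nat_lit 184) (nat_lit 15) (nat_lit 2))))
  (@Cl.mk (nat_lit 0x20005000d000a000d0003000e000300020006000b000e000b0002000e0005) (nat_lit 0xa120c0008c2020) (nat_lit 16) Lb.e (@T16.mk En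
    (@En.n l2037 (nat_lit 184) (nat_lit 14) (nat_lit 5))
    (@En.n l1578 (nat_lit 121) (nat_lit 1) (nat_lit 14))
    (@En.n l3 (nat_lit 185) (nat_lit 2) (nat_lit 2))
    (@En.n l2038 (nat_lit 121) (nat_lit 3) (nat_lit 11))
    (@En.i (nat_lit 265) (nat_lit 4) (nat_lit 14))
    (@En.i (nat_lit 2373) (nat_lit 14) (nat_lit 11))
    (@En.n l617 (nat_lit 187) (nat_lit 6) (nat_lit 6))
    (@En.n l17 (nat_lit 185) (nat_lit 7) (nat_lit 2))
    (@En.i (nat_lit 187) (nat_lit 8) (nat_lit 3))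
    (@En.n l1997 (nat_lit 227) (nat_lit 0) (nat_lit 14))
    (@En.i (nat_lit 181) (nat_lit 2) (nat_lit 3))
    (@En.n l1997 (nat_lit 210) (nat_lit 12) (nat_lit 13))
    (@En.n l5928 (nat_lit 158) (nat_lit 13) (nat_lit 10))
    (@En.n l2036 (nat_lit 2062) (nat_lit 6) (nat_lit 13))
    (@En.i (nat_lit 94) (nat_lit 13) (nat_lit 5))
    (@En.n l28 (nat_lit 185) (nat_lit 15) (nat_lit 2))))
  (@Cl.mk (nat_lit 0x2000500050004000c000a000d000d0004000300030006000b000b000e000c) (nat_lit 0x812300008903) (nat_lit 16) Lb.e (@T16.mk En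
    (@En.n l68 (nat_lit 103) (nat_lit 10) (nat_lit 12))
    (@En.n l637 (nat_lit 187) (nat_lit 4) (nat_lit 14))
    (@En.n l638 (nat_lit 187) (nat_lit 5) (nat_lit 11))
    (@En.n l639 (nat_lit 2231) (nat_lit 3) (nat_lit 11))
    (@En.n l2114 (nat_lit 190) (nat_lit 12) (nat_lit 6))
    (@En.n l1959 (nat_lit 190) (nat_lit 13) (nat_lit 3))
    (@En.n l50 (nat_lit 184) (nat_lit 6) (nat_lit 3))
    (@En.n l829 (nat_lit 202) (nat_lit 7) (nat_lit 4))
    (@En.n l217 (nat_lit 184) (nat_lit 9) (nat_lit 13))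
    (@En.i (nat_lit 147) (nat_lit 10) (nat_lit 13))
    (@En.n l2108 (nat_lit 155) (nat_lit 11) (nat_lit 10))
    (@En.n l2115 (nat_lit 2060) (nat_lit 12) (nat_lit 12))
    (@En.i (nat_lit 86) (nat_lit 12) (nat_lit 4))
    (@En.n l646 (nat_lit 189) (nat_lit 14) (nat_lit 5))
    (@En.n l647 (nat_lit 110) (nat_lit 13) (nat_lit 5))
    (@En.n l67 (nat_lit 186) (nat_lit 15) (nat_lit 2))))
  (@Cl.mk (nat_lit 0x20005000c000a000d000d0004000300030006000b000e000b0002000e0005) (nat_lit 0xa11300008c2010) (nat_lit 16) Lb.e (@T16.mk En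
    (@En.n l2037 (nat_lit 186) (nat_lit 14) (nat_lit 5))
    (@En.n l1578 (nat_lit 117) (nat_lit 1) (nat_lit 14))
    (@En.n l3 (nat_lit 187) (nat_lit 2) (nat_lit 2))
    (@En.n l2038 (nat_lit 117) (nat_lit 3) (nat_lit 11))
    (@En.n l798 (nat_lit 263) (nat_lit 4) (nat_lit 14))
    (@En.i (nat_lit 2268) (nat_lit 2) (nat_lit 11))
    (@En.n l5684 (nat_lit 221) (nat_lit 12) (nat_lit 6))
    (@En.n l5685 (nat_lit 221) (nat_lit 13) (nat_lit 3))
    (@En.n l18 (nat_lit 185) (nat_lit 8) (nat_lit 3))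
    (@En.n l947 (nat_lit 222) (nat_lit 0) (nat_lit 4))
    (@En.n l61 (nat_lit 185) (nat_lit 11) (nat_lit 13))
    (@En.n l1353 (nat_lit 148) (nat_lit 12) (nat_lit 13))
    (@En.n l798 (nat_lit 157) (nat_lit 13) (nat_lit 10))
    (@En.n l5929 (nat_lit 2065) (nat_lit 14) (nat_lit 12))
    (@En.i (nat_lit 88) (nat_lit 13) (nat_lit 5))
    (@En.n l28 (nat_lit 187) (nat_lit 15) (nat_lit 2))))
  (@Cl.mk (nat_lit 0x200050003000d000a000d0003000e000300020006000e000b0002000e000d) (nat_lit 0x80003000c9014) (nat_lit 16) Lb.e (@T16.mk En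
    (@En.n l55 (nat_lit 124) (nat_lit 10) (nat_lit 13))
    (@En.n l212 (nat_lit 184) (nat_lit 1) (nat_lit 14))
    (@En.n l3 (nat_lit 188) (nat_lit 2) (nat_lit 2))
    (@En.n l213 (nat_lit 184) (nat_lit 3) (nat_lit 11))
    (@En.i (nat_lit 3516) (nat_lit 5) (nat_lit 14))
    (@En.n l617 (nat_lit 189) (nat_lit 5) (nat_lit 6))
    (@En.n l17 (nat_lit 188) (nat_lit 6) (nat_lit 2))
    (@En.i (nat_lit 189) (nat_lit 7) (nat_lit 3))
    (@En.n l164 (nat_lit 242) (nat_lit 0) (nat_lit 14))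
    (@En.i (nat_lit 183) (nat_lit 9) (nat_lit 3))
    (@En.n l792 (nat_lit 208) (nat_lit 11) (nat_lit 13))
    (@En.n l793 (nat_lit 192) (nat_lit 12) (nat_lit 10))
    (@En.n l794 (nat_lit 2058) (nat_lit 13) (nat_lit 13))
    (@En.n l218 (nat_lit 124) (nat_lit 6) (nat_lit 3))
    (@En.n l795 (nat_lit 120) (nat_lit 7) (nat_lit 5))
    (@En.n l28 (nat_lit 188) (nat_lit 15) (nat_lit 2))))
  (@Cl.mk (nat_lit 0x200050003000c000a000d000d0004000300030006000e000b0002000e000d) (nat_lit 0xa1a10000b9012) (nat_lit 16) Lb.e (@T16.mk En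
    (@En.n l55 (nat_lit 126) (nat_lit 14) (nat_lit 13))
    (@En.n l212 (nat_lit 186) (nat_lit 1) (nat_lit 14))
    (@En.n l3 (nat_lit 189) (nat_lit 2) (nat_lit 2))
    (@En.n l213 (nat_lit 186) (nat_lit 3) (nat_lit 11))
    (@En.i (nat_lit 3512) (nat_lit 5) (nat_lit 14))
    (@En.n l796 (nat_lit 191) (nat_lit 12) (nat_lit 6))
    (@En.n l797 (nat_lit 191) (nat_lit 13) (nat_lit 3))
    (@En.n l18 (nat_lit 188) (nat_lit 7) (nat_lit 3))
    (@En.n l794 (nat_lit 198) (nat_lit 8) (nat_lit 4))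
    (@En.n l61 (nat_lit 188) (nat_lit 10) (nat_lit 13))
    (@En.n l287 (nat_lit 207) (nat_lit 11) (nat_lit 13))
    (@En.n l798 (nat_lit 162) (nat_lit 12) (nat_lit 10))
    (@En.n l799 (nat_lit 2061) (nat_lit 13) (nat_lit 12))
    (@En.n l218 (nat_lit 126) (nat_lit 10) (nat_lit 3))
    (@En.n l219 (nat_lit 119) (nat_lit 0) (nat_lit 5))
    (@En.n l28 (nat_lit 189) (nat_lit 15) (nat_lit 2))))
  (@Cl.mk (nat_lit 0x2000500030006000b000b000e000c0002000500050004000b000a000e000d) (nat_lit 0x890200000103) (nat_lit 16) Lb.e (@T16.mk En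
    (@En.n l1708 (nat_lit 186) (nat_lit 9) (nat_lit 13))
    (@En.n l2914 (nat_lit 205) (nat_lit 10) (nat_lit 14))
    (@En.n l2915 (nat_lit 156) (nat_lit 11) (nat_lit 10))
    (@En.n l255 (nat_lit 2066) (nat_lit 12) (nat_lit 11))
    (@En.i (nat_lit 87) (nat_lit 4) (nat_lit 4))
    (@En.n l891 (nat_lit 191) (nat_lit 5) (nat_lit 5))
    (@En.n l197 (nat_lit 109) (nat_lit 6) (nat_lit 5))
    (@En.n l67 (nat_lit 190) (nat_lit 7) (nat_lit 2))
    (@En.n l68 (nat_lit 113) (nat_lit 9) (nat_lit 12))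
    (@En.n l634 (nat_lit 221) (nat_lit 10) (nat_lit 14))
    (@En.n l635 (nat_lit 221) (nat_lit 11) (nat_lit 11))
    (@En.n l2916 (nat_lit 2265) (nat_lit 12) (nat_lit 11))
    (@En.n l889 (nat_lit 229) (nat_lit 12) (nat_lit 6))
    (@En.n l1063 (nat_lit 186) (nat_lit 5) (nat_lit 3))
    (@En.i (nat_lit 203) (nat_lit 6) (nat_lit 5))
    (@En.n l18 (nat_lit 190) (nat_lit 15) (nat_lit 2))))
  (@Cl.mk (nat_lit 0x2000500030006000e000b0002000e000d000200050003000b000a000e000d) (nat_lit 0xb9013000012b) (nat_lit 16) Lb.e (@T16.mk En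
    (@En.n l622 (nat_lit 189) (nat_lit 10) (nat_lit 13))
    (@En.n l988 (nat_lit 206) (nat_lit 11) (nat_lit 14))
    (@En.n l989 (nat_lit 163) (nat_lit 12) (nat_lit 10))
    (@En.n l990 (nat_lit 758) (nat_lit 3) (nat_lit 11))
    (@En.n l11 (nat_lit 170) (nat_lit 4) (nat_lit 3))
    (@En.n l288 (nat_lit 116) (nat_lit 5) (nat_lit 5))
    (@En.n l207 (nat_lit 191) (nat_lit 6) (nat_lit 2))
    (@En.n l198 (nat_lit 170) (nat_lit 8) (nat_lit 13))
    (@En.n l281 (nat_lit 190) (nat_lit 9) (nat_lit 14))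
    (@En.n l3 (nat_lit 191) (nat_lit 9) (nat_lit 2))
    (@En.n l282 (nat_lit 190) (nat_lit 11) (nat_lit 11))
    (@En.n l991 (nat_lit 3513) (nat_lit 12) (nat_lit 14))
    (@En.n l889 (nat_lit 242) (nat_lit 12) (nat_lit 6))
    (@En.n l992 (nat_lit 189) (nat_lit 6) (nat_lit 3))
    (@En.i (nat_lit 197) (nat_lit 7) (nat_lit 5))
    (@En.n l18 (nat_lit 191) (nat_lit 15) (nat_lit 2))))
noncomputable def a12 : T16 Cl := @T16.mk Cl
  (@Cl.mk (nat_lit 0x200050003000a000d000b000e0003000200060005000e000b0002000e000d) (nat_lit 0x890c0000c9023) (nat_lit 16) Lb.e (@T16.mk En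
    (@En.n l782 (nat_lit 131) (nat_lit 9) (nat_lit 13))
    (@En.n l783 (nat_lit 159) (nat_lit 1) (nat_lit 14))
    (@En.n l50 (nat_lit 192) (nat_lit 2) (nat_lit 2))
    (@En.n l784 (nat_lit 159) (nat_lit 3) (nat_lit 11))
    (@En.n l785 (nat_lit 631) (nat_lit 5) (nat_lit 14))
    (@En.n l786 (nat_lit 183) (nat_lit 5) (nat_lit 5))
    (@En.n l787 (nat_lit 162) (nat_lit 6) (nat_lit 6))
    (@En.n l107 (nat_lit 192) (nat_lit 7) (nat_lit 2))
    (@En.n l788 (nat_lit 162) (nat_lit 8) (nat_lit 3))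
    (@En.i (nat_lit 280) (nat_lit 0) (nat_lit 14))
    (@En.n l789 (nat_lit 193) (nat_lit 11) (nat_lit 11))
    (@En.n l785 (nat_lit 188) (nat_lit 12) (nat_lit 13))
    (@En.n l790 (nat_lit 748) (nat_lit 13) (nat_lit 10))
    (@En.n l791 (nat_lit 131) (nat_lit 5) (nat_lit 3))
    (@En.n l211 (nat_lit 178) (nat_lit 6) (nat_lit 5))
    (@En.n l17 (nat_lit 192) (nat_lit 15) (nat_lit 2))))
  (@Cl.mk (nat_lit 0x200050003000b000b000e000c0002000500050004000e000b0002000e000d) (nat_lit 0x99c20000b1012) (nat_lit 16) Lb.e (@T16.mk En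
    (@En.n l61 (nat_lit 196) (nat_lit 8) (nat_lit 13))
    (@En.n l62 (nat_lit 3) (nat_lit 1) (nat_lit 14))
    (@En.n l7 (nat_lit 193) (nat_lit 2) (nat_lit 2))
    (@En.n l63 (nat_lit 3) (nat_lit 3) (nat_lit 11))
    (@En.n l64 (nat_lit 2501) (nat_lit 12) (nat_lit 14))
    (@En.i (nat_lit 162) (nat_lit 5) (nat_lit 4))
    (@En.n l65 (nat_lit 1) (nat_lit 6) (nat_lit 5))
    (@En.n l66 (nat_lit 206) (nat_lit 7) (nat_lit 5))
    (@En.n l67 (nat_lit 193) (nat_lit 8) (nat_lit 2))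
    (@En.n l68 (nat_lit 195) (nat_lit 10) (nat_lit 12))
    (@En.n l69 (nat_lit 197) (nat_lit 11) (nat_lit 14))
    (@En.n l70 (nat_lit 197) (nat_lit 12) (nat_lit 11))
    (@En.n l71 (nat_lit 2478) (nat_lit 3) (nat_lit 11))
    (@En.n l72 (nat_lit 196) (nat_lit 4) (nat_lit 3))
    (@En.n l73 (nat_lit 146) (nat_lit 5) (nat_lit 5))
    (@En.n l17 (nat_lit 193) (nat_lit 15) (nat_lit 2))))
  (@Cl.mk (nat_lit 0x200050003000e000c0002000d000d000400030003000e000b0002000e000d) (nat_lit 0xc00b3000c9001) (nat_lit 16) Lb.e (@T16.mk En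
    (@En.n l48 (nat_lit 2) (nat_lit 6) (nat_lit 13))
    (@En.n l49 (nat_lit 196) (nat_lit 1) (nat_lit 14))
    (@En.n l50 (nat_lit 194) (nat_lit 2) (nat_lit 2))
    (@En.n l51 (nat_lit 196) (nat_lit 3) (nat_lit 11))
    (@En.n l52 (nat_lit 3553) (nat_lit 5) (nat_lit 14))
    (@En.n l53 (nat_lit 1) (nat_lit 5) (nat_lit 3))
    (@En.n l11 (nat_lit 208) (nat_lit 6) (nat_lit 3))
    (@En.n l54 (nat_lit 183) (nat_lit 7) (nat_lit 4))
    (@En.n l55 (nat_lit 208) (nat_lit 9) (nat_lit 13))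
    (@En.n l56 (nat_lit 162) (nat_lit 10) (nat_lit 13))
    (@En.n l3 (nat_lit 194) (nat_lit 10) (nat_lit 2))
    (@En.n l57 (nat_lit 195) (nat_lit 12) (nat_lit 12))
    (@En.n l58 (nat_lit 2500) (nat_lit 13) (nat_lit 14))
    (@En.n l59 (nat_lit 2) (nat_lit 2) (nat_lit 3))
    (@En.n l60 (nat_lit 176) (nat_lit 3) (nat_lit 5))
    (@En.n l17 (nat_lit 194) (nat_lit 15) (nat_lit 2))))
  (@Cl.mk (nat_lit 0x200050003000c000c000c000c0004000400040004000e000b0002000e000d) (nat_lit 0xa9120000b9014) (nat_lit 16) Lb.e (@T16.mk En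
    (@En.n l61 (nat_lit 175) (nat_lit 14) (nat_lit 13))
    (@En.n l62 (nat_lit 149) (nat_lit 1) (nat_lit 14))
    (@En.n l7 (nat_lit 195) (nat_lit 2) (nat_lit 2))
    (@En.n l63 (nat_lit 149) (nat_lit 3) (nat_lit 11))
    (@En.n l227 (nat_lit 3520) (nat_lit 5) (nat_lit 14))
    (@En.n l11 (nat_lit 193) (nat_lit 5) (nat_lit 4))
    (@En.n l222 (nat_lit 206) (nat_lit 6) (nat_lit 4))
    (@En.n l228 (nat_lit 194) (nat_lit 7) (nat_lit 4))
    (@En.n l227 (nat_lit 189) (nat_lit 8) (nat_lit 4))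
    (@En.n l229 (nat_lit 207) (nat_lit 10) (nat_lit 12))
    (@En.n l230 (nat_lit 183) (nat_lit 11) (nat_lit 12))
    (@En.n l231 (nat_lit 198) (nat_lit 12) (nat_lit 12))
    (@En.n l232 (nat_lit 2476) (nat_lit 13) (nat_lit 12))
    (@En.n l72 (nat_lit 175) (nat_lit 10) (nat_lit 3))
    (@En.n l73 (nat_lit 141) (nat_lit 0) (nat_lit 5))
    (@En.n l17 (nat_lit 195) (nat_lit 15) (nat_lit 2))))
  (@Cl.mk (nat_lit 0x2000500050004000e000c0002000d000d000400030003000b000b000e000c) (nat_lit 0x8a01300089c3) (nat_lit 16) Lb.e (@T16.mk En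
    (@En.n l68 (nat_lit 175) (nat_lit 7) (nat_lit 12))
    (@En.n l69 (nat_lit 199) (nat_lit 4) (nat_lit 14))
    (@En.n l70 (nat_lit 199) (nat_lit 5) (nat_lit 11))
    (@En.n l18 (nat_lit 2207) (nat_lit 3) (nat_lit 11))
    (@En.i (nat_lit 193) (nat_lit 13) (nat_lit 3))
    (@En.n l18 (nat_lit 209) (nat_lit 5) (nat_lit 3))
    (@En.n l192 (nat_lit 182) (nat_lit 6) (nat_lit 4))
    (@En.n l61 (nat_lit 209) (nat_lit 8) (nat_lit 13))
    (@En.n l193 (nat_lit 155) (nat_lit 9) (nat_lit 13))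
    (@En.n l7 (nat_lit 196) (nat_lit 9) (nat_lit 2))
    (@En.n l194 (nat_lit 149) (nat_lit 11) (nat_lit 12))
    (@En.n l195 (nat_lit 2494) (nat_lit 12) (nat_lit 14))
    (@En.i (nat_lit 134) (nat_lit 2) (nat_lit 4))
    (@En.n l196 (nat_lit 194) (nat_lit 14) (nat_lit 5))
    (@En.n l197 (nat_lit 169) (nat_lit 13) (nat_lit 5))
    (@En.n l67 (nat_lit 196) (nat_lit 15) (nat_lit 2))))
  (@Cl.mk (nat_lit 0x200050003000b000e000b0002000e000500020005000e000b0002000e000d) (nat_lit 0x8b20000009022) (nat_lit 16) Lb.e (@T16.mk En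
    (@En.n l198 (nat_lit 199) (nat_lit 10) (nat_lit 13))
    (@En.n l281 (nat_lit 203) (nat_lit 1) (nat_lit 14))
    (@En.n l3 (nat_lit 197) (nat_lit 2) (nat_lit 2))
    (@En.n l282 (nat_lit 203) (nat_lit 3) (nat_lit 11))
    (@En.i (nat_lit 2562) (nat_lit 5) (nat_lit 14))
    (@En.n l283 (nat_lit 192) (nat_lit 5) (nat_lit 5))
    (@En.n l17 (nat_lit 197) (nat_lit 6) (nat_lit 2))
    (@En.n l284 (nat_lit 193) (nat_lit 7) (nat_lit 5))
    (@En.n l285 (nat_lit 198) (nat_lit 9) (nat_lit 14))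
    (@En.n l7 (nat_lit 197) (nat_lit 9) (nat_lit 2))
    (@En.n l286 (nat_lit 198) (nat_lit 11) (nat_lit 11))
    (@En.i (nat_lit 232) (nat_lit 4) (nat_lit 14))
    (@En.n l287 (nat_lit 2483) (nat_lit 13) (nat_lit 11))
    (@En.n l11 (nat_lit 199) (nat_lit 6) (nat_lit 3))
    (@En.n l288 (nat_lit 223) (nat_lit 7) (nat_lit 5))
    (@En.n l207 (nat_lit 197) (nat_lit 15) (nat_lit 2))))
  (@Cl.mk (nat_lit 0x200050003000c000b000b000e0004000200050005000e000b0002000e000d) (nat_lit 0x810c0000b9004) (nat_lit 16) Lb.e (@T16.mk En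
    (@En.n l363 (nat_lit 200) (nat_lit 9) (nat_lit 13))
    (@En.n l364 (nat_lit 202) (nat_lit 1) (nat_lit 14))
    (@En.n l18 (nat_lit 198) (nat_lit 2) (nat_lit 2))
    (@En.n l365 (nat_lit 202) (nat_lit 3) (nat_lit 11))
    (@En.n l366 (nat_lit 2565) (nat_lit 13) (nat_lit 14))
    (@En.n l367 (nat_lit 197) (nat_lit 5) (nat_lit 5))
    (@En.n l368 (nat_lit 193) (nat_lit 6) (nat_lit 5))
    (@En.n l11 (nat_lit 198) (nat_lit 7) (nat_lit 2))
    (@En.n l369 (nat_lit 195) (nat_lit 8) (nat_lit 4))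
    (@En.n l8 (nat_lit 201) (nat_lit 10) (nat_lit 14))
    (@En.n l77 (nat_lit 201) (nat_lit 11) (nat_lit 11))
    (@En.n l370 (nat_lit 191) (nat_lit 3) (nat_lit 11))
    (@En.i (nat_lit 2481) (nat_lit 13) (nat_lit 12))
    (@En.n l371 (nat_lit 200) (nat_lit 5) (nat_lit 3))
    (@En.n l372 (nat_lit 144) (nat_lit 6) (nat_lit 5))
    (@En.n l3 (nat_lit 198) (nat_lit 15) (nat_lit 2))))
  (@Cl.mk (nat_lit 0x20005000e000c0002000d000d000400030003000b000e000b0002000e0005) (nat_lit 0x8a0120008b2020) (nat_lit 16) Lb.e (@T16.mk En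
    (@En.n l284 (nat_lit 196) (nat_lit 14) (nat_lit 5))
    (@En.n l622 (nat_lit 200) (nat_lit 1) (nat_lit 14))
    (@En.n l7 (nat_lit 199) (nat_lit 2) (nat_lit 2))
    (@En.n l623 (nat_lit 200) (nat_lit 3) (nat_lit 11))
    (@En.i (nat_lit 235) (nat_lit 4) (nat_lit 14))
    (@En.n l248 (nat_lit 2205) (nat_lit 2) (nat_lit 11))
    (@En.i (nat_lit 197) (nat_lit 13) (nat_lit 3))
    (@En.n l624 (nat_lit 210) (nat_lit 7) (nat_lit 3))
    (@En.n l248 (nat_lit 181) (nat_lit 0) (nat_lit 4))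
    (@En.n l625 (nat_lit 210) (nat_lit 10) (nat_lit 13))
    (@En.n l253 (nat_lit 157) (nat_lit 11) (nat_lit 13))
    (@En.n l3 (nat_lit 199) (nat_lit 11) (nat_lit 2))
    (@En.n l187 (nat_lit 204) (nat_lit 13) (nat_lit 12))
    (@En.i (nat_lit 2491) (nat_lit 1) (nat_lit 14))
    (@En.n l626 (nat_lit 131) (nat_lit 13) (nat_lit 5))
    (@En.n l17 (nat_lit 199) (nat_lit 15) (nat_lit 2))))
  (@Cl.mk (nat_lit 0x200050005000e000c0002000d000d000400030003000c000b000b000e0004) (nat_lit 0x9a03300081210) (nat_lit 16) Lb.e (@T16.mk En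
    (@En.n l215 (nat_lit 175) (nat_lit 5) (nat_lit 4))
    (@En.n l287 (nat_lit 176) (nat_lit 7) (nat_lit 14))
    (@En.n l879 (nat_lit 176) (nat_lit 8) (nat_lit 11))
    (@En.n l665 (nat_lit 170) (nat_lit 3) (nat_lit 11))
    (@En.n l880 (nat_lit 2206) (nat_lit 10) (nat_lit 12))
    (@En.n l794 (nat_lit 198) (nat_lit 13) (nat_lit 3))
    (@En.n l11 (nat_lit 211) (nat_lit 6) (nat_lit 3))
    (@En.n l881 (nat_lit 180) (nat_lit 7) (nat_lit 4))
    (@En.n l55 (nat_lit 211) (nat_lit 9) (nat_lit 13))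
    (@En.n l882 (nat_lit 151) (nat_lit 10) (nat_lit 13))
    (@En.n l3 (nat_lit 200) (nat_lit 10) (nat_lit 2))
    (@En.n l883 (nat_lit 143) (nat_lit 12) (nat_lit 12))
    (@En.i (nat_lit 2566) (nat_lit 13) (nat_lit 14))
    (@En.n l796 (nat_lit 199) (nat_lit 14) (nat_lit 5))
    (@En.n l884 (nat_lit 196) (nat_lit 13) (nat_lit 5))
    (@En.n l18 (nat_lit 200) (nat_lit 15) (nat_lit 2))))
  (@Cl.mk (nat_lit 0x200050003000d000b000e00030002000e00050002000e000b0002000e000d) (nat_lit 0x89b00100b1014) (nat_lit 16) Lb.e (@T16.mk En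
    (@En.n l80 (nat_lit 176) (nat_lit 14) (nat_lit 13))
    (@En.n l81 (nat_lit 146) (nat_lit 1) (nat_lit 14))
    (@En.n l18 (nat_lit 201) (nat_lit 2) (nat_lit 2))
    (@En.n l82 (nat_lit 146) (nat_lit 3) (nat_lit 11))
    (@En.n l83 (nat_lit 2569) (nat_lit 1) (nat_lit 14))
    (@En.n l7 (nat_lit 201) (nat_lit 5) (nat_lit 2))
    (@En.i (nat_lit 198) (nat_lit 6) (nat_lit 5))
    (@En.n l84 (nat_lit 183) (nat_lit 8) (nat_lit 14))
    (@En.n l11 (nat_lit 201) (nat_lit 8) (nat_lit 2))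
    (@En.n l85 (nat_lit 207) (nat_lit 9) (nat_lit 3))
    (@En.n l4 (nat_lit 14113) (nat_lit 4) (nat_lit 14))
    (@En.n l86 (nat_lit 206) (nat_lit 12) (nat_lit 11))
    (@En.i (nat_lit 2486) (nat_lit 13) (nat_lit 13))
    (@En.n l87 (nat_lit 176) (nat_lit 10) (nat_lit 3))
    (@En.n l88 (nat_lit 5) (nat_lit 0) (nat_lit 5))
    (@En.n l3 (nat_lit 201) (nat_lit 15) (nat_lit 2))))
  (@Cl.mk (nat_lit 0x2000500050004000c000b000b000e0004000200050005000b000b000e000c) (nat_lit 0xa111000089c3) (nat_lit 16) Lb.e (@T16.mk En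
    (@En.n l68 (nat_lit 143) (nat_lit 10) (nat_lit 12))
    (@En.n l1058 (nat_lit 222) (nat_lit 11) (nat_lit 14))
    (@En.n l1059 (nat_lit 222) (nat_lit 12) (nat_lit 11))
    (@En.n l1060 (nat_lit 770) (nat_lit 3) (nat_lit 11))
    (@En.n l699 (nat_lit 203) (nat_lit 4) (nat_lit 5))
    (@En.n l1061 (nat_lit 3) (nat_lit 5) (nat_lit 5))
    (@En.n l18 (nat_lit 202) (nat_lit 6) (nat_lit 2))
    (@En.n l1062 (nat_lit 149) (nat_lit 7) (nat_lit 4))
    (@En.n l1063 (nat_lit 146) (nat_lit 9) (nat_lit 14))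
    (@En.n l1064 (nat_lit 146) (nat_lit 10) (nat_lit 11))
    (@En.i (nat_lit 190) (nat_lit 3) (nat_lit 11))
    (@En.n l1065 (nat_lit 2178) (nat_lit 12) (nat_lit 12))
    (@En.i (nat_lit 151) (nat_lit 5) (nat_lit 4))
    (@En.n l1066 (nat_lit 198) (nat_lit 14) (nat_lit 5))
    (@En.n l1067 (nat_lit 145) (nat_lit 7) (nat_lit 5))
    (@En.n l67 (nat_lit 202) (nat_lit 15) (nat_lit 2))))
  (@Cl.mk (nat_lit 0x2000500050004000b000e000b0002000e000500020005000b000b000e000c) (nat_lit 0x9c2020008112) (nat_lit 16) Lb.e (@T16.mk En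
    (@En.n l68 (nat_lit 204) (nat_lit 11) (nat_lit 12))
    (@En.n l886 (nat_lit 11) (nat_lit 4) (nat_lit 14))
    (@En.n l887 (nat_lit 11) (nat_lit 5) (nat_lit 11))
    (@En.n l888 (nat_lit 2530) (nat_lit 3) (nat_lit 11))
    (@En.n l889 (nat_lit 159) (nat_lit 4) (nat_lit 5))
    (@En.n l17 (nat_lit 203) (nat_lit 5) (nat_lit 2))
    (@En.n l257 (nat_lit 3) (nat_lit 6) (nat_lit 5))
    (@En.n l5 (nat_lit 202) (nat_lit 8) (nat_lit 14))
    (@En.n l7 (nat_lit 203) (nat_lit 8) (nat_lit 2))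
    (@En.n l890 (nat_lit 202) (nat_lit 10) (nat_lit 11))
    (@En.i (nat_lit 226) (nat_lit 4) (nat_lit 14))
    (@En.n l255 (nat_lit 2482) (nat_lit 12) (nat_lit 11))
    (@En.i (nat_lit 157) (nat_lit 6) (nat_lit 4))
    (@En.n l891 (nat_lit 197) (nat_lit 14) (nat_lit 5))
    (@En.n l197 (nat_lit 220) (nat_lit 8) (nat_lit 5))
    (@En.n l67 (nat_lit 203) (nat_lit 15) (nat_lit 2))))
  (@Cl.mk (nat_lit 0x20005000c000c000c000c0004000400040004000b000e000b0002000e0005) (nat_lit 0x991100008c2020) (nat_lit 16) Lb.e (@T16.mk En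
    (@En.i (nat_lit 149) (nat_lit 14) (nat_lit 5))
    (@En.n l5 (nat_lit 143) (nat_lit 1) (nat_lit 14))
    (@En.n l7 (nat_lit 204) (nat_lit 2) (nat_lit 2))
    (@En.n l890 (nat_lit 143) (nat_lit 3) (nat_lit 11))
    (@En.i (nat_lit 230) (nat_lit 4) (nat_lit 14))
    (@En.n l227 (nat_lit 2236) (nat_lit 2) (nat_lit 11))
    (@En.n l11 (nat_lit 203) (nat_lit 12) (nat_lit 4))
    (@En.n l152 (nat_lit 220) (nat_lit 7) (nat_lit 4))
    (@En.n l839 (nat_lit 199) (nat_lit 8) (nat_lit 4))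
    (@En.n l227 (nat_lit 187) (nat_lit 9) (nat_lit 4))
    (@En.n l1947 (nat_lit 148) (nat_lit 11) (nat_lit 12))
    (@En.n l230 (nat_lit 181) (nat_lit 4) (nat_lit 12))
    (@En.n l2040 (nat_lit 222) (nat_lit 4) (nat_lit 12))
    (@En.i (nat_lit 2490) (nat_lit 14) (nat_lit 12))
    (@En.i (nat_lit 102) (nat_lit 13) (nat_lit 5))
    (@En.n l17 (nat_lit 204) (nat_lit 15) (nat_lit 2))))
  (@Cl.mk (nat_lit 0x2000500050004000b000e000c0002000d000500040003000b000b000e000c) (nat_lit 0x9c1040008902) (nat_lit 16) Lb.e (@T16.mk En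
    (@En.n l900 (nat_lit 136) (nat_lit 8) (nat_lit 12))
    (@En.n l18 (nat_lit 220) (nat_lit 4) (nat_lit 14))
    (@En.n l61 (nat_lit 220) (nat_lit 5) (nat_lit 11))
    (@En.n l287 (nat_lit 882) (nat_lit 3) (nat_lit 11))
    (@En.n l11 (nat_lit 156) (nat_lit 4) (nat_lit 3))
    (@En.n l901 (nat_lit 147) (nat_lit 5) (nat_lit 4))
    (@En.n l902 (nat_lit 190) (nat_lit 14) (nat_lit 5))
    (@En.n l658 (nat_lit 186) (nat_lit 8) (nat_lit 13))
    (@En.n l3 (nat_lit 205) (nat_lit 8) (nat_lit 2))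
    (@En.i (nat_lit 149) (nat_lit 10) (nat_lit 12))
    (@En.n l284 (nat_lit 193) (nat_lit 4) (nat_lit 14))
    (@En.n l903 (nat_lit 2479) (nat_lit 12) (nat_lit 11))
    (@En.n l904 (nat_lit 84) (nat_lit 3) (nat_lit 4))
    (@En.n l905 (nat_lit 206) (nat_lit 14) (nat_lit 5))
    (@En.n l900 (nat_lit 13) (nat_lit 5) (nat_lit 5))
    (@En.n l7 (nat_lit 205) (nat_lit 15) (nat_lit 2))))
  (@Cl.mk (nat_lit 0x200050003000b000e000c0002000d000500040003000e000b0002000e000d) (nat_lit 0x81a02000c9013) (nat_lit 16) Lb.e (@T16.mk En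
    (@En.n l269 (nat_lit 169) (nat_lit 7) (nat_lit 13))
    (@En.n l270 (nat_lit 205) (nat_lit 1) (nat_lit 14))
    (@En.n l50 (nat_lit 206) (nat_lit 2) (nat_lit 2))
    (@En.n l271 (nat_lit 205) (nat_lit 3) (nat_lit 11))
    (@En.n l272 (nat_lit 3522) (nat_lit 5) (nat_lit 14))
    (@En.n l28 (nat_lit 163) (nat_lit 5) (nat_lit 3))
    (@En.n l273 (nat_lit 207) (nat_lit 6) (nat_lit 4))
    (@En.n l274 (nat_lit 191) (nat_lit 14) (nat_lit 5))
    (@En.n l275 (nat_lit 189) (nat_lit 9) (nat_lit 13))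
    (@En.n l107 (nat_lit 206) (nat_lit 9) (nat_lit 2))
    (@En.n l276 (nat_lit 195) (nat_lit 11) (nat_lit 12))
    (@En.n l277 (nat_lit 1) (nat_lit 4) (nat_lit 14))
    (@En.n l278 (nat_lit 2477) (nat_lit 13) (nat_lit 11))
    (@En.n l279 (nat_lit 169) (nat_lit 3) (nat_lit 3))
    (@En.n l280 (nat_lit 137) (nat_lit 0) (nat_lit 5))
    (@En.n l17 (nat_lit 206) (nat_lit 15) (nat_lit 2))))
  (@Cl.mk (nat_lit 0x200050003000d000d000c00030003000e00040002000e000b0002000e000d) (nat_lit 0xa9100400b9014) (nat_lit 16) Lb.e (@T16.mk En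
    (@En.n l198 (nat_lit 172) (nat_lit 14) (nat_lit 13))
    (@En.n l281 (nat_lit 147) (nat_lit 1) (nat_lit 14))
    (@En.n l3 (nat_lit 207) (nat_lit 2) (nat_lit 2))
    (@En.n l282 (nat_lit 147) (nat_lit 3) (nat_lit 11))
    (@En.i (nat_lit 3555) (nat_lit 1) (nat_lit 14))
    (@En.n l17 (nat_lit 207) (nat_lit 5) (nat_lit 2))
    (@En.n l373 (nat_lit 195) (nat_lit 6) (nat_lit 4))
    (@En.n l245 (nat_lit 188) (nat_lit 8) (nat_lit 14))
    (@En.n l374 (nat_lit 208) (nat_lit 8) (nat_lit 3))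
    (@En.n l249 (nat_lit 201) (nat_lit 9) (nat_lit 3))
    (@En.n l375 (nat_lit 194) (nat_lit 11) (nat_lit 12))
    (@En.n l376 (nat_lit 201) (nat_lit 12) (nat_lit 13))
    (@En.n l377 (nat_lit 2480) (nat_lit 13) (nat_lit 13))
    (@En.n l11 (nat_lit 172) (nat_lit 10) (nat_lit 3))
    (@En.n l288 (nat_lit 140) (nat_lit 8) (nat_lit 5))
    (@En.n l207 (nat_lit 207) (nat_lit 15) (nat_lit 2))))
noncomputable def a13 : T16 Cl := @T16.mk Cl
  (@Cl.mk (nat_lit 0x200050003000e000d0002000d0003000e00030002000e000b0002000e000d) (nat_lit 0x9b02050089004) (nat_lit 16) Lb.e (@T16.mk En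
    (@En.n l208 (nat_lit 173) (nat_lit 6) (nat_lit 13))
    (@En.n l49 (nat_lit 209) (nat_lit 1) (nat_lit 14))
    (@En.n l50 (nat_lit 208) (nat_lit 2) (nat_lit 2))
    (@En.n l51 (nat_lit 209) (nat_lit 3) (nat_lit 11))
    (@En.n l52 (nat_lit 3554) (nat_lit 1) (nat_lit 14))
    (@En.n l28 (nat_lit 208) (nat_lit 5) (nat_lit 2))
    (@En.i (nat_lit 194) (nat_lit 6) (nat_lit 3))
    (@En.n l52 (nat_lit 232) (nat_lit 0) (nat_lit 14))
    (@En.n l52 (nat_lit 207) (nat_lit 8) (nat_lit 3))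
    (@En.i (nat_lit 163) (nat_lit 10) (nat_lit 13))
    (@En.n l3 (nat_lit 208) (nat_lit 10) (nat_lit 2))
    (@En.n l209 (nat_lit 207) (nat_lit 12) (nat_lit 13))
    (@En.i (nat_lit 2499) (nat_lit 13) (nat_lit 14))
    (@En.n l210 (nat_lit 173) (nat_lit 2) (nat_lit 3))
    (@En.n l211 (nat_lit 177) (nat_lit 3) (nat_lit 5))
    (@En.n l17 (nat_lit 208) (nat_lit 15) (nat_lit 2))))
  (@Cl.mk (nat_lit 0x2000500050004000e000d0002000d0003000e00030002000b000b000e000c) (nat_lit 0x8102030089c3) (nat_lit 16) Lb.e (@T16.mk En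
    (@En.n l68 (nat_lit 171) (nat_lit 12) (nat_lit 12))
    (@En.n l634 (nat_lit 210) (nat_lit 4) (nat_lit 14))
    (@En.n l635 (nat_lit 210) (nat_lit 5) (nat_lit 11))
    (@En.i (nat_lit 2204) (nat_lit 3) (nat_lit 11))
    (@En.n l17 (nat_lit 209) (nat_lit 4) (nat_lit 2))
    (@En.i (nat_lit 196) (nat_lit 5) (nat_lit 3))
    (@En.i (nat_lit 226) (nat_lit 0) (nat_lit 14))
    (@En.i (nat_lit 147) (nat_lit 7) (nat_lit 3))
    (@En.n l636 (nat_lit 156) (nat_lit 9) (nat_lit 13))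
    (@En.n l7 (nat_lit 209) (nat_lit 9) (nat_lit 2))
    (@En.n l601 (nat_lit 147) (nat_lit 11) (nat_lit 13))
    (@En.n l195 (nat_lit 2492) (nat_lit 12) (nat_lit 14))
    (@En.i (nat_lit 132) (nat_lit 7) (nat_lit 4))
    (@En.n l196 (nat_lit 208) (nat_lit 14) (nat_lit 5))
    (@En.n l197 (nat_lit 167) (nat_lit 9) (nat_lit 5))
    (@En.n l67 (nat_lit 209) (nat_lit 15) (nat_lit 2))))
  (@Cl.mk (nat_lit 0x20005000e000d0002000d0003000e00030002000b000e000b0002000e0005) (nat_lit 0xa10105008b2020) (nat_lit 16) Lb.e (@T16.mk En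
    (@En.n l2030 (nat_lit 209) (nat_lit 14) (nat_lit 5))
    (@En.n l1012 (nat_lit 211) (nat_lit 1) (nat_lit 14))
    (@En.n l7 (nat_lit 210) (nat_lit 2) (nat_lit 2))
    (@En.n l1013 (nat_lit 211) (nat_lit 3) (nat_lit 11))
    (@En.i (nat_lit 236) (nat_lit 4) (nat_lit 14))
    (@En.n l2031 (nat_lit 2200) (nat_lit 10) (nat_lit 11))
    (@En.n l11 (nat_lit 210) (nat_lit 6) (nat_lit 2))
    (@En.n l2032 (nat_lit 199) (nat_lit 7) (nat_lit 3))
    (@En.n l1998 (nat_lit 225) (nat_lit 0) (nat_lit 14))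
    (@En.n l2033 (nat_lit 148) (nat_lit 9) (nat_lit 3))
    (@En.i (nat_lit 154) (nat_lit 11) (nat_lit 13))
    (@En.n l476 (nat_lit 210) (nat_lit 11) (nat_lit 2))
    (@En.n l610 (nat_lit 148) (nat_lit 13) (nat_lit 13))
    (@En.n l2034 (nat_lit 2493) (nat_lit 1) (nat_lit 14))
    (@En.n l2035 (nat_lit 129) (nat_lit 13) (nat_lit 5))
    (@En.n l17 (nat_lit 210) (nat_lit 15) (nat_lit 2))))
  (@Cl.mk (nat_lit 0x200050005000e000d0002000d0003000e00030002000c000b000b000e0004) (nat_lit 0x8a02030081210) (nat_lit 16) Lb.e (@T16.mk En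
    (@En.n l215 (nat_lit 171) (nat_lit 10) (nat_lit 4))
    (@En.n l1353 (nat_lit 177) (nat_lit 7) (nat_lit 14))
    (@En.n l2588 (nat_lit 177) (nat_lit 8) (nat_lit 11))
    (@En.n l2589 (nat_lit 168) (nat_lit 3) (nat_lit 11))
    (@En.n l2590 (nat_lit 2202) (nat_lit 10) (nat_lit 12))
    (@En.n l28 (nat_lit 211) (nat_lit 5) (nat_lit 2))
    (@En.i (nat_lit 200) (nat_lit 6) (nat_lit 3))
    (@En.n l2589 (nat_lit 224) (nat_lit 0) (nat_lit 14))
    (@En.i (nat_lit 142) (nat_lit 8) (nat_lit 3))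
    (@En.i (nat_lit 153) (nat_lit 10) (nat_lit 13))
    (@En.n l3 (nat_lit 211) (nat_lit 10) (nat_lit 2))
    (@En.n l97 (nat_lit 142) (nat_lit 12) (nat_lit 13))
    (@En.i (nat_lit 3539) (nat_lit 13) (nat_lit 14))
    (@En.n l1295 (nat_lit 210) (nat_lit 14) (nat_lit 5))
    (@En.n l884 (nat_lit 209) (nat_lit 13) (nat_lit 5))
    (@En.n l18 (nat_lit 211) (nat_lit 15) (nat_lit 2))))
  (@Cl.mk (nat_lit 0x2000a000a000d0009000c0003000600060004000d0007000d0003000e0003) (nat_lit 0x40000000000) (nat_lit 16) Lb.e (@T16.mk En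
    (@En.n l117 (nat_lit 216) (nat_lit 15) (nat_lit 3))
    (@En.n l2030 (nat_lit 13608) (nat_lit 0) (nat_lit 14))
    (@En.n l2576 (nat_lit 219) (nat_lit 2) (nat_lit 3))
    (@En.i (nat_lit 1065) (nat_lit 0) (nat_lit 13))
    (@En.n l6138 (nat_lit 1057) (nat_lit 4) (nat_lit 7))
    (@En.n l5381 (nat_lit 6703) (nat_lit 6) (nat_lit 13))
    (@En.n l2030 (nat_lit 328) (nat_lit 6) (nat_lit 4))
    (@En.n l2139 (nat_lit 1108) (nat_lit 10) (nat_lit 6))
    (@En.n l900 (nat_lit 349) (nat_lit 12) (nat_lit 6))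
    (@En.n l6139 (nat_lit 1160) (nat_lit 9) (nat_lit 3))
    (@En.n l2030 (nat_lit 209) (nat_lit 0) (nat_lit 12))
    (@En.n l900 (nat_lit 7333) (nat_lit 12) (nat_lit 9))
    (@En.n l18 (nat_lit 213) (nat_lit 5) (nat_lit 13))
    (@En.n l61 (nat_lit 213) (nat_lit 6) (nat_lit 10))
    (@En.n l2030 (nat_lit 10548) (nat_lit 4) (nat_lit 10))
    (@En.n l11 (nat_lit 212) (nat_lit 15) (nat_lit 2))))
  (@Cl.mk (nat_lit 0x20005000d0008000d0003000e00030002000a000d0008000b0003000e0006) (nat_lit 0x8b03000) (nat_lit 16) Lb.e (@T16.mk En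
    (@En.i (nat_lit 212) (nat_lit 8) (nat_lit 6))
    (@En.n l1012 (nat_lit 214) (nat_lit 1) (nat_lit 14))
    (@En.i (nat_lit 1159) (nat_lit 2) (nat_lit 3))
    (@En.i (nat_lit 210) (nat_lit 3) (nat_lit 11))
    (@En.n l1013 (nat_lit 7335) (nat_lit 4) (nat_lit 8))
    (@En.i (nat_lit 13685) (nat_lit 5) (nat_lit 13))
    (@En.i (nat_lit 10549) (nat_lit 7) (nat_lit 10))
    (@En.n l11 (nat_lit 213) (nat_lit 7) (nat_lit 2))
    (@En.n l117 (nat_lit 215) (nat_lit 8) (nat_lit 3))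
    (@En.i (nat_lit 13607) (nat_lit 0) (nat_lit 14))
    (@En.n l2576 (nat_lit 218) (nat_lit 10) (nat_lit 3))
    (@En.i (nat_lit 1064) (nat_lit 12) (nat_lit 13))
    (@En.n l476 (nat_lit 1056) (nat_lit 13) (nat_lit 8))
    (@En.n l5381 (nat_lit 6704) (nat_lit 6) (nat_lit 13))
    (@En.n l2568 (nat_lit 329) (nat_lit 13) (nat_lit 5))
    (@En.n l17 (nat_lit 213) (nat_lit 15) (nat_lit 2))))
  (@Cl.mk (nat_lit 0x200060005000d0008000d0003000e00030002000b000a0008000b000e0005) (nat_lit 0x3c0) (nat_lit 16) Lb.e (@T16.mk En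
    (@En.n l50 (nat_lit 347) (nat_lit 9) (nat_lit 5))
    (@En.n l1643 (nat_lit 680) (nat_lit 11) (nat_lit 14))
    (@En.i (nat_lit 211) (nat_lit 2) (nat_lit 11))
    (@En.n l6414 (nat_lit 7317) (nat_lit 3) (nat_lit 8))
    (@En.n l1290 (nat_lit 537) (nat_lit 4) (nat_lit 10))
    (@En.n l947 (nat_lit 10550) (nat_lit 6) (nat_lit 11))
    (@En.n l28 (nat_lit 214) (nat_lit 6) (nat_lit 2))
    (@En.n l882 (nat_lit 217) (nat_lit 7) (nat_lit 3))
    (@En.n l947 (nat_lit 13609) (nat_lit 0) (nat_lit 14))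
    (@En.i (nat_lit 290) (nat_lit 9) (nat_lit 3))
    (@En.n l1290 (nat_lit 307) (nat_lit 11) (nat_lit 13))
    (@En.i (nat_lit 1052) (nat_lit 12) (nat_lit 8))
    (@En.n l3428 (nat_lit 7532) (nat_lit 13) (nat_lit 13))
    (@En.n l1295 (nat_lit 213) (nat_lit 14) (nat_lit 5))
    (@En.n l2101 (nat_lit 212) (nat_lit 7) (nat_lit 6))
    (@En.n l18 (nat_lit 214) (nat_lit 15) (nat_lit 2))))
  (@Cl.mk (nat_lit 0x20005000c0008000d000d000400030003000a000d0008000b0003000e0006) (nat_lit 0x10000003000) (nat_lit 16) Lb.e (@T16.mk En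
    (@En.i (nat_lit 216) (nat_lit 7) (nat_lit 6))
    (@En.n l5 (nat_lit 217) (nat_lit 1) (nat_lit 14))
    (@En.i (nat_lit 1161) (nat_lit 2) (nat_lit 3))
    (@En.n l476 (nat_lit 199) (nat_lit 3) (nat_lit 11))
    (@En.i (nat_lit 7315) (nat_lit 4) (nat_lit 8))
    (@En.i (nat_lit 13680) (nat_lit 5) (nat_lit 13))
    (@En.n l649 (nat_lit 10543) (nat_lit 7) (nat_lit 10))
    (@En.n l1483 (nat_lit 1012) (nat_lit 13) (nat_lit 3))
    (@En.n l152 (nat_lit 213) (nat_lit 8) (nat_lit 3))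
    (@En.n l1865 (nat_lit 1075) (nat_lit 0) (nat_lit 4))
    (@En.n l619 (nat_lit 213) (nat_lit 11) (nat_lit 13))
    (@En.i (nat_lit 1063) (nat_lit 12) (nat_lit 13))
    (@En.n l1769 (nat_lit 1053) (nat_lit 13) (nat_lit 8))
    (@En.i (nat_lit 6702) (nat_lit 14) (nat_lit 12))
    (@En.i (nat_lit 327) (nat_lit 13) (nat_lit 5))
    (@En.n l17 (nat_lit 215) (nat_lit 15) (nat_lit 2))))
  (@Cl.mk (nat_lit 0x30003000a000a000d0009000c0003000600060004000c0007000d000d0004) (nat_lit 0x1104000000010) (nat_lit 16) Lb.e (@T16.mk En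
    (@En.n l1865 (nat_lit 1076) (nat_lit 0) (nat_lit 4))
    (@En.n l619 (nat_lit 212) (nat_lit 3) (nat_lit 13))
    (@En.i (nat_lit 1060) (nat_lit 1) (nat_lit 13))
    (@En.n l1769 (nat_lit 1055) (nat_lit 3) (nat_lit 7))
    (@En.i (nat_lit 6659) (nat_lit 12) (nat_lit 12))
    (@En.n l2179 (nat_lit 330) (nat_lit 5) (nat_lit 4))
    (@En.n l2139 (nat_lit 1109) (nat_lit 10) (nat_lit 6))
    (@En.n l2180 (nat_lit 350) (nat_lit 12) (nat_lit 6))
    (@En.n l2181 (nat_lit 1158) (nat_lit 8) (nat_lit 3))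
    (@En.n l2182 (nat_lit 196) (nat_lit 0) (nat_lit 12))
    (@En.n l2183 (nat_lit 7332) (nat_lit 11) (nat_lit 9))
    (@En.n l18 (nat_lit 215) (nat_lit 5) (nat_lit 13))
    (@En.n l61 (nat_lit 215) (nat_lit 6) (nat_lit 10))
    (@En.n l649 (nat_lit 10541) (nat_lit 4) (nat_lit 10))
    (@En.n l2184 (nat_lit 1010) (nat_lit 13) (nat_lit 3))
    (@En.n l152 (nat_lit 212) (nat_lit 0) (nat_lit 3))))
  (@Cl.mk (nat_lit 0x200060005000c0008000d000d000400030003000b000a0008000b000e0005) (nat_lit 0x10000003c0) (nat_lit 16) Lb.e (@T16.mk En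
    (@En.n l8357 (nat_lit 348) (nat_lit 8) (nat_lit 5))
    (@En.n l1063 (nat_lit 1168) (nat_lit 4) (nat_lit 14))
    (@En.n l2705 (nat_lit 200) (nat_lit 2) (nat_lit 11))
    (@En.n l8358 (nat_lit 7316) (nat_lit 3) (nat_lit 8))
    (@En.i (nat_lit 541) (nat_lit 4) (nat_lit 10))
    (@En.n l8359 (nat_lit 10544) (nat_lit 6) (nat_lit 11))
    (@En.n l4487 (nat_lit 1011) (nat_lit 13) (nat_lit 3))
    (@En.n l2702 (nat_lit 214) (nat_lit 7) (nat_lit 3))
    (@En.n l8360 (nat_lit 1074) (nat_lit 0) (nat_lit 4))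
    (@En.n l2703 (nat_lit 214) (nat_lit 10) (nat_lit 13))
    (@En.i (nat_lit 308) (nat_lit 11) (nat_lit 13))
    (@En.n l8361 (nat_lit 1051) (nat_lit 12) (nat_lit 8))
    (@En.n l8362 (nat_lit 6309) (nat_lit 13) (nat_lit 12))
    (@En.n l699 (nat_lit 215) (nat_lit 14) (nat_lit 5))
    (@En.n l17 (nat_lit 216) (nat_lit 6) (nat_lit 6))
    (@En.n l18 (nat_lit 217) (nat_lit 15) (nat_lit 2))))
  (@Cl.mk (nat_lit 0x20005000d000c00090003000e00040002000a000d0007000b0003000e0006) (nat_lit 0x1000000003000) (nat_lit 16) Lb.e (@T16.mk En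
    (@En.i (nat_lit 219) (nat_lit 8) (nat_lit 6))
    (@En.n l21079 (nat_lit 290) (nat_lit 1) (nat_lit 14))
    (@En.i (nat_lit 301) (nat_lit 2) (nat_lit 3))
    (@En.n l1016 (nat_lit 148) (nat_lit 3) (nat_lit 11))
    (@En.n l21080 (nat_lit 6892) (nat_lit 4) (nat_lit 7))
    (@En.i (nat_lit 13684) (nat_lit 5) (nat_lit 13))
    (@En.n l614 (nat_lit 11761) (nat_lit 7) (nat_lit 10))
    (@En.n l11 (nat_lit 218) (nat_lit 7) (nat_lit 2))
    (@En.n l117 (nat_lit 292) (nat_lit 8) (nat_lit 4))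
    (@En.n l2691 (nat_lit 415) (nat_lit 10) (nat_lit 14))
    (@En.n l936 (nat_lit 213) (nat_lit 10) (nat_lit 3))
    (@En.i (nat_lit 1634) (nat_lit 12) (nat_lit 9))
    (@En.n l936 (nat_lit 215) (nat_lit 13) (nat_lit 12))
    (@En.n l3176 (nat_lit 6706) (nat_lit 6) (nat_lit 13))
    (@En.i (nat_lit 323) (nat_lit 13) (nat_lit 5))
    (@En.n l17 (nat_lit 218) (nat_lit 15) (nat_lit 2))))
  (@Cl.mk (nat_lit 0x2000a000a000d0008000c0003000600060004000d000c00080003000e0004) (nat_lit 0x11040000010000) (nat_lit 16) Lb.e (@T16.mk En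
    (@En.n l117 (nat_lit 293) (nat_lit 6) (nat_lit 4))
    (@En.n l9297 (nat_lit 411) (nat_lit 1) (nat_lit 14))
    (@En.n l936 (nat_lit 212) (nat_lit 2) (nat_lit 3))
    (@En.i (nat_lit 1631) (nat_lit 3) (nat_lit 8))
    (@En.n l936 (nat_lit 216) (nat_lit 4) (nat_lit 12))
    (@En.n l3176 (nat_lit 6707) (nat_lit 6) (nat_lit 13))
    (@En.n l901 (nat_lit 324) (nat_lit 6) (nat_lit 4))
    (@En.n l2139 (nat_lit 1110) (nat_lit 10) (nat_lit 6))
    (@En.n l9298 (nat_lit 351) (nat_lit 12) (nat_lit 6))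
    (@En.n l9299 (nat_lit 302) (nat_lit 9) (nat_lit 3))
    (@En.n l901 (nat_lit 147) (nat_lit 0) (nat_lit 12))
    (@En.n l9298 (nat_lit 7247) (nat_lit 12) (nat_lit 8))
    (@En.n l18 (nat_lit 218) (nat_lit 5) (nat_lit 13))
    (@En.n l61 (nat_lit 218) (nat_lit 6) (nat_lit 10))
    (@En.n l614 (nat_lit 11762) (nat_lit 4) (nat_lit 10))
    (@En.n l11 (nat_lit 219) (nat_lit 15) (nat_lit 2))))
  (@Cl.mk (nat_lit 0x20005000b000e000c0002000d000500040003000b000e000b0002000e0005) (nat_lit 0x1a040008c2020) (nat_lit 16) Lb.e (@T16.mk En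
    (@En.i (nat_lit 205) (nat_lit 14) (nat_lit 5))
    (@En.n l1012 (nat_lit 145) (nat_lit 1) (nat_lit 14))
    (@En.n l7 (nat_lit 220) (nat_lit 2) (nat_lit 2))
    (@En.n l1013 (nat_lit 145) (nat_lit 3) (nat_lit 11))
    (@En.i (nat_lit 233) (nat_lit 4) (nat_lit 14))
    (@En.n l287 (nat_lit 884) (nat_lit 11) (nat_lit 11))
    (@En.n l11 (nat_lit 154) (nat_lit 6) (nat_lit 3))
    (@En.n l1016 (nat_lit 148) (nat_lit 7) (nat_lit 4))
    (@En.n l524 (nat_lit 221) (nat_lit 14) (nat_lit 5))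
    (@En.n l678 (nat_lit 187) (nat_lit 10) (nat_lit 13))
    (@En.n l3 (nat_lit 220) (nat_lit 10) (nat_lit 2))
    (@En.i (nat_lit 204) (nat_lit 12) (nat_lit 12))
    (@En.i (nat_lit 197) (nat_lit 4) (nat_lit 14))
    (@En.i (nat_lit 2519) (nat_lit 14) (nat_lit 11))
    (@En.i (nat_lit 83) (nat_lit 13) (nat_lit 5))
    (@En.n l17 (nat_lit 220) (nat_lit 15) (nat_lit 2))))
  (@Cl.mk (nat_lit 0x2000500030006000b000e000b0002000e000500020005000b000a000e000d) (nat_lit 0x8c2020008122) (nat_lit 16) Lb.e (@T16.mk En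
    (@En.n l6148 (nat_lit 187) (nat_lit 11) (nat_lit 13))
    (@En.n l619 (nat_lit 220) (nat_lit 12) (nat_lit 14))
    (@En.n l625 (nat_lit 154) (nat_lit 13) (nat_lit 10))
    (@En.n l2034 (nat_lit 2518) (nat_lit 3) (nat_lit 11))
    (@En.n l2866 (nat_lit 85) (nat_lit 4) (nat_lit 5))
    (@En.n l17 (nat_lit 221) (nat_lit 5) (nat_lit 2))
    (@En.n l2030 (nat_lit 190) (nat_lit 6) (nat_lit 5))
    (@En.n l2034 (nat_lit 118) (nat_lit 8) (nat_lit 14))
    (@En.n l7 (nat_lit 221) (nat_lit 8) (nat_lit 2))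
    (@En.n l5050 (nat_lit 118) (nat_lit 10) (nat_lit 11))
    (@En.i (nat_lit 264) (nat_lit 4) (nat_lit 14))
    (@En.n l1643 (nat_lit 2266) (nat_lit 12) (nat_lit 11))
    (@En.i (nat_lit 227) (nat_lit 12) (nat_lit 6))
    (@En.n l678 (nat_lit 187) (nat_lit 7) (nat_lit 3))
    (@En.n l2034 (nat_lit 11) (nat_lit 0) (nat_lit 5))
    (@En.n l107 (nat_lit 221) (nat_lit 15) (nat_lit 2))))
  (@Cl.mk (nat_lit 0x200050005000b000e000b0002000e000500020005000c000b000b000e0004) (nat_lit 0x8b101000892c0) (nat_lit 16) Lb.e (@T16.mk En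
    (@En.n l3333 (nat_lit 204) (nat_lit 9) (nat_lit 4))
    (@En.n l3334 (nat_lit 223) (nat_lit 11) (nat_lit 14))
    (@En.n l3335 (nat_lit 223) (nat_lit 12) (nat_lit 11))
    (@En.n l3336 (nat_lit 221) (nat_lit 3) (nat_lit 11))
    (@En.n l1998 (nat_lit 2175) (nat_lit 14) (nat_lit 12))
    (@En.n l3337 (nat_lit 160) (nat_lit 5) (nat_lit 5))
    (@En.n l50 (nat_lit 222) (nat_lit 6) (nat_lit 2))
    (@En.n l3338 (nat_lit 202) (nat_lit 14) (nat_lit 5))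
    (@En.n l601 (nat_lit 17) (nat_lit 1) (nat_lit 14))
    (@En.n l11 (nat_lit 222) (nat_lit 9) (nat_lit 2))
    (@En.n l3339 (nat_lit 17) (nat_lit 3) (nat_lit 11))
    (@En.n l3336 (nat_lit 224) (nat_lit 4) (nat_lit 14))
    (@En.i (nat_lit 772) (nat_lit 13) (nat_lit 11))
    (@En.n l725 (nat_lit 11) (nat_lit 6) (nat_lit 5))
    (@En.n l3340 (nat_lit 203) (nat_lit 13) (nat_lit 5))
    (@En.n l3 (nat_lit 222) (nat_lit 15) (nat_lit 2))))
  (@Cl.mk (nat_lit 0x20005000d000b000e00030002000e00050002000b000e000b0002000e0005) (nat_lit 0xb1b002009c2020) (nat_lit 16) Lb.e (@T16.mk En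
    (@En.n l901 (nat_lit 146) (nat_lit 14) (nat_lit 5))
    (@En.n l1012 (nat_lit 144) (nat_lit 1) (nat_lit 14))
    (@En.n l7 (nat_lit 223) (nat_lit 2) (nat_lit 2))
    (@En.n l1013 (nat_lit 144) (nat_lit 3) (nat_lit 11))
    (@En.i (nat_lit 231) (nat_lit 4) (nat_lit 14))
    (@En.n l1014 (nat_lit 2425) (nat_lit 12) (nat_lit 11))
    (@En.n l11 (nat_lit 223) (nat_lit 6) (nat_lit 2))
    (@En.n l1015 (nat_lit 222) (nat_lit 14) (nat_lit 5))
    (@En.n l1016 (nat_lit 181) (nat_lit 1) (nat_lit 14))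
    (@En.n l3 (nat_lit 223) (nat_lit 9) (nat_lit 2))
    (@En.n l1017 (nat_lit 148) (nat_lit 10) (nat_lit 3))
    (@En.n l1018 (nat_lit 14117) (nat_lit 4) (nat_lit 14))
    (@En.i (nat_lit 220) (nat_lit 13) (nat_lit 11))
    (@En.n l1019 (nat_lit 2177) (nat_lit 7) (nat_lit 13))
    (@En.n l1016 (nat_lit 178) (nat_lit 13) (nat_lit 5))
    (@En.n l17 (nat_lit 223) (nat_lit 15) (nat_lit 2))))
noncomputable def a14 : T16 Cl := @T16.mk Cl
  (@Cl.mk (nat_lit 0x200020006000c000b000b000e0004000200050005000e000a0002000e000e) (nat_lit 0xa0012) (nat_lit 16) Lb.e (@T16.mk En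
    (@En.n l5 (nat_lit 224) (nat_lit 1) (nat_lit 14))
    (@En.n l5599 (nat_lit 118) (nat_lit 1) (nat_lit 14))
    (@En.n l7 (nat_lit 224) (nat_lit 2) (nat_lit 2))
    (@En.n l7616 (nat_lit 228) (nat_lit 3) (nat_lit 10))
    (@En.n l5599 (nat_lit 13014) (nat_lit 5) (nat_lit 14))
    (@En.n l159 (nat_lit 225) (nat_lit 5) (nat_lit 5))
    (@En.n l6050 (nat_lit 226) (nat_lit 6) (nat_lit 5))
    (@En.n l107 (nat_lit 224) (nat_lit 7) (nat_lit 2))
    (@En.n l1910 (nat_lit 230) (nat_lit 8) (nat_lit 4))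
    (@En.n l619 (nat_lit 231) (nat_lit 10) (nat_lit 14))
    (@En.n l7617 (nat_lit 231) (nat_lit 11) (nat_lit 11))
    (@En.i (nat_lit 264) (nat_lit 12) (nat_lit 11))
    (@En.n l7618 (nat_lit 13182) (nat_lit 13) (nat_lit 12))
    (@En.n l2568 (nat_lit 121) (nat_lit 5) (nat_lit 6))
    (@En.n l17 (nat_lit 224) (nat_lit 14) (nat_lit 2))
    (@En.n l18 (nat_lit 224) (nat_lit 15) (nat_lit 2))))
  (@Cl.mk (nat_lit 0x200020006000b000e000b0002000e000500020005000e000a0002000e000e) (nat_lit 0x1101000c0034) (nat_lit 16) Lb.e (@T16.mk En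
    (@En.n l5 (nat_lit 225) (nat_lit 1) (nat_lit 14))
    (@En.n l1998 (nat_lit 221) (nat_lit 1) (nat_lit 14))
    (@En.n l7 (nat_lit 225) (nat_lit 2) (nat_lit 2))
    (@En.n l5925 (nat_lit 227) (nat_lit 3) (nat_lit 10))
    (@En.n l1889 (nat_lit 13755) (nat_lit 5) (nat_lit 14))
    (@En.n l1638 (nat_lit 267) (nat_lit 5) (nat_lit 5))
    (@En.n l11 (nat_lit 225) (nat_lit 6) (nat_lit 2))
    (@En.n l1758 (nat_lit 226) (nat_lit 7) (nat_lit 5))
    (@En.n l180 (nat_lit 224) (nat_lit 9) (nat_lit 14))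
    (@En.n l476 (nat_lit 225) (nat_lit 9) (nat_lit 2))
    (@En.n l625 (nat_lit 224) (nat_lit 11) (nat_lit 11))
    (@En.i (nat_lit 27) (nat_lit 4) (nat_lit 14))
    (@En.i (nat_lit 13185) (nat_lit 13) (nat_lit 11))
    (@En.n l2568 (nat_lit 185) (nat_lit 6) (nat_lit 6))
    (@En.n l17 (nat_lit 225) (nat_lit 14) (nat_lit 2))
    (@En.n l18 (nat_lit 225) (nat_lit 15) (nat_lit 2))))
  (@Cl.mk (nat_lit 0x200020006000b000b000e000c0002000500050004000e000a0002000e000e) (nat_lit 0x1200000b0012) (nat_lit 16) Lb.e (@T16.mk En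
    (@En.n l5 (nat_lit 226) (nat_lit 1) (nat_lit 14))
    (@En.i (nat_lit 190) (nat_lit 1) (nat_lit 14))
    (@En.n l7 (nat_lit 226) (nat_lit 2) (nat_lit 2))
    (@En.i (nat_lit 229) (nat_lit 3) (nat_lit 10))
    (@En.n l255 (nat_lit 13749) (nat_lit 5) (nat_lit 14))
    (@En.i (nat_lit 251) (nat_lit 5) (nat_lit 4))
    (@En.n l891 (nat_lit 232) (nat_lit 6) (nat_lit 5))
    (@En.n l197 (nat_lit 233) (nat_lit 7) (nat_lit 5))
    (@En.n l67 (nat_lit 226) (nat_lit 8) (nat_lit 2))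
    (@En.n l68 (nat_lit 230) (nat_lit 10) (nat_lit 12))
    (@En.n l1904 (nat_lit 225) (nat_lit 11) (nat_lit 14))
    (@En.n l2098 (nat_lit 225) (nat_lit 12) (nat_lit 11))
    (@En.i (nat_lit 13184) (nat_lit 13) (nat_lit 11))
    (@En.i (nat_lit 184) (nat_lit 4) (nat_lit 6))
    (@En.n l17 (nat_lit 226) (nat_lit 14) (nat_lit 2))
    (@En.n l18 (nat_lit 226) (nat_lit 15) (nat_lit 2))))
  (@Cl.mk (nat_lit 0x2000200060006000b000e000b0002000e000500020005000a000a000e000e) (nat_lit 0x80ab) (nat_lit 16) Lb.e (@T16.mk En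
    (@En.n l97 (nat_lit 227) (nat_lit 1) (nat_lit 14))
    (@En.i (nat_lit 154) (nat_lit 12) (nat_lit 14))
    (@En.n l625 (nat_lit 276) (nat_lit 2) (nat_lit 10))
    (@En.n l2034 (nat_lit 13917) (nat_lit 3) (nat_lit 10))
    (@En.n l2031 (nat_lit 248) (nat_lit 4) (nat_lit 5))
    (@En.n l17 (nat_lit 227) (nat_lit 5) (nat_lit 2))
    (@En.n l902 (nat_lit 229) (nat_lit 6) (nat_lit 5))
    (@En.n l2911 (nat_lit 228) (nat_lit 8) (nat_lit 14))
    (@En.n l7 (nat_lit 227) (nat_lit 8) (nat_lit 2))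
    (@En.n l9025 (nat_lit 228) (nat_lit 10) (nat_lit 11))
    (@En.i (nat_lit 269) (nat_lit 11) (nat_lit 14))
    (@En.n l2031 (nat_lit 13940) (nat_lit 12) (nat_lit 11))
    (@En.n l12534 (nat_lit 225) (nat_lit 13) (nat_lit 6))
    (@En.n l2036 (nat_lit 158) (nat_lit 7) (nat_lit 6))
    (@En.n l107 (nat_lit 227) (nat_lit 14) (nat_lit 2))
    (@En.n l3 (nat_lit 227) (nat_lit 15) (nat_lit 2))))
  (@Cl.mk (nat_lit 0x2000200060006000c000b000b000e0004000200050005000a000a000e000e) (nat_lit 0x90c000080bc) (nat_lit 16) Lb.e (@T16.mk En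
    (@En.n l5 (nat_lit 228) (nat_lit 1) (nat_lit 14))
    (@En.n l3082 (nat_lit 153) (nat_lit 11) (nat_lit 14))
    (@En.n l12009 (nat_lit 277) (nat_lit 2) (nat_lit 10))
    (@En.i (nat_lit 13806) (nat_lit 3) (nat_lit 10))
    (@En.n l6213 (nat_lit 227) (nat_lit 4) (nat_lit 5))
    (@En.n l7724 (nat_lit 229) (nat_lit 5) (nat_lit 5))
    (@En.n l28 (nat_lit 228) (nat_lit 6) (nat_lit 2))
    (@En.n l13001 (nat_lit 240) (nat_lit 7) (nat_lit 4))
    (@En.n l18525 (nat_lit 241) (nat_lit 9) (nat_lit 14))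
    (@En.n l18526 (nat_lit 241) (nat_lit 10) (nat_lit 11))
    (@En.n l12672 (nat_lit 262) (nat_lit 11) (nat_lit 11))
    (@En.i (nat_lit 13910) (nat_lit 12) (nat_lit 12))
    (@En.n l18527 (nat_lit 224) (nat_lit 13) (nat_lit 6))
    (@En.i (nat_lit 160) (nat_lit 6) (nat_lit 6))
    (@En.n l17 (nat_lit 228) (nat_lit 14) (nat_lit 2))
    (@En.n l18 (nat_lit 228) (nat_lit 15) (nat_lit 2))))
  (@Cl.mk (nat_lit 0x2000200060006000b000b000e000c0002000500050004000a000a000e000e) (nat_lit 0x110000080ab) (nat_lit 16) Lb.e (@T16.mk En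
    (@En.n l5 (nat_lit 229) (nat_lit 1) (nat_lit 14))
    (@En.n l2915 (nat_lit 156) (nat_lit 10) (nat_lit 14))
    (@En.n l6121 (nat_lit 261) (nat_lit 2) (nat_lit 10))
    (@En.n l6122 (nat_lit 13573) (nat_lit 3) (nat_lit 10))
    (@En.i (nat_lit 247) (nat_lit 4) (nat_lit 4))
    (@En.n l891 (nat_lit 242) (nat_lit 5) (nat_lit 5))
    (@En.n l197 (nat_lit 243) (nat_lit 6) (nat_lit 5))
    (@En.n l67 (nat_lit 229) (nat_lit 7) (nat_lit 2))
    (@En.n l68 (nat_lit 240) (nat_lit 9) (nat_lit 12))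
    (@En.n l6123 (nat_lit 227) (nat_lit 10) (nat_lit 14))
    (@En.n l6124 (nat_lit 227) (nat_lit 11) (nat_lit 11))
    (@En.n l1836 (nat_lit 13726) (nat_lit 12) (nat_lit 11))
    (@En.n l77 (nat_lit 226) (nat_lit 13) (nat_lit 6))
    (@En.i (nat_lit 159) (nat_lit 5) (nat_lit 6))
    (@En.n l17 (nat_lit 229) (nat_lit 14) (nat_lit 2))
    (@En.n l18 (nat_lit 229) (nat_lit 15) (nat_lit 2))))
  (@Cl.mk (nat_lit 0x200020006000c000c000c000c0004000400040004000e000a0002000e000e) (nat_lit 0x81a00000b0012) (nat_lit 16) Lb.e (@T16.mk En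
    (@En.n l5 (nat_lit 230) (nat_lit 1) (nat_lit 14))
    (@En.i (nat_lit 113) (nat_lit 1) (nat_lit 14))
    (@En.n l7 (nat_lit 230) (nat_lit 2) (nat_lit 2))
    (@En.i (nat_lit 240) (nat_lit 3) (nat_lit 10))
    (@En.n l227 (nat_lit 13012) (nat_lit 5) (nat_lit 14))
    (@En.n l11 (nat_lit 226) (nat_lit 5) (nat_lit 4))
    (@En.n l152 (nat_lit 233) (nat_lit 6) (nat_lit 4))
    (@En.n l839 (nat_lit 235) (nat_lit 7) (nat_lit 4))
    (@En.i (nat_lit 263) (nat_lit 8) (nat_lit 4))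
    (@En.n l619 (nat_lit 234) (nat_lit 10) (nat_lit 12))
    (@En.n l1596 (nat_lit 268) (nat_lit 11) (nat_lit 12))
    (@En.n l5721 (nat_lit 224) (nat_lit 12) (nat_lit 12))
    (@En.i (nat_lit 13175) (nat_lit 13) (nat_lit 12))
    (@En.i (nat_lit 99) (nat_lit 14) (nat_lit 6))
    (@En.n l17 (nat_lit 230) (nat_lit 14) (nat_lit 2))
    (@En.n l18 (nat_lit 230) (nat_lit 15) (nat_lit 2))))
  (@Cl.mk (nat_lit 0x200020006000d000b000e00030002000e00050002000e000a0002000e000e) (nat_lit 0x9c00000b0012) (nat_lit 16) Lb.e (@T16.mk En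
    (@En.n l5 (nat_lit 231) (nat_lit 1) (nat_lit 14))
    (@En.i (nat_lit 116) (nat_lit 1) (nat_lit 14))
    (@En.n l7 (nat_lit 231) (nat_lit 2) (nat_lit 2))
    (@En.i (nat_lit 241) (nat_lit 3) (nat_lit 10))
    (@En.n l1014 (nat_lit 13699) (nat_lit 5) (nat_lit 14))
    (@En.n l11 (nat_lit 231) (nat_lit 5) (nat_lit 2))
    (@En.n l524 (nat_lit 224) (nat_lit 6) (nat_lit 5))
    (@En.n l2557 (nat_lit 268) (nat_lit 8) (nat_lit 14))
    (@En.n l3 (nat_lit 231) (nat_lit 8) (nat_lit 2))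
    (@En.n l1098 (nat_lit 234) (nat_lit 9) (nat_lit 3))
    (@En.n l2558 (nat_lit 14088) (nat_lit 11) (nat_lit 14))
    (@En.i (nat_lit 233) (nat_lit 12) (nat_lit 11))
    (@En.n l2557 (nat_lit 13191) (nat_lit 13) (nat_lit 13))
    (@En.i (nat_lit 120) (nat_lit 14) (nat_lit 6))
    (@En.n l17 (nat_lit 231) (nat_lit 14) (nat_lit 2))
    (@En.n l18 (nat_lit 231) (nat_lit 15) (nat_lit 2))))
  (@Cl.mk (nat_lit 0x200020006000e000b0002000e000d000200050003000e000a0002000e000e) (nat_lit 0x91030000a0034) (nat_lit 16) Lb.e (@T16.mk En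
    (@En.n l5 (nat_lit 232) (nat_lit 1) (nat_lit 14))
    (@En.i (nat_lit 191) (nat_lit 1) (nat_lit 14))
    (@En.n l7 (nat_lit 232) (nat_lit 2) (nat_lit 2))
    (@En.i (nat_lit 242) (nat_lit 3) (nat_lit 10))
    (@En.n l287 (nat_lit 13754) (nat_lit 5) (nat_lit 14))
    (@En.n l11 (nat_lit 235) (nat_lit 5) (nat_lit 3))
    (@En.n l288 (nat_lit 231) (nat_lit 6) (nat_lit 5))
    (@En.n l207 (nat_lit 232) (nat_lit 7) (nat_lit 2))
    (@En.n l198 (nat_lit 235) (nat_lit 9) (nat_lit 13))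
    (@En.n l281 (nat_lit 226) (nat_lit 10) (nat_lit 14))
    (@En.n l3 (nat_lit 232) (nat_lit 10) (nat_lit 2))
    (@En.n l282 (nat_lit 226) (nat_lit 12) (nat_lit 11))
    (@En.i (nat_lit 13240) (nat_lit 13) (nat_lit 14))
    (@En.n l766 (nat_lit 188) (nat_lit 5) (nat_lit 6))
    (@En.n l17 (nat_lit 232) (nat_lit 14) (nat_lit 2))
    (@En.n l18 (nat_lit 232) (nat_lit 15) (nat_lit 2))))
  (@Cl.mk (nat_lit 0x200020006000b000e000c0002000d000500040003000e000a0002000e000e) (nat_lit 0x8a200000b0023) (nat_lit 16) Lb.e (@T16.mk En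
    (@En.n l5 (nat_lit 233) (nat_lit 1) (nat_lit 14))
    (@En.i (nat_lit 109) (nat_lit 1) (nat_lit 14))
    (@En.n l7 (nat_lit 233) (nat_lit 2) (nat_lit 2))
    (@En.i (nat_lit 243) (nat_lit 3) (nat_lit 10))
    (@En.n l287 (nat_lit 13015) (nat_lit 5) (nat_lit 14))
    (@En.n l11 (nat_lit 266) (nat_lit 5) (nat_lit 3))
    (@En.i (nat_lit 234) (nat_lit 6) (nat_lit 4))
    (@En.n l524 (nat_lit 264) (nat_lit 7) (nat_lit 5))
    (@En.n l3478 (nat_lit 263) (nat_lit 9) (nat_lit 13))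
    (@En.n l3 (nat_lit 233) (nat_lit 9) (nat_lit 2))
    (@En.i (nat_lit 230) (nat_lit 11) (nat_lit 12))
    (@En.i (nat_lit 232) (nat_lit 12) (nat_lit 14))
    (@En.i (nat_lit 13171) (nat_lit 13) (nat_lit 11))
    (@En.i (nat_lit 111) (nat_lit 14) (nat_lit 6))
    (@En.n l17 (nat_lit 233) (nat_lit 14) (nat_lit 2))
    (@En.n l18 (nat_lit 233) (nat_lit 15) (nat_lit 2))))
  (@Cl.mk (nat_lit 0x200020006000d000d000c00030003000e00040002000e000a0002000e000e) (nat_lit 0x81a00000b0012) (nat_lit 16) Lb.e (@T16.mk En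
    (@En.n l5 (nat_lit 234) (nat_lit 1) (nat_lit 14))
    (@En.n l2004 (nat_lit 115) (nat_lit 1) (nat_lit 14))
    (@En.n l7 (nat_lit 234) (nat_lit 2) (nat_lit 2))
    (@En.n l7619 (nat_lit 238) (nat_lit 3) (nat_lit 10))
    (@En.n l1016 (nat_lit 13696) (nat_lit 5) (nat_lit 14))
    (@En.n l11 (nat_lit 234) (nat_lit 5) (nat_lit 2))
    (@En.n l117 (nat_lit 230) (nat_lit 6) (nat_lit 4))
    (@En.n l1016 (nat_lit 265) (nat_lit 8) (nat_lit 14))
    (@En.n l936 (nat_lit 236) (nat_lit 8) (nat_lit 3))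
    (@En.i (nat_lit 231) (nat_lit 9) (nat_lit 3))
    (@En.n l839 (nat_lit 235) (nat_lit 11) (nat_lit 12))
    (@En.n l288 (nat_lit 231) (nat_lit 12) (nat_lit 13))
    (@En.i (nat_lit 13183) (nat_lit 13) (nat_lit 13))
    (@En.n l2238 (nat_lit 122) (nat_lit 14) (nat_lit 6))
    (@En.n l17 (nat_lit 234) (nat_lit 14) (nat_lit 2))
    (@En.n l18 (nat_lit 234) (nat_lit 15) (nat_lit 2))))
  (@Cl.mk (nat_lit 0x200020006000e000c0002000d000d000400030003000e000a0002000e000e) (nat_lit 0x890b0000a0023) (nat_lit 16) Lb.e (@T16.mk En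
    (@En.n l5 (nat_lit 235) (nat_lit 1) (nat_lit 14))
    (@En.i (nat_lit 170) (nat_lit 1) (nat_lit 14))
    (@En.n l7 (nat_lit 235) (nat_lit 2) (nat_lit 2))
    (@En.i (nat_lit 239) (nat_lit 3) (nat_lit 10))
    (@En.i (nat_lit 13899) (nat_lit 5) (nat_lit 14))
    (@En.i (nat_lit 232) (nat_lit 5) (nat_lit 3))
    (@En.n l624 (nat_lit 236) (nat_lit 6) (nat_lit 3))
    (@En.n l117 (nat_lit 268) (nat_lit 7) (nat_lit 4))
    (@En.n l625 (nat_lit 236) (nat_lit 9) (nat_lit 13))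
    (@En.n l253 (nat_lit 251) (nat_lit 10) (nat_lit 13))
    (@En.n l3 (nat_lit 235) (nat_lit 10) (nat_lit 2))
    (@En.n l187 (nat_lit 230) (nat_lit 12) (nat_lit 12))
    (@En.i (nat_lit 13235) (nat_lit 13) (nat_lit 14))
    (@En.n l766 (nat_lit 124) (nat_lit 14) (nat_lit 6))
    (@En.n l17 (nat_lit 235) (nat_lit 14) (nat_lit 2))
    (@En.n l18 (nat_lit 235) (nat_lit 15) (nat_lit 2))))
  (@Cl.mk (nat_lit 0x200020006000e000d0002000d0003000e00030002000e000a0002000e000e) (nat_lit 0x890b0100a00bc) (nat_lit 16) Lb.e (@T16.mk En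
    (@En.n l5 (nat_lit 236) (nat_lit 1) (nat_lit 14))
    (@En.n l1998 (nat_lit 168) (nat_lit 1) (nat_lit 14))
    (@En.n l7 (nat_lit 236) (nat_lit 2) (nat_lit 2))
    (@En.n l1599 (nat_lit 237) (nat_lit 3) (nat_lit 10))
    (@En.n l2031 (nat_lit 13697) (nat_lit 5) (nat_lit 14))
    (@En.n l11 (nat_lit 236) (nat_lit 5) (nat_lit 2))
    (@En.n l2032 (nat_lit 235) (nat_lit 6) (nat_lit 3))
    (@En.i (nat_lit 27) (nat_lit 0) (nat_lit 14))
    (@En.n l2576 (nat_lit 234) (nat_lit 8) (nat_lit 3))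
    (@En.i (nat_lit 266) (nat_lit 10) (nat_lit 13))
    (@En.n l476 (nat_lit 236) (nat_lit 10) (nat_lit 2))
    (@En.n l3549 (nat_lit 234) (nat_lit 12) (nat_lit 13))
    (@En.i (nat_lit 13242) (nat_lit 13) (nat_lit 14))
    (@En.n l2568 (nat_lit 125) (nat_lit 14) (nat_lit 6))
    (@En.n l17 (nat_lit 236) (nat_lit 14) (nat_lit 2))
    (@En.n l18 (nat_lit 236) (nat_lit 15) (nat_lit 2))))
  (@Cl.mk (nat_lit 0x2000200060006000e000d0002000d0003000e00030002000a000a000e000e) (nat_lit 0x80bc) (nat_lit 16) Lb.e (@T16.mk En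
    (@En.n l5 (nat_lit 237) (nat_lit 1) (nat_lit 14))
    (@En.n l1997 (nat_lit 166) (nat_lit 13) (nat_lit 14))
    (@En.n l5880 (nat_lit 282) (nat_lit 2) (nat_lit 10))
    (@En.n l1998 (nat_lit 13812) (nat_lit 3) (nat_lit 10))
    (@En.n l28 (nat_lit 237) (nat_lit 4) (nat_lit 2))
    (@En.n l164 (nat_lit 239) (nat_lit 5) (nat_lit 3))
    (@En.n l1997 (nat_lit 269) (nat_lit 7) (nat_lit 14))
    (@En.i (nat_lit 238) (nat_lit 7) (nat_lit 3))
    (@En.n l513 (nat_lit 249) (nat_lit 9) (nat_lit 13))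
    (@En.n l3 (nat_lit 237) (nat_lit 9) (nat_lit 2))
    (@En.n l97 (nat_lit 238) (nat_lit 11) (nat_lit 13))
    (@En.i (nat_lit 13919) (nat_lit 12) (nat_lit 14))
    (@En.n l1504 (nat_lit 236) (nat_lit 13) (nat_lit 6))
    (@En.n l387 (nat_lit 129) (nat_lit 14) (nat_lit 6))
    (@En.n l17 (nat_lit 237) (nat_lit 14) (nat_lit 2))
    (@En.n l18 (nat_lit 237) (nat_lit 15) (nat_lit 2))))
  (@Cl.mk (nat_lit 0x2000200060006000d000d000c00030003000e00040002000a000a000e000e) (nat_lit 0xb000020080ab) (nat_lit 16) Lb.e (@T16.mk En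
    (@En.n l5 (nat_lit 238) (nat_lit 1) (nat_lit 14))
    (@En.n l1997 (nat_lit 164) (nat_lit 13) (nat_lit 14))
    (@En.n l7725 (nat_lit 279) (nat_lit 2) (nat_lit 10))
    (@En.n l1998 (nat_lit 13809) (nat_lit 3) (nat_lit 10))
    (@En.n l28 (nat_lit 238) (nat_lit 4) (nat_lit 2))
    (@En.n l12976 (nat_lit 240) (nat_lit 5) (nat_lit 4))
    (@En.n l2865 (nat_lit 246) (nat_lit 7) (nat_lit 14))
    (@En.n l107 (nat_lit 237) (nat_lit 7) (nat_lit 3))
    (@En.n l12978 (nat_lit 241) (nat_lit 8) (nat_lit 3))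
    (@En.n l1439 (nat_lit 239) (nat_lit 10) (nat_lit 12))
    (@En.n l12008 (nat_lit 241) (nat_lit 11) (nat_lit 13))
    (@En.i (nat_lit 13915) (nat_lit 12) (nat_lit 13))
    (@En.n l12977 (nat_lit 234) (nat_lit 13) (nat_lit 6))
    (@En.n l387 (nat_lit 133) (nat_lit 14) (nat_lit 6))
    (@En.n l17 (nat_lit 238) (nat_lit 14) (nat_lit 2))
    (@En.n l18 (nat_lit 238) (nat_lit 15) (nat_lit 2))))
  (@Cl.mk (nat_lit 0x2000200060006000e000c0002000d000d000400030003000a000a000e000e) (nat_lit 0xaa0010008023) (nat_lit 16) Lb.e (@T16.mk En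
    (@En.n l5 (nat_lit 239) (nat_lit 1) (nat_lit 14))
    (@En.n l2204 (nat_lit 165) (nat_lit 1) (nat_lit 14))
    (@En.n l5885 (nat_lit 281) (nat_lit 2) (nat_lit 10))
    (@En.n l5886 (nat_lit 13811) (nat_lit 3) (nat_lit 10))
    (@En.i (nat_lit 242) (nat_lit 4) (nat_lit 3))
    (@En.n l536 (nat_lit 237) (nat_lit 5) (nat_lit 3))
    (@En.n l5886 (nat_lit 244) (nat_lit 6) (nat_lit 4))
    (@En.n l172 (nat_lit 237) (nat_lit 8) (nat_lit 13))
    (@En.n l253 (nat_lit 247) (nat_lit 9) (nat_lit 13))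
    (@En.n l3 (nat_lit 239) (nat_lit 9) (nat_lit 2))
    (@En.n l187 (nat_lit 240) (nat_lit 11) (nat_lit 12))
    (@En.n l343 (nat_lit 13920) (nat_lit 12) (nat_lit 14))
    (@En.n l77 (nat_lit 235) (nat_lit 13) (nat_lit 6))
    (@En.n l766 (nat_lit 131) (nat_lit 14) (nat_lit 6))
    (@En.n l17 (nat_lit 239) (nat_lit 14) (nat_lit 2))
    (@En.n l18 (nat_lit 239) (nat_lit 15) (nat_lit 2))))
noncomputable def a15 : T16 Cl := @T16.mk Cl
  (@Cl.mk (nat_lit 0x2000200060006000c000c000c000c0004000400040004000a000a000e000e) (nat_lit 0x91a1000080bc) (nat_lit 16) Lb.e (@T16.mk En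
    (@En.n l5 (nat_lit 240) (nat_lit 1) (nat_lit 14))
    (@En.n l6247 (nat_lit 150) (nat_lit 1) (nat_lit 14))
    (@En.n l14108 (nat_lit 260) (nat_lit 2) (nat_lit 10))
    (@En.n l6247 (nat_lit 13807) (nat_lit 3) (nat_lit 10))
    (@En.n l11 (nat_lit 229) (nat_lit 4) (nat_lit 4))
    (@En.n l152 (nat_lit 243) (nat_lit 5) (nat_lit 4))
    (@En.n l839 (nat_lit 239) (nat_lit 6) (nat_lit 4))
    (@En.n l6247 (nat_lit 245) (nat_lit 7) (nat_lit 4))
    (@En.n l4977 (nat_lit 238) (nat_lit 9) (nat_lit 12))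
    (@En.n l14109 (nat_lit 244) (nat_lit 10) (nat_lit 12))
    (@En.n l12983 (nat_lit 228) (nat_lit 11) (nat_lit 12))
    (@En.n l4411 (nat_lit 13725) (nat_lit 12) (nat_lit 12))
    (@En.n l77 (nat_lit 230) (nat_lit 13) (nat_lit 6))
    (@En.n l890 (nat_lit 102) (nat_lit 14) (nat_lit 6))
    (@En.n l17 (nat_lit 240) (nat_lit 14) (nat_lit 2))
    (@En.n l18 (nat_lit 240) (nat_lit 15) (nat_lit 2))))
  (@Cl.mk (nat_lit 0x2000200060006000d000b000e00030002000e00050002000a000a000e000e) (nat_lit 0xb9b0050080bc) (nat_lit 16) Lb.e (@T16.mk En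
    (@En.n l5 (nat_lit 241) (nat_lit 1) (nat_lit 14))
    (@En.n l3288 (nat_lit 152) (nat_lit 13) (nat_lit 14))
    (@En.n l7598 (nat_lit 278) (nat_lit 2) (nat_lit 10))
    (@En.n l7599 (nat_lit 13808) (nat_lit 3) (nat_lit 10))
    (@En.n l11 (nat_lit 241) (nat_lit 4) (nat_lit 2))
    (@En.n l7600 (nat_lit 228) (nat_lit 5) (nat_lit 5))
    (@En.n l2619 (nat_lit 244) (nat_lit 7) (nat_lit 14))
    (@En.n l3 (nat_lit 241) (nat_lit 7) (nat_lit 2))
    (@En.n l7601 (nat_lit 238) (nat_lit 8) (nat_lit 3))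
    (@En.n l7602 (nat_lit 14086) (nat_lit 10) (nat_lit 14))
    (@En.i (nat_lit 243) (nat_lit 11) (nat_lit 11))
    (@En.n l7599 (nat_lit 13914) (nat_lit 12) (nat_lit 13))
    (@En.n l77 (nat_lit 231) (nat_lit 13) (nat_lit 6))
    (@En.n l2619 (nat_lit 178) (nat_lit 14) (nat_lit 6))
    (@En.n l17 (nat_lit 241) (nat_lit 14) (nat_lit 2))
    (@En.n l18 (nat_lit 241) (nat_lit 15) (nat_lit 2))))
  (@Cl.mk (nat_lit 0x2000200060006000e000b0002000e000d000200050003000a000a000e000e) (nat_lit 0x810210008012) (nat_lit 16) Lb.e (@T16.mk En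
    (@En.n l5 (nat_lit 242) (nat_lit 1) (nat_lit 14))
    (@En.n l989 (nat_lit 163) (nat_lit 11) (nat_lit 14))
    (@En.n l2553 (nat_lit 280) (nat_lit 2) (nat_lit 10))
    (@En.n l2554 (nat_lit 13927) (nat_lit 3) (nat_lit 10))
    (@En.n l11 (nat_lit 239) (nat_lit 4) (nat_lit 3))
    (@En.n l288 (nat_lit 241) (nat_lit 5) (nat_lit 5))
    (@En.n l207 (nat_lit 242) (nat_lit 6) (nat_lit 2))
    (@En.n l198 (nat_lit 239) (nat_lit 8) (nat_lit 13))
    (@En.n l281 (nat_lit 229) (nat_lit 9) (nat_lit 14))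
    (@En.n l3 (nat_lit 242) (nat_lit 9) (nat_lit 2))
    (@En.n l282 (nat_lit 229) (nat_lit 11) (nat_lit 11))
    (@En.n l343 (nat_lit 13921) (nat_lit 12) (nat_lit 14))
    (@En.n l77 (nat_lit 232) (nat_lit 13) (nat_lit 6))
    (@En.n l989 (nat_lit 192) (nat_lit 6) (nat_lit 6))
    (@En.n l17 (nat_lit 242) (nat_lit 14) (nat_lit 2))
    (@En.n l18 (nat_lit 242) (nat_lit 15) (nat_lit 2))))
  (@Cl.mk (nat_lit 0x2000200060006000b000e000c0002000d000500040003000a000a000e000e) (nat_lit 0x892030008012) (nat_lit 16) Lb.e (@T16.mk En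
    (@En.n l5 (nat_lit 243) (nat_lit 1) (nat_lit 14))
    (@En.n l8508 (nat_lit 93) (nat_lit 1) (nat_lit 14))
    (@En.n l15192 (nat_lit 258) (nat_lit 2) (nat_lit 10))
    (@En.n l2554 (nat_lit 13805) (nat_lit 3) (nat_lit 10))
    (@En.n l11 (nat_lit 249) (nat_lit 4) (nat_lit 3))
    (@En.n l7619 (nat_lit 238) (nat_lit 5) (nat_lit 4))
    (@En.n l1874 (nat_lit 262) (nat_lit 6) (nat_lit 5))
    (@En.n l8508 (nat_lit 245) (nat_lit 8) (nat_lit 13))
    (@En.n l3 (nat_lit 243) (nat_lit 8) (nat_lit 2))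
    (@En.i (nat_lit 240) (nat_lit 10) (nat_lit 12))
    (@En.i (nat_lit 242) (nat_lit 11) (nat_lit 14))
    (@En.n l4411 (nat_lit 13727) (nat_lit 12) (nat_lit 11))
    (@En.n l77 (nat_lit 233) (nat_lit 13) (nat_lit 6))
    (@En.n l890 (nat_lit 83) (nat_lit 14) (nat_lit 6))
    (@En.n l17 (nat_lit 243) (nat_lit 14) (nat_lit 2))
    (@En.n l18 (nat_lit 243) (nat_lit 15) (nat_lit 2))))
  (@Cl.mk (nat_lit 0x2000200060006000d000c000b0003000e000400020005000a000a000e000e) (nat_lit 0x9920400000bc) (nat_lit 16) Lb.e (@T16.mk En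
    (@En.n l180 (nat_lit 244) (nat_lit 1) (nat_lit 14))
    (@En.i (nat_lit 107) (nat_lit 12) (nat_lit 14))
    (@En.n l2038 (nat_lit 259) (nat_lit 2) (nat_lit 10))
    (@En.i (nat_lit 13743) (nat_lit 3) (nat_lit 10))
    (@En.n l3327 (nat_lit 228) (nat_lit 4) (nat_lit 5))
    (@En.n l17 (nat_lit 244) (nat_lit 5) (nat_lit 2))
    (@En.n l14517 (nat_lit 240) (nat_lit 6) (nat_lit 4))
    (@En.n l14518 (nat_lit 248) (nat_lit 8) (nat_lit 14))
    (@En.n l50 (nat_lit 246) (nat_lit 8) (nat_lit 3))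
    (@En.n l274 (nat_lit 242) (nat_lit 10) (nat_lit 11))
    (@En.n l217 (nat_lit 245) (nat_lit 11) (nat_lit 12))
    (@En.n l2567 (nat_lit 13922) (nat_lit 12) (nat_lit 13))
    (@En.n l5890 (nat_lit 268) (nat_lit 13) (nat_lit 6))
    (@En.i (nat_lit 98) (nat_lit 7) (nat_lit 6))
    (@En.n l11 (nat_lit 244) (nat_lit 14) (nat_lit 2))
    (@En.n l107 (nat_lit 244) (nat_lit 15) (nat_lit 2))))
  (@Cl.mk (nat_lit 0x2000200060006000c000a000d000d0004000300030006000a000a000e000e) (nat_lit 0x801200000012) (nat_lit 16) Lb.e (@T16.mk En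
    (@En.n l180 (nat_lit 245) (nat_lit 1) (nat_lit 14))
    (@En.i (nat_lit 90) (nat_lit 1) (nat_lit 14))
    (@En.n l2038 (nat_lit 257) (nat_lit 2) (nat_lit 10))
    (@En.i (nat_lit 13741) (nat_lit 3) (nat_lit 10))
    (@En.n l1295 (nat_lit 262) (nat_lit 4) (nat_lit 6))
    (@En.n l2101 (nat_lit 262) (nat_lit 5) (nat_lit 3))
    (@En.n l18 (nat_lit 246) (nat_lit 6) (nat_lit 3))
    (@En.n l3348 (nat_lit 228) (nat_lit 7) (nat_lit 4))
    (@En.n l61 (nat_lit 246) (nat_lit 9) (nat_lit 13))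
    (@En.n l1998 (nat_lit 238) (nat_lit 10) (nat_lit 13))
    (@En.n l2168 (nat_lit 247) (nat_lit 11) (nat_lit 10))
    (@En.n l2590 (nat_lit 13924) (nat_lit 12) (nat_lit 12))
    (@En.n l2166 (nat_lit 263) (nat_lit 13) (nat_lit 6))
    (@En.i (nat_lit 88) (nat_lit 14) (nat_lit 6))
    (@En.n l11 (nat_lit 245) (nat_lit 14) (nat_lit 2))
    (@En.n l107 (nat_lit 245) (nat_lit 15) (nat_lit 2))))
  (@Cl.mk (nat_lit 0x2000200060006000d000a000d0003000e000300020006000a000a000e000e) (nat_lit 0x9010100000bc) (nat_lit 16) Lb.e (@T16.mk En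
    (@En.n l180 (nat_lit 246) (nat_lit 1) (nat_lit 14))
    (@En.i (nat_lit 91) (nat_lit 12) (nat_lit 14))
    (@En.n l2038 (nat_lit 256) (nat_lit 2) (nat_lit 10))
    (@En.i (nat_lit 13742) (nat_lit 3) (nat_lit 10))
    (@En.n l617 (nat_lit 245) (nat_lit 4) (nat_lit 6))
    (@En.n l17 (nat_lit 246) (nat_lit 5) (nat_lit 2))
    (@En.i (nat_lit 245) (nat_lit 6) (nat_lit 3))
    (@En.n l20928 (nat_lit 65) (nat_lit 0) (nat_lit 14))
    (@En.i (nat_lit 244) (nat_lit 8) (nat_lit 3))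
    (@En.n l1998 (nat_lit 237) (nat_lit 10) (nat_lit 13))
    (@En.n l5880 (nat_lit 248) (nat_lit 11) (nat_lit 10))
    (@En.n l1998 (nat_lit 13923) (nat_lit 12) (nat_lit 13))
    (@En.n l2681 (nat_lit 265) (nat_lit 13) (nat_lit 6))
    (@En.i (nat_lit 94) (nat_lit 14) (nat_lit 6))
    (@En.n l11 (nat_lit 246) (nat_lit 14) (nat_lit 2))
    (@En.n l107 (nat_lit 246) (nat_lit 15) (nat_lit 2))))
  (@Cl.mk (nat_lit 0x2000200060006000a000d000d000c0003000300060004000a000a000e000e) (nat_lit 0x8ab300000012) (nat_lit 16) Lb.e (@T16.mk En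
    (@En.n l5 (nat_lit 247) (nat_lit 1) (nat_lit 14))
    (@En.n l890 (nat_lit 80) (nat_lit 1) (nat_lit 14))
    (@En.n l14519 (nat_lit 250) (nat_lit 2) (nat_lit 10))
    (@En.n l5507 (nat_lit 13119) (nat_lit 3) (nat_lit 10))
    (@En.i (nat_lit 240) (nat_lit 4) (nat_lit 4))
    (@En.n l476 (nat_lit 249) (nat_lit 5) (nat_lit 6))
    (@En.n l152 (nat_lit 249) (nat_lit 6) (nat_lit 3))
    (@En.n l1798 (nat_lit 248) (nat_lit 7) (nat_lit 3))
    (@En.n l619 (nat_lit 243) (nat_lit 9) (nat_lit 12))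
    (@En.n l1589 (nat_lit 248) (nat_lit 10) (nat_lit 13))
    (@En.n l5881 (nat_lit 244) (nat_lit 11) (nat_lit 13))
    (@En.n l1836 (nat_lit 272) (nat_lit 12) (nat_lit 10))
    (@En.n l77 (nat_lit 251) (nat_lit 13) (nat_lit 6))
    (@En.i (nat_lit 81) (nat_lit 14) (nat_lit 6))
    (@En.n l17 (nat_lit 247) (nat_lit 14) (nat_lit 2))
    (@En.n l18 (nat_lit 247) (nat_lit 15) (nat_lit 2))))
  (@Cl.mk (nat_lit 0x2000200060006000a000d000b000e0003000200060005000a000a000e000e) (nat_lit 0x8a2300000012) (nat_lit 16) Lb.e (@T16.mk En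
    (@En.n l5 (nat_lit 248) (nat_lit 1) (nat_lit 14))
    (@En.n l12494 (nat_lit 82) (nat_lit 11) (nat_lit 14))
    (@En.n l5880 (nat_lit 252) (nat_lit 2) (nat_lit 10))
    (@En.n l2031 (nat_lit 13118) (nat_lit 3) (nat_lit 10))
    (@En.n l28696 (nat_lit 244) (nat_lit 4) (nat_lit 5))
    (@En.n l4979 (nat_lit 247) (nat_lit 5) (nat_lit 6))
    (@En.n l107 (nat_lit 248) (nat_lit 6) (nat_lit 2))
    (@En.n l5385 (nat_lit 247) (nat_lit 7) (nat_lit 3))
    (@En.i (nat_lit 254) (nat_lit 9) (nat_lit 14))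
    (@En.n l5384 (nat_lit 229) (nat_lit 10) (nat_lit 11))
    (@En.n l1998 (nat_lit 246) (nat_lit 11) (nat_lit 13))
    (@En.i (nat_lit 273) (nat_lit 12) (nat_lit 10))
    (@En.n l5377 (nat_lit 267) (nat_lit 13) (nat_lit 6))
    (@En.n l2568 (nat_lit 29) (nat_lit 6) (nat_lit 6))
    (@En.n l17 (nat_lit 248) (nat_lit 14) (nat_lit 2))
    (@En.n l18 (nat_lit 248) (nat_lit 15) (nat_lit 2))))
  (@Cl.mk (nat_lit 0x2000200060006000a000e000d0002000d000300060003000a000a000e000e) (nat_lit 0xbb030000012) (nat_lit 16) Lb.e (@T16.mk En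
    (@En.n l5 (nat_lit 249) (nat_lit 1) (nat_lit 14))
    (@En.n l5925 (nat_lit 28) (nat_lit 1) (nat_lit 14))
    (@En.n l14519 (nat_lit 253) (nat_lit 2) (nat_lit 10))
    (@En.n l11977 (nat_lit 13122) (nat_lit 3) (nat_lit 10))
    (@En.i (nat_lit 243) (nat_lit 4) (nat_lit 3))
    (@En.n l1599 (nat_lit 254) (nat_lit 5) (nat_lit 6))
    (@En.n l117 (nat_lit 247) (nat_lit 6) (nat_lit 3))
    (@En.n l5925 (nat_lit 262) (nat_lit 8) (nat_lit 13))
    (@En.n l3 (nat_lit 249) (nat_lit 8) (nat_lit 2))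
    (@En.i (nat_lit 247) (nat_lit 10) (nat_lit 13))
    (@En.i (nat_lit 239) (nat_lit 11) (nat_lit 14))
    (@En.n l1599 (nat_lit 271) (nat_lit 12) (nat_lit 10))
    (@En.n l77 (nat_lit 266) (nat_lit 13) (nat_lit 6))
    (@En.n l2568 (nat_lit 82) (nat_lit 14) (nat_lit 6))
    (@En.n l17 (nat_lit 249) (nat_lit 14) (nat_lit 2))
    (@En.n l18 (nat_lit 249) (nat_lit 15) (nat_lit 2))))
  (@Cl.mk (nat_lit 0x20002000e00060002000a000d000d000c0003000300060004000a000e000e) (nat_lit 0x200000000008bc) (nat_lit 16) Lb.e (@T16.mk En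
    (@En.n l601 (nat_lit 250) (nat_lit 1) (nat_lit 14))
    (@En.i (nat_lit 132) (nat_lit 6) (nat_lit 14))
    (@En.n l226 (nat_lit 13124) (nat_lit 2) (nat_lit 10))
    (@En.n l227 (nat_lit 260) (nat_lit 3) (nat_lit 4))
    (@En.n l476 (nat_lit 253) (nat_lit 4) (nat_lit 6))
    (@En.n l152 (nat_lit 253) (nat_lit 5) (nat_lit 3))
    (@En.n l4550 (nat_lit 252) (nat_lit 6) (nat_lit 3))
    (@En.n l5883 (nat_lit 258) (nat_lit 8) (nat_lit 12))
    (@En.n l4663 (nat_lit 252) (nat_lit 9) (nat_lit 13))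
    (@En.n l226 (nat_lit 259) (nat_lit 10) (nat_lit 13))
    (@En.i (nat_lit 13506) (nat_lit 11) (nat_lit 10))
    (@En.n l17 (nat_lit 250) (nat_lit 11) (nat_lit 2))
    (@En.n l14521 (nat_lit 247) (nat_lit 13) (nat_lit 6))
    (@En.i (nat_lit 157) (nat_lit 1) (nat_lit 14))
    (@En.n l50 (nat_lit 250) (nat_lit 14) (nat_lit 2))
    (@En.n l7 (nat_lit 250) (nat_lit 15) (nat_lit 2))))
  (@Cl.mk (nat_lit 0x200020006000a000d000d000c0003000300060004000e000a0002000e000e) (nat_lit 0x9a30000b1023) (nat_lit 16) Lb.e (@T16.mk En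
    (@En.n l5 (nat_lit 251) (nat_lit 1) (nat_lit 14))
    (@En.i (nat_lit 87) (nat_lit 1) (nat_lit 14))
    (@En.n l7 (nat_lit 251) (nat_lit 2) (nat_lit 2))
    (@En.i (nat_lit 247) (nat_lit 3) (nat_lit 10))
    (@En.i (nat_lit 939) (nat_lit 5) (nat_lit 14))
    (@En.i (nat_lit 230) (nat_lit 5) (nat_lit 4))
    (@En.n l476 (nat_lit 266) (nat_lit 6) (nat_lit 6))
    (@En.n l152 (nat_lit 266) (nat_lit 7) (nat_lit 3))
    (@En.i (nat_lit 267) (nat_lit 8) (nat_lit 3))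
    (@En.n l619 (nat_lit 233) (nat_lit 10) (nat_lit 12))
    (@En.n l97 (nat_lit 267) (nat_lit 11) (nat_lit 13))
    (@En.i (nat_lit 268) (nat_lit 12) (nat_lit 13))
    (@En.i (nat_lit 13080) (nat_lit 13) (nat_lit 10))
    (@En.i (nat_lit 89) (nat_lit 14) (nat_lit 6))
    (@En.n l17 (nat_lit 251) (nat_lit 14) (nat_lit 2))
    (@En.n l18 (nat_lit 251) (nat_lit 15) (nat_lit 2))))
  (@Cl.mk (nat_lit 0x20002000e00060002000a000d000b000e0003000200060005000a000e000e) (nat_lit 0x1000b0100008bc) (nat_lit 16) Lb.e (@T16.mk En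
    (@En.n l97 (nat_lit 252) (nat_lit 1) (nat_lit 14))
    (@En.n l387 (nat_lit 129) (nat_lit 12) (nat_lit 14))
    (@En.i (nat_lit 13125) (nat_lit 2) (nat_lit 10))
    (@En.n l2593 (nat_lit 259) (nat_lit 3) (nat_lit 5))
    (@En.n l12488 (nat_lit 250) (nat_lit 4) (nat_lit 6))
    (@En.n l18 (nat_lit 252) (nat_lit 5) (nat_lit 2))
    (@En.n l613 (nat_lit 250) (nat_lit 6) (nat_lit 3))
    (@En.n l12534 (nat_lit 64) (nat_lit 0) (nat_lit 14))
    (@En.i (nat_lit 261) (nat_lit 9) (nat_lit 11))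
    (@En.i (nat_lit 256) (nat_lit 10) (nat_lit 13))
    (@En.n l12534 (nat_lit 13507) (nat_lit 11) (nat_lit 10))
    (@En.n l28 (nat_lit 252) (nat_lit 11) (nat_lit 2))
    (@En.n l12534 (nat_lit 248) (nat_lit 13) (nat_lit 6))
    (@En.n l2568 (nat_lit 158) (nat_lit 1) (nat_lit 14))
    (@En.n l107 (nat_lit 252) (nat_lit 14) (nat_lit 2))
    (@En.n l3 (nat_lit 252) (nat_lit 15) (nat_lit 2))))
  (@Cl.mk (nat_lit 0x20002000e00060002000a000e000d0002000d000300060003000a000e000e) (nat_lit 0x300001000008bc) (nat_lit 16) Lb.e (@T16.mk En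
    (@En.n l601 (nat_lit 253) (nat_lit 1) (nat_lit 14))
    (@En.i (nat_lit 166) (nat_lit 6) (nat_lit 14))
    (@En.n l2031 (nat_lit 13126) (nat_lit 2) (nat_lit 10))
    (@En.n l678 (nat_lit 258) (nat_lit 3) (nat_lit 3))
    (@En.n l27326 (nat_lit 64) (nat_lit 4) (nat_lit 6))
    (@En.n l117 (nat_lit 250) (nat_lit 5) (nat_lit 3))
    (@En.n l5545 (nat_lit 255) (nat_lit 7) (nat_lit 13))
    (@En.n l3 (nat_lit 253) (nat_lit 7) (nat_lit 2))
    (@En.i (nat_lit 250) (nat_lit 9) (nat_lit 13))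
    (@En.n l248 (nat_lit 281) (nat_lit 10) (nat_lit 14))
    (@En.n l2099 (nat_lit 13505) (nat_lit 11) (nat_lit 10))
    (@En.n l17 (nat_lit 253) (nat_lit 11) (nat_lit 2))
    (@En.n l14521 (nat_lit 249) (nat_lit 13) (nat_lit 6))
    (@En.i (nat_lit 154) (nat_lit 1) (nat_lit 14))
    (@En.n l50 (nat_lit 253) (nat_lit 14) (nat_lit 2))
    (@En.n l7 (nat_lit 253) (nat_lit 15) (nat_lit 2))))
  (@Cl.mk (nat_lit 0x2000200060006000a000e000e00020002000e00060002000a000a000e000e) (nat_lit 0x812001000112) (nat_lit 16) Lb.e (@T16.mk En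
    (@En.n l5 (nat_lit 254) (nat_lit 1) (nat_lit 14))
    (@En.n l1997 (nat_lit 253) (nat_lit 9) (nat_lit 14))
    (@En.n l13627 (nat_lit 64) (nat_lit 2) (nat_lit 10))
    (@En.i (nat_lit 13948) (nat_lit 3) (nat_lit 10))
    (@En.n l28 (nat_lit 254) (nat_lit 4) (nat_lit 2))
    (@En.n l1875 (nat_lit 65) (nat_lit 5) (nat_lit 6))
    (@En.n l1997 (nat_lit 227) (nat_lit 7) (nat_lit 14))
    (@En.n l107 (nat_lit 254) (nat_lit 7) (nat_lit 2))
    (@En.n l3 (nat_lit 254) (nat_lit 8) (nat_lit 2))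
    (@En.n l97 (nat_lit 254) (nat_lit 10) (nat_lit 14))
    (@En.i (nat_lit 237) (nat_lit 11) (nat_lit 14))
    (@En.i (nat_lit 13942) (nat_lit 12) (nat_lit 10))
    (@En.n l1504 (nat_lit 270) (nat_lit 13) (nat_lit 6))
    (@En.i (nat_lit 252) (nat_lit 4) (nat_lit 6))
    (@En.n l17 (nat_lit 254) (nat_lit 14) (nat_lit 2))
    (@En.n l18 (nat_lit 254) (nat_lit 15) (nat_lit 2))))
  (@Cl.mk (nat_lit 0x20002000e00060002000b000a000e000d0002000500030006000a000e000e) (nat_lit 0x300010b00000bc) (nat_lit 16) Lb.e (@T16.mk En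
    (@En.n l97 (nat_lit 255) (nat_lit 1) (nat_lit 14))
    (@En.n l5685 (nat_lit 168) (nat_lit 11) (nat_lit 14))
    (@En.i (nat_lit 13803) (nat_lit 2) (nat_lit 10))
    (@En.n l6147 (nat_lit 254) (nat_lit 12) (nat_lit 6))
    (@En.n l72 (nat_lit 257) (nat_lit 4) (nat_lit 3))
    (@En.n l2101 (nat_lit 276) (nat_lit 5) (nat_lit 5))
    (@En.n l17 (nat_lit 255) (nat_lit 6) (nat_lit 2))
    (@En.n l61 (nat_lit 257) (nat_lit 8) (nat_lit 13))
    (@En.n l1353 (nat_lit 258) (nat_lit 9) (nat_lit 14))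
    (@En.n l27325 (nat_lit 253) (nat_lit 10) (nat_lit 10))
    (@En.n l5205 (nat_lit 13534) (nat_lit 11) (nat_lit 11))
    (@En.n l28 (nat_lit 255) (nat_lit 11) (nat_lit 2))
    (@En.n l797 (nat_lit 262) (nat_lit 13) (nat_lit 6))
    (@En.n l5685 (nat_lit 221) (nat_lit 7) (nat_lit 14))
    (@En.n l107 (nat_lit 255) (nat_lit 14) (nat_lit 2))
    (@En.n l3 (nat_lit 255) (nat_lit 15) (nat_lit 2))))
noncomputable def a16 : T16 Cl := @T16.mk Cl
  (@Cl.mk (nat_lit 0x20002000e00060002000d000a000d0003000e000300020006000a000e000e) (nat_lit 0x300a10030008bc) (nat_lit 16) Lb.e (@T16.mk En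
    (@En.n l97 (nat_lit 256) (nat_lit 1) (nat_lit 14))
    (@En.i (nat_lit 125) (nat_lit 13) (nat_lit 14))
    (@En.i (nat_lit 13157) (nat_lit 2) (nat_lit 10))
    (@En.n l617 (nat_lit 257) (nat_lit 3) (nat_lit 6))
    (@En.n l17 (nat_lit 256) (nat_lit 4) (nat_lit 2))
    (@En.i (nat_lit 257) (nat_lit 5) (nat_lit 3))
    (@En.i (nat_lit 254) (nat_lit 0) (nat_lit 14))
    (@En.i (nat_lit 259) (nat_lit 7) (nat_lit 3))
    (@En.i (nat_lit 282) (nat_lit 9) (nat_lit 13))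
    (@En.n l564 (nat_lit 252) (nat_lit 10) (nat_lit 10))
    (@En.i (nat_lit 13347) (nat_lit 11) (nat_lit 13))
    (@En.n l28 (nat_lit 256) (nat_lit 11) (nat_lit 2))
    (@En.n l159 (nat_lit 246) (nat_lit 13) (nat_lit 6))
    (@En.i (nat_lit 185) (nat_lit 1) (nat_lit 14))
    (@En.n l107 (nat_lit 256) (nat_lit 14) (nat_lit 2))
    (@En.n l3 (nat_lit 256) (nat_lit 15) (nat_lit 2))))
  (@Cl.mk (nat_lit 0x20002000e00060002000c000a000d000d0004000300030006000a000e000e) (nat_lit 0x20001a100008bc) (nat_lit 16) Lb.e (@T16.mk En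
    (@En.n l97 (nat_lit 257) (nat_lit 1) (nat_lit 14))
    (@En.i (nat_lit 123) (nat_lit 6) (nat_lit 14))
    (@En.i (nat_lit 13158) (nat_lit 2) (nat_lit 10))
    (@En.n l617 (nat_lit 255) (nat_lit 3) (nat_lit 6))
    (@En.i (nat_lit 255) (nat_lit 4) (nat_lit 3))
    (@En.n l18 (nat_lit 256) (nat_lit 5) (nat_lit 3))
    (@En.i (nat_lit 277) (nat_lit 6) (nat_lit 4))
    (@En.n l61 (nat_lit 256) (nat_lit 8) (nat_lit 13))
    (@En.n l1353 (nat_lit 279) (nat_lit 9) (nat_lit 13))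
    (@En.n l798 (nat_lit 250) (nat_lit 10) (nat_lit 10))
    (@En.i (nat_lit 13346) (nat_lit 11) (nat_lit 12))
    (@En.n l28 (nat_lit 257) (nat_lit 11) (nat_lit 2))
    (@En.n l159 (nat_lit 245) (nat_lit 13) (nat_lit 6))
    (@En.i (nat_lit 187) (nat_lit 1) (nat_lit 14))
    (@En.n l107 (nat_lit 257) (nat_lit 14) (nat_lit 2))
    (@En.n l3 (nat_lit 257) (nat_lit 15) (nat_lit 2))))
  (@Cl.mk (nat_lit 0x20002000e00060002000b000e000c0002000d000500040003000a000e000e) (nat_lit 0x3000ca020008bc) (nat_lit 16) Lb.e (@T16.mk En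
    (@En.n l97 (nat_lit 258) (nat_lit 1) (nat_lit 14))
    (@En.n l2589 (nat_lit 167) (nat_lit 6) (nat_lit 14))
    (@En.n l2199 (nat_lit 13802) (nat_lit 2) (nat_lit 10))
    (@En.n l5685 (nat_lit 253) (nat_lit 3) (nat_lit 3))
    (@En.n l18 (nat_lit 279) (nat_lit 4) (nat_lit 4))
    (@En.n l775 (nat_lit 255) (nat_lit 5) (nat_lit 5))
    (@En.i (nat_lit 257) (nat_lit 7) (nat_lit 13))
    (@En.n l2196 (nat_lit 258) (nat_lit 7) (nat_lit 2))
    (@En.n l2197 (nat_lit 260) (nat_lit 9) (nat_lit 12))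
    (@En.n l6134 (nat_lit 280) (nat_lit 10) (nat_lit 14))
    (@En.n l15193 (nat_lit 13351) (nat_lit 11) (nat_lit 11))
    (@En.n l28 (nat_lit 258) (nat_lit 11) (nat_lit 2))
    (@En.n l15194 (nat_lit 243) (nat_lit 13) (nat_lit 6))
    (@En.n l2589 (nat_lit 220) (nat_lit 1) (nat_lit 14))
    (@En.n l107 (nat_lit 258) (nat_lit 14) (nat_lit 2))
    (@En.n l3 (nat_lit 258) (nat_lit 15) (nat_lit 2))))
  (@Cl.mk (nat_lit 0x20002000e00060002000d000c000b0003000e000400020005000a000e000e) (nat_lit 0x300b10020008ab) (nat_lit 16) Lb.e (@T16.mk En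
    (@En.n l97 (nat_lit 259) (nat_lit 1) (nat_lit 14))
    (@En.i (nat_lit 127) (nat_lit 13) (nat_lit 14))
    (@En.i (nat_lit 13156) (nat_lit 2) (nat_lit 10))
    (@En.n l617 (nat_lit 277) (nat_lit 3) (nat_lit 5))
    (@En.n l17 (nat_lit 259) (nat_lit 4) (nat_lit 2))
    (@En.n l50 (nat_lit 260) (nat_lit 5) (nat_lit 4))
    (@En.n l5 (nat_lit 252) (nat_lit 7) (nat_lit 14))
    (@En.n l50 (nat_lit 256) (nat_lit 7) (nat_lit 3))
    (@En.i (nat_lit 280) (nat_lit 9) (nat_lit 11))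
    (@En.n l217 (nat_lit 257) (nat_lit 10) (nat_lit 12))
    (@En.i (nat_lit 13345) (nat_lit 11) (nat_lit 13))
    (@En.n l28 (nat_lit 259) (nat_lit 11) (nat_lit 2))
    (@En.n l159 (nat_lit 244) (nat_lit 13) (nat_lit 6))
    (@En.i (nat_lit 181) (nat_lit 9) (nat_lit 14))
    (@En.n l107 (nat_lit 259) (nat_lit 14) (nat_lit 2))
    (@En.n l3 (nat_lit 259) (nat_lit 15) (nat_lit 2))))
  (@Cl.mk (nat_lit 0x20002000e00060002000c000c000c000c0004000400040004000a000e000e) (nat_lit 0x300892000008ab) (nat_lit 16) Lb.e (@T16.mk En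
    (@En.n l97 (nat_lit 260) (nat_lit 1) (nat_lit 14))
    (@En.n l798 (nat_lit 171) (nat_lit 6) (nat_lit 14))
    (@En.i (nat_lit 287) (nat_lit 2) (nat_lit 10))
    (@En.n l14110 (nat_lit 261) (nat_lit 3) (nat_lit 4))
    (@En.n l1935 (nat_lit 258) (nat_lit 4) (nat_lit 4))
    (@En.n l2172 (nat_lit 281) (nat_lit 5) (nat_lit 4))
    (@En.i (nat_lit 257) (nat_lit 6) (nat_lit 4))
    (@En.n l2588 (nat_lit 279) (nat_lit 8) (nat_lit 12))
    (@En.n l742 (nat_lit 259) (nat_lit 9) (nat_lit 12))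
    (@En.n l396 (nat_lit 277) (nat_lit 10) (nat_lit 12))
    (@En.n l798 (nat_lit 13344) (nat_lit 11) (nat_lit 12))
    (@En.n l28 (nat_lit 260) (nat_lit 11) (nat_lit 2))
    (@En.n l14111 (nat_lit 240) (nat_lit 13) (nat_lit 6))
    (@En.n l798 (nat_lit 204) (nat_lit 1) (nat_lit 14))
    (@En.n l107 (nat_lit 260) (nat_lit 14) (nat_lit 2))
    (@En.n l3 (nat_lit 260) (nat_lit 15) (nat_lit 2))))
  (@Cl.mk (nat_lit 0x20002000e00060002000b000b000e000c0002000500050004000a000e000e) (nat_lit 0x3008903000089a) (nat_lit 16) Lb.e (@T16.mk En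
    (@En.n l97 (nat_lit 261) (nat_lit 1) (nat_lit 14))
    (@En.n l6125 (nat_lit 209) (nat_lit 11) (nat_lit 14))
    (@En.n l6126 (nat_lit 13567) (nat_lit 2) (nat_lit 10))
    (@En.n l6125 (nat_lit 250) (nat_lit 3) (nat_lit 4))
    (@En.n l2593 (nat_lit 280) (nat_lit 4) (nat_lit 5))
    (@En.n l6127 (nat_lit 258) (nat_lit 5) (nat_lit 5))
    (@En.n l18 (nat_lit 261) (nat_lit 6) (nat_lit 2))
    (@En.n l6127 (nat_lit 260) (nat_lit 8) (nat_lit 12))
    (@En.n l6128 (nat_lit 276) (nat_lit 9) (nat_lit 14))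
    (@En.n l6129 (nat_lit 276) (nat_lit 10) (nat_lit 11))
    (@En.n l6125 (nat_lit 13349) (nat_lit 11) (nat_lit 11))
    (@En.n l28 (nat_lit 261) (nat_lit 11) (nat_lit 2))
    (@En.n l6130 (nat_lit 229) (nat_lit 13) (nat_lit 6))
    (@En.n l6125 (nat_lit 203) (nat_lit 7) (nat_lit 14))
    (@En.n l107 (nat_lit 261) (nat_lit 14) (nat_lit 2))
    (@En.n l3 (nat_lit 261) (nat_lit 15) (nat_lit 2))))
  (@Cl.mk (nat_lit 0x2000200060006000b000a000e000d0002000500030006000a000a000e000e) (nat_lit 0x81a200000112) (nat_lit 16) Lb.e (@T16.mk En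
    (@En.n l97 (nat_lit 262) (nat_lit 1) (nat_lit 14))
    (@En.i (nat_lit 92) (nat_lit 10) (nat_lit 14))
    (@En.n l11591 (nat_lit 255) (nat_lit 2) (nat_lit 10))
    (@En.n l1997 (nat_lit 13804) (nat_lit 3) (nat_lit 10))
    (@En.n l889 (nat_lit 65) (nat_lit 4) (nat_lit 6))
    (@En.n l3291 (nat_lit 245) (nat_lit 5) (nat_lit 3))
    (@En.i (nat_lit 227) (nat_lit 6) (nat_lit 5))
    (@En.n l18 (nat_lit 262) (nat_lit 7) (nat_lit 2))
    (@En.n l1012 (nat_lit 245) (nat_lit 9) (nat_lit 13))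
    (@En.n l27102 (nat_lit 243) (nat_lit 10) (nat_lit 14))
    (@En.n l1874 (nat_lit 249) (nat_lit 11) (nat_lit 10))
    (@En.n l2031 (nat_lit 13941) (nat_lit 12) (nat_lit 11))
    (@En.n l12534 (nat_lit 264) (nat_lit 13) (nat_lit 6))
    (@En.n l2036 (nat_lit 85) (nat_lit 5) (nat_lit 6))
    (@En.n l107 (nat_lit 262) (nat_lit 14) (nat_lit 2))
    (@En.n l3 (nat_lit 262) (nat_lit 15) (nat_lit 2))))
  (@Cl.mk (nat_lit 0x200020006000c000a000d000d0004000300030006000e000a0002000e000e) (nat_lit 0x812b0000b1012) (nat_lit 16) Lb.e (@T16.mk En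
    (@En.n l5 (nat_lit 263) (nat_lit 1) (nat_lit 14))
    (@En.n l227 (nat_lit 108) (nat_lit 1) (nat_lit 14))
    (@En.n l7 (nat_lit 263) (nat_lit 2) (nat_lit 2))
    (@En.n l6247 (nat_lit 245) (nat_lit 3) (nat_lit 10))
    (@En.n l227 (nat_lit 13009) (nat_lit 5) (nat_lit 14))
    (@En.n l14038 (nat_lit 264) (nat_lit 5) (nat_lit 6))
    (@En.n l14039 (nat_lit 264) (nat_lit 6) (nat_lit 3))
    (@En.n l618 (nat_lit 265) (nat_lit 7) (nat_lit 3))
    (@En.n l7966 (nat_lit 224) (nat_lit 8) (nat_lit 4))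
    (@En.n l620 (nat_lit 265) (nat_lit 10) (nat_lit 13))
    (@En.n l7622 (nat_lit 234) (nat_lit 11) (nat_lit 13))
    (@En.i (nat_lit 251) (nat_lit 12) (nat_lit 10))
    (@En.n l7966 (nat_lit 13173) (nat_lit 13) (nat_lit 12))
    (@En.i (nat_lit 95) (nat_lit 14) (nat_lit 6))
    (@En.n l17 (nat_lit 263) (nat_lit 14) (nat_lit 2))
    (@En.n l18 (nat_lit 263) (nat_lit 15) (nat_lit 2))))
  (@Cl.mk (nat_lit 0x200020006000b000a000e000d0002000500030006000e000a0002000e000e) (nat_lit 0x90b30000b1012) (nat_lit 16) Lb.e (@T16.mk En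
    (@En.n l5 (nat_lit 264) (nat_lit 1) (nat_lit 14))
    (@En.n l1998 (nat_lit 35) (nat_lit 1) (nat_lit 14))
    (@En.n l7 (nat_lit 264) (nat_lit 2) (nat_lit 2))
    (@En.n l5925 (nat_lit 262) (nat_lit 3) (nat_lit 10))
    (@En.n l1504 (nat_lit 13013) (nat_lit 5) (nat_lit 14))
    (@En.i (nat_lit 269) (nat_lit 12) (nat_lit 6))
    (@En.n l3478 (nat_lit 263) (nat_lit 6) (nat_lit 3))
    (@En.i (nat_lit 225) (nat_lit 7) (nat_lit 5))
    (@En.n l107 (nat_lit 264) (nat_lit 8) (nat_lit 2))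
    (@En.n l625 (nat_lit 263) (nat_lit 10) (nat_lit 13))
    (@En.n l619 (nat_lit 233) (nat_lit 11) (nat_lit 14))
    (@En.n l625 (nat_lit 266) (nat_lit 12) (nat_lit 10))
    (@En.i (nat_lit 13172) (nat_lit 13) (nat_lit 11))
    (@En.n l2568 (nat_lit 112) (nat_lit 4) (nat_lit 6))
    (@En.n l17 (nat_lit 264) (nat_lit 14) (nat_lit 2))
    (@En.n l18 (nat_lit 264) (nat_lit 15) (nat_lit 2))))
  (@Cl.mk (nat_lit 0x200020006000d000a000d0003000e000300020006000e000a0002000e000e) (nat_lit 0x80a0c000b1023) (nat_lit 16) Lb.e (@T16.mk En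
    (@En.n l1578 (nat_lit 265) (nat_lit 1) (nat_lit 14))
    (@En.i (nat_lit 112) (nat_lit 1) (nat_lit 14))
    (@En.n l3 (nat_lit 265) (nat_lit 2) (nat_lit 2))
    (@En.n l2038 (nat_lit 246) (nat_lit 3) (nat_lit 10))
    (@En.i (nat_lit 13010) (nat_lit 5) (nat_lit 14))
    (@En.n l2003 (nat_lit 263) (nat_lit 5) (nat_lit 6))
    (@En.n l17 (nat_lit 265) (nat_lit 6) (nat_lit 2))
    (@En.n l798 (nat_lit 263) (nat_lit 7) (nat_lit 3))
    (@En.n l1997 (nat_lit 269) (nat_lit 0) (nat_lit 14))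
    (@En.n l613 (nat_lit 268) (nat_lit 9) (nat_lit 3))
    (@En.n l1997 (nat_lit 236) (nat_lit 11) (nat_lit 13))
    (@En.n l51 (nat_lit 267) (nat_lit 12) (nat_lit 10))
    (@En.n l1997 (nat_lit 13179) (nat_lit 13) (nat_lit 13))
    (@En.n l1998 (nat_lit 30) (nat_lit 6) (nat_lit 6))
    (@En.n l28 (nat_lit 265) (nat_lit 14) (nat_lit 2))
    (@En.n l11 (nat_lit 265) (nat_lit 15) (nat_lit 2))))
  (@Cl.mk (nat_lit 0x200020006000a000e000d0002000d000300060003000e000a0002000e000e) (nat_lit 0x89a04000c1012) (nat_lit 16) Lb.e (@T16.mk En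
    (@En.n l5 (nat_lit 266) (nat_lit 1) (nat_lit 14))
    (@En.i (nat_lit 92) (nat_lit 1) (nat_lit 14))
    (@En.n l7 (nat_lit 266) (nat_lit 2) (nat_lit 2))
    (@En.i (nat_lit 249) (nat_lit 3) (nat_lit 10))
    (@En.i (nat_lit 944) (nat_lit 5) (nat_lit 14))
    (@En.i (nat_lit 233) (nat_lit 5) (nat_lit 3))
    (@En.i (nat_lit 270) (nat_lit 6) (nat_lit 6))
    (@En.n l117 (nat_lit 251) (nat_lit 7) (nat_lit 3))
    (@En.i (nat_lit 264) (nat_lit 9) (nat_lit 13))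
    (@En.n l3 (nat_lit 266) (nat_lit 9) (nat_lit 2))
    (@En.i (nat_lit 251) (nat_lit 11) (nat_lit 13))
    (@En.i (nat_lit 235) (nat_lit 12) (nat_lit 14))
    (@En.i (nat_lit 13170) (nat_lit 13) (nat_lit 10))
    (@En.n l2568 (nat_lit 91) (nat_lit 14) (nat_lit 6))
    (@En.n l17 (nat_lit 266) (nat_lit 14) (nat_lit 2))
    (@En.n l18 (nat_lit 266) (nat_lit 15) (nat_lit 2))))
  (@Cl.mk (nat_lit 0x200020006000a000d000b000e0003000200060005000e000a0002000e000e) (nat_lit 0x892b0000c1023) (nat_lit 16) Lb.e (@T16.mk En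
    (@En.n l5 (nat_lit 267) (nat_lit 1) (nat_lit 14))
    (@En.n l1865 (nat_lit 85) (nat_lit 1) (nat_lit 14))
    (@En.n l7 (nat_lit 267) (nat_lit 2) (nat_lit 2))
    (@En.n l1798 (nat_lit 248) (nat_lit 3) (nat_lit 10))
    (@En.n l1865 (nat_lit 943) (nat_lit 5) (nat_lit 14))
    (@En.n l14516 (nat_lit 268) (nat_lit 5) (nat_lit 5))
    (@En.n l7705 (nat_lit 251) (nat_lit 6) (nat_lit 6))
    (@En.n l67 (nat_lit 267) (nat_lit 7) (nat_lit 2))
    (@En.n l107 (nat_lit 251) (nat_lit 8) (nat_lit 3))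
    (@En.n l4660 (nat_lit 270) (nat_lit 10) (nat_lit 14))
    (@En.i (nat_lit 226) (nat_lit 11) (nat_lit 11))
    (@En.n l4550 (nat_lit 265) (nat_lit 12) (nat_lit 13))
    (@En.i (nat_lit 13081) (nat_lit 13) (nat_lit 10))
    (@En.n l1106 (nat_lit 94) (nat_lit 5) (nat_lit 6))
    (@En.n l17 (nat_lit 267) (nat_lit 14) (nat_lit 2))
    (@En.n l18 (nat_lit 267) (nat_lit 15) (nat_lit 2))))
  (@Cl.mk (nat_lit 0x200020006000d000c000b0003000e000400020005000e000a0002000e000e) (nat_lit 0x8920c000c1012) (nat_lit 16) Lb.e (@T16.mk En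
    (@En.n l5 (nat_lit 268) (nat_lit 1) (nat_lit 14))
    (@En.n l226 (nat_lit 105) (nat_lit 1) (nat_lit 14))
    (@En.n l7 (nat_lit 268) (nat_lit 2) (nat_lit 2))
    (@En.n l5881 (nat_lit 244) (nat_lit 3) (nat_lit 10))
    (@En.n l226 (nat_lit 13011) (nat_lit 5) (nat_lit 14))
    (@En.n l5721 (nat_lit 224) (nat_lit 5) (nat_lit 5))
    (@En.n l476 (nat_lit 268) (nat_lit 6) (nat_lit 2))
    (@En.n l187 (nat_lit 230) (nat_lit 7) (nat_lit 4))
    (@En.n l5375 (nat_lit 267) (nat_lit 9) (nat_lit 14))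
    (@En.n l4550 (nat_lit 265) (nat_lit 9) (nat_lit 3))
    (@En.n l619 (nat_lit 232) (nat_lit 11) (nat_lit 11))
    (@En.n l5687 (nat_lit 263) (nat_lit 12) (nat_lit 12))
    (@En.i (nat_lit 13212) (nat_lit 13) (nat_lit 13))
    (@En.i (nat_lit 96) (nat_lit 6) (nat_lit 6))
    (@En.n l17 (nat_lit 268) (nat_lit 14) (nat_lit 2))
    (@En.n l18 (nat_lit 268) (nat_lit 15) (nat_lit 2))))
  (@Cl.mk (nat_lit 0x2000200060006000e000a0002000e000e000200020006000a000a000e000e) (nat_lit 0xc10bc00080ab) (nat_lit 16) Lb.e (@T16.mk En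
    (@En.n l97 (nat_lit 269) (nat_lit 1) (nat_lit 14))
    (@En.i (nat_lit 266) (nat_lit 11) (nat_lit 14))
    (@En.n l625 (nat_lit 270) (nat_lit 12) (nat_lit 10))
    (@En.i (nat_lit 14084) (nat_lit 3) (nat_lit 10))
    (@En.n l2568 (nat_lit 246) (nat_lit 4) (nat_lit 6))
    (@En.n l17 (nat_lit 269) (nat_lit 5) (nat_lit 2))
    (@En.n l18 (nat_lit 269) (nat_lit 6) (nat_lit 2))
    (@En.n l5 (nat_lit 269) (nat_lit 8) (nat_lit 14))
    (@En.i (nat_lit 262) (nat_lit 9) (nat_lit 14))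
    (@En.n l7 (nat_lit 269) (nat_lit 9) (nat_lit 2))
    (@En.n l1874 (nat_lit 65) (nat_lit 3) (nat_lit 10))
    (@En.n l2031 (nat_lit 14060) (nat_lit 12) (nat_lit 14))
    (@En.n l12534 (nat_lit 27) (nat_lit 5) (nat_lit 6))
    (@En.n l1638 (nat_lit 267) (nat_lit 6) (nat_lit 6))
    (@En.n l107 (nat_lit 269) (nat_lit 14) (nat_lit 2))
    (@En.n l3 (nat_lit 269) (nat_lit 15) (nat_lit 2))))
  (@Cl.mk (nat_lit 0x200020006000a000e000e00020002000e00060002000e000a0002000e000e) (nat_lit 0x89a00200b1012) (nat_lit 16) Lb.e (@T16.mk En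
    (@En.n l5 (nat_lit 270) (nat_lit 1) (nat_lit 14))
    (@En.n l2100 (nat_lit 255) (nat_lit 8) (nat_lit 14))
    (@En.n l7 (nat_lit 270) (nat_lit 2) (nat_lit 2))
    (@En.n l1599 (nat_lit 254) (nat_lit 3) (nat_lit 10))
    (@En.i (nat_lit 13827) (nat_lit 5) (nat_lit 14))
    (@En.n l11 (nat_lit 270) (nat_lit 5) (nat_lit 2))
    (@En.n l2032 (nat_lit 269) (nat_lit 13) (nat_lit 6))
    (@En.i (nat_lit 225) (nat_lit 8) (nat_lit 14))
    (@En.n l3 (nat_lit 270) (nat_lit 8) (nat_lit 2))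
    (@En.n l476 (nat_lit 270) (nat_lit 9) (nat_lit 2))
    (@En.n l624 (nat_lit 270) (nat_lit 11) (nat_lit 14))
    (@En.i (nat_lit 236) (nat_lit 12) (nat_lit 14))
    (@En.i (nat_lit 14077) (nat_lit 13) (nat_lit 10))
    (@En.n l2568 (nat_lit 256) (nat_lit 3) (nat_lit 6))
    (@En.n l17 (nat_lit 270) (nat_lit 14) (nat_lit 2))
    (@En.n l18 (nat_lit 270) (nat_lit 15) (nat_lit 2))))
  (@Cl.mk (nat_lit 0x200020006000a000e000d0002000c00030006000d0004000a0003000e000e) (nat_lit 0x80000000020c0) (nat_lit 16) Lb.e (@T16.mk En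
    (@En.n l5 (nat_lit 271) (nat_lit 1) (nat_lit 14))
    (@En.i (nat_lit 525) (nat_lit 1) (nat_lit 14))
    (@En.i (nat_lit 275) (nat_lit 2) (nat_lit 3))
    (@En.i (nat_lit 264) (nat_lit 3) (nat_lit 10))
    (@En.i (nat_lit 13729) (nat_lit 4) (nat_lit 4))
    (@En.n l1504 (nat_lit 13520) (nat_lit 6) (nat_lit 13))
    (@En.i (nat_lit 13942) (nat_lit 6) (nat_lit 6))
    (@En.i (nat_lit 272) (nat_lit 7) (nat_lit 3))
    (@En.i (nat_lit 13941) (nat_lit 9) (nat_lit 12))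
    (@En.n l107 (nat_lit 271) (nat_lit 9) (nat_lit 2))
    (@En.n l180 (nat_lit 272) (nat_lit 11) (nat_lit 13))
    (@En.n l619 (nat_lit 13683) (nat_lit 12) (nat_lit 14))
    (@En.n l513 (nat_lit 13085) (nat_lit 13) (nat_lit 10))
    (@En.i (nat_lit 527) (nat_lit 14) (nat_lit 6))
    (@En.n l17 (nat_lit 271) (nat_lit 14) (nat_lit 2))
    (@En.n l18 (nat_lit 271) (nat_lit 15) (nat_lit 2))))
noncomputable def a17 : T16 Cl := @T16.mk Cl
  (@Cl.mk (nat_lit 0x200020006000a000d000d000b000300030006000d0005000a0003000e000e) (nat_lit 0x7b000000020c0) (nat_lit 16) Lb.e (@T16.mk En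
    (@En.n l5 (nat_lit 272) (nat_lit 1) (nat_lit 14))
    (@En.n l615 (nat_lit 524) (nat_lit 1) (nat_lit 14))
    (@En.i (nat_lit 274) (nat_lit 2) (nat_lit 3))
    (@En.n l3478 (nat_lit 263) (nat_lit 3) (nat_lit 10))
    (@En.n l5732 (nat_lit 13728) (nat_lit 4) (nat_lit 5))
    (@En.n l4893 (nat_lit 13519) (nat_lit 6) (nat_lit 13))
    (@En.n l159 (nat_lit 271) (nat_lit 6) (nat_lit 6))
    (@En.n l11 (nat_lit 271) (nat_lit 7) (nat_lit 3))
    (@En.n l2691 (nat_lit 273) (nat_lit 8) (nat_lit 3))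
    (@En.i (nat_lit 13727) (nat_lit 10) (nat_lit 11))
    (@En.n l1572 (nat_lit 273) (nat_lit 11) (nat_lit 13))
    (@En.n l619 (nat_lit 13684) (nat_lit 12) (nat_lit 13))
    (@En.n l4750 (nat_lit 13082) (nat_lit 13) (nat_lit 10))
    (@En.i (nat_lit 528) (nat_lit 14) (nat_lit 6))
    (@En.n l17 (nat_lit 272) (nat_lit 14) (nat_lit 2))
    (@En.n l18 (nat_lit 272) (nat_lit 15) (nat_lit 2))))
  (@Cl.mk (nat_lit 0x200020006000a000d000a000e000300020006000d0006000a0003000e000e) (nat_lit 0x7b000000020c0) (nat_lit 16) Lb.e (@T16.mk En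
    (@En.n l5 (nat_lit 273) (nat_lit 1) (nat_lit 14))
    (@En.i (nat_lit 531) (nat_lit 1) (nat_lit 14))
    (@En.i (nat_lit 13508) (nat_lit 2) (nat_lit 3))
    (@En.n l2031 (nat_lit 265) (nat_lit 3) (nat_lit 10))
    (@En.n l1599 (nat_lit 13925) (nat_lit 4) (nat_lit 6))
    (@En.n l2031 (nat_lit 13521) (nat_lit 6) (nat_lit 13))
    (@En.n l4870 (nat_lit 272) (nat_lit 6) (nat_lit 6))
    (@En.n l107 (nat_lit 273) (nat_lit 7) (nat_lit 2))
    (@En.n l7706 (nat_lit 272) (nat_lit 8) (nat_lit 3))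
    (@En.i (nat_lit 13942) (nat_lit 10) (nat_lit 14))
    (@En.n l12743 (nat_lit 13726) (nat_lit 11) (nat_lit 10))
    (@En.i (nat_lit 13685) (nat_lit 12) (nat_lit 13))
    (@En.i (nat_lit 13079) (nat_lit 13) (nat_lit 10))
    (@En.n l2568 (nat_lit 530) (nat_lit 14) (nat_lit 6))
    (@En.n l17 (nat_lit 273) (nat_lit 14) (nat_lit 2))
    (@En.n l18 (nat_lit 273) (nat_lit 15) (nat_lit 2))))
  (@Cl.mk (nat_lit 0x200020007000a000d000d000a000300030006000d000900060003000e000e) (nat_lit 0x70000000000c0) (nat_lit 16) Lb.e (@T16.mk En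
    (@En.n l5 (nat_lit 274) (nat_lit 1) (nat_lit 14))
    (@En.n l1569 (nat_lit 569) (nat_lit 1) (nat_lit 14))
    (@En.n l7 (nat_lit 272) (nat_lit 2) (nat_lit 3))
    (@En.n l407 (nat_lit 13403) (nat_lit 3) (nat_lit 6))
    (@En.n l1571 (nat_lit 13506) (nat_lit 4) (nat_lit 9))
    (@En.n l4893 (nat_lit 13503) (nat_lit 6) (nat_lit 13))
    (@En.n l159 (nat_lit 275) (nat_lit 6) (nat_lit 6))
    (@En.n l11 (nat_lit 275) (nat_lit 7) (nat_lit 3))
    (@En.n l2691 (nat_lit 13508) (nat_lit 8) (nat_lit 3))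
    (@En.i (nat_lit 13537) (nat_lit 10) (nat_lit 10))
    (@En.n l1572 (nat_lit 13508) (nat_lit 11) (nat_lit 13))
    (@En.n l619 (nat_lit 13689) (nat_lit 12) (nat_lit 13))
    (@En.n l129 (nat_lit 13084) (nat_lit 13) (nat_lit 10))
    (@En.i (nat_lit 393) (nat_lit 14) (nat_lit 7))
    (@En.n l17 (nat_lit 274) (nat_lit 14) (nat_lit 2))
    (@En.n l18 (nat_lit 274) (nat_lit 15) (nat_lit 2))))
  (@Cl.mk (nat_lit 0x200020007000a000e000d0002000b00030006000d000900050003000e000e) (nat_lit 0x70100000000c0) (nat_lit 16) Lb.e (@T16.mk En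
    (@En.n l5 (nat_lit 275) (nat_lit 1) (nat_lit 14))
    (@En.n l564 (nat_lit 640) (nat_lit 1) (nat_lit 14))
    (@En.n l7 (nat_lit 271) (nat_lit 2) (nat_lit 3))
    (@En.i (nat_lit 13405) (nat_lit 3) (nat_lit 5))
    (@En.i (nat_lit 13505) (nat_lit 4) (nat_lit 9))
    (@En.n l1504 (nat_lit 13500) (nat_lit 6) (nat_lit 13))
    (@En.i (nat_lit 13945) (nat_lit 6) (nat_lit 6))
    (@En.i (nat_lit 274) (nat_lit 7) (nat_lit 3))
    (@En.i (nat_lit 13536) (nat_lit 9) (nat_lit 11))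
    (@En.n l107 (nat_lit 275) (nat_lit 9) (nat_lit 2))
    (@En.n l180 (nat_lit 274) (nat_lit 11) (nat_lit 13))
    (@En.n l619 (nat_lit 13432) (nat_lit 12) (nat_lit 14))
    (@En.i (nat_lit 13087) (nat_lit 13) (nat_lit 10))
    (@En.i (nat_lit 395) (nat_lit 14) (nat_lit 7))
    (@En.n l17 (nat_lit 275) (nat_lit 14) (nat_lit 2))
    (@En.n l18 (nat_lit 275) (nat_lit 15) (nat_lit 2))))
  (@Cl.mk (nat_lit 0x20002000e00060002000b000e000b0002000e000500020005000a000e000e) (nat_lit 0x1008c20c0008bc) (nat_lit 16) Lb.e (@T16.mk En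
    (@En.n l624 (nat_lit 276) (nat_lit 1) (nat_lit 14))
    (@En.i (nat_lit 210) (nat_lit 13) (nat_lit 14))
    (@En.n l2034 (nat_lit 13566) (nat_lit 2) (nat_lit 10))
    (@En.n l2568 (nat_lit 252) (nat_lit 3) (nat_lit 5))
    (@En.n l17 (nat_lit 276) (nat_lit 4) (nat_lit 2))
    (@En.n l2099 (nat_lit 261) (nat_lit 5) (nat_lit 5))
    (@En.n l1012 (nat_lit 277) (nat_lit 7) (nat_lit 14))
    (@En.n l7 (nat_lit 276) (nat_lit 7) (nat_lit 2))
    (@En.n l1013 (nat_lit 277) (nat_lit 9) (nat_lit 11))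
    (@En.i (nat_lit 270) (nat_lit 4) (nat_lit 14))
    (@En.n l2036 (nat_lit 13348) (nat_lit 11) (nat_lit 11))
    (@En.n l11 (nat_lit 276) (nat_lit 11) (nat_lit 2))
    (@En.n l2032 (nat_lit 227) (nat_lit 13) (nat_lit 6))
    (@En.n l2034 (nat_lit 11) (nat_lit 1) (nat_lit 14))
    (@En.n l3 (nat_lit 276) (nat_lit 14) (nat_lit 2))
    (@En.n l476 (nat_lit 276) (nat_lit 15) (nat_lit 2))))
  (@Cl.mk (nat_lit 0x20002000e00060002000c000b000b000e0004000200050005000a000e000e) (nat_lit 0x200812b000089a) (nat_lit 16) Lb.e (@T16.mk En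
    (@En.n l97 (nat_lit 277) (nat_lit 1) (nat_lit 14))
    (@En.i (nat_lit 211) (nat_lit 12) (nat_lit 14))
    (@En.i (nat_lit 13564) (nat_lit 2) (nat_lit 10))
    (@En.n l1295 (nat_lit 276) (nat_lit 3) (nat_lit 5))
    (@En.n l671 (nat_lit 261) (nat_lit 4) (nat_lit 5))
    (@En.n l18 (nat_lit 277) (nat_lit 5) (nat_lit 2))
    (@En.n l50 (nat_lit 260) (nat_lit 6) (nat_lit 4))
    (@En.n l1353 (nat_lit 278) (nat_lit 8) (nat_lit 14))
    (@En.n l2588 (nat_lit 278) (nat_lit 9) (nat_lit 11))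
    (@En.n l2863 (nat_lit 255) (nat_lit 10) (nat_lit 11))
    (@En.n l4497 (nat_lit 13339) (nat_lit 11) (nat_lit 12))
    (@En.n l28 (nat_lit 277) (nat_lit 11) (nat_lit 2))
    (@En.n l4497 (nat_lit 228) (nat_lit 13) (nat_lit 6))
    (@En.n l947 (nat_lit 222) (nat_lit 8) (nat_lit 14))
    (@En.n l107 (nat_lit 277) (nat_lit 14) (nat_lit 2))
    (@En.n l3 (nat_lit 277) (nat_lit 15) (nat_lit 2))))
  (@Cl.mk (nat_lit 0x20002000e00060002000d000b000e00030002000e00050002000a000e000e) (nat_lit 0x30081a0030089a) (nat_lit 16) Lb.e (@T16.mk En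
    (@En.n l97 (nat_lit 278) (nat_lit 1) (nat_lit 14))
    (@En.i (nat_lit 177) (nat_lit 1) (nat_lit 14))
    (@En.n l617 (nat_lit 284) (nat_lit 2) (nat_lit 10))
    (@En.n l17 (nat_lit 278) (nat_lit 3) (nat_lit 2))
    (@En.n l775 (nat_lit 277) (nat_lit 4) (nat_lit 5))
    (@En.i (nat_lit 259) (nat_lit 6) (nat_lit 14))
    (@En.n l776 (nat_lit 278) (nat_lit 6) (nat_lit 2))
    (@En.n l50 (nat_lit 279) (nat_lit 7) (nat_lit 3))
    (@En.n l777 (nat_lit 14087) (nat_lit 4) (nat_lit 14))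
    (@En.n l217 (nat_lit 258) (nat_lit 10) (nat_lit 11))
    (@En.n l7636 (nat_lit 13340) (nat_lit 11) (nat_lit 13))
    (@En.n l28 (nat_lit 278) (nat_lit 11) (nat_lit 2))
    (@En.n l7637 (nat_lit 241) (nat_lit 13) (nat_lit 6))
    (@En.n l778 (nat_lit 223) (nat_lit 1) (nat_lit 14))
    (@En.n l107 (nat_lit 278) (nat_lit 14) (nat_lit 2))
    (@En.n l3 (nat_lit 278) (nat_lit 15) (nat_lit 2))))
  (@Cl.mk (nat_lit 0x20002000e00060002000d000d000c00030003000e00040002000a000e000e) (nat_lit 0x300a9a004008ab) (nat_lit 16) Lb.e (@T16.mk En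
    (@En.n l97 (nat_lit 279) (nat_lit 1) (nat_lit 14))
    (@En.i (nat_lit 174) (nat_lit 1) (nat_lit 14))
    (@En.n l617 (nat_lit 283) (nat_lit 2) (nat_lit 10))
    (@En.n l17 (nat_lit 279) (nat_lit 3) (nat_lit 2))
    (@En.n l775 (nat_lit 260) (nat_lit 4) (nat_lit 4))
    (@En.i (nat_lit 256) (nat_lit 6) (nat_lit 14))
    (@En.n l2593 (nat_lit 282) (nat_lit 6) (nat_lit 3))
    (@En.i (nat_lit 278) (nat_lit 7) (nat_lit 3))
    (@En.n l2348 (nat_lit 281) (nat_lit 9) (nat_lit 12))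
    (@En.n l1363 (nat_lit 278) (nat_lit 10) (nat_lit 13))
    (@En.n l18541 (nat_lit 13343) (nat_lit 11) (nat_lit 13))
    (@En.n l28 (nat_lit 279) (nat_lit 11) (nat_lit 2))
    (@En.n l18541 (nat_lit 238) (nat_lit 13) (nat_lit 6))
    (@En.i (nat_lit 148) (nat_lit 1) (nat_lit 14))
    (@En.n l107 (nat_lit 279) (nat_lit 14) (nat_lit 2))
    (@En.n l3 (nat_lit 279) (nat_lit 15) (nat_lit 2))))
  (@Cl.mk (nat_lit 0x20002000e00060002000e000b0002000e000d000200050003000a000e000e) (nat_lit 0x100b90120008ab) (nat_lit 16) Lb.e (@T16.mk En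
    (@En.n l97 (nat_lit 280) (nat_lit 1) (nat_lit 14))
    (@En.i (nat_lit 208) (nat_lit 12) (nat_lit 14))
    (@En.i (nat_lit 13569) (nat_lit 2) (nat_lit 10))
    (@En.i (nat_lit 281) (nat_lit 3) (nat_lit 3))
    (@En.n l211 (nat_lit 278) (nat_lit 4) (nat_lit 5))
    (@En.n l17 (nat_lit 280) (nat_lit 5) (nat_lit 2))
    (@En.n l211 (nat_lit 281) (nat_lit 7) (nat_lit 13))
    (@En.n l5 (nat_lit 261) (nat_lit 8) (nat_lit 14))
    (@En.n l50 (nat_lit 280) (nat_lit 8) (nat_lit 2))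
    (@En.n l564 (nat_lit 261) (nat_lit 10) (nat_lit 11))
    (@En.n l767 (nat_lit 13595) (nat_lit 11) (nat_lit 14))
    (@En.n l28 (nat_lit 280) (nat_lit 11) (nat_lit 2))
    (@En.n l2561 (nat_lit 242) (nat_lit 13) (nat_lit 6))
    (@En.n l52 (nat_lit 197) (nat_lit 8) (nat_lit 14))
    (@En.n l107 (nat_lit 280) (nat_lit 14) (nat_lit 2))
    (@En.n l3 (nat_lit 280) (nat_lit 15) (nat_lit 2))))
  (@Cl.mk (nat_lit 0x20002000e00060002000e000c0002000d000d000400030003000a000e000e) (nat_lit 0x300c90130008ab) (nat_lit 16) Lb.e (@T16.mk En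
    (@En.n l97 (nat_lit 281) (nat_lit 1) (nat_lit 14))
    (@En.n l210 (nat_lit 173) (nat_lit 1) (nat_lit 14))
    (@En.i (nat_lit 286) (nat_lit 2) (nat_lit 10))
    (@En.n l2570 (nat_lit 280) (nat_lit 3) (nat_lit 3))
    (@En.n l763 (nat_lit 282) (nat_lit 4) (nat_lit 3))
    (@En.i (nat_lit 259) (nat_lit 5) (nat_lit 4))
    (@En.n l764 (nat_lit 282) (nat_lit 7) (nat_lit 13))
    (@En.n l49 (nat_lit 250) (nat_lit 8) (nat_lit 13))
    (@En.n l50 (nat_lit 281) (nat_lit 8) (nat_lit 2))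
    (@En.n l217 (nat_lit 260) (nat_lit 10) (nat_lit 12))
    (@En.n l210 (nat_lit 14101) (nat_lit 11) (nat_lit 14))
    (@En.n l28 (nat_lit 281) (nat_lit 11) (nat_lit 2))
    (@En.n l5887 (nat_lit 239) (nat_lit 13) (nat_lit 6))
    (@En.n l210 (nat_lit 199) (nat_lit 1) (nat_lit 14))
    (@En.n l107 (nat_lit 281) (nat_lit 14) (nat_lit 2))
    (@En.n l3 (nat_lit 281) (nat_lit 15) (nat_lit 2))))
  (@Cl.mk (nat_lit 0x20002000e00060002000e000d0002000d0003000e00030002000a000e000e) (nat_lit 0x300bb020300812) (nat_lit 16) Lb.e (@T16.mk En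
    (@En.n l97 (nat_lit 282) (nat_lit 1) (nat_lit 14))
    (@En.i (nat_lit 8) (nat_lit 1) (nat_lit 14))
    (@En.i (nat_lit 285) (nat_lit 2) (nat_lit 10))
    (@En.n l725 (nat_lit 282) (nat_lit 3) (nat_lit 2))
    (@En.n l2364 (nat_lit 281) (nat_lit 4) (nat_lit 3))
    (@En.n l1643 (nat_lit 270) (nat_lit 0) (nat_lit 14))
    (@En.n l1353 (nat_lit 279) (nat_lit 6) (nat_lit 3))
    (@En.n l1997 (nat_lit 253) (nat_lit 8) (nat_lit 13))
    (@En.n l50 (nat_lit 282) (nat_lit 8) (nat_lit 2))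
    (@En.n l564 (nat_lit 279) (nat_lit 10) (nat_lit 13))
    (@En.n l12534 (nat_lit 14102) (nat_lit 11) (nat_lit 14))
    (@En.n l28 (nat_lit 282) (nat_lit 11) (nat_lit 2))
    (@En.n l12534 (nat_lit 237) (nat_lit 13) (nat_lit 6))
    (@En.n l1997 (nat_lit 210) (nat_lit 1) (nat_lit 14))
    (@En.n l107 (nat_lit 282) (nat_lit 14) (nat_lit 2))
    (@En.n l3 (nat_lit 282) (nat_lit 15) (nat_lit 2))))
  (@Cl.mk (nat_lit 0x20002000d000600090003000d000d000c0003000300070004000a000e000e) (nat_lit 0x7c0) (nat_lit 16) Lb.e (@T16.mk En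
    (@En.n l97 (nat_lit 283) (nat_lit 1) (nat_lit 14))
    (@En.i (nat_lit 3813) (nat_lit 1) (nat_lit 14))
    (@En.i (nat_lit 288) (nat_lit 2) (nat_lit 10))
    (@En.n l403 (nat_lit 287) (nat_lit 3) (nat_lit 4))
    (@En.n l1353 (nat_lit 13161) (nat_lit 4) (nat_lit 7))
    (@En.n l18 (nat_lit 285) (nat_lit 5) (nat_lit 3))
    (@En.i (nat_lit 284) (nat_lit 6) (nat_lit 3))
    (@En.n l6444 (nat_lit 286) (nat_lit 8) (nat_lit 12))
    (@En.n l396 (nat_lit 284) (nat_lit 9) (nat_lit 13))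
    (@En.i (nat_lit 13527) (nat_lit 10) (nat_lit 13))
    (@En.i (nat_lit 13144) (nat_lit 10) (nat_lit 3))
    (@En.n l1353 (nat_lit 13759) (nat_lit 12) (nat_lit 9))
    (@En.n l159 (nat_lit 13809) (nat_lit 13) (nat_lit 6))
    (@En.i (nat_lit 2203) (nat_lit 14) (nat_lit 13))
    (@En.n l107 (nat_lit 283) (nat_lit 14) (nat_lit 2))
    (@En.n l3 (nat_lit 283) (nat_lit 15) (nat_lit 2))))
  (@Cl.mk (nat_lit 0x20002000d000600090003000d000b000e0003000200070005000a000e000e) (nat_lit 0xb0000007c0) (nat_lit 16) Lb.e (@T16.mk En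
    (@En.n l97 (nat_lit 284) (nat_lit 1) (nat_lit 14))
    (@En.i (nat_lit 4015) (nat_lit 12) (nat_lit 14))
    (@En.n l2197 (nat_lit 659) (nat_lit 2) (nat_lit 10))
    (@En.n l403 (nat_lit 13564) (nat_lit 3) (nat_lit 5))
    (@En.n l1353 (nat_lit 13163) (nat_lit 4) (nat_lit 7))
    (@En.n l18 (nat_lit 284) (nat_lit 5) (nat_lit 2))
    (@En.n l50 (nat_lit 283) (nat_lit 6) (nat_lit 3))
    (@En.i (nat_lit 14057) (nat_lit 8) (nat_lit 14))
    (@En.n l2805 (nat_lit 13802) (nat_lit 9) (nat_lit 11))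
    (@En.n l18540 (nat_lit 13420) (nat_lit 10) (nat_lit 13))
    (@En.n l2809 (nat_lit 13145) (nat_lit 10) (nat_lit 3))
    (@En.n l1353 (nat_lit 13760) (nat_lit 12) (nat_lit 9))
    (@En.n l18540 (nat_lit 13808) (nat_lit 13) (nat_lit 6))
    (@En.n l947 (nat_lit 2425) (nat_lit 8) (nat_lit 13))
    (@En.n l107 (nat_lit 284) (nat_lit 14) (nat_lit 2))
    (@En.n l3 (nat_lit 284) (nat_lit 15) (nat_lit 2))))
  (@Cl.mk (nat_lit 0x20002000d000600090003000e000d0002000d000300070003000a000e000e) (nat_lit 0x1000007c0) (nat_lit 16) Lb.e (@T16.mk En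
    (@En.n l97 (nat_lit 285) (nat_lit 1) (nat_lit 14))
    (@En.i (nat_lit 3811) (nat_lit 10) (nat_lit 14))
    (@En.i (nat_lit 289) (nat_lit 2) (nat_lit 10))
    (@En.n l2364 (nat_lit 286) (nat_lit 3) (nat_lit 3))
    (@En.i (nat_lit 13417) (nat_lit 4) (nat_lit 7))
    (@En.i (nat_lit 283) (nat_lit 5) (nat_lit 3))
    (@En.i (nat_lit 13126) (nat_lit 7) (nat_lit 13))
    (@En.n l50 (nat_lit 285) (nat_lit 7) (nat_lit 2))
    (@En.n l396 (nat_lit 283) (nat_lit 9) (nat_lit 13))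
    (@En.i (nat_lit 13579) (nat_lit 10) (nat_lit 14))
    (@En.i (nat_lit 13143) (nat_lit 10) (nat_lit 3))
    (@En.i (nat_lit 13764) (nat_lit 12) (nat_lit 9))
    (@En.n l159 (nat_lit 13812) (nat_lit 13) (nat_lit 6))
    (@En.i (nat_lit 2200) (nat_lit 6) (nat_lit 13))
    (@En.n l107 (nat_lit 285) (nat_lit 14) (nat_lit 2))
    (@En.n l3 (nat_lit 285) (nat_lit 15) (nat_lit 2))))
  (@Cl.mk (nat_lit 0x20002000d0006000a0003000e000c0002000d000600040003000a000e000e) (nat_lit 0xa000007c0) (nat_lit 16) Lb.e (@T16.mk En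
    (@En.n l97 (nat_lit 286) (nat_lit 1) (nat_lit 14))
    (@En.i (nat_lit 3814) (nat_lit 1) (nat_lit 14))
    (@En.i (nat_lit 13575) (nat_lit 2) (nat_lit 10))
    (@En.n l763 (nat_lit 285) (nat_lit 3) (nat_lit 3))
    (@En.i (nat_lit 13156) (nat_lit 4) (nat_lit 4))
    (@En.n l764 (nat_lit 289) (nat_lit 5) (nat_lit 6))
    (@En.n l765 (nat_lit 13124) (nat_lit 7) (nat_lit 13))
    (@En.n l50 (nat_lit 286) (nat_lit 7) (nat_lit 2))
    (@En.n l217 (nat_lit 287) (nat_lit 9) (nat_lit 12))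
    (@En.i (nat_lit 13584) (nat_lit 10) (nat_lit 14))
    (@En.i (nat_lit 13142) (nat_lit 10) (nat_lit 3))
    (@En.i (nat_lit 14051) (nat_lit 12) (nat_lit 10))
    (@En.n l159 (nat_lit 13811) (nat_lit 13) (nat_lit 6))
    (@En.i (nat_lit 2205) (nat_lit 14) (nat_lit 13))
    (@En.n l107 (nat_lit 286) (nat_lit 14) (nat_lit 2))
    (@En.n l3 (nat_lit 286) (nat_lit 15) (nat_lit 2))))
  (@Cl.mk (nat_lit 0x20002000d0006000b0003000c000c000c0005000400040004000a000e000e) (nat_lit 0x90000007c0) (nat_lit 16) Lb.e (@T16.mk En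
    (@En.n l97 (nat_lit 287) (nat_lit 1) (nat_lit 14))
    (@En.i (nat_lit 3817) (nat_lit 1) (nat_lit 14))
    (@En.i (nat_lit 13568) (nat_lit 2) (nat_lit 10))
    (@En.n l1778 (nat_lit 13802) (nat_lit 3) (nat_lit 4))
    (@En.n l2172 (nat_lit 286) (nat_lit 4) (nat_lit 4))
    (@En.i (nat_lit 13158) (nat_lit 5) (nat_lit 4))
    (@En.n l5802 (nat_lit 288) (nat_lit 6) (nat_lit 5))
    (@En.n l742 (nat_lit 13156) (nat_lit 8) (nat_lit 12))
    (@En.n l396 (nat_lit 13564) (nat_lit 9) (nat_lit 12))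
    (@En.n l7 (nat_lit 13526) (nat_lit 10) (nat_lit 12))
    (@En.i (nat_lit 12986) (nat_lit 10) (nat_lit 3))
    (@En.i (nat_lit 14049) (nat_lit 12) (nat_lit 11))
    (@En.n l159 (nat_lit 13807) (nat_lit 13) (nat_lit 6))
    (@En.i (nat_lit 2236) (nat_lit 14) (nat_lit 13))
    (@En.n l107 (nat_lit 287) (nat_lit 14) (nat_lit 2))
    (@En.n l3 (nat_lit 287) (nat_lit 15) (nat_lit 2))))
noncomputable def a18 : T16 Cl := @T16.mk Cl
  (@Cl.mk (nat_lit 0x20002000c0006000b00090004000d000d0005000300030007000a000e000e) (nat_lit 0x100000006c0) (nat_lit 16) Lb.e (@T16.mk En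
    (@En.n l97 (nat_lit 288) (nat_lit 1) (nat_lit 14))
    (@En.n l725 (nat_lit 3086) (nat_lit 1) (nat_lit 14))
    (@En.n l2368 (nat_lit 14101) (nat_lit 2) (nat_lit 10))
    (@En.n l1353 (nat_lit 13165) (nat_lit 3) (nat_lit 7))
    (@En.n l18 (nat_lit 289) (nat_lit 4) (nat_lit 3))
    (@En.n l2197 (nat_lit 659) (nat_lit 5) (nat_lit 3))
    (@En.n l2348 (nat_lit 13590) (nat_lit 6) (nat_lit 5))
    (@En.n l7654 (nat_lit 659) (nat_lit 8) (nat_lit 13))
    (@En.n l7042 (nat_lit 13525) (nat_lit 9) (nat_lit 13))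
    (@En.n l4315 (nat_lit 13151) (nat_lit 9) (nat_lit 4))
    (@En.n l725 (nat_lit 283) (nat_lit 11) (nat_lit 9))
    (@En.i (nat_lit 13886) (nat_lit 12) (nat_lit 11))
    (@En.n l1407 (nat_lit 661) (nat_lit 13) (nat_lit 6))
    (@En.n l3749 (nat_lit 2198) (nat_lit 14) (nat_lit 12))
    (@En.n l107 (nat_lit 288) (nat_lit 14) (nat_lit 2))
    (@En.n l3 (nat_lit 288) (nat_lit 15) (nat_lit 2))))
  (@Cl.mk (nat_lit 0x20002000c0006000a00090004000e000d0002000600030007000a000e000e) (nat_lit 0x100100006c0) (nat_lit 16) Lb.e (@T16.mk En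
    (@En.n l97 (nat_lit 289) (nat_lit 1) (nat_lit 14))
    (@En.n l725 (nat_lit 3911) (nat_lit 11) (nat_lit 14))
    (@En.i (nat_lit 13595) (nat_lit 2) (nat_lit 10))
    (@En.n l617 (nat_lit 13415) (nat_lit 3) (nat_lit 7))
    (@En.i (nat_lit 288) (nat_lit 4) (nat_lit 3))
    (@En.n l387 (nat_lit 13604) (nat_lit 5) (nat_lit 6))
    (@En.n l50 (nat_lit 289) (nat_lit 6) (nat_lit 2))
    (@En.n l396 (nat_lit 288) (nat_lit 8) (nat_lit 13))
    (@En.n l1722 (nat_lit 13577) (nat_lit 9) (nat_lit 14))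
    (@En.i (nat_lit 13153) (nat_lit 9) (nat_lit 4))
    (@En.n l725 (nat_lit 285) (nat_lit 11) (nat_lit 9))
    (@En.i (nat_lit 13851) (nat_lit 12) (nat_lit 10))
    (@En.n l159 (nat_lit 13813) (nat_lit 13) (nat_lit 6))
    (@En.i (nat_lit 2196) (nat_lit 7) (nat_lit 12))
    (@En.n l107 (nat_lit 289) (nat_lit 14) (nat_lit 2))
    (@En.n l3 (nat_lit 289) (nat_lit 15) (nat_lit 2))))
  (@Cl.mk (nat_lit 0x200060005000d000c00090003000e00040002000b000a0007000b000e0005) (nat_lit 0x1000000003c0) (nat_lit 16) Lb.e (@T16.mk En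
    (@En.n l50 (nat_lit 346) (nat_lit 9) (nat_lit 5))
    (@En.n l2381 (nat_lit 679) (nat_lit 11) (nat_lit 14))
    (@En.i (nat_lit 142) (nat_lit 2) (nat_lit 11))
    (@En.n l24373 (nat_lit 6893) (nat_lit 3) (nat_lit 7))
    (@En.n l24374 (nat_lit 534) (nat_lit 4) (nat_lit 10))
    (@En.n l9790 (nat_lit 11763) (nat_lit 6) (nat_lit 11))
    (@En.n l28 (nat_lit 290) (nat_lit 6) (nat_lit 2))
    (@En.n l4178 (nat_lit 291) (nat_lit 7) (nat_lit 4))
    (@En.n l3152 (nat_lit 431) (nat_lit 9) (nat_lit 14))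
    (@En.n l107 (nat_lit 214) (nat_lit 9) (nat_lit 3))
    (@En.n l24374 (nat_lit 1632) (nat_lit 11) (nat_lit 9))
    (@En.n l24375 (nat_lit 217) (nat_lit 12) (nat_lit 12))
    (@En.n l3428 (nat_lit 7531) (nat_lit 13) (nat_lit 13))
    (@En.n l14437 (nat_lit 218) (nat_lit 14) (nat_lit 5))
    (@En.n l3153 (nat_lit 219) (nat_lit 7) (nat_lit 6))
    (@En.n l18 (nat_lit 290) (nat_lit 15) (nat_lit 2))))
  (@Cl.mk (nat_lit 0x200060005000c000c000c000a000400040004000b000a0006000b000e0005) (nat_lit 0x20000000300) (nat_lit 16) Lb.e (@T16.mk En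
    (@En.n l8357 (nat_lit 303) (nat_lit 7) (nat_lit 5))
    (@En.n l1063 (nat_lit 3748) (nat_lit 4) (nat_lit 14))
    (@En.i (nat_lit 143) (nat_lit 2) (nat_lit 11))
    (@En.n l6494 (nat_lit 6888) (nat_lit 3) (nat_lit 6))
    (@En.i (nat_lit 543) (nat_lit 4) (nat_lit 10))
    (@En.n l14412 (nat_lit 11150) (nat_lit 6) (nat_lit 11))
    (@En.n l11 (nat_lit 1027) (nat_lit 6) (nat_lit 4))
    (@En.n l152 (nat_lit 296) (nat_lit 7) (nat_lit 4))
    (@En.n l936 (nat_lit 217) (nat_lit 8) (nat_lit 4))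
    (@En.n l55 (nat_lit 1132) (nat_lit 10) (nat_lit 10))
    (@En.n l2744 (nat_lit 290) (nat_lit 11) (nat_lit 12))
    (@En.n l19234 (nat_lit 1074) (nat_lit 4) (nat_lit 12))
    (@En.i (nat_lit 7530) (nat_lit 13) (nat_lit 12))
    (@En.n l699 (nat_lit 292) (nat_lit 14) (nat_lit 5))
    (@En.n l17 (nat_lit 293) (nat_lit 13) (nat_lit 6))
    (@En.n l18 (nat_lit 291) (nat_lit 15) (nat_lit 2))))
  (@Cl.mk (nat_lit 0x20005000c000c000c000a000400040004000a000d0006000b0003000e0006) (nat_lit 0x200000003010) (nat_lit 16) Lb.e (@T16.mk En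
    (@En.i (nat_lit 293) (nat_lit 14) (nat_lit 6))
    (@En.n l5 (nat_lit 291) (nat_lit 1) (nat_lit 14))
    (@En.i (nat_lit 294) (nat_lit 2) (nat_lit 3))
    (@En.i (nat_lit 204) (nat_lit 3) (nat_lit 11))
    (@En.i (nat_lit 6887) (nat_lit 4) (nat_lit 6))
    (@En.i (nat_lit 13679) (nat_lit 5) (nat_lit 13))
    (@En.n l287 (nat_lit 11149) (nat_lit 7) (nat_lit 10))
    (@En.n l11 (nat_lit 1026) (nat_lit 7) (nat_lit 4))
    (@En.n l152 (nat_lit 295) (nat_lit 8) (nat_lit 4))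
    (@En.n l936 (nat_lit 215) (nat_lit 9) (nat_lit 4))
    (@En.n l55 (nat_lit 1172) (nat_lit 11) (nat_lit 10))
    (@En.n l619 (nat_lit 218) (nat_lit 12) (nat_lit 12))
    (@En.n l5579 (nat_lit 1075) (nat_lit 4) (nat_lit 12))
    (@En.i (nat_lit 6712) (nat_lit 14) (nat_lit 12))
    (@En.i (nat_lit 321) (nat_lit 13) (nat_lit 5))
    (@En.n l17 (nat_lit 292) (nat_lit 15) (nat_lit 2))))
  (@Cl.mk (nat_lit 0x3000600060004000c000c000c0009000400040004000a000a000d0007000c) (nat_lit 0x92000001102) (nat_lit 16) Lb.e (@T16.mk En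
    (@En.i (nat_lit 149) (nat_lit 0) (nat_lit 12))
    (@En.i (nat_lit 2318) (nat_lit 4) (nat_lit 7))
    (@En.n l18 (nat_lit 292) (nat_lit 5) (nat_lit 13))
    (@En.n l61 (nat_lit 292) (nat_lit 6) (nat_lit 10))
    (@En.n l287 (nat_lit 11151) (nat_lit 4) (nat_lit 10))
    (@En.n l11 (nat_lit 1022) (nat_lit 12) (nat_lit 4))
    (@En.n l152 (nat_lit 297) (nat_lit 12) (nat_lit 4))
    (@En.n l936 (nat_lit 216) (nat_lit 0) (nat_lit 4))
    (@En.n l55 (nat_lit 1128) (nat_lit 0) (nat_lit 9))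
    (@En.n l619 (nat_lit 219) (nat_lit 4) (nat_lit 12))
    (@En.n l5579 (nat_lit 1076) (nat_lit 4) (nat_lit 12))
    (@En.i (nat_lit 6711) (nat_lit 12) (nat_lit 12))
    (@En.n l2179 (nat_lit 322) (nat_lit 4) (nat_lit 4))
    (@En.n l2139 (nat_lit 1085) (nat_lit 10) (nat_lit 6))
    (@En.n l2180 (nat_lit 354) (nat_lit 12) (nat_lit 6))
    (@En.n l6204 (nat_lit 300) (nat_lit 15) (nat_lit 3))))
  (@Cl.mk (nat_lit 0x20006000c000c000c0009000400040004000a000d000a00070003000e0006) (nat_lit 0x10000) (nat_lit 16) Lb.e (@T16.mk En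
    (@En.n l6204 (nat_lit 300) (nat_lit 14) (nat_lit 6))
    (@En.n l1708 (nat_lit 1169) (nat_lit 1) (nat_lit 14))
    (@En.n l7 (nat_lit 292) (nat_lit 2) (nat_lit 3))
    (@En.n l21185 (nat_lit 2968) (nat_lit 3) (nat_lit 7))
    (@En.n l420 (nat_lit 291) (nat_lit 4) (nat_lit 10))
    (@En.i (nat_lit 13433) (nat_lit 5) (nat_lit 13))
    (@En.n l11365 (nat_lit 11152) (nat_lit 7) (nat_lit 10))
    (@En.n l11 (nat_lit 1028) (nat_lit 7) (nat_lit 4))
    (@En.n l152 (nat_lit 298) (nat_lit 8) (nat_lit 4))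
    (@En.n l936 (nat_lit 1161) (nat_lit 9) (nat_lit 4))
    (@En.n l20140 (nat_lit 2363) (nat_lit 11) (nat_lit 9))
    (@En.n l619 (nat_lit 301) (nat_lit 12) (nat_lit 12))
    (@En.n l10008 (nat_lit 1077) (nat_lit 4) (nat_lit 12))
    (@En.n l2823 (nat_lit 6713) (nat_lit 14) (nat_lit 12))
    (@En.i (nat_lit 3861) (nat_lit 13) (nat_lit 6))
    (@En.n l17 (nat_lit 294) (nat_lit 15) (nat_lit 2))))
  (@Cl.mk (nat_lit 0x20005000e000c0002000d000b00040003000a000d0005000b0003000e0006) (nat_lit 0x91030000003000) (nat_lit 16) Lb.e (@T16.mk En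
    (@En.i (nat_lit 297) (nat_lit 4) (nat_lit 6))
    (@En.n l5 (nat_lit 296) (nat_lit 1) (nat_lit 14))
    (@En.i (nat_lit 298) (nat_lit 2) (nat_lit 3))
    (@En.i (nat_lit 220) (nat_lit 3) (nat_lit 11))
    (@En.i (nat_lit 6894) (nat_lit 4) (nat_lit 5))
    (@En.i (nat_lit 13683) (nat_lit 5) (nat_lit 13))
    (@En.n l287 (nat_lit 11214) (nat_lit 11) (nat_lit 10))
    (@En.n l11 (nat_lit 1064) (nat_lit 7) (nat_lit 3))
    (@En.i (nat_lit 218) (nat_lit 8) (nat_lit 4))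
    (@En.n l55 (nat_lit 1186) (nat_lit 10) (nat_lit 11))
    (@En.n l615 (nat_lit 412) (nat_lit 11) (nat_lit 13))
    (@En.n l3 (nat_lit 295) (nat_lit 11) (nat_lit 2))
    (@En.i (nat_lit 292) (nat_lit 13) (nat_lit 12))
    (@En.i (nat_lit 6351) (nat_lit 1) (nat_lit 14))
    (@En.i (nat_lit 319) (nat_lit 13) (nat_lit 5))
    (@En.n l17 (nat_lit 295) (nat_lit 15) (nat_lit 2))))
  (@Cl.mk (nat_lit 0x200060005000e000c0002000d000b00040003000b000a0005000b000e0005) (nat_lit 0x91030000003c0) (nat_lit 16) Lb.e (@T16.mk En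
    (@En.n l8357 (nat_lit 304) (nat_lit 5) (nat_lit 5))
    (@En.n l1063 (nat_lit 678) (nat_lit 7) (nat_lit 14))
    (@En.n l3291 (nat_lit 145) (nat_lit 2) (nat_lit 11))
    (@En.n l6494 (nat_lit 6895) (nat_lit 3) (nat_lit 5))
    (@En.i (nat_lit 518) (nat_lit 4) (nat_lit 10))
    (@En.n l14412 (nat_lit 11213) (nat_lit 11) (nat_lit 11))
    (@En.n l11 (nat_lit 307) (nat_lit 6) (nat_lit 3))
    (@En.n l14445 (nat_lit 290) (nat_lit 7) (nat_lit 4))
    (@En.n l55 (nat_lit 1136) (nat_lit 9) (nat_lit 11))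
    (@En.n l615 (nat_lit 404) (nat_lit 10) (nat_lit 13))
    (@En.n l3 (nat_lit 296) (nat_lit 10) (nat_lit 2))
    (@En.i (nat_lit 291) (nat_lit 12) (nat_lit 12))
    (@En.n l1063 (nat_lit 6769) (nat_lit 13) (nat_lit 14))
    (@En.n l699 (nat_lit 295) (nat_lit 14) (nat_lit 5))
    (@En.n l17 (nat_lit 297) (nat_lit 3) (nat_lit 6))
    (@En.n l18 (nat_lit 296) (nat_lit 15) (nat_lit 2))))
  (@Cl.mk (nat_lit 0x2000d000a00040003000a000a000d0006000c0003000600060004000e000c) (nat_lit 0x300001103000091) (nat_lit 16) Lb.e (@T16.mk En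
    (@En.i (nat_lit 293) (nat_lit 11) (nat_lit 12))
    (@En.i (nat_lit 6349) (nat_lit 1) (nat_lit 14))
    (@En.n l2179 (nat_lit 320) (nat_lit 2) (nat_lit 4))
    (@En.n l2139 (nat_lit 1120) (nat_lit 10) (nat_lit 6))
    (@En.n l2180 (nat_lit 378) (nat_lit 12) (nat_lit 6))
    (@En.n l8466 (nat_lit 299) (nat_lit 5) (nat_lit 3))
    (@En.i (nat_lit 205) (nat_lit 0) (nat_lit 12))
    (@En.n l8467 (nat_lit 7917) (nat_lit 7) (nat_lit 6))
    (@En.n l18 (nat_lit 295) (nat_lit 5) (nat_lit 13))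
    (@En.n l61 (nat_lit 295) (nat_lit 6) (nat_lit 10))
    (@En.n l287 (nat_lit 11217) (nat_lit 11) (nat_lit 10))
    (@En.n l11 (nat_lit 1065) (nat_lit 11) (nat_lit 3))
    (@En.i (nat_lit 219) (nat_lit 0) (nat_lit 4))
    (@En.n l55 (nat_lit 1127) (nat_lit 14) (nat_lit 10))
    (@En.n l615 (nat_lit 406) (nat_lit 1) (nat_lit 13))
    (@En.n l3 (nat_lit 297) (nat_lit 15) (nat_lit 2))))
  (@Cl.mk (nat_lit 0x20006000e000c0002000d000a00040003000a000d000a00060003000e0006) (nat_lit 0x1000000010000) (nat_lit 16) Lb.e (@T16.mk En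
    (@En.n l8466 (nat_lit 299) (nat_lit 4) (nat_lit 6))
    (@En.n l1708 (nat_lit 2642) (nat_lit 1) (nat_lit 14))
    (@En.n l7 (nat_lit 295) (nat_lit 2) (nat_lit 3))
    (@En.n l11 (nat_lit 2975) (nat_lit 3) (nat_lit 6))
    (@En.n l420 (nat_lit 296) (nat_lit 4) (nat_lit 10))
    (@En.i (nat_lit 13432) (nat_lit 5) (nat_lit 13))
    (@En.n l287 (nat_lit 11216) (nat_lit 11) (nat_lit 10))
    (@En.n l11 (nat_lit 1069) (nat_lit 7) (nat_lit 3))
    (@En.i (nat_lit 301) (nat_lit 8) (nat_lit 4))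
    (@En.i (nat_lit 2365) (nat_lit 10) (nat_lit 10))
    (@En.n l615 (nat_lit 486) (nat_lit 11) (nat_lit 13))
    (@En.n l3 (nat_lit 298) (nat_lit 11) (nat_lit 2))
    (@En.i (nat_lit 294) (nat_lit 13) (nat_lit 12))
    (@En.n l439 (nat_lit 6753) (nat_lit 1) (nat_lit 14))
    (@En.i (nat_lit 3864) (nat_lit 2) (nat_lit 6))
    (@En.n l17 (nat_lit 298) (nat_lit 15) (nat_lit 2))))
  (@Cl.mk (nat_lit 0x2000d000900040003000a000a000d000b00070003000600060005000e000c) (nat_lit 0x1100000000) (nat_lit 16) Lb.e (@T16.mk En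
    (@En.n l2221 (nat_lit 300) (nat_lit 11) (nat_lit 12))
    (@En.n l17363 (nat_lit 6752) (nat_lit 1) (nat_lit 14))
    (@En.n l2221 (nat_lit 3865) (nat_lit 2) (nat_lit 5))
    (@En.n l17364 (nat_lit 1122) (nat_lit 3) (nat_lit 6))
    (@En.n l17365 (nat_lit 1377) (nat_lit 12) (nat_lit 6))
    (@En.n l17366 (nat_lit 297) (nat_lit 5) (nat_lit 3))
    (@En.n l17367 (nat_lit 2973) (nat_lit 0) (nat_lit 7))
    (@En.n l10853 (nat_lit 304) (nat_lit 8) (nat_lit 11))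
    (@En.n l2520 (nat_lit 298) (nat_lit 5) (nat_lit 13))
    (@En.n l17368 (nat_lit 298) (nat_lit 6) (nat_lit 10))
    (@En.n l2215 (nat_lit 11218) (nat_lit 11) (nat_lit 10))
    (@En.n l50 (nat_lit 1070) (nat_lit 11) (nat_lit 3))
    (@En.n l13546 (nat_lit 302) (nat_lit 0) (nat_lit 4))
    (@En.i (nat_lit 2345) (nat_lit 14) (nat_lit 9))
    (@En.n l17369 (nat_lit 413) (nat_lit 1) (nat_lit 13))
    (@En.n l28 (nat_lit 299) (nat_lit 15) (nat_lit 2))))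
  (@Cl.mk (nat_lit 0x3000600060005000c000c000c0008000400040004000a000a000d000b0008) (nat_lit 0xa00000001100) (nat_lit 16) Lb.e (@T16.mk En
    (@En.n l15413 (nat_lit 2967) (nat_lit 0) (nat_lit 8))
    (@En.n l15353 (nat_lit 303) (nat_lit 10) (nat_lit 11))
    (@En.n l5838 (nat_lit 294) (nat_lit 5) (nat_lit 13))
    (@En.n l8149 (nat_lit 294) (nat_lit 6) (nat_lit 10))
    (@En.n l15414 (nat_lit 11153) (nat_lit 4) (nat_lit 10))
    (@En.n l15415 (nat_lit 1025) (nat_lit 12) (nat_lit 4))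
    (@En.n l15355 (nat_lit 299) (nat_lit 12) (nat_lit 4))
    (@En.n l15416 (nat_lit 1158) (nat_lit 0) (nat_lit 4))
    (@En.i (nat_lit 2347) (nat_lit 0) (nat_lit 8))
    (@En.n l15417 (nat_lit 302) (nat_lit 4) (nat_lit 12))
    (@En.n l8193 (nat_lit 1078) (nat_lit 4) (nat_lit 12))
    (@En.n l7979 (nat_lit 6714) (nat_lit 12) (nat_lit 12))
    (@En.i (nat_lit 3863) (nat_lit 11) (nat_lit 5))
    (@En.n l403 (nat_lit 1087) (nat_lit 10) (nat_lit 6))
    (@En.n l15416 (nat_lit 1373) (nat_lit 12) (nat_lit 6))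
    (@En.n l15352 (nat_lit 293) (nat_lit 15) (nat_lit 3))))
  (@Cl.mk (nat_lit 0x20006000d000c00080003000e00040002000a000d000a00080003000e0006) (nat_lit 0xa000000010000) (nat_lit 16) Lb.e (@T16.mk En
    (@En.n l9299 (nat_lit 302) (nat_lit 8) (nat_lit 6))
    (@En.n l25323 (nat_lit 1164) (nat_lit 1) (nat_lit 14))
    (@En.n l7 (nat_lit 218) (nat_lit 2) (nat_lit 3))
    (@En.n l25324 (nat_lit 2988) (nat_lit 12) (nat_lit 8))
    (@En.n l25325 (nat_lit 290) (nat_lit 4) (nat_lit 10))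
    (@En.i (nat_lit 13689) (nat_lit 5) (nat_lit 13))
    (@En.n l614 (nat_lit 11765) (nat_lit 12) (nat_lit 10))
    (@En.n l11 (nat_lit 301) (nat_lit 7) (nat_lit 2))
    (@En.n l117 (nat_lit 294) (nat_lit 8) (nat_lit 4))
    (@En.n l2691 (nat_lit 490) (nat_lit 10) (nat_lit 14))
    (@En.n l936 (nat_lit 1159) (nat_lit 10) (nat_lit 3))
    (@En.i (nat_lit 2098) (nat_lit 12) (nat_lit 8))
    (@En.n l936 (nat_lit 1161) (nat_lit 13) (nat_lit 12))
    (@En.n l25326 (nat_lit 6709) (nat_lit 6) (nat_lit 13))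
    (@En.n l18430 (nat_lit 3334) (nat_lit 6) (nat_lit 6))
    (@En.n l17 (nat_lit 301) (nat_lit 15) (nat_lit 2))))
  (@Cl.mk (nat_lit 0x2000a000a000d000b00090003000600060005000d000c00070003000e0004) (nat_lit 0x110000000a0000) (nat_lit 16) Lb.e (@T16.mk En
    (@En.n l21800 (nat_lit 300) (nat_lit 6) (nat_lit 4))
    (@En.n l21801 (nat_lit 488) (nat_lit 1) (nat_lit 14))
    (@En.n l50 (nat_lit 1160) (nat_lit 2) (nat_lit 3))
    (@En.n l1422 (nat_lit 2096) (nat_lit 3) (nat_lit 7))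
    (@En.n l217 (nat_lit 1158) (nat_lit 4) (nat_lit 12))
    (@En.n l1589 (nat_lit 6708) (nat_lit 6) (nat_lit 13))
    (@En.n l15230 (nat_lit 3336) (nat_lit 6) (nat_lit 5))
    (@En.n l7041 (nat_lit 1115) (nat_lit 10) (nat_lit 6))
    (@En.i (nat_lit 1372) (nat_lit 8) (nat_lit 6))
    (@En.n l21802 (nat_lit 219) (nat_lit 9) (nat_lit 3))
    (@En.i (nat_lit 2903) (nat_lit 0) (nat_lit 9))
    (@En.n l12114 (nat_lit 346) (nat_lit 12) (nat_lit 11))
    (@En.n l21803 (nat_lit 301) (nat_lit 5) (nat_lit 13))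
    (@En.n l21804 (nat_lit 301) (nat_lit 6) (nat_lit 10))
    (@En.n l1236 (nat_lit 11767) (nat_lit 4) (nat_lit 10))
    (@En.n l17 (nat_lit 302) (nat_lit 15) (nat_lit 2))))
  (@Cl.mk (nat_lit 0x400040004000b000b000b0007000c0005000500050004000c000c000c0009) (nat_lit 0x1901000000a0) (nat_lit 16) Lb.e (@T16.mk En
    (@En.i (nat_lit 1130) (nat_lit 0) (nat_lit 9))
    (@En.n l13856 (nat_lit 346) (nat_lit 4) (nat_lit 12))
    (@En.i (nat_lit 1079) (nat_lit 4) (nat_lit 12))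
    (@En.n l13857 (nat_lit 2412) (nat_lit 3) (nat_lit 12))
    (@En.n l817 (nat_lit 293) (nat_lit 12) (nat_lit 4))
    (@En.n l601 (nat_lit 354) (nat_lit 11) (nat_lit 5))
    (@En.n l77 (nat_lit 1102) (nat_lit 11) (nat_lit 5))
    (@En.n l6064 (nat_lit 861) (nat_lit 7) (nat_lit 5))
    (@En.n l13858 (nat_lit 6) (nat_lit 0) (nat_lit 12))
    (@En.n l13859 (nat_lit 2316) (nat_lit 1) (nat_lit 7))
    (@En.n l397 (nat_lit 325) (nat_lit 5) (nat_lit 11))
    (@En.n l5670 (nat_lit 291) (nat_lit 5) (nat_lit 11))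
    (@En.n l13860 (nat_lit 11198) (nat_lit 13) (nat_lit 11))
    (@En.n l11 (nat_lit 1020) (nat_lit 12) (nat_lit 4))
    (@En.n l152 (nat_lit 304) (nat_lit 12) (nat_lit 4))
    (@En.n l936 (nat_lit 348) (nat_lit 0) (nat_lit 4))))
noncomputable def a19 : T16 Cl := @T16.mk Cl
  (@Cl.mk (nat_lit 0x2000d000a00040003000b000b000b0006000c0005000500050004000e000c) (nat_lit 0x1901000001) (nat_lit 16) Lb.e (@T16.mk En
    (@En.i (nat_lit 303) (nat_lit 3) (nat_lit 12))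
    (@En.i (nat_lit 6764) (nat_lit 1) (nat_lit 14))
    (@En.n l817 (nat_lit 297) (nat_lit 2) (nat_lit 4))
    (@En.n l601 (nat_lit 378) (nat_lit 11) (nat_lit 5))
    (@En.n l77 (nat_lit 1118) (nat_lit 11) (nat_lit 5))
    (@En.n l6064 (nat_lit 852) (nat_lit 5) (nat_lit 5))
    (@En.n l5852 (nat_lit 136) (nat_lit 7) (nat_lit 12))
    (@En.n l2254 (nat_lit 7916) (nat_lit 7) (nat_lit 6))
    (@En.n l397 (nat_lit 311) (nat_lit 5) (nat_lit 11))
    (@En.n l5670 (nat_lit 296) (nat_lit 5) (nat_lit 11))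
    (@En.n l14165 (nat_lit 11200) (nat_lit 11) (nat_lit 11))
    (@En.n l11 (nat_lit 305) (nat_lit 11) (nat_lit 3))
    (@En.n l7594 (nat_lit 346) (nat_lit 0) (nat_lit 4))
    (@En.i (nat_lit 1129) (nat_lit 14) (nat_lit 10))
    (@En.i (nat_lit 401) (nat_lit 1) (nat_lit 13))
    (@En.n l3 (nat_lit 304) (nat_lit 15) (nat_lit 2))))
  (@Cl.mk (nat_lit 0x2000d0003000b0003000b000b000b0005000c0005000500050004000e000d) (nat_lit 0x1000000) (nat_lit 16) Lb.e (@T16.mk En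
    (@En.i (nat_lit 306) (nat_lit 2) (nat_lit 13))
    (@En.i (nat_lit 6766) (nat_lit 1) (nat_lit 14))
    (@En.n l817 (nat_lit 1065) (nat_lit 2) (nat_lit 4))
    (@En.n l601 (nat_lit 376) (nat_lit 11) (nat_lit 5))
    (@En.n l77 (nat_lit 1117) (nat_lit 11) (nat_lit 5))
    (@En.n l6064 (nat_lit 855) (nat_lit 5) (nat_lit 5))
    (@En.n l5852 (nat_lit 150) (nat_lit 7) (nat_lit 12))
    (@En.n l27874 (nat_lit 6167) (nat_lit 7) (nat_lit 5))
    (@En.n l397 (nat_lit 309) (nat_lit 5) (nat_lit 11))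
    (@En.n l5670 (nat_lit 307) (nat_lit 5) (nat_lit 11))
    (@En.i (nat_lit 5935) (nat_lit 11) (nat_lit 11))
    (@En.i (nat_lit 304) (nat_lit 11) (nat_lit 3))
    (@En.n l5852 (nat_lit 4980) (nat_lit 0) (nat_lit 11))
    (@En.n l117 (nat_lit 306) (nat_lit 14) (nat_lit 3))
    (@En.i (nat_lit 402) (nat_lit 0) (nat_lit 13))
    (@En.n l3 (nat_lit 305) (nat_lit 15) (nat_lit 2))))
  (@Cl.mk (nat_lit 0x30003000b0004000b000b000b0005000c0005000500050004000d000d000c) (nat_lit 0x10000b02) (nat_lit 16) Lb.e (@T16.mk En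
    (@En.n l619 (nat_lit 304) (nat_lit 0) (nat_lit 12))
    (@En.n l97 (nat_lit 312) (nat_lit 3) (nat_lit 13))
    (@En.i (nat_lit 6300) (nat_lit 2) (nat_lit 13))
    (@En.n l817 (nat_lit 1060) (nat_lit 3) (nat_lit 4))
    (@En.n l601 (nat_lit 377) (nat_lit 11) (nat_lit 5))
    (@En.n l77 (nat_lit 1116) (nat_lit 11) (nat_lit 5))
    (@En.n l6064 (nat_lit 857) (nat_lit 6) (nat_lit 5))
    (@En.n l13858 (nat_lit 104) (nat_lit 8) (nat_lit 12))
    (@En.n l217 (nat_lit 6166) (nat_lit 8) (nat_lit 5))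
    (@En.n l397 (nat_lit 310) (nat_lit 5) (nat_lit 11))
    (@En.n l5670 (nat_lit 308) (nat_lit 5) (nat_lit 11))
    (@En.i (nat_lit 5936) (nat_lit 12) (nat_lit 11))
    (@En.i (nat_lit 303) (nat_lit 13) (nat_lit 4))
    (@En.n l476 (nat_lit 1049) (nat_lit 0) (nat_lit 11))
    (@En.n l152 (nat_lit 305) (nat_lit 13) (nat_lit 3))
    (@En.i (nat_lit 312) (nat_lit 0) (nat_lit 3))))
  (@Cl.mk (nat_lit 0x200060005000e000d0002000d0003000c0003000b000a0004000b000e0005) (nat_lit 0x9b03000900300) (nat_lit 16) Lb.e (@T16.mk En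
    (@En.n l8357 (nat_lit 305) (nat_lit 5) (nat_lit 5))
    (@En.n l1063 (nat_lit 681) (nat_lit 7) (nat_lit 14))
    (@En.n l3291 (nat_lit 153) (nat_lit 2) (nat_lit 11))
    (@En.i (nat_lit 6201) (nat_lit 3) (nat_lit 4))
    (@En.i (nat_lit 516) (nat_lit 4) (nat_lit 10))
    (@En.i (nat_lit 6075) (nat_lit 11) (nat_lit 11))
    (@En.i (nat_lit 296) (nat_lit 6) (nat_lit 3))
    (@En.n l3291 (nat_lit 4912) (nat_lit 8) (nat_lit 12))
    (@En.n l117 (nat_lit 308) (nat_lit 8) (nat_lit 3))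
    (@En.i (nat_lit 430) (nat_lit 10) (nat_lit 13))
    (@En.n l3 (nat_lit 307) (nat_lit 10) (nat_lit 2))
    (@En.i (nat_lit 308) (nat_lit 12) (nat_lit 13))
    (@En.n l1063 (nat_lit 6771) (nat_lit 13) (nat_lit 14))
    (@En.n l699 (nat_lit 1064) (nat_lit 14) (nat_lit 5))
    (@En.n l17 (nat_lit 1065) (nat_lit 3) (nat_lit 6))
    (@En.n l18 (nat_lit 307) (nat_lit 15) (nat_lit 2))))
  (@Cl.mk (nat_lit 0x200060005000d000d000c00030003000c0004000b000a0004000b000e0005) (nat_lit 0xab20000900300) (nat_lit 16) Lb.e (@T16.mk En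
    (@En.n l8357 (nat_lit 306) (nat_lit 6) (nat_lit 5))
    (@En.n l1063 (nat_lit 2644) (nat_lit 4) (nat_lit 14))
    (@En.i (nat_lit 151) (nat_lit 2) (nat_lit 11))
    (@En.n l9742 (nat_lit 6202) (nat_lit 3) (nat_lit 4))
    (@En.i (nat_lit 514) (nat_lit 4) (nat_lit 10))
    (@En.n l8359 (nat_lit 6076) (nat_lit 12) (nat_lit 11))
    (@En.i (nat_lit 291) (nat_lit 6) (nat_lit 4))
    (@En.n l476 (nat_lit 1047) (nat_lit 8) (nat_lit 12))
    (@En.n l152 (nat_lit 307) (nat_lit 8) (nat_lit 3))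
    (@En.n l1865 (nat_lit 314) (nat_lit 9) (nat_lit 3))
    (@En.n l619 (nat_lit 296) (nat_lit 11) (nat_lit 12))
    (@En.n l1867 (nat_lit 314) (nat_lit 12) (nat_lit 13))
    (@En.i (nat_lit 6305) (nat_lit 13) (nat_lit 13))
    (@En.n l699 (nat_lit 1063) (nat_lit 14) (nat_lit 5))
    (@En.n l17 (nat_lit 1060) (nat_lit 4) (nat_lit 6))
    (@En.n l18 (nat_lit 308) (nat_lit 15) (nat_lit 2))))
  (@Cl.mk (nat_lit 0x20005000e000d0002000d0003000c0003000c000b0004000b0004000e0005) (nat_lit 0x901000) (nat_lit 16) Lb.e (@T16.mk En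
    (@En.n l5784 (nat_lit 305) (nat_lit 4) (nat_lit 5))
    (@En.n l396 (nat_lit 318) (nat_lit 1) (nat_lit 14))
    (@En.i (nat_lit 858) (nat_lit 2) (nat_lit 4))
    (@En.n l2568 (nat_lit 107) (nat_lit 3) (nat_lit 11))
    (@En.i (nat_lit 6135) (nat_lit 4) (nat_lit 4))
    (@En.n l644 (nat_lit 515) (nat_lit 10) (nat_lit 11))
    (@En.i (nat_lit 6266) (nat_lit 7) (nat_lit 12))
    (@En.i (nat_lit 311) (nat_lit 7) (nat_lit 3))
    (@En.n l2568 (nat_lit 4982) (nat_lit 9) (nat_lit 12))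
    (@En.n l117 (nat_lit 310) (nat_lit 9) (nat_lit 3))
    (@En.i (nat_lit 400) (nat_lit 11) (nat_lit 13))
    (@En.n l3 (nat_lit 309) (nat_lit 11) (nat_lit 2))
    (@En.i (nat_lit 310) (nat_lit 13) (nat_lit 13))
    (@En.i (nat_lit 7978) (nat_lit 1) (nat_lit 14))
    (@En.n l640 (nat_lit 307) (nat_lit 13) (nat_lit 5))
    (@En.n l18 (nat_lit 309) (nat_lit 15) (nat_lit 2))))
  (@Cl.mk (nat_lit 0x20005000d000d000c00030003000c0004000c000b0004000b0004000e0005) (nat_lit 0xb0000000901000) (nat_lit 16) Lb.e (@T16.mk En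
    (@En.n l5784 (nat_lit 306) (nat_lit 5) (nat_lit 5))
    (@En.n l396 (nat_lit 316) (nat_lit 1) (nat_lit 14))
    (@En.i (nat_lit 859) (nat_lit 2) (nat_lit 4))
    (@En.i (nat_lit 100) (nat_lit 3) (nat_lit 11))
    (@En.i (nat_lit 6132) (nat_lit 4) (nat_lit 4))
    (@En.n l644 (nat_lit 509) (nat_lit 5) (nat_lit 11))
    (@En.i (nat_lit 6264) (nat_lit 7) (nat_lit 12))
    (@En.i (nat_lit 325) (nat_lit 7) (nat_lit 4))
    (@En.n l476 (nat_lit 912) (nat_lit 9) (nat_lit 12))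
    (@En.n l152 (nat_lit 309) (nat_lit 9) (nat_lit 3))
    (@En.i (nat_lit 313) (nat_lit 10) (nat_lit 3))
    (@En.n l619 (nat_lit 311) (nat_lit 12) (nat_lit 12))
    (@En.n l97 (nat_lit 313) (nat_lit 13) (nat_lit 13))
    (@En.i (nat_lit 6397) (nat_lit 14) (nat_lit 13))
    (@En.n l640 (nat_lit 308) (nat_lit 13) (nat_lit 5))
    (@En.n l18 (nat_lit 310) (nat_lit 15) (nat_lit 2))))
  (@Cl.mk (nat_lit 0x20005000e000c0002000d000b00040003000c000b0005000b0004000e0005) (nat_lit 0xa000000801000) (nat_lit 16) Lb.e (@T16.mk En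
    (@En.n l5784 (nat_lit 304) (nat_lit 4) (nat_lit 5))
    (@En.n l396 (nat_lit 319) (nat_lit 1) (nat_lit 14))
    (@En.i (nat_lit 860) (nat_lit 2) (nat_lit 4))
    (@En.n l2568 (nat_lit 106) (nat_lit 3) (nat_lit 11))
    (@En.n l916 (nat_lit 7156) (nat_lit 4) (nat_lit 5))
    (@En.n l644 (nat_lit 519) (nat_lit 10) (nat_lit 11))
    (@En.n l287 (nat_lit 11266) (nat_lit 7) (nat_lit 12))
    (@En.n l11 (nat_lit 309) (nat_lit 7) (nat_lit 3))
    (@En.n l2238 (nat_lit 326) (nat_lit 8) (nat_lit 4))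
    (@En.n l55 (nat_lit 1137) (nat_lit 10) (nat_lit 11))
    (@En.i (nat_lit 398) (nat_lit 11) (nat_lit 13))
    (@En.n l3 (nat_lit 311) (nat_lit 11) (nat_lit 2))
    (@En.i (nat_lit 325) (nat_lit 13) (nat_lit 12))
    (@En.i (nat_lit 7977) (nat_lit 1) (nat_lit 14))
    (@En.n l640 (nat_lit 296) (nat_lit 13) (nat_lit 5))
    (@En.n l18 (nat_lit 311) (nat_lit 15) (nat_lit 2))))
  (@Cl.mk (nat_lit 0x2000b0005000b000b000b0005000c0005000500050004000d000b000e0003) (nat_lit 0x10000b000) (nat_lit 16) Lb.e (@T16.mk En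
    (@En.n l107 (nat_lit 306) (nat_lit 15) (nat_lit 3))
    (@En.n l14747 (nat_lit 14049) (nat_lit 0) (nat_lit 14))
    (@En.i (nat_lit 1020) (nat_lit 2) (nat_lit 11))
    (@En.n l14747 (nat_lit 6298) (nat_lit 2) (nat_lit 13))
    (@En.n l7703 (nat_lit 1062) (nat_lit 4) (nat_lit 4))
    (@En.n l18168 (nat_lit 1088) (nat_lit 11) (nat_lit 5))
    (@En.n l77 (nat_lit 1144) (nat_lit 6) (nat_lit 5))
    (@En.n l6064 (nat_lit 862) (nat_lit 7) (nat_lit 5))
    (@En.n l27876 (nat_lit 102) (nat_lit 9) (nat_lit 12))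
    (@En.n l27877 (nat_lit 6169) (nat_lit 9) (nat_lit 5))
    (@En.n l397 (nat_lit 313) (nat_lit 5) (nat_lit 11))
    (@En.n l27878 (nat_lit 314) (nat_lit 5) (nat_lit 11))
    (@En.n l7703 (nat_lit 5938) (nat_lit 13) (nat_lit 11))
    (@En.n l117 (nat_lit 1079) (nat_lit 14) (nat_lit 5))
    (@En.n l7705 (nat_lit 1050) (nat_lit 14) (nat_lit 11))
    (@En.n l67 (nat_lit 312) (nat_lit 15) (nat_lit 2))))
  (@Cl.mk (nat_lit 0x20005000d000b000e00030002000c0005000c000b0004000b0004000e0005) (nat_lit 0xb0000000901000) (nat_lit 16) Lb.e (@T16.mk En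
    (@En.n l5784 (nat_lit 312) (nat_lit 6) (nat_lit 5))
    (@En.n l19863 (nat_lit 908) (nat_lit 1) (nat_lit 14))
    (@En.i (nat_lit 3737) (nat_lit 2) (nat_lit 4))
    (@En.n l1106 (nat_lit 98) (nat_lit 3) (nat_lit 11))
    (@En.n l1652 (nat_lit 6131) (nat_lit 4) (nat_lit 4))
    (@En.n l644 (nat_lit 510) (nat_lit 12) (nat_lit 11))
    (@En.n l1865 (nat_lit 6265) (nat_lit 7) (nat_lit 12))
    (@En.n l117 (nat_lit 906) (nat_lit 14) (nat_lit 5))
    (@En.n l7705 (nat_lit 910) (nat_lit 9) (nat_lit 12))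
    (@En.n l67 (nat_lit 313) (nat_lit 9) (nat_lit 2))
    (@En.n l107 (nat_lit 310) (nat_lit 10) (nat_lit 3))
    (@En.n l1106 (nat_lit 14047) (nat_lit 0) (nat_lit 14))
    (@En.i (nat_lit 1002) (nat_lit 13) (nat_lit 11))
    (@En.n l1106 (nat_lit 6395) (nat_lit 14) (nat_lit 13))
    (@En.n l19864 (nat_lit 314) (nat_lit 13) (nat_lit 5))
    (@En.n l18 (nat_lit 313) (nat_lit 15) (nat_lit 2))))
  (@Cl.mk (nat_lit 0x200060005000d000b000e00030002000c0005000b000a0004000b000e0005) (nat_lit 0xa000000900300) (nat_lit 16) Lb.e (@T16.mk En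
    (@En.n l28733 (nat_lit 312) (nat_lit 7) (nat_lit 5))
    (@En.n l14602 (nat_lit 3749) (nat_lit 9) (nat_lit 14))
    (@En.n l4415 (nat_lit 160) (nat_lit 2) (nat_lit 11))
    (@En.n l28734 (nat_lit 6204) (nat_lit 3) (nat_lit 4))
    (@En.i (nat_lit 512) (nat_lit 4) (nat_lit 10))
    (@En.n l3506 (nat_lit 6234) (nat_lit 13) (nat_lit 11))
    (@En.n l28735 (nat_lit 1074) (nat_lit 14) (nat_lit 5))
    (@En.n l3337 (nat_lit 1048) (nat_lit 8) (nat_lit 12))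
    (@En.n l17 (nat_lit 314) (nat_lit 8) (nat_lit 2))
    (@En.n l2869 (nat_lit 308) (nat_lit 9) (nat_lit 3))
    (@En.n l1559 (nat_lit 14097) (nat_lit 0) (nat_lit 14))
    (@En.n l2579 (nat_lit 1027) (nat_lit 12) (nat_lit 11))
    (@En.n l8122 (nat_lit 6302) (nat_lit 13) (nat_lit 13))
    (@En.n l7471 (nat_lit 1061) (nat_lit 14) (nat_lit 5))
    (@En.n l7 (nat_lit 1062) (nat_lit 5) (nat_lit 6))
    (@En.n l28 (nat_lit 314) (nat_lit 15) (nat_lit 2))))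
  (@Cl.mk (nat_lit 0x30003000b00040009000c000c0005000c0004000400070004000d000d000c) (nat_lit 0x1001000000a) (nat_lit 16) Lb.e (@T16.mk En
    (@En.n l619 (nat_lit 320) (nat_lit 0) (nat_lit 12))
    (@En.n l1867 (nat_lit 364) (nat_lit 3) (nat_lit 13))
    (@En.i (nat_lit 5480) (nat_lit 2) (nat_lit 13))
    (@En.n l5834 (nat_lit 306) (nat_lit 3) (nat_lit 4))
    (@En.n l7 (nat_lit 365) (nat_lit 11) (nat_lit 7))
    (@En.n l644 (nat_lit 365) (nat_lit 12) (nat_lit 4))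
    (@En.n l5838 (nat_lit 4274) (nat_lit 6) (nat_lit 4))
    (@En.n l5882 (nat_lit 10) (nat_lit 0) (nat_lit 12))
    (@En.i (nat_lit 5664) (nat_lit 8) (nat_lit 5))
    (@En.n l5837 (nat_lit 316) (nat_lit 4) (nat_lit 12))
    (@En.n l5838 (nat_lit 310) (nat_lit 6) (nat_lit 12))
    (@En.n l649 (nat_lit 2256) (nat_lit 12) (nat_lit 9))
    (@En.i (nat_lit 322) (nat_lit 13) (nat_lit 4))
    (@En.n l476 (nat_lit 369) (nat_lit 0) (nat_lit 11))
    (@En.n l152 (nat_lit 317) (nat_lit 13) (nat_lit 3))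
    (@En.n l1865 (nat_lit 364) (nat_lit 0) (nat_lit 3))))
  (@Cl.mk (nat_lit 0x200070005000d000d000c00030003000c00040009000c0004000b000e0004) (nat_lit 0xa01c0) (nat_lit 16) Lb.e (@T16.mk En
    (@En.n l7910 (nat_lit 315) (nat_lit 6) (nat_lit 4))
    (@En.i (nat_lit 4695) (nat_lit 4) (nat_lit 14))
    (@En.n l889 (nat_lit 81) (nat_lit 2) (nat_lit 11))
    (@En.i (nat_lit 6129) (nat_lit 3) (nat_lit 4))
    (@En.i (nat_lit 513) (nat_lit 6) (nat_lit 12))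
    (@En.n l649 (nat_lit 2253) (nat_lit 5) (nat_lit 9))
    (@En.i (nat_lit 321) (nat_lit 6) (nat_lit 4))
    (@En.n l476 (nat_lit 911) (nat_lit 8) (nat_lit 12))
    (@En.n l152 (nat_lit 318) (nat_lit 8) (nat_lit 3))
    (@En.n l1865 (nat_lit 908) (nat_lit 9) (nat_lit 3))
    (@En.n l619 (nat_lit 319) (nat_lit 11) (nat_lit 12))
    (@En.n l1867 (nat_lit 908) (nat_lit 12) (nat_lit 13))
    (@En.i (nat_lit 5481) (nat_lit 13) (nat_lit 13))
    (@En.n l699 (nat_lit 310) (nat_lit 14) (nat_lit 5))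
    (@En.n l2179 (nat_lit 315) (nat_lit 4) (nat_lit 7))
    (@En.n l50 (nat_lit 316) (nat_lit 15) (nat_lit 2))))
  (@Cl.mk (nat_lit 0x2000d0003000b00030009000c000c0005000c0004000400070004000e000d) (nat_lit 0x1001000001) (nat_lit 16) Lb.e (@T16.mk En
    (@En.i (nat_lit 315) (nat_lit 2) (nat_lit 13))
    (@En.i (nat_lit 7593) (nat_lit 1) (nat_lit 14))
    (@En.n l5834 (nat_lit 305) (nat_lit 2) (nat_lit 4))
    (@En.n l7 (nat_lit 374) (nat_lit 11) (nat_lit 7))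
    (@En.n l644 (nat_lit 374) (nat_lit 12) (nat_lit 4))
    (@En.n l5838 (nat_lit 4287) (nat_lit 5) (nat_lit 4))
    (@En.n l1998 (nat_lit 80) (nat_lit 7) (nat_lit 12))
    (@En.i (nat_lit 6170) (nat_lit 7) (nat_lit 5))
    (@En.n l5837 (nat_lit 318) (nat_lit 4) (nat_lit 12))
    (@En.n l5838 (nat_lit 309) (nat_lit 6) (nat_lit 12))
    (@En.i (nat_lit 2258) (nat_lit 11) (nat_lit 9))
    (@En.i (nat_lit 320) (nat_lit 11) (nat_lit 3))
    (@En.n l10283 (nat_lit 4984) (nat_lit 0) (nat_lit 11))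
    (@En.n l117 (nat_lit 315) (nat_lit 14) (nat_lit 3))
    (@En.i (nat_lit 384) (nat_lit 0) (nat_lit 13))
    (@En.n l3 (nat_lit 317) (nat_lit 15) (nat_lit 2))))
  (@Cl.mk (nat_lit 0x200070005000e000d0002000d0003000c00030009000c0004000b000e0004) (nat_lit 0x1000000a01c0) (nat_lit 16) Lb.e (@T16.mk En
    (@En.n l7910 (nat_lit 317) (nat_lit 5) (nat_lit 4))
    (@En.i (nat_lit 4746) (nat_lit 7) (nat_lit 14))
    (@En.n l2035 (nat_lit 82) (nat_lit 2) (nat_lit 11))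
    (@En.i (nat_lit 6136) (nat_lit 3) (nat_lit 4))
    (@En.i (nat_lit 520) (nat_lit 6) (nat_lit 12))
    (@En.i (nat_lit 2257) (nat_lit 11) (nat_lit 9))
    (@En.i (nat_lit 319) (nat_lit 6) (nat_lit 3))
    (@En.n l2568 (nat_lit 4983) (nat_lit 8) (nat_lit 12))
    (@En.n l117 (nat_lit 316) (nat_lit 8) (nat_lit 3))
    (@En.i (nat_lit 397) (nat_lit 10) (nat_lit 13))
    (@En.n l3 (nat_lit 318) (nat_lit 10) (nat_lit 2))
    (@En.i (nat_lit 316) (nat_lit 12) (nat_lit 13))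
    (@En.i (nat_lit 7595) (nat_lit 13) (nat_lit 14))
    (@En.n l699 (nat_lit 309) (nat_lit 14) (nat_lit 5))
    (@En.n l2179 (nat_lit 317) (nat_lit 3) (nat_lit 7))
    (@En.n l50 (nat_lit 318) (nat_lit 15) (nat_lit 2))))
  (@Cl.mk (nat_lit 0x200070005000e000c0002000d000b000400030009000c0005000b000e0004) (nat_lit 0xa000000001c0) (nat_lit 16) Lb.e (@T16.mk En
    (@En.n l7910 (nat_lit 320) (nat_lit 5) (nat_lit 4))
    (@En.i (nat_lit 4749) (nat_lit 7) (nat_lit 14))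
    (@En.i (nat_lit 83) (nat_lit 2) (nat_lit 11))
    (@En.i (nat_lit 7155) (nat_lit 3) (nat_lit 5))
    (@En.i (nat_lit 521) (nat_lit 6) (nat_lit 12))
    (@En.n l287 (nat_lit 5984) (nat_lit 11) (nat_lit 9))
    (@En.n l11 (nat_lit 318) (nat_lit 6) (nat_lit 3))
    (@En.i (nat_lit 323) (nat_lit 7) (nat_lit 4))
    (@En.n l55 (nat_lit 1142) (nat_lit 9) (nat_lit 11))
    (@En.n l615 (nat_lit 389) (nat_lit 10) (nat_lit 13))
    (@En.n l3 (nat_lit 319) (nat_lit 10) (nat_lit 2))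
    (@En.i (nat_lit 321) (nat_lit 12) (nat_lit 12))
    (@En.i (nat_lit 7594) (nat_lit 13) (nat_lit 14))
    (@En.n l699 (nat_lit 311) (nat_lit 14) (nat_lit 5))
    (@En.n l2179 (nat_lit 320) (nat_lit 3) (nat_lit 7))
    (@En.n l50 (nat_lit 319) (nat_lit 15) (nat_lit 2))))
noncomputable def a20 : T16 Cl := @T16.mk Cl
  (@Cl.mk (nat_lit 0x2000d000a000400030009000c000c0006000c0004000400070004000e000c) (nat_lit 0x1102000009) (nat_lit 16) Lb.e (@T16.mk En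
    (@En.i (nat_lit 322) (nat_lit 3) (nat_lit 12))
    (@En.i (nat_lit 7589) (nat_lit 1) (nat_lit 14))
    (@En.n l5834 (nat_lit 304) (nat_lit 2) (nat_lit 4))
    (@En.n l7 (nat_lit 375) (nat_lit 11) (nat_lit 7))
    (@En.n l644 (nat_lit 375) (nat_lit 12) (nat_lit 4))
    (@En.n l5838 (nat_lit 3864) (nat_lit 5) (nat_lit 4))
    (@En.n l12534 (nat_lit 84) (nat_lit 7) (nat_lit 12))
    (@En.i (nat_lit 7160) (nat_lit 7) (nat_lit 6))
    (@En.n l5837 (nat_lit 319) (nat_lit 4) (nat_lit 12))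
    (@En.n l5838 (nat_lit 311) (nat_lit 6) (nat_lit 12))
    (@En.n l287 (nat_lit 5980) (nat_lit 11) (nat_lit 9))
    (@En.n l11 (nat_lit 317) (nat_lit 11) (nat_lit 3))
    (@En.n l2004 (nat_lit 324) (nat_lit 0) (nat_lit 4))
    (@En.i (nat_lit 1143) (nat_lit 14) (nat_lit 10))
    (@En.n l6248 (nat_lit 385) (nat_lit 1) (nat_lit 13))
    (@En.n l3 (nat_lit 320) (nat_lit 15) (nat_lit 2))))
  (@Cl.mk (nat_lit 0x200070005000c000c000c000a0004000400040009000c0006000b000e0004) (nat_lit 0x9000000000100) (nat_lit 16) Lb.e (@T16.mk En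
    (@En.n l7910 (nat_lit 322) (nat_lit 7) (nat_lit 4))
    (@En.i (nat_lit 4693) (nat_lit 4) (nat_lit 14))
    (@En.i (nat_lit 102) (nat_lit 2) (nat_lit 11))
    (@En.i (nat_lit 7154) (nat_lit 3) (nat_lit 6))
    (@En.i (nat_lit 544) (nat_lit 6) (nat_lit 12))
    (@En.n l287 (nat_lit 7878) (nat_lit 5) (nat_lit 9))
    (@En.n l11 (nat_lit 1000) (nat_lit 6) (nat_lit 4))
    (@En.n l152 (nat_lit 319) (nat_lit 7) (nat_lit 4))
    (@En.n l936 (nat_lit 327) (nat_lit 8) (nat_lit 4))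
    (@En.n l55 (nat_lit 1138) (nat_lit 10) (nat_lit 10))
    (@En.n l619 (nat_lit 323) (nat_lit 11) (nat_lit 12))
    (@En.n l1867 (nat_lit 907) (nat_lit 4) (nat_lit 12))
    (@En.n l26224 (nat_lit 905) (nat_lit 13) (nat_lit 12))
    (@En.n l699 (nat_lit 325) (nat_lit 14) (nat_lit 5))
    (@En.n l2179 (nat_lit 322) (nat_lit 5) (nat_lit 7))
    (@En.n l50 (nat_lit 321) (nat_lit 15) (nat_lit 2))))
  (@Cl.mk (nat_lit 0x4000400040009000c000c0007000c0004000400070004000c000c000c0009) (nat_lit 0x10300008000) (nat_lit 16) Lb.e (@T16.mk En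
    (@En.i (nat_lit 1139) (nat_lit 0) (nat_lit 9))
    (@En.n l6248 (nat_lit 324) (nat_lit 4) (nat_lit 12))
    (@En.n l14053 (nat_lit 361) (nat_lit 4) (nat_lit 12))
    (@En.n l14054 (nat_lit 903) (nat_lit 12) (nat_lit 12))
    (@En.n l5834 (nat_lit 303) (nat_lit 4) (nat_lit 4))
    (@En.n l7 (nat_lit 360) (nat_lit 11) (nat_lit 7))
    (@En.n l644 (nat_lit 360) (nat_lit 12) (nat_lit 4))
    (@En.n l5838 (nat_lit 3861) (nat_lit 0) (nat_lit 4))
    (@En.n l14055 (nat_lit 104) (nat_lit 0) (nat_lit 12))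
    (@En.i (nat_lit 7050) (nat_lit 1) (nat_lit 7))
    (@En.n l5837 (nat_lit 321) (nat_lit 4) (nat_lit 12))
    (@En.n l5838 (nat_lit 325) (nat_lit 6) (nat_lit 12))
    (@En.n l287 (nat_lit 7875) (nat_lit 4) (nat_lit 9))
    (@En.n l11 (nat_lit 1001) (nat_lit 12) (nat_lit 4))
    (@En.n l152 (nat_lit 320) (nat_lit 12) (nat_lit 4))
    (@En.n l936 (nat_lit 330) (nat_lit 0) (nat_lit 4))))
  (@Cl.mk (nat_lit 0x200070005000d000c00090003000e000400020009000c0007000b000e0004) (nat_lit 0x9a00400000100) (nat_lit 16) Lb.e (@T16.mk En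
    (@En.n l8784 (nat_lit 324) (nat_lit 9) (nat_lit 4))
    (@En.i (nat_lit 4796) (nat_lit 11) (nat_lit 14))
    (@En.n l6157 (nat_lit 133) (nat_lit 2) (nat_lit 11))
    (@En.n l25301 (nat_lit 7738) (nat_lit 3) (nat_lit 7))
    (@En.i (nat_lit 533) (nat_lit 6) (nat_lit 12))
    (@En.n l614 (nat_lit 7853) (nat_lit 5) (nat_lit 9))
    (@En.n l11 (nat_lit 323) (nat_lit 6) (nat_lit 2))
    (@En.n l117 (nat_lit 321) (nat_lit 7) (nat_lit 4))
    (@En.n l5905 (nat_lit 390) (nat_lit 1) (nat_lit 14))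
    (@En.n l5620 (nat_lit 329) (nat_lit 9) (nat_lit 3))
    (@En.i (nat_lit 1625) (nat_lit 11) (nat_lit 9))
    (@En.n l936 (nat_lit 327) (nat_lit 12) (nat_lit 12))
    (@En.n l2238 (nat_lit 898) (nat_lit 13) (nat_lit 13))
    (@En.n l28824 (nat_lit 326) (nat_lit 14) (nat_lit 5))
    (@En.n l901 (nat_lit 324) (nat_lit 7) (nat_lit 7))
    (@En.n l50 (nat_lit 323) (nat_lit 15) (nat_lit 2))))
  (@Cl.mk (nat_lit 0x20009000c000c0008000c0004000400070004000d000c00080003000e0004) (nat_lit 0x10100009a0040) (nat_lit 16) Lb.e (@T16.mk En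
    (@En.n l9513 (nat_lit 322) (nat_lit 14) (nat_lit 4))
    (@En.n l5 (nat_lit 388) (nat_lit 1) (nat_lit 14))
    (@En.n l50 (nat_lit 328) (nat_lit 2) (nat_lit 3))
    (@En.n l2567 (nat_lit 1624) (nat_lit 3) (nat_lit 8))
    (@En.n l5856 (nat_lit 330) (nat_lit 4) (nat_lit 12))
    (@En.n l3039 (nat_lit 897) (nat_lit 6) (nat_lit 13))
    (@En.n l227 (nat_lit 346) (nat_lit 6) (nat_lit 4))
    (@En.n l476 (nat_lit 358) (nat_lit 11) (nat_lit 7))
    (@En.n l152 (nat_lit 358) (nat_lit 12) (nat_lit 4))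
    (@En.n l14436 (nat_lit 3334) (nat_lit 9) (nat_lit 4))
    (@En.i (nat_lit 135) (nat_lit 11) (nat_lit 12))
    (@En.n l18093 (nat_lit 7126) (nat_lit 12) (nat_lit 8))
    (@En.n l297 (nat_lit 323) (nat_lit 4) (nat_lit 12))
    (@En.n l226 (nat_lit 326) (nat_lit 6) (nat_lit 12))
    (@En.i (nat_lit 7860) (nat_lit 12) (nat_lit 9))
    (@En.n l17 (nat_lit 324) (nat_lit 15) (nat_lit 2))))
  (@Cl.mk (nat_lit 0x20005000c000c000c000a000400040004000c000b0006000b0004000e0005) (nat_lit 0x9000000a801010) (nat_lit 16) Lb.e (@T16.mk En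
    (@En.n l5784 (nat_lit 303) (nat_lit 6) (nat_lit 5))
    (@En.n l396 (nat_lit 321) (nat_lit 1) (nat_lit 14))
    (@En.i (nat_lit 3333) (nat_lit 2) (nat_lit 4))
    (@En.i (nat_lit 101) (nat_lit 3) (nat_lit 11))
    (@En.n l916 (nat_lit 7153) (nat_lit 4) (nat_lit 6))
    (@En.n l644 (nat_lit 542) (nat_lit 5) (nat_lit 11))
    (@En.n l134 (nat_lit 11267) (nat_lit 7) (nat_lit 12))
    (@En.n l11 (nat_lit 1002) (nat_lit 7) (nat_lit 4))
    (@En.n l152 (nat_lit 311) (nat_lit 8) (nat_lit 4))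
    (@En.n l936 (nat_lit 332) (nat_lit 9) (nat_lit 4))
    (@En.n l55 (nat_lit 1135) (nat_lit 11) (nat_lit 10))
    (@En.n l1952 (nat_lit 326) (nat_lit 12) (nat_lit 12))
    (@En.i (nat_lit 906) (nat_lit 4) (nat_lit 12))
    (@En.i (nat_lit 6398) (nat_lit 14) (nat_lit 12))
    (@En.n l640 (nat_lit 291) (nat_lit 13) (nat_lit 5))
    (@En.n l18 (nat_lit 325) (nat_lit 15) (nat_lit 2))))
  (@Cl.mk (nat_lit 0x20005000d000c00090003000e00040002000c000b0007000b0004000e0005) (nat_lit 0x9a00400a801010) (nat_lit 16) Lb.e (@T16.mk En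
    (@En.n l50 (nat_lit 346) (nat_lit 8) (nat_lit 5))
    (@En.n l15359 (nat_lit 323) (nat_lit 1) (nat_lit 14))
    (@En.n l2381 (nat_lit 3330) (nat_lit 2) (nat_lit 4))
    (@En.i (nat_lit 130) (nat_lit 3) (nat_lit 11))
    (@En.n l771 (nat_lit 7412) (nat_lit 4) (nat_lit 7))
    (@En.n l217 (nat_lit 532) (nat_lit 14) (nat_lit 11))
    (@En.n l12278 (nat_lit 9892) (nat_lit 7) (nat_lit 12))
    (@En.n l28 (nat_lit 326) (nat_lit 7) (nat_lit 2))
    (@En.n l2683 (nat_lit 325) (nat_lit 8) (nat_lit 4))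
    (@En.n l1578 (nat_lit 399) (nat_lit 10) (nat_lit 14))
    (@En.n l107 (nat_lit 331) (nat_lit 10) (nat_lit 3))
    (@En.n l2381 (nat_lit 1626) (nat_lit 12) (nat_lit 9))
    (@En.n l10780 (nat_lit 332) (nat_lit 13) (nat_lit 12))
    (@En.n l1262 (nat_lit 6422) (nat_lit 6) (nat_lit 13))
    (@En.n l617 (nat_lit 290) (nat_lit 13) (nat_lit 5))
    (@En.n l17 (nat_lit 326) (nat_lit 15) (nat_lit 2))))
  (@Cl.mk (nat_lit 0x200070005000c0008000d000d0004000300030009000c0008000b000e0004) (nat_lit 0x9013000000100) (nat_lit 16) Lb.e (@T16.mk En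
    (@En.n l7910 (nat_lit 330) (nat_lit 8) (nat_lit 4))
    (@En.i (nat_lit 4688) (nat_lit 4) (nat_lit 14))
    (@En.n l4825 (nat_lit 131) (nat_lit 2) (nat_lit 11))
    (@En.i (nat_lit 4610) (nat_lit 3) (nat_lit 8))
    (@En.i (nat_lit 540) (nat_lit 6) (nat_lit 12))
    (@En.n l649 (nat_lit 7849) (nat_lit 5) (nat_lit 9))
    (@En.i (nat_lit 1005) (nat_lit 13) (nat_lit 3))
    (@En.n l731 (nat_lit 329) (nat_lit 7) (nat_lit 3))
    (@En.n l14309 (nat_lit 907) (nat_lit 0) (nat_lit 4))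
    (@En.n l2013 (nat_lit 329) (nat_lit 10) (nat_lit 13))
    (@En.i (nat_lit 316) (nat_lit 11) (nat_lit 13))
    (@En.n l1769 (nat_lit 336) (nat_lit 12) (nat_lit 8))
    (@En.n l639 (nat_lit 7606) (nat_lit 13) (nat_lit 12))
    (@En.n l699 (nat_lit 332) (nat_lit 14) (nat_lit 5))
    (@En.n l2179 (nat_lit 330) (nat_lit 6) (nat_lit 7))
    (@En.n l50 (nat_lit 327) (nat_lit 15) (nat_lit 2))))
  (@Cl.mk (nat_lit 0x20009000c000c0009000c0004000400070004000d0007000d0003000e0003) (nat_lit 0x10000902040) (nat_lit 16) Lb.e (@T16.mk En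
    (@En.n l1999 (nat_lit 330) (nat_lit 15) (nat_lit 3))
    (@En.i (nat_lit 12944) (nat_lit 0) (nat_lit 14))
    (@En.i (nat_lit 324) (nat_lit 2) (nat_lit 3))
    (@En.n l1998 (nat_lit 317) (nat_lit 0) (nat_lit 13))
    (@En.i (nat_lit 340) (nat_lit 4) (nat_lit 7))
    (@En.n l226 (nat_lit 900) (nat_lit 6) (nat_lit 13))
    (@En.n l227 (nat_lit 347) (nat_lit 6) (nat_lit 4))
    (@En.n l2876 (nat_lit 357) (nat_lit 7) (nat_lit 7))
    (@En.n l5839 (nat_lit 357) (nat_lit 8) (nat_lit 4))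
    (@En.n l14436 (nat_lit 3341) (nat_lit 9) (nat_lit 4))
    (@En.i (nat_lit 132) (nat_lit 11) (nat_lit 12))
    (@En.n l1998 (nat_lit 4342) (nat_lit 12) (nat_lit 9))
    (@En.n l4663 (nat_lit 329) (nat_lit 4) (nat_lit 12))
    (@En.n l226 (nat_lit 331) (nat_lit 6) (nat_lit 12))
    (@En.i (nat_lit 7845) (nat_lit 12) (nat_lit 9))
    (@En.n l17 (nat_lit 328) (nat_lit 15) (nat_lit 2))))
  (@Cl.mk (nat_lit 0x200070005000d0008000d0003000e000300020009000c0008000b000e0004) (nat_lit 0x90204000a0100) (nat_lit 16) Lb.e (@T16.mk En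
    (@En.n l613 (nat_lit 328) (nat_lit 9) (nat_lit 4))
    (@En.n l1643 (nat_lit 4797) (nat_lit 11) (nat_lit 14))
    (@En.n l387 (nat_lit 129) (nat_lit 2) (nat_lit 11))
    (@En.i (nat_lit 4612) (nat_lit 3) (nat_lit 8))
    (@En.i (nat_lit 536) (nat_lit 6) (nat_lit 12))
    (@En.n l1998 (nat_lit 7846) (nat_lit 5) (nat_lit 9))
    (@En.n l28 (nat_lit 329) (nat_lit 6) (nat_lit 2))
    (@En.n l615 (nat_lit 327) (nat_lit 7) (nat_lit 3))
    (@En.n l2568 (nat_lit 13116) (nat_lit 0) (nat_lit 14))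
    (@En.n l2381 (nat_lit 323) (nat_lit 9) (nat_lit 3))
    (@En.n l1643 (nat_lit 318) (nat_lit 11) (nat_lit 13))
    (@En.i (nat_lit 339) (nat_lit 12) (nat_lit 8))
    (@En.i (nat_lit 901) (nat_lit 13) (nat_lit 13))
    (@En.n l2593 (nat_lit 331) (nat_lit 14) (nat_lit 5))
    (@En.n l12488 (nat_lit 328) (nat_lit 7) (nat_lit 7))
    (@En.n l18 (nat_lit 329) (nat_lit 15) (nat_lit 2))))
  (@Cl.mk (nat_lit 0x300030009000c000c0009000c0004000400070004000c0007000d000d0004) (nat_lit 0x101000090130) (nat_lit 16) Lb.e (@T16.mk En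
    (@En.n l5830 (nat_lit 361) (nat_lit 0) (nat_lit 4))
    (@En.n l5831 (nat_lit 328) (nat_lit 3) (nat_lit 13))
    (@En.i (nat_lit 315) (nat_lit 1) (nat_lit 13))
    (@En.n l5832 (nat_lit 338) (nat_lit 3) (nat_lit 7))
    (@En.n l5833 (nat_lit 7608) (nat_lit 12) (nat_lit 12))
    (@En.n l5834 (nat_lit 348) (nat_lit 5) (nat_lit 4))
    (@En.n l7 (nat_lit 356) (nat_lit 11) (nat_lit 7))
    (@En.n l644 (nat_lit 356) (nat_lit 12) (nat_lit 4))
    (@En.n l5835 (nat_lit 4264) (nat_lit 8) (nat_lit 4))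
    (@En.n l5836 (nat_lit 134) (nat_lit 6) (nat_lit 12))
    (@En.i (nat_lit 4343) (nat_lit 11) (nat_lit 9))
    (@En.n l5837 (nat_lit 327) (nat_lit 4) (nat_lit 12))
    (@En.n l5838 (nat_lit 332) (nat_lit 6) (nat_lit 12))
    (@En.n l5839 (nat_lit 7872) (nat_lit 14) (nat_lit 9))
    (@En.n l5840 (nat_lit 1006) (nat_lit 13) (nat_lit 3))
    (@En.n l5839 (nat_lit 328) (nat_lit 0) (nat_lit 3))))
  (@Cl.mk (nat_lit 0x20005000d0008000d0003000e00030002000c000b0008000b0004000e0005) (nat_lit 0x9010400a001010) (nat_lit 16) Lb.e (@T16.mk En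
    (@En.n l50 (nat_lit 347) (nat_lit 8) (nat_lit 5))
    (@En.n l5 (nat_lit 329) (nat_lit 1) (nat_lit 14))
    (@En.n l1643 (nat_lit 3332) (nat_lit 2) (nat_lit 4))
    (@En.i (nat_lit 127) (nat_lit 3) (nat_lit 11))
    (@En.n l872 (nat_lit 7409) (nat_lit 4) (nat_lit 8))
    (@En.n l217 (nat_lit 535) (nat_lit 14) (nat_lit 11))
    (@En.i (nat_lit 11271) (nat_lit 7) (nat_lit 12))
    (@En.n l28 (nat_lit 331) (nat_lit 7) (nat_lit 2))
    (@En.n l615 (nat_lit 332) (nat_lit 8) (nat_lit 3))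
    (@En.i (nat_lit 13117) (nat_lit 0) (nat_lit 14))
    (@En.i (nat_lit 326) (nat_lit 10) (nat_lit 3))
    (@En.n l1643 (nat_lit 309) (nat_lit 12) (nat_lit 13))
    (@En.i (nat_lit 333) (nat_lit 13) (nat_lit 8))
    (@En.i (nat_lit 6423) (nat_lit 6) (nat_lit 13))
    (@En.n l617 (nat_lit 214) (nat_lit 13) (nat_lit 5))
    (@En.n l17 (nat_lit 331) (nat_lit 15) (nat_lit 2))))
  (@Cl.mk (nat_lit 0x20005000c0008000d000d000400030003000c000b0008000b0004000e0005) (nat_lit 0x9012000a001010) (nat_lit 16) Lb.e (@T16.mk En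
    (@En.n l5784 (nat_lit 348) (nat_lit 7) (nat_lit 5))
    (@En.n l396 (nat_lit 327) (nat_lit 1) (nat_lit 14))
    (@En.i (nat_lit 3326) (nat_lit 2) (nat_lit 4))
    (@En.n l639 (nat_lit 128) (nat_lit 3) (nat_lit 11))
    (@En.n l5785 (nat_lit 4615) (nat_lit 4) (nat_lit 8))
    (@En.n l644 (nat_lit 538) (nat_lit 5) (nat_lit 11))
    (@En.i (nat_lit 11269) (nat_lit 7) (nat_lit 12))
    (@En.i (nat_lit 1004) (nat_lit 13) (nat_lit 3))
    (@En.n l731 (nat_lit 331) (nat_lit 8) (nat_lit 3))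
    (@En.n l1992 (nat_lit 906) (nat_lit 0) (nat_lit 4))
    (@En.n l2013 (nat_lit 331) (nat_lit 11) (nat_lit 13))
    (@En.i (nat_lit 310) (nat_lit 12) (nat_lit 13))
    (@En.n l1769 (nat_lit 334) (nat_lit 13) (nat_lit 8))
    (@En.n l639 (nat_lit 6253) (nat_lit 14) (nat_lit 12))
    (@En.n l640 (nat_lit 217) (nat_lit 13) (nat_lit 5))
    (@En.n l18 (nat_lit 332) (nat_lit 15) (nat_lit 2))))
  (@Cl.mk (nat_lit 0x200050008000d0009000e00030002000b000a00080007000b0005000e0006) (nat_lit 0x60000000002000) (nat_lit 16) Lb.e (@T16.mk En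
    (@En.n l13254 (nat_lit 344) (nat_lit 7) (nat_lit 6))
    (@En.n l5 (nat_lit 339) (nat_lit 1) (nat_lit 14))
    (@En.n l1643 (nat_lit 3316) (nat_lit 2) (nat_lit 5))
    (@En.n l3 (nat_lit 331) (nat_lit 3) (nat_lit 11))
    (@En.n l527 (nat_lit 326) (nat_lit 4) (nat_lit 7))
    (@En.n l872 (nat_lit 7387) (nat_lit 5) (nat_lit 8))
    (@En.n l217 (nat_lit 539) (nat_lit 14) (nat_lit 10))
    (@En.i (nat_lit 11272) (nat_lit 8) (nat_lit 11))
    (@En.n l28 (nat_lit 333) (nat_lit 8) (nat_lit 2))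
    (@En.n l13255 (nat_lit 334) (nat_lit 9) (nat_lit 3))
    (@En.n l5144 (nat_lit 12942) (nat_lit 0) (nat_lit 14))
    (@En.n l872 (nat_lit 1701) (nat_lit 12) (nat_lit 9))
    (@En.n l1644 (nat_lit 912) (nat_lit 13) (nat_lit 13))
    (@En.i (nat_lit 2924) (nat_lit 10) (nat_lit 8))
    (@En.n l617 (nat_lit 1052) (nat_lit 13) (nat_lit 5))
    (@En.n l17 (nat_lit 333) (nat_lit 15) (nat_lit 2))))
  (@Cl.mk (nat_lit 0x200050008000d000d000a00030003000b000a00080006000b0005000e0006) (nat_lit 0x60100000002000) (nat_lit 16) Lb.e (@T16.mk En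
    (@En.n l14327 (nat_lit 337) (nat_lit 6) (nat_lit 6))
    (@En.n l396 (nat_lit 336) (nat_lit 1) (nat_lit 14))
    (@En.i (nat_lit 3319) (nat_lit 2) (nat_lit 5))
    (@En.n l1596 (nat_lit 332) (nat_lit 3) (nat_lit 11))
    (@En.i (nat_lit 325) (nat_lit 4) (nat_lit 6))
    (@En.n l916 (nat_lit 7383) (nat_lit 5) (nat_lit 8))
    (@En.n l14328 (nat_lit 555) (nat_lit 6) (nat_lit 10))
    (@En.n l5579 (nat_lit 11270) (nat_lit 8) (nat_lit 11))
    (@En.n l14329 (nat_lit 335) (nat_lit 8) (nat_lit 3))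
    (@En.n l2238 (nat_lit 333) (nat_lit 9) (nat_lit 3))
    (@En.n l55 (nat_lit 1567) (nat_lit 11) (nat_lit 10))
    (@En.n l5905 (nat_lit 333) (nat_lit 12) (nat_lit 13))
    (@En.n l1596 (nat_lit 910) (nat_lit 13) (nat_lit 13))
    (@En.n l14328 (nat_lit 2923) (nat_lit 10) (nat_lit 8))
    (@En.n l14330 (nat_lit 1051) (nat_lit 13) (nat_lit 5))
    (@En.n l18 (nat_lit 334) (nat_lit 15) (nat_lit 2))))
  (@Cl.mk (nat_lit 0x200050008000e000d0002000b0003000b000a00080005000b0005000e0006) (nat_lit 0x100000003000) (nat_lit 16) Lb.e (@T16.mk En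
    (@En.n l7093 (nat_lit 345) (nat_lit 5) (nat_lit 6))
    (@En.n l637 (nat_lit 341) (nat_lit 1) (nat_lit 14))
    (@En.n l7008 (nat_lit 3321) (nat_lit 2) (nat_lit 5))
    (@En.n l7094 (nat_lit 1004) (nat_lit 9) (nat_lit 11))
    (@En.n l7008 (nat_lit 1002) (nat_lit 4) (nat_lit 5))
    (@En.n l7095 (nat_lit 7386) (nat_lit 5) (nat_lit 8))
    (@En.i (nat_lit 552) (nat_lit 12) (nat_lit 10))
    (@En.n l7096 (nat_lit 10092) (nat_lit 8) (nat_lit 11))
    (@En.n l7008 (nat_lit 334) (nat_lit 8) (nat_lit 3))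
    (@En.n l7097 (nat_lit 948) (nat_lit 10) (nat_lit 11))
    (@En.n l7 (nat_lit 335) (nat_lit 10) (nat_lit 2))
    (@En.n l7012 (nat_lit 334) (nat_lit 12) (nat_lit 13))
    (@En.n l7096 (nat_lit 993) (nat_lit 13) (nat_lit 14))
    (@En.i (nat_lit 2922) (nat_lit 10) (nat_lit 8))
    (@En.n l730 (nat_lit 1054) (nat_lit 13) (nat_lit 5))
    (@En.n l67 (nat_lit 335) (nat_lit 15) (nat_lit 2))))
noncomputable def a21 : T16 Cl := @T16.mk Cl
  (@Cl.mk (nat_lit 0x2000800050008000d000d000a000300030008000b00080006000b000e0005) (nat_lit 0x60000000002c0) (nat_lit 16) Lb.e (@T16.mk En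
    (@En.n l28461 (nat_lit 338) (nat_lit 7) (nat_lit 5))
    (@En.i (nat_lit 3992) (nat_lit 4) (nat_lit 14))
    (@En.n l1596 (nat_lit 327) (nat_lit 2) (nat_lit 11))
    (@En.i (nat_lit 321) (nat_lit 3) (nat_lit 6))
    (@En.n l4554 (nat_lit 4609) (nat_lit 4) (nat_lit 8))
    (@En.i (nat_lit 556) (nat_lit 7) (nat_lit 11))
    (@En.n l5579 (nat_lit 7842) (nat_lit 6) (nat_lit 8))
    (@En.n l6303 (nat_lit 341) (nat_lit 7) (nat_lit 3))
    (@En.n l2238 (nat_lit 339) (nat_lit 8) (nat_lit 3))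
    (@En.n l55 (nat_lit 1570) (nat_lit 10) (nat_lit 10))
    (@En.n l5905 (nat_lit 339) (nat_lit 11) (nat_lit 13))
    (@En.n l1596 (nat_lit 909) (nat_lit 12) (nat_lit 13))
    (@En.n l4554 (nat_lit 2927) (nat_lit 13) (nat_lit 8))
    (@En.n l699 (nat_lit 334) (nat_lit 14) (nat_lit 5))
    (@En.n l6299 (nat_lit 338) (nat_lit 5) (nat_lit 8))
    (@En.n l50 (nat_lit 336) (nat_lit 15) (nat_lit 2))))
  (@Cl.mk (nat_lit 0x30003000a000a000a00090007000c00060006000600040007000d000d0009) (nat_lit 0x100400000000) (nat_lit 16) Lb.e (@T16.mk En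
    (@En.n l14003 (nat_lit 1566) (nat_lit 0) (nat_lit 9))
    (@En.n l12851 (nat_lit 344) (nat_lit 3) (nat_lit 13))
    (@En.n l14004 (nat_lit 1050) (nat_lit 2) (nat_lit 13))
    (@En.n l14005 (nat_lit 1897) (nat_lit 11) (nat_lit 7))
    (@En.n l14006 (nat_lit 1055) (nat_lit 4) (nat_lit 4))
    (@En.n l14007 (nat_lit 353) (nat_lit 10) (nat_lit 6))
    (@En.n l14008 (nat_lit 1107) (nat_lit 10) (nat_lit 6))
    (@En.n l4110 (nat_lit 3314) (nat_lit 7) (nat_lit 6))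
    (@En.n l14004 (nat_lit 348) (nat_lit 9) (nat_lit 12))
    (@En.n l14003 (nat_lit 303) (nat_lit 9) (nat_lit 7))
    (@En.n l14009 (nat_lit 3061) (nat_lit 11) (nat_lit 9))
    (@En.n l14010 (nat_lit 334) (nat_lit 6) (nat_lit 10))
    (@En.n l14011 (nat_lit 1051) (nat_lit 6) (nat_lit 10))
    (@En.n l14012 (nat_lit 11276) (nat_lit 14) (nat_lit 10))
    (@En.n l14013 (nat_lit 345) (nat_lit 13) (nat_lit 3))
    (@En.n l14014 (nat_lit 344) (nat_lit 0) (nat_lit 3))))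
  (@Cl.mk (nat_lit 0x300030008000b000b00090007000c00050005000800040007000d000d0009) (nat_lit 0x1100200600000) (nat_lit 16) Lb.e (@T16.mk En
    (@En.n l6594 (nat_lit 1569) (nat_lit 0) (nat_lit 9))
    (@En.n l14447 (nat_lit 340) (nat_lit 3) (nat_lit 13))
    (@En.n l12327 (nat_lit 367) (nat_lit 2) (nat_lit 13))
    (@En.n l6590 (nat_lit 2928) (nat_lit 11) (nat_lit 7))
    (@En.n l8550 (nat_lit 337) (nat_lit 4) (nat_lit 4))
    (@En.n l14448 (nat_lit 343) (nat_lit 10) (nat_lit 8))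
    (@En.n l1768 (nat_lit 343) (nat_lit 11) (nat_lit 5))
    (@En.n l14449 (nat_lit 1604) (nat_lit 7) (nat_lit 5))
    (@En.n l12327 (nat_lit 330) (nat_lit 9) (nat_lit 12))
    (@En.n l6594 (nat_lit 322) (nat_lit 9) (nat_lit 7))
    (@En.n l1767 (nat_lit 7282) (nat_lit 11) (nat_lit 9))
    (@En.n l14450 (nat_lit 336) (nat_lit 5) (nat_lit 11))
    (@En.n l14451 (nat_lit 334) (nat_lit 7) (nat_lit 11))
    (@En.n l8748 (nat_lit 7843) (nat_lit 14) (nat_lit 8))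
    (@En.n l50 (nat_lit 342) (nat_lit 13) (nat_lit 3))
    (@En.n l14452 (nat_lit 340) (nat_lit 0) (nat_lit 3))))
  (@Cl.mk (nat_lit 0x2000800050008000d0009000e000300020008000b00080007000b000e0005) (nat_lit 0x6b000000002c0) (nat_lit 16) Lb.e (@T16.mk En
    (@En.n l613 (nat_lit 340) (nat_lit 8) (nat_lit 5))
    (@En.n l1643 (nat_lit 3999) (nat_lit 10) (nat_lit 14))
    (@En.n l3 (nat_lit 329) (nat_lit 2) (nat_lit 11))
    (@En.n l6416 (nat_lit 323) (nat_lit 3) (nat_lit 7))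
    (@En.n l5619 (nat_lit 4611) (nat_lit 4) (nat_lit 8))
    (@En.i (nat_lit 570) (nat_lit 7) (nat_lit 11))
    (@En.n l12279 (nat_lit 7839) (nat_lit 6) (nat_lit 8))
    (@En.n l28 (nat_lit 339) (nat_lit 7) (nat_lit 2))
    (@En.n l13255 (nat_lit 336) (nat_lit 8) (nat_lit 3))
    (@En.n l5144 (nat_lit 12941) (nat_lit 0) (nat_lit 14))
    (@En.n l2381 (nat_lit 1702) (nat_lit 2) (nat_lit 9))
    (@En.n l1644 (nat_lit 911) (nat_lit 12) (nat_lit 13))
    (@En.n l26972 (nat_lit 2929) (nat_lit 4) (nat_lit 8))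
    (@En.n l2593 (nat_lit 333) (nat_lit 14) (nat_lit 5))
    (@En.n l12488 (nat_lit 340) (nat_lit 6) (nat_lit 8))
    (@En.n l18 (nat_lit 339) (nat_lit 15) (nat_lit 2))))
  (@Cl.mk (nat_lit 0x20008000b000b00090008000c00050005000800040007000d0008000e0003) (nat_lit 0x1101200600b000) (nat_lit 16) Lb.e (@T16.mk En
    (@En.n l27186 (nat_lit 338) (nat_lit 15) (nat_lit 3))
    (@En.i (nat_lit 12939) (nat_lit 0) (nat_lit 14))
    (@En.i (nat_lit 1694) (nat_lit 2) (nat_lit 8))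
    (@En.n l2880 (nat_lit 369) (nat_lit 4) (nat_lit 13))
    (@En.n l26716 (nat_lit 2930) (nat_lit 11) (nat_lit 7))
    (@En.n l2871 (nat_lit 344) (nat_lit 5) (nat_lit 4))
    (@En.n l2876 (nat_lit 359) (nat_lit 6) (nat_lit 8))
    (@En.n l5839 (nat_lit 359) (nat_lit 7) (nat_lit 5))
    (@En.n l17701 (nat_lit 4464) (nat_lit 8) (nat_lit 5))
    (@En.n l7 (nat_lit 328) (nat_lit 10) (nat_lit 12))
    (@En.n l644 (nat_lit 324) (nat_lit 11) (nat_lit 8))
    (@En.n l28615 (nat_lit 7281) (nat_lit 12) (nat_lit 9))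
    (@En.n l4663 (nat_lit 339) (nat_lit 5) (nat_lit 11))
    (@En.n l226 (nat_lit 333) (nat_lit 7) (nat_lit 11))
    (@En.i (nat_lit 7840) (nat_lit 14) (nat_lit 8))
    (@En.n l17 (nat_lit 340) (nat_lit 15) (nat_lit 2))))
  (@Cl.mk (nat_lit 0x2000800050008000e000d0002000b00030008000b00080005000b000e0005) (nat_lit 0x100000002c0) (nat_lit 16) Lb.e (@T16.mk En
    (@En.n l16337 (nat_lit 342) (nat_lit 6) (nat_lit 5))
    (@En.i (nat_lit 3993) (nat_lit 4) (nat_lit 14))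
    (@En.n l8566 (nat_lit 1005) (nat_lit 9) (nat_lit 11))
    (@En.n l3219 (nat_lit 1000) (nat_lit 3) (nat_lit 5))
    (@En.n l2682 (nat_lit 4613) (nat_lit 4) (nat_lit 8))
    (@En.n l3219 (nat_lit 554) (nat_lit 7) (nat_lit 11))
    (@En.n l3213 (nat_lit 7509) (nat_lit 6) (nat_lit 8))
    (@En.n l3219 (nat_lit 336) (nat_lit 7) (nat_lit 3))
    (@En.i (nat_lit 425) (nat_lit 0) (nat_lit 11))
    (@En.n l50 (nat_lit 341) (nat_lit 9) (nat_lit 2))
    (@En.n l3212 (nat_lit 336) (nat_lit 11) (nat_lit 13))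
    (@En.n l3213 (nat_lit 992) (nat_lit 12) (nat_lit 14))
    (@En.n l2682 (nat_lit 2931) (nat_lit 13) (nat_lit 8))
    (@En.n l2037 (nat_lit 335) (nat_lit 14) (nat_lit 5))
    (@En.n l3214 (nat_lit 342) (nat_lit 4) (nat_lit 8))
    (@En.n l3 (nat_lit 341) (nat_lit 15) (nat_lit 2))))
  (@Cl.mk (nat_lit 0x2000a00030008000b000b00090006000c00050005000800040007000e000d) (nat_lit 0x110020060001) (nat_lit 16) Lb.e (@T16.mk En
    (@En.n l601 (nat_lit 338) (nat_lit 2) (nat_lit 13))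
    (@En.n l6589 (nat_lit 994) (nat_lit 1) (nat_lit 14))
    (@En.n l6590 (nat_lit 2932) (nat_lit 11) (nat_lit 7))
    (@En.n l6591 (nat_lit 345) (nat_lit 3) (nat_lit 4))
    (@En.n l1767 (nat_lit 1595) (nat_lit 4) (nat_lit 8))
    (@En.n l6592 (nat_lit 1595) (nat_lit 5) (nat_lit 5))
    (@En.n l6593 (nat_lit 1601) (nat_lit 6) (nat_lit 5))
    (@En.n l6591 (nat_lit 1006) (nat_lit 8) (nat_lit 12))
    (@En.n l6594 (nat_lit 1001) (nat_lit 8) (nat_lit 6))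
    (@En.n l1767 (nat_lit 7287) (nat_lit 10) (nat_lit 9))
    (@En.n l6595 (nat_lit 341) (nat_lit 5) (nat_lit 11))
    (@En.n l5687 (nat_lit 335) (nat_lit 7) (nat_lit 11))
    (@En.n l6596 (nat_lit 7507) (nat_lit 13) (nat_lit 8))
    (@En.i (nat_lit 338) (nat_lit 14) (nat_lit 3))
    (@En.i (nat_lit 428) (nat_lit 0) (nat_lit 10))
    (@En.n l7 (nat_lit 342) (nat_lit 15) (nat_lit 2))))
  (@Cl.mk (nat_lit 0x2000a0008000d0005000800030006000d000d0008000300030008000e000b) (nat_lit 0x4050000000002) (nat_lit 16) Lb.e (@T16.mk En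
    (@En.n l19318 (nat_lit 338) (nat_lit 12) (nat_lit 11))
    (@En.n l601 (nat_lit 1107) (nat_lit 1) (nat_lit 14))
    (@En.n l5579 (nat_lit 7871) (nat_lit 2) (nat_lit 8))
    (@En.n l6303 (nat_lit 1595) (nat_lit 13) (nat_lit 3))
    (@En.n l5870 (nat_lit 359) (nat_lit 0) (nat_lit 3))
    (@En.i (nat_lit 1573) (nat_lit 0) (nat_lit 8))
    (@En.n l2691 (nat_lit 359) (nat_lit 3) (nat_lit 13))
    (@En.n l1596 (nat_lit 366) (nat_lit 8) (nat_lit 13))
    (@En.n l5871 (nat_lit 2933) (nat_lit 12) (nat_lit 6))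
    (@En.n l2364 (nat_lit 353) (nat_lit 9) (nat_lit 3))
    (@En.i (nat_lit 13259) (nat_lit 10) (nat_lit 8))
    (@En.n l3637 (nat_lit 1603) (nat_lit 6) (nat_lit 5))
    (@En.n l1596 (nat_lit 356) (nat_lit 13) (nat_lit 13))
    (@En.i (nat_lit 360) (nat_lit 14) (nat_lit 8))
    (@En.n l936 (nat_lit 7284) (nat_lit 10) (nat_lit 10))
    (@En.n l50 (nat_lit 343) (nat_lit 15) (nat_lit 2))))
  (@Cl.mk (nat_lit 0x2000a000a000a00090008000c00060006000600040007000d0008000e0003) (nat_lit 0x100200000b000) (nat_lit 16) Lb.e (@T16.mk En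
    (@En.n l11217 (nat_lit 337) (nat_lit 15) (nat_lit 3))
    (@En.i (nat_lit 12943) (nat_lit 0) (nat_lit 14))
    (@En.n l5 (nat_lit 1691) (nat_lit 2) (nat_lit 8))
    (@En.n l26965 (nat_lit 1049) (nat_lit 4) (nat_lit 13))
    (@En.n l18608 (nat_lit 1894) (nat_lit 11) (nat_lit 7))
    (@En.n l24502 (nat_lit 1057) (nat_lit 5) (nat_lit 4))
    (@En.n l26966 (nat_lit 352) (nat_lit 6) (nat_lit 6))
    (@En.n l26967 (nat_lit 1106) (nat_lit 10) (nat_lit 6))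
    (@En.n l12482 (nat_lit 3317) (nat_lit 8) (nat_lit 6))
    (@En.n l4509 (nat_lit 347) (nat_lit 10) (nat_lit 12))
    (@En.n l16179 (nat_lit 346) (nat_lit 11) (nat_lit 8))
    (@En.n l26968 (nat_lit 7296) (nat_lit 12) (nat_lit 9))
    (@En.n l26969 (nat_lit 333) (nat_lit 6) (nat_lit 10))
    (@En.n l26970 (nat_lit 1052) (nat_lit 6) (nat_lit 10))
    (@En.n l12480 (nat_lit 11275) (nat_lit 14) (nat_lit 10))
    (@En.n l17 (nat_lit 344) (nat_lit 15) (nat_lit 2))))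
  (@Cl.mk (nat_lit 0x2000a0003000a000a000a00090006000c00060006000600040007000e000d) (nat_lit 0x10040000001) (nat_lit 16) Lb.e (@T16.mk En
    (@En.n l6597 (nat_lit 337) (nat_lit 2) (nat_lit 13))
    (@En.n l6598 (nat_lit 1270) (nat_lit 1) (nat_lit 14))
    (@En.n l6599 (nat_lit 2919) (nat_lit 11) (nat_lit 7))
    (@En.n l6600 (nat_lit 1059) (nat_lit 3) (nat_lit 4))
    (@En.n l6601 (nat_lit 1594) (nat_lit 4) (nat_lit 6))
    (@En.n l6602 (nat_lit 1593) (nat_lit 5) (nat_lit 6))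
    (@En.n l4839 (nat_lit 3320) (nat_lit 6) (nat_lit 6))
    (@En.i (nat_lit 1007) (nat_lit 8) (nat_lit 12))
    (@En.n l682 (nat_lit 1020) (nat_lit 8) (nat_lit 6))
    (@En.n l1544 (nat_lit 7319) (nat_lit 10) (nat_lit 9))
    (@En.n l6599 (nat_lit 335) (nat_lit 6) (nat_lit 10))
    (@En.n l6603 (nat_lit 1054) (nat_lit 6) (nat_lit 10))
    (@En.n l6604 (nat_lit 10038) (nat_lit 13) (nat_lit 10))
    (@En.n l6605 (nat_lit 337) (nat_lit 14) (nat_lit 3))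
    (@En.i (nat_lit 951) (nat_lit 0) (nat_lit 10))
    (@En.n l3 (nat_lit 345) (nat_lit 15) (nat_lit 2))))
  (@Cl.mk (nat_lit 0x2000b000b000b0008000c0005000500050004000d000c00080003000e0004) (nat_lit 0x19620000990040) (nat_lit 16) Lb.e (@T16.mk En
    (@En.n l18194 (nat_lit 303) (nat_lit 14) (nat_lit 4))
    (@En.n l18195 (nat_lit 403) (nat_lit 1) (nat_lit 14))
    (@En.n l107 (nat_lit 347) (nat_lit 2) (nat_lit 3))
    (@En.n l2476 (nat_lit 1628) (nat_lit 3) (nat_lit 8))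
    (@En.n l18196 (nat_lit 348) (nat_lit 4) (nat_lit 12))
    (@En.n l5643 (nat_lit 2411) (nat_lit 6) (nat_lit 13))
    (@En.n l18197 (nat_lit 219) (nat_lit 6) (nat_lit 4))
    (@En.n l1935 (nat_lit 351) (nat_lit 11) (nat_lit 5))
    (@En.n l18198 (nat_lit 1103) (nat_lit 11) (nat_lit 5))
    (@En.n l7917 (nat_lit 3328) (nat_lit 9) (nat_lit 5))
    (@En.n l798 (nat_lit 139) (nat_lit 11) (nat_lit 12))
    (@En.n l18199 (nat_lit 7766) (nat_lit 12) (nat_lit 8))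
    (@En.n l742 (nat_lit 326) (nat_lit 5) (nat_lit 11))
    (@En.n l396 (nat_lit 290) (nat_lit 5) (nat_lit 11))
    (@En.n l798 (nat_lit 11202) (nat_lit 12) (nat_lit 11))
    (@En.n l28 (nat_lit 346) (nat_lit 15) (nat_lit 2))))
  (@Cl.mk (nat_lit 0x2000b000b000b0009000c0005000500050004000d0007000d0003000e0003) (nat_lit 0x11010000901040) (nat_lit 16) Lb.e (@T16.mk En
    (@En.n l1936 (nat_lit 348) (nat_lit 15) (nat_lit 3))
    (@En.n l798 (nat_lit 13610) (nat_lit 0) (nat_lit 14))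
    (@En.i (nat_lit 346) (nat_lit 2) (nat_lit 3))
    (@En.n l13988 (nat_lit 305) (nat_lit 0) (nat_lit 13))
    (@En.n l13235 (nat_lit 344) (nat_lit 4) (nat_lit 7))
    (@En.n l5643 (nat_lit 2413) (nat_lit 6) (nat_lit 13))
    (@En.n l2163 (nat_lit 212) (nat_lit 6) (nat_lit 4))
    (@En.n l1935 (nat_lit 349) (nat_lit 11) (nat_lit 5))
    (@En.n l13234 (nat_lit 1105) (nat_lit 11) (nat_lit 5))
    (@En.n l7917 (nat_lit 3325) (nat_lit 9) (nat_lit 5))
    (@En.n l798 (nat_lit 171) (nat_lit 11) (nat_lit 12))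
    (@En.n l2588 (nat_lit 7340) (nat_lit 12) (nat_lit 9))
    (@En.n l742 (nat_lit 331) (nat_lit 5) (nat_lit 11))
    (@En.n l396 (nat_lit 214) (nat_lit 5) (nat_lit 11))
    (@En.n l798 (nat_lit 11206) (nat_lit 12) (nat_lit 11))
    (@En.n l28 (nat_lit 347) (nat_lit 15) (nat_lit 2))))
  (@Cl.mk (nat_lit 0x30003000b000b000b0009000c0005000500050004000c0007000d000d0004) (nat_lit 0x1103000080120) (nat_lit 16) Lb.e (@T16.mk En
    (@En.n l1992 (nat_lit 1079) (nat_lit 0) (nat_lit 4))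
    (@En.n l5664 (nat_lit 347) (nat_lit 3) (nat_lit 13))
    (@En.i (nat_lit 306) (nat_lit 1) (nat_lit 13))
    (@En.n l5665 (nat_lit 337) (nat_lit 3) (nat_lit 7))
    (@En.n l5666 (nat_lit 2415) (nat_lit 5) (nat_lit 12))
    (@En.n l817 (nat_lit 216) (nat_lit 5) (nat_lit 4))
    (@En.n l601 (nat_lit 350) (nat_lit 11) (nat_lit 5))
    (@En.n l77 (nat_lit 1104) (nat_lit 11) (nat_lit 5))
    (@En.n l5667 (nat_lit 3323) (nat_lit 8) (nat_lit 5))
    (@En.n l5668 (nat_lit 175) (nat_lit 6) (nat_lit 12))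
    (@En.n l5669 (nat_lit 7321) (nat_lit 11) (nat_lit 9))
    (@En.n l397 (nat_lit 332) (nat_lit 5) (nat_lit 11))
    (@En.n l5670 (nat_lit 217) (nat_lit 5) (nat_lit 11))
    (@En.n l5671 (nat_lit 11204) (nat_lit 14) (nat_lit 11))
    (@En.n l5672 (nat_lit 1007) (nat_lit 13) (nat_lit 3))
    (@En.n l5673 (nat_lit 347) (nat_lit 0) (nat_lit 3))))
  (@Cl.mk (nat_lit 0x2000a000d000600050003000d0006000d0003000e00030002000a000e000b) (nat_lit 0x40008000000002) (nat_lit 16) Lb.e (@T16.mk En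
    (@En.n l2197 (nat_lit 347) (nat_lit 13) (nat_lit 11))
    (@En.n l7657 (nat_lit 1108) (nat_lit 1) (nat_lit 14))
    (@En.n l6135 (nat_lit 11205) (nat_lit 2) (nat_lit 10))
    (@En.n l28 (nat_lit 349) (nat_lit 3) (nat_lit 2))
    (@En.n l2202 (nat_lit 350) (nat_lit 4) (nat_lit 3))
    (@En.n l2589 (nat_lit 13614) (nat_lit 0) (nat_lit 14))
    (@En.i (nat_lit 351) (nat_lit 6) (nat_lit 3))
    (@En.n l2921 (nat_lit 376) (nat_lit 8) (nat_lit 13))
    (@En.n l15228 (nat_lit 352) (nat_lit 4) (nat_lit 6))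
    (@En.n l15229 (nat_lit 2410) (nat_lit 6) (nat_lit 13))
    (@En.n l2101 (nat_lit 357) (nat_lit 6) (nat_lit 3))
    (@En.n l2921 (nat_lit 962) (nat_lit 0) (nat_lit 5))
    (@En.n l14317 (nat_lit 3327) (nat_lit 8) (nat_lit 6))
    (@En.n l2589 (nat_lit 167) (nat_lit 10) (nat_lit 13))
    (@En.i (nat_lit 4348) (nat_lit 11) (nat_lit 10))
    (@En.n l2196 (nat_lit 349) (nat_lit 15) (nat_lit 2))))
  (@Cl.mk (nat_lit 0x2000a000d000600050003000c0006000d000d000400030003000a000e000b) (nat_lit 0x30000001000002) (nat_lit 16) Lb.e (@T16.mk En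
    (@En.n l7 (nat_lit 348) (nat_lit 12) (nat_lit 11))
    (@En.n l5841 (nat_lit 1109) (nat_lit 1) (nat_lit 14))
    (@En.n l4322 (nat_lit 11203) (nat_lit 2) (nat_lit 10))
    (@En.n l6315 (nat_lit 355) (nat_lit 13) (nat_lit 3))
    (@En.n l6316 (nat_lit 349) (nat_lit 4) (nat_lit 3))
    (@En.n l6317 (nat_lit 1083) (nat_lit 0) (nat_lit 4))
    (@En.n l6318 (nat_lit 349) (nat_lit 7) (nat_lit 13))
    (@En.i (nat_lit 377) (nat_lit 8) (nat_lit 13))
    (@En.n l1769 (nat_lit 353) (nat_lit 8) (nat_lit 6))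
    (@En.n l6319 (nat_lit 2414) (nat_lit 10) (nat_lit 12))
    (@En.n l763 (nat_lit 356) (nat_lit 10) (nat_lit 3))
    (@En.i (nat_lit 695) (nat_lit 0) (nat_lit 5))
    (@En.n l6320 (nat_lit 3324) (nat_lit 13) (nat_lit 6))
    (@En.n l6321 (nat_lit 169) (nat_lit 14) (nat_lit 13))
    (@En.n l6322 (nat_lit 4349) (nat_lit 10) (nat_lit 10))
    (@En.n l50 (nat_lit 350) (nat_lit 15) (nat_lit 2))))
  (@Cl.mk (nat_lit 0x20009000d000600050003000d000c00070003000e00040002000a000e000b) (nat_lit 0x50000100000002) (nat_lit 16) Lb.e (@T16.mk En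
    (@En.n l2197 (nat_lit 346) (nat_lit 13) (nat_lit 11))
    (@En.n l14310 (nat_lit 1110) (nat_lit 1) (nat_lit 14))
    (@En.n l14311 (nat_lit 11201) (nat_lit 2) (nat_lit 10))
    (@En.n l28 (nat_lit 351) (nat_lit 3) (nat_lit 2))
    (@En.n l14312 (nat_lit 354) (nat_lit 4) (nat_lit 4))
    (@En.n l14313 (nat_lit 416) (nat_lit 1) (nat_lit 14))
    (@En.n l107 (nat_lit 349) (nat_lit 6) (nat_lit 3))
    (@En.n l14314 (nat_lit 1630) (nat_lit 7) (nat_lit 7))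
    (@En.n l14315 (nat_lit 350) (nat_lit 9) (nat_lit 12))
    (@En.n l14316 (nat_lit 2409) (nat_lit 10) (nat_lit 13))
    (@En.n l5685 (nat_lit 358) (nat_lit 10) (nat_lit 3))
    (@En.n l14314 (nat_lit 693) (nat_lit 0) (nat_lit 5))
    (@En.n l14317 (nat_lit 3329) (nat_lit 13) (nat_lit 6))
    (@En.n l2589 (nat_lit 138) (nat_lit 10) (nat_lit 13))
    (@En.i (nat_lit 7128) (nat_lit 11) (nat_lit 9))
    (@En.n l2196 (nat_lit 351) (nat_lit 15) (nat_lit 2))))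
noncomputable def a22 : T16 Cl := @T16.mk Cl
  (@Cl.mk (nat_lit 0x20009000e000a0002000a0009000d0007000600030006000d0007000e0003) (nat_lit 0x1001500000000) (nat_lit 16) Lb.e (@T16.mk En
    (@En.n l13913 (nat_lit 353) (nat_lit 4) (nat_lit 3))
    (@En.n l2769 (nat_lit 13647) (nat_lit 0) (nat_lit 14))
    (@En.n l29034 (nat_lit 1692) (nat_lit 2) (nat_lit 7))
    (@En.n l29035 (nat_lit 1090) (nat_lit 8) (nat_lit 13))
    (@En.i (nat_lit 3219) (nat_lit 12) (nat_lit 6))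
    (@En.n l28077 (nat_lit 359) (nat_lit 5) (nat_lit 3))
    (@En.n l29036 (nat_lit 968) (nat_lit 0) (nat_lit 6))
    (@En.n l29037 (nat_lit 3315) (nat_lit 7) (nat_lit 7))
    (@En.n l29038 (nat_lit 349) (nat_lit 13) (nat_lit 13))
    (@En.n l20113 (nat_lit 351) (nat_lit 14) (nat_lit 9))
    (@En.n l29039 (nat_lit 7293) (nat_lit 11) (nat_lit 10))
    (@En.n l18 (nat_lit 352) (nat_lit 11) (nat_lit 2))
    (@En.n l15219 (nat_lit 344) (nat_lit 13) (nat_lit 10))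
    (@En.n l564 (nat_lit 1111) (nat_lit 1) (nat_lit 14))
    (@En.n l29040 (nat_lit 11281) (nat_lit 2) (nat_lit 9))
    (@En.n l28 (nat_lit 352) (nat_lit 15) (nat_lit 2))))
  (@Cl.mk (nat_lit 0x2000a0008000d0007000600030006000d000d0008000300030009000e000a) (nat_lit 0x4000001000001) (nat_lit 16) Lb.e (@T16.mk En
    (@En.n l15613 (nat_lit 337) (nat_lit 12) (nat_lit 10))
    (@En.n l15614 (nat_lit 1112) (nat_lit 1) (nat_lit 14))
    (@En.n l15615 (nat_lit 11282) (nat_lit 2) (nat_lit 9))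
    (@En.n l15616 (nat_lit 1594) (nat_lit 13) (nat_lit 3))
    (@En.n l15617 (nat_lit 352) (nat_lit 0) (nat_lit 3))
    (@En.i (nat_lit 1574) (nat_lit 5) (nat_lit 8))
    (@En.n l15618 (nat_lit 352) (nat_lit 3) (nat_lit 13))
    (@En.n l1596 (nat_lit 1089) (nat_lit 8) (nat_lit 13))
    (@En.n l15619 (nat_lit 3218) (nat_lit 12) (nat_lit 6))
    (@En.n l763 (nat_lit 343) (nat_lit 9) (nat_lit 3))
    (@En.i (nat_lit 970) (nat_lit 0) (nat_lit 6))
    (@En.n l15620 (nat_lit 3318) (nat_lit 12) (nat_lit 7))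
    (@En.n l1596 (nat_lit 350) (nat_lit 13) (nat_lit 13))
    (@En.i (nat_lit 354) (nat_lit 14) (nat_lit 8))
    (@En.n l15621 (nat_lit 7294) (nat_lit 10) (nat_lit 10))
    (@En.n l50 (nat_lit 353) (nat_lit 15) (nat_lit 2))))
  (@Cl.mk (nat_lit 0x20008000d000600050003000c000c000c0008000400040004000a000e000b) (nat_lit 0x630000020000002) (nat_lit 16) Lb.e (@T16.mk En
    (@En.n l7 (nat_lit 303) (nat_lit 11) (nat_lit 11))
    (@En.n l5841 (nat_lit 1085) (nat_lit 1) (nat_lit 14))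
    (@En.n l845 (nat_lit 11197) (nat_lit 2) (nat_lit 10))
    (@En.n l11 (nat_lit 1019) (nat_lit 3) (nat_lit 4))
    (@En.n l152 (nat_lit 378) (nat_lit 4) (nat_lit 4))
    (@En.n l936 (nat_lit 350) (nat_lit 5) (nat_lit 4))
    (@En.i (nat_lit 1098) (nat_lit 6) (nat_lit 8))
    (@En.n l14138 (nat_lit 351) (nat_lit 8) (nat_lit 12))
    (@En.n l841 (nat_lit 1083) (nat_lit 4) (nat_lit 12))
    (@En.i (nat_lit 2408) (nat_lit 10) (nat_lit 12))
    (@En.n l763 (nat_lit 360) (nat_lit 10) (nat_lit 3))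
    (@En.i (nat_lit 692) (nat_lit 0) (nat_lit 5))
    (@En.n l300 (nat_lit 863) (nat_lit 13) (nat_lit 6))
    (@En.n l838 (nat_lit 136) (nat_lit 14) (nat_lit 13))
    (@En.i (nat_lit 6880) (nat_lit 3) (nat_lit 8))
    (@En.n l50 (nat_lit 354) (nat_lit 15) (nat_lit 2))))
  (@Cl.mk (nat_lit 0x200050003000a000e000b0002000a000d000600050003000b0006000e000d) (nat_lit 0x30000001) (nat_lit 16) Lb.e (@T16.mk En
    (@En.n l3234 (nat_lit 350) (nat_lit 7) (nat_lit 13))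
    (@En.n l3235 (nat_lit 1019) (nat_lit 8) (nat_lit 14))
    (@En.n l3236 (nat_lit 1594) (nat_lit 2) (nat_lit 6))
    (@En.n l13 (nat_lit 7647) (nat_lit 3) (nat_lit 11))
    (@En.n l3237 (nat_lit 1008) (nat_lit 4) (nat_lit 3))
    (@En.n l3238 (nat_lit 975) (nat_lit 5) (nat_lit 5))
    (@En.n l13 (nat_lit 3214) (nat_lit 6) (nat_lit 6))
    (@En.n l3239 (nat_lit 206) (nat_lit 8) (nat_lit 13))
    (@En.n l3240 (nat_lit 7211) (nat_lit 9) (nat_lit 10))
    (@En.n l7 (nat_lit 355) (nat_lit 9) (nat_lit 2))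
    (@En.n l3241 (nat_lit 1007) (nat_lit 11) (nat_lit 11))
    (@En.n l780 (nat_lit 1013) (nat_lit 12) (nat_lit 14))
    (@En.n l386 (nat_lit 10039) (nat_lit 13) (nat_lit 10))
    (@En.n l3235 (nat_lit 350) (nat_lit 3) (nat_lit 3))
    (@En.n l13 (nat_lit 1246) (nat_lit 4) (nat_lit 5))
    (@En.n l3 (nat_lit 355) (nat_lit 15) (nat_lit 2))))
  (@Cl.mk (nat_lit 0x2000a000d000400070003000c0006000d000d0004000300030009000e000c) (nat_lit 0x30000000000001) (nat_lit 16) Lb.e (@T16.mk En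
    (@En.i (nat_lit 330) (nat_lit 12) (nat_lit 12))
    (@En.n l601 (nat_lit 1104) (nat_lit 1) (nat_lit 14))
    (@En.n l649 (nat_lit 7870) (nat_lit 2) (nat_lit 9))
    (@En.n l2261 (nat_lit 1008) (nat_lit 13) (nat_lit 3))
    (@En.n l152 (nat_lit 357) (nat_lit 0) (nat_lit 3))
    (@En.n l13792 (nat_lit 362) (nat_lit 0) (nat_lit 4))
    (@En.n l619 (nat_lit 357) (nat_lit 3) (nat_lit 13))
    (@En.i (nat_lit 365) (nat_lit 8) (nat_lit 13))
    (@En.n l1769 (nat_lit 343) (nat_lit 8) (nat_lit 6))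
    (@En.i (nat_lit 7640) (nat_lit 10) (nat_lit 12))
    (@En.n l2364 (nat_lit 350) (nat_lit 10) (nat_lit 3))
    (@En.i (nat_lit 13258) (nat_lit 11) (nat_lit 7))
    (@En.i (nat_lit 4265) (nat_lit 7) (nat_lit 4))
    (@En.n l5836 (nat_lit 165) (nat_lit 14) (nat_lit 13))
    (@En.i (nat_lit 4345) (nat_lit 10) (nat_lit 10))
    (@En.n l50 (nat_lit 356) (nat_lit 15) (nat_lit 2))))
  (@Cl.mk (nat_lit 0x20009000e000c0002000a000d000400070003000d0006000d0003000e0003) (nat_lit 0x100300000b000) (nat_lit 16) Lb.e (@T16.mk En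
    (@En.n l117 (nat_lit 356) (nat_lit 4) (nat_lit 3))
    (@En.n l1998 (nat_lit 13659) (nat_lit 0) (nat_lit 14))
    (@En.n l1998 (nat_lit 358) (nat_lit 6) (nat_lit 3))
    (@En.i (nat_lit 374) (nat_lit 8) (nat_lit 13))
    (@En.i (nat_lit 359) (nat_lit 4) (nat_lit 6))
    (@En.i (nat_lit 902) (nat_lit 6) (nat_lit 13))
    (@En.n l3291 (nat_lit 349) (nat_lit 10) (nat_lit 3))
    (@En.i (nat_lit 13353) (nat_lit 11) (nat_lit 7))
    (@En.n l6636 (nat_lit 4336) (nat_lit 8) (nat_lit 4))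
    (@En.n l1998 (nat_lit 166) (nat_lit 10) (nat_lit 13))
    (@En.i (nat_lit 4344) (nat_lit 11) (nat_lit 10))
    (@En.n l50 (nat_lit 357) (nat_lit 11) (nat_lit 2))
    (@En.n l1998 (nat_lit 328) (nat_lit 13) (nat_lit 12))
    (@En.n l601 (nat_lit 1105) (nat_lit 1) (nat_lit 14))
    (@En.n l2031 (nat_lit 7865) (nat_lit 2) (nat_lit 9))
    (@En.n l11 (nat_lit 357) (nat_lit 15) (nat_lit 2))))
  (@Cl.mk (nat_lit 0x20009000d000400070003000d000c00070003000e000400020009000e000c) (nat_lit 0x40008100000001) (nat_lit 16) Lb.e (@T16.mk En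
    (@En.i (nat_lit 324) (nat_lit 13) (nat_lit 12))
    (@En.n l28459 (nat_lit 1103) (nat_lit 1) (nat_lit 14))
    (@En.n l613 (nat_lit 7863) (nat_lit 2) (nat_lit 9))
    (@En.n l17 (nat_lit 358) (nat_lit 3) (nat_lit 2))
    (@En.n l9513 (nat_lit 360) (nat_lit 4) (nat_lit 4))
    (@En.n l998 (nat_lit 386) (nat_lit 1) (nat_lit 14))
    (@En.n l5856 (nat_lit 357) (nat_lit 2) (nat_lit 3))
    (@En.n l2567 (nat_lit 1627) (nat_lit 3) (nat_lit 7))
    (@En.n l5856 (nat_lit 356) (nat_lit 9) (nat_lit 12))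
    (@En.n l2567 (nat_lit 899) (nat_lit 6) (nat_lit 13))
    (@En.n l678 (nat_lit 351) (nat_lit 10) (nat_lit 3))
    (@En.n l2567 (nat_lit 13352) (nat_lit 11) (nat_lit 7))
    (@En.n l13967 (nat_lit 3336) (nat_lit 8) (nat_lit 4))
    (@En.i (nat_lit 164) (nat_lit 10) (nat_lit 13))
    (@En.n l2567 (nat_lit 7124) (nat_lit 11) (nat_lit 9))
    (@En.n l3 (nat_lit 358) (nat_lit 15) (nat_lit 2))))
  (@Cl.mk (nat_lit 0x20008000e000b0002000a0009000d0005000800030006000d0007000e0003) (nat_lit 0x200140500b000) (nat_lit 16) Lb.e (@T16.mk En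
    (@En.n l1992 (nat_lit 343) (nat_lit 4) (nat_lit 3))
    (@En.n l1998 (nat_lit 12940) (nat_lit 0) (nat_lit 14))
    (@En.n l2576 (nat_lit 1693) (nat_lit 2) (nat_lit 7))
    (@En.n l476 (nat_lit 368) (nat_lit 8) (nat_lit 13))
    (@En.n l899 (nat_lit 2936) (nat_lit 12) (nat_lit 6))
    (@En.n l34364 (nat_lit 352) (nat_lit 5) (nat_lit 3))
    (@En.n l4817 (nat_lit 13354) (nat_lit 10) (nat_lit 8))
    (@En.n l34365 (nat_lit 4463) (nat_lit 7) (nat_lit 5))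
    (@En.n l476 (nat_lit 357) (nat_lit 9) (nat_lit 13))
    (@En.n l5839 (nat_lit 358) (nat_lit 14) (nat_lit 9))
    (@En.n l476 (nat_lit 7283) (nat_lit 11) (nat_lit 10))
    (@En.n l50 (nat_lit 359) (nat_lit 11) (nat_lit 2))
    (@En.n l1998 (nat_lit 340) (nat_lit 13) (nat_lit 11))
    (@En.n l601 (nat_lit 1106) (nat_lit 1) (nat_lit 14))
    (@En.n l2031 (nat_lit 7844) (nat_lit 2) (nat_lit 8))
    (@En.n l11 (nat_lit 359) (nat_lit 15) (nat_lit 2))))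
  (@Cl.mk (nat_lit 0x20008000d000400070003000c000c000c00080004000400040009000e000c) (nat_lit 0x630000020000001) (nat_lit 16) Lb.e (@T16.mk En
    (@En.i (nat_lit 322) (nat_lit 11) (nat_lit 12))
    (@En.n l601 (nat_lit 1102) (nat_lit 1) (nat_lit 14))
    (@En.n l287 (nat_lit 7873) (nat_lit 2) (nat_lit 9))
    (@En.n l11 (nat_lit 1018) (nat_lit 3) (nat_lit 4))
    (@En.n l152 (nat_lit 375) (nat_lit 4) (nat_lit 4))
    (@En.n l936 (nat_lit 356) (nat_lit 5) (nat_lit 4))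
    (@En.i (nat_lit 1312) (nat_lit 6) (nat_lit 8))
    (@En.n l6248 (nat_lit 358) (nat_lit 8) (nat_lit 12))
    (@En.n l230 (nat_lit 362) (nat_lit 4) (nat_lit 12))
    (@En.i (nat_lit 904) (nat_lit 10) (nat_lit 12))
    (@En.n l2364 (nat_lit 354) (nat_lit 10) (nat_lit 3))
    (@En.i (nat_lit 13260) (nat_lit 11) (nat_lit 7))
    (@En.i (nat_lit 3863) (nat_lit 13) (nat_lit 4))
    (@En.n l227 (nat_lit 150) (nat_lit 14) (nat_lit 13))
    (@En.i (nat_lit 7051) (nat_lit 1) (nat_lit 8))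
    (@En.n l50 (nat_lit 360) (nat_lit 15) (nat_lit 2))))
  (@Cl.mk (nat_lit 0x200050009000c000c0008000c0004000400070004000c000b0008000e0004) (nat_lit 0x10000a0000) (nat_lit 16) Lb.e (@T16.mk En
    (@En.n l11209 (nat_lit 322) (nat_lit 15) (nat_lit 4))
    (@En.n l14438 (nat_lit 364) (nat_lit 1) (nat_lit 14))
    (@En.n l7 (nat_lit 1140) (nat_lit 2) (nat_lit 8))
    (@En.n l14439 (nat_lit 1006) (nat_lit 3) (nat_lit 11))
    (@En.n l5022 (nat_lit 5463) (nat_lit 5) (nat_lit 12))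
    (@En.n l8412 (nat_lit 1079) (nat_lit 5) (nat_lit 4))
    (@En.n l730 (nat_lit 362) (nat_lit 6) (nat_lit 7))
    (@En.n l731 (nat_lit 362) (nat_lit 7) (nat_lit 4))
    (@En.n l14440 (nat_lit 4268) (nat_lit 8) (nat_lit 4))
    (@En.i (nat_lit 100) (nat_lit 10) (nat_lit 12))
    (@En.n l14441 (nat_lit 7043) (nat_lit 11) (nat_lit 8))
    (@En.n l14442 (nat_lit 907) (nat_lit 12) (nat_lit 12))
    (@En.n l14443 (nat_lit 906) (nat_lit 13) (nat_lit 12))
    (@En.n l639 (nat_lit 7879) (nat_lit 14) (nat_lit 9))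
    (@En.n l14444 (nat_lit 996) (nat_lit 13) (nat_lit 5))
    (@En.n l18 (nat_lit 361) (nat_lit 15) (nat_lit 2))))
  (@Cl.mk (nat_lit 0x200050009000e000c00020009000d000400070003000c000b0007000e0004) (nat_lit 0x1003000a0000) (nat_lit 16) Lb.e (@T16.mk En
    (@En.n l215 (nat_lit 360) (nat_lit 5) (nat_lit 4))
    (@En.n l998 (nat_lit 363) (nat_lit 7) (nat_lit 14))
    (@En.n l4172 (nat_lit 1313) (nat_lit 7) (nat_lit 7))
    (@En.n l28439 (nat_lit 1008) (nat_lit 3) (nat_lit 11))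
    (@En.n l217 (nat_lit 5462) (nat_lit 10) (nat_lit 12))
    (@En.i (nat_lit 1083) (nat_lit 5) (nat_lit 3))
    (@En.i (nat_lit 13261) (nat_lit 11) (nat_lit 7))
    (@En.n l15065 (nat_lit 4269) (nat_lit 7) (nat_lit 4))
    (@En.i (nat_lit 107) (nat_lit 9) (nat_lit 13))
    (@En.n l28440 (nat_lit 7044) (nat_lit 10) (nat_lit 9))
    (@En.n l107 (nat_lit 362) (nat_lit 10) (nat_lit 2))
    (@En.n l1643 (nat_lit 361) (nat_lit 12) (nat_lit 12))
    (@En.n l28441 (nat_lit 1082) (nat_lit 13) (nat_lit 14))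
    (@En.i (nat_lit 7876) (nat_lit 2) (nat_lit 9))
    (@En.n l2039 (nat_lit 1243) (nat_lit 13) (nat_lit 5))
    (@En.n l17 (nat_lit 362) (nat_lit 15) (nat_lit 2))))
  (@Cl.mk (nat_lit 0x20006000d000400070003000d000b000e00030002000a00050009000e000c) (nat_lit 0x1000a0c0000002) (nat_lit 16) Lb.e (@T16.mk En
    (@En.i (nat_lit 364) (nat_lit 11) (nat_lit 12))
    (@En.n l22664 (nat_lit 1144) (nat_lit 12) (nat_lit 14))
    (@En.i (nat_lit 2260) (nat_lit 2) (nat_lit 9))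
    (@En.n l897 (nat_lit 362) (nat_lit 14) (nat_lit 5))
    (@En.n l3337 (nat_lit 366) (nat_lit 4) (nat_lit 10))
    (@En.n l17 (nat_lit 363) (nat_lit 5) (nat_lit 2))
    (@En.n l2869 (nat_lit 365) (nat_lit 6) (nat_lit 3))
    (@En.n l1997 (nat_lit 14048) (nat_lit 0) (nat_lit 14))
    (@En.n l2579 (nat_lit 1018) (nat_lit 9) (nat_lit 11))
    (@En.n l1997 (nat_lit 5484) (nat_lit 10) (nat_lit 13))
    (@En.i (nat_lit 1088) (nat_lit 10) (nat_lit 3))
    (@En.i (nat_lit 13263) (nat_lit 11) (nat_lit 7))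
    (@En.i (nat_lit 4271) (nat_lit 6) (nat_lit 4))
    (@En.n l4758 (nat_lit 82) (nat_lit 8) (nat_lit 13))
    (@En.i (nat_lit 6117) (nat_lit 8) (nat_lit 6))
    (@En.n l11 (nat_lit 363) (nat_lit 15) (nat_lit 2))))
  (@Cl.mk (nat_lit 0x2000b00050009000c000c0005000c0004000400070004000d000b000e0003) (nat_lit 0x10010000b0c0) (nat_lit 16) Lb.e (@T16.mk En
    (@En.n l2869 (nat_lit 315) (nat_lit 15) (nat_lit 3))
    (@En.n l28616 (nat_lit 12833) (nat_lit 0) (nat_lit 14))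
    (@En.n l2579 (nat_lit 1001) (nat_lit 2) (nat_lit 11))
    (@En.n l5313 (nat_lit 5477) (nat_lit 2) (nat_lit 13))
    (@En.n l28617 (nat_lit 312) (nat_lit 4) (nat_lit 4))
    (@En.n l107 (nat_lit 363) (nat_lit 11) (nat_lit 7))
    (@En.n l575 (nat_lit 363) (nat_lit 12) (nat_lit 4))
    (@En.n l8351 (nat_lit 4270) (nat_lit 7) (nat_lit 4))
    (@En.n l28618 (nat_lit 81) (nat_lit 9) (nat_lit 12))
    (@En.i (nat_lit 6118) (nat_lit 9) (nat_lit 5))
    (@En.n l7771 (nat_lit 908) (nat_lit 4) (nat_lit 12))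
    (@En.n l28619 (nat_lit 313) (nat_lit 6) (nat_lit 12))
    (@En.i (nat_lit 2255) (nat_lit 13) (nat_lit 9))
    (@En.n l2088 (nat_lit 361) (nat_lit 14) (nat_lit 5))
    (@En.n l3337 (nat_lit 367) (nat_lit 14) (nat_lit 11))
    (@En.n l17 (nat_lit 364) (nat_lit 15) (nat_lit 2))))
  (@Cl.mk (nat_lit 0x20006000d000400070003000d000d000c00030003000a00040009000e000c) (nat_lit 0x10009b20000002) (nat_lit 16) Lb.e (@T16.mk En
    (@En.i (nat_lit 315) (nat_lit 10) (nat_lit 12))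
    (@En.n l601 (nat_lit 1116) (nat_lit 1) (nat_lit 14))
    (@En.n l649 (nat_lit 2259) (nat_lit 2) (nat_lit 9))
    (@En.i (nat_lit 360) (nat_lit 3) (nat_lit 4))
    (@En.n l476 (nat_lit 368) (nat_lit 4) (nat_lit 10))
    (@En.n l152 (nat_lit 374) (nat_lit 5) (nat_lit 3))
    (@En.n l1865 (nat_lit 363) (nat_lit 6) (nat_lit 3))
    (@En.n l619 (nat_lit 375) (nat_lit 8) (nat_lit 12))
    (@En.n l1867 (nat_lit 363) (nat_lit 9) (nat_lit 13))
    (@En.i (nat_lit 5482) (nat_lit 10) (nat_lit 13))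
    (@En.n l2364 (nat_lit 377) (nat_lit 10) (nat_lit 3))
    (@En.i (nat_lit 13262) (nat_lit 11) (nat_lit 7))
    (@En.i (nat_lit 4275) (nat_lit 5) (nat_lit 4))
    (@En.i (nat_lit 80) (nat_lit 14) (nat_lit 13))
    (@En.i (nat_lit 5663) (nat_lit 7) (nat_lit 6))
    (@En.n l50 (nat_lit 365) (nat_lit 15) (nat_lit 2))))
  (@Cl.mk (nat_lit 0x200060009000d000500080003000d000c00070003000a00040008000e000b) (nat_lit 0x12000b00080000) (nat_lit 16) Lb.e (@T16.mk En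
    (@En.i (nat_lit 367) (nat_lit 11) (nat_lit 11))
    (@En.n l601 (nat_lit 1549) (nat_lit 1) (nat_lit 14))
    (@En.n l1897 (nat_lit 2574) (nat_lit 2) (nat_lit 8))
    (@En.i (nat_lit 1228) (nat_lit 3) (nat_lit 4))
    (@En.n l1690 (nat_lit 370) (nat_lit 4) (nat_lit 10))
    (@En.n l152 (nat_lit 368) (nat_lit 5) (nat_lit 3))
    (@En.i (nat_lit 1707) (nat_lit 6) (nat_lit 7))
    (@En.n l619 (nat_lit 372) (nat_lit 8) (nat_lit 12))
    (@En.i (nat_lit 5475) (nat_lit 9) (nat_lit 13))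
    (@En.n l2364 (nat_lit 1089) (nat_lit 9) (nat_lit 3))
    (@En.i (nat_lit 13264) (nat_lit 10) (nat_lit 8))
    (@En.i (nat_lit 4227) (nat_lit 12) (nat_lit 5))
    (@En.i (nat_lit 365) (nat_lit 13) (nat_lit 13))
    (@En.n l226 (nat_lit 362) (nat_lit 9) (nat_lit 9))
    (@En.i (nat_lit 6121) (nat_lit 8) (nat_lit 6))
    (@En.n l50 (nat_lit 366) (nat_lit 15) (nat_lit 2))))
  (@Cl.mk (nat_lit 0x3000b00040008000b000b00050008000c0005000500080004000d000c0008) (nat_lit 0x900900120010b90) (nat_lit 16) Lb.e (@T16.mk En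
    (@En.i (nat_lit 1705) (nat_lit 0) (nat_lit 8))
    (@En.n l619 (nat_lit 373) (nat_lit 4) (nat_lit 12))
    (@En.n l5993 (nat_lit 5476) (nat_lit 2) (nat_lit 13))
    (@En.n l5834 (nat_lit 1050) (nat_lit 3) (nat_lit 4))
    (@En.n l7 (nat_lit 366) (nat_lit 10) (nat_lit 8))
    (@En.n l644 (nat_lit 366) (nat_lit 11) (nat_lit 5))
    (@En.n l9942 (nat_lit 4228) (nat_lit 6) (nat_lit 5))
    (@En.i (nat_lit 315) (nat_lit 7) (nat_lit 12))
    (@En.n l17942 (nat_lit 361) (nat_lit 10) (nat_lit 8))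
    (@En.i (nat_lit 6125) (nat_lit 9) (nat_lit 5))
    (@En.n l5837 (nat_lit 909) (nat_lit 5) (nat_lit 11))
    (@En.n l5838 (nat_lit 910) (nat_lit 7) (nat_lit 11))
    (@En.n l26027 (nat_lit 2573) (nat_lit 11) (nat_lit 8))
    (@En.n l19318 (nat_lit 625) (nat_lit 14) (nat_lit 4))
    (@En.n l1690 (nat_lit 371) (nat_lit 0) (nat_lit 11))
    (@En.n l152 (nat_lit 369) (nat_lit 1) (nat_lit 3))))
noncomputable def a23 : T16 Cl := @T16.mk Cl
  (@Cl.mk (nat_lit 0x20006000a000d000500080003000d0006000d0003000a00030008000e000b) (nat_lit 0x12000a0a080000) (nat_lit 16) Lb.e (@T16.mk En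
    (@En.i (nat_lit 369) (nat_lit 13) (nat_lit 11))
    (@En.n l601 (nat_lit 1548) (nat_lit 1) (nat_lit 14))
    (@En.n l2571 (nat_lit 2575) (nat_lit 2) (nat_lit 8))
    (@En.i (nat_lit 372) (nat_lit 3) (nat_lit 3))
    (@En.n l253 (nat_lit 4874) (nat_lit 4) (nat_lit 10))
    (@En.n l117 (nat_lit 366) (nat_lit 5) (nat_lit 3))
    (@En.n l625 (nat_lit 1314) (nat_lit 7) (nat_lit 13))
    (@En.i (nat_lit 370) (nat_lit 7) (nat_lit 6))
    (@En.n l2125 (nat_lit 5479) (nat_lit 9) (nat_lit 13))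
    (@En.n l2364 (nat_lit 1090) (nat_lit 9) (nat_lit 3))
    (@En.i (nat_lit 13265) (nat_lit 10) (nat_lit 8))
    (@En.n l3098 (nat_lit 4229) (nat_lit 12) (nat_lit 5))
    (@En.i (nat_lit 374) (nat_lit 13) (nat_lit 13))
    (@En.n l253 (nat_lit 356) (nat_lit 14) (nat_lit 10))
    (@En.i (nat_lit 6122) (nat_lit 8) (nat_lit 6))
    (@En.n l50 (nat_lit 368) (nat_lit 15) (nat_lit 2))))
  (@Cl.mk (nat_lit 0x30008000b000b00050009000c0005000500080004000d0007000d0003000b) (nat_lit 0x900120010a0009) (nat_lit 16) Lb.e (@T16.mk En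
    (@En.n l28624 (nat_lit 4986) (nat_lit 0) (nat_lit 11))
    (@En.n l117 (nat_lit 367) (nat_lit 15) (nat_lit 3))
    (@En.n l625 (nat_lit 1143) (nat_lit 0) (nat_lit 13))
    (@En.i (nat_lit 371) (nat_lit 3) (nat_lit 7))
    (@En.n l2125 (nat_lit 5472) (nat_lit 2) (nat_lit 13))
    (@En.n l5834 (nat_lit 1049) (nat_lit 5) (nat_lit 4))
    (@En.n l7 (nat_lit 368) (nat_lit 10) (nat_lit 8))
    (@En.n l644 (nat_lit 368) (nat_lit 11) (nat_lit 5))
    (@En.n l23088 (nat_lit 4230) (nat_lit 8) (nat_lit 5))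
    (@En.i (nat_lit 317) (nat_lit 6) (nat_lit 12))
    (@En.n l253 (nat_lit 330) (nat_lit 10) (nat_lit 9))
    (@En.i (nat_lit 6126) (nat_lit 9) (nat_lit 5))
    (@En.n l5837 (nat_lit 911) (nat_lit 5) (nat_lit 11))
    (@En.n l5838 (nat_lit 912) (nat_lit 7) (nat_lit 11))
    (@En.n l15263 (nat_lit 2572) (nat_lit 13) (nat_lit 8))
    (@En.i (nat_lit 373) (nat_lit 15) (nat_lit 3))))
  (@Cl.mk (nat_lit 0x20006000a0009000d0006000900030006000d0007000a00030007000e000a) (nat_lit 0x12300009070000) (nat_lit 16) Lb.e (@T16.mk En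
    (@En.i (nat_lit 371) (nat_lit 13) (nat_lit 10))
    (@En.n l601 (nat_lit 1547) (nat_lit 1) (nat_lit 14))
    (@En.n l5032 (nat_lit 2515) (nat_lit 2) (nat_lit 7))
    (@En.n l3651 (nat_lit 1101) (nat_lit 3) (nat_lit 3))
    (@En.n l5033 (nat_lit 4992) (nat_lit 0) (nat_lit 10))
    (@En.i (nat_lit 1706) (nat_lit 5) (nat_lit 7))
    (@En.n l5035 (nat_lit 1305) (nat_lit 7) (nat_lit 13))
    (@En.n l3106 (nat_lit 5032) (nat_lit 7) (nat_lit 6))
    (@En.n l2364 (nat_lit 1091) (nat_lit 8) (nat_lit 3))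
    (@En.i (nat_lit 13267) (nat_lit 9) (nat_lit 9))
    (@En.n l3098 (nat_lit 4225) (nat_lit 11) (nat_lit 6))
    (@En.n l3 (nat_lit 368) (nat_lit 12) (nat_lit 13))
    (@En.n l3 (nat_lit 366) (nat_lit 13) (nat_lit 9))
    (@En.n l3549 (nat_lit 343) (nat_lit 14) (nat_lit 10))
    (@En.i (nat_lit 6124) (nat_lit 5) (nat_lit 6))
    (@En.n l50 (nat_lit 370) (nat_lit 15) (nat_lit 2))))
  (@Cl.mk (nat_lit 0x30007000a000a000500090008000c00060006000900040007000d0008000b) (nat_lit 0x80012300100008) (nat_lit 16) Lb.e (@T16.mk En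
    (@En.n l5033 (nat_lit 4989) (nat_lit 0) (nat_lit 11))
    (@En.i (nat_lit 1708) (nat_lit 13) (nat_lit 8))
    (@En.n l5035 (nat_lit 1301) (nat_lit 2) (nat_lit 13))
    (@En.n l3106 (nat_lit 5033) (nat_lit 11) (nat_lit 7))
    (@En.n l5834 (nat_lit 981) (nat_lit 4) (nat_lit 4))
    (@En.n l7 (nat_lit 370) (nat_lit 9) (nat_lit 9))
    (@En.n l644 (nat_lit 370) (nat_lit 10) (nat_lit 6))
    (@En.n l23088 (nat_lit 4226) (nat_lit 7) (nat_lit 6))
    (@En.n l3 (nat_lit 369) (nat_lit 9) (nat_lit 12))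
    (@En.n l3 (nat_lit 367) (nat_lit 8) (nat_lit 8))
    (@En.n l36795 (nat_lit 338) (nat_lit 10) (nat_lit 9))
    (@En.i (nat_lit 6127) (nat_lit 6) (nat_lit 5))
    (@En.n l5837 (nat_lit 913) (nat_lit 6) (nat_lit 10))
    (@En.n l5838 (nat_lit 914) (nat_lit 8) (nat_lit 10))
    (@En.n l23090 (nat_lit 2514) (nat_lit 12) (nat_lit 7))
    (@En.n l14961 (nat_lit 977) (nat_lit 15) (nat_lit 3))))
  (@Cl.mk (nat_lit 0x20007000a000d000500080003000c0006000d0009000400030008000e000b) (nat_lit 0x2000a00000000) (nat_lit 16) Lb.e (@T16.mk En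
    (@En.i (nat_lit 373) (nat_lit 13) (nat_lit 11))
    (@En.n l601 (nat_lit 1546) (nat_lit 1) (nat_lit 14))
    (@En.n l287 (nat_lit 7557) (nat_lit 2) (nat_lit 8))
    (@En.n l11 (nat_lit 368) (nat_lit 3) (nat_lit 3))
    (@En.n l2004 (nat_lit 621) (nat_lit 0) (nat_lit 4))
    (@En.i (nat_lit 1305) (nat_lit 5) (nat_lit 9))
    (@En.n l3478 (nat_lit 1312) (nat_lit 7) (nat_lit 13))
    (@En.n l3651 (nat_lit 1101) (nat_lit 7) (nat_lit 6))
    (@En.n l2125 (nat_lit 5470) (nat_lit 9) (nat_lit 12))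
    (@En.n l2364 (nat_lit 1092) (nat_lit 9) (nat_lit 3))
    (@En.i (nat_lit 13266) (nat_lit 10) (nat_lit 8))
    (@En.n l3098 (nat_lit 4231) (nat_lit 12) (nat_lit 5))
    (@En.i (nat_lit 375) (nat_lit 13) (nat_lit 13))
    (@En.n l7029 (nat_lit 1008) (nat_lit 8) (nat_lit 10))
    (@En.i (nat_lit 8798) (nat_lit 4) (nat_lit 7))
    (@En.n l50 (nat_lit 372) (nat_lit 15) (nat_lit 2))))
  (@Cl.mk (nat_lit 0x30008000b000b00060009000c0005000500080004000c0007000d000a0004) (nat_lit 0x90003001080000) (nat_lit 16) Lb.e (@T16.mk En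
    (@En.n l2004 (nat_lit 617) (nat_lit 0) (nat_lit 4))
    (@En.i (nat_lit 1301) (nat_lit 0) (nat_lit 10))
    (@En.n l3478 (nat_lit 1139) (nat_lit 1) (nat_lit 13))
    (@En.n l14961 (nat_lit 977) (nat_lit 3) (nat_lit 7))
    (@En.n l2125 (nat_lit 1311) (nat_lit 5) (nat_lit 12))
    (@En.n l5834 (nat_lit 982) (nat_lit 5) (nat_lit 4))
    (@En.n l7 (nat_lit 372) (nat_lit 10) (nat_lit 8))
    (@En.n l644 (nat_lit 372) (nat_lit 11) (nat_lit 5))
    (@En.n l14962 (nat_lit 4232) (nat_lit 8) (nat_lit 5))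
    (@En.i (nat_lit 320) (nat_lit 6) (nat_lit 12))
    (@En.n l14962 (nat_lit 1006) (nat_lit 9) (nat_lit 9))
    (@En.i (nat_lit 8799) (nat_lit 2) (nat_lit 6))
    (@En.n l5837 (nat_lit 915) (nat_lit 5) (nat_lit 11))
    (@En.n l5838 (nat_lit 916) (nat_lit 7) (nat_lit 11))
    (@En.n l287 (nat_lit 6556) (nat_lit 14) (nat_lit 8))
    (@En.n l11 (nat_lit 369) (nat_lit 15) (nat_lit 3))))
  (@Cl.mk (nat_lit 0x20006000d000400070003000e000d0002000d0003000a00030009000e000c) (nat_lit 0x10009a0b000002) (nat_lit 16) Lb.e (@T16.mk En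
    (@En.i (nat_lit 317) (nat_lit 9) (nat_lit 12))
    (@En.n l601 (nat_lit 1117) (nat_lit 1) (nat_lit 14))
    (@En.i (nat_lit 2261) (nat_lit 11) (nat_lit 9))
    (@En.i (nat_lit 375) (nat_lit 3) (nat_lit 3))
    (@En.i (nat_lit 4987) (nat_lit 4) (nat_lit 10))
    (@En.n l117 (nat_lit 365) (nat_lit 5) (nat_lit 3))
    (@En.i (nat_lit 382) (nat_lit 7) (nat_lit 13))
    (@En.n l3 (nat_lit 374) (nat_lit 7) (nat_lit 2))
    (@En.i (nat_lit 365) (nat_lit 9) (nat_lit 13))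
    (@En.i (nat_lit 7592) (nat_lit 10) (nat_lit 14))
    (@En.n l2364 (nat_lit 376) (nat_lit 10) (nat_lit 3))
    (@En.i (nat_lit 13288) (nat_lit 11) (nat_lit 7))
    (@En.i (nat_lit 4288) (nat_lit 4) (nat_lit 4))
    (@En.i (nat_lit 28) (nat_lit 6) (nat_lit 13))
    (@En.i (nat_lit 5665) (nat_lit 6) (nat_lit 6))
    (@En.n l50 (nat_lit 374) (nat_lit 15) (nat_lit 2))))
  (@Cl.mk (nat_lit 0x20007000d000400070003000e000c0002000d0009000400030009000e000c) (nat_lit 0x10009103000002) (nat_lit 16) Lb.e (@T16.mk En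
    (@En.i (nat_lit 320) (nat_lit 9) (nat_lit 12))
    (@En.n l601 (nat_lit 1118) (nat_lit 1) (nat_lit 14))
    (@En.n l287 (nat_lit 5983) (nat_lit 11) (nat_lit 9))
    (@En.n l11 (nat_lit 374) (nat_lit 3) (nat_lit 3))
    (@En.n l2004 (nat_lit 358) (nat_lit 4) (nat_lit 4))
    (@En.i (nat_lit 1314) (nat_lit 5) (nat_lit 9))
    (@En.n l615 (nat_lit 383) (nat_lit 7) (nat_lit 13))
    (@En.n l3 (nat_lit 375) (nat_lit 7) (nat_lit 2))
    (@En.i (nat_lit 360) (nat_lit 9) (nat_lit 12))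
    (@En.i (nat_lit 7588) (nat_lit 1) (nat_lit 14))
    (@En.n l2364 (nat_lit 378) (nat_lit 10) (nat_lit 3))
    (@En.i (nat_lit 13289) (nat_lit 11) (nat_lit 7))
    (@En.i (nat_lit 3865) (nat_lit 4) (nat_lit 4))
    (@En.n l678 (nat_lit 93) (nat_lit 14) (nat_lit 13))
    (@En.i (nat_lit 7912) (nat_lit 6) (nat_lit 7))
    (@En.n l50 (nat_lit 375) (nat_lit 15) (nat_lit 2))))
  (@Cl.mk (nat_lit 0x20006000d000600050003000e000d0002000d0003000a0003000a000e000b) (nat_lit 0x20009b03000001) (nat_lit 16) Lb.e (@T16.mk En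
    (@En.n l7 (nat_lit 305) (nat_lit 9) (nat_lit 11))
    (@En.n l5841 (nat_lit 1119) (nat_lit 10) (nat_lit 14))
    (@En.i (nat_lit 5934) (nat_lit 2) (nat_lit 10))
    (@En.i (nat_lit 378) (nat_lit 3) (nat_lit 3))
    (@En.n l2026 (nat_lit 4871) (nat_lit 4) (nat_lit 10))
    (@En.n l117 (nat_lit 377) (nat_lit 5) (nat_lit 3))
    (@En.i (nat_lit 380) (nat_lit 7) (nat_lit 13))
    (@En.n l3 (nat_lit 376) (nat_lit 7) (nat_lit 2))
    (@En.i (nat_lit 377) (nat_lit 9) (nat_lit 13))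
    (@En.i (nat_lit 6762) (nat_lit 10) (nat_lit 14))
    (@En.n l763 (nat_lit 374) (nat_lit 10) (nat_lit 3))
    (@En.i (nat_lit 690) (nat_lit 3) (nat_lit 5))
    (@En.n l300 (nat_lit 854) (nat_lit 13) (nat_lit 6))
    (@En.n l2026 (nat_lit 93) (nat_lit 6) (nat_lit 13))
    (@En.n l2026 (nat_lit 6157) (nat_lit 6) (nat_lit 6))
    (@En.n l50 (nat_lit 376) (nat_lit 15) (nat_lit 2))))
  (@Cl.mk (nat_lit 0x20006000d000600050003000d000d000c00030003000a0004000a000e000b) (nat_lit 0x1000ab20000001) (nat_lit 16) Lb.e (@T16.mk En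
    (@En.n l7 (nat_lit 306) (nat_lit 10) (nat_lit 11))
    (@En.n l5841 (nat_lit 1066) (nat_lit 1) (nat_lit 14))
    (@En.n l4322 (nat_lit 5933) (nat_lit 2) (nat_lit 10))
    (@En.i (nat_lit 354) (nat_lit 3) (nat_lit 4))
    (@En.n l476 (nat_lit 1090) (nat_lit 4) (nat_lit 10))
    (@En.n l152 (nat_lit 376) (nat_lit 5) (nat_lit 3))
    (@En.n l2552 (nat_lit 1088) (nat_lit 6) (nat_lit 3))
    (@En.n l619 (nat_lit 378) (nat_lit 8) (nat_lit 12))
    (@En.n l5746 (nat_lit 1088) (nat_lit 9) (nat_lit 13))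
    (@En.i (nat_lit 6768) (nat_lit 10) (nat_lit 13))
    (@En.n l763 (nat_lit 365) (nat_lit 10) (nat_lit 3))
    (@En.i (nat_lit 691) (nat_lit 0) (nat_lit 5))
    (@En.n l300 (nat_lit 856) (nat_lit 13) (nat_lit 6))
    (@En.n l829 (nat_lit 84) (nat_lit 14) (nat_lit 13))
    (@En.i (nat_lit 6103) (nat_lit 7) (nat_lit 6))
    (@En.n l50 (nat_lit 377) (nat_lit 15) (nat_lit 2))))
  (@Cl.mk (nat_lit 0x20007000d000600050003000e000c0002000d000900040003000a000e000b) (nat_lit 0x1000910b000002) (nat_lit 16) Lb.e (@T16.mk En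
    (@En.n l7 (nat_lit 304) (nat_lit 9) (nat_lit 11))
    (@En.n l5841 (nat_lit 1120) (nat_lit 1) (nat_lit 14))
    (@En.n l845 (nat_lit 11199) (nat_lit 11) (nat_lit 10))
    (@En.n l11 (nat_lit 376) (nat_lit 3) (nat_lit 3))
    (@En.n l5842 (nat_lit 351) (nat_lit 4) (nat_lit 4))
    (@En.i (nat_lit 379) (nat_lit 5) (nat_lit 9))
    (@En.n l1966 (nat_lit 381) (nat_lit 7) (nat_lit 13))
    (@En.n l3 (nat_lit 378) (nat_lit 7) (nat_lit 2))
    (@En.i (nat_lit 354) (nat_lit 9) (nat_lit 12))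
    (@En.i (nat_lit 6760) (nat_lit 1) (nat_lit 14))
    (@En.n l763 (nat_lit 375) (nat_lit 10) (nat_lit 3))
    (@En.i (nat_lit 687) (nat_lit 3) (nat_lit 5))
    (@En.n l300 (nat_lit 853) (nat_lit 13) (nat_lit 6))
    (@En.n l2026 (nat_lit 13) (nat_lit 6) (nat_lit 13))
    (@En.n l5843 (nat_lit 7913) (nat_lit 6) (nat_lit 7))
    (@En.n l50 (nat_lit 378) (nat_lit 15) (nat_lit 2))))
  (@Cl.mk (nat_lit 0x200070006000d000700060003000e000d000200090003000a0009000e000a) (nat_lit 0x3000a00700000) (nat_lit 16) Lb.e (@T16.mk En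
    (@En.n l7 (nat_lit 1129) (nat_lit 10) (nat_lit 10))
    (@En.n l5841 (nat_lit 1124) (nat_lit 11) (nat_lit 14))
    (@En.n l14458 (nat_lit 6070) (nat_lit 2) (nat_lit 9))
    (@En.n l5843 (nat_lit 4938) (nat_lit 3) (nat_lit 10))
    (@En.n l117 (nat_lit 1098) (nat_lit 4) (nat_lit 3))
    (@En.i (nat_lit 1427) (nat_lit 5) (nat_lit 9))
    (@En.n l3 (nat_lit 379) (nat_lit 6) (nat_lit 2))
    (@En.i (nat_lit 1098) (nat_lit 8) (nat_lit 13))
    (@En.i (nat_lit 6761) (nat_lit 1) (nat_lit 14))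
    (@En.n l763 (nat_lit 1314) (nat_lit 9) (nat_lit 3))
    (@En.i (nat_lit 1208) (nat_lit 3) (nat_lit 6))
    (@En.n l300 (nat_lit 3118) (nat_lit 4) (nat_lit 7))
    (@En.n l524 (nat_lit 380) (nat_lit 13) (nat_lit 13))
    (@En.i (nat_lit 376) (nat_lit 14) (nat_lit 6))
    (@En.n l14459 (nat_lit 8761) (nat_lit 7) (nat_lit 7))
    (@En.n l50 (nat_lit 379) (nat_lit 15) (nat_lit 2))))
  (@Cl.mk (nat_lit 0x20007000d000600050003000a000e000d0002000900030006000a000e000b) (nat_lit 0x20004a20000090) (nat_lit 16) Lb.e (@T16.mk En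
    (@En.n l7 (nat_lit 402) (nat_lit 10) (nat_lit 11))
    (@En.n l5841 (nat_lit 407) (nat_lit 11) (nat_lit 14))
    (@En.n l1982 (nat_lit 6069) (nat_lit 2) (nat_lit 10))
    (@En.i (nat_lit 13584) (nat_lit 12) (nat_lit 6))
    (@En.n l1966 (nat_lit 381) (nat_lit 4) (nat_lit 3))
    (@En.n l210 (nat_lit 1425) (nat_lit 0) (nat_lit 9))
    (@En.n l107 (nat_lit 380) (nat_lit 6) (nat_lit 2))
    (@En.n l1982 (nat_lit 381) (nat_lit 8) (nat_lit 13))
    (@En.n l619 (nat_lit 378) (nat_lit 9) (nat_lit 14))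
    (@En.n l2302 (nat_lit 626) (nat_lit 2) (nat_lit 10))
    (@En.n l763 (nat_lit 382) (nat_lit 10) (nat_lit 3))
    (@En.i (nat_lit 452) (nat_lit 4) (nat_lit 5))
    (@En.n l300 (nat_lit 459) (nat_lit 5) (nat_lit 6))
    (@En.n l2567 (nat_lit 109) (nat_lit 7) (nat_lit 13))
    (@En.n l2026 (nat_lit 7870) (nat_lit 7) (nat_lit 7))
    (@En.n l50 (nat_lit 380) (nat_lit 15) (nat_lit 2))))
  (@Cl.mk (nat_lit 0x20008000d000600050003000a000d000d0008000300030006000a000e000b) (nat_lit 0x200041a0000090) (nat_lit 16) Lb.e (@T16.mk En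
    (@En.n l5817 (nat_lit 401) (nat_lit 11) (nat_lit 11))
    (@En.n l5818 (nat_lit 409) (nat_lit 1) (nat_lit 14))
    (@En.i (nat_lit 6067) (nat_lit 2) (nat_lit 10))
    (@En.n l633 (nat_lit 380) (nat_lit 3) (nat_lit 6))
    (@En.n l2015 (nat_lit 380) (nat_lit 4) (nat_lit 3))
    (@En.n l5819 (nat_lit 416) (nat_lit 0) (nat_lit 3))
    (@En.n l629 (nat_lit 1424) (nat_lit 6) (nat_lit 8))
    (@En.n l5820 (nat_lit 416) (nat_lit 3) (nat_lit 13))
    (@En.n l5821 (nat_lit 351) (nat_lit 9) (nat_lit 13))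
    (@En.n l2325 (nat_lit 441) (nat_lit 10) (nat_lit 10))
    (@En.i (nat_lit 383) (nat_lit 10) (nat_lit 3))
    (@En.n l629 (nat_lit 447) (nat_lit 0) (nat_lit 5))
    (@En.n l5592 (nat_lit 387) (nat_lit 13) (nat_lit 6))
    (@En.n l5822 (nat_lit 110) (nat_lit 14) (nat_lit 13))
    (@En.i (nat_lit 7872) (nat_lit 3) (nat_lit 8))
    (@En.n l7 (nat_lit 381) (nat_lit 15) (nat_lit 2))))
  (@Cl.mk (nat_lit 0x20007000d000400070003000a000e000d00020009000300060009000e000c) (nat_lit 0x20004aa0000000) (nat_lit 16) Lb.e (@T16.mk En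
    (@En.i (nat_lit 384) (nat_lit 10) (nat_lit 12))
    (@En.n l601 (nat_lit 445) (nat_lit 11) (nat_lit 14))
    (@En.n l1643 (nat_lit 5896) (nat_lit 2) (nat_lit 9))
    (@En.i (nat_lit 13579) (nat_lit 12) (nat_lit 6))
    (@En.n l615 (nat_lit 383) (nat_lit 4) (nat_lit 3))
    (@En.n l1998 (nat_lit 1429) (nat_lit 0) (nat_lit 9))
    (@En.n l107 (nat_lit 382) (nat_lit 6) (nat_lit 2))
    (@En.n l1643 (nat_lit 383) (nat_lit 8) (nat_lit 13))
    (@En.n l619 (nat_lit 375) (nat_lit 9) (nat_lit 14))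
    (@En.n l1722 (nat_lit 459) (nat_lit 2) (nat_lit 10))
    (@En.n l2364 (nat_lit 380) (nat_lit 10) (nat_lit 3))
    (@En.i (nat_lit 717) (nat_lit 11) (nat_lit 7))
    (@En.i (nat_lit 482) (nat_lit 5) (nat_lit 4))
    (@En.n l1998 (nat_lit 92) (nat_lit 7) (nat_lit 13))
    (@En.i (nat_lit 7865) (nat_lit 7) (nat_lit 7))
    (@En.n l50 (nat_lit 382) (nat_lit 15) (nat_lit 2))))
  (@Cl.mk (nat_lit 0x20008000d000400070003000a000d000d00080003000300060009000e000c) (nat_lit 0x30004920000000) (nat_lit 16) Lb.e (@T16.mk En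
    (@En.n l226 (nat_lit 385) (nat_lit 11) (nat_lit 12))
    (@En.n l14423 (nat_lit 405) (nat_lit 1) (nat_lit 14))
    (@En.i (nat_lit 5894) (nat_lit 2) (nat_lit 9))
    (@En.n l730 (nat_lit 382) (nat_lit 3) (nat_lit 6))
    (@En.n l731 (nat_lit 382) (nat_lit 4) (nat_lit 3))
    (@En.n l1865 (nat_lit 386) (nat_lit 0) (nat_lit 3))
    (@En.n l639 (nat_lit 957) (nat_lit 6) (nat_lit 8))
    (@En.n l1867 (nat_lit 386) (nat_lit 3) (nat_lit 13))
    (@En.n l226 (nat_lit 358) (nat_lit 9) (nat_lit 13))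
    (@En.n l5901 (nat_lit 387) (nat_lit 10) (nat_lit 10))
    (@En.n l18 (nat_lit 381) (nat_lit 10) (nat_lit 3))
    (@En.i (nat_lit 712) (nat_lit 11) (nat_lit 7))
    (@En.i (nat_lit 480) (nat_lit 6) (nat_lit 4))
    (@En.n l649 (nat_lit 90) (nat_lit 14) (nat_lit 13))
    (@En.i (nat_lit 7845) (nat_lit 1) (nat_lit 8))
    (@En.n l7 (nat_lit 383) (nat_lit 15) (nat_lit 2))))
noncomputable def a24 : T16 Cl := @T16.mk Cl
  (@Cl.mk (nat_lit 0x2000a000300060009000c000c0006000c0004000400070004000a000e000d) (nat_lit 0xa301000051b) (nat_lit 16) Lb.e (@T16.mk En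
    (@En.n l26587 (nat_lit 385) (nat_lit 2) (nat_lit 13))
    (@En.n l619 (nat_lit 320) (nat_lit 1) (nat_lit 14))
    (@En.n l6508 (nat_lit 396) (nat_lit 2) (nat_lit 10))
    (@En.n l5834 (nat_lit 402) (nat_lit 3) (nat_lit 4))
    (@En.n l7 (nat_lit 382) (nat_lit 11) (nat_lit 7))
    (@En.n l644 (nat_lit 382) (nat_lit 12) (nat_lit 4))
    (@En.n l5838 (nat_lit 479) (nat_lit 6) (nat_lit 4))
    (@En.n l1998 (nat_lit 87) (nat_lit 8) (nat_lit 12))
    (@En.i (nat_lit 7864) (nat_lit 8) (nat_lit 6))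
    (@En.n l5837 (nat_lit 397) (nat_lit 4) (nat_lit 12))
    (@En.n l5838 (nat_lit 400) (nat_lit 6) (nat_lit 12))
    (@En.n l1643 (nat_lit 5897) (nat_lit 12) (nat_lit 9))
    (@En.i (nat_lit 13580) (nat_lit 12) (nat_lit 6))
    (@En.n l6248 (nat_lit 385) (nat_lit 14) (nat_lit 3))
    (@En.n l1998 (nat_lit 1435) (nat_lit 0) (nat_lit 10))
    (@En.n l107 (nat_lit 384) (nat_lit 15) (nat_lit 2))))
  (@Cl.mk (nat_lit 0x3000300060009000c000c0007000c0004000400070004000a000d000d0009) (nat_lit 0xa30100005ab0) (nat_lit 16) Lb.e (@T16.mk En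
    (@En.n l15208 (nat_lit 958) (nat_lit 0) (nat_lit 9))
    (@En.n l217 (nat_lit 388) (nat_lit 3) (nat_lit 13))
    (@En.i (nat_lit 324) (nat_lit 5) (nat_lit 13))
    (@En.n l1863 (nat_lit 392) (nat_lit 3) (nat_lit 10))
    (@En.n l5772 (nat_lit 401) (nat_lit 4) (nat_lit 4))
    (@En.n l27912 (nat_lit 383) (nat_lit 11) (nat_lit 7))
    (@En.n l14211 (nat_lit 383) (nat_lit 12) (nat_lit 4))
    (@En.n l5389 (nat_lit 477) (nat_lit 7) (nat_lit 4))
    (@En.i (nat_lit 86) (nat_lit 0) (nat_lit 12))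
    (@En.n l613 (nat_lit 7747) (nat_lit 1) (nat_lit 7))
    (@En.n l5774 (nat_lit 389) (nat_lit 4) (nat_lit 12))
    (@En.n l27913 (nat_lit 398) (nat_lit 6) (nat_lit 12))
    (@En.n l613 (nat_lit 5892) (nat_lit 9) (nat_lit 9))
    (@En.n l27914 (nat_lit 384) (nat_lit 12) (nat_lit 6))
    (@En.n l27915 (nat_lit 384) (nat_lit 13) (nat_lit 3))
    (@En.n l50 (nat_lit 388) (nat_lit 0) (nat_lit 3))))
  (@Cl.mk (nat_lit 0x200060009000e000c00020009000d000400070003000a000d0007000e0003) (nat_lit 0x1000410c0) (nat_lit 16) Lb.e (@T16.mk En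
    (@En.n l2869 (nat_lit 383) (nat_lit 5) (nat_lit 3))
    (@En.n l1997 (nat_lit 13579) (nat_lit 0) (nat_lit 14))
    (@En.i (nat_lit 423) (nat_lit 2) (nat_lit 7))
    (@En.n l1997 (nat_lit 357) (nat_lit 5) (nat_lit 13))
    (@En.n l28460 (nat_lit 458) (nat_lit 4) (nat_lit 10))
    (@En.n l1643 (nat_lit 416) (nat_lit 5) (nat_lit 3))
    (@En.i (nat_lit 718) (nat_lit 11) (nat_lit 7))
    (@En.n l14820 (nat_lit 481) (nat_lit 7) (nat_lit 4))
    (@En.i (nat_lit 91) (nat_lit 9) (nat_lit 13))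
    (@En.n l1997 (nat_lit 7846) (nat_lit 10) (nat_lit 9))
    (@En.n l107 (nat_lit 386) (nat_lit 10) (nat_lit 2))
    (@En.n l1643 (nat_lit 388) (nat_lit 12) (nat_lit 12))
    (@En.n l25321 (nat_lit 444) (nat_lit 13) (nat_lit 14))
    (@En.i (nat_lit 5893) (nat_lit 2) (nat_lit 9))
    (@En.n l3337 (nat_lit 383) (nat_lit 3) (nat_lit 6))
    (@En.n l17 (nat_lit 386) (nat_lit 15) (nat_lit 2))))
  (@Cl.mk (nat_lit 0x20009000600040007000a000d000d0007000300030006000a0009000e000c) (nat_lit 0x300000001a0) (nat_lit 16) Lb.e (@T16.mk En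
    (@En.n l14425 (nat_lit 392) (nat_lit 10) (nat_lit 12))
    (@En.n l14426 (nat_lit 442) (nat_lit 1) (nat_lit 14))
    (@En.n l4780 (nat_lit 383) (nat_lit 2) (nat_lit 9))
    (@En.i (nat_lit 1312) (nat_lit 3) (nat_lit 10))
    (@En.n l730 (nat_lit 459) (nat_lit 12) (nat_lit 6))
    (@En.n l731 (nat_lit 459) (nat_lit 13) (nat_lit 3))
    (@En.n l14427 (nat_lit 458) (nat_lit 0) (nat_lit 3))
    (@En.n l639 (nat_lit 953) (nat_lit 0) (nat_lit 7))
    (@En.n l14428 (nat_lit 458) (nat_lit 3) (nat_lit 13))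
    (@En.n l14426 (nat_lit 3329) (nat_lit 10) (nat_lit 13))
    (@En.n l14429 (nat_lit 629) (nat_lit 11) (nat_lit 10))
    (@En.i (nat_lit 716) (nat_lit 11) (nat_lit 7))
    (@En.n l14429 (nat_lit 460) (nat_lit 5) (nat_lit 4))
    (@En.i (nat_lit 524) (nat_lit 14) (nat_lit 6))
    (@En.n l13138 (nat_lit 7848) (nat_lit 1) (nat_lit 9))
    (@En.n l50 (nat_lit 387) (nat_lit 15) (nat_lit 2))))
  (@Cl.mk (nat_lit 0x200060009000c000c0008000c0004000400070004000a000d0008000e0003) (nat_lit 0xa00100005a030) (nat_lit 16) Lb.e (@T16.mk En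
    (@En.i (nat_lit 385) (nat_lit 15) (nat_lit 3))
    (@En.n l1998 (nat_lit 13580) (nat_lit 0) (nat_lit 14))
    (@En.i (nat_lit 427) (nat_lit 2) (nat_lit 8))
    (@En.i (nat_lit 328) (nat_lit 5) (nat_lit 13))
    (@En.n l1863 (nat_lit 394) (nat_lit 4) (nat_lit 10))
    (@En.n l2312 (nat_lit 403) (nat_lit 5) (nat_lit 4))
    (@En.n l730 (nat_lit 386) (nat_lit 6) (nat_lit 7))
    (@En.n l731 (nat_lit 386) (nat_lit 7) (nat_lit 4))
    (@En.n l12479 (nat_lit 478) (nat_lit 8) (nat_lit 4))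
    (@En.i (nat_lit 89) (nat_lit 10) (nat_lit 12))
    (@En.i (nat_lit 7850) (nat_lit 11) (nat_lit 8))
    (@En.n l4663 (nat_lit 390) (nat_lit 12) (nat_lit 12))
    (@En.n l226 (nat_lit 399) (nat_lit 6) (nat_lit 12))
    (@En.n l639 (nat_lit 5895) (nat_lit 14) (nat_lit 9))
    (@En.n l1738 (nat_lit 385) (nat_lit 13) (nat_lit 6))
    (@En.n l18 (nat_lit 388) (nat_lit 15) (nat_lit 2))))
  (@Cl.mk (nat_lit 0x200070005000a000d000d000a0003000300060009000c0006000b000e0004) (nat_lit 0x7ab0000020100) (nat_lit 16) Lb.e (@T16.mk En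
    (@En.n l2129 (nat_lit 385) (nat_lit 7) (nat_lit 4))
    (@En.i (nat_lit 702) (nat_lit 4) (nat_lit 14))
    (@En.n l649 (nat_lit 88) (nat_lit 2) (nat_lit 11))
    (@En.i (nat_lit 7740) (nat_lit 3) (nat_lit 6))
    (@En.n l639 (nat_lit 528) (nat_lit 6) (nat_lit 12))
    (@En.i (nat_lit 5898) (nat_lit 5) (nat_lit 9))
    (@En.n l730 (nat_lit 397) (nat_lit 6) (nat_lit 6))
    (@En.n l731 (nat_lit 397) (nat_lit 7) (nat_lit 3))
    (@En.n l12587 (nat_lit 390) (nat_lit 0) (nat_lit 3))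
    (@En.n l619 (nat_lit 960) (nat_lit 10) (nat_lit 10))
    (@En.n l4662 (nat_lit 390) (nat_lit 3) (nat_lit 13))
    (@En.n l2009 (nat_lit 323) (nat_lit 12) (nat_lit 13))
    (@En.n l4825 (nat_lit 393) (nat_lit 13) (nat_lit 10))
    (@En.n l2138 (nat_lit 398) (nat_lit 14) (nat_lit 5))
    (@En.n l5598 (nat_lit 385) (nat_lit 5) (nat_lit 7))
    (@En.n l7 (nat_lit 389) (nat_lit 15) (nat_lit 2))))
  (@Cl.mk (nat_lit 0x200060009000c0007000b000e0004000200070005000a000d0009000e0003) (nat_lit 0xa01000007a030) (nat_lit 16) Lb.e (@T16.mk En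
    (@En.n l12278 (nat_lit 389) (nat_lit 8) (nat_lit 3))
    (@En.n l1643 (nat_lit 13127) (nat_lit 0) (nat_lit 14))
    (@En.n l12279 (nat_lit 1663) (nat_lit 2) (nat_lit 9))
    (@En.i (nat_lit 329) (nat_lit 12) (nat_lit 13))
    (@En.n l4758 (nat_lit 391) (nat_lit 4) (nat_lit 10))
    (@En.n l2593 (nat_lit 399) (nat_lit 14) (nat_lit 5))
    (@En.n l12488 (nat_lit 388) (nat_lit 6) (nat_lit 7))
    (@En.n l18 (nat_lit 390) (nat_lit 7) (nat_lit 2))
    (@En.n l613 (nat_lit 388) (nat_lit 8) (nat_lit 4))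
    (@En.n l1643 (nat_lit 711) (nat_lit 10) (nat_lit 14))
    (@En.n l1998 (nat_lit 94) (nat_lit 2) (nat_lit 11))
    (@En.n l11277 (nat_lit 7739) (nat_lit 3) (nat_lit 7))
    (@En.i (nat_lit 530) (nat_lit 6) (nat_lit 12))
    (@En.n l1998 (nat_lit 5900) (nat_lit 5) (nat_lit 9))
    (@En.n l2903 (nat_lit 389) (nat_lit 6) (nat_lit 6))
    (@En.n l11 (nat_lit 390) (nat_lit 15) (nat_lit 2))))
  (@Cl.mk (nat_lit 0x20006000c0009000c00080004000e000400020007000a000d0008000e0003) (nat_lit 0x1300000060000) (nat_lit 16) Lb.e (@T16.mk En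
    (@En.n l7706 (nat_lit 393) (nat_lit 9) (nat_lit 3))
    (@En.i (nat_lit 13581) (nat_lit 0) (nat_lit 14))
    (@En.n l12743 (nat_lit 1666) (nat_lit 2) (nat_lit 8))
    (@En.i (nat_lit 3332) (nat_lit 13) (nat_lit 13))
    (@En.n l1501 (nat_lit 865) (nat_lit 4) (nat_lit 10))
    (@En.n l11240 (nat_lit 394) (nat_lit 5) (nat_lit 7))
    (@En.n l18 (nat_lit 391) (nat_lit 6) (nat_lit 2))
    (@En.n l3233 (nat_lit 394) (nat_lit 7) (nat_lit 4))
    (@En.n l396 (nat_lit 699) (nat_lit 9) (nat_lit 14))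
    (@En.n l10348 (nat_lit 530) (nat_lit 2) (nat_lit 4))
    (@En.n l1501 (nat_lit 7414) (nat_lit 3) (nat_lit 8))
    (@En.i (nat_lit 845) (nat_lit 12) (nat_lit 12))
    (@En.n l4869 (nat_lit 390) (nat_lit 13) (nat_lit 9))
    (@En.n l12890 (nat_lit 1141) (nat_lit 7) (nat_lit 12))
    (@En.n l4870 (nat_lit 393) (nat_lit 7) (nat_lit 6))
    (@En.n l107 (nat_lit 391) (nat_lit 15) (nat_lit 2))))
  (@Cl.mk (nat_lit 0x300030006000b0009000c000c00080005000400040007000a000d000d0008) (nat_lit 0x1a4000004000) (nat_lit 16) Lb.e (@T16.mk En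
    (@En.n l12776 (nat_lit 952) (nat_lit 0) (nat_lit 8))
    (@En.n l217 (nat_lit 394) (nat_lit 3) (nat_lit 13))
    (@En.n l4947 (nat_lit 3328) (nat_lit 5) (nat_lit 13))
    (@En.i (nat_lit 439) (nat_lit 8) (nat_lit 10))
    (@En.n l26550 (nat_lit 387) (nat_lit 11) (nat_lit 7))
    (@En.n l26551 (nat_lit 387) (nat_lit 12) (nat_lit 4))
    (@En.i (nat_lit 464) (nat_lit 6) (nat_lit 4))
    (@En.n l12776 (nat_lit 526) (nat_lit 0) (nat_lit 5))
    (@En.n l575 (nat_lit 7856) (nat_lit 1) (nat_lit 8))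
    (@En.n l26552 (nat_lit 393) (nat_lit 4) (nat_lit 12))
    (@En.n l12776 (nat_lit 438) (nat_lit 6) (nat_lit 12))
    (@En.n l4948 (nat_lit 385) (nat_lit 12) (nat_lit 9))
    (@En.n l26553 (nat_lit 1139) (nat_lit 13) (nat_lit 11))
    (@En.n l26554 (nat_lit 396) (nat_lit 12) (nat_lit 6))
    (@En.n l26555 (nat_lit 396) (nat_lit 13) (nat_lit 3))
    (@En.n l50 (nat_lit 394) (nat_lit 0) (nat_lit 3))))
  (@Cl.mk (nat_lit 0x20007000a000d000d0009000300030006000c0009000c00070004000e0004) (nat_lit 0x60100000130000) (nat_lit 16) Lb.e (@T16.mk En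
    (@En.n l12767 (nat_lit 392) (nat_lit 6) (nat_lit 4))
    (@En.n l4903 (nat_lit 703) (nat_lit 1) (nat_lit 14))
    (@En.n l7 (nat_lit 528) (nat_lit 2) (nat_lit 4))
    (@En.n l10352 (nat_lit 7742) (nat_lit 3) (nat_lit 7))
    (@En.i (nat_lit 841) (nat_lit 6) (nat_lit 12))
    (@En.n l1571 (nat_lit 389) (nat_lit 5) (nat_lit 9))
    (@En.n l615 (nat_lit 1138) (nat_lit 7) (nat_lit 12))
    (@En.n l159 (nat_lit 395) (nat_lit 7) (nat_lit 6))
    (@En.n l11 (nat_lit 395) (nat_lit 8) (nat_lit 3))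
    (@En.n l2691 (nat_lit 391) (nat_lit 0) (nat_lit 3))
    (@En.i (nat_lit 959) (nat_lit 11) (nat_lit 9))
    (@En.n l1572 (nat_lit 391) (nat_lit 3) (nat_lit 13))
    (@En.n l619 (nat_lit 3330) (nat_lit 13) (nat_lit 13))
    (@En.n l10352 (nat_lit 675) (nat_lit 14) (nat_lit 10))
    (@En.n l12768 (nat_lit 392) (nat_lit 4) (nat_lit 7))
    (@En.n l18 (nat_lit 393) (nat_lit 15) (nat_lit 2))))
  (@Cl.mk (nat_lit 0x20006000b0009000c000c00090005000400040007000a000d0007000e0003) (nat_lit 0x104000004b000) (nat_lit 16) Lb.e (@T16.mk En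
    (@En.i (nat_lit 392) (nat_lit 15) (nat_lit 3))
    (@En.n l4943 (nat_lit 13578) (nat_lit 0) (nat_lit 14))
    (@En.i (nat_lit 949) (nat_lit 2) (nat_lit 7))
    (@En.n l4947 (nat_lit 3325) (nat_lit 5) (nat_lit 13))
    (@En.i (nat_lit 851) (nat_lit 4) (nat_lit 10))
    (@En.n l343 (nat_lit 458) (nat_lit 5) (nat_lit 7))
    (@En.n l1577 (nat_lit 458) (nat_lit 6) (nat_lit 4))
    (@En.i (nat_lit 465) (nat_lit 7) (nat_lit 4))
    (@En.n l4946 (nat_lit 529) (nat_lit 8) (nat_lit 5))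
    (@En.n l457 (nat_lit 7857) (nat_lit 10) (nat_lit 9))
    (@En.n l7901 (nat_lit 391) (nat_lit 11) (nat_lit 12))
    (@En.n l4947 (nat_lit 673) (nat_lit 12) (nat_lit 12))
    (@En.n l4948 (nat_lit 388) (nat_lit 13) (nat_lit 9))
    (@En.n l573 (nat_lit 1140) (nat_lit 14) (nat_lit 11))
    (@En.n l1738 (nat_lit 392) (nat_lit 13) (nat_lit 6))
    (@En.n l18 (nat_lit 394) (nat_lit 15) (nat_lit 2))))
  (@Cl.mk (nat_lit 0x20007000a000e000d0002000a00030006000c0009000c00060004000e0004) (nat_lit 0x60100000030000) (nat_lit 16) Lb.e (@T16.mk En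
    (@En.n l7 (nat_lit 396) (nat_lit 5) (nat_lit 4))
    (@En.n l564 (nat_lit 700) (nat_lit 1) (nat_lit 14))
    (@En.n l7 (nat_lit 527) (nat_lit 2) (nat_lit 4))
    (@En.i (nat_lit 7746) (nat_lit 3) (nat_lit 6))
    (@En.i (nat_lit 846) (nat_lit 6) (nat_lit 12))
    (@En.n l420 (nat_lit 397) (nat_lit 5) (nat_lit 9))
    (@En.n l1643 (nat_lit 1142) (nat_lit 7) (nat_lit 12))
    (@En.i (nat_lit 13581) (nat_lit 12) (nat_lit 6))
    (@En.i (nat_lit 393) (nat_lit 8) (nat_lit 3))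
    (@En.i (nat_lit 1471) (nat_lit 0) (nat_lit 10))
    (@En.n l107 (nat_lit 395) (nat_lit 10) (nat_lit 2))
    (@En.n l180 (nat_lit 393) (nat_lit 12) (nat_lit 13))
    (@En.n l619 (nat_lit 860) (nat_lit 13) (nat_lit 14))
    (@En.n l1208 (nat_lit 864) (nat_lit 2) (nat_lit 10))
    (@En.n l4600 (nat_lit 396) (nat_lit 3) (nat_lit 7))
    (@En.n l18 (nat_lit 395) (nat_lit 15) (nat_lit 2))))
  (@Cl.mk (nat_lit 0x2000900030006000b0009000c000c00070005000400040007000a000e000d) (nat_lit 0x10400000401) (nat_lit 16) Lb.e (@T16.mk En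
    (@En.n l12796 (nat_lit 392) (nat_lit 2) (nat_lit 13))
    (@En.n l619 (nat_lit 852) (nat_lit 1) (nat_lit 14))
    (@En.n l387 (nat_lit 850) (nat_lit 2) (nat_lit 10))
    (@En.n l2114 (nat_lit 459) (nat_lit 3) (nat_lit 7))
    (@En.n l1959 (nat_lit 459) (nat_lit 4) (nat_lit 4))
    (@En.n l8283 (nat_lit 466) (nat_lit 5) (nat_lit 4))
    (@En.i (nat_lit 523) (nat_lit 6) (nat_lit 5))
    (@En.n l8262 (nat_lit 7867) (nat_lit 7) (nat_lit 7))
    (@En.n l2337 (nat_lit 395) (nat_lit 4) (nat_lit 12))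
    (@En.i (nat_lit 674) (nat_lit 10) (nat_lit 12))
    (@En.n l2019 (nat_lit 384) (nat_lit 11) (nat_lit 9))
    (@En.n l12797 (nat_lit 1143) (nat_lit 12) (nat_lit 11))
    (@En.i (nat_lit 13578) (nat_lit 12) (nat_lit 6))
    (@En.n l12499 (nat_lit 392) (nat_lit 14) (nat_lit 3))
    (@En.n l8283 (nat_lit 1480) (nat_lit 0) (nat_lit 9))
    (@En.n l107 (nat_lit 396) (nat_lit 15) (nat_lit 2))))
  (@Cl.mk (nat_lit 0x200070005000a000e000d0002000b000300060009000c0005000b000e0004) (nat_lit 0x71b0000720100) (nat_lit 16) Lb.e (@T16.mk En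
    (@En.n l7910 (nat_lit 384) (nat_lit 6) (nat_lit 4))
    (@En.i (nat_lit 710) (nat_lit 4) (nat_lit 14))
    (@En.n l2866 (nat_lit 85) (nat_lit 9) (nat_lit 11))
    (@En.i (nat_lit 7743) (nat_lit 3) (nat_lit 5))
    (@En.i (nat_lit 527) (nat_lit 6) (nat_lit 12))
    (@En.n l1643 (nat_lit 5899) (nat_lit 5) (nat_lit 9))
    (@En.i (nat_lit 13127) (nat_lit 12) (nat_lit 6))
    (@En.n l615 (nat_lit 389) (nat_lit 7) (nat_lit 3))
    (@En.n l2866 (nat_lit 1469) (nat_lit 0) (nat_lit 11))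
    (@En.n l107 (nat_lit 397) (nat_lit 9) (nat_lit 2))
    (@En.n l1643 (nat_lit 389) (nat_lit 11) (nat_lit 13))
    (@En.n l619 (nat_lit 319) (nat_lit 12) (nat_lit 14))
    (@En.n l387 (nat_lit 395) (nat_lit 13) (nat_lit 10))
    (@En.n l699 (nat_lit 400) (nat_lit 14) (nat_lit 5))
    (@En.n l2179 (nat_lit 384) (nat_lit 4) (nat_lit 7))
    (@En.n l50 (nat_lit 397) (nat_lit 15) (nat_lit 2))))
  (@Cl.mk (nat_lit 0x20005000a000d000d000a000300030006000c000b0006000b0004000e0005) (nat_lit 0x7ab00009201010) (nat_lit 16) Lb.e (@T16.mk En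
    (@En.n l5784 (nat_lit 401) (nat_lit 6) (nat_lit 5))
    (@En.n l4903 (nat_lit 389) (nat_lit 1) (nat_lit 14))
    (@En.i (nat_lit 393) (nat_lit 2) (nat_lit 4))
    (@En.n l6205 (nat_lit 97) (nat_lit 3) (nat_lit 11))
    (@En.n l6206 (nat_lit 7741) (nat_lit 4) (nat_lit 6))
    (@En.n l644 (nat_lit 526) (nat_lit 5) (nat_lit 11))
    (@En.n l615 (nat_lit 6129) (nat_lit 7) (nat_lit 12))
    (@En.n l159 (nat_lit 400) (nat_lit 7) (nat_lit 6))
    (@En.n l11 (nat_lit 400) (nat_lit 8) (nat_lit 3))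
    (@En.n l5905 (nat_lit 399) (nat_lit 9) (nat_lit 3))
    (@En.i (nat_lit 1466) (nat_lit 11) (nat_lit 10))
    (@En.n l5906 (nat_lit 399) (nat_lit 12) (nat_lit 13))
    (@En.n l1952 (nat_lit 326) (nat_lit 13) (nat_lit 13))
    (@En.n l1722 (nat_lit 438) (nat_lit 14) (nat_lit 10))
    (@En.n l6207 (nat_lit 404) (nat_lit 13) (nat_lit 5))
    (@En.n l18 (nat_lit 398) (nat_lit 15) (nat_lit 2))))
  (@Cl.mk (nat_lit 0x20005000a000d0009000e000300020006000c000b0007000b0004000e0005) (nat_lit 0x7a030009201010) (nat_lit 16) Lb.e (@T16.mk En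
    (@En.n l1262 (nat_lit 403) (nat_lit 7) (nat_lit 5))
    (@En.n l5 (nat_lit 390) (nat_lit 9) (nat_lit 14))
    (@En.n l1643 (nat_lit 391) (nat_lit 9) (nat_lit 4))
    (@En.n l613 (nat_lit 96) (nat_lit 3) (nat_lit 11))
    (@En.n l1262 (nat_lit 7415) (nat_lit 4) (nat_lit 7))
    (@En.n l217 (nat_lit 529) (nat_lit 13) (nat_lit 11))
    (@En.n l2567 (nat_lit 6130) (nat_lit 7) (nat_lit 12))
    (@En.n l2067 (nat_lit 398) (nat_lit 7) (nat_lit 6))
    (@En.n l11 (nat_lit 399) (nat_lit 8) (nat_lit 2))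
    (@En.n l14525 (nat_lit 398) (nat_lit 9) (nat_lit 3))
    (@En.n l1643 (nat_lit 13583) (nat_lit 0) (nat_lit 14))
    (@En.n l2676 (nat_lit 1662) (nat_lit 12) (nat_lit 9))
    (@En.i (nat_lit 331) (nat_lit 13) (nat_lit 13))
    (@En.n l1262 (nat_lit 673) (nat_lit 4) (nat_lit 10))
    (@En.n l2039 (nat_lit 431) (nat_lit 13) (nat_lit 5))
    (@En.n l17 (nat_lit 399) (nat_lit 15) (nat_lit 2))))
noncomputable def a25 : T16 Cl := @T16.mk Cl
  (@Cl.mk (nat_lit 0x20005000a000e000d0002000b00030006000c000b0005000b0004000e0005) (nat_lit 0x71b00009201010) (nat_lit 16) Lb.e (@T16.mk En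
    (@En.n l5784 (nat_lit 402) (nat_lit 5) (nat_lit 5))
    (@En.n l396 (nat_lit 397) (nat_lit 1) (nat_lit 14))
    (@En.i (nat_lit 395) (nat_lit 2) (nat_lit 4))
    (@En.n l2568 (nat_lit 105) (nat_lit 9) (nat_lit 11))
    (@En.i (nat_lit 7745) (nat_lit 4) (nat_lit 5))
    (@En.n l644 (nat_lit 523) (nat_lit 11) (nat_lit 11))
    (@En.n l1643 (nat_lit 6136) (nat_lit 7) (nat_lit 12))
    (@En.i (nat_lit 13583) (nat_lit 12) (nat_lit 6))
    (@En.i (nat_lit 398) (nat_lit 8) (nat_lit 3))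
    (@En.n l2568 (nat_lit 1467) (nat_lit 10) (nat_lit 11))
    (@En.n l107 (nat_lit 400) (nat_lit 10) (nat_lit 2))
    (@En.n l180 (nat_lit 398) (nat_lit 12) (nat_lit 13))
    (@En.n l619 (nat_lit 311) (nat_lit 13) (nat_lit 14))
    (@En.n l1722 (nat_lit 674) (nat_lit 2) (nat_lit 10))
    (@En.n l640 (nat_lit 430) (nat_lit 13) (nat_lit 5))
    (@En.n l18 (nat_lit 400) (nat_lit 15) (nat_lit 2))))
  (@Cl.mk (nat_lit 0x300030006000b000b000b0007000c0005000500050004000a000d000d0009) (nat_lit 0x930100005ab0) (nat_lit 16) Lb.e (@T16.mk En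
    (@En.i (nat_lit 1400) (nat_lit 0) (nat_lit 9))
    (@En.n l14284 (nat_lit 403) (nat_lit 3) (nat_lit 13))
    (@En.n l13856 (nat_lit 346) (nat_lit 5) (nat_lit 13))
    (@En.n l14285 (nat_lit 435) (nat_lit 3) (nat_lit 10))
    (@En.n l7761 (nat_lit 406) (nat_lit 4) (nat_lit 4))
    (@En.n l14286 (nat_lit 381) (nat_lit 11) (nat_lit 5))
    (@En.n l77 (nat_lit 405) (nat_lit 11) (nat_lit 5))
    (@En.n l14287 (nat_lit 392) (nat_lit 7) (nat_lit 5))
    (@En.n l14288 (nat_lit 103) (nat_lit 9) (nat_lit 12))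
    (@En.n l14285 (nat_lit 7755) (nat_lit 10) (nat_lit 7))
    (@En.n l397 (nat_lit 398) (nat_lit 5) (nat_lit 11))
    (@En.n l14289 (nat_lit 404) (nat_lit 5) (nat_lit 11))
    (@En.n l7761 (nat_lit 6071) (nat_lit 13) (nat_lit 11))
    (@En.n l159 (nat_lit 402) (nat_lit 12) (nat_lit 6))
    (@En.n l11 (nat_lit 402) (nat_lit 13) (nat_lit 3))
    (@En.n l14290 (nat_lit 403) (nat_lit 0) (nat_lit 3))))
  (@Cl.mk (nat_lit 0x2000a00030006000b000b000b0006000c0005000500050004000a000e000d) (nat_lit 0x9301000051b) (nat_lit 16) Lb.e (@T16.mk En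
    (@En.n l180 (nat_lit 401) (nat_lit 2) (nat_lit 13))
    (@En.n l619 (nat_lit 304) (nat_lit 1) (nat_lit 14))
    (@En.n l6522 (nat_lit 437) (nat_lit 2) (nat_lit 10))
    (@En.n l5734 (nat_lit 410) (nat_lit 3) (nat_lit 4))
    (@En.n l601 (nat_lit 380) (nat_lit 11) (nat_lit 5))
    (@En.n l77 (nat_lit 445) (nat_lit 5) (nat_lit 5))
    (@En.n l6064 (nat_lit 396) (nat_lit 6) (nat_lit 5))
    (@En.n l14152 (nat_lit 113) (nat_lit 8) (nat_lit 12))
    (@En.n l27874 (nat_lit 7756) (nat_lit 8) (nat_lit 6))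
    (@En.n l397 (nat_lit 400) (nat_lit 5) (nat_lit 11))
    (@En.n l5670 (nat_lit 430) (nat_lit 5) (nat_lit 11))
    (@En.n l28421 (nat_lit 6171) (nat_lit 12) (nat_lit 11))
    (@En.i (nat_lit 13582) (nat_lit 12) (nat_lit 6))
    (@En.i (nat_lit 401) (nat_lit 14) (nat_lit 3))
    (@En.n l5852 (nat_lit 1403) (nat_lit 0) (nat_lit 10))
    (@En.n l107 (nat_lit 402) (nat_lit 15) (nat_lit 2))))
  (@Cl.mk (nat_lit 0x20006000b000b000b0008000c0005000500050004000a000d0008000e0003) (nat_lit 0x30100005a030) (nat_lit 16) Lb.e (@T16.mk En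
    (@En.n l14098 (nat_lit 401) (nat_lit 15) (nat_lit 3))
    (@En.n l26965 (nat_lit 13582) (nat_lit 0) (nat_lit 14))
    (@En.n l1688 (nat_lit 1410) (nat_lit 2) (nat_lit 8))
    (@En.n l4509 (nat_lit 347) (nat_lit 5) (nat_lit 13))
    (@En.i (nat_lit 436) (nat_lit 4) (nat_lit 10))
    (@En.n l27880 (nat_lit 411) (nat_lit 5) (nat_lit 4))
    (@En.n l17059 (nat_lit 416) (nat_lit 6) (nat_lit 5))
    (@En.n l27881 (nat_lit 444) (nat_lit 7) (nat_lit 5))
    (@En.n l4976 (nat_lit 394) (nat_lit 8) (nat_lit 5))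
    (@En.n l13320 (nat_lit 99) (nat_lit 10) (nat_lit 12))
    (@En.n l77 (nat_lit 7757) (nat_lit 11) (nat_lit 8))
    (@En.n l4512 (nat_lit 399) (nat_lit 5) (nat_lit 11))
    (@En.n l27882 (nat_lit 431) (nat_lit 5) (nat_lit 11))
    (@En.n l27883 (nat_lit 6128) (nat_lit 14) (nat_lit 11))
    (@En.n l27884 (nat_lit 401) (nat_lit 13) (nat_lit 6))
    (@En.n l18 (nat_lit 403) (nat_lit 15) (nat_lit 2))))
  (@Cl.mk (nat_lit 0x200060005000a000d000d000a000300030006000b000a0006000b000e0005) (nat_lit 0x7120000820300) (nat_lit 16) Lb.e (@T16.mk En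
    (@En.n l14547 (nat_lit 401) (nat_lit 7) (nat_lit 5))
    (@En.n l14520 (nat_lit 670) (nat_lit 4) (nat_lit 14))
    (@En.n l649 (nat_lit 117) (nat_lit 2) (nat_lit 11))
    (@En.n l14548 (nat_lit 7898) (nat_lit 3) (nat_lit 6))
    (@En.i (nat_lit 524) (nat_lit 4) (nat_lit 10))
    (@En.n l6042 (nat_lit 5664) (nat_lit 13) (nat_lit 11))
    (@En.n l730 (nat_lit 430) (nat_lit 6) (nat_lit 6))
    (@En.n l731 (nat_lit 430) (nat_lit 7) (nat_lit 3))
    (@En.n l14549 (nat_lit 431) (nat_lit 8) (nat_lit 3))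
    (@En.n l639 (nat_lit 1438) (nat_lit 10) (nat_lit 10))
    (@En.n l14550 (nat_lit 431) (nat_lit 11) (nat_lit 13))
    (@En.n l14551 (nat_lit 290) (nat_lit 12) (nat_lit 13))
    (@En.n l14552 (nat_lit 432) (nat_lit 13) (nat_lit 10))
    (@En.n l1723 (nat_lit 412) (nat_lit 14) (nat_lit 5))
    (@En.n l18 (nat_lit 406) (nat_lit 5) (nat_lit 6))
    (@En.n l50 (nat_lit 404) (nat_lit 15) (nat_lit 2))))
  (@Cl.mk (nat_lit 0x2000c0008000d000500040003000a000d000d0008000300030006000e000b) (nat_lit 0x4040004000000c1) (nat_lit 16) Lb.e (@T16.mk En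
    (@En.i (nat_lit 401) (nat_lit 12) (nat_lit 11))
    (@En.n l615 (nat_lit 3250) (nat_lit 1) (nat_lit 14))
    (@En.n l159 (nat_lit 445) (nat_lit 12) (nat_lit 6))
    (@En.n l11 (nat_lit 445) (nat_lit 13) (nat_lit 3))
    (@En.n l2691 (nat_lit 444) (nat_lit 0) (nat_lit 3))
    (@En.i (nat_lit 1397) (nat_lit 0) (nat_lit 8))
    (@En.n l1572 (nat_lit 444) (nat_lit 3) (nat_lit 13))
    (@En.n l619 (nat_lit 1103) (nat_lit 8) (nat_lit 13))
    (@En.n l13303 (nat_lit 442) (nat_lit 9) (nat_lit 10))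
    (@En.i (nat_lit 409) (nat_lit 9) (nat_lit 3))
    (@En.i (nat_lit 450) (nat_lit 0) (nat_lit 4))
    (@En.n l13303 (nat_lit 474) (nat_lit 6) (nat_lit 5))
    (@En.n l7766 (nat_lit 126) (nat_lit 13) (nat_lit 13))
    (@En.n l14019 (nat_lit 7758) (nat_lit 14) (nat_lit 8))
    (@En.n l14020 (nat_lit 385) (nat_lit 10) (nat_lit 12))
    (@En.n l7 (nat_lit 405) (nat_lit 15) (nat_lit 2))))
  (@Cl.mk (nat_lit 0x300030006000a000a000d0007000c0003000600060004000a000d000d0009) (nat_lit 0x20400005120) (nat_lit 16) Lb.e (@T16.mk En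
    (@En.n l5355 (nat_lit 1406) (nat_lit 0) (nat_lit 9))
    (@En.n l14891 (nat_lit 411) (nat_lit 3) (nat_lit 13))
    (@En.n l2009 (nat_lit 219) (nat_lit 5) (nat_lit 13))
    (@En.n l15259 (nat_lit 576) (nat_lit 3) (nat_lit 10))
    (@En.n l5598 (nat_lit 385) (nat_lit 4) (nat_lit 4))
    (@En.n l15260 (nat_lit 409) (nat_lit 10) (nat_lit 6))
    (@En.n l14973 (nat_lit 381) (nat_lit 12) (nat_lit 6))
    (@En.n l13563 (nat_lit 413) (nat_lit 7) (nat_lit 3))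
    (@En.n l5598 (nat_lit 186) (nat_lit 0) (nat_lit 12))
    (@En.i (nat_lit 7893) (nat_lit 10) (nat_lit 7))
    (@En.n l50 (nat_lit 412) (nat_lit 5) (nat_lit 13))
    (@En.n l217 (nat_lit 412) (nat_lit 6) (nat_lit 10))
    (@En.i (nat_lit 6114) (nat_lit 13) (nat_lit 10))
    (@En.n l14929 (nat_lit 410) (nat_lit 12) (nat_lit 6))
    (@En.n l15261 (nat_lit 410) (nat_lit 13) (nat_lit 3))
    (@En.n l8364 (nat_lit 411) (nat_lit 0) (nat_lit 3))))
  (@Cl.mk (nat_lit 0x2000900030006000e000a0002000d0007000d000300060003000a000e000d) (nat_lit 0x800304000500) (nat_lit 16) Lb.e (@T16.mk En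
    (@En.n l180 (nat_lit 409) (nat_lit 7) (nat_lit 13))
    (@En.n l619 (nat_lit 1120) (nat_lit 8) (nat_lit 14))
    (@En.n l9507 (nat_lit 578) (nat_lit 2) (nat_lit 10))
    (@En.n l17 (nat_lit 445) (nat_lit 3) (nat_lit 3))
    (@En.n l826 (nat_lit 682) (nat_lit 4) (nat_lit 6))
    (@En.n l17 (nat_lit 492) (nat_lit 5) (nat_lit 3))
    (@En.n l5853 (nat_lit 191) (nat_lit 7) (nat_lit 13))
    (@En.n l2687 (nat_lit 7764) (nat_lit 14) (nat_lit 7))
    (@En.n l9508 (nat_lit 410) (nat_lit 9) (nat_lit 13))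
    (@En.n l7 (nat_lit 407) (nat_lit 9) (nat_lit 2))
    (@En.n l5734 (nat_lit 410) (nat_lit 11) (nat_lit 10))
    (@En.n l9509 (nat_lit 5651) (nat_lit 12) (nat_lit 14))
    (@En.i (nat_lit 13587) (nat_lit 12) (nat_lit 6))
    (@En.i (nat_lit 409) (nat_lit 3) (nat_lit 3))
    (@En.i (nat_lit 1402) (nat_lit 0) (nat_lit 9))
    (@En.n l107 (nat_lit 407) (nat_lit 15) (nat_lit 2))))
  (@Cl.mk (nat_lit 0x20006000e000a0002000d0009000d000300060003000a000d0007000e0003) (nat_lit 0x80030500040000) (nat_lit 16) Lb.e (@T16.mk En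
    (@En.n l7734 (nat_lit 409) (nat_lit 4) (nat_lit 3))
    (@En.n l7603 (nat_lit 13587) (nat_lit 0) (nat_lit 14))
    (@En.n l7735 (nat_lit 1291) (nat_lit 2) (nat_lit 7))
    (@En.n l7603 (nat_lit 1108) (nat_lit 8) (nat_lit 13))
    (@En.n l1106 (nat_lit 579) (nat_lit 4) (nat_lit 10))
    (@En.n l5200 (nat_lit 444) (nat_lit 5) (nat_lit 3))
    (@En.n l7736 (nat_lit 683) (nat_lit 6) (nat_lit 6))
    (@En.n l28 (nat_lit 493) (nat_lit 7) (nat_lit 3))
    (@En.n l7737 (nat_lit 188) (nat_lit 0) (nat_lit 13))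
    (@En.n l77 (nat_lit 7765) (nat_lit 10) (nat_lit 9))
    (@En.n l1412 (nat_lit 411) (nat_lit 11) (nat_lit 13))
    (@En.n l67 (nat_lit 408) (nat_lit 11) (nat_lit 2))
    (@En.n l7606 (nat_lit 411) (nat_lit 13) (nat_lit 10))
    (@En.n l7386 (nat_lit 6366) (nat_lit 1) (nat_lit 14))
    (@En.n l7738 (nat_lit 409) (nat_lit 2) (nat_lit 6))
    (@En.n l18 (nat_lit 408) (nat_lit 15) (nat_lit 2))))
  (@Cl.mk (nat_lit 0x2000d0008000d000300060003000a000d000d0008000300030006000e000a) (nat_lit 0x3030005b1000081) (nat_lit 16) Lb.e (@T16.mk En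
    (@En.n l7761 (nat_lit 406) (nat_lit 12) (nat_lit 10))
    (@En.n l615 (nat_lit 5650) (nat_lit 1) (nat_lit 14))
    (@En.n l159 (nat_lit 407) (nat_lit 12) (nat_lit 6))
    (@En.n l11 (nat_lit 407) (nat_lit 13) (nat_lit 3))
    (@En.n l3894 (nat_lit 408) (nat_lit 0) (nat_lit 3))
    (@En.i (nat_lit 1399) (nat_lit 0) (nat_lit 8))
    (@En.n l7762 (nat_lit 408) (nat_lit 3) (nat_lit 13))
    (@En.n l619 (nat_lit 1110) (nat_lit 8) (nat_lit 13))
    (@En.n l7763 (nat_lit 572) (nat_lit 9) (nat_lit 10))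
    (@En.n l17 (nat_lit 405) (nat_lit 9) (nat_lit 3))
    (@En.n l7764 (nat_lit 453) (nat_lit 12) (nat_lit 6))
    (@En.n l7765 (nat_lit 489) (nat_lit 11) (nat_lit 3))
    (@En.n l7766 (nat_lit 189) (nat_lit 0) (nat_lit 13))
    (@En.n l7767 (nat_lit 7763) (nat_lit 14) (nat_lit 8))
    (@En.n l7768 (nat_lit 406) (nat_lit 10) (nat_lit 13))
    (@En.n l7 (nat_lit 409) (nat_lit 15) (nat_lit 2))))
  (@Cl.mk (nat_lit 0x2000a00030006000a000a000d0006000c0003000600060004000a000e000d) (nat_lit 0x8020300006a2) (nat_lit 16) Lb.e (@T16.mk En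
    (@En.n l6131 (nat_lit 406) (nat_lit 2) (nat_lit 13))
    (@En.n l20052 (nat_lit 297) (nat_lit 1) (nat_lit 14))
    (@En.n l18 (nat_lit 573) (nat_lit 2) (nat_lit 10))
    (@En.n l20053 (nat_lit 384) (nat_lit 3) (nat_lit 4))
    (@En.n l18476 (nat_lit 407) (nat_lit 4) (nat_lit 6))
    (@En.n l2376 (nat_lit 380) (nat_lit 12) (nat_lit 6))
    (@En.n l7019 (nat_lit 487) (nat_lit 6) (nat_lit 3))
    (@En.n l3348 (nat_lit 190) (nat_lit 8) (nat_lit 12))
    (@En.i (nat_lit 7894) (nat_lit 8) (nat_lit 6))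
    (@En.n l12529 (nat_lit 414) (nat_lit 5) (nat_lit 13))
    (@En.n l6147 (nat_lit 414) (nat_lit 6) (nat_lit 10))
    (@En.n l6131 (nat_lit 6115) (nat_lit 12) (nat_lit 10))
    (@En.i (nat_lit 13586) (nat_lit 12) (nat_lit 6))
    (@En.n l14125 (nat_lit 406) (nat_lit 14) (nat_lit 3))
    (@En.i (nat_lit 1404) (nat_lit 0) (nat_lit 10))
    (@En.n l107 (nat_lit 410) (nat_lit 15) (nat_lit 2))))
  (@Cl.mk (nat_lit 0x20006000a000a000d0008000c0003000600060004000a000d0008000e0003) (nat_lit 0x802040000610c0) (nat_lit 16) Lb.e (@T16.mk En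
    (@En.n l14811 (nat_lit 406) (nat_lit 15) (nat_lit 3))
    (@En.n l3082 (nat_lit 13586) (nat_lit 0) (nat_lit 14))
    (@En.n l8397 (nat_lit 1294) (nat_lit 2) (nat_lit 8))
    (@En.n l636 (nat_lit 212) (nat_lit 5) (nat_lit 13))
    (@En.n l13406 (nat_lit 574) (nat_lit 4) (nat_lit 10))
    (@En.i (nat_lit 388) (nat_lit 5) (nat_lit 4))
    (@En.n l1863 (nat_lit 408) (nat_lit 6) (nat_lit 6))
    (@En.n l197 (nat_lit 416) (nat_lit 7) (nat_lit 6))
    (@En.n l9300 (nat_lit 488) (nat_lit 8) (nat_lit 3))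
    (@En.i (nat_lit 184) (nat_lit 0) (nat_lit 12))
    (@En.n l13407 (nat_lit 7892) (nat_lit 11) (nat_lit 8))
    (@En.n l634 (nat_lit 415) (nat_lit 5) (nat_lit 13))
    (@En.n l635 (nat_lit 415) (nat_lit 6) (nat_lit 10))
    (@En.n l639 (nat_lit 6116) (nat_lit 14) (nat_lit 10))
    (@En.n l14810 (nat_lit 406) (nat_lit 13) (nat_lit 6))
    (@En.n l18 (nat_lit 411) (nat_lit 15) (nat_lit 2))))
  (@Cl.mk (nat_lit 0x20005000a000d000d000a000300030006000a000d0006000b0003000e0006) (nat_lit 0x71200008103010) (nat_lit 16) Lb.e (@T16.mk En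
    (@En.i (nat_lit 406) (nat_lit 6) (nat_lit 6))
    (@En.n l396 (nat_lit 404) (nat_lit 1) (nat_lit 14))
    (@En.i (nat_lit 486) (nat_lit 2) (nat_lit 3))
    (@En.n l649 (nat_lit 187) (nat_lit 3) (nat_lit 11))
    (@En.i (nat_lit 7895) (nat_lit 4) (nat_lit 6))
    (@En.n l639 (nat_lit 272) (nat_lit 5) (nat_lit 13))
    (@En.i (nat_lit 5663) (nat_lit 13) (nat_lit 10))
    (@En.n l730 (nat_lit 414) (nat_lit 7) (nat_lit 6))
    (@En.n l731 (nat_lit 414) (nat_lit 8) (nat_lit 3))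
    (@En.n l1106 (nat_lit 415) (nat_lit 9) (nat_lit 3))
    (@En.n l639 (nat_lit 1443) (nat_lit 11) (nat_lit 10))
    (@En.n l637 (nat_lit 415) (nat_lit 12) (nat_lit 13))
    (@En.n l2009 (nat_lit 218) (nat_lit 13) (nat_lit 13))
    (@En.n l889 (nat_lit 575) (nat_lit 14) (nat_lit 10))
    (@En.i (nat_lit 389) (nat_lit 13) (nat_lit 5))
    (@En.n l18 (nat_lit 412) (nat_lit 15) (nat_lit 2))))
  (@Cl.mk (nat_lit 0x300030006000a000a000d000b00080003000600060005000a000d000d0008) (nat_lit 0x240000051b0) (nat_lit 16) Lb.e (@T16.mk En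
    (@En.n l17276 (nat_lit 494) (nat_lit 0) (nat_lit 8))
    (@En.n l217 (nat_lit 488) (nat_lit 3) (nat_lit 13))
    (@En.n l9697 (nat_lit 302) (nat_lit 5) (nat_lit 13))
    (@En.n l3548 (nat_lit 577) (nat_lit 3) (nat_lit 10))
    (@En.n l7381 (nat_lit 480) (nat_lit 4) (nat_lit 5))
    (@En.n l3 (nat_lit 489) (nat_lit 10) (nat_lit 6))
    (@En.n l9697 (nat_lit 442) (nat_lit 12) (nat_lit 6))
    (@En.n l17277 (nat_lit 406) (nat_lit 7) (nat_lit 3))
    (@En.n l17278 (nat_lit 3199) (nat_lit 0) (nat_lit 8))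
    (@En.n l17279 (nat_lit 401) (nat_lit 10) (nat_lit 11))
    (@En.n l17280 (nat_lit 486) (nat_lit 5) (nat_lit 13))
    (@En.n l17281 (nat_lit 486) (nat_lit 6) (nat_lit 10))
    (@En.n l7381 (nat_lit 6097) (nat_lit 13) (nat_lit 10))
    (@En.n l17282 (nat_lit 487) (nat_lit 12) (nat_lit 6))
    (@En.n l17283 (nat_lit 487) (nat_lit 13) (nat_lit 3))
    (@En.n l50 (nat_lit 488) (nat_lit 0) (nat_lit 3))))
  (@Cl.mk (nat_lit 0x20005000a000e000d0002000b00030006000a000d0005000b0003000e0006) (nat_lit 0x6a200008103000) (nat_lit 16) Lb.e (@T16.mk En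
    (@En.n l10916 (nat_lit 410) (nat_lit 5) (nat_lit 6))
    (@En.n l5 (nat_lit 430) (nat_lit 1) (nat_lit 14))
    (@En.i (nat_lit 491) (nat_lit 2) (nat_lit 3))
    (@En.i (nat_lit 221) (nat_lit 9) (nat_lit 11))
    (@En.i (nat_lit 7896) (nat_lit 4) (nat_lit 5))
    (@En.i (nat_lit 271) (nat_lit 5) (nat_lit 13))
    (@En.n l1643 (nat_lit 5665) (nat_lit 12) (nat_lit 10))
    (@En.i (nat_lit 13589) (nat_lit 12) (nat_lit 6))
    (@En.n l615 (nat_lit 412) (nat_lit 8) (nat_lit 3))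
    (@En.i (nat_lit 1441) (nat_lit 0) (nat_lit 11))
    (@En.n l107 (nat_lit 414) (nat_lit 10) (nat_lit 2))
    (@En.n l1643 (nat_lit 412) (nat_lit 12) (nat_lit 13))
    (@En.n l619 (nat_lit 295) (nat_lit 13) (nat_lit 14))
    (@En.n l3178 (nat_lit 892) (nat_lit 2) (nat_lit 10))
    (@En.i (nat_lit 397) (nat_lit 13) (nat_lit 5))
    (@En.n l17 (nat_lit 414) (nat_lit 15) (nat_lit 2))))
  (@Cl.mk (nat_lit 0x20005000a000d0009000e000300020006000a000d0007000b0003000e0006) (nat_lit 0x710c0008103000) (nat_lit 16) Lb.e (@T16.mk En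
    (@En.n l2030 (nat_lit 411) (nat_lit 7) (nat_lit 6))
    (@En.n l2034 (nat_lit 431) (nat_lit 1) (nat_lit 14))
    (@En.i (nat_lit 490) (nat_lit 2) (nat_lit 3))
    (@En.n l2031 (nat_lit 185) (nat_lit 3) (nat_lit 11))
    (@En.n l9025 (nat_lit 7897) (nat_lit 4) (nat_lit 7))
    (@En.i (nat_lit 273) (nat_lit 5) (nat_lit 13))
    (@En.n l2031 (nat_lit 6117) (nat_lit 14) (nat_lit 10))
    (@En.n l2037 (nat_lit 412) (nat_lit 7) (nat_lit 6))
    (@En.n l107 (nat_lit 415) (nat_lit 8) (nat_lit 2))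
    (@En.n l3596 (nat_lit 412) (nat_lit 9) (nat_lit 3))
    (@En.i (nat_lit 13589) (nat_lit 0) (nat_lit 14))
    (@En.n l5891 (nat_lit 1453) (nat_lit 2) (nat_lit 9))
    (@En.i (nat_lit 213) (nat_lit 13) (nat_lit 13))
    (@En.n l5381 (nat_lit 893) (nat_lit 4) (nat_lit 10))
    (@En.n l2568 (nat_lit 390) (nat_lit 5) (nat_lit 5))
    (@En.n l17 (nat_lit 415) (nat_lit 15) (nat_lit 2))))
noncomputable def a26 : T16 Cl := @T16.mk Cl
  (@Cl.mk (nat_lit 0x20006000a000e000b00020009000d000600050003000a000d0007000e0003) (nat_lit 0x91003000490c0) (nat_lit 16) Lb.e (@T16.mk En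
    (@En.n l1975 (nat_lit 381) (nat_lit 5) (nat_lit 3))
    (@En.n l2004 (nat_lit 13584) (nat_lit 0) (nat_lit 14))
    (@En.i (nat_lit 417) (nat_lit 2) (nat_lit 7))
    (@En.n l678 (nat_lit 349) (nat_lit 9) (nat_lit 13))
    (@En.n l5491 (nat_lit 627) (nat_lit 4) (nat_lit 10))
    (@En.n l1001 (nat_lit 386) (nat_lit 5) (nat_lit 3))
    (@En.n l2004 (nat_lit 451) (nat_lit 6) (nat_lit 5))
    (@En.n l9300 (nat_lit 458) (nat_lit 7) (nat_lit 6))
    (@En.i (nat_lit 111) (nat_lit 9) (nat_lit 13))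
    (@En.n l678 (nat_lit 7849) (nat_lit 10) (nat_lit 9))
    (@En.n l3 (nat_lit 416) (nat_lit 10) (nat_lit 2))
    (@En.n l2312 (nat_lit 403) (nat_lit 12) (nat_lit 11))
    (@En.n l12110 (nat_lit 408) (nat_lit 13) (nat_lit 14))
    (@En.n l1001 (nat_lit 6063) (nat_lit 2) (nat_lit 10))
    (@En.n l14306 (nat_lit 381) (nat_lit 3) (nat_lit 6))
    (@En.n l18 (nat_lit 416) (nat_lit 15) (nat_lit 2))))
  (@Cl.mk (nat_lit 0x200050009000e000a000200090008000d000700060003000b0007000e0008) (nat_lit 0x140004000) (nat_lit 16) Lb.e (@T16.mk En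
    (@En.n l6095 (nat_lit 1416) (nat_lit 5) (nat_lit 8))
    (@En.n l972 (nat_lit 418) (nat_lit 7) (nat_lit 14))
    (@En.n l6096 (nat_lit 2003) (nat_lit 7) (nat_lit 7))
    (@En.n l6097 (nat_lit 1701) (nat_lit 3) (nat_lit 11))
    (@En.n l1001 (nat_lit 423) (nat_lit 4) (nat_lit 3))
    (@En.n l5615 (nat_lit 1240) (nat_lit 5) (nat_lit 6))
    (@En.n l6098 (nat_lit 948) (nat_lit 6) (nat_lit 7))
    (@En.n l2568 (nat_lit 1083) (nat_lit 8) (nat_lit 13))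
    (@En.n l6099 (nat_lit 381) (nat_lit 14) (nat_lit 8))
    (@En.n l678 (nat_lit 9604) (nat_lit 10) (nat_lit 9))
    (@En.n l3 (nat_lit 417) (nat_lit 10) (nat_lit 2))
    (@En.n l2871 (nat_lit 1410) (nat_lit 12) (nat_lit 10))
    (@En.n l6100 (nat_lit 1291) (nat_lit 13) (nat_lit 14))
    (@En.n l1001 (nat_lit 6480) (nat_lit 2) (nat_lit 9))
    (@En.n l5622 (nat_lit 1424) (nat_lit 3) (nat_lit 5))
    (@En.n l18 (nat_lit 417) (nat_lit 15) (nat_lit 2))))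
  (@Cl.mk (nat_lit 0x200060009000d000700060003000b000e00070002000a00050009000e000a) (nat_lit 0x120004c0000000) (nat_lit 16) Lb.e (@T16.mk En
    (@En.n l2213 (nat_lit 421) (nat_lit 11) (nat_lit 10))
    (@En.n l5796 (nat_lit 1289) (nat_lit 12) (nat_lit 14))
    (@En.n l2042 (nat_lit 1917) (nat_lit 2) (nat_lit 9))
    (@En.n l1724 (nat_lit 417) (nat_lit 14) (nat_lit 5))
    (@En.n l2908 (nat_lit 419) (nat_lit 4) (nat_lit 10))
    (@En.n l7 (nat_lit 418) (nat_lit 5) (nat_lit 2))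
    (@En.n l6193 (nat_lit 419) (nat_lit 6) (nat_lit 7))
    (@En.n l2571 (nat_lit 4871) (nat_lit 8) (nat_lit 14))
    (@En.n l14599 (nat_lit 1702) (nat_lit 9) (nat_lit 11))
    (@En.n l609 (nat_lit 420) (nat_lit 9) (nat_lit 3))
    (@En.n l248 (nat_lit 1236) (nat_lit 4) (nat_lit 6))
    (@En.n l11954 (nat_lit 425) (nat_lit 12) (nat_lit 7))
    (@En.n l2041 (nat_lit 1088) (nat_lit 13) (nat_lit 13))
    (@En.n l766 (nat_lit 416) (nat_lit 9) (nat_lit 9))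
    (@En.n l2571 (nat_lit 5426) (nat_lit 8) (nat_lit 6))
    (@En.n l3 (nat_lit 418) (nat_lit 15) (nat_lit 2))))
  (@Cl.mk (nat_lit 0x2000600090009000d000800070003000c00070007000a00040008000e0009) (nat_lit 0x12300040080000) (nat_lit 16) Lb.e (@T16.mk En
    (@En.n l7 (nat_lit 1411) (nat_lit 13) (nat_lit 9))
    (@En.n l5841 (nat_lit 1290) (nat_lit 1) (nat_lit 14))
    (@En.n l15955 (nat_lit 1918) (nat_lit 2) (nat_lit 8))
    (@En.n l10262 (nat_lit 1416) (nat_lit 3) (nat_lit 4))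
    (@En.n l7155 (nat_lit 1726) (nat_lit 4) (nat_lit 10))
    (@En.n l6170 (nat_lit 1726) (nat_lit 5) (nat_lit 7))
    (@En.n l10262 (nat_lit 2604) (nat_lit 6) (nat_lit 7))
    (@En.n l14452 (nat_lit 1694) (nat_lit 8) (nat_lit 12))
    (@En.n l763 (nat_lit 422) (nat_lit 8) (nat_lit 3))
    (@En.i (nat_lit 1229) (nat_lit 0) (nat_lit 7))
    (@En.n l14600 (nat_lit 428) (nat_lit 11) (nat_lit 8))
    (@En.i (nat_lit 1089) (nat_lit 12) (nat_lit 13))
    (@En.n l14218 (nat_lit 418) (nat_lit 13) (nat_lit 9))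
    (@En.n l12322 (nat_lit 417) (nat_lit 9) (nat_lit 9))
    (@En.n l14601 (nat_lit 5427) (nat_lit 13) (nat_lit 6))
    (@En.n l50 (nat_lit 419) (nat_lit 15) (nat_lit 2))))
  (@Cl.mk (nat_lit 0x200060009000d000500080003000b000e00070002000a00050008000e000b) (nat_lit 0x12000500000000) (nat_lit 16) Lb.e (@T16.mk En
    (@En.n l1998 (nat_lit 424) (nat_lit 11) (nat_lit 11))
    (@En.n l601 (nat_lit 1286) (nat_lit 12) (nat_lit 14))
    (@En.n l2036 (nat_lit 4954) (nat_lit 2) (nat_lit 8))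
    (@En.n l5589 (nat_lit 423) (nat_lit 14) (nat_lit 5))
    (@En.n l1758 (nat_lit 422) (nat_lit 4) (nat_lit 10))
    (@En.n l3 (nat_lit 420) (nat_lit 5) (nat_lit 2))
    (@En.n l4871 (nat_lit 422) (nat_lit 6) (nat_lit 7))
    (@En.i (nat_lit 4987) (nat_lit 8) (nat_lit 14))
    (@En.n l1722 (nat_lit 425) (nat_lit 9) (nat_lit 11))
    (@En.n l1996 (nat_lit 418) (nat_lit 9) (nat_lit 3))
    (@En.i (nat_lit 12877) (nat_lit 10) (nat_lit 8))
    (@En.n l2869 (nat_lit 919) (nat_lit 5) (nat_lit 5))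
    (@En.n l2036 (nat_lit 363) (nat_lit 13) (nat_lit 13))
    (@En.n l2031 (nat_lit 386) (nat_lit 9) (nat_lit 9))
    (@En.i (nat_lit 6641) (nat_lit 8) (nat_lit 6))
    (@En.n l50 (nat_lit 420) (nat_lit 15) (nat_lit 2))))
  (@Cl.mk (nat_lit 0x2000b0005000a000a000a00050008000c0006000600060004000b000e0008) (nat_lit 0x800120000500) (nat_lit 16) Lb.e (@T16.mk En
    (@En.n l19868 (nat_lit 1411) (nat_lit 2) (nat_lit 8))
    (@En.i (nat_lit 4980) (nat_lit 4) (nat_lit 14))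
    (@En.n l5643 (nat_lit 1576) (nat_lit 2) (nat_lit 11))
    (@En.n l19869 (nat_lit 1292) (nat_lit 3) (nat_lit 4))
    (@En.n l1778 (nat_lit 418) (nat_lit 10) (nat_lit 6))
    (@En.n l13234 (nat_lit 1286) (nat_lit 5) (nat_lit 6))
    (@En.n l1643 (nat_lit 429) (nat_lit 6) (nat_lit 6))
    (@En.n l7419 (nat_lit 312) (nat_lit 8) (nat_lit 12))
    (@En.n l5643 (nat_lit 403) (nat_lit 10) (nat_lit 8))
    (@En.n l5912 (nat_lit 6841) (nat_lit 9) (nat_lit 5))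
    (@En.n l742 (nat_lit 1665) (nat_lit 6) (nat_lit 10))
    (@En.n l19870 (nat_lit 1455) (nat_lit 6) (nat_lit 10))
    (@En.n l19871 (nat_lit 5962) (nat_lit 13) (nat_lit 10))
    (@En.n l1347 (nat_lit 1410) (nat_lit 14) (nat_lit 5))
    (@En.n l12758 (nat_lit 1411) (nat_lit 0) (nat_lit 11))
    (@En.n l107 (nat_lit 421) (nat_lit 15) (nat_lit 2))))
  (@Cl.mk (nat_lit 0x2000600090009000d000600090003000c00070007000a00040007000e000a) (nat_lit 0x2300050080000) (nat_lit 16) Lb.e (@T16.mk En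
    (@En.i (nat_lit 426) (nat_lit 13) (nat_lit 10))
    (@En.n l601 (nat_lit 1288) (nat_lit 1) (nat_lit 14))
    (@En.n l1897 (nat_lit 4953) (nat_lit 2) (nat_lit 7))
    (@En.n l1898 (nat_lit 956) (nat_lit 3) (nat_lit 4))
    (@En.n l1899 (nat_lit 1504) (nat_lit 4) (nat_lit 10))
    (@En.n l1900 (nat_lit 1504) (nat_lit 5) (nat_lit 7))
    (@En.n l5320 (nat_lit 2606) (nat_lit 6) (nat_lit 7))
    (@En.i (nat_lit 428) (nat_lit 8) (nat_lit 12))
    (@En.n l2364 (nat_lit 419) (nat_lit 8) (nat_lit 3))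
    (@En.i (nat_lit 12878) (nat_lit 9) (nat_lit 9))
    (@En.i (nat_lit 977) (nat_lit 11) (nat_lit 6))
    (@En.i (nat_lit 366) (nat_lit 12) (nat_lit 13))
    (@En.n l1904 (nat_lit 420) (nat_lit 13) (nat_lit 9))
    (@En.n l226 (nat_lit 423) (nat_lit 9) (nat_lit 9))
    (@En.i (nat_lit 6639) (nat_lit 13) (nat_lit 6))
    (@En.n l50 (nat_lit 422) (nat_lit 15) (nat_lit 2))))
  (@Cl.mk (nat_lit 0x200050008000e000b000200090008000d000500080003000b0007000e0008) (nat_lit 0x7140006010) (nat_lit 16) Lb.e (@T16.mk En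
    (@En.n l2589 (nat_lit 956) (nat_lit 5) (nat_lit 8))
    (@En.n l5591 (nat_lit 420) (nat_lit 7) (nat_lit 14))
    (@En.n l1643 (nat_lit 2012) (nat_lit 7) (nat_lit 7))
    (@En.n l5593 (nat_lit 948) (nat_lit 3) (nat_lit 11))
    (@En.n l1643 (nat_lit 417) (nat_lit 4) (nat_lit 3))
    (@En.i (nat_lit 12876) (nat_lit 10) (nat_lit 8))
    (@En.n l14820 (nat_lit 976) (nat_lit 6) (nat_lit 5))
    (@En.i (nat_lit 362) (nat_lit 8) (nat_lit 13))
    (@En.n l2579 (nat_lit 383) (nat_lit 14) (nat_lit 8))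
    (@En.n l1997 (nat_lit 9598) (nat_lit 10) (nat_lit 9))
    (@En.n l107 (nat_lit 423) (nat_lit 10) (nat_lit 2))
    (@En.n l1643 (nat_lit 427) (nat_lit 12) (nat_lit 11))
    (@En.n l774 (nat_lit 1287) (nat_lit 13) (nat_lit 14))
    (@En.i (nat_lit 4957) (nat_lit 2) (nat_lit 8))
    (@En.n l5590 (nat_lit 957) (nat_lit 3) (nat_lit 5))
    (@En.n l17 (nat_lit 423) (nat_lit 15) (nat_lit 2))))
  (@Cl.mk (nat_lit 0x2000b00050008000b000b00050008000c0005000500080004000b000e0008) (nat_lit 0x900120010500) (nat_lit 16) Lb.e (@T16.mk En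
    (@En.n l20793 (nat_lit 426) (nat_lit 2) (nat_lit 8))
    (@En.n l226 (nat_lit 4984) (nat_lit 4) (nat_lit 14))
    (@En.n l5881 (nat_lit 429) (nat_lit 2) (nat_lit 11))
    (@En.n l227 (nat_lit 421) (nat_lit 3) (nat_lit 4))
    (@En.n l2876 (nat_lit 420) (nat_lit 10) (nat_lit 8))
    (@En.n l5839 (nat_lit 420) (nat_lit 11) (nat_lit 5))
    (@En.n l17942 (nat_lit 1302) (nat_lit 6) (nat_lit 5))
    (@En.n l2866 (nat_lit 364) (nat_lit 8) (nat_lit 12))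
    (@En.i (nat_lit 388) (nat_lit 10) (nat_lit 8))
    (@En.n l1643 (nat_lit 6645) (nat_lit 9) (nat_lit 5))
    (@En.n l1867 (nat_lit 1664) (nat_lit 5) (nat_lit 11))
    (@En.n l226 (nat_lit 1665) (nat_lit 7) (nat_lit 11))
    (@En.n l639 (nat_lit 4952) (nat_lit 13) (nat_lit 8))
    (@En.n l699 (nat_lit 427) (nat_lit 14) (nat_lit 5))
    (@En.n l2030 (nat_lit 426) (nat_lit 0) (nat_lit 11))
    (@En.n l50 (nat_lit 424) (nat_lit 15) (nat_lit 2))))
  (@Cl.mk (nat_lit 0x20007000a000700050008000b000e000600020009000500090008000e000b) (nat_lit 0x4000000109) (nat_lit 16) Lb.e (@T16.mk En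
    (@En.n l1708 (nat_lit 429) (nat_lit 10) (nat_lit 11))
    (@En.n l1527 (nat_lit 1570) (nat_lit 11) (nat_lit 14))
    (@En.n l890 (nat_lit 420) (nat_lit 2) (nat_lit 8))
    (@En.n l2682 (nat_lit 1707) (nat_lit 3) (nat_lit 9))
    (@En.n l1409 (nat_lit 948) (nat_lit 14) (nat_lit 5))
    (@En.n l3214 (nat_lit 428) (nat_lit 5) (nat_lit 9))
    (@En.n l3 (nat_lit 425) (nat_lit 6) (nat_lit 2))
    (@En.n l16337 (nat_lit 428) (nat_lit 7) (nat_lit 6))
    (@En.i (nat_lit 5231) (nat_lit 9) (nat_lit 14))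
    (@En.n l3486 (nat_lit 1625) (nat_lit 2) (nat_lit 11))
    (@En.n l699 (nat_lit 12879) (nat_lit 10) (nat_lit 8))
    (@En.n l3486 (nat_lit 915) (nat_lit 4) (nat_lit 5))
    (@En.n l2682 (nat_lit 7627) (nat_lit 5) (nat_lit 7))
    (@En.n l3486 (nat_lit 458) (nat_lit 8) (nat_lit 10))
    (@En.n l3213 (nat_lit 6560) (nat_lit 7) (nat_lit 7))
    (@En.n l18 (nat_lit 425) (nat_lit 15) (nat_lit 2))))
  (@Cl.mk (nat_lit 0x40007000a000a000500080008000c0006000600090004000c00080008000b) (nat_lit 0x80002300108609) (nat_lit 16) Lb.e (@T16.mk En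
    (@En.n l1899 (nat_lit 1498) (nat_lit 7) (nat_lit 11))
    (@En.n l1900 (nat_lit 1498) (nat_lit 8) (nat_lit 8))
    (@En.n l26025 (nat_lit 2612) (nat_lit 14) (nat_lit 8))
    (@En.n l16343 (nat_lit 1494) (nat_lit 3) (nat_lit 12))
    (@En.n l5834 (nat_lit 1411) (nat_lit 4) (nat_lit 4))
    (@En.n l7 (nat_lit 422) (nat_lit 9) (nat_lit 9))
    (@En.n l644 (nat_lit 422) (nat_lit 10) (nat_lit 6))
    (@En.n l26026 (nat_lit 1300) (nat_lit 7) (nat_lit 6))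
    (@En.i (nat_lit 367) (nat_lit 7) (nat_lit 12))
    (@En.n l634 (nat_lit 424) (nat_lit 8) (nat_lit 8))
    (@En.n l17942 (nat_lit 427) (nat_lit 10) (nat_lit 8))
    (@En.i (nat_lit 6643) (nat_lit 6) (nat_lit 5))
    (@En.n l5837 (nat_lit 1500) (nat_lit 6) (nat_lit 10))
    (@En.n l5838 (nat_lit 1422) (nat_lit 8) (nat_lit 10))
    (@En.n l26027 (nat_lit 4946) (nat_lit 11) (nat_lit 7))
    (@En.n l26028 (nat_lit 955) (nat_lit 15) (nat_lit 4))))
  (@Cl.mk (nat_lit 0x200050008000b000b00080007000c0005000500080004000b0008000e0009) (nat_lit 0x9060200105610) (nat_lit 16) Lb.e (@T16.mk En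
    (@En.n l6220 (nat_lit 955) (nat_lit 1) (nat_lit 9))
    (@En.n l396 (nat_lit 424) (nat_lit 1) (nat_lit 14))
    (@En.i (nat_lit 1669) (nat_lit 2) (nat_lit 8))
    (@En.n l1863 (nat_lit 949) (nat_lit 3) (nat_lit 11))
    (@En.n l2871 (nat_lit 1410) (nat_lit 4) (nat_lit 4))
    (@En.n l730 (nat_lit 423) (nat_lit 5) (nat_lit 8))
    (@En.n l731 (nat_lit 423) (nat_lit 6) (nat_lit 5))
    (@En.n l12479 (nat_lit 985) (nat_lit 7) (nat_lit 5))
    (@En.i (nat_lit 361) (nat_lit 9) (nat_lit 12))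
    (@En.n l644 (nat_lit 385) (nat_lit 9) (nat_lit 7))
    (@En.n l8368 (nat_lit 9601) (nat_lit 11) (nat_lit 8))
    (@En.n l14639 (nat_lit 1663) (nat_lit 12) (nat_lit 11))
    (@En.n l2148 (nat_lit 1662) (nat_lit 7) (nat_lit 11))
    (@En.n l639 (nat_lit 4768) (nat_lit 14) (nat_lit 8))
    (@En.n l19846 (nat_lit 958) (nat_lit 13) (nat_lit 5))
    (@En.n l18 (nat_lit 427) (nat_lit 15) (nat_lit 2))))
  (@Cl.mk (nat_lit 0x20007000a000a000800060009000c000600060009000400080007000e000a) (nat_lit 0x1600400700008) (nat_lit 16) Lb.e (@T16.mk En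
    (@En.n l16343 (nat_lit 1494) (nat_lit 12) (nat_lit 10))
    (@En.n l16344 (nat_lit 1569) (nat_lit 1) (nat_lit 14))
    (@En.n l16345 (nat_lit 422) (nat_lit 2) (nat_lit 7))
    (@En.n l6590 (nat_lit 1706) (nat_lit 3) (nat_lit 8))
    (@En.n l6591 (nat_lit 951) (nat_lit 4) (nat_lit 4))
    (@En.n l1767 (nat_lit 1495) (nat_lit 5) (nat_lit 9))
    (@En.n l6592 (nat_lit 1495) (nat_lit 6) (nat_lit 6))
    (@En.n l6593 (nat_lit 2889) (nat_lit 7) (nat_lit 6))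
    (@En.n l16346 (nat_lit 1624) (nat_lit 9) (nat_lit 12))
    (@En.n l1902 (nat_lit 12880) (nat_lit 9) (nat_lit 9))
    (@En.n l16346 (nat_lit 373) (nat_lit 11) (nat_lit 6))
    (@En.n l1767 (nat_lit 5470) (nat_lit 12) (nat_lit 8))
    (@En.n l6595 (nat_lit 425) (nat_lit 13) (nat_lit 10))
    (@En.n l16347 (nat_lit 948) (nat_lit 8) (nat_lit 10))
    (@En.i (nat_lit 6559) (nat_lit 13) (nat_lit 7))
    (@En.n l50 (nat_lit 428) (nat_lit 15) (nat_lit 2))))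
  (@Cl.mk (nat_lit 0x2000a0005000a0008000b000b000600090006000500050008000b000e0007) (nat_lit 0x3180010001400) (nat_lit 16) Lb.e (@T16.mk En
    (@En.i (nat_lit 1494) (nat_lit 2) (nat_lit 7))
    (@En.i (nat_lit 5230) (nat_lit 4) (nat_lit 14))
    (@En.n l8283 (nat_lit 1623) (nat_lit 2) (nat_lit 11))
    (@En.n l2114 (nat_lit 425) (nat_lit 10) (nat_lit 8))
    (@En.n l1959 (nat_lit 425) (nat_lit 11) (nat_lit 5))
    (@En.n l8283 (nat_lit 917) (nat_lit 5) (nat_lit 5))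
    (@En.n l2568 (nat_lit 7626) (nat_lit 6) (nat_lit 6))
    (@En.n l8283 (nat_lit 394) (nat_lit 9) (nat_lit 9))
    (@En.n l10925 (nat_lit 6557) (nat_lit 8) (nat_lit 6))
    (@En.n l2337 (nat_lit 1503) (nat_lit 5) (nat_lit 11))
    (@En.i (nat_lit 1676) (nat_lit 11) (nat_lit 11))
    (@En.n l26406 (nat_lit 424) (nat_lit 12) (nat_lit 8))
    (@En.n l26407 (nat_lit 1705) (nat_lit 13) (nat_lit 10))
    (@En.n l12573 (nat_lit 949) (nat_lit 14) (nat_lit 5))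
    (@En.n l117 (nat_lit 1494) (nat_lit 0) (nat_lit 10))
    (@En.n l3 (nat_lit 429) (nat_lit 15) (nat_lit 2))))
  (@Cl.mk (nat_lit 0x200060005000a000e000d0002000b00030006000b000a0005000b000e0005) (nat_lit 0x7a200008203c0) (nat_lit 16) Lb.e (@T16.mk En
    (@En.n l8357 (nat_lit 402) (nat_lit 6) (nat_lit 5))
    (@En.n l1063 (nat_lit 672) (nat_lit 4) (nat_lit 14))
    (@En.n l14413 (nat_lit 118) (nat_lit 9) (nat_lit 11))
    (@En.n l26912 (nat_lit 7899) (nat_lit 3) (nat_lit 5))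
    (@En.i (nat_lit 525) (nat_lit 4) (nat_lit 10))
    (@En.n l14414 (nat_lit 6170) (nat_lit 12) (nat_lit 11))
    (@En.i (nat_lit 13588) (nat_lit 12) (nat_lit 6))
    (@En.n l615 (nat_lit 404) (nat_lit 7) (nat_lit 3))
    (@En.n l14413 (nat_lit 1439) (nat_lit 0) (nat_lit 11))
    (@En.n l107 (nat_lit 430) (nat_lit 9) (nat_lit 2))
    (@En.n l1643 (nat_lit 404) (nat_lit 11) (nat_lit 13))
    (@En.n l619 (nat_lit 296) (nat_lit 12) (nat_lit 14))
    (@En.n l14948 (nat_lit 434) (nat_lit 13) (nat_lit 10))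
    (@En.n l699 (nat_lit 414) (nat_lit 14) (nat_lit 5))
    (@En.n l11611 (nat_lit 410) (nat_lit 4) (nat_lit 6))
    (@En.n l18 (nat_lit 430) (nat_lit 15) (nat_lit 2))))
  (@Cl.mk (nat_lit 0x200060005000a000d0009000e000300020006000b000a0007000b000e0005) (nat_lit 0x710c0009203c0) (nat_lit 16) Lb.e (@T16.mk En
    (@En.n l28697 (nat_lit 403) (nat_lit 8) (nat_lit 5))
    (@En.n l862 (nat_lit 671) (nat_lit 10) (nat_lit 14))
    (@En.n l2042 (nat_lit 121) (nat_lit 2) (nat_lit 11))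
    (@En.n l1005 (nat_lit 7900) (nat_lit 12) (nat_lit 7))
    (@En.n l15197 (nat_lit 531) (nat_lit 4) (nat_lit 10))
    (@En.n l2034 (nat_lit 6118) (nat_lit 14) (nat_lit 11))
    (@En.n l2907 (nat_lit 404) (nat_lit 6) (nat_lit 6))
    (@En.n l7 (nat_lit 431) (nat_lit 7) (nat_lit 2))
    (@En.n l10479 (nat_lit 404) (nat_lit 8) (nat_lit 3))
    (@En.n l15197 (nat_lit 13588) (nat_lit 0) (nat_lit 14))
    (@En.n l13349 (nat_lit 1452) (nat_lit 2) (nat_lit 9))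
    (@En.n l2544 (nat_lit 214) (nat_lit 12) (nat_lit 13))
    (@En.n l26138 (nat_lit 433) (nat_lit 13) (nat_lit 10))
    (@En.n l9512 (nat_lit 415) (nat_lit 14) (nat_lit 5))
    (@En.n l3340 (nat_lit 411) (nat_lit 6) (nat_lit 6))
    (@En.n l3 (nat_lit 431) (nat_lit 15) (nat_lit 2))))
noncomputable def a27 : T16 Cl := @T16.mk Cl
  (@Cl.mk (nat_lit 0x20006000a000d000d0009000300030006000c000b000a00070004000e0005) (nat_lit 0x60000000030000) (nat_lit 16) Lb.e (@T16.mk En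
    (@En.n l6386 (nat_lit 435) (nat_lit 6) (nat_lit 5))
    (@En.n l18082 (nat_lit 823) (nat_lit 1) (nat_lit 14))
    (@En.i (nat_lit 766) (nat_lit 2) (nat_lit 4))
    (@En.n l18083 (nat_lit 3328) (nat_lit 3) (nat_lit 7))
    (@En.n l18084 (nat_lit 838) (nat_lit 4) (nat_lit 10))
    (@En.n l18085 (nat_lit 568) (nat_lit 12) (nat_lit 11))
    (@En.n l18084 (nat_lit 1132) (nat_lit 7) (nat_lit 12))
    (@En.n l159 (nat_lit 434) (nat_lit 7) (nat_lit 6))
    (@En.n l11 (nat_lit 434) (nat_lit 8) (nat_lit 3))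
    (@En.n l18086 (nat_lit 433) (nat_lit 9) (nat_lit 3))
    (@En.i (nat_lit 1760) (nat_lit 11) (nat_lit 9))
    (@En.n l18087 (nat_lit 433) (nat_lit 12) (nat_lit 13))
    (@En.n l18088 (nat_lit 2668) (nat_lit 13) (nat_lit 13))
    (@En.n l18089 (nat_lit 786) (nat_lit 14) (nat_lit 10))
    (@En.n l12929 (nat_lit 576) (nat_lit 4) (nat_lit 6))
    (@En.n l18 (nat_lit 432) (nat_lit 15) (nat_lit 2))))
  (@Cl.mk (nat_lit 0x20006000a000d0008000e000300020006000c000b000a00080004000e0005) (nat_lit 0x6b000000000000) (nat_lit 16) Lb.e (@T16.mk En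
    (@En.n l117 (nat_lit 436) (nat_lit 7) (nat_lit 5))
    (@En.n l5905 (nat_lit 824) (nat_lit 9) (nat_lit 14))
    (@En.n l25725 (nat_lit 767) (nat_lit 2) (nat_lit 4))
    (@En.n l77 (nat_lit 3330) (nat_lit 11) (nat_lit 8))
    (@En.i (nat_lit 843) (nat_lit 4) (nat_lit 10))
    (@En.n l936 (nat_lit 656) (nat_lit 13) (nat_lit 11))
    (@En.n l2238 (nat_lit 1133) (nat_lit 7) (nat_lit 12))
    (@En.n l33335 (nat_lit 432) (nat_lit 7) (nat_lit 6))
    (@En.n l18 (nat_lit 433) (nat_lit 8) (nat_lit 2))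
    (@En.n l33336 (nat_lit 432) (nat_lit 9) (nat_lit 3))
    (@En.n l4473 (nat_lit 13562) (nat_lit 0) (nat_lit 14))
    (@En.n l33337 (nat_lit 1762) (nat_lit 2) (nat_lit 8))
    (@En.i (nat_lit 2669) (nat_lit 13) (nat_lit 13))
    (@En.n l7619 (nat_lit 789) (nat_lit 4) (nat_lit 10))
    (@En.n l5616 (nat_lit 574) (nat_lit 5) (nat_lit 6))
    (@En.n l11 (nat_lit 433) (nat_lit 15) (nat_lit 2))))
  (@Cl.mk (nat_lit 0x20006000a000e000d0002000a00030006000c000b000a00060004000e0005) (nat_lit 0x60100000030000) (nat_lit 16) Lb.e (@T16.mk En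
    (@En.n l50 (nat_lit 437) (nat_lit 5) (nat_lit 5))
    (@En.n l2650 (nat_lit 825) (nat_lit 1) (nat_lit 14))
    (@En.i (nat_lit 768) (nat_lit 2) (nat_lit 4))
    (@En.n l18083 (nat_lit 3329) (nat_lit 8) (nat_lit 6))
    (@En.n l7583 (nat_lit 844) (nat_lit 4) (nat_lit 10))
    (@En.n l22063 (nat_lit 654) (nat_lit 11) (nat_lit 11))
    (@En.n l33219 (nat_lit 1136) (nat_lit 7) (nat_lit 12))
    (@En.i (nat_lit 13562) (nat_lit 12) (nat_lit 6))
    (@En.i (nat_lit 432) (nat_lit 8) (nat_lit 3))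
    (@En.i (nat_lit 1552) (nat_lit 0) (nat_lit 10))
    (@En.n l107 (nat_lit 434) (nat_lit 10) (nat_lit 2))
    (@En.n l180 (nat_lit 432) (nat_lit 12) (nat_lit 13))
    (@En.n l619 (nat_lit 3080) (nat_lit 13) (nat_lit 14))
    (@En.n l8679 (nat_lit 790) (nat_lit 2) (nat_lit 10))
    (@En.n l12929 (nat_lit 573) (nat_lit 3) (nat_lit 6))
    (@En.n l18 (nat_lit 434) (nat_lit 15) (nat_lit 2))))
  (@Cl.mk (nat_lit 0x300030006000b000b000b000b00080005000500050005000a000d000d0008) (nat_lit 0x14000004000) (nat_lit 16) Lb.e (@T16.mk En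
    (@En.n l5145 (nat_lit 443) (nat_lit 0) (nat_lit 8))
    (@En.n l217 (nat_lit 436) (nat_lit 3) (nat_lit 13))
    (@En.i (nat_lit 2670) (nat_lit 5) (nat_lit 13))
    (@En.n l4411 (nat_lit 791) (nat_lit 3) (nat_lit 10))
    (@En.n l15701 (nat_lit 441) (nat_lit 11) (nat_lit 5))
    (@En.n l11 (nat_lit 442) (nat_lit 11) (nat_lit 5))
    (@En.n l4976 (nat_lit 439) (nat_lit 11) (nat_lit 5))
    (@En.n l5145 (nat_lit 586) (nat_lit 7) (nat_lit 5))
    (@En.i (nat_lit 861) (nat_lit 0) (nat_lit 8))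
    (@En.n l15702 (nat_lit 438) (nat_lit 5) (nat_lit 11))
    (@En.n l15703 (nat_lit 432) (nat_lit 5) (nat_lit 11))
    (@En.n l6046 (nat_lit 440) (nat_lit 5) (nat_lit 11))
    (@En.n l15704 (nat_lit 1130) (nat_lit 13) (nat_lit 11))
    (@En.n l5474 (nat_lit 437) (nat_lit 12) (nat_lit 6))
    (@En.n l5475 (nat_lit 437) (nat_lit 13) (nat_lit 3))
    (@En.n l50 (nat_lit 436) (nat_lit 0) (nat_lit 3))))
  (@Cl.mk (nat_lit 0x20006000b000b000b000b00090005000500050005000a000d0007000e0003) (nat_lit 0x14000004b000) (nat_lit 16) Lb.e (@T16.mk En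
    (@En.i (nat_lit 435) (nat_lit 15) (nat_lit 3))
    (@En.n l1393 (nat_lit 13502) (nat_lit 0) (nat_lit 14))
    (@En.i (nat_lit 1571) (nat_lit 2) (nat_lit 7))
    (@En.i (nat_lit 2671) (nat_lit 5) (nat_lit 13))
    (@En.n l4411 (nat_lit 795) (nat_lit 4) (nat_lit 10))
    (@En.n l218 (nat_lit 627) (nat_lit 5) (nat_lit 5))
    (@En.n l11 (nat_lit 501) (nat_lit 6) (nat_lit 5))
    (@En.n l4976 (nat_lit 851) (nat_lit 7) (nat_lit 5))
    (@En.n l1393 (nat_lit 587) (nat_lit 8) (nat_lit 5))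
    (@En.n l77 (nat_lit 3333) (nat_lit 10) (nat_lit 9))
    (@En.n l55 (nat_lit 673) (nat_lit 11) (nat_lit 11))
    (@En.n l619 (nat_lit 433) (nat_lit 5) (nat_lit 11))
    (@En.i (nat_lit 668) (nat_lit 5) (nat_lit 11))
    (@En.i (nat_lit 1131) (nat_lit 14) (nat_lit 11))
    (@En.n l1738 (nat_lit 435) (nat_lit 13) (nat_lit 6))
    (@En.n l18 (nat_lit 436) (nat_lit 15) (nat_lit 2))))
  (@Cl.mk (nat_lit 0x2000900030006000b000b000b000b00070005000500050005000a000e000d) (nat_lit 0x1400000401) (nat_lit 16) Lb.e (@T16.mk En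
    (@En.n l13383 (nat_lit 435) (nat_lit 2) (nat_lit 13))
    (@En.n l619 (nat_lit 2652) (nat_lit 1) (nat_lit 14))
    (@En.n l4808 (nat_lit 796) (nat_lit 2) (nat_lit 10))
    (@En.n l1778 (nat_lit 626) (nat_lit 3) (nat_lit 5))
    (@En.n l2172 (nat_lit 500) (nat_lit 4) (nat_lit 5))
    (@En.n l77 (nat_lit 850) (nat_lit 5) (nat_lit 5))
    (@En.i (nat_lit 588) (nat_lit 6) (nat_lit 5))
    (@En.n l1347 (nat_lit 863) (nat_lit 7) (nat_lit 7))
    (@En.n l742 (nat_lit 674) (nat_lit 9) (nat_lit 11))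
    (@En.n l396 (nat_lit 434) (nat_lit 5) (nat_lit 11))
    (@En.n l6367 (nat_lit 669) (nat_lit 5) (nat_lit 11))
    (@En.n l13988 (nat_lit 1129) (nat_lit 12) (nat_lit 11))
    (@En.i (nat_lit 13502) (nat_lit 12) (nat_lit 6))
    (@En.n l4314 (nat_lit 435) (nat_lit 14) (nat_lit 3))
    (@En.n l1347 (nat_lit 1551) (nat_lit 0) (nat_lit 9))
    (@En.n l107 (nat_lit 437) (nat_lit 15) (nat_lit 2))))
  (@Cl.mk (nat_lit 0x2000a000d000d0009000300030006000c000c000b000700040004000e0005) (nat_lit 0x600000009300010) (nat_lit 16) Lb.e (@T16.mk En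
    (@En.n l6386 (nat_lit 435) (nat_lit 5) (nat_lit 5))
    (@En.n l3786 (nat_lit 393) (nat_lit 1) (nat_lit 14))
    (@En.n l7905 (nat_lit 675) (nat_lit 2) (nat_lit 4))
    (@En.i (nat_lit 589) (nat_lit 3) (nat_lit 4))
    (@En.n l6386 (nat_lit 869) (nat_lit 4) (nat_lit 7))
    (@En.n l2337 (nat_lit 842) (nat_lit 11) (nat_lit 11))
    (@En.n l601 (nat_lit 670) (nat_lit 7) (nat_lit 12))
    (@En.n l7906 (nat_lit 1135) (nat_lit 8) (nat_lit 12))
    (@En.n l159 (nat_lit 674) (nat_lit 12) (nat_lit 6))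
    (@En.n l11 (nat_lit 674) (nat_lit 13) (nat_lit 3))
    (@En.n l7907 (nat_lit 673) (nat_lit 0) (nat_lit 3))
    (@En.i (nat_lit 1606) (nat_lit 0) (nat_lit 9))
    (@En.n l7908 (nat_lit 673) (nat_lit 3) (nat_lit 13))
    (@En.n l6386 (nat_lit 2672) (nat_lit 5) (nat_lit 13))
    (@En.n l7909 (nat_lit 736) (nat_lit 3) (nat_lit 10))
    (@En.n l17 (nat_lit 438) (nat_lit 15) (nat_lit 2))))
  (@Cl.mk (nat_lit 0x2000c000c0009000500040004000a000d000d0007000300030006000e000b) (nat_lit 0x50000300000001) (nat_lit 16) Lb.e (@T16.mk En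
    (@En.n l575 (nat_lit 435) (nat_lit 12) (nat_lit 11))
    (@En.n l6373 (nat_lit 869) (nat_lit 1) (nat_lit 14))
    (@En.n l6374 (nat_lit 850) (nat_lit 12) (nat_lit 6))
    (@En.n l6375 (nat_lit 850) (nat_lit 13) (nat_lit 3))
    (@En.n l50 (nat_lit 851) (nat_lit 0) (nat_lit 3))
    (@En.n l6376 (nat_lit 1189) (nat_lit 0) (nat_lit 7))
    (@En.n l217 (nat_lit 851) (nat_lit 3) (nat_lit 13))
    (@En.i (nat_lit 2680) (nat_lit 8) (nat_lit 13))
    (@En.n l1599 (nat_lit 798) (nat_lit 9) (nat_lit 10))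
    (@En.n l1577 (nat_lit 629) (nat_lit 12) (nat_lit 4))
    (@En.i (nat_lit 508) (nat_lit 10) (nat_lit 4))
    (@En.n l6376 (nat_lit 842) (nat_lit 6) (nat_lit 5))
    (@En.n l575 (nat_lit 852) (nat_lit 13) (nat_lit 9))
    (@En.n l1578 (nat_lit 675) (nat_lit 4) (nat_lit 12))
    (@En.n l107 (nat_lit 736) (nat_lit 10) (nat_lit 12))
    (@En.n l3 (nat_lit 439) (nat_lit 15) (nat_lit 2))))
  (@Cl.mk (nat_lit 0x200060006000a000d000d0009000300030006000b000a000a0007000e0005) (nat_lit 0x5000000900000) (nat_lit 16) Lb.e (@T16.mk En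
    (@En.n l6925 (nat_lit 435) (nat_lit 7) (nat_lit 5))
    (@En.n l6926 (nat_lit 485) (nat_lit 1) (nat_lit 14))
    (@En.n l728 (nat_lit 3212) (nat_lit 2) (nat_lit 7))
    (@En.n l825 (nat_lit 670) (nat_lit 6) (nat_lit 10))
    (@En.i (nat_lit 569) (nat_lit 4) (nat_lit 10))
    (@En.n l6927 (nat_lit 6138) (nat_lit 13) (nat_lit 11))
    (@En.n l6928 (nat_lit 669) (nat_lit 6) (nat_lit 6))
    (@En.n l6929 (nat_lit 669) (nat_lit 7) (nat_lit 3))
    (@En.n l6930 (nat_lit 668) (nat_lit 8) (nat_lit 3))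
    (@En.n l6931 (nat_lit 1563) (nat_lit 10) (nat_lit 9))
    (@En.n l6932 (nat_lit 668) (nat_lit 11) (nat_lit 13))
    (@En.n l6933 (nat_lit 1164) (nat_lit 12) (nat_lit 13))
    (@En.n l6934 (nat_lit 794) (nat_lit 13) (nat_lit 10))
    (@En.n l6935 (nat_lit 628) (nat_lit 14) (nat_lit 6))
    (@En.n l6936 (nat_lit 413) (nat_lit 5) (nat_lit 6))
    (@En.n l7 (nat_lit 440) (nat_lit 15) (nat_lit 2))))
  (@Cl.mk (nat_lit 0x20009000600060005000a000d000d0007000300030006000a000a000e000b) (nat_lit 0x30000000002) (nat_lit 16) Lb.e (@T16.mk En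
    (@En.n l6408 (nat_lit 435) (nat_lit 10) (nat_lit 11))
    (@En.n l6409 (nat_lit 572) (nat_lit 1) (nat_lit 14))
    (@En.n l1644 (nat_lit 628) (nat_lit 6) (nat_lit 10))
    (@En.n l6410 (nat_lit 1098) (nat_lit 3) (nat_lit 10))
    (@En.n l6411 (nat_lit 626) (nat_lit 12) (nat_lit 6))
    (@En.n l6412 (nat_lit 626) (nat_lit 13) (nat_lit 3))
    (@En.n l6413 (nat_lit 627) (nat_lit 0) (nat_lit 3))
    (@En.n l6414 (nat_lit 1562) (nat_lit 0) (nat_lit 7))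
    (@En.n l6415 (nat_lit 627) (nat_lit 3) (nat_lit 13))
    (@En.n l2381 (nat_lit 3693) (nat_lit 10) (nat_lit 13))
    (@En.n l3 (nat_lit 485) (nat_lit 11) (nat_lit 10))
    (@En.n l6410 (nat_lit 555) (nat_lit 4) (nat_lit 5))
    (@En.n l6416 (nat_lit 629) (nat_lit 13) (nat_lit 6))
    (@En.n l6417 (nat_lit 878) (nat_lit 14) (nat_lit 6))
    (@En.n l6418 (nat_lit 7513) (nat_lit 8) (nat_lit 9))
    (@En.n l28 (nat_lit 441) (nat_lit 15) (nat_lit 2))))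
  (@Cl.mk (nat_lit 0x2000c0009000600050004000a000d000d0007000300030006000a000e000b) (nat_lit 0x500003000000091) (nat_lit 16) Lb.e (@T16.mk En
    (@En.n l68 (nat_lit 435) (nat_lit 11) (nat_lit 11))
    (@En.n l4547 (nat_lit 489) (nat_lit 1) (nat_lit 14))
    (@En.n l4551 (nat_lit 1125) (nat_lit 2) (nat_lit 10))
    (@En.n l12794 (nat_lit 500) (nat_lit 12) (nat_lit 6))
    (@En.n l12795 (nat_lit 500) (nat_lit 13) (nat_lit 3))
    (@En.n l50 (nat_lit 501) (nat_lit 0) (nat_lit 3))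
    (@En.n l1422 (nat_lit 1564) (nat_lit 0) (nat_lit 7))
    (@En.n l217 (nat_lit 501) (nat_lit 3) (nat_lit 13))
    (@En.i (nat_lit 1372) (nat_lit 5) (nat_lit 13))
    (@En.n l2106 (nat_lit 797) (nat_lit 10) (nat_lit 10))
    (@En.n l4551 (nat_lit 552) (nat_lit 10) (nat_lit 4))
    (@En.i (nat_lit 502) (nat_lit 5) (nat_lit 5))
    (@En.n l4551 (nat_lit 567) (nat_lit 13) (nat_lit 6))
    (@En.i (nat_lit 3213) (nat_lit 14) (nat_lit 9))
    (@En.n l476 (nat_lit 392) (nat_lit 9) (nat_lit 12))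
    (@En.n l67 (nat_lit 442) (nat_lit 15) (nat_lit 2))))
  (@Cl.mk (nat_lit 0x200090005000a000a000a000a000800070006000600060006000b000e0008) (nat_lit 0x6004000000606) (nat_lit 16) Lb.e (@T16.mk En
    (@En.n l22029 (nat_lit 1419) (nat_lit 2) (nat_lit 8))
    (@En.n l6965 (nat_lit 1613) (nat_lit 4) (nat_lit 14))
    (@En.n l4808 (nat_lit 1417) (nat_lit 2) (nat_lit 11))
    (@En.n l22030 (nat_lit 1562) (nat_lit 3) (nat_lit 6))
    (@En.n l22031 (nat_lit 1564) (nat_lit 4) (nat_lit 6))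
    (@En.n l77 (nat_lit 1189) (nat_lit 5) (nat_lit 6))
    (@En.n l6965 (nat_lit 6286) (nat_lit 6) (nat_lit 6))
    (@En.i (nat_lit 437) (nat_lit 7) (nat_lit 7))
    (@En.n l6969 (nat_lit 6197) (nat_lit 9) (nat_lit 8))
    (@En.n l742 (nat_lit 1606) (nat_lit 10) (nat_lit 10))
    (@En.n l396 (nat_lit 1760) (nat_lit 6) (nat_lit 10))
    (@En.n l6367 (nat_lit 1563) (nat_lit 6) (nat_lit 10))
    (@En.n l13988 (nat_lit 1620) (nat_lit 13) (nat_lit 10))
    (@En.n l357 (nat_lit 1551) (nat_lit 14) (nat_lit 5))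
    (@En.n l12815 (nat_lit 1550) (nat_lit 0) (nat_lit 9))
    (@En.n l107 (nat_lit 443) (nat_lit 15) (nat_lit 2))))
  (@Cl.mk (nat_lit 0x20006000e000b0002000c0009000d000500040003000a000d0007000e0003) (nat_lit 0xc101040004b000) (nat_lit 16) Lb.e (@T16.mk En
    (@En.n l7706 (nat_lit 405) (nat_lit 4) (nat_lit 3))
    (@En.i (nat_lit 13585) (nat_lit 0) (nat_lit 14))
    (@En.n l12743 (nat_lit 1287) (nat_lit 2) (nat_lit 7))
    (@En.i (nat_lit 1105) (nat_lit 8) (nat_lit 13))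
    (@En.n l5854 (nat_lit 501) (nat_lit 4) (nat_lit 10))
    (@En.n l2575 (nat_lit 408) (nat_lit 5) (nat_lit 3))
    (@En.i (nat_lit 449) (nat_lit 6) (nat_lit 4))
    (@En.n l5854 (nat_lit 475) (nat_lit 7) (nat_lit 5))
    (@En.n l14502 (nat_lit 124) (nat_lit 9) (nat_lit 13))
    (@En.n l998 (nat_lit 7760) (nat_lit 10) (nat_lit 9))
    (@En.n l5856 (nat_lit 388) (nat_lit 11) (nat_lit 12))
    (@En.n l7 (nat_lit 444) (nat_lit 11) (nat_lit 2))
    (@En.n l14001 (nat_lit 403) (nat_lit 13) (nat_lit 11))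
    (@En.n l14502 (nat_lit 6367) (nat_lit 1) (nat_lit 14))
    (@En.n l4870 (nat_lit 405) (nat_lit 2) (nat_lit 6))
    (@En.n l107 (nat_lit 444) (nat_lit 15) (nat_lit 2))))
  (@Cl.mk (nat_lit 0x2000900030006000e000b0002000c0007000d000500040003000a000e000d) (nat_lit 0xc10404000401) (nat_lit 16) Lb.e (@T16.mk En
    (@En.n l180 (nat_lit 405) (nat_lit 7) (nat_lit 13))
    (@En.n l619 (nat_lit 1118) (nat_lit 8) (nat_lit 14))
    (@En.n l2255 (nat_lit 500) (nat_lit 2) (nat_lit 10))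
    (@En.i (nat_lit 407) (nat_lit 3) (nat_lit 3))
    (@En.i (nat_lit 448) (nat_lit 4) (nat_lit 4))
    (@En.i (nat_lit 476) (nat_lit 5) (nat_lit 5))
    (@En.n l5853 (nat_lit 170) (nat_lit 7) (nat_lit 13))
    (@En.n l217 (nat_lit 7759) (nat_lit 14) (nat_lit 7))
    (@En.n l50 (nat_lit 384) (nat_lit 9) (nat_lit 12))
    (@En.n l7 (nat_lit 445) (nat_lit 9) (nat_lit 2))
    (@En.i (nat_lit 402) (nat_lit 11) (nat_lit 11))
    (@En.n l1643 (nat_lit 6073) (nat_lit 12) (nat_lit 14))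
    (@En.i (nat_lit 13585) (nat_lit 12) (nat_lit 6))
    (@En.i (nat_lit 405) (nat_lit 3) (nat_lit 3))
    (@En.i (nat_lit 1398) (nat_lit 0) (nat_lit 9))
    (@En.n l107 (nat_lit 445) (nat_lit 15) (nat_lit 2))))
  (@Cl.mk (nat_lit 0x2000c000c0004000a00040004000a000d000d0006000300030006000e000c) (nat_lit 0x320000300000080) (nat_lit 16) Lb.e (@T16.mk En
    (@En.n l8045 (nat_lit 454) (nat_lit 12) (nat_lit 12))
    (@En.n l615 (nat_lit 5865) (nat_lit 1) (nat_lit 14))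
    (@En.n l159 (nat_lit 455) (nat_lit 12) (nat_lit 6))
    (@En.n l11 (nat_lit 455) (nat_lit 13) (nat_lit 3))
    (@En.n l4186 (nat_lit 456) (nat_lit 0) (nat_lit 3))
    (@En.i (nat_lit 1259) (nat_lit 0) (nat_lit 6))
    (@En.n l13497 (nat_lit 456) (nat_lit 3) (nat_lit 13))
    (@En.n l11363 (nat_lit 2898) (nat_lit 8) (nat_lit 13))
    (@En.n l2940 (nat_lit 545) (nat_lit 9) (nat_lit 10))
    (@En.n l19237 (nat_lit 606) (nat_lit 12) (nat_lit 4))
    (@En.n l18 (nat_lit 405) (nat_lit 10) (nat_lit 4))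
    (@En.n l24935 (nat_lit 5892) (nat_lit 12) (nat_lit 10))
    (@En.n l2940 (nat_lit 470) (nat_lit 7) (nat_lit 4))
    (@En.n l61 (nat_lit 450) (nat_lit 4) (nat_lit 12))
    (@En.n l615 (nat_lit 480) (nat_lit 10) (nat_lit 12))
    (@En.n l7 (nat_lit 446) (nat_lit 15) (nat_lit 2))))
  (@Cl.mk (nat_lit 0x2000a000d000d0007000300030006000d000d000b000300030009000e0005) (nat_lit 0x300000000200050) (nat_lit 16) Lb.e (@T16.mk En
    (@En.n l2940 (nat_lit 454) (nat_lit 5) (nat_lit 5))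
    (@En.n l678 (nat_lit 114) (nat_lit 1) (nat_lit 14))
    (@En.i (nat_lit 7879) (nat_lit 2) (nat_lit 9))
    (@En.n l50 (nat_lit 450) (nat_lit 3) (nat_lit 3))
    (@En.n l2689 (nat_lit 453) (nat_lit 0) (nat_lit 3))
    (@En.i (nat_lit 405) (nat_lit 0) (nat_lit 11))
    (@En.n l14424 (nat_lit 453) (nat_lit 3) (nat_lit 13))
    (@En.n l615 (nat_lit 6264) (nat_lit 8) (nat_lit 13))
    (@En.n l159 (nat_lit 452) (nat_lit 12) (nat_lit 6))
    (@En.n l11 (nat_lit 452) (nat_lit 13) (nat_lit 3))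
    (@En.n l2691 (nat_lit 451) (nat_lit 0) (nat_lit 3))
    (@En.i (nat_lit 1260) (nat_lit 0) (nat_lit 7))
    (@En.n l1572 (nat_lit 451) (nat_lit 3) (nat_lit 13))
    (@En.n l619 (nat_lit 693) (nat_lit 14) (nat_lit 13))
    (@En.n l3478 (nat_lit 555) (nat_lit 3) (nat_lit 10))
    (@En.n l17 (nat_lit 447) (nat_lit 15) (nat_lit 2))))
noncomputable def a28 : T16 Cl := @T16.mk Cl
  (@Cl.mk (nat_lit 0x2000800030006000e000d0002000c00030008000e00040002000a000e000d) (nat_lit 0x900100400490) (nat_lit 16) Lb.e (@T16.mk En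
    (@En.n l180 (nat_lit 450) (nat_lit 13) (nat_lit 13))
    (@En.n l619 (nat_lit 1214) (nat_lit 8) (nat_lit 14))
    (@En.n l1722 (nat_lit 553) (nat_lit 2) (nat_lit 10))
    (@En.n l17 (nat_lit 448) (nat_lit 3) (nat_lit 2))
    (@En.i (nat_lit 455) (nat_lit 4) (nat_lit 4))
    (@En.i (nat_lit 168) (nat_lit 6) (nat_lit 14))
    (@En.i (nat_lit 5893) (nat_lit 6) (nat_lit 8))
    (@En.i (nat_lit 452) (nat_lit 7) (nat_lit 3))
    (@En.i (nat_lit 382) (nat_lit 0) (nat_lit 12))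
    (@En.n l7 (nat_lit 448) (nat_lit 9) (nat_lit 2))
    (@En.n l601 (nat_lit 452) (nat_lit 11) (nat_lit 13))
    (@En.n l1643 (nat_lit 5864) (nat_lit 8) (nat_lit 14))
    (@En.i (nat_lit 13814) (nat_lit 12) (nat_lit 6))
    (@En.i (nat_lit 450) (nat_lit 9) (nat_lit 3))
    (@En.i (nat_lit 1262) (nat_lit 0) (nat_lit 8))
    (@En.n l107 (nat_lit 448) (nat_lit 15) (nat_lit 2))))
  (@Cl.mk (nat_lit 0x20006000e000d0002000c0003000a000e00040002000a000d0006000e0003) (nat_lit 0x90010050030000) (nat_lit 16) Lb.e (@T16.mk En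
    (@En.n l7706 (nat_lit 450) (nat_lit 10) (nat_lit 3))
    (@En.i (nat_lit 13814) (nat_lit 0) (nat_lit 14))
    (@En.n l12743 (nat_lit 1284) (nat_lit 2) (nat_lit 6))
    (@En.i (nat_lit 964) (nat_lit 8) (nat_lit 13))
    (@En.n l3348 (nat_lit 554) (nat_lit 4) (nat_lit 10))
    (@En.n l17 (nat_lit 449) (nat_lit 5) (nat_lit 2))
    (@En.n l2869 (nat_lit 456) (nat_lit 6) (nat_lit 4))
    (@En.n l2031 (nat_lit 125) (nat_lit 8) (nat_lit 14))
    (@En.i (nat_lit 5900) (nat_lit 9) (nat_lit 10))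
    (@En.i (nat_lit 451) (nat_lit 9) (nat_lit 3))
    (@En.n l2031 (nat_lit 386) (nat_lit 11) (nat_lit 12))
    (@En.n l7 (nat_lit 449) (nat_lit 11) (nat_lit 2))
    (@En.n l601 (nat_lit 451) (nat_lit 13) (nat_lit 13))
    (@En.n l2031 (nat_lit 5872) (nat_lit 8) (nat_lit 14))
    (@En.n l4870 (nat_lit 450) (nat_lit 8) (nat_lit 6))
    (@En.n l107 (nat_lit 449) (nat_lit 15) (nat_lit 2))))
  (@Cl.mk (nat_lit 0x2000a000d000d0007000300030006000e000d0002000c00030009000e0004) (nat_lit 0x4b1000091010040) (nat_lit 16) Lb.e (@T16.mk En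
    (@En.i (nat_lit 446) (nat_lit 10) (nat_lit 4))
    (@En.n l678 (nat_lit 123) (nat_lit 1) (nat_lit 14))
    (@En.i (nat_lit 5895) (nat_lit 2) (nat_lit 9))
    (@En.i (nat_lit 447) (nat_lit 3) (nat_lit 3))
    (@En.n l615 (nat_lit 383) (nat_lit 0) (nat_lit 12))
    (@En.n l7 (nat_lit 450) (nat_lit 5) (nat_lit 2))
    (@En.n l601 (nat_lit 447) (nat_lit 7) (nat_lit 13))
    (@En.n l615 (nat_lit 5867) (nat_lit 8) (nat_lit 14))
    (@En.n l159 (nat_lit 448) (nat_lit 12) (nat_lit 6))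
    (@En.n l11 (nat_lit 448) (nat_lit 13) (nat_lit 3))
    (@En.n l2691 (nat_lit 449) (nat_lit 0) (nat_lit 3))
    (@En.i (nat_lit 1261) (nat_lit 0) (nat_lit 7))
    (@En.n l1572 (nat_lit 449) (nat_lit 3) (nat_lit 13))
    (@En.n l619 (nat_lit 965) (nat_lit 8) (nat_lit 13))
    (@En.n l3478 (nat_lit 552) (nat_lit 9) (nat_lit 10))
    (@En.n l17 (nat_lit 450) (nat_lit 15) (nat_lit 2))))
  (@Cl.mk (nat_lit 0x20006000d000d000b00030003000a000e00050002000a000d0006000e0003) (nat_lit 0xb020002003b0b0) (nat_lit 16) Lb.e (@T16.mk En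
    (@En.n l7706 (nat_lit 447) (nat_lit 10) (nat_lit 3))
    (@En.i (nat_lit 13599) (nat_lit 0) (nat_lit 14))
    (@En.n l12743 (nat_lit 1240) (nat_lit 2) (nat_lit 6))
    (@En.i (nat_lit 962) (nat_lit 14) (nat_lit 13))
    (@En.n l3348 (nat_lit 556) (nat_lit 4) (nat_lit 10))
    (@En.n l17 (nat_lit 451) (nat_lit 5) (nat_lit 2))
    (@En.n l3348 (nat_lit 457) (nat_lit 6) (nat_lit 5))
    (@En.n l2031 (nat_lit 122) (nat_lit 8) (nat_lit 14))
    (@En.n l998 (nat_lit 7880) (nat_lit 9) (nat_lit 10))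
    (@En.n l50 (nat_lit 449) (nat_lit 9) (nat_lit 3))
    (@En.n l7709 (nat_lit 683) (nat_lit 10) (nat_lit 3))
    (@En.i (nat_lit 444) (nat_lit 12) (nat_lit 11))
    (@En.n l13601 (nat_lit 683) (nat_lit 13) (nat_lit 13))
    (@En.n l2031 (nat_lit 6265) (nat_lit 8) (nat_lit 13))
    (@En.n l4870 (nat_lit 447) (nat_lit 8) (nat_lit 6))
    (@En.n l107 (nat_lit 451) (nat_lit 15) (nat_lit 2))))
  (@Cl.mk (nat_lit 0x2000800030006000d000d000b000300030008000e00050002000a000e000d) (nat_lit 0xb02000500401) (nat_lit 16) Lb.e (@T16.mk En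
    (@En.n l180 (nat_lit 447) (nat_lit 13) (nat_lit 13))
    (@En.n l619 (nat_lit 687) (nat_lit 1) (nat_lit 14))
    (@En.n l1722 (nat_lit 557) (nat_lit 2) (nat_lit 10))
    (@En.n l17 (nat_lit 452) (nat_lit 3) (nat_lit 2))
    (@En.n l4172 (nat_lit 484) (nat_lit 4) (nat_lit 5))
    (@En.i (nat_lit 115) (nat_lit 6) (nat_lit 14))
    (@En.i (nat_lit 7876) (nat_lit 6) (nat_lit 8))
    (@En.n l50 (nat_lit 448) (nat_lit 7) (nat_lit 3))
    (@En.i (nat_lit 682) (nat_lit 8) (nat_lit 3))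
    (@En.i (nat_lit 445) (nat_lit 10) (nat_lit 11))
    (@En.n l601 (nat_lit 682) (nat_lit 11) (nat_lit 13))
    (@En.n l1643 (nat_lit 6266) (nat_lit 8) (nat_lit 13))
    (@En.i (nat_lit 13599) (nat_lit 12) (nat_lit 6))
    (@En.i (nat_lit 447) (nat_lit 9) (nat_lit 3))
    (@En.i (nat_lit 1264) (nat_lit 0) (nat_lit 8))
    (@En.n l107 (nat_lit 452) (nat_lit 15) (nat_lit 2))))
  (@Cl.mk (nat_lit 0x20009000e00060002000a000d000d0007000300030006000d000a000e0003) (nat_lit 0x3003000000b1b0) (nat_lit 16) Lb.e (@T16.mk En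
    (@En.n l7367 (nat_lit 447) (nat_lit 4) (nat_lit 3))
    (@En.n l7368 (nat_lit 13468) (nat_lit 0) (nat_lit 14))
    (@En.n l7369 (nat_lit 381) (nat_lit 2) (nat_lit 10))
    (@En.n l7370 (nat_lit 6261) (nat_lit 8) (nat_lit 13))
    (@En.n l7371 (nat_lit 682) (nat_lit 12) (nat_lit 6))
    (@En.n l7372 (nat_lit 682) (nat_lit 13) (nat_lit 3))
    (@En.n l18 (nat_lit 683) (nat_lit 0) (nat_lit 3))
    (@En.n l7373 (nat_lit 1887) (nat_lit 0) (nat_lit 7))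
    (@En.n l61 (nat_lit 683) (nat_lit 3) (nat_lit 13))
    (@En.n l7374 (nat_lit 685) (nat_lit 10) (nat_lit 13))
    (@En.i (nat_lit 539) (nat_lit 11) (nat_lit 10))
    (@En.n l3 (nat_lit 453) (nat_lit 11) (nat_lit 2))
    (@En.n l527 (nat_lit 485) (nat_lit 13) (nat_lit 6))
    (@En.n l7375 (nat_lit 119) (nat_lit 1) (nat_lit 14))
    (@En.n l7373 (nat_lit 7882) (nat_lit 2) (nat_lit 9))
    (@En.n l28 (nat_lit 453) (nat_lit 15) (nat_lit 2))))
  (@Cl.mk (nat_lit 0x300030006000c000c000b000b00040004000a00050005000a000d000d0006) (nat_lit 0xa023000002000) (nat_lit 16) Lb.e (@T16.mk En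
    (@En.n l14096 (nat_lit 1257) (nat_lit 0) (nat_lit 6))
    (@En.n l217 (nat_lit 457) (nat_lit 3) (nat_lit 13))
    (@En.n l14097 (nat_lit 2997) (nat_lit 5) (nat_lit 13))
    (@En.i (nat_lit 542) (nat_lit 3) (nat_lit 10))
    (@En.n l282 (nat_lit 600) (nat_lit 11) (nat_lit 5))
    (@En.n l14098 (nat_lit 401) (nat_lit 5) (nat_lit 5))
    (@En.n l14099 (nat_lit 7875) (nat_lit 7) (nat_lit 10))
    (@En.n l5771 (nat_lit 446) (nat_lit 12) (nat_lit 4))
    (@En.n l152 (nat_lit 460) (nat_lit 8) (nat_lit 4))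
    (@En.n l14100 (nat_lit 447) (nat_lit 5) (nat_lit 11))
    (@En.n l55 (nat_lit 474) (nat_lit 11) (nat_lit 11))
    (@En.n l1952 (nat_lit 485) (nat_lit 4) (nat_lit 12))
    (@En.n l14101 (nat_lit 5936) (nat_lit 13) (nat_lit 12))
    (@En.n l14102 (nat_lit 484) (nat_lit 12) (nat_lit 6))
    (@En.n l14103 (nat_lit 484) (nat_lit 13) (nat_lit 3))
    (@En.n l50 (nat_lit 457) (nat_lit 0) (nat_lit 3))))
  (@Cl.mk (nat_lit 0x2000700030006000e000c0002000c000c0004000900040004000a000e000d) (nat_lit 0x800320000301) (nat_lit 16) Lb.e (@T16.mk En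
    (@En.n l180 (nat_lit 446) (nat_lit 7) (nat_lit 13))
    (@En.n l619 (nat_lit 1217) (nat_lit 8) (nat_lit 14))
    (@En.n l3348 (nat_lit 547) (nat_lit 2) (nat_lit 10))
    (@En.n l5331 (nat_lit 607) (nat_lit 12) (nat_lit 4))
    (@En.n l18 (nat_lit 445) (nat_lit 4) (nat_lit 4))
    (@En.n l2869 (nat_lit 5894) (nat_lit 5) (nat_lit 9))
    (@En.n l3348 (nat_lit 473) (nat_lit 6) (nat_lit 4))
    (@En.n l61 (nat_lit 448) (nat_lit 8) (nat_lit 12))
    (@En.i (nat_lit 482) (nat_lit 9) (nat_lit 12))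
    (@En.n l7 (nat_lit 455) (nat_lit 9) (nat_lit 2))
    (@En.i (nat_lit 484) (nat_lit 11) (nat_lit 12))
    (@En.n l1643 (nat_lit 5866) (nat_lit 12) (nat_lit 14))
    (@En.i (nat_lit 13529) (nat_lit 12) (nat_lit 6))
    (@En.i (nat_lit 446) (nat_lit 3) (nat_lit 3))
    (@En.n l2869 (nat_lit 1266) (nat_lit 0) (nat_lit 7))
    (@En.n l107 (nat_lit 455) (nat_lit 15) (nat_lit 2))))
  (@Cl.mk (nat_lit 0x20006000e000c0002000c000c0004000b00040004000a000d0005000e0003) (nat_lit 0x8003200003b000) (nat_lit 16) Lb.e (@T16.mk En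
    (@En.n l17567 (nat_lit 446) (nat_lit 4) (nat_lit 3))
    (@En.n l649 (nat_lit 13529) (nat_lit 0) (nat_lit 14))
    (@En.i (nat_lit 993) (nat_lit 2) (nat_lit 5))
    (@En.i (nat_lit 967) (nat_lit 8) (nat_lit 13))
    (@En.n l5276 (nat_lit 548) (nat_lit 4) (nat_lit 10))
    (@En.n l17568 (nat_lit 608) (nat_lit 12) (nat_lit 4))
    (@En.n l1865 (nat_lit 444) (nat_lit 6) (nat_lit 4))
    (@En.i (nat_lit 5898) (nat_lit 8) (nat_lit 11))
    (@En.n l5276 (nat_lit 472) (nat_lit 8) (nat_lit 4))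
    (@En.n l1867 (nat_lit 449) (nat_lit 10) (nat_lit 12))
    (@En.n l5550 (nat_lit 481) (nat_lit 11) (nat_lit 12))
    (@En.n l17 (nat_lit 456) (nat_lit 11) (nat_lit 2))
    (@En.n l5551 (nat_lit 457) (nat_lit 13) (nat_lit 12))
    (@En.n l2034 (nat_lit 5870) (nat_lit 1) (nat_lit 14))
    (@En.n l8503 (nat_lit 446) (nat_lit 2) (nat_lit 6))
    (@En.n l7 (nat_lit 456) (nat_lit 15) (nat_lit 2))))
  (@Cl.mk (nat_lit 0x20006000c000c000b000b00040004000b00050005000a000d0005000e0003) (nat_lit 0xa023000002b000) (nat_lit 16) Lb.e (@T16.mk En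
    (@En.i (nat_lit 454) (nat_lit 15) (nat_lit 3))
    (@En.n l14808 (nat_lit 13526) (nat_lit 0) (nat_lit 14))
    (@En.i (nat_lit 990) (nat_lit 2) (nat_lit 5))
    (@En.n l14097 (nat_lit 2996) (nat_lit 5) (nat_lit 13))
    (@En.i (nat_lit 544) (nat_lit 4) (nat_lit 10))
    (@En.n l282 (nat_lit 604) (nat_lit 11) (nat_lit 5))
    (@En.i (nat_lit 403) (nat_lit 6) (nat_lit 5))
    (@En.n l2747 (nat_lit 7878) (nat_lit 8) (nat_lit 11))
    (@En.n l5584 (nat_lit 456) (nat_lit 8) (nat_lit 4))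
    (@En.n l152 (nat_lit 461) (nat_lit 9) (nat_lit 4))
    (@En.n l1101 (nat_lit 451) (nat_lit 11) (nat_lit 11))
    (@En.n l55 (nat_lit 475) (nat_lit 12) (nat_lit 11))
    (@En.n l619 (nat_lit 613) (nat_lit 13) (nat_lit 12))
    (@En.n l637 (nat_lit 5938) (nat_lit 14) (nat_lit 12))
    (@En.n l1738 (nat_lit 454) (nat_lit 13) (nat_lit 6))
    (@En.n l18 (nat_lit 457) (nat_lit 15) (nat_lit 2))))
  (@Cl.mk (nat_lit 0x20006000a0009000e000c0002000a000600040007000a000d0006000e0003) (nat_lit 0x101080003b000) (nat_lit 16) Lb.e (@T16.mk En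
    (@En.n l23497 (nat_lit 387) (nat_lit 6) (nat_lit 3))
    (@En.n l2436 (nat_lit 13577) (nat_lit 0) (nat_lit 14))
    (@En.n l996 (nat_lit 948) (nat_lit 2) (nat_lit 6))
    (@En.n l4750 (nat_lit 3327) (nat_lit 5) (nat_lit 13))
    (@En.i (nat_lit 837) (nat_lit 4) (nat_lit 10))
    (@En.n l25686 (nat_lit 713) (nat_lit 11) (nat_lit 7))
    (@En.i (nat_lit 461) (nat_lit 6) (nat_lit 4))
    (@En.n l2436 (nat_lit 531) (nat_lit 14) (nat_lit 6))
    (@En.n l25687 (nat_lit 7847) (nat_lit 9) (nat_lit 10))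
    (@En.n l11 (nat_lit 458) (nat_lit 9) (nat_lit 2))
    (@En.n l55 (nat_lit 394) (nat_lit 11) (nat_lit 12))
    (@En.n l4750 (nat_lit 501) (nat_lit 12) (nat_lit 14))
    (@En.n l21407 (nat_lit 386) (nat_lit 13) (nat_lit 9))
    (@En.n l21407 (nat_lit 1313) (nat_lit 3) (nat_lit 10))
    (@En.n l25688 (nat_lit 387) (nat_lit 4) (nat_lit 6))
    (@En.n l18 (nat_lit 458) (nat_lit 15) (nat_lit 2))))
  (@Cl.mk (nat_lit 0x2000800030006000a0009000e000c00020008000600040007000a000e000d) (nat_lit 0x1a100000301) (nat_lit 16) Lb.e (@T16.mk En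
    (@En.n l1643 (nat_lit 387) (nat_lit 9) (nat_lit 13))
    (@En.n l619 (nat_lit 853) (nat_lit 10) (nat_lit 14))
    (@En.n l3486 (nat_lit 836) (nat_lit 2) (nat_lit 10))
    (@En.n l699 (nat_lit 714) (nat_lit 11) (nat_lit 7))
    (@En.n l3486 (nat_lit 462) (nat_lit 4) (nat_lit 4))
    (@En.i (nat_lit 525) (nat_lit 14) (nat_lit 6))
    (@En.n l2650 (nat_lit 7866) (nat_lit 6) (nat_lit 8))
    (@En.n l18 (nat_lit 459) (nat_lit 7) (nat_lit 2))
    (@En.n l1708 (nat_lit 396) (nat_lit 9) (nat_lit 12))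
    (@En.n l1063 (nat_lit 500) (nat_lit 10) (nat_lit 14))
    (@En.n l890 (nat_lit 382) (nat_lit 2) (nat_lit 9))
    (@En.n l1643 (nat_lit 1314) (nat_lit 3) (nat_lit 10))
    (@En.i (nat_lit 13577) (nat_lit 12) (nat_lit 6))
    (@En.n l615 (nat_lit 387) (nat_lit 5) (nat_lit 3))
    (@En.i (nat_lit 1433) (nat_lit 0) (nat_lit 8))
    (@En.n l107 (nat_lit 459) (nat_lit 15) (nat_lit 2))))
  (@Cl.mk (nat_lit 0x300030006000c0009000d000c00040003000a00040007000a000d000d0006) (nat_lit 0x3000003000) (nat_lit 16) Lb.e (@T16.mk En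
    (@En.n l829 (nat_lit 1032) (nat_lit 0) (nat_lit 6))
    (@En.n l217 (nat_lit 461) (nat_lit 3) (nat_lit 13))
    (@En.n l4750 (nat_lit 2999) (nat_lit 5) (nat_lit 13))
    (@En.i (nat_lit 519) (nat_lit 8) (nat_lit 10))
    (@En.n l253 (nat_lit 549) (nat_lit 11) (nat_lit 7))
    (@En.n l11 (nat_lit 392) (nat_lit 5) (nat_lit 4))
    (@En.n l1974 (nat_lit 7858) (nat_lit 0) (nat_lit 10))
    (@En.n l11 (nat_lit 463) (nat_lit 7) (nat_lit 3))
    (@En.n l2238 (nat_lit 485) (nat_lit 0) (nat_lit 4))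
    (@En.n l55 (nat_lit 464) (nat_lit 10) (nat_lit 12))
    (@En.n l4750 (nat_lit 502) (nat_lit 11) (nat_lit 13))
    (@En.n l7379 (nat_lit 480) (nat_lit 12) (nat_lit 9))
    (@En.n l26194 (nat_lit 6329) (nat_lit 13) (nat_lit 12))
    (@En.n l2114 (nat_lit 462) (nat_lit 12) (nat_lit 6))
    (@En.n l1959 (nat_lit 462) (nat_lit 13) (nat_lit 3))
    (@En.n l50 (nat_lit 461) (nat_lit 0) (nat_lit 3))))
  (@Cl.mk (nat_lit 0x20006000c0009000d000c00040003000b00040007000a000d0005000e0003) (nat_lit 0x8003b050) (nat_lit 16) Lb.e (@T16.mk En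
    (@En.i (nat_lit 460) (nat_lit 15) (nat_lit 3))
    (@En.n l699 (nat_lit 13525) (nat_lit 0) (nat_lit 14))
    (@En.i (nat_lit 916) (nat_lit 2) (nat_lit 5))
    (@En.n l4750 (nat_lit 3000) (nat_lit 5) (nat_lit 13))
    (@En.i (nat_lit 521) (nat_lit 4) (nat_lit 10))
    (@En.n l253 (nat_lit 551) (nat_lit 11) (nat_lit 7))
    (@En.n l11 (nat_lit 394) (nat_lit 6) (nat_lit 4))
    (@En.n l287 (nat_lit 7859) (nat_lit 8) (nat_lit 11))
    (@En.n l11 (nat_lit 467) (nat_lit 8) (nat_lit 3))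
    (@En.i (nat_lit 613) (nat_lit 9) (nat_lit 4))
    (@En.n l55 (nat_lit 465) (nat_lit 11) (nat_lit 12))
    (@En.n l4750 (nat_lit 506) (nat_lit 12) (nat_lit 13))
    (@En.i (nat_lit 481) (nat_lit 13) (nat_lit 9))
    (@En.i (nat_lit 6331) (nat_lit 14) (nat_lit 12))
    (@En.n l1738 (nat_lit 460) (nat_lit 13) (nat_lit 6))
    (@En.n l18 (nat_lit 461) (nat_lit 15) (nat_lit 2))))
  (@Cl.mk (nat_lit 0x2000700030006000c0009000d000c00040003000900040007000a000e000d) (nat_lit 0x301) (nat_lit 16) Lb.e (@T16.mk En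
    (@En.n l1708 (nat_lit 460) (nat_lit 2) (nat_lit 13))
    (@En.n l12467 (nat_lit 3871) (nat_lit 1) (nat_lit 14))
    (@En.i (nat_lit 518) (nat_lit 2) (nat_lit 10))
    (@En.n l10354 (nat_lit 550) (nat_lit 11) (nat_lit 7))
    (@En.n l4073 (nat_lit 396) (nat_lit 4) (nat_lit 4))
    (@En.n l287 (nat_lit 7869) (nat_lit 5) (nat_lit 9))
    (@En.n l11 (nat_lit 468) (nat_lit 6) (nat_lit 3))
    (@En.n l12412 (nat_lit 612) (nat_lit 7) (nat_lit 4))
    (@En.n l55 (nat_lit 466) (nat_lit 9) (nat_lit 12))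
    (@En.n l4750 (nat_lit 507) (nat_lit 10) (nat_lit 13))
    (@En.n l3651 (nat_lit 482) (nat_lit 11) (nat_lit 9))
    (@En.n l12468 (nat_lit 6330) (nat_lit 12) (nat_lit 12))
    (@En.n l699 (nat_lit 13525) (nat_lit 12) (nat_lit 6))
    (@En.n l1063 (nat_lit 460) (nat_lit 14) (nat_lit 3))
    (@En.i (nat_lit 1033) (nat_lit 0) (nat_lit 7))
    (@En.n l18 (nat_lit 462) (nat_lit 15) (nat_lit 2))))
  (@Cl.mk (nat_lit 0x300030006000d0009000d0003000d0003000a00030007000a000d000d0006) (nat_lit 0x3000) (nat_lit 16) Lb.e (@T16.mk En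
    (@En.n l829 (nat_lit 1047) (nat_lit 0) (nat_lit 6))
    (@En.n l217 (nat_lit 467) (nat_lit 3) (nat_lit 13))
    (@En.n l253 (nat_lit 3339) (nat_lit 5) (nat_lit 13))
    (@En.i (nat_lit 515) (nat_lit 8) (nat_lit 10))
    (@En.n l253 (nat_lit 538) (nat_lit 4) (nat_lit 7))
    (@En.i (nat_lit 464) (nat_lit 5) (nat_lit 3))
    (@En.i (nat_lit 7785) (nat_lit 0) (nat_lit 10))
    (@En.i (nat_lit 460) (nat_lit 7) (nat_lit 3))
    (@En.n l1735 (nat_lit 925) (nat_lit 0) (nat_lit 13))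
    (@En.n l117 (nat_lit 470) (nat_lit 9) (nat_lit 3))
    (@En.n l513 (nat_lit 508) (nat_lit 0) (nat_lit 13))
    (@En.i (nat_lit 469) (nat_lit 12) (nat_lit 9))
    (@En.i (nat_lit 6325) (nat_lit 13) (nat_lit 13))
    (@En.n l2114 (nat_lit 468) (nat_lit 12) (nat_lit 6))
    (@En.n l1959 (nat_lit 468) (nat_lit 13) (nat_lit 3))
    (@En.n l50 (nat_lit 467) (nat_lit 0) (nat_lit 3))))
noncomputable def a29 : T16 Cl := @T16.mk Cl
  (@Cl.mk (nat_lit 0x300030006000d0009000c0003000d0009000400030007000a000d000d0007) (nat_lit 0x20600004000) (nat_lit 16) Lb.e (@T16.mk En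
    (@En.n l829 (nat_lit 987) (nat_lit 0) (nat_lit 7))
    (@En.n l217 (nat_lit 465) (nat_lit 3) (nat_lit 13))
    (@En.n l253 (nat_lit 3331) (nat_lit 5) (nat_lit 13))
    (@En.i (nat_lit 508) (nat_lit 8) (nat_lit 10))
    (@En.n l343 (nat_lit 460) (nat_lit 4) (nat_lit 7))
    (@En.n l28 (nat_lit 463) (nat_lit 5) (nat_lit 3))
    (@En.n l5302 (nat_lit 393) (nat_lit 0) (nat_lit 4))
    (@En.i (nat_lit 7855) (nat_lit 14) (nat_lit 9))
    (@En.n l13357 (nat_lit 701) (nat_lit 9) (nat_lit 13))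
    (@En.n l117 (nat_lit 474) (nat_lit 9) (nat_lit 3))
    (@En.n l513 (nat_lit 675) (nat_lit 6) (nat_lit 12))
    (@En.n l7377 (nat_lit 477) (nat_lit 12) (nat_lit 9))
    (@En.n l5298 (nat_lit 6326) (nat_lit 13) (nat_lit 13))
    (@En.n l2114 (nat_lit 466) (nat_lit 12) (nat_lit 6))
    (@En.n l1959 (nat_lit 466) (nat_lit 13) (nat_lit 3))
    (@En.n l50 (nat_lit 465) (nat_lit 0) (nat_lit 3))))
  (@Cl.mk (nat_lit 0x20006000d0009000c0003000d000a000400030007000a000d0006000e0003) (nat_lit 0xa0000004b000) (nat_lit 16) Lb.e (@T16.mk En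
    (@En.i (nat_lit 464) (nat_lit 15) (nat_lit 3))
    (@En.n l699 (nat_lit 13418) (nat_lit 0) (nat_lit 14))
    (@En.i (nat_lit 918) (nat_lit 2) (nat_lit 6))
    (@En.n l253 (nat_lit 3002) (nat_lit 5) (nat_lit 13))
    (@En.i (nat_lit 522) (nat_lit 4) (nat_lit 10))
    (@En.n l343 (nat_lit 461) (nat_lit 5) (nat_lit 7))
    (@En.n l28 (nat_lit 467) (nat_lit 6) (nat_lit 3))
    (@En.n l170 (nat_lit 391) (nat_lit 7) (nat_lit 4))
    (@En.n l77 (nat_lit 7854) (nat_lit 9) (nat_lit 10))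
    (@En.n l1735 (nat_lit 708) (nat_lit 10) (nat_lit 13))
    (@En.n l117 (nat_lit 475) (nat_lit 10) (nat_lit 3))
    (@En.n l513 (nat_lit 865) (nat_lit 12) (nat_lit 12))
    (@En.i (nat_lit 478) (nat_lit 13) (nat_lit 9))
    (@En.i (nat_lit 6239) (nat_lit 14) (nat_lit 13))
    (@En.n l1738 (nat_lit 464) (nat_lit 13) (nat_lit 6))
    (@En.n l18 (nat_lit 465) (nat_lit 15) (nat_lit 2))))
  (@Cl.mk (nat_lit 0x2000800030006000d0009000c0003000d0008000400030007000a000e000d) (nat_lit 0xa000000301) (nat_lit 16) Lb.e (@T16.mk En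
    (@En.n l1708 (nat_lit 464) (nat_lit 2) (nat_lit 13))
    (@En.n l1385 (nat_lit 3868) (nat_lit 1) (nat_lit 14))
    (@En.i (nat_lit 517) (nat_lit 2) (nat_lit 10))
    (@En.n l343 (nat_lit 462) (nat_lit 3) (nat_lit 7))
    (@En.n l28 (nat_lit 468) (nat_lit 4) (nat_lit 3))
    (@En.n l170 (nat_lit 395) (nat_lit 0) (nat_lit 4))
    (@En.i (nat_lit 7861) (nat_lit 6) (nat_lit 8))
    (@En.n l5234 (nat_lit 709) (nat_lit 8) (nat_lit 13))
    (@En.n l5235 (nat_lit 476) (nat_lit 8) (nat_lit 3))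
    (@En.n l170 (nat_lit 864) (nat_lit 10) (nat_lit 12))
    (@En.n l5236 (nat_lit 479) (nat_lit 11) (nat_lit 9))
    (@En.n l1668 (nat_lit 6328) (nat_lit 12) (nat_lit 13))
    (@En.n l699 (nat_lit 13418) (nat_lit 12) (nat_lit 6))
    (@En.n l1063 (nat_lit 464) (nat_lit 14) (nat_lit 3))
    (@En.i (nat_lit 1036) (nat_lit 0) (nat_lit 8))
    (@En.n l18 (nat_lit 466) (nat_lit 15) (nat_lit 2))))
  (@Cl.mk (nat_lit 0x20006000d0009000d0003000d0003000b00030007000a000d0005000e0003) (nat_lit 0x8003b050) (nat_lit 16) Lb.e (@T16.mk En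
    (@En.i (nat_lit 463) (nat_lit 15) (nat_lit 3))
    (@En.n l699 (nat_lit 13419) (nat_lit 0) (nat_lit 14))
    (@En.i (nat_lit 912) (nat_lit 2) (nat_lit 5))
    (@En.n l253 (nat_lit 3003) (nat_lit 5) (nat_lit 13))
    (@En.i (nat_lit 520) (nat_lit 4) (nat_lit 10))
    (@En.n l253 (nat_lit 540) (nat_lit 5) (nat_lit 7))
    (@En.i (nat_lit 465) (nat_lit 6) (nat_lit 3))
    (@En.i (nat_lit 7788) (nat_lit 0) (nat_lit 11))
    (@En.i (nat_lit 461) (nat_lit 8) (nat_lit 3))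
    (@En.n l1735 (nat_lit 929) (nat_lit 10) (nat_lit 13))
    (@En.n l117 (nat_lit 472) (nat_lit 10) (nat_lit 3))
    (@En.n l513 (nat_lit 522) (nat_lit 12) (nat_lit 13))
    (@En.i (nat_lit 471) (nat_lit 13) (nat_lit 9))
    (@En.i (nat_lit 6324) (nat_lit 14) (nat_lit 13))
    (@En.n l1738 (nat_lit 463) (nat_lit 13) (nat_lit 6))
    (@En.n l18 (nat_lit 467) (nat_lit 15) (nat_lit 2))))
  (@Cl.mk (nat_lit 0x2000700030006000d0009000d0003000d0003000900030007000a000e000d) (nat_lit 0x301) (nat_lit 16) Lb.e (@T16.mk En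
    (@En.n l1708 (nat_lit 463) (nat_lit 2) (nat_lit 13))
    (@En.n l10131 (nat_lit 3870) (nat_lit 1) (nat_lit 14))
    (@En.i (nat_lit 516) (nat_lit 2) (nat_lit 10))
    (@En.n l253 (nat_lit 541) (nat_lit 3) (nat_lit 7))
    (@En.i (nat_lit 466) (nat_lit 4) (nat_lit 3))
    (@En.n l2571 (nat_lit 7783) (nat_lit 0) (nat_lit 9))
    (@En.i (nat_lit 462) (nat_lit 6) (nat_lit 3))
    (@En.n l253 (nat_lit 930) (nat_lit 8) (nat_lit 13))
    (@En.n l117 (nat_lit 473) (nat_lit 8) (nat_lit 3))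
    (@En.n l513 (nat_lit 517) (nat_lit 10) (nat_lit 13))
    (@En.i (nat_lit 483) (nat_lit 11) (nat_lit 9))
    (@En.i (nat_lit 6327) (nat_lit 12) (nat_lit 13))
    (@En.n l699 (nat_lit 13419) (nat_lit 12) (nat_lit 6))
    (@En.n l1063 (nat_lit 463) (nat_lit 14) (nat_lit 3))
    (@En.i (nat_lit 1035) (nat_lit 0) (nat_lit 7))
    (@En.n l18 (nat_lit 468) (nat_lit 15) (nat_lit 2))))
  (@Cl.mk (nat_lit 0x3000300060009000d000a000d00030009000300070006000a000d000d0007) (nat_lit 0x7115000004000) (nat_lit 16) Lb.e (@T16.mk En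
    (@En.n l829 (nat_lit 1046) (nat_lit 0) (nat_lit 7))
    (@En.n l217 (nat_lit 471) (nat_lit 3) (nat_lit 13))
    (@En.n l253 (nat_lit 3337) (nat_lit 5) (nat_lit 13))
    (@En.n l3 (nat_lit 463) (nat_lit 3) (nat_lit 10))
    (@En.n l3 (nat_lit 470) (nat_lit 4) (nat_lit 6))
    (@En.n l7376 (nat_lit 555) (nat_lit 5) (nat_lit 7))
    (@En.n l7377 (nat_lit 477) (nat_lit 6) (nat_lit 3))
    (@En.n l7378 (nat_lit 7786) (nat_lit 0) (nat_lit 9))
    (@En.n l7379 (nat_lit 480) (nat_lit 8) (nat_lit 3))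
    (@En.n l7380 (nat_lit 706) (nat_lit 0) (nat_lit 13))
    (@En.i (nat_lit 413) (nat_lit 11) (nat_lit 10))
    (@En.n l5251 (nat_lit 464) (nat_lit 12) (nat_lit 13))
    (@En.n l7381 (nat_lit 6087) (nat_lit 9) (nat_lit 9))
    (@En.n l2114 (nat_lit 483) (nat_lit 12) (nat_lit 6))
    (@En.n l1959 (nat_lit 483) (nat_lit 13) (nat_lit 3))
    (@En.n l50 (nat_lit 471) (nat_lit 0) (nat_lit 3))))
  (@Cl.mk (nat_lit 0x300030006000d000c000a0003000d0004000a00030006000a000d000d0006) (nat_lit 0x120600003000) (nat_lit 16) Lb.e (@T16.mk En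
    (@En.n l829 (nat_lit 1048) (nat_lit 0) (nat_lit 6))
    (@En.n l217 (nat_lit 472) (nat_lit 3) (nat_lit 13))
    (@En.n l5375 (nat_lit 3338) (nat_lit 5) (nat_lit 13))
    (@En.i (nat_lit 509) (nat_lit 3) (nat_lit 10))
    (@En.n l3531 (nat_lit 546) (nat_lit 12) (nat_lit 6))
    (@En.i (nat_lit 474) (nat_lit 5) (nat_lit 3))
    (@En.n l7383 (nat_lit 7781) (nat_lit 0) (nat_lit 10))
    (@En.i (nat_lit 454) (nat_lit 7) (nat_lit 4))
    (@En.n l1690 (nat_lit 469) (nat_lit 9) (nat_lit 13))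
    (@En.n l152 (nat_lit 463) (nat_lit 9) (nat_lit 3))
    (@En.i (nat_lit 489) (nat_lit 0) (nat_lit 10))
    (@En.n l619 (nat_lit 460) (nat_lit 12) (nat_lit 12))
    (@En.n l2005 (nat_lit 6076) (nat_lit 13) (nat_lit 13))
    (@En.n l2114 (nat_lit 473) (nat_lit 12) (nat_lit 6))
    (@En.n l1959 (nat_lit 473) (nat_lit 13) (nat_lit 3))
    (@En.n l50 (nat_lit 472) (nat_lit 0) (nat_lit 3))))
  (@Cl.mk (nat_lit 0x200060009000d000a000d0003000a000300070006000a000d0006000e0003) (nat_lit 0x7100070004b060) (nat_lit 16) Lb.e (@T16.mk En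
    (@En.i (nat_lit 469) (nat_lit 15) (nat_lit 3))
    (@En.n l699 (nat_lit 13420) (nat_lit 0) (nat_lit 14))
    (@En.i (nat_lit 914) (nat_lit 2) (nat_lit 6))
    (@En.n l253 (nat_lit 4337) (nat_lit 5) (nat_lit 13))
    (@En.n l3 (nat_lit 467) (nat_lit 4) (nat_lit 10))
    (@En.n l3 (nat_lit 472) (nat_lit 5) (nat_lit 6))
    (@En.n l3549 (nat_lit 556) (nat_lit 6) (nat_lit 7))
    (@En.i (nat_lit 478) (nat_lit 7) (nat_lit 3))
    (@En.n l5032 (nat_lit 7789) (nat_lit 0) (nat_lit 10))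
    (@En.i (nat_lit 481) (nat_lit 9) (nat_lit 3))
    (@En.n l12671 (nat_lit 935) (nat_lit 11) (nat_lit 13))
    (@En.i (nat_lit 488) (nat_lit 12) (nat_lit 10))
    (@En.n l5251 (nat_lit 465) (nat_lit 13) (nat_lit 13))
    (@En.n l9040 (nat_lit 6095) (nat_lit 14) (nat_lit 9))
    (@En.n l1738 (nat_lit 469) (nat_lit 13) (nat_lit 6))
    (@En.n l18 (nat_lit 471) (nat_lit 15) (nat_lit 2))))
  (@Cl.mk (nat_lit 0x20006000d000c000a0003000d0004000b00030006000a000d0005000e0003) (nat_lit 0x100108003b050) (nat_lit 16) Lb.e (@T16.mk En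
    (@En.i (nat_lit 470) (nat_lit 15) (nat_lit 3))
    (@En.n l699 (nat_lit 13522) (nat_lit 0) (nat_lit 14))
    (@En.i (nat_lit 910) (nat_lit 2) (nat_lit 5))
    (@En.n l5375 (nat_lit 3004) (nat_lit 5) (nat_lit 13))
    (@En.i (nat_lit 513) (nat_lit 4) (nat_lit 10))
    (@En.n l3531 (nat_lit 599) (nat_lit 12) (nat_lit 6))
    (@En.i (nat_lit 475) (nat_lit 6) (nat_lit 3))
    (@En.n l1897 (nat_lit 7787) (nat_lit 0) (nat_lit 11))
    (@En.i (nat_lit 457) (nat_lit 8) (nat_lit 4))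
    (@En.n l1690 (nat_lit 471) (nat_lit 10) (nat_lit 13))
    (@En.n l152 (nat_lit 467) (nat_lit 10) (nat_lit 3))
    (@En.i (nat_lit 493) (nat_lit 12) (nat_lit 10))
    (@En.n l619 (nat_lit 461) (nat_lit 13) (nat_lit 12))
    (@En.n l2005 (nat_lit 6234) (nat_lit 14) (nat_lit 13))
    (@En.n l1738 (nat_lit 470) (nat_lit 13) (nat_lit 6))
    (@En.n l18 (nat_lit 472) (nat_lit 15) (nat_lit 2))))
  (@Cl.mk (nat_lit 0x2000700030006000d000c000a0003000d0004000900030006000a000e000d) (nat_lit 0x10000000301) (nat_lit 16) Lb.e (@T16.mk En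
    (@En.n l1708 (nat_lit 470) (nat_lit 2) (nat_lit 13))
    (@En.n l9004 (nat_lit 3869) (nat_lit 1) (nat_lit 14))
    (@En.i (nat_lit 514) (nat_lit 2) (nat_lit 10))
    (@En.n l27010 (nat_lit 598) (nat_lit 12) (nat_lit 6))
    (@En.n l5200 (nat_lit 476) (nat_lit 4) (nat_lit 3))
    (@En.n l1897 (nat_lit 7782) (nat_lit 0) (nat_lit 9))
    (@En.n l14808 (nat_lit 484) (nat_lit 6) (nat_lit 4))
    (@En.n l1690 (nat_lit 483) (nat_lit 8) (nat_lit 13))
    (@En.n l152 (nat_lit 468) (nat_lit 8) (nat_lit 3))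
    (@En.n l3082 (nat_lit 492) (nat_lit 10) (nat_lit 10))
    (@En.n l619 (nat_lit 462) (nat_lit 11) (nat_lit 12))
    (@En.n l12672 (nat_lit 6075) (nat_lit 12) (nat_lit 13))
    (@En.n l699 (nat_lit 13522) (nat_lit 12) (nat_lit 6))
    (@En.n l1063 (nat_lit 470) (nat_lit 14) (nat_lit 3))
    (@En.i (nat_lit 1038) (nat_lit 0) (nat_lit 7))
    (@En.n l18 (nat_lit 473) (nat_lit 15) (nat_lit 2))))
  (@Cl.mk (nat_lit 0x300030006000d000b000a0003000d0009000500030006000a000d000d0007) (nat_lit 0x120600003000) (nat_lit 16) Lb.e (@T16.mk En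
    (@En.n l26999 (nat_lit 988) (nat_lit 0) (nat_lit 7))
    (@En.n l217 (nat_lit 475) (nat_lit 3) (nat_lit 13))
    (@En.n l5375 (nat_lit 3335) (nat_lit 5) (nat_lit 13))
    (@En.i (nat_lit 502) (nat_lit 3) (nat_lit 10))
    (@En.n l11216 (nat_lit 485) (nat_lit 12) (nat_lit 6))
    (@En.n l28 (nat_lit 470) (nat_lit 5) (nat_lit 3))
    (@En.n l27000 (nat_lit 398) (nat_lit 0) (nat_lit 5))
    (@En.i (nat_lit 7754) (nat_lit 14) (nat_lit 9))
    (@En.n l27001 (nat_lit 477) (nat_lit 9) (nat_lit 13))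
    (@En.n l152 (nat_lit 464) (nat_lit 9) (nat_lit 3))
    (@En.n l7734 (nat_lit 409) (nat_lit 0) (nat_lit 10))
    (@En.n l97 (nat_lit 392) (nat_lit 12) (nat_lit 11))
    (@En.n l27002 (nat_lit 6077) (nat_lit 13) (nat_lit 13))
    (@En.n l27003 (nat_lit 476) (nat_lit 12) (nat_lit 6))
    (@En.n l27004 (nat_lit 476) (nat_lit 13) (nat_lit 3))
    (@En.n l50 (nat_lit 475) (nat_lit 0) (nat_lit 3))))
  (@Cl.mk (nat_lit 0x20006000d000b000a0003000d000a000500030006000a000d0006000e0003) (nat_lit 0x110700004b000) (nat_lit 16) Lb.e (@T16.mk En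
    (@En.i (nat_lit 474) (nat_lit 15) (nat_lit 3))
    (@En.n l5200 (nat_lit 13524) (nat_lit 0) (nat_lit 14))
    (@En.i (nat_lit 989) (nat_lit 2) (nat_lit 6))
    (@En.n l5375 (nat_lit 3340) (nat_lit 5) (nat_lit 13))
    (@En.i (nat_lit 506) (nat_lit 4) (nat_lit 10))
    (@En.n l1685 (nat_lit 613) (nat_lit 5) (nat_lit 6))
    (@En.n l28 (nat_lit 472) (nat_lit 6) (nat_lit 3))
    (@En.n l473 (nat_lit 399) (nat_lit 0) (nat_lit 5))
    (@En.n l77 (nat_lit 7762) (nat_lit 9) (nat_lit 10))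
    (@En.n l1690 (nat_lit 478) (nat_lit 10) (nat_lit 13))
    (@En.n l152 (nat_lit 465) (nat_lit 10) (nat_lit 3))
    (@En.i (nat_lit 408) (nat_lit 12) (nat_lit 10))
    (@En.n l97 (nat_lit 394) (nat_lit 13) (nat_lit 11))
    (@En.n l2005 (nat_lit 6235) (nat_lit 14) (nat_lit 13))
    (@En.n l1738 (nat_lit 474) (nat_lit 13) (nat_lit 6))
    (@En.n l18 (nat_lit 475) (nat_lit 15) (nat_lit 2))))
  (@Cl.mk (nat_lit 0x2000800030006000d000b000a0003000d0008000500030006000a000e000d) (nat_lit 0x11000000401) (nat_lit 16) Lb.e (@T16.mk En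
    (@En.n l13300 (nat_lit 474) (nat_lit 2) (nat_lit 13))
    (@En.n l619 (nat_lit 3867) (nat_lit 1) (nat_lit 14))
    (@En.n l5854 (nat_lit 507) (nat_lit 2) (nat_lit 10))
    (@En.n l13301 (nat_lit 612) (nat_lit 3) (nat_lit 6))
    (@En.n l3348 (nat_lit 473) (nat_lit 4) (nat_lit 3))
    (@En.n l1927 (nat_lit 400) (nat_lit 0) (nat_lit 5))
    (@En.n l5854 (nat_lit 7761) (nat_lit 6) (nat_lit 8))
    (@En.n l397 (nat_lit 479) (nat_lit 8) (nat_lit 13))
    (@En.n l13302 (nat_lit 466) (nat_lit 8) (nat_lit 3))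
    (@En.n l61 (nat_lit 407) (nat_lit 10) (nat_lit 10))
    (@En.n l6064 (nat_lit 396) (nat_lit 11) (nat_lit 11))
    (@En.n l1643 (nat_lit 6074) (nat_lit 12) (nat_lit 13))
    (@En.i (nat_lit 13524) (nat_lit 12) (nat_lit 6))
    (@En.n l13303 (nat_lit 474) (nat_lit 14) (nat_lit 3))
    (@En.n l5854 (nat_lit 1175) (nat_lit 0) (nat_lit 8))
    (@En.n l107 (nat_lit 476) (nat_lit 15) (nat_lit 2))))
  (@Cl.mk (nat_lit 0x3000300060009000c000a000d00080004000300070006000a000d000d0008) (nat_lit 0x7115000005000) (nat_lit 16) Lb.e (@T16.mk En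
    (@En.n l639 (nat_lit 986) (nat_lit 0) (nat_lit 8))
    (@En.n l18077 (nat_lit 478) (nat_lit 3) (nat_lit 13))
    (@En.n l11414 (nat_lit 3334) (nat_lit 5) (nat_lit 13))
    (@En.n l16133 (nat_lit 464) (nat_lit 3) (nat_lit 10))
    (@En.n l16133 (nat_lit 474) (nat_lit 4) (nat_lit 6))
    (@En.n l11512 (nat_lit 480) (nat_lit 5) (nat_lit 7))
    (@En.n l1840 (nat_lit 469) (nat_lit 6) (nat_lit 3))
    (@En.n l28 (nat_lit 389) (nat_lit 0) (nat_lit 4))
    (@En.n l16139 (nat_lit 7851) (nat_lit 0) (nat_lit 8))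
    (@En.i (nat_lit 707) (nat_lit 5) (nat_lit 13))
    (@En.n l601 (nat_lit 406) (nat_lit 11) (nat_lit 10))
    (@En.n l639 (nat_lit 393) (nat_lit 6) (nat_lit 12))
    (@En.i (nat_lit 6092) (nat_lit 9) (nat_lit 9))
    (@En.n l730 (nat_lit 479) (nat_lit 12) (nat_lit 6))
    (@En.n l731 (nat_lit 479) (nat_lit 13) (nat_lit 3))
    (@En.n l18078 (nat_lit 478) (nat_lit 0) (nat_lit 3))))
  (@Cl.mk (nat_lit 0x200060009000c000a000d00090004000300070006000a000d0007000e0003) (nat_lit 0x7116000005b000) (nat_lit 16) Lb.e (@T16.mk En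
    (@En.n l7377 (nat_lit 477) (nat_lit 15) (nat_lit 3))
    (@En.n l5236 (nat_lit 13421) (nat_lit 0) (nat_lit 14))
    (@En.i (nat_lit 985) (nat_lit 2) (nat_lit 7))
    (@En.n l253 (nat_lit 3341) (nat_lit 5) (nat_lit 13))
    (@En.n l3 (nat_lit 465) (nat_lit 4) (nat_lit 10))
    (@En.n l3 (nat_lit 475) (nat_lit 5) (nat_lit 6))
    (@En.n l343 (nat_lit 481) (nat_lit 6) (nat_lit 7))
    (@En.n l28 (nat_lit 471) (nat_lit 7) (nat_lit 3))
    (@En.n l5288 (nat_lit 390) (nat_lit 8) (nat_lit 4))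
    (@En.n l77 (nat_lit 7852) (nat_lit 10) (nat_lit 9))
    (@En.n l5236 (nat_lit 704) (nat_lit 11) (nat_lit 13))
    (@En.n l4948 (nat_lit 411) (nat_lit 12) (nat_lit 10))
    (@En.n l5236 (nat_lit 391) (nat_lit 13) (nat_lit 12))
    (@En.n l9040 (nat_lit 6094) (nat_lit 14) (nat_lit 9))
    (@En.n l13413 (nat_lit 477) (nat_lit 13) (nat_lit 6))
    (@En.n l18 (nat_lit 478) (nat_lit 15) (nat_lit 2))))
  (@Cl.mk (nat_lit 0x20009000300060009000c000a000d00070004000300070006000a000e000d) (nat_lit 0x711b00000401) (nat_lit 16) Lb.e (@T16.mk En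
    (@En.n l1643 (nat_lit 477) (nat_lit 2) (nat_lit 13))
    (@En.n l619 (nat_lit 3864) (nat_lit 1) (nat_lit 14))
    (@En.n l13056 (nat_lit 466) (nat_lit 2) (nat_lit 10))
    (@En.n l13384 (nat_lit 476) (nat_lit 3) (nat_lit 6))
    (@En.n l6204 (nat_lit 482) (nat_lit 4) (nat_lit 7))
    (@En.n l13385 (nat_lit 483) (nat_lit 5) (nat_lit 3))
    (@En.n l7 (nat_lit 397) (nat_lit 0) (nat_lit 4))
    (@En.n l8523 (nat_lit 7862) (nat_lit 7) (nat_lit 7))
    (@En.i (nat_lit 705) (nat_lit 9) (nat_lit 13))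
    (@En.n l6126 (nat_lit 410) (nat_lit 10) (nat_lit 10))
    (@En.i (nat_lit 395) (nat_lit 6) (nat_lit 12))
    (@En.n l1643 (nat_lit 6089) (nat_lit 12) (nat_lit 9))
    (@En.i (nat_lit 13421) (nat_lit 12) (nat_lit 6))
    (@En.n l615 (nat_lit 477) (nat_lit 14) (nat_lit 3))
    (@En.n l9771 (nat_lit 1045) (nat_lit 0) (nat_lit 9))
    (@En.n l107 (nat_lit 479) (nat_lit 15) (nat_lit 2))))
noncomputable def a30 : T16 Cl := @T16.mk Cl
  (@Cl.mk (nat_lit 0x3000300060009000d000c000b00030009000400070005000a000d000d0007) (nat_lit 0x7121000004000) (nat_lit 16) Lb.e (@T16.mk En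
    (@En.n l639 (nat_lit 979) (nat_lit 0) (nat_lit 7))
    (@En.n l18079 (nat_lit 481) (nat_lit 3) (nat_lit 13))
    (@En.n l18080 (nat_lit 3336) (nat_lit 5) (nat_lit 13))
    (@En.n l727 (nat_lit 460) (nat_lit 3) (nat_lit 10))
    (@En.n l727 (nat_lit 454) (nat_lit 4) (nat_lit 5))
    (@En.n l5592 (nat_lit 552) (nat_lit 11) (nat_lit 7))
    (@En.n l14035 (nat_lit 385) (nat_lit 6) (nat_lit 4))
    (@En.i (nat_lit 7860) (nat_lit 0) (nat_lit 9))
    (@En.n l2693 (nat_lit 469) (nat_lit 8) (nat_lit 3))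
    (@En.i (nat_lit 381) (nat_lit 0) (nat_lit 11))
    (@En.n l3039 (nat_lit 477) (nat_lit 11) (nat_lit 12))
    (@En.n l5895 (nat_lit 474) (nat_lit 12) (nat_lit 13))
    (@En.i (nat_lit 6091) (nat_lit 9) (nat_lit 9))
    (@En.n l730 (nat_lit 482) (nat_lit 12) (nat_lit 6))
    (@En.n l731 (nat_lit 482) (nat_lit 13) (nat_lit 3))
    (@En.n l18081 (nat_lit 481) (nat_lit 0) (nat_lit 3))))
  (@Cl.mk (nat_lit 0x200060009000d000c000b0003000a000400070005000a000d0006000e0003) (nat_lit 0x7122000004b000) (nat_lit 16) Lb.e (@T16.mk En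
    (@En.n l7379 (nat_lit 480) (nat_lit 15) (nat_lit 3))
    (@En.n l3651 (nat_lit 13527) (nat_lit 0) (nat_lit 14))
    (@En.i (nat_lit 976) (nat_lit 2) (nat_lit 6))
    (@En.n l4750 (nat_lit 4336) (nat_lit 5) (nat_lit 13))
    (@En.n l3 (nat_lit 461) (nat_lit 4) (nat_lit 10))
    (@En.n l3 (nat_lit 457) (nat_lit 5) (nat_lit 5))
    (@En.n l919 (nat_lit 554) (nat_lit 6) (nat_lit 7))
    (@En.n l21403 (nat_lit 388) (nat_lit 7) (nat_lit 4))
    (@En.n l5042 (nat_lit 7853) (nat_lit 9) (nat_lit 10))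
    (@En.n l11 (nat_lit 471) (nat_lit 9) (nat_lit 3))
    (@En.n l21405 (nat_lit 416) (nat_lit 11) (nat_lit 11))
    (@En.n l55 (nat_lit 478) (nat_lit 12) (nat_lit 12))
    (@En.n l21406 (nat_lit 475) (nat_lit 13) (nat_lit 13))
    (@En.n l21407 (nat_lit 6093) (nat_lit 14) (nat_lit 9))
    (@En.n l26217 (nat_lit 480) (nat_lit 13) (nat_lit 6))
    (@En.n l18 (nat_lit 481) (nat_lit 15) (nat_lit 2))))
  (@Cl.mk (nat_lit 0x20008000300060009000d000c000b00030008000400070005000a000e000d) (nat_lit 0x712100000401) (nat_lit 16) Lb.e (@T16.mk En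
    (@En.n l1643 (nat_lit 480) (nat_lit 2) (nat_lit 13))
    (@En.n l619 (nat_lit 3865) (nat_lit 1) (nat_lit 14))
    (@En.n l2362 (nat_lit 462) (nat_lit 2) (nat_lit 10))
    (@En.n l11386 (nat_lit 484) (nat_lit 3) (nat_lit 5))
    (@En.n l1723 (nat_lit 553) (nat_lit 4) (nat_lit 7))
    (@En.n l6042 (nat_lit 384) (nat_lit 5) (nat_lit 4))
    (@En.n l2869 (nat_lit 7863) (nat_lit 6) (nat_lit 8))
    (@En.n l7638 (nat_lit 483) (nat_lit 7) (nat_lit 3))
    (@En.n l6444 (nat_lit 380) (nat_lit 0) (nat_lit 11))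
    (@En.n l5838 (nat_lit 479) (nat_lit 10) (nat_lit 12))
    (@En.n l601 (nat_lit 476) (nat_lit 11) (nat_lit 13))
    (@En.n l1643 (nat_lit 6090) (nat_lit 12) (nat_lit 9))
    (@En.i (nat_lit 13527) (nat_lit 12) (nat_lit 6))
    (@En.n l615 (nat_lit 480) (nat_lit 14) (nat_lit 3))
    (@En.n l2869 (nat_lit 1037) (nat_lit 0) (nat_lit 8))
    (@En.n l107 (nat_lit 482) (nat_lit 15) (nat_lit 2))))
  (@Cl.mk (nat_lit 0x20008000300060009000d000a000d00030008000300070006000a000e000d) (nat_lit 0x710b00000401) (nat_lit 16) Lb.e (@T16.mk En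
    (@En.n l1708 (nat_lit 469) (nat_lit 2) (nat_lit 13))
    (@En.n l10131 (nat_lit 3866) (nat_lit 1) (nat_lit 14))
    (@En.n l3 (nat_lit 468) (nat_lit 2) (nat_lit 10))
    (@En.n l3 (nat_lit 473) (nat_lit 3) (nat_lit 6))
    (@En.n l17487 (nat_lit 557) (nat_lit 4) (nat_lit 7))
    (@En.n l5236 (nat_lit 479) (nat_lit 5) (nat_lit 3))
    (@En.n l5032 (nat_lit 7784) (nat_lit 0) (nat_lit 8))
    (@En.n l3651 (nat_lit 482) (nat_lit 7) (nat_lit 3))
    (@En.n l17472 (nat_lit 934) (nat_lit 0) (nat_lit 13))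
    (@En.n l17488 (nat_lit 487) (nat_lit 10) (nat_lit 10))
    (@En.n l5251 (nat_lit 466) (nat_lit 11) (nat_lit 13))
    (@En.n l17489 (nat_lit 6088) (nat_lit 12) (nat_lit 9))
    (@En.n l699 (nat_lit 13420) (nat_lit 12) (nat_lit 6))
    (@En.n l1063 (nat_lit 469) (nat_lit 14) (nat_lit 3))
    (@En.i (nat_lit 1040) (nat_lit 0) (nat_lit 8))
    (@En.n l18 (nat_lit 483) (nat_lit 15) (nat_lit 2))))
  (@Cl.mk (nat_lit 0x2000700030006000c000c000b000b00040004000900050005000a000e000d) (nat_lit 0xa02300000201) (nat_lit 16) Lb.e (@T16.mk En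
    (@En.n l27996 (nat_lit 454) (nat_lit 2) (nat_lit 13))
    (@En.n l619 (nat_lit 1219) (nat_lit 1) (nat_lit 14))
    (@En.n l9926 (nat_lit 543) (nat_lit 2) (nat_lit 10))
    (@En.n l3180 (nat_lit 605) (nat_lit 11) (nat_lit 5))
    (@En.n l18 (nat_lit 402) (nat_lit 4) (nat_lit 5))
    (@En.n l4909 (nat_lit 7873) (nat_lit 5) (nat_lit 9))
    (@En.n l77 (nat_lit 455) (nat_lit 6) (nat_lit 4))
    (@En.n l27997 (nat_lit 462) (nat_lit 7) (nat_lit 4))
    (@En.n l5653 (nat_lit 452) (nat_lit 9) (nat_lit 11))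
    (@En.n l601 (nat_lit 476) (nat_lit 10) (nat_lit 11))
    (@En.i (nat_lit 612) (nat_lit 11) (nat_lit 12))
    (@En.n l26629 (nat_lit 5935) (nat_lit 12) (nat_lit 12))
    (@En.i (nat_lit 13526) (nat_lit 12) (nat_lit 6))
    (@En.n l8045 (nat_lit 454) (nat_lit 14) (nat_lit 3))
    (@En.n l9926 (nat_lit 1258) (nat_lit 0) (nat_lit 7))
    (@En.n l107 (nat_lit 484) (nat_lit 15) (nat_lit 2))))
  (@Cl.mk (nat_lit 0x2000a00060006000a000d000d0006000300030006000c000a000a000e0004) (nat_lit 0x2000000a12c0) (nat_lit 16) Lb.e (@T16.mk En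
    (@En.n l2683 (nat_lit 454) (nat_lit 8) (nat_lit 4))
    (@En.n l15856 (nat_lit 505) (nat_lit 1) (nat_lit 14))
    (@En.n l15857 (nat_lit 453) (nat_lit 2) (nat_lit 10))
    (@En.n l15858 (nat_lit 387) (nat_lit 3) (nat_lit 10))
    (@En.n l15859 (nat_lit 5944) (nat_lit 13) (nat_lit 12))
    (@En.n l15860 (nat_lit 612) (nat_lit 12) (nat_lit 6))
    (@En.n l15861 (nat_lit 612) (nat_lit 13) (nat_lit 3))
    (@En.n l6413 (nat_lit 613) (nat_lit 0) (nat_lit 3))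
    (@En.n l15862 (nat_lit 614) (nat_lit 0) (nat_lit 6))
    (@En.n l6415 (nat_lit 613) (nat_lit 3) (nat_lit 13))
    (@En.n l15856 (nat_lit 2994) (nat_lit 11) (nat_lit 13))
    (@En.i (nat_lit 532) (nat_lit 12) (nat_lit 10))
    (@En.n l15863 (nat_lit 603) (nat_lit 13) (nat_lit 6))
    (@En.n l15858 (nat_lit 404) (nat_lit 14) (nat_lit 6))
    (@En.n l14526 (nat_lit 5985) (nat_lit 7) (nat_lit 10))
    (@En.n l28 (nat_lit 485) (nat_lit 15) (nat_lit 2))))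
  (@Cl.mk (nat_lit 0x20006000a000d000d0009000300030006000a000d000a00070003000e0006) (nat_lit 0x61b00008130010) (nat_lit 16) Lb.e (@T16.mk En
    (@En.n l13563 (nat_lit 413) (nat_lit 6) (nat_lit 6))
    (@En.n l5356 (nat_lit 440) (nat_lit 1) (nat_lit 14))
    (@En.n l28 (nat_lit 412) (nat_lit 2) (nat_lit 3))
    (@En.n l2438 (nat_lit 3206) (nat_lit 3) (nat_lit 7))
    (@En.n l4316 (nat_lit 404) (nat_lit 4) (nat_lit 10))
    (@En.n l639 (nat_lit 274) (nat_lit 5) (nat_lit 13))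
    (@En.i (nat_lit 6142) (nat_lit 13) (nat_lit 10))
    (@En.n l730 (nat_lit 491) (nat_lit 7) (nat_lit 6))
    (@En.n l731 (nat_lit 491) (nat_lit 8) (nat_lit 3))
    (@En.n l1106 (nat_lit 490) (nat_lit 9) (nat_lit 3))
    (@En.n l4684 (nat_lit 498) (nat_lit 11) (nat_lit 9))
    (@En.n l637 (nat_lit 490) (nat_lit 12) (nat_lit 13))
    (@En.n l2009 (nat_lit 301) (nat_lit 13) (nat_lit 13))
    (@En.n l13564 (nat_lit 894) (nat_lit 14) (nat_lit 10))
    (@En.i (nat_lit 477) (nat_lit 4) (nat_lit 6))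
    (@En.n l18 (nat_lit 486) (nat_lit 15) (nat_lit 2))))
  (@Cl.mk (nat_lit 0x2000900030006000a000a000d000b00070003000600060005000a000e000d) (nat_lit 0x782400000512) (nat_lit 16) Lb.e (@T16.mk En
    (@En.n l32557 (nat_lit 413) (nat_lit 2) (nat_lit 13))
    (@En.n l532 (nat_lit 299) (nat_lit 1) (nat_lit 14))
    (@En.n l13114 (nat_lit 803) (nat_lit 2) (nat_lit 10))
    (@En.n l2221 (nat_lit 482) (nat_lit 3) (nat_lit 5))
    (@En.n l17364 (nat_lit 492) (nat_lit 4) (nat_lit 6))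
    (@En.n l17365 (nat_lit 500) (nat_lit 5) (nat_lit 6))
    (@En.n l26411 (nat_lit 410) (nat_lit 6) (nat_lit 3))
    (@En.n l4021 (nat_lit 3203) (nat_lit 0) (nat_lit 7))
    (@En.n l10853 (nat_lit 402) (nat_lit 9) (nat_lit 11))
    (@En.n l2520 (nat_lit 491) (nat_lit 5) (nat_lit 13))
    (@En.n l17368 (nat_lit 491) (nat_lit 6) (nat_lit 10))
    (@En.n l248 (nat_lit 6098) (nat_lit 12) (nat_lit 10))
    (@En.i (nat_lit 13533) (nat_lit 12) (nat_lit 6))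
    (@En.n l17369 (nat_lit 413) (nat_lit 14) (nat_lit 3))
    (@En.n l21721 (nat_lit 1585) (nat_lit 0) (nat_lit 9))
    (@En.n l7 (nat_lit 487) (nat_lit 15) (nat_lit 2))))
  (@Cl.mk (nat_lit 0x20006000a000a000d000b00090003000600060005000a000d0007000e0003) (nat_lit 0x7804000005a0c0) (nat_lit 16) Lb.e (@T16.mk En
    (@En.i (nat_lit 413) (nat_lit 15) (nat_lit 3))
    (@En.n l17488 (nat_lit 13533) (nat_lit 0) (nat_lit 14))
    (@En.i (nat_lit 495) (nat_lit 2) (nat_lit 7))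
    (@En.n l9697 (nat_lit 1160) (nat_lit 5) (nat_lit 13))
    (@En.n l3548 (nat_lit 583) (nat_lit 4) (nat_lit 10))
    (@En.n l575 (nat_lit 481) (nat_lit 5) (nat_lit 5))
    (@En.n l3 (nat_lit 493) (nat_lit 6) (nat_lit 6))
    (@En.n l9697 (nat_lit 501) (nat_lit 7) (nat_lit 6))
    (@En.n l4948 (nat_lit 411) (nat_lit 8) (nat_lit 3))
    (@En.n l25758 (nat_lit 3200) (nat_lit 0) (nat_lit 9))
    (@En.n l29873 (nat_lit 403) (nat_lit 11) (nat_lit 11))
    (@En.n l6650 (nat_lit 490) (nat_lit 5) (nat_lit 13))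
    (@En.n l25759 (nat_lit 490) (nat_lit 6) (nat_lit 10))
    (@En.n l29874 (nat_lit 6099) (nat_lit 14) (nat_lit 10))
    (@En.n l1738 (nat_lit 413) (nat_lit 13) (nat_lit 6))
    (@En.n l18 (nat_lit 488) (nat_lit 15) (nat_lit 2))))
  (@Cl.mk (nat_lit 0x2000d000c0009000300060004000a000d000d0007000300030006000e000a) (nat_lit 0x350000400000081) (nat_lit 16) Lb.e (@T16.mk En
    (@En.n l97 (nat_lit 413) (nat_lit 12) (nat_lit 10))
    (@En.n l7386 (nat_lit 3255) (nat_lit 1) (nat_lit 14))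
    (@En.n l14535 (nat_lit 492) (nat_lit 12) (nat_lit 6))
    (@En.n l14536 (nat_lit 492) (nat_lit 13) (nat_lit 3))
    (@En.n l50 (nat_lit 493) (nat_lit 0) (nat_lit 3))
    (@En.n l3429 (nat_lit 496) (nat_lit 0) (nat_lit 7))
    (@En.n l217 (nat_lit 493) (nat_lit 3) (nat_lit 13))
    (@En.n l18655 (nat_lit 1115) (nat_lit 8) (nat_lit 13))
    (@En.n l1106 (nat_lit 580) (nat_lit 9) (nat_lit 10))
    (@En.n l3429 (nat_lit 446) (nat_lit 9) (nat_lit 4))
    (@En.n l12088 (nat_lit 505) (nat_lit 12) (nat_lit 6))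
    (@En.n l7734 (nat_lit 409) (nat_lit 11) (nat_lit 3))
    (@En.n l7383 (nat_lit 3202) (nat_lit 0) (nat_lit 9))
    (@En.n l14100 (nat_lit 405) (nat_lit 14) (nat_lit 12))
    (@En.n l1690 (nat_lit 413) (nat_lit 10) (nat_lit 13))
    (@En.n l67 (nat_lit 489) (nat_lit 15) (nat_lit 2))))
  (@Cl.mk (nat_lit 0x20006000a000d0008000e000300020006000a000d000a00080003000e0006) (nat_lit 0x6a0c0007b30000) (nat_lit 16) Lb.e (@T16.mk En
    (@En.n l25953 (nat_lit 488) (nat_lit 7) (nat_lit 6))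
    (@En.n l22485 (nat_lit 668) (nat_lit 1) (nat_lit 14))
    (@En.n l7 (nat_lit 415) (nat_lit 2) (nat_lit 3))
    (@En.n l10295 (nat_lit 3468) (nat_lit 11) (nat_lit 8))
    (@En.n l25955 (nat_lit 431) (nat_lit 4) (nat_lit 10))
    (@En.i (nat_lit 13508) (nat_lit 5) (nat_lit 13))
    (@En.n l10295 (nat_lit 6144) (nat_lit 14) (nat_lit 10))
    (@En.n l2037 (nat_lit 486) (nat_lit 7) (nat_lit 6))
    (@En.n l107 (nat_lit 490) (nat_lit 8) (nat_lit 2))
    (@En.n l3596 (nat_lit 486) (nat_lit 9) (nat_lit 3))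
    (@En.i (nat_lit 13604) (nat_lit 0) (nat_lit 14))
    (@En.n l10295 (nat_lit 499) (nat_lit 2) (nat_lit 8))
    (@En.i (nat_lit 1159) (nat_lit 13) (nat_lit 13))
    (@En.n l6681 (nat_lit 895) (nat_lit 4) (nat_lit 10))
    (@En.n l9771 (nat_lit 478) (nat_lit 5) (nat_lit 6))
    (@En.n l17 (nat_lit 490) (nat_lit 15) (nat_lit 2))))
  (@Cl.mk (nat_lit 0x20006000a000e000d0002000a00030006000a000d000a00060003000e0006) (nat_lit 0x61200007130000) (nat_lit 16) Lb.e (@T16.mk En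
    (@En.n l8466 (nat_lit 487) (nat_lit 5) (nat_lit 6))
    (@En.n l1708 (nat_lit 669) (nat_lit 1) (nat_lit 14))
    (@En.n l7 (nat_lit 414) (nat_lit 2) (nat_lit 3))
    (@En.n l561 (nat_lit 3207) (nat_lit 8) (nat_lit 6))
    (@En.n l420 (nat_lit 430) (nat_lit 4) (nat_lit 10))
    (@En.i (nat_lit 275) (nat_lit 5) (nat_lit 13))
    (@En.n l1643 (nat_lit 6143) (nat_lit 12) (nat_lit 10))
    (@En.i (nat_lit 13604) (nat_lit 12) (nat_lit 6))
    (@En.n l615 (nat_lit 486) (nat_lit 8) (nat_lit 3))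
    (@En.i (nat_lit 1587) (nat_lit 0) (nat_lit 10))
    (@En.n l107 (nat_lit 491) (nat_lit 10) (nat_lit 2))
    (@En.n l1643 (nat_lit 486) (nat_lit 12) (nat_lit 13))
    (@En.n l619 (nat_lit 298) (nat_lit 13) (nat_lit 14))
    (@En.n l3178 (nat_lit 896) (nat_lit 2) (nat_lit 10))
    (@En.i (nat_lit 479) (nat_lit 3) (nat_lit 6))
    (@En.n l17 (nat_lit 491) (nat_lit 15) (nat_lit 2))))
  (@Cl.mk (nat_lit 0x2000800030006000e000a0002000d000c0008000300060004000a000e000d) (nat_lit 0x880350000401) (nat_lit 16) Lb.e (@T16.mk En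
    (@En.n l16398 (nat_lit 489) (nat_lit 7) (nat_lit 13))
    (@En.n l619 (nat_lit 1122) (nat_lit 1) (nat_lit 14))
    (@En.n l6780 (nat_lit 582) (nat_lit 2) (nat_lit 10))
    (@En.i (nat_lit 455) (nat_lit 3) (nat_lit 4))
    (@En.n l3971 (nat_lit 503) (nat_lit 4) (nat_lit 6))
    (@En.n l3473 (nat_lit 407) (nat_lit 5) (nat_lit 3))
    (@En.n l947 (nat_lit 3204) (nat_lit 0) (nat_lit 8))
    (@En.n l61 (nat_lit 445) (nat_lit 8) (nat_lit 12))
    (@En.n l2805 (nat_lit 487) (nat_lit 9) (nat_lit 13))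
    (@En.n l7 (nat_lit 492) (nat_lit 9) (nat_lit 2))
    (@En.n l8170 (nat_lit 487) (nat_lit 11) (nat_lit 10))
    (@En.n l1290 (nat_lit 6072) (nat_lit 12) (nat_lit 14))
    (@En.i (nat_lit 13532) (nat_lit 12) (nat_lit 6))
    (@En.n l2940 (nat_lit 489) (nat_lit 3) (nat_lit 3))
    (@En.n l3348 (nat_lit 1586) (nat_lit 0) (nat_lit 8))
    (@En.n l107 (nat_lit 492) (nat_lit 15) (nat_lit 2))))
  (@Cl.mk (nat_lit 0x20006000e000a0002000d000c000a000300060004000a000d0006000e0003) (nat_lit 0xb801200004b000) (nat_lit 16) Lb.e (@T16.mk En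
    (@En.i (nat_lit 489) (nat_lit 4) (nat_lit 3))
    (@En.n l3082 (nat_lit 13532) (nat_lit 0) (nat_lit 14))
    (@En.i (nat_lit 497) (nat_lit 2) (nat_lit 6))
    (@En.n l18655 (nat_lit 1113) (nat_lit 8) (nat_lit 13))
    (@En.n l1106 (nat_lit 581) (nat_lit 4) (nat_lit 10))
    (@En.n l255 (nat_lit 456) (nat_lit 5) (nat_lit 4))
    (@En.n l12088 (nat_lit 504) (nat_lit 6) (nat_lit 6))
    (@En.i (nat_lit 408) (nat_lit 7) (nat_lit 3))
    (@En.n l1897 (nat_lit 3201) (nat_lit 0) (nat_lit 10))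
    (@En.n l1101 (nat_lit 444) (nat_lit 10) (nat_lit 12))
    (@En.n l1690 (nat_lit 488) (nat_lit 11) (nat_lit 13))
    (@En.n l67 (nat_lit 493) (nat_lit 11) (nat_lit 2))
    (@En.n l97 (nat_lit 488) (nat_lit 13) (nat_lit 10))
    (@En.n l7386 (nat_lit 6368) (nat_lit 1) (nat_lit 14))
    (@En.n l1738 (nat_lit 489) (nat_lit 2) (nat_lit 6))
    (@En.n l18 (nat_lit 493) (nat_lit 15) (nat_lit 2))))
  (@Cl.mk (nat_lit 0x20009000500090009000c000a000800070004000700070006000b000e0008) (nat_lit 0x4000000606) (nat_lit 16) Lb.e (@T16.mk En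
    (@En.n l22037 (nat_lit 1420) (nat_lit 2) (nat_lit 8))
    (@En.n l22038 (nat_lit 2096) (nat_lit 4) (nat_lit 14))
    (@En.n l13114 (nat_lit 1423) (nat_lit 2) (nat_lit 11))
    (@En.n l2221 (nat_lit 979) (nat_lit 3) (nat_lit 6))
    (@En.n l17364 (nat_lit 496) (nat_lit 4) (nat_lit 7))
    (@En.n l22038 (nat_lit 1564) (nat_lit 5) (nat_lit 7))
    (@En.n l22039 (nat_lit 6944) (nat_lit 6) (nat_lit 4))
    (@En.i (nat_lit 487) (nat_lit 7) (nat_lit 7))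
    (@En.n l22037 (nat_lit 4455) (nat_lit 1) (nat_lit 8))
    (@En.n l10853 (nat_lit 1400) (nat_lit 10) (nat_lit 10))
    (@En.n l22040 (nat_lit 498) (nat_lit 6) (nat_lit 12))
    (@En.n l22041 (nat_lit 498) (nat_lit 7) (nat_lit 9))
    (@En.n l22037 (nat_lit 7816) (nat_lit 13) (nat_lit 9))
    (@En.n l22042 (nat_lit 1585) (nat_lit 14) (nat_lit 5))
    (@En.n l22043 (nat_lit 1580) (nat_lit 0) (nat_lit 9))
    (@En.n l7 (nat_lit 494) (nat_lit 15) (nat_lit 2))))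
  (@Cl.mk (nat_lit 0x2000500090009000c000a000900080004000700070006000b0007000e0008) (nat_lit 0x50100004000) (nat_lit 16) Lb.e (@T16.mk En
    (@En.n l9696 (nat_lit 1420) (nat_lit 1) (nat_lit 8))
    (@En.n l396 (nat_lit 1710) (nat_lit 1) (nat_lit 14))
    (@En.n l253 (nat_lit 3175) (nat_lit 2) (nat_lit 7))
    (@En.n l3548 (nat_lit 1422) (nat_lit 3) (nat_lit 11))
    (@En.n l575 (nat_lit 976) (nat_lit 4) (nat_lit 6))
    (@En.n l3 (nat_lit 497) (nat_lit 5) (nat_lit 7))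
    (@En.n l9697 (nat_lit 1567) (nat_lit 6) (nat_lit 7))
    (@En.n l9698 (nat_lit 7179) (nat_lit 7) (nat_lit 4))
    (@En.n l644 (nat_lit 413) (nat_lit 8) (nat_lit 8))
    (@En.n l9699 (nat_lit 6624) (nat_lit 10) (nat_lit 9))
    (@En.n l9700 (nat_lit 1410) (nat_lit 11) (nat_lit 10))
    (@En.n l9701 (nat_lit 499) (nat_lit 12) (nat_lit 12))
    (@En.n l9702 (nat_lit 499) (nat_lit 13) (nat_lit 9))
    (@En.n l9699 (nat_lit 6485) (nat_lit 14) (nat_lit 9))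
    (@En.n l9703 (nat_lit 494) (nat_lit 13) (nat_lit 5))
    (@En.n l18 (nat_lit 495) (nat_lit 15) (nat_lit 2))))
noncomputable def a31 : T16 Cl := @T16.mk Cl
  (@Cl.mk (nat_lit 0x200080005000e00090002000c000b00090008000400070005000b000e0007) (nat_lit 0x101501000500) (nat_lit 16) Lb.e (@T16.mk En
    (@En.n l12209 (nat_lit 1590) (nat_lit 5) (nat_lit 7))
    (@En.n l619 (nat_lit 2097) (nat_lit 7) (nat_lit 14))
    (@En.n l34451 (nat_lit 1455) (nat_lit 2) (nat_lit 11))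
    (@En.i (nat_lit 1259) (nat_lit 3) (nat_lit 5))
    (@En.n l9584 (nat_lit 1133) (nat_lit 4) (nat_lit 7))
    (@En.n l34451 (nat_lit 6945) (nat_lit 5) (nat_lit 4))
    (@En.i (nat_lit 492) (nat_lit 6) (nat_lit 8))
    (@En.n l34452 (nat_lit 4453) (nat_lit 13) (nat_lit 9))
    (@En.n l61 (nat_lit 1397) (nat_lit 9) (nat_lit 11))
    (@En.n l2805 (nat_lit 494) (nat_lit 10) (nat_lit 12))
    (@En.n l7 (nat_lit 496) (nat_lit 10) (nat_lit 2))
    (@En.n l8170 (nat_lit 494) (nat_lit 12) (nat_lit 9))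
    (@En.n l22023 (nat_lit 7489) (nat_lit 1) (nat_lit 14))
    (@En.n l4497 (nat_lit 1586) (nat_lit 14) (nat_lit 5))
    (@En.n l18092 (nat_lit 1582) (nat_lit 3) (nat_lit 8))
    (@En.n l107 (nat_lit 496) (nat_lit 15) (nat_lit 2))))
  (@Cl.mk (nat_lit 0x20005000e00090002000c000b000a0009000400070005000b0006000e0007) (nat_lit 0x1012010003000) (nat_lit 16) Lb.e (@T16.mk En
    (@En.n l5784 (nat_lit 1590) (nat_lit 4) (nat_lit 7))
    (@En.n l22092 (nat_lit 1709) (nat_lit 1) (nat_lit 14))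
    (@En.n l4985 (nat_lit 3174) (nat_lit 2) (nat_lit 6))
    (@En.n l1106 (nat_lit 1665) (nat_lit 3) (nat_lit 11))
    (@En.n l255 (nat_lit 993) (nat_lit 4) (nat_lit 5))
    (@En.n l22093 (nat_lit 1134) (nat_lit 5) (nat_lit 7))
    (@En.n l22094 (nat_lit 7183) (nat_lit 6) (nat_lit 4))
    (@En.n l644 (nat_lit 489) (nat_lit 12) (nat_lit 9))
    (@En.n l1897 (nat_lit 6627) (nat_lit 9) (nat_lit 10))
    (@En.n l8399 (nat_lit 1287) (nat_lit 10) (nat_lit 11))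
    (@En.n l1690 (nat_lit 495) (nat_lit 11) (nat_lit 12))
    (@En.n l67 (nat_lit 497) (nat_lit 11) (nat_lit 2))
    (@En.n l97 (nat_lit 495) (nat_lit 13) (nat_lit 9))
    (@En.n l2005 (nat_lit 7718) (nat_lit 1) (nat_lit 14))
    (@En.n l3440 (nat_lit 496) (nat_lit 13) (nat_lit 5))
    (@En.n l18 (nat_lit 497) (nat_lit 15) (nat_lit 2))))
  (@Cl.mk (nat_lit 0x20007000b000e00090002000a00050009000c0009000700060004000e0007) (nat_lit 0x7070007a300000) (nat_lit 16) Lb.e (@T16.mk En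
    (@En.n l14873 (nat_lit 494) (nat_lit 5) (nat_lit 7))
    (@En.n l14874 (nat_lit 1563) (nat_lit 1) (nat_lit 14))
    (@En.n l14875 (nat_lit 6943) (nat_lit 2) (nat_lit 4))
    (@En.n l1496 (nat_lit 491) (nat_lit 3) (nat_lit 6))
    (@En.i (nat_lit 4461) (nat_lit 4) (nat_lit 7))
    (@En.n l14876 (nat_lit 1438) (nat_lit 5) (nat_lit 9))
    (@En.n l1496 (nat_lit 13537) (nat_lit 6) (nat_lit 12))
    (@En.i (nat_lit 7814) (nat_lit 13) (nat_lit 9))
    (@En.n l1549 (nat_lit 1587) (nat_lit 14) (nat_lit 5))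
    (@En.n l6369 (nat_lit 1584) (nat_lit 10) (nat_lit 10))
    (@En.n l7 (nat_lit 498) (nat_lit 10) (nat_lit 2))
    (@En.i (nat_lit 1591) (nat_lit 12) (nat_lit 9))
    (@En.n l14877 (nat_lit 2098) (nat_lit 13) (nat_lit 14))
    (@En.n l12830 (nat_lit 1746) (nat_lit 2) (nat_lit 11))
    (@En.n l1496 (nat_lit 986) (nat_lit 3) (nat_lit 7))
    (@En.n l107 (nat_lit 498) (nat_lit 15) (nat_lit 2))))
  (@Cl.mk (nat_lit 0x200050009000c0009000800070004000e000700020007000b0008000e0009) (nat_lit 0x7a400000005600) (nat_lit 16) Lb.e (@T16.mk En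
    (@En.n l217 (nat_lit 1591) (nat_lit 11) (nat_lit 9))
    (@En.n l1546 (nat_lit 1712) (nat_lit 12) (nat_lit 14))
    (@En.n l6016 (nat_lit 3176) (nat_lit 13) (nat_lit 8))
    (@En.n l6017 (nat_lit 1502) (nat_lit 3) (nat_lit 11))
    (@En.n l6018 (nat_lit 985) (nat_lit 4) (nat_lit 7))
    (@En.n l107 (nat_lit 499) (nat_lit 5) (nat_lit 2))
    (@En.n l6019 (nat_lit 495) (nat_lit 6) (nat_lit 7))
    (@En.n l6020 (nat_lit 1682) (nat_lit 8) (nat_lit 14))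
    (@En.n l763 (nat_lit 7178) (nat_lit 8) (nat_lit 4))
    (@En.n l2900 (nat_lit 486) (nat_lit 3) (nat_lit 7))
    (@En.i (nat_lit 6628) (nat_lit 11) (nat_lit 8))
    (@En.n l3948 (nat_lit 1452) (nat_lit 12) (nat_lit 9))
    (@En.n l1358 (nat_lit 13543) (nat_lit 6) (nat_lit 12))
    (@En.i (nat_lit 6488) (nat_lit 14) (nat_lit 9))
    (@En.n l847 (nat_lit 498) (nat_lit 8) (nat_lit 5))
    (@En.n l50 (nat_lit 499) (nat_lit 15) (nat_lit 2))))
  (@Cl.mk (nat_lit 0x2000800030006000a000e000b0002000c0008000600050004000a000e000d) (nat_lit 0x91050000301) (nat_lit 16) Lb.e (@T16.mk En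
    (@En.n l6490 (nat_lit 442) (nat_lit 8) (nat_lit 13))
    (@En.n l619 (nat_lit 1377) (nat_lit 9) (nat_lit 14))
    (@En.n l4839 (nat_lit 802) (nat_lit 10) (nat_lit 10))
    (@En.n l763 (nat_lit 553) (nat_lit 3) (nat_lit 4))
    (@En.n l2900 (nat_lit 507) (nat_lit 4) (nat_lit 5))
    (@En.i (nat_lit 584) (nat_lit 5) (nat_lit 6))
    (@En.n l2900 (nat_lit 3209) (nat_lit 14) (nat_lit 8))
    (@En.n l765 (nat_lit 396) (nat_lit 8) (nat_lit 12))
    (@En.n l50 (nat_lit 500) (nat_lit 8) (nat_lit 2))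
    (@En.n l217 (nat_lit 437) (nat_lit 10) (nat_lit 11))
    (@En.n l1546 (nat_lit 492) (nat_lit 11) (nat_lit 14))
    (@En.n l1982 (nat_lit 1123) (nat_lit 12) (nat_lit 10))
    (@En.i (nat_lit 13576) (nat_lit 12) (nat_lit 6))
    (@En.n l6386 (nat_lit 442) (nat_lit 4) (nat_lit 3))
    (@En.n l2900 (nat_lit 1556) (nat_lit 0) (nat_lit 8))
    (@En.n l107 (nat_lit 500) (nat_lit 15) (nat_lit 2))))
  (@Cl.mk (nat_lit 0x20006000a000e000b0002000c000a000600050004000a000d0006000e0003) (nat_lit 0xc10500003b000) (nat_lit 16) Lb.e (@T16.mk En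
    (@En.i (nat_lit 442) (nat_lit 5) (nat_lit 3))
    (@En.n l2438 (nat_lit 13576) (nat_lit 0) (nat_lit 14))
    (@En.i (nat_lit 1567) (nat_lit 2) (nat_lit 6))
    (@En.i (nat_lit 1371) (nat_lit 5) (nat_lit 13))
    (@En.n l2106 (nat_lit 801) (nat_lit 10) (nat_lit 10))
    (@En.n l28 (nat_lit 554) (nat_lit 5) (nat_lit 4))
    (@En.i (nat_lit 506) (nat_lit 6) (nat_lit 5))
    (@En.n l2438 (nat_lit 585) (nat_lit 7) (nat_lit 6))
    (@En.n l77 (nat_lit 3735) (nat_lit 9) (nat_lit 10))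
    (@En.n l476 (nat_lit 394) (nat_lit 10) (nat_lit 12))
    (@En.n l67 (nat_lit 501) (nat_lit 10) (nat_lit 2))
    (@En.n l68 (nat_lit 436) (nat_lit 12) (nat_lit 11))
    (@En.n l4547 (nat_lit 493) (nat_lit 13) (nat_lit 14))
    (@En.n l638 (nat_lit 1201) (nat_lit 14) (nat_lit 10))
    (@En.n l1738 (nat_lit 442) (nat_lit 3) (nat_lit 6))
    (@En.n l18 (nat_lit 501) (nat_lit 15) (nat_lit 2))))
  (@Cl.mk (nat_lit 0x300030006000d000d000b00030003000d000a00050003000a000d000d0006) (nat_lit 0xab20070002000) (nat_lit 16) Lb.e (@T16.mk En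
    (@En.n l829 (nat_lit 1132) (nat_lit 0) (nat_lit 6))
    (@En.n l217 (nat_lit 506) (nat_lit 3) (nat_lit 13))
    (@En.i (nat_lit 3757) (nat_lit 5) (nat_lit 13))
    (@En.n l1836 (nat_lit 526) (nat_lit 3) (nat_lit 10))
    (@En.n l28 (nat_lit 509) (nat_lit 4) (nat_lit 3))
    (@En.n l3415 (nat_lit 438) (nat_lit 0) (nat_lit 5))
    (@En.i (nat_lit 857) (nat_lit 13) (nat_lit 10))
    (@En.n l476 (nat_lit 464) (nat_lit 8) (nat_lit 13))
    (@En.n l152 (nat_lit 508) (nat_lit 13) (nat_lit 3))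
    (@En.i (nat_lit 505) (nat_lit 0) (nat_lit 3))
    (@En.n l97 (nat_lit 439) (nat_lit 0) (nat_lit 11))
    (@En.n l97 (nat_lit 505) (nat_lit 3) (nat_lit 13))
    (@En.i (nat_lit 6238) (nat_lit 13) (nat_lit 13))
    (@En.n l2114 (nat_lit 507) (nat_lit 12) (nat_lit 6))
    (@En.n l1959 (nat_lit 507) (nat_lit 13) (nat_lit 3))
    (@En.n l50 (nat_lit 506) (nat_lit 0) (nat_lit 3))))
  (@Cl.mk (nat_lit 0x2000700030006000d000a000e00030002000d000900060003000a000e000d) (nat_lit 0xa1a001000300) (nat_lit 16) Lb.e (@T16.mk En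
    (@En.n l6490 (nat_lit 505) (nat_lit 9) (nat_lit 13))
    (@En.n l619 (nat_lit 3879) (nat_lit 1) (nat_lit 14))
    (@En.n l4361 (nat_lit 531) (nat_lit 2) (nat_lit 10))
    (@En.n l14727 (nat_lit 512) (nat_lit 3) (nat_lit 3))
    (@En.i (nat_lit 672) (nat_lit 0) (nat_lit 6))
    (@En.n l14727 (nat_lit 3211) (nat_lit 5) (nat_lit 9))
    (@En.n l14728 (nat_lit 476) (nat_lit 7) (nat_lit 13))
    (@En.n l50 (nat_lit 503) (nat_lit 7) (nat_lit 2))
    (@En.n l4263 (nat_lit 507) (nat_lit 8) (nat_lit 3))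
    (@En.n l4361 (nat_lit 13470) (nat_lit 0) (nat_lit 14))
    (@En.i (nat_lit 500) (nat_lit 11) (nat_lit 10))
    (@En.n l278 (nat_lit 6078) (nat_lit 12) (nat_lit 13))
    (@En.i (nat_lit 13523) (nat_lit 12) (nat_lit 6))
    (@En.n l6386 (nat_lit 505) (nat_lit 5) (nat_lit 3))
    (@En.n l14727 (nat_lit 1174) (nat_lit 0) (nat_lit 7))
    (@En.n l107 (nat_lit 503) (nat_lit 15) (nat_lit 2))))
  (@Cl.mk (nat_lit 0x20006000d000a000e00030002000d000b00060003000a000d0005000e0003) (nat_lit 0xa1a00800020000) (nat_lit 16) Lb.e (@T16.mk En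
    (@En.i (nat_lit 505) (nat_lit 6) (nat_lit 3))
    (@En.n l2438 (nat_lit 13523) (nat_lit 0) (nat_lit 14))
    (@En.n l7735 (nat_lit 1134) (nat_lit 2) (nat_lit 5))
    (@En.i (nat_lit 4048) (nat_lit 5) (nat_lit 13))
    (@En.n l5892 (nat_lit 530) (nat_lit 4) (nat_lit 10))
    (@En.n l28 (nat_lit 511) (nat_lit 5) (nat_lit 3))
    (@En.n l2438 (nat_lit 671) (nat_lit 6) (nat_lit 6))
    (@En.n l77 (nat_lit 3737) (nat_lit 8) (nat_lit 11))
    (@En.n l7705 (nat_lit 475) (nat_lit 9) (nat_lit 13))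
    (@En.n l67 (nat_lit 504) (nat_lit 9) (nat_lit 2))
    (@En.n l107 (nat_lit 506) (nat_lit 10) (nat_lit 3))
    (@En.n l1106 (nat_lit 13469) (nat_lit 0) (nat_lit 14))
    (@En.i (nat_lit 501) (nat_lit 13) (nat_lit 10))
    (@En.n l1106 (nat_lit 6228) (nat_lit 14) (nat_lit 13))
    (@En.n l1738 (nat_lit 505) (nat_lit 4) (nat_lit 6))
    (@En.n l18 (nat_lit 504) (nat_lit 15) (nat_lit 2))))
  (@Cl.mk (nat_lit 0x2000d000a00060003000a000d000d0006000300030006000d000a000e0003) (nat_lit 0x70003b10000a1b0) (nat_lit 16) Lb.e (@T16.mk En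
    (@En.n l107 (nat_lit 502) (nat_lit 9) (nat_lit 3))
    (@En.n l1106 (nat_lit 13466) (nat_lit 0) (nat_lit 14))
    (@En.i (nat_lit 442) (nat_lit 2) (nat_lit 10))
    (@En.n l1651 (nat_lit 6079) (nat_lit 13) (nat_lit 13))
    (@En.n l12794 (nat_lit 503) (nat_lit 12) (nat_lit 6))
    (@En.n l12795 (nat_lit 503) (nat_lit 13) (nat_lit 3))
    (@En.n l50 (nat_lit 504) (nat_lit 0) (nat_lit 3))
    (@En.n l14795 (nat_lit 1133) (nat_lit 0) (nat_lit 6))
    (@En.n l217 (nat_lit 504) (nat_lit 3) (nat_lit 13))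
    (@En.i (nat_lit 3754) (nat_lit 5) (nat_lit 13))
    (@En.n l5892 (nat_lit 529) (nat_lit 11) (nat_lit 10))
    (@En.n l28 (nat_lit 510) (nat_lit 11) (nat_lit 3))
    (@En.n l3415 (nat_lit 670) (nat_lit 0) (nat_lit 6))
    (@En.i (nat_lit 862) (nat_lit 14) (nat_lit 10))
    (@En.n l7705 (nat_lit 474) (nat_lit 8) (nat_lit 13))
    (@En.n l67 (nat_lit 505) (nat_lit 15) (nat_lit 2))))
  (@Cl.mk (nat_lit 0x20006000d000d000b00030003000d000b00050003000a000d0005000e0003) (nat_lit 0xab20010003b000) (nat_lit 16) Lb.e (@T16.mk En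
    (@En.i (nat_lit 502) (nat_lit 15) (nat_lit 3))
    (@En.n l699 (nat_lit 13503) (nat_lit 0) (nat_lit 14))
    (@En.i (nat_lit 1135) (nat_lit 2) (nat_lit 5))
    (@En.i (nat_lit 4044) (nat_lit 5) (nat_lit 13))
    (@En.n l1836 (nat_lit 528) (nat_lit 4) (nat_lit 10))
    (@En.n l28 (nat_lit 513) (nat_lit 5) (nat_lit 3))
    (@En.i (nat_lit 673) (nat_lit 6) (nat_lit 5))
    (@En.n l77 (nat_lit 859) (nat_lit 8) (nat_lit 11))
    (@En.n l476 (nat_lit 465) (nat_lit 9) (nat_lit 13))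
    (@En.n l152 (nat_lit 522) (nat_lit 9) (nat_lit 3))
    (@En.i (nat_lit 504) (nat_lit 10) (nat_lit 3))
    (@En.n l97 (nat_lit 851) (nat_lit 12) (nat_lit 11))
    (@En.n l97 (nat_lit 504) (nat_lit 13) (nat_lit 13))
    (@En.i (nat_lit 6236) (nat_lit 14) (nat_lit 13))
    (@En.n l1738 (nat_lit 502) (nat_lit 13) (nat_lit 6))
    (@En.n l18 (nat_lit 506) (nat_lit 15) (nat_lit 2))))
  (@Cl.mk (nat_lit 0x2000700030006000d000d000b00030003000d000900050003000a000e000d) (nat_lit 0xab2001000301) (nat_lit 16) Lb.e (@T16.mk En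
    (@En.n l1708 (nat_lit 502) (nat_lit 2) (nat_lit 13))
    (@En.n l1063 (nat_lit 3874) (nat_lit 1) (nat_lit 14))
    (@En.n l890 (nat_lit 524) (nat_lit 2) (nat_lit 10))
    (@En.n l28 (nat_lit 514) (nat_lit 3) (nat_lit 3))
    (@En.n l2438 (nat_lit 674) (nat_lit 4) (nat_lit 5))
    (@En.i (nat_lit 856) (nat_lit 5) (nat_lit 9))
    (@En.n l476 (nat_lit 466) (nat_lit 7) (nat_lit 13))
    (@En.n l152 (nat_lit 517) (nat_lit 7) (nat_lit 3))
    (@En.n l2438 (nat_lit 503) (nat_lit 8) (nat_lit 3))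
    (@En.n l4684 (nat_lit 850) (nat_lit 10) (nat_lit 11))
    (@En.n l10815 (nat_lit 503) (nat_lit 11) (nat_lit 13))
    (@En.n l1683 (nat_lit 6332) (nat_lit 12) (nat_lit 13))
    (@En.n l699 (nat_lit 13503) (nat_lit 12) (nat_lit 6))
    (@En.n l1063 (nat_lit 502) (nat_lit 14) (nat_lit 3))
    (@En.i (nat_lit 1172) (nat_lit 0) (nat_lit 7))
    (@En.n l18 (nat_lit 507) (nat_lit 15) (nat_lit 2))))
  (@Cl.mk (nat_lit 0x2000c0003000d000a00040003000a000d000d0006000300030006000e000d) (nat_lit 0x30700030000008b) (nat_lit 16) Lb.e (@T16.mk En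
    (@En.i (nat_lit 502) (nat_lit 12) (nat_lit 13))
    (@En.i (nat_lit 6311) (nat_lit 1) (nat_lit 14))
    (@En.n l2114 (nat_lit 517) (nat_lit 12) (nat_lit 6))
    (@En.n l1959 (nat_lit 517) (nat_lit 13) (nat_lit 3))
    (@En.n l50 (nat_lit 522) (nat_lit 0) (nat_lit 3))
    (@En.n l829 (nat_lit 1136) (nat_lit 0) (nat_lit 6))
    (@En.n l217 (nat_lit 522) (nat_lit 3) (nat_lit 13))
    (@En.i (nat_lit 4057) (nat_lit 8) (nat_lit 13))
    (@En.n l1599 (nat_lit 523) (nat_lit 9) (nat_lit 10))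
    (@En.n l28 (nat_lit 515) (nat_lit 9) (nat_lit 3))
    (@En.i (nat_lit 675) (nat_lit 0) (nat_lit 4))
    (@En.i (nat_lit 855) (nat_lit 12) (nat_lit 10))
    (@En.n l2568 (nat_lit 921) (nat_lit 13) (nat_lit 13))
    (@En.n l117 (nat_lit 502) (nat_lit 8) (nat_lit 3))
    (@En.i (nat_lit 806) (nat_lit 0) (nat_lit 12))
    (@En.n l3 (nat_lit 508) (nat_lit 15) (nat_lit 2))))
  (@Cl.mk (nat_lit 0x300030006000d000d000c00030003000d0004000b0003000a000d000d0005) (nat_lit 0x10802000) (nat_lit 16) Lb.e (@T16.mk En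
    (@En.n l829 (nat_lit 308) (nat_lit 0) (nat_lit 5))
    (@En.n l217 (nat_lit 513) (nat_lit 3) (nat_lit 13))
    (@En.i (nat_lit 3755) (nat_lit 5) (nat_lit 13))
    (@En.i (nat_lit 86) (nat_lit 10) (nat_lit 10))
    (@En.i (nat_lit 502) (nat_lit 4) (nat_lit 3))
    (@En.i (nat_lit 5865) (nat_lit 0) (nat_lit 11))
    (@En.i (nat_lit 542) (nat_lit 6) (nat_lit 4))
    (@En.n l476 (nat_lit 463) (nat_lit 8) (nat_lit 13))
    (@En.n l152 (nat_lit 515) (nat_lit 13) (nat_lit 3))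
    (@En.i (nat_lit 510) (nat_lit 0) (nat_lit 3))
    (@En.n l619 (nat_lit 519) (nat_lit 0) (nat_lit 12))
    (@En.n l97 (nat_lit 510) (nat_lit 3) (nat_lit 13))
    (@En.i (nat_lit 6322) (nat_lit 13) (nat_lit 13))
    (@En.n l2114 (nat_lit 514) (nat_lit 12) (nat_lit 6))
    (@En.n l1959 (nat_lit 514) (nat_lit 13) (nat_lit 3))
    (@En.n l50 (nat_lit 513) (nat_lit 0) (nat_lit 3))))
  (@Cl.mk (nat_lit 0x2000d0005000b0003000a000d000d0005000300030006000d000b000e0003) (nat_lit 0x70802000000b000) (nat_lit 16) Lb.e (@T16.mk En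
    (@En.n l107 (nat_lit 509) (nat_lit 9) (nat_lit 3))
    (@En.n l1106 (nat_lit 13471) (nat_lit 0) (nat_lit 14))
    (@En.i (nat_lit 545) (nat_lit 2) (nat_lit 11))
    (@En.n l1106 (nat_lit 6081) (nat_lit 13) (nat_lit 13))
    (@En.n l14580 (nat_lit 512) (nat_lit 12) (nat_lit 6))
    (@En.n l14581 (nat_lit 512) (nat_lit 13) (nat_lit 3))
    (@En.n l50 (nat_lit 511) (nat_lit 0) (nat_lit 3))
    (@En.n l14582 (nat_lit 314) (nat_lit 0) (nat_lit 5))
    (@En.n l217 (nat_lit 511) (nat_lit 3) (nat_lit 13))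
    (@En.i (nat_lit 3753) (nat_lit 10) (nat_lit 13))
    (@En.n l1106 (nat_lit 88) (nat_lit 11) (nat_lit 10))
    (@En.i (nat_lit 505) (nat_lit 11) (nat_lit 3))
    (@En.n l14037 (nat_lit 5870) (nat_lit 0) (nat_lit 11))
    (@En.n l117 (nat_lit 546) (nat_lit 14) (nat_lit 5))
    (@En.n l7705 (nat_lit 470) (nat_lit 8) (nat_lit 13))
    (@En.n l67 (nat_lit 510) (nat_lit 15) (nat_lit 2))))
  (@Cl.mk (nat_lit 0x20006000d000b000e00030002000d0005000c0003000a000d0004000e0003) (nat_lit 0x20902b040) (nat_lit 16) Lb.e (@T16.mk En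
    (@En.i (nat_lit 510) (nat_lit 6) (nat_lit 3))
    (@En.n l1865 (nat_lit 13521) (nat_lit 0) (nat_lit 14))
    (@En.i (nat_lit 313) (nat_lit 2) (nat_lit 4))
    (@En.i (nat_lit 4052) (nat_lit 10) (nat_lit 13))
    (@En.n l1106 (nat_lit 94) (nat_lit 11) (nat_lit 10))
    (@En.i (nat_lit 504) (nat_lit 5) (nat_lit 3))
    (@En.n l1865 (nat_lit 5872) (nat_lit 7) (nat_lit 12))
    (@En.n l117 (nat_lit 599) (nat_lit 14) (nat_lit 5))
    (@En.n l7705 (nat_lit 472) (nat_lit 9) (nat_lit 13))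
    (@En.n l67 (nat_lit 511) (nat_lit 9) (nat_lit 2))
    (@En.n l107 (nat_lit 513) (nat_lit 10) (nat_lit 3))
    (@En.n l1106 (nat_lit 13473) (nat_lit 0) (nat_lit 14))
    (@En.i (nat_lit 548) (nat_lit 13) (nat_lit 11))
    (@En.n l1106 (nat_lit 6230) (nat_lit 14) (nat_lit 13))
    (@En.n l1738 (nat_lit 510) (nat_lit 4) (nat_lit 6))
    (@En.n l18 (nat_lit 511) (nat_lit 15) (nat_lit 2))))
noncomputable def a32 : T16 Cl := @T16.mk Cl
  (@Cl.mk (nat_lit 0x2000600030006000d000b000e00030002000d0005000a0003000a000e000d) (nat_lit 0x1080201) (nat_lit 16) Lb.e (@T16.mk En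
    (@En.n l13825 (nat_lit 510) (nat_lit 9) (nat_lit 13))
    (@En.n l5577 (nat_lit 3891) (nat_lit 10) (nat_lit 14))
    (@En.i (nat_lit 85) (nat_lit 2) (nat_lit 10))
    (@En.n l6078 (nat_lit 503) (nat_lit 3) (nat_lit 3))
    (@En.i (nat_lit 5871) (nat_lit 4) (nat_lit 10))
    (@En.i (nat_lit 598) (nat_lit 14) (nat_lit 5))
    (@En.n l3337 (nat_lit 473) (nat_lit 7) (nat_lit 13))
    (@En.n l17 (nat_lit 512) (nat_lit 7) (nat_lit 2))
    (@En.n l2869 (nat_lit 514) (nat_lit 8) (nat_lit 3))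
    (@En.n l5448 (nat_lit 13472) (nat_lit 0) (nat_lit 14))
    (@En.n l2579 (nat_lit 547) (nat_lit 11) (nat_lit 11))
    (@En.n l2036 (nat_lit 6080) (nat_lit 12) (nat_lit 13))
    (@En.i (nat_lit 13521) (nat_lit 12) (nat_lit 6))
    (@En.n l14602 (nat_lit 510) (nat_lit 5) (nat_lit 3))
    (@En.i (nat_lit 1061) (nat_lit 0) (nat_lit 6))
    (@En.n l28 (nat_lit 512) (nat_lit 15) (nat_lit 2))))
  (@Cl.mk (nat_lit 0x20006000d000d000c00030003000d0004000c0003000a000d0004000e0003) (nat_lit 0x100010902b040) (nat_lit 16) Lb.e (@T16.mk En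
    (@En.i (nat_lit 509) (nat_lit 15) (nat_lit 3))
    (@En.n l699 (nat_lit 13519) (nat_lit 0) (nat_lit 14))
    (@En.i (nat_lit 310) (nat_lit 2) (nat_lit 4))
    (@En.i (nat_lit 4050) (nat_lit 5) (nat_lit 13))
    (@En.i (nat_lit 89) (nat_lit 4) (nat_lit 10))
    (@En.i (nat_lit 506) (nat_lit 5) (nat_lit 3))
    (@En.i (nat_lit 5867) (nat_lit 7) (nat_lit 12))
    (@En.i (nat_lit 544) (nat_lit 7) (nat_lit 4))
    (@En.n l476 (nat_lit 467) (nat_lit 9) (nat_lit 13))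
    (@En.n l152 (nat_lit 520) (nat_lit 9) (nat_lit 3))
    (@En.i (nat_lit 511) (nat_lit 10) (nat_lit 3))
    (@En.n l619 (nat_lit 521) (nat_lit 12) (nat_lit 12))
    (@En.n l97 (nat_lit 511) (nat_lit 13) (nat_lit 13))
    (@En.i (nat_lit 6237) (nat_lit 14) (nat_lit 13))
    (@En.n l1738 (nat_lit 509) (nat_lit 13) (nat_lit 6))
    (@En.n l18 (nat_lit 513) (nat_lit 15) (nat_lit 2))))
  (@Cl.mk (nat_lit 0x2000600030006000d000d000c00030003000d0004000a0003000a000e000d) (nat_lit 0x10001080221) (nat_lit 16) Lb.e (@T16.mk En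
    (@En.n l1708 (nat_lit 509) (nat_lit 2) (nat_lit 13))
    (@En.n l1063 (nat_lit 3815) (nat_lit 1) (nat_lit 14))
    (@En.i (nat_lit 87) (nat_lit 2) (nat_lit 10))
    (@En.i (nat_lit 507) (nat_lit 3) (nat_lit 3))
    (@En.n l649 (nat_lit 5869) (nat_lit 4) (nat_lit 10))
    (@En.i (nat_lit 543) (nat_lit 5) (nat_lit 4))
    (@En.n l476 (nat_lit 468) (nat_lit 7) (nat_lit 13))
    (@En.n l152 (nat_lit 516) (nat_lit 7) (nat_lit 3))
    (@En.n l1865 (nat_lit 512) (nat_lit 8) (nat_lit 3))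
    (@En.n l619 (nat_lit 518) (nat_lit 10) (nat_lit 12))
    (@En.n l1867 (nat_lit 512) (nat_lit 11) (nat_lit 13))
    (@En.i (nat_lit 6333) (nat_lit 12) (nat_lit 13))
    (@En.n l699 (nat_lit 13519) (nat_lit 12) (nat_lit 6))
    (@En.n l1063 (nat_lit 509) (nat_lit 14) (nat_lit 3))
    (@En.i (nat_lit 1063) (nat_lit 0) (nat_lit 6))
    (@En.n l18 (nat_lit 514) (nat_lit 15) (nat_lit 2))))
  (@Cl.mk (nat_lit 0x2000d0003000d0003000b0003000a000d000d0005000300030006000e000d) (nat_lit 0x7080200000001) (nat_lit 16) Lb.e (@T16.mk En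
    (@En.i (nat_lit 509) (nat_lit 12) (nat_lit 13))
    (@En.i (nat_lit 6316) (nat_lit 1) (nat_lit 14))
    (@En.n l2114 (nat_lit 516) (nat_lit 12) (nat_lit 6))
    (@En.n l1959 (nat_lit 516) (nat_lit 13) (nat_lit 3))
    (@En.n l50 (nat_lit 520) (nat_lit 0) (nat_lit 3))
    (@En.n l829 (nat_lit 307) (nat_lit 0) (nat_lit 5))
    (@En.n l217 (nat_lit 520) (nat_lit 3) (nat_lit 13))
    (@En.i (nat_lit 4056) (nat_lit 8) (nat_lit 13))
    (@En.n l2568 (nat_lit 90) (nat_lit 9) (nat_lit 10))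
    (@En.i (nat_lit 508) (nat_lit 9) (nat_lit 3))
    (@En.i (nat_lit 5866) (nat_lit 11) (nat_lit 11))
    (@En.i (nat_lit 519) (nat_lit 11) (nat_lit 3))
    (@En.n l2568 (nat_lit 926) (nat_lit 0) (nat_lit 13))
    (@En.n l117 (nat_lit 509) (nat_lit 8) (nat_lit 3))
    (@En.i (nat_lit 523) (nat_lit 0) (nat_lit 13))
    (@En.n l3 (nat_lit 515) (nat_lit 15) (nat_lit 2))))
  (@Cl.mk (nat_lit 0x2000600030006000e000d0002000d0003000d0003000a0003000a000e000d) (nat_lit 0x10000080221) (nat_lit 16) Lb.e (@T16.mk En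
    (@En.n l1708 (nat_lit 515) (nat_lit 7) (nat_lit 13))
    (@En.n l1063 (nat_lit 3814) (nat_lit 8) (nat_lit 14))
    (@En.i (nat_lit 92) (nat_lit 2) (nat_lit 10))
    (@En.i (nat_lit 517) (nat_lit 3) (nat_lit 3))
    (@En.i (nat_lit 5868) (nat_lit 11) (nat_lit 10))
    (@En.i (nat_lit 518) (nat_lit 5) (nat_lit 3))
    (@En.i (nat_lit 924) (nat_lit 7) (nat_lit 13))
    (@En.n l117 (nat_lit 514) (nat_lit 7) (nat_lit 3))
    (@En.i (nat_lit 525) (nat_lit 9) (nat_lit 13))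
    (@En.n l3 (nat_lit 516) (nat_lit 9) (nat_lit 2))
    (@En.i (nat_lit 514) (nat_lit 11) (nat_lit 13))
    (@En.i (nat_lit 6319) (nat_lit 12) (nat_lit 14))
    (@En.n l699 (nat_lit 13520) (nat_lit 12) (nat_lit 6))
    (@En.n l1063 (nat_lit 515) (nat_lit 3) (nat_lit 3))
    (@En.i (nat_lit 1064) (nat_lit 0) (nat_lit 6))
    (@En.n l18 (nat_lit 516) (nat_lit 15) (nat_lit 2))))
  (@Cl.mk (nat_lit 0x2000700030006000e000d0002000c0003000d000900040003000a000e000d) (nat_lit 0x8b0306000231) (nat_lit 16) Lb.e (@T16.mk En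
    (@En.n l1708 (nat_lit 508) (nat_lit 7) (nat_lit 13))
    (@En.n l1063 (nat_lit 3733) (nat_lit 8) (nat_lit 14))
    (@En.n l1599 (nat_lit 525) (nat_lit 2) (nat_lit 10))
    (@En.n l28 (nat_lit 516) (nat_lit 3) (nat_lit 3))
    (@En.n l1393 (nat_lit 864) (nat_lit 4) (nat_lit 4))
    (@En.i (nat_lit 854) (nat_lit 5) (nat_lit 9))
    (@En.i (nat_lit 928) (nat_lit 7) (nat_lit 13))
    (@En.n l117 (nat_lit 507) (nat_lit 7) (nat_lit 3))
    (@En.i (nat_lit 808) (nat_lit 9) (nat_lit 12))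
    (@En.n l3 (nat_lit 517) (nat_lit 9) (nat_lit 2))
    (@En.i (nat_lit 507) (nat_lit 11) (nat_lit 13))
    (@En.i (nat_lit 6321) (nat_lit 12) (nat_lit 14))
    (@En.n l699 (nat_lit 13500) (nat_lit 12) (nat_lit 6))
    (@En.n l1063 (nat_lit 508) (nat_lit 3) (nat_lit 3))
    (@En.i (nat_lit 1186) (nat_lit 0) (nat_lit 7))
    (@En.n l18 (nat_lit 517) (nat_lit 15) (nat_lit 2))))
  (@Cl.mk (nat_lit 0x2000600030006000e000c0002000d000c00040003000a0004000a000e000d) (nat_lit 0xa0040080220) (nat_lit 16) Lb.e (@T16.mk En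
    (@En.n l1708 (nat_lit 519) (nat_lit 7) (nat_lit 13))
    (@En.n l1063 (nat_lit 3809) (nat_lit 1) (nat_lit 14))
    (@En.i (nat_lit 109) (nat_lit 2) (nat_lit 10))
    (@En.n l1393 (nat_lit 850) (nat_lit 3) (nat_lit 4))
    (@En.n l287 (nat_lit 7592) (nat_lit 4) (nat_lit 10))
    (@En.n l11 (nat_lit 516) (nat_lit 5) (nat_lit 3))
    (@En.i (nat_lit 534) (nat_lit 6) (nat_lit 4))
    (@En.n l55 (nat_lit 517) (nat_lit 8) (nat_lit 12))
    (@En.n l615 (nat_lit 524) (nat_lit 9) (nat_lit 13))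
    (@En.n l3 (nat_lit 518) (nat_lit 9) (nat_lit 2))
    (@En.i (nat_lit 543) (nat_lit 11) (nat_lit 12))
    (@En.i (nat_lit 6320) (nat_lit 12) (nat_lit 14))
    (@En.n l699 (nat_lit 13504) (nat_lit 12) (nat_lit 6))
    (@En.n l1063 (nat_lit 519) (nat_lit 3) (nat_lit 3))
    (@En.i (nat_lit 295) (nat_lit 0) (nat_lit 6))
    (@En.n l18 (nat_lit 518) (nat_lit 15) (nat_lit 2))))
  (@Cl.mk (nat_lit 0x2000d000c00040003000b0004000a000d000d0005000300030006000e000c) (nat_lit 0x400702b000000a) (nat_lit 16) Lb.e (@T16.mk En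
    (@En.i (nat_lit 542) (nat_lit 12) (nat_lit 12))
    (@En.i (nat_lit 6315) (nat_lit 1) (nat_lit 14))
    (@En.n l2114 (nat_lit 518) (nat_lit 12) (nat_lit 6))
    (@En.n l1959 (nat_lit 518) (nat_lit 13) (nat_lit 3))
    (@En.n l50 (nat_lit 521) (nat_lit 0) (nat_lit 3))
    (@En.n l829 (nat_lit 296) (nat_lit 0) (nat_lit 5))
    (@En.n l217 (nat_lit 521) (nat_lit 3) (nat_lit 13))
    (@En.i (nat_lit 3831) (nat_lit 8) (nat_lit 13))
    (@En.n l2568 (nat_lit 110) (nat_lit 9) (nat_lit 10))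
    (@En.n l11 (nat_lit 439) (nat_lit 9) (nat_lit 4))
    (@En.n l1974 (nat_lit 7593) (nat_lit 11) (nat_lit 11))
    (@En.n l11 (nat_lit 515) (nat_lit 11) (nat_lit 3))
    (@En.n l2238 (nat_lit 532) (nat_lit 0) (nat_lit 4))
    (@En.n l55 (nat_lit 508) (nat_lit 14) (nat_lit 12))
    (@En.i (nat_lit 526) (nat_lit 10) (nat_lit 13))
    (@En.n l3 (nat_lit 519) (nat_lit 15) (nat_lit 2))))
  (@Cl.mk (nat_lit 0x20006000e000d0002000d0003000d0003000c0003000a000d0004000e0003) (nat_lit 0x100070902b040) (nat_lit 16) Lb.e (@T16.mk En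
    (@En.i (nat_lit 515) (nat_lit 4) (nat_lit 3))
    (@En.n l699 (nat_lit 13520) (nat_lit 0) (nat_lit 14))
    (@En.i (nat_lit 309) (nat_lit 2) (nat_lit 4))
    (@En.i (nat_lit 4051) (nat_lit 8) (nat_lit 13))
    (@En.n l2568 (nat_lit 91) (nat_lit 4) (nat_lit 10))
    (@En.i (nat_lit 522) (nat_lit 5) (nat_lit 3))
    (@En.i (nat_lit 5864) (nat_lit 7) (nat_lit 12))
    (@En.i (nat_lit 521) (nat_lit 7) (nat_lit 3))
    (@En.n l2568 (nat_lit 923) (nat_lit 9) (nat_lit 13))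
    (@En.n l117 (nat_lit 513) (nat_lit 9) (nat_lit 3))
    (@En.i (nat_lit 527) (nat_lit 11) (nat_lit 13))
    (@En.n l3 (nat_lit 520) (nat_lit 11) (nat_lit 2))
    (@En.i (nat_lit 513) (nat_lit 13) (nat_lit 13))
    (@En.i (nat_lit 6314) (nat_lit 1) (nat_lit 14))
    (@En.n l1738 (nat_lit 515) (nat_lit 2) (nat_lit 6))
    (@En.n l18 (nat_lit 520) (nat_lit 15) (nat_lit 2))))
  (@Cl.mk (nat_lit 0x20006000e000c0002000d000c00040003000c0004000a000d0004000e0003) (nat_lit 0xa00400a02b040) (nat_lit 16) Lb.e (@T16.mk En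
    (@En.i (nat_lit 519) (nat_lit 4) (nat_lit 3))
    (@En.n l699 (nat_lit 13504) (nat_lit 0) (nat_lit 14))
    (@En.i (nat_lit 311) (nat_lit 2) (nat_lit 4))
    (@En.i (nat_lit 3830) (nat_lit 8) (nat_lit 13))
    (@En.i (nat_lit 111) (nat_lit 4) (nat_lit 10))
    (@En.n l11 (nat_lit 851) (nat_lit 5) (nat_lit 4))
    (@En.n l287 (nat_lit 7595) (nat_lit 7) (nat_lit 12))
    (@En.n l11 (nat_lit 520) (nat_lit 7) (nat_lit 3))
    (@En.i (nat_lit 533) (nat_lit 8) (nat_lit 4))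
    (@En.n l55 (nat_lit 522) (nat_lit 10) (nat_lit 12))
    (@En.i (nat_lit 528) (nat_lit 11) (nat_lit 13))
    (@En.n l3 (nat_lit 521) (nat_lit 11) (nat_lit 2))
    (@En.i (nat_lit 544) (nat_lit 13) (nat_lit 12))
    (@En.i (nat_lit 6313) (nat_lit 1) (nat_lit 14))
    (@En.n l1738 (nat_lit 519) (nat_lit 2) (nat_lit 6))
    (@En.n l18 (nat_lit 521) (nat_lit 15) (nat_lit 2))))
  (@Cl.mk (nat_lit 0x20006000e000d0002000c0003000d000b00040003000a000d0005000e0003) (nat_lit 0x8b03070003b000) (nat_lit 16) Lb.e (@T16.mk En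
    (@En.i (nat_lit 508) (nat_lit 4) (nat_lit 3))
    (@En.n l699 (nat_lit 13500) (nat_lit 0) (nat_lit 14))
    (@En.i (nat_lit 1137) (nat_lit 2) (nat_lit 5))
    (@En.i (nat_lit 4047) (nat_lit 8) (nat_lit 13))
    (@En.n l1599 (nat_lit 527) (nat_lit 4) (nat_lit 10))
    (@En.n l28 (nat_lit 520) (nat_lit 5) (nat_lit 3))
    (@En.i (nat_lit 865) (nat_lit 6) (nat_lit 4))
    (@En.n l77 (nat_lit 858) (nat_lit 8) (nat_lit 11))
    (@En.n l2568 (nat_lit 927) (nat_lit 9) (nat_lit 13))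
    (@En.n l117 (nat_lit 506) (nat_lit 9) (nat_lit 3))
    (@En.i (nat_lit 809) (nat_lit 11) (nat_lit 12))
    (@En.n l3 (nat_lit 522) (nat_lit 11) (nat_lit 2))
    (@En.i (nat_lit 506) (nat_lit 13) (nat_lit 13))
    (@En.i (nat_lit 6312) (nat_lit 1) (nat_lit 14))
    (@En.n l1738 (nat_lit 508) (nat_lit 2) (nat_lit 6))
    (@En.n l18 (nat_lit 522) (nat_lit 15) (nat_lit 2))))
  (@Cl.mk (nat_lit 0x2000c00030006000b0004000a000d000d0005000300030006000a000e000d) (nat_lit 0x10223000081b) (nat_lit 16) Lb.e (@T16.mk En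
    (@En.n l180 (nat_lit 526) (nat_lit 11) (nat_lit 13))
    (@En.n l619 (nat_lit 519) (nat_lit 1) (nat_lit 14))
    (@En.n l387 (nat_lit 840) (nat_lit 2) (nat_lit 10))
    (@En.n l2114 (nat_lit 525) (nat_lit 12) (nat_lit 6))
    (@En.n l1959 (nat_lit 525) (nat_lit 13) (nat_lit 3))
    (@En.n l50 (nat_lit 527) (nat_lit 0) (nat_lit 3))
    (@En.n l829 (nat_lit 430) (nat_lit 0) (nat_lit 5))
    (@En.n l217 (nat_lit 527) (nat_lit 3) (nat_lit 13))
    (@En.i (nat_lit 591) (nat_lit 5) (nat_lit 13))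
    (@En.n l2568 (nat_lit 108) (nat_lit 10) (nat_lit 10))
    (@En.i (nat_lit 806) (nat_lit 10) (nat_lit 4))
    (@En.n l12797 (nat_lit 317) (nat_lit 12) (nat_lit 11))
    (@En.i (nat_lit 13124) (nat_lit 12) (nat_lit 6))
    (@En.i (nat_lit 526) (nat_lit 7) (nat_lit 3))
    (@En.n l2568 (nat_lit 785) (nat_lit 0) (nat_lit 12))
    (@En.n l107 (nat_lit 523) (nat_lit 15) (nat_lit 2))))
  (@Cl.mk (nat_lit 0x2000600030006000a000d000d000b000300030006000a0005000a000e000d) (nat_lit 0x8ab0000102b3) (nat_lit 16) Lb.e (@T16.mk En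
    (@En.n l5833 (nat_lit 526) (nat_lit 2) (nat_lit 13))
    (@En.n l601 (nat_lit 567) (nat_lit 1) (nat_lit 14))
    (@En.n l649 (nat_lit 108) (nat_lit 2) (nat_lit 10))
    (@En.n l728 (nat_lit 807) (nat_lit 3) (nat_lit 5))
    (@En.i (nat_lit 365) (nat_lit 4) (nat_lit 10))
    (@En.n l730 (nat_lit 525) (nat_lit 5) (nat_lit 6))
    (@En.n l731 (nat_lit 525) (nat_lit 6) (nat_lit 3))
    (@En.n l1106 (nat_lit 531) (nat_lit 7) (nat_lit 3))
    (@En.n l639 (nat_lit 800) (nat_lit 9) (nat_lit 11))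
    (@En.n l637 (nat_lit 531) (nat_lit 10) (nat_lit 13))
    (@En.n l2009 (nat_lit 534) (nat_lit 11) (nat_lit 13))
    (@En.n l889 (nat_lit 838) (nat_lit 12) (nat_lit 10))
    (@En.i (nat_lit 13506) (nat_lit 12) (nat_lit 6))
    (@En.n l14520 (nat_lit 526) (nat_lit 14) (nat_lit 3))
    (@En.i (nat_lit 412) (nat_lit 0) (nat_lit 6))
    (@En.n l50 (nat_lit 524) (nat_lit 15) (nat_lit 2))))
  (@Cl.mk (nat_lit 0x2000600030006000a000e000d0002000c00030006000a0004000a000e000d) (nat_lit 0x81b0000101b3) (nat_lit 16) Lb.e (@T16.mk En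
    (@En.n l1708 (nat_lit 523) (nat_lit 8) (nat_lit 13))
    (@En.n l1063 (nat_lit 584) (nat_lit 9) (nat_lit 14))
    (@En.n l1998 (nat_lit 35) (nat_lit 2) (nat_lit 10))
    (@En.i (nat_lit 808) (nat_lit 3) (nat_lit 4))
    (@En.n l1643 (nat_lit 374) (nat_lit 4) (nat_lit 10))
    (@En.i (nat_lit 13126) (nat_lit 12) (nat_lit 6))
    (@En.n l615 (nat_lit 524) (nat_lit 6) (nat_lit 3))
    (@En.n l1997 (nat_lit 804) (nat_lit 0) (nat_lit 12))
    (@En.n l107 (nat_lit 525) (nat_lit 8) (nat_lit 2))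
    (@En.n l1643 (nat_lit 524) (nat_lit 10) (nat_lit 13))
    (@En.n l619 (nat_lit 518) (nat_lit 11) (nat_lit 14))
    (@En.n l1784 (nat_lit 844) (nat_lit 12) (nat_lit 10))
    (@En.n l699 (nat_lit 13505) (nat_lit 12) (nat_lit 6))
    (@En.n l1063 (nat_lit 523) (nat_lit 4) (nat_lit 3))
    (@En.i (nat_lit 414) (nat_lit 0) (nat_lit 6))
    (@En.n l18 (nat_lit 525) (nat_lit 15) (nat_lit 2))))
  (@Cl.mk (nat_lit 0x300030006000a000d000d000b000300030006000b0005000a000d000d0005) (nat_lit 0x8ab0000101240) (nat_lit 16) Lb.e (@T16.mk En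
    (@En.n l5903 (nat_lit 404) (nat_lit 0) (nat_lit 5))
    (@En.n l217 (nat_lit 528) (nat_lit 3) (nat_lit 13))
    (@En.i (nat_lit 589) (nat_lit 5) (nat_lit 13))
    (@En.n l5904 (nat_lit 21) (nat_lit 3) (nat_lit 10))
    (@En.n l5732 (nat_lit 736) (nat_lit 4) (nat_lit 5))
    (@En.n l1978 (nat_lit 315) (nat_lit 13) (nat_lit 11))
    (@En.n l159 (nat_lit 523) (nat_lit 12) (nat_lit 6))
    (@En.n l11 (nat_lit 523) (nat_lit 13) (nat_lit 3))
    (@En.n l5905 (nat_lit 529) (nat_lit 0) (nat_lit 3))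
    (@En.i (nat_lit 798) (nat_lit 0) (nat_lit 11))
    (@En.n l5906 (nat_lit 529) (nat_lit 3) (nat_lit 13))
    (@En.n l1952 (nat_lit 532) (nat_lit 5) (nat_lit 13))
    (@En.n l387 (nat_lit 842) (nat_lit 3) (nat_lit 10))
    (@En.n l5907 (nat_lit 524) (nat_lit 12) (nat_lit 6))
    (@En.n l5908 (nat_lit 524) (nat_lit 13) (nat_lit 3))
    (@En.n l50 (nat_lit 528) (nat_lit 0) (nat_lit 3))))
  (@Cl.mk (nat_lit 0x20006000a000e000d0002000c00030006000c0004000a000d0004000e0003) (nat_lit 0x81b00001022040) (nat_lit 16) Lb.e (@T16.mk En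
    (@En.i (nat_lit 523) (nat_lit 5) (nat_lit 3))
    (@En.n l699 (nat_lit 13505) (nat_lit 0) (nat_lit 14))
    (@En.i (nat_lit 400) (nat_lit 2) (nat_lit 4))
    (@En.i (nat_lit 597) (nat_lit 5) (nat_lit 13))
    (@En.n l2568 (nat_lit 112) (nat_lit 10) (nat_lit 10))
    (@En.i (nat_lit 809) (nat_lit 5) (nat_lit 4))
    (@En.n l1643 (nat_lit 318) (nat_lit 7) (nat_lit 12))
    (@En.i (nat_lit 13125) (nat_lit 12) (nat_lit 6))
    (@En.i (nat_lit 528) (nat_lit 8) (nat_lit 3))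
    (@En.n l2568 (nat_lit 805) (nat_lit 0) (nat_lit 12))
    (@En.n l107 (nat_lit 527) (nat_lit 10) (nat_lit 2))
    (@En.n l180 (nat_lit 528) (nat_lit 12) (nat_lit 13))
    (@En.n l619 (nat_lit 521) (nat_lit 13) (nat_lit 14))
    (@En.n l387 (nat_lit 846) (nat_lit 14) (nat_lit 10))
    (@En.n l1738 (nat_lit 523) (nat_lit 3) (nat_lit 6))
    (@En.n l18 (nat_lit 527) (nat_lit 15) (nat_lit 2))))
noncomputable def a33 : T16 Cl := @T16.mk Cl
  (@Cl.mk (nat_lit 0x20006000a000d000d000b000300030006000c0005000a000d0004000e0003) (nat_lit 0x8ab00001023040) (nat_lit 16) Lb.e (@T16.mk En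
    (@En.i (nat_lit 526) (nat_lit 15) (nat_lit 3))
    (@En.n l615 (nat_lit 13506) (nat_lit 0) (nat_lit 14))
    (@En.i (nat_lit 398) (nat_lit 2) (nat_lit 4))
    (@En.i (nat_lit 593) (nat_lit 5) (nat_lit 13))
    (@En.n l3478 (nat_lit 95) (nat_lit 4) (nat_lit 10))
    (@En.n l5732 (nat_lit 822) (nat_lit 5) (nat_lit 5))
    (@En.n l615 (nat_lit 316) (nat_lit 7) (nat_lit 12))
    (@En.n l159 (nat_lit 527) (nat_lit 7) (nat_lit 6))
    (@En.n l11 (nat_lit 527) (nat_lit 8) (nat_lit 3))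
    (@En.n l5905 (nat_lit 530) (nat_lit 9) (nat_lit 3))
    (@En.i (nat_lit 799) (nat_lit 11) (nat_lit 11))
    (@En.n l5906 (nat_lit 530) (nat_lit 12) (nat_lit 13))
    (@En.n l619 (nat_lit 533) (nat_lit 13) (nat_lit 13))
    (@En.n l387 (nat_lit 841) (nat_lit 14) (nat_lit 10))
    (@En.n l1738 (nat_lit 526) (nat_lit 13) (nat_lit 6))
    (@En.n l18 (nat_lit 528) (nat_lit 15) (nat_lit 2))))
  (@Cl.mk (nat_lit 0x20006000b0006000a000d000d0005000300030006000a000d000a000e0003) (nat_lit 0x1022300008a030) (nat_lit 16) Lb.e (@T16.mk En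
    (@En.n l14525 (nat_lit 526) (nat_lit 8) (nat_lit 3))
    (@En.n l1643 (nat_lit 13124) (nat_lit 0) (nat_lit 14))
    (@En.n l2676 (nat_lit 797) (nat_lit 2) (nat_lit 10))
    (@En.i (nat_lit 535) (nat_lit 5) (nat_lit 13))
    (@En.n l4758 (nat_lit 839) (nat_lit 4) (nat_lit 10))
    (@En.n l1295 (nat_lit 531) (nat_lit 12) (nat_lit 6))
    (@En.n l2101 (nat_lit 531) (nat_lit 13) (nat_lit 3))
    (@En.n l18 (nat_lit 530) (nat_lit 0) (nat_lit 3))
    (@En.n l947 (nat_lit 431) (nat_lit 0) (nat_lit 5))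
    (@En.n l61 (nat_lit 530) (nat_lit 3) (nat_lit 13))
    (@En.n l1643 (nat_lit 590) (nat_lit 11) (nat_lit 13))
    (@En.n l798 (nat_lit 95) (nat_lit 12) (nat_lit 10))
    (@En.n l7915 (nat_lit 823) (nat_lit 13) (nat_lit 6))
    (@En.n l2590 (nat_lit 364) (nat_lit 14) (nat_lit 11))
    (@En.n l2067 (nat_lit 526) (nat_lit 6) (nat_lit 6))
    (@En.n l11 (nat_lit 529) (nat_lit 15) (nat_lit 2))))
  (@Cl.mk (nat_lit 0x20006000a000d000a000e000300020006000c0006000a000d0004000e0003) (nat_lit 0x8a030009012040) (nat_lit 16) Lb.e (@T16.mk En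
    (@En.i (nat_lit 529) (nat_lit 7) (nat_lit 3))
    (@En.n l1504 (nat_lit 13507) (nat_lit 0) (nat_lit 14))
    (@En.i (nat_lit 399) (nat_lit 2) (nat_lit 4))
    (@En.n l1643 (nat_lit 596) (nat_lit 11) (nat_lit 13))
    (@En.n l1998 (nat_lit 30) (nat_lit 4) (nat_lit 10))
    (@En.i (nat_lit 824) (nat_lit 5) (nat_lit 6))
    (@En.n l1998 (nat_lit 908) (nat_lit 7) (nat_lit 12))
    (@En.n l2067 (nat_lit 528) (nat_lit 7) (nat_lit 6))
    (@En.n l11 (nat_lit 530) (nat_lit 8) (nat_lit 2))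
    (@En.n l14525 (nat_lit 528) (nat_lit 9) (nat_lit 3))
    (@En.n l1643 (nat_lit 13125) (nat_lit 0) (nat_lit 14))
    (@En.n l2676 (nat_lit 801) (nat_lit 2) (nat_lit 10))
    (@En.i (nat_lit 536) (nat_lit 13) (nat_lit 13))
    (@En.n l4758 (nat_lit 845) (nat_lit 4) (nat_lit 10))
    (@En.n l617 (nat_lit 529) (nat_lit 5) (nat_lit 6))
    (@En.n l17 (nat_lit 530) (nat_lit 15) (nat_lit 2))))
  (@Cl.mk (nat_lit 0x2000600030006000a000d000a000e000300020006000a0006000a000e000d) (nat_lit 0x8a03000102b3) (nat_lit 16) Lb.e (@T16.mk En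
    (@En.n l1012 (nat_lit 529) (nat_lit 10) (nat_lit 13))
    (@En.n l1063 (nat_lit 585) (nat_lit 11) (nat_lit 14))
    (@En.n l2031 (nat_lit 112) (nat_lit 2) (nat_lit 10))
    (@En.n l1357 (nat_lit 825) (nat_lit 13) (nat_lit 6))
    (@En.n l2031 (nat_lit 363) (nat_lit 4) (nat_lit 10))
    (@En.n l2037 (nat_lit 524) (nat_lit 5) (nat_lit 6))
    (@En.n l107 (nat_lit 531) (nat_lit 6) (nat_lit 2))
    (@En.n l3596 (nat_lit 524) (nat_lit 7) (nat_lit 3))
    (@En.i (nat_lit 13126) (nat_lit 0) (nat_lit 14))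
    (@En.n l5891 (nat_lit 802) (nat_lit 2) (nat_lit 10))
    (@En.i (nat_lit 537) (nat_lit 11) (nat_lit 13))
    (@En.n l3486 (nat_lit 843) (nat_lit 12) (nat_lit 10))
    (@En.n l699 (nat_lit 13507) (nat_lit 12) (nat_lit 6))
    (@En.n l3291 (nat_lit 529) (nat_lit 6) (nat_lit 3))
    (@En.i (nat_lit 415) (nat_lit 0) (nat_lit 6))
    (@En.n l18 (nat_lit 531) (nat_lit 15) (nat_lit 2))))
  (@Cl.mk (nat_lit 0x2000b0006000a000d000d0005000300030006000d000c000a0003000e0004) (nat_lit 0x701000000902040) (nat_lit 16) Lb.e (@T16.mk En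
    (@En.n l2683 (nat_lit 542) (nat_lit 7) (nat_lit 4))
    (@En.n l1578 (nat_lit 529) (nat_lit 1) (nat_lit 14))
    (@En.n l107 (nat_lit 535) (nat_lit 2) (nat_lit 3))
    (@En.n l2381 (nat_lit 629) (nat_lit 3) (nat_lit 10))
    (@En.n l10780 (nat_lit 538) (nat_lit 12) (nat_lit 12))
    (@En.i (nat_lit 6427) (nat_lit 6) (nat_lit 13))
    (@En.n l14437 (nat_lit 534) (nat_lit 12) (nat_lit 6))
    (@En.n l3153 (nat_lit 534) (nat_lit 13) (nat_lit 3))
    (@En.n l6413 (nat_lit 533) (nat_lit 0) (nat_lit 3))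
    (@En.i (nat_lit 290) (nat_lit 0) (nat_lit 5))
    (@En.n l6415 (nat_lit 533) (nat_lit 3) (nat_lit 13))
    (@En.n l2381 (nat_lit 3776) (nat_lit 12) (nat_lit 13))
    (@En.i (nat_lit 114) (nat_lit 13) (nat_lit 10))
    (@En.n l7916 (nat_lit 432) (nat_lit 14) (nat_lit 6))
    (@En.n l9790 (nat_lit 5480) (nat_lit 12) (nat_lit 11))
    (@En.n l28 (nat_lit 532) (nat_lit 15) (nat_lit 2))))
  (@Cl.mk (nat_lit 0x20006000d000c000a0003000e00040002000c0006000a000d0004000e0003) (nat_lit 0x9000400a01b040) (nat_lit 16) Lb.e (@T16.mk En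
    (@En.n l2238 (nat_lit 532) (nat_lit 8) (nat_lit 3))
    (@En.n l699 (nat_lit 13509) (nat_lit 0) (nat_lit 14))
    (@En.n l2238 (nat_lit 326) (nat_lit 2) (nat_lit 4))
    (@En.i (nat_lit 3777) (nat_lit 12) (nat_lit 13))
    (@En.n l2238 (nat_lit 122) (nat_lit 4) (nat_lit 10))
    (@En.i (nat_lit 433) (nat_lit 14) (nat_lit 6))
    (@En.n l614 (nat_lit 5481) (nat_lit 7) (nat_lit 12))
    (@En.n l11 (nat_lit 533) (nat_lit 7) (nat_lit 2))
    (@En.n l117 (nat_lit 544) (nat_lit 8) (nat_lit 4))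
    (@En.n l5905 (nat_lit 530) (nat_lit 10) (nat_lit 14))
    (@En.n l5620 (nat_lit 536) (nat_lit 10) (nat_lit 3))
    (@En.i (nat_lit 837) (nat_lit 12) (nat_lit 10))
    (@En.n l936 (nat_lit 540) (nat_lit 13) (nat_lit 12))
    (@En.n l2238 (nat_lit 6426) (nat_lit 6) (nat_lit 13))
    (@En.n l15792 (nat_lit 532) (nat_lit 6) (nat_lit 6))
    (@En.n l18 (nat_lit 533) (nat_lit 15) (nat_lit 2))))
  (@Cl.mk (nat_lit 0x2000600030006000d000c000a0003000e00040002000a0006000a000e000d) (nat_lit 0x903040080121) (nat_lit 16) Lb.e (@T16.mk En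
    (@En.n l21079 (nat_lit 532) (nat_lit 11) (nat_lit 13))
    (@En.n l1063 (nat_lit 3804) (nat_lit 12) (nat_lit 14))
    (@En.n l2004 (nat_lit 115) (nat_lit 2) (nat_lit 10))
    (@En.n l4473 (nat_lit 434) (nat_lit 14) (nat_lit 6))
    (@En.n l614 (nat_lit 5482) (nat_lit 4) (nat_lit 10))
    (@En.n l11 (nat_lit 534) (nat_lit 5) (nat_lit 2))
    (@En.n l117 (nat_lit 543) (nat_lit 6) (nat_lit 4))
    (@En.n l2691 (nat_lit 531) (nat_lit 8) (nat_lit 14))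
    (@En.n l936 (nat_lit 537) (nat_lit 8) (nat_lit 3))
    (@En.i (nat_lit 836) (nat_lit 10) (nat_lit 10))
    (@En.n l936 (nat_lit 541) (nat_lit 11) (nat_lit 12))
    (@En.n l4484 (nat_lit 6429) (nat_lit 12) (nat_lit 13))
    (@En.n l699 (nat_lit 13509) (nat_lit 12) (nat_lit 6))
    (@En.n l14445 (nat_lit 532) (nat_lit 7) (nat_lit 3))
    (@En.i (nat_lit 218) (nat_lit 0) (nat_lit 6))
    (@En.n l18 (nat_lit 534) (nat_lit 15) (nat_lit 2))))
  (@Cl.mk (nat_lit 0x2000b0007000a000d000d0005000300030006000d0009000d0003000e0003) (nat_lit 0x901000000902040) (nat_lit 16) Lb.e (@T16.mk En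
    (@En.n l615 (nat_lit 538) (nat_lit 7) (nat_lit 3))
    (@En.i (nat_lit 13119) (nat_lit 0) (nat_lit 14))
    (@En.i (nat_lit 532) (nat_lit 2) (nat_lit 3))
    (@En.n l1643 (nat_lit 515) (nat_lit 0) (nat_lit 13))
    (@En.i (nat_lit 539) (nat_lit 4) (nat_lit 9))
    (@En.i (nat_lit 6425) (nat_lit 6) (nat_lit 13))
    (@En.n l1295 (nat_lit 537) (nat_lit 12) (nat_lit 6))
    (@En.n l2101 (nat_lit 537) (nat_lit 13) (nat_lit 3))
    (@En.n l18 (nat_lit 536) (nat_lit 0) (nat_lit 3))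
    (@En.i (nat_lit 214) (nat_lit 0) (nat_lit 5))
    (@En.n l61 (nat_lit 536) (nat_lit 3) (nat_lit 13))
    (@En.n l1643 (nat_lit 3779) (nat_lit 12) (nat_lit 13))
    (@En.i (nat_lit 123) (nat_lit 13) (nat_lit 10))
    (@En.i (nat_lit 655) (nat_lit 14) (nat_lit 7))
    (@En.i (nat_lit 5477) (nat_lit 12) (nat_lit 11))
    (@En.n l28 (nat_lit 535) (nat_lit 15) (nat_lit 2))))
  (@Cl.mk (nat_lit 0x20006000d0009000d0003000e00030002000c0007000a000d0004000e0003) (nat_lit 0x9020400901b040) (nat_lit 16) Lb.e (@T16.mk En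
    (@En.i (nat_lit 535) (nat_lit 8) (nat_lit 3))
    (@En.n l1504 (nat_lit 13510) (nat_lit 0) (nat_lit 14))
    (@En.i (nat_lit 331) (nat_lit 2) (nat_lit 4))
    (@En.n l1643 (nat_lit 3778) (nat_lit 12) (nat_lit 13))
    (@En.i (nat_lit 125) (nat_lit 4) (nat_lit 10))
    (@En.i (nat_lit 657) (nat_lit 5) (nat_lit 7))
    (@En.i (nat_lit 5483) (nat_lit 7) (nat_lit 12))
    (@En.n l28 (nat_lit 536) (nat_lit 7) (nat_lit 2))
    (@En.n l615 (nat_lit 540) (nat_lit 8) (nat_lit 3))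
    (@En.i (nat_lit 13118) (nat_lit 0) (nat_lit 14))
    (@En.n l2381 (nat_lit 533) (nat_lit 10) (nat_lit 3))
    (@En.n l1643 (nat_lit 520) (nat_lit 12) (nat_lit 13))
    (@En.i (nat_lit 570) (nat_lit 13) (nat_lit 9))
    (@En.i (nat_lit 6424) (nat_lit 6) (nat_lit 13))
    (@En.n l617 (nat_lit 535) (nat_lit 6) (nat_lit 6))
    (@En.n l17 (nat_lit 536) (nat_lit 15) (nat_lit 2))))
  (@Cl.mk (nat_lit 0x2000600030006000d0009000d0003000e00030002000a0007000a000e000d) (nat_lit 0x902040080221) (nat_lit 16) Lb.e (@T16.mk En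
    (@En.n l1012 (nat_lit 535) (nat_lit 11) (nat_lit 13))
    (@En.n l1063 (nat_lit 3802) (nat_lit 12) (nat_lit 14))
    (@En.n l1998 (nat_lit 168) (nat_lit 2) (nat_lit 10))
    (@En.n l14576 (nat_lit 658) (nat_lit 14) (nat_lit 7))
    (@En.i (nat_lit 5484) (nat_lit 4) (nat_lit 10))
    (@En.n l11 (nat_lit 537) (nat_lit 5) (nat_lit 2))
    (@En.n l117 (nat_lit 541) (nat_lit 6) (nat_lit 3))
    (@En.i (nat_lit 13122) (nat_lit 0) (nat_lit 14))
    (@En.n l2576 (nat_lit 534) (nat_lit 8) (nat_lit 3))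
    (@En.i (nat_lit 516) (nat_lit 10) (nat_lit 13))
    (@En.n l476 (nat_lit 571) (nat_lit 11) (nat_lit 9))
    (@En.i (nat_lit 6428) (nat_lit 12) (nat_lit 13))
    (@En.n l699 (nat_lit 13510) (nat_lit 12) (nat_lit 6))
    (@En.n l3291 (nat_lit 535) (nat_lit 7) (nat_lit 3))
    (@En.i (nat_lit 213) (nat_lit 0) (nat_lit 6))
    (@En.n l18 (nat_lit 537) (nat_lit 15) (nat_lit 2))))
  (@Cl.mk (nat_lit 0x300030006000c0009000d000d000400030003000b0007000a000d000d0005) (nat_lit 0xa013000901000) (nat_lit 16) Lb.e (@T16.mk En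
    (@En.n l829 (nat_lit 217) (nat_lit 0) (nat_lit 5))
    (@En.n l217 (nat_lit 540) (nat_lit 3) (nat_lit 13))
    (@En.i (nat_lit 3713) (nat_lit 5) (nat_lit 13))
    (@En.n l639 (nat_lit 126) (nat_lit 8) (nat_lit 10))
    (@En.n l13923 (nat_lit 568) (nat_lit 4) (nat_lit 7))
    (@En.i (nat_lit 5486) (nat_lit 14) (nat_lit 11))
    (@En.i (nat_lit 549) (nat_lit 13) (nat_lit 3))
    (@En.n l731 (nat_lit 535) (nat_lit 0) (nat_lit 3))
    (@En.n l1992 (nat_lit 546) (nat_lit 0) (nat_lit 4))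
    (@En.n l2013 (nat_lit 535) (nat_lit 3) (nat_lit 13))
    (@En.i (nat_lit 509) (nat_lit 11) (nat_lit 13))
    (@En.n l13924 (nat_lit 555) (nat_lit 12) (nat_lit 9))
    (@En.n l639 (nat_lit 6336) (nat_lit 13) (nat_lit 12))
    (@En.n l2114 (nat_lit 541) (nat_lit 12) (nat_lit 6))
    (@En.n l1959 (nat_lit 541) (nat_lit 13) (nat_lit 3))
    (@En.n l50 (nat_lit 540) (nat_lit 0) (nat_lit 3))))
  (@Cl.mk (nat_lit 0x2000a00070006000a000d000d00060003000300060009000d000a000e0003) (nat_lit 0x8002000000711b0) (nat_lit 16) Lb.e (@T16.mk En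
    (@En.n l13684 (nat_lit 555) (nat_lit 8) (nat_lit 3))
    (@En.n l5144 (nat_lit 13121) (nat_lit 0) (nat_lit 14))
    (@En.i (nat_lit 441) (nat_lit 2) (nat_lit 10))
    (@En.n l1644 (nat_lit 463) (nat_lit 12) (nat_lit 13))
    (@En.n l6410 (nat_lit 1207) (nat_lit 4) (nat_lit 9))
    (@En.n l13685 (nat_lit 571) (nat_lit 12) (nat_lit 6))
    (@En.n l13686 (nat_lit 571) (nat_lit 13) (nat_lit 3))
    (@En.n l18 (nat_lit 570) (nat_lit 0) (nat_lit 3))
    (@En.i (nat_lit 1052) (nat_lit 0) (nat_lit 6))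
    (@En.n l61 (nat_lit 570) (nat_lit 3) (nat_lit 13))
    (@En.n l1643 (nat_lit 3771) (nat_lit 5) (nat_lit 13))
    (@En.n l3 (nat_lit 535) (nat_lit 12) (nat_lit 10))
    (@En.n l527 (nat_lit 532) (nat_lit 13) (nat_lit 6))
    (@En.n l6410 (nat_lit 561) (nat_lit 14) (nat_lit 7))
    (@En.i (nat_lit 5489) (nat_lit 14) (nat_lit 10))
    (@En.n l28 (nat_lit 539) (nat_lit 15) (nat_lit 2))))
  (@Cl.mk (nat_lit 0x20006000c0009000d000d000400030003000c0007000a000d0004000e0003) (nat_lit 0xa023000a01b040) (nat_lit 16) Lb.e (@T16.mk En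
    (@En.i (nat_lit 538) (nat_lit 15) (nat_lit 3))
    (@En.n l699 (nat_lit 13511) (nat_lit 0) (nat_lit 14))
    (@En.i (nat_lit 332) (nat_lit 2) (nat_lit 4))
    (@En.i (nat_lit 3718) (nat_lit 5) (nat_lit 13))
    (@En.n l639 (nat_lit 124) (nat_lit 4) (nat_lit 10))
    (@En.i (nat_lit 656) (nat_lit 5) (nat_lit 7))
    (@En.i (nat_lit 5494) (nat_lit 7) (nat_lit 12))
    (@En.i (nat_lit 551) (nat_lit 13) (nat_lit 3))
    (@En.n l731 (nat_lit 536) (nat_lit 8) (nat_lit 3))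
    (@En.n l1992 (nat_lit 599) (nat_lit 0) (nat_lit 4))
    (@En.n l2013 (nat_lit 536) (nat_lit 11) (nat_lit 13))
    (@En.i (nat_lit 513) (nat_lit 12) (nat_lit 13))
    (@En.n l1769 (nat_lit 556) (nat_lit 13) (nat_lit 9))
    (@En.n l639 (nat_lit 6415) (nat_lit 14) (nat_lit 12))
    (@En.n l1738 (nat_lit 538) (nat_lit 13) (nat_lit 6))
    (@En.n l18 (nat_lit 540) (nat_lit 15) (nat_lit 2))))
  (@Cl.mk (nat_lit 0x2000600030006000c0009000d000d000400030003000a0007000a000e000d) (nat_lit 0xa02300080221) (nat_lit 16) Lb.e (@T16.mk En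
    (@En.n l1708 (nat_lit 538) (nat_lit 2) (nat_lit 13))
    (@En.n l1063 (nat_lit 3801) (nat_lit 1) (nat_lit 14))
    (@En.n l476 (nat_lit 170) (nat_lit 2) (nat_lit 10))
    (@En.n l6825 (nat_lit 654) (nat_lit 3) (nat_lit 7))
    (@En.n l649 (nat_lit 5485) (nat_lit 4) (nat_lit 10))
    (@En.n l7126 (nat_lit 550) (nat_lit 13) (nat_lit 3))
    (@En.n l152 (nat_lit 537) (nat_lit 6) (nat_lit 3))
    (@En.n l14309 (nat_lit 598) (nat_lit 0) (nat_lit 4))
    (@En.n l619 (nat_lit 537) (nat_lit 9) (nat_lit 13))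
    (@En.i (nat_lit 514) (nat_lit 10) (nat_lit 13))
    (@En.n l8361 (nat_lit 557) (nat_lit 11) (nat_lit 9))
    (@En.i (nat_lit 6337) (nat_lit 12) (nat_lit 12))
    (@En.n l699 (nat_lit 13511) (nat_lit 12) (nat_lit 6))
    (@En.n l1063 (nat_lit 538) (nat_lit 14) (nat_lit 3))
    (@En.i (nat_lit 215) (nat_lit 0) (nat_lit 6))
    (@En.n l18 (nat_lit 541) (nat_lit 15) (nat_lit 2))))
  (@Cl.mk (nat_lit 0x300030006000c000c000c000b000400040004000b0005000a000d000d0005) (nat_lit 0x9013000701000) (nat_lit 16) Lb.e (@T16.mk En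
    (@En.n l829 (nat_lit 291) (nat_lit 0) (nat_lit 5))
    (@En.n l217 (nat_lit 544) (nat_lit 3) (nat_lit 13))
    (@En.i (nat_lit 3756) (nat_lit 5) (nat_lit 13))
    (@En.i (nat_lit 103) (nat_lit 3) (nat_lit 10))
    (@En.i (nat_lit 435) (nat_lit 4) (nat_lit 5))
    (@En.i (nat_lit 5496) (nat_lit 6) (nat_lit 11))
    (@En.n l11 (nat_lit 545) (nat_lit 12) (nat_lit 4))
    (@En.n l152 (nat_lit 519) (nat_lit 12) (nat_lit 4))
    (@En.n l936 (nat_lit 538) (nat_lit 8) (nat_lit 4))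
    (@En.n l55 (nat_lit 502) (nat_lit 10) (nat_lit 11))
    (@En.n l1952 (nat_lit 532) (nat_lit 4) (nat_lit 12))
    (@En.i (nat_lit 546) (nat_lit 4) (nat_lit 12))
    (@En.i (nat_lit 6334) (nat_lit 13) (nat_lit 12))
    (@En.n l2114 (nat_lit 543) (nat_lit 12) (nat_lit 6))
    (@En.n l1959 (nat_lit 543) (nat_lit 13) (nat_lit 3))
    (@En.n l50 (nat_lit 544) (nat_lit 0) (nat_lit 3))))
  (@Cl.mk (nat_lit 0x2000600030006000c000c000c000b000400040004000a0005000a000e000d) (nat_lit 0x901300080121) (nat_lit 16) Lb.e (@T16.mk En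
    (@En.n l1708 (nat_lit 542) (nat_lit 2) (nat_lit 13))
    (@En.n l1063 (nat_lit 3807) (nat_lit 1) (nat_lit 14))
    (@En.i (nat_lit 113) (nat_lit 2) (nat_lit 10))
    (@En.n l1393 (nat_lit 437) (nat_lit 3) (nat_lit 5))
    (@En.n l287 (nat_lit 5497) (nat_lit 4) (nat_lit 10))
    (@En.n l11 (nat_lit 547) (nat_lit 5) (nat_lit 4))
    (@En.n l152 (nat_lit 518) (nat_lit 6) (nat_lit 4))
    (@En.n l936 (nat_lit 541) (nat_lit 7) (nat_lit 4))
    (@En.n l55 (nat_lit 507) (nat_lit 9) (nat_lit 11))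
    (@En.n l619 (nat_lit 534) (nat_lit 10) (nat_lit 12))
    (@En.n l1867 (nat_lit 598) (nat_lit 4) (nat_lit 12))
    (@En.i (nat_lit 6335) (nat_lit 12) (nat_lit 12))
    (@En.n l699 (nat_lit 13514) (nat_lit 12) (nat_lit 6))
    (@En.n l1063 (nat_lit 542) (nat_lit 14) (nat_lit 3))
    (@En.i (nat_lit 292) (nat_lit 0) (nat_lit 6))
    (@En.n l18 (nat_lit 543) (nat_lit 15) (nat_lit 2))))
noncomputable def a34 : T16 Cl := @T16.mk Cl
  (@Cl.mk (nat_lit 0x20006000c000c000c000b000400040004000c0005000a000d0004000e0003) (nat_lit 0x9013000a01b040) (nat_lit 16) Lb.e (@T16.mk En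
    (@En.i (nat_lit 542) (nat_lit 15) (nat_lit 3))
    (@En.n l699 (nat_lit 13514) (nat_lit 0) (nat_lit 14))
    (@En.i (nat_lit 325) (nat_lit 2) (nat_lit 4))
    (@En.i (nat_lit 3820) (nat_lit 5) (nat_lit 13))
    (@En.i (nat_lit 99) (nat_lit 4) (nat_lit 10))
    (@En.i (nat_lit 436) (nat_lit 5) (nat_lit 5))
    (@En.n l134 (nat_lit 7600) (nat_lit 7) (nat_lit 12))
    (@En.n l11 (nat_lit 548) (nat_lit 7) (nat_lit 4))
    (@En.n l152 (nat_lit 521) (nat_lit 8) (nat_lit 4))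
    (@En.n l936 (nat_lit 540) (nat_lit 9) (nat_lit 4))
    (@En.n l55 (nat_lit 506) (nat_lit 11) (nat_lit 11))
    (@En.n l619 (nat_lit 533) (nat_lit 12) (nat_lit 12))
    (@En.i (nat_lit 599) (nat_lit 4) (nat_lit 12))
    (@En.i (nat_lit 6408) (nat_lit 14) (nat_lit 12))
    (@En.n l1738 (nat_lit 542) (nat_lit 13) (nat_lit 6))
    (@En.n l18 (nat_lit 544) (nat_lit 15) (nat_lit 2))))
  (@Cl.mk (nat_lit 0x2000c00050004000b0004000a000d000d0005000300030006000b000e000c) (nat_lit 0x400002000000901) (nat_lit 16) Lb.e (@T16.mk En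
    (@En.n l68 (nat_lit 542) (nat_lit 11) (nat_lit 12))
    (@En.n l637 (nat_lit 606) (nat_lit 4) (nat_lit 14))
    (@En.n l638 (nat_lit 6409) (nat_lit 2) (nat_lit 11))
    (@En.n l2114 (nat_lit 547) (nat_lit 12) (nat_lit 6))
    (@En.n l1959 (nat_lit 547) (nat_lit 13) (nat_lit 3))
    (@En.n l50 (nat_lit 548) (nat_lit 0) (nat_lit 3))
    (@En.n l829 (nat_lit 1027) (nat_lit 0) (nat_lit 5))
    (@En.n l217 (nat_lit 548) (nat_lit 3) (nat_lit 13))
    (@En.i (nat_lit 3712) (nat_lit 5) (nat_lit 13))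
    (@En.i (nat_lit 186) (nat_lit 10) (nat_lit 10))
    (@En.i (nat_lit 442) (nat_lit 10) (nat_lit 4))
    (@En.n l14829 (nat_lit 7261) (nat_lit 12) (nat_lit 11))
    (@En.i (nat_lit 509) (nat_lit 6) (nat_lit 4))
    (@En.n l3015 (nat_lit 549) (nat_lit 14) (nat_lit 5))
    (@En.n l197 (nat_lit 460) (nat_lit 9) (nat_lit 12))
    (@En.n l67 (nat_lit 545) (nat_lit 15) (nat_lit 2))))
  (@Cl.mk (nat_lit 0x20005000b0006000a000d000d0005000300030006000c000b000a000e0004) (nat_lit 0x1000000a0210) (nat_lit 16) Lb.e (@T16.mk En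
    (@En.n l152 (nat_lit 542) (nat_lit 8) (nat_lit 4))
    (@En.n l5859 (nat_lit 510) (nat_lit 1) (nat_lit 14))
    (@En.n l6000 (nat_lit 505) (nat_lit 2) (nat_lit 10))
    (@En.n l2691 (nat_lit 549) (nat_lit 3) (nat_lit 11))
    (@En.n l637 (nat_lit 5940) (nat_lit 13) (nat_lit 12))
    (@En.n l6043 (nat_lit 598) (nat_lit 5) (nat_lit 6))
    (@En.n l6044 (nat_lit 598) (nat_lit 6) (nat_lit 3))
    (@En.n l50 (nat_lit 599) (nat_lit 7) (nat_lit 3))
    (@En.n l6045 (nat_lit 1074) (nat_lit 8) (nat_lit 5))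
    (@En.n l217 (nat_lit 599) (nat_lit 10) (nat_lit 13))
    (@En.i (nat_lit 3752) (nat_lit 11) (nat_lit 13))
    (@En.n l1596 (nat_lit 97) (nat_lit 12) (nat_lit 10))
    (@En.n l6046 (nat_lit 440) (nat_lit 13) (nat_lit 6))
    (@En.n l6047 (nat_lit 7503) (nat_lit 14) (nat_lit 11))
    (@En.n l4976 (nat_lit 600) (nat_lit 13) (nat_lit 5))
    (@En.n l3 (nat_lit 546) (nat_lit 15) (nat_lit 2))))
  (@Cl.mk (nat_lit 0x2000600030006000b000e000c0002000c00050004000a0004000a000e000d) (nat_lit 0x901010000201) (nat_lit 16) Lb.e (@T16.mk En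
    (@En.n l1708 (nat_lit 545) (nat_lit 8) (nat_lit 13))
    (@En.n l1063 (nat_lit 3893) (nat_lit 9) (nat_lit 14))
    (@En.i (nat_lit 190) (nat_lit 2) (nat_lit 10))
    (@En.n l2438 (nat_lit 500) (nat_lit 3) (nat_lit 4))
    (@En.n l645 (nat_lit 7258) (nat_lit 4) (nat_lit 10))
    (@En.i (nat_lit 514) (nat_lit 5) (nat_lit 4))
    (@En.n l3017 (nat_lit 550) (nat_lit 14) (nat_lit 5))
    (@En.n l197 (nat_lit 462) (nat_lit 8) (nat_lit 12))
    (@En.n l67 (nat_lit 547) (nat_lit 8) (nat_lit 2))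
    (@En.n l68 (nat_lit 543) (nat_lit 10) (nat_lit 12))
    (@En.n l645 (nat_lit 607) (nat_lit 4) (nat_lit 14))
    (@En.n l3082 (nat_lit 6413) (nat_lit 12) (nat_lit 11))
    (@En.n l699 (nat_lit 13517) (nat_lit 12) (nat_lit 6))
    (@En.n l1063 (nat_lit 545) (nat_lit 4) (nat_lit 3))
    (@En.i (nat_lit 1026) (nat_lit 0) (nat_lit 6))
    (@En.n l18 (nat_lit 547) (nat_lit 15) (nat_lit 2))))
  (@Cl.mk (nat_lit 0x20006000b000e000c0002000c00050004000c0004000a000d0004000e0003) (nat_lit 0x9010100002b000) (nat_lit 16) Lb.e (@T16.mk En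
    (@En.i (nat_lit 545) (nat_lit 5) (nat_lit 3))
    (@En.n l699 (nat_lit 13517) (nat_lit 0) (nat_lit 14))
    (@En.i (nat_lit 1002) (nat_lit 2) (nat_lit 4))
    (@En.i (nat_lit 3833) (nat_lit 5) (nat_lit 13))
    (@En.i (nat_lit 184) (nat_lit 10) (nat_lit 10))
    (@En.i (nat_lit 501) (nat_lit 5) (nat_lit 4))
    (@En.n l645 (nat_lit 7565) (nat_lit 7) (nat_lit 12))
    (@En.i (nat_lit 513) (nat_lit 7) (nat_lit 4))
    (@En.n l3015 (nat_lit 551) (nat_lit 14) (nat_lit 5))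
    (@En.n l197 (nat_lit 461) (nat_lit 10) (nat_lit 12))
    (@En.n l67 (nat_lit 548) (nat_lit 10) (nat_lit 2))
    (@En.n l68 (nat_lit 544) (nat_lit 12) (nat_lit 12))
    (@En.n l637 (nat_lit 608) (nat_lit 4) (nat_lit 14))
    (@En.n l638 (nat_lit 6410) (nat_lit 2) (nat_lit 11))
    (@En.n l1738 (nat_lit 545) (nat_lit 3) (nat_lit 6))
    (@En.n l18 (nat_lit 548) (nat_lit 15) (nat_lit 2))))
  (@Cl.mk (nat_lit 0x200050003000b0007000a000d000d0005000300030006000b0009000e000d) (nat_lit 0x20000009012) (nat_lit 16) Lb.e (@T16.mk En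
    (@En.n l1144 (nat_lit 538) (nat_lit 10) (nat_lit 13))
    (@En.n l11 (nat_lit 545) (nat_lit 1) (nat_lit 14))
    (@En.n l7098 (nat_lit 552) (nat_lit 2) (nat_lit 9))
    (@En.n l7099 (nat_lit 6412) (nat_lit 3) (nat_lit 11))
    (@En.n l7100 (nat_lit 550) (nat_lit 4) (nat_lit 6))
    (@En.n l7101 (nat_lit 550) (nat_lit 5) (nat_lit 3))
    (@En.n l50 (nat_lit 551) (nat_lit 6) (nat_lit 3))
    (@En.n l5435 (nat_lit 1011) (nat_lit 7) (nat_lit 5))
    (@En.n l217 (nat_lit 551) (nat_lit 9) (nat_lit 13))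
    (@En.i (nat_lit 3711) (nat_lit 10) (nat_lit 13))
    (@En.n l639 (nat_lit 189) (nat_lit 11) (nat_lit 10))
    (@En.n l7102 (nat_lit 569) (nat_lit 12) (nat_lit 7))
    (@En.n l7103 (nat_lit 7257) (nat_lit 13) (nat_lit 11))
    (@En.n l11 (nat_lit 538) (nat_lit 6) (nat_lit 3))
    (@En.n l7104 (nat_lit 603) (nat_lit 0) (nat_lit 5))
    (@En.n l1157 (nat_lit 549) (nat_lit 15) (nat_lit 2))))
  (@Cl.mk (nat_lit 0x200050003000a0007000a000e000d0002000600030006000b0009000e000d) (nat_lit 0x22100000013) (nat_lit 16) Lb.e (@T16.mk En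
    (@En.n l4270 (nat_lit 541) (nat_lit 9) (nat_lit 13))
    (@En.n l3749 (nat_lit 547) (nat_lit 10) (nat_lit 14))
    (@En.n l725 (nat_lit 553) (nat_lit 11) (nat_lit 9))
    (@En.n l170 (nat_lit 6414) (nat_lit 3) (nat_lit 11))
    (@En.i (nat_lit 13515) (nat_lit 12) (nat_lit 6))
    (@En.n l9496 (nat_lit 549) (nat_lit 5) (nat_lit 3))
    (@En.n l8808 (nat_lit 1012) (nat_lit 6) (nat_lit 6))
    (@En.n l107 (nat_lit 550) (nat_lit 7) (nat_lit 2))
    (@En.n l9497 (nat_lit 549) (nat_lit 9) (nat_lit 13))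
    (@En.n l6030 (nat_lit 3803) (nat_lit 10) (nat_lit 14))
    (@En.n l9498 (nat_lit 191) (nat_lit 2) (nat_lit 10))
    (@En.i (nat_lit 640) (nat_lit 12) (nat_lit 7))
    (@En.n l8572 (nat_lit 7255) (nat_lit 13) (nat_lit 10))
    (@En.n l3749 (nat_lit 541) (nat_lit 5) (nat_lit 3))
    (@En.n l8573 (nat_lit 602) (nat_lit 6) (nat_lit 5))
    (@En.n l50 (nat_lit 550) (nat_lit 15) (nat_lit 2))))
  (@Cl.mk (nat_lit 0x200050003000c0007000a000d0004000e000300020006000b0009000e000d) (nat_lit 0x1b000000013) (nat_lit 16) Lb.e (@T16.mk En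
    (@En.n l1144 (nat_lit 540) (nat_lit 11) (nat_lit 13))
    (@En.n l11 (nat_lit 548) (nat_lit 12) (nat_lit 14))
    (@En.n l1483 (nat_lit 554) (nat_lit 13) (nat_lit 9))
    (@En.n l5435 (nat_lit 6411) (nat_lit 3) (nat_lit 11))
    (@En.n l1738 (nat_lit 549) (nat_lit 4) (nat_lit 6))
    (@En.n l18 (nat_lit 551) (nat_lit 5) (nat_lit 2))
    (@En.i (nat_lit 549) (nat_lit 6) (nat_lit 3))
    (@En.n l7126 (nat_lit 13515) (nat_lit 0) (nat_lit 14))
    (@En.i (nat_lit 1004) (nat_lit 8) (nat_lit 4))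
    (@En.i (nat_lit 3715) (nat_lit 10) (nat_lit 13))
    (@En.n l639 (nat_lit 188) (nat_lit 11) (nat_lit 10))
    (@En.n l7126 (nat_lit 641) (nat_lit 12) (nat_lit 7))
    (@En.n l2262 (nat_lit 7567) (nat_lit 13) (nat_lit 12))
    (@En.n l11 (nat_lit 540) (nat_lit 7) (nat_lit 3))
    (@En.n l2263 (nat_lit 601) (nat_lit 8) (nat_lit 5))
    (@En.n l1157 (nat_lit 551) (nat_lit 15) (nat_lit 2))))
  (@Cl.mk (nat_lit 0x2000c0003000a00070004000a000d000d00060003000300060009000e000d) (nat_lit 0x108003000000792) (nat_lit 16) Lb.e (@T16.mk En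
    (@En.n l601 (nat_lit 555) (nat_lit 11) (nat_lit 13))
    (@En.n l17562 (nat_lit 446) (nat_lit 1) (nat_lit 14))
    (@En.i (nat_lit 1203) (nat_lit 2) (nat_lit 9))
    (@En.n l730 (nat_lit 553) (nat_lit 12) (nat_lit 6))
    (@En.n l731 (nat_lit 553) (nat_lit 13) (nat_lit 3))
    (@En.n l7008 (nat_lit 554) (nat_lit 0) (nat_lit 3))
    (@En.n l639 (nat_lit 1054) (nat_lit 0) (nat_lit 6))
    (@En.n l15864 (nat_lit 554) (nat_lit 3) (nat_lit 13))
    (@En.n l13622 (nat_lit 3770) (nat_lit 5) (nat_lit 13))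
    (@En.n l17563 (nat_lit 549) (nat_lit 10) (nat_lit 10))
    (@En.n l13622 (nat_lit 545) (nat_lit 10) (nat_lit 4))
    (@En.i (nat_lit 564) (nat_lit 12) (nat_lit 7))
    (@En.n l7966 (nat_lit 7260) (nat_lit 13) (nat_lit 10))
    (@En.i (nat_lit 555) (nat_lit 7) (nat_lit 3))
    (@En.i (nat_lit 387) (nat_lit 0) (nat_lit 12))
    (@En.n l7 (nat_lit 552) (nat_lit 15) (nat_lit 2))))
  (@Cl.mk (nat_lit 0x20007000300060009000e000d0002000c0003000900070004000a000e000d) (nat_lit 0x792020000301) (nat_lit 16) Lb.e (@T16.mk En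
    (@En.n l1643 (nat_lit 552) (nat_lit 8) (nat_lit 13))
    (@En.n l619 (nat_lit 4000) (nat_lit 9) (nat_lit 14))
    (@En.i (nat_lit 550) (nat_lit 10) (nat_lit 10))
    (@En.n l3219 (nat_lit 547) (nat_lit 3) (nat_lit 4))
    (@En.i (nat_lit 566) (nat_lit 4) (nat_lit 7))
    (@En.n l2650 (nat_lit 7259) (nat_lit 5) (nat_lit 9))
    (@En.i (nat_lit 557) (nat_lit 6) (nat_lit 3))
    (@En.i (nat_lit 459) (nat_lit 8) (nat_lit 12))
    (@En.n l50 (nat_lit 553) (nat_lit 8) (nat_lit 2))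
    (@En.n l396 (nat_lit 557) (nat_lit 10) (nat_lit 13))
    (@En.n l4316 (nat_lit 455) (nat_lit 11) (nat_lit 14))
    (@En.n l1643 (nat_lit 1209) (nat_lit 12) (nat_lit 9))
    (@En.i (nat_lit 13516) (nat_lit 12) (nat_lit 6))
    (@En.n l615 (nat_lit 552) (nat_lit 4) (nat_lit 3))
    (@En.i (nat_lit 1058) (nat_lit 0) (nat_lit 7))
    (@En.n l107 (nat_lit 553) (nat_lit 15) (nat_lit 2))))
  (@Cl.mk (nat_lit 0x200060009000e000d0002000c0003000b00070004000a000d0005000e0003) (nat_lit 0x7920209002b000) (nat_lit 16) Lb.e (@T16.mk En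
    (@En.n l13031 (nat_lit 552) (nat_lit 5) (nat_lit 3))
    (@En.n l1448 (nat_lit 13516) (nat_lit 0) (nat_lit 14))
    (@En.n l14328 (nat_lit 335) (nat_lit 2) (nat_lit 5))
    (@En.i (nat_lit 3765) (nat_lit 5) (nat_lit 13))
    (@En.n l1445 (nat_lit 551) (nat_lit 10) (nat_lit 10))
    (@En.i (nat_lit 548) (nat_lit 5) (nat_lit 4))
    (@En.n l1448 (nat_lit 565) (nat_lit 6) (nat_lit 7))
    (@En.n l3638 (nat_lit 7566) (nat_lit 8) (nat_lit 11))
    (@En.i (nat_lit 556) (nat_lit 8) (nat_lit 3))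
    (@En.n l197 (nat_lit 458) (nat_lit 10) (nat_lit 12))
    (@En.n l67 (nat_lit 554) (nat_lit 10) (nat_lit 2))
    (@En.n l68 (nat_lit 556) (nat_lit 12) (nat_lit 13))
    (@En.n l3638 (nat_lit 456) (nat_lit 13) (nat_lit 14))
    (@En.n l17251 (nat_lit 1204) (nat_lit 14) (nat_lit 9))
    (@En.n l17618 (nat_lit 552) (nat_lit 3) (nat_lit 6))
    (@En.n l18 (nat_lit 554) (nat_lit 15) (nat_lit 2))))
  (@Cl.mk (nat_lit 0x3000300060009000d000d000b00030003000a00070005000a000d000d0006) (nat_lit 0x7122008002000) (nat_lit 16) Lb.e (@T16.mk En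
    (@En.n l639 (nat_lit 1051) (nat_lit 0) (nat_lit 6))
    (@En.n l15864 (nat_lit 556) (nat_lit 3) (nat_lit 13))
    (@En.n l13622 (nat_lit 3762) (nat_lit 5) (nat_lit 13))
    (@En.n l5895 (nat_lit 538) (nat_lit 3) (nat_lit 10))
    (@En.n l13622 (nat_lit 542) (nat_lit 4) (nat_lit 5))
    (@En.i (nat_lit 558) (nat_lit 5) (nat_lit 7))
    (@En.n l15865 (nat_lit 5488) (nat_lit 14) (nat_lit 10))
    (@En.n l50 (nat_lit 552) (nat_lit 13) (nat_lit 3))
    (@En.n l15866 (nat_lit 539) (nat_lit 0) (nat_lit 3))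
    (@En.n l5896 (nat_lit 442) (nat_lit 0) (nat_lit 11))
    (@En.n l15867 (nat_lit 539) (nat_lit 3) (nat_lit 13))
    (@En.n l5895 (nat_lit 470) (nat_lit 12) (nat_lit 13))
    (@En.i (nat_lit 1205) (nat_lit 9) (nat_lit 9))
    (@En.n l730 (nat_lit 557) (nat_lit 12) (nat_lit 6))
    (@En.n l731 (nat_lit 557) (nat_lit 13) (nat_lit 3))
    (@En.n l7008 (nat_lit 556) (nat_lit 0) (nat_lit 3))))
  (@Cl.mk (nat_lit 0x200060009000d000d000b00030003000b00070005000a000d0005000e0003) (nat_lit 0x7122009002b050) (nat_lit 16) Lb.e (@T16.mk En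
    (@En.n l13031 (nat_lit 555) (nat_lit 15) (nat_lit 3))
    (@En.n l1448 (nat_lit 13513) (nat_lit 0) (nat_lit 14))
    (@En.i (nat_lit 334) (nat_lit 2) (nat_lit 5))
    (@En.i (nat_lit 3763) (nat_lit 5) (nat_lit 13))
    (@En.n l1596 (nat_lit 540) (nat_lit 4) (nat_lit 10))
    (@En.i (nat_lit 544) (nat_lit 5) (nat_lit 5))
    (@En.n l1448 (nat_lit 562) (nat_lit 6) (nat_lit 7))
    (@En.n l5579 (nat_lit 5492) (nat_lit 8) (nat_lit 11))
    (@En.n l11 (nat_lit 554) (nat_lit 8) (nat_lit 3))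
    (@En.n l2238 (nat_lit 570) (nat_lit 9) (nat_lit 3))
    (@En.n l55 (nat_lit 501) (nat_lit 11) (nat_lit 11))
    (@En.n l5905 (nat_lit 570) (nat_lit 12) (nat_lit 13))
    (@En.n l1596 (nat_lit 472) (nat_lit 13) (nat_lit 13))
    (@En.n l17251 (nat_lit 1202) (nat_lit 14) (nat_lit 9))
    (@En.n l17618 (nat_lit 555) (nat_lit 13) (nat_lit 6))
    (@En.n l18 (nat_lit 556) (nat_lit 15) (nat_lit 2))))
  (@Cl.mk (nat_lit 0x20007000300060009000d000d000b00030003000900070005000a000e000d) (nat_lit 0x712200000331) (nat_lit 16) Lb.e (@T16.mk En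
    (@En.n l1643 (nat_lit 555) (nat_lit 2) (nat_lit 13))
    (@En.n l619 (nat_lit 3689) (nat_lit 1) (nat_lit 14))
    (@En.n l3749 (nat_lit 541) (nat_lit 2) (nat_lit 10))
    (@En.n l3219 (nat_lit 543) (nat_lit 3) (nat_lit 5))
    (@En.i (nat_lit 563) (nat_lit 4) (nat_lit 7))
    (@En.n l6446 (nat_lit 5487) (nat_lit 5) (nat_lit 9))
    (@En.n l18 (nat_lit 553) (nat_lit 6) (nat_lit 3))
    (@En.n l17943 (nat_lit 571) (nat_lit 7) (nat_lit 3))
    (@En.n l6444 (nat_lit 500) (nat_lit 9) (nat_lit 11))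
    (@En.n l10895 (nat_lit 571) (nat_lit 10) (nat_lit 13))
    (@En.n l3749 (nat_lit 473) (nat_lit 11) (nat_lit 13))
    (@En.n l1643 (nat_lit 1208) (nat_lit 12) (nat_lit 9))
    (@En.i (nat_lit 13513) (nat_lit 12) (nat_lit 6))
    (@En.n l615 (nat_lit 555) (nat_lit 14) (nat_lit 3))
    (@En.n l3219 (nat_lit 1053) (nat_lit 0) (nat_lit 7))
    (@En.n l107 (nat_lit 557) (nat_lit 15) (nat_lit 2))))
  (@Cl.mk (nat_lit 0x30003000600090005000d000d000c0003000300070004000a000d000d000b) (nat_lit 0x23300007000) (nat_lit 16) Lb.e (@T16.mk En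
    (@En.n l639 (nat_lit 2148) (nat_lit 0) (nat_lit 11))
    (@En.n l637 (nat_lit 562) (nat_lit 3) (nat_lit 13))
    (@En.n l2009 (nat_lit 3648) (nat_lit 5) (nat_lit 13))
    (@En.i (nat_lit 568) (nat_lit 3) (nat_lit 10))
    (@En.n l1957 (nat_lit 586) (nat_lit 4) (nat_lit 4))
    (@En.n l2698 (nat_lit 642) (nat_lit 5) (nat_lit 7))
    (@En.n l50 (nat_lit 564) (nat_lit 13) (nat_lit 3))
    (@En.i (nat_lit 561) (nat_lit 0) (nat_lit 3))
    (@En.i (nat_lit 567) (nat_lit 0) (nat_lit 12))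
    (@En.n l601 (nat_lit 561) (nat_lit 3) (nat_lit 13))
    (@En.i (nat_lit 480) (nat_lit 11) (nat_lit 13))
    (@En.n l7914 (nat_lit 2214) (nat_lit 3) (nat_lit 5))
    (@En.i (nat_lit 691) (nat_lit 9) (nat_lit 9))
    (@En.n l730 (nat_lit 563) (nat_lit 12) (nat_lit 6))
    (@En.n l731 (nat_lit 563) (nat_lit 13) (nat_lit 3))
    (@En.n l1106 (nat_lit 562) (nat_lit 0) (nat_lit 3))))
  (@Cl.mk (nat_lit 0x2000600090006000d000b000e0003000200070005000a000d000a000e0003) (nat_lit 0x200000070010) (nat_lit 16) Lb.e (@T16.mk En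
    (@En.n l6410 (nat_lit 561) (nat_lit 8) (nat_lit 3))
    (@En.n l7710 (nat_lit 284) (nat_lit 0) (nat_lit 14))
    (@En.n l872 (nat_lit 2149) (nat_lit 2) (nat_lit 10))
    (@En.n l1643 (nat_lit 3795) (nat_lit 12) (nat_lit 13))
    (@En.n l3 (nat_lit 657) (nat_lit 4) (nat_lit 10))
    (@En.n l7711 (nat_lit 767) (nat_lit 14) (nat_lit 5))
    (@En.n l7712 (nat_lit 724) (nat_lit 6) (nat_lit 7))
    (@En.n l28 (nat_lit 559) (nat_lit 7) (nat_lit 2))
    (@En.n l7713 (nat_lit 562) (nat_lit 8) (nat_lit 3))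
    (@En.n l5144 (nat_lit 941) (nat_lit 0) (nat_lit 14))
    (@En.n l7714 (nat_lit 879) (nat_lit 2) (nat_lit 11))
    (@En.n l564 (nat_lit 471) (nat_lit 12) (nat_lit 13))
    (@En.n l7715 (nat_lit 2220) (nat_lit 13) (nat_lit 6))
    (@En.n l7716 (nat_lit 2755) (nat_lit 5) (nat_lit 9))
    (@En.n l7717 (nat_lit 561) (nat_lit 6) (nat_lit 6))
    (@En.n l17 (nat_lit 559) (nat_lit 15) (nat_lit 2))))
noncomputable def a35 : T16 Cl := @T16.mk Cl
  (@Cl.mk (nat_lit 0x200070005000a000e000d0002000c0003000600090004000d000b000e0003) (nat_lit 0x7000000002000) (nat_lit 16) Lb.e (@T16.mk En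
    (@En.n l50 (nat_lit 563) (nat_lit 6) (nat_lit 3))
    (@En.i (nat_lit 942) (nat_lit 0) (nat_lit 14))
    (@En.n l2805 (nat_lit 880) (nat_lit 2) (nat_lit 11))
    (@En.n l7638 (nat_lit 483) (nat_lit 10) (nat_lit 13))
    (@En.n l1851 (nat_lit 2219) (nat_lit 4) (nat_lit 4))
    (@En.n l1643 (nat_lit 686) (nat_lit 5) (nat_lit 9))
    (@En.i (nat_lit 284) (nat_lit 12) (nat_lit 6))
    (@En.n l615 (nat_lit 561) (nat_lit 7) (nat_lit 3))
    (@En.n l947 (nat_lit 2180) (nat_lit 0) (nat_lit 12))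
    (@En.n l107 (nat_lit 560) (nat_lit 9) (nat_lit 2))
    (@En.n l1643 (nat_lit 561) (nat_lit 11) (nat_lit 13))
    (@En.n l619 (nat_lit 4014) (nat_lit 12) (nat_lit 14))
    (@En.n l2197 (nat_lit 658) (nat_lit 13) (nat_lit 10))
    (@En.n l403 (nat_lit 768) (nat_lit 14) (nat_lit 5))
    (@En.n l1353 (nat_lit 725) (nat_lit 4) (nat_lit 7))
    (@En.n l18 (nat_lit 560) (nat_lit 15) (nat_lit 2))))
  (@Cl.mk (nat_lit 0x200070005000a000d000d000b00030003000600090005000d000b000e0003) (nat_lit 0x7b10000002000) (nat_lit 16) Lb.e (@T16.mk En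
    (@En.n l7 (nat_lit 558) (nat_lit 7) (nat_lit 3))
    (@En.n l301 (nat_lit 936) (nat_lit 0) (nat_lit 14))
    (@En.n l829 (nat_lit 878) (nat_lit 2) (nat_lit 11))
    (@En.n l2693 (nat_lit 469) (nat_lit 11) (nat_lit 13))
    (@En.n l301 (nat_lit 2218) (nat_lit 4) (nat_lit 5))
    (@En.i (nat_lit 689) (nat_lit 5) (nat_lit 9))
    (@En.n l730 (nat_lit 560) (nat_lit 6) (nat_lit 6))
    (@En.n l731 (nat_lit 560) (nat_lit 7) (nat_lit 3))
    (@En.n l2694 (nat_lit 559) (nat_lit 0) (nat_lit 3))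
    (@En.n l639 (nat_lit 2141) (nat_lit 10) (nat_lit 11))
    (@En.n l2695 (nat_lit 559) (nat_lit 3) (nat_lit 13))
    (@En.n l2696 (nat_lit 3647) (nat_lit 12) (nat_lit 13))
    (@En.n l2697 (nat_lit 655) (nat_lit 13) (nat_lit 10))
    (@En.n l1957 (nat_lit 766) (nat_lit 14) (nat_lit 5))
    (@En.n l2698 (nat_lit 648) (nat_lit 5) (nat_lit 7))
    (@En.n l50 (nat_lit 561) (nat_lit 15) (nat_lit 2))))
  (@Cl.mk (nat_lit 0x2000600090006000d000d000c0003000300070004000a000d000a000e0003) (nat_lit 0x23300007b010) (nat_lit 16) Lb.e (@T16.mk En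
    (@En.n l3596 (nat_lit 558) (nat_lit 15) (nat_lit 3))
    (@En.i (nat_lit 283) (nat_lit 0) (nat_lit 14))
    (@En.n l5891 (nat_lit 2150) (nat_lit 2) (nat_lit 10))
    (@En.i (nat_lit 3797) (nat_lit 5) (nat_lit 13))
    (@En.n l3749 (nat_lit 656) (nat_lit 4) (nat_lit 10))
    (@En.n l403 (nat_lit 587) (nat_lit 5) (nat_lit 4))
    (@En.n l1353 (nat_lit 643) (nat_lit 6) (nat_lit 7))
    (@En.n l18 (nat_lit 565) (nat_lit 7) (nat_lit 3))
    (@En.n l18656 (nat_lit 559) (nat_lit 8) (nat_lit 3))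
    (@En.n l6444 (nat_lit 585) (nat_lit 10) (nat_lit 12))
    (@En.n l18657 (nat_lit 559) (nat_lit 11) (nat_lit 13))
    (@En.n l723 (nat_lit 481) (nat_lit 12) (nat_lit 13))
    (@En.n l8252 (nat_lit 2216) (nat_lit 13) (nat_lit 6))
    (@En.n l5891 (nat_lit 1146) (nat_lit 14) (nat_lit 9))
    (@En.n l2037 (nat_lit 558) (nat_lit 13) (nat_lit 6))
    (@En.n l107 (nat_lit 562) (nat_lit 15) (nat_lit 2))))
  (@Cl.mk (nat_lit 0x2000c0003000600090004000d000d000c0003000300070004000a000e000d) (nat_lit 0x2330000701) (nat_lit 16) Lb.e (@T16.mk En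
    (@En.n l1643 (nat_lit 558) (nat_lit 2) (nat_lit 13))
    (@En.n l619 (nat_lit 3810) (nat_lit 1) (nat_lit 14))
    (@En.i (nat_lit 654) (nat_lit 2) (nat_lit 10))
    (@En.n l403 (nat_lit 588) (nat_lit 3) (nat_lit 4))
    (@En.n l1353 (nat_lit 644) (nat_lit 4) (nat_lit 7))
    (@En.n l18 (nat_lit 566) (nat_lit 5) (nat_lit 3))
    (@En.i (nat_lit 560) (nat_lit 0) (nat_lit 3))
    (@En.n l6444 (nat_lit 584) (nat_lit 8) (nat_lit 12))
    (@En.n l396 (nat_lit 560) (nat_lit 3) (nat_lit 13))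
    (@En.i (nat_lit 482) (nat_lit 10) (nat_lit 13))
    (@En.i (nat_lit 2212) (nat_lit 10) (nat_lit 4))
    (@En.n l1643 (nat_lit 690) (nat_lit 12) (nat_lit 9))
    (@En.i (nat_lit 283) (nat_lit 12) (nat_lit 6))
    (@En.n l615 (nat_lit 558) (nat_lit 14) (nat_lit 3))
    (@En.i (nat_lit 2181) (nat_lit 0) (nat_lit 12))
    (@En.n l107 (nat_lit 563) (nat_lit 15) (nat_lit 2))))
  (@Cl.mk (nat_lit 0x2000d000300070003000a000d000d000b00030003000600090005000e000d) (nat_lit 0x400070000000013) (nat_lit 16) Lb.e (@T16.mk En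
    (@En.n l601 (nat_lit 558) (nat_lit 10) (nat_lit 13))
    (@En.i (nat_lit 383) (nat_lit 1) (nat_lit 14))
    (@En.i (nat_lit 2213) (nat_lit 2) (nat_lit 5))
    (@En.i (nat_lit 1147) (nat_lit 3) (nat_lit 9))
    (@En.n l730 (nat_lit 566) (nat_lit 12) (nat_lit 6))
    (@En.n l731 (nat_lit 566) (nat_lit 13) (nat_lit 3))
    (@En.n l1106 (nat_lit 565) (nat_lit 0) (nat_lit 3))
    (@En.n l639 (nat_lit 2187) (nat_lit 0) (nat_lit 11))
    (@En.n l637 (nat_lit 565) (nat_lit 3) (nat_lit 13))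
    (@En.n l2009 (nat_lit 3805) (nat_lit 5) (nat_lit 13))
    (@En.i (nat_lit 569) (nat_lit 11) (nat_lit 10))
    (@En.n l18 (nat_lit 567) (nat_lit 11) (nat_lit 3))
    (@En.i (nat_lit 702) (nat_lit 0) (nat_lit 7))
    (@En.i (nat_lit 558) (nat_lit 6) (nat_lit 3))
    (@En.i (nat_lit 524) (nat_lit 0) (nat_lit 13))
    (@En.n l7 (nat_lit 564) (nat_lit 15) (nat_lit 2))))
  (@Cl.mk (nat_lit 0x2000600090006000e000d0002000d000300070003000a000d000a000e0003) (nat_lit 0x13040007b010) (nat_lit 16) Lb.e (@T16.mk En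
    (@En.n l3596 (nat_lit 564) (nat_lit 6) (nat_lit 3))
    (@En.i (nat_lit 285) (nat_lit 0) (nat_lit 14))
    (@En.n l5891 (nat_lit 2204) (nat_lit 2) (nat_lit 10))
    (@En.i (nat_lit 3800) (nat_lit 5) (nat_lit 13))
    (@En.i (nat_lit 641) (nat_lit 11) (nat_lit 10))
    (@En.n l2364 (nat_lit 585) (nat_lit 5) (nat_lit 3))
    (@En.i (nat_lit 711) (nat_lit 6) (nat_lit 7))
    (@En.i (nat_lit 562) (nat_lit 7) (nat_lit 3))
    (@En.i (nat_lit 531) (nat_lit 0) (nat_lit 13))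
    (@En.n l50 (nat_lit 565) (nat_lit 9) (nat_lit 2))
    (@En.n l396 (nat_lit 562) (nat_lit 11) (nat_lit 13))
    (@En.n l2031 (nat_lit 386) (nat_lit 12) (nat_lit 14))
    (@En.n l1357 (nat_lit 2215) (nat_lit 13) (nat_lit 6))
    (@En.n l5891 (nat_lit 1145) (nat_lit 14) (nat_lit 9))
    (@En.n l2037 (nat_lit 564) (nat_lit 4) (nat_lit 6))
    (@En.n l107 (nat_lit 565) (nat_lit 15) (nat_lit 2))))
  (@Cl.mk (nat_lit 0x2000c0003000600090004000e000d0002000d000300070003000a000e000d) (nat_lit 0x1304000801) (nat_lit 16) Lb.e (@T16.mk En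
    (@En.n l1643 (nat_lit 564) (nat_lit 9) (nat_lit 13))
    (@En.n l619 (nat_lit 3808) (nat_lit 10) (nat_lit 14))
    (@En.i (nat_lit 640) (nat_lit 11) (nat_lit 10))
    (@En.n l2364 (nat_lit 584) (nat_lit 3) (nat_lit 3))
    (@En.i (nat_lit 710) (nat_lit 0) (nat_lit 7))
    (@En.i (nat_lit 563) (nat_lit 5) (nat_lit 3))
    (@En.i (nat_lit 525) (nat_lit 0) (nat_lit 13))
    (@En.n l50 (nat_lit 566) (nat_lit 7) (nat_lit 2))
    (@En.n l396 (nat_lit 563) (nat_lit 9) (nat_lit 13))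
    (@En.i (nat_lit 382) (nat_lit 1) (nat_lit 14))
    (@En.i (nat_lit 2211) (nat_lit 10) (nat_lit 4))
    (@En.n l1643 (nat_lit 1215) (nat_lit 3) (nat_lit 9))
    (@En.i (nat_lit 285) (nat_lit 12) (nat_lit 6))
    (@En.n l615 (nat_lit 564) (nat_lit 5) (nat_lit 3))
    (@En.i (nat_lit 2182) (nat_lit 0) (nat_lit 12))
    (@En.n l107 (nat_lit 566) (nat_lit 15) (nat_lit 2))))
  (@Cl.mk (nat_lit 0x2000d000600040003000a000d000d000b000300030006000a0005000e000c) (nat_lit 0x5000700000070a2) (nat_lit 16) Lb.e (@T16.mk En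
    (@En.n l2014 (nat_lit 586) (nat_lit 10) (nat_lit 12))
    (@En.i (nat_lit 381) (nat_lit 1) (nat_lit 14))
    (@En.i (nat_lit 2209) (nat_lit 2) (nat_lit 5))
    (@En.i (nat_lit 1116) (nat_lit 3) (nat_lit 10))
    (@En.n l633 (nat_lit 584) (nat_lit 12) (nat_lit 6))
    (@En.n l2015 (nat_lit 584) (nat_lit 13) (nat_lit 3))
    (@En.n l2016 (nat_lit 585) (nat_lit 0) (nat_lit 3))
    (@En.n l629 (nat_lit 2186) (nat_lit 0) (nat_lit 11))
    (@En.n l627 (nat_lit 585) (nat_lit 3) (nat_lit 13))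
    (@En.n l2017 (nat_lit 3804) (nat_lit 5) (nat_lit 13))
    (@En.i (nat_lit 630) (nat_lit 11) (nat_lit 10))
    (@En.i (nat_lit 564) (nat_lit 11) (nat_lit 3))
    (@En.n l629 (nat_lit 589) (nat_lit 0) (nat_lit 4))
    (@En.n l5 (nat_lit 569) (nat_lit 14) (nat_lit 6))
    (@En.n l2018 (nat_lit 526) (nat_lit 1) (nat_lit 13))
    (@En.n l7 (nat_lit 567) (nat_lit 15) (nat_lit 2))))
  (@Cl.mk (nat_lit 0x300030006000b00090006000d000d0005000300030007000a000d000d000a) (nat_lit 0x9101200006000) (nat_lit 16) Lb.e (@T16.mk En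
    (@En.n l639 (nat_lit 2140) (nat_lit 0) (nat_lit 10))
    (@En.n l14112 (nat_lit 656) (nat_lit 3) (nat_lit 13))
    (@En.n l5895 (nat_lit 664) (nat_lit 5) (nat_lit 13))
    (@En.n l727 (nat_lit 633) (nat_lit 8) (nat_lit 10))
    (@En.n l2698 (nat_lit 646) (nat_lit 4) (nat_lit 7))
    (@En.n l50 (nat_lit 569) (nat_lit 13) (nat_lit 3))
    (@En.n l2697 (nat_lit 655) (nat_lit 0) (nat_lit 3))
    (@En.i (nat_lit 440) (nat_lit 0) (nat_lit 5))
    (@En.n l14113 (nat_lit 655) (nat_lit 3) (nat_lit 13))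
    (@En.n l727 (nat_lit 460) (nat_lit 10) (nat_lit 13))
    (@En.n l14114 (nat_lit 3323) (nat_lit 3) (nat_lit 6))
    (@En.n l17 (nat_lit 558) (nat_lit 12) (nat_lit 9))
    (@En.n l14115 (nat_lit 6166) (nat_lit 13) (nat_lit 11))
    (@En.n l730 (nat_lit 654) (nat_lit 12) (nat_lit 6))
    (@En.n l731 (nat_lit 654) (nat_lit 13) (nat_lit 3))
    (@En.n l2058 (nat_lit 656) (nat_lit 0) (nat_lit 3))))
  (@Cl.mk (nat_lit 0x2000600030007000a000d000d000a000300030006000a00090006000e000d) (nat_lit 0x6000000810b2) (nat_lit 16) Lb.e (@T16.mk En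
    (@En.n l601 (nat_lit 568) (nat_lit 9) (nat_lit 13))
    (@En.n l5901 (nat_lit 387) (nat_lit 1) (nat_lit 14))
    (@En.n l728 (nat_lit 3215) (nat_lit 2) (nat_lit 6))
    (@En.n l17 (nat_lit 564) (nat_lit 3) (nat_lit 9))
    (@En.n l17 (nat_lit 6164) (nat_lit 4) (nat_lit 10))
    (@En.n l730 (nat_lit 640) (nat_lit 5) (nat_lit 6))
    (@En.n l731 (nat_lit 640) (nat_lit 6) (nat_lit 3))
    (@En.n l1106 (nat_lit 641) (nat_lit 7) (nat_lit 3))
    (@En.n l639 (nat_lit 2194) (nat_lit 9) (nat_lit 10))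
    (@En.n l637 (nat_lit 641) (nat_lit 10) (nat_lit 13))
    (@En.n l5902 (nat_lit 3908) (nat_lit 11) (nat_lit 13))
    (@En.i (nat_lit 634) (nat_lit 12) (nat_lit 10))
    (@En.n l1738 (nat_lit 703) (nat_lit 13) (nat_lit 7))
    (@En.i (nat_lit 568) (nat_lit 5) (nat_lit 3))
    (@En.n l889 (nat_lit 486) (nat_lit 0) (nat_lit 6))
    (@En.n l7 (nat_lit 569) (nat_lit 15) (nat_lit 2))))
  (@Cl.mk (nat_lit 0x200060009000d000a000e00030002000b00070006000a000d0005000e0003) (nat_lit 0x710b009002b050) (nat_lit 16) Lb.e (@T16.mk En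
    (@En.i (nat_lit 539) (nat_lit 7) (nat_lit 3))
    (@En.n l11034 (nat_lit 13512) (nat_lit 0) (nat_lit 14))
    (@En.i (nat_lit 333) (nat_lit 2) (nat_lit 5))
    (@En.n l1643 (nat_lit 3766) (nat_lit 5) (nat_lit 13))
    (@En.n l3 (nat_lit 536) (nat_lit 4) (nat_lit 10))
    (@En.n l6416 (nat_lit 533) (nat_lit 5) (nat_lit 6))
    (@En.i (nat_lit 559) (nat_lit 6) (nat_lit 7))
    (@En.i (nat_lit 5493) (nat_lit 8) (nat_lit 11))
    (@En.n l28 (nat_lit 570) (nat_lit 8) (nat_lit 2))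
    (@En.n l13255 (nat_lit 556) (nat_lit 9) (nat_lit 3))
    (@En.n l5144 (nat_lit 13120) (nat_lit 0) (nat_lit 14))
    (@En.n l2381 (nat_lit 627) (nat_lit 12) (nat_lit 10))
    (@En.n l1644 (nat_lit 467) (nat_lit 13) (nat_lit 13))
    (@En.n l7368 (nat_lit 1206) (nat_lit 14) (nat_lit 9))
    (@En.n l617 (nat_lit 539) (nat_lit 5) (nat_lit 6))
    (@En.n l17 (nat_lit 570) (nat_lit 15) (nat_lit 2))))
  (@Cl.mk (nat_lit 0x20007000300060009000d000a000e00030002000900070006000a000e000d) (nat_lit 0x710b00000331) (nat_lit 16) Lb.e (@T16.mk En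
    (@En.n l27305 (nat_lit 539) (nat_lit 10) (nat_lit 13))
    (@En.n l10131 (nat_lit 3688) (nat_lit 11) (nat_lit 14))
    (@En.i (nat_lit 537) (nat_lit 2) (nat_lit 10))
    (@En.n l3549 (nat_lit 534) (nat_lit 3) (nat_lit 6))
    (@En.n l23382 (nat_lit 560) (nat_lit 14) (nat_lit 7))
    (@En.n l13756 (nat_lit 5490) (nat_lit 5) (nat_lit 9))
    (@En.n l11 (nat_lit 571) (nat_lit 6) (nat_lit 2))
    (@En.n l23144 (nat_lit 557) (nat_lit 7) (nat_lit 3))
    (@En.n l513 (nat_lit 13123) (nat_lit 0) (nat_lit 14))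
    (@En.n l27306 (nat_lit 626) (nat_lit 10) (nat_lit 10))
    (@En.i (nat_lit 468) (nat_lit 11) (nat_lit 13))
    (@En.n l11815 (nat_lit 1210) (nat_lit 12) (nat_lit 9))
    (@En.n l699 (nat_lit 13512) (nat_lit 12) (nat_lit 6))
    (@En.n l22246 (nat_lit 539) (nat_lit 6) (nat_lit 3))
    (@En.i (nat_lit 1056) (nat_lit 0) (nat_lit 7))
    (@En.n l18 (nat_lit 571) (nat_lit 15) (nat_lit 2))))
  (@Cl.mk (nat_lit 0x2000d0009000600030006000a000d000d0007000300030006000a000e000a) (nat_lit 0x40000007c0) (nat_lit 16) Lb.e (@T16.mk En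
    (@En.n l5986 (nat_lit 576) (nat_lit 11) (nat_lit 10))
    (@En.n l4973 (nat_lit 921) (nat_lit 1) (nat_lit 14))
    (@En.n l296 (nat_lit 1126) (nat_lit 2) (nat_lit 10))
    (@En.n l343 (nat_lit 578) (nat_lit 12) (nat_lit 6))
    (@En.n l1577 (nat_lit 578) (nat_lit 13) (nat_lit 3))
    (@En.n l1393 (nat_lit 579) (nat_lit 0) (nat_lit 3))
    (@En.n l575 (nat_lit 1458) (nat_lit 0) (nat_lit 7))
    (@En.n l5987 (nat_lit 579) (nat_lit 3) (nat_lit 13))
    (@En.n l572 (nat_lit 2244) (nat_lit 5) (nat_lit 13))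
    (@En.n l5155 (nat_lit 505) (nat_lit 10) (nat_lit 10))
    (@En.n l5988 (nat_lit 539) (nat_lit 12) (nat_lit 6))
    (@En.n l5989 (nat_lit 580) (nat_lit 11) (nat_lit 3))
    (@En.n l296 (nat_lit 747) (nat_lit 0) (nat_lit 6))
    (@En.n l4973 (nat_lit 7626) (nat_lit 14) (nat_lit 9))
    (@En.n l5990 (nat_lit 576) (nat_lit 9) (nat_lit 13))
    (@En.n l18 (nat_lit 572) (nat_lit 15) (nat_lit 2))))
  (@Cl.mk (nat_lit 0x2000900030006000b000a000a000d00070005000300060006000a000e000d) (nat_lit 0x700000000500) (nat_lit 16) Lb.e (@T16.mk En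
    (@En.n l180 (nat_lit 576) (nat_lit 2) (nat_lit 13))
    (@En.n l26855 (nat_lit 2248) (nat_lit 1) (nat_lit 14))
    (@En.n l5549 (nat_lit 476) (nat_lit 2) (nat_lit 10))
    (@En.n l27335 (nat_lit 578) (nat_lit 3) (nat_lit 6))
    (@En.n l26358 (nat_lit 626) (nat_lit 4) (nat_lit 6))
    (@En.n l27336 (nat_lit 803) (nat_lit 5) (nat_lit 3))
    (@En.n l26359 (nat_lit 746) (nat_lit 0) (nat_lit 5))
    (@En.n l26360 (nat_lit 904) (nat_lit 7) (nat_lit 7))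
    (@En.n l617 (nat_lit 892) (nat_lit 9) (nat_lit 13))
    (@En.n l2687 (nat_lit 892) (nat_lit 10) (nat_lit 10))
    (@En.i (nat_lit 650) (nat_lit 11) (nat_lit 10))
    (@En.n l27337 (nat_lit 1127) (nat_lit 12) (nat_lit 11))
    (@En.i (nat_lit 13342) (nat_lit 12) (nat_lit 6))
    (@En.i (nat_lit 576) (nat_lit 14) (nat_lit 3))
    (@En.i (nat_lit 1459) (nat_lit 0) (nat_lit 9))
    (@En.n l107 (nat_lit 573) (nat_lit 15) (nat_lit 2))))
  (@Cl.mk (nat_lit 0x20006000b000a000a000d00090005000300060006000a000d0007000e0003) (nat_lit 0x70000000050000) (nat_lit 16) Lb.e (@T16.mk En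
    (@En.n l7382 (nat_lit 576) (nat_lit 15) (nat_lit 3))
    (@En.n l13678 (nat_lit 13342) (nat_lit 0) (nat_lit 14))
    (@En.n l15423 (nat_lit 1671) (nat_lit 2) (nat_lit 7))
    (@En.n l573 (nat_lit 2369) (nat_lit 5) (nat_lit 13))
    (@En.i (nat_lit 475) (nat_lit 4) (nat_lit 10))
    (@En.n l637 (nat_lit 579) (nat_lit 5) (nat_lit 6))
    (@En.n l13680 (nat_lit 627) (nat_lit 6) (nat_lit 6))
    (@En.n l28 (nat_lit 583) (nat_lit 7) (nat_lit 3))
    (@En.n l21976 (nat_lit 745) (nat_lit 0) (nat_lit 5))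
    (@En.n l77 (nat_lit 905) (nat_lit 10) (nat_lit 9))
    (@En.n l1412 (nat_lit 893) (nat_lit 11) (nat_lit 13))
    (@En.n l13681 (nat_lit 893) (nat_lit 12) (nat_lit 10))
    (@En.n l13678 (nat_lit 649) (nat_lit 13) (nat_lit 10))
    (@En.n l17616 (nat_lit 1173) (nat_lit 14) (nat_lit 11))
    (@En.n l21977 (nat_lit 576) (nat_lit 13) (nat_lit 6))
    (@En.n l18 (nat_lit 574) (nat_lit 15) (nat_lit 2))))
  (@Cl.mk (nat_lit 0x2000a000d000d0009000300030006000c000a000d000700040003000e0006) (nat_lit 0x600000070a00010) (nat_lit 16) Lb.e (@T16.mk En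
    (@En.n l7388 (nat_lit 576) (nat_lit 5) (nat_lit 6))
    (@En.n l7389 (nat_lit 432) (nat_lit 1) (nat_lit 14))
    (@En.n l7390 (nat_lit 894) (nat_lit 2) (nat_lit 3))
    (@En.n l28 (nat_lit 744) (nat_lit 3) (nat_lit 4))
    (@En.i (nat_lit 897) (nat_lit 4) (nat_lit 7))
    (@En.i (nat_lit 13082) (nat_lit 5) (nat_lit 13))
    (@En.n l6359 (nat_lit 647) (nat_lit 12) (nat_lit 10))
    (@En.i (nat_lit 1172) (nat_lit 8) (nat_lit 12))
    (@En.n l7391 (nat_lit 892) (nat_lit 12) (nat_lit 6))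
    (@En.n l7392 (nat_lit 892) (nat_lit 13) (nat_lit 3))
    (@En.n l1790 (nat_lit 893) (nat_lit 0) (nat_lit 3))
    (@En.n l6359 (nat_lit 1465) (nat_lit 0) (nat_lit 9))
    (@En.n l7393 (nat_lit 893) (nat_lit 3) (nat_lit 13))
    (@En.n l2129 (nat_lit 2246) (nat_lit 5) (nat_lit 13))
    (@En.i (nat_lit 477) (nat_lit 3) (nat_lit 10))
    (@En.n l17 (nat_lit 575) (nat_lit 15) (nat_lit 2))))
noncomputable def a36 : T16 Cl := @T16.mk Cl
  (@Cl.mk (nat_lit 0x300030006000b000a000a000d00080005000300060006000a000d000d0008) (nat_lit 0x781b000004b10) (nat_lit 16) Lb.e (@T16.mk En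
    (@En.i (nat_lit 1461) (nat_lit 0) (nat_lit 8))
    (@En.n l14074 (nat_lit 574) (nat_lit 3) (nat_lit 13))
    (@En.n l7765 (nat_lit 2242) (nat_lit 5) (nat_lit 13))
    (@En.n l14075 (nat_lit 474) (nat_lit 3) (nat_lit 10))
    (@En.n l14076 (nat_lit 572) (nat_lit 10) (nat_lit 6))
    (@En.n l14077 (nat_lit 441) (nat_lit 12) (nat_lit 6))
    (@En.n l14078 (nat_lit 577) (nat_lit 6) (nat_lit 3))
    (@En.n l14079 (nat_lit 741) (nat_lit 0) (nat_lit 5))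
    (@En.n l14075 (nat_lit 903) (nat_lit 9) (nat_lit 8))
    (@En.n l14080 (nat_lit 575) (nat_lit 5) (nat_lit 13))
    (@En.n l14081 (nat_lit 575) (nat_lit 6) (nat_lit 10))
    (@En.i (nat_lit 646) (nat_lit 12) (nat_lit 10))
    (@En.n l14082 (nat_lit 1128) (nat_lit 13) (nat_lit 11))
    (@En.n l159 (nat_lit 573) (nat_lit 12) (nat_lit 6))
    (@En.n l11 (nat_lit 573) (nat_lit 13) (nat_lit 3))
    (@En.n l14083 (nat_lit 574) (nat_lit 0) (nat_lit 3))))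
  (@Cl.mk (nat_lit 0x300030006000c000a000a000d00040009000300060006000a000d000d0007) (nat_lit 0x7000000004000) (nat_lit 16) Lb.e (@T16.mk En
    (@En.n l829 (nat_lit 1423) (nat_lit 0) (nat_lit 7))
    (@En.n l217 (nat_lit 583) (nat_lit 3) (nat_lit 13))
    (@En.n l5320 (nat_lit 2243) (nat_lit 5) (nat_lit 13))
    (@En.i (nat_lit 470) (nat_lit 3) (nat_lit 10))
    (@En.n l637 (nat_lit 580) (nat_lit 10) (nat_lit 6))
    (@En.n l638 (nat_lit 797) (nat_lit 12) (nat_lit 6))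
    (@En.n l7382 (nat_lit 576) (nat_lit 6) (nat_lit 3))
    (@En.n l7383 (nat_lit 996) (nat_lit 0) (nat_lit 9))
    (@En.n l1898 (nat_lit 791) (nat_lit 8) (nat_lit 4))
    (@En.n l7384 (nat_lit 894) (nat_lit 5) (nat_lit 13))
    (@En.n l7385 (nat_lit 894) (nat_lit 6) (nat_lit 10))
    (@En.n l7386 (nat_lit 729) (nat_lit 12) (nat_lit 10))
    (@En.n l7387 (nat_lit 2334) (nat_lit 13) (nat_lit 12))
    (@En.n l2114 (nat_lit 803) (nat_lit 12) (nat_lit 6))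
    (@En.n l1959 (nat_lit 803) (nat_lit 13) (nat_lit 3))
    (@En.n l50 (nat_lit 583) (nat_lit 0) (nat_lit 3))))
  (@Cl.mk (nat_lit 0x2000800030006000a000e000a0002000d0008000600030006000a000e000d) (nat_lit 0x701010000401) (nat_lit 16) Lb.e (@T16.mk En
    (@En.n l55 (nat_lit 572) (nat_lit 8) (nat_lit 13))
    (@En.n l313 (nat_lit 3680) (nat_lit 1) (nat_lit 14))
    (@En.n l86 (nat_lit 503) (nat_lit 2) (nat_lit 10))
    (@En.n l2436 (nat_lit 571) (nat_lit 3) (nat_lit 6))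
    (@En.n l14777 (nat_lit 582) (nat_lit 4) (nat_lit 3))
    (@En.n l86 (nat_lit 749) (nat_lit 0) (nat_lit 6))
    (@En.n l6892 (nat_lit 7627) (nat_lit 14) (nat_lit 8))
    (@En.n l14778 (nat_lit 573) (nat_lit 8) (nat_lit 13))
    (@En.n l18 (nat_lit 578) (nat_lit 8) (nat_lit 2))
    (@En.n l14779 (nat_lit 573) (nat_lit 10) (nat_lit 10))
    (@En.n l4484 (nat_lit 928) (nat_lit 11) (nat_lit 14))
    (@En.n l837 (nat_lit 1124) (nat_lit 12) (nat_lit 10))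
    (@En.n l1018 (nat_lit 13350) (nat_lit 12) (nat_lit 6))
    (@En.n l11 (nat_lit 572) (nat_lit 4) (nat_lit 3))
    (@En.n l13306 (nat_lit 1457) (nat_lit 0) (nat_lit 8))
    (@En.n l11 (nat_lit 578) (nat_lit 15) (nat_lit 2))))
  (@Cl.mk (nat_lit 0x20006000a000e000a0002000d000a000600030006000a000d0006000e0003) (nat_lit 0x7010100003b000) (nat_lit 16) Lb.e (@T16.mk En
    (@En.n l4019 (nat_lit 572) (nat_lit 5) (nat_lit 3))
    (@En.i (nat_lit 13350) (nat_lit 0) (nat_lit 14))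
    (@En.n l4263 (nat_lit 1668) (nat_lit 2) (nat_lit 6))
    (@En.n l1643 (nat_lit 2370) (nat_lit 5) (nat_lit 13))
    (@En.n l5891 (nat_lit 504) (nat_lit 4) (nat_lit 10))
    (@En.n l11235 (nat_lit 570) (nat_lit 5) (nat_lit 6))
    (@En.n l7 (nat_lit 581) (nat_lit 6) (nat_lit 3))
    (@En.n l1347 (nat_lit 748) (nat_lit 0) (nat_lit 6))
    (@En.i (nat_lit 7611) (nat_lit 9) (nat_lit 10))
    (@En.n l2037 (nat_lit 574) (nat_lit 10) (nat_lit 13))
    (@En.n l107 (nat_lit 579) (nat_lit 10) (nat_lit 2))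
    (@En.n l3596 (nat_lit 574) (nat_lit 12) (nat_lit 10))
    (@En.i (nat_lit 927) (nat_lit 13) (nat_lit 14))
    (@En.n l4758 (nat_lit 1200) (nat_lit 14) (nat_lit 10))
    (@En.n l5473 (nat_lit 572) (nat_lit 3) (nat_lit 6))
    (@En.n l17 (nat_lit 579) (nat_lit 15) (nat_lit 2))))
  (@Cl.mk (nat_lit 0x2000d0005000a00030006000a000d000d0006000300030006000b000e000a) (nat_lit 0x107003000000701) (nat_lit 16) Lb.e (@T16.mk En
    (@En.n l3596 (nat_lit 577) (nat_lit 11) (nat_lit 10))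
    (@En.i (nat_lit 926) (nat_lit 4) (nat_lit 14))
    (@En.n l4758 (nat_lit 2336) (nat_lit 2) (nat_lit 11))
    (@En.n l1295 (nat_lit 582) (nat_lit 12) (nat_lit 6))
    (@En.n l2101 (nat_lit 582) (nat_lit 13) (nat_lit 3))
    (@En.n l18 (nat_lit 581) (nat_lit 0) (nat_lit 3))
    (@En.n l5909 (nat_lit 1455) (nat_lit 0) (nat_lit 6))
    (@En.n l61 (nat_lit 581) (nat_lit 3) (nat_lit 13))
    (@En.n l1643 (nat_lit 2245) (nat_lit 5) (nat_lit 13))
    (@En.n l5891 (nat_lit 510) (nat_lit 10) (nat_lit 10))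
    (@En.i (nat_lit 529) (nat_lit 12) (nat_lit 6))
    (@En.n l4019 (nat_lit 572) (nat_lit 11) (nat_lit 3))
    (@En.n l5910 (nat_lit 998) (nat_lit 0) (nat_lit 10))
    (@En.i (nat_lit 797) (nat_lit 14) (nat_lit 5))
    (@En.n l2037 (nat_lit 577) (nat_lit 9) (nat_lit 13))
    (@En.n l107 (nat_lit 580) (nat_lit 15) (nat_lit 2))))
  (@Cl.mk (nat_lit 0x20006000b000e000a0002000d0005000b00030006000a000d0005000e0003) (nat_lit 0x7000008003b050) (nat_lit 16) Lb.e (@T16.mk En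
    (@En.i (nat_lit 580) (nat_lit 5) (nat_lit 3))
    (@En.i (nat_lit 13348) (nat_lit 0) (nat_lit 14))
    (@En.i (nat_lit 1665) (nat_lit 2) (nat_lit 5))
    (@En.n l1643 (nat_lit 2373) (nat_lit 5) (nat_lit 13))
    (@En.n l5891 (nat_lit 511) (nat_lit 4) (nat_lit 10))
    (@En.i (nat_lit 530) (nat_lit 5) (nat_lit 6))
    (@En.i (nat_lit 579) (nat_lit 6) (nat_lit 3))
    (@En.n l2031 (nat_lit 995) (nat_lit 0) (nat_lit 11))
    (@En.i (nat_lit 801) (nat_lit 14) (nat_lit 5))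
    (@En.n l2037 (nat_lit 583) (nat_lit 10) (nat_lit 13))
    (@En.n l107 (nat_lit 581) (nat_lit 10) (nat_lit 2))
    (@En.n l3596 (nat_lit 583) (nat_lit 12) (nat_lit 10))
    (@En.i (nat_lit 923) (nat_lit 13) (nat_lit 14))
    (@En.n l4758 (nat_lit 2335) (nat_lit 14) (nat_lit 11))
    (@En.n l617 (nat_lit 580) (nat_lit 3) (nat_lit 6))
    (@En.n l17 (nat_lit 581) (nat_lit 15) (nat_lit 2))))
  (@Cl.mk (nat_lit 0x2000700030006000b000e000a0002000d0005000900030006000a000e000d) (nat_lit 0x700000000331) (nat_lit 16) Lb.e (@T16.mk En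
    (@En.n l1012 (nat_lit 580) (nat_lit 8) (nat_lit 13))
    (@En.n l1063 (nat_lit 2205) (nat_lit 9) (nat_lit 14))
    (@En.n l2036 (nat_lit 512) (nat_lit 2) (nat_lit 10))
    (@En.i (nat_lit 531) (nat_lit 3) (nat_lit 6))
    (@En.n l1391 (nat_lit 578) (nat_lit 4) (nat_lit 3))
    (@En.n l2036 (nat_lit 1003) (nat_lit 0) (nat_lit 9))
    (@En.n l2037 (nat_lit 802) (nat_lit 14) (nat_lit 5))
    (@En.n l1758 (nat_lit 803) (nat_lit 8) (nat_lit 13))
    (@En.n l3 (nat_lit 582) (nat_lit 8) (nat_lit 2))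
    (@En.n l4871 (nat_lit 803) (nat_lit 10) (nat_lit 10))
    (@En.i (nat_lit 924) (nat_lit 11) (nat_lit 14))
    (@En.n l3495 (nat_lit 2337) (nat_lit 12) (nat_lit 11))
    (@En.n l2568 (nat_lit 13348) (nat_lit 12) (nat_lit 6))
    (@En.n l3291 (nat_lit 580) (nat_lit 4) (nat_lit 3))
    (@En.i (nat_lit 1454) (nat_lit 0) (nat_lit 7))
    (@En.n l18 (nat_lit 582) (nat_lit 15) (nat_lit 2))))
  (@Cl.mk (nat_lit 0x20006000c000a000a000d0004000a000300060006000a000d0006000e0003) (nat_lit 0x780b070004b060) (nat_lit 16) Lb.e (@T16.mk En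
    (@En.i (nat_lit 577) (nat_lit 15) (nat_lit 3))
    (@En.n l699 (nat_lit 13339) (nat_lit 0) (nat_lit 14))
    (@En.i (nat_lit 1422) (nat_lit 2) (nat_lit 6))
    (@En.n l5320 (nat_lit 2371) (nat_lit 5) (nat_lit 13))
    (@En.i (nat_lit 472) (nat_lit 4) (nat_lit 10))
    (@En.n l637 (nat_lit 581) (nat_lit 5) (nat_lit 6))
    (@En.n l638 (nat_lit 801) (nat_lit 12) (nat_lit 6))
    (@En.i (nat_lit 574) (nat_lit 7) (nat_lit 3))
    (@En.n l1897 (nat_lit 997) (nat_lit 0) (nat_lit 10))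
    (@En.n l1898 (nat_lit 795) (nat_lit 9) (nat_lit 4))
    (@En.n l7384 (nat_lit 895) (nat_lit 11) (nat_lit 13))
    (@En.n l7385 (nat_lit 895) (nat_lit 12) (nat_lit 10))
    (@En.n l7386 (nat_lit 730) (nat_lit 13) (nat_lit 10))
    (@En.n l17616 (nat_lit 2304) (nat_lit 14) (nat_lit 12))
    (@En.n l1738 (nat_lit 577) (nat_lit 13) (nat_lit 6))
    (@En.n l18 (nat_lit 583) (nat_lit 15) (nat_lit 2))))
  (@Cl.mk (nat_lit 0x2000c00030006000a0004000e000c0002000d000600040003000a000e000d) (nat_lit 0xa204000801) (nat_lit 16) Lb.e (@T16.mk En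
    (@En.n l1982 (nat_lit 567) (nat_lit 9) (nat_lit 13))
    (@En.n l619 (nat_lit 3809) (nat_lit 10) (nat_lit 14))
    (@En.i (nat_lit 752) (nat_lit 11) (nat_lit 10))
    (@En.n l763 (nat_lit 566) (nat_lit 3) (nat_lit 3))
    (@En.i (nat_lit 591) (nat_lit 0) (nat_lit 4))
    (@En.n l764 (nat_lit 640) (nat_lit 14) (nat_lit 6))
    (@En.n l765 (nat_lit 523) (nat_lit 7) (nat_lit 13))
    (@En.n l50 (nat_lit 584) (nat_lit 7) (nat_lit 2))
    (@En.n l217 (nat_lit 588) (nat_lit 9) (nat_lit 12))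
    (@En.i (nat_lit 380) (nat_lit 1) (nat_lit 14))
    (@En.i (nat_lit 2210) (nat_lit 10) (nat_lit 4))
    (@En.n l1982 (nat_lit 1117) (nat_lit 3) (nat_lit 10))
    (@En.i (nat_lit 286) (nat_lit 12) (nat_lit 6))
    (@En.n l1966 (nat_lit 567) (nat_lit 5) (nat_lit 3))
    (@En.i (nat_lit 2183) (nat_lit 0) (nat_lit 12))
    (@En.n l107 (nat_lit 584) (nat_lit 15) (nat_lit 2))))
  (@Cl.mk (nat_lit 0x20006000a0006000e000c0002000d000600040003000a000d000a000e0003) (nat_lit 0xa2040007b010) (nat_lit 16) Lb.e (@T16.mk En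
    (@En.n l5888 (nat_lit 567) (nat_lit 6) (nat_lit 3))
    (@En.i (nat_lit 286) (nat_lit 0) (nat_lit 14))
    (@En.n l2533 (nat_lit 2207) (nat_lit 2) (nat_lit 10))
    (@En.i (nat_lit 3802) (nat_lit 5) (nat_lit 13))
    (@En.n l3311 (nat_lit 639) (nat_lit 11) (nat_lit 10))
    (@En.n l763 (nat_lit 565) (nat_lit 5) (nat_lit 3))
    (@En.i (nat_lit 590) (nat_lit 6) (nat_lit 4))
    (@En.n l764 (nat_lit 641) (nat_lit 14) (nat_lit 6))
    (@En.n l2026 (nat_lit 529) (nat_lit 9) (nat_lit 13))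
    (@En.n l50 (nat_lit 585) (nat_lit 9) (nat_lit 2))
    (@En.n l217 (nat_lit 587) (nat_lit 11) (nat_lit 12))
    (@En.n l2567 (nat_lit 416) (nat_lit 12) (nat_lit 14))
    (@En.n l2900 (nat_lit 2217) (nat_lit 13) (nat_lit 6))
    (@En.n l2533 (nat_lit 1144) (nat_lit 14) (nat_lit 10))
    (@En.n l2029 (nat_lit 567) (nat_lit 4) (nat_lit 6))
    (@En.n l107 (nat_lit 585) (nat_lit 15) (nat_lit 2))))
  (@Cl.mk (nat_lit 0x300030006000b0005000c000c000c0005000400040004000a000d000d000b) (nat_lit 0x1013300007000) (nat_lit 16) Lb.e (@T16.mk En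
    (@En.i (nat_lit 2190) (nat_lit 0) (nat_lit 11))
    (@En.n l1572 (nat_lit 587) (nat_lit 3) (nat_lit 13))
    (@En.n l619 (nat_lit 3646) (nat_lit 5) (nat_lit 13))
    (@En.n l5637 (nat_lit 638) (nat_lit 3) (nat_lit 10))
    (@En.n l5729 (nat_lit 878) (nat_lit 12) (nat_lit 4))
    (@En.n l5730 (nat_lit 567) (nat_lit 12) (nat_lit 4))
    (@En.i (nat_lit 592) (nat_lit 6) (nat_lit 4))
    (@En.n l5731 (nat_lit 568) (nat_lit 7) (nat_lit 5))
    (@En.n l742 (nat_lit 589) (nat_lit 4) (nat_lit 12))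
    (@En.n l396 (nat_lit 766) (nat_lit 4) (nat_lit 12))
    (@En.n l5637 (nat_lit 454) (nat_lit 11) (nat_lit 12))
    (@En.n l5732 (nat_lit 835) (nat_lit 4) (nat_lit 5))
    (@En.n l1936 (nat_lit 306) (nat_lit 13) (nat_lit 11))
    (@En.n l159 (nat_lit 588) (nat_lit 12) (nat_lit 6))
    (@En.n l11 (nat_lit 588) (nat_lit 13) (nat_lit 3))
    (@En.n l2691 (nat_lit 587) (nat_lit 0) (nat_lit 3))))
  (@Cl.mk (nat_lit 0x20006000b0006000c000c000c0005000400040004000a000d000a000e0003) (nat_lit 0x1013300007b010) (nat_lit 16) Lb.e (@T16.mk En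
    (@En.n l7706 (nat_lit 586) (nat_lit 15) (nat_lit 3))
    (@En.i (nat_lit 287) (nat_lit 0) (nat_lit 14))
    (@En.n l7425 (nat_lit 2235) (nat_lit 2) (nat_lit 10))
    (@En.i (nat_lit 3786) (nat_lit 5) (nat_lit 13))
    (@En.n l5911 (nat_lit 738) (nat_lit 4) (nat_lit 10))
    (@En.n l1778 (nat_lit 879) (nat_lit 12) (nat_lit 4))
    (@En.n l2172 (nat_lit 585) (nat_lit 6) (nat_lit 4))
    (@En.i (nat_lit 594) (nat_lit 7) (nat_lit 4))
    (@En.n l5912 (nat_lit 656) (nat_lit 8) (nat_lit 5))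
    (@En.n l742 (nat_lit 590) (nat_lit 10) (nat_lit 12))
    (@En.n l6840 (nat_lit 767) (nat_lit 4) (nat_lit 12))
    (@En.n l5911 (nat_lit 457) (nat_lit 12) (nat_lit 12))
    (@En.n l1347 (nat_lit 2221) (nat_lit 13) (nat_lit 6))
    (@En.n l7419 (nat_lit 312) (nat_lit 14) (nat_lit 11))
    (@En.n l4870 (nat_lit 586) (nat_lit 13) (nat_lit 6))
    (@En.n l107 (nat_lit 587) (nat_lit 15) (nat_lit 2))))
  (@Cl.mk (nat_lit 0x2000c00030006000b0004000c000c000c0005000400040004000a000e000d) (nat_lit 0x101330000701) (nat_lit 16) Lb.e (@T16.mk En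
    (@En.n l180 (nat_lit 586) (nat_lit 2) (nat_lit 13))
    (@En.n l619 (nat_lit 3816) (nat_lit 1) (nat_lit 14))
    (@En.i (nat_lit 739) (nat_lit 2) (nat_lit 10))
    (@En.n l1778 (nat_lit 880) (nat_lit 12) (nat_lit 4))
    (@En.n l2172 (nat_lit 584) (nat_lit 4) (nat_lit 4))
    (@En.i (nat_lit 595) (nat_lit 5) (nat_lit 4))
    (@En.n l5802 (nat_lit 654) (nat_lit 6) (nat_lit 5))
    (@En.n l742 (nat_lit 591) (nat_lit 4) (nat_lit 12))
    (@En.n l396 (nat_lit 768) (nat_lit 4) (nat_lit 12))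
    (@En.n l7 (nat_lit 484) (nat_lit 10) (nat_lit 12))
    (@En.i (nat_lit 2208) (nat_lit 10) (nat_lit 4))
    (@En.n l13988 (nat_lit 305) (nat_lit 12) (nat_lit 11))
    (@En.i (nat_lit 287) (nat_lit 12) (nat_lit 6))
    (@En.i (nat_lit 586) (nat_lit 14) (nat_lit 3))
    (@En.i (nat_lit 2184) (nat_lit 0) (nat_lit 12))
    (@En.n l107 (nat_lit 588) (nat_lit 15) (nat_lit 2))))
  (@Cl.mk (nat_lit 0x2000a000d000d000b000300030006000c0005000d000c00040003000e0004) (nat_lit 0x700000010120050) (nat_lit 16) Lb.e (@T16.mk En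
    (@En.n l50 (nat_lit 586) (nat_lit 5) (nat_lit 4))
    (@En.n l5 (nat_lit 528) (nat_lit 1) (nat_lit 14))
    (@En.n l50 (nat_lit 593) (nat_lit 2) (nat_lit 3))
    (@En.i (nat_lit 670) (nat_lit 3) (nat_lit 4))
    (@En.n l217 (nat_lit 592) (nat_lit 10) (nat_lit 12))
    (@En.i (nat_lit 447) (nat_lit 6) (nat_lit 13))
    (@En.n l5732 (nat_lit 827) (nat_lit 6) (nat_lit 5))
    (@En.n l615 (nat_lit 310) (nat_lit 8) (nat_lit 12))
    (@En.n l159 (nat_lit 591) (nat_lit 8) (nat_lit 6))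
    (@En.n l11 (nat_lit 591) (nat_lit 9) (nat_lit 3))
    (@En.n l2691 (nat_lit 590) (nat_lit 0) (nat_lit 3))
    (@En.i (nat_lit 2193) (nat_lit 12) (nat_lit 11))
    (@En.n l1572 (nat_lit 590) (nat_lit 3) (nat_lit 13))
    (@En.n l619 (nat_lit 3776) (nat_lit 5) (nat_lit 13))
    (@En.i (nat_lit 648) (nat_lit 3) (nat_lit 10))
    (@En.n l17 (nat_lit 589) (nat_lit 15) (nat_lit 2))))
  (@Cl.mk (nat_lit 0x20006000c0006000d000c00040003000e00040002000a000d000a000e0003) (nat_lit 0x1012005007b000) (nat_lit 16) Lb.e (@T16.mk En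
    (@En.n l7706 (nat_lit 589) (nat_lit 10) (nat_lit 3))
    (@En.i (nat_lit 13156) (nat_lit 0) (nat_lit 14))
    (@En.n l12743 (nat_lit 2234) (nat_lit 2) (nat_lit 10))
    (@En.i (nat_lit 3779) (nat_lit 5) (nat_lit 13))
    (@En.i (nat_lit 724) (nat_lit 4) (nat_lit 10))
    (@En.n l17 (nat_lit 590) (nat_lit 5) (nat_lit 2))
    (@En.n l50 (nat_lit 587) (nat_lit 6) (nat_lit 4))
    (@En.n l998 (nat_lit 530) (nat_lit 1) (nat_lit 14))
    (@En.n l50 (nat_lit 596) (nat_lit 8) (nat_lit 3))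
    (@En.i (nat_lit 671) (nat_lit 9) (nat_lit 4))
    (@En.n l217 (nat_lit 594) (nat_lit 11) (nat_lit 12))
    (@En.i (nat_lit 451) (nat_lit 12) (nat_lit 13))
    (@En.n l810 (nat_lit 826) (nat_lit 13) (nat_lit 6))
    (@En.n l5891 (nat_lit 313) (nat_lit 8) (nat_lit 12))
    (@En.n l4870 (nat_lit 589) (nat_lit 8) (nat_lit 6))
    (@En.n l107 (nat_lit 590) (nat_lit 15) (nat_lit 2))))
  (@Cl.mk (nat_lit 0x2000a000e000d0002000c00030006000c0004000d000c00040003000e0004) (nat_lit 0x701000010120050) (nat_lit 16) Lb.e (@T16.mk En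
    (@En.n l50 (nat_lit 588) (nat_lit 4) (nat_lit 4))
    (@En.n l5 (nat_lit 527) (nat_lit 1) (nat_lit 14))
    (@En.n l50 (nat_lit 597) (nat_lit 2) (nat_lit 3))
    (@En.i (nat_lit 672) (nat_lit 3) (nat_lit 4))
    (@En.n l217 (nat_lit 595) (nat_lit 9) (nat_lit 12))
    (@En.i (nat_lit 452) (nat_lit 10) (nat_lit 13))
    (@En.i (nat_lit 834) (nat_lit 6) (nat_lit 4))
    (@En.n l1643 (nat_lit 309) (nat_lit 8) (nat_lit 12))
    (@En.i (nat_lit 13156) (nat_lit 12) (nat_lit 6))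
    (@En.i (nat_lit 589) (nat_lit 9) (nat_lit 3))
    (@En.i (nat_lit 2191) (nat_lit 0) (nat_lit 12))
    (@En.n l107 (nat_lit 591) (nat_lit 11) (nat_lit 2))
    (@En.n l180 (nat_lit 589) (nat_lit 13) (nat_lit 13))
    (@En.n l619 (nat_lit 3831) (nat_lit 1) (nat_lit 14))
    (@En.i (nat_lit 725) (nat_lit 2) (nat_lit 10))
    (@En.n l17 (nat_lit 591) (nat_lit 15) (nat_lit 2))))
noncomputable def a37 : T16 Cl := @T16.mk Cl
  (@Cl.mk (nat_lit 0x300030006000d0005000c0003000d000d000400030003000a000d000d000b) (nat_lit 0x2010450007000) (nat_lit 16) Lb.e (@T16.mk En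
    (@En.i (nat_lit 2230) (nat_lit 0) (nat_lit 11))
    (@En.n l1572 (nat_lit 594) (nat_lit 3) (nat_lit 13))
    (@En.n l619 (nat_lit 3644) (nat_lit 5) (nat_lit 13))
    (@En.i (nat_lit 647) (nat_lit 3) (nat_lit 10))
    (@En.n l669 (nat_lit 847) (nat_lit 13) (nat_lit 3))
    (@En.n l18 (nat_lit 593) (nat_lit 0) (nat_lit 3))
    (@En.i (nat_lit 766) (nat_lit 0) (nat_lit 4))
    (@En.n l61 (nat_lit 593) (nat_lit 3) (nat_lit 13))
    (@En.n l615 (nat_lit 558) (nat_lit 9) (nat_lit 13))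
    (@En.i (nat_lit 842) (nat_lit 9) (nat_lit 3))
    (@En.i (nat_lit 446) (nat_lit 0) (nat_lit 12))
    (@En.n l5732 (nat_lit 831) (nat_lit 5) (nat_lit 5))
    (@En.n l615 (nat_lit 509) (nat_lit 7) (nat_lit 13))
    (@En.n l159 (nat_lit 595) (nat_lit 12) (nat_lit 6))
    (@En.n l11 (nat_lit 595) (nat_lit 13) (nat_lit 3))
    (@En.n l2691 (nat_lit 594) (nat_lit 0) (nat_lit 3))))
  (@Cl.mk (nat_lit 0x2000a000d000d000b000300030006000d0005000d0003000d0003000e0003) (nat_lit 0x800000020204010) (nat_lit 16) Lb.e (@T16.mk En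
    (@En.i (nat_lit 592) (nat_lit 5) (nat_lit 3))
    (@En.i (nat_lit 272) (nat_lit 0) (nat_lit 14))
    (@En.i (nat_lit 589) (nat_lit 2) (nat_lit 3))
    (@En.n l615 (nat_lit 564) (nat_lit 0) (nat_lit 13))
    (@En.i (nat_lit 841) (nat_lit 4) (nat_lit 3))
    (@En.i (nat_lit 450) (nat_lit 6) (nat_lit 13))
    (@En.n l5732 (nat_lit 829) (nat_lit 6) (nat_lit 5))
    (@En.n l615 (nat_lit 513) (nat_lit 8) (nat_lit 13))
    (@En.n l159 (nat_lit 597) (nat_lit 8) (nat_lit 6))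
    (@En.n l11 (nat_lit 597) (nat_lit 9) (nat_lit 3))
    (@En.n l2691 (nat_lit 596) (nat_lit 0) (nat_lit 3))
    (@En.i (nat_lit 2232) (nat_lit 12) (nat_lit 11))
    (@En.n l1572 (nat_lit 596) (nat_lit 3) (nat_lit 13))
    (@En.n l619 (nat_lit 3777) (nat_lit 5) (nat_lit 13))
    (@En.i (nat_lit 642) (nat_lit 3) (nat_lit 10))
    (@En.n l17 (nat_lit 593) (nat_lit 15) (nat_lit 2))))
  (@Cl.mk (nat_lit 0x20006000d0006000c0003000d000d000400030003000a000d000a000e0003) (nat_lit 0x8010450008b000) (nat_lit 16) Lb.e (@T16.mk En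
    (@En.n l7706 (nat_lit 592) (nat_lit 15) (nat_lit 3))
    (@En.i (nat_lit 13158) (nat_lit 0) (nat_lit 14))
    (@En.n l12743 (nat_lit 2231) (nat_lit 2) (nat_lit 10))
    (@En.i (nat_lit 3780) (nat_lit 5) (nat_lit 13))
    (@En.n l3348 (nat_lit 651) (nat_lit 4) (nat_lit 10))
    (@En.n l5331 (nat_lit 848) (nat_lit 13) (nat_lit 3))
    (@En.n l18 (nat_lit 596) (nat_lit 6) (nat_lit 3))
    (@En.n l3348 (nat_lit 767) (nat_lit 0) (nat_lit 4))
    (@En.n l61 (nat_lit 596) (nat_lit 9) (nat_lit 13))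
    (@En.i (nat_lit 562) (nat_lit 10) (nat_lit 13))
    (@En.i (nat_lit 839) (nat_lit 10) (nat_lit 3))
    (@En.n l2869 (nat_lit 456) (nat_lit 12) (nat_lit 12))
    (@En.n l810 (nat_lit 830) (nat_lit 13) (nat_lit 6))
    (@En.n l5891 (nat_lit 510) (nat_lit 14) (nat_lit 13))
    (@En.n l4870 (nat_lit 592) (nat_lit 13) (nat_lit 6))
    (@En.n l107 (nat_lit 594) (nat_lit 15) (nat_lit 2))))
  (@Cl.mk (nat_lit 0x2000c00030006000d0004000c0003000d000d000400030003000a000e000d) (nat_lit 0x801045000801) (nat_lit 16) Lb.e (@T16.mk En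
    (@En.n l180 (nat_lit 592) (nat_lit 2) (nat_lit 13))
    (@En.n l619 (nat_lit 3829) (nat_lit 1) (nat_lit 14))
    (@En.i (nat_lit 652) (nat_lit 2) (nat_lit 10))
    (@En.i (nat_lit 849) (nat_lit 13) (nat_lit 3))
    (@En.n l18 (nat_lit 597) (nat_lit 0) (nat_lit 3))
    (@En.i (nat_lit 768) (nat_lit 0) (nat_lit 4))
    (@En.n l61 (nat_lit 597) (nat_lit 3) (nat_lit 13))
    (@En.i (nat_lit 563) (nat_lit 8) (nat_lit 13))
    (@En.i (nat_lit 840) (nat_lit 8) (nat_lit 3))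
    (@En.i (nat_lit 455) (nat_lit 10) (nat_lit 12))
    (@En.i (nat_lit 833) (nat_lit 10) (nat_lit 4))
    (@En.n l1643 (nat_lit 515) (nat_lit 12) (nat_lit 13))
    (@En.i (nat_lit 13158) (nat_lit 12) (nat_lit 6))
    (@En.i (nat_lit 592) (nat_lit 14) (nat_lit 3))
    (@En.i (nat_lit 2259) (nat_lit 0) (nat_lit 12))
    (@En.n l107 (nat_lit 595) (nat_lit 15) (nat_lit 2))))
  (@Cl.mk (nat_lit 0x20006000d0006000d0003000d0003000e00030002000a000d000a000e0003) (nat_lit 0x3010401007b000) (nat_lit 16) Lb.e (@T16.mk En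
    (@En.n l7706 (nat_lit 593) (nat_lit 10) (nat_lit 3))
    (@En.i (nat_lit 13157) (nat_lit 0) (nat_lit 14))
    (@En.n l12743 (nat_lit 2233) (nat_lit 2) (nat_lit 10))
    (@En.i (nat_lit 3778) (nat_lit 5) (nat_lit 13))
    (@En.i (nat_lit 643) (nat_lit 4) (nat_lit 10))
    (@En.n l17 (nat_lit 596) (nat_lit 5) (nat_lit 2))
    (@En.i (nat_lit 594) (nat_lit 6) (nat_lit 3))
    (@En.i (nat_lit 273) (nat_lit 0) (nat_lit 14))
    (@En.i (nat_lit 590) (nat_lit 8) (nat_lit 3))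
    (@En.i (nat_lit 565) (nat_lit 10) (nat_lit 13))
    (@En.i (nat_lit 845) (nat_lit 10) (nat_lit 3))
    (@En.i (nat_lit 449) (nat_lit 12) (nat_lit 13))
    (@En.n l810 (nat_lit 828) (nat_lit 13) (nat_lit 6))
    (@En.n l5891 (nat_lit 511) (nat_lit 8) (nat_lit 13))
    (@En.n l4870 (nat_lit 593) (nat_lit 8) (nat_lit 6))
    (@En.n l107 (nat_lit 596) (nat_lit 15) (nat_lit 2))))
  (@Cl.mk (nat_lit 0x2000a000e000d0002000c00030006000d0004000d0003000d0003000e0003) (nat_lit 0x801000080104010) (nat_lit 16) Lb.e (@T16.mk En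
    (@En.i (nat_lit 595) (nat_lit 4) (nat_lit 3))
    (@En.i (nat_lit 271) (nat_lit 0) (nat_lit 14))
    (@En.i (nat_lit 591) (nat_lit 2) (nat_lit 3))
    (@En.i (nat_lit 566) (nat_lit 8) (nat_lit 13))
    (@En.i (nat_lit 846) (nat_lit 4) (nat_lit 3))
    (@En.i (nat_lit 448) (nat_lit 10) (nat_lit 13))
    (@En.i (nat_lit 832) (nat_lit 6) (nat_lit 4))
    (@En.n l1643 (nat_lit 520) (nat_lit 8) (nat_lit 13))
    (@En.i (nat_lit 13157) (nat_lit 12) (nat_lit 6))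
    (@En.i (nat_lit 593) (nat_lit 9) (nat_lit 3))
    (@En.i (nat_lit 2260) (nat_lit 0) (nat_lit 12))
    (@En.n l107 (nat_lit 597) (nat_lit 11) (nat_lit 2))
    (@En.n l180 (nat_lit 593) (nat_lit 13) (nat_lit 13))
    (@En.n l619 (nat_lit 3830) (nat_lit 1) (nat_lit 14))
    (@En.i (nat_lit 644) (nat_lit 2) (nat_lit 10))
    (@En.n l17 (nat_lit 597) (nat_lit 15) (nat_lit 2))))
  (@Cl.mk (nat_lit 0x20005000a0006000a000e000d0002000600030006000c000b000a000e0004) (nat_lit 0x1010000a1210) (nat_lit 16) Lb.e (@T16.mk En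
    (@En.n l2869 (nat_lit 543) (nat_lit 7) (nat_lit 4))
    (@En.n l476 (nat_lit 512) (nat_lit 9) (nat_lit 14))
    (@En.n l5994 (nat_lit 503) (nat_lit 10) (nat_lit 10))
    (@En.n l2089 (nat_lit 550) (nat_lit 3) (nat_lit 11))
    (@En.n l2036 (nat_lit 6082) (nat_lit 12) (nat_lit 12))
    (@En.i (nat_lit 13518) (nat_lit 12) (nat_lit 6))
    (@En.n l6077 (nat_lit 546) (nat_lit 6) (nat_lit 3))
    (@En.n l476 (nat_lit 1075) (nat_lit 7) (nat_lit 6))
    (@En.n l28 (nat_lit 598) (nat_lit 8) (nat_lit 2))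
    (@En.n l14802 (nat_lit 546) (nat_lit 10) (nat_lit 13))
    (@En.n l5577 (nat_lit 3888) (nat_lit 11) (nat_lit 14))
    (@En.n l897 (nat_lit 105) (nat_lit 2) (nat_lit 10))
    (@En.n l6078 (nat_lit 669) (nat_lit 13) (nat_lit 6))
    (@En.n l476 (nat_lit 7502) (nat_lit 4) (nat_lit 10))
    (@En.n l899 (nat_lit 605) (nat_lit 13) (nat_lit 5))
    (@En.n l17 (nat_lit 598) (nat_lit 15) (nat_lit 2))))
  (@Cl.mk (nat_lit 0x20005000c0006000a000d0004000e000300020006000c000b000a000e0004) (nat_lit 0x901b04000a1210) (nat_lit 16) Lb.e (@T16.mk En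
    (@En.n l152 (nat_lit 544) (nat_lit 9) (nat_lit 4))
    (@En.n l5859 (nat_lit 511) (nat_lit 11) (nat_lit 14))
    (@En.n l6000 (nat_lit 504) (nat_lit 12) (nat_lit 10))
    (@En.n l2691 (nat_lit 551) (nat_lit 3) (nat_lit 11))
    (@En.n l637 (nat_lit 6232) (nat_lit 14) (nat_lit 12))
    (@En.n l1738 (nat_lit 546) (nat_lit 5) (nat_lit 6))
    (@En.n l18 (nat_lit 599) (nat_lit 6) (nat_lit 2))
    (@En.i (nat_lit 546) (nat_lit 7) (nat_lit 3))
    (@En.n l1867 (nat_lit 13518) (nat_lit 0) (nat_lit 14))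
    (@En.i (nat_lit 906) (nat_lit 9) (nat_lit 4))
    (@En.i (nat_lit 4070) (nat_lit 11) (nat_lit 13))
    (@En.n l1596 (nat_lit 96) (nat_lit 12) (nat_lit 10))
    (@En.i (nat_lit 668) (nat_lit 13) (nat_lit 6))
    (@En.n l5579 (nat_lit 7508) (nat_lit 7) (nat_lit 12))
    (@En.n l4976 (nat_lit 604) (nat_lit 13) (nat_lit 5))
    (@En.n l3 (nat_lit 599) (nat_lit 15) (nat_lit 2))))
  (@Cl.mk (nat_lit 0x200050005000b0005000a000d000d0005000300030006000b000b000e000b) (nat_lit 0x10000000803) (nat_lit 16) Lb.e (@T16.mk En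
    (@En.n l3824 (nat_lit 454) (nat_lit 10) (nat_lit 11))
    (@En.n l14952 (nat_lit 603) (nat_lit 4) (nat_lit 14))
    (@En.n l14953 (nat_lit 603) (nat_lit 5) (nat_lit 11))
    (@En.n l638 (nat_lit 5933) (nat_lit 3) (nat_lit 11))
    (@En.n l14954 (nat_lit 605) (nat_lit 4) (nat_lit 6))
    (@En.n l14955 (nat_lit 605) (nat_lit 5) (nat_lit 3))
    (@En.n l50 (nat_lit 604) (nat_lit 6) (nat_lit 3))
    (@En.n l14956 (nat_lit 610) (nat_lit 7) (nat_lit 5))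
    (@En.n l217 (nat_lit 604) (nat_lit 9) (nat_lit 13))
    (@En.i (nat_lit 2895) (nat_lit 10) (nat_lit 13))
    (@En.n l638 (nat_lit 117) (nat_lit 11) (nat_lit 10))
    (@En.n l14957 (nat_lit 413) (nat_lit 4) (nat_lit 5))
    (@En.n l14829 (nat_lit 5980) (nat_lit 13) (nat_lit 11))
    (@En.n l14958 (nat_lit 606) (nat_lit 14) (nat_lit 5))
    (@En.i (nat_lit 545) (nat_lit 13) (nat_lit 5))
    (@En.n l936 (nat_lit 600) (nat_lit 15) (nat_lit 2))))
  (@Cl.mk (nat_lit 0x20006000b000e000a0002000e00050002000c0006000a000d0004000e0003) (nat_lit 0x70202000010000) (nat_lit 16) Lb.e (@T16.mk En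
    (@En.n l1001 (nat_lit 603) (nat_lit 8) (nat_lit 3))
    (@En.n l1014 (nat_lit 13593) (nat_lit 0) (nat_lit 14))
    (@En.n l996 (nat_lit 611) (nat_lit 2) (nat_lit 4))
    (@En.n l2055 (nat_lit 2733) (nat_lit 5) (nat_lit 13))
    (@En.i (nat_lit 120) (nat_lit 4) (nat_lit 10))
    (@En.n l1018 (nat_lit 490) (nat_lit 14) (nat_lit 6))
    (@En.n l1014 (nat_lit 5982) (nat_lit 7) (nat_lit 12))
    (@En.n l11 (nat_lit 601) (nat_lit 7) (nat_lit 2))
    (@En.n l6651 (nat_lit 604) (nat_lit 14) (nat_lit 5))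
    (@En.n l2055 (nat_lit 599) (nat_lit 1) (nat_lit 14))
    (@En.n l3 (nat_lit 601) (nat_lit 10) (nat_lit 2))
    (@En.n l1098 (nat_lit 613) (nat_lit 12) (nat_lit 10))
    (@En.n l6652 (nat_lit 719) (nat_lit 4) (nat_lit 14))
    (@En.n l1001 (nat_lit 5942) (nat_lit 14) (nat_lit 11))
    (@En.n l15992 (nat_lit 603) (nat_lit 6) (nat_lit 6))
    (@En.n l18 (nat_lit 601) (nat_lit 15) (nat_lit 2))))
  (@Cl.mk (nat_lit 0x2000600030006000b000e000a0002000e00050002000a0006000a000e000d) (nat_lit 0x702020000100) (nat_lit 16) Lb.e (@T16.mk En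
    (@En.n l15974 (nat_lit 603) (nat_lit 11) (nat_lit 13))
    (@En.n l532 (nat_lit 1227) (nat_lit 12) (nat_lit 14))
    (@En.n l3334 (nat_lit 116) (nat_lit 2) (nat_lit 10))
    (@En.n l2520 (nat_lit 491) (nat_lit 14) (nat_lit 6))
    (@En.i (nat_lit 5981) (nat_lit 4) (nat_lit 10))
    (@En.n l725 (nat_lit 602) (nat_lit 5) (nat_lit 2))
    (@En.n l17 (nat_lit 605) (nat_lit 14) (nat_lit 5))
    (@En.n l1003 (nat_lit 598) (nat_lit 1) (nat_lit 14))
    (@En.n l3 (nat_lit 602) (nat_lit 8) (nat_lit 2))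
    (@En.n l6551 (nat_lit 612) (nat_lit 10) (nat_lit 10))
    (@En.n l2520 (nat_lit 720) (nat_lit 4) (nat_lit 14))
    (@En.n l5795 (nat_lit 5941) (nat_lit 12) (nat_lit 11))
    (@En.i (nat_lit 13593) (nat_lit 12) (nat_lit 6))
    (@En.n l6554 (nat_lit 603) (nat_lit 7) (nat_lit 3))
    (@En.i (nat_lit 1342) (nat_lit 0) (nat_lit 6))
    (@En.n l7 (nat_lit 602) (nat_lit 15) (nat_lit 2))))
  (@Cl.mk (nat_lit 0x2000b0006000a000d000d0005000300030006000b000e000a0002000e0005) (nat_lit 0x1b100007c2020) (nat_lit 16) Lb.e (@T16.mk En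
    (@En.n l6496 (nat_lit 600) (nat_lit 14) (nat_lit 5))
    (@En.n l6497 (nat_lit 546) (nat_lit 1) (nat_lit 14))
    (@En.n l107 (nat_lit 603) (nat_lit 2) (nat_lit 2))
    (@En.n l6498 (nat_lit 485) (nat_lit 3) (nat_lit 10))
    (@En.n l6499 (nat_lit 715) (nat_lit 4) (nat_lit 14))
    (@En.i (nat_lit 5939) (nat_lit 2) (nat_lit 11))
    (@En.n l6500 (nat_lit 602) (nat_lit 12) (nat_lit 6))
    (@En.n l6501 (nat_lit 602) (nat_lit 13) (nat_lit 3))
    (@En.n l6502 (nat_lit 601) (nat_lit 0) (nat_lit 3))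
    (@En.n l2094 (nat_lit 1341) (nat_lit 0) (nat_lit 5))
    (@En.n l6503 (nat_lit 601) (nat_lit 3) (nat_lit 13))
    (@En.n l6497 (nat_lit 2998) (nat_lit 5) (nat_lit 13))
    (@En.n l55 (nat_lit 119) (nat_lit 13) (nat_lit 10))
    (@En.n l6504 (nat_lit 486) (nat_lit 14) (nat_lit 6))
    (@En.n l6505 (nat_lit 5979) (nat_lit 12) (nat_lit 11))
    (@En.n l28 (nat_lit 603) (nat_lit 15) (nat_lit 2))))
  (@Cl.mk (nat_lit 0x200050005000c0005000a000d0004000e000300020006000b000b000e000b) (nat_lit 0x1b000000813) (nat_lit 16) Lb.e (@T16.mk En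
    (@En.n l3824 (nat_lit 457) (nat_lit 11) (nat_lit 11))
    (@En.n l16492 (nat_lit 601) (nat_lit 12) (nat_lit 14))
    (@En.n l16493 (nat_lit 601) (nat_lit 13) (nat_lit 11))
    (@En.n l638 (nat_lit 5937) (nat_lit 3) (nat_lit 11))
    (@En.n l1738 (nat_lit 600) (nat_lit 4) (nat_lit 6))
    (@En.n l18 (nat_lit 604) (nat_lit 5) (nat_lit 2))
    (@En.i (nat_lit 600) (nat_lit 6) (nat_lit 3))
    (@En.n l645 (nat_lit 13530) (nat_lit 0) (nat_lit 14))
    (@En.i (nat_lit 609) (nat_lit 8) (nat_lit 4))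
    (@En.i (nat_lit 2734) (nat_lit 10) (nat_lit 13))
    (@En.n l638 (nat_lit 121) (nat_lit 11) (nat_lit 10))
    (@En.n l14957 (nat_lit 488) (nat_lit 5) (nat_lit 5))
    (@En.n l645 (nat_lit 5984) (nat_lit 13) (nat_lit 12))
    (@En.n l14958 (nat_lit 608) (nat_lit 14) (nat_lit 5))
    (@En.i (nat_lit 548) (nat_lit 8) (nat_lit 5))
    (@En.n l936 (nat_lit 604) (nat_lit 15) (nat_lit 2))))
  (@Cl.mk (nat_lit 0x200050005000a0005000a000e000d0002000600030006000b000b000e000b) (nat_lit 0x10100000813) (nat_lit 16) Lb.e (@T16.mk En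
    (@En.n l6108 (nat_lit 484) (nat_lit 9) (nat_lit 11))
    (@En.i (nat_lit 602) (nat_lit 10) (nat_lit 14))
    (@En.n l1353 (nat_lit 602) (nat_lit 11) (nat_lit 11))
    (@En.n l248 (nat_lit 5934) (nat_lit 3) (nat_lit 11))
    (@En.i (nat_lit 13530) (nat_lit 12) (nat_lit 6))
    (@En.n l13547 (nat_lit 600) (nat_lit 5) (nat_lit 3))
    (@En.i (nat_lit 1252) (nat_lit 6) (nat_lit 6))
    (@En.n l7 (nat_lit 605) (nat_lit 7) (nat_lit 2))
    (@En.n l29120 (nat_lit 600) (nat_lit 9) (nat_lit 13))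
    (@En.n l532 (nat_lit 1223) (nat_lit 10) (nat_lit 14))
    (@En.i (nat_lit 118) (nat_lit 2) (nat_lit 10))
    (@En.i (nat_lit 487) (nat_lit 3) (nat_lit 5))
    (@En.i (nat_lit 5983) (nat_lit 13) (nat_lit 10))
    (@En.n l725 (nat_lit 607) (nat_lit 14) (nat_lit 5))
    (@En.n l3340 (nat_lit 547) (nat_lit 6) (nat_lit 5))
    (@En.n l3 (nat_lit 605) (nat_lit 15) (nat_lit 2))))
  (@Cl.mk (nat_lit 0x20005000b0004000a000d000d0005000300030006000e000b0002000e000c) (nat_lit 0x2000000c1014) (nat_lit 16) Lb.e (@T16.mk En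
    (@En.n l13822 (nat_lit 446) (nat_lit 14) (nat_lit 12))
    (@En.n l2068 (nat_lit 600) (nat_lit 1) (nat_lit 14))
    (@En.n l3 (nat_lit 606) (nat_lit 2) (nat_lit 2))
    (@En.n l5891 (nat_lit 600) (nat_lit 3) (nat_lit 11))
    (@En.i (nat_lit 5869) (nat_lit 5) (nat_lit 14))
    (@En.n l25354 (nat_lit 607) (nat_lit 5) (nat_lit 6))
    (@En.n l11949 (nat_lit 607) (nat_lit 6) (nat_lit 3))
    (@En.n l18 (nat_lit 608) (nat_lit 7) (nat_lit 3))
    (@En.n l5395 (nat_lit 1272) (nat_lit 8) (nat_lit 5))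
    (@En.n l61 (nat_lit 608) (nat_lit 10) (nat_lit 13))
    (@En.n l2036 (nat_lit 2896) (nat_lit 11) (nat_lit 13))
    (@En.i (nat_lit 187) (nat_lit 12) (nat_lit 10))
    (@En.n l4415 (nat_lit 489) (nat_lit 9) (nat_lit 4))
    (@En.n l5929 (nat_lit 5897) (nat_lit 14) (nat_lit 11))
    (@En.n l5891 (nat_lit 510) (nat_lit 13) (nat_lit 5))
    (@En.n l28 (nat_lit 606) (nat_lit 15) (nat_lit 2))))
  (@Cl.mk (nat_lit 0x20005000a0004000a000e000d0002000600030006000e000b0002000e000c) (nat_lit 0x2010000c1024) (nat_lit 16) Lb.e (@T16.mk En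
    (@En.n l649 (nat_lit 455) (nat_lit 8) (nat_lit 12))
    (@En.i (nat_lit 605) (nat_lit 1) (nat_lit 14))
    (@En.n l17 (nat_lit 607) (nat_lit 2) (nat_lit 2))
    (@En.n l1353 (nat_lit 605) (nat_lit 3) (nat_lit 11))
    (@En.n l2031 (nat_lit 5868) (nat_lit 12) (nat_lit 14))
    (@En.i (nat_lit 13531) (nat_lit 12) (nat_lit 6))
    (@En.n l11618 (nat_lit 606) (nat_lit 6) (nat_lit 3))
    (@En.i (nat_lit 1273) (nat_lit 7) (nat_lit 6))
    (@En.n l7 (nat_lit 607) (nat_lit 8) (nat_lit 2))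
    (@En.n l19884 (nat_lit 606) (nat_lit 10) (nat_lit 13))
    (@En.n l532 (nat_lit 1221) (nat_lit 11) (nat_lit 14))
    (@En.n l2036 (nat_lit 221) (nat_lit 2) (nat_lit 10))
    (@En.n l2221 (nat_lit 492) (nat_lit 3) (nat_lit 4))
    (@En.i (nat_lit 5896) (nat_lit 4) (nat_lit 10))
    (@En.n l1643 (nat_lit 512) (nat_lit 5) (nat_lit 5))
    (@En.n l3 (nat_lit 607) (nat_lit 15) (nat_lit 2))))
noncomputable def a38 : T16 Cl := @T16.mk Cl
  (@Cl.mk (nat_lit 0x20005000c0004000a000d0004000e000300020006000e000b0002000e000c) (nat_lit 0x2b00000c1024) (nat_lit 16) Lb.e (@T16.mk En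
    (@En.n l2036 (nat_lit 456) (nat_lit 10) (nat_lit 12))
    (@En.n l2068 (nat_lit 604) (nat_lit 1) (nat_lit 14))
    (@En.n l3 (nat_lit 608) (nat_lit 2) (nat_lit 2))
    (@En.n l5891 (nat_lit 604) (nat_lit 3) (nat_lit 11))
    (@En.i (nat_lit 5871) (nat_lit 5) (nat_lit 14))
    (@En.n l617 (nat_lit 606) (nat_lit 5) (nat_lit 6))
    (@En.n l17 (nat_lit 608) (nat_lit 6) (nat_lit 2))
    (@En.i (nat_lit 606) (nat_lit 7) (nat_lit 3))
    (@En.n l2036 (nat_lit 13531) (nat_lit 0) (nat_lit 14))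
    (@En.i (nat_lit 999) (nat_lit 9) (nat_lit 4))
    (@En.n l2036 (nat_lit 2897) (nat_lit 11) (nat_lit 13))
    (@En.i (nat_lit 185) (nat_lit 12) (nat_lit 10))
    (@En.n l4415 (nat_lit 493) (nat_lit 5) (nat_lit 4))
    (@En.n l2036 (nat_lit 5899) (nat_lit 7) (nat_lit 12))
    (@En.n l5891 (nat_lit 511) (nat_lit 7) (nat_lit 5))
    (@En.n l28 (nat_lit 608) (nat_lit 15) (nat_lit 2))))
  (@Cl.mk (nat_lit 0x200050005000c000b0006000b0004000e000500020005000b000b000e000a) (nat_lit 0x101000000000) (nat_lit 16) Lb.e (@T16.mk En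
    (@En.n l3824 (nat_lit 990) (nat_lit 11) (nat_lit 10))
    (@En.n l17600 (nat_lit 611) (nat_lit 12) (nat_lit 14))
    (@En.n l17601 (nat_lit 611) (nat_lit 13) (nat_lit 11))
    (@En.n l638 (nat_lit 6285) (nat_lit 3) (nat_lit 11))
    (@En.n l17602 (nat_lit 610) (nat_lit 4) (nat_lit 5))
    (@En.n l18 (nat_lit 609) (nat_lit 5) (nat_lit 2))
    (@En.n l5784 (nat_lit 1247) (nat_lit 6) (nat_lit 5))
    (@En.n l17603 (nat_lit 997) (nat_lit 8) (nat_lit 14))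
    (@En.i (nat_lit 3200) (nat_lit 8) (nat_lit 4))
    (@En.n l638 (nat_lit 180) (nat_lit 10) (nat_lit 11))
    (@En.n l17604 (nat_lit 6623) (nat_lit 4) (nat_lit 6))
    (@En.n l644 (nat_lit 600) (nat_lit 12) (nat_lit 11))
    (@En.n l645 (nat_lit 12842) (nat_lit 13) (nat_lit 12))
    (@En.n l14958 (nat_lit 999) (nat_lit 14) (nat_lit 5))
    (@En.i (nat_lit 1002) (nat_lit 8) (nat_lit 5))
    (@En.n l936 (nat_lit 609) (nat_lit 15) (nat_lit 2))))
  (@Cl.mk (nat_lit 0x200050005000b000a0006000b000e0005000200060005000b000b000e000a) (nat_lit 0x101000000900) (nat_lit 16) Lb.e (@T16.mk En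
    (@En.n l6108 (nat_lit 1257) (nat_lit 10) (nat_lit 10))
    (@En.n l5647 (nat_lit 1341) (nat_lit 11) (nat_lit 14))
    (@En.n l24224 (nat_lit 1341) (nat_lit 12) (nat_lit 11))
    (@En.n l4174 (nat_lit 6291) (nat_lit 3) (nat_lit 11))
    (@En.n l5592 (nat_lit 1252) (nat_lit 4) (nat_lit 5))
    (@En.n l50 (nat_lit 1248) (nat_lit 5) (nat_lit 6))
    (@En.n l7 (nat_lit 610) (nat_lit 6) (nat_lit 2))
    (@En.n l24225 (nat_lit 1247) (nat_lit 7) (nat_lit 5))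
    (@En.n l13547 (nat_lit 2987) (nat_lit 9) (nat_lit 14))
    (@En.i (nat_lit 17) (nat_lit 2) (nat_lit 11))
    (@En.n l24226 (nat_lit 3466) (nat_lit 3) (nat_lit 6))
    (@En.i (nat_lit 605) (nat_lit 12) (nat_lit 10))
    (@En.n l4172 (nat_lit 11681) (nat_lit 13) (nat_lit 11))
    (@En.n l725 (nat_lit 1272) (nat_lit 14) (nat_lit 5))
    (@En.n l3340 (nat_lit 1027) (nat_lit 7) (nat_lit 5))
    (@En.n l3 (nat_lit 610) (nat_lit 15) (nat_lit 2))))
  (@Cl.mk (nat_lit 0x20005000b000e00090002000e00050002000c000b0007000b0004000e0005) (nat_lit 0x9c002000103000) (nat_lit 16) Lb.e (@T16.mk En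
    (@En.n l7 (nat_lit 1340) (nat_lit 8) (nat_lit 5))
    (@En.n l7109 (nat_lit 1355) (nat_lit 1) (nat_lit 14))
    (@En.i (nat_lit 3468) (nat_lit 2) (nat_lit 4))
    (@En.n l7110 (nat_lit 179) (nat_lit 3) (nat_lit 11))
    (@En.n l2096 (nat_lit 6626) (nat_lit 4) (nat_lit 7))
    (@En.n l7111 (nat_lit 603) (nat_lit 14) (nat_lit 11))
    (@En.n l3201 (nat_lit 12841) (nat_lit 7) (nat_lit 12))
    (@En.n l107 (nat_lit 611) (nat_lit 7) (nat_lit 2))
    (@En.n l7112 (nat_lit 609) (nat_lit 14) (nat_lit 5))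
    (@En.n l7113 (nat_lit 906) (nat_lit 1) (nat_lit 14))
    (@En.n l17 (nat_lit 611) (nat_lit 10) (nat_lit 2))
    (@En.n l7114 (nat_lit 615) (nat_lit 12) (nat_lit 9))
    (@En.i (nat_lit 12886) (nat_lit 4) (nat_lit 14))
    (@En.i (nat_lit 6284) (nat_lit 14) (nat_lit 11))
    (@En.n l7115 (nat_lit 1341) (nat_lit 13) (nat_lit 5))
    (@En.n l50 (nat_lit 611) (nat_lit 15) (nat_lit 2))))
  (@Cl.mk (nat_lit 0x2000700030006000c000a000a000e00040002000900060006000a000e000d) (nat_lit 0xa12b00000201) (nat_lit 16) Lb.e (@T16.mk En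
    (@En.n l26123 (nat_lit 485) (nat_lit 10) (nat_lit 13))
    (@En.n l619 (nat_lit 2992) (nat_lit 11) (nat_lit 14))
    (@En.n l26124 (nat_lit 534) (nat_lit 2) (nat_lit 10))
    (@En.n l15919 (nat_lit 602) (nat_lit 3) (nat_lit 6))
    (@En.n l15912 (nat_lit 430) (nat_lit 14) (nat_lit 6))
    (@En.n l26125 (nat_lit 7874) (nat_lit 5) (nat_lit 9))
    (@En.n l7 (nat_lit 612) (nat_lit 6) (nat_lit 2))
    (@En.n l77 (nat_lit 484) (nat_lit 7) (nat_lit 4))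
    (@En.n l15910 (nat_lit 503) (nat_lit 9) (nat_lit 14))
    (@En.n l15911 (nat_lit 682) (nat_lit 10) (nat_lit 10))
    (@En.n l15912 (nat_lit 459) (nat_lit 11) (nat_lit 10))
    (@En.n l26126 (nat_lit 6268) (nat_lit 12) (nat_lit 12))
    (@En.i (nat_lit 13528) (nat_lit 12) (nat_lit 6))
    (@En.n l15916 (nat_lit 485) (nat_lit 6) (nat_lit 3))
    (@En.n l26124 (nat_lit 619) (nat_lit 0) (nat_lit 7))
    (@En.n l107 (nat_lit 612) (nat_lit 15) (nat_lit 2))))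
  (@Cl.mk (nat_lit 0x20006000c000a000a000e00040002000b00060006000a000d0005000e0003) (nat_lit 0xa12b000002b000) (nat_lit 16) Lb.e (@T16.mk En
    (@En.n l2238 (nat_lit 485) (nat_lit 7) (nat_lit 3))
    (@En.n l12412 (nat_lit 13528) (nat_lit 0) (nat_lit 14))
    (@En.n l2238 (nat_lit 615) (nat_lit 2) (nat_lit 5))
    (@En.n l4750 (nat_lit 2995) (nat_lit 11) (nat_lit 13))
    (@En.i (nat_lit 533) (nat_lit 4) (nat_lit 10))
    (@En.n l288 (nat_lit 601) (nat_lit 5) (nat_lit 6))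
    (@En.n l12413 (nat_lit 431) (nat_lit 14) (nat_lit 6))
    (@En.n l3886 (nat_lit 7887) (nat_lit 8) (nat_lit 11))
    (@En.n l11 (nat_lit 613) (nat_lit 8) (nat_lit 2))
    (@En.n l117 (nat_lit 457) (nat_lit 9) (nat_lit 4))
    (@En.n l4750 (nat_lit 504) (nat_lit 11) (nat_lit 14))
    (@En.n l26142 (nat_lit 683) (nat_lit 12) (nat_lit 10))
    (@En.i (nat_lit 458) (nat_lit 13) (nat_lit 10))
    (@En.n l26143 (nat_lit 6267) (nat_lit 14) (nat_lit 12))
    (@En.n l15792 (nat_lit 485) (nat_lit 5) (nat_lit 6))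
    (@En.n l18 (nat_lit 613) (nat_lit 15) (nat_lit 2))))
  (@Cl.mk (nat_lit 0x200070005000c00090009000e00040002000a000900070007000b000e0006) (nat_lit 0xa000100400) (nat_lit 16) Lb.e (@T16.mk En
    (@En.n l7948 (nat_lit 618) (nat_lit 8) (nat_lit 6))
    (@En.n l3428 (nat_lit 2980) (nat_lit 10) (nat_lit 14))
    (@En.n l24439 (nat_lit 290) (nat_lit 2) (nat_lit 11))
    (@En.n l24440 (nat_lit 1341) (nat_lit 3) (nat_lit 7))
    (@En.n l3428 (nat_lit 9304) (nat_lit 13) (nat_lit 7))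
    (@En.n l24441 (nat_lit 612) (nat_lit 5) (nat_lit 9))
    (@En.n l24442 (nat_lit 11800) (nat_lit 7) (nat_lit 10))
    (@En.n l17 (nat_lit 614) (nat_lit 7) (nat_lit 2))
    (@En.n l24443 (nat_lit 1257) (nat_lit 8) (nat_lit 4))
    (@En.i (nat_lit 1133) (nat_lit 10) (nat_lit 14))
    (@En.n l24444 (nat_lit 1887) (nat_lit 11) (nat_lit 9))
    (@En.n l20926 (nat_lit 953) (nat_lit 12) (nat_lit 9))
    (@En.n l2381 (nat_lit 5913) (nat_lit 13) (nat_lit 12))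
    (@En.n l24445 (nat_lit 619) (nat_lit 14) (nat_lit 5))
    (@En.n l24446 (nat_lit 620) (nat_lit 6) (nat_lit 7))
    (@En.n l28 (nat_lit 614) (nat_lit 15) (nat_lit 2))))
  (@Cl.mk (nat_lit 0x20005000c00090009000e00040002000b000a00070007000b0005000e0006) (nat_lit 0x72a0001002000) (nat_lit 16) Lb.e (@T16.mk En
    (@En.n l1262 (nat_lit 618) (nat_lit 7) (nat_lit 6))
    (@En.n l15359 (nat_lit 616) (nat_lit 1) (nat_lit 14))
    (@En.n l17605 (nat_lit 3193) (nat_lit 2) (nat_lit 5))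
    (@En.i (nat_lit 326) (nat_lit 3) (nat_lit 11))
    (@En.n l17606 (nat_lit 611) (nat_lit 4) (nat_lit 7))
    (@En.n l17605 (nat_lit 9531) (nat_lit 5) (nat_lit 7))
    (@En.n l217 (nat_lit 485) (nat_lit 14) (nat_lit 10))
    (@En.n l8369 (nat_lit 11513) (nat_lit 8) (nat_lit 11))
    (@En.n l28 (nat_lit 615) (nat_lit 8) (nat_lit 2))
    (@En.n l2683 (nat_lit 990) (nat_lit 9) (nat_lit 4))
    (@En.n l17607 (nat_lit 1134) (nat_lit 11) (nat_lit 14))
    (@En.n l15857 (nat_lit 1888) (nat_lit 12) (nat_lit 9))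
    (@En.n l2401 (nat_lit 948) (nat_lit 13) (nat_lit 9))
    (@En.n l17607 (nat_lit 6380) (nat_lit 14) (nat_lit 12))
    (@En.n l17608 (nat_lit 614) (nat_lit 13) (nat_lit 5))
    (@En.n l17 (nat_lit 615) (nat_lit 15) (nat_lit 2))))
  (@Cl.mk (nat_lit 0x200080005000c00090009000e000400020008000b00070007000b000e0005) (nat_lit 0x1200001002c0) (nat_lit 16) Lb.e (@T16.mk En
    (@En.n l8784 (nat_lit 617) (nat_lit 8) (nat_lit 5))
    (@En.n l20970 (nat_lit 3412) (nat_lit 10) (nat_lit 14))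
    (@En.i (nat_lit 323) (nat_lit 2) (nat_lit 11))
    (@En.n l20968 (nat_lit 1355) (nat_lit 3) (nat_lit 7))
    (@En.n l23788 (nat_lit 9530) (nat_lit 4) (nat_lit 7))
    (@En.i (nat_lit 613) (nat_lit 7) (nat_lit 11))
    (@En.n l614 (nat_lit 7792) (nat_lit 6) (nat_lit 8))
    (@En.n l11 (nat_lit 616) (nat_lit 7) (nat_lit 2))
    (@En.n l117 (nat_lit 991) (nat_lit 8) (nat_lit 4))
    (@En.n l20970 (nat_lit 1141) (nat_lit 10) (nat_lit 14))
    (@En.n l21696 (nat_lit 1889) (nat_lit 2) (nat_lit 9))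
    (@En.n l2436 (nat_lit 425) (nat_lit 3) (nat_lit 9))
    (@En.n l23789 (nat_lit 5188) (nat_lit 13) (nat_lit 12))
    (@En.n l28824 (nat_lit 615) (nat_lit 14) (nat_lit 5))
    (@En.n l901 (nat_lit 617) (nat_lit 6) (nat_lit 8))
    (@En.n l50 (nat_lit 616) (nat_lit 15) (nat_lit 2))))
  (@Cl.mk (nat_lit 0x20008000b000b00080008000c0005000500080004000c00080008000e0004) (nat_lit 0x12002006001200) (nat_lit 16) Lb.e (@T16.mk En
    (@En.n l16642 (nat_lit 625) (nat_lit 15) (nat_lit 4))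
    (@En.n l5 (nat_lit 1140) (nat_lit 1) (nat_lit 14))
    (@En.n l16643 (nat_lit 1234) (nat_lit 2) (nat_lit 8))
    (@En.n l16644 (nat_lit 428) (nat_lit 3) (nat_lit 8))
    (@En.n l16645 (nat_lit 5186) (nat_lit 5) (nat_lit 12))
    (@En.n l2312 (nat_lit 618) (nat_lit 5) (nat_lit 4))
    (@En.n l476 (nat_lit 621) (nat_lit 6) (nat_lit 8))
    (@En.n l152 (nat_lit 621) (nat_lit 7) (nat_lit 5))
    (@En.n l16646 (nat_lit 3479) (nat_lit 8) (nat_lit 5))
    (@En.i (nat_lit 324) (nat_lit 10) (nat_lit 12))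
    (@En.n l16647 (nat_lit 1354) (nat_lit 11) (nat_lit 8))
    (@En.n l16648 (nat_lit 9276) (nat_lit 12) (nat_lit 8))
    (@En.n l297 (nat_lit 616) (nat_lit 5) (nat_lit 11))
    (@En.n l226 (nat_lit 615) (nat_lit 7) (nat_lit 11))
    (@En.i (nat_lit 5692) (nat_lit 14) (nat_lit 8))
    (@En.n l17 (nat_lit 617) (nat_lit 15) (nat_lit 2))))
  (@Cl.mk (nat_lit 0x2000a000a000a00080008000c0006000600060004000c00080008000e0004) (nat_lit 0x12003000080000) (nat_lit 16) Lb.e (@T16.mk En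
    (@En.n l16691 (nat_lit 1256) (nat_lit 15) (nat_lit 4))
    (@En.n l5 (nat_lit 1131) (nat_lit 1) (nat_lit 14))
    (@En.n l16692 (nat_lit 1241) (nat_lit 2) (nat_lit 8))
    (@En.n l16178 (nat_lit 951) (nat_lit 3) (nat_lit 8))
    (@En.n l5 (nat_lit 5915) (nat_lit 5) (nat_lit 12))
    (@En.n l15483 (nat_lit 620) (nat_lit 5) (nat_lit 4))
    (@En.n l16693 (nat_lit 622) (nat_lit 10) (nat_lit 6))
    (@En.n l16694 (nat_lit 623) (nat_lit 10) (nat_lit 6))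
    (@En.n l16695 (nat_lit 3195) (nat_lit 8) (nat_lit 6))
    (@En.n l4509 (nat_lit 346) (nat_lit 10) (nat_lit 12))
    (@En.n l16696 (nat_lit 1340) (nat_lit 11) (nat_lit 8))
    (@En.n l7220 (nat_lit 9277) (nat_lit 12) (nat_lit 8))
    (@En.n l4512 (nat_lit 615) (nat_lit 6) (nat_lit 10))
    (@En.n l8009 (nat_lit 614) (nat_lit 6) (nat_lit 10))
    (@En.n l16697 (nat_lit 9329) (nat_lit 14) (nat_lit 10))
    (@En.n l17 (nat_lit 618) (nat_lit 15) (nat_lit 2))))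
  (@Cl.mk (nat_lit 0x20005000c00090009000e000400020009000c00070007000b0004000e0007) (nat_lit 0x4010) (nat_lit 16) Lb.e (@T16.mk En
    (@En.n l8461 (nat_lit 620) (nat_lit 7) (nat_lit 7))
    (@En.n l20966 (nat_lit 614) (nat_lit 1) (nat_lit 14))
    (@En.n l20967 (nat_lit 1345) (nat_lit 2) (nat_lit 4))
    (@En.i (nat_lit 218) (nat_lit 3) (nat_lit 11))
    (@En.n l20968 (nat_lit 1342) (nat_lit 4) (nat_lit 7))
    (@En.n l20969 (nat_lit 9303) (nat_lit 5) (nat_lit 7))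
    (@En.i (nat_lit 13667) (nat_lit 6) (nat_lit 12))
    (@En.n l614 (nat_lit 11799) (nat_lit 8) (nat_lit 9))
    (@En.n l11 (nat_lit 619) (nat_lit 8) (nat_lit 2))
    (@En.n l117 (nat_lit 1258) (nat_lit 9) (nat_lit 4))
    (@En.n l20970 (nat_lit 1174) (nat_lit 11) (nat_lit 14))
    (@En.n l936 (nat_lit 1886) (nat_lit 12) (nat_lit 9))
    (@En.n l2436 (nat_lit 1433) (nat_lit 13) (nat_lit 9))
    (@En.n l20971 (nat_lit 6699) (nat_lit 14) (nat_lit 12))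
    (@En.i (nat_lit 616) (nat_lit 13) (nat_lit 5))
    (@En.n l17 (nat_lit 619) (nat_lit 15) (nat_lit 2))))
  (@Cl.mk (nat_lit 0x200090009000c00080008000c0004000700070004000c00080008000e0004) (nat_lit 0x11005000000000) (nat_lit 16) Lb.e (@T16.mk En
    (@En.n l9270 (nat_lit 1254) (nat_lit 15) (nat_lit 4))
    (@En.n l9271 (nat_lit 1173) (nat_lit 1) (nat_lit 14))
    (@En.n l9272 (nat_lit 1353) (nat_lit 2) (nat_lit 8))
    (@En.n l9273 (nat_lit 1434) (nat_lit 3) (nat_lit 8))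
    (@En.n l9274 (nat_lit 6693) (nat_lit 5) (nat_lit 12))
    (@En.n l9275 (nat_lit 617) (nat_lit 5) (nat_lit 4))
    (@En.n l9276 (nat_lit 624) (nat_lit 9) (nat_lit 7))
    (@En.n l9277 (nat_lit 622) (nat_lit 11) (nat_lit 7))
    (@En.i (nat_lit 1346) (nat_lit 8) (nat_lit 4))
    (@En.n l9278 (nat_lit 219) (nat_lit 10) (nat_lit 12))
    (@En.n l9279 (nat_lit 1251) (nat_lit 11) (nat_lit 8))
    (@En.n l3518 (nat_lit 9295) (nat_lit 12) (nat_lit 8))
    (@En.n l9280 (nat_lit 619) (nat_lit 6) (nat_lit 12))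
    (@En.n l9281 (nat_lit 619) (nat_lit 7) (nat_lit 9))
    (@En.n l9282 (nat_lit 11801) (nat_lit 5) (nat_lit 9))
    (@En.n l28 (nat_lit 620) (nat_lit 15) (nat_lit 2))))
  (@Cl.mk (nat_lit 0x20008000e000b000200090009000d000500080003000c00070007000e0004) (nat_lit 0x82000505000000) (nat_lit 16) Lb.e (@T16.mk En
    (@En.n l9513 (nat_lit 1228) (nat_lit 4) (nat_lit 4))
    (@En.n l31616 (nat_lit 1313) (nat_lit 6) (nat_lit 14))
    (@En.n l21602 (nat_lit 1230) (nat_lit 2) (nat_lit 7))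
    (@En.n l31617 (nat_lit 1495) (nat_lit 3) (nat_lit 7))
    (@En.n l31618 (nat_lit 5187) (nat_lit 9) (nat_lit 12))
    (@En.n l21605 (nat_lit 622) (nat_lit 9) (nat_lit 3))
    (@En.n l14628 (nat_lit 13238) (nat_lit 10) (nat_lit 8))
    (@En.n l16646 (nat_lit 3478) (nat_lit 7) (nat_lit 5))
    (@En.i (nat_lit 358) (nat_lit 13) (nat_lit 13))
    (@En.n l31619 (nat_lit 1356) (nat_lit 14) (nat_lit 9))
    (@En.n l2567 (nat_lit 9271) (nat_lit 11) (nat_lit 9))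
    (@En.n l3 (nat_lit 621) (nat_lit 11) (nat_lit 2))
    (@En.i (nat_lit 617) (nat_lit 13) (nat_lit 11))
    (@En.n l31620 (nat_lit 623) (nat_lit 1) (nat_lit 14))
    (@En.n l613 (nat_lit 7790) (nat_lit 2) (nat_lit 8))
    (@En.n l17 (nat_lit 621) (nat_lit 15) (nat_lit 2))))
  (@Cl.mk (nat_lit 0x200090009000d000700060003000c00070007000e000400020009000e000a) (nat_lit 0x60000000000a2) (nat_lit 16) Lb.e (@T16.mk En
    (@En.n l20815 (nat_lit 618) (nat_lit 13) (nat_lit 10))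
    (@En.n l5117 (nat_lit 624) (nat_lit 1) (nat_lit 14))
    (@En.i (nat_lit 9328) (nat_lit 2) (nat_lit 9))
    (@En.n l17 (nat_lit 622) (nat_lit 3) (nat_lit 2))
    (@En.n l8093 (nat_lit 1097) (nat_lit 4) (nat_lit 4))
    (@En.n l5117 (nat_lit 1099) (nat_lit 6) (nat_lit 14))
    (@En.n l575 (nat_lit 1817) (nat_lit 2) (nat_lit 7))
    (@En.n l10422 (nat_lit 1727) (nat_lit 3) (nat_lit 7))
    (@En.n l8100 (nat_lit 6565) (nat_lit 9) (nat_lit 12))
    (@En.n l17643 (nat_lit 621) (nat_lit 5) (nat_lit 3))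
    (@En.n l7549 (nat_lit 2699) (nat_lit 0) (nat_lit 6))
    (@En.n l8100 (nat_lit 3208) (nat_lit 7) (nat_lit 7))
    (@En.n l21778 (nat_lit 351) (nat_lit 13) (nat_lit 13))
    (@En.n l10548 (nat_lit 1246) (nat_lit 14) (nat_lit 9))
    (@En.n l21778 (nat_lit 9267) (nat_lit 11) (nat_lit 9))
    (@En.n l3 (nat_lit 622) (nat_lit 15) (nat_lit 2))))
  (@Cl.mk (nat_lit 0x2000b00090009000d000600050003000c00070007000e00040002000e000a) (nat_lit 0x300600000000071) (nat_lit 16) Lb.e (@T16.mk En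
    (@En.n l6769 (nat_lit 618) (nat_lit 14) (nat_lit 10))
    (@En.n l644 (nat_lit 11698) (nat_lit 1) (nat_lit 14))
    (@En.n l17 (nat_lit 623) (nat_lit 2) (nat_lit 2))
    (@En.n l6770 (nat_lit 1327) (nat_lit 3) (nat_lit 4))
    (@En.n l6771 (nat_lit 1201) (nat_lit 1) (nat_lit 14))
    (@En.n l6772 (nat_lit 1831) (nat_lit 5) (nat_lit 7))
    (@En.n l420 (nat_lit 1541) (nat_lit 6) (nat_lit 7))
    (@En.n l6773 (nat_lit 7146) (nat_lit 8) (nat_lit 12))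
    (@En.n l6771 (nat_lit 624) (nat_lit 8) (nat_lit 3))
    (@En.n l6774 (nat_lit 2705) (nat_lit 9) (nat_lit 5))
    (@En.n l6775 (nat_lit 1339) (nat_lit 7) (nat_lit 6))
    (@En.n l6774 (nat_lit 1103) (nat_lit 12) (nat_lit 13))
    (@En.n l77 (nat_lit 1332) (nat_lit 13) (nat_lit 9))
    (@En.i (nat_lit 9292) (nat_lit 14) (nat_lit 9))
    (@En.n l6776 (nat_lit 617) (nat_lit 12) (nat_lit 11))
    (@En.n l3 (nat_lit 623) (nat_lit 15) (nat_lit 2))))
noncomputable def a39 : T16 Cl := @T16.mk Cl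
  (@Cl.mk (nat_lit 0x2000c00090009000d000400070003000c00070007000e00040002000e0009) (nat_lit 0x200600000000091) (nat_lit 16) Lb.e (@T16.mk En
    (@En.n l3875 (nat_lit 620) (nat_lit 14) (nat_lit 9))
    (@En.i (nat_lit 11699) (nat_lit 1) (nat_lit 14))
    (@En.n l17 (nat_lit 624) (nat_lit 2) (nat_lit 2))
    (@En.n l3876 (nat_lit 1326) (nat_lit 3) (nat_lit 4))
    (@En.i (nat_lit 1200) (nat_lit 1) (nat_lit 14))
    (@En.n l3877 (nat_lit 1830) (nat_lit 5) (nat_lit 7))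
    (@En.n l3878 (nat_lit 1484) (nat_lit 6) (nat_lit 7))
    (@En.n l3879 (nat_lit 6691) (nat_lit 8) (nat_lit 12))
    (@En.n l3880 (nat_lit 623) (nat_lit 8) (nat_lit 3))
    (@En.n l3881 (nat_lit 2700) (nat_lit 11) (nat_lit 7))
    (@En.n l3875 (nat_lit 1348) (nat_lit 10) (nat_lit 4))
    (@En.n l3882 (nat_lit 1110) (nat_lit 12) (nat_lit 13))
    (@En.n l3883 (nat_lit 1333) (nat_lit 13) (nat_lit 9))
    (@En.n l430 (nat_lit 9293) (nat_lit 14) (nat_lit 9))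
    (@En.n l3884 (nat_lit 620) (nat_lit 12) (nat_lit 12))
    (@En.n l3 (nat_lit 624) (nat_lit 15) (nat_lit 2))))
  (@Cl.mk (nat_lit 0x400040008000b000b00070007000c0005000500080004000c000c00090009) (nat_lit 0x200400000160) (nat_lit 16) Lb.e (@T16.mk En
    (@En.n l61 (nat_lit 1229) (nat_lit 7) (nat_lit 9))
    (@En.n l6594 (nat_lit 1299) (nat_lit 1) (nat_lit 9))
    (@En.n l25902 (nat_lit 617) (nat_lit 4) (nat_lit 12))
    (@En.n l25903 (nat_lit 5460) (nat_lit 3) (nat_lit 12))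
    (@En.n l14965 (nat_lit 1256) (nat_lit 4) (nat_lit 4))
    (@En.n l14448 (nat_lit 1228) (nat_lit 10) (nat_lit 8))
    (@En.n l1768 (nat_lit 1228) (nat_lit 11) (nat_lit 5))
    (@En.n l25904 (nat_lit 3482) (nat_lit 7) (nat_lit 5))
    (@En.n l6594 (nat_lit 322) (nat_lit 8) (nat_lit 12))
    (@En.n l25905 (nat_lit 996) (nat_lit 9) (nat_lit 7))
    (@En.i (nat_lit 9275) (nat_lit 2) (nat_lit 7))
    (@En.n l14450 (nat_lit 991) (nat_lit 5) (nat_lit 11))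
    (@En.n l14451 (nat_lit 990) (nat_lit 7) (nat_lit 11))
    (@En.n l14971 (nat_lit 5691) (nat_lit 11) (nat_lit 8))
    (@En.n l50 (nat_lit 994) (nat_lit 12) (nat_lit 4))
    (@En.n l25906 (nat_lit 373) (nat_lit 0) (nat_lit 4))))
  (@Cl.mk (nat_lit 0x2000800030006000a000a000e000b00020008000600060005000a000e000d) (nat_lit 0x181200000301) (nat_lit 16) Lb.e (@T16.mk En
    (@En.n l15777 (nat_lit 441) (nat_lit 9) (nat_lit 13))
    (@En.n l532 (nat_lit 3683) (nat_lit 10) (nat_lit 14))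
    (@En.n l15778 (nat_lit 612) (nat_lit 2) (nat_lit 10))
    (@En.n l2221 (nat_lit 557) (nat_lit 3) (nat_lit 5))
    (@En.n l6395 (nat_lit 836) (nat_lit 4) (nat_lit 6))
    (@En.i (nat_lit 880) (nat_lit 14) (nat_lit 6))
    (@En.n l6396 (nat_lit 7512) (nat_lit 6) (nat_lit 8))
    (@En.n l3 (nat_lit 626) (nat_lit 7) (nat_lit 2))
    (@En.n l2213 (nat_lit 437) (nat_lit 9) (nat_lit 11))
    (@En.n l15779 (nat_lit 578) (nat_lit 10) (nat_lit 14))
    (@En.n l15780 (nat_lit 696) (nat_lit 6) (nat_lit 10))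
    (@En.n l248 (nat_lit 379) (nat_lit 3) (nat_lit 10))
    (@En.i (nat_lit 13591) (nat_lit 12) (nat_lit 6))
    (@En.n l2218 (nat_lit 441) (nat_lit 5) (nat_lit 3))
    (@En.n l6393 (nat_lit 1555) (nat_lit 0) (nat_lit 8))
    (@En.n l7 (nat_lit 626) (nat_lit 15) (nat_lit 2))))
  (@Cl.mk (nat_lit 0x20006000a000a000e000b0002000a000600060005000a000d0006000e0003) (nat_lit 0x7812000003b000) (nat_lit 16) Lb.e (@T16.mk En
    (@En.n l2238 (nat_lit 441) (nat_lit 6) (nat_lit 3))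
    (@En.n l2225 (nat_lit 13591) (nat_lit 0) (nat_lit 14))
    (@En.n l916 (nat_lit 1701) (nat_lit 2) (nat_lit 6))
    (@En.i (nat_lit 3695) (nat_lit 5) (nat_lit 13))
    (@En.n l1098 (nat_lit 613) (nat_lit 4) (nat_lit 10))
    (@En.i (nat_lit 556) (nat_lit 5) (nat_lit 5))
    (@En.n l152 (nat_lit 837) (nat_lit 6) (nat_lit 6))
    (@En.n l2225 (nat_lit 879) (nat_lit 14) (nat_lit 6))
    (@En.n l9825 (nat_lit 7599) (nat_lit 9) (nat_lit 10))
    (@En.n l11 (nat_lit 627) (nat_lit 9) (nat_lit 2))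
    (@En.n l3279 (nat_lit 436) (nat_lit 11) (nat_lit 11))
    (@En.n l15791 (nat_lit 579) (nat_lit 12) (nat_lit 14))
    (@En.n l10020 (nat_lit 697) (nat_lit 6) (nat_lit 10))
    (@En.n l15140 (nat_lit 1099) (nat_lit 3) (nat_lit 10))
    (@En.n l15792 (nat_lit 441) (nat_lit 4) (nat_lit 6))
    (@En.n l18 (nat_lit 627) (nat_lit 15) (nat_lit 2))))
  (@Cl.mk (nat_lit 0x20006000a000d000d0008000300030006000a000e000a00020008000e0006) (nat_lit 0x40000008010030) (nat_lit 16) Lb.e (@T16.mk En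
    (@En.n l1253 (nat_lit 441) (nat_lit 13) (nat_lit 6))
    (@En.n l2452 (nat_lit 603) (nat_lit 1) (nat_lit 14))
    (@En.n l2453 (nat_lit 7505) (nat_lit 2) (nat_lit 8))
    (@En.n l11 (nat_lit 628) (nat_lit 3) (nat_lit 2))
    (@En.n l2454 (nat_lit 440) (nat_lit 4) (nat_lit 10))
    (@En.n l2455 (nat_lit 698) (nat_lit 6) (nat_lit 14))
    (@En.n l2456 (nat_lit 6066) (nat_lit 2) (nat_lit 10))
    (@En.n l2457 (nat_lit 696) (nat_lit 7) (nat_lit 6))
    (@En.n l2458 (nat_lit 696) (nat_lit 8) (nat_lit 3))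
    (@En.n l50 (nat_lit 697) (nat_lit 9) (nat_lit 3))
    (@En.n l2459 (nat_lit 1900) (nat_lit 11) (nat_lit 8))
    (@En.n l217 (nat_lit 697) (nat_lit 12) (nat_lit 13))
    (@En.n l253 (nat_lit 4772) (nat_lit 13) (nat_lit 13))
    (@En.n l2460 (nat_lit 453) (nat_lit 10) (nat_lit 10))
    (@En.i (nat_lit 469) (nat_lit 4) (nat_lit 6))
    (@En.n l2461 (nat_lit 628) (nat_lit 15) (nat_lit 2))))
  (@Cl.mk (nat_lit 0x2000a00060004000a000d000d0006000300030006000e000a0002000e000c) (nat_lit 0x200000001021) (nat_lit 16) Lb.e (@T16.mk En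
    (@En.n l55 (nat_lit 439) (nat_lit 14) (nat_lit 12))
    (@En.n l2237 (nat_lit 797) (nat_lit 1) (nat_lit 14))
    (@En.n l3 (nat_lit 629) (nat_lit 2) (nat_lit 2))
    (@En.n l2238 (nat_lit 441) (nat_lit 3) (nat_lit 10))
    (@En.n l2239 (nat_lit 872) (nat_lit 1) (nat_lit 14))
    (@En.n l2114 (nat_lit 836) (nat_lit 12) (nat_lit 6))
    (@En.n l1959 (nat_lit 836) (nat_lit 13) (nat_lit 3))
    (@En.n l50 (nat_lit 837) (nat_lit 0) (nat_lit 3))
    (@En.n l829 (nat_lit 1632) (nat_lit 0) (nat_lit 6))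
    (@En.n l217 (nat_lit 837) (nat_lit 3) (nat_lit 13))
    (@En.i (nat_lit 3699) (nat_lit 11) (nat_lit 13))
    (@En.n l1001 (nat_lit 603) (nat_lit 12) (nat_lit 10))
    (@En.i (nat_lit 519) (nat_lit 9) (nat_lit 4))
    (@En.n l2240 (nat_lit 838) (nat_lit 14) (nat_lit 6))
    (@En.n l2241 (nat_lit 7589) (nat_lit 12) (nat_lit 10))
    (@En.n l11 (nat_lit 629) (nat_lit 15) (nat_lit 2))))
  (@Cl.mk (nat_lit 0x2000600060004000a000d000d000a000300030006000a000a0006000e000c) (nat_lit 0x600000000013) (nat_lit 16) Lb.e (@T16.mk En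
    (@En.n l2324 (nat_lit 638) (nat_lit 9) (nat_lit 12))
    (@En.n l2325 (nat_lit 441) (nat_lit 1) (nat_lit 14))
    (@En.n l2326 (nat_lit 7610) (nat_lit 2) (nat_lit 6))
    (@En.i (nat_lit 747) (nat_lit 6) (nat_lit 10))
    (@En.n l17 (nat_lit 6161) (nat_lit 4) (nat_lit 10))
    (@En.n l633 (nat_lit 752) (nat_lit 5) (nat_lit 6))
    (@En.n l2015 (nat_lit 752) (nat_lit 6) (nat_lit 3))
    (@En.n l2327 (nat_lit 639) (nat_lit 7) (nat_lit 3))
    (@En.n l629 (nat_lit 753) (nat_lit 9) (nat_lit 10))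
    (@En.n l2328 (nat_lit 639) (nat_lit 10) (nat_lit 13))
    (@En.n l2329 (nat_lit 3639) (nat_lit 11) (nat_lit 13))
    (@En.i (nat_lit 440) (nat_lit 12) (nat_lit 10))
    (@En.n l629 (nat_lit 648) (nat_lit 4) (nat_lit 4))
    (@En.n l5 (nat_lit 634) (nat_lit 14) (nat_lit 6))
    (@En.n l2330 (nat_lit 732) (nat_lit 6) (nat_lit 6))
    (@En.n l7 (nat_lit 630) (nat_lit 15) (nat_lit 2))))
  (@Cl.mk (nat_lit 0x200060003000a000d0008000e000300020006000e000a00020008000e000d) (nat_lit 0x5000000b00232) (nat_lit 16) Lb.e (@T16.mk En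
    (@En.n l55 (nat_lit 635) (nat_lit 9) (nat_lit 13))
    (@En.n l218 (nat_lit 837) (nat_lit 10) (nat_lit 14))
    (@En.n l615 (nat_lit 1005) (nat_lit 2) (nat_lit 8))
    (@En.n l3 (nat_lit 631) (nat_lit 3) (nat_lit 2))
    (@En.i (nat_lit 639) (nat_lit 4) (nat_lit 10))
    (@En.n l387 (nat_lit 3524) (nat_lit 6) (nat_lit 14))
    (@En.n l2389 (nat_lit 634) (nat_lit 6) (nat_lit 6))
    (@En.n l18 (nat_lit 631) (nat_lit 7) (nat_lit 2))
    (@En.n l1976 (nat_lit 634) (nat_lit 8) (nat_lit 3))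
    (@En.n l2390 (nat_lit 13595) (nat_lit 0) (nat_lit 14))
    (@En.i (nat_lit 2154) (nat_lit 2) (nat_lit 8))
    (@En.i (nat_lit 3516) (nat_lit 12) (nat_lit 13))
    (@En.n l974 (nat_lit 697) (nat_lit 13) (nat_lit 10))
    (@En.n l218 (nat_lit 635) (nat_lit 5) (nat_lit 3))
    (@En.n l716 (nat_lit 895) (nat_lit 6) (nat_lit 6))
    (@En.n l28 (nat_lit 631) (nat_lit 15) (nat_lit 2))))
  (@Cl.mk (nat_lit 0x200060003000a000e000d0002000a00030006000e000a00020006000e000d) (nat_lit 0x6000000a00032) (nat_lit 16) Lb.e (@T16.mk En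
    (@En.n l2361 (nat_lit 636) (nat_lit 13) (nat_lit 13))
    (@En.n l2362 (nat_lit 836) (nat_lit 8) (nat_lit 14))
    (@En.n l2363 (nat_lit 1008) (nat_lit 2) (nat_lit 6))
    (@En.n l725 (nat_lit 632) (nat_lit 3) (nat_lit 2))
    (@En.n l2364 (nat_lit 752) (nat_lit 4) (nat_lit 10))
    (@En.n l2365 (nat_lit 3225) (nat_lit 6) (nat_lit 14))
    (@En.i (nat_lit 13595) (nat_lit 12) (nat_lit 6))
    (@En.n l615 (nat_lit 634) (nat_lit 7) (nat_lit 3))
    (@En.n l2366 (nat_lit 757) (nat_lit 0) (nat_lit 10))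
    (@En.n l107 (nat_lit 632) (nat_lit 9) (nat_lit 2))
    (@En.n l1643 (nat_lit 634) (nat_lit 11) (nat_lit 13))
    (@En.n l2367 (nat_lit 3553) (nat_lit 12) (nat_lit 14))
    (@En.i (nat_lit 696) (nat_lit 13) (nat_lit 10))
    (@En.n l2368 (nat_lit 636) (nat_lit 9) (nat_lit 3))
    (@En.n l2369 (nat_lit 896) (nat_lit 4) (nat_lit 6))
    (@En.n l50 (nat_lit 632) (nat_lit 15) (nat_lit 2))))
  (@Cl.mk (nat_lit 0x20007000d000d000500030003000a000d000d0009000300030006000e000b) (nat_lit 0x120005000000b0) (nat_lit 16) Lb.e (@T16.mk En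
    (@En.i (nat_lit 638) (nat_lit 12) (nat_lit 11))
    (@En.n l387 (nat_lit 3226) (nat_lit 1) (nat_lit 14))
    (@En.n l1972 (nat_lit 636) (nat_lit 2) (nat_lit 6))
    (@En.n l1973 (nat_lit 636) (nat_lit 3) (nat_lit 3))
    (@En.n l50 (nat_lit 635) (nat_lit 0) (nat_lit 3))
    (@En.n l1974 (nat_lit 765) (nat_lit 5) (nat_lit 9))
    (@En.n l217 (nat_lit 635) (nat_lit 3) (nat_lit 13))
    (@En.i (nat_lit 3519) (nat_lit 8) (nat_lit 13))
    (@En.n l1975 (nat_lit 381) (nat_lit 9) (nat_lit 10))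
    (@En.n l1976 (nat_lit 634) (nat_lit 13) (nat_lit 3))
    (@En.n l11 (nat_lit 637) (nat_lit 10) (nat_lit 3))
    (@En.n l1977 (nat_lit 794) (nat_lit 0) (nat_lit 5))
    (@En.n l55 (nat_lit 637) (nat_lit 13) (nat_lit 13))
    (@En.i (nat_lit 519) (nat_lit 14) (nat_lit 13))
    (@En.n l1978 (nat_lit 330) (nat_lit 3) (nat_lit 7))
    (@En.n l3 (nat_lit 633) (nat_lit 15) (nat_lit 2))))
  (@Cl.mk (nat_lit 0x200060003000a000d000d0009000300030006000e000a00020007000e000d) (nat_lit 0x5b10000b10032) (nat_lit 16) Lb.e (@T16.mk En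
    (@En.n l726 (nat_lit 633) (nat_lit 13) (nat_lit 13))
    (@En.n l727 (nat_lit 629) (nat_lit 1) (nat_lit 14))
    (@En.n l728 (nat_lit 1006) (nat_lit 2) (nat_lit 7))
    (@En.n l17 (nat_lit 634) (nat_lit 3) (nat_lit 2))
    (@En.n l18 (nat_lit 630) (nat_lit 4) (nat_lit 10))
    (@En.n l729 (nat_lit 3224) (nat_lit 6) (nat_lit 14))
    (@En.n l730 (nat_lit 632) (nat_lit 6) (nat_lit 6))
    (@En.n l731 (nat_lit 632) (nat_lit 7) (nat_lit 3))
    (@En.n l732 (nat_lit 631) (nat_lit 8) (nat_lit 3))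
    (@En.n l639 (nat_lit 764) (nat_lit 10) (nat_lit 9))
    (@En.n l733 (nat_lit 631) (nat_lit 11) (nat_lit 13))
    (@En.n l734 (nat_lit 3518) (nat_lit 12) (nat_lit 13))
    (@En.n l735 (nat_lit 628) (nat_lit 13) (nat_lit 10))
    (@En.n l727 (nat_lit 633) (nat_lit 9) (nat_lit 3))
    (@En.n l736 (nat_lit 894) (nat_lit 0) (nat_lit 6))
    (@En.n l7 (nat_lit 634) (nat_lit 15) (nat_lit 2))))
  (@Cl.mk (nat_lit 0x20006000e000b00020008000d000d000500030003000a000d0008000e0003) (nat_lit 0xb001120005b000) (nat_lit 16) Lb.e (@T16.mk En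
    (@En.i (nat_lit 633) (nat_lit 4) (nat_lit 3))
    (@En.n l287 (nat_lit 14101) (nat_lit 0) (nat_lit 14))
    (@En.i (nat_lit 1796) (nat_lit 2) (nat_lit 8))
    (@En.i (nat_lit 3517) (nat_lit 8) (nat_lit 13))
    (@En.i (nat_lit 416) (nat_lit 4) (nat_lit 10))
    (@En.i (nat_lit 631) (nat_lit 13) (nat_lit 3))
    (@En.n l11 (nat_lit 781) (nat_lit 6) (nat_lit 3))
    (@En.i (nat_lit 792) (nat_lit 0) (nat_lit 5))
    (@En.n l55 (nat_lit 781) (nat_lit 9) (nat_lit 13))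
    (@En.i (nat_lit 521) (nat_lit 10) (nat_lit 13))
    (@En.n l615 (nat_lit 327) (nat_lit 11) (nat_lit 8))
    (@En.n l3 (nat_lit 635) (nat_lit 11) (nat_lit 2))
    (@En.i (nat_lit 738) (nat_lit 13) (nat_lit 11))
    (@En.n l387 (nat_lit 3229) (nat_lit 1) (nat_lit 14))
    (@En.n l1738 (nat_lit 633) (nat_lit 2) (nat_lit 6))
    (@En.n l18 (nat_lit 635) (nat_lit 15) (nat_lit 2))))
  (@Cl.mk (nat_lit 0x20006000d000d000500030003000a000e000d0002000a00030006000e000b) (nat_lit 0x120005210000b0) (nat_lit 16) Lb.e (@T16.mk En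
    (@En.n l5777 (nat_lit 739) (nat_lit 11) (nat_lit 11))
    (@En.n l5778 (nat_lit 3223) (nat_lit 1) (nat_lit 14))
    (@En.i (nat_lit 14101) (nat_lit 12) (nat_lit 6))
    (@En.n l605 (nat_lit 633) (nat_lit 3) (nat_lit 3))
    (@En.i (nat_lit 762) (nat_lit 0) (nat_lit 10))
    (@En.n l50 (nat_lit 636) (nat_lit 5) (nat_lit 2))
    (@En.n l5779 (nat_lit 633) (nat_lit 7) (nat_lit 13))
    (@En.n l4316 (nat_lit 3552) (nat_lit 8) (nat_lit 14))
    (@En.n l248 (nat_lit 380) (nat_lit 9) (nat_lit 10))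
    (@En.n l711 (nat_lit 632) (nat_lit 13) (nat_lit 3))
    (@En.n l1253 (nat_lit 780) (nat_lit 10) (nat_lit 3))
    (@En.n l248 (nat_lit 793) (nat_lit 0) (nat_lit 5))
    (@En.n l1722 (nat_lit 780) (nat_lit 13) (nat_lit 13))
    (@En.n l766 (nat_lit 518) (nat_lit 8) (nat_lit 13))
    (@En.n l253 (nat_lit 356) (nat_lit 8) (nat_lit 6))
    (@En.n l3 (nat_lit 636) (nat_lit 15) (nat_lit 2))))
  (@Cl.mk (nat_lit 0x20007000d0004000e00030002000a000d000d0009000300030006000e000c) (nat_lit 0x10600500000090) (nat_lit 16) Lb.e (@T16.mk En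
    (@En.i (nat_lit 740) (nat_lit 7) (nat_lit 12))
    (@En.n l387 (nat_lit 3228) (nat_lit 8) (nat_lit 14))
    (@En.n l2114 (nat_lit 780) (nat_lit 2) (nat_lit 6))
    (@En.n l1959 (nat_lit 780) (nat_lit 3) (nat_lit 3))
    (@En.n l50 (nat_lit 781) (nat_lit 0) (nat_lit 3))
    (@En.n l829 (nat_lit 2042) (nat_lit 5) (nat_lit 9))
    (@En.n l217 (nat_lit 781) (nat_lit 3) (nat_lit 13))
    (@En.i (nat_lit 3566) (nat_lit 8) (nat_lit 13))
    (@En.n l613 (nat_lit 383) (nat_lit 9) (nat_lit 10))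
    (@En.n l28 (nat_lit 637) (nat_lit 9) (nat_lit 2))
    (@En.i (nat_lit 633) (nat_lit 10) (nat_lit 3))
    (@En.n l613 (nat_lit 939) (nat_lit 0) (nat_lit 14))
    (@En.i (nat_lit 786) (nat_lit 2) (nat_lit 4))
    (@En.i (nat_lit 515) (nat_lit 14) (nat_lit 13))
    (@En.n l613 (nat_lit 328) (nat_lit 4) (nat_lit 7))
    (@En.n l3 (nat_lit 637) (nat_lit 15) (nat_lit 2))))
  (@Cl.mk (nat_lit 0x300030006000b000b0006000c000c0005000500040004000a000d000d000a) (nat_lit 0x9002200006000) (nat_lit 16) Lb.e (@T16.mk En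
    (@En.n l5771 (nat_lit 760) (nat_lit 0) (nat_lit 10))
    (@En.n l217 (nat_lit 738) (nat_lit 3) (nat_lit 13))
    (@En.i (nat_lit 3636) (nat_lit 5) (nat_lit 13))
    (@En.n l5772 (nat_lit 401) (nat_lit 3) (nat_lit 10))
    (@En.n l5773 (nat_lit 630) (nat_lit 12) (nat_lit 4))
    (@En.n l5771 (nat_lit 647) (nat_lit 5) (nat_lit 4))
    (@En.n l152 (nat_lit 633) (nat_lit 11) (nat_lit 5))
    (@En.n l936 (nat_lit 726) (nat_lit 7) (nat_lit 5))
    (@En.n l55 (nat_lit 740) (nat_lit 4) (nat_lit 12))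
    (@En.i (nat_lit 542) (nat_lit 10) (nat_lit 12))
    (@En.i (nat_lit 7608) (nat_lit 11) (nat_lit 6))
    (@En.n l5774 (nat_lit 741) (nat_lit 5) (nat_lit 11))
    (@En.n l5389 (nat_lit 6159) (nat_lit 13) (nat_lit 11))
    (@En.n l5775 (nat_lit 739) (nat_lit 12) (nat_lit 6))
    (@En.n l5776 (nat_lit 739) (nat_lit 13) (nat_lit 3))
    (@En.n l50 (nat_lit 738) (nat_lit 0) (nat_lit 3))))
  (@Cl.mk (nat_lit 0x2000600060004000a000d0009000e000300020006000a000a0007000e000c) (nat_lit 0x6b0000080023) (nat_lit 16) Lb.e (@T16.mk En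
    (@En.n l55 (nat_lit 738) (nat_lit 10) (nat_lit 12))
    (@En.n l218 (nat_lit 627) (nat_lit 11) (nat_lit 14))
    (@En.n l1282 (nat_lit 7609) (nat_lit 2) (nat_lit 7))
    (@En.n l6843 (nat_lit 748) (nat_lit 6) (nat_lit 10))
    (@En.n l6844 (nat_lit 6163) (nat_lit 4) (nat_lit 10))
    (@En.n l6845 (nat_lit 630) (nat_lit 5) (nat_lit 6))
    (@En.n l18 (nat_lit 639) (nat_lit 6) (nat_lit 2))
    (@En.n l5773 (nat_lit 630) (nat_lit 7) (nat_lit 3))
    (@En.n l5759 (nat_lit 13575) (nat_lit 0) (nat_lit 14))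
    (@En.n l978 (nat_lit 2465) (nat_lit 2) (nat_lit 9))
    (@En.i (nat_lit 3604) (nat_lit 11) (nat_lit 13))
    (@En.n l2312 (nat_lit 668) (nat_lit 12) (nat_lit 10))
    (@En.n l5759 (nat_lit 724) (nat_lit 5) (nat_lit 4))
    (@En.n l152 (nat_lit 631) (nat_lit 14) (nat_lit 6))
    (@En.n l2313 (nat_lit 733) (nat_lit 7) (nat_lit 6))
    (@En.n l28 (nat_lit 639) (nat_lit 15) (nat_lit 2))))
noncomputable def a40 : T16 Cl := @T16.mk Cl
  (@Cl.mk (nat_lit 0x2000600030007000a000e000d0002000b00030006000a00090005000e000d) (nat_lit 0x7010000010b2) (nat_lit 16) Lb.e (@T16.mk En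
    (@En.n l396 (nat_lit 654) (nat_lit 8) (nat_lit 13))
    (@En.n l1722 (nat_lit 459) (nat_lit 9) (nat_lit 14))
    (@En.n l170 (nat_lit 3214) (nat_lit 2) (nat_lit 5))
    (@En.n l725 (nat_lit 566) (nat_lit 11) (nat_lit 9))
    (@En.n l10357 (nat_lit 6165) (nat_lit 4) (nat_lit 10))
    (@En.i (nat_lit 289) (nat_lit 12) (nat_lit 6))
    (@En.n l615 (nat_lit 569) (nat_lit 6) (nat_lit 3))
    (@En.i (nat_lit 2188) (nat_lit 0) (nat_lit 11))
    (@En.n l107 (nat_lit 640) (nat_lit 8) (nat_lit 2))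
    (@En.n l1643 (nat_lit 569) (nat_lit 10) (nat_lit 13))
    (@En.n l6030 (nat_lit 3910) (nat_lit 11) (nat_lit 14))
    (@En.i (nat_lit 632) (nat_lit 12) (nat_lit 10))
    (@En.i (nat_lit 700) (nat_lit 13) (nat_lit 7))
    (@En.i (nat_lit 654) (nat_lit 4) (nat_lit 3))
    (@En.n l387 (nat_lit 491) (nat_lit 0) (nat_lit 6))
    (@En.n l50 (nat_lit 640) (nat_lit 15) (nat_lit 2))))
  (@Cl.mk (nat_lit 0x2000600030007000a000d0009000e000300020006000a00090007000e000d) (nat_lit 0x6b0100001012) (nat_lit 16) Lb.e (@T16.mk En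
    (@En.n l4270 (nat_lit 656) (nat_lit 10) (nat_lit 13))
    (@En.n l2362 (nat_lit 458) (nat_lit 11) (nat_lit 14))
    (@En.n l1357 (nat_lit 3734) (nat_lit 2) (nat_lit 7))
    (@En.n l725 (nat_lit 565) (nat_lit 13) (nat_lit 9))
    (@En.n l1357 (nat_lit 6168) (nat_lit 4) (nat_lit 10))
    (@En.n l2037 (nat_lit 569) (nat_lit 5) (nat_lit 6))
    (@En.n l107 (nat_lit 641) (nat_lit 6) (nat_lit 2))
    (@En.n l3596 (nat_lit 569) (nat_lit 7) (nat_lit 3))
    (@En.i (nat_lit 289) (nat_lit 0) (nat_lit 14))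
    (@En.n l5891 (nat_lit 2195) (nat_lit 2) (nat_lit 9))
    (@En.n l725 (nat_lit 3909) (nat_lit 11) (nat_lit 13))
    (@En.n l12270 (nat_lit 631) (nat_lit 12) (nat_lit 10))
    (@En.n l617 (nat_lit 699) (nat_lit 5) (nat_lit 7))
    (@En.n l3749 (nat_lit 656) (nat_lit 6) (nat_lit 3))
    (@En.n l387 (nat_lit 490) (nat_lit 0) (nat_lit 6))
    (@En.n l50 (nat_lit 641) (nat_lit 15) (nat_lit 2))))
  (@Cl.mk (nat_lit 0x3000300060009000d0006000d0003000d000300070003000a000d000d000a) (nat_lit 0x303030007000) (nat_lit 16) Lb.e (@T16.mk En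
    (@En.i (nat_lit 2512) (nat_lit 0) (nat_lit 10))
    (@En.n l1572 (nat_lit 643) (nat_lit 3) (nat_lit 13))
    (@En.n l619 (nat_lit 4370) (nat_lit 5) (nat_lit 13))
    (@En.i (nat_lit 646) (nat_lit 3) (nat_lit 10))
    (@En.i (nat_lit 647) (nat_lit 4) (nat_lit 3))
    (@En.n l4750 (nat_lit 707) (nat_lit 0) (nat_lit 7))
    (@En.i (nat_lit 648) (nat_lit 6) (nat_lit 3))
    (@En.n l615 (nat_lit 569) (nat_lit 0) (nat_lit 13))
    (@En.i (nat_lit 645) (nat_lit 8) (nat_lit 3))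
    (@En.n l3478 (nat_lit 552) (nat_lit 0) (nat_lit 13))
    (@En.n l5732 (nat_lit 5468) (nat_lit 3) (nat_lit 6))
    (@En.n l617 (nat_lit 592) (nat_lit 12) (nat_lit 13))
    (@En.n l3447 (nat_lit 4061) (nat_lit 9) (nat_lit 9))
    (@En.n l159 (nat_lit 644) (nat_lit 12) (nat_lit 6))
    (@En.n l11 (nat_lit 644) (nat_lit 13) (nat_lit 3))
    (@En.n l2691 (nat_lit 643) (nat_lit 0) (nat_lit 3))))
  (@Cl.mk (nat_lit 0x200060009000d0007000d0003000d000300070003000a000d0009000e0003) (nat_lit 0x903030006b000) (nat_lit 16) Lb.e (@T16.mk En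
    (@En.n l7706 (nat_lit 642) (nat_lit 15) (nat_lit 3))
    (@En.i (nat_lit 13161) (nat_lit 0) (nat_lit 14))
    (@En.n l12743 (nat_lit 2472) (nat_lit 2) (nat_lit 9))
    (@En.i (nat_lit 4366) (nat_lit 5) (nat_lit 13))
    (@En.i (nat_lit 649) (nat_lit 4) (nat_lit 10))
    (@En.n l3348 (nat_lit 651) (nat_lit 5) (nat_lit 3))
    (@En.n l387 (nat_lit 704) (nat_lit 6) (nat_lit 7))
    (@En.i (nat_lit 724) (nat_lit 7) (nat_lit 3))
    (@En.i (nat_lit 641) (nat_lit 0) (nat_lit 13))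
    (@En.i (nat_lit 653) (nat_lit 9) (nat_lit 3))
    (@En.n l3348 (nat_lit 554) (nat_lit 11) (nat_lit 13))
    (@En.n l810 (nat_lit 7603) (nat_lit 12) (nat_lit 7))
    (@En.n l617 (nat_lit 594) (nat_lit 13) (nat_lit 13))
    (@En.i (nat_lit 4066) (nat_lit 14) (nat_lit 9))
    (@En.n l4870 (nat_lit 642) (nat_lit 13) (nat_lit 6))
    (@En.n l107 (nat_lit 643) (nat_lit 15) (nat_lit 2))))
  (@Cl.mk (nat_lit 0x2000b000300060009000d0005000d0003000d000300070003000a000e000d) (nat_lit 0x90303000701) (nat_lit 16) Lb.e (@T16.mk En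
    (@En.n l180 (nat_lit 642) (nat_lit 2) (nat_lit 13))
    (@En.n l619 (nat_lit 4397) (nat_lit 1) (nat_lit 14))
    (@En.i (nat_lit 650) (nat_lit 2) (nat_lit 10))
    (@En.i (nat_lit 652) (nat_lit 3) (nat_lit 3))
    (@En.n l387 (nat_lit 705) (nat_lit 4) (nat_lit 7))
    (@En.i (nat_lit 725) (nat_lit 5) (nat_lit 3))
    (@En.i (nat_lit 640) (nat_lit 0) (nat_lit 13))
    (@En.i (nat_lit 735) (nat_lit 7) (nat_lit 3))
    (@En.n l1722 (nat_lit 553) (nat_lit 9) (nat_lit 13))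
    (@En.i (nat_lit 5469) (nat_lit 9) (nat_lit 5))
    (@En.n l617 (nat_lit 595) (nat_lit 11) (nat_lit 13))
    (@En.n l781 (nat_lit 4058) (nat_lit 12) (nat_lit 9))
    (@En.i (nat_lit 13161) (nat_lit 12) (nat_lit 6))
    (@En.i (nat_lit 642) (nat_lit 14) (nat_lit 3))
    (@En.i (nat_lit 2574) (nat_lit 0) (nat_lit 11))
    (@En.n l107 (nat_lit 644) (nat_lit 15) (nat_lit 2))))
  (@Cl.mk (nat_lit 0x3000300060009000d000c00070003000d000400070003000a000d000d0009) (nat_lit 0x930040006000) (nat_lit 16) Lb.e (@T16.mk En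
    (@En.i (nat_lit 1757) (nat_lit 0) (nat_lit 9))
    (@En.n l1572 (nat_lit 653) (nat_lit 3) (nat_lit 13))
    (@En.n l10352 (nat_lit 4371) (nat_lit 5) (nat_lit 13))
    (@En.n l13682 (nat_lit 729) (nat_lit 3) (nat_lit 10))
    (@En.i (nat_lit 732) (nat_lit 4) (nat_lit 3))
    (@En.n l4750 (nat_lit 706) (nat_lit 11) (nat_lit 7))
    (@En.n l13683 (nat_lit 736) (nat_lit 6) (nat_lit 4))
    (@En.n l564 (nat_lit 646) (nat_lit 8) (nat_lit 13))
    (@En.n l7 (nat_lit 642) (nat_lit 8) (nat_lit 3))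
    (@En.n l10352 (nat_lit 819) (nat_lit 0) (nat_lit 7))
    (@En.n l644 (nat_lit 648) (nat_lit 11) (nat_lit 12))
    (@En.n l617 (nat_lit 842) (nat_lit 12) (nat_lit 13))
    (@En.n l3447 (nat_lit 4062) (nat_lit 9) (nat_lit 9))
    (@En.n l159 (nat_lit 735) (nat_lit 12) (nat_lit 6))
    (@En.n l11 (nat_lit 735) (nat_lit 13) (nat_lit 3))
    (@En.n l2691 (nat_lit 653) (nat_lit 0) (nat_lit 3))))
  (@Cl.mk (nat_lit 0x300030006000a0009000d0007000d0003000600030007000a000d000d0009) (nat_lit 0x7140300006000) (nat_lit 16) Lb.e (@T16.mk En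
    (@En.i (nat_lit 2510) (nat_lit 0) (nat_lit 9))
    (@En.n l1572 (nat_lit 649) (nat_lit 3) (nat_lit 13))
    (@En.n l7765 (nat_lit 4375) (nat_lit 5) (nat_lit 13))
    (@En.n l7018 (nat_lit 409) (nat_lit 8) (nat_lit 10))
    (@En.n l18053 (nat_lit 701) (nat_lit 4) (nat_lit 7))
    (@En.n l6937 (nat_lit 726) (nat_lit 5) (nat_lit 3))
    (@En.n l7049 (nat_lit 628) (nat_lit 0) (nat_lit 6))
    (@En.n l13682 (nat_lit 729) (nat_lit 7) (nat_lit 3))
    (@En.n l18054 (nat_lit 549) (nat_lit 0) (nat_lit 13))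
    (@En.n l5732 (nat_lit 5465) (nat_lit 3) (nat_lit 7))
    (@En.n l617 (nat_lit 647) (nat_lit 11) (nat_lit 13))
    (@En.n l17 (nat_lit 642) (nat_lit 12) (nat_lit 9))
    (@En.i (nat_lit 6105) (nat_lit 13) (nat_lit 10))
    (@En.n l159 (nat_lit 650) (nat_lit 12) (nat_lit 6))
    (@En.n l11 (nat_lit 650) (nat_lit 13) (nat_lit 3))
    (@En.n l2691 (nat_lit 649) (nat_lit 0) (nat_lit 3))))
  (@Cl.mk (nat_lit 0x300030006000a000d0006000c0003000d000600040003000a000d000d000a) (nat_lit 0x8302030006000) (nat_lit 16) Lb.e (@T16.mk En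
    (@En.i (nat_lit 2513) (nat_lit 0) (nat_lit 10))
    (@En.n l7922 (nat_lit 651) (nat_lit 3) (nat_lit 13))
    (@En.n l2940 (nat_lit 4372) (nat_lit 5) (nat_lit 13))
    (@En.n l14125 (nat_lit 406) (nat_lit 3) (nat_lit 10))
    (@En.n l18 (nat_lit 642) (nat_lit 4) (nat_lit 3))
    (@En.n l2940 (nat_lit 740) (nat_lit 0) (nat_lit 4))
    (@En.n l61 (nat_lit 646) (nat_lit 6) (nat_lit 6))
    (@En.n l615 (nat_lit 568) (nat_lit 8) (nat_lit 13))
    (@En.i (nat_lit 732) (nat_lit 8) (nat_lit 3))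
    (@En.n l2940 (nat_lit 545) (nat_lit 0) (nat_lit 12))
    (@En.n l5732 (nat_lit 7602) (nat_lit 5) (nat_lit 6))
    (@En.n l6136 (nat_lit 847) (nat_lit 5) (nat_lit 13))
    (@En.n l2202 (nat_lit 6103) (nat_lit 13) (nat_lit 10))
    (@En.n l159 (nat_lit 652) (nat_lit 12) (nat_lit 6))
    (@En.n l11 (nat_lit 652) (nat_lit 13) (nat_lit 3))
    (@En.n l3444 (nat_lit 651) (nat_lit 0) (nat_lit 3))))
  (@Cl.mk (nat_lit 0x3000300060009000c0006000d000c0004000300070004000a000d000d000a) (nat_lit 0x203300006000) (nat_lit 16) Lb.e (@T16.mk En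
    (@En.i (nat_lit 2511) (nat_lit 0) (nat_lit 10))
    (@En.n l1572 (nat_lit 724) (nat_lit 3) (nat_lit 13))
    (@En.n l2940 (nat_lit 3649) (nat_lit 5) (nat_lit 13))
    (@En.n l6937 (nat_lit 726) (nat_lit 3) (nat_lit 10))
    (@En.n l2940 (nat_lit 638) (nat_lit 4) (nat_lit 4))
    (@En.n l612 (nat_lit 645) (nat_lit 5) (nat_lit 7))
    (@En.n l50 (nat_lit 642) (nat_lit 6) (nat_lit 3))
    (@En.n l2692 (nat_lit 823) (nat_lit 0) (nat_lit 4))
    (@En.n l217 (nat_lit 647) (nat_lit 9) (nat_lit 12))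
    (@En.n l3478 (nat_lit 555) (nat_lit 10) (nat_lit 13))
    (@En.n l5732 (nat_lit 5467) (nat_lit 3) (nat_lit 6))
    (@En.n l617 (nat_lit 766) (nat_lit 6) (nat_lit 12))
    (@En.n l3447 (nat_lit 4063) (nat_lit 9) (nat_lit 9))
    (@En.n l159 (nat_lit 725) (nat_lit 12) (nat_lit 6))
    (@En.n l11 (nat_lit 725) (nat_lit 13) (nat_lit 3))
    (@En.n l2691 (nat_lit 724) (nat_lit 0) (nat_lit 3))))
  (@Cl.mk (nat_lit 0x20006000a0009000d0008000d0003000600030007000a000d0008000e0003) (nat_lit 0x8140400005b000) (nat_lit 16) Lb.e (@T16.mk En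
    (@En.n l7706 (nat_lit 646) (nat_lit 15) (nat_lit 3))
    (@En.i (nat_lit 13165) (nat_lit 0) (nat_lit 14))
    (@En.n l12743 (nat_lit 2471) (nat_lit 2) (nat_lit 8))
    (@En.n l3325 (nat_lit 4373) (nat_lit 5) (nat_lit 13))
    (@En.n l13101 (nat_lit 408) (nat_lit 4) (nat_lit 10))
    (@En.n l26863 (nat_lit 708) (nat_lit 5) (nat_lit 7))
    (@En.n l3327 (nat_lit 727) (nat_lit 6) (nat_lit 3))
    (@En.n l7051 (nat_lit 697) (nat_lit 0) (nat_lit 6))
    (@En.n l22084 (nat_lit 730) (nat_lit 8) (nat_lit 3))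
    (@En.n l1540 (nat_lit 551) (nat_lit 0) (nat_lit 13))
    (@En.n l13103 (nat_lit 7604) (nat_lit 11) (nat_lit 8))
    (@En.n l3327 (nat_lit 651) (nat_lit 12) (nat_lit 13))
    (@En.n l17 (nat_lit 643) (nat_lit 13) (nat_lit 9))
    (@En.i (nat_lit 6104) (nat_lit 14) (nat_lit 10))
    (@En.n l4870 (nat_lit 646) (nat_lit 13) (nat_lit 6))
    (@En.n l107 (nat_lit 649) (nat_lit 15) (nat_lit 2))))
  (@Cl.mk (nat_lit 0x2000a00030006000a0009000d0006000d0003000600030007000a000e000d) (nat_lit 0x813040000601) (nat_lit 16) Lb.e (@T16.mk En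
    (@En.n l180 (nat_lit 646) (nat_lit 2) (nat_lit 13))
    (@En.n l26855 (nat_lit 4389) (nat_lit 1) (nat_lit 14))
    (@En.n l7018 (nat_lit 407) (nat_lit 2) (nat_lit 10))
    (@En.n l387 (nat_lit 709) (nat_lit 3) (nat_lit 7))
    (@En.i (nat_lit 728) (nat_lit 4) (nat_lit 3))
    (@En.i (nat_lit 696) (nat_lit 0) (nat_lit 6))
    (@En.i (nat_lit 731) (nat_lit 6) (nat_lit 3))
    (@En.n l1722 (nat_lit 550) (nat_lit 0) (nat_lit 13))
    (@En.i (nat_lit 5464) (nat_lit 8) (nat_lit 6))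
    (@En.n l617 (nat_lit 652) (nat_lit 10) (nat_lit 13))
    (@En.n l17 (nat_lit 644) (nat_lit 11) (nat_lit 9))
    (@En.i (nat_lit 6113) (nat_lit 12) (nat_lit 10))
    (@En.i (nat_lit 13165) (nat_lit 12) (nat_lit 6))
    (@En.i (nat_lit 646) (nat_lit 14) (nat_lit 3))
    (@En.i (nat_lit 2515) (nat_lit 0) (nat_lit 10))
    (@En.n l107 (nat_lit 650) (nat_lit 15) (nat_lit 2))))
  (@Cl.mk (nat_lit 0x20006000a000d0007000c0003000d000600040003000a000d0009000e0003) (nat_lit 0x7302030007b000) (nat_lit 16) Lb.e (@T16.mk En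
    (@En.n l3429 (nat_lit 647) (nat_lit 15) (nat_lit 3))
    (@En.n l3082 (nat_lit 13164) (nat_lit 0) (nat_lit 14))
    (@En.i (nat_lit 2468) (nat_lit 2) (nat_lit 9))
    (@En.i (nat_lit 4369) (nat_lit 5) (nat_lit 13))
    (@En.i (nat_lit 411) (nat_lit 4) (nat_lit 10))
    (@En.n l5200 (nat_lit 643) (nat_lit 5) (nat_lit 3))
    (@En.i (nat_lit 750) (nat_lit 6) (nat_lit 4))
    (@En.n l1101 (nat_lit 649) (nat_lit 7) (nat_lit 6))
    (@En.n l8015 (nat_lit 656) (nat_lit 9) (nat_lit 13))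
    (@En.n l8400 (nat_lit 733) (nat_lit 9) (nat_lit 3))
    (@En.i (nat_lit 548) (nat_lit 11) (nat_lit 12))
    (@En.n l17884 (nat_lit 7601) (nat_lit 12) (nat_lit 7))
    (@En.n l645 (nat_lit 848) (nat_lit 5) (nat_lit 13))
    (@En.n l3082 (nat_lit 6102) (nat_lit 14) (nat_lit 10))
    (@En.n l3440 (nat_lit 647) (nat_lit 13) (nat_lit 6))
    (@En.n l18 (nat_lit 651) (nat_lit 15) (nat_lit 2))))
  (@Cl.mk (nat_lit 0x2000b00030006000a000d0005000c0003000d000600040003000a000e000d) (nat_lit 0x720203000701) (nat_lit 16) Lb.e (@T16.mk En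
    (@En.n l180 (nat_lit 647) (nat_lit 2) (nat_lit 13))
    (@En.n l619 (nat_lit 4400) (nat_lit 1) (nat_lit 14))
    (@En.i (nat_lit 410) (nat_lit 2) (nat_lit 10))
    (@En.n l18 (nat_lit 644) (nat_lit 3) (nat_lit 3))
    (@En.n l3348 (nat_lit 751) (nat_lit 0) (nat_lit 4))
    (@En.n l61 (nat_lit 650) (nat_lit 5) (nat_lit 6))
    (@En.i (nat_lit 654) (nat_lit 7) (nat_lit 13))
    (@En.i (nat_lit 734) (nat_lit 7) (nat_lit 3))
    (@En.n l3348 (nat_lit 547) (nat_lit 9) (nat_lit 12))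
    (@En.i (nat_lit 7612) (nat_lit 9) (nat_lit 5))
    (@En.n l617 (nat_lit 849) (nat_lit 5) (nat_lit 13))
    (@En.i (nat_lit 6157) (nat_lit 12) (nat_lit 10))
    (@En.i (nat_lit 13164) (nat_lit 12) (nat_lit 6))
    (@En.i (nat_lit 647) (nat_lit 14) (nat_lit 3))
    (@En.i (nat_lit 2575) (nat_lit 0) (nat_lit 11))
    (@En.n l107 (nat_lit 652) (nat_lit 15) (nat_lit 2))))
  (@Cl.mk (nat_lit 0x200060009000d000c00080003000d000400070003000a000d0008000e0003) (nat_lit 0x930050006b000) (nat_lit 16) Lb.e (@T16.mk En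
    (@En.n l7706 (nat_lit 645) (nat_lit 15) (nat_lit 3))
    (@En.i (nat_lit 13162) (nat_lit 0) (nat_lit 14))
    (@En.n l12743 (nat_lit 2470) (nat_lit 2) (nat_lit 8))
    (@En.n l1501 (nat_lit 4368) (nat_lit 5) (nat_lit 13))
    (@En.n l22084 (nat_lit 730) (nat_lit 4) (nat_lit 10))
    (@En.n l4806 (nat_lit 733) (nat_lit 5) (nat_lit 3))
    (@En.n l1501 (nat_lit 935) (nat_lit 6) (nat_lit 7))
    (@En.n l8812 (nat_lit 822) (nat_lit 7) (nat_lit 4))
    (@En.n l564 (nat_lit 649) (nat_lit 9) (nat_lit 13))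
    (@En.n l7 (nat_lit 643) (nat_lit 9) (nat_lit 3))
    (@En.n l1501 (nat_lit 8229) (nat_lit 11) (nat_lit 8))
    (@En.n l644 (nat_lit 724) (nat_lit 12) (nat_lit 12))
    (@En.n l617 (nat_lit 839) (nat_lit 13) (nat_lit 13))
    (@En.n l433 (nat_lit 4064) (nat_lit 14) (nat_lit 9))
    (@En.n l4870 (nat_lit 645) (nat_lit 13) (nat_lit 6))
    (@En.n l107 (nat_lit 653) (nat_lit 15) (nat_lit 2))))
  (@Cl.mk (nat_lit 0x2000b00030006000b00090005000d000d0005000300030007000a000e000d) (nat_lit 0x910120000601) (nat_lit 16) Lb.e (@T16.mk En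
    (@En.n l1643 (nat_lit 568) (nat_lit 2) (nat_lit 13))
    (@En.n l6030 (nat_lit 3088) (nat_lit 1) (nat_lit 14))
    (@En.n l2368 (nat_lit 636) (nat_lit 8) (nat_lit 10))
    (@En.n l1353 (nat_lit 650) (nat_lit 3) (nat_lit 7))
    (@En.n l18 (nat_lit 640) (nat_lit 13) (nat_lit 3))
    (@En.n l2197 (nat_lit 658) (nat_lit 0) (nat_lit 3))
    (@En.n l2348 (nat_lit 669) (nat_lit 0) (nat_lit 5))
    (@En.n l7654 (nat_lit 658) (nat_lit 3) (nat_lit 13))
    (@En.n l2362 (nat_lit 462) (nat_lit 9) (nat_lit 13))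
    (@En.n l14869 (nat_lit 3324) (nat_lit 9) (nat_lit 5))
    (@En.n l725 (nat_lit 563) (nat_lit 11) (nat_lit 9))
    (@En.i (nat_lit 6167) (nat_lit 12) (nat_lit 11))
    (@En.i (nat_lit 288) (nat_lit 12) (nat_lit 6))
    (@En.n l615 (nat_lit 568) (nat_lit 14) (nat_lit 3))
    (@En.n l3749 (nat_lit 1851) (nat_lit 0) (nat_lit 11))
    (@En.n l107 (nat_lit 654) (nat_lit 15) (nat_lit 2))))
  (@Cl.mk (nat_lit 0x20007000a000d000d000a000300030006000c00090006000d0004000e0003) (nat_lit 0x60000008101050) (nat_lit 16) Lb.e (@T16.mk En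
    (@En.n l5809 (nat_lit 568) (nat_lit 6) (nat_lit 3))
    (@En.n l7915 (nat_lit 940) (nat_lit 0) (nat_lit 14))
    (@En.n l7916 (nat_lit 432) (nat_lit 2) (nat_lit 4))
    (@En.n l564 (nat_lit 463) (nat_lit 10) (nat_lit 13))
    (@En.n l7917 (nat_lit 3325) (nat_lit 4) (nat_lit 6))
    (@En.n l6410 (nat_lit 561) (nat_lit 5) (nat_lit 9))
    (@En.n l7918 (nat_lit 6202) (nat_lit 7) (nat_lit 12))
    (@En.n l7919 (nat_lit 658) (nat_lit 7) (nat_lit 6))
    (@En.n l7920 (nat_lit 658) (nat_lit 8) (nat_lit 3))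
    (@En.n l18 (nat_lit 657) (nat_lit 0) (nat_lit 3))
    (@En.n l7917 (nat_lit 2139) (nat_lit 11) (nat_lit 10))
    (@En.n l61 (nat_lit 657) (nat_lit 3) (nat_lit 13))
    (@En.n l1643 (nat_lit 663) (nat_lit 13) (nat_lit 13))
    (@En.n l564 (nat_lit 637) (nat_lit 8) (nat_lit 10))
    (@En.n l3427 (nat_lit 726) (nat_lit 4) (nat_lit 7))
    (@En.n l28 (nat_lit 655) (nat_lit 15) (nat_lit 2))))
noncomputable def a41 : T16 Cl := @T16.mk Cl
  (@Cl.mk (nat_lit 0x20006000b00090007000d000d0005000300030007000a000d0009000e0003) (nat_lit 0x9101200006b010) (nat_lit 16) Lb.e (@T16.mk En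
    (@En.n l13923 (nat_lit 568) (nat_lit 15) (nat_lit 3))
    (@En.n l6825 (nat_lit 288) (nat_lit 0) (nat_lit 14))
    (@En.i (nat_lit 2145) (nat_lit 2) (nat_lit 9))
    (@En.i (nat_lit 665) (nat_lit 5) (nat_lit 13))
    (@En.n l1836 (nat_lit 635) (nat_lit 4) (nat_lit 10))
    (@En.n l12583 (nat_lit 649) (nat_lit 5) (nat_lit 7))
    (@En.n l7126 (nat_lit 641) (nat_lit 13) (nat_lit 3))
    (@En.n l731 (nat_lit 657) (nat_lit 7) (nat_lit 3))
    (@En.n l1992 (nat_lit 668) (nat_lit 0) (nat_lit 5))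
    (@En.n l2013 (nat_lit 657) (nat_lit 10) (nat_lit 13))
    (@En.n l1836 (nat_lit 461) (nat_lit 11) (nat_lit 13))
    (@En.n l77 (nat_lit 3326) (nat_lit 12) (nat_lit 7))
    (@En.n l8361 (nat_lit 562) (nat_lit 13) (nat_lit 9))
    (@En.n l639 (nat_lit 6169) (nat_lit 14) (nat_lit 11))
    (@En.n l27447 (nat_lit 568) (nat_lit 13) (nat_lit 6))
    (@En.n l18 (nat_lit 656) (nat_lit 15) (nat_lit 2))))
  (@Cl.mk (nat_lit 0x20006000c00090007000d0004000e000300020007000a000d0009000e0003) (nat_lit 0x101000006b000) (nat_lit 16) Lb.e (@T16.mk En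
    (@En.i (nat_lit 655) (nat_lit 9) (nat_lit 3))
    (@En.n l13819 (nat_lit 659) (nat_lit 0) (nat_lit 14))
    (@En.i (nat_lit 2144) (nat_lit 2) (nat_lit 9))
    (@En.n l1643 (nat_lit 662) (nat_lit 13) (nat_lit 13))
    (@En.n l564 (nat_lit 781) (nat_lit 4) (nat_lit 10))
    (@En.n l3427 (nat_lit 727) (nat_lit 5) (nat_lit 7))
    (@En.n l28 (nat_lit 657) (nat_lit 6) (nat_lit 2))
    (@En.n l615 (nat_lit 656) (nat_lit 7) (nat_lit 3))
    (@En.n l11235 (nat_lit 937) (nat_lit 0) (nat_lit 14))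
    (@En.n l2381 (nat_lit 433) (nat_lit 2) (nat_lit 4))
    (@En.n l564 (nat_lit 467) (nat_lit 11) (nat_lit 13))
    (@En.n l13706 (nat_lit 3332) (nat_lit 12) (nat_lit 7))
    (@En.i (nat_lit 559) (nat_lit 13) (nat_lit 9))
    (@En.i (nat_lit 6204) (nat_lit 7) (nat_lit 12))
    (@En.n l617 (nat_lit 655) (nat_lit 7) (nat_lit 6))
    (@En.n l17 (nat_lit 657) (nat_lit 15) (nat_lit 2))))
  (@Cl.mk (nat_lit 0x20007000a000e000d0002000b00030006000c00090005000d0004000e0003) (nat_lit 0x60100000101000) (nat_lit 16) Lb.e (@T16.mk En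
    (@En.n l764 (nat_lit 654) (nat_lit 5) (nat_lit 3))
    (@En.n l1854 (nat_lit 938) (nat_lit 0) (nat_lit 14))
    (@En.n l7 (nat_lit 434) (nat_lit 2) (nat_lit 4))
    (@En.n l4356 (nat_lit 468) (nat_lit 9) (nat_lit 13))
    (@En.n l9533 (nat_lit 3327) (nat_lit 4) (nat_lit 5))
    (@En.n l2781 (nat_lit 560) (nat_lit 5) (nat_lit 9))
    (@En.n l1290 (nat_lit 6201) (nat_lit 7) (nat_lit 12))
    (@En.i (nat_lit 659) (nat_lit 12) (nat_lit 6))
    (@En.n l7921 (nat_lit 655) (nat_lit 8) (nat_lit 3))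
    (@En.n l4356 (nat_lit 2138) (nat_lit 0) (nat_lit 11))
    (@En.n l107 (nat_lit 658) (nat_lit 10) (nat_lit 2))
    (@En.n l18546 (nat_lit 655) (nat_lit 12) (nat_lit 13))
    (@En.n l9533 (nat_lit 3089) (nat_lit 13) (nat_lit 14))
    (@En.n l4356 (nat_lit 780) (nat_lit 8) (nat_lit 10))
    (@En.n l2588 (nat_lit 728) (nat_lit 3) (nat_lit 7))
    (@En.n l18 (nat_lit 658) (nat_lit 15) (nat_lit 2))))
  (@Cl.mk (nat_lit 0x20002000c0006000c00090004000d0004000e000300020007000a000e000e) (nat_lit 0x10b000006bc) (nat_lit 16) Lb.e (@T16.mk En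
    (@En.n l97 (nat_lit 659) (nat_lit 1) (nat_lit 14))
    (@En.i (nat_lit 3085) (nat_lit 13) (nat_lit 14))
    (@En.n l26334 (nat_lit 14102) (nat_lit 2) (nat_lit 10))
    (@En.n l2588 (nat_lit 13168) (nat_lit 3) (nat_lit 7))
    (@En.n l18 (nat_lit 659) (nat_lit 4) (nat_lit 2))
    (@En.n l764 (nat_lit 288) (nat_lit 5) (nat_lit 3))
    (@En.i (nat_lit 13825) (nat_lit 0) (nat_lit 14))
    (@En.n l7 (nat_lit 13562) (nat_lit 7) (nat_lit 4))
    (@En.n l26334 (nat_lit 13419) (nat_lit 9) (nat_lit 13))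
    (@En.n l404 (nat_lit 13152) (nat_lit 9) (nat_lit 4))
    (@En.n l2781 (nat_lit 284) (nat_lit 11) (nat_lit 9))
    (@En.n l25709 (nat_lit 13363) (nat_lit 12) (nat_lit 12))
    (@En.n l26334 (nat_lit 660) (nat_lit 13) (nat_lit 6))
    (@En.n l25709 (nat_lit 2430) (nat_lit 9) (nat_lit 12))
    (@En.n l107 (nat_lit 659) (nat_lit 14) (nat_lit 2))
    (@En.n l3 (nat_lit 659) (nat_lit 15) (nat_lit 2))))
  (@Cl.mk (nat_lit 0x200020006000c00090008000d0004000e000300020007000a0008000e000e) (nat_lit 0x6012) (nat_lit 16) Lb.e (@T16.mk En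
    (@En.n l5 (nat_lit 660) (nat_lit 1) (nat_lit 14))
    (@En.n l2383 (nat_lit 658) (nat_lit 12) (nat_lit 14))
    (@En.i (nat_lit 13150) (nat_lit 2) (nat_lit 8))
    (@En.i (nat_lit 13919) (nat_lit 3) (nat_lit 10))
    (@En.n l253 (nat_lit 13740) (nat_lit 4) (nat_lit 7))
    (@En.n l28 (nat_lit 660) (nat_lit 5) (nat_lit 2))
    (@En.n l4750 (nat_lit 661) (nat_lit 6) (nat_lit 3))
    (@En.n l253 (nat_lit 14059) (nat_lit 8) (nat_lit 14))
    (@En.n l12978 (nat_lit 13723) (nat_lit 8) (nat_lit 4))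
    (@En.i (nat_lit 13057) (nat_lit 10) (nat_lit 13))
    (@En.n l1504 (nat_lit 13687) (nat_lit 11) (nat_lit 8))
    (@En.i (nat_lit 13808) (nat_lit 12) (nat_lit 9))
    (@En.n l513 (nat_lit 13619) (nat_lit 13) (nat_lit 12))
    (@En.n l387 (nat_lit 657) (nat_lit 14) (nat_lit 6))
    (@En.n l17 (nat_lit 660) (nat_lit 14) (nat_lit 2))
    (@En.n l18 (nat_lit 660) (nat_lit 15) (nat_lit 2))))
  (@Cl.mk (nat_lit 0x200020006000b00090008000d000d0005000300030007000a0008000e000e) (nat_lit 0x100006012) (nat_lit 16) Lb.e (@T16.mk En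
    (@En.n l5 (nat_lit 661) (nat_lit 1) (nat_lit 14))
    (@En.n l6825 (nat_lit 654) (nat_lit 1) (nat_lit 14))
    (@En.i (nat_lit 13148) (nat_lit 2) (nat_lit 8))
    (@En.n l1836 (nat_lit 13920) (nat_lit 3) (nat_lit 10))
    (@En.n l12583 (nat_lit 13737) (nat_lit 4) (nat_lit 7))
    (@En.n l7126 (nat_lit 13813) (nat_lit 5) (nat_lit 3))
    (@En.n l1834 (nat_lit 660) (nat_lit 6) (nat_lit 3))
    (@En.n l1992 (nat_lit 13722) (nat_lit 7) (nat_lit 5))
    (@En.n l12631 (nat_lit 660) (nat_lit 9) (nat_lit 13))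
    (@En.n l1836 (nat_lit 13674) (nat_lit 10) (nat_lit 13))
    (@En.n l77 (nat_lit 13688) (nat_lit 11) (nat_lit 8))
    (@En.n l8361 (nat_lit 13809) (nat_lit 12) (nat_lit 9))
    (@En.i (nat_lit 13621) (nat_lit 13) (nat_lit 11))
    (@En.i (nat_lit 656) (nat_lit 14) (nat_lit 6))
    (@En.n l17 (nat_lit 661) (nat_lit 14) (nat_lit 2))
    (@En.n l18 (nat_lit 661) (nat_lit 15) (nat_lit 2))))
  (@Cl.mk (nat_lit 0x20007000d0008000d0003000e00030002000c00090008000d0004000e0003) (nat_lit 0xa0003000000000) (nat_lit 16) Lb.e (@T16.mk En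
    (@En.n l117 (nat_lit 665) (nat_lit 8) (nat_lit 3))
    (@En.n l810 (nat_lit 13004) (nat_lit 0) (nat_lit 14))
    (@En.n l2576 (nat_lit 2669) (nat_lit 2) (nat_lit 4))
    (@En.n l810 (nat_lit 3003) (nat_lit 12) (nat_lit 13))
    (@En.n l77 (nat_lit 3781) (nat_lit 13) (nat_lit 8))
    (@En.i (nat_lit 3795) (nat_lit 5) (nat_lit 9))
    (@En.i (nat_lit 7083) (nat_lit 7) (nat_lit 12))
    (@En.n l17 (nat_lit 662) (nat_lit 7) (nat_lit 2))
    (@En.i (nat_lit 666) (nat_lit 8) (nat_lit 3))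
    (@En.n l1599 (nat_lit 660) (nat_lit 0) (nat_lit 14))
    (@En.i (nat_lit 663) (nat_lit 10) (nat_lit 3))
    (@En.n l14576 (nat_lit 3085) (nat_lit 12) (nat_lit 13))
    (@En.i (nat_lit 3972) (nat_lit 13) (nat_lit 8))
    (@En.n l1599 (nat_lit 7448) (nat_lit 6) (nat_lit 13))
    (@En.n l810 (nat_lit 4378) (nat_lit 6) (nat_lit 7))
    (@En.n l11 (nat_lit 662) (nat_lit 15) (nat_lit 2))))
  (@Cl.mk (nat_lit 0x20007000d000c00090003000e00040002000c00090007000d0004000e0003) (nat_lit 0xb0001000000000) (nat_lit 16) Lb.e (@T16.mk En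
    (@En.n l117 (nat_lit 664) (nat_lit 8) (nat_lit 3))
    (@En.n l810 (nat_lit 13006) (nat_lit 0) (nat_lit 14))
    (@En.n l2576 (nat_lit 2668) (nat_lit 2) (nat_lit 4))
    (@En.n l810 (nat_lit 3339) (nat_lit 12) (nat_lit 13))
    (@En.n l2900 (nat_lit 2673) (nat_lit 4) (nat_lit 7))
    (@En.i (nat_lit 3647) (nat_lit 5) (nat_lit 9))
    (@En.i (nat_lit 7085) (nat_lit 7) (nat_lit 12))
    (@En.n l17 (nat_lit 663) (nat_lit 7) (nat_lit 2))
    (@En.n l2900 (nat_lit 3903) (nat_lit 8) (nat_lit 4))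
    (@En.n l998 (nat_lit 657) (nat_lit 1) (nat_lit 14))
    (@En.n l50 (nat_lit 662) (nat_lit 10) (nat_lit 3))
    (@En.n l2900 (nat_lit 3721) (nat_lit 12) (nat_lit 9))
    (@En.n l217 (nat_lit 666) (nat_lit 13) (nat_lit 12))
    (@En.n l1599 (nat_lit 3533) (nat_lit 6) (nat_lit 13))
    (@En.n l810 (nat_lit 4379) (nat_lit 6) (nat_lit 7))
    (@En.n l11 (nat_lit 663) (nat_lit 15) (nat_lit 2))))
  (@Cl.mk (nat_lit 0x2000b00090007000d000d0005000300030007000d000c00090003000e0004) (nat_lit 0x10000b00020) (nat_lit 16) Lb.e (@T16.mk En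
    (@En.n l27875 (nat_lit 3902) (nat_lit 7) (nat_lit 4))
    (@En.n l5 (nat_lit 656) (nat_lit 1) (nat_lit 14))
    (@En.n l50 (nat_lit 665) (nat_lit 2) (nat_lit 3))
    (@En.n l2826 (nat_lit 3720) (nat_lit 3) (nat_lit 9))
    (@En.n l217 (nat_lit 667) (nat_lit 12) (nat_lit 12))
    (@En.n l1836 (nat_lit 3529) (nat_lit 6) (nat_lit 13))
    (@En.n l22253 (nat_lit 4375) (nat_lit 6) (nat_lit 7))
    (@En.n l14185 (nat_lit 3908) (nat_lit 13) (nat_lit 3))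
    (@En.n l152 (nat_lit 663) (nat_lit 0) (nat_lit 3))
    (@En.n l1992 (nat_lit 1164) (nat_lit 0) (nat_lit 5))
    (@En.n l619 (nat_lit 663) (nat_lit 3) (nat_lit 13))
    (@En.i (nat_lit 2999) (nat_lit 12) (nat_lit 13))
    (@En.n l12788 (nat_lit 2674) (nat_lit 13) (nat_lit 7))
    (@En.n l7525 (nat_lit 3648) (nat_lit 14) (nat_lit 9))
    (@En.i (nat_lit 7087) (nat_lit 12) (nat_lit 11))
    (@En.n l17 (nat_lit 664) (nat_lit 15) (nat_lit 2))))
  (@Cl.mk (nat_lit 0x2000b00090008000d000d0005000300030007000d0008000d0003000e0003) (nat_lit 0x10000a00030) (nat_lit 16) Lb.e (@T16.mk En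
    (@En.i (nat_lit 667) (nat_lit 7) (nat_lit 3))
    (@En.i (nat_lit 661) (nat_lit 0) (nat_lit 14))
    (@En.i (nat_lit 664) (nat_lit 2) (nat_lit 3))
    (@En.n l8361 (nat_lit 3086) (nat_lit 0) (nat_lit 13))
    (@En.i (nat_lit 3913) (nat_lit 4) (nat_lit 8))
    (@En.n l1836 (nat_lit 3532) (nat_lit 6) (nat_lit 13))
    (@En.n l22253 (nat_lit 4373) (nat_lit 6) (nat_lit 7))
    (@En.n l2261 (nat_lit 3909) (nat_lit 13) (nat_lit 3))
    (@En.n l152 (nat_lit 662) (nat_lit 0) (nat_lit 3))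
    (@En.n l1992 (nat_lit 1162) (nat_lit 0) (nat_lit 5))
    (@En.n l619 (nat_lit 662) (nat_lit 3) (nat_lit 13))
    (@En.i (nat_lit 3000) (nat_lit 12) (nat_lit 13))
    (@En.n l77 (nat_lit 3784) (nat_lit 13) (nat_lit 8))
    (@En.n l8361 (nat_lit 3797) (nat_lit 14) (nat_lit 9))
    (@En.i (nat_lit 7084) (nat_lit 12) (nat_lit 11))
    (@En.n l17 (nat_lit 665) (nat_lit 15) (nat_lit 2))))
  (@Cl.mk (nat_lit 0x20007000c0008000d000d000400030003000c00090008000d0004000e0003) (nat_lit 0xa0010000000000) (nat_lit 16) Lb.e (@T16.mk En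
    (@En.n l117 (nat_lit 667) (nat_lit 15) (nat_lit 3))
    (@En.n l810 (nat_lit 13005) (nat_lit 0) (nat_lit 14))
    (@En.n l2576 (nat_lit 2664) (nat_lit 2) (nat_lit 4))
    (@En.n l810 (nat_lit 3005) (nat_lit 11) (nat_lit 13))
    (@En.n l77 (nat_lit 3783) (nat_lit 4) (nat_lit 8))
    (@En.i (nat_lit 3794) (nat_lit 5) (nat_lit 9))
    (@En.i (nat_lit 7082) (nat_lit 7) (nat_lit 12))
    (@En.n l3180 (nat_lit 2663) (nat_lit 13) (nat_lit 3))
    (@En.n l18 (nat_lit 662) (nat_lit 8) (nat_lit 3))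
    (@En.n l8170 (nat_lit 3904) (nat_lit 0) (nat_lit 4))
    (@En.n l61 (nat_lit 662) (nat_lit 11) (nat_lit 13))
    (@En.n l8252 (nat_lit 3081) (nat_lit 12) (nat_lit 13))
    (@En.i (nat_lit 2080) (nat_lit 13) (nat_lit 8))
    (@En.n l4909 (nat_lit 7303) (nat_lit 14) (nat_lit 12))
    (@En.n l810 (nat_lit 2262) (nat_lit 5) (nat_lit 7))
    (@En.n l11 (nat_lit 666) (nat_lit 15) (nat_lit 2))))
  (@Cl.mk (nat_lit 0x300030007000c0008000d000d000400030003000b00090008000d000d0005) (nat_lit 0xa001000000010) (nat_lit 16) Lb.e (@T16.mk En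
    (@En.n l1992 (nat_lit 1163) (nat_lit 0) (nat_lit 5))
    (@En.n l619 (nat_lit 666) (nat_lit 3) (nat_lit 13))
    (@En.i (nat_lit 3001) (nat_lit 11) (nat_lit 13))
    (@En.n l77 (nat_lit 3785) (nat_lit 12) (nat_lit 8))
    (@En.n l14455 (nat_lit 3796) (nat_lit 4) (nat_lit 9))
    (@En.i (nat_lit 7081) (nat_lit 14) (nat_lit 11))
    (@En.n l11228 (nat_lit 3906) (nat_lit 13) (nat_lit 3))
    (@En.n l18 (nat_lit 665) (nat_lit 0) (nat_lit 3))
    (@En.i (nat_lit 3897) (nat_lit 0) (nat_lit 4))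
    (@En.n l61 (nat_lit 665) (nat_lit 3) (nat_lit 13))
    (@En.n l14455 (nat_lit 3083) (nat_lit 11) (nat_lit 13))
    (@En.n l14384 (nat_lit 2081) (nat_lit 12) (nat_lit 8))
    (@En.n l8047 (nat_lit 7207) (nat_lit 13) (nat_lit 12))
    (@En.n l14455 (nat_lit 2326) (nat_lit 5) (nat_lit 7))
    (@En.n l34638 (nat_lit 3907) (nat_lit 13) (nat_lit 3))
    (@En.n l152 (nat_lit 666) (nat_lit 0) (nat_lit 3))))
  (@Cl.mk (nat_lit 0x200060006000a000d0008000e000300020006000b000a000a0008000e0005) (nat_lit 0x5b000009120c0) (nat_lit 16) Lb.e (@T16.mk En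
    (@En.n l152 (nat_lit 436) (nat_lit 8) (nat_lit 5))
    (@En.n l17049 (nat_lit 613) (nat_lit 10) (nat_lit 14))
    (@En.n l77 (nat_lit 3736) (nat_lit 2) (nat_lit 8))
    (@En.n l17050 (nat_lit 671) (nat_lit 12) (nat_lit 10))
    (@En.n l17051 (nat_lit 641) (nat_lit 4) (nat_lit 10))
    (@En.n l637 (nat_lit 6140) (nat_lit 14) (nat_lit 11))
    (@En.n l17052 (nat_lit 440) (nat_lit 6) (nat_lit 6))
    (@En.n l18 (nat_lit 668) (nat_lit 7) (nat_lit 2))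
    (@En.n l6046 (nat_lit 440) (nat_lit 8) (nat_lit 3))
    (@En.n l10815 (nat_lit 13590) (nat_lit 0) (nat_lit 14))
    (@En.n l3419 (nat_lit 1682) (nat_lit 2) (nat_lit 8))
    (@En.i (nat_lit 1162) (nat_lit 12) (nat_lit 13))
    (@En.n l17049 (nat_lit 792) (nat_lit 13) (nat_lit 10))
    (@En.n l17053 (nat_lit 697) (nat_lit 14) (nat_lit 6))
    (@En.n l17054 (nat_lit 488) (nat_lit 6) (nat_lit 6))
    (@En.n l3 (nat_lit 668) (nat_lit 15) (nat_lit 2))))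
  (@Cl.mk (nat_lit 0x200060006000a000e000d0002000a00030006000b000a000a0006000e0005) (nat_lit 0x60100009120c0) (nat_lit 16) Lb.e (@T16.mk En
    (@En.n l6979 (nat_lit 437) (nat_lit 6) (nat_lit 5))
    (@En.n l6980 (nat_lit 612) (nat_lit 8) (nat_lit 14))
    (@En.n l12553 (nat_lit 3210) (nat_lit 2) (nat_lit 6))
    (@En.n l61 (nat_lit 672) (nat_lit 6) (nat_lit 10))
    (@En.n l764 (nat_lit 640) (nat_lit 4) (nat_lit 10))
    (@En.n l12797 (nat_lit 6172) (nat_lit 12) (nat_lit 11))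
    (@En.i (nat_lit 13590) (nat_lit 12) (nat_lit 6))
    (@En.n l2688 (nat_lit 440) (nat_lit 7) (nat_lit 3))
    (@En.i (nat_lit 1554) (nat_lit 0) (nat_lit 10))
    (@En.n l107 (nat_lit 669) (nat_lit 9) (nat_lit 2))
    (@En.n l17019 (nat_lit 440) (nat_lit 11) (nat_lit 13))
    (@En.n l619 (nat_lit 2642) (nat_lit 12) (nat_lit 14))
    (@En.n l4793 (nat_lit 793) (nat_lit 13) (nat_lit 10))
    (@En.n l7696 (nat_lit 696) (nat_lit 14) (nat_lit 6))
    (@En.n l6984 (nat_lit 487) (nat_lit 4) (nat_lit 6))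
    (@En.n l50 (nat_lit 669) (nat_lit 15) (nat_lit 2))))
  (@Cl.mk (nat_lit 0x2000a000d000d000a000300030006000c000a0006000e00040002000e0006) (nat_lit 0x7000000880c0020) (nat_lit 16) Lb.e (@T16.mk En
    (@En.n l2688 (nat_lit 440) (nat_lit 14) (nat_lit 6))
    (@En.n l5 (nat_lit 398) (nat_lit 1) (nat_lit 14))
    (@En.n l50 (nat_lit 670) (nat_lit 2) (nat_lit 2))
    (@En.n l7 (nat_lit 438) (nat_lit 3) (nat_lit 4))
    (@En.n l2689 (nat_lit 453) (nat_lit 1) (nat_lit 14))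
    (@En.n l2690 (nat_lit 871) (nat_lit 5) (nat_lit 6))
    (@En.n l1966 (nat_lit 567) (nat_lit 3) (nat_lit 10))
    (@En.n l615 (nat_lit 6132) (nat_lit 8) (nat_lit 12))
    (@En.n l159 (nat_lit 672) (nat_lit 8) (nat_lit 6))
    (@En.n l11 (nat_lit 672) (nat_lit 9) (nat_lit 3))
    (@En.n l2691 (nat_lit 671) (nat_lit 0) (nat_lit 3))
    (@En.i (nat_lit 1928) (nat_lit 0) (nat_lit 10))
    (@En.n l1572 (nat_lit 671) (nat_lit 3) (nat_lit 13))
    (@En.n l619 (nat_lit 679) (nat_lit 5) (nat_lit 13))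
    (@En.n l2692 (nat_lit 823) (nat_lit 12) (nat_lit 10))
    (@En.n l17 (nat_lit 670) (nat_lit 15) (nat_lit 2))))
  (@Cl.mk (nat_lit 0x20006000c000a0007000e00040002000e00060002000a000d0009000e0003) (nat_lit 0x910b002006b000) (nat_lit 16) Lb.e (@T16.mk En
    (@En.n l7706 (nat_lit 670) (nat_lit 10) (nat_lit 3))
    (@En.i (nat_lit 677) (nat_lit 0) (nat_lit 14))
    (@En.n l7707 (nat_lit 1679) (nat_lit 2) (nat_lit 9))
    (@En.i (nat_lit 680) (nat_lit 5) (nat_lit 13))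
    (@En.n l5555 (nat_lit 824) (nat_lit 4) (nat_lit 10))
    (@En.n l17 (nat_lit 671) (nat_lit 5) (nat_lit 2))
    (@En.n l7708 (nat_lit 668) (nat_lit 14) (nat_lit 6))
    (@En.n l998 (nat_lit 399) (nat_lit 1) (nat_lit 14))
    (@En.n l50 (nat_lit 671) (nat_lit 8) (nat_lit 2))
    (@En.n l4263 (nat_lit 673) (nat_lit 9) (nat_lit 4))
    (@En.n l7709 (nat_lit 683) (nat_lit 11) (nat_lit 14))
    (@En.n l790 (nat_lit 870) (nat_lit 12) (nat_lit 7))
    (@En.i (nat_lit 585) (nat_lit 13) (nat_lit 10))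
    (@En.n l790 (nat_lit 6131) (nat_lit 8) (nat_lit 12))
    (@En.n l4870 (nat_lit 670) (nat_lit 8) (nat_lit 6))
    (@En.n l107 (nat_lit 671) (nat_lit 15) (nat_lit 2))))
noncomputable def a42 : T16 Cl := @T16.mk Cl
  (@Cl.mk (nat_lit 0x2000a000e000d0002000b00030006000c000a0005000e00040002000e0006) (nat_lit 0x7010000910b0020) (nat_lit 16) Lb.e (@T16.mk En
    (@En.i (nat_lit 669) (nat_lit 14) (nat_lit 6))
    (@En.n l5 (nat_lit 400) (nat_lit 1) (nat_lit 14))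
    (@En.n l50 (nat_lit 672) (nat_lit 2) (nat_lit 2))
    (@En.n l7 (nat_lit 674) (nat_lit 7) (nat_lit 4))
    (@En.i (nat_lit 682) (nat_lit 9) (nat_lit 14))
    (@En.n l278 (nat_lit 874) (nat_lit 5) (nat_lit 5))
    (@En.i (nat_lit 584) (nat_lit 11) (nat_lit 10))
    (@En.n l1643 (nat_lit 6135) (nat_lit 8) (nat_lit 12))
    (@En.i (nat_lit 677) (nat_lit 12) (nat_lit 6))
    (@En.i (nat_lit 670) (nat_lit 9) (nat_lit 3))
    (@En.i (nat_lit 1929) (nat_lit 0) (nat_lit 11))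
    (@En.n l107 (nat_lit 672) (nat_lit 11) (nat_lit 2))
    (@En.n l180 (nat_lit 670) (nat_lit 13) (nat_lit 13))
    (@En.n l619 (nat_lit 678) (nat_lit 1) (nat_lit 14))
    (@En.i (nat_lit 825) (nat_lit 12) (nat_lit 10))
    (@En.n l17 (nat_lit 672) (nat_lit 15) (nat_lit 2))))
  (@Cl.mk (nat_lit 0x20006000c000c000b000800040004000e00050002000a000d0008000e0003) (nat_lit 0x8a30001006b000) (nat_lit 16) Lb.e (@T16.mk En
    (@En.n l3415 (nat_lit 438) (nat_lit 10) (nat_lit 3))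
    (@En.n l2438 (nat_lit 13501) (nat_lit 0) (nat_lit 14))
    (@En.i (nat_lit 1607) (nat_lit 2) (nat_lit 8))
    (@En.i (nat_lit 2673) (nat_lit 5) (nat_lit 13))
    (@En.n l1599 (nat_lit 822) (nat_lit 4) (nat_lit 10))
    (@En.n l28 (nat_lit 673) (nat_lit 5) (nat_lit 2))
    (@En.i (nat_lit 436) (nat_lit 6) (nat_lit 5))
    (@En.n l4108 (nat_lit 391) (nat_lit 8) (nat_lit 14))
    (@En.n l152 (nat_lit 865) (nat_lit 8) (nat_lit 4))
    (@En.n l2438 (nat_lit 590) (nat_lit 9) (nat_lit 4))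
    (@En.i (nat_lit 866) (nat_lit 11) (nat_lit 8))
    (@En.n l4684 (nat_lit 839) (nat_lit 12) (nat_lit 11))
    (@En.n l10815 (nat_lit 671) (nat_lit 13) (nat_lit 12))
    (@En.i (nat_lit 1134) (nat_lit 8) (nat_lit 12))
    (@En.n l3421 (nat_lit 438) (nat_lit 8) (nat_lit 6))
    (@En.n l18 (nat_lit 673) (nat_lit 15) (nat_lit 2))))
  (@Cl.mk (nat_lit 0x2000a00030006000c000c000b000600040004000e00050002000a000e000d) (nat_lit 0x8a3000100601) (nat_lit 16) Lb.e (@T16.mk En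
    (@En.n l180 (nat_lit 438) (nat_lit 13) (nat_lit 13))
    (@En.n l619 (nat_lit 2653) (nat_lit 1) (nat_lit 14))
    (@En.i (nat_lit 807) (nat_lit 2) (nat_lit 10))
    (@En.n l17 (nat_lit 674) (nat_lit 3) (nat_lit 2))
    (@En.n l50 (nat_lit 437) (nat_lit 4) (nat_lit 5))
    (@En.n l3786 (nat_lit 395) (nat_lit 1) (nat_lit 14))
    (@En.n l3787 (nat_lit 864) (nat_lit 6) (nat_lit 4))
    (@En.i (nat_lit 591) (nat_lit 3) (nat_lit 4))
    (@En.i (nat_lit 872) (nat_lit 4) (nat_lit 6))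
    (@En.n l2337 (nat_lit 840) (nat_lit 10) (nat_lit 11))
    (@En.n l601 (nat_lit 672) (nat_lit 7) (nat_lit 12))
    (@En.n l9521 (nat_lit 1137) (nat_lit 8) (nat_lit 12))
    (@En.i (nat_lit 13501) (nat_lit 12) (nat_lit 6))
    (@En.i (nat_lit 438) (nat_lit 9) (nat_lit 3))
    (@En.i (nat_lit 1553) (nat_lit 0) (nat_lit 10))
    (@En.n l107 (nat_lit 674) (nat_lit 15) (nat_lit 2))))
  (@Cl.mk (nat_lit 0x2000a000d000d0008000300030006000e000c0002000c00080004000e0004) (nat_lit 0x500000091040050) (nat_lit 16) Lb.e (@T16.mk En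
    (@En.n l11 (nat_lit 439) (nat_lit 10) (nat_lit 4))
    (@En.n l5295 (nat_lit 698) (nat_lit 1) (nat_lit 14))
    (@En.n l5145 (nat_lit 841) (nat_lit 2) (nat_lit 4))
    (@En.i (nat_lit 867) (nat_lit 14) (nat_lit 8))
    (@En.n l5302 (nat_lit 645) (nat_lit 10) (nat_lit 12))
    (@En.n l3 (nat_lit 675) (nat_lit 5) (nat_lit 2))
    (@En.n l3415 (nat_lit 438) (nat_lit 7) (nat_lit 12))
    (@En.n l339 (nat_lit 866) (nat_lit 8) (nat_lit 14))
    (@En.n l5474 (nat_lit 864) (nat_lit 12) (nat_lit 6))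
    (@En.n l5475 (nat_lit 864) (nat_lit 13) (nat_lit 3))
    (@En.n l50 (nat_lit 865) (nat_lit 0) (nat_lit 3))
    (@En.n l5145 (nat_lit 1192) (nat_lit 0) (nat_lit 8))
    (@En.n l217 (nat_lit 865) (nat_lit 3) (nat_lit 13))
    (@En.i (nat_lit 2676) (nat_lit 8) (nat_lit 13))
    (@En.n l1599 (nat_lit 806) (nat_lit 9) (nat_lit 10))
    (@En.n l28 (nat_lit 675) (nat_lit 15) (nat_lit 2))))
  (@Cl.mk (nat_lit 0x200020006000c000a0008000e00040002000e00060002000a0008000e000e) (nat_lit 0x6012) (nat_lit 16) Lb.e (@T16.mk En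
    (@En.n l180 (nat_lit 676) (nat_lit 1) (nat_lit 14))
    (@En.i (nat_lit 672) (nat_lit 13) (nat_lit 14))
    (@En.n l619 (nat_lit 12974) (nat_lit 2) (nat_lit 8))
    (@En.n l7678 (nat_lit 13925) (nat_lit 3) (nat_lit 10))
    (@En.n l17 (nat_lit 676) (nat_lit 4) (nat_lit 2))
    (@En.n l7708 (nat_lit 13722) (nat_lit 5) (nat_lit 6))
    (@En.n l998 (nat_lit 13117) (nat_lit 7) (nat_lit 14))
    (@En.n l50 (nat_lit 676) (nat_lit 7) (nat_lit 2))
    (@En.n l4263 (nat_lit 13719) (nat_lit 8) (nat_lit 4))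
    (@En.n l7678 (nat_lit 13603) (nat_lit 10) (nat_lit 14))
    (@En.n l2667 (nat_lit 14028) (nat_lit 11) (nat_lit 8))
    (@En.i (nat_lit 13811) (nat_lit 12) (nat_lit 10))
    (@En.n l1643 (nat_lit 13928) (nat_lit 13) (nat_lit 12))
    (@En.i (nat_lit 671) (nat_lit 14) (nat_lit 6))
    (@En.n l11 (nat_lit 676) (nat_lit 14) (nat_lit 2))
    (@En.n l107 (nat_lit 676) (nat_lit 15) (nat_lit 2))))
  (@Cl.mk (nat_lit 0x20002000c0006000c000a0004000e00040002000e00060002000a000e000e) (nat_lit 0x100000006bc) (nat_lit 16) Lb.e (@T16.mk En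
    (@En.n l97 (nat_lit 677) (nat_lit 1) (nat_lit 14))
    (@En.i (nat_lit 681) (nat_lit 1) (nat_lit 14))
    (@En.i (nat_lit 13563) (nat_lit 2) (nat_lit 10))
    (@En.n l17 (nat_lit 677) (nat_lit 3) (nat_lit 2))
    (@En.i (nat_lit 13590) (nat_lit 4) (nat_lit 6))
    (@En.n l5 (nat_lit 13583) (nat_lit 6) (nat_lit 14))
    (@En.n l50 (nat_lit 677) (nat_lit 6) (nat_lit 2))
    (@En.n l7 (nat_lit 13501) (nat_lit 7) (nat_lit 4))
    (@En.i (nat_lit 13594) (nat_lit 9) (nat_lit 14))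
    (@En.i (nat_lit 12952) (nat_lit 9) (nat_lit 4))
    (@En.i (nat_lit 286) (nat_lit 11) (nat_lit 10))
    (@En.i (nat_lit 13936) (nat_lit 12) (nat_lit 12))
    (@En.n l159 (nat_lit 676) (nat_lit 13) (nat_lit 6))
    (@En.i (nat_lit 1678) (nat_lit 10) (nat_lit 12))
    (@En.n l107 (nat_lit 677) (nat_lit 14) (nat_lit 2))
    (@En.n l3 (nat_lit 677) (nat_lit 15) (nat_lit 2))))
  (@Cl.mk (nat_lit 0x2000d000b00040003000c000a0005000e00040002000e00060002000e000c) (nat_lit 0x1000000b00100c0) (nat_lit 16) Lb.e (@T16.mk En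
    (@En.i (nat_lit 3748) (nat_lit 14) (nat_lit 12))
    (@En.i (nat_lit 8580) (nat_lit 1) (nat_lit 14))
    (@En.n l17 (nat_lit 678) (nat_lit 2) (nat_lit 2))
    (@En.i (nat_lit 2642) (nat_lit 14) (nat_lit 6))
    (@En.n l5 (nat_lit 311) (nat_lit 1) (nat_lit 14))
    (@En.n l50 (nat_lit 678) (nat_lit 5) (nat_lit 2))
    (@En.n l7 (nat_lit 2653) (nat_lit 6) (nat_lit 4))
    (@En.i (nat_lit 684) (nat_lit 1) (nat_lit 14))
    (@En.n l685 (nat_lit 3944) (nat_lit 8) (nat_lit 5))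
    (@En.i (nat_lit 3809) (nat_lit 3) (nat_lit 10))
    (@En.n l287 (nat_lit 7979) (nat_lit 11) (nat_lit 12))
    (@En.n l11 (nat_lit 681) (nat_lit 11) (nat_lit 3))
    (@En.i (nat_lit 679) (nat_lit 0) (nat_lit 4))
    (@En.i (nat_lit 3941) (nat_lit 14) (nat_lit 11))
    (@En.i (nat_lit 670) (nat_lit 12) (nat_lit 13))
    (@En.n l3 (nat_lit 678) (nat_lit 15) (nat_lit 2))))
  (@Cl.mk (nat_lit 0x2000c000a0007000e00040002000e00060002000d000c00090003000e0004) (nat_lit 0xb00200b00010) (nat_lit 16) Lb.e (@T16.mk En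
    (@En.n l117 (nat_lit 3748) (nat_lit 9) (nat_lit 4))
    (@En.n l2691 (nat_lit 671) (nat_lit 1) (nat_lit 14))
    (@En.n l936 (nat_lit 680) (nat_lit 2) (nat_lit 3))
    (@En.i (nat_lit 1612) (nat_lit 3) (nat_lit 9))
    (@En.n l936 (nat_lit 1168) (nat_lit 14) (nat_lit 12))
    (@En.i (nat_lit 8511) (nat_lit 12) (nat_lit 13))
    (@En.n l17 (nat_lit 679) (nat_lit 6) (nat_lit 2))
    (@En.n l6982 (nat_lit 1164) (nat_lit 14) (nat_lit 6))
    (@En.n l1304 (nat_lit 326) (nat_lit 1) (nat_lit 14))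
    (@En.n l50 (nat_lit 679) (nat_lit 9) (nat_lit 2))
    (@En.n l7913 (nat_lit 2672) (nat_lit 10) (nat_lit 4))
    (@En.i (nat_lit 685) (nat_lit 1) (nat_lit 14))
    (@En.n l7833 (nat_lit 1947) (nat_lit 5) (nat_lit 7))
    (@En.i (nat_lit 3804) (nat_lit 14) (nat_lit 10))
    (@En.n l614 (nat_lit 7989) (nat_lit 8) (nat_lit 12))
    (@En.n l11 (nat_lit 679) (nat_lit 15) (nat_lit 2))))
  (@Cl.mk (nat_lit 0x2000c000a0008000e00040002000e00060002000d0008000d0003000e0003) (nat_lit 0xb00200a00030) (nat_lit 16) Lb.e (@T16.mk En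
    (@En.n l117 (nat_lit 1168) (nat_lit 9) (nat_lit 3))
    (@En.i (nat_lit 676) (nat_lit 0) (nat_lit 14))
    (@En.n l2576 (nat_lit 679) (nat_lit 2) (nat_lit 3))
    (@En.i (nat_lit 681) (nat_lit 0) (nat_lit 13))
    (@En.i (nat_lit 3286) (nat_lit 14) (nat_lit 8))
    (@En.i (nat_lit 8514) (nat_lit 12) (nat_lit 13))
    (@En.n l17 (nat_lit 680) (nat_lit 6) (nat_lit 2))
    (@En.n l7708 (nat_lit 1162) (nat_lit 14) (nat_lit 6))
    (@En.n l998 (nat_lit 331) (nat_lit 1) (nat_lit 14))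
    (@En.n l50 (nat_lit 680) (nat_lit 9) (nat_lit 2))
    (@En.n l4263 (nat_lit 2673) (nat_lit 10) (nat_lit 4))
    (@En.i (nat_lit 694) (nat_lit 1) (nat_lit 14))
    (@En.n l2667 (nat_lit 4100) (nat_lit 5) (nat_lit 8))
    (@En.i (nat_lit 3802) (nat_lit 14) (nat_lit 10))
    (@En.i (nat_lit 9995) (nat_lit 8) (nat_lit 12))
    (@En.n l11 (nat_lit 680) (nat_lit 15) (nat_lit 2))))
  (@Cl.mk (nat_lit 0x2000d0003000c0003000c000a0004000e00040002000e00060002000e000d) (nat_lit 0x2000000c00100ab) (nat_lit 16) Lb.e (@T16.mk En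
    (@En.i (nat_lit 2644) (nat_lit 14) (nat_lit 13))
    (@En.i (nat_lit 8579) (nat_lit 1) (nat_lit 14))
    (@En.n l17 (nat_lit 681) (nat_lit 2) (nat_lit 2))
    (@En.i (nat_lit 2643) (nat_lit 14) (nat_lit 6))
    (@En.n l5 (nat_lit 309) (nat_lit 1) (nat_lit 14))
    (@En.n l50 (nat_lit 681) (nat_lit 5) (nat_lit 2))
    (@En.n l7 (nat_lit 2648) (nat_lit 6) (nat_lit 4))
    (@En.i (nat_lit 686) (nat_lit 1) (nat_lit 14))
    (@En.i (nat_lit 3933) (nat_lit 8) (nat_lit 4))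
    (@En.i (nat_lit 3814) (nat_lit 10) (nat_lit 10))
    (@En.i (nat_lit 5862) (nat_lit 11) (nat_lit 12))
    (@En.i (nat_lit 678) (nat_lit 11) (nat_lit 3))
    (@En.i (nat_lit 4909) (nat_lit 0) (nat_lit 12))
    (@En.n l117 (nat_lit 2644) (nat_lit 10) (nat_lit 3))
    (@En.i (nat_lit 672) (nat_lit 12) (nat_lit 13))
    (@En.n l3 (nat_lit 681) (nat_lit 15) (nat_lit 2))))
  (@Cl.mk (nat_lit 0x2000800030006000d000a000e000300020008000e00060002000a000e000d) (nat_lit 0xb1a000300401) (nat_lit 16) Lb.e (@T16.mk En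
    (@En.n l17486 (nat_lit 453) (nat_lit 9) (nat_lit 13))
    (@En.n l619 (nat_lit 684) (nat_lit 10) (nat_lit 14))
    (@En.n l7678 (nat_lit 571) (nat_lit 2) (nat_lit 10))
    (@En.n l17 (nat_lit 682) (nat_lit 3) (nat_lit 2))
    (@En.n l6980 (nat_lit 612) (nat_lit 4) (nat_lit 6))
    (@En.n l2567 (nat_lit 116) (nat_lit 6) (nat_lit 14))
    (@En.i (nat_lit 7885) (nat_lit 6) (nat_lit 8))
    (@En.n l50 (nat_lit 682) (nat_lit 7) (nat_lit 2))
    (@En.n l7 (nat_lit 452) (nat_lit 8) (nat_lit 3))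
    (@En.n l4361 (nat_lit 13467) (nat_lit 0) (nat_lit 14))
    (@En.i (nat_lit 380) (nat_lit 2) (nat_lit 10))
    (@En.n l1643 (nat_lit 6263) (nat_lit 8) (nat_lit 13))
    (@En.i (nat_lit 13594) (nat_lit 12) (nat_lit 6))
    (@En.n l2689 (nat_lit 453) (nat_lit 5) (nat_lit 3))
    (@En.n l7678 (nat_lit 1886) (nat_lit 0) (nat_lit 8))
    (@En.n l107 (nat_lit 682) (nat_lit 15) (nat_lit 2))))
  (@Cl.mk (nat_lit 0x20006000d000a000e00030002000a000e00060002000a000d0006000e0003) (nat_lit 0xb1a0003003b000) (nat_lit 16) Lb.e (@T16.mk En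
    (@En.i (nat_lit 453) (nat_lit 6) (nat_lit 3))
    (@En.n l17615 (nat_lit 13594) (nat_lit 0) (nat_lit 14))
    (@En.i (nat_lit 1888) (nat_lit 2) (nat_lit 6))
    (@En.n l17615 (nat_lit 694) (nat_lit 10) (nat_lit 13))
    (@En.i (nat_lit 570) (nat_lit 4) (nat_lit 10))
    (@En.n l3 (nat_lit 683) (nat_lit 5) (nat_lit 2))
    (@En.n l6416 (nat_lit 613) (nat_lit 6) (nat_lit 6))
    (@En.n l8975 (nat_lit 120) (nat_lit 8) (nat_lit 14))
    (@En.n l8972 (nat_lit 7881) (nat_lit 9) (nat_lit 10))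
    (@En.n l28 (nat_lit 683) (nat_lit 9) (nat_lit 2))
    (@En.n l11942 (nat_lit 451) (nat_lit 10) (nat_lit 3))
    (@En.n l7368 (nat_lit 13465) (nat_lit 0) (nat_lit 14))
    (@En.n l8975 (nat_lit 416) (nat_lit 13) (nat_lit 10))
    (@En.n l7368 (nat_lit 6262) (nat_lit 8) (nat_lit 13))
    (@En.n l617 (nat_lit 453) (nat_lit 4) (nat_lit 6))
    (@En.n l17 (nat_lit 683) (nat_lit 15) (nat_lit 2))))
  (@Cl.mk (nat_lit 0x20008000e00060002000e000c0002000d000800040003000d000a000e0003) (nat_lit 0x300c00100081a0) (nat_lit 16) Lb.e (@T16.mk En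
    (@En.n l7 (nat_lit 687) (nat_lit 7) (nat_lit 3))
    (@En.n l828 (nat_lit 13447) (nat_lit 0) (nat_lit 14))
    (@En.i (nat_lit 378) (nat_lit 2) (nat_lit 10))
    (@En.n l828 (nat_lit 12805) (nat_lit 11) (nat_lit 13))
    (@En.n l11 (nat_lit 686) (nat_lit 4) (nat_lit 3))
    (@En.i (nat_lit 685) (nat_lit 5) (nat_lit 4))
    (@En.i (nat_lit 1210) (nat_lit 14) (nat_lit 8))
    (@En.n l2689 (nat_lit 453) (nat_lit 8) (nat_lit 13))
    (@En.n l3 (nat_lit 684) (nat_lit 8) (nat_lit 2))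
    (@En.i (nat_lit 688) (nat_lit 10) (nat_lit 12))
    (@En.i (nat_lit 4008) (nat_lit 1) (nat_lit 14))
    (@En.n l17 (nat_lit 684) (nat_lit 11) (nat_lit 2))
    (@En.n l6980 (nat_lit 2992) (nat_lit 13) (nat_lit 6))
    (@En.i (nat_lit 137) (nat_lit 1) (nat_lit 14))
    (@En.i (nat_lit 7921) (nat_lit 5) (nat_lit 8))
    (@En.n l50 (nat_lit 684) (nat_lit 15) (nat_lit 2))))
  (@Cl.mk (nat_lit 0x2000a000e00060002000d000c00060003000e00040002000d000a000e0003) (nat_lit 0x200b00010091a0) (nat_lit 16) Lb.e (@T16.mk En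
    (@En.n l7 (nat_lit 693) (nat_lit 4) (nat_lit 3))
    (@En.n l7833 (nat_lit 13464) (nat_lit 0) (nat_lit 14))
    (@En.n l5842 (nat_lit 351) (nat_lit 2) (nat_lit 10))
    (@En.n l828 (nat_lit 11915) (nat_lit 8) (nat_lit 13))
    (@En.n l11 (nat_lit 685) (nat_lit 4) (nat_lit 2))
    (@En.n l117 (nat_lit 688) (nat_lit 5) (nat_lit 4))
    (@En.n l10841 (nat_lit 683) (nat_lit 1) (nat_lit 14))
    (@En.n l936 (nat_lit 694) (nat_lit 7) (nat_lit 3))
    (@En.i (nat_lit 1890) (nat_lit 8) (nat_lit 6))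
    (@En.n l936 (nat_lit 973) (nat_lit 10) (nat_lit 12))
    (@En.n l3968 (nat_lit 4602) (nat_lit 11) (nat_lit 13))
    (@En.n l17 (nat_lit 685) (nat_lit 11) (nat_lit 2))
    (@En.n l10842 (nat_lit 2994) (nat_lit 13) (nat_lit 6))
    (@En.n l383 (nat_lit 140) (nat_lit 9) (nat_lit 14))
    (@En.n l1304 (nat_lit 7935) (nat_lit 2) (nat_lit 10))
    (@En.n l50 (nat_lit 685) (nat_lit 15) (nat_lit 2))))
  (@Cl.mk (nat_lit 0x20007000e00060002000e000d0002000d000300090003000d000a000e0003) (nat_lit 0x300a00207091b0) (nat_lit 16) Lb.e (@T16.mk En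
    (@En.n l7 (nat_lit 690) (nat_lit 7) (nat_lit 3))
    (@En.i (nat_lit 13441) (nat_lit 0) (nat_lit 14))
    (@En.i (nat_lit 376) (nat_lit 2) (nat_lit 10))
    (@En.i (nat_lit 6088) (nat_lit 11) (nat_lit 13))
    (@En.i (nat_lit 684) (nat_lit 4) (nat_lit 3))
    (@En.i (nat_lit 3385) (nat_lit 5) (nat_lit 9))
    (@En.n l117 (nat_lit 689) (nat_lit 6) (nat_lit 3))
    (@En.i (nat_lit 682) (nat_lit 0) (nat_lit 13))
    (@En.n l3 (nat_lit 686) (nat_lit 8) (nat_lit 2))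
    (@En.i (nat_lit 689) (nat_lit 10) (nat_lit 13))
    (@En.i (nat_lit 4009) (nat_lit 1) (nat_lit 14))
    (@En.n l17 (nat_lit 686) (nat_lit 11) (nat_lit 2))
    (@En.n l6980 (nat_lit 2993) (nat_lit 13) (nat_lit 6))
    (@En.i (nat_lit 152) (nat_lit 1) (nat_lit 14))
    (@En.i (nat_lit 4059) (nat_lit 5) (nat_lit 7))
    (@En.n l50 (nat_lit 686) (nat_lit 15) (nat_lit 2))))
  (@Cl.mk (nat_lit 0x2000d000800040003000d000d000b000300030008000e00050002000e000c) (nat_lit 0x1000892000500c0) (nat_lit 16) Lb.e (@T16.mk En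
    (@En.i (nat_lit 692) (nat_lit 14) (nat_lit 12))
    (@En.i (nat_lit 4005) (nat_lit 1) (nat_lit 14))
    (@En.n l17 (nat_lit 687) (nat_lit 2) (nat_lit 2))
    (@En.n l4172 (nat_lit 1219) (nat_lit 3) (nat_lit 5))
    (@En.i (nat_lit 138) (nat_lit 1) (nat_lit 14))
    (@En.i (nat_lit 7922) (nat_lit 5) (nat_lit 8))
    (@En.n l50 (nat_lit 1214) (nat_lit 13) (nat_lit 3))
    (@En.i (nat_lit 684) (nat_lit 0) (nat_lit 3))
    (@En.i (nat_lit 1118) (nat_lit 0) (nat_lit 11))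
    (@En.n l601 (nat_lit 684) (nat_lit 3) (nat_lit 13))
    (@En.n l287 (nat_lit 12807) (nat_lit 11) (nat_lit 13))
    (@En.n l11 (nat_lit 690) (nat_lit 11) (nat_lit 3))
    (@En.i (nat_lit 693) (nat_lit 9) (nat_lit 4))
    (@En.i (nat_lit 1208) (nat_lit 14) (nat_lit 8))
    (@En.i (nat_lit 447) (nat_lit 12) (nat_lit 13))
    (@En.n l3 (nat_lit 687) (nat_lit 15) (nat_lit 2))))
noncomputable def a43 : T16 Cl := @T16.mk Cl
  (@Cl.mk (nat_lit 0x20009000e00060002000c000c000c0007000400040004000d000a000e0003) (nat_lit 0x200a01000091b0) (nat_lit 16) Lb.e (@T16.mk En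
    (@En.n l7 (nat_lit 692) (nat_lit 4) (nat_lit 3))
    (@En.n l828 (nat_lit 13453) (nat_lit 0) (nat_lit 14))
    (@En.i (nat_lit 354) (nat_lit 2) (nat_lit 10))
    (@En.n l828 (nat_lit 12803) (nat_lit 8) (nat_lit 13))
    (@En.n l11 (nat_lit 2716) (nat_lit 12) (nat_lit 4))
    (@En.n l152 (nat_lit 684) (nat_lit 5) (nat_lit 4))
    (@En.n l936 (nat_lit 973) (nat_lit 6) (nat_lit 4))
    (@En.i (nat_lit 1207) (nat_lit 7) (nat_lit 7))
    (@En.n l619 (nat_lit 685) (nat_lit 9) (nat_lit 12))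
    (@En.n l1419 (nat_lit 2754) (nat_lit 4) (nat_lit 12))
    (@En.n l7973 (nat_lit 4604) (nat_lit 11) (nat_lit 12))
    (@En.n l17 (nat_lit 688) (nat_lit 11) (nat_lit 2))
    (@En.n l7974 (nat_lit 2759) (nat_lit 13) (nat_lit 6))
    (@En.i (nat_lit 141) (nat_lit 1) (nat_lit 14))
    (@En.i (nat_lit 6874) (nat_lit 2) (nat_lit 9))
    (@En.n l50 (nat_lit 688) (nat_lit 15) (nat_lit 2))))
  (@Cl.mk (nat_lit 0x20007000e00060002000d000d000c0003000300090004000d000a000e0003) (nat_lit 0x300b01007091b0) (nat_lit 16) Lb.e (@T16.mk En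
    (@En.n l7 (nat_lit 691) (nat_lit 4) (nat_lit 3))
    (@En.i (nat_lit 13440) (nat_lit 0) (nat_lit 14))
    (@En.i (nat_lit 377) (nat_lit 2) (nat_lit 10))
    (@En.i (nat_lit 6087) (nat_lit 8) (nat_lit 13))
    (@En.i (nat_lit 688) (nat_lit 4) (nat_lit 4))
    (@En.n l476 (nat_lit 2783) (nat_lit 5) (nat_lit 9))
    (@En.n l152 (nat_lit 686) (nat_lit 6) (nat_lit 3))
    (@En.i (nat_lit 2755) (nat_lit 7) (nat_lit 3))
    (@En.n l619 (nat_lit 684) (nat_lit 9) (nat_lit 12))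
    (@En.n l97 (nat_lit 2755) (nat_lit 10) (nat_lit 13))
    (@En.i (nat_lit 7276) (nat_lit 11) (nat_lit 13))
    (@En.n l17 (nat_lit 689) (nat_lit 11) (nat_lit 2))
    (@En.n l6980 (nat_lit 2758) (nat_lit 13) (nat_lit 6))
    (@En.i (nat_lit 161) (nat_lit 1) (nat_lit 14))
    (@En.i (nat_lit 4063) (nat_lit 2) (nat_lit 7))
    (@En.n l50 (nat_lit 689) (nat_lit 15) (nat_lit 2))))
  (@Cl.mk (nat_lit 0x2000d000300090003000d000d000b000300030007000e00050002000e000d) (nat_lit 0x20708a200050080) (nat_lit 16) Lb.e (@T16.mk En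
    (@En.i (nat_lit 691) (nat_lit 14) (nat_lit 13))
    (@En.i (nat_lit 4004) (nat_lit 1) (nat_lit 14))
    (@En.n l17 (nat_lit 690) (nat_lit 2) (nat_lit 2))
    (@En.n l4172 (nat_lit 1218) (nat_lit 3) (nat_lit 5))
    (@En.i (nat_lit 164) (nat_lit 1) (nat_lit 14))
    (@En.i (nat_lit 4058) (nat_lit 5) (nat_lit 7))
    (@En.n l50 (nat_lit 1215) (nat_lit 13) (nat_lit 3))
    (@En.i (nat_lit 686) (nat_lit 0) (nat_lit 3))
    (@En.i (nat_lit 1117) (nat_lit 0) (nat_lit 11))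
    (@En.n l601 (nat_lit 686) (nat_lit 3) (nat_lit 13))
    (@En.i (nat_lit 6090) (nat_lit 11) (nat_lit 13))
    (@En.i (nat_lit 687) (nat_lit 11) (nat_lit 3))
    (@En.i (nat_lit 3377) (nat_lit 0) (nat_lit 9))
    (@En.n l117 (nat_lit 691) (nat_lit 10) (nat_lit 3))
    (@En.i (nat_lit 452) (nat_lit 0) (nat_lit 13))
    (@En.n l3 (nat_lit 690) (nat_lit 15) (nat_lit 2))))
  (@Cl.mk (nat_lit 0x2000d000d000c0003000300090004000d000d000b000300030007000e0005) (nat_lit 0xb0100708a200050) (nat_lit 16) Lb.e (@T16.mk En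
    (@En.n l4172 (nat_lit 1152) (nat_lit 4) (nat_lit 5))
    (@En.i (nat_lit 135) (nat_lit 1) (nat_lit 14))
    (@En.i (nat_lit 4061) (nat_lit 2) (nat_lit 7))
    (@En.n l50 (nat_lit 1147) (nat_lit 13) (nat_lit 3))
    (@En.i (nat_lit 689) (nat_lit 0) (nat_lit 3))
    (@En.i (nat_lit 1116) (nat_lit 0) (nat_lit 11))
    (@En.n l601 (nat_lit 689) (nat_lit 3) (nat_lit 13))
    (@En.i (nat_lit 6091) (nat_lit 8) (nat_lit 13))
    (@En.i (nat_lit 692) (nat_lit 8) (nat_lit 4))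
    (@En.n l476 (nat_lit 2776) (nat_lit 10) (nat_lit 9))
    (@En.n l152 (nat_lit 690) (nat_lit 13) (nat_lit 3))
    (@En.i (nat_lit 1146) (nat_lit 0) (nat_lit 3))
    (@En.n l619 (nat_lit 687) (nat_lit 0) (nat_lit 12))
    (@En.n l97 (nat_lit 1146) (nat_lit 3) (nat_lit 13))
    (@En.i (nat_lit 7230) (nat_lit 10) (nat_lit 13))
    (@En.n l17 (nat_lit 691) (nat_lit 15) (nat_lit 2))))
  (@Cl.mk (nat_lit 0x2000c000c000c0007000400040004000d000d000b000300030009000e0005) (nat_lit 0xa0000008a200020) (nat_lit 16) Lb.e (@T16.mk En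
    (@En.n l4172 (nat_lit 2724) (nat_lit 5) (nat_lit 5))
    (@En.i (nat_lit 139) (nat_lit 1) (nat_lit 14))
    (@En.i (nat_lit 6876) (nat_lit 2) (nat_lit 9))
    (@En.n l50 (nat_lit 1156) (nat_lit 13) (nat_lit 3))
    (@En.i (nat_lit 688) (nat_lit 0) (nat_lit 3))
    (@En.i (nat_lit 1102) (nat_lit 0) (nat_lit 11))
    (@En.n l601 (nat_lit 688) (nat_lit 3) (nat_lit 13))
    (@En.n l532 (nat_lit 12804) (nat_lit 8) (nat_lit 13))
    (@En.n l11 (nat_lit 2714) (nat_lit 12) (nat_lit 4))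
    (@En.n l152 (nat_lit 687) (nat_lit 12) (nat_lit 4))
    (@En.n l936 (nat_lit 695) (nat_lit 10) (nat_lit 4))
    (@En.i (nat_lit 1205) (nat_lit 12) (nat_lit 7))
    (@En.n l619 (nat_lit 693) (nat_lit 13) (nat_lit 12))
    (@En.i (nat_lit 1154) (nat_lit 4) (nat_lit 12))
    (@En.i (nat_lit 4603) (nat_lit 10) (nat_lit 12))
    (@En.n l17 (nat_lit 692) (nat_lit 15) (nat_lit 2))))
  (@Cl.mk (nat_lit 0x2000d000c00060003000e00040002000d000d000b00030003000a000e0005) (nat_lit 0xba00c008a200010) (nat_lit 16) Lb.e (@T16.mk En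
    (@En.n l10842 (nat_lit 2997) (nat_lit 7) (nat_lit 5))
    (@En.n l1304 (nat_lit 18) (nat_lit 1) (nat_lit 14))
    (@En.n l1304 (nat_lit 7934) (nat_lit 2) (nat_lit 10))
    (@En.n l50 (nat_lit 965) (nat_lit 13) (nat_lit 3))
    (@En.i (nat_lit 685) (nat_lit 0) (nat_lit 3))
    (@En.i (nat_lit 1103) (nat_lit 0) (nat_lit 11))
    (@En.n l601 (nat_lit 685) (nat_lit 3) (nat_lit 13))
    (@En.n l614 (nat_lit 11912) (nat_lit 8) (nat_lit 13))
    (@En.n l11 (nat_lit 693) (nat_lit 8) (nat_lit 2))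
    (@En.n l117 (nat_lit 692) (nat_lit 9) (nat_lit 4))
    (@En.n l2691 (nat_lit 451) (nat_lit 1) (nat_lit 14))
    (@En.n l936 (nat_lit 962) (nat_lit 11) (nat_lit 3))
    (@En.i (nat_lit 1891) (nat_lit 3) (nat_lit 6))
    (@En.n l936 (nat_lit 695) (nat_lit 14) (nat_lit 12))
    (@En.n l2351 (nat_lit 3437) (nat_lit 6) (nat_lit 13))
    (@En.n l17 (nat_lit 693) (nat_lit 15) (nat_lit 2))))
  (@Cl.mk (nat_lit 0x2000b000e00060002000d0005000d0003000e00030002000d000a000e0003) (nat_lit 0x600a01030091a0) (nat_lit 16) Lb.e (@T16.mk En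
    (@En.n l7 (nat_lit 962) (nat_lit 4) (nat_lit 3))
    (@En.n l4361 (nat_lit 13065) (nat_lit 0) (nat_lit 14))
    (@En.n l2026 (nat_lit 349) (nat_lit 2) (nat_lit 10))
    (@En.n l7677 (nat_lit 11919) (nat_lit 8) (nat_lit 13))
    (@En.n l11 (nat_lit 694) (nat_lit 4) (nat_lit 2))
    (@En.n l117 (nat_lit 973) (nat_lit 5) (nat_lit 3))
    (@En.n l7678 (nat_lit 13603) (nat_lit 0) (nat_lit 14))
    (@En.n l2576 (nat_lit 685) (nat_lit 7) (nat_lit 3))
    (@En.i (nat_lit 686) (nat_lit 9) (nat_lit 13))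
    (@En.n l7679 (nat_lit 971) (nat_lit 14) (nat_lit 5))
    (@En.n l5559 (nat_lit 3438) (nat_lit 11) (nat_lit 13))
    (@En.n l17 (nat_lit 694) (nat_lit 11) (nat_lit 2))
    (@En.n l7680 (nat_lit 2995) (nat_lit 13) (nat_lit 6))
    (@En.n l998 (nat_lit 177) (nat_lit 4) (nat_lit 14))
    (@En.n l998 (nat_lit 3533) (nat_lit 2) (nat_lit 11))
    (@En.n l50 (nat_lit 694) (nat_lit 15) (nat_lit 2))))
  (@Cl.mk (nat_lit 0x2000c0005000d000d000400030003000d000d000b00030003000b000e0005) (nat_lit 0x90120008a200060) (nat_lit 16) Lb.e (@T16.mk En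
    (@En.n l8246 (nat_lit 2723) (nat_lit 6) (nat_lit 5))
    (@En.n l476 (nat_lit 172) (nat_lit 4) (nat_lit 14))
    (@En.n l2698 (nat_lit 3532) (nat_lit 2) (nat_lit 11))
    (@En.n l50 (nat_lit 963) (nat_lit 13) (nat_lit 3))
    (@En.i (nat_lit 973) (nat_lit 0) (nat_lit 3))
    (@En.i (nat_lit 1104) (nat_lit 0) (nat_lit 11))
    (@En.n l601 (nat_lit 973) (nat_lit 3) (nat_lit 13))
    (@En.i (nat_lit 11917) (nat_lit 8) (nat_lit 13))
    (@En.i (nat_lit 975) (nat_lit 13) (nat_lit 3))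
    (@En.n l152 (nat_lit 962) (nat_lit 9) (nat_lit 3))
    (@En.n l1992 (nat_lit 1154) (nat_lit 0) (nat_lit 4))
    (@En.n l619 (nat_lit 962) (nat_lit 12) (nat_lit 13))
    (@En.i (nat_lit 691) (nat_lit 13) (nat_lit 13))
    (@En.n l1769 (nat_lit 970) (nat_lit 14) (nat_lit 5))
    (@En.i (nat_lit 7379) (nat_lit 10) (nat_lit 12))
    (@En.n l17 (nat_lit 695) (nat_lit 15) (nat_lit 2))))
  (@Cl.mk (nat_lit 0x20006000a000e000d0002000900030006000a000e000a00020007000e0006) (nat_lit 0x50100007020030) (nat_lit 16) Lb.e (@T16.mk En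
    (@En.n l7045 (nat_lit 626) (nat_lit 5) (nat_lit 6))
    (@En.n l2373 (nat_lit 602) (nat_lit 7) (nat_lit 14))
    (@En.n l2378 (nat_lit 7504) (nat_lit 2) (nat_lit 7))
    (@En.n l725 (nat_lit 696) (nat_lit 3) (nat_lit 2))
    (@En.n l7046 (nat_lit 669) (nat_lit 4) (nat_lit 10))
    (@En.n l7047 (nat_lit 920) (nat_lit 6) (nat_lit 14))
    (@En.n l7048 (nat_lit 6068) (nat_lit 2) (nat_lit 10))
    (@En.i (nat_lit 13592) (nat_lit 12) (nat_lit 6))
    (@En.n l7049 (nat_lit 628) (nat_lit 8) (nat_lit 3))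
    (@En.n l2373 (nat_lit 1561) (nat_lit 0) (nat_lit 9))
    (@En.n l107 (nat_lit 696) (nat_lit 10) (nat_lit 2))
    (@En.n l3799 (nat_lit 628) (nat_lit 12) (nat_lit 13))
    (@En.n l7050 (nat_lit 4770) (nat_lit 13) (nat_lit 14))
    (@En.n l2376 (nat_lit 682) (nat_lit 2) (nat_lit 10))
    (@En.n l7051 (nat_lit 483) (nat_lit 3) (nat_lit 6))
    (@En.n l50 (nat_lit 696) (nat_lit 15) (nat_lit 2))))
  (@Cl.mk (nat_lit 0x20006000a000d0007000e000300020006000a000e000a00020009000e0006) (nat_lit 0x4b000007020030) (nat_lit 16) Lb.e (@T16.mk En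
    (@En.n l3549 (nat_lit 627) (nat_lit 7) (nat_lit 6))
    (@En.n l7119 (nat_lit 601) (nat_lit 9) (nat_lit 14))
    (@En.n l7120 (nat_lit 7453) (nat_lit 2) (nat_lit 9))
    (@En.n l11 (nat_lit 697) (nat_lit 3) (nat_lit 2))
    (@En.n l7121 (nat_lit 668) (nat_lit 4) (nat_lit 10))
    (@En.n l7122 (nat_lit 922) (nat_lit 13) (nat_lit 14))
    (@En.n l7123 (nat_lit 6065) (nat_lit 2) (nat_lit 10))
    (@En.n l1738 (nat_lit 628) (nat_lit 7) (nat_lit 6))
    (@En.n l18 (nat_lit 697) (nat_lit 8) (nat_lit 2))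
    (@En.i (nat_lit 628) (nat_lit 9) (nat_lit 3))
    (@En.n l7124 (nat_lit 13592) (nat_lit 0) (nat_lit 14))
    (@En.i (nat_lit 1703) (nat_lit 2) (nat_lit 7))
    (@En.n l253 (nat_lit 4773) (nat_lit 13) (nat_lit 13))
    (@En.n l2460 (nat_lit 683) (nat_lit 4) (nat_lit 10))
    (@En.i (nat_lit 471) (nat_lit 5) (nat_lit 6))
    (@En.n l2461 (nat_lit 697) (nat_lit 15) (nat_lit 2))))
  (@Cl.mk (nat_lit 0x20007000a000d000d0008000300030006000e00090002000d0008000e0003) (nat_lit 0x5000000c005040) (nat_lit 16) Lb.e (@T16.mk En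
    (@En.n l7350 (nat_lit 921) (nat_lit 11) (nat_lit 3))
    (@En.n l7351 (nat_lit 715) (nat_lit 0) (nat_lit 14))
    (@En.n l7352 (nat_lit 5764) (nat_lit 2) (nat_lit 8))
    (@En.n l2698 (nat_lit 646) (nat_lit 10) (nat_lit 13))
    (@En.n l827 (nat_lit 698) (nat_lit 4) (nat_lit 2))
    (@En.n l17 (nat_lit 703) (nat_lit 5) (nat_lit 9))
    (@En.n l7353 (nat_lit 5499) (nat_lit 7) (nat_lit 14))
    (@En.n l7354 (nat_lit 920) (nat_lit 7) (nat_lit 6))
    (@En.n l7355 (nat_lit 920) (nat_lit 8) (nat_lit 3))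
    (@En.n l7356 (nat_lit 922) (nat_lit 0) (nat_lit 3))
    (@En.n l7351 (nat_lit 5022) (nat_lit 11) (nat_lit 8))
    (@En.n l7357 (nat_lit 922) (nat_lit 3) (nat_lit 13))
    (@En.n l7358 (nat_lit 4802) (nat_lit 13) (nat_lit 13))
    (@En.n l7359 (nat_lit 13468) (nat_lit 8) (nat_lit 10))
    (@En.n l7360 (nat_lit 464) (nat_lit 4) (nat_lit 7))
    (@En.n l7 (nat_lit 698) (nat_lit 15) (nat_lit 2))))
  (@Cl.mk (nat_lit 0x2000600090009000d0008000e0003000200070007000a000d0008000e0003) (nat_lit 0xa0c000050000) (nat_lit 16) Lb.e (@T16.mk En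
    (@En.n l3596 (nat_lit 703) (nat_lit 8) (nat_lit 3))
    (@En.i (nat_lit 13415) (nat_lit 0) (nat_lit 14))
    (@En.n l5891 (nat_lit 4999) (nat_lit 2) (nat_lit 8))
    (@En.i (nat_lit 4798) (nat_lit 12) (nat_lit 13))
    (@En.n l13787 (nat_lit 922) (nat_lit 4) (nat_lit 10))
    (@En.n l10094 (nat_lit 922) (nat_lit 5) (nat_lit 7))
    (@En.n l13788 (nat_lit 478) (nat_lit 6) (nat_lit 7))
    (@En.n l50 (nat_lit 699) (nat_lit 7) (nat_lit 2))
    (@En.n l13004 (nat_lit 708) (nat_lit 8) (nat_lit 3))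
    (@En.n l11913 (nat_lit 713) (nat_lit 0) (nat_lit 14))
    (@En.n l13136 (nat_lit 5763) (nat_lit 2) (nat_lit 8))
    (@En.n l1353 (nat_lit 643) (nat_lit 12) (nat_lit 13))
    (@En.n l61 (nat_lit 711) (nat_lit 13) (nat_lit 9))
    (@En.n l5891 (nat_lit 5450) (nat_lit 5) (nat_lit 9))
    (@En.n l2037 (nat_lit 703) (nat_lit 6) (nat_lit 6))
    (@En.n l107 (nat_lit 699) (nat_lit 15) (nat_lit 2))))
  (@Cl.mk (nat_lit 0x200070007000a000e000d0002000a0003000600090009000d0006000e0003) (nat_lit 0x500000000a0c0) (nat_lit 16) Lb.e (@T16.mk En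
    (@En.i (nat_lit 709) (nat_lit 6) (nat_lit 3))
    (@En.n l5552 (nat_lit 714) (nat_lit 0) (nat_lit 14))
    (@En.i (nat_lit 5765) (nat_lit 2) (nat_lit 6))
    (@En.i (nat_lit 644) (nat_lit 10) (nat_lit 13))
    (@En.n l725 (nat_lit 710) (nat_lit 7) (nat_lit 9))
    (@En.n l781 (nat_lit 5448) (nat_lit 5) (nat_lit 9))
    (@En.n l617 (nat_lit 13415) (nat_lit 12) (nat_lit 6))
    (@En.n l3447 (nat_lit 703) (nat_lit 7) (nat_lit 3))
    (@En.i (nat_lit 4953) (nat_lit 0) (nat_lit 10))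
    (@En.n l107 (nat_lit 700) (nat_lit 9) (nat_lit 2))
    (@En.n l781 (nat_lit 703) (nat_lit 11) (nat_lit 13))
    (@En.n l10037 (nat_lit 4745) (nat_lit 12) (nat_lit 14))
    (@En.n l7047 (nat_lit 920) (nat_lit 13) (nat_lit 10))
    (@En.n l7233 (nat_lit 920) (nat_lit 14) (nat_lit 7))
    (@En.n l387 (nat_lit 479) (nat_lit 4) (nat_lit 7))
    (@En.n l50 (nat_lit 700) (nat_lit 15) (nat_lit 2))))
  (@Cl.mk (nat_lit 0x30003000600090009000d000d00080003000300070007000a000d000d0008) (nat_lit 0xa5200004005) (nat_lit 16) Lb.e (@T16.mk En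
    (@En.n l2698 (nat_lit 4913) (nat_lit 0) (nat_lit 8))
    (@En.n l13605 (nat_lit 708) (nat_lit 3) (nat_lit 13))
    (@En.n l11413 (nat_lit 4795) (nat_lit 5) (nat_lit 13))
    (@En.n l7350 (nat_lit 921) (nat_lit 8) (nat_lit 10))
    (@En.n l13606 (nat_lit 921) (nat_lit 9) (nat_lit 7))
    (@En.n l13563 (nat_lit 469) (nat_lit 5) (nat_lit 7))
    (@En.n l1839 (nat_lit 925) (nat_lit 13) (nat_lit 3))
    (@En.n l28 (nat_lit 703) (nat_lit 0) (nat_lit 3))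
    (@En.n l12340 (nat_lit 933) (nat_lit 0) (nat_lit 8))
    (@En.n l77 (nat_lit 703) (nat_lit 3) (nat_lit 13))
    (@En.n l2698 (nat_lit 645) (nat_lit 11) (nat_lit 13))
    (@En.n l217 (nat_lit 707) (nat_lit 7) (nat_lit 9))
    (@En.i (nat_lit 5447) (nat_lit 9) (nat_lit 9))
    (@En.n l13148 (nat_lit 709) (nat_lit 12) (nat_lit 6))
    (@En.n l13149 (nat_lit 709) (nat_lit 13) (nat_lit 3))
    (@En.n l13607 (nat_lit 708) (nat_lit 0) (nat_lit 3))))
  (@Cl.mk (nat_lit 0x2000a000d000d000a0003000300060009000d0006000e00030002000e0007) (nat_lit 0x7000000030c0020) (nat_lit 16) Lb.e (@T16.mk En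
    (@En.i (nat_lit 703) (nat_lit 14) (nat_lit 7))
    (@En.i (nat_lit 412) (nat_lit 1) (nat_lit 14))
    (@En.n l7 (nat_lit 702) (nat_lit 2) (nat_lit 2))
    (@En.i (nat_lit 707) (nat_lit 3) (nat_lit 3))
    (@En.i (nat_lit 712) (nat_lit 0) (nat_lit 14))
    (@En.i (nat_lit 5762) (nat_lit 5) (nat_lit 6))
    (@En.n l639 (nat_lit 593) (nat_lit 7) (nat_lit 13))
    (@En.i (nat_lit 4121) (nat_lit 4) (nat_lit 9))
    (@En.n l730 (nat_lit 710) (nat_lit 8) (nat_lit 6))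
    (@En.n l731 (nat_lit 710) (nat_lit 9) (nat_lit 3))
    (@En.n l1106 (nat_lit 711) (nat_lit 0) (nat_lit 3))
    (@En.n l619 (nat_lit 4955) (nat_lit 0) (nat_lit 10))
    (@En.n l637 (nat_lit 711) (nat_lit 3) (nat_lit 13))
    (@En.n l2009 (nat_lit 4796) (nat_lit 5) (nat_lit 13))
    (@En.n l1738 (nat_lit 703) (nat_lit 12) (nat_lit 10))
    (@En.n l18 (nat_lit 702) (nat_lit 15) (nat_lit 2))))
  (@Cl.mk (nat_lit 0x200070007000a000d000d000900030003000600090009000d0007000e0003) (nat_lit 0x6b100007140c0) (nat_lit 16) Lb.e (@T16.mk En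
    (@En.i (nat_lit 701) (nat_lit 7) (nat_lit 3))
    (@En.n l5592 (nat_lit 716) (nat_lit 0) (nat_lit 14))
    (@En.i (nat_lit 5371) (nat_lit 2) (nat_lit 7))
    (@En.n l2698 (nat_lit 642) (nat_lit 11) (nat_lit 13))
    (@En.n l217 (nat_lit 702) (nat_lit 7) (nat_lit 9))
    (@En.i (nat_lit 5443) (nat_lit 5) (nat_lit 9))
    (@En.n l13148 (nat_lit 700) (nat_lit 6) (nat_lit 6))
    (@En.n l13149 (nat_lit 700) (nat_lit 7) (nat_lit 3))
    (@En.n l1106 (nat_lit 699) (nat_lit 0) (nat_lit 3))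
    (@En.n l619 (nat_lit 4918) (nat_lit 10) (nat_lit 9))
    (@En.n l637 (nat_lit 699) (nat_lit 3) (nat_lit 13))
    (@En.n l2009 (nat_lit 4799) (nat_lit 12) (nat_lit 13))
    (@En.i (nat_lit 698) (nat_lit 13) (nat_lit 10))
    (@En.n l5 (nat_lit 698) (nat_lit 14) (nat_lit 7))
    (@En.n l4172 (nat_lit 477) (nat_lit 5) (nat_lit 7))
    (@En.n l7 (nat_lit 703) (nat_lit 15) (nat_lit 2))))
noncomputable def a44 : T16 Cl := @T16.mk Cl
  (@Cl.mk (nat_lit 0x200060009000d000d000800030003000e00070002000a000d0008000e0003) (nat_lit 0xa520010050500) (nat_lit 16) Lb.e (@T16.mk En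
    (@En.n l3596 (nat_lit 707) (nat_lit 10) (nat_lit 3))
    (@En.i (nat_lit 13412) (nat_lit 0) (nat_lit 14))
    (@En.n l5891 (nat_lit 4996) (nat_lit 2) (nat_lit 8))
    (@En.i (nat_lit 4791) (nat_lit 5) (nat_lit 13))
    (@En.n l9538 (nat_lit 708) (nat_lit 4) (nat_lit 10))
    (@En.n l17 (nat_lit 704) (nat_lit 5) (nat_lit 2))
    (@En.n l13004 (nat_lit 708) (nat_lit 6) (nat_lit 7))
    (@En.i (nat_lit 490) (nat_lit 1) (nat_lit 14))
    (@En.n l3642 (nat_lit 935) (nat_lit 8) (nat_lit 3))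
    (@En.n l7 (nat_lit 711) (nat_lit 9) (nat_lit 3))
    (@En.n l10295 (nat_lit 5751) (nat_lit 11) (nat_lit 8))
    (@En.n l644 (nat_lit 711) (nat_lit 12) (nat_lit 13))
    (@En.i (nat_lit 845) (nat_lit 13) (nat_lit 13))
    (@En.n l5891 (nat_lit 4119) (nat_lit 14) (nat_lit 9))
    (@En.n l2037 (nat_lit 707) (nat_lit 8) (nat_lit 6))
    (@En.n l107 (nat_lit 704) (nat_lit 15) (nat_lit 2))))
  (@Cl.mk (nat_lit 0x2000a000300060009000d000d000600030003000e00070002000a000e000d) (nat_lit 0x9a000100600) (nat_lit 16) Lb.e (@T16.mk En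
    (@En.n l1643 (nat_lit 707) (nat_lit 13) (nat_lit 13))
    (@En.n l619 (nat_lit 4748) (nat_lit 1) (nat_lit 14))
    (@En.i (nat_lit 709) (nat_lit 2) (nat_lit 10))
    (@En.n l17 (nat_lit 705) (nat_lit 3) (nat_lit 2))
    (@En.n l1353 (nat_lit 709) (nat_lit 4) (nat_lit 7))
    (@En.i (nat_lit 491) (nat_lit 1) (nat_lit 14))
    (@En.n l564 (nat_lit 934) (nat_lit 13) (nat_lit 3))
    (@En.n l7 (nat_lit 710) (nat_lit 3) (nat_lit 3))
    (@En.i (nat_lit 5755) (nat_lit 0) (nat_lit 6))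
    (@En.n l644 (nat_lit 710) (nat_lit 6) (nat_lit 13))
    (@En.i (nat_lit 846) (nat_lit 7) (nat_lit 13))
    (@En.n l1643 (nat_lit 3575) (nat_lit 12) (nat_lit 9))
    (@En.i (nat_lit 13412) (nat_lit 12) (nat_lit 6))
    (@En.n l615 (nat_lit 707) (nat_lit 9) (nat_lit 3))
    (@En.i (nat_lit 4920) (nat_lit 0) (nat_lit 10))
    (@En.n l107 (nat_lit 705) (nat_lit 15) (nat_lit 2))))
  (@Cl.mk (nat_lit 0x200080003000e00070002000a000d000d00080003000300060009000e000d) (nat_lit 0x40050000000a4) (nat_lit 16) Lb.e (@T16.mk En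
    (@En.n l77 (nat_lit 707) (nat_lit 6) (nat_lit 13))
    (@En.n l1832 (nat_lit 675) (nat_lit 7) (nat_lit 14))
    (@En.i (nat_lit 4117) (nat_lit 2) (nat_lit 9))
    (@En.n l1833 (nat_lit 934) (nat_lit 3) (nat_lit 6))
    (@En.n l1834 (nat_lit 934) (nat_lit 4) (nat_lit 3))
    (@En.n l1835 (nat_lit 935) (nat_lit 0) (nat_lit 3))
    (@En.n l1836 (nat_lit 4914) (nat_lit 6) (nat_lit 8))
    (@En.n l1837 (nat_lit 935) (nat_lit 3) (nat_lit 13))
    (@En.n l1832 (nat_lit 4790) (nat_lit 9) (nat_lit 13))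
    (@En.n l1838 (nat_lit 925) (nat_lit 10) (nat_lit 10))
    (@En.n l18 (nat_lit 706) (nat_lit 10) (nat_lit 2))
    (@En.n l1839 (nat_lit 925) (nat_lit 12) (nat_lit 7))
    (@En.n l1840 (nat_lit 628) (nat_lit 1) (nat_lit 14))
    (@En.n l142 (nat_lit 707) (nat_lit 2) (nat_lit 3))
    (@En.n l1841 (nat_lit 6028) (nat_lit 3) (nat_lit 8))
    (@En.n l7 (nat_lit 706) (nat_lit 15) (nat_lit 2))))
  (@Cl.mk (nat_lit 0x2000a000d000d00090003000300060009000d000d000700030003000e0007) (nat_lit 0x5b1000073400020) (nat_lit 16) Lb.e (@T16.mk En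
    (@En.i (nat_lit 701) (nat_lit 5) (nat_lit 7))
    (@En.i (nat_lit 486) (nat_lit 1) (nat_lit 14))
    (@En.i (nat_lit 706) (nat_lit 13) (nat_lit 3))
    (@En.n l28 (nat_lit 702) (nat_lit 3) (nat_lit 3))
    (@En.i (nat_lit 5753) (nat_lit 0) (nat_lit 7))
    (@En.n l77 (nat_lit 702) (nat_lit 6) (nat_lit 13))
    (@En.n l639 (nat_lit 841) (nat_lit 7) (nat_lit 13))
    (@En.i (nat_lit 4115) (nat_lit 9) (nat_lit 9))
    (@En.n l730 (nat_lit 705) (nat_lit 12) (nat_lit 6))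
    (@En.n l731 (nat_lit 705) (nat_lit 13) (nat_lit 3))
    (@En.n l1106 (nat_lit 704) (nat_lit 0) (nat_lit 3))
    (@En.n l639 (nat_lit 4915) (nat_lit 0) (nat_lit 9))
    (@En.n l637 (nat_lit 704) (nat_lit 3) (nat_lit 13))
    (@En.n l2009 (nat_lit 4792) (nat_lit 5) (nat_lit 13))
    (@En.n l1738 (nat_lit 701) (nat_lit 3) (nat_lit 10))
    (@En.n l18 (nat_lit 707) (nat_lit 15) (nat_lit 2))))
  (@Cl.mk (nat_lit 0x2000600090009000d000d00090003000300070007000a000d0007000e0003) (nat_lit 0x1ab000004b000) (nat_lit 16) Lb.e (@T16.mk En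
    (@En.n l5479 (nat_lit 701) (nat_lit 15) (nat_lit 3))
    (@En.n l13082 (nat_lit 13410) (nat_lit 0) (nat_lit 14))
    (@En.n l3506 (nat_lit 4997) (nat_lit 2) (nat_lit 7))
    (@En.n l1643 (nat_lit 4683) (nat_lit 5) (nat_lit 13))
    (@En.n l3 (nat_lit 927) (nat_lit 4) (nat_lit 10))
    (@En.n l527 (nat_lit 927) (nat_lit 5) (nat_lit 7))
    (@En.n l564 (nat_lit 471) (nat_lit 6) (nat_lit 7))
    (@En.n l7 (nat_lit 929) (nat_lit 7) (nat_lit 3))
    (@En.n l13083 (nat_lit 699) (nat_lit 8) (nat_lit 3))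
    (@En.i (nat_lit 5754) (nat_lit 10) (nat_lit 9))
    (@En.n l13084 (nat_lit 699) (nat_lit 11) (nat_lit 13))
    (@En.n l13085 (nat_lit 653) (nat_lit 12) (nat_lit 13))
    (@En.n l13086 (nat_lit 704) (nat_lit 13) (nat_lit 9))
    (@En.n l13087 (nat_lit 5444) (nat_lit 14) (nat_lit 9))
    (@En.n l13088 (nat_lit 701) (nat_lit 13) (nat_lit 6))
    (@En.n l17 (nat_lit 708) (nat_lit 15) (nat_lit 2))))
  (@Cl.mk (nat_lit 0x200090003000600090009000d000d00070003000300070007000a000e000d) (nat_lit 0x1ab00000501) (nat_lit 16) Lb.e (@T16.mk En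
    (@En.n l781 (nat_lit 701) (nat_lit 2) (nat_lit 13))
    (@En.n l10037 (nat_lit 4741) (nat_lit 1) (nat_lit 14))
    (@En.n l13056 (nat_lit 928) (nat_lit 2) (nat_lit 10))
    (@En.n l7234 (nat_lit 928) (nat_lit 3) (nat_lit 7))
    (@En.n l13057 (nat_lit 483) (nat_lit 4) (nat_lit 7))
    (@En.n l3643 (nat_lit 930) (nat_lit 5) (nat_lit 3))
    (@En.n l7 (nat_lit 700) (nat_lit 0) (nat_lit 3))
    (@En.n l1252 (nat_lit 5757) (nat_lit 0) (nat_lit 7))
    (@En.n l644 (nat_lit 700) (nat_lit 3) (nat_lit 13))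
    (@En.i (nat_lit 735) (nat_lit 10) (nat_lit 13))
    (@En.n l725 (nat_lit 705) (nat_lit 11) (nat_lit 9))
    (@En.n l781 (nat_lit 5445) (nat_lit 12) (nat_lit 9))
    (@En.n l617 (nat_lit 13410) (nat_lit 12) (nat_lit 6))
    (@En.n l3447 (nat_lit 701) (nat_lit 14) (nat_lit 3))
    (@En.n l5572 (nat_lit 4916) (nat_lit 0) (nat_lit 9))
    (@En.n l107 (nat_lit 709) (nat_lit 15) (nat_lit 2))))
  (@Cl.mk (nat_lit 0x2000a000e000d0002000b000300060009000d0005000e00030002000e0007) (nat_lit 0x6010000790c0010) (nat_lit 16) Lb.e (@T16.mk En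
    (@En.n l1353 (nat_lit 700) (nat_lit 14) (nat_lit 7))
    (@En.i (nat_lit 414) (nat_lit 1) (nat_lit 14))
    (@En.n l50 (nat_lit 710) (nat_lit 2) (nat_lit 2))
    (@En.i (nat_lit 705) (nat_lit 7) (nat_lit 3))
    (@En.i (nat_lit 717) (nat_lit 0) (nat_lit 14))
    (@En.i (nat_lit 5760) (nat_lit 5) (nat_lit 5))
    (@En.i (nat_lit 597) (nat_lit 7) (nat_lit 13))
    (@En.n l1643 (nat_lit 4123) (nat_lit 12) (nat_lit 9))
    (@En.i (nat_lit 13417) (nat_lit 12) (nat_lit 6))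
    (@En.n l615 (nat_lit 702) (nat_lit 9) (nat_lit 3))
    (@En.i (nat_lit 4954) (nat_lit 0) (nat_lit 11))
    (@En.n l107 (nat_lit 710) (nat_lit 11) (nat_lit 2))
    (@En.n l1643 (nat_lit 702) (nat_lit 13) (nat_lit 13))
    (@En.n l619 (nat_lit 4749) (nat_lit 1) (nat_lit 14))
    (@En.i (nat_lit 700) (nat_lit 12) (nat_lit 10))
    (@En.n l17 (nat_lit 710) (nat_lit 15) (nat_lit 2))))
  (@Cl.mk (nat_lit 0x200060009000d0007000e00030002000e00070002000a000d0009000e0003) (nat_lit 0x740c001006b000) (nat_lit 16) Lb.e (@T16.mk En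
    (@En.n l3596 (nat_lit 702) (nat_lit 10) (nat_lit 3))
    (@En.i (nat_lit 13417) (nat_lit 0) (nat_lit 14))
    (@En.n l5891 (nat_lit 4998) (nat_lit 2) (nat_lit 9))
    (@En.i (nat_lit 4797) (nat_lit 5) (nat_lit 13))
    (@En.n l617 (nat_lit 699) (nat_lit 4) (nat_lit 10))
    (@En.n l17 (nat_lit 711) (nat_lit 5) (nat_lit 2))
    (@En.i (nat_lit 699) (nat_lit 6) (nat_lit 7))
    (@En.i (nat_lit 415) (nat_lit 1) (nat_lit 14))
    (@En.n l50 (nat_lit 711) (nat_lit 8) (nat_lit 2))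
    (@En.i (nat_lit 704) (nat_lit 9) (nat_lit 3))
    (@En.n l2031 (nat_lit 718) (nat_lit 0) (nat_lit 14))
    (@En.i (nat_lit 5807) (nat_lit 12) (nat_lit 7))
    (@En.i (nat_lit 596) (nat_lit 13) (nat_lit 13))
    (@En.n l5891 (nat_lit 4120) (nat_lit 14) (nat_lit 9))
    (@En.n l2037 (nat_lit 702) (nat_lit 8) (nat_lit 6))
    (@En.n l107 (nat_lit 711) (nat_lit 15) (nat_lit 2))))
  (@Cl.mk (nat_lit 0x200020009000e00070002000a000d000d00070003000300060009000e000e) (nat_lit 0x30000000000ab) (nat_lit 16) Lb.e (@T16.mk En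
    (@En.n l134 (nat_lit 712) (nat_lit 1) (nat_lit 14))
    (@En.n l639 (nat_lit 450) (nat_lit 7) (nat_lit 14))
    (@En.i (nat_lit 13271) (nat_lit 2) (nat_lit 9))
    (@En.n l730 (nat_lit 717) (nat_lit 3) (nat_lit 6))
    (@En.n l731 (nat_lit 717) (nat_lit 4) (nat_lit 3))
    (@En.n l1865 (nat_lit 718) (nat_lit 5) (nat_lit 3))
    (@En.n l639 (nat_lit 723) (nat_lit 6) (nat_lit 7))
    (@En.n l1867 (nat_lit 718) (nat_lit 8) (nat_lit 13))
    (@En.n l2009 (nat_lit 13352) (nat_lit 9) (nat_lit 13))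
    (@En.n l5901 (nat_lit 716) (nat_lit 10) (nat_lit 10))
    (@En.n l18 (nat_lit 712) (nat_lit 10) (nat_lit 2))
    (@En.n l5592 (nat_lit 716) (nat_lit 12) (nat_lit 7))
    (@En.n l649 (nat_lit 257) (nat_lit 13) (nat_lit 14))
    (@En.i (nat_lit 6019) (nat_lit 2) (nat_lit 9))
    (@En.n l7 (nat_lit 712) (nat_lit 14) (nat_lit 2))
    (@En.n l28 (nat_lit 712) (nat_lit 15) (nat_lit 2))))
  (@Cl.mk (nat_lit 0x20002000b00070007000a000d0005000e00030002000600090009000e000e) (nat_lit 0xab) (nat_lit 16) Lb.e (@T16.mk En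
    (@En.n l97 (nat_lit 713) (nat_lit 1) (nat_lit 14))
    (@En.n l13626 (nat_lit 554) (nat_lit 12) (nat_lit 14))
    (@En.n l7 (nat_lit 718) (nat_lit 2) (nat_lit 9))
    (@En.n l3506 (nat_lit 13268) (nat_lit 3) (nat_lit 9))
    (@En.n l2003 (nat_lit 716) (nat_lit 4) (nat_lit 6))
    (@En.n l17 (nat_lit 713) (nat_lit 5) (nat_lit 2))
    (@En.n l798 (nat_lit 716) (nat_lit 6) (nat_lit 3))
    (@En.n l13627 (nat_lit 13816) (nat_lit 0) (nat_lit 14))
    (@En.n l5593 (nat_lit 721) (nat_lit 8) (nat_lit 5))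
    (@En.n l13626 (nat_lit 13152) (nat_lit 10) (nat_lit 13))
    (@En.n l13628 (nat_lit 719) (nat_lit 11) (nat_lit 10))
    (@En.n l13629 (nat_lit 719) (nat_lit 12) (nat_lit 7))
    (@En.n l13627 (nat_lit 13507) (nat_lit 13) (nat_lit 7))
    (@En.n l893 (nat_lit 5776) (nat_lit 8) (nat_lit 11))
    (@En.n l107 (nat_lit 713) (nat_lit 14) (nat_lit 2))
    (@En.n l3 (nat_lit 713) (nat_lit 15) (nat_lit 2))))
  (@Cl.mk (nat_lit 0x20002000900070007000a000e000d000200070003000600090009000e000e) (nat_lit 0xab) (nat_lit 16) Lb.e (@T16.mk En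
    (@En.n l5 (nat_lit 714) (nat_lit 1) (nat_lit 14))
    (@En.n l420 (nat_lit 553) (nat_lit 10) (nat_lit 14))
    (@En.n l2110 (nat_lit 717) (nat_lit 2) (nat_lit 9))
    (@En.n l4670 (nat_lit 12959) (nat_lit 3) (nat_lit 9))
    (@En.i (nat_lit 13816) (nat_lit 12) (nat_lit 6))
    (@En.n l1571 (nat_lit 716) (nat_lit 5) (nat_lit 3))
    (@En.i (nat_lit 12893) (nat_lit 6) (nat_lit 7))
    (@En.n l107 (nat_lit 714) (nat_lit 7) (nat_lit 2))
    (@En.n l4670 (nat_lit 716) (nat_lit 9) (nat_lit 13))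
    (@En.n l619 (nat_lit 13287) (nat_lit 10) (nat_lit 14))
    (@En.n l8 (nat_lit 720) (nat_lit 11) (nat_lit 10))
    (@En.n l77 (nat_lit 720) (nat_lit 12) (nat_lit 7))
    (@En.i (nat_lit 13505) (nat_lit 13) (nat_lit 7))
    (@En.n l7557 (nat_lit 5771) (nat_lit 5) (nat_lit 9))
    (@En.n l17 (nat_lit 714) (nat_lit 14) (nat_lit 2))
    (@En.n l18 (nat_lit 714) (nat_lit 15) (nat_lit 2))))
  (@Cl.mk (nat_lit 0x20002000b0007000a000d000d0005000300030006000e00090002000e000e) (nat_lit 0x7000000b0023) (nat_lit 16) Lb.e (@T16.mk En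
    (@En.n l5 (nat_lit 715) (nat_lit 1) (nat_lit 14))
    (@En.n l5425 (nat_lit 549) (nat_lit 1) (nat_lit 14))
    (@En.n l7 (nat_lit 715) (nat_lit 2) (nat_lit 2))
    (@En.n l1571 (nat_lit 716) (nat_lit 3) (nat_lit 9))
    (@En.n l407 (nat_lit 12949) (nat_lit 5) (nat_lit 14))
    (@En.n l159 (nat_lit 720) (nat_lit 5) (nat_lit 6))
    (@En.n l11 (nat_lit 720) (nat_lit 6) (nat_lit 3))
    (@En.n l5426 (nat_lit 719) (nat_lit 7) (nat_lit 3))
    (@En.i (nat_lit 12890) (nat_lit 8) (nat_lit 5))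
    (@En.n l5427 (nat_lit 719) (nat_lit 10) (nat_lit 13))
    (@En.n l5425 (nat_lit 13210) (nat_lit 11) (nat_lit 13))
    (@En.n l129 (nat_lit 14091) (nat_lit 12) (nat_lit 10))
    (@En.i (nat_lit 274) (nat_lit 13) (nat_lit 7))
    (@En.n l5428 (nat_lit 5772) (nat_lit 14) (nat_lit 11))
    (@En.n l17 (nat_lit 715) (nat_lit 14) (nat_lit 2))
    (@En.n l18 (nat_lit 715) (nat_lit 15) (nat_lit 2))))
  (@Cl.mk (nat_lit 0x20002000a00070007000a000d000d000600030003000600090009000e000e) (nat_lit 0x8b1000071ab) (nat_lit 16) Lb.e (@T16.mk En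
    (@En.n l601 (nat_lit 716) (nat_lit 1) (nat_lit 14))
    (@En.i (nat_lit 552) (nat_lit 1) (nat_lit 14))
    (@En.n l4780 (nat_lit 712) (nat_lit 2) (nat_lit 9))
    (@En.i (nat_lit 12956) (nat_lit 3) (nat_lit 9))
    (@En.n l4824 (nat_lit 714) (nat_lit 4) (nat_lit 6))
    (@En.n l12610 (nat_lit 714) (nat_lit 5) (nat_lit 3))
    (@En.n l618 (nat_lit 713) (nat_lit 6) (nat_lit 3))
    (@En.n l2138 (nat_lit 722) (nat_lit 7) (nat_lit 6))
    (@En.n l620 (nat_lit 713) (nat_lit 9) (nat_lit 13))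
    (@En.n l13622 (nat_lit 13154) (nat_lit 10) (nat_lit 13))
    (@En.n l4825 (nat_lit 715) (nat_lit 11) (nat_lit 10))
    (@En.n l13623 (nat_lit 715) (nat_lit 12) (nat_lit 7))
    (@En.i (nat_lit 13506) (nat_lit 13) (nat_lit 7))
    (@En.n l532 (nat_lit 5770) (nat_lit 14) (nat_lit 10))
    (@En.n l50 (nat_lit 716) (nat_lit 14) (nat_lit 2))
    (@En.n l7 (nat_lit 716) (nat_lit 15) (nat_lit 2))))
  (@Cl.mk (nat_lit 0x200020008000e00070002000a000e000d00020008000300060009000e000e) (nat_lit 0x40010100007ab) (nat_lit 16) Lb.e (@T16.mk En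
    (@En.n l601 (nat_lit 717) (nat_lit 1) (nat_lit 14))
    (@En.i (nat_lit 448) (nat_lit 11) (nat_lit 14))
    (@En.n l1643 (nat_lit 13273) (nat_lit 2) (nat_lit 9))
    (@En.i (nat_lit 13815) (nat_lit 3) (nat_lit 6))
    (@En.n l615 (nat_lit 712) (nat_lit 4) (nat_lit 3))
    (@En.i (nat_lit 12899) (nat_lit 5) (nat_lit 8))
    (@En.n l107 (nat_lit 717) (nat_lit 6) (nat_lit 2))
    (@En.n l1643 (nat_lit 712) (nat_lit 8) (nat_lit 13))
    (@En.n l619 (nat_lit 13289) (nat_lit 9) (nat_lit 14))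
    (@En.n l5552 (nat_lit 714) (nat_lit 10) (nat_lit 10))
    (@En.n l17 (nat_lit 717) (nat_lit 10) (nat_lit 2))
    (@En.n l5553 (nat_lit 714) (nat_lit 12) (nat_lit 7))
    (@En.n l5545 (nat_lit 255) (nat_lit 13) (nat_lit 14))
    (@En.i (nat_lit 6021) (nat_lit 6) (nat_lit 8))
    (@En.n l50 (nat_lit 717) (nat_lit 14) (nat_lit 2))
    (@En.n l7 (nat_lit 717) (nat_lit 15) (nat_lit 2))))
  (@Cl.mk (nat_lit 0x20002000a000e00070002000a000d0006000e0003000200060009000e000e) (nat_lit 0x4001b000007ab) (nat_lit 16) Lb.e (@T16.mk En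
    (@En.n l97 (nat_lit 718) (nat_lit 1) (nat_lit 14))
    (@En.n l1997 (nat_lit 449) (nat_lit 13) (nat_lit 14))
    (@En.i (nat_lit 13269) (nat_lit 2) (nat_lit 9))
    (@En.n l3337 (nat_lit 712) (nat_lit 3) (nat_lit 6))
    (@En.n l17 (nat_lit 718) (nat_lit 4) (nat_lit 2))
    (@En.n l2869 (nat_lit 712) (nat_lit 5) (nat_lit 3))
    (@En.n l1997 (nat_lit 13815) (nat_lit 7) (nat_lit 14))
    (@En.i (nat_lit 12876) (nat_lit 7) (nat_lit 6))
    (@En.n l1997 (nat_lit 13353) (nat_lit 9) (nat_lit 13))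
    (@En.i (nat_lit 713) (nat_lit 10) (nat_lit 10))
    (@En.n l28 (nat_lit 718) (nat_lit 10) (nat_lit 2))
    (@En.n l134 (nat_lit 713) (nat_lit 12) (nat_lit 7))
    (@En.i (nat_lit 256) (nat_lit 13) (nat_lit 14))
    (@En.n l2036 (nat_lit 6029) (nat_lit 9) (nat_lit 10))
    (@En.n l107 (nat_lit 718) (nat_lit 14) (nat_lit 2))
    (@En.n l3 (nat_lit 718) (nat_lit 15) (nat_lit 2))))
  (@Cl.mk (nat_lit 0x20002000c0007000a000d0004000e000300020006000e00090002000e000e) (nat_lit 0x8b00000c1023) (nat_lit 16) Lb.e (@T16.mk En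
    (@En.n l1482 (nat_lit 719) (nat_lit 1) (nat_lit 14))
    (@En.i (nat_lit 551) (nat_lit 1) (nat_lit 14))
    (@En.n l936 (nat_lit 719) (nat_lit 2) (nat_lit 2))
    (@En.n l5434 (nat_lit 713) (nat_lit 3) (nat_lit 9))
    (@En.n l5435 (nat_lit 12952) (nat_lit 5) (nat_lit 14))
    (@En.n l5436 (nat_lit 715) (nat_lit 5) (nat_lit 6))
    (@En.n l18 (nat_lit 719) (nat_lit 6) (nat_lit 2))
    (@En.n l5437 (nat_lit 715) (nat_lit 7) (nat_lit 3))
    (@En.n l1488 (nat_lit 13817) (nat_lit 0) (nat_lit 14))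
    (@En.n l2385 (nat_lit 12886) (nat_lit 9) (nat_lit 4))
    (@En.i (nat_lit 13209) (nat_lit 11) (nat_lit 13))
    (@En.n l5438 (nat_lit 14089) (nat_lit 12) (nat_lit 10))
    (@En.n l1488 (nat_lit 13508) (nat_lit 13) (nat_lit 7))
    (@En.n l1489 (nat_lit 5774) (nat_lit 7) (nat_lit 12))
    (@En.n l11 (nat_lit 719) (nat_lit 14) (nat_lit 2))
    (@En.n l1157 (nat_lit 719) (nat_lit 15) (nat_lit 2))))
noncomputable def a45 : T16 Cl := @T16.mk Cl
  (@Cl.mk (nat_lit 0x20002000a0007000a000e000d0002000600030006000e00090002000e000e) (nat_lit 0x8010000c1023) (nat_lit 16) Lb.e (@T16.mk En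
    (@En.n l5 (nat_lit 720) (nat_lit 1) (nat_lit 14))
    (@En.n l564 (nat_lit 550) (nat_lit 1) (nat_lit 14))
    (@En.n l7 (nat_lit 720) (nat_lit 2) (nat_lit 2))
    (@En.i (nat_lit 714) (nat_lit 3) (nat_lit 9))
    (@En.n l1504 (nat_lit 12948) (nat_lit 5) (nat_lit 14))
    (@En.i (nat_lit 13817) (nat_lit 12) (nat_lit 6))
    (@En.i (nat_lit 715) (nat_lit 6) (nat_lit 3))
    (@En.i (nat_lit 12891) (nat_lit 7) (nat_lit 6))
    (@En.n l107 (nat_lit 720) (nat_lit 8) (nat_lit 2))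
    (@En.n l180 (nat_lit 715) (nat_lit 10) (nat_lit 13))
    (@En.n l619 (nat_lit 13291) (nat_lit 11) (nat_lit 14))
    (@En.i (nat_lit 14090) (nat_lit 12) (nat_lit 10))
    (@En.i (nat_lit 275) (nat_lit 13) (nat_lit 7))
    (@En.n l1529 (nat_lit 5767) (nat_lit 4) (nat_lit 10))
    (@En.n l17 (nat_lit 720) (nat_lit 14) (nat_lit 2))
    (@En.n l18 (nat_lit 720) (nat_lit 15) (nat_lit 2))))
  (@Cl.mk (nat_lit 0x20002000b000a00080008000b0005000e00060002000500080008000e000e) (nat_lit 0x1500000000512) (nat_lit 16) Lb.e (@T16.mk En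
    (@En.n l97 (nat_lit 721) (nat_lit 1) (nat_lit 14))
    (@En.n l5416 (nat_lit 335) (nat_lit 12) (nat_lit 14))
    (@En.n l5417 (nat_lit 12876) (nat_lit 2) (nat_lit 8))
    (@En.n l5418 (nat_lit 12960) (nat_lit 3) (nat_lit 8))
    (@En.n l5419 (nat_lit 722) (nat_lit 4) (nat_lit 5))
    (@En.n l50 (nat_lit 721) (nat_lit 5) (nat_lit 2))
    (@En.n l1711 (nat_lit 12887) (nat_lit 6) (nat_lit 6))
    (@En.n l5420 (nat_lit 12879) (nat_lit 8) (nat_lit 14))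
    (@En.n l5421 (nat_lit 13552) (nat_lit 8) (nat_lit 5))
    (@En.i (nat_lit 12886) (nat_lit 10) (nat_lit 11))
    (@En.n l362 (nat_lit 12886) (nat_lit 11) (nat_lit 8))
    (@En.n l5422 (nat_lit 13849) (nat_lit 12) (nat_lit 8))
    (@En.n l5416 (nat_lit 716) (nat_lit 13) (nat_lit 10))
    (@En.n l5423 (nat_lit 1492) (nat_lit 8) (nat_lit 11))
    (@En.n l107 (nat_lit 721) (nat_lit 14) (nat_lit 2))
    (@En.n l3 (nat_lit 721) (nat_lit 15) (nat_lit 2))))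
  (@Cl.mk (nat_lit 0x20002000a000900080008000b000e000600020007000500080008000e000e) (nat_lit 0x10006000000c0) (nat_lit 16) Lb.e (@T16.mk En
    (@En.n l5 (nat_lit 722) (nat_lit 1) (nat_lit 14))
    (@En.n l420 (nat_lit 1054) (nat_lit 11) (nat_lit 14))
    (@En.n l2110 (nat_lit 723) (nat_lit 2) (nat_lit 8))
    (@En.n l4670 (nat_lit 12905) (nat_lit 3) (nat_lit 8))
    (@En.n l159 (nat_lit 12893) (nat_lit 4) (nat_lit 5))
    (@En.n l5191 (nat_lit 12894) (nat_lit 5) (nat_lit 7))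
    (@En.n l107 (nat_lit 722) (nat_lit 6) (nat_lit 2))
    (@En.n l1678 (nat_lit 12887) (nat_lit 7) (nat_lit 6))
    (@En.n l5192 (nat_lit 12995) (nat_lit 9) (nat_lit 14))
    (@En.n l8 (nat_lit 12890) (nat_lit 10) (nat_lit 11))
    (@En.n l77 (nat_lit 12890) (nat_lit 11) (nat_lit 8))
    (@En.n l4602 (nat_lit 13322) (nat_lit 12) (nat_lit 8))
    (@En.i (nat_lit 714) (nat_lit 13) (nat_lit 9))
    (@En.n l5193 (nat_lit 1482) (nat_lit 14) (nat_lit 10))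
    (@En.n l17 (nat_lit 722) (nat_lit 14) (nat_lit 2))
    (@En.n l18 (nat_lit 722) (nat_lit 15) (nat_lit 2))))
  (@Cl.mk (nat_lit 0x2000200090008000e00080002000b000e00070002000800050008000e000e) (nat_lit 0x14101900006c0) (nat_lit 16) Lb.e (@T16.mk En
    (@En.n l601 (nat_lit 723) (nat_lit 1) (nat_lit 14))
    (@En.i (nat_lit 1261) (nat_lit 12) (nat_lit 14))
    (@En.n l1643 (nat_lit 12790) (nat_lit 2) (nat_lit 8))
    (@En.n l159 (nat_lit 12899) (nat_lit 3) (nat_lit 5))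
    (@En.n l11 (nat_lit 12897) (nat_lit 4) (nat_lit 8))
    (@En.n l107 (nat_lit 723) (nat_lit 5) (nat_lit 2))
    (@En.i (nat_lit 12888) (nat_lit 6) (nat_lit 7))
    (@En.n l619 (nat_lit 12994) (nat_lit 8) (nat_lit 14))
    (@En.n l5552 (nat_lit 722) (nat_lit 9) (nat_lit 11))
    (@En.n l17 (nat_lit 723) (nat_lit 9) (nat_lit 2))
    (@En.n l5553 (nat_lit 722) (nat_lit 11) (nat_lit 8))
    (@En.n l5599 (nat_lit 13252) (nat_lit 12) (nat_lit 14))
    (@En.i (nat_lit 717) (nat_lit 13) (nat_lit 8))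
    (@En.n l1912 (nat_lit 1483) (nat_lit 14) (nat_lit 9))
    (@En.n l50 (nat_lit 723) (nat_lit 14) (nat_lit 2))
    (@En.n l7 (nat_lit 723) (nat_lit 15) (nat_lit 2))))
  (@Cl.mk (nat_lit 0x200060009000c0007000d000c0004000300070004000a000d0009000e0003) (nat_lit 0x203300006b000) (nat_lit 16) Lb.e (@T16.mk En
    (@En.n l7706 (nat_lit 648) (nat_lit 15) (nat_lit 3))
    (@En.i (nat_lit 13163) (nat_lit 0) (nat_lit 14))
    (@En.n l12743 (nat_lit 2466) (nat_lit 2) (nat_lit 9))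
    (@En.n l3348 (nat_lit 4367) (nat_lit 5) (nat_lit 13))
    (@En.n l3327 (nat_lit 727) (nat_lit 4) (nat_lit 10))
    (@En.n l3348 (nat_lit 738) (nat_lit 5) (nat_lit 4))
    (@En.n l612 (nat_lit 653) (nat_lit 6) (nat_lit 7))
    (@En.n l50 (nat_lit 643) (nat_lit 7) (nat_lit 3))
    (@En.n l5555 (nat_lit 824) (nat_lit 8) (nat_lit 4))
    (@En.n l5854 (nat_lit 651) (nat_lit 10) (nat_lit 12))
    (@En.n l3348 (nat_lit 556) (nat_lit 11) (nat_lit 13))
    (@En.n l810 (nat_lit 7605) (nat_lit 12) (nat_lit 7))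
    (@En.n l3327 (nat_lit 767) (nat_lit 6) (nat_lit 12))
    (@En.i (nat_lit 4065) (nat_lit 14) (nat_lit 9))
    (@En.n l4870 (nat_lit 648) (nat_lit 13) (nat_lit 6))
    (@En.n l107 (nat_lit 724) (nat_lit 15) (nat_lit 2))))
  (@Cl.mk (nat_lit 0x2000b000300060009000c0005000d000c0004000300070004000a000e000d) (nat_lit 0x20330000601) (nat_lit 16) Lb.e (@T16.mk En
    (@En.n l180 (nat_lit 648) (nat_lit 2) (nat_lit 13))
    (@En.n l619 (nat_lit 4399) (nat_lit 1) (nat_lit 14))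
    (@En.i (nat_lit 728) (nat_lit 2) (nat_lit 10))
    (@En.n l50 (nat_lit 739) (nat_lit 3) (nat_lit 4))
    (@En.n l612 (nat_lit 735) (nat_lit 4) (nat_lit 7))
    (@En.n l50 (nat_lit 644) (nat_lit 5) (nat_lit 3))
    (@En.i (nat_lit 825) (nat_lit 0) (nat_lit 4))
    (@En.n l217 (nat_lit 652) (nat_lit 8) (nat_lit 12))
    (@En.n l1722 (nat_lit 557) (nat_lit 9) (nat_lit 13))
    (@En.i (nat_lit 5466) (nat_lit 9) (nat_lit 5))
    (@En.n l617 (nat_lit 768) (nat_lit 6) (nat_lit 12))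
    (@En.n l781 (nat_lit 4059) (nat_lit 12) (nat_lit 9))
    (@En.i (nat_lit 13163) (nat_lit 12) (nat_lit 6))
    (@En.i (nat_lit 648) (nat_lit 14) (nat_lit 3))
    (@En.i (nat_lit 2576) (nat_lit 0) (nat_lit 11))
    (@En.n l107 (nat_lit 725) (nat_lit 15) (nat_lit 2))))
  (@Cl.mk (nat_lit 0x300030006000b0009000c0007000d0005000400030007000a000d000d0009) (nat_lit 0x100400005000) (nat_lit 16) Lb.e (@T16.mk En
    (@En.n l14207 (nat_lit 2509) (nat_lit 0) (nat_lit 9))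
    (@En.n l217 (nat_lit 727) (nat_lit 3) (nat_lit 13))
    (@En.i (nat_lit 4379) (nat_lit 5) (nat_lit 13))
    (@En.n l14208 (nat_lit 405) (nat_lit 8) (nat_lit 10))
    (@En.n l14209 (nat_lit 729) (nat_lit 4) (nat_lit 7))
    (@En.n l14210 (nat_lit 646) (nat_lit 5) (nat_lit 3))
    (@En.n l14211 (nat_lit 782) (nat_lit 0) (nat_lit 4))
    (@En.n l14207 (nat_lit 576) (nat_lit 7) (nat_lit 5))
    (@En.i (nat_lit 538) (nat_lit 9) (nat_lit 13))
    (@En.n l8367 (nat_lit 5463) (nat_lit 3) (nat_lit 7))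
    (@En.i (nat_lit 740) (nat_lit 6) (nat_lit 12))
    (@En.n l14212 (nat_lit 648) (nat_lit 12) (nat_lit 9))
    (@En.n l5389 (nat_lit 6111) (nat_lit 13) (nat_lit 11))
    (@En.n l14213 (nat_lit 728) (nat_lit 12) (nat_lit 6))
    (@En.n l14214 (nat_lit 728) (nat_lit 13) (nat_lit 3))
    (@En.n l50 (nat_lit 727) (nat_lit 0) (nat_lit 3))))
  (@Cl.mk (nat_lit 0x20006000b0009000c0008000d0005000400030007000a000d0008000e0003) (nat_lit 0x100400005b000) (nat_lit 16) Lb.e (@T16.mk En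
    (@En.i (nat_lit 726) (nat_lit 15) (nat_lit 3))
    (@En.n l4790 (nat_lit 13168) (nat_lit 0) (nat_lit 14))
    (@En.i (nat_lit 2467) (nat_lit 2) (nat_lit 8))
    (@En.i (nat_lit 4378) (nat_lit 5) (nat_lit 13))
    (@En.n l5839 (nat_lit 444) (nat_lit 4) (nat_lit 10))
    (@En.n l14209 (nat_lit 730) (nat_lit 5) (nat_lit 7))
    (@En.n l3072 (nat_lit 649) (nat_lit 6) (nat_lit 3))
    (@En.n l731 (nat_lit 788) (nat_lit 7) (nat_lit 4))
    (@En.n l15323 (nat_lit 574) (nat_lit 8) (nat_lit 5))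
    (@En.i (nat_lit 540) (nat_lit 10) (nat_lit 13))
    (@En.n l8367 (nat_lit 7607) (nat_lit 11) (nat_lit 8))
    (@En.i (nat_lit 750) (nat_lit 12) (nat_lit 12))
    (@En.n l7075 (nat_lit 724) (nat_lit 13) (nat_lit 9))
    (@En.n l639 (nat_lit 6110) (nat_lit 14) (nat_lit 11))
    (@En.n l1738 (nat_lit 726) (nat_lit 13) (nat_lit 6))
    (@En.n l18 (nat_lit 727) (nat_lit 15) (nat_lit 2))))
  (@Cl.mk (nat_lit 0x2000a00030006000b0009000c0006000d0005000400030007000a000e000d) (nat_lit 0x10040000501) (nat_lit 16) Lb.e (@T16.mk En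
    (@En.n l28283 (nat_lit 726) (nat_lit 2) (nat_lit 13))
    (@En.n l6937 (nat_lit 4381) (nat_lit 1) (nat_lit 14))
    (@En.n l5549 (nat_lit 445) (nat_lit 2) (nat_lit 10))
    (@En.n l612 (nat_lit 731) (nat_lit 3) (nat_lit 7))
    (@En.n l50 (nat_lit 650) (nat_lit 4) (nat_lit 3))
    (@En.n l5549 (nat_lit 787) (nat_lit 0) (nat_lit 4))
    (@En.i (nat_lit 573) (nat_lit 6) (nat_lit 5))
    (@En.n l3327 (nat_lit 541) (nat_lit 8) (nat_lit 13))
    (@En.n l4803 (nat_lit 5462) (nat_lit 8) (nat_lit 6))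
    (@En.n l3327 (nat_lit 751) (nat_lit 6) (nat_lit 12))
    (@En.n l17 (nat_lit 725) (nat_lit 11) (nat_lit 9))
    (@En.n l22612 (nat_lit 6198) (nat_lit 12) (nat_lit 11))
    (@En.i (nat_lit 13168) (nat_lit 12) (nat_lit 6))
    (@En.n l6937 (nat_lit 726) (nat_lit 14) (nat_lit 3))
    (@En.n l3327 (nat_lit 1758) (nat_lit 0) (nat_lit 10))
    (@En.n l107 (nat_lit 728) (nat_lit 15) (nat_lit 2))))
  (@Cl.mk (nat_lit 0x300030006000a0009000d000c00080003000600040007000a000d000d0008) (nat_lit 0x8141000005000) (nat_lit 16) Lb.e (@T16.mk En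
    (@En.n l17284 (nat_lit 1756) (nat_lit 0) (nat_lit 8))
    (@En.n l61 (nat_lit 730) (nat_lit 3) (nat_lit 13))
    (@En.n l1643 (nat_lit 4377) (nat_lit 5) (nat_lit 13))
    (@En.n l4415 (nat_lit 489) (nat_lit 8) (nat_lit 10))
    (@En.n l11235 (nat_lit 925) (nat_lit 11) (nat_lit 7))
    (@En.n l17285 (nat_lit 737) (nat_lit 5) (nat_lit 4))
    (@En.n l4019 (nat_lit 572) (nat_lit 12) (nat_lit 6))
    (@En.n l17286 (nat_lit 646) (nat_lit 7) (nat_lit 3))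
    (@En.i (nat_lit 5458) (nat_lit 0) (nat_lit 8))
    (@En.n l13824 (nat_lit 726) (nat_lit 10) (nat_lit 12))
    (@En.n l17287 (nat_lit 732) (nat_lit 11) (nat_lit 13))
    (@En.n l17288 (nat_lit 645) (nat_lit 12) (nat_lit 9))
    (@En.n l4758 (nat_lit 6109) (nat_lit 13) (nat_lit 10))
    (@En.n l17289 (nat_lit 731) (nat_lit 12) (nat_lit 6))
    (@En.n l17290 (nat_lit 731) (nat_lit 13) (nat_lit 3))
    (@En.n l18 (nat_lit 730) (nat_lit 0) (nat_lit 3))))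
  (@Cl.mk (nat_lit 0x20006000a0009000d000c00090003000600040007000a000d0007000e0003) (nat_lit 0x7141000005b000) (nat_lit 16) Lb.e (@T16.mk En
    (@En.i (nat_lit 729) (nat_lit 15) (nat_lit 3))
    (@En.n l22547 (nat_lit 13167) (nat_lit 0) (nat_lit 14))
    (@En.n l3506 (nat_lit 2473) (nat_lit 2) (nat_lit 7))
    (@En.n l1643 (nat_lit 2375) (nat_lit 5) (nat_lit 13))
    (@En.n l4415 (nat_lit 493) (nat_lit 4) (nat_lit 10))
    (@En.n l11235 (nat_lit 929) (nat_lit 5) (nat_lit 7))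
    (@En.n l3506 (nat_lit 783) (nat_lit 6) (nat_lit 4))
    (@En.i (nat_lit 579) (nat_lit 7) (nat_lit 6))
    (@En.n l12650 (nat_lit 649) (nat_lit 8) (nat_lit 3))
    (@En.i (nat_lit 8230) (nat_lit 0) (nat_lit 9))
    (@En.n l13824 (nat_lit 727) (nat_lit 11) (nat_lit 12))
    (@En.n l14023 (nat_lit 733) (nat_lit 12) (nat_lit 13))
    (@En.n l13085 (nat_lit 653) (nat_lit 13) (nat_lit 9))
    (@En.n l4758 (nat_lit 6107) (nat_lit 14) (nat_lit 10))
    (@En.n l617 (nat_lit 729) (nat_lit 13) (nat_lit 6))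
    (@En.n l17 (nat_lit 730) (nat_lit 15) (nat_lit 2))))
  (@Cl.mk (nat_lit 0x2000900030006000a0009000d000c00070003000600040007000a000e000d) (nat_lit 0x709100000501) (nat_lit 16) Lb.e (@T16.mk En
    (@En.n l27317 (nat_lit 729) (nat_lit 2) (nat_lit 13))
    (@En.n l26855 (nat_lit 4385) (nat_lit 1) (nat_lit 14))
    (@En.n l5549 (nat_lit 492) (nat_lit 2) (nat_lit 10))
    (@En.n l5414 (nat_lit 930) (nat_lit 3) (nat_lit 7))
    (@En.n l5549 (nat_lit 784) (nat_lit 4) (nat_lit 4))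
    (@En.n l22046 (nat_lit 578) (nat_lit 5) (nat_lit 6))
    (@En.n l7 (nat_lit 650) (nat_lit 6) (nat_lit 3))
    (@En.n l11834 (nat_lit 5457) (nat_lit 0) (nat_lit 7))
    (@En.n l644 (nat_lit 728) (nat_lit 9) (nat_lit 12))
    (@En.n l617 (nat_lit 734) (nat_lit 10) (nat_lit 13))
    (@En.n l17 (nat_lit 735) (nat_lit 11) (nat_lit 9))
    (@En.i (nat_lit 6112) (nat_lit 12) (nat_lit 10))
    (@En.i (nat_lit 13167) (nat_lit 12) (nat_lit 6))
    (@En.n l13682 (nat_lit 729) (nat_lit 14) (nat_lit 3))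
    (@En.n l13056 (nat_lit 1752) (nat_lit 0) (nat_lit 9))
    (@En.n l107 (nat_lit 731) (nat_lit 15) (nat_lit 2))))
  (@Cl.mk (nat_lit 0x300030006000a000d000b00070003000d000600050003000a000d000d0009) (nat_lit 0x7310050006000) (nat_lit 16) Lb.e (@T16.mk En
    (@En.i (nat_lit 1749) (nat_lit 0) (nat_lit 9))
    (@En.n l6938 (nat_lit 733) (nat_lit 3) (nat_lit 13))
    (@En.n l6939 (nat_lit 4376) (nat_lit 5) (nat_lit 13))
    (@En.n l6940 (nat_lit 413) (nat_lit 3) (nat_lit 10))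
    (@En.n l18 (nat_lit 645) (nat_lit 4) (nat_lit 3))
    (@En.n l6941 (nat_lit 786) (nat_lit 0) (nat_lit 5))
    (@En.n l6942 (nat_lit 729) (nat_lit 6) (nat_lit 6))
    (@En.n l6943 (nat_lit 726) (nat_lit 8) (nat_lit 13))
    (@En.n l7 (nat_lit 647) (nat_lit 8) (nat_lit 3))
    (@En.n l6944 (nat_lit 820) (nat_lit 0) (nat_lit 7))
    (@En.n l5637 (nat_lit 638) (nat_lit 11) (nat_lit 11))
    (@En.n l6136 (nat_lit 838) (nat_lit 5) (nat_lit 13))
    (@En.n l2202 (nat_lit 6108) (nat_lit 13) (nat_lit 10))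
    (@En.n l159 (nat_lit 734) (nat_lit 12) (nat_lit 6))
    (@En.n l11 (nat_lit 734) (nat_lit 13) (nat_lit 3))
    (@En.n l6945 (nat_lit 733) (nat_lit 0) (nat_lit 3))))
  (@Cl.mk (nat_lit 0x20006000a000d000b00080003000d000600050003000a000d0008000e0003) (nat_lit 0x7300050006b000) (nat_lit 16) Lb.e (@T16.mk En
    (@En.n l6051 (nat_lit 732) (nat_lit 15) (nat_lit 3))
    (@En.n l5995 (nat_lit 13166) (nat_lit 0) (nat_lit 14))
    (@En.i (nat_lit 2469) (nat_lit 2) (nat_lit 8))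
    (@En.i (nat_lit 4374) (nat_lit 5) (nat_lit 13))
    (@En.n l3455 (nat_lit 488) (nat_lit 4) (nat_lit 10))
    (@En.n l170 (nat_lit 653) (nat_lit 5) (nat_lit 3))
    (@En.n l3457 (nat_lit 789) (nat_lit 6) (nat_lit 5))
    (@En.n l6052 (nat_lit 730) (nat_lit 7) (nat_lit 6))
    (@En.n l3459 (nat_lit 727) (nat_lit 9) (nat_lit 13))
    (@En.n l6868 (nat_lit 651) (nat_lit 9) (nat_lit 3))
    (@En.i (nat_lit 8228) (nat_lit 11) (nat_lit 8))
    (@En.n l3462 (nat_lit 738) (nat_lit 12) (nat_lit 11))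
    (@En.n l619 (nat_lit 843) (nat_lit 5) (nat_lit 13))
    (@En.n l387 (nat_lit 6106) (nat_lit 14) (nat_lit 10))
    (@En.n l3465 (nat_lit 732) (nat_lit 13) (nat_lit 6))
    (@En.n l18 (nat_lit 733) (nat_lit 15) (nat_lit 2))))
  (@Cl.mk (nat_lit 0x2000a00030006000a000d000b00060003000d000600050003000a000e000d) (nat_lit 0x80005000601) (nat_lit 16) Lb.e (@T16.mk En
    (@En.n l180 (nat_lit 732) (nat_lit 2) (nat_lit 13))
    (@En.n l619 (nat_lit 4401) (nat_lit 1) (nat_lit 14))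
    (@En.n l7019 (nat_lit 487) (nat_lit 2) (nat_lit 10))
    (@En.n l18 (nat_lit 735) (nat_lit 3) (nat_lit 3))
    (@En.n l4356 (nat_lit 790) (nat_lit 4) (nat_lit 5))
    (@En.n l61 (nat_lit 731) (nat_lit 5) (nat_lit 6))
    (@En.n l564 (nat_lit 728) (nat_lit 7) (nat_lit 13))
    (@En.n l7 (nat_lit 652) (nat_lit 7) (nat_lit 3))
    (@En.i (nat_lit 5456) (nat_lit 8) (nat_lit 6))
    (@En.i (nat_lit 739) (nat_lit 10) (nat_lit 11))
    (@En.n l617 (nat_lit 844) (nat_lit 5) (nat_lit 13))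
    (@En.i (nat_lit 6156) (nat_lit 12) (nat_lit 10))
    (@En.i (nat_lit 13166) (nat_lit 12) (nat_lit 6))
    (@En.i (nat_lit 732) (nat_lit 14) (nat_lit 3))
    (@En.i (nat_lit 1750) (nat_lit 0) (nat_lit 10))
    (@En.n l107 (nat_lit 734) (nat_lit 15) (nat_lit 2))))
  (@Cl.mk (nat_lit 0x2000a000300060009000d000c00060003000d000400070003000a000e000d) (nat_lit 0x793005000601) (nat_lit 16) Lb.e (@T16.mk En
    (@En.n l180 (nat_lit 645) (nat_lit 2) (nat_lit 13))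
    (@En.n l619 (nat_lit 4398) (nat_lit 1) (nat_lit 14))
    (@En.i (nat_lit 731) (nat_lit 2) (nat_lit 10))
    (@En.i (nat_lit 734) (nat_lit 3) (nat_lit 3))
    (@En.i (nat_lit 934) (nat_lit 11) (nat_lit 7))
    (@En.n l7 (nat_lit 807) (nat_lit 5) (nat_lit 4))
    (@En.n l564 (nat_lit 650) (nat_lit 7) (nat_lit 13))
    (@En.n l7 (nat_lit 644) (nat_lit 7) (nat_lit 3))
    (@En.i (nat_lit 821) (nat_lit 8) (nat_lit 6))
    (@En.n l644 (nat_lit 725) (nat_lit 10) (nat_lit 12))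
    (@En.n l617 (nat_lit 840) (nat_lit 11) (nat_lit 13))
    (@En.n l781 (nat_lit 4060) (nat_lit 12) (nat_lit 9))
    (@En.i (nat_lit 13162) (nat_lit 12) (nat_lit 6))
    (@En.i (nat_lit 645) (nat_lit 14) (nat_lit 3))
    (@En.i (nat_lit 1753) (nat_lit 0) (nat_lit 10))
    (@En.n l107 (nat_lit 735) (nat_lit 15) (nat_lit 2))))
noncomputable def a46 : T16 Cl := @T16.mk Cl
  (@Cl.mk (nat_lit 0x3000300060009000c000c000b00080004000400070005000a000d000d0008) (nat_lit 0x1a2100005000) (nat_lit 16) Lb.e (@T16.mk En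
    (@En.n l13719 (nat_lit 1198) (nat_lit 0) (nat_lit 8))
    (@En.n l217 (nat_lit 822) (nat_lit 3) (nat_lit 13))
    (@En.i (nat_lit 827) (nat_lit 5) (nat_lit 13))
    (@En.n l13720 (nat_lit 737) (nat_lit 3) (nat_lit 10))
    (@En.n l28 (nat_lit 791) (nat_lit 4) (nat_lit 5))
    (@En.n l3 (nat_lit 806) (nat_lit 11) (nat_lit 7))
    (@En.n l527 (nat_lit 806) (nat_lit 12) (nat_lit 4))
    (@En.n l13719 (nat_lit 648) (nat_lit 7) (nat_lit 4))
    (@En.n l12796 (nat_lit 392) (nat_lit 0) (nat_lit 8))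
    (@En.n l13721 (nat_lit 732) (nat_lit 10) (nat_lit 11))
    (@En.n l13722 (nat_lit 823) (nat_lit 4) (nat_lit 12))
    (@En.n l13723 (nat_lit 432) (nat_lit 6) (nat_lit 12))
    (@En.n l13724 (nat_lit 813) (nat_lit 9) (nat_lit 9))
    (@En.n l13725 (nat_lit 807) (nat_lit 12) (nat_lit 6))
    (@En.n l13726 (nat_lit 807) (nat_lit 13) (nat_lit 3))
    (@En.n l50 (nat_lit 822) (nat_lit 0) (nat_lit 3))))
  (@Cl.mk (nat_lit 0x300030006000c0009000c000c00040009000400040007000a000d000d0007) (nat_lit 0xa192010004000) (nat_lit 16) Lb.e (@T16.mk En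
    (@En.n l639 (nat_lit 1440) (nat_lit 0) (nat_lit 7))
    (@En.n l14032 (nat_lit 783) (nat_lit 3) (nat_lit 13))
    (@En.n l5692 (nat_lit 2192) (nat_lit 5) (nat_lit 13))
    (@En.n l639 (nat_lit 446) (nat_lit 8) (nat_lit 10))
    (@En.n l14033 (nat_lit 785) (nat_lit 11) (nat_lit 7))
    (@En.n l14034 (nat_lit 785) (nat_lit 12) (nat_lit 4))
    (@En.n l14035 (nat_lit 726) (nat_lit 6) (nat_lit 4))
    (@En.i (nat_lit 385) (nat_lit 0) (nat_lit 9))
    (@En.n l14036 (nat_lit 577) (nat_lit 8) (nat_lit 4))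
    (@En.n l217 (nat_lit 782) (nat_lit 4) (nat_lit 12))
    (@En.n l226 (nat_lit 786) (nat_lit 6) (nat_lit 12))
    (@En.n l5505 (nat_lit 736) (nat_lit 12) (nat_lit 9))
    (@En.n l5640 (nat_lit 2300) (nat_lit 13) (nat_lit 12))
    (@En.n l730 (nat_lit 784) (nat_lit 12) (nat_lit 6))
    (@En.n l731 (nat_lit 784) (nat_lit 13) (nat_lit 3))
    (@En.n l14037 (nat_lit 783) (nat_lit 0) (nat_lit 3))))
  (@Cl.mk (nat_lit 0x20006000b000b0007000c000c0005000500040004000a000d0009000e0003) (nat_lit 0x9902200006b000) (nat_lit 16) Lb.e (@T16.mk En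
    (@En.i (nat_lit 638) (nat_lit 15) (nat_lit 3))
    (@En.n l5760 (nat_lit 13568) (nat_lit 0) (nat_lit 14))
    (@En.i (nat_lit 2461) (nat_lit 2) (nat_lit 9))
    (@En.i (nat_lit 3605) (nat_lit 5) (nat_lit 13))
    (@En.n l2312 (nat_lit 403) (nat_lit 4) (nat_lit 10))
    (@En.i (nat_lit 639) (nat_lit 12) (nat_lit 4))
    (@En.n l11 (nat_lit 651) (nat_lit 6) (nat_lit 4))
    (@En.n l152 (nat_lit 635) (nat_lit 7) (nat_lit 5))
    (@En.n l936 (nat_lit 727) (nat_lit 8) (nat_lit 5))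
    (@En.n l55 (nat_lit 750) (nat_lit 10) (nat_lit 12))
    (@En.i (nat_lit 544) (nat_lit 11) (nat_lit 12))
    (@En.i (nat_lit 7606) (nat_lit 12) (nat_lit 7))
    (@En.n l5579 (nat_lit 745) (nat_lit 5) (nat_lit 11))
    (@En.i (nat_lit 6162) (nat_lit 14) (nat_lit 11))
    (@En.n l1738 (nat_lit 638) (nat_lit 13) (nat_lit 6))
    (@En.n l18 (nat_lit 738) (nat_lit 15) (nat_lit 2))))
  (@Cl.mk (nat_lit 0x2000b00030006000b000b0005000c000c0005000500040004000a000e000d) (nat_lit 0x990220000601) (nat_lit 16) Lb.e (@T16.mk En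
    (@En.n l14119 (nat_lit 638) (nat_lit 2) (nat_lit 13))
    (@En.n l5637 (nat_lit 3562) (nat_lit 1) (nat_lit 14))
    (@En.n l7018 (nat_lit 402) (nat_lit 2) (nat_lit 10))
    (@En.n l2172 (nat_lit 752) (nat_lit 12) (nat_lit 4))
    (@En.i (nat_lit 652) (nat_lit 4) (nat_lit 4))
    (@En.n l2783 (nat_lit 636) (nat_lit 11) (nat_lit 5))
    (@En.n l742 (nat_lit 728) (nat_lit 6) (nat_lit 5))
    (@En.n l6840 (nat_lit 751) (nat_lit 4) (nat_lit 12))
    (@En.n l5911 (nat_lit 543) (nat_lit 9) (nat_lit 12))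
    (@En.n l3540 (nat_lit 7640) (nat_lit 9) (nat_lit 5))
    (@En.n l2176 (nat_lit 746) (nat_lit 5) (nat_lit 11))
    (@En.i (nat_lit 6158) (nat_lit 12) (nat_lit 11))
    (@En.i (nat_lit 13568) (nat_lit 12) (nat_lit 6))
    (@En.n l5637 (nat_lit 638) (nat_lit 14) (nat_lit 3))
    (@En.n l5911 (nat_lit 756) (nat_lit 0) (nat_lit 11))
    (@En.n l107 (nat_lit 739) (nat_lit 15) (nat_lit 2))))
  (@Cl.mk (nat_lit 0x2000a000d000d000a000300030006000c000c0006000c00040004000e0004) (nat_lit 0x6000000aa010060) (nat_lit 16) Lb.e (@T16.mk En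
    (@En.i (nat_lit 638) (nat_lit 5) (nat_lit 4))
    (@En.n l8367 (nat_lit 655) (nat_lit 1) (nat_lit 14))
    (@En.n l152 (nat_lit 637) (nat_lit 12) (nat_lit 4))
    (@En.n l5389 (nat_lit 575) (nat_lit 3) (nat_lit 4))
    (@En.i (nat_lit 509) (nat_lit 10) (nat_lit 12))
    (@En.i (nat_lit 900) (nat_lit 5) (nat_lit 6))
    (@En.n l5774 (nat_lit 744) (nat_lit 7) (nat_lit 12))
    (@En.n l5389 (nat_lit 6200) (nat_lit 8) (nat_lit 12))
    (@En.n l2114 (nat_lit 751) (nat_lit 8) (nat_lit 6))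
    (@En.n l1959 (nat_lit 751) (nat_lit 9) (nat_lit 3))
    (@En.n l50 (nat_lit 750) (nat_lit 0) (nat_lit 3))
    (@En.n l829 (nat_lit 2516) (nat_lit 0) (nat_lit 10))
    (@En.n l217 (nat_lit 750) (nat_lit 3) (nat_lit 13))
    (@En.i (nat_lit 2874) (nat_lit 5) (nat_lit 13))
    (@En.i (nat_lit 385) (nat_lit 3) (nat_lit 10))
    (@En.n l28 (nat_lit 740) (nat_lit 15) (nat_lit 2))))
  (@Cl.mk (nat_lit 0x200050005000a000d000d000b000300030006000b0005000b000b000e0005) (nat_lit 0x8000000901200) (nat_lit 16) Lb.e (@T16.mk En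
    (@En.n l2129 (nat_lit 638) (nat_lit 7) (nat_lit 5))
    (@En.n l18 (nat_lit 744) (nat_lit 4) (nat_lit 14))
    (@En.n l61 (nat_lit 744) (nat_lit 5) (nat_lit 11))
    (@En.n l2130 (nat_lit 546) (nat_lit 3) (nat_lit 11))
    (@En.n l2131 (nat_lit 2525) (nat_lit 4) (nat_lit 5))
    (@En.i (nat_lit 1060) (nat_lit 13) (nat_lit 11))
    (@En.n l2132 (nat_lit 746) (nat_lit 6) (nat_lit 6))
    (@En.n l2133 (nat_lit 746) (nat_lit 7) (nat_lit 3))
    (@En.n l2134 (nat_lit 745) (nat_lit 8) (nat_lit 3))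
    (@En.n l2135 (nat_lit 2479) (nat_lit 10) (nat_lit 11))
    (@En.n l2136 (nat_lit 745) (nat_lit 11) (nat_lit 13))
    (@En.n l2137 (nat_lit 3607) (nat_lit 12) (nat_lit 13))
    (@En.n l2138 (nat_lit 398) (nat_lit 13) (nat_lit 10))
    (@En.n l2139 (nat_lit 747) (nat_lit 14) (nat_lit 5))
    (@En.n l655 (nat_lit 878) (nat_lit 13) (nat_lit 5))
    (@En.n l7 (nat_lit 741) (nat_lit 15) (nat_lit 2))))
  (@Cl.mk (nat_lit 0x20006000c0006000b000e00040002000e00050002000a000d000a000e0003) (nat_lit 0x90100020080000) (nat_lit 16) Lb.e (@T16.mk En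
    (@En.n l5933 (nat_lit 744) (nat_lit 10) (nat_lit 3))
    (@En.i (nat_lit 13566) (nat_lit 0) (nat_lit 14))
    (@En.n l5577 (nat_lit 2530) (nat_lit 2) (nat_lit 10))
    (@En.i (nat_lit 3606) (nat_lit 5) (nat_lit 13))
    (@En.n l1643 (nat_lit 390) (nat_lit 4) (nat_lit 10))
    (@En.n l3 (nat_lit 742) (nat_lit 5) (nat_lit 2))
    (@En.n l476 (nat_lit 745) (nat_lit 14) (nat_lit 5))
    (@En.n l3337 (nat_lit 767) (nat_lit 1) (nat_lit 14))
    (@En.n l17 (nat_lit 742) (nat_lit 8) (nat_lit 2))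
    (@En.n l2869 (nat_lit 750) (nat_lit 9) (nat_lit 4))
    (@En.n l13500 (nat_lit 13081) (nat_lit 4) (nat_lit 14))
    (@En.n l2579 (nat_lit 511) (nat_lit 12) (nat_lit 11))
    (@En.i (nat_lit 2528) (nat_lit 13) (nat_lit 6))
    (@En.n l1997 (nat_lit 1061) (nat_lit 8) (nat_lit 12))
    (@En.n l893 (nat_lit 744) (nat_lit 8) (nat_lit 6))
    (@En.n l28 (nat_lit 742) (nat_lit 15) (nat_lit 2))))
  (@Cl.mk (nat_lit 0x2000a000e000d0002000c00030006000c0004000b000e00040002000e0005) (nat_lit 0x800000090100020) (nat_lit 16) Lb.e (@T16.mk En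
    (@En.n l2100 (nat_lit 746) (nat_lit 14) (nat_lit 5))
    (@En.n l1012 (nat_lit 768) (nat_lit 1) (nat_lit 14))
    (@En.n l7 (nat_lit 743) (nat_lit 2) (nat_lit 2))
    (@En.n l9025 (nat_lit 751) (nat_lit 3) (nat_lit 4))
    (@En.i (nat_lit 13170) (nat_lit 4) (nat_lit 14))
    (@En.n l2034 (nat_lit 512) (nat_lit 10) (nat_lit 11))
    (@En.i (nat_lit 2520) (nat_lit 6) (nat_lit 4))
    (@En.i (nat_lit 1064) (nat_lit 8) (nat_lit 12))
    (@En.n l2034 (nat_lit 13566) (nat_lit 12) (nat_lit 6))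
    (@En.n l117 (nat_lit 744) (nat_lit 9) (nat_lit 3))
    (@En.n l2034 (nat_lit 2518) (nat_lit 0) (nat_lit 12))
    (@En.n l3 (nat_lit 743) (nat_lit 11) (nat_lit 2))
    (@En.i (nat_lit 744) (nat_lit 13) (nat_lit 13))
    (@En.n l2041 (nat_lit 4031) (nat_lit 1) (nat_lit 14))
    (@En.n l2568 (nat_lit 397) (nat_lit 12) (nat_lit 10))
    (@En.n l17 (nat_lit 743) (nat_lit 15) (nat_lit 2))))
  (@Cl.mk (nat_lit 0x2000a000d000d000b000300030006000c0005000b000e00040002000e0005) (nat_lit 0x8b10000901c0020) (nat_lit 16) Lb.e (@T16.mk En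
    (@En.i (nat_lit 741) (nat_lit 14) (nat_lit 5))
    (@En.n l5355 (nat_lit 766) (nat_lit 1) (nat_lit 14))
    (@En.n l7 (nat_lit 744) (nat_lit 2) (nat_lit 2))
    (@En.n l2129 (nat_lit 740) (nat_lit 3) (nat_lit 4))
    (@En.i (nat_lit 13080) (nat_lit 4) (nat_lit 14))
    (@En.n l5935 (nat_lit 510) (nat_lit 2) (nat_lit 11))
    (@En.i (nat_lit 2522) (nat_lit 6) (nat_lit 5))
    (@En.i (nat_lit 1063) (nat_lit 8) (nat_lit 12))
    (@En.n l476 (nat_lit 743) (nat_lit 8) (nat_lit 6))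
    (@En.n l152 (nat_lit 743) (nat_lit 9) (nat_lit 3))
    (@En.n l5936 (nat_lit 742) (nat_lit 0) (nat_lit 3))
    (@En.n l619 (nat_lit 2519) (nat_lit 12) (nat_lit 11))
    (@En.n l886 (nat_lit 742) (nat_lit 3) (nat_lit 13))
    (@En.n l5373 (nat_lit 3637) (nat_lit 5) (nat_lit 13))
    (@En.i (nat_lit 389) (nat_lit 12) (nat_lit 10))
    (@En.n l17 (nat_lit 744) (nat_lit 15) (nat_lit 2))))
  (@Cl.mk (nat_lit 0x200050005000a000d000a000e000300020006000b0006000b000b000e0005) (nat_lit 0x8b00000802210) (nat_lit 16) Lb.e (@T16.mk En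
    (@En.n l2116 (nat_lit 738) (nat_lit 8) (nat_lit 5))
    (@En.i (nat_lit 742) (nat_lit 10) (nat_lit 14))
    (@En.n l624 (nat_lit 742) (nat_lit 11) (nat_lit 11))
    (@En.n l2117 (nat_lit 599) (nat_lit 3) (nat_lit 11))
    (@En.n l6149 (nat_lit 2529) (nat_lit 4) (nat_lit 6))
    (@En.n l6150 (nat_lit 1062) (nat_lit 14) (nat_lit 11))
    (@En.n l6151 (nat_lit 741) (nat_lit 6) (nat_lit 6))
    (@En.n l28 (nat_lit 745) (nat_lit 7) (nat_lit 2))
    (@En.n l6152 (nat_lit 741) (nat_lit 8) (nat_lit 3))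
    (@En.n l2544 (nat_lit 13567) (nat_lit 0) (nat_lit 14))
    (@En.n l6153 (nat_lit 2464) (nat_lit 11) (nat_lit 10))
    (@En.i (nat_lit 3603) (nat_lit 12) (nat_lit 13))
    (@En.n l781 (nat_lit 399) (nat_lit 13) (nat_lit 10))
    (@En.n l6154 (nat_lit 748) (nat_lit 14) (nat_lit 5))
    (@En.n l2125 (nat_lit 879) (nat_lit 13) (nat_lit 5))
    (@En.n l17 (nat_lit 745) (nat_lit 15) (nat_lit 2))))
  (@Cl.mk (nat_lit 0x200050005000a000e000d0002000c00030006000b0004000b000b000e0005) (nat_lit 0x8010000802210) (nat_lit 16) Lb.e (@T16.mk En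
    (@En.n l663 (nat_lit 739) (nat_lit 6) (nat_lit 5))
    (@En.n l6131 (nat_lit 743) (nat_lit 4) (nat_lit 14))
    (@En.n l1290 (nat_lit 743) (nat_lit 5) (nat_lit 11))
    (@En.n l666 (nat_lit 598) (nat_lit 3) (nat_lit 11))
    (@En.n l6132 (nat_lit 2523) (nat_lit 4) (nat_lit 4))
    (@En.n l2101 (nat_lit 1065) (nat_lit 12) (nat_lit 11))
    (@En.i (nat_lit 13567) (nat_lit 12) (nat_lit 6))
    (@En.n l669 (nat_lit 741) (nat_lit 7) (nat_lit 3))
    (@En.n l666 (nat_lit 2066) (nat_lit 9) (nat_lit 12))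
    (@En.n l107 (nat_lit 746) (nat_lit 9) (nat_lit 2))
    (@En.n l2101 (nat_lit 741) (nat_lit 11) (nat_lit 13))
    (@En.n l619 (nat_lit 4028) (nat_lit 12) (nat_lit 14))
    (@En.n l671 (nat_lit 400) (nat_lit 13) (nat_lit 10))
    (@En.n l2102 (nat_lit 749) (nat_lit 14) (nat_lit 5))
    (@En.n l2178 (nat_lit 880) (nat_lit 13) (nat_lit 5))
    (@En.n l403 (nat_lit 746) (nat_lit 15) (nat_lit 2))))
  (@Cl.mk (nat_lit 0x20005000a000d000d000b000300030006000a0005000e000b0002000e0006) (nat_lit 0x80000008012010) (nat_lit 16) Lb.e (@T16.mk En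
    (@En.n l815 (nat_lit 630) (nat_lit 14) (nat_lit 6))
    (@En.n l816 (nat_lit 741) (nat_lit 1) (nat_lit 14))
    (@En.n l7 (nat_lit 747) (nat_lit 2) (nat_lit 2))
    (@En.n l817 (nat_lit 741) (nat_lit 3) (nat_lit 11))
    (@En.n l818 (nat_lit 628) (nat_lit 5) (nat_lit 14))
    (@En.n l819 (nat_lit 3357) (nat_lit 5) (nat_lit 5))
    (@En.i (nat_lit 1066) (nat_lit 3) (nat_lit 10))
    (@En.n l820 (nat_lit 749) (nat_lit 7) (nat_lit 6))
    (@En.n l821 (nat_lit 749) (nat_lit 8) (nat_lit 3))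
    (@En.n l819 (nat_lit 748) (nat_lit 9) (nat_lit 3))
    (@En.n l822 (nat_lit 2477) (nat_lit 11) (nat_lit 11))
    (@En.n l823 (nat_lit 748) (nat_lit 12) (nat_lit 13))
    (@En.n l824 (nat_lit 3638) (nat_lit 13) (nat_lit 13))
    (@En.n l825 (nat_lit 670) (nat_lit 14) (nat_lit 10))
    (@En.n l826 (nat_lit 561) (nat_lit 13) (nat_lit 5))
    (@En.n l827 (nat_lit 747) (nat_lit 15) (nat_lit 2))))
  (@Cl.mk (nat_lit 0x20005000a000d000a000e000300020006000a0006000e000b0002000e0006) (nat_lit 0x7b000008013020) (nat_lit 16) Lb.e (@T16.mk En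
    (@En.n l2596 (nat_lit 639) (nat_lit 14) (nat_lit 6))
    (@En.n l2597 (nat_lit 745) (nat_lit 1) (nat_lit 14))
    (@En.n l18 (nat_lit 748) (nat_lit 2) (nat_lit 2))
    (@En.n l2598 (nat_lit 745) (nat_lit 3) (nat_lit 11))
    (@En.n l2599 (nat_lit 697) (nat_lit 5) (nat_lit 14))
    (@En.i (nat_lit 3356) (nat_lit 5) (nat_lit 6))
    (@En.n l296 (nat_lit 1084) (nat_lit 14) (nat_lit 10))
    (@En.n l2600 (nat_lit 747) (nat_lit 7) (nat_lit 6))
    (@En.n l28 (nat_lit 748) (nat_lit 8) (nat_lit 2))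
    (@En.n l2601 (nat_lit 747) (nat_lit 9) (nat_lit 3))
    (@En.n l1729 (nat_lit 13569) (nat_lit 0) (nat_lit 14))
    (@En.i (nat_lit 2478) (nat_lit 2) (nat_lit 10))
    (@En.n l2602 (nat_lit 3602) (nat_lit 13) (nat_lit 13))
    (@En.n l1729 (nat_lit 671) (nat_lit 4) (nat_lit 10))
    (@En.n l2603 (nat_lit 559) (nat_lit 5) (nat_lit 5))
    (@En.n l3 (nat_lit 748) (nat_lit 15) (nat_lit 2))))
  (@Cl.mk (nat_lit 0x20005000a000e000d0002000c00030006000a0004000e000b0002000e0006) (nat_lit 0x80100000013020) (nat_lit 16) Lb.e (@T16.mk En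
    (@En.n l211 (nat_lit 752) (nat_lit 14) (nat_lit 6))
    (@En.n l768 (nat_lit 746) (nat_lit 1) (nat_lit 14))
    (@En.n l50 (nat_lit 749) (nat_lit 2) (nat_lit 2))
    (@En.n l769 (nat_lit 746) (nat_lit 3) (nat_lit 11))
    (@En.n l767 (nat_lit 696) (nat_lit 5) (nat_lit 14))
    (@En.n l278 (nat_lit 3358) (nat_lit 5) (nat_lit 4))
    (@En.n l772 (nat_lit 1119) (nat_lit 12) (nat_lit 10))
    (@En.i (nat_lit 13569) (nat_lit 12) (nat_lit 6))
    (@En.n l2562 (nat_lit 747) (nat_lit 8) (nat_lit 3))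
    (@En.n l2563 (nat_lit 758) (nat_lit 0) (nat_lit 12))
    (@En.n l107 (nat_lit 749) (nat_lit 10) (nat_lit 2))
    (@En.n l772 (nat_lit 747) (nat_lit 12) (nat_lit 13))
    (@En.n l2564 (nat_lit 3619) (nat_lit 13) (nat_lit 14))
    (@En.i (nat_lit 672) (nat_lit 14) (nat_lit 10))
    (@En.n l1367 (nat_lit 560) (nat_lit 13) (nat_lit 5))
    (@En.n l17 (nat_lit 749) (nat_lit 15) (nat_lit 2))))
  (@Cl.mk (nat_lit 0x20006000c000c0007000c00040004000e00040002000a000d0009000e0003) (nat_lit 0xa01001006b000) (nat_lit 16) Lb.e (@T16.mk En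
    (@En.i (nat_lit 740) (nat_lit 10) (nat_lit 3))
    (@En.n l699 (nat_lit 13565) (nat_lit 0) (nat_lit 14))
    (@En.i (nat_lit 2463) (nat_lit 2) (nat_lit 9))
    (@En.i (nat_lit 2873) (nat_lit 5) (nat_lit 13))
    (@En.i (nat_lit 388) (nat_lit 4) (nat_lit 10))
    (@En.n l28 (nat_lit 750) (nat_lit 5) (nat_lit 2))
    (@En.i (nat_lit 738) (nat_lit 6) (nat_lit 4))
    (@En.n l8367 (nat_lit 657) (nat_lit 8) (nat_lit 14))
    (@En.n l152 (nat_lit 781) (nat_lit 8) (nat_lit 4))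
    (@En.i (nat_lit 893) (nat_lit 9) (nat_lit 4))
    (@En.i (nat_lit 513) (nat_lit 11) (nat_lit 12))
    (@En.i (nat_lit 901) (nat_lit 12) (nat_lit 7))
    (@En.n l1867 (nat_lit 742) (nat_lit 13) (nat_lit 12))
    (@En.i (nat_lit 6203) (nat_lit 8) (nat_lit 12))
    (@En.n l1738 (nat_lit 740) (nat_lit 8) (nat_lit 6))
    (@En.n l18 (nat_lit 750) (nat_lit 15) (nat_lit 2))))
  (@Cl.mk (nat_lit 0x2000a000e000d0002000b00030006000c000c0005000c00040004000e0004) (nat_lit 0x60100000a010010) (nat_lit 16) Lb.e (@T16.mk En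
    (@En.n l5760 (nat_lit 739) (nat_lit 4) (nat_lit 4))
    (@En.n l11727 (nat_lit 658) (nat_lit 1) (nat_lit 14))
    (@En.n l152 (nat_lit 780) (nat_lit 12) (nat_lit 4))
    (@En.n l3082 (nat_lit 892) (nat_lit 7) (nat_lit 4))
    (@En.i (nat_lit 514) (nat_lit 9) (nat_lit 12))
    (@En.n l1643 (nat_lit 902) (nat_lit 5) (nat_lit 5))
    (@En.n l6213 (nat_lit 743) (nat_lit 7) (nat_lit 12))
    (@En.n l5372 (nat_lit 6199) (nat_lit 8) (nat_lit 12))
    (@En.n l699 (nat_lit 13565) (nat_lit 12) (nat_lit 6))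
    (@En.n l1063 (nat_lit 740) (nat_lit 9) (nat_lit 3))
    (@En.i (nat_lit 2517) (nat_lit 0) (nat_lit 11))
    (@En.n l18 (nat_lit 751) (nat_lit 11) (nat_lit 2))
    (@En.n l1708 (nat_lit 740) (nat_lit 13) (nat_lit 13))
    (@En.n l1063 (nat_lit 4034) (nat_lit 1) (nat_lit 14))
    (@En.n l1998 (nat_lit 384) (nat_lit 2) (nat_lit 10))
    (@En.n l28 (nat_lit 751) (nat_lit 15) (nat_lit 2))))
noncomputable def a47 : T16 Cl := @T16.mk Cl
  (@Cl.mk (nat_lit 0x2000600060004000a000e000d0002000b00030006000a000a0005000e000c) (nat_lit 0x701000081023) (nat_lit 16) Lb.e (@T16.mk En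
    (@En.n l217 (nat_lit 739) (nat_lit 8) (nat_lit 12))
    (@En.n l2302 (nat_lit 626) (nat_lit 9) (nat_lit 14))
    (@En.n l3296 (nat_lit 7628) (nat_lit 2) (nat_lit 5))
    (@En.n l2570 (nat_lit 749) (nat_lit 6) (nat_lit 10))
    (@En.n l6838 (nat_lit 6160) (nat_lit 4) (nat_lit 10))
    (@En.i (nat_lit 13575) (nat_lit 12) (nat_lit 6))
    (@En.n l1966 (nat_lit 630) (nat_lit 6) (nat_lit 3))
    (@En.i (nat_lit 754) (nat_lit 0) (nat_lit 11))
    (@En.n l107 (nat_lit 752) (nat_lit 8) (nat_lit 2))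
    (@En.n l1982 (nat_lit 630) (nat_lit 10) (nat_lit 13))
    (@En.n l3296 (nat_lit 3558) (nat_lit 11) (nat_lit 14))
    (@En.n l3297 (nat_lit 669) (nat_lit 12) (nat_lit 10))
    (@En.i (nat_lit 725) (nat_lit 3) (nat_lit 4))
    (@En.n l764 (nat_lit 632) (nat_lit 14) (nat_lit 6))
    (@En.n l847 (nat_lit 734) (nat_lit 5) (nat_lit 6))
    (@En.n l50 (nat_lit 752) (nat_lit 15) (nat_lit 2))))
  (@Cl.mk (nat_lit 0x2000700070004000b000e000a0002000b00050009000900060005000e000c) (nat_lit 0x808000000005) (nat_lit 16) Lb.e (@T16.mk En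
    (@En.n l217 (nat_lit 760) (nat_lit 8) (nat_lit 12))
    (@En.n l3292 (nat_lit 5785) (nat_lit 9) (nat_lit 14))
    (@En.i (nat_lit 752) (nat_lit 2) (nat_lit 5))
    (@En.n l2096 (nat_lit 8125) (nat_lit 3) (nat_lit 6))
    (@En.n l3293 (nat_lit 2477) (nat_lit 7) (nat_lit 9))
    (@En.n l2096 (nat_lit 7919) (nat_lit 5) (nat_lit 9))
    (@En.n l159 (nat_lit 754) (nat_lit 14) (nat_lit 5))
    (@En.n l3294 (nat_lit 755) (nat_lit 8) (nat_lit 11))
    (@En.n l107 (nat_lit 753) (nat_lit 8) (nat_lit 2))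
    (@En.n l3295 (nat_lit 2474) (nat_lit 10) (nat_lit 10))
    (@En.n l3296 (nat_lit 4143) (nat_lit 11) (nat_lit 14))
    (@En.n l3297 (nat_lit 1563) (nat_lit 12) (nat_lit 11))
    (@En.i (nat_lit 2511) (nat_lit 3) (nat_lit 4))
    (@En.n l764 (nat_lit 764) (nat_lit 14) (nat_lit 7))
    (@En.n l847 (nat_lit 1749) (nat_lit 5) (nat_lit 7))
    (@En.n l50 (nat_lit 753) (nat_lit 15) (nat_lit 2))))
  (@Cl.mk (nat_lit 0x200050009000900050008000e000c0002000700070004000b0008000e000b) (nat_lit 0x2000500008019) (nat_lit 16) Lb.e (@T16.mk En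
    (@En.n l9503 (nat_lit 755) (nat_lit 9) (nat_lit 11))
    (@En.n l180 (nat_lit 753) (nat_lit 10) (nat_lit 14))
    (@En.n l9504 (nat_lit 3351) (nat_lit 11) (nat_lit 8))
    (@En.n l3297 (nat_lit 1554) (nat_lit 3) (nat_lit 11))
    (@En.i (nat_lit 2576) (nat_lit 4) (nat_lit 4))
    (@En.n l2307 (nat_lit 757) (nat_lit 5) (nat_lit 7))
    (@En.n l847 (nat_lit 1750) (nat_lit 6) (nat_lit 7))
    (@En.n l50 (nat_lit 754) (nat_lit 7) (nat_lit 2))
    (@En.n l2301 (nat_lit 756) (nat_lit 9) (nat_lit 12))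
    (@En.n l6120 (nat_lit 5784) (nat_lit 10) (nat_lit 14))
    (@En.n l3311 (nat_lit 13926) (nat_lit 10) (nat_lit 8))
    (@En.n l9505 (nat_lit 8123) (nat_lit 3) (nat_lit 5))
    (@En.n l9506 (nat_lit 758) (nat_lit 13) (nat_lit 9))
    (@En.n l6838 (nat_lit 7764) (nat_lit 5) (nat_lit 9))
    (@En.i (nat_lit 2165) (nat_lit 6) (nat_lit 5))
    (@En.n l11 (nat_lit 754) (nat_lit 15) (nat_lit 2))))
  (@Cl.mk (nat_lit 0x2000800080004000c0008000b000b000400080008000500050008000e000c) (nat_lit 0x908900200106) (nat_lit 16) Lb.e (@T16.mk En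
    (@En.n l7751 (nat_lit 759) (nat_lit 3) (nat_lit 12))
    (@En.n l7752 (nat_lit 12381) (nat_lit 1) (nat_lit 14))
    (@En.n l7753 (nat_lit 754) (nat_lit 10) (nat_lit 8))
    (@En.n l7754 (nat_lit 754) (nat_lit 11) (nat_lit 5))
    (@En.i (nat_lit 8124) (nat_lit 4) (nat_lit 5))
    (@En.n l3532 (nat_lit 2061) (nat_lit 8) (nat_lit 8))
    (@En.n l7755 (nat_lit 7763) (nat_lit 6) (nat_lit 8))
    (@En.n l7756 (nat_lit 2162) (nat_lit 7) (nat_lit 4))
    (@En.n l7757 (nat_lit 2056) (nat_lit 5) (nat_lit 11))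
    (@En.n l7758 (nat_lit 2545) (nat_lit 10) (nat_lit 11))
    (@En.i (nat_lit 3352) (nat_lit 11) (nat_lit 8))
    (@En.n l7759 (nat_lit 1559) (nat_lit 12) (nat_lit 12))
    (@En.n l7758 (nat_lit 2577) (nat_lit 13) (nat_lit 4))
    (@En.n l2717 (nat_lit 763) (nat_lit 8) (nat_lit 8))
    (@En.n l7760 (nat_lit 1751) (nat_lit 1) (nat_lit 8))
    (@En.n l7 (nat_lit 755) (nat_lit 15) (nat_lit 2))))
  (@Cl.mk (nat_lit 0x20005000a000a00050008000c000c0006000600040004000b0008000e000b) (nat_lit 0x2004500008009) (nat_lit 16) Lb.e (@T16.mk En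
    (@En.i (nat_lit 759) (nat_lit 11) (nat_lit 11))
    (@En.n l19970 (nat_lit 760) (nat_lit 1) (nat_lit 14))
    (@En.i (nat_lit 2526) (nat_lit 2) (nat_lit 8))
    (@En.n l227 (nat_lit 1403) (nat_lit 3) (nat_lit 11))
    (@En.n l5759 (nat_lit 754) (nat_lit 4) (nat_lit 4))
    (@En.n l5760 (nat_lit 2575) (nat_lit 5) (nat_lit 4))
    (@En.n l5761 (nat_lit 762) (nat_lit 6) (nat_lit 6))
    (@En.n l936 (nat_lit 1758) (nat_lit 7) (nat_lit 6))
    (@En.n l55 (nat_lit 2517) (nat_lit 9) (nat_lit 12))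
    (@En.i (nat_lit 12606) (nat_lit 10) (nat_lit 12))
    (@En.i (nat_lit 13918) (nat_lit 10) (nat_lit 8))
    (@En.n l615 (nat_lit 8118) (nat_lit 12) (nat_lit 5))
    (@En.n l1867 (nat_lit 2066) (nat_lit 6) (nat_lit 10))
    (@En.n l12394 (nat_lit 7894) (nat_lit 14) (nat_lit 10))
    (@En.i (nat_lit 2462) (nat_lit 13) (nat_lit 5))
    (@En.n l17 (nat_lit 756) (nat_lit 15) (nat_lit 2))))
  (@Cl.mk (nat_lit 0x20005000e0009000200060009000e000d000200070003000b0007000e000a) (nat_lit 0x91000060007048) (nat_lit 16) Lb.e (@T16.mk En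
    (@En.n l3027 (nat_lit 763) (nat_lit 4) (nat_lit 10))
    (@En.n l5814 (nat_lit 764) (nat_lit 11) (nat_lit 14))
    (@En.n l7029 (nat_lit 2937) (nat_lit 6) (nat_lit 7))
    (@En.n l287 (nat_lit 1561) (nat_lit 3) (nat_lit 11))
    (@En.n l11 (nat_lit 762) (nat_lit 4) (nat_lit 3))
    (@En.n l7030 (nat_lit 1747) (nat_lit 5) (nat_lit 7))
    (@En.n l207 (nat_lit 757) (nat_lit 6) (nat_lit 2))
    (@En.n l198 (nat_lit 762) (nat_lit 8) (nat_lit 13))
    (@En.i (nat_lit 5786) (nat_lit 9) (nat_lit 14))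
    (@En.n l766 (nat_lit 13921) (nat_lit 9) (nat_lit 9))
    (@En.n l7029 (nat_lit 7214) (nat_lit 3) (nat_lit 6))
    (@En.n l3 (nat_lit 757) (nat_lit 11) (nat_lit 2))
    (@En.n l709 (nat_lit 754) (nat_lit 13) (nat_lit 9))
    (@En.n l2360 (nat_lit 3216) (nat_lit 7) (nat_lit 14))
    (@En.i (nat_lit 1801) (nat_lit 2) (nat_lit 5))
    (@En.n l18 (nat_lit 757) (nat_lit 15) (nat_lit 2))))
  (@Cl.mk (nat_lit 0x20005000900040007000e000b0002000e000700020005000b0009000e000c) (nat_lit 0x1000000000940a) (nat_lit 16) Lb.e (@T16.mk En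
    (@En.n l55 (nat_lit 2061) (nat_lit 11) (nat_lit 12))
    (@En.n l8 (nat_lit 2477) (nat_lit 12) (nat_lit 14))
    (@En.i (nat_lit 3358) (nat_lit 13) (nat_lit 9))
    (@En.n l2728 (nat_lit 1929) (nat_lit 3) (nat_lit 11))
    (@En.n l3283 (nat_lit 2180) (nat_lit 4) (nat_lit 5))
    (@En.n l3 (nat_lit 758) (nat_lit 5) (nat_lit 2))
    (@En.n l3284 (nat_lit 754) (nat_lit 6) (nat_lit 7))
    (@En.n l1021 (nat_lit 2066) (nat_lit 1) (nat_lit 14))
    (@En.n l18 (nat_lit 758) (nat_lit 8) (nat_lit 2))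
    (@En.n l1022 (nat_lit 2066) (nat_lit 3) (nat_lit 11))
    (@En.n l420 (nat_lit 12376) (nat_lit 11) (nat_lit 14))
    (@En.n l3285 (nat_lit 13927) (nat_lit 11) (nat_lit 7))
    (@En.i (nat_lit 3365) (nat_lit 6) (nat_lit 4))
    (@En.n l3286 (nat_lit 407) (nat_lit 14) (nat_lit 9))
    (@En.n l3285 (nat_lit 2483) (nat_lit 8) (nat_lit 5))
    (@En.n l11 (nat_lit 758) (nat_lit 15) (nat_lit 2))))
  (@Cl.mk (nat_lit 0x40004000c0008000b000b000400090009000500050008000c000c00070007) (nat_lit 0x70800020015600) (nat_lit 16) Lb.e (@T16.mk En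
    (@En.n l15252 (nat_lit 761) (nat_lit 9) (nat_lit 7))
    (@En.n l936 (nat_lit 1759) (nat_lit 1) (nat_lit 7))
    (@En.n l55 (nat_lit 2053) (nat_lit 4) (nat_lit 12))
    (@En.n l15253 (nat_lit 12112) (nat_lit 7) (nat_lit 12))
    (@En.n l18 (nat_lit 756) (nat_lit 10) (nat_lit 8))
    (@En.n l61 (nat_lit 756) (nat_lit 11) (nat_lit 5))
    (@En.n l15254 (nat_lit 8117) (nat_lit 6) (nat_lit 5))
    (@En.n l1867 (nat_lit 2060) (nat_lit 7) (nat_lit 9))
    (@En.n l5373 (nat_lit 7893) (nat_lit 1) (nat_lit 9))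
    (@En.n l6042 (nat_lit 2437) (nat_lit 9) (nat_lit 4))
    (@En.n l15255 (nat_lit 2055) (nat_lit 5) (nat_lit 11))
    (@En.n l15256 (nat_lit 2438) (nat_lit 7) (nat_lit 11))
    (@En.n l14279 (nat_lit 2527) (nat_lit 13) (nat_lit 8))
    (@En.n l15257 (nat_lit 1409) (nat_lit 3) (nat_lit 12))
    (@En.n l15258 (nat_lit 755) (nat_lit 12) (nat_lit 4))
    (@En.n l15256 (nat_lit 2572) (nat_lit 0) (nat_lit 4))))
  (@Cl.mk (nat_lit 0x2000b0005000a000a00060005000c000c0006000600040004000b000e000a) (nat_lit 0x1002004500008c8) (nat_lit 16) Lb.e (@T16.mk En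
    (@En.n l5637 (nat_lit 2460) (nat_lit 12) (nat_lit 10))
    (@En.n l5637 (nat_lit 2032) (nat_lit 4) (nat_lit 14))
    (@En.n l7018 (nat_lit 1400) (nat_lit 2) (nat_lit 11))
    (@En.n l2172 (nat_lit 753) (nat_lit 12) (nat_lit 4))
    (@En.i (nat_lit 2513) (nat_lit 4) (nat_lit 4))
    (@En.n l8422 (nat_lit 765) (nat_lit 10) (nat_lit 6))
    (@En.n l742 (nat_lit 2509) (nat_lit 6) (nat_lit 6))
    (@En.n l6840 (nat_lit 2516) (nat_lit 8) (nat_lit 12))
    (@En.n l5911 (nat_lit 12607) (nat_lit 9) (nat_lit 12))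
    (@En.i (nat_lit 739) (nat_lit 9) (nat_lit 5))
    (@En.n l6966 (nat_lit 8120) (nat_lit 11) (nat_lit 6))
    (@En.n l2176 (nat_lit 2479) (nat_lit 6) (nat_lit 10))
    (@En.i (nat_lit 7917) (nat_lit 13) (nat_lit 10))
    (@En.n l4865 (nat_lit 756) (nat_lit 14) (nat_lit 5))
    (@En.n l8423 (nat_lit 759) (nat_lit 10) (nat_lit 11))
    (@En.n l107 (nat_lit 760) (nat_lit 15) (nat_lit 2))))
  (@Cl.mk (nat_lit 0x2000600060009000d000d000700030003000c0007000a000a0004000e0009) (nat_lit 0x670008070091) (nat_lit 16) Lb.e (@T16.mk En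
    (@En.n l12527 (nat_lit 759) (nat_lit 8) (nat_lit 9))
    (@En.n l18 (nat_lit 2007) (nat_lit 1) (nat_lit 14))
    (@En.n l664 (nat_lit 1797) (nat_lit 2) (nat_lit 4))
    (@En.n l61 (nat_lit 2047) (nat_lit 6) (nat_lit 10))
    (@En.n l7644 (nat_lit 1728) (nat_lit 4) (nat_lit 10))
    (@En.n l2768 (nat_lit 2928) (nat_lit 5) (nat_lit 7))
    (@En.n l8727 (nat_lit 1426) (nat_lit 7) (nat_lit 12))
    (@En.n l2959 (nat_lit 763) (nat_lit 7) (nat_lit 3))
    (@En.n l11 (nat_lit 2043) (nat_lit 8) (nat_lit 3))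
    (@En.n l14408 (nat_lit 1536) (nat_lit 0) (nat_lit 7))
    (@En.n l55 (nat_lit 2043) (nat_lit 11) (nat_lit 13))
    (@En.i (nat_lit 12397) (nat_lit 12) (nat_lit 13))
    (@En.n l796 (nat_lit 762) (nat_lit 9) (nat_lit 9))
    (@En.n l797 (nat_lit 762) (nat_lit 10) (nat_lit 6))
    (@En.n l1080 (nat_lit 4347) (nat_lit 5) (nat_lit 6))
    (@En.n l3 (nat_lit 761) (nat_lit 15) (nat_lit 2))))
  (@Cl.mk (nat_lit 0x20005000e000a000200060009000d000d000600030003000b0007000e000a) (nat_lit 0xa1007560007008) (nat_lit 16) Lb.e (@T16.mk En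
    (@En.n l622 (nat_lit 761) (nat_lit 4) (nat_lit 10))
    (@En.i (nat_lit 765) (nat_lit 6) (nat_lit 14))
    (@En.n l890 (nat_lit 2933) (nat_lit 6) (nat_lit 7))
    (@En.i (nat_lit 1425) (nat_lit 3) (nat_lit 11))
    (@En.i (nat_lit 757) (nat_lit 4) (nat_lit 3))
    (@En.n l1253 (nat_lit 2044) (nat_lit 5) (nat_lit 3))
    (@En.n l117 (nat_lit 1448) (nat_lit 6) (nat_lit 6))
    (@En.n l1722 (nat_lit 2044) (nat_lit 8) (nat_lit 13))
    (@En.i (nat_lit 12753) (nat_lit 9) (nat_lit 13))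
    (@En.n l766 (nat_lit 13920) (nat_lit 9) (nat_lit 9))
    (@En.n l253 (nat_lit 4345) (nat_lit 4) (nat_lit 6))
    (@En.n l3 (nat_lit 762) (nat_lit 11) (nat_lit 2))
    (@En.n l766 (nat_lit 756) (nat_lit 13) (nat_lit 10))
    (@En.n l992 (nat_lit 2010) (nat_lit 1) (nat_lit 14))
    (@En.i (nat_lit 1793) (nat_lit 2) (nat_lit 5))
    (@En.n l18 (nat_lit 762) (nat_lit 15) (nat_lit 2))))
  (@Cl.mk (nat_lit 0x2000600060009000e000d000200080003000c0007000a000a0004000e0008) (nat_lit 0x1070608070081) (nat_lit 16) Lb.e (@T16.mk En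
    (@En.n l2947 (nat_lit 755) (nat_lit 6) (nat_lit 8))
    (@En.n l3548 (nat_lit 2009) (nat_lit 1) (nat_lit 14))
    (@En.i (nat_lit 2153) (nat_lit 2) (nat_lit 4))
    (@En.n l7329 (nat_lit 2054) (nat_lit 10) (nat_lit 10))
    (@En.n l7330 (nat_lit 1841) (nat_lit 4) (nat_lit 10))
    (@En.i (nat_lit 2932) (nat_lit 5) (nat_lit 7))
    (@En.n l7331 (nat_lit 1560) (nat_lit 7) (nat_lit 12))
    (@En.n l7332 (nat_lit 761) (nat_lit 7) (nat_lit 3))
    (@En.n l7333 (nat_lit 1722) (nat_lit 0) (nat_lit 8))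
    (@En.n l7 (nat_lit 763) (nat_lit 9) (nat_lit 2))
    (@En.n l7334 (nat_lit 761) (nat_lit 11) (nat_lit 13))
    (@En.n l7335 (nat_lit 12393) (nat_lit 12) (nat_lit 14))
    (@En.n l7336 (nat_lit 757) (nat_lit 9) (nat_lit 9))
    (@En.n l7337 (nat_lit 757) (nat_lit 10) (nat_lit 6))
    (@En.n l2947 (nat_lit 7215) (nat_lit 4) (nat_lit 6))
    (@En.n l17 (nat_lit 763) (nat_lit 15) (nat_lit 2))))
  (@Cl.mk (nat_lit 0x200070003000b000e00090002000a0005000e0009000200070006000e000d) (nat_lit 0x737010a100006) (nat_lit 16) Lb.e (@T16.mk En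
    (@En.n l2444 (nat_lit 765) (nat_lit 12) (nat_lit 13))
    (@En.n l2445 (nat_lit 5787) (nat_lit 8) (nat_lit 14))
    (@En.i (nat_lit 632) (nat_lit 2) (nat_lit 6))
    (@En.n l2446 (nat_lit 7331) (nat_lit 3) (nat_lit 7))
    (@En.n l725 (nat_lit 764) (nat_lit 4) (nat_lit 2))
    (@En.n l2364 (nat_lit 753) (nat_lit 5) (nat_lit 9))
    (@En.n l2365 (nat_lit 3217) (nat_lit 7) (nat_lit 14))
    (@En.n l2447 (nat_lit 757) (nat_lit 14) (nat_lit 5))
    (@En.n l2448 (nat_lit 763) (nat_lit 3) (nat_lit 10))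
    (@En.n l107 (nat_lit 764) (nat_lit 9) (nat_lit 2))
    (@En.n l2449 (nat_lit 2152) (nat_lit 5) (nat_lit 9))
    (@En.n l2450 (nat_lit 2029) (nat_lit 12) (nat_lit 14))
    (@En.i (nat_lit 1900) (nat_lit 13) (nat_lit 11))
    (@En.n l2451 (nat_lit 765) (nat_lit 8) (nat_lit 3))
    (@En.n l2369 (nat_lit 1746) (nat_lit 4) (nat_lit 7))
    (@En.n l50 (nat_lit 764) (nat_lit 15) (nat_lit 2))))
  (@Cl.mk (nat_lit 0x200070006000d000d000600030003000b000e00090002000a0005000e000a) (nat_lit 0x560007c7010a1) (nat_lit 16) Lb.e (@T16.mk En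
    (@En.n l5810 (nat_lit 760) (nat_lit 12) (nat_lit 10))
    (@En.n l5811 (nat_lit 3218) (nat_lit 1) (nat_lit 14))
    (@En.n l7 (nat_lit 762) (nat_lit 14) (nat_lit 5))
    (@En.n l5812 (nat_lit 761) (nat_lit 3) (nat_lit 10))
    (@En.n l18 (nat_lit 765) (nat_lit 4) (nat_lit 2))
    (@En.n l5779 (nat_lit 2040) (nat_lit 5) (nat_lit 9))
    (@En.n l5779 (nat_lit 2028) (nat_lit 7) (nat_lit 14))
    (@En.n l5813 (nat_lit 1424) (nat_lit 8) (nat_lit 11))
    (@En.n l5814 (nat_lit 764) (nat_lit 13) (nat_lit 3))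
    (@En.n l5815 (nat_lit 2042) (nat_lit 9) (nat_lit 3))
    (@En.n l5813 (nat_lit 1451) (nat_lit 0) (nat_lit 6))
    (@En.n l5816 (nat_lit 2042) (nat_lit 12) (nat_lit 13))
    (@En.i (nat_lit 12752) (nat_lit 8) (nat_lit 13))
    (@En.n l396 (nat_lit 636) (nat_lit 14) (nat_lit 6))
    (@En.n l253 (nat_lit 4343) (nat_lit 4) (nat_lit 7))
    (@En.n l3 (nat_lit 765) (nat_lit 15) (nat_lit 2))))
  (@Cl.mk (nat_lit 0x20005000a000d000d000b000300030006000c0005000c000b0004000e0004) (nat_lit 0x70000001023010) (nat_lit 16) Lb.e (@T16.mk En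
    (@En.n l50 (nat_lit 586) (nat_lit 6) (nat_lit 4))
    (@En.n l615 (nat_lit 561) (nat_lit 1) (nat_lit 14))
    (@En.n l7921 (nat_lit 655) (nat_lit 2) (nat_lit 4))
    (@En.n l882 (nat_lit 847) (nat_lit 3) (nat_lit 11))
    (@En.n l2940 (nat_lit 470) (nat_lit 11) (nat_lit 12))
    (@En.n l5732 (nat_lit 776) (nat_lit 5) (nat_lit 5))
    (@En.n l882 (nat_lit 308) (nat_lit 7) (nat_lit 12))
    (@En.n l159 (nat_lit 768) (nat_lit 7) (nat_lit 6))
    (@En.n l11 (nat_lit 768) (nat_lit 8) (nat_lit 3))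
    (@En.n l3444 (nat_lit 767) (nat_lit 9) (nat_lit 3))
    (@En.i (nat_lit 769) (nat_lit 11) (nat_lit 11))
    (@En.n l7922 (nat_lit 767) (nat_lit 12) (nat_lit 13))
    (@En.n l6291 (nat_lit 3641) (nat_lit 13) (nat_lit 13))
    (@En.n l2940 (nat_lit 740) (nat_lit 14) (nat_lit 10))
    (@En.n l669 (nat_lit 741) (nat_lit 13) (nat_lit 5))
    (@En.n l18 (nat_lit 766) (nat_lit 15) (nat_lit 2))))
  (@Cl.mk (nat_lit 0x20005000a000d000a000e000300020006000c0006000c000b0004000e0004) (nat_lit 0x7b000001023010) (nat_lit 16) Lb.e (@T16.mk En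
    (@En.n l5760 (nat_lit 587) (nat_lit 7) (nat_lit 4))
    (@En.n l18654 (nat_lit 559) (nat_lit 9) (nat_lit 14))
    (@En.n l3435 (nat_lit 657) (nat_lit 9) (nat_lit 4))
    (@En.n l18655 (nat_lit 848) (nat_lit 3) (nat_lit 11))
    (@En.i (nat_lit 472) (nat_lit 12) (nat_lit 12))
    (@En.i (nat_lit 2656) (nat_lit 5) (nat_lit 6))
    (@En.n l7386 (nat_lit 314) (nat_lit 7) (nat_lit 12))
    (@En.n l3440 (nat_lit 766) (nat_lit 7) (nat_lit 6))
    (@En.n l18 (nat_lit 767) (nat_lit 8) (nat_lit 2))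
    (@En.n l3429 (nat_lit 766) (nat_lit 9) (nat_lit 3))
    (@En.n l3082 (nat_lit 13564) (nat_lit 0) (nat_lit 14))
    (@En.i (nat_lit 770) (nat_lit 2) (nat_lit 10))
    (@En.n l1897 (nat_lit 3791) (nat_lit 13) (nat_lit 13))
    (@En.i (nat_lit 750) (nat_lit 4) (nat_lit 10))
    (@En.n l1897 (nat_lit 745) (nat_lit 13) (nat_lit 5))
    (@En.n l28 (nat_lit 767) (nat_lit 15) (nat_lit 2))))
noncomputable def a48 : T16 Cl := @T16.mk Cl
  (@Cl.mk (nat_lit 0x20005000a000e000d0002000c00030006000c0004000c000b0004000e0004) (nat_lit 0x70100001023010) (nat_lit 16) Lb.e (@T16.mk En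
    (@En.n l50 (nat_lit 588) (nat_lit 5) (nat_lit 4))
    (@En.i (nat_lit 560) (nat_lit 1) (nat_lit 14))
    (@En.i (nat_lit 658) (nat_lit 2) (nat_lit 4))
    (@En.n l2863 (nat_lit 849) (nat_lit 3) (nat_lit 11))
    (@En.n l3348 (nat_lit 473) (nat_lit 10) (nat_lit 12))
    (@En.i (nat_lit 777) (nat_lit 5) (nat_lit 4))
    (@En.n l1290 (nat_lit 307) (nat_lit 7) (nat_lit 12))
    (@En.i (nat_lit 13564) (nat_lit 12) (nat_lit 6))
    (@En.i (nat_lit 766) (nat_lit 8) (nat_lit 3))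
    (@En.n l947 (nat_lit 771) (nat_lit 0) (nat_lit 12))
    (@En.n l107 (nat_lit 768) (nat_lit 10) (nat_lit 2))
    (@En.n l180 (nat_lit 766) (nat_lit 12) (nat_lit 13))
    (@En.n l619 (nat_lit 3856) (nat_lit 13) (nat_lit 14))
    (@En.n l3348 (nat_lit 751) (nat_lit 14) (nat_lit 10))
    (@En.i (nat_lit 746) (nat_lit 13) (nat_lit 5))
    (@En.n l18 (nat_lit 768) (nat_lit 15) (nat_lit 2))))
  (@Cl.mk (nat_lit 0x20005000b000e000b0002000c0005000b00050004000c000b0005000e0004) (nat_lit 0x70900010004000) (nat_lit 16) Lb.e (@T16.mk En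
    (@En.n l50 (nat_lit 2190) (nat_lit 5) (nat_lit 4))
    (@En.i (nat_lit 2141) (nat_lit 1) (nat_lit 14))
    (@En.n l9533 (nat_lit 2139) (nat_lit 2) (nat_lit 5))
    (@En.n l2863 (nat_lit 2264) (nat_lit 3) (nat_lit 11))
    (@En.n l9534 (nat_lit 12698) (nat_lit 10) (nat_lit 12))
    (@En.i (nat_lit 768) (nat_lit 5) (nat_lit 4))
    (@En.i (nat_lit 779) (nat_lit 6) (nat_lit 5))
    (@En.n l2885 (nat_lit 296) (nat_lit 8) (nat_lit 11))
    (@En.n l3304 (nat_lit 771) (nat_lit 14) (nat_lit 5))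
    (@En.n l3972 (nat_lit 774) (nat_lit 10) (nat_lit 12))
    (@En.n l107 (nat_lit 769) (nat_lit 10) (nat_lit 2))
    (@En.i (nat_lit 773) (nat_lit 12) (nat_lit 11))
    (@En.n l619 (nat_lit 3703) (nat_lit 13) (nat_lit 14))
    (@En.n l3348 (nat_lit 2516) (nat_lit 2) (nat_lit 11))
    (@En.i (nat_lit 2479) (nat_lit 13) (nat_lit 5))
    (@En.n l18 (nat_lit 769) (nat_lit 15) (nat_lit 2))))
  (@Cl.mk (nat_lit 0x20005000b00060005000c000b0005000e000400020005000b000a000e000b) (nat_lit 0x4000007800) (nat_lit 16) Lb.e (@T16.mk En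
    (@En.n l3429 (nat_lit 773) (nat_lit 11) (nat_lit 11))
    (@En.n l3430 (nat_lit 772) (nat_lit 12) (nat_lit 14))
    (@En.n l3431 (nat_lit 2429) (nat_lit 13) (nat_lit 10))
    (@En.i (nat_lit 2463) (nat_lit 3) (nat_lit 11))
    (@En.n l3432 (nat_lit 2464) (nat_lit 13) (nat_lit 5))
    (@En.n l28 (nat_lit 770) (nat_lit 5) (nat_lit 2))
    (@En.n l3433 (nat_lit 2235) (nat_lit 6) (nat_lit 4))
    (@En.n l3434 (nat_lit 2149) (nat_lit 8) (nat_lit 14))
    (@En.n l3435 (nat_lit 2144) (nat_lit 8) (nat_lit 5))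
    (@En.n l3436 (nat_lit 2265) (nat_lit 3) (nat_lit 11))
    (@En.i (nat_lit 12662) (nat_lit 11) (nat_lit 12))
    (@En.n l3437 (nat_lit 766) (nat_lit 5) (nat_lit 5))
    (@En.n l3438 (nat_lit 3609) (nat_lit 6) (nat_lit 6))
    (@En.n l3439 (nat_lit 1027) (nat_lit 8) (nat_lit 11))
    (@En.n l3440 (nat_lit 769) (nat_lit 8) (nat_lit 5))
    (@En.n l18 (nat_lit 770) (nat_lit 15) (nat_lit 2))))
  (@Cl.mk (nat_lit 0x20005000b00040007000c000b0005000e000400020005000b0009000e000c) (nat_lit 0x1000200000861a) (nat_lit 16) Lb.e (@T16.mk En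
    (@En.i (nat_lit 774) (nat_lit 11) (nat_lit 12))
    (@En.n l9500 (nat_lit 769) (nat_lit 12) (nat_lit 14))
    (@En.n l9511 (nat_lit 777) (nat_lit 13) (nat_lit 9))
    (@En.n l3337 (nat_lit 2517) (nat_lit 3) (nat_lit 11))
    (@En.n l253 (nat_lit 2066) (nat_lit 13) (nat_lit 5))
    (@En.n l3 (nat_lit 771) (nat_lit 5) (nat_lit 2))
    (@En.n l3323 (nat_lit 2184) (nat_lit 6) (nat_lit 4))
    (@En.i (nat_lit 2180) (nat_lit 8) (nat_lit 14))
    (@En.n l2199 (nat_lit 2138) (nat_lit 8) (nat_lit 5))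
    (@En.n l1253 (nat_lit 2261) (nat_lit 3) (nat_lit 11))
    (@En.i (nat_lit 12695) (nat_lit 11) (nat_lit 12))
    (@En.n l3337 (nat_lit 13806) (nat_lit 11) (nat_lit 7))
    (@En.i (nat_lit 778) (nat_lit 6) (nat_lit 4))
    (@En.n l15197 (nat_lit 430) (nat_lit 8) (nat_lit 11))
    (@En.i (nat_lit 772) (nat_lit 8) (nat_lit 5))
    (@En.n l7 (nat_lit 771) (nat_lit 15) (nat_lit 2))))
  (@Cl.mk (nat_lit 0x20005000b000e000a0002000d0005000b00030006000c000b0005000e0004) (nat_lit 0x7c000000000000) (nat_lit 16) Lb.e (@T16.mk En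
    (@En.n l3323 (nat_lit 2236) (nat_lit 5) (nat_lit 4))
    (@En.i (nat_lit 2425) (nat_lit 1) (nat_lit 14))
    (@En.n l9556 (nat_lit 2430) (nat_lit 2) (nat_lit 5))
    (@En.n l1253 (nat_lit 2266) (nat_lit 3) (nat_lit 11))
    (@En.i (nat_lit 12661) (nat_lit 10) (nat_lit 12))
    (@En.n l3337 (nat_lit 767) (nat_lit 5) (nat_lit 6))
    (@En.n l7524 (nat_lit 2429) (nat_lit 6) (nat_lit 3))
    (@En.n l2205 (nat_lit 1272) (nat_lit 0) (nat_lit 11))
    (@En.n l2867 (nat_lit 770) (nat_lit 14) (nat_lit 5))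
    (@En.i (nat_lit 775) (nat_lit 10) (nat_lit 13))
    (@En.n l11 (nat_lit 772) (nat_lit 10) (nat_lit 2))
    (@En.n l1578 (nat_lit 775) (nat_lit 12) (nat_lit 10))
    (@En.i (nat_lit 4728) (nat_lit 13) (nat_lit 14))
    (@En.n l3337 (nat_lit 2532) (nat_lit 14) (nat_lit 11))
    (@En.n l253 (nat_lit 2482) (nat_lit 13) (nat_lit 5))
    (@En.n l3 (nat_lit 772) (nat_lit 15) (nat_lit 2))))
  (@Cl.mk (nat_lit 0x20005000c000b000b000b0004000a000500050005000c000b0006000e0004) (nat_lit 0x88900100000000) (nat_lit 16) Lb.e (@T16.mk En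
    (@En.n l50 (nat_lit 2224) (nat_lit 15) (nat_lit 4))
    (@En.n l3300 (nat_lit 2147) (nat_lit 1) (nat_lit 14))
    (@En.n l8021 (nat_lit 2142) (nat_lit 2) (nat_lit 6))
    (@En.n l2885 (nat_lit 2229) (nat_lit 3) (nat_lit 11))
    (@En.n l8022 (nat_lit 12687) (nat_lit 5) (nat_lit 12))
    (@En.n l7922 (nat_lit 770) (nat_lit 11) (nat_lit 5))
    (@En.n l527 (nat_lit 769) (nat_lit 6) (nat_lit 5))
    (@En.n l3462 (nat_lit 3650) (nat_lit 7) (nat_lit 5))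
    (@En.n l2885 (nat_lit 291) (nat_lit 9) (nat_lit 10))
    (@En.n l3304 (nat_lit 774) (nat_lit 9) (nat_lit 4))
    (@En.n l5634 (nat_lit 2381) (nat_lit 11) (nat_lit 11))
    (@En.n l8023 (nat_lit 2279) (nat_lit 12) (nat_lit 11))
    (@En.n l8024 (nat_lit 2427) (nat_lit 13) (nat_lit 11))
    (@En.n l2940 (nat_lit 2052) (nat_lit 14) (nat_lit 12))
    (@En.n l2888 (nat_lit 2475) (nat_lit 13) (nat_lit 5))
    (@En.n l18 (nat_lit 773) (nat_lit 15) (nat_lit 2))))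
  (@Cl.mk (nat_lit 0x20005000c0009000c000c0004000a000400040007000c000b0006000e0004) (nat_lit 0xa69a0100000000) (nat_lit 16) Lb.e (@T16.mk En
    (@En.n l3323 (nat_lit 2189) (nat_lit 15) (nat_lit 4))
    (@En.n l9499 (nat_lit 1856) (nat_lit 1) (nat_lit 14))
    (@En.n l18714 (nat_lit 1850) (nat_lit 2) (nat_lit 6))
    (@En.n l1253 (nat_lit 2258) (nat_lit 3) (nat_lit 11))
    (@En.n l2031 (nat_lit 12694) (nat_lit 5) (nat_lit 12))
    (@En.n l28 (nat_lit 771) (nat_lit 11) (nat_lit 7))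
    (@En.n l77 (nat_lit 771) (nat_lit 12) (nat_lit 4))
    (@En.n l18715 (nat_lit 4420) (nat_lit 7) (nat_lit 4))
    (@En.n l609 (nat_lit 404) (nat_lit 9) (nat_lit 10))
    (@En.i (nat_lit 775) (nat_lit 9) (nat_lit 4))
    (@En.n l14612 (nat_lit 2278) (nat_lit 11) (nat_lit 12))
    (@En.n l3045 (nat_lit 2381) (nat_lit 12) (nat_lit 12))
    (@En.n l9511 (nat_lit 776) (nat_lit 13) (nat_lit 9))
    (@En.n l3337 (nat_lit 2053) (nat_lit 14) (nat_lit 12))
    (@En.n l253 (nat_lit 2060) (nat_lit 13) (nat_lit 5))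
    (@En.n l3 (nat_lit 774) (nat_lit 15) (nat_lit 2))))
  (@Cl.mk (nat_lit 0x20005000c000a000a000d0004000a000300060006000c000b0006000e0004) (nat_lit 0xa80b0100010000) (nat_lit 16) Lb.e (@T16.mk En
    (@En.n l10746 (nat_lit 2237) (nat_lit 8) (nat_lit 4))
    (@En.n l3330 (nat_lit 2419) (nat_lit 1) (nat_lit 14))
    (@En.n l10747 (nat_lit 2422) (nat_lit 2) (nat_lit 6))
    (@En.n l1253 (nat_lit 2267) (nat_lit 3) (nat_lit 11))
    (@En.n l1998 (nat_lit 43) (nat_lit 5) (nat_lit 12))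
    (@En.n l28 (nat_lit 772) (nat_lit 5) (nat_lit 6))
    (@En.n l10748 (nat_lit 770) (nat_lit 12) (nat_lit 6))
    (@En.n l10749 (nat_lit 2427) (nat_lit 7) (nat_lit 3))
    (@En.n l2205 (nat_lit 610) (nat_lit 0) (nat_lit 10))
    (@En.n l10750 (nat_lit 773) (nat_lit 9) (nat_lit 4))
    (@En.n l3045 (nat_lit 2418) (nat_lit 11) (nat_lit 13))
    (@En.n l10751 (nat_lit 2418) (nat_lit 12) (nat_lit 10))
    (@En.n l601 (nat_lit 778) (nat_lit 13) (nat_lit 10))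
    (@En.n l10748 (nat_lit 2435) (nat_lit 14) (nat_lit 12))
    (@En.n l253 (nat_lit 2178) (nat_lit 13) (nat_lit 5))
    (@En.n l3 (nat_lit 775) (nat_lit 15) (nat_lit 2))))
  (@Cl.mk (nat_lit 0x200050009000c000c000b00090004000400070005000c000b0007000e0004) (nat_lit 0x50001000000000) (nat_lit 16) Lb.e (@T16.mk En
    (@En.n l50 (nat_lit 835) (nat_lit 15) (nat_lit 4))
    (@En.n l1852 (nat_lit 2218) (nat_lit 1) (nat_lit 14))
    (@En.n l8021 (nat_lit 3317) (nat_lit 2) (nat_lit 7))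
    (@En.n l1290 (nat_lit 2659) (nat_lit 3) (nat_lit 11))
    (@En.n l12570 (nat_lit 7858) (nat_lit 5) (nat_lit 12))
    (@En.n l28 (nat_lit 773) (nat_lit 5) (nat_lit 5))
    (@En.n l3 (nat_lit 777) (nat_lit 6) (nat_lit 7))
    (@En.n l527 (nat_lit 777) (nat_lit 7) (nat_lit 4))
    (@En.n l18995 (nat_lit 4425) (nat_lit 8) (nat_lit 4))
    (@En.n l180 (nat_lit 432) (nat_lit 10) (nat_lit 9))
    (@En.n l180 (nat_lit 779) (nat_lit 11) (nat_lit 11))
    (@En.n l18996 (nat_lit 2656) (nat_lit 12) (nat_lit 12))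
    (@En.n l18997 (nat_lit 2666) (nat_lit 13) (nat_lit 12))
    (@En.n l16398 (nat_lit 900) (nat_lit 14) (nat_lit 9))
    (@En.n l18998 (nat_lit 2525) (nat_lit 13) (nat_lit 5))
    (@En.n l18 (nat_lit 776) (nat_lit 15) (nat_lit 2))))
  (@Cl.mk (nat_lit 0x200050009000e000c0002000c000a000400070004000c000b0006000e0004) (nat_lit 0x50100100000000) (nat_lit 16) Lb.e (@T16.mk En
    (@En.n l50 (nat_lit 2208) (nat_lit 5) (nat_lit 4))
    (@En.n l1851 (nat_lit 2219) (nat_lit 1) (nat_lit 14))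
    (@En.n l8021 (nat_lit 3315) (nat_lit 2) (nat_lit 6))
    (@En.n l8170 (nat_lit 2661) (nat_lit 3) (nat_lit 11))
    (@En.n l12570 (nat_lit 7869) (nat_lit 10) (nat_lit 12))
    (@En.n l28 (nat_lit 769) (nat_lit 5) (nat_lit 4))
    (@En.i (nat_lit 13147) (nat_lit 11) (nat_lit 7))
    (@En.n l10866 (nat_lit 4423) (nat_lit 7) (nat_lit 4))
    (@En.i (nat_lit 434) (nat_lit 9) (nat_lit 10))
    (@En.n l947 (nat_lit 778) (nat_lit 10) (nat_lit 12))
    (@En.n l107 (nat_lit 777) (nat_lit 10) (nat_lit 2))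
    (@En.i (nat_lit 776) (nat_lit 12) (nat_lit 12))
    (@En.n l97 (nat_lit 4087) (nat_lit 13) (nat_lit 14))
    (@En.n l12570 (nat_lit 902) (nat_lit 14) (nat_lit 9))
    (@En.n l6132 (nat_lit 2523) (nat_lit 13) (nat_lit 5))
    (@En.n l18 (nat_lit 777) (nat_lit 15) (nat_lit 2))))
  (@Cl.mk (nat_lit 0x20005000a0009000d000c00090003000600040007000c000b0007000e0004) (nat_lit 0x700a0000000000) (nat_lit 16) Lb.e (@T16.mk En
    (@En.n l3323 (nat_lit 4390) (nat_lit 7) (nat_lit 4))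
    (@En.n l8091 (nat_lit 4416) (nat_lit 1) (nat_lit 14))
    (@En.n l3348 (nat_lit 4579) (nat_lit 2) (nat_lit 7))
    (@En.n l250 (nat_lit 2324) (nat_lit 3) (nat_lit 11))
    (@En.n l3348 (nat_lit 11823) (nat_lit 12) (nat_lit 12))
    (@En.n l2039 (nat_lit 4673) (nat_lit 5) (nat_lit 7))
    (@En.n l4172 (nat_lit 774) (nat_lit 6) (nat_lit 4))
    (@En.n l7524 (nat_lit 2429) (nat_lit 7) (nat_lit 6))
    (@En.n l24174 (nat_lit 4421) (nat_lit 8) (nat_lit 3))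
    (@En.i (nat_lit 6291) (nat_lit 0) (nat_lit 9))
    (@En.n l18715 (nat_lit 4420) (nat_lit 11) (nat_lit 12))
    (@En.n l9500 (nat_lit 779) (nat_lit 12) (nat_lit 13))
    (@En.n l24175 (nat_lit 4423) (nat_lit 13) (nat_lit 9))
    (@En.n l2039 (nat_lit 8101) (nat_lit 14) (nat_lit 10))
    (@En.n l21006 (nat_lit 2803) (nat_lit 13) (nat_lit 5))
    (@En.n l3 (nat_lit 778) (nat_lit 15) (nat_lit 2))))
  (@Cl.mk (nat_lit 0x20005000a000d000b00080003000d000600050003000c000b0008000e0004) (nat_lit 0x7b900000000000) (nat_lit 16) Lb.e (@T16.mk En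
    (@En.n l50 (nat_lit 4392) (nat_lit 10) (nat_lit 4))
    (@En.n l3300 (nat_lit 4413) (nat_lit 1) (nat_lit 14))
    (@En.n l9533 (nat_lit 4577) (nat_lit 2) (nat_lit 8))
    (@En.n l10864 (nat_lit 2329) (nat_lit 3) (nat_lit 11))
    (@En.n l10865 (nat_lit 11825) (nat_lit 5) (nat_lit 12))
    (@En.n l10866 (nat_lit 4423) (nat_lit 5) (nat_lit 3))
    (@En.n l3457 (nat_lit 2381) (nat_lit 6) (nat_lit 5))
    (@En.n l3304 (nat_lit 778) (nat_lit 7) (nat_lit 6))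
    (@En.n l3459 (nat_lit 4420) (nat_lit 9) (nat_lit 13))
    (@En.n l10867 (nat_lit 4422) (nat_lit 9) (nat_lit 3))
    (@En.n l2094 (nat_lit 6289) (nat_lit 11) (nat_lit 8))
    (@En.n l3462 (nat_lit 3650) (nat_lit 12) (nat_lit 11))
    (@En.n l2094 (nat_lit 3840) (nat_lit 13) (nat_lit 13))
    (@En.n l3307 (nat_lit 8100) (nat_lit 14) (nat_lit 10))
    (@En.n l2887 (nat_lit 2806) (nat_lit 13) (nat_lit 5))
    (@En.n l18 (nat_lit 779) (nat_lit 15) (nat_lit 2))))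
  (@Cl.mk (nat_lit 0x20006000d0004000e00030002000a000e000d0002000a00030006000e000c) (nat_lit 0x10000501000091) (nat_lit 16) Lb.e (@T16.mk En
    (@En.i (nat_lit 751) (nat_lit 7) (nat_lit 12))
    (@En.n l5366 (nat_lit 3227) (nat_lit 8) (nat_lit 14))
    (@En.n l699 (nat_lit 14102) (nat_lit 12) (nat_lit 6))
    (@En.n l1063 (nat_lit 637) (nat_lit 3) (nat_lit 3))
    (@En.i (nat_lit 2044) (nat_lit 0) (nat_lit 10))
    (@En.n l18 (nat_lit 780) (nat_lit 5) (nat_lit 2))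
    (@En.n l1708 (nat_lit 637) (nat_lit 7) (nat_lit 13))
    (@En.n l1063 (nat_lit 3551) (nat_lit 8) (nat_lit 14))
    (@En.n l1998 (nat_lit 382) (nat_lit 9) (nat_lit 10))
    (@En.n l28 (nat_lit 780) (nat_lit 9) (nat_lit 2))
    (@En.n l287 (nat_lit 636) (nat_lit 10) (nat_lit 3))
    (@En.n l1997 (nat_lit 944) (nat_lit 0) (nat_lit 14))
    (@En.i (nat_lit 790) (nat_lit 6) (nat_lit 4))
    (@En.i (nat_lit 516) (nat_lit 8) (nat_lit 13))
    (@En.n l1643 (nat_lit 357) (nat_lit 4) (nat_lit 6))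
    (@En.n l3 (nat_lit 780) (nat_lit 15) (nat_lit 2))))
  (@Cl.mk (nat_lit 0x20006000e000c00020008000d0004000e00030002000a000d0008000e0003) (nat_lit 0x9101100005b040) (nat_lit 16) Lb.e (@T16.mk En
    (@En.i (nat_lit 637) (nat_lit 4) (nat_lit 3))
    (@En.n l699 (nat_lit 14102) (nat_lit 0) (nat_lit 14))
    (@En.i (nat_lit 1792) (nat_lit 2) (nat_lit 8))
    (@En.i (nat_lit 3567) (nat_lit 8) (nat_lit 13))
    (@En.n l2568 (nat_lit 386) (nat_lit 4) (nat_lit 10))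
    (@En.n l28 (nat_lit 781) (nat_lit 5) (nat_lit 2))
    (@En.i (nat_lit 635) (nat_lit 6) (nat_lit 3))
    (@En.n l2568 (nat_lit 943) (nat_lit 0) (nat_lit 14))
    (@En.i (nat_lit 789) (nat_lit 8) (nat_lit 4))
    (@En.i (nat_lit 520) (nat_lit 10) (nat_lit 13))
    (@En.i (nat_lit 329) (nat_lit 11) (nat_lit 8))
    (@En.n l3 (nat_lit 781) (nat_lit 11) (nat_lit 2))
    (@En.i (nat_lit 750) (nat_lit 13) (nat_lit 12))
    (@En.n l387 (nat_lit 3525) (nat_lit 8) (nat_lit 14))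
    (@En.n l1738 (nat_lit 637) (nat_lit 2) (nat_lit 6))
    (@En.n l18 (nat_lit 781) (nat_lit 15) (nat_lit 2))))
  (@Cl.mk (nat_lit 0x20007000a000d000d0008000300030006000d0009000c00030008000e0004) (nat_lit 0x50300009010150) (nat_lit 16) Lb.e (@T16.mk En
    (@En.i (nat_lit 737) (nat_lit 6) (nat_lit 4))
    (@En.n l649 (nat_lit 535) (nat_lit 1) (nat_lit 14))
    (@En.i (nat_lit 388) (nat_lit 2) (nat_lit 8))
    (@En.i (nat_lit 794) (nat_lit 3) (nat_lit 3))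
    (@En.n l226 (nat_lit 637) (nat_lit 0) (nat_lit 12))
    (@En.i (nat_lit 823) (nat_lit 5) (nat_lit 9))
    (@En.n l227 (nat_lit 2298) (nat_lit 7) (nat_lit 13))
    (@En.n l730 (nat_lit 787) (nat_lit 7) (nat_lit 6))
    (@En.n l731 (nat_lit 787) (nat_lit 8) (nat_lit 3))
    (@En.n l1865 (nat_lit 788) (nat_lit 0) (nat_lit 3))
    (@En.n l639 (nat_lit 1446) (nat_lit 11) (nat_lit 8))
    (@En.n l1867 (nat_lit 788) (nat_lit 3) (nat_lit 13))
    (@En.n l226 (nat_lit 2252) (nat_lit 13) (nat_lit 13))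
    (@En.n l639 (nat_lit 450) (nat_lit 14) (nat_lit 10))
    (@En.n l1738 (nat_lit 737) (nat_lit 4) (nat_lit 7))
    (@En.n l18 (nat_lit 782) (nat_lit 15) (nat_lit 2))))
  (@Cl.mk (nat_lit 0x20006000c0009000c000c0004000a000400040007000a000d0006000e0003) (nat_lit 0xa093010004b000) (nat_lit 16) Lb.e (@T16.mk En
    (@En.n l14963 (nat_lit 737) (nat_lit 15) (nat_lit 3))
    (@En.n l9922 (nat_lit 13346) (nat_lit 0) (nat_lit 14))
    (@En.i (nat_lit 1468) (nat_lit 2) (nat_lit 6))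
    (@En.n l1643 (nat_lit 2255) (nat_lit 5) (nat_lit 13))
    (@En.n l2036 (nat_lit 456) (nat_lit 4) (nat_lit 10))
    (@En.n l11 (nat_lit 805) (nat_lit 11) (nat_lit 7))
    (@En.n l55 (nat_lit 805) (nat_lit 12) (nat_lit 4))
    (@En.n l13824 (nat_lit 727) (nat_lit 7) (nat_lit 4))
    (@En.n l2036 (nat_lit 389) (nat_lit 9) (nat_lit 10))
    (@En.n l2037 (nat_lit 583) (nat_lit 9) (nat_lit 4))
    (@En.n l6697 (nat_lit 788) (nat_lit 11) (nat_lit 12))
    (@En.n l13826 (nat_lit 789) (nat_lit 12) (nat_lit 12))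
    (@En.n l5144 (nat_lit 822) (nat_lit 13) (nat_lit 9))
    (@En.n l4758 (nat_lit 2299) (nat_lit 14) (nat_lit 12))
    (@En.n l27919 (nat_lit 737) (nat_lit 13) (nat_lit 6))
    (@En.n l17 (nat_lit 783) (nat_lit 15) (nat_lit 2))))
noncomputable def a49 : T16 Cl := @T16.mk Cl
  (@Cl.mk (nat_lit 0x2000800030006000c0009000c000c00040008000400040007000a000e000d) (nat_lit 0xa09301000401) (nat_lit 16) Lb.e (@T16.mk En
    (@En.n l1643 (nat_lit 737) (nat_lit 2) (nat_lit 13))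
    (@En.n l619 (nat_lit 2185) (nat_lit 1) (nat_lit 14))
    (@En.i (nat_lit 455) (nat_lit 2) (nat_lit 10))
    (@En.n l1295 (nat_lit 804) (nat_lit 11) (nat_lit 7))
    (@En.n l2101 (nat_lit 804) (nat_lit 12) (nat_lit 4))
    (@En.n l12491 (nat_lit 728) (nat_lit 5) (nat_lit 4))
    (@En.n l2869 (nat_lit 383) (nat_lit 6) (nat_lit 8))
    (@En.n l3348 (nat_lit 803) (nat_lit 7) (nat_lit 4))
    (@En.n l61 (nat_lit 787) (nat_lit 4) (nat_lit 12))
    (@En.n l1998 (nat_lit 790) (nat_lit 10) (nat_lit 12))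
    (@En.n l12286 (nat_lit 807) (nat_lit 11) (nat_lit 9))
    (@En.i (nat_lit 2350) (nat_lit 12) (nat_lit 12))
    (@En.i (nat_lit 13346) (nat_lit 12) (nat_lit 6))
    (@En.n l615 (nat_lit 737) (nat_lit 14) (nat_lit 3))
    (@En.n l2869 (nat_lit 1442) (nat_lit 0) (nat_lit 8))
    (@En.n l107 (nat_lit 784) (nat_lit 15) (nat_lit 2))))
  (@Cl.mk (nat_lit 0x20005000a00040007000a000d000d0006000300030006000b0009000e000c) (nat_lit 0x1003000000902a) (nat_lit 16) Lb.e (@T16.mk En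
    (@En.n l14963 (nat_lit 737) (nat_lit 10) (nat_lit 12))
    (@En.n l14023 (nat_lit 798) (nat_lit 1) (nat_lit 14))
    (@En.n l5144 (nat_lit 806) (nat_lit 2) (nat_lit 9))
    (@En.n l4758 (nat_lit 2354) (nat_lit 3) (nat_lit 11))
    (@En.n l2199 (nat_lit 804) (nat_lit 4) (nat_lit 6))
    (@En.n l5331 (nat_lit 804) (nat_lit 5) (nat_lit 3))
    (@En.n l18 (nat_lit 805) (nat_lit 6) (nat_lit 3))
    (@En.n l947 (nat_lit 1439) (nat_lit 7) (nat_lit 6))
    (@En.n l61 (nat_lit 805) (nat_lit 9) (nat_lit 13))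
    (@En.n l1643 (nat_lit 2191) (nat_lit 10) (nat_lit 13))
    (@En.i (nat_lit 606) (nat_lit 11) (nat_lit 10))
    (@En.i (nat_lit 13119) (nat_lit 11) (nat_lit 7))
    (@En.i (nat_lit 729) (nat_lit 5) (nat_lit 4))
    (@En.n l12639 (nat_lit 384) (nat_lit 14) (nat_lit 10))
    (@En.i (nat_lit 580) (nat_lit 13) (nat_lit 5))
    (@En.n l28 (nat_lit 785) (nat_lit 15) (nat_lit 2))))
  (@Cl.mk (nat_lit 0x2000a000d000d0008000300030006000d000c000b000300080004000e0005) (nat_lit 0x500000078101060) (nat_lit 16) Lb.e (@T16.mk En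
    (@En.n l5617 (nat_lit 791) (nat_lit 5) (nat_lit 5))
    (@En.n l2463 (nat_lit 782) (nat_lit 1) (nat_lit 14))
    (@En.n l117 (nat_lit 740) (nat_lit 2) (nat_lit 4))
    (@En.n l613 (nat_lit 324) (nat_lit 3) (nat_lit 8))
    (@En.i (nat_lit 894) (nat_lit 4) (nat_lit 3))
    (@En.n l575 (nat_lit 633) (nat_lit 0) (nat_lit 11))
    (@En.n l5389 (nat_lit 575) (nat_lit 7) (nat_lit 12))
    (@En.n l387 (nat_lit 2303) (nat_lit 8) (nat_lit 13))
    (@En.n l2114 (nat_lit 790) (nat_lit 12) (nat_lit 6))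
    (@En.n l1959 (nat_lit 790) (nat_lit 13) (nat_lit 3))
    (@En.n l50 (nat_lit 789) (nat_lit 0) (nat_lit 3))
    (@En.n l829 (nat_lit 1748) (nat_lit 0) (nat_lit 8))
    (@En.n l217 (nat_lit 789) (nat_lit 3) (nat_lit 13))
    (@En.i (nat_lit 2376) (nat_lit 14) (nat_lit 13))
    (@En.n l613 (nat_lit 480) (nat_lit 3) (nat_lit 10))
    (@En.n l28 (nat_lit 786) (nat_lit 15) (nat_lit 2))))
  (@Cl.mk (nat_lit 0x20007000a000e000d0002000900030006000d0009000c00030007000e0004) (nat_lit 0x50100009020050) (nat_lit 16) Lb.e (@T16.mk En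
    (@En.i (nat_lit 784) (nat_lit 5) (nat_lit 4))
    (@En.n l1998 (nat_lit 537) (nat_lit 7) (nat_lit 14))
    (@En.i (nat_lit 386) (nat_lit 2) (nat_lit 7))
    (@En.i (nat_lit 793) (nat_lit 3) (nat_lit 3))
    (@En.n l1998 (nat_lit 780) (nat_lit 0) (nat_lit 12))
    (@En.n l13772 (nat_lit 825) (nat_lit 5) (nat_lit 9))
    (@En.n l26378 (nat_lit 2349) (nat_lit 7) (nat_lit 13))
    (@En.i (nat_lit 13347) (nat_lit 12) (nat_lit 6))
    (@En.n l615 (nat_lit 782) (nat_lit 8) (nat_lit 3))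
    (@En.n l1998 (nat_lit 1445) (nat_lit 0) (nat_lit 9))
    (@En.n l107 (nat_lit 787) (nat_lit 10) (nat_lit 2))
    (@En.n l1643 (nat_lit 782) (nat_lit 12) (nat_lit 13))
    (@En.n l6248 (nat_lit 2250) (nat_lit 13) (nat_lit 14))
    (@En.i (nat_lit 448) (nat_lit 2) (nat_lit 10))
    (@En.n l617 (nat_lit 784) (nat_lit 3) (nat_lit 7))
    (@En.n l17 (nat_lit 787) (nat_lit 15) (nat_lit 2))))
  (@Cl.mk (nat_lit 0x20006000d0009000c00030009000e000400020007000a000d0007000e0003) (nat_lit 0xa0201500042000) (nat_lit 16) Lb.e (@T16.mk En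
    (@En.n l2869 (nat_lit 782) (nat_lit 9) (nat_lit 3))
    (@En.n l1997 (nat_lit 13347) (nat_lit 0) (nat_lit 14))
    (@En.i (nat_lit 1522) (nat_lit 2) (nat_lit 7))
    (@En.n l1643 (nat_lit 2254) (nat_lit 13) (nat_lit 13))
    (@En.n l1997 (nat_lit 449) (nat_lit 4) (nat_lit 10))
    (@En.n l3100 (nat_lit 783) (nat_lit 5) (nat_lit 7))
    (@En.n l28 (nat_lit 788) (nat_lit 6) (nat_lit 2))
    (@En.n l5611 (nat_lit 783) (nat_lit 7) (nat_lit 4))
    (@En.i (nat_lit 536) (nat_lit 9) (nat_lit 14))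
    (@En.n l1643 (nat_lit 390) (nat_lit 2) (nat_lit 9))
    (@En.n l2381 (nat_lit 792) (nat_lit 3) (nat_lit 3))
    (@En.n l1643 (nat_lit 781) (nat_lit 12) (nat_lit 12))
    (@En.n l5495 (nat_lit 824) (nat_lit 13) (nat_lit 9))
    (@En.n l4758 (nat_lit 2296) (nat_lit 7) (nat_lit 13))
    (@En.n l3337 (nat_lit 782) (nat_lit 7) (nat_lit 6))
    (@En.n l17 (nat_lit 788) (nat_lit 15) (nat_lit 2))))
  (@Cl.mk (nat_lit 0x20006000d000c000b000300090004000e00050002000a000d0007000e0003) (nat_lit 0x7810106005b000) (nat_lit 16) Lb.e (@T16.mk En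
    (@En.i (nat_lit 786) (nat_lit 10) (nat_lit 3))
    (@En.n l699 (nat_lit 13343) (nat_lit 0) (nat_lit 14))
    (@En.i (nat_lit 1788) (nat_lit 2) (nat_lit 7))
    (@En.i (nat_lit 2374) (nat_lit 14) (nat_lit 13))
    (@En.n l9300 (nat_lit 481) (nat_lit 4) (nat_lit 10))
    (@En.n l28 (nat_lit 789) (nat_lit 5) (nat_lit 2))
    (@En.n l5617 (nat_lit 795) (nat_lit 6) (nat_lit 5))
    (@En.n l9301 (nat_lit 788) (nat_lit 8) (nat_lit 14))
    (@En.n l117 (nat_lit 750) (nat_lit 8) (nat_lit 4))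
    (@En.n l2381 (nat_lit 323) (nat_lit 10) (nat_lit 9))
    (@En.i (nat_lit 895) (nat_lit 10) (nat_lit 3))
    (@En.n l575 (nat_lit 635) (nat_lit 12) (nat_lit 11))
    (@En.i (nat_lit 893) (nat_lit 13) (nat_lit 12))
    (@En.n l387 (nat_lit 2302) (nat_lit 8) (nat_lit 13))
    (@En.n l1738 (nat_lit 786) (nat_lit 8) (nat_lit 6))
    (@En.n l18 (nat_lit 789) (nat_lit 15) (nat_lit 2))))
  (@Cl.mk (nat_lit 0x2000900030006000d000c000b000300070004000e00050002000a000e000d) (nat_lit 0x881000600501) (nat_lit 16) Lb.e (@T16.mk En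
    (@En.n l1708 (nat_lit 786) (nat_lit 13) (nat_lit 13))
    (@En.n l1063 (nat_lit 2384) (nat_lit 1) (nat_lit 14))
    (@En.n l1998 (nat_lit 482) (nat_lit 2) (nat_lit 10))
    (@En.n l28 (nat_lit 790) (nat_lit 3) (nat_lit 2))
    (@En.n l2683 (nat_lit 796) (nat_lit 4) (nat_lit 5))
    (@En.n l2865 (nat_lit 787) (nat_lit 1) (nat_lit 14))
    (@En.n l117 (nat_lit 751) (nat_lit 2) (nat_lit 4))
    (@En.n l1997 (nat_lit 358) (nat_lit 7) (nat_lit 7))
    (@En.n l2383 (nat_lit 896) (nat_lit 8) (nat_lit 3))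
    (@En.n l4021 (nat_lit 636) (nat_lit 0) (nat_lit 11))
    (@En.n l3082 (nat_lit 892) (nat_lit 11) (nat_lit 12))
    (@En.n l11587 (nat_lit 2351) (nat_lit 8) (nat_lit 13))
    (@En.n l699 (nat_lit 13343) (nat_lit 12) (nat_lit 6))
    (@En.n l1063 (nat_lit 786) (nat_lit 9) (nat_lit 3))
    (@En.i (nat_lit 1449) (nat_lit 0) (nat_lit 9))
    (@En.n l18 (nat_lit 790) (nat_lit 15) (nat_lit 2))))
  (@Cl.mk (nat_lit 0x300030006000c000b000b000b00040009000500050005000a000d000d0007) (nat_lit 0x7822010003000) (nat_lit 16) Lb.e (@T16.mk En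
    (@En.n l5713 (nat_lit 1417) (nat_lit 0) (nat_lit 7))
    (@En.n l217 (nat_lit 795) (nat_lit 3) (nat_lit 13))
    (@En.i (nat_lit 2225) (nat_lit 5) (nat_lit 13))
    (@En.n l1910 (nat_lit 454) (nat_lit 3) (nat_lit 10))
    (@En.n l5714 (nat_lit 797) (nat_lit 11) (nat_lit 5))
    (@En.n l527 (nat_lit 798) (nat_lit 11) (nat_lit 5))
    (@En.n l3462 (nat_lit 638) (nat_lit 6) (nat_lit 5))
    (@En.n l5715 (nat_lit 322) (nat_lit 0) (nat_lit 9))
    (@En.n l5716 (nat_lit 737) (nat_lit 8) (nat_lit 4))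
    (@En.n l5634 (nat_lit 786) (nat_lit 5) (nat_lit 11))
    (@En.n l5717 (nat_lit 794) (nat_lit 5) (nat_lit 11))
    (@En.n l5718 (nat_lit 576) (nat_lit 12) (nat_lit 11))
    (@En.n l387 (nat_lit 2301) (nat_lit 13) (nat_lit 12))
    (@En.n l5719 (nat_lit 796) (nat_lit 12) (nat_lit 6))
    (@En.n l5720 (nat_lit 796) (nat_lit 13) (nat_lit 3))
    (@En.n l50 (nat_lit 795) (nat_lit 0) (nat_lit 3))))
  (@Cl.mk (nat_lit 0x20006000a000d0007000e000300020006000d000b000a00030009000e0005) (nat_lit 0x4000000a110050) (nat_lit 16) Lb.e (@T16.mk En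
    (@En.n l5617 (nat_lit 795) (nat_lit 7) (nat_lit 5))
    (@En.i (nat_lit 533) (nat_lit 9) (nat_lit 14))
    (@En.n l14307 (nat_lit 907) (nat_lit 2) (nat_lit 9))
    (@En.n l5620 (nat_lit 788) (nat_lit 10) (nat_lit 3))
    (@En.n l5621 (nat_lit 631) (nat_lit 4) (nat_lit 10))
    (@En.n l936 (nat_lit 727) (nat_lit 13) (nat_lit 11))
    (@En.n l387 (nat_lit 2294) (nat_lit 7) (nat_lit 13))
    (@En.n l14308 (nat_lit 794) (nat_lit 7) (nat_lit 6))
    (@En.n l18 (nat_lit 792) (nat_lit 8) (nat_lit 2))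
    (@En.n l1977 (nat_lit 794) (nat_lit 9) (nat_lit 3))
    (@En.n l2004 (nat_lit 13345) (nat_lit 0) (nat_lit 14))
    (@En.i (nat_lit 1523) (nat_lit 2) (nat_lit 7))
    (@En.i (nat_lit 2293) (nat_lit 13) (nat_lit 13))
    (@En.n l2004 (nat_lit 451) (nat_lit 4) (nat_lit 10))
    (@En.n l5616 (nat_lit 583) (nat_lit 5) (nat_lit 6))
    (@En.n l11 (nat_lit 792) (nat_lit 15) (nat_lit 2))))
  (@Cl.mk (nat_lit 0x20006000a000e000d0002000900030006000d000b000a00030007000e0005) (nat_lit 0x50300009110050) (nat_lit 16) Lb.e (@T16.mk En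
    (@En.n l215 (nat_lit 796) (nat_lit 5) (nat_lit 5))
    (@En.n l2567 (nat_lit 534) (nat_lit 7) (nat_lit 14))
    (@En.i (nat_lit 362) (nat_lit 2) (nat_lit 7))
    (@En.n l50 (nat_lit 787) (nat_lit 3) (nat_lit 3))
    (@En.n l767 (nat_lit 632) (nat_lit 4) (nat_lit 10))
    (@En.n l13775 (nat_lit 728) (nat_lit 11) (nat_lit 11))
    (@En.n l272 (nat_lit 2348) (nat_lit 7) (nat_lit 13))
    (@En.i (nat_lit 13345) (nat_lit 12) (nat_lit 6))
    (@En.n l615 (nat_lit 794) (nat_lit 8) (nat_lit 3))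
    (@En.n l613 (nat_lit 1448) (nat_lit 0) (nat_lit 9))
    (@En.n l107 (nat_lit 793) (nat_lit 10) (nat_lit 2))
    (@En.n l1643 (nat_lit 794) (nat_lit 12) (nat_lit 13))
    (@En.n l14296 (nat_lit 2306) (nat_lit 13) (nat_lit 14))
    (@En.i (nat_lit 452) (nat_lit 2) (nat_lit 10))
    (@En.n l3327 (nat_lit 803) (nat_lit 3) (nat_lit 6))
    (@En.n l17 (nat_lit 793) (nat_lit 15) (nat_lit 2))))
  (@Cl.mk (nat_lit 0x20006000a000d000d0008000300030006000d000b000a00030008000e0005) (nat_lit 0x4210000a120150) (nat_lit 16) Lb.e (@T16.mk En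
    (@En.n l5823 (nat_lit 791) (nat_lit 6) (nat_lit 5))
    (@En.n l649 (nat_lit 532) (nat_lit 1) (nat_lit 14))
    (@En.i (nat_lit 361) (nat_lit 2) (nat_lit 8))
    (@En.n l7 (nat_lit 782) (nat_lit 3) (nat_lit 3))
    (@En.n l5824 (nat_lit 634) (nat_lit 4) (nat_lit 10))
    (@En.n l5825 (nat_lit 726) (nat_lit 12) (nat_lit 11))
    (@En.n l1949 (nat_lit 2295) (nat_lit 7) (nat_lit 13))
    (@En.n l730 (nat_lit 793) (nat_lit 7) (nat_lit 6))
    (@En.n l731 (nat_lit 793) (nat_lit 8) (nat_lit 3))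
    (@En.n l5826 (nat_lit 792) (nat_lit 9) (nat_lit 3))
    (@En.n l639 (nat_lit 1451) (nat_lit 11) (nat_lit 8))
    (@En.n l5827 (nat_lit 792) (nat_lit 12) (nat_lit 13))
    (@En.n l5828 (nat_lit 2292) (nat_lit 13) (nat_lit 13))
    (@En.n l639 (nat_lit 447) (nat_lit 14) (nat_lit 10))
    (@En.n l5829 (nat_lit 577) (nat_lit 4) (nat_lit 6))
    (@En.n l18 (nat_lit 794) (nat_lit 15) (nat_lit 2))))
  (@Cl.mk (nat_lit 0x20006000c000b000b000b0004000a000500050005000a000d0006000e0003) (nat_lit 0x7822010003b000) (nat_lit 16) Lb.e (@T16.mk En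
    (@En.i (nat_lit 791) (nat_lit 15) (nat_lit 3))
    (@En.n l3303 (nat_lit 13344) (nat_lit 0) (nat_lit 14))
    (@En.i (nat_lit 1418) (nat_lit 2) (nat_lit 6))
    (@En.i (nat_lit 2227) (nat_lit 5) (nat_lit 13))
    (@En.n l1910 (nat_lit 457) (nat_lit 4) (nat_lit 10))
    (@En.n l5714 (nat_lit 801) (nat_lit 11) (nat_lit 5))
    (@En.n l527 (nat_lit 799) (nat_lit 6) (nat_lit 5))
    (@En.n l3462 (nat_lit 738) (nat_lit 7) (nat_lit 5))
    (@En.n l3303 (nat_lit 321) (nat_lit 9) (nat_lit 10))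
    (@En.n l6052 (nat_lit 783) (nat_lit 9) (nat_lit 4))
    (@En.n l5634 (nat_lit 789) (nat_lit 11) (nat_lit 11))
    (@En.n l5635 (nat_lit 792) (nat_lit 5) (nat_lit 11))
    (@En.n l14086 (nat_lit 574) (nat_lit 13) (nat_lit 11))
    (@En.n l387 (nat_lit 2297) (nat_lit 14) (nat_lit 12))
    (@En.n l1738 (nat_lit 791) (nat_lit 13) (nat_lit 6))
    (@En.n l18 (nat_lit 795) (nat_lit 15) (nat_lit 2))))
  (@Cl.mk (nat_lit 0x2000800030006000c000b000b000b00040008000500050005000a000e000d) (nat_lit 0x782201000301) (nat_lit 16) Lb.e (@T16.mk En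
    (@En.n l14084 (nat_lit 791) (nat_lit 2) (nat_lit 13))
    (@En.n l601 (nat_lit 2223) (nat_lit 1) (nat_lit 14))
    (@En.n l5702 (nat_lit 484) (nat_lit 2) (nat_lit 10))
    (@En.n l11 (nat_lit 802) (nat_lit 11) (nat_lit 5))
    (@En.n l5703 (nat_lit 800) (nat_lit 4) (nat_lit 5))
    (@En.n l5708 (nat_lit 739) (nat_lit 5) (nat_lit 5))
    (@En.i (nat_lit 360) (nat_lit 6) (nat_lit 8))
    (@En.n l227 (nat_lit 784) (nat_lit 7) (nat_lit 4))
    (@En.n l1952 (nat_lit 790) (nat_lit 9) (nat_lit 11))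
    (@En.n l230 (nat_lit 793) (nat_lit 5) (nat_lit 11))
    (@En.n l12593 (nat_lit 573) (nat_lit 11) (nat_lit 11))
    (@En.n l5708 (nat_lit 2342) (nat_lit 12) (nat_lit 12))
    (@En.i (nat_lit 13344) (nat_lit 12) (nat_lit 6))
    (@En.n l14085 (nat_lit 791) (nat_lit 14) (nat_lit 3))
    (@En.i (nat_lit 1444) (nat_lit 0) (nat_lit 8))
    (@En.n l50 (nat_lit 796) (nat_lit 15) (nat_lit 2))))
  (@Cl.mk (nat_lit 0x20005000a00060005000a000d000d0006000300030006000b000a000e000b) (nat_lit 0x20020000007813) (nat_lit 16) Lb.e (@T16.mk En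
    (@En.n l2061 (nat_lit 791) (nat_lit 10) (nat_lit 11))
    (@En.n l28 (nat_lit 580) (nat_lit 1) (nat_lit 14))
    (@En.n l2062 (nat_lit 572) (nat_lit 2) (nat_lit 10))
    (@En.n l2063 (nat_lit 2338) (nat_lit 3) (nat_lit 11))
    (@En.n l2064 (nat_lit 802) (nat_lit 4) (nat_lit 6))
    (@En.n l2065 (nat_lit 802) (nat_lit 5) (nat_lit 3))
    (@En.n l18 (nat_lit 801) (nat_lit 6) (nat_lit 3))
    (@En.n l2066 (nat_lit 1452) (nat_lit 7) (nat_lit 6))
    (@En.n l61 (nat_lit 801) (nat_lit 9) (nat_lit 13))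
    (@En.n l2067 (nat_lit 2234) (nat_lit 10) (nat_lit 13))
    (@En.n l2068 (nat_lit 546) (nat_lit 11) (nat_lit 10))
    (@En.n l2067 (nat_lit 526) (nat_lit 4) (nat_lit 5))
    (@En.n l2069 (nat_lit 630) (nat_lit 13) (nat_lit 6))
    (@En.n l2070 (nat_lit 1001) (nat_lit 14) (nat_lit 10))
    (@En.n l2071 (nat_lit 798) (nat_lit 13) (nat_lit 5))
    (@En.n l107 (nat_lit 797) (nat_lit 15) (nat_lit 2))))
  (@Cl.mk (nat_lit 0x2000c0005000a00050004000a000d000d0006000300030006000b000e000b) (nat_lit 0x301002000000919) (nat_lit 16) Lb.e (@T16.mk En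
    (@En.i (nat_lit 791) (nat_lit 11) (nat_lit 11))
    (@En.n l619 (nat_lit 629) (nat_lit 4) (nat_lit 14))
    (@En.n l387 (nat_lit 2355) (nat_lit 2) (nat_lit 11))
    (@En.n l2114 (nat_lit 800) (nat_lit 12) (nat_lit 6))
    (@En.n l1959 (nat_lit 800) (nat_lit 13) (nat_lit 3))
    (@En.n l50 (nat_lit 799) (nat_lit 0) (nat_lit 3))
    (@En.n l829 (nat_lit 1438) (nat_lit 0) (nat_lit 6))
    (@En.n l217 (nat_lit 799) (nat_lit 3) (nat_lit 13))
    (@En.i (nat_lit 2193) (nat_lit 5) (nat_lit 13))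
    (@En.n l6050 (nat_lit 600) (nat_lit 10) (nat_lit 10))
    (@En.i (nat_lit 523) (nat_lit 10) (nat_lit 4))
    (@En.n l6051 (nat_lit 732) (nat_lit 5) (nat_lit 5))
    (@En.n l5715 (nat_lit 320) (nat_lit 13) (nat_lit 10))
    (@En.n l6052 (nat_lit 785) (nat_lit 14) (nat_lit 5))
    (@En.n l6053 (nat_lit 737) (nat_lit 9) (nat_lit 12))
    (@En.n l107 (nat_lit 798) (nat_lit 15) (nat_lit 2))))
  (@Cl.mk (nat_lit 0x20006000b000e000b0002000c0005000b00050004000a000d0005000e0003) (nat_lit 0x9890401002b000) (nat_lit 16) Lb.e (@T16.mk En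
    (@En.i (nat_lit 798) (nat_lit 5) (nat_lit 3))
    (@En.n l699 (nat_lit 13351) (nat_lit 0) (nat_lit 14))
    (@En.i (nat_lit 1466) (nat_lit 2) (nat_lit 5))
    (@En.i (nat_lit 2232) (nat_lit 5) (nat_lit 13))
    (@En.n l6050 (nat_lit 604) (nat_lit 10) (nat_lit 10))
    (@En.i (nat_lit 527) (nat_lit 5) (nat_lit 4))
    (@En.i (nat_lit 733) (nat_lit 6) (nat_lit 5))
    (@En.n l3303 (nat_lit 319) (nat_lit 8) (nat_lit 11))
    (@En.n l6052 (nat_lit 805) (nat_lit 14) (nat_lit 5))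
    (@En.n l1001 (nat_lit 783) (nat_lit 10) (nat_lit 12))
    (@En.n l107 (nat_lit 799) (nat_lit 10) (nat_lit 2))
    (@En.i (nat_lit 795) (nat_lit 12) (nat_lit 11))
    (@En.n l619 (nat_lit 837) (nat_lit 13) (nat_lit 14))
    (@En.n l387 (nat_lit 2357) (nat_lit 2) (nat_lit 11))
    (@En.n l1738 (nat_lit 798) (nat_lit 3) (nat_lit 6))
    (@En.n l18 (nat_lit 799) (nat_lit 15) (nat_lit 2))))
noncomputable def a50 : T16 Cl := @T16.mk Cl
  (@Cl.mk (nat_lit 0x2000700030006000b000e000b0002000c0005000900050004000a000e000d) (nat_lit 0x989040100201) (nat_lit 16) Lb.e (@T16.mk En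
    (@En.n l1708 (nat_lit 798) (nat_lit 8) (nat_lit 13))
    (@En.n l1063 (nat_lit 2186) (nat_lit 9) (nat_lit 14))
    (@En.n l5599 (nat_lit 605) (nat_lit 10) (nat_lit 10))
    (@En.i (nat_lit 525) (nat_lit 3) (nat_lit 4))
    (@En.n l5995 (nat_lit 734) (nat_lit 4) (nat_lit 5))
    (@En.n l3303 (nat_lit 375) (nat_lit 5) (nat_lit 9))
    (@En.n l14803 (nat_lit 804) (nat_lit 14) (nat_lit 5))
    (@En.n l5996 (nat_lit 784) (nat_lit 8) (nat_lit 12))
    (@En.n l107 (nat_lit 800) (nat_lit 8) (nat_lit 2))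
    (@En.n l3303 (nat_lit 796) (nat_lit 10) (nat_lit 11))
    (@En.n l619 (nat_lit 836) (nat_lit 11) (nat_lit 14))
    (@En.n l1784 (nat_lit 2353) (nat_lit 12) (nat_lit 11))
    (@En.n l699 (nat_lit 13351) (nat_lit 12) (nat_lit 6))
    (@En.n l1063 (nat_lit 798) (nat_lit 4) (nat_lit 3))
    (@En.i (nat_lit 1443) (nat_lit 0) (nat_lit 7))
    (@En.n l18 (nat_lit 800) (nat_lit 15) (nat_lit 2))))
  (@Cl.mk (nat_lit 0x20005000b00060005000a000d0005000e000300020006000b000a000e000b) (nat_lit 0x8002b050007813) (nat_lit 16) Lb.e (@T16.mk En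
    (@En.n l2061 (nat_lit 795) (nat_lit 11) (nat_lit 11))
    (@En.n l28 (nat_lit 581) (nat_lit 12) (nat_lit 14))
    (@En.n l77 (nat_lit 579) (nat_lit 13) (nat_lit 10))
    (@En.n l5997 (nat_lit 2341) (nat_lit 3) (nat_lit 11))
    (@En.n l617 (nat_lit 797) (nat_lit 4) (nat_lit 6))
    (@En.n l17 (nat_lit 801) (nat_lit 5) (nat_lit 2))
    (@En.i (nat_lit 797) (nat_lit 6) (nat_lit 3))
    (@En.n l2903 (nat_lit 13349) (nat_lit 0) (nat_lit 14))
    (@En.i (nat_lit 1662) (nat_lit 2) (nat_lit 5))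
    (@En.n l2067 (nat_lit 2233) (nat_lit 10) (nat_lit 13))
    (@En.n l2068 (nat_lit 599) (nat_lit 11) (nat_lit 10))
    (@En.n l2067 (nat_lit 528) (nat_lit 5) (nat_lit 5))
    (@En.n l5998 (nat_lit 639) (nat_lit 13) (nat_lit 6))
    (@En.n l2903 (nat_lit 1000) (nat_lit 8) (nat_lit 11))
    (@En.n l2071 (nat_lit 799) (nat_lit 8) (nat_lit 5))
    (@En.n l107 (nat_lit 801) (nat_lit 15) (nat_lit 2))))
  (@Cl.mk (nat_lit 0x20005000900060005000a000e000d0002000700030006000b000a000e000b) (nat_lit 0x20023100007813) (nat_lit 16) Lb.e (@T16.mk En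
    (@En.n l68 (nat_lit 796) (nat_lit 9) (nat_lit 11))
    (@En.n l637 (nat_lit 582) (nat_lit 10) (nat_lit 14))
    (@En.n l2320 (nat_lit 578) (nat_lit 11) (nat_lit 10))
    (@En.n l5991 (nat_lit 2340) (nat_lit 3) (nat_lit 11))
    (@En.i (nat_lit 13349) (nat_lit 12) (nat_lit 6))
    (@En.n l5992 (nat_lit 797) (nat_lit 5) (nat_lit 3))
    (@En.i (nat_lit 1453) (nat_lit 6) (nat_lit 7))
    (@En.n l50 (nat_lit 802) (nat_lit 7) (nat_lit 2))
    (@En.n l5993 (nat_lit 797) (nat_lit 9) (nat_lit 13))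
    (@En.n l601 (nat_lit 2207) (nat_lit 10) (nat_lit 14))
    (@En.n l255 (nat_lit 598) (nat_lit 11) (nat_lit 10))
    (@En.i (nat_lit 524) (nat_lit 3) (nat_lit 5))
    (@En.n l728 (nat_lit 752) (nat_lit 13) (nat_lit 6))
    (@En.i (nat_lit 1018) (nat_lit 5) (nat_lit 9))
    (@En.n l730 (nat_lit 800) (nat_lit 6) (nat_lit 5))
    (@En.n l67 (nat_lit 802) (nat_lit 15) (nat_lit 2))))
  (@Cl.mk (nat_lit 0x2000800030006000c000a000a000d00040008000300060006000a000e000d) (nat_lit 0x300782b00000441) (nat_lit 16) Lb.e (@T16.mk En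
    (@En.n l1708 (nat_lit 577) (nat_lit 2) (nat_lit 13))
    (@En.n l17490 (nat_lit 2206) (nat_lit 1) (nat_lit 14))
    (@En.i (nat_lit 473) (nat_lit 2) (nat_lit 10))
    (@En.n l1904 (nat_lit 582) (nat_lit 3) (nat_lit 6))
    (@En.n l17491 (nat_lit 802) (nat_lit 12) (nat_lit 6))
    (@En.n l13678 (nat_lit 573) (nat_lit 5) (nat_lit 3))
    (@En.n l1897 (nat_lit 1243) (nat_lit 0) (nat_lit 8))
    (@En.n l7718 (nat_lit 796) (nat_lit 7) (nat_lit 4))
    (@En.n l17492 (nat_lit 896) (nat_lit 9) (nat_lit 13))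
    (@En.n l17493 (nat_lit 896) (nat_lit 10) (nat_lit 10))
    (@En.n l17494 (nat_lit 731) (nat_lit 11) (nat_lit 10))
    (@En.n l12998 (nat_lit 2339) (nat_lit 12) (nat_lit 12))
    (@En.n l699 (nat_lit 13339) (nat_lit 12) (nat_lit 6))
    (@En.n l1063 (nat_lit 577) (nat_lit 14) (nat_lit 3))
    (@En.i (nat_lit 1456) (nat_lit 0) (nat_lit 8))
    (@En.n l18 (nat_lit 803) (nat_lit 15) (nat_lit 2))))
  (@Cl.mk (nat_lit 0x20005000900040007000a000e000d0002000700030006000b0009000e000c) (nat_lit 0x1003010000909a) (nat_lit 16) Lb.e (@T16.mk En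
    (@En.n l1012 (nat_lit 784) (nat_lit 9) (nat_lit 12))
    (@En.n l26405 (nat_lit 800) (nat_lit 10) (nat_lit 14))
    (@En.n l11977 (nat_lit 808) (nat_lit 11) (nat_lit 9))
    (@En.n l13138 (nat_lit 2352) (nat_lit 3) (nat_lit 11))
    (@En.n l2036 (nat_lit 13534) (nat_lit 12) (nat_lit 6))
    (@En.n l2221 (nat_lit 785) (nat_lit 5) (nat_lit 3))
    (@En.n l2031 (nat_lit 1441) (nat_lit 6) (nat_lit 7))
    (@En.n l3 (nat_lit 804) (nat_lit 7) (nat_lit 2))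
    (@En.n l649 (nat_lit 785) (nat_lit 9) (nat_lit 13))
    (@En.n l248 (nat_lit 2183) (nat_lit 10) (nat_lit 14))
    (@En.n l1997 (nat_lit 607) (nat_lit 11) (nat_lit 10))
    (@En.n l2031 (nat_lit 13122) (nat_lit 11) (nat_lit 7))
    (@En.n l13644 (nat_lit 731) (nat_lit 4) (nat_lit 4))
    (@En.n l1998 (nat_lit 382) (nat_lit 5) (nat_lit 9))
    (@En.n l2031 (nat_lit 582) (nat_lit 6) (nat_lit 5))
    (@En.n l18 (nat_lit 804) (nat_lit 15) (nat_lit 2))))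
  (@Cl.mk (nat_lit 0x20005000b00040007000a000d0005000e000300020006000b0009000e000c) (nat_lit 0x1003b00000909a) (nat_lit 16) Lb.e (@T16.mk En
    (@En.i (nat_lit 783) (nat_lit 11) (nat_lit 12))
    (@En.n l14023 (nat_lit 799) (nat_lit 12) (nat_lit 14))
    (@En.n l5144 (nat_lit 809) (nat_lit 13) (nat_lit 9))
    (@En.n l4758 (nat_lit 2356) (nat_lit 3) (nat_lit 11))
    (@En.n l617 (nat_lit 785) (nat_lit 4) (nat_lit 6))
    (@En.n l17 (nat_lit 805) (nat_lit 5) (nat_lit 2))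
    (@En.i (nat_lit 785) (nat_lit 6) (nat_lit 3))
    (@En.i (nat_lit 13534) (nat_lit 0) (nat_lit 14))
    (@En.i (nat_lit 1467) (nat_lit 2) (nat_lit 5))
    (@En.n l1643 (nat_lit 2260) (nat_lit 10) (nat_lit 13))
    (@En.i (nat_lit 608) (nat_lit 11) (nat_lit 10))
    (@En.i (nat_lit 13118) (nat_lit 11) (nat_lit 7))
    (@En.i (nat_lit 730) (nat_lit 6) (nat_lit 4))
    (@En.n l1889 (nat_lit 397) (nat_lit 8) (nat_lit 11))
    (@En.i (nat_lit 581) (nat_lit 8) (nat_lit 5))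
    (@En.n l28 (nat_lit 805) (nat_lit 15) (nat_lit 2))))
  (@Cl.mk (nat_lit 0x2000c0009000400070004000a000d000d00070003000300060009000e000c) (nat_lit 0x210004000000712) (nat_lit 16) Lb.e (@T16.mk En
    (@En.i (nat_lit 736) (nat_lit 11) (nat_lit 12))
    (@En.n l97 (nat_lit 439) (nat_lit 1) (nat_lit 14))
    (@En.n l387 (nat_lit 810) (nat_lit 2) (nat_lit 9))
    (@En.n l2114 (nat_lit 808) (nat_lit 12) (nat_lit 6))
    (@En.n l1959 (nat_lit 808) (nat_lit 13) (nat_lit 3))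
    (@En.n l50 (nat_lit 809) (nat_lit 0) (nat_lit 3))
    (@En.n l829 (nat_lit 1196) (nat_lit 0) (nat_lit 7))
    (@En.n l217 (nat_lit 809) (nat_lit 3) (nat_lit 13))
    (@En.i (nat_lit 834) (nat_lit 5) (nat_lit 13))
    (@En.n l4829 (nat_lit 785) (nat_lit 10) (nat_lit 10))
    (@En.n l28 (nat_lit 798) (nat_lit 10) (nat_lit 4))
    (@En.i (nat_lit 13121) (nat_lit 11) (nat_lit 7))
    (@En.n l5302 (nat_lit 645) (nat_lit 6) (nat_lit 4))
    (@En.i (nat_lit 396) (nat_lit 14) (nat_lit 9))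
    (@En.n l2568 (nat_lit 729) (nat_lit 9) (nat_lit 12))
    (@En.n l107 (nat_lit 806) (nat_lit 15) (nat_lit 2))))
  (@Cl.mk (nat_lit 0x20009000300060009000c000c000b00070004000400070005000a000e000d) (nat_lit 0x712100000501) (nat_lit 16) Lb.e (@T16.mk En
    (@En.n l16396 (nat_lit 736) (nat_lit 2) (nat_lit 13))
    (@En.n l14862 (nat_lit 2209) (nat_lit 1) (nat_lit 14))
    (@En.n l4803 (nat_lit 784) (nat_lit 2) (nat_lit 10))
    (@En.n l4839 (nat_lit 796) (nat_lit 3) (nat_lit 5))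
    (@En.n l13773 (nat_lit 808) (nat_lit 4) (nat_lit 7))
    (@En.n l8283 (nat_lit 808) (nat_lit 5) (nat_lit 4))
    (@En.i (nat_lit 725) (nat_lit 6) (nat_lit 4))
    (@En.n l4839 (nat_lit 387) (nat_lit 7) (nat_lit 7))
    (@En.n l2337 (nat_lit 734) (nat_lit 9) (nat_lit 11))
    (@En.n l601 (nat_lit 825) (nat_lit 4) (nat_lit 12))
    (@En.n l617 (nat_lit 434) (nat_lit 6) (nat_lit 12))
    (@En.n l781 (nat_lit 815) (nat_lit 12) (nat_lit 9))
    (@En.i (nat_lit 13499) (nat_lit 12) (nat_lit 6))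
    (@En.n l7909 (nat_lit 736) (nat_lit 14) (nat_lit 3))
    (@En.n l12316 (nat_lit 1195) (nat_lit 0) (nat_lit 9))
    (@En.n l107 (nat_lit 807) (nat_lit 15) (nat_lit 2))))
  (@Cl.mk (nat_lit 0x20008000300060009000e000c0002000c0008000400070004000a000e000d) (nat_lit 0x792021000401) (nat_lit 16) Lb.e (@T16.mk En
    (@En.n l1708 (nat_lit 806) (nat_lit 8) (nat_lit 13))
    (@En.n l1063 (nat_lit 2210) (nat_lit 9) (nat_lit 14))
    (@En.n l5925 (nat_lit 804) (nat_lit 10) (nat_lit 10))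
    (@En.n l28 (nat_lit 800) (nat_lit 3) (nat_lit 4))
    (@En.i (nat_lit 13123) (nat_lit 11) (nat_lit 7))
    (@En.n l170 (nat_lit 735) (nat_lit 5) (nat_lit 4))
    (@En.i (nat_lit 459) (nat_lit 14) (nat_lit 8))
    (@En.n l5234 (nat_lit 731) (nat_lit 8) (nat_lit 12))
    (@En.n l107 (nat_lit 808) (nat_lit 8) (nat_lit 2))
    (@En.n l13079 (nat_lit 807) (nat_lit 10) (nat_lit 12))
    (@En.n l4684 (nat_lit 850) (nat_lit 11) (nat_lit 14))
    (@En.n l13080 (nat_lit 814) (nat_lit 12) (nat_lit 9))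
    (@En.n l699 (nat_lit 13498) (nat_lit 12) (nat_lit 6))
    (@En.n l1063 (nat_lit 806) (nat_lit 4) (nat_lit 3))
    (@En.i (nat_lit 1193) (nat_lit 0) (nat_lit 8))
    (@En.n l18 (nat_lit 808) (nat_lit 15) (nat_lit 2))))
  (@Cl.mk (nat_lit 0x200060009000e000c0002000c000a000400070004000a000d0006000e0003) (nat_lit 0x7920210004b000) (nat_lit 16) Lb.e (@T16.mk En
    (@En.i (nat_lit 806) (nat_lit 5) (nat_lit 3))
    (@En.n l699 (nat_lit 13498) (nat_lit 0) (nat_lit 14))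
    (@En.i (nat_lit 1475) (nat_lit 2) (nat_lit 6))
    (@En.i (nat_lit 832) (nat_lit 5) (nat_lit 13))
    (@En.n l4829 (nat_lit 805) (nat_lit 10) (nat_lit 10))
    (@En.n l28 (nat_lit 799) (nat_lit 5) (nat_lit 4))
    (@En.i (nat_lit 13120) (nat_lit 11) (nat_lit 7))
    (@En.n l170 (nat_lit 653) (nat_lit 7) (nat_lit 4))
    (@En.n l77 (nat_lit 395) (nat_lit 9) (nat_lit 10))
    (@En.n l2568 (nat_lit 730) (nat_lit 10) (nat_lit 12))
    (@En.n l107 (nat_lit 809) (nat_lit 10) (nat_lit 2))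
    (@En.i (nat_lit 822) (nat_lit 12) (nat_lit 12))
    (@En.n l97 (nat_lit 851) (nat_lit 13) (nat_lit 14))
    (@En.n l387 (nat_lit 812) (nat_lit 14) (nat_lit 9))
    (@En.n l1738 (nat_lit 806) (nat_lit 3) (nat_lit 6))
    (@En.n l18 (nat_lit 809) (nat_lit 15) (nat_lit 2))))
  (@Cl.mk (nat_lit 0x2000b000800040007000e00050002000d000d0008000300030009000e000c) (nat_lit 0x60000000600) (nat_lit 16) Lb.e (@T16.mk En
    (@En.n l25395 (nat_lit 813) (nat_lit 8) (nat_lit 12))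
    (@En.n l14921 (nat_lit 1948) (nat_lit 1) (nat_lit 14))
    (@En.i (nat_lit 5456) (nat_lit 2) (nat_lit 9))
    (@En.n l4125 (nat_lit 814) (nat_lit 13) (nat_lit 3))
    (@En.n l18 (nat_lit 812) (nat_lit 0) (nat_lit 3))
    (@En.i (nat_lit 1971) (nat_lit 0) (nat_lit 8))
    (@En.n l61 (nat_lit 812) (nat_lit 3) (nat_lit 13))
    (@En.n l564 (nat_lit 5466) (nat_lit 8) (nat_lit 13))
    (@En.n l7 (nat_lit 810) (nat_lit 8) (nat_lit 2))
    (@En.n l28 (nat_lit 1967) (nat_lit 9) (nat_lit 5))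
    (@En.n l1643 (nat_lit 675) (nat_lit 1) (nat_lit 14))
    (@En.i (nat_lit 13493) (nat_lit 11) (nat_lit 7))
    (@En.n l14921 (nat_lit 4062) (nat_lit 3) (nat_lit 4))
    (@En.i (nat_lit 850) (nat_lit 14) (nat_lit 8))
    (@En.i (nat_lit 6109) (nat_lit 10) (nat_lit 11))
    (@En.n l107 (nat_lit 810) (nat_lit 15) (nat_lit 2))))
  (@Cl.mk (nat_lit 0x20009000c000c000a0008000400040007000e00060002000d0008000e0003) (nat_lit 0x600010002000000) (nat_lit 16) Lb.e (@T16.mk En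
    (@En.n l25395 (nat_lit 813) (nat_lit 11) (nat_lit 3))
    (@En.n l4718 (nat_lit 13403) (nat_lit 0) (nat_lit 14))
    (@En.n l13383 (nat_lit 1812) (nat_lit 2) (nat_lit 8))
    (@En.n l564 (nat_lit 5468) (nat_lit 2) (nat_lit 13))
    (@En.n l7 (nat_lit 811) (nat_lit 4) (nat_lit 2))
    (@En.n l28 (nat_lit 1966) (nat_lit 5) (nat_lit 6))
    (@En.n l1643 (nat_lit 673) (nat_lit 7) (nat_lit 14))
    (@En.n l3 (nat_lit 812) (nat_lit 7) (nat_lit 7))
    (@En.n l527 (nat_lit 812) (nat_lit 8) (nat_lit 4))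
    (@En.n l4718 (nat_lit 4065) (nat_lit 9) (nat_lit 4))
    (@En.n l13383 (nat_lit 675) (nat_lit 11) (nat_lit 8))
    (@En.n l180 (nat_lit 6106) (nat_lit 12) (nat_lit 10))
    (@En.n l26045 (nat_lit 817) (nat_lit 4) (nat_lit 12))
    (@En.n l13383 (nat_lit 3942) (nat_lit 14) (nat_lit 12))
    (@En.n l3682 (nat_lit 819) (nat_lit 10) (nat_lit 9))
    (@En.n l17 (nat_lit 811) (nat_lit 15) (nat_lit 2))))
  (@Cl.mk (nat_lit 0x20009000e000c0002000b000900040007000e00050002000d0007000e0003) (nat_lit 0x60100000600b000) (nat_lit 16) Lb.e (@T16.mk En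
    (@En.i (nat_lit 810) (nat_lit 4) (nat_lit 3))
    (@En.i (nat_lit 13405) (nat_lit 0) (nat_lit 14))
    (@En.i (nat_lit 1815) (nat_lit 14) (nat_lit 7))
    (@En.n l564 (nat_lit 5469) (nat_lit 8) (nat_lit 13))
    (@En.n l7 (nat_lit 812) (nat_lit 4) (nat_lit 2))
    (@En.n l28 (nat_lit 1968) (nat_lit 5) (nat_lit 5))
    (@En.n l1643 (nat_lit 865) (nat_lit 7) (nat_lit 14))
    (@En.i (nat_lit 13492) (nat_lit 11) (nat_lit 7))
    (@En.i (nat_lit 4064) (nat_lit 8) (nat_lit 4))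
    (@En.i (nat_lit 864) (nat_lit 14) (nat_lit 9))
    (@En.i (nat_lit 6107) (nat_lit 11) (nat_lit 11))
    (@En.n l107 (nat_lit 812) (nat_lit 11) (nat_lit 2))
    (@En.i (nat_lit 811) (nat_lit 13) (nat_lit 12))
    (@En.n l97 (nat_lit 1947) (nat_lit 1) (nat_lit 14))
    (@En.i (nat_lit 821) (nat_lit 2) (nat_lit 9))
    (@En.n l17 (nat_lit 812) (nat_lit 15) (nat_lit 2))))
  (@Cl.mk (nat_lit 0x2000d000d0009000300030009000c000c000a0007000400040007000e0006) (nat_lit 0x10007a00000020) (nat_lit 16) Lb.e (@T16.mk En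
    (@En.n l25792 (nat_lit 1965) (nat_lit 4) (nat_lit 6))
    (@En.n l2698 (nat_lit 438) (nat_lit 1) (nat_lit 14))
    (@En.n l25793 (nat_lit 810) (nat_lit 11) (nat_lit 7))
    (@En.n l25794 (nat_lit 810) (nat_lit 12) (nat_lit 4))
    (@En.i (nat_lit 4063) (nat_lit 4) (nat_lit 4))
    (@En.n l8195 (nat_lit 439) (nat_lit 5) (nat_lit 7))
    (@En.n l55 (nat_lit 6108) (nat_lit 11) (nat_lit 10))
    (@En.n l19044 (nat_lit 816) (nat_lit 4) (nat_lit 12))
    (@En.i (nat_lit 3940) (nat_lit 9) (nat_lit 12))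
    (@En.n l476 (nat_lit 820) (nat_lit 10) (nat_lit 9))
    (@En.n l152 (nat_lit 815) (nat_lit 13) (nat_lit 3))
    (@En.n l25795 (nat_lit 811) (nat_lit 0) (nat_lit 3))
    (@En.n l97 (nat_lit 1970) (nat_lit 0) (nat_lit 9))
    (@En.n l25796 (nat_lit 811) (nat_lit 3) (nat_lit 13))
    (@En.n l25797 (nat_lit 5467) (nat_lit 2) (nat_lit 13))
    (@En.n l17 (nat_lit 813) (nat_lit 15) (nat_lit 2))))
  (@Cl.mk (nat_lit 0x2000900030009000e000c0002000b000700040007000e00050002000e000d) (nat_lit 0x6000000060001) (nat_lit 16) Lb.e (@T16.mk En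
    (@En.n l13374 (nat_lit 810) (nat_lit 7) (nat_lit 13))
    (@En.i (nat_lit 7628) (nat_lit 1) (nat_lit 14))
    (@En.n l17 (nat_lit 814) (nat_lit 2) (nat_lit 2))
    (@En.n l13375 (nat_lit 2358) (nat_lit 3) (nat_lit 5))
    (@En.n l998 (nat_lit 864) (nat_lit 5) (nat_lit 14))
    (@En.n l11297 (nat_lit 13494) (nat_lit 11) (nat_lit 7))
    (@En.i (nat_lit 4060) (nat_lit 6) (nat_lit 4))
    (@En.n l452 (nat_lit 836) (nat_lit 14) (nat_lit 7))
    (@En.n l13376 (nat_lit 6112) (nat_lit 9) (nat_lit 11))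
    (@En.n l28 (nat_lit 814) (nat_lit 9) (nat_lit 2))
    (@En.n l77 (nat_lit 815) (nat_lit 11) (nat_lit 12))
    (@En.i (nat_lit 1949) (nat_lit 12) (nat_lit 14))
    (@En.n l998 (nat_lit 3207) (nat_lit 2) (nat_lit 9))
    (@En.n l13377 (nat_lit 810) (nat_lit 3) (nat_lit 3))
    (@En.n l13378 (nat_lit 1982) (nat_lit 12) (nat_lit 9))
    (@En.n l3 (nat_lit 814) (nat_lit 15) (nat_lit 2))))
  (@Cl.mk (nat_lit 0x2000a00030009000c000c000a0006000400040007000e00060002000e000d) (nat_lit 0x6a00000020001) (nat_lit 16) Lb.e (@T16.mk En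
    (@En.i (nat_lit 813) (nat_lit 14) (nat_lit 13))
    (@En.i (nat_lit 7610) (nat_lit 1) (nat_lit 14))
    (@En.n l17 (nat_lit 815) (nat_lit 2) (nat_lit 2))
    (@En.n l12329 (nat_lit 2069) (nat_lit 3) (nat_lit 6))
    (@En.n l998 (nat_lit 674) (nat_lit 5) (nat_lit 14))
    (@En.n l4172 (nat_lit 814) (nat_lit 5) (nat_lit 7))
    (@En.n l237 (nat_lit 814) (nat_lit 6) (nat_lit 4))
    (@En.i (nat_lit 4059) (nat_lit 7) (nat_lit 4))
    (@En.n l6842 (nat_lit 629) (nat_lit 8) (nat_lit 6))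
    (@En.n l12330 (nat_lit 6156) (nat_lit 10) (nat_lit 10))
    (@En.n l134 (nat_lit 818) (nat_lit 4) (nat_lit 12))
    (@En.i (nat_lit 3941) (nat_lit 12) (nat_lit 12))
    (@En.n l998 (nat_lit 3206) (nat_lit 13) (nat_lit 9))
    (@En.n l117 (nat_lit 813) (nat_lit 10) (nat_lit 3))
    (@En.i (nat_lit 1934) (nat_lit 12) (nat_lit 10))
    (@En.n l3 (nat_lit 815) (nat_lit 15) (nat_lit 2))))
noncomputable def a51 : T16 Cl := @T16.mk Cl
  (@Cl.mk (nat_lit 0x20007000e00070002000d000d000a000300030009000c00090006000e0004) (nat_lit 0x300000006a0000) (nat_lit 16) Lb.e (@T16.mk En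
    (@En.n l8936 (nat_lit 813) (nat_lit 4) (nat_lit 4))
    (@En.n l12115 (nat_lit 1207) (nat_lit 1) (nat_lit 14))
    (@En.i (nat_lit 851) (nat_lit 2) (nat_lit 6))
    (@En.n l12116 (nat_lit 6161) (nat_lit 3) (nat_lit 9))
    (@En.i (nat_lit 3931) (nat_lit 9) (nat_lit 12))
    (@En.n l1599 (nat_lit 8228) (nat_lit 5) (nat_lit 9))
    (@En.n l12117 (nat_lit 818) (nat_lit 6) (nat_lit 3))
    (@En.n l1393 (nat_lit 817) (nat_lit 7) (nat_lit 3))
    (@En.n l457 (nat_lit 1972) (nat_lit 9) (nat_lit 10))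
    (@En.n l5987 (nat_lit 817) (nat_lit 10) (nat_lit 13))
    (@En.n l12118 (nat_lit 7605) (nat_lit 11) (nat_lit 13))
    (@En.n l3 (nat_lit 816) (nat_lit 11) (nat_lit 2))
    (@En.n l5073 (nat_lit 2068) (nat_lit 13) (nat_lit 7))
    (@En.n l12119 (nat_lit 670) (nat_lit 1) (nat_lit 14))
    (@En.n l12115 (nat_lit 813) (nat_lit 2) (nat_lit 7))
    (@En.n l18 (nat_lit 816) (nat_lit 15) (nat_lit 2))))
  (@Cl.mk (nat_lit 0x20007000e00070002000d0009000e000300020009000c00090007000e0004) (nat_lit 0x300b00006a0000) (nat_lit 16) Lb.e (@T16.mk En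
    (@En.n l13444 (nat_lit 811) (nat_lit 9) (nat_lit 4))
    (@En.i (nat_lit 1206) (nat_lit 11) (nat_lit 14))
    (@En.n l1347 (nat_lit 865) (nat_lit 2) (nat_lit 7))
    (@En.n l7707 (nat_lit 6163) (nat_lit 3) (nat_lit 9))
    (@En.i (nat_lit 3937) (nat_lit 14) (nat_lit 12))
    (@En.n l1501 (nat_lit 8229) (nat_lit 5) (nat_lit 9))
    (@En.n l17 (nat_lit 817) (nat_lit 6) (nat_lit 2))
    (@En.n l4019 (nat_lit 816) (nat_lit 7) (nat_lit 3))
    (@En.n l10295 (nat_lit 13404) (nat_lit 0) (nat_lit 14))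
    (@En.n l1347 (nat_lit 1811) (nat_lit 2) (nat_lit 9))
    (@En.n l7843 (nat_lit 7603) (nat_lit 11) (nat_lit 13))
    (@En.n l7 (nat_lit 817) (nat_lit 11) (nat_lit 2))
    (@En.n l810 (nat_lit 1969) (nat_lit 13) (nat_lit 7))
    (@En.n l10295 (nat_lit 671) (nat_lit 7) (nat_lit 14))
    (@En.n l13445 (nat_lit 811) (nat_lit 7) (nat_lit 7))
    (@En.n l107 (nat_lit 817) (nat_lit 15) (nat_lit 2))))
  (@Cl.mk (nat_lit 0x20007000e00070002000e000d0002000b00030009000c00090005000e0004) (nat_lit 0x300010006a0000) (nat_lit 16) Lb.e (@T16.mk En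
    (@En.n l28 (nat_lit 815) (nat_lit 7) (nat_lit 4))
    (@En.n l5592 (nat_lit 1210) (nat_lit 9) (nat_lit 14))
    (@En.n l685 (nat_lit 837) (nat_lit 2) (nat_lit 5))
    (@En.n l25434 (nat_lit 6160) (nat_lit 3) (nat_lit 9))
    (@En.i (nat_lit 3933) (nat_lit 12) (nat_lit 12))
    (@En.n l998 (nat_lit 3468) (nat_lit 5) (nat_lit 9))
    (@En.n l7833 (nat_lit 816) (nat_lit 6) (nat_lit 3))
    (@En.n l278 (nat_lit 1933) (nat_lit 0) (nat_lit 11))
    (@En.n l3 (nat_lit 818) (nat_lit 8) (nat_lit 2))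
    (@En.n l1422 (nat_lit 816) (nat_lit 10) (nat_lit 13))
    (@En.i (nat_lit 7609) (nat_lit 1) (nat_lit 14))
    (@En.n l17 (nat_lit 818) (nat_lit 11) (nat_lit 2))
    (@En.n l25435 (nat_lit 2070) (nat_lit 13) (nat_lit 7))
    (@En.n l998 (nat_lit 672) (nat_lit 1) (nat_lit 14))
    (@En.n l5592 (nat_lit 815) (nat_lit 5) (nat_lit 7))
    (@En.n l7 (nat_lit 818) (nat_lit 15) (nat_lit 2))))
  (@Cl.mk (nat_lit 0x2000d0009000600030009000c000c00090007000400040007000a000e0007) (nat_lit 0x50000000030) (nat_lit 16) Lb.e (@T16.mk En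
    (@En.n l26103 (nat_lit 5189) (nat_lit 4) (nat_lit 7))
    (@En.n l20181 (nat_lit 813) (nat_lit 1) (nat_lit 14))
    (@En.n l13296 (nat_lit 7536) (nat_lit 2) (nat_lit 10))
    (@En.n l5299 (nat_lit 821) (nat_lit 11) (nat_lit 7))
    (@En.n l5300 (nat_lit 821) (nat_lit 12) (nat_lit 4))
    (@En.n l20181 (nat_lit 8238) (nat_lit 5) (nat_lit 4))
    (@En.i (nat_lit 806) (nat_lit 6) (nat_lit 7))
    (@En.n l5302 (nat_lit 6151) (nat_lit 12) (nat_lit 9))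
    (@En.n l217 (nat_lit 8229) (nat_lit 4) (nat_lit 12))
    (@En.i (nat_lit 6283) (nat_lit 6) (nat_lit 12))
    (@En.n l4829 (nat_lit 5458) (nat_lit 11) (nat_lit 9))
    (@En.n l26034 (nat_lit 820) (nat_lit 11) (nat_lit 3))
    (@En.n l26104 (nat_lit 6028) (nat_lit 0) (nat_lit 6))
    (@En.i (nat_lit 952) (nat_lit 14) (nat_lit 9))
    (@En.n l26105 (nat_lit 5465) (nat_lit 2) (nat_lit 13))
    (@En.n l107 (nat_lit 819) (nat_lit 15) (nat_lit 2))))
  (@Cl.mk (nat_lit 0x2000d0005000a00030009000c000c00090006000400040007000b000e0007) (nat_lit 0x60000000030) (nat_lit 16) Lb.e (@T16.mk En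
    (@En.n l9775 (nat_lit 5186) (nat_lit 4) (nat_lit 7))
    (@En.i (nat_lit 815) (nat_lit 4) (nat_lit 14))
    (@En.n l245 (nat_lit 7691) (nat_lit 2) (nat_lit 11))
    (@En.n l16400 (nat_lit 5456) (nat_lit 11) (nat_lit 7))
    (@En.n l16401 (nat_lit 5456) (nat_lit 12) (nat_lit 4))
    (@En.i (nat_lit 8236) (nat_lit 5) (nat_lit 4))
    (@En.n l16402 (nat_lit 798) (nat_lit 6) (nat_lit 6))
    (@En.n l6615 (nat_lit 6152) (nat_lit 12) (nat_lit 9))
    (@En.n l7111 (nat_lit 8228) (nat_lit 4) (nat_lit 12))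
    (@En.i (nat_lit 6284) (nat_lit 6) (nat_lit 12))
    (@En.n l6172 (nat_lit 3199) (nat_lit 11) (nat_lit 9))
    (@En.n l16402 (nat_lit 819) (nat_lit 11) (nat_lit 3))
    (@En.n l16403 (nat_lit 1624) (nat_lit 0) (nat_lit 10))
    (@En.n l16404 (nat_lit 5458) (nat_lit 14) (nat_lit 5))
    (@En.n l16405 (nat_lit 5463) (nat_lit 2) (nat_lit 13))
    (@En.n l17 (nat_lit 820) (nat_lit 15) (nat_lit 2))))
  (@Cl.mk (nat_lit 0x2000a000800040007000a000e00060002000d0008000600030009000e000c) (nat_lit 0x10007000000501) (nat_lit 16) Lb.e (@T16.mk En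
    (@En.n l3682 (nat_lit 819) (nat_lit 9) (nat_lit 12))
    (@En.n l23902 (nat_lit 6295) (nat_lit 1) (nat_lit 14))
    (@En.n l11834 (nat_lit 5457) (nat_lit 11) (nat_lit 9))
    (@En.i (nat_lit 5456) (nat_lit 3) (nat_lit 3))
    (@En.n l1252 (nat_lit 6046) (nat_lit 4) (nat_lit 6))
    (@En.n l1501 (nat_lit 953) (nat_lit 14) (nat_lit 8))
    (@En.n l564 (nat_lit 5464) (nat_lit 7) (nat_lit 13))
    (@En.n l7 (nat_lit 821) (nat_lit 7) (nat_lit 2))
    (@En.n l28 (nat_lit 5461) (nat_lit 8) (nat_lit 6))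
    (@En.n l617 (nat_lit 810) (nat_lit 10) (nat_lit 14))
    (@En.n l781 (nat_lit 8284) (nat_lit 11) (nat_lit 10))
    (@En.i (nat_lit 13321) (nat_lit 11) (nat_lit 7))
    (@En.n l23902 (nat_lit 8354) (nat_lit 4) (nat_lit 4))
    (@En.n l1501 (nat_lit 808) (nat_lit 14) (nat_lit 8))
    (@En.i (nat_lit 6155) (nat_lit 1) (nat_lit 10))
    (@En.n l107 (nat_lit 821) (nat_lit 15) (nat_lit 2))))
  (@Cl.mk (nat_lit 0x200060009000c000c000b00090004000400070005000a000d0007000e0003) (nat_lit 0x7121100005b000) (nat_lit 16) Lb.e (@T16.mk En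
    (@En.i (nat_lit 736) (nat_lit 15) (nat_lit 3))
    (@En.n l13079 (nat_lit 13499) (nat_lit 0) (nat_lit 14))
    (@En.i (nat_lit 1476) (nat_lit 2) (nat_lit 7))
    (@En.i (nat_lit 829) (nat_lit 5) (nat_lit 13))
    (@En.n l4829 (nat_lit 783) (nat_lit 4) (nat_lit 10))
    (@En.n l28 (nat_lit 795) (nat_lit 5) (nat_lit 5))
    (@En.n l3 (nat_lit 809) (nat_lit 6) (nat_lit 7))
    (@En.n l527 (nat_lit 809) (nat_lit 7) (nat_lit 4))
    (@En.n l13079 (nat_lit 724) (nat_lit 8) (nat_lit 4))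
    (@En.n l11780 (nat_lit 393) (nat_lit 10) (nat_lit 9))
    (@En.n l180 (nat_lit 733) (nat_lit 11) (nat_lit 11))
    (@En.n l27362 (nat_lit 824) (nat_lit 12) (nat_lit 12))
    (@En.n l1142 (nat_lit 433) (nat_lit 6) (nat_lit 12))
    (@En.n l387 (nat_lit 811) (nat_lit 14) (nat_lit 9))
    (@En.n l1738 (nat_lit 736) (nat_lit 13) (nat_lit 6))
    (@En.n l18 (nat_lit 822) (nat_lit 15) (nat_lit 2))))
  (@Cl.mk (nat_lit 0x200070006000a000d000d00090003000300060009000c000a0007000e0004) (nat_lit 0x60000007910c0) (nat_lit 16) Lb.e (@T16.mk En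
    (@En.n l5505 (nat_lit 736) (nat_lit 7) (nat_lit 4))
    (@En.n l649 (nat_lit 539) (nat_lit 1) (nat_lit 14))
    (@En.n l1863 (nat_lit 394) (nat_lit 2) (nat_lit 7))
    (@En.n l5506 (nat_lit 630) (nat_lit 3) (nat_lit 10))
    (@En.n l5507 (nat_lit 655) (nat_lit 6) (nat_lit 12))
    (@En.n l1863 (nat_lit 816) (nat_lit 5) (nat_lit 9))
    (@En.n l5508 (nat_lit 825) (nat_lit 6) (nat_lit 6))
    (@En.n l5509 (nat_lit 825) (nat_lit 7) (nat_lit 3))
    (@En.n l5510 (nat_lit 824) (nat_lit 0) (nat_lit 3))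
    (@En.n l5511 (nat_lit 1510) (nat_lit 10) (nat_lit 9))
    (@En.n l5512 (nat_lit 824) (nat_lit 3) (nat_lit 13))
    (@En.n l226 (nat_lit 826) (nat_lit 12) (nat_lit 13))
    (@En.n l28 (nat_lit 782) (nat_lit 13) (nat_lit 10))
    (@En.n l77 (nat_lit 794) (nat_lit 14) (nat_lit 6))
    (@En.n l5513 (nat_lit 736) (nat_lit 5) (nat_lit 7))
    (@En.n l18 (nat_lit 823) (nat_lit 15) (nat_lit 2))))
  (@Cl.mk (nat_lit 0x200060009000c000a0008000e0004000200070006000a000d0008000e0003) (nat_lit 0x7111c00005b000) (nat_lit 16) Lb.e (@T16.mk En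
    (@En.n l7915 (nat_lit 823) (nat_lit 8) (nat_lit 3))
    (@En.n l5603 (nat_lit 13563) (nat_lit 0) (nat_lit 14))
    (@En.n l3428 (nat_lit 1511) (nat_lit 2) (nat_lit 8))
    (@En.n l3427 (nat_lit 828) (nat_lit 12) (nat_lit 13))
    (@En.n l5928 (nat_lit 788) (nat_lit 4) (nat_lit 10))
    (@En.n l13703 (nat_lit 792) (nat_lit 14) (nat_lit 6))
    (@En.n l13704 (nat_lit 822) (nat_lit 6) (nat_lit 7))
    (@En.n l11 (nat_lit 824) (nat_lit 7) (nat_lit 2))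
    (@En.n l13705 (nat_lit 822) (nat_lit 8) (nat_lit 4))
    (@En.n l11235 (nat_lit 570) (nat_lit 10) (nat_lit 14))
    (@En.n l13706 (nat_lit 391) (nat_lit 2) (nat_lit 8))
    (@En.n l13707 (nat_lit 639) (nat_lit 3) (nat_lit 10))
    (@En.i (nat_lit 657) (nat_lit 13) (nat_lit 12))
    (@En.n l4758 (nat_lit 817) (nat_lit 5) (nat_lit 9))
    (@En.n l13708 (nat_lit 823) (nat_lit 6) (nat_lit 6))
    (@En.n l17 (nat_lit 824) (nat_lit 15) (nat_lit 2))))
  (@Cl.mk (nat_lit 0x200070006000a000e000d0002000a000300060009000c000a0006000e0004) (nat_lit 0x60100007120c0) (nat_lit 16) Lb.e (@T16.mk En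
    (@En.n l7 (nat_lit 807) (nat_lit 6) (nat_lit 4))
    (@En.n l7678 (nat_lit 571) (nat_lit 8) (nat_lit 14))
    (@En.n l278 (nat_lit 458) (nat_lit 2) (nat_lit 6))
    (@En.i (nat_lit 752) (nat_lit 3) (nat_lit 10))
    (@En.n l617 (nat_lit 658) (nat_lit 6) (nat_lit 12))
    (@En.n l781 (nat_lit 818) (nat_lit 5) (nat_lit 9))
    (@En.i (nat_lit 13563) (nat_lit 12) (nat_lit 6))
    (@En.n l2692 (nat_lit 823) (nat_lit 7) (nat_lit 3))
    (@En.n l7678 (nat_lit 1450) (nat_lit 0) (nat_lit 10))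
    (@En.n l107 (nat_lit 825) (nat_lit 9) (nat_lit 2))
    (@En.n l13702 (nat_lit 823) (nat_lit 11) (nat_lit 13))
    (@En.n l5547 (nat_lit 2217) (nat_lit 12) (nat_lit 14))
    (@En.n l5549 (nat_lit 787) (nat_lit 13) (nat_lit 10))
    (@En.n l4793 (nat_lit 793) (nat_lit 14) (nat_lit 6))
    (@En.n l252 (nat_lit 807) (nat_lit 4) (nat_lit 7))
    (@En.n l50 (nat_lit 825) (nat_lit 15) (nat_lit 2))))
  (@Cl.mk (nat_lit 0x200070006000d000c00080003000e000400020009000c000a0008000e0004) (nat_lit 0xb000100010100) (nat_lit 16) Lb.e (@T16.mk En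
    (@En.n l11830 (nat_lit 827) (nat_lit 9) (nat_lit 4))
    (@En.i (nat_lit 3771) (nat_lit 11) (nat_lit 14))
    (@En.n l1262 (nat_lit 673) (nat_lit 2) (nat_lit 8))
    (@En.n l11831 (nat_lit 3639) (nat_lit 3) (nat_lit 10))
    (@En.n l2038 (nat_lit 663) (nat_lit 6) (nat_lit 12))
    (@En.i (nat_lit 7605) (nat_lit 5) (nat_lit 9))
    (@En.n l17 (nat_lit 826) (nat_lit 6) (nat_lit 2))
    (@En.n l1262 (nat_lit 2221) (nat_lit 7) (nat_lit 4))
    (@En.n l11832 (nat_lit 824) (nat_lit 1) (nat_lit 14))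
    (@En.n l50 (nat_lit 828) (nat_lit 9) (nat_lit 3))
    (@En.n l1262 (nat_lit 1942) (nat_lit 11) (nat_lit 8))
    (@En.n l217 (nat_lit 830) (nat_lit 12) (nat_lit 12))
    (@En.n l476 (nat_lit 7881) (nat_lit 13) (nat_lit 13))
    (@En.n l1769 (nat_lit 2292) (nat_lit 14) (nat_lit 6))
    (@En.n l11833 (nat_lit 827) (nat_lit 7) (nat_lit 7))
    (@En.n l11 (nat_lit 826) (nat_lit 15) (nat_lit 2))))
  (@Cl.mk (nat_lit 0x20009000c000c000b00090004000400070005000d000c00070003000e0004) (nat_lit 0x2010000b00010) (nat_lit 16) Lb.e (@T16.mk En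
    (@En.n l50 (nat_lit 835) (nat_lit 14) (nat_lit 4))
    (@En.n l5 (nat_lit 822) (nat_lit 1) (nat_lit 14))
    (@En.n l50 (nat_lit 829) (nat_lit 2) (nat_lit 3))
    (@En.n l14530 (nat_lit 1931) (nat_lit 3) (nat_lit 7))
    (@En.n l217 (nat_lit 831) (nat_lit 4) (nat_lit 12))
    (@En.n l14531 (nat_lit 7882) (nat_lit 6) (nat_lit 13))
    (@En.n l28 (nat_lit 2225) (nat_lit 6) (nat_lit 5))
    (@En.n l3 (nat_lit 834) (nat_lit 7) (nat_lit 7))
    (@En.n l527 (nat_lit 834) (nat_lit 8) (nat_lit 4))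
    (@En.n l11778 (nat_lit 3649) (nat_lit 9) (nat_lit 4))
    (@En.n l180 (nat_lit 438) (nat_lit 11) (nat_lit 9))
    (@En.n l180 (nat_lit 4376) (nat_lit 12) (nat_lit 11))
    (@En.n l14532 (nat_lit 826) (nat_lit 4) (nat_lit 12))
    (@En.n l1142 (nat_lit 2668) (nat_lit 6) (nat_lit 12))
    (@En.i (nat_lit 5467) (nat_lit 12) (nat_lit 9))
    (@En.n l17 (nat_lit 827) (nat_lit 15) (nat_lit 2))))
  (@Cl.mk (nat_lit 0x200070006000d0007000d0003000e000300020009000c000a0009000e0004) (nat_lit 0xa000300010000) (nat_lit 16) Lb.e (@T16.mk En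
    (@En.n l11830 (nat_lit 829) (nat_lit 9) (nat_lit 4))
    (@En.i (nat_lit 3766) (nat_lit 11) (nat_lit 14))
    (@En.n l4758 (nat_lit 845) (nat_lit 2) (nat_lit 9))
    (@En.n l11831 (nat_lit 3604) (nat_lit 3) (nat_lit 10))
    (@En.n l2038 (nat_lit 662) (nat_lit 6) (nat_lit 12))
    (@En.i (nat_lit 7603) (nat_lit 5) (nat_lit 9))
    (@En.n l17 (nat_lit 828) (nat_lit 6) (nat_lit 2))
    (@En.i (nat_lit 830) (nat_lit 7) (nat_lit 3))
    (@En.n l476 (nat_lit 13925) (nat_lit 0) (nat_lit 14))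
    (@En.i (nat_lit 826) (nat_lit 9) (nat_lit 3))
    (@En.n l3902 (nat_lit 2215) (nat_lit 11) (nat_lit 13))
    (@En.i (nat_lit 1969) (nat_lit 12) (nat_lit 7))
    (@En.n l476 (nat_lit 7880) (nat_lit 13) (nat_lit 13))
    (@En.n l1769 (nat_lit 2293) (nat_lit 14) (nat_lit 6))
    (@En.n l11833 (nat_lit 829) (nat_lit 7) (nat_lit 7))
    (@En.n l11 (nat_lit 828) (nat_lit 15) (nat_lit 2))))
  (@Cl.mk (nat_lit 0x20009000c000c000b000a0004000400070005000d0006000d0003000e0003) (nat_lit 0x602000000a00030) (nat_lit 16) Lb.e (@T16.mk En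
    (@En.i (nat_lit 831) (nat_lit 15) (nat_lit 3))
    (@En.i (nat_lit 13728) (nat_lit 0) (nat_lit 14))
    (@En.i (nat_lit 827) (nat_lit 2) (nat_lit 3))
    (@En.n l1643 (nat_lit 2213) (nat_lit 0) (nat_lit 13))
    (@En.n l28 (nat_lit 1966) (nat_lit 4) (nat_lit 6))
    (@En.n l14531 (nat_lit 7879) (nat_lit 6) (nat_lit 13))
    (@En.n l28 (nat_lit 2227) (nat_lit 6) (nat_lit 5))
    (@En.n l3 (nat_lit 832) (nat_lit 7) (nat_lit 7))
    (@En.n l527 (nat_lit 832) (nat_lit 8) (nat_lit 4))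
    (@En.n l11778 (nat_lit 4367) (nat_lit 9) (nat_lit 4))
    (@En.n l11780 (nat_lit 841) (nat_lit 11) (nat_lit 10))
    (@En.n l180 (nat_lit 4374) (nat_lit 12) (nat_lit 11))
    (@En.n l14532 (nat_lit 828) (nat_lit 4) (nat_lit 12))
    (@En.n l1142 (nat_lit 2669) (nat_lit 6) (nat_lit 12))
    (@En.i (nat_lit 5468) (nat_lit 12) (nat_lit 9))
    (@En.n l17 (nat_lit 829) (nat_lit 15) (nat_lit 2))))
  (@Cl.mk (nat_lit 0x200070006000c0007000d000d0004000300030009000c000a0009000e0004) (nat_lit 0xa001000610000) (nat_lit 16) Lb.e (@T16.mk En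
    (@En.n l11830 (nat_lit 831) (nat_lit 8) (nat_lit 4))
    (@En.i (nat_lit 3768) (nat_lit 1) (nat_lit 14))
    (@En.n l4758 (nat_lit 839) (nat_lit 2) (nat_lit 9))
    (@En.n l11831 (nat_lit 3600) (nat_lit 3) (nat_lit 10))
    (@En.n l2038 (nat_lit 666) (nat_lit 6) (nat_lit 12))
    (@En.n l11792 (nat_lit 7601) (nat_lit 5) (nat_lit 9))
    (@En.n l3519 (nat_lit 2658) (nat_lit 13) (nat_lit 3))
    (@En.n l18 (nat_lit 828) (nat_lit 7) (nat_lit 3))
    (@En.n l11793 (nat_lit 2656) (nat_lit 0) (nat_lit 4))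
    (@En.n l61 (nat_lit 828) (nat_lit 10) (nat_lit 13))
    (@En.n l11794 (nat_lit 2216) (nat_lit 11) (nat_lit 13))
    (@En.i (nat_lit 2068) (nat_lit 12) (nat_lit 7))
    (@En.n l3517 (nat_lit 7878) (nat_lit 13) (nat_lit 12))
    (@En.n l1769 (nat_lit 2286) (nat_lit 14) (nat_lit 6))
    (@En.n l11833 (nat_lit 831) (nat_lit 6) (nat_lit 7))
    (@En.n l11 (nat_lit 830) (nat_lit 15) (nat_lit 2))))
  (@Cl.mk (nat_lit 0x300030009000c000c000b000a0004000400070005000c0006000d000d0004) (nat_lit 0x602000000a0010) (nat_lit 16) Lb.e (@T16.mk En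
    (@En.i (nat_lit 776) (nat_lit 0) (nat_lit 4))
    (@En.n l61 (nat_lit 829) (nat_lit 3) (nat_lit 13))
    (@En.n l27933 (nat_lit 2214) (nat_lit 1) (nat_lit 13))
    (@En.n l28 (nat_lit 1965) (nat_lit 3) (nat_lit 6))
    (@En.n l4909 (nat_lit 7875) (nat_lit 12) (nat_lit 12))
    (@En.n l28 (nat_lit 2226) (nat_lit 5) (nat_lit 5))
    (@En.n l3 (nat_lit 833) (nat_lit 11) (nat_lit 7))
    (@En.n l527 (nat_lit 833) (nat_lit 12) (nat_lit 4))
    (@En.n l27933 (nat_lit 4364) (nat_lit 8) (nat_lit 4))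
    (@En.n l11780 (nat_lit 842) (nat_lit 0) (nat_lit 10))
    (@En.n l180 (nat_lit 2330) (nat_lit 11) (nat_lit 11))
    (@En.n l14532 (nat_lit 830) (nat_lit 4) (nat_lit 12))
    (@En.n l1142 (nat_lit 2664) (nat_lit 6) (nat_lit 12))
    (@En.i (nat_lit 7602) (nat_lit 14) (nat_lit 9))
    (@En.n l2101 (nat_lit 2659) (nat_lit 13) (nat_lit 3))
    (@En.n l18 (nat_lit 829) (nat_lit 0) (nat_lit 3))))
noncomputable def a52 : T16 Cl := @T16.mk Cl
  (@Cl.mk (nat_lit 0x20009000e000c0002000c000b000400070004000d0005000d0003000e0003) (nat_lit 0x691000000a00030) (nat_lit 16) Lb.e (@T16.mk En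
    (@En.i (nat_lit 833) (nat_lit 4) (nat_lit 3))
    (@En.i (nat_lit 13729) (nat_lit 0) (nat_lit 14))
    (@En.i (nat_lit 834) (nat_lit 2) (nat_lit 3))
    (@En.i (nat_lit 2211) (nat_lit 8) (nat_lit 13))
    (@En.n l28 (nat_lit 1968) (nat_lit 4) (nat_lit 5))
    (@En.n l601 (nat_lit 7876) (nat_lit 10) (nat_lit 13))
    (@En.n l28 (nat_lit 2232) (nat_lit 6) (nat_lit 4))
    (@En.i (nat_lit 12984) (nat_lit 11) (nat_lit 7))
    (@En.i (nat_lit 4368) (nat_lit 8) (nat_lit 4))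
    (@En.n l77 (nat_lit 846) (nat_lit 10) (nat_lit 11))
    (@En.i (nat_lit 2375) (nat_lit 11) (nat_lit 12))
    (@En.n l107 (nat_lit 832) (nat_lit 11) (nat_lit 2))
    (@En.i (nat_lit 829) (nat_lit 13) (nat_lit 12))
    (@En.n l97 (nat_lit 2678) (nat_lit 1) (nat_lit 14))
    (@En.i (nat_lit 5469) (nat_lit 2) (nat_lit 9))
    (@En.n l17 (nat_lit 832) (nat_lit 15) (nat_lit 2))))
  (@Cl.mk (nat_lit 0x2000c000b000400070004000c0005000d000d0004000300030009000e000c) (nat_lit 0x1000691) (nat_lit 16) Lb.e (@T16.mk En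
    (@En.i (nat_lit 831) (nat_lit 12) (nat_lit 12))
    (@En.n l97 (nat_lit 2679) (nat_lit 1) (nat_lit 14))
    (@En.i (nat_lit 7612) (nat_lit 2) (nat_lit 9))
    (@En.n l3180 (nat_lit 2661) (nat_lit 13) (nat_lit 3))
    (@En.n l18 (nat_lit 832) (nat_lit 0) (nat_lit 3))
    (@En.i (nat_lit 777) (nat_lit 0) (nat_lit 4))
    (@En.n l61 (nat_lit 832) (nat_lit 3) (nat_lit 13))
    (@En.i (nat_lit 2212) (nat_lit 8) (nat_lit 13))
    (@En.n l28 (nat_lit 1967) (nat_lit 8) (nat_lit 5))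
    (@En.n l4909 (nat_lit 7873) (nat_lit 10) (nat_lit 12))
    (@En.n l28 (nat_lit 2230) (nat_lit 10) (nat_lit 4))
    (@En.i (nat_lit 12983) (nat_lit 11) (nat_lit 7))
    (@En.i (nat_lit 2333) (nat_lit 7) (nat_lit 4))
    (@En.n l77 (nat_lit 840) (nat_lit 14) (nat_lit 11))
    (@En.i (nat_lit 2263) (nat_lit 10) (nat_lit 12))
    (@En.n l107 (nat_lit 833) (nat_lit 15) (nat_lit 2))))
  (@Cl.mk (nat_lit 0x20009000e000c0002000c000a000400070004000d000c00060003000e0004) (nat_lit 0x91001000b10010) (nat_lit 16) Lb.e (@T16.mk En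
    (@En.n l50 (nat_lit 2208) (nat_lit 4) (nat_lit 4))
    (@En.n l5 (nat_lit 809) (nat_lit 1) (nat_lit 14))
    (@En.n l50 (nat_lit 832) (nat_lit 2) (nat_lit 3))
    (@En.n l28 (nat_lit 1930) (nat_lit 3) (nat_lit 6))
    (@En.n l217 (nat_lit 833) (nat_lit 9) (nat_lit 12))
    (@En.n l601 (nat_lit 7885) (nat_lit 10) (nat_lit 13))
    (@En.n l28 (nat_lit 2193) (nat_lit 6) (nat_lit 4))
    (@En.i (nat_lit 12985) (nat_lit 11) (nat_lit 7))
    (@En.i (nat_lit 4371) (nat_lit 8) (nat_lit 4))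
    (@En.i (nat_lit 674) (nat_lit 14) (nat_lit 10))
    (@En.i (nat_lit 4377) (nat_lit 11) (nat_lit 12))
    (@En.n l107 (nat_lit 834) (nat_lit 11) (nat_lit 2))
    (@En.i (nat_lit 827) (nat_lit 13) (nat_lit 12))
    (@En.n l97 (nat_lit 2680) (nat_lit 1) (nat_lit 14))
    (@En.i (nat_lit 5466) (nat_lit 2) (nat_lit 9))
    (@En.n l17 (nat_lit 834) (nat_lit 15) (nat_lit 2))))
  (@Cl.mk (nat_lit 0x4000400040009000c000c000b00080004000400070005000c000c000c0008) (nat_lit 0x4000100000110) (nat_lit 16) Lb.e (@T16.mk En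
    (@En.n l14116 (nat_lit 3314) (nat_lit 0) (nat_lit 8))
    (@En.n l742 (nat_lit 827) (nat_lit 4) (nat_lit 12))
    (@En.n l396 (nat_lit 776) (nat_lit 4) (nat_lit 12))
    (@En.n l14117 (nat_lit 5985) (nat_lit 12) (nat_lit 12))
    (@En.n l28 (nat_lit 2224) (nat_lit 4) (nat_lit 5))
    (@En.n l3 (nat_lit 2208) (nat_lit 11) (nat_lit 7))
    (@En.n l527 (nat_lit 2208) (nat_lit 12) (nat_lit 4))
    (@En.n l14116 (nat_lit 4394) (nat_lit 0) (nat_lit 4))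
    (@En.n l13383 (nat_lit 435) (nat_lit 0) (nat_lit 8))
    (@En.n l180 (nat_lit 4392) (nat_lit 5) (nat_lit 11))
    (@En.n l14118 (nat_lit 2221) (nat_lit 4) (nat_lit 12))
    (@En.n l14116 (nat_lit 2667) (nat_lit 6) (nat_lit 12))
    (@En.n l14119 (nat_lit 7608) (nat_lit 4) (nat_lit 9))
    (@En.n l14120 (nat_lit 888) (nat_lit 12) (nat_lit 4))
    (@En.n l13234 (nat_lit 2209) (nat_lit 12) (nat_lit 4))
    (@En.i (nat_lit 831) (nat_lit 0) (nat_lit 4))))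
  (@Cl.mk (nat_lit 0x2000700030006000e000a0002000e000c0002000900060004000a000e000d) (nat_lit 0x720240000201) (nat_lit 16) Lb.e (@T16.mk En
    (@En.n l1708 (nat_lit 629) (nat_lit 10) (nat_lit 13))
    (@En.n l1427 (nat_lit 3726) (nat_lit 11) (nat_lit 14))
    (@En.n l1014 (nat_lit 602) (nat_lit 2) (nat_lit 10))
    (@En.i (nat_lit 518) (nat_lit 3) (nat_lit 4))
    (@En.n l2227 (nat_lit 844) (nat_lit 14) (nat_lit 6))
    (@En.n l2228 (nat_lit 7588) (nat_lit 12) (nat_lit 9))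
    (@En.n l11 (nat_lit 836) (nat_lit 6) (nat_lit 2))
    (@En.n l2224 (nat_lit 850) (nat_lit 8) (nat_lit 12))
    (@En.n l615 (nat_lit 802) (nat_lit 1) (nat_lit 14))
    (@En.n l3 (nat_lit 836) (nat_lit 9) (nat_lit 2))
    (@En.n l2225 (nat_lit 626) (nat_lit 11) (nat_lit 10))
    (@En.n l4484 (nat_lit 873) (nat_lit 12) (nat_lit 14))
    (@En.n l699 (nat_lit 13496) (nat_lit 12) (nat_lit 6))
    (@En.n l1063 (nat_lit 629) (nat_lit 6) (nat_lit 3))
    (@En.i (nat_lit 1634) (nat_lit 0) (nat_lit 7))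
    (@En.n l18 (nat_lit 836) (nat_lit 15) (nat_lit 2))))
  (@Cl.mk (nat_lit 0x20006000e000a0002000e000c0002000b00060004000a000d0005000e0003) (nat_lit 0x7802400002b000) (nat_lit 16) Lb.e (@T16.mk En
    (@En.i (nat_lit 629) (nat_lit 7) (nat_lit 3))
    (@En.n l699 (nat_lit 13496) (nat_lit 0) (nat_lit 14))
    (@En.i (nat_lit 1626) (nat_lit 2) (nat_lit 5))
    (@En.i (nat_lit 3698) (nat_lit 11) (nat_lit 13))
    (@En.i (nat_lit 601) (nat_lit 4) (nat_lit 10))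
    (@En.i (nat_lit 521) (nat_lit 5) (nat_lit 4))
    (@En.i (nat_lit 843) (nat_lit 14) (nat_lit 6))
    (@En.n l2228 (nat_lit 7594) (nat_lit 8) (nat_lit 11))
    (@En.n l11 (nat_lit 837) (nat_lit 8) (nat_lit 2))
    (@En.n l55 (nat_lit 851) (nat_lit 10) (nat_lit 12))
    (@En.n l2237 (nat_lit 801) (nat_lit 1) (nat_lit 14))
    (@En.n l3 (nat_lit 837) (nat_lit 11) (nat_lit 2))
    (@En.i (nat_lit 627) (nat_lit 13) (nat_lit 10))
    (@En.i (nat_lit 874) (nat_lit 1) (nat_lit 14))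
    (@En.n l1738 (nat_lit 629) (nat_lit 5) (nat_lit 6))
    (@En.n l18 (nat_lit 837) (nat_lit 15) (nat_lit 2))))
  (@Cl.mk (nat_lit 0x200060003000a000d000d000a000300030006000d000a00060003000e000d) (nat_lit 0x7000000220025) (nat_lit 16) Lb.e (@T16.mk En
    (@En.n l5355 (nat_lit 842) (nat_lit 8) (nat_lit 13))
    (@En.n l5356 (nat_lit 630) (nat_lit 1) (nat_lit 14))
    (@En.n l28 (nat_lit 847) (nat_lit 2) (nat_lit 3))
    (@En.n l1787 (nat_lit 815) (nat_lit 3) (nat_lit 6))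
    (@En.n l77 (nat_lit 878) (nat_lit 4) (nat_lit 10))
    (@En.i (nat_lit 507) (nat_lit 6) (nat_lit 13))
    (@En.n l2132 (nat_lit 844) (nat_lit 6) (nat_lit 6))
    (@En.n l2133 (nat_lit 844) (nat_lit 7) (nat_lit 3))
    (@En.n l5357 (nat_lit 843) (nat_lit 8) (nat_lit 3))
    (@En.n l2135 (nat_lit 2353) (nat_lit 10) (nat_lit 10))
    (@En.n l5358 (nat_lit 843) (nat_lit 11) (nat_lit 13))
    (@En.n l1787 (nat_lit 3643) (nat_lit 12) (nat_lit 13))
    (@En.i (nat_lit 486) (nat_lit 13) (nat_lit 10))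
    (@En.n l2705 (nat_lit 842) (nat_lit 4) (nat_lit 3))
    (@En.i (nat_lit 575) (nat_lit 0) (nat_lit 6))
    (@En.n l18 (nat_lit 838) (nat_lit 15) (nat_lit 2))))
  (@Cl.mk (nat_lit 0x20006000d000b00070003000d000d000500030003000a000d0009000e0003) (nat_lit 0x82004500070700) (nat_lit 16) Lb.e (@T16.mk En
    (@En.n l7706 (nat_lit 842) (nat_lit 15) (nat_lit 3))
    (@En.i (nat_lit 13160) (nat_lit 0) (nat_lit 14))
    (@En.n l7425 (nat_lit 2338) (nat_lit 2) (nat_lit 9))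
    (@En.i (nat_lit 3783) (nat_lit 5) (nat_lit 13))
    (@En.n l4806 (nat_lit 733) (nat_lit 4) (nat_lit 10))
    (@En.n l6368 (nat_lit 843) (nat_lit 13) (nat_lit 3))
    (@En.n l18 (nat_lit 845) (nat_lit 6) (nat_lit 3))
    (@En.n l1347 (nat_lit 433) (nat_lit 0) (nat_lit 5))
    (@En.n l61 (nat_lit 845) (nat_lit 9) (nat_lit 13))
    (@En.n l564 (nat_lit 724) (nat_lit 10) (nat_lit 13))
    (@En.n l7 (nat_lit 594) (nat_lit 10) (nat_lit 3))
    (@En.n l4019 (nat_lit 816) (nat_lit 12) (nat_lit 7))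
    (@En.i (nat_lit 587) (nat_lit 13) (nat_lit 11))
    (@En.n l5891 (nat_lit 505) (nat_lit 14) (nat_lit 13))
    (@En.n l4870 (nat_lit 842) (nat_lit 13) (nat_lit 6))
    (@En.n l107 (nat_lit 839) (nat_lit 15) (nat_lit 2))))
  (@Cl.mk (nat_lit 0x2000b00030006000d000b00050003000d000d000500030003000a000e000d) (nat_lit 0x900820045000700) (nat_lit 16) Lb.e (@T16.mk En
    (@En.n l180 (nat_lit 842) (nat_lit 2) (nat_lit 13))
    (@En.n l619 (nat_lit 3824) (nat_lit 1) (nat_lit 14))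
    (@En.i (nat_lit 734) (nat_lit 2) (nat_lit 10))
    (@En.i (nat_lit 844) (nat_lit 13) (nat_lit 3))
    (@En.n l18 (nat_lit 846) (nat_lit 0) (nat_lit 3))
    (@En.n l7 (nat_lit 434) (nat_lit 0) (nat_lit 5))
    (@En.n l61 (nat_lit 846) (nat_lit 3) (nat_lit 13))
    (@En.n l564 (nat_lit 725) (nat_lit 8) (nat_lit 13))
    (@En.n l7 (nat_lit 595) (nat_lit 8) (nat_lit 3))
    (@En.i (nat_lit 810) (nat_lit 9) (nat_lit 5))
    (@En.i (nat_lit 588) (nat_lit 11) (nat_lit 11))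
    (@En.n l1643 (nat_lit 508) (nat_lit 12) (nat_lit 13))
    (@En.i (nat_lit 13160) (nat_lit 12) (nat_lit 6))
    (@En.i (nat_lit 842) (nat_lit 14) (nat_lit 3))
    (@En.i (nat_lit 2354) (nat_lit 0) (nat_lit 11))
    (@En.n l107 (nat_lit 840) (nat_lit 15) (nat_lit 2))))
  (@Cl.mk (nat_lit 0x2000a000d000d000a000300030006000d000c00060003000d0004000e0003) (nat_lit 0x700800022004010) (nat_lit 16) Lb.e (@T16.mk En
    (@En.i (nat_lit 842) (nat_lit 5) (nat_lit 3))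
    (@En.i (nat_lit 274) (nat_lit 0) (nat_lit 14))
    (@En.n l7 (nat_lit 438) (nat_lit 2) (nat_lit 4))
    (@En.n l564 (nat_lit 642) (nat_lit 9) (nat_lit 13))
    (@En.n l7 (nat_lit 593) (nat_lit 4) (nat_lit 3))
    (@En.n l5732 (nat_lit 811) (nat_lit 5) (nat_lit 6))
    (@En.n l644 (nat_lit 589) (nat_lit 7) (nat_lit 12))
    (@En.n l615 (nat_lit 506) (nat_lit 8) (nat_lit 13))
    (@En.n l159 (nat_lit 846) (nat_lit 8) (nat_lit 6))
    (@En.n l11 (nat_lit 846) (nat_lit 9) (nat_lit 3))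
    (@En.n l2691 (nat_lit 845) (nat_lit 0) (nat_lit 3))
    (@En.i (nat_lit 2357) (nat_lit 0) (nat_lit 10))
    (@En.n l1572 (nat_lit 845) (nat_lit 3) (nat_lit 13))
    (@En.n l619 (nat_lit 3782) (nat_lit 5) (nat_lit 13))
    (@En.i (nat_lit 645) (nat_lit 3) (nat_lit 10))
    (@En.n l17 (nat_lit 841) (nat_lit 15) (nat_lit 2))))
  (@Cl.mk (nat_lit 0x300030006000d000b00060003000d000d000500030003000a000d000d000a) (nat_lit 0x8200450007b18) (nat_lit 16) Lb.e (@T16.mk En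
    (@En.i (nat_lit 2355) (nat_lit 0) (nat_lit 10))
    (@En.n l1572 (nat_lit 839) (nat_lit 3) (nat_lit 13))
    (@En.n l619 (nat_lit 3645) (nat_lit 5) (nat_lit 13))
    (@En.i (nat_lit 732) (nat_lit 3) (nat_lit 10))
    (@En.n l669 (nat_lit 838) (nat_lit 13) (nat_lit 3))
    (@En.n l18 (nat_lit 841) (nat_lit 0) (nat_lit 3))
    (@En.n l7 (nat_lit 432) (nat_lit 0) (nat_lit 5))
    (@En.n l61 (nat_lit 841) (nat_lit 3) (nat_lit 13))
    (@En.n l564 (nat_lit 648) (nat_lit 9) (nat_lit 13))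
    (@En.n l7 (nat_lit 592) (nat_lit 9) (nat_lit 3))
    (@En.n l13539 (nat_lit 813) (nat_lit 0) (nat_lit 6))
    (@En.i (nat_lit 586) (nat_lit 12) (nat_lit 11))
    (@En.n l615 (nat_lit 502) (nat_lit 7) (nat_lit 13))
    (@En.n l159 (nat_lit 840) (nat_lit 12) (nat_lit 6))
    (@En.n l11 (nat_lit 840) (nat_lit 13) (nat_lit 3))
    (@En.n l2691 (nat_lit 839) (nat_lit 0) (nat_lit 3))))
  (@Cl.mk (nat_lit 0x200060003000a000d0009000e000300020006000d000a00070003000e000d) (nat_lit 0x7b00000280035) (nat_lit 16) Lb.e (@T16.mk En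
    (@En.n l2224 (nat_lit 839) (nat_lit 9) (nat_lit 13))
    (@En.n l2056 (nat_lit 639) (nat_lit 1) (nat_lit 14))
    (@En.n l13304 (nat_lit 848) (nat_lit 2) (nat_lit 3))
    (@En.n l2054 (nat_lit 818) (nat_lit 12) (nat_lit 7))
    (@En.n l2225 (nat_lit 879) (nat_lit 4) (nat_lit 10))
    (@En.n l86 (nat_lit 503) (nat_lit 6) (nat_lit 13))
    (@En.n l13553 (nat_lit 838) (nat_lit 6) (nat_lit 6))
    (@En.n l18 (nat_lit 843) (nat_lit 7) (nat_lit 2))
    (@En.n l2240 (nat_lit 838) (nat_lit 8) (nat_lit 3))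
    (@En.n l2227 (nat_lit 13169) (nat_lit 0) (nat_lit 14))
    (@En.n l916 (nat_lit 2340) (nat_lit 2) (nat_lit 9))
    (@En.i (nat_lit 3787) (nat_lit 12) (nat_lit 13))
    (@En.n l1018 (nat_lit 490) (nat_lit 13) (nat_lit 10))
    (@En.n l1393 (nat_lit 839) (nat_lit 5) (nat_lit 3))
    (@En.n l13306 (nat_lit 893) (nat_lit 6) (nat_lit 6))
    (@En.n l11 (nat_lit 843) (nat_lit 15) (nat_lit 2))))
  (@Cl.mk (nat_lit 0x200060003000a000e000d0002000b00030006000d000a00050003000e000d) (nat_lit 0x7010000720035) (nat_lit 16) Lb.e (@T16.mk En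
    (@En.n l61 (nat_lit 840) (nat_lit 7) (nat_lit 13))
    (@En.n l5336 (nat_lit 752) (nat_lit 1) (nat_lit 14))
    (@En.n l7 (nat_lit 849) (nat_lit 2) (nat_lit 3))
    (@En.n l4125 (nat_lit 814) (nat_lit 3) (nat_lit 5))
    (@En.n l1778 (nat_lit 880) (nat_lit 4) (nat_lit 10))
    (@En.n l2101 (nat_lit 517) (nat_lit 6) (nat_lit 13))
    (@En.i (nat_lit 13169) (nat_lit 12) (nat_lit 6))
    (@En.n l669 (nat_lit 838) (nat_lit 7) (nat_lit 3))
    (@En.n l5331 (nat_lit 2352) (nat_lit 0) (nat_lit 11))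
    (@En.n l107 (nat_lit 844) (nat_lit 9) (nat_lit 2))
    (@En.n l2101 (nat_lit 838) (nat_lit 11) (nat_lit 13))
    (@En.n l619 (nat_lit 4025) (nat_lit 12) (nat_lit 14))
    (@En.n l6147 (nat_lit 491) (nat_lit 13) (nat_lit 10))
    (@En.n l72 (nat_lit 840) (nat_lit 3) (nat_lit 3))
    (@En.n l1935 (nat_lit 892) (nat_lit 4) (nat_lit 6))
    (@En.n l17 (nat_lit 844) (nat_lit 15) (nat_lit 2))))
  (@Cl.mk (nat_lit 0x20006000d000c00070003000d0004000e00030002000a000d0009000e0003) (nat_lit 0x9200404007b700) (nat_lit 16) Lb.e (@T16.mk En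
    (@En.n l7706 (nat_lit 841) (nat_lit 10) (nat_lit 3))
    (@En.i (nat_lit 13159) (nat_lit 0) (nat_lit 14))
    (@En.n l12743 (nat_lit 2341) (nat_lit 2) (nat_lit 9))
    (@En.i (nat_lit 3781) (nat_lit 14) (nat_lit 13))
    (@En.i (nat_lit 653) (nat_lit 4) (nat_lit 10))
    (@En.n l17 (nat_lit 845) (nat_lit 5) (nat_lit 2))
    (@En.i (nat_lit 839) (nat_lit 6) (nat_lit 3))
    (@En.i (nat_lit 13508) (nat_lit 0) (nat_lit 14))
    (@En.n l4263 (nat_lit 673) (nat_lit 8) (nat_lit 4))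
    (@En.n l564 (nat_lit 643) (nat_lit 10) (nat_lit 13))
    (@En.n l7 (nat_lit 596) (nat_lit 10) (nat_lit 3))
    (@En.i (nat_lit 817) (nat_lit 12) (nat_lit 7))
    (@En.n l644 (nat_lit 590) (nat_lit 13) (nat_lit 12))
    (@En.n l5891 (nat_lit 504) (nat_lit 8) (nat_lit 13))
    (@En.n l4870 (nat_lit 841) (nat_lit 8) (nat_lit 6))
    (@En.n l107 (nat_lit 845) (nat_lit 15) (nat_lit 2))))
  (@Cl.mk (nat_lit 0x2000a000e000d0002000b00030006000d000c00050003000d0004000e0003) (nat_lit 0x701090082004010) (nat_lit 16) Lb.e (@T16.mk En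
    (@En.i (nat_lit 840) (nat_lit 4) (nat_lit 3))
    (@En.i (nat_lit 275) (nat_lit 0) (nat_lit 14))
    (@En.n l7 (nat_lit 674) (nat_lit 6) (nat_lit 4))
    (@En.n l564 (nat_lit 644) (nat_lit 8) (nat_lit 13))
    (@En.n l7 (nat_lit 597) (nat_lit 4) (nat_lit 3))
    (@En.i (nat_lit 812) (nat_lit 5) (nat_lit 5))
    (@En.n l644 (nat_lit 591) (nat_lit 7) (nat_lit 12))
    (@En.n l1643 (nat_lit 522) (nat_lit 8) (nat_lit 13))
    (@En.i (nat_lit 13159) (nat_lit 12) (nat_lit 6))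
    (@En.i (nat_lit 841) (nat_lit 9) (nat_lit 3))
    (@En.i (nat_lit 2356) (nat_lit 0) (nat_lit 11))
    (@En.n l107 (nat_lit 846) (nat_lit 11) (nat_lit 2))
    (@En.n l180 (nat_lit 841) (nat_lit 13) (nat_lit 13))
    (@En.n l619 (nat_lit 3828) (nat_lit 1) (nat_lit 14))
    (@En.i (nat_lit 735) (nat_lit 2) (nat_lit 10))
    (@En.n l17 (nat_lit 846) (nat_lit 15) (nat_lit 2))))
  (@Cl.mk (nat_lit 0x200050003000a000d000d000b000300030006000d0005000b0003000e000d) (nat_lit 0x8000000202035) (nat_lit 16) Lb.e (@T16.mk En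
    (@En.n l5355 (nat_lit 592) (nat_lit 8) (nat_lit 13))
    (@En.i (nat_lit 878) (nat_lit 1) (nat_lit 14))
    (@En.i (nat_lit 838) (nat_lit 2) (nat_lit 3))
    (@En.n l649 (nat_lit 606) (nat_lit 3) (nat_lit 11))
    (@En.i (nat_lit 2659) (nat_lit 4) (nat_lit 5))
    (@En.i (nat_lit 514) (nat_lit 6) (nat_lit 13))
    (@En.n l2132 (nat_lit 849) (nat_lit 6) (nat_lit 6))
    (@En.n l2133 (nat_lit 849) (nat_lit 7) (nat_lit 3))
    (@En.n l5376 (nat_lit 848) (nat_lit 8) (nat_lit 3))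
    (@En.n l2135 (nat_lit 2264) (nat_lit 10) (nat_lit 11))
    (@En.n l6213 (nat_lit 848) (nat_lit 11) (nat_lit 13))
    (@En.n l5372 (nat_lit 3642) (nat_lit 12) (nat_lit 13))
    (@En.i (nat_lit 412) (nat_lit 13) (nat_lit 10))
    (@En.n l2705 (nat_lit 592) (nat_lit 4) (nat_lit 3))
    (@En.i (nat_lit 744) (nat_lit 0) (nat_lit 5))
    (@En.n l18 (nat_lit 847) (nat_lit 15) (nat_lit 2))))
noncomputable def a53 : T16 Cl := @T16.mk Cl
  (@Cl.mk (nat_lit 0x200050003000a000d000a000e000300020006000d0006000b0003000e000d) (nat_lit 0x8b00000202035) (nat_lit 16) Lb.e (@T16.mk En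
    (@En.n l649 (nat_lit 594) (nat_lit 9) (nat_lit 13))
    (@En.i (nat_lit 879) (nat_lit 1) (nat_lit 14))
    (@En.n l9807 (nat_lit 843) (nat_lit 2) (nat_lit 3))
    (@En.n l2034 (nat_lit 608) (nat_lit 3) (nat_lit 11))
    (@En.n l1353 (nat_lit 2658) (nat_lit 4) (nat_lit 6))
    (@En.n l2034 (nat_lit 512) (nat_lit 6) (nat_lit 13))
    (@En.n l2911 (nat_lit 847) (nat_lit 6) (nat_lit 6))
    (@En.n l7 (nat_lit 848) (nat_lit 7) (nat_lit 2))
    (@En.n l9025 (nat_lit 847) (nat_lit 8) (nat_lit 3))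
    (@En.n l2573 (nat_lit 13803) (nat_lit 0) (nat_lit 14))
    (@En.n l532 (nat_lit 2265) (nat_lit 11) (nat_lit 10))
    (@En.i (nat_lit 3788) (nat_lit 12) (nat_lit 13))
    (@En.n l2036 (nat_lit 415) (nat_lit 13) (nat_lit 10))
    (@En.n l2221 (nat_lit 594) (nat_lit 5) (nat_lit 3))
    (@En.n l1643 (nat_lit 742) (nat_lit 6) (nat_lit 5))
    (@En.n l3 (nat_lit 848) (nat_lit 15) (nat_lit 2))))
  (@Cl.mk (nat_lit 0x200050003000a000e000d0002000c00030006000d0004000b0003000e000d) (nat_lit 0x7010000102035) (nat_lit 16) Lb.e (@T16.mk En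
    (@En.n l61 (nat_lit 595) (nat_lit 7) (nat_lit 13))
    (@En.n l5331 (nat_lit 880) (nat_lit 1) (nat_lit 14))
    (@En.i (nat_lit 844) (nat_lit 2) (nat_lit 3))
    (@En.n l5331 (nat_lit 607) (nat_lit 3) (nat_lit 11))
    (@En.n l3180 (nat_lit 2661) (nat_lit 4) (nat_lit 4))
    (@En.n l2101 (nat_lit 516) (nat_lit 6) (nat_lit 13))
    (@En.i (nat_lit 13803) (nat_lit 12) (nat_lit 6))
    (@En.n l669 (nat_lit 847) (nat_lit 7) (nat_lit 3))
    (@En.n l5331 (nat_lit 2261) (nat_lit 9) (nat_lit 12))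
    (@En.n l107 (nat_lit 849) (nat_lit 9) (nat_lit 2))
    (@En.n l2101 (nat_lit 847) (nat_lit 11) (nat_lit 13))
    (@En.n l619 (nat_lit 4019) (nat_lit 12) (nat_lit 14))
    (@En.n l6147 (nat_lit 414) (nat_lit 13) (nat_lit 10))
    (@En.n l72 (nat_lit 595) (nat_lit 3) (nat_lit 3))
    (@En.n l2101 (nat_lit 743) (nat_lit 0) (nat_lit 5))
    (@En.n l17 (nat_lit 849) (nat_lit 15) (nat_lit 2))))
  (@Cl.mk (nat_lit 0x2000800030006000e000b0002000c000c0008000500040004000a000e000d) (nat_lit 0x600810350000301) (nat_lit 16) Lb.e (@T16.mk En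
    (@En.n l15705 (nat_lit 439) (nat_lit 7) (nat_lit 13))
    (@En.n l619 (nat_lit 3729) (nat_lit 8) (nat_lit 14))
    (@En.n l4806 (nat_lit 800) (nat_lit 2) (nat_lit 10))
    (@En.n l6368 (nat_lit 836) (nat_lit 3) (nat_lit 4))
    (@En.n l4019 (nat_lit 517) (nat_lit 4) (nat_lit 4))
    (@En.i (nat_lit 840) (nat_lit 5) (nat_lit 5))
    (@En.n l1347 (nat_lit 853) (nat_lit 6) (nat_lit 8))
    (@En.n l61 (nat_lit 864) (nat_lit 8) (nat_lit 12))
    (@En.n l564 (nat_lit 807) (nat_lit 9) (nat_lit 12))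
    (@En.n l7 (nat_lit 850) (nat_lit 9) (nat_lit 2))
    (@En.i (nat_lit 437) (nat_lit 11) (nat_lit 11))
    (@En.n l1643 (nat_lit 867) (nat_lit 12) (nat_lit 14))
    (@En.i (nat_lit 13495) (nat_lit 12) (nat_lit 6))
    (@En.n l2209 (nat_lit 439) (nat_lit 3) (nat_lit 3))
    (@En.n l4019 (nat_lit 1187) (nat_lit 0) (nat_lit 8))
    (@En.n l107 (nat_lit 850) (nat_lit 15) (nat_lit 2))))
  (@Cl.mk (nat_lit 0x20006000e000b0002000c000c000a000500040004000a000d0006000e0003) (nat_lit 0x8103500003b000) (nat_lit 16) Lb.e (@T16.mk En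
    (@En.i (nat_lit 439) (nat_lit 4) (nat_lit 3))
    (@En.n l4973 (nat_lit 13495) (nat_lit 0) (nat_lit 14))
    (@En.i (nat_lit 1608) (nat_lit 2) (nat_lit 6))
    (@En.i (nat_lit 2678) (nat_lit 8) (nat_lit 13))
    (@En.n l1599 (nat_lit 799) (nat_lit 4) (nat_lit 10))
    (@En.n l1577 (nat_lit 837) (nat_lit 5) (nat_lit 4))
    (@En.i (nat_lit 522) (nat_lit 6) (nat_lit 4))
    (@En.n l4973 (nat_lit 839) (nat_lit 7) (nat_lit 5))
    (@En.n l457 (nat_lit 860) (nat_lit 9) (nat_lit 10))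
    (@En.n l1578 (nat_lit 865) (nat_lit 10) (nat_lit 12))
    (@En.n l107 (nat_lit 822) (nat_lit 11) (nat_lit 12))
    (@En.n l3 (nat_lit 851) (nat_lit 11) (nat_lit 2))
    (@En.n l575 (nat_lit 436) (nat_lit 13) (nat_lit 11))
    (@En.i (nat_lit 871) (nat_lit 1) (nat_lit 14))
    (@En.n l1738 (nat_lit 439) (nat_lit 2) (nat_lit 6))
    (@En.n l18 (nat_lit 851) (nat_lit 15) (nat_lit 2))))
  (@Cl.mk (nat_lit 0x2000d000900040003000b0009000c000c00070005000400040007000e000c) (nat_lit 0x1700012000000c0) (nat_lit 16) Lb.e (@T16.mk En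
    (@En.i (nat_lit 861) (nat_lit 3) (nat_lit 12))
    (@En.i (nat_lit 8268) (nat_lit 1) (nat_lit 14))
    (@En.n l2114 (nat_lit 853) (nat_lit 11) (nat_lit 7))
    (@En.n l1959 (nat_lit 853) (nat_lit 12) (nat_lit 4))
    (@En.n l3787 (nat_lit 3868) (nat_lit 4) (nat_lit 4))
    (@En.i (nat_lit 519) (nat_lit 5) (nat_lit 5))
    (@En.n l688 (nat_lit 7163) (nat_lit 6) (nat_lit 7))
    (@En.n l2337 (nat_lit 860) (nat_lit 4) (nat_lit 12))
    (@En.i (nat_lit 2653) (nat_lit 9) (nat_lit 12))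
    (@En.n l2019 (nat_lit 320) (nat_lit 10) (nat_lit 9))
    (@En.n l1974 (nat_lit 7591) (nat_lit 11) (nat_lit 11))
    (@En.n l11 (nat_lit 855) (nat_lit 11) (nat_lit 3))
    (@En.n l6385 (nat_lit 3328) (nat_lit 0) (nat_lit 4))
    (@En.i (nat_lit 3115) (nat_lit 14) (nat_lit 9))
    (@En.n l12499 (nat_lit 392) (nat_lit 1) (nat_lit 13))
    (@En.n l3 (nat_lit 852) (nat_lit 15) (nat_lit 2))))
  (@Cl.mk (nat_lit 0x20008000600040007000e000c0002000d000800040003000a0009000e000c) (nat_lit 0xc0016000103) (nat_lit 16) Lb.e (@T16.mk En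
    (@En.n l1708 (nat_lit 852) (nat_lit 8) (nat_lit 12))
    (@En.n l1063 (nat_lit 1377) (nat_lit 1) (nat_lit 14))
    (@En.n l890 (nat_lit 375) (nat_lit 2) (nat_lit 9))
    (@En.n l287 (nat_lit 7590) (nat_lit 11) (nat_lit 10))
    (@En.n l11 (nat_lit 854) (nat_lit 4) (nat_lit 3))
    (@En.n l14460 (nat_lit 3329) (nat_lit 5) (nat_lit 4))
    (@En.i (nat_lit 3118) (nat_lit 14) (nat_lit 8))
    (@En.n l615 (nat_lit 387) (nat_lit 8) (nat_lit 13))
    (@En.n l3 (nat_lit 853) (nat_lit 8) (nat_lit 2))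
    (@En.i (nat_lit 863) (nat_lit 10) (nat_lit 12))
    (@En.i (nat_lit 8928) (nat_lit 11) (nat_lit 14))
    (@En.n l699 (nat_lit 13287) (nat_lit 11) (nat_lit 7))
    (@En.n l14460 (nat_lit 3871) (nat_lit 3) (nat_lit 4))
    (@En.i (nat_lit 518) (nat_lit 14) (nat_lit 6))
    (@En.n l890 (nat_lit 7909) (nat_lit 5) (nat_lit 8))
    (@En.n l18 (nat_lit 853) (nat_lit 15) (nat_lit 2))))
  (@Cl.mk (nat_lit 0x20007000600040007000e000d0002000d000300090003000a0009000e000c) (nat_lit 0xa0020700103) (nat_lit 16) Lb.e (@T16.mk En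
    (@En.n l1708 (nat_lit 855) (nat_lit 8) (nat_lit 12))
    (@En.n l1063 (nat_lit 1378) (nat_lit 1) (nat_lit 14))
    (@En.n l890 (nat_lit 374) (nat_lit 2) (nat_lit 9))
    (@En.n l2650 (nat_lit 5932) (nat_lit 11) (nat_lit 10))
    (@En.i (nat_lit 853) (nat_lit 4) (nat_lit 3))
    (@En.i (nat_lit 5231) (nat_lit 5) (nat_lit 9))
    (@En.n l117 (nat_lit 856) (nat_lit 6) (nat_lit 3))
    (@En.i (nat_lit 459) (nat_lit 0) (nat_lit 13))
    (@En.n l3 (nat_lit 854) (nat_lit 8) (nat_lit 2))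
    (@En.i (nat_lit 856) (nat_lit 10) (nat_lit 13))
    (@En.i (nat_lit 8869) (nat_lit 11) (nat_lit 14))
    (@En.n l699 (nat_lit 13286) (nat_lit 11) (nat_lit 7))
    (@En.n l1527 (nat_lit 4282) (nat_lit 3) (nat_lit 4))
    (@En.i (nat_lit 516) (nat_lit 14) (nat_lit 6))
    (@En.n l890 (nat_lit 6176) (nat_lit 5) (nat_lit 7))
    (@En.n l18 (nat_lit 854) (nat_lit 15) (nat_lit 2))))
  (@Cl.mk (nat_lit 0x2000d0003000a0003000b0009000c000c00060005000400040007000e000d) (nat_lit 0x2080012000000a0) (nat_lit 16) Lb.e (@T16.mk En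
    (@En.i (nat_lit 857) (nat_lit 2) (nat_lit 13))
    (@En.i (nat_lit 8865) (nat_lit 1) (nat_lit 14))
    (@En.n l2114 (nat_lit 854) (nat_lit 11) (nat_lit 7))
    (@En.n l1959 (nat_lit 854) (nat_lit 12) (nat_lit 4))
    (@En.n l3787 (nat_lit 4283) (nat_lit 4) (nat_lit 4))
    (@En.i (nat_lit 515) (nat_lit 5) (nat_lit 5))
    (@En.i (nat_lit 6174) (nat_lit 6) (nat_lit 6))
    (@En.n l2337 (nat_lit 858) (nat_lit 4) (nat_lit 12))
    (@En.i (nat_lit 2648) (nat_lit 9) (nat_lit 12))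
    (@En.n l2019 (nat_lit 317) (nat_lit 10) (nat_lit 9))
    (@En.n l28 (nat_lit 5874) (nat_lit 11) (nat_lit 11))
    (@En.i (nat_lit 852) (nat_lit 11) (nat_lit 3))
    (@En.i (nat_lit 5230) (nat_lit 0) (nat_lit 10))
    (@En.n l117 (nat_lit 857) (nat_lit 14) (nat_lit 3))
    (@En.i (nat_lit 396) (nat_lit 0) (nat_lit 13))
    (@En.n l3 (nat_lit 855) (nat_lit 15) (nat_lit 2))))
  (@Cl.mk (nat_lit 0x20007000600040007000d000d000c0003000300090004000a0009000e000c) (nat_lit 0xb0100700100) (nat_lit 16) Lb.e (@T16.mk En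
    (@En.n l1708 (nat_lit 857) (nat_lit 9) (nat_lit 12))
    (@En.n l1063 (nat_lit 1376) (nat_lit 1) (nat_lit 14))
    (@En.n l890 (nat_lit 365) (nat_lit 2) (nat_lit 9))
    (@En.n l18989 (nat_lit 5929) (nat_lit 3) (nat_lit 10))
    (@En.i (nat_lit 863) (nat_lit 4) (nat_lit 4))
    (@En.n l12362 (nat_lit 3120) (nat_lit 5) (nat_lit 9))
    (@En.n l152 (nat_lit 854) (nat_lit 6) (nat_lit 3))
    (@En.n l6822 (nat_lit 3211) (nat_lit 7) (nat_lit 3))
    (@En.n l619 (nat_lit 853) (nat_lit 9) (nat_lit 12))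
    (@En.n l17986 (nat_lit 3211) (nat_lit 10) (nat_lit 13))
    (@En.i (nat_lit 8876) (nat_lit 11) (nat_lit 13))
    (@En.n l699 (nat_lit 13284) (nat_lit 11) (nat_lit 7))
    (@En.n l26974 (nat_lit 3747) (nat_lit 4) (nat_lit 4))
    (@En.i (nat_lit 514) (nat_lit 14) (nat_lit 6))
    (@En.n l890 (nat_lit 6178) (nat_lit 6) (nat_lit 7))
    (@En.n l18 (nat_lit 856) (nat_lit 15) (nat_lit 2))))
  (@Cl.mk (nat_lit 0x30003000a0004000b0009000c000c00060005000400040007000d000d000c) (nat_lit 0x8001a000000b01) (nat_lit 16) Lb.e (@T16.mk En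
    (@En.n l619 (nat_lit 852) (nat_lit 0) (nat_lit 12))
    (@En.n l97 (nat_lit 862) (nat_lit 3) (nat_lit 13))
    (@En.i (nat_lit 8875) (nat_lit 2) (nat_lit 13))
    (@En.n l2114 (nat_lit 856) (nat_lit 11) (nat_lit 7))
    (@En.n l1959 (nat_lit 856) (nat_lit 12) (nat_lit 4))
    (@En.n l3787 (nat_lit 3741) (nat_lit 5) (nat_lit 4))
    (@En.i (nat_lit 509) (nat_lit 0) (nat_lit 5))
    (@En.i (nat_lit 6177) (nat_lit 7) (nat_lit 6))
    (@En.n l2337 (nat_lit 859) (nat_lit 4) (nat_lit 12))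
    (@En.i (nat_lit 2650) (nat_lit 6) (nat_lit 12))
    (@En.n l2019 (nat_lit 315) (nat_lit 11) (nat_lit 9))
    (@En.n l18989 (nat_lit 5873) (nat_lit 12) (nat_lit 11))
    (@En.i (nat_lit 861) (nat_lit 13) (nat_lit 4))
    (@En.i (nat_lit 3119) (nat_lit 14) (nat_lit 10))
    (@En.n l152 (nat_lit 855) (nat_lit 13) (nat_lit 3))
    (@En.i (nat_lit 862) (nat_lit 0) (nat_lit 3))))
  (@Cl.mk (nat_lit 0x20007000e000d0002000d0003000b0003000c0009000c00050004000e0004) (nat_lit 0xa00209001a0000) (nat_lit 16) Lb.e (@T16.mk En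
    (@En.n l7 (nat_lit 855) (nat_lit 4) (nat_lit 4))
    (@En.n l396 (nat_lit 4744) (nat_lit 1) (nat_lit 14))
    (@En.n l7 (nat_lit 520) (nat_lit 2) (nat_lit 4))
    (@En.i (nat_lit 6137) (nat_lit 3) (nat_lit 5))
    (@En.i (nat_lit 4054) (nat_lit 9) (nat_lit 12))
    (@En.n l420 (nat_lit 318) (nat_lit 5) (nat_lit 9))
    (@En.i (nat_lit 5918) (nat_lit 11) (nat_lit 12))
    (@En.i (nat_lit 860) (nat_lit 7) (nat_lit 3))
    (@En.i (nat_lit 5232) (nat_lit 9) (nat_lit 11))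
    (@En.n l117 (nat_lit 859) (nat_lit 9) (nat_lit 3))
    (@En.i (nat_lit 395) (nat_lit 11) (nat_lit 13))
    (@En.n l3 (nat_lit 858) (nat_lit 11) (nat_lit 2))
    (@En.i (nat_lit 859) (nat_lit 13) (nat_lit 13))
    (@En.i (nat_lit 8867) (nat_lit 1) (nat_lit 14))
    (@En.n l4600 (nat_lit 855) (nat_lit 2) (nat_lit 7))
    (@En.n l18 (nat_lit 858) (nat_lit 15) (nat_lit 2))))
  (@Cl.mk (nat_lit 0x20007000d000d000c00030003000b0004000c0009000c00050004000e0004) (nat_lit 0xb00009001a0000) (nat_lit 16) Lb.e (@T16.mk En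
    (@En.n l7 (nat_lit 857) (nat_lit 5) (nat_lit 4))
    (@En.n l396 (nat_lit 4743) (nat_lit 1) (nat_lit 14))
    (@En.n l7 (nat_lit 513) (nat_lit 2) (nat_lit 4))
    (@En.i (nat_lit 6134) (nat_lit 3) (nat_lit 5))
    (@En.i (nat_lit 4053) (nat_lit 6) (nat_lit 12))
    (@En.n l420 (nat_lit 316) (nat_lit 5) (nat_lit 9))
    (@En.n l3528 (nat_lit 5875) (nat_lit 7) (nat_lit 12))
    (@En.i (nat_lit 3333) (nat_lit 7) (nat_lit 4))
    (@En.i (nat_lit 3128) (nat_lit 9) (nat_lit 11))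
    (@En.n l152 (nat_lit 858) (nat_lit 9) (nat_lit 3))
    (@En.i (nat_lit 3737) (nat_lit 10) (nat_lit 3))
    (@En.n l619 (nat_lit 860) (nat_lit 12) (nat_lit 12))
    (@En.n l97 (nat_lit 3737) (nat_lit 13) (nat_lit 13))
    (@En.i (nat_lit 6400) (nat_lit 14) (nat_lit 13))
    (@En.n l4600 (nat_lit 857) (nat_lit 3) (nat_lit 7))
    (@En.n l18 (nat_lit 859) (nat_lit 15) (nat_lit 2))))
  (@Cl.mk (nat_lit 0x20007000e000c0002000d000a00040003000c0009000c00060004000e0004) (nat_lit 0xca0280001a0000) (nat_lit 16) Lb.e (@T16.mk En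
    (@En.n l7 (nat_lit 852) (nat_lit 4) (nat_lit 4))
    (@En.n l396 (nat_lit 4745) (nat_lit 1) (nat_lit 14))
    (@En.n l7 (nat_lit 521) (nat_lit 2) (nat_lit 4))
    (@En.i (nat_lit 7157) (nat_lit 3) (nat_lit 6))
    (@En.i (nat_lit 3828) (nat_lit 9) (nat_lit 12))
    (@En.n l420 (nat_lit 319) (nat_lit 5) (nat_lit 9))
    (@En.n l287 (nat_lit 7596) (nat_lit 11) (nat_lit 12))
    (@En.n l11 (nat_lit 858) (nat_lit 7) (nat_lit 3))
    (@En.i (nat_lit 3330) (nat_lit 8) (nat_lit 4))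
    (@En.i (nat_lit 3116) (nat_lit 10) (nat_lit 10))
    (@En.i (nat_lit 393) (nat_lit 11) (nat_lit 13))
    (@En.n l3 (nat_lit 860) (nat_lit 11) (nat_lit 2))
    (@En.i (nat_lit 3333) (nat_lit 13) (nat_lit 12))
    (@En.i (nat_lit 8886) (nat_lit 1) (nat_lit 14))
    (@En.n l4600 (nat_lit 852) (nat_lit 2) (nat_lit 7))
    (@En.n l18 (nat_lit 860) (nat_lit 15) (nat_lit 2))))
  (@Cl.mk (nat_lit 0x400040004000b0009000c000c00080005000400040007000c000c000c0008) (nat_lit 0x10000000a006) (nat_lit 16) Lb.e (@T16.mk En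
    (@En.i (nat_lit 875) (nat_lit 0) (nat_lit 8))
    (@En.n l6386 (nat_lit 3328) (nat_lit 4) (nat_lit 12))
    (@En.n l27561 (nat_lit 3212) (nat_lit 4) (nat_lit 12))
    (@En.n l26998 (nat_lit 8374) (nat_lit 13) (nat_lit 12))
    (@En.n l2114 (nat_lit 863) (nat_lit 11) (nat_lit 7))
    (@En.n l1959 (nat_lit 863) (nat_lit 12) (nat_lit 4))
    (@En.n l27562 (nat_lit 3742) (nat_lit 0) (nat_lit 4))
    (@En.i (nat_lit 542) (nat_lit 0) (nat_lit 5))
    (@En.n l688 (nat_lit 6197) (nat_lit 1) (nat_lit 8))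
    (@En.n l2337 (nat_lit 3333) (nat_lit 4) (nat_lit 12))
    (@En.i (nat_lit 2654) (nat_lit 6) (nat_lit 12))
    (@En.n l2019 (nat_lit 322) (nat_lit 12) (nat_lit 9))
    (@En.i (nat_lit 7510) (nat_lit 13) (nat_lit 11))
    (@En.n l11 (nat_lit 3213) (nat_lit 12) (nat_lit 4))
    (@En.n l152 (nat_lit 852) (nat_lit 12) (nat_lit 4))
    (@En.n l6387 (nat_lit 3323) (nat_lit 0) (nat_lit 4))))
  (@Cl.mk (nat_lit 0x2000a0005000b0009000c000c00060005000400040007000d000b000e0003) (nat_lit 0x80010000000b000) (nat_lit 16) Lb.e (@T16.mk En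
    (@En.n l107 (nat_lit 857) (nat_lit 15) (nat_lit 3))
    (@En.n l1106 (nat_lit 12830) (nat_lit 0) (nat_lit 14))
    (@En.i (nat_lit 3213) (nat_lit 2) (nat_lit 11))
    (@En.n l1106 (nat_lit 6404) (nat_lit 4) (nat_lit 13))
    (@En.n l29075 (nat_lit 3211) (nat_lit 11) (nat_lit 7))
    (@En.n l29076 (nat_lit 3211) (nat_lit 12) (nat_lit 4))
    (@En.n l3787 (nat_lit 3738) (nat_lit 6) (nat_lit 4))
    (@En.i (nat_lit 510) (nat_lit 7) (nat_lit 5))
    (@En.n l16160 (nat_lit 6187) (nat_lit 8) (nat_lit 6))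
    (@En.n l2337 (nat_lit 3737) (nat_lit 4) (nat_lit 12))
    (@En.i (nat_lit 2649) (nat_lit 11) (nat_lit 12))
    (@En.n l29077 (nat_lit 364) (nat_lit 12) (nat_lit 9))
    (@En.n l6822 (nat_lit 5928) (nat_lit 13) (nat_lit 11))
    (@En.n l15000 (nat_lit 3212) (nat_lit 14) (nat_lit 5))
    (@En.n l14486 (nat_lit 3124) (nat_lit 14) (nat_lit 10))
    (@En.n l67 (nat_lit 862) (nat_lit 15) (nat_lit 2))))
  (@Cl.mk (nat_lit 0x20009000600040007000c000c000c0007000400040004000a0009000e000c) (nat_lit 0xa0000000101) (nat_lit 16) Lb.e (@T16.mk En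
    (@En.n l1708 (nat_lit 861) (nat_lit 10) (nat_lit 12))
    (@En.n l11903 (nat_lit 1373) (nat_lit 1) (nat_lit 14))
    (@En.n l890 (nat_lit 360) (nat_lit 2) (nat_lit 9))
    (@En.n l287 (nat_lit 7511) (nat_lit 3) (nat_lit 10))
    (@En.n l11 (nat_lit 3209) (nat_lit 12) (nat_lit 4))
    (@En.n l152 (nat_lit 853) (nat_lit 5) (nat_lit 4))
    (@En.n l11903 (nat_lit 3324) (nat_lit 6) (nat_lit 4))
    (@En.i (nat_lit 877) (nat_lit 7) (nat_lit 7))
    (@En.n l12563 (nat_lit 3329) (nat_lit 9) (nat_lit 12))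
    (@En.n l28137 (nat_lit 3210) (nat_lit 4) (nat_lit 12))
    (@En.n l13299 (nat_lit 8534) (nat_lit 11) (nat_lit 12))
    (@En.n l699 (nat_lit 13155) (nat_lit 11) (nat_lit 7))
    (@En.n l11903 (nat_lit 3873) (nat_lit 13) (nat_lit 4))
    (@En.i (nat_lit 543) (nat_lit 14) (nat_lit 6))
    (@En.n l890 (nat_lit 6666) (nat_lit 1) (nat_lit 9))
    (@En.n l18 (nat_lit 863) (nat_lit 15) (nat_lit 2))))
noncomputable def a54 : T16 Cl := @T16.mk Cl
  (@Cl.mk (nat_lit 0x2000900030006000e000c0002000c00070004000e00040002000a000e000d) (nat_lit 0x700990400500501) (nat_lit 16) Lb.e (@T16.mk En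
    (@En.n l13383 (nat_lit 675) (nat_lit 13) (nat_lit 13))
    (@En.n l619 (nat_lit 3731) (nat_lit 8) (nat_lit 14))
    (@En.n l1501 (nat_lit 808) (nat_lit 2) (nat_lit 10))
    (@En.n l17 (nat_lit 864) (nat_lit 3) (nat_lit 2))
    (@En.i (nat_lit 850) (nat_lit 4) (nat_lit 4))
    (@En.i (nat_lit 920) (nat_lit 1) (nat_lit 14))
    (@En.i (nat_lit 846) (nat_lit 2) (nat_lit 4))
    (@En.n l1347 (nat_lit 873) (nat_lit 14) (nat_lit 7))
    (@En.n l3699 (nat_lit 735) (nat_lit 9) (nat_lit 12))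
    (@En.n l7 (nat_lit 864) (nat_lit 9) (nat_lit 2))
    (@En.n l644 (nat_lit 674) (nat_lit 11) (nat_lit 12))
    (@En.n l1643 (nat_lit 868) (nat_lit 8) (nat_lit 14))
    (@En.i (nat_lit 13497) (nat_lit 12) (nat_lit 6))
    (@En.n l4314 (nat_lit 675) (nat_lit 9) (nat_lit 3))
    (@En.n l1347 (nat_lit 1190) (nat_lit 0) (nat_lit 9))
    (@En.n l107 (nat_lit 864) (nat_lit 15) (nat_lit 2))))
  (@Cl.mk (nat_lit 0x20006000e000c0002000c00090004000e00040002000a000d0007000e0003) (nat_lit 0x9904005005b000) (nat_lit 16) Lb.e (@T16.mk En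
    (@En.i (nat_lit 675) (nat_lit 10) (nat_lit 3))
    (@En.n l1393 (nat_lit 13497) (nat_lit 0) (nat_lit 14))
    (@En.i (nat_lit 1610) (nat_lit 2) (nat_lit 7))
    (@En.i (nat_lit 2675) (nat_lit 8) (nat_lit 13))
    (@En.n l1599 (nat_lit 809) (nat_lit 4) (nat_lit 10))
    (@En.n l28 (nat_lit 865) (nat_lit 5) (nat_lit 2))
    (@En.n l11 (nat_lit 851) (nat_lit 6) (nat_lit 4))
    (@En.n l2568 (nat_lit 922) (nat_lit 8) (nat_lit 14))
    (@En.n l1393 (nat_lit 845) (nat_lit 8) (nat_lit 4))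
    (@En.i (nat_lit 868) (nat_lit 10) (nat_lit 9))
    (@En.n l170 (nat_lit 653) (nat_lit 11) (nat_lit 12))
    (@En.n l3 (nat_lit 865) (nat_lit 11) (nat_lit 2))
    (@En.i (nat_lit 673) (nat_lit 13) (nat_lit 12))
    (@En.i (nat_lit 870) (nat_lit 8) (nat_lit 14))
    (@En.n l1738 (nat_lit 675) (nat_lit 8) (nat_lit 6))
    (@En.n l18 (nat_lit 865) (nat_lit 15) (nat_lit 2))))
  (@Cl.mk (nat_lit 0x20007000d000d000800030003000e000b00020009000c00080005000e0004) (nat_lit 0x600800200000) (nat_lit 16) Lb.e (@T16.mk En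
    (@En.i (nat_lit 869) (nat_lit 9) (nat_lit 4))
    (@En.i (nat_lit 5499) (nat_lit 1) (nat_lit 14))
    (@En.i (nat_lit 506) (nat_lit 2) (nat_lit 5))
    (@En.i (nat_lit 8643) (nat_lit 3) (nat_lit 8))
    (@En.i (nat_lit 3285) (nat_lit 14) (nat_lit 12))
    (@En.n l475 (nat_lit 393) (nat_lit 5) (nat_lit 9))
    (@En.n l28 (nat_lit 866) (nat_lit 6) (nat_lit 2))
    (@En.n l77 (nat_lit 3114) (nat_lit 8) (nat_lit 11))
    (@En.n l476 (nat_lit 7414) (nat_lit 1) (nat_lit 14))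
    (@En.n l152 (nat_lit 868) (nat_lit 9) (nat_lit 3))
    (@En.n l1235 (nat_lit 870) (nat_lit 10) (nat_lit 3))
    (@En.n l97 (nat_lit 1811) (nat_lit 4) (nat_lit 8))
    (@En.n l1653 (nat_lit 870) (nat_lit 13) (nat_lit 13))
    (@En.n l1234 (nat_lit 8085) (nat_lit 7) (nat_lit 13))
    (@En.n l1738 (nat_lit 869) (nat_lit 7) (nat_lit 7))
    (@En.n l18 (nat_lit 866) (nat_lit 15) (nat_lit 2))))
  (@Cl.mk (nat_lit 0x200080003000e000a00020009000c000c00080006000400040007000e000d) (nat_lit 0x607002250000090) (nat_lit 16) Lb.e (@T16.mk En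
    (@En.i (nat_lit 869) (nat_lit 6) (nat_lit 13))
    (@En.n l339 (nat_lit 8643) (nat_lit 7) (nat_lit 14))
    (@En.n l2114 (nat_lit 873) (nat_lit 2) (nat_lit 7))
    (@En.n l1959 (nat_lit 873) (nat_lit 3) (nat_lit 4))
    (@En.n l1481 (nat_lit 6321) (nat_lit 4) (nat_lit 4))
    (@En.i (nat_lit 508) (nat_lit 5) (nat_lit 6))
    (@En.n l521 (nat_lit 8928) (nat_lit 6) (nat_lit 8))
    (@En.n l217 (nat_lit 868) (nat_lit 4) (nat_lit 12))
    (@En.i (nat_lit 1949) (nat_lit 9) (nat_lit 12))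
    (@En.n l1599 (nat_lit 396) (nat_lit 10) (nat_lit 9))
    (@En.n l28 (nat_lit 867) (nat_lit 10) (nat_lit 2))
    (@En.i (nat_lit 3115) (nat_lit 12) (nat_lit 10))
    (@En.n l1481 (nat_lit 5764) (nat_lit 1) (nat_lit 14))
    (@En.n l117 (nat_lit 869) (nat_lit 2) (nat_lit 3))
    (@En.n l1481 (nat_lit 1806) (nat_lit 3) (nat_lit 8))
    (@En.n l3 (nat_lit 867) (nat_lit 15) (nat_lit 2))))
  (@Cl.mk (nat_lit 0x20007000e000d000200090003000e000b00020009000c00070005000e0004) (nat_lit 0x1070800140000) (nat_lit 16) Lb.e (@T16.mk En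
    (@En.i (nat_lit 867) (nat_lit 4) (nat_lit 4))
    (@En.i (nat_lit 5498) (nat_lit 1) (nat_lit 14))
    (@En.i (nat_lit 522) (nat_lit 2) (nat_lit 5))
    (@En.i (nat_lit 8647) (nat_lit 3) (nat_lit 7))
    (@En.i (nat_lit 4102) (nat_lit 9) (nat_lit 12))
    (@En.n l175 (nat_lit 395) (nat_lit 5) (nat_lit 9))
    (@En.n l28 (nat_lit 868) (nat_lit 6) (nat_lit 2))
    (@En.n l77 (nat_lit 3116) (nat_lit 8) (nat_lit 11))
    (@En.n l2568 (nat_lit 5761) (nat_lit 1) (nat_lit 14))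
    (@En.n l117 (nat_lit 866) (nat_lit 9) (nat_lit 3))
    (@En.i (nat_lit 1805) (nat_lit 11) (nat_lit 9))
    (@En.n l3 (nat_lit 868) (nat_lit 11) (nat_lit 2))
    (@En.i (nat_lit 866) (nat_lit 13) (nat_lit 13))
    (@En.i (nat_lit 8645) (nat_lit 7) (nat_lit 14))
    (@En.n l1738 (nat_lit 867) (nat_lit 2) (nat_lit 7))
    (@En.n l18 (nat_lit 868) (nat_lit 15) (nat_lit 2))))
  (@Cl.mk (nat_lit 0x20009000c000c00090006000400040007000d000d000700030003000e000a) (nat_lit 0x22100000b0000c0) (nat_lit 16) Lb.e (@T16.mk En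
    (@En.i (nat_lit 875) (nat_lit 13) (nat_lit 10))
    (@En.n l476 (nat_lit 7742) (nat_lit 1) (nat_lit 14))
    (@En.n l152 (nat_lit 867) (nat_lit 13) (nat_lit 3))
    (@En.n l1651 (nat_lit 871) (nat_lit 3) (nat_lit 3))
    (@En.n l97 (nat_lit 1812) (nat_lit 4) (nat_lit 7))
    (@En.n l12793 (nat_lit 871) (nat_lit 6) (nat_lit 13))
    (@En.n l6628 (nat_lit 8086) (nat_lit 7) (nat_lit 13))
    (@En.n l12794 (nat_lit 872) (nat_lit 7) (nat_lit 7))
    (@En.n l12795 (nat_lit 872) (nat_lit 8) (nat_lit 4))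
    (@En.n l6628 (nat_lit 6311) (nat_lit 9) (nat_lit 4))
    (@En.i (nat_lit 502) (nat_lit 0) (nat_lit 6))
    (@En.n l1234 (nat_lit 8268) (nat_lit 12) (nat_lit 9))
    (@En.n l217 (nat_lit 866) (nat_lit 4) (nat_lit 12))
    (@En.i (nat_lit 1948) (nat_lit 14) (nat_lit 12))
    (@En.n l6628 (nat_lit 392) (nat_lit 11) (nat_lit 9))
    (@En.n l28 (nat_lit 869) (nat_lit 15) (nat_lit 2))))
  (@Cl.mk (nat_lit 0x20007000d0007000e00030002000e000b00020009000c00090005000e0004) (nat_lit 0xb0000800200000) (nat_lit 16) Lb.e (@T16.mk En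
    (@En.n l11 (nat_lit 871) (nat_lit 9) (nat_lit 4))
    (@En.n l1253 (nat_lit 5500) (nat_lit 1) (nat_lit 14))
    (@En.n l2616 (nat_lit 504) (nat_lit 2) (nat_lit 5))
    (@En.i (nat_lit 8645) (nat_lit 3) (nat_lit 9))
    (@En.n l387 (nat_lit 4100) (nat_lit 14) (nat_lit 12))
    (@En.n l170 (nat_lit 391) (nat_lit 12) (nat_lit 9))
    (@En.n l3 (nat_lit 870) (nat_lit 6) (nat_lit 2))
    (@En.n l387 (nat_lit 3117) (nat_lit 8) (nat_lit 11))
    (@En.n l3256 (nat_lit 7415) (nat_lit 1) (nat_lit 14))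
    (@En.n l18 (nat_lit 870) (nat_lit 9) (nat_lit 2))
    (@En.n l339 (nat_lit 866) (nat_lit 10) (nat_lit 3))
    (@En.n l1393 (nat_lit 13391) (nat_lit 0) (nat_lit 14))
    (@En.n l2616 (nat_lit 1942) (nat_lit 13) (nat_lit 7))
    (@En.i (nat_lit 8079) (nat_lit 7) (nat_lit 13))
    (@En.n l536 (nat_lit 871) (nat_lit 7) (nat_lit 7))
    (@En.n l28 (nat_lit 870) (nat_lit 15) (nat_lit 2))))
  (@Cl.mk (nat_lit 0x20009000c000c000a0006000400040007000d0006000e00030002000e000a) (nat_lit 0x22100000b000070) (nat_lit 16) Lb.e (@T16.mk En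
    (@En.n l7900 (nat_lit 876) (nat_lit 14) (nat_lit 10))
    (@En.i (nat_lit 7741) (nat_lit 1) (nat_lit 14))
    (@En.n l18 (nat_lit 871) (nat_lit 2) (nat_lit 2))
    (@En.n l6373 (nat_lit 869) (nat_lit 3) (nat_lit 3))
    (@En.i (nat_lit 13389) (nat_lit 0) (nat_lit 14))
    (@En.i (nat_lit 1931) (nat_lit 5) (nat_lit 6))
    (@En.i (nat_lit 8082) (nat_lit 7) (nat_lit 13))
    (@En.n l343 (nat_lit 874) (nat_lit 7) (nat_lit 7))
    (@En.n l1577 (nat_lit 874) (nat_lit 8) (nat_lit 4))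
    (@En.i (nat_lit 6312) (nat_lit 9) (nat_lit 4))
    (@En.n l5155 (nat_lit 505) (nat_lit 7) (nat_lit 6))
    (@En.n l457 (nat_lit 8886) (nat_lit 12) (nat_lit 10))
    (@En.n l1578 (nat_lit 870) (nat_lit 4) (nat_lit 12))
    (@En.n l387 (nat_lit 1947) (nat_lit 14) (nat_lit 12))
    (@En.i (nat_lit 394) (nat_lit 12) (nat_lit 9))
    (@En.n l3 (nat_lit 871) (nat_lit 15) (nat_lit 2))))
  (@Cl.mk (nat_lit 0x20009000e000c0002000a000700040007000d000d000600030003000e0009) (nat_lit 0x2030000000000c0) (nat_lit 16) Lb.e (@T16.mk En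
    (@En.n l2900 (nat_lit 877) (nat_lit 4) (nat_lit 9))
    (@En.n l3786 (nat_lit 7746) (nat_lit 1) (nat_lit 14))
    (@En.n l5361 (nat_lit 873) (nat_lit 13) (nat_lit 3))
    (@En.n l278 (nat_lit 874) (nat_lit 3) (nat_lit 3))
    (@En.n l77 (nat_lit 1815) (nat_lit 0) (nat_lit 6))
    (@En.n l6488 (nat_lit 874) (nat_lit 6) (nat_lit 13))
    (@En.n l6489 (nat_lit 9001) (nat_lit 7) (nat_lit 13))
    (@En.i (nat_lit 12949) (nat_lit 11) (nat_lit 7))
    (@En.n l6489 (nat_lit 6315) (nat_lit 8) (nat_lit 4))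
    (@En.n l2900 (nat_lit 507) (nat_lit 14) (nat_lit 7))
    (@En.i (nat_lit 8269) (nat_lit 11) (nat_lit 10))
    (@En.n l107 (nat_lit 872) (nat_lit 11) (nat_lit 2))
    (@En.n l6490 (nat_lit 869) (nat_lit 13) (nat_lit 12))
    (@En.n l6491 (nat_lit 3943) (nat_lit 1) (nat_lit 14))
    (@En.n l4839 (nat_lit 387) (nat_lit 2) (nat_lit 9))
    (@En.n l17 (nat_lit 872) (nat_lit 15) (nat_lit 2))))
  (@Cl.mk (nat_lit 0x200070003000e000900020009000e000c00020009000700040007000e000d) (nat_lit 0x6002030000091) (nat_lit 16) Lb.e (@T16.mk En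
    (@En.n l2438 (nat_lit 872) (nat_lit 6) (nat_lit 13))
    (@En.n l313 (nat_lit 8647) (nat_lit 7) (nat_lit 14))
    (@En.n l699 (nat_lit 12948) (nat_lit 11) (nat_lit 7))
    (@En.n l1391 (nat_lit 6320) (nat_lit 3) (nat_lit 4))
    (@En.i (nat_lit 517) (nat_lit 14) (nat_lit 7))
    (@En.n l1872 (nat_lit 8929) (nat_lit 5) (nat_lit 9))
    (@En.n l18 (nat_lit 873) (nat_lit 6) (nat_lit 2))
    (@En.n l1708 (nat_lit 867) (nat_lit 8) (nat_lit 12))
    (@En.n l1063 (nat_lit 3945) (nat_lit 9) (nat_lit 14))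
    (@En.n l1599 (nat_lit 459) (nat_lit 10) (nat_lit 9))
    (@En.n l28 (nat_lit 873) (nat_lit 10) (nat_lit 2))
    (@En.i (nat_lit 3118) (nat_lit 12) (nat_lit 9))
    (@En.n l1391 (nat_lit 5766) (nat_lit 1) (nat_lit 14))
    (@En.n l4473 (nat_lit 872) (nat_lit 2) (nat_lit 3))
    (@En.i (nat_lit 1787) (nat_lit 3) (nat_lit 7))
    (@En.n l3 (nat_lit 873) (nat_lit 15) (nat_lit 2))))
  (@Cl.mk (nat_lit 0x20009000e000c0002000b000700040007000d0005000e00030002000e0009) (nat_lit 0x20300000b000060) (nat_lit 16) Lb.e (@T16.mk En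
    (@En.n l2238 (nat_lit 3104) (nat_lit 14) (nat_lit 9))
    (@En.n l8115 (nat_lit 7745) (nat_lit 1) (nat_lit 14))
    (@En.n l18 (nat_lit 874) (nat_lit 2) (nat_lit 2))
    (@En.n l2239 (nat_lit 872) (nat_lit 3) (nat_lit 3))
    (@En.i (nat_lit 13390) (nat_lit 0) (nat_lit 14))
    (@En.n l996 (nat_lit 1930) (nat_lit 5) (nat_lit 5))
    (@En.i (nat_lit 9000) (nat_lit 7) (nat_lit 13))
    (@En.n l86 (nat_lit 12952) (nat_lit 11) (nat_lit 7))
    (@En.i (nat_lit 6313) (nat_lit 8) (nat_lit 4))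
    (@En.n l86 (nat_lit 503) (nat_lit 14) (nat_lit 7))
    (@En.n l2228 (nat_lit 8887) (nat_lit 11) (nat_lit 11))
    (@En.n l11 (nat_lit 874) (nat_lit 11) (nat_lit 2))
    (@En.n l55 (nat_lit 871) (nat_lit 13) (nat_lit 12))
    (@En.n l387 (nat_lit 3944) (nat_lit 1) (nat_lit 14))
    (@En.i (nat_lit 458) (nat_lit 12) (nat_lit 9))
    (@En.n l3 (nat_lit 874) (nat_lit 15) (nat_lit 2))))
  (@Cl.mk (nat_lit 0x30003000a000a0008000b000b000800060006000500050008000d000d0008) (nat_lit 0x80400000000005) (nat_lit 16) Lb.e (@T16.mk En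
    (@En.n l97 (nat_lit 1814) (nat_lit 0) (nat_lit 8))
    (@En.n l148 (nat_lit 876) (nat_lit 3) (nat_lit 13))
    (@En.n l15637 (nat_lit 9010) (nat_lit 2) (nat_lit 13))
    (@En.n l2114 (nat_lit 877) (nat_lit 10) (nat_lit 8))
    (@En.n l1959 (nat_lit 877) (nat_lit 11) (nat_lit 5))
    (@En.n l3787 (nat_lit 3019) (nat_lit 5) (nat_lit 5))
    (@En.n l55 (nat_lit 869) (nat_lit 10) (nat_lit 6))
    (@En.i (nat_lit 857) (nat_lit 7) (nat_lit 6))
    (@En.n l13032 (nat_lit 8893) (nat_lit 9) (nat_lit 8))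
    (@En.n l2337 (nat_lit 3114) (nat_lit 5) (nat_lit 11))
    (@En.i (nat_lit 1945) (nat_lit 7) (nat_lit 11))
    (@En.n l2019 (nat_lit 1139) (nat_lit 12) (nat_lit 8))
    (@En.n l2281 (nat_lit 3108) (nat_lit 6) (nat_lit 10))
    (@En.i (nat_lit 1994) (nat_lit 14) (nat_lit 10))
    (@En.n l152 (nat_lit 3115) (nat_lit 13) (nat_lit 3))
    (@En.n l146 (nat_lit 876) (nat_lit 0) (nat_lit 3))))
  (@Cl.mk (nat_lit 0x2000a000a0008000b000b000900060006000500050008000d0007000e0003) (nat_lit 0x80500000000b000) (nat_lit 16) Lb.e (@T16.mk En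
    (@En.n l137 (nat_lit 875) (nat_lit 15) (nat_lit 3))
    (@En.n l18964 (nat_lit 13385) (nat_lit 0) (nat_lit 14))
    (@En.n l4112 (nat_lit 1904) (nat_lit 2) (nat_lit 7))
    (@En.n l18965 (nat_lit 9009) (nat_lit 4) (nat_lit 13))
    (@En.n l18966 (nat_lit 3104) (nat_lit 4) (nat_lit 8))
    (@En.n l9557 (nat_lit 3104) (nat_lit 5) (nat_lit 5))
    (@En.n l18965 (nat_lit 3259) (nat_lit 6) (nat_lit 5))
    (@En.n l18967 (nat_lit 871) (nat_lit 10) (nat_lit 6))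
    (@En.n l4112 (nat_lit 862) (nat_lit 8) (nat_lit 6))
    (@En.i (nat_lit 8891) (nat_lit 10) (nat_lit 9))
    (@En.n l55 (nat_lit 3117) (nat_lit 5) (nat_lit 11))
    (@En.i (nat_lit 1953) (nat_lit 12) (nat_lit 11))
    (@En.n l18968 (nat_lit 1140) (nat_lit 13) (nat_lit 8))
    (@En.n l4003 (nat_lit 3106) (nat_lit 6) (nat_lit 10))
    (@En.i (nat_lit 1993) (nat_lit 14) (nat_lit 10))
    (@En.n l17 (nat_lit 876) (nat_lit 15) (nat_lit 2))))
  (@Cl.mk (nat_lit 0x200090007000700050008000d000d000700030003000900090008000e000b) (nat_lit 0x60000070401) (nat_lit 16) Lb.e (@T16.mk En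
    (@En.n l1708 (nat_lit 875) (nat_lit 10) (nat_lit 11))
    (@En.n l1063 (nat_lit 3092) (nat_lit 1) (nat_lit 14))
    (@En.n l890 (nat_lit 1312) (nat_lit 2) (nat_lit 8))
    (@En.n l16106 (nat_lit 3105) (nat_lit 7) (nat_lit 9))
    (@En.n l12362 (nat_lit 1996) (nat_lit 4) (nat_lit 9))
    (@En.n l152 (nat_lit 3118) (nat_lit 13) (nat_lit 3))
    (@En.n l16107 (nat_lit 3104) (nat_lit 0) (nat_lit 3))
    (@En.n l97 (nat_lit 1858) (nat_lit 0) (nat_lit 7))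
    (@En.n l16108 (nat_lit 3104) (nat_lit 3) (nat_lit 13))
    (@En.n l16109 (nat_lit 9006) (nat_lit 10) (nat_lit 13))
    (@En.n l699 (nat_lit 12951) (nat_lit 10) (nat_lit 8))
    (@En.n l8362 (nat_lit 3014) (nat_lit 4) (nat_lit 5))
    (@En.n l8390 (nat_lit 872) (nat_lit 9) (nat_lit 7))
    (@En.i (nat_lit 856) (nat_lit 14) (nat_lit 7))
    (@En.n l2439 (nat_lit 8892) (nat_lit 8) (nat_lit 9))
    (@En.n l18 (nat_lit 877) (nat_lit 15) (nat_lit 2))))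
  (@Cl.mk (nat_lit 0x2000600050004000a000d000d000b000300030006000a0005000b000e000c) (nat_lit 0x800000010924) (nat_lit 16) Lb.e (@T16.mk En
    (@En.n l6208 (nat_lit 586) (nat_lit 9) (nat_lit 12))
    (@En.n l6209 (nat_lit 747) (nat_lit 4) (nat_lit 14))
    (@En.n l2130 (nat_lit 600) (nat_lit 2) (nat_lit 11))
    (@En.n l6210 (nat_lit 888) (nat_lit 3) (nat_lit 5))
    (@En.n l1063 (nat_lit 377) (nat_lit 4) (nat_lit 10))
    (@En.n l6211 (nat_lit 880) (nat_lit 5) (nat_lit 6))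
    (@En.n l6212 (nat_lit 880) (nat_lit 6) (nat_lit 3))
    (@En.n l5376 (nat_lit 879) (nat_lit 7) (nat_lit 3))
    (@En.n l1997 (nat_lit 881) (nat_lit 9) (nat_lit 11))
    (@En.n l6213 (nat_lit 879) (nat_lit 10) (nat_lit 13))
    (@En.n l5372 (nat_lit 3640) (nat_lit 11) (nat_lit 13))
    (@En.n l396 (nat_lit 404) (nat_lit 12) (nat_lit 10))
    (@En.n l1063 (nat_lit 558) (nat_lit 4) (nat_lit 4))
    (@En.n l7 (nat_lit 847) (nat_lit 14) (nat_lit 5))
    (@En.n l6214 (nat_lit 647) (nat_lit 6) (nat_lit 6))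
    (@En.n l18 (nat_lit 878) (nat_lit 15) (nat_lit 2))))
  (@Cl.mk (nat_lit 0x2000600050004000a000d000a000e000300020006000a0006000b000e000c) (nat_lit 0x8b0000070924) (nat_lit 16) Lb.e (@T16.mk En
    (@En.n l2213 (nat_lit 587) (nat_lit 10) (nat_lit 12))
    (@En.n l1005 (nat_lit 748) (nat_lit 4) (nat_lit 14))
    (@En.n l3340 (nat_lit 604) (nat_lit 2) (nat_lit 11))
    (@En.n l1353 (nat_lit 2657) (nat_lit 13) (nat_lit 6))
    (@En.n l2041 (nat_lit 1088) (nat_lit 4) (nat_lit 10))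
    (@En.n l2911 (nat_lit 878) (nat_lit 5) (nat_lit 6))
    (@En.n l7 (nat_lit 879) (nat_lit 6) (nat_lit 2))
    (@En.n l9025 (nat_lit 878) (nat_lit 7) (nat_lit 3))
    (@En.i (nat_lit 13802) (nat_lit 0) (nat_lit 14))
    (@En.n l532 (nat_lit 882) (nat_lit 2) (nat_lit 10))
    (@En.i (nat_lit 3916) (nat_lit 11) (nat_lit 13))
    (@En.i (nat_lit 431) (nat_lit 12) (nat_lit 10))
    (@En.n l2221 (nat_lit 562) (nat_lit 5) (nat_lit 4))
    (@En.n l725 (nat_lit 848) (nat_lit 14) (nat_lit 5))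
    (@En.n l3340 (nat_lit 651) (nat_lit 7) (nat_lit 6))
    (@En.n l3 (nat_lit 879) (nat_lit 15) (nat_lit 2))))
noncomputable def a55 : T16 Cl := @T16.mk Cl
  (@Cl.mk (nat_lit 0x2000600050004000a000e000d0002000c00030006000a0004000b000e000c) (nat_lit 0x801000010924) (nat_lit 16) Lb.e (@T16.mk En
    (@En.n l2213 (nat_lit 588) (nat_lit 8) (nat_lit 12))
    (@En.n l862 (nat_lit 749) (nat_lit 4) (nat_lit 14))
    (@En.i (nat_lit 605) (nat_lit 2) (nat_lit 11))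
    (@En.n l1353 (nat_lit 889) (nat_lit 3) (nat_lit 4))
    (@En.n l248 (nat_lit 376) (nat_lit 4) (nat_lit 10))
    (@En.i (nat_lit 13802) (nat_lit 12) (nat_lit 6))
    (@En.n l5334 (nat_lit 878) (nat_lit 6) (nat_lit 3))
    (@En.i (nat_lit 883) (nat_lit 0) (nat_lit 12))
    (@En.n l7 (nat_lit 880) (nat_lit 8) (nat_lit 2))
    (@En.n l2031 (nat_lit 878) (nat_lit 10) (nat_lit 13))
    (@En.n l532 (nat_lit 4017) (nat_lit 11) (nat_lit 14))
    (@En.n l15197 (nat_lit 430) (nat_lit 12) (nat_lit 10))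
    (@En.n l2221 (nat_lit 563) (nat_lit 3) (nat_lit 4))
    (@En.n l5335 (nat_lit 849) (nat_lit 14) (nat_lit 5))
    (@En.n l2571 (nat_lit 652) (nat_lit 5) (nat_lit 6))
    (@En.n l3 (nat_lit 880) (nat_lit 15) (nat_lit 2))))
  (@Cl.mk (nat_lit 0x2000700050004000b000e000b0002000c0005000900050004000b000e000c) (nat_lit 0x909000100102) (nat_lit 16) Lb.e (@T16.mk En
    (@En.n l8469 (nat_lit 2190) (nat_lit 8) (nat_lit 12))
    (@En.n l3599 (nat_lit 2477) (nat_lit 4) (nat_lit 14))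
    (@En.n l1998 (nat_lit 25) (nat_lit 2) (nat_lit 11))
    (@En.n l601 (nat_lit 880) (nat_lit 3) (nat_lit 4))
    (@En.n l3599 (nat_lit 891) (nat_lit 4) (nat_lit 5))
    (@En.n l8470 (nat_lit 378) (nat_lit 5) (nat_lit 9))
    (@En.n l28 (nat_lit 883) (nat_lit 14) (nat_lit 5))
    (@En.n l77 (nat_lit 886) (nat_lit 8) (nat_lit 12))
    (@En.n l50 (nat_lit 881) (nat_lit 8) (nat_lit 2))
    (@En.n l8471 (nat_lit 885) (nat_lit 10) (nat_lit 11))
    (@En.n l8472 (nat_lit 3704) (nat_lit 11) (nat_lit 14))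
    (@En.n l8473 (nat_lit 1438) (nat_lit 12) (nat_lit 11))
    (@En.n l8474 (nat_lit 2148) (nat_lit 3) (nat_lit 4))
    (@En.n l8475 (nat_lit 2264) (nat_lit 14) (nat_lit 5))
    (@En.n l8476 (nat_lit 2513) (nat_lit 5) (nat_lit 7))
    (@En.n l3 (nat_lit 881) (nat_lit 15) (nat_lit 2))))
  (@Cl.mk (nat_lit 0x20005000900060005000b000e000c0002000700050004000b000a000e000b) (nat_lit 0x20200007800) (nat_lit 16) Lb.e (@T16.mk En
    (@En.n l2906 (nat_lit 885) (nat_lit 9) (nat_lit 11))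
    (@En.n l50 (nat_lit 884) (nat_lit 10) (nat_lit 14))
    (@En.n l2579 (nat_lit 2407) (nat_lit 11) (nat_lit 10))
    (@En.n l2907 (nat_lit 1452) (nat_lit 3) (nat_lit 11))
    (@En.n l2908 (nat_lit 2150) (nat_lit 4) (nat_lit 4))
    (@En.n l725 (nat_lit 2265) (nat_lit 14) (nat_lit 5))
    (@En.n l2909 (nat_lit 2468) (nat_lit 6) (nat_lit 7))
    (@En.n l3 (nat_lit 882) (nat_lit 7) (nat_lit 2))
    (@En.n l2910 (nat_lit 2235) (nat_lit 9) (nat_lit 12))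
    (@En.n l1008 (nat_lit 2478) (nat_lit 10) (nat_lit 14))
    (@En.i (nat_lit 12746) (nat_lit 11) (nat_lit 11))
    (@En.n l2911 (nat_lit 878) (nat_lit 3) (nat_lit 5))
    (@En.n l2912 (nat_lit 3608) (nat_lit 13) (nat_lit 6))
    (@En.n l2908 (nat_lit 1019) (nat_lit 5) (nat_lit 9))
    (@En.n l2913 (nat_lit 881) (nat_lit 6) (nat_lit 5))
    (@En.n l28 (nat_lit 882) (nat_lit 15) (nat_lit 2))))
  (@Cl.mk (nat_lit 0x20005000900040007000b000e000c0002000700050004000b0009000e000c) (nat_lit 0x1000120000941a) (nat_lit 16) Lb.e (@T16.mk En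
    (@En.i (nat_lit 886) (nat_lit 9) (nat_lit 12))
    (@En.i (nat_lit 881) (nat_lit 10) (nat_lit 14))
    (@En.n l287 (nat_lit 889) (nat_lit 11) (nat_lit 9))
    (@En.i (nat_lit 1439) (nat_lit 3) (nat_lit 11))
    (@En.n l2221 (nat_lit 2181) (nat_lit 4) (nat_lit 4))
    (@En.n l725 (nat_lit 2261) (nat_lit 14) (nat_lit 5))
    (@En.n l2571 (nat_lit 2575) (nat_lit 6) (nat_lit 7))
    (@En.n l3 (nat_lit 883) (nat_lit 7) (nat_lit 2))
    (@En.n l2213 (nat_lit 2184) (nat_lit 9) (nat_lit 12))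
    (@En.n l1006 (nat_lit 758) (nat_lit 10) (nat_lit 14))
    (@En.i (nat_lit 12649) (nat_lit 11) (nat_lit 11))
    (@En.i (nat_lit 13805) (nat_lit 11) (nat_lit 7))
    (@En.n l1353 (nat_lit 890) (nat_lit 4) (nat_lit 4))
    (@En.n l248 (nat_lit 380) (nat_lit 5) (nat_lit 9))
    (@En.i (nat_lit 884) (nat_lit 6) (nat_lit 5))
    (@En.n l50 (nat_lit 883) (nat_lit 15) (nat_lit 2))))
  (@Cl.mk (nat_lit 0x2000700050004000b000e000a0002000d0005000900030006000b000e000c) (nat_lit 0x7c0000000002) (nat_lit 16) Lb.e (@T16.mk En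
    (@En.n l2213 (nat_lit 2236) (nat_lit 8) (nat_lit 12))
    (@En.i (nat_lit 2483) (nat_lit 4) (nat_lit 14))
    (@En.i (nat_lit 12745) (nat_lit 2) (nat_lit 11))
    (@En.i (nat_lit 879) (nat_lit 3) (nat_lit 6))
    (@En.n l2869 (nat_lit 2407) (nat_lit 4) (nat_lit 3))
    (@En.n l8375 (nat_lit 1244) (nat_lit 0) (nat_lit 9))
    (@En.i (nat_lit 882) (nat_lit 14) (nat_lit 5))
    (@En.i (nat_lit 887) (nat_lit 8) (nat_lit 13))
    (@En.n l28 (nat_lit 884) (nat_lit 8) (nat_lit 2))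
    (@En.n l134 (nat_lit 887) (nat_lit 10) (nat_lit 10))
    (@En.i (nat_lit 4729) (nat_lit 11) (nat_lit 14))
    (@En.n l7882 (nat_lit 1455) (nat_lit 12) (nat_lit 11))
    (@En.n l2221 (nat_lit 2203) (nat_lit 3) (nat_lit 4))
    (@En.n l725 (nat_lit 2266) (nat_lit 14) (nat_lit 5))
    (@En.n l2571 (nat_lit 2616) (nat_lit 5) (nat_lit 7))
    (@En.n l3 (nat_lit 884) (nat_lit 15) (nat_lit 2))))
  (@Cl.mk (nat_lit 0x2000800050004000c000b000b000b00040008000500050005000b000e000c) (nat_lit 0x789001000002) (nat_lit 16) Lb.e (@T16.mk En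
    (@En.n l6237 (nat_lit 2224) (nat_lit 2) (nat_lit 12))
    (@En.n l6238 (nat_lit 2476) (nat_lit 4) (nat_lit 14))
    (@En.n l6239 (nat_lit 12682) (nat_lit 2) (nat_lit 11))
    (@En.n l6240 (nat_lit 882) (nat_lit 11) (nat_lit 5))
    (@En.n l6241 (nat_lit 881) (nat_lit 4) (nat_lit 5))
    (@En.n l6238 (nat_lit 3581) (nat_lit 5) (nat_lit 5))
    (@En.n l1063 (nat_lit 354) (nat_lit 6) (nat_lit 8))
    (@En.n l6242 (nat_lit 886) (nat_lit 7) (nat_lit 4))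
    (@En.n l6243 (nat_lit 2380) (nat_lit 9) (nat_lit 11))
    (@En.n l6244 (nat_lit 2285) (nat_lit 5) (nat_lit 11))
    (@En.n l6245 (nat_lit 2405) (nat_lit 11) (nat_lit 11))
    (@En.n l396 (nat_lit 1417) (nat_lit 12) (nat_lit 12))
    (@En.n l1063 (nat_lit 2146) (nat_lit 12) (nat_lit 4))
    (@En.n l7 (nat_lit 2229) (nat_lit 14) (nat_lit 5))
    (@En.n l6246 (nat_lit 2502) (nat_lit 1) (nat_lit 8))
    (@En.n l18 (nat_lit 885) (nat_lit 15) (nat_lit 2))))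
  (@Cl.mk (nat_lit 0x2000800050004000c0009000c000c00040008000400040007000b000e000c) (nat_lit 0x949a01000002) (nat_lit 16) Lb.e (@T16.mk En
    (@En.n l2213 (nat_lit 2189) (nat_lit 2) (nat_lit 12))
    (@En.n l9222 (nat_lit 2061) (nat_lit 4) (nat_lit 14))
    (@En.n l14302 (nat_lit 12623) (nat_lit 2) (nat_lit 11))
    (@En.n l7 (nat_lit 883) (nat_lit 11) (nat_lit 7))
    (@En.n l644 (nat_lit 883) (nat_lit 12) (nat_lit 4))
    (@En.n l15262 (nat_lit 2321) (nat_lit 5) (nat_lit 4))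
    (@En.n l2205 (nat_lit 381) (nat_lit 6) (nat_lit 8))
    (@En.i (nat_lit 887) (nat_lit 7) (nat_lit 4))
    (@En.n l5837 (nat_lit 2320) (nat_lit 4) (nat_lit 12))
    (@En.n l15263 (nat_lit 2380) (nat_lit 10) (nat_lit 12))
    (@En.n l9222 (nat_lit 888) (nat_lit 11) (nat_lit 9))
    (@En.n l14302 (nat_lit 1440) (nat_lit 12) (nat_lit 12))
    (@En.n l15264 (nat_lit 1852) (nat_lit 12) (nat_lit 4))
    (@En.n l725 (nat_lit 2258) (nat_lit 14) (nat_lit 5))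
    (@En.n l15263 (nat_lit 2572) (nat_lit 1) (nat_lit 8))
    (@En.n l3 (nat_lit 886) (nat_lit 15) (nat_lit 2))))
  (@Cl.mk (nat_lit 0x2000800050004000c000a000a000d00040008000300060006000b000e000c) (nat_lit 0x880b00000503) (nat_lit 16) Lb.e (@T16.mk En
    (@En.n l7441 (nat_lit 2237) (nat_lit 11) (nat_lit 12))
    (@En.n l1009 (nat_lit 2481) (nat_lit 4) (nat_lit 14))
    (@En.i (nat_lit 12698) (nat_lit 2) (nat_lit 11))
    (@En.n l7 (nat_lit 884) (nat_lit 3) (nat_lit 6))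
    (@En.n l644 (nat_lit 882) (nat_lit 12) (nat_lit 6))
    (@En.n l9222 (nat_lit 2405) (nat_lit 5) (nat_lit 3))
    (@En.n l8375 (nat_lit 1245) (nat_lit 0) (nat_lit 8))
    (@En.n l9223 (nat_lit 885) (nat_lit 7) (nat_lit 4))
    (@En.n l9224 (nat_lit 2404) (nat_lit 9) (nat_lit 13))
    (@En.n l9225 (nat_lit 2404) (nat_lit 10) (nat_lit 10))
    (@En.n l564 (nat_lit 890) (nat_lit 11) (nat_lit 10))
    (@En.n l3338 (nat_lit 1423) (nat_lit 12) (nat_lit 12))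
    (@En.n l4018 (nat_lit 2201) (nat_lit 12) (nat_lit 4))
    (@En.n l725 (nat_lit 2267) (nat_lit 14) (nat_lit 5))
    (@En.n l9226 (nat_lit 2444) (nat_lit 1) (nat_lit 8))
    (@En.n l3 (nat_lit 887) (nat_lit 15) (nat_lit 2))))
  (@Cl.mk (nat_lit 0x20009000500040009000c000c000b00070004000400070005000b000e000c) (nat_lit 0x300000000002) (nat_lit 16) Lb.e (@T16.mk En
    (@En.n l15344 (nat_lit 835) (nat_lit 2) (nat_lit 12))
    (@En.i (nat_lit 3357) (nat_lit 4) (nat_lit 14))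
    (@En.n l15345 (nat_lit 5979) (nat_lit 2) (nat_lit 11))
    (@En.n l15346 (nat_lit 885) (nat_lit 3) (nat_lit 5))
    (@En.n l15347 (nat_lit 889) (nat_lit 4) (nat_lit 7))
    (@En.n l1201 (nat_lit 889) (nat_lit 5) (nat_lit 4))
    (@En.i (nat_lit 4434) (nat_lit 6) (nat_lit 4))
    (@En.n l15348 (nat_lit 441) (nat_lit 7) (nat_lit 7))
    (@En.n l457 (nat_lit 891) (nat_lit 9) (nat_lit 11))
    (@En.n l4012 (nat_lit 2657) (nat_lit 4) (nat_lit 12))
    (@En.n l1329 (nat_lit 2665) (nat_lit 6) (nat_lit 12))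
    (@En.i (nat_lit 7898) (nat_lit 12) (nat_lit 9))
    (@En.n l1329 (nat_lit 2214) (nat_lit 12) (nat_lit 4))
    (@En.n l15349 (nat_lit 2659) (nat_lit 14) (nat_lit 5))
    (@En.n l15346 (nat_lit 3306) (nat_lit 1) (nat_lit 9))
    (@En.n l18 (nat_lit 888) (nat_lit 15) (nat_lit 2))))
  (@Cl.mk (nat_lit 0x20008000500040009000e000c0002000c0008000400070004000b000e000c) (nat_lit 0x301001000002) (nat_lit 16) Lb.e (@T16.mk En
    (@En.n l6901 (nat_lit 2208) (nat_lit 8) (nat_lit 12))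
    (@En.n l2790 (nat_lit 3358) (nat_lit 4) (nat_lit 14))
    (@En.i (nat_lit 5981) (nat_lit 10) (nat_lit 11))
    (@En.n l1722 (nat_lit 881) (nat_lit 3) (nat_lit 4))
    (@En.n l9501 (nat_lit 13146) (nat_lit 11) (nat_lit 7))
    (@En.n l2790 (nat_lit 4436) (nat_lit 5) (nat_lit 4))
    (@En.n l617 (nat_lit 626) (nat_lit 14) (nat_lit 8))
    (@En.i (nat_lit 890) (nat_lit 8) (nat_lit 12))
    (@En.n l7 (nat_lit 889) (nat_lit 8) (nat_lit 2))
    (@En.n l4065 (nat_lit 888) (nat_lit 10) (nat_lit 12))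
    (@En.n l15754 (nat_lit 4085) (nat_lit 11) (nat_lit 14))
    (@En.n l2790 (nat_lit 7899) (nat_lit 12) (nat_lit 9))
    (@En.n l12871 (nat_lit 2212) (nat_lit 3) (nat_lit 4))
    (@En.n l17 (nat_lit 2661) (nat_lit 14) (nat_lit 5))
    (@En.n l13550 (nat_lit 3348) (nat_lit 5) (nat_lit 8))
    (@En.n l3 (nat_lit 889) (nat_lit 15) (nat_lit 2))))
  (@Cl.mk (nat_lit 0x2000900050004000a0009000d000c00070003000600040007000b000e000c) (nat_lit 0x700a00000002) (nat_lit 16) Lb.e (@T16.mk En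
    (@En.n l6901 (nat_lit 4390) (nat_lit 10) (nat_lit 12))
    (@En.n l3382 (nat_lit 3365) (nat_lit 4) (nat_lit 14))
    (@En.i (nat_lit 12577) (nat_lit 2) (nat_lit 11))
    (@En.i (nat_lit 4733) (nat_lit 11) (nat_lit 7))
    (@En.n l387 (nat_lit 886) (nat_lit 4) (nat_lit 4))
    (@En.n l3337 (nat_lit 2407) (nat_lit 5) (nat_lit 6))
    (@En.n l3380 (nat_lit 2322) (nat_lit 6) (nat_lit 3))
    (@En.n l617 (nat_lit 7683) (nat_lit 0) (nat_lit 7))
    (@En.n l17560 (nat_lit 2321) (nat_lit 9) (nat_lit 12))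
    (@En.n l3384 (nat_lit 891) (nat_lit 10) (nat_lit 13))
    (@En.n l3382 (nat_lit 4436) (nat_lit 11) (nat_lit 9))
    (@En.n l8769 (nat_lit 9437) (nat_lit 12) (nat_lit 10))
    (@En.n l21717 (nat_lit 4386) (nat_lit 12) (nat_lit 4))
    (@En.n l17 (nat_lit 2324) (nat_lit 14) (nat_lit 5))
    (@En.i (nat_lit 4305) (nat_lit 1) (nat_lit 9))
    (@En.n l3 (nat_lit 890) (nat_lit 15) (nat_lit 2))))
  (@Cl.mk (nat_lit 0x2000a00050004000a000d000b00060003000d000600050003000b000e000c) (nat_lit 0x7b9000000002) (nat_lit 16) Lb.e (@T16.mk En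
    (@En.n l9308 (nat_lit 4392) (nat_lit 13) (nat_lit 12))
    (@En.i (nat_lit 3361) (nat_lit 4) (nat_lit 14))
    (@En.n l9309 (nat_lit 12579) (nat_lit 2) (nat_lit 11))
    (@En.n l7 (nat_lit 4436) (nat_lit 3) (nat_lit 3))
    (@En.n l9310 (nat_lit 2380) (nat_lit 4) (nat_lit 5))
    (@En.n l1023 (nat_lit 890) (nat_lit 5) (nat_lit 6))
    (@En.n l9311 (nat_lit 2321) (nat_lit 7) (nat_lit 13))
    (@En.n l11 (nat_lit 3582) (nat_lit 7) (nat_lit 3))
    (@En.n l9312 (nat_lit 7682) (nat_lit 8) (nat_lit 6))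
    (@En.i (nat_lit 3581) (nat_lit 10) (nat_lit 11))
    (@En.n l9313 (nat_lit 3835) (nat_lit 5) (nat_lit 13))
    (@En.i (nat_lit 9444) (nat_lit 12) (nat_lit 10))
    (@En.n l1329 (nat_lit 4415) (nat_lit 12) (nat_lit 4))
    (@En.n l9314 (nat_lit 2329) (nat_lit 14) (nat_lit 5))
    (@En.n l9310 (nat_lit 4299) (nat_lit 1) (nat_lit 10))
    (@En.n l18 (nat_lit 891) (nat_lit 15) (nat_lit 2))))
  (@Cl.mk (nat_lit 0x2000a00030006000c000a000d000600040003000e00060002000a000e000d) (nat_lit 0x78b000100501) (nat_lit 16) Lb.e (@T16.mk En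
    (@En.n l2922 (nat_lit 575) (nat_lit 13) (nat_lit 13))
    (@En.n l17495 (nat_lit 2249) (nat_lit 1) (nat_lit 14))
    (@En.n l671 (nat_lit 479) (nat_lit 2) (nat_lit 10))
    (@En.n l18 (nat_lit 892) (nat_lit 3) (nat_lit 2))
    (@En.n l61 (nat_lit 573) (nat_lit 4) (nat_lit 6))
    (@En.n l17496 (nat_lit 434) (nat_lit 1) (nat_lit 14))
    (@En.i (nat_lit 896) (nat_lit 6) (nat_lit 3))
    (@En.n l17497 (nat_lit 743) (nat_lit 3) (nat_lit 4))
    (@En.n l17498 (nat_lit 899) (nat_lit 4) (nat_lit 6))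
    (@En.n l2922 (nat_lit 13085) (nat_lit 5) (nat_lit 13))
    (@En.i (nat_lit 652) (nat_lit 11) (nat_lit 10))
    (@En.n l2922 (nat_lit 1186) (nat_lit 8) (nat_lit 12))
    (@En.i (nat_lit 13341) (nat_lit 12) (nat_lit 6))
    (@En.n l5949 (nat_lit 575) (nat_lit 9) (nat_lit 3))
    (@En.n l3348 (nat_lit 1463) (nat_lit 0) (nat_lit 10))
    (@En.n l107 (nat_lit 892) (nat_lit 15) (nat_lit 2))))
  (@Cl.mk (nat_lit 0x20006000c000a000d000800040003000e00060002000a000d0008000e0003) (nat_lit 0x78b0001006b000) (nat_lit 16) Lb.e (@T16.mk En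
    (@En.n l5389 (nat_lit 575) (nat_lit 10) (nat_lit 3))
    (@En.n l3082 (nat_lit 13341) (nat_lit 0) (nat_lit 14))
    (@En.i (nat_lit 1772) (nat_lit 2) (nat_lit 8))
    (@En.i (nat_lit 2368) (nat_lit 5) (nat_lit 13))
    (@En.n l12479 (nat_lit 478) (nat_lit 4) (nat_lit 10))
    (@En.n l28 (nat_lit 893) (nat_lit 5) (nat_lit 2))
    (@En.n l1863 (nat_lit 574) (nat_lit 6) (nat_lit 6))
    (@En.n l7165 (nat_lit 433) (nat_lit 1) (nat_lit 14))
    (@En.n l152 (nat_lit 895) (nat_lit 8) (nat_lit 3))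
    (@En.n l1865 (nat_lit 742) (nat_lit 9) (nat_lit 4))
    (@En.i (nat_lit 898) (nat_lit 11) (nat_lit 8))
    (@En.n l5390 (nat_lit 13079) (nat_lit 5) (nat_lit 13))
    (@En.i (nat_lit 651) (nat_lit 13) (nat_lit 10))
    (@En.n l1106 (nat_lit 1174) (nat_lit 8) (nat_lit 12))
    (@En.n l17617 (nat_lit 575) (nat_lit 8) (nat_lit 6))
    (@En.n l18 (nat_lit 893) (nat_lit 15) (nat_lit 2))))
  (@Cl.mk (nat_lit 0x2000a000d000d0008000300030006000d000a000d000300080003000e0006) (nat_lit 0x500000078b03060) (nat_lit 16) Lb.e (@T16.mk En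
    (@En.n l2462 (nat_lit 577) (nat_lit 5) (nat_lit 6))
    (@En.n l2463 (nat_lit 794) (nat_lit 1) (nat_lit 14))
    (@En.n l2464 (nat_lit 575) (nat_lit 2) (nat_lit 3))
    (@En.n l2465 (nat_lit 1354) (nat_lit 3) (nat_lit 8))
    (@En.n l3 (nat_lit 786) (nat_lit 4) (nat_lit 3))
    (@En.n l2464 (nat_lit 13084) (nat_lit 5) (nat_lit 13))
    (@En.n l2466 (nat_lit 732) (nat_lit 12) (nat_lit 10))
    (@En.n l2464 (nat_lit 2305) (nat_lit 8) (nat_lit 13))
    (@En.n l2467 (nat_lit 896) (nat_lit 12) (nat_lit 6))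
    (@En.n l2468 (nat_lit 896) (nat_lit 13) (nat_lit 3))
    (@En.n l50 (nat_lit 895) (nat_lit 0) (nat_lit 3))
    (@En.n l2466 (nat_lit 1746) (nat_lit 0) (nat_lit 8))
    (@En.n l217 (nat_lit 895) (nat_lit 3) (nat_lit 13))
    (@En.i (nat_lit 2247) (nat_lit 5) (nat_lit 13))
    (@En.n l2469 (nat_lit 469) (nat_lit 3) (nat_lit 10))
    (@En.n l28 (nat_lit 894) (nat_lit 15) (nat_lit 2))))
  (@Cl.mk (nat_lit 0x20006000d000a000d000300090003000e00060002000a000d0007000e0003) (nat_lit 0x78a0306005b000) (nat_lit 16) Lb.e (@T16.mk En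
    (@En.i (nat_lit 894) (nat_lit 10) (nat_lit 3))
    (@En.n l2383 (nat_lit 13340) (nat_lit 0) (nat_lit 14))
    (@En.i (nat_lit 1502) (nat_lit 2) (nat_lit 7))
    (@En.i (nat_lit 2372) (nat_lit 14) (nat_lit 13))
    (@En.n l2469 (nat_lit 471) (nat_lit 4) (nat_lit 10))
    (@En.n l28 (nat_lit 895) (nat_lit 5) (nat_lit 2))
    (@En.n l2462 (nat_lit 583) (nat_lit 6) (nat_lit 6))
    (@En.n l2400 (nat_lit 792) (nat_lit 1) (nat_lit 14))
    (@En.n l117 (nat_lit 893) (nat_lit 8) (nat_lit 3))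
    (@En.n l7125 (nat_lit 1355) (nat_lit 10) (nat_lit 9))
    (@En.n l3 (nat_lit 789) (nat_lit 10) (nat_lit 3))
    (@En.n l2382 (nat_lit 13083) (nat_lit 5) (nat_lit 13))
    (@En.n l2403 (nat_lit 733) (nat_lit 13) (nat_lit 10))
    (@En.n l387 (nat_lit 2367) (nat_lit 8) (nat_lit 13))
    (@En.n l1738 (nat_lit 894) (nat_lit 8) (nat_lit 6))
    (@En.n l18 (nat_lit 895) (nat_lit 15) (nat_lit 2))))
noncomputable def a56 : T16 Cl := @T16.mk Cl
  (@Cl.mk (nat_lit 0x2000900030006000d000a000d000300070003000e00060002000a000e000d) (nat_lit 0x71a000600501) (nat_lit 16) Lb.e (@T16.mk En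
    (@En.n l7052 (nat_lit 894) (nat_lit 13) (nat_lit 13))
    (@En.n l6941 (nat_lit 2390) (nat_lit 1) (nat_lit 14))
    (@En.n l7053 (nat_lit 483) (nat_lit 2) (nat_lit 10))
    (@En.n l18 (nat_lit 896) (nat_lit 3) (nat_lit 2))
    (@En.n l7054 (nat_lit 803) (nat_lit 4) (nat_lit 6))
    (@En.n l7017 (nat_lit 793) (nat_lit 1) (nat_lit 14))
    (@En.n l7 (nat_lit 892) (nat_lit 6) (nat_lit 3))
    (@En.n l4807 (nat_lit 1356) (nat_lit 7) (nat_lit 7))
    (@En.n l3348 (nat_lit 790) (nat_lit 8) (nat_lit 3))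
    (@En.n l7055 (nat_lit 13087) (nat_lit 5) (nat_lit 13))
    (@En.i (nat_lit 734) (nat_lit 11) (nat_lit 10))
    (@En.n l7056 (nat_lit 2343) (nat_lit 8) (nat_lit 13))
    (@En.i (nat_lit 13340) (nat_lit 12) (nat_lit 6))
    (@En.n l6941 (nat_lit 894) (nat_lit 9) (nat_lit 3))
    (@En.n l7053 (nat_lit 1747) (nat_lit 0) (nat_lit 9))
    (@En.n l107 (nat_lit 896) (nat_lit 15) (nat_lit 2))))
  (@Cl.mk (nat_lit 0x20009000c000c00090008000400040007000d000b000700030008000e0005) (nat_lit 0x400310008000320) (nat_lit 16) Lb.e (@T16.mk En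
    (@En.n l16133 (nat_lit 903) (nat_lit 6) (nat_lit 5))
    (@En.n l16134 (nat_lit 3328) (nat_lit 1) (nat_lit 14))
    (@En.n l8898 (nat_lit 617) (nat_lit 2) (nat_lit 8))
    (@En.n l16135 (nat_lit 900) (nat_lit 3) (nat_lit 3))
    (@En.n l1787 (nat_lit 1934) (nat_lit 0) (nat_lit 7))
    (@En.n l1013 (nat_lit 7602) (nat_lit 6) (nat_lit 11))
    (@En.i (nat_lit 8348) (nat_lit 7) (nat_lit 13))
    (@En.n l16136 (nat_lit 899) (nat_lit 7) (nat_lit 7))
    (@En.n l16137 (nat_lit 899) (nat_lit 8) (nat_lit 4))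
    (@En.n l16138 (nat_lit 8094) (nat_lit 9) (nat_lit 4))
    (@En.n l7317 (nat_lit 894) (nat_lit 11) (nat_lit 8))
    (@En.n l16134 (nat_lit 9619) (nat_lit 12) (nat_lit 9))
    (@En.n l7393 (nat_lit 898) (nat_lit 4) (nat_lit 12))
    (@En.n l16134 (nat_lit 6422) (nat_lit 14) (nat_lit 12))
    (@En.n l16139 (nat_lit 7851) (nat_lit 11) (nat_lit 9))
    (@En.n l17 (nat_lit 897) (nat_lit 15) (nat_lit 2))))
  (@Cl.mk (nat_lit 0x20007000d000b000800030009000e000500020009000c00080007000e0004) (nat_lit 0x806032004a2000) (nat_lit 16) Lb.e (@T16.mk En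
    (@En.n l5389 (nat_lit 897) (nat_lit 9) (nat_lit 4))
    (@En.n l2381 (nat_lit 7195) (nat_lit 11) (nat_lit 14))
    (@En.n l97 (nat_lit 895) (nat_lit 2) (nat_lit 7))
    (@En.n l8368 (nat_lit 9614) (nat_lit 3) (nat_lit 8))
    (@En.i (nat_lit 6426) (nat_lit 14) (nat_lit 12))
    (@En.n l4755 (nat_lit 7852) (nat_lit 5) (nat_lit 9))
    (@En.n l28 (nat_lit 898) (nat_lit 6) (nat_lit 2))
    (@En.n l25957 (nat_lit 905) (nat_lit 7) (nat_lit 5))
    (@En.n l17213 (nat_lit 3330) (nat_lit 9) (nat_lit 14))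
    (@En.n l2381 (nat_lit 616) (nat_lit 10) (nat_lit 9))
    (@En.n l107 (nat_lit 901) (nat_lit 10) (nat_lit 3))
    (@En.n l2381 (nat_lit 1933) (nat_lit 4) (nat_lit 8))
    (@En.n l17884 (nat_lit 7601) (nat_lit 13) (nat_lit 11))
    (@En.n l30884 (nat_lit 8370) (nat_lit 7) (nat_lit 13))
    (@En.n l17617 (nat_lit 897) (nat_lit 7) (nat_lit 7))
    (@En.n l18 (nat_lit 898) (nat_lit 15) (nat_lit 2))))
  (@Cl.mk (nat_lit 0x20009000e000c0002000a000900040007000d000b000600030007000e0005) (nat_lit 0x401041007000020) (nat_lit 16) Lb.e (@T16.mk En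
    (@En.n l117 (nat_lit 904) (nat_lit 4) (nat_lit 5))
    (@En.n l6441 (nat_lit 3329) (nat_lit 6) (nat_lit 14))
    (@En.n l2004 (nat_lit 621) (nat_lit 2) (nat_lit 7))
    (@En.n l936 (nat_lit 902) (nat_lit 3) (nat_lit 3))
    (@En.i (nat_lit 1982) (nat_lit 0) (nat_lit 6))
    (@En.n l21499 (nat_lit 7612) (nat_lit 10) (nat_lit 11))
    (@En.n l3635 (nat_lit 8566) (nat_lit 7) (nat_lit 13))
    (@En.n l12686 (nat_lit 13356) (nat_lit 11) (nat_lit 7))
    (@En.n l6441 (nat_lit 8093) (nat_lit 8) (nat_lit 4))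
    (@En.n l28469 (nat_lit 896) (nat_lit 14) (nat_lit 9))
    (@En.i (nat_lit 9625) (nat_lit 11) (nat_lit 10))
    (@En.n l50 (nat_lit 899) (nat_lit 11) (nat_lit 2))
    (@En.n l3635 (nat_lit 897) (nat_lit 13) (nat_lit 12))
    (@En.n l6441 (nat_lit 4617) (nat_lit 1) (nat_lit 14))
    (@En.n l614 (nat_lit 7862) (nat_lit 2) (nat_lit 9))
    (@En.n l11 (nat_lit 899) (nat_lit 15) (nat_lit 2))))
  (@Cl.mk (nat_lit 0x20009000c000c000a0008000400040007000d0006000c00030008000e0004) (nat_lit 0x400010008000140) (nat_lit 16) Lb.e (@T16.mk En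
    (@En.i (nat_lit 7608) (nat_lit 6) (nat_lit 4))
    (@En.n l1262 (nat_lit 3325) (nat_lit 1) (nat_lit 14))
    (@En.n l14211 (nat_lit 340) (nat_lit 2) (nat_lit 8))
    (@En.n l5389 (nat_lit 897) (nat_lit 3) (nat_lit 3))
    (@En.n l12797 (nat_lit 7593) (nat_lit 0) (nat_lit 12))
    (@En.n l5389 (nat_lit 2524) (nat_lit 5) (nat_lit 6))
    (@En.n l28316 (nat_lit 8345) (nat_lit 7) (nat_lit 13))
    (@En.n l21928 (nat_lit 902) (nat_lit 7) (nat_lit 7))
    (@En.n l21929 (nat_lit 902) (nat_lit 8) (nat_lit 4))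
    (@En.n l14240 (nat_lit 8091) (nat_lit 9) (nat_lit 4))
    (@En.n l97 (nat_lit 786) (nat_lit 11) (nat_lit 8))
    (@En.n l1262 (nat_lit 8100) (nat_lit 12) (nat_lit 10))
    (@En.n l217 (nat_lit 901) (nat_lit 4) (nat_lit 12))
    (@En.i (nat_lit 6423) (nat_lit 14) (nat_lit 12))
    (@En.n l613 (nat_lit 7747) (nat_lit 11) (nat_lit 9))
    (@En.n l28 (nat_lit 900) (nat_lit 15) (nat_lit 2))))
  (@Cl.mk (nat_lit 0x20007000d0007000c00030009000e000400020009000c00090007000e0004) (nat_lit 0x800014004a0000) (nat_lit 16) Lb.e (@T16.mk En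
    (@En.i (nat_lit 900) (nat_lit 9) (nat_lit 4))
    (@En.n l1643 (nat_lit 7198) (nat_lit 11) (nat_lit 14))
    (@En.n l97 (nat_lit 789) (nat_lit 2) (nat_lit 7))
    (@En.n l8368 (nat_lit 8200) (nat_lit 3) (nat_lit 9))
    (@En.i (nat_lit 6424) (nat_lit 14) (nat_lit 12))
    (@En.i (nat_lit 7850) (nat_lit 5) (nat_lit 9))
    (@En.n l28 (nat_lit 901) (nat_lit 6) (nat_lit 2))
    (@En.i (nat_lit 7606) (nat_lit 7) (nat_lit 4))
    (@En.n l4758 (nat_lit 3332) (nat_lit 9) (nat_lit 14))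
    (@En.n l152 (nat_lit 339) (nat_lit 10) (nat_lit 9))
    (@En.i (nat_lit 898) (nat_lit 10) (nat_lit 3))
    (@En.n l1643 (nat_lit 7595) (nat_lit 12) (nat_lit 12))
    (@En.i (nat_lit 2935) (nat_lit 13) (nat_lit 7))
    (@En.n l11277 (nat_lit 8349) (nat_lit 7) (nat_lit 13))
    (@En.n l1738 (nat_lit 900) (nat_lit 7) (nat_lit 7))
    (@En.n l18 (nat_lit 901) (nat_lit 15) (nat_lit 2))))
  (@Cl.mk (nat_lit 0x20009000e000c0002000b000900040007000d0005000c00030007000e0004) (nat_lit 0x40100100b000040) (nat_lit 16) Lb.e (@T16.mk En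
    (@En.n l117 (nat_lit 7640) (nat_lit 4) (nat_lit 4))
    (@En.n l3749 (nat_lit 3327) (nat_lit 1) (nat_lit 14))
    (@En.n l253 (nat_lit 359) (nat_lit 2) (nat_lit 7))
    (@En.n l2576 (nat_lit 899) (nat_lit 3) (nat_lit 3))
    (@En.i (nat_lit 7592) (nat_lit 9) (nat_lit 12))
    (@En.n l4817 (nat_lit 2521) (nat_lit 5) (nat_lit 5))
    (@En.n l13025 (nat_lit 8347) (nat_lit 7) (nat_lit 13))
    (@En.i (nat_lit 13355) (nat_lit 11) (nat_lit 7))
    (@En.n l3749 (nat_lit 8090) (nat_lit 8) (nat_lit 4))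
    (@En.n l1253 (nat_lit 790) (nat_lit 14) (nat_lit 9))
    (@En.i (nat_lit 8101) (nat_lit 11) (nat_lit 11))
    (@En.n l50 (nat_lit 902) (nat_lit 11) (nat_lit 2))
    (@En.n l10283 (nat_lit 900) (nat_lit 13) (nat_lit 12))
    (@En.n l3749 (nat_lit 4618) (nat_lit 1) (nat_lit 14))
    (@En.n l2031 (nat_lit 7864) (nat_lit 2) (nat_lit 9))
    (@En.n l11 (nat_lit 902) (nat_lit 15) (nat_lit 2))))
  (@Cl.mk (nat_lit 0x400040007000c000b000b000800040009000500050009000c000c00080007) (nat_lit 0x7016010030000) (nat_lit 16) Lb.e (@T16.mk En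
    (@En.i (nat_lit 577) (nat_lit 0) (nat_lit 7))
    (@En.n l27950 (nat_lit 9618) (nat_lit 1) (nat_lit 8))
    (@En.n l2337 (nat_lit 905) (nat_lit 4) (nat_lit 12))
    (@En.n l21018 (nat_lit 6398) (nat_lit 6) (nat_lit 12))
    (@En.i (nat_lit 7754) (nat_lit 10) (nat_lit 9))
    (@En.n l637 (nat_lit 7626) (nat_lit 11) (nat_lit 5))
    (@En.n l27951 (nat_lit 7513) (nat_lit 6) (nat_lit 5))
    (@En.n l27952 (nat_lit 625) (nat_lit 0) (nat_lit 9))
    (@En.n l13320 (nat_lit 7608) (nat_lit 8) (nat_lit 4))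
    (@En.n l27953 (nat_lit 1308) (nat_lit 0) (nat_lit 8))
    (@En.n l27954 (nat_lit 897) (nat_lit 5) (nat_lit 11))
    (@En.n l27955 (nat_lit 5465) (nat_lit 5) (nat_lit 11))
    (@En.n l27956 (nat_lit 8577) (nat_lit 13) (nat_lit 12))
    (@En.n l27957 (nat_lit 904) (nat_lit 11) (nat_lit 7))
    (@En.n l27958 (nat_lit 904) (nat_lit 12) (nat_lit 4))
    (@En.n l27959 (nat_lit 7636) (nat_lit 0) (nat_lit 4))))
  (@Cl.mk (nat_lit 0x20009000800040007000c000b000b000700040008000500050009000e000c) (nat_lit 0x400a0100000301) (nat_lit 16) Lb.e (@T16.mk En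
    (@En.n l14054 (nat_lit 903) (nat_lit 3) (nat_lit 12))
    (@En.n l601 (nat_lit 7523) (nat_lit 1) (nat_lit 14))
    (@En.n l5728 (nat_lit 7761) (nat_lit 2) (nat_lit 9))
    (@En.n l11 (nat_lit 7627) (nat_lit 11) (nat_lit 5))
    (@En.i (nat_lit 7512) (nat_lit 4) (nat_lit 5))
    (@En.i (nat_lit 1228) (nat_lit 5) (nat_lit 8))
    (@En.n l936 (nat_lit 7640) (nat_lit 6) (nat_lit 4))
    (@En.i (nat_lit 5179) (nat_lit 7) (nat_lit 7))
    (@En.n l619 (nat_lit 899) (nat_lit 5) (nat_lit 11))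
    (@En.n l12593 (nat_lit 5464) (nat_lit 10) (nat_lit 11))
    (@En.n l20637 (nat_lit 8569) (nat_lit 11) (nat_lit 12))
    (@En.i (nat_lit 13853) (nat_lit 11) (nat_lit 7))
    (@En.i (nat_lit 7635) (nat_lit 13) (nat_lit 4))
    (@En.n l5728 (nat_lit 803) (nat_lit 14) (nat_lit 8))
    (@En.i (nat_lit 9623) (nat_lit 1) (nat_lit 9))
    (@En.n l50 (nat_lit 904) (nat_lit 15) (nat_lit 2))))
  (@Cl.mk (nat_lit 0x20007000c000b000b00090004000a000500050009000c00070006000e0004) (nat_lit 0x801704003a0000) (nat_lit 16) Lb.e (@T16.mk En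
    (@En.n l7 (nat_lit 903) (nat_lit 15) (nat_lit 4))
    (@En.n l12702 (nat_lit 7391) (nat_lit 1) (nat_lit 14))
    (@En.n l7 (nat_lit 583) (nat_lit 2) (nat_lit 6))
    (@En.n l10539 (nat_lit 9617) (nat_lit 3) (nat_lit 7))
    (@En.n l12702 (nat_lit 6408) (nat_lit 6) (nat_lit 12))
    (@En.i (nat_lit 7762) (nat_lit 5) (nat_lit 9))
    (@En.n l26493 (nat_lit 7611) (nat_lit 6) (nat_lit 5))
    (@En.n l12029 (nat_lit 7599) (nat_lit 7) (nat_lit 5))
    (@En.n l12702 (nat_lit 991) (nat_lit 9) (nat_lit 10))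
    (@En.n l4763 (nat_lit 7606) (nat_lit 9) (nat_lit 4))
    (@En.n l7074 (nat_lit 5184) (nat_lit 11) (nat_lit 9))
    (@En.n l12705 (nat_lit 898) (nat_lit 12) (nat_lit 11))
    (@En.n l12706 (nat_lit 7604) (nat_lit 13) (nat_lit 11))
    (@En.n l26494 (nat_lit 8586) (nat_lit 14) (nat_lit 12))
    (@En.n l4600 (nat_lit 903) (nat_lit 13) (nat_lit 7))
    (@En.n l18 (nat_lit 905) (nat_lit 15) (nat_lit 2))))
  (@Cl.mk (nat_lit 0x20005000c000b0007000b0004000e000500020005000c000b0009000e0004) (nat_lit 0xa10100000a9010) (nat_lit 16) Lb.e (@T16.mk En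
    (@En.n l152 (nat_lit 325) (nat_lit 9) (nat_lit 4))
    (@En.n l5859 (nat_lit 313) (nat_lit 11) (nat_lit 14))
    (@En.n l8430 (nat_lit 1134) (nat_lit 12) (nat_lit 9))
    (@En.n l2691 (nat_lit 1004) (nat_lit 3) (nat_lit 11))
    (@En.n l637 (nat_lit 6394) (nat_lit 14) (nat_lit 12))
    (@En.n l3419 (nat_lit 1074) (nat_lit 5) (nat_lit 5))
    (@En.n l18 (nat_lit 906) (nat_lit 6) (nat_lit 2))
    (@En.n l5784 (nat_lit 1079) (nat_lit 7) (nat_lit 5))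
    (@En.n l8431 (nat_lit 907) (nat_lit 9) (nat_lit 14))
    (@En.i (nat_lit 3736) (nat_lit 9) (nat_lit 4))
    (@En.n l8432 (nat_lit 9) (nat_lit 3) (nat_lit 11))
    (@En.n l3419 (nat_lit 7048) (nat_lit 4) (nat_lit 7))
    (@En.n l644 (nat_lit 546) (nat_lit 13) (nat_lit 11))
    (@En.n l5579 (nat_lit 11268) (nat_lit 7) (nat_lit 12))
    (@En.n l4976 (nat_lit 609) (nat_lit 13) (nat_lit 5))
    (@En.n l3 (nat_lit 906) (nat_lit 15) (nat_lit 2))))
  (@Cl.mk (nat_lit 0x200050009000c0007000b000e0004000200070005000c000b0009000e0004) (nat_lit 0xa01c0000a0700) (nat_lit 16) Lb.e (@T16.mk En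
    (@En.n l2869 (nat_lit 321) (nat_lit 8) (nat_lit 4))
    (@En.n l476 (nat_lit 908) (nat_lit 10) (nat_lit 14))
    (@En.i (nat_lit 1141) (nat_lit 11) (nat_lit 9))
    (@En.n l19847 (nat_lit 1005) (nat_lit 3) (nat_lit 11))
    (@En.n l1998 (nat_lit 7607) (nat_lit 13) (nat_lit 12))
    (@En.n l2878 (nat_lit 906) (nat_lit 5) (nat_lit 5))
    (@En.n l3134 (nat_lit 361) (nat_lit 6) (nat_lit 7))
    (@En.n l11 (nat_lit 907) (nat_lit 7) (nat_lit 2))
    (@En.n l8369 (nat_lit 361) (nat_lit 8) (nat_lit 4))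
    (@En.n l476 (nat_lit 4691) (nat_lit 10) (nat_lit 14))
    (@En.n l897 (nat_lit 98) (nat_lit 11) (nat_lit 11))
    (@En.n l19848 (nat_lit 7047) (nat_lit 3) (nat_lit 7))
    (@En.n l14619 (nat_lit 599) (nat_lit 13) (nat_lit 12))
    (@En.n l476 (nat_lit 7880) (nat_lit 5) (nat_lit 9))
    (@En.n l899 (nat_lit 997) (nat_lit 13) (nat_lit 5))
    (@En.n l17 (nat_lit 907) (nat_lit 15) (nat_lit 2))))
  (@Cl.mk (nat_lit 0x200070005000d000b000e00030002000c00050009000c0004000b000e0004) (nat_lit 0xb9c00802a01c0) (nat_lit 16) Lb.e (@T16.mk En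
    (@En.n l5152 (nat_lit 364) (nat_lit 7) (nat_lit 4))
    (@En.i (nat_lit 4697) (nat_lit 9) (nat_lit 14))
    (@En.i (nat_lit 29) (nat_lit 2) (nat_lit 11))
    (@En.n l2576 (nat_lit 6130) (nat_lit 3) (nat_lit 4))
    (@En.n l2579 (nat_lit 511) (nat_lit 6) (nat_lit 12))
    (@En.i (nat_lit 2254) (nat_lit 5) (nat_lit 9))
    (@En.i (nat_lit 907) (nat_lit 14) (nat_lit 5))
    (@En.n l3337 (nat_lit 909) (nat_lit 8) (nat_lit 12))
    (@En.n l17 (nat_lit 908) (nat_lit 8) (nat_lit 2))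
    (@En.n l2869 (nat_lit 316) (nat_lit 9) (nat_lit 3))
    (@En.n l1997 (nat_lit 14046) (nat_lit 0) (nat_lit 14))
    (@En.n l2579 (nat_lit 1000) (nat_lit 12) (nat_lit 11))
    (@En.n l1998 (nat_lit 5483) (nat_lit 13) (nat_lit 13))
    (@En.n l26319 (nat_lit 313) (nat_lit 14) (nat_lit 5))
    (@En.n l5154 (nat_lit 364) (nat_lit 5) (nat_lit 7))
    (@En.n l11 (nat_lit 908) (nat_lit 15) (nat_lit 2))))
  (@Cl.mk (nat_lit 0x200080005000d000c00090003000c00040008000b00040007000b000e0005) (nat_lit 0x20b900700900200) (nat_lit 16) Lb.e (@T16.mk En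
    (@En.n l7910 (nat_lit 367) (nat_lit 6) (nat_lit 5))
    (@En.n l1897 (nat_lit 3417) (nat_lit 4) (nat_lit 14))
    (@En.i (nat_lit 316) (nat_lit 2) (nat_lit 11))
    (@En.n l27010 (nat_lit 907) (nat_lit 11) (nat_lit 7))
    (@En.i (nat_lit 9525) (nat_lit 4) (nat_lit 4))
    (@En.i (nat_lit 472) (nat_lit 7) (nat_lit 11))
    (@En.n l1897 (nat_lit 2578) (nat_lit 6) (nat_lit 8))
    (@En.i (nat_lit 991) (nat_lit 7) (nat_lit 4))
    (@En.n l1690 (nat_lit 913) (nat_lit 9) (nat_lit 12))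
    (@En.n l152 (nat_lit 911) (nat_lit 9) (nat_lit 3))
    (@En.n l255 (nat_lit 1709) (nat_lit 11) (nat_lit 9))
    (@En.n l619 (nat_lit 915) (nat_lit 12) (nat_lit 12))
    (@En.n l8366 (nat_lit 5474) (nat_lit 13) (nat_lit 13))
    (@En.n l699 (nat_lit 910) (nat_lit 14) (nat_lit 5))
    (@En.n l2179 (nat_lit 367) (nat_lit 4) (nat_lit 8))
    (@En.n l50 (nat_lit 909) (nat_lit 15) (nat_lit 2))))
  (@Cl.mk (nat_lit 0x20005000d000c00090003000c0004000b000a00040007000b0005000e0006) (nat_lit 0xb920a081002010) (nat_lit 16) Lb.e (@T16.mk En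
    (@En.n l5784 (nat_lit 1050) (nat_lit 5) (nat_lit 6))
    (@En.n l396 (nat_lit 909) (nat_lit 1) (nat_lit 14))
    (@En.i (nat_lit 3127) (nat_lit 2) (nat_lit 5))
    (@En.i (nat_lit 310) (nat_lit 3) (nat_lit 11))
    (@En.n l3531 (nat_lit 906) (nat_lit 11) (nat_lit 7))
    (@En.i (nat_lit 11255) (nat_lit 5) (nat_lit 4))
    (@En.n l644 (nat_lit 470) (nat_lit 6) (nat_lit 10))
    (@En.n l1897 (nat_lit 12139) (nat_lit 8) (nat_lit 11))
    (@En.i (nat_lit 990) (nat_lit 8) (nat_lit 4))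
    (@En.n l1690 (nat_lit 914) (nat_lit 10) (nat_lit 12))
    (@En.n l152 (nat_lit 912) (nat_lit 10) (nat_lit 3))
    (@En.i (nat_lit 497) (nat_lit 12) (nat_lit 9))
    (@En.n l619 (nat_lit 916) (nat_lit 13) (nat_lit 12))
    (@En.n l2005 (nat_lit 6386) (nat_lit 14) (nat_lit 13))
    (@En.n l640 (nat_lit 1048) (nat_lit 13) (nat_lit 5))
    (@En.n l18 (nat_lit 910) (nat_lit 15) (nat_lit 2))))
  (@Cl.mk (nat_lit 0x200080005000d0008000d0003000c00030008000b00040008000b000e0005) (nat_lit 0x20a000a00901200) (nat_lit 16) Lb.e (@T16.mk En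
    (@En.n l7910 (nat_lit 369) (nat_lit 8) (nat_lit 5))
    (@En.n l253 (nat_lit 3416) (nat_lit 4) (nat_lit 14))
    (@En.i (nat_lit 318) (nat_lit 2) (nat_lit 11))
    (@En.n l253 (nat_lit 327) (nat_lit 3) (nat_lit 8))
    (@En.i (nat_lit 11259) (nat_lit 4) (nat_lit 4))
    (@En.i (nat_lit 467) (nat_lit 7) (nat_lit 11))
    (@En.n l2571 (nat_lit 2579) (nat_lit 6) (nat_lit 8))
    (@En.i (nat_lit 915) (nat_lit 7) (nat_lit 3))
    (@En.n l1735 (nat_lit 4985) (nat_lit 0) (nat_lit 12))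
    (@En.n l117 (nat_lit 909) (nat_lit 9) (nat_lit 3))
    (@En.n l513 (nat_lit 1142) (nat_lit 11) (nat_lit 13))
    (@En.i (nat_lit 913) (nat_lit 12) (nat_lit 8))
    (@En.i (nat_lit 5478) (nat_lit 13) (nat_lit 13))
    (@En.n l699 (nat_lit 912) (nat_lit 14) (nat_lit 5))
    (@En.n l2179 (nat_lit 369) (nat_lit 6) (nat_lit 8))
    (@En.n l50 (nat_lit 911) (nat_lit 15) (nat_lit 2))))
noncomputable def a57 : T16 Cl := @T16.mk Cl
  (@Cl.mk (nat_lit 0x20005000d0008000d0003000c0003000b000a00040008000b0005000e0006) (nat_lit 0xb000a081012010) (nat_lit 16) Lb.e (@T16.mk En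
    (@En.n l5784 (nat_lit 1049) (nat_lit 7) (nat_lit 6))
    (@En.n l396 (nat_lit 911) (nat_lit 1) (nat_lit 14))
    (@En.n l253 (nat_lit 3128) (nat_lit 2) (nat_lit 5))
    (@En.i (nat_lit 309) (nat_lit 3) (nat_lit 11))
    (@En.n l253 (nat_lit 332) (nat_lit 4) (nat_lit 8))
    (@En.i (nat_lit 11256) (nat_lit 5) (nat_lit 4))
    (@En.n l644 (nat_lit 463) (nat_lit 6) (nat_lit 10))
    (@En.i (nat_lit 12140) (nat_lit 8) (nat_lit 11))
    (@En.i (nat_lit 916) (nat_lit 8) (nat_lit 3))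
    (@En.n l1735 (nat_lit 4981) (nat_lit 10) (nat_lit 12))
    (@En.n l117 (nat_lit 910) (nat_lit 10) (nat_lit 3))
    (@En.n l513 (nat_lit 1137) (nat_lit 12) (nat_lit 13))
    (@En.i (nat_lit 914) (nat_lit 13) (nat_lit 8))
    (@En.i (nat_lit 6387) (nat_lit 14) (nat_lit 13))
    (@En.n l640 (nat_lit 1047) (nat_lit 13) (nat_lit 5))
    (@En.n l18 (nat_lit 912) (nat_lit 15) (nat_lit 2))))
  (@Cl.mk (nat_lit 0x2000900050008000d0009000c00030007000a000400080007000b000e0006) (nat_lit 0x206006008010300) (nat_lit 16) Lb.e (@T16.mk En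
    (@En.n l7910 (nat_lit 371) (nat_lit 7) (nat_lit 6))
    (@En.n l253 (nat_lit 3418) (nat_lit 4) (nat_lit 14))
    (@En.n l3 (nat_lit 911) (nat_lit 2) (nat_lit 11))
    (@En.n l3 (nat_lit 909) (nat_lit 3) (nat_lit 7))
    (@En.n l3549 (nat_lit 336) (nat_lit 4) (nat_lit 8))
    (@En.i (nat_lit 11258) (nat_lit 5) (nat_lit 4))
    (@En.i (nat_lit 471) (nat_lit 8) (nat_lit 10))
    (@En.n l5032 (nat_lit 2581) (nat_lit 7) (nat_lit 7))
    (@En.n l5042 (nat_lit 919) (nat_lit 8) (nat_lit 3))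
    (@En.n l12226 (nat_lit 4988) (nat_lit 0) (nat_lit 12))
    (@En.i (nat_lit 1710) (nat_lit 11) (nat_lit 9))
    (@En.n l5251 (nat_lit 917) (nat_lit 12) (nat_lit 13))
    (@En.n l21017 (nat_lit 6452) (nat_lit 13) (nat_lit 8))
    (@En.n l699 (nat_lit 914) (nat_lit 14) (nat_lit 5))
    (@En.n l2179 (nat_lit 371) (nat_lit 5) (nat_lit 9))
    (@En.n l50 (nat_lit 913) (nat_lit 15) (nat_lit 2))))
  (@Cl.mk (nat_lit 0x200050008000d0009000c0003000a0009000400080007000b0006000e0007) (nat_lit 0x60190710103010) (nat_lit 16) Lb.e (@T16.mk En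
    (@En.n l5784 (nat_lit 981) (nat_lit 6) (nat_lit 7))
    (@En.n l396 (nat_lit 913) (nat_lit 1) (nat_lit 14))
    (@En.n l253 (nat_lit 3130) (nat_lit 2) (nat_lit 6))
    (@En.n l3 (nat_lit 912) (nat_lit 3) (nat_lit 11))
    (@En.n l3 (nat_lit 910) (nat_lit 4) (nat_lit 7))
    (@En.n l3549 (nat_lit 334) (nat_lit 5) (nat_lit 8))
    (@En.i (nat_lit 11257) (nat_lit 6) (nat_lit 4))
    (@En.n l644 (nat_lit 469) (nat_lit 7) (nat_lit 9))
    (@En.n l5032 (nat_lit 12138) (nat_lit 9) (nat_lit 10))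
    (@En.i (nat_lit 976) (nat_lit 9) (nat_lit 3))
    (@En.n l1735 (nat_lit 4990) (nat_lit 11) (nat_lit 12))
    (@En.i (nat_lit 495) (nat_lit 12) (nat_lit 9))
    (@En.n l5251 (nat_lit 918) (nat_lit 13) (nat_lit 13))
    (@En.n l9040 (nat_lit 6494) (nat_lit 10) (nat_lit 8))
    (@En.n l640 (nat_lit 1046) (nat_lit 13) (nat_lit 5))
    (@En.n l18 (nat_lit 914) (nat_lit 15) (nat_lit 2))))
  (@Cl.mk (nat_lit 0x200080005000c0008000d000b000400030008000b00050008000b000e0005) (nat_lit 0x208006000900200) (nat_lit 16) Lb.e (@T16.mk En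
    (@En.n l7910 (nat_lit 373) (nat_lit 8) (nat_lit 5))
    (@En.n l4750 (nat_lit 3414) (nat_lit 4) (nat_lit 14))
    (@En.i (nat_lit 319) (nat_lit 2) (nat_lit 11))
    (@En.n l253 (nat_lit 1005) (nat_lit 10) (nat_lit 8))
    (@En.i (nat_lit 9523) (nat_lit 4) (nat_lit 5))
    (@En.i (nat_lit 461) (nat_lit 7) (nat_lit 11))
    (@En.n l287 (nat_lit 7556) (nat_lit 6) (nat_lit 8))
    (@En.n l11 (nat_lit 911) (nat_lit 7) (nat_lit 3))
    (@En.i (nat_lit 616) (nat_lit 8) (nat_lit 4))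
    (@En.n l55 (nat_lit 917) (nat_lit 10) (nat_lit 11))
    (@En.n l4750 (nat_lit 1138) (nat_lit 11) (nat_lit 13))
    (@En.n l5042 (nat_lit 919) (nat_lit 12) (nat_lit 8))
    (@En.n l29164 (nat_lit 5471) (nat_lit 13) (nat_lit 12))
    (@En.n l699 (nat_lit 916) (nat_lit 14) (nat_lit 5))
    (@En.n l2179 (nat_lit 373) (nat_lit 6) (nat_lit 8))
    (@En.n l50 (nat_lit 915) (nat_lit 15) (nat_lit 2))))
  (@Cl.mk (nat_lit 0x20005000c0008000d000b00040003000b000a00050008000b0005000e0006) (nat_lit 0x80000081002010) (nat_lit 16) Lb.e (@T16.mk En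
    (@En.n l5784 (nat_lit 982) (nat_lit 7) (nat_lit 6))
    (@En.n l396 (nat_lit 915) (nat_lit 1) (nat_lit 14))
    (@En.n l253 (nat_lit 3129) (nat_lit 2) (nat_lit 5))
    (@En.i (nat_lit 311) (nat_lit 3) (nat_lit 11))
    (@En.n l253 (nat_lit 1004) (nat_lit 10) (nat_lit 8))
    (@En.n l12778 (nat_lit 9524) (nat_lit 5) (nat_lit 5))
    (@En.n l644 (nat_lit 460) (nat_lit 6) (nat_lit 10))
    (@En.n l287 (nat_lit 9612) (nat_lit 8) (nat_lit 11))
    (@En.n l11 (nat_lit 912) (nat_lit 8) (nat_lit 3))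
    (@En.n l2238 (nat_lit 615) (nat_lit 9) (nat_lit 4))
    (@En.n l55 (nat_lit 918) (nat_lit 11) (nat_lit 11))
    (@En.n l4750 (nat_lit 1135) (nat_lit 12) (nat_lit 13))
    (@En.i (nat_lit 976) (nat_lit 13) (nat_lit 8))
    (@En.n l4765 (nat_lit 6388) (nat_lit 14) (nat_lit 12))
    (@En.n l640 (nat_lit 1032) (nat_lit 13) (nat_lit 5))
    (@En.n l18 (nat_lit 916) (nat_lit 15) (nat_lit 2))))
  (@Cl.mk (nat_lit 0x200090005000d0008000b0003000c0007000a000500040008000b000e0006) (nat_lit 0xb050901001300) (nat_lit 16) Lb.e (@T16.mk En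
    (@En.n l12661 (nat_lit 1301) (nat_lit 6) (nat_lit 6))
    (@En.n l253 (nat_lit 3415) (nat_lit 4) (nat_lit 14))
    (@En.i (nat_lit 1142) (nat_lit 2) (nat_lit 11))
    (@En.n l343 (nat_lit 915) (nat_lit 3) (nat_lit 8))
    (@En.n l28 (nat_lit 911) (nat_lit 4) (nat_lit 4))
    (@En.n l170 (nat_lit 9526) (nat_lit 5) (nat_lit 5))
    (@En.i (nat_lit 465) (nat_lit 8) (nat_lit 10))
    (@En.n l4316 (nat_lit 6552) (nat_lit 7) (nat_lit 7))
    (@En.n l1735 (nat_lit 1882) (nat_lit 9) (nat_lit 12))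
    (@En.n l117 (nat_lit 1298) (nat_lit 9) (nat_lit 3))
    (@En.n l170 (nat_lit 1611) (nat_lit 11) (nat_lit 11))
    (@En.n l5236 (nat_lit 1302) (nat_lit 12) (nat_lit 8))
    (@En.i (nat_lit 1309) (nat_lit 13) (nat_lit 13))
    (@En.n l699 (nat_lit 918) (nat_lit 14) (nat_lit 5))
    (@En.n l12666 (nat_lit 1301) (nat_lit 4) (nat_lit 9))
    (@En.n l50 (nat_lit 917) (nat_lit 15) (nat_lit 2))))
  (@Cl.mk (nat_lit 0x20005000d0008000b0003000c000a0009000500040008000b0006000e0007) (nat_lit 0xb0909010013010) (nat_lit 16) Lb.e (@T16.mk En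
    (@En.n l9716 (nat_lit 984) (nat_lit 5) (nat_lit 7))
    (@En.n l396 (nat_lit 917) (nat_lit 1) (nat_lit 14))
    (@En.n l5249 (nat_lit 3188) (nat_lit 2) (nat_lit 6))
    (@En.i (nat_lit 1137) (nat_lit 3) (nat_lit 11))
    (@En.n l343 (nat_lit 916) (nat_lit 4) (nat_lit 8))
    (@En.n l28 (nat_lit 912) (nat_lit 5) (nat_lit 4))
    (@En.n l3942 (nat_lit 9498) (nat_lit 6) (nat_lit 5))
    (@En.n l644 (nat_lit 464) (nat_lit 7) (nat_lit 9))
    (@En.n l77 (nat_lit 9611) (nat_lit 9) (nat_lit 10))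
    (@En.n l13414 (nat_lit 4997) (nat_lit 10) (nat_lit 12))
    (@En.n l117 (nat_lit 989) (nat_lit 10) (nat_lit 3))
    (@En.n l513 (nat_lit 1610) (nat_lit 12) (nat_lit 11))
    (@En.i (nat_lit 985) (nat_lit 13) (nat_lit 8))
    (@En.i (nat_lit 6390) (nat_lit 14) (nat_lit 13))
    (@En.n l640 (nat_lit 987) (nat_lit 13) (nat_lit 5))
    (@En.n l18 (nat_lit 918) (nat_lit 15) (nat_lit 2))))
  (@Cl.mk (nat_lit 0x2000900050008000d000b000a00030007000a000500080006000b000e0006) (nat_lit 0x6051001010300) (nat_lit 16) Lb.e (@T16.mk En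
    (@En.n l14821 (nat_lit 977) (nat_lit 7) (nat_lit 6))
    (@En.i (nat_lit 3419) (nat_lit 4) (nat_lit 14))
    (@En.n l3333 (nat_lit 915) (nat_lit 2) (nat_lit 11))
    (@En.n l3333 (nat_lit 991) (nat_lit 3) (nat_lit 6))
    (@En.n l5588 (nat_lit 341) (nat_lit 4) (nat_lit 8))
    (@En.n l5372 (nat_lit 9522) (nat_lit 5) (nat_lit 5))
    (@En.n l5550 (nat_lit 481) (nat_lit 8) (nat_lit 10))
    (@En.i (nat_lit 6634) (nat_lit 7) (nat_lit 7))
    (@En.n l20049 (nat_lit 913) (nat_lit 8) (nat_lit 3))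
    (@En.n l16911 (nat_lit 418) (nat_lit 0) (nat_lit 10))
    (@En.n l1112 (nat_lit 1302) (nat_lit 11) (nat_lit 11))
    (@En.n l4813 (nat_lit 1298) (nat_lit 12) (nat_lit 13))
    (@En.n l5372 (nat_lit 6451) (nat_lit 13) (nat_lit 8))
    (@En.n l36958 (nat_lit 976) (nat_lit 14) (nat_lit 5))
    (@En.n l9413 (nat_lit 977) (nat_lit 5) (nat_lit 9))
    (@En.n l28 (nat_lit 919) (nat_lit 15) (nat_lit 2))))
  (@Cl.mk (nat_lit 0x20007000a000e000d0002000900030006000e00090002000d0007000e0003) (nat_lit 0x4010000c104040) (nat_lit 16) Lb.e (@T16.mk En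
    (@En.n l4019 (nat_lit 928) (nat_lit 5) (nat_lit 3))
    (@En.i (nat_lit 720) (nat_lit 0) (nat_lit 14))
    (@En.n l7327 (nat_lit 5766) (nat_lit 2) (nat_lit 7))
    (@En.n l13429 (nat_lit 650) (nat_lit 9) (nat_lit 13))
    (@En.n l7 (nat_lit 920) (nat_lit 4) (nat_lit 2))
    (@En.n l7557 (nat_lit 700) (nat_lit 5) (nat_lit 9))
    (@En.n l1643 (nat_lit 5498) (nat_lit 7) (nat_lit 14))
    (@En.i (nat_lit 13416) (nat_lit 12) (nat_lit 6))
    (@En.n l7559 (nat_lit 698) (nat_lit 8) (nat_lit 3))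
    (@En.n l1347 (nat_lit 5023) (nat_lit 0) (nat_lit 9))
    (@En.n l107 (nat_lit 920) (nat_lit 10) (nat_lit 2))
    (@En.n l13430 (nat_lit 698) (nat_lit 12) (nat_lit 13))
    (@En.n l619 (nat_lit 4724) (nat_lit 13) (nat_lit 14))
    (@En.n l1501 (nat_lit 13467) (nat_lit 8) (nat_lit 10))
    (@En.n l1501 (nat_lit 466) (nat_lit 3) (nat_lit 7))
    (@En.n l17 (nat_lit 920) (nat_lit 15) (nat_lit 2))))
  (@Cl.mk (nat_lit 0x2000d000d0009000300030007000a000d000d0007000300030006000e0009) (nat_lit 0x5600003000000b1) (nat_lit 16) Lb.e (@T16.mk En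
    (@En.n l5479 (nat_lit 701) (nat_lit 12) (nat_lit 9))
    (@En.n l97 (nat_lit 5131) (nat_lit 1) (nat_lit 14))
    (@En.n l1295 (nat_lit 928) (nat_lit 12) (nat_lit 6))
    (@En.n l2101 (nat_lit 928) (nat_lit 13) (nat_lit 3))
    (@En.n l18 (nat_lit 927) (nat_lit 0) (nat_lit 3))
    (@En.n l3506 (nat_lit 4911) (nat_lit 0) (nat_lit 7))
    (@En.n l61 (nat_lit 927) (nat_lit 3) (nat_lit 13))
    (@En.n l1643 (nat_lit 4803) (nat_lit 8) (nat_lit 13))
    (@En.i (nat_lit 13466) (nat_lit 8) (nat_lit 10))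
    (@En.n l564 (nat_lit 463) (nat_lit 4) (nat_lit 7))
    (@En.n l7 (nat_lit 926) (nat_lit 13) (nat_lit 3))
    (@En.n l13432 (nat_lit 698) (nat_lit 0) (nat_lit 3))
    (@En.i (nat_lit 931) (nat_lit 0) (nat_lit 9))
    (@En.n l14775 (nat_lit 698) (nat_lit 3) (nat_lit 13))
    (@En.i (nat_lit 729) (nat_lit 10) (nat_lit 13))
    (@En.n l107 (nat_lit 921) (nat_lit 15) (nat_lit 2))))
  (@Cl.mk (nat_lit 0x20006000e00090002000d0009000e000300020007000a000d0007000e0003) (nat_lit 0xc105040004b000) (nat_lit 16) Lb.e (@T16.mk En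
    (@En.n l13432 (nat_lit 698) (nat_lit 9) (nat_lit 3))
    (@En.n l561 (nat_lit 13416) (nat_lit 0) (nat_lit 14))
    (@En.n l4414 (nat_lit 5001) (nat_lit 2) (nat_lit 7))
    (@En.n l1643 (nat_lit 4800) (nat_lit 13) (nat_lit 13))
    (@En.i (nat_lit 13465) (nat_lit 8) (nat_lit 10))
    (@En.n l564 (nat_lit 465) (nat_lit 5) (nat_lit 7))
    (@En.n l7 (nat_lit 922) (nat_lit 6) (nat_lit 2))
    (@En.n l28 (nat_lit 927) (nat_lit 7) (nat_lit 3))
    (@En.n l1818 (nat_lit 719) (nat_lit 0) (nat_lit 14))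
    (@En.i (nat_lit 5761) (nat_lit 2) (nat_lit 9))
    (@En.n l12650 (nat_lit 649) (nat_lit 11) (nat_lit 13))
    (@En.n l107 (nat_lit 922) (nat_lit 11) (nat_lit 2))
    (@En.n l13083 (nat_lit 699) (nat_lit 13) (nat_lit 9))
    (@En.n l97 (nat_lit 5500) (nat_lit 7) (nat_lit 14))
    (@En.n l13434 (nat_lit 698) (nat_lit 7) (nat_lit 6))
    (@En.n l17 (nat_lit 922) (nat_lit 15) (nat_lit 2))))
  (@Cl.mk (nat_lit 0x20006000e00090002000e000d0002000b00030007000a000d0005000e0003) (nat_lit 0xc00a6000030000) (nat_lit 16) Lb.e (@T16.mk En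
    (@En.i (nat_lit 926) (nat_lit 7) (nat_lit 3))
    (@En.i (nat_lit 13413) (nat_lit 0) (nat_lit 14))
    (@En.i (nat_lit 4982) (nat_lit 2) (nat_lit 5))
    (@En.n l1643 (nat_lit 4841) (nat_lit 11) (nat_lit 13))
    (@En.i (nat_lit 13473) (nat_lit 8) (nat_lit 10))
    (@En.i (nat_lit 536) (nat_lit 5) (nat_lit 7))
    (@En.i (nat_lit 927) (nat_lit 6) (nat_lit 3))
    (@En.i (nat_lit 6022) (nat_lit 0) (nat_lit 11))
    (@En.n l28 (nat_lit 923) (nat_lit 8) (nat_lit 2))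
    (@En.n l134 (nat_lit 927) (nat_lit 10) (nat_lit 13))
    (@En.i (nat_lit 805) (nat_lit 1) (nat_lit 14))
    (@En.n l107 (nat_lit 923) (nat_lit 11) (nat_lit 2))
    (@En.i (nat_lit 929) (nat_lit 13) (nat_lit 9))
    (@En.n l97 (nat_lit 5694) (nat_lit 1) (nat_lit 14))
    (@En.n l617 (nat_lit 926) (nat_lit 5) (nat_lit 6))
    (@En.n l17 (nat_lit 923) (nat_lit 15) (nat_lit 2))))
  (@Cl.mk (nat_lit 0x2000700030006000e00090002000e000d0002000900030007000a000e000d) (nat_lit 0xc00ab0000300) (nat_lit 16) Lb.e (@T16.mk En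
    (@En.n l1012 (nat_lit 926) (nat_lit 10) (nat_lit 13))
    (@En.n l1063 (nat_lit 4725) (nat_lit 11) (nat_lit 14))
    (@En.n l2100 (nat_lit 13472) (nat_lit 8) (nat_lit 10))
    (@En.i (nat_lit 537) (nat_lit 3) (nat_lit 7))
    (@En.i (nat_lit 928) (nat_lit 4) (nat_lit 3))
    (@En.i (nat_lit 6045) (nat_lit 0) (nat_lit 9))
    (@En.n l11 (nat_lit 924) (nat_lit 6) (nat_lit 2))
    (@En.n l1578 (nat_lit 928) (nat_lit 8) (nat_lit 13))
    (@En.n l1997 (nat_lit 804) (nat_lit 1) (nat_lit 14))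
    (@En.n l3 (nat_lit 924) (nat_lit 9) (nat_lit 2))
    (@En.i (nat_lit 930) (nat_lit 11) (nat_lit 9))
    (@En.n l1598 (nat_lit 5128) (nat_lit 12) (nat_lit 14))
    (@En.n l2568 (nat_lit 13413) (nat_lit 12) (nat_lit 6))
    (@En.n l3291 (nat_lit 926) (nat_lit 6) (nat_lit 3))
    (@En.i (nat_lit 4925) (nat_lit 0) (nat_lit 7))
    (@En.n l18 (nat_lit 924) (nat_lit 15) (nat_lit 2))))
  (@Cl.mk (nat_lit 0x20009000300070007000a000d000d000700030003000600090009000e000d) (nat_lit 0x4000000012b) (nat_lit 16) Lb.e (@T16.mk En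
    (@En.n l5476 (nat_lit 701) (nat_lit 10) (nat_lit 13))
    (@En.n l5144 (nat_lit 806) (nat_lit 1) (nat_lit 14))
    (@En.n l5477 (nat_lit 706) (nat_lit 2) (nat_lit 9))
    (@En.n l5478 (nat_lit 5446) (nat_lit 3) (nat_lit 9))
    (@En.n l1295 (nat_lit 930) (nat_lit 12) (nat_lit 6))
    (@En.n l2101 (nat_lit 930) (nat_lit 13) (nat_lit 3))
    (@En.n l18 (nat_lit 929) (nat_lit 0) (nat_lit 3))
    (@En.i (nat_lit 4910) (nat_lit 0) (nat_lit 7))
    (@En.n l61 (nat_lit 929) (nat_lit 3) (nat_lit 13))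
    (@En.n l1643 (nat_lit 4794) (nat_lit 5) (nat_lit 13))
    (@En.n l3 (nat_lit 926) (nat_lit 11) (nat_lit 10))
    (@En.n l527 (nat_lit 926) (nat_lit 12) (nat_lit 7))
    (@En.i (nat_lit 539) (nat_lit 13) (nat_lit 7))
    (@En.n l5479 (nat_lit 701) (nat_lit 6) (nat_lit 3))
    (@En.i (nat_lit 6025) (nat_lit 0) (nat_lit 9))
    (@En.n l28 (nat_lit 925) (nat_lit 15) (nat_lit 2))))
  (@Cl.mk (nat_lit 0x2000a00030007000a000d000d0006000300030006000e00090002000e000d) (nat_lit 0x3b10000c1036) (nat_lit 16) Lb.e (@T16.mk En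
    (@En.n l134 (nat_lit 921) (nat_lit 14) (nat_lit 13))
    (@En.i (nat_lit 785) (nat_lit 1) (nat_lit 14))
    (@En.n l107 (nat_lit 926) (nat_lit 2) (nat_lit 2))
    (@En.i (nat_lit 925) (nat_lit 3) (nat_lit 9))
    (@En.n l97 (nat_lit 5129) (nat_lit 1) (nat_lit 14))
    (@En.n l1295 (nat_lit 924) (nat_lit 12) (nat_lit 6))
    (@En.n l2101 (nat_lit 924) (nat_lit 13) (nat_lit 3))
    (@En.n l18 (nat_lit 923) (nat_lit 0) (nat_lit 3))
    (@En.i (nat_lit 4912) (nat_lit 0) (nat_lit 6))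
    (@En.n l61 (nat_lit 923) (nat_lit 3) (nat_lit 13))
    (@En.n l1643 (nat_lit 4840) (nat_lit 11) (nat_lit 13))
    (@En.i (nat_lit 13471) (nat_lit 8) (nat_lit 10))
    (@En.i (nat_lit 535) (nat_lit 13) (nat_lit 7))
    (@En.i (nat_lit 921) (nat_lit 10) (nat_lit 3))
    (@En.i (nat_lit 6024) (nat_lit 0) (nat_lit 10))
    (@En.n l28 (nat_lit 926) (nat_lit 15) (nat_lit 2))))
  (@Cl.mk (nat_lit 0x20006000e00090002000d000d000a000300030007000a000d0006000e0003) (nat_lit 0xc105600003b000) (nat_lit 16) Lb.e (@T16.mk En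
    (@En.i (nat_lit 921) (nat_lit 4) (nat_lit 3))
    (@En.i (nat_lit 13414) (nat_lit 0) (nat_lit 14))
    (@En.n l3506 (nat_lit 5002) (nat_lit 2) (nat_lit 6))
    (@En.n l1643 (nat_lit 4601) (nat_lit 8) (nat_lit 13))
    (@En.i (nat_lit 13469) (nat_lit 8) (nat_lit 10))
    (@En.n l564 (nat_lit 467) (nat_lit 5) (nat_lit 7))
    (@En.n l7 (nat_lit 923) (nat_lit 6) (nat_lit 3))
    (@En.i (nat_lit 922) (nat_lit 7) (nat_lit 3))
    (@En.i (nat_lit 5759) (nat_lit 9) (nat_lit 10))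
    (@En.n l134 (nat_lit 922) (nat_lit 10) (nat_lit 13))
    (@En.i (nat_lit 730) (nat_lit 11) (nat_lit 13))
    (@En.n l107 (nat_lit 927) (nat_lit 11) (nat_lit 2))
    (@En.i (nat_lit 708) (nat_lit 13) (nat_lit 9))
    (@En.n l97 (nat_lit 5501) (nat_lit 1) (nat_lit 14))
    (@En.n l617 (nat_lit 921) (nat_lit 2) (nat_lit 6))
    (@En.n l17 (nat_lit 927) (nat_lit 15) (nat_lit 2))))
noncomputable def a58 : T16 Cl := @T16.mk Cl
  (@Cl.mk (nat_lit 0x2000800030006000e00090002000d000d0008000300030007000a000e000d) (nat_lit 0x500c10a52000401) (nat_lit 16) Lb.e (@T16.mk En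
    (@En.n l1012 (nat_lit 921) (nat_lit 7) (nat_lit 13))
    (@En.n l1063 (nat_lit 4723) (nat_lit 1) (nat_lit 14))
    (@En.n l1599 (nat_lit 13470) (nat_lit 8) (nat_lit 10))
    (@En.n l1599 (nat_lit 468) (nat_lit 3) (nat_lit 7))
    (@En.n l28 (nat_lit 924) (nat_lit 4) (nat_lit 3))
    (@En.n l1393 (nat_lit 920) (nat_lit 0) (nat_lit 3))
    (@En.i (nat_lit 932) (nat_lit 6) (nat_lit 8))
    (@En.n l5987 (nat_lit 920) (nat_lit 3) (nat_lit 13))
    (@En.n l5234 (nat_lit 731) (nat_lit 9) (nat_lit 13))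
    (@En.n l3 (nat_lit 928) (nat_lit 9) (nat_lit 2))
    (@En.n l5011 (nat_lit 709) (nat_lit 11) (nat_lit 9))
    (@En.n l1598 (nat_lit 5130) (nat_lit 12) (nat_lit 14))
    (@En.n l2568 (nat_lit 13414) (nat_lit 12) (nat_lit 6))
    (@En.n l3291 (nat_lit 921) (nat_lit 3) (nat_lit 3))
    (@En.i (nat_lit 4922) (nat_lit 0) (nat_lit 8))
    (@En.n l18 (nat_lit 928) (nat_lit 15) (nat_lit 2))))
  (@Cl.mk (nat_lit 0x2000600090009000e000d0002000a000300070007000a000d0006000e0003) (nat_lit 0x70ab000004b000) (nat_lit 16) Lb.e (@T16.mk En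
    (@En.i (nat_lit 925) (nat_lit 6) (nat_lit 3))
    (@En.i (nat_lit 13411) (nat_lit 0) (nat_lit 14))
    (@En.i (nat_lit 4981) (nat_lit 2) (nat_lit 6))
    (@En.n l1643 (nat_lit 4793) (nat_lit 5) (nat_lit 13))
    (@En.n l3 (nat_lit 923) (nat_lit 4) (nat_lit 10))
    (@En.n l527 (nat_lit 923) (nat_lit 5) (nat_lit 7))
    (@En.i (nat_lit 570) (nat_lit 6) (nat_lit 7))
    (@En.i (nat_lit 708) (nat_lit 7) (nat_lit 3))
    (@En.i (nat_lit 6023) (nat_lit 0) (nat_lit 10))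
    (@En.n l28 (nat_lit 929) (nat_lit 9) (nat_lit 2))
    (@En.n l134 (nat_lit 708) (nat_lit 11) (nat_lit 13))
    (@En.n l5144 (nat_lit 809) (nat_lit 12) (nat_lit 14))
    (@En.n l1649 (nat_lit 935) (nat_lit 13) (nat_lit 9))
    (@En.n l7368 (nat_lit 5449) (nat_lit 3) (nat_lit 9))
    (@En.n l617 (nat_lit 925) (nat_lit 4) (nat_lit 6))
    (@En.n l17 (nat_lit 929) (nat_lit 15) (nat_lit 2))))
  (@Cl.mk (nat_lit 0x200080003000600090009000e000d00020008000300070007000a000e000d) (nat_lit 0x70ab00000401) (nat_lit 16) Lb.e (@T16.mk En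
    (@En.n l1012 (nat_lit 925) (nat_lit 9) (nat_lit 13))
    (@En.n l1063 (nat_lit 4739) (nat_lit 10) (nat_lit 14))
    (@En.n l476 (nat_lit 924) (nat_lit 2) (nat_lit 10))
    (@En.n l152 (nat_lit 924) (nat_lit 3) (nat_lit 7))
    (@En.n l476 (nat_lit 571) (nat_lit 4) (nat_lit 7))
    (@En.n l5011 (nat_lit 709) (nat_lit 5) (nat_lit 3))
    (@En.n l649 (nat_lit 6044) (nat_lit 0) (nat_lit 8))
    (@En.n l11 (nat_lit 930) (nat_lit 7) (nat_lit 2))
    (@En.n l7088 (nat_lit 709) (nat_lit 9) (nat_lit 13))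
    (@En.n l2038 (nat_lit 808) (nat_lit 10) (nat_lit 14))
    (@En.n l7077 (nat_lit 934) (nat_lit 2) (nat_lit 9))
    (@En.n l5015 (nat_lit 5451) (nat_lit 3) (nat_lit 9))
    (@En.n l2568 (nat_lit 13411) (nat_lit 12) (nat_lit 6))
    (@En.n l3291 (nat_lit 925) (nat_lit 5) (nat_lit 3))
    (@En.i (nat_lit 4881) (nat_lit 0) (nat_lit 8))
    (@En.n l18 (nat_lit 930) (nat_lit 15) (nat_lit 2))))
  (@Cl.mk (nat_lit 0x2000a00060009000c000c00070006000400040007000e000a0002000e0009) (nat_lit 0x3000000000a0057) (nat_lit 16) Lb.e (@T16.mk En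
    (@En.i (nat_lit 5758) (nat_lit 14) (nat_lit 9))
    (@En.i (nat_lit 5458) (nat_lit 1) (nat_lit 14))
    (@En.n l107 (nat_lit 931) (nat_lit 2) (nat_lit 2))
    (@En.i (nat_lit 933) (nat_lit 3) (nat_lit 10))
    (@En.n l97 (nat_lit 5696) (nat_lit 5) (nat_lit 14))
    (@En.n l1295 (nat_lit 932) (nat_lit 11) (nat_lit 7))
    (@En.n l2101 (nat_lit 932) (nat_lit 12) (nat_lit 4))
    (@En.n l18 (nat_lit 5681) (nat_lit 7) (nat_lit 4))
    (@En.i (nat_lit 926) (nat_lit 8) (nat_lit 6))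
    (@En.i (nat_lit 6913) (nat_lit 6) (nat_lit 7))
    (@En.n l61 (nat_lit 5759) (nat_lit 4) (nat_lit 12))
    (@En.n l1643 (nat_lit 4844) (nat_lit 12) (nat_lit 12))
    (@En.i (nat_lit 12830) (nat_lit 9) (nat_lit 9))
    (@En.n l564 (nat_lit 7785) (nat_lit 14) (nat_lit 6))
    (@En.n l7 (nat_lit 5768) (nat_lit 12) (nat_lit 10))
    (@En.n l28 (nat_lit 931) (nat_lit 15) (nat_lit 2))))
  (@Cl.mk (nat_lit 0x20008000700040007000e000a0002000e00080002000900060009000e000c) (nat_lit 0x6000a0091030001) (nat_lit 16) Lb.e (@T16.mk En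
    (@En.n l1012 (nat_lit 931) (nat_lit 11) (nat_lit 12))
    (@En.n l1063 (nat_lit 5780) (nat_lit 12) (nat_lit 14))
    (@En.n l2680 (nat_lit 12832) (nat_lit 9) (nat_lit 9))
    (@En.n l2669 (nat_lit 7783) (nat_lit 14) (nat_lit 6))
    (@En.n l5448 (nat_lit 5385) (nat_lit 12) (nat_lit 9))
    (@En.n l11 (nat_lit 932) (nat_lit 5) (nat_lit 2))
    (@En.i (nat_lit 32) (nat_lit 6) (nat_lit 8))
    (@En.n l2680 (nat_lit 5457) (nat_lit 1) (nat_lit 14))
    (@En.n l3 (nat_lit 932) (nat_lit 8) (nat_lit 2))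
    (@En.n l8874 (nat_lit 5757) (nat_lit 3) (nat_lit 10))
    (@En.n l1598 (nat_lit 5778) (nat_lit 11) (nat_lit 14))
    (@En.n l2568 (nat_lit 13386) (nat_lit 11) (nat_lit 7))
    (@En.n l22000 (nat_lit 5682) (nat_lit 6) (nat_lit 4))
    (@En.i (nat_lit 924) (nat_lit 14) (nat_lit 7))
    (@En.n l3213 (nat_lit 6915) (nat_lit 5) (nat_lit 8))
    (@En.n l18 (nat_lit 932) (nat_lit 15) (nat_lit 2))))
  (@Cl.mk (nat_lit 0x20009000600060009000c000c00080007000400040007000a000a000e0008) (nat_lit 0x300100600008041) (nat_lit 16) Lb.e (@T16.mk En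
    (@En.n l5479 (nat_lit 48) (nat_lit 2) (nat_lit 8))
    (@En.n l5144 (nat_lit 819) (nat_lit 1) (nat_lit 14))
    (@En.n l26046 (nat_lit 5753) (nat_lit 2) (nat_lit 10))
    (@En.n l5479 (nat_lit 5737) (nat_lit 3) (nat_lit 10))
    (@En.n l26047 (nat_lit 5757) (nat_lit 4) (nat_lit 7))
    (@En.n l26048 (nat_lit 5757) (nat_lit 5) (nat_lit 4))
    (@En.n l26049 (nat_lit 5686) (nat_lit 6) (nat_lit 4))
    (@En.i (nat_lit 925) (nat_lit 7) (nat_lit 7))
    (@En.n l26050 (nat_lit 5425) (nat_lit 1) (nat_lit 8))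
    (@En.n l61 (nat_lit 5754) (nat_lit 4) (nat_lit 12))
    (@En.n l1643 (nat_lit 4848) (nat_lit 11) (nat_lit 12))
    (@En.n l3 (nat_lit 931) (nat_lit 12) (nat_lit 9))
    (@En.n l527 (nat_lit 931) (nat_lit 13) (nat_lit 6))
    (@En.n l26050 (nat_lit 7786) (nat_lit 14) (nat_lit 6))
    (@En.n l26051 (nat_lit 5773) (nat_lit 8) (nat_lit 9))
    (@En.n l28 (nat_lit 933) (nat_lit 15) (nat_lit 2))))
  (@Cl.mk (nat_lit 0x200070003000e00070002000a000e000d00020009000300060009000e000d) (nat_lit 0x40050100007aa) (nat_lit 16) Lb.e (@T16.mk En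
    (@En.n l2593 (nat_lit 705) (nat_lit 10) (nat_lit 13))
    (@En.n l1208 (nat_lit 864) (nat_lit 11) (nat_lit 14))
    (@En.n l158 (nat_lit 4114) (nat_lit 2) (nat_lit 9))
    (@En.n l387 (nat_lit 13409) (nat_lit 12) (nat_lit 6))
    (@En.n l4750 (nat_lit 706) (nat_lit 4) (nat_lit 3))
    (@En.n l1501 (nat_lit 4924) (nat_lit 0) (nat_lit 9))
    (@En.n l107 (nat_lit 934) (nat_lit 6) (nat_lit 2))
    (@En.n l513 (nat_lit 706) (nat_lit 8) (nat_lit 13))
    (@En.n l5413 (nat_lit 4751) (nat_lit 9) (nat_lit 14))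
    (@En.n l5414 (nat_lit 930) (nat_lit 2) (nat_lit 10))
    (@En.n l18 (nat_lit 934) (nat_lit 10) (nat_lit 2))
    (@En.n l5415 (nat_lit 930) (nat_lit 4) (nat_lit 7))
    (@En.n l564 (nat_lit 696) (nat_lit 1) (nat_lit 14))
    (@En.n l1208 (nat_lit 705) (nat_lit 6) (nat_lit 3))
    (@En.n l1252 (nat_lit 6046) (nat_lit 7) (nat_lit 7))
    (@En.n l8 (nat_lit 934) (nat_lit 15) (nat_lit 2))))
  (@Cl.mk (nat_lit 0x200060009000e000d000200090003000e00070002000a000d0007000e0003) (nat_lit 0x7ab0004005b000) (nat_lit 16) Lb.e (@T16.mk En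
    (@En.n l5429 (nat_lit 706) (nat_lit 5) (nat_lit 3))
    (@En.n l5430 (nat_lit 13409) (nat_lit 0) (nat_lit 14))
    (@En.n l5431 (nat_lit 4990) (nat_lit 2) (nat_lit 7))
    (@En.i (nat_lit 4789) (nat_lit 5) (nat_lit 13))
    (@En.n l1857 (nat_lit 929) (nat_lit 4) (nat_lit 10))
    (@En.n l28 (nat_lit 935) (nat_lit 5) (nat_lit 2))
    (@En.n l1858 (nat_lit 929) (nat_lit 6) (nat_lit 7))
    (@En.n l5432 (nat_lit 697) (nat_lit 1) (nat_lit 14))
    (@En.n l1393 (nat_lit 704) (nat_lit 8) (nat_lit 3))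
    (@En.n l4306 (nat_lit 6026) (nat_lit 10) (nat_lit 9))
    (@En.n l3 (nat_lit 935) (nat_lit 10) (nat_lit 2))
    (@En.n l4228 (nat_lit 704) (nat_lit 12) (nat_lit 13))
    (@En.i (nat_lit 865) (nat_lit 13) (nat_lit 14))
    (@En.n l387 (nat_lit 4116) (nat_lit 2) (nat_lit 9))
    (@En.n l5433 (nat_lit 706) (nat_lit 3) (nat_lit 6))
    (@En.n l18 (nat_lit 935) (nat_lit 15) (nat_lit 2))))
  (@Cl.mk (nat_lit 0x20002000e00070002000a000d000d000b00030003000600090005000e000e) (nat_lit 0x200400600000bc) (nat_lit 16) Lb.e (@T16.mk En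
    (@En.n l5 (nat_lit 936) (nat_lit 1) (nat_lit 14))
    (@En.n l568 (nat_lit 706) (nat_lit 1) (nat_lit 14))
    (@En.i (nat_lit 13105) (nat_lit 2) (nat_lit 5))
    (@En.n l569 (nat_lit 13440) (nat_lit 3) (nat_lit 9))
    (@En.n l570 (nat_lit 942) (nat_lit 4) (nat_lit 6))
    (@En.n l571 (nat_lit 942) (nat_lit 5) (nat_lit 3))
    (@En.n l313 (nat_lit 941) (nat_lit 6) (nat_lit 3))
    (@En.n l457 (nat_lit 947) (nat_lit 8) (nat_lit 11))
    (@En.n l185 (nat_lit 941) (nat_lit 9) (nat_lit 13))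
    (@En.n l572 (nat_lit 13002) (nat_lit 10) (nat_lit 13))
    (@En.n l573 (nat_lit 940) (nat_lit 11) (nat_lit 10))
    (@En.n l3 (nat_lit 936) (nat_lit 11) (nat_lit 2))
    (@En.n l574 (nat_lit 940) (nat_lit 13) (nat_lit 7))
    (@En.n l296 (nat_lit 747) (nat_lit 1) (nat_lit 14))
    (@En.n l17 (nat_lit 936) (nat_lit 14) (nat_lit 2))
    (@En.n l18 (nat_lit 936) (nat_lit 15) (nat_lit 2))))
  (@Cl.mk (nat_lit 0x2000200070007000a000d0009000e000300020006000900090007000e000e) (nat_lit 0x4040000000bc) (nat_lit 16) Lb.e (@T16.mk En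
    (@En.n l134 (nat_lit 937) (nat_lit 1) (nat_lit 14))
    (@En.i (nat_lit 929) (nat_lit 11) (nat_lit 14))
    (@En.n l5330 (nat_lit 13115) (nat_lit 2) (nat_lit 7))
    (@En.n l1649 (nat_lit 941) (nat_lit 3) (nat_lit 9))
    (@En.n l5330 (nat_lit 12862) (nat_lit 4) (nat_lit 9))
    (@En.n l3337 (nat_lit 940) (nat_lit 5) (nat_lit 6))
    (@En.n l17 (nat_lit 937) (nat_lit 6) (nat_lit 2))
    (@En.n l2869 (nat_lit 940) (nat_lit 7) (nat_lit 3))
    (@En.n l5494 (nat_lit 13825) (nat_lit 9) (nat_lit 14))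
    (@En.n l5330 (nat_lit 946) (nat_lit 10) (nat_lit 9))
    (@En.n l1643 (nat_lit 13004) (nat_lit 11) (nat_lit 13))
    (@En.n l3 (nat_lit 943) (nat_lit 12) (nat_lit 10))
    (@En.n l527 (nat_lit 943) (nat_lit 13) (nat_lit 7))
    (@En.n l5495 (nat_lit 824) (nat_lit 6) (nat_lit 7))
    (@En.n l7 (nat_lit 937) (nat_lit 14) (nat_lit 2))
    (@En.n l28 (nat_lit 937) (nat_lit 15) (nat_lit 2))))
  (@Cl.mk (nat_lit 0x2000200070007000a000e000d0002000b00030006000900090005000e000e) (nat_lit 0x4000600000bc) (nat_lit 16) Lb.e (@T16.mk En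
    (@En.n l5 (nat_lit 938) (nat_lit 1) (nat_lit 14))
    (@En.n l2031 (nat_lit 930) (nat_lit 9) (nat_lit 14))
    (@En.i (nat_lit 13716) (nat_lit 2) (nat_lit 5))
    (@En.n l5490 (nat_lit 942) (nat_lit 3) (nat_lit 9))
    (@En.n l5491 (nat_lit 12863) (nat_lit 4) (nat_lit 9))
    (@En.n l5492 (nat_lit 13825) (nat_lit 5) (nat_lit 6))
    (@En.n l117 (nat_lit 940) (nat_lit 6) (nat_lit 3))
    (@En.i (nat_lit 12924) (nat_lit 8) (nat_lit 11))
    (@En.n l3 (nat_lit 938) (nat_lit 8) (nat_lit 2))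
    (@En.i (nat_lit 940) (nat_lit 10) (nat_lit 13))
    (@En.n l4549 (nat_lit 13898) (nat_lit 11) (nat_lit 14))
    (@En.n l28 (nat_lit 944) (nat_lit 12) (nat_lit 10))
    (@En.n l77 (nat_lit 944) (nat_lit 13) (nat_lit 7))
    (@En.n l5493 (nat_lit 825) (nat_lit 14) (nat_lit 7))
    (@En.n l17 (nat_lit 938) (nat_lit 14) (nat_lit 2))
    (@En.n l18 (nat_lit 938) (nat_lit 15) (nat_lit 2))))
  (@Cl.mk (nat_lit 0x200020007000a000d000d0009000300030006000e000900020007000e000e) (nat_lit 0x2004000a00045) (nat_lit 16) Lb.e (@T16.mk En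
    (@En.n l5 (nat_lit 939) (nat_lit 1) (nat_lit 14))
    (@En.n l649 (nat_lit 926) (nat_lit 1) (nat_lit 14))
    (@En.i (nat_lit 12944) (nat_lit 2) (nat_lit 7))
    (@En.n l7 (nat_lit 939) (nat_lit 3) (nat_lit 2))
    (@En.i (nat_lit 940) (nat_lit 4) (nat_lit 9))
    (@En.n l134 (nat_lit 12787) (nat_lit 6) (nat_lit 14))
    (@En.n l476 (nat_lit 944) (nat_lit 6) (nat_lit 6))
    (@En.n l152 (nat_lit 944) (nat_lit 7) (nat_lit 3))
    (@En.n l1865 (nat_lit 943) (nat_lit 8) (nat_lit 3))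
    (@En.n l97 (nat_lit 12932) (nat_lit 10) (nat_lit 9))
    (@En.n l1867 (nat_lit 943) (nat_lit 11) (nat_lit 13))
    (@En.n l226 (nat_lit 13011) (nat_lit 12) (nat_lit 13))
    (@En.i (nat_lit 13278) (nat_lit 8) (nat_lit 10))
    (@En.i (nat_lit 782) (nat_lit 14) (nat_lit 7))
    (@En.n l17 (nat_lit 939) (nat_lit 14) (nat_lit 2))
    (@En.n l18 (nat_lit 939) (nat_lit 15) (nat_lit 2))))
  (@Cl.mk (nat_lit 0x2000200070007000a000d000d000a000300030006000900090006000e000e) (nat_lit 0x3b1500071034) (nat_lit 16) Lb.e (@T16.mk En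
    (@En.n l5 (nat_lit 940) (nat_lit 1) (nat_lit 14))
    (@En.n l649 (nat_lit 925) (nat_lit 1) (nat_lit 14))
    (@En.n l1863 (nat_lit 12945) (nat_lit 2) (nat_lit 6))
    (@En.n l1864 (nat_lit 936) (nat_lit 3) (nat_lit 9))
    (@En.n l1863 (nat_lit 12788) (nat_lit 4) (nat_lit 9))
    (@En.n l476 (nat_lit 938) (nat_lit 5) (nat_lit 6))
    (@En.n l152 (nat_lit 938) (nat_lit 6) (nat_lit 3))
    (@En.n l1865 (nat_lit 937) (nat_lit 7) (nat_lit 3))
    (@En.n l1866 (nat_lit 945) (nat_lit 9) (nat_lit 10))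
    (@En.n l1867 (nat_lit 937) (nat_lit 10) (nat_lit 13))
    (@En.n l226 (nat_lit 13006) (nat_lit 11) (nat_lit 13))
    (@En.n l28 (nat_lit 939) (nat_lit 12) (nat_lit 10))
    (@En.n l77 (nat_lit 939) (nat_lit 13) (nat_lit 7))
    (@En.i (nat_lit 823) (nat_lit 14) (nat_lit 7))
    (@En.n l17 (nat_lit 940) (nat_lit 14) (nat_lit 2))
    (@En.n l18 (nat_lit 940) (nat_lit 15) (nat_lit 2))))
  (@Cl.mk (nat_lit 0x20002000e00070002000a000d000a000e00030002000600090006000e000e) (nat_lit 0x3005b5000070bc) (nat_lit 16) Lb.e (@T16.mk En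
    (@En.n l97 (nat_lit 941) (nat_lit 1) (nat_lit 14))
    (@En.i (nat_lit 935) (nat_lit 12) (nat_lit 14))
    (@En.n l521 (nat_lit 13114) (nat_lit 2) (nat_lit 6))
    (@En.n l387 (nat_lit 13443) (nat_lit 3) (nat_lit 9))
    (@En.n l585 (nat_lit 936) (nat_lit 4) (nat_lit 6))
    (@En.n l18 (nat_lit 941) (nat_lit 5) (nat_lit 2))
    (@En.n l1481 (nat_lit 936) (nat_lit 6) (nat_lit 3))
    (@En.n l1856 (nat_lit 14057) (nat_lit 0) (nat_lit 14))
    (@En.n l521 (nat_lit 12918) (nat_lit 9) (nat_lit 10))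
    (@En.i (nat_lit 13003) (nat_lit 10) (nat_lit 13))
    (@En.n l1857 (nat_lit 937) (nat_lit 11) (nat_lit 10))
    (@En.n l28 (nat_lit 941) (nat_lit 11) (nat_lit 2))
    (@En.n l1858 (nat_lit 937) (nat_lit 13) (nat_lit 7))
    (@En.n l521 (nat_lit 748) (nat_lit 1) (nat_lit 14))
    (@En.n l107 (nat_lit 941) (nat_lit 14) (nat_lit 2))
    (@En.n l3 (nat_lit 941) (nat_lit 15) (nat_lit 2))))
  (@Cl.mk (nat_lit 0x20002000e00070002000a000e000d0002000c0003000600090004000e000e) (nat_lit 0x300501070070bc) (nat_lit 16) Lb.e (@T16.mk En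
    (@En.n l396 (nat_lit 942) (nat_lit 1) (nat_lit 14))
    (@En.n l1850 (nat_lit 934) (nat_lit 1) (nat_lit 14))
    (@En.n l1851 (nat_lit 13104) (nat_lit 2) (nat_lit 4))
    (@En.n l1643 (nat_lit 13441) (nat_lit 3) (nat_lit 9))
    (@En.i (nat_lit 14057) (nat_lit 12) (nat_lit 6))
    (@En.n l398 (nat_lit 936) (nat_lit 5) (nat_lit 3))
    (@En.n l1352 (nat_lit 12921) (nat_lit 7) (nat_lit 12))
    (@En.n l107 (nat_lit 942) (nat_lit 7) (nat_lit 2))
    (@En.n l1852 (nat_lit 936) (nat_lit 9) (nat_lit 13))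
    (@En.n l619 (nat_lit 12860) (nat_lit 10) (nat_lit 14))
    (@En.n l1853 (nat_lit 938) (nat_lit 11) (nat_lit 10))
    (@En.n l403 (nat_lit 942) (nat_lit 11) (nat_lit 2))
    (@En.n l1854 (nat_lit 938) (nat_lit 13) (nat_lit 7))
    (@En.n l1855 (nat_lit 749) (nat_lit 1) (nat_lit 14))
    (@En.n l18 (nat_lit 942) (nat_lit 14) (nat_lit 2))
    (@En.n l50 (nat_lit 942) (nat_lit 15) (nat_lit 2))))
  (@Cl.mk (nat_lit 0x200020007000a000d0008000e000300020006000e000900020008000e000e) (nat_lit 0x3b30000b100bc) (nat_lit 16) Lb.e (@T16.mk En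
    (@En.n l134 (nat_lit 943) (nat_lit 1) (nat_lit 14))
    (@En.i (nat_lit 923) (nat_lit 10) (nat_lit 14))
    (@En.i (nat_lit 13116) (nat_lit 2) (nat_lit 8))
    (@En.n l107 (nat_lit 943) (nat_lit 3) (nat_lit 2))
    (@En.i (nat_lit 937) (nat_lit 4) (nat_lit 9))
    (@En.n l97 (nat_lit 12790) (nat_lit 6) (nat_lit 14))
    (@En.n l3337 (nat_lit 939) (nat_lit 6) (nat_lit 6))
    (@En.n l17 (nat_lit 943) (nat_lit 7) (nat_lit 2))
    (@En.n l2869 (nat_lit 939) (nat_lit 8) (nat_lit 3))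
    (@En.n l2034 (nat_lit 13827) (nat_lit 10) (nat_lit 14))
    (@En.n l5592 (nat_lit 12904) (nat_lit 11) (nat_lit 8))
    (@En.n l1643 (nat_lit 13010) (nat_lit 12) (nat_lit 13))
    (@En.i (nat_lit 13279) (nat_lit 8) (nat_lit 10))
    (@En.i (nat_lit 788) (nat_lit 5) (nat_lit 7))
    (@En.n l7 (nat_lit 943) (nat_lit 14) (nat_lit 2))
    (@En.n l28 (nat_lit 943) (nat_lit 15) (nat_lit 2))))
noncomputable def a59 : T16 Cl := @T16.mk Cl
  (@Cl.mk (nat_lit 0x200020007000a000e000d0002000a00030006000e000900020006000e000e) (nat_lit 0x3010500b100bc) (nat_lit 16) Lb.e (@T16.mk En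
    (@En.n l5 (nat_lit 944) (nat_lit 1) (nat_lit 14))
    (@En.n l2031 (nat_lit 924) (nat_lit 8) (nat_lit 14))
    (@En.i (nat_lit 13659) (nat_lit 2) (nat_lit 6))
    (@En.n l7 (nat_lit 944) (nat_lit 3) (nat_lit 2))
    (@En.i (nat_lit 938) (nat_lit 4) (nat_lit 9))
    (@En.n l134 (nat_lit 12791) (nat_lit 6) (nat_lit 14))
    (@En.i (nat_lit 13827) (nat_lit 6) (nat_lit 6))
    (@En.n l117 (nat_lit 939) (nat_lit 7) (nat_lit 3))
    (@En.i (nat_lit 12927) (nat_lit 9) (nat_lit 10))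
    (@En.n l3 (nat_lit 944) (nat_lit 9) (nat_lit 2))
    (@En.i (nat_lit 939) (nat_lit 11) (nat_lit 13))
    (@En.i (nat_lit 13899) (nat_lit 12) (nat_lit 14))
    (@En.i (nat_lit 13280) (nat_lit 8) (nat_lit 10))
    (@En.n l2568 (nat_lit 787) (nat_lit 14) (nat_lit 7))
    (@En.n l17 (nat_lit 944) (nat_lit 14) (nat_lit 2))
    (@En.n l18 (nat_lit 944) (nat_lit 15) (nat_lit 2))))
  (@Cl.mk (nat_lit 0x2000200080008000b000e000a0002000b00050008000800060005000e000e) (nat_lit 0x4040000000c0) (nat_lit 16) Lb.e (@T16.mk En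
    (@En.n l5 (nat_lit 945) (nat_lit 1) (nat_lit 14))
    (@En.n l1879 (nat_lit 3669) (nat_lit 1) (nat_lit 14))
    (@En.n l1880 (nat_lit 938) (nat_lit 2) (nat_lit 5))
    (@En.i (nat_lit 14030) (nat_lit 3) (nat_lit 6))
    (@En.n l2 (nat_lit 947) (nat_lit 4) (nat_lit 8))
    (@En.i (nat_lit 13702) (nat_lit 5) (nat_lit 8))
    (@En.n l1881 (nat_lit 12924) (nat_lit 6) (nat_lit 5))
    (@En.n l1425 (nat_lit 12922) (nat_lit 8) (nat_lit 11))
    (@En.n l11 (nat_lit 945) (nat_lit 8) (nat_lit 2))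
    (@En.i (nat_lit 12903) (nat_lit 10) (nat_lit 10))
    (@En.n l129 (nat_lit 12907) (nat_lit 11) (nat_lit 14))
    (@En.n l1870 (nat_lit 12932) (nat_lit 12) (nat_lit 11))
    (@En.n l1871 (nat_lit 12932) (nat_lit 13) (nat_lit 8))
    (@En.n l996 (nat_lit 1510) (nat_lit 14) (nat_lit 8))
    (@En.n l17 (nat_lit 945) (nat_lit 14) (nat_lit 2))
    (@En.n l18 (nat_lit 945) (nat_lit 15) (nat_lit 2))))
  (@Cl.mk (nat_lit 0x2000200080008000b0009000e000a000200050008000800070006000e000e) (nat_lit 0x4370000000c0) (nat_lit 16) Lb.e (@T16.mk En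
    (@En.n l5 (nat_lit 946) (nat_lit 1) (nat_lit 14))
    (@En.n l597 (nat_lit 1282) (nat_lit 10) (nat_lit 14))
    (@En.n l573 (nat_lit 940) (nat_lit 2) (nat_lit 6))
    (@En.i (nat_lit 14021) (nat_lit 3) (nat_lit 7))
    (@En.n l2 (nat_lit 12918) (nat_lit 4) (nat_lit 8))
    (@En.i (nat_lit 13463) (nat_lit 5) (nat_lit 8))
    (@En.n l115 (nat_lit 945) (nat_lit 6) (nat_lit 5))
    (@En.n l28 (nat_lit 946) (nat_lit 7) (nat_lit 2))
    (@En.n l77 (nat_lit 12903) (nat_lit 9) (nat_lit 10))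
    (@En.n l598 (nat_lit 12897) (nat_lit 10) (nat_lit 14))
    (@En.n l597 (nat_lit 12888) (nat_lit 11) (nat_lit 9))
    (@En.n l599 (nat_lit 12904) (nat_lit 12) (nat_lit 11))
    (@En.n l600 (nat_lit 12904) (nat_lit 13) (nat_lit 8))
    (@En.i (nat_lit 1511) (nat_lit 5) (nat_lit 8))
    (@En.n l17 (nat_lit 946) (nat_lit 14) (nat_lit 2))
    (@En.n l18 (nat_lit 946) (nat_lit 15) (nat_lit 2))))
  (@Cl.mk (nat_lit 0x20002000e00080002000b000e000b0002000c0005000800050004000e000e) (nat_lit 0x10505000600ab) (nat_lit 16) Lb.e (@T16.mk En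
    (@En.n l5 (nat_lit 947) (nat_lit 1) (nat_lit 14))
    (@En.n l37 (nat_lit 4165) (nat_lit 1) (nat_lit 14))
    (@En.n l580 (nat_lit 942) (nat_lit 2) (nat_lit 4))
    (@En.i (nat_lit 13108) (nat_lit 3) (nat_lit 5))
    (@En.n l37 (nat_lit 13447) (nat_lit 4) (nat_lit 8))
    (@En.n l581 (nat_lit 12921) (nat_lit 5) (nat_lit 5))
    (@En.n l127 (nat_lit 12920) (nat_lit 7) (nat_lit 12))
    (@En.n l11 (nat_lit 947) (nat_lit 7) (nat_lit 2))
    (@En.i (nat_lit 12919) (nat_lit 9) (nat_lit 11))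
    (@En.n l582 (nat_lit 13100) (nat_lit 10) (nat_lit 14))
    (@En.i (nat_lit 945) (nat_lit 11) (nat_lit 11))
    (@En.n l3 (nat_lit 947) (nat_lit 11) (nat_lit 2))
    (@En.n l31 (nat_lit 945) (nat_lit 13) (nat_lit 8))
    (@En.i (nat_lit 2477) (nat_lit 1) (nat_lit 14))
    (@En.n l17 (nat_lit 947) (nat_lit 14) (nat_lit 2))
    (@En.n l18 (nat_lit 947) (nat_lit 15) (nat_lit 2))))
  (@Cl.mk (nat_lit 0x2000500090008000e000b0002000a0009000700050008000b0006000e0007) (nat_lit 0x61290810015010) (nat_lit 16) Lb.e (@T16.mk En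
    (@En.n l7 (nat_lit 951) (nat_lit 6) (nat_lit 7))
    (@En.n l6389 (nat_lit 425) (nat_lit 8) (nat_lit 14))
    (@En.n l14897 (nat_lit 1991) (nat_lit 2) (nat_lit 6))
    (@En.n l3298 (nat_lit 1626) (nat_lit 3) (nat_lit 11))
    (@En.i (nat_lit 721) (nat_lit 10) (nat_lit 8))
    (@En.n l3298 (nat_lit 916) (nat_lit 5) (nat_lit 5))
    (@En.n l14898 (nat_lit 7628) (nat_lit 6) (nat_lit 7))
    (@En.n l5416 (nat_lit 387) (nat_lit 14) (nat_lit 9))
    (@En.n l5423 (nat_lit 9599) (nat_lit 9) (nat_lit 10))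
    (@En.n l107 (nat_lit 948) (nat_lit 9) (nat_lit 2))
    (@En.n l11142 (nat_lit 949) (nat_lit 11) (nat_lit 11))
    (@En.n l14899 (nat_lit 1567) (nat_lit 12) (nat_lit 14))
    (@En.n l5417 (nat_lit 423) (nat_lit 13) (nat_lit 8))
    (@En.n l5416 (nat_lit 1573) (nat_lit 14) (nat_lit 9))
    (@En.n l14900 (nat_lit 953) (nat_lit 13) (nat_lit 5))
    (@En.n l50 (nat_lit 948) (nat_lit 15) (nat_lit 2))))
  (@Cl.mk (nat_lit 0x20005000a0008000b000b000900080006000500050008000b0007000e0008) (nat_lit 0x61850100024010) (nat_lit 16) Lb.e (@T16.mk En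
    (@En.n l12776 (nat_lit 950) (nat_lit 1) (nat_lit 8))
    (@En.n l12777 (nat_lit 429) (nat_lit 1) (nat_lit 14))
    (@En.n l5249 (nat_lit 1987) (nat_lit 2) (nat_lit 7))
    (@En.i (nat_lit 1608) (nat_lit 3) (nat_lit 11))
    (@En.n l5158 (nat_lit 948) (nat_lit 4) (nat_lit 8))
    (@En.n l5159 (nat_lit 948) (nat_lit 5) (nat_lit 5))
    (@En.i (nat_lit 918) (nat_lit 6) (nat_lit 5))
    (@En.n l12778 (nat_lit 7610) (nat_lit 7) (nat_lit 6))
    (@En.n l644 (nat_lit 392) (nat_lit 8) (nat_lit 8))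
    (@En.n l457 (nat_lit 9600) (nat_lit 10) (nat_lit 9))
    (@En.n l12779 (nat_lit 1666) (nat_lit 11) (nat_lit 11))
    (@En.n l4947 (nat_lit 1607) (nat_lit 12) (nat_lit 11))
    (@En.n l4948 (nat_lit 427) (nat_lit 13) (nat_lit 8))
    (@En.n l12780 (nat_lit 1569) (nat_lit 14) (nat_lit 10))
    (@En.n l12781 (nat_lit 952) (nat_lit 13) (nat_lit 5))
    (@En.n l18 (nat_lit 949) (nat_lit 15) (nat_lit 2))))
  (@Cl.mk (nat_lit 0x400090007000a000a0008000800080007000600060009000c000800080008) (nat_lit 0x7400200005560) (nat_lit 16) Lb.e (@T16.mk En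
    (@En.n l7995 (nat_lit 1487) (nat_lit 8) (nat_lit 8))
    (@En.n l26500 (nat_lit 1486) (nat_lit 8) (nat_lit 8))
    (@En.n l26501 (nat_lit 1988) (nat_lit 4) (nat_lit 8))
    (@En.n l26502 (nat_lit 1620) (nat_lit 6) (nat_lit 12))
    (@En.n l26503 (nat_lit 951) (nat_lit 9) (nat_lit 9))
    (@En.n l26504 (nat_lit 951) (nat_lit 10) (nat_lit 6))
    (@En.n l26502 (nat_lit 984) (nat_lit 10) (nat_lit 6))
    (@En.n l7992 (nat_lit 5186) (nat_lit 9) (nat_lit 7))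
    (@En.n l26505 (nat_lit 949) (nat_lit 8) (nat_lit 8))
    (@En.n l527 (nat_lit 952) (nat_lit 8) (nat_lit 8))
    (@En.n l6489 (nat_lit 9591) (nat_lit 8) (nat_lit 8))
    (@En.n l2337 (nat_lit 954) (nat_lit 6) (nat_lit 10))
    (@En.i (nat_lit 1533) (nat_lit 8) (nat_lit 10))
    (@En.n l26506 (nat_lit 955) (nat_lit 14) (nat_lit 7))
    (@En.n l7994 (nat_lit 1572) (nat_lit 11) (nat_lit 9))
    (@En.n l12573 (nat_lit 1481) (nat_lit 15) (nat_lit 4))))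
  (@Cl.mk (nat_lit 0x2000900090009000800060009000c000700070007000400080007000e000a) (nat_lit 0x2307400006008) (nat_lit 16) Lb.e (@T16.mk En
    (@En.n l13162 (nat_lit 950) (nat_lit 12) (nat_lit 10))
    (@En.n l6629 (nat_lit 1566) (nat_lit 1) (nat_lit 14))
    (@En.n l16358 (nat_lit 956) (nat_lit 2) (nat_lit 7))
    (@En.n l6599 (nat_lit 1577) (nat_lit 3) (nat_lit 8))
    (@En.n l16359 (nat_lit 1434) (nat_lit 4) (nat_lit 4))
    (@En.n l3787 (nat_lit 1727) (nat_lit 5) (nat_lit 7))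
    (@En.n l6602 (nat_lit 1541) (nat_lit 9) (nat_lit 7))
    (@En.n l4839 (nat_lit 1986) (nat_lit 7) (nat_lit 7))
    (@En.i (nat_lit 1628) (nat_lit 9) (nat_lit 12))
    (@En.n l1374 (nat_lit 12887) (nat_lit 9) (nat_lit 9))
    (@En.n l690 (nat_lit 982) (nat_lit 11) (nat_lit 6))
    (@En.n l1544 (nat_lit 5187) (nat_lit 12) (nat_lit 8))
    (@En.n l601 (nat_lit 948) (nat_lit 7) (nat_lit 9))
    (@En.n l6603 (nat_lit 953) (nat_lit 7) (nat_lit 9))
    (@En.n l11 (nat_lit 9589) (nat_lit 3) (nat_lit 9))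
    (@En.n l107 (nat_lit 951) (nat_lit 15) (nat_lit 2))))
  (@Cl.mk (nat_lit 0x200090005000a0008000b000b000800070006000500050008000b000e0008) (nat_lit 0x706004600002466) (nat_lit 16) Lb.e (@T16.mk En
    (@En.i (nat_lit 950) (nat_lit 2) (nat_lit 8))
    (@En.n l6869 (nat_lit 1970) (nat_lit 4) (nat_lit 14))
    (@En.n l387 (nat_lit 1189) (nat_lit 2) (nat_lit 11))
    (@En.n l2114 (nat_lit 953) (nat_lit 3) (nat_lit 8))
    (@En.n l1959 (nat_lit 953) (nat_lit 4) (nat_lit 5))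
    (@En.n l8283 (nat_lit 987) (nat_lit 5) (nat_lit 5))
    (@En.n l6869 (nat_lit 820) (nat_lit 6) (nat_lit 6))
    (@En.i (nat_lit 396) (nat_lit 7) (nat_lit 7))
    (@En.n l6489 (nat_lit 8395) (nat_lit 9) (nat_lit 8))
    (@En.n l2337 (nat_lit 959) (nat_lit 5) (nat_lit 11))
    (@En.i (nat_lit 1606) (nat_lit 11) (nat_lit 11))
    (@En.n l2019 (nat_lit 958) (nat_lit 12) (nat_lit 8))
    (@En.n l12797 (nat_lit 1621) (nat_lit 13) (nat_lit 10))
    (@En.n l12573 (nat_lit 1480) (nat_lit 14) (nat_lit 5))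
    (@En.n l8287 (nat_lit 1481) (nat_lit 0) (nat_lit 9))
    (@En.n l107 (nat_lit 952) (nat_lit 15) (nat_lit 2))))
  (@Cl.mk (nat_lit 0x20008000500090008000e000b000200090008000700050008000b000e0007) (nat_lit 0x607021071001400) (nat_lit 16) Lb.e (@T16.mk En
    (@En.n l11328 (nat_lit 951) (nat_lit 7) (nat_lit 7))
    (@En.n l4684 (nat_lit 1971) (nat_lit 4) (nat_lit 14))
    (@En.n l3486 (nat_lit 1632) (nat_lit 2) (nat_lit 11))
    (@En.n l699 (nat_lit 722) (nat_lit 10) (nat_lit 8))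
    (@En.n l3486 (nat_lit 1032) (nat_lit 4) (nat_lit 5))
    (@En.n l5995 (nat_lit 5456) (nat_lit 13) (nat_lit 7))
    (@En.i (nat_lit 459) (nat_lit 6) (nat_lit 8))
    (@En.n l24932 (nat_lit 8817) (nat_lit 8) (nat_lit 9))
    (@En.n l18 (nat_lit 953) (nat_lit 8) (nat_lit 2))
    (@En.n l1708 (nat_lit 952) (nat_lit 10) (nat_lit 11))
    (@En.n l24933 (nat_lit 1564) (nat_lit 11) (nat_lit 14))
    (@En.n l890 (nat_lit 957) (nat_lit 2) (nat_lit 8))
    (@En.n l1643 (nat_lit 1622) (nat_lit 3) (nat_lit 9))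
    (@En.n l159 (nat_lit 1433) (nat_lit 14) (nat_lit 5))
    (@En.n l24934 (nat_lit 1434) (nat_lit 5) (nat_lit 8))
    (@En.n l107 (nat_lit 953) (nat_lit 15) (nat_lit 2))))
  (@Cl.mk (nat_lit 0x20009000c0009000900090004000a0007000a0007000700070006000e0006) (nat_lit 0x166000003000060) (nat_lit 16) Lb.e (@T16.mk En
    (@En.n l7 (nat_lit 950) (nat_lit 6) (nat_lit 6))
    (@En.n l6233 (nat_lit 4943) (nat_lit 1) (nat_lit 14))
    (@En.n l12719 (nat_lit 5188) (nat_lit 2) (nat_lit 6))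
    (@En.n l180 (nat_lit 1666) (nat_lit 9) (nat_lit 7))
    (@En.n l527 (nat_lit 959) (nat_lit 4) (nat_lit 7))
    (@En.n l1678 (nat_lit 7651) (nat_lit 5) (nat_lit 7))
    (@En.i (nat_lit 2297) (nat_lit 8) (nat_lit 10))
    (@En.n l9779 (nat_lit 961) (nat_lit 7) (nat_lit 7))
    (@En.n l3303 (nat_lit 1576) (nat_lit 9) (nat_lit 10))
    (@En.n l159 (nat_lit 1472) (nat_lit 9) (nat_lit 4))
    (@En.n l5634 (nat_lit 1790) (nat_lit 7) (nat_lit 9))
    (@En.n l5635 (nat_lit 1526) (nat_lit 7) (nat_lit 9))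
    (@En.n l5706 (nat_lit 1984) (nat_lit 13) (nat_lit 9))
    (@En.n l1208 (nat_lit 1609) (nat_lit 6) (nat_lit 12))
    (@En.n l4600 (nat_lit 950) (nat_lit 4) (nat_lit 9))
    (@En.n l18 (nat_lit 954) (nat_lit 15) (nat_lit 2))))
  (@Cl.mk (nat_lit 0x40007000a000a000700070007000c0006000600090004000c000900090009) (nat_lit 0x3000500006670) (nat_lit 16) Lb.e (@T16.mk En
    (@En.n l1952 (nat_lit 1724) (nat_lit 7) (nat_lit 9))
    (@En.n l26005 (nat_lit 1525) (nat_lit 7) (nat_lit 9))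
    (@En.n l26006 (nat_lit 1672) (nat_lit 14) (nat_lit 9))
    (@En.n l26007 (nat_lit 950) (nat_lit 3) (nat_lit 12))
    (@En.n l26008 (nat_lit 1412) (nat_lit 4) (nat_lit 4))
    (@En.n l26009 (nat_lit 956) (nat_lit 9) (nat_lit 9))
    (@En.n l26010 (nat_lit 956) (nat_lit 10) (nat_lit 6))
    (@En.i (nat_lit 980) (nat_lit 7) (nat_lit 6))
    (@En.n l26011 (nat_lit 625) (nat_lit 8) (nat_lit 12))
    (@En.n l26012 (nat_lit 427) (nat_lit 9) (nat_lit 7))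
    (@En.n l26013 (nat_lit 958) (nat_lit 9) (nat_lit 7))
    (@En.n l26014 (nat_lit 9586) (nat_lit 6) (nat_lit 7))
    (@En.n l77 (nat_lit 961) (nat_lit 6) (nat_lit 10))
    (@En.n l1001 (nat_lit 1418) (nat_lit 8) (nat_lit 10))
    (@En.i (nat_lit 5196) (nat_lit 11) (nat_lit 7))
    (@En.n l26015 (nat_lit 1436) (nat_lit 15) (nat_lit 4))))
  (@Cl.mk (nat_lit 0x2000800080008000d000600090003000c00080008000800040007000e000a) (nat_lit 0x2507055600071) (nat_lit 16) Lb.e (@T16.mk En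
    (@En.n l12530 (nat_lit 955) (nat_lit 13) (nat_lit 10))
    (@En.n l601 (nat_lit 1396) (nat_lit 1) (nat_lit 14))
    (@En.n l1643 (nat_lit 5198) (nat_lit 2) (nat_lit 7))
    (@En.n l12531 (nat_lit 1430) (nat_lit 3) (nat_lit 4))
    (@En.n l5322 (nat_lit 1725) (nat_lit 4) (nat_lit 8))
    (@En.n l525 (nat_lit 1540) (nat_lit 8) (nat_lit 8))
    (@En.n l1910 (nat_lit 1767) (nat_lit 6) (nat_lit 8))
    (@En.n l5323 (nat_lit 951) (nat_lit 8) (nat_lit 12))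
    (@En.n l12532 (nat_lit 1416) (nat_lit 8) (nat_lit 3))
    (@En.i (nat_lit 12888) (nat_lit 9) (nat_lit 9))
    (@En.n l12533 (nat_lit 978) (nat_lit 11) (nat_lit 6))
    (@En.n l1910 (nat_lit 1228) (nat_lit 12) (nat_lit 13))
    (@En.n l1911 (nat_lit 423) (nat_lit 8) (nat_lit 8))
    (@En.n l527 (nat_lit 957) (nat_lit 14) (nat_lit 8))
    (@En.n l1910 (nat_lit 9587) (nat_lit 5) (nat_lit 8))
    (@En.n l50 (nat_lit 956) (nat_lit 15) (nat_lit 2))))
  (@Cl.mk (nat_lit 0x200080007000d000500080003000b000e00080002000900050008000e000b) (nat_lit 0x604020506000680) (nat_lit 16) Lb.e (@T16.mk En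
    (@En.i (nat_lit 958) (nat_lit 11) (nat_lit 11))
    (@En.n l601 (nat_lit 1397) (nat_lit 12) (nat_lit 14))
    (@En.n l1643 (nat_lit 6017) (nat_lit 2) (nat_lit 8))
    (@En.n l12534 (nat_lit 1429) (nat_lit 14) (nat_lit 5))
    (@En.n l5996 (nat_lit 1430) (nat_lit 4) (nat_lit 9))
    (@En.n l107 (nat_lit 957) (nat_lit 5) (nat_lit 2))
    (@En.i (nat_lit 956) (nat_lit 6) (nat_lit 8))
    (@En.n l619 (nat_lit 1627) (nat_lit 4) (nat_lit 14))
    (@En.n l1722 (nat_lit 953) (nat_lit 2) (nat_lit 11))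
    (@En.n l2364 (nat_lit 1424) (nat_lit 9) (nat_lit 3))
    (@En.i (nat_lit 723) (nat_lit 10) (nat_lit 8))
    (@En.i (nat_lit 979) (nat_lit 5) (nat_lit 5))
    (@En.n l5599 (nat_lit 1243) (nat_lit 7) (nat_lit 13))
    (@En.i (nat_lit 382) (nat_lit 14) (nat_lit 7))
    (@En.n l615 (nat_lit 8437) (nat_lit 9) (nat_lit 8))
    (@En.n l50 (nat_lit 957) (nat_lit 15) (nat_lit 2))))
  (@Cl.mk (nat_lit 0x2000a00050008000b000b00070006000c0005000500080004000b000e0009) (nat_lit 0x6930050030507) (nat_lit 16) Lb.e (@T16.mk En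
    (@En.n l12530 (nat_lit 955) (nat_lit 2) (nat_lit 9))
    (@En.n l619 (nat_lit 1624) (nat_lit 4) (nat_lit 14))
    (@En.n l6508 (nat_lit 952) (nat_lit 2) (nat_lit 11))
    (@En.n l5834 (nat_lit 1400) (nat_lit 3) (nat_lit 4))
    (@En.n l7 (nat_lit 957) (nat_lit 10) (nat_lit 8))
    (@En.n l644 (nat_lit 957) (nat_lit 11) (nat_lit 5))
    (@En.n l5838 (nat_lit 986) (nat_lit 6) (nat_lit 5))
    (@En.n l5599 (nat_lit 996) (nat_lit 8) (nat_lit 12))
    (@En.i (nat_lit 384) (nat_lit 8) (nat_lit 6))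
    (@En.n l615 (nat_lit 8774) (nat_lit 10) (nat_lit 7))
    (@En.n l35559 (nat_lit 960) (nat_lit 5) (nat_lit 11))
    (@En.n l5838 (nat_lit 1466) (nat_lit 7) (nat_lit 11))
    (@En.n l1643 (nat_lit 5201) (nat_lit 13) (nat_lit 8))
    (@En.n l12534 (nat_lit 1435) (nat_lit 14) (nat_lit 5))
    (@En.n l35560 (nat_lit 1436) (nat_lit 0) (nat_lit 10))
    (@En.n l107 (nat_lit 958) (nat_lit 15) (nat_lit 2))))
  (@Cl.mk (nat_lit 0x20008000b000e00090002000a0005000b0008000b000700060005000e0005) (nat_lit 0x377700050300030) (nat_lit 16) Lb.e (@T16.mk En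
    (@En.n l7 (nat_lit 952) (nat_lit 5) (nat_lit 5))
    (@En.n l6233 (nat_lit 4918) (nat_lit 1) (nat_lit 14))
    (@En.n l7 (nat_lit 8228) (nat_lit 2) (nat_lit 5))
    (@En.i (nat_lit 395) (nat_lit 3) (nat_lit 6))
    (@En.i (nat_lit 8475) (nat_lit 4) (nat_lit 7))
    (@En.i (nat_lit 2357) (nat_lit 11) (nat_lit 11))
    (@En.n l9779 (nat_lit 960) (nat_lit 6) (nat_lit 8))
    (@En.n l1643 (nat_lit 1623) (nat_lit 8) (nat_lit 11))
    (@En.n l159 (nat_lit 1471) (nat_lit 14) (nat_lit 5))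
    (@En.n l11 (nat_lit 1472) (nat_lit 10) (nat_lit 10))
    (@En.n l107 (nat_lit 959) (nat_lit 10) (nat_lit 2))
    (@En.i (nat_lit 954) (nat_lit 12) (nat_lit 9))
    (@En.n l619 (nat_lit 1972) (nat_lit 13) (nat_lit 14))
    (@En.n l1208 (nat_lit 1192) (nat_lit 2) (nat_lit 11))
    (@En.n l4600 (nat_lit 952) (nat_lit 3) (nat_lit 8))
    (@En.n l18 (nat_lit 959) (nat_lit 15) (nat_lit 2))))
noncomputable def a60 : T16 Cl := @T16.mk Cl
  (@Cl.mk (nat_lit 0x200080005000b000e000a0002000b00050008000b00060005000b000e0005) (nat_lit 0x408080006200230) (nat_lit 16) Lb.e (@T16.mk En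
    (@En.n l19851 (nat_lit 958) (nat_lit 6) (nat_lit 5))
    (@En.i (nat_lit 4955) (nat_lit 8) (nat_lit 14))
    (@En.n l287 (nat_lit 997) (nat_lit 9) (nat_lit 11))
    (@En.n l1001 (nat_lit 397) (nat_lit 3) (nat_lit 5))
    (@En.i (nat_lit 8472) (nat_lit 4) (nat_lit 6))
    (@En.n l1001 (nat_lit 799) (nat_lit 7) (nat_lit 11))
    (@En.i (nat_lit 6016) (nat_lit 6) (nat_lit 8))
    (@En.n l2155 (nat_lit 1469) (nat_lit 14) (nat_lit 5))
    (@En.n l615 (nat_lit 1470) (nat_lit 9) (nat_lit 11))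
    (@En.n l3 (nat_lit 960) (nat_lit 9) (nat_lit 2))
    (@En.i (nat_lit 961) (nat_lit 11) (nat_lit 10))
    (@En.n l713 (nat_lit 1625) (nat_lit 12) (nat_lit 14))
    (@En.n l6156 (nat_lit 959) (nat_lit 13) (nat_lit 11))
    (@En.n l2159 (nat_lit 1466) (nat_lit 14) (nat_lit 5))
    (@En.n l19852 (nat_lit 958) (nat_lit 4) (nat_lit 8))
    (@En.n l7 (nat_lit 960) (nat_lit 15) (nat_lit 2))))
  (@Cl.mk (nat_lit 0x200090005000c000a000a000a00040007000a000600060006000b000e0006) (nat_lit 0x107700002000300) (nat_lit 16) Lb.e (@T16.mk En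
    (@En.i (nat_lit 955) (nat_lit 7) (nat_lit 6))
    (@En.i (nat_lit 4945) (nat_lit 4) (nat_lit 14))
    (@En.n l14631 (nat_lit 991) (nat_lit 2) (nat_lit 11))
    (@En.n l11 (nat_lit 1663) (nat_lit 10) (nat_lit 6))
    (@En.n l152 (nat_lit 960) (nat_lit 4) (nat_lit 6))
    (@En.n l5704 (nat_lit 7650) (nat_lit 5) (nat_lit 6))
    (@En.n l1001 (nat_lit 795) (nat_lit 8) (nat_lit 10))
    (@En.i (nat_lit 5197) (nat_lit 7) (nat_lit 7))
    (@En.n l13138 (nat_lit 1470) (nat_lit 8) (nat_lit 4))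
    (@En.n l1952 (nat_lit 1789) (nat_lit 10) (nat_lit 10))
    (@En.n l1596 (nat_lit 1524) (nat_lit 6) (nat_lit 10))
    (@En.n l12593 (nat_lit 1670) (nat_lit 12) (nat_lit 10))
    (@En.n l6156 (nat_lit 954) (nat_lit 13) (nat_lit 12))
    (@En.n l2159 (nat_lit 1418) (nat_lit 14) (nat_lit 5))
    (@En.n l4172 (nat_lit 955) (nat_lit 5) (nat_lit 9))
    (@En.n l7 (nat_lit 961) (nat_lit 15) (nat_lit 2))))
  (@Cl.mk (nat_lit 0x2000d0005000d0003000e00030002000d000d000b00030003000b000e0005) (nat_lit 0xa0103008a200020) (nat_lit 16) Lb.e (@T16.mk En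
    (@En.n l7680 (nat_lit 2996) (nat_lit 7) (nat_lit 5))
    (@En.n l998 (nat_lit 174) (nat_lit 4) (nat_lit 14))
    (@En.n l998 (nat_lit 7448) (nat_lit 2) (nat_lit 11))
    (@En.n l50 (nat_lit 964) (nat_lit 13) (nat_lit 3))
    (@En.i (nat_lit 694) (nat_lit 0) (nat_lit 3))
    (@En.i (nat_lit 1105) (nat_lit 0) (nat_lit 11))
    (@En.n l601 (nat_lit 694) (nat_lit 3) (nat_lit 13))
    (@En.i (nat_lit 11914) (nat_lit 8) (nat_lit 13))
    (@En.n l11 (nat_lit 962) (nat_lit 8) (nat_lit 2))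
    (@En.n l117 (nat_lit 695) (nat_lit 9) (nat_lit 3))
    (@En.i (nat_lit 13650) (nat_lit 0) (nat_lit 14))
    (@En.n l2576 (nat_lit 693) (nat_lit 11) (nat_lit 3))
    (@En.i (nat_lit 690) (nat_lit 0) (nat_lit 13))
    (@En.i (nat_lit 968) (nat_lit 14) (nat_lit 5))
    (@En.n l3348 (nat_lit 3436) (nat_lit 6) (nat_lit 13))
    (@En.n l17 (nat_lit 962) (nat_lit 15) (nat_lit 2))))
  (@Cl.mk (nat_lit 0x2000c0003000b000e00040002000c0005000d000d000400030003000e000d) (nat_lit 0x200500000000099) (nat_lit 16) Lb.e (@T16.mk En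
    (@En.n l601 (nat_lit 695) (nat_lit 7) (nat_lit 13))
    (@En.i (nat_lit 12741) (nat_lit 1) (nat_lit 14))
    (@En.i (nat_lit 2719) (nat_lit 13) (nat_lit 3))
    (@En.n l152 (nat_lit 964) (nat_lit 3) (nat_lit 3))
    (@En.n l1992 (nat_lit 1149) (nat_lit 0) (nat_lit 4))
    (@En.n l619 (nat_lit 964) (nat_lit 6) (nat_lit 13))
    (@En.i (nat_lit 1147) (nat_lit 7) (nat_lit 13))
    (@En.n l1769 (nat_lit 969) (nat_lit 14) (nat_lit 5))
    (@En.i (nat_lit 7380) (nat_lit 9) (nat_lit 12))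
    (@En.n l17 (nat_lit 963) (nat_lit 9) (nat_lit 2))
    (@En.i (nat_lit 2722) (nat_lit 10) (nat_lit 4))
    (@En.n l476 (nat_lit 173) (nat_lit 12) (nat_lit 14))
    (@En.i (nat_lit 4696) (nat_lit 2) (nat_lit 11))
    (@En.i (nat_lit 695) (nat_lit 3) (nat_lit 3))
    (@En.i (nat_lit 356) (nat_lit 0) (nat_lit 12))
    (@En.n l7 (nat_lit 963) (nat_lit 15) (nat_lit 2))))
  (@Cl.mk (nat_lit 0x2000c0003000b000e00040002000d0005000d0003000e00030002000e000d) (nat_lit 0x200100b0b0c0099) (nat_lit 16) Lb.e (@T16.mk En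
    (@En.n l601 (nat_lit 962) (nat_lit 7) (nat_lit 13))
    (@En.n l2031 (nat_lit 12743) (nat_lit 1) (nat_lit 14))
    (@En.n l11 (nat_lit 964) (nat_lit 2) (nat_lit 2))
    (@En.n l117 (nat_lit 963) (nat_lit 3) (nat_lit 3))
    (@En.i (nat_lit 13652) (nat_lit 0) (nat_lit 14))
    (@En.n l2576 (nat_lit 965) (nat_lit 5) (nat_lit 3))
    (@En.i (nat_lit 1215) (nat_lit 7) (nat_lit 13))
    (@En.i (nat_lit 966) (nat_lit 14) (nat_lit 5))
    (@En.i (nat_lit 3439) (nat_lit 9) (nat_lit 13))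
    (@En.n l17 (nat_lit 964) (nat_lit 9) (nat_lit 2))
    (@En.n l2869 (nat_lit 967) (nat_lit 10) (nat_lit 4))
    (@En.n l2568 (nat_lit 8) (nat_lit 4) (nat_lit 14))
    (@En.i (nat_lit 4697) (nat_lit 2) (nat_lit 11))
    (@En.i (nat_lit 962) (nat_lit 3) (nat_lit 3))
    (@En.i (nat_lit 357) (nat_lit 12) (nat_lit 12))
    (@En.n l7 (nat_lit 964) (nat_lit 15) (nat_lit 2))))
  (@Cl.mk (nat_lit 0x2000c0003000a000e00040002000d000c00060003000e00040002000e000d) (nat_lit 0x200400a10010099) (nat_lit 16) Lb.e (@T16.mk En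
    (@En.n l601 (nat_lit 693) (nat_lit 7) (nat_lit 13))
    (@En.n l614 (nat_lit 12744) (nat_lit 1) (nat_lit 14))
    (@En.n l11 (nat_lit 965) (nat_lit 2) (nat_lit 2))
    (@En.n l117 (nat_lit 1156) (nat_lit 3) (nat_lit 4))
    (@En.n l2691 (nat_lit 449) (nat_lit 1) (nat_lit 14))
    (@En.n l936 (nat_lit 964) (nat_lit 5) (nat_lit 3))
    (@En.i (nat_lit 1898) (nat_lit 6) (nat_lit 6))
    (@En.n l936 (nat_lit 963) (nat_lit 8) (nat_lit 12))
    (@En.i (nat_lit 4616) (nat_lit 9) (nat_lit 13))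
    (@En.n l17 (nat_lit 965) (nat_lit 9) (nat_lit 2))
    (@En.n l4185 (nat_lit 2898) (nat_lit 10) (nat_lit 4))
    (@En.n l1016 (nat_lit 174) (nat_lit 12) (nat_lit 14))
    (@En.i (nat_lit 5830) (nat_lit 2) (nat_lit 10))
    (@En.i (nat_lit 693) (nat_lit 3) (nat_lit 3))
    (@En.n l2004 (nat_lit 358) (nat_lit 0) (nat_lit 12))
    (@En.n l7 (nat_lit 965) (nat_lit 15) (nat_lit 2))))
  (@Cl.mk (nat_lit 0x20005000d0006000e00030002000e000d0002000b0003000b000a000e0005) (nat_lit 0xb00780300120) (nat_lit 16) Lb.e (@T16.mk En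
    (@En.n l2869 (nat_lit 2904) (nat_lit 9) (nat_lit 5))
    (@En.n l476 (nat_lit 964) (nat_lit 11) (nat_lit 14))
    (@En.n l1769 (nat_lit 965) (nat_lit 12) (nat_lit 10))
    (@En.n l476 (nat_lit 4691) (nat_lit 3) (nat_lit 11))
    (@En.i (nat_lit 968) (nat_lit 4) (nat_lit 3))
    (@En.i (nat_lit 359) (nat_lit 12) (nat_lit 11))
    (@En.n l7 (nat_lit 966) (nat_lit 6) (nat_lit 2))
    (@En.n l601 (nat_lit 968) (nat_lit 8) (nat_lit 13))
    (@En.n l2031 (nat_lit 12742) (nat_lit 1) (nat_lit 14))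
    (@En.n l11 (nat_lit 966) (nat_lit 9) (nat_lit 2))
    (@En.n l1992 (nat_lit 969) (nat_lit 10) (nat_lit 3))
    (@En.n l619 (nat_lit 13649) (nat_lit 0) (nat_lit 14))
    (@En.n l2576 (nat_lit 2908) (nat_lit 13) (nat_lit 6))
    (@En.n l476 (nat_lit 2774) (nat_lit 7) (nat_lit 13))
    (@En.n l899 (nat_lit 3546) (nat_lit 13) (nat_lit 5))
    (@En.n l17 (nat_lit 966) (nat_lit 15) (nat_lit 2))))
  (@Cl.mk (nat_lit 0x2000c000c0004000c00040004000d0004000d0003000e00030002000e000c) (nat_lit 0x30000a00030000) (nat_lit 16) Lb.e (@T16.mk En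
    (@En.n l18512 (nat_lit 2996) (nat_lit 14) (nat_lit 12))
    (@En.i (nat_lit 12748) (nat_lit 1) (nat_lit 14))
    (@En.n l50 (nat_lit 967) (nat_lit 2) (nat_lit 2))
    (@En.n l3528 (nat_lit 2722) (nat_lit 3) (nat_lit 3))
    (@En.n l5276 (nat_lit 13653) (nat_lit 0) (nat_lit 14))
    (@En.i (nat_lit 2898) (nat_lit 5) (nat_lit 3))
    (@En.n l649 (nat_lit 1216) (nat_lit 7) (nat_lit 13))
    (@En.i (nat_lit 2904) (nat_lit 7) (nat_lit 4))
    (@En.n l5276 (nat_lit 4620) (nat_lit 9) (nat_lit 13))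
    (@En.n l152 (nat_lit 2897) (nat_lit 12) (nat_lit 4))
    (@En.n l1865 (nat_lit 1105) (nat_lit 10) (nat_lit 4))
    (@En.i (nat_lit 4695) (nat_lit 12) (nat_lit 12))
    (@En.n l7681 (nat_lit 3004) (nat_lit 9) (nat_lit 4))
    (@En.n l1867 (nat_lit 964) (nat_lit 14) (nat_lit 12))
    (@En.n l10089 (nat_lit 4336) (nat_lit 12) (nat_lit 12))
    (@En.n l17 (nat_lit 967) (nat_lit 15) (nat_lit 2))))
  (@Cl.mk (nat_lit 0x20005000d0006000e00030002000d000d000a00030003000b000a000e0006) (nat_lit 0x792000130) (nat_lit 16) Lb.e (@T16.mk En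
    (@En.n l4357 (nat_lit 3035) (nat_lit 6) (nat_lit 6))
    (@En.n l476 (nat_lit 962) (nat_lit 1) (nat_lit 14))
    (@En.n l1769 (nat_lit 693) (nat_lit 2) (nat_lit 10))
    (@En.n l998 (nat_lit 7446) (nat_lit 3) (nat_lit 11))
    (@En.n l50 (nat_lit 966) (nat_lit 4) (nat_lit 3))
    (@En.n l7679 (nat_lit 971) (nat_lit 5) (nat_lit 3))
    (@En.i (nat_lit 1106) (nat_lit 0) (nat_lit 10))
    (@En.n l19977 (nat_lit 971) (nat_lit 8) (nat_lit 13))
    (@En.i (nat_lit 11918) (nat_lit 9) (nat_lit 13))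
    (@En.n l11 (nat_lit 968) (nat_lit 9) (nat_lit 2))
    (@En.n l1992 (nat_lit 970) (nat_lit 10) (nat_lit 3))
    (@En.n l619 (nat_lit 13602) (nat_lit 0) (nat_lit 14))
    (@En.n l2576 (nat_lit 1896) (nat_lit 13) (nat_lit 6))
    (@En.n l476 (nat_lit 2776) (nat_lit 14) (nat_lit 13))
    (@En.n l8484 (nat_lit 3542) (nat_lit 13) (nat_lit 5))
    (@En.n l17 (nat_lit 968) (nat_lit 15) (nat_lit 2))))
  (@Cl.mk (nat_lit 0x20005000d000d000700030003000e000d0002000b0003000b0009000e0005) (nat_lit 0x1000780300060) (nat_lit 16) Lb.e (@T16.mk En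
    (@En.i (nat_lit 3048) (nat_lit 9) (nat_lit 5))
    (@En.n l1596 (nat_lit 963) (nat_lit 11) (nat_lit 14))
    (@En.i (nat_lit 1156) (nat_lit 12) (nat_lit 9))
    (@En.n l936 (nat_lit 4678) (nat_lit 3) (nat_lit 11))
    (@En.i (nat_lit 970) (nat_lit 4) (nat_lit 3))
    (@En.i (nat_lit 343) (nat_lit 0) (nat_lit 11))
    (@En.n l7 (nat_lit 969) (nat_lit 6) (nat_lit 2))
    (@En.n l601 (nat_lit 970) (nat_lit 8) (nat_lit 13))
    (@En.n l5579 (nat_lit 12740) (nat_lit 9) (nat_lit 14))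
    (@En.n l11 (nat_lit 1597) (nat_lit 9) (nat_lit 3))
    (@En.n l5870 (nat_lit 966) (nat_lit 10) (nat_lit 3))
    (@En.i (nat_lit 2922) (nat_lit 12) (nat_lit 7))
    (@En.n l2691 (nat_lit 966) (nat_lit 13) (nat_lit 13))
    (@En.n l1596 (nat_lit 2775) (nat_lit 7) (nat_lit 13))
    (@En.n l5871 (nat_lit 3549) (nat_lit 13) (nat_lit 5))
    (@En.n l17 (nat_lit 969) (nat_lit 15) (nat_lit 2))))
  (@Cl.mk (nat_lit 0x20005000d000d000700030003000d000d000a00030003000b0009000e0006) (nat_lit 0x1000792000170) (nat_lit 16) Lb.e (@T16.mk En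
    (@En.n l4190 (nat_lit 3034) (nat_lit 5) (nat_lit 6))
    (@En.n l1596 (nat_lit 695) (nat_lit 1) (nat_lit 14))
    (@En.i (nat_lit 692) (nat_lit 2) (nat_lit 9))
    (@En.n l15524 (nat_lit 7445) (nat_lit 3) (nat_lit 11))
    (@En.n l50 (nat_lit 969) (nat_lit 4) (nat_lit 3))
    (@En.n l15525 (nat_lit 972) (nat_lit 5) (nat_lit 3))
    (@En.i (nat_lit 1107) (nat_lit 0) (nat_lit 10))
    (@En.n l15526 (nat_lit 972) (nat_lit 8) (nat_lit 13))
    (@En.n l15527 (nat_lit 12069) (nat_lit 9) (nat_lit 13))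
    (@En.n l11 (nat_lit 974) (nat_lit 9) (nat_lit 3))
    (@En.n l5870 (nat_lit 968) (nat_lit 10) (nat_lit 3))
    (@En.i (nat_lit 2923) (nat_lit 12) (nat_lit 7))
    (@En.n l2691 (nat_lit 968) (nat_lit 13) (nat_lit 13))
    (@En.n l1596 (nat_lit 2777) (nat_lit 14) (nat_lit 13))
    (@En.n l5871 (nat_lit 3545) (nat_lit 13) (nat_lit 5))
    (@En.n l17 (nat_lit 970) (nat_lit 15) (nat_lit 2))))
  (@Cl.mk (nat_lit 0x20005000d0006000e00030002000d0009000e00030002000b000a000e0007) (nat_lit 0x810000170) (nat_lit 16) Lb.e (@T16.mk En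
    (@En.n l9871 (nat_lit 3036) (nat_lit 6) (nat_lit 7))
    (@En.n l3902 (nat_lit 694) (nat_lit 13) (nat_lit 14))
    (@En.n l3901 (nat_lit 685) (nat_lit 14) (nat_lit 10))
    (@En.n l8226 (nat_lit 7447) (nat_lit 3) (nat_lit 11))
    (@En.n l11 (nat_lit 971) (nat_lit 4) (nat_lit 2))
    (@En.n l18614 (nat_lit 968) (nat_lit 5) (nat_lit 3))
    (@En.n l2038 (nat_lit 13380) (nat_lit 0) (nat_lit 14))
    (@En.n l8232 (nat_lit 352) (nat_lit 14) (nat_lit 9))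
    (@En.i (nat_lit 12070) (nat_lit 9) (nat_lit 13))
    (@En.n l17 (nat_lit 971) (nat_lit 9) (nat_lit 2))
    (@En.i (nat_lit 972) (nat_lit 10) (nat_lit 3))
    (@En.n l476 (nat_lit 13648) (nat_lit 0) (nat_lit 14))
    (@En.n l9646 (nat_lit 1895) (nat_lit 13) (nat_lit 6))
    (@En.n l3902 (nat_lit 2783) (nat_lit 9) (nat_lit 13))
    (@En.n l8232 (nat_lit 3540) (nat_lit 13) (nat_lit 5))
    (@En.n l476 (nat_lit 971) (nat_lit 15) (nat_lit 2))))
  (@Cl.mk (nat_lit 0x20005000d000d000700030003000d0009000e00030002000b0009000e0007) (nat_lit 0x1000810000130) (nat_lit 16) Lb.e (@T16.mk En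
    (@En.n l8223 (nat_lit 3037) (nat_lit 12) (nat_lit 7))
    (@En.n l8224 (nat_lit 973) (nat_lit 13) (nat_lit 14))
    (@En.n l8225 (nat_lit 688) (nat_lit 14) (nat_lit 9))
    (@En.n l8226 (nat_lit 3535) (nat_lit 3) (nat_lit 11))
    (@En.n l11 (nat_lit 972) (nat_lit 4) (nat_lit 2))
    (@En.n l8227 (nat_lit 970) (nat_lit 5) (nat_lit 3))
    (@En.n l8228 (nat_lit 13043) (nat_lit 0) (nat_lit 14))
    (@En.n l8225 (nat_lit 353) (nat_lit 2) (nat_lit 9))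
    (@En.n l8229 (nat_lit 12068) (nat_lit 9) (nat_lit 13))
    (@En.n l8230 (nat_lit 1596) (nat_lit 9) (nat_lit 3))
    (@En.n l18 (nat_lit 971) (nat_lit 10) (nat_lit 3))
    (@En.n l8231 (nat_lit 2924) (nat_lit 12) (nat_lit 7))
    (@En.n l61 (nat_lit 971) (nat_lit 13) (nat_lit 13))
    (@En.n l8224 (nat_lit 2782) (nat_lit 9) (nat_lit 13))
    (@En.n l8232 (nat_lit 2568) (nat_lit 13) (nat_lit 5))
    (@En.n l476 (nat_lit 972) (nat_lit 15) (nat_lit 2))))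
  (@Cl.mk (nat_lit 0x2000b000e00060002000c0005000d000d000400030003000d000a000e0003) (nat_lit 0x200a01200091a0) (nat_lit 16) Lb.e (@T16.mk En
    (@En.n l7 (nat_lit 695) (nat_lit 4) (nat_lit 3))
    (@En.n l2826 (nat_lit 13059) (nat_lit 0) (nat_lit 14))
    (@En.i (nat_lit 350) (nat_lit 2) (nat_lit 10))
    (@En.n l2827 (nat_lit 11923) (nat_lit 8) (nat_lit 13))
    (@En.n l2828 (nat_lit 2726) (nat_lit 13) (nat_lit 3))
    (@En.n l152 (nat_lit 694) (nat_lit 5) (nat_lit 3))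
    (@En.n l2827 (nat_lit 2754) (nat_lit 0) (nat_lit 4))
    (@En.n l619 (nat_lit 694) (nat_lit 8) (nat_lit 13))
    (@En.i (nat_lit 689) (nat_lit 9) (nat_lit 13))
    (@En.n l2829 (nat_lit 972) (nat_lit 14) (nat_lit 5))
    (@En.n l2830 (nat_lit 7381) (nat_lit 11) (nat_lit 12))
    (@En.n l17 (nat_lit 973) (nat_lit 11) (nat_lit 2))
    (@En.n l2831 (nat_lit 2727) (nat_lit 13) (nat_lit 6))
    (@En.n l476 (nat_lit 176) (nat_lit 4) (nat_lit 14))
    (@En.n l2698 (nat_lit 3529) (nat_lit 2) (nat_lit 11))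
    (@En.n l50 (nat_lit 973) (nat_lit 15) (nat_lit 2))))
  (@Cl.mk (nat_lit 0x20005000e000d000200080003000d000d000a00030003000b0008000e0006) (nat_lit 0x1000792000060) (nat_lit 16) Lb.e (@T16.mk En
    (@En.n l299 (nat_lit 1598) (nat_lit 4) (nat_lit 6))
    (@En.n l1445 (nat_lit 975) (nat_lit 6) (nat_lit 14))
    (@En.i (nat_lit 2714) (nat_lit 6) (nat_lit 8))
    (@En.n l2092 (nat_lit 7698) (nat_lit 3) (nat_lit 11))
    (@En.n l50 (nat_lit 1597) (nat_lit 4) (nat_lit 3))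
    (@En.n l299 (nat_lit 1596) (nat_lit 5) (nat_lit 3))
    (@En.n l2092 (nat_lit 1593) (nat_lit 11) (nat_lit 10))
    (@En.n l3449 (nat_lit 1596) (nat_lit 8) (nat_lit 13))
    (@En.n l2092 (nat_lit 11696) (nat_lit 9) (nat_lit 13))
    (@En.i (nat_lit 970) (nat_lit 9) (nat_lit 3))
    (@En.n l197 (nat_lit 2159) (nat_lit 11) (nat_lit 8))
    (@En.n l67 (nat_lit 974) (nat_lit 11) (nat_lit 2))
    (@En.n l68 (nat_lit 970) (nat_lit 13) (nat_lit 13))
    (@En.n l1596 (nat_lit 2712) (nat_lit 1) (nat_lit 14))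
    (@En.n l8697 (nat_lit 2571) (nat_lit 2) (nat_lit 5))
    (@En.n l17 (nat_lit 974) (nat_lit 15) (nat_lit 2))))
  (@Cl.mk (nat_lit 0x200050003000d000d000b00030003000b000e00050002000b0005000e000d) (nat_lit 0x8a00005000002) (nat_lit 16) Lb.e (@T16.mk En
    (@En.n l1144 (nat_lit 695) (nat_lit 12) (nat_lit 13))
    (@En.n l11 (nat_lit 2714) (nat_lit 1) (nat_lit 14))
    (@En.n l1483 (nat_lit 974) (nat_lit 14) (nat_lit 5))
    (@En.n l2828 (nat_lit 7383) (nat_lit 3) (nat_lit 11))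
    (@En.n l17 (nat_lit 975) (nat_lit 4) (nat_lit 2))
    (@En.n l2828 (nat_lit 2720) (nat_lit 5) (nat_lit 5))
    (@En.n l476 (nat_lit 207) (nat_lit 7) (nat_lit 14))
    (@En.n l1991 (nat_lit 7209) (nat_lit 8) (nat_lit 11))
    (@En.n l50 (nat_lit 2719) (nat_lit 8) (nat_lit 3))
    (@En.n l2828 (nat_lit 2726) (nat_lit 9) (nat_lit 3))
    (@En.n l1991 (nat_lit 1009) (nat_lit 11) (nat_lit 11))
    (@En.n l4079 (nat_lit 2726) (nat_lit 12) (nat_lit 13))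
    (@En.n l4080 (nat_lit 11693) (nat_lit 13) (nat_lit 13))
    (@En.n l11 (nat_lit 695) (nat_lit 8) (nat_lit 3))
    (@En.n l2263 (nat_lit 2697) (nat_lit 9) (nat_lit 5))
    (@En.n l1157 (nat_lit 975) (nat_lit 15) (nat_lit 2))))
noncomputable def a61 : T16 Cl := @T16.mk Cl
  (@Cl.mk (nat_lit 0x200050008000d000b000a0003000a0009000500080006000b0006000e0007) (nat_lit 0x60410010103010) (nat_lit 16) Lb.e (@T16.mk En
    (@En.n l21400 (nat_lit 978) (nat_lit 6) (nat_lit 7))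
    (@En.n l21401 (nat_lit 919) (nat_lit 1) (nat_lit 14))
    (@En.n l253 (nat_lit 3191) (nat_lit 2) (nat_lit 6))
    (@En.n l3 (nat_lit 916) (nat_lit 3) (nat_lit 11))
    (@En.n l3 (nat_lit 990) (nat_lit 4) (nat_lit 6))
    (@En.n l21402 (nat_lit 335) (nat_lit 5) (nat_lit 8))
    (@En.n l21403 (nat_lit 9500) (nat_lit 6) (nat_lit 5))
    (@En.n l21404 (nat_lit 480) (nat_lit 7) (nat_lit 9))
    (@En.n l5042 (nat_lit 9610) (nat_lit 9) (nat_lit 10))
    (@En.n l11 (nat_lit 914) (nat_lit 9) (nat_lit 3))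
    (@En.n l21405 (nat_lit 417) (nat_lit 11) (nat_lit 10))
    (@En.n l55 (nat_lit 985) (nat_lit 12) (nat_lit 11))
    (@En.n l21406 (nat_lit 989) (nat_lit 13) (nat_lit 13))
    (@En.n l21407 (nat_lit 6493) (nat_lit 10) (nat_lit 8))
    (@En.n l21408 (nat_lit 979) (nat_lit 13) (nat_lit 5))
    (@En.n l18 (nat_lit 976) (nat_lit 15) (nat_lit 2))))
  (@Cl.mk (nat_lit 0x30007000a000a000600090007000c00060006000900040007000d000a0009) (nat_lit 0x12010400700041) (nat_lit 16) Lb.e (@T16.mk En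
    (@En.n l6444 (nat_lit 419) (nat_lit 0) (nat_lit 9))
    (@En.n l26026 (nat_lit 1300) (nat_lit 13) (nat_lit 10))
    (@En.n l16344 (nat_lit 1299) (nat_lit 2) (nat_lit 13))
    (@En.n l26278 (nat_lit 5029) (nat_lit 11) (nat_lit 7))
    (@En.n l20878 (nat_lit 978) (nat_lit 4) (nat_lit 4))
    (@En.n l1899 (nat_lit 1101) (nat_lit 9) (nat_lit 9))
    (@En.n l1900 (nat_lit 1101) (nat_lit 10) (nat_lit 6))
    (@En.n l26279 (nat_lit 2836) (nat_lit 7) (nat_lit 6))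
    (@En.n l16346 (nat_lit 373) (nat_lit 9) (nat_lit 12))
    (@En.n l2364 (nat_lit 625) (nat_lit 9) (nat_lit 7))
    (@En.n l20880 (nat_lit 342) (nat_lit 9) (nat_lit 9))
    (@En.i (nat_lit 9695) (nat_lit 6) (nat_lit 6))
    (@En.n l13491 (nat_lit 919) (nat_lit 6) (nat_lit 10))
    (@En.n l26280 (nat_lit 976) (nat_lit 8) (nat_lit 10))
    (@En.n l13489 (nat_lit 2094) (nat_lit 12) (nat_lit 7))
    (@En.n l26281 (nat_lit 371) (nat_lit 15) (nat_lit 3))))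
  (@Cl.mk (nat_lit 0x3000900090009000600090007000c00070007000700040007000d000a0009) (nat_lit 0x2010300000020) (nat_lit 16) Lb.e (@T16.mk En
    (@En.n l26263 (nat_lit 1416) (nat_lit 0) (nat_lit 9))
    (@En.n l26264 (nat_lit 980) (nat_lit 13) (nat_lit 10))
    (@En.n l14699 (nat_lit 983) (nat_lit 2) (nat_lit 13))
    (@En.n l26265 (nat_lit 6495) (nat_lit 11) (nat_lit 7))
    (@En.n l6604 (nat_lit 1044) (nat_lit 4) (nat_lit 4))
    (@En.n l26266 (nat_lit 1094) (nat_lit 9) (nat_lit 7))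
    (@En.n l6602 (nat_lit 1542) (nat_lit 9) (nat_lit 7))
    (@En.n l4839 (nat_lit 3131) (nat_lit 7) (nat_lit 7))
    (@En.n l14771 (nat_lit 982) (nat_lit 9) (nat_lit 12))
    (@En.n l14771 (nat_lit 1256) (nat_lit 9) (nat_lit 7))
    (@En.i (nat_lit 345) (nat_lit 9) (nat_lit 9))
    (@En.n l1544 (nat_lit 8389) (nat_lit 6) (nat_lit 6))
    (@En.n l26267 (nat_lit 976) (nat_lit 7) (nat_lit 9))
    (@En.n l26268 (nat_lit 979) (nat_lit 7) (nat_lit 9))
    (@En.n l6604 (nat_lit 9916) (nat_lit 10) (nat_lit 9))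
    (@En.n l26269 (nat_lit 981) (nat_lit 15) (nat_lit 3))))
  (@Cl.mk (nat_lit 0x2000800050008000d000b000a000300090008000500080006000b000e0007) (nat_lit 0x70071000500) (nat_lit 16) Lb.e (@T16.mk En
    (@En.n l12533 (nat_lit 978) (nat_lit 7) (nat_lit 7))
    (@En.n l619 (nat_lit 3138) (nat_lit 4) (nat_lit 14))
    (@En.n l2362 (nat_lit 1032) (nat_lit 2) (nat_lit 11))
    (@En.n l11386 (nat_lit 1257) (nat_lit 3) (nat_lit 6))
    (@En.n l1723 (nat_lit 1054) (nat_lit 4) (nat_lit 8))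
    (@En.n l33835 (nat_lit 8381) (nat_lit 5) (nat_lit 5))
    (@En.i (nat_lit 482) (nat_lit 6) (nat_lit 8))
    (@En.n l24935 (nat_lit 11862) (nat_lit 8) (nat_lit 9))
    (@En.n l7638 (nat_lit 1046) (nat_lit 8) (nat_lit 3))
    (@En.n l6444 (nat_lit 1424) (nat_lit 0) (nat_lit 10))
    (@En.n l5838 (nat_lit 986) (nat_lit 11) (nat_lit 11))
    (@En.n l601 (nat_lit 988) (nat_lit 12) (nat_lit 13))
    (@En.n l1643 (nat_lit 6498) (nat_lit 13) (nat_lit 8))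
    (@En.n l5311 (nat_lit 1037) (nat_lit 14) (nat_lit 5))
    (@En.n l2943 (nat_lit 1044) (nat_lit 5) (nat_lit 8))
    (@En.n l107 (nat_lit 979) (nat_lit 15) (nat_lit 2))))
  (@Cl.mk (nat_lit 0x40007000a0008000b0008000800080006000500090008000c000800080008) (nat_lit 0x10700200224500) (nat_lit 16) Lb.e (@T16.mk En
    (@En.n l4977 (nat_lit 1095) (nat_lit 8) (nat_lit 8))
    (@En.n l27998 (nat_lit 1543) (nat_lit 8) (nat_lit 8))
    (@En.n l27999 (nat_lit 1997) (nat_lit 3) (nat_lit 8))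
    (@En.n l28000 (nat_lit 984) (nat_lit 7) (nat_lit 12))
    (@En.n l28001 (nat_lit 983) (nat_lit 8) (nat_lit 8))
    (@En.n l28002 (nat_lit 978) (nat_lit 10) (nat_lit 9))
    (@En.n l28003 (nat_lit 981) (nat_lit 11) (nat_lit 5))
    (@En.n l26643 (nat_lit 8405) (nat_lit 7) (nat_lit 6))
    (@En.n l28004 (nat_lit 985) (nat_lit 8) (nat_lit 8))
    (@En.n l5703 (nat_lit 986) (nat_lit 8) (nat_lit 8))
    (@En.n l1393 (nat_lit 9911) (nat_lit 11) (nat_lit 8))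
    (@En.i (nat_lit 4978) (nat_lit 7) (nat_lit 11))
    (@En.n l601 (nat_lit 1297) (nat_lit 13) (nat_lit 8))
    (@En.n l1001 (nat_lit 954) (nat_lit 8) (nat_lit 10))
    (@En.i (nat_lit 6496) (nat_lit 11) (nat_lit 7))
    (@En.n l12991 (nat_lit 1177) (nat_lit 15) (nat_lit 4))))
  (@Cl.mk (nat_lit 0x3000900090009000500090008000c00070007000700040007000d0008000b) (nat_lit 0x2010300000008) (nat_lit 16) Lb.e (@T16.mk En
    (@En.n l20604 (nat_lit 4991) (nat_lit 0) (nat_lit 11))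
    (@En.n l18776 (nat_lit 1420) (nat_lit 13) (nat_lit 8))
    (@En.n l5035 (nat_lit 984) (nat_lit 2) (nat_lit 13))
    (@En.n l3106 (nat_lit 6497) (nat_lit 11) (nat_lit 7))
    (@En.n l817 (nat_lit 1041) (nat_lit 4) (nat_lit 4))
    (@En.n l601 (nat_lit 1091) (nat_lit 9) (nat_lit 7))
    (@En.n l77 (nat_lit 1547) (nat_lit 9) (nat_lit 7))
    (@En.n l20605 (nat_lit 3126) (nat_lit 7) (nat_lit 7))
    (@En.n l3 (nat_lit 1049) (nat_lit 9) (nat_lit 12))
    (@En.n l3 (nat_lit 1050) (nat_lit 8) (nat_lit 8))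
    (@En.n l20606 (nat_lit 337) (nat_lit 10) (nat_lit 9))
    (@En.n l20607 (nat_lit 8804) (nat_lit 6) (nat_lit 5))
    (@En.n l397 (nat_lit 914) (nat_lit 7) (nat_lit 9))
    (@En.n l5670 (nat_lit 1046) (nat_lit 7) (nat_lit 9))
    (@En.n l20608 (nat_lit 6280) (nat_lit 2) (nat_lit 9))
    (@En.n l15001 (nat_lit 978) (nat_lit 15) (nat_lit 3))))
  (@Cl.mk (nat_lit 0x3000a000a000a00060009000c0006000600060004000c0007000d000a0004) (nat_lit 0x2002000070000) (nat_lit 16) Lb.e (@T16.mk En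
    (@En.n l6521 (nat_lit 618) (nat_lit 0) (nat_lit 4))
    (@En.i (nat_lit 984) (nat_lit 0) (nat_lit 10))
    (@En.n l3478 (nat_lit 1130) (nat_lit 1) (nat_lit 13))
    (@En.n l15001 (nat_lit 978) (nat_lit 3) (nat_lit 7))
    (@En.n l6117 (nat_lit 7522) (nat_lit 3) (nat_lit 12))
    (@En.n l817 (nat_lit 1034) (nat_lit 5) (nat_lit 4))
    (@En.n l601 (nat_lit 1092) (nat_lit 10) (nat_lit 6))
    (@En.n l77 (nat_lit 1546) (nat_lit 10) (nat_lit 6))
    (@En.n l6117 (nat_lit 3122) (nat_lit 8) (nat_lit 6))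
    (@En.i (nat_lit 304) (nat_lit 6) (nat_lit 12))
    (@En.n l6117 (nat_lit 1007) (nat_lit 9) (nat_lit 9))
    (@En.n l15002 (nat_lit 8789) (nat_lit 5) (nat_lit 6))
    (@En.n l397 (nat_lit 916) (nat_lit 6) (nat_lit 10))
    (@En.n l5670 (nat_lit 1032) (nat_lit 6) (nat_lit 10))
    (@En.n l14165 (nat_lit 9917) (nat_lit 14) (nat_lit 10))
    (@En.n l11 (nat_lit 1049) (nat_lit 15) (nat_lit 3))))
  (@Cl.mk (nat_lit 0x3000b000900090009000700050008000c0007000700070004000d00090008) (nat_lit 0x800200130000b10) (nat_lit 16) Lb.e (@T16.mk En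
    (@En.n l50 (nat_lit 1295) (nat_lit 0) (nat_lit 8))
    (@En.n l39213 (nat_lit 950) (nat_lit 14) (nat_lit 9))
    (@En.n l5 (nat_lit 7493) (nat_lit 2) (nat_lit 13))
    (@En.n l39214 (nat_lit 1176) (nat_lit 3) (nat_lit 4))
    (@En.n l27553 (nat_lit 1096) (nat_lit 9) (nat_lit 7))
    (@En.n l27554 (nat_lit 1544) (nat_lit 9) (nat_lit 7))
    (@En.n l612 (nat_lit 1993) (nat_lit 6) (nat_lit 7))
    (@En.n l15704 (nat_lit 1130) (nat_lit 7) (nat_lit 12))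
    (@En.i (nat_lit 618) (nat_lit 10) (nat_lit 8))
    (@En.n l15704 (nat_lit 1050) (nat_lit 9) (nat_lit 5))
    (@En.i (nat_lit 8375) (nat_lit 0) (nat_lit 7))
    (@En.n l39215 (nat_lit 989) (nat_lit 7) (nat_lit 9))
    (@En.n l39216 (nat_lit 988) (nat_lit 7) (nat_lit 9))
    (@En.n l39217 (nat_lit 9918) (nat_lit 14) (nat_lit 9))
    (@En.n l23132 (nat_lit 980) (nat_lit 11) (nat_lit 11))
    (@En.n l39218 (nat_lit 984) (nat_lit 15) (nat_lit 3))))
  (@Cl.mk (nat_lit 0x3000b000900090009000600050009000c0007000700070004000d0007000a) (nat_lit 0x800200130000b08) (nat_lit 16) Lb.e (@T16.mk En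
    (@En.n l27122 (nat_lit 1609) (nat_lit 0) (nat_lit 10))
    (@En.n l20604 (nat_lit 980) (nat_lit 14) (nat_lit 7))
    (@En.n l27123 (nat_lit 7521) (nat_lit 2) (nat_lit 13))
    (@En.n l7963 (nat_lit 1043) (nat_lit 3) (nat_lit 4))
    (@En.n l601 (nat_lit 1093) (nat_lit 9) (nat_lit 7))
    (@En.n l77 (nat_lit 1545) (nat_lit 9) (nat_lit 7))
    (@En.n l20605 (nat_lit 1994) (nat_lit 6) (nat_lit 7))
    (@En.i (nat_lit 1129) (nat_lit 6) (nat_lit 12))
    (@En.n l207 (nat_lit 982) (nat_lit 10) (nat_lit 9))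
    (@En.i (nat_lit 1049) (nat_lit 11) (nat_lit 5))
    (@En.n l15002 (nat_lit 8788) (nat_lit 0) (nat_lit 6))
    (@En.n l15696 (nat_lit 918) (nat_lit 7) (nat_lit 9))
    (@En.n l26945 (nat_lit 987) (nat_lit 7) (nat_lit 9))
    (@En.n l15697 (nat_lit 9914) (nat_lit 14) (nat_lit 9))
    (@En.n l27124 (nat_lit 4917) (nat_lit 11) (nat_lit 11))
    (@En.n l15699 (nat_lit 983) (nat_lit 15) (nat_lit 3))))
  (@Cl.mk (nat_lit 0x200050008000b0009000c000900080005000400080007000b0007000e0008) (nat_lit 0x63050100204001) (nat_lit 16) Lb.e (@T16.mk En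
    (@En.n l14835 (nat_lit 980) (nat_lit 1) (nat_lit 8))
    (@En.n l14836 (nat_lit 1302) (nat_lit 1) (nat_lit 14))
    (@En.n l5249 (nat_lit 3190) (nat_lit 2) (nat_lit 7))
    (@En.n l3 (nat_lit 918) (nat_lit 3) (nat_lit 11))
    (@En.n l3 (nat_lit 989) (nat_lit 4) (nat_lit 7))
    (@En.n l343 (nat_lit 976) (nat_lit 5) (nat_lit 8))
    (@En.n l28 (nat_lit 914) (nat_lit 6) (nat_lit 4))
    (@En.n l14837 (nat_lit 9493) (nat_lit 7) (nat_lit 5))
    (@En.n l14838 (nat_lit 477) (nat_lit 8) (nat_lit 8))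
    (@En.n l77 (nat_lit 9609) (nat_lit 10) (nat_lit 9))
    (@En.n l14838 (nat_lit 4996) (nat_lit 11) (nat_lit 12))
    (@En.n l14839 (nat_lit 1294) (nat_lit 12) (nat_lit 9))
    (@En.n l14840 (nat_lit 1666) (nat_lit 13) (nat_lit 11))
    (@En.n l14838 (nat_lit 6492) (nat_lit 14) (nat_lit 8))
    (@En.n l14841 (nat_lit 986) (nat_lit 13) (nat_lit 5))
    (@En.n l18 (nat_lit 985) (nat_lit 15) (nat_lit 2))))
  (@Cl.mk (nat_lit 0x2000900050008000b0009000c000800070005000400080007000b000e0008) (nat_lit 0x608600010606) (nat_lit 16) Lb.e (@T16.mk En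
    (@En.n l3303 (nat_lit 980) (nat_lit 2) (nat_lit 8))
    (@En.n l619 (nat_lit 3142) (nat_lit 4) (nat_lit 14))
    (@En.n l13056 (nat_lit 987) (nat_lit 2) (nat_lit 11))
    (@En.n l13384 (nat_lit 988) (nat_lit 3) (nat_lit 7))
    (@En.n l6204 (nat_lit 979) (nat_lit 4) (nat_lit 8))
    (@En.n l13385 (nat_lit 1046) (nat_lit 5) (nat_lit 4))
    (@En.n l12968 (nat_lit 8378) (nat_lit 6) (nat_lit 5))
    (@En.i (nat_lit 479) (nat_lit 7) (nat_lit 7))
    (@En.n l29219 (nat_lit 10503) (nat_lit 9) (nat_lit 8))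
    (@En.i (nat_lit 4915) (nat_lit 10) (nat_lit 12))
    (@En.n l6126 (nat_lit 1406) (nat_lit 11) (nat_lit 9))
    (@En.i (nat_lit 959) (nat_lit 7) (nat_lit 11))
    (@En.n l1643 (nat_lit 6499) (nat_lit 13) (nat_lit 8))
    (@En.n l12633 (nat_lit 1045) (nat_lit 14) (nat_lit 5))
    (@En.n l12970 (nat_lit 1177) (nat_lit 0) (nat_lit 9))
    (@En.n l107 (nat_lit 986) (nat_lit 15) (nat_lit 2))))
  (@Cl.mk (nat_lit 0x200080005000d0008000b0003000c00090008000500040008000b000e0007) (nat_lit 0x170971000500) (nat_lit 16) Lb.e (@T16.mk En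
    (@En.n l23726 (nat_lit 984) (nat_lit 6) (nat_lit 7))
    (@En.n l23727 (nat_lit 3144) (nat_lit 4) (nat_lit 14))
    (@En.i (nat_lit 1136) (nat_lit 2) (nat_lit 11))
    (@En.n l343 (nat_lit 1032) (nat_lit 3) (nat_lit 8))
    (@En.n l28 (nat_lit 1047) (nat_lit 4) (nat_lit 4))
    (@En.n l23728 (nat_lit 8379) (nat_lit 5) (nat_lit 5))
    (@En.i (nat_lit 466) (nat_lit 6) (nat_lit 8))
    (@En.n l1063 (nat_lit 10501) (nat_lit 8) (nat_lit 9))
    (@En.n l5234 (nat_lit 4913) (nat_lit 9) (nat_lit 12))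
    (@En.n l5235 (nat_lit 988) (nat_lit 9) (nat_lit 3))
    (@En.n l170 (nat_lit 1192) (nat_lit 11) (nat_lit 11))
    (@En.n l5236 (nat_lit 986) (nat_lit 12) (nat_lit 8))
    (@En.n l1668 (nat_lit 7528) (nat_lit 13) (nat_lit 13))
    (@En.n l699 (nat_lit 1036) (nat_lit 14) (nat_lit 5))
    (@En.n l17 (nat_lit 1043) (nat_lit 4) (nat_lit 8))
    (@En.n l18 (nat_lit 987) (nat_lit 15) (nat_lit 2))))
  (@Cl.mk (nat_lit 0x200080005000d000a00090003000c00090008000600040007000b000e0007) (nat_lit 0xb700971000500) (nat_lit 16) Lb.e (@T16.mk En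
    (@En.n l25567 (nat_lit 983) (nat_lit 6) (nat_lit 7))
    (@En.n l38965 (nat_lit 3143) (nat_lit 4) (nat_lit 14))
    (@En.n l5854 (nat_lit 1132) (nat_lit 2) (nat_lit 11))
    (@En.n l22060 (nat_lit 614) (nat_lit 3) (nat_lit 7))
    (@En.n l3348 (nat_lit 1048) (nat_lit 4) (nat_lit 4))
    (@En.n l38966 (nat_lit 8373) (nat_lit 5) (nat_lit 6))
    (@En.i (nat_lit 476) (nat_lit 6) (nat_lit 8))
    (@En.n l38967 (nat_lit 10502) (nat_lit 8) (nat_lit 9))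
    (@En.n l397 (nat_lit 986) (nat_lit 9) (nat_lit 12))
    (@En.n l13302 (nat_lit 987) (nat_lit 9) (nat_lit 3))
    (@En.n l61 (nat_lit 1399) (nat_lit 11) (nat_lit 9))
    (@En.n l6064 (nat_lit 952) (nat_lit 12) (nat_lit 10))
    (@En.n l38968 (nat_lit 7492) (nat_lit 13) (nat_lit 13))
    (@En.n l27013 (nat_lit 1175) (nat_lit 14) (nat_lit 5))
    (@En.n l31254 (nat_lit 1176) (nat_lit 4) (nat_lit 8))
    (@En.n l107 (nat_lit 988) (nat_lit 15) (nat_lit 2))))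
  (@Cl.mk (nat_lit 0x20005000d000a00090003000c000a0009000600040007000b0006000e0007) (nat_lit 0xb7006010003000) (nat_lit 16) Lb.e (@T16.mk En
    (@En.n l5194 (nat_lit 983) (nat_lit 5) (nat_lit 7))
    (@En.n l396 (nat_lit 1298) (nat_lit 1) (nat_lit 14))
    (@En.n l27028 (nat_lit 3189) (nat_lit 2) (nat_lit 6))
    (@En.i (nat_lit 1135) (nat_lit 3) (nat_lit 11))
    (@En.n l11216 (nat_lit 615) (nat_lit 4) (nat_lit 7))
    (@En.n l28 (nat_lit 910) (nat_lit 5) (nat_lit 4))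
    (@En.n l14983 (nat_lit 9499) (nat_lit 6) (nat_lit 6))
    (@En.n l644 (nat_lit 474) (nat_lit 7) (nat_lit 9))
    (@En.n l77 (nat_lit 9613) (nat_lit 9) (nat_lit 10))
    (@En.n l1690 (nat_lit 985) (nat_lit 10) (nat_lit 12))
    (@En.n l152 (nat_lit 918) (nat_lit 10) (nat_lit 3))
    (@En.n l7735 (nat_lit 1291) (nat_lit 12) (nat_lit 9))
    (@En.n l97 (nat_lit 949) (nat_lit 13) (nat_lit 10))
    (@En.n l15423 (nat_lit 6389) (nat_lit 14) (nat_lit 13))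
    (@En.n l27029 (nat_lit 988) (nat_lit 13) (nat_lit 5))
    (@En.n l18 (nat_lit 989) (nat_lit 15) (nat_lit 2))))
  (@Cl.mk (nat_lit 0x20005000c000c000a000a00040004000b000a00060006000b0005000e0006) (nat_lit 0x1800091002000) (nat_lit 16) Lb.e (@T16.mk En
    (@En.n l5784 (nat_lit 1256) (nat_lit 6) (nat_lit 6))
    (@En.n l396 (nat_lit 991) (nat_lit 1) (nat_lit 14))
    (@En.n l1688 (nat_lit 3192) (nat_lit 2) (nat_lit 5))
    (@En.i (nat_lit 325) (nat_lit 3) (nat_lit 11))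
    (@En.n l282 (nat_lit 609) (nat_lit 10) (nat_lit 6))
    (@En.n l14983 (nat_lit 9516) (nat_lit 5) (nat_lit 6))
    (@En.n l644 (nat_lit 454) (nat_lit 6) (nat_lit 10))
    (@En.n l2747 (nat_lit 11515) (nat_lit 8) (nat_lit 11))
    (@En.n l5584 (nat_lit 993) (nat_lit 8) (nat_lit 4))
    (@En.n l152 (nat_lit 916) (nat_lit 9) (nat_lit 4))
    (@En.n l8399 (nat_lit 1240) (nat_lit 11) (nat_lit 10))
    (@En.n l55 (nat_lit 989) (nat_lit 12) (nat_lit 10))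
    (@En.n l1952 (nat_lit 615) (nat_lit 13) (nat_lit 12))
    (@En.n l637 (nat_lit 6381) (nat_lit 14) (nat_lit 12))
    (@En.n l14984 (nat_lit 1257) (nat_lit 13) (nat_lit 5))
    (@En.n l18 (nat_lit 990) (nat_lit 15) (nat_lit 2))))
  (@Cl.mk (nat_lit 0x200080005000c000c000a000a000400040008000b00060006000b000e0005) (nat_lit 0x1001530001002c0) (nat_lit 16) Lb.e (@T16.mk En
    (@En.n l28461 (nat_lit 625) (nat_lit 7) (nat_lit 5))
    (@En.n l28290 (nat_lit 3390) (nat_lit 4) (nat_lit 14))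
    (@En.i (nat_lit 321) (nat_lit 2) (nat_lit 11))
    (@En.n l2040 (nat_lit 997) (nat_lit 10) (nat_lit 6))
    (@En.n l28743 (nat_lit 9517) (nat_lit 4) (nat_lit 6))
    (@En.i (nat_lit 457) (nat_lit 7) (nat_lit 11))
    (@En.n l2747 (nat_lit 7791) (nat_lit 6) (nat_lit 8))
    (@En.n l5584 (nat_lit 992) (nat_lit 7) (nat_lit 4))
    (@En.n l152 (nat_lit 915) (nat_lit 8) (nat_lit 4))
    (@En.n l1101 (nat_lit 1236) (nat_lit 10) (nat_lit 10))
    (@En.n l55 (nat_lit 1298) (nat_lit 11) (nat_lit 10))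
    (@En.n l619 (nat_lit 616) (nat_lit 12) (nat_lit 12))
    (@En.n l4662 (nat_lit 7822) (nat_lit 13) (nat_lit 12))
    (@En.n l699 (nat_lit 990) (nat_lit 14) (nat_lit 5))
    (@En.n l6299 (nat_lit 625) (nat_lit 5) (nat_lit 8))
    (@En.n l50 (nat_lit 991) (nat_lit 15) (nat_lit 2))))
noncomputable def a62 : T16 Cl := @T16.mk Cl
  (@Cl.mk (nat_lit 0x200080005000e000c0002000b000b00040008000b00050005000b000e0005) (nat_lit 0xc106200100300) (nat_lit 16) Lb.e (@T16.mk En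
    (@En.n l14821 (nat_lit 994) (nat_lit 5) (nat_lit 5))
    (@En.i (nat_lit 3440) (nat_lit 7) (nat_lit 14))
    (@En.n l5276 (nat_lit 1000) (nat_lit 2) (nat_lit 11))
    (@En.n l152 (nat_lit 995) (nat_lit 11) (nat_lit 5))
    (@En.n l14823 (nat_lit 9518) (nat_lit 4) (nat_lit 5))
    (@En.i (nat_lit 456) (nat_lit 7) (nat_lit 11))
    (@En.i (nat_lit 5931) (nat_lit 6) (nat_lit 8))
    (@En.n l5276 (nat_lit 909) (nat_lit 7) (nat_lit 4))
    (@En.n l1867 (nat_lit 1285) (nat_lit 9) (nat_lit 11))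
    (@En.i (nat_lit 919) (nat_lit 10) (nat_lit 11))
    (@En.n l17 (nat_lit 992) (nat_lit 10) (nat_lit 2))
    (@En.n l5551 (nat_lit 991) (nat_lit 12) (nat_lit 12))
    (@En.n l1997 (nat_lit 6018) (nat_lit 1) (nat_lit 14))
    (@En.n l5592 (nat_lit 993) (nat_lit 14) (nat_lit 5))
    (@En.n l9413 (nat_lit 994) (nat_lit 3) (nat_lit 8))
    (@En.n l28 (nat_lit 992) (nat_lit 15) (nat_lit 2))))
  (@Cl.mk (nat_lit 0x20005000e000c0002000b000b0004000b000a00050005000b0005000e0006) (nat_lit 0xc1052001004010) (nat_lit 16) Lb.e (@T16.mk En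
    (@En.n l17567 (nat_lit 1270) (nat_lit 4) (nat_lit 6))
    (@En.n l134 (nat_lit 992) (nat_lit 1) (nat_lit 14))
    (@En.i (nat_lit 3196) (nat_lit 2) (nat_lit 5))
    (@En.n l5276 (nat_lit 1002) (nat_lit 3) (nat_lit 11))
    (@En.n l17568 (nat_lit 999) (nat_lit 11) (nat_lit 5))
    (@En.n l17569 (nat_lit 9519) (nat_lit 5) (nat_lit 5))
    (@En.n l17570 (nat_lit 446) (nat_lit 11) (nat_lit 10))
    (@En.i (nat_lit 9119) (nat_lit 8) (nat_lit 11))
    (@En.n l5276 (nat_lit 910) (nat_lit 8) (nat_lit 4))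
    (@En.n l17571 (nat_lit 1284) (nat_lit 10) (nat_lit 11))
    (@En.n l5550 (nat_lit 976) (nat_lit 11) (nat_lit 11))
    (@En.n l17 (nat_lit 993) (nat_lit 11) (nat_lit 2))
    (@En.n l5551 (nat_lit 990) (nat_lit 13) (nat_lit 12))
    (@En.n l2034 (nat_lit 5072) (nat_lit 1) (nat_lit 14))
    (@En.n l8503 (nat_lit 1259) (nat_lit 13) (nat_lit 5))
    (@En.n l7 (nat_lit 993) (nat_lit 15) (nat_lit 2))))
  (@Cl.mk (nat_lit 0x2000a000a00040008000b000b00060006000c0005000500080004000e000c) (nat_lit 0x5200120040060c1) (nat_lit 16) Lb.e (@T16.mk En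
    (@En.n l601 (nat_lit 625) (nat_lit 3) (nat_lit 12))
    (@En.n l13488 (nat_lit 5768) (nat_lit 1) (nat_lit 14))
    (@En.n l1898 (nat_lit 1270) (nat_lit 2) (nat_lit 4))
    (@En.n l1899 (nat_lit 1242) (nat_lit 10) (nat_lit 8))
    (@En.n l1900 (nat_lit 1242) (nat_lit 11) (nat_lit 5))
    (@En.n l13489 (nat_lit 3484) (nat_lit 5) (nat_lit 5))
    (@En.n l6594 (nat_lit 1001) (nat_lit 7) (nat_lit 12))
    (@En.n l13490 (nat_lit 998) (nat_lit 10) (nat_lit 6))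
    (@En.i (nat_lit 9521) (nat_lit 8) (nat_lit 6))
    (@En.n l13491 (nat_lit 992) (nat_lit 5) (nat_lit 11))
    (@En.n l13489 (nat_lit 993) (nat_lit 7) (nat_lit 11))
    (@En.n l13489 (nat_lit 5928) (nat_lit 12) (nat_lit 8))
    (@En.n l6594 (nat_lit 367) (nat_lit 13) (nat_lit 4))
    (@En.n l61 (nat_lit 1235) (nat_lit 14) (nat_lit 10))
    (@En.i (nat_lit 977) (nat_lit 1) (nat_lit 10))
    (@En.n l7 (nat_lit 994) (nat_lit 15) (nat_lit 2))))
  (@Cl.mk (nat_lit 0x200050009000c0005000b000e0004000200070005000e000b0002000e000b) (nat_lit 0x21030000007057) (nat_lit 16) Lb.e (@T16.mk En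
    (@En.i (nat_lit 992) (nat_lit 9) (nat_lit 11))
    (@En.i (nat_lit 997) (nat_lit 1) (nat_lit 14))
    (@En.n l17 (nat_lit 995) (nat_lit 2) (nat_lit 2))
    (@En.n l1353 (nat_lit 997) (nat_lit 3) (nat_lit 11))
    (@En.n l1997 (nat_lit 6022) (nat_lit 5) (nat_lit 14))
    (@En.n l20006 (nat_lit 999) (nat_lit 5) (nat_lit 5))
    (@En.n l3100 (nat_lit 998) (nat_lit 6) (nat_lit 7))
    (@En.n l28 (nat_lit 995) (nat_lit 7) (nat_lit 2))
    (@En.n l5611 (nat_lit 998) (nat_lit 8) (nat_lit 4))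
    (@En.i (nat_lit 3397) (nat_lit 10) (nat_lit 14))
    (@En.n l1997 (nat_lit 158) (nat_lit 11) (nat_lit 11))
    (@En.i (nat_lit 6622) (nat_lit 3) (nat_lit 5))
    (@En.n l2034 (nat_lit 608) (nat_lit 13) (nat_lit 12))
    (@En.i (nat_lit 5872) (nat_lit 5) (nat_lit 9))
    (@En.n l1643 (nat_lit 908) (nat_lit 6) (nat_lit 5))
    (@En.n l3 (nat_lit 995) (nat_lit 15) (nat_lit 2))))
  (@Cl.mk (nat_lit 0x2000500050009000c000c0007000c0004000400070004000b000b000e0009) (nat_lit 0x4120400005207) (nat_lit 16) Lb.e (@T16.mk En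
    (@En.n l16638 (nat_lit 625) (nat_lit 1) (nat_lit 9))
    (@En.n l16479 (nat_lit 1354) (nat_lit 4) (nat_lit 14))
    (@En.n l16639 (nat_lit 1354) (nat_lit 5) (nat_lit 11))
    (@En.n l5231 (nat_lit 5458) (nat_lit 3) (nat_lit 11))
    (@En.n l16640 (nat_lit 1247) (nat_lit 4) (nat_lit 4))
    (@En.n l11 (nat_lit 1243) (nat_lit 5) (nat_lit 7))
    (@En.n l55 (nat_lit 1243) (nat_lit 6) (nat_lit 4))
    (@En.n l14585 (nat_lit 1359) (nat_lit 7) (nat_lit 4))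
    (@En.n l15197 (nat_lit 151) (nat_lit 9) (nat_lit 12))
    (@En.i (nat_lit 5967) (nat_lit 10) (nat_lit 7))
    (@En.n l6697 (nat_lit 997) (nat_lit 11) (nat_lit 12))
    (@En.n l16641 (nat_lit 609) (nat_lit 12) (nat_lit 12))
    (@En.i (nat_lit 7781) (nat_lit 13) (nat_lit 9))
    (@En.n l725 (nat_lit 998) (nat_lit 14) (nat_lit 5))
    (@En.n l3340 (nat_lit 1001) (nat_lit 13) (nat_lit 5))
    (@En.n l3 (nat_lit 996) (nat_lit 15) (nat_lit 2))))
  (@Cl.mk (nat_lit 0x2000500050009000c0006000b000e0004000200070005000b000b000e000a) (nat_lit 0x3101c00006846) (nat_lit 16) Lb.e (@T16.mk En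
    (@En.n l3333 (nat_lit 991) (nat_lit 10) (nat_lit 10))
    (@En.i (nat_lit 1355) (nat_lit 11) (nat_lit 14))
    (@En.n l1353 (nat_lit 1355) (nat_lit 12) (nat_lit 11))
    (@En.n l5366 (nat_lit 8230) (nat_lit 3) (nat_lit 11))
    (@En.n l2909 (nat_lit 609) (nat_lit 4) (nat_lit 5))
    (@En.n l3100 (nat_lit 996) (nat_lit 5) (nat_lit 7))
    (@En.n l28 (nat_lit 997) (nat_lit 6) (nat_lit 2))
    (@En.n l5611 (nat_lit 996) (nat_lit 7) (nat_lit 4))
    (@En.i (nat_lit 3382) (nat_lit 9) (nat_lit 14))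
    (@En.n l3337 (nat_lit 160) (nat_lit 10) (nat_lit 11))
    (@En.i (nat_lit 6621) (nat_lit 3) (nat_lit 6))
    (@En.n l3340 (nat_lit 604) (nat_lit 12) (nat_lit 12))
    (@En.i (nat_lit 7787) (nat_lit 13) (nat_lit 9))
    (@En.n l725 (nat_lit 995) (nat_lit 14) (nat_lit 5))
    (@En.n l3340 (nat_lit 1000) (nat_lit 7) (nat_lit 5))
    (@En.n l3 (nat_lit 997) (nat_lit 15) (nat_lit 2))))
  (@Cl.mk (nat_lit 0x200050009000c000c0006000c0004000400070004000e000b0002000e000a) (nat_lit 0x20201000006016) (nat_lit 16) Lb.e (@T16.mk En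
    (@En.n l14583 (nat_lit 994) (nat_lit 14) (nat_lit 10))
    (@En.i (nat_lit 996) (nat_lit 1) (nat_lit 14))
    (@En.n l17 (nat_lit 998) (nat_lit 2) (nat_lit 2))
    (@En.n l1353 (nat_lit 996) (nat_lit 3) (nat_lit 11))
    (@En.n l9922 (nat_lit 6024) (nat_lit 5) (nat_lit 14))
    (@En.n l14584 (nat_lit 1271) (nat_lit 5) (nat_lit 4))
    (@En.n l11 (nat_lit 1003) (nat_lit 6) (nat_lit 7))
    (@En.n l55 (nat_lit 1003) (nat_lit 7) (nat_lit 4))
    (@En.n l14585 (nat_lit 1363) (nat_lit 8) (nat_lit 4))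
    (@En.n l2036 (nat_lit 157) (nat_lit 10) (nat_lit 12))
    (@En.i (nat_lit 5966) (nat_lit 7) (nat_lit 6))
    (@En.n l6697 (nat_lit 995) (nat_lit 12) (nat_lit 12))
    (@En.n l14586 (nat_lit 999) (nat_lit 13) (nat_lit 12))
    (@En.i (nat_lit 5870) (nat_lit 14) (nat_lit 9))
    (@En.n l1643 (nat_lit 364) (nat_lit 13) (nat_lit 5))
    (@En.n l3 (nat_lit 998) (nat_lit 15) (nat_lit 2))))
  (@Cl.mk (nat_lit 0x20005000c000b0005000b0004000e000500020005000e000b0002000e000b) (nat_lit 0xa1010100001016) (nat_lit 16) Lb.e (@T16.mk En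
    (@En.n l2036 (nat_lit 993) (nat_lit 10) (nat_lit 11))
    (@En.n l2068 (nat_lit 609) (nat_lit 1) (nat_lit 14))
    (@En.n l3 (nat_lit 999) (nat_lit 2) (nat_lit 2))
    (@En.n l5891 (nat_lit 609) (nat_lit 3) (nat_lit 11))
    (@En.i (nat_lit 5074) (nat_lit 5) (nat_lit 14))
    (@En.n l14557 (nat_lit 1272) (nat_lit 5) (nat_lit 5))
    (@En.n l17 (nat_lit 999) (nat_lit 6) (nat_lit 2))
    (@En.n l50 (nat_lit 1271) (nat_lit 7) (nat_lit 5))
    (@En.n l13823 (nat_lit 995) (nat_lit 9) (nat_lit 14))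
    (@En.n l2220 (nat_lit 3201) (nat_lit 9) (nat_lit 4))
    (@En.i (nat_lit 181) (nat_lit 3) (nat_lit 11))
    (@En.n l790 (nat_lit 6625) (nat_lit 4) (nat_lit 5))
    (@En.n l217 (nat_lit 606) (nat_lit 13) (nat_lit 11))
    (@En.n l2036 (nat_lit 9123) (nat_lit 7) (nat_lit 12))
    (@En.n l5891 (nat_lit 313) (nat_lit 7) (nat_lit 5))
    (@En.n l28 (nat_lit 999) (nat_lit 15) (nat_lit 2))))
  (@Cl.mk (nat_lit 0x200070005000b000e000c0002000b000500040009000c0005000b000e0004) (nat_lit 0x8110700310200) (nat_lit 16) Lb.e (@T16.mk En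
    (@En.n l7910 (nat_lit 1001) (nat_lit 6) (nat_lit 4))
    (@En.i (nat_lit 4690) (nat_lit 8) (nat_lit 14))
    (@En.n l889 (nat_lit 159) (nat_lit 9) (nat_lit 11))
    (@En.i (nat_lit 7152) (nat_lit 3) (nat_lit 5))
    (@En.i (nat_lit 548) (nat_lit 6) (nat_lit 12))
    (@En.n l645 (nat_lit 7508) (nat_lit 5) (nat_lit 9))
    (@En.i (nat_lit 316) (nat_lit 6) (nat_lit 4))
    (@En.n l3015 (nat_lit 1005) (nat_lit 14) (nat_lit 5))
    (@En.n l197 (nat_lit 915) (nat_lit 9) (nat_lit 11))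
    (@En.n l67 (nat_lit 1000) (nat_lit 9) (nat_lit 2))
    (@En.n l68 (nat_lit 321) (nat_lit 11) (nat_lit 12))
    (@En.n l645 (nat_lit 995) (nat_lit 4) (nat_lit 14))
    (@En.n l4820 (nat_lit 7611) (nat_lit 13) (nat_lit 11))
    (@En.n l699 (nat_lit 1002) (nat_lit 14) (nat_lit 5))
    (@En.n l2179 (nat_lit 1001) (nat_lit 4) (nat_lit 7))
    (@En.n l50 (nat_lit 1000) (nat_lit 15) (nat_lit 2))))
  (@Cl.mk (nat_lit 0x2000a000500040009000c000c0006000c0004000400070004000b000e000c) (nat_lit 0x100302030000911) (nat_lit 16) Lb.e (@T16.mk En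
    (@En.n l68 (nat_lit 322) (nat_lit 2) (nat_lit 12))
    (@En.n l645 (nat_lit 998) (nat_lit 4) (nat_lit 14))
    (@En.n l6048 (nat_lit 7626) (nat_lit 2) (nat_lit 11))
    (@En.n l5834 (nat_lit 1020) (nat_lit 3) (nat_lit 4))
    (@En.n l7 (nat_lit 1018) (nat_lit 11) (nat_lit 7))
    (@En.n l644 (nat_lit 1018) (nat_lit 12) (nat_lit 4))
    (@En.n l5838 (nat_lit 1030) (nat_lit 6) (nat_lit 4))
    (@En.n l636 (nat_lit 155) (nat_lit 8) (nat_lit 12))
    (@En.i (nat_lit 6491) (nat_lit 8) (nat_lit 6))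
    (@En.n l5837 (nat_lit 1000) (nat_lit 4) (nat_lit 12))
    (@En.n l5838 (nat_lit 1002) (nat_lit 6) (nat_lit 12))
    (@En.n l645 (nat_lit 7503) (nat_lit 12) (nat_lit 9))
    (@En.i (nat_lit 315) (nat_lit 12) (nat_lit 4))
    (@En.n l6049 (nat_lit 1006) (nat_lit 14) (nat_lit 5))
    (@En.n l197 (nat_lit 373) (nat_lit 1) (nat_lit 10))
    (@En.n l67 (nat_lit 1001) (nat_lit 15) (nat_lit 2))))
  (@Cl.mk (nat_lit 0x20005000b000e000c0002000b00050004000c000b0005000b0004000e0005) (nat_lit 0x9110100a103010) (nat_lit 16) Lb.e (@T16.mk En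
    (@En.n l5784 (nat_lit 1020) (nat_lit 5) (nat_lit 5))
    (@En.n l396 (nat_lit 1000) (nat_lit 1) (nat_lit 14))
    (@En.i (nat_lit 3735) (nat_lit 2) (nat_lit 4))
    (@En.i (nat_lit 182) (nat_lit 9) (nat_lit 11))
    (@En.n l1652 (nat_lit 7151) (nat_lit 4) (nat_lit 5))
    (@En.n l644 (nat_lit 545) (nat_lit 11) (nat_lit 11))
    (@En.n l645 (nat_lit 7581) (nat_lit 7) (nat_lit 12))
    (@En.i (nat_lit 310) (nat_lit 7) (nat_lit 4))
    (@En.n l3015 (nat_lit 1004) (nat_lit 14) (nat_lit 5))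
    (@En.n l197 (nat_lit 916) (nat_lit 10) (nat_lit 11))
    (@En.n l67 (nat_lit 1002) (nat_lit 10) (nat_lit 2))
    (@En.n l68 (nat_lit 325) (nat_lit 12) (nat_lit 12))
    (@En.n l637 (nat_lit 999) (nat_lit 4) (nat_lit 14))
    (@En.n l638 (nat_lit 6419) (nat_lit 2) (nat_lit 11))
    (@En.n l640 (nat_lit 1027) (nat_lit 13) (nat_lit 5))
    (@En.n l18 (nat_lit 1002) (nat_lit 15) (nat_lit 2))))
  (@Cl.mk (nat_lit 0x200050009000e000c00020007000d000400070003000e000b0002000e0009) (nat_lit 0x29100400000007) (nat_lit 16) Lb.e (@T16.mk En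
    (@En.n l649 (nat_lit 1242) (nat_lit 5) (nat_lit 9))
    (@En.i (nat_lit 1243) (nat_lit 1) (nat_lit 14))
    (@En.n l17 (nat_lit 1003) (nat_lit 2) (nat_lit 2))
    (@En.n l1353 (nat_lit 1243) (nat_lit 3) (nat_lit 11))
    (@En.n l2034 (nat_lit 6045) (nat_lit 5) (nat_lit 14))
    (@En.i (nat_lit 1244) (nat_lit 5) (nat_lit 3))
    (@En.i (nat_lit 13253) (nat_lit 11) (nat_lit 7))
    (@En.n l564 (nat_lit 1364) (nat_lit 7) (nat_lit 4))
    (@En.n l2036 (nat_lit 154) (nat_lit 9) (nat_lit 13))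
    (@En.i (nat_lit 5968) (nat_lit 6) (nat_lit 7))
    (@En.n l28 (nat_lit 1003) (nat_lit 10) (nat_lit 2))
    (@En.i (nat_lit 998) (nat_lit 12) (nat_lit 12))
    (@En.i (nat_lit 1331) (nat_lit 13) (nat_lit 14))
    (@En.i (nat_lit 5871) (nat_lit 2) (nat_lit 9))
    (@En.n l1643 (nat_lit 363) (nat_lit 3) (nat_lit 5))
    (@En.n l3 (nat_lit 1003) (nat_lit 15) (nat_lit 2))))
  (@Cl.mk (nat_lit 0x200050003000c000b0008000b0004000e000500020005000b0008000e000d) (nat_lit 0x162000008122) (nat_lit 16) Lb.e (@T16.mk En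
    (@En.n l1144 (nat_lit 332) (nat_lit 11) (nat_lit 13))
    (@En.n l11 (nat_lit 1002) (nat_lit 12) (nat_lit 14))
    (@En.n l2384 (nat_lit 335) (nat_lit 13) (nat_lit 8))
    (@En.n l2385 (nat_lit 6418) (nat_lit 3) (nat_lit 11))
    (@En.n l2386 (nat_lit 1011) (nat_lit 4) (nat_lit 5))
    (@En.n l18 (nat_lit 1004) (nat_lit 5) (nat_lit 2))
    (@En.n l2387 (nat_lit 1007) (nat_lit 6) (nat_lit 5))
    (@En.n l396 (nat_lit 1005) (nat_lit 8) (nat_lit 14))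
    (@En.n l2385 (nat_lit 3734) (nat_lit 8) (nat_lit 4))
    (@En.n l639 (nat_lit 183) (nat_lit 10) (nat_lit 11))
    (@En.n l2388 (nat_lit 7402) (nat_lit 4) (nat_lit 8))
    (@En.n l644 (nat_lit 549) (nat_lit 12) (nat_lit 11))
    (@En.n l2262 (nat_lit 10093) (nat_lit 13) (nat_lit 12))
    (@En.n l11 (nat_lit 332) (nat_lit 7) (nat_lit 3))
    (@En.n l2385 (nat_lit 611) (nat_lit 8) (nat_lit 5))
    (@En.n l1157 (nat_lit 1004) (nat_lit 15) (nat_lit 2))))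
  (@Cl.mk (nat_lit 0x2000500030009000c0008000b000e0004000200070005000b0008000e000d) (nat_lit 0x161c00009122) (nat_lit 16) Lb.e (@T16.mk En
    (@En.n l1144 (nat_lit 327) (nat_lit 10) (nat_lit 13))
    (@En.n l11 (nat_lit 1000) (nat_lit 11) (nat_lit 14))
    (@En.n l2261 (nat_lit 341) (nat_lit 12) (nat_lit 8))
    (@En.n l5435 (nat_lit 7609) (nat_lit 3) (nat_lit 11))
    (@En.n l699 (nat_lit 1004) (nat_lit 4) (nat_lit 5))
    (@En.n l2184 (nat_lit 1006) (nat_lit 5) (nat_lit 7))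
    (@En.n l50 (nat_lit 1005) (nat_lit 6) (nat_lit 2))
    (@En.n l6689 (nat_lit 1006) (nat_lit 7) (nat_lit 4))
    (@En.i (nat_lit 4689) (nat_lit 9) (nat_lit 14))
    (@En.n l2260 (nat_lit 192) (nat_lit 10) (nat_lit 11))
    (@En.n l6360 (nat_lit 4614) (nat_lit 11) (nat_lit 8))
    (@En.i (nat_lit 551) (nat_lit 12) (nat_lit 12))
    (@En.n l2262 (nat_lit 7453) (nat_lit 13) (nat_lit 9))
    (@En.n l11 (nat_lit 327) (nat_lit 6) (nat_lit 3))
    (@En.n l1489 (nat_lit 1355) (nat_lit 7) (nat_lit 5))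
    (@En.n l1157 (nat_lit 1005) (nat_lit 15) (nat_lit 2))))
  (@Cl.mk (nat_lit 0x2000500030009000c000c0009000c0004000400070004000b0007000e000d) (nat_lit 0x127100009022) (nat_lit 16) Lb.e (@T16.mk En
    (@En.n l2269 (nat_lit 330) (nat_lit 2) (nat_lit 13))
    (@En.n l2270 (nat_lit 1001) (nat_lit 1) (nat_lit 14))
    (@En.n l2271 (nat_lit 342) (nat_lit 2) (nat_lit 7))
    (@En.n l780 (nat_lit 7610) (nat_lit 3) (nat_lit 11))
    (@En.i (nat_lit 1007) (nat_lit 4) (nat_lit 4))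
    (@En.n l2272 (nat_lit 1008) (nat_lit 5) (nat_lit 7))
    (@En.n l2273 (nat_lit 1008) (nat_lit 6) (nat_lit 4))
    (@En.i (nat_lit 1015) (nat_lit 7) (nat_lit 4))
    (@En.n l961 (nat_lit 162) (nat_lit 9) (nat_lit 12))
    (@En.n l2272 (nat_lit 7331) (nat_lit 10) (nat_lit 9))
    (@En.n l2274 (nat_lit 1005) (nat_lit 11) (nat_lit 12))
    (@En.n l2275 (nat_lit 1004) (nat_lit 12) (nat_lit 12))
    (@En.n l2276 (nat_lit 7505) (nat_lit 13) (nat_lit 9))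
    (@En.n l2270 (nat_lit 330) (nat_lit 14) (nat_lit 3))
    (@En.i (nat_lit 1354) (nat_lit 0) (nat_lit 5))
    (@En.n l3 (nat_lit 1006) (nat_lit 15) (nat_lit 2))))
  (@Cl.mk (nat_lit 0x200050003000b000b000b0009000c0005000500050004000b0007000e000d) (nat_lit 0x8927300000002) (nat_lit 16) Lb.e (@T16.mk En
    (@En.n l2258 (nat_lit 348) (nat_lit 2) (nat_lit 13))
    (@En.n l2259 (nat_lit 1020) (nat_lit 1) (nat_lit 14))
    (@En.n l429 (nat_lit 345) (nat_lit 2) (nat_lit 7))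
    (@En.i (nat_lit 7643) (nat_lit 3) (nat_lit 11))
    (@En.n l2277 (nat_lit 1010) (nat_lit 4) (nat_lit 4))
    (@En.n l2278 (nat_lit 355) (nat_lit 5) (nat_lit 5))
    (@En.n l2279 (nat_lit 1009) (nat_lit 6) (nat_lit 5))
    (@En.i (nat_lit 3215) (nat_lit 7) (nat_lit 5))
    (@En.n l961 (nat_lit 195) (nat_lit 9) (nat_lit 12))
    (@En.n l340 (nat_lit 7320) (nat_lit 10) (nat_lit 9))
    (@En.n l2280 (nat_lit 1004) (nat_lit 11) (nat_lit 11))
    (@En.n l2281 (nat_lit 1011) (nat_lit 12) (nat_lit 11))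
    (@En.n l2282 (nat_lit 7583) (nat_lit 13) (nat_lit 11))
    (@En.n l2259 (nat_lit 348) (nat_lit 14) (nat_lit 3))
    (@En.i (nat_lit 1340) (nat_lit 0) (nat_lit 5))
    (@En.n l3 (nat_lit 1007) (nat_lit 15) (nat_lit 2))))
noncomputable def a63 : T16 Cl := @T16.mk Cl
  (@Cl.mk (nat_lit 0x2000500030009000e000c0002000a000d000400070003000b0006000e000d) (nat_lit 0x920810009021) (nat_lit 16) Lb.e (@T16.mk En
    (@En.n l6635 (nat_lit 356) (nat_lit 7) (nat_lit 13))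
    (@En.n l6636 (nat_lit 1018) (nat_lit 8) (nat_lit 14))
    (@En.i (nat_lit 1595) (nat_lit 2) (nat_lit 6))
    (@En.n l693 (nat_lit 7628) (nat_lit 3) (nat_lit 11))
    (@En.n l6637 (nat_lit 355) (nat_lit 4) (nat_lit 3))
    (@En.n l6638 (nat_lit 13257) (nat_lit 11) (nat_lit 7))
    (@En.n l6639 (nat_lit 1016) (nat_lit 6) (nat_lit 4))
    (@En.n l6640 (nat_lit 163) (nat_lit 8) (nat_lit 13))
    (@En.i (nat_lit 7214) (nat_lit 9) (nat_lit 10))
    (@En.n l3 (nat_lit 1008) (nat_lit 9) (nat_lit 2))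
    (@En.n l6641 (nat_lit 1006) (nat_lit 11) (nat_lit 12))
    (@En.i (nat_lit 1009) (nat_lit 12) (nat_lit 14))
    (@En.n l6642 (nat_lit 7504) (nat_lit 13) (nat_lit 9))
    (@En.n l6636 (nat_lit 356) (nat_lit 3) (nat_lit 3))
    (@En.n l6643 (nat_lit 1356) (nat_lit 4) (nat_lit 5))
    (@En.n l50 (nat_lit 1008) (nat_lit 15) (nat_lit 2))))
  (@Cl.mk (nat_lit 0x200050003000e000b0002000c000a000d000500040003000b0006000e000d) (nat_lit 0x8903040000000) (nat_lit 16) Lb.e (@T16.mk En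
    (@En.n l691 (nat_lit 1104) (nat_lit 6) (nat_lit 13))
    (@En.n l692 (nat_lit 1021) (nat_lit 1) (nat_lit 14))
    (@En.i (nat_lit 1593) (nat_lit 2) (nat_lit 6))
    (@En.n l693 (nat_lit 7642) (nat_lit 3) (nat_lit 11))
    (@En.n l694 (nat_lit 1013) (nat_lit 4) (nat_lit 3))
    (@En.n l695 (nat_lit 2719) (nat_lit 5) (nat_lit 4))
    (@En.n l693 (nat_lit 4261) (nat_lit 6) (nat_lit 5))
    (@En.n l696 (nat_lit 194) (nat_lit 8) (nat_lit 13))
    (@En.i (nat_lit 7323) (nat_lit 9) (nat_lit 10))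
    (@En.n l697 (nat_lit 1006) (nat_lit 10) (nat_lit 12))
    (@En.n l3 (nat_lit 1009) (nat_lit 10) (nat_lit 2))
    (@En.n l693 (nat_lit 1007) (nat_lit 12) (nat_lit 11))
    (@En.n l698 (nat_lit 12305) (nat_lit 13) (nat_lit 14))
    (@En.n l692 (nat_lit 1104) (nat_lit 2) (nat_lit 3))
    (@En.n l699 (nat_lit 1332) (nat_lit 3) (nat_lit 5))
    (@En.n l50 (nat_lit 1009) (nat_lit 15) (nat_lit 2))))
  (@Cl.mk (nat_lit 0x200050003000a000a000d0009000c0003000600060004000b0007000e000d) (nat_lit 0x300000001) (nat_lit 16) Lb.e (@T16.mk En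
    (@En.n l957 (nat_lit 216) (nat_lit 2) (nat_lit 13))
    (@En.n l958 (nat_lit 1022) (nat_lit 1) (nat_lit 14))
    (@En.n l959 (nat_lit 1059) (nat_lit 2) (nat_lit 7))
    (@En.n l960 (nat_lit 2537) (nat_lit 3) (nat_lit 11))
    (@En.i (nat_lit 1006) (nat_lit 4) (nat_lit 4))
    (@En.n l55 (nat_lit 1013) (nat_lit 5) (nat_lit 6))
    (@En.n l612 (nat_lit 355) (nat_lit 6) (nat_lit 6))
    (@En.n l50 (nat_lit 1014) (nat_lit 7) (nat_lit 3))
    (@En.n l961 (nat_lit 193) (nat_lit 9) (nat_lit 12))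
    (@En.n l217 (nat_lit 7324) (nat_lit 10) (nat_lit 9))
    (@En.n l962 (nat_lit 1012) (nat_lit 11) (nat_lit 13))
    (@En.n l963 (nat_lit 1012) (nat_lit 12) (nat_lit 10))
    (@En.n l964 (nat_lit 10047) (nat_lit 13) (nat_lit 10))
    (@En.n l958 (nat_lit 216) (nat_lit 14) (nat_lit 3))
    (@En.i (nat_lit 1251) (nat_lit 0) (nat_lit 5))
    (@En.n l3 (nat_lit 1010) (nat_lit 15) (nat_lit 2))))
  (@Cl.mk (nat_lit 0x200050003000b000a0008000b000e0005000200060005000b0008000e000d) (nat_lit 0x8151000000061) (nat_lit 16) Lb.e (@T16.mk En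
    (@En.n l4163 (nat_lit 217) (nat_lit 10) (nat_lit 13))
    (@En.n l4164 (nat_lit 1027) (nat_lit 11) (nat_lit 14))
    (@En.n l4165 (nat_lit 1054) (nat_lit 12) (nat_lit 8))
    (@En.i (nat_lit 6420) (nat_lit 3) (nat_lit 11))
    (@En.n l4166 (nat_lit 1012) (nat_lit 4) (nat_lit 5))
    (@En.n l4167 (nat_lit 1010) (nat_lit 5) (nat_lit 6))
    (@En.n l7 (nat_lit 1011) (nat_lit 6) (nat_lit 2))
    (@En.n l4110 (nat_lit 1007) (nat_lit 7) (nat_lit 5))
    (@En.n l4077 (nat_lit 3709) (nat_lit 9) (nat_lit 14))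
    (@En.n l430 (nat_lit 198) (nat_lit 10) (nat_lit 11))
    (@En.n l4077 (nat_lit 7322) (nat_lit 11) (nat_lit 8))
    (@En.n l1501 (nat_lit 550) (nat_lit 12) (nat_lit 10))
    (@En.n l4168 (nat_lit 12166) (nat_lit 13) (nat_lit 11))
    (@En.n l4164 (nat_lit 217) (nat_lit 6) (nat_lit 3))
    (@En.i (nat_lit 1341) (nat_lit 7) (nat_lit 5))
    (@En.n l3 (nat_lit 1011) (nat_lit 15) (nat_lit 2))))
  (@Cl.mk (nat_lit 0x200050003000a000d0008000b0003000e000600020005000b0008000e000d) (nat_lit 0x8b03010006051) (nat_lit 16) Lb.e (@T16.mk En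
    (@En.n l3013 (nat_lit 215) (nat_lit 11) (nat_lit 13))
    (@En.n l936 (nat_lit 1026) (nat_lit 12) (nat_lit 14))
    (@En.n l1448 (nat_lit 1058) (nat_lit 13) (nat_lit 8))
    (@En.n l3014 (nat_lit 2535) (nat_lit 3) (nat_lit 11))
    (@En.n l3015 (nat_lit 1005) (nat_lit 4) (nat_lit 5))
    (@En.n l17 (nat_lit 1012) (nat_lit 5) (nat_lit 2))
    (@En.n l2883 (nat_lit 1010) (nat_lit 6) (nat_lit 6))
    (@En.n l3014 (nat_lit 1011) (nat_lit 8) (nat_lit 14))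
    (@En.n l3016 (nat_lit 1017) (nat_lit 8) (nat_lit 3))
    (@En.n l891 (nat_lit 197) (nat_lit 10) (nat_lit 11))
    (@En.n l3017 (nat_lit 7346) (nat_lit 4) (nat_lit 8))
    (@En.i (nat_lit 13672) (nat_lit 5) (nat_lit 13))
    (@En.n l645 (nat_lit 7452) (nat_lit 13) (nat_lit 10))
    (@En.n l936 (nat_lit 215) (nat_lit 7) (nat_lit 3))
    (@En.n l3018 (nat_lit 1342) (nat_lit 8) (nat_lit 5))
    (@En.n l67 (nat_lit 1012) (nat_lit 15) (nat_lit 2))))
  (@Cl.mk (nat_lit 0x200050003000e000a0002000d000a000d000300060003000b0006000e000d) (nat_lit 0xc10101000000b) (nat_lit 16) Lb.e (@T16.mk En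
    (@En.n l336 (nat_lit 1109) (nat_lit 6) (nat_lit 13))
    (@En.n l337 (nat_lit 1023) (nat_lit 1) (nat_lit 14))
    (@En.n l338 (nat_lit 1592) (nat_lit 2) (nat_lit 6))
    (@En.n l339 (nat_lit 6778) (nat_lit 3) (nat_lit 11))
    (@En.n l340 (nat_lit 1009) (nat_lit 4) (nat_lit 3))
    (@En.n l341 (nat_lit 2726) (nat_lit 5) (nat_lit 6))
    (@En.n l50 (nat_lit 1368) (nat_lit 6) (nat_lit 3))
    (@En.n l342 (nat_lit 1) (nat_lit 0) (nat_lit 13))
    (@En.n l338 (nat_lit 7348) (nat_lit 9) (nat_lit 10))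
    (@En.n l343 (nat_lit 1010) (nat_lit 10) (nat_lit 13))
    (@En.n l28 (nat_lit 1013) (nat_lit 10) (nat_lit 2))
    (@En.i (nat_lit 1010) (nat_lit 12) (nat_lit 10))
    (@En.n l344 (nat_lit 12307) (nat_lit 13) (nat_lit 14))
    (@En.n l337 (nat_lit 1109) (nat_lit 2) (nat_lit 3))
    (@En.i (nat_lit 1333) (nat_lit 3) (nat_lit 5))
    (@En.n l3 (nat_lit 1013) (nat_lit 15) (nat_lit 2))))
  (@Cl.mk (nat_lit 0x200050003000a000a000d000b000a0003000600060005000b0006000e000d) (nat_lit 0x3000000000) (nat_lit 16) Lb.e (@T16.mk En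
    (@En.n l3242 (nat_lit 1158) (nat_lit 2) (nat_lit 13))
    (@En.i (nat_lit 1025) (nat_lit 1) (nat_lit 14))
    (@En.i (nat_lit 4154) (nat_lit 2) (nat_lit 6))
    (@En.n l780 (nat_lit 2541) (nat_lit 3) (nat_lit 11))
    (@En.n l77 (nat_lit 1016) (nat_lit 4) (nat_lit 5))
    (@En.n l55 (nat_lit 1368) (nat_lit 5) (nat_lit 6))
    (@En.n l3243 (nat_lit 1369) (nat_lit 6) (nat_lit 6))
    (@En.i (nat_lit 1010) (nat_lit 7) (nat_lit 3))
    (@En.i (nat_lit 2739) (nat_lit 0) (nat_lit 10))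
    (@En.n l3241 (nat_lit 1007) (nat_lit 10) (nat_lit 11))
    (@En.n l3244 (nat_lit 1017) (nat_lit 11) (nat_lit 13))
    (@En.n l3245 (nat_lit 1017) (nat_lit 12) (nat_lit 10))
    (@En.i (nat_lit 12132) (nat_lit 13) (nat_lit 10))
    (@En.n l3246 (nat_lit 1158) (nat_lit 14) (nat_lit 3))
    (@En.i (nat_lit 1343) (nat_lit 0) (nat_lit 5))
    (@En.n l3 (nat_lit 1014) (nat_lit 15) (nat_lit 2))))
  (@Cl.mk (nat_lit 0x2000500030009000c000a000d000a0004000300070006000b0006000e000d) (nat_lit 0x10000000000) (nat_lit 16) Lb.e (@T16.mk En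
    (@En.n l4130 (nat_lit 4264) (nat_lit 2) (nat_lit 13))
    (@En.n l6658 (nat_lit 1030) (nat_lit 1) (nat_lit 14))
    (@En.n l4133 (nat_lit 1601) (nat_lit 2) (nat_lit 6))
    (@En.n l780 (nat_lit 7632) (nat_lit 3) (nat_lit 11))
    (@En.n l55 (nat_lit 4261) (nat_lit 4) (nat_lit 6))
    (@En.n l612 (nat_lit 1016) (nat_lit 5) (nat_lit 7))
    (@En.n l50 (nat_lit 4259) (nat_lit 6) (nat_lit 3))
    (@En.n l3967 (nat_lit 1005) (nat_lit 7) (nat_lit 4))
    (@En.n l217 (nat_lit 7360) (nat_lit 9) (nat_lit 10))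
    (@En.n l6659 (nat_lit 4687) (nat_lit 10) (nat_lit 13))
    (@En.i (nat_lit 1010) (nat_lit 11) (nat_lit 10))
    (@En.n l780 (nat_lit 3734) (nat_lit 12) (nat_lit 12))
    (@En.n l4133 (nat_lit 12130) (nat_lit 13) (nat_lit 9))
    (@En.n l2832 (nat_lit 4264) (nat_lit 14) (nat_lit 3))
    (@En.i (nat_lit 1358) (nat_lit 0) (nat_lit 5))
    (@En.n l3 (nat_lit 1015) (nat_lit 15) (nat_lit 2))))
  (@Cl.mk (nat_lit 0x2000500030009000d000c000b0003000b000400070005000b0005000e000d) (nat_lit 0x11000000000) (nat_lit 16) Lb.e (@T16.mk En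
    (@En.n l9451 (nat_lit 4265) (nat_lit 2) (nat_lit 13))
    (@En.n l9452 (nat_lit 1029) (nat_lit 1) (nat_lit 14))
    (@En.n l9453 (nat_lit 1600) (nat_lit 2) (nat_lit 5))
    (@En.n l780 (nat_lit 7631) (nat_lit 3) (nat_lit 11))
    (@En.i (nat_lit 2720) (nat_lit 4) (nat_lit 5))
    (@En.n l9453 (nat_lit 3773) (nat_lit 5) (nat_lit 7))
    (@En.n l7 (nat_lit 1006) (nat_lit 6) (nat_lit 4))
    (@En.n l9454 (nat_lit 7212) (nat_lit 8) (nat_lit 11))
    (@En.n l7 (nat_lit 4259) (nat_lit 8) (nat_lit 3))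
    (@En.i (nat_lit 355) (nat_lit 10) (nat_lit 11))
    (@En.n l644 (nat_lit 1015) (nat_lit 11) (nat_lit 12))
    (@En.n l780 (nat_lit 4261) (nat_lit 12) (nat_lit 13))
    (@En.i (nat_lit 12129) (nat_lit 13) (nat_lit 9))
    (@En.n l9452 (nat_lit 4265) (nat_lit 14) (nat_lit 3))
    (@En.i (nat_lit 1357) (nat_lit 0) (nat_lit 5))
    (@En.n l3 (nat_lit 1016) (nat_lit 15) (nat_lit 2))))
  (@Cl.mk (nat_lit 0x200050003000a000d000a00090003000e000600020006000b0007000e000d) (nat_lit 0x8b20000000000) (nat_lit 16) Lb.e (@T16.mk En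
    (@En.n l8819 (nat_lit 1161) (nat_lit 11) (nat_lit 13))
    (@En.n l8820 (nat_lit 1028) (nat_lit 12) (nat_lit 14))
    (@En.n l8821 (nat_lit 4159) (nat_lit 13) (nat_lit 7))
    (@En.n l1353 (nat_lit 2539) (nat_lit 3) (nat_lit 11))
    (@En.n l7507 (nat_lit 1015) (nat_lit 4) (nat_lit 6))
    (@En.n l3 (nat_lit 1017) (nat_lit 5) (nat_lit 2))
    (@En.n l8822 (nat_lit 1014) (nat_lit 6) (nat_lit 6))
    (@En.n l6042 (nat_lit 1165) (nat_lit 8) (nat_lit 14))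
    (@En.n l8172 (nat_lit 1012) (nat_lit 8) (nat_lit 3))
    (@En.n l8823 (nat_lit 2738) (nat_lit 10) (nat_lit 9))
    (@En.n l3858 (nat_lit 1011) (nat_lit 11) (nat_lit 10))
    (@En.n l6672 (nat_lit 13673) (nat_lit 5) (nat_lit 13))
    (@En.i (nat_lit 12162) (nat_lit 13) (nat_lit 10))
    (@En.n l8820 (nat_lit 1161) (nat_lit 7) (nat_lit 3))
    (@En.n l7507 (nat_lit 1344) (nat_lit 8) (nat_lit 5))
    (@En.n l11 (nat_lit 1017) (nat_lit 15) (nat_lit 2))))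
  (@Cl.mk (nat_lit 0x20007000d000400070003000b000e000c00020009000500040009000e000c) (nat_lit 0x50009110100391) (nat_lit 16) Lb.e (@T16.mk En
    (@En.i (nat_lit 1001) (nat_lit 10) (nat_lit 12))
    (@En.n l601 (nat_lit 1021) (nat_lit 11) (nat_lit 14))
    (@En.n l645 (nat_lit 7502) (nat_lit 2) (nat_lit 9))
    (@En.i (nat_lit 365) (nat_lit 3) (nat_lit 4))
    (@En.n l1448 (nat_lit 1008) (nat_lit 14) (nat_lit 5))
    (@En.n l197 (nat_lit 372) (nat_lit 5) (nat_lit 9))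
    (@En.n l67 (nat_lit 1018) (nat_lit 6) (nat_lit 2))
    (@En.n l68 (nat_lit 360) (nat_lit 8) (nat_lit 12))
    (@En.n l645 (nat_lit 1003) (nat_lit 4) (nat_lit 14))
    (@En.i (nat_lit 7627) (nat_lit 2) (nat_lit 11))
    (@En.n l2364 (nat_lit 1019) (nat_lit 10) (nat_lit 3))
    (@En.i (nat_lit 13255) (nat_lit 11) (nat_lit 7))
    (@En.i (nat_lit 1029) (nat_lit 5) (nat_lit 4))
    (@En.n l636 (nat_lit 156) (nat_lit 7) (nat_lit 13))
    (@En.i (nat_lit 7007) (nat_lit 7) (nat_lit 7))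
    (@En.n l50 (nat_lit 1018) (nat_lit 15) (nat_lit 2))))
  (@Cl.mk (nat_lit 0x20007000d000600050003000b000e000c0002000900050004000a000e000b) (nat_lit 0x50000c107000b0) (nat_lit 16) Lb.e (@T16.mk En
    (@En.n l7 (nat_lit 1020) (nat_lit 10) (nat_lit 11))
    (@En.n l5841 (nat_lit 1023) (nat_lit 11) (nat_lit 14))
    (@En.n l8450 (nat_lit 7578) (nat_lit 2) (nat_lit 10))
    (@En.i (nat_lit 377) (nat_lit 3) (nat_lit 4))
    (@En.n l8451 (nat_lit 355) (nat_lit 14) (nat_lit 5))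
    (@En.n l197 (nat_lit 1092) (nat_lit 5) (nat_lit 9))
    (@En.n l67 (nat_lit 1019) (nat_lit 6) (nat_lit 2))
    (@En.n l68 (nat_lit 354) (nat_lit 8) (nat_lit 12))
    (@En.n l8452 (nat_lit 1244) (nat_lit 4) (nat_lit 14))
    (@En.n l3451 (nat_lit 7646) (nat_lit 2) (nat_lit 11))
    (@En.n l763 (nat_lit 1018) (nat_lit 10) (nat_lit 3))
    (@En.i (nat_lit 2714) (nat_lit 4) (nat_lit 5))
    (@En.n l300 (nat_lit 3209) (nat_lit 5) (nat_lit 6))
    (@En.n l302 (nat_lit 205) (nat_lit 7) (nat_lit 13))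
    (@En.i (nat_lit 7000) (nat_lit 7) (nat_lit 7))
    (@En.n l50 (nat_lit 1019) (nat_lit 15) (nat_lit 2))))
  (@Cl.mk (nat_lit 0x2000a00050004000b000b000b0006000c0005000500050004000b000e000c) (nat_lit 0x1000920200009c1) (nat_lit 16) Lb.e (@T16.mk En
    (@En.n l68 (nat_lit 303) (nat_lit 2) (nat_lit 12))
    (@En.n l6063 (nat_lit 1271) (nat_lit 4) (nat_lit 14))
    (@En.n l5971 (nat_lit 7645) (nat_lit 2) (nat_lit 11))
    (@En.n l817 (nat_lit 1022) (nat_lit 3) (nat_lit 4))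
    (@En.n l601 (nat_lit 1019) (nat_lit 11) (nat_lit 5))
    (@En.n l77 (nat_lit 1021) (nat_lit 5) (nat_lit 5))
    (@En.n l6064 (nat_lit 3213) (nat_lit 6) (nat_lit 5))
    (@En.n l6065 (nat_lit 149) (nat_lit 8) (nat_lit 12))
    (@En.n l1055 (nat_lit 6996) (nat_lit 8) (nat_lit 6))
    (@En.n l397 (nat_lit 1002) (nat_lit 5) (nat_lit 11))
    (@En.n l5670 (nat_lit 1027) (nat_lit 5) (nat_lit 11))
    (@En.n l3830 (nat_lit 7579) (nat_lit 12) (nat_lit 11))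
    (@En.i (nat_lit 306) (nat_lit 12) (nat_lit 4))
    (@En.n l5973 (nat_lit 1007) (nat_lit 14) (nat_lit 5))
    (@En.n l197 (nat_lit 982) (nat_lit 1) (nat_lit 10))
    (@En.n l67 (nat_lit 1020) (nat_lit 15) (nat_lit 2))))
  (@Cl.mk (nat_lit 0x2000900050004000e000b0002000c0007000d000500040003000b000e000c) (nat_lit 0x8103040000c0) (nat_lit 16) Lb.e (@T16.mk En
    (@En.n l68 (nat_lit 1102) (nat_lit 7) (nat_lit 12))
    (@En.n l2091 (nat_lit 1331) (nat_lit 4) (nat_lit 14))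
    (@En.i (nat_lit 7644) (nat_lit 2) (nat_lit 11))
    (@En.i (nat_lit 1023) (nat_lit 3) (nat_lit 3))
    (@En.i (nat_lit 2715) (nat_lit 4) (nat_lit 4))
    (@En.i (nat_lit 1031) (nat_lit 5) (nat_lit 5))
    (@En.n l217 (nat_lit 196) (nat_lit 7) (nat_lit 13))
    (@En.n l1055 (nat_lit 6997) (nat_lit 14) (nat_lit 7))
    (@En.n l50 (nat_lit 1001) (nat_lit 9) (nat_lit 12))
    (@En.n l7 (nat_lit 1021) (nat_lit 9) (nat_lit 2))
    (@En.i (nat_lit 1020) (nat_lit 11) (nat_lit 11))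
    (@En.n l645 (nat_lit 12306) (nat_lit 1) (nat_lit 14))
    (@En.i (nat_lit 1116) (nat_lit 2) (nat_lit 4))
    (@En.n l2092 (nat_lit 1009) (nat_lit 14) (nat_lit 5))
    (@En.n l197 (nat_lit 1546) (nat_lit 4) (nat_lit 9))
    (@En.n l67 (nat_lit 1021) (nat_lit 15) (nat_lit 2))))
  (@Cl.mk (nat_lit 0x2000a00050004000a000a000d0006000c0003000600060004000b000e000c) (nat_lit 0x100000ca) (nat_lit 16) Lb.e (@T16.mk En
    (@En.n l68 (nat_lit 293) (nat_lit 10) (nat_lit 12))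
    (@En.n l645 (nat_lit 1250) (nat_lit 4) (nat_lit 14))
    (@En.n l887 (nat_lit 2536) (nat_lit 2) (nat_lit 11))
    (@En.n l2179 (nat_lit 1001) (nat_lit 3) (nat_lit 4))
    (@En.n l2139 (nat_lit 1023) (nat_lit 4) (nat_lit 6))
    (@En.n l2180 (nat_lit 1019) (nat_lit 12) (nat_lit 6))
    (@En.n l2882 (nat_lit 1025) (nat_lit 6) (nat_lit 3))
    (@En.i (nat_lit 3) (nat_lit 0) (nat_lit 12))
    (@En.i (nat_lit 6999) (nat_lit 8) (nat_lit 6))
    (@En.n l18 (nat_lit 1026) (nat_lit 5) (nat_lit 13))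
    (@En.n l61 (nat_lit 1026) (nat_lit 6) (nat_lit 10))
    (@En.n l645 (nat_lit 11961) (nat_lit 12) (nat_lit 10))
    (@En.i (nat_lit 1060) (nat_lit 12) (nat_lit 4))
    (@En.n l2883 (nat_lit 1010) (nat_lit 14) (nat_lit 5))
    (@En.n l197 (nat_lit 1034) (nat_lit 1) (nat_lit 10))
    (@En.n l67 (nat_lit 1022) (nat_lit 15) (nat_lit 2))))
  (@Cl.mk (nat_lit 0x2000900050004000e000a0002000d0007000d000300060003000b000e000c) (nat_lit 0xa101030000c0) (nat_lit 16) Lb.e (@T16.mk En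
    (@En.n l68 (nat_lit 1085) (nat_lit 7) (nat_lit 12))
    (@En.n l1054 (nat_lit 1255) (nat_lit 4) (nat_lit 14))
    (@En.i (nat_lit 6776) (nat_lit 2) (nat_lit 11))
    (@En.n l17 (nat_lit 1021) (nat_lit 3) (nat_lit 3))
    (@En.n l826 (nat_lit 2716) (nat_lit 4) (nat_lit 6))
    (@En.n l17 (nat_lit 1024) (nat_lit 5) (nat_lit 3))
    (@En.n l217 (nat_lit 193) (nat_lit 0) (nat_lit 13))
    (@En.n l1055 (nat_lit 6998) (nat_lit 14) (nat_lit 7))
    (@En.n l816 (nat_lit 1022) (nat_lit 9) (nat_lit 13))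
    (@En.n l7 (nat_lit 1023) (nat_lit 9) (nat_lit 2))
    (@En.n l817 (nat_lit 1022) (nat_lit 11) (nat_lit 10))
    (@En.n l1056 (nat_lit 12309) (nat_lit 1) (nat_lit 14))
    (@En.i (nat_lit 1066) (nat_lit 2) (nat_lit 4))
    (@En.n l1057 (nat_lit 1013) (nat_lit 14) (nat_lit 5))
    (@En.n l197 (nat_lit 1183) (nat_lit 4) (nat_lit 9))
    (@En.n l67 (nat_lit 1023) (nat_lit 15) (nat_lit 2))))
noncomputable def a64 : T16 Cl := @T16.mk Cl
  (@Cl.mk (nat_lit 0x2000800050004000e000a0002000d000c0008000300060004000b000e000c) (nat_lit 0x40000000) (nat_lit 16) Lb.e (@T16.mk En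
    (@En.n l68 (nat_lit 1087) (nat_lit 7) (nat_lit 12))
    (@En.n l3471 (nat_lit 1382) (nat_lit 4) (nat_lit 14))
    (@En.n l265 (nat_lit 6780) (nat_lit 2) (nat_lit 11))
    (@En.i (nat_lit 2718) (nat_lit 3) (nat_lit 4))
    (@En.n l3472 (nat_lit 3885) (nat_lit 4) (nat_lit 6))
    (@En.n l3473 (nat_lit 1023) (nat_lit 5) (nat_lit 3))
    (@En.n l3474 (nat_lit 3023) (nat_lit 0) (nat_lit 8))
    (@En.n l61 (nat_lit 1021) (nat_lit 8) (nat_lit 12))
    (@En.n l3475 (nat_lit 1025) (nat_lit 9) (nat_lit 13))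
    (@En.n l7 (nat_lit 1024) (nat_lit 9) (nat_lit 2))
    (@En.n l265 (nat_lit 1025) (nat_lit 11) (nat_lit 10))
    (@En.n l645 (nat_lit 12311) (nat_lit 1) (nat_lit 14))
    (@En.i (nat_lit 1073) (nat_lit 2) (nat_lit 4))
    (@En.n l2316 (nat_lit 1368) (nat_lit 14) (nat_lit 5))
    (@En.n l3476 (nat_lit 5095) (nat_lit 4) (nat_lit 8))
    (@En.n l67 (nat_lit 1024) (nat_lit 15) (nat_lit 2))))
  (@Cl.mk (nat_lit 0x2000900050004000a000a000d000b00070003000600060005000b000e000c) (nat_lit 0x80b3000000c1) (nat_lit 16) Lb.e (@T16.mk En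
    (@En.n l8453 (nat_lit 300) (nat_lit 10) (nat_lit 12))
    (@En.n l3383 (nat_lit 1274) (nat_lit 4) (nat_lit 14))
    (@En.n l8454 (nat_lit 2540) (nat_lit 2) (nat_lit 11))
    (@En.n l8455 (nat_lit 1029) (nat_lit 3) (nat_lit 5))
    (@En.n l1241 (nat_lit 1024) (nat_lit 4) (nat_lit 6))
    (@En.n l8456 (nat_lit 1374) (nat_lit 5) (nat_lit 6))
    (@En.n l958 (nat_lit 1022) (nat_lit 6) (nat_lit 3))
    (@En.n l8457 (nat_lit 2971) (nat_lit 0) (nat_lit 7))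
    (@En.n l75 (nat_lit 1020) (nat_lit 9) (nat_lit 11))
    (@En.n l8458 (nat_lit 1028) (nat_lit 5) (nat_lit 13))
    (@En.n l8459 (nat_lit 1028) (nat_lit 6) (nat_lit 10))
    (@En.n l8460 (nat_lit 11962) (nat_lit 12) (nat_lit 10))
    (@En.n l8455 (nat_lit 1067) (nat_lit 12) (nat_lit 4))
    (@En.n l17 (nat_lit 1014) (nat_lit 14) (nat_lit 5))
    (@En.i (nat_lit 5090) (nat_lit 1) (nat_lit 9))
    (@En.n l3 (nat_lit 1025) (nat_lit 15) (nat_lit 2))))
  (@Cl.mk (nat_lit 0x20005000b000e000c0002000b00050004000a000d0005000b0003000e0006) (nat_lit 0x4100008b03000) (nat_lit 16) Lb.e (@T16.mk En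
    (@En.i (nat_lit 1022) (nat_lit 5) (nat_lit 6))
    (@En.n l5 (nat_lit 1027) (nat_lit 1) (nat_lit 14))
    (@En.i (nat_lit 1028) (nat_lit 2) (nat_lit 3))
    (@En.i (nat_lit 203) (nat_lit 9) (nat_lit 11))
    (@En.i (nat_lit 6889) (nat_lit 4) (nat_lit 5))
    (@En.i (nat_lit 13670) (nat_lit 5) (nat_lit 13))
    (@En.n l645 (nat_lit 11959) (nat_lit 12) (nat_lit 10))
    (@En.i (nat_lit 1063) (nat_lit 7) (nat_lit 4))
    (@En.i (nat_lit 1012) (nat_lit 14) (nat_lit 5))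
    (@En.n l197 (nat_lit 1033) (nat_lit 10) (nat_lit 11))
    (@En.n l67 (nat_lit 1026) (nat_lit 10) (nat_lit 2))
    (@En.n l68 (nat_lit 292) (nat_lit 12) (nat_lit 12))
    (@En.n l645 (nat_lit 1273) (nat_lit 4) (nat_lit 14))
    (@En.n l887 (nat_lit 2534) (nat_lit 2) (nat_lit 11))
    (@En.i (nat_lit 1000) (nat_lit 13) (nat_lit 5))
    (@En.n l17 (nat_lit 1026) (nat_lit 15) (nat_lit 2))))
  (@Cl.mk (nat_lit 0x200060005000b000e000c0002000b00050004000b000a0005000b000e0005) (nat_lit 0x95109008102c0) (nat_lit 16) Lb.e (@T16.mk En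
    (@En.n l8357 (nat_lit 1020) (nat_lit 6) (nat_lit 5))
    (@En.n l1063 (nat_lit 3710) (nat_lit 8) (nat_lit 14))
    (@En.i (nat_lit 202) (nat_lit 9) (nat_lit 11))
    (@En.n l9742 (nat_lit 6890) (nat_lit 3) (nat_lit 5))
    (@En.i (nat_lit 547) (nat_lit 4) (nat_lit 10))
    (@En.n l9743 (nat_lit 11963) (nat_lit 12) (nat_lit 11))
    (@En.i (nat_lit 308) (nat_lit 6) (nat_lit 4))
    (@En.n l9744 (nat_lit 1011) (nat_lit 14) (nat_lit 5))
    (@En.n l197 (nat_lit 1032) (nat_lit 9) (nat_lit 11))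
    (@En.n l67 (nat_lit 1027) (nat_lit 9) (nat_lit 2))
    (@En.n l68 (nat_lit 291) (nat_lit 11) (nat_lit 12))
    (@En.n l645 (nat_lit 1272) (nat_lit 4) (nat_lit 14))
    (@En.n l9745 (nat_lit 6421) (nat_lit 13) (nat_lit 11))
    (@En.n l699 (nat_lit 1026) (nat_lit 14) (nat_lit 5))
    (@En.n l17 (nat_lit 1022) (nat_lit 4) (nat_lit 6))
    (@En.n l18 (nat_lit 1027) (nat_lit 15) (nat_lit 2))))
  (@Cl.mk (nat_lit 0x20006000b000e000c0002000a00050004000a000d000a00060003000e0006) (nat_lit 0xc100008a20000) (nat_lit 16) Lb.e (@T16.mk En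
    (@En.n l2882 (nat_lit 1025) (nat_lit 5) (nat_lit 6))
    (@En.n l1708 (nat_lit 3032) (nat_lit 1) (nat_lit 14))
    (@En.n l7 (nat_lit 1026) (nat_lit 2) (nat_lit 3))
    (@En.n l1362 (nat_lit 2977) (nat_lit 8) (nat_lit 6))
    (@En.n l420 (nat_lit 1027) (nat_lit 4) (nat_lit 10))
    (@En.i (nat_lit 13671) (nat_lit 5) (nat_lit 13))
    (@En.n l645 (nat_lit 11960) (nat_lit 12) (nat_lit 10))
    (@En.i (nat_lit 1068) (nat_lit 7) (nat_lit 4))
    (@En.n l3016 (nat_lit 1017) (nat_lit 14) (nat_lit 5))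
    (@En.n l197 (nat_lit 5091) (nat_lit 10) (nat_lit 10))
    (@En.n l67 (nat_lit 1028) (nat_lit 10) (nat_lit 2))
    (@En.n l68 (nat_lit 294) (nat_lit 12) (nat_lit 12))
    (@En.n l4003 (nat_lit 1275) (nat_lit 4) (nat_lit 14))
    (@En.n l19867 (nat_lit 2538) (nat_lit 2) (nat_lit 11))
    (@En.i (nat_lit 1030) (nat_lit 3) (nat_lit 6))
    (@En.n l17 (nat_lit 1028) (nat_lit 15) (nat_lit 2))))
  (@Cl.mk (nat_lit 0x20008000500040009000d000c000b00030008000400070005000b000e000c) (nat_lit 0x1000000c0) (nat_lit 16) Lb.e (@T16.mk En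
    (@En.n l68 (nat_lit 3863) (nat_lit 9) (nat_lit 12))
    (@En.n l3471 (nat_lit 1364) (nat_lit 4) (nat_lit 14))
    (@En.n l11385 (nat_lit 7629) (nat_lit 2) (nat_lit 11))
    (@En.n l11386 (nat_lit 2717) (nat_lit 3) (nat_lit 5))
    (@En.n l1723 (nat_lit 3966) (nat_lit 4) (nat_lit 7))
    (@En.n l6042 (nat_lit 1001) (nat_lit 5) (nat_lit 4))
    (@En.i (nat_lit 7008) (nat_lit 6) (nat_lit 8))
    (@En.n l3475 (nat_lit 4255) (nat_lit 7) (nat_lit 3))
    (@En.n l6444 (nat_lit 1019) (nat_lit 0) (nat_lit 11))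
    (@En.n l5838 (nat_lit 1030) (nat_lit 10) (nat_lit 12))
    (@En.n l601 (nat_lit 1031) (nat_lit 11) (nat_lit 13))
    (@En.n l645 (nat_lit 12133) (nat_lit 12) (nat_lit 9))
    (@En.i (nat_lit 4275) (nat_lit 12) (nat_lit 4))
    (@En.n l11387 (nat_lit 1016) (nat_lit 14) (nat_lit 5))
    (@En.n l3476 (nat_lit 4231) (nat_lit 6) (nat_lit 8))
    (@En.n l67 (nat_lit 1029) (nat_lit 15) (nat_lit 2))))
  (@Cl.mk (nat_lit 0x20009000500040009000c000a000d00070004000300070006000b000e000c) (nat_lit 0xa10000000c0) (nat_lit 16) Lb.e (@T16.mk En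
    (@En.n l68 (nat_lit 3861) (nat_lit 11) (nat_lit 12))
    (@En.n l4003 (nat_lit 1363) (nat_lit 4) (nat_lit 14))
    (@En.n l7804 (nat_lit 7630) (nat_lit 2) (nat_lit 11))
    (@En.n l13384 (nat_lit 1031) (nat_lit 3) (nat_lit 6))
    (@En.n l6204 (nat_lit 1029) (nat_lit 4) (nat_lit 7))
    (@En.n l14959 (nat_lit 4255) (nat_lit 5) (nat_lit 3))
    (@En.n l7 (nat_lit 1000) (nat_lit 0) (nat_lit 4))
    (@En.n l11014 (nat_lit 7009) (nat_lit 7) (nat_lit 7))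
    (@En.i (nat_lit 4694) (nat_lit 9) (nat_lit 13))
    (@En.n l396 (nat_lit 1022) (nat_lit 10) (nat_lit 10))
    (@En.i (nat_lit 3735) (nat_lit 6) (nat_lit 12))
    (@En.n l645 (nat_lit 12156) (nat_lit 12) (nat_lit 9))
    (@En.i (nat_lit 4274) (nat_lit 12) (nat_lit 4))
    (@En.n l14960 (nat_lit 1015) (nat_lit 14) (nat_lit 5))
    (@En.n l11014 (nat_lit 4232) (nat_lit 1) (nat_lit 9))
    (@En.n l67 (nat_lit 1030) (nat_lit 15) (nat_lit 2))))
  (@Cl.mk (nat_lit 0x2000800050004000d000b000a0003000d0008000500030006000b000e000c) (nat_lit 0xb02010000000) (nat_lit 16) Lb.e (@T16.mk En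
    (@En.n l68 (nat_lit 3860) (nat_lit 12) (nat_lit 12))
    (@En.n l6112 (nat_lit 1337) (nat_lit 4) (nat_lit 14))
    (@En.n l5971 (nat_lit 8332) (nat_lit 2) (nat_lit 11))
    (@En.n l3368 (nat_lit 2725) (nat_lit 3) (nat_lit 6))
    (@En.n l265 (nat_lit 4254) (nat_lit 4) (nat_lit 3))
    (@En.n l1927 (nat_lit 1002) (nat_lit 0) (nat_lit 5))
    (@En.n l6113 (nat_lit 6190) (nat_lit 6) (nat_lit 8))
    (@En.n l397 (nat_lit 1030) (nat_lit 8) (nat_lit 13))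
    (@En.n l6114 (nat_lit 3740) (nat_lit 8) (nat_lit 3))
    (@En.n l61 (nat_lit 1023) (nat_lit 10) (nat_lit 10))
    (@En.n l6064 (nat_lit 3213) (nat_lit 11) (nat_lit 11))
    (@En.n l645 (nat_lit 11488) (nat_lit 12) (nat_lit 13))
    (@En.i (nat_lit 4277) (nat_lit 12) (nat_lit 4))
    (@En.n l5973 (nat_lit 4261) (nat_lit 14) (nat_lit 5))
    (@En.n l5971 (nat_lit 4238) (nat_lit 5) (nat_lit 8))
    (@En.n l67 (nat_lit 1031) (nat_lit 15) (nat_lit 2))))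
  (@Cl.mk (nat_lit 0x200070005000c0008000d000b00040003000a000900050008000b000e0006) (nat_lit 0x8108008106400) (nat_lit 16) Lb.e (@T16.mk En
    (@En.n l8357 (nat_lit 982) (nat_lit 8) (nat_lit 6))
    (@En.n l10131 (nat_lit 2991) (nat_lit 4) (nat_lit 14))
    (@En.i (nat_lit 296) (nat_lit 2) (nat_lit 11))
    (@En.n l12468 (nat_lit 1011) (nat_lit 10) (nat_lit 8))
    (@En.n l22385 (nat_lit 8382) (nat_lit 4) (nat_lit 5))
    (@En.i (nat_lit 462) (nat_lit 5) (nat_lit 9))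
    (@En.n l14412 (nat_lit 11957) (nat_lit 7) (nat_lit 10))
    (@En.n l11 (nat_lit 1047) (nat_lit 7) (nat_lit 3))
    (@En.n l22386 (nat_lit 614) (nat_lit 8) (nat_lit 4))
    (@En.n l55 (nat_lit 987) (nat_lit 10) (nat_lit 11))
    (@En.n l4750 (nat_lit 1132) (nat_lit 11) (nat_lit 13))
    (@En.n l3651 (nat_lit 979) (nat_lit 12) (nat_lit 8))
    (@En.n l12468 (nat_lit 7529) (nat_lit 13) (nat_lit 12))
    (@En.n l699 (nat_lit 1033) (nat_lit 14) (nat_lit 5))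
    (@En.n l17 (nat_lit 1034) (nat_lit 6) (nat_lit 7))
    (@En.n l18 (nat_lit 1032) (nat_lit 15) (nat_lit 2))))
  (@Cl.mk (nat_lit 0x20005000c0008000d000b000400030009000c00050008000b0004000e0007) (nat_lit 0x80090000014010) (nat_lit 16) Lb.e (@T16.mk En
    (@En.i (nat_lit 1034) (nat_lit 7) (nat_lit 7))
    (@En.n l5 (nat_lit 1032) (nat_lit 1) (nat_lit 14))
    (@En.i (nat_lit 5091) (nat_lit 2) (nat_lit 4))
    (@En.i (nat_lit 295) (nat_lit 3) (nat_lit 11))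
    (@En.n l919 (nat_lit 1012) (nat_lit 10) (nat_lit 8))
    (@En.i (nat_lit 8383) (nat_lit 5) (nat_lit 5))
    (@En.i (nat_lit 13674) (nat_lit 6) (nat_lit 12))
    (@En.n l287 (nat_lit 11955) (nat_lit 8) (nat_lit 9))
    (@En.n l11 (nat_lit 1035) (nat_lit 8) (nat_lit 3))
    (@En.i (nat_lit 619) (nat_lit 9) (nat_lit 4))
    (@En.n l55 (nat_lit 1036) (nat_lit 11) (nat_lit 11))
    (@En.n l4750 (nat_lit 1172) (nat_lit 12) (nat_lit 13))
    (@En.n l5042 (nat_lit 1037) (nat_lit 13) (nat_lit 8))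
    (@En.i (nat_lit 6815) (nat_lit 14) (nat_lit 12))
    (@En.i (nat_lit 915) (nat_lit 13) (nat_lit 5))
    (@En.n l17 (nat_lit 1033) (nat_lit 15) (nat_lit 2))))
  (@Cl.mk (nat_lit 0x300090009000c00060009000c0004000700070004000c0007000d000a0004) (nat_lit 0x11014000070080) (nat_lit 16) Lb.e (@T16.mk En
    (@En.n l8461 (nat_lit 620) (nat_lit 0) (nat_lit 4))
    (@En.n l55 (nat_lit 1043) (nat_lit 0) (nat_lit 10))
    (@En.n l4750 (nat_lit 1128) (nat_lit 1) (nat_lit 13))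
    (@En.n l5042 (nat_lit 1044) (nat_lit 3) (nat_lit 7))
    (@En.n l8462 (nat_lit 6814) (nat_lit 12) (nat_lit 12))
    (@En.n l2179 (nat_lit 373) (nat_lit 5) (nat_lit 4))
    (@En.n l2139 (nat_lit 1183) (nat_lit 9) (nat_lit 7))
    (@En.n l2180 (nat_lit 1092) (nat_lit 11) (nat_lit 7))
    (@En.n l8463 (nat_lit 5090) (nat_lit 8) (nat_lit 4))
    (@En.i (nat_lit 297) (nat_lit 6) (nat_lit 12))
    (@En.n l8464 (nat_lit 1010) (nat_lit 9) (nat_lit 9))
    (@En.n l8465 (nat_lit 8386) (nat_lit 12) (nat_lit 6))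
    (@En.n l18 (nat_lit 1033) (nat_lit 6) (nat_lit 12))
    (@En.n l61 (nat_lit 1033) (nat_lit 7) (nat_lit 9))
    (@En.n l287 (nat_lit 11956) (nat_lit 5) (nat_lit 9))
    (@En.n l11 (nat_lit 1039) (nat_lit 15) (nat_lit 3))))
  (@Cl.mk (nat_lit 0x20005000d0008000d0003000c00030009000c00040008000b0004000e0007) (nat_lit 0x7000014000) (nat_lit 16) Lb.e (@T16.mk En
    (@En.i (nat_lit 1039) (nat_lit 7) (nat_lit 7))
    (@En.n l5 (nat_lit 1047) (nat_lit 1) (nat_lit 14))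
    (@En.i (nat_lit 5046) (nat_lit 2) (nat_lit 4))
    (@En.i (nat_lit 1064) (nat_lit 3) (nat_lit 11))
    (@En.n l253 (nat_lit 215) (nat_lit 4) (nat_lit 8))
    (@En.i (nat_lit 6207) (nat_lit 5) (nat_lit 4))
    (@En.i (nat_lit 13057) (nat_lit 6) (nat_lit 12))
    (@En.n l2571 (nat_lit 9661) (nat_lit 8) (nat_lit 9))
    (@En.i (nat_lit 1033) (nat_lit 8) (nat_lit 3))
    (@En.n l253 (nat_lit 4881) (nat_lit 10) (nat_lit 12))
    (@En.n l117 (nat_lit 1038) (nat_lit 10) (nat_lit 3))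
    (@En.n l513 (nat_lit 1186) (nat_lit 12) (nat_lit 13))
    (@En.i (nat_lit 1040) (nat_lit 13) (nat_lit 8))
    (@En.i (nat_lit 6725) (nat_lit 14) (nat_lit 13))
    (@En.i (nat_lit 911) (nat_lit 13) (nat_lit 5))
    (@En.n l17 (nat_lit 1035) (nat_lit 15) (nat_lit 2))))
  (@Cl.mk (nat_lit 0x20005000d0008000b0003000c0008000b000500040008000b0005000e0008) (nat_lit 0x805000025016) (nat_lit 16) Lb.e (@T16.mk En
    (@En.i (nat_lit 1043) (nat_lit 5) (nat_lit 8))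
    (@En.n l5 (nat_lit 987) (nat_lit 1) (nat_lit 14))
    (@En.i (nat_lit 5085) (nat_lit 2) (nat_lit 5))
    (@En.i (nat_lit 1186) (nat_lit 3) (nat_lit 11))
    (@En.n l343 (nat_lit 1033) (nat_lit 4) (nat_lit 8))
    (@En.n l28 (nat_lit 1035) (nat_lit 5) (nat_lit 4))
    (@En.i (nat_lit 8227) (nat_lit 6) (nat_lit 5))
    (@En.i (nat_lit 13054) (nat_lit 7) (nat_lit 11))
    (@En.n l890 (nat_lit 10506) (nat_lit 9) (nat_lit 8))
    (@En.n l253 (nat_lit 4916) (nat_lit 10) (nat_lit 12))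
    (@En.n l117 (nat_lit 1175) (nat_lit 10) (nat_lit 3))
    (@En.n l513 (nat_lit 1190) (nat_lit 12) (nat_lit 11))
    (@En.i (nat_lit 1045) (nat_lit 13) (nat_lit 8))
    (@En.i (nat_lit 6817) (nat_lit 14) (nat_lit 13))
    (@En.i (nat_lit 917) (nat_lit 13) (nat_lit 5))
    (@En.n l17 (nat_lit 1036) (nat_lit 15) (nat_lit 2))))
  (@Cl.mk (nat_lit 0x200050008000d000b000a00030008000b000500080006000b0005000e0008) (nat_lit 0x60000000005016) (nat_lit 16) Lb.e (@T16.mk En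
    (@En.i (nat_lit 1044) (nat_lit 6) (nat_lit 8))
    (@En.n l20930 (nat_lit 979) (nat_lit 1) (nat_lit 14))
    (@En.n l8714 (nat_lit 5079) (nat_lit 2) (nat_lit 5))
    (@En.n l3333 (nat_lit 1033) (nat_lit 3) (nat_lit 11))
    (@En.n l3333 (nat_lit 1258) (nat_lit 4) (nat_lit 6))
    (@En.n l5588 (nat_lit 1058) (nat_lit 5) (nat_lit 8))
    (@En.n l5390 (nat_lit 8384) (nat_lit 6) (nat_lit 5))
    (@En.n l19836 (nat_lit 13658) (nat_lit 7) (nat_lit 11))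
    (@En.i (nat_lit 11863) (nat_lit 9) (nat_lit 8))
    (@En.n l20049 (nat_lit 1040) (nat_lit 9) (nat_lit 3))
    (@En.n l16911 (nat_lit 1425) (nat_lit 11) (nat_lit 10))
    (@En.n l23098 (nat_lit 1045) (nat_lit 12) (nat_lit 11))
    (@En.n l4813 (nat_lit 1175) (nat_lit 13) (nat_lit 13))
    (@En.n l226 (nat_lit 6508) (nat_lit 10) (nat_lit 8))
    (@En.i (nat_lit 919) (nat_lit 13) (nat_lit 5))
    (@En.n l50 (nat_lit 1037) (nat_lit 15) (nat_lit 2))))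
  (@Cl.mk (nat_lit 0x20005000d000c00090003000c00040009000c00040007000b0004000e0007) (nat_lit 0x9007000004000) (nat_lit 16) Lb.e (@T16.mk En
    (@En.i (nat_lit 1042) (nat_lit 5) (nat_lit 7))
    (@En.n l5 (nat_lit 1048) (nat_lit 1) (nat_lit 14))
    (@En.i (nat_lit 5048) (nat_lit 2) (nat_lit 4))
    (@En.i (nat_lit 1063) (nat_lit 3) (nat_lit 11))
    (@En.n l1897 (nat_lit 1075) (nat_lit 11) (nat_lit 7))
    (@En.i (nat_lit 6208) (nat_lit 5) (nat_lit 4))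
    (@En.i (nat_lit 13676) (nat_lit 6) (nat_lit 12))
    (@En.n l1897 (nat_lit 9665) (nat_lit 1) (nat_lit 9))
    (@En.i (nat_lit 1258) (nat_lit 8) (nat_lit 4))
    (@En.n l1690 (nat_lit 1040) (nat_lit 10) (nat_lit 12))
    (@En.n l152 (nat_lit 1035) (nat_lit 10) (nat_lit 3))
    (@En.i (nat_lit 1586) (nat_lit 12) (nat_lit 9))
    (@En.n l619 (nat_lit 1033) (nat_lit 13) (nat_lit 12))
    (@En.n l888 (nat_lit 6722) (nat_lit 14) (nat_lit 13))
    (@En.i (nat_lit 909) (nat_lit 13) (nat_lit 5))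
    (@En.n l17 (nat_lit 1038) (nat_lit 15) (nat_lit 2))))
  (@Cl.mk (nat_lit 0x300090009000c00050009000c0004000700070004000d0007000d0003000b) (nat_lit 0x11015000000007) (nat_lit 16) Lb.e (@T16.mk En
    (@En.n l253 (nat_lit 4876) (nat_lit 0) (nat_lit 11))
    (@En.n l117 (nat_lit 1042) (nat_lit 15) (nat_lit 3))
    (@En.n l513 (nat_lit 1127) (nat_lit 0) (nat_lit 13))
    (@En.i (nat_lit 1041) (nat_lit 3) (nat_lit 7))
    (@En.i (nat_lit 6727) (nat_lit 2) (nat_lit 13))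
    (@En.n l2179 (nat_lit 369) (nat_lit 5) (nat_lit 4))
    (@En.n l2139 (nat_lit 1185) (nat_lit 9) (nat_lit 7))
    (@En.n l2180 (nat_lit 1090) (nat_lit 11) (nat_lit 7))
    (@En.n l15357 (nat_lit 5047) (nat_lit 8) (nat_lit 4))
    (@En.i (nat_lit 1065) (nat_lit 6) (nat_lit 12))
    (@En.n l253 (nat_lit 216) (nat_lit 10) (nat_lit 9))
    (@En.n l14146 (nat_lit 6811) (nat_lit 9) (nat_lit 5))
    (@En.n l18 (nat_lit 1035) (nat_lit 6) (nat_lit 12))
    (@En.n l61 (nat_lit 1035) (nat_lit 7) (nat_lit 9))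
    (@En.n l2571 (nat_lit 9663) (nat_lit 13) (nat_lit 9))
    (@En.i (nat_lit 1034) (nat_lit 15) (nat_lit 3))))
noncomputable def a65 : T16 Cl := @T16.mk Cl
  (@Cl.mk (nat_lit 0x200050008000d0009000c00030008000b000400080007000b0005000e0008) (nat_lit 0x61060000005006) (nat_lit 16) Lb.e (@T16.mk En
    (@En.i (nat_lit 1041) (nat_lit 6) (nat_lit 8))
    (@En.n l5 (nat_lit 1046) (nat_lit 1) (nat_lit 14))
    (@En.i (nat_lit 5045) (nat_lit 2) (nat_lit 5))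
    (@En.n l3 (nat_lit 1035) (nat_lit 3) (nat_lit 11))
    (@En.n l3 (nat_lit 1038) (nat_lit 4) (nat_lit 7))
    (@En.n l3549 (nat_lit 1053) (nat_lit 5) (nat_lit 8))
    (@En.i (nat_lit 6209) (nat_lit 6) (nat_lit 4))
    (@En.i (nat_lit 13056) (nat_lit 7) (nat_lit 11))
    (@En.n l5032 (nat_lit 9664) (nat_lit 9) (nat_lit 8))
    (@En.n l5042 (nat_lit 1037) (nat_lit 9) (nat_lit 3))
    (@En.n l12671 (nat_lit 4924) (nat_lit 11) (nat_lit 12))
    (@En.i (nat_lit 1585) (nat_lit 12) (nat_lit 9))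
    (@En.n l5251 (nat_lit 1036) (nat_lit 13) (nat_lit 13))
    (@En.i (nat_lit 6510) (nat_lit 10) (nat_lit 8))
    (@En.i (nat_lit 913) (nat_lit 13) (nat_lit 5))
    (@En.n l17 (nat_lit 1040) (nat_lit 15) (nat_lit 2))))
  (@Cl.mk (nat_lit 0x300080008000b000500090008000c00050008000800040007000d0008000b) (nat_lit 0x11000605000005) (nat_lit 16) Lb.e (@T16.mk En
    (@En.n l30001 (nat_lit 4880) (nat_lit 0) (nat_lit 11))
    (@En.i (nat_lit 1580) (nat_lit 13) (nat_lit 8))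
    (@En.n l5251 (nat_lit 1043) (nat_lit 2) (nat_lit 13))
    (@En.n l28509 (nat_lit 6511) (nat_lit 11) (nat_lit 7))
    (@En.n l2179 (nat_lit 371) (nat_lit 4) (nat_lit 4))
    (@En.n l2139 (nat_lit 1182) (nat_lit 8) (nat_lit 8))
    (@En.n l2180 (nat_lit 1091) (nat_lit 10) (nat_lit 8))
    (@En.n l15357 (nat_lit 5044) (nat_lit 7) (nat_lit 5))
    (@En.n l3 (nat_lit 1039) (nat_lit 9) (nat_lit 12))
    (@En.n l3 (nat_lit 1042) (nat_lit 8) (nat_lit 8))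
    (@En.n l3549 (nat_lit 1055) (nat_lit 10) (nat_lit 9))
    (@En.n l30002 (nat_lit 6812) (nat_lit 6) (nat_lit 5))
    (@En.n l18 (nat_lit 1040) (nat_lit 7) (nat_lit 11))
    (@En.n l61 (nat_lit 1040) (nat_lit 8) (nat_lit 8))
    (@En.n l5032 (nat_lit 6281) (nat_lit 2) (nat_lit 8))
    (@En.n l5042 (nat_lit 1044) (nat_lit 15) (nat_lit 3))))
  (@Cl.mk (nat_lit 0x3000b000400090009000c00050008000c0004000700070004000d000c0008) (nat_lit 0x600110650000080) (nat_lit 16) Lb.e (@T16.mk En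
    (@En.i (nat_lit 1582) (nat_lit 0) (nat_lit 8))
    (@En.n l619 (nat_lit 1034) (nat_lit 4) (nat_lit 12))
    (@En.n l15612 (nat_lit 6726) (nat_lit 2) (nat_lit 13))
    (@En.n l2179 (nat_lit 367) (nat_lit 3) (nat_lit 4))
    (@En.n l2139 (nat_lit 1184) (nat_lit 9) (nat_lit 7))
    (@En.n l2180 (nat_lit 1089) (nat_lit 11) (nat_lit 7))
    (@En.i (nat_lit 5049) (nat_lit 6) (nat_lit 4))
    (@En.i (nat_lit 1060) (nat_lit 7) (nat_lit 12))
    (@En.n l1897 (nat_lit 1076) (nat_lit 10) (nat_lit 8))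
    (@En.i (nat_lit 6813) (nat_lit 9) (nat_lit 5))
    (@En.n l18 (nat_lit 1038) (nat_lit 6) (nat_lit 12))
    (@En.n l61 (nat_lit 1038) (nat_lit 7) (nat_lit 9))
    (@En.n l1897 (nat_lit 9667) (nat_lit 13) (nat_lit 9))
    (@En.i (nat_lit 1254) (nat_lit 14) (nat_lit 4))
    (@En.n l1690 (nat_lit 1041) (nat_lit 0) (nat_lit 11))
    (@En.n l152 (nat_lit 1039) (nat_lit 1) (nat_lit 3))))
  (@Cl.mk (nat_lit 0x3000b00080008000b000600050009000c0005000800080004000d0007000a) (nat_lit 0x501100250560b07) (nat_lit 16) Lb.e (@T16.mk En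
    (@En.n l513 (nat_lit 1191) (nat_lit 0) (nat_lit 10))
    (@En.n l20042 (nat_lit 1177) (nat_lit 14) (nat_lit 7))
    (@En.i (nat_lit 6816) (nat_lit 2) (nat_lit 13))
    (@En.n l12666 (nat_lit 1301) (nat_lit 3) (nat_lit 4))
    (@En.n l15402 (nat_lit 1180) (nat_lit 8) (nat_lit 8))
    (@En.n l15403 (nat_lit 1093) (nat_lit 10) (nat_lit 8))
    (@En.n l20043 (nat_lit 5084) (nat_lit 6) (nat_lit 5))
    (@En.i (nat_lit 1127) (nat_lit 6) (nat_lit 12))
    (@En.n l343 (nat_lit 1034) (nat_lit 10) (nat_lit 9))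
    (@En.n l28 (nat_lit 1039) (nat_lit 11) (nat_lit 5))
    (@En.i (nat_lit 8400) (nat_lit 0) (nat_lit 6))
    (@En.n l18 (nat_lit 1036) (nat_lit 7) (nat_lit 11))
    (@En.n l61 (nat_lit 1036) (nat_lit 8) (nat_lit 8))
    (@En.n l3724 (nat_lit 9920) (nat_lit 14) (nat_lit 8))
    (@En.n l20044 (nat_lit 4919) (nat_lit 11) (nat_lit 11))
    (@En.n l117 (nat_lit 1176) (nat_lit 15) (nat_lit 3))))
  (@Cl.mk (nat_lit 0x300080008000b000600090007000c00050008000800040007000d000a0009) (nat_lit 0x11000505600000) (nat_lit 16) Lb.e (@T16.mk En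
    (@En.n l20045 (nat_lit 1426) (nat_lit 0) (nat_lit 9))
    (@En.n l20046 (nat_lit 1177) (nat_lit 13) (nat_lit 10))
    (@En.n l4813 (nat_lit 1176) (nat_lit 2) (nat_lit 13))
    (@En.n l226 (nat_lit 6509) (nat_lit 11) (nat_lit 7))
    (@En.n l9413 (nat_lit 977) (nat_lit 4) (nat_lit 4))
    (@En.n l20047 (nat_lit 1181) (nat_lit 8) (nat_lit 8))
    (@En.n l9414 (nat_lit 1094) (nat_lit 10) (nat_lit 8))
    (@En.n l12197 (nat_lit 5078) (nat_lit 7) (nat_lit 5))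
    (@En.n l3333 (nat_lit 1034) (nat_lit 9) (nat_lit 12))
    (@En.n l3333 (nat_lit 1254) (nat_lit 9) (nat_lit 7))
    (@En.n l5588 (nat_lit 1059) (nat_lit 9) (nat_lit 9))
    (@En.n l20048 (nat_lit 8387) (nat_lit 6) (nat_lit 6))
    (@En.n l7 (nat_lit 1037) (nat_lit 7) (nat_lit 11))
    (@En.n l644 (nat_lit 1037) (nat_lit 8) (nat_lit 8))
    (@En.i (nat_lit 9921) (nat_lit 12) (nat_lit 8))
    (@En.n l20049 (nat_lit 1041) (nat_lit 15) (nat_lit 3))))
  (@Cl.mk (nat_lit 0x200050008000b0009000c0007000a0005000400080007000b0006000e0009) (nat_lit 0x69040000106017) (nat_lit 16) Lb.e (@T16.mk En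
    (@En.n l20042 (nat_lit 1177) (nat_lit 1) (nat_lit 9))
    (@En.n l23604 (nat_lit 986) (nat_lit 1) (nat_lit 14))
    (@En.n l13388 (nat_lit 5080) (nat_lit 2) (nat_lit 6))
    (@En.n l3 (nat_lit 1036) (nat_lit 3) (nat_lit 11))
    (@En.n l3 (nat_lit 1175) (nat_lit 4) (nat_lit 7))
    (@En.n l23605 (nat_lit 1037) (nat_lit 5) (nat_lit 8))
    (@En.n l28 (nat_lit 1040) (nat_lit 6) (nat_lit 4))
    (@En.n l23606 (nat_lit 8396) (nat_lit 7) (nat_lit 5))
    (@En.i (nat_lit 13055) (nat_lit 8) (nat_lit 10))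
    (@En.n l13368 (nat_lit 10508) (nat_lit 10) (nat_lit 7))
    (@En.n l5236 (nat_lit 4920) (nat_lit 11) (nat_lit 12))
    (@En.n l23607 (nat_lit 1404) (nat_lit 12) (nat_lit 9))
    (@En.n l5236 (nat_lit 1471) (nat_lit 13) (nat_lit 11))
    (@En.n l5252 (nat_lit 6507) (nat_lit 10) (nat_lit 8))
    (@En.n l5236 (nat_lit 1302) (nat_lit 13) (nat_lit 5))
    (@En.n l17 (nat_lit 1045) (nat_lit 15) (nat_lit 2))))
  (@Cl.mk (nat_lit 0x2000800050008000d0009000c000300090008000400080007000b000e0007) (nat_lit 0x1001190710005c0) (nat_lit 16) Lb.e (@T16.mk En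
    (@En.n l8357 (nat_lit 981) (nat_lit 7) (nat_lit 7))
    (@En.n l10131 (nat_lit 3137) (nat_lit 4) (nat_lit 14))
    (@En.n l3 (nat_lit 1047) (nat_lit 2) (nat_lit 11))
    (@En.n l3 (nat_lit 1048) (nat_lit 3) (nat_lit 7))
    (@En.n l17487 (nat_lit 1051) (nat_lit 4) (nat_lit 8))
    (@En.n l18036 (nat_lit 6210) (nat_lit 5) (nat_lit 4))
    (@En.i (nat_lit 483) (nat_lit 6) (nat_lit 8))
    (@En.n l18037 (nat_lit 9669) (nat_lit 1) (nat_lit 9))
    (@En.n l3651 (nat_lit 979) (nat_lit 8) (nat_lit 3))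
    (@En.n l17472 (nat_lit 4914) (nat_lit 0) (nat_lit 12))
    (@En.n l17488 (nat_lit 494) (nat_lit 11) (nat_lit 9))
    (@En.n l5251 (nat_lit 987) (nat_lit 12) (nat_lit 13))
    (@En.n l17489 (nat_lit 6500) (nat_lit 13) (nat_lit 8))
    (@En.n l699 (nat_lit 1040) (nat_lit 14) (nat_lit 5))
    (@En.n l17 (nat_lit 1041) (nat_lit 5) (nat_lit 8))
    (@En.n l18 (nat_lit 1046) (nat_lit 15) (nat_lit 2))))
  (@Cl.mk (nat_lit 0x200070005000d0008000d0003000c0003000a000900040008000b000e0006) (nat_lit 0x100a001014c0) (nat_lit 16) Lb.e (@T16.mk En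
    (@En.n l8357 (nat_lit 1049) (nat_lit 8) (nat_lit 6))
    (@En.n l10131 (nat_lit 3140) (nat_lit 4) (nat_lit 14))
    (@En.i (nat_lit 307) (nat_lit 2) (nat_lit 11))
    (@En.n l253 (nat_lit 217) (nat_lit 3) (nat_lit 8))
    (@En.i (nat_lit 6205) (nat_lit 4) (nat_lit 4))
    (@En.i (nat_lit 468) (nat_lit 5) (nat_lit 9))
    (@En.n l17500 (nat_lit 9662) (nat_lit 1) (nat_lit 10))
    (@En.i (nat_lit 1032) (nat_lit 7) (nat_lit 3))
    (@En.n l22246 (nat_lit 4910) (nat_lit 9) (nat_lit 12))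
    (@En.n l117 (nat_lit 1048) (nat_lit 9) (nat_lit 3))
    (@En.n l513 (nat_lit 1136) (nat_lit 11) (nat_lit 13))
    (@En.i (nat_lit 1046) (nat_lit 12) (nat_lit 8))
    (@En.i (nat_lit 6306) (nat_lit 13) (nat_lit 13))
    (@En.n l699 (nat_lit 1035) (nat_lit 14) (nat_lit 5))
    (@En.n l17 (nat_lit 1039) (nat_lit 6) (nat_lit 7))
    (@En.n l18 (nat_lit 1047) (nat_lit 15) (nat_lit 2))))
  (@Cl.mk (nat_lit 0x200070005000d000c00090003000c0004000a000900040007000b000e0006) (nat_lit 0x920a001004c0) (nat_lit 16) Lb.e (@T16.mk En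
    (@En.n l8357 (nat_lit 1050) (nat_lit 6) (nat_lit 6))
    (@En.n l33825 (nat_lit 3139) (nat_lit 4) (nat_lit 14))
    (@En.i (nat_lit 308) (nat_lit 2) (nat_lit 11))
    (@En.n l33826 (nat_lit 1074) (nat_lit 11) (nat_lit 7))
    (@En.n l33827 (nat_lit 6206) (nat_lit 4) (nat_lit 4))
    (@En.i (nat_lit 473) (nat_lit 5) (nat_lit 9))
    (@En.n l18041 (nat_lit 9668) (nat_lit 1) (nat_lit 10))
    (@En.n l14808 (nat_lit 1257) (nat_lit 7) (nat_lit 4))
    (@En.n l1690 (nat_lit 1046) (nat_lit 9) (nat_lit 12))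
    (@En.n l152 (nat_lit 1047) (nat_lit 9) (nat_lit 3))
    (@En.n l3082 (nat_lit 496) (nat_lit 11) (nat_lit 9))
    (@En.n l619 (nat_lit 1032) (nat_lit 12) (nat_lit 12))
    (@En.n l18040 (nat_lit 6304) (nat_lit 13) (nat_lit 13))
    (@En.n l699 (nat_lit 1038) (nat_lit 14) (nat_lit 5))
    (@En.n l17 (nat_lit 1042) (nat_lit 4) (nat_lit 7))
    (@En.n l18 (nat_lit 1048) (nat_lit 15) (nat_lit 2))))
  (@Cl.mk (nat_lit 0x3000a000a000a00050009000c0006000600060004000d0007000d0003000b) (nat_lit 0x120120000a0009) (nat_lit 16) Lb.e (@T16.mk En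
    (@En.n l27889 (nat_lit 4875) (nat_lit 0) (nat_lit 11))
    (@En.n l117 (nat_lit 1050) (nat_lit 15) (nat_lit 3))
    (@En.n l625 (nat_lit 1129) (nat_lit 0) (nat_lit 13))
    (@En.i (nat_lit 981) (nat_lit 3) (nat_lit 7))
    (@En.n l22071 (nat_lit 6301) (nat_lit 2) (nat_lit 13))
    (@En.n l817 (nat_lit 1039) (nat_lit 5) (nat_lit 4))
    (@En.n l601 (nat_lit 1090) (nat_lit 10) (nat_lit 6))
    (@En.n l77 (nat_lit 1548) (nat_lit 10) (nat_lit 6))
    (@En.n l20605 (nat_lit 3119) (nat_lit 6) (nat_lit 6))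
    (@En.i (nat_lit 305) (nat_lit 6) (nat_lit 12))
    (@En.n l253 (nat_lit 348) (nat_lit 10) (nat_lit 9))
    (@En.n l20607 (nat_lit 8803) (nat_lit 9) (nat_lit 5))
    (@En.n l397 (nat_lit 912) (nat_lit 6) (nat_lit 10))
    (@En.n l5670 (nat_lit 1047) (nat_lit 6) (nat_lit 10))
    (@En.i (nat_lit 6278) (nat_lit 13) (nat_lit 10))
    (@En.i (nat_lit 982) (nat_lit 15) (nat_lit 3))))
  (@Cl.mk (nat_lit 0x3000b0004000a000a000a00050008000c0006000600060004000d000c0008) (nat_lit 0x900120620000b80) (nat_lit 16) Lb.e (@T16.mk En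
    (@En.i (nat_lit 1590) (nat_lit 0) (nat_lit 8))
    (@En.n l619 (nat_lit 982) (nat_lit 4) (nat_lit 12))
    (@En.n l25924 (nat_lit 6299) (nat_lit 2) (nat_lit 13))
    (@En.n l817 (nat_lit 1042) (nat_lit 3) (nat_lit 4))
    (@En.n l601 (nat_lit 1089) (nat_lit 10) (nat_lit 6))
    (@En.n l77 (nat_lit 1549) (nat_lit 10) (nat_lit 6))
    (@En.n l8134 (nat_lit 3124) (nat_lit 6) (nat_lit 6))
    (@En.i (nat_lit 306) (nat_lit 7) (nat_lit 12))
    (@En.n l3531 (nat_lit 1079) (nat_lit 10) (nat_lit 8))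
    (@En.n l217 (nat_lit 8802) (nat_lit 9) (nat_lit 5))
    (@En.n l397 (nat_lit 910) (nat_lit 6) (nat_lit 10))
    (@En.n l5670 (nat_lit 1048) (nat_lit 6) (nat_lit 10))
    (@En.n l20628 (nat_lit 6279) (nat_lit 13) (nat_lit 10))
    (@En.i (nat_lit 1256) (nat_lit 14) (nat_lit 4))
    (@En.n l1690 (nat_lit 981) (nat_lit 0) (nat_lit 11))
    (@En.n l152 (nat_lit 1049) (nat_lit 1) (nat_lit 3))))
  (@Cl.mk (nat_lit 0x2000700050008000d000d000a00030003000a000900080006000b000e0006) (nat_lit 0x6122008160430) (nat_lit 16) Lb.e (@T16.mk En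
    (@En.n l14017 (nat_lit 337) (nat_lit 7) (nat_lit 6))
    (@En.n l3306 (nat_lit 3275) (nat_lit 4) (nat_lit 14))
    (@En.n l3749 (nat_lit 217) (nat_lit 2) (nat_lit 11))
    (@En.n l3219 (nat_lit 291) (nat_lit 3) (nat_lit 6))
    (@En.n l3306 (nat_lit 7308) (nat_lit 4) (nat_lit 8))
    (@En.i (nat_lit 557) (nat_lit 5) (nat_lit 9))
    (@En.n l19834 (nat_lit 11760) (nat_lit 7) (nat_lit 10))
    (@En.n l18 (nat_lit 1054) (nat_lit 7) (nat_lit 3))
    (@En.n l8131 (nat_lit 1052) (nat_lit 8) (nat_lit 3))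
    (@En.n l19835 (nat_lit 1564) (nat_lit 10) (nat_lit 10))
    (@En.n l8124 (nat_lit 1052) (nat_lit 11) (nat_lit 13))
    (@En.n l3749 (nat_lit 1048) (nat_lit 12) (nat_lit 13))
    (@En.n l1643 (nat_lit 1893) (nat_lit 13) (nat_lit 8))
    (@En.n l4492 (nat_lit 1053) (nat_lit 14) (nat_lit 5))
    (@En.n l15826 (nat_lit 1055) (nat_lit 5) (nat_lit 7))
    (@En.n l107 (nat_lit 1051) (nat_lit 15) (nat_lit 2))))
  (@Cl.mk (nat_lit 0x2000700050008000d0009000e00030002000a000900080007000b000e0006) (nat_lit 0x6100008100430) (nat_lit 16) Lb.e (@T16.mk En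
    (@En.n l13254 (nat_lit 344) (nat_lit 8) (nat_lit 6))
    (@En.n l1643 (nat_lit 3286) (nat_lit 4) (nat_lit 14))
    (@En.n l3 (nat_lit 214) (nat_lit 2) (nat_lit 11))
    (@En.n l527 (nat_lit 290) (nat_lit 3) (nat_lit 7))
    (@En.n l6414 (nat_lit 7307) (nat_lit 13) (nat_lit 8))
    (@En.n l26913 (nat_lit 571) (nat_lit 5) (nat_lit 9))
    (@En.n l26097 (nat_lit 11279) (nat_lit 7) (nat_lit 10))
    (@En.n l28 (nat_lit 1052) (nat_lit 7) (nat_lit 2))
    (@En.n l2774 (nat_lit 1051) (nat_lit 8) (nat_lit 3))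
    (@En.n l13184 (nat_lit 13618) (nat_lit 0) (nat_lit 14))
    (@En.n l6414 (nat_lit 1562) (nat_lit 11) (nat_lit 9))
    (@En.n l26913 (nat_lit 1047) (nat_lit 12) (nat_lit 13))
    (@En.n l26914 (nat_lit 1892) (nat_lit 13) (nat_lit 8))
    (@En.n l13685 (nat_lit 1056) (nat_lit 14) (nat_lit 5))
    (@En.n l26914 (nat_lit 1057) (nat_lit 6) (nat_lit 7))
    (@En.n l18 (nat_lit 1052) (nat_lit 15) (nat_lit 2))))
  (@Cl.mk (nat_lit 0x200050008000d000d000a000300030009000c00080006000b0004000e0007) (nat_lit 0x61200000604040) (nat_lit 16) Lb.e (@T16.mk En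
    (@En.i (nat_lit 1055) (nat_lit 6) (nat_lit 7))
    (@En.n l14683 (nat_lit 1051) (nat_lit 1) (nat_lit 14))
    (@En.n l1592 (nat_lit 4155) (nat_lit 2) (nat_lit 4))
    (@En.n l1596 (nat_lit 215) (nat_lit 3) (nat_lit 11))
    (@En.i (nat_lit 292) (nat_lit 4) (nat_lit 6))
    (@En.n l1448 (nat_lit 7310) (nat_lit 5) (nat_lit 8))
    (@En.i (nat_lit 13656) (nat_lit 6) (nat_lit 12))
    (@En.n l5579 (nat_lit 11758) (nat_lit 8) (nat_lit 9))
    (@En.n l6303 (nat_lit 1058) (nat_lit 8) (nat_lit 3))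
    (@En.n l10020 (nat_lit 1056) (nat_lit 9) (nat_lit 3))
    (@En.n l55 (nat_lit 1556) (nat_lit 11) (nat_lit 10))
    (@En.n l14684 (nat_lit 1056) (nat_lit 12) (nat_lit 13))
    (@En.n l1596 (nat_lit 1038) (nat_lit 13) (nat_lit 13))
    (@En.n l11726 (nat_lit 1269) (nat_lit 10) (nat_lit 8))
    (@En.i (nat_lit 336) (nat_lit 13) (nat_lit 5))
    (@En.n l17 (nat_lit 1053) (nat_lit 15) (nat_lit 2))))
  (@Cl.mk (nat_lit 0x2000700050008000e000d0002000b0003000a000900080005000b000e0006) (nat_lit 0x6b20208160280) (nat_lit 16) Lb.e (@T16.mk En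
    (@En.n l11328 (nat_lit 345) (nat_lit 6) (nat_lit 6))
    (@En.n l4684 (nat_lit 3287) (nat_lit 4) (nat_lit 14))
    (@En.n l170 (nat_lit 1011) (nat_lit 9) (nat_lit 11))
    (@En.n l3219 (nat_lit 1027) (nat_lit 3) (nat_lit 5))
    (@En.i (nat_lit 7311) (nat_lit 11) (nat_lit 8))
    (@En.i (nat_lit 553) (nat_lit 5) (nat_lit 9))
    (@En.n l11329 (nat_lit 12171) (nat_lit 13) (nat_lit 10))
    (@En.i (nat_lit 1051) (nat_lit 7) (nat_lit 3))
    (@En.i (nat_lit 953) (nat_lit 9) (nat_lit 11))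
    (@En.n l50 (nat_lit 1054) (nat_lit 9) (nat_lit 2))
    (@En.n l396 (nat_lit 1051) (nat_lit 11) (nat_lit 13))
    (@En.n l4316 (nat_lit 1259) (nat_lit 12) (nat_lit 14))
    (@En.n l1643 (nat_lit 1899) (nat_lit 13) (nat_lit 8))
    (@En.n l159 (nat_lit 1058) (nat_lit 14) (nat_lit 5))
    (@En.n l11 (nat_lit 1059) (nat_lit 4) (nat_lit 7))
    (@En.n l107 (nat_lit 1054) (nat_lit 15) (nat_lit 2))))
  (@Cl.mk (nat_lit 0x3000300090009000c00090007000c00040007000700040007000d000d0009) (nat_lit 0x1170500000120) (nat_lit 16) Lb.e (@T16.mk En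
    (@En.n l55 (nat_lit 1565) (nat_lit 0) (nat_lit 9))
    (@En.n l6297 (nat_lit 1057) (nat_lit 3) (nat_lit 13))
    (@En.n l1596 (nat_lit 1042) (nat_lit 2) (nat_lit 13))
    (@En.n l6298 (nat_lit 1352) (nat_lit 11) (nat_lit 7))
    (@En.n l6299 (nat_lit 338) (nat_lit 4) (nat_lit 4))
    (@En.n l6300 (nat_lit 1112) (nat_lit 9) (nat_lit 7))
    (@En.n l2180 (nat_lit 353) (nat_lit 11) (nat_lit 7))
    (@En.n l6301 (nat_lit 3676) (nat_lit 7) (nat_lit 4))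
    (@En.n l1596 (nat_lit 216) (nat_lit 9) (nat_lit 12))
    (@En.i (nat_lit 293) (nat_lit 1) (nat_lit 7))
    (@En.n l6302 (nat_lit 7314) (nat_lit 11) (nat_lit 9))
    (@En.n l18 (nat_lit 1053) (nat_lit 6) (nat_lit 12))
    (@En.n l61 (nat_lit 1053) (nat_lit 7) (nat_lit 9))
    (@En.n l5579 (nat_lit 11759) (nat_lit 14) (nat_lit 9))
    (@En.n l6303 (nat_lit 1059) (nat_lit 13) (nat_lit 3))
    (@En.n l6304 (nat_lit 1057) (nat_lit 0) (nat_lit 3))))
noncomputable def a66 : T16 Cl := @T16.mk Cl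
  (@Cl.mk (nat_lit 0x200050008000d0009000e000300020009000c00080007000b0004000e0007) (nat_lit 0x61000000004040) (nat_lit 16) Lb.e (@T16.mk En
    (@En.n l28783 (nat_lit 1057) (nat_lit 7) (nat_lit 7))
    (@En.n l27305 (nat_lit 1052) (nat_lit 1) (nat_lit 14))
    (@En.n l253 (nat_lit 4158) (nat_lit 2) (nat_lit 4))
    (@En.i (nat_lit 213) (nat_lit 3) (nat_lit 11))
    (@En.n l3549 (nat_lit 218) (nat_lit 4) (nat_lit 7))
    (@En.n l23744 (nat_lit 7309) (nat_lit 5) (nat_lit 8))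
    (@En.i (nat_lit 13686) (nat_lit 6) (nat_lit 12))
    (@En.n l13756 (nat_lit 11756) (nat_lit 8) (nat_lit 9))
    (@En.n l11 (nat_lit 1056) (nat_lit 8) (nat_lit 2))
    (@En.n l26054 (nat_lit 1053) (nat_lit 9) (nat_lit 3))
    (@En.n l513 (nat_lit 13616) (nat_lit 0) (nat_lit 14))
    (@En.n l23035 (nat_lit 1555) (nat_lit 12) (nat_lit 9))
    (@En.i (nat_lit 1035) (nat_lit 13) (nat_lit 13))
    (@En.n l26305 (nat_lit 1350) (nat_lit 10) (nat_lit 8))
    (@En.n l1735 (nat_lit 339) (nat_lit 13) (nat_lit 5))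
    (@En.n l17 (nat_lit 1056) (nat_lit 15) (nat_lit 2))))
  (@Cl.mk (nat_lit 0x200090009000c00090008000c00040007000700040007000d0008000e0003) (nat_lit 0x11015000001000) (nat_lit 16) Lb.e (@T16.mk En
    (@En.n l12198 (nat_lit 1055) (nat_lit 15) (nat_lit 3))
    (@En.n l15215 (nat_lit 13615) (nat_lit 0) (nat_lit 14))
    (@En.i (nat_lit 1558) (nat_lit 2) (nat_lit 8))
    (@En.n l15216 (nat_lit 1039) (nat_lit 4) (nat_lit 13))
    (@En.i (nat_lit 1349) (nat_lit 11) (nat_lit 7))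
    (@En.n l15217 (nat_lit 340) (nat_lit 5) (nat_lit 4))
    (@En.n l644 (nat_lit 1111) (nat_lit 9) (nat_lit 7))
    (@En.n l617 (nat_lit 352) (nat_lit 7) (nat_lit 7))
    (@En.n l13716 (nat_lit 4156) (nat_lit 8) (nat_lit 4))
    (@En.n l15216 (nat_lit 212) (nat_lit 10) (nat_lit 12))
    (@En.n l15218 (nat_lit 219) (nat_lit 11) (nat_lit 8))
    (@En.n l15219 (nat_lit 7334) (nat_lit 12) (nat_lit 9))
    (@En.n l15220 (nat_lit 1056) (nat_lit 6) (nat_lit 12))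
    (@En.n l15221 (nat_lit 1056) (nat_lit 7) (nat_lit 9))
    (@En.n l15222 (nat_lit 11757) (nat_lit 14) (nat_lit 9))
    (@En.n l28 (nat_lit 1057) (nat_lit 15) (nat_lit 2))))
  (@Cl.mk (nat_lit 0x200050008000e000d0002000b00030009000c00080005000b0004000e0007) (nat_lit 0x64200000604090) (nat_lit 16) Lb.e (@T16.mk En
    (@En.i (nat_lit 1059) (nat_lit 5) (nat_lit 7))
    (@En.n l180 (nat_lit 1054) (nat_lit 1) (nat_lit 14))
    (@En.n l619 (nat_lit 4159) (nat_lit 2) (nat_lit 4))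
    (@En.n l8808 (nat_lit 1012) (nat_lit 9) (nat_lit 11))
    (@En.n l3219 (nat_lit 1026) (nat_lit 4) (nat_lit 5))
    (@En.i (nat_lit 7313) (nat_lit 5) (nat_lit 8))
    (@En.n l3219 (nat_lit 13657) (nat_lit 6) (nat_lit 12))
    (@En.n l3213 (nat_lit 12172) (nat_lit 13) (nat_lit 9))
    (@En.n l3219 (nat_lit 1053) (nat_lit 8) (nat_lit 3))
    (@En.i (nat_lit 1433) (nat_lit 10) (nat_lit 11))
    (@En.n l50 (nat_lit 1058) (nat_lit 10) (nat_lit 2))
    (@En.n l3212 (nat_lit 1053) (nat_lit 12) (nat_lit 13))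
    (@En.n l3213 (nat_lit 1266) (nat_lit 13) (nat_lit 14))
    (@En.n l1643 (nat_lit 1268) (nat_lit 10) (nat_lit 8))
    (@En.i (nat_lit 341) (nat_lit 13) (nat_lit 5))
    (@En.n l11 (nat_lit 1058) (nat_lit 15) (nat_lit 2))))
  (@Cl.mk (nat_lit 0x2000a000300090009000c00090006000c00040007000700040007000e000d) (nat_lit 0x117040000002) (nat_lit 16) Lb.e (@T16.mk En
    (@En.n l3212 (nat_lit 1055) (nat_lit 2) (nat_lit 13))
    (@En.n l3213 (nat_lit 1267) (nat_lit 1) (nat_lit 14))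
    (@En.n l1643 (nat_lit 1282) (nat_lit 11) (nat_lit 7))
    (@En.n l3214 (nat_lit 342) (nat_lit 3) (nat_lit 4))
    (@En.n l3215 (nat_lit 1592) (nat_lit 4) (nat_lit 7))
    (@En.n l3216 (nat_lit 1594) (nat_lit 5) (nat_lit 7))
    (@En.n l3217 (nat_lit 4154) (nat_lit 6) (nat_lit 4))
    (@En.n l3218 (nat_lit 1010) (nat_lit 8) (nat_lit 12))
    (@En.n l3219 (nat_lit 1022) (nat_lit 8) (nat_lit 6))
    (@En.n l2675 (nat_lit 7347) (nat_lit 10) (nat_lit 9))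
    (@En.n l107 (nat_lit 1058) (nat_lit 6) (nat_lit 12))
    (@En.n l575 (nat_lit 1058) (nat_lit 7) (nat_lit 9))
    (@En.n l3213 (nat_lit 10041) (nat_lit 13) (nat_lit 9))
    (@En.n l3219 (nat_lit 1055) (nat_lit 14) (nat_lit 3))
    (@En.n l3220 (nat_lit 1434) (nat_lit 0) (nat_lit 10))
    (@En.n l50 (nat_lit 1059) (nat_lit 15) (nat_lit 2))))
  (@Cl.mk (nat_lit 0x30003000b0004000a000a000d0005000c0003000600060004000d000d000c) (nat_lit 0x80000040000ab2) (nat_lit 16) Lb.e (@T16.mk En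
    (@En.n l619 (nat_lit 297) (nat_lit 0) (nat_lit 12))
    (@En.n l1867 (nat_lit 1062) (nat_lit 3) (nat_lit 13))
    (@En.i (nat_lit 6731) (nat_lit 12) (nat_lit 13))
    (@En.n l2179 (nat_lit 315) (nat_lit 3) (nat_lit 4))
    (@En.n l2139 (nat_lit 1066) (nat_lit 10) (nat_lit 6))
    (@En.n l2180 (nat_lit 377) (nat_lit 12) (nat_lit 6))
    (@En.n l6204 (nat_lit 1067) (nat_lit 6) (nat_lit 3))
    (@En.i (nat_lit 155) (nat_lit 0) (nat_lit 12))
    (@En.i (nat_lit 6159) (nat_lit 8) (nat_lit 5))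
    (@En.n l18 (nat_lit 1063) (nat_lit 5) (nat_lit 13))
    (@En.n l61 (nat_lit 1063) (nat_lit 6) (nat_lit 10))
    (@En.n l649 (nat_lit 5940) (nat_lit 12) (nat_lit 10))
    (@En.i (nat_lit 293) (nat_lit 5) (nat_lit 4))
    (@En.n l476 (nat_lit 1039) (nat_lit 0) (nat_lit 11))
    (@En.n l152 (nat_lit 1065) (nat_lit 13) (nat_lit 3))
    (@En.n l1865 (nat_lit 1062) (nat_lit 0) (nat_lit 3))))
  (@Cl.mk (nat_lit 0x20005000d000b000e00030002000c0005000a000d0004000b0003000e0006) (nat_lit 0xa1000800003010) (nat_lit 16) Lb.e (@T16.mk En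
    (@En.i (nat_lit 1062) (nat_lit 6) (nat_lit 6))
    (@En.n l134 (nat_lit 314) (nat_lit 1) (nat_lit 14))
    (@En.n l117 (nat_lit 1071) (nat_lit 2) (nat_lit 3))
    (@En.i (nat_lit 158) (nat_lit 3) (nat_lit 11))
    (@En.n l3596 (nat_lit 6203) (nat_lit 4) (nat_lit 4))
    (@En.n l2579 (nat_lit 13678) (nat_lit 5) (nat_lit 13))
    (@En.i (nat_lit 6230) (nat_lit 13) (nat_lit 10))
    (@En.n l476 (nat_lit 1075) (nat_lit 14) (nat_lit 5))
    (@En.n l3337 (nat_lit 1038) (nat_lit 9) (nat_lit 12))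
    (@En.n l17 (nat_lit 1061) (nat_lit 9) (nat_lit 2))
    (@En.n l2869 (nat_lit 1063) (nat_lit 10) (nat_lit 3))
    (@En.i (nat_lit 14096) (nat_lit 0) (nat_lit 14))
    (@En.n l2579 (nat_lit 1026) (nat_lit 13) (nat_lit 11))
    (@En.n l2031 (nat_lit 6730) (nat_lit 14) (nat_lit 13))
    (@En.i (nat_lit 908) (nat_lit 13) (nat_lit 5))
    (@En.n l7 (nat_lit 1061) (nat_lit 15) (nat_lit 2))))
  (@Cl.mk (nat_lit 0x2000b0005000a000a000d0005000c0003000600060004000d000b000e0003) (nat_lit 0x70011040000a100) (nat_lit 16) Lb.e (@T16.mk En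
    (@En.n l2869 (nat_lit 1060) (nat_lit 15) (nat_lit 3))
    (@En.n l5448 (nat_lit 14050) (nat_lit 0) (nat_lit 14))
    (@En.n l2579 (nat_lit 1022) (nat_lit 2) (nat_lit 11))
    (@En.n l5534 (nat_lit 6729) (nat_lit 12) (nat_lit 13))
    (@En.n l5154 (nat_lit 364) (nat_lit 4) (nat_lit 4))
    (@En.n l15246 (nat_lit 1084) (nat_lit 5) (nat_lit 6))
    (@En.n l15247 (nat_lit 1088) (nat_lit 12) (nat_lit 6))
    (@En.n l117 (nat_lit 1072) (nat_lit 7) (nat_lit 3))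
    (@En.n l5927 (nat_lit 159) (nat_lit 0) (nat_lit 12))
    (@En.n l3596 (nat_lit 6162) (nat_lit 9) (nat_lit 5))
    (@En.n l28 (nat_lit 1061) (nat_lit 5) (nat_lit 13))
    (@En.n l77 (nat_lit 1061) (nat_lit 6) (nat_lit 10))
    (@En.i (nat_lit 6232) (nat_lit 13) (nat_lit 10))
    (@En.n l476 (nat_lit 1076) (nat_lit 14) (nat_lit 5))
    (@En.n l3337 (nat_lit 1042) (nat_lit 14) (nat_lit 11))
    (@En.n l17 (nat_lit 1062) (nat_lit 15) (nat_lit 2))))
  (@Cl.mk (nat_lit 0x20005000d000d000c00030003000c0004000a000d0004000b0003000e0006) (nat_lit 0xab200808b03010) (nat_lit 16) Lb.e (@T16.mk En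
    (@En.i (nat_lit 1060) (nat_lit 5) (nat_lit 6))
    (@En.n l5 (nat_lit 308) (nat_lit 1) (nat_lit 14))
    (@En.i (nat_lit 1068) (nat_lit 2) (nat_lit 3))
    (@En.i (nat_lit 157) (nat_lit 3) (nat_lit 11))
    (@En.i (nat_lit 6200) (nat_lit 4) (nat_lit 4))
    (@En.i (nat_lit 13435) (nat_lit 5) (nat_lit 13))
    (@En.n l649 (nat_lit 6081) (nat_lit 12) (nat_lit 10))
    (@En.i (nat_lit 292) (nat_lit 7) (nat_lit 4))
    (@En.n l476 (nat_lit 1035) (nat_lit 9) (nat_lit 12))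
    (@En.n l152 (nat_lit 1064) (nat_lit 9) (nat_lit 3))
    (@En.n l1865 (nat_lit 1061) (nat_lit 10) (nat_lit 3))
    (@En.n l619 (nat_lit 295) (nat_lit 12) (nat_lit 12))
    (@En.n l1867 (nat_lit 1061) (nat_lit 13) (nat_lit 13))
    (@En.i (nat_lit 6732) (nat_lit 14) (nat_lit 13))
    (@En.i (nat_lit 316) (nat_lit 13) (nat_lit 5))
    (@En.n l17 (nat_lit 1063) (nat_lit 15) (nat_lit 2))))
  (@Cl.mk (nat_lit 0x20005000e000d0002000d0003000c0003000a000d0004000b0003000e0006) (nat_lit 0x9b030800003010) (nat_lit 16) Lb.e (@T16.mk En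
    (@En.i (nat_lit 1065) (nat_lit 4) (nat_lit 6))
    (@En.n l5 (nat_lit 307) (nat_lit 1) (nat_lit 14))
    (@En.i (nat_lit 1069) (nat_lit 2) (nat_lit 3))
    (@En.i (nat_lit 154) (nat_lit 3) (nat_lit 11))
    (@En.i (nat_lit 6199) (nat_lit 4) (nat_lit 4))
    (@En.i (nat_lit 13681) (nat_lit 5) (nat_lit 13))
    (@En.i (nat_lit 6080) (nat_lit 11) (nat_lit 10))
    (@En.i (nat_lit 295) (nat_lit 7) (nat_lit 3))
    (@En.i (nat_lit 4925) (nat_lit 9) (nat_lit 12))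
    (@En.n l117 (nat_lit 1063) (nat_lit 9) (nat_lit 3))
    (@En.i (nat_lit 414) (nat_lit 11) (nat_lit 13))
    (@En.n l3 (nat_lit 1064) (nat_lit 11) (nat_lit 2))
    (@En.i (nat_lit 1063) (nat_lit 13) (nat_lit 13))
    (@En.i (nat_lit 6750) (nat_lit 1) (nat_lit 14))
    (@En.i (nat_lit 318) (nat_lit 13) (nat_lit 5))
    (@En.n l17 (nat_lit 1064) (nat_lit 15) (nat_lit 2))))
  (@Cl.mk (nat_lit 0x2000d0003000b0003000a000a000d0005000c0003000600060004000e000d) (nat_lit 0x30700110400009b) (nat_lit 16) Lb.e (@T16.mk En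
    (@En.i (nat_lit 1060) (nat_lit 2) (nat_lit 13))
    (@En.i (nat_lit 6749) (nat_lit 1) (nat_lit 14))
    (@En.n l2179 (nat_lit 317) (nat_lit 2) (nat_lit 4))
    (@En.n l2139 (nat_lit 1119) (nat_lit 3) (nat_lit 6))
    (@En.n l2180 (nat_lit 376) (nat_lit 12) (nat_lit 6))
    (@En.n l8466 (nat_lit 1070) (nat_lit 5) (nat_lit 3))
    (@En.i (nat_lit 156) (nat_lit 0) (nat_lit 12))
    (@En.n l900 (nat_lit 6158) (nat_lit 7) (nat_lit 5))
    (@En.n l18 (nat_lit 1064) (nat_lit 5) (nat_lit 13))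
    (@En.n l61 (nat_lit 1064) (nat_lit 6) (nat_lit 10))
    (@En.i (nat_lit 6082) (nat_lit 11) (nat_lit 10))
    (@En.i (nat_lit 297) (nat_lit 11) (nat_lit 3))
    (@En.i (nat_lit 4878) (nat_lit 0) (nat_lit 11))
    (@En.n l117 (nat_lit 1060) (nat_lit 14) (nat_lit 3))
    (@En.n l10916 (nat_lit 410) (nat_lit 0) (nat_lit 13))
    (@En.n l3 (nat_lit 1065) (nat_lit 15) (nat_lit 2))))
  (@Cl.mk (nat_lit 0x2000d0006000d000300060003000d000d000c00030003000a0004000e000a) (nat_lit 0x1030000900070c1) (nat_lit 16) Lb.e (@T16.mk En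
    (@En.n l817 (nat_lit 1060) (nat_lit 11) (nat_lit 10))
    (@En.i (nat_lit 6066) (nat_lit 1) (nat_lit 14))
    (@En.i (nat_lit 1085) (nat_lit 2) (nat_lit 4))
    (@En.n l476 (nat_lit 1185) (nat_lit 3) (nat_lit 10))
    (@En.n l152 (nat_lit 1119) (nat_lit 13) (nat_lit 3))
    (@En.i (nat_lit 1084) (nat_lit 0) (nat_lit 3))
    (@En.n l619 (nat_lit 1120) (nat_lit 7) (nat_lit 12))
    (@En.n l97 (nat_lit 1084) (nat_lit 3) (nat_lit 13))
    (@En.i (nat_lit 6737) (nat_lit 9) (nat_lit 13))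
    (@En.n l17 (nat_lit 1116) (nat_lit 9) (nat_lit 3))
    (@En.n l826 (nat_lit 689) (nat_lit 12) (nat_lit 6))
    (@En.n l17 (nat_lit 1073) (nat_lit 11) (nat_lit 3))
    (@En.n l217 (nat_lit 162) (nat_lit 0) (nat_lit 13))
    (@En.n l2687 (nat_lit 6161) (nat_lit 14) (nat_lit 6))
    (@En.n l816 (nat_lit 1060) (nat_lit 9) (nat_lit 13))
    (@En.n l7 (nat_lit 1066) (nat_lit 15) (nat_lit 2))))
  (@Cl.mk (nat_lit 0x30003000a0004000a000a000d000b00060003000600060005000d000d000c) (nat_lit 0x600001000000a1) (nat_lit 16) Lb.e (@T16.mk En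
    (@En.n l15350 (nat_lit 299) (nat_lit 0) (nat_lit 12))
    (@En.n l11255 (nat_lit 1072) (nat_lit 3) (nat_lit 13))
    (@En.n l15351 (nat_lit 6734) (nat_lit 12) (nat_lit 13))
    (@En.i (nat_lit 4275) (nat_lit 3) (nat_lit 5))
    (@En.n l403 (nat_lit 1073) (nat_lit 10) (nat_lit 6))
    (@En.n l6924 (nat_lit 1376) (nat_lit 12) (nat_lit 6))
    (@En.n l15352 (nat_lit 1060) (nat_lit 6) (nat_lit 3))
    (@En.n l6140 (nat_lit 3232) (nat_lit 0) (nat_lit 6))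
    (@En.n l15353 (nat_lit 306) (nat_lit 9) (nat_lit 11))
    (@En.n l5838 (nat_lit 1068) (nat_lit 5) (nat_lit 13))
    (@En.n l8149 (nat_lit 1068) (nat_lit 6) (nat_lit 10))
    (@En.n l15354 (nat_lit 6233) (nat_lit 12) (nat_lit 10))
    (@En.i (nat_lit 300) (nat_lit 5) (nat_lit 4))
    (@En.n l3517 (nat_lit 5047) (nat_lit 0) (nat_lit 10))
    (@En.n l15355 (nat_lit 1070) (nat_lit 13) (nat_lit 3))
    (@En.n l15356 (nat_lit 1072) (nat_lit 0) (nat_lit 3))))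
  (@Cl.mk (nat_lit 0x20006000d000d000c00030003000b0004000a000d000a00050003000e0006) (nat_lit 0xa200608b10000) (nat_lit 16) Lb.e (@T16.mk En
    (@En.n l6204 (nat_lit 1067) (nat_lit 5) (nat_lit 6))
    (@En.n l1708 (nat_lit 1171) (nat_lit 1) (nat_lit 14))
    (@En.n l7 (nat_lit 1063) (nat_lit 2) (nat_lit 3))
    (@En.n l1684 (nat_lit 3237) (nat_lit 3) (nat_lit 5))
    (@En.n l420 (nat_lit 308) (nat_lit 4) (nat_lit 10))
    (@En.i (nat_lit 13429) (nat_lit 5) (nat_lit 13))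
    (@En.n l3528 (nat_lit 6085) (nat_lit 12) (nat_lit 10))
    (@En.i (nat_lit 294) (nat_lit 7) (nat_lit 4))
    (@En.n l476 (nat_lit 5046) (nat_lit 9) (nat_lit 11))
    (@En.n l152 (nat_lit 1069) (nat_lit 9) (nat_lit 3))
    (@En.n l9956 (nat_lit 1071) (nat_lit 10) (nat_lit 3))
    (@En.n l619 (nat_lit 298) (nat_lit 12) (nat_lit 12))
    (@En.n l1140 (nat_lit 1071) (nat_lit 13) (nat_lit 13))
    (@En.n l1554 (nat_lit 6733) (nat_lit 14) (nat_lit 13))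
    (@En.i (nat_lit 4274) (nat_lit 3) (nat_lit 6))
    (@En.n l17 (nat_lit 1068) (nat_lit 15) (nat_lit 2))))
  (@Cl.mk (nat_lit 0x20006000e000d0002000d0003000b0003000a000d000a00050003000e0006) (nat_lit 0x91030600010000) (nat_lit 16) Lb.e (@T16.mk En
    (@En.n l8466 (nat_lit 1070) (nat_lit 4) (nat_lit 6))
    (@En.n l1708 (nat_lit 2643) (nat_lit 1) (nat_lit 14))
    (@En.n l7 (nat_lit 1064) (nat_lit 2) (nat_lit 3))
    (@En.i (nat_lit 3238) (nat_lit 3) (nat_lit 5))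
    (@En.n l420 (nat_lit 307) (nat_lit 4) (nat_lit 10))
    (@En.i (nat_lit 13430) (nat_lit 5) (nat_lit 13))
    (@En.n l564 (nat_lit 6083) (nat_lit 11) (nat_lit 10))
    (@En.i (nat_lit 298) (nat_lit 7) (nat_lit 3))
    (@En.i (nat_lit 5038) (nat_lit 9) (nat_lit 11))
    (@En.n l117 (nat_lit 1068) (nat_lit 9) (nat_lit 3))
    (@En.i (nat_lit 491) (nat_lit 11) (nat_lit 13))
    (@En.n l3 (nat_lit 1069) (nat_lit 11) (nat_lit 2))
    (@En.i (nat_lit 1068) (nat_lit 13) (nat_lit 13))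
    (@En.i (nat_lit 6747) (nat_lit 1) (nat_lit 14))
    (@En.i (nat_lit 4287) (nat_lit 2) (nat_lit 6))
    (@En.n l17 (nat_lit 1069) (nat_lit 15) (nat_lit 2))))
  (@Cl.mk (nat_lit 0x2000d0003000a0003000a000a000d000b00060003000600060005000e000d) (nat_lit 0x306001110000091) (nat_lit 16) Lb.e (@T16.mk En
    (@En.n l2221 (nat_lit 1067) (nat_lit 2) (nat_lit 13))
    (@En.n l29805 (nat_lit 6748) (nat_lit 1) (nat_lit 14))
    (@En.n l2221 (nat_lit 4288) (nat_lit 2) (nat_lit 5))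
    (@En.n l17364 (nat_lit 1121) (nat_lit 3) (nat_lit 6))
    (@En.n l17365 (nat_lit 1378) (nat_lit 12) (nat_lit 6))
    (@En.n l17366 (nat_lit 1065) (nat_lit 5) (nat_lit 3))
    (@En.n l4021 (nat_lit 3234) (nat_lit 0) (nat_lit 6))
    (@En.n l10853 (nat_lit 305) (nat_lit 8) (nat_lit 11))
    (@En.n l2520 (nat_lit 1069) (nat_lit 5) (nat_lit 13))
    (@En.n l17368 (nat_lit 1069) (nat_lit 6) (nat_lit 10))
    (@En.i (nat_lit 6240) (nat_lit 11) (nat_lit 10))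
    (@En.i (nat_lit 299) (nat_lit 11) (nat_lit 3))
    (@En.n l3340 (nat_lit 3182) (nat_lit 0) (nat_lit 10))
    (@En.n l4018 (nat_lit 1067) (nat_lit 14) (nat_lit 3))
    (@En.i (nat_lit 487) (nat_lit 0) (nat_lit 13))
    (@En.n l28 (nat_lit 1070) (nat_lit 15) (nat_lit 2))))
  (@Cl.mk (nat_lit 0x20006000d000b000e00030002000b0005000a000d000a00050003000e0006) (nat_lit 0x91000600010000) (nat_lit 16) Lb.e (@T16.mk En
    (@En.i (nat_lit 1072) (nat_lit 6) (nat_lit 6))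
    (@En.n l5845 (nat_lit 2646) (nat_lit 1) (nat_lit 14))
    (@En.n l152 (nat_lit 1061) (nat_lit 2) (nat_lit 3))
    (@En.n l1865 (nat_lit 3239) (nat_lit 3) (nat_lit 5))
    (@En.n l4758 (nat_lit 314) (nat_lit 4) (nat_lit 10))
    (@En.n l10970 (nat_lit 13431) (nat_lit 5) (nat_lit 13))
    (@En.i (nat_lit 6229) (nat_lit 13) (nat_lit 10))
    (@En.n l1770 (nat_lit 1077) (nat_lit 14) (nat_lit 5))
    (@En.n l9960 (nat_lit 5048) (nat_lit 9) (nat_lit 11))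
    (@En.n l17 (nat_lit 1071) (nat_lit 9) (nat_lit 2))
    (@En.n l3522 (nat_lit 1068) (nat_lit 10) (nat_lit 3))
    (@En.n l476 (nat_lit 13001) (nat_lit 0) (nat_lit 14))
    (@En.n l10970 (nat_lit 1028) (nat_lit 13) (nat_lit 11))
    (@En.n l649 (nat_lit 6735) (nat_lit 14) (nat_lit 13))
    (@En.i (nat_lit 4270) (nat_lit 4) (nat_lit 6))
    (@En.n l7 (nat_lit 1071) (nat_lit 15) (nat_lit 2))))
noncomputable def a67 : T16 Cl := @T16.mk Cl
  (@Cl.mk (nat_lit 0x2000a0005000a000a000d000b00060003000600060005000d000b000e0003) (nat_lit 0x600111000009100) (nat_lit 16) Lb.e (@T16.mk En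
    (@En.n l21989 (nat_lit 1067) (nat_lit 15) (nat_lit 3))
    (@En.n l21990 (nat_lit 13000) (nat_lit 0) (nat_lit 14))
    (@En.n l21991 (nat_lit 1025) (nat_lit 2) (nat_lit 11))
    (@En.n l649 (nat_lit 4449) (nat_lit 12) (nat_lit 13))
    (@En.n l13671 (nat_lit 4271) (nat_lit 4) (nat_lit 5))
    (@En.n l21992 (nat_lit 1086) (nat_lit 5) (nat_lit 6))
    (@En.n l13673 (nat_lit 1379) (nat_lit 6) (nat_lit 6))
    (@En.n l152 (nat_lit 1062) (nat_lit 7) (nat_lit 3))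
    (@En.n l1865 (nat_lit 3236) (nat_lit 0) (nat_lit 6))
    (@En.n l21993 (nat_lit 312) (nat_lit 10) (nat_lit 11))
    (@En.n l28 (nat_lit 1071) (nat_lit 5) (nat_lit 13))
    (@En.n l77 (nat_lit 1071) (nat_lit 6) (nat_lit 10))
    (@En.i (nat_lit 6231) (nat_lit 13) (nat_lit 10))
    (@En.n l21994 (nat_lit 1078) (nat_lit 14) (nat_lit 5))
    (@En.n l9960 (nat_lit 5049) (nat_lit 14) (nat_lit 10))
    (@En.n l17 (nat_lit 1072) (nat_lit 15) (nat_lit 2))))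
  (@Cl.mk (nat_lit 0x2000d000c0007000300060004000d000d000c0003000300090004000e000a) (nat_lit 0x1200000000060b1) (nat_lit 16) Lb.e (@T16.mk En
    (@En.n l7584 (nat_lit 1067) (nat_lit 11) (nat_lit 10))
    (@En.i (nat_lit 6064) (nat_lit 1) (nat_lit 14))
    (@En.i (nat_lit 1087) (nat_lit 2) (nat_lit 4))
    (@En.n l3517 (nat_lit 5094) (nat_lit 3) (nat_lit 9))
    (@En.n l152 (nat_lit 1121) (nat_lit 13) (nat_lit 3))
    (@En.n l117 (nat_lit 1086) (nat_lit 0) (nat_lit 3))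
    (@En.n l619 (nat_lit 1122) (nat_lit 0) (nat_lit 12))
    (@En.i (nat_lit 1086) (nat_lit 3) (nat_lit 13))
    (@En.i (nat_lit 6736) (nat_lit 9) (nat_lit 13))
    (@En.i (nat_lit 1150) (nat_lit 9) (nat_lit 4))
    (@En.n l3971 (nat_lit 3878) (nat_lit 12) (nat_lit 6))
    (@En.n l3473 (nat_lit 1066) (nat_lit 11) (nat_lit 3))
    (@En.n l6140 (nat_lit 3233) (nat_lit 0) (nat_lit 7))
    (@En.n l61 (nat_lit 1116) (nat_lit 14) (nat_lit 12))
    (@En.i (nat_lit 1067) (nat_lit 9) (nat_lit 13))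
    (@En.n l7 (nat_lit 1073) (nat_lit 15) (nat_lit 2))))
  (@Cl.mk (nat_lit 0x20005000b000a0007000b000e0005000200060005000c000b0009000e0004) (nat_lit 0x10300000a1010) (nat_lit 16) Lb.e (@T16.mk En
    (@En.n l14930 (nat_lit 291) (nat_lit 8) (nat_lit 4))
    (@En.n l14931 (nat_lit 314) (nat_lit 10) (nat_lit 14))
    (@En.n l14932 (nat_lit 1133) (nat_lit 11) (nat_lit 9))
    (@En.n l4083 (nat_lit 1011) (nat_lit 3) (nat_lit 11))
    (@En.n l14933 (nat_lit 6307) (nat_lit 13) (nat_lit 12))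
    (@En.n l14934 (nat_lit 1075) (nat_lit 5) (nat_lit 5))
    (@En.n l14935 (nat_lit 1076) (nat_lit 6) (nat_lit 6))
    (@En.n l17 (nat_lit 1074) (nat_lit 7) (nat_lit 2))
    (@En.n l14936 (nat_lit 1079) (nat_lit 8) (nat_lit 5))
    (@En.i (nat_lit 3750) (nat_lit 10) (nat_lit 14))
    (@En.n l14937 (nat_lit 180) (nat_lit 2) (nat_lit 11))
    (@En.i (nat_lit 6886) (nat_lit 12) (nat_lit 7))
    (@En.n l14938 (nat_lit 598) (nat_lit 13) (nat_lit 10))
    (@En.n l14939 (nat_lit 11146) (nat_lit 14) (nat_lit 11))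
    (@En.n l14940 (nat_lit 610) (nat_lit 13) (nat_lit 5))
    (@En.n l28 (nat_lit 1074) (nat_lit 15) (nat_lit 2))))
  (@Cl.mk (nat_lit 0x20005000a000d0007000b0003000e000600020005000c000b0009000e0004) (nat_lit 0x301000a7010) (nat_lit 16) Lb.e (@T16.mk En
    (@En.n l2116 (nat_lit 292) (nat_lit 9) (nat_lit 4))
    (@En.i (nat_lit 1061) (nat_lit 11) (nat_lit 14))
    (@En.n l253 (nat_lit 1174) (nat_lit 12) (nat_lit 9))
    (@En.n l14614 (nat_lit 1012) (nat_lit 3) (nat_lit 11))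
    (@En.n l14615 (nat_lit 6687) (nat_lit 14) (nat_lit 12))
    (@En.n l253 (nat_lit 907) (nat_lit 5) (nat_lit 5))
    (@En.n l7 (nat_lit 1075) (nat_lit 6) (nat_lit 2))
    (@En.i (nat_lit 1076) (nat_lit 7) (nat_lit 6))
    (@En.n l14616 (nat_lit 1074) (nat_lit 9) (nat_lit 14))
    (@En.n l117 (nat_lit 1077) (nat_lit 9) (nat_lit 3))
    (@En.n l781 (nat_lit 181) (nat_lit 11) (nat_lit 11))
    (@En.n l14617 (nat_lit 6885) (nat_lit 4) (nat_lit 7))
    (@En.n l2117 (nat_lit 13668) (nat_lit 5) (nat_lit 13))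
    (@En.i (nat_lit 11143) (nat_lit 14) (nat_lit 10))
    (@En.n l2125 (nat_lit 1252) (nat_lit 13) (nat_lit 5))
    (@En.n l17 (nat_lit 1075) (nat_lit 15) (nat_lit 2))))
  (@Cl.mk (nat_lit 0x20005000a000a000d0008000c0003000600060004000c000b0008000e0004) (nat_lit 0x1153000081010) (nat_lit 16) Lb.e (@T16.mk En
    (@En.n l2116 (nat_lit 293) (nat_lit 7) (nat_lit 4))
    (@En.i (nat_lit 1062) (nat_lit 1) (nat_lit 14))
    (@En.n l6175 (nat_lit 1173) (nat_lit 2) (nat_lit 8))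
    (@En.n l6176 (nat_lit 1010) (nat_lit 3) (nat_lit 11))
    (@En.n l6177 (nat_lit 6617) (nat_lit 12) (nat_lit 12))
    (@En.n l6178 (nat_lit 361) (nat_lit 5) (nat_lit 4))
    (@En.n l6179 (nat_lit 1080) (nat_lit 6) (nat_lit 6))
    (@En.n l6180 (nat_lit 1083) (nat_lit 7) (nat_lit 6))
    (@En.n l6181 (nat_lit 1078) (nat_lit 8) (nat_lit 3))
    (@En.n l6178 (nat_lit 182) (nat_lit 0) (nat_lit 12))
    (@En.n l6182 (nat_lit 2314) (nat_lit 11) (nat_lit 8))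
    (@En.n l28 (nat_lit 1075) (nat_lit 12) (nat_lit 13))
    (@En.n l77 (nat_lit 1075) (nat_lit 13) (nat_lit 10))
    (@En.i (nat_lit 11144) (nat_lit 14) (nat_lit 10))
    (@En.n l2125 (nat_lit 1248) (nat_lit 13) (nat_lit 5))
    (@En.n l17 (nat_lit 1076) (nat_lit 15) (nat_lit 2))))
  (@Cl.mk (nat_lit 0x20005000a000d000a00080003000e000600020006000c000b0008000e0004) (nat_lit 0x2000000a1010) (nat_lit 16) Lb.e (@T16.mk En
    (@En.n l22683 (nat_lit 294) (nat_lit 9) (nat_lit 4))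
    (@En.i (nat_lit 1071) (nat_lit 11) (nat_lit 14))
    (@En.n l19886 (nat_lit 2364) (nat_lit 12) (nat_lit 8))
    (@En.n l5308 (nat_lit 1017) (nat_lit 3) (nat_lit 11))
    (@En.n l1897 (nat_lit 4460) (nat_lit 14) (nat_lit 12))
    (@En.i (nat_lit 4268) (nat_lit 5) (nat_lit 6))
    (@En.n l7 (nat_lit 1077) (nat_lit 6) (nat_lit 2))
    (@En.n l21991 (nat_lit 1078) (nat_lit 7) (nat_lit 6))
    (@En.n l28791 (nat_lit 1170) (nat_lit 9) (nat_lit 14))
    (@En.n l152 (nat_lit 1075) (nat_lit 9) (nat_lit 3))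
    (@En.n l5588 (nat_lit 2965) (nat_lit 11) (nat_lit 8))
    (@En.n l28792 (nat_lit 1074) (nat_lit 12) (nat_lit 10))
    (@En.n l1897 (nat_lit 13669) (nat_lit 5) (nat_lit 13))
    (@En.i (nat_lit 11141) (nat_lit 14) (nat_lit 10))
    (@En.n l1899 (nat_lit 1276) (nat_lit 13) (nat_lit 5))
    (@En.n l17 (nat_lit 1077) (nat_lit 15) (nat_lit 2))))
  (@Cl.mk (nat_lit 0x20005000a000a000d000b00090003000600060005000c000b0007000e0004) (nat_lit 0x11300000a1010) (nat_lit 16) Lb.e (@T16.mk En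
    (@En.n l15308 (nat_lit 300) (nat_lit 7) (nat_lit 4))
    (@En.n l9173 (nat_lit 1072) (nat_lit 1) (nat_lit 14))
    (@En.n l15309 (nat_lit 2362) (nat_lit 2) (nat_lit 7))
    (@En.i (nat_lit 1014) (nat_lit 3) (nat_lit 11))
    (@En.n l15310 (nat_lit 4451) (nat_lit 12) (nat_lit 12))
    (@En.n l77 (nat_lit 4269) (nat_lit 5) (nat_lit 5))
    (@En.n l15311 (nat_lit 1081) (nat_lit 6) (nat_lit 6))
    (@En.n l3246 (nat_lit 1375) (nat_lit 7) (nat_lit 6))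
    (@En.n l15312 (nat_lit 1076) (nat_lit 8) (nat_lit 3))
    (@En.n l15313 (nat_lit 2964) (nat_lit 0) (nat_lit 9))
    (@En.n l15314 (nat_lit 1079) (nat_lit 11) (nat_lit 11))
    (@En.n l15315 (nat_lit 1077) (nat_lit 12) (nat_lit 13))
    (@En.n l15316 (nat_lit 1077) (nat_lit 13) (nat_lit 10))
    (@En.n l9173 (nat_lit 11142) (nat_lit 14) (nat_lit 10))
    (@En.n l107 (nat_lit 1253) (nat_lit 13) (nat_lit 5))
    (@En.n l3 (nat_lit 1078) (nat_lit 15) (nat_lit 2))))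
  (@Cl.mk (nat_lit 0x20005000b000b000b0008000c0005000500050004000c000b0008000e0004) (nat_lit 0x12510000a1010) (nat_lit 16) Lb.e (@T16.mk En
    (@En.n l152 (nat_lit 303) (nat_lit 15) (nat_lit 4))
    (@En.n l5859 (nat_lit 312) (nat_lit 1) (nat_lit 14))
    (@En.n l13991 (nat_lit 1131) (nat_lit 2) (nat_lit 8))
    (@En.n l5862 (nat_lit 1007) (nat_lit 3) (nat_lit 11))
    (@En.n l13991 (nat_lit 6292) (nat_lit 5) (nat_lit 12))
    (@En.n l13992 (nat_lit 1076) (nat_lit 5) (nat_lit 4))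
    (@En.n l13993 (nat_lit 1083) (nat_lit 6) (nat_lit 5))
    (@En.n l77 (nat_lit 1082) (nat_lit 7) (nat_lit 5))
    (@En.n l5862 (nat_lit 3212) (nat_lit 8) (nat_lit 5))
    (@En.n l13994 (nat_lit 101) (nat_lit 10) (nat_lit 12))
    (@En.n l5864 (nat_lit 2311) (nat_lit 11) (nat_lit 8))
    (@En.n l397 (nat_lit 906) (nat_lit 12) (nat_lit 11))
    (@En.n l13995 (nat_lit 1074) (nat_lit 13) (nat_lit 11))
    (@En.n l13996 (nat_lit 11148) (nat_lit 14) (nat_lit 11))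
    (@En.n l4976 (nat_lit 1247) (nat_lit 13) (nat_lit 5))
    (@En.n l3 (nat_lit 1079) (nat_lit 15) (nat_lit 2))))
  (@Cl.mk (nat_lit 0x20005000e000a0002000d0009000d000300060003000c000b0007000e0004) (nat_lit 0xa1020500091000) (nat_lit 16) Lb.e (@T16.mk En
    (@En.n l2653 (nat_lit 1085) (nat_lit 4) (nat_lit 4))
    (@En.n l2527 (nat_lit 1084) (nat_lit 1) (nat_lit 14))
    (@En.i (nat_lit 1200) (nat_lit 2) (nat_lit 7))
    (@En.n l2654 (nat_lit 1013) (nat_lit 3) (nat_lit 11))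
    (@En.n l2655 (nat_lit 6772) (nat_lit 9) (nat_lit 12))
    (@En.n l2656 (nat_lit 1082) (nat_lit 5) (nat_lit 3))
    (@En.i (nat_lit 2754) (nat_lit 6) (nat_lit 6))
    (@En.n l521 (nat_lit 1081) (nat_lit 7) (nat_lit 3))
    (@En.n l135 (nat_lit 183) (nat_lit 0) (nat_lit 13))
    (@En.n l2657 (nat_lit 2310) (nat_lit 10) (nat_lit 9))
    (@En.n l2658 (nat_lit 1076) (nat_lit 11) (nat_lit 13))
    (@En.n l3 (nat_lit 1080) (nat_lit 11) (nat_lit 2))
    (@En.n l2659 (nat_lit 1076) (nat_lit 13) (nat_lit 10))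
    (@En.i (nat_lit 12502) (nat_lit 1) (nat_lit 14))
    (@En.n l1469 (nat_lit 1249) (nat_lit 13) (nat_lit 5))
    (@En.n l17 (nat_lit 1080) (nat_lit 15) (nat_lit 2))))
  (@Cl.mk (nat_lit 0x20005000e000a0002000d000c000a000300060004000c000b0006000e0004) (nat_lit 0x1022000090000) (nat_lit 16) Lb.e (@T16.mk En
    (@En.n l7848 (nat_lit 1087) (nat_lit 4) (nat_lit 4))
    (@En.n l2267 (nat_lit 1086) (nat_lit 1) (nat_lit 14))
    (@En.n l7849 (nat_lit 2366) (nat_lit 2) (nat_lit 6))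
    (@En.n l7850 (nat_lit 1368) (nat_lit 3) (nat_lit 11))
    (@En.n l2686 (nat_lit 4452) (nat_lit 9) (nat_lit 12))
    (@En.n l7851 (nat_lit 1153) (nat_lit 5) (nat_lit 4))
    (@En.n l7852 (nat_lit 3852) (nat_lit 6) (nat_lit 6))
    (@En.n l1434 (nat_lit 1080) (nat_lit 7) (nat_lit 3))
    (@En.n l2686 (nat_lit 2966) (nat_lit 0) (nat_lit 10))
    (@En.n l7853 (nat_lit 1082) (nat_lit 10) (nat_lit 12))
    (@En.n l7854 (nat_lit 1078) (nat_lit 11) (nat_lit 13))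
    (@En.n l18 (nat_lit 1081) (nat_lit 11) (nat_lit 2))
    (@En.n l7850 (nat_lit 1078) (nat_lit 13) (nat_lit 10))
    (@En.n l7849 (nat_lit 12504) (nat_lit 1) (nat_lit 14))
    (@En.n l1172 (nat_lit 1283) (nat_lit 13) (nat_lit 5))
    (@En.n l172 (nat_lit 1081) (nat_lit 15) (nat_lit 2))))
  (@Cl.mk (nat_lit 0x20005000e000b0002000c0009000d000500040003000c000b0007000e0004) (nat_lit 0xc1010500091000) (nat_lit 16) Lb.e (@T16.mk En
    (@En.n l152 (nat_lit 1102) (nat_lit 4) (nat_lit 4))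
    (@En.n l5859 (nat_lit 1144) (nat_lit 1) (nat_lit 14))
    (@En.n l2719 (nat_lit 1201) (nat_lit 2) (nat_lit 7))
    (@En.n l5860 (nat_lit 1009) (nat_lit 3) (nat_lit 11))
    (@En.n l5861 (nat_lit 7525) (nat_lit 9) (nat_lit 12))
    (@En.n l2719 (nat_lit 1080) (nat_lit 5) (nat_lit 3))
    (@En.i (nat_lit 1149) (nat_lit 6) (nat_lit 4))
    (@En.n l5862 (nat_lit 4266) (nat_lit 7) (nat_lit 5))
    (@En.n l5863 (nat_lit 128) (nat_lit 9) (nat_lit 13))
    (@En.n l5864 (nat_lit 2309) (nat_lit 10) (nat_lit 9))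
    (@En.n l5865 (nat_lit 361) (nat_lit 11) (nat_lit 12))
    (@En.n l7 (nat_lit 1082) (nat_lit 11) (nat_lit 2))
    (@En.i (nat_lit 1079) (nat_lit 13) (nat_lit 11))
    (@En.n l5863 (nat_lit 12500) (nat_lit 1) (nat_lit 14))
    (@En.n l4976 (nat_lit 1330) (nat_lit 13) (nat_lit 5))
    (@En.n l3 (nat_lit 1082) (nat_lit 15) (nat_lit 2))))
  (@Cl.mk (nat_lit 0x20005000a000e000b00020009000d000600050003000c000b0007000e0004) (nat_lit 0xb2003000a1000) (nat_lit 16) Lb.e (@T16.mk En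
    (@En.n l806 (nat_lit 354) (nat_lit 5) (nat_lit 4))
    (@En.n l998 (nat_lit 1088) (nat_lit 7) (nat_lit 14))
    (@En.n l15061 (nat_lit 1099) (nat_lit 7) (nat_lit 7))
    (@En.n l15062 (nat_lit 355) (nat_lit 3) (nat_lit 11))
    (@En.n l15063 (nat_lit 4445) (nat_lit 10) (nat_lit 12))
    (@En.n l28 (nat_lit 362) (nat_lit 5) (nat_lit 3))
    (@En.n l15064 (nat_lit 1154) (nat_lit 6) (nat_lit 5))
    (@En.n l15065 (nat_lit 3210) (nat_lit 7) (nat_lit 6))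
    (@En.i (nat_lit 106) (nat_lit 9) (nat_lit 13))
    (@En.n l15066 (nat_lit 6879) (nat_lit 10) (nat_lit 9))
    (@En.n l107 (nat_lit 1083) (nat_lit 10) (nat_lit 2))
    (@En.n l15067 (nat_lit 1079) (nat_lit 12) (nat_lit 11))
    (@En.n l15061 (nat_lit 1080) (nat_lit 13) (nat_lit 14))
    (@En.n l28 (nat_lit 11196) (nat_lit 2) (nat_lit 10))
    (@En.n l2039 (nat_lit 1245) (nat_lit 13) (nat_lit 5))
    (@En.n l17 (nat_lit 1083) (nat_lit 15) (nat_lit 2))))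
  (@Cl.mk (nat_lit 0x2000a0005000e000a0002000d0006000d000300060003000d000b000e0003) (nat_lit 0x70a1020400081c0) (nat_lit 16) Lb.e (@T16.mk En
    (@En.n l107 (nat_lit 1066) (nat_lit 5) (nat_lit 3))
    (@En.n l7698 (nat_lit 14054) (nat_lit 0) (nat_lit 14))
    (@En.i (nat_lit 1023) (nat_lit 2) (nat_lit 11))
    (@En.n l7699 (nat_lit 6738) (nat_lit 9) (nat_lit 13))
    (@En.n l17 (nat_lit 1144) (nat_lit 4) (nat_lit 3))
    (@En.n l826 (nat_lit 2755) (nat_lit 12) (nat_lit 6))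
    (@En.n l7700 (nat_lit 1086) (nat_lit 6) (nat_lit 3))
    (@En.n l7701 (nat_lit 192) (nat_lit 0) (nat_lit 13))
    (@En.n l1055 (nat_lit 6163) (nat_lit 14) (nat_lit 6))
    (@En.n l7702 (nat_lit 1062) (nat_lit 10) (nat_lit 13))
    (@En.n l7 (nat_lit 1084) (nat_lit 10) (nat_lit 2))
    (@En.n l7703 (nat_lit 1062) (nat_lit 12) (nat_lit 10))
    (@En.n l1865 (nat_lit 6065) (nat_lit 1) (nat_lit 14))
    (@En.n l7704 (nat_lit 1080) (nat_lit 14) (nat_lit 5))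
    (@En.n l7705 (nat_lit 1184) (nat_lit 3) (nat_lit 10))
    (@En.n l67 (nat_lit 1084) (nat_lit 15) (nat_lit 2))))
  (@Cl.mk (nat_lit 0x2000d0008000d000300060003000c000c000c0008000400040004000e000a) (nat_lit 0x2050009a00000c1) (nat_lit 16) Lb.e (@T16.mk En
    (@En.n l817 (nat_lit 293) (nat_lit 4) (nat_lit 10))
    (@En.n l1195 (nat_lit 12501) (nat_lit 1) (nat_lit 14))
    (@En.n l11 (nat_lit 1023) (nat_lit 12) (nat_lit 4))
    (@En.n l152 (nat_lit 1120) (nat_lit 3) (nat_lit 4))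
    (@En.n l936 (nat_lit 1109) (nat_lit 4) (nat_lit 4))
    (@En.i (nat_lit 1126) (nat_lit 5) (nat_lit 8))
    (@En.n l619 (nat_lit 1110) (nat_lit 7) (nat_lit 12))
    (@En.n l2719 (nat_lit 1080) (nat_lit 4) (nat_lit 12))
    (@En.n l2720 (nat_lit 6774) (nat_lit 9) (nat_lit 12))
    (@En.n l17 (nat_lit 1102) (nat_lit 9) (nat_lit 3))
    (@En.n l826 (nat_lit 688) (nat_lit 12) (nat_lit 6))
    (@En.n l17 (nat_lit 1087) (nat_lit 11) (nat_lit 3))
    (@En.n l217 (nat_lit 195) (nat_lit 0) (nat_lit 13))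
    (@En.n l2254 (nat_lit 2313) (nat_lit 14) (nat_lit 8))
    (@En.n l816 (nat_lit 293) (nat_lit 2) (nat_lit 13))
    (@En.n l7 (nat_lit 1085) (nat_lit 15) (nat_lit 2))))
  (@Cl.mk (nat_lit 0x200090005000e000a0002000d000c0007000300060004000d000b000e0003) (nat_lit 0x60010220000b1c0) (nat_lit 16) Lb.e (@T16.mk En
    (@En.n l152 (nat_lit 1073) (nat_lit 5) (nat_lit 3))
    (@En.n l3471 (nat_lit 14053) (nat_lit 0) (nat_lit 14))
    (@En.n l97 (nat_lit 1024) (nat_lit 2) (nat_lit 11))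
    (@En.n l11252 (nat_lit 4450) (nat_lit 9) (nat_lit 13))
    (@En.i (nat_lit 1148) (nat_lit 4) (nat_lit 4))
    (@En.n l11253 (nat_lit 3882) (nat_lit 5) (nat_lit 6))
    (@En.n l11254 (nat_lit 1084) (nat_lit 6) (nat_lit 3))
    (@En.n l11252 (nat_lit 3235) (nat_lit 0) (nat_lit 7))
    (@En.n l4007 (nat_lit 1144) (nat_lit 9) (nat_lit 12))
    (@En.n l11255 (nat_lit 1072) (nat_lit 10) (nat_lit 13))
    (@En.n l7 (nat_lit 1086) (nat_lit 10) (nat_lit 2))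
    (@En.n l11256 (nat_lit 1072) (nat_lit 12) (nat_lit 10))
    (@En.n l1867 (nat_lit 6062) (nat_lit 1) (nat_lit 14))
    (@En.n l7978 (nat_lit 1081) (nat_lit 14) (nat_lit 5))
    (@En.n l11257 (nat_lit 5093) (nat_lit 3) (nat_lit 9))
    (@En.n l3 (nat_lit 1086) (nat_lit 15) (nat_lit 2))))
  (@Cl.mk (nat_lit 0x2000d000c0009000300060004000c000c000c0007000400040004000e000a) (nat_lit 0x2300009a00000b1) (nat_lit 16) Lb.e (@T16.mk En
    (@En.n l7584 (nat_lit 300) (nat_lit 4) (nat_lit 10))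
    (@En.n l7975 (nat_lit 12503) (nat_lit 1) (nat_lit 14))
    (@En.n l11 (nat_lit 1024) (nat_lit 12) (nat_lit 4))
    (@En.n l152 (nat_lit 1122) (nat_lit 12) (nat_lit 4))
    (@En.n l7976 (nat_lit 1114) (nat_lit 4) (nat_lit 4))
    (@En.i (nat_lit 2344) (nat_lit 5) (nat_lit 7))
    (@En.n l7977 (nat_lit 1115) (nat_lit 7) (nat_lit 12))
    (@En.n l7978 (nat_lit 1081) (nat_lit 4) (nat_lit 12))
    (@En.n l7979 (nat_lit 6775) (nat_lit 9) (nat_lit 12))
    (@En.i (nat_lit 1157) (nat_lit 9) (nat_lit 4))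
    (@En.n l7980 (nat_lit 3759) (nat_lit 12) (nat_lit 6))
    (@En.n l3473 (nat_lit 1085) (nat_lit 11) (nat_lit 3))
    (@En.n l7981 (nat_lit 2969) (nat_lit 0) (nat_lit 9))
    (@En.n l61 (nat_lit 1102) (nat_lit 14) (nat_lit 12))
    (@En.i (nat_lit 300) (nat_lit 2) (nat_lit 13))
    (@En.n l7 (nat_lit 1087) (nat_lit 15) (nat_lit 2))))
noncomputable def a68 : T16 Cl := @T16.mk Cl
  (@Cl.mk (nat_lit 0x20006000d000600050003000d000b000e00030002000a0005000a000e000b) (nat_lit 0x1000a1c00600b1) (nat_lit 16) Lb.e (@T16.mk En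
    (@En.n l28617 (nat_lit 312) (nat_lit 11) (nat_lit 11))
    (@En.n l22664 (nat_lit 1084) (nat_lit 12) (nat_lit 14))
    (@En.n l7 (nat_lit 5937) (nat_lit 2) (nat_lit 10))
    (@En.n l897 (nat_lit 1083) (nat_lit 14) (nat_lit 5))
    (@En.n l7510 (nat_lit 1089) (nat_lit 4) (nat_lit 10))
    (@En.n l17 (nat_lit 1088) (nat_lit 5) (nat_lit 2))
    (@En.n l3011 (nat_lit 377) (nat_lit 6) (nat_lit 3))
    (@En.n l1559 (nat_lit 13771) (nat_lit 0) (nat_lit 14))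
    (@En.n l2547 (nat_lit 1019) (nat_lit 9) (nat_lit 11))
    (@En.n l5916 (nat_lit 4447) (nat_lit 10) (nat_lit 13))
    (@En.n l7 (nat_lit 363) (nat_lit 10) (nat_lit 3))
    (@En.n l2547 (nat_lit 1146) (nat_lit 5) (nat_lit 5))
    (@En.n l5928 (nat_lit 3211) (nat_lit 13) (nat_lit 6))
    (@En.n l1889 (nat_lit 83) (nat_lit 8) (nat_lit 13))
    (@En.n l1559 (nat_lit 6102) (nat_lit 8) (nat_lit 6))
    (@En.n l11 (nat_lit 1088) (nat_lit 15) (nat_lit 2))))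
  (@Cl.mk (nat_lit 0x200060009000d000700060003000d000c00070003000a00040009000e000a) (nat_lit 0x12000b000500a2) (nat_lit 16) Lb.e (@T16.mk En
    (@En.n l7 (nat_lit 1050) (nat_lit 11) (nat_lit 10))
    (@En.n l5841 (nat_lit 1184) (nat_lit 1) (nat_lit 14))
    (@En.n l15955 (nat_lit 6276) (nat_lit 2) (nat_lit 9))
    (@En.i (nat_lit 1097) (nat_lit 3) (nat_lit 4))
    (@En.n l1690 (nat_lit 1091) (nat_lit 4) (nat_lit 10))
    (@En.n l152 (nat_lit 1090) (nat_lit 5) (nat_lit 3))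
    (@En.i (nat_lit 1732) (nat_lit 6) (nat_lit 7))
    (@En.n l619 (nat_lit 1092) (nat_lit 8) (nat_lit 12))
    (@En.n l22821 (nat_lit 6567) (nat_lit 9) (nat_lit 13))
    (@En.n l763 (nat_lit 366) (nat_lit 9) (nat_lit 3))
    (@En.i (nat_lit 2777) (nat_lit 0) (nat_lit 6))
    (@En.n l1545 (nat_lit 3123) (nat_lit 12) (nat_lit 7))
    (@En.i (nat_lit 377) (nat_lit 13) (nat_lit 13))
    (@En.n l832 (nat_lit 1083) (nat_lit 9) (nat_lit 9))
    (@En.i (nat_lit 6217) (nat_lit 8) (nat_lit 6))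
    (@En.n l50 (nat_lit 1089) (nat_lit 15) (nat_lit 2))))
  (@Cl.mk (nat_lit 0x20006000a000d000700060003000d0006000d0003000a00030009000e000a) (nat_lit 0x13000b010800a2) (nat_lit 16) Lb.e (@T16.mk En
    (@En.n l7 (nat_lit 1049) (nat_lit 13) (nat_lit 10))
    (@En.n l5841 (nat_lit 1185) (nat_lit 1) (nat_lit 14))
    (@En.n l27235 (nat_lit 6277) (nat_lit 2) (nat_lit 9))
    (@En.i (nat_lit 1092) (nat_lit 3) (nat_lit 3))
    (@En.n l27238 (nat_lit 4870) (nat_lit 4) (nat_lit 10))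
    (@En.n l117 (nat_lit 1089) (nat_lit 5) (nat_lit 3))
    (@En.n l625 (nat_lit 379) (nat_lit 7) (nat_lit 13))
    (@En.i (nat_lit 1091) (nat_lit 7) (nat_lit 6))
    (@En.n l3928 (nat_lit 6568) (nat_lit 9) (nat_lit 13))
    (@En.n l763 (nat_lit 368) (nat_lit 9) (nat_lit 3))
    (@En.i (nat_lit 2776) (nat_lit 0) (nat_lit 6))
    (@En.n l1545 (nat_lit 3120) (nat_lit 12) (nat_lit 7))
    (@En.i (nat_lit 376) (nat_lit 13) (nat_lit 13))
    (@En.n l253 (nat_lit 350) (nat_lit 14) (nat_lit 10))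
    (@En.n l875 (nat_lit 6216) (nat_lit 8) (nat_lit 6))
    (@En.n l50 (nat_lit 1090) (nat_lit 15) (nat_lit 2))))
  (@Cl.mk (nat_lit 0x20006000a0009000d0008000700030006000d0007000a00030008000e0009) (nat_lit 0x12440000040091) (nat_lit 16) Lb.e (@T16.mk En
    (@En.n l7 (nat_lit 981) (nat_lit 13) (nat_lit 9))
    (@En.n l5841 (nat_lit 1182) (nat_lit 1) (nat_lit 14))
    (@En.n l36587 (nat_lit 6275) (nat_lit 2) (nat_lit 8))
    (@En.n l18482 (nat_lit 1094) (nat_lit 3) (nat_lit 3))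
    (@En.n l36588 (nat_lit 4872) (nat_lit 4) (nat_lit 10))
    (@En.n l24548 (nat_lit 1589) (nat_lit 5) (nat_lit 7))
    (@En.n l5035 (nat_lit 1093) (nat_lit 7) (nat_lit 13))
    (@En.n l3106 (nat_lit 6502) (nat_lit 7) (nat_lit 6))
    (@En.n l763 (nat_lit 370) (nat_lit 8) (nat_lit 3))
    (@En.i (nat_lit 1823) (nat_lit 0) (nat_lit 7))
    (@En.n l21012 (nat_lit 3125) (nat_lit 11) (nat_lit 8))
    (@En.n l3 (nat_lit 1090) (nat_lit 12) (nat_lit 13))
    (@En.n l3 (nat_lit 1089) (nat_lit 13) (nat_lit 9))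
    (@En.n l3549 (nat_lit 353) (nat_lit 14) (nat_lit 10))
    (@En.n l875 (nat_lit 6218) (nat_lit 5) (nat_lit 6))
    (@En.n l50 (nat_lit 1091) (nat_lit 15) (nat_lit 2))))
  (@Cl.mk (nat_lit 0x20007000a000d000700060003000c0006000d0009000400030009000e000a) (nat_lit 0x12000a0a6000a1) (nat_lit 16) Lb.e (@T16.mk En
    (@En.n l7 (nat_lit 982) (nat_lit 13) (nat_lit 10))
    (@En.n l5841 (nat_lit 1183) (nat_lit 1) (nat_lit 14))
    (@En.n l845 (nat_lit 9915) (nat_lit 2) (nat_lit 9))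
    (@En.n l11 (nat_lit 1090) (nat_lit 3) (nat_lit 3))
    (@En.n l11019 (nat_lit 622) (nat_lit 4) (nat_lit 4))
    (@En.i (nat_lit 1093) (nat_lit 5) (nat_lit 9))
    (@En.n l3478 (nat_lit 1098) (nat_lit 7) (nat_lit 13))
    (@En.n l18482 (nat_lit 1094) (nat_lit 7) (nat_lit 6))
    (@En.n l9759 (nat_lit 6570) (nat_lit 9) (nat_lit 12))
    (@En.n l763 (nat_lit 372) (nat_lit 9) (nat_lit 3))
    (@En.i (nat_lit 1829) (nat_lit 0) (nat_lit 6))
    (@En.n l9759 (nat_lit 3121) (nat_lit 12) (nat_lit 7))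
    (@En.i (nat_lit 378) (nat_lit 13) (nat_lit 13))
    (@En.n l18483 (nat_lit 355) (nat_lit 8) (nat_lit 10))
    (@En.n l7544 (nat_lit 8790) (nat_lit 4) (nat_lit 7))
    (@En.n l50 (nat_lit 1092) (nat_lit 15) (nat_lit 2))))
  (@Cl.mk (nat_lit 0x200070006000a000d000800070003000d000600090003000a0008000e0009) (nat_lit 0x24400b0507091) (nat_lit 16) Lb.e (@T16.mk En
    (@En.n l7 (nat_lit 984) (nat_lit 12) (nat_lit 9))
    (@En.n l5841 (nat_lit 1180) (nat_lit 1) (nat_lit 14))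
    (@En.n l6389 (nat_lit 9912) (nat_lit 2) (nat_lit 8))
    (@En.n l7109 (nat_lit 4873) (nat_lit 3) (nat_lit 10))
    (@En.n l117 (nat_lit 1096) (nat_lit 4) (nat_lit 3))
    (@En.n l12222 (nat_lit 1652) (nat_lit 5) (nat_lit 9))
    (@En.n l15773 (nat_lit 1095) (nat_lit 6) (nat_lit 6))
    (@En.n l15774 (nat_lit 6571) (nat_lit 8) (nat_lit 13))
    (@En.n l763 (nat_lit 1305) (nat_lit 8) (nat_lit 3))
    (@En.i (nat_lit 1824) (nat_lit 0) (nat_lit 7))
    (@En.n l1545 (nat_lit 1996) (nat_lit 11) (nat_lit 8))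
    (@En.i (nat_lit 379) (nat_lit 12) (nat_lit 13))
    (@En.n l207 (nat_lit 1092) (nat_lit 13) (nat_lit 10))
    (@En.i (nat_lit 1090) (nat_lit 14) (nat_lit 6))
    (@En.n l15775 (nat_lit 8773) (nat_lit 5) (nat_lit 7))
    (@En.n l50 (nat_lit 1093) (nat_lit 15) (nat_lit 2))))
  (@Cl.mk (nat_lit 0x20007000a0008000d0008000700030006000d0009000800030008000e0009) (nat_lit 0x340009500091) (nat_lit 16) Lb.e (@T16.mk En
    (@En.n l22822 (nat_lit 978) (nat_lit 13) (nat_lit 9))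
    (@En.n l10274 (nat_lit 1181) (nat_lit 1) (nat_lit 14))
    (@En.n l2943 (nat_lit 9910) (nat_lit 2) (nat_lit 8))
    (@En.n l22823 (nat_lit 1091) (nat_lit 3) (nat_lit 3))
    (@En.n l747 (nat_lit 1723) (nat_lit 0) (nat_lit 8))
    (@En.n l22824 (nat_lit 1095) (nat_lit 5) (nat_lit 9))
    (@En.n l9934 (nat_lit 1096) (nat_lit 7) (nat_lit 13))
    (@En.n l22825 (nat_lit 6501) (nat_lit 7) (nat_lit 6))
    (@En.n l11 (nat_lit 1101) (nat_lit 8) (nat_lit 3))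
    (@En.n l8142 (nat_lit 1818) (nat_lit 0) (nat_lit 7))
    (@En.n l20472 (nat_lit 4362) (nat_lit 11) (nat_lit 8))
    (@En.n l22826 (nat_lit 1092) (nat_lit 12) (nat_lit 13))
    (@En.n l22826 (nat_lit 1097) (nat_lit 13) (nat_lit 8))
    (@En.n l1723 (nat_lit 1594) (nat_lit 8) (nat_lit 10))
    (@En.n l710 (nat_lit 9431) (nat_lit 5) (nat_lit 7))
    (@En.n l3 (nat_lit 1094) (nat_lit 15) (nat_lit 2))))
  (@Cl.mk (nat_lit 0x200070006000a0009000d000900080003000600090007000a0007000e0008) (nat_lit 0x1255600404081) (nat_lit 16) Lb.e (@T16.mk En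
    (@En.n l12976 (nat_lit 980) (nat_lit 9) (nat_lit 8))
    (@En.n l1578 (nat_lit 1179) (nat_lit 1) (nat_lit 14))
    (@En.n l30482 (nat_lit 9909) (nat_lit 2) (nat_lit 7))
    (@En.i (nat_lit 4940) (nat_lit 3) (nat_lit 10))
    (@En.n l3178 (nat_lit 1721) (nat_lit 4) (nat_lit 7))
    (@En.n l387 (nat_lit 1790) (nat_lit 5) (nat_lit 9))
    (@En.n l3340 (nat_lit 6503) (nat_lit 6) (nat_lit 6))
    (@En.n l7194 (nat_lit 1304) (nat_lit 7) (nat_lit 3))
    (@En.n l4021 (nat_lit 1822) (nat_lit 0) (nat_lit 8))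
    (@En.n l387 (nat_lit 4363) (nat_lit 10) (nat_lit 9))
    (@En.n l21830 (nat_lit 1093) (nat_lit 11) (nat_lit 13))
    (@En.n l21830 (nat_lit 1096) (nat_lit 12) (nat_lit 9))
    (@En.n l22413 (nat_lit 1094) (nat_lit 13) (nat_lit 10))
    (@En.n l30483 (nat_lit 1091) (nat_lit 14) (nat_lit 6))
    (@En.n l30484 (nat_lit 8403) (nat_lit 6) (nat_lit 7))
    (@En.n l28 (nat_lit 1095) (nat_lit 15) (nat_lit 2))))
  (@Cl.mk (nat_lit 0x2000800060009000d000800070003000d000800070003000a0008000e0009) (nat_lit 0x1440084005091) (nat_lit 16) Lb.e (@T16.mk En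
    (@En.n l23894 (nat_lit 983) (nat_lit 12) (nat_lit 9))
    (@En.n l23895 (nat_lit 1178) (nat_lit 1) (nat_lit 14))
    (@En.n l23896 (nat_lit 9913) (nat_lit 2) (nat_lit 8))
    (@En.n l19143 (nat_lit 1095) (nat_lit 3) (nat_lit 10))
    (@En.n l152 (nat_lit 1093) (nat_lit 4) (nat_lit 3))
    (@En.n l10262 (nat_lit 1720) (nat_lit 0) (nat_lit 7))
    (@En.n l19144 (nat_lit 1487) (nat_lit 6) (nat_lit 8))
    (@En.n l19497 (nat_lit 6569) (nat_lit 8) (nat_lit 13))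
    (@En.n l763 (nat_lit 1303) (nat_lit 8) (nat_lit 3))
    (@En.i (nat_lit 1827) (nat_lit 0) (nat_lit 7))
    (@En.n l23897 (nat_lit 1995) (nat_lit 11) (nat_lit 8))
    (@En.i (nat_lit 1098) (nat_lit 12) (nat_lit 13))
    (@En.n l23898 (nat_lit 622) (nat_lit 13) (nat_lit 9))
    (@En.i (nat_lit 1089) (nat_lit 14) (nat_lit 6))
    (@En.n l23899 (nat_lit 9684) (nat_lit 5) (nat_lit 8))
    (@En.n l50 (nat_lit 1096) (nat_lit 15) (nat_lit 2))))
  (@Cl.mk (nat_lit 0x200080008000d000700060003000c000c00080008000400040009000e000a) (nat_lit 0x640000150000a0) (nat_lit 16) Lb.e (@T16.mk En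
    (@En.n l7 (nat_lit 1256) (nat_lit 12) (nat_lit 10))
    (@En.n l5841 (nat_lit 1326) (nat_lit 1) (nat_lit 14))
    (@En.n l19319 (nat_lit 9331) (nat_lit 2) (nat_lit 9))
    (@En.n l1964 (nat_lit 1100) (nat_lit 3) (nat_lit 4))
    (@En.n l152 (nat_lit 1092) (nat_lit 4) (nat_lit 4))
    (@En.n l19320 (nat_lit 1233) (nat_lit 8) (nat_lit 8))
    (@En.i (nat_lit 1096) (nat_lit 6) (nat_lit 8))
    (@En.n l19321 (nat_lit 622) (nat_lit 8) (nat_lit 12))
    (@En.n l19322 (nat_lit 6566) (nat_lit 9) (nat_lit 12))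
    (@En.n l763 (nat_lit 1228) (nat_lit 9) (nat_lit 3))
    (@En.i (nat_lit 1842) (nat_lit 0) (nat_lit 6))
    (@En.n l1545 (nat_lit 3198) (nat_lit 12) (nat_lit 7))
    (@En.i (nat_lit 354) (nat_lit 13) (nat_lit 13))
    (@En.n l19323 (nat_lit 1245) (nat_lit 8) (nat_lit 8))
    (@En.i (nat_lit 9269) (nat_lit 4) (nat_lit 8))
    (@En.n l50 (nat_lit 1097) (nat_lit 15) (nat_lit 2))))
  (@Cl.mk (nat_lit 0x200080006000d000700060003000d000d000800030003000a0009000e000a) (nat_lit 0x3000b960080a0) (nat_lit 16) Lb.e (@T16.mk En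
    (@En.n l7 (nat_lit 1130) (nat_lit 11) (nat_lit 10))
    (@En.n l5841 (nat_lit 1126) (nat_lit 1) (nat_lit 14))
    (@En.n l14458 (nat_lit 6064) (nat_lit 2) (nat_lit 9))
    (@En.n l476 (nat_lit 1093) (nat_lit 3) (nat_lit 10))
    (@En.n l152 (nat_lit 379) (nat_lit 4) (nat_lit 3))
    (@En.n l15843 (nat_lit 1099) (nat_lit 5) (nat_lit 3))
    (@En.n l97 (nat_lit 1633) (nat_lit 6) (nat_lit 8))
    (@En.n l15844 (nat_lit 1099) (nat_lit 8) (nat_lit 13))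
    (@En.n l13622 (nat_lit 6573) (nat_lit 9) (nat_lit 13))
    (@En.n l763 (nat_lit 1312) (nat_lit 9) (nat_lit 3))
    (@En.i (nat_lit 1205) (nat_lit 0) (nat_lit 6))
    (@En.n l300 (nat_lit 877) (nat_lit 12) (nat_lit 7))
    (@En.n l15845 (nat_lit 381) (nat_lit 13) (nat_lit 13))
    (@En.i (nat_lit 377) (nat_lit 14) (nat_lit 6))
    (@En.n l15846 (nat_lit 8762) (nat_lit 4) (nat_lit 8))
    (@En.n l50 (nat_lit 1098) (nat_lit 15) (nat_lit 2))))
  (@Cl.mk (nat_lit 0x200090006000d000700060003000d0007000e00030002000a0009000e000a) (nat_lit 0x400080c0060a0) (nat_lit 16) Lb.e (@T16.mk En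
    (@En.n l24612 (nat_lit 1131) (nat_lit 12) (nat_lit 10))
    (@En.i (nat_lit 1200) (nat_lit 13) (nat_lit 14))
    (@En.n l24613 (nat_lit 6062) (nat_lit 2) (nat_lit 9))
    (@En.n l24614 (nat_lit 1096) (nat_lit 3) (nat_lit 10))
    (@En.n l17 (nat_lit 1099) (nat_lit 4) (nat_lit 2))
    (@En.n l24615 (nat_lit 1098) (nat_lit 5) (nat_lit 3))
    (@En.n l11747 (nat_lit 13769) (nat_lit 0) (nat_lit 14))
    (@En.n l24616 (nat_lit 1574) (nat_lit 7) (nat_lit 7))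
    (@En.n l24617 (nat_lit 6572) (nat_lit 9) (nat_lit 13))
    (@En.n l24613 (nat_lit 1313) (nat_lit 9) (nat_lit 3))
    (@En.n l24618 (nat_lit 1202) (nat_lit 5) (nat_lit 6))
    (@En.n l24619 (nat_lit 3104) (nat_lit 6) (nat_lit 7))
    (@En.n l24620 (nat_lit 416) (nat_lit 8) (nat_lit 13))
    (@En.n l24621 (nat_lit 1088) (nat_lit 14) (nat_lit 6))
    (@En.n l24622 (nat_lit 9281) (nat_lit 10) (nat_lit 9))
    (@En.n l3 (nat_lit 1099) (nat_lit 15) (nat_lit 2))))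
  (@Cl.mk (nat_lit 0x200070007000d000700060003000e000c00020009000900040009000e000a) (nat_lit 0x60000106000a0) (nat_lit 16) Lb.e (@T16.mk En
    (@En.n l3657 (nat_lit 1270) (nat_lit 10) (nat_lit 10))
    (@En.n l9925 (nat_lit 1329) (nat_lit 11) (nat_lit 14))
    (@En.n l2943 (nat_lit 10036) (nat_lit 2) (nat_lit 9))
    (@En.n l2351 (nat_lit 1089) (nat_lit 3) (nat_lit 4))
    (@En.n l61 (nat_lit 1816) (nat_lit 14) (nat_lit 9))
    (@En.i (nat_lit 1094) (nat_lit 5) (nat_lit 9))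
    (@En.n l7 (nat_lit 1100) (nat_lit 6) (nat_lit 2))
    (@En.n l9934 (nat_lit 1097) (nat_lit 8) (nat_lit 12))
    (@En.n l664 (nat_lit 5373) (nat_lit 1) (nat_lit 14))
    (@En.n l11 (nat_lit 1242) (nat_lit 9) (nat_lit 3))
    (@En.n l2351 (nat_lit 2712) (nat_lit 3) (nat_lit 6))
    (@En.i (nat_lit 3205) (nat_lit 4) (nat_lit 7))
    (@En.n l2351 (nat_lit 1019) (nat_lit 13) (nat_lit 13))
    (@En.n l5331 (nat_lit 1244) (nat_lit 9) (nat_lit 7))
    (@En.n l6081 (nat_lit 9558) (nat_lit 7) (nat_lit 7))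
    (@En.n l3 (nat_lit 1100) (nat_lit 15) (nat_lit 2))))
  (@Cl.mk (nat_lit 0x20007000a0008000d0006000900030006000d0009000800030007000e000a) (nat_lit 0x306000500072) (nat_lit 16) Lb.e (@T16.mk En
    (@En.n l1532 (nat_lit 977) (nat_lit 13) (nat_lit 10))
    (@En.n l1723 (nat_lit 1542) (nat_lit 1) (nat_lit 14))
    (@En.n l2869 (nat_lit 6636) (nat_lit 2) (nat_lit 7))
    (@En.n l7638 (nat_lit 370) (nat_lit 3) (nat_lit 3))
    (@En.n l747 (nat_lit 1726) (nat_lit 0) (nat_lit 8))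
    (@En.n l723 (nat_lit 1304) (nat_lit 5) (nat_lit 9))
    (@En.n l9926 (nat_lit 1303) (nat_lit 7) (nat_lit 13))
    (@En.n l3546 (nat_lit 5027) (nat_lit 12) (nat_lit 6))
    (@En.i (nat_lit 1094) (nat_lit 8) (nat_lit 3))
    (@En.n l723 (nat_lit 13222) (nat_lit 9) (nat_lit 9))
    (@En.n l22809 (nat_lit 4224) (nat_lit 6) (nat_lit 6))
    (@En.n l2362 (nat_lit 372) (nat_lit 12) (nat_lit 13))
    (@En.n l2362 (nat_lit 1228) (nat_lit 13) (nat_lit 8))
    (@En.n l1723 (nat_lit 1595) (nat_lit 8) (nat_lit 10))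
    (@En.n l6081 (nat_lit 9692) (nat_lit 5) (nat_lit 7))
    (@En.n l3 (nat_lit 1101) (nat_lit 15) (nat_lit 2))))
  (@Cl.mk (nat_lit 0x2000c0008000d000500040003000c000c000c0008000400040004000e000b) (nat_lit 0x2050000a00000c1) (nat_lit 16) Lb.e (@T16.mk En
    (@En.i (nat_lit 303) (nat_lit 12) (nat_lit 11))
    (@En.n l532 (nat_lit 12499) (nat_lit 1) (nat_lit 14))
    (@En.n l11 (nat_lit 1021) (nat_lit 12) (nat_lit 4))
    (@En.n l152 (nat_lit 1118) (nat_lit 3) (nat_lit 4))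
    (@En.n l936 (nat_lit 1104) (nat_lit 4) (nat_lit 4))
    (@En.i (nat_lit 1125) (nat_lit 5) (nat_lit 8))
    (@En.n l619 (nat_lit 1103) (nat_lit 7) (nat_lit 12))
    (@En.i (nat_lit 1082) (nat_lit 4) (nat_lit 12))
    (@En.i (nat_lit 7523) (nat_lit 9) (nat_lit 12))
    (@En.i (nat_lit 1085) (nat_lit 9) (nat_lit 3))
    (@En.i (nat_lit 1156) (nat_lit 10) (nat_lit 4))
    (@En.i (nat_lit 3860) (nat_lit 0) (nat_lit 5))
    (@En.n l217 (nat_lit 175) (nat_lit 13) (nat_lit 13))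
    (@En.n l2254 (nat_lit 2312) (nat_lit 14) (nat_lit 8))
    (@En.n l50 (nat_lit 322) (nat_lit 10) (nat_lit 12))
    (@En.n l7 (nat_lit 1102) (nat_lit 15) (nat_lit 2))))
  (@Cl.mk (nat_lit 0x2000c0009000d000500040003000d000c00070003000e00040002000e000b) (nat_lit 0x205000ba00100c1) (nat_lit 16) Lb.e (@T16.mk En
    (@En.n l7594 (nat_lit 346) (nat_lit 14) (nat_lit 11))
    (@En.n l614 (nat_lit 12244) (nat_lit 1) (nat_lit 14))
    (@En.n l11 (nat_lit 1103) (nat_lit 2) (nat_lit 2))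
    (@En.n l117 (nat_lit 1102) (nat_lit 3) (nat_lit 4))
    (@En.n l2691 (nat_lit 444) (nat_lit 1) (nat_lit 14))
    (@En.n l936 (nat_lit 1105) (nat_lit 5) (nat_lit 3))
    (@En.i (nat_lit 1629) (nat_lit 6) (nat_lit 7))
    (@En.n l936 (nat_lit 1104) (nat_lit 8) (nat_lit 12))
    (@En.n l2253 (nat_lit 4617) (nat_lit 9) (nat_lit 13))
    (@En.i (nat_lit 1110) (nat_lit 9) (nat_lit 3))
    (@En.i (nat_lit 965) (nat_lit 10) (nat_lit 4))
    (@En.n l7595 (nat_lit 3335) (nat_lit 8) (nat_lit 5))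
    (@En.n l1299 (nat_lit 172) (nat_lit 13) (nat_lit 13))
    (@En.n l3896 (nat_lit 7767) (nat_lit 14) (nat_lit 9))
    (@En.n l7596 (nat_lit 324) (nat_lit 12) (nat_lit 12))
    (@En.n l7 (nat_lit 1103) (nat_lit 15) (nat_lit 2))))
noncomputable def a69 : T16 Cl := @T16.mk Cl
  (@Cl.mk (nat_lit 0x2000c000a000d000500040003000c0006000d000d000400030003000e000b) (nat_lit 0x20100090bb000c1) (nat_lit 16) Lb.e (@T16.mk En
    (@En.i (nat_lit 348) (nat_lit 13) (nat_lit 11))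
    (@En.i (nat_lit 12498) (nat_lit 1) (nat_lit 14))
    (@En.n l1991 (nat_lit 1009) (nat_lit 13) (nat_lit 3))
    (@En.n l152 (nat_lit 1105) (nat_lit 3) (nat_lit 3))
    (@En.n l1992 (nat_lit 1082) (nat_lit 0) (nat_lit 4))
    (@En.n l619 (nat_lit 1105) (nat_lit 6) (nat_lit 13))
    (@En.i (nat_lit 1116) (nat_lit 7) (nat_lit 13))
    (@En.n l1769 (nat_lit 1107) (nat_lit 7) (nat_lit 6))
    (@En.i (nat_lit 7641) (nat_lit 9) (nat_lit 12))
    (@En.i (nat_lit 1109) (nat_lit 9) (nat_lit 3))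
    (@En.i (nat_lit 963) (nat_lit 10) (nat_lit 4))
    (@En.n l1993 (nat_lit 4263) (nat_lit 7) (nat_lit 5))
    (@En.n l1994 (nat_lit 2) (nat_lit 5) (nat_lit 13))
    (@En.n l869 (nat_lit 3060) (nat_lit 14) (nat_lit 10))
    (@En.n l50 (nat_lit 330) (nat_lit 11) (nat_lit 12))
    (@En.n l7 (nat_lit 1104) (nat_lit 15) (nat_lit 2))))
  (@Cl.mk (nat_lit 0x2000c000a000d000500040003000d0006000d0003000e00030002000e000b) (nat_lit 0x102000a0a0300c1) (nat_lit 16) Lb.e (@T16.mk En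
    (@En.n l5852 (nat_lit 347) (nat_lit 14) (nat_lit 11))
    (@En.n l5853 (nat_lit 12035) (nat_lit 1) (nat_lit 14))
    (@En.n l11 (nat_lit 1105) (nat_lit 2) (nat_lit 2))
    (@En.n l117 (nat_lit 1104) (nat_lit 3) (nat_lit 3))
    (@En.n l5853 (nat_lit 13613) (nat_lit 0) (nat_lit 14))
    (@En.n l2576 (nat_lit 1103) (nat_lit 5) (nat_lit 3))
    (@En.i (nat_lit 1117) (nat_lit 7) (nat_lit 13))
    (@En.i (nat_lit 1106) (nat_lit 7) (nat_lit 6))
    (@En.n l5854 (nat_lit 4618) (nat_lit 9) (nat_lit 13))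
    (@En.i (nat_lit 1108) (nat_lit 9) (nat_lit 3))
    (@En.i (nat_lit 964) (nat_lit 10) (nat_lit 4))
    (@En.n l5855 (nat_lit 3340) (nat_lit 8) (nat_lit 5))
    (@En.n l5853 (nat_lit 173) (nat_lit 5) (nat_lit 13))
    (@En.n l998 (nat_lit 7339) (nat_lit 14) (nat_lit 10))
    (@En.n l5856 (nat_lit 328) (nat_lit 12) (nat_lit 12))
    (@En.n l7 (nat_lit 1105) (nat_lit 15) (nat_lit 2))))
  (@Cl.mk (nat_lit 0x2000b000a0009000d0006000500030006000d0007000e00030002000e000a) (nat_lit 0x2013000090000c1) (nat_lit 16) Lb.e (@T16.mk En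
    (@En.n l14481 (nat_lit 344) (nat_lit 14) (nat_lit 10))
    (@En.n l5853 (nat_lit 12029) (nat_lit 1) (nat_lit 14))
    (@En.n l11 (nat_lit 1106) (nat_lit 2) (nat_lit 2))
    (@En.n l1992 (nat_lit 1107) (nat_lit 3) (nat_lit 3))
    (@En.n l619 (nat_lit 13646) (nat_lit 0) (nat_lit 14))
    (@En.n l14482 (nat_lit 1695) (nat_lit 5) (nat_lit 7))
    (@En.n l476 (nat_lit 1548) (nat_lit 7) (nat_lit 13))
    (@En.n l899 (nat_lit 2034) (nat_lit 12) (nat_lit 6))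
    (@En.n l2577 (nat_lit 1111) (nat_lit 8) (nat_lit 3))
    (@En.i (nat_lit 966) (nat_lit 0) (nat_lit 5))
    (@En.n l14483 (nat_lit 4465) (nat_lit 7) (nat_lit 6))
    (@En.n l476 (nat_lit 1105) (nat_lit 12) (nat_lit 13))
    (@En.n l1769 (nat_lit 1103) (nat_lit 13) (nat_lit 9))
    (@En.n l14482 (nat_lit 3059) (nat_lit 14) (nat_lit 10))
    (@En.n l5856 (nat_lit 340) (nat_lit 12) (nat_lit 11))
    (@En.n l7 (nat_lit 1106) (nat_lit 15) (nat_lit 2))))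
  (@Cl.mk (nat_lit 0x2000b000a0008000d0006000500030006000d000d000800030003000e000a) (nat_lit 0x201200000a000c1) (nat_lit 16) Lb.e (@T16.mk En
    (@En.n l5868 (nat_lit 337) (nat_lit 13) (nat_lit 10))
    (@En.n l2092 (nat_lit 12033) (nat_lit 1) (nat_lit 14))
    (@En.n l5869 (nat_lit 1593) (nat_lit 13) (nat_lit 3))
    (@En.n l5870 (nat_lit 1106) (nat_lit 3) (nat_lit 3))
    (@En.i (nat_lit 1568) (nat_lit 0) (nat_lit 8))
    (@En.n l2691 (nat_lit 1106) (nat_lit 6) (nat_lit 13))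
    (@En.n l1596 (nat_lit 1549) (nat_lit 7) (nat_lit 13))
    (@En.n l5871 (nat_lit 2031) (nat_lit 12) (nat_lit 6))
    (@En.n l5872 (nat_lit 1112) (nat_lit 8) (nat_lit 3))
    (@En.i (nat_lit 969) (nat_lit 0) (nat_lit 5))
    (@En.n l5873 (nat_lit 1602) (nat_lit 6) (nat_lit 6))
    (@En.n l1596 (nat_lit 1104) (nat_lit 12) (nat_lit 13))
    (@En.i (nat_lit 1102) (nat_lit 13) (nat_lit 8))
    (@En.n l2092 (nat_lit 3055) (nat_lit 14) (nat_lit 10))
    (@En.n l5306 (nat_lit 338) (nat_lit 11) (nat_lit 11))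
    (@En.n l7 (nat_lit 1107) (nat_lit 15) (nat_lit 2))))
  (@Cl.mk (nat_lit 0x2000d000a000d000300060003000d0006000d0003000e00030002000e000a) (nat_lit 0x105000b020300c1) (nat_lit 16) Lb.e (@T16.mk En
    (@En.n l817 (nat_lit 212) (nat_lit 14) (nat_lit 10))
    (@En.n l2574 (nat_lit 12240) (nat_lit 1) (nat_lit 14))
    (@En.n l11 (nat_lit 1108) (nat_lit 2) (nat_lit 2))
    (@En.n l117 (nat_lit 1109) (nat_lit 3) (nat_lit 3))
    (@En.n l2575 (nat_lit 13611) (nat_lit 0) (nat_lit 14))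
    (@En.n l2576 (nat_lit 1110) (nat_lit 5) (nat_lit 3))
    (@En.i (nat_lit 1119) (nat_lit 0) (nat_lit 13))
    (@En.n l2577 (nat_lit 1111) (nat_lit 7) (nat_lit 6))
    (@En.n l2578 (nat_lit 6856) (nat_lit 9) (nat_lit 13))
    (@En.n l17 (nat_lit 1105) (nat_lit 9) (nat_lit 3))
    (@En.n l826 (nat_lit 694) (nat_lit 12) (nat_lit 6))
    (@En.n l2579 (nat_lit 1113) (nat_lit 11) (nat_lit 3))
    (@En.n l2580 (nat_lit 208) (nat_lit 0) (nat_lit 13))
    (@En.n l2581 (nat_lit 7336) (nat_lit 14) (nat_lit 10))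
    (@En.n l816 (nat_lit 212) (nat_lit 12) (nat_lit 13))
    (@En.n l7 (nat_lit 1108) (nat_lit 15) (nat_lit 2))))
  (@Cl.mk (nat_lit 0x2000d000a000d000300060003000c0006000d000d000400030003000e000a) (nat_lit 0x20200090a3000c1) (nat_lit 16) Lb.e (@T16.mk En
    (@En.n l817 (nat_lit 216) (nat_lit 13) (nat_lit 10))
    (@En.n l864 (nat_lit 12243) (nat_lit 1) (nat_lit 14))
    (@En.n l865 (nat_lit 1013) (nat_lit 13) (nat_lit 3))
    (@En.n l152 (nat_lit 1108) (nat_lit 3) (nat_lit 3))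
    (@En.n l864 (nat_lit 1080) (nat_lit 0) (nat_lit 4))
    (@En.n l619 (nat_lit 1108) (nat_lit 6) (nat_lit 13))
    (@En.i (nat_lit 1066) (nat_lit 7) (nat_lit 13))
    (@En.n l866 (nat_lit 1112) (nat_lit 7) (nat_lit 6))
    (@En.n l867 (nat_lit 6777) (nat_lit 9) (nat_lit 12))
    (@En.n l17 (nat_lit 1104) (nat_lit 9) (nat_lit 3))
    (@En.n l826 (nat_lit 973) (nat_lit 12) (nat_lit 6))
    (@En.n l868 (nat_lit 1114) (nat_lit 11) (nat_lit 3))
    (@En.n l825 (nat_lit 194) (nat_lit 0) (nat_lit 13))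
    (@En.n l869 (nat_lit 7337) (nat_lit 14) (nat_lit 10))
    (@En.n l816 (nat_lit 216) (nat_lit 11) (nat_lit 13))
    (@En.n l7 (nat_lit 1109) (nat_lit 15) (nat_lit 2))))
  (@Cl.mk (nat_lit 0x2000d0009000d000300060003000d000c00070003000e00040002000e000a) (nat_lit 0x205000aa00100c1) (nat_lit 16) Lb.e (@T16.mk En
    (@En.n l817 (nat_lit 219) (nat_lit 14) (nat_lit 10))
    (@En.n l1195 (nat_lit 12239) (nat_lit 1) (nat_lit 14))
    (@En.n l11 (nat_lit 1110) (nat_lit 2) (nat_lit 2))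
    (@En.n l117 (nat_lit 1085) (nat_lit 3) (nat_lit 4))
    (@En.n l3894 (nat_lit 408) (nat_lit 1) (nat_lit 14))
    (@En.n l936 (nat_lit 1108) (nat_lit 5) (nat_lit 3))
    (@En.i (nat_lit 1635) (nat_lit 6) (nat_lit 7))
    (@En.n l936 (nat_lit 1109) (nat_lit 8) (nat_lit 12))
    (@En.n l1192 (nat_lit 6710) (nat_lit 9) (nat_lit 13))
    (@En.n l17 (nat_lit 1103) (nat_lit 9) (nat_lit 3))
    (@En.n l826 (nat_lit 685) (nat_lit 12) (nat_lit 6))
    (@En.n l3895 (nat_lit 1115) (nat_lit 11) (nat_lit 3))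
    (@En.n l1299 (nat_lit 207) (nat_lit 0) (nat_lit 13))
    (@En.n l3896 (nat_lit 7344) (nat_lit 14) (nat_lit 9))
    (@En.n l816 (nat_lit 219) (nat_lit 12) (nat_lit 13))
    (@En.n l7 (nat_lit 1110) (nat_lit 15) (nat_lit 2))))
  (@Cl.mk (nat_lit 0x2000c000a0009000d0004000700030006000d0007000e00030002000e0009) (nat_lit 0x2016000000000c1) (nat_lit 16) Lb.e (@T16.mk En
    (@En.i (nat_lit 1057) (nat_lit 14) (nat_lit 9))
    (@En.n l7668 (nat_lit 12030) (nat_lit 1) (nat_lit 14))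
    (@En.n l28 (nat_lit 1111) (nat_lit 2) (nat_lit 2))
    (@En.n l7669 (nat_lit 1112) (nat_lit 3) (nat_lit 3))
    (@En.n l7668 (nat_lit 13617) (nat_lit 0) (nat_lit 14))
    (@En.n l7670 (nat_lit 1696) (nat_lit 5) (nat_lit 7))
    (@En.n l7671 (nat_lit 1185) (nat_lit 7) (nat_lit 13))
    (@En.i (nat_lit 1351) (nat_lit 12) (nat_lit 6))
    (@En.n l7672 (nat_lit 1106) (nat_lit 8) (nat_lit 3))
    (@En.n l7673 (nat_lit 971) (nat_lit 0) (nat_lit 7))
    (@En.n l7674 (nat_lit 4160) (nat_lit 10) (nat_lit 4))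
    (@En.n l7671 (nat_lit 1108) (nat_lit 12) (nat_lit 13))
    (@En.n l7675 (nat_lit 1110) (nat_lit 13) (nat_lit 9))
    (@En.n l7676 (nat_lit 7338) (nat_lit 14) (nat_lit 10))
    (@En.n l612 (nat_lit 1057) (nat_lit 12) (nat_lit 12))
    (@En.n l50 (nat_lit 1111) (nat_lit 15) (nat_lit 2))))
  (@Cl.mk (nat_lit 0x2000c000a0008000d0004000700030006000d000d000800030003000e0009) (nat_lit 0x2013000091000c1) (nat_lit 16) Lb.e (@T16.mk En
    (@En.n l2810 (nat_lit 1055) (nat_lit 13) (nat_lit 9))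
    (@En.n l2811 (nat_lit 12034) (nat_lit 1) (nat_lit 14))
    (@En.n l2812 (nat_lit 1592) (nat_lit 13) (nat_lit 3))
    (@En.n l2813 (nat_lit 1111) (nat_lit 3) (nat_lit 3))
    (@En.n l2811 (nat_lit 1578) (nat_lit 0) (nat_lit 8))
    (@En.n l2814 (nat_lit 1111) (nat_lit 6) (nat_lit 13))
    (@En.n l2815 (nat_lit 1184) (nat_lit 7) (nat_lit 13))
    (@En.n l233 (nat_lit 1385) (nat_lit 12) (nat_lit 6))
    (@En.n l2816 (nat_lit 1107) (nat_lit 8) (nat_lit 3))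
    (@En.n l2817 (nat_lit 972) (nat_lit 0) (nat_lit 7))
    (@En.n l2818 (nat_lit 4157) (nat_lit 10) (nat_lit 4))
    (@En.n l2815 (nat_lit 1109) (nat_lit 12) (nat_lit 13))
    (@En.n l2819 (nat_lit 1085) (nat_lit 13) (nat_lit 8))
    (@En.n l2820 (nat_lit 3058) (nat_lit 14) (nat_lit 10))
    (@En.n l2821 (nat_lit 1055) (nat_lit 11) (nat_lit 12))
    (@En.n l18 (nat_lit 1112) (nat_lit 15) (nat_lit 2))))
  (@Cl.mk (nat_lit 0x2000d000c000b000300060004000d0005000d0003000e00030002000e000a) (nat_lit 0x20000a02030000) (nat_lit 16) Lb.e (@T16.mk En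
    (@En.n l7681 (nat_lit 1160) (nat_lit 14) (nat_lit 10))
    (@En.n l7682 (nat_lit 12237) (nat_lit 1) (nat_lit 14))
    (@En.n l50 (nat_lit 1113) (nat_lit 2) (nat_lit 2))
    (@En.n l564 (nat_lit 1114) (nat_lit 3) (nat_lit 3))
    (@En.n l7683 (nat_lit 13612) (nat_lit 0) (nat_lit 14))
    (@En.i (nat_lit 1115) (nat_lit 5) (nat_lit 3))
    (@En.n l2221 (nat_lit 1121) (nat_lit 0) (nat_lit 13))
    (@En.i (nat_lit 4160) (nat_lit 7) (nat_lit 5))
    (@En.n l7684 (nat_lit 6857) (nat_lit 9) (nat_lit 13))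
    (@En.n l117 (nat_lit 967) (nat_lit 9) (nat_lit 4))
    (@En.n l7681 (nat_lit 4048) (nat_lit 7) (nat_lit 6))
    (@En.n l7685 (nat_lit 1108) (nat_lit 11) (nat_lit 3))
    (@En.n l4021 (nat_lit 2899) (nat_lit 0) (nat_lit 11))
    (@En.n l1865 (nat_lit 1105) (nat_lit 14) (nat_lit 12))
    (@En.n l3340 (nat_lit 1160) (nat_lit 12) (nat_lit 13))
    (@En.n l17 (nat_lit 1113) (nat_lit 15) (nat_lit 2))))
  (@Cl.mk (nat_lit 0x2000d000c000b000300060004000c0005000d000d000400030003000e000a) (nat_lit 0x30000901300000) (nat_lit 16) Lb.e (@T16.mk En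
    (@En.n l1330 (nat_lit 1158) (nat_lit 13) (nat_lit 10))
    (@En.n l1432 (nat_lit 12238) (nat_lit 1) (nat_lit 14))
    (@En.n l132 (nat_lit 1368) (nat_lit 13) (nat_lit 3))
    (@En.n l1722 (nat_lit 1113) (nat_lit 3) (nat_lit 3))
    (@En.i (nat_lit 1081) (nat_lit 0) (nat_lit 4))
    (@En.n l2593 (nat_lit 1113) (nat_lit 6) (nat_lit 13))
    (@En.n l2832 (nat_lit 1073) (nat_lit 7) (nat_lit 13))
    (@En.n l1436 (nat_lit 4157) (nat_lit 7) (nat_lit 5))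
    (@En.n l1437 (nat_lit 6658) (nat_lit 9) (nat_lit 12))
    (@En.n l2832 (nat_lit 2722) (nat_lit 9) (nat_lit 4))
    (@En.n l1329 (nat_lit 4045) (nat_lit 12) (nat_lit 6))
    (@En.n l2833 (nat_lit 1109) (nat_lit 11) (nat_lit 3))
    (@En.n l1439 (nat_lit 2901) (nat_lit 0) (nat_lit 11))
    (@En.n l2834 (nat_lit 1104) (nat_lit 14) (nat_lit 12))
    (@En.n l1329 (nat_lit 1158) (nat_lit 11) (nat_lit 13))
    (@En.n l18 (nat_lit 1114) (nat_lit 15) (nat_lit 2))))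
  (@Cl.mk (nat_lit 0x2000d000c000a000300060004000d000c00060003000e00040002000e000a) (nat_lit 0x230000ba0010001) (nat_lit 16) Lb.e (@T16.mk En
    (@En.n l7681 (nat_lit 302) (nat_lit 14) (nat_lit 10))
    (@En.n l7682 (nat_lit 12235) (nat_lit 1) (nat_lit 14))
    (@En.n l50 (nat_lit 1115) (nat_lit 2) (nat_lit 2))
    (@En.n l10843 (nat_lit 1087) (nat_lit 3) (nat_lit 4))
    (@En.n l10844 (nat_lit 493) (nat_lit 1) (nat_lit 14))
    (@En.n l28 (nat_lit 1113) (nat_lit 5) (nat_lit 3))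
    (@En.n l10845 (nat_lit 2097) (nat_lit 6) (nat_lit 6))
    (@En.n l2650 (nat_lit 1114) (nat_lit 8) (nat_lit 12))
    (@En.n l7684 (nat_lit 6715) (nat_lit 9) (nat_lit 13))
    (@En.n l117 (nat_lit 2898) (nat_lit 9) (nat_lit 4))
    (@En.n l7681 (nat_lit 3754) (nat_lit 7) (nat_lit 6))
    (@En.n l10846 (nat_lit 1110) (nat_lit 11) (nat_lit 3))
    (@En.n l4021 (nat_lit 2902) (nat_lit 0) (nat_lit 10))
    (@En.n l10847 (nat_lit 1103) (nat_lit 14) (nat_lit 12))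
    (@En.n l3340 (nat_lit 302) (nat_lit 12) (nat_lit 13))
    (@En.n l17 (nat_lit 1115) (nat_lit 15) (nat_lit 2))))
  (@Cl.mk (nat_lit 0x2000c0006000d000500040003000d000d000c00030003000a0004000e000b) (nat_lit 0x1040008a20060c1) (nat_lit 16) Lb.e (@T16.mk En
    (@En.i (nat_lit 306) (nat_lit 11) (nat_lit 11))
    (@En.i (nat_lit 6067) (nat_lit 1) (nat_lit 14))
    (@En.i (nat_lit 1102) (nat_lit 2) (nat_lit 4))
    (@En.n l476 (nat_lit 1548) (nat_lit 3) (nat_lit 10))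
    (@En.n l152 (nat_lit 1117) (nat_lit 4) (nat_lit 3))
    (@En.i (nat_lit 1144) (nat_lit 0) (nat_lit 3))
    (@En.n l619 (nat_lit 1118) (nat_lit 7) (nat_lit 12))
    (@En.n l97 (nat_lit 1144) (nat_lit 3) (nat_lit 13))
    (@En.i (nat_lit 7584) (nat_lit 9) (nat_lit 13))
    (@En.i (nat_lit 1066) (nat_lit 9) (nat_lit 3))
    (@En.i (nat_lit 1147) (nat_lit 10) (nat_lit 4))
    (@En.i (nat_lit 4277) (nat_lit 5) (nat_lit 5))
    (@En.n l217 (nat_lit 134) (nat_lit 13) (nat_lit 13))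
    (@En.n l217 (nat_lit 6164) (nat_lit 14) (nat_lit 6))
    (@En.n l50 (nat_lit 315) (nat_lit 9) (nat_lit 12))
    (@En.n l7 (nat_lit 1116) (nat_lit 15) (nat_lit 2))))
  (@Cl.mk (nat_lit 0x2000c0006000d000500040003000e000d0002000d0003000a0003000e000b) (nat_lit 0x103000a902080c1) (nat_lit 16) Lb.e (@T16.mk En
    (@En.i (nat_lit 305) (nat_lit 10) (nat_lit 11))
    (@En.i (nat_lit 6069) (nat_lit 1) (nat_lit 14))
    (@En.i (nat_lit 1118) (nat_lit 2) (nat_lit 3))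
    (@En.i (nat_lit 4971) (nat_lit 3) (nat_lit 10))
    (@En.n l117 (nat_lit 1116) (nat_lit 4) (nat_lit 3))
    (@En.i (nat_lit 445) (nat_lit 0) (nat_lit 13))
    (@En.n l3 (nat_lit 1117) (nat_lit 6) (nat_lit 2))
    (@En.i (nat_lit 1116) (nat_lit 8) (nat_lit 13))
    (@En.i (nat_lit 7585) (nat_lit 1) (nat_lit 14))
    (@En.i (nat_lit 1119) (nat_lit 2) (nat_lit 3))
    (@En.i (nat_lit 1215) (nat_lit 10) (nat_lit 4))
    (@En.i (nat_lit 4286) (nat_lit 4) (nat_lit 5))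
    (@En.n l217 (nat_lit 165) (nat_lit 6) (nat_lit 13))
    (@En.n l217 (nat_lit 6165) (nat_lit 14) (nat_lit 6))
    (@En.n l50 (nat_lit 317) (nat_lit 8) (nat_lit 12))
    (@En.n l7 (nat_lit 1117) (nat_lit 15) (nat_lit 2))))
  (@Cl.mk (nat_lit 0x2000c0007000d000500040003000e000c0002000d000900040003000e000b) (nat_lit 0x204000c101000c1) (nat_lit 16) Lb.e (@T16.mk En
    (@En.i (nat_lit 304) (nat_lit 10) (nat_lit 11))
    (@En.n l287 (nat_lit 12506) (nat_lit 1) (nat_lit 14))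
    (@En.n l11 (nat_lit 1117) (nat_lit 2) (nat_lit 3))
    (@En.i (nat_lit 1103) (nat_lit 3) (nat_lit 4))
    (@En.i (nat_lit 1123) (nat_lit 14) (nat_lit 9))
    (@En.i (nat_lit 405) (nat_lit 6) (nat_lit 13))
    (@En.n l3 (nat_lit 1118) (nat_lit 6) (nat_lit 2))
    (@En.i (nat_lit 1102) (nat_lit 8) (nat_lit 12))
    (@En.i (nat_lit 7586) (nat_lit 1) (nat_lit 14))
    (@En.i (nat_lit 1120) (nat_lit 9) (nat_lit 3))
    (@En.i (nat_lit 1214) (nat_lit 10) (nat_lit 4))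
    (@En.i (nat_lit 3867) (nat_lit 4) (nat_lit 5))
    (@En.n l217 (nat_lit 169) (nat_lit 6) (nat_lit 13))
    (@En.n l2254 (nat_lit 7918) (nat_lit 14) (nat_lit 7))
    (@En.n l50 (nat_lit 320) (nat_lit 8) (nat_lit 12))
    (@En.n l7 (nat_lit 1118) (nat_lit 15) (nat_lit 2))))
  (@Cl.mk (nat_lit 0x2000d0003000a0003000e000a0002000d0006000d000300060003000e000d) (nat_lit 0x1080c10203000a1) (nat_lit 16) Lb.e (@T16.mk En
    (@En.i (nat_lit 1066) (nat_lit 8) (nat_lit 13))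
    (@En.i (nat_lit 6743) (nat_lit 1) (nat_lit 14))
    (@En.n l17 (nat_lit 1117) (nat_lit 9) (nat_lit 3))
    (@En.n l826 (nat_lit 686) (nat_lit 12) (nat_lit 6))
    (@En.n l17 (nat_lit 1121) (nat_lit 4) (nat_lit 3))
    (@En.n l2580 (nat_lit 163) (nat_lit 0) (nat_lit 13))
    (@En.n l2687 (nat_lit 6160) (nat_lit 14) (nat_lit 6))
    (@En.n l816 (nat_lit 1065) (nat_lit 8) (nat_lit 13))
    (@En.n l7 (nat_lit 1119) (nat_lit 8) (nat_lit 2))
    (@En.n l817 (nat_lit 1065) (nat_lit 10) (nat_lit 10))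
    (@En.i (nat_lit 6068) (nat_lit 1) (nat_lit 14))
    (@En.i (nat_lit 1120) (nat_lit 2) (nat_lit 3))
    (@En.i (nat_lit 4879) (nat_lit 3) (nat_lit 10))
    (@En.n l117 (nat_lit 1066) (nat_lit 4) (nat_lit 3))
    (@En.i (nat_lit 407) (nat_lit 0) (nat_lit 13))
    (@En.n l3 (nat_lit 1119) (nat_lit 15) (nat_lit 2))))
noncomputable def a70 : T16 Cl := @T16.mk Cl
  (@Cl.mk (nat_lit 0x2000d0007000d000300060003000e000c0002000d000900040003000e000a) (nat_lit 0x204000ca02600c1) (nat_lit 16) Lb.e (@T16.mk En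
    (@En.n l817 (nat_lit 297) (nat_lit 10) (nat_lit 10))
    (@En.n l1195 (nat_lit 12505) (nat_lit 1) (nat_lit 14))
    (@En.n l11 (nat_lit 1119) (nat_lit 11) (nat_lit 3))
    (@En.i (nat_lit 1110) (nat_lit 3) (nat_lit 4))
    (@En.i (nat_lit 1124) (nat_lit 14) (nat_lit 9))
    (@En.i (nat_lit 409) (nat_lit 6) (nat_lit 13))
    (@En.n l3 (nat_lit 1120) (nat_lit 6) (nat_lit 2))
    (@En.i (nat_lit 1085) (nat_lit 8) (nat_lit 12))
    (@En.i (nat_lit 6758) (nat_lit 1) (nat_lit 14))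
    (@En.n l17 (nat_lit 1118) (nat_lit 9) (nat_lit 3))
    (@En.n l826 (nat_lit 684) (nat_lit 12) (nat_lit 6))
    (@En.n l17 (nat_lit 1122) (nat_lit 4) (nat_lit 3))
    (@En.n l2580 (nat_lit 206) (nat_lit 0) (nat_lit 13))
    (@En.n l2254 (nat_lit 7919) (nat_lit 14) (nat_lit 7))
    (@En.n l816 (nat_lit 297) (nat_lit 8) (nat_lit 13))
    (@En.n l7 (nat_lit 1120) (nat_lit 15) (nat_lit 2))))
  (@Cl.mk (nat_lit 0x2000d000300090003000e000a0002000d000c0007000300060004000e000d) (nat_lit 0x2060b10220000a1) (nat_lit 16) Lb.e (@T16.mk En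
    (@En.i (nat_lit 1073) (nat_lit 8) (nat_lit 13))
    (@En.i (nat_lit 6751) (nat_lit 1) (nat_lit 14))
    (@En.i (nat_lit 1216) (nat_lit 9) (nat_lit 4))
    (@En.n l3971 (nat_lit 3876) (nat_lit 3) (nat_lit 6))
    (@En.n l3473 (nat_lit 1119) (nat_lit 4) (nat_lit 3))
    (@En.n l947 (nat_lit 3231) (nat_lit 0) (nat_lit 7))
    (@En.n l61 (nat_lit 1117) (nat_lit 14) (nat_lit 12))
    (@En.n l2805 (nat_lit 1070) (nat_lit 8) (nat_lit 13))
    (@En.n l7 (nat_lit 1121) (nat_lit 8) (nat_lit 2))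
    (@En.n l8170 (nat_lit 1070) (nat_lit 10) (nat_lit 10))
    (@En.i (nat_lit 6070) (nat_lit 1) (nat_lit 14))
    (@En.i (nat_lit 1122) (nat_lit 11) (nat_lit 3))
    (@En.n l2869 (nat_lit 5043) (nat_lit 3) (nat_lit 9))
    (@En.n l117 (nat_lit 1073) (nat_lit 4) (nat_lit 3))
    (@En.i (nat_lit 492) (nat_lit 0) (nat_lit 13))
    (@En.n l3 (nat_lit 1121) (nat_lit 15) (nat_lit 2))))
  (@Cl.mk (nat_lit 0x2000d000800040003000e000a0002000d000c0008000300060004000e000c) (nat_lit 0x1000b10230000ca) (nat_lit 16) Lb.e (@T16.mk En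
    (@En.i (nat_lit 1087) (nat_lit 8) (nat_lit 12))
    (@En.i (nat_lit 6756) (nat_lit 1) (nat_lit 14))
    (@En.i (nat_lit 1217) (nat_lit 9) (nat_lit 4))
    (@En.n l3971 (nat_lit 3879) (nat_lit 3) (nat_lit 6))
    (@En.n l3473 (nat_lit 1120) (nat_lit 11) (nat_lit 3))
    (@En.n l3972 (nat_lit 3230) (nat_lit 0) (nat_lit 8))
    (@En.n l61 (nat_lit 1118) (nat_lit 14) (nat_lit 12))
    (@En.n l2805 (nat_lit 299) (nat_lit 8) (nat_lit 13))
    (@En.n l7 (nat_lit 1122) (nat_lit 8) (nat_lit 2))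
    (@En.n l8170 (nat_lit 299) (nat_lit 10) (nat_lit 10))
    (@En.n l287 (nat_lit 12507) (nat_lit 1) (nat_lit 14))
    (@En.n l11 (nat_lit 1121) (nat_lit 11) (nat_lit 3))
    (@En.n l9520 (nat_lit 1115) (nat_lit 3) (nat_lit 4))
    (@En.i (nat_lit 2346) (nat_lit 14) (nat_lit 8))
    (@En.n l2940 (nat_lit 489) (nat_lit 6) (nat_lit 13))
    (@En.n l3 (nat_lit 1122) (nat_lit 15) (nat_lit 2))))
  (@Cl.mk (nat_lit 0x200090003000a000e000a0002000b00070006000d000600050003000e000d) (nat_lit 0x7087003005000a0) (nat_lit 16) Lb.e (@T16.mk En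
    (@En.i (nat_lit 1125) (nat_lit 7) (nat_lit 13))
    (@En.i (nat_lit 7587) (nat_lit 1) (nat_lit 14))
    (@En.i (nat_lit 1124) (nat_lit 2) (nat_lit 3))
    (@En.i (nat_lit 1209) (nat_lit 3) (nat_lit 5))
    (@En.i (nat_lit 1325) (nat_lit 4) (nat_lit 6))
    (@En.n l524 (nat_lit 445) (nat_lit 6) (nat_lit 13))
    (@En.i (nat_lit 1117) (nat_lit 13) (nat_lit 6))
    (@En.n l6578 (nat_lit 8524) (nat_lit 14) (nat_lit 7))
    (@En.n l50 (nat_lit 1143) (nat_lit 9) (nat_lit 11))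
    (@En.n l7 (nat_lit 1123) (nat_lit 9) (nat_lit 2))
    (@En.i (nat_lit 1129) (nat_lit 11) (nat_lit 10))
    (@En.n l532 (nat_lit 5645) (nat_lit 12) (nat_lit 14))
    (@En.n l11 (nat_lit 4968) (nat_lit 2) (nat_lit 10))
    (@En.n l117 (nat_lit 1125) (nat_lit 3) (nat_lit 3))
    (@En.i (nat_lit 1401) (nat_lit 0) (nat_lit 9))
    (@En.n l3 (nat_lit 1123) (nat_lit 15) (nat_lit 2))))
  (@Cl.mk (nat_lit 0x200090003000a000e00090002000c00070006000d000400070003000e000d) (nat_lit 0x506c000005000a0) (nat_lit 16) Lb.e (@T16.mk En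
    (@En.i (nat_lit 1126) (nat_lit 7) (nat_lit 13))
    (@En.i (nat_lit 6759) (nat_lit 1) (nat_lit 14))
    (@En.n l17 (nat_lit 1123) (nat_lit 2) (nat_lit 3))
    (@En.n l826 (nat_lit 1210) (nat_lit 3) (nat_lit 7))
    (@En.n l17 (nat_lit 2346) (nat_lit 4) (nat_lit 4))
    (@En.n l524 (nat_lit 407) (nat_lit 6) (nat_lit 13))
    (@En.i (nat_lit 1119) (nat_lit 6) (nat_lit 6))
    (@En.n l6578 (nat_lit 8525) (nat_lit 14) (nat_lit 7))
    (@En.n l7968 (nat_lit 1127) (nat_lit 9) (nat_lit 12))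
    (@En.n l7 (nat_lit 1124) (nat_lit 9) (nat_lit 2))
    (@En.n l7963 (nat_lit 1127) (nat_lit 11) (nat_lit 9))
    (@En.n l532 (nat_lit 5646) (nat_lit 12) (nat_lit 14))
    (@En.n l11 (nat_lit 4969) (nat_lit 13) (nat_lit 10))
    (@En.n l117 (nat_lit 1126) (nat_lit 3) (nat_lit 3))
    (@En.i (nat_lit 1407) (nat_lit 0) (nat_lit 9))
    (@En.n l3 (nat_lit 1124) (nat_lit 15) (nat_lit 2))))
  (@Cl.mk (nat_lit 0x2000b00080006000d000600050003000d000d000800030003000a000e000a) (nat_lit 0x3005000b0600870) (nat_lit 16) Lb.e (@T16.mk En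
    (@En.i (nat_lit 1130) (nat_lit 12) (nat_lit 10))
    (@En.n l532 (nat_lit 5639) (nat_lit 1) (nat_lit 14))
    (@En.n l476 (nat_lit 1545) (nat_lit 2) (nat_lit 10))
    (@En.n l152 (nat_lit 1123) (nat_lit 13) (nat_lit 3))
    (@En.n l7704 (nat_lit 1201) (nat_lit 0) (nat_lit 3))
    (@En.n l97 (nat_lit 1649) (nat_lit 0) (nat_lit 8))
    (@En.n l2719 (nat_lit 1201) (nat_lit 3) (nat_lit 13))
    (@En.n l5896 (nat_lit 7517) (nat_lit 8) (nat_lit 13))
    (@En.i (nat_lit 1126) (nat_lit 8) (nat_lit 3))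
    (@En.i (nat_lit 1203) (nat_lit 9) (nat_lit 5))
    (@En.i (nat_lit 1322) (nat_lit 5) (nat_lit 6))
    (@En.n l7966 (nat_lit 405) (nat_lit 12) (nat_lit 13))
    (@En.i (nat_lit 1116) (nat_lit 13) (nat_lit 6))
    (@En.n l7967 (nat_lit 8526) (nat_lit 14) (nat_lit 8))
    (@En.n l50 (nat_lit 1139) (nat_lit 10) (nat_lit 11))
    (@En.n l7 (nat_lit 1125) (nat_lit 15) (nat_lit 2))))
  (@Cl.mk (nat_lit 0x2000c00080006000d000400070003000d000d000800030003000a000e0009) (nat_lit 0x4000b0600690) (nat_lit 16) Lb.e (@T16.mk En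
    (@En.n l7963 (nat_lit 1128) (nat_lit 12) (nat_lit 9))
    (@En.n l7964 (nat_lit 5644) (nat_lit 1) (nat_lit 14))
    (@En.n l476 (nat_lit 1180) (nat_lit 2) (nat_lit 10))
    (@En.n l152 (nat_lit 1124) (nat_lit 13) (nat_lit 3))
    (@En.n l7704 (nat_lit 1200) (nat_lit 0) (nat_lit 3))
    (@En.n l97 (nat_lit 1648) (nat_lit 0) (nat_lit 8))
    (@En.n l2719 (nat_lit 1200) (nat_lit 3) (nat_lit 13))
    (@En.n l7965 (nat_lit 6821) (nat_lit 8) (nat_lit 13))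
    (@En.n l17 (nat_lit 1125) (nat_lit 8) (nat_lit 3))
    (@En.n l826 (nat_lit 1207) (nat_lit 11) (nat_lit 7))
    (@En.n l17 (nat_lit 2344) (nat_lit 10) (nat_lit 4))
    (@En.n l7966 (nat_lit 409) (nat_lit 12) (nat_lit 13))
    (@En.i (nat_lit 1066) (nat_lit 13) (nat_lit 6))
    (@En.n l7967 (nat_lit 8478) (nat_lit 14) (nat_lit 8))
    (@En.n l7968 (nat_lit 1128) (nat_lit 10) (nat_lit 12))
    (@En.n l7 (nat_lit 1126) (nat_lit 15) (nat_lit 2))))
  (@Cl.mk (nat_lit 0x2000a0003000b00090009000c00060005000c0004000700070004000e000d) (nat_lit 0x80670a0040000ab) (nat_lit 16) Lb.e (@T16.mk En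
    (@En.i (nat_lit 1128) (nat_lit 2) (nat_lit 13))
    (@En.n l3724 (nat_lit 6348) (nat_lit 1) (nat_lit 14))
    (@En.n l12666 (nat_lit 1143) (nat_lit 2) (nat_lit 4))
    (@En.n l15402 (nat_lit 1124) (nat_lit 3) (nat_lit 7))
    (@En.n l15403 (nat_lit 379) (nat_lit 11) (nat_lit 7))
    (@En.n l20050 (nat_lit 2345) (nat_lit 5) (nat_lit 4))
    (@En.n l20051 (nat_lit 410) (nat_lit 7) (nat_lit 12))
    (@En.n l28 (nat_lit 1065) (nat_lit 7) (nat_lit 5))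
    (@En.i (nat_lit 8569) (nat_lit 8) (nat_lit 6))
    (@En.n l18 (nat_lit 1186) (nat_lit 6) (nat_lit 12))
    (@En.n l61 (nat_lit 1186) (nat_lit 7) (nat_lit 9))
    (@En.n l890 (nat_lit 6175) (nat_lit 12) (nat_lit 9))
    (@En.i (nat_lit 4923) (nat_lit 13) (nat_lit 11))
    (@En.n l117 (nat_lit 1128) (nat_lit 14) (nat_lit 3))
    (@En.i (nat_lit 1194) (nat_lit 0) (nat_lit 10))
    (@En.n l3 (nat_lit 1127) (nat_lit 15) (nat_lit 2))))
  (@Cl.mk (nat_lit 0x30003000b00090009000c00070005000c0004000700070004000d000d0009) (nat_lit 0x670a0050000ab7) (nat_lit 16) Lb.e (@T16.mk En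
    (@En.n l97 (nat_lit 1188) (nat_lit 0) (nat_lit 9))
    (@En.n l15401 (nat_lit 1173) (nat_lit 3) (nat_lit 13))
    (@En.i (nat_lit 6818) (nat_lit 2) (nat_lit 13))
    (@En.n l12666 (nat_lit 1139) (nat_lit 3) (nat_lit 4))
    (@En.n l15402 (nat_lit 1126) (nat_lit 9) (nat_lit 7))
    (@En.n l15403 (nat_lit 1098) (nat_lit 11) (nat_lit 7))
    (@En.n l15404 (nat_lit 2347) (nat_lit 6) (nat_lit 4))
    (@En.n l890 (nat_lit 406) (nat_lit 8) (nat_lit 12))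
    (@En.n l28 (nat_lit 1060) (nat_lit 8) (nat_lit 5))
    (@En.i (nat_lit 8577) (nat_lit 10) (nat_lit 7))
    (@En.n l18 (nat_lit 1172) (nat_lit 6) (nat_lit 12))
    (@En.n l61 (nat_lit 1172) (nat_lit 7) (nat_lit 9))
    (@En.n l890 (nat_lit 6179) (nat_lit 13) (nat_lit 9))
    (@En.n l476 (nat_lit 1043) (nat_lit 14) (nat_lit 11))
    (@En.n l152 (nat_lit 1127) (nat_lit 13) (nat_lit 3))
    (@En.n l15405 (nat_lit 1173) (nat_lit 0) (nat_lit 3))))
  (@Cl.mk (nat_lit 0x2000a0003000b000a000a000a00060005000c0006000600060004000e000d) (nat_lit 0x8098820020000ab) (nat_lit 16) Lb.e (@T16.mk En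
    (@En.i (nat_lit 1130) (nat_lit 2) (nat_lit 13))
    (@En.i (nat_lit 6765) (nat_lit 1) (nat_lit 14))
    (@En.n l7963 (nat_lit 1127) (nat_lit 2) (nat_lit 4))
    (@En.n l601 (nat_lit 379) (nat_lit 10) (nat_lit 6))
    (@En.n l77 (nat_lit 1123) (nat_lit 4) (nat_lit 6))
    (@En.n l6064 (nat_lit 3115) (nat_lit 5) (nat_lit 6))
    (@En.n l524 (nat_lit 402) (nat_lit 7) (nat_lit 12))
    (@En.i (nat_lit 305) (nat_lit 7) (nat_lit 5))
    (@En.n l2254 (nat_lit 8534) (nat_lit 8) (nat_lit 6))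
    (@En.n l15696 (nat_lit 1137) (nat_lit 6) (nat_lit 10))
    (@En.n l26945 (nat_lit 1136) (nat_lit 6) (nat_lit 10))
    (@En.n l13860 (nat_lit 6173) (nat_lit 12) (nat_lit 10))
    (@En.n l1937 (nat_lit 4970) (nat_lit 13) (nat_lit 11))
    (@En.n l117 (nat_lit 1130) (nat_lit 14) (nat_lit 3))
    (@En.i (nat_lit 1199) (nat_lit 0) (nat_lit 10))
    (@En.n l3 (nat_lit 1129) (nat_lit 15) (nat_lit 2))))
  (@Cl.mk (nat_lit 0x30003000b000a000a000a00070005000c0006000600060004000d000d0009) (nat_lit 0x98820020000ab7) (nat_lit 16) Lb.e (@T16.mk En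
    (@En.n l97 (nat_lit 1620) (nat_lit 0) (nat_lit 9))
    (@En.n l13991 (nat_lit 1131) (nat_lit 3) (nat_lit 13))
    (@En.n l13857 (nat_lit 7499) (nat_lit 2) (nat_lit 13))
    (@En.n l7963 (nat_lit 1128) (nat_lit 3) (nat_lit 4))
    (@En.n l601 (nat_lit 1098) (nat_lit 10) (nat_lit 6))
    (@En.n l77 (nat_lit 1125) (nat_lit 10) (nat_lit 6))
    (@En.n l6064 (nat_lit 875) (nat_lit 6) (nat_lit 6))
    (@En.n l7966 (nat_lit 401) (nat_lit 8) (nat_lit 12))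
    (@En.i (nat_lit 306) (nat_lit 8) (nat_lit 5))
    (@En.n l13859 (nat_lit 8374) (nat_lit 10) (nat_lit 7))
    (@En.n l15696 (nat_lit 1135) (nat_lit 6) (nat_lit 10))
    (@En.n l26945 (nat_lit 1132) (nat_lit 6) (nat_lit 10))
    (@En.n l13860 (nat_lit 6139) (nat_lit 13) (nat_lit 10))
    (@En.n l476 (nat_lit 984) (nat_lit 14) (nat_lit 11))
    (@En.n l152 (nat_lit 1129) (nat_lit 13) (nat_lit 3))
    (@En.n l15694 (nat_lit 1131) (nat_lit 0) (nat_lit 3))))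
  (@Cl.mk (nat_lit 0x2000b000a000a000a00080005000c0006000600060004000d0008000e0003) (nat_lit 0x90820020000a6c0) (nat_lit 16) Lb.e (@T16.mk En
    (@En.n l15704 (nat_lit 1130) (nat_lit 15) (nat_lit 3))
    (@En.n l3107 (nat_lit 13715) (nat_lit 0) (nat_lit 14))
    (@En.n l9708 (nat_lit 1566) (nat_lit 2) (nat_lit 8))
    (@En.i (nat_lit 7494) (nat_lit 2) (nat_lit 13))
    (@En.n l5781 (nat_lit 1173) (nat_lit 4) (nat_lit 4))
    (@En.n l27879 (nat_lit 1099) (nat_lit 10) (nat_lit 6))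
    (@En.n l16928 (nat_lit 1201) (nat_lit 6) (nat_lit 6))
    (@En.n l387 (nat_lit 876) (nat_lit 7) (nat_lit 6))
    (@En.i (nat_lit 403) (nat_lit 9) (nat_lit 12))
    (@En.n l9708 (nat_lit 312) (nat_lit 9) (nat_lit 5))
    (@En.n l77 (nat_lit 8372) (nat_lit 11) (nat_lit 8))
    (@En.n l55 (nat_lit 1134) (nat_lit 6) (nat_lit 10))
    (@En.n l1952 (nat_lit 1133) (nat_lit 6) (nat_lit 10))
    (@En.n l1106 (nat_lit 6141) (nat_lit 14) (nat_lit 10))
    (@En.n l1738 (nat_lit 983) (nat_lit 14) (nat_lit 11))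
    (@En.n l18 (nat_lit 1131) (nat_lit 15) (nat_lit 2))))
  (@Cl.mk (nat_lit 0x200070005000d000d000a00030003000c000a000900060004000b000e0006) (nat_lit 0xab800a7100420) (nat_lit 16) Lb.e (@T16.mk En
    (@En.n l23726 (nat_lit 1130) (nat_lit 6) (nat_lit 6))
    (@En.n l12404 (nat_lit 3940) (nat_lit 4) (nat_lit 14))
    (@En.n l890 (nat_lit 404) (nat_lit 2) (nat_lit 11))
    (@En.n l28 (nat_lit 308) (nat_lit 3) (nat_lit 4))
    (@En.n l9742 (nat_lit 8371) (nat_lit 4) (nat_lit 6))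
    (@En.i (nat_lit 507) (nat_lit 5) (nat_lit 9))
    (@En.n l1063 (nat_lit 6177) (nat_lit 13) (nat_lit 10))
    (@En.n l476 (nat_lit 987) (nat_lit 8) (nat_lit 12))
    (@En.n l152 (nat_lit 1136) (nat_lit 8) (nat_lit 3))
    (@En.n l16107 (nat_lit 1133) (nat_lit 9) (nat_lit 3))
    (@En.n l4684 (nat_lit 1189) (nat_lit 11) (nat_lit 10))
    (@En.n l16108 (nat_lit 1133) (nat_lit 12) (nat_lit 13))
    (@En.n l16109 (nat_lit 7498) (nat_lit 13) (nat_lit 13))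
    (@En.n l699 (nat_lit 1172) (nat_lit 14) (nat_lit 5))
    (@En.n l17 (nat_lit 1128) (nat_lit 4) (nat_lit 7))
    (@En.n l18 (nat_lit 1132) (nat_lit 15) (nat_lit 2))))
  (@Cl.mk (nat_lit 0x200070005000d0009000e00030002000c000a000900070004000b000e0006) (nat_lit 0xa7900a7100420) (nat_lit 16) Lb.e (@T16.mk En
    (@En.n l2683 (nat_lit 1131) (nat_lit 7) (nat_lit 6))
    (@En.n l3428 (nat_lit 3942) (nat_lit 9) (nat_lit 14))
    (@En.n l29105 (nat_lit 431) (nat_lit 2) (nat_lit 11))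
    (@En.n l17210 (nat_lit 314) (nat_lit 3) (nat_lit 4))
    (@En.n l3428 (nat_lit 8369) (nat_lit 4) (nat_lit 7))
    (@En.n l3907 (nat_lit 503) (nat_lit 5) (nat_lit 9))
    (@En.n l17884 (nat_lit 6187) (nat_lit 14) (nat_lit 10))
    (@En.n l26498 (nat_lit 988) (nat_lit 8) (nat_lit 12))
    (@En.n l17 (nat_lit 1133) (nat_lit 8) (nat_lit 2))
    (@En.n l17206 (nat_lit 1132) (nat_lit 9) (nat_lit 3))
    (@En.n l25605 (nat_lit 13474) (nat_lit 0) (nat_lit 14))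
    (@En.n l3428 (nat_lit 1564) (nat_lit 12) (nat_lit 9))
    (@En.n l2381 (nat_lit 7495) (nat_lit 13) (nat_lit 13))
    (@En.n l29106 (nat_lit 1174) (nat_lit 14) (nat_lit 5))
    (@En.n l27040 (nat_lit 1173) (nat_lit 5) (nat_lit 7))
    (@En.n l28 (nat_lit 1133) (nat_lit 15) (nat_lit 2))))
  (@Cl.mk (nat_lit 0x20005000d0009000e00030002000c000b000a00070004000b0005000e0006) (nat_lit 0xa7900701002000) (nat_lit 16) Lb.e (@T16.mk En
    (@En.i (nat_lit 1131) (nat_lit 6) (nat_lit 6))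
    (@En.n l19982 (nat_lit 1141) (nat_lit 1) (nat_lit 14))
    (@En.n l387 (nat_lit 3117) (nat_lit 2) (nat_lit 5))
    (@En.n l473 (nat_lit 399) (nat_lit 3) (nat_lit 11))
    (@En.n l2662 (nat_lit 313) (nat_lit 4) (nat_lit 4))
    (@En.n l1234 (nat_lit 8085) (nat_lit 5) (nat_lit 7))
    (@En.n l19983 (nat_lit 505) (nat_lit 13) (nat_lit 10))
    (@En.n l1236 (nat_lit 6133) (nat_lit 8) (nat_lit 11))
    (@En.n l15441 (nat_lit 989) (nat_lit 9) (nat_lit 12))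
    (@En.n l18 (nat_lit 1134) (nat_lit 9) (nat_lit 2))
    (@En.n l13294 (nat_lit 1135) (nat_lit 10) (nat_lit 3))
    (@En.n l8501 (nat_lit 13475) (nat_lit 0) (nat_lit 14))
    (@En.n l3420 (nat_lit 1567) (nat_lit 13) (nat_lit 9))
    (@En.i (nat_lit 6391) (nat_lit 14) (nat_lit 13))
    (@En.n l11216 (nat_lit 1133) (nat_lit 13) (nat_lit 5))
    (@En.n l28 (nat_lit 1134) (nat_lit 15) (nat_lit 2))))
  (@Cl.mk (nat_lit 0x20005000d000d000a00030003000c000b000a00060004000b0005000e0006) (nat_lit 0xab800a01002000) (nat_lit 16) Lb.e (@T16.mk En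
    (@En.n l9716 (nat_lit 1130) (nat_lit 5) (nat_lit 6))
    (@En.n l396 (nat_lit 1138) (nat_lit 1) (nat_lit 14))
    (@En.n l28 (nat_lit 3114) (nat_lit 2) (nat_lit 5))
    (@En.n l1836 (nat_lit 398) (nat_lit 3) (nat_lit 11))
    (@En.n l28 (nat_lit 310) (nat_lit 4) (nat_lit 4))
    (@En.n l1652 (nat_lit 8086) (nat_lit 5) (nat_lit 6))
    (@En.n l644 (nat_lit 502) (nat_lit 6) (nat_lit 10))
    (@En.n l77 (nat_lit 6134) (nat_lit 8) (nat_lit 11))
    (@En.n l476 (nat_lit 918) (nat_lit 9) (nat_lit 12))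
    (@En.n l152 (nat_lit 1137) (nat_lit 9) (nat_lit 3))
    (@En.n l7735 (nat_lit 1134) (nat_lit 10) (nat_lit 3))
    (@En.n l97 (nat_lit 1608) (nat_lit 12) (nat_lit 10))
    (@En.n l19014 (nat_lit 1134) (nat_lit 13) (nat_lit 13))
    (@En.n l5194 (nat_lit 6392) (nat_lit 14) (nat_lit 13))
    (@En.n l640 (nat_lit 1132) (nat_lit 13) (nat_lit 5))
    (@En.n l18 (nat_lit 1135) (nat_lit 15) (nat_lit 2))))
noncomputable def a71 : T16 Cl := @T16.mk Cl
  (@Cl.mk (nat_lit 0x200070005000e000d0002000b0003000c000a000900050004000b000e0006) (nat_lit 0xab090a7100420) (nat_lit 16) Lb.e (@T16.mk En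
    (@En.n l23726 (nat_lit 1129) (nat_lit 5) (nat_lit 6))
    (@En.n l12404 (nat_lit 3941) (nat_lit 7) (nat_lit 14))
    (@En.n l1599 (nat_lit 430) (nat_lit 2) (nat_lit 11))
    (@En.n l28 (nat_lit 307) (nat_lit 3) (nat_lit 4))
    (@En.n l6494 (nat_lit 8565) (nat_lit 4) (nat_lit 5))
    (@En.i (nat_lit 517) (nat_lit 5) (nat_lit 9))
    (@En.n l1063 (nat_lit 6174) (nat_lit 12) (nat_lit 10))
    (@En.n l26121 (nat_lit 4911) (nat_lit 8) (nat_lit 12))
    (@En.n l117 (nat_lit 1132) (nat_lit 8) (nat_lit 3))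
    (@En.i (nat_lit 1196) (nat_lit 10) (nat_lit 11))
    (@En.n l3 (nat_lit 1136) (nat_lit 10) (nat_lit 2))
    (@En.i (nat_lit 1132) (nat_lit 12) (nat_lit 13))
    (@En.n l12404 (nat_lit 6770) (nat_lit 13) (nat_lit 14))
    (@En.n l699 (nat_lit 1186) (nat_lit 14) (nat_lit 5))
    (@En.n l17 (nat_lit 1127) (nat_lit 3) (nat_lit 7))
    (@En.n l18 (nat_lit 1136) (nat_lit 15) (nat_lit 2))))
  (@Cl.mk (nat_lit 0x20005000e000d0002000b0003000c000b000a00050004000b0005000e0006) (nat_lit 0xab090701002000) (nat_lit 16) Lb.e (@T16.mk En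
    (@En.n l9716 (nat_lit 1129) (nat_lit 4) (nat_lit 6))
    (@En.n l396 (nat_lit 1142) (nat_lit 1) (nat_lit 14))
    (@En.n l28 (nat_lit 3116) (nat_lit 2) (nat_lit 5))
    (@En.n l1599 (nat_lit 400) (nat_lit 3) (nat_lit 11))
    (@En.n l28 (nat_lit 309) (nat_lit 4) (nat_lit 4))
    (@En.n l916 (nat_lit 9001) (nat_lit 5) (nat_lit 5))
    (@En.n l644 (nat_lit 508) (nat_lit 11) (nat_lit 10))
    (@En.n l77 (nat_lit 6137) (nat_lit 8) (nat_lit 11))
    (@En.n l13256 (nat_lit 5002) (nat_lit 9) (nat_lit 12))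
    (@En.n l117 (nat_lit 1135) (nat_lit 9) (nat_lit 3))
    (@En.i (nat_lit 1475) (nat_lit 11) (nat_lit 11))
    (@En.n l3 (nat_lit 1137) (nat_lit 11) (nat_lit 2))
    (@En.i (nat_lit 1135) (nat_lit 13) (nat_lit 13))
    (@En.i (nat_lit 7976) (nat_lit 1) (nat_lit 14))
    (@En.n l640 (nat_lit 1136) (nat_lit 13) (nat_lit 5))
    (@En.n l18 (nat_lit 1137) (nat_lit 15) (nat_lit 2))))
  (@Cl.mk (nat_lit 0x200080005000d000d000a00030003000c0008000b00060004000b000e0005) (nat_lit 0xab800a01002c0) (nat_lit 16) Lb.e (@T16.mk En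
    (@En.n l12661 (nat_lit 1139) (nat_lit 6) (nat_lit 5))
    (@En.i (nat_lit 5328) (nat_lit 4) (nat_lit 14))
    (@En.n l890 (nat_lit 389) (nat_lit 2) (nat_lit 11))
    (@En.n l28 (nat_lit 316) (nat_lit 3) (nat_lit 4))
    (@En.i (nat_lit 9012) (nat_lit 4) (nat_lit 6))
    (@En.i (nat_lit 506) (nat_lit 7) (nat_lit 11))
    (@En.n l4316 (nat_lit 5847) (nat_lit 6) (nat_lit 8))
    (@En.n l476 (nat_lit 917) (nat_lit 8) (nat_lit 12))
    (@En.n l152 (nat_lit 1142) (nat_lit 8) (nat_lit 3))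
    (@En.n l6822 (nat_lit 1141) (nat_lit 9) (nat_lit 3))
    (@En.n l97 (nat_lit 1623) (nat_lit 11) (nat_lit 10))
    (@En.n l17986 (nat_lit 1141) (nat_lit 12) (nat_lit 13))
    (@En.i (nat_lit 5184) (nat_lit 13) (nat_lit 13))
    (@En.n l699 (nat_lit 1135) (nat_lit 14) (nat_lit 5))
    (@En.n l12666 (nat_lit 1139) (nat_lit 4) (nat_lit 8))
    (@En.n l50 (nat_lit 1138) (nat_lit 15) (nat_lit 2))))
  (@Cl.mk (nat_lit 0x30003000b0008000b000b00070005000c0005000500080004000d000d0009) (nat_lit 0x93120020060ab7) (nat_lit 16) Lb.e (@T16.mk En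
    (@En.n l97 (nat_lit 1621) (nat_lit 0) (nat_lit 9))
    (@En.n l27941 (nat_lit 1140) (nat_lit 3) (nat_lit 13))
    (@En.n l27942 (nat_lit 1308) (nat_lit 2) (nat_lit 13))
    (@En.n l5834 (nat_lit 1130) (nat_lit 3) (nat_lit 4))
    (@En.n l7 (nat_lit 1312) (nat_lit 10) (nat_lit 8))
    (@En.n l644 (nat_lit 1312) (nat_lit 11) (nat_lit 5))
    (@En.n l5838 (nat_lit 1318) (nat_lit 6) (nat_lit 5))
    (@En.n l27943 (nat_lit 385) (nat_lit 8) (nat_lit 12))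
    (@En.i (nat_lit 315) (nat_lit 8) (nat_lit 5))
    (@En.n l26441 (nat_lit 8769) (nat_lit 10) (nat_lit 7))
    (@En.n l16140 (nat_lit 1138) (nat_lit 5) (nat_lit 11))
    (@En.n l16141 (nat_lit 1135) (nat_lit 7) (nat_lit 11))
    (@En.n l4780 (nat_lit 5901) (nat_lit 13) (nat_lit 8))
    (@En.n l476 (nat_lit 1301) (nat_lit 14) (nat_lit 11))
    (@En.n l152 (nat_lit 1143) (nat_lit 13) (nat_lit 3))
    (@En.n l26440 (nat_lit 1140) (nat_lit 0) (nat_lit 3))))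
  (@Cl.mk (nat_lit 0x2000b0008000b000b00080005000c0005000500080004000d0008000e0003) (nat_lit 0x94120020000a6c0) (nat_lit 16) Lb.e (@T16.mk En
    (@En.n l26406 (nat_lit 1139) (nat_lit 15) (nat_lit 3))
    (@En.n l26720 (nat_lit 14044) (nat_lit 0) (nat_lit 14))
    (@En.n l26721 (nat_lit 1569) (nat_lit 2) (nat_lit 8))
    (@En.n l4757 (nat_lit 5177) (nat_lit 2) (nat_lit 13))
    (@En.n l2312 (nat_lit 1131) (nat_lit 4) (nat_lit 4))
    (@En.n l26722 (nat_lit 1313) (nat_lit 10) (nat_lit 8))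
    (@En.n l26723 (nat_lit 1313) (nat_lit 11) (nat_lit 5))
    (@En.n l26724 (nat_lit 1320) (nat_lit 7) (nat_lit 5))
    (@En.i (nat_lit 388) (nat_lit 9) (nat_lit 12))
    (@En.n l4829 (nat_lit 364) (nat_lit 9) (nat_lit 5))
    (@En.n l15324 (nat_lit 9278) (nat_lit 11) (nat_lit 8))
    (@En.n l2104 (nat_lit 1141) (nat_lit 5) (nat_lit 11))
    (@En.n l4757 (nat_lit 1134) (nat_lit 7) (nat_lit 11))
    (@En.n l26725 (nat_lit 6059) (nat_lit 14) (nat_lit 8))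
    (@En.n l26726 (nat_lit 1299) (nat_lit 14) (nat_lit 11))
    (@En.n l18 (nat_lit 1140) (nat_lit 15) (nat_lit 2))))
  (@Cl.mk (nat_lit 0x200080005000d0009000e00030002000c0008000b00070004000b000e0005) (nat_lit 0x10a6c00a01002c0) (nat_lit 16) Lb.e (@T16.mk En
    (@En.n l14526 (nat_lit 1140) (nat_lit 7) (nat_lit 5))
    (@En.i (nat_lit 5329) (nat_lit 9) (nat_lit 14))
    (@En.n l27105 (nat_lit 390) (nat_lit 10) (nat_lit 11))
    (@En.i (nat_lit 908) (nat_lit 3) (nat_lit 4))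
    (@En.n l26320 (nat_lit 8087) (nat_lit 4) (nat_lit 7))
    (@En.n l11107 (nat_lit 504) (nat_lit 7) (nat_lit 11))
    (@En.i (nat_lit 6061) (nat_lit 6) (nat_lit 8))
    (@En.n l27106 (nat_lit 1298) (nat_lit 8) (nat_lit 12))
    (@En.n l17 (nat_lit 1141) (nat_lit 8) (nat_lit 2))
    (@En.n l8258 (nat_lit 1138) (nat_lit 9) (nat_lit 3))
    (@En.n l6212 (nat_lit 14045) (nat_lit 0) (nat_lit 14))
    (@En.n l11107 (nat_lit 1570) (nat_lit 12) (nat_lit 9))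
    (@En.n l6212 (nat_lit 5182) (nat_lit 13) (nat_lit 13))
    (@En.n l27107 (nat_lit 1134) (nat_lit 14) (nat_lit 5))
    (@En.n l5927 (nat_lit 1140) (nat_lit 5) (nat_lit 8))
    (@En.n l11 (nat_lit 1141) (nat_lit 15) (nat_lit 2))))
  (@Cl.mk (nat_lit 0x200080005000e000d0002000b0003000c0008000b00050004000b000e0005) (nat_lit 0xab090a01002c0) (nat_lit 16) Lb.e (@T16.mk En
    (@En.n l12661 (nat_lit 1143) (nat_lit 5) (nat_lit 5))
    (@En.i (nat_lit 5330) (nat_lit 7) (nat_lit 14))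
    (@En.n l1599 (nat_lit 397) (nat_lit 2) (nat_lit 11))
    (@En.n l28 (nat_lit 318) (nat_lit 3) (nat_lit 4))
    (@En.i (nat_lit 9003) (nat_lit 4) (nat_lit 5))
    (@En.i (nat_lit 522) (nat_lit 7) (nat_lit 11))
    (@En.n l4316 (nat_lit 5974) (nat_lit 6) (nat_lit 8))
    (@En.n l2568 (nat_lit 1883) (nat_lit 8) (nat_lit 12))
    (@En.n l117 (nat_lit 1138) (nat_lit 8) (nat_lit 3))
    (@En.i (nat_lit 1473) (nat_lit 10) (nat_lit 11))
    (@En.n l3 (nat_lit 1142) (nat_lit 10) (nat_lit 2))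
    (@En.i (nat_lit 1138) (nat_lit 12) (nat_lit 13))
    (@En.i (nat_lit 7596) (nat_lit 1) (nat_lit 14))
    (@En.n l699 (nat_lit 1137) (nat_lit 14) (nat_lit 5))
    (@En.n l12666 (nat_lit 1143) (nat_lit 3) (nat_lit 8))
    (@En.n l50 (nat_lit 1142) (nat_lit 15) (nat_lit 2))))
  (@Cl.mk (nat_lit 0x2000a0003000b0008000b000b00060005000c0005000500080004000e000d) (nat_lit 0x8090120020060ab) (nat_lit 16) Lb.e (@T16.mk En
    (@En.i (nat_lit 1139) (nat_lit 2) (nat_lit 13))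
    (@En.i (nat_lit 7591) (nat_lit 1) (nat_lit 14))
    (@En.n l5834 (nat_lit 1129) (nat_lit 2) (nat_lit 4))
    (@En.n l7 (nat_lit 1314) (nat_lit 10) (nat_lit 8))
    (@En.n l644 (nat_lit 1314) (nat_lit 11) (nat_lit 5))
    (@En.n l5838 (nat_lit 1321) (nat_lit 5) (nat_lit 5))
    (@En.n l524 (nat_lit 384) (nat_lit 7) (nat_lit 12))
    (@En.i (nat_lit 317) (nat_lit 7) (nat_lit 5))
    (@En.n l26588 (nat_lit 8770) (nat_lit 8) (nat_lit 6))
    (@En.n l16140 (nat_lit 1142) (nat_lit 5) (nat_lit 11))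
    (@En.n l16141 (nat_lit 1137) (nat_lit 7) (nat_lit 11))
    (@En.n l4780 (nat_lit 5902) (nat_lit 12) (nat_lit 8))
    (@En.n l14084 (nat_lit 1881) (nat_lit 13) (nat_lit 11))
    (@En.n l117 (nat_lit 1139) (nat_lit 14) (nat_lit 3))
    (@En.i (nat_lit 1437) (nat_lit 0) (nat_lit 10))
    (@En.n l3 (nat_lit 1143) (nat_lit 15) (nat_lit 2))))
  (@Cl.mk (nat_lit 0x2000a0005000e000b0002000c0006000d000500040003000d000b000e0003) (nat_lit 0x80c1010400091c0) (nat_lit 16) Lb.e (@T16.mk En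
    (@En.n l107 (nat_lit 1116) (nat_lit 5) (nat_lit 3))
    (@En.n l2016 (nat_lit 14051) (nat_lit 0) (nat_lit 14))
    (@En.i (nat_lit 1021) (nat_lit 2) (nat_lit 11))
    (@En.n l2016 (nat_lit 7526) (nat_lit 9) (nat_lit 13))
    (@En.i (nat_lit 1084) (nat_lit 4) (nat_lit 3))
    (@En.i (nat_lit 1145) (nat_lit 5) (nat_lit 4))
    (@En.i (nat_lit 4273) (nat_lit 6) (nat_lit 5))
    (@En.n l14491 (nat_lit 131) (nat_lit 8) (nat_lit 13))
    (@En.n l1055 (nat_lit 6168) (nat_lit 14) (nat_lit 6))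
    (@En.n l14492 (nat_lit 364) (nat_lit 10) (nat_lit 12))
    (@En.n l7 (nat_lit 1144) (nat_lit 10) (nat_lit 2))
    (@En.i (nat_lit 312) (nat_lit 12) (nat_lit 11))
    (@En.n l1865 (nat_lit 6063) (nat_lit 1) (nat_lit 14))
    (@En.n l117 (nat_lit 1082) (nat_lit 14) (nat_lit 5))
    (@En.n l7705 (nat_lit 1549) (nat_lit 3) (nat_lit 10))
    (@En.n l67 (nat_lit 1144) (nat_lit 15) (nat_lit 2))))
  (@Cl.mk (nat_lit 0x200090005000e000d0002000c00030007000e00040002000d000b000e0003) (nat_lit 0x70890300500a000) (nat_lit 16) Lb.e (@T16.mk En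
    (@En.n l107 (nat_lit 1147) (nat_lit 5) (nat_lit 3))
    (@En.n l1106 (nat_lit 13764) (nat_lit 0) (nat_lit 14))
    (@En.i (nat_lit 2715) (nat_lit 2) (nat_lit 11))
    (@En.n l1106 (nat_lit 7228) (nat_lit 9) (nat_lit 13))
    (@En.n l17 (nat_lit 1145) (nat_lit 4) (nat_lit 2))
    (@En.n l117 (nat_lit 1148) (nat_lit 5) (nat_lit 4))
    (@En.n l618 (nat_lit 129) (nat_lit 7) (nat_lit 14))
    (@En.i (nat_lit 4120) (nat_lit 7) (nat_lit 7))
    (@En.i (nat_lit 1146) (nat_lit 8) (nat_lit 3))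
    (@En.n l1865 (nat_lit 363) (nat_lit 0) (nat_lit 12))
    (@En.n l7 (nat_lit 1145) (nat_lit 10) (nat_lit 2))
    (@En.n l601 (nat_lit 1146) (nat_lit 12) (nat_lit 13))
    (@En.n l1865 (nat_lit 5893) (nat_lit 1) (nat_lit 14))
    (@En.n l117 (nat_lit 1149) (nat_lit 14) (nat_lit 5))
    (@En.n l7705 (nat_lit 2775) (nat_lit 3) (nat_lit 9))
    (@En.n l67 (nat_lit 1145) (nat_lit 15) (nat_lit 2))))
  (@Cl.mk (nat_lit 0x200090005000d000d000b000300030007000e00050002000d000b000e0003) (nat_lit 0x708a2000500b000) (nat_lit 16) Lb.e (@T16.mk En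
    (@En.n l107 (nat_lit 691) (nat_lit 11) (nat_lit 3))
    (@En.n l830 (nat_lit 13759) (nat_lit 0) (nat_lit 14))
    (@En.i (nat_lit 2714) (nat_lit 2) (nat_lit 11))
    (@En.n l830 (nat_lit 7225) (nat_lit 10) (nat_lit 13))
    (@En.n l17 (nat_lit 1146) (nat_lit 4) (nat_lit 2))
    (@En.n l34414 (nat_lit 1151) (nat_lit 5) (nat_lit 5))
    (@En.n l618 (nat_lit 133) (nat_lit 7) (nat_lit 14))
    (@En.n l830 (nat_lit 4066) (nat_lit 7) (nat_lit 7))
    (@En.n l50 (nat_lit 1145) (nat_lit 8) (nat_lit 3))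
    (@En.i (nat_lit 2755) (nat_lit 0) (nat_lit 3))
    (@En.i (nat_lit 1144) (nat_lit 11) (nat_lit 11))
    (@En.n l601 (nat_lit 2755) (nat_lit 3) (nat_lit 13))
    (@En.n l1865 (nat_lit 6093) (nat_lit 13) (nat_lit 13))
    (@En.n l117 (nat_lit 1154) (nat_lit 14) (nat_lit 5))
    (@En.n l7705 (nat_lit 2777) (nat_lit 10) (nat_lit 9))
    (@En.n l67 (nat_lit 1146) (nat_lit 15) (nat_lit 2))))
  (@Cl.mk (nat_lit 0x2000c00030007000e00040002000d000d000c0003000300090004000e000d) (nat_lit 0x3005009b0007089) (nat_lit 16) Lb.e (@T16.mk En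
    (@En.n l601 (nat_lit 691) (nat_lit 7) (nat_lit 13))
    (@En.i (nat_lit 5894) (nat_lit 1) (nat_lit 14))
    (@En.i (nat_lit 1156) (nat_lit 2) (nat_lit 4))
    (@En.n l476 (nat_lit 2774) (nat_lit 3) (nat_lit 9))
    (@En.n l152 (nat_lit 1215) (nat_lit 4) (nat_lit 3))
    (@En.i (nat_lit 1145) (nat_lit 0) (nat_lit 3))
    (@En.n l619 (nat_lit 1214) (nat_lit 7) (nat_lit 12))
    (@En.n l97 (nat_lit 1145) (nat_lit 3) (nat_lit 13))
    (@En.i (nat_lit 7265) (nat_lit 9) (nat_lit 13))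
    (@En.n l17 (nat_lit 1147) (nat_lit 9) (nat_lit 2))
    (@En.i (nat_lit 1150) (nat_lit 10) (nat_lit 4))
    (@En.i (nat_lit 132) (nat_lit 1) (nat_lit 14))
    (@En.i (nat_lit 4121) (nat_lit 13) (nat_lit 7))
    (@En.i (nat_lit 691) (nat_lit 3) (nat_lit 3))
    (@En.i (nat_lit 365) (nat_lit 0) (nat_lit 12))
    (@En.n l7 (nat_lit 1147) (nat_lit 15) (nat_lit 2))))
  (@Cl.mk (nat_lit 0x200080005000e000c0002000c000c0004000800040004000d000b000e0003) (nat_lit 0x400000403000000) (nat_lit 16) Lb.e (@T16.mk En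
    (@En.n l152 (nat_lit 1150) (nat_lit 5) (nat_lit 3))
    (@En.n l3471 (nat_lit 14052) (nat_lit 0) (nat_lit 14))
    (@En.n l97 (nat_lit 2718) (nat_lit 2) (nat_lit 11))
    (@En.n l637 (nat_lit 8852) (nat_lit 9) (nat_lit 13))
    (@En.n l4298 (nat_lit 3063) (nat_lit 12) (nat_lit 4))
    (@En.n l4296 (nat_lit 1144) (nat_lit 5) (nat_lit 4))
    (@En.i (nat_lit 4122) (nat_lit 6) (nat_lit 8))
    (@En.i (nat_lit 4278) (nat_lit 7) (nat_lit 4))
    (@En.n l4007 (nat_lit 1145) (nat_lit 9) (nat_lit 12))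
    (@En.n l1867 (nat_lit 4271) (nat_lit 10) (nat_lit 12))
    (@En.n l7 (nat_lit 1148) (nat_lit 10) (nat_lit 2))
    (@En.i (nat_lit 1151) (nat_lit 12) (nat_lit 12))
    (@En.n l1867 (nat_lit 6060) (nat_lit 1) (nat_lit 14))
    (@En.i (nat_lit 1153) (nat_lit 14) (nat_lit 5))
    (@En.n l1770 (nat_lit 2779) (nat_lit 3) (nat_lit 8))
    (@En.n l3 (nat_lit 1148) (nat_lit 15) (nat_lit 2))))
  (@Cl.mk (nat_lit 0x20005000e000d0002000c0003000a000e00040002000c000b0006000e0004) (nat_lit 0x89020040000010) (nat_lit 16) Lb.e (@T16.mk En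
    (@En.n l152 (nat_lit 1156) (nat_lit 4) (nat_lit 4))
    (@En.n l5859 (nat_lit 1145) (nat_lit 1) (nat_lit 14))
    (@En.n l13137 (nat_lit 1204) (nat_lit 2) (nat_lit 6))
    (@En.n l2691 (nat_lit 2719) (nat_lit 3) (nat_lit 11))
    (@En.n l637 (nat_lit 7233) (nat_lit 9) (nat_lit 12))
    (@En.n l17 (nat_lit 1149) (nat_lit 5) (nat_lit 2))
    (@En.i (nat_lit 1153) (nat_lit 6) (nat_lit 4))
    (@En.n l230 (nat_lit 127) (nat_lit 8) (nat_lit 14))
    (@En.i (nat_lit 5824) (nat_lit 9) (nat_lit 10))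
    (@En.i (nat_lit 1154) (nat_lit 9) (nat_lit 3))
    (@En.n l230 (nat_lit 362) (nat_lit 11) (nat_lit 12))
    (@En.n l7 (nat_lit 1149) (nat_lit 11) (nat_lit 2))
    (@En.n l601 (nat_lit 1154) (nat_lit 13) (nat_lit 13))
    (@En.n l230 (nat_lit 12809) (nat_lit 1) (nat_lit 14))
    (@En.n l4976 (nat_lit 2709) (nat_lit 13) (nat_lit 5))
    (@En.n l3 (nat_lit 1149) (nat_lit 15) (nat_lit 2))))
  (@Cl.mk (nat_lit 0x2000c000c0004000800040004000d000d000c0003000300080004000e000c) (nat_lit 0x340000a10000080) (nat_lit 16) Lb.e (@T16.mk En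
    (@En.i (nat_lit 1152) (nat_lit 11) (nat_lit 12))
    (@En.i (nat_lit 5903) (nat_lit 1) (nat_lit 14))
    (@En.i (nat_lit 1157) (nat_lit 2) (nat_lit 4))
    (@En.n l3517 (nat_lit 2778) (nat_lit 3) (nat_lit 8))
    (@En.n l152 (nat_lit 1216) (nat_lit 4) (nat_lit 3))
    (@En.n l117 (nat_lit 1148) (nat_lit 0) (nat_lit 3))
    (@En.n l619 (nat_lit 1217) (nat_lit 7) (nat_lit 12))
    (@En.i (nat_lit 1148) (nat_lit 3) (nat_lit 13))
    (@En.i (nat_lit 8848) (nat_lit 9) (nat_lit 13))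
    (@En.n l3519 (nat_lit 1225) (nat_lit 12) (nat_lit 4))
    (@En.n l18 (nat_lit 1116) (nat_lit 10) (nat_lit 4))
    (@En.i (nat_lit 3579) (nat_lit 12) (nat_lit 8))
    (@En.i (nat_lit 4279) (nat_lit 6) (nat_lit 4))
    (@En.n l61 (nat_lit 1147) (nat_lit 14) (nat_lit 12))
    (@En.i (nat_lit 4275) (nat_lit 9) (nat_lit 12))
    (@En.n l7 (nat_lit 1150) (nat_lit 15) (nat_lit 2))))
  (@Cl.mk (nat_lit 0x200080005000c000c000b000b00040004000800050005000d000b000e0003) (nat_lit 0xa023000000000) (nat_lit 16) Lb.e (@T16.mk En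
    (@En.n l152 (nat_lit 1152) (nat_lit 15) (nat_lit 3))
    (@En.n l1589 (nat_lit 12829) (nat_lit 0) (nat_lit 14))
    (@En.n l97 (nat_lit 2717) (nat_lit 2) (nat_lit 11))
    (@En.n l20385 (nat_lit 8854) (nat_lit 4) (nat_lit 13))
    (@En.n l20386 (nat_lit 2763) (nat_lit 11) (nat_lit 5))
    (@En.n l4296 (nat_lit 312) (nat_lit 5) (nat_lit 5))
    (@En.n l1589 (nat_lit 6100) (nat_lit 6) (nat_lit 8))
    (@En.n l77 (nat_lit 1148) (nat_lit 7) (nat_lit 4))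
    (@En.n l20387 (nat_lit 3745) (nat_lit 8) (nat_lit 4))
    (@En.n l20388 (nat_lit 1146) (nat_lit 10) (nat_lit 11))
    (@En.n l10714 (nat_lit 4273) (nat_lit 11) (nat_lit 11))
    (@En.n l19009 (nat_lit 2756) (nat_lit 12) (nat_lit 12))
    (@En.n l20389 (nat_lit 5637) (nat_lit 13) (nat_lit 12))
    (@En.n l9978 (nat_lit 1155) (nat_lit 14) (nat_lit 5))
    (@En.n l20390 (nat_lit 2789) (nat_lit 14) (nat_lit 8))
    (@En.n l3 (nat_lit 1151) (nat_lit 15) (nat_lit 2))))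
noncomputable def a72 : T16 Cl := @T16.mk Cl
  (@Cl.mk (nat_lit 0x3000300080004000c000c000b000b00040004000800050005000d000d000c) (nat_lit 0x30a02300400010) (nat_lit 16) Lb.e (@T16.mk En
    (@En.n l619 (nat_lit 1219) (nat_lit 0) (nat_lit 12))
    (@En.i (nat_lit 1151) (nat_lit 3) (nat_lit 13))
    (@En.i (nat_lit 8849) (nat_lit 2) (nat_lit 13))
    (@En.n l8053 (nat_lit 1224) (nat_lit 11) (nat_lit 5))
    (@En.n l18 (nat_lit 306) (nat_lit 4) (nat_lit 5))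
    (@En.i (nat_lit 4067) (nat_lit 5) (nat_lit 8))
    (@En.n l77 (nat_lit 1150) (nat_lit 12) (nat_lit 4))
    (@En.i (nat_lit 3747) (nat_lit 7) (nat_lit 4))
    (@En.n l5653 (nat_lit 691) (nat_lit 5) (nat_lit 11))
    (@En.n l601 (nat_lit 4277) (nat_lit 10) (nat_lit 11))
    (@En.i (nat_lit 2758) (nat_lit 4) (nat_lit 12))
    (@En.i (nat_lit 5635) (nat_lit 12) (nat_lit 12))
    (@En.i (nat_lit 2724) (nat_lit 13) (nat_lit 4))
    (@En.n l3517 (nat_lit 2788) (nat_lit 14) (nat_lit 8))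
    (@En.n l152 (nat_lit 1218) (nat_lit 13) (nat_lit 3))
    (@En.n l117 (nat_lit 1151) (nat_lit 0) (nat_lit 3))))
  (@Cl.mk (nat_lit 0x20005000e000c0002000c000c0004000b00040004000c000b0005000e0004) (nat_lit 0x3000000010) (nat_lit 16) Lb.e (@T16.mk En
    (@En.n l152 (nat_lit 1157) (nat_lit 4) (nat_lit 4))
    (@En.n l936 (nat_lit 1148) (nat_lit 1) (nat_lit 14))
    (@En.n l9973 (nat_lit 3009) (nat_lit 2) (nat_lit 5))
    (@En.n l9974 (nat_lit 2721) (nat_lit 3) (nat_lit 11))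
    (@En.n l9975 (nat_lit 9158) (nat_lit 9) (nat_lit 12))
    (@En.n l4188 (nat_lit 3062) (nat_lit 12) (nat_lit 4))
    (@En.n l18 (nat_lit 1082) (nat_lit 6) (nat_lit 4))
    (@En.n l9976 (nat_lit 5821) (nat_lit 8) (nat_lit 11))
    (@En.n l9974 (nat_lit 3850) (nat_lit 8) (nat_lit 4))
    (@En.n l61 (nat_lit 1149) (nat_lit 10) (nat_lit 12))
    (@En.n l9977 (nat_lit 4269) (nat_lit 11) (nat_lit 12))
    (@En.n l7 (nat_lit 1153) (nat_lit 11) (nat_lit 2))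
    (@En.n l9978 (nat_lit 1155) (nat_lit 13) (nat_lit 12))
    (@En.n l230 (nat_lit 8951) (nat_lit 1) (nat_lit 14))
    (@En.n l4976 (nat_lit 2708) (nat_lit 13) (nat_lit 5))
    (@En.n l3 (nat_lit 1153) (nat_lit 15) (nat_lit 2))))
  (@Cl.mk (nat_lit 0x20005000d000d000b00030003000a000e00050002000c000b0006000e0004) (nat_lit 0x8a2000200a1010) (nat_lit 16) Lb.e (@T16.mk En
    (@En.n l152 (nat_lit 692) (nat_lit 10) (nat_lit 4))
    (@En.n l5859 (nat_lit 1146) (nat_lit 1) (nat_lit 14))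
    (@En.n l13137 (nat_lit 1202) (nat_lit 2) (nat_lit 6))
    (@En.n l2691 (nat_lit 975) (nat_lit 3) (nat_lit 11))
    (@En.n l15864 (nat_lit 7231) (nat_lit 10) (nat_lit 12))
    (@En.n l17 (nat_lit 1154) (nat_lit 5) (nat_lit 2))
    (@En.n l18891 (nat_lit 1155) (nat_lit 6) (nat_lit 5))
    (@En.n l230 (nat_lit 130) (nat_lit 8) (nat_lit 14))
    (@En.n l18892 (nat_lit 6873) (nat_lit 9) (nat_lit 10))
    (@En.n l50 (nat_lit 1149) (nat_lit 9) (nat_lit 3))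
    (@En.n l1419 (nat_lit 2754) (nat_lit 10) (nat_lit 3))
    (@En.i (nat_lit 1082) (nat_lit 12) (nat_lit 11))
    (@En.n l15844 (nat_lit 2754) (nat_lit 13) (nat_lit 13))
    (@En.n l230 (nat_lit 12800) (nat_lit 8) (nat_lit 13))
    (@En.n l4976 (nat_lit 2695) (nat_lit 13) (nat_lit 5))
    (@En.n l3 (nat_lit 1154) (nat_lit 15) (nat_lit 2))))
  (@Cl.mk (nat_lit 0x20005000c000c000b000b00040004000b00050005000c000b0005000e0004) (nat_lit 0xa0030000000010) (nat_lit 16) Lb.e (@T16.mk En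
    (@En.n l20529 (nat_lit 2724) (nat_lit 15) (nat_lit 4))
    (@En.n l20530 (nat_lit 1151) (nat_lit 1) (nat_lit 14))
    (@En.n l20531 (nat_lit 1212) (nat_lit 2) (nat_lit 5))
    (@En.i (nat_lit 2720) (nat_lit 3) (nat_lit 11))
    (@En.n l117 (nat_lit 9166) (nat_lit 5) (nat_lit 12))
    (@En.n l11628 (nat_lit 2767) (nat_lit 11) (nat_lit 5))
    (@En.n l20532 (nat_lit 1079) (nat_lit 6) (nat_lit 5))
    (@En.n l20533 (nat_lit 6878) (nat_lit 8) (nat_lit 11))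
    (@En.n l20534 (nat_lit 1153) (nat_lit 8) (nat_lit 4))
    (@En.i (nat_lit 3858) (nat_lit 9) (nat_lit 4))
    (@En.n l20535 (nat_lit 1154) (nat_lit 11) (nat_lit 11))
    (@En.n l4380 (nat_lit 4266) (nat_lit 12) (nat_lit 11))
    (@En.n l20536 (nat_lit 2757) (nat_lit 13) (nat_lit 12))
    (@En.n l20531 (nat_lit 5616) (nat_lit 14) (nat_lit 12))
    (@En.n l107 (nat_lit 2688) (nat_lit 13) (nat_lit 5))
    (@En.n l3 (nat_lit 1155) (nat_lit 15) (nat_lit 2))))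
  (@Cl.mk (nat_lit 0x2000c00030009000e00040002000c000c000c0007000400040004000e000d) (nat_lit 0x207400912000099) (nat_lit 16) Lb.e (@T16.mk En
    (@En.n l601 (nat_lit 692) (nat_lit 7) (nat_lit 13))
    (@En.n l532 (nat_lit 12511) (nat_lit 1) (nat_lit 14))
    (@En.n l11 (nat_lit 2715) (nat_lit 12) (nat_lit 4))
    (@En.n l152 (nat_lit 1214) (nat_lit 3) (nat_lit 4))
    (@En.n l936 (nat_lit 963) (nat_lit 4) (nat_lit 4))
    (@En.i (nat_lit 1203) (nat_lit 5) (nat_lit 7))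
    (@En.n l619 (nat_lit 965) (nat_lit 7) (nat_lit 12))
    (@En.i (nat_lit 1149) (nat_lit 4) (nat_lit 12))
    (@En.i (nat_lit 4607) (nat_lit 9) (nat_lit 12))
    (@En.n l17 (nat_lit 1156) (nat_lit 9) (nat_lit 2))
    (@En.i (nat_lit 1157) (nat_lit 10) (nat_lit 4))
    (@En.i (nat_lit 171) (nat_lit 1) (nat_lit 14))
    (@En.i (nat_lit 5826) (nat_lit 2) (nat_lit 9))
    (@En.i (nat_lit 692) (nat_lit 3) (nat_lit 3))
    (@En.i (nat_lit 360) (nat_lit 0) (nat_lit 12))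
    (@En.n l7 (nat_lit 1156) (nat_lit 15) (nat_lit 2))))
  (@Cl.mk (nat_lit 0x2000c000c0004000a00040004000c000c000c0006000400040004000e000c) (nat_lit 0x30000910000000) (nat_lit 16) Lb.e (@T16.mk En
    (@En.i (nat_lit 2724) (nat_lit 12) (nat_lit 12))
    (@En.n l134 (nat_lit 8954) (nat_lit 1) (nat_lit 14))
    (@En.n l11 (nat_lit 2718) (nat_lit 12) (nat_lit 4))
    (@En.n l152 (nat_lit 1217) (nat_lit 3) (nat_lit 4))
    (@En.n l936 (nat_lit 2722) (nat_lit 4) (nat_lit 4))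
    (@En.i (nat_lit 3007) (nat_lit 5) (nat_lit 6))
    (@En.n l11363 (nat_lit 2898) (nat_lit 7) (nat_lit 12))
    (@En.i (nat_lit 1153) (nat_lit 4) (nat_lit 12))
    (@En.i (nat_lit 8675) (nat_lit 9) (nat_lit 12))
    (@En.n l11364 (nat_lit 2894) (nat_lit 12) (nat_lit 4))
    (@En.n l18 (nat_lit 1102) (nat_lit 10) (nat_lit 4))
    (@En.i (nat_lit 5825) (nat_lit 12) (nat_lit 10))
    (@En.n l4190 (nat_lit 3859) (nat_lit 1) (nat_lit 4))
    (@En.n l61 (nat_lit 1156) (nat_lit 14) (nat_lit 12))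
    (@En.i (nat_lit 3863) (nat_lit 1) (nat_lit 12))
    (@En.n l7 (nat_lit 1157) (nat_lit 15) (nat_lit 2))))
  (@Cl.mk (nat_lit 0x30003000a000a000d000b000a0003000600060005000c0006000d000d0004) (nat_lit 0x80b20000090b30) (nat_lit 16) Lb.e (@T16.mk En
    (@En.n l6323 (nat_lit 1078) (nat_lit 0) (nat_lit 4))
    (@En.n l61 (nat_lit 1160) (nat_lit 3) (nat_lit 13))
    (@En.n l6324 (nat_lit 1067) (nat_lit 1) (nat_lit 13))
    (@En.n l6325 (nat_lit 3676) (nat_lit 3) (nat_lit 6))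
    (@En.n l1589 (nat_lit 6655) (nat_lit 12) (nat_lit 12))
    (@En.n l6324 (nat_lit 4265) (nat_lit 5) (nat_lit 5))
    (@En.n l4256 (nat_lit 1114) (nat_lit 10) (nat_lit 6))
    (@En.i (nat_lit 1370) (nat_lit 12) (nat_lit 6))
    (@En.n l6326 (nat_lit 216) (nat_lit 8) (nat_lit 3))
    (@En.n l77 (nat_lit 2736) (nat_lit 0) (nat_lit 10))
    (@En.n l6327 (nat_lit 348) (nat_lit 11) (nat_lit 11))
    (@En.n l6328 (nat_lit 1161) (nat_lit 5) (nat_lit 13))
    (@En.n l6329 (nat_lit 1161) (nat_lit 6) (nat_lit 10))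
    (@En.n l1236 (nat_lit 10540) (nat_lit 4) (nat_lit 10))
    (@En.n l4254 (nat_lit 1014) (nat_lit 13) (nat_lit 3))
    (@En.n l18 (nat_lit 1160) (nat_lit 0) (nat_lit 3))))
  (@Cl.mk (nat_lit 0x20006000d0007000d0003000e00030002000a000d000a00090003000e0006) (nat_lit 0x90204000a10000) (nat_lit 16) Lb.e (@T16.mk En
    (@En.n l6139 (nat_lit 1160) (nat_lit 8) (nat_lit 6))
    (@En.n l22485 (nat_lit 1162) (nat_lit 1) (nat_lit 14))
    (@En.n l7 (nat_lit 213) (nat_lit 2) (nat_lit 3))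
    (@En.n l8933 (nat_lit 4168) (nat_lit 12) (nat_lit 9))
    (@En.n l15198 (nat_lit 214) (nat_lit 4) (nat_lit 10))
    (@En.i (nat_lit 13687) (nat_lit 5) (nat_lit 13))
    (@En.n l564 (nat_lit 10546) (nat_lit 12) (nat_lit 10))
    (@En.n l11 (nat_lit 1159) (nat_lit 7) (nat_lit 2))
    (@En.n l117 (nat_lit 1161) (nat_lit 8) (nat_lit 3))
    (@En.i (nat_lit 13605) (nat_lit 0) (nat_lit 14))
    (@En.n l2576 (nat_lit 301) (nat_lit 10) (nat_lit 3))
    (@En.i (nat_lit 1069) (nat_lit 12) (nat_lit 13))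
    (@En.i (nat_lit 4158) (nat_lit 13) (nat_lit 7))
    (@En.n l6681 (nat_lit 6705) (nat_lit 6) (nat_lit 13))
    (@En.n l28782 (nat_lit 3341) (nat_lit 6) (nat_lit 6))
    (@En.n l17 (nat_lit 1159) (nat_lit 15) (nat_lit 2))))
  (@Cl.mk (nat_lit 0x2000a000a000d000b000a0003000600060005000d0006000d0003000e0003) (nat_lit 0x81b200000902040) (nat_lit 16) Lb.e (@T16.mk En
    (@En.i (nat_lit 1158) (nat_lit 15) (nat_lit 3))
    (@En.n l14957 (nat_lit 13606) (nat_lit 0) (nat_lit 14))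
    (@En.i (nat_lit 302) (nat_lit 2) (nat_lit 3))
    (@En.n l645 (nat_lit 1070) (nat_lit 0) (nat_lit 13))
    (@En.n l6325 (nat_lit 4156) (nat_lit 4) (nat_lit 6))
    (@En.n l1589 (nat_lit 6657) (nat_lit 6) (nat_lit 13))
    (@En.n l15230 (nat_lit 4336) (nat_lit 6) (nat_lit 5))
    (@En.n l7041 (nat_lit 1113) (nat_lit 10) (nat_lit 6))
    (@En.i (nat_lit 1371) (nat_lit 8) (nat_lit 6))
    (@En.n l15231 (nat_lit 212) (nat_lit 9) (nat_lit 3))
    (@En.n l77 (nat_lit 2900) (nat_lit 0) (nat_lit 10))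
    (@En.n l12114 (nat_lit 347) (nat_lit 12) (nat_lit 11))
    (@En.n l15232 (nat_lit 1159) (nat_lit 5) (nat_lit 13))
    (@En.n l15233 (nat_lit 1159) (nat_lit 6) (nat_lit 10))
    (@En.n l1236 (nat_lit 10547) (nat_lit 4) (nat_lit 10))
    (@En.n l17 (nat_lit 1160) (nat_lit 15) (nat_lit 2))))
  (@Cl.mk (nat_lit 0x20006000c0007000d000d000400030003000a000d000a00090003000e0006) (nat_lit 0x90b30008a10000) (nat_lit 16) Lb.e (@T16.mk En
    (@En.n l2181 (nat_lit 1158) (nat_lit 7) (nat_lit 6))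
    (@En.n l14678 (nat_lit 1163) (nat_lit 1) (nat_lit 14))
    (@En.n l7 (nat_lit 215) (nat_lit 2) (nat_lit 3))
    (@En.n l14679 (nat_lit 2737) (nat_lit 3) (nat_lit 9))
    (@En.n l420 (nat_lit 217) (nat_lit 4) (nat_lit 10))
    (@En.i (nat_lit 13688) (nat_lit 5) (nat_lit 13))
    (@En.n l3528 (nat_lit 10542) (nat_lit 7) (nat_lit 10))
    (@En.n l14680 (nat_lit 1017) (nat_lit 13) (nat_lit 3))
    (@En.n l152 (nat_lit 1159) (nat_lit 8) (nat_lit 3))
    (@En.n l9956 (nat_lit 1077) (nat_lit 0) (nat_lit 4))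
    (@En.n l619 (nat_lit 1159) (nat_lit 11) (nat_lit 13))
    (@En.i (nat_lit 1068) (nat_lit 12) (nat_lit 13))
    (@En.n l14681 (nat_lit 4155) (nat_lit 13) (nat_lit 7))
    (@En.n l4530 (nat_lit 6656) (nat_lit 14) (nat_lit 12))
    (@En.n l14682 (nat_lit 4264) (nat_lit 5) (nat_lit 6))
    (@En.n l17 (nat_lit 1161) (nat_lit 15) (nat_lit 2))))
  (@Cl.mk (nat_lit 0x200060006000d0007000d0003000e00030002000b000a000a0009000e0005) (nat_lit 0xa0003000010c0) (nat_lit 16) Lb.e (@T16.mk En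
    (@En.n l152 (nat_lit 2671) (nat_lit 9) (nat_lit 5))
    (@En.n l5859 (nat_lit 2995) (nat_lit 1) (nat_lit 14))
    (@En.n l77 (nat_lit 4071) (nat_lit 2) (nat_lit 9))
    (@En.n l17050 (nat_lit 680) (nat_lit 13) (nat_lit 10))
    (@En.n l22272 (nat_lit 3909) (nat_lit 4) (nat_lit 10))
    (@En.i (nat_lit 9999) (nat_lit 6) (nat_lit 11))
    (@En.n l17 (nat_lit 1162) (nat_lit 6) (nat_lit 2))
    (@En.i (nat_lit 1163) (nat_lit 7) (nat_lit 3))
    (@En.i (nat_lit 13722) (nat_lit 0) (nat_lit 14))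
    (@En.i (nat_lit 1164) (nat_lit 9) (nat_lit 3))
    (@En.n l10815 (nat_lit 2643) (nat_lit 11) (nat_lit 13))
    (@En.i (nat_lit 3099) (nat_lit 12) (nat_lit 7))
    (@En.n l17049 (nat_lit 6873) (nat_lit 13) (nat_lit 13))
    (@En.n l17085 (nat_lit 4773) (nat_lit 14) (nat_lit 6))
    (@En.n l4976 (nat_lit 1160) (nat_lit 7) (nat_lit 6))
    (@En.n l3 (nat_lit 1162) (nat_lit 15) (nat_lit 2))))
  (@Cl.mk (nat_lit 0x200060006000c0007000d000d000400030003000b000a000a0009000e0005) (nat_lit 0x10000000c0) (nat_lit 16) Lb.e (@T16.mk En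
    (@En.n l152 (nat_lit 1166) (nat_lit 8) (nat_lit 5))
    (@En.n l936 (nat_lit 2727) (nat_lit 1) (nat_lit 14))
    (@En.n l77 (nat_lit 3826) (nat_lit 2) (nat_lit 9))
    (@En.n l28899 (nat_lit 1168) (nat_lit 6) (nat_lit 10))
    (@En.n l28900 (nat_lit 3907) (nat_lit 4) (nat_lit 10))
    (@En.i (nat_lit 9998) (nat_lit 6) (nat_lit 11))
    (@En.n l21968 (nat_lit 1165) (nat_lit 13) (nat_lit 3))
    (@En.n l18 (nat_lit 1162) (nat_lit 7) (nat_lit 3))
    (@En.n l148 (nat_lit 1170) (nat_lit 0) (nat_lit 4))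
    (@En.n l61 (nat_lit 1162) (nat_lit 10) (nat_lit 13))
    (@En.n l8260 (nat_lit 1171) (nat_lit 11) (nat_lit 13))
    (@En.n l4297 (nat_lit 3091) (nat_lit 12) (nat_lit 7))
    (@En.n l28901 (nat_lit 6878) (nat_lit 13) (nat_lit 12))
    (@En.n l17085 (nat_lit 1167) (nat_lit 14) (nat_lit 6))
    (@En.n l4976 (nat_lit 1158) (nat_lit 6) (nat_lit 6))
    (@En.n l3 (nat_lit 1163) (nat_lit 15) (nat_lit 2))))
  (@Cl.mk (nat_lit 0x200060006000d000c00080003000e00040002000b000a000a0008000e0005) (nat_lit 0xb1001000010c0) (nat_lit 16) Lb.e (@T16.mk En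
    (@En.n l152 (nat_lit 2670) (nat_lit 9) (nat_lit 5))
    (@En.n l5859 (nat_lit 2994) (nat_lit 1) (nat_lit 14))
    (@En.n l17082 (nat_lit 3751) (nat_lit 2) (nat_lit 8))
    (@En.n l6854 (nat_lit 679) (nat_lit 13) (nat_lit 10))
    (@En.n l17083 (nat_lit 3908) (nat_lit 4) (nat_lit 10))
    (@En.i (nat_lit 10000) (nat_lit 6) (nat_lit 11))
    (@En.n l17 (nat_lit 1164) (nat_lit 6) (nat_lit 2))
    (@En.n l17084 (nat_lit 1169) (nat_lit 7) (nat_lit 4))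
    (@En.n l5 (nat_lit 668) (nat_lit 9) (nat_lit 14))
    (@En.n l50 (nat_lit 1162) (nat_lit 9) (nat_lit 3))
    (@En.n l6045 (nat_lit 2110) (nat_lit 11) (nat_lit 8))
    (@En.n l217 (nat_lit 1163) (nat_lit 12) (nat_lit 12))
    (@En.n l17049 (nat_lit 6872) (nat_lit 13) (nat_lit 13))
    (@En.n l17085 (nat_lit 4772) (nat_lit 14) (nat_lit 6))
    (@En.n l4976 (nat_lit 302) (nat_lit 7) (nat_lit 6))
    (@En.n l3 (nat_lit 1164) (nat_lit 15) (nat_lit 2))))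
  (@Cl.mk (nat_lit 0x200050003000b000a000a0009000e0005000200060006000b0007000e000d) (nat_lit 0xc00000001) (nat_lit 16) Lb.e (@T16.mk En
    (@En.n l20950 (nat_lit 1163) (nat_lit 10) (nat_lit 13))
    (@En.n l7066 (nat_lit 3032) (nat_lit 11) (nat_lit 14))
    (@En.n l20951 (nat_lit 3096) (nat_lit 12) (nat_lit 7))
    (@En.n l3858 (nat_lit 8186) (nat_lit 3) (nat_lit 11))
    (@En.n l644 (nat_lit 3030) (nat_lit 4) (nat_lit 6))
    (@En.n l7507 (nat_lit 1014) (nat_lit 5) (nat_lit 6))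
    (@En.n l3 (nat_lit 1165) (nat_lit 6) (nat_lit 2))
    (@En.n l20952 (nat_lit 3706) (nat_lit 7) (nat_lit 5))
    (@En.n l3858 (nat_lit 2728) (nat_lit 9) (nat_lit 14))
    (@En.n l4240 (nat_lit 3840) (nat_lit 2) (nat_lit 9))
    (@En.n l20953 (nat_lit 3709) (nat_lit 11) (nat_lit 10))
    (@En.n l20343 (nat_lit 3900) (nat_lit 12) (nat_lit 10))
    (@En.i (nat_lit 12121) (nat_lit 13) (nat_lit 11))
    (@En.n l17093 (nat_lit 1163) (nat_lit 6) (nat_lit 3))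
    (@En.n l3858 (nat_lit 2983) (nat_lit 7) (nat_lit 5))
    (@En.n l11 (nat_lit 1165) (nat_lit 15) (nat_lit 2))))
  (@Cl.mk (nat_lit 0x30003000b000b000b000b000a0005000500050005000c0006000d000d0004) (nat_lit 0x1206000000000) (nat_lit 16) Lb.e (@T16.mk En
    (@En.i (nat_lit 2974) (nat_lit 0) (nat_lit 4))
    (@En.n l61 (nat_lit 2671) (nat_lit 3) (nat_lit 13))
    (@En.n l1392 (nat_lit 2645) (nat_lit 1) (nat_lit 13))
    (@En.i (nat_lit 1954) (nat_lit 3) (nat_lit 6))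
    (@En.i (nat_lit 6877) (nat_lit 5) (nat_lit 12))
    (@En.n l218 (nat_lit 3694) (nat_lit 11) (nat_lit 5))
    (@En.n l11 (nat_lit 1370) (nat_lit 11) (nat_lit 5))
    (@En.n l4976 (nat_lit 2679) (nat_lit 11) (nat_lit 5))
    (@En.n l1392 (nat_lit 3790) (nat_lit 8) (nat_lit 5))
    (@En.n l77 (nat_lit 3822) (nat_lit 10) (nat_lit 10))
    (@En.n l55 (nat_lit 2674) (nat_lit 5) (nat_lit 11))
    (@En.n l619 (nat_lit 2664) (nat_lit 5) (nat_lit 11))
    (@En.i (nat_lit 1163) (nat_lit 5) (nat_lit 11))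
    (@En.i (nat_lit 7497) (nat_lit 14) (nat_lit 11))
    (@En.i (nat_lit 3706) (nat_lit 13) (nat_lit 3))
    (@En.n l18 (nat_lit 2671) (nat_lit 0) (nat_lit 3))))
  (@Cl.mk (nat_lit 0x20006000c0006000d000d000400030003000a000e000a0002000a000e0006) (nat_lit 0x10000) (nat_lit 16) Lb.e (@T16.mk En
    (@En.n l1769 (nat_lit 3694) (nat_lit 13) (nat_lit 6))
    (@En.n l7141 (nat_lit 2730) (nat_lit 1) (nat_lit 14))
    (@En.n l7142 (nat_lit 4077) (nat_lit 2) (nat_lit 10))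
    (@En.n l11 (nat_lit 1167) (nat_lit 3) (nat_lit 2))
    (@En.n l7143 (nat_lit 1163) (nat_lit 4) (nat_lit 10))
    (@En.n l3062 (nat_lit 4801) (nat_lit 6) (nat_lit 14))
    (@En.n l17668 (nat_lit 11006) (nat_lit 2) (nat_lit 10))
    (@En.n l17669 (nat_lit 3030) (nat_lit 13) (nat_lit 3))
    (@En.n l18 (nat_lit 4773) (nat_lit 8) (nat_lit 3))
    (@En.n l17663 (nat_lit 3028) (nat_lit 0) (nat_lit 4))
    (@En.n l61 (nat_lit 4773) (nat_lit 11) (nat_lit 13))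
    (@En.n l17670 (nat_lit 2647) (nat_lit 12) (nat_lit 13))
    (@En.n l10098 (nat_lit 3095) (nat_lit 13) (nat_lit 6))
    (@En.n l17663 (nat_lit 12247) (nat_lit 10) (nat_lit 12))
    (@En.i (nat_lit 4262) (nat_lit 5) (nat_lit 6))
    (@En.n l3 (nat_lit 1167) (nat_lit 15) (nat_lit 2))))
noncomputable def a73 : T16 Cl := @T16.mk Cl
  (@Cl.mk (nat_lit 0x2000c0008000d000d000400030003000c000a0008000e00040002000e0006) (nat_lit 0xa001000080b0020) (nat_lit 16) Lb.e (@T16.mk En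
    (@En.n l19028 (nat_lit 1163) (nat_lit 14) (nat_lit 6))
    (@En.n l5 (nat_lit 332) (nat_lit 1) (nat_lit 14))
    (@En.n l50 (nat_lit 1168) (nat_lit 2) (nat_lit 2))
    (@En.n l14325 (nat_lit 2674) (nat_lit 3) (nat_lit 4))
    (@En.i (nat_lit 973) (nat_lit 1) (nat_lit 14))
    (@En.n l2826 (nat_lit 3284) (nat_lit 5) (nat_lit 8))
    (@En.i (nat_lit 3801) (nat_lit 3) (nat_lit 10))
    (@En.i (nat_lit 9996) (nat_lit 8) (nat_lit 12))
    (@En.n l17580 (nat_lit 3709) (nat_lit 13) (nat_lit 3))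
    (@En.n l152 (nat_lit 680) (nat_lit 0) (nat_lit 3))
    (@En.n l19029 (nat_lit 3750) (nat_lit 0) (nat_lit 4))
    (@En.n l619 (nat_lit 680) (nat_lit 3) (nat_lit 13))
    (@En.i (nat_lit 2644) (nat_lit 13) (nat_lit 13))
    (@En.n l2826 (nat_lit 3275) (nat_lit 14) (nat_lit 8))
    (@En.i (nat_lit 8515) (nat_lit 12) (nat_lit 12))
    (@En.n l17 (nat_lit 1168) (nat_lit 15) (nat_lit 2))))
  (@Cl.mk (nat_lit 0x200060006000c000c000c0009000400040004000b000a000a0007000e0005) (nat_lit 0x200000000c0) (nat_lit 16) Lb.e (@T16.mk En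
    (@En.n l17360 (nat_lit 1381) (nat_lit 7) (nat_lit 5))
    (@En.n l7974 (nat_lit 2759) (nat_lit 1) (nat_lit 14))
    (@En.n l6958 (nat_lit 2974) (nat_lit 2) (nat_lit 7))
    (@En.n l61 (nat_lit 3748) (nat_lit 6) (nat_lit 10))
    (@En.n l1545 (nat_lit 3898) (nat_lit 4) (nat_lit 10))
    (@En.n l6996 (nat_lit 7987) (nat_lit 6) (nat_lit 11))
    (@En.n l11 (nat_lit 3032) (nat_lit 6) (nat_lit 4))
    (@En.n l152 (nat_lit 2642) (nat_lit 7) (nat_lit 4))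
    (@En.n l17361 (nat_lit 1163) (nat_lit 8) (nat_lit 4))
    (@En.i (nat_lit 2073) (nat_lit 10) (nat_lit 9))
    (@En.n l17362 (nat_lit 1164) (nat_lit 11) (nat_lit 12))
    (@En.n l6045 (nat_lit 1170) (nat_lit 4) (nat_lit 12))
    (@En.i (nat_lit 6671) (nat_lit 13) (nat_lit 12))
    (@En.n l1545 (nat_lit 3031) (nat_lit 14) (nat_lit 6))
    (@En.n l17036 (nat_lit 300) (nat_lit 13) (nat_lit 6))
    (@En.n l50 (nat_lit 1169) (nat_lit 15) (nat_lit 2))))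
  (@Cl.mk (nat_lit 0x20005000b000a000a0008000e0005000200060006000c000b0008000e0004) (nat_lit 0xc0000a1000) (nat_lit 16) Lb.e (@T16.mk En
    (@En.n l8951 (nat_lit 1169) (nat_lit 8) (nat_lit 4))
    (@En.n l21226 (nat_lit 2646) (nat_lit 10) (nat_lit 14))
    (@En.n l21227 (nat_lit 2076) (nat_lit 11) (nat_lit 8))
    (@En.n l10218 (nat_lit 1165) (nat_lit 3) (nat_lit 11))
    (@En.n l21221 (nat_lit 6664) (nat_lit 13) (nat_lit 12))
    (@En.n l21228 (nat_lit 3028) (nat_lit 5) (nat_lit 6))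
    (@En.n l21229 (nat_lit 1078) (nat_lit 6) (nat_lit 6))
    (@En.n l17 (nat_lit 1170) (nat_lit 7) (nat_lit 2))
    (@En.n l137 (nat_lit 2974) (nat_lit 8) (nat_lit 5))
    (@En.n l21230 (nat_lit 2757) (nat_lit 10) (nat_lit 14))
    (@En.i (nat_lit 2666) (nat_lit 2) (nat_lit 8))
    (@En.n l152 (nat_lit 3750) (nat_lit 12) (nat_lit 10))
    (@En.n l21231 (nat_lit 3896) (nat_lit 13) (nat_lit 10))
    (@En.n l21232 (nat_lit 7806) (nat_lit 14) (nat_lit 11))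
    (@En.n l21233 (nat_lit 2972) (nat_lit 13) (nat_lit 5))
    (@En.n l28 (nat_lit 1170) (nat_lit 15) (nat_lit 2))))
  (@Cl.mk (nat_lit 0x200060006000d000d000c00030003000b0004000b000a000a0005000e0005) (nat_lit 0xab200000000c0) (nat_lit 16) Lb.e (@T16.mk En
    (@En.n l6979 (nat_lit 2645) (nat_lit 6) (nat_lit 5))
    (@En.n l6980 (nat_lit 2758) (nat_lit 1) (nat_lit 14))
    (@En.n l6958 (nat_lit 3775) (nat_lit 2) (nat_lit 5))
    (@En.n l61 (nat_lit 2644) (nat_lit 6) (nat_lit 10))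
    (@En.n l1545 (nat_lit 3087) (nat_lit 4) (nat_lit 10))
    (@En.n l32572 (nat_lit 5570) (nat_lit 12) (nat_lit 11))
    (@En.i (nat_lit 1169) (nat_lit 6) (nat_lit 4))
    (@En.i (nat_lit 3141) (nat_lit 8) (nat_lit 11))
    (@En.n l152 (nat_lit 2643) (nat_lit 8) (nat_lit 3))
    (@En.n l16714 (nat_lit 2646) (nat_lit 9) (nat_lit 3))
    (@En.n l619 (nat_lit 2642) (nat_lit 11) (nat_lit 12))
    (@En.n l17033 (nat_lit 2646) (nat_lit 12) (nat_lit 13))
    (@En.i (nat_lit 2315) (nat_lit 13) (nat_lit 13))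
    (@En.n l1545 (nat_lit 2647) (nat_lit 14) (nat_lit 6))
    (@En.n l17036 (nat_lit 1067) (nat_lit 4) (nat_lit 6))
    (@En.n l50 (nat_lit 1171) (nat_lit 15) (nat_lit 2))))
  (@Cl.mk (nat_lit 0x20005000d000d000a00030003000c0009000c00060004000b0004000e0007) (nat_lit 0xab800679004030) (nat_lit 16) Lb.e (@T16.mk En
    (@En.i (nat_lit 1128) (nat_lit 5) (nat_lit 7))
    (@En.n l5 (nat_lit 1132) (nat_lit 1) (nat_lit 14))
    (@En.n l14292 (nat_lit 2363) (nat_lit 2) (nat_lit 4))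
    (@En.n l890 (nat_lit 412) (nat_lit 3) (nat_lit 11))
    (@En.n l28 (nat_lit 1063) (nat_lit 4) (nat_lit 4))
    (@En.i (nat_lit 8348) (nat_lit 5) (nat_lit 6))
    (@En.i (nat_lit 13434) (nat_lit 6) (nat_lit 12))
    (@En.n l890 (nat_lit 6178) (nat_lit 13) (nat_lit 9))
    (@En.n l476 (nat_lit 1036) (nat_lit 9) (nat_lit 12))
    (@En.n l152 (nat_lit 1186) (nat_lit 9) (nat_lit 3))
    (@En.n l6822 (nat_lit 1174) (nat_lit 10) (nat_lit 3))
    (@En.n l97 (nat_lit 1187) (nat_lit 12) (nat_lit 10))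
    (@En.n l17986 (nat_lit 1174) (nat_lit 13) (nat_lit 13))
    (@En.i (nat_lit 6819) (nat_lit 14) (nat_lit 13))
    (@En.i (nat_lit 1138) (nat_lit 13) (nat_lit 5))
    (@En.n l17 (nat_lit 1172) (nat_lit 15) (nat_lit 2))))
  (@Cl.mk (nat_lit 0x2000b00090009000c00080005000c0004000700070004000d0008000e0003) (nat_lit 0x60000050000a6c0) (nat_lit 16) Lb.e (@T16.mk En
    (@En.n l15292 (nat_lit 1128) (nat_lit 15) (nat_lit 3))
    (@En.n l12746 (nat_lit 13714) (nat_lit 0) (nat_lit 14))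
    (@En.n l8219 (nat_lit 1565) (nat_lit 2) (nat_lit 8))
    (@En.n l15293 (nat_lit 6823) (nat_lit 2) (nat_lit 13))
    (@En.n l15294 (nat_lit 1140) (nat_lit 4) (nat_lit 4))
    (@En.n l107 (nat_lit 1200) (nat_lit 5) (nat_lit 7))
    (@En.i (nat_lit 1099) (nat_lit 11) (nat_lit 7))
    (@En.n l5978 (nat_lit 2362) (nat_lit 7) (nat_lit 4))
    (@En.n l15294 (nat_lit 411) (nat_lit 9) (nat_lit 12))
    (@En.n l15295 (nat_lit 1062) (nat_lit 9) (nat_lit 5))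
    (@En.n l117 (nat_lit 8586) (nat_lit 11) (nat_lit 8))
    (@En.n l15296 (nat_lit 1174) (nat_lit 6) (nat_lit 12))
    (@En.n l15297 (nat_lit 1174) (nat_lit 7) (nat_lit 9))
    (@En.n l117 (nat_lit 6195) (nat_lit 14) (nat_lit 9))
    (@En.n l15298 (nat_lit 1176) (nat_lit 14) (nat_lit 11))
    (@En.n l17 (nat_lit 1173) (nat_lit 15) (nat_lit 2))))
  (@Cl.mk (nat_lit 0x20005000d0009000e00030002000c0009000c00070004000b0004000e0007) (nat_lit 0xa7c0067a004030) (nat_lit 16) Lb.e (@T16.mk En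
    (@En.n l28786 (nat_lit 1173) (nat_lit 6) (nat_lit 7))
    (@En.n l28787 (nat_lit 1133) (nat_lit 1) (nat_lit 14))
    (@En.n l28788 (nat_lit 2364) (nat_lit 2) (nat_lit 4))
    (@En.n l28789 (nat_lit 415) (nat_lit 3) (nat_lit 11))
    (@En.i (nat_lit 1061) (nat_lit 4) (nat_lit 4))
    (@En.n l5994 (nat_lit 8370) (nat_lit 5) (nat_lit 7))
    (@En.n l11107 (nat_lit 13677) (nat_lit 6) (nat_lit 12))
    (@En.n l476 (nat_lit 6183) (nat_lit 14) (nat_lit 9))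
    (@En.n l27106 (nat_lit 1175) (nat_lit 9) (nat_lit 12))
    (@En.n l17 (nat_lit 1174) (nat_lit 9) (nat_lit 2))
    (@En.n l8258 (nat_lit 1172) (nat_lit 10) (nat_lit 3))
    (@En.n l28789 (nat_lit 14095) (nat_lit 0) (nat_lit 14))
    (@En.n l11107 (nat_lit 1556) (nat_lit 13) (nat_lit 9))
    (@En.n l5891 (nat_lit 6825) (nat_lit 14) (nat_lit 13))
    (@En.i (nat_lit 1141) (nat_lit 13) (nat_lit 5))
    (@En.n l7 (nat_lit 1174) (nat_lit 15) (nat_lit 2))))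
  (@Cl.mk (nat_lit 0x20005000d000a00090003000c0008000b000600040007000b0005000e0008) (nat_lit 0xb0005000005016) (nat_lit 16) Lb.e (@T16.mk En
    (@En.i (nat_lit 1176) (nat_lit 5) (nat_lit 8))
    (@En.n l23389 (nat_lit 988) (nat_lit 1) (nat_lit 14))
    (@En.n l22596 (nat_lit 5082) (nat_lit 2) (nat_lit 5))
    (@En.i (nat_lit 1172) (nat_lit 3) (nat_lit 11))
    (@En.n l1685 (nat_lit 619) (nat_lit 4) (nat_lit 7))
    (@En.n l28 (nat_lit 1038) (nat_lit 5) (nat_lit 4))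
    (@En.n l473 (nat_lit 8376) (nat_lit 6) (nat_lit 6))
    (@En.i (nat_lit 13675) (nat_lit 7) (nat_lit 11))
    (@En.n l890 (nat_lit 10493) (nat_lit 9) (nat_lit 8))
    (@En.n l1690 (nat_lit 1045) (nat_lit 10) (nat_lit 12))
    (@En.n l152 (nat_lit 1036) (nat_lit 10) (nat_lit 3))
    (@En.n l7603 (nat_lit 1402) (nat_lit 12) (nat_lit 9))
    (@En.n l97 (nat_lit 1480) (nat_lit 13) (nat_lit 10))
    (@En.n l12289 (nat_lit 6824) (nat_lit 14) (nat_lit 13))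
    (@En.i (nat_lit 1298) (nat_lit 13) (nat_lit 5))
    (@En.n l17 (nat_lit 1175) (nat_lit 15) (nat_lit 2))))
  (@Cl.mk (nat_lit 0x3000b00080008000b000700050008000c0005000800080004000d00090008) (nat_lit 0x501100160560b00) (nat_lit 16) Lb.e (@T16.mk En
    (@En.n l29943 (nat_lit 1405) (nat_lit 0) (nat_lit 8))
    (@En.n l97 (nat_lit 1481) (nat_lit 14) (nat_lit 9))
    (@En.n l29944 (nat_lit 6822) (nat_lit 2) (nat_lit 13))
    (@En.n l12666 (nat_lit 1299) (nat_lit 3) (nat_lit 4))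
    (@En.n l29945 (nat_lit 1178) (nat_lit 8) (nat_lit 8))
    (@En.n l15403 (nat_lit 1096) (nat_lit 10) (nat_lit 8))
    (@En.n l29946 (nat_lit 5083) (nat_lit 6) (nat_lit 5))
    (@En.i (nat_lit 1128) (nat_lit 7) (nat_lit 12))
    (@En.n l29947 (nat_lit 620) (nat_lit 10) (nat_lit 8))
    (@En.n l28 (nat_lit 1042) (nat_lit 9) (nat_lit 5))
    (@En.n l473 (nat_lit 8399) (nat_lit 0) (nat_lit 7))
    (@En.n l18 (nat_lit 1175) (nat_lit 7) (nat_lit 11))
    (@En.n l61 (nat_lit 1175) (nat_lit 8) (nat_lit 8))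
    (@En.n l890 (nat_lit 10494) (nat_lit 14) (nat_lit 8))
    (@En.n l23095 (nat_lit 1177) (nat_lit 11) (nat_lit 11))
    (@En.n l152 (nat_lit 1043) (nat_lit 15) (nat_lit 3))))
  (@Cl.mk (nat_lit 0x40007000a0008000b00070007000a0006000500090008000c000600090009) (nat_lit 0x80400100126067) (nat_lit 16) Lb.e (@T16.mk En
    (@En.n l575 (nat_lit 1179) (nat_lit 7) (nat_lit 9))
    (@En.i (nat_lit 1095) (nat_lit 9) (nat_lit 9))
    (@En.n l25964 (nat_lit 5081) (nat_lit 3) (nat_lit 6))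
    (@En.n l35753 (nat_lit 1043) (nat_lit 7) (nat_lit 12))
    (@En.n l35753 (nat_lit 1176) (nat_lit 8) (nat_lit 8))
    (@En.n l35754 (nat_lit 1044) (nat_lit 10) (nat_lit 9))
    (@En.n l35755 (nat_lit 1041) (nat_lit 11) (nat_lit 5))
    (@En.n l14028 (nat_lit 8397) (nat_lit 7) (nat_lit 6))
    (@En.n l35756 (nat_lit 1045) (nat_lit 8) (nat_lit 10))
    (@En.n l35757 (nat_lit 1045) (nat_lit 9) (nat_lit 7))
    (@En.n l35758 (nat_lit 9919) (nat_lit 11) (nat_lit 7))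
    (@En.i (nat_lit 4921) (nat_lit 7) (nat_lit 11))
    (@En.n l19960 (nat_lit 1408) (nat_lit 13) (nat_lit 8))
    (@En.n l26773 (nat_lit 1472) (nat_lit 8) (nat_lit 10))
    (@En.n l13758 (nat_lit 6506) (nat_lit 11) (nat_lit 7))
    (@En.n l35759 (nat_lit 1300) (nat_lit 15) (nat_lit 4))))
  (@Cl.mk (nat_lit 0x2000b000800060009000d000500080003000d000800070003000a000e0008) (nat_lit 0x200150500000581) (nat_lit 16) Lb.e (@T16.mk En
    (@En.n l18869 (nat_lit 1176) (nat_lit 13) (nat_lit 8))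
    (@En.n l1252 (nat_lit 11465) (nat_lit 1) (nat_lit 14))
    (@En.n l11834 (nat_lit 1179) (nat_lit 2) (nat_lit 10))
    (@En.n l4812 (nat_lit 1180) (nat_lit 3) (nat_lit 3))
    (@En.n l1252 (nat_lit 1392) (nat_lit 4) (nat_lit 7))
    (@En.n l8221 (nat_lit 1482) (nat_lit 5) (nat_lit 8))
    (@En.n l10666 (nat_lit 6842) (nat_lit 7) (nat_lit 13))
    (@En.n l18870 (nat_lit 1544) (nat_lit 7) (nat_lit 3))
    (@En.n l1252 (nat_lit 1826) (nat_lit 10) (nat_lit 8))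
    (@En.n l2678 (nat_lit 5087) (nat_lit 9) (nat_lit 5))
    (@En.n l14494 (nat_lit 1126) (nat_lit 11) (nat_lit 13))
    (@En.i (nat_lit 624) (nat_lit 12) (nat_lit 9))
    (@En.n l14494 (nat_lit 1184) (nat_lit 13) (nat_lit 6))
    (@En.i (nat_lit 2627) (nat_lit 14) (nat_lit 8))
    (@En.n l15298 (nat_lit 1176) (nat_lit 11) (nat_lit 11))
    (@En.n l3 (nat_lit 1178) (nat_lit 15) (nat_lit 2))))
  (@Cl.mk (nat_lit 0x2000a00070006000a0009000d000600090003000600090007000a000e0007) (nat_lit 0x200027060000470) (nat_lit 16) Lb.e (@T16.mk En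
    (@En.i (nat_lit 1177) (nat_lit 10) (nat_lit 7))
    (@En.n l5381 (nat_lit 11450) (nat_lit 1) (nat_lit 14))
    (@En.i (nat_lit 4976) (nat_lit 2) (nat_lit 10))
    (@En.n l3178 (nat_lit 1447) (nat_lit 3) (nat_lit 7))
    (@En.n l387 (nat_lit 1483) (nat_lit 4) (nat_lit 9))
    (@En.n l3340 (nat_lit 5286) (nat_lit 12) (nat_lit 6))
    (@En.n l22447 (nat_lit 1543) (nat_lit 6) (nat_lit 3))
    (@En.i (nat_lit 1821) (nat_lit 0) (nat_lit 9))
    (@En.n l12293 (nat_lit 5086) (nat_lit 8) (nat_lit 6))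
    (@En.n l21032 (nat_lit 1180) (nat_lit 10) (nat_lit 13))
    (@En.n l12295 (nat_lit 1178) (nat_lit 11) (nat_lit 9))
    (@En.n l22448 (nat_lit 1181) (nat_lit 12) (nat_lit 10))
    (@En.n l22449 (nat_lit 1182) (nat_lit 13) (nat_lit 6))
    (@En.n l2205 (nat_lit 8398) (nat_lit 14) (nat_lit 7))
    (@En.n l2678 (nat_lit 1177) (nat_lit 8) (nat_lit 10))
    (@En.n l11 (nat_lit 1179) (nat_lit 15) (nat_lit 2))))
  (@Cl.mk (nat_lit 0x2000b00070006000a000d000500080003000d000600090003000a000e0008) (nat_lit 0x200260500060581) (nat_lit 16) Lb.e (@T16.mk En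
    (@En.n l7963 (nat_lit 1043) (nat_lit 13) (nat_lit 8))
    (@En.n l532 (nat_lit 11456) (nat_lit 1) (nat_lit 14))
    (@En.n l9784 (nat_lit 4972) (nat_lit 2) (nat_lit 10))
    (@En.n l9785 (nat_lit 1178) (nat_lit 3) (nat_lit 3))
    (@En.n l9786 (nat_lit 1650) (nat_lit 0) (nat_lit 9))
    (@En.n l9787 (nat_lit 1179) (nat_lit 5) (nat_lit 6))
    (@En.n l9788 (nat_lit 6820) (nat_lit 7) (nat_lit 13))
    (@En.n l17 (nat_lit 1545) (nat_lit 7) (nat_lit 3))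
    (@En.n l9784 (nat_lit 1825) (nat_lit 10) (nat_lit 8))
    (@En.n l3480 (nat_lit 5088) (nat_lit 9) (nat_lit 5))
    (@En.i (nat_lit 1124) (nat_lit 5) (nat_lit 13))
    (@En.n l207 (nat_lit 1183) (nat_lit 12) (nat_lit 10))
    (@En.i (nat_lit 1185) (nat_lit 13) (nat_lit 6))
    (@En.n l9789 (nat_lit 8472) (nat_lit 14) (nat_lit 7))
    (@En.n l7968 (nat_lit 1043) (nat_lit 11) (nat_lit 11))
    (@En.n l7 (nat_lit 1180) (nat_lit 15) (nat_lit 2))))
  (@Cl.mk (nat_lit 0x2000b0007000a0008000d0005000800030006000d000900080003000e0008) (nat_lit 0x208060500110081) (nat_lit 16) Lb.e (@T16.mk En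
    (@En.n l9790 (nat_lit 1044) (nat_lit 14) (nat_lit 8))
    (@En.n l1531 (nat_lit 11451) (nat_lit 1) (nat_lit 14))
    (@En.n l9791 (nat_lit 1182) (nat_lit 2) (nat_lit 3))
    (@En.n l575 (nat_lit 1539) (nat_lit 3) (nat_lit 8))
    (@En.n l9792 (nat_lit 1179) (nat_lit 4) (nat_lit 9))
    (@En.n l9793 (nat_lit 1178) (nat_lit 6) (nat_lit 13))
    (@En.n l9794 (nat_lit 6512) (nat_lit 12) (nat_lit 6))
    (@En.n l9795 (nat_lit 1542) (nat_lit 7) (nat_lit 3))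
    (@En.n l9796 (nat_lit 1819) (nat_lit 0) (nat_lit 8))
    (@En.n l1539 (nat_lit 5089) (nat_lit 9) (nat_lit 5))
    (@En.n l4068 (nat_lit 1183) (nat_lit 11) (nat_lit 13))
    (@En.n l4068 (nat_lit 1326) (nat_lit 12) (nat_lit 8))
    (@En.n l9797 (nat_lit 1592) (nat_lit 8) (nat_lit 10))
    (@En.n l2520 (nat_lit 8473) (nat_lit 14) (nat_lit 7))
    (@En.n l9798 (nat_lit 1044) (nat_lit 12) (nat_lit 11))
    (@En.n l17 (nat_lit 1181) (nat_lit 15) (nat_lit 2))))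
  (@Cl.mk (nat_lit 0x2000b0006000a0009000d0005000800030006000d0007000a0003000e0008) (nat_lit 0x201250600105081) (nat_lit 16) Lb.e (@T16.mk En
    (@En.n l817 (nat_lit 1041) (nat_lit 14) (nat_lit 8))
    (@En.n l18058 (nat_lit 11010) (nat_lit 1) (nat_lit 14))
    (@En.n l3479 (nat_lit 1181) (nat_lit 2) (nat_lit 3))
    (@En.n l19000 (nat_lit 4977) (nat_lit 3) (nat_lit 10))
    (@En.n l18780 (nat_lit 1581) (nat_lit 4) (nat_lit 7))
    (@En.n l5035 (nat_lit 1180) (nat_lit 6) (nat_lit 13))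
    (@En.n l19001 (nat_lit 6513) (nat_lit 12) (nat_lit 6))
    (@En.n l17 (nat_lit 1547) (nat_lit 7) (nat_lit 3))
    (@En.n l18058 (nat_lit 1820) (nat_lit 0) (nat_lit 8))
    (@En.n l3480 (nat_lit 5092) (nat_lit 9) (nat_lit 5))
    (@En.n l3 (nat_lit 1185) (nat_lit 11) (nat_lit 13))
    (@En.n l3 (nat_lit 1184) (nat_lit 12) (nat_lit 9))
    (@En.n l19002 (nat_lit 1112) (nat_lit 13) (nat_lit 10))
    (@En.n l19003 (nat_lit 8258) (nat_lit 14) (nat_lit 6))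
    (@En.n l816 (nat_lit 1041) (nat_lit 12) (nat_lit 11))
    (@En.n l7 (nat_lit 1182) (nat_lit 15) (nat_lit 2))))
  (@Cl.mk (nat_lit 0x2000c0007000a000d000400070003000c0006000d000900040003000e0009) (nat_lit 0x201500000170091) (nat_lit 16) Lb.e (@T16.mk En
    (@En.n l817 (nat_lit 1034) (nat_lit 14) (nat_lit 9))
    (@En.n l1195 (nat_lit 11458) (nat_lit 1) (nat_lit 14))
    (@En.n l11 (nat_lit 1185) (nat_lit 2) (nat_lit 3))
    (@En.n l3477 (nat_lit 624) (nat_lit 3) (nat_lit 4))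
    (@En.i (nat_lit 1180) (nat_lit 4) (nat_lit 9))
    (@En.n l3478 (nat_lit 1126) (nat_lit 6) (nat_lit 13))
    (@En.n l3479 (nat_lit 1181) (nat_lit 6) (nat_lit 6))
    (@En.n l1192 (nat_lit 6779) (nat_lit 8) (nat_lit 12))
    (@En.n l17 (nat_lit 1546) (nat_lit 8) (nat_lit 3))
    (@En.n l826 (nat_lit 1828) (nat_lit 11) (nat_lit 7))
    (@En.n l3480 (nat_lit 5095) (nat_lit 10) (nat_lit 4))
    (@En.i (nat_lit 1120) (nat_lit 12) (nat_lit 13))
    (@En.n l3481 (nat_lit 1013) (nat_lit 8) (nat_lit 10))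
    (@En.n l3482 (nat_lit 8475) (nat_lit 14) (nat_lit 7))
    (@En.n l816 (nat_lit 1034) (nat_lit 12) (nat_lit 12))
    (@En.n l7 (nat_lit 1183) (nat_lit 15) (nat_lit 2))))
noncomputable def a74 : T16 Cl := @T16.mk Cl
  (@Cl.mk (nat_lit 0x2000c00060009000d000400070003000d000c00070003000a0004000e0009) (nat_lit 0x201400081006091) (nat_lit 16) Lb.e (@T16.mk En
    (@En.n l817 (nat_lit 1042) (nat_lit 12) (nat_lit 9))
    (@En.n l8222 (nat_lit 11008) (nat_lit 1) (nat_lit 14))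
    (@En.i (nat_lit 1326) (nat_lit 2) (nat_lit 4))
    (@En.n l1690 (nat_lit 1182) (nat_lit 3) (nat_lit 10))
    (@En.n l152 (nat_lit 1185) (nat_lit 4) (nat_lit 3))
    (@En.n l8222 (nat_lit 1579) (nat_lit 0) (nat_lit 7))
    (@En.n l619 (nat_lit 1183) (nat_lit 7) (nat_lit 12))
    (@En.i (nat_lit 6728) (nat_lit 8) (nat_lit 13))
    (@En.n l17 (nat_lit 1549) (nat_lit 8) (nat_lit 3))
    (@En.n l826 (nat_lit 2782) (nat_lit 11) (nat_lit 7))
    (@En.i (nat_lit 5093) (nat_lit 10) (nat_lit 4))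
    (@En.i (nat_lit 1066) (nat_lit 12) (nat_lit 13))
    (@En.n l8222 (nat_lit 1080) (nat_lit 9) (nat_lit 9))
    (@En.n l4051 (nat_lit 8256) (nat_lit 14) (nat_lit 6))
    (@En.n l816 (nat_lit 1042) (nat_lit 10) (nat_lit 12))
    (@En.n l7 (nat_lit 1184) (nat_lit 15) (nat_lit 2))))
  (@Cl.mk (nat_lit 0x2000c0006000a000d000400070003000d0006000d0003000a0003000e0009) (nat_lit 0x2014000b0106091) (nat_lit 16) Lb.e (@T16.mk En
    (@En.n l817 (nat_lit 1039) (nat_lit 14) (nat_lit 9))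
    (@En.i (nat_lit 11009) (nat_lit 1) (nat_lit 14))
    (@En.i (nat_lit 1183) (nat_lit 2) (nat_lit 3))
    (@En.n l253 (nat_lit 4877) (nat_lit 3) (nat_lit 10))
    (@En.n l117 (nat_lit 1184) (nat_lit 4) (nat_lit 3))
    (@En.n l625 (nat_lit 1124) (nat_lit 0) (nat_lit 13))
    (@En.i (nat_lit 1182) (nat_lit 6) (nat_lit 6))
    (@En.n l7904 (nat_lit 6739) (nat_lit 8) (nat_lit 13))
    (@En.n l17 (nat_lit 1548) (nat_lit 8) (nat_lit 3))
    (@En.n l826 (nat_lit 2783) (nat_lit 11) (nat_lit 7))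
    (@En.n l3480 (nat_lit 5094) (nat_lit 10) (nat_lit 4))
    (@En.i (nat_lit 1119) (nat_lit 5) (nat_lit 13))
    (@En.n l253 (nat_lit 1109) (nat_lit 13) (nat_lit 10))
    (@En.n l2687 (nat_lit 8257) (nat_lit 14) (nat_lit 6))
    (@En.n l816 (nat_lit 1039) (nat_lit 12) (nat_lit 12))
    (@En.n l7 (nat_lit 1185) (nat_lit 15) (nat_lit 2))))
  (@Cl.mk (nat_lit 0x20005000e000d0002000b0003000c0009000c00050004000b0004000e0007) (nat_lit 0xab090679004030) (nat_lit 16) Lb.e (@T16.mk En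
    (@En.i (nat_lit 1127) (nat_lit 4) (nat_lit 7))
    (@En.n l5 (nat_lit 1136) (nat_lit 1) (nat_lit 14))
    (@En.n l28 (nat_lit 2365) (nat_lit 2) (nat_lit 4))
    (@En.n l1599 (nat_lit 414) (nat_lit 3) (nat_lit 11))
    (@En.n l28 (nat_lit 1064) (nat_lit 4) (nat_lit 4))
    (@En.i (nat_lit 8566) (nat_lit 5) (nat_lit 5))
    (@En.i (nat_lit 13682) (nat_lit 6) (nat_lit 12))
    (@En.n l890 (nat_lit 6176) (nat_lit 12) (nat_lit 9))
    (@En.i (nat_lit 4922) (nat_lit 9) (nat_lit 12))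
    (@En.n l117 (nat_lit 1172) (nat_lit 9) (nat_lit 3))
    (@En.i (nat_lit 1193) (nat_lit 11) (nat_lit 11))
    (@En.n l3 (nat_lit 1186) (nat_lit 11) (nat_lit 2))
    (@En.i (nat_lit 1172) (nat_lit 13) (nat_lit 13))
    (@En.i (nat_lit 6350) (nat_lit 1) (nat_lit 14))
    (@En.i (nat_lit 1142) (nat_lit 13) (nat_lit 5))
    (@En.n l17 (nat_lit 1186) (nat_lit 15) (nat_lit 2))))
  (@Cl.mk (nat_lit 0x20005000e000a0002000b000b0008000b000600050005000b0005000e0008) (nat_lit 0x7005000004005) (nat_lit 16) Lb.e (@T16.mk En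
    (@En.i (nat_lit 1188) (nat_lit 4) (nat_lit 8))
    (@En.n l30315 (nat_lit 1189) (nat_lit 1) (nat_lit 14))
    (@En.n l30316 (nat_lit 1992) (nat_lit 2) (nat_lit 5))
    (@En.n l1599 (nat_lit 1443) (nat_lit 3) (nat_lit 11))
    (@En.n l1577 (nat_lit 1634) (nat_lit 4) (nat_lit 5))
    (@En.i (nat_lit 1186) (nat_lit 5) (nat_lit 5))
    (@En.n l4973 (nat_lit 7692) (nat_lit 6) (nat_lit 6))
    (@En.i (nat_lit 13718) (nat_lit 7) (nat_lit 11))
    (@En.n l26093 (nat_lit 7909) (nat_lit 13) (nat_lit 8))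
    (@En.n l1578 (nat_lit 1190) (nat_lit 10) (nat_lit 11))
    (@En.n l107 (nat_lit 1195) (nat_lit 11) (nat_lit 11))
    (@En.n l3 (nat_lit 1187) (nat_lit 11) (nat_lit 2))
    (@En.n l575 (nat_lit 1551) (nat_lit 13) (nat_lit 10))
    (@En.i (nat_lit 1806) (nat_lit 1) (nat_lit 14))
    (@En.i (nat_lit 1623) (nat_lit 13) (nat_lit 5))
    (@En.n l17 (nat_lit 1187) (nat_lit 15) (nat_lit 2))))
  (@Cl.mk (nat_lit 0x2000a000a00080008000b000700060006000c0005000800080004000e0009) (nat_lit 0x50110006040006) (nat_lit 16) Lb.e (@T16.mk En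
    (@En.n l575 (nat_lit 1550) (nat_lit 14) (nat_lit 9))
    (@En.n l3724 (nat_lit 1493) (nat_lit 1) (nat_lit 14))
    (@En.n l12666 (nat_lit 1621) (nat_lit 2) (nat_lit 4))
    (@En.n l15402 (nat_lit 1648) (nat_lit 3) (nat_lit 8))
    (@En.n l15403 (nat_lit 1633) (nat_lit 10) (nat_lit 8))
    (@En.n l4562 (nat_lit 1657) (nat_lit 5) (nat_lit 5))
    (@En.n l20051 (nat_lit 1406) (nat_lit 7) (nat_lit 12))
    (@En.n l1577 (nat_lit 1631) (nat_lit 10) (nat_lit 6))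
    (@En.i (nat_lit 1127) (nat_lit 8) (nat_lit 6))
    (@En.n l28403 (nat_lit 9124) (nat_lit 10) (nat_lit 7))
    (@En.n l18 (nat_lit 1187) (nat_lit 7) (nat_lit 11))
    (@En.n l61 (nat_lit 1187) (nat_lit 8) (nat_lit 8))
    (@En.n l26093 (nat_lit 7910) (nat_lit 13) (nat_lit 8))
    (@En.n l1578 (nat_lit 1191) (nat_lit 14) (nat_lit 10))
    (@En.n l21937 (nat_lit 1197) (nat_lit 12) (nat_lit 10))
    (@En.n l3 (nat_lit 1188) (nat_lit 15) (nat_lit 2))))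
  (@Cl.mk (nat_lit 0x200080005000e000a0002000b000b00090008000600050005000b000e0007) (nat_lit 0x1087005010003c0) (nat_lit 16) Lb.e (@T16.mk En
    (@En.n l13217 (nat_lit 1620) (nat_lit 5) (nat_lit 7))
    (@En.n l15717 (nat_lit 1614) (nat_lit 7) (nat_lit 14))
    (@En.n l4806 (nat_lit 1438) (nat_lit 2) (nat_lit 11))
    (@En.n l6368 (nat_lit 1632) (nat_lit 3) (nat_lit 5))
    (@En.n l4019 (nat_lit 1136) (nat_lit 4) (nat_lit 5))
    (@En.n l6965 (nat_lit 7691) (nat_lit 5) (nat_lit 6))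
    (@En.i (nat_lit 850) (nat_lit 6) (nat_lit 8))
    (@En.n l6969 (nat_lit 7163) (nat_lit 13) (nat_lit 9))
    (@En.n l61 (nat_lit 1192) (nat_lit 9) (nat_lit 11))
    (@En.n l564 (nat_lit 1198) (nat_lit 10) (nat_lit 11))
    (@En.n l7 (nat_lit 1189) (nat_lit 10) (nat_lit 2))
    (@En.i (nat_lit 443) (nat_lit 12) (nat_lit 10))
    (@En.n l1643 (nat_lit 1812) (nat_lit 1) (nat_lit 14))
    (@En.n l12668 (nat_lit 1187) (nat_lit 14) (nat_lit 5))
    (@En.n l6372 (nat_lit 1188) (nat_lit 3) (nat_lit 8))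
    (@En.n l107 (nat_lit 1189) (nat_lit 15) (nat_lit 2))))
  (@Cl.mk (nat_lit 0x20005000e000b0002000b0007000a0005000e00050002000b0006000e0009) (nat_lit 0x7704000a004006) (nat_lit 16) Lb.e (@T16.mk En
    (@En.i (nat_lit 1191) (nat_lit 4) (nat_lit 9))
    (@En.n l21181 (nat_lit 1192) (nat_lit 1) (nat_lit 14))
    (@En.n l108 (nat_lit 2124) (nat_lit 14) (nat_lit 6))
    (@En.n l1599 (nat_lit 1193) (nat_lit 3) (nat_lit 11))
    (@En.n l28 (nat_lit 1190) (nat_lit 4) (nat_lit 2))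
    (@En.n l11 (nat_lit 1187) (nat_lit 5) (nat_lit 5))
    (@En.i (nat_lit 5023) (nat_lit 7) (nat_lit 14))
    (@En.n l1393 (nat_lit 8231) (nat_lit 7) (nat_lit 5))
    (@En.i (nat_lit 13730) (nat_lit 8) (nat_lit 10))
    (@En.n l1872 (nat_lit 8929) (nat_lit 14) (nat_lit 7))
    (@En.n l170 (nat_lit 1753) (nat_lit 11) (nat_lit 11))
    (@En.n l3 (nat_lit 1190) (nat_lit 11) (nat_lit 2))
    (@En.n l2438 (nat_lit 1553) (nat_lit 13) (nat_lit 11))
    (@En.n l313 (nat_lit 1805) (nat_lit 9) (nat_lit 14))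
    (@En.n l1393 (nat_lit 1611) (nat_lit 13) (nat_lit 5))
    (@En.n l17 (nat_lit 1190) (nat_lit 15) (nat_lit 2))))
  (@Cl.mk (nat_lit 0x2000a00070007000a0006000e00060002000c0006000900090004000e000a) (nat_lit 0x400106006050066) (nat_lit 16) Lb.e (@T16.mk En
    (@En.n l2438 (nat_lit 1531) (nat_lit 9) (nat_lit 10))
    (@En.n l313 (nat_lit 1803) (nat_lit 1) (nat_lit 14))
    (@En.n l1392 (nat_lit 1507) (nat_lit 2) (nat_lit 4))
    (@En.n l26907 (nat_lit 1650) (nat_lit 3) (nat_lit 9))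
    (@En.n l26908 (nat_lit 1652) (nat_lit 9) (nat_lit 9))
    (@En.n l108 (nat_lit 1654) (nat_lit 14) (nat_lit 6))
    (@En.n l1599 (nat_lit 1194) (nat_lit 7) (nat_lit 12))
    (@En.n l28 (nat_lit 1191) (nat_lit 7) (nat_lit 2))
    (@En.n l11 (nat_lit 1188) (nat_lit 8) (nat_lit 6))
    (@En.n l1872 (nat_lit 4951) (nat_lit 1) (nat_lit 14))
    (@En.n l1393 (nat_lit 9118) (nat_lit 2) (nat_lit 6))
    (@En.n l18 (nat_lit 1190) (nat_lit 8) (nat_lit 10))
    (@En.n l61 (nat_lit 1190) (nat_lit 9) (nat_lit 7))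
    (@En.n l1872 (nat_lit 8930) (nat_lit 14) (nat_lit 7))
    (@En.n l26908 (nat_lit 1755) (nat_lit 7) (nat_lit 10))
    (@En.n l3 (nat_lit 1191) (nat_lit 15) (nat_lit 2))))
  (@Cl.mk (nat_lit 0x200090005000e000b0002000b000800070005000e00050002000b000e0008) (nat_lit 0x107604000b006c6) (nat_lit 16) Lb.e (@T16.mk En
    (@En.i (nat_lit 1609) (nat_lit 5) (nat_lit 8))
    (@En.n l2094 (nat_lit 1612) (nat_lit 7) (nat_lit 14))
    (@En.n l1501 (nat_lit 1196) (nat_lit 2) (nat_lit 11))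
    (@En.n l17 (nat_lit 1192) (nat_lit 3) (nat_lit 2))
    (@En.i (nat_lit 1189) (nat_lit 4) (nat_lit 5))
    (@En.i (nat_lit 5022) (nat_lit 1) (nat_lit 14))
    (@En.n l2094 (nat_lit 8233) (nat_lit 2) (nat_lit 5))
    (@En.i (nat_lit 864) (nat_lit 7) (nat_lit 7))
    (@En.n l7327 (nat_lit 8928) (nat_lit 14) (nat_lit 8))
    (@En.n l3699 (nat_lit 1757) (nat_lit 10) (nat_lit 11))
    (@En.n l7 (nat_lit 1192) (nat_lit 10) (nat_lit 2))
    (@En.n l644 (nat_lit 1606) (nat_lit 12) (nat_lit 11))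
    (@En.n l1643 (nat_lit 1811) (nat_lit 1) (nat_lit 14))
    (@En.n l357 (nat_lit 1190) (nat_lit 14) (nat_lit 5))
    (@En.n l12815 (nat_lit 1191) (nat_lit 3) (nat_lit 9))
    (@En.n l107 (nat_lit 1192) (nat_lit 15) (nat_lit 2))))
  (@Cl.mk (nat_lit 0x200050008000e000b0002000b0008000b000500080005000b0005000e0008) (nat_lit 0x1805020003006) (nat_lit 16) Lb.e (@T16.mk En
    (@En.i (nat_lit 1194) (nat_lit 5) (nat_lit 8))
    (@En.n l5 (nat_lit 1196) (nat_lit 1) (nat_lit 14))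
    (@En.n l28 (nat_lit 1990) (nat_lit 2) (nat_lit 5))
    (@En.n l1599 (nat_lit 1441) (nat_lit 9) (nat_lit 11))
    (@En.n l28 (nat_lit 1443) (nat_lit 4) (nat_lit 5))
    (@En.i (nat_lit 13616) (nat_lit 10) (nat_lit 8))
    (@En.i (nat_lit 9130) (nat_lit 6) (nat_lit 5))
    (@En.i (nat_lit 13729) (nat_lit 7) (nat_lit 11))
    (@En.n l2650 (nat_lit 7866) (nat_lit 14) (nat_lit 8))
    (@En.i (nat_lit 1752) (nat_lit 10) (nat_lit 11))
    (@En.n l107 (nat_lit 1193) (nat_lit 10) (nat_lit 2))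
    (@En.i (nat_lit 1195) (nat_lit 12) (nat_lit 11))
    (@En.n l97 (nat_lit 1187) (nat_lit 13) (nat_lit 14))
    (@En.n l3724 (nat_lit 1982) (nat_lit 10) (nat_lit 8))
    (@En.i (nat_lit 1473) (nat_lit 13) (nat_lit 5))
    (@En.n l17 (nat_lit 1193) (nat_lit 15) (nat_lit 2))))
  (@Cl.mk (nat_lit 0x2000a00080008000b000600090006000c00050008000800040007000e000a) (nat_lit 0x501300050500017) (nat_lit 16) Lb.e (@T16.mk En
    (@En.n l27404 (nat_lit 1197) (nat_lit 13) (nat_lit 10))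
    (@En.n l97 (nat_lit 1188) (nat_lit 1) (nat_lit 14))
    (@En.n l3724 (nat_lit 1938) (nat_lit 11) (nat_lit 7))
    (@En.n l12666 (nat_lit 1437) (nat_lit 3) (nat_lit 4))
    (@En.n l15402 (nat_lit 1407) (nat_lit 4) (nat_lit 8))
    (@En.n l15403 (nat_lit 1427) (nat_lit 10) (nat_lit 8))
    (@En.n l35766 (nat_lit 1985) (nat_lit 6) (nat_lit 5))
    (@En.n l20051 (nat_lit 1404) (nat_lit 8) (nat_lit 12))
    (@En.n l25581 (nat_lit 1406) (nat_lit 8) (nat_lit 6))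
    (@En.n l25581 (nat_lit 13615) (nat_lit 9) (nat_lit 9))
    (@En.n l28406 (nat_lit 9125) (nat_lit 11) (nat_lit 6))
    (@En.n l18 (nat_lit 1193) (nat_lit 7) (nat_lit 11))
    (@En.n l61 (nat_lit 1193) (nat_lit 8) (nat_lit 8))
    (@En.n l3724 (nat_lit 7868) (nat_lit 14) (nat_lit 8))
    (@En.n l33611 (nat_lit 1754) (nat_lit 11) (nat_lit 10))
    (@En.n l107 (nat_lit 1194) (nat_lit 15) (nat_lit 2))))
  (@Cl.mk (nat_lit 0x200050008000b000b000a0007000a0005000500080006000b0006000e0009) (nat_lit 0x7940200106007) (nat_lit 16) Lb.e (@T16.mk En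
    (@En.n l27404 (nat_lit 1197) (nat_lit 1) (nat_lit 9))
    (@En.n l27405 (nat_lit 1198) (nat_lit 1) (nat_lit 14))
    (@En.n l4670 (nat_lit 1986) (nat_lit 2) (nat_lit 6))
    (@En.n l27406 (nat_lit 1442) (nat_lit 3) (nat_lit 11))
    (@En.n l1643 (nat_lit 1444) (nat_lit 4) (nat_lit 6))
    (@En.n l3 (nat_lit 1193) (nat_lit 5) (nat_lit 8))
    (@En.n l527 (nat_lit 1193) (nat_lit 6) (nat_lit 5))
    (@En.n l13079 (nat_lit 9131) (nat_lit 7) (nat_lit 5))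
    (@En.i (nat_lit 13728) (nat_lit 8) (nat_lit 10))
    (@En.n l27407 (nat_lit 7848) (nat_lit 10) (nat_lit 7))
    (@En.n l11106 (nat_lit 1750) (nat_lit 11) (nat_lit 10))
    (@En.n l11782 (nat_lit 1450) (nat_lit 12) (nat_lit 11))
    (@En.n l27408 (nat_lit 1552) (nat_lit 13) (nat_lit 11))
    (@En.n l11783 (nat_lit 1934) (nat_lit 10) (nat_lit 8))
    (@En.n l13079 (nat_lit 1474) (nat_lit 13) (nat_lit 5))
    (@En.n l17 (nat_lit 1195) (nat_lit 15) (nat_lit 2))))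
  (@Cl.mk (nat_lit 0x2000800050008000e000b0002000b00090008000500080005000b000e0007) (nat_lit 0x1009805020405c0) (nat_lit 16) Lb.e (@T16.mk En
    (@En.n l23726 (nat_lit 1199) (nat_lit 6) (nat_lit 7))
    (@En.n l12404 (nat_lit 1930) (nat_lit 4) (nat_lit 14))
    (@En.n l12411 (nat_lit 1439) (nat_lit 9) (nat_lit 11))
    (@En.n l28 (nat_lit 1438) (nat_lit 3) (nat_lit 5))
    (@En.i (nat_lit 13618) (nat_lit 10) (nat_lit 8))
    (@En.n l26912 (nat_lit 9443) (nat_lit 5) (nat_lit 5))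
    (@En.i (nat_lit 808) (nat_lit 6) (nat_lit 8))
    (@En.n l3486 (nat_lit 7867) (nat_lit 14) (nat_lit 9))
    (@En.n l5234 (nat_lit 1756) (nat_lit 9) (nat_lit 11))
    (@En.n l107 (nat_lit 1196) (nat_lit 9) (nat_lit 2))
    (@En.n l13079 (nat_lit 1198) (nat_lit 11) (nat_lit 11))
    (@En.n l4684 (nat_lit 1189) (nat_lit 12) (nat_lit 14))
    (@En.n l2369 (nat_lit 1971) (nat_lit 13) (nat_lit 8))
    (@En.n l699 (nat_lit 1193) (nat_lit 14) (nat_lit 5))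
    (@En.n l17 (nat_lit 1194) (nat_lit 4) (nat_lit 8))
    (@En.n l18 (nat_lit 1196) (nat_lit 15) (nat_lit 2))))
  (@Cl.mk (nat_lit 0x40007000a000a000900070007000a0006000600090007000c000600090009) (nat_lit 0x68400300104060) (nat_lit 16) Lb.e (@T16.mk En
    (@En.n l575 (nat_lit 1514) (nat_lit 7) (nat_lit 9))
    (@En.i (nat_lit 1428) (nat_lit 9) (nat_lit 9))
    (@En.n l27363 (nat_lit 1988) (nat_lit 15) (nat_lit 6))
    (@En.n l27364 (nat_lit 1408) (nat_lit 8) (nat_lit 12))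
    (@En.n l27365 (nat_lit 1297) (nat_lit 9) (nat_lit 7))
    (@En.n l27366 (nat_lit 1194) (nat_lit 9) (nat_lit 9))
    (@En.n l11207 (nat_lit 1194) (nat_lit 10) (nat_lit 6))
    (@En.n l27367 (nat_lit 9126) (nat_lit 7) (nat_lit 6))
    (@En.n l27368 (nat_lit 1195) (nat_lit 8) (nat_lit 10))
    (@En.n l27369 (nat_lit 1195) (nat_lit 9) (nat_lit 7))
    (@En.n l27370 (nat_lit 7841) (nat_lit 9) (nat_lit 7))
    (@En.n l27371 (nat_lit 1751) (nat_lit 7) (nat_lit 9))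
    (@En.n l27372 (nat_lit 1512) (nat_lit 6) (nat_lit 10))
    (@En.n l11859 (nat_lit 1518) (nat_lit 8) (nat_lit 10))
    (@En.n l13210 (nat_lit 1936) (nat_lit 11) (nat_lit 7))
    (@En.n l27373 (nat_lit 1477) (nat_lit 15) (nat_lit 4))))
  (@Cl.mk (nat_lit 0x2000900050008000b000b000a000800070005000500080006000b000e0008) (nat_lit 0x1007940000505c6) (nat_lit 16) Lb.e (@T16.mk En
    (@En.n l7997 (nat_lit 1508) (nat_lit 2) (nat_lit 8))
    (@En.n l9518 (nat_lit 1931) (nat_lit 4) (nat_lit 14))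
    (@En.n l4803 (nat_lit 1440) (nat_lit 2) (nat_lit 11))
    (@En.n l4839 (nat_lit 1417) (nat_lit 3) (nat_lit 6))
    (@En.n l13773 (nat_lit 1196) (nat_lit 4) (nat_lit 8))
    (@En.n l8283 (nat_lit 1196) (nat_lit 5) (nat_lit 5))
    (@En.n l9518 (nat_lit 9448) (nat_lit 6) (nat_lit 5))
    (@En.i (nat_lit 807) (nat_lit 7) (nat_lit 7))
    (@En.n l6489 (nat_lit 7856) (nat_lit 9) (nat_lit 8))
    (@En.n l2337 (nat_lit 1749) (nat_lit 10) (nat_lit 10))
    (@En.n l601 (nat_lit 1510) (nat_lit 5) (nat_lit 11))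
    (@En.n l617 (nat_lit 1760) (nat_lit 7) (nat_lit 11))
    (@En.n l781 (nat_lit 1970) (nat_lit 13) (nat_lit 8))
    (@En.n l12574 (nat_lit 1195) (nat_lit 14) (nat_lit 5))
    (@En.n l7995 (nat_lit 1197) (nat_lit 0) (nat_lit 9))
    (@En.n l107 (nat_lit 1198) (nat_lit 15) (nat_lit 2))))
  (@Cl.mk (nat_lit 0x2000a000900090009000600090006000c00070007000700040007000e000a) (nat_lit 0x501300040000007) (nat_lit 16) Lb.e (@T16.mk En
    (@En.n l1772 (nat_lit 1508) (nat_lit 13) (nat_lit 10))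
    (@En.n l97 (nat_lit 1620) (nat_lit 1) (nat_lit 14))
    (@En.n l15697 (nat_lit 1858) (nat_lit 11) (nat_lit 7))
    (@En.n l7963 (nat_lit 1194) (nat_lit 3) (nat_lit 4))
    (@En.n l601 (nat_lit 1427) (nat_lit 9) (nat_lit 7))
    (@En.n l77 (nat_lit 1401) (nat_lit 5) (nat_lit 7))
    (@En.n l6064 (nat_lit 1779) (nat_lit 6) (nat_lit 7))
    (@En.n l26943 (nat_lit 1403) (nat_lit 8) (nat_lit 12))
    (@En.i (nat_lit 1400) (nat_lit 8) (nat_lit 6))
    (@En.n l12108 (nat_lit 12943) (nat_lit 9) (nat_lit 9))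
    (@En.n l26944 (nat_lit 9435) (nat_lit 11) (nat_lit 6))
    (@En.n l15696 (nat_lit 1475) (nat_lit 7) (nat_lit 9))
    (@En.n l26945 (nat_lit 1196) (nat_lit 7) (nat_lit 9))
    (@En.n l15697 (nat_lit 7750) (nat_lit 14) (nat_lit 9))
    (@En.n l12108 (nat_lit 2507) (nat_lit 11) (nat_lit 10))
    (@En.n l107 (nat_lit 1199) (nat_lit 15) (nat_lit 2))))
noncomputable def a75 : T16 Cl := @T16.mk Cl
  (@Cl.mk (nat_lit 0x2000a000e00090002000c00090006000d000400070003000d0007000e0003) (nat_lit 0x69101006000b0c0) (nat_lit 16) Lb.e (@T16.mk En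
    (@En.n l2653 (nat_lit 1126) (nat_lit 4) (nat_lit 3))
    (@En.i (nat_lit 13710) (nat_lit 0) (nat_lit 14))
    (@En.i (nat_lit 1578) (nat_lit 2) (nat_lit 7))
    (@En.n l564 (nat_lit 6827) (nat_lit 8) (nat_lit 13))
    (@En.n l7 (nat_lit 1201) (nat_lit 4) (nat_lit 3))
    (@En.i (nat_lit 1206) (nat_lit 5) (nat_lit 7))
    (@En.n l2678 (nat_lit 2366) (nat_lit 6) (nat_lit 4))
    (@En.n l4415 (nat_lit 408) (nat_lit 8) (nat_lit 13))
    (@En.n l4405 (nat_lit 1084) (nat_lit 8) (nat_lit 6))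
    (@En.i (nat_lit 8582) (nat_lit 14) (nat_lit 9))
    (@En.i (nat_lit 1173) (nat_lit 11) (nat_lit 12))
    (@En.n l3 (nat_lit 1200) (nat_lit 11) (nat_lit 2))
    (@En.n l97 (nat_lit 1173) (nat_lit 13) (nat_lit 9))
    (@En.i (nat_lit 5643) (nat_lit 1) (nat_lit 14))
    (@En.i (nat_lit 1178) (nat_lit 2) (nat_lit 10))
    (@En.n l17 (nat_lit 1200) (nat_lit 15) (nat_lit 2))))
  (@Cl.mk (nat_lit 0x2000a000e000a0002000b00090006000d000600050003000d0007000e0003) (nat_lit 0x87103005000b0c0) (nat_lit 16) Lb.e (@T16.mk En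
    (@En.n l2653 (nat_lit 1125) (nat_lit 4) (nat_lit 3))
    (@En.n l11854 (nat_lit 13768) (nat_lit 0) (nat_lit 14))
    (@En.n l4405 (nat_lit 1568) (nat_lit 2) (nat_lit 7))
    (@En.n l2682 (nat_lit 7516) (nat_lit 8) (nat_lit 13))
    (@En.i (nat_lit 1200) (nat_lit 4) (nat_lit 3))
    (@En.n l8163 (nat_lit 1204) (nat_lit 5) (nat_lit 5))
    (@En.n l810 (nat_lit 3258) (nat_lit 6) (nat_lit 6))
    (@En.n l11854 (nat_lit 444) (nat_lit 8) (nat_lit 13))
    (@En.n l4405 (nat_lit 1144) (nat_lit 8) (nat_lit 6))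
    (@En.n l3832 (nat_lit 8581) (nat_lit 14) (nat_lit 9))
    (@En.n l1818 (nat_lit 1140) (nat_lit 11) (nat_lit 11))
    (@En.n l3 (nat_lit 1201) (nat_lit 11) (nat_lit 2))
    (@En.n l14493 (nat_lit 1131) (nat_lit 13) (nat_lit 10))
    (@En.i (nat_lit 5641) (nat_lit 1) (nat_lit 14))
    (@En.n l14494 (nat_lit 1544) (nat_lit 2) (nat_lit 10))
    (@En.n l17 (nat_lit 1201) (nat_lit 15) (nat_lit 2))))
  (@Cl.mk (nat_lit 0x20009000d000d000a00030003000a0007000e00060002000d0006000e0003) (nat_lit 0x6882000030000a0) (nat_lit 16) Lb.e (@T16.mk En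
    (@En.n l5311 (nat_lit 1205) (nat_lit 11) (nat_lit 3))
    (@En.n l5931 (nat_lit 13762) (nat_lit 0) (nat_lit 14))
    (@En.n l5052 (nat_lit 2923) (nat_lit 14) (nat_lit 6))
    (@En.n l23054 (nat_lit 7290) (nat_lit 9) (nat_lit 13))
    (@En.n l7 (nat_lit 1202) (nat_lit 4) (nat_lit 2))
    (@En.n l21237 (nat_lit 1212) (nat_lit 5) (nat_lit 6))
    (@En.n l5931 (nat_lit 451) (nat_lit 7) (nat_lit 14))
    (@En.n l5052 (nat_lit 1146) (nat_lit 7) (nat_lit 7))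
    (@En.n l34663 (nat_lit 8513) (nat_lit 9) (nat_lit 10))
    (@En.n l107 (nat_lit 1204) (nat_lit 9) (nat_lit 3))
    (@En.n l7630 (nat_lit 1206) (nat_lit 10) (nat_lit 3))
    (@En.n l21052 (nat_lit 1201) (nat_lit 12) (nat_lit 10))
    (@En.n l34664 (nat_lit 1206) (nat_lit 13) (nat_lit 13))
    (@En.i (nat_lit 5343) (nat_lit 9) (nat_lit 13))
    (@En.n l13128 (nat_lit 1827) (nat_lit 10) (nat_lit 9))
    (@En.n l17 (nat_lit 1202) (nat_lit 15) (nat_lit 2))))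
  (@Cl.mk (nat_lit 0x2000b000300090007000e00050002000d000d0007000300030009000e000d) (nat_lit 0x300050000000678) (nat_lit 16) Lb.e (@T16.mk En
    (@En.n l601 (nat_lit 1205) (nat_lit 8) (nat_lit 13))
    (@En.n l532 (nat_lit 4517) (nat_lit 1) (nat_lit 14))
    (@En.n l476 (nat_lit 2769) (nat_lit 2) (nat_lit 9))
    (@En.n l152 (nat_lit 1209) (nat_lit 13) (nat_lit 3))
    (@En.n l4804 (nat_lit 1204) (nat_lit 0) (nat_lit 3))
    (@En.n l97 (nat_lit 1899) (nat_lit 0) (nat_lit 7))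
    (@En.n l13137 (nat_lit 1204) (nat_lit 3) (nat_lit 13))
    (@En.i (nat_lit 7289) (nat_lit 8) (nat_lit 13))
    (@En.n l17 (nat_lit 1203) (nat_lit 8) (nat_lit 2))
    (@En.i (nat_lit 3007) (nat_lit 9) (nat_lit 5))
    (@En.n l7966 (nat_lit 450) (nat_lit 1) (nat_lit 14))
    (@En.i (nat_lit 1147) (nat_lit 12) (nat_lit 7))
    (@En.n l532 (nat_lit 8955) (nat_lit 13) (nat_lit 9))
    (@En.i (nat_lit 1205) (nat_lit 4) (nat_lit 3))
    (@En.i (nat_lit 1312) (nat_lit 0) (nat_lit 11))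
    (@En.n l7 (nat_lit 1203) (nat_lit 15) (nat_lit 2))))
  (@Cl.mk (nat_lit 0x20009000e000d0002000b0003000a0007000e00050002000d0006000e0003) (nat_lit 0x67903000600b000) (nat_lit 16) Lb.e (@T16.mk En
    (@En.n l5311 (nat_lit 1203) (nat_lit 4) (nat_lit 3))
    (@En.n l5931 (nat_lit 13763) (nat_lit 0) (nat_lit 14))
    (@En.n l5052 (nat_lit 2922) (nat_lit 14) (nat_lit 6))
    (@En.n l23054 (nat_lit 7217) (nat_lit 8) (nat_lit 13))
    (@En.n l7 (nat_lit 1204) (nat_lit 4) (nat_lit 2))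
    (@En.n l4963 (nat_lit 3009) (nat_lit 5) (nat_lit 5))
    (@En.n l5931 (nat_lit 449) (nat_lit 7) (nat_lit 14))
    (@En.n l5052 (nat_lit 1145) (nat_lit 7) (nat_lit 7))
    (@En.n l5931 (nat_lit 12810) (nat_lit 9) (nat_lit 10))
    (@En.i (nat_lit 1202) (nat_lit 9) (nat_lit 3))
    (@En.n l55 (nat_lit 1313) (nat_lit 0) (nat_lit 11))
    (@En.n l3 (nat_lit 1204) (nat_lit 11) (nat_lit 2))
    (@En.n l97 (nat_lit 1202) (nat_lit 13) (nat_lit 13))
    (@En.i (nat_lit 5876) (nat_lit 1) (nat_lit 14))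
    (@En.n l13128 (nat_lit 2768) (nat_lit 2) (nat_lit 9))
    (@En.n l17 (nat_lit 1204) (nat_lit 15) (nat_lit 2))))
  (@Cl.mk (nat_lit 0x2000d000d0007000300030009000d000d000a0003000300090007000e0006) (nat_lit 0x10006791000060) (nat_lit 16) Lb.e (@T16.mk En
    (@En.n l4172 (nat_lit 1211) (nat_lit 4) (nat_lit 6))
    (@En.n l7966 (nat_lit 447) (nat_lit 1) (nat_lit 14))
    (@En.i (nat_lit 691) (nat_lit 2) (nat_lit 7))
    (@En.n l532 (nat_lit 8414) (nat_lit 3) (nat_lit 9))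
    (@En.n l50 (nat_lit 1203) (nat_lit 13) (nat_lit 3))
    (@En.i (nat_lit 1207) (nat_lit 0) (nat_lit 3))
    (@En.i (nat_lit 1125) (nat_lit 0) (nat_lit 10))
    (@En.n l601 (nat_lit 1207) (nat_lit 3) (nat_lit 13))
    (@En.n l532 (nat_lit 4516) (nat_lit 9) (nat_lit 13))
    (@En.n l476 (nat_lit 1824) (nat_lit 10) (nat_lit 9))
    (@En.n l152 (nat_lit 1208) (nat_lit 13) (nat_lit 3))
    (@En.n l4804 (nat_lit 1202) (nat_lit 0) (nat_lit 3))
    (@En.n l97 (nat_lit 1893) (nat_lit 0) (nat_lit 7))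
    (@En.n l13137 (nat_lit 1202) (nat_lit 3) (nat_lit 13))
    (@En.i (nat_lit 7285) (nat_lit 9) (nat_lit 13))
    (@En.n l17 (nat_lit 1205) (nat_lit 15) (nat_lit 2))))
  (@Cl.mk (nat_lit 0x20009000d0009000e00030002000a0007000e00070002000d0006000e0003) (nat_lit 0x671c00004000000) (nat_lit 16) Lb.e (@T16.mk En
    (@En.n l4404 (nat_lit 1207) (nat_lit 6) (nat_lit 3))
    (@En.i (nat_lit 13761) (nat_lit 0) (nat_lit 14))
    (@En.n l7844 (nat_lit 2924) (nat_lit 14) (nat_lit 6))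
    (@En.n l7843 (nat_lit 7291) (nat_lit 10) (nat_lit 13))
    (@En.n l7 (nat_lit 1206) (nat_lit 4) (nat_lit 2))
    (@En.n l7844 (nat_lit 2950) (nat_lit 5) (nat_lit 7))
    (@En.n l7844 (nat_lit 683) (nat_lit 7) (nat_lit 14))
    (@En.n l18865 (nat_lit 2755) (nat_lit 14) (nat_lit 7))
    (@En.n l18735 (nat_lit 8512) (nat_lit 9) (nat_lit 10))
    (@En.n l107 (nat_lit 1206) (nat_lit 9) (nat_lit 2))
    (@En.n l18866 (nat_lit 1202) (nat_lit 10) (nat_lit 3))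
    (@En.i (nat_lit 13492) (nat_lit 0) (nat_lit 14))
    (@En.n l97 (nat_lit 1099) (nat_lit 2) (nat_lit 9))
    (@En.i (nat_lit 5400) (nat_lit 9) (nat_lit 13))
    (@En.n l1252 (nat_lit 1826) (nat_lit 4) (nat_lit 9))
    (@En.n l17 (nat_lit 1206) (nat_lit 15) (nat_lit 2))))
  (@Cl.mk (nat_lit 0x200090007000e00070002000d000d0007000300030009000d0009000e0003) (nat_lit 0x40001000681c0) (nat_lit 16) Lb.e (@T16.mk En
    (@En.n l7 (nat_lit 1205) (nat_lit 5) (nat_lit 3))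
    (@En.n l19142 (nat_lit 13493) (nat_lit 0) (nat_lit 14))
    (@En.i (nat_lit 1098) (nat_lit 2) (nat_lit 9))
    (@En.n l19142 (nat_lit 2957) (nat_lit 9) (nat_lit 13))
    (@En.n l19143 (nat_lit 1825) (nat_lit 4) (nat_lit 9))
    (@En.n l152 (nat_lit 1210) (nat_lit 13) (nat_lit 3))
    (@En.n l1417 (nat_lit 1206) (nat_lit 0) (nat_lit 3))
    (@En.n l19144 (nat_lit 1892) (nat_lit 0) (nat_lit 7))
    (@En.n l1419 (nat_lit 1206) (nat_lit 3) (nat_lit 13))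
    (@En.n l2696 (nat_lit 7286) (nat_lit 10) (nat_lit 13))
    (@En.n l17 (nat_lit 1207) (nat_lit 10) (nat_lit 2))
    (@En.n l15866 (nat_lit 1213) (nat_lit 12) (nat_lit 7))
    (@En.n l15866 (nat_lit 453) (nat_lit 13) (nat_lit 14))
    (@En.i (nat_lit 689) (nat_lit 14) (nat_lit 7))
    (@En.n l19045 (nat_lit 8508) (nat_lit 3) (nat_lit 9))
    (@En.n l50 (nat_lit 1207) (nat_lit 15) (nat_lit 2))))
  (@Cl.mk (nat_lit 0x2000800030009000d000d000a0003000300080007000e00060002000e000d) (nat_lit 0x6067910000600a1) (nat_lit 16) Lb.e (@T16.mk En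
    (@En.i (nat_lit 1205) (nat_lit 14) (nat_lit 13))
    (@En.i (nat_lit 4007) (nat_lit 1) (nat_lit 14))
    (@En.n l17 (nat_lit 1208) (nat_lit 2) (nat_lit 2))
    (@En.n l4172 (nat_lit 3006) (nat_lit 3) (nat_lit 6))
    (@En.n l524 (nat_lit 452) (nat_lit 5) (nat_lit 14))
    (@En.i (nat_lit 690) (nat_lit 5) (nat_lit 7))
    (@En.n l532 (nat_lit 8760) (nat_lit 6) (nat_lit 8))
    (@En.n l50 (nat_lit 1209) (nat_lit 7) (nat_lit 3))
    (@En.i (nat_lit 1210) (nat_lit 8) (nat_lit 3))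
    (@En.i (nat_lit 1123) (nat_lit 10) (nat_lit 10))
    (@En.n l601 (nat_lit 1210) (nat_lit 11) (nat_lit 13))
    (@En.n l532 (nat_lit 5862) (nat_lit 12) (nat_lit 13))
    (@En.n l11 (nat_lit 3386) (nat_lit 13) (nat_lit 9))
    (@En.n l117 (nat_lit 1205) (nat_lit 10) (nat_lit 3))
    (@En.i (nat_lit 1269) (nat_lit 12) (nat_lit 8))
    (@En.n l3 (nat_lit 1208) (nat_lit 15) (nat_lit 2))))
  (@Cl.mk (nat_lit 0x2000800030009000e000d0002000b000300080007000e00050002000e000d) (nat_lit 0x6780300050081) (nat_lit 16) Lb.e (@T16.mk En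
    (@En.i (nat_lit 1203) (nat_lit 7) (nat_lit 13))
    (@En.i (nat_lit 4006) (nat_lit 1) (nat_lit 14))
    (@En.n l17 (nat_lit 1209) (nat_lit 2) (nat_lit 2))
    (@En.i (nat_lit 3008) (nat_lit 3) (nat_lit 5))
    (@En.n l524 (nat_lit 448) (nat_lit 5) (nat_lit 14))
    (@En.i (nat_lit 1215) (nat_lit 12) (nat_lit 7))
    (@En.n l532 (nat_lit 12809) (nat_lit 6) (nat_lit 8))
    (@En.i (nat_lit 1208) (nat_lit 7) (nat_lit 3))
    (@En.i (nat_lit 1314) (nat_lit 0) (nat_lit 11))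
    (@En.n l7 (nat_lit 1209) (nat_lit 9) (nat_lit 2))
    (@En.n l601 (nat_lit 1208) (nat_lit 11) (nat_lit 13))
    (@En.n l532 (nat_lit 5863) (nat_lit 12) (nat_lit 14))
    (@En.n l11 (nat_lit 3375) (nat_lit 13) (nat_lit 9))
    (@En.n l117 (nat_lit 1203) (nat_lit 3) (nat_lit 3))
    (@En.i (nat_lit 1268) (nat_lit 12) (nat_lit 8))
    (@En.n l3 (nat_lit 1209) (nat_lit 15) (nat_lit 2))))
  (@Cl.mk (nat_lit 0x2000800030009000d0009000e0003000200080007000e00070002000e000d) (nat_lit 0x60681c0000400a1) (nat_lit 16) Lb.e (@T16.mk En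
    (@En.i (nat_lit 1207) (nat_lit 9) (nat_lit 13))
    (@En.n l3969 (nat_lit 4010) (nat_lit 1) (nat_lit 14))
    (@En.n l17 (nat_lit 1210) (nat_lit 2) (nat_lit 2))
    (@En.n l22054 (nat_lit 2951) (nat_lit 3) (nat_lit 7))
    (@En.n l524 (nat_lit 682) (nat_lit 5) (nat_lit 14))
    (@En.i (nat_lit 686) (nat_lit 14) (nat_lit 7))
    (@En.i (nat_lit 8295) (nat_lit 6) (nat_lit 8))
    (@En.n l50 (nat_lit 1210) (nat_lit 7) (nat_lit 2))
    (@En.n l7 (nat_lit 1208) (nat_lit 8) (nat_lit 3))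
    (@En.n l828 (nat_lit 13494) (nat_lit 0) (nat_lit 14))
    (@En.i (nat_lit 379) (nat_lit 2) (nat_lit 9))
    (@En.n l532 (nat_lit 5401) (nat_lit 12) (nat_lit 13))
    (@En.n l7109 (nat_lit 3374) (nat_lit 4) (nat_lit 9))
    (@En.n l117 (nat_lit 1207) (nat_lit 5) (nat_lit 3))
    (@En.n l12222 (nat_lit 1350) (nat_lit 12) (nat_lit 8))
    (@En.n l3 (nat_lit 1210) (nat_lit 15) (nat_lit 2))))
  (@Cl.mk (nat_lit 0x300030008000c000c000a000a00040004000a000800060006000d000d0006) (nat_lit 0x20022000500000) (nat_lit 16) Lb.e (@T16.mk En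
    (@En.n l97 (nat_lit 2982) (nat_lit 0) (nat_lit 6))
    (@En.n l30104 (nat_lit 1212) (nat_lit 3) (nat_lit 13))
    (@En.n l20391 (nat_lit 8723) (nat_lit 2) (nat_lit 13))
    (@En.n l30105 (nat_lit 2816) (nat_lit 10) (nat_lit 6))
    (@En.n l20391 (nat_lit 6334) (nat_lit 4) (nat_lit 6))
    (@En.i (nat_lit 1152) (nat_lit 5) (nat_lit 8))
    (@En.i (nat_lit 8422) (nat_lit 7) (nat_lit 10))
    (@En.n l77 (nat_lit 3007) (nat_lit 12) (nat_lit 4))
    (@En.n l8048 (nat_lit 3014) (nat_lit 8) (nat_lit 4))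
    (@En.n l5653 (nat_lit 1205) (nat_lit 6) (nat_lit 10))
    (@En.n l601 (nat_lit 1322) (nat_lit 11) (nat_lit 10))
    (@En.n l30106 (nat_lit 1213) (nat_lit 4) (nat_lit 12))
    (@En.n l30107 (nat_lit 5570) (nat_lit 13) (nat_lit 12))
    (@En.n l3517 (nat_lit 2797) (nat_lit 14) (nat_lit 8))
    (@En.n l152 (nat_lit 3006) (nat_lit 13) (nat_lit 3))
    (@En.n l21732 (nat_lit 1212) (nat_lit 0) (nat_lit 3))))
  (@Cl.mk (nat_lit 0x20008000c000c000a000a00040004000b000800060006000d0005000e0003) (nat_lit 0x23000100b000) (nat_lit 16) Lb.e (@T16.mk En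
    (@En.n l29806 (nat_lit 1211) (nat_lit 15) (nat_lit 3))
    (@En.n l29807 (nat_lit 13751) (nat_lit 0) (nat_lit 14))
    (@En.n l24961 (nat_lit 2925) (nat_lit 2) (nat_lit 5))
    (@En.n l29808 (nat_lit 8725) (nat_lit 4) (nat_lit 13))
    (@En.n l2262 (nat_lit 2818) (nat_lit 10) (nat_lit 6))
    (@En.n l29808 (nat_lit 6408) (nat_lit 5) (nat_lit 6))
    (@En.n l29809 (nat_lit 1151) (nat_lit 6) (nat_lit 8))
    (@En.n l5845 (nat_lit 8518) (nat_lit 8) (nat_lit 11))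
    (@En.n l29810 (nat_lit 3009) (nat_lit 8) (nat_lit 4))
    (@En.n l12925 (nat_lit 3018) (nat_lit 9) (nat_lit 4))
    (@En.n l12926 (nat_lit 1202) (nat_lit 11) (nat_lit 10))
    (@En.n l134 (nat_lit 3258) (nat_lit 12) (nat_lit 10))
    (@En.n l29811 (nat_lit 2950) (nat_lit 13) (nat_lit 12))
    (@En.i (nat_lit 5571) (nat_lit 14) (nat_lit 12))
    (@En.n l29812 (nat_lit 2798) (nat_lit 14) (nat_lit 8))
    (@En.n l17 (nat_lit 1212) (nat_lit 15) (nat_lit 2))))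
  (@Cl.mk (nat_lit 0x2000a000800070007000d000d0006000300030008000c00090009000e0004) (nat_lit 0xa1200) (nat_lit 16) Lb.e (@T16.mk En
    (@En.n l14392 (nat_lit 1211) (nat_lit 8) (nat_lit 4))
    (@En.n l4758 (nat_lit 3261) (nat_lit 1) (nat_lit 14))
    (@En.n l26843 (nat_lit 1207) (nat_lit 2) (nat_lit 9))
    (@En.n l17206 (nat_lit 877) (nat_lit 3) (nat_lit 9))
    (@En.n l17208 (nat_lit 2952) (nat_lit 13) (nat_lit 12))
    (@En.n l26844 (nat_lit 2808) (nat_lit 5) (nat_lit 8))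
    (@En.n l26845 (nat_lit 2951) (nat_lit 13) (nat_lit 3))
    (@En.n l18 (nat_lit 2950) (nat_lit 0) (nat_lit 3))
    (@En.n l3428 (nat_lit 2981) (nat_lit 0) (nat_lit 6))
    (@En.n l61 (nat_lit 2950) (nat_lit 3) (nat_lit 13))
    (@En.n l1643 (nat_lit 8724) (nat_lit 11) (nat_lit 13))
    (@En.n l17209 (nat_lit 2815) (nat_lit 12) (nat_lit 7))
    (@En.n l527 (nat_lit 6427) (nat_lit 13) (nat_lit 7))
    (@En.n l26846 (nat_lit 2758) (nat_lit 14) (nat_lit 8))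
    (@En.i (nat_lit 8507) (nat_lit 7) (nat_lit 10))
    (@En.n l28 (nat_lit 1213) (nat_lit 15) (nat_lit 2))))
  (@Cl.mk (nat_lit 0x2000c00030008000e00040002000e000c0002000d000800040003000e000d) (nat_lit 0x3005008a0210089) (nat_lit 16) Lb.e (@T16.mk En
    (@En.n l601 (nat_lit 687) (nat_lit 10) (nat_lit 13))
    (@En.n l287 (nat_lit 12808) (nat_lit 1) (nat_lit 14))
    (@En.n l11 (nat_lit 1215) (nat_lit 2) (nat_lit 3))
    (@En.i (nat_lit 965) (nat_lit 3) (nat_lit 4))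
    (@En.i (nat_lit 1209) (nat_lit 14) (nat_lit 8))
    (@En.i (nat_lit 450) (nat_lit 12) (nat_lit 13))
    (@En.n l3 (nat_lit 1214) (nat_lit 6) (nat_lit 2))
    (@En.i (nat_lit 1156) (nat_lit 8) (nat_lit 12))
    (@En.i (nat_lit 4003) (nat_lit 1) (nat_lit 14))
    (@En.n l17 (nat_lit 1214) (nat_lit 9) (nat_lit 2))
    (@En.i (nat_lit 1217) (nat_lit 10) (nat_lit 4))
    (@En.i (nat_lit 167) (nat_lit 1) (nat_lit 14))
    (@En.i (nat_lit 5891) (nat_lit 5) (nat_lit 8))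
    (@En.i (nat_lit 687) (nat_lit 6) (nat_lit 3))
    (@En.i (nat_lit 375) (nat_lit 0) (nat_lit 12))
    (@En.n l7 (nat_lit 1214) (nat_lit 15) (nat_lit 2))))
  (@Cl.mk (nat_lit 0x2000c00030007000e00040002000e000d0002000d000300090003000e000d) (nat_lit 0x300400aa0107089) (nat_lit 16) Lb.e (@T16.mk En
    (@En.n l601 (nat_lit 690) (nat_lit 10) (nat_lit 13))
    (@En.i (nat_lit 5896) (nat_lit 1) (nat_lit 14))
    (@En.i (nat_lit 1214) (nat_lit 2) (nat_lit 3))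
    (@En.i (nat_lit 3396) (nat_lit 3) (nat_lit 9))
    (@En.n l117 (nat_lit 1147) (nat_lit 4) (nat_lit 3))
    (@En.i (nat_lit 448) (nat_lit 0) (nat_lit 13))
    (@En.n l3 (nat_lit 1215) (nat_lit 6) (nat_lit 2))
    (@En.i (nat_lit 1147) (nat_lit 8) (nat_lit 13))
    (@En.i (nat_lit 4002) (nat_lit 1) (nat_lit 14))
    (@En.n l17 (nat_lit 1215) (nat_lit 9) (nat_lit 2))
    (@En.i (nat_lit 1216) (nat_lit 10) (nat_lit 4))
    (@En.i (nat_lit 166) (nat_lit 1) (nat_lit 14))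
    (@En.i (nat_lit 4123) (nat_lit 5) (nat_lit 7))
    (@En.i (nat_lit 690) (nat_lit 6) (nat_lit 3))
    (@En.i (nat_lit 374) (nat_lit 0) (nat_lit 12))
    (@En.n l7 (nat_lit 1215) (nat_lit 15) (nat_lit 2))))
noncomputable def a76 : T16 Cl := @T16.mk Cl
  (@Cl.mk (nat_lit 0x2000c000c0004000800040004000e000d0002000d000300080003000e000c) (nat_lit 0x340000ab0200080) (nat_lit 16) Lb.e (@T16.mk En
    (@En.i (nat_lit 1218) (nat_lit 10) (nat_lit 12))
    (@En.i (nat_lit 5975) (nat_lit 1) (nat_lit 14))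
    (@En.i (nat_lit 1217) (nat_lit 2) (nat_lit 3))
    (@En.n l2869 (nat_lit 3440) (nat_lit 3) (nat_lit 8))
    (@En.n l117 (nat_lit 1150) (nat_lit 4) (nat_lit 3))
    (@En.i (nat_lit 455) (nat_lit 0) (nat_lit 13))
    (@En.n l3 (nat_lit 1216) (nat_lit 6) (nat_lit 2))
    (@En.i (nat_lit 1150) (nat_lit 8) (nat_lit 13))
    (@En.i (nat_lit 8845) (nat_lit 1) (nat_lit 14))
    (@En.n l5331 (nat_lit 1220) (nat_lit 12) (nat_lit 4))
    (@En.n l18 (nat_lit 1117) (nat_lit 10) (nat_lit 4))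
    (@En.n l2869 (nat_lit 3570) (nat_lit 4) (nat_lit 8))
    (@En.n l947 (nat_lit 4284) (nat_lit 5) (nat_lit 4))
    (@En.n l61 (nat_lit 1215) (nat_lit 14) (nat_lit 12))
    (@En.i (nat_lit 4288) (nat_lit 8) (nat_lit 12))
    (@En.n l7 (nat_lit 1216) (nat_lit 15) (nat_lit 2))))
  (@Cl.mk (nat_lit 0x2000c000c0004000900040004000e000c0002000d000700040003000e000c) (nat_lit 0x340000ca0100080) (nat_lit 16) Lb.e (@T16.mk En
    (@En.i (nat_lit 1219) (nat_lit 10) (nat_lit 12))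
    (@En.n l287 (nat_lit 8558) (nat_lit 1) (nat_lit 14))
    (@En.n l11 (nat_lit 1216) (nat_lit 2) (nat_lit 3))
    (@En.n l4185 (nat_lit 2898) (nat_lit 3) (nat_lit 4))
    (@En.i (nat_lit 3008) (nat_lit 14) (nat_lit 7))
    (@En.i (nat_lit 446) (nat_lit 6) (nat_lit 13))
    (@En.n l3 (nat_lit 1217) (nat_lit 6) (nat_lit 2))
    (@En.i (nat_lit 1157) (nat_lit 8) (nat_lit 12))
    (@En.i (nat_lit 8844) (nat_lit 1) (nat_lit 14))
    (@En.n l5331 (nat_lit 1221) (nat_lit 12) (nat_lit 4))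
    (@En.n l18 (nat_lit 1118) (nat_lit 10) (nat_lit 4))
    (@En.n l2943 (nat_lit 4671) (nat_lit 4) (nat_lit 9))
    (@En.n l947 (nat_lit 3869) (nat_lit 5) (nat_lit 4))
    (@En.n l61 (nat_lit 1214) (nat_lit 14) (nat_lit 12))
    (@En.i (nat_lit 3865) (nat_lit 8) (nat_lit 12))
    (@En.n l7 (nat_lit 1217) (nat_lit 15) (nat_lit 2))))
  (@Cl.mk (nat_lit 0x2000d000300080003000c000c000b000b00040004000800050005000e000d) (nat_lit 0x2000a02300000a1) (nat_lit 16) Lb.e (@T16.mk En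
    (@En.i (nat_lit 1152) (nat_lit 2) (nat_lit 13))
    (@En.n l9926 (nat_lit 8846) (nat_lit 1) (nat_lit 14))
    (@En.n l3180 (nat_lit 1222) (nat_lit 11) (nat_lit 5))
    (@En.n l18 (nat_lit 305) (nat_lit 3) (nat_lit 5))
    (@En.n l4909 (nat_lit 4069) (nat_lit 4) (nat_lit 8))
    (@En.n l77 (nat_lit 1216) (nat_lit 12) (nat_lit 4))
    (@En.n l5909 (nat_lit 4282) (nat_lit 6) (nat_lit 4))
    (@En.n l5653 (nat_lit 690) (nat_lit 8) (nat_lit 11))
    (@En.n l601 (nat_lit 4286) (nat_lit 9) (nat_lit 11))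
    (@En.i (nat_lit 2993) (nat_lit 4) (nat_lit 12))
    (@En.i (nat_lit 5636) (nat_lit 11) (nat_lit 12))
    (@En.i (nat_lit 1219) (nat_lit 11) (nat_lit 3))
    (@En.n l2869 (nat_lit 3390) (nat_lit 0) (nat_lit 8))
    (@En.n l117 (nat_lit 1152) (nat_lit 14) (nat_lit 3))
    (@En.i (nat_lit 484) (nat_lit 0) (nat_lit 13))
    (@En.n l3 (nat_lit 1218) (nat_lit 15) (nat_lit 2))))
  (@Cl.mk (nat_lit 0x2000d000700040003000c000c000b000b00040004000900050005000e000c) (nat_lit 0x1000a02300000ca) (nat_lit 16) Lb.e (@T16.mk En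
    (@En.i (nat_lit 2724) (nat_lit 3) (nat_lit 12))
    (@En.n l9934 (nat_lit 8267) (nat_lit 1) (nat_lit 14))
    (@En.n l3180 (nat_lit 1223) (nat_lit 11) (nat_lit 5))
    (@En.n l18 (nat_lit 304) (nat_lit 3) (nat_lit 5))
    (@En.n l13976 (nat_lit 7484) (nat_lit 4) (nat_lit 9))
    (@En.n l77 (nat_lit 1217) (nat_lit 12) (nat_lit 4))
    (@En.n l2861 (nat_lit 3871) (nat_lit 6) (nat_lit 4))
    (@En.n l5653 (nat_lit 687) (nat_lit 8) (nat_lit 11))
    (@En.n l601 (nat_lit 3867) (nat_lit 9) (nat_lit 11))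
    (@En.i (nat_lit 2992) (nat_lit 4) (nat_lit 12))
    (@En.n l13977 (nat_lit 5595) (nat_lit 11) (nat_lit 12))
    (@En.n l11 (nat_lit 1218) (nat_lit 11) (nat_lit 3))
    (@En.n l2861 (nat_lit 2997) (nat_lit 0) (nat_lit 4))
    (@En.i (nat_lit 3006) (nat_lit 14) (nat_lit 7))
    (@En.n l8045 (nat_lit 454) (nat_lit 1) (nat_lit 13))
    (@En.n l3 (nat_lit 1219) (nat_lit 15) (nat_lit 2))))
  (@Cl.mk (nat_lit 0x2000500090004000e000d0002000d000300070003000e000b0002000e000c) (nat_lit 0x20a00200000004) (nat_lit 16) Lb.e (@T16.mk En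
    (@En.n l649 (nat_lit 1216) (nat_lit 14) (nat_lit 12))
    (@En.i (nat_lit 1222) (nat_lit 1) (nat_lit 14))
    (@En.n l17 (nat_lit 1220) (nat_lit 2) (nat_lit 2))
    (@En.n l1353 (nat_lit 1222) (nat_lit 3) (nat_lit 11))
    (@En.i (nat_lit 6047) (nat_lit 5) (nat_lit 14))
    (@En.i (nat_lit 1221) (nat_lit 5) (nat_lit 3))
    (@En.i (nat_lit 3397) (nat_lit 6) (nat_lit 7))
    (@En.n l564 (nat_lit 1225) (nat_lit 7) (nat_lit 3))
    (@En.i (nat_lit 607) (nat_lit 9) (nat_lit 13))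
    (@En.n l28 (nat_lit 1220) (nat_lit 9) (nat_lit 2))
    (@En.n l287 (nat_lit 1225) (nat_lit 11) (nat_lit 13))
    (@En.i (nat_lit 1003) (nat_lit 12) (nat_lit 14))
    (@En.n l2221 (nat_lit 1121) (nat_lit 2) (nat_lit 4))
    (@En.i (nat_lit 3578) (nat_lit 14) (nat_lit 9))
    (@En.n l1643 (nat_lit 3890) (nat_lit 4) (nat_lit 5))
    (@En.n l3 (nat_lit 1220) (nat_lit 15) (nat_lit 2))))
  (@Cl.mk (nat_lit 0x20005000a0004000e000c0002000d000600040003000e000b0002000e000c) (nat_lit 0xc00100000004) (nat_lit 16) Lb.e (@T16.mk En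
    (@En.n l649 (nat_lit 1217) (nat_lit 14) (nat_lit 12))
    (@En.i (nat_lit 1223) (nat_lit 1) (nat_lit 14))
    (@En.n l17 (nat_lit 1221) (nat_lit 2) (nat_lit 2))
    (@En.n l1353 (nat_lit 1223) (nat_lit 3) (nat_lit 11))
    (@En.n l2220 (nat_lit 9212) (nat_lit 5) (nat_lit 14))
    (@En.n l50 (nat_lit 1220) (nat_lit 5) (nat_lit 3))
    (@En.n l858 (nat_lit 2896) (nat_lit 6) (nat_lit 4))
    (@En.n l859 (nat_lit 2822) (nat_lit 7) (nat_lit 6))
    (@En.n l11618 (nat_lit 606) (nat_lit 9) (nat_lit 13))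
    (@En.n l28 (nat_lit 1221) (nat_lit 9) (nat_lit 2))
    (@En.n l11619 (nat_lit 2894) (nat_lit 11) (nat_lit 12))
    (@En.i (nat_lit 1244) (nat_lit 12) (nat_lit 14))
    (@En.n l2221 (nat_lit 1122) (nat_lit 2) (nat_lit 4))
    (@En.n l50 (nat_lit 5890) (nat_lit 14) (nat_lit 10))
    (@En.n l1643 (nat_lit 3891) (nat_lit 13) (nat_lit 5))
    (@En.n l3 (nat_lit 1221) (nat_lit 15) (nat_lit 2))))
  (@Cl.mk (nat_lit 0x20005000500090005000e000d0002000d000300070003000b000b000e000b) (nat_lit 0x40a00200090c3) (nat_lit 16) Lb.e (@T16.mk En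
    (@En.n l6108 (nat_lit 1218) (nat_lit 8) (nat_lit 11))
    (@En.i (nat_lit 1226) (nat_lit 4) (nat_lit 14))
    (@En.n l1353 (nat_lit 1226) (nat_lit 5) (nat_lit 11))
    (@En.i (nat_lit 6002) (nat_lit 3) (nat_lit 11))
    (@En.i (nat_lit 1223) (nat_lit 4) (nat_lit 3))
    (@En.i (nat_lit 3382) (nat_lit 5) (nat_lit 7))
    (@En.n l564 (nat_lit 1224) (nat_lit 6) (nat_lit 3))
    (@En.i (nat_lit 605) (nat_lit 8) (nat_lit 13))
    (@En.n l28 (nat_lit 1222) (nat_lit 8) (nat_lit 2))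
    (@En.n l287 (nat_lit 1224) (nat_lit 10) (nat_lit 13))
    (@En.i (nat_lit 1243) (nat_lit 11) (nat_lit 14))
    (@En.i (nat_lit 1070) (nat_lit 2) (nat_lit 5))
    (@En.i (nat_lit 5992) (nat_lit 13) (nat_lit 9))
    (@En.n l725 (nat_lit 1220) (nat_lit 14) (nat_lit 5))
    (@En.n l3340 (nat_lit 3892) (nat_lit 13) (nat_lit 5))
    (@En.n l3 (nat_lit 1222) (nat_lit 15) (nat_lit 2))))
  (@Cl.mk (nat_lit 0x200050005000a0005000e000c0002000d000600040003000b000b000e000b) (nat_lit 0x30c00100090c3) (nat_lit 16) Lb.e (@T16.mk En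
    (@En.n l6108 (nat_lit 1219) (nat_lit 8) (nat_lit 11))
    (@En.i (nat_lit 1227) (nat_lit 4) (nat_lit 14))
    (@En.n l1353 (nat_lit 1227) (nat_lit 5) (nat_lit 11))
    (@En.n l2215 (nat_lit 5586) (nat_lit 3) (nat_lit 11))
    (@En.n l50 (nat_lit 1222) (nat_lit 4) (nat_lit 3))
    (@En.n l13546 (nat_lit 2895) (nat_lit 5) (nat_lit 4))
    (@En.n l859 (nat_lit 2820) (nat_lit 6) (nat_lit 6))
    (@En.n l13547 (nat_lit 600) (nat_lit 8) (nat_lit 13))
    (@En.n l28 (nat_lit 1223) (nat_lit 8) (nat_lit 2))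
    (@En.n l13548 (nat_lit 2766) (nat_lit 10) (nat_lit 12))
    (@En.i (nat_lit 1245) (nat_lit 11) (nat_lit 14))
    (@En.i (nat_lit 299) (nat_lit 2) (nat_lit 5))
    (@En.n l50 (nat_lit 7478) (nat_lit 13) (nat_lit 10))
    (@En.n l725 (nat_lit 1221) (nat_lit 14) (nat_lit 5))
    (@En.n l13546 (nat_lit 3893) (nat_lit 13) (nat_lit 5))
    (@En.n l3 (nat_lit 1223) (nat_lit 15) (nat_lit 2))))
  (@Cl.mk (nat_lit 0x20005000500090005000d000d000c0003000300070004000b000b000e000b) (nat_lit 0x40b0100000003) (nat_lit 16) Lb.e (@T16.mk En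
    (@En.n l11553 (nat_lit 1152) (nat_lit 9) (nat_lit 11))
    (@En.n l11554 (nat_lit 2762) (nat_lit 4) (nat_lit 14))
    (@En.n l11555 (nat_lit 2762) (nat_lit 5) (nat_lit 11))
    (@En.i (nat_lit 6003) (nat_lit 3) (nat_lit 11))
    (@En.n l4267 (nat_lit 2766) (nat_lit 4) (nat_lit 4))
    (@En.i (nat_lit 2792) (nat_lit 5) (nat_lit 7))
    (@En.n l1722 (nat_lit 1222) (nat_lit 6) (nat_lit 3))
    (@En.i (nat_lit 2763) (nat_lit 7) (nat_lit 3))
    (@En.n l2593 (nat_lit 1223) (nat_lit 9) (nat_lit 12))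
    (@En.n l164 (nat_lit 2763) (nat_lit 10) (nat_lit 13))
    (@En.i (nat_lit 1360) (nat_lit 11) (nat_lit 13))
    (@En.n l2832 (nat_lit 1067) (nat_lit 3) (nat_lit 5))
    (@En.n l387 (nat_lit 5993) (nat_lit 13) (nat_lit 9))
    (@En.n l17 (nat_lit 1225) (nat_lit 14) (nat_lit 5))
    (@En.n l1329 (nat_lit 3066) (nat_lit 13) (nat_lit 5))
    (@En.n l3 (nat_lit 1224) (nat_lit 15) (nat_lit 2))))
  (@Cl.mk (nat_lit 0x2000500090004000d000d000c0003000300070004000e000b0002000e000c) (nat_lit 0x30b01000001014) (nat_lit 16) Lb.e (@T16.mk En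
    (@En.n l4130 (nat_lit 1150) (nat_lit 14) (nat_lit 12))
    (@En.i (nat_lit 1224) (nat_lit 1) (nat_lit 14))
    (@En.n l18 (nat_lit 1225) (nat_lit 2) (nat_lit 2))
    (@En.n l5 (nat_lit 1224) (nat_lit 3) (nat_lit 11))
    (@En.i (nat_lit 6048) (nat_lit 5) (nat_lit 14))
    (@En.n l12 (nat_lit 2894) (nat_lit 5) (nat_lit 4))
    (@En.i (nat_lit 3362) (nat_lit 6) (nat_lit 7))
    (@En.n l1722 (nat_lit 1220) (nat_lit 7) (nat_lit 3))
    (@En.i (nat_lit 3063) (nat_lit 8) (nat_lit 3))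
    (@En.n l2593 (nat_lit 1221) (nat_lit 10) (nat_lit 12))
    (@En.n l164 (nat_lit 3063) (nat_lit 11) (nat_lit 13))
    (@En.i (nat_lit 1364) (nat_lit 12) (nat_lit 13))
    (@En.n l2832 (nat_lit 1073) (nat_lit 9) (nat_lit 4))
    (@En.n l387 (nat_lit 3571) (nat_lit 14) (nat_lit 9))
    (@En.n l513 (nat_lit 3072) (nat_lit 13) (nat_lit 5))
    (@En.n l3 (nat_lit 1225) (nat_lit 15) (nat_lit 2))))
  (@Cl.mk (nat_lit 0x200090006000e000d0002000d000300070003000b000e000a0002000e0005) (nat_lit 0x40a0010009b2000) (nat_lit 16) Lb.e (@T16.mk En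
    (@En.n l17 (nat_lit 1222) (nat_lit 14) (nat_lit 5))
    (@En.n l1003 (nat_lit 3889) (nat_lit 1) (nat_lit 14))
    (@En.n l3 (nat_lit 1226) (nat_lit 2) (nat_lit 2))
    (@En.n l6551 (nat_lit 2993) (nat_lit 3) (nat_lit 10))
    (@En.n l2520 (nat_lit 13290) (nat_lit 4) (nat_lit 14))
    (@En.i (nat_lit 5455) (nat_lit 11) (nat_lit 11))
    (@En.i (nat_lit 1227) (nat_lit 6) (nat_lit 3))
    (@En.i (nat_lit 3391) (nat_lit 7) (nat_lit 7))
    (@En.n l10309 (nat_lit 2762) (nat_lit 8) (nat_lit 3))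
    (@En.i (nat_lit 602) (nat_lit 0) (nat_lit 13))
    (@En.n l28 (nat_lit 1226) (nat_lit 10) (nat_lit 2))
    (@En.n l2520 (nat_lit 2762) (nat_lit 12) (nat_lit 13))
    (@En.i (nat_lit 1356) (nat_lit 1) (nat_lit 14))
    (@En.n l2520 (nat_lit 1069) (nat_lit 14) (nat_lit 6))
    (@En.i (nat_lit 5991) (nat_lit 12) (nat_lit 9))
    (@En.n l725 (nat_lit 1226) (nat_lit 15) (nat_lit 2))))
  (@Cl.mk (nat_lit 0x2000a0006000e000c0002000d000600040003000b000e000a0002000e0005) (nat_lit 0x40c0020009b2000) (nat_lit 16) Lb.e (@T16.mk En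
    (@En.n l17 (nat_lit 1223) (nat_lit 14) (nat_lit 5))
    (@En.n l1003 (nat_lit 3888) (nat_lit 1) (nat_lit 14))
    (@En.n l3 (nat_lit 1227) (nat_lit 2) (nat_lit 2))
    (@En.n l6551 (nat_lit 2992) (nat_lit 3) (nat_lit 10))
    (@En.n l2520 (nat_lit 13291) (nat_lit 4) (nat_lit 14))
    (@En.n l6552 (nat_lit 5584) (nat_lit 11) (nat_lit 11))
    (@En.n l50 (nat_lit 1226) (nat_lit 6) (nat_lit 3))
    (@En.n l6553 (nat_lit 2998) (nat_lit 0) (nat_lit 4))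
    (@En.n l859 (nat_lit 2819) (nat_lit 14) (nat_lit 6))
    (@En.n l6554 (nat_lit 603) (nat_lit 10) (nat_lit 13))
    (@En.n l28 (nat_lit 1227) (nat_lit 10) (nat_lit 2))
    (@En.n l6555 (nat_lit 2764) (nat_lit 12) (nat_lit 12))
    (@En.n l6556 (nat_lit 1246) (nat_lit 1) (nat_lit 14))
    (@En.n l2520 (nat_lit 298) (nat_lit 14) (nat_lit 6))
    (@En.n l50 (nat_lit 7479) (nat_lit 12) (nat_lit 10))
    (@En.n l725 (nat_lit 1227) (nat_lit 15) (nat_lit 2))))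
  (@Cl.mk (nat_lit 0x200080008000d000500080003000c000c00080008000400040008000e000b) (nat_lit 0x64060015600081) (nat_lit 16) Lb.e (@T16.mk En
    (@En.n l19318 (nat_lit 625) (nat_lit 12) (nat_lit 11))
    (@En.n l601 (nat_lit 1327) (nat_lit 1) (nat_lit 14))
    (@En.n l2747 (nat_lit 7780) (nat_lit 2) (nat_lit 8))
    (@En.n l5760 (nat_lit 1242) (nat_lit 3) (nat_lit 4))
    (@En.n l152 (nat_lit 372) (nat_lit 4) (nat_lit 4))
    (@En.n l1101 (nat_lit 1232) (nat_lit 8) (nat_lit 8))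
    (@En.i (nat_lit 1303) (nat_lit 6) (nat_lit 8))
    (@En.n l6248 (nat_lit 621) (nat_lit 4) (nat_lit 12))
    (@En.n l8551 (nat_lit 5459) (nat_lit 9) (nat_lit 12))
    (@En.n l2364 (nat_lit 1097) (nat_lit 9) (nat_lit 3))
    (@En.i (nat_lit 13237) (nat_lit 10) (nat_lit 8))
    (@En.n l2753 (nat_lit 3483) (nat_lit 12) (nat_lit 5))
    (@En.i (nat_lit 360) (nat_lit 13) (nat_lit 13))
    (@En.n l2040 (nat_lit 1243) (nat_lit 8) (nat_lit 8))
    (@En.i (nat_lit 9274) (nat_lit 4) (nat_lit 8))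
    (@En.n l50 (nat_lit 1228) (nat_lit 15) (nat_lit 2))))
  (@Cl.mk (nat_lit 0x2000c0006000600090004000d000d0009000300030007000a000a000e0007) (nat_lit 0x300406870000270) (nat_lit 16) Lb.e (@T16.mk En
    (@En.i (nat_lit 625) (nat_lit 10) (nat_lit 7))
    (@En.i (nat_lit 2777) (nat_lit 1) (nat_lit 14))
    (@En.n l1904 (nat_lit 1236) (nat_lit 6) (nat_lit 10))
    (@En.n l5321 (nat_lit 1240) (nat_lit 8) (nat_lit 10))
    (@En.n l10703 (nat_lit 5685) (nat_lit 4) (nat_lit 7))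
    (@En.n l50 (nat_lit 1235) (nat_lit 13) (nat_lit 3))
    (@En.n l10262 (nat_lit 1234) (nat_lit 0) (nat_lit 3))
    (@En.i (nat_lit 1288) (nat_lit 0) (nat_lit 9))
    (@En.n l12221 (nat_lit 1234) (nat_lit 3) (nat_lit 13))
    (@En.n l1897 (nat_lit 7823) (nat_lit 10) (nat_lit 13))
    (@En.n l1898 (nat_lit 1238) (nat_lit 10) (nat_lit 4))
    (@En.n l1899 (nat_lit 1232) (nat_lit 12) (nat_lit 9))
    (@En.n l1900 (nat_lit 1232) (nat_lit 13) (nat_lit 6))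
    (@En.n l6168 (nat_lit 3489) (nat_lit 14) (nat_lit 6))
    (@En.i (nat_lit 338) (nat_lit 8) (nat_lit 12))
    (@En.n l17 (nat_lit 1229) (nat_lit 15) (nat_lit 2))))
  (@Cl.mk (nat_lit 0x20007000e000a0002000e00090002000d000600090003000d0007000e0003) (nat_lit 0x70061050306000) (nat_lit 16) Lb.e (@T16.mk En
    (@En.n l5955 (nat_lit 1232) (nat_lit 7) (nat_lit 3))
    (@En.i (nat_lit 14043) (nat_lit 0) (nat_lit 14))
    (@En.i (nat_lit 1726) (nat_lit 2) (nat_lit 7))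
    (@En.n l8803 (nat_lit 7830) (nat_lit 11) (nat_lit 13))
    (@En.i (nat_lit 1817) (nat_lit 4) (nat_lit 3))
    (@En.n l18578 (nat_lit 13230) (nat_lit 9) (nat_lit 9))
    (@En.n l8100 (nat_lit 3496) (nat_lit 14) (nat_lit 6))
    (@En.n l8801 (nat_lit 359) (nat_lit 8) (nat_lit 13))
    (@En.n l11 (nat_lit 1230) (nat_lit 8) (nat_lit 2))
    (@En.n l7475 (nat_lit 621) (nat_lit 10) (nat_lit 9))
    (@En.n l8803 (nat_lit 1820) (nat_lit 1) (nat_lit 14))
    (@En.n l3 (nat_lit 1230) (nat_lit 11) (nat_lit 2))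
    (@En.n l6068 (nat_lit 1234) (nat_lit 13) (nat_lit 10))
    (@En.n l12070 (nat_lit 1831) (nat_lit 1) (nat_lit 14))
    (@En.n l2568 (nat_lit 5681) (nat_lit 5) (nat_lit 7))
    (@En.n l17 (nat_lit 1230) (nat_lit 15) (nat_lit 2))))
  (@Cl.mk (nat_lit 0x2000900030007000e000a0002000e00070002000d000600090003000e000d) (nat_lit 0x700700300006) (nat_lit 16) Lb.e (@T16.mk En
    (@En.n l601 (nat_lit 1232) (nat_lit 10) (nat_lit 13))
    (@En.i (nat_lit 5767) (nat_lit 1) (nat_lit 14))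
    (@En.i (nat_lit 1816) (nat_lit 2) (nat_lit 3))
    (@En.n l3324 (nat_lit 13234) (nat_lit 9) (nat_lit 9))
    (@En.n l117 (nat_lit 3487) (nat_lit 14) (nat_lit 6))
    (@En.n l1722 (nat_lit 1595) (nat_lit 6) (nat_lit 13))
    (@En.n l17 (nat_lit 1231) (nat_lit 6) (nat_lit 2))
    (@En.i (nat_lit 1242) (nat_lit 14) (nat_lit 7))
    (@En.n l1531 (nat_lit 2773) (nat_lit 1) (nat_lit 14))
    (@En.n l3 (nat_lit 1231) (nat_lit 9) (nat_lit 2))
    (@En.n l1532 (nat_lit 1235) (nat_lit 11) (nat_lit 10))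
    (@En.n l3640 (nat_lit 1388) (nat_lit 12) (nat_lit 14))
    (@En.i (nat_lit 5927) (nat_lit 13) (nat_lit 7))
    (@En.i (nat_lit 1232) (nat_lit 6) (nat_lit 3))
    (@En.i (nat_lit 1504) (nat_lit 0) (nat_lit 9))
    (@En.n l7 (nat_lit 1231) (nat_lit 15) (nat_lit 2))))
noncomputable def a77 : T16 Cl := @T16.mk Cl
  (@Cl.mk (nat_lit 0x2000d000600090003000d000d0008000300030007000e000a0002000e0008) (nat_lit 0x503057500051081) (nat_lit 16) Lb.e (@T16.mk En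
    (@En.n l3348 (nat_lit 1228) (nat_lit 14) (nat_lit 8))
    (@En.n l1531 (nat_lit 1823) (nat_lit 1) (nat_lit 14))
    (@En.n l3 (nat_lit 1232) (nat_lit 2) (nat_lit 2))
    (@En.n l1532 (nat_lit 1229) (nat_lit 3) (nat_lit 10))
    (@En.n l3640 (nat_lit 1237) (nat_lit 1) (nat_lit 14))
    (@En.n l3324 (nat_lit 5683) (nat_lit 5) (nat_lit 7))
    (@En.n l50 (nat_lit 1231) (nat_lit 13) (nat_lit 3))
    (@En.n l1029 (nat_lit 1230) (nat_lit 0) (nat_lit 3))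
    (@En.i (nat_lit 1718) (nat_lit 0) (nat_lit 8))
    (@En.n l8090 (nat_lit 1230) (nat_lit 3) (nat_lit 13))
    (@En.n l2790 (nat_lit 7832) (nat_lit 11) (nat_lit 13))
    (@En.n l2073 (nat_lit 1233) (nat_lit 11) (nat_lit 3))
    (@En.n l8091 (nat_lit 13229) (nat_lit 9) (nat_lit 9))
    (@En.n l8092 (nat_lit 3490) (nat_lit 14) (nat_lit 6))
    (@En.n l3348 (nat_lit 343) (nat_lit 12) (nat_lit 13))
    (@En.n l17 (nat_lit 1232) (nat_lit 15) (nat_lit 2))))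
  (@Cl.mk (nat_lit 0x2000d000800070003000d000d0008000300030008000e00090002000e0008) (nat_lit 0x540057600090081) (nat_lit 16) Lb.e (@T16.mk En
    (@En.n l8093 (nat_lit 1097) (nat_lit 14) (nat_lit 8))
    (@En.n l8094 (nat_lit 1818) (nat_lit 1) (nat_lit 14))
    (@En.n l3 (nat_lit 1233) (nat_lit 2) (nat_lit 2))
    (@En.n l8095 (nat_lit 1238) (nat_lit 3) (nat_lit 9))
    (@En.n l8096 (nat_lit 1386) (nat_lit 1) (nat_lit 14))
    (@En.n l8097 (nat_lit 12820) (nat_lit 5) (nat_lit 8))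
    (@En.n l8098 (nat_lit 1816) (nat_lit 13) (nat_lit 3))
    (@En.n l18 (nat_lit 1817) (nat_lit 0) (nat_lit 3))
    (@En.n l8099 (nat_lit 1719) (nat_lit 0) (nat_lit 8))
    (@En.n l61 (nat_lit 1817) (nat_lit 3) (nat_lit 13))
    (@En.n l8100 (nat_lit 6564) (nat_lit 11) (nat_lit 13))
    (@En.n l8101 (nat_lit 1232) (nat_lit 11) (nat_lit 3))
    (@En.n l8102 (nat_lit 1835) (nat_lit 0) (nat_lit 7))
    (@En.n l8100 (nat_lit 2010) (nat_lit 14) (nat_lit 8))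
    (@En.n l8093 (nat_lit 353) (nat_lit 12) (nat_lit 13))
    (@En.n l11 (nat_lit 1233) (nat_lit 15) (nat_lit 2))))
  (@Cl.mk (nat_lit 0x20007000a000a000e00080002000c0006000600090004000d0008000e0003) (nat_lit 0x82510300407100) (nat_lit 16) Lb.e (@T16.mk En
    (@En.n l8104 (nat_lit 1229) (nat_lit 6) (nat_lit 3))
    (@En.n l20599 (nat_lit 14041) (nat_lit 0) (nat_lit 14))
    (@En.n l12741 (nat_lit 419) (nat_lit 2) (nat_lit 8))
    (@En.n l1363 (nat_lit 7828) (nat_lit 10) (nat_lit 13))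
    (@En.i (nat_lit 1241) (nat_lit 4) (nat_lit 4))
    (@En.n l25441 (nat_lit 1230) (nat_lit 5) (nat_lit 9))
    (@En.n l15013 (nat_lit 1230) (nat_lit 6) (nat_lit 6))
    (@En.i (nat_lit 3497) (nat_lit 14) (nat_lit 6))
    (@En.n l15217 (nat_lit 340) (nat_lit 9) (nat_lit 12))
    (@En.n l3 (nat_lit 1234) (nat_lit 9) (nat_lit 2))
    (@En.n l25442 (nat_lit 617) (nat_lit 11) (nat_lit 8))
    (@En.n l12741 (nat_lit 2782) (nat_lit 12) (nat_lit 14))
    (@En.n l25443 (nat_lit 1889) (nat_lit 13) (nat_lit 10))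
    (@En.n l25444 (nat_lit 1888) (nat_lit 8) (nat_lit 10))
    (@En.n l9021 (nat_lit 5686) (nat_lit 4) (nat_lit 7))
    (@En.n l28 (nat_lit 1234) (nat_lit 15) (nat_lit 2))))
  (@Cl.mk (nat_lit 0x2000a00030007000a000a000e00060002000c0006000600090004000e000d) (nat_lit 0x100827003001007) (nat_lit 16) Lb.e (@T16.mk En
    (@En.n l601 (nat_lit 1229) (nat_lit 9) (nat_lit 13))
    (@En.n l1897 (nat_lit 5771) (nat_lit 1) (nat_lit 14))
    (@En.n l1898 (nat_lit 1239) (nat_lit 2) (nat_lit 4))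
    (@En.n l1899 (nat_lit 1231) (nat_lit 3) (nat_lit 9))
    (@En.n l1900 (nat_lit 1231) (nat_lit 4) (nat_lit 6))
    (@En.n l5320 (nat_lit 3488) (nat_lit 14) (nat_lit 6))
    (@En.i (nat_lit 342) (nat_lit 7) (nat_lit 12))
    (@En.n l17 (nat_lit 1235) (nat_lit 7) (nat_lit 2))
    (@En.i (nat_lit 994) (nat_lit 8) (nat_lit 6))
    (@En.i (nat_lit 2775) (nat_lit 10) (nat_lit 14))
    (@En.n l1904 (nat_lit 1285) (nat_lit 6) (nat_lit 10))
    (@En.n l5321 (nat_lit 1284) (nat_lit 8) (nat_lit 10))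
    (@En.i (nat_lit 5924) (nat_lit 4) (nat_lit 7))
    (@En.i (nat_lit 1229) (nat_lit 5) (nat_lit 3))
    (@En.i (nat_lit 422) (nat_lit 0) (nat_lit 10))
    (@En.n l7 (nat_lit 1235) (nat_lit 15) (nat_lit 2))))
  (@Cl.mk (nat_lit 0x200090005000d000d000a000300030007000a000e00060002000b000e0006) (nat_lit 0x507920001600300) (nat_lit 16) Lb.e (@T16.mk En
    (@En.n l4871 (nat_lit 1229) (nat_lit 13) (nat_lit 6))
    (@En.i (nat_lit 3377) (nat_lit 4) (nat_lit 14))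
    (@En.n l3348 (nat_lit 336) (nat_lit 2) (nat_lit 11))
    (@En.n l17 (nat_lit 1236) (nat_lit 3) (nat_lit 2))
    (@En.n l3348 (nat_lit 991) (nat_lit 4) (nat_lit 6))
    (@En.n l1638 (nat_lit 1146) (nat_lit 6) (nat_lit 14))
    (@En.i (nat_lit 451) (nat_lit 8) (nat_lit 10))
    (@En.n l998 (nat_lit 5687) (nat_lit 7) (nat_lit 7))
    (@En.n l50 (nat_lit 1285) (nat_lit 8) (nat_lit 3))
    (@En.i (nat_lit 1889) (nat_lit 0) (nat_lit 3))
    (@En.i (nat_lit 1286) (nat_lit 11) (nat_lit 10))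
    (@En.n l601 (nat_lit 1889) (nat_lit 3) (nat_lit 13))
    (@En.n l2036 (nat_lit 7824) (nat_lit 9) (nat_lit 13))
    (@En.n l4870 (nat_lit 1240) (nat_lit 14) (nat_lit 5))
    (@En.n l1758 (nat_lit 1229) (nat_lit 11) (nat_lit 9))
    (@En.n l3 (nat_lit 1236) (nat_lit 15) (nat_lit 2))))
  (@Cl.mk (nat_lit 0x2000a000e00080002000d000700060003000d000d000800030003000e0009) (nat_lit 0x390030006900040) (nat_lit 16) Lb.e (@T16.mk En
    (@En.n l1771 (nat_lit 1238) (nat_lit 4) (nat_lit 9))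
    (@En.n l4629 (nat_lit 12096) (nat_lit 1) (nat_lit 14))
    (@En.n l50 (nat_lit 1388) (nat_lit 13) (nat_lit 3))
    (@En.n l4630 (nat_lit 1831) (nat_lit 3) (nat_lit 3))
    (@En.n l4629 (nat_lit 1390) (nat_lit 4) (nat_lit 8))
    (@En.n l4631 (nat_lit 1831) (nat_lit 6) (nat_lit 13))
    (@En.n l4632 (nat_lit 7143) (nat_lit 11) (nat_lit 13))
    (@En.n l4633 (nat_lit 1386) (nat_lit 7) (nat_lit 3))
    (@En.n l1765 (nat_lit 1837) (nat_lit 8) (nat_lit 6))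
    (@En.n l4632 (nat_lit 3493) (nat_lit 14) (nat_lit 7))
    (@En.n l1768 (nat_lit 1107) (nat_lit 11) (nat_lit 13))
    (@En.n l17 (nat_lit 1237) (nat_lit 11) (nat_lit 2))
    (@En.n l1768 (nat_lit 1327) (nat_lit 13) (nat_lit 8))
    (@En.n l4634 (nat_lit 1835) (nat_lit 1) (nat_lit 14))
    (@En.i (nat_lit 1229) (nat_lit 2) (nat_lit 10))
    (@En.n l1770 (nat_lit 1237) (nat_lit 15) (nat_lit 2))))
  (@Cl.mk (nat_lit 0x2000c0007000700070004000d000d000900030003000900090009000e0007) (nat_lit 0x500006800077240) (nat_lit 16) Lb.e (@T16.mk En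
    (@En.n l12209 (nat_lit 1256) (nat_lit 10) (nat_lit 7))
    (@En.n l1910 (nat_lit 1842) (nat_lit 1) (nat_lit 14))
    (@En.n l180 (nat_lit 1240) (nat_lit 7) (nat_lit 9))
    (@En.n l527 (nat_lit 1260) (nat_lit 7) (nat_lit 9))
    (@En.n l4402 (nat_lit 11512) (nat_lit 4) (nat_lit 9))
    (@En.n l50 (nat_lit 1239) (nat_lit 13) (nat_lit 3))
    (@En.n l12210 (nat_lit 1241) (nat_lit 0) (nat_lit 3))
    (@En.i (nat_lit 1396) (nat_lit 0) (nat_lit 9))
    (@En.n l12211 (nat_lit 1241) (nat_lit 3) (nat_lit 13))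
    (@En.n l12212 (nat_lit 5909) (nat_lit 10) (nat_lit 13))
    (@En.n l159 (nat_lit 1263) (nat_lit 10) (nat_lit 4))
    (@En.n l12213 (nat_lit 1233) (nat_lit 12) (nat_lit 7))
    (@En.n l525 (nat_lit 1237) (nat_lit 9) (nat_lit 7))
    (@En.n l12212 (nat_lit 2007) (nat_lit 14) (nat_lit 7))
    (@En.n l12214 (nat_lit 337) (nat_lit 8) (nat_lit 12))
    (@En.n l17 (nat_lit 1238) (nat_lit 15) (nat_lit 2))))
  (@Cl.mk (nat_lit 0x2000a0003000900090009000e00060002000c0007000700070004000e000d) (nat_lit 0x200026005000077) (nat_lit 16) Lb.e (@T16.mk En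
    (@En.n l601 (nat_lit 1238) (nat_lit 9) (nat_lit 13))
    (@En.n l1643 (nat_lit 5259) (nat_lit 1) (nat_lit 14))
    (@En.n l159 (nat_lit 1265) (nat_lit 2) (nat_lit 4))
    (@En.n l5322 (nat_lit 1816) (nat_lit 3) (nat_lit 7))
    (@En.n l525 (nat_lit 1388) (nat_lit 4) (nat_lit 7))
    (@En.n l1910 (nat_lit 2009) (nat_lit 14) (nat_lit 7))
    (@En.n l5323 (nat_lit 345) (nat_lit 7) (nat_lit 12))
    (@En.n l17 (nat_lit 1239) (nat_lit 7) (nat_lit 2))
    (@En.i (nat_lit 1270) (nat_lit 8) (nat_lit 6))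
    (@En.n l1910 (nat_lit 2556) (nat_lit 10) (nat_lit 14))
    (@En.n l180 (nat_lit 1284) (nat_lit 7) (nat_lit 9))
    (@En.n l527 (nat_lit 1261) (nat_lit 7) (nat_lit 9))
    (@En.n l1910 (nat_lit 9122) (nat_lit 4) (nat_lit 9))
    (@En.i (nat_lit 1238) (nat_lit 5) (nat_lit 3))
    (@En.i (nat_lit 956) (nat_lit 0) (nat_lit 10))
    (@En.n l7 (nat_lit 1239) (nat_lit 15) (nat_lit 2))))
  (@Cl.mk (nat_lit 0x20005000d000d000a00030003000a0009000e00060002000b0006000e0007) (nat_lit 0x79800813003010) (nat_lit 16) Lb.e (@T16.mk En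
    (@En.n l107 (nat_lit 1238) (nat_lit 12) (nat_lit 7))
    (@En.n l1572 (nat_lit 1236) (nat_lit 1) (nat_lit 14))
    (@En.n l13828 (nat_lit 2005) (nat_lit 14) (nat_lit 6))
    (@En.n l3444 (nat_lit 334) (nat_lit 3) (nat_lit 11))
    (@En.n l17 (nat_lit 1240) (nat_lit 4) (nat_lit 2))
    (@En.n l3444 (nat_lit 990) (nat_lit 5) (nat_lit 6))
    (@En.n l2055 (nat_lit 1154) (nat_lit 7) (nat_lit 14))
    (@En.i (nat_lit 447) (nat_lit 2) (nat_lit 9))
    (@En.n l13829 (nat_lit 11511) (nat_lit 9) (nat_lit 10))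
    (@En.n l50 (nat_lit 1284) (nat_lit 9) (nat_lit 3))
    (@En.n l10841 (nat_lit 1888) (nat_lit 10) (nat_lit 3))
    (@En.i (nat_lit 1287) (nat_lit 12) (nat_lit 10))
    (@En.n l13830 (nat_lit 1888) (nat_lit 13) (nat_lit 13))
    (@En.n l1016 (nat_lit 6382) (nat_lit 9) (nat_lit 13))
    (@En.n l159 (nat_lit 1260) (nat_lit 13) (nat_lit 5))
    (@En.n l11 (nat_lit 1240) (nat_lit 15) (nat_lit 2))))
  (@Cl.mk (nat_lit 0x2000900090009000e00080002000c0007000700070004000d0008000e0003) (nat_lit 0x2410300007600) (nat_lit 16) Lb.e (@T16.mk En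
    (@En.n l13751 (nat_lit 1238) (nat_lit 6) (nat_lit 3))
    (@En.n l20599 (nat_lit 13713) (nat_lit 0) (nat_lit 14))
    (@En.i (nat_lit 1416) (nat_lit 2) (nat_lit 8))
    (@En.i (nat_lit 5910) (nat_lit 10) (nat_lit 13))
    (@En.n l2570 (nat_lit 1353) (nat_lit 4) (nat_lit 4))
    (@En.n l15013 (nat_lit 1817) (nat_lit 5) (nat_lit 7))
    (@En.n l644 (nat_lit 1831) (nat_lit 9) (nat_lit 7))
    (@En.i (nat_lit 2004) (nat_lit 14) (nat_lit 7))
    (@En.n l20600 (nat_lit 344) (nat_lit 9) (nat_lit 12))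
    (@En.n l3 (nat_lit 1241) (nat_lit 9) (nat_lit 2))
    (@En.n l20601 (nat_lit 618) (nat_lit 11) (nat_lit 8))
    (@En.n l20602 (nat_lit 2698) (nat_lit 12) (nat_lit 14))
    (@En.n l20603 (nat_lit 1888) (nat_lit 7) (nat_lit 9))
    (@En.n l15018 (nat_lit 1887) (nat_lit 7) (nat_lit 9))
    (@En.n l20599 (nat_lit 11510) (nat_lit 4) (nat_lit 9))
    (@En.n l28 (nat_lit 1241) (nat_lit 15) (nat_lit 2))))
  (@Cl.mk (nat_lit 0x200070007000d000500080003000e000c00020009000900040008000e000b) (nat_lit 0x6050010610082) (nat_lit 16) Lb.e (@T16.mk En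
    (@En.n l1532 (nat_lit 994) (nat_lit 10) (nat_lit 11))
    (@En.n l9925 (nat_lit 1328) (nat_lit 11) (nat_lit 14))
    (@En.n l2869 (nat_lit 5930) (nat_lit 2) (nat_lit 8))
    (@En.n l3348 (nat_lit 366) (nat_lit 3) (nat_lit 4))
    (@En.n l61 (nat_lit 1231) (nat_lit 14) (nat_lit 9))
    (@En.i (nat_lit 1101) (nat_lit 5) (nat_lit 9))
    (@En.n l7 (nat_lit 1242) (nat_lit 6) (nat_lit 2))
    (@En.n l9926 (nat_lit 1228) (nat_lit 8) (nat_lit 12))
    (@En.i (nat_lit 5385) (nat_lit 1) (nat_lit 14))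
    (@En.i (nat_lit 1100) (nat_lit 9) (nat_lit 3))
    (@En.n l2869 (nat_lit 13254) (nat_lit 10) (nat_lit 8))
    (@En.n l117 (nat_lit 3485) (nat_lit 4) (nat_lit 5))
    (@En.n l3348 (nat_lit 1018) (nat_lit 13) (nat_lit 13))
    (@En.n l5331 (nat_lit 1003) (nat_lit 9) (nat_lit 7))
    (@En.n l6081 (nat_lit 9561) (nat_lit 7) (nat_lit 7))
    (@En.n l3 (nat_lit 1242) (nat_lit 15) (nat_lit 2))))
  (@Cl.mk (nat_lit 0x2000500050009000e000c00020008000d000400070003000b000b000e0008) (nat_lit 0x39205300090c6) (nat_lit 16) Lb.e (@T16.mk En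
    (@En.n l3333 (nat_lit 1228) (nat_lit 6) (nat_lit 8))
    (@En.i (nat_lit 1356) (nat_lit 8) (nat_lit 14))
    (@En.n l1353 (nat_lit 1356) (nat_lit 9) (nat_lit 11))
    (@En.i (nat_lit 5457) (nat_lit 3) (nat_lit 11))
    (@En.i (nat_lit 1245) (nat_lit 4) (nat_lit 3))
    (@En.i (nat_lit 13252) (nat_lit 11) (nat_lit 7))
    (@En.n l564 (nat_lit 1360) (nat_lit 6) (nat_lit 4))
    (@En.n l2544 (nat_lit 153) (nat_lit 8) (nat_lit 13))
    (@En.i (nat_lit 5969) (nat_lit 1) (nat_lit 8))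
    (@En.n l28 (nat_lit 1243) (nat_lit 9) (nat_lit 2))
    (@En.i (nat_lit 996) (nat_lit 11) (nat_lit 12))
    (@En.n l5919 (nat_lit 1330) (nat_lit 12) (nat_lit 14))
    (@En.i (nat_lit 7782) (nat_lit 13) (nat_lit 9))
    (@En.n l725 (nat_lit 1003) (nat_lit 14) (nat_lit 5))
    (@En.n l3340 (nat_lit 1018) (nat_lit 4) (nat_lit 5))
    (@En.n l3 (nat_lit 1243) (nat_lit 15) (nat_lit 2))))
  (@Cl.mk (nat_lit 0x20005000a000e000b00020007000d000600050003000e000b0002000e0009) (nat_lit 0xb0005000b0007) (nat_lit 16) Lb.e (@T16.mk En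
    (@En.n l649 (nat_lit 1100) (nat_lit 5) (nat_lit 9))
    (@En.i (nat_lit 1245) (nat_lit 1) (nat_lit 14))
    (@En.n l17 (nat_lit 1244) (nat_lit 2) (nat_lit 2))
    (@En.n l1353 (nat_lit 1245) (nat_lit 3) (nat_lit 11))
    (@En.n l2220 (nat_lit 5372) (nat_lit 5) (nat_lit 14))
    (@En.n l50 (nat_lit 1003) (nat_lit 5) (nat_lit 3))
    (@En.n l19875 (nat_lit 2692) (nat_lit 6) (nat_lit 5))
    (@En.n l859 (nat_lit 3204) (nat_lit 7) (nat_lit 6))
    (@En.n l2036 (nat_lit 220) (nat_lit 9) (nat_lit 13))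
    (@En.n l11618 (nat_lit 6653) (nat_lit 6) (nat_lit 7))
    (@En.n l28 (nat_lit 1244) (nat_lit 10) (nat_lit 2))
    (@En.n l14584 (nat_lit 1271) (nat_lit 12) (nat_lit 11))
    (@En.n l5922 (nat_lit 1255) (nat_lit 13) (nat_lit 14))
    (@En.n l50 (nat_lit 10118) (nat_lit 2) (nat_lit 10))
    (@En.n l1643 (nat_lit 1088) (nat_lit 3) (nat_lit 5))
    (@En.n l3 (nat_lit 1244) (nat_lit 15) (nat_lit 2))))
  (@Cl.mk (nat_lit 0x200050005000a000e000b00020008000d000600050003000b000b000e0008) (nat_lit 0x4b205200090c6) (nat_lit 16) Lb.e (@T16.mk En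
    (@En.n l21711 (nat_lit 1097) (nat_lit 6) (nat_lit 8))
    (@En.n l6556 (nat_lit 1246) (nat_lit 8) (nat_lit 14))
    (@En.n l21712 (nat_lit 1246) (nat_lit 9) (nat_lit 11))
    (@En.n l21713 (nat_lit 7683) (nat_lit 3) (nat_lit 11))
    (@En.n l50 (nat_lit 1243) (nat_lit 4) (nat_lit 3))
    (@En.n l13546 (nat_lit 2695) (nat_lit 5) (nat_lit 5))
    (@En.n l859 (nat_lit 3203) (nat_lit 6) (nat_lit 6))
    (@En.n l2544 (nat_lit 145) (nat_lit 8) (nat_lit 13))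
    (@En.i (nat_lit 6651) (nat_lit 9) (nat_lit 8))
    (@En.n l28 (nat_lit 1245) (nat_lit 9) (nat_lit 2))
    (@En.n l16640 (nat_lit 1247) (nat_lit 11) (nat_lit 11))
    (@En.n l5919 (nat_lit 1249) (nat_lit 12) (nat_lit 14))
    (@En.n l50 (nat_lit 9322) (nat_lit 13) (nat_lit 10))
    (@En.n l725 (nat_lit 1244) (nat_lit 14) (nat_lit 5))
    (@En.n l13546 (nat_lit 1019) (nat_lit 4) (nat_lit 5))
    (@En.n l3 (nat_lit 1245) (nat_lit 15) (nat_lit 2))))
  (@Cl.mk (nat_lit 0x20009000d000600050003000b000e00070002000e00050002000a000e000b) (nat_lit 0x720009b001005b0) (nat_lit 16) Lb.e (@T16.mk En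
    (@En.n l644 (nat_lit 1340) (nat_lit 13) (nat_lit 11))
    (@En.n l9291 (nat_lit 1333) (nat_lit 1) (nat_lit 14))
    (@En.n l9292 (nat_lit 9323) (nat_lit 12) (nat_lit 10))
    (@En.n l107 (nat_lit 1246) (nat_lit 3) (nat_lit 2))
    (@En.n l9293 (nat_lit 1245) (nat_lit 14) (nat_lit 5))
    (@En.n l9294 (nat_lit 1083) (nat_lit 1) (nat_lit 14))
    (@En.n l17 (nat_lit 1246) (nat_lit 6) (nat_lit 2))
    (@En.n l9295 (nat_lit 622) (nat_lit 7) (nat_lit 7))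
    (@En.n l433 (nat_lit 13030) (nat_lit 4) (nat_lit 14))
    (@En.i (nat_lit 7682) (nat_lit 10) (nat_lit 11))
    (@En.n l9292 (nat_lit 1356) (nat_lit 10) (nat_lit 3))
    (@En.n l1219 (nat_lit 2697) (nat_lit 0) (nat_lit 5))
    (@En.i (nat_lit 3207) (nat_lit 13) (nat_lit 6))
    (@En.n l3891 (nat_lit 137) (nat_lit 10) (nat_lit 13))
    (@En.n l9296 (nat_lit 6650) (nat_lit 11) (nat_lit 9))
    (@En.n l7 (nat_lit 1246) (nat_lit 15) (nat_lit 2))))
  (@Cl.mk (nat_lit 0x200050005000b000b000b0007000c0005000500050004000b000b000e0009) (nat_lit 0x120200005703) (nat_lit 16) Lb.e (@T16.mk En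
    (@En.n l3824 (nat_lit 1256) (nat_lit 1) (nat_lit 9))
    (@En.n l16684 (nat_lit 1340) (nat_lit 4) (nat_lit 14))
    (@En.n l16685 (nat_lit 1340) (nat_lit 5) (nat_lit 11))
    (@En.n l16686 (nat_lit 6288) (nat_lit 3) (nat_lit 11))
    (@En.n l3830 (nat_lit 1248) (nat_lit 4) (nat_lit 4))
    (@En.n l16687 (nat_lit 1245) (nat_lit 5) (nat_lit 5))
    (@En.n l77 (nat_lit 1330) (nat_lit 6) (nat_lit 5))
    (@En.n l6764 (nat_lit 3199) (nat_lit 7) (nat_lit 5))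
    (@En.n l16688 (nat_lit 143) (nat_lit 9) (nat_lit 12))
    (@En.n l6766 (nat_lit 6745) (nat_lit 10) (nat_lit 7))
    (@En.n l397 (nat_lit 609) (nat_lit 11) (nat_lit 11))
    (@En.n l16689 (nat_lit 610) (nat_lit 12) (nat_lit 11))
    (@En.n l3830 (nat_lit 9326) (nat_lit 13) (nat_lit 11))
    (@En.n l16690 (nat_lit 1271) (nat_lit 14) (nat_lit 5))
    (@En.i (nat_lit 1020) (nat_lit 13) (nat_lit 5))
    (@En.n l936 (nat_lit 1247) (nat_lit 15) (nat_lit 2))))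
noncomputable def a78 : T16 Cl := @T16.mk Cl
  (@Cl.mk (nat_lit 0x200050005000a000a000d0007000c0003000600060004000b000b000e0009) (nat_lit 0x50400005762) (nat_lit 16) Lb.e (@T16.mk En
    (@En.n l3333 (nat_lit 1254) (nat_lit 1) (nat_lit 9))
    (@En.n l8825 (nat_lit 1251) (nat_lit 4) (nat_lit 14))
    (@En.n l9216 (nat_lit 1251) (nat_lit 5) (nat_lit 11))
    (@En.n l2205 (nat_lit 6609) (nat_lit 3) (nat_lit 11))
    (@En.n l3100 (nat_lit 996) (nat_lit 4) (nat_lit 4))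
    (@En.n l3314 (nat_lit 1249) (nat_lit 5) (nat_lit 6))
    (@En.n l8373 (nat_lit 1245) (nat_lit 6) (nat_lit 6))
    (@En.n l4639 (nat_lit 1253) (nat_lit 7) (nat_lit 3))
    (@En.n l3338 (nat_lit 202) (nat_lit 0) (nat_lit 12))
    (@En.i (nat_lit 6755) (nat_lit 10) (nat_lit 7))
    (@En.n l7 (nat_lit 1252) (nat_lit 11) (nat_lit 13))
    (@En.n l644 (nat_lit 1252) (nat_lit 12) (nat_lit 10))
    (@En.i (nat_lit 12260) (nat_lit 13) (nat_lit 10))
    (@En.n l725 (nat_lit 1250) (nat_lit 14) (nat_lit 5))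
    (@En.n l3340 (nat_lit 1022) (nat_lit 13) (nat_lit 5))
    (@En.n l3 (nat_lit 1248) (nat_lit 15) (nat_lit 2))))
  (@Cl.mk (nat_lit 0x200050005000e000a0002000d0008000d000300060003000b000b000e0008) (nat_lit 0xa106550000052) (nat_lit 16) Lb.e (@T16.mk En
    (@En.n l3824 (nat_lit 1326) (nat_lit 5) (nat_lit 8))
    (@En.n l3825 (nat_lit 1333) (nat_lit 7) (nat_lit 14))
    (@En.n l3826 (nat_lit 1333) (nat_lit 8) (nat_lit 11))
    (@En.n l3827 (nat_lit 6612) (nat_lit 3) (nat_lit 11))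
    (@En.n l17 (nat_lit 1330) (nat_lit 4) (nat_lit 3))
    (@En.n l826 (nat_lit 2691) (nat_lit 5) (nat_lit 6))
    (@En.n l3828 (nat_lit 1283) (nat_lit 6) (nat_lit 3))
    (@En.n l3827 (nat_lit 198) (nat_lit 0) (nat_lit 13))
    (@En.n l3828 (nat_lit 6752) (nat_lit 14) (nat_lit 8))
    (@En.n l3829 (nat_lit 1248) (nat_lit 10) (nat_lit 13))
    (@En.n l7 (nat_lit 1249) (nat_lit 10) (nat_lit 2))
    (@En.n l3830 (nat_lit 1248) (nat_lit 12) (nat_lit 10))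
    (@En.n l645 (nat_lit 11694) (nat_lit 13) (nat_lit 14))
    (@En.n l3831 (nat_lit 1255) (nat_lit 14) (nat_lit 5))
    (@En.i (nat_lit 1023) (nat_lit 13) (nat_lit 5))
    (@En.n l936 (nat_lit 1249) (nat_lit 15) (nat_lit 2))))
  (@Cl.mk (nat_lit 0x20005000a000a000d0006000c0003000600060004000e000b0002000e000a) (nat_lit 0x5030000b6072) (nat_lit 16) Lb.e (@T16.mk En
    (@En.i (nat_lit 1267) (nat_lit 14) (nat_lit 10))
    (@En.i (nat_lit 1248) (nat_lit 1) (nat_lit 14))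
    (@En.n l17 (nat_lit 1250) (nat_lit 2) (nat_lit 2))
    (@En.n l1353 (nat_lit 1248) (nat_lit 3) (nat_lit 11))
    (@En.n l1998 (nat_lit 4874) (nat_lit 5) (nat_lit 14))
    (@En.n l3100 (nat_lit 998) (nat_lit 5) (nat_lit 4))
    (@En.i (nat_lit 1255) (nat_lit 6) (nat_lit 6))
    (@En.n l8373 (nat_lit 1244) (nat_lit 7) (nat_lit 6))
    (@En.n l287 (nat_lit 1274) (nat_lit 8) (nat_lit 3))
    (@En.n l893 (nat_lit 203) (nat_lit 0) (nat_lit 12))
    (@En.n l8374 (nat_lit 6786) (nat_lit 7) (nat_lit 6))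
    (@En.n l7 (nat_lit 1273) (nat_lit 12) (nat_lit 13))
    (@En.n l644 (nat_lit 1273) (nat_lit 13) (nat_lit 10))
    (@En.i (nat_lit 6370) (nat_lit 14) (nat_lit 10))
    (@En.n l1643 (nat_lit 1062) (nat_lit 13) (nat_lit 5))
    (@En.n l3 (nat_lit 1250) (nat_lit 15) (nat_lit 2))))
  (@Cl.mk (nat_lit 0x2000a000a000d0008000c0003000600060004000b000e00080002000e0005) (nat_lit 0x7640000651020) (nat_lit 16) Lb.e (@T16.mk En
    (@En.n l3145 (nat_lit 1248) (nat_lit 14) (nat_lit 5))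
    (@En.n l3146 (nat_lit 1076) (nat_lit 1) (nat_lit 14))
    (@En.n l17 (nat_lit 1251) (nat_lit 2) (nat_lit 2))
    (@En.n l3147 (nat_lit 620) (nat_lit 3) (nat_lit 8))
    (@En.i (nat_lit 12892) (nat_lit 4) (nat_lit 14))
    (@En.n l960 (nat_lit 6613) (nat_lit 2) (nat_lit 11))
    (@En.i (nat_lit 1354) (nat_lit 6) (nat_lit 4))
    (@En.n l55 (nat_lit 1333) (nat_lit 10) (nat_lit 6))
    (@En.n l341 (nat_lit 1246) (nat_lit 12) (nat_lit 6))
    (@En.n l50 (nat_lit 1343) (nat_lit 9) (nat_lit 3))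
    (@En.n l3148 (nat_lit 146) (nat_lit 0) (nat_lit 12))
    (@En.n l217 (nat_lit 6754) (nat_lit 12) (nat_lit 8))
    (@En.n l3149 (nat_lit 1342) (nat_lit 5) (nat_lit 13))
    (@En.n l3150 (nat_lit 1342) (nat_lit 6) (nat_lit 10))
    (@En.n l446 (nat_lit 9333) (nat_lit 12) (nat_lit 10))
    (@En.n l107 (nat_lit 1251) (nat_lit 15) (nat_lit 2))))
  (@Cl.mk (nat_lit 0x200050005000a000d0006000b0003000e000600020005000b000b000e000a) (nat_lit 0x8402010008872) (nat_lit 16) Lb.e (@T16.mk En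
    (@En.n l3333 (nat_lit 1258) (nat_lit 11) (nat_lit 10))
    (@En.i (nat_lit 1342) (nat_lit 12) (nat_lit 14))
    (@En.n l1353 (nat_lit 1342) (nat_lit 13) (nat_lit 11))
    (@En.n l2205 (nat_lit 6608) (nat_lit 3) (nat_lit 11))
    (@En.i (nat_lit 997) (nat_lit 4) (nat_lit 5))
    (@En.n l50 (nat_lit 1252) (nat_lit 5) (nat_lit 2))
    (@En.i (nat_lit 1248) (nat_lit 6) (nat_lit 6))
    (@En.n l601 (nat_lit 610) (nat_lit 8) (nat_lit 14))
    (@En.n l287 (nat_lit 1276) (nat_lit 8) (nat_lit 3))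
    (@En.i (nat_lit 222) (nat_lit 10) (nat_lit 11))
    (@En.i (nat_lit 3465) (nat_lit 4) (nat_lit 6))
    (@En.n l3340 (nat_lit 13664) (nat_lit 5) (nat_lit 13))
    (@En.i (nat_lit 11682) (nat_lit 13) (nat_lit 10))
    (@En.n l725 (nat_lit 1273) (nat_lit 14) (nat_lit 5))
    (@En.n l3340 (nat_lit 1026) (nat_lit 8) (nat_lit 5))
    (@En.n l3 (nat_lit 1252) (nat_lit 15) (nat_lit 2))))
  (@Cl.mk (nat_lit 0x200050005000a000a000d000b00080003000600060005000b000b000e0008) (nat_lit 0x63000004680) (nat_lit 16) Lb.e (@T16.mk En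
    (@En.n l3098 (nat_lit 1279) (nat_lit 1) (nat_lit 8))
    (@En.n l3 (nat_lit 1343) (nat_lit 4) (nat_lit 14))
    (@En.n l527 (nat_lit 1343) (nat_lit 5) (nat_lit 11))
    (@En.n l1318 (nat_lit 6606) (nat_lit 3) (nat_lit 11))
    (@En.n l9233 (nat_lit 1360) (nat_lit 4) (nat_lit 5))
    (@En.n l5995 (nat_lit 1283) (nat_lit 5) (nat_lit 6))
    (@En.n l9233 (nat_lit 2973) (nat_lit 6) (nat_lit 6))
    (@En.n l3145 (nat_lit 1248) (nat_lit 7) (nat_lit 3))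
    (@En.n l1318 (nat_lit 2171) (nat_lit 0) (nat_lit 8))
    (@En.n l15671 (nat_lit 1247) (nat_lit 10) (nat_lit 11))
    (@En.n l15672 (nat_lit 1276) (nat_lit 11) (nat_lit 13))
    (@En.n l3194 (nat_lit 1276) (nat_lit 12) (nat_lit 10))
    (@En.n l15673 (nat_lit 12231) (nat_lit 13) (nat_lit 10))
    (@En.n l15674 (nat_lit 1274) (nat_lit 14) (nat_lit 5))
    (@En.n l3106 (nat_lit 1025) (nat_lit 13) (nat_lit 5))
    (@En.n l17 (nat_lit 1253) (nat_lit 15) (nat_lit 2))))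
  (@Cl.mk (nat_lit 0x4000400090009000c00070007000c0004000700070004000c000c00090009) (nat_lit 0x300008110) (nat_lit 16) Lb.e (@T16.mk En
    (@En.n l1101 (nat_lit 1263) (nat_lit 7) (nat_lit 9))
    (@En.n l55 (nat_lit 1176) (nat_lit 1) (nat_lit 9))
    (@En.n l21707 (nat_lit 620) (nat_lit 4) (nat_lit 12))
    (@En.n l15409 (nat_lit 6611) (nat_lit 12) (nat_lit 12))
    (@En.n l6299 (nat_lit 625) (nat_lit 4) (nat_lit 4))
    (@En.n l2139 (nat_lit 1326) (nat_lit 9) (nat_lit 7))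
    (@En.n l2180 (nat_lit 1097) (nat_lit 11) (nat_lit 7))
    (@En.n l13422 (nat_lit 1279) (nat_lit 7) (nat_lit 4))
    (@En.i (nat_lit 293) (nat_lit 0) (nat_lit 12))
    (@En.n l2040 (nat_lit 1248) (nat_lit 9) (nat_lit 7))
    (@En.n l21708 (nat_lit 9255) (nat_lit 5) (nat_lit 7))
    (@En.n l18 (nat_lit 1258) (nat_lit 6) (nat_lit 12))
    (@En.n l61 (nat_lit 1258) (nat_lit 7) (nat_lit 9))
    (@En.n l2747 (nat_lit 11720) (nat_lit 5) (nat_lit 9))
    (@En.n l5584 (nat_lit 1267) (nat_lit 12) (nat_lit 4))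
    (@En.n l152 (nat_lit 1034) (nat_lit 0) (nat_lit 4))))
  (@Cl.mk (nat_lit 0x20005000e000a0002000d0007000d000300060003000e000b0002000e0009) (nat_lit 0xa10603000b1063) (nat_lit 16) Lb.e (@T16.mk En
    (@En.n l3313 (nat_lit 1329) (nat_lit 14) (nat_lit 9))
    (@En.n l3314 (nat_lit 1249) (nat_lit 1) (nat_lit 14))
    (@En.n l17 (nat_lit 1255) (nat_lit 2) (nat_lit 2))
    (@En.n l3315 (nat_lit 1249) (nat_lit 3) (nat_lit 11))
    (@En.n l3316 (nat_lit 4992) (nat_lit 1) (nat_lit 14))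
    (@En.n l3317 (nat_lit 1331) (nat_lit 5) (nat_lit 3))
    (@En.n l3318 (nat_lit 2694) (nat_lit 6) (nat_lit 6))
    (@En.n l3319 (nat_lit 1382) (nat_lit 7) (nat_lit 3))
    (@En.n l3025 (nat_lit 197) (nat_lit 0) (nat_lit 13))
    (@En.n l3320 (nat_lit 6756) (nat_lit 14) (nat_lit 7))
    (@En.n l1337 (nat_lit 1250) (nat_lit 11) (nat_lit 13))
    (@En.n l50 (nat_lit 1255) (nat_lit 11) (nat_lit 2))
    (@En.n l644 (nat_lit 1250) (nat_lit 13) (nat_lit 10))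
    (@En.n l3321 (nat_lit 11360) (nat_lit 1) (nat_lit 14))
    (@En.n l3315 (nat_lit 1084) (nat_lit 13) (nat_lit 5))
    (@En.n l3 (nat_lit 1255) (nat_lit 15) (nat_lit 2))))
  (@Cl.mk (nat_lit 0x40004000a000a000a00070007000c0006000600060004000c000c00090009) (nat_lit 0x8200200000921) (nat_lit 16) Lb.e (@T16.mk En
    (@En.n l25885 (nat_lit 1238) (nat_lit 7) (nat_lit 9))
    (@En.n l13857 (nat_lit 983) (nat_lit 1) (nat_lit 9))
    (@En.n l14285 (nat_lit 618) (nat_lit 4) (nat_lit 12))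
    (@En.n l25886 (nat_lit 5917) (nat_lit 3) (nat_lit 12))
    (@En.n l817 (nat_lit 1254) (nat_lit 4) (nat_lit 4))
    (@En.n l601 (nat_lit 1097) (nat_lit 10) (nat_lit 6))
    (@En.n l77 (nat_lit 1327) (nat_lit 10) (nat_lit 6))
    (@En.n l2750 (nat_lit 3194) (nat_lit 7) (nat_lit 6))
    (@En.i (nat_lit 303) (nat_lit 8) (nat_lit 12))
    (@En.n l282 (nat_lit 1247) (nat_lit 9) (nat_lit 7))
    (@En.n l13859 (nat_lit 9257) (nat_lit 5) (nat_lit 7))
    (@En.n l397 (nat_lit 990) (nat_lit 6) (nat_lit 10))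
    (@En.n l25887 (nat_lit 1257) (nat_lit 6) (nat_lit 10))
    (@En.n l25888 (nat_lit 9332) (nat_lit 14) (nat_lit 10))
    (@En.n l25889 (nat_lit 1270) (nat_lit 12) (nat_lit 4))
    (@En.n l152 (nat_lit 982) (nat_lit 0) (nat_lit 4))))
  (@Cl.mk (nat_lit 0x200070005000c000c000a000a00040004000a000900060006000b000e0006) (nat_lit 0x180007100400) (nat_lit 16) Lb.e (@T16.mk En
    (@En.n l13492 (nat_lit 1256) (nat_lit 7) (nat_lit 6))
    (@En.n l619 (nat_lit 2985) (nat_lit 4) (nat_lit 14))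
    (@En.n l9926 (nat_lit 291) (nat_lit 2) (nat_lit 11))
    (@En.n l3180 (nat_lit 610) (nat_lit 10) (nat_lit 6))
    (@En.n l28010 (nat_lit 6897) (nat_lit 4) (nat_lit 6))
    (@En.i (nat_lit 484) (nat_lit 5) (nat_lit 9))
    (@En.n l28011 (nat_lit 11717) (nat_lit 7) (nat_lit 10))
    (@En.n l77 (nat_lit 1259) (nat_lit 7) (nat_lit 4))
    (@En.n l27997 (nat_lit 1032) (nat_lit 8) (nat_lit 4))
    (@En.n l5653 (nat_lit 1260) (nat_lit 10) (nat_lit 10))
    (@En.n l601 (nat_lit 988) (nat_lit 11) (nat_lit 10))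
    (@En.n l25894 (nat_lit 614) (nat_lit 12) (nat_lit 12))
    (@En.n l26629 (nat_lit 5912) (nat_lit 13) (nat_lit 12))
    (@En.n l21019 (nat_lit 1258) (nat_lit 14) (nat_lit 5))
    (@En.n l28012 (nat_lit 1254) (nat_lit 5) (nat_lit 7))
    (@En.n l107 (nat_lit 1257) (nat_lit 15) (nat_lit 2))))
  (@Cl.mk (nat_lit 0x20005000c000c000a000a000400040009000c00060006000b0004000e0007) (nat_lit 0x110007a004010) (nat_lit 16) Lb.e (@T16.mk En
    (@En.i (nat_lit 1254) (nat_lit 6) (nat_lit 7))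
    (@En.n l36905 (nat_lit 1257) (nat_lit 1) (nat_lit 14))
    (@En.n l27134 (nat_lit 1280) (nat_lit 2) (nat_lit 4))
    (@En.i (nat_lit 292) (nat_lit 3) (nat_lit 11))
    (@En.n l2040 (nat_lit 1252) (nat_lit 10) (nat_lit 6))
    (@En.i (nat_lit 6896) (nat_lit 5) (nat_lit 6))
    (@En.i (nat_lit 13655) (nat_lit 6) (nat_lit 12))
    (@En.n l2747 (nat_lit 11719) (nat_lit 8) (nat_lit 9))
    (@En.n l5584 (nat_lit 1266) (nat_lit 8) (nat_lit 4))
    (@En.n l152 (nat_lit 1033) (nat_lit 9) (nat_lit 4))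
    (@En.n l1101 (nat_lit 1264) (nat_lit 11) (nat_lit 10))
    (@En.n l55 (nat_lit 1175) (nat_lit 12) (nat_lit 10))
    (@En.n l619 (nat_lit 619) (nat_lit 13) (nat_lit 12))
    (@En.n l886 (nat_lit 6610) (nat_lit 14) (nat_lit 12))
    (@En.i (nat_lit 991) (nat_lit 13) (nat_lit 5))
    (@En.n l17 (nat_lit 1258) (nat_lit 15) (nat_lit 2))))
  (@Cl.mk (nat_lit 0x200070005000e000c0002000b000b0004000a000900050005000b000e0006) (nat_lit 0xa108207100300) (nat_lit 16) Lb.e (@T16.mk En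
    (@En.i (nat_lit 1270) (nat_lit 5) (nat_lit 6))
    (@En.n l619 (nat_lit 3133) (nat_lit 7) (nat_lit 14))
    (@En.n l3348 (nat_lit 1027) (nat_lit 2) (nat_lit 11))
    (@En.n l5331 (nat_lit 1272) (nat_lit 11) (nat_lit 5))
    (@En.i (nat_lit 9251) (nat_lit 4) (nat_lit 5))
    (@En.i (nat_lit 455) (nat_lit 5) (nat_lit 9))
    (@En.n l24935 (nat_lit 12197) (nat_lit 12) (nat_lit 10))
    (@En.n l3348 (nat_lit 1048) (nat_lit 7) (nat_lit 4))
    (@En.n l61 (nat_lit 1261) (nat_lit 9) (nat_lit 11))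
    (@En.i (nat_lit 979) (nat_lit 10) (nat_lit 11))
    (@En.n l7 (nat_lit 1259) (nat_lit 10) (nat_lit 2))
    (@En.i (nat_lit 1257) (nat_lit 12) (nat_lit 12))
    (@En.n l1643 (nat_lit 5254) (nat_lit 13) (nat_lit 14))
    (@En.n l5311 (nat_lit 1266) (nat_lit 14) (nat_lit 5))
    (@En.n l2943 (nat_lit 1267) (nat_lit 3) (nat_lit 7))
    (@En.n l107 (nat_lit 1259) (nat_lit 15) (nat_lit 2))))
  (@Cl.mk (nat_lit 0x200080005000d000d000a0003000300090008000e00060002000b000e0007) (nat_lit 0x7980061300500) (nat_lit 16) Lb.e (@T16.mk En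
    (@En.i (nat_lit 1238) (nat_lit 13) (nat_lit 7))
    (@En.n l619 (nat_lit 1891) (nat_lit 4) (nat_lit 14))
    (@En.n l1722 (nat_lit 1051) (nat_lit 2) (nat_lit 11))
    (@En.n l17 (nat_lit 1260) (nat_lit 3) (nat_lit 2))
    (@En.n l4172 (nat_lit 1257) (nat_lit 4) (nat_lit 6))
    (@En.n l6050 (nat_lit 2695) (nat_lit 6) (nat_lit 14))
    (@En.i (nat_lit 452) (nat_lit 6) (nat_lit 8))
    (@En.n l16632 (nat_lit 11721) (nat_lit 3) (nat_lit 9))
    (@En.n l50 (nat_lit 1261) (nat_lit 8) (nat_lit 3))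
    (@En.i (nat_lit 1887) (nat_lit 9) (nat_lit 3))
    (@En.i (nat_lit 1397) (nat_lit 11) (nat_lit 10))
    (@En.n l601 (nat_lit 1887) (nat_lit 12) (nat_lit 13))
    (@En.n l1643 (nat_lit 5906) (nat_lit 9) (nat_lit 13))
    (@En.n l159 (nat_lit 1264) (nat_lit 14) (nat_lit 5))
    (@En.n l11 (nat_lit 1263) (nat_lit 11) (nat_lit 8))
    (@En.n l107 (nat_lit 1260) (nat_lit 15) (nat_lit 2))))
  (@Cl.mk (nat_lit 0x200080005000e000d0002000b000300090008000e00050002000b000e0007) (nat_lit 0xb801071500300) (nat_lit 16) Lb.e (@T16.mk En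
    (@En.i (nat_lit 1239) (nat_lit 5) (nat_lit 7))
    (@En.n l619 (nat_lit 1898) (nat_lit 7) (nat_lit 14))
    (@En.n l1722 (nat_lit 1054) (nat_lit 2) (nat_lit 11))
    (@En.n l17 (nat_lit 1261) (nat_lit 3) (nat_lit 2))
    (@En.i (nat_lit 1259) (nat_lit 4) (nat_lit 5))
    (@En.n l6050 (nat_lit 2709) (nat_lit 6) (nat_lit 14))
    (@En.i (nat_lit 448) (nat_lit 6) (nat_lit 8))
    (@En.i (nat_lit 5956) (nat_lit 3) (nat_lit 9))
    (@En.i (nat_lit 1260) (nat_lit 8) (nat_lit 3))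
    (@En.i (nat_lit 957) (nat_lit 0) (nat_lit 11))
    (@En.n l7 (nat_lit 1261) (nat_lit 10) (nat_lit 2))
    (@En.n l601 (nat_lit 1260) (nat_lit 12) (nat_lit 13))
    (@En.n l1643 (nat_lit 5904) (nat_lit 1) (nat_lit 14))
    (@En.n l159 (nat_lit 1262) (nat_lit 14) (nat_lit 5))
    (@En.n l11 (nat_lit 1265) (nat_lit 3) (nat_lit 8))
    (@En.n l107 (nat_lit 1261) (nat_lit 15) (nat_lit 2))))
  (@Cl.mk (nat_lit 0x20005000e000d0002000b00030008000b000e00050002000b0005000e0008) (nat_lit 0x38000007005016) (nat_lit 16) Lb.e (@T16.mk En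
    (@En.i (nat_lit 1265) (nat_lit 4) (nat_lit 8))
    (@En.n l180 (nat_lit 1261) (nat_lit 1) (nat_lit 14))
    (@En.n l619 (nat_lit 1268) (nat_lit 14) (nat_lit 5))
    (@En.n l1722 (nat_lit 1058) (nat_lit 3) (nat_lit 11))
    (@En.n l17 (nat_lit 1262) (nat_lit 4) (nat_lit 2))
    (@En.n l2869 (nat_lit 1266) (nat_lit 5) (nat_lit 5))
    (@En.n l1889 (nat_lit 2711) (nat_lit 7) (nat_lit 14))
    (@En.i (nat_lit 13652) (nat_lit 7) (nat_lit 11))
    (@En.i (nat_lit 12200) (nat_lit 3) (nat_lit 8))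
    (@En.i (nat_lit 1264) (nat_lit 9) (nat_lit 3))
    (@En.n l1998 (nat_lit 1429) (nat_lit 11) (nat_lit 11))
    (@En.n l7 (nat_lit 1262) (nat_lit 11) (nat_lit 2))
    (@En.n l601 (nat_lit 1264) (nat_lit 13) (nat_lit 13))
    (@En.n l1643 (nat_lit 4983) (nat_lit 9) (nat_lit 14))
    (@En.i (nat_lit 1285) (nat_lit 13) (nat_lit 5))
    (@En.n l11 (nat_lit 1262) (nat_lit 15) (nat_lit 2))))
  (@Cl.mk (nat_lit 0x2000c0005000800080004000d000d00090003000300080008000b000e0007) (nat_lit 0x605606870000030) (nat_lit 16) Lb.e (@T16.mk En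
    (@En.n l3348 (nat_lit 1254) (nat_lit 10) (nat_lit 7))
    (@En.n l1758 (nat_lit 2712) (nat_lit 4) (nat_lit 14))
    (@En.n l107 (nat_lit 1264) (nat_lit 7) (nat_lit 11))
    (@En.n l575 (nat_lit 1264) (nat_lit 8) (nat_lit 8))
    (@En.n l998 (nat_lit 11724) (nat_lit 4) (nat_lit 8))
    (@En.n l50 (nat_lit 1265) (nat_lit 13) (nat_lit 3))
    (@En.n l12205 (nat_lit 1353) (nat_lit 0) (nat_lit 3))
    (@En.i (nat_lit 1393) (nat_lit 0) (nat_lit 9))
    (@En.n l12206 (nat_lit 1353) (nat_lit 3) (nat_lit 13))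
    (@En.n l1643 (nat_lit 6700) (nat_lit 10) (nat_lit 13))
    (@En.n l1758 (nat_lit 1229) (nat_lit 10) (nat_lit 4))
    (@En.n l1761 (nat_lit 1386) (nat_lit 8) (nat_lit 8))
    (@En.n l12207 (nat_lit 1233) (nat_lit 13) (nat_lit 8))
    (@En.n l12208 (nat_lit 1352) (nat_lit 14) (nat_lit 5))
    (@En.n l3348 (nat_lit 1055) (nat_lit 8) (nat_lit 12))
    (@En.n l17 (nat_lit 1263) (nat_lit 15) (nat_lit 2))))
noncomputable def a79 : T16 Cl := @T16.mk Cl
  (@Cl.mk (nat_lit 0x20005000d000d000a000300030008000b000e00060002000b0005000e0008) (nat_lit 0x79800692005016) (nat_lit 16) Lb.e (@T16.mk En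
    (@En.i (nat_lit 1263) (nat_lit 12) (nat_lit 8))
    (@En.n l180 (nat_lit 1260) (nat_lit 1) (nat_lit 14))
    (@En.n l619 (nat_lit 1269) (nat_lit 14) (nat_lit 5))
    (@En.n l3348 (nat_lit 1053) (nat_lit 3) (nat_lit 11))
    (@En.n l17 (nat_lit 1264) (nat_lit 4) (nat_lit 2))
    (@En.n l3348 (nat_lit 1258) (nat_lit 5) (nat_lit 6))
    (@En.n l998 (nat_lit 2692) (nat_lit 7) (nat_lit 14))
    (@En.i (nat_lit 13650) (nat_lit 7) (nat_lit 11))
    (@En.n l998 (nat_lit 10761) (nat_lit 3) (nat_lit 8))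
    (@En.n l50 (nat_lit 1262) (nat_lit 9) (nat_lit 3))
    (@En.n l7678 (nat_lit 1886) (nat_lit 10) (nat_lit 3))
    (@En.i (nat_lit 1398) (nat_lit 12) (nat_lit 10))
    (@En.n l20263 (nat_lit 1886) (nat_lit 13) (nat_lit 13))
    (@En.n l1643 (nat_lit 6718) (nat_lit 9) (nat_lit 13))
    (@En.i (nat_lit 1236) (nat_lit 13) (nat_lit 5))
    (@En.n l11 (nat_lit 1264) (nat_lit 15) (nat_lit 2))))
  (@Cl.mk (nat_lit 0x2000a000300080008000b000e00060002000c0005000800080004000e000d) (nat_lit 0x116005056007) (nat_lit 16) Lb.e (@T16.mk En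
    (@En.n l601 (nat_lit 1263) (nat_lit 9) (nat_lit 13))
    (@En.n l1643 (nat_lit 4985) (nat_lit 1) (nat_lit 14))
    (@En.n l1758 (nat_lit 1235) (nat_lit 2) (nat_lit 4))
    (@En.i (nat_lit 1387) (nat_lit 3) (nat_lit 8))
    (@En.n l5312 (nat_lit 1816) (nat_lit 4) (nat_lit 8))
    (@En.n l619 (nat_lit 1282) (nat_lit 14) (nat_lit 5))
    (@En.n l1722 (nat_lit 1059) (nat_lit 7) (nat_lit 12))
    (@En.n l17 (nat_lit 1265) (nat_lit 7) (nat_lit 2))
    (@En.n l2869 (nat_lit 1267) (nat_lit 8) (nat_lit 6))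
    (@En.n l1758 (nat_lit 2713) (nat_lit 4) (nat_lit 14))
    (@En.n l107 (nat_lit 1262) (nat_lit 7) (nat_lit 11))
    (@En.n l575 (nat_lit 1262) (nat_lit 8) (nat_lit 8))
    (@En.i (nat_lit 12202) (nat_lit 4) (nat_lit 8))
    (@En.i (nat_lit 1263) (nat_lit 5) (nat_lit 3))
    (@En.n l5313 (nat_lit 1430) (nat_lit 0) (nat_lit 10))
    (@En.n l7 (nat_lit 1265) (nat_lit 15) (nat_lit 2))))
  (@Cl.mk (nat_lit 0x20005000e000c0002000b000b00040009000c00050005000b0004000e0007) (nat_lit 0x31011000004010) (nat_lit 16) Lb.e (@T16.mk En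
    (@En.i (nat_lit 1267) (nat_lit 4) (nat_lit 7))
    (@En.n l20930 (nat_lit 1259) (nat_lit 1) (nat_lit 14))
    (@En.n l8714 (nat_lit 1277) (nat_lit 2) (nat_lit 4))
    (@En.n l5276 (nat_lit 1026) (nat_lit 3) (nat_lit 11))
    (@En.n l152 (nat_lit 1273) (nat_lit 11) (nat_lit 5))
    (@En.i (nat_lit 9250) (nat_lit 5) (nat_lit 5))
    (@En.n l5276 (nat_lit 13653) (nat_lit 6) (nat_lit 12))
    (@En.i (nat_lit 12198) (nat_lit 12) (nat_lit 9))
    (@En.n l5276 (nat_lit 1038) (nat_lit 8) (nat_lit 4))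
    (@En.n l1867 (nat_lit 1262) (nat_lit 10) (nat_lit 11))
    (@En.i (nat_lit 1037) (nat_lit 11) (nat_lit 11))
    (@En.n l17 (nat_lit 1266) (nat_lit 11) (nat_lit 2))
    (@En.n l5551 (nat_lit 1258) (nat_lit 13) (nat_lit 12))
    (@En.n l226 (nat_lit 4984) (nat_lit 1) (nat_lit 14))
    (@En.i (nat_lit 992) (nat_lit 13) (nat_lit 5))
    (@En.n l50 (nat_lit 1266) (nat_lit 15) (nat_lit 2))))
  (@Cl.mk (nat_lit 0x2000a000a000400090009000c00060006000c0004000700070004000e000c) (nat_lit 0x1100110020000c9) (nat_lit 16) Lb.e (@T16.mk En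
    (@En.n l5551 (nat_lit 1254) (nat_lit 3) (nat_lit 12))
    (@En.n l226 (nat_lit 4986) (nat_lit 1) (nat_lit 14))
    (@En.n l9413 (nat_lit 994) (nat_lit 2) (nat_lit 4))
    (@En.n l3313 (nat_lit 1329) (nat_lit 3) (nat_lit 7))
    (@En.n l9414 (nat_lit 1100) (nat_lit 11) (nat_lit 7))
    (@En.n l8714 (nat_lit 1278) (nat_lit 5) (nat_lit 4))
    (@En.n l5276 (nat_lit 1022) (nat_lit 7) (nat_lit 12))
    (@En.n l152 (nat_lit 1250) (nat_lit 10) (nat_lit 6))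
    (@En.n l9415 (nat_lit 9252) (nat_lit 8) (nat_lit 6))
    (@En.n l7 (nat_lit 1266) (nat_lit 6) (nat_lit 12))
    (@En.n l644 (nat_lit 1266) (nat_lit 7) (nat_lit 9))
    (@En.i (nat_lit 12199) (nat_lit 12) (nat_lit 9))
    (@En.n l5276 (nat_lit 1042) (nat_lit 13) (nat_lit 4))
    (@En.n l1867 (nat_lit 1265) (nat_lit 14) (nat_lit 10))
    (@En.i (nat_lit 1044) (nat_lit 1) (nat_lit 10))
    (@En.n l17 (nat_lit 1267) (nat_lit 15) (nat_lit 2))))
  (@Cl.mk (nat_lit 0x20005000e000800020008000e000d0002000a00030008000b0008000e0006) (nat_lit 0x6050700000280) (nat_lit 16) Lb.e (@T16.mk En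
    (@En.i (nat_lit 1277) (nat_lit 4) (nat_lit 6))
    (@En.n l524 (nat_lit 1262) (nat_lit 6) (nat_lit 14))
    (@En.i (nat_lit 1261) (nat_lit 6) (nat_lit 8))
    (@En.i (nat_lit 13649) (nat_lit 7) (nat_lit 11))
    (@En.n l532 (nat_lit 5955) (nat_lit 4) (nat_lit 8))
    (@En.i (nat_lit 1269) (nat_lit 5) (nat_lit 3))
    (@En.i (nat_lit 1431) (nat_lit 0) (nat_lit 10))
    (@En.n l7 (nat_lit 1268) (nat_lit 7) (nat_lit 2))
    (@En.n l601 (nat_lit 1269) (nat_lit 9) (nat_lit 13))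
    (@En.n l532 (nat_lit 4982) (nat_lit 10) (nat_lit 14))
    (@En.n l11 (nat_lit 3488) (nat_lit 11) (nat_lit 8))
    (@En.n l107 (nat_lit 1268) (nat_lit 11) (nat_lit 2))
    (@En.i (nat_lit 1282) (nat_lit 13) (nat_lit 8))
    (@En.n l97 (nat_lit 1899) (nat_lit 1) (nat_lit 14))
    (@En.n l1776 (nat_lit 3670) (nat_lit 13) (nat_lit 5))
    (@En.n l17 (nat_lit 1268) (nat_lit 15) (nat_lit 2))))
  (@Cl.mk (nat_lit 0x20005000e000800020008000d000d0009000300030008000b0008000e0007) (nat_lit 0x5056820000230) (nat_lit 16) Lb.e (@T16.mk En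
    (@En.n l4172 (nat_lit 1280) (nat_lit 4) (nat_lit 7))
    (@En.n l524 (nat_lit 1264) (nat_lit 6) (nat_lit 14))
    (@En.i (nat_lit 1260) (nat_lit 6) (nat_lit 8))
    (@En.i (nat_lit 13602) (nat_lit 7) (nat_lit 11))
    (@En.n l4402 (nat_lit 11725) (nat_lit 4) (nat_lit 8))
    (@En.n l50 (nat_lit 1268) (nat_lit 5) (nat_lit 3))
    (@En.n l12222 (nat_lit 1350) (nat_lit 6) (nat_lit 3))
    (@En.i (nat_lit 1401) (nat_lit 12) (nat_lit 9))
    (@En.n l12223 (nat_lit 1350) (nat_lit 9) (nat_lit 13))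
    (@En.n l532 (nat_lit 6720) (nat_lit 10) (nat_lit 13))
    (@En.n l12224 (nat_lit 3489) (nat_lit 11) (nat_lit 8))
    (@En.n l107 (nat_lit 1269) (nat_lit 11) (nat_lit 2))
    (@En.n l1772 (nat_lit 1352) (nat_lit 13) (nat_lit 8))
    (@En.n l97 (nat_lit 1893) (nat_lit 1) (nat_lit 14))
    (@En.n l12225 (nat_lit 3668) (nat_lit 2) (nat_lit 5))
    (@En.n l17 (nat_lit 1269) (nat_lit 15) (nat_lit 2))))
  (@Cl.mk (nat_lit 0x2000a000a0004000a000a000a00060006000c0006000600060004000e000c) (nat_lit 0x3300820030000c1) (nat_lit 16) Lb.e (@T16.mk En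
    (@En.n l13492 (nat_lit 1256) (nat_lit 3) (nat_lit 12))
    (@En.n l13493 (nat_lit 5256) (nat_lit 1) (nat_lit 14))
    (@En.n l5311 (nat_lit 1267) (nat_lit 2) (nat_lit 4))
    (@En.n l5322 (nat_lit 1100) (nat_lit 10) (nat_lit 6))
    (@En.n l523 (nat_lit 1328) (nat_lit 4) (nat_lit 6))
    (@En.n l13494 (nat_lit 3197) (nat_lit 5) (nat_lit 6))
    (@En.n l12209 (nat_lit 1020) (nat_lit 7) (nat_lit 12))
    (@En.n l13495 (nat_lit 1271) (nat_lit 10) (nat_lit 6))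
    (@En.n l13496 (nat_lit 9254) (nat_lit 8) (nat_lit 6))
    (@En.n l13497 (nat_lit 993) (nat_lit 6) (nat_lit 10))
    (@En.n l527 (nat_lit 1259) (nat_lit 6) (nat_lit 10))
    (@En.n l5311 (nat_lit 9120) (nat_lit 12) (nat_lit 10))
    (@En.n l12209 (nat_lit 1050) (nat_lit 13) (nat_lit 4))
    (@En.n l61 (nat_lit 1239) (nat_lit 14) (nat_lit 10))
    (@En.n l12533 (nat_lit 978) (nat_lit 1) (nat_lit 10))
    (@En.n l7 (nat_lit 1270) (nat_lit 15) (nat_lit 2))))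
  (@Cl.mk (nat_lit 0x20005000b000b000b0006000c0005000500050004000e000b0002000e000a) (nat_lit 0x92020000b6014) (nat_lit 16) Lb.e (@T16.mk En
    (@En.n l14591 (nat_lit 1270) (nat_lit 14) (nat_lit 10))
    (@En.n l14592 (nat_lit 1247) (nat_lit 1) (nat_lit 14))
    (@En.n l3 (nat_lit 1271) (nat_lit 2) (nat_lit 2))
    (@En.n l7419 (nat_lit 1247) (nat_lit 3) (nat_lit 11))
    (@En.i (nat_lit 5257) (nat_lit 5) (nat_lit 14))
    (@En.n l14593 (nat_lit 1250) (nat_lit 5) (nat_lit 4))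
    (@En.n l14594 (nat_lit 1244) (nat_lit 6) (nat_lit 5))
    (@En.n l14595 (nat_lit 1331) (nat_lit 7) (nat_lit 5))
    (@En.n l12913 (nat_lit 3202) (nat_lit 8) (nat_lit 5))
    (@En.n l798 (nat_lit 204) (nat_lit 10) (nat_lit 12))
    (@En.n l5802 (nat_lit 6757) (nat_lit 7) (nat_lit 6))
    (@En.n l742 (nat_lit 999) (nat_lit 12) (nat_lit 11))
    (@En.n l14596 (nat_lit 1272) (nat_lit 13) (nat_lit 11))
    (@En.n l14593 (nat_lit 6377) (nat_lit 14) (nat_lit 11))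
    (@En.n l7419 (nat_lit 312) (nat_lit 13) (nat_lit 5))
    (@En.n l28 (nat_lit 1271) (nat_lit 15) (nat_lit 2))))
  (@Cl.mk (nat_lit 0x20005000b000a0005000b000e0005000200060005000e000b0002000e000b) (nat_lit 0x81030000041019) (nat_lit 16) Lb.e (@T16.mk En
    (@En.n l649 (nat_lit 1259) (nat_lit 9) (nat_lit 11))
    (@En.i (nat_lit 610) (nat_lit 1) (nat_lit 14))
    (@En.n l17 (nat_lit 1272) (nat_lit 2) (nat_lit 2))
    (@En.n l1353 (nat_lit 610) (nat_lit 3) (nat_lit 11))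
    (@En.n l5853 (nat_lit 5255) (nat_lit 5) (nat_lit 14))
    (@En.n l5592 (nat_lit 1273) (nat_lit 5) (nat_lit 5))
    (@En.n l50 (nat_lit 1250) (nat_lit 6) (nat_lit 6))
    (@En.n l7 (nat_lit 1272) (nat_lit 7) (nat_lit 2))
    (@En.n l22115 (nat_lit 1271) (nat_lit 8) (nat_lit 5))
    (@En.n l532 (nat_lit 2905) (nat_lit 10) (nat_lit 14))
    (@En.n l5853 (nat_lit 222) (nat_lit 2) (nat_lit 11))
    (@En.n l22116 (nat_lit 6788) (nat_lit 3) (nat_lit 5))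
    (@En.i (nat_lit 607) (nat_lit 13) (nat_lit 10))
    (@En.n l4172 (nat_lit 6373) (nat_lit 14) (nat_lit 11))
    (@En.n l1643 (nat_lit 314) (nat_lit 6) (nat_lit 5))
    (@En.n l3 (nat_lit 1272) (nat_lit 15) (nat_lit 2))))
  (@Cl.mk (nat_lit 0x20005000a000d0005000b0003000e000600020005000e000b0002000e000b) (nat_lit 0x84010100039082) (nat_lit 16) Lb.e (@T16.mk En
    (@En.i (nat_lit 1266) (nat_lit 10) (nat_lit 11))
    (@En.i (nat_lit 1252) (nat_lit 1) (nat_lit 14))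
    (@En.n l17 (nat_lit 1273) (nat_lit 2) (nat_lit 2))
    (@En.n l1353 (nat_lit 1252) (nat_lit 3) (nat_lit 11))
    (@En.n l1998 (nat_lit 4987) (nat_lit 5) (nat_lit 14))
    (@En.i (nat_lit 995) (nat_lit 5) (nat_lit 5))
    (@En.n l50 (nat_lit 1273) (nat_lit 6) (nat_lit 2))
    (@En.i (nat_lit 1250) (nat_lit 7) (nat_lit 6))
    (@En.n l601 (nat_lit 1272) (nat_lit 9) (nat_lit 14))
    (@En.n l287 (nat_lit 1275) (nat_lit 9) (nat_lit 3))
    (@En.i (nat_lit 11) (nat_lit 3) (nat_lit 11))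
    (@En.i (nat_lit 6787) (nat_lit 4) (nat_lit 5))
    (@En.i (nat_lit 13665) (nat_lit 5) (nat_lit 13))
    (@En.i (nat_lit 6372) (nat_lit 14) (nat_lit 10))
    (@En.n l1643 (nat_lit 1061) (nat_lit 7) (nat_lit 5))
    (@En.n l3 (nat_lit 1273) (nat_lit 15) (nat_lit 2))))
  (@Cl.mk (nat_lit 0x20005000a000a000d000b00070003000600060005000e000b0002000e0009) (nat_lit 0x4300000b5090) (nat_lit 16) Lb.e (@T16.mk En
    (@En.n l5347 (nat_lit 1278) (nat_lit 14) (nat_lit 9))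
    (@En.n l9471 (nat_lit 1253) (nat_lit 1) (nat_lit 14))
    (@En.n l18 (nat_lit 1274) (nat_lit 2) (nat_lit 2))
    (@En.n l9472 (nat_lit 1253) (nat_lit 3) (nat_lit 11))
    (@En.n l2571 (nat_lit 4870) (nat_lit 5) (nat_lit 14))
    (@En.n l9473 (nat_lit 1364) (nat_lit 5) (nat_lit 5))
    (@En.n l9474 (nat_lit 1382) (nat_lit 6) (nat_lit 6))
    (@En.n l9473 (nat_lit 3230) (nat_lit 7) (nat_lit 6))
    (@En.n l1253 (nat_lit 1250) (nat_lit 8) (nat_lit 3))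
    (@En.n l248 (nat_lit 2179) (nat_lit 0) (nat_lit 7))
    (@En.n l9475 (nat_lit 1271) (nat_lit 11) (nat_lit 11))
    (@En.n l28 (nat_lit 1275) (nat_lit 12) (nat_lit 13))
    (@En.n l77 (nat_lit 1275) (nat_lit 13) (nat_lit 10))
    (@En.n l9476 (nat_lit 6369) (nat_lit 14) (nat_lit 10))
    (@En.n l253 (nat_lit 1072) (nat_lit 13) (nat_lit 5))
    (@En.n l3 (nat_lit 1274) (nat_lit 15) (nat_lit 2))))
  (@Cl.mk (nat_lit 0x20005000a000d000a00060003000e000600020006000e000b0002000e000a) (nat_lit 0x832000000b60a0) (nat_lit 16) Lb.e (@T16.mk En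
    (@En.n l5347 (nat_lit 1277) (nat_lit 10) (nat_lit 10))
    (@En.i (nat_lit 1276) (nat_lit 1) (nat_lit 14))
    (@En.n l18 (nat_lit 1275) (nat_lit 2) (nat_lit 2))
    (@En.n l5 (nat_lit 1276) (nat_lit 3) (nat_lit 11))
    (@En.n l2571 (nat_lit 4871) (nat_lit 5) (nat_lit 14))
    (@En.i (nat_lit 1363) (nat_lit 5) (nat_lit 6))
    (@En.n l7 (nat_lit 1275) (nat_lit 6) (nat_lit 2))
    (@En.i (nat_lit 1274) (nat_lit 7) (nat_lit 6))
    (@En.n l134 (nat_lit 3020) (nat_lit 9) (nat_lit 14))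
    (@En.n l1253 (nat_lit 1273) (nat_lit 9) (nat_lit 3))
    (@En.n l248 (nat_lit 2174) (nat_lit 3) (nat_lit 6))
    (@En.n l2593 (nat_lit 1272) (nat_lit 12) (nat_lit 10))
    (@En.i (nat_lit 13666) (nat_lit 5) (nat_lit 13))
    (@En.n l766 (nat_lit 6371) (nat_lit 14) (nat_lit 10))
    (@En.n l253 (nat_lit 1071) (nat_lit 7) (nat_lit 5))
    (@En.n l3 (nat_lit 1275) (nat_lit 15) (nat_lit 2))))
  (@Cl.mk (nat_lit 0x200050005000a000d000a00070003000e000600020006000b000b000e0009) (nat_lit 0x8520060005790) (nat_lit 16) Lb.e (@T16.mk En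
    (@En.n l14347 (nat_lit 1280) (nat_lit 11) (nat_lit 9))
    (@En.n l14348 (nat_lit 1344) (nat_lit 12) (nat_lit 14))
    (@En.n l8700 (nat_lit 1344) (nat_lit 13) (nat_lit 11))
    (@En.n l7058 (nat_lit 6607) (nat_lit 3) (nat_lit 11))
    (@En.i (nat_lit 1359) (nat_lit 4) (nat_lit 6))
    (@En.n l7 (nat_lit 1276) (nat_lit 5) (nat_lit 2))
    (@En.n l9471 (nat_lit 1253) (nat_lit 6) (nat_lit 6))
    (@En.n l134 (nat_lit 2972) (nat_lit 8) (nat_lit 14))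
    (@En.n l1253 (nat_lit 1252) (nat_lit 8) (nat_lit 3))
    (@En.n l248 (nat_lit 2172) (nat_lit 3) (nat_lit 7))
    (@En.n l2593 (nat_lit 610) (nat_lit 11) (nat_lit 10))
    (@En.n l1203 (nat_lit 13661) (nat_lit 5) (nat_lit 13))
    (@En.n l766 (nat_lit 11684) (nat_lit 13) (nat_lit 10))
    (@En.n l17 (nat_lit 1275) (nat_lit 14) (nat_lit 5))
    (@En.n l1203 (nat_lit 1028) (nat_lit 8) (nat_lit 5))
    (@En.n l3 (nat_lit 1276) (nat_lit 15) (nat_lit 2))))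
  (@Cl.mk (nat_lit 0x20007000e000c0002000a000a00040009000c0009000600060004000e0007) (nat_lit 0x8081000200000) (nat_lit 16) Lb.e (@T16.mk En
    (@En.i (nat_lit 1278) (nat_lit 4) (nat_lit 7))
    (@En.n l97 (nat_lit 3132) (nat_lit 1) (nat_lit 14))
    (@En.n l1776 (nat_lit 2542) (nat_lit 2) (nat_lit 4))
    (@En.n l1780 (nat_lit 1275) (nat_lit 10) (nat_lit 6))
    (@En.n l5310 (nat_lit 2534) (nat_lit 8) (nat_lit 6))
    (@En.i (nat_lit 1259) (nat_lit 5) (nat_lit 9))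
    (@En.i (nat_lit 13654) (nat_lit 6) (nat_lit 12))
    (@En.n l5311 (nat_lit 9245) (nat_lit 12) (nat_lit 9))
    (@En.n l4497 (nat_lit 5048) (nat_lit 8) (nat_lit 4))
    (@En.n l61 (nat_lit 1268) (nat_lit 6) (nat_lit 10))
    (@En.i (nat_lit 5079) (nat_lit 11) (nat_lit 10))
    (@En.n l7 (nat_lit 1277) (nat_lit 11) (nat_lit 2))
    (@En.i (nat_lit 1280) (nat_lit 13) (nat_lit 12))
    (@En.n l134 (nat_lit 4980) (nat_lit 1) (nat_lit 14))
    (@En.n l5311 (nat_lit 3484) (nat_lit 2) (nat_lit 7))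
    (@En.n l107 (nat_lit 1277) (nat_lit 15) (nat_lit 2))))
  (@Cl.mk (nat_lit 0x200090009000400090009000c000a000700070004000700070006000e000c) (nat_lit 0x700011300000026) (nat_lit 16) Lb.e (@T16.mk En
    (@En.n l1773 (nat_lit 1279) (nat_lit 3) (nat_lit 12))
    (@En.n l134 (nat_lit 4875) (nat_lit 1) (nat_lit 14))
    (@En.n l1774 (nat_lit 3485) (nat_lit 2) (nat_lit 6))
    (@En.n l523 (nat_lit 1281) (nat_lit 3) (nat_lit 7))
    (@En.n l5309 (nat_lit 3221) (nat_lit 4) (nat_lit 7))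
    (@En.n l1776 (nat_lit 2543) (nat_lit 5) (nat_lit 4))
    (@En.n l1780 (nat_lit 1274) (nat_lit 9) (nat_lit 7))
    (@En.n l5310 (nat_lit 2536) (nat_lit 7) (nat_lit 7))
    (@En.i (nat_lit 1270) (nat_lit 9) (nat_lit 10))
    (@En.n l3 (nat_lit 1277) (nat_lit 6) (nat_lit 12))
    (@En.n l527 (nat_lit 1277) (nat_lit 7) (nat_lit 9))
    (@En.n l5311 (nat_lit 9248) (nat_lit 12) (nat_lit 9))
    (@En.n l4497 (nat_lit 5049) (nat_lit 13) (nat_lit 4))
    (@En.n l61 (nat_lit 1282) (nat_lit 7) (nat_lit 9))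
    (@En.n l4783 (nat_lit 5078) (nat_lit 1) (nat_lit 9))
    (@En.n l7 (nat_lit 1278) (nat_lit 15) (nat_lit 2))))
  (@Cl.mk (nat_lit 0x4000400090009000c000a000800080004000700070006000c000c00080008) (nat_lit 0x30100005760) (nat_lit 16) Lb.e (@T16.mk En
    (@En.n l152 (nat_lit 1352) (nat_lit 8) (nat_lit 8))
    (@En.n l12193 (nat_lit 5083) (nat_lit 1) (nat_lit 8))
    (@En.n l55 (nat_lit 1346) (nat_lit 4) (nat_lit 12))
    (@En.n l12194 (nat_lit 6598) (nat_lit 12) (nat_lit 12))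
    (@En.n l12195 (nat_lit 3483) (nat_lit 10) (nat_lit 6))
    (@En.n l12196 (nat_lit 1383) (nat_lit 9) (nat_lit 7))
    (@En.n l617 (nat_lit 3220) (nat_lit 11) (nat_lit 7))
    (@En.n l12197 (nat_lit 6784) (nat_lit 7) (nat_lit 4))
    (@En.n l3536 (nat_lit 1253) (nat_lit 8) (nat_lit 8))
    (@En.n l12198 (nat_lit 6711) (nat_lit 1) (nat_lit 8))
    (@En.n l1968 (nat_lit 1256) (nat_lit 11) (nat_lit 10))
    (@En.n l12199 (nat_lit 1280) (nat_lit 6) (nat_lit 12))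
    (@En.n l12200 (nat_lit 1280) (nat_lit 7) (nat_lit 9))
    (@En.n l12201 (nat_lit 11740) (nat_lit 5) (nat_lit 9))
    (@En.n l4640 (nat_lit 1278) (nat_lit 12) (nat_lit 4))
    (@En.n l3535 (nat_lit 5090) (nat_lit 0) (nat_lit 4))))
noncomputable def a80 : T16 Cl := @T16.mk Cl
  (@Cl.mk (nat_lit 0x20007000c000c00090009000400040009000c0009000700070004000e0007) (nat_lit 0x7073007a200000) (nat_lit 16) Lb.e (@T16.mk En
    (@En.n l1773 (nat_lit 1279) (nat_lit 6) (nat_lit 7))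
    (@En.n l97 (nat_lit 2982) (nat_lit 1) (nat_lit 14))
    (@En.n l25890 (nat_lit 6804) (nat_lit 2) (nat_lit 4))
    (@En.n l25891 (nat_lit 1276) (nat_lit 9) (nat_lit 7))
    (@En.n l11992 (nat_lit 6712) (nat_lit 4) (nat_lit 7))
    (@En.i (nat_lit 1257) (nat_lit 5) (nat_lit 9))
    (@En.n l11992 (nat_lit 13651) (nat_lit 6) (nat_lit 12))
    (@En.n l4393 (nat_lit 11741) (nat_lit 8) (nat_lit 9))
    (@En.n l77 (nat_lit 1277) (nat_lit 8) (nat_lit 4))
    (@En.n l25892 (nat_lit 5091) (nat_lit 9) (nat_lit 4))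
    (@En.n l5653 (nat_lit 1269) (nat_lit 7) (nat_lit 9))
    (@En.n l25893 (nat_lit 5082) (nat_lit 12) (nat_lit 9))
    (@En.n l25894 (nat_lit 1345) (nat_lit 13) (nat_lit 12))
    (@En.n l25895 (nat_lit 6605) (nat_lit 14) (nat_lit 12))
    (@En.n l5311 (nat_lit 3482) (nat_lit 4) (nat_lit 7))
    (@En.n l107 (nat_lit 1280) (nat_lit 15) (nat_lit 2))))
  (@Cl.mk (nat_lit 0x2000800080004000e00090002000c000b00080008000400070005000e000c) (nat_lit 0x10240000085) (nat_lit 16) Lb.e (@T16.mk En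
    (@En.n l1739 (nat_lit 1383) (nat_lit 7) (nat_lit 12))
    (@En.n l1740 (nat_lit 4991) (nat_lit 1) (nat_lit 14))
    (@En.n l17 (nat_lit 2551) (nat_lit 2) (nat_lit 5))
    (@En.n l1741 (nat_lit 3616) (nat_lit 3) (nat_lit 7))
    (@En.n l1742 (nat_lit 6782) (nat_lit 4) (nat_lit 4))
    (@En.n l1743 (nat_lit 1382) (nat_lit 8) (nat_lit 8))
    (@En.n l1744 (nat_lit 6776) (nat_lit 6) (nat_lit 8))
    (@En.i (nat_lit 1328) (nat_lit 8) (nat_lit 11))
    (@En.n l1745 (nat_lit 1278) (nat_lit 9) (nat_lit 12))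
    (@En.n l7 (nat_lit 1281) (nat_lit 9) (nat_lit 2))
    (@En.n l1746 (nat_lit 1278) (nat_lit 11) (nat_lit 9))
    (@En.n l1747 (nat_lit 11335) (nat_lit 1) (nat_lit 14))
    (@En.i (nat_lit 5093) (nat_lit 2) (nat_lit 4))
    (@En.n l1748 (nat_lit 1384) (nat_lit 8) (nat_lit 8))
    (@En.n l1749 (nat_lit 5089) (nat_lit 4) (nat_lit 8))
    (@En.n l67 (nat_lit 1281) (nat_lit 15) (nat_lit 2))))
  (@Cl.mk (nat_lit 0x20005000800080007000e000d00020009000300080008000b0009000e0007) (nat_lit 0x500b6070011370) (nat_lit 16) Lb.e (@T16.mk En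
    (@En.i (nat_lit 1278) (nat_lit 7) (nat_lit 7))
    (@En.n l524 (nat_lit 1265) (nat_lit 9) (nat_lit 14))
    (@En.i (nat_lit 1239) (nat_lit 10) (nat_lit 9))
    (@En.n l3 (nat_lit 1268) (nat_lit 3) (nat_lit 11))
    (@En.n l527 (nat_lit 1268) (nat_lit 4) (nat_lit 8))
    (@En.n l532 (nat_lit 5509) (nat_lit 5) (nat_lit 8))
    (@En.n l1772 (nat_lit 1352) (nat_lit 6) (nat_lit 3))
    (@En.i (nat_lit 1432) (nat_lit 0) (nat_lit 9))
    (@En.n l7 (nat_lit 1282) (nat_lit 8) (nat_lit 2))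
    (@En.n l1773 (nat_lit 1352) (nat_lit 10) (nat_lit 13))
    (@En.n l532 (nat_lit 4981) (nat_lit 11) (nat_lit 14))
    (@En.n l1774 (nat_lit 3487) (nat_lit 12) (nat_lit 7))
    (@En.i (nat_lit 1384) (nat_lit 13) (nat_lit 8))
    (@En.n l1775 (nat_lit 3217) (nat_lit 4) (nat_lit 8))
    (@En.n l1776 (nat_lit 3669) (nat_lit 5) (nat_lit 5))
    (@En.n l17 (nat_lit 1282) (nat_lit 15) (nat_lit 2))))
  (@Cl.mk (nat_lit 0x200050005000e000a0002000d000c0009000300060004000b000b000e0007) (nat_lit 0x107400000070) (nat_lit 16) Lb.e (@T16.mk En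
    (@En.n l4578 (nat_lit 1383) (nat_lit 5) (nat_lit 7))
    (@En.n l8261 (nat_lit 1347) (nat_lit 7) (nat_lit 14))
    (@En.n l8262 (nat_lit 1347) (nat_lit 8) (nat_lit 11))
    (@En.i (nat_lit 6955) (nat_lit 3) (nat_lit 11))
    (@En.n l8263 (nat_lit 2708) (nat_lit 4) (nat_lit 4))
    (@En.n l8264 (nat_lit 2862) (nat_lit 5) (nat_lit 6))
    (@En.n l8265 (nat_lit 1249) (nat_lit 6) (nat_lit 3))
    (@En.i (nat_lit 2484) (nat_lit 0) (nat_lit 9))
    (@En.n l8266 (nat_lit 1330) (nat_lit 9) (nat_lit 12))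
    (@En.n l3144 (nat_lit 1253) (nat_lit 10) (nat_lit 13))
    (@En.n l18 (nat_lit 1283) (nat_lit 10) (nat_lit 2))
    (@En.n l1501 (nat_lit 1253) (nat_lit 12) (nat_lit 10))
    (@En.n l420 (nat_lit 11696) (nat_lit 13) (nat_lit 14))
    (@En.n l7984 (nat_lit 1382) (nat_lit 14) (nat_lit 5))
    (@En.n l8263 (nat_lit 1024) (nat_lit 13) (nat_lit 5))
    (@En.n l11 (nat_lit 1283) (nat_lit 15) (nat_lit 2))))
  (@Cl.mk (nat_lit 0x20005000e000d0002000b0003000a0009000e00050002000b0006000e0007) (nat_lit 0x8010715004000) (nat_lit 16) Lb.e (@T16.mk En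
    (@En.n l107 (nat_lit 1239) (nat_lit 4) (nat_lit 7))
    (@En.n l1572 (nat_lit 1285) (nat_lit 1) (nat_lit 14))
    (@En.n l1572 (nat_lit 2008) (nat_lit 14) (nat_lit 6))
    (@En.n l3478 (nat_lit 335) (nat_lit 3) (nat_lit 11))
    (@En.n l17 (nat_lit 1284) (nat_lit 4) (nat_lit 2))
    (@En.n l4186 (nat_lit 993) (nat_lit 5) (nat_lit 5))
    (@En.n l2055 (nat_lit 1149) (nat_lit 7) (nat_lit 14))
    (@En.i (nat_lit 450) (nat_lit 2) (nat_lit 9))
    (@En.n l2691 (nat_lit 9121) (nat_lit 9) (nat_lit 10))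
    (@En.i (nat_lit 1240) (nat_lit 9) (nat_lit 3))
    (@En.n l1016 (nat_lit 423) (nat_lit 11) (nat_lit 11))
    (@En.n l7 (nat_lit 1284) (nat_lit 11) (nat_lit 2))
    (@En.n l601 (nat_lit 1240) (nat_lit 13) (nat_lit 13))
    (@En.n l1016 (nat_lit 5073) (nat_lit 9) (nat_lit 14))
    (@En.n l159 (nat_lit 1261) (nat_lit 13) (nat_lit 5))
    (@En.n l11 (nat_lit 1284) (nat_lit 15) (nat_lit 2))))
  (@Cl.mk (nat_lit 0x200090005000e000d0002000b00030007000a000e00050002000b000e0006) (nat_lit 0x2008010016003c0) (nat_lit 16) Lb.e (@T16.mk En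
    (@En.n l4871 (nat_lit 1235) (nat_lit 5) (nat_lit 6))
    (@En.i (nat_lit 3396) (nat_lit 7) (nat_lit 14))
    (@En.n l1722 (nat_lit 341) (nat_lit 2) (nat_lit 11))
    (@En.n l17 (nat_lit 1285) (nat_lit 3) (nat_lit 2))
    (@En.n l2869 (nat_lit 992) (nat_lit 4) (nat_lit 5))
    (@En.n l1638 (nat_lit 1145) (nat_lit 6) (nat_lit 14))
    (@En.i (nat_lit 449) (nat_lit 8) (nat_lit 10))
    (@En.i (nat_lit 5923) (nat_lit 7) (nat_lit 7))
    (@En.i (nat_lit 1236) (nat_lit 8) (nat_lit 3))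
    (@En.i (nat_lit 420) (nat_lit 0) (nat_lit 11))
    (@En.n l7 (nat_lit 1285) (nat_lit 10) (nat_lit 2))
    (@En.n l601 (nat_lit 1236) (nat_lit 12) (nat_lit 13))
    (@En.n l2036 (nat_lit 6021) (nat_lit 1) (nat_lit 14))
    (@En.n l4870 (nat_lit 1284) (nat_lit 14) (nat_lit 5))
    (@En.n l1758 (nat_lit 1235) (nat_lit 3) (nat_lit 9))
    (@En.n l3 (nat_lit 1285) (nat_lit 15) (nat_lit 2))))
  (@Cl.mk (nat_lit 0x2000a0005000e000a0002000b00060009000d000600050003000b000e0007) (nat_lit 0x60c101015000400) (nat_lit 16) Lb.e (@T16.mk En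
    (@En.n l4871 (nat_lit 1288) (nat_lit 5) (nat_lit 7))
    (@En.i (nat_lit 4971) (nat_lit 7) (nat_lit 14))
    (@En.n l5854 (nat_lit 1570) (nat_lit 2) (nat_lit 11))
    (@En.i (nat_lit 1289) (nat_lit 3) (nat_lit 3))
    (@En.i (nat_lit 1285) (nat_lit 4) (nat_lit 5))
    (@En.n l5854 (nat_lit 1298) (nat_lit 5) (nat_lit 6))
    (@En.n l1638 (nat_lit 1144) (nat_lit 7) (nat_lit 13))
    (@En.i (nat_lit 444) (nat_lit 9) (nat_lit 9))
    (@En.n l998 (nat_lit 6903) (nat_lit 14) (nat_lit 6))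
    (@En.n l5856 (nat_lit 424) (nat_lit 10) (nat_lit 11))
    (@En.n l7 (nat_lit 1286) (nat_lit 10) (nat_lit 2))
    (@En.n l5852 (nat_lit 421) (nat_lit 12) (nat_lit 10))
    (@En.n l14502 (nat_lit 2014) (nat_lit 1) (nat_lit 14))
    (@En.n l4870 (nat_lit 1287) (nat_lit 14) (nat_lit 5))
    (@En.n l1758 (nat_lit 1288) (nat_lit 3) (nat_lit 10))
    (@En.n l3 (nat_lit 1286) (nat_lit 15) (nat_lit 2))))
  (@Cl.mk (nat_lit 0x20005000e000a0002000b00090008000d000600050003000b0007000e0008) (nat_lit 0xc7010160004010) (nat_lit 16) Lb.e (@T16.mk En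
    (@En.n l107 (nat_lit 1396) (nat_lit 4) (nat_lit 8))
    (@En.n l1572 (nat_lit 1286) (nat_lit 1) (nat_lit 14))
    (@En.n l19910 (nat_lit 1999) (nat_lit 6) (nat_lit 7))
    (@En.n l3445 (nat_lit 1567) (nat_lit 3) (nat_lit 11))
    (@En.n l10834 (nat_lit 1291) (nat_lit 4) (nat_lit 3))
    (@En.i (nat_lit 1284) (nat_lit 5) (nat_lit 5))
    (@En.n l3445 (nat_lit 989) (nat_lit 6) (nat_lit 6))
    (@En.n l2055 (nat_lit 1082) (nat_lit 8) (nat_lit 13))
    (@En.i (nat_lit 405) (nat_lit 13) (nat_lit 8))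
    (@En.n l6118 (nat_lit 11519) (nat_lit 10) (nat_lit 9))
    (@En.n l19911 (nat_lit 427) (nat_lit 11) (nat_lit 11))
    (@En.n l7 (nat_lit 1287) (nat_lit 11) (nat_lit 2))
    (@En.n l19912 (nat_lit 1410) (nat_lit 13) (nat_lit 10))
    (@En.n l19913 (nat_lit 7717) (nat_lit 1) (nat_lit 14))
    (@En.n l159 (nat_lit 1397) (nat_lit 13) (nat_lit 5))
    (@En.n l11 (nat_lit 1287) (nat_lit 15) (nat_lit 2))))
  (@Cl.mk (nat_lit 0x2000a000600090009000d000700060003000c00070007000a0004000e0009) (nat_lit 0x1012600040050c6) (nat_lit 16) Lb.e (@T16.mk En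
    (@En.i (nat_lit 1411) (nat_lit 14) (nat_lit 9))
    (@En.n l14422 (nat_lit 2013) (nat_lit 1) (nat_lit 14))
    (@En.n l1898 (nat_lit 1396) (nat_lit 2) (nat_lit 4))
    (@En.n l1899 (nat_lit 1718) (nat_lit 3) (nat_lit 10))
    (@En.n l1900 (nat_lit 1718) (nat_lit 4) (nat_lit 7))
    (@En.n l5320 (nat_lit 2587) (nat_lit 5) (nat_lit 7))
    (@En.n l6594 (nat_lit 1569) (nat_lit 7) (nat_lit 12))
    (@En.i (nat_lit 1290) (nat_lit 7) (nat_lit 3))
    (@En.i (nat_lit 1235) (nat_lit 8) (nat_lit 6))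
    (@En.n l6594 (nat_lit 1299) (nat_lit 10) (nat_lit 7))
    (@En.i (nat_lit 1549) (nat_lit 11) (nat_lit 13))
    (@En.n l1904 (nat_lit 1286) (nat_lit 7) (nat_lit 9))
    (@En.n l5321 (nat_lit 1287) (nat_lit 9) (nat_lit 9))
    (@En.n l8604 (nat_lit 6899) (nat_lit 14) (nat_lit 6))
    (@En.n l50 (nat_lit 426) (nat_lit 12) (nat_lit 10))
    (@En.n l7 (nat_lit 1288) (nat_lit 15) (nat_lit 2))))
  (@Cl.mk (nat_lit 0x2000a0005000e00090002000c00060009000d000400070003000b000e0007) (nat_lit 0xc000015000400) (nat_lit 16) Lb.e (@T16.mk En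
    (@En.n l4871 (nat_lit 1290) (nat_lit 5) (nat_lit 7))
    (@En.i (nat_lit 4879) (nat_lit 7) (nat_lit 14))
    (@En.n l18524 (nat_lit 1667) (nat_lit 2) (nat_lit 11))
    (@En.n l17 (nat_lit 1286) (nat_lit 3) (nat_lit 3))
    (@En.n l826 (nat_lit 1889) (nat_lit 11) (nat_lit 7))
    (@En.n l14619 (nat_lit 1709) (nat_lit 5) (nat_lit 4))
    (@En.n l1638 (nat_lit 1084) (nat_lit 7) (nat_lit 13))
    (@En.n l2575 (nat_lit 408) (nat_lit 9) (nat_lit 9))
    (@En.n l2581 (nat_lit 6904) (nat_lit 14) (nat_lit 6))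
    (@En.n l9508 (nat_lit 1292) (nat_lit 10) (nat_lit 12))
    (@En.n l7 (nat_lit 1289) (nat_lit 10) (nat_lit 2))
    (@En.n l5734 (nat_lit 1292) (nat_lit 12) (nat_lit 9))
    (@En.n l12657 (nat_lit 2015) (nat_lit 1) (nat_lit 14))
    (@En.n l28761 (nat_lit 1291) (nat_lit 14) (nat_lit 5))
    (@En.n l1758 (nat_lit 1290) (nat_lit 3) (nat_lit 10))
    (@En.n l3 (nat_lit 1289) (nat_lit 15) (nat_lit 2))))
  (@Cl.mk (nat_lit 0x2000b000600090009000d000500080003000c00070007000a0004000e0008) (nat_lit 0x2502040080c0) (nat_lit 16) Lb.e (@T16.mk En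
    (@En.n l817 (nat_lit 1293) (nat_lit 14) (nat_lit 8))
    (@En.n l35442 (nat_lit 2016) (nat_lit 1) (nat_lit 14))
    (@En.n l2720 (nat_lit 1295) (nat_lit 2) (nat_lit 4))
    (@En.n l35443 (nat_lit 1296) (nat_lit 3) (nat_lit 10))
    (@En.n l35444 (nat_lit 1296) (nat_lit 4) (nat_lit 7))
    (@En.n l29930 (nat_lit 2585) (nat_lit 5) (nat_lit 7))
    (@En.n l35445 (nat_lit 1669) (nat_lit 7) (nat_lit 12))
    (@En.n l17 (nat_lit 1288) (nat_lit 7) (nat_lit 3))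
    (@En.n l29930 (nat_lit 1234) (nat_lit 10) (nat_lit 8))
    (@En.n l35446 (nat_lit 1705) (nat_lit 9) (nat_lit 5))
    (@En.i (nat_lit 1184) (nat_lit 11) (nat_lit 13))
    (@En.n l1904 (nat_lit 1289) (nat_lit 7) (nat_lit 9))
    (@En.n l19647 (nat_lit 1291) (nat_lit 9) (nat_lit 9))
    (@En.n l35447 (nat_lit 6902) (nat_lit 14) (nat_lit 6))
    (@En.n l816 (nat_lit 1293) (nat_lit 12) (nat_lit 11))
    (@En.n l7 (nat_lit 1290) (nat_lit 15) (nat_lit 2))))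
  (@Cl.mk (nat_lit 0x20005000e00090002000c00090008000d000400070003000b0007000e0008) (nat_lit 0xc7007160004010) (nat_lit 16) Lb.e (@T16.mk En
    (@En.i (nat_lit 1295) (nat_lit 4) (nat_lit 8))
    (@En.n l15153 (nat_lit 1289) (nat_lit 1) (nat_lit 14))
    (@En.n l15154 (nat_lit 2001) (nat_lit 2) (nat_lit 7))
    (@En.i (nat_lit 1668) (nat_lit 3) (nat_lit 11))
    (@En.n l15155 (nat_lit 1287) (nat_lit 4) (nat_lit 3))
    (@En.n l478 (nat_lit 1888) (nat_lit 5) (nat_lit 7))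
    (@En.n l2662 (nat_lit 497) (nat_lit 6) (nat_lit 4))
    (@En.n l15154 (nat_lit 1080) (nat_lit 8) (nat_lit 13))
    (@En.n l15156 (nat_lit 409) (nat_lit 13) (nat_lit 8))
    (@En.n l1236 (nat_lit 11518) (nat_lit 10) (nat_lit 9))
    (@En.n l15157 (nat_lit 1294) (nat_lit 11) (nat_lit 12))
    (@En.n l18 (nat_lit 1291) (nat_lit 11) (nat_lit 2))
    (@En.n l15158 (nat_lit 1294) (nat_lit 13) (nat_lit 9))
    (@En.n l15159 (nat_lit 7713) (nat_lit 1) (nat_lit 14))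
    (@En.n l15160 (nat_lit 1399) (nat_lit 13) (nat_lit 5))
    (@En.n l28 (nat_lit 1291) (nat_lit 15) (nat_lit 2))))
  (@Cl.mk (nat_lit 0x2000b000500090009000c00050008000c0004000700070004000b000e0008) (nat_lit 0x70a0150000580) (nat_lit 16) Lb.e (@T16.mk En
    (@En.n l20666 (nat_lit 1293) (nat_lit 2) (nat_lit 8))
    (@En.n l12527 (nat_lit 4878) (nat_lit 4) (nat_lit 14))
    (@En.n l18 (nat_lit 1670) (nat_lit 2) (nat_lit 11))
    (@En.n l3348 (nat_lit 424) (nat_lit 3) (nat_lit 4))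
    (@En.n l18476 (nat_lit 1289) (nat_lit 4) (nat_lit 7))
    (@En.n l2368 (nat_lit 418) (nat_lit 11) (nat_lit 7))
    (@En.n l7053 (nat_lit 1710) (nat_lit 6) (nat_lit 4))
    (@En.n l5929 (nat_lit 1062) (nat_lit 8) (nat_lit 12))
    (@En.n l3348 (nat_lit 411) (nat_lit 10) (nat_lit 8))
    (@En.n l4712 (nat_lit 6837) (nat_lit 9) (nat_lit 5))
    (@En.n l12529 (nat_lit 1454) (nat_lit 6) (nat_lit 12))
    (@En.n l6147 (nat_lit 1454) (nat_lit 7) (nat_lit 9))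
    (@En.n l5929 (nat_lit 5963) (nat_lit 13) (nat_lit 9))
    (@En.n l28736 (nat_lit 1294) (nat_lit 14) (nat_lit 5))
    (@En.n l28737 (nat_lit 1293) (nat_lit 0) (nat_lit 11))
    (@En.n l3 (nat_lit 1292) (nat_lit 15) (nat_lit 2))))
  (@Cl.mk (nat_lit 0x400080008000b000500080008000c0005000800080004000c00080008000b) (nat_lit 0x609042601305609) (nat_lit 16) Lb.e (@T16.mk En
    (@En.n l33815 (nat_lit 1722) (nat_lit 7) (nat_lit 11))
    (@En.n l33816 (nat_lit 1722) (nat_lit 8) (nat_lit 8))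
    (@En.n l33817 (nat_lit 1754) (nat_lit 14) (nat_lit 8))
    (@En.n l33818 (nat_lit 1672) (nat_lit 3) (nat_lit 12))
    (@En.n l2179 (nat_lit 426) (nat_lit 4) (nat_lit 4))
    (@En.n l2139 (nat_lit 1290) (nat_lit 8) (nat_lit 8))
    (@En.n l2180 (nat_lit 419) (nat_lit 10) (nat_lit 8))
    (@En.n l17829 (nat_lit 1708) (nat_lit 7) (nat_lit 5))
    (@En.i (nat_lit 1042) (nat_lit 7) (nat_lit 12))
    (@En.n l33819 (nat_lit 1292) (nat_lit 8) (nat_lit 8))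
    (@En.n l17491 (nat_lit 1294) (nat_lit 10) (nat_lit 8))
    (@En.n l12289 (nat_lit 6831) (nat_lit 6) (nat_lit 5))
    (@En.n l18 (nat_lit 1456) (nat_lit 7) (nat_lit 11))
    (@En.n l61 (nat_lit 1456) (nat_lit 8) (nat_lit 8))
    (@En.n l1897 (nat_lit 5964) (nat_lit 11) (nat_lit 8))
    (@En.n l7718 (nat_lit 1297) (nat_lit 15) (nat_lit 4))))
  (@Cl.mk (nat_lit 0x2000500090009000c00080007000c0004000700070004000b0008000e0009) (nat_lit 0x67a30400005690) (nat_lit 16) Lb.e (@T16.mk En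
    (@En.n l68 (nat_lit 1297) (nat_lit 1) (nat_lit 9))
    (@En.n l14922 (nat_lit 1292) (nat_lit 1) (nat_lit 14))
    (@En.n l14923 (nat_lit 1460) (nat_lit 2) (nat_lit 8))
    (@En.n l14924 (nat_lit 1671) (nat_lit 3) (nat_lit 11))
    (@En.n l8364 (nat_lit 427) (nat_lit 4) (nat_lit 4))
    (@En.n l14925 (nat_lit 1291) (nat_lit 5) (nat_lit 7))
    (@En.n l14926 (nat_lit 417) (nat_lit 6) (nat_lit 7))
    (@En.n l14927 (nat_lit 495) (nat_lit 7) (nat_lit 4))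
    (@En.n l645 (nat_lit 1076) (nat_lit 9) (nat_lit 12))
    (@En.i (nat_lit 406) (nat_lit 9) (nat_lit 7))
    (@En.n l14928 (nat_lit 9384) (nat_lit 11) (nat_lit 8))
    (@En.n l50 (nat_lit 1453) (nat_lit 12) (nat_lit 12))
    (@En.n l217 (nat_lit 1453) (nat_lit 13) (nat_lit 9))
    (@En.i (nat_lit 6483) (nat_lit 14) (nat_lit 9))
    (@En.n l14929 (nat_lit 1406) (nat_lit 13) (nat_lit 5))
    (@En.n l67 (nat_lit 1294) (nat_lit 15) (nat_lit 2))))
  (@Cl.mk (nat_lit 0x2000b000800080008000d000500080003000c0008000800080004000e0008) (nat_lit 0x270204560086) (nat_lit 16) Lb.e (@T16.mk En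
    (@En.n l26531 (nat_lit 1297) (nat_lit 14) (nat_lit 8))
    (@En.n l12299 (nat_lit 7488) (nat_lit 1) (nat_lit 14))
    (@En.n l26532 (nat_lit 1405) (nat_lit 2) (nat_lit 4))
    (@En.n l26533 (nat_lit 1720) (nat_lit 3) (nat_lit 8))
    (@En.n l26534 (nat_lit 1537) (nat_lit 8) (nat_lit 8))
    (@En.n l12299 (nat_lit 2000) (nat_lit 5) (nat_lit 8))
    (@En.i (nat_lit 1673) (nat_lit 7) (nat_lit 12))
    (@En.n l26535 (nat_lit 1396) (nat_lit 7) (nat_lit 3))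
    (@En.n l12299 (nat_lit 1241) (nat_lit 10) (nat_lit 8))
    (@En.n l9708 (nat_lit 1590) (nat_lit 9) (nat_lit 5))
    (@En.n l7971 (nat_lit 1326) (nat_lit 11) (nat_lit 13))
    (@En.n l55 (nat_lit 1291) (nat_lit 8) (nat_lit 8))
    (@En.n l15156 (nat_lit 1399) (nat_lit 8) (nat_lit 8))
    (@En.n l11917 (nat_lit 11521) (nat_lit 14) (nat_lit 8))
    (@En.n l26536 (nat_lit 1297) (nat_lit 12) (nat_lit 11))
    (@En.n l18 (nat_lit 1295) (nat_lit 15) (nat_lit 2))))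
noncomputable def a81 : T16 Cl := @T16.mk Cl
  (@Cl.mk (nat_lit 0x2000a0006000e00090002000d000600090003000d0007000a0003000e0007) (nat_lit 0x6106020407070) (nat_lit 16) Lb.e (@T16.mk En
    (@En.n l17720 (nat_lit 1722) (nat_lit 5) (nat_lit 7))
    (@En.n l8803 (nat_lit 2021) (nat_lit 1) (nat_lit 14))
    (@En.n l1529 (nat_lit 1720) (nat_lit 2) (nat_lit 3))
    (@En.n l25637 (nat_lit 13216) (nat_lit 8) (nat_lit 10))
    (@En.n l8100 (nat_lit 2584) (nat_lit 4) (nat_lit 7))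
    (@En.n l3766 (nat_lit 2012) (nat_lit 11) (nat_lit 13))
    (@En.n l2982 (nat_lit 1718) (nat_lit 6) (nat_lit 3))
    (@En.i (nat_lit 1230) (nat_lit 9) (nat_lit 9))
    (@En.n l25638 (nat_lit 1707) (nat_lit 14) (nat_lit 6))
    (@En.n l25639 (nat_lit 1182) (nat_lit 10) (nat_lit 13))
    (@En.n l3 (nat_lit 1296) (nat_lit 10) (nat_lit 2))
    (@En.n l25636 (nat_lit 1290) (nat_lit 12) (nat_lit 9))
    (@En.n l11274 (nat_lit 1537) (nat_lit 1) (nat_lit 14))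
    (@En.n l2568 (nat_lit 6901) (nat_lit 14) (nat_lit 6))
    (@En.n l25640 (nat_lit 1722) (nat_lit 3) (nat_lit 10))
    (@En.n l18 (nat_lit 1296) (nat_lit 15) (nat_lit 2))))
  (@Cl.mk (nat_lit 0x400080008000b000700070007000c0005000800080004000c000900090009) (nat_lit 0x569000405305673) (nat_lit 16) Lb.e (@T16.mk En
    (@En.n l28013 (nat_lit 1721) (nat_lit 7) (nat_lit 9))
    (@En.n l1596 (nat_lit 1536) (nat_lit 7) (nat_lit 9))
    (@En.n l28014 (nat_lit 1462) (nat_lit 14) (nat_lit 9))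
    (@En.n l28015 (nat_lit 1421) (nat_lit 3) (nat_lit 12))
    (@En.n l4172 (nat_lit 955) (nat_lit 4) (nat_lit 4))
    (@En.n l28016 (nat_lit 1295) (nat_lit 8) (nat_lit 8))
    (@En.n l28014 (nat_lit 1416) (nat_lit 10) (nat_lit 8))
    (@En.n l1393 (nat_lit 1420) (nat_lit 7) (nat_lit 5))
    (@En.n l14631 (nat_lit 1254) (nat_lit 8) (nat_lit 12))
    (@En.n l11 (nat_lit 1294) (nat_lit 9) (nat_lit 7))
    (@En.n l28017 (nat_lit 1406) (nat_lit 9) (nat_lit 7))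
    (@En.n l28018 (nat_lit 9378) (nat_lit 6) (nat_lit 7))
    (@En.n l50 (nat_lit 1444) (nat_lit 7) (nat_lit 11))
    (@En.n l217 (nat_lit 1444) (nat_lit 8) (nat_lit 8))
    (@En.i (nat_lit 7130) (nat_lit 11) (nat_lit 8))
    (@En.n l13138 (nat_lit 1408) (nat_lit 15) (nat_lit 4))))
  (@Cl.mk (nat_lit 0x200090005000d000a00090003000c0007000a000600040007000b000e0006) (nat_lit 0xb4109010003c0) (nat_lit 16) Lb.e (@T16.mk En
    (@En.n l12661 (nat_lit 1299) (nat_lit 6) (nat_lit 6))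
    (@En.n l27012 (nat_lit 3413) (nat_lit 4) (nat_lit 14))
    (@En.i (nat_lit 1138) (nat_lit 2) (nat_lit 11))
    (@En.n l1685 (nat_lit 616) (nat_lit 3) (nat_lit 7))
    (@En.n l28 (nat_lit 909) (nat_lit 4) (nat_lit 4))
    (@En.n l473 (nat_lit 9527) (nat_lit 5) (nat_lit 6))
    (@En.i (nat_lit 475) (nat_lit 8) (nat_lit 10))
    (@En.n l4316 (nat_lit 6550) (nat_lit 7) (nat_lit 7))
    (@En.n l5011 (nat_lit 1302) (nat_lit 9) (nat_lit 12))
    (@En.n l152 (nat_lit 917) (nat_lit 9) (nat_lit 3))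
    (@En.n l7603 (nat_lit 1289) (nat_lit 11) (nat_lit 9))
    (@En.n l14504 (nat_lit 429) (nat_lit 12) (nat_lit 10))
    (@En.n l2005 (nat_lit 5185) (nat_lit 13) (nat_lit 13))
    (@En.n l699 (nat_lit 989) (nat_lit 14) (nat_lit 5))
    (@En.n l12666 (nat_lit 1299) (nat_lit 4) (nat_lit 9))
    (@En.n l50 (nat_lit 1298) (nat_lit 15) (nat_lit 2))))
  (@Cl.mk (nat_lit 0x3000b0007000a000a000700050008000c0006000600090004000d00090008) (nat_lit 0x801200130070b51) (nat_lit 16) Lb.e (@T16.mk En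
    (@En.n l38693 (nat_lit 1290) (nat_lit 0) (nat_lit 8))
    (@En.n l39968 (nat_lit 1494) (nat_lit 14) (nat_lit 9))
    (@En.n l36054 (nat_lit 1310) (nat_lit 2) (nat_lit 13))
    (@En.n l39969 (nat_lit 983) (nat_lit 3) (nat_lit 4))
    (@En.n l7 (nat_lit 1303) (nat_lit 9) (nat_lit 9))
    (@En.n l644 (nat_lit 1303) (nat_lit 10) (nat_lit 6))
    (@En.n l18757 (nat_lit 2829) (nat_lit 6) (nat_lit 6))
    (@En.i (nat_lit 1139) (nat_lit 7) (nat_lit 12))
    (@En.n l27943 (nat_lit 617) (nat_lit 10) (nat_lit 8))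
    (@En.i (nat_lit 367) (nat_lit 9) (nat_lit 5))
    (@En.n l19318 (nat_lit 9693) (nat_lit 0) (nat_lit 7))
    (@En.n l16140 (nat_lit 1298) (nat_lit 6) (nat_lit 10))
    (@En.n l16141 (nat_lit 989) (nat_lit 8) (nat_lit 10))
    (@En.n l4780 (nat_lit 6551) (nat_lit 14) (nat_lit 7))
    (@En.n l1690 (nat_lit 1300) (nat_lit 11) (nat_lit 11))
    (@En.n l152 (nat_lit 1301) (nat_lit 15) (nat_lit 3))))
  (@Cl.mk (nat_lit 0x40007000a0008000b0006000900090006000500090008000c00070007000a) (nat_lit 0x31701200224000) (nat_lit 16) Lb.e (@T16.mk En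
    (@En.n l7 (nat_lit 1304) (nat_lit 8) (nat_lit 10))
    (@En.n l644 (nat_lit 1304) (nat_lit 9) (nat_lit 7))
    (@En.n l33474 (nat_lit 2831) (nat_lit 3) (nat_lit 7))
    (@En.n l3 (nat_lit 1301) (nat_lit 7) (nat_lit 12))
    (@En.n l3 (nat_lit 1299) (nat_lit 8) (nat_lit 8))
    (@En.n l33475 (nat_lit 977) (nat_lit 10) (nat_lit 9))
    (@En.i (nat_lit 371) (nat_lit 11) (nat_lit 5))
    (@En.n l17732 (nat_lit 9694) (nat_lit 7) (nat_lit 6))
    (@En.n l33476 (nat_lit 1302) (nat_lit 7) (nat_lit 9))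
    (@En.n l16141 (nat_lit 985) (nat_lit 9) (nat_lit 9))
    (@En.n l33477 (nat_lit 2091) (nat_lit 11) (nat_lit 6))
    (@En.n l33478 (nat_lit 4993) (nat_lit 7) (nat_lit 11))
    (@En.n l33479 (nat_lit 1293) (nat_lit 13) (nat_lit 8))
    (@En.n l33474 (nat_lit 1499) (nat_lit 8) (nat_lit 10))
    (@En.n l33480 (nat_lit 5031) (nat_lit 11) (nat_lit 7))
    (@En.n l33481 (nat_lit 980) (nat_lit 15) (nat_lit 4))))
  (@Cl.mk (nat_lit 0x3000b0007000a000a000600050009000c0006000600090004000d0007000a) (nat_lit 0x801200130070b08) (nat_lit 16) Lb.e (@T16.mk En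
    (@En.n l29385 (nat_lit 1507) (nat_lit 0) (nat_lit 10))
    (@En.i (nat_lit 1300) (nat_lit 14) (nat_lit 7))
    (@En.n l2125 (nat_lit 1306) (nat_lit 2) (nat_lit 13))
    (@En.n l5834 (nat_lit 984) (nat_lit 3) (nat_lit 4))
    (@En.n l7 (nat_lit 1305) (nat_lit 9) (nat_lit 9))
    (@En.n l644 (nat_lit 1305) (nat_lit 10) (nat_lit 6))
    (@En.n l23088 (nat_lit 2832) (nat_lit 6) (nat_lit 6))
    (@En.i (nat_lit 1143) (nat_lit 6) (nat_lit 12))
    (@En.n l207 (nat_lit 373) (nat_lit 10) (nat_lit 9))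
    (@En.i (nat_lit 369) (nat_lit 11) (nat_lit 5))
    (@En.n l29361 (nat_lit 9698) (nat_lit 0) (nat_lit 6))
    (@En.n l16140 (nat_lit 917) (nat_lit 6) (nat_lit 10))
    (@En.n l16141 (nat_lit 918) (nat_lit 8) (nat_lit 10))
    (@En.n l4780 (nat_lit 2095) (nat_lit 14) (nat_lit 7))
    (@En.n l29386 (nat_lit 1880) (nat_lit 11) (nat_lit 11))
    (@En.n l117 (nat_lit 1299) (nat_lit 15) (nat_lit 3))))
  (@Cl.mk (nat_lit 0x2000a00050008000b0009000c000600090005000400080007000b000e0007) (nat_lit 0x1064180100204c0) (nat_lit 16) Lb.e (@T16.mk En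
    (@En.n l28730 (nat_lit 1300) (nat_lit 2) (nat_lit 7))
    (@En.i (nat_lit 3420) (nat_lit 4) (nat_lit 14))
    (@En.n l13056 (nat_lit 917) (nat_lit 2) (nat_lit 11))
    (@En.n l13056 (nat_lit 1298) (nat_lit 3) (nat_lit 7))
    (@En.n l20142 (nat_lit 919) (nat_lit 4) (nat_lit 8))
    (@En.n l13385 (nat_lit 913) (nat_lit 5) (nat_lit 4))
    (@En.n l5951 (nat_lit 9528) (nat_lit 6) (nat_lit 5))
    (@En.n l9771 (nat_lit 478) (nat_lit 9) (nat_lit 9))
    (@En.n l8523 (nat_lit 2092) (nat_lit 8) (nat_lit 6))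
    (@En.i (nat_lit 4995) (nat_lit 10) (nat_lit 12))
    (@En.n l6126 (nat_lit 1292) (nat_lit 11) (nat_lit 9))
    (@En.i (nat_lit 1503) (nat_lit 7) (nat_lit 11))
    (@En.n l5951 (nat_lit 6453) (nat_lit 13) (nat_lit 8))
    (@En.n l12633 (nat_lit 985) (nat_lit 14) (nat_lit 5))
    (@En.n l28731 (nat_lit 1300) (nat_lit 0) (nat_lit 10))
    (@En.n l3 (nat_lit 1302) (nat_lit 15) (nat_lit 2))))
  (@Cl.mk (nat_lit 0x2000800060009000d000600090003000d000800070003000a0007000e000a) (nat_lit 0x15060b4007072) (nat_lit 16) Lb.e (@T16.mk En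
    (@En.i (nat_lit 1299) (nat_lit 12) (nat_lit 10))
    (@En.n l601 (nat_lit 1544) (nat_lit 1) (nat_lit 14))
    (@En.n l4780 (nat_lit 6553) (nat_lit 2) (nat_lit 7))
    (@En.n l1690 (nat_lit 1304) (nat_lit 3) (nat_lit 10))
    (@En.n l152 (nat_lit 1305) (nat_lit 4) (nat_lit 3))
    (@En.n l33467 (nat_lit 1296) (nat_lit 0) (nat_lit 7))
    (@En.n l97 (nat_lit 1497) (nat_lit 6) (nat_lit 8))
    (@En.i (nat_lit 5176) (nat_lit 8) (nat_lit 13))
    (@En.n l2364 (nat_lit 1096) (nat_lit 8) (nat_lit 3))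
    (@En.n l5586 (nat_lit 13218) (nat_lit 9) (nat_lit 9))
    (@En.i (nat_lit 2830) (nat_lit 11) (nat_lit 6))
    (@En.i (nat_lit 1312) (nat_lit 12) (nat_lit 13))
    (@En.n l27943 (nat_lit 621) (nat_lit 9) (nat_lit 9))
    (@En.i (nat_lit 366) (nat_lit 14) (nat_lit 6))
    (@En.n l4780 (nat_lit 9688) (nat_lit 5) (nat_lit 8))
    (@En.n l50 (nat_lit 1303) (nat_lit 15) (nat_lit 2))))
  (@Cl.mk (nat_lit 0x200070006000a0009000d0007000a0003000600090007000a0006000e0009) (nat_lit 0x1250800406062) (nat_lit 16) Lb.e (@T16.mk En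
    (@En.i (nat_lit 1300) (nat_lit 9) (nat_lit 9))
    (@En.n l601 (nat_lit 1543) (nat_lit 1) (nat_lit 14))
    (@En.n l4780 (nat_lit 2093) (nat_lit 2) (nat_lit 6))
    (@En.n l17728 (nat_lit 4994) (nat_lit 3) (nat_lit 10))
    (@En.n l7333 (nat_lit 1722) (nat_lit 4) (nat_lit 7))
    (@En.n l17729 (nat_lit 1496) (nat_lit 5) (nat_lit 9))
    (@En.n l3106 (nat_lit 5030) (nat_lit 6) (nat_lit 6))
    (@En.n l17730 (nat_lit 1095) (nat_lit 7) (nat_lit 3))
    (@En.n l5044 (nat_lit 13219) (nat_lit 8) (nat_lit 10))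
    (@En.n l3098 (nat_lit 2833) (nat_lit 10) (nat_lit 7))
    (@En.n l3 (nat_lit 1305) (nat_lit 11) (nat_lit 13))
    (@En.n l3 (nat_lit 1303) (nat_lit 12) (nat_lit 9))
    (@En.n l17731 (nat_lit 1101) (nat_lit 13) (nat_lit 10))
    (@En.i (nat_lit 370) (nat_lit 14) (nat_lit 6))
    (@En.n l17732 (nat_lit 9690) (nat_lit 6) (nat_lit 7))
    (@En.n l50 (nat_lit 1304) (nat_lit 15) (nat_lit 2))))
  (@Cl.mk (nat_lit 0x200070006000a000d000600090003000d000600090003000a0007000e000a) (nat_lit 0x1406080707072) (nat_lit 16) Lb.e (@T16.mk En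
    (@En.i (nat_lit 1301) (nat_lit 12) (nat_lit 10))
    (@En.n l601 (nat_lit 1545) (nat_lit 1) (nat_lit 14))
    (@En.n l4780 (nat_lit 6554) (nat_lit 2) (nat_lit 7))
    (@En.n l281 (nat_lit 1884) (nat_lit 3) (nat_lit 10))
    (@En.n l117 (nat_lit 1303) (nat_lit 4) (nat_lit 3))
    (@En.n l13111 (nat_lit 1872) (nat_lit 5) (nat_lit 9))
    (@En.i (nat_lit 1304) (nat_lit 6) (nat_lit 6))
    (@En.n l2125 (nat_lit 1307) (nat_lit 8) (nat_lit 13))
    (@En.n l2364 (nat_lit 1093) (nat_lit 8) (nat_lit 3))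
    (@En.i (nat_lit 13220) (nat_lit 9) (nat_lit 9))
    (@En.n l3098 (nat_lit 4233) (nat_lit 11) (nat_lit 6))
    (@En.i (nat_lit 1314) (nat_lit 12) (nat_lit 13))
    (@En.n l207 (nat_lit 372) (nat_lit 13) (nat_lit 10))
    (@En.i (nat_lit 368) (nat_lit 14) (nat_lit 6))
    (@En.n l4780 (nat_lit 8771) (nat_lit 5) (nat_lit 7))
    (@En.n l50 (nat_lit 1305) (nat_lit 15) (nat_lit 2))))
  (@Cl.mk (nat_lit 0x30008000b0007000a000a00070005000a0008000600060009000d00060009) (nat_lit 0x200000003000a05) (nat_lit 16) Lb.e (@T16.mk En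
    (@En.n l7277 (nat_lit 1937) (nat_lit 0) (nat_lit 9))
    (@En.n l117 (nat_lit 3184) (nat_lit 8) (nat_lit 6))
    (@En.n l3486 (nat_lit 8573) (nat_lit 6) (nat_lit 13))
    (@En.n l50 (nat_lit 1307) (nat_lit 9) (nat_lit 9))
    (@En.n l217 (nat_lit 1307) (nat_lit 10) (nat_lit 6))
    (@En.n l24852 (nat_lit 9821) (nat_lit 5) (nat_lit 6))
    (@En.n l36597 (nat_lit 1308) (nat_lit 6) (nat_lit 8))
    (@En.n l10882 (nat_lit 1311) (nat_lit 10) (nat_lit 10))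
    (@En.i (nat_lit 5472) (nat_lit 8) (nat_lit 5))
    (@En.n l36598 (nat_lit 9845) (nat_lit 10) (nat_lit 7))
    (@En.n l36599 (nat_lit 1309) (nat_lit 6) (nat_lit 10))
    (@En.n l36600 (nat_lit 6390) (nat_lit 8) (nat_lit 10))
    (@En.n l36601 (nat_lit 3126) (nat_lit 13) (nat_lit 7))
    (@En.i (nat_lit 5035) (nat_lit 7) (nat_lit 11))
    (@En.n l1081 (nat_lit 1300) (nat_lit 12) (nat_lit 8))
    (@En.n l36602 (nat_lit 1310) (nat_lit 15) (nat_lit 3))))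
  (@Cl.mk (nat_lit 0x200080006000b000900060009000d0005000800030007000a0007000e000a) (nat_lit 0x307704000001) (nat_lit 16) Lb.e (@T16.mk En
    (@En.i (nat_lit 1306) (nat_lit 11) (nat_lit 10))
    (@En.n l396 (nat_lit 7519) (nat_lit 1) (nat_lit 14))
    (@En.n l39023 (nat_lit 3125) (nat_lit 2) (nat_lit 7))
    (@En.i (nat_lit 5034) (nat_lit 3) (nat_lit 10))
    (@En.n l1081 (nat_lit 1304) (nat_lit 4) (nat_lit 7))
    (@En.n l1080 (nat_lit 5176) (nat_lit 5) (nat_lit 3))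
    (@En.n l39024 (nat_lit 4644) (nat_lit 0) (nat_lit 8))
    (@En.n l117 (nat_lit 5149) (nat_lit 7) (nat_lit 5))
    (@En.n l3486 (nat_lit 8571) (nat_lit 9) (nat_lit 13))
    (@En.i (nat_lit 13857) (nat_lit 9) (nat_lit 9))
    (@En.n l3486 (nat_lit 9819) (nat_lit 11) (nat_lit 6))
    (@En.n l2642 (nat_lit 5179) (nat_lit 12) (nat_lit 9))
    (@En.n l10882 (nat_lit 5470) (nat_lit 13) (nat_lit 11))
    (@En.i (nat_lit 5479) (nat_lit 14) (nat_lit 6))
    (@En.n l39025 (nat_lit 9844) (nat_lit 9) (nat_lit 8))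
    (@En.n l18 (nat_lit 1307) (nat_lit 15) (nat_lit 2))))
  (@Cl.mk (nat_lit 0x300080004000b0008000b000b000800050008000500050008000d000c0008) (nat_lit 0x201300302000905) (nat_lit 16) Lb.e (@T16.mk En
    (@En.n l23770 (nat_lit 1936) (nat_lit 0) (nat_lit 8))
    (@En.n l217 (nat_lit 5181) (nat_lit 4) (nat_lit 12))
    (@En.n l1834 (nat_lit 8570) (nat_lit 2) (nat_lit 13))
    (@En.n l31058 (nat_lit 5179) (nat_lit 10) (nat_lit 8))
    (@En.n l31059 (nat_lit 5179) (nat_lit 11) (nat_lit 5))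
    (@En.n l27870 (nat_lit 10212) (nat_lit 5) (nat_lit 5))
    (@En.n l31060 (nat_lit 897) (nat_lit 10) (nat_lit 8))
    (@En.n l31061 (nat_lit 5480) (nat_lit 7) (nat_lit 5))
    (@En.i (nat_lit 4321) (nat_lit 0) (nat_lit 8))
    (@En.n l13296 (nat_lit 5184) (nat_lit 5) (nat_lit 11))
    (@En.i (nat_lit 6392) (nat_lit 7) (nat_lit 11))
    (@En.n l31062 (nat_lit 7809) (nat_lit 12) (nat_lit 8))
    (@En.n l31063 (nat_lit 1306) (nat_lit 13) (nat_lit 11))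
    (@En.n l19015 (nat_lit 7510) (nat_lit 14) (nat_lit 4))
    (@En.n l31061 (nat_lit 1299) (nat_lit 0) (nat_lit 8))
    (@En.n l50 (nat_lit 5177) (nat_lit 15) (nat_lit 3))))
  (@Cl.mk (nat_lit 0x20009000d0007000a00030009000c0007000a0006000400090007000e0006) (nat_lit 0x1a0602008000000) (nat_lit 16) Lb.e (@T16.mk En
    (@En.n l21823 (nat_lit 1306) (nat_lit 5) (nat_lit 6))
    (@En.n l253 (nat_lit 7399) (nat_lit 1) (nat_lit 14))
    (@En.i (nat_lit 5184) (nat_lit 2) (nat_lit 7))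
    (@En.n l21824 (nat_lit 5471) (nat_lit 3) (nat_lit 9))
    (@En.n l28 (nat_lit 5478) (nat_lit 4) (nat_lit 4))
    (@En.n l10303 (nat_lit 7191) (nat_lit 5) (nat_lit 6))
    (@En.i (nat_lit 6239) (nat_lit 8) (nat_lit 10))
    (@En.n l21825 (nat_lit 3130) (nat_lit 7) (nat_lit 7))
    (@En.n l10303 (nat_lit 6454) (nat_lit 9) (nat_lit 12))
    (@En.n l5234 (nat_lit 1302) (nat_lit 10) (nat_lit 9))
    (@En.n l13417 (nat_lit 5185) (nat_lit 10) (nat_lit 3))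
    (@En.n l513 (nat_lit 1940) (nat_lit 0) (nat_lit 10))
    (@En.n l21826 (nat_lit 3185) (nat_lit 13) (nat_lit 7))
    (@En.n l10303 (nat_lit 9046) (nat_lit 14) (nat_lit 13))
    (@En.n l21827 (nat_lit 1306) (nat_lit 3) (nat_lit 9))
    (@En.n l50 (nat_lit 1309) (nat_lit 15) (nat_lit 2))))
  (@Cl.mk (nat_lit 0x30008000b0007000a000a0008000500090008000600060009000d00080007) (nat_lit 0x23000a40) (nat_lit 16) Lb.e (@T16.mk En
    (@En.n l34277 (nat_lit 2016) (nat_lit 0) (nat_lit 7))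
    (@En.n l40887 (nat_lit 3183) (nat_lit 0) (nat_lit 8))
    (@En.n l1834 (nat_lit 8575) (nat_lit 6) (nat_lit 13))
    (@En.n l40888 (nat_lit 5176) (nat_lit 9) (nat_lit 9))
    (@En.n l40889 (nat_lit 5176) (nat_lit 10) (nat_lit 6))
    (@En.n l965 (nat_lit 9818) (nat_lit 5) (nat_lit 6))
    (@En.n l17 (nat_lit 5177) (nat_lit 6) (nat_lit 8))
    (@En.i (nat_lit 5186) (nat_lit 10) (nat_lit 9))
    (@En.n l18618 (nat_lit 5476) (nat_lit 8) (nat_lit 5))
    (@En.n l965 (nat_lit 4318) (nat_lit 8) (nat_lit 8))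
    (@En.n l4684 (nat_lit 5185) (nat_lit 6) (nat_lit 10))
    (@En.i (nat_lit 6389) (nat_lit 8) (nat_lit 10))
    (@En.n l40890 (nat_lit 3131) (nat_lit 13) (nat_lit 7))
    (@En.n l20835 (nat_lit 5028) (nat_lit 7) (nat_lit 11))
    (@En.n l15439 (nat_lit 1672) (nat_lit 12) (nat_lit 8))
    (@En.n l31063 (nat_lit 1306) (nat_lit 15) (nat_lit 3))))
  (@Cl.mk (nat_lit 0x40008000b000b0007000a0007000500050008000c0006000c000900040009) (nat_lit 0x200080000701602) (nat_lit 16) Lb.e (@T16.mk En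
    (@En.n l29078 (nat_lit 977) (nat_lit 0) (nat_lit 9))
    (@En.n l29079 (nat_lit 5186) (nat_lit 1) (nat_lit 4))
    (@En.i (nat_lit 1306) (nat_lit 0) (nat_lit 9))
    (@En.n l29080 (nat_lit 1308) (nat_lit 1) (nat_lit 12))
    (@En.n l29081 (nat_lit 5054) (nat_lit 4) (nat_lit 6))
    (@En.n l29082 (nat_lit 8576) (nat_lit 7) (nat_lit 12))
    (@En.n l50 (nat_lit 5470) (nat_lit 10) (nat_lit 8))
    (@En.n l217 (nat_lit 5470) (nat_lit 11) (nat_lit 5))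
    (@En.n l29083 (nat_lit 10089) (nat_lit 8) (nat_lit 5))
    (@En.n l29084 (nat_lit 903) (nat_lit 0) (nat_lit 7))
    (@En.n l29083 (nat_lit 7610) (nat_lit 8) (nat_lit 10))
    (@En.n l29085 (nat_lit 9841) (nat_lit 2) (nat_lit 7))
    (@En.n l29086 (nat_lit 5471) (nat_lit 5) (nat_lit 11))
    (@En.n l29083 (nat_lit 6388) (nat_lit 7) (nat_lit 11))
    (@En.n l29087 (nat_lit 3124) (nat_lit 11) (nat_lit 8))
    (@En.i (nat_lit 5473) (nat_lit 15) (nat_lit 4))))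
noncomputable def a82 : T16 Cl := @T16.mk Cl
  (@Cl.mk (nat_lit 0x200080006000d000500080003000d000d000800030003000a0008000e000b) (nat_lit 0x40508b6008382) (nat_lit 16) Lb.e (@T16.mk En
    (@En.i (nat_lit 1139) (nat_lit 11) (nat_lit 11))
    (@En.n l601 (nat_lit 1125) (nat_lit 1) (nat_lit 14))
    (@En.n l4780 (nat_lit 5903) (nat_lit 2) (nat_lit 8))
    (@En.n l476 (nat_lit 1305) (nat_lit 3) (nat_lit 10))
    (@En.n l152 (nat_lit 1314) (nat_lit 4) (nat_lit 3))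
    (@En.n l23059 (nat_lit 1313) (nat_lit 5) (nat_lit 3))
    (@En.n l97 (nat_lit 1622) (nat_lit 6) (nat_lit 8))
    (@En.n l28597 (nat_lit 1313) (nat_lit 8) (nat_lit 13))
    (@En.i (nat_lit 5179) (nat_lit 9) (nat_lit 13))
    (@En.n l2364 (nat_lit 1098) (nat_lit 9) (nat_lit 3))
    (@En.i (nat_lit 12956) (nat_lit 10) (nat_lit 8))
    (@En.i (nat_lit 1315) (nat_lit 5) (nat_lit 5))
    (@En.n l13138 (nat_lit 383) (nat_lit 13) (nat_lit 13))
    (@En.i (nat_lit 365) (nat_lit 14) (nat_lit 6))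
    (@En.n l4780 (nat_lit 8766) (nat_lit 4) (nat_lit 8))
    (@En.n l50 (nat_lit 1312) (nat_lit 15) (nat_lit 2))))
  (@Cl.mk (nat_lit 0x200090006000d000500080003000d0007000e00030002000a0008000e000b) (nat_lit 0x2060a0c008482) (nat_lit 16) Lb.e (@T16.mk En
    (@En.n l9521 (nat_lit 1140) (nat_lit 12) (nat_lit 11))
    (@En.n l32243 (nat_lit 1201) (nat_lit 13) (nat_lit 14))
    (@En.i (nat_lit 6060) (nat_lit 2) (nat_lit 8))
    (@En.n l32244 (nat_lit 1303) (nat_lit 3) (nat_lit 10))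
    (@En.n l17 (nat_lit 1313) (nat_lit 4) (nat_lit 2))
    (@En.n l13965 (nat_lit 1312) (nat_lit 5) (nat_lit 3))
    (@En.n l28808 (nat_lit 13770) (nat_lit 0) (nat_lit 14))
    (@En.n l32245 (nat_lit 1573) (nat_lit 2) (nat_lit 7))
    (@En.n l32246 (nat_lit 5178) (nat_lit 9) (nat_lit 13))
    (@En.n l32243 (nat_lit 1099) (nat_lit 9) (nat_lit 3))
    (@En.n l28 (nat_lit 13268) (nat_lit 10) (nat_lit 8))
    (@En.n l14161 (nat_lit 1316) (nat_lit 6) (nat_lit 5))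
    (@En.n l77 (nat_lit 386) (nat_lit 8) (nat_lit 13))
    (@En.n l810 (nat_lit 363) (nat_lit 14) (nat_lit 6))
    (@En.n l7747 (nat_lit 9279) (nat_lit 10) (nat_lit 9))
    (@En.n l107 (nat_lit 1313) (nat_lit 15) (nat_lit 2))))
  (@Cl.mk (nat_lit 0x200070006000d000500080003000e000d000200090003000a0008000e000b) (nat_lit 0x3050a90708082) (nat_lit 16) Lb.e (@T16.mk En
    (@En.i (nat_lit 1143) (nat_lit 10) (nat_lit 11))
    (@En.n l601 (nat_lit 1123) (nat_lit 11) (nat_lit 14))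
    (@En.n l4780 (nat_lit 5975) (nat_lit 2) (nat_lit 8))
    (@En.n l11 (nat_lit 1885) (nat_lit 3) (nat_lit 10))
    (@En.n l117 (nat_lit 1312) (nat_lit 4) (nat_lit 3))
    (@En.i (nat_lit 1431) (nat_lit 5) (nat_lit 9))
    (@En.n l3 (nat_lit 1314) (nat_lit 6) (nat_lit 2))
    (@En.i (nat_lit 1312) (nat_lit 8) (nat_lit 13))
    (@En.i (nat_lit 7590) (nat_lit 1) (nat_lit 14))
    (@En.n l2364 (nat_lit 379) (nat_lit 9) (nat_lit 3))
    (@En.i (nat_lit 12959) (nat_lit 10) (nat_lit 8))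
    (@En.i (nat_lit 1317) (nat_lit 4) (nat_lit 5))
    (@En.n l524 (nat_lit 382) (nat_lit 13) (nat_lit 13))
    (@En.i (nat_lit 374) (nat_lit 14) (nat_lit 6))
    (@En.n l4780 (nat_lit 8764) (nat_lit 7) (nat_lit 7))
    (@En.n l50 (nat_lit 1314) (nat_lit 15) (nat_lit 2))))
  (@Cl.mk (nat_lit 0x3000300090008000d000b000a000300090007000500080006000d000d0007) (nat_lit 0x1000000000) (nat_lit 16) Lb.e (@T16.mk En
    (@En.n l97 (nat_lit 3134) (nat_lit 0) (nat_lit 7))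
    (@En.n l17028 (nat_lit 1316) (nat_lit 3) (nat_lit 13))
    (@En.i (nat_lit 10210) (nat_lit 2) (nat_lit 13))
    (@En.n l11386 (nat_lit 1211) (nat_lit 3) (nat_lit 6))
    (@En.n l1723 (nat_lit 3915) (nat_lit 10) (nat_lit 8))
    (@En.n l28705 (nat_lit 6329) (nat_lit 5) (nat_lit 5))
    (@En.i (nat_lit 4275) (nat_lit 6) (nat_lit 7))
    (@En.n l4780 (nat_lit 9730) (nat_lit 8) (nat_lit 9))
    (@En.n l22900 (nat_lit 1319) (nat_lit 8) (nat_lit 3))
    (@En.n l6444 (nat_lit 1098) (nat_lit 0) (nat_lit 10))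
    (@En.n l5838 (nat_lit 1318) (nat_lit 11) (nat_lit 11))
    (@En.n l601 (nat_lit 1322) (nat_lit 12) (nat_lit 13))
    (@En.n l4780 (nat_lit 5629) (nat_lit 13) (nat_lit 8))
    (@En.n l3517 (nat_lit 4233) (nat_lit 4) (nat_lit 9))
    (@En.n l152 (nat_lit 1317) (nat_lit 13) (nat_lit 3))
    (@En.n l3520 (nat_lit 1316) (nat_lit 0) (nat_lit 3))))
  (@Cl.mk (nat_lit 0x200090008000d000b000a0003000a0007000500080006000d0006000e0003) (nat_lit 0x1000000b000) (nat_lit 16) Lb.e (@T16.mk En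
    (@En.n l8602 (nat_lit 1315) (nat_lit 15) (nat_lit 3))
    (@En.n l1724 (nat_lit 13787) (nat_lit 0) (nat_lit 14))
    (@En.n l4446 (nat_lit 3160) (nat_lit 2) (nat_lit 6))
    (@En.n l22348 (nat_lit 10214) (nat_lit 4) (nat_lit 13))
    (@En.n l25719 (nat_lit 1212) (nat_lit 4) (nat_lit 6))
    (@En.i (nat_lit 3930) (nat_lit 5) (nat_lit 8))
    (@En.n l6900 (nat_lit 6331) (nat_lit 6) (nat_lit 5))
    (@En.n l9893 (nat_lit 4271) (nat_lit 7) (nat_lit 7))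
    (@En.n l34321 (nat_lit 9284) (nat_lit 9) (nat_lit 10))
    (@En.n l34322 (nat_lit 1323) (nat_lit 9) (nat_lit 3))
    (@En.n l34323 (nat_lit 1099) (nat_lit 0) (nat_lit 10))
    (@En.n l34324 (nat_lit 1320) (nat_lit 12) (nat_lit 11))
    (@En.n l34325 (nat_lit 3258) (nat_lit 13) (nat_lit 13))
    (@En.n l7235 (nat_lit 5631) (nat_lit 14) (nat_lit 8))
    (@En.n l34326 (nat_lit 2830) (nat_lit 4) (nat_lit 9))
    (@En.n l50 (nat_lit 1316) (nat_lit 15) (nat_lit 2))))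
  (@Cl.mk (nat_lit 0x20008000300090008000d000b000a000300080007000500080006000e000d) (nat_lit 0x100000001) (nat_lit 16) Lb.e (@T16.mk En
    (@En.i (nat_lit 1315) (nat_lit 2) (nat_lit 13))
    (@En.n l15752 (nat_lit 10205) (nat_lit 1) (nat_lit 14))
    (@En.n l11386 (nat_lit 3006) (nat_lit 2) (nat_lit 6))
    (@En.n l1723 (nat_lit 3986) (nat_lit 3) (nat_lit 8))
    (@En.n l22978 (nat_lit 6330) (nat_lit 4) (nat_lit 5))
    (@En.i (nat_lit 4288) (nat_lit 5) (nat_lit 7))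
    (@En.n l2869 (nat_lit 9732) (nat_lit 6) (nat_lit 8))
    (@En.n l7667 (nat_lit 1324) (nat_lit 7) (nat_lit 3))
    (@En.n l6444 (nat_lit 379) (nat_lit 0) (nat_lit 10))
    (@En.n l5838 (nat_lit 1321) (nat_lit 10) (nat_lit 11))
    (@En.n l601 (nat_lit 1325) (nat_lit 11) (nat_lit 13))
    (@En.n l26270 (nat_lit 5630) (nat_lit 12) (nat_lit 8))
    (@En.n l2943 (nat_lit 3423) (nat_lit 13) (nat_lit 9))
    (@En.n l117 (nat_lit 1315) (nat_lit 14) (nat_lit 3))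
    (@En.i (nat_lit 5079) (nat_lit 0) (nat_lit 8))
    (@En.n l3 (nat_lit 1317) (nat_lit 15) (nat_lit 2))))
  (@Cl.mk (nat_lit 0x30003000a0008000b0009000c000800060005000400080007000d000d0008) (nat_lit 0x910000010000) (nat_lit 16) Lb.e (@T16.mk En
    (@En.n l97 (nat_lit 3145) (nat_lit 0) (nat_lit 8))
    (@En.n l21183 (nat_lit 1320) (nat_lit 3) (nat_lit 13))
    (@En.n l16768 (nat_lit 10212) (nat_lit 2) (nat_lit 13))
    (@En.n l13384 (nat_lit 1322) (nat_lit 3) (nat_lit 7))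
    (@En.n l6204 (nat_lit 1315) (nat_lit 4) (nat_lit 8))
    (@En.n l18233 (nat_lit 1319) (nat_lit 5) (nat_lit 4))
    (@En.n l237 (nat_lit 6326) (nat_lit 6) (nat_lit 5))
    (@En.i (nat_lit 4274) (nat_lit 7) (nat_lit 6))
    (@En.n l20140 (nat_lit 9729) (nat_lit 9) (nat_lit 8))
    (@En.i (nat_lit 5325) (nat_lit 6) (nat_lit 12))
    (@En.n l2724 (nat_lit 1128) (nat_lit 11) (nat_lit 9))
    (@En.i (nat_lit 3114) (nat_lit 7) (nat_lit 11))
    (@En.n l40365 (nat_lit 5626) (nat_lit 13) (nat_lit 8))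
    (@En.i (nat_lit 2832) (nat_lit 14) (nat_lit 10))
    (@En.n l152 (nat_lit 1321) (nat_lit 13) (nat_lit 3))
    (@En.n l21562 (nat_lit 1320) (nat_lit 0) (nat_lit 3))))
  (@Cl.mk (nat_lit 0x3000300090008000d0009000c000300090007000400080007000d000d0007) (nat_lit 0x0) (nat_lit 16) Lb.e (@T16.mk En
    (@En.n l31004 (nat_lit 3136) (nat_lit 0) (nat_lit 7))
    (@En.n l34035 (nat_lit 1323) (nat_lit 3) (nat_lit 13))
    (@En.n l34036 (nat_lit 10211) (nat_lit 10) (nat_lit 13))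
    (@En.n l1240 (nat_lit 3010) (nat_lit 3) (nat_lit 7))
    (@En.n l34037 (nat_lit 2081) (nat_lit 4) (nat_lit 8))
    (@En.n l13633 (nat_lit 4496) (nat_lit 5) (nat_lit 4))
    (@En.n l8453 (nat_lit 4276) (nat_lit 6) (nat_lit 7))
    (@En.n l34038 (nat_lit 11210) (nat_lit 1) (nat_lit 9))
    (@En.n l9451 (nat_lit 1315) (nat_lit 8) (nat_lit 3))
    (@En.n l34039 (nat_lit 5322) (nat_lit 0) (nat_lit 12))
    (@En.n l8453 (nat_lit 2347) (nat_lit 11) (nat_lit 9))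
    (@En.n l7515 (nat_lit 3019) (nat_lit 12) (nat_lit 13))
    (@En.n l34038 (nat_lit 3981) (nat_lit 13) (nat_lit 8))
    (@En.n l152 (nat_lit 4219) (nat_lit 4) (nat_lit 9))
    (@En.n l2834 (nat_lit 1324) (nat_lit 13) (nat_lit 3))
    (@En.n l31921 (nat_lit 1323) (nat_lit 0) (nat_lit 3))))
  (@Cl.mk (nat_lit 0x2000a0008000b0009000c000900060005000400080007000d0007000e0003) (nat_lit 0x910000010b000) (nat_lit 16) Lb.e (@T16.mk En
    (@En.n l4189 (nat_lit 1318) (nat_lit 15) (nat_lit 3))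
    (@En.n l5939 (nat_lit 13788) (nat_lit 0) (nat_lit 14))
    (@En.n l24754 (nat_lit 3161) (nat_lit 2) (nat_lit 7))
    (@En.n l9939 (nat_lit 10469) (nat_lit 4) (nat_lit 13))
    (@En.n l2491 (nat_lit 3258) (nat_lit 4) (nat_lit 7))
    (@En.n l38253 (nat_lit 1316) (nat_lit 5) (nat_lit 8))
    (@En.n l38254 (nat_lit 1323) (nat_lit 6) (nat_lit 4))
    (@En.n l38255 (nat_lit 6239) (nat_lit 7) (nat_lit 5))
    (@En.n l936 (nat_lit 4270) (nat_lit 8) (nat_lit 6))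
    (@En.n l134 (nat_lit 9288) (nat_lit 10) (nat_lit 9))
    (@En.i (nat_lit 5326) (nat_lit 11) (nat_lit 12))
    (@En.n l27179 (nat_lit 1173) (nat_lit 12) (nat_lit 9))
    (@En.n l7630 (nat_lit 3117) (nat_lit 7) (nat_lit 11))
    (@En.i (nat_lit 5628) (nat_lit 14) (nat_lit 8))
    (@En.i (nat_lit 2829) (nat_lit 14) (nat_lit 10))
    (@En.n l17 (nat_lit 1320) (nat_lit 15) (nat_lit 2))))
  (@Cl.mk (nat_lit 0x200090003000a0008000b0009000c000700060005000400080007000e000d) (nat_lit 0x91000001001) (nat_lit 16) Lb.e (@T16.mk En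
    (@En.i (nat_lit 1318) (nat_lit 2) (nat_lit 13))
    (@En.i (nat_lit 10206) (nat_lit 1) (nat_lit 14))
    (@En.n l13384 (nat_lit 1325) (nat_lit 2) (nat_lit 7))
    (@En.n l6204 (nat_lit 1317) (nat_lit 3) (nat_lit 8))
    (@En.n l9880 (nat_lit 1324) (nat_lit 4) (nat_lit 4))
    (@En.n l237 (nat_lit 6328) (nat_lit 5) (nat_lit 5))
    (@En.i (nat_lit 4287) (nat_lit 6) (nat_lit 6))
    (@En.i (nat_lit 9731) (nat_lit 7) (nat_lit 7))
    (@En.i (nat_lit 5327) (nat_lit 9) (nat_lit 12))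
    (@En.n l2724 (nat_lit 1127) (nat_lit 10) (nat_lit 9))
    (@En.i (nat_lit 3116) (nat_lit 7) (nat_lit 11))
    (@En.n l27108 (nat_lit 5627) (nat_lit 12) (nat_lit 8))
    (@En.n l11 (nat_lit 4532) (nat_lit 13) (nat_lit 10))
    (@En.n l117 (nat_lit 1318) (nat_lit 14) (nat_lit 3))
    (@En.i (nat_lit 5080) (nat_lit 0) (nat_lit 9))
    (@En.n l3 (nat_lit 1321) (nat_lit 15) (nat_lit 2))))
  (@Cl.mk (nat_lit 0x300030009000d000a00090003000c00090007000600040007000d000d0007) (nat_lit 0xb110100000000) (nat_lit 16) Lb.e (@T16.mk En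
    (@En.n l27934 (nat_lit 2990) (nat_lit 0) (nat_lit 7))
    (@En.n l27935 (nat_lit 3258) (nat_lit 3) (nat_lit 13))
    (@En.n l27936 (nat_lit 10172) (nat_lit 2) (nat_lit 13))
    (@En.n l27937 (nat_lit 1213) (nat_lit 11) (nat_lit 7))
    (@En.i (nat_lit 3010) (nat_lit 4) (nat_lit 4))
    (@En.n l5896 (nat_lit 6238) (nat_lit 5) (nat_lit 6))
    (@En.i (nat_lit 4277) (nat_lit 6) (nat_lit 7))
    (@En.n l27938 (nat_lit 8591) (nat_lit 14) (nat_lit 9))
    (@En.n l397 (nat_lit 1318) (nat_lit 9) (nat_lit 12))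
    (@En.n l1927 (nat_lit 3019) (nat_lit 9) (nat_lit 3))
    (@En.n l61 (nat_lit 1126) (nat_lit 0) (nat_lit 9))
    (@En.n l6064 (nat_lit 875) (nat_lit 12) (nat_lit 10))
    (@En.n l27936 (nat_lit 5527) (nat_lit 13) (nat_lit 13))
    (@En.n l476 (nat_lit 2827) (nat_lit 14) (nat_lit 9))
    (@En.n l152 (nat_lit 1325) (nat_lit 13) (nat_lit 3))
    (@En.n l27939 (nat_lit 3258) (nat_lit 0) (nat_lit 3))))
  (@Cl.mk (nat_lit 0x200090008000d0009000c0003000a0007000400080007000d0006000e0003) (nat_lit 0xb000) (nat_lit 16) Lb.e (@T16.mk En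
    (@En.n l40396 (nat_lit 1319) (nat_lit 15) (nat_lit 3))
    (@En.n l17405 (nat_lit 13785) (nat_lit 0) (nat_lit 14))
    (@En.n l40397 (nat_lit 3163) (nat_lit 2) (nat_lit 6))
    (@En.i (nat_lit 10468) (nat_lit 4) (nat_lit 13))
    (@En.n l40398 (nat_lit 3012) (nat_lit 4) (nat_lit 7))
    (@En.n l38101 (nat_lit 2080) (nat_lit 5) (nat_lit 8))
    (@En.n l9858 (nat_lit 6254) (nat_lit 6) (nat_lit 4))
    (@En.n l27207 (nat_lit 4272) (nat_lit 7) (nat_lit 7))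
    (@En.n l40399 (nat_lit 11147) (nat_lit 9) (nat_lit 10))
    (@En.n l32902 (nat_lit 1316) (nat_lit 9) (nat_lit 3))
    (@En.n l27207 (nat_lit 5323) (nat_lit 0) (nat_lit 12))
    (@En.n l40400 (nat_lit 2362) (nat_lit 12) (nat_lit 9))
    (@En.i (nat_lit 3259) (nat_lit 13) (nat_lit 13))
    (@En.n l6918 (nat_lit 3982) (nat_lit 14) (nat_lit 8))
    (@En.n l30599 (nat_lit 4220) (nat_lit 4) (nat_lit 9))
    (@En.n l7 (nat_lit 1323) (nat_lit 15) (nat_lit 2))))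
  (@Cl.mk (nat_lit 0x20008000300090008000d0009000c000300080007000400080007000e000d) (nat_lit 0x1) (nat_lit 16) Lb.e (@T16.mk En
    (@En.n l18443 (nat_lit 1319) (nat_lit 2) (nat_lit 13))
    (@En.n l18444 (nat_lit 10204) (nat_lit 1) (nat_lit 14))
    (@En.n l649 (nat_lit 3011) (nat_lit 2) (nat_lit 7))
    (@En.n l8361 (nat_lit 3912) (nat_lit 3) (nat_lit 8))
    (@En.n l12843 (nat_lit 4495) (nat_lit 4) (nat_lit 4))
    (@En.i (nat_lit 4285) (nat_lit 5) (nat_lit 7))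
    (@En.n l16495 (nat_lit 11211) (nat_lit 6) (nat_lit 8))
    (@En.n l17509 (nat_lit 1317) (nat_lit 7) (nat_lit 3))
    (@En.n l18445 (nat_lit 5324) (nat_lit 0) (nat_lit 12))
    (@En.n l17510 (nat_lit 2345) (nat_lit 10) (nat_lit 9))
    (@En.n l5014 (nat_lit 4490) (nat_lit 11) (nat_lit 13))
    (@En.n l16495 (nat_lit 3985) (nat_lit 12) (nat_lit 8))
    (@En.n l17 (nat_lit 3421) (nat_lit 13) (nat_lit 9))
    (@En.n l3517 (nat_lit 1319) (nat_lit 14) (nat_lit 3))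
    (@En.n l18446 (nat_lit 5045) (nat_lit 0) (nat_lit 8))
    (@En.n l50 (nat_lit 1324) (nat_lit 15) (nat_lit 2))))
  (@Cl.mk (nat_lit 0x2000800030009000d000a00090003000c00080007000600040007000e000d) (nat_lit 0xb01010000001) (nat_lit 16) Lb.e (@T16.mk En
    (@En.i (nat_lit 1322) (nat_lit 2) (nat_lit 13))
    (@En.n l5854 (nat_lit 10203) (nat_lit 1) (nat_lit 14))
    (@En.n l15189 (nat_lit 2951) (nat_lit 2) (nat_lit 7))
    (@En.n l947 (nat_lit 3011) (nat_lit 3) (nat_lit 4))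
    (@En.n l27016 (nat_lit 6332) (nat_lit 4) (nat_lit 6))
    (@En.i (nat_lit 4286) (nat_lit 5) (nat_lit 7))
    (@En.n l27017 (nat_lit 9737) (nat_lit 6) (nat_lit 8))
    (@En.n l397 (nat_lit 1321) (nat_lit 8) (nat_lit 12))
    (@En.n l1927 (nat_lit 4490) (nat_lit 8) (nat_lit 3))
    (@En.n l61 (nat_lit 1124) (nat_lit 10) (nat_lit 9))
    (@En.n l6064 (nat_lit 3115) (nat_lit 11) (nat_lit 10))
    (@En.n l15189 (nat_lit 5528) (nat_lit 12) (nat_lit 13))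
    (@En.n l3972 (nat_lit 3410) (nat_lit 13) (nat_lit 9))
    (@En.n l117 (nat_lit 1322) (nat_lit 14) (nat_lit 3))
    (@En.n l22060 (nat_lit 5082) (nat_lit 0) (nat_lit 8))
    (@En.n l3 (nat_lit 1325) (nat_lit 15) (nat_lit 2))))
  (@Cl.mk (nat_lit 0x2000c00080008000d000400070003000c000c0008000800040004000e0009) (nat_lit 0x106600001100091) (nat_lit 16) Lb.e (@T16.mk En
    (@En.n l817 (nat_lit 1254) (nat_lit 13) (nat_lit 9))
    (@En.n l10690 (nat_lit 10355) (nat_lit 1) (nat_lit 14))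
    (@En.n l11 (nat_lit 1329) (nat_lit 12) (nat_lit 4))
    (@En.n l152 (nat_lit 1183) (nat_lit 3) (nat_lit 4))
    (@En.n l10691 (nat_lit 1386) (nat_lit 4) (nat_lit 8))
    (@En.n l10692 (nat_lit 1178) (nat_lit 5) (nat_lit 8))
    (@En.n l10693 (nat_lit 624) (nat_lit 7) (nat_lit 12))
    (@En.n l2720 (nat_lit 6696) (nat_lit 8) (nat_lit 12))
    (@En.n l17 (nat_lit 1327) (nat_lit 8) (nat_lit 3))
    (@En.n l10694 (nat_lit 2698) (nat_lit 11) (nat_lit 7))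
    (@En.n l5254 (nat_lit 1383) (nat_lit 10) (nat_lit 4))
    (@En.i (nat_lit 1085) (nat_lit 12) (nat_lit 13))
    (@En.n l282 (nat_lit 1249) (nat_lit 8) (nat_lit 8))
    (@En.n l10694 (nat_lit 8479) (nat_lit 14) (nat_lit 8))
    (@En.n l816 (nat_lit 1254) (nat_lit 11) (nat_lit 12))
    (@En.n l7 (nat_lit 1326) (nat_lit 15) (nat_lit 2))))
  (@Cl.mk (nat_lit 0x2000b00080008000d000600050003000c000c0008000800040004000e000a) (nat_lit 0x360600001010071) (nat_lit 16) Lb.e (@T16.mk En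
    (@En.i (nat_lit 1256) (nat_lit 13) (nat_lit 10))
    (@En.n l12202 (nat_lit 12092) (nat_lit 1) (nat_lit 14))
    (@En.n l11 (nat_lit 1328) (nat_lit 12) (nat_lit 4))
    (@En.n l152 (nat_lit 1546) (nat_lit 3) (nat_lit 4))
    (@En.n l5307 (nat_lit 1237) (nat_lit 4) (nat_lit 8))
    (@En.i (nat_lit 1544) (nat_lit 5) (nat_lit 8))
    (@En.n l12203 (nat_lit 623) (nat_lit 7) (nat_lit 12))
    (@En.i (nat_lit 7144) (nat_lit 8) (nat_lit 12))
    (@En.i (nat_lit 1326) (nat_lit 8) (nat_lit 3))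
    (@En.i (nat_lit 2556) (nat_lit 9) (nat_lit 5))
    (@En.i (nat_lit 1336) (nat_lit 11) (nat_lit 6))
    (@En.i (nat_lit 1102) (nat_lit 12) (nat_lit 13))
    (@En.n l282 (nat_lit 1330) (nat_lit 8) (nat_lit 8))
    (@En.n l12204 (nat_lit 8442) (nat_lit 14) (nat_lit 8))
    (@En.n l5306 (nat_lit 625) (nat_lit 11) (nat_lit 11))
    (@En.n l7 (nat_lit 1327) (nat_lit 15) (nat_lit 2))))
noncomputable def a83 : T16 Cl := @T16.mk Cl
  (@Cl.mk (nat_lit 0x2000900090004000e000a0002000b00070007000d000600050003000e000c) (nat_lit 0x710300500001) (nat_lit 16) Lb.e (@T16.mk En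
    (@En.n l68 (nat_lit 1327) (nat_lit 7) (nat_lit 12))
    (@En.n l5303 (nat_lit 5382) (nat_lit 1) (nat_lit 14))
    (@En.i (nat_lit 1329) (nat_lit 2) (nat_lit 3))
    (@En.i (nat_lit 2713) (nat_lit 3) (nat_lit 5))
    (@En.n l5304 (nat_lit 1335) (nat_lit 4) (nat_lit 6))
    (@En.i (nat_lit 1021) (nat_lit 6) (nat_lit 13))
    (@En.n l5305 (nat_lit 1331) (nat_lit 9) (nat_lit 7))
    (@En.n l1747 (nat_lit 9258) (nat_lit 14) (nat_lit 7))
    (@En.n l5306 (nat_lit 994) (nat_lit 9) (nat_lit 11))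
    (@En.n l7 (nat_lit 1328) (nat_lit 9) (nat_lit 2))
    (@En.n l1746 (nat_lit 1270) (nat_lit 11) (nat_lit 10))
    (@En.n l1747 (nat_lit 12540) (nat_lit 1) (nat_lit 14))
    (@En.i (nat_lit 1549) (nat_lit 2) (nat_lit 4))
    (@En.n l5307 (nat_lit 1388) (nat_lit 14) (nat_lit 9))
    (@En.n l5308 (nat_lit 1542) (nat_lit 4) (nat_lit 9))
    (@En.n l67 (nat_lit 1328) (nat_lit 15) (nat_lit 2))))
  (@Cl.mk (nat_lit 0x2000900090004000e00090002000c00070007000d000400070003000e000c) (nat_lit 0x200910200400081) (nat_lit 16) Lb.e (@T16.mk En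
    (@En.n l68 (nat_lit 1326) (nat_lit 7) (nat_lit 12))
    (@En.n l4050 (nat_lit 4989) (nat_lit 1) (nat_lit 14))
    (@En.n l17 (nat_lit 1328) (nat_lit 2) (nat_lit 3))
    (@En.n l4051 (nat_lit 2693) (nat_lit 3) (nat_lit 7))
    (@En.i (nat_lit 1281) (nat_lit 4) (nat_lit 4))
    (@En.i (nat_lit 1023) (nat_lit 6) (nat_lit 13))
    (@En.n l4052 (nat_lit 1255) (nat_lit 9) (nat_lit 7))
    (@En.n l1747 (nat_lit 9256) (nat_lit 14) (nat_lit 7))
    (@En.n l4053 (nat_lit 1267) (nat_lit 9) (nat_lit 12))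
    (@En.n l7 (nat_lit 1329) (nat_lit 9) (nat_lit 2))
    (@En.n l4054 (nat_lit 1267) (nat_lit 11) (nat_lit 9))
    (@En.n l1747 (nat_lit 12541) (nat_lit 1) (nat_lit 14))
    (@En.i (nat_lit 1184) (nat_lit 2) (nat_lit 4))
    (@En.n l4055 (nat_lit 1387) (nat_lit 14) (nat_lit 9))
    (@En.n l4056 (nat_lit 1181) (nat_lit 4) (nat_lit 9))
    (@En.n l67 (nat_lit 1329) (nat_lit 15) (nat_lit 2))))
  (@Cl.mk (nat_lit 0x200050005000e000b0002000c0008000d000500040003000b000b000e0008) (nat_lit 0x8103640000001) (nat_lit 16) Lb.e (@T16.mk En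
    (@En.n l3824 (nat_lit 1327) (nat_lit 5) (nat_lit 8))
    (@En.n l6762 (nat_lit 1332) (nat_lit 7) (nat_lit 14))
    (@En.n l6763 (nat_lit 1332) (nat_lit 8) (nat_lit 11))
    (@En.n l6764 (nat_lit 6294) (nat_lit 3) (nat_lit 11))
    (@En.i (nat_lit 1249) (nat_lit 4) (nat_lit 3))
    (@En.i (nat_lit 2709) (nat_lit 5) (nat_lit 4))
    (@En.n l6764 (nat_lit 1334) (nat_lit 6) (nat_lit 5))
    (@En.n l6765 (nat_lit 200) (nat_lit 8) (nat_lit 13))
    (@En.n l6766 (nat_lit 6748) (nat_lit 14) (nat_lit 8))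
    (@En.n l6767 (nat_lit 996) (nat_lit 10) (nat_lit 12))
    (@En.n l7 (nat_lit 1330) (nat_lit 10) (nat_lit 2))
    (@En.i (nat_lit 1247) (nat_lit 12) (nat_lit 11))
    (@En.n l645 (nat_lit 11695) (nat_lit 13) (nat_lit 14))
    (@En.n l6768 (nat_lit 1331) (nat_lit 14) (nat_lit 5))
    (@En.i (nat_lit 1021) (nat_lit 13) (nat_lit 5))
    (@En.n l936 (nat_lit 1330) (nat_lit 15) (nat_lit 2))))
  (@Cl.mk (nat_lit 0x20005000e000b0002000c0007000d000500040003000e000b0002000e0009) (nat_lit 0x810303000b1011) (nat_lit 16) Lb.e (@T16.mk En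
    (@En.n l5918 (nat_lit 1328) (nat_lit 14) (nat_lit 9))
    (@En.n l5919 (nat_lit 1330) (nat_lit 1) (nat_lit 14))
    (@En.n l17 (nat_lit 1331) (nat_lit 2) (nat_lit 2))
    (@En.n l5920 (nat_lit 1330) (nat_lit 3) (nat_lit 11))
    (@En.n l5921 (nat_lit 5384) (nat_lit 1) (nat_lit 14))
    (@En.n l5922 (nat_lit 1255) (nat_lit 5) (nat_lit 3))
    (@En.n l1578 (nat_lit 2711) (nat_lit 6) (nat_lit 4))
    (@En.n l5923 (nat_lit 1337) (nat_lit 7) (nat_lit 5))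
    (@En.n l2036 (nat_lit 199) (nat_lit 9) (nat_lit 13))
    (@En.n l2221 (nat_lit 6751) (nat_lit 14) (nat_lit 7))
    (@En.n l575 (nat_lit 998) (nat_lit 11) (nat_lit 12))
    (@En.n l28 (nat_lit 1331) (nat_lit 11) (nat_lit 2))
    (@En.n l5924 (nat_lit 1271) (nat_lit 13) (nat_lit 11))
    (@En.n l1578 (nat_lit 11363) (nat_lit 1) (nat_lit 14))
    (@En.n l5920 (nat_lit 1144) (nat_lit 13) (nat_lit 5))
    (@En.n l3 (nat_lit 1331) (nat_lit 15) (nat_lit 2))))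
  (@Cl.mk (nat_lit 0x2000c0009000d000500040003000b000e00070002000e00050002000e000b) (nat_lit 0x3730009c0010080) (nat_lit 16) Lb.e (@T16.mk En
    (@En.n l427 (nat_lit 1340) (nat_lit 14) (nat_lit 11))
    (@En.n l1162 (nat_lit 11690) (nat_lit 1) (nat_lit 14))
    (@En.n l17 (nat_lit 1332) (nat_lit 2) (nat_lit 2))
    (@En.n l2291 (nat_lit 1330) (nat_lit 14) (nat_lit 5))
    (@En.n l2292 (nat_lit 1082) (nat_lit 1) (nat_lit 14))
    (@En.n l7 (nat_lit 1332) (nat_lit 5) (nat_lit 2))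
    (@En.i (nat_lit 623) (nat_lit 6) (nat_lit 7))
    (@En.i (nat_lit 13018) (nat_lit 4) (nat_lit 14))
    (@En.n l427 (nat_lit 6293) (nat_lit 9) (nat_lit 11))
    (@En.n l94 (nat_lit 1333) (nat_lit 9) (nat_lit 3))
    (@En.n l2293 (nat_lit 2706) (nat_lit 0) (nat_lit 4))
    (@En.n l427 (nat_lit 1338) (nat_lit 8) (nat_lit 5))
    (@En.n l2294 (nat_lit 176) (nat_lit 13) (nat_lit 13))
    (@En.i (nat_lit 6747) (nat_lit 14) (nat_lit 9))
    (@En.n l1424 (nat_lit 1354) (nat_lit 12) (nat_lit 12))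
    (@En.n l3 (nat_lit 1332) (nat_lit 15) (nat_lit 2))))
  (@Cl.mk (nat_lit 0x2000d0009000d000300060003000b000e00070002000e00050002000e000a) (nat_lit 0x8750009400100a1) (nat_lit 16) Lb.e (@T16.mk En
    (@En.i (nat_lit 1251) (nat_lit 14) (nat_lit 10))
    (@En.n l1163 (nat_lit 11692) (nat_lit 1) (nat_lit 14))
    (@En.n l107 (nat_lit 1333) (nat_lit 2) (nat_lit 2))
    (@En.n l1164 (nat_lit 1249) (nat_lit 14) (nat_lit 5))
    (@En.n l1165 (nat_lit 1080) (nat_lit 1) (nat_lit 14))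
    (@En.n l17 (nat_lit 1333) (nat_lit 5) (nat_lit 2))
    (@En.n l1165 (nat_lit 624) (nat_lit 6) (nat_lit 7))
    (@En.n l169 (nat_lit 12895) (nat_lit 4) (nat_lit 14))
    (@En.n l1166 (nat_lit 6695) (nat_lit 2) (nat_lit 11))
    (@En.n l436 (nat_lit 1332) (nat_lit 9) (nat_lit 3))
    (@En.n l341 (nat_lit 2701) (nat_lit 12) (nat_lit 6))
    (@En.n l50 (nat_lit 1347) (nat_lit 11) (nat_lit 3))
    (@En.n l1166 (nat_lit 201) (nat_lit 0) (nat_lit 13))
    (@En.n l217 (nat_lit 6753) (nat_lit 14) (nat_lit 9))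
    (@En.n l343 (nat_lit 1251) (nat_lit 12) (nat_lit 13))
    (@En.n l28 (nat_lit 1333) (nat_lit 15) (nat_lit 2))))
  (@Cl.mk (nat_lit 0x200050005000d000b000a0003000d0009000500030006000b000b000e0007) (nat_lit 0x9020700000000) (nat_lit 16) Lb.e (@T16.mk En
    (@En.n l16452 (nat_lit 1336) (nat_lit 6) (nat_lit 7))
    (@En.n l3 (nat_lit 1338) (nat_lit 4) (nat_lit 14))
    (@En.n l527 (nat_lit 1338) (nat_lit 5) (nat_lit 11))
    (@En.i (nat_lit 8327) (nat_lit 3) (nat_lit 11))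
    (@En.n l612 (nat_lit 2689) (nat_lit 4) (nat_lit 6))
    (@En.n l50 (nat_lit 1367) (nat_lit 5) (nat_lit 3))
    (@En.n l16545 (nat_lit 609) (nat_lit 6) (nat_lit 5))
    (@En.n l217 (nat_lit 6734) (nat_lit 8) (nat_lit 9))
    (@En.n l8913 (nat_lit 1359) (nat_lit 9) (nat_lit 13))
    (@En.n l28 (nat_lit 1366) (nat_lit 9) (nat_lit 3))
    (@En.n l1164 (nat_lit 1249) (nat_lit 11) (nat_lit 10))
    (@En.i (nat_lit 3199) (nat_lit 12) (nat_lit 11))
    (@En.n l16443 (nat_lit 11730) (nat_lit 13) (nat_lit 13))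
    (@En.n l16546 (nat_lit 1337) (nat_lit 14) (nat_lit 5))
    (@En.n l6714 (nat_lit 1031) (nat_lit 13) (nat_lit 5))
    (@En.n l17 (nat_lit 1334) (nat_lit 15) (nat_lit 2))))
  (@Cl.mk (nat_lit 0x2000800080004000d000a00090003000c00080008000600040007000e000c) (nat_lit 0x702040000000) (nat_lit 16) Lb.e (@T16.mk En
    (@En.n l8046 (nat_lit 1336) (nat_lit 8) (nat_lit 12))
    (@En.n l8606 (nat_lit 9008) (nat_lit 1) (nat_lit 14))
    (@En.n l2942 (nat_lit 2564) (nat_lit 2) (nat_lit 7))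
    (@En.n l8607 (nat_lit 2749) (nat_lit 3) (nat_lit 4))
    (@En.n l8608 (nat_lit 7354) (nat_lit 4) (nat_lit 6))
    (@En.n l8609 (nat_lit 1337) (nat_lit 8) (nat_lit 8))
    (@En.n l18 (nat_lit 9866) (nat_lit 6) (nat_lit 8))
    (@En.n l8610 (nat_lit 3484) (nat_lit 8) (nat_lit 12))
    (@En.n l8611 (nat_lit 2752) (nat_lit 8) (nat_lit 3))
    (@En.n l8612 (nat_lit 1329) (nat_lit 10) (nat_lit 9))
    (@En.n l8613 (nat_lit 3197) (nat_lit 11) (nat_lit 10))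
    (@En.n l18 (nat_lit 9933) (nat_lit 12) (nat_lit 13))
    (@En.n l8614 (nat_lit 4294) (nat_lit 13) (nat_lit 4))
    (@En.n l8615 (nat_lit 3494) (nat_lit 8) (nat_lit 8))
    (@En.n l1723 (nat_lit 2835) (nat_lit 5) (nat_lit 8))
    (@En.n l7 (nat_lit 1335) (nat_lit 15) (nat_lit 2))))
  (@Cl.mk (nat_lit 0x3000c00090009000600040007000c000c0007000700040004000d000a0009) (nat_lit 0x1000a00000902) (nat_lit 16) Lb.e (@T16.mk En
    (@En.n l61 (nat_lit 1326) (nat_lit 0) (nat_lit 9))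
    (@En.n l2750 (nat_lit 3194) (nat_lit 13) (nat_lit 10))
    (@En.n l15452 (nat_lit 11473) (nat_lit 2) (nat_lit 13))
    (@En.n l15453 (nat_lit 1335) (nat_lit 12) (nat_lit 4))
    (@En.n l15454 (nat_lit 4238) (nat_lit 4) (nat_lit 4))
    (@En.n l15455 (nat_lit 3493) (nat_lit 9) (nat_lit 7))
    (@En.n l15456 (nat_lit 2825) (nat_lit 1) (nat_lit 7))
    (@En.n l15457 (nat_lit 1339) (nat_lit 4) (nat_lit 12))
    (@En.n l2750 (nat_lit 8331) (nat_lit 9) (nat_lit 12))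
    (@En.n l15452 (nat_lit 2687) (nat_lit 11) (nat_lit 7))
    (@En.n l2750 (nat_lit 3480) (nat_lit 10) (nat_lit 4))
    (@En.n l14046 (nat_lit 7358) (nat_lit 0) (nat_lit 6))
    (@En.n l15458 (nat_lit 1334) (nat_lit 7) (nat_lit 9))
    (@En.n l15459 (nat_lit 9360) (nat_lit 14) (nat_lit 9))
    (@En.n l15460 (nat_lit 3482) (nat_lit 10) (nat_lit 12))
    (@En.n l6257 (nat_lit 2753) (nat_lit 15) (nat_lit 3))))
  (@Cl.mk (nat_lit 0x20005000d000b000a0003000d0008000500030006000e000b0002000e0008) (nat_lit 0x902076000c1011) (nat_lit 16) Lb.e (@T16.mk En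
    (@En.n l14603 (nat_lit 1335) (nat_lit 14) (nat_lit 8))
    (@En.n l9021 (nat_lit 1334) (nat_lit 1) (nat_lit 14))
    (@En.n l18 (nat_lit 1337) (nat_lit 2) (nat_lit 2))
    (@En.n l14604 (nat_lit 1334) (nat_lit 3) (nat_lit 11))
    (@En.n l13100 (nat_lit 9033) (nat_lit 5) (nat_lit 14))
    (@En.n l8434 (nat_lit 2686) (nat_lit 5) (nat_lit 6))
    (@En.n l8089 (nat_lit 2741) (nat_lit 6) (nat_lit 3))
    (@En.n l13100 (nat_lit 999) (nat_lit 7) (nat_lit 5))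
    (@En.n l14605 (nat_lit 6736) (nat_lit 5) (nat_lit 8))
    (@En.n l7 (nat_lit 1363) (nat_lit 10) (nat_lit 13))
    (@En.n l9628 (nat_lit 2744) (nat_lit 10) (nat_lit 3))
    (@En.n l387 (nat_lit 1255) (nat_lit 12) (nat_lit 10))
    (@En.n l3100 (nat_lit 3202) (nat_lit 13) (nat_lit 11))
    (@En.n l8201 (nat_lit 9928) (nat_lit 14) (nat_lit 13))
    (@En.n l14606 (nat_lit 4273) (nat_lit 13) (nat_lit 5))
    (@En.n l3 (nat_lit 1337) (nat_lit 15) (nat_lit 2))))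
  (@Cl.mk (nat_lit 0x2000d000b000a0003000d000a000500030006000b000e00060002000e0005) (nat_lit 0x9020900009c0000) (nat_lit 16) Lb.e (@T16.mk En
    (@En.i (nat_lit 1334) (nat_lit 14) (nat_lit 5))
    (@En.n l97 (nat_lit 4266) (nat_lit 1) (nat_lit 14))
    (@En.n l17 (nat_lit 1338) (nat_lit 2) (nat_lit 2))
    (@En.n l3147 (nat_lit 1339) (nat_lit 3) (nat_lit 6))
    (@En.i (nat_lit 13399) (nat_lit 4) (nat_lit 14))
    (@En.i (nat_lit 8326) (nat_lit 2) (nat_lit 11))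
    (@En.n l612 (nat_lit 2690) (nat_lit 12) (nat_lit 6))
    (@En.n l50 (nat_lit 3472) (nat_lit 7) (nat_lit 3))
    (@En.n l28 (nat_lit 611) (nat_lit 0) (nat_lit 5))
    (@En.n l217 (nat_lit 6733) (nat_lit 10) (nat_lit 10))
    (@En.n l343 (nat_lit 1358) (nat_lit 11) (nat_lit 13))
    (@En.n l28 (nat_lit 3469) (nat_lit 11) (nat_lit 3))
    (@En.i (nat_lit 1333) (nat_lit 0) (nat_lit 10))
    (@En.i (nat_lit 3206) (nat_lit 14) (nat_lit 11))
    (@En.i (nat_lit 11729) (nat_lit 12) (nat_lit 13))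
    (@En.n l107 (nat_lit 1338) (nat_lit 15) (nat_lit 2))))
  (@Cl.mk (nat_lit 0x2000d000a00090003000c000a000a000600040007000c00060006000e0004) (nat_lit 0x20001000a0000) (nat_lit 16) Lb.e (@T16.mk En
    (@En.n l844 (nat_lit 1336) (nat_lit 4) (nat_lit 4))
    (@En.n l16547 (nat_lit 3258) (nat_lit 1) (nat_lit 14))
    (@En.n l9272 (nat_lit 3499) (nat_lit 10) (nat_lit 6))
    (@En.n l16548 (nat_lit 2888) (nat_lit 3) (nat_lit 6))
    (@En.i (nat_lit 8330) (nat_lit 9) (nat_lit 12))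
    (@En.n l16549 (nat_lit 2702) (nat_lit 11) (nat_lit 7))
    (@En.i (nat_lit 3476) (nat_lit 6) (nat_lit 4))
    (@En.n l16550 (nat_lit 9533) (nat_lit 7) (nat_lit 6))
    (@En.n l9279 (nat_lit 1338) (nat_lit 9) (nat_lit 10))
    (@En.n l16548 (nat_lit 9659) (nat_lit 10) (nat_lit 10))
    (@En.n l612 (nat_lit 3479) (nat_lit 11) (nat_lit 12))
    (@En.n l50 (nat_lit 3475) (nat_lit 11) (nat_lit 3))
    (@En.n l16551 (nat_lit 624) (nat_lit 0) (nat_lit 9))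
    (@En.i (nat_lit 3195) (nat_lit 14) (nat_lit 10))
    (@En.n l899 (nat_lit 11798) (nat_lit 2) (nat_lit 13))
    (@En.n l28 (nat_lit 1339) (nat_lit 15) (nat_lit 2))))
  (@Cl.mk (nat_lit 0x2000b000b000b0008000c0005000500050004000b000e00080002000e0005) (nat_lit 0x9926200006c1020) (nat_lit 16) Lb.e (@T16.mk En
    (@En.n l6714 (nat_lit 1247) (nat_lit 14) (nat_lit 5))
    (@En.n l6715 (nat_lit 1079) (nat_lit 1) (nat_lit 14))
    (@En.n l17 (nat_lit 1340) (nat_lit 2) (nat_lit 2))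
    (@En.n l6716 (nat_lit 618) (nat_lit 3) (nat_lit 8))
    (@En.n l436 (nat_lit 12889) (nat_lit 4) (nat_lit 14))
    (@En.i (nat_lit 6286) (nat_lit 2) (nat_lit 11))
    (@En.n l2277 (nat_lit 1251) (nat_lit 6) (nat_lit 4))
    (@En.n l3787 (nat_lit 1246) (nat_lit 11) (nat_lit 5))
    (@En.n l6717 (nat_lit 1332) (nat_lit 11) (nat_lit 5))
    (@En.i (nat_lit 3206) (nat_lit 9) (nat_lit 5))
    (@En.n l3148 (nat_lit 141) (nat_lit 11) (nat_lit 12))
    (@En.n l2337 (nat_lit 6746) (nat_lit 12) (nat_lit 8))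
    (@En.n l601 (nat_lit 611) (nat_lit 5) (nat_lit 11))
    (@En.n l2281 (nat_lit 1341) (nat_lit 5) (nat_lit 11))
    (@En.n l6718 (nat_lit 9325) (nat_lit 12) (nat_lit 11))
    (@En.n l107 (nat_lit 1340) (nat_lit 15) (nat_lit 2))))
  (@Cl.mk (nat_lit 0x200060005000b000e00090002000e00050002000b000a0007000b000e0005) (nat_lit 0x8c10200810200) (nat_lit 16) Lb.e (@T16.mk En
    (@En.n l4110 (nat_lit 1340) (nat_lit 9) (nat_lit 5))
    (@En.n l10919 (nat_lit 2986) (nat_lit 4) (nat_lit 14))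
    (@En.n l10920 (nat_lit 144) (nat_lit 2) (nat_lit 11))
    (@En.n l217 (nat_lit 3467) (nat_lit 3) (nat_lit 7))
    (@En.n l7262 (nat_lit 602) (nat_lit 4) (nat_lit 10))
    (@En.n l3878 (nat_lit 11676) (nat_lit 12) (nat_lit 11))
    (@En.n l107 (nat_lit 1341) (nat_lit 6) (nat_lit 2))
    (@En.n l10921 (nat_lit 610) (nat_lit 14) (nat_lit 5))
    (@En.n l10919 (nat_lit 1074) (nat_lit 1) (nat_lit 14))
    (@En.n l17 (nat_lit 1341) (nat_lit 9) (nat_lit 2))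
    (@En.n l10922 (nat_lit 614) (nat_lit 11) (nat_lit 9))
    (@En.n l433 (nat_lit 12890) (nat_lit 4) (nat_lit 14))
    (@En.i (nat_lit 6289) (nat_lit 13) (nat_lit 11))
    (@En.n l10923 (nat_lit 1342) (nat_lit 14) (nat_lit 5))
    (@En.n l4167 (nat_lit 1251) (nat_lit 7) (nat_lit 6))
    (@En.n l7 (nat_lit 1341) (nat_lit 15) (nat_lit 2))))
  (@Cl.mk (nat_lit 0x20005000b000e00090002000e00050002000a000d0007000b0003000e0006) (nat_lit 0x76102008603010) (nat_lit 16) Lb.e (@T16.mk En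
    (@En.n l8825 (nat_lit 1251) (nat_lit 8) (nat_lit 6))
    (@En.n l4064 (nat_lit 1341) (nat_lit 1) (nat_lit 14))
    (@En.n l8826 (nat_lit 1344) (nat_lit 2) (nat_lit 3))
    (@En.n l3334 (nat_lit 223) (nat_lit 3) (nat_lit 11))
    (@En.i (nat_lit 6884) (nat_lit 4) (nat_lit 7))
    (@En.n l3334 (nat_lit 13663) (nat_lit 5) (nat_lit 13))
    (@En.i (nat_lit 11679) (nat_lit 12) (nat_lit 10))
    (@En.n l725 (nat_lit 1342) (nat_lit 7) (nat_lit 2))
    (@En.n l17 (nat_lit 1252) (nat_lit 14) (nat_lit 5))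
    (@En.n l2642 (nat_lit 1075) (nat_lit 1) (nat_lit 14))
    (@En.n l3 (nat_lit 1342) (nat_lit 10) (nat_lit 2))
    (@En.n l8827 (nat_lit 619) (nat_lit 12) (nat_lit 9))
    (@En.n l2520 (nat_lit 12891) (nat_lit 4) (nat_lit 14))
    (@En.n l3334 (nat_lit 6614) (nat_lit 14) (nat_lit 11))
    (@En.i (nat_lit 1355) (nat_lit 13) (nat_lit 5))
    (@En.n l50 (nat_lit 1342) (nat_lit 15) (nat_lit 2))))
  (@Cl.mk (nat_lit 0x2000a000a000d000b00090003000600060005000b000e00070002000e0005) (nat_lit 0x6300000570020) (nat_lit 16) Lb.e (@T16.mk En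
    (@En.i (nat_lit 1253) (nat_lit 14) (nat_lit 5))
    (@En.n l97 (nat_lit 1078) (nat_lit 1) (nat_lit 14))
    (@En.n l17 (nat_lit 1343) (nat_lit 2) (nat_lit 2))
    (@En.n l3098 (nat_lit 1346) (nat_lit 3) (nat_lit 7))
    (@En.i (nat_lit 12900) (nat_lit 4) (nat_lit 14))
    (@En.n l1318 (nat_lit 6597) (nat_lit 2) (nat_lit 11))
    (@En.n l77 (nat_lit 1357) (nat_lit 6) (nat_lit 5))
    (@En.n l55 (nat_lit 1347) (nat_lit 10) (nat_lit 6))
    (@En.n l437 (nat_lit 2975) (nat_lit 8) (nat_lit 6))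
    (@En.i (nat_lit 1251) (nat_lit 9) (nat_lit 3))
    (@En.n l1318 (nat_lit 2173) (nat_lit 0) (nat_lit 9))
    (@En.n l3241 (nat_lit 1340) (nat_lit 12) (nat_lit 11))
    (@En.n l601 (nat_lit 1344) (nat_lit 5) (nat_lit 13))
    (@En.n l780 (nat_lit 1344) (nat_lit 6) (nat_lit 10))
    (@En.n l5732 (nat_lit 12227) (nat_lit 12) (nat_lit 10))
    (@En.n l107 (nat_lit 1343) (nat_lit 15) (nat_lit 2))))
noncomputable def a84 : T16 Cl := @T16.mk Cl
  (@Cl.mk (nat_lit 0x20006000b000e00080002000e00050002000a000d000a00080003000e0006) (nat_lit 0x68002008520060) (nat_lit 16) Lb.e (@T16.mk En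
    (@En.n l252 (nat_lit 1343) (nat_lit 8) (nat_lit 6))
    (@En.n l20956 (nat_lit 2983) (nat_lit 1) (nat_lit 14))
    (@En.n l9320 (nat_lit 1342) (nat_lit 2) (nat_lit 3))
    (@En.n l20957 (nat_lit 2170) (nat_lit 12) (nat_lit 8))
    (@En.n l960 (nat_lit 1341) (nat_lit 4) (nat_lit 10))
    (@En.n l20958 (nat_lit 13662) (nat_lit 5) (nat_lit 13))
    (@En.n l12347 (nat_lit 11683) (nat_lit 12) (nat_lit 10))
    (@En.n l107 (nat_lit 1344) (nat_lit 7) (nat_lit 2))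
    (@En.n l8914 (nat_lit 1276) (nat_lit 14) (nat_lit 5))
    (@En.n l16511 (nat_lit 1077) (nat_lit 1) (nat_lit 14))
    (@En.n l17 (nat_lit 1344) (nat_lit 10) (nat_lit 2))
    (@En.n l20959 (nat_lit 1345) (nat_lit 12) (nat_lit 8))
    (@En.n l445 (nat_lit 12901) (nat_lit 4) (nat_lit 14))
    (@En.n l4423 (nat_lit 6601) (nat_lit 14) (nat_lit 11))
    (@En.i (nat_lit 1358) (nat_lit 6) (nat_lit 6))
    (@En.n l207 (nat_lit 1344) (nat_lit 15) (nat_lit 2))))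
  (@Cl.mk (nat_lit 0x20007000c00080008000e000400020009000c0009000800080004000e0007) (nat_lit 0xa6000000241000) (nat_lit 16) Lb.e (@T16.mk En
    (@En.n l15225 (nat_lit 1346) (nat_lit 7) (nat_lit 7))
    (@En.n l7165 (nat_lit 2981) (nat_lit 1) (nat_lit 14))
    (@En.n l152 (nat_lit 6870) (nat_lit 2) (nat_lit 4))
    (@En.n l32675 (nat_lit 1344) (nat_lit 3) (nat_lit 8))
    (@En.n l644 (nat_lit 6706) (nat_lit 12) (nat_lit 8))
    (@En.i (nat_lit 614) (nat_lit 5) (nat_lit 9))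
    (@En.n l5390 (nat_lit 13660) (nat_lit 6) (nat_lit 12))
    (@En.n l3439 (nat_lit 11737) (nat_lit 8) (nat_lit 9))
    (@En.n l17 (nat_lit 1345) (nat_lit 8) (nat_lit 2))
    (@En.n l24443 (nat_lit 1280) (nat_lit 9) (nat_lit 4))
    (@En.i (nat_lit 2364) (nat_lit 11) (nat_lit 14))
    (@En.n l32676 (nat_lit 1350) (nat_lit 8) (nat_lit 8))
    (@En.n l20926 (nat_lit 1778) (nat_lit 13) (nat_lit 8))
    (@En.n l564 (nat_lit 6591) (nat_lit 14) (nat_lit 12))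
    (@En.n l24446 (nat_lit 3479) (nat_lit 5) (nat_lit 7))
    (@En.n l28 (nat_lit 1345) (nat_lit 15) (nat_lit 2))))
  (@Cl.mk (nat_lit 0x200090009000c000a000900090004000700070006000c00070007000e0004) (nat_lit 0x11351000060000) (nat_lit 16) Lb.e (@T16.mk En
    (@En.i (nat_lit 1279) (nat_lit 15) (nat_lit 4))
    (@En.n l21779 (nat_lit 2362) (nat_lit 1) (nat_lit 14))
    (@En.n l152 (nat_lit 1349) (nat_lit 9) (nat_lit 7))
    (@En.i (nat_lit 1776) (nat_lit 3) (nat_lit 7))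
    (@En.n l12194 (nat_lit 6592) (nat_lit 5) (nat_lit 12))
    (@En.n l217 (nat_lit 3478) (nat_lit 5) (nat_lit 6))
    (@En.n l644 (nat_lit 1348) (nat_lit 9) (nat_lit 7))
    (@En.n l617 (nat_lit 3222) (nat_lit 7) (nat_lit 7))
    (@En.n l13213 (nat_lit 6859) (nat_lit 8) (nat_lit 4))
    (@En.n l3536 (nat_lit 1343) (nat_lit 10) (nat_lit 9))
    (@En.n l21780 (nat_lit 6707) (nat_lit 11) (nat_lit 9))
    (@En.n l18925 (nat_lit 618) (nat_lit 12) (nat_lit 10))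
    (@En.n l21781 (nat_lit 1345) (nat_lit 6) (nat_lit 12))
    (@En.n l21782 (nat_lit 1345) (nat_lit 7) (nat_lit 9))
    (@En.n l3506 (nat_lit 11736) (nat_lit 5) (nat_lit 9))
    (@En.n l28 (nat_lit 1346) (nat_lit 15) (nat_lit 2))))
  (@Cl.mk (nat_lit 0x2000d000c000a000300060004000b000e00060002000e00050002000e000a) (nat_lit 0x740000960010001) (nat_lit 16) Lb.e (@T16.mk En
    (@En.i (nat_lit 1343) (nat_lit 14) (nat_lit 10))
    (@En.i (nat_lit 11693) (nat_lit 1) (nat_lit 14))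
    (@En.n l107 (nat_lit 1347) (nat_lit 2) (nat_lit 2))
    (@En.n l170 (nat_lit 1283) (nat_lit 14) (nat_lit 5))
    (@En.n l498 (nat_lit 1081) (nat_lit 1) (nat_lit 14))
    (@En.n l17 (nat_lit 1347) (nat_lit 5) (nat_lit 2))
    (@En.n l3098 (nat_lit 1348) (nat_lit 6) (nat_lit 6))
    (@En.i (nat_lit 12931) (nat_lit 4) (nat_lit 14))
    (@En.n l170 (nat_lit 6956) (nat_lit 2) (nat_lit 11))
    (@En.i (nat_lit 2707) (nat_lit 9) (nat_lit 4))
    (@En.n l3893 (nat_lit 2857) (nat_lit 7) (nat_lit 6))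
    (@En.i (nat_lit 1333) (nat_lit 11) (nat_lit 3))
    (@En.n l170 (nat_lit 2487) (nat_lit 0) (nat_lit 10))
    (@En.n l438 (nat_lit 1332) (nat_lit 14) (nat_lit 12))
    (@En.n l343 (nat_lit 1343) (nat_lit 12) (nat_lit 13))
    (@En.n l28 (nat_lit 1347) (nat_lit 15) (nat_lit 2))))
  (@Cl.mk (nat_lit 0x2000c000b000a000a000400070005000c00060006000e00040002000e0009) (nat_lit 0x240100000000001) (nat_lit 16) Lb.e (@T16.mk En
    (@En.i (nat_lit 1346) (nat_lit 14) (nat_lit 9))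
    (@En.n l2894 (nat_lit 10354) (nat_lit 1) (nat_lit 14))
    (@En.n l28 (nat_lit 1348) (nat_lit 2) (nat_lit 2))
    (@En.n l1458 (nat_lit 1383) (nat_lit 3) (nat_lit 4))
    (@En.n l2894 (nat_lit 2366) (nat_lit 1) (nat_lit 14))
    (@En.n l152 (nat_lit 1351) (nat_lit 10) (nat_lit 6))
    (@En.n l2569 (nat_lit 1775) (nat_lit 6) (nat_lit 6))
    (@En.n l4542 (nat_lit 6595) (nat_lit 8) (nat_lit 12))
    (@En.n l2569 (nat_lit 2550) (nat_lit 8) (nat_lit 5))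
    (@En.n l10827 (nat_lit 3654) (nat_lit 11) (nat_lit 7))
    (@En.n l1369 (nat_lit 6858) (nat_lit 10) (nat_lit 4))
    (@En.n l3536 (nat_lit 1347) (nat_lit 12) (nat_lit 10))
    (@En.n l4542 (nat_lit 6710) (nat_lit 13) (nat_lit 10))
    (@En.n l10828 (nat_lit 623) (nat_lit 14) (nat_lit 11))
    (@En.n l612 (nat_lit 1346) (nat_lit 12) (nat_lit 12))
    (@En.n l50 (nat_lit 1348) (nat_lit 15) (nat_lit 2))))
  (@Cl.mk (nat_lit 0x20005000800080007000d0007000e0003000200080008000b0009000e0009) (nat_lit 0x40060700000346) (nat_lit 16) Lb.e (@T16.mk En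
    (@En.i (nat_lit 1346) (nat_lit 10) (nat_lit 9))
    (@En.i (nat_lit 1353) (nat_lit 11) (nat_lit 14))
    (@En.n l211 (nat_lit 1241) (nat_lit 12) (nat_lit 9))
    (@En.n l5 (nat_lit 1350) (nat_lit 3) (nat_lit 11))
    (@En.n l564 (nat_lit 1350) (nat_lit 4) (nat_lit 8))
    (@En.n l3506 (nat_lit 11733) (nat_lit 5) (nat_lit 8))
    (@En.n l28 (nat_lit 1349) (nat_lit 6) (nat_lit 2))
    (@En.i (nat_lit 1352) (nat_lit 7) (nat_lit 3))
    (@En.n l1267 (nat_lit 12997) (nat_lit 0) (nat_lit 14))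
    (@En.i (nat_lit 1428) (nat_lit 2) (nat_lit 7))
    (@En.n l564 (nat_lit 6596) (nat_lit 11) (nat_lit 13))
    (@En.n l217 (nat_lit 3496) (nat_lit 12) (nat_lit 7))
    (@En.n l644 (nat_lit 1351) (nat_lit 13) (nat_lit 8))
    (@En.n l617 (nat_lit 3219) (nat_lit 14) (nat_lit 8))
    (@En.i (nat_lit 3673) (nat_lit 7) (nat_lit 5))
    (@En.n l3 (nat_lit 1349) (nat_lit 15) (nat_lit 2))))
  (@Cl.mk (nat_lit 0x20005000e000800020008000d0008000e000300020008000b0008000e0008) (nat_lit 0x5057680069255) (nat_lit 16) Lb.e (@T16.mk En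
    (@En.n l17921 (nat_lit 1345) (nat_lit 4) (nat_lit 8))
    (@En.n l17922 (nat_lit 1886) (nat_lit 6) (nat_lit 14))
    (@En.n l16061 (nat_lit 1887) (nat_lit 6) (nat_lit 8))
    (@En.n l17922 (nat_lit 13648) (nat_lit 7) (nat_lit 11))
    (@En.n l15969 (nat_lit 11731) (nat_lit 4) (nat_lit 8))
    (@En.n l28 (nat_lit 1350) (nat_lit 5) (nat_lit 2))
    (@En.n l8317 (nat_lit 1269) (nat_lit 6) (nat_lit 3))
    (@En.n l15969 (nat_lit 12996) (nat_lit 0) (nat_lit 14))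
    (@En.n l16061 (nat_lit 1427) (nat_lit 2) (nat_lit 8))
    (@En.n l15969 (nat_lit 6719) (nat_lit 10) (nat_lit 13))
    (@En.i (nat_lit 3497) (nat_lit 11) (nat_lit 8))
    (@En.n l8 (nat_lit 1350) (nat_lit 11) (nat_lit 2))
    (@En.n l2593 (nat_lit 1349) (nat_lit 13) (nat_lit 8))
    (@En.n l1738 (nat_lit 1892) (nat_lit 1) (nat_lit 14))
    (@En.n l17923 (nat_lit 3672) (nat_lit 2) (nat_lit 5))
    (@En.n l3 (nat_lit 1350) (nat_lit 15) (nat_lit 2))))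
  (@Cl.mk (nat_lit 0x2000500080006000d0006000e00030002000e00080002000b000a000e000a) (nat_lit 0x60500005101461) (nat_lit 16) Lb.e (@T16.mk En
    (@En.i (nat_lit 1348) (nat_lit 12) (nat_lit 10))
    (@En.i (nat_lit 1830) (nat_lit 13) (nat_lit 14))
    (@En.n l211 (nat_lit 1831) (nat_lit 14) (nat_lit 10))
    (@En.n l612 (nat_lit 1349) (nat_lit 3) (nat_lit 11))
    (@En.n l50 (nat_lit 1351) (nat_lit 4) (nat_lit 2))
    (@En.i (nat_lit 1349) (nat_lit 5) (nat_lit 8))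
    (@En.i (nat_lit 12103) (nat_lit 7) (nat_lit 14))
    (@En.n l28 (nat_lit 1351) (nat_lit 7) (nat_lit 2))
    (@En.i (nat_lit 1385) (nat_lit 8) (nat_lit 3))
    (@En.i (nat_lit 13707) (nat_lit 0) (nat_lit 14))
    (@En.i (nat_lit 1513) (nat_lit 5) (nat_lit 6))
    (@En.i (nat_lit 6969) (nat_lit 12) (nat_lit 13))
    (@En.i (nat_lit 2548) (nat_lit 13) (nat_lit 6))
    (@En.n l617 (nat_lit 3540) (nat_lit 14) (nat_lit 8))
    (@En.i (nat_lit 4164) (nat_lit 13) (nat_lit 5))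
    (@En.n l3 (nat_lit 1351) (nat_lit 15) (nat_lit 2))))
  (@Cl.mk (nat_lit 0x20005000800080007000d000d00080003000300080008000b0009000e0008) (nat_lit 0x40057600011341) (nat_lit 16) Lb.e (@T16.mk En
    (@En.i (nat_lit 1279) (nat_lit 9) (nat_lit 8))
    (@En.n l4635 (nat_lit 1263) (nat_lit 1) (nat_lit 14))
    (@En.n l4636 (nat_lit 1238) (nat_lit 2) (nat_lit 9))
    (@En.n l4637 (nat_lit 1269) (nat_lit 3) (nat_lit 11))
    (@En.n l4638 (nat_lit 1269) (nat_lit 4) (nat_lit 8))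
    (@En.n l4639 (nat_lit 11734) (nat_lit 5) (nat_lit 8))
    (@En.n l4640 (nat_lit 1282) (nat_lit 6) (nat_lit 3))
    (@En.n l11 (nat_lit 1349) (nat_lit 7) (nat_lit 3))
    (@En.n l4636 (nat_lit 1516) (nat_lit 0) (nat_lit 8))
    (@En.n l55 (nat_lit 1349) (nat_lit 10) (nat_lit 13))
    (@En.n l4545 (nat_lit 6721) (nat_lit 11) (nat_lit 13))
    (@En.n l217 (nat_lit 3490) (nat_lit 12) (nat_lit 7))
    (@En.n l644 (nat_lit 1385) (nat_lit 13) (nat_lit 8))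
    (@En.n l617 (nat_lit 3218) (nat_lit 14) (nat_lit 8))
    (@En.n l58 (nat_lit 3671) (nat_lit 13) (nat_lit 5))
    (@En.n l3 (nat_lit 1352) (nat_lit 15) (nat_lit 2))))
  (@Cl.mk (nat_lit 0x200080008000b000e00080002000c0005000800080004000d0008000e0003) (nat_lit 0x310605007600) (nat_lit 16) Lb.e (@T16.mk En
    (@En.n l4635 (nat_lit 1263) (nat_lit 6) (nat_lit 3))
    (@En.n l21768 (nat_lit 13709) (nat_lit 0) (nat_lit 14))
    (@En.i (nat_lit 1426) (nat_lit 2) (nat_lit 8))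
    (@En.n l21769 (nat_lit 6698) (nat_lit 10) (nat_lit 13))
    (@En.i (nat_lit 1234) (nat_lit 4) (nat_lit 4))
    (@En.n l644 (nat_lit 1830) (nat_lit 8) (nat_lit 8))
    (@En.n l21768 (nat_lit 1817) (nat_lit 6) (nat_lit 8))
    (@En.n l17 (nat_lit 1349) (nat_lit 14) (nat_lit 5))
    (@En.i (nat_lit 1057) (nat_lit 9) (nat_lit 12))
    (@En.n l3 (nat_lit 1353) (nat_lit 9) (nat_lit 2))
    (@En.n l17 (nat_lit 620) (nat_lit 11) (nat_lit 8))
    (@En.n l11857 (nat_lit 2693) (nat_lit 4) (nat_lit 14))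
    (@En.n l15220 (nat_lit 1886) (nat_lit 7) (nat_lit 11))
    (@En.n l15221 (nat_lit 1886) (nat_lit 8) (nat_lit 8))
    (@En.n l8825 (nat_lit 11732) (nat_lit 4) (nat_lit 8))
    (@En.n l28 (nat_lit 1353) (nat_lit 15) (nat_lit 2))))
  (@Cl.mk (nat_lit 0x20009000c000c0008000c0004000400070004000b000e00080002000e0005) (nat_lit 0x4126200001c2010) (nat_lit 16) Lb.e (@T16.mk En
    (@En.n l6700 (nat_lit 996) (nat_lit 14) (nat_lit 5))
    (@En.n l6701 (nat_lit 361) (nat_lit 1) (nat_lit 14))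
    (@En.n l17 (nat_lit 1354) (nat_lit 2) (nat_lit 2))
    (@En.n l6702 (nat_lit 617) (nat_lit 3) (nat_lit 8))
    (@En.n l437 (nat_lit 12883) (nat_lit 4) (nat_lit 14))
    (@En.n l780 (nat_lit 820) (nat_lit 2) (nat_lit 11))
    (@En.i (nat_lit 1340) (nat_lit 6) (nat_lit 4))
    (@En.n l6703 (nat_lit 1356) (nat_lit 11) (nat_lit 7))
    (@En.n l6704 (nat_lit 1356) (nat_lit 12) (nat_lit 4))
    (@En.i (nat_lit 1358) (nat_lit 9) (nat_lit 4))
    (@En.n l3148 (nat_lit 161) (nat_lit 11) (nat_lit 12))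
    (@En.n l2337 (nat_lit 6675) (nat_lit 12) (nat_lit 8))
    (@En.n l3149 (nat_lit 1355) (nat_lit 4) (nat_lit 12))
    (@En.n l780 (nat_lit 611) (nat_lit 6) (nat_lit 12))
    (@En.n l6705 (nat_lit 7786) (nat_lit 12) (nat_lit 9))
    (@En.n l107 (nat_lit 1354) (nat_lit 15) (nat_lit 2))))
  (@Cl.mk (nat_lit 0x200070005000b000e00090002000e000500020009000c0007000b000e0004) (nat_lit 0x73201004102c0) (nat_lit 16) Lb.e (@T16.mk En
    (@En.n l8826 (nat_lit 1354) (nat_lit 9) (nat_lit 4))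
    (@En.i (nat_lit 3391) (nat_lit 11) (nat_lit 14))
    (@En.n l3328 (nat_lit 178) (nat_lit 2) (nat_lit 11))
    (@En.n l16614 (nat_lit 6620) (nat_lit 3) (nat_lit 7))
    (@En.n l3334 (nat_lit 601) (nat_lit 6) (nat_lit 12))
    (@En.i (nat_lit 7789) (nat_lit 12) (nat_lit 9))
    (@En.n l725 (nat_lit 1355) (nat_lit 6) (nat_lit 2))
    (@En.n l17 (nat_lit 997) (nat_lit 14) (nat_lit 5))
    (@En.n l1003 (nat_lit 907) (nat_lit 1) (nat_lit 14))
    (@En.n l3 (nat_lit 1355) (nat_lit 9) (nat_lit 2))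
    (@En.n l8827 (nat_lit 616) (nat_lit 11) (nat_lit 9))
    (@En.n l2520 (nat_lit 12884) (nat_lit 4) (nat_lit 14))
    (@En.n l16615 (nat_lit 8228) (nat_lit 13) (nat_lit 11))
    (@En.n l16614 (nat_lit 611) (nat_lit 14) (nat_lit 5))
    (@En.n l8825 (nat_lit 1354) (nat_lit 7) (nat_lit 7))
    (@En.n l28 (nat_lit 1355) (nat_lit 15) (nat_lit 2))))
  (@Cl.mk (nat_lit 0x20009000d000400070003000b000e00070002000e000500020009000e000c) (nat_lit 0x750009b00100492) (nat_lit 16) Lb.e (@T16.mk En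
    (@En.n l16479 (nat_lit 1354) (nat_lit 13) (nat_lit 12))
    (@En.n l2520 (nat_lit 1332) (nat_lit 1) (nat_lit 14))
    (@En.i (nat_lit 7784) (nat_lit 12) (nat_lit 9))
    (@En.n l725 (nat_lit 1356) (nat_lit 3) (nat_lit 2))
    (@En.n l17 (nat_lit 1243) (nat_lit 14) (nat_lit 5))
    (@En.n l3328 (nat_lit 362) (nat_lit 1) (nat_lit 14))
    (@En.n l3 (nat_lit 1356) (nat_lit 6) (nat_lit 2))
    (@En.n l16480 (nat_lit 621) (nat_lit 3) (nat_lit 7))
    (@En.n l2520 (nat_lit 12885) (nat_lit 4) (nat_lit 14))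
    (@En.n l12294 (nat_lit 5456) (nat_lit 10) (nat_lit 11))
    (@En.n l6556 (nat_lit 1246) (nat_lit 10) (nat_lit 3))
    (@En.i (nat_lit 13338) (nat_lit 11) (nat_lit 7))
    (@En.n l6556 (nat_lit 1357) (nat_lit 8) (nat_lit 4))
    (@En.n l862 (nat_lit 152) (nat_lit 10) (nat_lit 13))
    (@En.i (nat_lit 5973) (nat_lit 11) (nat_lit 9))
    (@En.n l28 (nat_lit 1356) (nat_lit 15) (nat_lit 2))))
  (@Cl.mk (nat_lit 0x20009000d000c000b0003000a000400070005000b000e00060002000e0005) (nat_lit 0x4a0100000400000) (nat_lit 16) Lb.e (@T16.mk En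
    (@En.n l17742 (nat_lit 1360) (nat_lit 14) (nat_lit 5))
    (@En.n l97 (nat_lit 4269) (nat_lit 1) (nat_lit 14))
    (@En.n l17 (nat_lit 1357) (nat_lit 2) (nat_lit 2))
    (@En.n l3098 (nat_lit 3478) (nat_lit 3) (nat_lit 6))
    (@En.n l1497 (nat_lit 13402) (nat_lit 4) (nat_lit 14))
    (@En.n l780 (nat_lit 8355) (nat_lit 2) (nat_lit 11))
    (@En.i (nat_lit 2704) (nat_lit 6) (nat_lit 5))
    (@En.n l1497 (nat_lit 3238) (nat_lit 7) (nat_lit 7))
    (@En.n l7 (nat_lit 1354) (nat_lit 8) (nat_lit 4))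
    (@En.n l564 (nat_lit 6677) (nat_lit 10) (nat_lit 10))
    (@En.n l7 (nat_lit 1361) (nat_lit 10) (nat_lit 3))
    (@En.n l13 (nat_lit 1246) (nat_lit 0) (nat_lit 11))
    (@En.n l644 (nat_lit 1358) (nat_lit 13) (nat_lit 12))
    (@En.n l780 (nat_lit 1338) (nat_lit 14) (nat_lit 13))
    (@En.n l21677 (nat_lit 12147) (nat_lit 12) (nat_lit 9))
    (@En.n l107 (nat_lit 1357) (nat_lit 15) (nat_lit 2))))
  (@Cl.mk (nat_lit 0x20009000c000a000d00090004000300070006000b000e00070002000e0005) (nat_lit 0x5a1800000500000) (nat_lit 16) Lb.e (@T16.mk En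
    (@En.n l8914 (nat_lit 1359) (nat_lit 14) (nat_lit 5))
    (@En.n l16511 (nat_lit 4268) (nat_lit 1) (nat_lit 14))
    (@En.n l17 (nat_lit 1358) (nat_lit 2) (nat_lit 2))
    (@En.n l3147 (nat_lit 3479) (nat_lit 3) (nat_lit 7))
    (@En.i (nat_lit 13401) (nat_lit 4) (nat_lit 14))
    (@En.n l780 (nat_lit 8236) (nat_lit 2) (nat_lit 11))
    (@En.n l55 (nat_lit 1338) (nat_lit 6) (nat_lit 6))
    (@En.n l612 (nat_lit 1357) (nat_lit 7) (nat_lit 7))
    (@En.n l50 (nat_lit 1361) (nat_lit 8) (nat_lit 3))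
    (@En.n l9320 (nat_lit 1355) (nat_lit 0) (nat_lit 4))
    (@En.n l217 (nat_lit 6676) (nat_lit 11) (nat_lit 9))
    (@En.n l16512 (nat_lit 3381) (nat_lit 12) (nat_lit 13))
    (@En.i (nat_lit 1251) (nat_lit 13) (nat_lit 10))
    (@En.n l780 (nat_lit 3468) (nat_lit 6) (nat_lit 12))
    (@En.n l12347 (nat_lit 12142) (nat_lit 12) (nat_lit 9))
    (@En.n l107 (nat_lit 1358) (nat_lit 15) (nat_lit 2))))
  (@Cl.mk (nat_lit 0x2000500050009000c000a000d00080004000300070006000b000b000e0008) (nat_lit 0x4016000004610) (nat_lit 16) Lb.e (@T16.mk En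
    (@En.n l5786 (nat_lit 3482) (nat_lit 1) (nat_lit 8))
    (@En.n l14348 (nat_lit 1358) (nat_lit 4) (nat_lit 14))
    (@En.n l8700 (nat_lit 1358) (nat_lit 5) (nat_lit 11))
    (@En.n l8853 (nat_lit 8237) (nat_lit 3) (nat_lit 11))
    (@En.n l9021 (nat_lit 1334) (nat_lit 4) (nat_lit 6))
    (@En.n l9473 (nat_lit 1360) (nat_lit 5) (nat_lit 7))
    (@En.n l28504 (nat_lit 1362) (nat_lit 6) (nat_lit 3))
    (@En.n l1253 (nat_lit 997) (nat_lit 7) (nat_lit 4))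
    (@En.n l11268 (nat_lit 5396) (nat_lit 9) (nat_lit 8))
    (@En.i (nat_lit 3392) (nat_lit 10) (nat_lit 13))
    (@En.n l387 (nat_lit 1248) (nat_lit 11) (nat_lit 10))
    (@En.n l1203 (nat_lit 3200) (nat_lit 12) (nat_lit 12))
    (@En.n l766 (nat_lit 12143) (nat_lit 13) (nat_lit 9))
    (@En.n l17 (nat_lit 1363) (nat_lit 14) (nat_lit 5))
    (@En.n l1203 (nat_lit 1030) (nat_lit 13) (nat_lit 5))
    (@En.n l3 (nat_lit 1359) (nat_lit 15) (nat_lit 2))))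
noncomputable def a85 : T16 Cl := @T16.mk Cl
  (@Cl.mk (nat_lit 0x2000500050009000d000c000b00030009000400070005000b000b000e0007) (nat_lit 0x4a13000003510) (nat_lit 16) Lb.e (@T16.mk En
    (@En.n l11553 (nat_lit 3483) (nat_lit 7) (nat_lit 7))
    (@En.n l19294 (nat_lit 1357) (nat_lit 4) (nat_lit 14))
    (@En.n l19295 (nat_lit 1357) (nat_lit 5) (nat_lit 11))
    (@En.n l19296 (nat_lit 8356) (nat_lit 3) (nat_lit 11))
    (@En.n l19297 (nat_lit 2688) (nat_lit 4) (nat_lit 5))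
    (@En.i (nat_lit 3234) (nat_lit 5) (nat_lit 7))
    (@En.n l766 (nat_lit 996) (nat_lit 6) (nat_lit 4))
    (@En.i (nat_lit 5971) (nat_lit 0) (nat_lit 9))
    (@En.n l9469 (nat_lit 1362) (nat_lit 8) (nat_lit 3))
    (@En.n l2593 (nat_lit 1245) (nat_lit 10) (nat_lit 11))
    (@En.n l5451 (nat_lit 1359) (nat_lit 11) (nat_lit 12))
    (@En.n l19296 (nat_lit 1334) (nat_lit 12) (nat_lit 13))
    (@En.n l387 (nat_lit 12232) (nat_lit 13) (nat_lit 9))
    (@En.n l17 (nat_lit 1364) (nat_lit 14) (nat_lit 5))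
    (@En.n l1329 (nat_lit 1029) (nat_lit 13) (nat_lit 5))
    (@En.n l3 (nat_lit 1360) (nat_lit 15) (nat_lit 2))))
  (@Cl.mk (nat_lit 0x20009000d000a000d0003000a000300070006000b000e00060002000e0005) (nat_lit 0x501700000000000) (nat_lit 16) Lb.e (@T16.mk En
    (@En.i (nat_lit 1362) (nat_lit 14) (nat_lit 5))
    (@En.n l97 (nat_lit 4267) (nat_lit 1) (nat_lit 14))
    (@En.n l17 (nat_lit 1361) (nat_lit 2) (nat_lit 2))
    (@En.n l3098 (nat_lit 3477) (nat_lit 3) (nat_lit 6))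
    (@En.i (nat_lit 13400) (nat_lit 4) (nat_lit 14))
    (@En.n l780 (nat_lit 8358) (nat_lit 2) (nat_lit 11))
    (@En.n l55 (nat_lit 3472) (nat_lit 6) (nat_lit 6))
    (@En.n l164 (nat_lit 3237) (nat_lit 7) (nat_lit 7))
    (@En.i (nat_lit 1358) (nat_lit 8) (nat_lit 3))
    (@En.i (nat_lit 5119) (nat_lit 0) (nat_lit 10))
    (@En.i (nat_lit 1357) (nat_lit 10) (nat_lit 3))
    (@En.n l10280 (nat_lit 3393) (nat_lit 0) (nat_lit 13))
    (@En.i (nat_lit 1343) (nat_lit 13) (nat_lit 10))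
    (@En.n l780 (nat_lit 3469) (nat_lit 14) (nat_lit 13))
    (@En.n l5732 (nat_lit 12141) (nat_lit 12) (nat_lit 9))
    (@En.n l107 (nat_lit 1361) (nat_lit 15) (nat_lit 2))))
  (@Cl.mk (nat_lit 0x2000500050009000d000a000d00030009000300070006000b000b000e0007) (nat_lit 0x4a17000000110) (nat_lit 16) Lb.e (@T16.mk En
    (@En.n l3098 (nat_lit 3481) (nat_lit 7) (nat_lit 7))
    (@En.n l3 (nat_lit 1361) (nat_lit 4) (nat_lit 14))
    (@En.n l527 (nat_lit 1361) (nat_lit 5) (nat_lit 11))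
    (@En.n l780 (nat_lit 8359) (nat_lit 3) (nat_lit 11))
    (@En.n l55 (nat_lit 1367) (nat_lit 4) (nat_lit 6))
    (@En.n l9233 (nat_lit 3232) (nat_lit 5) (nat_lit 7))
    (@En.n l8914 (nat_lit 1359) (nat_lit 6) (nat_lit 3))
    (@En.i (nat_lit 6619) (nat_lit 0) (nat_lit 9))
    (@En.n l17742 (nat_lit 1360) (nat_lit 8) (nat_lit 3))
    (@En.n l17743 (nat_lit 3383) (nat_lit 10) (nat_lit 13))
    (@En.i (nat_lit 1253) (nat_lit 11) (nat_lit 10))
    (@En.n l780 (nat_lit 1366) (nat_lit 12) (nat_lit 13))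
    (@En.n l17744 (nat_lit 12145) (nat_lit 13) (nat_lit 9))
    (@En.n l8480 (nat_lit 1365) (nat_lit 14) (nat_lit 5))
    (@En.n l3106 (nat_lit 4255) (nat_lit 13) (nat_lit 5))
    (@En.n l17 (nat_lit 1362) (nat_lit 15) (nat_lit 2))))
  (@Cl.mk (nat_lit 0x200050009000c000a000d00070004000300070006000e000b0002000e0009) (nat_lit 0x301600000b5020) (nat_lit 16) Lb.e (@T16.mk En
    (@En.n l766 (nat_lit 3484) (nat_lit 14) (nat_lit 9))
    (@En.i (nat_lit 1359) (nat_lit 1) (nat_lit 14))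
    (@En.n l18 (nat_lit 1363) (nat_lit 2) (nat_lit 2))
    (@En.n l5 (nat_lit 1359) (nat_lit 3) (nat_lit 11))
    (@En.n l2205 (nat_lit 6054) (nat_lit 5) (nat_lit 14))
    (@En.i (nat_lit 1337) (nat_lit 5) (nat_lit 6))
    (@En.n l9473 (nat_lit 1364) (nat_lit 6) (nat_lit 7))
    (@En.n l1023 (nat_lit 1365) (nat_lit 7) (nat_lit 3))
    (@En.n l1253 (nat_lit 995) (nat_lit 8) (nat_lit 4))
    (@En.i (nat_lit 5972) (nat_lit 6) (nat_lit 7))
    (@En.i (nat_lit 3442) (nat_lit 11) (nat_lit 13))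
    (@En.n l387 (nat_lit 1250) (nat_lit 12) (nat_lit 10))
    (@En.i (nat_lit 3201) (nat_lit 13) (nat_lit 12))
    (@En.n l766 (nat_lit 6367) (nat_lit 14) (nat_lit 9))
    (@En.n l253 (nat_lit 4270) (nat_lit 13) (nat_lit 5))
    (@En.n l3 (nat_lit 1363) (nat_lit 15) (nat_lit 2))))
  (@Cl.mk (nat_lit 0x200050009000d000c000b00030008000400070005000e000b0002000e0008) (nat_lit 0x3a1100000b4020) (nat_lit 16) Lb.e (@T16.mk En
    (@En.n l4130 (nat_lit 3485) (nat_lit 14) (nat_lit 8))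
    (@En.i (nat_lit 1360) (nat_lit 1) (nat_lit 14))
    (@En.n l18 (nat_lit 1364) (nat_lit 2) (nat_lit 2))
    (@En.n l5 (nat_lit 1360) (nat_lit 3) (nat_lit 11))
    (@En.i (nat_lit 6050) (nat_lit 5) (nat_lit 14))
    (@En.n l33 (nat_lit 2696) (nat_lit 5) (nat_lit 5))
    (@En.i (nat_lit 3231) (nat_lit 6) (nat_lit 7))
    (@En.n l766 (nat_lit 998) (nat_lit 7) (nat_lit 4))
    (@En.i (nat_lit 5970) (nat_lit 5) (nat_lit 8))
    (@En.n l2660 (nat_lit 1365) (nat_lit 9) (nat_lit 3))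
    (@En.n l2593 (nat_lit 1244) (nat_lit 11) (nat_lit 11))
    (@En.n l5451 (nat_lit 1363) (nat_lit 12) (nat_lit 12))
    (@En.n l8593 (nat_lit 1337) (nat_lit 13) (nat_lit 13))
    (@En.n l387 (nat_lit 6368) (nat_lit 14) (nat_lit 9))
    (@En.n l513 (nat_lit 4271) (nat_lit 13) (nat_lit 5))
    (@En.n l3 (nat_lit 1364) (nat_lit 15) (nat_lit 2))))
  (@Cl.mk (nat_lit 0x200050009000d000a000d00030008000300070006000e000b0002000e0008) (nat_lit 0x3a150000001020) (nat_lit 16) Lb.e (@T16.mk En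
    (@En.i (nat_lit 3486) (nat_lit 14) (nat_lit 8))
    (@En.n l1531 (nat_lit 1362) (nat_lit 1) (nat_lit 14))
    (@En.n l3 (nat_lit 1365) (nat_lit 2) (nat_lit 2))
    (@En.n l3358 (nat_lit 1362) (nat_lit 3) (nat_lit 11))
    (@En.n l11112 (nat_lit 6055) (nat_lit 5) (nat_lit 14))
    (@En.n l55 (nat_lit 2741) (nat_lit 5) (nat_lit 6))
    (@En.n l7829 (nat_lit 3233) (nat_lit 6) (nat_lit 7))
    (@En.n l3380 (nat_lit 1363) (nat_lit 7) (nat_lit 3))
    (@En.n l7827 (nat_lit 6630) (nat_lit 0) (nat_lit 8))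
    (@En.n l11113 (nat_lit 1364) (nat_lit 9) (nat_lit 3))
    (@En.n l3382 (nat_lit 3444) (nat_lit 11) (nat_lit 13))
    (@En.n l3383 (nat_lit 1274) (nat_lit 12) (nat_lit 10))
    (@En.n l780 (nat_lit 2744) (nat_lit 13) (nat_lit 13))
    (@En.n l8460 (nat_lit 6366) (nat_lit 14) (nat_lit 9))
    (@En.n l11114 (nat_lit 4272) (nat_lit 13) (nat_lit 5))
    (@En.n l17 (nat_lit 1365) (nat_lit 15) (nat_lit 2))))
  (@Cl.mk (nat_lit 0x200050005000d0009000c0003000d0009000400030007000b000b000e0007) (nat_lit 0x9500800000070) (nat_lit 16) Lb.e (@T16.mk En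
    (@En.n l3147 (nat_lit 2753) (nat_lit 6) (nat_lit 7))
    (@En.n l3 (nat_lit 3469) (nat_lit 4) (nat_lit 14))
    (@En.n l527 (nat_lit 3469) (nat_lit 5) (nat_lit 11))
    (@En.i (nat_lit 8240) (nat_lit 3) (nat_lit 11))
    (@En.n l612 (nat_lit 2746) (nat_lit 4) (nat_lit 7))
    (@En.n l50 (nat_lit 2745) (nat_lit 5) (nat_lit 3))
    (@En.n l7112 (nat_lit 3200) (nat_lit 6) (nat_lit 4))
    (@En.n l217 (nat_lit 4449) (nat_lit 8) (nat_lit 9))
    (@En.n l7174 (nat_lit 3371) (nat_lit 9) (nat_lit 13))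
    (@En.i (nat_lit 1334) (nat_lit 9) (nat_lit 3))
    (@En.n l7112 (nat_lit 2921) (nat_lit 11) (nat_lit 12))
    (@En.n l8914 (nat_lit 1359) (nat_lit 12) (nat_lit 9))
    (@En.n l3264 (nat_lit 11731) (nat_lit 13) (nat_lit 13))
    (@En.n l8480 (nat_lit 2744) (nat_lit 14) (nat_lit 5))
    (@En.n l3106 (nat_lit 3740) (nat_lit 13) (nat_lit 5))
    (@En.n l17 (nat_lit 1366) (nat_lit 15) (nat_lit 2))))
  (@Cl.mk (nat_lit 0x200050005000d000c000a0003000d0004000a00030006000b000b000e0006) (nat_lit 0x20800000000) (nat_lit 16) Lb.e (@T16.mk En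
    (@En.n l3098 (nat_lit 3480) (nat_lit 6) (nat_lit 6))
    (@En.n l3 (nat_lit 3472) (nat_lit 4) (nat_lit 14))
    (@En.n l527 (nat_lit 3472) (nat_lit 5) (nat_lit 11))
    (@En.i (nat_lit 8341) (nat_lit 3) (nat_lit 11))
    (@En.n l513 (nat_lit 2639) (nat_lit 4) (nat_lit 6))
    (@En.i (nat_lit 1334) (nat_lit 5) (nat_lit 3))
    (@En.n l5236 (nat_lit 5112) (nat_lit 0) (nat_lit 10))
    (@En.n l28 (nat_lit 2688) (nat_lit 7) (nat_lit 4))
    (@En.n l343 (nat_lit 1362) (nat_lit 9) (nat_lit 13))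
    (@En.n l28 (nat_lit 2745) (nat_lit 9) (nat_lit 3))
    (@En.n l170 (nat_lit 1283) (nat_lit 11) (nat_lit 10))
    (@En.n l77 (nat_lit 2746) (nat_lit 12) (nat_lit 12))
    (@En.n l5236 (nat_lit 11726) (nat_lit 13) (nat_lit 13))
    (@En.n l8480 (nat_lit 2741) (nat_lit 14) (nat_lit 5))
    (@En.n l3106 (nat_lit 4254) (nat_lit 13) (nat_lit 5))
    (@En.n l17 (nat_lit 1367) (nat_lit 15) (nat_lit 2))))
  (@Cl.mk (nat_lit 0x200050003000e000a0002000d000c000b000300060004000b0005000e000d) (nat_lit 0x101400009012) (nat_lit 16) Lb.e (@T16.mk En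
    (@En.n l498 (nat_lit 1114) (nat_lit 6) (nat_lit 13))
    (@En.n l1246 (nat_lit 1024) (nat_lit 1) (nat_lit 14))
    (@En.n l166 (nat_lit 4161) (nat_lit 2) (nat_lit 5))
    (@En.i (nat_lit 6781) (nat_lit 3) (nat_lit 11))
    (@En.i (nat_lit 2721) (nat_lit 4) (nat_lit 4))
    (@En.n l501 (nat_lit 4049) (nat_lit 5) (nat_lit 6))
    (@En.i (nat_lit 1013) (nat_lit 6) (nat_lit 3))
    (@En.n l502 (nat_lit 3050) (nat_lit 0) (nat_lit 11))
    (@En.n l1247 (nat_lit 1009) (nat_lit 9) (nat_lit 12))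
    (@En.n l343 (nat_lit 1014) (nat_lit 10) (nat_lit 13))
    (@En.n l28 (nat_lit 1368) (nat_lit 10) (nat_lit 2))
    (@En.i (nat_lit 1014) (nat_lit 12) (nat_lit 10))
    (@En.i (nat_lit 12308) (nat_lit 13) (nat_lit 14))
    (@En.n l497 (nat_lit 1114) (nat_lit 2) (nat_lit 3))
    (@En.i (nat_lit 1347) (nat_lit 3) (nat_lit 5))
    (@En.n l3 (nat_lit 1368) (nat_lit 15) (nat_lit 2))))
  (@Cl.mk (nat_lit 0x200050003000a000e000b0002000c000b000600050004000b0005000e000d) (nat_lit 0x120000000000) (nat_lit 16) Lb.e (@T16.mk En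
    (@En.n l4277 (nat_lit 1370) (nat_lit 7) (nat_lit 13))
    (@En.n l9455 (nat_lit 1374) (nat_lit 1) (nat_lit 14))
    (@En.n l1393 (nat_lit 3724) (nat_lit 2) (nat_lit 5))
    (@En.n l9456 (nat_lit 7670) (nat_lit 3) (nat_lit 11))
    (@En.n l11 (nat_lit 3773) (nat_lit 4) (nat_lit 4))
    (@En.n l4281 (nat_lit 4042) (nat_lit 5) (nat_lit 5))
    (@En.i (nat_lit 3803) (nat_lit 6) (nat_lit 6))
    (@En.n l55 (nat_lit 3835) (nat_lit 8) (nat_lit 11))
    (@En.n l9457 (nat_lit 3215) (nat_lit 9) (nat_lit 12))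
    (@En.n l3 (nat_lit 1369) (nat_lit 9) (nat_lit 2))
    (@En.n l9458 (nat_lit 3706) (nat_lit 11) (nat_lit 11))
    (@En.n l694 (nat_lit 1368) (nat_lit 12) (nat_lit 14))
    (@En.n l9459 (nat_lit 7655) (nat_lit 13) (nat_lit 10))
    (@En.n l4283 (nat_lit 1370) (nat_lit 3) (nat_lit 3))
    (@En.n l9460 (nat_lit 2975) (nat_lit 0) (nat_lit 5))
    (@En.n l50 (nat_lit 1369) (nat_lit 15) (nat_lit 2))))
  (@Cl.mk (nat_lit 0x2000c000b000600050004000c0005000d000d000400030003000a000e000b) (nat_lit 0xb0000012) (nat_lit 16) Lb.e (@T16.mk En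
    (@En.n l68 (nat_lit 1166) (nat_lit 12) (nat_lit 11))
    (@En.n l3471 (nat_lit 1114) (nat_lit 1) (nat_lit 14))
    (@En.i (nat_lit 7515) (nat_lit 2) (nat_lit 10))
    (@En.n l11548 (nat_lit 1369) (nat_lit 13) (nat_lit 3))
    (@En.n l18 (nat_lit 1371) (nat_lit 0) (nat_lit 3))
    (@En.i (nat_lit 1375) (nat_lit 0) (nat_lit 4))
    (@En.n l61 (nat_lit 1371) (nat_lit 3) (nat_lit 13))
    (@En.n l14016 (nat_lit 1376) (nat_lit 8) (nat_lit 13))
    (@En.n l3503 (nat_lit 3270) (nat_lit 8) (nat_lit 5))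
    (@En.i (nat_lit 7003) (nat_lit 10) (nat_lit 12))
    (@En.n l28 (nat_lit 3767) (nat_lit 10) (nat_lit 4))
    (@En.i (nat_lit 4046) (nat_lit 11) (nat_lit 5))
    (@En.n l14016 (nat_lit 3801) (nat_lit 13) (nat_lit 6))
    (@En.n l77 (nat_lit 3825) (nat_lit 14) (nat_lit 11))
    (@En.n l8015 (nat_lit 3323) (nat_lit 10) (nat_lit 12))
    (@En.n l67 (nat_lit 1370) (nat_lit 15) (nat_lit 2))))
  (@Cl.mk (nat_lit 0x2000a000e000b0002000c000b000600050004000d0005000d0003000e0003) (nat_lit 0x12000000a0b030) (nat_lit 16) Lb.e (@T16.mk En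
    (@En.i (nat_lit 1370) (nat_lit 4) (nat_lit 3))
    (@En.i (nat_lit 13717) (nat_lit 0) (nat_lit 14))
    (@En.i (nat_lit 1372) (nat_lit 2) (nat_lit 3))
    (@En.n l2438 (nat_lit 1378) (nat_lit 8) (nat_lit 13))
    (@En.n l28 (nat_lit 3271) (nat_lit 4) (nat_lit 5))
    (@En.n l601 (nat_lit 7001) (nat_lit 10) (nat_lit 13))
    (@En.n l28 (nat_lit 3765) (nat_lit 6) (nat_lit 4))
    (@En.i (nat_lit 4044) (nat_lit 7) (nat_lit 5))
    (@En.n l2438 (nat_lit 3802) (nat_lit 8) (nat_lit 6))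
    (@En.n l77 (nat_lit 3834) (nat_lit 14) (nat_lit 11))
    (@En.n l8015 (nat_lit 3325) (nat_lit 11) (nat_lit 12))
    (@En.n l67 (nat_lit 1371) (nat_lit 11) (nat_lit 2))
    (@En.n l68 (nat_lit 2671) (nat_lit 13) (nat_lit 11))
    (@En.n l645 (nat_lit 1113) (nat_lit 1) (nat_lit 14))
    (@En.i (nat_lit 7516) (nat_lit 2) (nat_lit 10))
    (@En.n l17 (nat_lit 1371) (nat_lit 15) (nat_lit 2))))
  (@Cl.mk (nat_lit 0x2000a000e000b0002000c000a000600050004000d000c00060003000e0004) (nat_lit 0x12000000b10010) (nat_lit 16) Lb.e (@T16.mk En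
    (@En.n l50 (nat_lit 1373) (nat_lit 4) (nat_lit 4))
    (@En.n l5 (nat_lit 501) (nat_lit 1) (nat_lit 14))
    (@En.n l50 (nat_lit 1371) (nat_lit 2) (nat_lit 3))
    (@En.n l1422 (nat_lit 1944) (nat_lit 3) (nat_lit 6))
    (@En.n l217 (nat_lit 1370) (nat_lit 9) (nat_lit 12))
    (@En.n l601 (nat_lit 7002) (nat_lit 10) (nat_lit 13))
    (@En.n l28 (nat_lit 3770) (nat_lit 6) (nat_lit 4))
    (@En.i (nat_lit 3757) (nat_lit 7) (nat_lit 5))
    (@En.n l12617 (nat_lit 3804) (nat_lit 8) (nat_lit 6))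
    (@En.i (nat_lit 3707) (nat_lit 14) (nat_lit 10))
    (@En.n l8015 (nat_lit 3328) (nat_lit 11) (nat_lit 12))
    (@En.n l67 (nat_lit 1372) (nat_lit 11) (nat_lit 2))
    (@En.n l68 (nat_lit 2670) (nat_lit 13) (nat_lit 11))
    (@En.n l645 (nat_lit 1115) (nat_lit 1) (nat_lit 14))
    (@En.i (nat_lit 7517) (nat_lit 2) (nat_lit 10))
    (@En.n l17 (nat_lit 1372) (nat_lit 15) (nat_lit 2))))
  (@Cl.mk (nat_lit 0x2000c0009000600050004000c000c000c0007000400040004000a000e000b) (nat_lit 0x1000000200000c2) (nat_lit 16) Lb.e (@T16.mk En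
    (@En.n l68 (nat_lit 1381) (nat_lit 11) (nat_lit 11))
    (@En.n l11545 (nat_lit 1087) (nat_lit 1) (nat_lit 14))
    (@En.n l9717 (nat_lit 6365) (nat_lit 2) (nat_lit 10))
    (@En.n l15689 (nat_lit 1374) (nat_lit 12) (nat_lit 4))
    (@En.n l15690 (nat_lit 1377) (nat_lit 4) (nat_lit 4))
    (@En.i (nat_lit 1370) (nat_lit 5) (nat_lit 4))
    (@En.n l15691 (nat_lit 3092) (nat_lit 6) (nat_lit 7))
    (@En.n l742 (nat_lit 1372) (nat_lit 4) (nat_lit 12))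
    (@En.n l396 (nat_lit 1375) (nat_lit 4) (nat_lit 12))
    (@En.i (nat_lit 7004) (nat_lit 10) (nat_lit 12))
    (@En.n l15692 (nat_lit 3774) (nat_lit 10) (nat_lit 4))
    (@En.i (nat_lit 3758) (nat_lit 11) (nat_lit 5))
    (@En.n l15691 (nat_lit 3807) (nat_lit 13) (nat_lit 6))
    (@En.i (nat_lit 1380) (nat_lit 14) (nat_lit 9))
    (@En.n l15693 (nat_lit 861) (nat_lit 9) (nat_lit 12))
    (@En.n l67 (nat_lit 1373) (nat_lit 15) (nat_lit 2))))
  (@Cl.mk (nat_lit 0x2000800050004000a000e000b0002000c0008000600050004000b000e000c) (nat_lit 0x100000000c1) (nat_lit 16) Lb.e (@T16.mk En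
    (@En.n l15711 (nat_lit 1373) (nat_lit 8) (nat_lit 12))
    (@En.n l15712 (nat_lit 3230) (nat_lit 4) (nat_lit 14))
    (@En.n l4621 (nat_lit 7669) (nat_lit 10) (nat_lit 11))
    (@En.n l763 (nat_lit 3966) (nat_lit 3) (nat_lit 4))
    (@En.n l15713 (nat_lit 3884) (nat_lit 4) (nat_lit 5))
    (@En.i (nat_lit 3893) (nat_lit 5) (nat_lit 6))
    (@En.n l10321 (nat_lit 3033) (nat_lit 14) (nat_lit 8))
    (@En.n l765 (nat_lit 3213) (nat_lit 8) (nat_lit 12))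
    (@En.n l50 (nat_lit 1374) (nat_lit 8) (nat_lit 2))
    (@En.n l217 (nat_lit 1380) (nat_lit 10) (nat_lit 11))
    (@En.n l1546 (nat_lit 1024) (nat_lit 11) (nat_lit 14))
    (@En.n l8450 (nat_lit 7656) (nat_lit 12) (nat_lit 10))
    (@En.i (nat_lit 1376) (nat_lit 3) (nat_lit 4))
    (@En.n l14174 (nat_lit 1369) (nat_lit 14) (nat_lit 5))
    (@En.n l7525 (nat_lit 4355) (nat_lit 5) (nat_lit 8))
    (@En.n l67 (nat_lit 1374) (nat_lit 15) (nat_lit 2))))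
  (@Cl.mk (nat_lit 0x20005000a000e000b0002000c000a000600050004000c000b0006000e0004) (nat_lit 0x12000000a1000) (nat_lit 16) Lb.e (@T16.mk En
    (@En.n l50 (nat_lit 1373) (nat_lit 5) (nat_lit 4))
    (@En.n l16425 (nat_lit 1379) (nat_lit 1) (nat_lit 14))
    (@En.n l6958 (nat_lit 3098) (nat_lit 2) (nat_lit 6))
    (@En.n l12112 (nat_lit 1369) (nat_lit 3) (nat_lit 11))
    (@En.n l3492 (nat_lit 6192) (nat_lit 10) (nat_lit 12))
    (@En.n l1411 (nat_lit 3967) (nat_lit 5) (nat_lit 4))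
    (@En.i (nat_lit 3853) (nat_lit 6) (nat_lit 5))
    (@En.n l16426 (nat_lit 3888) (nat_lit 7) (nat_lit 6))
    (@En.i (nat_lit 2665) (nat_lit 9) (nat_lit 10))
    (@En.n l11245 (nat_lit 3212) (nat_lit 10) (nat_lit 12))
    (@En.n l67 (nat_lit 1375) (nat_lit 10) (nat_lit 2))
    (@En.n l68 (nat_lit 2974) (nat_lit 12) (nat_lit 11))
    (@En.n l3471 (nat_lit 1081) (nat_lit 13) (nat_lit 14))
    (@En.n l16425 (nat_lit 7514) (nat_lit 14) (nat_lit 10))
    (@En.n l15580 (nat_lit 2973) (nat_lit 13) (nat_lit 5))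
    (@En.n l18 (nat_lit 1375) (nat_lit 15) (nat_lit 2))))
noncomputable def a86 : T16 Cl := @T16.mk Cl
  (@Cl.mk (nat_lit 0x2000c0007000600050004000d000d000c0003000300090004000a000e000b) (nat_lit 0x100009a200000c2) (nat_lit 16) Lb.e (@T16.mk En
    (@En.n l217 (nat_lit 2645) (nat_lit 10) (nat_lit 11))
    (@En.n l1546 (nat_lit 1073) (nat_lit 1) (nat_lit 14))
    (@En.n l11060 (nat_lit 4847) (nat_lit 2) (nat_lit 10))
    (@En.n l6387 (nat_lit 1373) (nat_lit 3) (nat_lit 4))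
    (@En.n l12786 (nat_lit 4356) (nat_lit 4) (nat_lit 9))
    (@En.n l152 (nat_lit 1378) (nat_lit 5) (nat_lit 3))
    (@En.n l26389 (nat_lit 1379) (nat_lit 0) (nat_lit 3))
    (@En.n l619 (nat_lit 1377) (nat_lit 8) (nat_lit 12))
    (@En.n l26390 (nat_lit 1379) (nat_lit 3) (nat_lit 13))
    (@En.i (nat_lit 6190) (nat_lit 10) (nat_lit 13))
    (@En.n l763 (nat_lit 3965) (nat_lit 10) (nat_lit 4))
    (@En.n l12788 (nat_lit 3875) (nat_lit 4) (nat_lit 5))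
    (@En.i (nat_lit 3815) (nat_lit 13) (nat_lit 6))
    (@En.n l12788 (nat_lit 3963) (nat_lit 14) (nat_lit 7))
    (@En.n l765 (nat_lit 857) (nat_lit 8) (nat_lit 12))
    (@En.n l50 (nat_lit 1376) (nat_lit 15) (nat_lit 2))))
  (@Cl.mk (nat_lit 0x2000c0008000600050004000e000c0002000d000800040003000a000e000b) (nat_lit 0x11000c1010000c0) (nat_lit 16) Lb.e (@T16.mk En
    (@En.n l217 (nat_lit 2652) (nat_lit 9) (nat_lit 11))
    (@En.n l1546 (nat_lit 1122) (nat_lit 10) (nat_lit 14))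
    (@En.n l845 (nat_lit 7587) (nat_lit 11) (nat_lit 10))
    (@En.n l11 (nat_lit 1378) (nat_lit 3) (nat_lit 3))
    (@En.n l6385 (nat_lit 1372) (nat_lit 0) (nat_lit 4))
    (@En.i (nat_lit 3097) (nat_lit 14) (nat_lit 8))
    (@En.n l6386 (nat_lit 442) (nat_lit 7) (nat_lit 13))
    (@En.n l3 (nat_lit 1377) (nat_lit 7) (nat_lit 2))
    (@En.n l6387 (nat_lit 1373) (nat_lit 9) (nat_lit 12))
    (@En.i (nat_lit 6998) (nat_lit 1) (nat_lit 14))
    (@En.n l763 (nat_lit 4000) (nat_lit 10) (nat_lit 4))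
    (@En.n l6385 (nat_lit 3874) (nat_lit 3) (nat_lit 5))
    (@En.i (nat_lit 3809) (nat_lit 13) (nat_lit 6))
    (@En.n l6385 (nat_lit 1374) (nat_lit 14) (nat_lit 8))
    (@En.n l765 (nat_lit 852) (nat_lit 7) (nat_lit 12))
    (@En.n l50 (nat_lit 1377) (nat_lit 15) (nat_lit 2))))
  (@Cl.mk (nat_lit 0x2000c0007000600050004000e000d0002000d000300090003000a000e000b) (nat_lit 0x10000aa020000c0) (nat_lit 16) Lb.e (@T16.mk En
    (@En.n l217 (nat_lit 2651) (nat_lit 9) (nat_lit 11))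
    (@En.n l1546 (nat_lit 1121) (nat_lit 10) (nat_lit 14))
    (@En.n l4840 (nat_lit 4849) (nat_lit 11) (nat_lit 10))
    (@En.i (nat_lit 1377) (nat_lit 3) (nat_lit 3))
    (@En.n l2900 (nat_lit 5251) (nat_lit 0) (nat_lit 9))
    (@En.n l117 (nat_lit 1376) (nat_lit 5) (nat_lit 3))
    (@En.i (nat_lit 500) (nat_lit 0) (nat_lit 13))
    (@En.n l3 (nat_lit 1378) (nat_lit 7) (nat_lit 2))
    (@En.i (nat_lit 1376) (nat_lit 9) (nat_lit 13))
    (@En.i (nat_lit 6997) (nat_lit 1) (nat_lit 14))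
    (@En.n l763 (nat_lit 4001) (nat_lit 10) (nat_lit 4))
    (@En.n l2900 (nat_lit 3877) (nat_lit 3) (nat_lit 5))
    (@En.i (nat_lit 3814) (nat_lit 4) (nat_lit 6))
    (@En.n l2900 (nat_lit 3966) (nat_lit 14) (nat_lit 7))
    (@En.n l765 (nat_lit 855) (nat_lit 7) (nat_lit 12))
    (@En.n l50 (nat_lit 1378) (nat_lit 15) (nat_lit 2))))
  (@Cl.mk (nat_lit 0x200090005000a000e000b0002000c0007000600050004000d000b000e0003) (nat_lit 0x1001000091c0) (nat_lit 16) Lb.e (@T16.mk En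
    (@En.n l24712 (nat_lit 1376) (nat_lit 6) (nat_lit 3))
    (@En.n l476 (nat_lit 12849) (nat_lit 0) (nat_lit 14))
    (@En.n l24713 (nat_lit 1374) (nat_lit 2) (nat_lit 11))
    (@En.n l8874 (nat_lit 6189) (nat_lit 10) (nat_lit 13))
    (@En.i (nat_lit 3964) (nat_lit 4) (nat_lit 4))
    (@En.n l16069 (nat_lit 3881) (nat_lit 5) (nat_lit 5))
    (@En.n l24714 (nat_lit 3891) (nat_lit 6) (nat_lit 6))
    (@En.n l8874 (nat_lit 3962) (nat_lit 14) (nat_lit 7))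
    (@En.n l24715 (nat_lit 862) (nat_lit 9) (nat_lit 12))
    (@En.n l11 (nat_lit 1379) (nat_lit 9) (nat_lit 2))
    (@En.n l24716 (nat_lit 3076) (nat_lit 11) (nat_lit 11))
    (@En.n l11110 (nat_lit 1086) (nat_lit 12) (nat_lit 14))
    (@En.i (nat_lit 4846) (nat_lit 13) (nat_lit 10))
    (@En.n l24717 (nat_lit 1375) (nat_lit 14) (nat_lit 5))
    (@En.n l899 (nat_lit 4357) (nat_lit 4) (nat_lit 9))
    (@En.n l17 (nat_lit 1379) (nat_lit 15) (nat_lit 2))))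
  (@Cl.mk (nat_lit 0x2000900050004000b000b000b000b00070005000500050005000b000e000c) (nat_lit 0x700090700000060) (nat_lit 16) Lb.e (@T16.mk En
    (@En.n l12800 (nat_lit 1381) (nat_lit 2) (nat_lit 12))
    (@En.n l21897 (nat_lit 2969) (nat_lit 4) (nat_lit 14))
    (@En.n l9380 (nat_lit 7475) (nat_lit 2) (nat_lit 11))
    (@En.n l21898 (nat_lit 3033) (nat_lit 3) (nat_lit 5))
    (@En.n l2172 (nat_lit 1374) (nat_lit 4) (nat_lit 5))
    (@En.n l77 (nat_lit 4085) (nat_lit 5) (nat_lit 5))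
    (@En.i (nat_lit 3587) (nat_lit 6) (nat_lit 5))
    (@En.n l14010 (nat_lit 3692) (nat_lit 7) (nat_lit 7))
    (@En.n l742 (nat_lit 3707) (nat_lit 9) (nat_lit 11))
    (@En.n l396 (nat_lit 2665) (nat_lit 5) (nat_lit 11))
    (@En.n l6367 (nat_lit 3032) (nat_lit 5) (nat_lit 11))
    (@En.n l11546 (nat_lit 6445) (nat_lit 12) (nat_lit 11))
    (@En.i (nat_lit 2645) (nat_lit 12) (nat_lit 4))
    (@En.n l21899 (nat_lit 3706) (nat_lit 14) (nat_lit 5))
    (@En.n l21900 (nat_lit 3148) (nat_lit 1) (nat_lit 9))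
    (@En.n l67 (nat_lit 1380) (nat_lit 15) (nat_lit 2))))
  (@Cl.mk (nat_lit 0x400040004000b000b000b000b00080005000500050005000c000c000c0008) (nat_lit 0x100400000a23) (nat_lit 16) Lb.e (@T16.mk En
    (@En.n l14010 (nat_lit 1954) (nat_lit 0) (nat_lit 8))
    (@En.n l742 (nat_lit 2670) (nat_lit 4) (nat_lit 12))
    (@En.n l396 (nat_lit 2974) (nat_lit 4) (nat_lit 12))
    (@En.n l12620 (nat_lit 6672) (nat_lit 3) (nat_lit 12))
    (@En.n l218 (nat_lit 3692) (nat_lit 11) (nat_lit 5))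
    (@En.n l11 (nat_lit 1373) (nat_lit 11) (nat_lit 5))
    (@En.n l4976 (nat_lit 2683) (nat_lit 11) (nat_lit 5))
    (@En.n l12620 (nat_lit 3818) (nat_lit 7) (nat_lit 5))
    (@En.n l6366 (nat_lit 1381) (nat_lit 0) (nat_lit 8))
    (@En.n l15686 (nat_lit 2654) (nat_lit 5) (nat_lit 11))
    (@En.n l15687 (nat_lit 2667) (nat_lit 5) (nat_lit 11))
    (@En.n l6092 (nat_lit 1169) (nat_lit 5) (nat_lit 11))
    (@En.i (nat_lit 5884) (nat_lit 13) (nat_lit 11))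
    (@En.n l4906 (nat_lit 1380) (nat_lit 12) (nat_lit 4))
    (@En.n l15688 (nat_lit 2652) (nat_lit 12) (nat_lit 4))
    (@En.i (nat_lit 1166) (nat_lit 0) (nat_lit 4))))
  (@Cl.mk (nat_lit 0x20005000e000a0002000d000c0008000300060004000e000b0002000e0008) (nat_lit 0x10546000c1081) (nat_lit 16) Lb.e (@T16.mk En
    (@En.n l4089 (nat_lit 1281) (nat_lit 14) (nat_lit 8))
    (@En.n l3390 (nat_lit 1283) (nat_lit 1) (nat_lit 14))
    (@En.n l18 (nat_lit 1382) (nat_lit 2) (nat_lit 2))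
    (@En.n l3391 (nat_lit 1283) (nat_lit 3) (nat_lit 11))
    (@En.n l4090 (nat_lit 4872) (nat_lit 5) (nat_lit 14))
    (@En.i (nat_lit 2740) (nat_lit 5) (nat_lit 4))
    (@En.n l1172 (nat_lit 3614) (nat_lit 6) (nat_lit 6))
    (@En.n l4091 (nat_lit 1255) (nat_lit 7) (nat_lit 3))
    (@En.n l4092 (nat_lit 2485) (nat_lit 0) (nat_lit 8))
    (@En.n l4093 (nat_lit 1331) (nat_lit 10) (nat_lit 12))
    (@En.n l4094 (nat_lit 1274) (nat_lit 11) (nat_lit 13))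
    (@En.n l11 (nat_lit 1382) (nat_lit 11) (nat_lit 2))
    (@En.n l4095 (nat_lit 1274) (nat_lit 13) (nat_lit 10))
    (@En.n l387 (nat_lit 12544) (nat_lit 1) (nat_lit 14))
    (@En.n l1329 (nat_lit 1086) (nat_lit 13) (nat_lit 5))
    (@En.n l3 (nat_lit 1382) (nat_lit 15) (nat_lit 2))))
  (@Cl.mk (nat_lit 0x2000c000b00090009000400070005000c000c0007000700040004000e0009) (nat_lit 0x140100041000001) (nat_lit 16) Lb.e (@T16.mk En
    (@En.n l2847 (nat_lit 1279) (nat_lit 13) (nat_lit 9))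
    (@En.n l4607 (nat_lit 10352) (nat_lit 1) (nat_lit 14))
    (@En.n l4608 (nat_lit 1281) (nat_lit 12) (nat_lit 4))
    (@En.i (nat_lit 5095) (nat_lit 3) (nat_lit 4))
    (@En.n l233 (nat_lit 1385) (nat_lit 9) (nat_lit 7))
    (@En.n l4609 (nat_lit 5087) (nat_lit 5) (nat_lit 7))
    (@En.n l4610 (nat_lit 1348) (nat_lit 7) (nat_lit 12))
    (@En.n l1452 (nat_lit 6954) (nat_lit 8) (nat_lit 12))
    (@En.n l870 (nat_lit 2549) (nat_lit 8) (nat_lit 5))
    (@En.n l4611 (nat_lit 3652) (nat_lit 11) (nat_lit 7))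
    (@En.n l1455 (nat_lit 6783) (nat_lit 10) (nat_lit 4))
    (@En.n l1456 (nat_lit 1283) (nat_lit 7) (nat_lit 9))
    (@En.n l1452 (nat_lit 6774) (nat_lit 13) (nat_lit 9))
    (@En.n l833 (nat_lit 1327) (nat_lit 14) (nat_lit 11))
    (@En.n l4612 (nat_lit 1279) (nat_lit 11) (nat_lit 12))
    (@En.n l18 (nat_lit 1383) (nat_lit 15) (nat_lit 2))))
  (@Cl.mk (nat_lit 0x2000500080006000e000d000200080003000e00080002000b000a000e0008) (nat_lit 0x609506031024a1) (nat_lit 16) Lb.e (@T16.mk En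
    (@En.n l523 (nat_lit 1281) (nat_lit 6) (nat_lit 8))
    (@En.n l524 (nat_lit 1387) (nat_lit 8) (nat_lit 14))
    (@En.n l525 (nat_lit 1388) (nat_lit 9) (nat_lit 10))
    (@En.n l526 (nat_lit 1282) (nat_lit 3) (nat_lit 11))
    (@En.n l107 (nat_lit 1384) (nat_lit 4) (nat_lit 2))
    (@En.n l527 (nat_lit 1282) (nat_lit 5) (nat_lit 8))
    (@En.n l528 (nat_lit 11656) (nat_lit 7) (nat_lit 14))
    (@En.n l529 (nat_lit 1385) (nat_lit 7) (nat_lit 3))
    (@En.n l530 (nat_lit 1774) (nat_lit 3) (nat_lit 8))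
    (@En.n l7 (nat_lit 1384) (nat_lit 9) (nat_lit 2))
    (@En.n l531 (nat_lit 1385) (nat_lit 11) (nat_lit 13))
    (@En.n l532 (nat_lit 4990) (nat_lit 12) (nat_lit 14))
    (@En.n l533 (nat_lit 2547) (nat_lit 13) (nat_lit 6))
    (@En.n l534 (nat_lit 2567) (nat_lit 3) (nat_lit 8))
    (@En.n l534 (nat_lit 4165) (nat_lit 4) (nat_lit 5))
    (@En.n l17 (nat_lit 1384) (nat_lit 15) (nat_lit 2))))
  (@Cl.mk (nat_lit 0x2000500080006000d000d000700030003000e00080002000b000a000e0009) (nat_lit 0x60460005102491) (nat_lit 16) Lb.e (@T16.mk En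
    (@En.n l1458 (nat_lit 1383) (nat_lit 12) (nat_lit 9))
    (@En.n l1459 (nat_lit 1386) (nat_lit 13) (nat_lit 14))
    (@En.n l1460 (nat_lit 1237) (nat_lit 14) (nat_lit 10))
    (@En.n l612 (nat_lit 1352) (nat_lit 3) (nat_lit 11))
    (@En.n l50 (nat_lit 1385) (nat_lit 4) (nat_lit 2))
    (@En.i (nat_lit 1352) (nat_lit 5) (nat_lit 8))
    (@En.n l1461 (nat_lit 12104) (nat_lit 7) (nat_lit 14))
    (@En.n l1094 (nat_lit 1384) (nat_lit 7) (nat_lit 3))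
    (@En.n l11 (nat_lit 1351) (nat_lit 8) (nat_lit 3))
    (@En.n l872 (nat_lit 1391) (nat_lit 0) (nat_lit 7))
    (@En.n l55 (nat_lit 1351) (nat_lit 11) (nat_lit 13))
    (@En.i (nat_lit 6968) (nat_lit 12) (nat_lit 13))
    (@En.i (nat_lit 2546) (nat_lit 13) (nat_lit 6))
    (@En.n l617 (nat_lit 2568) (nat_lit 14) (nat_lit 8))
    (@En.n l58 (nat_lit 3674) (nat_lit 13) (nat_lit 5))
    (@En.n l3 (nat_lit 1385) (nat_lit 15) (nat_lit 2))))
  (@Cl.mk (nat_lit 0x2000b000e00080002000d000500080003000d000d000800030003000e0008) (nat_lit 0x181040508760081) (nat_lit 16) Lb.e (@T16.mk En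
    (@En.n l4616 (nat_lit 1263) (nat_lit 4) (nat_lit 8))
    (@En.n l4617 (nat_lit 12098) (nat_lit 1) (nat_lit 14))
    (@En.n l4618 (nat_lit 1387) (nat_lit 13) (nat_lit 3))
    (@En.n l4619 (nat_lit 1830) (nat_lit 3) (nat_lit 3))
    (@En.n l4620 (nat_lit 1389) (nat_lit 0) (nat_lit 8))
    (@En.n l4621 (nat_lit 1830) (nat_lit 6) (nat_lit 13))
    (@En.i (nat_lit 6701) (nat_lit 11) (nat_lit 13))
    (@En.n l4622 (nat_lit 1237) (nat_lit 7) (nat_lit 3))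
    (@En.n l4623 (nat_lit 1832) (nat_lit 0) (nat_lit 8))
    (@En.n l4624 (nat_lit 1385) (nat_lit 14) (nat_lit 5))
    (@En.n l4625 (nat_lit 1112) (nat_lit 11) (nat_lit 13))
    (@En.n l67 (nat_lit 1386) (nat_lit 11) (nat_lit 2))
    (@En.n l4626 (nat_lit 1326) (nat_lit 13) (nat_lit 8))
    (@En.n l4627 (nat_lit 1838) (nat_lit 4) (nat_lit 14))
    (@En.n l4628 (nat_lit 1263) (nat_lit 2) (nat_lit 11))
    (@En.n l18 (nat_lit 1386) (nat_lit 15) (nat_lit 2))))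
  (@Cl.mk (nat_lit 0x200090003000e00080002000b000e00070002000d000500080003000e000d) (nat_lit 0x704102900305099) (nat_lit 16) Lb.e (@T16.mk En
    (@En.n l1752 (nat_lit 1386) (nat_lit 6) (nat_lit 13))
    (@En.n l1753 (nat_lit 4988) (nat_lit 1) (nat_lit 14))
    (@En.n l1754 (nat_lit 1388) (nat_lit 2) (nat_lit 3))
    (@En.n l1755 (nat_lit 1839) (nat_lit 3) (nat_lit 8))
    (@En.n l619 (nat_lit 1384) (nat_lit 14) (nat_lit 5))
    (@En.n l1756 (nat_lit 1592) (nat_lit 6) (nat_lit 13))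
    (@En.n l17 (nat_lit 1387) (nat_lit 6) (nat_lit 2))
    (@En.n l1757 (nat_lit 1329) (nat_lit 7) (nat_lit 7))
    (@En.n l1758 (nat_lit 1840) (nat_lit 4) (nat_lit 14))
    (@En.n l1759 (nat_lit 1265) (nat_lit 10) (nat_lit 11))
    (@En.n l11 (nat_lit 1387) (nat_lit 10) (nat_lit 2))
    (@En.n l575 (nat_lit 1265) (nat_lit 12) (nat_lit 8))
    (@En.n l1760 (nat_lit 11655) (nat_lit 1) (nat_lit 14))
    (@En.n l1761 (nat_lit 1386) (nat_lit 2) (nat_lit 3))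
    (@En.n l1762 (nat_lit 1395) (nat_lit 3) (nat_lit 9))
    (@En.n l7 (nat_lit 1387) (nat_lit 15) (nat_lit 2))))
  (@Cl.mk (nat_lit 0x200090003000e00090002000a000e00070002000d000700060003000e000d) (nat_lit 0x706103800600007) (nat_lit 16) Lb.e (@T16.mk En
    (@En.n l601 (nat_lit 1237) (nat_lit 6) (nat_lit 13))
    (@En.n l1763 (nat_lit 5383) (nat_lit 1) (nat_lit 14))
    (@En.n l1764 (nat_lit 1387) (nat_lit 2) (nat_lit 3))
    (@En.n l1765 (nat_lit 1840) (nat_lit 3) (nat_lit 6))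
    (@En.n l1766 (nat_lit 3494) (nat_lit 14) (nat_lit 7))
    (@En.n l1767 (nat_lit 1593) (nat_lit 6) (nat_lit 13))
    (@En.n l17 (nat_lit 1388) (nat_lit 6) (nat_lit 2))
    (@En.n l1768 (nat_lit 1328) (nat_lit 7) (nat_lit 7))
    (@En.n l1769 (nat_lit 1837) (nat_lit 9) (nat_lit 14))
    (@En.i (nat_lit 1235) (nat_lit 10) (nat_lit 10))
    (@En.n l1770 (nat_lit 1388) (nat_lit 10) (nat_lit 2))
    (@En.n l1771 (nat_lit 1239) (nat_lit 12) (nat_lit 9))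
    (@En.i (nat_lit 11657) (nat_lit 1) (nat_lit 14))
    (@En.i (nat_lit 1237) (nat_lit 2) (nat_lit 3))
    (@En.i (nat_lit 1540) (nat_lit 3) (nat_lit 9))
    (@En.n l7 (nat_lit 1388) (nat_lit 15) (nat_lit 2))))
  (@Cl.mk (nat_lit 0x20009000e00070002000a000d000800070003000d000600090003000e0008) (nat_lit 0x470007100800055) (nat_lit 16) Lb.e (@T16.mk En
    (@En.n l11882 (nat_lit 1394) (nat_lit 4) (nat_lit 8))
    (@En.n l4921 (nat_lit 5207) (nat_lit 1) (nat_lit 14))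
    (@En.n l1422 (nat_lit 1390) (nat_lit 6) (nat_lit 3))
    (@En.n l11883 (nat_lit 2046) (nat_lit 3) (nat_lit 9))
    (@En.n l11884 (nat_lit 1391) (nat_lit 4) (nat_lit 6))
    (@En.n l4923 (nat_lit 1578) (nat_lit 6) (nat_lit 13))
    (@En.n l10848 (nat_lit 1392) (nat_lit 10) (nat_lit 3))
    (@En.n l11885 (nat_lit 1387) (nat_lit 7) (nat_lit 7))
    (@En.n l771 (nat_lit 1178) (nat_lit 13) (nat_lit 8))
    (@En.n l11886 (nat_lit 1388) (nat_lit 5) (nat_lit 13))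
    (@En.n l8884 (nat_lit 1393) (nat_lit 11) (nat_lit 10))
    (@En.n l17 (nat_lit 1389) (nat_lit 11) (nat_lit 2))
    (@En.n l11887 (nat_lit 1393) (nat_lit 13) (nat_lit 7))
    (@En.i (nat_lit 11069) (nat_lit 1) (nat_lit 14))
    (@En.n l11886 (nat_lit 1485) (nat_lit 2) (nat_lit 9))
    (@En.n l50 (nat_lit 1389) (nat_lit 15) (nat_lit 2))))
  (@Cl.mk (nat_lit 0x20009000d000800070003000d000800070003000e000800020009000e0008) (nat_lit 0x340008500560350) (nat_lit 16) Lb.e (@T16.mk En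
    (@En.n l11888 (nat_lit 1396) (nat_lit 13) (nat_lit 8))
    (@En.i (nat_lit 12340) (nat_lit 1) (nat_lit 14))
    (@En.n l7857 (nat_lit 1525) (nat_lit 2) (nat_lit 9))
    (@En.n l17 (nat_lit 1390) (nat_lit 3) (nat_lit 2))
    (@En.n l11889 (nat_lit 1415) (nat_lit 4) (nat_lit 8))
    (@En.n l11890 (nat_lit 7699) (nat_lit 1) (nat_lit 14))
    (@En.n l8936 (nat_lit 1389) (nat_lit 2) (nat_lit 3))
    (@En.i (nat_lit 2049) (nat_lit 3) (nat_lit 7))
    (@En.n l11484 (nat_lit 2586) (nat_lit 4) (nat_lit 8))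
    (@En.n l1883 (nat_lit 1568) (nat_lit 6) (nat_lit 13))
    (@En.n l28 (nat_lit 1537) (nat_lit 10) (nat_lit 3))
    (@En.n l8940 (nat_lit 1388) (nat_lit 7) (nat_lit 7))
    (@En.n l1883 (nat_lit 1544) (nat_lit 13) (nat_lit 8))
    (@En.n l7857 (nat_lit 1237) (nat_lit 10) (nat_lit 13))
    (@En.n l8940 (nat_lit 1288) (nat_lit 11) (nat_lit 9))
    (@En.n l3 (nat_lit 1390) (nat_lit 15) (nat_lit 2))))
  (@Cl.mk (nat_lit 0x20008000e00070002000a0009000d000900080003000600090007000e0007) (nat_lit 0x440004802000040) (nat_lit 16) Lb.e (@T16.mk En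
    (@En.n l394 (nat_lit 1509) (nat_lit 4) (nat_lit 7))
    (@En.n l4438 (nat_lit 5211) (nat_lit 6) (nat_lit 14))
    (@En.n l4439 (nat_lit 2057) (nat_lit 2) (nat_lit 7))
    (@En.n l4438 (nat_lit 2283) (nat_lit 3) (nat_lit 9))
    (@En.i (nat_lit 1864) (nat_lit 4) (nat_lit 6))
    (@En.n l2617 (nat_lit 1515) (nat_lit 5) (nat_lit 3))
    (@En.n l124 (nat_lit 1384) (nat_lit 0) (nat_lit 8))
    (@En.n l4440 (nat_lit 5087) (nat_lit 12) (nat_lit 9))
    (@En.n l4441 (nat_lit 1389) (nat_lit 9) (nat_lit 13))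
    (@En.n l4442 (nat_lit 1390) (nat_lit 14) (nat_lit 9))
    (@En.n l4443 (nat_lit 1516) (nat_lit 11) (nat_lit 10))
    (@En.n l18 (nat_lit 1391) (nat_lit 11) (nat_lit 2))
    (@En.n l4444 (nat_lit 1516) (nat_lit 13) (nat_lit 7))
    (@En.n l1381 (nat_lit 12341) (nat_lit 1) (nat_lit 14))
    (@En.n l4445 (nat_lit 1488) (nat_lit 2) (nat_lit 8))
    (@En.n l28 (nat_lit 1391) (nat_lit 15) (nat_lit 2))))
noncomputable def a87 : T16 Cl := @T16.mk Cl
  (@Cl.mk (nat_lit 0x2000a000d000600090003000d000600090003000e00070002000a000e0007) (nat_lit 0x40208000700070) (nat_lit 16) Lb.e (@T16.mk En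
    (@En.i (nat_lit 1405) (nat_lit 13) (nat_lit 7))
    (@En.i (nat_lit 12332) (nat_lit 1) (nat_lit 14))
    (@En.n l617 (nat_lit 1447) (nat_lit 2) (nat_lit 10))
    (@En.n l17 (nat_lit 1392) (nat_lit 3) (nat_lit 2))
    (@En.i (nat_lit 1447) (nat_lit 4) (nat_lit 7))
    (@En.n l1531 (nat_lit 5209) (nat_lit 1) (nat_lit 14))
    (@En.n l10252 (nat_lit 1537) (nat_lit 6) (nat_lit 3))
    (@En.i (nat_lit 2045) (nat_lit 3) (nat_lit 9))
    (@En.n l13240 (nat_lit 1515) (nat_lit 4) (nat_lit 6))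
    (@En.n l3870 (nat_lit 2001) (nat_lit 6) (nat_lit 13))
    (@En.n l3871 (nat_lit 1389) (nat_lit 6) (nat_lit 3))
    (@En.n l13241 (nat_lit 1830) (nat_lit 12) (nat_lit 9))
    (@En.n l3858 (nat_lit 1579) (nat_lit 8) (nat_lit 6))
    (@En.n l13242 (nat_lit 1387) (nat_lit 5) (nat_lit 13))
    (@En.n l2678 (nat_lit 1405) (nat_lit 11) (nat_lit 10))
    (@En.n l11 (nat_lit 1392) (nat_lit 15) (nat_lit 2))))
  (@Cl.mk (nat_lit 0x2000a00070007000a000d000700060003000c0006000900090004000e0009) (nat_lit 0x400860006061066) (nat_lit 16) Lb.e (@T16.mk En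
    (@En.n l25562 (nat_lit 1409) (nat_lit 14) (nat_lit 9))
    (@En.n l25563 (nat_lit 5208) (nat_lit 1) (nat_lit 14))
    (@En.n l1758 (nat_lit 1288) (nat_lit 2) (nat_lit 4))
    (@En.n l25564 (nat_lit 1389) (nat_lit 3) (nat_lit 9))
    (@En.n l13499 (nat_lit 1719) (nat_lit 4) (nat_lit 9))
    (@En.n l619 (nat_lit 1516) (nat_lit 5) (nat_lit 6))
    (@En.n l5854 (nat_lit 1565) (nat_lit 7) (nat_lit 12))
    (@En.n l22025 (nat_lit 1405) (nat_lit 7) (nat_lit 3))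
    (@En.i (nat_lit 1265) (nat_lit 8) (nat_lit 6))
    (@En.n l5854 (nat_lit 1176) (nat_lit 10) (nat_lit 7))
    (@En.n l1758 (nat_lit 1328) (nat_lit 5) (nat_lit 13))
    (@En.n l107 (nat_lit 1398) (nat_lit 8) (nat_lit 10))
    (@En.n l575 (nat_lit 1398) (nat_lit 9) (nat_lit 7))
    (@En.n l25563 (nat_lit 11523) (nat_lit 14) (nat_lit 7))
    (@En.n l5856 (nat_lit 1436) (nat_lit 12) (nat_lit 10))
    (@En.n l7 (nat_lit 1393) (nat_lit 15) (nat_lit 2))))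
  (@Cl.mk (nat_lit 0x20009000c0008000800080004000d0007000a0003000800080008000e0006) (nat_lit 0x65230900045370) (nat_lit 16) Lb.e (@T16.mk En
    (@En.i (nat_lit 1409) (nat_lit 11) (nat_lit 6))
    (@En.n l1910 (nat_lit 10738) (nat_lit 1) (nat_lit 14))
    (@En.n l1911 (nat_lit 1522) (nat_lit 8) (nat_lit 8))
    (@En.n l527 (nat_lit 1446) (nat_lit 3) (nat_lit 8))
    (@En.n l13729 (nat_lit 7837) (nat_lit 4) (nat_lit 8))
    (@En.n l12212 (nat_lit 1415) (nat_lit 5) (nat_lit 3))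
    (@En.n l6248 (nat_lit 2041) (nat_lit 0) (nat_lit 10))
    (@En.n l13730 (nat_lit 1509) (nat_lit 7) (nat_lit 7))
    (@En.n l13731 (nat_lit 1519) (nat_lit 9) (nat_lit 13))
    (@En.n l12531 (nat_lit 1447) (nat_lit 9) (nat_lit 4))
    (@En.n l5322 (nat_lit 1539) (nat_lit 11) (nat_lit 8))
    (@En.n l13732 (nat_lit 1389) (nat_lit 8) (nat_lit 8))
    (@En.n l6248 (nat_lit 1482) (nat_lit 13) (nat_lit 8))
    (@En.i (nat_lit 1239) (nat_lit 6) (nat_lit 12))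
    (@En.n l617 (nat_lit 1409) (nat_lit 9) (nat_lit 9))
    (@En.n l17 (nat_lit 1394) (nat_lit 15) (nat_lit 2))))
  (@Cl.mk (nat_lit 0x2000a000d0007000a0003000d0006000900030006000e00090002000e0007) (nat_lit 0x40008060066040) (nat_lit 16) Lb.e (@T16.mk En
    (@En.i (nat_lit 1430) (nat_lit 14) (nat_lit 7))
    (@En.n l1531 (nat_lit 7452) (nat_lit 1) (nat_lit 14))
    (@En.n l3 (nat_lit 1395) (nat_lit 2) (nat_lit 2))
    (@En.n l1532 (nat_lit 1485) (nat_lit 3) (nat_lit 9))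
    (@En.n l4777 (nat_lit 1389) (nat_lit 1) (nat_lit 14))
    (@En.i (nat_lit 6026) (nat_lit 12) (nat_lit 6))
    (@En.n l3327 (nat_lit 1540) (nat_lit 6) (nat_lit 3))
    (@En.n l4778 (nat_lit 1730) (nat_lit 0) (nat_lit 9))
    (@En.i (nat_lit 1774) (nat_lit 8) (nat_lit 6))
    (@En.i (nat_lit 1484) (nat_lit 10) (nat_lit 13))
    (@En.i (nat_lit 1539) (nat_lit 10) (nat_lit 3))
    (@En.n l3324 (nat_lit 12898) (nat_lit 8) (nat_lit 10))
    (@En.i (nat_lit 1181) (nat_lit 13) (nat_lit 7))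
    (@En.i (nat_lit 1231) (nat_lit 5) (nat_lit 13))
    (@En.n l617 (nat_lit 1430) (nat_lit 12) (nat_lit 10))
    (@En.n l17 (nat_lit 1395) (nat_lit 15) (nat_lit 2))))
  (@Cl.mk (nat_lit 0x2000a000800080008000d000700060003000c0008000800080004000e0009) (nat_lit 0x460270004560067) (nat_lit 16) Lb.e (@T16.mk En
    (@En.i (nat_lit 1412) (nat_lit 14) (nat_lit 9))
    (@En.n l1643 (nat_lit 7487) (nat_lit 1) (nat_lit 14))
    (@En.n l159 (nat_lit 1393) (nat_lit 2) (nat_lit 4))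
    (@En.n l25565 (nat_lit 1719) (nat_lit 3) (nat_lit 8))
    (@En.n l25566 (nat_lit 1390) (nat_lit 8) (nat_lit 8))
    (@En.n l1910 (nat_lit 1998) (nat_lit 5) (nat_lit 8))
    (@En.n l12209 (nat_lit 1566) (nat_lit 7) (nat_lit 12))
    (@En.n l18694 (nat_lit 1295) (nat_lit 7) (nat_lit 3))
    (@En.i (nat_lit 1239) (nat_lit 8) (nat_lit 6))
    (@En.n l25567 (nat_lit 983) (nat_lit 10) (nat_lit 7))
    (@En.n l1910 (nat_lit 1327) (nat_lit 11) (nat_lit 13))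
    (@En.n l180 (nat_lit 1287) (nat_lit 8) (nat_lit 8))
    (@En.n l527 (nat_lit 1397) (nat_lit 8) (nat_lit 8))
    (@En.n l9440 (nat_lit 11520) (nat_lit 14) (nat_lit 8))
    (@En.n l25568 (nat_lit 955) (nat_lit 12) (nat_lit 10))
    (@En.n l7 (nat_lit 1396) (nat_lit 15) (nat_lit 2))))
  (@Cl.mk (nat_lit 0x200090005000e000a0002000b00080007000d000600050003000b000e0008) (nat_lit 0x207704605000606) (nat_lit 16) Lb.e (@T16.mk En
    (@En.i (nat_lit 1396) (nat_lit 5) (nat_lit 8))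
    (@En.n l619 (nat_lit 1629) (nat_lit 7) (nat_lit 14))
    (@En.n l21331 (nat_lit 1564) (nat_lit 2) (nat_lit 11))
    (@En.i (nat_lit 1399) (nat_lit 3) (nat_lit 3))
    (@En.i (nat_lit 1261) (nat_lit 4) (nat_lit 5))
    (@En.i (nat_lit 988) (nat_lit 5) (nat_lit 6))
    (@En.n l6050 (nat_lit 1330) (nat_lit 7) (nat_lit 13))
    (@En.i (nat_lit 445) (nat_lit 7) (nat_lit 7))
    (@En.n l9440 (nat_lit 11522) (nat_lit 14) (nat_lit 8))
    (@En.n l50 (nat_lit 958) (nat_lit 10) (nat_lit 11))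
    (@En.n l7 (nat_lit 1397) (nat_lit 10) (nat_lit 2))
    (@En.i (nat_lit 1400) (nat_lit 12) (nat_lit 10))
    (@En.n l1643 (nat_lit 7490) (nat_lit 1) (nat_lit 14))
    (@En.n l159 (nat_lit 1398) (nat_lit 14) (nat_lit 5))
    (@En.n l11 (nat_lit 1393) (nat_lit 3) (nat_lit 9))
    (@En.n l107 (nat_lit 1397) (nat_lit 15) (nat_lit 2))))
  (@Cl.mk (nat_lit 0x20005000e000a0002000b0007000a000d000600050003000b0006000e0009) (nat_lit 0x77040740006017) (nat_lit 16) Lb.e (@T16.mk En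
    (@En.i (nat_lit 1393) (nat_lit 4) (nat_lit 9))
    (@En.n l180 (nat_lit 1397) (nat_lit 1) (nat_lit 14))
    (@En.n l619 (nat_lit 1401) (nat_lit 2) (nat_lit 6))
    (@En.n l5854 (nat_lit 1556) (nat_lit 3) (nat_lit 11))
    (@En.i (nat_lit 1402) (nat_lit 4) (nat_lit 3))
    (@En.i (nat_lit 1262) (nat_lit 5) (nat_lit 5))
    (@En.n l5854 (nat_lit 1175) (nat_lit 6) (nat_lit 6))
    (@En.n l28712 (nat_lit 1331) (nat_lit 8) (nat_lit 13))
    (@En.n l5853 (nat_lit 13613) (nat_lit 8) (nat_lit 10))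
    (@En.n l998 (nat_lit 9438) (nat_lit 14) (nat_lit 7))
    (@En.n l5856 (nat_lit 1435) (nat_lit 11) (nat_lit 11))
    (@En.n l7 (nat_lit 1398) (nat_lit 11) (nat_lit 2))
    (@En.n l5852 (nat_lit 1403) (nat_lit 13) (nat_lit 10))
    (@En.n l1643 (nat_lit 5215) (nat_lit 1) (nat_lit 14))
    (@En.i (nat_lit 1286) (nat_lit 13) (nat_lit 5))
    (@En.n l11 (nat_lit 1398) (nat_lit 15) (nat_lit 2))))
  (@Cl.mk (nat_lit 0x200090005000e00090002000c00080007000d000400070003000b000e0008) (nat_lit 0x209700606000606) (nat_lit 16) Lb.e (@T16.mk En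
    (@En.n l18694 (nat_lit 1295) (nat_lit 5) (nat_lit 8))
    (@En.n l619 (nat_lit 1635) (nat_lit 7) (nat_lit 14))
    (@En.n l9507 (nat_lit 1458) (nat_lit 2) (nat_lit 11))
    (@En.n l17 (nat_lit 1397) (nat_lit 3) (nat_lit 3))
    (@En.n l826 (nat_lit 1887) (nat_lit 4) (nat_lit 7))
    (@En.n l17 (nat_lit 496) (nat_lit 5) (nat_lit 4))
    (@En.n l6050 (nat_lit 1249) (nat_lit 7) (nat_lit 13))
    (@En.i (nat_lit 407) (nat_lit 7) (nat_lit 7))
    (@En.n l18695 (nat_lit 8629) (nat_lit 14) (nat_lit 8))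
    (@En.n l9508 (nat_lit 1406) (nat_lit 10) (nat_lit 12))
    (@En.n l7 (nat_lit 1399) (nat_lit 10) (nat_lit 2))
    (@En.n l5734 (nat_lit 1406) (nat_lit 12) (nat_lit 9))
    (@En.n l9509 (nat_lit 7491) (nat_lit 1) (nat_lit 14))
    (@En.n l159 (nat_lit 1402) (nat_lit 14) (nat_lit 5))
    (@En.n l18696 (nat_lit 1405) (nat_lit 3) (nat_lit 9))
    (@En.n l107 (nat_lit 1399) (nat_lit 15) (nat_lit 2))))
  (@Cl.mk (nat_lit 0x2000a0005000a000a000a00070006000c0006000600060004000b000e0009) (nat_lit 0x2067300300007a7) (nat_lit 16) Lb.e (@T16.mk En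
    (@En.i (nat_lit 1412) (nat_lit 2) (nat_lit 9))
    (@En.n l19920 (nat_lit 1628) (nat_lit 4) (nat_lit 14))
    (@En.n l6522 (nat_lit 443) (nat_lit 2) (nat_lit 11))
    (@En.n l5734 (nat_lit 1406) (nat_lit 3) (nat_lit 4))
    (@En.n l601 (nat_lit 1424) (nat_lit 10) (nat_lit 6))
    (@En.n l77 (nat_lit 1397) (nat_lit 5) (nat_lit 6))
    (@En.n l6064 (nat_lit 952) (nat_lit 6) (nat_lit 6))
    (@En.n l6050 (nat_lit 1247) (nat_lit 8) (nat_lit 12))
    (@En.i (nat_lit 402) (nat_lit 8) (nat_lit 6))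
    (@En.n l19921 (nat_lit 9432) (nat_lit 10) (nat_lit 7))
    (@En.n l397 (nat_lit 1466) (nat_lit 6) (nat_lit 10))
    (@En.n l5670 (nat_lit 1438) (nat_lit 6) (nat_lit 10))
    (@En.n l15392 (nat_lit 7159) (nat_lit 13) (nat_lit 10))
    (@En.n l19922 (nat_lit 1403) (nat_lit 14) (nat_lit 5))
    (@En.n l19923 (nat_lit 1409) (nat_lit 0) (nat_lit 10))
    (@En.n l107 (nat_lit 1400) (nat_lit 15) (nat_lit 2))))
  (@Cl.mk (nat_lit 0x20009000e00090002000a0007000a0007000d0007000600030006000e0009) (nat_lit 0x561040705000006) (nat_lit 16) Lb.e (@T16.mk En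
    (@En.i (nat_lit 1516) (nat_lit 4) (nat_lit 9))
    (@En.n l97 (nat_lit 1649) (nat_lit 1) (nat_lit 14))
    (@En.n l1776 (nat_lit 1861) (nat_lit 12) (nat_lit 6))
    (@En.i (nat_lit 1407) (nat_lit 3) (nat_lit 3))
    (@En.i (nat_lit 1268) (nat_lit 0) (nat_lit 6))
    (@En.n l22060 (nat_lit 5082) (nat_lit 5) (nat_lit 7))
    (@En.n l524 (nat_lit 1398) (nat_lit 7) (nat_lit 13))
    (@En.i (nat_lit 1397) (nat_lit 7) (nat_lit 7))
    (@En.i (nat_lit 13646) (nat_lit 8) (nat_lit 10))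
    (@En.n l11891 (nat_lit 11526) (nat_lit 14) (nat_lit 7))
    (@En.n l50 (nat_lit 1437) (nat_lit 11) (nat_lit 10))
    (@En.n l7 (nat_lit 1401) (nat_lit 11) (nat_lit 2))
    (@En.i (nat_lit 1199) (nat_lit 13) (nat_lit 9))
    (@En.n l532 (nat_lit 5216) (nat_lit 1) (nat_lit 14))
    (@En.n l11 (nat_lit 2587) (nat_lit 2) (nat_lit 9))
    (@En.n l107 (nat_lit 1401) (nat_lit 15) (nat_lit 2))))
  (@Cl.mk (nat_lit 0x20005000e00090002000c0007000a000d000400070003000b0006000e0009) (nat_lit 0x97000740006017) (nat_lit 16) Lb.e (@T16.mk En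
    (@En.n l22025 (nat_lit 1405) (nat_lit 4) (nat_lit 9))
    (@En.n l180 (nat_lit 1399) (nat_lit 1) (nat_lit 14))
    (@En.n l619 (nat_lit 1407) (nat_lit 2) (nat_lit 6))
    (@En.n l22026 (nat_lit 1457) (nat_lit 3) (nat_lit 11))
    (@En.n l17 (nat_lit 1398) (nat_lit 4) (nat_lit 3))
    (@En.n l22027 (nat_lit 1886) (nat_lit 5) (nat_lit 7))
    (@En.n l3325 (nat_lit 1586) (nat_lit 6) (nat_lit 4))
    (@En.n l22028 (nat_lit 1255) (nat_lit 8) (nat_lit 13))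
    (@En.n l2575 (nat_lit 13611) (nat_lit 8) (nat_lit 10))
    (@En.n l2581 (nat_lit 8633) (nat_lit 14) (nat_lit 7))
    (@En.n l9508 (nat_lit 1404) (nat_lit 11) (nat_lit 12))
    (@En.n l7 (nat_lit 1402) (nat_lit 11) (nat_lit 2))
    (@En.n l5734 (nat_lit 1404) (nat_lit 13) (nat_lit 9))
    (@En.n l1643 (nat_lit 5217) (nat_lit 1) (nat_lit 14))
    (@En.i (nat_lit 1289) (nat_lit 13) (nat_lit 5))
    (@En.n l11 (nat_lit 1402) (nat_lit 15) (nat_lit 2))))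
  (@Cl.mk (nat_lit 0x20005000a000a000a00060009000c0006000600060004000b0007000e000a) (nat_lit 0x673063000070b8) (nat_lit 16) Lb.e (@T16.mk En
    (@En.n l14591 (nat_lit 1409) (nat_lit 1) (nat_lit 10))
    (@En.n l13862 (nat_lit 1400) (nat_lit 1) (nat_lit 14))
    (@En.n l13231 (nat_lit 1199) (nat_lit 2) (nat_lit 7))
    (@En.n l5643 (nat_lit 1551) (nat_lit 3) (nat_lit 11))
    (@En.n l19869 (nat_lit 1404) (nat_lit 4) (nat_lit 4))
    (@En.n l1778 (nat_lit 1425) (nat_lit 5) (nat_lit 6))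
    (@En.n l13234 (nat_lit 1398) (nat_lit 6) (nat_lit 6))
    (@En.n l7918 (nat_lit 1480) (nat_lit 7) (nat_lit 6))
    (@En.i (nat_lit 1271) (nat_lit 9) (nat_lit 12))
    (@En.n l798 (nat_lit 13610) (nat_lit 9) (nat_lit 9))
    (@En.n l5802 (nat_lit 9433) (nat_lit 11) (nat_lit 6))
    (@En.n l742 (nat_lit 1467) (nat_lit 6) (nat_lit 10))
    (@En.n l5913 (nat_lit 1439) (nat_lit 13) (nat_lit 10))
    (@En.n l35629 (nat_lit 7748) (nat_lit 14) (nat_lit 10))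
    (@En.i (nat_lit 421) (nat_lit 13) (nat_lit 5))
    (@En.n l28 (nat_lit 1403) (nat_lit 15) (nat_lit 2))))
  (@Cl.mk (nat_lit 0x2000500090009000c00060009000c0004000700070004000b0007000e000a) (nat_lit 0x67a00400007008) (nat_lit 16) Lb.e (@T16.mk En
    (@En.n l12639 (nat_lit 1408) (nat_lit 1) (nat_lit 10))
    (@En.n l180 (nat_lit 1406) (nat_lit 1) (nat_lit 14))
    (@En.n l35575 (nat_lit 1194) (nat_lit 2) (nat_lit 7))
    (@En.n l18 (nat_lit 1459) (nat_lit 3) (nat_lit 11))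
    (@En.n l3348 (nat_lit 1435) (nat_lit 4) (nat_lit 4))
    (@En.n l18476 (nat_lit 1402) (nat_lit 5) (nat_lit 7))
    (@En.n l2368 (nat_lit 1425) (nat_lit 6) (nat_lit 7))
    (@En.n l7053 (nat_lit 1585) (nat_lit 7) (nat_lit 4))
    (@En.n l12639 (nat_lit 1250) (nat_lit 9) (nat_lit 12))
    (@En.n l3348 (nat_lit 13608) (nat_lit 9) (nat_lit 9))
    (@En.n l35576 (nat_lit 9128) (nat_lit 11) (nat_lit 6))
    (@En.n l12529 (nat_lit 1441) (nat_lit 12) (nat_lit 12))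
    (@En.n l6147 (nat_lit 1441) (nat_lit 13) (nat_lit 9))
    (@En.n l6131 (nat_lit 7844) (nat_lit 14) (nat_lit 9))
    (@En.i (nat_lit 1292) (nat_lit 13) (nat_lit 5))
    (@En.n l11 (nat_lit 1404) (nat_lit 15) (nat_lit 2))))
  (@Cl.mk (nat_lit 0x2000b00070007000a000d000500080003000c0006000900090004000e0008) (nat_lit 0x850207061086) (nat_lit 16) Lb.e (@T16.mk En
    (@En.n l9790 (nat_lit 1408) (nat_lit 14) (nat_lit 8))
    (@En.n l1531 (nat_lit 5210) (nat_lit 1) (nat_lit 14))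
    (@En.n l24803 (nat_lit 1290) (nat_lit 2) (nat_lit 4))
    (@En.n l575 (nat_lit 1392) (nat_lit 7) (nat_lit 9))
    (@En.i (nat_lit 1720) (nat_lit 4) (nat_lit 9))
    (@En.n l13240 (nat_lit 1514) (nat_lit 5) (nat_lit 6))
    (@En.n l24804 (nat_lit 1460) (nat_lit 7) (nat_lit 12))
    (@En.n l24805 (nat_lit 1393) (nat_lit 7) (nat_lit 3))
    (@En.n l13241 (nat_lit 1353) (nat_lit 10) (nat_lit 8))
    (@En.n l24806 (nat_lit 1582) (nat_lit 9) (nat_lit 5))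
    (@En.n l24803 (nat_lit 1329) (nat_lit 5) (nat_lit 13))
    (@En.n l24807 (nat_lit 1402) (nat_lit 8) (nat_lit 10))
    (@En.n l24808 (nat_lit 1402) (nat_lit 9) (nat_lit 7))
    (@En.n l2520 (nat_lit 11530) (nat_lit 14) (nat_lit 7))
    (@En.n l9798 (nat_lit 1408) (nat_lit 12) (nat_lit 11))
    (@En.n l17 (nat_lit 1405) (nat_lit 15) (nat_lit 2))))
  (@Cl.mk (nat_lit 0x2000a000500090009000c00070006000c0004000700070004000b000e0009) (nat_lit 0x67a00500007c7) (nat_lit 16) Lb.e (@T16.mk En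
    (@En.n l2884 (nat_lit 1297) (nat_lit 2) (nat_lit 9))
    (@En.n l20052 (nat_lit 1631) (nat_lit 4) (nat_lit 14))
    (@En.n l18 (nat_lit 1461) (nat_lit 2) (nat_lit 11))
    (@En.n l20053 (nat_lit 958) (nat_lit 3) (nat_lit 4))
    (@En.n l18476 (nat_lit 1399) (nat_lit 4) (nat_lit 7))
    (@En.n l2376 (nat_lit 1424) (nat_lit 11) (nat_lit 7))
    (@En.n l7019 (nat_lit 494) (nat_lit 6) (nat_lit 4))
    (@En.n l9534 (nat_lit 1248) (nat_lit 8) (nat_lit 12))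
    (@En.i (nat_lit 410) (nat_lit 8) (nat_lit 6))
    (@En.n l29348 (nat_lit 8631) (nat_lit 10) (nat_lit 7))
    (@En.n l12529 (nat_lit 1443) (nat_lit 6) (nat_lit 12))
    (@En.n l6147 (nat_lit 1443) (nat_lit 7) (nat_lit 9))
    (@En.n l2884 (nat_lit 7914) (nat_lit 13) (nat_lit 9))
    (@En.n l159 (nat_lit 1404) (nat_lit 14) (nat_lit 5))
    (@En.n l29349 (nat_lit 1408) (nat_lit 0) (nat_lit 10))
    (@En.n l107 (nat_lit 1406) (nat_lit 15) (nat_lit 2))))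
  (@Cl.mk (nat_lit 0x20009000e00080002000b0007000a0007000d0005000800030006000e0009) (nat_lit 0x581040005060004) (nat_lit 16) Lb.e (@T16.mk En
    (@En.n l11893 (nat_lit 1514) (nat_lit 4) (nat_lit 9))
    (@En.n l97 (nat_lit 1648) (nat_lit 1) (nat_lit 14))
    (@En.n l22059 (nat_lit 4644) (nat_lit 12) (nat_lit 6))
    (@En.n l17 (nat_lit 1401) (nat_lit 3) (nat_lit 3))
    (@En.n l9786 (nat_lit 1350) (nat_lit 0) (nat_lit 8))
    (@En.n l22060 (nat_lit 1989) (nat_lit 5) (nat_lit 5))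
    (@En.n l524 (nat_lit 1402) (nat_lit 7) (nat_lit 13))
    (@En.i (nat_lit 1399) (nat_lit 7) (nat_lit 7))
    (@En.n l12103 (nat_lit 13617) (nat_lit 8) (nat_lit 10))
    (@En.n l9789 (nat_lit 11531) (nat_lit 14) (nat_lit 7))
    (@En.n l7968 (nat_lit 1194) (nat_lit 11) (nat_lit 11))
    (@En.n l7 (nat_lit 1407) (nat_lit 11) (nat_lit 2))
    (@En.n l7963 (nat_lit 1194) (nat_lit 13) (nat_lit 8))
    (@En.n l9789 (nat_lit 5680) (nat_lit 1) (nat_lit 14))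
    (@En.n l9786 (nat_lit 2585) (nat_lit 2) (nat_lit 9))
    (@En.n l107 (nat_lit 1407) (nat_lit 15) (nat_lit 2))))
noncomputable def a88 : T16 Cl := @T16.mk Cl
  (@Cl.mk (nat_lit 0x400080008000b000600060009000c0005000800080004000c0007000a000a) (nat_lit 0x569001305308078) (nat_lit 16) Lb.e (@T16.mk En
    (@En.n l37642 (nat_lit 1447) (nat_lit 6) (nat_lit 10))
    (@En.n l14431 (nat_lit 1721) (nat_lit 8) (nat_lit 10))
    (@En.n l37643 (nat_lit 1197) (nat_lit 14) (nat_lit 7))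
    (@En.n l37644 (nat_lit 1462) (nat_lit 3) (nat_lit 12))
    (@En.n l893 (nat_lit 1436) (nat_lit 4) (nat_lit 4))
    (@En.n l20047 (nat_lit 1405) (nat_lit 8) (nat_lit 8))
    (@En.n l37645 (nat_lit 1426) (nat_lit 10) (nat_lit 8))
    (@En.n l27923 (nat_lit 1580) (nat_lit 7) (nat_lit 5))
    (@En.i (nat_lit 1267) (nat_lit 6) (nat_lit 12))
    (@En.n l37646 (nat_lit 1404) (nat_lit 9) (nat_lit 9))
    (@En.n l37647 (nat_lit 1404) (nat_lit 10) (nat_lit 6))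
    (@En.n l20048 (nat_lit 9129) (nat_lit 6) (nat_lit 6))
    (@En.n l7 (nat_lit 1442) (nat_lit 7) (nat_lit 11))
    (@En.n l644 (nat_lit 1442) (nat_lit 8) (nat_lit 8))
    (@En.i (nat_lit 7840) (nat_lit 11) (nat_lit 8))
    (@En.n l5276 (nat_lit 1293) (nat_lit 15) (nat_lit 4))))
  (@Cl.mk (nat_lit 0x4000900090009000600060009000c0007000700070004000c0007000a000a) (nat_lit 0x563007400006071) (nat_lit 16) Lb.e (@T16.mk En
    (@En.n l61 (nat_lit 1394) (nat_lit 6) (nat_lit 10))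
    (@En.n l6248 (nat_lit 1414) (nat_lit 8) (nat_lit 10))
    (@En.n l27380 (nat_lit 1508) (nat_lit 14) (nat_lit 7))
    (@En.n l27381 (nat_lit 1550) (nat_lit 3) (nat_lit 12))
    (@En.n l5311 (nat_lit 1408) (nat_lit 4) (nat_lit 4))
    (@En.n l27382 (nat_lit 1426) (nat_lit 9) (nat_lit 7))
    (@En.n l27383 (nat_lit 1393) (nat_lit 9) (nat_lit 7))
    (@En.n l27384 (nat_lit 1481) (nat_lit 7) (nat_lit 7))
    (@En.i (nat_lit 1270) (nat_lit 6) (nat_lit 12))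
    (@En.n l27385 (nat_lit 1403) (nat_lit 9) (nat_lit 9))
    (@En.n l13495 (nat_lit 1403) (nat_lit 10) (nat_lit 6))
    (@En.n l13496 (nat_lit 9434) (nat_lit 6) (nat_lit 6))
    (@En.n l26100 (nat_lit 1468) (nat_lit 7) (nat_lit 9))
    (@En.n l527 (nat_lit 1440) (nat_lit 7) (nat_lit 9))
    (@En.n l5311 (nat_lit 7744) (nat_lit 11) (nat_lit 9))
    (@En.n l12209 (nat_lit 1411) (nat_lit 15) (nat_lit 4))))
  (@Cl.mk (nat_lit 0x20005000a000a000a00080007000c0006000600060004000b0008000e0009) (nat_lit 0x68400200005610) (nat_lit 16) Lb.e (@T16.mk En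
    (@En.n l8382 (nat_lit 1412) (nat_lit 1) (nat_lit 9))
    (@En.n l3107 (nat_lit 421) (nat_lit 1) (nat_lit 14))
    (@En.i (nat_lit 1673) (nat_lit 2) (nat_lit 8))
    (@En.n l2818 (nat_lit 1571) (nat_lit 3) (nat_lit 11))
    (@En.n l8383 (nat_lit 1294) (nat_lit 4) (nat_lit 4))
    (@En.n l8384 (nat_lit 417) (nat_lit 5) (nat_lit 6))
    (@En.n l8385 (nat_lit 1287) (nat_lit 6) (nat_lit 6))
    (@En.n l8386 (nat_lit 949) (nat_lit 7) (nat_lit 6))
    (@En.n l8387 (nat_lit 1079) (nat_lit 9) (nat_lit 12))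
    (@En.n l8388 (nat_lit 401) (nat_lit 9) (nat_lit 7))
    (@En.n l8389 (nat_lit 9388) (nat_lit 11) (nat_lit 8))
    (@En.n l8390 (nat_lit 1662) (nat_lit 6) (nat_lit 10))
    (@En.n l8391 (nat_lit 1452) (nat_lit 13) (nat_lit 10))
    (@En.n l8392 (nat_lit 6482) (nat_lit 14) (nat_lit 10))
    (@En.n l8393 (nat_lit 1400) (nat_lit 13) (nat_lit 5))
    (@En.n l18 (nat_lit 1410) (nat_lit 15) (nat_lit 2))))
  (@Cl.mk (nat_lit 0x4000900090009000500080008000c0007000700070004000c00080008000b) (nat_lit 0x572012300007609) (nat_lit 16) Lb.e (@T16.mk En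
    (@En.n l1899 (nat_lit 1413) (nat_lit 7) (nat_lit 11))
    (@En.n l1900 (nat_lit 1413) (nat_lit 8) (nat_lit 8))
    (@En.n l20624 (nat_lit 2507) (nat_lit 14) (nat_lit 8))
    (@En.n l20625 (nat_lit 1572) (nat_lit 3) (nat_lit 12))
    (@En.n l817 (nat_lit 1293) (nat_lit 4) (nat_lit 4))
    (@En.n l601 (nat_lit 419) (nat_lit 9) (nat_lit 7))
    (@En.n l77 (nat_lit 1288) (nat_lit 9) (nat_lit 7))
    (@En.n l20626 (nat_lit 1494) (nat_lit 7) (nat_lit 7))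
    (@En.i (nat_lit 1050) (nat_lit 7) (nat_lit 12))
    (@En.n l6063 (nat_lit 421) (nat_lit 8) (nat_lit 8))
    (@En.n l20624 (nat_lit 1410) (nat_lit 10) (nat_lit 8))
    (@En.n l20627 (nat_lit 6840) (nat_lit 6) (nat_lit 5))
    (@En.n l397 (nat_lit 1422) (nat_lit 7) (nat_lit 9))
    (@En.n l5670 (nat_lit 1423) (nat_lit 7) (nat_lit 9))
    (@En.n l20628 (nat_lit 5965) (nat_lit 2) (nat_lit 9))
    (@En.n l1898 (nat_lit 1412) (nat_lit 15) (nat_lit 4))))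
  (@Cl.mk (nat_lit 0x4000900090009000700070007000c0007000700070004000c000900090009) (nat_lit 0x663000300005670) (nat_lit 16) Lb.e (@T16.mk En
    (@En.n l15388 (nat_lit 1414) (nat_lit 7) (nat_lit 9))
    (@En.n l15389 (nat_lit 1415) (nat_lit 7) (nat_lit 9))
    (@En.n l15390 (nat_lit 1421) (nat_lit 14) (nat_lit 9))
    (@En.n l15391 (nat_lit 1419) (nat_lit 3) (nat_lit 12))
    (@En.n l15392 (nat_lit 1297) (nat_lit 4) (nat_lit 4))
    (@En.n l12211 (nat_lit 1416) (nat_lit 9) (nat_lit 7))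
    (@En.n l77 (nat_lit 1396) (nat_lit 9) (nat_lit 7))
    (@En.n l6064 (nat_lit 950) (nat_lit 7) (nat_lit 7))
    (@En.n l1910 (nat_lit 1256) (nat_lit 8) (nat_lit 12))
    (@En.n l15393 (nat_lit 1410) (nat_lit 9) (nat_lit 7))
    (@En.n l527 (nat_lit 1400) (nat_lit 9) (nat_lit 7))
    (@En.n l15394 (nat_lit 9387) (nat_lit 9) (nat_lit 7))
    (@En.n l397 (nat_lit 1418) (nat_lit 7) (nat_lit 9))
    (@En.n l15395 (nat_lit 1417) (nat_lit 7) (nat_lit 9))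
    (@En.n l15394 (nat_lit 6042) (nat_lit 11) (nat_lit 9))
    (@En.n l15396 (nat_lit 1409) (nat_lit 15) (nat_lit 4))))
  (@Cl.mk (nat_lit 0x2000c0008000800080004000d0008000b00030008000800080005000e0008) (nat_lit 0x452307680355082) (nat_lit 16) Lb.e (@T16.mk En
    (@En.n l1532 (nat_lit 1411) (nat_lit 10) (nat_lit 8))
    (@En.n l8133 (nat_lit 1415) (nat_lit 1) (nat_lit 14))
    (@En.n l3324 (nat_lit 6898) (nat_lit 2) (nat_lit 5))
    (@En.n l8673 (nat_lit 1502) (nat_lit 8) (nat_lit 8))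
    (@En.n l8674 (nat_lit 1746) (nat_lit 8) (nat_lit 8))
    (@En.n l8675 (nat_lit 6674) (nat_lit 5) (nat_lit 8))
    (@En.n l8676 (nat_lit 1414) (nat_lit 6) (nat_lit 3))
    (@En.n l3324 (nat_lit 13094) (nat_lit 7) (nat_lit 11))
    (@En.n l8092 (nat_lit 2508) (nat_lit 9) (nat_lit 8))
    (@En.n l8677 (nat_lit 1577) (nat_lit 10) (nat_lit 13))
    (@En.n l8678 (nat_lit 1722) (nat_lit 10) (nat_lit 4))
    (@En.n l8090 (nat_lit 1726) (nat_lit 8) (nat_lit 8))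
    (@En.n l77 (nat_lit 1718) (nat_lit 8) (nat_lit 8))
    (@En.n l8679 (nat_lit 1497) (nat_lit 14) (nat_lit 8))
    (@En.n l1531 (nat_lit 981) (nat_lit 8) (nat_lit 12))
    (@En.n l3 (nat_lit 1413) (nat_lit 15) (nat_lit 2))))
  (@Cl.mk (nat_lit 0x2000c0008000800080004000d000a000900030008000800080006000e0007) (nat_lit 0x452307670453080) (nat_lit 16) Lb.e (@T16.mk En
    (@En.n l19110 (nat_lit 1412) (nat_lit 10) (nat_lit 7))
    (@En.n l19111 (nat_lit 1394) (nat_lit 1) (nat_lit 14))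
    (@En.n l19112 (nat_lit 8997) (nat_lit 2) (nat_lit 6))
    (@En.n l217 (nat_lit 1788) (nat_lit 8) (nat_lit 8))
    (@En.n l14624 (nat_lit 1748) (nat_lit 8) (nat_lit 8))
    (@En.n l6262 (nat_lit 6041) (nat_lit 5) (nat_lit 8))
    (@En.n l3161 (nat_lit 1413) (nat_lit 6) (nat_lit 3))
    (@En.n l575 (nat_lit 2040) (nat_lit 0) (nat_lit 9))
    (@En.n l6220 (nat_lit 1771) (nat_lit 9) (nat_lit 10))
    (@En.n l387 (nat_lit 1690) (nat_lit 10) (nat_lit 13))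
    (@En.n l6127 (nat_lit 1721) (nat_lit 10) (nat_lit 4))
    (@En.n l19113 (nat_lit 1723) (nat_lit 8) (nat_lit 8))
    (@En.n l19114 (nat_lit 1719) (nat_lit 8) (nat_lit 8))
    (@En.i (nat_lit 1487) (nat_lit 14) (nat_lit 8))
    (@En.n l19115 (nat_lit 978) (nat_lit 8) (nat_lit 12))
    (@En.n l28 (nat_lit 1414) (nat_lit 15) (nat_lit 2))))
  (@Cl.mk (nat_lit 0x20008000c0008000800080004000d000900080003000800080008000e0007) (nat_lit 0x365120960050370) (nat_lit 16) Lb.e (@T16.mk En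
    (@En.n l13740 (nat_lit 1412) (nat_lit 11) (nat_lit 7))
    (@En.n l12217 (nat_lit 10741) (nat_lit 1) (nat_lit 14))
    (@En.n l13741 (nat_lit 1523) (nat_lit 8) (nat_lit 8))
    (@En.n l13742 (nat_lit 1451) (nat_lit 3) (nat_lit 8))
    (@En.n l13743 (nat_lit 7041) (nat_lit 4) (nat_lit 8))
    (@En.n l13744 (nat_lit 1394) (nat_lit 5) (nat_lit 3))
    (@En.n l13745 (nat_lit 2152) (nat_lit 0) (nat_lit 8))
    (@En.n l13746 (nat_lit 2505) (nat_lit 8) (nat_lit 9))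
    (@En.n l55 (nat_lit 1575) (nat_lit 9) (nat_lit 13))
    (@En.n l13747 (nat_lit 1536) (nat_lit 9) (nat_lit 4))
    (@En.n l13748 (nat_lit 1538) (nat_lit 11) (nat_lit 8))
    (@En.n l13749 (nat_lit 1390) (nat_lit 12) (nat_lit 8))
    (@En.n l13750 (nat_lit 1486) (nat_lit 13) (nat_lit 8))
    (@En.n l13751 (nat_lit 1238) (nat_lit 14) (nat_lit 12))
    (@En.n l12220 (nat_lit 1411) (nat_lit 9) (nat_lit 8))
    (@En.n l3 (nat_lit 1415) (nat_lit 15) (nat_lit 2))))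
  (@Cl.mk (nat_lit 0x2000800080008000d000800070003000c00080008000800040008000e0009) (nat_lit 0x2540055600597) (nat_lit 16) Lb.e (@T16.mk En
    (@En.n l13751 (nat_lit 1412) (nat_lit 13) (nat_lit 9))
    (@En.n l15012 (nat_lit 1295) (nat_lit 1) (nat_lit 14))
    (@En.n l8663 (nat_lit 6034) (nat_lit 2) (nat_lit 8))
    (@En.n l2570 (nat_lit 1426) (nat_lit 3) (nat_lit 4))
    (@En.n l15013 (nat_lit 1723) (nat_lit 4) (nat_lit 8))
    (@En.n l8666 (nat_lit 1538) (nat_lit 8) (nat_lit 8))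
    (@En.i (nat_lit 1770) (nat_lit 6) (nat_lit 8))
    (@En.n l15012 (nat_lit 1691) (nat_lit 8) (nat_lit 12))
    (@En.n l15014 (nat_lit 956) (nat_lit 8) (nat_lit 3))
    (@En.n l15015 (nat_lit 1238) (nat_lit 0) (nat_lit 7))
    (@En.n l15016 (nat_lit 951) (nat_lit 11) (nat_lit 8))
    (@En.n l12741 (nat_lit 1097) (nat_lit 12) (nat_lit 13))
    (@En.n l15017 (nat_lit 417) (nat_lit 8) (nat_lit 8))
    (@En.n l15018 (nat_lit 1424) (nat_lit 14) (nat_lit 8))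
    (@En.n l8672 (nat_lit 9080) (nat_lit 5) (nat_lit 8))
    (@En.n l28 (nat_lit 1416) (nat_lit 15) (nat_lit 2))))
  (@Cl.mk (nat_lit 0x200080005000c000a000a000a000400090008000600060006000b000e0007) (nat_lit 0x406703052000540) (nat_lit 16) Lb.e (@T16.mk En
    (@En.n l14093 (nat_lit 1412) (nat_lit 7) (nat_lit 7))
    (@En.n l14094 (nat_lit 1534) (nat_lit 4) (nat_lit 14))
    (@En.n l5702 (nat_lit 1257) (nat_lit 2) (nat_lit 11))
    (@En.n l11 (nat_lit 1452) (nat_lit 10) (nat_lit 6))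
    (@En.n l5703 (nat_lit 1438) (nat_lit 4) (nat_lit 6))
    (@En.n l14094 (nat_lit 9380) (nat_lit 5) (nat_lit 6))
    (@En.i (nat_lit 796) (nat_lit 6) (nat_lit 8))
    (@En.n l6042 (nat_lit 7050) (nat_lit 8) (nat_lit 9))
    (@En.n l227 (nat_lit 1440) (nat_lit 8) (nat_lit 4))
    (@En.n l1952 (nat_lit 1748) (nat_lit 10) (nat_lit 10))
    (@En.n l230 (nat_lit 1451) (nat_lit 6) (nat_lit 10))
    (@En.n l12593 (nat_lit 1461) (nat_lit 12) (nat_lit 10))
    (@En.n l14095 (nat_lit 1520) (nat_lit 13) (nat_lit 12))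
    (@En.n l1723 (nat_lit 1444) (nat_lit 14) (nat_lit 5))
    (@En.n l18 (nat_lit 1297) (nat_lit 5) (nat_lit 8))
    (@En.n l50 (nat_lit 1417) (nat_lit 15) (nat_lit 2))))
  (@Cl.mk (nat_lit 0x20005000c000a000a000a0004000a0009000600060006000b0006000e0007) (nat_lit 0x77000820003010) (nat_lit 16) Lb.e (@T16.mk En
    (@En.n l5784 (nat_lit 1412) (nat_lit 6) (nat_lit 7))
    (@En.n l6233 (nat_lit 961) (nat_lit 1) (nat_lit 14))
    (@En.i (nat_lit 954) (nat_lit 2) (nat_lit 6))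
    (@En.n l1910 (nat_lit 990) (nat_lit 3) (nat_lit 11))
    (@En.n l5714 (nat_lit 1662) (nat_lit 4) (nat_lit 6))
    (@En.n l527 (nat_lit 1466) (nat_lit 5) (nat_lit 6))
    (@En.n l6234 (nat_lit 7649) (nat_lit 6) (nat_lit 6))
    (@En.n l644 (nat_lit 791) (nat_lit 7) (nat_lit 9))
    (@En.n l3303 (nat_lit 7154) (nat_lit 9) (nat_lit 10))
    (@En.n l6052 (nat_lit 1468) (nat_lit 9) (nat_lit 4))
    (@En.n l5634 (nat_lit 1788) (nat_lit 11) (nat_lit 10))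
    (@En.n l5635 (nat_lit 1523) (nat_lit 12) (nat_lit 10))
    (@En.n l6235 (nat_lit 1671) (nat_lit 13) (nat_lit 10))
    (@En.n l1722 (nat_lit 1533) (nat_lit 14) (nat_lit 12))
    (@En.n l6236 (nat_lit 1417) (nat_lit 13) (nat_lit 5))
    (@En.n l18 (nat_lit 1418) (nat_lit 15) (nat_lit 2))))
  (@Cl.mk (nat_lit 0x400090009000900090008000800080007000700070007000c000800080008) (nat_lit 0x560401200004500) (nat_lit 16) Lb.e (@T16.mk En
    (@En.n l19072 (nat_lit 1690) (nat_lit 8) (nat_lit 8))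
    (@En.n l19073 (nat_lit 1575) (nat_lit 8) (nat_lit 8))
    (@En.n l19074 (nat_lit 1660) (nat_lit 8) (nat_lit 8))
    (@En.n l19075 (nat_lit 1412) (nat_lit 8) (nat_lit 12))
    (@En.n l19076 (nat_lit 1691) (nat_lit 9) (nat_lit 7))
    (@En.n l19077 (nat_lit 1566) (nat_lit 9) (nat_lit 7))
    (@En.n l19078 (nat_lit 1620) (nat_lit 9) (nat_lit 7))
    (@En.i (nat_lit 5915) (nat_lit 9) (nat_lit 7))
    (@En.n l19079 (nat_lit 1571) (nat_lit 8) (nat_lit 8))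
    (@En.n l19080 (nat_lit 443) (nat_lit 8) (nat_lit 8))
    (@En.n l19081 (nat_lit 6040) (nat_lit 8) (nat_lit 8))
    (@En.n l19082 (nat_lit 1533) (nat_lit 7) (nat_lit 9))
    (@En.n l19083 (nat_lit 1520) (nat_lit 7) (nat_lit 9))
    (@En.n l19084 (nat_lit 1683) (nat_lit 7) (nat_lit 9))
    (@En.n l19085 (nat_lit 1419) (nat_lit 11) (nat_lit 9))
    (@En.n l19086 (nat_lit 1550) (nat_lit 15) (nat_lit 4))))
  (@Cl.mk (nat_lit 0x400080008000b00090008000800080005000800080007000c000800080008) (nat_lit 0x566401200204564) (nat_lit 16) Lb.e (@T16.mk En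
    (@En.n l19098 (nat_lit 1589) (nat_lit 8) (nat_lit 8))
    (@En.n l19099 (nat_lit 1588) (nat_lit 8) (nat_lit 8))
    (@En.n l19100 (nat_lit 1939) (nat_lit 8) (nat_lit 8))
    (@En.n l19101 (nat_lit 1411) (nat_lit 8) (nat_lit 12))
    (@En.n l19102 (nat_lit 978) (nat_lit 9) (nat_lit 7))
    (@En.n l19103 (nat_lit 1590) (nat_lit 8) (nat_lit 8))
    (@En.n l19104 (nat_lit 1566) (nat_lit 10) (nat_lit 8))
    (@En.n l4830 (nat_lit 6515) (nat_lit 7) (nat_lit 5))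
    (@En.n l19105 (nat_lit 495) (nat_lit 8) (nat_lit 8))
    (@En.n l19106 (nat_lit 494) (nat_lit 8) (nat_lit 8))
    (@En.i (nat_lit 6805) (nat_lit 8) (nat_lit 8))
    (@En.n l19107 (nat_lit 1412) (nat_lit 12) (nat_lit 9))
    (@En.n l3 (nat_lit 1591) (nat_lit 7) (nat_lit 11))
    (@En.n l527 (nat_lit 1591) (nat_lit 8) (nat_lit 8))
    (@En.i (nat_lit 2597) (nat_lit 11) (nat_lit 8))
    (@En.n l19108 (nat_lit 1580) (nat_lit 15) (nat_lit 4))))
  (@Cl.mk (nat_lit 0x4000900080008000b0008000800080007000500080008000c000800080008) (nat_lit 0x500000200024500) (nat_lit 16) Lb.e (@T16.mk En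
    (@En.n l30006 (nat_lit 1770) (nat_lit 8) (nat_lit 8))
    (@En.n l30007 (nat_lit 1998) (nat_lit 8) (nat_lit 8))
    (@En.n l20614 (nat_lit 1988) (nat_lit 8) (nat_lit 8))
    (@En.n l1738 (nat_lit 983) (nat_lit 7) (nat_lit 12))
    (@En.n l17 (nat_lit 1673) (nat_lit 8) (nat_lit 8))
    (@En.i (nat_lit 1691) (nat_lit 10) (nat_lit 8))
    (@En.n l30008 (nat_lit 1411) (nat_lit 11) (nat_lit 5))
    (@En.n l14907 (nat_lit 6693) (nat_lit 9) (nat_lit 7))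
    (@En.n l55 (nat_lit 1671) (nat_lit 8) (nat_lit 8))
    (@En.n l15444 (nat_lit 1461) (nat_lit 8) (nat_lit 8))
    (@En.n l30009 (nat_lit 9616) (nat_lit 8) (nat_lit 8))
    (@En.n l30010 (nat_lit 1771) (nat_lit 7) (nat_lit 11))
    (@En.n l23132 (nat_lit 1771) (nat_lit 8) (nat_lit 8))
    (@En.n l30011 (nat_lit 2503) (nat_lit 8) (nat_lit 8))
    (@En.n l30012 (nat_lit 1550) (nat_lit 11) (nat_lit 9))
    (@En.n l29112 (nat_lit 1462) (nat_lit 15) (nat_lit 4))))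
  (@Cl.mk (nat_lit 0x20005000c00090009000c0004000a0009000400070007000b0006000e0007) (nat_lit 0x80000710003070) (nat_lit 16) Lb.e (@T16.mk En
    (@En.n l5784 (nat_lit 1411) (nat_lit 6) (nat_lit 7))
    (@En.n l396 (nat_lit 1500) (nat_lit 1) (nat_lit 14))
    (@En.n l5320 (nat_lit 1499) (nat_lit 2) (nat_lit 6))
    (@En.i (nat_lit 910) (nat_lit 3) (nat_lit 11))
    (@En.n l637 (nat_lit 1665) (nat_lit 4) (nat_lit 7))
    (@En.n l638 (nat_lit 1662) (nat_lit 5) (nat_lit 7))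
    (@En.i (nat_lit 6932) (nat_lit 6) (nat_lit 4))
    (@En.n l644 (nat_lit 577) (nat_lit 7) (nat_lit 9))
    (@En.n l1897 (nat_lit 6621) (nat_lit 9) (nat_lit 10))
    (@En.n l1898 (nat_lit 1418) (nat_lit 9) (nat_lit 4))
    (@En.n l7384 (nat_lit 1502) (nat_lit 11) (nat_lit 12))
    (@En.n l7385 (nat_lit 1502) (nat_lit 12) (nat_lit 9))
    (@En.n l2005 (nat_lit 2473) (nat_lit 13) (nat_lit 9))
    (@En.n l9221 (nat_lit 1506) (nat_lit 14) (nat_lit 12))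
    (@En.n l640 (nat_lit 1423) (nat_lit 13) (nat_lit 5))
    (@En.n l18 (nat_lit 1422) (nat_lit 15) (nat_lit 2))))
  (@Cl.mk (nat_lit 0x200080005000c00090009000c000400090008000400070007000b000e0007) (nat_lit 0x407000061000540) (nat_lit 16) Lb.e (@T16.mk En
    (@En.n l8357 (nat_lit 1411) (nat_lit 7) (nat_lit 7))
    (@En.n l18038 (nat_lit 1677) (nat_lit 4) (nat_lit 14))
    (@En.i (nat_lit 1048) (nat_lit 2) (nat_lit 11))
    (@En.n l18039 (nat_lit 1455) (nat_lit 3) (nat_lit 7))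
    (@En.n l17491 (nat_lit 1452) (nat_lit 11) (nat_lit 7))
    (@En.n l18040 (nat_lit 6835) (nat_lit 5) (nat_lit 4))
    (@En.i (nat_lit 803) (nat_lit 6) (nat_lit 8))
    (@En.n l18041 (nat_lit 5967) (nat_lit 1) (nat_lit 9))
    (@En.n l7718 (nat_lit 1417) (nat_lit 8) (nat_lit 4))
    (@En.n l17492 (nat_lit 1746) (nat_lit 10) (nat_lit 12))
    (@En.n l17493 (nat_lit 1746) (nat_lit 11) (nat_lit 9))
    (@En.n l17494 (nat_lit 1756) (nat_lit 12) (nat_lit 9))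
    (@En.n l18042 (nat_lit 1763) (nat_lit 13) (nat_lit 12))
    (@En.n l699 (nat_lit 1456) (nat_lit 14) (nat_lit 5))
    (@En.n l17 (nat_lit 1293) (nat_lit 5) (nat_lit 8))
    (@En.n l18 (nat_lit 1423) (nat_lit 15) (nat_lit 2))))
noncomputable def a89 : T16 Cl := @T16.mk Cl
  (@Cl.mk (nat_lit 0x200080007000d000700060003000b000e00080002000900050009000e000a) (nat_lit 0x6030006860006a8) (nat_lit 16) Lb.e (@T16.mk En
    (@En.n l7 (nat_lit 1400) (nat_lit 11) (nat_lit 10))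
    (@En.n l5841 (nat_lit 1399) (nat_lit 12) (nat_lit 14))
    (@En.n l1982 (nat_lit 8174) (nat_lit 2) (nat_lit 9))
    (@En.n l14409 (nat_lit 1425) (nat_lit 14) (nat_lit 5))
    (@En.n l12222 (nat_lit 1426) (nat_lit 4) (nat_lit 9))
    (@En.n l107 (nat_lit 1424) (nat_lit 5) (nat_lit 2))
    (@En.n l12210 (nat_lit 1416) (nat_lit 6) (nat_lit 8))
    (@En.n l619 (nat_lit 1630) (nat_lit 8) (nat_lit 14))
    (@En.n l14410 (nat_lit 1562) (nat_lit 2) (nat_lit 11))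
    (@En.n l763 (nat_lit 957) (nat_lit 9) (nat_lit 3))
    (@En.i (nat_lit 1260) (nat_lit 4) (nat_lit 6))
    (@En.n l300 (nat_lit 953) (nat_lit 5) (nat_lit 7))
    (@En.n l2095 (nat_lit 1245) (nat_lit 7) (nat_lit 13))
    (@En.i (nat_lit 380) (nat_lit 14) (nat_lit 7))
    (@En.n l14411 (nat_lit 9071) (nat_lit 9) (nat_lit 8))
    (@En.n l50 (nat_lit 1424) (nat_lit 15) (nat_lit 2))))
  (@Cl.mk (nat_lit 0x200050009000e000a00020007000a000d000700060003000b0006000e0009) (nat_lit 0x6a800060006097) (nat_lit 16) Lb.e (@T16.mk En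
    (@En.n l22829 (nat_lit 1426) (nat_lit 5) (nat_lit 9))
    (@En.n l5813 (nat_lit 1424) (nat_lit 7) (nat_lit 14))
    (@En.n l8470 (nat_lit 1427) (nat_lit 7) (nat_lit 6))
    (@En.n l14599 (nat_lit 1555) (nat_lit 3) (nat_lit 11))
    (@En.n l1253 (nat_lit 1429) (nat_lit 4) (nat_lit 3))
    (@En.n l248 (nat_lit 1264) (nat_lit 5) (nat_lit 6))
    (@En.n l11954 (nat_lit 1433) (nat_lit 6) (nat_lit 7))
    (@En.n l8375 (nat_lit 1244) (nat_lit 8) (nat_lit 13))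
    (@En.n l766 (nat_lit 13614) (nat_lit 8) (nat_lit 10))
    (@En.n l2571 (nat_lit 9072) (nat_lit 10) (nat_lit 7))
    (@En.n l3 (nat_lit 1425) (nat_lit 10) (nat_lit 2))
    (@En.n l2213 (nat_lit 1403) (nat_lit 12) (nat_lit 10))
    (@En.n l5796 (nat_lit 1402) (nat_lit 13) (nat_lit 14))
    (@En.n l2205 (nat_lit 6054) (nat_lit 2) (nat_lit 9))
    (@En.i (nat_lit 418) (nat_lit 3) (nat_lit 5))
    (@En.n l18 (nat_lit 1425) (nat_lit 15) (nat_lit 2))))
  (@Cl.mk (nat_lit 0x200070007000a000d000800070003000c00060009000900040008000e0009) (nat_lit 0x1740070670597) (nat_lit 16) Lb.e (@T16.mk En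
    (@En.n l13734 (nat_lit 1409) (nat_lit 13) (nat_lit 9))
    (@En.n l26166 (nat_lit 1405) (nat_lit 1) (nat_lit 14))
    (@En.n l26167 (nat_lit 6052) (nat_lit 2) (nat_lit 8))
    (@En.n l12741 (nat_lit 419) (nat_lit 3) (nat_lit 4))
    (@En.n l26168 (nat_lit 1539) (nat_lit 7) (nat_lit 9))
    (@En.n l21768 (nat_lit 1723) (nat_lit 5) (nat_lit 9))
    (@En.n l17 (nat_lit 1428) (nat_lit 6) (nat_lit 6))
    (@En.i (nat_lit 1558) (nat_lit 8) (nat_lit 12))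
    (@En.n l3619 (nat_lit 1430) (nat_lit 8) (nat_lit 3))
    (@En.n l26169 (nat_lit 1263) (nat_lit 0) (nat_lit 7))
    (@En.n l26170 (nat_lit 1434) (nat_lit 11) (nat_lit 8))
    (@En.n l4748 (nat_lit 1100) (nat_lit 12) (nat_lit 13))
    (@En.n l26171 (nat_lit 1425) (nat_lit 8) (nat_lit 10))
    (@En.n l26172 (nat_lit 1425) (nat_lit 9) (nat_lit 7))
    (@En.n l20321 (nat_lit 9075) (nat_lit 5) (nat_lit 7))
    (@En.n l28 (nat_lit 1426) (nat_lit 15) (nat_lit 2))))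
  (@Cl.mk (nat_lit 0x20007000a0007000d0008000700030006000e0009000200090008000e0009) (nat_lit 0x740009605592) (nat_lit 16) Lb.e (@T16.mk En
    (@En.n l7 (nat_lit 1199) (nat_lit 12) (nat_lit 9))
    (@En.n l5841 (nat_lit 1407) (nat_lit 13) (nat_lit 14))
    (@En.n l6389 (nat_lit 6050) (nat_lit 2) (nat_lit 8))
    (@En.n l12222 (nat_lit 2604) (nat_lit 3) (nat_lit 9))
    (@En.n l107 (nat_lit 1427) (nat_lit 4) (nat_lit 2))
    (@En.n l26173 (nat_lit 1428) (nat_lit 5) (nat_lit 9))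
    (@En.n l97 (nat_lit 1633) (nat_lit 7) (nat_lit 14))
    (@En.n l6389 (nat_lit 4632) (nat_lit 7) (nat_lit 6))
    (@En.n l763 (nat_lit 1431) (nat_lit 8) (nat_lit 3))
    (@En.i (nat_lit 1269) (nat_lit 0) (nat_lit 7))
    (@En.n l300 (nat_lit 1778) (nat_lit 5) (nat_lit 8))
    (@En.n l26174 (nat_lit 1425) (nat_lit 7) (nat_lit 13))
    (@En.i (nat_lit 1424) (nat_lit 13) (nat_lit 7))
    (@En.n l1810 (nat_lit 13647) (nat_lit 8) (nat_lit 10))
    (@En.n l14459 (nat_lit 9076) (nat_lit 5) (nat_lit 7))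
    (@En.n l50 (nat_lit 1427) (nat_lit 15) (nat_lit 2))))
  (@Cl.mk (nat_lit 0x200070007000a0008000d00090008000300060009000900080007000e0008) (nat_lit 0x1385200504082) (nat_lit 16) Lb.e (@T16.mk En
    (@En.i (nat_lit 1508) (nat_lit 9) (nat_lit 8))
    (@En.n l1578 (nat_lit 1514) (nat_lit 1) (nat_lit 14))
    (@En.n l771 (nat_lit 6049) (nat_lit 2) (nat_lit 7))
    (@En.n l217 (nat_lit 2605) (nat_lit 3) (nat_lit 8))
    (@En.n l644 (nat_lit 1513) (nat_lit 7) (nat_lit 9))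
    (@En.n l617 (nat_lit 1761) (nat_lit 5) (nat_lit 9))
    (@En.n l771 (nat_lit 4631) (nat_lit 6) (nat_lit 6))
    (@En.n l3908 (nat_lit 1432) (nat_lit 7) (nat_lit 3))
    (@En.n l575 (nat_lit 1352) (nat_lit 0) (nat_lit 8))
    (@En.i (nat_lit 1776) (nat_lit 10) (nat_lit 9))
    (@En.i (nat_lit 1426) (nat_lit 11) (nat_lit 13))
    (@En.n l211 (nat_lit 1416) (nat_lit 12) (nat_lit 8))
    (@En.n l12456 (nat_lit 1427) (nat_lit 13) (nat_lit 10))
    (@En.n l12457 (nat_lit 1427) (nat_lit 14) (nat_lit 7))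
    (@En.n l12458 (nat_lit 9077) (nat_lit 6) (nat_lit 7))
    (@En.n l28 (nat_lit 1428) (nat_lit 15) (nat_lit 2))))
  (@Cl.mk (nat_lit 0x200050008000e000b00020007000a000d000500080003000b0006000e0009) (nat_lit 0x8900750006017) (nat_lit 16) Lb.e (@T16.mk En
    (@En.n l10916 (nat_lit 1430) (nat_lit 5) (nat_lit 9))
    (@En.n l14518 (nat_lit 957) (nat_lit 7) (nat_lit 14))
    (@En.n l11680 (nat_lit 1431) (nat_lit 7) (nat_lit 6))
    (@En.n l11977 (nat_lit 1433) (nat_lit 3) (nat_lit 11))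
    (@En.n l287 (nat_lit 1425) (nat_lit 4) (nat_lit 3))
    (@En.n l1998 (nat_lit 12899) (nat_lit 10) (nat_lit 8))
    (@En.n l12278 (nat_lit 1037) (nat_lit 6) (nat_lit 5))
    (@En.n l2034 (nat_lit 1003) (nat_lit 8) (nat_lit 13))
    (@En.i (nat_lit 13659) (nat_lit 8) (nat_lit 10))
    (@En.n l1643 (nat_lit 8433) (nat_lit 10) (nat_lit 7))
    (@En.n l3 (nat_lit 1429) (nat_lit 10) (nat_lit 2))
    (@En.i (nat_lit 1435) (nat_lit 12) (nat_lit 11))
    (@En.n l2205 (nat_lit 1398) (nat_lit 13) (nat_lit 14))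
    (@En.n l1997 (nat_lit 6022) (nat_lit 2) (nat_lit 8))
    (@En.n l1998 (nat_lit 420) (nat_lit 3) (nat_lit 5))
    (@En.n l17 (nat_lit 1429) (nat_lit 15) (nat_lit 2))))
  (@Cl.mk (nat_lit 0x200070007000a000d000600090003000c00060009000900040007000e000a) (nat_lit 0x8700070670078) (nat_lit 16) Lb.e (@T16.mk En
    (@En.n l12527 (nat_lit 1436) (nat_lit 13) (nat_lit 10))
    (@En.n l12528 (nat_lit 1393) (nat_lit 1) (nat_lit 14))
    (@En.n l12368 (nat_lit 6023) (nat_lit 2) (nat_lit 7))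
    (@En.n l3348 (nat_lit 422) (nat_lit 3) (nat_lit 4))
    (@En.n l61 (nat_lit 1395) (nat_lit 7) (nat_lit 9))
    (@En.n l3546 (nat_lit 1725) (nat_lit 5) (nat_lit 9))
    (@En.n l1530 (nat_lit 1432) (nat_lit 6) (nat_lit 6))
    (@En.i (nat_lit 1434) (nat_lit 8) (nat_lit 12))
    (@En.n l8727 (nat_lit 1426) (nat_lit 8) (nat_lit 3))
    (@En.n l2590 (nat_lit 12897) (nat_lit 9) (nat_lit 9))
    (@En.n l9790 (nat_lit 1044) (nat_lit 11) (nat_lit 6))
    (@En.i (nat_lit 1242) (nat_lit 12) (nat_lit 13))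
    (@En.n l12529 (nat_lit 1429) (nat_lit 8) (nat_lit 10))
    (@En.n l6147 (nat_lit 1429) (nat_lit 9) (nat_lit 7))
    (@En.n l6081 (nat_lit 8430) (nat_lit 5) (nat_lit 7))
    (@En.n l3 (nat_lit 1430) (nat_lit 15) (nat_lit 2))))
  (@Cl.mk (nat_lit 0x20007000a0007000d0006000900030006000e0009000200090007000e000a) (nat_lit 0x600009606078) (nat_lit 16) Lb.e (@T16.mk En
    (@En.i (nat_lit 1437) (nat_lit 12) (nat_lit 10))
    (@En.n l601 (nat_lit 1401) (nat_lit 13) (nat_lit 14))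
    (@En.n l4780 (nat_lit 6024) (nat_lit 2) (nat_lit 7))
    (@En.n l11 (nat_lit 2606) (nat_lit 3) (nat_lit 9))
    (@En.n l107 (nat_lit 1431) (nat_lit 4) (nat_lit 2))
    (@En.i (nat_lit 1432) (nat_lit 5) (nat_lit 9))
    (@En.n l97 (nat_lit 1622) (nat_lit 7) (nat_lit 14))
    (@En.n l1776 (nat_lit 1782) (nat_lit 12) (nat_lit 6))
    (@En.n l2364 (nat_lit 1427) (nat_lit 8) (nat_lit 3))
    (@En.i (nat_lit 12904) (nat_lit 9) (nat_lit 9))
    (@En.i (nat_lit 5079) (nat_lit 5) (nat_lit 6))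
    (@En.n l5609 (nat_lit 1429) (nat_lit 7) (nat_lit 13))
    (@En.i (nat_lit 957) (nat_lit 13) (nat_lit 7))
    (@En.n l12534 (nat_lit 12940) (nat_lit 8) (nat_lit 10))
    (@En.n l4780 (nat_lit 8434) (nat_lit 5) (nat_lit 7))
    (@En.n l50 (nat_lit 1431) (nat_lit 15) (nat_lit 2))))
  (@Cl.mk (nat_lit 0x200070007000a0008000d0007000a000300060009000900080006000e0009) (nat_lit 0x1380100505066) (nat_lit 16) Lb.e (@T16.mk En
    (@En.n l4779 (nat_lit 1477) (nat_lit 9) (nat_lit 9))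
    (@En.n l601 (nat_lit 1516) (nat_lit 1) (nat_lit 14))
    (@En.n l4780 (nat_lit 6025) (nat_lit 2) (nat_lit 6))
    (@En.n l1775 (nat_lit 2608) (nat_lit 3) (nat_lit 8))
    (@En.n l530 (nat_lit 1774) (nat_lit 7) (nat_lit 9))
    (@En.n l1775 (nat_lit 1765) (nat_lit 5) (nat_lit 9))
    (@En.n l4781 (nat_lit 1777) (nat_lit 6) (nat_lit 6))
    (@En.n l4782 (nat_lit 1428) (nat_lit 7) (nat_lit 3))
    (@En.n l1775 (nat_lit 946) (nat_lit 8) (nat_lit 10))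
    (@En.n l4783 (nat_lit 5078) (nat_lit 10) (nat_lit 7))
    (@En.n l4784 (nat_lit 1430) (nat_lit 11) (nat_lit 13))
    (@En.i (nat_lit 956) (nat_lit 12) (nat_lit 8))
    (@En.n l3 (nat_lit 1431) (nat_lit 13) (nat_lit 10))
    (@En.n l527 (nat_lit 1431) (nat_lit 14) (nat_lit 7))
    (@En.n l4785 (nat_lit 8429) (nat_lit 6) (nat_lit 7))
    (@En.n l50 (nat_lit 1432) (nat_lit 15) (nat_lit 2))))
  (@Cl.mk (nat_lit 0x2000500090008000e000b00020008000b000700050008000b0005000e0008) (nat_lit 0x71090000005016) (nat_lit 16) Lb.e (@T16.mk En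
    (@En.n l3220 (nat_lit 1434) (nat_lit 6) (nat_lit 8))
    (@En.n l180 (nat_lit 953) (nat_lit 1) (nat_lit 14))
    (@En.n l619 (nat_lit 1778) (nat_lit 2) (nat_lit 5))
    (@En.n l3486 (nat_lit 1634) (nat_lit 3) (nat_lit 11))
    (@En.n l699 (nat_lit 12893) (nat_lit 10) (nat_lit 8))
    (@En.n l3486 (nat_lit 1033) (nat_lit 5) (nat_lit 5))
    (@En.n l2680 (nat_lit 5457) (nat_lit 6) (nat_lit 7))
    (@En.n l20928 (nat_lit 13716) (nat_lit 7) (nat_lit 11))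
    (@En.n l3213 (nat_lit 8816) (nat_lit 9) (nat_lit 8))
    (@En.n l18 (nat_lit 1433) (nat_lit 9) (nat_lit 2))
    (@En.n l20929 (nat_lit 1480) (nat_lit 11) (nat_lit 11))
    (@En.n l1527 (nat_lit 1556) (nat_lit 12) (nat_lit 14))
    (@En.n l5925 (nat_lit 1429) (nat_lit 13) (nat_lit 8))
    (@En.n l1643 (nat_lit 1431) (nat_lit 3) (nat_lit 9))
    (@En.i (nat_lit 425) (nat_lit 4) (nat_lit 5))
    (@En.n l11 (nat_lit 1433) (nat_lit 15) (nat_lit 2))))
  (@Cl.mk (nat_lit 0x200080008000b000800060009000c000500080008000400080007000e000a) (nat_lit 0x11300605506008) (nat_lit 16) Lb.e (@T16.mk En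
    (@En.n l9422 (nat_lit 1481) (nat_lit 12) (nat_lit 10))
    (@En.n l9423 (nat_lit 1565) (nat_lit 1) (nat_lit 14))
    (@En.n l28 (nat_lit 1430) (nat_lit 2) (nat_lit 7))
    (@En.n l9424 (nat_lit 1432) (nat_lit 3) (nat_lit 8))
    (@En.n l3348 (nat_lit 428) (nat_lit 4) (nat_lit 4))
    (@En.n l61 (nat_lit 1484) (nat_lit 8) (nat_lit 8))
    (@En.n l4066 (nat_lit 1727) (nat_lit 6) (nat_lit 8))
    (@En.n l9425 (nat_lit 1776) (nat_lit 7) (nat_lit 5))
    (@En.n l9426 (nat_lit 1631) (nat_lit 9) (nat_lit 12))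
    (@En.n l9427 (nat_lit 12894) (nat_lit 9) (nat_lit 9))
    (@En.n l9426 (nat_lit 1034) (nat_lit 11) (nat_lit 6))
    (@En.n l9428 (nat_lit 5459) (nat_lit 12) (nat_lit 8))
    (@En.n l9429 (nat_lit 1433) (nat_lit 7) (nat_lit 11))
    (@En.n l9430 (nat_lit 1433) (nat_lit 8) (nat_lit 8))
    (@En.n l2070 (nat_lit 8432) (nat_lit 3) (nat_lit 8))
    (@En.n l3 (nat_lit 1434) (nat_lit 15) (nat_lit 2))))
  (@Cl.mk (nat_lit 0x200050008000b000b00060009000c0005000500080004000b0007000e000a) (nat_lit 0x8300200106018) (nat_lit 16) Lb.e (@T16.mk En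
    (@En.i (nat_lit 1436) (nat_lit 1) (nat_lit 10))
    (@En.n l14518 (nat_lit 958) (nat_lit 1) (nat_lit 14))
    (@En.n l11680 (nat_lit 1437) (nat_lit 2) (nat_lit 7))
    (@En.n l1863 (nat_lit 1480) (nat_lit 3) (nat_lit 11))
    (@En.n l227 (nat_lit 1403) (nat_lit 4) (nat_lit 4))
    (@En.n l476 (nat_lit 1429) (nat_lit 5) (nat_lit 8))
    (@En.n l152 (nat_lit 1429) (nat_lit 6) (nat_lit 5))
    (@En.n l12479 (nat_lit 1045) (nat_lit 7) (nat_lit 5))
    (@En.n l2034 (nat_lit 998) (nat_lit 9) (nat_lit 12))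
    (@En.i (nat_lit 12944) (nat_lit 9) (nat_lit 9))
    (@En.n l1643 (nat_lit 8408) (nat_lit 11) (nat_lit 6))
    (@En.n l1867 (nat_lit 1469) (nat_lit 12) (nat_lit 11))
    (@En.n l226 (nat_lit 1467) (nat_lit 7) (nat_lit 11))
    (@En.n l1997 (nat_lit 6018) (nat_lit 14) (nat_lit 8))
    (@En.i (nat_lit 424) (nat_lit 13) (nat_lit 5))
    (@En.n l17 (nat_lit 1435) (nat_lit 15) (nat_lit 2))))
  (@Cl.mk (nat_lit 0x40007000a000a000600060009000c0006000600090004000c0007000a000a) (nat_lit 0x73001500108078) (nat_lit 16) Lb.e (@T16.mk En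
    (@En.n l15255 (nat_lit 1485) (nat_lit 6) (nat_lit 10))
    (@En.n l26001 (nat_lit 1724) (nat_lit 8) (nat_lit 10))
    (@En.n l26002 (nat_lit 1477) (nat_lit 14) (nat_lit 7))
    (@En.n l1863 (nat_lit 1481) (nat_lit 3) (nat_lit 12))
    (@En.n l15257 (nat_lit 1409) (nat_lit 4) (nat_lit 4))
    (@En.n l26003 (nat_lit 1430) (nat_lit 9) (nat_lit 9))
    (@En.n l15252 (nat_lit 1430) (nat_lit 10) (nat_lit 6))
    (@En.n l26004 (nat_lit 1177) (nat_lit 7) (nat_lit 6))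
    (@En.n l15253 (nat_lit 994) (nat_lit 6) (nat_lit 12))
    (@En.n l18 (nat_lit 1435) (nat_lit 9) (nat_lit 9))
    (@En.n l61 (nat_lit 1435) (nat_lit 10) (nat_lit 6))
    (@En.n l15253 (nat_lit 8431) (nat_lit 6) (nat_lit 6))
    (@En.n l886 (nat_lit 1470) (nat_lit 6) (nat_lit 10))
    (@En.n l226 (nat_lit 1468) (nat_lit 8) (nat_lit 10))
    (@En.n l5373 (nat_lit 6020) (nat_lit 11) (nat_lit 7))
    (@En.n l2030 (nat_lit 426) (nat_lit 15) (nat_lit 4))))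
  (@Cl.mk (nat_lit 0x2000a0007000a000a000600090006000c00060006000900040007000e000a) (nat_lit 0x7073000300100a7) (nat_lit 16) Lb.e (@T16.mk En
    (@En.n l4779 (nat_lit 1477) (nat_lit 13) (nat_lit 10))
    (@En.n l97 (nat_lit 1621) (nat_lit 1) (nat_lit 14))
    (@En.n l16145 (nat_lit 1781) (nat_lit 11) (nat_lit 7))
    (@En.n l5834 (nat_lit 1199) (nat_lit 3) (nat_lit 4))
    (@En.n l7 (nat_lit 1431) (nat_lit 9) (nat_lit 9))
    (@En.n l644 (nat_lit 1431) (nat_lit 10) (nat_lit 6))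
    (@En.n l5838 (nat_lit 5080) (nat_lit 6) (nat_lit 6))
    (@En.n l5609 (nat_lit 1435) (nat_lit 8) (nat_lit 12))
    (@En.i (nat_lit 958) (nat_lit 8) (nat_lit 6))
    (@En.n l12534 (nat_lit 12939) (nat_lit 9) (nat_lit 9))
    (@En.n l26016 (nat_lit 8435) (nat_lit 11) (nat_lit 6))
    (@En.n l16140 (nat_lit 1473) (nat_lit 6) (nat_lit 10))
    (@En.n l16141 (nat_lit 1475) (nat_lit 8) (nat_lit 10))
    (@En.n l4780 (nat_lit 5768) (nat_lit 14) (nat_lit 7))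
    (@En.n l14084 (nat_lit 2612) (nat_lit 11) (nat_lit 10))
    (@En.n l107 (nat_lit 1437) (nat_lit 15) (nat_lit 2))))
  (@Cl.mk (nat_lit 0x200070005000b000e000a0002000b0005000a000900060005000b000e0006) (nat_lit 0x8080006200200) (nat_lit 16) Lb.e (@T16.mk En
    (@En.n l8357 (nat_lit 1400) (nat_lit 6) (nat_lit 6))
    (@En.n l1063 (nat_lit 1928) (nat_lit 8) (nat_lit 14))
    (@En.n l5599 (nat_lit 610) (nat_lit 9) (nat_lit 11))
    (@En.i (nat_lit 430) (nat_lit 3) (nat_lit 5))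
    (@En.n l14945 (nat_lit 9444) (nat_lit 4) (nat_lit 6))
    (@En.i (nat_lit 800) (nat_lit 5) (nat_lit 9))
    (@En.n l14946 (nat_lit 7160) (nat_lit 13) (nat_lit 10))
    (@En.n l14947 (nat_lit 1439) (nat_lit 14) (nat_lit 5))
    (@En.n l5996 (nat_lit 1440) (nat_lit 9) (nat_lit 11))
    (@En.n l107 (nat_lit 1438) (nat_lit 9) (nat_lit 2))
    (@En.n l3303 (nat_lit 1417) (nat_lit 11) (nat_lit 10))
    (@En.n l619 (nat_lit 1632) (nat_lit 12) (nat_lit 14))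
    (@En.n l14948 (nat_lit 1760) (nat_lit 13) (nat_lit 11))
    (@En.n l699 (nat_lit 1443) (nat_lit 14) (nat_lit 5))
    (@En.n l11611 (nat_lit 1406) (nat_lit 4) (nat_lit 7))
    (@En.n l18 (nat_lit 1438) (nat_lit 15) (nat_lit 2))))
  (@Cl.mk (nat_lit 0x20005000a000900050008000b000e0006000200070005000b0008000e000b) (nat_lit 0x62034000008119) (nat_lit 16) Lb.e (@T16.mk En
    (@En.n l14302 (nat_lit 1440) (nat_lit 10) (nat_lit 11))
    (@En.n l8473 (nat_lit 1438) (nat_lit 11) (nat_lit 14))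
    (@En.n l26137 (nat_lit 1196) (nat_lit 12) (nat_lit 8))
    (@En.n l9511 (nat_lit 1552) (nat_lit 3) (nat_lit 11))
    (@En.n l9512 (nat_lit 1441) (nat_lit 4) (nat_lit 5))
    (@En.n l2571 (nat_lit 1404) (nat_lit 5) (nat_lit 7))
    (@En.n l3 (nat_lit 1439) (nat_lit 6) (nat_lit 2))
    (@En.n l3323 (nat_lit 1403) (nat_lit 7) (nat_lit 6))
    (@En.n l862 (nat_lit 1929) (nat_lit 9) (nat_lit 14))
    (@En.n l2205 (nat_lit 1272) (nat_lit 10) (nat_lit 11))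
    (@En.i (nat_lit 13609) (nat_lit 10) (nat_lit 8))
    (@En.n l7882 (nat_lit 9437) (nat_lit 4) (nat_lit 5))
    (@En.n l1253 (nat_lit 804) (nat_lit 13) (nat_lit 9))
    (@En.n l2031 (nat_lit 7864) (nat_lit 14) (nat_lit 10))
    (@En.n l7882 (nat_lit 1455) (nat_lit 7) (nat_lit 5))
    (@En.n l50 (nat_lit 1439) (nat_lit 15) (nat_lit 2))))
noncomputable def a90 : T16 Cl := @T16.mk Cl
  (@Cl.mk (nat_lit 0x200080005000c0008000b000b000400090008000500050008000b000e0007) (nat_lit 0x408189052004440) (nat_lit 16) Lb.e (@T16.mk En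
    (@En.i (nat_lit 1409) (nat_lit 7) (nat_lit 7))
    (@En.n l27423 (nat_lit 1532) (nat_lit 4) (nat_lit 14))
    (@En.i (nat_lit 1259) (nat_lit 2) (nat_lit 11))
    (@En.n l19932 (nat_lit 1439) (nat_lit 10) (nat_lit 8))
    (@En.n l2886 (nat_lit 1439) (nat_lit 11) (nat_lit 5))
    (@En.n l24456 (nat_lit 9445) (nat_lit 5) (nat_lit 5))
    (@En.i (nat_lit 784) (nat_lit 6) (nat_lit 8))
    (@En.n l24935 (nat_lit 7747) (nat_lit 8) (nat_lit 9))
    (@En.n l3348 (nat_lit 1423) (nat_lit 8) (nat_lit 4))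
    (@En.n l61 (nat_lit 1446) (nat_lit 5) (nat_lit 11))
    (@En.n l1998 (nat_lit 1748) (nat_lit 11) (nat_lit 11))
    (@En.n l12286 (nat_lit 1198) (nat_lit 12) (nat_lit 8))
    (@En.n l27424 (nat_lit 1518) (nat_lit 13) (nat_lit 12))
    (@En.n l5311 (nat_lit 1442) (nat_lit 14) (nat_lit 5))
    (@En.n l2943 (nat_lit 1408) (nat_lit 5) (nat_lit 8))
    (@En.n l107 (nat_lit 1440) (nat_lit 15) (nat_lit 2))))
  (@Cl.mk (nat_lit 0x200050009000c00050008000b0004000e000700020005000b0008000e000b) (nat_lit 0x69002010008109) (nat_lit 16) Lb.e (@T16.mk En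
    (@En.n l1889 (nat_lit 1442) (nat_lit 11) (nat_lit 11))
    (@En.n l180 (nat_lit 1443) (nat_lit 12) (nat_lit 14))
    (@En.n l2038 (nat_lit 1193) (nat_lit 13) (nat_lit 8))
    (@En.n l5381 (nat_lit 1463) (nat_lit 3) (nat_lit 11))
    (@En.n l2866 (nat_lit 1469) (nat_lit 4) (nat_lit 5))
    (@En.n l17 (nat_lit 1441) (nat_lit 5) (nat_lit 2))
    (@En.n l10916 (nat_lit 1404) (nat_lit 6) (nat_lit 7))
    (@En.n l2034 (nat_lit 1439) (nat_lit 8) (nat_lit 14))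
    (@En.i (nat_lit 1587) (nat_lit 8) (nat_lit 4))
    (@En.n l1889 (nat_lit 1273) (nat_lit 10) (nat_lit 11))
    (@En.i (nat_lit 13607) (nat_lit 10) (nat_lit 8))
    (@En.n l9025 (nat_lit 9133) (nat_lit 5) (nat_lit 5))
    (@En.i (nat_lit 13941) (nat_lit 6) (nat_lit 12))
    (@En.n l1643 (nat_lit 7865) (nat_lit 14) (nat_lit 9))
    (@En.i (nat_lit 1454) (nat_lit 8) (nat_lit 5))
    (@En.n l11 (nat_lit 1441) (nat_lit 15) (nat_lit 2))))
  (@Cl.mk (nat_lit 0x20005000c0008000b000b00040008000b000500050008000b0005000e0008) (nat_lit 0x81800580015056) (nat_lit 16) Lb.e (@T16.mk En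
    (@En.i (nat_lit 1408) (nat_lit 6) (nat_lit 8))
    (@En.n l20930 (nat_lit 1440) (nat_lit 1) (nat_lit 14))
    (@En.i (nat_lit 1584) (nat_lit 2) (nat_lit 5))
    (@En.i (nat_lit 1266) (nat_lit 3) (nat_lit 11))
    (@En.n l27925 (nat_lit 1441) (nat_lit 10) (nat_lit 8))
    (@En.n l19873 (nat_lit 1441) (nat_lit 11) (nat_lit 5))
    (@En.n l5390 (nat_lit 9132) (nat_lit 6) (nat_lit 5))
    (@En.n l2866 (nat_lit 13924) (nat_lit 7) (nat_lit 11))
    (@En.i (nat_lit 7845) (nat_lit 9) (nat_lit 8))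
    (@En.n l5276 (nat_lit 1456) (nat_lit 9) (nat_lit 4))
    (@En.n l4662 (nat_lit 1445) (nat_lit 11) (nat_lit 11))
    (@En.n l19836 (nat_lit 1449) (nat_lit 12) (nat_lit 11))
    (@En.n l40600 (nat_lit 1195) (nat_lit 13) (nat_lit 8))
    (@En.n l40601 (nat_lit 1464) (nat_lit 14) (nat_lit 12))
    (@En.i (nat_lit 1470) (nat_lit 13) (nat_lit 5))
    (@En.n l50 (nat_lit 1442) (nat_lit 15) (nat_lit 2))))
  (@Cl.mk (nat_lit 0x20005000b000e000a0002000b00050009000c00060005000b0004000e0007) (nat_lit 0x8c801069003010) (nat_lit 16) Lb.e (@T16.mk En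
    (@En.n l10916 (nat_lit 1406) (nat_lit 5) (nat_lit 7))
    (@En.n l5 (nat_lit 1438) (nat_lit 1) (nat_lit 14))
    (@En.n l1442 (nat_lit 498) (nat_lit 2) (nat_lit 4))
    (@En.n l5599 (nat_lit 1252) (nat_lit 9) (nat_lit 11))
    (@En.i (nat_lit 414) (nat_lit 4) (nat_lit 5))
    (@En.i (nat_lit 9134) (nat_lit 5) (nat_lit 6))
    (@En.i (nat_lit 13727) (nat_lit 6) (nat_lit 12))
    (@En.n l3303 (nat_lit 7912) (nat_lit 13) (nat_lit 9))
    (@En.n l159 (nat_lit 1441) (nat_lit 14) (nat_lit 5))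
    (@En.n l29113 (nat_lit 1442) (nat_lit 10) (nat_lit 11))
    (@En.n l107 (nat_lit 1443) (nat_lit 10) (nat_lit 2))
    (@En.n l3303 (nat_lit 1444) (nat_lit 12) (nat_lit 10))
    (@En.n l619 (nat_lit 1634) (nat_lit 13) (nat_lit 14))
    (@En.n l3178 (nat_lit 1465) (nat_lit 2) (nat_lit 11))
    (@En.n l3303 (nat_lit 960) (nat_lit 13) (nat_lit 5))
    (@En.n l17 (nat_lit 1443) (nat_lit 15) (nat_lit 2))))
  (@Cl.mk (nat_lit 0x20005000c000a000a000a00040008000b000600060006000b0005000e0008) (nat_lit 0x67030580005056) (nat_lit 16) Lb.e (@T16.mk En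
    (@En.i (nat_lit 1297) (nat_lit 6) (nat_lit 8))
    (@En.n l396 (nat_lit 1417) (nat_lit 1) (nat_lit 14))
    (@En.n l1393 (nat_lit 1591) (nat_lit 2) (nat_lit 5))
    (@En.n l14631 (nat_lit 1258) (nat_lit 3) (nat_lit 11))
    (@En.n l11 (nat_lit 1453) (nat_lit 10) (nat_lit 6))
    (@En.n l5703 (nat_lit 1443) (nat_lit 5) (nat_lit 6))
    (@En.n l15449 (nat_lit 9379) (nat_lit 6) (nat_lit 6))
    (@En.n l1001 (nat_lit 13725) (nat_lit 7) (nat_lit 11))
    (@En.i (nat_lit 7051) (nat_lit 9) (nat_lit 8))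
    (@En.n l13138 (nat_lit 1442) (nat_lit 9) (nat_lit 4))
    (@En.n l1952 (nat_lit 1449) (nat_lit 11) (nat_lit 10))
    (@En.n l1596 (nat_lit 1448) (nat_lit 12) (nat_lit 10))
    (@En.n l12593 (nat_lit 1459) (nat_lit 13) (nat_lit 10))
    (@En.n l889 (nat_lit 1771) (nat_lit 14) (nat_lit 12))
    (@En.i (nat_lit 961) (nat_lit 13) (nat_lit 5))
    (@En.n l18 (nat_lit 1444) (nat_lit 15) (nat_lit 2))))
  (@Cl.mk (nat_lit 0x20005000d0008000b00030007000a000e000500020008000b0006000e0009) (nat_lit 0x90900720026007) (nat_lit 16) Lb.e (@T16.mk En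
    (@En.n l10916 (nat_lit 1447) (nat_lit 11) (nat_lit 9))
    (@En.n l14518 (nat_lit 1446) (nat_lit 12) (nat_lit 14))
    (@En.n l564 (nat_lit 1583) (nat_lit 13) (nat_lit 6))
    (@En.n l1998 (nat_lit 1262) (nat_lit 3) (nat_lit 11))
    (@En.n l2903 (nat_lit 1442) (nat_lit 4) (nat_lit 8))
    (@En.n l11 (nat_lit 1445) (nat_lit 5) (nat_lit 2))
    (@En.n l12278 (nat_lit 1442) (nat_lit 6) (nat_lit 5))
    (@En.n l2034 (nat_lit 12343) (nat_lit 8) (nat_lit 14))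
    (@En.i (nat_lit 13923) (nat_lit 8) (nat_lit 10))
    (@En.n l1643 (nat_lit 7846) (nat_lit 3) (nat_lit 7))
    (@En.n l3596 (nat_lit 1448) (nat_lit 10) (nat_lit 3))
    (@En.i (nat_lit 2044) (nat_lit 12) (nat_lit 11))
    (@En.n l476 (nat_lit 1450) (nat_lit 13) (nat_lit 8))
    (@En.n l5381 (nat_lit 2002) (nat_lit 8) (nat_lit 13))
    (@En.n l1998 (nat_lit 1479) (nat_lit 8) (nat_lit 5))
    (@En.n l17 (nat_lit 1445) (nat_lit 15) (nat_lit 2))))
  (@Cl.mk (nat_lit 0x20008000b000e0008000200090005000d0008000b000300080007000e0005) (nat_lit 0x54c604090804020) (nat_lit 16) Lb.e (@T16.mk En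
    (@En.i (nat_lit 1440) (nat_lit 5) (nat_lit 5))
    (@En.n l5599 (nat_lit 10742) (nat_lit 7) (nat_lit 14))
    (@En.i (nat_lit 787) (nat_lit 2) (nat_lit 7))
    (@En.n l615 (nat_lit 7850) (nat_lit 3) (nat_lit 8))
    (@En.i (nat_lit 1451) (nat_lit 4) (nat_lit 3))
    (@En.n l1998 (nat_lit 2042) (nat_lit 0) (nat_lit 11))
    (@En.n l13772 (nat_lit 1510) (nat_lit 6) (nat_lit 8))
    (@En.n l13731 (nat_lit 1517) (nat_lit 8) (nat_lit 13))
    (@En.n l12534 (nat_lit 1445) (nat_lit 14) (nat_lit 5))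
    (@En.n l5996 (nat_lit 1447) (nat_lit 10) (nat_lit 9))
    (@En.n l107 (nat_lit 1446) (nat_lit 10) (nat_lit 2))
    (@En.i (nat_lit 1394) (nat_lit 12) (nat_lit 8))
    (@En.n l6248 (nat_lit 1530) (nat_lit 13) (nat_lit 14))
    (@En.i (nat_lit 1261) (nat_lit 2) (nat_lit 11))
    (@En.n l617 (nat_lit 1440) (nat_lit 3) (nat_lit 8))
    (@En.n l17 (nat_lit 1446) (nat_lit 15) (nat_lit 2))))
  (@Cl.mk (nat_lit 0x20009000c0006000900090004000d0007000a000300070007000a000e0006) (nat_lit 0x260630707000830) (nat_lit 16) Lb.e (@T16.mk En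
    (@En.n l9790 (nat_lit 1408) (nat_lit 11) (nat_lit 6))
    (@En.i (nat_lit 12336) (nat_lit 1) (nat_lit 14))
    (@En.n l12529 (nat_lit 1445) (nat_lit 8) (nat_lit 10))
    (@En.n l6147 (nat_lit 1445) (nat_lit 9) (nat_lit 7))
    (@En.n l6081 (nat_lit 7839) (nat_lit 4) (nat_lit 7))
    (@En.n l26971 (nat_lit 1536) (nat_lit 5) (nat_lit 3))
    (@En.i (nat_lit 2043) (nat_lit 0) (nat_lit 10))
    (@En.n l10794 (nat_lit 1512) (nat_lit 7) (nat_lit 7))
    (@En.n l18 (nat_lit 2000) (nat_lit 9) (nat_lit 13))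
    (@En.n l3348 (nat_lit 1485) (nat_lit 9) (nat_lit 4))
    (@En.n l61 (nat_lit 1392) (nat_lit 11) (nat_lit 9))
    (@En.n l3546 (nat_lit 1539) (nat_lit 12) (nat_lit 9))
    (@En.i (nat_lit 1581) (nat_lit 13) (nat_lit 6))
    (@En.n l2590 (nat_lit 1265) (nat_lit 6) (nat_lit 12))
    (@En.n l2070 (nat_lit 1408) (nat_lit 9) (nat_lit 9))
    (@En.n l11 (nat_lit 1447) (nat_lit 15) (nat_lit 2))))
  (@Cl.mk (nat_lit 0x20005000d000a000900030007000a000e000600020007000b0006000e0009) (nat_lit 0x98200020006007) (nat_lit 16) Lb.e (@T16.mk En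
    (@En.i (nat_lit 1536) (nat_lit 11) (nat_lit 9))
    (@En.n l2141 (nat_lit 1451) (nat_lit 12) (nat_lit 14))
    (@En.n l22223 (nat_lit 1714) (nat_lit 13) (nat_lit 6))
    (@En.n l226 (nat_lit 1264) (nat_lit 3) (nat_lit 11))
    (@En.n l5728 (nat_lit 1456) (nat_lit 4) (nat_lit 7))
    (@En.n l476 (nat_lit 1448) (nat_lit 5) (nat_lit 2))
    (@En.n l187 (nat_lit 1444) (nat_lit 6) (nat_lit 6))
    (@En.n l5372 (nat_lit 12602) (nat_lit 8) (nat_lit 14))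
    (@En.n l2009 (nat_lit 13922) (nat_lit 8) (nat_lit 10))
    (@En.n l27010 (nat_lit 7044) (nat_lit 3) (nat_lit 7))
    (@En.n l1106 (nat_lit 1445) (nat_lit 10) (nat_lit 3))
    (@En.n l619 (nat_lit 757) (nat_lit 12) (nat_lit 9))
    (@En.n l1106 (nat_lit 1758) (nat_lit 13) (nat_lit 10))
    (@En.n l889 (nat_lit 1773) (nat_lit 8) (nat_lit 13))
    (@En.i (nat_lit 1524) (nat_lit 8) (nat_lit 5))
    (@En.n l18 (nat_lit 1448) (nat_lit 15) (nat_lit 2))))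
  (@Cl.mk (nat_lit 0x20005000d000b000a00030007000a0005000e00060002000b0006000e0009) (nat_lit 0x77200003006007) (nat_lit 16) Lb.e (@T16.mk En
    (@En.n l10916 (nat_lit 1721) (nat_lit 12) (nat_lit 9))
    (@En.n l5 (nat_lit 1748) (nat_lit 1) (nat_lit 14))
    (@En.n l564 (nat_lit 1733) (nat_lit 14) (nat_lit 6))
    (@En.n l12278 (nat_lit 1037) (nat_lit 3) (nat_lit 11))
    (@En.n l28 (nat_lit 1449) (nat_lit 4) (nat_lit 2))
    (@En.n l2683 (nat_lit 1444) (nat_lit 5) (nat_lit 6))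
    (@En.n l1578 (nat_lit 1445) (nat_lit 7) (nat_lit 14))
    (@En.n l7682 (nat_lit 9376) (nat_lit 7) (nat_lit 5))
    (@En.i (nat_lit 13915) (nat_lit 8) (nat_lit 10))
    (@En.n l2381 (nat_lit 7124) (nat_lit 4) (nat_lit 7))
    (@En.n l2469 (nat_lit 1747) (nat_lit 10) (nat_lit 3))
    (@En.n l4021 (nat_lit 762) (nat_lit 12) (nat_lit 10))
    (@En.i (nat_lit 1463) (nat_lit 13) (nat_lit 11))
    (@En.n l3178 (nat_lit 1769) (nat_lit 9) (nat_lit 13))
    (@En.i (nat_lit 1789) (nat_lit 13) (nat_lit 5))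
    (@En.n l17 (nat_lit 1449) (nat_lit 15) (nat_lit 2))))
  (@Cl.mk (nat_lit 0x200050008000b000900060009000e0005000200080007000b0007000e000a) (nat_lit 0x68300200207078) (nat_lit 16) Lb.e (@T16.mk En
    (@En.n l6282 (nat_lit 1512) (nat_lit 10) (nat_lit 10))
    (@En.n l13754 (nat_lit 1510) (nat_lit 11) (nat_lit 14))
    (@En.n l13755 (nat_lit 1991) (nat_lit 12) (nat_lit 7))
    (@En.i (nat_lit 1445) (nat_lit 3) (nat_lit 11))
    (@En.n l13756 (nat_lit 1448) (nat_lit 4) (nat_lit 7))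
    (@En.n l13757 (nat_lit 1195) (nat_lit 5) (nat_lit 8))
    (@En.n l11 (nat_lit 1450) (nat_lit 6) (nat_lit 2))
    (@En.n l13758 (nat_lit 1195) (nat_lit 7) (nat_lit 5))
    (@En.n l13759 (nat_lit 12600) (nat_lit 9) (nat_lit 14))
    (@En.i (nat_lit 13925) (nat_lit 9) (nat_lit 9))
    (@En.n l3340 (nat_lit 7847) (nat_lit 3) (nat_lit 6))
    (@En.n l12335 (nat_lit 754) (nat_lit 12) (nat_lit 9))
    (@En.i (nat_lit 2138) (nat_lit 13) (nat_lit 11))
    (@En.n l11819 (nat_lit 1933) (nat_lit 14) (nat_lit 8))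
    (@En.n l12335 (nat_lit 1478) (nat_lit 7) (nat_lit 5))
    (@En.n l17 (nat_lit 1450) (nat_lit 15) (nat_lit 2))))
  (@Cl.mk (nat_lit 0x20007000b000e0008000200090005000d000a0009000300080007000e0006) (nat_lit 0x6c604098206020) (nat_lit 16) Lb.e (@T16.mk En
    (@En.n l215 (nat_lit 1417) (nat_lit 5) (nat_lit 6))
    (@En.n l5599 (nat_lit 10746) (nat_lit 7) (nat_lit 14))
    (@En.i (nat_lit 793) (nat_lit 2) (nat_lit 7))
    (@En.n l13774 (nat_lit 7043) (nat_lit 3) (nat_lit 8))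
    (@En.n l50 (nat_lit 1446) (nat_lit 4) (nat_lit 3))
    (@En.n l767 (nat_lit 764) (nat_lit 5) (nat_lit 9))
    (@En.n l13775 (nat_lit 2509) (nat_lit 12) (nat_lit 10))
    (@En.n l13776 (nat_lit 1521) (nat_lit 8) (nat_lit 13))
    (@En.n l13777 (nat_lit 1448) (nat_lit 14) (nat_lit 5))
    (@En.n l1975 (nat_lit 1536) (nat_lit 10) (nat_lit 9))
    (@En.n l107 (nat_lit 1451) (nat_lit 10) (nat_lit 2))
    (@En.n l12212 (nat_lit 1415) (nat_lit 12) (nat_lit 8))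
    (@En.n l13774 (nat_lit 1529) (nat_lit 13) (nat_lit 14))
    (@En.i (nat_lit 1260) (nat_lit 2) (nat_lit 11))
    (@En.n l3327 (nat_lit 1423) (nat_lit 3) (nat_lit 7))
    (@En.n l17 (nat_lit 1451) (nat_lit 15) (nat_lit 2))))
  (@Cl.mk (nat_lit 0x20005000a000900070006000b000e0006000200070005000b0009000e000a) (nat_lit 0x730040000067a1) (nat_lit 16) Lb.e (@T16.mk En
    (@En.n l68 (nat_lit 1417) (nat_lit 10) (nat_lit 10))
    (@En.n l6036 (nat_lit 1455) (nat_lit 11) (nat_lit 14))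
    (@En.n l2320 (nat_lit 1458) (nat_lit 12) (nat_lit 9))
    (@En.n l6037 (nat_lit 1762) (nat_lit 3) (nat_lit 11))
    (@En.n l1723 (nat_lit 1453) (nat_lit 4) (nat_lit 5))
    (@En.n l18 (nat_lit 1294) (nat_lit 5) (nat_lit 7))
    (@En.n l50 (nat_lit 1452) (nat_lit 6) (nat_lit 2))
    (@En.n l6038 (nat_lit 1410) (nat_lit 7) (nat_lit 6))
    (@En.n l6039 (nat_lit 1679) (nat_lit 9) (nat_lit 14))
    (@En.n l6040 (nat_lit 1074) (nat_lit 10) (nat_lit 11))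
    (@En.i (nat_lit 404) (nat_lit 3) (nat_lit 6))
    (@En.n l6041 (nat_lit 9386) (nat_lit 12) (nat_lit 7))
    (@En.i (nat_lit 802) (nat_lit 13) (nat_lit 9))
    (@En.n l6042 (nat_lit 6491) (nat_lit 14) (nat_lit 10))
    (@En.n l730 (nat_lit 1438) (nat_lit 7) (nat_lit 5))
    (@En.n l67 (nat_lit 1452) (nat_lit 15) (nat_lit 2))))
  (@Cl.mk (nat_lit 0x200050009000c00070006000b0004000e000700020005000b0009000e000a) (nat_lit 0x690040100067a1) (nat_lit 16) Lb.e (@T16.mk En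
    (@En.n l68 (nat_lit 1444) (nat_lit 11) (nat_lit 10))
    (@En.n l637 (nat_lit 1454) (nat_lit 12) (nat_lit 14))
    (@En.n l9874 (nat_lit 1457) (nat_lit 13) (nat_lit 9))
    (@En.n l1060 (nat_lit 1772) (nat_lit 3) (nat_lit 11))
    (@En.i (nat_lit 1663) (nat_lit 4) (nat_lit 5))
    (@En.n l18 (nat_lit 1453) (nat_lit 5) (nat_lit 2))
    (@En.i (nat_lit 1294) (nat_lit 6) (nat_lit 7))
    (@En.n l396 (nat_lit 1452) (nat_lit 8) (nat_lit 14))
    (@En.n l2438 (nat_lit 499) (nat_lit 8) (nat_lit 4))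
    (@En.n l645 (nat_lit 1075) (nat_lit 10) (nat_lit 11))
    (@En.i (nat_lit 412) (nat_lit 4) (nat_lit 6))
    (@En.n l7628 (nat_lit 9383) (nat_lit 5) (nat_lit 7))
    (@En.n l639 (nat_lit 13726) (nat_lit 6) (nat_lit 12))
    (@En.i (nat_lit 7007) (nat_lit 14) (nat_lit 9))
    (@En.n l730 (nat_lit 1443) (nat_lit 8) (nat_lit 5))
    (@En.n l67 (nat_lit 1453) (nat_lit 15) (nat_lit 2))))
  (@Cl.mk (nat_lit 0x20005000b000e00090002000c00050009000c00040007000b0004000e0007) (nat_lit 0x69000079004000) (nat_lit 16) Lb.e (@T16.mk En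
    (@En.n l10916 (nat_lit 1292) (nat_lit 5) (nat_lit 7))
    (@En.n l28713 (nat_lit 1455) (nat_lit 1) (nat_lit 14))
    (@En.n l1559 (nat_lit 1712) (nat_lit 2) (nat_lit 4))
    (@En.n l2036 (nat_lit 1061) (nat_lit 3) (nat_lit 11))
    (@En.i (nat_lit 415) (nat_lit 4) (nat_lit 7))
    (@En.n l9025 (nat_lit 6832) (nat_lit 5) (nat_lit 4))
    (@En.i (nat_lit 13940) (nat_lit 6) (nat_lit 12))
    (@En.n l2036 (nat_lit 5968) (nat_lit 13) (nat_lit 9))
    (@En.n l2037 (nat_lit 1453) (nat_lit 14) (nat_lit 5))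
    (@En.n l1758 (nat_lit 1456) (nat_lit 10) (nat_lit 12))
    (@En.n l3 (nat_lit 1454) (nat_lit 10) (nat_lit 2))
    (@En.n l4871 (nat_lit 1456) (nat_lit 12) (nat_lit 9))
    (@En.i (nat_lit 4925) (nat_lit 13) (nat_lit 14))
    (@En.n l5381 (nat_lit 1675) (nat_lit 2) (nat_lit 11))
    (@En.n l2866 (nat_lit 1664) (nat_lit 13) (nat_lit 5))
    (@En.n l17 (nat_lit 1454) (nat_lit 15) (nat_lit 2))))
  (@Cl.mk (nat_lit 0x200070005000b000e00090002000c0005000a000900040007000b000e0006) (nat_lit 0x69101071004c0) (nat_lit 16) Lb.e (@T16.mk En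
    (@En.n l14570 (nat_lit 421) (nat_lit 6) (nat_lit 6))
    (@En.n l3392 (nat_lit 1678) (nat_lit 4) (nat_lit 14))
    (@En.n l14571 (nat_lit 314) (nat_lit 2) (nat_lit 11))
    (@En.n l2669 (nat_lit 431) (nat_lit 3) (nat_lit 7))
    (@En.i (nat_lit 6838) (nat_lit 4) (nat_lit 4))
    (@En.n l14572 (nat_lit 582) (nat_lit 5) (nat_lit 9))
    (@En.n l14573 (nat_lit 5966) (nat_lit 13) (nat_lit 10))
    (@En.n l10884 (nat_lit 1452) (nat_lit 14) (nat_lit 5))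
    (@En.n l14574 (nat_lit 1423) (nat_lit 9) (nat_lit 12))
    (@En.n l18 (nat_lit 1455) (nat_lit 9) (nat_lit 2))
    (@En.n l14575 (nat_lit 1423) (nat_lit 11) (nat_lit 9))
    (@En.n l14576 (nat_lit 4912) (nat_lit 12) (nat_lit 14))
    (@En.n l14577 (nat_lit 1764) (nat_lit 13) (nat_lit 11))
    (@En.n l14578 (nat_lit 1454) (nat_lit 14) (nat_lit 5))
    (@En.n l14579 (nat_lit 1292) (nat_lit 4) (nat_lit 7))
    (@En.n l11 (nat_lit 1455) (nat_lit 15) (nat_lit 2))))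
noncomputable def a91 : T16 Cl := @T16.mk Cl
  (@Cl.mk (nat_lit 0x20005000c00090009000c00040008000b000400070007000b0005000e0008) (nat_lit 0x670a0680005052) (nat_lit 16) Lb.e (@T16.mk En
    (@En.i (nat_lit 1293) (nat_lit 6) (nat_lit 8))
    (@En.n l5 (nat_lit 1423) (nat_lit 1) (nat_lit 14))
    (@En.i (nat_lit 1711) (nat_lit 2) (nat_lit 5))
    (@En.i (nat_lit 1038) (nat_lit 3) (nat_lit 11))
    (@En.n l1904 (nat_lit 1454) (nat_lit 4) (nat_lit 7))
    (@En.n l17491 (nat_lit 1453) (nat_lit 11) (nat_lit 7))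
    (@En.n l12289 (nat_lit 6834) (nat_lit 6) (nat_lit 4))
    (@En.i (nat_lit 13910) (nat_lit 7) (nat_lit 11))
    (@En.n l1897 (nat_lit 5969) (nat_lit 9) (nat_lit 8))
    (@En.n l7718 (nat_lit 1444) (nat_lit 9) (nat_lit 4))
    (@En.n l1690 (nat_lit 1747) (nat_lit 11) (nat_lit 12))
    (@En.n l26456 (nat_lit 1747) (nat_lit 12) (nat_lit 9))
    (@En.n l7723 (nat_lit 1752) (nat_lit 13) (nat_lit 9))
    (@En.i (nat_lit 1766) (nat_lit 14) (nat_lit 12))
    (@En.i (nat_lit 1500) (nat_lit 13) (nat_lit 5))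
    (@En.n l17 (nat_lit 1456) (nat_lit 15) (nat_lit 2))))
  (@Cl.mk (nat_lit 0x200050009000e00090002000c0008000b000700040007000b0005000e0008) (nat_lit 0x6a005000005006) (nat_lit 16) Lb.e (@T16.mk En
    (@En.n l12976 (nat_lit 1460) (nat_lit 5) (nat_lit 8))
    (@En.n l7165 (nat_lit 1458) (nat_lit 1) (nat_lit 14))
    (@En.i (nat_lit 3176) (nat_lit 2) (nat_lit 5))
    (@En.n l1106 (nat_lit 1174) (nat_lit 3) (nat_lit 11))
    (@En.n l5390 (nat_lit 1056) (nat_lit 4) (nat_lit 7))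
    (@En.n l5376 (nat_lit 1454) (nat_lit 5) (nat_lit 4))
    (@En.n l12977 (nat_lit 6612) (nat_lit 6) (nat_lit 7))
    (@En.n l5372 (nat_lit 13911) (nat_lit 7) (nat_lit 11))
    (@En.n l12290 (nat_lit 9853) (nat_lit 14) (nat_lit 8))
    (@En.n l29099 (nat_lit 1459) (nat_lit 10) (nat_lit 12))
    (@En.n l18 (nat_lit 1457) (nat_lit 10) (nat_lit 2))
    (@En.n l29100 (nat_lit 1459) (nat_lit 12) (nat_lit 9))
    (@En.n l5372 (nat_lit 4922) (nat_lit 13) (nat_lit 14))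
    (@En.n l29101 (nat_lit 1407) (nat_lit 14) (nat_lit 9))
    (@En.n l17942 (nat_lit 1667) (nat_lit 13) (nat_lit 5))
    (@En.n l28 (nat_lit 1457) (nat_lit 15) (nat_lit 2))))
  (@Cl.mk (nat_lit 0x2000800050009000e00090002000c00090008000700040007000b000e0007) (nat_lit 0x6a000010005c0) (nat_lit 16) Lb.e (@T16.mk En
    (@En.n l117 (nat_lit 1673) (nat_lit 6) (nat_lit 7))
    (@En.n l7849 (nat_lit 1868) (nat_lit 4) (nat_lit 14))
    (@En.n l2238 (nat_lit 1133) (nat_lit 2) (nat_lit 11))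
    (@En.n l2603 (nat_lit 1052) (nat_lit 3) (nat_lit 7))
    (@En.n l936 (nat_lit 1455) (nat_lit 4) (nat_lit 4))
    (@En.n l77 (nat_lit 6695) (nat_lit 5) (nat_lit 7))
    (@En.i (nat_lit 578) (nat_lit 6) (nat_lit 8))
    (@En.n l936 (nat_lit 9852) (nat_lit 14) (nat_lit 9))
    (@En.n l14778 (nat_lit 1461) (nat_lit 9) (nat_lit 12))
    (@En.n l18 (nat_lit 1458) (nat_lit 9) (nat_lit 2))
    (@En.n l14779 (nat_lit 1461) (nat_lit 11) (nat_lit 9))
    (@En.n l3751 (nat_lit 4911) (nat_lit 12) (nat_lit 14))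
    (@En.n l837 (nat_lit 1648) (nat_lit 13) (nat_lit 9))
    (@En.n l7619 (nat_lit 1457) (nat_lit 14) (nat_lit 5))
    (@En.n l4719 (nat_lit 1460) (nat_lit 4) (nat_lit 8))
    (@En.n l11 (nat_lit 1458) (nat_lit 15) (nat_lit 2))))
  (@Cl.mk (nat_lit 0x20005000a00090009000c0007000a0006000400070007000b0006000e0009) (nat_lit 0x67040000006007) (nat_lit 16) Lb.e (@T16.mk En
    (@En.n l3839 (nat_lit 1462) (nat_lit 1) (nat_lit 9))
    (@En.n l180 (nat_lit 1461) (nat_lit 1) (nat_lit 14))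
    (@En.n l13782 (nat_lit 1980) (nat_lit 2) (nat_lit 6))
    (@En.n l13101 (nat_lit 1175) (nat_lit 3) (nat_lit 11))
    (@En.n l33491 (nat_lit 1457) (nat_lit 4) (nat_lit 7))
    (@En.n l28830 (nat_lit 1555) (nat_lit 5) (nat_lit 7))
    (@En.n l27336 (nat_lit 1456) (nat_lit 6) (nat_lit 4))
    (@En.n l28831 (nat_lit 6609) (nat_lit 7) (nat_lit 6))
    (@En.n l13101 (nat_lit 13912) (nat_lit 8) (nat_lit 10))
    (@En.n l26360 (nat_lit 9623) (nat_lit 10) (nat_lit 7))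
    (@En.n l3327 (nat_lit 1463) (nat_lit 11) (nat_lit 12))
    (@En.n l2575 (nat_lit 1463) (nat_lit 12) (nat_lit 9))
    (@En.i (nat_lit 2515) (nat_lit 13) (nat_lit 9))
    (@En.n l27337 (nat_lit 1194) (nat_lit 14) (nat_lit 10))
    (@En.i (nat_lit 1670) (nat_lit 13) (nat_lit 5))
    (@En.n l11 (nat_lit 1459) (nat_lit 15) (nat_lit 2))))
  (@Cl.mk (nat_lit 0x2000b00080008000b000800050008000c00050008000800040008000e0008) (nat_lit 0x501140260560590) (nat_lit 16) Lb.e (@T16.mk En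
    (@En.n l29107 (nat_lit 1462) (nat_lit 13) (nat_lit 8))
    (@En.n l29108 (nat_lit 4923) (nat_lit 1) (nat_lit 14))
    (@En.n l24502 (nat_lit 1514) (nat_lit 2) (nat_lit 8))
    (@En.n l29109 (nat_lit 1669) (nat_lit 3) (nat_lit 4))
    (@En.n l16928 (nat_lit 2001) (nat_lit 4) (nat_lit 8))
    (@En.n l29110 (nat_lit 2003) (nat_lit 10) (nat_lit 8))
    (@En.n l29111 (nat_lit 3175) (nat_lit 6) (nat_lit 5))
    (@En.n l5781 (nat_lit 1173) (nat_lit 8) (nat_lit 12))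
    (@En.n l24502 (nat_lit 1057) (nat_lit 10) (nat_lit 8))
    (@En.n l13317 (nat_lit 1292) (nat_lit 9) (nat_lit 5))
    (@En.n l77 (nat_lit 6696) (nat_lit 11) (nat_lit 8))
    (@En.n l12991 (nat_lit 1457) (nat_lit 7) (nat_lit 11))
    (@En.n l4977 (nat_lit 1457) (nat_lit 8) (nat_lit 8))
    (@En.n l8383 (nat_lit 9854) (nat_lit 14) (nat_lit 8))
    (@En.n l29112 (nat_lit 1462) (nat_lit 11) (nat_lit 11))
    (@En.n l18 (nat_lit 1460) (nat_lit 15) (nat_lit 2))))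
  (@Cl.mk (nat_lit 0x200090005000a00090009000c000800070006000400070007000b000e0008) (nat_lit 0x670a6000006c6) (nat_lit 16) Lb.e (@T16.mk En
    (@En.n l27993 (nat_lit 1421) (nat_lit 2) (nat_lit 8))
    (@En.n l27994 (nat_lit 1866) (nat_lit 4) (nat_lit 14))
    (@En.n l5549 (nat_lit 988) (nat_lit 2) (nat_lit 11))
    (@En.n l27335 (nat_lit 1458) (nat_lit 3) (nat_lit 7))
    (@En.n l7344 (nat_lit 1562) (nat_lit 4) (nat_lit 7))
    (@En.n l27336 (nat_lit 1423) (nat_lit 5) (nat_lit 4))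
    (@En.n l27994 (nat_lit 6613) (nat_lit 6) (nat_lit 6))
    (@En.i (nat_lit 573) (nat_lit 7) (nat_lit 7))
    (@En.n l27995 (nat_lit 9618) (nat_lit 9) (nat_lit 8))
    (@En.n l617 (nat_lit 1465) (nat_lit 10) (nat_lit 12))
    (@En.n l2687 (nat_lit 1465) (nat_lit 11) (nat_lit 9))
    (@En.i (nat_lit 2510) (nat_lit 12) (nat_lit 9))
    (@En.n l27337 (nat_lit 1188) (nat_lit 13) (nat_lit 10))
    (@En.n l159 (nat_lit 1459) (nat_lit 14) (nat_lit 5))
    (@En.n l5634 (nat_lit 1462) (nat_lit 0) (nat_lit 9))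
    (@En.n l107 (nat_lit 1461) (nat_lit 15) (nat_lit 2))))
  (@Cl.mk (nat_lit 0x4000900080008000b00070007000a0007000500080008000c000600090009) (nat_lit 0x560400100037067) (nat_lit 16) Lb.e (@T16.mk En
    (@En.n l575 (nat_lit 2000) (nat_lit 7) (nat_lit 9))
    (@En.i (nat_lit 1770) (nat_lit 9) (nat_lit 9))
    (@En.n l40945 (nat_lit 1939) (nat_lit 12) (nat_lit 6))
    (@En.n l40946 (nat_lit 1176) (nat_lit 7) (nat_lit 12))
    (@En.n l40947 (nat_lit 1460) (nat_lit 8) (nat_lit 8))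
    (@En.n l13710 (nat_lit 1558) (nat_lit 10) (nat_lit 8))
    (@En.n l24806 (nat_lit 1293) (nat_lit 11) (nat_lit 5))
    (@En.n l40948 (nat_lit 6611) (nat_lit 0) (nat_lit 7))
    (@En.n l14025 (nat_lit 1459) (nat_lit 8) (nat_lit 10))
    (@En.n l14026 (nat_lit 1459) (nat_lit 9) (nat_lit 7))
    (@En.n l19385 (nat_lit 9622) (nat_lit 11) (nat_lit 7))
    (@En.n l18679 (nat_lit 1464) (nat_lit 7) (nat_lit 11))
    (@En.n l40949 (nat_lit 1464) (nat_lit 8) (nat_lit 8))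
    (@En.i (nat_lit 2514) (nat_lit 8) (nat_lit 8))
    (@En.n l13710 (nat_lit 1197) (nat_lit 11) (nat_lit 9))
    (@En.n l5152 (nat_lit 1672) (nat_lit 15) (nat_lit 4))))
  (@Cl.mk (nat_lit 0x20005000b0009000c0006000900050004000e00070002000b0007000e000a) (nat_lit 0x67300004007008) (nat_lit 16) Lb.e (@T16.mk En
    (@En.i (nat_lit 1464) (nat_lit 12) (nat_lit 10))
    (@En.n l6863 (nat_lit 1465) (nat_lit 1) (nat_lit 14))
    (@En.n l28318 (nat_lit 1981) (nat_lit 14) (nat_lit 7))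
    (@En.n l12479 (nat_lit 1045) (nat_lit 3) (nat_lit 11))
    (@En.n l28 (nat_lit 1463) (nat_lit 4) (nat_lit 2))
    (@En.n l1101 (nat_lit 1459) (nat_lit 5) (nat_lit 7))
    (@En.n l17561 (nat_lit 1552) (nat_lit 7) (nat_lit 14))
    (@En.n l9300 (nat_lit 1747) (nat_lit 7) (nat_lit 4))
    (@En.n l1865 (nat_lit 6608) (nat_lit 8) (nat_lit 5))
    (@En.i (nat_lit 13913) (nat_lit 9) (nat_lit 9))
    (@En.n l2381 (nat_lit 9625) (nat_lit 5) (nat_lit 6))
    (@En.n l5372 (nat_lit 13091) (nat_lit 6) (nat_lit 12))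
    (@En.n l3082 (nat_lit 2575) (nat_lit 13) (nat_lit 9))
    (@En.n l5372 (nat_lit 1193) (nat_lit 9) (nat_lit 11))
    (@En.i (nat_lit 1675) (nat_lit 13) (nat_lit 5))
    (@En.n l17 (nat_lit 1463) (nat_lit 15) (nat_lit 2))))
  (@Cl.mk (nat_lit 0x2000c0007000a000a0004000a0008000b00060006000900060005000e0008) (nat_lit 0x707005630010051) (nat_lit 16) Lb.e (@T16.mk En
    (@En.n l33866 (nat_lit 1462) (nat_lit 5) (nat_lit 8))
    (@En.n l28785 (nat_lit 1518) (nat_lit 1) (nat_lit 14))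
    (@En.n l15252 (nat_lit 1722) (nat_lit 2) (nat_lit 5))
    (@En.n l33867 (nat_lit 6610) (nat_lit 3) (nat_lit 6))
    (@En.n l18 (nat_lit 1463) (nat_lit 9) (nat_lit 9))
    (@En.n l61 (nat_lit 1463) (nat_lit 10) (nat_lit 6))
    (@En.n l33868 (nat_lit 9624) (nat_lit 6) (nat_lit 6))
    (@En.n l5372 (nat_lit 13093) (nat_lit 7) (nat_lit 11))
    (@En.n l33869 (nat_lit 2572) (nat_lit 9) (nat_lit 8))
    (@En.n l5372 (nat_lit 1195) (nat_lit 10) (nat_lit 10))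
    (@En.n l26650 (nat_lit 1766) (nat_lit 10) (nat_lit 4))
    (@En.n l15255 (nat_lit 2002) (nat_lit 6) (nat_lit 10))
    (@En.n l33869 (nat_lit 1769) (nat_lit 8) (nat_lit 10))
    (@En.n l28320 (nat_lit 1979) (nat_lit 14) (nat_lit 7))
    (@En.n l26004 (nat_lit 1177) (nat_lit 3) (nat_lit 12))
    (@En.n l28 (nat_lit 1464) (nat_lit 15) (nat_lit 2))))
  (@Cl.mk (nat_lit 0x2000a0005000b0009000c0007000600050004000e00070002000b000e0009) (nat_lit 0x1067900004007c7) (nat_lit 16) Lb.e (@T16.mk En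
    (@En.n l18090 (nat_lit 1771) (nat_lit 13) (nat_lit 9))
    (@En.n l2940 (nat_lit 1867) (nat_lit 4) (nat_lit 14))
    (@En.n l671 (nat_lit 986) (nat_lit 2) (nat_lit 11))
    (@En.n l18 (nat_lit 1465) (nat_lit 3) (nat_lit 2))
    (@En.n l61 (nat_lit 1461) (nat_lit 4) (nat_lit 7))
    (@En.n l17496 (nat_lit 1760) (nat_lit 1) (nat_lit 14))
    (@En.i (nat_lit 1746) (nat_lit 6) (nat_lit 4))
    (@En.n l18091 (nat_lit 6614) (nat_lit 3) (nat_lit 5))
    (@En.i (nat_lit 892) (nat_lit 8) (nat_lit 6))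
    (@En.n l3307 (nat_lit 9619) (nat_lit 5) (nat_lit 7))
    (@En.n l2922 (nat_lit 13092) (nat_lit 6) (nat_lit 12))
    (@En.i (nat_lit 2513) (nat_lit 12) (nat_lit 9))
    (@En.n l2922 (nat_lit 1187) (nat_lit 9) (nat_lit 11))
    (@En.n l4497 (nat_lit 1463) (nat_lit 14) (nat_lit 5))
    (@En.n l18092 (nat_lit 1464) (nat_lit 11) (nat_lit 10))
    (@En.n l107 (nat_lit 1465) (nat_lit 15) (nat_lit 2))))
  (@Cl.mk (nat_lit 0x20005000b000e000a0002000b0005000b000a00060005000b0005000e0006) (nat_lit 0x7a800082002040) (nat_lit 16) Lb.e (@T16.mk En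
    (@En.n l5784 (nat_lit 1400) (nat_lit 5) (nat_lit 6))
    (@En.n l6233 (nat_lit 960) (nat_lit 1) (nat_lit 14))
    (@En.i (nat_lit 959) (nat_lit 2) (nat_lit 5))
    (@En.n l6050 (nat_lit 609) (nat_lit 9) (nat_lit 11))
    (@En.i (nat_lit 400) (nat_lit 4) (nat_lit 5))
    (@En.n l6234 (nat_lit 8470) (nat_lit 5) (nat_lit 6))
    (@En.n l644 (nat_lit 798) (nat_lit 12) (nat_lit 10))
    (@En.n l3303 (nat_lit 7155) (nat_lit 8) (nat_lit 11))
    (@En.n l6052 (nat_lit 1467) (nat_lit 8) (nat_lit 5))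
    (@En.n l1001 (nat_lit 1468) (nat_lit 10) (nat_lit 11))
    (@En.n l107 (nat_lit 1466) (nat_lit 10) (nat_lit 2))
    (@En.i (nat_lit 1418) (nat_lit 12) (nat_lit 10))
    (@En.n l619 (nat_lit 1626) (nat_lit 13) (nat_lit 14))
    (@En.n l1722 (nat_lit 1606) (nat_lit 2) (nat_lit 11))
    (@En.n l640 (nat_lit 1438) (nat_lit 13) (nat_lit 5))
    (@En.n l18 (nat_lit 1466) (nat_lit 15) (nat_lit 2))))
  (@Cl.mk (nat_lit 0x20005000b0008000e000b00020005000b000a00050008000b0005000e0006) (nat_lit 0x83b90072032090) (nat_lit 16) Lb.e (@T16.mk En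
    (@En.n l50 (nat_lit 1403) (nat_lit 6) (nat_lit 6))
    (@En.n l998 (nat_lit 1469) (nat_lit 8) (nat_lit 14))
    (@En.n l1643 (nat_lit 1471) (nat_lit 8) (nat_lit 5))
    (@En.i (nat_lit 999) (nat_lit 10) (nat_lit 11))
    (@En.i (nat_lit 13117) (nat_lit 10) (nat_lit 8))
    (@En.i (nat_lit 8469) (nat_lit 5) (nat_lit 5))
    (@En.n l217 (nat_lit 785) (nat_lit 13) (nat_lit 10))
    (@En.n l1889 (nat_lit 7743) (nat_lit 8) (nat_lit 11))
    (@En.i (nat_lit 1665) (nat_lit 8) (nat_lit 5))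
    (@En.n l28 (nat_lit 1467) (nat_lit 9) (nat_lit 2))
    (@En.i (nat_lit 1468) (nat_lit 11) (nat_lit 11))
    (@En.n l14023 (nat_lit 1466) (nat_lit 12) (nat_lit 14))
    (@En.n l5144 (nat_lit 1475) (nat_lit 13) (nat_lit 8))
    (@En.n l2038 (nat_lit 1553) (nat_lit 3) (nat_lit 11))
    (@En.n l2039 (nat_lit 1439) (nat_lit 4) (nat_lit 5))
    (@En.n l17 (nat_lit 1467) (nat_lit 15) (nat_lit 2))))
  (@Cl.mk (nat_lit 0x20005000c0008000b000b0004000a0009000500050008000b0006000e0007) (nat_lit 0x63890620045070) (nat_lit 16) Lb.e (@T16.mk En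
    (@En.n l13822 (nat_lit 1409) (nat_lit 6) (nat_lit 7))
    (@En.n l13823 (nat_lit 1470) (nat_lit 1) (nat_lit 14))
    (@En.n l1643 (nat_lit 1472) (nat_lit 2) (nat_lit 6))
    (@En.n l2036 (nat_lit 993) (nat_lit 3) (nat_lit 11))
    (@En.n l11 (nat_lit 1467) (nat_lit 4) (nat_lit 8))
    (@En.n l55 (nat_lit 1467) (nat_lit 5) (nat_lit 5))
    (@En.n l13824 (nat_lit 8468) (nat_lit 6) (nat_lit 5))
    (@En.n l13825 (nat_lit 737) (nat_lit 7) (nat_lit 9))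
    (@En.n l2036 (nat_lit 7740) (nat_lit 9) (nat_lit 10))
    (@En.n l2037 (nat_lit 1422) (nat_lit 9) (nat_lit 4))
    (@En.n l6697 (nat_lit 1522) (nat_lit 11) (nat_lit 11))
    (@En.n l13826 (nat_lit 1788) (nat_lit 12) (nat_lit 11))
    (@En.n l5144 (nat_lit 1476) (nat_lit 13) (nat_lit 8))
    (@En.n l2038 (nat_lit 1531) (nat_lit 14) (nat_lit 12))
    (@En.n l13827 (nat_lit 1440) (nat_lit 13) (nat_lit 5))
    (@En.n l17 (nat_lit 1468) (nat_lit 15) (nat_lit 2))))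
  (@Cl.mk (nat_lit 0x200050008000b00050008000b000e0005000200080005000b0008000e000b) (nat_lit 0x2004800206519) (nat_lit 16) Lb.e (@T16.mk En
    (@En.n l2031 (nat_lit 1470) (nat_lit 10) (nat_lit 11))
    (@En.n l5610 (nat_lit 960) (nat_lit 11) (nat_lit 14))
    (@En.n l3663 (nat_lit 1473) (nat_lit 12) (nat_lit 8))
    (@En.n l12752 (nat_lit 1471) (nat_lit 3) (nat_lit 11))
    (@En.n l897 (nat_lit 1467) (nat_lit 14) (nat_lit 5))
    (@En.n l3337 (nat_lit 1435) (nat_lit 5) (nat_lit 8))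
    (@En.n l17 (nat_lit 1469) (nat_lit 6) (nat_lit 2))
    (@En.n l2869 (nat_lit 1435) (nat_lit 7) (nat_lit 5))
    (@En.n l1889 (nat_lit 4954) (nat_lit 9) (nat_lit 14))
    (@En.n l2031 (nat_lit 995) (nat_lit 10) (nat_lit 11))
    (@En.i (nat_lit 13116) (nat_lit 10) (nat_lit 8))
    (@En.i (nat_lit 8398) (nat_lit 4) (nat_lit 5))
    (@En.n l1643 (nat_lit 805) (nat_lit 13) (nat_lit 11))
    (@En.n l2036 (nat_lit 6021) (nat_lit 14) (nat_lit 8))
    (@En.i (nat_lit 1664) (nat_lit 7) (nat_lit 5))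
    (@En.n l7 (nat_lit 1469) (nat_lit 15) (nat_lit 2))))
  (@Cl.mk (nat_lit 0x200090005000c0008000b000b00040007000a000500050008000b000e0006) (nat_lit 0x208589002001460) (nat_lit 16) Lb.e (@T16.mk En
    (@En.n l5933 (nat_lit 1436) (nat_lit 7) (nat_lit 6))
    (@En.n l639 (nat_lit 4952) (nat_lit 4) (nat_lit 14))
    (@En.i (nat_lit 992) (nat_lit 2) (nat_lit 11))
    (@En.n l6211 (nat_lit 1469) (nat_lit 10) (nat_lit 8))
    (@En.n l6212 (nat_lit 1469) (nat_lit 11) (nat_lit 5))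
    (@En.n l5372 (nat_lit 8471) (nat_lit 5) (nat_lit 5))
    (@En.n l2034 (nat_lit 783) (nat_lit 8) (nat_lit 10))
    (@En.i (nat_lit 6019) (nat_lit 11) (nat_lit 7))
    (@En.n l5276 (nat_lit 1500) (nat_lit 8) (nat_lit 4))
    (@En.n l1867 (nat_lit 1479) (nat_lit 5) (nat_lit 11))
    (@En.n l19836 (nat_lit 1789) (nat_lit 11) (nat_lit 11))
    (@En.n l27436 (nat_lit 1474) (nat_lit 12) (nat_lit 8))
    (@En.n l27437 (nat_lit 1472) (nat_lit 13) (nat_lit 12))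
    (@En.n l20006 (nat_lit 1468) (nat_lit 14) (nat_lit 5))
    (@En.n l893 (nat_lit 1436) (nat_lit 5) (nat_lit 9))
    (@En.n l28 (nat_lit 1470) (nat_lit 15) (nat_lit 2))))
  (@Cl.mk (nat_lit 0x20005000b0008000b000600090005000e000500020008000b0007000e000a) (nat_lit 0x81305090025088) (nat_lit 16) Lb.e (@T16.mk En
    (@En.i (nat_lit 1472) (nat_lit 11) (nat_lit 10))
    (@En.n l180 (nat_lit 959) (nat_lit 12) (nat_lit 14))
    (@En.n l619 (nat_lit 1807) (nat_lit 13) (nat_lit 7))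
    (@En.n l1501 (nat_lit 1190) (nat_lit 3) (nat_lit 11))
    (@En.n l11240 (nat_lit 1480) (nat_lit 4) (nat_lit 8))
    (@En.n l18 (nat_lit 1471) (nat_lit 5) (nat_lit 2))
    (@En.n l3233 (nat_lit 1480) (nat_lit 6) (nat_lit 5))
    (@En.n l564 (nat_lit 4953) (nat_lit 8) (nat_lit 14))
    (@En.n l10348 (nat_lit 8230) (nat_lit 8) (nat_lit 5))
    (@En.n l1501 (nat_lit 13115) (nat_lit 9) (nat_lit 9))
    (@En.i (nat_lit 8473) (nat_lit 4) (nat_lit 6))
    (@En.i (nat_lit 2356) (nat_lit 12) (nat_lit 11))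
    (@En.n l10349 (nat_lit 1469) (nat_lit 13) (nat_lit 8))
    (@En.n l1643 (nat_lit 1473) (nat_lit 8) (nat_lit 11))
    (@En.i (nat_lit 1503) (nat_lit 8) (nat_lit 5))
    (@En.n l11 (nat_lit 1471) (nat_lit 15) (nat_lit 2))))
noncomputable def a92 : T16 Cl := @T16.mk Cl
  (@Cl.mk (nat_lit 0x20009000c0007000a000a0004000a0007000a0006000600090006000e0006) (nat_lit 0x270780703006060) (nat_lit 16) Lb.e (@T16.mk En
    (@En.n l3233 (nat_lit 1481) (nat_lit 6) (nat_lit 6))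
    (@En.n l22666 (nat_lit 4946) (nat_lit 1) (nat_lit 14))
    (@En.n l26240 (nat_lit 7822) (nat_lit 2) (nat_lit 6))
    (@En.n l107 (nat_lit 1471) (nat_lit 9) (nat_lit 9))
    (@En.n l575 (nat_lit 1471) (nat_lit 10) (nat_lit 6))
    (@En.n l10350 (nat_lit 8474) (nat_lit 5) (nat_lit 6))
    (@En.i (nat_lit 2299) (nat_lit 8) (nat_lit 10))
    (@En.n l26241 (nat_lit 1470) (nat_lit 7) (nat_lit 7))
    (@En.n l4521 (nat_lit 1474) (nat_lit 9) (nat_lit 10))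
    (@En.i (nat_lit 1499) (nat_lit 9) (nat_lit 4))
    (@En.n l7771 (nat_lit 1483) (nat_lit 6) (nat_lit 10))
    (@En.n l3839 (nat_lit 1790) (nat_lit 8) (nat_lit 10))
    (@En.n l619 (nat_lit 1802) (nat_lit 13) (nat_lit 7))
    (@En.n l1501 (nat_lit 1191) (nat_lit 6) (nat_lit 12))
    (@En.n l11240 (nat_lit 1481) (nat_lit 4) (nat_lit 9))
    (@En.n l18 (nat_lit 1472) (nat_lit 15) (nat_lit 2))))
  (@Cl.mk (nat_lit 0x2000900050008000e000b0002000b0007000a000500080005000b000e0006) (nat_lit 0x204b80702000560) (nat_lit 16) Lb.e (@T16.mk En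
    (@En.n l12661 (nat_lit 1437) (nat_lit 6) (nat_lit 6))
    (@En.i (nat_lit 4956) (nat_lit 4) (nat_lit 14))
    (@En.n l13278 (nat_lit 1469) (nat_lit 9) (nat_lit 11))
    (@En.n l1643 (nat_lit 960) (nat_lit 3) (nat_lit 5))
    (@En.i (nat_lit 12941) (nat_lit 10) (nat_lit 8))
    (@En.n l170 (nat_lit 2627) (nat_lit 5) (nat_lit 5))
    (@En.i (nat_lit 809) (nat_lit 8) (nat_lit 10))
    (@En.n l2650 (nat_lit 5771) (nat_lit 14) (nat_lit 7))
    (@En.n l2568 (nat_lit 2621) (nat_lit 9) (nat_lit 11))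
    (@En.n l107 (nat_lit 1473) (nat_lit 9) (nat_lit 2))
    (@En.n l13079 (nat_lit 1474) (nat_lit 11) (nat_lit 11))
    (@En.n l97 (nat_lit 1623) (nat_lit 12) (nat_lit 14))
    (@En.n l387 (nat_lit 1786) (nat_lit 2) (nat_lit 8))
    (@En.n l699 (nat_lit 1475) (nat_lit 14) (nat_lit 5))
    (@En.n l12666 (nat_lit 1437) (nat_lit 4) (nat_lit 9))
    (@En.n l50 (nat_lit 1473) (nat_lit 15) (nat_lit 2))))
  (@Cl.mk (nat_lit 0x2000a00050008000b000b000a000600090005000500080006000b000e0007) (nat_lit 0x304706020010550) (nat_lit 16) Lb.e (@T16.mk En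
    (@En.i (nat_lit 1477) (nat_lit 2) (nat_lit 7))
    (@En.n l12316 (nat_lit 4958) (nat_lit 4) (nat_lit 14))
    (@En.n l13779 (nat_lit 1470) (nat_lit 2) (nat_lit 11))
    (@En.n l4839 (nat_lit 961) (nat_lit 3) (nat_lit 6))
    (@En.n l13773 (nat_lit 1473) (nat_lit 4) (nat_lit 8))
    (@En.n l8283 (nat_lit 1473) (nat_lit 5) (nat_lit 5))
    (@En.i (nat_lit 2626) (nat_lit 6) (nat_lit 5))
    (@En.n l12316 (nat_lit 822) (nat_lit 9) (nat_lit 9))
    (@En.n l9640 (nat_lit 5770) (nat_lit 8) (nat_lit 6))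
    (@En.n l2337 (nat_lit 2622) (nat_lit 10) (nat_lit 10))
    (@En.n l601 (nat_lit 1478) (nat_lit 5) (nat_lit 11))
    (@En.n l617 (nat_lit 1764) (nat_lit 7) (nat_lit 11))
    (@En.i (nat_lit 1785) (nat_lit 13) (nat_lit 8))
    (@En.n l12574 (nat_lit 1476) (nat_lit 14) (nat_lit 5))
    (@En.n l117 (nat_lit 1477) (nat_lit 0) (nat_lit 10))
    (@En.n l3 (nat_lit 1474) (nat_lit 15) (nat_lit 2))))
  (@Cl.mk (nat_lit 0x200050008000e000b0002000b000a0009000500080005000b0006000e0007) (nat_lit 0x29805620403070) (nat_lit 16) Lb.e (@T16.mk En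
    (@En.n l9716 (nat_lit 1199) (nat_lit 5) (nat_lit 7))
    (@En.n l396 (nat_lit 1473) (nat_lit 1) (nat_lit 14))
    (@En.n l28 (nat_lit 1807) (nat_lit 2) (nat_lit 6))
    (@En.n l4829 (nat_lit 1467) (nat_lit 3) (nat_lit 11))
    (@En.n l28 (nat_lit 1466) (nat_lit 4) (nat_lit 5))
    (@En.i (nat_lit 12942) (nat_lit 10) (nat_lit 8))
    (@En.n l3681 (nat_lit 8467) (nat_lit 6) (nat_lit 5))
    (@En.n l644 (nat_lit 806) (nat_lit 13) (nat_lit 9))
    (@En.n l77 (nat_lit 7746) (nat_lit 9) (nat_lit 10))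
    (@En.n l13256 (nat_lit 2473) (nat_lit 10) (nat_lit 11))
    (@En.n l107 (nat_lit 1475) (nat_lit 10) (nat_lit 2))
    (@En.i (nat_lit 1476) (nat_lit 12) (nat_lit 11))
    (@En.n l97 (nat_lit 1608) (nat_lit 13) (nat_lit 14))
    (@En.n l387 (nat_lit 1815) (nat_lit 10) (nat_lit 8))
    (@En.n l640 (nat_lit 1196) (nat_lit 13) (nat_lit 5))
    (@En.n l18 (nat_lit 1475) (nat_lit 15) (nat_lit 2))))
  (@Cl.mk (nat_lit 0x200050008000b000b000a000900080005000500080006000b0007000e0008) (nat_lit 0x27044200506060) (nat_lit 16) Lb.e (@T16.mk En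
    (@En.n l5623 (nat_lit 1508) (nat_lit 1) (nat_lit 8))
    (@En.n l5624 (nat_lit 1474) (nat_lit 1) (nat_lit 14))
    (@En.n l28 (nat_lit 1802) (nat_lit 2) (nat_lit 7))
    (@En.n l4829 (nat_lit 1468) (nat_lit 3) (nat_lit 11))
    (@En.n l28 (nat_lit 1418) (nat_lit 4) (nat_lit 6))
    (@En.n l3 (nat_lit 1475) (nat_lit 5) (nat_lit 8))
    (@En.n l527 (nat_lit 1475) (nat_lit 6) (nat_lit 5))
    (@En.n l5625 (nat_lit 8466) (nat_lit 7) (nat_lit 5))
    (@En.n l644 (nat_lit 736) (nat_lit 8) (nat_lit 8))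
    (@En.n l5626 (nat_lit 7742) (nat_lit 10) (nat_lit 9))
    (@En.n l180 (nat_lit 2469) (nat_lit 11) (nat_lit 10))
    (@En.n l5627 (nat_lit 1511) (nat_lit 12) (nat_lit 11))
    (@En.n l5628 (nat_lit 1762) (nat_lit 13) (nat_lit 11))
    (@En.n l5626 (nat_lit 1812) (nat_lit 14) (nat_lit 8))
    (@En.n l5629 (nat_lit 1198) (nat_lit 13) (nat_lit 5))
    (@En.n l18 (nat_lit 1476) (nat_lit 15) (nat_lit 2))))
  (@Cl.mk (nat_lit 0x40007000a000a00090006000900090006000600090007000c00070007000a) (nat_lit 0x66605300106002) (nat_lit 16) Lb.e (@T16.mk En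
    (@En.n l12309 (nat_lit 1432) (nat_lit 8) (nat_lit 10))
    (@En.n l12310 (nat_lit 1432) (nat_lit 9) (nat_lit 7))
    (@En.n l12311 (nat_lit 5081) (nat_lit 7) (nat_lit 7))
    (@En.n l12312 (nat_lit 1436) (nat_lit 8) (nat_lit 12))
    (@En.n l4839 (nat_lit 955) (nat_lit 9) (nat_lit 7))
    (@En.n l12313 (nat_lit 1437) (nat_lit 9) (nat_lit 9))
    (@En.n l12314 (nat_lit 1437) (nat_lit 10) (nat_lit 6))
    (@En.n l12315 (nat_lit 8428) (nat_lit 7) (nat_lit 6))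
    (@En.n l152 (nat_lit 1474) (nat_lit 7) (nat_lit 9))
    (@En.n l12316 (nat_lit 1476) (nat_lit 9) (nat_lit 9))
    (@En.n l9640 (nat_lit 5773) (nat_lit 10) (nat_lit 6))
    (@En.n l2337 (nat_lit 2613) (nat_lit 7) (nat_lit 9))
    (@En.n l12317 (nat_lit 1488) (nat_lit 6) (nat_lit 10))
    (@En.n l12318 (nat_lit 1763) (nat_lit 8) (nat_lit 10))
    (@En.n l12319 (nat_lit 1780) (nat_lit 11) (nat_lit 7))
    (@En.n l12320 (nat_lit 1508) (nat_lit 15) (nat_lit 4))))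
  (@Cl.mk (nat_lit 0x200080007000b000e00080002000b00050008000b000900050008000e0005) (nat_lit 0x205400004960220) (nat_lit 16) Lb.e (@T16.mk En
    (@En.n l7 (nat_lit 1474) (nat_lit 6) (nat_lit 5))
    (@En.n l5554 (nat_lit 12202) (nat_lit 8) (nat_lit 14))
    (@En.n l5555 (nat_lit 824) (nat_lit 10) (nat_lit 8))
    (@En.n l5556 (nat_lit 5776) (nat_lit 3) (nat_lit 5))
    (@En.i (nat_lit 2165) (nat_lit 4) (nat_lit 9))
    (@En.n l5555 (nat_lit 2430) (nat_lit 7) (nat_lit 11))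
    (@En.i (nat_lit 1809) (nat_lit 6) (nat_lit 8))
    (@En.n l5557 (nat_lit 1511) (nat_lit 14) (nat_lit 5))
    (@En.n l3840 (nat_lit 1488) (nat_lit 9) (nat_lit 11))
    (@En.n l3 (nat_lit 1478) (nat_lit 9) (nat_lit 2))
    (@En.n l5558 (nat_lit 1488) (nat_lit 11) (nat_lit 8))
    (@En.n l5559 (nat_lit 4961) (nat_lit 12) (nat_lit 14))
    (@En.n l5549 (nat_lit 1479) (nat_lit 13) (nat_lit 11))
    (@En.n l5560 (nat_lit 1524) (nat_lit 14) (nat_lit 7))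
    (@En.n l252 (nat_lit 1474) (nat_lit 4) (nat_lit 8))
    (@En.n l50 (nat_lit 1478) (nat_lit 15) (nat_lit 2))))
  (@Cl.mk (nat_lit 0x20008000b000e00070002000a0005000d0008000b000300060009000e0005) (nat_lit 0x243002085800260) (nat_lit 16) Lb.e (@T16.mk En
    (@En.n l2869 (nat_lit 1470) (nat_lit 5) (nat_lit 5))
    (@En.n l2036 (nat_lit 12200) (nat_lit 7) (nat_lit 14))
    (@En.n l2031 (nat_lit 788) (nat_lit 9) (nat_lit 9))
    (@En.n l2036 (nat_lit 6029) (nat_lit 3) (nat_lit 6))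
    (@En.n l613 (nat_lit 1524) (nat_lit 4) (nat_lit 3))
    (@En.n l1998 (nat_lit 1791) (nat_lit 0) (nat_lit 11))
    (@En.n l13772 (nat_lit 1478) (nat_lit 6) (nat_lit 8))
    (@En.n l12494 (nat_lit 1483) (nat_lit 8) (nat_lit 13))
    (@En.n l5589 (nat_lit 1522) (nat_lit 14) (nat_lit 5))
    (@En.n l1758 (nat_lit 1485) (nat_lit 10) (nat_lit 10))
    (@En.n l3 (nat_lit 1479) (nat_lit 10) (nat_lit 2))
    (@En.n l4871 (nat_lit 1485) (nat_lit 12) (nat_lit 7))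
    (@En.n l1998 (nat_lit 4948) (nat_lit 13) (nat_lit 14))
    (@En.i (nat_lit 1285) (nat_lit 2) (nat_lit 11))
    (@En.n l3337 (nat_lit 1470) (nat_lit 3) (nat_lit 8))
    (@En.n l17 (nat_lit 1479) (nat_lit 15) (nat_lit 2))))
  (@Cl.mk (nat_lit 0x20005000a0008000b000b0007000a0006000500050008000b0006000e0009) (nat_lit 0x81840600015077) (nat_lit 16) Lb.e (@T16.mk En
    (@En.i (nat_lit 1481) (nat_lit 1) (nat_lit 9))
    (@En.n l26090 (nat_lit 952) (nat_lit 1) (nat_lit 14))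
    (@En.n l21938 (nat_lit 1779) (nat_lit 2) (nat_lit 6))
    (@En.i (nat_lit 1187) (nat_lit 3) (nat_lit 11))
    (@En.n l26091 (nat_lit 1433) (nat_lit 4) (nat_lit 8))
    (@En.n l26092 (nat_lit 1433) (nat_lit 5) (nat_lit 5))
    (@En.i (nat_lit 1036) (nat_lit 6) (nat_lit 5))
    (@En.n l4946 (nat_lit 5458) (nat_lit 7) (nat_lit 6))
    (@En.i (nat_lit 12945) (nat_lit 8) (nat_lit 10))
    (@En.n l26093 (nat_lit 8392) (nat_lit 10) (nat_lit 7))
    (@En.n l7901 (nat_lit 1471) (nat_lit 11) (nat_lit 11))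
    (@En.n l4943 (nat_lit 1553) (nat_lit 12) (nat_lit 11))
    (@En.n l4948 (nat_lit 1435) (nat_lit 13) (nat_lit 8))
    (@En.n l26094 (nat_lit 1437) (nat_lit 14) (nat_lit 10))
    (@En.n l4943 (nat_lit 429) (nat_lit 13) (nat_lit 5))
    (@En.n l17 (nat_lit 1480) (nat_lit 15) (nat_lit 2))))
  (@Cl.mk (nat_lit 0x400090007000a000a00070007000a0007000600060009000c000600090009) (nat_lit 0x707400700017066) (nat_lit 16) Lb.e (@T16.mk En
    (@En.n l21936 (nat_lit 1482) (nat_lit 7) (nat_lit 9))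
    (@En.n l21937 (nat_lit 1487) (nat_lit 9) (nat_lit 9))
    (@En.n l21938 (nat_lit 1490) (nat_lit 4) (nat_lit 6))
    (@En.i (nat_lit 1188) (nat_lit 6) (nat_lit 12))
    (@En.n l21939 (nat_lit 1434) (nat_lit 9) (nat_lit 9))
    (@En.n l21940 (nat_lit 1434) (nat_lit 10) (nat_lit 6))
    (@En.i (nat_lit 1043) (nat_lit 10) (nat_lit 6))
    (@En.n l21941 (nat_lit 5460) (nat_lit 7) (nat_lit 7))
    (@En.n l18 (nat_lit 1480) (nat_lit 8) (nat_lit 10))
    (@En.n l61 (nat_lit 1480) (nat_lit 9) (nat_lit 7))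
    (@En.n l3724 (nat_lit 8394) (nat_lit 9) (nat_lit 7))
    (@En.n l7901 (nat_lit 1472) (nat_lit 6) (nat_lit 10))
    (@En.n l4943 (nat_lit 1531) (nat_lit 8) (nat_lit 10))
    (@En.n l4948 (nat_lit 1436) (nat_lit 14) (nat_lit 7))
    (@En.n l21942 (nat_lit 1477) (nat_lit 11) (nat_lit 9))
    (@En.n l10130 (nat_lit 1494) (nat_lit 15) (nat_lit 4))))
  (@Cl.mk (nat_lit 0x2000a000800070007000a000d0006000900030008000600090009000e0007) (nat_lit 0x840008050600470) (nat_lit 16) Lb.e (@T16.mk En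
    (@En.n l11207 (nat_lit 1481) (nat_lit 10) (nat_lit 7))
    (@En.n l11208 (nat_lit 12171) (nat_lit 1) (nat_lit 14))
    (@En.n l217 (nat_lit 1483) (nat_lit 2) (nat_lit 9))
    (@En.i (nat_lit 1528) (nat_lit 3) (nat_lit 9))
    (@En.n l11209 (nat_lit 1485) (nat_lit 4) (nat_lit 6))
    (@En.n l11210 (nat_lit 1488) (nat_lit 5) (nat_lit 8))
    (@En.n l11211 (nat_lit 1486) (nat_lit 6) (nat_lit 3))
    (@En.i (nat_lit 1799) (nat_lit 0) (nat_lit 9))
    (@En.n l5607 (nat_lit 1489) (nat_lit 8) (nat_lit 6))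
    (@En.n l11212 (nat_lit 1648) (nat_lit 5) (nat_lit 13))
    (@En.n l11213 (nat_lit 1484) (nat_lit 11) (nat_lit 10))
    (@En.n l11214 (nat_lit 1484) (nat_lit 12) (nat_lit 7))
    (@En.n l11212 (nat_lit 1180) (nat_lit 13) (nat_lit 7))
    (@En.n l1266 (nat_lit 7823) (nat_lit 14) (nat_lit 8))
    (@En.n l11215 (nat_lit 1481) (nat_lit 8) (nat_lit 10))
    (@En.n l11 (nat_lit 1482) (nat_lit 15) (nat_lit 2))))
  (@Cl.mk (nat_lit 0x200090007000e00070002000a000d0007000a0003000900060009000e0006) (nat_lit 0x703001707070360) (nat_lit 16) Lb.e (@T16.mk En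
    (@En.n l5152 (nat_lit 1472) (nat_lit 5) (nat_lit 6))
    (@En.n l6146 (nat_lit 5956) (nat_lit 7) (nat_lit 14))
    (@En.i (nat_lit 2296) (nat_lit 2) (nat_lit 9))
    (@En.n l11680 (nat_lit 1479) (nat_lit 3) (nat_lit 6))
    (@En.n l5603 (nat_lit 1478) (nat_lit 4) (nat_lit 9))
    (@En.n l2576 (nat_lit 1526) (nat_lit 5) (nat_lit 3))
    (@En.i (nat_lit 1795) (nat_lit 0) (nat_lit 10))
    (@En.i (nat_lit 1491) (nat_lit 7) (nat_lit 7))
    (@En.i (nat_lit 1650) (nat_lit 5) (nat_lit 13))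
    (@En.n l1738 (nat_lit 1482) (nat_lit 10) (nat_lit 10))
    (@En.n l18 (nat_lit 1483) (nat_lit 10) (nat_lit 2))
    (@En.i (nat_lit 1482) (nat_lit 12) (nat_lit 7))
    (@En.n l564 (nat_lit 4950) (nat_lit 13) (nat_lit 14))
    (@En.n l6146 (nat_lit 7824) (nat_lit 14) (nat_lit 7))
    (@En.n l5154 (nat_lit 1472) (nat_lit 3) (nat_lit 9))
    (@En.n l11 (nat_lit 1483) (nat_lit 15) (nat_lit 2))))
  (@Cl.mk (nat_lit 0x2000b00090007000a000d00050008000300070006000e00090002000e0008) (nat_lit 0x240870400001081) (nat_lit 16) Lb.e (@T16.mk En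
    (@En.i (nat_lit 1434) (nat_lit 14) (nat_lit 8))
    (@En.n l1531 (nat_lit 12166) (nat_lit 1) (nat_lit 14))
    (@En.n l3 (nat_lit 1484) (nat_lit 2) (nat_lit 2))
    (@En.n l4063 (nat_lit 1482) (nat_lit 3) (nat_lit 9))
    (@En.n l4064 (nat_lit 1578) (nat_lit 1) (nat_lit 14))
    (@En.n l28 (nat_lit 1395) (nat_lit 5) (nat_lit 6))
    (@En.n l77 (nat_lit 1774) (nat_lit 6) (nat_lit 7))
    (@En.n l4065 (nat_lit 1541) (nat_lit 7) (nat_lit 3))
    (@En.n l4066 (nat_lit 2166) (nat_lit 0) (nat_lit 8))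
    (@En.n l4067 (nat_lit 1775) (nat_lit 9) (nat_lit 5))
    (@En.n l4068 (nat_lit 1635) (nat_lit 11) (nat_lit 13))
    (@En.n l3330 (nat_lit 12896) (nat_lit 8) (nat_lit 10))
    (@En.n l4068 (nat_lit 1183) (nat_lit 13) (nat_lit 7))
    (@En.n l4069 (nat_lit 7832) (nat_lit 14) (nat_lit 9))
    (@En.n l617 (nat_lit 1434) (nat_lit 12) (nat_lit 11))
    (@En.n l17 (nat_lit 1484) (nat_lit 15) (nat_lit 2))))
  (@Cl.mk (nat_lit 0x20009000c00070007000a0004000d0007000a0003000600090009000e0006) (nat_lit 0x240010907005370) (nat_lit 16) Lb.e (@T16.mk En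
    (@En.n l12306 (nat_lit 1436) (nat_lit 11) (nat_lit 6))
    (@En.i (nat_lit 12172) (nat_lit 1) (nat_lit 14))
    (@En.n l1904 (nat_lit 1479) (nat_lit 2) (nat_lit 9))
    (@En.n l226 (nat_lit 1522) (nat_lit 9) (nat_lit 9))
    (@En.i (nat_lit 6027) (nat_lit 12) (nat_lit 6))
    (@En.i (nat_lit 1525) (nat_lit 5) (nat_lit 3))
    (@En.n l636 (nat_lit 1794) (nat_lit 0) (nat_lit 10))
    (@En.i (nat_lit 1488) (nat_lit 7) (nat_lit 7))
    (@En.n l12307 (nat_lit 1482) (nat_lit 9) (nat_lit 13))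
    (@En.n l1898 (nat_lit 1394) (nat_lit 9) (nat_lit 4))
    (@En.n l1899 (nat_lit 1395) (nat_lit 11) (nat_lit 10))
    (@En.n l1900 (nat_lit 1395) (nat_lit 12) (nat_lit 7))
    (@En.n l5390 (nat_lit 1179) (nat_lit 13) (nat_lit 7))
    (@En.i (nat_lit 1235) (nat_lit 6) (nat_lit 12))
    (@En.n l12308 (nat_lit 1436) (nat_lit 9) (nat_lit 9))
    (@En.n l17 (nat_lit 1485) (nat_lit 15) (nat_lit 2))))
  (@Cl.mk (nat_lit 0x20009000800070007000a000d0008000700030008000600090009000e0008) (nat_lit 0x340007500500451) (nat_lit 16) Lb.e (@T16.mk En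
    (@En.n l16373 (nat_lit 950) (nat_lit 10) (nat_lit 8))
    (@En.n l532 (nat_lit 12168) (nat_lit 1) (nat_lit 14))
    (@En.n l15503 (nat_lit 1526) (nat_lit 2) (nat_lit 9))
    (@En.n l15499 (nat_lit 1527) (nat_lit 3) (nat_lit 9))
    (@En.n l16374 (nat_lit 1525) (nat_lit 4) (nat_lit 6))
    (@En.n l16375 (nat_lit 1681) (nat_lit 5) (nat_lit 8))
    (@En.n l16376 (nat_lit 1482) (nat_lit 6) (nat_lit 3))
    (@En.i (nat_lit 2156) (nat_lit 0) (nat_lit 7))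
    (@En.n l16377 (nat_lit 2840) (nat_lit 9) (nat_lit 8))
    (@En.i (nat_lit 1649) (nat_lit 5) (nat_lit 13))
    (@En.n l16378 (nat_lit 1541) (nat_lit 11) (nat_lit 10))
    (@En.n l16379 (nat_lit 1541) (nat_lit 12) (nat_lit 7))
    (@En.i (nat_lit 1545) (nat_lit 13) (nat_lit 7))
    (@En.n l15188 (nat_lit 7828) (nat_lit 14) (nat_lit 8))
    (@En.n l16380 (nat_lit 1494) (nat_lit 8) (nat_lit 9))
    (@En.n l7 (nat_lit 1486) (nat_lit 15) (nat_lit 2))))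
  (@Cl.mk (nat_lit 0x2000800070007000a000d00090008000300080006000900090007000e0008) (nat_lit 0x400055603004081) (nat_lit 16) Lb.e (@T16.mk En
    (@En.n l7868 (nat_lit 950) (nat_lit 9) (nat_lit 8))
    (@En.n l1578 (nat_lit 1482) (nat_lit 1) (nat_lit 14))
    (@En.n l10848 (nat_lit 8992) (nat_lit 2) (nat_lit 7))
    (@En.n l217 (nat_lit 1790) (nat_lit 3) (nat_lit 9))
    (@En.i (nat_lit 1535) (nat_lit 4) (nat_lit 9))
    (@En.n l420 (nat_lit 1724) (nat_lit 5) (nat_lit 6))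
    (@En.n l771 (nat_lit 1763) (nat_lit 6) (nat_lit 8))
    (@En.n l9319 (nat_lit 1497) (nat_lit 7) (nat_lit 3))
    (@En.n l12457 (nat_lit 1800) (nat_lit 0) (nat_lit 8))
    (@En.i (nat_lit 1985) (nat_lit 10) (nat_lit 9))
    (@En.n l12457 (nat_lit 1633) (nat_lit 11) (nat_lit 13))
    (@En.n l24809 (nat_lit 1727) (nat_lit 8) (nat_lit 10))
    (@En.n l24810 (nat_lit 1727) (nat_lit 9) (nat_lit 7))
    (@En.n l12457 (nat_lit 1093) (nat_lit 14) (nat_lit 7))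
    (@En.n l10849 (nat_lit 1310) (nat_lit 6) (nat_lit 8))
    (@En.n l28 (nat_lit 1487) (nat_lit 15) (nat_lit 2))))
noncomputable def a93 : T16 Cl := @T16.mk Cl
  (@Cl.mk (nat_lit 0x200090008000c00080008000b00040007000a0008000500080008000e0006) (nat_lit 0x245609005504330) (nat_lit 16) Lb.e (@T16.mk En
    (@En.n l4675 (nat_lit 1477) (nat_lit 7) (nat_lit 6))
    (@En.i (nat_lit 10041) (nat_lit 1) (nat_lit 14))
    (@En.n l4676 (nat_lit 1478) (nat_lit 2) (nat_lit 8))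
    (@En.n l4677 (nat_lit 1511) (nat_lit 10) (nat_lit 8))
    (@En.n l4678 (nat_lit 5775) (nat_lit 4) (nat_lit 5))
    (@En.n l4679 (nat_lit 2162) (nat_lit 5) (nat_lit 8))
    (@En.n l4680 (nat_lit 2422) (nat_lit 8) (nat_lit 10))
    (@En.n l4681 (nat_lit 1784) (nat_lit 11) (nat_lit 7))
    (@En.n l4682 (nat_lit 1509) (nat_lit 8) (nat_lit 4))
    (@En.n l1899 (nat_lit 1774) (nat_lit 10) (nat_lit 11))
    (@En.n l1900 (nat_lit 1774) (nat_lit 11) (nat_lit 8))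
    (@En.n l4679 (nat_lit 5086) (nat_lit 12) (nat_lit 8))
    (@En.n l7 (nat_lit 1485) (nat_lit 13) (nat_lit 12))
    (@En.n l644 (nat_lit 1525) (nat_lit 14) (nat_lit 8))
    (@En.n l4683 (nat_lit 1477) (nat_lit 5) (nat_lit 9))
    (@En.n l17 (nat_lit 1488) (nat_lit 15) (nat_lit 2))))
  (@Cl.mk (nat_lit 0x2000a0009000900080008000b0006000900070007000500080008000e0007) (nat_lit 0x45000040003400) (nat_lit 16) Lb.e (@T16.mk En
    (@En.n l12249 (nat_lit 1490) (nat_lit 12) (nat_lit 7))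
    (@En.n l12250 (nat_lit 10038) (nat_lit 1) (nat_lit 14))
    (@En.n l12251 (nat_lit 1491) (nat_lit 2) (nat_lit 8))
    (@En.n l4968 (nat_lit 1656) (nat_lit 10) (nat_lit 8))
    (@En.n l12250 (nat_lit 1488) (nat_lit 4) (nat_lit 5))
    (@En.n l5115 (nat_lit 1784) (nat_lit 9) (nat_lit 7))
    (@En.n l12252 (nat_lit 2160) (nat_lit 6) (nat_lit 7))
    (@En.i (nat_lit 2431) (nat_lit 9) (nat_lit 9))
    (@En.n l4411 (nat_lit 1802) (nat_lit 8) (nat_lit 6))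
    (@En.n l12253 (nat_lit 1775) (nat_lit 10) (nat_lit 11))
    (@En.n l550 (nat_lit 1775) (nat_lit 11) (nat_lit 8))
    (@En.n l12252 (nat_lit 5088) (nat_lit 12) (nat_lit 8))
    (@En.n l12254 (nat_lit 1492) (nat_lit 7) (nat_lit 9))
    (@En.n l12243 (nat_lit 1486) (nat_lit 14) (nat_lit 9))
    (@En.n l12255 (nat_lit 1490) (nat_lit 10) (nat_lit 10))
    (@En.n l18 (nat_lit 1489) (nat_lit 15) (nat_lit 2))))
  (@Cl.mk (nat_lit 0x60009000900070007000a0008000800070007000a00060009000900080008) (nat_lit 0x340083400004504) (nat_lit 16) Lb.e (@T16.mk En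
    (@En.n l13158 (nat_lit 1780) (nat_lit 8) (nat_lit 8))
    (@En.n l25947 (nat_lit 2844) (nat_lit 8) (nat_lit 8))
    (@En.n l25948 (nat_lit 1489) (nat_lit 7) (nat_lit 9))
    (@En.n l25949 (nat_lit 1657) (nat_lit 9) (nat_lit 9))
    (@En.n l13162 (nat_lit 1490) (nat_lit 15) (nat_lit 6))
    (@En.n l25950 (nat_lit 1776) (nat_lit 8) (nat_lit 10))
    (@En.n l25951 (nat_lit 1776) (nat_lit 9) (nat_lit 7))
    (@En.n l25947 (nat_lit 5084) (nat_lit 9) (nat_lit 7))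
    (@En.n l13156 (nat_lit 1493) (nat_lit 8) (nat_lit 8))
    (@En.i (nat_lit 950) (nat_lit 8) (nat_lit 8))
    (@En.n l3 (nat_lit 1779) (nat_lit 8) (nat_lit 10))
    (@En.n l527 (nat_lit 1779) (nat_lit 9) (nat_lit 7))
    (@En.n l690 (nat_lit 8825) (nat_lit 9) (nat_lit 7))
    (@En.n l2337 (nat_lit 1802) (nat_lit 7) (nat_lit 9))
    (@En.i (nat_lit 1658) (nat_lit 9) (nat_lit 9))
    (@En.n l25952 (nat_lit 1477) (nat_lit 10) (nat_lit 6))))
  (@Cl.mk (nat_lit 0x2000900080008000e00080002000b0007000a0008000800050008000e0006) (nat_lit 0x45410105040300) (nat_lit 16) Lb.e (@T16.mk En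
    (@En.n l5600 (nat_lit 1802) (nat_lit 6) (nat_lit 6))
    (@En.n l5601 (nat_lit 9122) (nat_lit 8) (nat_lit 14))
    (@En.i (nat_lit 1969) (nat_lit 2) (nat_lit 8))
    (@En.n l5602 (nat_lit 1478) (nat_lit 3) (nat_lit 5))
    (@En.n l5603 (nat_lit 1809) (nat_lit 4) (nat_lit 8))
    (@En.n l5604 (nat_lit 2163) (nat_lit 5) (nat_lit 8))
    (@En.n l2038 (nat_lit 2447) (nat_lit 8) (nat_lit 10))
    (@En.n l5605 (nat_lit 1803) (nat_lit 14) (nat_lit 7))
    (@En.n l5606 (nat_lit 1489) (nat_lit 9) (nat_lit 11))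
    (@En.n l18 (nat_lit 1491) (nat_lit 9) (nat_lit 2))
    (@En.n l5607 (nat_lit 1489) (nat_lit 11) (nat_lit 8))
    (@En.n l5601 (nat_lit 4965) (nat_lit 12) (nat_lit 14))
    (@En.n l476 (nat_lit 1804) (nat_lit 8) (nat_lit 8))
    (@En.n l1769 (nat_lit 1526) (nat_lit 14) (nat_lit 8))
    (@En.n l5608 (nat_lit 1802) (nat_lit 4) (nat_lit 9))
    (@En.n l11 (nat_lit 1491) (nat_lit 15) (nat_lit 2))))
  (@Cl.mk (nat_lit 0x2000600090009000e00080002000b000900070007000a00050008000e0007) (nat_lit 0x454009400004b0) (nat_lit 16) Lb.e (@T16.mk En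
    (@En.n l9685 (nat_lit 1489) (nat_lit 6) (nat_lit 7))
    (@En.i (nat_lit 5066) (nat_lit 1) (nat_lit 14))
    (@En.n l9686 (nat_lit 2128) (nat_lit 2) (nat_lit 8))
    (@En.n l9687 (nat_lit 1491) (nat_lit 3) (nat_lit 5))
    (@En.n l9688 (nat_lit 1810) (nat_lit 4) (nat_lit 10))
    (@En.n l9689 (nat_lit 1810) (nat_lit 5) (nat_lit 7))
    (@En.n l9690 (nat_lit 6759) (nat_lit 6) (nat_lit 7))
    (@En.n l9691 (nat_lit 7827) (nat_lit 14) (nat_lit 9))
    (@En.n l9692 (nat_lit 1493) (nat_lit 9) (nat_lit 11))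
    (@En.n l17 (nat_lit 1492) (nat_lit 9) (nat_lit 2))
    (@En.n l9693 (nat_lit 1493) (nat_lit 11) (nat_lit 8))
    (@En.i (nat_lit 10092) (nat_lit 12) (nat_lit 14))
    (@En.n l9694 (nat_lit 1804) (nat_lit 13) (nat_lit 9))
    (@En.n l5374 (nat_lit 1661) (nat_lit 9) (nat_lit 9))
    (@En.n l9695 (nat_lit 1482) (nat_lit 4) (nat_lit 6))
    (@En.n l7 (nat_lit 1492) (nat_lit 15) (nat_lit 2))))
  (@Cl.mk (nat_lit 0x20007000a000a00080008000b0008000600060009000500080008000e0008) (nat_lit 0x456083000045c1) (nat_lit 16) Lb.e (@T16.mk En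
    (@En.n l10194 (nat_lit 1490) (nat_lit 1) (nat_lit 8))
    (@En.n l19221 (nat_lit 5063) (nat_lit 1) (nat_lit 14))
    (@En.n l19222 (nat_lit 1492) (nat_lit 2) (nat_lit 8))
    (@En.n l19223 (nat_lit 1654) (nat_lit 3) (nat_lit 8))
    (@En.n l16377 (nat_lit 1489) (nat_lit 4) (nat_lit 5))
    (@En.n l19224 (nat_lit 1808) (nat_lit 5) (nat_lit 9))
    (@En.n l19225 (nat_lit 1808) (nat_lit 6) (nat_lit 6))
    (@En.i (nat_lit 6348) (nat_lit 7) (nat_lit 6))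
    (@En.n l19226 (nat_lit 5189) (nat_lit 9) (nat_lit 8))
    (@En.n l9361 (nat_lit 1806) (nat_lit 10) (nat_lit 11))
    (@En.n l9362 (nat_lit 1806) (nat_lit 11) (nat_lit 8))
    (@En.i (nat_lit 9263) (nat_lit 12) (nat_lit 8))
    (@En.n l19227 (nat_lit 1803) (nat_lit 13) (nat_lit 10))
    (@En.i (nat_lit 1956) (nat_lit 8) (nat_lit 10))
    (@En.n l1803 (nat_lit 1481) (nat_lit 13) (nat_lit 7))
    (@En.n l7 (nat_lit 1493) (nat_lit 15) (nat_lit 2))))
  (@Cl.mk (nat_lit 0x400090007000a000a0006000900090007000600060009000c00070007000a) (nat_lit 0x407401200017008) (nat_lit 16) Lb.e (@T16.mk En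
    (@En.n l31350 (nat_lit 1497) (nat_lit 8) (nat_lit 10))
    (@En.n l31351 (nat_lit 1497) (nat_lit 9) (nat_lit 7))
    (@En.n l97 (nat_lit 2842) (nat_lit 7) (nat_lit 7))
    (@En.n l12314 (nat_lit 1621) (nat_lit 6) (nat_lit 12))
    (@En.n l31352 (nat_lit 428) (nat_lit 9) (nat_lit 9))
    (@En.n l31353 (nat_lit 428) (nat_lit 10) (nat_lit 6))
    (@En.n l12314 (nat_lit 1301) (nat_lit 10) (nat_lit 6))
    (@En.n l31354 (nat_lit 1311) (nat_lit 9) (nat_lit 7))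
    (@En.n l152 (nat_lit 429) (nat_lit 7) (nat_lit 9))
    (@En.n l8283 (nat_lit 949) (nat_lit 9) (nat_lit 9))
    (@En.n l31355 (nat_lit 6555) (nat_lit 11) (nat_lit 6))
    (@En.n l31356 (nat_lit 1499) (nat_lit 6) (nat_lit 10))
    (@En.i (nat_lit 1506) (nat_lit 8) (nat_lit 10))
    (@En.n l31357 (nat_lit 426) (nat_lit 14) (nat_lit 7))
    (@En.n l31358 (nat_lit 1708) (nat_lit 11) (nat_lit 9))
    (@En.n l7420 (nat_lit 950) (nat_lit 15) (nat_lit 4))))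
  (@Cl.mk (nat_lit 0x20007000e000a000200090007000a000d00060009000300070006000e0009) (nat_lit 0x71040070600000) (nat_lit 16) Lb.e (@T16.mk En
    (@En.n l3486 (nat_lit 1497) (nat_lit 4) (nat_lit 9))
    (@En.n l3212 (nat_lit 1573) (nat_lit 1) (nat_lit 14))
    (@En.n l890 (nat_lit 1504) (nat_lit 2) (nat_lit 6))
    (@En.n l4582 (nat_lit 1713) (nat_lit 3) (nat_lit 7))
    (@En.n l4273 (nat_lit 1727) (nat_lit 4) (nat_lit 3))
    (@En.n l3486 (nat_lit 12917) (nat_lit 9) (nat_lit 9))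
    (@En.n l4582 (nat_lit 2887) (nat_lit 6) (nat_lit 6))
    (@En.n l3486 (nat_lit 1627) (nat_lit 8) (nat_lit 13))
    (@En.i (nat_lit 12882) (nat_lit 8) (nat_lit 10))
    (@En.n l3486 (nat_lit 372) (nat_lit 14) (nat_lit 7))
    (@En.i (nat_lit 1307) (nat_lit 11) (nat_lit 9))
    (@En.n l3 (nat_lit 1495) (nat_lit 11) (nat_lit 2))
    (@En.n l10244 (nat_lit 428) (nat_lit 13) (nat_lit 10))
    (@En.i (nat_lit 1541) (nat_lit 1) (nat_lit 14))
    (@En.n l23556 (nat_lit 6561) (nat_lit 2) (nat_lit 7))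
    (@En.n l18 (nat_lit 1495) (nat_lit 15) (nat_lit 2))))
  (@Cl.mk (nat_lit 0x20007000e00070002000a000d0008000b00030009000600090005000e0008) (nat_lit 0x80028000303050) (nat_lit 16) Lb.e (@T16.mk En
    (@En.n l1177 (nat_lit 1499) (nat_lit 4) (nat_lit 8))
    (@En.n l2400 (nat_lit 1526) (nat_lit 1) (nat_lit 14))
    (@En.n l9315 (nat_lit 6934) (nat_lit 2) (nat_lit 5))
    (@En.i (nat_lit 2367) (nat_lit 3) (nat_lit 9))
    (@En.n l420 (nat_lit 1501) (nat_lit 8) (nat_lit 6))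
    (@En.n l9315 (nat_lit 1712) (nat_lit 5) (nat_lit 9))
    (@En.n l3 (nat_lit 1790) (nat_lit 6) (nat_lit 3))
    (@En.n l9316 (nat_lit 12914) (nat_lit 7) (nat_lit 11))
    (@En.n l9315 (nat_lit 2843) (nat_lit 13) (nat_lit 8))
    (@En.n l9317 (nat_lit 1872) (nat_lit 10) (nat_lit 13))
    (@En.n l9318 (nat_lit 1497) (nat_lit 11) (nat_lit 10))
    (@En.n l18 (nat_lit 1496) (nat_lit 11) (nat_lit 2))
    (@En.n l9319 (nat_lit 1497) (nat_lit 13) (nat_lit 7))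
    (@En.n l564 (nat_lit 1874) (nat_lit 1) (nat_lit 14))
    (@En.n l3911 (nat_lit 1309) (nat_lit 2) (nat_lit 7))
    (@En.n l28 (nat_lit 1496) (nat_lit 15) (nat_lit 2))))
  (@Cl.mk (nat_lit 0x2000800070007000a000d0007000a000300080006000900090006000e0009) (nat_lit 0x400160703074062) (nat_lit 16) Lb.e (@T16.mk En
    (@En.n l20577 (nat_lit 1494) (nat_lit 9) (nat_lit 9))
    (@En.n l601 (nat_lit 1486) (nat_lit 1) (nat_lit 14))
    (@En.n l4780 (nat_lit 6558) (nat_lit 2) (nat_lit 6))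
    (@En.n l20578 (nat_lit 1496) (nat_lit 3) (nat_lit 9))
    (@En.n l20579 (nat_lit 1505) (nat_lit 4) (nat_lit 9))
    (@En.n l3651 (nat_lit 1498) (nat_lit 5) (nat_lit 6))
    (@En.n l5103 (nat_lit 1711) (nat_lit 6) (nat_lit 8))
    (@En.n l20580 (nat_lit 1487) (nat_lit 7) (nat_lit 3))
    (@En.i (nat_lit 12913) (nat_lit 8) (nat_lit 10))
    (@En.n l3098 (nat_lit 2844) (nat_lit 10) (nat_lit 7))
    (@En.i (nat_lit 1622) (nat_lit 11) (nat_lit 13))
    (@En.n l20581 (nat_lit 1495) (nat_lit 8) (nat_lit 10))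
    (@En.n l20582 (nat_lit 1495) (nat_lit 9) (nat_lit 7))
    (@En.i (nat_lit 1305) (nat_lit 14) (nat_lit 7))
    (@En.n l2436 (nat_lit 1306) (nat_lit 6) (nat_lit 8))
    (@En.n l50 (nat_lit 1497) (nat_lit 15) (nat_lit 2))))
  (@Cl.mk (nat_lit 0x2000c00070007000a0004000d0008000b00030006000900090005000e0008) (nat_lit 0x400007680065081) (nat_lit 16) Lb.e (@T16.mk En
    (@En.n l1532 (nat_lit 426) (nat_lit 10) (nat_lit 8))
    (@En.n l20758 (nat_lit 1525) (nat_lit 1) (nat_lit 14))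
    (@En.i (nat_lit 6644) (nat_lit 2) (nat_lit 5))
    (@En.n l20759 (nat_lit 1501) (nat_lit 7) (nat_lit 9))
    (@En.n l20760 (nat_lit 1502) (nat_lit 9) (nat_lit 9))
    (@En.n l3546 (nat_lit 4951) (nat_lit 12) (nat_lit 6))
    (@En.n l10270 (nat_lit 1724) (nat_lit 6) (nat_lit 3))
    (@En.n l18627 (nat_lit 13098) (nat_lit 7) (nat_lit 11))
    (@En.n l20761 (nat_lit 2613) (nat_lit 9) (nat_lit 8))
    (@En.n l2362 (nat_lit 1497) (nat_lit 10) (nat_lit 13))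
    (@En.n l5834 (nat_lit 1413) (nat_lit 10) (nat_lit 4))
    (@En.n l7 (nat_lit 1504) (nat_lit 8) (nat_lit 10))
    (@En.n l644 (nat_lit 1504) (nat_lit 9) (nat_lit 7))
    (@En.n l723 (nat_lit 1304) (nat_lit 14) (nat_lit 7))
    (@En.n l1531 (nat_lit 371) (nat_lit 8) (nat_lit 12))
    (@En.n l3 (nat_lit 1498) (nat_lit 15) (nat_lit 2))))
  (@Cl.mk (nat_lit 0x20009000c00080008000b0004000a0007000a0005000800080006000e0006) (nat_lit 0x250110203062060) (nat_lit 16) Lb.e (@T16.mk En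
    (@En.n l3834 (nat_lit 1494) (nat_lit 6) (nat_lit 6))
    (@En.n l564 (nat_lit 1876) (nat_lit 1) (nat_lit 14))
    (@En.n l10348 (nat_lit 5471) (nat_lit 2) (nat_lit 6))
    (@En.n l107 (nat_lit 1503) (nat_lit 3) (nat_lit 8))
    (@En.n l7163 (nat_lit 1666) (nat_lit 10) (nat_lit 8))
    (@En.n l8528 (nat_lit 6927) (nat_lit 5) (nat_lit 5))
    (@En.i (nat_lit 2304) (nat_lit 8) (nat_lit 10))
    (@En.n l21718 (nat_lit 1500) (nat_lit 7) (nat_lit 7))
    (@En.n l21719 (nat_lit 1710) (nat_lit 9) (nat_lit 10))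
    (@En.n l7164 (nat_lit 954) (nat_lit 9) (nat_lit 4))
    (@En.n l3839 (nat_lit 1496) (nat_lit 7) (nat_lit 11))
    (@En.n l2535 (nat_lit 1496) (nat_lit 8) (nat_lit 8))
    (@En.i (nat_lit 2841) (nat_lit 13) (nat_lit 8))
    (@En.n l21720 (nat_lit 1507) (nat_lit 6) (nat_lit 12))
    (@En.n l6345 (nat_lit 1494) (nat_lit 4) (nat_lit 9))
    (@En.n l18 (nat_lit 1499) (nat_lit 15) (nat_lit 2))))
  (@Cl.mk (nat_lit 0x200090005000c00090009000c00040007000a000400070007000b000e0006) (nat_lit 0x206000008000360) (nat_lit 16) Lb.e (@T16.mk En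
    (@En.n l7910 (nat_lit 426) (nat_lit 7) (nat_lit 6))
    (@En.n l5320 (nat_lit 1879) (nat_lit 4) (nat_lit 14))
    (@En.i (nat_lit 909) (nat_lit 2) (nat_lit 11))
    (@En.n l4662 (nat_lit 1664) (nat_lit 3) (nat_lit 7))
    (@En.n l17491 (nat_lit 1663) (nat_lit 11) (nat_lit 7))
    (@En.n l21018 (nat_lit 6930) (nat_lit 5) (nat_lit 4))
    (@En.i (nat_lit 583) (nat_lit 8) (nat_lit 10))
    (@En.n l1897 (nat_lit 4950) (nat_lit 7) (nat_lit 7))
    (@En.n l7718 (nat_lit 961) (nat_lit 8) (nat_lit 4))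
    (@En.n l7384 (nat_lit 1501) (nat_lit 10) (nat_lit 12))
    (@En.n l7385 (nat_lit 1501) (nat_lit 11) (nat_lit 9))
    (@En.n l7386 (nat_lit 2621) (nat_lit 12) (nat_lit 9))
    (@En.n l17616 (nat_lit 1499) (nat_lit 13) (nat_lit 12))
    (@En.n l699 (nat_lit 1422) (nat_lit 14) (nat_lit 5))
    (@En.n l2179 (nat_lit 426) (nat_lit 5) (nat_lit 9))
    (@En.n l50 (nat_lit 1500) (nat_lit 15) (nat_lit 2))))
  (@Cl.mk (nat_lit 0x2000a0005000d0009000c0003000600090004000e00070002000b000e0007) (nat_lit 0x1097a0040700470) (nat_lit 16) Lb.e (@T16.mk En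
    (@En.n l8857 (nat_lit 1498) (nat_lit 13) (nat_lit 7))
    (@En.i (nat_lit 5008) (nat_lit 4) (nat_lit 14))
    (@En.n l2469 (nat_lit 913) (nat_lit 2) (nat_lit 11))
    (@En.n l28 (nat_lit 1501) (nat_lit 3) (nat_lit 2))
    (@En.n l2462 (nat_lit 1500) (nat_lit 4) (nat_lit 7))
    (@En.n l2379 (nat_lit 1524) (nat_lit 1) (nat_lit 14))
    (@En.n l8858 (nat_lit 6933) (nat_lit 6) (nat_lit 4))
    (@En.i (nat_lit 895) (nat_lit 9) (nat_lit 9))
    (@En.n l7125 (nat_lit 4949) (nat_lit 12) (nat_lit 6))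
    (@En.n l3 (nat_lit 1789) (nat_lit 9) (nat_lit 3))
    (@En.n l2382 (nat_lit 13099) (nat_lit 6) (nat_lit 12))
    (@En.n l2383 (nat_lit 2622) (nat_lit 12) (nat_lit 9))
    (@En.n l387 (nat_lit 1496) (nat_lit 9) (nat_lit 13))
    (@En.n l699 (nat_lit 1502) (nat_lit 14) (nat_lit 5))
    (@En.n l8859 (nat_lit 1498) (nat_lit 11) (nat_lit 10))
    (@En.n l50 (nat_lit 1501) (nat_lit 15) (nat_lit 2))))
  (@Cl.mk (nat_lit 0x20005000d0009000c0003000900080004000e00070002000b0007000e0008) (nat_lit 0xa7a05407004083) (nat_lit 16) Lb.e (@T16.mk En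
    (@En.n l3161 (nat_lit 1413) (nat_lit 12) (nat_lit 8))
    (@En.n l396 (nat_lit 1501) (nat_lit 1) (nat_lit 14))
    (@En.i (nat_lit 1496) (nat_lit 14) (nat_lit 7))
    (@En.n l2469 (nat_lit 914) (nat_lit 3) (nat_lit 11))
    (@En.n l28 (nat_lit 1502) (nat_lit 4) (nat_lit 2))
    (@En.n l2462 (nat_lit 1422) (nat_lit 5) (nat_lit 7))
    (@En.n l2400 (nat_lit 1523) (nat_lit 7) (nat_lit 14))
    (@En.n l3162 (nat_lit 6935) (nat_lit 7) (nat_lit 4))
    (@En.n l644 (nat_lit 894) (nat_lit 3) (nat_lit 8))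
    (@En.n l3163 (nat_lit 6620) (nat_lit 10) (nat_lit 9))
    (@En.n l3 (nat_lit 1788) (nat_lit 10) (nat_lit 3))
    (@En.n l2997 (nat_lit 13096) (nat_lit 6) (nat_lit 12))
    (@En.n l2403 (nat_lit 2469) (nat_lit 13) (nat_lit 9))
    (@En.n l387 (nat_lit 1505) (nat_lit 9) (nat_lit 13))
    (@En.n l3164 (nat_lit 1746) (nat_lit 13) (nat_lit 5))
    (@En.n l18 (nat_lit 1502) (nat_lit 15) (nat_lit 2))))
  (@Cl.mk (nat_lit 0x20008000b000e00080002000b0005000b0008000b000500080005000e0005) (nat_lit 0x270102030901050) (nat_lit 16) Lb.e (@T16.mk En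
    (@En.n l7 (nat_lit 429) (nat_lit 5) (nat_lit 5))
    (@En.n l564 (nat_lit 1878) (nat_lit 1) (nat_lit 14))
    (@En.n l10348 (nat_lit 7611) (nat_lit 2) (nat_lit 5))
    (@En.i (nat_lit 391) (nat_lit 10) (nat_lit 8))
    (@En.i (nat_lit 6928) (nat_lit 4) (nat_lit 5))
    (@En.i (nat_lit 2335) (nat_lit 7) (nat_lit 11))
    (@En.n l10349 (nat_lit 1664) (nat_lit 6) (nat_lit 8))
    (@En.n l5951 (nat_lit 1709) (nat_lit 8) (nat_lit 11))
    (@En.n l4870 (nat_lit 1666) (nat_lit 14) (nat_lit 5))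
    (@En.i (nat_lit 1499) (nat_lit 10) (nat_lit 11))
    (@En.n l3 (nat_lit 1503) (nat_lit 10) (nat_lit 2))
    (@En.n l97 (nat_lit 1499) (nat_lit 12) (nat_lit 8))
    (@En.i (nat_lit 5232) (nat_lit 13) (nat_lit 14))
    (@En.n l1208 (nat_lit 1611) (nat_lit 2) (nat_lit 11))
    (@En.n l4600 (nat_lit 429) (nat_lit 3) (nat_lit 8))
    (@En.n l18 (nat_lit 1503) (nat_lit 15) (nat_lit 2))))
noncomputable def a94 : T16 Cl := @T16.mk Cl
  (@Cl.mk (nat_lit 0x20006000e00090002000d0007000a0003000d0007000a00030006000e0009) (nat_lit 0x51040808070067) (nat_lit 16) Lb.e (@T16.mk En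
    (@En.i (nat_lit 1498) (nat_lit 4) (nat_lit 9))
    (@En.n l601 (nat_lit 1718) (nat_lit 1) (nat_lit 14))
    (@En.n l1718 (nat_lit 5023) (nat_lit 2) (nat_lit 6))
    (@En.i (nat_lit 1725) (nat_lit 3) (nat_lit 3))
    (@En.n l3324 (nat_lit 13226) (nat_lit 8) (nat_lit 10))
    (@En.n l1721 (nat_lit 2608) (nat_lit 5) (nat_lit 7))
    (@En.n l1722 (nat_lit 1495) (nat_lit 7) (nat_lit 13))
    (@En.n l10245 (nat_lit 1726) (nat_lit 7) (nat_lit 3))
    (@En.i (nat_lit 12881) (nat_lit 8) (nat_lit 10))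
    (@En.i (nat_lit 1101) (nat_lit 14) (nat_lit 7))
    (@En.n l1531 (nat_lit 370) (nat_lit 11) (nat_lit 13))
    (@En.n l3 (nat_lit 1504) (nat_lit 11) (nat_lit 2))
    (@En.n l1532 (nat_lit 422) (nat_lit 13) (nat_lit 9))
    (@En.n l3640 (nat_lit 1540) (nat_lit 1) (nat_lit 14))
    (@En.i (nat_lit 6642) (nat_lit 2) (nat_lit 6))
    (@En.n l50 (nat_lit 1504) (nat_lit 15) (nat_lit 2))))
  (@Cl.mk (nat_lit 0x200070007000e00080002000d0008000b00030009000900080005000e0008) (nat_lit 0x9309000564050) (nat_lit 16) Lb.e (@T16.mk En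
    (@En.n l3905 (nat_lit 1506) (nat_lit 5) (nat_lit 8))
    (@En.n l2400 (nat_lit 1527) (nat_lit 1) (nat_lit 14))
    (@En.n l1179 (nat_lit 7136) (nat_lit 2) (nat_lit 5))
    (@En.n l3906 (nat_lit 2305) (nat_lit 3) (nat_lit 8))
    (@En.n l644 (nat_lit 1685) (nat_lit 10) (nat_lit 9))
    (@En.n l3907 (nat_lit 499) (nat_lit 11) (nat_lit 9))
    (@En.n l3 (nat_lit 1535) (nat_lit 6) (nat_lit 3))
    (@En.n l3906 (nat_lit 12907) (nat_lit 7) (nat_lit 11))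
    (@En.n l3907 (nat_lit 3953) (nat_lit 14) (nat_lit 8))
    (@En.n l3908 (nat_lit 1432) (nat_lit 10) (nat_lit 13))
    (@En.n l17 (nat_lit 1505) (nat_lit 10) (nat_lit 2))
    (@En.n l3909 (nat_lit 1577) (nat_lit 12) (nat_lit 8))
    (@En.n l5 (nat_lit 1496) (nat_lit 13) (nat_lit 14))
    (@En.n l3910 (nat_lit 1872) (nat_lit 14) (nat_lit 7))
    (@En.n l3911 (nat_lit 6390) (nat_lit 3) (nat_lit 7))
    (@En.n l28 (nat_lit 1505) (nat_lit 15) (nat_lit 2))))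
  (@Cl.mk (nat_lit 0x2000c00080008000b0004000a000a000900050008000800060006000e0007) (nat_lit 0x701106660620070) (nat_lit 16) Lb.e (@T16.mk En
    (@En.n l2900 (nat_lit 1572) (nat_lit 5) (nat_lit 7))
    (@En.n l10712 (nat_lit 1499) (nat_lit 1) (nat_lit 14))
    (@En.n l3787 (nat_lit 1507) (nat_lit 10) (nat_lit 6))
    (@En.n l10713 (nat_lit 6388) (nat_lit 3) (nat_lit 6))
    (@En.n l152 (nat_lit 1676) (nat_lit 8) (nat_lit 8))
    (@En.n l2900 (nat_lit 1607) (nat_lit 10) (nat_lit 8))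
    (@En.n l9639 (nat_lit 7137) (nat_lit 6) (nat_lit 5))
    (@En.n l2337 (nat_lit 2334) (nat_lit 7) (nat_lit 9))
    (@En.n l10714 (nat_lit 1677) (nat_lit 9) (nat_lit 10))
    (@En.n l10715 (nat_lit 495) (nat_lit 10) (nat_lit 10))
    (@En.n l7420 (nat_lit 1533) (nat_lit 10) (nat_lit 4))
    (@En.n l10716 (nat_lit 1505) (nat_lit 7) (nat_lit 11))
    (@En.n l10717 (nat_lit 1505) (nat_lit 8) (nat_lit 8))
    (@En.n l97 (nat_lit 4211) (nat_lit 14) (nat_lit 8))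
    (@En.i (nat_lit 1477) (nat_lit 3) (nat_lit 12))
    (@En.n l17 (nat_lit 1506) (nat_lit 15) (nat_lit 2))))
  (@Cl.mk (nat_lit 0x2000a0006000900090006000e00060002000c00070007000a0004000e000a) (nat_lit 0x400208004000067) (nat_lit 16) Lb.e (@T16.mk En
    (@En.n l644 (nat_lit 1506) (nat_lit 9) (nat_lit 10))
    (@En.n l18735 (nat_lit 1937) (nat_lit 1) (nat_lit 14))
    (@En.n l7420 (nat_lit 1609) (nat_lit 2) (nat_lit 4))
    (@En.n l24176 (nat_lit 1872) (nat_lit 8) (nat_lit 10))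
    (@En.n l24177 (nat_lit 1872) (nat_lit 9) (nat_lit 7))
    (@En.n l97 (nat_lit 4213) (nat_lit 14) (nat_lit 7))
    (@En.n l24178 (nat_lit 1437) (nat_lit 7) (nat_lit 12))
    (@En.n l17 (nat_lit 1507) (nat_lit 7) (nat_lit 2))
    (@En.n l24179 (nat_lit 1621) (nat_lit 8) (nat_lit 6))
    (@En.n l24180 (nat_lit 1873) (nat_lit 1) (nat_lit 14))
    (@En.n l7707 (nat_lit 8587) (nat_lit 2) (nat_lit 6))
    (@En.n l152 (nat_lit 1611) (nat_lit 7) (nat_lit 9))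
    (@En.n l1347 (nat_lit 1610) (nat_lit 9) (nat_lit 9))
    (@En.n l24181 (nat_lit 5382) (nat_lit 14) (nat_lit 6))
    (@En.n l24182 (nat_lit 2611) (nat_lit 7) (nat_lit 10))
    (@En.n l7 (nat_lit 1507) (nat_lit 15) (nat_lit 2))))
  (@Cl.mk (nat_lit 0x40007000a000a00090008000800080006000600090007000c000800080008) (nat_lit 0x60441300105563) (nat_lit 16) Lb.e (@T16.mk En
    (@En.n l55 (nat_lit 1428) (nat_lit 8) (nat_lit 8))
    (@En.n l13733 (nat_lit 1516) (nat_lit 8) (nat_lit 8))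
    (@En.n l12377 (nat_lit 1490) (nat_lit 8) (nat_lit 8))
    (@En.n l13734 (nat_lit 1409) (nat_lit 8) (nat_lit 12))
    (@En.n l4636 (nat_lit 1412) (nat_lit 9) (nat_lit 7))
    (@En.n l4637 (nat_lit 1199) (nat_lit 9) (nat_lit 9))
    (@En.n l4638 (nat_lit 1199) (nat_lit 10) (nat_lit 6))
    (@En.n l12458 (nat_lit 9439) (nat_lit 7) (nat_lit 6))
    (@En.n l13735 (nat_lit 1476) (nat_lit 8) (nat_lit 8))
    (@En.n l13736 (nat_lit 1198) (nat_lit 8) (nat_lit 8))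
    (@En.n l13737 (nat_lit 7749) (nat_lit 8) (nat_lit 8))
    (@En.n l217 (nat_lit 2508) (nat_lit 7) (nat_lit 9))
    (@En.n l13738 (nat_lit 1509) (nat_lit 6) (nat_lit 10))
    (@En.n l13739 (nat_lit 1520) (nat_lit 8) (nat_lit 10))
    (@En.n l13737 (nat_lit 1814) (nat_lit 11) (nat_lit 7))
    (@En.n l936 (nat_lit 1197) (nat_lit 15) (nat_lit 4))))
  (@Cl.mk (nat_lit 0x200090008000c00090009000900040007000a0008000700070007000e0006) (nat_lit 0x247613008300030) (nat_lit 16) Lb.e (@T16.mk En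
    (@En.n l5522 (nat_lit 1508) (nat_lit 7) (nat_lit 6))
    (@En.n l2724 (nat_lit 10737) (nat_lit 1) (nat_lit 14))
    (@En.n l237 (nat_lit 1511) (nat_lit 9) (nat_lit 7))
    (@En.n l2726 (nat_lit 1510) (nat_lit 3) (nat_lit 7))
    (@En.i (nat_lit 7836) (nat_lit 4) (nat_lit 7))
    (@En.n l5523 (nat_lit 2474) (nat_lit 5) (nat_lit 8))
    (@En.n l2738 (nat_lit 2142) (nat_lit 8) (nat_lit 10))
    (@En.i (nat_lit 1813) (nat_lit 7) (nat_lit 7))
    (@En.n l5524 (nat_lit 1512) (nat_lit 8) (nat_lit 4))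
    (@En.n l2729 (nat_lit 1513) (nat_lit 10) (nat_lit 9))
    (@En.n l577 (nat_lit 1391) (nat_lit 7) (nat_lit 9))
    (@En.n l5525 (nat_lit 1489) (nat_lit 12) (nat_lit 9))
    (@En.n l5526 (nat_lit 1394) (nat_lit 13) (nat_lit 12))
    (@En.n l5527 (nat_lit 1415) (nat_lit 14) (nat_lit 8))
    (@En.n l5528 (nat_lit 1508) (nat_lit 5) (nat_lit 9))
    (@En.n l18 (nat_lit 1509) (nat_lit 15) (nat_lit 2))))
  (@Cl.mk (nat_lit 0x200080007000b000e00090002000a00050008000b000900070006000e0005) (nat_lit 0x605670406810020) (nat_lit 16) Lb.e (@T16.mk En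
    (@En.n l7 (nat_lit 1198) (nat_lit 6) (nat_lit 5))
    (@En.n l5546 (nat_lit 10743) (nat_lit 8) (nat_lit 14))
    (@En.i (nat_lit 825) (nat_lit 2) (nat_lit 6))
    (@En.n l3298 (nat_lit 7857) (nat_lit 3) (nat_lit 7))
    (@En.i (nat_lit 753) (nat_lit 4) (nat_lit 9))
    (@En.n l5547 (nat_lit 2139) (nat_lit 7) (nat_lit 11))
    (@En.n l3298 (nat_lit 1972) (nat_lit 6) (nat_lit 8))
    (@En.n l5421 (nat_lit 1450) (nat_lit 14) (nat_lit 5))
    (@En.n l5548 (nat_lit 1512) (nat_lit 9) (nat_lit 10))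
    (@En.n l107 (nat_lit 1510) (nat_lit 9) (nat_lit 2))
    (@En.n l3298 (nat_lit 1509) (nat_lit 11) (nat_lit 9))
    (@En.n l5547 (nat_lit 1942) (nat_lit 12) (nat_lit 14))
    (@En.n l5549 (nat_lit 1446) (nat_lit 13) (nat_lit 11))
    (@En.n l4793 (nat_lit 1451) (nat_lit 14) (nat_lit 7))
    (@En.n l252 (nat_lit 1198) (nat_lit 4) (nat_lit 8))
    (@En.n l50 (nat_lit 1510) (nat_lit 15) (nat_lit 2))))
  (@Cl.mk (nat_lit 0x200050008000b000900080007000e0005000200080007000b0008000e0009) (nat_lit 0x29330200606652) (nat_lit 16) Lb.e (@T16.mk En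
    (@En.n l77 (nat_lit 1509) (nat_lit 10) (nat_lit 9))
    (@En.n l1917 (nat_lit 1478) (nat_lit 11) (nat_lit 14))
    (@En.n l1918 (nat_lit 1491) (nat_lit 12) (nat_lit 8))
    (@En.n l1919 (nat_lit 1522) (nat_lit 3) (nat_lit 11))
    (@En.n l1920 (nat_lit 1523) (nat_lit 4) (nat_lit 7))
    (@En.n l1921 (nat_lit 1476) (nat_lit 5) (nat_lit 8))
    (@En.n l18 (nat_lit 1511) (nat_lit 6) (nat_lit 2))
    (@En.n l1922 (nat_lit 1476) (nat_lit 7) (nat_lit 5))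
    (@En.n l1923 (nat_lit 5509) (nat_lit 9) (nat_lit 14))
    (@En.n l573 (nat_lit 823) (nat_lit 2) (nat_lit 7))
    (@En.i (nat_lit 7414) (nat_lit 11) (nat_lit 8))
    (@En.n l1924 (nat_lit 2465) (nat_lit 12) (nat_lit 9))
    (@En.n l1925 (nat_lit 2144) (nat_lit 13) (nat_lit 11))
    (@En.i (nat_lit 1811) (nat_lit 14) (nat_lit 8))
    (@En.n l1926 (nat_lit 1510) (nat_lit 7) (nat_lit 5))
    (@En.n l28 (nat_lit 1511) (nat_lit 15) (nat_lit 2))))
  (@Cl.mk (nat_lit 0x200090008000c0007000a000a00040007000a0008000600060009000e0006) (nat_lit 0x247073007300130) (nat_lit 16) Lb.e (@T16.mk En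
    (@En.n l13710 (nat_lit 1197) (nat_lit 7) (nat_lit 6))
    (@En.i (nat_lit 12338) (nat_lit 1) (nat_lit 14))
    (@En.n l13711 (nat_lit 1450) (nat_lit 9) (nat_lit 9))
    (@En.n l13712 (nat_lit 1450) (nat_lit 10) (nat_lit 6))
    (@En.n l13633 (nat_lit 7838) (nat_lit 4) (nat_lit 6))
    (@En.n l13713 (nat_lit 755) (nat_lit 5) (nat_lit 8))
    (@En.i (nat_lit 1850) (nat_lit 8) (nat_lit 10))
    (@En.n l13633 (nat_lit 1935) (nat_lit 11) (nat_lit 7))
    (@En.n l13714 (nat_lit 1488) (nat_lit 8) (nat_lit 4))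
    (@En.n l13715 (nat_lit 1515) (nat_lit 6) (nat_lit 10))
    (@En.n l13710 (nat_lit 1513) (nat_lit 11) (nat_lit 10))
    (@En.n l13716 (nat_lit 1987) (nat_lit 12) (nat_lit 7))
    (@En.n l217 (nat_lit 1447) (nat_lit 13) (nat_lit 12))
    (@En.n l13717 (nat_lit 1536) (nat_lit 14) (nat_lit 8))
    (@En.n l13718 (nat_lit 1197) (nat_lit 5) (nat_lit 9))
    (@En.n l11 (nat_lit 1512) (nat_lit 15) (nat_lit 2))))
  (@Cl.mk (nat_lit 0x2000a0009000d000a000900030006000900070006000e00070002000e0007) (nat_lit 0x247620070070040) (nat_lit 16) Lb.e (@T16.mk En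
    (@En.i (nat_lit 1428) (nat_lit 14) (nat_lit 7))
    (@En.n l1366 (nat_lit 12132) (nat_lit 1) (nat_lit 14))
    (@En.n l28 (nat_lit 1513) (nat_lit 2) (nat_lit 2))
    (@En.n l3898 (nat_lit 1509) (nat_lit 3) (nat_lit 7))
    (@En.n l1578 (nat_lit 1515) (nat_lit 1) (nat_lit 14))
    (@En.n l771 (nat_lit 6051) (nat_lit 5) (nat_lit 6))
    (@En.i (nat_lit 2545) (nat_lit 6) (nat_lit 7))
    (@En.n l4747 (nat_lit 2432) (nat_lit 9) (nat_lit 9))
    (@En.n l771 (nat_lit 4630) (nat_lit 8) (nat_lit 6))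
    (@En.n l1181 (nat_lit 1774) (nat_lit 9) (nat_lit 3))
    (@En.n l575 (nat_lit 1385) (nat_lit 0) (nat_lit 9))
    (@En.n l2569 (nat_lit 1775) (nat_lit 12) (nat_lit 10))
    (@En.n l4748 (nat_lit 1539) (nat_lit 13) (nat_lit 13))
    (@En.n l4749 (nat_lit 1538) (nat_lit 14) (nat_lit 9))
    (@En.n l612 (nat_lit 1428) (nat_lit 12) (nat_lit 10))
    (@En.n l50 (nat_lit 1513) (nat_lit 15) (nat_lit 2))))
  (@Cl.mk (nat_lit 0x2000a00070007000a0008000d0006000900030006000900090008000e0007) (nat_lit 0x400136070030470) (nat_lit 16) Lb.e (@T16.mk En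
    (@En.i (nat_lit 1197) (nat_lit 10) (nat_lit 7))
    (@En.n l1267 (nat_lit 5214) (nat_lit 1) (nat_lit 14))
    (@En.n l217 (nat_lit 2584) (nat_lit 2) (nat_lit 8))
    (@En.n l644 (nat_lit 1515) (nat_lit 3) (nat_lit 9))
    (@En.n l617 (nat_lit 1517) (nat_lit 4) (nat_lit 9))
    (@En.i (nat_lit 1937) (nat_lit 12) (nat_lit 6))
    (@En.n l25534 (nat_lit 1516) (nat_lit 6) (nat_lit 3))
    (@En.i (nat_lit 1349) (nat_lit 0) (nat_lit 9))
    (@En.n l21779 (nat_lit 1984) (nat_lit 8) (nat_lit 6))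
    (@En.n l10819 (nat_lit 1405) (nat_lit 10) (nat_lit 13))
    (@En.n l15219 (nat_lit 1295) (nat_lit 11) (nat_lit 8))
    (@En.n l25535 (nat_lit 1407) (nat_lit 8) (nat_lit 10))
    (@En.n l11212 (nat_lit 1407) (nat_lit 9) (nat_lit 7))
    (@En.n l7471 (nat_lit 11529) (nat_lit 14) (nat_lit 7))
    (@En.n l2678 (nat_lit 1197) (nat_lit 8) (nat_lit 10))
    (@En.n l11 (nat_lit 1514) (nat_lit 15) (nat_lit 2))))
  (@Cl.mk (nat_lit 0x20009000e00070002000a0009000d0007000a0003000600090007000e0006) (nat_lit 0x240024502007060) (nat_lit 16) Lb.e (@T16.mk En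
    (@En.n l11859 (nat_lit 1512) (nat_lit 4) (nat_lit 6))
    (@En.n l4361 (nat_lit 5213) (nat_lit 6) (nat_lit 14))
    (@En.i (nat_lit 2056) (nat_lit 2) (nat_lit 7))
    (@En.n l4361 (nat_lit 1849) (nat_lit 3) (nat_lit 9))
    (@En.n l7073 (nat_lit 1940) (nat_lit 12) (nat_lit 6))
    (@En.n l5153 (nat_lit 1391) (nat_lit 5) (nat_lit 3))
    (@En.i (nat_lit 1351) (nat_lit 0) (nat_lit 10))
    (@En.n l2894 (nat_lit 1674) (nat_lit 7) (nat_lit 7))
    (@En.n l10819 (nat_lit 1392) (nat_lit 13) (nat_lit 13))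
    (@En.n l7732 (nat_lit 1537) (nat_lit 14) (nat_lit 9))
    (@En.n l612 (nat_lit 1514) (nat_lit 11) (nat_lit 10))
    (@En.n l50 (nat_lit 1515) (nat_lit 11) (nat_lit 2))
    (@En.i (nat_lit 1514) (nat_lit 13) (nat_lit 7))
    (@En.n l5559 (nat_lit 12339) (nat_lit 1) (nat_lit 14))
    (@En.n l11860 (nat_lit 1512) (nat_lit 2) (nat_lit 9))
    (@En.n l11 (nat_lit 1515) (nat_lit 15) (nat_lit 2))))
  (@Cl.mk (nat_lit 0x2000900070007000a0008000d0008000700030006000900090008000e0008) (nat_lit 0x400837500051455) (nat_lit 16) Lb.e (@T16.mk En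
    (@En.n l1772 (nat_lit 1508) (nat_lit 10) (nat_lit 8))
    (@En.n l532 (nat_lit 5212) (nat_lit 1) (nat_lit 14))
    (@En.n l1774 (nat_lit 2589) (nat_lit 2) (nat_lit 8))
    (@En.n l534 (nat_lit 1391) (nat_lit 3) (nat_lit 9))
    (@En.n l11891 (nat_lit 1521) (nat_lit 4) (nat_lit 9))
    (@En.n l11892 (nat_lit 1859) (nat_lit 5) (nat_lit 6))
    (@En.n l11893 (nat_lit 1514) (nat_lit 6) (nat_lit 3))
    (@En.i (nat_lit 1282) (nat_lit 0) (nat_lit 7))
    (@En.n l11894 (nat_lit 5083) (nat_lit 9) (nat_lit 8))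
    (@En.n l524 (nat_lit 1393) (nat_lit 10) (nat_lit 13))
    (@En.i (nat_lit 1396) (nat_lit 11) (nat_lit 8))
    (@En.n l3 (nat_lit 1401) (nat_lit 8) (nat_lit 10))
    (@En.n l527 (nat_lit 1401) (nat_lit 9) (nat_lit 7))
    (@En.n l11891 (nat_lit 11527) (nat_lit 14) (nat_lit 7))
    (@En.n l11895 (nat_lit 1477) (nat_lit 8) (nat_lit 9))
    (@En.n l7 (nat_lit 1516) (nat_lit 15) (nat_lit 2))))
  (@Cl.mk (nat_lit 0x200090007000e000800020009000d0007000a0003000900080007000e0006) (nat_lit 0x5004800020060) (nat_lit 16) Lb.e (@T16.mk En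
    (@En.n l27419 (nat_lit 1518) (nat_lit 5) (nat_lit 6))
    (@En.n l5909 (nat_lit 8105) (nat_lit 7) (nat_lit 14))
    (@En.n l8355 (nat_lit 2349) (nat_lit 2) (nat_lit 7))
    (@En.n l5912 (nat_lit 1847) (nat_lit 3) (nat_lit 8))
    (@En.n l27420 (nat_lit 1510) (nat_lit 4) (nat_lit 9))
    (@En.n l27421 (nat_lit 1521) (nat_lit 5) (nat_lit 3))
    (@En.i (nat_lit 3219) (nat_lit 0) (nat_lit 10))
    (@En.n l13092 (nat_lit 1975) (nat_lit 7) (nat_lit 7))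
    (@En.n l7695 (nat_lit 1720) (nat_lit 9) (nat_lit 13))
    (@En.n l2588 (nat_lit 2000) (nat_lit 10) (nat_lit 9))
    (@En.n l18 (nat_lit 1517) (nat_lit 10) (nat_lit 2))
    (@En.i (nat_lit 1519) (nat_lit 12) (nat_lit 8))
    (@En.n l564 (nat_lit 1515) (nat_lit 13) (nat_lit 14))
    (@En.n l8355 (nat_lit 5906) (nat_lit 14) (nat_lit 7))
    (@En.n l27422 (nat_lit 1518) (nat_lit 3) (nat_lit 9))
    (@En.n l11 (nat_lit 1517) (nat_lit 15) (nat_lit 2))))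
  (@Cl.mk (nat_lit 0x20008000c0007000a000a0004000a000900080006000600090006000e0007) (nat_lit 0x470710503007040) (nat_lit 16) Lb.e (@T16.mk En
    (@En.n l34453 (nat_lit 1550) (nat_lit 6) (nat_lit 7))
    (@En.n l1578 (nat_lit 1512) (nat_lit 1) (nat_lit 14))
    (@En.n l34454 (nat_lit 5912) (nat_lit 2) (nat_lit 6))
    (@En.n l34455 (nat_lit 1552) (nat_lit 9) (nat_lit 9))
    (@En.n l34456 (nat_lit 1552) (nat_lit 10) (nat_lit 6))
    (@En.i (nat_lit 7133) (nat_lit 5) (nat_lit 6))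
    (@En.n l34457 (nat_lit 2350) (nat_lit 6) (nat_lit 8))
    (@En.n l34458 (nat_lit 1846) (nat_lit 7) (nat_lit 9))
    (@En.n l15016 (nat_lit 1198) (nat_lit 9) (nat_lit 10))
    (@En.n l34459 (nat_lit 1763) (nat_lit 9) (nat_lit 4))
    (@En.n l34460 (nat_lit 1517) (nat_lit 6) (nat_lit 10))
    (@En.n l34461 (nat_lit 1761) (nat_lit 8) (nat_lit 10))
    (@En.n l18290 (nat_lit 1973) (nat_lit 13) (nat_lit 7))
    (@En.n l217 (nat_lit 1721) (nat_lit 14) (nat_lit 12))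
    (@En.n l34462 (nat_lit 1462) (nat_lit 4) (nat_lit 8))
    (@En.n l28 (nat_lit 1518) (nat_lit 15) (nat_lit 2))))
  (@Cl.mk (nat_lit 0x2000a0008000800080008000d0006000900030008000800080008000e0007) (nat_lit 0x6238060451470) (nat_lit 16) Lb.e (@T16.mk En
    (@En.n l19627 (nat_lit 1550) (nat_lit 10) (nat_lit 7))
    (@En.n l764 (nat_lit 8102) (nat_lit 1) (nat_lit 14))
    (@En.n l61 (nat_lit 1528) (nat_lit 2) (nat_lit 8))
    (@En.n l217 (nat_lit 1517) (nat_lit 3) (nat_lit 8))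
    (@En.n l5802 (nat_lit 1844) (nat_lit 8) (nat_lit 8))
    (@En.n l19628 (nat_lit 1509) (nat_lit 5) (nat_lit 8))
    (@En.n l19629 (nat_lit 1575) (nat_lit 6) (nat_lit 3))
    (@En.i (nat_lit 1894) (nat_lit 0) (nat_lit 9))
    (@En.n l18567 (nat_lit 1659) (nat_lit 8) (nat_lit 6))
    (@En.n l15219 (nat_lit 1295) (nat_lit 10) (nat_lit 13))
    (@En.n l19630 (nat_lit 1696) (nat_lit 11) (nat_lit 8))
    (@En.n l19631 (nat_lit 1578) (nat_lit 8) (nat_lit 8))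
    (@En.n l19632 (nat_lit 1648) (nat_lit 8) (nat_lit 8))
    (@En.n l19633 (nat_lit 5909) (nat_lit 14) (nat_lit 8))
    (@En.n l19634 (nat_lit 1550) (nat_lit 8) (nat_lit 10))
    (@En.n l11 (nat_lit 1519) (nat_lit 15) (nat_lit 2))))
noncomputable def a95 : T16 Cl := @T16.mk Cl
  (@Cl.mk (nat_lit 0x20008000c0009000900090004000a000900080007000700070006000e0007) (nat_lit 0x356000573000040) (nat_lit 16) Lb.e (@T16.mk En
    (@En.n l19228 (nat_lit 1419) (nat_lit 6) (nat_lit 7))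
    (@En.n l6557 (nat_lit 1509) (nat_lit 1) (nat_lit 14))
    (@En.n l19229 (nat_lit 5913) (nat_lit 2) (nat_lit 6))
    (@En.n l19092 (nat_lit 1762) (nat_lit 9) (nat_lit 7))
    (@En.n l12113 (nat_lit 1760) (nat_lit 4) (nat_lit 7))
    (@En.i (nat_lit 6038) (nat_lit 5) (nat_lit 7))
    (@En.n l6560 (nat_lit 2342) (nat_lit 6) (nat_lit 8))
    (@En.n l217 (nat_lit 2143) (nat_lit 7) (nat_lit 9))
    (@En.n l6560 (nat_lit 443) (nat_lit 9) (nat_lit 10))
    (@En.n l8017 (nat_lit 1518) (nat_lit 9) (nat_lit 4))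
    (@En.n l19230 (nat_lit 1761) (nat_lit 7) (nat_lit 9))
    (@En.n l19231 (nat_lit 1521) (nat_lit 7) (nat_lit 9))
    (@En.n l8020 (nat_lit 1657) (nat_lit 13) (nat_lit 9))
    (@En.n l4109 (nat_lit 1414) (nat_lit 14) (nat_lit 12))
    (@En.n l15361 (nat_lit 1421) (nat_lit 4) (nat_lit 8))
    (@En.n l17 (nat_lit 1520) (nat_lit 15) (nat_lit 2))))
  (@Cl.mk (nat_lit 0x200080007000e000800020009000d000900080003000900080007000e0007) (nat_lit 0x305004870040040) (nat_lit 16) Lb.e (@T16.mk En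
    (@En.n l18952 (nat_lit 1520) (nat_lit 5) (nat_lit 7))
    (@En.n l18953 (nat_lit 8104) (nat_lit 7) (nat_lit 14))
    (@En.n l18954 (nat_lit 2348) (nat_lit 2) (nat_lit 7))
    (@En.n l18955 (nat_lit 2284) (nat_lit 3) (nat_lit 8))
    (@En.n l18956 (nat_lit 1563) (nat_lit 4) (nat_lit 9))
    (@En.n l18957 (nat_lit 1517) (nat_lit 5) (nat_lit 3))
    (@En.n l18954 (nat_lit 3217) (nat_lit 6) (nat_lit 8))
    (@En.n l18958 (nat_lit 4360) (nat_lit 13) (nat_lit 9))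
    (@En.n l7066 (nat_lit 1719) (nat_lit 9) (nat_lit 13))
    (@En.n l18959 (nat_lit 1998) (nat_lit 10) (nat_lit 9))
    (@En.n l50 (nat_lit 1521) (nat_lit 10) (nat_lit 2))
    (@En.n l644 (nat_lit 1575) (nat_lit 12) (nat_lit 8))
    (@En.n l18960 (nat_lit 1391) (nat_lit 13) (nat_lit 14))
    (@En.i (nat_lit 5908) (nat_lit 14) (nat_lit 7))
    (@En.n l18961 (nat_lit 1763) (nat_lit 3) (nat_lit 8))
    (@En.n l3 (nat_lit 1521) (nat_lit 15) (nat_lit 2))))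
  (@Cl.mk (nat_lit 0x20005000d0008000b000300090008000e000500020008000b0007000e0008) (nat_lit 0x83804260055043) (nat_lit 16) Lb.e (@T16.mk En
    (@En.n l2589 (nat_lit 1394) (nat_lit 11) (nat_lit 8))
    (@En.n l5591 (nat_lit 1479) (nat_lit 12) (nat_lit 14))
    (@En.n l1643 (nat_lit 1483) (nat_lit 13) (nat_lit 7))
    (@En.n l778 (nat_lit 1284) (nat_lit 3) (nat_lit 11))
    (@En.n l3100 (nat_lit 1468) (nat_lit 4) (nat_lit 8))
    (@En.n l28 (nat_lit 1522) (nat_lit 5) (nat_lit 2))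
    (@En.n l5611 (nat_lit 1468) (nat_lit 6) (nat_lit 5))
    (@En.i (nat_lit 5955) (nat_lit 8) (nat_lit 14))
    (@En.n l2579 (nat_lit 782) (nat_lit 2) (nat_lit 8))
    (@En.n l5612 (nat_lit 7739) (nat_lit 10) (nat_lit 9))
    (@En.n l2381 (nat_lit 1523) (nat_lit 10) (nat_lit 3))
    (@En.n l1643 (nat_lit 1792) (nat_lit 12) (nat_lit 11))
    (@En.n l5330 (nat_lit 1511) (nat_lit 13) (nat_lit 8))
    (@En.n l4758 (nat_lit 1528) (nat_lit 8) (nat_lit 13))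
    (@En.n l5590 (nat_lit 1446) (nat_lit 8) (nat_lit 5))
    (@En.n l17 (nat_lit 1522) (nat_lit 15) (nat_lit 2))))
  (@Cl.mk (nat_lit 0x20005000d000a0009000300090008000e000600020007000b0007000e0008) (nat_lit 0x98004260004082) (nat_lit 16) Lb.e (@T16.mk En
    (@En.n l5613 (nat_lit 1415) (nat_lit 11) (nat_lit 8))
    (@En.n l5614 (nat_lit 1524) (nat_lit 12) (nat_lit 14))
    (@En.i (nat_lit 1526) (nat_lit 13) (nat_lit 7))
    (@En.n l5615 (nat_lit 1240) (nat_lit 3) (nat_lit 11))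
    (@En.n l5616 (nat_lit 1422) (nat_lit 4) (nat_lit 7))
    (@En.n l11 (nat_lit 1523) (nat_lit 5) (nat_lit 2))
    (@En.n l5617 (nat_lit 1418) (nat_lit 6) (nat_lit 6))
    (@En.n l2238 (nat_lit 12727) (nat_lit 8) (nat_lit 14))
    (@En.n l5618 (nat_lit 794) (nat_lit 2) (nat_lit 8))
    (@En.n l5619 (nat_lit 7047) (nat_lit 10) (nat_lit 9))
    (@En.n l5620 (nat_lit 1522) (nat_lit 10) (nat_lit 3))
    (@En.n l5621 (nat_lit 2154) (nat_lit 12) (nat_lit 9))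
    (@En.n l936 (nat_lit 2467) (nat_lit 13) (nat_lit 10))
    (@En.n l387 (nat_lit 1527) (nat_lit 8) (nat_lit 13))
    (@En.n l5622 (nat_lit 1451) (nat_lit 8) (nat_lit 5))
    (@En.n l18 (nat_lit 1523) (nat_lit 15) (nat_lit 2))))
  (@Cl.mk (nat_lit 0x20007000b000e00070002000a0005000d000a0009000300060009000e0006) (nat_lit 0x47000088000160) (nat_lit 16) Lb.e (@T16.mk En
    (@En.n l187 (nat_lit 961) (nat_lit 5) (nat_lit 6))
    (@En.n l5373 (nat_lit 12726) (nat_lit 7) (nat_lit 14))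
    (@En.n l2009 (nat_lit 792) (nat_lit 2) (nat_lit 9))
    (@En.n l1897 (nat_lit 5191) (nat_lit 3) (nat_lit 6))
    (@En.n l4550 (nat_lit 1479) (nat_lit 4) (nat_lit 3))
    (@En.n l619 (nat_lit 1801) (nat_lit 0) (nat_lit 9))
    (@En.n l1106 (nat_lit 2620) (nat_lit 12) (nat_lit 10))
    (@En.n l13780 (nat_lit 1526) (nat_lit 8) (nat_lit 13))
    (@En.n l12613 (nat_lit 1523) (nat_lit 14) (nat_lit 5))
    (@En.n l5598 (nat_lit 1525) (nat_lit 10) (nat_lit 10))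
    (@En.n l7 (nat_lit 1524) (nat_lit 10) (nat_lit 2))
    (@En.n l2129 (nat_lit 1525) (nat_lit 12) (nat_lit 7))
    (@En.i (nat_lit 4979) (nat_lit 13) (nat_lit 14))
    (@En.n l226 (nat_lit 1236) (nat_lit 2) (nat_lit 11))
    (@En.n l5728 (nat_lit 1500) (nat_lit 3) (nat_lit 7))
    (@En.n l476 (nat_lit 1524) (nat_lit 15) (nat_lit 2))))
  (@Cl.mk (nat_lit 0x20008000c00070007000a0004000d000900080003000600090009000e0007) (nat_lit 0x340080860005270) (nat_lit 16) Lb.e (@T16.mk En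
    (@En.n l12321 (nat_lit 955) (nat_lit 11) (nat_lit 7))
    (@En.i (nat_lit 12170) (nat_lit 1) (nat_lit 14))
    (@En.n l5774 (nat_lit 1524) (nat_lit 2) (nat_lit 9))
    (@En.n l12322 (nat_lit 1523) (nat_lit 9) (nat_lit 9))
    (@En.n l10703 (nat_lit 5192) (nat_lit 4) (nat_lit 6))
    (@En.n l50 (nat_lit 1485) (nat_lit 5) (nat_lit 3))
    (@En.n l12323 (nat_lit 2153) (nat_lit 0) (nat_lit 8))
    (@En.i (nat_lit 2442) (nat_lit 8) (nat_lit 9))
    (@En.n l12324 (nat_lit 1486) (nat_lit 9) (nat_lit 13))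
    (@En.n l6168 (nat_lit 1415) (nat_lit 9) (nat_lit 4))
    (@En.n l12325 (nat_lit 1540) (nat_lit 11) (nat_lit 10))
    (@En.n l12326 (nat_lit 1540) (nat_lit 12) (nat_lit 7))
    (@En.n l12323 (nat_lit 1543) (nat_lit 13) (nat_lit 7))
    (@En.i (nat_lit 1229) (nat_lit 14) (nat_lit 12))
    (@En.n l12327 (nat_lit 426) (nat_lit 9) (nat_lit 8))
    (@En.n l17 (nat_lit 1525) (nat_lit 15) (nat_lit 2))))
  (@Cl.mk (nat_lit 0x200080007000e00070002000a000d000900080003000900060009000e0007) (nat_lit 0x308001770050340) (nat_lit 16) Lb.e (@T16.mk En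
    (@En.n l5617 (nat_lit 954) (nat_lit 5) (nat_lit 7))
    (@En.n l8200 (nat_lit 12721) (nat_lit 7) (nat_lit 14))
    (@En.i (nat_lit 2294) (nat_lit 2) (nat_lit 9))
    (@En.n l13818 (nat_lit 1524) (nat_lit 3) (nat_lit 6))
    (@En.n l13819 (nat_lit 1680) (nat_lit 4) (nat_lit 9))
    (@En.n l936 (nat_lit 1483) (nat_lit 5) (nat_lit 3))
    (@En.n l8200 (nat_lit 2155) (nat_lit 6) (nat_lit 8))
    (@En.n l936 (nat_lit 2839) (nat_lit 13) (nat_lit 9))
    (@En.n l8200 (nat_lit 1651) (nat_lit 9) (nat_lit 13))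
    (@En.n l6356 (nat_lit 1486) (nat_lit 10) (nat_lit 10))
    (@En.n l18 (nat_lit 1526) (nat_lit 10) (nat_lit 2))
    (@En.n l4638 (nat_lit 1486) (nat_lit 12) (nat_lit 7))
    (@En.n l13820 (nat_lit 4947) (nat_lit 13) (nat_lit 14))
    (@En.n l13821 (nat_lit 7826) (nat_lit 14) (nat_lit 7))
    (@En.n l5783 (nat_lit 1499) (nat_lit 3) (nat_lit 8))
    (@En.n l11 (nat_lit 1526) (nat_lit 15) (nat_lit 2))))
  (@Cl.mk (nat_lit 0x2000800070007000e00080002000d000900080003000900090008000e0007) (nat_lit 0x300930800047340) (nat_lit 16) Lb.e (@T16.mk En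
    (@En.n l7868 (nat_lit 1533) (nat_lit 6) (nat_lit 7))
    (@En.n l1213 (nat_lit 5954) (nat_lit 1) (nat_lit 14))
    (@En.n l217 (nat_lit 2295) (nat_lit 2) (nat_lit 8))
    (@En.n l7869 (nat_lit 1529) (nat_lit 3) (nat_lit 9))
    (@En.n l872 (nat_lit 1682) (nat_lit 11) (nat_lit 9))
    (@En.n l936 (nat_lit 1528) (nat_lit 5) (nat_lit 3))
    (@En.n l1213 (nat_lit 2036) (nat_lit 6) (nat_lit 8))
    (@En.n l936 (nat_lit 4210) (nat_lit 14) (nat_lit 9))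
    (@En.n l4636 (nat_lit 1516) (nat_lit 9) (nat_lit 13))
    (@En.n l17 (nat_lit 1527) (nat_lit 9) (nat_lit 2))
    (@En.n l7870 (nat_lit 1575) (nat_lit 11) (nat_lit 8))
    (@En.n l5 (nat_lit 1526) (nat_lit 12) (nat_lit 14))
    (@En.n l7871 (nat_lit 1651) (nat_lit 13) (nat_lit 7))
    (@En.n l7872 (nat_lit 6383) (nat_lit 14) (nat_lit 7))
    (@En.n l7873 (nat_lit 1506) (nat_lit 4) (nat_lit 8))
    (@En.n l11 (nat_lit 1527) (nat_lit 15) (nat_lit 2))))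
  (@Cl.mk (nat_lit 0x2000900070007000e00080002000d0007000a0003000900090008000e0006) (nat_lit 0x430700047360) (nat_lit 16) Lb.e (@T16.mk En
    (@En.n l13153 (nat_lit 1531) (nat_lit 6) (nat_lit 6))
    (@En.n l1267 (nat_lit 5949) (nat_lit 1) (nat_lit 14))
    (@En.n l217 (nat_lit 2298) (nat_lit 2) (nat_lit 8))
    (@En.n l644 (nat_lit 1530) (nat_lit 3) (nat_lit 9))
    (@En.n l3428 (nat_lit 1511) (nat_lit 11) (nat_lit 9))
    (@En.n l2576 (nat_lit 1527) (nat_lit 5) (nat_lit 3))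
    (@En.i (nat_lit 2033) (nat_lit 0) (nat_lit 10))
    (@En.n l5643 (nat_lit 1656) (nat_lit 14) (nat_lit 7))
    (@En.i (nat_lit 1514) (nat_lit 9) (nat_lit 13))
    (@En.n l17 (nat_lit 1528) (nat_lit 9) (nat_lit 2))
    (@En.i (nat_lit 1519) (nat_lit 11) (nat_lit 8))
    (@En.n l5 (nat_lit 1483) (nat_lit 12) (nat_lit 14))
    (@En.n l564 (nat_lit 1650) (nat_lit 9) (nat_lit 7))
    (@En.n l7471 (nat_lit 6382) (nat_lit 14) (nat_lit 7))
    (@En.n l13154 (nat_lit 1531) (nat_lit 4) (nat_lit 9))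
    (@En.n l11 (nat_lit 1528) (nat_lit 15) (nat_lit 2))))
  (@Cl.mk (nat_lit 0x20007000e00070002000e00090002000d000a0009000300090007000e0006) (nat_lit 0xb0094090006030) (nat_lit 16) Lb.e (@T16.mk En
    (@En.n l394 (nat_lit 1534) (nat_lit 7) (nat_lit 6))
    (@En.n l238 (nat_lit 5957) (nat_lit 1) (nat_lit 14))
    (@En.n l2661 (nat_lit 2306) (nat_lit 2) (nat_lit 7))
    (@En.i (nat_lit 7048) (nat_lit 11) (nat_lit 9))
    (@En.n l2617 (nat_lit 1530) (nat_lit 4) (nat_lit 3))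
    (@En.i (nat_lit 2029) (nat_lit 5) (nat_lit 9))
    (@En.n l2617 (nat_lit 3951) (nat_lit 14) (nat_lit 10))
    (@En.i (nat_lit 1391) (nat_lit 8) (nat_lit 13))
    (@En.n l3 (nat_lit 1529) (nat_lit 8) (nat_lit 2))
    (@En.n l2662 (nat_lit 1686) (nat_lit 10) (nat_lit 9))
    (@En.n l2663 (nat_lit 1523) (nat_lit 1) (nat_lit 14))
    (@En.n l18 (nat_lit 1529) (nat_lit 11) (nat_lit 2))
    (@En.n l238 (nat_lit 1527) (nat_lit 13) (nat_lit 7))
    (@En.n l396 (nat_lit 11648) (nat_lit 1) (nat_lit 14))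
    (@En.n l2664 (nat_lit 1677) (nat_lit 5) (nat_lit 7))
    (@En.n l28 (nat_lit 1529) (nat_lit 15) (nat_lit 2))))
  (@Cl.mk (nat_lit 0x20008000e00070002000e00090002000d0008000b000300090007000e0005) (nat_lit 0x3b0054060006050) (nat_lit 16) Lb.e (@T16.mk En
    (@En.n l5152 (nat_lit 1532) (nat_lit 7) (nat_lit 5))
    (@En.i (nat_lit 5950) (nat_lit 1) (nat_lit 14))
    (@En.i (nat_lit 2250) (nat_lit 2) (nat_lit 7))
    (@En.n l1262 (nat_lit 7415) (nat_lit 11) (nat_lit 9))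
    (@En.n l5153 (nat_lit 1529) (nat_lit 4) (nat_lit 3))
    (@En.i (nat_lit 2027) (nat_lit 0) (nat_lit 11))
    (@En.n l1262 (nat_lit 1942) (nat_lit 6) (nat_lit 8))
    (@En.i (nat_lit 1515) (nat_lit 8) (nat_lit 13))
    (@En.n l17 (nat_lit 1530) (nat_lit 8) (nat_lit 2))
    (@En.n l764 (nat_lit 1844) (nat_lit 14) (nat_lit 9))
    (@En.n l998 (nat_lit 1522) (nat_lit 1) (nat_lit 14))
    (@En.n l50 (nat_lit 1530) (nat_lit 11) (nat_lit 2))
    (@En.i (nat_lit 1528) (nat_lit 13) (nat_lit 7))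
    (@En.n l2567 (nat_lit 11647) (nat_lit 1) (nat_lit 14))
    (@En.n l5154 (nat_lit 1532) (nat_lit 5) (nat_lit 8))
    (@En.n l11 (nat_lit 1530) (nat_lit 15) (nat_lit 2))))
  (@Cl.mk (nat_lit 0x2000c0007000a000a0004000a000a000900060006000900060006000e0007) (nat_lit 0x507105630070070) (nat_lit 16) Lb.e (@T16.mk En
    (@En.n l2900 (nat_lit 1550) (nat_lit 5) (nat_lit 7))
    (@En.n l3786 (nat_lit 1472) (nat_lit 1) (nat_lit 14))
    (@En.n l5361 (nat_lit 1191) (nat_lit 10) (nat_lit 6))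
    (@En.n l18697 (nat_lit 6381) (nat_lit 3) (nat_lit 6))
    (@En.n l107 (nat_lit 1553) (nat_lit 9) (nat_lit 9))
    (@En.n l575 (nat_lit 1553) (nat_lit 10) (nat_lit 6))
    (@En.n l16113 (nat_lit 8476) (nat_lit 6) (nat_lit 6))
    (@En.n l2337 (nat_lit 2300) (nat_lit 7) (nat_lit 9))
    (@En.n l601 (nat_lit 1532) (nat_lit 9) (nat_lit 10))
    (@En.n l9521 (nat_lit 1476) (nat_lit 10) (nat_lit 10))
    (@En.n l117 (nat_lit 1506) (nat_lit 10) (nat_lit 4))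
    (@En.n l18698 (nat_lit 1528) (nat_lit 6) (nat_lit 10))
    (@En.n l18699 (nat_lit 1535) (nat_lit 8) (nat_lit 10))
    (@En.n l619 (nat_lit 1658) (nat_lit 14) (nat_lit 7))
    (@En.n l18699 (nat_lit 1197) (nat_lit 3) (nat_lit 12))
    (@En.n l17 (nat_lit 1531) (nat_lit 15) (nat_lit 2))))
  (@Cl.mk (nat_lit 0x2000c0008000b000b0004000a0008000500050008000e00060002000e0008) (nat_lit 0x838105200230084) (nat_lit 16) Lb.e (@T16.mk En
    (@En.n l7769 (nat_lit 1559) (nat_lit 14) (nat_lit 8))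
    (@En.n l998 (nat_lit 1468) (nat_lit 1) (nat_lit 14))
    (@En.n l50 (nat_lit 1532) (nat_lit 2) (nat_lit 2))
    (@En.n l7 (nat_lit 1531) (nat_lit 3) (nat_lit 6))
    (@En.n l7770 (nat_lit 10803) (nat_lit 1) (nat_lit 14))
    (@En.n l107 (nat_lit 1929) (nat_lit 10) (nat_lit 8))
    (@En.n l575 (nat_lit 1929) (nat_lit 11) (nat_lit 5))
    (@En.n l7770 (nat_lit 8888) (nat_lit 7) (nat_lit 5))
    (@En.n l6119 (nat_lit 2185) (nat_lit 5) (nat_lit 8))
    (@En.n l7770 (nat_lit 7741) (nat_lit 10) (nat_lit 10))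
    (@En.i (nat_lit 1677) (nat_lit 10) (nat_lit 4))
    (@En.n l7771 (nat_lit 1530) (nat_lit 5) (nat_lit 11))
    (@En.n l3839 (nat_lit 2026) (nat_lit 13) (nat_lit 11))
    (@En.n l3836 (nat_lit 1931) (nat_lit 14) (nat_lit 8))
    (@En.n l7772 (nat_lit 1512) (nat_lit 12) (nat_lit 12))
    (@En.n l17 (nat_lit 1532) (nat_lit 15) (nat_lit 2))))
  (@Cl.mk (nat_lit 0x2000c0009000900090004000a000a000900070007000700060006000e0007) (nat_lit 0x661006630000070) (nat_lit 16) Lb.e (@T16.mk En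
    (@En.n l7992 (nat_lit 1419) (nat_lit 5) (nat_lit 7))
    (@En.n l3786 (nat_lit 954) (nat_lit 1) (nat_lit 14))
    (@En.n l3787 (nat_lit 1609) (nat_lit 10) (nat_lit 6))
    (@En.n l7992 (nat_lit 6380) (nat_lit 3) (nat_lit 6))
    (@En.n l7908 (nat_lit 1607) (nat_lit 9) (nat_lit 7))
    (@En.n l527 (nat_lit 1606) (nat_lit 9) (nat_lit 7))
    (@En.n l6489 (nat_lit 7653) (nat_lit 6) (nat_lit 7))
    (@En.n l2337 (nat_lit 2301) (nat_lit 7) (nat_lit 9))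
    (@En.n l7993 (nat_lit 1534) (nat_lit 9) (nat_lit 10))
    (@En.n l7994 (nat_lit 1571) (nat_lit 10) (nat_lit 10))
    (@En.n l159 (nat_lit 1531) (nat_lit 10) (nat_lit 4))
    (@En.n l7995 (nat_lit 1535) (nat_lit 7) (nat_lit 9))
    (@En.n l7996 (nat_lit 1527) (nat_lit 7) (nat_lit 9))
    (@En.n l6386 (nat_lit 1862) (nat_lit 14) (nat_lit 9))
    (@En.n l7997 (nat_lit 1508) (nat_lit 3) (nat_lit 12))
    (@En.n l17 (nat_lit 1533) (nat_lit 15) (nat_lit 2))))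
  (@Cl.mk (nat_lit 0x2000c000a000a000a0004000a0008000600060006000e00060002000e0008) (nat_lit 0x871005200030024) (nat_lit 16) Lb.e (@T16.mk En
    (@En.n l2721 (nat_lit 1683) (nat_lit 14) (nat_lit 8))
    (@En.n l2722 (nat_lit 1418) (nat_lit 1) (nat_lit 14))
    (@En.n l18 (nat_lit 1534) (nat_lit 2) (nat_lit 2))
    (@En.n l2723 (nat_lit 1533) (nat_lit 3) (nat_lit 6))
    (@En.n l2724 (nat_lit 10801) (nat_lit 1) (nat_lit 14))
    (@En.n l2725 (nat_lit 1679) (nat_lit 10) (nat_lit 6))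
    (@En.n l2726 (nat_lit 1928) (nat_lit 10) (nat_lit 6))
    (@En.i (nat_lit 8984) (nat_lit 7) (nat_lit 6))
    (@En.n l2727 (nat_lit 2223) (nat_lit 5) (nat_lit 8))
    (@En.i (nat_lit 7153) (nat_lit 10) (nat_lit 10))
    (@En.n l2728 (nat_lit 1532) (nat_lit 10) (nat_lit 4))
    (@En.n l2729 (nat_lit 2026) (nat_lit 12) (nat_lit 10))
    (@En.n l577 (nat_lit 1529) (nat_lit 6) (nat_lit 10))
    (@En.n l2730 (nat_lit 1866) (nat_lit 14) (nat_lit 10))
    (@En.i (nat_lit 1509) (nat_lit 12) (nat_lit 12))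
    (@En.n l3 (nat_lit 1534) (nat_lit 15) (nat_lit 2))))
  (@Cl.mk (nat_lit 0x200070007000e00080002000d000a000900030009000900080006000e0007) (nat_lit 0x9309670373070) (nat_lit 16) Lb.e (@T16.mk En
    (@En.n l7868 (nat_lit 1533) (nat_lit 5) (nat_lit 7))
    (@En.n l1578 (nat_lit 1528) (nat_lit 1) (nat_lit 14))
    (@En.n l10848 (nat_lit 8986) (nat_lit 2) (nat_lit 6))
    (@En.n l217 (nat_lit 2303) (nat_lit 3) (nat_lit 8))
    (@En.n l644 (nat_lit 2026) (nat_lit 10) (nat_lit 9))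
    (@En.n l771 (nat_lit 1762) (nat_lit 11) (nat_lit 9))
    (@En.i (nat_lit 1505) (nat_lit 6) (nat_lit 3))
    (@En.n l575 (nat_lit 2030) (nat_lit 0) (nat_lit 9))
    (@En.i (nat_lit 1860) (nat_lit 9) (nat_lit 10))
    (@En.i (nat_lit 1428) (nat_lit 10) (nat_lit 13))
    (@En.n l17 (nat_lit 1535) (nat_lit 10) (nat_lit 2))
    (@En.i (nat_lit 1690) (nat_lit 12) (nat_lit 8))
    (@En.n l5 (nat_lit 1790) (nat_lit 13) (nat_lit 14))
    (@En.n l564 (nat_lit 1652) (nat_lit 14) (nat_lit 7))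
    (@En.n l10849 (nat_lit 6389) (nat_lit 3) (nat_lit 7))
    (@En.n l28 (nat_lit 1535) (nat_lit 15) (nat_lit 2))))
noncomputable def a96 : T16 Cl := @T16.mk Cl
  (@Cl.mk (nat_lit 0x20008000c0006000900090004000d00090008000300070007000a000e0007) (nat_lit 0x370630862000130) (nat_lit 16) Lb.e (@T16.mk En
    (@En.n l187 (nat_lit 1297) (nat_lit 11) (nat_lit 7))
    (@En.n l27374 (nat_lit 12334) (nat_lit 1) (nat_lit 14))
    (@En.n l50 (nat_lit 1448) (nat_lit 8) (nat_lit 10))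
    (@En.n l217 (nat_lit 1448) (nat_lit 9) (nat_lit 7))
    (@En.n l27010 (nat_lit 7042) (nat_lit 4) (nat_lit 7))
    (@En.n l27375 (nat_lit 1447) (nat_lit 5) (nat_lit 3))
    (@En.n l27376 (nat_lit 763) (nat_lit 0) (nat_lit 8))
    (@En.n l1106 (nat_lit 1759) (nat_lit 8) (nat_lit 9))
    (@En.n l27377 (nat_lit 1998) (nat_lit 9) (nat_lit 13))
    (@En.n l5598 (nat_lit 1525) (nat_lit 9) (nat_lit 4))
    (@En.n l27378 (nat_lit 1537) (nat_lit 11) (nat_lit 9))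
    (@En.n l27379 (nat_lit 1538) (nat_lit 12) (nat_lit 9))
    (@En.n l27376 (nat_lit 1588) (nat_lit 13) (nat_lit 6))
    (@En.n l226 (nat_lit 1263) (nat_lit 14) (nat_lit 12))
    (@En.n l5728 (nat_lit 1293) (nat_lit 9) (nat_lit 8))
    (@En.n l476 (nat_lit 1536) (nat_lit 15) (nat_lit 2))))
  (@Cl.mk (nat_lit 0x20009000d000600090003000d000800070003000e00070002000a000e0008) (nat_lit 0x350207500700251) (nat_lit 16) Lb.e (@T16.mk En
    (@En.n l25529 (nat_lit 1295) (nat_lit 13) (nat_lit 8))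
    (@En.i (nat_lit 12335) (nat_lit 1) (nat_lit 14))
    (@En.n l25530 (nat_lit 1536) (nat_lit 2) (nat_lit 10))
    (@En.n l17 (nat_lit 1537) (nat_lit 3) (nat_lit 2))
    (@En.n l25306 (nat_lit 1536) (nat_lit 4) (nat_lit 7))
    (@En.n l25531 (nat_lit 7700) (nat_lit 1) (nat_lit 14))
    (@En.n l20676 (nat_lit 1392) (nat_lit 6) (nat_lit 3))
    (@En.i (nat_lit 2054) (nat_lit 7) (nat_lit 7))
    (@En.n l11484 (nat_lit 2583) (nat_lit 4) (nat_lit 8))
    (@En.n l25532 (nat_lit 1999) (nat_lit 10) (nat_lit 13))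
    (@En.i (nat_lit 1390) (nat_lit 10) (nat_lit 3))
    (@En.n l25531 (nat_lit 1831) (nat_lit 12) (nat_lit 9))
    (@En.n l1883 (nat_lit 1704) (nat_lit 13) (nat_lit 6))
    (@En.n l25532 (nat_lit 1386) (nat_lit 10) (nat_lit 13))
    (@En.n l25533 (nat_lit 1290) (nat_lit 11) (nat_lit 9))
    (@En.n l3 (nat_lit 1537) (nat_lit 15) (nat_lit 2))))
  (@Cl.mk (nat_lit 0x20009000d000900080003000d0008000700030007000e00080002000e0008) (nat_lit 0x365108500081041) (nat_lit 16) Lb.e (@T16.mk En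
    (@En.n l12459 (nat_lit 1416) (nat_lit 14) (nat_lit 8))
    (@En.n l12460 (nat_lit 12163) (nat_lit 1) (nat_lit 14))
    (@En.n l17 (nat_lit 1538) (nat_lit 2) (nat_lit 2))
    (@En.n l12461 (nat_lit 1415) (nat_lit 3) (nat_lit 8))
    (@En.n l12462 (nat_lit 1537) (nat_lit 5) (nat_lit 14))
    (@En.i (nat_lit 7039) (nat_lit 5) (nat_lit 7))
    (@En.n l6168 (nat_lit 1539) (nat_lit 6) (nat_lit 3))
    (@En.n l1099 (nat_lit 1841) (nat_lit 0) (nat_lit 7))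
    (@En.n l12459 (nat_lit 2602) (nat_lit 5) (nat_lit 8))
    (@En.n l12463 (nat_lit 1695) (nat_lit 10) (nat_lit 13))
    (@En.n l12464 (nat_lit 1540) (nat_lit 10) (nat_lit 3))
    (@En.n l12465 (nat_lit 1237) (nat_lit 12) (nat_lit 8))
    (@En.n l3575 (nat_lit 1541) (nat_lit 13) (nat_lit 9))
    (@En.n l12466 (nat_lit 1233) (nat_lit 14) (nat_lit 13))
    (@En.n l12465 (nat_lit 419) (nat_lit 12) (nat_lit 9))
    (@En.n l67 (nat_lit 1538) (nat_lit 15) (nat_lit 2))))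
  (@Cl.mk (nat_lit 0x2000a000d000900080003000d0006000900030007000e00080002000e0007) (nat_lit 0x265208060086040) (nat_lit 16) Lb.e (@T16.mk En
    (@En.n l8727 (nat_lit 1426) (nat_lit 14) (nat_lit 7))
    (@En.n l9215 (nat_lit 12162) (nat_lit 1) (nat_lit 14))
    (@En.n l3 (nat_lit 1539) (nat_lit 2) (nat_lit 2))
    (@En.n l3657 (nat_lit 1394) (nat_lit 3) (nat_lit 8))
    (@En.n l10274 (nat_lit 1392) (nat_lit 5) (nat_lit 14))
    (@En.n l8826 (nat_lit 6056) (nat_lit 5) (nat_lit 7))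
    (@En.n l12452 (nat_lit 1538) (nat_lit 6) (nat_lit 3))
    (@En.n l10274 (nat_lit 1729) (nat_lit 0) (nat_lit 9))
    (@En.n l1538 (nat_lit 1513) (nat_lit 8) (nat_lit 6))
    (@En.n l12453 (nat_lit 1696) (nat_lit 10) (nat_lit 13))
    (@En.n l11 (nat_lit 1395) (nat_lit 10) (nat_lit 3))
    (@En.n l12454 (nat_lit 1386) (nat_lit 12) (nat_lit 8))
    (@En.n l55 (nat_lit 1484) (nat_lit 13) (nat_lit 9))
    (@En.i (nat_lit 1816) (nat_lit 5) (nat_lit 13))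
    (@En.n l12455 (nat_lit 1426) (nat_lit 12) (nat_lit 10))
    (@En.n l17 (nat_lit 1539) (nat_lit 15) (nat_lit 2))))
  (@Cl.mk (nat_lit 0x20009000d0007000a0003000d0008000700030006000e00090002000e0008) (nat_lit 0x360706500066041) (nat_lit 16) Lb.e (@T16.mk En
    (@En.n l1771 (nat_lit 956) (nat_lit 14) (nat_lit 8))
    (@En.n l3051 (nat_lit 12164) (nat_lit 1) (nat_lit 14))
    (@En.n l50 (nat_lit 1540) (nat_lit 2) (nat_lit 2))
    (@En.n l4786 (nat_lit 1525) (nat_lit 3) (nat_lit 9))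
    (@En.n l4787 (nat_lit 1390) (nat_lit 5) (nat_lit 14))
    (@En.n l4788 (nat_lit 5195) (nat_lit 5) (nat_lit 6))
    (@En.n l3072 (nat_lit 1395) (nat_lit 6) (nat_lit 3))
    (@En.n l4789 (nat_lit 2158) (nat_lit 0) (nat_lit 7))
    (@En.n l4790 (nat_lit 2439) (nat_lit 5) (nat_lit 8))
    (@En.n l1767 (nat_lit 1541) (nat_lit 10) (nat_lit 13))
    (@En.n l4791 (nat_lit 1538) (nat_lit 10) (nat_lit 3))
    (@En.n l3395 (nat_lit 13017) (nat_lit 8) (nat_lit 10))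
    (@En.n l4792 (nat_lit 1542) (nat_lit 13) (nat_lit 7))
    (@En.n l4790 (nat_lit 1232) (nat_lit 14) (nat_lit 13))
    (@En.i (nat_lit 422) (nat_lit 12) (nat_lit 9))
    (@En.n l1770 (nat_lit 1540) (nat_lit 15) (nat_lit 2))))
  (@Cl.mk (nat_lit 0x2000a00090007000a000d00070006000300070006000e00090002000e0009) (nat_lit 0x240850000001061) (nat_lit 16) Lb.e (@T16.mk En
    (@En.n l1386 (nat_lit 951) (nat_lit 14) (nat_lit 9))
    (@En.i (nat_lit 12165) (nat_lit 1) (nat_lit 14))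
    (@En.n l18 (nat_lit 1541) (nat_lit 2) (nat_lit 2))
    (@En.n l6608 (nat_lit 1486) (nat_lit 3) (nat_lit 9))
    (@En.n l2256 (nat_lit 1568) (nat_lit 1) (nat_lit 14))
    (@En.n l4425 (nat_lit 1540) (nat_lit 5) (nat_lit 6))
    (@En.n l6609 (nat_lit 1684) (nat_lit 6) (nat_lit 7))
    (@En.n l1232 (nat_lit 1484) (nat_lit 7) (nat_lit 3))
    (@En.n l6608 (nat_lit 2157) (nat_lit 0) (nat_lit 6))
    (@En.n l6610 (nat_lit 2888) (nat_lit 6) (nat_lit 7))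
    (@En.n l6608 (nat_lit 1629) (nat_lit 11) (nat_lit 13))
    (@En.n l699 (nat_lit 13016) (nat_lit 8) (nat_lit 10))
    (@En.n l6608 (nat_lit 1546) (nat_lit 13) (nat_lit 7))
    (@En.i (nat_lit 7830) (nat_lit 14) (nat_lit 9))
    (@En.n l2257 (nat_lit 428) (nat_lit 12) (nat_lit 10))
    (@En.n l3 (nat_lit 1541) (nat_lit 15) (nat_lit 2))))
  (@Cl.mk (nat_lit 0x2000a0007000a0008000d0007000600030006000d000900080003000e0009) (nat_lit 0x300160000072061) (nat_lit 16) Lb.e (@T16.mk En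
    (@En.n l1386 (nat_lit 978) (nat_lit 14) (nat_lit 9))
    (@En.n l77 (nat_lit 11453) (nat_lit 1) (nat_lit 14))
    (@En.n l12521 (nat_lit 1547) (nat_lit 2) (nat_lit 3))
    (@En.n l6609 (nat_lit 1538) (nat_lit 3) (nat_lit 8))
    (@En.n l12522 (nat_lit 1543) (nat_lit 4) (nat_lit 9))
    (@En.n l12523 (nat_lit 1544) (nat_lit 6) (nat_lit 13))
    (@En.n l12524 (nat_lit 6504) (nat_lit 12) (nat_lit 6))
    (@En.n l12525 (nat_lit 1181) (nat_lit 7) (nat_lit 3))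
    (@En.n l12522 (nat_lit 2771) (nat_lit 0) (nat_lit 6))
    (@En.n l117 (nat_lit 2835) (nat_lit 10) (nat_lit 7))
    (@En.n l12526 (nat_lit 1546) (nat_lit 11) (nat_lit 13))
    (@En.n l12526 (nat_lit 1327) (nat_lit 12) (nat_lit 8))
    (@En.i (nat_lit 1593) (nat_lit 8) (nat_lit 10))
    (@En.i (nat_lit 8440) (nat_lit 14) (nat_lit 7))
    (@En.n l12233 (nat_lit 977) (nat_lit 12) (nat_lit 10))
    (@En.n l3 (nat_lit 1542) (nat_lit 15) (nat_lit 2))))
  (@Cl.mk (nat_lit 0x2000900070006000a0009000d000800070003000600090007000a000e0008) (nat_lit 0x300127600060651) (nat_lit 16) Lb.e (@T16.mk En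
    (@En.n l20604 (nat_lit 980) (nat_lit 10) (nat_lit 8))
    (@En.n l532 (nat_lit 11452) (nat_lit 1) (nat_lit 14))
    (@En.n l25995 (nat_lit 4974) (nat_lit 2) (nat_lit 10))
    (@En.n l25996 (nat_lit 1536) (nat_lit 3) (nat_lit 7))
    (@En.n l25997 (nat_lit 1526) (nat_lit 4) (nat_lit 9))
    (@En.n l3106 (nat_lit 6505) (nat_lit 5) (nat_lit 6))
    (@En.n l9787 (nat_lit 1179) (nat_lit 6) (nat_lit 3))
    (@En.i (nat_lit 2770) (nat_lit 0) (nat_lit 7))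
    (@En.n l25998 (nat_lit 2826) (nat_lit 9) (nat_lit 8))
    (@En.n l3 (nat_lit 1545) (nat_lit 10) (nat_lit 13))
    (@En.n l3 (nat_lit 1544) (nat_lit 11) (nat_lit 9))
    (@En.n l25999 (nat_lit 1542) (nat_lit 12) (nat_lit 10))
    (@En.i (nat_lit 1547) (nat_lit 13) (nat_lit 6))
    (@En.n l26000 (nat_lit 8438) (nat_lit 14) (nat_lit 7))
    (@En.n l50 (nat_lit 1300) (nat_lit 8) (nat_lit 9))
    (@En.n l7 (nat_lit 1543) (nat_lit 15) (nat_lit 2))))
  (@Cl.mk (nat_lit 0x2000a000800060009000d000700060003000d000800070003000a000e0009) (nat_lit 0x36016000b600761) (nat_lit 16) Lb.e (@T16.mk En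
    (@En.n l13857 (nat_lit 983) (nat_lit 13) (nat_lit 9))
    (@En.n l532 (nat_lit 11464) (nat_lit 1) (nat_lit 14))
    (@En.n l1690 (nat_lit 1543) (nat_lit 2) (nat_lit 10))
    (@En.n l152 (nat_lit 1545) (nat_lit 3) (nat_lit 3))
    (@En.n l17721 (nat_lit 1537) (nat_lit 4) (nat_lit 7))
    (@En.n l97 (nat_lit 1486) (nat_lit 5) (nat_lit 8))
    (@En.n l25559 (nat_lit 7518) (nat_lit 7) (nat_lit 13))
    (@En.n l10692 (nat_lit 1178) (nat_lit 7) (nat_lit 3))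
    (@En.i (nat_lit 2768) (nat_lit 8) (nat_lit 6))
    (@En.n l15456 (nat_lit 2825) (nat_lit 5) (nat_lit 7))
    (@En.i (nat_lit 1125) (nat_lit 11) (nat_lit 13))
    (@En.n l25560 (nat_lit 623) (nat_lit 12) (nat_lit 9))
    (@En.i (nat_lit 1549) (nat_lit 13) (nat_lit 6))
    (@En.n l25561 (nat_lit 8439) (nat_lit 14) (nat_lit 8))
    (@En.n l50 (nat_lit 1299) (nat_lit 11) (nat_lit 10))
    (@En.n l7 (nat_lit 1544) (nat_lit 15) (nat_lit 2))))
  (@Cl.mk (nat_lit 0x2000a00070006000a000d000700060003000d000600090003000a000e0009) (nat_lit 0x300260000060761) (nat_lit 16) Lb.e (@T16.mk En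
    (@En.i (nat_lit 984) (nat_lit 13) (nat_lit 9))
    (@En.n l532 (nat_lit 11457) (nat_lit 1) (nat_lit 14))
    (@En.n l281 (nat_lit 4967) (nat_lit 2) (nat_lit 10))
    (@En.n l117 (nat_lit 1544) (nat_lit 3) (nat_lit 3))
    (@En.n l13111 (nat_lit 1651) (nat_lit 4) (nat_lit 9))
    (@En.i (nat_lit 1543) (nat_lit 5) (nat_lit 6))
    (@En.n l2125 (nat_lit 7519) (nat_lit 7) (nat_lit 13))
    (@En.i (nat_lit 1180) (nat_lit 7) (nat_lit 3))
    (@En.i (nat_lit 2769) (nat_lit 8) (nat_lit 6))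
    (@En.i (nat_lit 2827) (nat_lit 5) (nat_lit 7))
    (@En.i (nat_lit 1123) (nat_lit 5) (nat_lit 13))
    (@En.n l207 (nat_lit 1546) (nat_lit 12) (nat_lit 10))
    (@En.i (nat_lit 1548) (nat_lit 13) (nat_lit 6))
    (@En.n l15188 (nat_lit 7681) (nat_lit 14) (nat_lit 7))
    (@En.n l50 (nat_lit 1301) (nat_lit 11) (nat_lit 10))
    (@En.n l7 (nat_lit 1545) (nat_lit 15) (nat_lit 2))))
  (@Cl.mk (nat_lit 0x2000b0007000a000d000600050003000c0006000d000900040003000e000a) (nat_lit 0x1015000001700c1) (nat_lit 16) Lb.e (@T16.mk En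
    (@En.i (nat_lit 982) (nat_lit 14) (nat_lit 10))
    (@En.n l287 (nat_lit 11459) (nat_lit 1) (nat_lit 14))
    (@En.n l11 (nat_lit 1548) (nat_lit 2) (nat_lit 3))
    (@En.n l6115 (nat_lit 623) (nat_lit 3) (nat_lit 4))
    (@En.i (nat_lit 1545) (nat_lit 4) (nat_lit 9))
    (@En.n l3478 (nat_lit 1125) (nat_lit 6) (nat_lit 13))
    (@En.n l6116 (nat_lit 1542) (nat_lit 6) (nat_lit 6))
    (@En.n l6117 (nat_lit 7520) (nat_lit 8) (nat_lit 12))
    (@En.i (nat_lit 1183) (nat_lit 8) (nat_lit 3))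
    (@En.i (nat_lit 2772) (nat_lit 9) (nat_lit 5))
    (@En.n l6117 (nat_lit 4238) (nat_lit 11) (nat_lit 6))
    (@En.i (nat_lit 1118) (nat_lit 12) (nat_lit 13))
    (@En.n l6116 (nat_lit 1009) (nat_lit 8) (nat_lit 10))
    (@En.n l6118 (nat_lit 7680) (nat_lit 14) (nat_lit 7))
    (@En.n l50 (nat_lit 373) (nat_lit 12) (nat_lit 11))
    (@En.n l7 (nat_lit 1546) (nat_lit 15) (nat_lit 2))))
  (@Cl.mk (nat_lit 0x2000a0006000a0009000d0007000600030006000d0007000a0003000e0009) (nat_lit 0x1012500001060c1) (nat_lit 16) Lb.e (@T16.mk En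
    (@En.i (nat_lit 981) (nat_lit 14) (nat_lit 9))
    (@En.i (nat_lit 11263) (nat_lit 1) (nat_lit 14))
    (@En.n l6116 (nat_lit 1542) (nat_lit 2) (nat_lit 3))
    (@En.n l5033 (nat_lit 4975) (nat_lit 3) (nat_lit 10))
    (@En.i (nat_lit 1588) (nat_lit 4) (nat_lit 7))
    (@En.n l5035 (nat_lit 1545) (nat_lit 6) (nat_lit 13))
    (@En.n l3106 (nat_lit 7964) (nat_lit 12) (nat_lit 6))
    (@En.i (nat_lit 1182) (nat_lit 7) (nat_lit 3))
    (@En.i (nat_lit 2773) (nat_lit 0) (nat_lit 6))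
    (@En.i (nat_lit 2837) (nat_lit 10) (nat_lit 7))
    (@En.n l3 (nat_lit 1548) (nat_lit 11) (nat_lit 13))
    (@En.n l3 (nat_lit 1549) (nat_lit 12) (nat_lit 9))
    (@En.n l3549 (nat_lit 1107) (nat_lit 13) (nat_lit 10))
    (@En.n l217 (nat_lit 7679) (nat_lit 14) (nat_lit 6))
    (@En.n l50 (nat_lit 371) (nat_lit 12) (nat_lit 10))
    (@En.n l7 (nat_lit 1547) (nat_lit 15) (nat_lit 2))))
  (@Cl.mk (nat_lit 0x2000b0006000a000d000600050003000d0006000d0003000a0003000e000a) (nat_lit 0x1014000801050c1) (nat_lit 16) Lb.e (@T16.mk En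
    (@En.i (nat_lit 1049) (nat_lit 14) (nat_lit 10))
    (@En.i (nat_lit 11264) (nat_lit 1) (nat_lit 14))
    (@En.i (nat_lit 1546) (nat_lit 2) (nat_lit 3))
    (@En.n l253 (nat_lit 4973) (nat_lit 3) (nat_lit 10))
    (@En.n l117 (nat_lit 1549) (nat_lit 4) (nat_lit 3))
    (@En.n l625 (nat_lit 1123) (nat_lit 0) (nat_lit 13))
    (@En.i (nat_lit 1547) (nat_lit 6) (nat_lit 6))
    (@En.n l2125 (nat_lit 7148) (nat_lit 8) (nat_lit 13))
    (@En.i (nat_lit 1185) (nat_lit 8) (nat_lit 3))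
    (@En.i (nat_lit 2774) (nat_lit 9) (nat_lit 5))
    (@En.i (nat_lit 4237) (nat_lit 5) (nat_lit 6))
    (@En.i (nat_lit 1117) (nat_lit 12) (nat_lit 13))
    (@En.n l253 (nat_lit 1104) (nat_lit 13) (nat_lit 10))
    (@En.n l217 (nat_lit 7677) (nat_lit 14) (nat_lit 6))
    (@En.n l50 (nat_lit 369) (nat_lit 12) (nat_lit 11))
    (@En.n l7 (nat_lit 1548) (nat_lit 15) (nat_lit 2))))
  (@Cl.mk (nat_lit 0x2000b00060009000d000600050003000d000c00070003000a0004000e000a) (nat_lit 0x1015000b10070c1) (nat_lit 16) Lb.e (@T16.mk En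
    (@En.i (nat_lit 1050) (nat_lit 12) (nat_lit 10))
    (@En.n l1897 (nat_lit 11265) (nat_lit 1) (nat_lit 14))
    (@En.i (nat_lit 1327) (nat_lit 2) (nat_lit 4))
    (@En.n l1690 (nat_lit 1547) (nat_lit 3) (nat_lit 10))
    (@En.n l152 (nat_lit 1548) (nat_lit 4) (nat_lit 3))
    (@En.i (nat_lit 1704) (nat_lit 5) (nat_lit 7))
    (@En.n l619 (nat_lit 1546) (nat_lit 7) (nat_lit 12))
    (@En.i (nat_lit 7147) (nat_lit 8) (nat_lit 13))
    (@En.i (nat_lit 1184) (nat_lit 8) (nat_lit 3))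
    (@En.i (nat_lit 2775) (nat_lit 9) (nat_lit 5))
    (@En.i (nat_lit 4294) (nat_lit 5) (nat_lit 6))
    (@En.i (nat_lit 1116) (nat_lit 12) (nat_lit 13))
    (@En.n l3531 (nat_lit 1082) (nat_lit 9) (nat_lit 9))
    (@En.n l217 (nat_lit 7678) (nat_lit 14) (nat_lit 6))
    (@En.n l50 (nat_lit 367) (nat_lit 10) (nat_lit 11))
    (@En.n l7 (nat_lit 1549) (nat_lit 15) (nat_lit 2))))
  (@Cl.mk (nat_lit 0x4000900090009000900070007000a0007000700070007000c000600090009) (nat_lit 0x561400800005067) (nat_lit 16) Lb.e (@T16.mk En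
    (@En.n l30247 (nat_lit 1519) (nat_lit 7) (nat_lit 9))
    (@En.n l30248 (nat_lit 1690) (nat_lit 9) (nat_lit 9))
    (@En.n l15371 (nat_lit 1660) (nat_lit 15) (nat_lit 6))
    (@En.n l890 (nat_lit 1297) (nat_lit 8) (nat_lit 12))
    (@En.n l30249 (nat_lit 1558) (nat_lit 9) (nat_lit 7))
    (@En.n l11 (nat_lit 1565) (nat_lit 9) (nat_lit 7))
    (@En.n l4976 (nat_lit 1188) (nat_lit 9) (nat_lit 7))
    (@En.n l30250 (nat_lit 5917) (nat_lit 7) (nat_lit 7))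
    (@En.n l18 (nat_lit 1551) (nat_lit 8) (nat_lit 10))
    (@En.n l61 (nat_lit 1551) (nat_lit 9) (nat_lit 7))
    (@En.n l890 (nat_lit 6668) (nat_lit 9) (nat_lit 7))
    (@En.n l8390 (nat_lit 1531) (nat_lit 7) (nat_lit 9))
    (@En.n l30251 (nat_lit 1518) (nat_lit 7) (nat_lit 9))
    (@En.n l30252 (nat_lit 1559) (nat_lit 7) (nat_lit 9))
    (@En.n l30253 (nat_lit 1508) (nat_lit 11) (nat_lit 9))
    (@En.n l6042 (nat_lit 1572) (nat_lit 15) (nat_lit 4))))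
  (@Cl.mk (nat_lit 0x20005000a000a000a000a0007000a0006000600060006000b0006000e0009) (nat_lit 0x67040700006017) (nat_lit 16) Lb.e (@T16.mk En
    (@En.i (nat_lit 1550) (nat_lit 1) (nat_lit 9))
    (@En.n l21181 (nat_lit 443) (nat_lit 1) (nat_lit 14))
    (@En.n l108 (nat_lit 1557) (nat_lit 2) (nat_lit 6))
    (@En.n l890 (nat_lit 1444) (nat_lit 3) (nat_lit 11))
    (@En.n l218 (nat_lit 1555) (nat_lit 4) (nat_lit 6))
    (@En.n l11 (nat_lit 1556) (nat_lit 5) (nat_lit 6))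
    (@En.n l4976 (nat_lit 1187) (nat_lit 6) (nat_lit 6))
    (@En.n l1393 (nat_lit 6288) (nat_lit 7) (nat_lit 6))
    (@En.i (nat_lit 13720) (nat_lit 8) (nat_lit 10))
    (@En.n l890 (nat_lit 6666) (nat_lit 10) (nat_lit 7))
    (@En.n l8390 (nat_lit 1553) (nat_lit 11) (nat_lit 10))
    (@En.n l22068 (nat_lit 1552) (nat_lit 12) (nat_lit 10))
    (@En.n l10815 (nat_lit 1554) (nat_lit 13) (nat_lit 10))
    (@En.n l13316 (nat_lit 1199) (nat_lit 14) (nat_lit 10))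
    (@En.i (nat_lit 1576) (nat_lit 13) (nat_lit 5))
    (@En.n l17 (nat_lit 1551) (nat_lit 15) (nat_lit 2))))
noncomputable def a97 : T16 Cl := @T16.mk Cl
  (@Cl.mk (nat_lit 0x20005000b000a0009000600090005000e000600020007000b0007000e000a) (nat_lit 0x68306030007008) (nat_lit 16) Lb.e (@T16.mk En
    (@En.n l37670 (nat_lit 1518) (nat_lit 11) (nat_lit 10))
    (@En.n l180 (nat_lit 1760) (nat_lit 12) (nat_lit 14))
    (@En.n l619 (nat_lit 1974) (nat_lit 13) (nat_lit 7))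
    (@En.n l8679 (nat_lit 1449) (nat_lit 3) (nat_lit 11))
    (@En.n l12929 (nat_lit 1459) (nat_lit 4) (nat_lit 7))
    (@En.n l18 (nat_lit 1552) (nat_lit 5) (nat_lit 2))
    (@En.n l2900 (nat_lit 1551) (nat_lit 6) (nat_lit 6))
    (@En.n l17943 (nat_lit 1450) (nat_lit 8) (nat_lit 14))
    (@En.n l947 (nat_lit 6291) (nat_lit 8) (nat_lit 5))
    (@En.n l22112 (nat_lit 13723) (nat_lit 9) (nat_lit 9))
    (@En.n l10795 (nat_lit 7132) (nat_lit 4) (nat_lit 6))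
    (@En.n l22113 (nat_lit 2352) (nat_lit 12) (nat_lit 9))
    (@En.n l5909 (nat_lit 1851) (nat_lit 13) (nat_lit 10))
    (@En.n l33219 (nat_lit 1196) (nat_lit 8) (nat_lit 11))
    (@En.i (nat_lit 1764) (nat_lit 8) (nat_lit 5))
    (@En.n l11 (nat_lit 1552) (nat_lit 15) (nat_lit 2))))
  (@Cl.mk (nat_lit 0x20005000b000b000a0006000900050005000e00060002000b0007000e000a) (nat_lit 0x6730600a007008) (nat_lit 16) Lb.e (@T16.mk En
    (@En.i (nat_lit 1531) (nat_lit 12) (nat_lit 10))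
    (@En.n l180 (nat_lit 1606) (nat_lit 1) (nat_lit 14))
    (@En.n l619 (nat_lit 1932) (nat_lit 14) (nat_lit 7))
    (@En.n l12316 (nat_lit 1195) (nat_lit 3) (nat_lit 11))
    (@En.n l17 (nat_lit 1553) (nat_lit 4) (nat_lit 2))
    (@En.n l2900 (nat_lit 1551) (nat_lit 5) (nat_lit 6))
    (@En.n l3786 (nat_lit 1471) (nat_lit 7) (nat_lit 14))
    (@En.n l5361 (nat_lit 1190) (nat_lit 7) (nat_lit 5))
    (@En.i (nat_lit 6285) (nat_lit 8) (nat_lit 5))
    (@En.n l2900 (nat_lit 13719) (nat_lit 9) (nat_lit 9))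
    (@En.i (nat_lit 8269) (nat_lit 5) (nat_lit 6))
    (@En.n l2337 (nat_lit 2354) (nat_lit 12) (nat_lit 10))
    (@En.n l601 (nat_lit 1929) (nat_lit 13) (nat_lit 11))
    (@En.n l9521 (nat_lit 1475) (nat_lit 9) (nat_lit 11))
    (@En.i (nat_lit 1676) (nat_lit 13) (nat_lit 5))
    (@En.n l11 (nat_lit 1553) (nat_lit 15) (nat_lit 2))))
  (@Cl.mk (nat_lit 0x20005000a0009000900060009000e0006000200070007000b0007000e000a) (nat_lit 0x60300200007008) (nat_lit 16) Lb.e (@T16.mk En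
    (@En.n l7769 (nat_lit 1559) (nat_lit 10) (nat_lit 10))
    (@En.n l180 (nat_lit 1563) (nat_lit 11) (nat_lit 14))
    (@En.n l619 (nat_lit 1903) (nat_lit 12) (nat_lit 7))
    (@En.n l5560 (nat_lit 1448) (nat_lit 3) (nat_lit 11))
    (@En.n l6983 (nat_lit 1561) (nat_lit 4) (nat_lit 7))
    (@En.n l9537 (nat_lit 1585) (nat_lit 5) (nat_lit 7))
    (@En.n l50 (nat_lit 1554) (nat_lit 6) (nat_lit 2))
    (@En.n l4263 (nat_lit 1551) (nat_lit 7) (nat_lit 6))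
    (@En.n l22016 (nat_lit 11341) (nat_lit 9) (nat_lit 14))
    (@En.n l7708 (nat_lit 13722) (nat_lit 9) (nat_lit 9))
    (@En.n l4802 (nat_lit 6662) (nat_lit 3) (nat_lit 6))
    (@En.n l61 (nat_lit 1929) (nat_lit 12) (nat_lit 9))
    (@En.n l764 (nat_lit 2188) (nat_lit 13) (nat_lit 9))
    (@En.n l12797 (nat_lit 7752) (nat_lit 14) (nat_lit 10))
    (@En.i (nat_lit 1680) (nat_lit 7) (nat_lit 5))
    (@En.n l11 (nat_lit 1554) (nat_lit 15) (nat_lit 2))))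
  (@Cl.mk (nat_lit 0x2000500090009000e000a00020008000b000700070006000b0005000e0008) (nat_lit 0x67b10000005086) (nat_lit 16) Lb.e (@T16.mk En
    (@En.n l6304 (nat_lit 1558) (nat_lit 6) (nat_lit 8))
    (@En.n l10903 (nat_lit 1562) (nat_lit 1) (nat_lit 14))
    (@En.n l6487 (nat_lit 1907) (nat_lit 2) (nat_lit 5))
    (@En.n l1098 (nat_lit 619) (nat_lit 3) (nat_lit 11))
    (@En.i (nat_lit 1053) (nat_lit 4) (nat_lit 6))
    (@En.n l152 (nat_lit 1634) (nat_lit 5) (nat_lit 7))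
    (@En.n l2225 (nat_lit 7683) (nat_lit 6) (nat_lit 7))
    (@En.i (nat_lit 13721) (nat_lit 7) (nat_lit 11))
    (@En.n l2228 (nat_lit 7552) (nat_lit 9) (nat_lit 8))
    (@En.n l11 (nat_lit 1555) (nat_lit 9) (nat_lit 2))
    (@En.n l3279 (nat_lit 1551) (nat_lit 11) (nat_lit 10))
    (@En.n l20949 (nat_lit 1457) (nat_lit 12) (nat_lit 14))
    (@En.n l10002 (nat_lit 1561) (nat_lit 13) (nat_lit 9))
    (@En.n l11726 (nat_lit 1427) (nat_lit 3) (nat_lit 9))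
    (@En.i (nat_lit 1702) (nat_lit 4) (nat_lit 5))
    (@En.n l17 (nat_lit 1555) (nat_lit 15) (nat_lit 2))))
  (@Cl.mk (nat_lit 0x200050009000e000a0002000b0008000b000700060005000b0005000e0008) (nat_lit 0x6c805000005006) (nat_lit 16) Lb.e (@T16.mk En
    (@En.i (nat_lit 1565) (nat_lit 5) (nat_lit 8))
    (@En.n l19854 (nat_lit 1564) (nat_lit 1) (nat_lit 14))
    (@En.n l8417 (nat_lit 1860) (nat_lit 2) (nat_lit 5))
    (@En.n l890 (nat_lit 1453) (nat_lit 9) (nat_lit 11))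
    (@En.n l12662 (nat_lit 1058) (nat_lit 4) (nat_lit 5))
    (@En.i (nat_lit 1172) (nat_lit 5) (nat_lit 6))
    (@En.n l19855 (nat_lit 6294) (nat_lit 6) (nat_lit 7))
    (@En.i (nat_lit 13717) (nat_lit 7) (nat_lit 11))
    (@En.n l890 (nat_lit 6193) (nat_lit 14) (nat_lit 8))
    (@En.n l476 (nat_lit 1480) (nat_lit 10) (nat_lit 11))
    (@En.n l67 (nat_lit 1556) (nat_lit 10) (nat_lit 2))
    (@En.n l68 (nat_lit 1551) (nat_lit 12) (nat_lit 10))
    (@En.n l4547 (nat_lit 1586) (nat_lit 13) (nat_lit 14))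
    (@En.n l4548 (nat_lit 1401) (nat_lit 14) (nat_lit 9))
    (@En.i (nat_lit 1570) (nat_lit 13) (nat_lit 5))
    (@En.n l17 (nat_lit 1556) (nat_lit 15) (nat_lit 2))))
  (@Cl.mk (nat_lit 0x2000900090009000900090007000a000700070007000700070006000e0009) (nat_lit 0x52340000000000) (nat_lit 16) Lb.e (@T16.mk En
    (@En.n l26621 (nat_lit 1660) (nat_lit 14) (nat_lit 9))
    (@En.n l26622 (nat_lit 1619) (nat_lit 1) (nat_lit 14))
    (@En.n l10001 (nat_lit 1577) (nat_lit 2) (nat_lit 6))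
    (@En.n l12813 (nat_lit 1907) (nat_lit 3) (nat_lit 7))
    (@En.n l12819 (nat_lit 1860) (nat_lit 4) (nat_lit 7))
    (@En.n l77 (nat_lit 1992) (nat_lit 5) (nat_lit 7))
    (@En.n l55 (nat_lit 1870) (nat_lit 9) (nat_lit 7))
    (@En.i (nat_lit 443) (nat_lit 7) (nat_lit 7))
    (@En.n l357 (nat_lit 12911) (nat_lit 8) (nat_lit 10))
    (@En.n l26623 (nat_lit 3148) (nat_lit 10) (nat_lit 7))
    (@En.n l742 (nat_lit 1932) (nat_lit 7) (nat_lit 9))
    (@En.n l396 (nat_lit 1974) (nat_lit 7) (nat_lit 9))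
    (@En.n l6367 (nat_lit 1903) (nat_lit 7) (nat_lit 9))
    (@En.n l12814 (nat_lit 1858) (nat_lit 7) (nat_lit 9))
    (@En.n l23000 (nat_lit 3153) (nat_lit 4) (nat_lit 9))
    (@En.n l107 (nat_lit 1557) (nat_lit 15) (nat_lit 2))))
  (@Cl.mk (nat_lit 0x200080008000b000800080007000c000500080008000400080008000e0009) (nat_lit 0x113606050056a2) (nat_lit 16) Lb.e (@T16.mk En
    (@En.n l29850 (nat_lit 1550) (nat_lit 12) (nat_lit 9))
    (@En.n l29851 (nat_lit 1460) (nat_lit 1) (nat_lit 14))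
    (@En.n l29852 (nat_lit 1560) (nat_lit 2) (nat_lit 8))
    (@En.i (nat_lit 1428) (nat_lit 3) (nat_lit 8))
    (@En.n l15217 (nat_lit 1694) (nat_lit 4) (nat_lit 4))
    (@En.n l29853 (nat_lit 1696) (nat_lit 8) (nat_lit 8))
    (@En.n l29854 (nat_lit 1692) (nat_lit 6) (nat_lit 8))
    (@En.n l18290 (nat_lit 1906) (nat_lit 7) (nat_lit 5))
    (@En.n l29855 (nat_lit 620) (nat_lit 9) (nat_lit 12))
    (@En.n l29856 (nat_lit 1055) (nat_lit 9) (nat_lit 7))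
    (@En.n l15218 (nat_lit 1631) (nat_lit 11) (nat_lit 8))
    (@En.n l29857 (nat_lit 6566) (nat_lit 12) (nat_lit 8))
    (@En.n l29858 (nat_lit 1555) (nat_lit 7) (nat_lit 11))
    (@En.n l29859 (nat_lit 1555) (nat_lit 8) (nat_lit 8))
    (@En.n l29860 (nat_lit 7553) (nat_lit 6) (nat_lit 8))
    (@En.n l28 (nat_lit 1558) (nat_lit 15) (nat_lit 2))))
  (@Cl.mk (nat_lit 0x200080008000c0007000a000a0004000900080008000600060009000e0007) (nat_lit 0x328070050300130) (nat_lit 16) Lb.e (@T16.mk En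
    (@En.n l18666 (nat_lit 1550) (nat_lit 7) (nat_lit 7))
    (@En.n l18667 (nat_lit 11644) (nat_lit 1) (nat_lit 14))
    (@En.n l18668 (nat_lit 1554) (nat_lit 9) (nat_lit 9))
    (@En.n l18669 (nat_lit 1554) (nat_lit 10) (nat_lit 6))
    (@En.n l8389 (nat_lit 6661) (nat_lit 4) (nat_lit 6))
    (@En.n l18670 (nat_lit 1532) (nat_lit 8) (nat_lit 8))
    (@En.n l3571 (nat_lit 1848) (nat_lit 6) (nat_lit 8))
    (@En.n l8389 (nat_lit 7751) (nat_lit 8) (nat_lit 9))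
    (@En.n l18671 (nat_lit 1681) (nat_lit 8) (nat_lit 4))
    (@En.n l3087 (nat_lit 1844) (nat_lit 10) (nat_lit 10))
    (@En.i (nat_lit 1687) (nat_lit 11) (nat_lit 10))
    (@En.n l18672 (nat_lit 1904) (nat_lit 12) (nat_lit 7))
    (@En.n l18673 (nat_lit 1536) (nat_lit 13) (nat_lit 12))
    (@En.n l18674 (nat_lit 1560) (nat_lit 8) (nat_lit 8))
    (@En.n l18675 (nat_lit 1580) (nat_lit 5) (nat_lit 8))
    (@En.n l67 (nat_lit 1559) (nat_lit 15) (nat_lit 2))))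
  (@Cl.mk (nat_lit 0x200070007000a000e000800020008000c00060009000900040008000e0008) (nat_lit 0x540170600591) (nat_lit 16) Lb.e (@T16.mk En
    (@En.n l18008 (nat_lit 1559) (nat_lit 6) (nat_lit 8))
    (@En.n l3546 (nat_lit 4951) (nat_lit 8) (nat_lit 14))
    (@En.n l5790 (nat_lit 6053) (nat_lit 2) (nat_lit 8))
    (@En.n l8855 (nat_lit 1688) (nat_lit 3) (nat_lit 4))
    (@En.n l18009 (nat_lit 1700) (nat_lit 11) (nat_lit 9))
    (@En.n l18010 (nat_lit 1697) (nat_lit 5) (nat_lit 9))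
    (@En.n l18011 (nat_lit 1901) (nat_lit 6) (nat_lit 6))
    (@En.n l18012 (nat_lit 1353) (nat_lit 8) (nat_lit 12))
    (@En.n l7597 (nat_lit 1041) (nat_lit 9) (nat_lit 8))
    (@En.n l725 (nat_lit 1560) (nat_lit 9) (nat_lit 2))
    (@En.n l18013 (nat_lit 1558) (nat_lit 11) (nat_lit 8))
    (@En.n l5790 (nat_lit 10789) (nat_lit 12) (nat_lit 14))
    (@En.n l7 (nat_lit 1561) (nat_lit 8) (nat_lit 10))
    (@En.n l644 (nat_lit 1561) (nat_lit 9) (nat_lit 7))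
    (@En.n l1081 (nat_lit 10869) (nat_lit 4) (nat_lit 7))
    (@En.n l3 (nat_lit 1560) (nat_lit 15) (nat_lit 2))))
  (@Cl.mk (nat_lit 0x200050009000e000900020007000a000e000700020007000b0006000e0009) (nat_lit 0x6b100840006007) (nat_lit 16) Lb.e (@T16.mk En
    (@En.i (nat_lit 1560) (nat_lit 5) (nat_lit 9))
    (@En.n l17466 (nat_lit 1900) (nat_lit 12) (nat_lit 14))
    (@En.n l3561 (nat_lit 1902) (nat_lit 7) (nat_lit 6))
    (@En.n l7607 (nat_lit 1886) (nat_lit 3) (nat_lit 11))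
    (@En.n l7597 (nat_lit 1040) (nat_lit 4) (nat_lit 7))
    (@En.n l725 (nat_lit 1561) (nat_lit 5) (nat_lit 2))
    (@En.n l3564 (nat_lit 1555) (nat_lit 6) (nat_lit 7))
    (@En.i (nat_lit 11368) (nat_lit 8) (nat_lit 14))
    (@En.n l7597 (nat_lit 13597) (nat_lit 8) (nat_lit 10))
    (@En.n l1081 (nat_lit 10866) (nat_lit 3) (nat_lit 7))
    (@En.n l3 (nat_lit 1561) (nat_lit 10) (nat_lit 2))
    (@En.n l2519 (nat_lit 1554) (nat_lit 12) (nat_lit 9))
    (@En.n l1718 (nat_lit 5023) (nat_lit 13) (nat_lit 14))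
    (@En.n l5791 (nat_lit 6055) (nat_lit 2) (nat_lit 9))
    (@En.i (nat_lit 1914) (nat_lit 3) (nat_lit 5))
    (@En.n l50 (nat_lit 1561) (nat_lit 15) (nat_lit 2))))
  (@Cl.mk (nat_lit 0x20008000500090009000e000a000200090008000700070006000b000e0007) (nat_lit 0x1067b1001000570) (nat_lit 16) Lb.e (@T16.mk En
    (@En.n l15847 (nat_lit 1691) (nat_lit 7) (nat_lit 7))
    (@En.i (nat_lit 2112) (nat_lit 4) (nat_lit 14))
    (@En.n l15848 (nat_lit 614) (nat_lit 2) (nat_lit 11))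
    (@En.n l1044 (nat_lit 1051) (nat_lit 3) (nat_lit 6))
    (@En.n l15849 (nat_lit 1632) (nat_lit 4) (nat_lit 7))
    (@En.i (nat_lit 7682) (nat_lit 13) (nat_lit 7))
    (@En.n l15850 (nat_lit 626) (nat_lit 6) (nat_lit 8))
    (@En.n l15851 (nat_lit 10861) (nat_lit 8) (nat_lit 9))
    (@En.n l7 (nat_lit 1562) (nat_lit 8) (nat_lit 2))
    (@En.n l15852 (nat_lit 443) (nat_lit 10) (nat_lit 10))
    (@En.n l15853 (nat_lit 1458) (nat_lit 11) (nat_lit 14))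
    (@En.n l15854 (nat_lit 1900) (nat_lit 7) (nat_lit 9))
    (@En.n l359 (nat_lit 1633) (nat_lit 3) (nat_lit 9))
    (@En.n l10215 (nat_lit 1555) (nat_lit 14) (nat_lit 5))
    (@En.n l15855 (nat_lit 1558) (nat_lit 5) (nat_lit 8))
    (@En.n l17 (nat_lit 1562) (nat_lit 15) (nat_lit 2))))
  (@Cl.mk (nat_lit 0x200070007000b000e00090002000a0005000a0009000900070006000e0006) (nat_lit 0x7c701080300c0) (nat_lit 16) Lb.e (@T16.mk En
    (@En.n l6979 (nat_lit 443) (nat_lit 6) (nat_lit 6))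
    (@En.n l9515 (nat_lit 11345) (nat_lit 8) (nat_lit 14))
    (@En.i (nat_lit 669) (nat_lit 2) (nat_lit 6))
    (@En.n l9516 (nat_lit 6663) (nat_lit 3) (nat_lit 7))
    (@En.n l61 (nat_lit 1928) (nat_lit 11) (nat_lit 9))
    (@En.n l764 (nat_lit 2194) (nat_lit 5) (nat_lit 9))
    (@En.n l3298 (nat_lit 7158) (nat_lit 13) (nat_lit 10))
    (@En.n l159 (nat_lit 1554) (nat_lit 14) (nat_lit 5))
    (@En.n l7992 (nat_lit 1559) (nat_lit 9) (nat_lit 10))
    (@En.n l107 (nat_lit 1563) (nat_lit 9) (nat_lit 2))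
    (@En.n l9517 (nat_lit 1683) (nat_lit 11) (nat_lit 9))
    (@En.n l2094 (nat_lit 2110) (nat_lit 12) (nat_lit 14))
    (@En.n l4793 (nat_lit 1451) (nat_lit 13) (nat_lit 11))
    (@En.n l7696 (nat_lit 1900) (nat_lit 14) (nat_lit 7))
    (@En.n l6984 (nat_lit 494) (nat_lit 4) (nat_lit 7))
    (@En.n l50 (nat_lit 1563) (nat_lit 15) (nat_lit 2))))
  (@Cl.mk (nat_lit 0x2000800050009000e000a0002000b00090008000700060005000b000e0007) (nat_lit 0x61105010005c0) (nat_lit 16) Lb.e (@T16.mk En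
    (@En.n l22337 (nat_lit 1566) (nat_lit 6) (nat_lit 7))
    (@En.i (nat_lit 1944) (nat_lit 4) (nat_lit 14))
    (@En.n l22338 (nat_lit 1452) (nat_lit 9) (nat_lit 11))
    (@En.n l6632 (nat_lit 1054) (nat_lit 3) (nat_lit 5))
    (@En.n l19022 (nat_lit 1132) (nat_lit 4) (nat_lit 6))
    (@En.i (nat_lit 6293) (nat_lit 12) (nat_lit 7))
    (@En.n l1034 (nat_lit 500) (nat_lit 6) (nat_lit 8))
    (@En.n l9729 (nat_lit 6191) (nat_lit 14) (nat_lit 9))
    (@En.n l22339 (nat_lit 952) (nat_lit 9) (nat_lit 11))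
    (@En.n l28 (nat_lit 1564) (nat_lit 9) (nat_lit 2))
    (@En.n l2081 (nat_lit 443) (nat_lit 11) (nat_lit 10))
    (@En.n l22340 (nat_lit 496) (nat_lit 12) (nat_lit 14))
    (@En.n l13291 (nat_lit 1649) (nat_lit 13) (nat_lit 9))
    (@En.n l9731 (nat_lit 1556) (nat_lit 14) (nat_lit 5))
    (@En.n l19944 (nat_lit 1565) (nat_lit 4) (nat_lit 8))
    (@En.n l17 (nat_lit 1564) (nat_lit 15) (nat_lit 2))))
  (@Cl.mk (nat_lit 0x2000a00080008000b000800070006000c00050008000800040008000e0009) (nat_lit 0x5011000505605c7) (nat_lit 16) Lb.e (@T16.mk En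
    (@En.n l68 (nat_lit 1550) (nat_lit 13) (nat_lit 9))
    (@En.n l4547 (nat_lit 1582) (nat_lit 1) (nat_lit 14))
    (@En.n l4548 (nat_lit 1516) (nat_lit 2) (nat_lit 8))
    (@En.n l12666 (nat_lit 1569) (nat_lit 3) (nat_lit 4))
    (@En.n l15609 (nat_lit 1578) (nat_lit 4) (nat_lit 8))
    (@En.n l15403 (nat_lit 1574) (nat_lit 10) (nat_lit 8))
    (@En.n l15610 (nat_lit 1862) (nat_lit 6) (nat_lit 5))
    (@En.n l890 (nat_lit 1294) (nat_lit 8) (nat_lit 12))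
    (@En.n l12662 (nat_lit 1059) (nat_lit 8) (nat_lit 6))
    (@En.i (nat_lit 1128) (nat_lit 9) (nat_lit 7))
    (@En.n l15611 (nat_lit 7144) (nat_lit 11) (nat_lit 8))
    (@En.n l18 (nat_lit 1556) (nat_lit 7) (nat_lit 11))
    (@En.n l61 (nat_lit 1556) (nat_lit 8) (nat_lit 8))
    (@En.n l890 (nat_lit 6194) (nat_lit 14) (nat_lit 8))
    (@En.n l476 (nat_lit 1481) (nat_lit 11) (nat_lit 10))
    (@En.n l67 (nat_lit 1565) (nat_lit 15) (nat_lit 2))))
  (@Cl.mk (nat_lit 0x2000a000900090009000800070006000c00070007000700040008000e0009) (nat_lit 0x5012600300005c7) (nat_lit 16) Lb.e (@T16.mk En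
    (@En.n l22316 (nat_lit 1419) (nat_lit 13) (nat_lit 9))
    (@En.n l1596 (nat_lit 1590) (nat_lit 1) (nat_lit 14))
    (@En.n l22317 (nat_lit 1575) (nat_lit 2) (nat_lit 8))
    (@En.n l7963 (nat_lit 1565) (nat_lit 3) (nat_lit 4))
    (@En.n l601 (nat_lit 1574) (nat_lit 9) (nat_lit 7))
    (@En.n l77 (nat_lit 1568) (nat_lit 5) (nat_lit 7))
    (@En.n l6064 (nat_lit 1904) (nat_lit 6) (nat_lit 7))
    (@En.n l22318 (nat_lit 1410) (nat_lit 8) (nat_lit 12))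
    (@En.n l631 (nat_lit 345) (nat_lit 8) (nat_lit 6))
    (@En.i (nat_lit 1130) (nat_lit 9) (nat_lit 7))
    (@En.n l22319 (nat_lit 7146) (nat_lit 11) (nat_lit 8))
    (@En.n l15696 (nat_lit 1567) (nat_lit 7) (nat_lit 9))
    (@En.n l22320 (nat_lit 1564) (nat_lit 7) (nat_lit 9))
    (@En.n l22317 (nat_lit 6196) (nat_lit 14) (nat_lit 9))
    (@En.n l22321 (nat_lit 950) (nat_lit 11) (nat_lit 10))
    (@En.n l67 (nat_lit 1566) (nat_lit 15) (nat_lit 2))))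
  (@Cl.mk (nat_lit 0x200050009000e000a0002000b000a0009000700060005000b0006000e0007) (nat_lit 0x61806010003000) (nat_lit 16) Lb.e (@T16.mk En
    (@En.n l9716 (nat_lit 1566) (nat_lit 5) (nat_lit 7))
    (@En.n l396 (nat_lit 1570) (nat_lit 1) (nat_lit 14))
    (@En.n l28 (nat_lit 1909) (nat_lit 2) (nat_lit 6))
    (@En.n l2106 (nat_lit 1662) (nat_lit 3) (nat_lit 11))
    (@En.n l9717 (nat_lit 335) (nat_lit 4) (nat_lit 5))
    (@En.i (nat_lit 1135) (nat_lit 5) (nat_lit 6))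
    (@En.n l1652 (nat_lit 7642) (nat_lit 6) (nat_lit 7))
    (@En.n l644 (nat_lit 442) (nat_lit 13) (nat_lit 9))
    (@En.n l77 (nat_lit 7150) (nat_lit 9) (nat_lit 10))
    (@En.n l476 (nat_lit 949) (nat_lit 10) (nat_lit 11))
    (@En.n l67 (nat_lit 1567) (nat_lit 10) (nat_lit 2))
    (@En.n l68 (nat_lit 1571) (nat_lit 12) (nat_lit 10))
    (@En.n l4547 (nat_lit 497) (nat_lit 13) (nat_lit 14))
    (@En.n l9717 (nat_lit 1568) (nat_lit 14) (nat_lit 9))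
    (@En.n l1652 (nat_lit 1564) (nat_lit 13) (nat_lit 5))
    (@En.n l18 (nat_lit 1567) (nat_lit 15) (nat_lit 2))))
noncomputable def a98 : T16 Cl := @T16.mk Cl
  (@Cl.mk (nat_lit 0x20009000e00090002000a000900080007000d0007000600030007000e0008) (nat_lit 0x5610301070000c6) (nat_lit 16) Lb.e (@T16.mk En
    (@En.n l7967 (nat_lit 1575) (nat_lit 4) (nat_lit 8))
    (@En.n l1596 (nat_lit 1704) (nat_lit 6) (nat_lit 14))
    (@En.n l7008 (nat_lit 1686) (nat_lit 2) (nat_lit 7))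
    (@En.n l7704 (nat_lit 1578) (nat_lit 3) (nat_lit 3))
    (@En.i (nat_lit 2922) (nat_lit 0) (nat_lit 6))
    (@En.n l14510 (nat_lit 3162) (nat_lit 5) (nat_lit 7))
    (@En.n l7966 (nat_lit 1287) (nat_lit 7) (nat_lit 13))
    (@En.n l2092 (nat_lit 1593) (nat_lit 7) (nat_lit 7))
    (@En.i (nat_lit 1125) (nat_lit 13) (nat_lit 8))
    (@En.n l7967 (nat_lit 7145) (nat_lit 14) (nat_lit 9))
    (@En.n l50 (nat_lit 1569) (nat_lit 11) (nat_lit 10))
    (@En.n l7 (nat_lit 1568) (nat_lit 11) (nat_lit 2))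
    (@En.i (nat_lit 1566) (nat_lit 13) (nat_lit 9))
    (@En.n l7704 (nat_lit 7721) (nat_lit 1) (nat_lit 14))
    (@En.n l476 (nat_lit 1486) (nat_lit 2) (nat_lit 9))
    (@En.n l67 (nat_lit 1568) (nat_lit 15) (nat_lit 2))))
  (@Cl.mk (nat_lit 0x2000a0007000a000a000800070006000c00060006000900040008000e0009) (nat_lit 0x5012000300005c7) (nat_lit 16) Lb.e (@T16.mk En
    (@En.n l26438 (nat_lit 1572) (nat_lit 13) (nat_lit 9))
    (@En.n l1596 (nat_lit 1705) (nat_lit 1) (nat_lit 14))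
    (@En.n l26439 (nat_lit 1588) (nat_lit 2) (nat_lit 8))
    (@En.n l5834 (nat_lit 1566) (nat_lit 3) (nat_lit 4))
    (@En.n l7 (nat_lit 1573) (nat_lit 4) (nat_lit 9))
    (@En.n l644 (nat_lit 1573) (nat_lit 5) (nat_lit 6))
    (@En.n l5838 (nat_lit 3161) (nat_lit 6) (nat_lit 6))
    (@En.n l26440 (nat_lit 427) (nat_lit 8) (nat_lit 12))
    (@En.n l19318 (nat_lit 342) (nat_lit 8) (nat_lit 6))
    (@En.i (nat_lit 1139) (nat_lit 9) (nat_lit 7))
    (@En.n l26441 (nat_lit 7520) (nat_lit 11) (nat_lit 8))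
    (@En.n l16140 (nat_lit 1570) (nat_lit 6) (nat_lit 10))
    (@En.n l16141 (nat_lit 1567) (nat_lit 8) (nat_lit 10))
    (@En.n l23059 (nat_lit 4762) (nat_lit 14) (nat_lit 7))
    (@En.n l26442 (nat_lit 1494) (nat_lit 11) (nat_lit 10))
    (@En.n l67 (nat_lit 1569) (nat_lit 15) (nat_lit 2))))
  (@Cl.mk (nat_lit 0x2000900050009000e000a0002000b0007000a000700060005000b000e0006) (nat_lit 0x105c801010003c0) (nat_lit 16) Lb.e (@T16.mk En
    (@En.n l12661 (nat_lit 1569) (nat_lit 6) (nat_lit 6))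
    (@En.i (nat_lit 5251) (nat_lit 4) (nat_lit 14))
    (@En.n l890 (nat_lit 1663) (nat_lit 9) (nat_lit 11))
    (@En.n l12662 (nat_lit 341) (nat_lit 3) (nat_lit 5))
    (@En.i (nat_lit 1138) (nat_lit 4) (nat_lit 6))
    (@En.n l12663 (nat_lit 7644) (nat_lit 5) (nat_lit 7))
    (@En.i (nat_lit 501) (nat_lit 8) (nat_lit 10))
    (@En.n l4316 (nat_lit 4761) (nat_lit 14) (nat_lit 7))
    (@En.n l12664 (nat_lit 429) (nat_lit 9) (nat_lit 11))
    (@En.n l67 (nat_lit 1570) (nat_lit 9) (nat_lit 2))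
    (@En.n l68 (nat_lit 1576) (nat_lit 11) (nat_lit 10))
    (@En.n l12665 (nat_lit 1709) (nat_lit 12) (nat_lit 14))
    (@En.n l12663 (nat_lit 1704) (nat_lit 2) (nat_lit 9))
    (@En.n l699 (nat_lit 1567) (nat_lit 14) (nat_lit 5))
    (@En.n l12666 (nat_lit 1569) (nat_lit 4) (nat_lit 9))
    (@En.n l50 (nat_lit 1570) (nat_lit 15) (nat_lit 2))))
  (@Cl.mk (nat_lit 0x20005000a000a000a000a000900080006000600060006000b0007000e0008) (nat_lit 0x67050100004001) (nat_lit 16) Lb.e (@T16.mk En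
    (@En.n l9704 (nat_lit 1419) (nat_lit 1) (nat_lit 8))
    (@En.n l396 (nat_lit 1576) (nat_lit 1) (nat_lit 14))
    (@En.i (nat_lit 1659) (nat_lit 2) (nat_lit 7))
    (@En.n l4411 (nat_lit 1418) (nat_lit 3) (nat_lit 11))
    (@En.n l9705 (nat_lit 1701) (nat_lit 4) (nat_lit 6))
    (@En.n l11 (nat_lit 1567) (nat_lit 5) (nat_lit 6))
    (@En.n l4976 (nat_lit 1608) (nat_lit 6) (nat_lit 6))
    (@En.n l9706 (nat_lit 7643) (nat_lit 7) (nat_lit 6))
    (@En.n l644 (nat_lit 435) (nat_lit 8) (nat_lit 8))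
    (@En.n l77 (nat_lit 5314) (nat_lit 10) (nat_lit 9))
    (@En.n l55 (nat_lit 1607) (nat_lit 11) (nat_lit 10))
    (@En.n l9707 (nat_lit 1762) (nat_lit 12) (nat_lit 10))
    (@En.n l3419 (nat_lit 1682) (nat_lit 13) (nat_lit 10))
    (@En.n l9708 (nat_lit 1566) (nat_lit 14) (nat_lit 10))
    (@En.n l5148 (nat_lit 443) (nat_lit 13) (nat_lit 5))
    (@En.n l18 (nat_lit 1571) (nat_lit 15) (nat_lit 2))))
  (@Cl.mk (nat_lit 0x400090009000900090006000900090007000700070007000c00070007000a) (nat_lit 0x560701200006000) (nat_lit 16) Lb.e (@T16.mk En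
    (@En.n l23147 (nat_lit 1577) (nat_lit 8) (nat_lit 10))
    (@En.n l23148 (nat_lit 1577) (nat_lit 9) (nat_lit 7))
    (@En.n l23149 (nat_lit 3153) (nat_lit 7) (nat_lit 7))
    (@En.n l890 (nat_lit 955) (nat_lit 8) (nat_lit 12))
    (@En.n l23150 (nat_lit 1694) (nat_lit 9) (nat_lit 7))
    (@En.n l23151 (nat_lit 1569) (nat_lit 9) (nat_lit 7))
    (@En.n l23152 (nat_lit 1621) (nat_lit 9) (nat_lit 7))
    (@En.n l9706 (nat_lit 7522) (nat_lit 7) (nat_lit 7))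
    (@En.n l644 (nat_lit 1576) (nat_lit 7) (nat_lit 9))
    (@En.i (nat_lit 1571) (nat_lit 9) (nat_lit 9))
    (@En.n l4316 (nat_lit 1643) (nat_lit 10) (nat_lit 6))
    (@En.n l8390 (nat_lit 1506) (nat_lit 7) (nat_lit 9))
    (@En.n l9707 (nat_lit 1763) (nat_lit 7) (nat_lit 9))
    (@En.n l3419 (nat_lit 1681) (nat_lit 7) (nat_lit 9))
    (@En.n l23153 (nat_lit 1420) (nat_lit 11) (nat_lit 9))
    (@En.n l23154 (nat_lit 1419) (nat_lit 15) (nat_lit 4))))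
  (@Cl.mk (nat_lit 0x200090007000e000a0002000900080007000d0006000900030007000e0008) (nat_lit 0x5072001050700c6) (nat_lit 16) Lb.e (@T16.mk En
    (@En.n l477 (nat_lit 1577) (nat_lit 5) (nat_lit 8))
    (@En.n l1596 (nat_lit 1707) (nat_lit 7) (nat_lit 14))
    (@En.n l7010 (nat_lit 1714) (nat_lit 2) (nat_lit 7))
    (@En.n l2364 (nat_lit 1574) (nat_lit 8) (nat_lit 3))
    (@En.n l4804 (nat_lit 12960) (nat_lit 9) (nat_lit 9))
    (@En.n l7010 (nat_lit 3160) (nat_lit 5) (nat_lit 6))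
    (@En.n l618 (nat_lit 423) (nat_lit 7) (nat_lit 13))
    (@En.n l1448 (nat_lit 1595) (nat_lit 7) (nat_lit 7))
    (@En.i (nat_lit 1312) (nat_lit 14) (nat_lit 8))
    (@En.n l1448 (nat_lit 7519) (nat_lit 10) (nat_lit 9))
    (@En.n l50 (nat_lit 1573) (nat_lit 10) (nat_lit 2))
    (@En.i (nat_lit 1569) (nat_lit 12) (nat_lit 10))
    (@En.n l601 (nat_lit 1568) (nat_lit 13) (nat_lit 14))
    (@En.n l23059 (nat_lit 4766) (nat_lit 14) (nat_lit 7))
    (@En.n l476 (nat_lit 1497) (nat_lit 3) (nat_lit 9))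
    (@En.n l67 (nat_lit 1573) (nat_lit 15) (nat_lit 2))))
  (@Cl.mk (nat_lit 0x2000900080007000d0008000700030007000e0008000200090008000e0009) (nat_lit 0x10540000605092) (nat_lit 16) Lb.e (@T16.mk En
    (@En.n l7 (nat_lit 1566) (nat_lit 12) (nat_lit 9))
    (@En.n l15843 (nat_lit 1578) (nat_lit 13) (nat_lit 14))
    (@En.n l21534 (nat_lit 6478) (nat_lit 2) (nat_lit 8))
    (@En.n l21535 (nat_lit 1487) (nat_lit 3) (nat_lit 9))
    (@En.n l67 (nat_lit 1574) (nat_lit 4) (nat_lit 2))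
    (@En.n l21536 (nat_lit 1690) (nat_lit 5) (nat_lit 8))
    (@En.n l1596 (nat_lit 1732) (nat_lit 7) (nat_lit 14))
    (@En.n l21537 (nat_lit 1521) (nat_lit 2) (nat_lit 7))
    (@En.n l763 (nat_lit 1573) (nat_lit 3) (nat_lit 3))
    (@En.i (nat_lit 2923) (nat_lit 0) (nat_lit 7))
    (@En.n l21538 (nat_lit 1903) (nat_lit 5) (nat_lit 8))
    (@En.n l21539 (nat_lit 417) (nat_lit 7) (nat_lit 13))
    (@En.n l14174 (nat_lit 1594) (nat_lit 7) (nat_lit 7))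
    (@En.i (nat_lit 1098) (nat_lit 14) (nat_lit 8))
    (@En.n l16224 (nat_lit 7518) (nat_lit 10) (nat_lit 9))
    (@En.n l50 (nat_lit 1574) (nat_lit 15) (nat_lit 2))))
  (@Cl.mk (nat_lit 0x200090008000800080008000d0008000700030008000800080008000e0008) (nat_lit 0x306238600451451) (nat_lit 16) Lb.e (@T16.mk En
    (@En.n l8668 (nat_lit 1419) (nat_lit 10) (nat_lit 8))
    (@En.n l6482 (nat_lit 8103) (nat_lit 1) (nat_lit 14))
    (@En.n l18784 (nat_lit 1527) (nat_lit 2) (nat_lit 8))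
    (@En.i (nat_lit 1521) (nat_lit 3) (nat_lit 8))
    (@En.n l18785 (nat_lit 1686) (nat_lit 4) (nat_lit 8))
    (@En.n l8662 (nat_lit 1683) (nat_lit 5) (nat_lit 8))
    (@En.n l18786 (nat_lit 1519) (nat_lit 6) (nat_lit 3))
    (@En.n l18787 (nat_lit 2919) (nat_lit 0) (nat_lit 7))
    (@En.n l18788 (nat_lit 3149) (nat_lit 9) (nat_lit 8))
    (@En.n l16749 (nat_lit 1396) (nat_lit 10) (nat_lit 13))
    (@En.n l2687 (nat_lit 1695) (nat_lit 11) (nat_lit 8))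
    (@En.n l18787 (nat_lit 1568) (nat_lit 8) (nat_lit 8))
    (@En.n l18789 (nat_lit 1649) (nat_lit 8) (nat_lit 8))
    (@En.i (nat_lit 5910) (nat_lit 14) (nat_lit 8))
    (@En.n l18790 (nat_lit 1572) (nat_lit 8) (nat_lit 9))
    (@En.n l3 (nat_lit 1575) (nat_lit 15) (nat_lit 2))))
  (@Cl.mk (nat_lit 0x2000a0005000a000a000a000a000600090006000600060006000b000e0007) (nat_lit 0x1067080100004c0) (nat_lit 16) Lb.e (@T16.mk En
    (@En.i (nat_lit 1572) (nat_lit 2) (nat_lit 7))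
    (@En.i (nat_lit 4779) (nat_lit 4) (nat_lit 14))
    (@En.n l890 (nat_lit 961) (nat_lit 2) (nat_lit 11))
    (@En.n l218 (nat_lit 1702) (nat_lit 10) (nat_lit 6))
    (@En.n l11 (nat_lit 1570) (nat_lit 4) (nat_lit 6))
    (@En.n l4976 (nat_lit 1623) (nat_lit 5) (nat_lit 6))
    (@En.n l22067 (nat_lit 7645) (nat_lit 6) (nat_lit 6))
    (@En.i (nat_lit 436) (nat_lit 9) (nat_lit 9))
    (@En.n l4316 (nat_lit 1647) (nat_lit 8) (nat_lit 6))
    (@En.n l8390 (nat_lit 1676) (nat_lit 10) (nat_lit 10))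
    (@En.n l22068 (nat_lit 1764) (nat_lit 6) (nat_lit 10))
    (@En.n l10815 (nat_lit 1680) (nat_lit 6) (nat_lit 10))
    (@En.n l19119 (nat_lit 1590) (nat_lit 13) (nat_lit 10))
    (@En.n l699 (nat_lit 1571) (nat_lit 14) (nat_lit 5))
    (@En.n l6042 (nat_lit 1572) (nat_lit 0) (nat_lit 10))
    (@En.n l50 (nat_lit 1576) (nat_lit 15) (nat_lit 2))))
  (@Cl.mk (nat_lit 0x20008000800080008000d0007000a000300080008000800080006000e0009) (nat_lit 0x2260804505062) (nat_lit 16) Lb.e (@T16.mk En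
    (@En.n l10049 (nat_lit 1572) (nat_lit 9) (nat_lit 9))
    (@En.n l10050 (nat_lit 1575) (nat_lit 1) (nat_lit 14))
    (@En.n l4780 (nat_lit 1646) (nat_lit 2) (nat_lit 6))
    (@En.n l10051 (nat_lit 1505) (nat_lit 3) (nat_lit 8))
    (@En.n l3555 (nat_lit 1765) (nat_lit 4) (nat_lit 8))
    (@En.n l10052 (nat_lit 1684) (nat_lit 8) (nat_lit 8))
    (@En.n l3553 (nat_lit 1591) (nat_lit 6) (nat_lit 8))
    (@En.n l10053 (nat_lit 1690) (nat_lit 7) (nat_lit 3))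
    (@En.n l5065 (nat_lit 12910) (nat_lit 8) (nat_lit 10))
    (@En.n l3553 (nat_lit 3157) (nat_lit 10) (nat_lit 7))
    (@En.n l524 (nat_lit 956) (nat_lit 11) (nat_lit 13))
    (@En.n l575 (nat_lit 1693) (nat_lit 8) (nat_lit 8))
    (@En.i (nat_lit 1573) (nat_lit 8) (nat_lit 8))
    (@En.n l152 (nat_lit 1622) (nat_lit 14) (nat_lit 8))
    (@En.n l10044 (nat_lit 7521) (nat_lit 6) (nat_lit 8))
    (@En.n l50 (nat_lit 1577) (nat_lit 15) (nat_lit 2))))
  (@Cl.mk (nat_lit 0x20009000e00080002000b000900080007000d0005000800030007000e0008) (nat_lit 0x5810201070500c6) (nat_lit 16) Lb.e (@T16.mk En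
    (@En.n l8215 (nat_lit 1519) (nat_lit 4) (nat_lit 8))
    (@En.n l5 (nat_lit 1579) (nat_lit 1) (nat_lit 14))
    (@En.n l4565 (nat_lit 1391) (nat_lit 2) (nat_lit 7))
    (@En.n l8216 (nat_lit 1568) (nat_lit 3) (nat_lit 3))
    (@En.n l7844 (nat_lit 2924) (nat_lit 0) (nat_lit 8))
    (@En.n l8217 (nat_lit 1865) (nat_lit 5) (nat_lit 5))
    (@En.n l8218 (nat_lit 1291) (nat_lit 7) (nat_lit 13))
    (@En.n l7573 (nat_lit 1592) (nat_lit 7) (nat_lit 7))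
    (@En.n l4405 (nat_lit 1126) (nat_lit 13) (nat_lit 8))
    (@En.n l3832 (nat_lit 7143) (nat_lit 14) (nat_lit 9))
    (@En.n l8219 (nat_lit 1565) (nat_lit 11) (nat_lit 11))
    (@En.n l3 (nat_lit 1578) (nat_lit 11) (nat_lit 2))
    (@En.n l8220 (nat_lit 1565) (nat_lit 13) (nat_lit 8))
    (@En.i (nat_lit 7722) (nat_lit 1) (nat_lit 14))
    (@En.n l8221 (nat_lit 1482) (nat_lit 2) (nat_lit 9))
    (@En.n l17 (nat_lit 1578) (nat_lit 15) (nat_lit 2))))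
  (@Cl.mk (nat_lit 0x2000a0009000e00080002000b000600090007000d000500080003000e0007) (nat_lit 0x580000106050b0) (nat_lit 16) Lb.e (@T16.mk En
    (@En.n l4739 (nat_lit 1581) (nat_lit 5) (nat_lit 7))
    (@En.n l564 (nat_lit 5206) (nat_lit 1) (nat_lit 14))
    (@En.n l19635 (nat_lit 1704) (nat_lit 7) (nat_lit 3))
    (@En.n l4739 (nat_lit 2929) (nat_lit 10) (nat_lit 8))
    (@En.n l2678 (nat_lit 1674) (nat_lit 4) (nat_lit 5))
    (@En.n l11854 (nat_lit 1289) (nat_lit 6) (nat_lit 13))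
    (@En.n l18497 (nat_lit 1329) (nat_lit 6) (nat_lit 7))
    (@En.i (nat_lit 1200) (nat_lit 9) (nat_lit 9))
    (@En.n l1564 (nat_lit 6512) (nat_lit 14) (nat_lit 6))
    (@En.n l19636 (nat_lit 1582) (nat_lit 10) (nat_lit 11))
    (@En.n l3 (nat_lit 1579) (nat_lit 10) (nat_lit 2))
    (@En.n l19637 (nat_lit 1582) (nat_lit 12) (nat_lit 8))
    (@En.i (nat_lit 5348) (nat_lit 13) (nat_lit 14))
    (@En.n l1173 (nat_lit 1389) (nat_lit 14) (nat_lit 9))
    (@En.n l4738 (nat_lit 1581) (nat_lit 3) (nat_lit 10))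
    (@En.n l18 (nat_lit 1579) (nat_lit 15) (nat_lit 2))))
  (@Cl.mk (nat_lit 0x400080008000b000900070007000a0005000800080007000c000600090009) (nat_lit 0x560400001207067) (nat_lit 16) Lb.e (@T16.mk En
    (@En.n l34424 (nat_lit 1581) (nat_lit 7) (nat_lit 9))
    (@En.n l34425 (nat_lit 1589) (nat_lit 9) (nat_lit 9))
    (@En.n l34426 (nat_lit 1988) (nat_lit 11) (nat_lit 6))
    (@En.n l3548 (nat_lit 1293) (nat_lit 8) (nat_lit 12))
    (@En.n l22078 (nat_lit 1044) (nat_lit 9) (nat_lit 7))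
    (@En.n l3 (nat_lit 1582) (nat_lit 8) (nat_lit 8))
    (@En.n l9697 (nat_lit 1565) (nat_lit 10) (nat_lit 8))
    (@En.n l34427 (nat_lit 6514) (nat_lit 7) (nat_lit 5))
    (@En.n l18 (nat_lit 1585) (nat_lit 8) (nat_lit 10))
    (@En.n l61 (nat_lit 1585) (nat_lit 9) (nat_lit 7))
    (@En.n l5032 (nat_lit 4458) (nat_lit 2) (nat_lit 7))
    (@En.n l34428 (nat_lit 1409) (nat_lit 12) (nat_lit 9))
    (@En.n l34429 (nat_lit 1584) (nat_lit 7) (nat_lit 11))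
    (@En.n l34430 (nat_lit 1584) (nat_lit 8) (nat_lit 8))
    (@En.n l34431 (nat_lit 4654) (nat_lit 11) (nat_lit 8))
    (@En.n l2179 (nat_lit 1708) (nat_lit 15) (nat_lit 4))))
  (@Cl.mk (nat_lit 0x2000a0006000900090008000d00060009000300070007000a0008000e0007) (nat_lit 0x101216060008480) (nat_lit 16) Lb.e (@T16.mk En
    (@En.n l26727 (nat_lit 1580) (nat_lit 10) (nat_lit 7))
    (@En.n l18573 (nat_lit 5346) (nat_lit 1) (nat_lit 14))
    (@En.n l1530 (nat_lit 1394) (nat_lit 2) (nat_lit 8))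
    (@En.n l5496 (nat_lit 1583) (nat_lit 3) (nat_lit 10))
    (@En.n l5337 (nat_lit 1583) (nat_lit 4) (nat_lit 7))
    (@En.n l18566 (nat_lit 4656) (nat_lit 5) (nat_lit 7))
    (@En.n l26728 (nat_lit 1588) (nat_lit 6) (nat_lit 3))
    (@En.i (nat_lit 2930) (nat_lit 0) (nat_lit 9))
    (@En.n l18566 (nat_lit 1987) (nat_lit 8) (nat_lit 6))
    (@En.n l26729 (nat_lit 1290) (nat_lit 10) (nat_lit 13))
    (@En.n l7695 (nat_lit 1181) (nat_lit 11) (nat_lit 8))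
    (@En.n l12437 (nat_lit 1579) (nat_lit 7) (nat_lit 9))
    (@En.n l3858 (nat_lit 1578) (nat_lit 9) (nat_lit 9))
    (@En.n l18575 (nat_lit 6509) (nat_lit 14) (nat_lit 6))
    (@En.n l26730 (nat_lit 1580) (nat_lit 8) (nat_lit 10))
    (@En.n l11 (nat_lit 1581) (nat_lit 15) (nat_lit 2))))
  (@Cl.mk (nat_lit 0x2000b000a00080008000b000500080006000c0005000800080004000e0008) (nat_lit 0x1560901060560b6) (nat_lit 16) Lb.e (@T16.mk En
    (@En.n l97 (nat_lit 1580) (nat_lit 14) (nat_lit 8))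
    (@En.n l8415 (nat_lit 5205) (nat_lit 1) (nat_lit 14))
    (@En.n l2179 (nat_lit 1705) (nat_lit 2) (nat_lit 4))
    (@En.n l30254 (nat_lit 1579) (nat_lit 3) (nat_lit 8))
    (@En.n l2180 (nat_lit 1732) (nat_lit 10) (nat_lit 8))
    (@En.n l13418 (nat_lit 1984) (nat_lit 5) (nat_lit 5))
    (@En.n l30255 (nat_lit 1292) (nat_lit 7) (nat_lit 12))
    (@En.n l255 (nat_lit 1267) (nat_lit 7) (nat_lit 6))
    (@En.n l30256 (nat_lit 1173) (nat_lit 10) (nat_lit 8))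
    (@En.n l8415 (nat_lit 5287) (nat_lit 9) (nat_lit 5))
    (@En.n l18 (nat_lit 1586) (nat_lit 7) (nat_lit 11))
    (@En.n l61 (nat_lit 1586) (nat_lit 8) (nat_lit 8))
    (@En.n l1897 (nat_lit 4457) (nat_lit 13) (nat_lit 8))
    (@En.n l1101 (nat_lit 1393) (nat_lit 14) (nat_lit 10))
    (@En.n l1690 (nat_lit 1580) (nat_lit 12) (nat_lit 11))
    (@En.n l67 (nat_lit 1582) (nat_lit 15) (nat_lit 2))))
  (@Cl.mk (nat_lit 0x200090006000e000900020009000d0007000a00030007000a0007000e0006) (nat_lit 0x5203707007070) (nat_lit 16) Lb.e (@T16.mk En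
    (@En.n l14028 (nat_lit 1584) (nat_lit 5) (nat_lit 6))
    (@En.i (nat_lit 5347) (nat_lit 7) (nat_lit 14))
    (@En.n l14027 (nat_lit 1446) (nat_lit 2) (nat_lit 7))
    (@En.n l387 (nat_lit 13539) (nat_lit 8) (nat_lit 10))
    (@En.n l12335 (nat_lit 7808) (nat_lit 4) (nat_lit 7))
    (@En.n l28519 (nat_lit 1714) (nat_lit 5) (nat_lit 3))
    (@En.i (nat_lit 2936) (nat_lit 0) (nat_lit 10))
    (@En.n l25962 (nat_lit 1991) (nat_lit 7) (nat_lit 7))
    (@En.n l3030 (nat_lit 1296) (nat_lit 9) (nat_lit 13))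
    (@En.i (nat_lit 1179) (nat_lit 10) (nat_lit 9))
    (@En.n l18 (nat_lit 1583) (nat_lit 10) (nat_lit 2))
    (@En.n l5529 (nat_lit 1581) (nat_lit 12) (nat_lit 9))
    (@En.n l396 (nat_lit 1844) (nat_lit 1) (nat_lit 14))
    (@En.n l2205 (nat_lit 6508) (nat_lit 14) (nat_lit 6))
    (@En.n l20316 (nat_lit 1584) (nat_lit 3) (nat_lit 9))
    (@En.n l11 (nat_lit 1583) (nat_lit 15) (nat_lit 2))))
noncomputable def a99 : T16 Cl := @T16.mk Cl
  (@Cl.mk (nat_lit 0x20008000c0007000a000a00040008000b00080006000600090005000e0008) (nat_lit 0x380780593007042) (nat_lit 16) Lb.e (@T16.mk En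
    (@En.n l27923 (nat_lit 1580) (nat_lit 6) (nat_lit 8))
    (@En.n l27924 (nat_lit 1559) (nat_lit 1) (nat_lit 14))
    (@En.n l5702 (nat_lit 6516) (nat_lit 2) (nat_lit 5))
    (@En.n l27925 (nat_lit 1587) (nat_lit 9) (nat_lit 9))
    (@En.n l19873 (nat_lit 1587) (nat_lit 10) (nat_lit 6))
    (@En.n l728 (nat_lit 6660) (nat_lit 5) (nat_lit 6))
    (@En.n l8714 (nat_lit 1440) (nat_lit 6) (nat_lit 8))
    (@En.n l5702 (nat_lit 13535) (nat_lit 7) (nat_lit 11))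
    (@En.i (nat_lit 4655) (nat_lit 11) (nat_lit 8))
    (@En.n l5276 (nat_lit 1711) (nat_lit 9) (nat_lit 4))
    (@En.n l27910 (nat_lit 1583) (nat_lit 6) (nat_lit 10))
    (@En.n l27926 (nat_lit 1733) (nat_lit 8) (nat_lit 10))
    (@En.n l27927 (nat_lit 1986) (nat_lit 13) (nat_lit 7))
    (@En.n l27928 (nat_lit 1722) (nat_lit 14) (nat_lit 12))
    (@En.n l27926 (nat_lit 1177) (nat_lit 4) (nat_lit 8))
    (@En.n l50 (nat_lit 1584) (nat_lit 15) (nat_lit 2))))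
  (@Cl.mk (nat_lit 0x2000500090009000c000a0007000a0004000700070006000b0006000e0009) (nat_lit 0x67040800006017) (nat_lit 16) Lb.e (@T16.mk En
    (@En.i (nat_lit 1580) (nat_lit 1) (nat_lit 9))
    (@En.n l37663 (nat_lit 494) (nat_lit 1) (nat_lit 14))
    (@En.n l23283 (nat_lit 1985) (nat_lit 2) (nat_lit 6))
    (@En.n l3548 (nat_lit 1456) (nat_lit 3) (nat_lit 11))
    (@En.n l22078 (nat_lit 1037) (nat_lit 4) (nat_lit 6))
    (@En.n l3 (nat_lit 1586) (nat_lit 5) (nat_lit 7))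
    (@En.n l9697 (nat_lit 1556) (nat_lit 6) (nat_lit 7))
    (@En.n l37664 (nat_lit 6941) (nat_lit 7) (nat_lit 4))
    (@En.i (nat_lit 13606) (nat_lit 8) (nat_lit 10))
    (@En.n l5032 (nat_lit 4456) (nat_lit 1) (nat_lit 7))
    (@En.n l22081 (nat_lit 1403) (nat_lit 11) (nat_lit 10))
    (@En.n l6650 (nat_lit 1587) (nat_lit 12) (nat_lit 12))
    (@En.n l25759 (nat_lit 1587) (nat_lit 13) (nat_lit 9))
    (@En.n l17489 (nat_lit 4657) (nat_lit 14) (nat_lit 9))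
    (@En.i (nat_lit 1710) (nat_lit 13) (nat_lit 5))
    (@En.n l17 (nat_lit 1585) (nat_lit 15) (nat_lit 2))))
  (@Cl.mk (nat_lit 0x20005000e00090002000c000b0008000b000400070005000b0005000e0008) (nat_lit 0xb7015680005016) (nat_lit 16) Lb.e (@T16.mk En
    (@En.i (nat_lit 1582) (nat_lit 4) (nat_lit 8))
    (@En.n l6863 (nat_lit 496) (nat_lit 1) (nat_lit 14))
    (@En.n l13418 (nat_lit 1989) (nat_lit 2) (nat_lit 5))
    (@En.n l4660 (nat_lit 1454) (nat_lit 3) (nat_lit 11))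
    (@En.n l255 (nat_lit 1266) (nat_lit 4) (nat_lit 5))
    (@En.n l27010 (nat_lit 1174) (nat_lit 5) (nat_lit 7))
    (@En.n l1790 (nat_lit 6946) (nat_lit 6) (nat_lit 4))
    (@En.i (nat_lit 13612) (nat_lit 7) (nat_lit 11))
    (@En.n l1897 (nat_lit 4454) (nat_lit 13) (nat_lit 8))
    (@En.n l1101 (nat_lit 1398) (nat_lit 10) (nat_lit 11))
    (@En.n l1690 (nat_lit 1585) (nat_lit 11) (nat_lit 12))
    (@En.n l67 (nat_lit 1586) (nat_lit 11) (nat_lit 2))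
    (@En.n l97 (nat_lit 1585) (nat_lit 13) (nat_lit 9))
    (@En.n l37532 (nat_lit 5263) (nat_lit 1) (nat_lit 14))
    (@En.n l255 (nat_lit 1709) (nat_lit 13) (nat_lit 5))
    (@En.n l17 (nat_lit 1586) (nat_lit 15) (nat_lit 2))))
  (@Cl.mk (nat_lit 0x200050009000c0009000600090004000e000700020007000b0007000e000a) (nat_lit 0x6a306030007018) (nat_lit 16) Lb.e (@T16.mk En
    (@En.n l1889 (nat_lit 1584) (nat_lit 11) (nat_lit 10))
    (@En.n l4768 (nat_lit 498) (nat_lit 12) (nat_lit 14))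
    (@En.n l619 (nat_lit 1990) (nat_lit 13) (nat_lit 7))
    (@En.n l13057 (nat_lit 1747) (nat_lit 3) (nat_lit 11))
    (@En.n l9771 (nat_lit 1045) (nat_lit 4) (nat_lit 7))
    (@En.n l17 (nat_lit 1587) (nat_lit 5) (nat_lit 2))
    (@En.n l25953 (nat_lit 1585) (nat_lit 6) (nat_lit 7))
    (@En.n l1708 (nat_lit 1554) (nat_lit 8) (nat_lit 14))
    (@En.n l5916 (nat_lit 6942) (nat_lit 8) (nat_lit 4))
    (@En.i (nat_lit 13605) (nat_lit 9) (nat_lit 9))
    (@En.n l4519 (nat_lit 4459) (nat_lit 4) (nat_lit 6))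
    (@En.n l25955 (nat_lit 1439) (nat_lit 12) (nat_lit 9))
    (@En.i (nat_lit 13536) (nat_lit 6) (nat_lit 12))
    (@En.n l1643 (nat_lit 7812) (nat_lit 14) (nat_lit 9))
    (@En.n l1559 (nat_lit 1712) (nat_lit 8) (nat_lit 5))
    (@En.n l11 (nat_lit 1587) (nat_lit 15) (nat_lit 2))))
  (@Cl.mk (nat_lit 0x200090006000900090008000d00080007000300070007000a0008000e0008) (nat_lit 0x301227500005441) (nat_lit 16) Lb.e (@T16.mk En
    (@En.n l18776 (nat_lit 1420) (nat_lit 10) (nat_lit 8))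
    (@En.n l18056 (nat_lit 5349) (nat_lit 1) (nat_lit 14))
    (@En.n l18777 (nat_lit 1415) (nat_lit 2) (nat_lit 8))
    (@En.n l18778 (nat_lit 1714) (nat_lit 3) (nat_lit 10))
    (@En.n l18779 (nat_lit 1714) (nat_lit 4) (nat_lit 7))
    (@En.n l2947 (nat_lit 2593) (nat_lit 5) (nat_lit 7))
    (@En.n l18780 (nat_lit 1581) (nat_lit 6) (nat_lit 3))
    (@En.i (nat_lit 2932) (nat_lit 0) (nat_lit 7))
    (@En.n l18781 (nat_lit 3302) (nat_lit 9) (nat_lit 8))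
    (@En.n l3548 (nat_lit 1288) (nat_lit 10) (nat_lit 13))
    (@En.n l18782 (nat_lit 1542) (nat_lit 11) (nat_lit 8))
    (@En.n l3 (nat_lit 1704) (nat_lit 12) (nat_lit 9))
    (@En.n l3549 (nat_lit 1568) (nat_lit 9) (nat_lit 9))
    (@En.n l18783 (nat_lit 6511) (nat_lit 14) (nat_lit 6))
    (@En.n l50 (nat_lit 1708) (nat_lit 8) (nat_lit 9))
    (@En.n l7 (nat_lit 1588) (nat_lit 15) (nat_lit 2))))
  (@Cl.mk (nat_lit 0x20006000900090008000d00090008000300070007000a00080007000e0008) (nat_lit 0x12145300004092) (nat_lit 16) Lb.e (@T16.mk En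
    (@En.n l23099 (nat_lit 1420) (nat_lit 9) (nat_lit 8))
    (@En.n l23100 (nat_lit 1581) (nat_lit 1) (nat_lit 14))
    (@En.n l23101 (nat_lit 1920) (nat_lit 2) (nat_lit 7))
    (@En.n l21760 (nat_lit 1414) (nat_lit 3) (nat_lit 8))
    (@En.n l23102 (nat_lit 1733) (nat_lit 4) (nat_lit 10))
    (@En.n l3571 (nat_lit 1733) (nat_lit 5) (nat_lit 7))
    (@En.n l23101 (nat_lit 7243) (nat_lit 6) (nat_lit 7))
    (@En.n l3576 (nat_lit 1706) (nat_lit 7) (nat_lit 3))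
    (@En.n l23103 (nat_lit 2928) (nat_lit 0) (nat_lit 8))
    (@En.n l23104 (nat_lit 1979) (nat_lit 10) (nat_lit 9))
    (@En.n l23105 (nat_lit 419) (nat_lit 11) (nat_lit 13))
    (@En.n l23106 (nat_lit 1094) (nat_lit 12) (nat_lit 8))
    (@En.n l23107 (nat_lit 1732) (nat_lit 13) (nat_lit 9))
    (@En.n l23108 (nat_lit 1574) (nat_lit 14) (nat_lit 9))
    (@En.n l23109 (nat_lit 1734) (nat_lit 6) (nat_lit 6))
    (@En.n l17 (nat_lit 1589) (nat_lit 15) (nat_lit 2))))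
  (@Cl.mk (nat_lit 0x2000b000a000900090009000500080006000c0007000700070004000e0008) (nat_lit 0x7501201030000b6) (nat_lit 16) Lb.e (@T16.mk En
    (@En.n l26544 (nat_lit 1420) (nat_lit 14) (nat_lit 8))
    (@En.n l20624 (nat_lit 5253) (nat_lit 1) (nat_lit 14))
    (@En.n l817 (nat_lit 1582) (nat_lit 2) (nat_lit 4))
    (@En.n l601 (nat_lit 1732) (nat_lit 9) (nat_lit 7))
    (@En.n l77 (nat_lit 1704) (nat_lit 9) (nat_lit 7))
    (@En.n l26545 (nat_lit 1941) (nat_lit 5) (nat_lit 7))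
    (@En.n l14747 (nat_lit 421) (nat_lit 7) (nat_lit 12))
    (@En.n l1746 (nat_lit 1270) (nat_lit 7) (nat_lit 6))
    (@En.n l20624 (nat_lit 1131) (nat_lit 10) (nat_lit 8))
    (@En.n l26546 (nat_lit 6519) (nat_lit 9) (nat_lit 5))
    (@En.n l397 (nat_lit 497) (nat_lit 7) (nat_lit 9))
    (@En.n l26547 (nat_lit 496) (nat_lit 7) (nat_lit 9))
    (@En.n l26548 (nat_lit 6809) (nat_lit 13) (nat_lit 9))
    (@En.n l25885 (nat_lit 1396) (nat_lit 14) (nat_lit 10))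
    (@En.n l26549 (nat_lit 1420) (nat_lit 12) (nat_lit 11))
    (@En.n l67 (nat_lit 1590) (nat_lit 15) (nat_lit 2))))
  (@Cl.mk (nat_lit 0x20008000c00090009000900040008000b00080007000700070005000e0008) (nat_lit 0x356740553000041) (nat_lit 16) Lb.e (@T16.mk En
    (@En.i (nat_lit 1420) (nat_lit 6) (nat_lit 8))
    (@En.n l14089 (nat_lit 1683) (nat_lit 1) (nat_lit 14))
    (@En.n l4830 (nat_lit 6518) (nat_lit 2) (nat_lit 5))
    (@En.n l2172 (nat_lit 499) (nat_lit 9) (nat_lit 7))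
    (@En.n l77 (nat_lit 498) (nat_lit 4) (nat_lit 7))
    (@En.i (nat_lit 6806) (nat_lit 5) (nat_lit 7))
    (@En.n l4855 (nat_lit 1417) (nat_lit 6) (nat_lit 8))
    (@En.i (nat_lit 13538) (nat_lit 7) (nat_lit 11))
    (@En.i (nat_lit 2598) (nat_lit 9) (nat_lit 8))
    (@En.n l14090 (nat_lit 1584) (nat_lit 9) (nat_lit 4))
    (@En.n l14091 (nat_lit 1733) (nat_lit 7) (nat_lit 9))
    (@En.n l6367 (nat_lit 1714) (nat_lit 7) (nat_lit 9))
    (@En.n l9999 (nat_lit 1980) (nat_lit 13) (nat_lit 9))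
    (@En.n l14092 (nat_lit 1413) (nat_lit 14) (nat_lit 12))
    (@En.n l1347 (nat_lit 980) (nat_lit 4) (nat_lit 8))
    (@En.n l107 (nat_lit 1591) (nat_lit 15) (nat_lit 2))))
  (@Cl.mk (nat_lit 0x200090003000e00090002000c000a0007000d0004000700030006000e000d) (nat_lit 0x20910270200009a) (nat_lit 16) Lb.e (@T16.mk En
    (@En.n l1222 (nat_lit 1112) (nat_lit 6) (nat_lit 13))
    (@En.n l1223 (nat_lit 1329) (nat_lit 1) (nat_lit 14))
    (@En.n l1224 (nat_lit 1384) (nat_lit 12) (nat_lit 6))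
    (@En.n l11 (nat_lit 1593) (nat_lit 3) (nat_lit 3))
    (@En.n l1225 (nat_lit 1596) (nat_lit 0) (nat_lit 7))
    (@En.n l1226 (nat_lit 4161) (nat_lit 5) (nat_lit 4))
    (@En.n l1227 (nat_lit 1013) (nat_lit 7) (nat_lit 13))
    (@En.n l1228 (nat_lit 1023) (nat_lit 7) (nat_lit 7))
    (@En.i (nat_lit 7349) (nat_lit 9) (nat_lit 10))
    (@En.n l1229 (nat_lit 1059) (nat_lit 10) (nat_lit 12))
    (@En.n l3 (nat_lit 1592) (nat_lit 10) (nat_lit 2))
    (@En.n l1230 (nat_lit 1059) (nat_lit 12) (nat_lit 9))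
    (@En.i (nat_lit 12310) (nat_lit 1) (nat_lit 14))
    (@En.n l1231 (nat_lit 1112) (nat_lit 2) (nat_lit 3))
    (@En.n l1232 (nat_lit 1484) (nat_lit 3) (nat_lit 9))
    (@En.n l50 (nat_lit 1592) (nat_lit 15) (nat_lit 2))))
  (@Cl.mk (nat_lit 0x200090003000e000a0002000b000a0007000d0006000500030006000e000d) (nat_lit 0x207102805000011) (nat_lit 16) Lb.e (@T16.mk En
    (@En.n l2256 (nat_lit 1107) (nat_lit 6) (nat_lit 13))
    (@En.n l1223 (nat_lit 1328) (nat_lit 1) (nat_lit 14))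
    (@En.n l28 (nat_lit 2911) (nat_lit 12) (nat_lit 6))
    (@En.i (nat_lit 1592) (nat_lit 3) (nat_lit 3))
    (@En.n l1228 (nat_lit 1597) (nat_lit 0) (nat_lit 5))
    (@En.n l117 (nat_lit 1599) (nat_lit 5) (nat_lit 6))
    (@En.n l725 (nat_lit 1009) (nat_lit 7) (nat_lit 13))
    (@En.n l1228 (nat_lit 1021) (nat_lit 7) (nat_lit 7))
    (@En.i (nat_lit 3057) (nat_lit 9) (nat_lit 10))
    (@En.n l2257 (nat_lit 342) (nat_lit 10) (nat_lit 11))
    (@En.n l3 (nat_lit 1593) (nat_lit 10) (nat_lit 2))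
    (@En.n l1386 (nat_lit 345) (nat_lit 12) (nat_lit 10))
    (@En.i (nat_lit 12304) (nat_lit 1) (nat_lit 14))
    (@En.n l1228 (nat_lit 1107) (nat_lit 2) (nat_lit 3))
    (@En.i (nat_lit 1541) (nat_lit 3) (nat_lit 9))
    (@En.n l50 (nat_lit 1593) (nat_lit 15) (nat_lit 2))))
  (@Cl.mk (nat_lit 0x2000900030009000e000a0002000a0007000d0007000600030006000e000d) (nat_lit 0x200a10804000011) (nat_lit 16) Lb.e (@T16.mk En
    (@En.n l9416 (nat_lit 353) (nat_lit 7) (nat_lit 13))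
    (@En.n l4316 (nat_lit 1100) (nat_lit 8) (nat_lit 14))
    (@En.n l9417 (nat_lit 3217) (nat_lit 2) (nat_lit 6))
    (@En.n l11 (nat_lit 1595) (nat_lit 3) (nat_lit 3))
    (@En.n l6442 (nat_lit 974) (nat_lit 0) (nat_lit 6))
    (@En.n l9418 (nat_lit 3322) (nat_lit 5) (nat_lit 7))
    (@En.n l9419 (nat_lit 355) (nat_lit 7) (nat_lit 13))
    (@En.n l6442 (nat_lit 1019) (nat_lit 14) (nat_lit 7))
    (@En.n l1080 (nat_lit 7218) (nat_lit 9) (nat_lit 10))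
    (@En.n l3 (nat_lit 1594) (nat_lit 9) (nat_lit 2))
    (@En.n l9420 (nat_lit 345) (nat_lit 11) (nat_lit 10))
    (@En.i (nat_lit 1592) (nat_lit 12) (nat_lit 14))
    (@En.n l9421 (nat_lit 10037) (nat_lit 2) (nat_lit 9))
    (@En.n l6442 (nat_lit 353) (nat_lit 3) (nat_lit 3))
    (@En.n l4273 (nat_lit 1727) (nat_lit 0) (nat_lit 9))
    (@En.n l50 (nat_lit 1594) (nat_lit 15) (nat_lit 2))))
  (@Cl.mk (nat_lit 0x2000900030008000e000b0002000a0007000d0005000800030006000e000d) (nat_lit 0x100820802050011) (nat_lit 16) Lb.e (@T16.mk En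
    (@En.n l3212 (nat_lit 343) (nat_lit 7) (nat_lit 13))
    (@En.n l4316 (nat_lit 1242) (nat_lit 8) (nat_lit 14))
    (@En.n l10242 (nat_lit 2937) (nat_lit 12) (nat_lit 6))
    (@En.i (nat_lit 1594) (nat_lit 3) (nat_lit 3))
    (@En.n l3219 (nat_lit 13256) (nat_lit 10) (nat_lit 8))
    (@En.n l10243 (nat_lit 1600) (nat_lit 5) (nat_lit 5))
    (@En.n l725 (nat_lit 1008) (nat_lit 7) (nat_lit 13))
    (@En.n l3219 (nat_lit 1018) (nat_lit 14) (nat_lit 7))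
    (@En.i (nat_lit 7288) (nat_lit 9) (nat_lit 10))
    (@En.n l3 (nat_lit 1595) (nat_lit 9) (nat_lit 2))
    (@En.n l10244 (nat_lit 342) (nat_lit 11) (nat_lit 11))
    (@En.i (nat_lit 1593) (nat_lit 12) (nat_lit 14))
    (@En.n l3213 (nat_lit 7506) (nat_lit 2) (nat_lit 8))
    (@En.n l3219 (nat_lit 343) (nat_lit 3) (nat_lit 3))
    (@En.i (nat_lit 1495) (nat_lit 0) (nat_lit 9))
    (@En.n l50 (nat_lit 1595) (nat_lit 15) (nat_lit 2))))
  (@Cl.mk (nat_lit 0x20005000e000d000200080003000d0009000e00030002000b0008000e0007) (nat_lit 0x81000815000030) (nat_lit 16) Lb.e (@T16.mk En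
    (@En.n l562 (nat_lit 3038) (nat_lit 4) (nat_lit 7))
    (@En.i (nat_lit 2726) (nat_lit 6) (nat_lit 14))
    (@En.n l1043 (nat_lit 2716) (nat_lit 6) (nat_lit 8))
    (@En.n l4057 (nat_lit 7697) (nat_lit 3) (nat_lit 11))
    (@En.n l7 (nat_lit 1596) (nat_lit 4) (nat_lit 2))
    (@En.n l1041 (nat_lit 974) (nat_lit 5) (nat_lit 3))
    (@En.n l4058 (nat_lit 13058) (nat_lit 0) (nat_lit 14))
    (@En.n l4059 (nat_lit 1594) (nat_lit 12) (nat_lit 9))
    (@En.n l1245 (nat_lit 11694) (nat_lit 9) (nat_lit 13))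
    (@En.n l4060 (nat_lit 972) (nat_lit 9) (nat_lit 3))
    (@En.i (nat_lit 2166) (nat_lit 11) (nat_lit 8))
    (@En.n l3 (nat_lit 1596) (nat_lit 11) (nat_lit 2))
    (@En.n l4061 (nat_lit 972) (nat_lit 13) (nat_lit 13))
    (@En.n l4062 (nat_lit 2693) (nat_lit 1) (nat_lit 14))
    (@En.n l2356 (nat_lit 2567) (nat_lit 2) (nat_lit 5))
    (@En.n l12 (nat_lit 1596) (nat_lit 15) (nat_lit 2))))
  (@Cl.mk (nat_lit 0x20005000e000d000200080003000e000d0002000b0003000b0008000e0005) (nat_lit 0x1000780300070) (nat_lit 16) Lb.e (@T16.mk En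
    (@En.n l3637 (nat_lit 3049) (nat_lit 4) (nat_lit 5))
    (@En.n l1445 (nat_lit 2719) (nat_lit 6) (nat_lit 14))
    (@En.i (nat_lit 2715) (nat_lit 6) (nat_lit 8))
    (@En.i (nat_lit 4785) (nat_lit 3) (nat_lit 11))
    (@En.i (nat_lit 974) (nat_lit 4) (nat_lit 3))
    (@En.n l1448 (nat_lit 1595) (nat_lit 10) (nat_lit 11))
    (@En.n l7 (nat_lit 1597) (nat_lit 6) (nat_lit 2))
    (@En.n l601 (nat_lit 974) (nat_lit 8) (nat_lit 13))
    (@En.n l3638 (nat_lit 12761) (nat_lit 9) (nat_lit 14))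
    (@En.i (nat_lit 969) (nat_lit 9) (nat_lit 3))
    (@En.n l197 (nat_lit 2157) (nat_lit 11) (nat_lit 8))
    (@En.n l67 (nat_lit 1597) (nat_lit 11) (nat_lit 2))
    (@En.n l68 (nat_lit 969) (nat_lit 13) (nat_lit 13))
    (@En.n l1596 (nat_lit 2713) (nat_lit 1) (nat_lit 14))
    (@En.n l3639 (nat_lit 3556) (nat_lit 13) (nat_lit 5))
    (@En.n l17 (nat_lit 1597) (nat_lit 15) (nat_lit 2))))
  (@Cl.mk (nat_lit 0x200070003000c000c000a000a00040004000c0009000600060004000e000d) (nat_lit 0x73000000060) (nat_lit 16) Lb.e (@T16.mk En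
    (@En.n l4210 (nat_lit 3034) (nat_lit 2) (nat_lit 13))
    (@En.n l4211 (nat_lit 2685) (nat_lit 1) (nat_lit 14))
    (@En.n l4212 (nat_lit 7320) (nat_lit 2) (nat_lit 4))
    (@En.n l4213 (nat_lit 2739) (nat_lit 10) (nat_lit 6))
    (@En.i (nat_lit 7318) (nat_lit 4) (nat_lit 6))
    (@En.n l4214 (nat_lit 2717) (nat_lit 5) (nat_lit 9))
    (@En.n l4215 (nat_lit 7114) (nat_lit 7) (nat_lit 12))
    (@En.n l4216 (nat_lit 3049) (nat_lit 7) (nat_lit 4))
    (@En.n l4217 (nat_lit 3041) (nat_lit 8) (nat_lit 4))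
    (@En.n l4218 (nat_lit 974) (nat_lit 6) (nat_lit 10))
    (@En.n l4215 (nat_lit 1599) (nat_lit 11) (nat_lit 10))
    (@En.n l4219 (nat_lit 3038) (nat_lit 12) (nat_lit 12))
    (@En.n l4215 (nat_lit 10352) (nat_lit 13) (nat_lit 12))
    (@En.n l4220 (nat_lit 3034) (nat_lit 14) (nat_lit 3))
    (@En.n l4221 (nat_lit 2168) (nat_lit 0) (nat_lit 7))
    (@En.n l3 (nat_lit 1598) (nat_lit 15) (nat_lit 2))))
  (@Cl.mk (nat_lit 0x200080003000d000a00090003000c000b00080006000400070005000e000d) (nat_lit 0x620001000010) (nat_lit 16) Lb.e (@T16.mk En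
    (@En.n l6580 (nat_lit 1602) (nat_lit 2) (nat_lit 13))
    (@En.n l4316 (nat_lit 1335) (nat_lit 1) (nat_lit 14))
    (@En.n l6581 (nat_lit 7385) (nat_lit 2) (nat_lit 5))
    (@En.n l6582 (nat_lit 3038) (nat_lit 3) (nat_lit 7))
    (@En.n l6583 (nat_lit 4198) (nat_lit 4) (nat_lit 4))
    (@En.n l4037 (nat_lit 6992) (nat_lit 5) (nat_lit 6))
    (@En.n l6584 (nat_lit 1031) (nat_lit 6) (nat_lit 8))
    (@En.i (nat_lit 7112) (nat_lit 8) (nat_lit 11))
    (@En.n l6585 (nat_lit 1601) (nat_lit 9) (nat_lit 12))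
    (@En.n l6586 (nat_lit 4196) (nat_lit 9) (nat_lit 3))
    (@En.n l619 (nat_lit 1592) (nat_lit 11) (nat_lit 9))
    (@En.n l6587 (nat_lit 3320) (nat_lit 12) (nat_lit 10))
    (@En.i (nat_lit 10351) (nat_lit 13) (nat_lit 13))
    (@En.n l6588 (nat_lit 1602) (nat_lit 14) (nat_lit 3))
    (@En.n l699 (nat_lit 2888) (nat_lit 0) (nat_lit 8))
    (@En.n l50 (nat_lit 1599) (nat_lit 15) (nat_lit 2))))
noncomputable def a100 : T16 Cl := @T16.mk Cl
  (@Cl.mk (nat_lit 0x2000800030008000d000b000a0003000b00080005000800060005000e000d) (nat_lit 0x172001000000) (nat_lit 16) Lb.e (@T16.mk En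
    (@En.n l396 (nat_lit 1603) (nat_lit 2) (nat_lit 13))
    (@En.n l4206 (nat_lit 3485) (nat_lit 1) (nat_lit 14))
    (@En.n l28 (nat_lit 2944) (nat_lit 2) (nat_lit 5))
    (@En.n l502 (nat_lit 1598) (nat_lit 3) (nat_lit 6))
    (@En.i (nat_lit 3268) (nat_lit 4) (nat_lit 8))
    (@En.i (nat_lit 7280) (nat_lit 5) (nat_lit 5))
    (@En.n l1308 (nat_lit 1029) (nat_lit 6) (nat_lit 8))
    (@En.n l4207 (nat_lit 7363) (nat_lit 8) (nat_lit 11))
    (@En.n l697 (nat_lit 1605) (nat_lit 8) (nat_lit 3))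
    (@En.n l4208 (nat_lit 1594) (nat_lit 10) (nat_lit 10))
    (@En.n l4209 (nat_lit 1601) (nat_lit 11) (nat_lit 11))
    (@En.n l4207 (nat_lit 1599) (nat_lit 12) (nat_lit 13))
    (@En.n l17 (nat_lit 10735) (nat_lit 13) (nat_lit 8))
    (@En.i (nat_lit 1603) (nat_lit 14) (nat_lit 3))
    (@En.n l2483 (nat_lit 2887) (nat_lit 0) (nat_lit 8))
    (@En.n l50 (nat_lit 1600) (nat_lit 15) (nat_lit 2))))
  (@Cl.mk (nat_lit 0x2000900030008000b0009000c000a000700050004000800070006000e000d) (nat_lit 0x62a000010000) (nat_lit 16) Lb.e (@T16.mk En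
    (@En.n l11418 (nat_lit 1604) (nat_lit 2) (nat_lit 13))
    (@En.n l11419 (nat_lit 3484) (nat_lit 1) (nat_lit 14))
    (@En.i (nat_lit 2948) (nat_lit 2) (nat_lit 6))
    (@En.n l11420 (nat_lit 1599) (nat_lit 3) (nat_lit 7))
    (@En.n l3272 (nat_lit 1600) (nat_lit 4) (nat_lit 8))
    (@En.n l2711 (nat_lit 1605) (nat_lit 5) (nat_lit 4))
    (@En.n l17 (nat_lit 6993) (nat_lit 6) (nat_lit 5))
    (@En.n l11421 (nat_lit 1030) (nat_lit 7) (nat_lit 7))
    (@En.n l11420 (nat_lit 7362) (nat_lit 9) (nat_lit 10))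
    (@En.n l10040 (nat_lit 3994) (nat_lit 6) (nat_lit 12))
    (@En.n l11422 (nat_lit 1059) (nat_lit 11) (nat_lit 9))
    (@En.n l11421 (nat_lit 3321) (nat_lit 7) (nat_lit 11))
    (@En.n l11419 (nat_lit 10736) (nat_lit 13) (nat_lit 8))
    (@En.n l11423 (nat_lit 1604) (nat_lit 14) (nat_lit 3))
    (@En.i (nat_lit 2889) (nat_lit 0) (nat_lit 9))
    (@En.n l7 (nat_lit 1601) (nat_lit 15) (nat_lit 2))))
  (@Cl.mk (nat_lit 0x30003000d000a00090003000c000b00090006000400070005000d000d0007) (nat_lit 0x6200000000b00) (nat_lit 16) Lb.e (@T16.mk En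
    (@En.n l55 (nat_lit 3162) (nat_lit 0) (nat_lit 7))
    (@En.n l134 (nat_lit 4465) (nat_lit 3) (nat_lit 13))
    (@En.n l5408 (nat_lit 4294) (nat_lit 2) (nat_lit 13))
    (@En.n l870 (nat_lit 7382) (nat_lit 3) (nat_lit 5))
    (@En.i (nat_lit 3037) (nat_lit 11) (nat_lit 7))
    (@En.n l13035 (nat_lit 3044) (nat_lit 5) (nat_lit 4))
    (@En.n l14511 (nat_lit 6990) (nat_lit 6) (nat_lit 6))
    (@En.n l2816 (nat_lit 3860) (nat_lit 1) (nat_lit 9))
    (@En.n l14512 (nat_lit 7113) (nat_lit 9) (nat_lit 11))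
    (@En.n l13035 (nat_lit 1604) (nat_lit 10) (nat_lit 12))
    (@En.n l13034 (nat_lit 3042) (nat_lit 10) (nat_lit 3))
    (@En.i (nat_lit 1112) (nat_lit 0) (nat_lit 9))
    (@En.n l14511 (nat_lit 3314) (nat_lit 13) (nat_lit 10))
    (@En.n l14512 (nat_lit 12022) (nat_lit 2) (nat_lit 13))
    (@En.n l14513 (nat_lit 1599) (nat_lit 13) (nat_lit 3))
    (@En.i (nat_lit 4465) (nat_lit 0) (nat_lit 3))))
  (@Cl.mk (nat_lit 0x300030008000d000b000a0003000b00090005000800060005000d000d0007) (nat_lit 0x1720000000b00) (nat_lit 16) Lb.e (@T16.mk En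
    (@En.n l11367 (nat_lit 3160) (nat_lit 0) (nat_lit 7))
    (@En.n l11368 (nat_lit 4463) (nat_lit 3) (nat_lit 13))
    (@En.n l1306 (nat_lit 4227) (nat_lit 9) (nat_lit 13))
    (@En.n l28 (nat_lit 2938) (nat_lit 3) (nat_lit 5))
    (@En.n l11369 (nat_lit 3034) (nat_lit 4) (nat_lit 6))
    (@En.i (nat_lit 3265) (nat_lit 10) (nat_lit 8))
    (@En.i (nat_lit 7279) (nat_lit 6) (nat_lit 5))
    (@En.n l1308 (nat_lit 3863) (nat_lit 14) (nat_lit 9))
    (@En.n l6672 (nat_lit 7203) (nat_lit 9) (nat_lit 11))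
    (@En.n l11370 (nat_lit 4199) (nat_lit 9) (nat_lit 3))
    (@En.n l11371 (nat_lit 353) (nat_lit 0) (nat_lit 10))
    (@En.n l11372 (nat_lit 1604) (nat_lit 12) (nat_lit 11))
    (@En.n l11373 (nat_lit 1602) (nat_lit 13) (nat_lit 13))
    (@En.n l7406 (nat_lit 10707) (nat_lit 14) (nat_lit 8))
    (@En.n l18 (nat_lit 1600) (nat_lit 13) (nat_lit 3))
    (@En.n l11374 (nat_lit 4463) (nat_lit 0) (nat_lit 3))))
  (@Cl.mk (nat_lit 0x300030008000b0009000c000a000800050004000800070006000d000d0008) (nat_lit 0x62a0000100b00) (nat_lit 16) Lb.e (@T16.mk En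
    (@En.n l11406 (nat_lit 3161) (nat_lit 0) (nat_lit 8))
    (@En.n l61 (nat_lit 4464) (nat_lit 3) (nat_lit 13))
    (@En.n l25016 (nat_lit 4228) (nat_lit 2) (nat_lit 13))
    (@En.n l25017 (nat_lit 2941) (nat_lit 3) (nat_lit 6))
    (@En.n l13267 (nat_lit 1602) (nat_lit 4) (nat_lit 7))
    (@En.n l14384 (nat_lit 1603) (nat_lit 5) (nat_lit 8))
    (@En.i (nat_lit 4199) (nat_lit 6) (nat_lit 4))
    (@En.n l25018 (nat_lit 6991) (nat_lit 7) (nat_lit 5))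
    (@En.n l11406 (nat_lit 3861) (nat_lit 1) (nat_lit 8))
    (@En.n l25019 (nat_lit 7361) (nat_lit 10) (nat_lit 10))
    (@En.n l11406 (nat_lit 3996) (nat_lit 6) (nat_lit 12))
    (@En.n l25020 (nat_lit 1055) (nat_lit 12) (nat_lit 9))
    (@En.n l11406 (nat_lit 3319) (nat_lit 7) (nat_lit 11))
    (@En.n l25016 (nat_lit 10708) (nat_lit 14) (nat_lit 8))
    (@En.n l25021 (nat_lit 1601) (nat_lit 13) (nat_lit 3))
    (@En.n l18 (nat_lit 4464) (nat_lit 0) (nat_lit 3))))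
  (@Cl.mk (nat_lit 0x2000800030008000d0009000c0003000b00080004000800070005000e000d) (nat_lit 0x0) (nat_lit 16) Lb.e (@T16.mk En
    (@En.n l4130 (nat_lit 4199) (nat_lit 2) (nat_lit 13))
    (@En.i (nat_lit 3486) (nat_lit 1) (nat_lit 14))
    (@En.n l11415 (nat_lit 2947) (nat_lit 2) (nat_lit 5))
    (@En.n l55 (nat_lit 4198) (nat_lit 3) (nat_lit 7))
    (@En.n l11416 (nat_lit 3266) (nat_lit 4) (nat_lit 8))
    (@En.n l4572 (nat_lit 4204) (nat_lit 5) (nat_lit 4))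
    (@En.n l61 (nat_lit 4255) (nat_lit 6) (nat_lit 8))
    (@En.n l2346 (nat_lit 5519) (nat_lit 8) (nat_lit 11))
    (@En.n l9453 (nat_lit 1600) (nat_lit 8) (nat_lit 3))
    (@En.n l4572 (nat_lit 4886) (nat_lit 6) (nat_lit 12))
    (@En.i (nat_lit 4154) (nat_lit 11) (nat_lit 9))
    (@En.n l780 (nat_lit 4196) (nat_lit 12) (nat_lit 13))
    (@En.n l11417 (nat_lit 10734) (nat_lit 13) (nat_lit 8))
    (@En.n l2832 (nat_lit 4199) (nat_lit 14) (nat_lit 3))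
    (@En.n l3098 (nat_lit 2886) (nat_lit 0) (nat_lit 8))
    (@En.n l3 (nat_lit 1605) (nat_lit 15) (nat_lit 2))))
  (@Cl.mk (nat_lit 0x2000a0005000b000b000a0007000600050005000e00060002000b000e0009) (nat_lit 0x2059300004006c7) (nat_lit 16) Lb.e (@T16.mk En
    (@En.i (nat_lit 1533) (nat_lit 13) (nat_lit 9))
    (@En.n l6869 (nat_lit 1614) (nat_lit 4) (nat_lit 14))
    (@En.i (nat_lit 1198) (nat_lit 2) (nat_lit 11))
    (@En.n l17 (nat_lit 1606) (nat_lit 3) (nat_lit 2))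
    (@En.n l50 (nat_lit 443) (nat_lit 4) (nat_lit 6))
    (@En.n l3786 (nat_lit 959) (nat_lit 1) (nat_lit 14))
    (@En.n l3787 (nat_lit 1192) (nat_lit 6) (nat_lit 5))
    (@En.n l6869 (nat_lit 6284) (nat_lit 3) (nat_lit 5))
    (@En.i (nat_lit 674) (nat_lit 8) (nat_lit 6))
    (@En.n l6489 (nat_lit 8268) (nat_lit 5) (nat_lit 7))
    (@En.n l2337 (nat_lit 2355) (nat_lit 11) (nat_lit 10))
    (@En.n l601 (nat_lit 1928) (nat_lit 12) (nat_lit 11))
    (@En.n l9521 (nat_lit 1608) (nat_lit 9) (nat_lit 11))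
    (@En.n l159 (nat_lit 1553) (nat_lit 14) (nat_lit 5))
    (@En.n l11 (nat_lit 1531) (nat_lit 11) (nat_lit 10))
    (@En.n l107 (nat_lit 1606) (nat_lit 15) (nat_lit 2))))
  (@Cl.mk (nat_lit 0x20005000b000b000a0008000700050005000e00060002000b0008000e0009) (nat_lit 0x77450006007602) (nat_lit 16) Lb.e (@T16.mk En
    (@En.n l3415 (nat_lit 1533) (nat_lit 12) (nat_lit 9))
    (@En.n l3416 (nat_lit 1676) (nat_lit 1) (nat_lit 14))
    (@En.i (nat_lit 1865) (nat_lit 14) (nat_lit 8))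
    (@En.n l1599 (nat_lit 1476) (nat_lit 3) (nat_lit 11))
    (@En.n l28 (nat_lit 1607) (nat_lit 4) (nat_lit 2))
    (@En.i (nat_lit 1571) (nat_lit 5) (nat_lit 6))
    (@En.n l3417 (nat_lit 1666) (nat_lit 7) (nat_lit 14))
    (@En.n l152 (nat_lit 1610) (nat_lit 7) (nat_lit 5))
    (@En.n l916 (nat_lit 6418) (nat_lit 8) (nat_lit 5))
    (@En.n l3418 (nat_lit 438) (nat_lit 4) (nat_lit 7))
    (@En.i (nat_lit 8643) (nat_lit 11) (nat_lit 8))
    (@En.n l906 (nat_lit 2338) (nat_lit 12) (nat_lit 10))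
    (@En.n l3419 (nat_lit 1679) (nat_lit 13) (nat_lit 11))
    (@En.n l3420 (nat_lit 1567) (nat_lit 9) (nat_lit 11))
    (@En.n l3421 (nat_lit 1606) (nat_lit 13) (nat_lit 5))
    (@En.n l18 (nat_lit 1607) (nat_lit 15) (nat_lit 2))))
  (@Cl.mk (nat_lit 0x20005000e000a0002000b000b000a0009000600050005000b0006000e0007) (nat_lit 0x870140100030a0) (nat_lit 16) Lb.e (@T16.mk En
    (@En.n l9716 (nat_lit 1620) (nat_lit 4) (nat_lit 7))
    (@En.n l396 (nat_lit 1623) (nat_lit 1) (nat_lit 14))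
    (@En.n l28 (nat_lit 1813) (nat_lit 2) (nat_lit 6))
    (@En.n l1599 (nat_lit 1466) (nat_lit 3) (nat_lit 11))
    (@En.n l1577 (nat_lit 1626) (nat_lit 4) (nat_lit 5))
    (@En.i (nat_lit 1137) (nat_lit 5) (nat_lit 5))
    (@En.n l916 (nat_lit 8477) (nat_lit 6) (nat_lit 6))
    (@En.n l644 (nat_lit 439) (nat_lit 12) (nat_lit 9))
    (@En.n l457 (nat_lit 7157) (nat_lit 9) (nat_lit 10))
    (@En.n l1578 (nat_lit 1610) (nat_lit 10) (nat_lit 11))
    (@En.n l107 (nat_lit 1476) (nat_lit 11) (nat_lit 11))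
    (@En.n l3 (nat_lit 1608) (nat_lit 11) (nat_lit 2))
    (@En.n l575 (nat_lit 1571) (nat_lit 13) (nat_lit 10))
    (@En.i (nat_lit 1931) (nat_lit 1) (nat_lit 14))
    (@En.n l13257 (nat_lit 1189) (nat_lit 13) (nat_lit 5))
    (@En.n l18 (nat_lit 1608) (nat_lit 15) (nat_lit 2))))
  (@Cl.mk (nat_lit 0x2000a0008000800080006000e00060002000c0008000800080004000e000a) (nat_lit 0x401206005500067) (nat_lit 16) Lb.e (@T16.mk En
    (@En.n l644 (nat_lit 1533) (nat_lit 9) (nat_lit 10))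
    (@En.n l1643 (nat_lit 1656) (nat_lit 1) (nat_lit 14))
    (@En.n l357 (nat_lit 1191) (nat_lit 2) (nat_lit 4))
    (@En.n l13214 (nat_lit 1652) (nat_lit 8) (nat_lit 8))
    (@En.n l13215 (nat_lit 1651) (nat_lit 8) (nat_lit 8))
    (@En.n l4314 (nat_lit 1859) (nat_lit 14) (nat_lit 8))
    (@En.n l13216 (nat_lit 1199) (nat_lit 7) (nat_lit 12))
    (@En.n l17 (nat_lit 1609) (nat_lit 7) (nat_lit 2))
    (@En.n l13217 (nat_lit 1620) (nat_lit 8) (nat_lit 6))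
    (@En.n l13218 (nat_lit 4944) (nat_lit 1) (nat_lit 14))
    (@En.n l13219 (nat_lit 9110) (nat_lit 2) (nat_lit 6))
    (@En.n l13220 (nat_lit 1610) (nat_lit 8) (nat_lit 8))
    (@En.n l527 (nat_lit 1192) (nat_lit 8) (nat_lit 8))
    (@En.n l7327 (nat_lit 8934) (nat_lit 14) (nat_lit 8))
    (@En.n l13221 (nat_lit 2506) (nat_lit 7) (nat_lit 10))
    (@En.n l7 (nat_lit 1609) (nat_lit 15) (nat_lit 2))))
  (@Cl.mk (nat_lit 0x20005000e000b0002000b000900080005000e00050002000b0007000e0008) (nat_lit 0x78037107004001) (nat_lit 16) Lb.e (@T16.mk En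
    (@En.n l5145 (nat_lit 1609) (nat_lit 4) (nat_lit 8))
    (@En.n l5146 (nat_lit 1611) (nat_lit 1) (nat_lit 14))
    (@En.i (nat_lit 1864) (nat_lit 14) (nat_lit 7))
    (@En.n l1599 (nat_lit 1475) (nat_lit 3) (nat_lit 11))
    (@En.n l28 (nat_lit 1610) (nat_lit 4) (nat_lit 2))
    (@En.n l11 (nat_lit 1608) (nat_lit 5) (nat_lit 5))
    (@En.n l5147 (nat_lit 5001) (nat_lit 7) (nat_lit 14))
    (@En.n l916 (nat_lit 8580) (nat_lit 7) (nat_lit 5))
    (@En.n l644 (nat_lit 675) (nat_lit 3) (nat_lit 8))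
    (@En.i (nat_lit 8647) (nat_lit 10) (nat_lit 9))
    (@En.n l3456 (nat_lit 2470) (nat_lit 11) (nat_lit 11))
    (@En.n l3 (nat_lit 1610) (nat_lit 11) (nat_lit 2))
    (@En.i (nat_lit 1607) (nat_lit 13) (nat_lit 11))
    (@En.n l2616 (nat_lit 1942) (nat_lit 9) (nat_lit 14))
    (@En.n l5148 (nat_lit 1192) (nat_lit 13) (nat_lit 5))
    (@En.n l18 (nat_lit 1610) (nat_lit 15) (nat_lit 2))))
  (@Cl.mk (nat_lit 0x2000a0005000e000b0002000b000600090005000e00050002000b000e0007) (nat_lit 0x1074030107006c0) (nat_lit 16) Lb.e (@T16.mk En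
    (@En.i (nat_lit 1507) (nat_lit 5) (nat_lit 7))
    (@En.i (nat_lit 4900) (nat_lit 7) (nat_lit 14))
    (@En.n l1501 (nat_lit 1473) (nat_lit 2) (nat_lit 11))
    (@En.n l17 (nat_lit 1611) (nat_lit 3) (nat_lit 2))
    (@En.n l4019 (nat_lit 1623) (nat_lit 4) (nat_lit 5))
    (@En.n l433 (nat_lit 1877) (nat_lit 1) (nat_lit 14))
    (@En.i (nat_lit 8582) (nat_lit 6) (nat_lit 5))
    (@En.n l1347 (nat_lit 865) (nat_lit 9) (nat_lit 9))
    (@En.n l357 (nat_lit 5383) (nat_lit 14) (nat_lit 6))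
    (@En.n l3699 (nat_lit 2619) (nat_lit 10) (nat_lit 11))
    (@En.n l7 (nat_lit 1611) (nat_lit 10) (nat_lit 2))
    (@En.n l644 (nat_lit 1676) (nat_lit 12) (nat_lit 11))
    (@En.n l1347 (nat_lit 1940) (nat_lit 1) (nat_lit 14))
    (@En.n l357 (nat_lit 1610) (nat_lit 14) (nat_lit 5))
    (@En.n l117 (nat_lit 1507) (nat_lit 3) (nat_lit 10))
    (@En.n l3 (nat_lit 1611) (nat_lit 15) (nat_lit 2))))
  (@Cl.mk (nat_lit 0x2000b000900070005000e00050002000e00070002000e00090002000e000b) (nat_lit 0xb0017000) (nat_lit 16) Lb.e (@T16.mk En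
    (@En.i (nat_lit 1614) (nat_lit 14) (nat_lit 11))
    (@En.n l2054 (nat_lit 1679) (nat_lit 1) (nat_lit 14))
    (@En.n l3 (nat_lit 1612) (nat_lit 2) (nat_lit 2))
    (@En.n l685 (nat_lit 2112) (nat_lit 14) (nat_lit 9))
    (@En.n l2243 (nat_lit 1610) (nat_lit 1) (nat_lit 14))
    (@En.n l17 (nat_lit 1612) (nat_lit 5) (nat_lit 2))
    (@En.n l2054 (nat_lit 2110) (nat_lit 14) (nat_lit 7))
    (@En.n l5 (nat_lit 1626) (nat_lit 1) (nat_lit 14))
    (@En.n l50 (nat_lit 1612) (nat_lit 8) (nat_lit 2))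
    (@En.n l4030 (nat_lit 1614) (nat_lit 9) (nat_lit 5))
    (@En.i (nat_lit 2116) (nat_lit 1) (nat_lit 14))
    (@En.i (nat_lit 678) (nat_lit 8) (nat_lit 5))
    (@En.n l685 (nat_lit 3731) (nat_lit 13) (nat_lit 7))
    (@En.n l2054 (nat_lit 3726) (nat_lit 14) (nat_lit 9))
    (@En.n l4031 (nat_lit 3946) (nat_lit 12) (nat_lit 11))
    (@En.n l11 (nat_lit 1612) (nat_lit 15) (nat_lit 2))))
  (@Cl.mk (nat_lit 0x2000a000a000a000a000900070006000600060006000e00070002000e0009) (nat_lit 0x500000c0010) (nat_lit 16) Lb.e (@T16.mk En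
    (@En.n l1615 (nat_lit 1619) (nat_lit 14) (nat_lit 9))
    (@En.n l23930 (nat_lit 1571) (nat_lit 1) (nat_lit 14))
    (@En.n l17 (nat_lit 1613) (nat_lit 2) (nat_lit 2))
    (@En.n l23931 (nat_lit 1619) (nat_lit 3) (nat_lit 7))
    (@En.n l3786 (nat_lit 1813) (nat_lit 1) (nat_lit 14))
    (@En.n l3787 (nat_lit 2112) (nat_lit 5) (nat_lit 6))
    (@En.n l55 (nat_lit 1944) (nat_lit 6) (nat_lit 6))
    (@En.n l23932 (nat_lit 1614) (nat_lit 10) (nat_lit 6))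
    (@En.i (nat_lit 1952) (nat_lit 8) (nat_lit 6))
    (@En.n l688 (nat_lit 2652) (nat_lit 6) (nat_lit 7))
    (@En.n l2337 (nat_lit 1946) (nat_lit 11) (nat_lit 9))
    (@En.n l601 (nat_lit 1614) (nat_lit 12) (nat_lit 10))
    (@En.n l2281 (nat_lit 1943) (nat_lit 6) (nat_lit 10))
    (@En.n l23933 (nat_lit 2110) (nat_lit 6) (nat_lit 10))
    (@En.n l107 (nat_lit 1658) (nat_lit 12) (nat_lit 10))
    (@En.n l3 (nat_lit 1613) (nat_lit 15) (nat_lit 2))))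
  (@Cl.mk (nat_lit 0x2000b000b000a0008000600050005000e00060002000e00080002000e000a) (nat_lit 0x9182000b00b0011) (nat_lit 16) Lb.e (@T16.mk En
    (@En.n l6842 (nat_lit 1613) (nat_lit 14) (nat_lit 10))
    (@En.n l2243 (nat_lit 1607) (nat_lit 1) (nat_lit 14))
    (@En.n l17 (nat_lit 1614) (nat_lit 2) (nat_lit 2))
    (@En.n l2054 (nat_lit 1615) (nat_lit 14) (nat_lit 8))
    (@En.n l5342 (nat_lit 1608) (nat_lit 1) (nat_lit 14))
    (@En.n l50 (nat_lit 1614) (nat_lit 5) (nat_lit 2))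
    (@En.n l7 (nat_lit 1613) (nat_lit 6) (nat_lit 6))
    (@En.n l11143 (nat_lit 1972) (nat_lit 1) (nat_lit 14))
    (@En.n l575 (nat_lit 1612) (nat_lit 11) (nat_lit 5))
    (@En.i (nat_lit 3941) (nat_lit 9) (nat_lit 5))
    (@En.n l6842 (nat_lit 2653) (nat_lit 7) (nat_lit 6))
    (@En.n l11144 (nat_lit 3729) (nat_lit 12) (nat_lit 8))
    (@En.n l11145 (nat_lit 3943) (nat_lit 13) (nat_lit 10))
    (@En.n l11146 (nat_lit 1612) (nat_lit 14) (nat_lit 11))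
    (@En.n l11147 (nat_lit 1931) (nat_lit 12) (nat_lit 11))
    (@En.n l3 (nat_lit 1614) (nat_lit 15) (nat_lit 2))))
  (@Cl.mk (nat_lit 0x200080008000e00090002000a000a000900080008000700060006000e0007) (nat_lit 0x640604002300000) (nat_lit 16) Lb.e (@T16.mk En
    (@En.i (nat_lit 1619) (nat_lit 5) (nat_lit 7))
    (@En.n l12618 (nat_lit 1975) (nat_lit 1) (nat_lit 14))
    (@En.n l152 (nat_lit 2110) (nat_lit 2) (nat_lit 6))
    (@En.n l685 (nat_lit 2072) (nat_lit 3) (nat_lit 6))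
    (@En.n l4112 (nat_lit 3269) (nat_lit 4) (nat_lit 7))
    (@En.n l10599 (nat_lit 1614) (nat_lit 11) (nat_lit 8))
    (@En.n l681 (nat_lit 3724) (nat_lit 6) (nat_lit 8))
    (@En.n l4570 (nat_lit 3092) (nat_lit 13) (nat_lit 9))
    (@En.n l148 (nat_lit 2112) (nat_lit 9) (nat_lit 10))
    (@En.n l23924 (nat_lit 1904) (nat_lit 10) (nat_lit 10))
    (@En.n l17 (nat_lit 1615) (nat_lit 10) (nat_lit 2))
    (@En.n l23925 (nat_lit 1619) (nat_lit 12) (nat_lit 9))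
    (@En.n l5 (nat_lit 1865) (nat_lit 13) (nat_lit 14))
    (@En.n l2438 (nat_lit 2111) (nat_lit 8) (nat_lit 8))
    (@En.i (nat_lit 1657) (nat_lit 3) (nat_lit 8))
    (@En.n l28 (nat_lit 1615) (nat_lit 15) (nat_lit 2))))
noncomputable def a101 : T16 Cl := @T16.mk Cl
  (@Cl.mk (nat_lit 0x20008000800080008000e00090002000900080008000800080007000e0007) (nat_lit 0x50c4000000010) (nat_lit 16) Lb.e (@T16.mk En
    (@En.n l137 (nat_lit 1619) (nat_lit 7) (nat_lit 7))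
    (@En.n l23916 (nat_lit 62) (nat_lit 1) (nat_lit 14))
    (@En.n l5240 (nat_lit 3091) (nat_lit 2) (nat_lit 7))
    (@En.n l12790 (nat_lit 2110) (nat_lit 3) (nat_lit 8))
    (@En.n l11616 (nat_lit 1910) (nat_lit 4) (nat_lit 8))
    (@En.n l152 (nat_lit 2112) (nat_lit 8) (nat_lit 8))
    (@En.n l23917 (nat_lit 3723) (nat_lit 6) (nat_lit 8))
    (@En.n l23918 (nat_lit 3152) (nat_lit 8) (nat_lit 9))
    (@En.n l7 (nat_lit 1616) (nat_lit 8) (nat_lit 2))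
    (@En.n l23919 (nat_lit 1619) (nat_lit 10) (nat_lit 9))
    (@En.n l23920 (nat_lit 1871) (nat_lit 11) (nat_lit 14))
    (@En.n l3773 (nat_lit 2111) (nat_lit 2) (nat_lit 8))
    (@En.n l23921 (nat_lit 1863) (nat_lit 3) (nat_lit 8))
    (@En.n l23922 (nat_lit 2111) (nat_lit 14) (nat_lit 8))
    (@En.n l23923 (nat_lit 1906) (nat_lit 5) (nat_lit 8))
    (@En.n l17 (nat_lit 1616) (nat_lit 15) (nat_lit 2))))
  (@Cl.mk (nat_lit 0x2000800080008000e00090002000a000900080008000800070006000e0007) (nat_lit 0x5020040300000) (nat_lit 16) Lb.e (@T16.mk En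
    (@En.n l8934 (nat_lit 1619) (nat_lit 6) (nat_lit 7))
    (@En.n l5 (nat_lit 1656) (nat_lit 8) (nat_lit 14))
    (@En.n l684 (nat_lit 3096) (nat_lit 2) (nat_lit 6))
    (@En.n l8936 (nat_lit 2073) (nat_lit 3) (nat_lit 7))
    (@En.n l5162 (nat_lit 1943) (nat_lit 4) (nat_lit 8))
    (@En.n l152 (nat_lit 1944) (nat_lit 8) (nat_lit 8))
    (@En.n l685 (nat_lit 3097) (nat_lit 6) (nat_lit 8))
    (@En.n l8938 (nat_lit 2078) (nat_lit 14) (nat_lit 9))
    (@En.n l687 (nat_lit 1814) (nat_lit 9) (nat_lit 10))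
    (@En.n l28 (nat_lit 1617) (nat_lit 9) (nat_lit 2))
    (@En.n l1615 (nat_lit 1619) (nat_lit 11) (nat_lit 9))
    (@En.n l16096 (nat_lit 1655) (nat_lit 12) (nat_lit 14))
    (@En.n l26581 (nat_lit 1863) (nat_lit 8) (nat_lit 8))
    (@En.n l26582 (nat_lit 1863) (nat_lit 14) (nat_lit 8))
    (@En.n l26583 (nat_lit 1862) (nat_lit 4) (nat_lit 8))
    (@En.n l17 (nat_lit 1617) (nat_lit 15) (nat_lit 2))))
  (@Cl.mk (nat_lit 0x20008000e00090002000a000a000a000900080007000600060006000e0007) (nat_lit 0x402004020000000) (nat_lit 16) Lb.e (@T16.mk En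
    (@En.n l146 (nat_lit 1619) (nat_lit 4) (nat_lit 7))
    (@En.n l3786 (nat_lit 1909) (nat_lit 1) (nat_lit 14))
    (@En.n l5162 (nat_lit 1910) (nat_lit 2) (nat_lit 6))
    (@En.n l19092 (nat_lit 1943) (nat_lit 3) (nat_lit 6))
    (@En.n l12113 (nat_lit 3274) (nat_lit 4) (nat_lit 6))
    (@En.i (nat_lit 1945) (nat_lit 5) (nat_lit 7))
    (@En.n l13032 (nat_lit 1951) (nat_lit 6) (nat_lit 8))
    (@En.n l26561 (nat_lit 3270) (nat_lit 12) (nat_lit 9))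
    (@En.n l26562 (nat_lit 1944) (nat_lit 9) (nat_lit 10))
    (@En.n l2281 (nat_lit 1910) (nat_lit 6) (nat_lit 10))
    (@En.i (nat_lit 1973) (nat_lit 11) (nat_lit 10))
    (@En.n l67 (nat_lit 1618) (nat_lit 11) (nat_lit 2))
    (@En.n l19088 (nat_lit 1619) (nat_lit 13) (nat_lit 9))
    (@En.n l148 (nat_lit 1908) (nat_lit 1) (nat_lit 14))
    (@En.i (nat_lit 1869) (nat_lit 2) (nat_lit 8))
    (@En.n l17 (nat_lit 1618) (nat_lit 15) (nat_lit 2))))
  (@Cl.mk (nat_lit 0x20009000900090009000900090008000700070007000700070007000e0008) (nat_lit 0x7151366000000c1) (nat_lit 16) Lb.e (@T16.mk En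
    (@En.i (nat_lit 78) (nat_lit 0) (nat_lit 8))
    (@En.n l5 (nat_lit 1659) (nat_lit 1) (nat_lit 14))
    (@En.n l39219 (nat_lit 1616) (nat_lit 2) (nat_lit 7))
    (@En.n l4968 (nat_lit 1617) (nat_lit 3) (nat_lit 7))
    (@En.n l26760 (nat_lit 1615) (nat_lit 4) (nat_lit 7))
    (@En.n l10598 (nat_lit 1618) (nat_lit 5) (nat_lit 7))
    (@En.n l39220 (nat_lit 1613) (nat_lit 9) (nat_lit 7))
    (@En.n l26762 (nat_lit 3090) (nat_lit 7) (nat_lit 7))
    (@En.n l217 (nat_lit 1954) (nat_lit 8) (nat_lit 8))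
    (@En.n l39221 (nat_lit 1613) (nat_lit 10) (nat_lit 9))
    (@En.n l19343 (nat_lit 1618) (nat_lit 7) (nat_lit 9))
    (@En.n l55 (nat_lit 1615) (nat_lit 7) (nat_lit 9))
    (@En.n l4314 (nat_lit 1617) (nat_lit 7) (nat_lit 9))
    (@En.n l148 (nat_lit 1616) (nat_lit 7) (nat_lit 9))
    (@En.i (nat_lit 1660) (nat_lit 13) (nat_lit 9))
    (@En.n l17 (nat_lit 1619) (nat_lit 15) (nat_lit 2))))
  (@Cl.mk (nat_lit 0x2000a000a000900090009000700060006000c0007000700070004000e0009) (nat_lit 0x1501200040000c6) (nat_lit 16) Lb.e (@T16.mk En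
    (@En.n l26946 (nat_lit 1419) (nat_lit 14) (nat_lit 9))
    (@En.n l10194 (nat_lit 1658) (nat_lit 1) (nat_lit 14))
    (@En.n l7963 (nat_lit 1188) (nat_lit 2) (nat_lit 4))
    (@En.n l601 (nat_lit 1633) (nat_lit 9) (nat_lit 7))
    (@En.n l77 (nat_lit 1649) (nat_lit 4) (nat_lit 7))
    (@En.n l6064 (nat_lit 1814) (nat_lit 5) (nat_lit 7))
    (@En.n l524 (nat_lit 1400) (nat_lit 7) (nat_lit 12))
    (@En.n l26037 (nat_lit 1628) (nat_lit 10) (nat_lit 6))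
    (@En.i (nat_lit 1129) (nat_lit 8) (nat_lit 6))
    (@En.n l2254 (nat_lit 9109) (nat_lit 10) (nat_lit 7))
    (@En.n l15696 (nat_lit 1608) (nat_lit 7) (nat_lit 9))
    (@En.n l26947 (nat_lit 1189) (nat_lit 7) (nat_lit 9))
    (@En.n l26948 (nat_lit 7161) (nat_lit 13) (nat_lit 9))
    (@En.n l26949 (nat_lit 1609) (nat_lit 14) (nat_lit 10))
    (@En.n l15499 (nat_lit 1508) (nat_lit 12) (nat_lit 10))
    (@En.n l3 (nat_lit 1620) (nat_lit 15) (nat_lit 2))))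
  (@Cl.mk (nat_lit 0x2000a000a0007000a000a000700060006000c0006000600090004000e0009) (nat_lit 0x750120006000096) (nat_lit 16) Lb.e (@T16.mk En
    (@En.n l10049 (nat_lit 1572) (nat_lit 14) (nat_lit 9))
    (@En.i (nat_lit 1936) (nat_lit 1) (nat_lit 14))
    (@En.n l5834 (nat_lit 1620) (nat_lit 2) (nat_lit 4))
    (@En.n l7 (nat_lit 1622) (nat_lit 9) (nat_lit 9))
    (@En.n l644 (nat_lit 1622) (nat_lit 10) (nat_lit 6))
    (@En.n l5838 (nat_lit 3145) (nat_lit 5) (nat_lit 6))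
    (@En.n l524 (nat_lit 958) (nat_lit 7) (nat_lit 12))
    (@En.n l575 (nat_lit 1624) (nat_lit 10) (nat_lit 6))
    (@En.i (nat_lit 1143) (nat_lit 8) (nat_lit 6))
    (@En.n l26588 (nat_lit 8576) (nat_lit 10) (nat_lit 7))
    (@En.n l16140 (nat_lit 1623) (nat_lit 6) (nat_lit 10))
    (@En.n l16141 (nat_lit 1608) (nat_lit 8) (nat_lit 10))
    (@En.n l4780 (nat_lit 4636) (nat_lit 13) (nat_lit 7))
    (@En.n l38765 (nat_lit 1507) (nat_lit 14) (nat_lit 10))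
    (@En.n l20577 (nat_lit 1477) (nat_lit 12) (nat_lit 10))
    (@En.n l3 (nat_lit 1621) (nat_lit 15) (nat_lit 2))))
  (@Cl.mk (nat_lit 0x2000800070007000d000600090003000e00080002000900090007000e000a) (nat_lit 0x600507085016072) (nat_lit 16) Lb.e (@T16.mk En
    (@En.i (nat_lit 1621) (nat_lit 11) (nat_lit 10))
    (@En.n l601 (nat_lit 1649) (nat_lit 12) (nat_lit 14))
    (@En.n l4780 (nat_lit 4637) (nat_lit 2) (nat_lit 7))
    (@En.n l3554 (nat_lit 1872) (nat_lit 3) (nat_lit 9))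
    (@En.n l107 (nat_lit 1432) (nat_lit 4) (nat_lit 9))
    (@En.n l3 (nat_lit 1622) (nat_lit 5) (nat_lit 2))
    (@En.i (nat_lit 1577) (nat_lit 6) (nat_lit 8))
    (@En.i (nat_lit 1938) (nat_lit 1) (nat_lit 14))
    (@En.n l2364 (nat_lit 1633) (nat_lit 8) (nat_lit 3))
    (@En.i (nat_lit 12905) (nat_lit 9) (nat_lit 9))
    (@En.i (nat_lit 3134) (nat_lit 4) (nat_lit 6))
    (@En.n l524 (nat_lit 957) (nat_lit 12) (nat_lit 13))
    (@En.n l575 (nat_lit 1627) (nat_lit 9) (nat_lit 7))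
    (@En.i (nat_lit 1314) (nat_lit 14) (nat_lit 7))
    (@En.i (nat_lit 8573) (nat_lit 9) (nat_lit 8))
    (@En.n l50 (nat_lit 1622) (nat_lit 15) (nat_lit 2))))
  (@Cl.mk (nat_lit 0x200090005000e000a0002000b000b0007000a000600050005000b000e0006) (nat_lit 0x10a701401000390) (nat_lit 16) Lb.e (@T16.mk En
    (@En.n l12661 (nat_lit 1621) (nat_lit 5) (nat_lit 6))
    (@En.i (nat_lit 4902) (nat_lit 7) (nat_lit 14))
    (@En.n l26093 (nat_lit 960) (nat_lit 2) (nat_lit 11))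
    (@En.n l1577 (nat_lit 1625) (nat_lit 3) (nat_lit 5))
    (@En.i (nat_lit 1142) (nat_lit 4) (nat_lit 5))
    (@En.n l4155 (nat_lit 8478) (nat_lit 5) (nat_lit 6))
    (@En.i (nat_lit 851) (nat_lit 8) (nat_lit 10))
    (@En.n l13247 (nat_lit 4638) (nat_lit 7) (nat_lit 7))
    (@En.n l5987 (nat_lit 1611) (nat_lit 9) (nat_lit 11))
    (@En.n l4943 (nat_lit 1474) (nat_lit 10) (nat_lit 11))
    (@En.n l3 (nat_lit 1623) (nat_lit 10) (nat_lit 2))
    (@En.n l575 (nat_lit 1576) (nat_lit 12) (nat_lit 10))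
    (@En.i (nat_lit 1935) (nat_lit 1) (nat_lit 14))
    (@En.n l699 (nat_lit 1608) (nat_lit 14) (nat_lit 5))
    (@En.n l12666 (nat_lit 1621) (nat_lit 3) (nat_lit 9))
    (@En.n l50 (nat_lit 1623) (nat_lit 15) (nat_lit 2))))
  (@Cl.mk (nat_lit 0x20008000b000b00080006000c0005000500080004000e00080002000e000a) (nat_lit 0x5020030000c6028) (nat_lit 16) Lb.e (@T16.mk En
    (@En.i (nat_lit 1621) (nat_lit 14) (nat_lit 10))
    (@En.n l23037 (nat_lit 427) (nat_lit 1) (nat_lit 14))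
    (@En.n l3 (nat_lit 1624) (nat_lit 2) (nat_lit 2))
    (@En.n l2004 (nat_lit 1694) (nat_lit 3) (nat_lit 8))
    (@En.n l17903 (nat_lit 1934) (nat_lit 1) (nat_lit 14))
    (@En.n l30868 (nat_lit 1628) (nat_lit 5) (nat_lit 4))
    (@En.n l7 (nat_lit 1627) (nat_lit 6) (nat_lit 8))
    (@En.n l644 (nat_lit 1627) (nat_lit 7) (nat_lit 5))
    (@En.n l5838 (nat_lit 3142) (nat_lit 8) (nat_lit 5))
    (@En.n l30868 (nat_lit 1354) (nat_lit 10) (nat_lit 12))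
    (@En.i (nat_lit 320) (nat_lit 7) (nat_lit 6))
    (@En.n l6238 (nat_lit 7820) (nat_lit 12) (nat_lit 8))
    (@En.n l5837 (nat_lit 1625) (nat_lit 5) (nat_lit 11))
    (@En.n l5838 (nat_lit 1626) (nat_lit 7) (nat_lit 11))
    (@En.n l287 (nat_lit 4642) (nat_lit 12) (nat_lit 8))
    (@En.n l11 (nat_lit 1624) (nat_lit 15) (nat_lit 2))))
  (@Cl.mk (nat_lit 0x200080005000e00090002000e000b00020008000b00070005000b000e0005) (nat_lit 0x10c700204100390) (nat_lit 16) Lb.e (@T16.mk En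
    (@En.n l7910 (nat_lit 1624) (nat_lit 8) (nat_lit 5))
    (@En.i (nat_lit 4904) (nat_lit 10) (nat_lit 14))
    (@En.n l1014 (nat_lit 1355) (nat_lit 2) (nat_lit 11))
    (@En.i (nat_lit 319) (nat_lit 3) (nat_lit 5))
    (@En.n l4155 (nat_lit 8525) (nat_lit 4) (nat_lit 7))
    (@En.i (nat_lit 837) (nat_lit 7) (nat_lit 11))
    (@En.n l2228 (nat_lit 5277) (nat_lit 12) (nat_lit 8))
    (@En.n l11 (nat_lit 1625) (nat_lit 7) (nat_lit 2))
    (@En.n l55 (nat_lit 1623) (nat_lit 9) (nat_lit 11))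
    (@En.n l615 (nat_lit 1663) (nat_lit 1) (nat_lit 14))
    (@En.n l3 (nat_lit 1625) (nat_lit 10) (nat_lit 2))
    (@En.i (nat_lit 1702) (nat_lit 3) (nat_lit 9))
    (@En.i (nat_lit 1933) (nat_lit 5) (nat_lit 14))
    (@En.n l699 (nat_lit 1626) (nat_lit 14) (nat_lit 5))
    (@En.n l2179 (nat_lit 1624) (nat_lit 6) (nat_lit 8))
    (@En.n l50 (nat_lit 1625) (nat_lit 15) (nat_lit 2))))
  (@Cl.mk (nat_lit 0x20005000e00090002000e000b0002000b000a00070005000b0005000e0006) (nat_lit 0x970020910040a0) (nat_lit 16) Lb.e (@T16.mk En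
    (@En.n l2723 (nat_lit 1628) (nat_lit 7) (nat_lit 6))
    (@En.n l396 (nat_lit 1625) (nat_lit 1) (nat_lit 14))
    (@En.i (nat_lit 1972) (nat_lit 2) (nat_lit 5))
    (@En.n l996 (nat_lit 611) (nat_lit 3) (nat_lit 11))
    (@En.i (nat_lit 311) (nat_lit 4) (nat_lit 5))
    (@En.n l916 (nat_lit 8522) (nat_lit 5) (nat_lit 7))
    (@En.n l644 (nat_lit 629) (nat_lit 14) (nat_lit 10))
    (@En.n l2228 (nat_lit 9890) (nat_lit 8) (nat_lit 11))
    (@En.n l11 (nat_lit 1626) (nat_lit 8) (nat_lit 2))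
    (@En.n l55 (nat_lit 1608) (nat_lit 10) (nat_lit 11))
    (@En.n l2237 (nat_lit 1662) (nat_lit 11) (nat_lit 14))
    (@En.n l3 (nat_lit 1626) (nat_lit 11) (nat_lit 2))
    (@En.n l916 (nat_lit 1701) (nat_lit 13) (nat_lit 9))
    (@En.n l996 (nat_lit 1930) (nat_lit 1) (nat_lit 14))
    (@En.n l640 (nat_lit 1632) (nat_lit 13) (nat_lit 5))
    (@En.n l18 (nat_lit 1626) (nat_lit 15) (nat_lit 2))))
  (@Cl.mk (nat_lit 0x20008000e000b000200090007000d000500080003000e00070002000e0009) (nat_lit 0x5810006060c0022) (nat_lit 16) Lb.e (@T16.mk En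
    (@En.i (nat_lit 1622) (nat_lit 4) (nat_lit 9))
    (@En.n l1016 (nat_lit 423) (nat_lit 1) (nat_lit 14))
    (@En.n l3 (nat_lit 1627) (nat_lit 2) (nat_lit 2))
    (@En.i (nat_lit 1693) (nat_lit 3) (nat_lit 7))
    (@En.i (nat_lit 1982) (nat_lit 1) (nat_lit 14))
    (@En.n l2364 (nat_lit 1630) (nat_lit 9) (nat_lit 3))
    (@En.i (nat_lit 12994) (nat_lit 10) (nat_lit 8))
    (@En.i (nat_lit 3138) (nat_lit 7) (nat_lit 5))
    (@En.n l1014 (nat_lit 1356) (nat_lit 13) (nat_lit 13))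
    (@En.i (nat_lit 375) (nat_lit 14) (nat_lit 7))
    (@En.i (nat_lit 8571) (nat_lit 11) (nat_lit 9))
    (@En.n l50 (nat_lit 1627) (nat_lit 11) (nat_lit 2))
    (@En.i (nat_lit 1624) (nat_lit 13) (nat_lit 11))
    (@En.n l601 (nat_lit 1629) (nat_lit 1) (nat_lit 14))
    (@En.n l287 (nat_lit 5266) (nat_lit 12) (nat_lit 8))
    (@En.n l11 (nat_lit 1627) (nat_lit 15) (nat_lit 2))))
  (@Cl.mk (nat_lit 0x2000a000a000a00080006000c0006000600060004000e00080002000e000a) (nat_lit 0x2503000096022) (nat_lit 16) Lb.e (@T16.mk En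
    (@En.n l690 (nat_lit 1620) (nat_lit 14) (nat_lit 10))
    (@En.n l16116 (nat_lit 1410) (nat_lit 1) (nat_lit 14))
    (@En.n l17 (nat_lit 1628) (nat_lit 2) (nat_lit 2))
    (@En.n l16116 (nat_lit 1691) (nat_lit 3) (nat_lit 8))
    (@En.i (nat_lit 1932) (nat_lit 1) (nat_lit 14))
    (@En.n l16117 (nat_lit 1631) (nat_lit 5) (nat_lit 4))
    (@En.n l16118 (nat_lit 1630) (nat_lit 10) (nat_lit 6))
    (@En.n l13156 (nat_lit 1629) (nat_lit 10) (nat_lit 6))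
    (@En.n l781 (nat_lit 1970) (nat_lit 8) (nat_lit 6))
    (@En.i (nat_lit 1340) (nat_lit 10) (nat_lit 12))
    (@En.n l690 (nat_lit 304) (nat_lit 7) (nat_lit 6))
    (@En.n l448 (nat_lit 8289) (nat_lit 12) (nat_lit 8))
    (@En.n l7993 (nat_lit 1626) (nat_lit 6) (nat_lit 10))
    (@En.n l16119 (nat_lit 1632) (nat_lit 6) (nat_lit 10))
    (@En.n l16120 (nat_lit 8178) (nat_lit 12) (nat_lit 10))
    (@En.n l107 (nat_lit 1628) (nat_lit 15) (nat_lit 2))))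
  (@Cl.mk (nat_lit 0x2000b00090007000d000600050003000e00070002000e00090002000e000a) (nat_lit 0x3004000c0023071) (nat_lit 16) Lb.e (@T16.mk En
    (@En.n l10194 (nat_lit 1628) (nat_lit 14) (nat_lit 10))
    (@En.n l287 (nat_lit 8042) (nat_lit 1) (nat_lit 14))
    (@En.n l11 (nat_lit 1629) (nat_lit 2) (nat_lit 2))
    (@En.i (nat_lit 1649) (nat_lit 14) (nat_lit 9))
    (@En.i (nat_lit 1287) (nat_lit 1) (nat_lit 14))
    (@En.n l3 (nat_lit 1629) (nat_lit 5) (nat_lit 2))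
    (@En.n l2254 (nat_lit 1695) (nat_lit 6) (nat_lit 7))
    (@En.n l10194 (nat_lit 1957) (nat_lit 1) (nat_lit 14))
    (@En.i (nat_lit 1635) (nat_lit 8) (nat_lit 3))
    (@En.i (nat_lit 1898) (nat_lit 9) (nat_lit 5))
    (@En.n l14052 (nat_lit 3143) (nat_lit 7) (nat_lit 6))
    (@En.n l10837 (nat_lit 1332) (nat_lit 12) (nat_lit 13))
    (@En.i (nat_lit 1118) (nat_lit 13) (nat_lit 7))
    (@En.n l2254 (nat_lit 8290) (nat_lit 14) (nat_lit 9))
    (@En.n l50 (nat_lit 1624) (nat_lit 12) (nat_lit 11))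
    (@En.n l7 (nat_lit 1629) (nat_lit 15) (nat_lit 2))))
  (@Cl.mk (nat_lit 0x200090007000d000700060003000e00070002000e000900020009000e000a) (nat_lit 0x30007001200a1) (nat_lit 16) Lb.e (@T16.mk En
    (@En.n l6531 (nat_lit 1628) (nat_lit 13) (nat_lit 10))
    (@En.n l5841 (nat_lit 1635) (nat_lit 1) (nat_lit 14))
    (@En.n l845 (nat_lit 8175) (nat_lit 12) (nat_lit 9))
    (@En.n l11 (nat_lit 1630) (nat_lit 3) (nat_lit 2))
    (@En.i (nat_lit 1633) (nat_lit 4) (nat_lit 9))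
    (@En.n l6532 (nat_lit 417) (nat_lit 1) (nat_lit 14))
    (@En.n l3 (nat_lit 1630) (nat_lit 6) (nat_lit 2))
    (@En.n l6533 (nat_lit 1692) (nat_lit 3) (nat_lit 7))
    (@En.n l877 (nat_lit 2124) (nat_lit 1) (nat_lit 14))
    (@En.n l763 (nat_lit 1627) (nat_lit 5) (nat_lit 3))
    (@En.i (nat_lit 1891) (nat_lit 6) (nat_lit 6))
    (@En.n l6534 (nat_lit 1971) (nat_lit 7) (nat_lit 7))
    (@En.n l877 (nat_lit 1246) (nat_lit 13) (nat_lit 13))
    (@En.i (nat_lit 378) (nat_lit 14) (nat_lit 7))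
    (@En.n l5842 (nat_lit 8574) (nat_lit 11) (nat_lit 9))
    (@En.n l50 (nat_lit 1630) (nat_lit 15) (nat_lit 2))))
  (@Cl.mk (nat_lit 0x200090009000c00080006000c0004000700070004000e00080002000e000a) (nat_lit 0x5050000b60a1) (nat_lit 16) Lb.e (@T16.mk En
    (@En.n l55 (nat_lit 1188) (nat_lit 14) (nat_lit 10))
    (@En.n l615 (nat_lit 1294) (nat_lit 1) (nat_lit 14))
    (@En.n l3 (nat_lit 1631) (nat_lit 2) (nat_lit 2))
    (@En.n l6304 (nat_lit 1558) (nat_lit 3) (nat_lit 8))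
    (@En.n l16123 (nat_lit 1808) (nat_lit 1) (nat_lit 14))
    (@En.n l2179 (nat_lit 1624) (nat_lit 5) (nat_lit 4))
    (@En.n l2139 (nat_lit 1635) (nat_lit 9) (nat_lit 7))
    (@En.n l2180 (nat_lit 1630) (nat_lit 11) (nat_lit 7))
    (@En.n l6485 (nat_lit 2096) (nat_lit 8) (nat_lit 4))
    (@En.n l16124 (nat_lit 1251) (nat_lit 10) (nat_lit 12))
    (@En.i (nat_lit 297) (nat_lit 7) (nat_lit 6))
    (@En.n l10476 (nat_lit 9180) (nat_lit 12) (nat_lit 8))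
    (@En.n l18 (nat_lit 1634) (nat_lit 6) (nat_lit 12))
    (@En.n l61 (nat_lit 1634) (nat_lit 7) (nat_lit 9))
    (@En.n l2228 (nat_lit 7547) (nat_lit 12) (nat_lit 9))
    (@En.n l11 (nat_lit 1631) (nat_lit 15) (nat_lit 2))))
noncomputable def a102 : T16 Cl := @T16.mk Cl
  (@Cl.mk (nat_lit 0x200070005000e00090002000e000b0002000a000900070005000b000e0006) (nat_lit 0xc70b108100310) (nat_lit 16) Lb.e (@T16.mk En
    (@En.n l6492 (nat_lit 1628) (nat_lit 8) (nat_lit 6))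
    (@En.n l1063 (nat_lit 1612) (nat_lit 10) (nat_lit 14))
    (@En.n l6493 (nat_lit 1341) (nat_lit 2) (nat_lit 11))
    (@En.i (nat_lit 296) (nat_lit 3) (nat_lit 5))
    (@En.n l6494 (nat_lit 7686) (nat_lit 13) (nat_lit 7))
    (@En.i (nat_lit 836) (nat_lit 5) (nat_lit 9))
    (@En.n l6495 (nat_lit 7550) (nat_lit 12) (nat_lit 10))
    (@En.n l11 (nat_lit 1632) (nat_lit 7) (nat_lit 2))
    (@En.n l2224 (nat_lit 1189) (nat_lit 9) (nat_lit 11))
    (@En.n l615 (nat_lit 1452) (nat_lit 1) (nat_lit 14))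
    (@En.n l3 (nat_lit 1632) (nat_lit 10) (nat_lit 2))
    (@En.n l6494 (nat_lit 1562) (nat_lit 12) (nat_lit 9))
    (@En.n l6493 (nat_lit 1815) (nat_lit 13) (nat_lit 14))
    (@En.n l699 (nat_lit 1634) (nat_lit 14) (nat_lit 5))
    (@En.n l17 (nat_lit 1631) (nat_lit 6) (nat_lit 7))
    (@En.n l18 (nat_lit 1632) (nat_lit 15) (nat_lit 2))))
  (@Cl.mk (nat_lit 0x2000800070007000d000800070003000e00080002000900090008000e0009) (nat_lit 0x430085015092) (nat_lit 16) Lb.e (@T16.mk En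
    (@En.n l7 (nat_lit 1620) (nat_lit 11) (nat_lit 9))
    (@En.n l5841 (nat_lit 1648) (nat_lit 12) (nat_lit 14))
    (@En.n l14458 (nat_lit 8173) (nat_lit 2) (nat_lit 8))
    (@En.n l16223 (nat_lit 1652) (nat_lit 3) (nat_lit 9))
    (@En.n l15501 (nat_lit 1428) (nat_lit 4) (nat_lit 9))
    (@En.n l3 (nat_lit 1633) (nat_lit 5) (nat_lit 2))
    (@En.n l8074 (nat_lit 1690) (nat_lit 6) (nat_lit 8))
    (@En.n l877 (nat_lit 1654) (nat_lit 1) (nat_lit 14))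
    (@En.n l763 (nat_lit 1622) (nat_lit 8) (nat_lit 3))
    (@En.i (nat_lit 1893) (nat_lit 3) (nat_lit 7))
    (@En.n l300 (nat_lit 1858) (nat_lit 4) (nat_lit 8))
    (@En.n l524 (nat_lit 1424) (nat_lit 12) (nat_lit 13))
    (@En.n l575 (nat_lit 1630) (nat_lit 13) (nat_lit 7))
    (@En.i (nat_lit 379) (nat_lit 14) (nat_lit 7))
    (@En.n l16224 (nat_lit 8575) (nat_lit 9) (nat_lit 8))
    (@En.n l50 (nat_lit 1633) (nat_lit 15) (nat_lit 2))))
  (@Cl.mk (nat_lit 0x20005000e00090002000e000b00020009000c00070005000b0004000e0007) (nat_lit 0xb70b107a004020) (nat_lit 16) Lb.e (@T16.mk En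
    (@En.i (nat_lit 1631) (nat_lit 7) (nat_lit 7))
    (@En.n l5 (nat_lit 1632) (nat_lit 1) (nat_lit 14))
    (@En.i (nat_lit 2098) (nat_lit 2) (nat_lit 4))
    (@En.n l1014 (nat_lit 1342) (nat_lit 3) (nat_lit 11))
    (@En.i (nat_lit 295) (nat_lit 4) (nat_lit 5))
    (@En.i (nat_lit 7687) (nat_lit 5) (nat_lit 7))
    (@En.i (nat_lit 13724) (nat_lit 6) (nat_lit 12))
    (@En.n l2228 (nat_lit 7548) (nat_lit 12) (nat_lit 9))
    (@En.n l11 (nat_lit 1634) (nat_lit 8) (nat_lit 2))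
    (@En.n l55 (nat_lit 1187) (nat_lit 10) (nat_lit 11))
    (@En.n l615 (nat_lit 1453) (nat_lit 1) (nat_lit 14))
    (@En.n l3 (nat_lit 1634) (nat_lit 11) (nat_lit 2))
    (@En.i (nat_lit 1555) (nat_lit 13) (nat_lit 9))
    (@En.n l4484 (nat_lit 1787) (nat_lit 1) (nat_lit 14))
    (@En.i (nat_lit 1625) (nat_lit 13) (nat_lit 5))
    (@En.n l17 (nat_lit 1634) (nat_lit 15) (nat_lit 2))))
  (@Cl.mk (nat_lit 0x2000c00090007000d000400070003000e00070002000e00090002000e0009) (nat_lit 0x1006000c0022091) (nat_lit 16) Lb.e (@T16.mk En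
    (@En.n l817 (nat_lit 1631) (nat_lit 14) (nat_lit 9))
    (@En.n l1195 (nat_lit 8041) (nat_lit 1) (nat_lit 14))
    (@En.n l11 (nat_lit 1635) (nat_lit 2) (nat_lit 2))
    (@En.i (nat_lit 1648) (nat_lit 14) (nat_lit 9))
    (@En.n l10834 (nat_lit 1291) (nat_lit 1) (nat_lit 14))
    (@En.n l3 (nat_lit 1635) (nat_lit 5) (nat_lit 2))
    (@En.n l5872 (nat_lit 1696) (nat_lit 6) (nat_lit 7))
    (@En.n l10835 (nat_lit 1810) (nat_lit 1) (nat_lit 14))
    (@En.n l17 (nat_lit 1629) (nat_lit 8) (nat_lit 3))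
    (@En.n l826 (nat_lit 1890) (nat_lit 11) (nat_lit 7))
    (@En.n l17 (nat_lit 2097) (nat_lit 10) (nat_lit 4))
    (@En.n l10836 (nat_lit 1333) (nat_lit 12) (nat_lit 13))
    (@En.i (nat_lit 1120) (nat_lit 13) (nat_lit 7))
    (@En.n l2254 (nat_lit 7835) (nat_lit 14) (nat_lit 9))
    (@En.n l816 (nat_lit 1631) (nat_lit 12) (nat_lit 12))
    (@En.n l7 (nat_lit 1635) (nat_lit 15) (nat_lit 2))))
  (@Cl.mk (nat_lit 0x200090009000c0005000b000a0004000700070005000e00060002000e000b) (nat_lit 0x44000000005) (nat_lit 16) Lb.e (@T16.mk En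
    (@En.n l7235 (nat_lit 1639) (nat_lit 14) (nat_lit 11))
    (@En.n l13788 (nat_lit 7179) (nat_lit 1) (nat_lit 14))
    (@En.n l50 (nat_lit 1636) (nat_lit 2) (nat_lit 2))
    (@En.n l30999 (nat_lit 1640) (nat_lit 3) (nat_lit 6))
    (@En.n l601 (nat_lit 5777) (nat_lit 1) (nat_lit 14))
    (@En.n l31000 (nat_lit 8291) (nat_lit 5) (nat_lit 5))
    (@En.n l61 (nat_lit 1637) (nat_lit 9) (nat_lit 7))
    (@En.n l1718 (nat_lit 4823) (nat_lit 11) (nat_lit 7))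
    (@En.n l18006 (nat_lit 1631) (nat_lit 8) (nat_lit 4))
    (@En.n l31001 (nat_lit 2106) (nat_lit 10) (nat_lit 10))
    (@En.n l3860 (nat_lit 1343) (nat_lit 11) (nat_lit 11))
    (@En.n l2652 (nat_lit 6038) (nat_lit 8) (nat_lit 5))
    (@En.n l31002 (nat_lit 1638) (nat_lit 6) (nat_lit 12))
    (@En.n l31003 (nat_lit 1638) (nat_lit 7) (nat_lit 9))
    (@En.i (nat_lit 7542) (nat_lit 12) (nat_lit 9))
    (@En.n l3 (nat_lit 1636) (nat_lit 15) (nat_lit 2))))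
  (@Cl.mk (nat_lit 0x2000c0006000c000b000400070004000e00050002000e000a0002000e0009) (nat_lit 0x1050000000000a1) (nat_lit 16) Lb.e (@T16.mk En
    (@En.i (nat_lit 1636) (nat_lit 14) (nat_lit 9))
    (@En.n l1531 (nat_lit 5599) (nat_lit 1) (nat_lit 14))
    (@En.n l3 (nat_lit 1637) (nat_lit 2) (nat_lit 2))
    (@En.n l1532 (nat_lit 1642) (nat_lit 14) (nat_lit 10))
    (@En.n l11275 (nat_lit 7183) (nat_lit 1) (nat_lit 14))
    (@En.n l50 (nat_lit 1637) (nat_lit 5) (nat_lit 2))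
    (@En.n l24280 (nat_lit 1644) (nat_lit 6) (nat_lit 5))
    (@En.n l601 (nat_lit 5774) (nat_lit 1) (nat_lit 14))
    (@En.n l3860 (nat_lit 8287) (nat_lit 8) (nat_lit 4))
    (@En.n l1718 (nat_lit 4802) (nat_lit 11) (nat_lit 7))
    (@En.n l23875 (nat_lit 1635) (nat_lit 10) (nat_lit 4))
    (@En.n l77 (nat_lit 4824) (nat_lit 12) (nat_lit 11))
    (@En.n l3860 (nat_lit 1347) (nat_lit 13) (nat_lit 12))
    (@En.n l2652 (nat_lit 7411) (nat_lit 14) (nat_lit 6))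
    (@En.n l617 (nat_lit 1636) (nat_lit 12) (nat_lit 12))
    (@En.n l17 (nat_lit 1637) (nat_lit 15) (nat_lit 2))))
  (@Cl.mk (nat_lit 0x20006000e00070002000e000c00020009000c0004000a00090004000e0007) (nat_lit 0x507a030000) (nat_lit 16) Lb.e (@T16.mk En
    (@En.n l16102 (nat_lit 1636) (nat_lit 7) (nat_lit 7))
    (@En.n l6486 (nat_lit 5738) (nat_lit 1) (nat_lit 14))
    (@En.i (nat_lit 1634) (nat_lit 2) (nat_lit 4))
    (@En.n l16103 (nat_lit 2109) (nat_lit 11) (nat_lit 9))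
    (@En.n l16104 (nat_lit 1344) (nat_lit 4) (nat_lit 10))
    (@En.i (nat_lit 6033) (nat_lit 5) (nat_lit 4))
    (@En.i (nat_lit 12863) (nat_lit 6) (nat_lit 12))
    (@En.n l2228 (nat_lit 5804) (nat_lit 12) (nat_lit 9))
    (@En.n l11 (nat_lit 1638) (nat_lit 8) (nat_lit 2))
    (@En.n l55 (nat_lit 1641) (nat_lit 10) (nat_lit 12))
    (@En.n l11734 (nat_lit 7178) (nat_lit 1) (nat_lit 14))
    (@En.n l3 (nat_lit 1638) (nat_lit 11) (nat_lit 2))
    (@En.n l11735 (nat_lit 1645) (nat_lit 13) (nat_lit 7))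
    (@En.n l13365 (nat_lit 6046) (nat_lit 5) (nat_lit 14))
    (@En.n l16105 (nat_lit 8295) (nat_lit 5) (nat_lit 6))
    (@En.n l17 (nat_lit 1638) (nat_lit 15) (nat_lit 2))))
  (@Cl.mk (nat_lit 0x2000b000b00080008000b00050005000b000a0005000800080005000e0006) (nat_lit 0x450000055000000) (nat_lit 16) Lb.e (@T16.mk En
    (@En.n l34925 (nat_lit 1643) (nat_lit 6) (nat_lit 6))
    (@En.n l5 (nat_lit 5775) (nat_lit 1) (nat_lit 14))
    (@En.n l11512 (nat_lit 8282) (nat_lit 2) (nat_lit 5))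
    (@En.n l12241 (nat_lit 1642) (nat_lit 3) (nat_lit 8))
    (@En.n l19188 (nat_lit 5305) (nat_lit 10) (nat_lit 8))
    (@En.n l11678 (nat_lit 1188) (nat_lit 5) (nat_lit 5))
    (@En.n l2579 (nat_lit 2456) (nat_lit 6) (nat_lit 10))
    (@En.n l34926 (nat_lit 6944) (nat_lit 8) (nat_lit 11))
    (@En.n l12245 (nat_lit 1636) (nat_lit 11) (nat_lit 5))
    (@En.n l19190 (nat_lit 6041) (nat_lit 9) (nat_lit 5))
    (@En.n l10811 (nat_lit 1641) (nat_lit 7) (nat_lit 11))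
    (@En.n l34927 (nat_lit 1641) (nat_lit 8) (nat_lit 8))
    (@En.n l12246 (nat_lit 7436) (nat_lit 13) (nat_lit 8))
    (@En.n l34928 (nat_lit 5200) (nat_lit 14) (nat_lit 11))
    (@En.n l12239 (nat_lit 4936) (nat_lit 4) (nat_lit 11))
    (@En.n l17 (nat_lit 1639) (nat_lit 15) (nat_lit 2))))
  (@Cl.mk (nat_lit 0x200080008000b0005000a000a000a000500080008000600060006000e000b) (nat_lit 0x220040505500084) (nat_lit 16) Lb.e (@T16.mk En
    (@En.n l30226 (nat_lit 1643) (nat_lit 4) (nat_lit 11))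
    (@En.n l30227 (nat_lit 5221) (nat_lit 1) (nat_lit 14))
    (@En.n l152 (nat_lit 4764) (nat_lit 10) (nat_lit 6))
    (@En.n l10848 (nat_lit 4633) (nat_lit 3) (nat_lit 6))
    (@En.n l30228 (nat_lit 8292) (nat_lit 4) (nat_lit 6))
    (@En.n l30229 (nat_lit 1644) (nat_lit 8) (nat_lit 8))
    (@En.n l30230 (nat_lit 5302) (nat_lit 10) (nat_lit 8))
    (@En.n l30231 (nat_lit 5012) (nat_lit 7) (nat_lit 5))
    (@En.n l30232 (nat_lit 1636) (nat_lit 9) (nat_lit 10))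
    (@En.n l30233 (nat_lit 5127) (nat_lit 6) (nat_lit 10))
    (@En.i (nat_lit 1346) (nat_lit 11) (nat_lit 10))
    (@En.n l30234 (nat_lit 6040) (nat_lit 12) (nat_lit 5))
    (@En.n l30235 (nat_lit 1645) (nat_lit 7) (nat_lit 11))
    (@En.n l30236 (nat_lit 1645) (nat_lit 8) (nat_lit 8))
    (@En.n l30237 (nat_lit 6532) (nat_lit 2) (nat_lit 8))
    (@En.n l28 (nat_lit 1640) (nat_lit 15) (nat_lit 2))))
  (@Cl.mk (nat_lit 0x20006000e00070002000c000c0008000b00040004000a00090005000e0008) (nat_lit 0x45690040001) (nat_lit 16) Lb.e (@T16.mk En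
    (@En.n l4562 (nat_lit 1639) (nat_lit 4) (nat_lit 8))
    (@En.n l24327 (nat_lit 5737) (nat_lit 1) (nat_lit 14))
    (@En.i (nat_lit 1187) (nat_lit 2) (nat_lit 5))
    (@En.n l4563 (nat_lit 2403) (nat_lit 3) (nat_lit 9))
    (@En.n l1599 (nat_lit 6943) (nat_lit 4) (nat_lit 10))
    (@En.n l1577 (nat_lit 1638) (nat_lit 5) (nat_lit 4))
    (@En.i (nat_lit 6031) (nat_lit 6) (nat_lit 4))
    (@En.i (nat_lit 12788) (nat_lit 7) (nat_lit 11))
    (@En.n l24328 (nat_lit 7433) (nat_lit 13) (nat_lit 8))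
    (@En.n l1578 (nat_lit 6030) (nat_lit 10) (nat_lit 12))
    (@En.n l12118 (nat_lit 4934) (nat_lit 11) (nat_lit 12))
    (@En.n l3 (nat_lit 1641) (nat_lit 11) (nat_lit 2))
    (@En.n l24329 (nat_lit 1646) (nat_lit 13) (nat_lit 7))
    (@En.n l24330 (nat_lit 6028) (nat_lit 1) (nat_lit 14))
    (@En.i (nat_lit 8508) (nat_lit 2) (nat_lit 6))
    (@En.n l17 (nat_lit 1641) (nat_lit 15) (nat_lit 2))))
  (@Cl.mk (nat_lit 0x2000a000a000e00080002000b00060006000c000b000500080004000e0005) (nat_lit 0x859101006006000) (nat_lit 16) Lb.e (@T16.mk En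
    (@En.n l22266 (nat_lit 1647) (nat_lit 5) (nat_lit 5))
    (@En.n l601 (nat_lit 5776) (nat_lit 1) (nat_lit 14))
    (@En.i (nat_lit 8276) (nat_lit 7) (nat_lit 4))
    (@En.n l13540 (nat_lit 4799) (nat_lit 10) (nat_lit 8))
    (@En.n l22267 (nat_lit 1648) (nat_lit 4) (nat_lit 5))
    (@En.n l77 (nat_lit 2454) (nat_lit 11) (nat_lit 11))
    (@En.n l19511 (nat_lit 6945) (nat_lit 7) (nat_lit 12))
    (@En.n l1900 (nat_lit 1637) (nat_lit 13) (nat_lit 6))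
    (@En.n l18896 (nat_lit 7738) (nat_lit 14) (nat_lit 6))
    (@En.n l5596 (nat_lit 1639) (nat_lit 10) (nat_lit 11))
    (@En.n l17 (nat_lit 1642) (nat_lit 10) (nat_lit 2))
    (@En.n l5597 (nat_lit 1639) (nat_lit 12) (nat_lit 8))
    (@En.i (nat_lit 5597) (nat_lit 13) (nat_lit 14))
    (@En.n l15358 (nat_lit 5203) (nat_lit 2) (nat_lit 10))
    (@En.n l2129 (nat_lit 5283) (nat_lit 3) (nat_lit 10))
    (@En.n l50 (nat_lit 1642) (nat_lit 15) (nat_lit 2))))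
  (@Cl.mk (nat_lit 0x50005000a000a000a000600090009000600060006000b000b00070007000a) (nat_lit 0x50600000034000) (nat_lit 16) Lb.e (@T16.mk En
    (@En.n l31021 (nat_lit 1646) (nat_lit 8) (nat_lit 10))
    (@En.n l36428 (nat_lit 1646) (nat_lit 9) (nat_lit 7))
    (@En.n l37617 (nat_lit 6527) (nat_lit 2) (nat_lit 7))
    (@En.n l61 (nat_lit 5196) (nat_lit 5) (nat_lit 11))
    (@En.n l287 (nat_lit 5239) (nat_lit 9) (nat_lit 11))
    (@En.n l37618 (nat_lit 4762) (nat_lit 10) (nat_lit 6))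
    (@En.n l36430 (nat_lit 4636) (nat_lit 10) (nat_lit 6))
    (@En.n l28816 (nat_lit 8283) (nat_lit 7) (nat_lit 6))
    (@En.n l77 (nat_lit 1647) (nat_lit 7) (nat_lit 9))
    (@En.i (nat_lit 5304) (nat_lit 9) (nat_lit 9))
    (@En.n l532 (nat_lit 5015) (nat_lit 2) (nat_lit 6))
    (@En.n l37619 (nat_lit 1639) (nat_lit 6) (nat_lit 10))
    (@En.n l37620 (nat_lit 5194) (nat_lit 6) (nat_lit 10))
    (@En.n l25625 (nat_lit 6515) (nat_lit 10) (nat_lit 10))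
    (@En.n l27147 (nat_lit 1640) (nat_lit 11) (nat_lit 5))
    (@En.n l28816 (nat_lit 6042) (nat_lit 0) (nat_lit 5))))
  (@Cl.mk (nat_lit 0x2000b0006000b000b000b00050008000500050005000e000a0002000e0008) (nat_lit 0x105010400050083) (nat_lit 16) Lb.e (@T16.mk En
    (@En.n l19541 (nat_lit 1640) (nat_lit 14) (nat_lit 8))
    (@En.n l19542 (nat_lit 5605) (nat_lit 1) (nat_lit 14))
    (@En.n l7 (nat_lit 1644) (nat_lit 2) (nat_lit 2))
    (@En.n l2140 (nat_lit 1647) (nat_lit 3) (nat_lit 10))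
    (@En.n l19543 (nat_lit 5223) (nat_lit 1) (nat_lit 14))
    (@En.n l19544 (nat_lit 4763) (nat_lit 11) (nat_lit 5))
    (@En.n l19545 (nat_lit 4635) (nat_lit 6) (nat_lit 5))
    (@En.n l19541 (nat_lit 8288) (nat_lit 7) (nat_lit 5))
    (@En.i (nat_lit 4727) (nat_lit 10) (nat_lit 8))
    (@En.n l10256 (nat_lit 5013) (nat_lit 9) (nat_lit 5))
    (@En.n l19546 (nat_lit 1637) (nat_lit 11) (nat_lit 11))
    (@En.n l19547 (nat_lit 5204) (nat_lit 5) (nat_lit 11))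
    (@En.n l19541 (nat_lit 1348) (nat_lit 13) (nat_lit 11))
    (@En.i (nat_lit 5314) (nat_lit 14) (nat_lit 6))
    (@En.n l19548 (nat_lit 1640) (nat_lit 12) (nat_lit 11))
    (@En.n l18 (nat_lit 1644) (nat_lit 15) (nat_lit 2))))
  (@Cl.mk (nat_lit 0x2000700070007000e000c00020008000b00040009000900090005000e0008) (nat_lit 0x190301006) (nat_lit 16) Lb.e (@T16.mk En
    (@En.n l17128 (nat_lit 1640) (nat_lit 6) (nat_lit 8))
    (@En.n l17129 (nat_lit 5736) (nat_lit 1) (nat_lit 14))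
    (@En.n l6357 (nat_lit 5011) (nat_lit 2) (nat_lit 5))
    (@En.n l6096 (nat_lit 1638) (nat_lit 3) (nat_lit 9))
    (@En.n l13062 (nat_lit 5126) (nat_lit 7) (nat_lit 9))
    (@En.n l17130 (nat_lit 1345) (nat_lit 5) (nat_lit 9))
    (@En.n l17131 (nat_lit 6036) (nat_lit 6) (nat_lit 4))
    (@En.i (nat_lit 12785) (nat_lit 7) (nat_lit 11))
    (@En.n l1643 (nat_lit 52) (nat_lit 1) (nat_lit 8))
    (@En.n l3 (nat_lit 1645) (nat_lit 9) (nat_lit 2))
    (@En.n l649 (nat_lit 1646) (nat_lit 11) (nat_lit 12))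
    (@En.n l17130 (nat_lit 5222) (nat_lit 12) (nat_lit 14))
    (@En.n l287 (nat_lit 4767) (nat_lit 9) (nat_lit 7))
    (@En.n l55 (nat_lit 4634) (nat_lit 14) (nat_lit 7))
    (@En.n l17132 (nat_lit 8296) (nat_lit 4) (nat_lit 7))
    (@En.n l17 (nat_lit 1645) (nat_lit 15) (nat_lit 2))))
  (@Cl.mk (nat_lit 0x2000700070007000c000c0007000a000400040009000900090006000e0009) (nat_lit 0xa408004010a1) (nat_lit 16) Lb.e (@T16.mk En
    (@En.n l23155 (nat_lit 1643) (nat_lit 9) (nat_lit 9))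
    (@En.n l134 (nat_lit 5699) (nat_lit 1) (nat_lit 14))
    (@En.n l5577 (nat_lit 5020) (nat_lit 2) (nat_lit 6))
    (@En.n l23156 (nat_lit 1641) (nat_lit 3) (nat_lit 9))
    (@En.n l12548 (nat_lit 5133) (nat_lit 7) (nat_lit 9))
    (@En.n l23157 (nat_lit 6518) (nat_lit 5) (nat_lit 9))
    (@En.n l5331 (nat_lit 1645) (nat_lit 6) (nat_lit 4))
    (@En.n l23158 (nat_lit 6034) (nat_lit 7) (nat_lit 4))
    (@En.n l2869 (nat_lit 12784) (nat_lit 8) (nat_lit 10))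
    (@En.n l15819 (nat_lit 6526) (nat_lit 10) (nat_lit 7))
    (@En.n l61 (nat_lit 5198) (nat_lit 11) (nat_lit 12))
    (@En.n l4021 (nat_lit 5243) (nat_lit 12) (nat_lit 12))
    (@En.n l1865 (nat_lit 4766) (nat_lit 9) (nat_lit 7))
    (@En.n l152 (nat_lit 4637) (nat_lit 14) (nat_lit 7))
    (@En.n l117 (nat_lit 8507) (nat_lit 6) (nat_lit 7))
    (@En.n l7 (nat_lit 1646) (nat_lit 15) (nat_lit 2))))
  (@Cl.mk (nat_lit 0x2000a00060006000b000b000b00060009000500050005000a000a000e0007) (nat_lit 0x100601070008400) (nat_lit 16) Lb.e (@T16.mk En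
    (@En.i (nat_lit 1643) (nat_lit 2) (nat_lit 7))
    (@En.i (nat_lit 5604) (nat_lit 1) (nat_lit 14))
    (@En.n l61 (nat_lit 5197) (nat_lit 2) (nat_lit 10))
    (@En.n l287 (nat_lit 5244) (nat_lit 3) (nat_lit 10))
    (@En.n l11 (nat_lit 4761) (nat_lit 11) (nat_lit 5))
    (@En.n l152 (nat_lit 4638) (nat_lit 5) (nat_lit 5))
    (@En.n l2154 (nat_lit 8278) (nat_lit 6) (nat_lit 5))
    (@En.i (nat_lit 4757) (nat_lit 9) (nat_lit 9))
    (@En.n l532 (nat_lit 5019) (nat_lit 8) (nat_lit 6))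
    (@En.n l11363 (nat_lit 1642) (nat_lit 5) (nat_lit 11))
    (@En.n l3471 (nat_lit 5193) (nat_lit 5) (nat_lit 11))
    (@En.i (nat_lit 6519) (nat_lit 12) (nat_lit 11))
    (@En.n l14508 (nat_lit 1644) (nat_lit 13) (nat_lit 6))
    (@En.n l1723 (nat_lit 7154) (nat_lit 14) (nat_lit 6))
    (@En.n l4172 (nat_lit 1643) (nat_lit 0) (nat_lit 10))
    (@En.n l7 (nat_lit 1647) (nat_lit 15) (nat_lit 2))))
noncomputable def a103 : T16 Cl := @T16.mk Cl
  (@Cl.mk (nat_lit 0x200090009000e00080002000b000800070007000d000500080003000e0008) (nat_lit 0x1581025007060c5) (nat_lit 16) Lb.e (@T16.mk En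
    (@En.n l19138 (nat_lit 1519) (nat_lit 5) (nat_lit 8))
    (@En.n l19139 (nat_lit 1492) (nat_lit 1) (nat_lit 14))
    (@En.n l17 (nat_lit 1649) (nat_lit 2) (nat_lit 3))
    (@En.n l16376 (nat_lit 1892) (nat_lit 3) (nat_lit 8))
    (@En.n l17 (nat_lit 1655) (nat_lit 4) (nat_lit 5))
    (@En.n l524 (nat_lit 1399) (nat_lit 6) (nat_lit 13))
    (@En.n l575 (nat_lit 1635) (nat_lit 12) (nat_lit 7))
    (@En.i (nat_lit 1124) (nat_lit 7) (nat_lit 7))
    (@En.n l6578 (nat_lit 7834) (nat_lit 14) (nat_lit 8))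
    (@En.n l7968 (nat_lit 1188) (nat_lit 10) (nat_lit 11))
    (@En.n l7 (nat_lit 1648) (nat_lit 10) (nat_lit 2))
    (@En.n l7963 (nat_lit 1188) (nat_lit 12) (nat_lit 8))
    (@En.n l19140 (nat_lit 8037) (nat_lit 13) (nat_lit 14))
    (@En.n l19141 (nat_lit 1650) (nat_lit 14) (nat_lit 9))
    (@En.n l16376 (nat_lit 1514) (nat_lit 3) (nat_lit 9))
    (@En.n l3 (nat_lit 1648) (nat_lit 15) (nat_lit 2))))
  (@Cl.mk (nat_lit 0x200090009000e00090002000a000800070007000d000700060003000e0008) (nat_lit 0x2561035006000c5) (nat_lit 16) Lb.e (@T16.mk En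
    (@En.n l6578 (nat_lit 1575) (nat_lit 5) (nat_lit 8))
    (@En.i (nat_lit 1956) (nat_lit 1) (nat_lit 14))
    (@En.i (nat_lit 1648) (nat_lit 2) (nat_lit 3))
    (@En.i (nat_lit 1899) (nat_lit 3) (nat_lit 6))
    (@En.n l14052 (nat_lit 2990) (nat_lit 4) (nat_lit 7))
    (@En.n l524 (nat_lit 1397) (nat_lit 6) (nat_lit 13))
    (@En.n l575 (nat_lit 1629) (nat_lit 12) (nat_lit 7))
    (@En.i (nat_lit 1123) (nat_lit 7) (nat_lit 7))
    (@En.n l6578 (nat_lit 9104) (nat_lit 14) (nat_lit 8))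
    (@En.n l50 (nat_lit 1621) (nat_lit 10) (nat_lit 10))
    (@En.n l7 (nat_lit 1649) (nat_lit 10) (nat_lit 2))
    (@En.i (nat_lit 1620) (nat_lit 12) (nat_lit 9))
    (@En.n l532 (nat_lit 8038) (nat_lit 13) (nat_lit 14))
    (@En.n l3554 (nat_lit 1651) (nat_lit 2) (nat_lit 9))
    (@En.n l107 (nat_lit 1516) (nat_lit 3) (nat_lit 9))
    (@En.n l3 (nat_lit 1649) (nat_lit 15) (nat_lit 2))))
  (@Cl.mk (nat_lit 0x20009000e00070002000a0007000e00070002000d000600090003000e0009) (nat_lit 0x470020700607005) (nat_lit 16) Lb.e (@T16.mk En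
    (@En.n l2593 (nat_lit 1528) (nat_lit 4) (nat_lit 9))
    (@En.i (nat_lit 1804) (nat_lit 1) (nat_lit 14))
    (@En.n l22443 (nat_lit 1651) (nat_lit 6) (nat_lit 3))
    (@En.i (nat_lit 3667) (nat_lit 3) (nat_lit 9))
    (@En.n l17921 (nat_lit 1653) (nat_lit 14) (nat_lit 6))
    (@En.n l22444 (nat_lit 1407) (nat_lit 6) (nat_lit 13))
    (@En.n l18 (nat_lit 1650) (nat_lit 6) (nat_lit 2))
    (@En.n l11212 (nat_lit 1648) (nat_lit 7) (nat_lit 7))
    (@En.n l564 (nat_lit 4949) (nat_lit 1) (nat_lit 14))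
    (@En.n l15969 (nat_lit 7833) (nat_lit 14) (nat_lit 7))
    (@En.n l22445 (nat_lit 1191) (nat_lit 11) (nat_lit 10))
    (@En.n l11 (nat_lit 1650) (nat_lit 11) (nat_lit 2))
    (@En.n l22446 (nat_lit 1191) (nat_lit 13) (nat_lit 7))
    (@En.n l15969 (nat_lit 5951) (nat_lit 1) (nat_lit 14))
    (@En.i (nat_lit 2582) (nat_lit 2) (nat_lit 9))
    (@En.n l8 (nat_lit 1650) (nat_lit 15) (nat_lit 2))))
  (@Cl.mk (nat_lit 0x200090007000e00070002000d000800070003000e000900020009000e0008) (nat_lit 0x307006600050451) (nat_lit 16) Lb.e (@T16.mk En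
    (@En.n l18931 (nat_lit 1609) (nat_lit 13) (nat_lit 8))
    (@En.i (nat_lit 12622) (nat_lit 1) (nat_lit 14))
    (@En.n l3268 (nat_lit 2588) (nat_lit 2) (nat_lit 9))
    (@En.n l3 (nat_lit 1651) (nat_lit 3) (nat_lit 2))
    (@En.n l1268 (nat_lit 1527) (nat_lit 4) (nat_lit 9))
    (@En.n l4361 (nat_lit 1661) (nat_lit 1) (nat_lit 14))
    (@En.n l18932 (nat_lit 1650) (nat_lit 2) (nat_lit 3))
    (@En.i (nat_lit 3665) (nat_lit 3) (nat_lit 7))
    (@En.n l14727 (nat_lit 4212) (nat_lit 14) (nat_lit 8))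
    (@En.n l1266 (nat_lit 1401) (nat_lit 6) (nat_lit 13))
    (@En.n l50 (nat_lit 1651) (nat_lit 10) (nat_lit 2))
    (@En.n l1267 (nat_lit 1649) (nat_lit 7) (nat_lit 7))
    (@En.n l4139 (nat_lit 4966) (nat_lit 13) (nat_lit 14))
    (@En.n l18933 (nat_lit 9115) (nat_lit 14) (nat_lit 7))
    (@En.n l18934 (nat_lit 1507) (nat_lit 11) (nat_lit 9))
    (@En.n l11 (nat_lit 1651) (nat_lit 15) (nat_lit 2))))
  (@Cl.mk (nat_lit 0x20007000e00070002000d000900080003000e0009000200090007000e0008) (nat_lit 0x7008460a404082) (nat_lit 16) Lb.e (@T16.mk En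
    (@En.n l24359 (nat_lit 1609) (nat_lit 12) (nat_lit 8))
    (@En.n l1578 (nat_lit 1650) (nat_lit 13) (nat_lit 14))
    (@En.n l24360 (nat_lit 8990) (nat_lit 2) (nat_lit 7))
    (@En.i (nat_lit 2603) (nat_lit 3) (nat_lit 9))
    (@En.n l8 (nat_lit 1652) (nat_lit 4) (nat_lit 2))
    (@En.n l2593 (nat_lit 1535) (nat_lit 5) (nat_lit 9))
    (@En.i (nat_lit 1653) (nat_lit 1) (nat_lit 14))
    (@En.n l9317 (nat_lit 1872) (nat_lit 7) (nat_lit 3))
    (@En.n l575 (nat_lit 3666) (nat_lit 3) (nat_lit 8))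
    (@En.n l24361 (nat_lit 1861) (nat_lit 4) (nat_lit 9))
    (@En.n l16061 (nat_lit 1427) (nat_lit 11) (nat_lit 13))
    (@En.n l18 (nat_lit 1652) (nat_lit 11) (nat_lit 2))
    (@En.n l12457 (nat_lit 1633) (nat_lit 13) (nat_lit 7))
    (@En.n l564 (nat_lit 4941) (nat_lit 9) (nat_lit 14))
    (@En.n l24360 (nat_lit 9045) (nat_lit 2) (nat_lit 7))
    (@En.n l28 (nat_lit 1652) (nat_lit 15) (nat_lit 2))))
  (@Cl.mk (nat_lit 0x2000600090007000e000800020008000e00070002000a00090008000e0008) (nat_lit 0x40840400004090) (nat_lit 16) Lb.e (@T16.mk En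
    (@En.n l13118 (nat_lit 1655) (nat_lit 6) (nat_lit 8))
    (@En.n l13119 (nat_lit 5064) (nat_lit 8) (nat_lit 14))
    (@En.n l13120 (nat_lit 2131) (nat_lit 2) (nat_lit 8))
    (@En.n l13121 (nat_lit 1651) (nat_lit 14) (nat_lit 9))
    (@En.n l13122 (nat_lit 1654) (nat_lit 4) (nat_lit 10))
    (@En.n l18 (nat_lit 1653) (nat_lit 5) (nat_lit 2))
    (@En.n l13123 (nat_lit 1654) (nat_lit 6) (nat_lit 7))
    (@En.n l4589 (nat_lit 5199) (nat_lit 8) (nat_lit 14))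
    (@En.n l13124 (nat_lit 3313) (nat_lit 2) (nat_lit 8))
    (@En.n l28 (nat_lit 1653) (nat_lit 9) (nat_lit 2))
    (@En.n l13125 (nat_lit 1656) (nat_lit 11) (nat_lit 8))
    (@En.n l1578 (nat_lit 1804) (nat_lit 12) (nat_lit 14))
    (@En.n l12875 (nat_lit 3024) (nat_lit 13) (nat_lit 7))
    (@En.n l4589 (nat_lit 2077) (nat_lit 3) (nat_lit 9))
    (@En.i (nat_lit 1790) (nat_lit 4) (nat_lit 6))
    (@En.n l8 (nat_lit 1653) (nat_lit 15) (nat_lit 2))))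
  (@Cl.mk (nat_lit 0x20006000900090008000e00090002000900070007000a00080007000e0007) (nat_lit 0x5055040083070) (nat_lit 16) Lb.e (@T16.mk En
    (@En.n l11639 (nat_lit 1657) (nat_lit 7) (nat_lit 7))
    (@En.n l23217 (nat_lit 3181) (nat_lit 1) (nat_lit 14))
    (@En.n l1219 (nat_lit 2126) (nat_lit 2) (nat_lit 7))
    (@En.i (nat_lit 1609) (nat_lit 11) (nat_lit 8))
    (@En.n l3 (nat_lit 2124) (nat_lit 4) (nat_lit 10))
    (@En.n l527 (nat_lit 2124) (nat_lit 5) (nat_lit 7))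
    (@En.n l1219 (nat_lit 6761) (nat_lit 6) (nat_lit 7))
    (@En.n l3699 (nat_lit 3312) (nat_lit 8) (nat_lit 9))
    (@En.n l7 (nat_lit 1654) (nat_lit 8) (nat_lit 2))
    (@En.n l644 (nat_lit 1658) (nat_lit 10) (nat_lit 9))
    (@En.n l23217 (nat_lit 1492) (nat_lit 11) (nat_lit 14))
    (@En.n l23872 (nat_lit 4214) (nat_lit 12) (nat_lit 8))
    (@En.n l23873 (nat_lit 1653) (nat_lit 13) (nat_lit 9))
    (@En.n l23872 (nat_lit 1863) (nat_lit 4) (nat_lit 9))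
    (@En.n l11204 (nat_lit 1487) (nat_lit 5) (nat_lit 6))
    (@En.n l17 (nat_lit 1654) (nat_lit 15) (nat_lit 2))))
  (@Cl.mk (nat_lit 0x200080008000e00080002000b000a000900080008000500080006000e0007) (nat_lit 0x5c000406204010) (nat_lit 16) Lb.e (@T16.mk En
    (@En.n l22376 (nat_lit 1659) (nat_lit 5) (nat_lit 7))
    (@En.n l22377 (nat_lit 1491) (nat_lit 1) (nat_lit 14))
    (@En.i (nat_lit 3132) (nat_lit 2) (nat_lit 6))
    (@En.n l7980 (nat_lit 2076) (nat_lit 3) (nat_lit 8))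
    (@En.n l22378 (nat_lit 1764) (nat_lit 4) (nat_lit 5))
    (@En.n l575 (nat_lit 2097) (nat_lit 11) (nat_lit 8))
    (@En.i (nat_lit 2346) (nat_lit 6) (nat_lit 8))
    (@En.n l22379 (nat_lit 2448) (nat_lit 13) (nat_lit 9))
    (@En.n l61 (nat_lit 1649) (nat_lit 9) (nat_lit 10))
    (@En.n l22380 (nat_lit 1657) (nat_lit 10) (nat_lit 11))
    (@En.n l7 (nat_lit 1655) (nat_lit 10) (nat_lit 2))
    (@En.n l22381 (nat_lit 1657) (nat_lit 12) (nat_lit 8))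
    (@En.n l16008 (nat_lit 3172) (nat_lit 13) (nat_lit 14))
    (@En.n l22382 (nat_lit 1653) (nat_lit 8) (nat_lit 8))
    (@En.n l22383 (nat_lit 1984) (nat_lit 3) (nat_lit 8))
    (@En.n l3 (nat_lit 1655) (nat_lit 15) (nat_lit 2))))
  (@Cl.mk (nat_lit 0x20007000a0008000800080007000e000600020009000800080008000e0009) (nat_lit 0x70320c00045150) (nat_lit 16) Lb.e (@T16.mk En
    (@En.n l1615 (nat_lit 1659) (nat_lit 10) (nat_lit 9))
    (@En.n l5067 (nat_lit 1491) (nat_lit 11) (nat_lit 14))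
    (@En.n l5068 (nat_lit 1653) (nat_lit 2) (nat_lit 8))
    (@En.n l5069 (nat_lit 1661) (nat_lit 3) (nat_lit 8))
    (@En.n l5070 (nat_lit 1527) (nat_lit 14) (nat_lit 8))
    (@En.n l5071 (nat_lit 1658) (nat_lit 5) (nat_lit 9))
    (@En.n l18 (nat_lit 1656) (nat_lit 6) (nat_lit 2))
    (@En.n l5072 (nat_lit 1658) (nat_lit 7) (nat_lit 6))
    (@En.n l1612 (nat_lit 5710) (nat_lit 9) (nat_lit 14))
    (@En.n l5073 (nat_lit 2068) (nat_lit 2) (nat_lit 7))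
    (@En.i (nat_lit 1942) (nat_lit 3) (nat_lit 8))
    (@En.n l152 (nat_lit 1811) (nat_lit 12) (nat_lit 8))
    (@En.n l916 (nat_lit 3664) (nat_lit 5) (nat_lit 8))
    (@En.i (nat_lit 2079) (nat_lit 8) (nat_lit 10))
    (@En.n l175 (nat_lit 954) (nat_lit 7) (nat_lit 7))
    (@En.n l28 (nat_lit 1656) (nat_lit 15) (nat_lit 2))))
  (@Cl.mk (nat_lit 0x20009000900080008000b00090008000700070005000800080007000e0008) (nat_lit 0x56093000015015) (nat_lit 16) Lb.e (@T16.mk En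
    (@En.n l23925 (nat_lit 1660) (nat_lit 11) (nat_lit 8))
    (@En.n l5 (nat_lit 1489) (nat_lit 1) (nat_lit 14))
    (@En.n l30333 (nat_lit 3134) (nat_lit 2) (nat_lit 7))
    (@En.n l30334 (nat_lit 1655) (nat_lit 3) (nat_lit 8))
    (@En.n l4968 (nat_lit 1617) (nat_lit 4) (nat_lit 8))
    (@En.n l30335 (nat_lit 1763) (nat_lit 5) (nat_lit 5))
    (@En.n l30336 (nat_lit 2096) (nat_lit 9) (nat_lit 7))
    (@En.n l23520 (nat_lit 2345) (nat_lit 7) (nat_lit 7))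
    (@En.n l4112 (nat_lit 2107) (nat_lit 8) (nat_lit 8))
    (@En.n l30337 (nat_lit 1620) (nat_lit 10) (nat_lit 9))
    (@En.n l11615 (nat_lit 1992) (nat_lit 7) (nat_lit 11))
    (@En.n l681 (nat_lit 1992) (nat_lit 8) (nat_lit 8))
    (@En.n l19233 (nat_lit 3156) (nat_lit 13) (nat_lit 8))
    (@En.n l4327 (nat_lit 1654) (nat_lit 7) (nat_lit 9))
    (@En.n l23924 (nat_lit 1988) (nat_lit 9) (nat_lit 9))
    (@En.n l17 (nat_lit 1657) (nat_lit 15) (nat_lit 2))))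
  (@Cl.mk (nat_lit 0x20007000a000a0009000900090008000600060009000700070007000e0008) (nat_lit 0x180423007000b0) (nat_lit 16) Lb.e (@T16.mk En
    (@En.n l13155 (nat_lit 1660) (nat_lit 1) (nat_lit 8))
    (@En.n l3786 (nat_lit 1802) (nat_lit 1) (nat_lit 14))
    (@En.n l3787 (nat_lit 1654) (nat_lit 2) (nat_lit 7))
    (@En.n l13156 (nat_lit 1956) (nat_lit 3) (nat_lit 7))
    (@En.i (nat_lit 1533) (nat_lit 4) (nat_lit 7))
    (@En.n l3 (nat_lit 1932) (nat_lit 5) (nat_lit 9))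
    (@En.n l527 (nat_lit 1932) (nat_lit 6) (nat_lit 6))
    (@En.n l690 (nat_lit 6765) (nat_lit 7) (nat_lit 6))
    (@En.n l2337 (nat_lit 1965) (nat_lit 8) (nat_lit 8))
    (@En.n l13157 (nat_lit 1931) (nat_lit 10) (nat_lit 9))
    (@En.n l13158 (nat_lit 1812) (nat_lit 11) (nat_lit 9))
    (@En.n l13159 (nat_lit 3953) (nat_lit 12) (nat_lit 9))
    (@En.n l13160 (nat_lit 1656) (nat_lit 13) (nat_lit 10))
    (@En.n l13161 (nat_lit 1617) (nat_lit 8) (nat_lit 10))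
    (@En.n l13162 (nat_lit 950) (nat_lit 13) (nat_lit 7))
    (@En.n l17 (nat_lit 1658) (nat_lit 15) (nat_lit 2))))
  (@Cl.mk (nat_lit 0x2000a000900090009000900090006000900070007000700070007000e0007) (nat_lit 0x2401730500000b0) (nat_lit 16) Lb.e (@T16.mk En
    (@En.n l12957 (nat_lit 1660) (nat_lit 7) (nat_lit 7))
    (@En.n l396 (nat_lit 4780) (nat_lit 1) (nat_lit 14))
    (@En.n l4968 (nat_lit 1656) (nat_lit 9) (nat_lit 7))
    (@En.n l218 (nat_lit 1975) (nat_lit 3) (nat_lit 7))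
    (@En.n l394 (nat_lit 1909) (nat_lit 4) (nat_lit 7))
    (@En.n l4969 (nat_lit 1813) (nat_lit 5) (nat_lit 7))
    (@En.n l12958 (nat_lit 2917) (nat_lit 6) (nat_lit 7))
    (@En.i (nat_lit 1955) (nat_lit 9) (nat_lit 9))
    (@En.n l420 (nat_lit 1576) (nat_lit 8) (nat_lit 6))
    (@En.n l77 (nat_lit 1908) (nat_lit 10) (nat_lit 9))
    (@En.n l55 (nat_lit 1865) (nat_lit 7) (nat_lit 9))
    (@En.n l3454 (nat_lit 1655) (nat_lit 7) (nat_lit 9))
    (@En.i (nat_lit 1871) (nat_lit 7) (nat_lit 9))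
    (@En.n l12959 (nat_lit 1575) (nat_lit 14) (nat_lit 9))
    (@En.n l12960 (nat_lit 1660) (nat_lit 5) (nat_lit 10))
    (@En.n l18 (nat_lit 1659) (nat_lit 15) (nat_lit 2))))
  (@Cl.mk (nat_lit 0x6000900090008000800080008000800070007000a00080008000800080008) (nat_lit 0x760423400134163) (nat_lit 16) Lb.e (@T16.mk En
    (@En.n l26758 (nat_lit 1906) (nat_lit 8) (nat_lit 8))
    (@En.n l26759 (nat_lit 1862) (nat_lit 8) (nat_lit 8))
    (@En.n l26760 (nat_lit 1657) (nat_lit 8) (nat_lit 8))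
    (@En.n l10598 (nat_lit 1869) (nat_lit 8) (nat_lit 8))
    (@En.n l9966 (nat_lit 1419) (nat_lit 8) (nat_lit 8))
    (@En.n l26761 (nat_lit 1557) (nat_lit 8) (nat_lit 10))
    (@En.n l26762 (nat_lit 1557) (nat_lit 9) (nat_lit 7))
    (@En.n l217 (nat_lit 2123) (nat_lit 9) (nat_lit 7))
    (@En.n l26763 (nat_lit 1658) (nat_lit 8) (nat_lit 8))
    (@En.n l19343 (nat_lit 1973) (nat_lit 8) (nat_lit 8))
    (@En.n l26764 (nat_lit 1904) (nat_lit 8) (nat_lit 8))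
    (@En.n l23900 (nat_lit 1814) (nat_lit 8) (nat_lit 8))
    (@En.n l26765 (nat_lit 3157) (nat_lit 8) (nat_lit 8))
    (@En.n l26766 (nat_lit 1659) (nat_lit 7) (nat_lit 9))
    (@En.n l26767 (nat_lit 1619) (nat_lit 9) (nat_lit 9))
    (@En.n l26768 (nat_lit 1572) (nat_lit 10) (nat_lit 6))))
  (@Cl.mk (nat_lit 0x200060009000e0008000200090008000e00070002000a00080007000e0008) (nat_lit 0x51034000040c0) (nat_lit 16) Lb.e (@T16.mk En
    (@En.n l13139 (nat_lit 1871) (nat_lit 5) (nat_lit 8))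
    (@En.n l13140 (nat_lit 1804) (nat_lit 7) (nat_lit 14))
    (@En.n l1357 (nat_lit 2451) (nat_lit 2) (nat_lit 7))
    (@En.n l3340 (nat_lit 6384) (nat_lit 14) (nat_lit 8))
    (@En.n l13141 (nat_lit 1956) (nat_lit 4) (nat_lit 10))
    (@En.n l107 (nat_lit 1661) (nat_lit 5) (nat_lit 2))
    (@En.n l13142 (nat_lit 1956) (nat_lit 6) (nat_lit 7))
    (@En.n l13143 (nat_lit 5712) (nat_lit 8) (nat_lit 14))
    (@En.n l77 (nat_lit 1963) (nat_lit 14) (nat_lit 8))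
    (@En.n l12585 (nat_lit 1937) (nat_lit 10) (nat_lit 9))
    (@En.n l17 (nat_lit 1661) (nat_lit 10) (nat_lit 2))
    (@En.n l6102 (nat_lit 1656) (nat_lit 12) (nat_lit 8))
    (@En.n l2605 (nat_lit 5806) (nat_lit 13) (nat_lit 14))
    (@En.i (nat_lit 3976) (nat_lit 2) (nat_lit 9))
    (@En.n l13144 (nat_lit 1526) (nat_lit 3) (nat_lit 6))
    (@En.n l50 (nat_lit 1661) (nat_lit 15) (nat_lit 2))))
  (@Cl.mk (nat_lit 0x20005000b0009000e000a00020005000b000a00070006000b0005000e0006) (nat_lit 0x87c10083002060) (nat_lit 16) Lb.e (@T16.mk En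
    (@En.n l2900 (nat_lit 1410) (nat_lit 6) (nat_lit 6))
    (@En.n l2901 (nat_lit 1663) (nat_lit 8) (nat_lit 14))
    (@En.n l2067 (nat_lit 1666) (nat_lit 8) (nat_lit 5))
    (@En.n l2068 (nat_lit 906) (nat_lit 10) (nat_lit 11))
    (@En.n l2067 (nat_lit 398) (nat_lit 4) (nat_lit 6))
    (@En.n l2902 (nat_lit 7648) (nat_lit 5) (nat_lit 7))
    (@En.n l217 (nat_lit 797) (nat_lit 13) (nat_lit 10))
    (@En.n l2903 (nat_lit 7152) (nat_lit 8) (nat_lit 11))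
    (@En.n l2071 (nat_lit 1466) (nat_lit 8) (nat_lit 5))
    (@En.n l107 (nat_lit 1662) (nat_lit 9) (nat_lit 2))
    (@En.n l2061 (nat_lit 1418) (nat_lit 11) (nat_lit 10))
    (@En.n l28 (nat_lit 1665) (nat_lit 12) (nat_lit 14))
    (@En.n l2900 (nat_lit 1668) (nat_lit 13) (nat_lit 9))
    (@En.n l2904 (nat_lit 1607) (nat_lit 3) (nat_lit 11))
    (@En.n l2905 (nat_lit 1452) (nat_lit 4) (nat_lit 5))
    (@En.n l17 (nat_lit 1662) (nat_lit 15) (nat_lit 2))))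
  (@Cl.mk (nat_lit 0x200050008000b00070006000b000e0005000200080005000b0009000e000a) (nat_lit 0x490025002067c1) (nat_lit 16) Lb.e (@T16.mk En
    (@En.n l68 (nat_lit 961) (nat_lit 10) (nat_lit 10))
    (@En.n l886 (nat_lit 1664) (nat_lit 11) (nat_lit 14))
    (@En.n l4820 (nat_lit 1667) (nat_lit 12) (nat_lit 9))
    (@En.n l4825 (nat_lit 1666) (nat_lit 3) (nat_lit 11))
    (@En.n l8363 (nat_lit 1662) (nat_lit 14) (nat_lit 5))
    (@En.n l8364 (nat_lit 427) (nat_lit 5) (nat_lit 8))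
    (@En.n l7 (nat_lit 1663) (nat_lit 6) (nat_lit 2))
    (@En.n l1790 (nat_lit 427) (nat_lit 7) (nat_lit 5))
    (@En.i (nat_lit 4998) (nat_lit 9) (nat_lit 14))
    (@En.n l255 (nat_lit 907) (nat_lit 10) (nat_lit 11))
    (@En.i (nat_lit 389) (nat_lit 3) (nat_lit 6))
    (@En.n l8365 (nat_lit 6785) (nat_lit 12) (nat_lit 7))
    (@En.n l8366 (nat_lit 801) (nat_lit 13) (nat_lit 11))
    (@En.i (nat_lit 4769) (nat_lit 14) (nat_lit 8))
    (@En.n l197 (nat_lit 960) (nat_lit 7) (nat_lit 5))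
    (@En.n l67 (nat_lit 1663) (nat_lit 15) (nat_lit 2))))
noncomputable def a104 : T16 Cl := @T16.mk Cl
  (@Cl.mk (nat_lit 0x200080005000b000e00090002000c00050008000b00040007000b000e0005) (nat_lit 0x208b10106900250) (nat_lit 16) Lb.e (@T16.mk En
    (@En.n l2869 (nat_lit 424) (nat_lit 6) (nat_lit 5))
    (@En.n l1889 (nat_lit 5000) (nat_lit 4) (nat_lit 14))
    (@En.n l1998 (nat_lit 908) (nat_lit 2) (nat_lit 11))
    (@En.n l1643 (nat_lit 390) (nat_lit 11) (nat_lit 7))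
    (@En.n l613 (nat_lit 6929) (nat_lit 4) (nat_lit 4))
    (@En.n l1643 (nat_lit 581) (nat_lit 7) (nat_lit 11))
    (@En.n l1998 (nat_lit 4948) (nat_lit 6) (nat_lit 8))
    (@En.n l893 (nat_lit 1663) (nat_lit 14) (nat_lit 5))
    (@En.n l2903 (nat_lit 1500) (nat_lit 9) (nat_lit 12))
    (@En.n l11 (nat_lit 1664) (nat_lit 9) (nat_lit 2))
    (@En.n l12278 (nat_lit 1500) (nat_lit 11) (nat_lit 9))
    (@En.n l1643 (nat_lit 4983) (nat_lit 12) (nat_lit 14))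
    (@En.n l12752 (nat_lit 1503) (nat_lit 13) (nat_lit 11))
    (@En.n l897 (nat_lit 1665) (nat_lit 14) (nat_lit 5))
    (@En.n l3337 (nat_lit 424) (nat_lit 4) (nat_lit 8))
    (@En.n l17 (nat_lit 1664) (nat_lit 15) (nat_lit 2))))
  (@Cl.mk (nat_lit 0x20005000b000e00090002000c0005000b000a00040007000b0005000e0006) (nat_lit 0x7b101088002060) (nat_lit 16) Lb.e (@T16.mk En
    (@En.n l50 (nat_lit 421) (nat_lit 5) (nat_lit 6))
    (@En.n l998 (nat_lit 1664) (nat_lit 1) (nat_lit 14))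
    (@En.n l1643 (nat_lit 1503) (nat_lit 2) (nat_lit 5))
    (@En.n l5891 (nat_lit 313) (nat_lit 3) (nat_lit 11))
    (@En.i (nat_lit 399) (nat_lit 4) (nat_lit 7))
    (@En.n l4361 (nat_lit 6931) (nat_lit 5) (nat_lit 4))
    (@En.n l217 (nat_lit 580) (nat_lit 12) (nat_lit 10))
    (@En.n l2031 (nat_lit 6622) (nat_lit 8) (nat_lit 11))
    (@En.i (nat_lit 1662) (nat_lit 8) (nat_lit 5))
    (@En.n l2037 (nat_lit 1422) (nat_lit 10) (nat_lit 12))
    (@En.n l107 (nat_lit 1665) (nat_lit 10) (nat_lit 2))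
    (@En.n l3596 (nat_lit 1422) (nat_lit 12) (nat_lit 9))
    (@En.i (nat_lit 4982) (nat_lit 13) (nat_lit 14))
    (@En.n l2038 (nat_lit 1676) (nat_lit 2) (nat_lit 11))
    (@En.n l4361 (nat_lit 1455) (nat_lit 13) (nat_lit 5))
    (@En.n l17 (nat_lit 1665) (nat_lit 15) (nat_lit 2))))
  (@Cl.mk (nat_lit 0x20005000b0008000b000800070005000e000500020008000b0008000e0009) (nat_lit 0x25450050035611) (nat_lit 16) Lb.e (@T16.mk En
    (@En.n l107 (nat_lit 954) (nat_lit 11) (nat_lit 9))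
    (@En.n l1572 (nat_lit 1503) (nat_lit 12) (nat_lit 14))
    (@En.n l1572 (nat_lit 1674) (nat_lit 13) (nat_lit 8))
    (@En.n l4729 (nat_lit 1610) (nat_lit 3) (nat_lit 11))
    (@En.n l4901 (nat_lit 949) (nat_lit 4) (nat_lit 8))
    (@En.n l18 (nat_lit 1666) (nat_lit 5) (nat_lit 2))
    (@En.n l4902 (nat_lit 949) (nat_lit 6) (nat_lit 5))
    (@En.n l4903 (nat_lit 4999) (nat_lit 8) (nat_lit 14))
    (@En.n l4001 (nat_lit 7609) (nat_lit 8) (nat_lit 5))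
    (@En.i (nat_lit 393) (nat_lit 3) (nat_lit 7))
    (@En.n l4729 (nat_lit 7652) (nat_lit 11) (nat_lit 8))
    (@En.i (nat_lit 2341) (nat_lit 12) (nat_lit 11))
    (@En.n l1571 (nat_lit 1663) (nat_lit 13) (nat_lit 8))
    (@En.n l615 (nat_lit 1570) (nat_lit 8) (nat_lit 11))
    (@En.n l159 (nat_lit 959) (nat_lit 8) (nat_lit 5))
    (@En.n l11 (nat_lit 1666) (nat_lit 15) (nat_lit 2))))
  (@Cl.mk (nat_lit 0x2000900050009000e00090002000c0007000a000700040007000b000e0006) (nat_lit 0x6000001000300) (nat_lit 16) Lb.e (@T16.mk En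
    (@En.n l11210 (nat_lit 1669) (nat_lit 6) (nat_lit 6))
    (@En.n l1643 (nat_lit 5220) (nat_lit 4) (nat_lit 14))
    (@En.n l12890 (nat_lit 1141) (nat_lit 2) (nat_lit 11))
    (@En.n l11235 (nat_lit 339) (nat_lit 3) (nat_lit 7))
    (@En.n l10348 (nat_lit 1664) (nat_lit 4) (nat_lit 4))
    (@En.n l19844 (nat_lit 6776) (nat_lit 5) (nat_lit 7))
    (@En.i (nat_lit 579) (nat_lit 8) (nat_lit 10))
    (@En.n l12614 (nat_lit 5286) (nat_lit 14) (nat_lit 7))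
    (@En.n l12615 (nat_lit 1670) (nat_lit 9) (nat_lit 12))
    (@En.n l107 (nat_lit 1667) (nat_lit 9) (nat_lit 2))
    (@En.n l12616 (nat_lit 1670) (nat_lit 11) (nat_lit 9))
    (@En.i (nat_lit 1883) (nat_lit 12) (nat_lit 14))
    (@En.n l4758 (nat_lit 1579) (nat_lit 13) (nat_lit 9))
    (@En.n l1501 (nat_lit 1668) (nat_lit 14) (nat_lit 5))
    (@En.n l19845 (nat_lit 1669) (nat_lit 4) (nat_lit 9))
    (@En.n l18 (nat_lit 1667) (nat_lit 15) (nat_lit 2))))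
  (@Cl.mk (nat_lit 0x200050009000e00090002000c000a0009000700040007000b0006000e0007) (nat_lit 0x60000010003010) (nat_lit 16) Lb.e (@T16.mk En
    (@En.i (nat_lit 1673) (nat_lit 5) (nat_lit 7))
    (@En.n l4108 (nat_lit 1667) (nat_lit 1) (nat_lit 14))
    (@En.n l8500 (nat_lit 1674) (nat_lit 2) (nat_lit 6))
    (@En.i (nat_lit 1134) (nat_lit 3) (nat_lit 11))
    (@En.n l478 (nat_lit 333) (nat_lit 4) (nat_lit 7))
    (@En.n l2438 (nat_lit 1665) (nat_lit 5) (nat_lit 4))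
    (@En.i (nat_lit 6778) (nat_lit 6) (nat_lit 7))
    (@En.n l97 (nat_lit 572) (nat_lit 13) (nat_lit 9))
    (@En.n l1236 (nat_lit 9838) (nat_lit 9) (nat_lit 10))
    (@En.i (nat_lit 1671) (nat_lit 10) (nat_lit 12))
    (@En.n l18 (nat_lit 1668) (nat_lit 10) (nat_lit 2))
    (@En.n l5 (nat_lit 1671) (nat_lit 12) (nat_lit 9))
    (@En.n l8501 (nat_lit 5002) (nat_lit 13) (nat_lit 14))
    (@En.n l8502 (nat_lit 1578) (nat_lit 14) (nat_lit 9))
    (@En.n l1685 (nat_lit 1458) (nat_lit 13) (nat_lit 5))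
    (@En.n l28 (nat_lit 1668) (nat_lit 15) (nat_lit 2))))
  (@Cl.mk (nat_lit 0x2000b0007000a000a000800050008000c00060006000900040008000e0008) (nat_lit 0x1200230070500) (nat_lit 16) Lb.e (@T16.mk En
    (@En.n l26715 (nat_lit 1672) (nat_lit 13) (nat_lit 8))
    (@En.n l2141 (nat_lit 1881) (nat_lit 1) (nat_lit 14))
    (@En.n l26716 (nat_lit 1581) (nat_lit 2) (nat_lit 8))
    (@En.n l2871 (nat_lit 1673) (nat_lit 3) (nat_lit 4))
    (@En.n l476 (nat_lit 2012) (nat_lit 9) (nat_lit 9))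
    (@En.n l152 (nat_lit 2012) (nat_lit 10) (nat_lit 6))
    (@En.n l17701 (nat_lit 3190) (nat_lit 6) (nat_lit 6))
    (@En.n l7 (nat_lit 1140) (nat_lit 8) (nat_lit 12))
    (@En.i (nat_lit 340) (nat_lit 10) (nat_lit 8))
    (@En.n l420 (nat_lit 424) (nat_lit 9) (nat_lit 5))
    (@En.n l4753 (nat_lit 6779) (nat_lit 11) (nat_lit 8))
    (@En.n l26717 (nat_lit 1667) (nat_lit 6) (nat_lit 10))
    (@En.n l26718 (nat_lit 1668) (nat_lit 8) (nat_lit 10))
    (@En.n l23587 (nat_lit 6506) (nat_lit 14) (nat_lit 7))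
    (@En.n l26719 (nat_lit 1672) (nat_lit 11) (nat_lit 11))
    (@En.n l18 (nat_lit 1669) (nat_lit 15) (nat_lit 2))))
  (@Cl.mk (nat_lit 0x2000a0005000a00090009000c000600090006000400070007000b000e0007) (nat_lit 0x670a010000400) (nat_lit 16) Lb.e (@T16.mk En
    (@En.n l97 (nat_lit 1672) (nat_lit 2) (nat_lit 7))
    (@En.n l26360 (nat_lit 5218) (nat_lit 4) (nat_lit 14))
    (@En.n l13101 (nat_lit 1298) (nat_lit 2) (nat_lit 11))
    (@En.n l26357 (nat_lit 1667) (nat_lit 3) (nat_lit 7))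
    (@En.n l28830 (nat_lit 1702) (nat_lit 11) (nat_lit 7))
    (@En.n l27336 (nat_lit 1500) (nat_lit 5) (nat_lit 4))
    (@En.n l28831 (nat_lit 2536) (nat_lit 6) (nat_lit 6))
    (@En.n l13101 (nat_lit 574) (nat_lit 9) (nat_lit 9))
    (@En.n l26360 (nat_lit 5284) (nat_lit 8) (nat_lit 6))
    (@En.n l3327 (nat_lit 1675) (nat_lit 10) (nat_lit 12))
    (@En.n l2575 (nat_lit 1675) (nat_lit 11) (nat_lit 9))
    (@En.i (nat_lit 2617) (nat_lit 12) (nat_lit 9))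
    (@En.n l24544 (nat_lit 1582) (nat_lit 13) (nat_lit 10))
    (@En.n l28832 (nat_lit 1671) (nat_lit 14) (nat_lit 5))
    (@En.i (nat_lit 1672) (nat_lit 0) (nat_lit 10))
    (@En.n l3 (nat_lit 1670) (nat_lit 15) (nat_lit 2))))
  (@Cl.mk (nat_lit 0x20005000a00090009000c000900080006000400070007000b0007000e0008) (nat_lit 0x670a0100004011) (nat_lit 16) Lb.e (@T16.mk En
    (@En.i (nat_lit 1421) (nat_lit 1) (nat_lit 8))
    (@En.n l15439 (nat_lit 1670) (nat_lit 1) (nat_lit 14))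
    (@En.n l15440 (nat_lit 1984) (nat_lit 2) (nat_lit 7))
    (@En.n l15441 (nat_lit 989) (nat_lit 3) (nat_lit 11))
    (@En.n l17 (nat_lit 1668) (nat_lit 4) (nat_lit 7))
    (@En.n l15442 (nat_lit 1701) (nat_lit 5) (nat_lit 7))
    (@En.n l15443 (nat_lit 1422) (nat_lit 6) (nat_lit 4))
    (@En.n l1237 (nat_lit 2537) (nat_lit 7) (nat_lit 6))
    (@En.n l15444 (nat_lit 576) (nat_lit 8) (nat_lit 8))
    (@En.n l9443 (nat_lit 9617) (nat_lit 10) (nat_lit 9))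
    (@En.n l15445 (nat_lit 1772) (nat_lit 11) (nat_lit 12))
    (@En.n l15446 (nat_lit 1772) (nat_lit 12) (nat_lit 9))
    (@En.n l15444 (nat_lit 2471) (nat_lit 13) (nat_lit 9))
    (@En.n l15447 (nat_lit 1565) (nat_lit 14) (nat_lit 10))
    (@En.n l15448 (nat_lit 1461) (nat_lit 13) (nat_lit 5))
    (@En.n l28 (nat_lit 1671) (nat_lit 15) (nat_lit 2))))
  (@Cl.mk (nat_lit 0x4000900080008000b0006000900090007000500080008000c00070007000a) (nat_lit 0x566901200234008) (nat_lit 16) Lb.e (@T16.mk En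
    (@En.n l36739 (nat_lit 1767) (nat_lit 8) (nat_lit 10))
    (@En.n l36740 (nat_lit 1767) (nat_lit 9) (nat_lit 7))
    (@En.n l36741 (nat_lit 1997) (nat_lit 7) (nat_lit 7))
    (@En.n l36742 (nat_lit 1299) (nat_lit 7) (nat_lit 12))
    (@En.n l36743 (nat_lit 1669) (nat_lit 8) (nat_lit 8))
    (@En.n l36744 (nat_lit 1694) (nat_lit 10) (nat_lit 8))
    (@En.n l36742 (nat_lit 426) (nat_lit 11) (nat_lit 5))
    (@En.n l36745 (nat_lit 6814) (nat_lit 0) (nat_lit 7))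
    (@En.n l107 (nat_lit 1670) (nat_lit 7) (nat_lit 9))
    (@En.n l36746 (nat_lit 1671) (nat_lit 9) (nat_lit 9))
    (@En.n l36747 (nat_lit 5285) (nat_lit 11) (nat_lit 6))
    (@En.n l36748 (nat_lit 1766) (nat_lit 7) (nat_lit 11))
    (@En.n l36749 (nat_lit 1766) (nat_lit 8) (nat_lit 8))
    (@En.i (nat_lit 2445) (nat_lit 8) (nat_lit 8))
    (@En.n l36750 (nat_lit 1580) (nat_lit 11) (nat_lit 9))
    (@En.n l36751 (nat_lit 1421) (nat_lit 15) (nat_lit 4))))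
  (@Cl.mk (nat_lit 0x2000b000900090009000800050008000c00070007000700040008000e0008) (nat_lit 0x101200130000501) (nat_lit 16) Lb.e (@T16.mk En
    (@En.n l5 (nat_lit 1421) (nat_lit 13) (nat_lit 8))
    (@En.n l3107 (nat_lit 4970) (nat_lit 1) (nat_lit 14))
    (@En.n l18608 (nat_lit 1519) (nat_lit 2) (nat_lit 8))
    (@En.i (nat_lit 1460) (nat_lit 3) (nat_lit 4))
    (@En.n l218 (nat_lit 2003) (nat_lit 9) (nat_lit 7))
    (@En.n l11 (nat_lit 1999) (nat_lit 9) (nat_lit 7))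
    (@En.n l12482 (nat_lit 1987) (nat_lit 6) (nat_lit 7))
    (@En.i (nat_lit 1131) (nat_lit 8) (nat_lit 12))
    (@En.i (nat_lit 344) (nat_lit 10) (nat_lit 8))
    (@En.n l1393 (nat_lit 421) (nat_lit 9) (nat_lit 5))
    (@En.n l77 (nat_lit 6691) (nat_lit 11) (nat_lit 8))
    (@En.n l55 (nat_lit 1668) (nat_lit 7) (nat_lit 9))
    (@En.n l619 (nat_lit 1458) (nat_lit 7) (nat_lit 9))
    (@En.n l3866 (nat_lit 9835) (nat_lit 14) (nat_lit 9))
    (@En.i (nat_lit 1421) (nat_lit 11) (nat_lit 11))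
    (@En.n l18 (nat_lit 1673) (nat_lit 15) (nat_lit 2))))
  (@Cl.mk (nat_lit 0x200090008000e00080002000b000a0007000a0008000500080006000e0006) (nat_lit 0x50000400105000) (nat_lit 16) Lb.e (@T16.mk En
    (@En.n l12769 (nat_lit 1987) (nat_lit 5) (nat_lit 6))
    (@En.n l8524 (nat_lit 4839) (nat_lit 1) (nat_lit 14))
    (@En.n l12770 (nat_lit 3353) (nat_lit 2) (nat_lit 6))
    (@En.n l117 (nat_lit 3316) (nat_lit 3) (nat_lit 8))
    (@En.n l575 (nat_lit 1503) (nat_lit 4) (nat_lit 5))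
    (@En.n l12771 (nat_lit 1281) (nat_lit 5) (nat_lit 8))
    (@En.i (nat_lit 2366) (nat_lit 8) (nat_lit 10))
    (@En.n l4896 (nat_lit 1667) (nat_lit 7) (nat_lit 7))
    (@En.n l12771 (nat_lit 1704) (nat_lit 14) (nat_lit 10))
    (@En.n l12772 (nat_lit 1984) (nat_lit 10) (nat_lit 11))
    (@En.n l3 (nat_lit 1674) (nat_lit 10) (nat_lit 2))
    (@En.n l12773 (nat_lit 1984) (nat_lit 12) (nat_lit 8))
    (@En.i (nat_lit 4838) (nat_lit 13) (nat_lit 14))
    (@En.n l12774 (nat_lit 1391) (nat_lit 14) (nat_lit 8))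
    (@En.n l12775 (nat_lit 1987) (nat_lit 3) (nat_lit 9))
    (@En.n l18 (nat_lit 1674) (nat_lit 15) (nat_lit 2))))
  (@Cl.mk (nat_lit 0x2000b0005000b0009000c0005000800050004000e00070002000b000e0008) (nat_lit 0x6790100400500) (nat_lit 16) Lb.e (@T16.mk En
    (@En.n l20791 (nat_lit 1766) (nat_lit 13) (nat_lit 8))
    (@En.i (nat_lit 5219) (nat_lit 4) (nat_lit 14))
    (@En.n l17942 (nat_lit 1302) (nat_lit 2) (nat_lit 11))
    (@En.n l28 (nat_lit 1675) (nat_lit 3) (nat_lit 2))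
    (@En.n l1101 (nat_lit 1670) (nat_lit 4) (nat_lit 7))
    (@En.n l17561 (nat_lit 1764) (nat_lit 1) (nat_lit 14))
    (@En.n l152 (nat_lit 1501) (nat_lit 6) (nat_lit 4))
    (@En.n l1865 (nat_lit 2534) (nat_lit 7) (nat_lit 5))
    (@En.i (nat_lit 893) (nat_lit 10) (nat_lit 8))
    (@En.n l26648 (nat_lit 6947) (nat_lit 5) (nat_lit 5))
    (@En.n l5390 (nat_lit 13189) (nat_lit 6) (nat_lit 12))
    (@En.n l3082 (nat_lit 2616) (nat_lit 12) (nat_lit 9))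
    (@En.n l26649 (nat_lit 1586) (nat_lit 9) (nat_lit 11))
    (@En.n l699 (nat_lit 1772) (nat_lit 14) (nat_lit 5))
    (@En.n l26650 (nat_lit 1766) (nat_lit 11) (nat_lit 11))
    (@En.n l50 (nat_lit 1675) (nat_lit 15) (nat_lit 2))))
  (@Cl.mk (nat_lit 0x2000b0005000b000b000a0005000800050005000e00060002000b000e0008) (nat_lit 0x2037701006006c1) (nat_lit 16) Lb.e (@T16.mk En
    (@En.i (nat_lit 1506) (nat_lit 13) (nat_lit 8))
    (@En.i (nat_lit 4893) (nat_lit 4) (nat_lit 14))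
    (@En.i (nat_lit 1474) (nat_lit 2) (nat_lit 11))
    (@En.n l17 (nat_lit 1676) (nat_lit 3) (nat_lit 2))
    (@En.n l2900 (nat_lit 1576) (nat_lit 4) (nat_lit 6))
    (@En.n l3786 (nat_lit 1503) (nat_lit 1) (nat_lit 14))
    (@En.n l3787 (nat_lit 1611) (nat_lit 6) (nat_lit 5))
    (@En.i (nat_lit 6419) (nat_lit 7) (nat_lit 5))
    (@En.n l2900 (nat_lit 673) (nat_lit 10) (nat_lit 8))
    (@En.i (nat_lit 7138) (nat_lit 5) (nat_lit 5))
    (@En.n l2337 (nat_lit 2336) (nat_lit 11) (nat_lit 10))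
    (@En.n l601 (nat_lit 1678) (nat_lit 8) (nat_lit 11))
    (@En.n l2682 (nat_lit 497) (nat_lit 9) (nat_lit 11))
    (@En.n l105 (nat_lit 1607) (nat_lit 14) (nat_lit 5))
    (@En.n l117 (nat_lit 1506) (nat_lit 11) (nat_lit 11))
    (@En.n l3 (nat_lit 1676) (nat_lit 15) (nat_lit 2))))
  (@Cl.mk (nat_lit 0x2000c00090009000c0004000a0008000400070007000e00060002000e0008) (nat_lit 0x600905300030084) (nat_lit 16) Lb.e (@T16.mk En
    (@En.n l3832 (nat_lit 1681) (nat_lit 14) (nat_lit 8))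
    (@En.n l3833 (nat_lit 1422) (nat_lit 1) (nat_lit 14))
    (@En.n l50 (nat_lit 1677) (nat_lit 2) (nat_lit 2))
    (@En.n l3834 (nat_lit 1506) (nat_lit 3) (nat_lit 6))
    (@En.n l3835 (nat_lit 10796) (nat_lit 1) (nat_lit 14))
    (@En.n l107 (nat_lit 1678) (nat_lit 5) (nat_lit 7))
    (@En.n l3832 (nat_lit 1679) (nat_lit 11) (nat_lit 7))
    (@En.n l3836 (nat_lit 7139) (nat_lit 7) (nat_lit 4))
    (@En.n l117 (nat_lit 2206) (nat_lit 5) (nat_lit 8))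
    (@En.n l3837 (nat_lit 6623) (nat_lit 10) (nat_lit 10))
    (@En.n l3838 (nat_lit 1534) (nat_lit 10) (nat_lit 4))
    (@En.n l3839 (nat_lit 1685) (nat_lit 12) (nat_lit 12))
    (@En.n l2535 (nat_lit 1685) (nat_lit 13) (nat_lit 9))
    (@En.i (nat_lit 3952) (nat_lit 14) (nat_lit 9))
    (@En.n l3840 (nat_lit 1488) (nat_lit 12) (nat_lit 12))
    (@En.n l17 (nat_lit 1677) (nat_lit 15) (nat_lit 2))))
  (@Cl.mk (nat_lit 0x2000b000e00090002000c0005000b000900040007000e00050002000e0007) (nat_lit 0x6b10a06300b0070) (nat_lit 16) Lb.e (@T16.mk En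
    (@En.i (nat_lit 1680) (nat_lit 14) (nat_lit 7))
    (@En.n l998 (nat_lit 1665) (nat_lit 1) (nat_lit 14))
    (@En.n l50 (nat_lit 1678) (nat_lit 2) (nat_lit 2))
    (@En.n l7 (nat_lit 1676) (nat_lit 7) (nat_lit 5))
    (@En.n l1638 (nat_lit 12834) (nat_lit 1) (nat_lit 14))
    (@En.i (nat_lit 671) (nat_lit 11) (nat_lit 7))
    (@En.n l3322 (nat_lit 7140) (nat_lit 6) (nat_lit 4))
    (@En.i (nat_lit 2205) (nat_lit 12) (nat_lit 9))
    (@En.n l790 (nat_lit 6625) (nat_lit 9) (nat_lit 11))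
    (@En.n l2657 (nat_lit 1679) (nat_lit 14) (nat_lit 5))
    (@En.i (nat_lit 1677) (nat_lit 11) (nat_lit 12))
    (@En.n l3 (nat_lit 1678) (nat_lit 11) (nat_lit 2))
    (@En.n l97 (nat_lit 1677) (nat_lit 13) (nat_lit 9))
    (@En.i (nat_lit 4909) (nat_lit 4) (nat_lit 14))
    (@En.i (nat_lit 1478) (nat_lit 12) (nat_lit 11))
    (@En.n l17 (nat_lit 1678) (nat_lit 15) (nat_lit 2))))
  (@Cl.mk (nat_lit 0x20005000b000900070006000e00050002000e00070002000b0009000e000a) (nat_lit 0x6200c0070077c2) (nat_lit 16) Lb.e (@T16.mk En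
    (@En.n l1028 (nat_lit 1534) (nat_lit 12) (nat_lit 10))
    (@En.n l1029 (nat_lit 1678) (nat_lit 13) (nat_lit 14))
    (@En.n l1029 (nat_lit 1868) (nat_lit 14) (nat_lit 9))
    (@En.n l1030 (nat_lit 1511) (nat_lit 3) (nat_lit 11))
    (@En.n l50 (nat_lit 1679) (nat_lit 4) (nat_lit 2))
    (@En.i (nat_lit 1682) (nat_lit 5) (nat_lit 7))
    (@En.n l1031 (nat_lit 1662) (nat_lit 1) (nat_lit 14))
    (@En.n l28 (nat_lit 1679) (nat_lit 7) (nat_lit 2))
    (@En.n l1032 (nat_lit 1607) (nat_lit 8) (nat_lit 5))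
    (@En.n l1033 (nat_lit 10100) (nat_lit 10) (nat_lit 14))
    (@En.n l685 (nat_lit 670) (nat_lit 5) (nat_lit 6))
    (@En.n l1030 (nat_lit 8645) (nat_lit 12) (nat_lit 7))
    (@En.n l682 (nat_lit 2207) (nat_lit 13) (nat_lit 9))
    (@En.n l1030 (nat_lit 7151) (nat_lit 9) (nat_lit 11))
    (@En.n l1034 (nat_lit 1928) (nat_lit 13) (nat_lit 5))
    (@En.n l3 (nat_lit 1679) (nat_lit 15) (nat_lit 2))))
noncomputable def a105 : T16 Cl := @T16.mk Cl
  (@Cl.mk (nat_lit 0x200070007000b000e00080002000b0005000a0009000900050008000e0006) (nat_lit 0x5000006040120) (nat_lit 16) Lb.e (@T16.mk En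
    (@En.n l4263 (nat_lit 1576) (nat_lit 6) (nat_lit 6))
    (@En.n l9535 (nat_lit 11136) (nat_lit 8) (nat_lit 14))
    (@En.n l7708 (nat_lit 668) (nat_lit 2) (nat_lit 8))
    (@En.n l4802 (nat_lit 5193) (nat_lit 3) (nat_lit 5))
    (@En.n l61 (nat_lit 1678) (nat_lit 7) (nat_lit 9))
    (@En.n l764 (nat_lit 2196) (nat_lit 5) (nat_lit 9))
    (@En.n l9536 (nat_lit 6810) (nat_lit 13) (nat_lit 10))
    (@En.n l2657 (nat_lit 1682) (nat_lit 14) (nat_lit 5))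
    (@En.n l3832 (nat_lit 1681) (nat_lit 9) (nat_lit 11))
    (@En.n l3 (nat_lit 1680) (nat_lit 9) (nat_lit 2))
    (@En.n l7707 (nat_lit 1681) (nat_lit 11) (nat_lit 8))
    (@En.i (nat_lit 4775) (nat_lit 12) (nat_lit 14))
    (@En.n l5560 (nat_lit 1524) (nat_lit 13) (nat_lit 11))
    (@En.n l6983 (nat_lit 1914) (nat_lit 9) (nat_lit 7))
    (@En.n l9537 (nat_lit 1710) (nat_lit 4) (nat_lit 7))
    (@En.n l50 (nat_lit 1680) (nat_lit 15) (nat_lit 2))))
  (@Cl.mk (nat_lit 0x200080008000c00080008000b0004000900080008000500080008000e0007) (nat_lit 0x345609050400230) (nat_lit 16) Lb.e (@T16.mk En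
    (@En.n l1032 (nat_lit 1572) (nat_lit 7) (nat_lit 7))
    (@En.n l10102 (nat_lit 10781) (nat_lit 1) (nat_lit 14))
    (@En.n l10103 (nat_lit 1680) (nat_lit 2) (nat_lit 8))
    (@En.i (nat_lit 1682) (nat_lit 10) (nat_lit 8))
    (@En.n l10104 (nat_lit 5194) (nat_lit 4) (nat_lit 5))
    (@En.n l2776 (nat_lit 1677) (nat_lit 8) (nat_lit 8))
    (@En.n l10105 (nat_lit 2197) (nat_lit 6) (nat_lit 8))
    (@En.n l3112 (nat_lit 6807) (nat_lit 8) (nat_lit 9))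
    (@En.n l10106 (nat_lit 1683) (nat_lit 8) (nat_lit 4))
    (@En.n l10107 (nat_lit 1684) (nat_lit 10) (nat_lit 11))
    (@En.n l10108 (nat_lit 1684) (nat_lit 11) (nat_lit 8))
    (@En.n l10109 (nat_lit 4568) (nat_lit 12) (nat_lit 8))
    (@En.n l10102 (nat_lit 1525) (nat_lit 13) (nat_lit 12))
    (@En.n l10110 (nat_lit 1688) (nat_lit 8) (nat_lit 8))
    (@En.n l10111 (nat_lit 1708) (nat_lit 5) (nat_lit 8))
    (@En.n l28 (nat_lit 1681) (nat_lit 15) (nat_lit 2))))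
  (@Cl.mk (nat_lit 0x20005000a0009000900080007000e0006000200070007000b0008000e0009) (nat_lit 0x60360c00005610) (nat_lit 16) Lb.e (@T16.mk En
    (@En.n l3409 (nat_lit 1683) (nat_lit 10) (nat_lit 9))
    (@En.n l1029 (nat_lit 1680) (nat_lit 11) (nat_lit 14))
    (@En.n l3410 (nat_lit 1871) (nat_lit 12) (nat_lit 8))
    (@En.n l3411 (nat_lit 1523) (nat_lit 3) (nat_lit 11))
    (@En.n l3412 (nat_lit 1703) (nat_lit 4) (nat_lit 7))
    (@En.n l3413 (nat_lit 495) (nat_lit 5) (nat_lit 7))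
    (@En.n l28 (nat_lit 1682) (nat_lit 6) (nat_lit 2))
    (@En.n l1032 (nat_lit 1571) (nat_lit 7) (nat_lit 6))
    (@En.n l3414 (nat_lit 11134) (nat_lit 9) (nat_lit 14))
    (@En.n l1260 (nat_lit 440) (nat_lit 2) (nat_lit 7))
    (@En.n l3112 (nat_lit 7049) (nat_lit 11) (nat_lit 8))
    (@En.n l644 (nat_lit 1679) (nat_lit 12) (nat_lit 9))
    (@En.n l1260 (nat_lit 2195) (nat_lit 13) (nat_lit 9))
    (@En.n l3112 (nat_lit 6481) (nat_lit 14) (nat_lit 10))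
    (@En.n l1034 (nat_lit 1563) (nat_lit 7) (nat_lit 5))
    (@En.n l3 (nat_lit 1682) (nat_lit 15) (nat_lit 2))))
  (@Cl.mk (nat_lit 0x200080008000c0009000900090004000900080008000700070007000e0007) (nat_lit 0x327670050300030) (nat_lit 16) Lb.e (@T16.mk En
    (@En.n l7932 (nat_lit 1419) (nat_lit 7) (nat_lit 7))
    (@En.n l7933 (nat_lit 10788) (nat_lit 1) (nat_lit 14))
    (@En.n l7934 (nat_lit 1682) (nat_lit 9) (nat_lit 7))
    (@En.n l7935 (nat_lit 1563) (nat_lit 3) (nat_lit 7))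
    (@En.n l1052 (nat_lit 6670) (nat_lit 4) (nat_lit 7))
    (@En.n l7936 (nat_lit 1534) (nat_lit 8) (nat_lit 8))
    (@En.i (nat_lit 2151) (nat_lit 6) (nat_lit 8))
    (@En.n l1052 (nat_lit 6039) (nat_lit 8) (nat_lit 9))
    (@En.n l7937 (nat_lit 1559) (nat_lit 8) (nat_lit 4))
    (@En.n l7938 (nat_lit 1687) (nat_lit 10) (nat_lit 9))
    (@En.n l7939 (nat_lit 1686) (nat_lit 7) (nat_lit 9))
    (@En.n l7940 (nat_lit 1869) (nat_lit 12) (nat_lit 9))
    (@En.n l7941 (nat_lit 1415) (nat_lit 13) (nat_lit 12))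
    (@En.n l7942 (nat_lit 1699) (nat_lit 8) (nat_lit 8))
    (@En.n l7943 (nat_lit 1420) (nat_lit 5) (nat_lit 8))
    (@En.n l7 (nat_lit 1683) (nat_lit 15) (nat_lit 2))))
  (@Cl.mk (nat_lit 0x200090009000d0008000b00030008000700070005000e00080002000e0008) (nat_lit 0x347680400051041) (nat_lit 16) Lb.e (@T16.mk En
    (@En.n l3565 (nat_lit 1577) (nat_lit 14) (nat_lit 8))
    (@En.n l3566 (nat_lit 10780) (nat_lit 1) (nat_lit 14))
    (@En.n l17 (nat_lit 1684) (nat_lit 2) (nat_lit 2))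
    (@En.n l3567 (nat_lit 1681) (nat_lit 3) (nat_lit 8))
    (@En.n l3568 (nat_lit 1686) (nat_lit 1) (nat_lit 14))
    (@En.n l3569 (nat_lit 5133) (nat_lit 5) (nat_lit 5))
    (@En.n l3570 (nat_lit 1685) (nat_lit 9) (nat_lit 7))
    (@En.n l3571 (nat_lit 2393) (nat_lit 7) (nat_lit 7))
    (@En.n l3572 (nat_lit 6808) (nat_lit 5) (nat_lit 8))
    (@En.n l50 (nat_lit 1687) (nat_lit 9) (nat_lit 3))
    (@En.n l3573 (nat_lit 12993) (nat_lit 7) (nat_lit 11))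
    (@En.n l3572 (nat_lit 3354) (nat_lit 12) (nat_lit 8))
    (@En.n l3574 (nat_lit 1540) (nat_lit 13) (nat_lit 13))
    (@En.n l3575 (nat_lit 1689) (nat_lit 7) (nat_lit 9))
    (@En.n l3576 (nat_lit 1706) (nat_lit 12) (nat_lit 9))
    (@En.n l67 (nat_lit 1684) (nat_lit 15) (nat_lit 2))))
  (@Cl.mk (nat_lit 0x2000d0009000c0003000900070004000e00070002000e00070002000e0009) (nat_lit 0x678050040040094) (nat_lit 16) Lb.e (@T16.mk En
    (@En.n l1175 (nat_lit 1684) (nat_lit 14) (nat_lit 9))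
    (@En.n l5 (nat_lit 1502) (nat_lit 1) (nat_lit 14))
    (@En.n l50 (nat_lit 1685) (nat_lit 2) (nat_lit 2))
    (@En.i (nat_lit 1505) (nat_lit 14) (nat_lit 7))
    (@En.n l1176 (nat_lit 10795) (nat_lit 1) (nat_lit 14))
    (@En.n l28 (nat_lit 1685) (nat_lit 5) (nat_lit 2))
    (@En.n l1177 (nat_lit 1677) (nat_lit 6) (nat_lit 7))
    (@En.n l1178 (nat_lit 1529) (nat_lit 1) (nat_lit 14))
    (@En.n l1179 (nat_lit 7141) (nat_lit 8) (nat_lit 4))
    (@En.i (nat_lit 2390) (nat_lit 6) (nat_lit 7))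
    (@En.n l872 (nat_lit 6626) (nat_lit 11) (nat_lit 9))
    (@En.n l3 (nat_lit 2026) (nat_lit 11) (nat_lit 3))
    (@En.n l1180 (nat_lit 13100) (nat_lit 6) (nat_lit 12))
    (@En.n l872 (nat_lit 3950) (nat_lit 14) (nat_lit 9))
    (@En.n l1181 (nat_lit 1774) (nat_lit 12) (nat_lit 13))
    (@En.n l17 (nat_lit 1685) (nat_lit 15) (nat_lit 2))))
  (@Cl.mk (nat_lit 0x20008000e0008000200090009000d000900080003000800070007000e0007) (nat_lit 0x341034560040040) (nat_lit 16) Lb.e (@T16.mk En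
    (@En.n l7801 (nat_lit 1683) (nat_lit 4) (nat_lit 7))
    (@En.n l7802 (nat_lit 7704) (nat_lit 6) (nat_lit 14))
    (@En.n l7803 (nat_lit 1529) (nat_lit 2) (nat_lit 7))
    (@En.n l7804 (nat_lit 2308) (nat_lit 3) (nat_lit 7))
    (@En.n l7805 (nat_lit 7040) (nat_lit 4) (nat_lit 8))
    (@En.n l4538 (nat_lit 1844) (nat_lit 9) (nat_lit 3))
    (@En.n l7806 (nat_lit 2911) (nat_lit 0) (nat_lit 8))
    (@En.i (nat_lit 4567) (nat_lit 12) (nat_lit 9))
    (@En.n l7807 (nat_lit 1390) (nat_lit 13) (nat_lit 13))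
    (@En.n l7808 (nat_lit 1698) (nat_lit 14) (nat_lit 9))
    (@En.n l7809 (nat_lit 1588) (nat_lit 11) (nat_lit 9))
    (@En.n l67 (nat_lit 1686) (nat_lit 11) (nat_lit 2))
    (@En.n l7810 (nat_lit 1575) (nat_lit 13) (nat_lit 8))
    (@En.n l7811 (nat_lit 11646) (nat_lit 1) (nat_lit 14))
    (@En.n l7812 (nat_lit 1681) (nat_lit 2) (nat_lit 8))
    (@En.n l18 (nat_lit 1686) (nat_lit 15) (nat_lit 2))))
  (@Cl.mk (nat_lit 0x200090009000d000a000900030008000700070006000e00070002000e0008) (nat_lit 0x347670400070040) (nat_lit 16) Lb.e (@T16.mk En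
    (@En.n l6576 (nat_lit 1690) (nat_lit 14) (nat_lit 8))
    (@En.n l3866 (nat_lit 10778) (nat_lit 1) (nat_lit 14))
    (@En.n l17 (nat_lit 1687) (nat_lit 2) (nat_lit 2))
    (@En.n l10122 (nat_lit 1683) (nat_lit 3) (nat_lit 7))
    (@En.n l3017 (nat_lit 1844) (nat_lit 5) (nat_lit 14))
    (@En.n l10123 (nat_lit 7038) (nat_lit 5) (nat_lit 6))
    (@En.n l3570 (nat_lit 2026) (nat_lit 9) (nat_lit 7))
    (@En.n l3571 (nat_lit 2394) (nat_lit 7) (nat_lit 7))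
    (@En.n l10124 (nat_lit 6037) (nat_lit 5) (nat_lit 8))
    (@En.i (nat_lit 1684) (nat_lit 9) (nat_lit 3))
    (@En.n l1101 (nat_lit 2031) (nat_lit 0) (nat_lit 9))
    (@En.n l3572 (nat_lit 1870) (nat_lit 12) (nat_lit 10))
    (@En.n l601 (nat_lit 1538) (nat_lit 13) (nat_lit 13))
    (@En.n l7225 (nat_lit 1697) (nat_lit 7) (nat_lit 9))
    (@En.i (nat_lit 1589) (nat_lit 12) (nat_lit 9))
    (@En.n l67 (nat_lit 1687) (nat_lit 15) (nat_lit 2))))
  (@Cl.mk (nat_lit 0x2000600090009000e000800020008000c00070007000a00040008000e0008) (nat_lit 0x2440340000591) (nat_lit 16) Lb.e (@T16.mk En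
    (@En.n l20749 (nat_lit 1681) (nat_lit 6) (nat_lit 8))
    (@En.n l20750 (nat_lit 1873) (nat_lit 8) (nat_lit 14))
    (@En.i (nat_lit 1915) (nat_lit 2) (nat_lit 8))
    (@En.n l20751 (nat_lit 1699) (nat_lit 3) (nat_lit 4))
    (@En.n l20752 (nat_lit 1689) (nat_lit 4) (nat_lit 10))
    (@En.n l1099 (nat_lit 1689) (nat_lit 5) (nat_lit 7))
    (@En.n l16844 (nat_lit 4475) (nat_lit 6) (nat_lit 7))
    (@En.n l20751 (nat_lit 1234) (nat_lit 8) (nat_lit 12))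
    (@En.n l20753 (nat_lit 371) (nat_lit 9) (nat_lit 8))
    (@En.n l7 (nat_lit 1688) (nat_lit 9) (nat_lit 2))
    (@En.n l20754 (nat_lit 1694) (nat_lit 11) (nat_lit 8))
    (@En.n l12465 (nat_lit 10786) (nat_lit 12) (nat_lit 14))
    (@En.n l20755 (nat_lit 1914) (nat_lit 13) (nat_lit 9))
    (@En.n l20756 (nat_lit 1703) (nat_lit 9) (nat_lit 9))
    (@En.n l20757 (nat_lit 5210) (nat_lit 4) (nat_lit 6))
    (@En.n l17 (nat_lit 1688) (nat_lit 15) (nat_lit 2))))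
  (@Cl.mk (nat_lit 0x20006000e00090002000e000900020009000d0007000a00030007000e0007) (nat_lit 0x61050036080000) (nat_lit 16) Lb.e (@T16.mk En
    (@En.n l1084 (nat_lit 1684) (nat_lit 7) (nat_lit 7))
    (@En.n l3030 (nat_lit 1875) (nat_lit 1) (nat_lit 14))
    (@En.n l3037 (nat_lit 1921) (nat_lit 2) (nat_lit 7))
    (@En.n l10021 (nat_lit 1697) (nat_lit 3) (nat_lit 3))
    (@En.n l699 (nat_lit 12991) (nat_lit 8) (nat_lit 10))
    (@En.n l2268 (nat_lit 4473) (nat_lit 5) (nat_lit 7))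
    (@En.n l3030 (nat_lit 1230) (nat_lit 7) (nat_lit 13))
    (@En.n l1081 (nat_lit 370) (nat_lit 12) (nat_lit 9))
    (@En.n l3 (nat_lit 1689) (nat_lit 8) (nat_lit 2))
    (@En.n l1082 (nat_lit 1693) (nat_lit 10) (nat_lit 9))
    (@En.i (nat_lit 10782) (nat_lit 1) (nat_lit 14))
    (@En.n l18 (nat_lit 1689) (nat_lit 11) (nat_lit 2))
    (@En.n l10022 (nat_lit 1688) (nat_lit 13) (nat_lit 9))
    (@En.n l3545 (nat_lit 1698) (nat_lit 5) (nat_lit 14))
    (@En.n l5778 (nat_lit 5217) (nat_lit 5) (nat_lit 6))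
    (@En.n l28 (nat_lit 1689) (nat_lit 15) (nat_lit 2))))
  (@Cl.mk (nat_lit 0x20008000800080008000d00090008000300080008000800080007000e0008) (nat_lit 0x612265604504082) (nat_lit 16) Lb.e (@T16.mk En
    (@En.n l10849 (nat_lit 1419) (nat_lit 9) (nat_lit 8))
    (@En.n l1578 (nat_lit 1519) (nat_lit 1) (nat_lit 14))
    (@En.n l23159 (nat_lit 6036) (nat_lit 2) (nat_lit 7))
    (@En.n l61 (nat_lit 1535) (nat_lit 3) (nat_lit 8))
    (@En.n l217 (nat_lit 1761) (nat_lit 4) (nat_lit 8))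
    (@En.n l2479 (nat_lit 1687) (nat_lit 8) (nat_lit 8))
    (@En.n l3426 (nat_lit 1520) (nat_lit 6) (nat_lit 8))
    (@En.n l3909 (nat_lit 1577) (nat_lit 7) (nat_lit 3))
    (@En.n l23160 (nat_lit 1897) (nat_lit 0) (nat_lit 8))
    (@En.n l4920 (nat_lit 1557) (nat_lit 10) (nat_lit 9))
    (@En.n l211 (nat_lit 1416) (nat_lit 11) (nat_lit 13))
    (@En.n l23161 (nat_lit 1692) (nat_lit 8) (nat_lit 8))
    (@En.n l23160 (nat_lit 1574) (nat_lit 13) (nat_lit 8))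
    (@En.n l23162 (nat_lit 1633) (nat_lit 14) (nat_lit 8))
    (@En.n l10849 (nat_lit 7493) (nat_lit 6) (nat_lit 8))
    (@En.n l28 (nat_lit 1690) (nat_lit 15) (nat_lit 2))))
  (@Cl.mk (nat_lit 0x2000900090009000800080007000c000700070007000400080008000e0009) (nat_lit 0x12360400005611) (nat_lit 16) Lb.e (@T16.mk En
    (@En.n l20609 (nat_lit 1419) (nat_lit 12) (nat_lit 9))
    (@En.i (nat_lit 1673) (nat_lit 1) (nat_lit 14))
    (@En.n l19073 (nat_lit 1699) (nat_lit 2) (nat_lit 8))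
    (@En.n l20610 (nat_lit 1690) (nat_lit 3) (nat_lit 8))
    (@En.n l20611 (nat_lit 1558) (nat_lit 4) (nat_lit 4))
    (@En.n l20612 (nat_lit 1692) (nat_lit 5) (nat_lit 7))
    (@En.n l20613 (nat_lit 1695) (nat_lit 9) (nat_lit 7))
    (@En.n l20614 (nat_lit 1973) (nat_lit 7) (nat_lit 7))
    (@En.n l1738 (nat_lit 618) (nat_lit 9) (nat_lit 12))
    (@En.n l20615 (nat_lit 337) (nat_lit 9) (nat_lit 7))
    (@En.n l20616 (nat_lit 1628) (nat_lit 11) (nat_lit 8))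
    (@En.n l20617 (nat_lit 6565) (nat_lit 12) (nat_lit 8))
    (@En.n l20618 (nat_lit 1701) (nat_lit 7) (nat_lit 9))
    (@En.n l20619 (nat_lit 1562) (nat_lit 7) (nat_lit 9))
    (@En.n l20620 (nat_lit 8185) (nat_lit 10) (nat_lit 9))
    (@En.n l18 (nat_lit 1691) (nat_lit 15) (nat_lit 2))))
  (@Cl.mk (nat_lit 0x20008000e00090002000900090008000d00080007000300070007000e0008) (nat_lit 0x92001174000001) (nat_lit 16) Lb.e (@T16.mk En
    (@En.n l16225 (nat_lit 1690) (nat_lit 4) (nat_lit 8))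
    (@En.n l6080 (nat_lit 2003) (nat_lit 6) (nat_lit 14))
    (@En.n l16226 (nat_lit 1697) (nat_lit 2) (nat_lit 7))
    (@En.n l16227 (nat_lit 1761) (nat_lit 3) (nat_lit 7))
    (@En.n l16228 (nat_lit 1693) (nat_lit 4) (nat_lit 3))
    (@En.n l16229 (nat_lit 1896) (nat_lit 0) (nat_lit 7))
    (@En.n l5537 (nat_lit 1974) (nat_lit 6) (nat_lit 8))
    (@En.n l13709 (nat_lit 622) (nat_lit 12) (nat_lit 13))
    (@En.n l16229 (nat_lit 353) (nat_lit 13) (nat_lit 8))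
    (@En.n l16230 (nat_lit 1630) (nat_lit 14) (nat_lit 9))
    (@En.n l16231 (nat_lit 6569) (nat_lit 11) (nat_lit 9))
    (@En.n l18 (nat_lit 1692) (nat_lit 11) (nat_lit 2))
    (@En.n l16232 (nat_lit 1691) (nat_lit 13) (nat_lit 9))
    (@En.n l16233 (nat_lit 1696) (nat_lit 1) (nat_lit 14))
    (@En.n l16234 (nat_lit 5268) (nat_lit 2) (nat_lit 8))
    (@En.n l28 (nat_lit 1692) (nat_lit 15) (nat_lit 2))))
  (@Cl.mk (nat_lit 0x20007000e000a0002000900090008000d00060009000300070007000e0008) (nat_lit 0x70071160000001) (nat_lit 16) Lb.e (@T16.mk En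
    (@En.i (nat_lit 1577) (nat_lit 4) (nat_lit 8))
    (@En.n l23037 (nat_lit 2012) (nat_lit 6) (nat_lit 14))
    (@En.n l3556 (nat_lit 1689) (nat_lit 2) (nat_lit 7))
    (@En.n l8844 (nat_lit 1733) (nat_lit 3) (nat_lit 7))
    (@En.n l23038 (nat_lit 1692) (nat_lit 4) (nat_lit 3))
    (@En.n l12578 (nat_lit 12992) (nat_lit 9) (nat_lit 9))
    (@En.n l23039 (nat_lit 4466) (nat_lit 6) (nat_lit 6))
    (@En.n l3289 (nat_lit 621) (nat_lit 8) (nat_lit 13))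
    (@En.i (nat_lit 343) (nat_lit 13) (nat_lit 8))
    (@En.n l152 (nat_lit 1627) (nat_lit 10) (nat_lit 9))
    (@En.n l10020 (nat_lit 6571) (nat_lit 11) (nat_lit 9))
    (@En.n l50 (nat_lit 1693) (nat_lit 11) (nat_lit 2))
    (@En.n l2004 (nat_lit 1694) (nat_lit 13) (nat_lit 10))
    (@En.n l1393 (nat_lit 1695) (nat_lit 1) (nat_lit 14))
    (@En.n l287 (nat_lit 5264) (nat_lit 2) (nat_lit 7))
    (@En.n l11 (nat_lit 1693) (nat_lit 15) (nat_lit 2))))
  (@Cl.mk (nat_lit 0x20007000a000a000800080007000c000600060009000400080008000e0009) (nat_lit 0x82310300105611) (nat_lit 16) Lb.e (@T16.mk En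
    (@En.n l36796 (nat_lit 1572) (nat_lit 12) (nat_lit 9))
    (@En.n l5 (nat_lit 1669) (nat_lit 1) (nat_lit 14))
    (@En.n l36797 (nat_lit 1688) (nat_lit 2) (nat_lit 8))
    (@En.n l36798 (nat_lit 1589) (nat_lit 3) (nat_lit 8))
    (@En.n l8754 (nat_lit 1691) (nat_lit 4) (nat_lit 4))
    (@En.n l36799 (nat_lit 1693) (nat_lit 5) (nat_lit 9))
    (@En.n l5742 (nat_lit 1693) (nat_lit 6) (nat_lit 6))
    (@En.n l36800 (nat_lit 4467) (nat_lit 7) (nat_lit 6))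
    (@En.n l7 (nat_lit 617) (nat_lit 9) (nat_lit 12))
    (@En.n l8760 (nat_lit 338) (nat_lit 9) (nat_lit 7))
    (@En.n l13997 (nat_lit 1624) (nat_lit 11) (nat_lit 8))
    (@En.n l28615 (nat_lit 6570) (nat_lit 12) (nat_lit 8))
    (@En.n l297 (nat_lit 1702) (nat_lit 13) (nat_lit 10))
    (@En.n l28615 (nat_lit 1701) (nat_lit 8) (nat_lit 10))
    (@En.i (nat_lit 5265) (nat_lit 13) (nat_lit 7))
    (@En.n l17 (nat_lit 1694) (nat_lit 15) (nat_lit 2))))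
  (@Cl.mk (nat_lit 0x2000a000900090008000d00070006000300070007000e00080002000e0009) (nat_lit 0x301270000002061) (nat_lit 16) Lb.e (@T16.mk En
    (@En.n l26182 (nat_lit 1691) (nat_lit 14) (nat_lit 9))
    (@En.n l10118 (nat_lit 11659) (nat_lit 1) (nat_lit 14))
    (@En.n l18 (nat_lit 1695) (nat_lit 2) (nat_lit 2))
    (@En.n l61 (nat_lit 1575) (nat_lit 3) (nat_lit 8))
    (@En.n l10120 (nat_lit 1999) (nat_lit 5) (nat_lit 14))
    (@En.n l26183 (nat_lit 1698) (nat_lit 9) (nat_lit 7))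
    (@En.n l26184 (nat_lit 1687) (nat_lit 6) (nat_lit 7))
    (@En.n l26185 (nat_lit 1696) (nat_lit 7) (nat_lit 3))
    (@En.n l6478 (nat_lit 2908) (nat_lit 0) (nat_lit 6))
    (@En.n l26186 (nat_lit 4468) (nat_lit 6) (nat_lit 7))
    (@En.n l7055 (nat_lit 623) (nat_lit 11) (nat_lit 13))
    (@En.n l6478 (nat_lit 1107) (nat_lit 12) (nat_lit 8))
    (@En.n l26187 (nat_lit 1629) (nat_lit 13) (nat_lit 9))
    (@En.i (nat_lit 6563) (nat_lit 14) (nat_lit 9))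
    (@En.n l26188 (nat_lit 1694) (nat_lit 12) (nat_lit 10))
    (@En.n l3 (nat_lit 1695) (nat_lit 15) (nat_lit 2))))
noncomputable def a106 : T16 Cl := @T16.mk Cl
  (@Cl.mk (nat_lit 0x2000b000900090008000d00050008000300070007000e00080002000e0008) (nat_lit 0x201270600002081) (nat_lit 16) Lb.e (@T16.mk En
    (@En.n l2813 (nat_lit 1558) (nat_lit 14) (nat_lit 8))
    (@En.n l18607 (nat_lit 12121) (nat_lit 1) (nat_lit 14))
    (@En.n l7 (nat_lit 1696) (nat_lit 2) (nat_lit 2))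
    (@En.n l18608 (nat_lit 1519) (nat_lit 3) (nat_lit 8))
    (@En.n l3862 (nat_lit 2001) (nat_lit 1) (nat_lit 14))
    (@En.n l18609 (nat_lit 1700) (nat_lit 9) (nat_lit 7))
    (@En.n l2813 (nat_lit 1513) (nat_lit 6) (nat_lit 7))
    (@En.n l18610 (nat_lit 1695) (nat_lit 7) (nat_lit 3))
    (@En.n l18607 (nat_lit 1895) (nat_lit 0) (nat_lit 8))
    (@En.n l2818 (nat_lit 1908) (nat_lit 9) (nat_lit 5))
    (@En.n l3862 (nat_lit 624) (nat_lit 11) (nat_lit 13))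
    (@En.i (nat_lit 1112) (nat_lit 12) (nat_lit 8))
    (@En.n l18611 (nat_lit 1635) (nat_lit 13) (nat_lit 9))
    (@En.n l18612 (nat_lit 6564) (nat_lit 14) (nat_lit 9))
    (@En.n l18613 (nat_lit 1558) (nat_lit 12) (nat_lit 11))
    (@En.n l18 (nat_lit 1696) (nat_lit 15) (nat_lit 2))))
  (@Cl.mk (nat_lit 0x20007000e00080002000e000900020009000d0009000800030007000e0007) (nat_lit 0x80051037500000) (nat_lit 16) Lb.e (@T16.mk En
    (@En.n l20562 (nat_lit 1687) (nat_lit 7) (nat_lit 7))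
    (@En.i (nat_lit 4941) (nat_lit 1) (nat_lit 14))
    (@En.n l2433 (nat_lit 6032) (nat_lit 2) (nat_lit 7))
    (@En.n l17800 (nat_lit 1689) (nat_lit 3) (nat_lit 3))
    (@En.n l8657 (nat_lit 2909) (nat_lit 0) (nat_lit 8))
    (@En.n l18646 (nat_lit 1977) (nat_lit 5) (nat_lit 9))
    (@En.n l2520 (nat_lit 1817) (nat_lit 7) (nat_lit 13))
    (@En.n l8853 (nat_lit 1091) (nat_lit 12) (nat_lit 9))
    (@En.n l50 (nat_lit 1697) (nat_lit 8) (nat_lit 2))
    (@En.n l18646 (nat_lit 1692) (nat_lit 10) (nat_lit 9))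
    (@En.n l20563 (nat_lit 10785) (nat_lit 1) (nat_lit 14))
    (@En.n l28 (nat_lit 1697) (nat_lit 11) (nat_lit 2))
    (@En.n l20564 (nat_lit 1699) (nat_lit 13) (nat_lit 8))
    (@En.n l1578 (nat_lit 1700) (nat_lit 5) (nat_lit 14))
    (@En.n l2644 (nat_lit 12817) (nat_lit 5) (nat_lit 7))
    (@En.n l725 (nat_lit 1697) (nat_lit 15) (nat_lit 2))))
  (@Cl.mk (nat_lit 0x20009000d0008000700030007000e00070002000e000800020009000e0009) (nat_lit 0x350000000500351) (nat_lit 16) Lb.e (@T16.mk En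
    (@En.n l18774 (nat_lit 1695) (nat_lit 13) (nat_lit 9))
    (@En.n l2764 (nat_lit 11362) (nat_lit 1) (nat_lit 14))
    (@En.i (nat_lit 1688) (nat_lit 12) (nat_lit 9))
    (@En.n l67 (nat_lit 1698) (nat_lit 3) (nat_lit 2))
    (@En.n l12459 (nat_lit 1699) (nat_lit 14) (nat_lit 8))
    (@En.n l1096 (nat_lit 11431) (nat_lit 1) (nat_lit 14))
    (@En.n l17 (nat_lit 1698) (nat_lit 6) (nat_lit 2))
    (@En.n l18766 (nat_lit 1686) (nat_lit 3) (nat_lit 7))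
    (@En.n l17154 (nat_lit 4966) (nat_lit 5) (nat_lit 14))
    (@En.i (nat_lit 6043) (nat_lit 5) (nat_lit 7))
    (@En.n l18775 (nat_lit 1700) (nat_lit 10) (nat_lit 3))
    (@En.n l1099 (nat_lit 2910) (nat_lit 0) (nat_lit 7))
    (@En.n l16844 (nat_lit 4560) (nat_lit 13) (nat_lit 8))
    (@En.n l12459 (nat_lit 1831) (nat_lit 10) (nat_lit 13))
    (@En.n l8064 (nat_lit 1547) (nat_lit 11) (nat_lit 9))
    (@En.n l7 (nat_lit 1698) (nat_lit 15) (nat_lit 2))))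
  (@Cl.mk (nat_lit 0x2000800080008000e000800020008000c00080008000800040008000e0008) (nat_lit 0x662540145110591) (nat_lit 16) Lb.e (@T16.mk En
    (@En.n l8661 (nat_lit 1683) (nat_lit 6) (nat_lit 8))
    (@En.n l8662 (nat_lit 4944) (nat_lit 8) (nat_lit 14))
    (@En.n l8663 (nat_lit 6035) (nat_lit 2) (nat_lit 8))
    (@En.n l8664 (nat_lit 1560) (nat_lit 3) (nat_lit 4))
    (@En.n l8665 (nat_lit 1697) (nat_lit 4) (nat_lit 8))
    (@En.n l8666 (nat_lit 1698) (nat_lit 12) (nat_lit 8))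
    (@En.i (nat_lit 1976) (nat_lit 6) (nat_lit 8))
    (@En.i (nat_lit 1241) (nat_lit 8) (nat_lit 12))
    (@En.n l8667 (nat_lit 981) (nat_lit 9) (nat_lit 8))
    (@En.n l3 (nat_lit 1699) (nat_lit 9) (nat_lit 2))
    (@En.n l8668 (nat_lit 1691) (nat_lit 11) (nat_lit 8))
    (@En.n l8669 (nat_lit 10787) (nat_lit 12) (nat_lit 14))
    (@En.n l8670 (nat_lit 1703) (nat_lit 8) (nat_lit 8))
    (@En.n l8671 (nat_lit 1900) (nat_lit 3) (nat_lit 8))
    (@En.n l8672 (nat_lit 10872) (nat_lit 4) (nat_lit 8))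
    (@En.n l28 (nat_lit 1699) (nat_lit 15) (nat_lit 2))))
  (@Cl.mk (nat_lit 0x20009000d0006000900030007000e00070002000e00070002000a000e0009) (nat_lit 0x380700000700151) (nat_lit 16) Lb.e (@T16.mk En
    (@En.n l26710 (nat_lit 1696) (nat_lit 13) (nat_lit 9))
    (@En.n l13025 (nat_lit 11359) (nat_lit 1) (nat_lit 14))
    (@En.n l26711 (nat_lit 1560) (nat_lit 12) (nat_lit 10))
    (@En.n l11 (nat_lit 1700) (nat_lit 3) (nat_lit 2))
    (@En.n l26712 (nat_lit 1560) (nat_lit 14) (nat_lit 7))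
    (@En.i (nat_lit 12122) (nat_lit 1) (nat_lit 14))
    (@En.n l725 (nat_lit 1700) (nat_lit 6) (nat_lit 2))
    (@En.n l17 (nat_lit 1844) (nat_lit 7) (nat_lit 7))
    (@En.i (nat_lit 4949) (nat_lit 9) (nat_lit 14))
    (@En.n l7507 (nat_lit 6057) (nat_lit 5) (nat_lit 7))
    (@En.n l26713 (nat_lit 1698) (nat_lit 10) (nat_lit 3))
    (@En.i (nat_lit 3426) (nat_lit 0) (nat_lit 9))
    (@En.n l18571 (nat_lit 1905) (nat_lit 13) (nat_lit 6))
    (@En.n l13241 (nat_lit 1830) (nat_lit 10) (nat_lit 13))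
    (@En.n l22441 (nat_lit 1182) (nat_lit 11) (nat_lit 9))
    (@En.n l50 (nat_lit 1700) (nat_lit 15) (nat_lit 2))))
  (@Cl.mk (nat_lit 0x2000500090009000e000a0002000a0009000700070006000b0006000e0007) (nat_lit 0x67110710003000) (nat_lit 16) Lb.e (@T16.mk En
    (@En.n l9079 (nat_lit 1691) (nat_lit 6) (nat_lit 7))
    (@En.n l3621 (nat_lit 1702) (nat_lit 8) (nat_lit 14))
    (@En.n l2243 (nat_lit 1975) (nat_lit 2) (nat_lit 6))
    (@En.n l1038 (nat_lit 615) (nat_lit 3) (nat_lit 11))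
    (@En.n l2243 (nat_lit 334) (nat_lit 4) (nat_lit 6))
    (@En.n l9080 (nat_lit 1626) (nat_lit 5) (nat_lit 7))
    (@En.i (nat_lit 7647) (nat_lit 6) (nat_lit 7))
    (@En.n l9081 (nat_lit 441) (nat_lit 14) (nat_lit 9))
    (@En.n l9082 (nat_lit 9887) (nat_lit 9) (nat_lit 10))
    (@En.n l7 (nat_lit 1701) (nat_lit 9) (nat_lit 2))
    (@En.n l9083 (nat_lit 1571) (nat_lit 11) (nat_lit 10))
    (@En.n l9079 (nat_lit 1668) (nat_lit 12) (nat_lit 14))
    (@En.n l3774 (nat_lit 1703) (nat_lit 13) (nat_lit 9))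
    (@En.n l1043 (nat_lit 1574) (nat_lit 3) (nat_lit 9))
    (@En.i (nat_lit 1562) (nat_lit 13) (nat_lit 5))
    (@En.n l3 (nat_lit 1701) (nat_lit 15) (nat_lit 2))))
  (@Cl.mk (nat_lit 0x20007000a000700070006000b000e000600020009000500090009000e000a) (nat_lit 0x10003c00206711) (nat_lit 16) Lb.e (@T16.mk En
    (@En.n l3279 (nat_lit 1576) (nat_lit 10) (nat_lit 10))
    (@En.n l15791 (nat_lit 1667) (nat_lit 11) (nat_lit 14))
    (@En.n l10002 (nat_lit 1914) (nat_lit 2) (nat_lit 9))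
    (@En.n l4554 (nat_lit 1732) (nat_lit 3) (nat_lit 9))
    (@En.n l8520 (nat_lit 1701) (nat_lit 14) (nat_lit 5))
    (@En.n l901 (nat_lit 1694) (nat_lit 5) (nat_lit 9))
    (@En.n l50 (nat_lit 1702) (nat_lit 6) (nat_lit 2))
    (@En.n l8784 (nat_lit 1694) (nat_lit 7) (nat_lit 6))
    (@En.i (nat_lit 4776) (nat_lit 9) (nat_lit 14))
    (@En.n l1098 (nat_lit 616) (nat_lit 2) (nat_lit 11))
    (@En.i (nat_lit 336) (nat_lit 3) (nat_lit 6))
    (@En.n l152 (nat_lit 1625) (nat_lit 4) (nat_lit 7))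
    (@En.n l4155 (nat_lit 7646) (nat_lit 5) (nat_lit 7))
    (@En.i (nat_lit 627) (nat_lit 8) (nat_lit 10))
    (@En.n l2228 (nat_lit 5278) (nat_lit 7) (nat_lit 7))
    (@En.n l11 (nat_lit 1702) (nat_lit 15) (nat_lit 2))))
  (@Cl.mk (nat_lit 0x200050009000e0009000200090008000e000700020007000b0007000e0008) (nat_lit 0x6a107140004002) (nat_lit 16) Lb.e (@T16.mk En
    (@En.n l3114 (nat_lit 1699) (nat_lit 5) (nat_lit 8))
    (@En.n l3115 (nat_lit 1914) (nat_lit 7) (nat_lit 14))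
    (@En.n l3116 (nat_lit 1978) (nat_lit 13) (nat_lit 7))
    (@En.n l2460 (nat_lit 1888) (nat_lit 3) (nat_lit 11))
    (@En.i (nat_lit 914) (nat_lit 4) (nat_lit 7))
    (@En.n l2461 (nat_lit 1703) (nat_lit 5) (nat_lit 2))
    (@En.n l3117 (nat_lit 1701) (nat_lit 6) (nat_lit 7))
    (@En.n l3118 (nat_lit 12838) (nat_lit 8) (nat_lit 14))
    (@En.n l644 (nat_lit 628) (nat_lit 2) (nat_lit 8))
    (@En.n l3119 (nat_lit 11506) (nat_lit 10) (nat_lit 9))
    (@En.n l11 (nat_lit 1703) (nat_lit 10) (nat_lit 2))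
    (@En.n l3120 (nat_lit 1682) (nat_lit 12) (nat_lit 9))
    (@En.n l3121 (nat_lit 5001) (nat_lit 13) (nat_lit 14))
    (@En.n l3119 (nat_lit 6479) (nat_lit 2) (nat_lit 9))
    (@En.n l3122 (nat_lit 1900) (nat_lit 8) (nat_lit 5))
    (@En.n l18 (nat_lit 1703) (nat_lit 15) (nat_lit 2))))
  (@Cl.mk (nat_lit 0x2000a000600090007000d000700060003000e00070002000a0009000e0009) (nat_lit 0x30106000b006461) (nat_lit 16) Lb.e (@T16.mk En
    (@En.i (nat_lit 1590) (nat_lit 12) (nat_lit 9))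
    (@En.n l8222 (nat_lit 5350) (nat_lit 13) (nat_lit 14))
    (@En.n l2764 (nat_lit 1390) (nat_lit 2) (nat_lit 9))
    (@En.n l1690 (nat_lit 1588) (nat_lit 3) (nat_lit 10))
    (@En.n l67 (nat_lit 1704) (nat_lit 4) (nat_lit 2))
    (@En.n l97 (nat_lit 1588) (nat_lit 5) (nat_lit 7))
    (@En.n l14750 (nat_lit 5252) (nat_lit 1) (nat_lit 14))
    (@En.n l8222 (nat_lit 1579) (nat_lit 2) (nat_lit 3))
    (@En.i (nat_lit 2931) (nat_lit 3) (nat_lit 6))
    (@En.n l20453 (nat_lit 3301) (nat_lit 4) (nat_lit 7))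
    (@En.n l4660 (nat_lit 1286) (nat_lit 6) (nat_lit 13))
    (@En.i (nat_lit 1328) (nat_lit 6) (nat_lit 7))
    (@En.n l8222 (nat_lit 1201) (nat_lit 9) (nat_lit 9))
    (@En.n l1747 (nat_lit 6513) (nat_lit 14) (nat_lit 6))
    (@En.n l50 (nat_lit 1705) (nat_lit 10) (nat_lit 10))
    (@En.n l7 (nat_lit 1704) (nat_lit 15) (nat_lit 2))))
  (@Cl.mk (nat_lit 0x2000b000a0007000a000a000500080006000c0006000600090004000e0008) (nat_lit 0x201201030000b6) (nat_lit 16) Lb.e (@T16.mk En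
    (@En.n l97 (nat_lit 1708) (nat_lit 14) (nat_lit 8))
    (@En.n l26025 (nat_lit 2018) (nat_lit 1) (nat_lit 14))
    (@En.n l5834 (nat_lit 1590) (nat_lit 2) (nat_lit 4))
    (@En.n l7 (nat_lit 1707) (nat_lit 9) (nat_lit 9))
    (@En.n l644 (nat_lit 1707) (nat_lit 10) (nat_lit 6))
    (@En.n l38690 (nat_lit 3300) (nat_lit 5) (nat_lit 6))
    (@En.n l38691 (nat_lit 424) (nat_lit 7) (nat_lit 12))
    (@En.n l19318 (nat_lit 994) (nat_lit 7) (nat_lit 6))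
    (@En.n l38691 (nat_lit 1140) (nat_lit 10) (nat_lit 8))
    (@En.n l38094 (nat_lit 5386) (nat_lit 9) (nat_lit 5))
    (@En.n l38692 (nat_lit 1709) (nat_lit 6) (nat_lit 10))
    (@En.n l5838 (nat_lit 497) (nat_lit 8) (nat_lit 10))
    (@En.n l26027 (nat_lit 4921) (nat_lit 13) (nat_lit 7))
    (@En.n l38693 (nat_lit 1288) (nat_lit 14) (nat_lit 10))
    (@En.n l1690 (nat_lit 1708) (nat_lit 12) (nat_lit 11))
    (@En.n l67 (nat_lit 1705) (nat_lit 15) (nat_lit 2))))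
  (@Cl.mk (nat_lit 0x20006000900090008000d0007000a000300070007000a00080006000e0009) (nat_lit 0x12140000006052) (nat_lit 16) Lb.e (@T16.mk En
    (@En.i (nat_lit 1708) (nat_lit 9) (nat_lit 9))
    (@En.n l601 (nat_lit 1588) (nat_lit 1) (nat_lit 14))
    (@En.n l10031 (nat_lit 4916) (nat_lit 2) (nat_lit 6))
    (@En.n l2954 (nat_lit 1413) (nat_lit 3) (nat_lit 8))
    (@En.n l10032 (nat_lit 1713) (nat_lit 4) (nat_lit 10))
    (@En.n l10033 (nat_lit 1713) (nat_lit 5) (nat_lit 7))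
    (@En.n l2947 (nat_lit 1717) (nat_lit 6) (nat_lit 7))
    (@En.n l10034 (nat_lit 1589) (nat_lit 7) (nat_lit 3))
    (@En.n l5034 (nat_lit 12962) (nat_lit 8) (nat_lit 10))
    (@En.n l2947 (nat_lit 3342) (nat_lit 10) (nat_lit 7))
    (@En.n l3548 (nat_lit 422) (nat_lit 11) (nat_lit 13))
    (@En.n l8824 (nat_lit 1101) (nat_lit 12) (nat_lit 8))
    (@En.n l3 (nat_lit 1707) (nat_lit 13) (nat_lit 9))
    (@En.n l3549 (nat_lit 1573) (nat_lit 9) (nat_lit 9))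
    (@En.i (nat_lit 1739) (nat_lit 6) (nat_lit 6))
    (@En.n l50 (nat_lit 1706) (nat_lit 15) (nat_lit 2))))
  (@Cl.mk (nat_lit 0x2000600090007000d000600090003000e00070002000a00090007000e000a) (nat_lit 0x103070b0017072) (nat_lit 16) Lb.e (@T16.mk En
    (@En.i (nat_lit 1705) (nat_lit 11) (nat_lit 10))
    (@En.n l601 (nat_lit 1704) (nat_lit 1) (nat_lit 14))
    (@En.n l16834 (nat_lit 4920) (nat_lit 2) (nat_lit 7))
    (@En.n l1101 (nat_lit 1718) (nat_lit 14) (nat_lit 9))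
    (@En.n l1690 (nat_lit 1706) (nat_lit 4) (nat_lit 10))
    (@En.n l67 (nat_lit 1707) (nat_lit 5) (nat_lit 2))
    (@En.n l97 (nat_lit 1706) (nat_lit 6) (nat_lit 7))
    (@En.n l4660 (nat_lit 2020) (nat_lit 8) (nat_lit 14))
    (@En.n l2364 (nat_lit 1732) (nat_lit 8) (nat_lit 3))
    (@En.n l5588 (nat_lit 12961) (nat_lit 9) (nat_lit 9))
    (@En.n l1075 (nat_lit 3343) (nat_lit 4) (nat_lit 6))
    (@En.n l4660 (nat_lit 420) (nat_lit 12) (nat_lit 13))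
    (@En.n l3082 (nat_lit 1242) (nat_lit 13) (nat_lit 7))
    (@En.n l23055 (nat_lit 1313) (nat_lit 14) (nat_lit 9))
    (@En.n l9874 (nat_lit 1740) (nat_lit 8) (nat_lit 6))
    (@En.n l50 (nat_lit 1707) (nat_lit 15) (nat_lit 2))))
  (@Cl.mk (nat_lit 0x400080008000b00090006000900090005000800080007000c00070007000a) (nat_lit 0x569301201204001) (nat_lit 16) Lb.e (@T16.mk En
    (@En.n l7 (nat_lit 1706) (nat_lit 8) (nat_lit 10))
    (@En.n l644 (nat_lit 1706) (nat_lit 9) (nat_lit 7))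
    (@En.n l23088 (nat_lit 3183) (nat_lit 7) (nat_lit 7))
    (@En.n l3548 (nat_lit 426) (nat_lit 8) (nat_lit 12))
    (@En.n l23089 (nat_lit 977) (nat_lit 9) (nat_lit 7))
    (@En.n l3 (nat_lit 1705) (nat_lit 8) (nat_lit 8))
    (@En.n l3549 (nat_lit 1569) (nat_lit 10) (nat_lit 8))
    (@En.n l23072 (nat_lit 1744) (nat_lit 7) (nat_lit 5))
    (@En.n l5837 (nat_lit 1710) (nat_lit 7) (nat_lit 9))
    (@En.n l5838 (nat_lit 495) (nat_lit 9) (nat_lit 9))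
    (@En.n l23090 (nat_lit 4919) (nat_lit 2) (nat_lit 6))
    (@En.n l23091 (nat_lit 1411) (nat_lit 12) (nat_lit 9))
    (@En.n l23092 (nat_lit 1711) (nat_lit 7) (nat_lit 11))
    (@En.n l23093 (nat_lit 1711) (nat_lit 8) (nat_lit 8))
    (@En.n l2947 (nat_lit 1715) (nat_lit 11) (nat_lit 8))
    (@En.n l23094 (nat_lit 1420) (nat_lit 15) (nat_lit 4))))
  (@Cl.mk (nat_lit 0x200090005000e00090002000c000b0007000a000400070005000b000e0006) (nat_lit 0x10b7002010003c0) (nat_lit 16) Lb.e (@T16.mk En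
    (@En.n l26413 (nat_lit 1705) (nat_lit 5) (nat_lit 6))
    (@En.i (nat_lit 5043) (nat_lit 7) (nat_lit 14))
    (@En.n l26414 (nat_lit 1664) (nat_lit 2) (nat_lit 11))
    (@En.i (nat_lit 992) (nat_lit 3) (nat_lit 5))
    (@En.n l26415 (nat_lit 1141) (nat_lit 4) (nat_lit 7))
    (@En.n l14823 (nat_lit 7182) (nat_lit 5) (nat_lit 4))
    (@En.n l5276 (nat_lit 493) (nat_lit 8) (nat_lit 10))
    (@En.n l1643 (nat_lit 4976) (nat_lit 7) (nat_lit 7))
    (@En.n l1867 (nat_lit 1286) (nat_lit 9) (nat_lit 11))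
    (@En.n l20049 (nat_lit 1710) (nat_lit 10) (nat_lit 12))
    (@En.n l17 (nat_lit 1709) (nat_lit 10) (nat_lit 2))
    (@En.n l26416 (nat_lit 1710) (nat_lit 12) (nat_lit 9))
    (@En.n l26417 (nat_lit 2017) (nat_lit 1) (nat_lit 14))
    (@En.n l14822 (nat_lit 497) (nat_lit 14) (nat_lit 5))
    (@En.n l26418 (nat_lit 1705) (nat_lit 3) (nat_lit 9))
    (@En.n l28 (nat_lit 1709) (nat_lit 15) (nat_lit 2))))
  (@Cl.mk (nat_lit 0x2000a000500090009000c000a000600090004000700070006000b000e0007) (nat_lit 0x2067a10100004c0) (nat_lit 16) Lb.e (@T16.mk En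
    (@En.n l7910 (nat_lit 1708) (nat_lit 2) (nat_lit 7))
    (@En.n l9697 (nat_lit 3182) (nat_lit 4) (nat_lit 14))
    (@En.n l3548 (nat_lit 1500) (nat_lit 2) (nat_lit 11))
    (@En.n l22078 (nat_lit 919) (nat_lit 3) (nat_lit 6))
    (@En.n l22079 (nat_lit 1709) (nat_lit 4) (nat_lit 7))
    (@En.n l9697 (nat_lit 1570) (nat_lit 5) (nat_lit 7))
    (@En.n l22080 (nat_lit 7180) (nat_lit 6) (nat_lit 4))
    (@En.i (nat_lit 488) (nat_lit 9) (nat_lit 9))
    (@En.n l5032 (nat_lit 4972) (nat_lit 8) (nat_lit 6))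
    (@En.n l22081 (nat_lit 421) (nat_lit 10) (nat_lit 10))
    (@En.n l22082 (nat_lit 1712) (nat_lit 6) (nat_lit 12))
    (@En.n l22083 (nat_lit 1712) (nat_lit 7) (nat_lit 9))
    (@En.n l22080 (nat_lit 1716) (nat_lit 13) (nat_lit 9))
    (@En.n l699 (nat_lit 495) (nat_lit 14) (nat_lit 5))
    (@En.n l2179 (nat_lit 1708) (nat_lit 0) (nat_lit 10))
    (@En.n l50 (nat_lit 1710) (nat_lit 15) (nat_lit 2))))
  (@Cl.mk (nat_lit 0x20008000c00080008000b00040008000b00080005000800080005000e0008) (nat_lit 0x352000582012042) (nat_lit 16) Lb.e (@T16.mk En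
    (@En.n l17829 (nat_lit 1708) (nat_lit 6) (nat_lit 8))
    (@En.n l17830 (nat_lit 1681) (nat_lit 1) (nat_lit 14))
    (@En.n l12673 (nat_lit 5387) (nat_lit 2) (nat_lit 5))
    (@En.n l4449 (nat_lit 1712) (nat_lit 3) (nat_lit 8))
    (@En.n l17831 (nat_lit 499) (nat_lit 10) (nat_lit 8))
    (@En.n l17832 (nat_lit 4923) (nat_lit 5) (nat_lit 5))
    (@En.n l420 (nat_lit 1423) (nat_lit 6) (nat_lit 8))
    (@En.i (nat_lit 13542) (nat_lit 7) (nat_lit 11))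
    (@En.n l1897 (nat_lit 6798) (nat_lit 9) (nat_lit 8))
    (@En.n l12725 (nat_lit 1591) (nat_lit 9) (nat_lit 4))
    (@En.n l12726 (nat_lit 1713) (nat_lit 7) (nat_lit 11))
    (@En.n l12727 (nat_lit 1713) (nat_lit 8) (nat_lit 8))
    (@En.n l17833 (nat_lit 3345) (nat_lit 13) (nat_lit 8))
    (@En.n l17834 (nat_lit 1498) (nat_lit 14) (nat_lit 12))
    (@En.n l17835 (nat_lit 1300) (nat_lit 4) (nat_lit 8))
    (@En.n l17 (nat_lit 1711) (nat_lit 15) (nat_lit 2))))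
noncomputable def a107 : T16 Cl := @T16.mk Cl
  (@Cl.mk (nat_lit 0x20007000b000e00080002000b00050009000c0009000500080004000e0007) (nat_lit 0x5c301069201030) (nat_lit 16) Lb.e (@T16.mk En
    (@En.n l14564 (nat_lit 1710) (nat_lit 5) (nat_lit 7))
    (@En.n l14565 (nat_lit 1680) (nat_lit 1) (nat_lit 14))
    (@En.i (nat_lit 7181) (nat_lit 2) (nat_lit 4))
    (@En.n l4837 (nat_lit 490) (nat_lit 3) (nat_lit 8))
    (@En.n l14566 (nat_lit 4969) (nat_lit 4) (nat_lit 5))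
    (@En.n l14567 (nat_lit 1455) (nat_lit 5) (nat_lit 9))
    (@En.n l4837 (nat_lit 13544) (nat_lit 6) (nat_lit 12))
    (@En.i (nat_lit 6799) (nat_lit 13) (nat_lit 9))
    (@En.n l14568 (nat_lit 499) (nat_lit 14) (nat_lit 5))
    (@En.n l11935 (nat_lit 1711) (nat_lit 10) (nat_lit 11))
    (@En.n l7 (nat_lit 1712) (nat_lit 10) (nat_lit 2))
    (@En.n l1430 (nat_lit 1711) (nat_lit 12) (nat_lit 8))
    (@En.n l4837 (nat_lit 5038) (nat_lit 13) (nat_lit 14))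
    (@En.n l14569 (nat_lit 1501) (nat_lit 2) (nat_lit 11))
    (@En.n l4837 (nat_lit 1302) (nat_lit 3) (nat_lit 7))
    (@En.n l107 (nat_lit 1712) (nat_lit 15) (nat_lit 2))))
  (@Cl.mk (nat_lit 0x20006000e000900020009000d0008000b00030007000a00070005000e0008) (nat_lit 0x52035690080042) (nat_lit 16) Lb.e (@T16.mk En
    (@En.n l7236 (nat_lit 1711) (nat_lit 4) (nat_lit 8))
    (@En.n l1708 (nat_lit 1714) (nat_lit 1) (nat_lit 14))
    (@En.n l158 (nat_lit 4922) (nat_lit 2) (nat_lit 5))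
    (@En.n l7237 (nat_lit 1746) (nat_lit 7) (nat_lit 7))
    (@En.i (nat_lit 13545) (nat_lit 8) (nat_lit 10))
    (@En.i (nat_lit 6800) (nat_lit 5) (nat_lit 7))
    (@En.n l5381 (nat_lit 1733) (nat_lit 6) (nat_lit 3))
    (@En.i (nat_lit 12963) (nat_lit 7) (nat_lit 11))
    (@En.n l3340 (nat_lit 3344) (nat_lit 13) (nat_lit 8))
    (@En.n l509 (nat_lit 1504) (nat_lit 10) (nat_lit 13))
    (@En.n l5461 (nat_lit 1304) (nat_lit 11) (nat_lit 9))
    (@En.n l107 (nat_lit 1713) (nat_lit 11) (nat_lit 2))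
    (@En.n l1605 (nat_lit 1706) (nat_lit 13) (nat_lit 9))
    (@En.n l7238 (nat_lit 1684) (nat_lit 1) (nat_lit 14))
    (@En.n l1208 (nat_lit 1741) (nat_lit 2) (nat_lit 6))
    (@En.n l17 (nat_lit 1713) (nat_lit 15) (nat_lit 2))))
  (@Cl.mk (nat_lit 0x200080006000e000900020009000d0009000800030007000a0007000e0007) (nat_lit 0x305203760004030) (nat_lit 16) Lb.e (@T16.mk En
    (@En.n l6979 (nat_lit 1591) (nat_lit 5) (nat_lit 7))
    (@En.n l4356 (nat_lit 5351) (nat_lit 7) (nat_lit 14))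
    (@En.n l4794 (nat_lit 1451) (nat_lit 2) (nat_lit 7))
    (@En.n l14363 (nat_lit 13541) (nat_lit 8) (nat_lit 10))
    (@En.i (nat_lit 2595) (nat_lit 4) (nat_lit 7))
    (@En.n l5559 (nat_lit 1583) (nat_lit 5) (nat_lit 3))
    (@En.n l1545 (nat_lit 2937) (nat_lit 0) (nat_lit 8))
    (@En.n l5275 (nat_lit 3347) (nat_lit 13) (nat_lit 9))
    (@En.n l14364 (nat_lit 1718) (nat_lit 9) (nat_lit 13))
    (@En.n l14365 (nat_lit 1543) (nat_lit 10) (nat_lit 9))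
    (@En.n l107 (nat_lit 1714) (nat_lit 10) (nat_lit 2))
    (@En.n l14366 (nat_lit 1588) (nat_lit 12) (nat_lit 9))
    (@En.n l9274 (nat_lit 1686) (nat_lit 13) (nat_lit 14))
    (@En.n l14367 (nat_lit 6510) (nat_lit 14) (nat_lit 6))
    (@En.n l14368 (nat_lit 1711) (nat_lit 3) (nat_lit 8))
    (@En.n l50 (nat_lit 1714) (nat_lit 15) (nat_lit 2))))
  (@Cl.mk (nat_lit 0x300080008000b00080007000b000800050008000800050008000d00090008) (nat_lit 0x403300003800) (nat_lit 16) Lb.e (@T16.mk En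
    (@En.n l38741 (nat_lit 5029) (nat_lit 0) (nat_lit 8))
    (@En.n l10040 (nat_lit 2023) (nat_lit 13) (nat_lit 9))
    (@En.n l38742 (nat_lit 2613) (nat_lit 2) (nat_lit 13))
    (@En.n l38741 (nat_lit 1588) (nat_lit 10) (nat_lit 8))
    (@En.n l38715 (nat_lit 8833) (nat_lit 4) (nat_lit 5))
    (@En.n l38743 (nat_lit 1716) (nat_lit 8) (nat_lit 8))
    (@En.n l38744 (nat_lit 6485) (nat_lit 10) (nat_lit 8))
    (@En.n l23098 (nat_lit 1041) (nat_lit 7) (nat_lit 5))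
    (@En.n l31915 (nat_lit 5965) (nat_lit 0) (nat_lit 8))
    (@En.n l38745 (nat_lit 6798) (nat_lit 8) (nat_lit 11))
    (@En.n l38746 (nat_lit 6802) (nat_lit 9) (nat_lit 7))
    (@En.n l17 (nat_lit 8820) (nat_lit 12) (nat_lit 8))
    (@En.n l7 (nat_lit 1717) (nat_lit 7) (nat_lit 11))
    (@En.n l644 (nat_lit 1717) (nat_lit 8) (nat_lit 8))
    (@En.n l32553 (nat_lit 10059) (nat_lit 12) (nat_lit 8))
    (@En.n l1106 (nat_lit 6793) (nat_lit 15) (nat_lit 3))))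
  (@Cl.mk (nat_lit 0x2000b00090008000c00090005000800040007000d000800070003000e0008) (nat_lit 0x150430600700001) (nat_lit 16) Lb.e (@T16.mk En
    (@En.n l32256 (nat_lit 1715) (nat_lit 14) (nat_lit 8))
    (@En.n l32257 (nat_lit 9909) (nat_lit 1) (nat_lit 14))
    (@En.n l32258 (nat_lit 6791) (nat_lit 2) (nat_lit 3))
    (@En.n l32259 (nat_lit 6451) (nat_lit 3) (nat_lit 7))
    (@En.n l20185 (nat_lit 6926) (nat_lit 4) (nat_lit 8))
    (@En.n l32260 (nat_lit 2622) (nat_lit 6) (nat_lit 13))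
    (@En.n l22072 (nat_lit 1704) (nat_lit 11) (nat_lit 7))
    (@En.i (nat_lit 9826) (nat_lit 7) (nat_lit 4))
    (@En.n l32258 (nat_lit 6099) (nat_lit 10) (nat_lit 8))
    (@En.n l3473 (nat_lit 1182) (nat_lit 9) (nat_lit 5))
    (@En.n l2805 (nat_lit 5962) (nat_lit 11) (nat_lit 9))
    (@En.n l3 (nat_lit 6799) (nat_lit 12) (nat_lit 12))
    (@En.n l3 (nat_lit 6803) (nat_lit 13) (nat_lit 8))
    (@En.n l61 (nat_lit 9350) (nat_lit 14) (nat_lit 9))
    (@En.n l32261 (nat_lit 1715) (nat_lit 12) (nat_lit 11))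
    (@En.n l7 (nat_lit 1716) (nat_lit 15) (nat_lit 2))))
  (@Cl.mk (nat_lit 0x200060009000d000a000900030008000b00070006000a00070005000e0008) (nat_lit 0x46000690030001) (nat_lit 16) Lb.e (@T16.mk En
    (@En.i (nat_lit 1715) (nat_lit 6) (nat_lit 8))
    (@En.n l601 (nat_lit 2593) (nat_lit 1) (nat_lit 14))
    (@En.n l23098 (nat_lit 1040) (nat_lit 2) (nat_lit 5))
    (@En.n l2711 (nat_lit 6674) (nat_lit 3) (nat_lit 7))
    (@En.n l4817 (nat_lit 6800) (nat_lit 4) (nat_lit 10))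
    (@En.n l4817 (nat_lit 6801) (nat_lit 5) (nat_lit 6))
    (@En.n l17 (nat_lit 9362) (nat_lit 6) (nat_lit 7))
    (@En.n l12585 (nat_lit 14033) (nat_lit 7) (nat_lit 11))
    (@En.i (nat_lit 10062) (nat_lit 9) (nat_lit 8))
    (@En.n l1106 (nat_lit 6795) (nat_lit 9) (nat_lit 3))
    (@En.n l619 (nat_lit 5027) (nat_lit 0) (nat_lit 9))
    (@En.n l10040 (nat_lit 6939) (nat_lit 12) (nat_lit 10))
    (@En.n l1110 (nat_lit 2608) (nat_lit 13) (nat_lit 13))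
    (@En.n l2299 (nat_lit 1714) (nat_lit 9) (nat_lit 9))
    (@En.i (nat_lit 8841) (nat_lit 4) (nat_lit 6))
    (@En.n l50 (nat_lit 1717) (nat_lit 15) (nat_lit 2))))
  (@Cl.mk (nat_lit 0x200090006000e00090002000d000800070003000d0007000a0003000e0008) (nat_lit 0x606206100604054) (nat_lit 16) Lb.e (@T16.mk En
    (@En.i (nat_lit 1413) (nat_lit 5) (nat_lit 8))
    (@En.i (nat_lit 2019) (nat_lit 1) (nat_lit 14))
    (@En.n l3659 (nat_lit 1719) (nat_lit 2) (nat_lit 3))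
    (@En.n l3324 (nat_lit 13215) (nat_lit 8) (nat_lit 10))
    (@En.n l117 (nat_lit 2589) (nat_lit 4) (nat_lit 7))
    (@En.n l3348 (nat_lit 1573) (nat_lit 6) (nat_lit 13))
    (@En.n l18792 (nat_lit 1296) (nat_lit 6) (nat_lit 3))
    (@En.i (nat_lit 1231) (nat_lit 7) (nat_lit 7))
    (@En.n l3348 (nat_lit 1303) (nat_lit 14) (nat_lit 8))
    (@En.n l1531 (nat_lit 1547) (nat_lit 10) (nat_lit 13))
    (@En.n l3 (nat_lit 1718) (nat_lit 10) (nat_lit 2))
    (@En.n l1532 (nat_lit 1288) (nat_lit 12) (nat_lit 9))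
    (@En.n l11636 (nat_lit 1390) (nat_lit 1) (nat_lit 14))
    (@En.n l3324 (nat_lit 6900) (nat_lit 14) (nat_lit 6))
    (@En.n l50 (nat_lit 1498) (nat_lit 3) (nat_lit 9))
    (@En.n l7 (nat_lit 1718) (nat_lit 15) (nat_lit 2))))
  (@Cl.mk (nat_lit 0x200090007000e00080002000d000800070003000d000900080003000e0008) (nat_lit 0x408107100656055) (nat_lit 16) Lb.e (@T16.mk En
    (@En.n l18800 (nat_lit 1414) (nat_lit 5) (nat_lit 8))
    (@En.n l18801 (nat_lit 7442) (nat_lit 1) (nat_lit 14))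
    (@En.n l10263 (nat_lit 1718) (nat_lit 2) (nat_lit 3))
    (@En.n l10985 (nat_lit 2048) (nat_lit 3) (nat_lit 8))
    (@En.n l18802 (nat_lit 1773) (nat_lit 4) (nat_lit 9))
    (@En.n l18803 (nat_lit 1574) (nat_lit 11) (nat_lit 13))
    (@En.n l17115 (nat_lit 1720) (nat_lit 6) (nat_lit 3))
    (@En.n l10264 (nat_lit 1816) (nat_lit 7) (nat_lit 7))
    (@En.n l18803 (nat_lit 1096) (nat_lit 14) (nat_lit 8))
    (@En.n l18804 (nat_lit 1542) (nat_lit 10) (nat_lit 13))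
    (@En.n l17 (nat_lit 1719) (nat_lit 10) (nat_lit 2))
    (@En.n l18805 (nat_lit 1396) (nat_lit 12) (nat_lit 8))
    (@En.i (nat_lit 1389) (nat_lit 13) (nat_lit 14))
    (@En.n l6864 (nat_lit 6724) (nat_lit 14) (nat_lit 7))
    (@En.n l18806 (nat_lit 1724) (nat_lit 3) (nat_lit 9))
    (@En.n l50 (nat_lit 1719) (nat_lit 15) (nat_lit 2))))
  (@Cl.mk (nat_lit 0x2000a0007000e00080002000d000600090003000d000900080003000e0007) (nat_lit 0x208107020656070) (nat_lit 16) Lb.e (@T16.mk En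
    (@En.i (nat_lit 1721) (nat_lit 5) (nat_lit 7))
    (@En.n l1531 (nat_lit 7451) (nat_lit 1) (nat_lit 14))
    (@En.n l7192 (nat_lit 1296) (nat_lit 2) (nat_lit 3))
    (@En.n l575 (nat_lit 2047) (nat_lit 3) (nat_lit 8))
    (@En.n l1532 (nat_lit 2002) (nat_lit 4) (nat_lit 9))
    (@En.n l12739 (nat_lit 2003) (nat_lit 11) (nat_lit 13))
    (@En.n l12740 (nat_lit 1719) (nat_lit 6) (nat_lit 3))
    (@En.n l2520 (nat_lit 1817) (nat_lit 9) (nat_lit 9))
    (@En.n l12741 (nat_lit 1732) (nat_lit 14) (nat_lit 6))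
    (@En.i (nat_lit 1181) (nat_lit 10) (nat_lit 13))
    (@En.n l28 (nat_lit 1720) (nat_lit 10) (nat_lit 2))
    (@En.n l12742 (nat_lit 1295) (nat_lit 12) (nat_lit 8))
    (@En.n l1578 (nat_lit 1392) (nat_lit 1) (nat_lit 14))
    (@En.n l2520 (nat_lit 6723) (nat_lit 14) (nat_lit 7))
    (@En.n l617 (nat_lit 1721) (nat_lit 3) (nat_lit 10))
    (@En.n l17 (nat_lit 1720) (nat_lit 15) (nat_lit 2))))
  (@Cl.mk (nat_lit 0x2000c0006000900090004000d000a0009000300070007000a0006000e0007) (nat_lit 0x606306620001040) (nat_lit 16) Lb.e (@T16.mk En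
    (@En.n l15400 (nat_lit 1297) (nat_lit 10) (nat_lit 7))
    (@En.n l1578 (nat_lit 1447) (nat_lit 1) (nat_lit 14))
    (@En.n l117 (nat_lit 9377) (nat_lit 2) (nat_lit 6))
    (@En.n l12529 (nat_lit 1449) (nat_lit 8) (nat_lit 10))
    (@En.n l6147 (nat_lit 1449) (nat_lit 9) (nat_lit 7))
    (@En.n l6081 (nat_lit 7127) (nat_lit 5) (nat_lit 7))
    (@En.i (nat_lit 1722) (nat_lit 6) (nat_lit 3))
    (@En.n l575 (nat_lit 761) (nat_lit 0) (nat_lit 9))
    (@En.n l12527 (nat_lit 1464) (nat_lit 9) (nat_lit 10))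
    (@En.n l18 (nat_lit 1770) (nat_lit 10) (nat_lit 13))
    (@En.n l671 (nat_lit 1724) (nat_lit 10) (nat_lit 4))
    (@En.n l61 (nat_lit 1720) (nat_lit 7) (nat_lit 9))
    (@En.n l2520 (nat_lit 1723) (nat_lit 9) (nat_lit 9))
    (@En.n l10346 (nat_lit 1589) (nat_lit 14) (nat_lit 6))
    (@En.n l9790 (nat_lit 1044) (nat_lit 8) (nat_lit 12))
    (@En.n l28 (nat_lit 1721) (nat_lit 15) (nat_lit 2))))
  (@Cl.mk (nat_lit 0x2000c0006000900090004000d0008000b000300070007000a0005000e0008) (nat_lit 0x706307680008045) (nat_lit 16) Lb.e (@T16.mk En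
    (@En.n l18014 (nat_lit 1293) (nat_lit 10) (nat_lit 8))
    (@En.n l18015 (nat_lit 1536) (nat_lit 1) (nat_lit 14))
    (@En.n l18016 (nat_lit 6836) (nat_lit 2) (nat_lit 5))
    (@En.n l18017 (nat_lit 1747) (nat_lit 8) (nat_lit 10))
    (@En.n l9332 (nat_lit 1747) (nat_lit 9) (nat_lit 7))
    (@En.n l18018 (nat_lit 6649) (nat_lit 5) (nat_lit 7))
    (@En.n l3 (nat_lit 1721) (nat_lit 6) (nat_lit 3))
    (@En.n l18019 (nat_lit 13090) (nat_lit 7) (nat_lit 11))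
    (@En.i (nat_lit 1751) (nat_lit 9) (nat_lit 8))
    (@En.n l18020 (nat_lit 1767) (nat_lit 10) (nat_lit 13))
    (@En.n l18021 (nat_lit 1498) (nat_lit 10) (nat_lit 4))
    (@En.n l17366 (nat_lit 1296) (nat_lit 7) (nat_lit 9))
    (@En.n l7192 (nat_lit 1726) (nat_lit 9) (nat_lit 9))
    (@En.n l18022 (nat_lit 1706) (nat_lit 14) (nat_lit 6))
    (@En.n l18023 (nat_lit 1041) (nat_lit 8) (nat_lit 12))
    (@En.n l28 (nat_lit 1722) (nat_lit 15) (nat_lit 2))))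
  (@Cl.mk (nat_lit 0x20007000e00080002000d000900080003000d0009000800030007000e0008) (nat_lit 0x51045208560086) (nat_lit 16) Lb.e (@T16.mk En
    (@En.n l23583 (nat_lit 1414) (nat_lit 4) (nat_lit 8))
    (@En.n l23040 (nat_lit 1720) (nat_lit 1) (nat_lit 14))
    (@En.n l2966 (nat_lit 6031) (nat_lit 2) (nat_lit 7))
    (@En.n l7 (nat_lit 1726) (nat_lit 3) (nat_lit 3))
    (@En.n l23584 (nat_lit 1728) (nat_lit 0) (nat_lit 8))
    (@En.n l8100 (nat_lit 1769) (nat_lit 5) (nat_lit 9))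
    (@En.n l7470 (nat_lit 1692) (nat_lit 7) (nat_lit 13))
    (@En.n l7573 (nat_lit 1725) (nat_lit 7) (nat_lit 3))
    (@En.n l217 (nat_lit 1233) (nat_lit 0) (nat_lit 8))
    (@En.n l10422 (nat_lit 1727) (nat_lit 10) (nat_lit 9))
    (@En.n l6266 (nat_lit 1094) (nat_lit 11) (nat_lit 13))
    (@En.n l3 (nat_lit 1723) (nat_lit 11) (nat_lit 2))
    (@En.n l6068 (nat_lit 1416) (nat_lit 13) (nat_lit 8))
    (@En.n l13926 (nat_lit 1539) (nat_lit 1) (nat_lit 14))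
    (@En.i (nat_lit 9597) (nat_lit 2) (nat_lit 7))
    (@En.n l17 (nat_lit 1723) (nat_lit 15) (nat_lit 2))))
  (@Cl.mk (nat_lit 0x2000c00070007000a0004000d000a000900030006000900090006000e0007) (nat_lit 0x500006670053080) (nat_lit 16) Lb.e (@T16.mk En
    (@En.n l2683 (nat_lit 955) (nat_lit 10) (nat_lit 7))
    (@En.n l23578 (nat_lit 1485) (nat_lit 1) (nat_lit 14))
    (@En.n l23579 (nat_lit 8993) (nat_lit 2) (nat_lit 6))
    (@En.n l644 (nat_lit 1789) (nat_lit 7) (nat_lit 9))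
    (@En.i (nat_lit 1788) (nat_lit 9) (nat_lit 9))
    (@En.n l2381 (nat_lit 5200) (nat_lit 5) (nat_lit 6))
    (@En.n l8857 (nat_lit 1498) (nat_lit 6) (nat_lit 3))
    (@En.n l23580 (nat_lit 1797) (nat_lit 0) (nat_lit 9))
    (@En.n l20791 (nat_lit 1766) (nat_lit 9) (nat_lit 10))
    (@En.n l387 (nat_lit 1487) (nat_lit 10) (nat_lit 13))
    (@En.n l699 (nat_lit 1414) (nat_lit 10) (nat_lit 4))
    (@En.n l23581 (nat_lit 1725) (nat_lit 8) (nat_lit 10))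
    (@En.n l23582 (nat_lit 1725) (nat_lit 9) (nat_lit 7))
    (@En.n l564 (nat_lit 1095) (nat_lit 14) (nat_lit 7))
    (@En.n l20793 (nat_lit 977) (nat_lit 8) (nat_lit 12))
    (@En.n l28 (nat_lit 1724) (nat_lit 15) (nat_lit 2))))
  (@Cl.mk (nat_lit 0x20007000e00080002000d0007000a0003000d0009000800030006000e0009) (nat_lit 0x51040805560066) (nat_lit 16) Lb.e (@T16.mk En
    (@En.n l10270 (nat_lit 1724) (nat_lit 4) (nat_lit 9))
    (@En.n l10271 (nat_lit 1719) (nat_lit 1) (nat_lit 14))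
    (@En.n l1719 (nat_lit 6030) (nat_lit 2) (nat_lit 6))
    (@En.n l11 (nat_lit 1504) (nat_lit 3) (nat_lit 3))
    (@En.n l10272 (nat_lit 1731) (nat_lit 0) (nat_lit 8))
    (@En.n l8734 (nat_lit 1768) (nat_lit 5) (nat_lit 9))
    (@En.n l10273 (nat_lit 1727) (nat_lit 7) (nat_lit 13))
    (@En.n l10245 (nat_lit 1723) (nat_lit 7) (nat_lit 3))
    (@En.n l1719 (nat_lit 13029) (nat_lit 8) (nat_lit 10))
    (@En.i (nat_lit 1094) (nat_lit 14) (nat_lit 7))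
    (@En.n l9215 (nat_lit 1101) (nat_lit 11) (nat_lit 13))
    (@En.n l3 (nat_lit 1725) (nat_lit 11) (nat_lit 2))
    (@En.n l3657 (nat_lit 956) (nat_lit 13) (nat_lit 8))
    (@En.n l10274 (nat_lit 1395) (nat_lit 1) (nat_lit 14))
    (@En.n l10072 (nat_lit 9593) (nat_lit 2) (nat_lit 7))
    (@En.n l50 (nat_lit 1725) (nat_lit 15) (nat_lit 2))))
  (@Cl.mk (nat_lit 0x20006000e00090002000d000900080003000d0007000a00030007000e0008) (nat_lit 0x52055207070086) (nat_lit 16) Lb.e (@T16.mk En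
    (@En.n l5955 (nat_lit 1413) (nat_lit 4) (nat_lit 8))
    (@En.n l5 (nat_lit 1296) (nat_lit 1) (nat_lit 14))
    (@En.n l20565 (nat_lit 1922) (nat_lit 2) (nat_lit 7))
    (@En.i (nat_lit 1723) (nat_lit 3) (nat_lit 3))
    (@En.n l18578 (nat_lit 13227) (nat_lit 8) (nat_lit 10))
    (@En.n l8100 (nat_lit 2605) (nat_lit 5) (nat_lit 7))
    (@En.n l11473 (nat_lit 1693) (nat_lit 7) (nat_lit 13))
    (@En.n l7573 (nat_lit 1504) (nat_lit 7) (nat_lit 3))
    (@En.n l3832 (nat_lit 1232) (nat_lit 0) (nat_lit 8))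
    (@En.n l20566 (nat_lit 1495) (nat_lit 10) (nat_lit 9))
    (@En.n l14754 (nat_lit 1091) (nat_lit 11) (nat_lit 13))
    (@En.n l3 (nat_lit 1726) (nat_lit 11) (nat_lit 2))
    (@En.n l6072 (nat_lit 419) (nat_lit 13) (nat_lit 9))
    (@En.n l20567 (nat_lit 1538) (nat_lit 1) (nat_lit 14))
    (@En.n l18402 (nat_lit 6912) (nat_lit 2) (nat_lit 6))
    (@En.n l17 (nat_lit 1726) (nat_lit 15) (nat_lit 2))))
  (@Cl.mk (nat_lit 0x20008000e0009000200090007000a000d00080007000300070006000e0009) (nat_lit 0x91040844000011) (nat_lit 16) Lb.e (@T16.mk En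
    (@En.n l11204 (nat_lit 1487) (nat_lit 4) (nat_lit 9))
    (@En.n l15642 (nat_lit 1574) (nat_lit 6) (nat_lit 14))
    (@En.n l21931 (nat_lit 1725) (nat_lit 2) (nat_lit 6))
    (@En.n l1465 (nat_lit 1765) (nat_lit 3) (nat_lit 7))
    (@En.n l21932 (nat_lit 1495) (nat_lit 4) (nat_lit 3))
    (@En.n l1219 (nat_lit 2159) (nat_lit 0) (nat_lit 7))
    (@En.n l1466 (nat_lit 1990) (nat_lit 6) (nat_lit 8))
    (@En.n l1219 (nat_lit 1630) (nat_lit 12) (nat_lit 13))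
    (@En.n l1466 (nat_lit 13028) (nat_lit 8) (nat_lit 10))
    (@En.n l1219 (nat_lit 1092) (nat_lit 14) (nat_lit 7))
    (@En.n l21933 (nat_lit 5176) (nat_lit 11) (nat_lit 9))
    (@En.n l7 (nat_lit 1727) (nat_lit 11) (nat_lit 2))
    (@En.n l644 (nat_lit 951) (nat_lit 13) (nat_lit 9))
    (@En.n l21934 (nat_lit 1484) (nat_lit 1) (nat_lit 14))
    (@En.n l21935 (nat_lit 9592) (nat_lit 2) (nat_lit 8))
    (@En.n l107 (nat_lit 1727) (nat_lit 15) (nat_lit 2))))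
noncomputable def a108 : T16 Cl := @T16.mk Cl
  (@Cl.mk (nat_lit 0x20006000e00070002000d000d000800030003000d000a00090003000e0008) (nat_lit 0x90038200960045) (nat_lit 16) Lb.e (@T16.mk En
    (@En.n l15490 (nat_lit 2438) (nat_lit 4) (nat_lit 8))
    (@En.n l15491 (nat_lit 1896) (nat_lit 1) (nat_lit 14))
    (@En.n l15492 (nat_lit 1731) (nat_lit 2) (nat_lit 3))
    (@En.n l15493 (nat_lit 1835) (nat_lit 3) (nat_lit 9))
    (@En.n l15494 (nat_lit 2159) (nat_lit 4) (nat_lit 10))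
    (@En.n l1100 (nat_lit 1723) (nat_lit 6) (nat_lit 13))
    (@En.n l8066 (nat_lit 1841) (nat_lit 6) (nat_lit 3))
    (@En.n l15495 (nat_lit 1729) (nat_lit 7) (nat_lit 3))
    (@En.i (nat_lit 1538) (nat_lit 0) (nat_lit 8))
    (@En.n l15496 (nat_lit 1729) (nat_lit 10) (nat_lit 13))
    (@En.n l1096 (nat_lit 12346) (nat_lit 11) (nat_lit 13))
    (@En.n l17 (nat_lit 1728) (nat_lit 11) (nat_lit 2))
    (@En.n l15497 (nat_lit 2040) (nat_lit 13) (nat_lit 7))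
    (@En.n l15498 (nat_lit 2047) (nat_lit 1) (nat_lit 14))
    (@En.i (nat_lit 3430) (nat_lit 2) (nat_lit 6))
    (@En.n l1098 (nat_lit 1728) (nat_lit 15) (nat_lit 2))))
  (@Cl.mk (nat_lit 0x20006000e00070002000d0007000e00030002000d000a00090003000e0009) (nat_lit 0x70070300660055) (nat_lit 16) Lb.e (@T16.mk En
    (@En.n l1532 (nat_lit 2433) (nat_lit 4) (nat_lit 9))
    (@En.n l387 (nat_lit 1895) (nat_lit 1) (nat_lit 14))
    (@En.n l18951 (nat_lit 1730) (nat_lit 2) (nat_lit 3))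
    (@En.n l2789 (nat_lit 1832) (nat_lit 3) (nat_lit 9))
    (@En.n l17995 (nat_lit 2166) (nat_lit 4) (nat_lit 10))
    (@En.n l15211 (nat_lit 1725) (nat_lit 6) (nat_lit 13))
    (@En.n l28 (nat_lit 1729) (nat_lit 6) (nat_lit 2))
    (@En.n l24368 (nat_lit 1728) (nat_lit 7) (nat_lit 3))
    (@En.n l24369 (nat_lit 12901) (nat_lit 0) (nat_lit 14))
    (@En.n l24370 (nat_lit 1723) (nat_lit 14) (nat_lit 7))
    (@En.n l617 (nat_lit 12351) (nat_lit 11) (nat_lit 13))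
    (@En.n l17 (nat_lit 1729) (nat_lit 11) (nat_lit 2))
    (@En.n l24371 (nat_lit 2041) (nat_lit 13) (nat_lit 7))
    (@En.i (nat_lit 2045) (nat_lit 1) (nat_lit 14))
    (@En.n l24372 (nat_lit 3429) (nat_lit 7) (nat_lit 6))
    (@En.n l3 (nat_lit 1729) (nat_lit 15) (nat_lit 2))))
  (@Cl.mk (nat_lit 0x20005000e00080002000d0007000e00030002000d0008000b0003000e0009) (nat_lit 0x90030800900045) (nat_lit 16) Lb.e (@T16.mk En
    (@En.n l10909 (nat_lit 2434) (nat_lit 4) (nat_lit 9))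
    (@En.n l10910 (nat_lit 2166) (nat_lit 1) (nat_lit 14))
    (@En.n l10911 (nat_lit 1729) (nat_lit 2) (nat_lit 3))
    (@En.n l10912 (nat_lit 13026) (nat_lit 7) (nat_lit 11))
    (@En.n l1353 (nat_lit 1819) (nat_lit 4) (nat_lit 8))
    (@En.n l10913 (nat_lit 1504) (nat_lit 6) (nat_lit 13))
    (@En.n l28 (nat_lit 1730) (nat_lit 6) (nat_lit 2))
    (@En.n l287 (nat_lit 1731) (nat_lit 7) (nat_lit 3))
    (@En.n l10914 (nat_lit 12891) (nat_lit 0) (nat_lit 14))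
    (@En.n l10915 (nat_lit 1725) (nat_lit 14) (nat_lit 7))
    (@En.n l10916 (nat_lit 12352) (nat_lit 11) (nat_lit 13))
    (@En.n l18 (nat_lit 1730) (nat_lit 11) (nat_lit 2))
    (@En.n l50 (nat_lit 1794) (nat_lit 13) (nat_lit 8))
    (@En.n l10917 (nat_lit 2046) (nat_lit 1) (nat_lit 14))
    (@En.n l10918 (nat_lit 2134) (nat_lit 13) (nat_lit 5))
    (@En.n l3 (nat_lit 1730) (nat_lit 15) (nat_lit 2))))
  (@Cl.mk (nat_lit 0x20005000e00080002000d000d000800030003000d0008000b0003000e0008) (nat_lit 0x50074200800055) (nat_lit 16) Lb.e (@T16.mk En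
    (@En.n l8699 (nat_lit 2436) (nat_lit 4) (nat_lit 8))
    (@En.n l8700 (nat_lit 2159) (nat_lit 1) (nat_lit 14))
    (@En.n l8701 (nat_lit 1728) (nat_lit 2) (nat_lit 3))
    (@En.n l8702 (nat_lit 13024) (nat_lit 7) (nat_lit 11))
    (@En.n l8703 (nat_lit 1818) (nat_lit 4) (nat_lit 8))
    (@En.n l8704 (nat_lit 1726) (nat_lit 6) (nat_lit 13))
    (@En.n l8705 (nat_lit 2158) (nat_lit 6) (nat_lit 3))
    (@En.n l1253 (nat_lit 1730) (nat_lit 7) (nat_lit 3))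
    (@En.n l8706 (nat_lit 1540) (nat_lit 0) (nat_lit 8))
    (@En.n l1722 (nat_lit 1730) (nat_lit 10) (nat_lit 13))
    (@En.n l8707 (nat_lit 12348) (nat_lit 11) (nat_lit 13))
    (@En.n l50 (nat_lit 1731) (nat_lit 11) (nat_lit 2))
    (@En.n l7 (nat_lit 1797) (nat_lit 13) (nat_lit 8))
    (@En.n l8708 (nat_lit 2048) (nat_lit 1) (nat_lit 14))
    (@En.n l8702 (nat_lit 2133) (nat_lit 13) (nat_lit 5))
    (@En.n l3 (nat_lit 1731) (nat_lit 15) (nat_lit 2))))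
  (@Cl.mk (nat_lit 0x2000600090007000d000800070003000e00070002000a00090008000e0009) (nat_lit 0x103400c0015092) (nat_lit 16) Lb.e (@T16.mk En
    (@En.n l7 (nat_lit 1590) (nat_lit 11) (nat_lit 9))
    (@En.n l10323 (nat_lit 1579) (nat_lit 12) (nat_lit 14))
    (@En.n l10985 (nat_lit 1919) (nat_lit 2) (nat_lit 8))
    (@En.n l12759 (nat_lit 1719) (nat_lit 14) (nat_lit 9))
    (@En.n l12760 (nat_lit 1589) (nat_lit 4) (nat_lit 10))
    (@En.n l67 (nat_lit 1732) (nat_lit 5) (nat_lit 2))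
    (@En.n l12761 (nat_lit 1589) (nat_lit 6) (nat_lit 7))
    (@En.n l9969 (nat_lit 7486) (nat_lit 8) (nat_lit 14))
    (@En.n l763 (nat_lit 1707) (nat_lit 8) (nat_lit 3))
    (@En.i (nat_lit 2927) (nat_lit 3) (nat_lit 7))
    (@En.n l1545 (nat_lit 2082) (nat_lit 11) (nat_lit 8))
    (@En.n l12762 (nat_lit 418) (nat_lit 12) (nat_lit 13))
    (@En.n l6864 (nat_lit 1100) (nat_lit 13) (nat_lit 7))
    (@En.n l10323 (nat_lit 1099) (nat_lit 14) (nat_lit 9))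
    (@En.n l12763 (nat_lit 1736) (nat_lit 8) (nat_lit 6))
    (@En.n l50 (nat_lit 1732) (nat_lit 15) (nat_lit 2))))
  (@Cl.mk (nat_lit 0x20006000e000900020009000d000a000900030007000a00070006000e0007) (nat_lit 0x52036630080080) (nat_lit 16) Lb.e (@T16.mk En
    (@En.n l17842 (nat_lit 1591) (nat_lit 4) (nat_lit 7))
    (@En.n l1578 (nat_lit 1583) (nat_lit 1) (nat_lit 14))
    (@En.n l7288 (nat_lit 1923) (nat_lit 2) (nat_lit 6))
    (@En.n l725 (nat_lit 1748) (nat_lit 7) (nat_lit 7))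
    (@En.n l387 (nat_lit 13540) (nat_lit 8) (nat_lit 10))
    (@En.n l7288 (nat_lit 7244) (nat_lit 5) (nat_lit 7))
    (@En.n l2382 (nat_lit 1713) (nat_lit 6) (nat_lit 3))
    (@En.n l4021 (nat_lit 2933) (nat_lit 0) (nat_lit 9))
    (@En.n l17843 (nat_lit 1981) (nat_lit 9) (nat_lit 10))
    (@En.n l3030 (nat_lit 1726) (nat_lit 10) (nat_lit 13))
    (@En.i (nat_lit 1095) (nat_lit 11) (nat_lit 9))
    (@En.n l18 (nat_lit 1733) (nat_lit 11) (nat_lit 2))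
    (@En.n l17844 (nat_lit 1589) (nat_lit 13) (nat_lit 9))
    (@En.n l2430 (nat_lit 1687) (nat_lit 1) (nat_lit 14))
    (@En.n l2205 (nat_lit 1735) (nat_lit 2) (nat_lit 6))
    (@En.n l28 (nat_lit 1733) (nat_lit 15) (nat_lit 2))))
  (@Cl.mk (nat_lit 0x300070007000a000d00090008000300090006000900090007000d00080007) (nat_lit 0x40000000900) (nat_lit 16) Lb.e (@T16.mk En
    (@En.n l38718 (nat_lit 6053) (nat_lit 0) (nat_lit 7))
    (@En.n l33887 (nat_lit 5245) (nat_lit 9) (nat_lit 8))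
    (@En.n l28515 (nat_lit 5427) (nat_lit 10) (nat_lit 13))
    (@En.n l12811 (nat_lit 9431) (nat_lit 3) (nat_lit 7))
    (@En.n l38719 (nat_lit 1736) (nat_lit 7) (nat_lit 9))
    (@En.i (nat_lit 7432) (nat_lit 9) (nat_lit 9))
    (@En.i (nat_lit 1737) (nat_lit 14) (nat_lit 6))
    (@En.n l38720 (nat_lit 6515) (nat_lit 8) (nat_lit 9))
    (@En.n l15575 (nat_lit 1738) (nat_lit 8) (nat_lit 3))
    (@En.n l38721 (nat_lit 6700) (nat_lit 0) (nat_lit 8))
    (@En.n l38722 (nat_lit 5078) (nat_lit 11) (nat_lit 9))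
    (@En.n l38718 (nat_lit 7971) (nat_lit 5) (nat_lit 13))
    (@En.n l38723 (nat_lit 1735) (nat_lit 8) (nat_lit 10))
    (@En.n l38724 (nat_lit 1735) (nat_lit 9) (nat_lit 7))
    (@En.n l38725 (nat_lit 10366) (nat_lit 5) (nat_lit 7))
    (@En.n l34533 (nat_lit 1739) (nat_lit 15) (nat_lit 3))))
  (@Cl.mk (nat_lit 0x20008000d0009000800030007000a000d00080007000300080006000e0009) (nat_lit 0xa0000803000001) (nat_lit 16) Lb.e (@T16.mk En
    (@En.n l26066 (nat_lit 1734) (nat_lit 5) (nat_lit 9))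
    (@En.n l97 (nat_lit 6523) (nat_lit 1) (nat_lit 14))
    (@En.n l23541 (nat_lit 4931) (nat_lit 2) (nat_lit 6))
    (@En.n l33600 (nat_lit 6518) (nat_lit 3) (nat_lit 8))
    (@En.n l947 (nat_lit 4930) (nat_lit 4) (nat_lit 3))
    (@En.n l1927 (nat_lit 6718) (nat_lit 0) (nat_lit 7))
    (@En.n l5592 (nat_lit 5079) (nat_lit 6) (nat_lit 8))
    (@En.n l1643 (nat_lit 10105) (nat_lit 8) (nat_lit 13))
    (@En.n l27015 (nat_lit 13797) (nat_lit 8) (nat_lit 10))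
    (@En.n l13963 (nat_lit 10367) (nat_lit 4) (nat_lit 7))
    (@En.n l1927 (nat_lit 1741) (nat_lit 10) (nat_lit 3))
    (@En.n l13772 (nat_lit 6055) (nat_lit 0) (nat_lit 8))
    (@En.n l33601 (nat_lit 5262) (nat_lit 13) (nat_lit 9))
    (@En.n l18067 (nat_lit 6912) (nat_lit 14) (nat_lit 13))
    (@En.n l33602 (nat_lit 8403) (nat_lit 3) (nat_lit 8))
    (@En.n l107 (nat_lit 1735) (nat_lit 15) (nat_lit 2))))
  (@Cl.mk (nat_lit 0x2000a000d000a00090003000a000600090006000d000700060003000e0007) (nat_lit 0x105000070800000) (nat_lit 16) Lb.e (@T16.mk En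
    (@En.n l26056 (nat_lit 1734) (nat_lit 14) (nat_lit 7))
    (@En.n l4861 (nat_lit 10864) (nat_lit 1) (nat_lit 14))
    (@En.n l4862 (nat_lit 1740) (nat_lit 2) (nat_lit 3))
    (@En.n l18 (nat_lit 6057) (nat_lit 3) (nat_lit 6))
    (@En.n l4377 (nat_lit 5275) (nat_lit 4) (nat_lit 7))
    (@En.n l159 (nat_lit 5426) (nat_lit 6) (nat_lit 13))
    (@En.n l4377 (nat_lit 9558) (nat_lit 6) (nat_lit 6))
    (@En.n l159 (nat_lit 7431) (nat_lit 9) (nat_lit 9))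
    (@En.n l26057 (nat_lit 5416) (nat_lit 8) (nat_lit 6))
    (@En.n l718 (nat_lit 6519) (nat_lit 10) (nat_lit 10))
    (@En.n l26058 (nat_lit 5282) (nat_lit 10) (nat_lit 3))
    (@En.n l4497 (nat_lit 6701) (nat_lit 0) (nat_lit 9))
    (@En.n l1521 (nat_lit 5089) (nat_lit 13) (nat_lit 10))
    (@En.n l4887 (nat_lit 7966) (nat_lit 5) (nat_lit 13))
    (@En.n l26059 (nat_lit 1734) (nat_lit 12) (nat_lit 10))
    (@En.n l3 (nat_lit 1736) (nat_lit 15) (nat_lit 2))))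
  (@Cl.mk (nat_lit 0x30006000900090006000d0007000b000300070007000a0005000d000a0009) (nat_lit 0x70300000150) (nat_lit 16) Lb.e (@T16.mk En
    (@En.n l39560 (nat_lit 6721) (nat_lit 0) (nat_lit 9))
    (@En.n l39561 (nat_lit 5099) (nat_lit 10) (nat_lit 10))
    (@En.n l403 (nat_lit 1734) (nat_lit 11) (nat_lit 13))
    (@En.i (nat_lit 9918) (nat_lit 3) (nat_lit 5))
    (@En.n l39562 (nat_lit 4931) (nat_lit 8) (nat_lit 10))
    (@En.n l39563 (nat_lit 4931) (nat_lit 9) (nat_lit 7))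
    (@En.n l39564 (nat_lit 10365) (nat_lit 6) (nat_lit 7))
    (@En.n l39565 (nat_lit 1743) (nat_lit 7) (nat_lit 3))
    (@En.n l39566 (nat_lit 5842) (nat_lit 0) (nat_lit 11))
    (@En.n l39567 (nat_lit 5240) (nat_lit 10) (nat_lit 7))
    (@En.n l39568 (nat_lit 5423) (nat_lit 11) (nat_lit 13))
    (@En.n l12811 (nat_lit 8793) (nat_lit 3) (nat_lit 6))
    (@En.n l39569 (nat_lit 5416) (nat_lit 7) (nat_lit 9))
    (@En.i (nat_lit 5803) (nat_lit 9) (nat_lit 9))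
    (@En.n l39570 (nat_lit 5346) (nat_lit 12) (nat_lit 6))
    (@En.n l39571 (nat_lit 4926) (nat_lit 15) (nat_lit 3))))
  (@Cl.mk (nat_lit 0x300070007000a000d0007000a000300090006000900090006000d00090007) (nat_lit 0x4000000900) (nat_lit 16) Lb.e (@T16.mk En
    (@En.n l8012 (nat_lit 6049) (nat_lit 0) (nat_lit 7))
    (@En.n l26081 (nat_lit 5280) (nat_lit 9) (nat_lit 9))
    (@En.n l26082 (nat_lit 5425) (nat_lit 10) (nat_lit 13))
    (@En.n l16068 (nat_lit 8392) (nat_lit 3) (nat_lit 6))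
    (@En.n l217 (nat_lit 5282) (nat_lit 7) (nat_lit 9))
    (@En.i (nat_lit 7433) (nat_lit 9) (nat_lit 9))
    (@En.n l12364 (nat_lit 4926) (nat_lit 14) (nat_lit 6))
    (@En.n l26074 (nat_lit 4929) (nat_lit 8) (nat_lit 9))
    (@En.n l6564 (nat_lit 1734) (nat_lit 8) (nat_lit 3))
    (@En.n l26083 (nat_lit 3669) (nat_lit 8) (nat_lit 10))
    (@En.n l26084 (nat_lit 6514) (nat_lit 11) (nat_lit 7))
    (@En.n l26085 (nat_lit 7972) (nat_lit 5) (nat_lit 13))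
    (@En.n l26086 (nat_lit 4930) (nat_lit 8) (nat_lit 10))
    (@En.n l26087 (nat_lit 4930) (nat_lit 9) (nat_lit 7))
    (@En.n l26088 (nat_lit 11279) (nat_lit 5) (nat_lit 7))
    (@En.n l23079 (nat_lit 1742) (nat_lit 15) (nat_lit 3))))
  (@Cl.mk (nat_lit 0x300070007000a000d000900070003000a0006000900090007000d00060009) (nat_lit 0x40070000900) (nat_lit 16) Lb.e (@T16.mk En
    (@En.n l13117 (nat_lit 5763) (nat_lit 0) (nat_lit 9))
    (@En.n l3187 (nat_lit 1993) (nat_lit 8) (nat_lit 6))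
    (@En.n l3548 (nat_lit 6639) (nat_lit 10) (nat_lit 13))
    (@En.n l15766 (nat_lit 9692) (nat_lit 3) (nat_lit 7))
    (@En.n l19992 (nat_lit 1740) (nat_lit 7) (nat_lit 9))
    (@En.n l23071 (nat_lit 7435) (nat_lit 9) (nat_lit 9))
    (@En.n l21955 (nat_lit 1743) (nat_lit 14) (nat_lit 6))
    (@En.n l23072 (nat_lit 1744) (nat_lit 8) (nat_lit 10))
    (@En.n l23073 (nat_lit 1742) (nat_lit 8) (nat_lit 3))
    (@En.n l13117 (nat_lit 1882) (nat_lit 0) (nat_lit 7))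
    (@En.n l23074 (nat_lit 5044) (nat_lit 11) (nat_lit 9))
    (@En.i (nat_lit 7969) (nat_lit 5) (nat_lit 13))
    (@En.n l23075 (nat_lit 1741) (nat_lit 8) (nat_lit 10))
    (@En.n l23076 (nat_lit 1741) (nat_lit 9) (nat_lit 7))
    (@En.n l2947 (nat_lit 8841) (nat_lit 12) (nat_lit 7))
    (@En.n l23077 (nat_lit 1734) (nat_lit 15) (nat_lit 3))))
  (@Cl.mk (nat_lit 0x2000a000d000a00080003000b000600090006000d000500080003000e0007) (nat_lit 0x1035060708020a0) (nat_lit 16) Lb.e (@T16.mk En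
    (@En.n l38689 (nat_lit 1739) (nat_lit 14) (nat_lit 7))
    (@En.n l9874 (nat_lit 9903) (nat_lit 1) (nat_lit 14))
    (@En.n l1455 (nat_lit 1736) (nat_lit 2) (nat_lit 3))
    (@En.n l638 (nat_lit 5807) (nat_lit 10) (nat_lit 8))
    (@En.n l1236 (nat_lit 3189) (nat_lit 4) (nat_lit 5))
    (@En.n l1791 (nat_lit 6641) (nat_lit 6) (nat_lit 13))
    (@En.i (nat_lit 9561) (nat_lit 6) (nat_lit 6))
    (@En.i (nat_lit 4206) (nat_lit 9) (nat_lit 9))
    (@En.n l1097 (nat_lit 1745) (nat_lit 8) (nat_lit 6))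
    (@En.n l476 (nat_lit 5386) (nat_lit 10) (nat_lit 11))
    (@En.n l4939 (nat_lit 5361) (nat_lit 10) (nat_lit 3))
    (@En.n l7386 (nat_lit 4995) (nat_lit 0) (nat_lit 8))
    (@En.n l68 (nat_lit 5092) (nat_lit 13) (nat_lit 10))
    (@En.n l12290 (nat_lit 7965) (nat_lit 5) (nat_lit 13))
    (@En.n l6781 (nat_lit 1739) (nat_lit 12) (nat_lit 10))
    (@En.n l18 (nat_lit 1740) (nat_lit 15) (nat_lit 2))))
  (@Cl.mk (nat_lit 0x20008000d0007000a00030007000a000d00080006000300090006000e0009) (nat_lit 0xa0000803000001) (nat_lit 16) Lb.e (@T16.mk En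
    (@En.n l5064 (nat_lit 1739) (nat_lit 5) (nat_lit 9))
    (@En.n l97 (nat_lit 5433) (nat_lit 1) (nat_lit 14))
    (@En.n l1501 (nat_lit 5360) (nat_lit 2) (nat_lit 6))
    (@En.n l17824 (nat_lit 5387) (nat_lit 3) (nat_lit 9))
    (@En.n l8097 (nat_lit 5358) (nat_lit 4) (nat_lit 3))
    (@En.i (nat_lit 1883) (nat_lit 0) (nat_lit 6))
    (@En.n l17825 (nat_lit 5045) (nat_lit 6) (nat_lit 8))
    (@En.n l1643 (nat_lit 10106) (nat_lit 8) (nat_lit 13))
    (@En.n l1660 (nat_lit 13909) (nat_lit 8) (nat_lit 10))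
    (@En.n l3699 (nat_lit 8842) (nat_lit 4) (nat_lit 7))
    (@En.n l13382 (nat_lit 1735) (nat_lit 10) (nat_lit 3))
    (@En.i (nat_lit 5761) (nat_lit 0) (nat_lit 10))
    (@En.n l17826 (nat_lit 1995) (nat_lit 13) (nat_lit 7))
    (@En.n l5472 (nat_lit 6642) (nat_lit 14) (nat_lit 13))
    (@En.n l13399 (nat_lit 9690) (nat_lit 3) (nat_lit 8))
    (@En.n l107 (nat_lit 1741) (nat_lit 15) (nat_lit 2))))
  (@Cl.mk (nat_lit 0x300070007000a000d0006000a0003000a0006000900090006000d0006000a) (nat_lit 0x4070000900) (nat_lit 16) Lb.e (@T16.mk En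
    (@En.n l2038 (nat_lit 5362) (nat_lit 0) (nat_lit 10))
    (@En.n l38711 (nat_lit 1994) (nat_lit 8) (nat_lit 6))
    (@En.n l21398 (nat_lit 6637) (nat_lit 2) (nat_lit 13))
    (@En.n l37011 (nat_lit 8780) (nat_lit 3) (nat_lit 6))
    (@En.n l37809 (nat_lit 5361) (nat_lit 7) (nat_lit 9))
    (@En.n l37810 (nat_lit 7434) (nat_lit 9) (nat_lit 9))
    (@En.n l476 (nat_lit 5359) (nat_lit 14) (nat_lit 6))
    (@En.i (nat_lit 5353) (nat_lit 8) (nat_lit 10))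
    (@En.n l9589 (nat_lit 1739) (nat_lit 8) (nat_lit 3))
    (@En.n l38712 (nat_lit 3671) (nat_lit 0) (nat_lit 10))
    (@En.n l5760 (nat_lit 1744) (nat_lit 11) (nat_lit 6))
    (@En.n l8931 (nat_lit 7970) (nat_lit 5) (nat_lit 13))
    (@En.n l50 (nat_lit 5358) (nat_lit 8) (nat_lit 10))
    (@En.n l217 (nat_lit 5358) (nat_lit 9) (nat_lit 7))
    (@En.n l9591 (nat_lit 9545) (nat_lit 12) (nat_lit 7))
    (@En.n l38713 (nat_lit 1738) (nat_lit 15) (nat_lit 3))))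
  (@Cl.mk (nat_lit 0x30006000900090006000d000a0008000300070007000a0006000d000a0008) (nat_lit 0x70200000155) (nat_lit 16) Lb.e (@T16.mk En
    (@En.n l8501 (nat_lit 4997) (nat_lit 0) (nat_lit 8))
    (@En.i (nat_lit 5098) (nat_lit 10) (nat_lit 10))
    (@En.n l9589 (nat_lit 1739) (nat_lit 11) (nat_lit 13))
    (@En.n l24825 (nat_lit 9640) (nat_lit 3) (nat_lit 6))
    (@En.n l50 (nat_lit 5360) (nat_lit 8) (nat_lit 10))
    (@En.n l217 (nat_lit 5360) (nat_lit 9) (nat_lit 7))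
    (@En.n l5200 (nat_lit 9546) (nat_lit 6) (nat_lit 7))
    (@En.n l24826 (nat_lit 1737) (nat_lit 7) (nat_lit 3))
    (@En.n l24827 (nat_lit 5371) (nat_lit 0) (nat_lit 8))
    (@En.n l1236 (nat_lit 6551) (nat_lit 10) (nat_lit 10))
    (@En.n l9444 (nat_lit 6920) (nat_lit 11) (nat_lit 13))
    (@En.n l23473 (nat_lit 9691) (nat_lit 3) (nat_lit 6))
    (@En.n l24828 (nat_lit 1745) (nat_lit 7) (nat_lit 9))
    (@En.n l24827 (nat_lit 5801) (nat_lit 9) (nat_lit 9))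
    (@En.n l24829 (nat_lit 5349) (nat_lit 12) (nat_lit 6))
    (@En.n l28 (nat_lit 5359) (nat_lit 15) (nat_lit 3))))
noncomputable def a109 : T16 Cl := @T16.mk Cl
  (@Cl.mk (nat_lit 0x400080008000b0006000a0007000a0005000800080006000c0006000a0009) (nat_lit 0x40600008011) (nat_lit 16) Lb.e (@T16.mk En
    (@En.n l38704 (nat_lit 1739) (nat_lit 0) (nat_lit 9))
    (@En.n l3749 (nat_lit 1743) (nat_lit 9) (nat_lit 10))
    (@En.n l38705 (nat_lit 1997) (nat_lit 6) (nat_lit 6))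
    (@En.n l38706 (nat_lit 6643) (nat_lit 3) (nat_lit 12))
    (@En.n l38707 (nat_lit 9695) (nat_lit 4) (nat_lit 6))
    (@En.n l38708 (nat_lit 5386) (nat_lit 8) (nat_lit 8))
    (@En.n l38709 (nat_lit 7188) (nat_lit 10) (nat_lit 8))
    (@En.n l2362 (nat_lit 5352) (nat_lit 7) (nat_lit 5))
    (@En.n l1723 (nat_lit 7179) (nat_lit 8) (nat_lit 10))
    (@En.n l605 (nat_lit 1880) (nat_lit 1) (nat_lit 7))
    (@En.n l11935 (nat_lit 5049) (nat_lit 9) (nat_lit 10))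
    (@En.n l38710 (nat_lit 9840) (nat_lit 12) (nat_lit 6))
    (@En.n l3 (nat_lit 5387) (nat_lit 7) (nat_lit 11))
    (@En.n l527 (nat_lit 5387) (nat_lit 8) (nat_lit 8))
    (@En.i (nat_lit 8833) (nat_lit 11) (nat_lit 8))
    (@En.n l33597 (nat_lit 6515) (nat_lit 15) (nat_lit 4))))
  (@Cl.mk (nat_lit 0x2000a0007000d000b00090003000600090005000d000900070003000e0007) (nat_lit 0x101400070600000) (nat_lit 16) Lb.e (@T16.mk En
    (@En.n l25676 (nat_lit 1743) (nat_lit 6) (nat_lit 7))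
    (@En.n l15987 (nat_lit 9904) (nat_lit 1) (nat_lit 14))
    (@En.n l11995 (nat_lit 5416) (nat_lit 2) (nat_lit 3))
    (@En.i (nat_lit 5762) (nat_lit 3) (nat_lit 7))
    (@En.n l25677 (nat_lit 6550) (nat_lit 4) (nat_lit 9))
    (@En.n l134 (nat_lit 6923) (nat_lit 6) (nat_lit 13))
    (@En.n l1098 (nat_lit 9560) (nat_lit 6) (nat_lit 5))
    (@En.i (nat_lit 5407) (nat_lit 9) (nat_lit 9))
    (@En.n l25678 (nat_lit 5350) (nat_lit 8) (nat_lit 6))
    (@En.n l25679 (nat_lit 5414) (nat_lit 9) (nat_lit 3))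
    (@En.n l55 (nat_lit 4996) (nat_lit 0) (nat_lit 9))
    (@En.n l11392 (nat_lit 5096) (nat_lit 12) (nat_lit 11))
    (@En.n l1596 (nat_lit 1740) (nat_lit 13) (nat_lit 13))
    (@En.n l25680 (nat_lit 9636) (nat_lit 14) (nat_lit 7))
    (@En.n l25681 (nat_lit 1743) (nat_lit 4) (nat_lit 10))
    (@En.n l18 (nat_lit 1745) (nat_lit 15) (nat_lit 2))))
  (@Cl.mk (nat_lit 0x200090005000d0009000c0003000800070004000e00070002000b000e0008) (nat_lit 0x4067a0400300656) (nat_lit 16) Lb.e (@T16.mk En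
    (@En.n l7345 (nat_lit 1413) (nat_lit 13) (nat_lit 8))
    (@En.n l6941 (nat_lit 1685) (nat_lit 4) (nat_lit 14))
    (@En.n l7053 (nat_lit 1046) (nat_lit 2) (nat_lit 11))
    (@En.n l18 (nat_lit 1746) (nat_lit 3) (nat_lit 2))
    (@En.n l7054 (nat_lit 1423) (nat_lit 4) (nat_lit 7))
    (@En.n l7017 (nat_lit 1451) (nat_lit 1) (nat_lit 14))
    (@En.n l7346 (nat_lit 6839) (nat_lit 6) (nat_lit 4))
    (@En.i (nat_lit 896) (nat_lit 7) (nat_lit 7))
    (@En.n l7347 (nat_lit 6675) (nat_lit 4) (nat_lit 8))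
    (@En.n l3348 (nat_lit 1748) (nat_lit 9) (nat_lit 3))
    (@En.n l7055 (nat_lit 13088) (nat_lit 6) (nat_lit 12))
    (@En.i (nat_lit 1749) (nat_lit 12) (nat_lit 9))
    (@En.n l7056 (nat_lit 1765) (nat_lit 9) (nat_lit 13))
    (@En.n l7348 (nat_lit 1747) (nat_lit 14) (nat_lit 5))
    (@En.n l7349 (nat_lit 1722) (nat_lit 11) (nat_lit 9))
    (@En.n l107 (nat_lit 1746) (nat_lit 15) (nat_lit 2))))
  (@Cl.mk (nat_lit 0x20005000d0009000c00030007000a0004000e00070002000b0006000e0009) (nat_lit 0x77900703006067) (nat_lit 16) Lb.e (@T16.mk En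
    (@En.n l17467 (nat_lit 1722) (nat_lit 12) (nat_lit 9))
    (@En.n l17468 (nat_lit 1746) (nat_lit 1) (nat_lit 14))
    (@En.n l17469 (nat_lit 1713) (nat_lit 14) (nat_lit 6))
    (@En.i (nat_lit 1040) (nat_lit 3) (nat_lit 11))
    (@En.n l3 (nat_lit 1747) (nat_lit 4) (nat_lit 2))
    (@En.n l3 (nat_lit 1456) (nat_lit 5) (nat_lit 7))
    (@En.n l17470 (nat_lit 1448) (nat_lit 7) (nat_lit 14))
    (@En.n l17471 (nat_lit 6833) (nat_lit 7) (nat_lit 4))
    (@En.i (nat_lit 13914) (nat_lit 8) (nat_lit 10))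
    (@En.n l5032 (nat_lit 5973) (nat_lit 4) (nat_lit 7))
    (@En.n l4751 (nat_lit 1449) (nat_lit 10) (nat_lit 3))
    (@En.n l17472 (nat_lit 13089) (nat_lit 6) (nat_lit 12))
    (@En.n l17473 (nat_lit 1750) (nat_lit 13) (nat_lit 9))
    (@En.n l5252 (nat_lit 1768) (nat_lit 9) (nat_lit 13))
    (@En.n l17474 (nat_lit 1501) (nat_lit 13) (nat_lit 5))
    (@En.n l17 (nat_lit 1747) (nat_lit 15) (nat_lit 2))))
  (@Cl.mk (nat_lit 0x200090005000d000b000a0003000800070005000e00060002000b000e0008) (nat_lit 0x4067204003006c6) (nat_lit 16) Lb.e (@T16.mk En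
    (@En.n l1063 (nat_lit 1414) (nat_lit 13) (nat_lit 8))
    (@En.n l1063 (nat_lit 2026) (nat_lit 4) (nat_lit 14))
    (@En.n l1998 (nat_lit 979) (nat_lit 2) (nat_lit 11))
    (@En.n l28 (nat_lit 1748) (nat_lit 3) (nat_lit 2))
    (@En.n l2683 (nat_lit 1417) (nat_lit 4) (nat_lit 6))
    (@En.n l2865 (nat_lit 1446) (nat_lit 1) (nat_lit 14))
    (@En.n l18051 (nat_lit 8996) (nat_lit 2) (nat_lit 5))
    (@En.i (nat_lit 790) (nat_lit 7) (nat_lit 7))
    (@En.n l18051 (nat_lit 7126) (nat_lit 4) (nat_lit 8))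
    (@En.n l2383 (nat_lit 1746) (nat_lit 9) (nat_lit 3))
    (@En.n l18052 (nat_lit 765) (nat_lit 0) (nat_lit 10))
    (@En.n l3082 (nat_lit 1465) (nat_lit 12) (nat_lit 11))
    (@En.n l2369 (nat_lit 1761) (nat_lit 9) (nat_lit 13))
    (@En.n l699 (nat_lit 1449) (nat_lit 14) (nat_lit 5))
    (@En.n l11611 (nat_lit 1721) (nat_lit 11) (nat_lit 9))
    (@En.n l18 (nat_lit 1748) (nat_lit 15) (nat_lit 2))))
  (@Cl.mk (nat_lit 0x2000a00050009000c000a000700060004000d000700060003000b000e0009) (nat_lit 0x6730004000707) (nat_lit 16) Lb.e (@T16.mk En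
    (@En.n l5706 (nat_lit 2508) (nat_lit 13) (nat_lit 9))
    (@En.n l9518 (nat_lit 3950) (nat_lit 4) (nat_lit 14))
    (@En.n l7019 (nat_lit 494) (nat_lit 2) (nat_lit 11))
    (@En.n l18 (nat_lit 1757) (nat_lit 3) (nat_lit 3))
    (@En.n l4356 (nat_lit 1748) (nat_lit 4) (nat_lit 6))
    (@En.n l61 (nat_lit 1756) (nat_lit 5) (nat_lit 7))
    (@En.n l564 (nat_lit 2509) (nat_lit 7) (nat_lit 13))
    (@En.n l9519 (nat_lit 6272) (nat_lit 7) (nat_lit 4))
    (@En.i (nat_lit 734) (nat_lit 8) (nat_lit 6))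
    (@En.n l7347 (nat_lit 6152) (nat_lit 5) (nat_lit 7))
    (@En.i (nat_lit 760) (nat_lit 11) (nat_lit 10))
    (@En.n l617 (nat_lit 2353) (nat_lit 6) (nat_lit 12))
    (@En.n l7347 (nat_lit 7815) (nat_lit 13) (nat_lit 9))
    (@En.n l159 (nat_lit 1750) (nat_lit 14) (nat_lit 5))
    (@En.n l7349 (nat_lit 1751) (nat_lit 11) (nat_lit 10))
    (@En.n l107 (nat_lit 1749) (nat_lit 15) (nat_lit 2))))
  (@Cl.mk (nat_lit 0x200050009000c000a000600090004000d000700060003000b0007000e000a) (nat_lit 0x64300040007018) (nat_lit 16) Lb.e (@T16.mk En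
    (@En.n l22020 (nat_lit 1751) (nat_lit 12) (nat_lit 10))
    (@En.n l180 (nat_lit 1749) (nat_lit 1) (nat_lit 14))
    (@En.n l22021 (nat_lit 3344) (nat_lit 2) (nat_lit 7))
    (@En.n l7053 (nat_lit 1585) (nat_lit 3) (nat_lit 11))
    (@En.n l18 (nat_lit 1753) (nat_lit 4) (nat_lit 3))
    (@En.n l4356 (nat_lit 1449) (nat_lit 5) (nat_lit 6))
    (@En.n l5572 (nat_lit 1752) (nat_lit 6) (nat_lit 7))
    (@En.n l6840 (nat_lit 1758) (nat_lit 8) (nat_lit 13))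
    (@En.n l7 (nat_lit 6277) (nat_lit 8) (nat_lit 4))
    (@En.n l4806 (nat_lit 13736) (nat_lit 9) (nat_lit 9))
    (@En.n l22022 (nat_lit 6212) (nat_lit 11) (nat_lit 6))
    (@En.n l5911 (nat_lit 756) (nat_lit 12) (nat_lit 10))
    (@En.n l2199 (nat_lit 2352) (nat_lit 13) (nat_lit 12))
    (@En.i (nat_lit 4653) (nat_lit 14) (nat_lit 9))
    (@En.i (nat_lit 2622) (nat_lit 13) (nat_lit 5))
    (@En.n l11 (nat_lit 1750) (nat_lit 15) (nat_lit 2))))
  (@Cl.mk (nat_lit 0x3000c0007000a000a00040008000b00090006000600090005000d00080007) (nat_lit 0x807805330010560) (nat_lit 16) Lb.e (@T16.mk En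
    (@En.i (nat_lit 1721) (nat_lit 0) (nat_lit 7))
    (@En.n l18681 (nat_lit 1754) (nat_lit 6) (nat_lit 8))
    (@En.n l18682 (nat_lit 1759) (nat_lit 2) (nat_lit 13))
    (@En.n l18683 (nat_lit 6278) (nat_lit 3) (nat_lit 5))
    (@En.n l18684 (nat_lit 1750) (nat_lit 9) (nat_lit 9))
    (@En.n l18685 (nat_lit 1750) (nat_lit 10) (nat_lit 6))
    (@En.n l18686 (nat_lit 6211) (nat_lit 6) (nat_lit 6))
    (@En.n l18687 (nat_lit 759) (nat_lit 7) (nat_lit 9))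
    (@En.n l18688 (nat_lit 2350) (nat_lit 7) (nat_lit 11))
    (@En.n l18689 (nat_lit 4648) (nat_lit 11) (nat_lit 8))
    (@En.n l18690 (nat_lit 2613) (nat_lit 10) (nat_lit 4))
    (@En.n l18691 (nat_lit 2584) (nat_lit 6) (nat_lit 10))
    (@En.n l18692 (nat_lit 2605) (nat_lit 8) (nat_lit 10))
    (@En.n l18018 (nat_lit 3342) (nat_lit 14) (nat_lit 7))
    (@En.n l18023 (nat_lit 1580) (nat_lit 3) (nat_lit 12))
    (@En.n l18693 (nat_lit 1755) (nat_lit 15) (nat_lit 3))))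
  (@Cl.mk (nat_lit 0x2000500090008000c000b0007000a0004000700050008000b0006000e0009) (nat_lit 0x60540000036007) (nat_lit 16) Lb.e (@T16.mk En
    (@En.n l33611 (nat_lit 1754) (nat_lit 1) (nat_lit 9))
    (@En.n l33620 (nat_lit 1756) (nat_lit 1) (nat_lit 14))
    (@En.n l33621 (nat_lit 3345) (nat_lit 2) (nat_lit 6))
    (@En.n l7747 (nat_lit 1586) (nat_lit 3) (nat_lit 11))
    (@En.n l810 (nat_lit 4881) (nat_lit 4) (nat_lit 8))
    (@En.n l14609 (nat_lit 1442) (nat_lit 5) (nat_lit 5))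
    (@En.n l9025 (nat_lit 1457) (nat_lit 6) (nat_lit 7))
    (@En.n l5242 (nat_lit 6275) (nat_lit 7) (nat_lit 4))
    (@En.i (nat_lit 13738) (nat_lit 8) (nat_lit 10))
    (@En.n l2680 (nat_lit 6154) (nat_lit 1) (nat_lit 7))
    (@En.n l8351 (nat_lit 1758) (nat_lit 11) (nat_lit 11))
    (@En.n l11106 (nat_lit 1750) (nat_lit 12) (nat_lit 12))
    (@En.n l5011 (nat_lit 1753) (nat_lit 13) (nat_lit 8))
    (@En.n l5234 (nat_lit 4651) (nat_lit 14) (nat_lit 9))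
    (@En.n l2568 (nat_lit 2621) (nat_lit 13) (nat_lit 5))
    (@En.n l17 (nat_lit 1752) (nat_lit 15) (nat_lit 2))))
  (@Cl.mk (nat_lit 0x200050008000c000b000600090004000d000500080003000b0007000e000a) (nat_lit 0x64300040307008) (nat_lit 16) Lb.e (@T16.mk En
    (@En.n l3839 (nat_lit 1755) (nat_lit 12) (nat_lit 10))
    (@En.n l180 (nat_lit 1757) (nat_lit 1) (nat_lit 14))
    (@En.n l619 (nat_lit 3346) (nat_lit 2) (nat_lit 7))
    (@En.n l13056 (nat_lit 1752) (nat_lit 3) (nat_lit 11))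
    (@En.i (nat_lit 1750) (nat_lit 4) (nat_lit 3))
    (@En.n l1501 (nat_lit 4924) (nat_lit 5) (nat_lit 8))
    (@En.n l8812 (nat_lit 1195) (nat_lit 6) (nat_lit 5))
    (@En.n l564 (nat_lit 2515) (nat_lit 8) (nat_lit 13))
    (@En.n l7 (nat_lit 6276) (nat_lit 8) (nat_lit 4))
    (@En.n l1501 (nat_lit 13733) (nat_lit 9) (nat_lit 9))
    (@En.i (nat_lit 6155) (nat_lit 11) (nat_lit 6))
    (@En.n l644 (nat_lit 2576) (nat_lit 12) (nat_lit 11))
    (@En.n l617 (nat_lit 2354) (nat_lit 13) (nat_lit 12))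
    (@En.n l781 (nat_lit 7886) (nat_lit 14) (nat_lit 8))
    (@En.i (nat_lit 2619) (nat_lit 13) (nat_lit 5))
    (@En.n l11 (nat_lit 1753) (nat_lit 15) (nat_lit 2))))
  (@Cl.mk (nat_lit 0x400080007000b000a00070007000a0005000800060009000c000600090009) (nat_lit 0x504400105037060) (nat_lit 16) Lb.e (@T16.mk En
    (@En.n l575 (nat_lit 2585) (nat_lit 7) (nat_lit 9))
    (@En.i (nat_lit 2604) (nat_lit 9) (nat_lit 9))
    (@En.n l34434 (nat_lit 3183) (nat_lit 11) (nat_lit 6))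
    (@En.n l24806 (nat_lit 1582) (nat_lit 6) (nat_lit 12))
    (@En.n l34435 (nat_lit 4876) (nat_lit 9) (nat_lit 9))
    (@En.n l27364 (nat_lit 1408) (nat_lit 10) (nat_lit 6))
    (@En.n l34436 (nat_lit 1460) (nat_lit 10) (nat_lit 8))
    (@En.n l34437 (nat_lit 6280) (nat_lit 7) (nat_lit 5))
    (@En.n l34438 (nat_lit 1752) (nat_lit 8) (nat_lit 10))
    (@En.n l34439 (nat_lit 1752) (nat_lit 9) (nat_lit 7))
    (@En.n l34440 (nat_lit 10370) (nat_lit 2) (nat_lit 7))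
    (@En.n l34441 (nat_lit 1759) (nat_lit 6) (nat_lit 10))
    (@En.n l10819 (nat_lit 1751) (nat_lit 8) (nat_lit 11))
    (@En.n l17 (nat_lit 1755) (nat_lit 9) (nat_lit 7))
    (@En.n l28603 (nat_lit 4645) (nat_lit 11) (nat_lit 8))
    (@En.n l34442 (nat_lit 2612) (nat_lit 15) (nat_lit 4))))
  (@Cl.mk (nat_lit 0x3000c0007000a000a00040007000b000a0006000600090005000d00060009) (nat_lit 0x807000430010503) (nat_lit 16) Lb.e (@T16.mk En
    (@En.n l538 (nat_lit 4880) (nat_lit 9) (nat_lit 9))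
    (@En.i (nat_lit 1197) (nat_lit 6) (nat_lit 6))
    (@En.n l564 (nat_lit 2514) (nat_lit 2) (nat_lit 13))
    (@En.n l27367 (nat_lit 6279) (nat_lit 3) (nat_lit 5))
    (@En.n l14025 (nat_lit 1753) (nat_lit 9) (nat_lit 9))
    (@En.n l14026 (nat_lit 1753) (nat_lit 10) (nat_lit 6))
    (@En.n l10152 (nat_lit 10371) (nat_lit 6) (nat_lit 6))
    (@En.n l644 (nat_lit 2577) (nat_lit 6) (nat_lit 10))
    (@En.n l34432 (nat_lit 2300) (nat_lit 8) (nat_lit 11))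
    (@En.n l34433 (nat_lit 7884) (nat_lit 11) (nat_lit 7))
    (@En.n l5152 (nat_lit 2611) (nat_lit 10) (nat_lit 4))
    (@En.n l575 (nat_lit 2582) (nat_lit 6) (nat_lit 10))
    (@En.i (nat_lit 2603) (nat_lit 8) (nat_lit 10))
    (@En.n l5600 (nat_lit 3312) (nat_lit 14) (nat_lit 7))
    (@En.i (nat_lit 1754) (nat_lit 3) (nat_lit 12))
    (@En.n l7695 (nat_lit 1751) (nat_lit 15) (nat_lit 3))))
  (@Cl.mk (nat_lit 0x20009000500090008000c000b000800070004000700050008000b000e0008) (nat_lit 0x1070840000036c6) (nat_lit 16) Lb.e (@T16.mk En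
    (@En.n l22044 (nat_lit 2507) (nat_lit 2) (nat_lit 8))
    (@En.n l22045 (nat_lit 3952) (nat_lit 4) (nat_lit 14))
    (@En.n l5549 (nat_lit 496) (nat_lit 2) (nat_lit 11))
    (@En.n l5088 (nat_lit 4910) (nat_lit 3) (nat_lit 8))
    (@En.n l5549 (nat_lit 1440) (nat_lit 4) (nat_lit 5))
    (@En.n l22046 (nat_lit 1458) (nat_lit 5) (nat_lit 7))
    (@En.n l7 (nat_lit 6274) (nat_lit 6) (nat_lit 4))
    (@En.i (nat_lit 731) (nat_lit 7) (nat_lit 7))
    (@En.n l22047 (nat_lit 6153) (nat_lit 1) (nat_lit 8))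
    (@En.n l644 (nat_lit 2509) (nat_lit 10) (nat_lit 11))
    (@En.n l617 (nat_lit 1749) (nat_lit 11) (nat_lit 12))
    (@En.n l17 (nat_lit 1757) (nat_lit 12) (nat_lit 8))
    (@En.i (nat_lit 7817) (nat_lit 13) (nat_lit 9))
    (@En.n l17838 (nat_lit 1752) (nat_lit 14) (nat_lit 5))
    (@En.n l5634 (nat_lit 1754) (nat_lit 0) (nat_lit 9))
    (@En.n l107 (nat_lit 1756) (nat_lit 15) (nat_lit 2))))
  (@Cl.mk (nat_lit 0x2000a00050008000c000b000700060004000d000500080003000b000e0009) (nat_lit 0x1067300040307c7) (nat_lit 16) Lb.e (@T16.mk En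
    (@En.n l5706 (nat_lit 2506) (nat_lit 13) (nat_lit 9))
    (@En.n l619 (nat_lit 3946) (nat_lit 4) (nat_lit 14))
    (@En.i (nat_lit 1756) (nat_lit 2) (nat_lit 11))
    (@En.i (nat_lit 1749) (nat_lit 3) (nat_lit 3))
    (@En.i (nat_lit 4914) (nat_lit 10) (nat_lit 8))
    (@En.n l7 (nat_lit 1198) (nat_lit 5) (nat_lit 5))
    (@En.n l564 (nat_lit 2510) (nat_lit 7) (nat_lit 13))
    (@En.n l7 (nat_lit 6273) (nat_lit 7) (nat_lit 4))
    (@En.i (nat_lit 735) (nat_lit 8) (nat_lit 6))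
    (@En.i (nat_lit 6151) (nat_lit 5) (nat_lit 7))
    (@En.n l644 (nat_lit 2511) (nat_lit 11) (nat_lit 11))
    (@En.n l617 (nat_lit 2355) (nat_lit 12) (nat_lit 12))
    (@En.n l781 (nat_lit 7920) (nat_lit 13) (nat_lit 8))
    (@En.n l159 (nat_lit 1753) (nat_lit 14) (nat_lit 5))
    (@En.n l5634 (nat_lit 1755) (nat_lit 11) (nat_lit 10))
    (@En.n l107 (nat_lit 1757) (nat_lit 15) (nat_lit 2))))
  (@Cl.mk (nat_lit 0x20005000a0008000b00060009000d0006000500030008000b0007000e000a) (nat_lit 0x70300300047008) (nat_lit 16) Lb.e (@T16.mk En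
    (@En.i (nat_lit 1759) (nat_lit 11) (nat_lit 10))
    (@En.n l35647 (nat_lit 2509) (nat_lit 1) (nat_lit 14))
    (@En.i (nat_lit 3347) (nat_lit 2) (nat_lit 7))
    (@En.n l5839 (nat_lit 1398) (nat_lit 3) (nat_lit 11))
    (@En.n l13671 (nat_lit 1752) (nat_lit 4) (nat_lit 8))
    (@En.n l3072 (nat_lit 2515) (nat_lit 5) (nat_lit 3))
    (@En.n l152 (nat_lit 1445) (nat_lit 6) (nat_lit 5))
    (@En.n l4790 (nat_lit 1459) (nat_lit 7) (nat_lit 6))
    (@En.n l17568 (nat_lit 12355) (nat_lit 9) (nat_lit 13))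
    (@En.i (nat_lit 13740) (nat_lit 9) (nat_lit 9))
    (@En.n l14304 (nat_lit 10383) (nat_lit 11) (nat_lit 6))
    (@En.i (nat_lit 2517) (nat_lit 12) (nat_lit 11))
    (@En.n l7075 (nat_lit 2576) (nat_lit 13) (nat_lit 8))
    (@En.n l5372 (nat_lit 4652) (nat_lit 14) (nat_lit 10))
    (@En.i (nat_lit 2620) (nat_lit 13) (nat_lit 5))
    (@En.n l17 (nat_lit 1758) (nat_lit 15) (nat_lit 2))))
  (@Cl.mk (nat_lit 0x30009000c0007000a000a000400090007000a000600060009000d00070006) (nat_lit 0x470730503001400) (nat_lit 16) Lb.e (@T16.mk En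
    (@En.n l15252 (nat_lit 1447) (nat_lit 0) (nat_lit 6))
    (@En.n l29875 (nat_lit 1462) (nat_lit 7) (nat_lit 7))
    (@En.n l15253 (nat_lit 12453) (nat_lit 6) (nat_lit 13))
    (@En.n l18 (nat_lit 1758) (nat_lit 9) (nat_lit 9))
    (@En.n l61 (nat_lit 1758) (nat_lit 10) (nat_lit 6))
    (@En.n l29876 (nat_lit 10372) (nat_lit 5) (nat_lit 6))
    (@En.i (nat_lit 2053) (nat_lit 8) (nat_lit 10))
    (@En.n l29877 (nat_lit 2577) (nat_lit 7) (nat_lit 7))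
    (@En.n l5373 (nat_lit 4650) (nat_lit 11) (nat_lit 9))
    (@En.n l19874 (nat_lit 2442) (nat_lit 9) (nat_lit 4))
    (@En.n l15255 (nat_lit 2583) (nat_lit 6) (nat_lit 10))
    (@En.n l29875 (nat_lit 2602) (nat_lit 8) (nat_lit 10))
    (@En.n l28291 (nat_lit 3302) (nat_lit 13) (nat_lit 7))
    (@En.n l5839 (nat_lit 1393) (nat_lit 6) (nat_lit 12))
    (@En.n l29878 (nat_lit 1754) (nat_lit 4) (nat_lit 9))
    (@En.n l29879 (nat_lit 2514) (nat_lit 15) (nat_lit 3))))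

end Pool.Agent.MP_61a8e3_al.G4.K
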