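import Pool.Agent.MP_61a8e3_al.G4.KL0
import Pool.Agent.MP_61a8e3_al.G4.KL1
import Pool.Agent.MP_61a8e3_al.G4.KL2
import Pool.Agent.MP_61a8e3_al.G4.KL3
import Pool.Agent.MP_61a8e3_al.G4.KL4
import Pool.Agent.MP_61a8e3_al.G4.KL5
import Pool.Agent.MP_61a8e3_al.G4.KL6
import Pool.Agent.MP_61a8e3_al.G4.KL7

/-! Part K: classes, part 1. -/

set_option autoImplicit false
set_option maxRecDepth 100000
set_option linter.all false

namespace Pool.Agent.MP_61a8e3_al.G4.K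

noncomputable def a110 : T16 Cl := @T16.mk Cl
  (@Cl.mk (nat_lit 0x20007000b000e00090002000a0005000b000a0009000700060005000e0006) (nat_lit 0x7c702068300030) (nat_lit 16) Lb.e (@T16.mk En
    (@En.n l50 (nat_lit 443) (nat_lit 5) (nat_lit 6))
    (@En.n l2650 (nat_lit 1510) (nat_lit 1) (nat_lit 14))
    (@En.n l2094 (nat_lit 6289) (nat_lit 2) (nat_lit 5))
    (@En.i (nat_lit 434) (nat_lit 3) (nat_lit 6))
    (@En.n l18083 (nat_lit 7135) (nat_lit 4) (nat_lit 7))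
    (@En.n l7583 (nat_lit 2353) (nat_lit 5) (nat_lit 9))
    (@En.n l22063 (nat_lit 2140) (nat_lit 12) (nat_lit 10))
    (@En.n l22064 (nat_lit 1189) (nat_lit 8) (nat_lit 11))
    (@En.n l159 (nat_lit 1552) (nat_lit 14) (nat_lit 5))
    (@En.n l22065 (nat_lit 1518) (nat_lit 10) (nat_lit 10))
    (@En.n l107 (nat_lit 1760) (nat_lit 10) (nat_lit 2))
    (@En.n l22066 (nat_lit 1520) (nat_lit 12) (nat_lit 9))
    (@En.n l2094 (nat_lit 1943) (nat_lit 13) (nat_lit 14))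
    (@En.n l8679 (nat_lit 1748) (nat_lit 2) (nat_lit 11))
    (@En.n l12929 (nat_lit 1461) (nat_lit 3) (nat_lit 7))
    (@En.n l18 (nat_lit 1760) (nat_lit 15) (nat_lit 2))))
  (@Cl.mk (nat_lit 0x20007000e000800020009000d000a000900030009000800070006000e0007) (nat_lit 0x52045670460070) (nat_lit 16) Lb.e (@T16.mk En
    (@En.n l24365 (nat_lit 1520) (nat_lit 4) (nat_lit 7))
    (@En.n l1578 (nat_lit 1517) (nat_lit 1) (nat_lit 14))
    (@En.n l24366 (nat_lit 6033) (nat_lit 2) (nat_lit 6))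
    (@En.n l3937 (nat_lit 2351) (nat_lit 3) (nat_lit 7))
    (@En.n l2479 (nat_lit 2386) (nat_lit 4) (nat_lit 8))
    (@En.n l7916 (nat_lit 1760) (nat_lit 5) (nat_lit 9))
    (@En.n l3937 (nat_lit 1765) (nat_lit 6) (nat_lit 3))
    (@En.n l575 (nat_lit 3218) (nat_lit 0) (nat_lit 9))
    (@En.n l4920 (nat_lit 1992) (nat_lit 9) (nat_lit 10))
    (@En.n l2769 (nat_lit 1723) (nat_lit 10) (nat_lit 13))
    (@En.n l2588 (nat_lit 1770) (nat_lit 11) (nat_lit 9))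
    (@En.n l18 (nat_lit 1761) (nat_lit 11) (nat_lit 2))
    (@En.i (nat_lit 1690) (nat_lit 13) (nat_lit 8))
    (@En.n l564 (nat_lit 1513) (nat_lit 1) (nat_lit 14))
    (@En.n l24367 (nat_lit 7492) (nat_lit 2) (nat_lit 7))
    (@En.n l28 (nat_lit 1761) (nat_lit 15) (nat_lit 2))))
  (@Cl.mk (nat_lit 0x20005000b000a0009000800070005000e000600020007000b0008000e0009) (nat_lit 0x68200030005601) (nat_lit 16) Lb.e (@T16.mk En
    (@En.n l7998 (nat_lit 1520) (nat_lit 11) (nat_lit 9))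
    (@En.n l1029 (nat_lit 1764) (nat_lit 12) (nat_lit 14))
    (@En.n l4855 (nat_lit 1655) (nat_lit 13) (nat_lit 8))
    (@En.n l9738 (nat_lit 1788) (nat_lit 3) (nat_lit 11))
    (@En.n l3232 (nat_lit 1671) (nat_lit 4) (nat_lit 7))
    (@En.n l7 (nat_lit 1762) (nat_lit 5) (nat_lit 2))
    (@En.n l3423 (nat_lit 1571) (nat_lit 6) (nat_lit 6))
    (@En.n l9739 (nat_lit 1511) (nat_lit 8) (nat_lit 14))
    (@En.i (nat_lit 6420) (nat_lit 8) (nat_lit 5))
    (@En.n l685 (nat_lit 432) (nat_lit 3) (nat_lit 7))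
    (@En.n l7998 (nat_lit 7411) (nat_lit 11) (nat_lit 8))
    (@En.n l575 (nat_lit 2340) (nat_lit 12) (nat_lit 9))
    (@En.n l9740 (nat_lit 2145) (nat_lit 13) (nat_lit 10))
    (@En.n l9741 (nat_lit 1564) (nat_lit 8) (nat_lit 11))
    (@En.n l1034 (nat_lit 1760) (nat_lit 8) (nat_lit 5))
    (@En.n l3 (nat_lit 1762) (nat_lit 15) (nat_lit 2))))
  (@Cl.mk (nat_lit 0x20008000c00080008000b0004000a000900080005000800080006000e0007) (nat_lit 0x460000572012040) (nat_lit 16) Lb.e (@T16.mk En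
    (@En.n l3423 (nat_lit 1572) (nat_lit 6) (nat_lit 7))
    (@En.n l24210 (nat_lit 1488) (nat_lit 1) (nat_lit 14))
    (@En.i (nat_lit 7529) (nat_lit 2) (nat_lit 6))
    (@En.n l10103 (nat_lit 1764) (nat_lit 3) (nat_lit 8))
    (@En.i (nat_lit 1762) (nat_lit 10) (nat_lit 8))
    (@En.n l24211 (nat_lit 1639) (nat_lit 5) (nat_lit 5))
    (@En.n l24212 (nat_lit 2339) (nat_lit 6) (nat_lit 8))
    (@En.n l9740 (nat_lit 2199) (nat_lit 7) (nat_lit 9))
    (@En.n l24213 (nat_lit 494) (nat_lit 9) (nat_lit 10))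
    (@En.n l24214 (nat_lit 1520) (nat_lit 9) (nat_lit 4))
    (@En.n l24215 (nat_lit 1765) (nat_lit 7) (nat_lit 11))
    (@En.n l24216 (nat_lit 1765) (nat_lit 8) (nat_lit 8))
    (@En.n l24217 (nat_lit 4361) (nat_lit 13) (nat_lit 8))
    (@En.n l9738 (nat_lit 1724) (nat_lit 14) (nat_lit 12))
    (@En.n l24218 (nat_lit 1672) (nat_lit 4) (nat_lit 8))
    (@En.n l7 (nat_lit 1763) (nat_lit 15) (nat_lit 2))))
  (@Cl.mk (nat_lit 0x20007000b000e00080002000b0005000b000a0009000500080005000e0006) (nat_lit 0x5c101068201030) (nat_lit 16) Lb.e (@T16.mk En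
    (@En.n l2900 (nat_lit 1576) (nat_lit 5) (nat_lit 6))
    (@En.n l2650 (nat_lit 1478) (nat_lit 1) (nat_lit 14))
    (@En.n l3832 (nat_lit 6421) (nat_lit 2) (nat_lit 5))
    (@En.n l22112 (nat_lit 433) (nat_lit 3) (nat_lit 8))
    (@En.n l10795 (nat_lit 1642) (nat_lit 4) (nat_lit 5))
    (@En.n l22113 (nat_lit 2337) (nat_lit 5) (nat_lit 9))
    (@En.n l5909 (nat_lit 2198) (nat_lit 12) (nat_lit 10))
    (@En.n l15093 (nat_lit 496) (nat_lit 8) (nat_lit 11))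
    (@En.n l2657 (nat_lit 1762) (nat_lit 14) (nat_lit 5))
    (@En.n l3832 (nat_lit 1763) (nat_lit 10) (nat_lit 11))
    (@En.n l3 (nat_lit 1764) (nat_lit 10) (nat_lit 2))
    (@En.n l7707 (nat_lit 1763) (nat_lit 12) (nat_lit 8))
    (@En.i (nat_lit 5246) (nat_lit 13) (nat_lit 14))
    (@En.n l8679 (nat_lit 1789) (nat_lit 2) (nat_lit 11))
    (@En.n l12929 (nat_lit 1670) (nat_lit 3) (nat_lit 7))
    (@En.n l18 (nat_lit 1764) (nat_lit 15) (nat_lit 2))))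
  (@Cl.mk (nat_lit 0x20007000e000800020009000d0008000b00030009000800070005000e0008) (nat_lit 0x51045690460052) (nat_lit 16) Lb.e (@T16.mk En
    (@En.n l10901 (nat_lit 1763) (nat_lit 4) (nat_lit 8))
    (@En.n l10902 (nat_lit 1521) (nat_lit 1) (nat_lit 14))
    (@En.i (nat_lit 1641) (nat_lit 2) (nat_lit 5))
    (@En.i (nat_lit 2343) (nat_lit 3) (nat_lit 7))
    (@En.n l10903 (nat_lit 2392) (nat_lit 4) (nat_lit 8))
    (@En.n l481 (nat_lit 498) (nat_lit 5) (nat_lit 9))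
    (@En.n l10904 (nat_lit 1761) (nat_lit 6) (nat_lit 3))
    (@En.i (nat_lit 13463) (nat_lit 7) (nat_lit 11))
    (@En.n l481 (nat_lit 4359) (nat_lit 13) (nat_lit 8))
    (@En.n l4160 (nat_lit 1725) (nat_lit 10) (nat_lit 13))
    (@En.n l4161 (nat_lit 1767) (nat_lit 11) (nat_lit 9))
    (@En.n l3 (nat_lit 1765) (nat_lit 11) (nat_lit 2))
    (@En.n l1612 (nat_lit 1577) (nat_lit 13) (nat_lit 8))
    (@En.n l10905 (nat_lit 1774) (nat_lit 1) (nat_lit 14))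
    (@En.i (nat_lit 7528) (nat_lit 2) (nat_lit 7))
    (@En.n l17 (nat_lit 1765) (nat_lit 15) (nat_lit 2))))
  (@Cl.mk (nat_lit 0x2000c00080008000b0004000a0008000b00050008000800060005000e0008) (nat_lit 0x560905580020053) (nat_lit 16) Lb.e (@T16.mk En
    (@En.n l33818 (nat_lit 1672) (nat_lit 5) (nat_lit 8))
    (@En.n l36809 (nat_lit 1763) (nat_lit 1) (nat_lit 14))
    (@En.n l17834 (nat_lit 1498) (nat_lit 2) (nat_lit 5))
    (@En.n l619 (nat_lit 6815) (nat_lit 3) (nat_lit 6))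
    (@En.n l36810 (nat_lit 1675) (nat_lit 8) (nat_lit 8))
    (@En.n l36811 (nat_lit 1772) (nat_lit 10) (nat_lit 8))
    (@En.n l12289 (nat_lit 6830) (nat_lit 6) (nat_lit 5))
    (@En.i (nat_lit 13190) (nat_lit 7) (nat_lit 11))
    (@En.n l36812 (nat_lit 2444) (nat_lit 9) (nat_lit 8))
    (@En.n l6590 (nat_lit 1585) (nat_lit 10) (nat_lit 10))
    (@En.n l13001 (nat_lit 1771) (nat_lit 10) (nat_lit 4))
    (@En.n l36813 (nat_lit 1768) (nat_lit 7) (nat_lit 11))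
    (@En.n l36814 (nat_lit 1768) (nat_lit 8) (nat_lit 8))
    (@En.n l36811 (nat_lit 4363) (nat_lit 14) (nat_lit 8))
    (@En.n l36815 (nat_lit 1300) (nat_lit 3) (nat_lit 12))
    (@En.n l17 (nat_lit 1766) (nat_lit 15) (nat_lit 2))))
  (@Cl.mk (nat_lit 0x20008000600090009000d0007000a0003000800070007000a0006000e0009) (nat_lit 0x2360704000062) (nat_lit 16) Lb.e (@T16.mk En
    (@En.n l20694 (nat_lit 1672) (nat_lit 9) (nat_lit 9))
    (@En.n l601 (nat_lit 1998) (nat_lit 1) (nat_lit 14))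
    (@En.n l20695 (nat_lit 6517) (nat_lit 2) (nat_lit 6))
    (@En.n l20696 (nat_lit 1768) (nat_lit 3) (nat_lit 10))
    (@En.n l20697 (nat_lit 1768) (nat_lit 4) (nat_lit 7))
    (@En.n l20698 (nat_lit 2609) (nat_lit 5) (nat_lit 7))
    (@En.n l8709 (nat_lit 1584) (nat_lit 6) (nat_lit 8))
    (@En.n l20699 (nat_lit 1770) (nat_lit 7) (nat_lit 3))
    (@En.n l9691 (nat_lit 13549) (nat_lit 8) (nat_lit 10))
    (@En.n l8709 (nat_lit 3131) (nat_lit 10) (nat_lit 7))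
    (@En.i (nat_lit 1303) (nat_lit 11) (nat_lit 13))
    (@En.n l14053 (nat_lit 2012) (nat_lit 12) (nat_lit 9))
    (@En.n l8711 (nat_lit 1693) (nat_lit 9) (nat_lit 9))
    (@En.i (nat_lit 422) (nat_lit 14) (nat_lit 6))
    (@En.n l20700 (nat_lit 6816) (nat_lit 6) (nat_lit 8))
    (@En.n l50 (nat_lit 1767) (nat_lit 15) (nat_lit 2))))
  (@Cl.mk (nat_lit 0x200070006000e00090002000d0008000b000300090007000a0005000e0008) (nat_lit 0x6306680408051) (nat_lit 16) Lb.e (@T16.mk En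
    (@En.n l20766 (nat_lit 1766) (nat_lit 5) (nat_lit 8))
    (@En.n l20767 (nat_lit 1773) (nat_lit 1) (nat_lit 14))
    (@En.i (nat_lit 6940) (nat_lit 2) (nat_lit 5))
    (@En.n l4651 (nat_lit 13195) (nat_lit 8) (nat_lit 10))
    (@En.n l3172 (nat_lit 2440) (nat_lit 4) (nat_lit 7))
    (@En.n l175 (nat_lit 1587) (nat_lit 11) (nat_lit 9))
    (@En.n l3168 (nat_lit 1769) (nat_lit 6) (nat_lit 3))
    (@En.i (nat_lit 13550) (nat_lit 7) (nat_lit 11))
    (@En.n l3677 (nat_lit 4362) (nat_lit 14) (nat_lit 8))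
    (@En.n l20768 (nat_lit 1304) (nat_lit 10) (nat_lit 13))
    (@En.n l107 (nat_lit 1768) (nat_lit 10) (nat_lit 2))
    (@En.n l5185 (nat_lit 1767) (nat_lit 12) (nat_lit 9))
    (@En.n l97 (nat_lit 1765) (nat_lit 13) (nat_lit 14))
    (@En.n l1255 (nat_lit 1504) (nat_lit 14) (nat_lit 6))
    (@En.n l4651 (nat_lit 6817) (nat_lit 3) (nat_lit 7))
    (@En.n l17 (nat_lit 1768) (nat_lit 15) (nat_lit 2))))
  (@Cl.mk (nat_lit 0x200070006000e00090002000d000a0009000300090007000a0006000e0007) (nat_lit 0x6306600400070) (nat_lit 16) Lb.e (@T16.mk En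
    (@En.n l36816 (nat_lit 1771) (nat_lit 5) (nat_lit 7))
    (@En.n l3938 (nat_lit 2002) (nat_lit 1) (nat_lit 14))
    (@En.n l117 (nat_lit 9908) (nat_lit 2) (nat_lit 6))
    (@En.n l7055 (nat_lit 13228) (nat_lit 8) (nat_lit 10))
    (@En.i (nat_lit 2389) (nat_lit 4) (nat_lit 7))
    (@En.n l36817 (nat_lit 1552) (nat_lit 11) (nat_lit 9))
    (@En.n l9306 (nat_lit 1768) (nat_lit 6) (nat_lit 3))
    (@En.n l575 (nat_lit 2010) (nat_lit 0) (nat_lit 9))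
    (@En.n l27261 (nat_lit 1990) (nat_lit 9) (nat_lit 10))
    (@En.n l7055 (nat_lit 1095) (nat_lit 10) (nat_lit 13))
    (@En.n l18 (nat_lit 1769) (nat_lit 10) (nat_lit 2))
    (@En.n l61 (nat_lit 1770) (nat_lit 12) (nat_lit 9))
    (@En.n l2197 (nat_lit 1761) (nat_lit 13) (nat_lit 14))
    (@En.n l13709 (nat_lit 1726) (nat_lit 14) (nat_lit 6))
    (@En.n l36818 (nat_lit 6824) (nat_lit 3) (nat_lit 7))
    (@En.n l28 (nat_lit 1769) (nat_lit 15) (nat_lit 2))))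
  (@Cl.mk (nat_lit 0x20008000600090009000d000900080003000800070007000a0007000e0008) (nat_lit 0x2355604001081) (nat_lit 16) Lb.e (@T16.mk En
    (@En.n l29540 (nat_lit 1421) (nat_lit 9) (nat_lit 8))
    (@En.n l1578 (nat_lit 2000) (nat_lit 1) (nat_lit 14))
    (@En.n l117 (nat_lit 9906) (nat_lit 2) (nat_lit 7))
    (@En.n l617 (nat_lit 1769) (nat_lit 3) (nat_lit 10))
    (@En.n l2687 (nat_lit 1769) (nat_lit 4) (nat_lit 7))
    (@En.i (nat_lit 2601) (nat_lit 5) (nat_lit 7))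
    (@En.i (nat_lit 1518) (nat_lit 6) (nat_lit 8))
    (@En.n l29541 (nat_lit 1767) (nat_lit 7) (nat_lit 3))
    (@En.n l575 (nat_lit 2007) (nat_lit 0) (nat_lit 8))
    (@En.n l29542 (nat_lit 1986) (nat_lit 10) (nat_lit 9))
    (@En.n l12741 (nat_lit 1096) (nat_lit 11) (nat_lit 13))
    (@En.n l29543 (nat_lit 2003) (nat_lit 12) (nat_lit 9))
    (@En.n l29544 (nat_lit 1692) (nat_lit 9) (nat_lit 9))
    (@En.n l12741 (nat_lit 419) (nat_lit 14) (nat_lit 6))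
    (@En.n l29545 (nat_lit 6822) (nat_lit 6) (nat_lit 8))
    (@En.n l28 (nat_lit 1770) (nat_lit 15) (nat_lit 2))))
  (@Cl.mk (nat_lit 0x2000c0009000900090004000a0008000b00070007000700060005000e0008) (nat_lit 0x560105690000051) (nat_lit 16) Lb.e (@T16.mk En
    (@En.n l26620 (nat_lit 1421) (nat_lit 5) (nat_lit 8))
    (@En.n l26014 (nat_lit 1520) (nat_lit 1) (nat_lit 14))
    (@En.n l26642 (nat_lit 1413) (nat_lit 2) (nat_lit 5))
    (@En.n l26643 (nat_lit 6699) (nat_lit 3) (nat_lit 6))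
    (@En.n l26012 (nat_lit 1772) (nat_lit 9) (nat_lit 7))
    (@En.n l26644 (nat_lit 1465) (nat_lit 9) (nat_lit 7))
    (@En.n l26645 (nat_lit 9615) (nat_lit 6) (nat_lit 7))
    (@En.i (nat_lit 13095) (nat_lit 7) (nat_lit 11))
    (@En.n l26646 (nat_lit 2502) (nat_lit 9) (nat_lit 8))
    (@En.i (nat_lit 1551) (nat_lit 10) (nat_lit 10))
    (@En.n l26015 (nat_lit 1464) (nat_lit 10) (nat_lit 4))
    (@En.n l26647 (nat_lit 1769) (nat_lit 7) (nat_lit 9))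
    (@En.n l1596 (nat_lit 1773) (nat_lit 7) (nat_lit 9))
    (@En.n l2150 (nat_lit 1985) (nat_lit 14) (nat_lit 9))
    (@En.i (nat_lit 980) (nat_lit 3) (nat_lit 12))
    (@En.n l17 (nat_lit 1771) (nat_lit 15) (nat_lit 2))))
  (@Cl.mk (nat_lit 0x20005000b0009000c0008000700050004000e00070002000b0008000e0009) (nat_lit 0x67960004005611) (nat_lit 16) Lb.e (@T16.mk En
    (@En.n l6220 (nat_lit 1771) (nat_lit 12) (nat_lit 9))
    (@En.n l396 (nat_lit 1675) (nat_lit 1) (nat_lit 14))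
    (@En.i (nat_lit 1989) (nat_lit 14) (nat_lit 8))
    (@En.n l12479 (nat_lit 985) (nat_lit 3) (nat_lit 11))
    (@En.n l28 (nat_lit 1772) (nat_lit 4) (nat_lit 2))
    (@En.n l12836 (nat_lit 1671) (nat_lit 5) (nat_lit 7))
    (@En.n l12837 (nat_lit 1762) (nat_lit 7) (nat_lit 14))
    (@En.n l152 (nat_lit 1502) (nat_lit 7) (nat_lit 4))
    (@En.n l12837 (nat_lit 2535) (nat_lit 8) (nat_lit 5))
    (@En.n l2874 (nat_lit 575) (nat_lit 4) (nat_lit 7))
    (@En.n l8368 (nat_lit 9614) (nat_lit 11) (nat_lit 8))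
    (@En.n l2874 (nat_lit 13097) (nat_lit 6) (nat_lit 12))
    (@En.i (nat_lit 2468) (nat_lit 13) (nat_lit 9))
    (@En.n l2874 (nat_lit 1556) (nat_lit 9) (nat_lit 11))
    (@En.n l3440 (nat_lit 1465) (nat_lit 13) (nat_lit 5))
    (@En.n l18 (nat_lit 1772) (nat_lit 15) (nat_lit 2))))
  (@Cl.mk (nat_lit 0x2000800070006000e00090002000d00090008000300090007000a000e0007) (nat_lit 0x300630870040040) (nat_lit 16) Lb.e (@T16.mk En
    (@En.n l187 (nat_lit 1771) (nat_lit 6) (nat_lit 7))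
    (@En.n l2129 (nat_lit 7940) (nat_lit 1) (nat_lit 14))
    (@En.i (nat_lit 13214) (nat_lit 8) (nat_lit 10))
    (@En.n l28810 (nat_lit 2288) (nat_lit 3) (nat_lit 7))
    (@En.n l22223 (nat_lit 1554) (nat_lit 11) (nat_lit 9))
    (@En.n l1790 (nat_lit 2002) (nat_lit 5) (nat_lit 3))
    (@En.n l28811 (nat_lit 3216) (nat_lit 6) (nat_lit 8))
    (@En.n l7393 (nat_lit 1995) (nat_lit 14) (nat_lit 9))
    (@En.n l28812 (nat_lit 1543) (nat_lit 9) (nat_lit 13))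
    (@En.n l17 (nat_lit 1773) (nat_lit 9) (nat_lit 2))
    (@En.n l28813 (nat_lit 1998) (nat_lit 11) (nat_lit 9))
    (@En.n l28814 (nat_lit 1521) (nat_lit 12) (nat_lit 14))
    (@En.n l28811 (nat_lit 1718) (nat_lit 13) (nat_lit 6))
    (@En.n l28815 (nat_lit 6717) (nat_lit 14) (nat_lit 7))
    (@En.n l12983 (nat_lit 1766) (nat_lit 4) (nat_lit 8))
    (@En.n l476 (nat_lit 1773) (nat_lit 15) (nat_lit 2))))
  (@Cl.mk (nat_lit 0x2000a0009000d0008000b00030006000900070005000e00080002000e0007) (nat_lit 0x245680070055040) (nat_lit 16) Lb.e (@T16.mk En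
    (@En.n l1530 (nat_lit 1432) (nat_lit 14) (nat_lit 7))
    (@En.n l1531 (nat_lit 10047) (nat_lit 1) (nat_lit 14))
    (@En.n l3 (nat_lit 1774) (nat_lit 2) (nat_lit 2))
    (@En.n l1532 (nat_lit 1488) (nat_lit 3) (nat_lit 8))
    (@En.n l1533 (nat_lit 1391) (nat_lit 1) (nat_lit 14))
    (@En.n l1534 (nat_lit 6028) (nat_lit 5) (nat_lit 5))
    (@En.n l1535 (nat_lit 2544) (nat_lit 6) (nat_lit 7))
    (@En.n l1536 (nat_lit 2421) (nat_lit 9) (nat_lit 9))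
    (@En.n l1537 (nat_lit 1783) (nat_lit 12) (nat_lit 6))
    (@En.n l1538 (nat_lit 1513) (nat_lit 9) (nat_lit 3))
    (@En.n l1535 (nat_lit 12918) (nat_lit 7) (nat_lit 11))
    (@En.n l1539 (nat_lit 5089) (nat_lit 12) (nat_lit 8))
    (@En.n l7 (nat_lit 1395) (nat_lit 13) (nat_lit 13))
    (@En.n l1540 (nat_lit 1540) (nat_lit 14) (nat_lit 9))
    (@En.n l1541 (nat_lit 1432) (nat_lit 12) (nat_lit 10))
    (@En.n l17 (nat_lit 1774) (nat_lit 15) (nat_lit 2))))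
  (@Cl.mk (nat_lit 0x2000b000a000a0008000b00050008000600060005000e00080002000e0008) (nat_lit 0x35690300024000) (nat_lit 16) Lb.e (@T16.mk En
    (@En.n l3852 (nat_lit 1776) (nat_lit 14) (nat_lit 8))
    (@En.n l4706 (nat_lit 7583) (nat_lit 1) (nat_lit 14))
    (@En.n l7 (nat_lit 1775) (nat_lit 2) (nat_lit 2))
    (@En.n l4650 (nat_lit 1489) (nat_lit 3) (nat_lit 8))
    (@En.n l4707 (nat_lit 1865) (nat_lit 1) (nat_lit 14))
    (@En.n l4708 (nat_lit 1774) (nat_lit 5) (nat_lit 5))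
    (@En.n l1495 (nat_lit 1783) (nat_lit 10) (nat_lit 6))
    (@En.i (nat_lit 2161) (nat_lit 7) (nat_lit 6))
    (@En.n l4707 (nat_lit 2446) (nat_lit 10) (nat_lit 8))
    (@En.n l427 (nat_lit 1785) (nat_lit 9) (nat_lit 5))
    (@En.n l92 (nat_lit 12919) (nat_lit 7) (nat_lit 11))
    (@En.i (nat_lit 5095) (nat_lit 12) (nat_lit 8))
    (@En.n l4709 (nat_lit 1810) (nat_lit 6) (nat_lit 10))
    (@En.n l4706 (nat_lit 1541) (nat_lit 14) (nat_lit 10))
    (@En.n l4710 (nat_lit 1776) (nat_lit 12) (nat_lit 11))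
    (@En.n l18 (nat_lit 1775) (nat_lit 15) (nat_lit 2))))
noncomputable def a111 : T16 Cl := @T16.mk Cl
  (@Cl.mk (nat_lit 0x200080008000b000900090007000a000500080008000700070006000e0009) (nat_lit 0x609340803400004) (nat_lit 16) Lb.e (@T16.mk En
    (@En.n l12377 (nat_lit 1490) (nat_lit 14) (nat_lit 9))
    (@En.n l12378 (nat_lit 1862) (nat_lit 1) (nat_lit 14))
    (@En.n l12379 (nat_lit 1432) (nat_lit 2) (nat_lit 6))
    (@En.n l10848 (nat_lit 1777) (nat_lit 3) (nat_lit 7))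
    (@En.n l12380 (nat_lit 2887) (nat_lit 4) (nat_lit 7))
    (@En.n l12381 (nat_lit 1775) (nat_lit 8) (nat_lit 8))
    (@En.n l12382 (nat_lit 1992) (nat_lit 6) (nat_lit 8))
    (@En.n l12383 (nat_lit 1780) (nat_lit 7) (nat_lit 5))
    (@En.n l12380 (nat_lit 12903) (nat_lit 8) (nat_lit 10))
    (@En.n l3536 (nat_lit 5090) (nat_lit 10) (nat_lit 7))
    (@En.n l12384 (nat_lit 1808) (nat_lit 7) (nat_lit 9))
    (@En.n l12385 (nat_lit 951) (nat_lit 12) (nat_lit 9))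
    (@En.n l12386 (nat_lit 1778) (nat_lit 7) (nat_lit 11))
    (@En.n l12387 (nat_lit 1778) (nat_lit 8) (nat_lit 8))
    (@En.n l12380 (nat_lit 8821) (nat_lit 6) (nat_lit 8))
    (@En.n l28 (nat_lit 1776) (nat_lit 15) (nat_lit 2))))
  (@Cl.mk (nat_lit 0x200070007000a000e000900020008000b00060009000900070005000e0008) (nat_lit 0xa40010340053) (nat_lit 16) Lb.e (@T16.mk En
    (@En.n l12434 (nat_lit 1780) (nat_lit 6) (nat_lit 8))
    (@En.n l12435 (nat_lit 1859) (nat_lit 1) (nat_lit 14))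
    (@En.i (nat_lit 6044) (nat_lit 2) (nat_lit 5))
    (@En.n l12436 (nat_lit 6797) (nat_lit 3) (nat_lit 7))
    (@En.n l12437 (nat_lit 1783) (nat_lit 11) (nat_lit 9))
    (@En.n l12436 (nat_lit 2098) (nat_lit 5) (nat_lit 9))
    (@En.n l3858 (nat_lit 1781) (nat_lit 6) (nat_lit 6))
    (@En.n l12436 (nat_lit 945) (nat_lit 7) (nat_lit 11))
    (@En.n l12438 (nat_lit 5099) (nat_lit 9) (nat_lit 8))
    (@En.n l28 (nat_lit 1777) (nat_lit 9) (nat_lit 2))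
    (@En.n l12439 (nat_lit 1776) (nat_lit 11) (nat_lit 9))
    (@En.n l12440 (nat_lit 1505) (nat_lit 12) (nat_lit 14))
    (@En.n l12441 (nat_lit 1782) (nat_lit 2) (nat_lit 10))
    (@En.n l5452 (nat_lit 1782) (nat_lit 3) (nat_lit 7))
    (@En.n l6081 (nat_lit 8828) (nat_lit 4) (nat_lit 7))
    (@En.n l3 (nat_lit 1777) (nat_lit 15) (nat_lit 2))))
  (@Cl.mk (nat_lit 0x2000800080007000e000a00020008000b00080008000600090005000e0008) (nat_lit 0x50040682300084) (nat_lit 16) Lb.e (@T16.mk En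
    (@En.n l26106 (nat_lit 1776) (nat_lit 6) (nat_lit 8))
    (@En.n l97 (nat_lit 1858) (nat_lit 1) (nat_lit 14))
    (@En.n l11456 (nat_lit 1777) (nat_lit 2) (nat_lit 5))
    (@En.n l5562 (nat_lit 12902) (nat_lit 9) (nat_lit 9))
    (@En.n l11980 (nat_lit 5091) (nat_lit 4) (nat_lit 6))
    (@En.n l55 (nat_lit 1787) (nat_lit 8) (nat_lit 8))
    (@En.i (nat_lit 953) (nat_lit 6) (nat_lit 8))
    (@En.i (nat_lit 12935) (nat_lit 7) (nat_lit 11))
    (@En.n l1883 (nat_lit 8818) (nat_lit 9) (nat_lit 8))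
    (@En.n l18 (nat_lit 1778) (nat_lit 9) (nat_lit 2))
    (@En.n l1708 (nat_lit 1779) (nat_lit 11) (nat_lit 10))
    (@En.n l12409 (nat_lit 1860) (nat_lit 12) (nat_lit 14))
    (@En.n l890 (nat_lit 1431) (nat_lit 2) (nat_lit 7))
    (@En.n l4494 (nat_lit 1782) (nat_lit 8) (nat_lit 8))
    (@En.n l13688 (nat_lit 2889) (nat_lit 4) (nat_lit 8))
    (@En.n l107 (nat_lit 1778) (nat_lit 15) (nat_lit 2))))
  (@Cl.mk (nat_lit 0x2000900090007000a000a0007000a000700070006000600090006000e0009) (nat_lit 0x50340700001095) (nat_lit 16) Lb.e (@T16.mk En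
    (@En.i (nat_lit 1490) (nat_lit 3) (nat_lit 9))
    (@En.n l97 (nat_lit 1814) (nat_lit 1) (nat_lit 14))
    (@En.n l26101 (nat_lit 1776) (nat_lit 2) (nat_lit 6))
    (@En.n l2114 (nat_lit 1778) (nat_lit 3) (nat_lit 9))
    (@En.n l1959 (nat_lit 1778) (nat_lit 4) (nat_lit 6))
    (@En.n l12573 (nat_lit 5085) (nat_lit 5) (nat_lit 6))
    (@En.n l26102 (nat_lit 1806) (nat_lit 9) (nat_lit 7))
    (@En.i (nat_lit 952) (nat_lit 7) (nat_lit 7))
    (@En.n l1481 (nat_lit 12936) (nat_lit 8) (nat_lit 10))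
    (@En.n l26101 (nat_lit 8822) (nat_lit 10) (nat_lit 7))
    (@En.n l2337 (nat_lit 1807) (nat_lit 6) (nat_lit 10))
    (@En.i (nat_lit 1932) (nat_lit 8) (nat_lit 10))
    (@En.n l2019 (nat_lit 1437) (nat_lit 13) (nat_lit 7))
    (@En.n l2281 (nat_lit 1781) (nat_lit 7) (nat_lit 9))
    (@En.n l11 (nat_lit 2842) (nat_lit 4) (nat_lit 9))
    (@En.n l107 (nat_lit 1779) (nat_lit 15) (nat_lit 2))))
  (@Cl.mk (nat_lit 0x200080008000b0007000a000a0008000500080008000600060009000e0008) (nat_lit 0x12045302300084) (nat_lit 16) Lb.e (@T16.mk En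
    (@En.n l5072 (nat_lit 1490) (nat_lit 9) (nat_lit 8))
    (@En.n l25827 (nat_lit 1506) (nat_lit 1) (nat_lit 14))
    (@En.n l5474 (nat_lit 1781) (nat_lit 2) (nat_lit 9))
    (@En.n l5475 (nat_lit 1781) (nat_lit 3) (nat_lit 6))
    (@En.n l1481 (nat_lit 9298) (nat_lit 4) (nat_lit 6))
    (@En.n l25828 (nat_lit 1785) (nat_lit 8) (nat_lit 8))
    (@En.i (nat_lit 1812) (nat_lit 10) (nat_lit 8))
    (@En.n l25829 (nat_lit 5769) (nat_lit 7) (nat_lit 5))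
    (@En.n l16098 (nat_lit 6794) (nat_lit 9) (nat_lit 8))
    (@En.n l25830 (nat_lit 1784) (nat_lit 10) (nat_lit 10))
    (@En.i (nat_lit 2096) (nat_lit 11) (nat_lit 10))
    (@En.n l1599 (nat_lit 1779) (nat_lit 12) (nat_lit 7))
    (@En.n l25831 (nat_lit 1777) (nat_lit 7) (nat_lit 11))
    (@En.n l25832 (nat_lit 1777) (nat_lit 8) (nat_lit 8))
    (@En.n l25833 (nat_lit 5101) (nat_lit 6) (nat_lit 8))
    (@En.n l3 (nat_lit 1780) (nat_lit 15) (nat_lit 2))))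
  (@Cl.mk (nat_lit 0x200070007000a0007000e000a0002000900060009000900060009000e0007) (nat_lit 0xb5040220790) (nat_lit 16) Lb.e (@T16.mk En
    (@En.n l4110 (nat_lit 1779) (nat_lit 7) (nat_lit 7))
    (@En.n l561 (nat_lit 1507) (nat_lit 9) (nat_lit 14))
    (@En.n l10315 (nat_lit 12934) (nat_lit 9) (nat_lit 9))
    (@En.n l22536 (nat_lit 9297) (nat_lit 3) (nat_lit 6))
    (@En.n l217 (nat_lit 1786) (nat_lit 12) (nat_lit 9))
    (@En.i (nat_lit 1815) (nat_lit 5) (nat_lit 9))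
    (@En.n l1529 (nat_lit 5385) (nat_lit 14) (nat_lit 6))
    (@En.n l11156 (nat_lit 6793) (nat_lit 8) (nat_lit 9))
    (@En.n l107 (nat_lit 1781) (nat_lit 8) (nat_lit 2))
    (@En.n l13383 (nat_lit 1780) (nat_lit 10) (nat_lit 10))
    (@En.n l97 (nat_lit 4631) (nat_lit 11) (nat_lit 14))
    (@En.n l1501 (nat_lit 1778) (nat_lit 12) (nat_lit 7))
    (@En.n l22537 (nat_lit 1782) (nat_lit 13) (nat_lit 10))
    (@En.n l22538 (nat_lit 1782) (nat_lit 14) (nat_lit 7))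
    (@En.n l22539 (nat_lit 2892) (nat_lit 5) (nat_lit 7))
    (@En.n l7 (nat_lit 1781) (nat_lit 15) (nat_lit 2))))
  (@Cl.mk (nat_lit 0x20007000a0006000e0009000200080006000e000900020007000a000e0008) (nat_lit 0x809404063008a3) (nat_lit 16) Lb.e (@T16.mk En
    (@En.n l7432 (nat_lit 1778) (nat_lit 6) (nat_lit 8))
    (@En.n l862 (nat_lit 1872) (nat_lit 13) (nat_lit 14))
    (@En.n l5366 (nat_lit 12933) (nat_lit 8) (nat_lit 10))
    (@En.i (nat_lit 8824) (nat_lit 3) (nat_lit 7))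
    (@En.n l18 (nat_lit 1782) (nat_lit 4) (nat_lit 2))
    (@En.n l22476 (nat_lit 1781) (nat_lit 5) (nat_lit 9))
    (@En.n l396 (nat_lit 1861) (nat_lit 7) (nat_lit 14))
    (@En.n l15197 (nat_lit 6045) (nat_lit 2) (nat_lit 6))
    (@En.i (nat_lit 6795) (nat_lit 3) (nat_lit 8))
    (@En.n l28 (nat_lit 1782) (nat_lit 9) (nat_lit 2))
    (@En.n l5231 (nat_lit 1777) (nat_lit 5) (nat_lit 9))
    (@En.n l1578 (nat_lit 4632) (nat_lit 12) (nat_lit 14))
    (@En.n l1783 (nat_lit 1782) (nat_lit 7) (nat_lit 6))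
    (@En.n l1253 (nat_lit 12932) (nat_lit 8) (nat_lit 10))
    (@En.n l2571 (nat_lit 5102) (nat_lit 4) (nat_lit 7))
    (@En.n l3 (nat_lit 1782) (nat_lit 15) (nat_lit 2))))
  (@Cl.mk (nat_lit 0x20009000c0006000900060004000e00070002000e00070002000a000e000a) (nat_lit 0x10300400b001a4) (nat_lit 16) Lb.e (@T16.mk En
    (@En.n l1507 (nat_lit 1775) (nat_lit 13) (nat_lit 10))
    (@En.n l4737 (nat_lit 1685) (nat_lit 1) (nat_lit 14))
    (@En.n l4738 (nat_lit 1777) (nat_lit 12) (nat_lit 10))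
    (@En.n l18 (nat_lit 1783) (nat_lit 3) (nat_lit 2))
    (@En.n l4739 (nat_lit 1777) (nat_lit 14) (nat_lit 7))
    (@En.n l564 (nat_lit 10039) (nat_lit 1) (nat_lit 14))
    (@En.n l7 (nat_lit 1783) (nat_lit 6) (nat_lit 2))
    (@En.n l28 (nat_lit 1784) (nat_lit 7) (nat_lit 7))
    (@En.n l1504 (nat_lit 1864) (nat_lit 1) (nat_lit 14))
    (@En.n l4739 (nat_lit 6046) (nat_lit 9) (nat_lit 4))
    (@En.n l4740 (nat_lit 6753) (nat_lit 6) (nat_lit 6))
    (@En.n l1504 (nat_lit 2101) (nat_lit 12) (nat_lit 9))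
    (@En.i (nat_lit 1786) (nat_lit 13) (nat_lit 6))
    (@En.n l157 (nat_lit 947) (nat_lit 6) (nat_lit 12))
    (@En.n l1507 (nat_lit 5097) (nat_lit 11) (nat_lit 9))
    (@En.n l107 (nat_lit 1783) (nat_lit 15) (nat_lit 2))))
  (@Cl.mk (nat_lit 0x200090009000c0007000a0007000400070007000e000600020009000e0009) (nat_lit 0x12040000b00195) (nat_lit 16) Lb.e (@T16.mk En
    (@En.n l5086 (nat_lit 1489) (nat_lit 13) (nat_lit 9))
    (@En.n l12152 (nat_lit 1677) (nat_lit 1) (nat_lit 14))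
    (@En.n l12153 (nat_lit 1780) (nat_lit 2) (nat_lit 9))
    (@En.n l18 (nat_lit 1784) (nat_lit 3) (nat_lit 2))
    (@En.n l158 (nat_lit 1780) (nat_lit 4) (nat_lit 6))
    (@En.n l2724 (nat_lit 10037) (nat_lit 6) (nat_lit 14))
    (@En.n l12154 (nat_lit 1809) (nat_lit 2) (nat_lit 7))
    (@En.n l158 (nat_lit 1811) (nat_lit 11) (nat_lit 7))
    (@En.n l12155 (nat_lit 5777) (nat_lit 4) (nat_lit 4))
    (@En.n l1477 (nat_lit 6752) (nat_lit 5) (nat_lit 7))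
    (@En.n l5086 (nat_lit 2099) (nat_lit 11) (nat_lit 10))
    (@En.i (nat_lit 1807) (nat_lit 7) (nat_lit 7))
    (@En.n l4334 (nat_lit 1783) (nat_lit 13) (nat_lit 12))
    (@En.n l134 (nat_lit 1783) (nat_lit 14) (nat_lit 9))
    (@En.n l1477 (nat_lit 5100) (nat_lit 11) (nat_lit 9))
    (@En.n l107 (nat_lit 1784) (nat_lit 15) (nat_lit 2))))
  (@Cl.mk (nat_lit 0x2000b0008000b000b000900050008000500050008000e00070002000e0008) (nat_lit 0x335630200070061) (nat_lit 16) Lb.e (@T16.mk En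
    (@En.n l12319 (nat_lit 1780) (nat_lit 14) (nat_lit 8))
    (@En.i (nat_lit 5058) (nat_lit 1) (nat_lit 14))
    (@En.n l17 (nat_lit 1785) (nat_lit 2) (nat_lit 2))
    (@En.n l4692 (nat_lit 1802) (nat_lit 3) (nat_lit 7))
    (@En.i (nat_lit 1676) (nat_lit 5) (nat_lit 14))
    (@En.n l4693 (nat_lit 1786) (nat_lit 10) (nat_lit 8))
    (@En.n l1356 (nat_lit 1786) (nat_lit 11) (nat_lit 5))
    (@En.n l12355 (nat_lit 9294) (nat_lit 7) (nat_lit 5))
    (@En.n l12356 (nat_lit 811) (nat_lit 10) (nat_lit 8))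
    (@En.n l12357 (nat_lit 5772) (nat_lit 9) (nat_lit 5))
    (@En.n l2337 (nat_lit 6792) (nat_lit 11) (nat_lit 9))
    (@En.n l601 (nat_lit 1809) (nat_lit 5) (nat_lit 11))
    (@En.n l12355 (nat_lit 2097) (nat_lit 13) (nat_lit 11))
    (@En.n l430 (nat_lit 1806) (nat_lit 14) (nat_lit 8))
    (@En.n l12358 (nat_lit 1780) (nat_lit 12) (nat_lit 11))
    (@En.n l3 (nat_lit 1785) (nat_lit 15) (nat_lit 2))))
  (@Cl.mk (nat_lit 0x2000a0006000900050008000e00060002000e00070002000a0008000e000b) (nat_lit 0x40106800a001306) (nat_lit 16) Lb.e (@T16.mk En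
    (@En.n l4718 (nat_lit 1785) (nat_lit 12) (nat_lit 11))
    (@En.n l97 (nat_lit 4630) (nat_lit 13) (nat_lit 14))
    (@En.n l1501 (nat_lit 1787) (nat_lit 14) (nat_lit 8))
    (@En.n l1738 (nat_lit 1781) (nat_lit 12) (nat_lit 10))
    (@En.n l18 (nat_lit 1786) (nat_lit 4) (nat_lit 2))
    (@En.i (nat_lit 1781) (nat_lit 14) (nat_lit 7))
    (@En.n l564 (nat_lit 5061) (nat_lit 1) (nat_lit 14))
    (@En.n l7 (nat_lit 1786) (nat_lit 7) (nat_lit 2))
    (@En.n l28 (nat_lit 1807) (nat_lit 3) (nat_lit 6))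
    (@En.n l561 (nat_lit 1611) (nat_lit 5) (nat_lit 14))
    (@En.i (nat_lit 12937) (nat_lit 10) (nat_lit 8))
    (@En.n l157 (nat_lit 9293) (nat_lit 6) (nat_lit 5))
    (@En.i (nat_lit 812) (nat_lit 9) (nat_lit 9))
    (@En.n l1529 (nat_lit 5767) (nat_lit 14) (nat_lit 6))
    (@En.i (nat_lit 6791) (nat_lit 10) (nat_lit 10))
    (@En.n l107 (nat_lit 1786) (nat_lit 15) (nat_lit 2))))
  (@Cl.mk (nat_lit 0x20008000e000b00020009000c0008000500080004000e00070002000e0008) (nat_lit 0x2350002000900a1) (nat_lit 16) Lb.e (@T16.mk En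
    (@En.i (nat_lit 1778) (nat_lit 14) (nat_lit 8))
    (@En.n l1391 (nat_lit 5062) (nat_lit 1) (nat_lit 14))
    (@En.n l107 (nat_lit 1787) (nat_lit 2) (nat_lit 2))
    (@En.n l5430 (nat_lit 1808) (nat_lit 3) (nat_lit 7))
    (@En.n l4228 (nat_lit 1815) (nat_lit 1) (nat_lit 14))
    (@En.n l170 (nat_lit 1783) (nat_lit 9) (nat_lit 4))
    (@En.n l699 (nat_lit 12946) (nat_lit 10) (nat_lit 8))
    (@En.n l1391 (nat_lit 6351) (nat_lit 7) (nat_lit 5))
    (@En.n l170 (nat_lit 821) (nat_lit 13) (nat_lit 8))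
    (@En.n l1391 (nat_lit 13104) (nat_lit 6) (nat_lit 12))
    (@En.n l1872 (nat_lit 8819) (nat_lit 11) (nat_lit 9))
    (@En.n l18 (nat_lit 1787) (nat_lit 11) (nat_lit 2))
    (@En.n l11982 (nat_lit 1806) (nat_lit 13) (nat_lit 11))
    (@En.n l12409 (nat_lit 1867) (nat_lit 1) (nat_lit 14))
    (@En.n l1599 (nat_lit 1433) (nat_lit 12) (nat_lit 8))
    (@En.n l28 (nat_lit 1787) (nat_lit 15) (nat_lit 2))))
  (@Cl.mk (nat_lit 0x20005000d000b000a0003000900080005000e00060002000b0007000e0008) (nat_lit 0xa78042070040a3) (nat_lit 16) Lb.e (@T16.mk En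
    (@En.i (nat_lit 1414) (nat_lit 12) (nat_lit 8))
    (@En.n l396 (nat_lit 1789) (nat_lit 1) (nat_lit 14))
    (@En.i (nat_lit 1790) (nat_lit 14) (nat_lit 7))
    (@En.n l9300 (nat_lit 976) (nat_lit 3) (nat_lit 11))
    (@En.n l28 (nat_lit 1788) (nat_lit 4) (nat_lit 2))
    (@En.n l5617 (nat_lit 1418) (nat_lit 5) (nat_lit 6))
    (@En.n l9301 (nat_lit 1522) (nat_lit 7) (nat_lit 14))
    (@En.n l117 (nat_lit 8987) (nat_lit 7) (nat_lit 5))
    (@En.n l644 (nat_lit 786) (nat_lit 3) (nat_lit 8))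
    (@En.n l9302 (nat_lit 7738) (nat_lit 10) (nat_lit 9))
    (@En.i (nat_lit 1502) (nat_lit 10) (nat_lit 3))
    (@En.n l575 (nat_lit 1796) (nat_lit 12) (nat_lit 10))
    (@En.i (nat_lit 1772) (nat_lit 13) (nat_lit 11))
    (@En.n l387 (nat_lit 1535) (nat_lit 9) (nat_lit 13))
    (@En.n l640 (nat_lit 1748) (nat_lit 13) (nat_lit 5))
    (@En.n l18 (nat_lit 1788) (nat_lit 15) (nat_lit 2))))
  (@Cl.mk (nat_lit 0x2000a0005000d000b000a0003000600090005000e00060002000b000e0007) (nat_lit 0x10a780020700490) (nat_lit 16) Lb.e (@T16.mk En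
    (@En.i (nat_lit 1724) (nat_lit 13) (nat_lit 7))
    (@En.i (nat_lit 4942) (nat_lit 4) (nat_lit 14))
    (@En.n l12278 (nat_lit 919) (nat_lit 2) (nat_lit 11))
    (@En.n l28 (nat_lit 1789) (nat_lit 3) (nat_lit 2))
    (@En.n l2683 (nat_lit 961) (nat_lit 4) (nat_lit 6))
    (@En.n l2865 (nat_lit 1479) (nat_lit 1) (nat_lit 14))
    (@En.n l117 (nat_lit 8989) (nat_lit 6) (nat_lit 5))
    (@En.i (nat_lit 789) (nat_lit 9) (nat_lit 9))
    (@En.n l2381 (nat_lit 5203) (nat_lit 8) (nat_lit 6))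
    (@En.i (nat_lit 1501) (nat_lit 9) (nat_lit 3))
    (@En.n l4021 (nat_lit 1793) (nat_lit 0) (nat_lit 10))
    (@En.i (nat_lit 1675) (nat_lit 12) (nat_lit 11))
    (@En.n l387 (nat_lit 1790) (nat_lit 9) (nat_lit 13))
    (@En.n l699 (nat_lit 1788) (nat_lit 14) (nat_lit 5))
    (@En.n l6042 (nat_lit 1724) (nat_lit 11) (nat_lit 10))
    (@En.n l50 (nat_lit 1789) (nat_lit 15) (nat_lit 2))))
  (@Cl.mk (nat_lit 0x20007000e00070002000a000d000a000900030009000600090006000e0007) (nat_lit 0x80019670303070) (nat_lit 16) Lb.e (@T16.mk En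
    (@En.n l5617 (nat_lit 954) (nat_lit 4) (nat_lit 7))
    (@En.n l1578 (nat_lit 1483) (nat_lit 1) (nat_lit 14))
    (@En.n l9315 (nat_lit 8988) (nat_lit 2) (nat_lit 6))
    (@En.i (nat_lit 2302) (nat_lit 3) (nat_lit 9))
    (@En.n l420 (nat_lit 1789) (nat_lit 8) (nat_lit 6))
    (@En.n l9554 (nat_lit 1764) (nat_lit 5) (nat_lit 9))
    (@En.i (nat_lit 1496) (nat_lit 6) (nat_lit 3))
    (@En.n l575 (nat_lit 1798) (nat_lit 0) (nat_lit 9))
    (@En.i (nat_lit 1989) (nat_lit 9) (nat_lit 10))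
    (@En.i (nat_lit 1652) (nat_lit 10) (nat_lit 13))
    (@En.n l1738 (nat_lit 1487) (nat_lit 11) (nat_lit 10))
    (@En.n l18 (nat_lit 1790) (nat_lit 11) (nat_lit 2))
    (@En.i (nat_lit 1487) (nat_lit 13) (nat_lit 7))
    (@En.n l564 (nat_lit 4939) (nat_lit 1) (nat_lit 14))
    (@En.n l3100 (nat_lit 5185) (nat_lit 2) (nat_lit 7))
    (@En.n l28 (nat_lit 1790) (nat_lit 15) (nat_lit 2))))
  (@Cl.mk (nat_lit 0x200050008000d0005000e00030002000b000e00080002000b0005000e000b) (nat_lit 0x22060063002087) (nat_lit 16) Lb.e (@T16.mk En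
    (@En.i (nat_lit 2532) (nat_lit 8) (nat_lit 11))
    (@En.n l387 (nat_lit 1795) (nat_lit 1) (nat_lit 14))
    (@En.n l699 (nat_lit 1792) (nat_lit 14) (nat_lit 5))
    (@En.i (nat_lit 1794) (nat_lit 3) (nat_lit 11))
    (@En.n l50 (nat_lit 1791) (nat_lit 4) (nat_lit 2))
    (@En.n l396 (nat_lit 1794) (nat_lit 5) (nat_lit 8))
    (@En.i (nat_lit 3397) (nat_lit 7) (nat_lit 14))
    (@En.n l1998 (nat_lit 420) (nat_lit 8) (nat_lit 11))
    (@En.n l28 (nat_lit 1791) (nat_lit 8) (nat_lit 2))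
    (@En.n l287 (nat_lit 1793) (nat_lit 9) (nat_lit 3))
    (@En.n l2866 (nat_lit 12899) (nat_lit 0) (nat_lit 14))
    (@En.i (nat_lit 1789) (nat_lit 6) (nat_lit 5))
    (@En.n l2866 (nat_lit 4035) (nat_lit 13) (nat_lit 13))
    (@En.i (nat_lit 781) (nat_lit 10) (nat_lit 8))
    (@En.n l1643 (nat_lit 2458) (nat_lit 5) (nat_lit 5))
    (@En.n l3 (nat_lit 1791) (nat_lit 15) (nat_lit 2))))
noncomputable def a112 : T16 Cl := @T16.mk Cl
  (@Cl.mk (nat_lit 0x20005000e000b000200080007000d0005000e00030002000b0008000e0009) (nat_lit 0x67050203007640) (nat_lit 16) Lb.e (@T16.mk En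
    (@En.i (nat_lit 2041) (nat_lit 4) (nat_lit 9))
    (@En.n l396 (nat_lit 1791) (nat_lit 6) (nat_lit 14))
    (@En.i (nat_lit 1795) (nat_lit 6) (nat_lit 8))
    (@En.n l2568 (nat_lit 423) (nat_lit 3) (nat_lit 11))
    (@En.n l28 (nat_lit 1792) (nat_lit 4) (nat_lit 2))
    (@En.i (nat_lit 1796) (nat_lit 5) (nat_lit 3))
    (@En.n l6146 (nat_lit 12904) (nat_lit 0) (nat_lit 14))
    (@En.i (nat_lit 1788) (nat_lit 7) (nat_lit 5))
    (@En.i (nat_lit 4037) (nat_lit 9) (nat_lit 13))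
    (@En.n l644 (nat_lit 637) (nat_lit 14) (nat_lit 7))
    (@En.i (nat_lit 4612) (nat_lit 11) (nat_lit 8))
    (@En.n l3 (nat_lit 1792) (nat_lit 11) (nat_lit 2))
    (@En.i (nat_lit 2463) (nat_lit 13) (nat_lit 11))
    (@En.n l387 (nat_lit 2033) (nat_lit 1) (nat_lit 14))
    (@En.n l640 (nat_lit 2042) (nat_lit 2) (nat_lit 5))
    (@En.n l18 (nat_lit 1792) (nat_lit 15) (nat_lit 2))))
  (@Cl.mk (nat_lit 0x200050008000d000d000600030003000b000e00080002000b0005000e000a) (nat_lit 0x22300052002067) (nat_lit 16) Lb.e (@T16.mk En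
    (@En.n l766 (nat_lit 2462) (nat_lit 12) (nat_lit 10))
    (@En.n l626 (nat_lit 1798) (nat_lit 1) (nat_lit 14))
    (@En.n l1724 (nat_lit 1796) (nat_lit 14) (nat_lit 5))
    (@En.i (nat_lit 1797) (nat_lit 3) (nat_lit 11))
    (@En.n l7 (nat_lit 1793) (nat_lit 4) (nat_lit 2))
    (@En.n l601 (nat_lit 1797) (nat_lit 5) (nat_lit 8))
    (@En.i (nat_lit 3442) (nat_lit 7) (nat_lit 14))
    (@En.i (nat_lit 418) (nat_lit 8) (nat_lit 11))
    (@En.i (nat_lit 1801) (nat_lit 8) (nat_lit 3))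
    (@En.n l1253 (nat_lit 1791) (nat_lit 9) (nat_lit 3))
    (@En.n l117 (nat_lit 1524) (nat_lit 0) (nat_lit 6))
    (@En.n l1722 (nat_lit 1791) (nat_lit 12) (nat_lit 13))
    (@En.i (nat_lit 4036) (nat_lit 13) (nat_lit 13))
    (@En.n l766 (nat_lit 635) (nat_lit 10) (nat_lit 8))
    (@En.n l253 (nat_lit 2452) (nat_lit 13) (nat_lit 5))
    (@En.n l3 (nat_lit 1793) (nat_lit 15) (nat_lit 2))))
  (@Cl.mk (nat_lit 0x2000500080008000d0006000e00030002000c00080008000b0004000e000a) (nat_lit 0x63307006611056) (nat_lit 16) Lb.e (@T16.mk En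
    (@En.n l6042 (nat_lit 2435) (nat_lit 9) (nat_lit 10))
    (@En.n l14903 (nat_lit 1799) (nat_lit 1) (nat_lit 14))
    (@En.n l24221 (nat_lit 2041) (nat_lit 2) (nat_lit 4))
    (@En.i (nat_lit 1730) (nat_lit 3) (nat_lit 11))
    (@En.n l396 (nat_lit 1730) (nat_lit 4) (nat_lit 8))
    (@En.n l1353 (nat_lit 1821) (nat_lit 5) (nat_lit 8))
    (@En.n l2030 (nat_lit 422) (nat_lit 7) (nat_lit 12))
    (@En.n l28 (nat_lit 1794) (nat_lit 7) (nat_lit 2))
    (@En.n l287 (nat_lit 1797) (nat_lit 8) (nat_lit 3))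
    (@En.n l24222 (nat_lit 12893) (nat_lit 0) (nat_lit 14))
    (@En.n l6042 (nat_lit 1724) (nat_lit 2) (nat_lit 6))
    (@En.n l10916 (nat_lit 12356) (nat_lit 12) (nat_lit 13))
    (@En.n l18 (nat_lit 1791) (nat_lit 13) (nat_lit 8))
    (@En.n l6042 (nat_lit 1792) (nat_lit 10) (nat_lit 8))
    (@En.n l24223 (nat_lit 2135) (nat_lit 13) (nat_lit 5))
    (@En.n l3 (nat_lit 1794) (nat_lit 15) (nat_lit 2))))
  (@Cl.mk (nat_lit 0x2000800050008000d0006000e000300020008000e00080002000b000e000a) (nat_lit 0x3501005300076) (nat_lit 16) Lb.e (@T16.mk En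
    (@En.i (nat_lit 2533) (nat_lit 9) (nat_lit 10))
    (@En.i (nat_lit 3667) (nat_lit 4) (nat_lit 14))
    (@En.n l1738 (nat_lit 1799) (nat_lit 2) (nat_lit 11))
    (@En.n l18 (nat_lit 1795) (nat_lit 3) (nat_lit 2))
    (@En.i (nat_lit 1799) (nat_lit 4) (nat_lit 8))
    (@En.n l564 (nat_lit 3382) (nat_lit 6) (nat_lit 14))
    (@En.n l3506 (nat_lit 2014) (nat_lit 6) (nat_lit 8))
    (@En.n l28 (nat_lit 1795) (nat_lit 7) (nat_lit 2))
    (@En.i (nat_lit 1798) (nat_lit 8) (nat_lit 3))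
    (@En.n l6146 (nat_lit 723) (nat_lit 0) (nat_lit 14))
    (@En.i (nat_lit 1790) (nat_lit 2) (nat_lit 6))
    (@En.n l6146 (nat_lit 4041) (nat_lit 12) (nat_lit 13))
    (@En.i (nat_lit 3525) (nat_lit 4) (nat_lit 8))
    (@En.n l420 (nat_lit 1791) (nat_lit 14) (nat_lit 5))
    (@En.i (nat_lit 2430) (nat_lit 6) (nat_lit 8))
    (@En.n l3 (nat_lit 1795) (nat_lit 15) (nat_lit 2))))
  (@Cl.mk (nat_lit 0x20005000e000a000200080007000d000d000600030003000b0008000e0009) (nat_lit 0x67050230005630) (nat_lit 16) Lb.e (@T16.mk En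
    (@En.i (nat_lit 2040) (nat_lit 4) (nat_lit 9))
    (@En.n l972 (nat_lit 1793) (nat_lit 6) (nat_lit 14))
    (@En.i (nat_lit 1798) (nat_lit 6) (nat_lit 8))
    (@En.i (nat_lit 417) (nat_lit 3) (nat_lit 11))
    (@En.i (nat_lit 2154) (nat_lit 4) (nat_lit 3))
    (@En.n l11 (nat_lit 1792) (nat_lit 5) (nat_lit 3))
    (@En.i (nat_lit 1523) (nat_lit 6) (nat_lit 6))
    (@En.n l55 (nat_lit 1792) (nat_lit 8) (nat_lit 13))
    (@En.i (nat_lit 4038) (nat_lit 9) (nat_lit 13))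
    (@En.n l644 (nat_lit 633) (nat_lit 14) (nat_lit 7))
    (@En.n l615 (nat_lit 4610) (nat_lit 11) (nat_lit 8))
    (@En.n l3 (nat_lit 1796) (nat_lit 11) (nat_lit 2))
    (@En.i (nat_lit 2461) (nat_lit 13) (nat_lit 10))
    (@En.n l387 (nat_lit 2030) (nat_lit 1) (nat_lit 14))
    (@En.n l2193 (nat_lit 765) (nat_lit 2) (nat_lit 5))
    (@En.n l18 (nat_lit 1796) (nat_lit 15) (nat_lit 2))))
  (@Cl.mk (nat_lit 0x2000500080008000d000d000700030003000c00080008000b0004000e0009) (nat_lit 0x63340005611066) (nat_lit 16) Lb.e (@T16.mk En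
    (@En.n l14666 (nat_lit 2437) (nat_lit 8) (nat_lit 9))
    (@En.n l14667 (nat_lit 1800) (nat_lit 1) (nat_lit 14))
    (@En.n l14668 (nat_lit 2040) (nat_lit 2) (nat_lit 4))
    (@En.i (nat_lit 1731) (nat_lit 3) (nat_lit 11))
    (@En.n l601 (nat_lit 1731) (nat_lit 4) (nat_lit 8))
    (@En.n l5 (nat_lit 1822) (nat_lit 5) (nat_lit 8))
    (@En.n l2908 (nat_lit 419) (nat_lit 7) (nat_lit 12))
    (@En.n l3027 (nat_lit 2153) (nat_lit 7) (nat_lit 3))
    (@En.n l1253 (nat_lit 1794) (nat_lit 8) (nat_lit 3))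
    (@En.n l2908 (nat_lit 1525) (nat_lit 0) (nat_lit 7))
    (@En.n l1722 (nat_lit 1794) (nat_lit 11) (nat_lit 13))
    (@En.n l622 (nat_lit 12357) (nat_lit 12) (nat_lit 13))
    (@En.n l50 (nat_lit 1793) (nat_lit 13) (nat_lit 8))
    (@En.n l14666 (nat_lit 1796) (nat_lit 10) (nat_lit 8))
    (@En.n l253 (nat_lit 2132) (nat_lit 13) (nat_lit 5))
    (@En.n l3 (nat_lit 1797) (nat_lit 15) (nat_lit 2))))
  (@Cl.mk (nat_lit 0x2000800050008000d000d0007000300030008000e00080002000b000e0009) (nat_lit 0x3560005800056) (nat_lit 16) Lb.e (@T16.mk En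
    (@En.i (nat_lit 2838) (nat_lit 13) (nat_lit 9))
    (@En.i (nat_lit 3666) (nat_lit 4) (nat_lit 14))
    (@En.n l6356 (nat_lit 1800) (nat_lit 2) (nat_lit 11))
    (@En.n l18 (nat_lit 1798) (nat_lit 3) (nat_lit 2))
    (@En.n l4638 (nat_lit 1800) (nat_lit 4) (nat_lit 8))
    (@En.n l6357 (nat_lit 3392) (nat_lit 6) (nat_lit 14))
    (@En.n l2491 (nat_lit 2015) (nat_lit 6) (nat_lit 8))
    (@En.n l973 (nat_lit 2155) (nat_lit 13) (nat_lit 3))
    (@En.n l11 (nat_lit 1795) (nat_lit 8) (nat_lit 3))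
    (@En.i (nat_lit 1526) (nat_lit 0) (nat_lit 7))
    (@En.n l55 (nat_lit 1795) (nat_lit 11) (nat_lit 13))
    (@En.n l6146 (nat_lit 12619) (nat_lit 12) (nat_lit 13))
    (@En.i (nat_lit 3229) (nat_lit 13) (nat_lit 8))
    (@En.n l6295 (nat_lit 1793) (nat_lit 14) (nat_lit 5))
    (@En.n l615 (nat_lit 2198) (nat_lit 11) (nat_lit 8))
    (@En.n l3 (nat_lit 1798) (nat_lit 15) (nat_lit 2))))
  (@Cl.mk (nat_lit 0x20007000500080008000d0007000e00030002000900080008000b000e0009) (nat_lit 0x5460100560944) (nat_lit 16) Lb.e (@T16.mk En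
    (@En.i (nat_lit 2167) (nat_lit 10) (nat_lit 9))
    (@En.i (nat_lit 1892) (nat_lit 4) (nat_lit 14))
    (@En.n l24809 (nat_lit 2166) (nat_lit 2) (nat_lit 11))
    (@En.n l24810 (nat_lit 2166) (nat_lit 3) (nat_lit 8))
    (@En.n l13620 (nat_lit 1825) (nat_lit 14) (nat_lit 8))
    (@En.n l3506 (nat_lit 2013) (nat_lit 5) (nat_lit 9))
    (@En.n l28 (nat_lit 1799) (nat_lit 6) (nat_lit 2))
    (@En.n l4638 (nat_lit 1800) (nat_lit 7) (nat_lit 3))
    (@En.n l24811 (nat_lit 722) (nat_lit 0) (nat_lit 14))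
    (@En.i (nat_lit 1487) (nat_lit 2) (nat_lit 7))
    (@En.n l1266 (nat_lit 12270) (nat_lit 11) (nat_lit 13))
    (@En.n l217 (nat_lit 1795) (nat_lit 12) (nat_lit 8))
    (@En.i (nat_lit 2033) (nat_lit 13) (nat_lit 8))
    (@En.n l4202 (nat_lit 1794) (nat_lit 14) (nat_lit 5))
    (@En.i (nat_lit 2422) (nat_lit 7) (nat_lit 7))
    (@En.n l3 (nat_lit 1799) (nat_lit 15) (nat_lit 2))))
  (@Cl.mk (nat_lit 0x20007000500080008000d000d000800030003000900080008000b000e0008) (nat_lit 0x5457200560955) (nat_lit 16) Lb.e (@T16.mk En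
    (@En.n l15499 (nat_lit 2164) (nat_lit 9) (nat_lit 8))
    (@En.i (nat_lit 1893) (nat_lit 4) (nat_lit 14))
    (@En.n l207 (nat_lit 2159) (nat_lit 2) (nat_lit 11))
    (@En.n l575 (nat_lit 2159) (nat_lit 3) (nat_lit 8))
    (@En.i (nat_lit 1824) (nat_lit 4) (nat_lit 8))
    (@En.n l15500 (nat_lit 2016) (nat_lit 5) (nat_lit 9))
    (@En.n l50 (nat_lit 2156) (nat_lit 6) (nat_lit 3))
    (@En.n l15501 (nat_lit 1799) (nat_lit 7) (nat_lit 3))
    (@En.i (nat_lit 1486) (nat_lit 0) (nat_lit 8))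
    (@En.n l15502 (nat_lit 1799) (nat_lit 10) (nat_lit 13))
    (@En.n l532 (nat_lit 12272) (nat_lit 11) (nat_lit 13))
    (@En.n l15503 (nat_lit 1798) (nat_lit 12) (nat_lit 8))
    (@En.n l15499 (nat_lit 2030) (nat_lit 13) (nat_lit 8))
    (@En.n l8730 (nat_lit 1797) (nat_lit 14) (nat_lit 5))
    (@En.n l15504 (nat_lit 2199) (nat_lit 6) (nat_lit 7))
    (@En.n l17 (nat_lit 1800) (nat_lit 15) (nat_lit 2))))
  (@Cl.mk (nat_lit 0x200050008000e000d000200070003000b000e00080002000b0005000e0009) (nat_lit 0x323000500000b7) (nat_lit 16) Lb.e (@T16.mk En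
    (@En.n l709 (nat_lit 2165) (nat_lit 5) (nat_lit 9))
    (@En.n l3026 (nat_lit 2155) (nat_lit 7) (nat_lit 14))
    (@En.n l1724 (nat_lit 2154) (nat_lit 14) (nat_lit 5))
    (@En.n l3027 (nat_lit 2153) (nat_lit 3) (nat_lit 11))
    (@En.n l7 (nat_lit 1801) (nat_lit 4) (nat_lit 2))
    (@En.n l3028 (nat_lit 2153) (nat_lit 5) (nat_lit 8))
    (@En.i (nat_lit 3444) (nat_lit 7) (nat_lit 14))
    (@En.n l287 (nat_lit 1914) (nat_lit 8) (nat_lit 11))
    (@En.n l11 (nat_lit 1793) (nat_lit 8) (nat_lit 3))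
    (@En.n l712 (nat_lit 1501) (nat_lit 4) (nat_lit 7))
    (@En.n l207 (nat_lit 1801) (nat_lit 10) (nat_lit 2))
    (@En.n l198 (nat_lit 1793) (nat_lit 12) (nat_lit 13))
    (@En.i (nat_lit 12547) (nat_lit 13) (nat_lit 14))
    (@En.n l766 (nat_lit 631) (nat_lit 2) (nat_lit 8))
    (@En.n l253 (nat_lit 5190) (nat_lit 3) (nat_lit 5))
    (@En.n l3 (nat_lit 1801) (nat_lit 15) (nat_lit 2))))
  (@Cl.mk (nat_lit 0x2000a0007000a000a000900090006000900060006000900070007000e0007) (nat_lit 0x1056040300700a0) (nat_lit 16) Lb.e (@T16.mk En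
    (@En.n l7 (nat_lit 1490) (nat_lit 7) (nat_lit 7))
    (@En.n l2724 (nat_lit 4960) (nat_lit 1) (nat_lit 14))
    (@En.n l237 (nat_lit 1803) (nat_lit 9) (nat_lit 7))
    (@En.i (nat_lit 954) (nat_lit 3) (nat_lit 7))
    (@En.n l3 (nat_lit 1807) (nat_lit 4) (nat_lit 9))
    (@En.n l527 (nat_lit 1807) (nat_lit 5) (nat_lit 6))
    (@En.n l8534 (nat_lit 9261) (nat_lit 6) (nat_lit 6))
    (@En.i (nat_lit 1966) (nat_lit 9) (nat_lit 9))
    (@En.n l12175 (nat_lit 1474) (nat_lit 8) (nat_lit 6))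
    (@En.n l12176 (nat_lit 1785) (nat_lit 10) (nat_lit 9))
    (@En.n l8534 (nat_lit 2843) (nat_lit 11) (nat_lit 9))
    (@En.n l13816 (nat_lit 1491) (nat_lit 6) (nat_lit 10))
    (@En.n l8534 (nat_lit 1655) (nat_lit 8) (nat_lit 10))
    (@En.n l13817 (nat_lit 1493) (nat_lit 14) (nat_lit 7))
    (@En.n l4600 (nat_lit 1490) (nat_lit 5) (nat_lit 10))
    (@En.n l18 (nat_lit 1802) (nat_lit 15) (nat_lit 2))))
  (@Cl.mk (nat_lit 0x20007000a00070007000a0007000e000600020009000600090009000e0009) (nat_lit 0x40000a00105651) (nat_lit 16) Lb.e (@T16.mk En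
    (@En.n l77 (nat_lit 1802) (nat_lit 10) (nat_lit 9))
    (@En.n l13287 (nat_lit 5065) (nat_lit 11) (nat_lit 14))
    (@En.n l13288 (nat_lit 1804) (nat_lit 2) (nat_lit 9))
    (@En.n l13289 (nat_lit 1653) (nat_lit 3) (nat_lit 9))
    (@En.n l5185 (nat_lit 1492) (nat_lit 14) (nat_lit 6))
    (@En.n l1129 (nat_lit 1493) (nat_lit 5) (nat_lit 9))
    (@En.n l18 (nat_lit 1803) (nat_lit 6) (nat_lit 2))
    (@En.n l690 (nat_lit 1493) (nat_lit 7) (nat_lit 6))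
    (@En.n l8111 (nat_lit 5192) (nat_lit 9) (nat_lit 14))
    (@En.i (nat_lit 7829) (nat_lit 2) (nat_lit 7))
    (@En.n l3 (nat_lit 1805) (nat_lit 3) (nat_lit 10))
    (@En.n l527 (nat_lit 1805) (nat_lit 4) (nat_lit 7))
    (@En.n l1129 (nat_lit 9259) (nat_lit 5) (nat_lit 7))
    (@En.i (nat_lit 1958) (nat_lit 8) (nat_lit 10))
    (@En.n l175 (nat_lit 1472) (nat_lit 7) (nat_lit 7))
    (@En.n l28 (nat_lit 1803) (nat_lit 15) (nat_lit 2))))
  (@Cl.mk (nat_lit 0x200060009000e00070002000a0008000e00070002000a00060009000e0008) (nat_lit 0x470014b00105c1) (nat_lit 16) Lb.e (@T16.mk En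
    (@En.n l13446 (nat_lit 1491) (nat_lit 5) (nat_lit 8))
    (@En.n l12162 (nat_lit 5067) (nat_lit 12) (nat_lit 14))
    (@En.i (nat_lit 2450) (nat_lit 2) (nat_lit 9))
    (@En.n l13447 (nat_lit 1804) (nat_lit 14) (nat_lit 6))
    (@En.n l13448 (nat_lit 1492) (nat_lit 4) (nat_lit 10))
    (@En.n l18 (nat_lit 1804) (nat_lit 5) (nat_lit 2))
    (@En.n l13449 (nat_lit 1492) (nat_lit 6) (nat_lit 7))
    (@En.n l4589 (nat_lit 5191) (nat_lit 8) (nat_lit 14))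
    (@En.n l13450 (nat_lit 7825) (nat_lit 14) (nat_lit 8))
    (@En.n l13451 (nat_lit 1803) (nat_lit 10) (nat_lit 10))
    (@En.n l11 (nat_lit 1804) (nat_lit 10) (nat_lit 2))
    (@En.n l13452 (nat_lit 1803) (nat_lit 12) (nat_lit 7))
    (@En.n l13453 (nat_lit 9121) (nat_lit 13) (nat_lit 14))
    (@En.n l4589 (nat_lit 1962) (nat_lit 9) (nat_lit 9))
    (@En.i (nat_lit 1483) (nat_lit 3) (nat_lit 6))
    (@En.n l8 (nat_lit 1804) (nat_lit 15) (nat_lit 2))))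
  (@Cl.mk (nat_lit 0x200080006000e00090002000e000a00020008000b0007000a0006000e0005) (nat_lit 0x2096060024080a0) (nat_lit 16) Lb.e (@T16.mk En
    (@En.n l1481 (nat_lit 1806) (nat_lit 8) (nat_lit 5))
    (@En.n l5564 (nat_lit 5195) (nat_lit 10) (nat_lit 14))
    (@En.i (nat_lit 8229) (nat_lit 2) (nat_lit 6))
    (@En.n l521 (nat_lit 13114) (nat_lit 8) (nat_lit 10))
    (@En.n l1129 (nat_lit 9256) (nat_lit 4) (nat_lit 7))
    (@En.i (nat_lit 1960) (nat_lit 7) (nat_lit 11))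
    (@En.n l175 (nat_lit 1471) (nat_lit 12) (nat_lit 8))
    (@En.n l28 (nat_lit 1805) (nat_lit 7) (nat_lit 2))
    (@En.n l77 (nat_lit 1807) (nat_lit 9) (nat_lit 10))
    (@En.n l521 (nat_lit 5060) (nat_lit 1) (nat_lit 14))
    (@En.n l107 (nat_lit 1805) (nat_lit 10) (nat_lit 2))
    (@En.i (nat_lit 1803) (nat_lit 3) (nat_lit 9))
    (@En.n l97 (nat_lit 1811) (nat_lit 5) (nat_lit 14))
    (@En.n l387 (nat_lit 1810) (nat_lit 14) (nat_lit 6))
    (@En.n l585 (nat_lit 1806) (nat_lit 6) (nat_lit 8))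
    (@En.n l18 (nat_lit 1805) (nat_lit 15) (nat_lit 2))))
  (@Cl.mk (nat_lit 0x20008000b000b0008000b00070005000500080005000e00080002000e0009) (nat_lit 0x2456700010850c1) (nat_lit 16) Lb.e (@T16.mk En
    (@En.n l572 (nat_lit 1779) (nat_lit 14) (nat_lit 9))
    (@En.i (nat_lit 5057) (nat_lit 1) (nat_lit 14))
    (@En.n l17 (nat_lit 1806) (nat_lit 2) (nat_lit 2))
    (@En.n l3724 (nat_lit 1493) (nat_lit 3) (nat_lit 8))
    (@En.n l12376 (nat_lit 1812) (nat_lit 5) (nat_lit 14))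
    (@En.n l3726 (nat_lit 1775) (nat_lit 5) (nat_lit 5))
    (@En.n l4951 (nat_lit 1787) (nat_lit 6) (nat_lit 8))
    (@En.n l456 (nat_lit 1787) (nat_lit 7) (nat_lit 5))
    (@En.i (nat_lit 6350) (nat_lit 8) (nat_lit 5))
    (@En.n l572 (nat_lit 819) (nat_lit 6) (nat_lit 7))
    (@En.i (nat_lit 13105) (nat_lit 7) (nat_lit 11))
    (@En.n l3724 (nat_lit 9262) (nat_lit 12) (nat_lit 8))
    (@En.n l185 (nat_lit 1805) (nat_lit 5) (nat_lit 11))
    (@En.n l572 (nat_lit 1957) (nat_lit 7) (nat_lit 11))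
    (@En.i (nat_lit 1480) (nat_lit 12) (nat_lit 8))
    (@En.n l3 (nat_lit 1806) (nat_lit 15) (nat_lit 2))))
  (@Cl.mk (nat_lit 0x200090007000e000a0002000a000a0007000a0006000900060006000e0006) (nat_lit 0x204608503060070) (nat_lit 16) Lb.e (@T16.mk En
    (@En.n l7 (nat_lit 1779) (nat_lit 5) (nat_lit 6))
    (@En.n l2724 (nat_lit 4959) (nat_lit 1) (nat_lit 14))
    (@En.n l237 (nat_lit 1805) (nat_lit 2) (nat_lit 6))
    (@En.i (nat_lit 959) (nat_lit 3) (nat_lit 6))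
    (@En.i (nat_lit 12938) (nat_lit 9) (nat_lit 9))
    (@En.i (nat_lit 8479) (nat_lit 5) (nat_lit 6))
    (@En.i (nat_lit 1968) (nat_lit 8) (nat_lit 10))
    (@En.n l414 (nat_lit 1473) (nat_lit 7) (nat_lit 7))
    (@En.n l134 (nat_lit 1786) (nat_lit 14) (nat_lit 10))
    (@En.n l11 (nat_lit 2841) (nat_lit 10) (nat_lit 10))
    (@En.n l107 (nat_lit 1807) (nat_lit 10) (nat_lit 2))
    (@En.i (nat_lit 1802) (nat_lit 12) (nat_lit 10))
    (@En.n l97 (nat_lit 1813) (nat_lit 13) (nat_lit 14))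
    (@En.n l2730 (nat_lit 1808) (nat_lit 14) (nat_lit 7))
    (@En.n l4600 (nat_lit 1779) (nat_lit 3) (nat_lit 9))
    (@En.n l18 (nat_lit 1807) (nat_lit 15) (nat_lit 2))))
noncomputable def a113 : T16 Cl := @T16.mk Cl
  (@Cl.mk (nat_lit 0x20007000e000a000200090009000c000900060009000400070007000e0007) (nat_lit 0x350011307000a0) (nat_lit 16) Lb.e (@T16.mk En
    (@En.n l11550 (nat_lit 1776) (nat_lit 4) (nat_lit 7))
    (@En.n l2967 (nat_lit 5148) (nat_lit 6) (nat_lit 14))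
    (@En.n l4262 (nat_lit 1810) (nat_lit 2) (nat_lit 7))
    (@En.n l3226 (nat_lit 2124) (nat_lit 3) (nat_lit 7))
    (@En.n l3229 (nat_lit 1784) (nat_lit 8) (nat_lit 4))
    (@En.n l4565 (nat_lit 12929) (nat_lit 9) (nat_lit 9))
    (@En.n l9288 (nat_lit 6349) (nat_lit 6) (nat_lit 6))
    (@En.n l3229 (nat_lit 5461) (nat_lit 12) (nat_lit 9))
    (@En.n l4263 (nat_lit 1787) (nat_lit 9) (nat_lit 12))
    (@En.n l1347 (nat_lit 1787) (nat_lit 10) (nat_lit 9))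
    (@En.n l11511 (nat_lit 8827) (nat_lit 11) (nat_lit 9))
    (@En.n l107 (nat_lit 1808) (nat_lit 11) (nat_lit 2))
    (@En.n l11551 (nat_lit 1493) (nat_lit 13) (nat_lit 10))
    (@En.n l97 (nat_lit 1866) (nat_lit 1) (nat_lit 14))
    (@En.n l11552 (nat_lit 1434) (nat_lit 2) (nat_lit 7))
    (@En.n l17 (nat_lit 1808) (nat_lit 15) (nat_lit 2))))
  (@Cl.mk (nat_lit 0x20008000e00080002000e00090002000c0008000b000800040007000e0005) (nat_lit 0x1850510335300b0) (nat_lit 16) Lb.e (@T16.mk En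
    (@En.n l7 (nat_lit 1785) (nat_lit 7) (nat_lit 5))
    (@En.n l1638 (nat_lit 10035) (nat_lit 1) (nat_lit 14))
    (@En.n l4799 (nat_lit 817) (nat_lit 2) (nat_lit 7))
    (@En.n l5271 (nat_lit 5774) (nat_lit 3) (nat_lit 4))
    (@En.n l1568 (nat_lit 6756) (nat_lit 4) (nat_lit 8))
    (@En.n l4799 (nat_lit 2103) (nat_lit 13) (nat_lit 11))
    (@En.n l5272 (nat_lit 1805) (nat_lit 6) (nat_lit 8))
    (@En.n l5273 (nat_lit 1784) (nat_lit 12) (nat_lit 12))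
    (@En.n l3 (nat_lit 1809) (nat_lit 8) (nat_lit 2))
    (@En.n l5274 (nat_lit 1784) (nat_lit 14) (nat_lit 9))
    (@En.i (nat_lit 5059) (nat_lit 1) (nat_lit 14))
    (@En.n l17 (nat_lit 1809) (nat_lit 11) (nat_lit 2))
    (@En.n l5275 (nat_lit 1491) (nat_lit 13) (nat_lit 8))
    (@En.i (nat_lit 1678) (nat_lit 1) (nat_lit 14))
    (@En.n l252 (nat_lit 1785) (nat_lit 5) (nat_lit 8))
    (@En.n l50 (nat_lit 1809) (nat_lit 15) (nat_lit 2))))
  (@Cl.mk (nat_lit 0x20006000e00090002000e00090002000c000a0007000a00040007000e0006) (nat_lit 0x350510240800b0) (nat_lit 16) Lb.e (@T16.mk En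
    (@En.n l4028 (nat_lit 1775) (nat_lit 7) (nat_lit 6))
    (@En.n l4307 (nat_lit 5071) (nat_lit 1) (nat_lit 14))
    (@En.i (nat_lit 2125) (nat_lit 2) (nat_lit 7))
    (@En.n l540 (nat_lit 1809) (nat_lit 3) (nat_lit 4))
    (@En.n l140 (nat_lit 12930) (nat_lit 8) (nat_lit 10))
    (@En.n l330 (nat_lit 6758) (nat_lit 5) (nat_lit 7))
    (@En.n l564 (nat_lit 7831) (nat_lit 14) (nat_lit 10))
    (@En.n l1333 (nat_lit 1808) (nat_lit 8) (nat_lit 12))
    (@En.n l28 (nat_lit 1810) (nat_lit 8) (nat_lit 2))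
    (@En.n l1334 (nat_lit 1808) (nat_lit 10) (nat_lit 9))
    (@En.n l4308 (nat_lit 10093) (nat_lit 1) (nat_lit 14))
    (@En.n l107 (nat_lit 1810) (nat_lit 11) (nat_lit 2))
    (@En.n l4309 (nat_lit 1492) (nat_lit 13) (nat_lit 9))
    (@En.n l3497 (nat_lit 1868) (nat_lit 1) (nat_lit 14))
    (@En.n l4310 (nat_lit 1484) (nat_lit 5) (nat_lit 6))
    (@En.n l17 (nat_lit 1810) (nat_lit 15) (nat_lit 2))))
  (@Cl.mk (nat_lit 0x20008000b000800070006000e000500020008000e000800020009000e000a) (nat_lit 0x14200a000850760) (nat_lit 16) Lb.e (@T16.mk En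
    (@En.n l77 (nat_lit 1813) (nat_lit 9) (nat_lit 10))
    (@En.n l1917 (nat_lit 1809) (nat_lit 10) (nat_lit 14))
    (@En.n l107 (nat_lit 1803) (nat_lit 2) (nat_lit 9))
    (@En.n l3 (nat_lit 1811) (nat_lit 3) (nat_lit 2))
    (@En.i (nat_lit 1656) (nat_lit 4) (nat_lit 8))
    (@En.n l290 (nat_lit 1679) (nat_lit 6) (nat_lit 14))
    (@En.n l1738 (nat_lit 1812) (nat_lit 6) (nat_lit 8))
    (@En.n l18 (nat_lit 1811) (nat_lit 7) (nat_lit 2))
    (@En.i (nat_lit 1812) (nat_lit 8) (nat_lit 5))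
    (@En.i (nat_lit 5708) (nat_lit 10) (nat_lit 14))
    (@En.i (nat_lit 816) (nat_lit 2) (nat_lit 6))
    (@En.i (nat_lit 868) (nat_lit 3) (nat_lit 7))
    (@En.n l916 (nat_lit 6998) (nat_lit 4) (nat_lit 8))
    (@En.i (nat_lit 4658) (nat_lit 10) (nat_lit 11))
    (@En.n l175 (nat_lit 959) (nat_lit 6) (nat_lit 8))
    (@En.n l28 (nat_lit 1811) (nat_lit 15) (nat_lit 2))))
  (@Cl.mk (nat_lit 0x20008000b000b000900080007000500050008000e000700020008000e0009) (nat_lit 0x105310006700670) (nat_lit 16) Lb.e (@T16.mk En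
    (@En.i (nat_lit 1814) (nat_lit 13) (nat_lit 9))
    (@En.n l13290 (nat_lit 1785) (nat_lit 1) (nat_lit 14))
    (@En.n l13291 (nat_lit 1493) (nat_lit 2) (nat_lit 8))
    (@En.n l3 (nat_lit 1812) (nat_lit 3) (nat_lit 2))
    (@En.n l5072 (nat_lit 1658) (nat_lit 4) (nat_lit 7))
    (@En.n l339 (nat_lit 1607) (nat_lit 6) (nat_lit 14))
    (@En.n l5474 (nat_lit 1815) (nat_lit 2) (nat_lit 8))
    (@En.n l5475 (nat_lit 1815) (nat_lit 3) (nat_lit 5))
    (@En.n l13292 (nat_lit 6770) (nat_lit 4) (nat_lit 5))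
    (@En.n l8936 (nat_lit 813) (nat_lit 5) (nat_lit 7))
    (@En.i (nat_lit 867) (nat_lit 6) (nat_lit 8))
    (@En.n l685 (nat_lit 6489) (nat_lit 12) (nat_lit 9))
    (@En.n l217 (nat_lit 1811) (nat_lit 13) (nat_lit 11))
    (@En.i (nat_lit 1944) (nat_lit 10) (nat_lit 11))
    (@En.n l1599 (nat_lit 952) (nat_lit 11) (nat_lit 8))
    (@En.n l28 (nat_lit 1812) (nat_lit 15) (nat_lit 2))))
  (@Cl.mk (nat_lit 0x20009000e00090002000a000a000a0007000a0007000600060006000e0006) (nat_lit 0x350780070000b0) (nat_lit 16) Lb.e (@T16.mk En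
    (@En.n l7 (nat_lit 1814) (nat_lit 4) (nat_lit 6))
    (@En.n l2724 (nat_lit 4899) (nat_lit 1) (nat_lit 14))
    (@En.n l237 (nat_lit 1811) (nat_lit 10) (nat_lit 6))
    (@En.n l575 (nat_lit 1972) (nat_lit 3) (nat_lit 6))
    (@En.i (nat_lit 3116) (nat_lit 4) (nat_lit 6))
    (@En.n l916 (nat_lit 2313) (nat_lit 5) (nat_lit 7))
    (@En.i (nat_lit 1950) (nat_lit 11) (nat_lit 10))
    (@En.n l414 (nat_lit 1623) (nat_lit 7) (nat_lit 7))
    (@En.n l134 (nat_lit 4630) (nat_lit 9) (nat_lit 10))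
    (@En.n l577 (nat_lit 1864) (nat_lit 6) (nat_lit 10))
    (@En.n l107 (nat_lit 1802) (nat_lit 11) (nat_lit 10))
    (@En.n l3 (nat_lit 1813) (nat_lit 11) (nat_lit 2))
    (@En.n l3279 (nat_lit 1659) (nat_lit 13) (nat_lit 9))
    (@En.i (nat_lit 1534) (nat_lit 1) (nat_lit 14))
    (@En.n l4600 (nat_lit 1814) (nat_lit 2) (nat_lit 9))
    (@En.n l18 (nat_lit 1813) (nat_lit 15) (nat_lit 2))))
  (@Cl.mk (nat_lit 0x20009000900090007000a000a0008000700070007000600060009000e0008) (nat_lit 0x670018300000784) (nat_lit 16) Lb.e (@T16.mk En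
    (@En.n l26981 (nat_lit 1660) (nat_lit 4) (nat_lit 8))
    (@En.n l2239 (nat_lit 1533) (nat_lit 1) (nat_lit 14))
    (@En.n l2114 (nat_lit 1858) (nat_lit 2) (nat_lit 9))
    (@En.n l1959 (nat_lit 1858) (nat_lit 3) (nat_lit 6))
    (@En.n l3787 (nat_lit 3146) (nat_lit 4) (nat_lit 6))
    (@En.n l55 (nat_lit 1812) (nat_lit 9) (nat_lit 7))
    (@En.n l23932 (nat_lit 1970) (nat_lit 9) (nat_lit 7))
    (@En.i (nat_lit 3115) (nat_lit 7) (nat_lit 7))
    (@En.n l688 (nat_lit 2596) (nat_lit 9) (nat_lit 8))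
    (@En.n l2337 (nat_lit 1813) (nat_lit 6) (nat_lit 10))
    (@En.i (nat_lit 1613) (nat_lit 11) (nat_lit 10))
    (@En.n l2019 (nat_lit 1621) (nat_lit 12) (nat_lit 7))
    (@En.n l2281 (nat_lit 4631) (nat_lit 7) (nat_lit 9))
    (@En.n l23933 (nat_lit 1859) (nat_lit 7) (nat_lit 9))
    (@En.n l107 (nat_lit 1490) (nat_lit 2) (nat_lit 9))
    (@En.n l3 (nat_lit 1814) (nat_lit 15) (nat_lit 2))))
  (@Cl.mk (nat_lit 0x20007000e000800020008000e000b0002000a0009000800050008000e0006) (nat_lit 0xb0012104110580) (nat_lit 16) Lb.e (@T16.mk En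
    (@En.n l4110 (nat_lit 1932) (nat_lit 4) (nat_lit 6))
    (@En.n l1643 (nat_lit 1610) (nat_lit 6) (nat_lit 14))
    (@En.i (nat_lit 12947) (nat_lit 10) (nat_lit 8))
    (@En.n l278 (nat_lit 6769) (nat_lit 3) (nat_lit 5))
    (@En.n l217 (nat_lit 810) (nat_lit 13) (nat_lit 8))
    (@En.n l1347 (nat_lit 873) (nat_lit 5) (nat_lit 9))
    (@En.i (nat_lit 6487) (nat_lit 11) (nat_lit 10))
    (@En.n l107 (nat_lit 1815) (nat_lit 7) (nat_lit 2))
    (@En.n l13383 (nat_lit 1812) (nat_lit 13) (nat_lit 11))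
    (@En.n l97 (nat_lit 1943) (nat_lit 10) (nat_lit 14))
    (@En.n l1501 (nat_lit 953) (nat_lit 11) (nat_lit 8))
    (@En.n l17 (nat_lit 1815) (nat_lit 11) (nat_lit 2))
    (@En.n l1347 (nat_lit 1858) (nat_lit 13) (nat_lit 8))
    (@En.n l5 (nat_lit 1786) (nat_lit 6) (nat_lit 14))
    (@En.i (nat_lit 1808) (nat_lit 2) (nat_lit 7))
    (@En.n l7 (nat_lit 1815) (nat_lit 15) (nat_lit 2))))
  (@Cl.mk (nat_lit 0x2000900030008000e00090002000e00070002000d000800070003000e000d) (nat_lit 0x700510800540026) (nat_lit 16) Lb.e (@T16.mk En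
    (@En.n l3654 (nat_lit 1233) (nat_lit 10) (nat_lit 13))
    (@En.n l3655 (nat_lit 5374) (nat_lit 1) (nat_lit 14))
    (@En.n l11 (nat_lit 1231) (nat_lit 2) (nat_lit 3))
    (@En.n l3656 (nat_lit 1838) (nat_lit 3) (nat_lit 7))
    (@En.i (nat_lit 3216) (nat_lit 4) (nat_lit 8))
    (@En.n l1722 (nat_lit 1594) (nat_lit 6) (nat_lit 13))
    (@En.n l17 (nat_lit 1816) (nat_lit 6) (nat_lit 2))
    (@En.i (nat_lit 1100) (nat_lit 14) (nat_lit 7))
    (@En.n l1531 (nat_lit 2771) (nat_lit 1) (nat_lit 14))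
    (@En.n l3 (nat_lit 1816) (nat_lit 9) (nat_lit 2))
    (@En.n l3657 (nat_lit 1239) (nat_lit 11) (nat_lit 9))
    (@En.n l3658 (nat_lit 1387) (nat_lit 12) (nat_lit 14))
    (@En.n l3659 (nat_lit 10035) (nat_lit 13) (nat_lit 8))
    (@En.n l2073 (nat_lit 1233) (nat_lit 6) (nat_lit 3))
    (@En.i (nat_lit 1725) (nat_lit 0) (nat_lit 9))
    (@En.n l7 (nat_lit 1816) (nat_lit 15) (nat_lit 2))))
  (@Cl.mk (nat_lit 0x20008000e00090002000e00090002000d000800070003000d0007000e0003) (nat_lit 0x91061064006070) (nat_lit 16) Lb.e (@T16.mk En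
    (@En.i (nat_lit 1233) (nat_lit 7) (nat_lit 3))
    (@En.i (nat_lit 13712) (nat_lit 0) (nat_lit 14))
    (@En.i (nat_lit 1723) (nat_lit 2) (nat_lit 7))
    (@En.n l8100 (nat_lit 6563) (nat_lit 11) (nat_lit 13))
    (@En.n l7 (nat_lit 1230) (nat_lit 4) (nat_lit 3))
    (@En.n l8909 (nat_lit 1833) (nat_lit 0) (nat_lit 7))
    (@En.n l8100 (nat_lit 2011) (nat_lit 14) (nat_lit 8))
    (@En.n l18579 (nat_lit 352) (nat_lit 8) (nat_lit 13))
    (@En.n l11 (nat_lit 1817) (nat_lit 8) (nat_lit 2))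
    (@En.i (nat_lit 622) (nat_lit 14) (nat_lit 9))
    (@En.n l18580 (nat_lit 1819) (nat_lit 1) (nat_lit 14))
    (@En.n l3 (nat_lit 1817) (nat_lit 11) (nat_lit 2))
    (@En.n l6068 (nat_lit 1241) (nat_lit 13) (nat_lit 9))
    (@En.n l18581 (nat_lit 1830) (nat_lit 1) (nat_lit 14))
    (@En.i (nat_lit 12819) (nat_lit 5) (nat_lit 8))
    (@En.n l17 (nat_lit 1817) (nat_lit 15) (nat_lit 2))))
  (@Cl.mk (nat_lit 0x20005000d000800070003000d000d0009000300030008000b0009000e0007) (nat_lit 0x2006820061070) (nat_lit 16) Lb.e (@T16.mk En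
    (@En.n l19359 (nat_lit 2800) (nat_lit 5) (nat_lit 7))
    (@En.n l3 (nat_lit 1829) (nat_lit 1) (nat_lit 14))
    (@En.n l3 (nat_lit 1842) (nat_lit 2) (nat_lit 9))
    (@En.n l919 (nat_lit 974) (nat_lit 3) (nat_lit 11))
    (@En.n l19367 (nat_lit 8351) (nat_lit 4) (nat_lit 8))
    (@En.n l50 (nat_lit 2771) (nat_lit 5) (nat_lit 3))
    (@En.n l9323 (nat_lit 1819) (nat_lit 6) (nat_lit 3))
    (@En.n l6116 (nat_lit 1542) (nat_lit 0) (nat_lit 9))
    (@En.n l19368 (nat_lit 1819) (nat_lit 9) (nat_lit 13))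
    (@En.n l5042 (nat_lit 11931) (nat_lit 10) (nat_lit 13))
    (@En.n l11 (nat_lit 1823) (nat_lit 10) (nat_lit 3))
    (@En.n l19369 (nat_lit 1728) (nat_lit 12) (nat_lit 7))
    (@En.n l7174 (nat_lit 1822) (nat_lit 13) (nat_lit 8))
    (@En.n l9930 (nat_lit 1827) (nat_lit 14) (nat_lit 13))
    (@En.n l3106 (nat_lit 4011) (nat_lit 13) (nat_lit 5))
    (@En.n l17 (nat_lit 1818) (nat_lit 15) (nat_lit 2))))
  (@Cl.mk (nat_lit 0x20005000d000800070003000d0008000e000300020008000b0009000e0008) (nat_lit 0x2007190061054) (nat_lit 16) Lb.e (@T16.mk En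
    (@En.n l22408 (nat_lit 2807) (nat_lit 11) (nat_lit 8))
    (@En.n l16614 (nat_lit 1828) (nat_lit 12) (nat_lit 14))
    (@En.n l22409 (nat_lit 2698) (nat_lit 13) (nat_lit 9))
    (@En.n l22410 (nat_lit 1596) (nat_lit 3) (nat_lit 11))
    (@En.n l22411 (nat_lit 8227) (nat_lit 4) (nat_lit 8))
    (@En.n l28 (nat_lit 1819) (nat_lit 5) (nat_lit 2))
    (@En.n l22412 (nat_lit 1818) (nat_lit 6) (nat_lit 3))
    (@En.n l12296 (nat_lit 13436) (nat_lit 0) (nat_lit 14))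
    (@En.n l22413 (nat_lit 1094) (nat_lit 2) (nat_lit 8))
    (@En.n l3340 (nat_lit 11927) (nat_lit 10) (nat_lit 13))
    (@En.n l5 (nat_lit 1820) (nat_lit 10) (nat_lit 3))
    (@En.n l22414 (nat_lit 1729) (nat_lit 12) (nat_lit 7))
    (@En.n l50 (nat_lit 1821) (nat_lit 13) (nat_lit 8))
    (@En.n l22414 (nat_lit 1826) (nat_lit 8) (nat_lit 13))
    (@En.n l3340 (nat_lit 7390) (nat_lit 8) (nat_lit 5))
    (@En.n l3 (nat_lit 1819) (nat_lit 15) (nat_lit 2))))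
  (@Cl.mk (nat_lit 0x20005000d000600090003000d0008000e000300020007000b000a000e0008) (nat_lit 0x507180001055) (nat_lit 16) Lb.e (@T16.mk En
    (@En.n l34355 (nat_lit 2786) (nat_lit 11) (nat_lit 8))
    (@En.n l12369 (nat_lit 2783) (nat_lit 12) (nat_lit 14))
    (@En.n l12369 (nat_lit 2782) (nat_lit 13) (nat_lit 10))
    (@En.n l7184 (nat_lit 972) (nat_lit 3) (nat_lit 11))
    (@En.n l8853 (nat_lit 8237) (nat_lit 4) (nat_lit 7))
    (@En.n l28 (nat_lit 1820) (nat_lit 5) (nat_lit 2))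
    (@En.n l9213 (nat_lit 1823) (nat_lit 6) (nat_lit 3))
    (@En.n l12561 (nat_lit 13437) (nat_lit 0) (nat_lit 14))
    (@En.n l8853 (nat_lit 1091) (nat_lit 2) (nat_lit 8))
    (@En.i (nat_lit 12482) (nat_lit 10) (nat_lit 13))
    (@En.n l2593 (nat_lit 1819) (nat_lit 10) (nat_lit 3))
    (@En.n l699 (nat_lit 3388) (nat_lit 12) (nat_lit 9))
    (@En.n l2369 (nat_lit 2930) (nat_lit 13) (nat_lit 6))
    (@En.i (nat_lit 1825) (nat_lit 8) (nat_lit 13))
    (@En.n l2642 (nat_lit 7273) (nat_lit 8) (nat_lit 5))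
    (@En.n l3 (nat_lit 1820) (nat_lit 15) (nat_lit 2))))
  (@Cl.mk (nat_lit 0x20005000800060009000d0007000e0003000200080007000b000a000e0009) (nat_lit 0x10460800502065) (nat_lit 16) Lb.e (@T16.mk En
    (@En.n l387 (nat_lit 2804) (nat_lit 10) (nat_lit 9))
    (@En.i (nat_lit 1825) (nat_lit 11) (nat_lit 14))
    (@En.n l6282 (nat_lit 1826) (nat_lit 12) (nat_lit 10))
    (@En.i (nat_lit 1819) (nat_lit 3) (nat_lit 11))
    (@En.n l564 (nat_lit 1820) (nat_lit 4) (nat_lit 7))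
    (@En.i (nat_lit 8396) (nat_lit 5) (nat_lit 8))
    (@En.n l28 (nat_lit 1821) (nat_lit 6) (nat_lit 2))
    (@En.n l287 (nat_lit 1822) (nat_lit 7) (nat_lit 3))
    (@En.i (nat_lit 13323) (nat_lit 0) (nat_lit 14))
    (@En.i (nat_lit 1095) (nat_lit 2) (nat_lit 7))
    (@En.n l3340 (nat_lit 4181) (nat_lit 11) (nat_lit 13))
    (@En.i (nat_lit 3372) (nat_lit 12) (nat_lit 9))
    (@En.n l3178 (nat_lit 2043) (nat_lit 13) (nat_lit 6))
    (@En.n l387 (nat_lit 1795) (nat_lit 14) (nat_lit 8))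
    (@En.n l3340 (nat_lit 7389) (nat_lit 7) (nat_lit 5))
    (@En.n l3 (nat_lit 1821) (nat_lit 15) (nat_lit 2))))
  (@Cl.mk (nat_lit 0x20005000800060009000d000d00080003000300080007000b000a000e0008) (nat_lit 0x10457200502085) (nat_lit 16) Lb.e (@T16.mk En
    (@En.n l5787 (nat_lit 2799) (nat_lit 9) (nat_lit 8))
    (@En.n l14341 (nat_lit 1824) (nat_lit 1) (nat_lit 14))
    (@En.n l14341 (nat_lit 1827) (nat_lit 2) (nat_lit 10))
    (@En.n l14342 (nat_lit 1818) (nat_lit 3) (nat_lit 11))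
    (@En.n l14343 (nat_lit 1823) (nat_lit 4) (nat_lit 7))
    (@En.i (nat_lit 8410) (nat_lit 5) (nat_lit 8))
    (@En.n l2407 (nat_lit 2770) (nat_lit 6) (nat_lit 3))
    (@En.n l1253 (nat_lit 1821) (nat_lit 7) (nat_lit 3))
    (@En.n l14343 (nat_lit 1543) (nat_lit 0) (nat_lit 8))
    (@En.n l1722 (nat_lit 1821) (nat_lit 10) (nat_lit 13))
    (@En.n l1203 (nat_lit 4171) (nat_lit 11) (nat_lit 13))
    (@En.n l889 (nat_lit 3367) (nat_lit 12) (nat_lit 9))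
    (@En.n l992 (nat_lit 761) (nat_lit 13) (nat_lit 6))
    (@En.n l626 (nat_lit 1798) (nat_lit 14) (nat_lit 8))
    (@En.n l1203 (nat_lit 4012) (nat_lit 13) (nat_lit 5))
    (@En.n l3 (nat_lit 1822) (nat_lit 15) (nat_lit 2))))
  (@Cl.mk (nat_lit 0x20005000d000600090003000d000d0009000300030007000b000a000e0007) (nat_lit 0x506820001270) (nat_lit 16) Lb.e (@T16.mk En
    (@En.n l19359 (nat_lit 2801) (nat_lit 5) (nat_lit 7))
    (@En.n l3 (nat_lit 2776) (nat_lit 1) (nat_lit 14))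
    (@En.n l3 (nat_lit 2777) (nat_lit 2) (nat_lit 10))
    (@En.n l3549 (nat_lit 970) (nat_lit 3) (nat_lit 11))
    (@En.i (nat_lit 8359) (nat_lit 4) (nat_lit 7))
    (@En.n l50 (nat_lit 2773) (nat_lit 5) (nat_lit 3))
    (@En.n l12099 (nat_lit 1820) (nat_lit 6) (nat_lit 3))
    (@En.i (nat_lit 1547) (nat_lit 0) (nat_lit 9))
    (@En.n l8913 (nat_lit 1820) (nat_lit 9) (nat_lit 13))
    (@En.n l17733 (nat_lit 12480) (nat_lit 10) (nat_lit 13))
    (@En.i (nat_lit 1818) (nat_lit 10) (nat_lit 3))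
    (@En.n l17725 (nat_lit 3379) (nat_lit 12) (nat_lit 9))
    (@En.i (nat_lit 2928) (nat_lit 13) (nat_lit 6))
    (@En.n l5035 (nat_lit 1824) (nat_lit 14) (nat_lit 13))
    (@En.n l3106 (nat_lit 7271) (nat_lit 13) (nat_lit 5))
    (@En.n l17 (nat_lit 1823) (nat_lit 15) (nat_lit 2))))
noncomputable def a114 : T16 Cl := @T16.mk Cl
  (@Cl.mk (nat_lit 0x2000d0005000800030009000d000d00090003000300080007000b000e0007) (nat_lit 0xb00056820050270) (nat_lit 16) Lb.e (@T16.mk En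
    (@En.n l19359 (nat_lit 2797) (nat_lit 4) (nat_lit 7))
    (@En.i (nat_lit 1208) (nat_lit 4) (nat_lit 14))
    (@En.n l207 (nat_lit 1829) (nat_lit 2) (nat_lit 11))
    (@En.i (nat_lit 2776) (nat_lit 3) (nat_lit 7))
    (@En.n l532 (nat_lit 8412) (nat_lit 4) (nat_lit 8))
    (@En.n l50 (nat_lit 2769) (nat_lit 13) (nat_lit 3))
    (@En.n l7109 (nat_lit 1825) (nat_lit 0) (nat_lit 3))
    (@En.i (nat_lit 1545) (nat_lit 0) (nat_lit 9))
    (@En.n l28477 (nat_lit 1825) (nat_lit 3) (nat_lit 13))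
    (@En.n l532 (nat_lit 4170) (nat_lit 10) (nat_lit 13))
    (@En.n l28478 (nat_lit 3371) (nat_lit 11) (nat_lit 9))
    (@En.n l117 (nat_lit 1827) (nat_lit 11) (nat_lit 3))
    (@En.n l12224 (nat_lit 3666) (nat_lit 0) (nat_lit 8))
    (@En.n l7174 (nat_lit 1822) (nat_lit 14) (nat_lit 5))
    (@En.n l28479 (nat_lit 7284) (nat_lit 8) (nat_lit 13))
    (@En.n l17 (nat_lit 1824) (nat_lit 15) (nat_lit 2))))
  (@Cl.mk (nat_lit 0x200080007000b000e00080002000d0005000800030009000d0008000e0003) (nat_lit 0x500540b00057190) (nat_lit 16) Lb.e (@T16.mk En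
    (@En.n l22407 (nat_lit 1824) (nat_lit 6) (nat_lit 3))
    (@En.n l12294 (nat_lit 13322) (nat_lit 0) (nat_lit 14))
    (@En.n l21830 (nat_lit 1093) (nat_lit 2) (nat_lit 8))
    (@En.n l3334 (nat_lit 4173) (nat_lit 10) (nat_lit 13))
    (@En.i (nat_lit 3387) (nat_lit 11) (nat_lit 9))
    (@En.n l18651 (nat_lit 1826) (nat_lit 5) (nat_lit 3))
    (@En.n l387 (nat_lit 3667) (nat_lit 0) (nat_lit 8))
    (@En.n l17 (nat_lit 1821) (nat_lit 14) (nat_lit 5))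
    (@En.n l2642 (nat_lit 7283) (nat_lit 9) (nat_lit 13))
    (@En.n l3 (nat_lit 1825) (nat_lit 9) (nat_lit 2))
    (@En.n l1003 (nat_lit 2808) (nat_lit 11) (nat_lit 8))
    (@En.n l21830 (nat_lit 1210) (nat_lit 4) (nat_lit 14))
    (@En.n l16614 (nat_lit 1828) (nat_lit 13) (nat_lit 11))
    (@En.n l21830 (nat_lit 2783) (nat_lit 14) (nat_lit 7))
    (@En.n l3334 (nat_lit 8378) (nat_lit 4) (nat_lit 8))
    (@En.n l28 (nat_lit 1825) (nat_lit 15) (nat_lit 2))))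
  (@Cl.mk (nat_lit 0x200090007000a000e00080002000d0007000600030009000d0008000e0003) (nat_lit 0x508540b00057190) (nat_lit 16) Lb.e (@T16.mk En
    (@En.n l8104 (nat_lit 1827) (nat_lit 6) (nat_lit 3))
    (@En.n l3859 (nat_lit 13321) (nat_lit 0) (nat_lit 14))
    (@En.n l12741 (nat_lit 1096) (nat_lit 2) (nat_lit 8))
    (@En.i (nat_lit 11016) (nat_lit 10) (nat_lit 13))
    (@En.n l13711 (nat_lit 1821) (nat_lit 11) (nat_lit 9))
    (@En.n l13712 (nat_lit 1825) (nat_lit 5) (nat_lit 3))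
    (@En.i (nat_lit 2045) (nat_lit 0) (nat_lit 6))
    (@En.n l18710 (nat_lit 1799) (nat_lit 14) (nat_lit 7))
    (@En.n l24877 (nat_lit 7293) (nat_lit 9) (nat_lit 13))
    (@En.n l3 (nat_lit 1826) (nat_lit 9) (nat_lit 2))
    (@En.n l34191 (nat_lit 2824) (nat_lit 11) (nat_lit 8))
    (@En.n l12741 (nat_lit 1207) (nat_lit 12) (nat_lit 14))
    (@En.n l25650 (nat_lit 2700) (nat_lit 13) (nat_lit 10))
    (@En.n l12741 (nat_lit 2782) (nat_lit 14) (nat_lit 7))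
    (@En.n l3324 (nat_lit 8424) (nat_lit 4) (nat_lit 9))
    (@En.n l28 (nat_lit 1826) (nat_lit 15) (nat_lit 2))))
  (@Cl.mk (nat_lit 0x2000d0007000600030009000d000d00090003000300090007000a000e0007) (nat_lit 0xb00056820050870) (nat_lit 16) Lb.e (@T16.mk En
    (@En.n l6250 (nat_lit 2798) (nat_lit 4) (nat_lit 7))
    (@En.i (nat_lit 1205) (nat_lit 1) (nat_lit 14))
    (@En.n l7622 (nat_lit 2699) (nat_lit 2) (nat_lit 10))
    (@En.i (nat_lit 2777) (nat_lit 3) (nat_lit 7))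
    (@En.n l8008 (nat_lit 8411) (nat_lit 4) (nat_lit 9))
    (@En.n l50 (nat_lit 2768) (nat_lit 13) (nat_lit 3))
    (@En.n l10262 (nat_lit 1826) (nat_lit 0) (nat_lit 3))
    (@En.i (nat_lit 1544) (nat_lit 0) (nat_lit 9))
    (@En.n l12221 (nat_lit 1826) (nat_lit 3) (nat_lit 13))
    (@En.n l532 (nat_lit 4174) (nat_lit 10) (nat_lit 13))
    (@En.n l28487 (nat_lit 1822) (nat_lit 11) (nat_lit 9))
    (@En.n l152 (nat_lit 1824) (nat_lit 11) (nat_lit 3))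
    (@En.n l6168 (nat_lit 2047) (nat_lit 0) (nat_lit 6))
    (@En.n l97 (nat_lit 1800) (nat_lit 14) (nat_lit 7))
    (@En.n l7797 (nat_lit 7294) (nat_lit 8) (nat_lit 13))
    (@En.n l17 (nat_lit 1827) (nat_lit 15) (nat_lit 2))))
  (@Cl.mk (nat_lit 0x20008000b000e00070002000c0005000d000800040003000d0009000e0003) (nat_lit 0x5940000210081a0) (nat_lit 16) Lb.e (@T16.mk En
    (@En.n l7 (nat_lit 1829) (nat_lit 5) (nat_lit 3))
    (@En.n l9758 (nat_lit 13320) (nat_lit 0) (nat_lit 14))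
    (@En.i (nat_lit 1092) (nat_lit 2) (nat_lit 9))
    (@En.n l828 (nat_lit 4180) (nat_lit 9) (nat_lit 13))
    (@En.n l11 (nat_lit 2783) (nat_lit 4) (nat_lit 3))
    (@En.n l3968 (nat_lit 2700) (nat_lit 5) (nat_lit 4))
    (@En.n l7109 (nat_lit 1825) (nat_lit 6) (nat_lit 8))
    (@En.n l3478 (nat_lit 1207) (nat_lit 8) (nat_lit 13))
    (@En.n l9323 (nat_lit 1819) (nat_lit 14) (nat_lit 5))
    (@En.n l9759 (nat_lit 7281) (nat_lit 10) (nat_lit 12))
    (@En.n l17 (nat_lit 1828) (nat_lit 10) (nat_lit 2))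
    (@En.n l9759 (nat_lit 2787) (nat_lit 12) (nat_lit 7))
    (@En.i (nat_lit 684) (nat_lit 13) (nat_lit 14))
    (@En.n l9759 (nat_lit 2726) (nat_lit 7) (nat_lit 11))
    (@En.i (nat_lit 8379) (nat_lit 3) (nat_lit 8))
    (@En.n l50 (nat_lit 1828) (nat_lit 15) (nat_lit 2))))
  (@Cl.mk (nat_lit 0x2000c0005000d000800040003000d000d000a000300030008000b000e0006) (nat_lit 0x2100792005160) (nat_lit 16) Lb.e (@T16.mk En
    (@En.n l19359 (nat_lit 2796) (nat_lit 6) (nat_lit 6))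
    (@En.i (nat_lit 687) (nat_lit 4) (nat_lit 14))
    (@En.n l253 (nat_lit 975) (nat_lit 7) (nat_lit 11))
    (@En.i (nat_lit 8413) (nat_lit 3) (nat_lit 8))
    (@En.n l50 (nat_lit 2772) (nat_lit 13) (nat_lit 3))
    (@En.i (nat_lit 1828) (nat_lit 0) (nat_lit 3))
    (@En.i (nat_lit 1546) (nat_lit 0) (nat_lit 10))
    (@En.n l601 (nat_lit 1828) (nat_lit 3) (nat_lit 13))
    (@En.n l287 (nat_lit 4175) (nat_lit 9) (nat_lit 13))
    (@En.n l11 (nat_lit 2776) (nat_lit 9) (nat_lit 3))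
    (@En.i (nat_lit 2699) (nat_lit 10) (nat_lit 4))
    (@En.i (nat_lit 1824) (nat_lit 12) (nat_lit 8))
    (@En.n l3478 (nat_lit 1205) (nat_lit 13) (nat_lit 13))
    (@En.i (nat_lit 1818) (nat_lit 14) (nat_lit 5))
    (@En.n l2125 (nat_lit 7282) (nat_lit 9) (nat_lit 12))
    (@En.n l17 (nat_lit 1829) (nat_lit 15) (nat_lit 2))))
  (@Cl.mk (nat_lit 0x2000b000e00090002000d000500080003000d0007000e00030002000e0008) (nat_lit 0x151070606070081) (nat_lit 16) Lb.e (@T16.mk En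
    (@En.i (nat_lit 1353) (nat_lit 14) (nat_lit 8))
    (@En.n l10819 (nat_lit 12101) (nat_lit 1) (nat_lit 14))
    (@En.n l28 (nat_lit 1830) (nat_lit 2) (nat_lit 2))
    (@En.n l1459 (nat_lit 1386) (nat_lit 3) (nat_lit 3))
    (@En.n l5150 (nat_lit 13708) (nat_lit 0) (nat_lit 14))
    (@En.n l4748 (nat_lit 1539) (nat_lit 5) (nat_lit 7))
    (@En.n l1459 (nat_lit 6697) (nat_lit 11) (nat_lit 13))
    (@En.i (nat_lit 1831) (nat_lit 7) (nat_lit 3))
    (@En.n l10819 (nat_lit 1834) (nat_lit 0) (nat_lit 8))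
    (@En.n l17 (nat_lit 1351) (nat_lit 14) (nat_lit 5))
    (@En.i (nat_lit 1111) (nat_lit 11) (nat_lit 13))
    (@En.n l3 (nat_lit 1830) (nat_lit 11) (nat_lit 2))
    (@En.n l10820 (nat_lit 624) (nat_lit 13) (nat_lit 9))
    (@En.n l8669 (nat_lit 1839) (nat_lit 4) (nat_lit 14))
    (@En.n l612 (nat_lit 1353) (nat_lit 12) (nat_lit 11))
    (@En.n l50 (nat_lit 1830) (nat_lit 15) (nat_lit 2))))
  (@Cl.mk (nat_lit 0x2000a000e00090002000d000700060003000d0007000e00030002000e0009) (nat_lit 0x351040008070061) (nat_lit 16) Lb.e (@T16.mk En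
    (@En.i (nat_lit 1241) (nat_lit 14) (nat_lit 9))
    (@En.n l11748 (nat_lit 12097) (nat_lit 1) (nat_lit 14))
    (@En.n l28 (nat_lit 1831) (nat_lit 2) (nat_lit 2))
    (@En.n l11749 (nat_lit 1237) (nat_lit 3) (nat_lit 3))
    (@En.n l11748 (nat_lit 13711) (nat_lit 0) (nat_lit 14))
    (@En.n l11750 (nat_lit 1538) (nat_lit 5) (nat_lit 7))
    (@En.i (nat_lit 7145) (nat_lit 11) (nat_lit 13))
    (@En.n l2570 (nat_lit 1830) (nat_lit 7) (nat_lit 3))
    (@En.n l763 (nat_lit 1836) (nat_lit 8) (nat_lit 6))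
    (@En.i (nat_lit 3499) (nat_lit 14) (nat_lit 7))
    (@En.n l7672 (nat_lit 1106) (nat_lit 11) (nat_lit 13))
    (@En.n l3 (nat_lit 1831) (nat_lit 11) (nat_lit 2))
    (@En.n l11751 (nat_lit 623) (nat_lit 13) (nat_lit 9))
    (@En.n l8669 (nat_lit 1832) (nat_lit 1) (nat_lit 14))
    (@En.n l612 (nat_lit 1234) (nat_lit 12) (nat_lit 10))
    (@En.n l50 (nat_lit 1831) (nat_lit 15) (nat_lit 2))))
  (@Cl.mk (nat_lit 0x2000d000d000700030003000d0008000e00030002000e00090002000e0008) (nat_lit 0x460007190067044) (nat_lit 16) Lb.e (@T16.mk En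
    (@En.n l8346 (nat_lit 2561) (nat_lit 14) (nat_lit 8))
    (@En.n l8347 (nat_lit 972) (nat_lit 1) (nat_lit 14))
    (@En.n l17 (nat_lit 1832) (nat_lit 2) (nat_lit 2))
    (@En.n l8348 (nat_lit 2698) (nat_lit 14) (nat_lit 9))
    (@En.n l8349 (nat_lit 1731) (nat_lit 1) (nat_lit 14))
    (@En.n l50 (nat_lit 1832) (nat_lit 5) (nat_lit 2))
    (@En.n l4154 (nat_lit 1835) (nat_lit 6) (nat_lit 3))
    (@En.n l8348 (nat_lit 13372) (nat_lit 0) (nat_lit 14))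
    (@En.n l4973 (nat_lit 1233) (nat_lit 5) (nat_lit 8))
    (@En.n l4154 (nat_lit 12569) (nat_lit 10) (nat_lit 13))
    (@En.n l28 (nat_lit 1839) (nat_lit 13) (nat_lit 3))
    (@En.n l590 (nat_lit 1834) (nat_lit 11) (nat_lit 3))
    (@En.n l8350 (nat_lit 2046) (nat_lit 0) (nat_lit 7))
    (@En.n l1395 (nat_lit 1834) (nat_lit 14) (nat_lit 13))
    (@En.n l8351 (nat_lit 7338) (nat_lit 12) (nat_lit 13))
    (@En.n l3 (nat_lit 1832) (nat_lit 15) (nat_lit 2))))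
  (@Cl.mk (nat_lit 0x2000d0006000e00030002000d000d000900030003000e000a0002000e0007) (nat_lit 0x506006820067040) (nat_lit 16) Lb.e (@T16.mk En
    (@En.n l775 (nat_lit 3508) (nat_lit 14) (nat_lit 7))
    (@En.n l3377 (nat_lit 968) (nat_lit 1) (nat_lit 14))
    (@En.n l3 (nat_lit 1833) (nat_lit 2) (nat_lit 2))
    (@En.n l15209 (nat_lit 2699) (nat_lit 3) (nat_lit 10))
    (@En.i (nat_lit 1729) (nat_lit 1) (nat_lit 14))
    (@En.n l2593 (nat_lit 1836) (nat_lit 13) (nat_lit 3))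
    (@En.n l7253 (nat_lit 1834) (nat_lit 6) (nat_lit 3))
    (@En.n l2348 (nat_lit 1831) (nat_lit 0) (nat_lit 9))
    (@En.n l15210 (nat_lit 1834) (nat_lit 9) (nat_lit 13))
    (@En.n l15211 (nat_lit 11748) (nat_lit 10) (nat_lit 13))
    (@En.n l28 (nat_lit 1833) (nat_lit 10) (nat_lit 2))
    (@En.n l15212 (nat_lit 1835) (nat_lit 11) (nat_lit 3))
    (@En.n l15213 (nat_lit 13765) (nat_lit 0) (nat_lit 14))
    (@En.n l3379 (nat_lit 1728) (nat_lit 14) (nat_lit 6))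
    (@En.n l617 (nat_lit 3055) (nat_lit 12) (nat_lit 13))
    (@En.n l17 (nat_lit 1833) (nat_lit 15) (nat_lit 2))))
  (@Cl.mk (nat_lit 0x2000d0006000e00030002000d0008000e00030002000e000a0002000e0008) (nat_lit 0x500007100050085) (nat_lit 16) Lb.e (@T16.mk En
    (@En.n l18646 (nat_lit 3538) (nat_lit 14) (nat_lit 8))
    (@En.n l11275 (nat_lit 971) (nat_lit 1) (nat_lit 14))
    (@En.n l50 (nat_lit 1834) (nat_lit 2) (nat_lit 2))
    (@En.n l18460 (nat_lit 2700) (nat_lit 14) (nat_lit 10))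
    (@En.n l4778 (nat_lit 1730) (nat_lit 1) (nat_lit 14))
    (@En.n l28 (nat_lit 1834) (nat_lit 5) (nat_lit 2))
    (@En.n l10274 (nat_lit 1833) (nat_lit 6) (nat_lit 3))
    (@En.n l11858 (nat_lit 13371) (nat_lit 0) (nat_lit 14))
    (@En.n l2520 (nat_lit 1817) (nat_lit 14) (nat_lit 8))
    (@En.i (nat_lit 11713) (nat_lit 10) (nat_lit 13))
    (@En.n l725 (nat_lit 1834) (nat_lit 10) (nat_lit 2))
    (@En.n l18647 (nat_lit 1832) (nat_lit 11) (nat_lit 3))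
    (@En.n l2520 (nat_lit 13767) (nat_lit 0) (nat_lit 14))
    (@En.n l1353 (nat_lit 1729) (nat_lit 14) (nat_lit 6))
    (@En.n l18646 (nat_lit 3059) (nat_lit 12) (nat_lit 13))
    (@En.n l3 (nat_lit 1834) (nat_lit 15) (nat_lit 2))))
  (@Cl.mk (nat_lit 0x2000d000d000700030003000d000d000900030003000e00090002000e0007) (nat_lit 0x460006810057080) (nat_lit 16) Lb.e (@T16.mk En
    (@En.n l6069 (nat_lit 1843) (nat_lit 14) (nat_lit 7))
    (@En.n l2964 (nat_lit 970) (nat_lit 1) (nat_lit 14))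
    (@En.n l17 (nat_lit 1835) (nat_lit 2) (nat_lit 2))
    (@En.n l2964 (nat_lit 1842) (nat_lit 3) (nat_lit 9))
    (@En.n l6263 (nat_lit 1728) (nat_lit 1) (nat_lit 14))
    (@En.n l2965 (nat_lit 1837) (nat_lit 13) (nat_lit 3))
    (@En.n l2966 (nat_lit 1832) (nat_lit 6) (nat_lit 3))
    (@En.n l2967 (nat_lit 1237) (nat_lit 0) (nat_lit 9))
    (@En.n l2968 (nat_lit 1832) (nat_lit 9) (nat_lit 13))
    (@En.i (nat_lit 11749) (nat_lit 10) (nat_lit 13))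
    (@En.n l335 (nat_lit 1838) (nat_lit 13) (nat_lit 3))
    (@En.n l6264 (nat_lit 1833) (nat_lit 11) (nat_lit 3))
    (@En.i (nat_lit 2048) (nat_lit 0) (nat_lit 7))
    (@En.n l6265 (nat_lit 1833) (nat_lit 14) (nat_lit 13))
    (@En.n l6266 (nat_lit 3058) (nat_lit 12) (nat_lit 13))
    (@En.n l3 (nat_lit 1835) (nat_lit 15) (nat_lit 2))))
  (@Cl.mk (nat_lit 0x2000a0003000e000a0002000e00060002000d0006000e00030002000e000d) (nat_lit 0x10a7030040a0037) (nat_lit 16) Lb.e (@T16.mk En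
    (@En.n l564 (nat_lit 1833) (nat_lit 9) (nat_lit 13))
    (@En.n l7643 (nat_lit 12559) (nat_lit 1) (nat_lit 14))
    (@En.n l28 (nat_lit 1836) (nat_lit 2) (nat_lit 2))
    (@En.n l7644 (nat_lit 1837) (nat_lit 3) (nat_lit 3))
    (@En.n l7645 (nat_lit 13766) (nat_lit 0) (nat_lit 14))
    (@En.i (nat_lit 1841) (nat_lit 14) (nat_lit 6))
    (@En.i (nat_lit 3057) (nat_lit 7) (nat_lit 13))
    (@En.n l725 (nat_lit 1836) (nat_lit 7) (nat_lit 2))
    (@En.n l2364 (nat_lit 2548) (nat_lit 14) (nat_lit 6))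
    (@En.n l1003 (nat_lit 966) (nat_lit 1) (nat_lit 14))
    (@En.n l3 (nat_lit 1836) (nat_lit 10) (nat_lit 2))
    (@En.n l7646 (nat_lit 2705) (nat_lit 12) (nat_lit 10))
    (@En.i (nat_lit 3426) (nat_lit 1) (nat_lit 14))
    (@En.n l1353 (nat_lit 1833) (nat_lit 5) (nat_lit 3))
    (@En.n l3030 (nat_lit 1230) (nat_lit 12) (nat_lit 10))
    (@En.n l50 (nat_lit 1836) (nat_lit 15) (nat_lit 2))))
  (@Cl.mk (nat_lit 0x2000a0003000e00090002000e00060002000d000d000700030003000e000d) (nat_lit 0x206007005500077) (nat_lit 16) Lb.e (@T16.mk En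
    (@En.n l1102 (nat_lit 1835) (nat_lit 9) (nat_lit 13))
    (@En.n l2764 (nat_lit 12560) (nat_lit 1) (nat_lit 14))
    (@En.n l11 (nat_lit 1840) (nat_lit 13) (nat_lit 3))
    (@En.n l2765 (nat_lit 1836) (nat_lit 3) (nat_lit 3))
    (@En.n l2764 (nat_lit 2049) (nat_lit 0) (nat_lit 7))
    (@En.n l2766 (nat_lit 1836) (nat_lit 6) (nat_lit 13))
    (@En.n l1096 (nat_lit 7349) (nat_lit 7) (nat_lit 13))
    (@En.n l17 (nat_lit 1837) (nat_lit 7) (nat_lit 2))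
    (@En.n l2748 (nat_lit 2546) (nat_lit 14) (nat_lit 6))
    (@En.n l1097 (nat_lit 969) (nat_lit 1) (nat_lit 14))
    (@En.n l1098 (nat_lit 1837) (nat_lit 10) (nat_lit 2))
    (@En.n l1097 (nat_lit 2556) (nat_lit 12) (nat_lit 9))
    (@En.i (nat_lit 2909) (nat_lit 1) (nat_lit 14))
    (@En.n l1100 (nat_lit 1835) (nat_lit 5) (nat_lit 3))
    (@En.n l1101 (nat_lit 1232) (nat_lit 3) (nat_lit 10))
    (@En.n l7 (nat_lit 1837) (nat_lit 15) (nat_lit 2))))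
  (@Cl.mk (nat_lit 0x200080003000d000d000900030003000e00080002000e00070002000e000d) (nat_lit 0x107720080070075) (nat_lit 16) Lb.e (@T16.mk En
    (@En.n l2962 (nat_lit 1835) (nat_lit 14) (nat_lit 13))
    (@En.n l2963 (nat_lit 5376) (nat_lit 1) (nat_lit 14))
    (@En.n l3 (nat_lit 1838) (nat_lit 2) (nat_lit 2))
    (@En.n l2963 (nat_lit 2563) (nat_lit 3) (nat_lit 7))
    (@En.n l2964 (nat_lit 974) (nat_lit 1) (nat_lit 14))
    (@En.n l17 (nat_lit 1838) (nat_lit 5) (nat_lit 2))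
    (@En.n l2964 (nat_lit 2712) (nat_lit 6) (nat_lit 8))
    (@En.n l1529 (nat_lit 1841) (nat_lit 1) (nat_lit 14))
    (@En.n l2965 (nat_lit 1840) (nat_lit 8) (nat_lit 3))
    (@En.n l2966 (nat_lit 1839) (nat_lit 9) (nat_lit 3))
    (@En.n l2967 (nat_lit 1388) (nat_lit 11) (nat_lit 9))
    (@En.n l2968 (nat_lit 1839) (nat_lit 12) (nat_lit 13))
    (@En.i (nat_lit 12544) (nat_lit 13) (nat_lit 13))
    (@En.i (nat_lit 1835) (nat_lit 10) (nat_lit 3))
    (@En.n l2969 (nat_lit 1731) (nat_lit 12) (nat_lit 8))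
    (@En.n l11 (nat_lit 1838) (nat_lit 15) (nat_lit 2))))
  (@Cl.mk (nat_lit 0x200080003000d0008000e00030002000e00080002000e00080002000e000d) (nat_lit 0x106190080044085) (nat_lit 16) Lb.e (@T16.mk En
    (@En.n l1578 (nat_lit 1832) (nat_lit 14) (nat_lit 13))
    (@En.n l4150 (nat_lit 5377) (nat_lit 1) (nat_lit 14))
    (@En.n l3 (nat_lit 1839) (nat_lit 2) (nat_lit 2))
    (@En.n l4150 (nat_lit 2560) (nat_lit 3) (nat_lit 8))
    (@En.n l4151 (nat_lit 1596) (nat_lit 1) (nat_lit 14))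
    (@En.n l17 (nat_lit 1839) (nat_lit 5) (nat_lit 2))
    (@En.n l4152 (nat_lit 2693) (nat_lit 6) (nat_lit 8))
    (@En.n l4153 (nat_lit 2158) (nat_lit 1) (nat_lit 14))
    (@En.n l50 (nat_lit 1839) (nat_lit 8) (nat_lit 2))
    (@En.n l4154 (nat_lit 1838) (nat_lit 9) (nat_lit 3))
    (@En.n l4152 (nat_lit 13374) (nat_lit 0) (nat_lit 14))
    (@En.n l4155 (nat_lit 1816) (nat_lit 12) (nat_lit 8))
    (@En.n l4156 (nat_lit 11360) (nat_lit 13) (nat_lit 13))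
    (@En.i (nat_lit 1832) (nat_lit 10) (nat_lit 3))
    (@En.n l4157 (nat_lit 1730) (nat_lit 12) (nat_lit 8))
    (@En.n l11 (nat_lit 1839) (nat_lit 15) (nat_lit 2))))
noncomputable def a115 : T16 Cl := @T16.mk Cl
  (@Cl.mk (nat_lit 0x200080003000e000d0002000a0003000e00080002000e00060002000e000d) (nat_lit 0x6801050080056) (nat_lit 16) Lb.e (@T16.mk En
    (@En.n l68 (nat_lit 1837) (nat_lit 6) (nat_lit 13))
    (@En.n l1096 (nat_lit 5380) (nat_lit 1) (nat_lit 14))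
    (@En.n l17 (nat_lit 1840) (nat_lit 2) (nat_lit 2))
    (@En.n l1077 (nat_lit 2547) (nat_lit 14) (nat_lit 6))
    (@En.n l1097 (nat_lit 1597) (nat_lit 1) (nat_lit 14))
    (@En.n l1098 (nat_lit 1840) (nat_lit 5) (nat_lit 2))
    (@En.n l1097 (nat_lit 2713) (nat_lit 6) (nat_lit 8))
    (@En.n l1099 (nat_lit 2910) (nat_lit 1) (nat_lit 14))
    (@En.n l1100 (nat_lit 1838) (nat_lit 8) (nat_lit 3))
    (@En.n l1101 (nat_lit 1231) (nat_lit 10) (nat_lit 10))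
    (@En.n l7 (nat_lit 1840) (nat_lit 10) (nat_lit 2))
    (@En.n l1102 (nat_lit 1838) (nat_lit 12) (nat_lit 13))
    (@En.n l1103 (nat_lit 12529) (nat_lit 1) (nat_lit 14))
    (@En.i (nat_lit 1837) (nat_lit 2) (nat_lit 3))
    (@En.n l1104 (nat_lit 2158) (nat_lit 12) (nat_lit 8))
    (@En.n l67 (nat_lit 1840) (nat_lit 15) (nat_lit 2))))
  (@Cl.mk (nat_lit 0x20006000e00070002000e000d000200090003000d000a00090003000e0007) (nat_lit 0x70054030861070) (nat_lit 16) Lb.e (@T16.mk En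
    (@En.n l2364 (nat_lit 2545) (nat_lit 7) (nat_lit 7))
    (@En.n l8656 (nat_lit 2908) (nat_lit 1) (nat_lit 14))
    (@En.n l2433 (nat_lit 2158) (nat_lit 2) (nat_lit 3))
    (@En.n l8657 (nat_lit 1837) (nat_lit 11) (nat_lit 9))
    (@En.n l7646 (nat_lit 2157) (nat_lit 4) (nat_lit 10))
    (@En.i (nat_lit 1697) (nat_lit 6) (nat_lit 13))
    (@En.n l3037 (nat_lit 1728) (nat_lit 6) (nat_lit 3))
    (@En.n l3030 (nat_lit 1726) (nat_lit 12) (nat_lit 9))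
    (@En.n l50 (nat_lit 1841) (nat_lit 8) (nat_lit 2))
    (@En.n l3545 (nat_lit 1728) (nat_lit 10) (nat_lit 13))
    (@En.n l8658 (nat_lit 12298) (nat_lit 1) (nat_lit 14))
    (@En.n l28 (nat_lit 1841) (nat_lit 11) (nat_lit 2))
    (@En.n l2433 (nat_lit 2152) (nat_lit 13) (nat_lit 7))
    (@En.n l8658 (nat_lit 2054) (nat_lit 5) (nat_lit 14))
    (@En.n l3037 (nat_lit 3435) (nat_lit 5) (nat_lit 6))
    (@En.n l725 (nat_lit 1841) (nat_lit 15) (nat_lit 2))))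
  (@Cl.mk (nat_lit 0x2000c000c0007000700040004000d000d000a0003000300090009000e0006) (nat_lit 0x792006730) (nat_lit 16) Lb.e (@T16.mk En
    (@En.i (nat_lit 2555) (nat_lit 11) (nat_lit 6))
    (@En.i (nat_lit 692) (nat_lit 1) (nat_lit 14))
    (@En.n l282 (nat_lit 2695) (nat_lit 7) (nat_lit 9))
    (@En.i (nat_lit 8218) (nat_lit 3) (nat_lit 9))
    (@En.n l50 (nat_lit 2556) (nat_lit 13) (nat_lit 3))
    (@En.n l15450 (nat_lit 2698) (nat_lit 0) (nat_lit 3))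
    (@En.i (nat_lit 1327) (nat_lit 0) (nat_lit 10))
    (@En.n l15451 (nat_lit 2698) (nat_lit 3) (nat_lit 13))
    (@En.n l2747 (nat_lit 8110) (nat_lit 9) (nat_lit 13))
    (@En.n l11 (nat_lit 2712) (nat_lit 12) (nat_lit 4))
    (@En.n l152 (nat_lit 1829) (nat_lit 10) (nat_lit 4))
    (@En.n l1100 (nat_lit 1835) (nat_lit 12) (nat_lit 7))
    (@En.i (nat_lit 1827) (nat_lit 13) (nat_lit 7))
    (@En.n l619 (nat_lit 2699) (nat_lit 14) (nat_lit 12))
    (@En.n l8550 (nat_lit 7314) (nat_lit 9) (nat_lit 12))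
    (@En.n l17 (nat_lit 1842) (nat_lit 15) (nat_lit 2))))
  (@Cl.mk (nat_lit 0x200070007000d000d000600030003000c000c0009000900040004000e000a) (nat_lit 0x3500057020070) (nat_lit 16) Lb.e (@T16.mk En
    (@En.n l2170 (nat_lit 2555) (nat_lit 13) (nat_lit 10))
    (@En.n l2171 (nat_lit 2040) (nat_lit 1) (nat_lit 14))
    (@En.n l2172 (nat_lit 2546) (nat_lit 2) (nat_lit 4))
    (@En.i (nat_lit 3506) (nat_lit 3) (nat_lit 4))
    (@En.n l2173 (nat_lit 1835) (nat_lit 7) (nat_lit 9))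
    (@En.n l742 (nat_lit 3493) (nat_lit 5) (nat_lit 9))
    (@En.n l396 (nat_lit 2561) (nat_lit 7) (nat_lit 12))
    (@En.n l2174 (nat_lit 11747) (nat_lit 8) (nat_lit 12))
    (@En.n l738 (nat_lit 2563) (nat_lit 13) (nat_lit 3))
    (@En.n l11 (nat_lit 3508) (nat_lit 9) (nat_lit 3))
    (@En.n l2175 (nat_lit 2050) (nat_lit 0) (nat_lit 6))
    (@En.n l55 (nat_lit 3508) (nat_lit 12) (nat_lit 13))
    (@En.i (nat_lit 7345) (nat_lit 13) (nat_lit 13))
    (@En.n l2176 (nat_lit 2494) (nat_lit 9) (nat_lit 7))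
    (@En.i (nat_lit 7332) (nat_lit 4) (nat_lit 7))
    (@En.n l3 (nat_lit 1843) (nat_lit 15) (nat_lit 2))))
  (@Cl.mk (nat_lit 0x200090009000d0007000a0003000800070007000e000600020009000e0008) (nat_lit 0x346080400600241) (nat_lit 16) Lb.e (@T16.mk En
    (@En.n l2348 (nat_lit 1519) (nat_lit 13) (nat_lit 8))
    (@En.n l1998 (nat_lit 11645) (nat_lit 1) (nat_lit 14))
    (@En.n l8808 (nat_lit 1559) (nat_lit 2) (nat_lit 9))
    (@En.n l11 (nat_lit 1844) (nat_lit 3) (nat_lit 2))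
    (@En.n l2434 (nat_lit 1559) (nat_lit 4) (nat_lit 6))
    (@En.i (nat_lit 7705) (nat_lit 6) (nat_lit 14))
    (@En.n l2345 (nat_lit 1530) (nat_lit 2) (nat_lit 7))
    (@En.i (nat_lit 1845) (nat_lit 3) (nat_lit 7))
    (@En.n l4991 (nat_lit 7753) (nat_lit 4) (nat_lit 8))
    (@En.n l11723 (nat_lit 1686) (nat_lit 5) (nat_lit 3))
    (@En.i (nat_lit 2034) (nat_lit 0) (nat_lit 10))
    (@En.n l4991 (nat_lit 1909) (nat_lit 7) (nat_lit 7))
    (@En.n l13025 (nat_lit 1537) (nat_lit 13) (nat_lit 13))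
    (@En.n l1353 (nat_lit 1700) (nat_lit 14) (nat_lit 9))
    (@En.n l1784 (nat_lit 1581) (nat_lit 11) (nat_lit 9))
    (@En.n l50 (nat_lit 1844) (nat_lit 15) (nat_lit 2))))
  (@Cl.mk (nat_lit 0x20008000e000d000200090003000a000d0008000b000300070006000e0005) (nat_lit 0x460305a2000050) (nat_lit 16) Lb.e (@T16.mk En
    (@En.i (nat_lit 1848) (nat_lit 4) (nat_lit 5))
    (@En.i (nat_lit 7069) (nat_lit 6) (nat_lit 14))
    (@En.n l725 (nat_lit 1854) (nat_lit 2) (nat_lit 6))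
    (@En.i (nat_lit 7760) (nat_lit 3) (nat_lit 7))
    (@En.n l3596 (nat_lit 2308) (nat_lit 4) (nat_lit 3))
    (@En.i (nat_lit 3546) (nat_lit 0) (nat_lit 11))
    (@En.n l4991 (nat_lit 3321) (nat_lit 6) (nat_lit 8))
    (@En.n l13025 (nat_lit 2054) (nat_lit 12) (nat_lit 13))
    (@En.i (nat_lit 4950) (nat_lit 9) (nat_lit 10))
    (@En.n l3749 (nat_lit 1847) (nat_lit 9) (nat_lit 3))
    (@En.i (nat_lit 1583) (nat_lit 11) (nat_lit 9))
    (@En.n l50 (nat_lit 1845) (nat_lit 11) (nat_lit 2))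
    (@En.n l4270 (nat_lit 1847) (nat_lit 13) (nat_lit 13))
    (@En.n l1998 (nat_lit 6373) (nat_lit 1) (nat_lit 14))
    (@En.n l2678 (nat_lit 1848) (nat_lit 2) (nat_lit 8))
    (@En.n l11 (nat_lit 1845) (nat_lit 15) (nat_lit 2))))
  (@Cl.mk (nat_lit 0x300030009000c0008000b000b000400090007000500050008000d000d0007) (nat_lit 0x59280070002340) (nat_lit 16) Lb.e (@T16.mk En
    (@En.n l27502 (nat_lit 1559) (nat_lit 0) (nat_lit 7))
    (@En.n l27503 (nat_lit 1850) (nat_lit 3) (nat_lit 13))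
    (@En.n l7388 (nat_lit 12692) (nat_lit 2) (nat_lit 13))
    (@En.n l18 (nat_lit 1851) (nat_lit 10) (nat_lit 8))
    (@En.n l61 (nat_lit 1851) (nat_lit 11) (nat_lit 5))
    (@En.n l27504 (nat_lit 7422) (nat_lit 5) (nat_lit 5))
    (@En.n l27505 (nat_lit 1852) (nat_lit 6) (nat_lit 7))
    (@En.n l27506 (nat_lit 7755) (nat_lit 1) (nat_lit 9))
    (@En.n l6042 (nat_lit 2199) (nat_lit 8) (nat_lit 4))
    (@En.n l27507 (nat_lit 1847) (nat_lit 5) (nat_lit 11))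
    (@En.n l27502 (nat_lit 2386) (nat_lit 7) (nat_lit 11))
    (@En.n l27508 (nat_lit 3314) (nat_lit 12) (nat_lit 8))
    (@En.n l27509 (nat_lit 761) (nat_lit 6) (nat_lit 12))
    (@En.n l27510 (nat_lit 2514) (nat_lit 14) (nat_lit 9))
    (@En.n l27511 (nat_lit 1848) (nat_lit 13) (nat_lit 3))
    (@En.n l27512 (nat_lit 1850) (nat_lit 0) (nat_lit 3))))
  (@Cl.mk (nat_lit 0x20008000d000d000800030003000a000d0008000b000300080006000e0005) (nat_lit 0x3562005a2906050) (nat_lit 16) Lb.e (@T16.mk En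
    (@En.n l27757 (nat_lit 1846) (nat_lit 5) (nat_lit 5))
    (@En.i (nat_lit 7068) (nat_lit 1) (nat_lit 14))
    (@En.n l19470 (nat_lit 1853) (nat_lit 2) (nat_lit 6))
    (@En.n l27758 (nat_lit 7757) (nat_lit 3) (nat_lit 8))
    (@En.n l13923 (nat_lit 2284) (nat_lit 4) (nat_lit 3))
    (@En.n l12583 (nat_lit 3542) (nat_lit 0) (nat_lit 11))
    (@En.n l27758 (nat_lit 3319) (nat_lit 6) (nat_lit 8))
    (@En.n l27759 (nat_lit 2047) (nat_lit 8) (nat_lit 13))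
    (@En.n l12583 (nat_lit 2581) (nat_lit 9) (nat_lit 10))
    (@En.n l7126 (nat_lit 1845) (nat_lit 9) (nat_lit 3))
    (@En.n l152 (nat_lit 1849) (nat_lit 10) (nat_lit 3))
    (@En.n l6825 (nat_lit 1844) (nat_lit 0) (nat_lit 8))
    (@En.n l619 (nat_lit 1849) (nat_lit 13) (nat_lit 13))
    (@En.n l7604 (nat_lit 12713) (nat_lit 14) (nat_lit 13))
    (@En.n l15540 (nat_lit 1846) (nat_lit 3) (nat_lit 8))
    (@En.n l17 (nat_lit 1847) (nat_lit 15) (nat_lit 2))))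
  (@Cl.mk (nat_lit 0x2000800030009000c0008000b000b000400080007000500050008000e000d) (nat_lit 0x305928106000634) (nat_lit 16) Lb.e (@T16.mk En
    (@En.n l14024 (nat_lit 1846) (nat_lit 2) (nat_lit 13))
    (@En.n l1998 (nat_lit 9225) (nat_lit 1) (nat_lit 14))
    (@En.n l14025 (nat_lit 2188) (nat_lit 10) (nat_lit 8))
    (@En.n l14026 (nat_lit 2188) (nat_lit 11) (nat_lit 5))
    (@En.n l117 (nat_lit 7424) (nat_lit 4) (nat_lit 5))
    (@En.n l14027 (nat_lit 1855) (nat_lit 5) (nat_lit 7))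
    (@En.n l14028 (nat_lit 7758) (nat_lit 6) (nat_lit 8))
    (@En.n l5152 (nat_lit 2197) (nat_lit 7) (nat_lit 4))
    (@En.n l575 (nat_lit 1845) (nat_lit 5) (nat_lit 11))
    (@En.i (nat_lit 2394) (nat_lit 10) (nat_lit 11))
    (@En.n l14029 (nat_lit 3320) (nat_lit 11) (nat_lit 8))
    (@En.n l14030 (nat_lit 763) (nat_lit 6) (nat_lit 12))
    (@En.i (nat_lit 4946) (nat_lit 13) (nat_lit 9))
    (@En.n l14031 (nat_lit 1846) (nat_lit 14) (nat_lit 3))
    (@En.n l14028 (nat_lit 1584) (nat_lit 0) (nat_lit 8))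
    (@En.n l50 (nat_lit 1848) (nat_lit 15) (nat_lit 2))))
  (@Cl.mk (nat_lit 0x20008000d0007000e00030002000a000d0008000b000300090006000e0005) (nat_lit 0x3507005a2006050) (nat_lit 16) Lb.e (@T16.mk En
    (@En.n l18660 (nat_lit 1850) (nat_lit 6) (nat_lit 5))
    (@En.i (nat_lit 7074) (nat_lit 8) (nat_lit 14))
    (@En.i (nat_lit 1857) (nat_lit 2) (nat_lit 6))
    (@En.n l18661 (nat_lit 7900) (nat_lit 3) (nat_lit 9))
    (@En.i (nat_lit 2283) (nat_lit 4) (nat_lit 3))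
    (@En.n l14576 (nat_lit 3540) (nat_lit 0) (nat_lit 11))
    (@En.n l18662 (nat_lit 3316) (nat_lit 6) (nat_lit 8))
    (@En.n l7877 (nat_lit 2045) (nat_lit 8) (nat_lit 13))
    (@En.n l810 (nat_lit 2583) (nat_lit 9) (nat_lit 10))
    (@En.n l11 (nat_lit 1849) (nat_lit 9) (nat_lit 2))
    (@En.n l117 (nat_lit 1847) (nat_lit 10) (nat_lit 3))
    (@En.n l781 (nat_lit 12925) (nat_lit 0) (nat_lit 14))
    (@En.n l14576 (nat_lit 1517) (nat_lit 13) (nat_lit 7))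
    (@En.n l810 (nat_lit 12672) (nat_lit 14) (nat_lit 13))
    (@En.n l18663 (nat_lit 1850) (nat_lit 4) (nat_lit 8))
    (@En.n l17 (nat_lit 1849) (nat_lit 15) (nat_lit 2))))
  (@Cl.mk (nat_lit 0x20009000c0008000b000b0004000a0007000500050008000d0006000e0003) (nat_lit 0x592810600023070) (nat_lit 16) Lb.e (@T16.mk En
    (@En.n l14082 (nat_lit 1846) (nat_lit 15) (nat_lit 3))
    (@En.n l11844 (nat_lit 12922) (nat_lit 0) (nat_lit 14))
    (@En.i (nat_lit 1518) (nat_lit 2) (nat_lit 6))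
    (@En.i (nat_lit 12712) (nat_lit 4) (nat_lit 13))
    (@En.n l13711 (nat_lit 2138) (nat_lit 10) (nat_lit 8))
    (@En.n l13712 (nat_lit 2138) (nat_lit 11) (nat_lit 5))
    (@En.i (nat_lit 7421) (nat_lit 6) (nat_lit 5))
    (@En.n l18709 (nat_lit 1856) (nat_lit 7) (nat_lit 7))
    (@En.n l13633 (nat_lit 7898) (nat_lit 9) (nat_lit 10))
    (@En.n l18710 (nat_lit 2422) (nat_lit 9) (nat_lit 4))
    (@En.n l18711 (nat_lit 1849) (nat_lit 5) (nat_lit 11))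
    (@En.n l18712 (nat_lit 2432) (nat_lit 12) (nat_lit 11))
    (@En.n l13716 (nat_lit 3317) (nat_lit 13) (nat_lit 8))
    (@En.n l217 (nat_lit 2043) (nat_lit 6) (nat_lit 12))
    (@En.n l18713 (nat_lit 1759) (nat_lit 14) (nat_lit 9))
    (@En.n l28 (nat_lit 1850) (nat_lit 15) (nat_lit 2))))
  (@Cl.mk (nat_lit 0x20005000a000800050008000d000d0006000300030008000b0008000e000b) (nat_lit 0x72012300058209) (nat_lit 16) Lb.e (@T16.mk En
    (@En.i (nat_lit 1846) (nat_lit 10) (nat_lit 11))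
    (@En.n l28891 (nat_lit 2140) (nat_lit 1) (nat_lit 14))
    (@En.n l12626 (nat_lit 3318) (nat_lit 2) (nat_lit 8))
    (@En.n l12362 (nat_lit 762) (nat_lit 3) (nat_lit 11))
    (@En.n l12583 (nat_lit 2515) (nat_lit 4) (nat_lit 8))
    (@En.n l7126 (nat_lit 2188) (nat_lit 5) (nat_lit 3))
    (@En.n l1834 (nat_lit 2138) (nat_lit 6) (nat_lit 3))
    (@En.n l14558 (nat_lit 1554) (nat_lit 7) (nat_lit 6))
    (@En.n l12631 (nat_lit 2138) (nat_lit 9) (nat_lit 13))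
    (@En.n l6362 (nat_lit 10536) (nat_lit 10) (nat_lit 13))
    (@En.i (nat_lit 661) (nat_lit 10) (nat_lit 8))
    (@En.n l890 (nat_lit 7420) (nat_lit 4) (nat_lit 5))
    (@En.n l8361 (nat_lit 2181) (nat_lit 13) (nat_lit 8))
    (@En.n l6825 (nat_lit 7756) (nat_lit 14) (nat_lit 10))
    (@En.i (nat_lit 2198) (nat_lit 13) (nat_lit 5))
    (@En.n l17 (nat_lit 1851) (nat_lit 15) (nat_lit 2))))
  (@Cl.mk (nat_lit 0x3000300090004000c0009000c000c00040007000400040007000d000d000c) (nat_lit 0x40a39000000346) (nat_lit 16) Lb.e (@T16.mk En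
    (@En.n l14027 (nat_lit 2185) (nat_lit 0) (nat_lit 12))
    (@En.n l18700 (nat_lit 1856) (nat_lit 3) (nat_lit 13))
    (@En.n l779 (nat_lit 10537) (nat_lit 2) (nat_lit 13))
    (@En.n l18701 (nat_lit 2181) (nat_lit 11) (nat_lit 7))
    (@En.n l18702 (nat_lit 2181) (nat_lit 12) (nat_lit 4))
    (@En.n l18703 (nat_lit 4382) (nat_lit 5) (nat_lit 4))
    (@En.n l18677 (nat_lit 447) (nat_lit 11) (nat_lit 7))
    (@En.n l18704 (nat_lit 2201) (nat_lit 7) (nat_lit 4))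
    (@En.n l575 (nat_lit 1853) (nat_lit 4) (nat_lit 12))
    (@En.i (nat_lit 2382) (nat_lit 6) (nat_lit 12))
    (@En.n l18705 (nat_lit 2214) (nat_lit 11) (nat_lit 9))
    (@En.n l18706 (nat_lit 1846) (nat_lit 12) (nat_lit 12))
    (@En.n l18707 (nat_lit 2189) (nat_lit 13) (nat_lit 4))
    (@En.i (nat_lit 2573) (nat_lit 14) (nat_lit 9))
    (@En.n l18708 (nat_lit 1855) (nat_lit 13) (nat_lit 3))
    (@En.n l18678 (nat_lit 1856) (nat_lit 0) (nat_lit 3))))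
  (@Cl.mk (nat_lit 0x20007000d000d000c00030003000a0004000d0009000c00030006000e0004) (nat_lit 0x5670050b3a0040) (nat_lit 16) Lb.e (@T16.mk En
    (@En.i (nat_lit 1852) (nat_lit 5) (nat_lit 4))
    (@En.n l617 (nat_lit 3797) (nat_lit 1) (nat_lit 14))
    (@En.n l781 (nat_lit 451) (nat_lit 2) (nat_lit 6))
    (@En.n l2604 (nat_lit 2282) (nat_lit 3) (nat_lit 3))
    (@En.i (nat_lit 3543) (nat_lit 0) (nat_lit 12))
    (@En.n l18529 (nat_lit 2216) (nat_lit 5) (nat_lit 9))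
    (@En.n l13103 (nat_lit 1847) (nat_lit 7) (nat_lit 13))
    (@En.n l775 (nat_lit 2251) (nat_lit 7) (nat_lit 4))
    (@En.i (nat_lit 2578) (nat_lit 9) (nat_lit 10))
    (@En.n l2593 (nat_lit 1854) (nat_lit 9) (nat_lit 3))
    (@En.n l18664 (nat_lit 1857) (nat_lit 10) (nat_lit 3))
    (@En.n l2348 (nat_lit 2250) (nat_lit 12) (nat_lit 12))
    (@En.n l18665 (nat_lit 1857) (nat_lit 13) (nat_lit 13))
    (@En.n l779 (nat_lit 12677) (nat_lit 14) (nat_lit 13))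
    (@En.n l2678 (nat_lit 1852) (nat_lit 3) (nat_lit 7))
    (@En.n l11 (nat_lit 1853) (nat_lit 15) (nat_lit 2))))
  (@Cl.mk (nat_lit 0x20007000e000d0002000d0003000a0003000d0009000c00030006000e0004) (nat_lit 0xa602030b300040) (nat_lit 16) Lb.e (@T16.mk En
    (@En.n l1998 (nat_lit 1855) (nat_lit 4) (nat_lit 4))
    (@En.i (nat_lit 3800) (nat_lit 1) (nat_lit 14))
    (@En.n l1643 (nat_lit 449) (nat_lit 2) (nat_lit 6))
    (@En.n l3596 (nat_lit 2307) (nat_lit 3) (nat_lit 3))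
    (@En.i (nat_lit 3548) (nat_lit 0) (nat_lit 12))
    (@En.n l3902 (nat_lit 2215) (nat_lit 5) (nat_lit 9))
    (@En.i (nat_lit 1845) (nat_lit 7) (nat_lit 13))
    (@En.n l2364 (nat_lit 2250) (nat_lit 7) (nat_lit 3))
    (@En.i (nat_lit 4948) (nat_lit 9) (nat_lit 10))
    (@En.n l1353 (nat_lit 1853) (nat_lit 9) (nat_lit 3))
    (@En.n l1998 (nat_lit 787) (nat_lit 11) (nat_lit 13))
    (@En.n l50 (nat_lit 1854) (nat_lit 11) (nat_lit 2))
    (@En.n l564 (nat_lit 1853) (nat_lit 13) (nat_lit 13))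
    (@En.n l1998 (nat_lit 6372) (nat_lit 1) (nat_lit 14))
    (@En.n l14305 (nat_lit 1855) (nat_lit 2) (nat_lit 7))
    (@En.n l11 (nat_lit 1854) (nat_lit 15) (nat_lit 2))))
  (@Cl.mk (nat_lit 0x2000d000300090003000c0009000c000c00040007000400040007000e000d) (nat_lit 0x2040a39100000a4) (nat_lit 16) Lb.e (@T16.mk En
    (@En.n l1995 (nat_lit 1852) (nat_lit 2) (nat_lit 13))
    (@En.i (nat_lit 9230) (nat_lit 1) (nat_lit 14))
    (@En.n l14021 (nat_lit 2182) (nat_lit 11) (nat_lit 7))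
    (@En.n l6135 (nat_lit 2182) (nat_lit 12) (nat_lit 4))
    (@En.n l1999 (nat_lit 4383) (nat_lit 4) (nat_lit 4))
    (@En.n l2589 (nat_lit 450) (nat_lit 11) (nat_lit 7))
    (@En.n l2590 (nat_lit 2202) (nat_lit 6) (nat_lit 4))
    (@En.n l14022 (nat_lit 1854) (nat_lit 4) (nat_lit 12))
    (@En.n l1998 (nat_lit 2385) (nat_lit 9) (nat_lit 12))
    (@En.n l798 (nat_lit 2213) (nat_lit 10) (nat_lit 9))
    (@En.n l1998 (nat_lit 1848) (nat_lit 11) (nat_lit 12))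
    (@En.i (nat_lit 2185) (nat_lit 11) (nat_lit 3))
    (@En.n l2589 (nat_lit 4952) (nat_lit 0) (nat_lit 9))
    (@En.n l2865 (nat_lit 1852) (nat_lit 14) (nat_lit 3))
    (@En.i (nat_lit 784) (nat_lit 0) (nat_lit 13))
    (@En.n l3 (nat_lit 1855) (nat_lit 15) (nat_lit 2))))
noncomputable def a116 : T16 Cl := @T16.mk Cl
  (@Cl.mk (nat_lit 0x200090005000c0009000c000c00040007000400040007000d000b000e0003) (nat_lit 0x50a3900000031c0) (nat_lit 16) Lb.e (@T16.mk En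
    (@En.n l7773 (nat_lit 1852) (nat_lit 15) (nat_lit 3))
    (@En.i (nat_lit 12920) (nat_lit 0) (nat_lit 14))
    (@En.n l7774 (nat_lit 886) (nat_lit 2) (nat_lit 11))
    (@En.n l7775 (nat_lit 12678) (nat_lit 4) (nat_lit 13))
    (@En.n l7776 (nat_lit 2180) (nat_lit 11) (nat_lit 7))
    (@En.n l7777 (nat_lit 2180) (nat_lit 12) (nat_lit 4))
    (@En.i (nat_lit 4417) (nat_lit 6) (nat_lit 4))
    (@En.n l5988 (nat_lit 453) (nat_lit 7) (nat_lit 7))
    (@En.n l575 (nat_lit 2419) (nat_lit 8) (nat_lit 4))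
    (@En.n l7778 (nat_lit 1857) (nat_lit 4) (nat_lit 12))
    (@En.n l7779 (nat_lit 2383) (nat_lit 11) (nat_lit 12))
    (@En.i (nat_lit 2218) (nat_lit 12) (nat_lit 9))
    (@En.n l7780 (nat_lit 1850) (nat_lit 13) (nat_lit 12))
    (@En.n l7781 (nat_lit 774) (nat_lit 14) (nat_lit 5))
    (@En.n l7782 (nat_lit 2577) (nat_lit 14) (nat_lit 9))
    (@En.n l17 (nat_lit 1856) (nat_lit 15) (nat_lit 2))))
  (@Cl.mk (nat_lit 0x20007000d000b000e00030002000a0005000d0009000c00030006000e0004) (nat_lit 0x5570050b3a0040) (nat_lit 16) Lb.e (@T16.mk En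
    (@En.n l7739 (nat_lit 1856) (nat_lit 6) (nat_lit 4))
    (@En.i (nat_lit 3795) (nat_lit 8) (nat_lit 14))
    (@En.n l7740 (nat_lit 683) (nat_lit 2) (nat_lit 6))
    (@En.i (nat_lit 2280) (nat_lit 3) (nat_lit 3))
    (@En.n l7741 (nat_lit 3541) (nat_lit 0) (nat_lit 12))
    (@En.n l7742 (nat_lit 2220) (nat_lit 5) (nat_lit 9))
    (@En.n l476 (nat_lit 1849) (nat_lit 7) (nat_lit 13))
    (@En.n l2669 (nat_lit 2278) (nat_lit 14) (nat_lit 5))
    (@En.n l7741 (nat_lit 2580) (nat_lit 9) (nat_lit 10))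
    (@En.n l11 (nat_lit 1857) (nat_lit 9) (nat_lit 2))
    (@En.n l7743 (nat_lit 1853) (nat_lit 10) (nat_lit 3))
    (@En.n l2038 (nat_lit 12923) (nat_lit 0) (nat_lit 14))
    (@En.n l2673 (nat_lit 2320) (nat_lit 13) (nat_lit 11))
    (@En.n l810 (nat_lit 12670) (nat_lit 14) (nat_lit 13))
    (@En.n l7744 (nat_lit 1856) (nat_lit 4) (nat_lit 7))
    (@En.n l17 (nat_lit 1857) (nat_lit 15) (nat_lit 2))))
  (@Cl.mk (nat_lit 0x20008000800080007000e000a0002000900080008000800060009000e0007) (nat_lit 0x560012040220670) (nat_lit 16) Lb.e (@T16.mk En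
    (@En.n l25396 (nat_lit 1557) (nat_lit 7) (nat_lit 7))
    (@En.n l6493 (nat_lit 1609) (nat_lit 9) (nat_lit 14))
    (@En.n l5562 (nat_lit 12909) (nat_lit 9) (nat_lit 9))
    (@En.n l30919 (nat_lit 2989) (nat_lit 3) (nat_lit 6))
    (@En.n l10050 (nat_lit 1815) (nat_lit 4) (nat_lit 8))
    (@En.n l4973 (nat_lit 1971) (nat_lit 8) (nat_lit 8))
    (@En.i (nat_lit 3118) (nat_lit 6) (nat_lit 8))
    (@En.n l11486 (nat_lit 2594) (nat_lit 8) (nat_lit 9))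
    (@En.n l18 (nat_lit 1858) (nat_lit 8) (nat_lit 2))
    (@En.n l1708 (nat_lit 1814) (nat_lit 10) (nat_lit 10))
    (@En.n l1427 (nat_lit 1617) (nat_lit 11) (nat_lit 14))
    (@En.n l890 (nat_lit 1622) (nat_lit 2) (nat_lit 7))
    (@En.n l4494 (nat_lit 4632) (nat_lit 8) (nat_lit 8))
    (@En.n l25397 (nat_lit 1861) (nat_lit 14) (nat_lit 8))
    (@En.n l30920 (nat_lit 1776) (nat_lit 5) (nat_lit 8))
    (@En.n l3 (nat_lit 1858) (nat_lit 15) (nat_lit 2))))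
  (@Cl.mk (nat_lit 0x2000800070007000a000e00090002000900080006000900090007000e0007) (nat_lit 0x4000a4060020040) (nat_lit 16) Lb.e (@T16.mk En
    (@En.n l10598 (nat_lit 1814) (nat_lit 7) (nat_lit 7))
    (@En.n l25523 (nat_lit 4829) (nat_lit 9) (nat_lit 14))
    (@En.n l685 (nat_lit 2591) (nat_lit 2) (nat_lit 7))
    (@En.n l217 (nat_lit 1864) (nat_lit 3) (nat_lit 9))
    (@En.i (nat_lit 2110) (nat_lit 4) (nat_lit 9))
    (@En.n l108 (nat_lit 1507) (nat_lit 13) (nat_lit 6))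
    (@En.n l1707 (nat_lit 3669) (nat_lit 6) (nat_lit 8))
    (@En.n l25524 (nat_lit 2846) (nat_lit 8) (nat_lit 9))
    (@En.n l3 (nat_lit 1859) (nat_lit 8) (nat_lit 2))
    (@En.i (nat_lit 1862) (nat_lit 10) (nat_lit 9))
    (@En.n l238 (nat_lit 1527) (nat_lit 11) (nat_lit 14))
    (@En.n l25525 (nat_lit 1861) (nat_lit 2) (nat_lit 10))
    (@En.n l25526 (nat_lit 1861) (nat_lit 3) (nat_lit 7))
    (@En.n l25527 (nat_lit 2121) (nat_lit 14) (nat_lit 7))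
    (@En.n l4968 (nat_lit 1780) (nat_lit 5) (nat_lit 8))
    (@En.n l28 (nat_lit 1859) (nat_lit 15) (nat_lit 2))))
  (@Cl.mk (nat_lit 0x200080008000e00090002000a0008000b00080008000700060005000e0008) (nat_lit 0x5c305002000015) (nat_lit 16) Lb.e (@T16.mk En
    (@En.n l12854 (nat_lit 1862) (nat_lit 5) (nat_lit 8))
    (@En.n l5643 (nat_lit 1617) (nat_lit 1) (nat_lit 14))
    (@En.n l152 (nat_lit 1505) (nat_lit 2) (nat_lit 5))
    (@En.n l4924 (nat_lit 4159) (nat_lit 3) (nat_lit 6))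
    (@En.n l217 (nat_lit 2363) (nat_lit 4) (nat_lit 7))
    (@En.n l644 (nat_lit 1867) (nat_lit 11) (nat_lit 8))
    (@En.n l3428 (nat_lit 1564) (nat_lit 6) (nat_lit 8))
    (@En.n l12855 (nat_lit 12912) (nat_lit 7) (nat_lit 11))
    (@En.i (nat_lit 3957) (nat_lit 14) (nat_lit 8))
    (@En.n l12385 (nat_lit 1779) (nat_lit 10) (nat_lit 10))
    (@En.n l17 (nat_lit 1860) (nat_lit 10) (nat_lit 2))
    (@En.n l4920 (nat_lit 1557) (nat_lit 12) (nat_lit 9))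
    (@En.n l5 (nat_lit 1989) (nat_lit 13) (nat_lit 14))
    (@En.n l12856 (nat_lit 1861) (nat_lit 8) (nat_lit 8))
    (@En.n l12855 (nat_lit 3161) (nat_lit 3) (nat_lit 8))
    (@En.n l28 (nat_lit 1860) (nat_lit 15) (nat_lit 2))))
  (@Cl.mk (nat_lit 0x2000800070006000e000900020008000e0008000200090007000a000e0008) (nat_lit 0x500230451030883) (nat_lit 16) Lb.e (@T16.mk En
    (@En.n l26665 (nat_lit 1860) (nat_lit 6) (nat_lit 8))
    (@En.n l862 (nat_lit 1651) (nat_lit 12) (nat_lit 14))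
    (@En.i (nat_lit 12908) (nat_lit 8) (nat_lit 10))
    (@En.n l1353 (nat_lit 4217) (nat_lit 14) (nat_lit 7))
    (@En.n l12845 (nat_lit 1781) (nat_lit 4) (nat_lit 9))
    (@En.n l50 (nat_lit 1861) (nat_lit 5) (nat_lit 2))
    (@En.n l12846 (nat_lit 1858) (nat_lit 6) (nat_lit 8))
    (@En.n l2544 (nat_lit 4828) (nat_lit 8) (nat_lit 14))
    (@En.i (nat_lit 2590) (nat_lit 2) (nat_lit 8))
    (@En.n l28 (nat_lit 1861) (nat_lit 9) (nat_lit 2))
    (@En.n l26666 (nat_lit 1859) (nat_lit 4) (nat_lit 9))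
    (@En.n l1578 (nat_lit 1863) (nat_lit 12) (nat_lit 14))
    (@En.n l2345 (nat_lit 1872) (nat_lit 2) (nat_lit 6))
    (@En.i (nat_lit 3670) (nat_lit 14) (nat_lit 7))
    (@En.n l24068 (nat_lit 2886) (nat_lit 4) (nat_lit 8))
    (@En.n l3 (nat_lit 1861) (nat_lit 15) (nat_lit 2))))
  (@Cl.mk (nat_lit 0x2000900080008000b000900090008000700050008000800070007000e0008) (nat_lit 0x5011305004600c3) (nat_lit 16) Lb.e (@T16.mk En
    (@En.n l12957 (nat_lit 1660) (nat_lit 10) (nat_lit 8))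
    (@En.n l19205 (nat_lit 1984) (nat_lit 1) (nat_lit 14))
    (@En.n l152 (nat_lit 1859) (nat_lit 2) (nat_lit 7))
    (@En.n l685 (nat_lit 3160) (nat_lit 3) (nat_lit 7))
    (@En.n l217 (nat_lit 1865) (nat_lit 4) (nat_lit 8))
    (@En.i (nat_lit 1615) (nat_lit 5) (nat_lit 8))
    (@En.n l4413 (nat_lit 1506) (nat_lit 6) (nat_lit 5))
    (@En.n l1846 (nat_lit 4154) (nat_lit 7) (nat_lit 7))
    (@En.n l19206 (nat_lit 2347) (nat_lit 8) (nat_lit 8))
    (@En.n l19207 (nat_lit 1866) (nat_lit 10) (nat_lit 9))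
    (@En.n l9675 (nat_lit 1566) (nat_lit 11) (nat_lit 9))
    (@En.n l19208 (nat_lit 1860) (nat_lit 7) (nat_lit 11))
    (@En.n l19209 (nat_lit 1860) (nat_lit 8) (nat_lit 8))
    (@En.n l19210 (nat_lit 3150) (nat_lit 14) (nat_lit 8))
    (@En.n l12249 (nat_lit 1490) (nat_lit 13) (nat_lit 9))
    (@En.n l28 (nat_lit 1862) (nat_lit 15) (nat_lit 2))))
  (@Cl.mk (nat_lit 0x200080007000e0008000200090008000e00080002000900080007000e0008) (nat_lit 0x601101481074014) (nat_lit 16) Lb.e (@T16.mk En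
    (@En.n l38891 (nat_lit 1617) (nat_lit 5) (nat_lit 8))
    (@En.n l3860 (nat_lit 1661) (nat_lit 7) (nat_lit 14))
    (@En.i (nat_lit 3093) (nat_lit 2) (nat_lit 7))
    (@En.n l7407 (nat_lit 2075) (nat_lit 3) (nat_lit 8))
    (@En.n l12845 (nat_lit 4631) (nat_lit 4) (nat_lit 9))
    (@En.n l50 (nat_lit 1863) (nat_lit 5) (nat_lit 2))
    (@En.n l29278 (nat_lit 1617) (nat_lit 6) (nat_lit 8))
    (@En.n l2544 (nat_lit 4827) (nat_lit 8) (nat_lit 14))
    (@En.n l7489 (nat_lit 3100) (nat_lit 2) (nat_lit 8))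
    (@En.n l38892 (nat_lit 1859) (nat_lit 3) (nat_lit 9))
    (@En.n l11 (nat_lit 1863) (nat_lit 10) (nat_lit 2))
    (@En.n l38893 (nat_lit 1616) (nat_lit 5) (nat_lit 8))
    (@En.n l38894 (nat_lit 1653) (nat_lit 7) (nat_lit 14))
    (@En.i (nat_lit 3101) (nat_lit 14) (nat_lit 7))
    (@En.n l4990 (nat_lit 3163) (nat_lit 3) (nat_lit 8))
    (@En.n l3 (nat_lit 1863) (nat_lit 15) (nat_lit 2))))
  (@Cl.mk (nat_lit 0x20007000e00070002000a000e000a0002000a0009000600090006000e0006) (nat_lit 0xa001a507007030) (nat_lit 16) Lb.e (@T16.mk En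
    (@En.n l394 (nat_lit 1813) (nat_lit 4) (nat_lit 6))
    (@En.n l11853 (nat_lit 4832) (nat_lit 1) (nat_lit 14))
    (@En.n l916 (nat_lit 2310) (nat_lit 2) (nat_lit 6))
    (@En.i (nat_lit 4182) (nat_lit 3) (nat_lit 9))
    (@En.n l108 (nat_lit 1611) (nat_lit 8) (nat_lit 6))
    (@En.i (nat_lit 4165) (nat_lit 5) (nat_lit 9))
    (@En.n l1385 (nat_lit 2845) (nat_lit 11) (nat_lit 10))
    (@En.n l3 (nat_lit 1864) (nat_lit 7) (nat_lit 2))
    (@En.i (nat_lit 1865) (nat_lit 9) (nat_lit 10))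
    (@En.i (nat_lit 1529) (nat_lit 10) (nat_lit 14))
    (@En.n l1738 (nat_lit 1859) (nat_lit 11) (nat_lit 10))
    (@En.n l18 (nat_lit 1864) (nat_lit 11) (nat_lit 2))
    (@En.i (nat_lit 1859) (nat_lit 13) (nat_lit 7))
    (@En.n l5146 (nat_lit 4897) (nat_lit 6) (nat_lit 14))
    (@En.n l4411 (nat_lit 1784) (nat_lit 6) (nat_lit 7))
    (@En.n l28 (nat_lit 1864) (nat_lit 15) (nat_lit 2))))
  (@Cl.mk (nat_lit 0x20008000e00080002000b000a000a000900080005000800060006000e0007) (nat_lit 0x5c1024062050010) (nat_lit 16) Lb.e (@T16.mk En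
    (@En.i (nat_lit 1659) (nat_lit 4) (nat_lit 7))
    (@En.n l9674 (nat_lit 1674) (nat_lit 1) (nat_lit 14))
    (@En.n l152 (nat_lit 1864) (nat_lit 2) (nat_lit 6))
    (@En.n l1843 (nat_lit 2319) (nat_lit 3) (nat_lit 6))
    (@En.i (nat_lit 3272) (nat_lit 4) (nat_lit 8))
    (@En.n l4413 (nat_lit 1676) (nat_lit 9) (nat_lit 5))
    (@En.i (nat_lit 4161) (nat_lit 6) (nat_lit 8))
    (@En.n l1843 (nat_lit 2344) (nat_lit 12) (nat_lit 9))
    (@En.n l9670 (nat_lit 1868) (nat_lit 9) (nat_lit 10))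
    (@En.n l9675 (nat_lit 1568) (nat_lit 10) (nat_lit 10))
    (@En.n l1738 (nat_lit 1862) (nat_lit 11) (nat_lit 11))
    (@En.n l18 (nat_lit 1865) (nat_lit 11) (nat_lit 2))
    (@En.i (nat_lit 1862) (nat_lit 13) (nat_lit 8))
    (@En.n l3416 (nat_lit 4898) (nat_lit 1) (nat_lit 14))
    (@En.i (nat_lit 1489) (nat_lit 2) (nat_lit 8))
    (@En.n l28 (nat_lit 1865) (nat_lit 15) (nat_lit 2))))
  (@Cl.mk (nat_lit 0x2000a00090009000c000900070006000400070007000e00070002000e0009) (nat_lit 0x6000700000b0024) (nat_lit 16) Lb.e (@T16.mk En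
    (@En.n l7998 (nat_lit 1869) (nat_lit 14) (nat_lit 9))
    (@En.n l3232 (nat_lit 1671) (nat_lit 1) (nat_lit 14))
    (@En.n l17 (nat_lit 1866) (nat_lit 2) (nat_lit 2))
    (@En.n l7999 (nat_lit 1862) (nat_lit 3) (nat_lit 7))
    (@En.n l2967 (nat_lit 5151) (nat_lit 5) (nat_lit 14))
    (@En.n l8000 (nat_lit 1868) (nat_lit 5) (nat_lit 7))
    (@En.n l3226 (nat_lit 2112) (nat_lit 6) (nat_lit 7))
    (@En.n l8001 (nat_lit 1677) (nat_lit 7) (nat_lit 4))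
    (@En.i (nat_lit 4146) (nat_lit 8) (nat_lit 6))
    (@En.n l8002 (nat_lit 2248) (nat_lit 6) (nat_lit 7))
    (@En.n l3229 (nat_lit 6361) (nat_lit 11) (nat_lit 9))
    (@En.n l8003 (nat_lit 1867) (nat_lit 12) (nat_lit 12))
    (@En.n l8004 (nat_lit 1867) (nat_lit 13) (nat_lit 9))
    (@En.n l8002 (nat_lit 2122) (nat_lit 14) (nat_lit 9))
    (@En.n l8005 (nat_lit 1493) (nat_lit 12) (nat_lit 10))
    (@En.n l3 (nat_lit 1866) (nat_lit 15) (nat_lit 2))))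
  (@Cl.mk (nat_lit 0x2000b0009000c0008000600050004000e00070002000e00080002000e000a) (nat_lit 0x67a6000000b1020) (nat_lit 16) Lb.e (@T16.mk En
    (@En.n l4920 (nat_lit 1870) (nat_lit 14) (nat_lit 10))
    (@En.n l5 (nat_lit 1772) (nat_lit 1) (nat_lit 14))
    (@En.n l50 (nat_lit 1867) (nat_lit 2) (nat_lit 2))
    (@En.i (nat_lit 1860) (nat_lit 14) (nat_lit 8))
    (@En.n l4921 (nat_lit 5152) (nat_lit 1) (nat_lit 14))
    (@En.n l28 (nat_lit 1867) (nat_lit 5) (nat_lit 2))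
    (@En.n l4922 (nat_lit 1866) (nat_lit 6) (nat_lit 7))
    (@En.n l4923 (nat_lit 1943) (nat_lit 1) (nat_lit 14))
    (@En.n l152 (nat_lit 1685) (nat_lit 8) (nat_lit 4))
    (@En.n l4924 (nat_lit 4149) (nat_lit 9) (nat_lit 5))
    (@En.n l2552 (nat_lit 2249) (nat_lit 7) (nat_lit 6))
    (@En.n l1262 (nat_lit 6295) (nat_lit 12) (nat_lit 8))
    (@En.n l4925 (nat_lit 13101) (nat_lit 6) (nat_lit 12))
    (@En.i (nat_lit 3949) (nat_lit 14) (nat_lit 9))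
    (@En.n l4925 (nat_lit 1806) (nat_lit 12) (nat_lit 11))
    (@En.n l17 (nat_lit 1867) (nat_lit 15) (nat_lit 2))))
  (@Cl.mk (nat_lit 0x20009000e00090002000c000a0008000700040007000e00060002000e0008) (nat_lit 0x6010185000b0020) (nat_lit 16) Lb.e (@T16.mk En
    (@En.n l3400 (nat_lit 1871) (nat_lit 14) (nat_lit 8))
    (@En.n l3401 (nat_lit 1668) (nat_lit 1) (nat_lit 14))
    (@En.n l50 (nat_lit 1868) (nat_lit 2) (nat_lit 2))
    (@En.n l3402 (nat_lit 1865) (nat_lit 3) (nat_lit 6))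
    (@En.n l3403 (nat_lit 5750) (nat_lit 5) (nat_lit 14))
    (@En.n l117 (nat_lit 3286) (nat_lit 5) (nat_lit 7))
    (@En.n l575 (nat_lit 1678) (nat_lit 6) (nat_lit 4))
    (@En.n l3404 (nat_lit 4145) (nat_lit 7) (nat_lit 7))
    (@En.n l1578 (nat_lit 3680) (nat_lit 5) (nat_lit 8))
    (@En.n l3405 (nat_lit 7142) (nat_lit 14) (nat_lit 10))
    (@En.n l3406 (nat_lit 1866) (nat_lit 11) (nat_lit 12))
    (@En.n l3 (nat_lit 1868) (nat_lit 11) (nat_lit 2))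
    (@En.n l3407 (nat_lit 1866) (nat_lit 13) (nat_lit 9))
    (@En.i (nat_lit 4907) (nat_lit 1) (nat_lit 14))
    (@En.n l3408 (nat_lit 1492) (nat_lit 12) (nat_lit 9))
    (@En.n l17 (nat_lit 1868) (nat_lit 15) (nat_lit 2))))
  (@Cl.mk (nat_lit 0x200090009000900080008000b0008000700070007000500080008000e0008) (nat_lit 0x305000300001351) (nat_lit 16) Lb.e (@T16.mk En
    (@En.n l19088 (nat_lit 1660) (nat_lit 12) (nat_lit 8))
    (@En.n l15627 (nat_lit 5157) (nat_lit 1) (nat_lit 14))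
    (@En.n l19089 (nat_lit 1871) (nat_lit 2) (nat_lit 8))
    (@En.n l19090 (nat_lit 1616) (nat_lit 3) (nat_lit 8))
    (@En.n l19091 (nat_lit 1681) (nat_lit 4) (nat_lit 5))
    (@En.n l5162 (nat_lit 1911) (nat_lit 5) (nat_lit 7))
    (@En.n l19092 (nat_lit 1866) (nat_lit 9) (nat_lit 7))
    (@En.n l19093 (nat_lit 2401) (nat_lit 7) (nat_lit 7))
    (@En.n l15627 (nat_lit 5916) (nat_lit 9) (nat_lit 8))
    (@En.n l10765 (nat_lit 1870) (nat_lit 10) (nat_lit 11))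
    (@En.n l13032 (nat_lit 1870) (nat_lit 11) (nat_lit 8))
    (@En.n l19094 (nat_lit 3151) (nat_lit 12) (nat_lit 8))
    (@En.n l19095 (nat_lit 1956) (nat_lit 7) (nat_lit 9))
    (@En.n l19096 (nat_lit 1976) (nat_lit 7) (nat_lit 9))
    (@En.n l19097 (nat_lit 1939) (nat_lit 10) (nat_lit 9))
    (@En.n l67 (nat_lit 1869) (nat_lit 15) (nat_lit 2))))
  (@Cl.mk (nat_lit 0x2000a000a000a0008000b00070006000600060005000e00080002000e0009) (nat_lit 0x8056900000120a1) (nat_lit 16) Lb.e (@T16.mk En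
    (@En.i (nat_lit 1557) (nat_lit 14) (nat_lit 9))
    (@En.n l1585 (nat_lit 5156) (nat_lit 1) (nat_lit 14))
    (@En.n l107 (nat_lit 1870) (nat_lit 2) (nat_lit 2))
    (@En.n l12817 (nat_lit 1869) (nat_lit 3) (nat_lit 8))
    (@En.n l11194 (nat_lit 1618) (nat_lit 1) (nat_lit 14))
    (@En.n l12818 (nat_lit 1684) (nat_lit 5) (nat_lit 5))
    (@En.n l4907 (nat_lit 1913) (nat_lit 10) (nat_lit 6))
    (@En.n l12819 (nat_lit 1867) (nat_lit 10) (nat_lit 6))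
    (@En.n l12820 (nat_lit 2398) (nat_lit 8) (nat_lit 6))
    (@En.n l11194 (nat_lit 6287) (nat_lit 6) (nat_lit 7))
    (@En.i (nat_lit 12988) (nat_lit 7) (nat_lit 11))
    (@En.n l12821 (nat_lit 4566) (nat_lit 12) (nat_lit 8))
    (@En.n l742 (nat_lit 1957) (nat_lit 6) (nat_lit 10))
    (@En.n l12822 (nat_lit 1977) (nat_lit 6) (nat_lit 10))
    (@En.n l1584 (nat_lit 1979) (nat_lit 12) (nat_lit 10))
    (@En.n l28 (nat_lit 1870) (nat_lit 15) (nat_lit 2))))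
  (@Cl.mk (nat_lit 0x2000800080008000e00080002000b000900080008000800050008000e0007) (nat_lit 0x605b10170600220) (nat_lit 16) Lb.e (@T16.mk En
    (@En.n l152 (nat_lit 1659) (nat_lit 6) (nat_lit 7))
    (@En.n l9663 (nat_lit 5746) (nat_lit 1) (nat_lit 14))
    (@En.i (nat_lit 3099) (nat_lit 2) (nat_lit 8))
    (@En.n l4971 (nat_lit 1680) (nat_lit 3) (nat_lit 5))
    (@En.n l9664 (nat_lit 1912) (nat_lit 4) (nat_lit 8))
    (@En.n l9665 (nat_lit 1868) (nat_lit 8) (nat_lit 8))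
    (@En.n l9666 (nat_lit 2449) (nat_lit 6) (nat_lit 8))
    (@En.n l9667 (nat_lit 5911) (nat_lit 14) (nat_lit 9))
    (@En.n l9668 (nat_lit 1869) (nat_lit 9) (nat_lit 11))
    (@En.n l18 (nat_lit 1871) (nat_lit 9) (nat_lit 2))
    (@En.n l9669 (nat_lit 1869) (nat_lit 11) (nat_lit 8))
    (@En.n l9670 (nat_lit 4781) (nat_lit 12) (nat_lit 14))
    (@En.n l9671 (nat_lit 1661) (nat_lit 8) (nat_lit 8))
    (@En.n l9672 (nat_lit 1978) (nat_lit 14) (nat_lit 8))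
    (@En.n l9673 (nat_lit 3175) (nat_lit 4) (nat_lit 8))
    (@En.n l3 (nat_lit 1871) (nat_lit 15) (nat_lit 2))))
noncomputable def a117 : T16 Cl := @T16.mk Cl
  (@Cl.mk (nat_lit 0x20007000e00070002000d0007000a0003000e0009000200090006000e0009) (nat_lit 0x90070809605061) (nat_lit 16) Lb.e (@T16.mk En
    (@En.n l10872 (nat_lit 1507) (nat_lit 12) (nat_lit 9))
    (@En.n l1578 (nat_lit 1651) (nat_lit 1) (nat_lit 14))
    (@En.i (nat_lit 5384) (nat_lit 14) (nat_lit 6))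
    (@En.n l3269 (nat_lit 2607) (nat_lit 3) (nat_lit 9))
    (@En.n l3 (nat_lit 1872) (nat_lit 4) (nat_lit 2))
    (@En.n l1269 (nat_lit 1505) (nat_lit 5) (nat_lit 9))
    (@En.n l10873 (nat_lit 4644) (nat_lit 1) (nat_lit 14))
    (@En.n l10874 (nat_lit 1652) (nat_lit 7) (nat_lit 3))
    (@En.i (nat_lit 12906) (nat_lit 8) (nat_lit 10))
    (@En.n l764 (nat_lit 4214) (nat_lit 14) (nat_lit 7))
    (@En.n l1266 (nat_lit 1431) (nat_lit 11) (nat_lit 13))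
    (@En.n l50 (nat_lit 1872) (nat_lit 11) (nat_lit 2))
    (@En.n l1267 (nat_lit 1622) (nat_lit 13) (nat_lit 7))
    (@En.n l7593 (nat_lit 1875) (nat_lit 9) (nat_lit 14))
    (@En.i (nat_lit 9046) (nat_lit 2) (nat_lit 7))
    (@En.n l28 (nat_lit 1872) (nat_lit 15) (nat_lit 2))))
  (@Cl.mk (nat_lit 0x20009000c00070007000a0004000e00070002000b000600090009000e0005) (nat_lit 0x270000800700270) (nat_lit 16) Lb.e (@T16.mk En
    (@En.n l33458 (nat_lit 1881) (nat_lit 9) (nat_lit 5))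
    (@En.n l2520 (nat_lit 3459) (nat_lit 11) (nat_lit 14))
    (@En.n l33459 (nat_lit 1877) (nat_lit 2) (nat_lit 9))
    (@En.n l33460 (nat_lit 5001) (nat_lit 9) (nat_lit 9))
    (@En.i (nat_lit 2084) (nat_lit 14) (nat_lit 6))
    (@En.n l33461 (nat_lit 2445) (nat_lit 6) (nat_lit 11))
    (@En.n l7 (nat_lit 1873) (nat_lit 6) (nat_lit 2))
    (@En.n l33462 (nat_lit 1876) (nat_lit 7) (nat_lit 7))
    (@En.n l33463 (nat_lit 5947) (nat_lit 1) (nat_lit 14))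
    (@En.n l33464 (nat_lit 4944) (nat_lit 9) (nat_lit 4))
    (@En.n l8769 (nat_lit 1875) (nat_lit 3) (nat_lit 10))
    (@En.n l8744 (nat_lit 1875) (nat_lit 4) (nat_lit 7))
    (@En.i (nat_lit 3402) (nat_lit 5) (nat_lit 7))
    (@En.n l7611 (nat_lit 14041) (nat_lit 6) (nat_lit 12))
    (@En.n l33465 (nat_lit 1301) (nat_lit 8) (nat_lit 9))
    (@En.n l3 (nat_lit 1873) (nat_lit 15) (nat_lit 2))))
  (@Cl.mk (nat_lit 0x2000a000a000d0008000b000300060006000a0005000e00080002000e0006) (nat_lit 0x239000005050070) (nat_lit 16) Lb.e (@T16.mk En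
    (@En.n l7190 (nat_lit 1884) (nat_lit 14) (nat_lit 6))
    (@En.n l3927 (nat_lit 3460) (nat_lit 1) (nat_lit 14))
    (@En.n l28 (nat_lit 1874) (nat_lit 2) (nat_lit 2))
    (@En.n l1177 (nat_lit 1876) (nat_lit 3) (nat_lit 8))
    (@En.n l2379 (nat_lit 4947) (nat_lit 1) (nat_lit 14))
    (@En.n l7191 (nat_lit 2088) (nat_lit 5) (nat_lit 5))
    (@En.i (nat_lit 2610) (nat_lit 3) (nat_lit 10))
    (@En.n l725 (nat_lit 5008) (nat_lit 10) (nat_lit 6))
    (@En.n l2382 (nat_lit 5009) (nat_lit 12) (nat_lit 6))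
    (@En.n l3 (nat_lit 4939) (nat_lit 9) (nat_lit 3))
    (@En.n l2382 (nat_lit 13750) (nat_lit 7) (nat_lit 11))
    (@En.n l3851 (nat_lit 4588) (nat_lit 12) (nat_lit 8))
    (@En.n l7192 (nat_lit 1875) (nat_lit 5) (nat_lit 13))
    (@En.n l7193 (nat_lit 1875) (nat_lit 6) (nat_lit 10))
    (@En.n l7194 (nat_lit 1304) (nat_lit 12) (nat_lit 10))
    (@En.n l50 (nat_lit 1874) (nat_lit 15) (nat_lit 2))))
  (@Cl.mk (nat_lit 0x2000a0006000e00090002000e00060002000a000d0007000a0003000e0006) (nat_lit 0x6061080028080c0) (nat_lit 16) Lb.e (@T16.mk En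
    (@En.n l17715 (nat_lit 1874) (nat_lit 8) (nat_lit 6))
    (@En.n l17716 (nat_lit 5948) (nat_lit 1) (nat_lit 14))
    (@En.n l1529 (nat_lit 4941) (nat_lit 2) (nat_lit 3))
    (@En.n l2680 (nat_lit 13752) (nat_lit 8) (nat_lit 10))
    (@En.n l1013 (nat_lit 3399) (nat_lit 4) (nat_lit 7))
    (@En.i (nat_lit 14043) (nat_lit 5) (nat_lit 13))
    (@En.n l11947 (nat_lit 1305) (nat_lit 12) (nat_lit 10))
    (@En.n l11 (nat_lit 1875) (nat_lit 7) (nat_lit 2))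
    (@En.n l17717 (nat_lit 1885) (nat_lit 14) (nat_lit 6))
    (@En.n l17718 (nat_lit 3458) (nat_lit 1) (nat_lit 14))
    (@En.n l3 (nat_lit 1875) (nat_lit 10) (nat_lit 2))
    (@En.n l8874 (nat_lit 1873) (nat_lit 3) (nat_lit 9))
    (@En.n l17719 (nat_lit 4966) (nat_lit 1) (nat_lit 14))
    (@En.i (nat_lit 1983) (nat_lit 14) (nat_lit 6))
    (@En.n l17720 (nat_lit 2609) (nat_lit 3) (nat_lit 10))
    (@En.n l17 (nat_lit 1875) (nat_lit 15) (nat_lit 2))))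
  (@Cl.mk (nat_lit 0x200090009000c00080008000b000400070007000b000500080008000e0005) (nat_lit 0x338011000606250) (nat_lit 16) Lb.e (@T16.mk En
    (@En.n l17758 (nat_lit 1880) (nat_lit 7) (nat_lit 5))
    (@En.n l3345 (nat_lit 3461) (nat_lit 1) (nat_lit 14))
    (@En.n l107 (nat_lit 1878) (nat_lit 2) (nat_lit 8))
    (@En.n l9541 (nat_lit 4999) (nat_lit 10) (nat_lit 8))
    (@En.n l14776 (nat_lit 2086) (nat_lit 4) (nat_lit 5))
    (@En.i (nat_lit 2614) (nat_lit 6) (nat_lit 11))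
    (@En.n l725 (nat_lit 1879) (nat_lit 9) (nat_lit 7))
    (@En.n l9541 (nat_lit 5010) (nat_lit 11) (nat_lit 7))
    (@En.n l15648 (nat_lit 4943) (nat_lit 8) (nat_lit 4))
    (@En.n l3839 (nat_lit 1874) (nat_lit 10) (nat_lit 11))
    (@En.n l2535 (nat_lit 1874) (nat_lit 11) (nat_lit 8))
    (@En.n l17759 (nat_lit 4533) (nat_lit 12) (nat_lit 8))
    (@En.n l17760 (nat_lit 1873) (nat_lit 13) (nat_lit 12))
    (@En.n l17761 (nat_lit 1873) (nat_lit 14) (nat_lit 9))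
    (@En.n l17762 (nat_lit 1300) (nat_lit 5) (nat_lit 9))
    (@En.n l50 (nat_lit 1876) (nat_lit 15) (nat_lit 2))))
  (@Cl.mk (nat_lit 0x20008000b000e00070002000a0005000e00080002000c00060009000e0004) (nat_lit 0x260001090080160) (nat_lit 16) Lb.e (@T16.mk En
    (@En.n l28 (nat_lit 1883) (nat_lit 5) (nat_lit 4))
    (@En.n l21007 (nat_lit 2134) (nat_lit 7) (nat_lit 14))
    (@En.i (nat_lit 922) (nat_lit 9) (nat_lit 9))
    (@En.n l11757 (nat_lit 2085) (nat_lit 14) (nat_lit 6))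
    (@En.n l12650 (nat_lit 2617) (nat_lit 10) (nat_lit 12))
    (@En.n l107 (nat_lit 1877) (nat_lit 5) (nat_lit 2))
    (@En.n l21008 (nat_lit 1878) (nat_lit 6) (nat_lit 8))
    (@En.n l21007 (nat_lit 5946) (nat_lit 1) (nat_lit 14))
    (@En.n l21009 (nat_lit 5001) (nat_lit 14) (nat_lit 5))
    (@En.n l21010 (nat_lit 1873) (nat_lit 10) (nat_lit 10))
    (@En.n l18 (nat_lit 1877) (nat_lit 10) (nat_lit 2))
    (@En.n l21011 (nat_lit 1873) (nat_lit 12) (nat_lit 7))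
    (@En.n l561 (nat_lit 12539) (nat_lit 13) (nat_lit 14))
    (@En.i (nat_lit 14042) (nat_lit 7) (nat_lit 11))
    (@En.n l564 (nat_lit 917) (nat_lit 3) (nat_lit 8))
    (@En.n l7 (nat_lit 1877) (nat_lit 15) (nat_lit 2))))
  (@Cl.mk (nat_lit 0x200080008000b000e00080002000b000500080008000c00050008000e0004) (nat_lit 0x337010206070140) (nat_lit 16) Lb.e (@T16.mk En
    (@En.n l9538 (nat_lit 1882) (nat_lit 6) (nat_lit 4))
    (@En.n l3345 (nat_lit 2135) (nat_lit 8) (nat_lit 14))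
    (@En.n l617 (nat_lit 699) (nat_lit 10) (nat_lit 8))
    (@En.i (nat_lit 2083) (nat_lit 3) (nat_lit 5))
    (@En.i (nat_lit 2615) (nat_lit 11) (nat_lit 12))
    (@En.n l725 (nat_lit 5000) (nat_lit 8) (nat_lit 8))
    (@En.i (nat_lit 5014) (nat_lit 6) (nat_lit 8))
    (@En.n l2611 (nat_lit 4999) (nat_lit 14) (nat_lit 5))
    (@En.i (nat_lit 1876) (nat_lit 9) (nat_lit 11))
    (@En.n l3 (nat_lit 1878) (nat_lit 9) (nat_lit 2))
    (@En.n l97 (nat_lit 1876) (nat_lit 11) (nat_lit 8))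
    (@En.n l617 (nat_lit 12538) (nat_lit 4) (nat_lit 14))
    (@En.n l14563 (nat_lit 1877) (nat_lit 13) (nat_lit 11))
    (@En.n l13787 (nat_lit 1877) (nat_lit 14) (nat_lit 8))
    (@En.n l387 (nat_lit 1302) (nat_lit 4) (nat_lit 8))
    (@En.n l50 (nat_lit 1878) (nat_lit 15) (nat_lit 2))))
  (@Cl.mk (nat_lit 0x2000c00090009000c00040007000b000400070007000e00050002000e0009) (nat_lit 0x900000500050064) (nat_lit 16) Lb.e (@T16.mk En
    (@En.n l1353 (nat_lit 1876) (nat_lit 14) (nat_lit 9))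
    (@En.n l1758 (nat_lit 1456) (nat_lit 1) (nat_lit 14))
    (@En.n l50 (nat_lit 1879) (nat_lit 2) (nat_lit 2))
    (@En.n l117 (nat_lit 4993) (nat_lit 3) (nat_lit 5))
    (@En.n l2036 (nat_lit 3463) (nat_lit 1) (nat_lit 14))
    (@En.n l107 (nat_lit 5000) (nat_lit 5) (nat_lit 7))
    (@En.n l2068 (nat_lit 4998) (nat_lit 11) (nat_lit 7))
    (@En.n l14776 (nat_lit 2087) (nat_lit 7) (nat_lit 4))
    (@En.i (nat_lit 2371) (nat_lit 9) (nat_lit 11))
    (@En.n l2068 (nat_lit 4167) (nat_lit 11) (nat_lit 7))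
    (@En.n l7087 (nat_lit 4945) (nat_lit 10) (nat_lit 4))
    (@En.n l3839 (nat_lit 5008) (nat_lit 12) (nat_lit 12))
    (@En.n l2535 (nat_lit 5008) (nat_lit 13) (nat_lit 9))
    (@En.n l1578 (nat_lit 3452) (nat_lit 14) (nat_lit 9))
    (@En.i (nat_lit 1876) (nat_lit 12) (nat_lit 12))
    (@En.n l17 (nat_lit 1879) (nat_lit 15) (nat_lit 2))))
  (@Cl.mk (nat_lit 0x400070007000b000b0006000900090005000500090009000c00070007000a) (nat_lit 0x7700200237000) (nat_lit 16) Lb.e (@T16.mk En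
    (@En.n l21928 (nat_lit 1884) (nat_lit 8) (nat_lit 10))
    (@En.n l21929 (nat_lit 1884) (nat_lit 9) (nat_lit 7))
    (@En.n l1643 (nat_lit 4528) (nat_lit 3) (nat_lit 7))
    (@En.n l3 (nat_lit 1881) (nat_lit 6) (nat_lit 12))
    (@En.n l527 (nat_lit 1881) (nat_lit 7) (nat_lit 9))
    (@En.n l1974 (nat_lit 371) (nat_lit 10) (nat_lit 9))
    (@En.n l55 (nat_lit 4986) (nat_lit 11) (nat_lit 5))
    (@En.n l33488 (nat_lit 5388) (nat_lit 7) (nat_lit 5))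
    (@En.n l9762 (nat_lit 1882) (nat_lit 7) (nat_lit 9))
    (@En.i (nat_lit 4997) (nat_lit 9) (nat_lit 9))
    (@En.n l1911 (nat_lit 1462) (nat_lit 2) (nat_lit 6))
    (@En.n l33489 (nat_lit 1876) (nat_lit 5) (nat_lit 11))
    (@En.n l23603 (nat_lit 2611) (nat_lit 8) (nat_lit 11))
    (@En.n l33490 (nat_lit 4993) (nat_lit 9) (nat_lit 7))
    (@En.n l11174 (nat_lit 5012) (nat_lit 11) (nat_lit 7))
    (@En.n l12199 (nat_lit 4917) (nat_lit 15) (nat_lit 4))))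
  (@Cl.mk (nat_lit 0x2000b000b0007000a000a000500050009000c0006000600090004000e0007) (nat_lit 0x8800200260000c0) (nat_lit 16) Lb.e (@T16.mk En
    (@En.i (nat_lit 1880) (nat_lit 14) (nat_lit 7))
    (@En.n l97 (nat_lit 5021) (nat_lit 1) (nat_lit 14))
    (@En.n l387 (nat_lit 4970) (nat_lit 2) (nat_lit 4))
    (@En.n l21928 (nat_lit 1885) (nat_lit 9) (nat_lit 9))
    (@En.n l21929 (nat_lit 1885) (nat_lit 10) (nat_lit 6))
    (@En.n l1643 (nat_lit 4532) (nat_lit 5) (nat_lit 6))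
    (@En.n l13648 (nat_lit 14044) (nat_lit 6) (nat_lit 12))
    (@En.n l1974 (nat_lit 369) (nat_lit 10) (nat_lit 9))
    (@En.n l55 (nat_lit 4984) (nat_lit 11) (nat_lit 5))
    (@En.n l13648 (nat_lit 5392) (nat_lit 9) (nat_lit 5))
    (@En.n l9762 (nat_lit 1883) (nat_lit 6) (nat_lit 10))
    (@En.i (nat_lit 5002) (nat_lit 8) (nat_lit 10))
    (@En.n l40355 (nat_lit 1464) (nat_lit 13) (nat_lit 7))
    (@En.n l39905 (nat_lit 1873) (nat_lit 5) (nat_lit 11))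
    (@En.i (nat_lit 2612) (nat_lit 12) (nat_lit 11))
    (@En.n l107 (nat_lit 1881) (nat_lit 15) (nat_lit 2))))
  (@Cl.mk (nat_lit 0x2000a000500080008000c000c000600090004000400080008000b000e0007) (nat_lit 0x100088010023600) (nat_lit 16) Lb.e (@T16.mk En
    (@En.n l3506 (nat_lit 1880) (nat_lit 2) (nat_lit 7))
    (@En.n l13082 (nat_lit 12532) (nat_lit 4) (nat_lit 14))
    (@En.n l3 (nat_lit 1883) (nat_lit 2) (nat_lit 11))
    (@En.n l527 (nat_lit 1883) (nat_lit 3) (nat_lit 8))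
    (@En.n l564 (nat_lit 913) (nat_lit 4) (nat_lit 8))
    (@En.n l7 (nat_lit 4985) (nat_lit 12) (nat_lit 4))
    (@En.n l20153 (nat_lit 5006) (nat_lit 6) (nat_lit 4))
    (@En.i (nat_lit 708) (nat_lit 9) (nat_lit 9))
    (@En.n l9555 (nat_lit 2000) (nat_lit 8) (nat_lit 6))
    (@En.n l26805 (nat_lit 1878) (nat_lit 4) (nat_lit 12))
    (@En.n l13085 (nat_lit 2619) (nat_lit 11) (nat_lit 12))
    (@En.n l13086 (nat_lit 4995) (nat_lit 12) (nat_lit 8))
    (@En.n l13085 (nat_lit 5013) (nat_lit 13) (nat_lit 8))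
    (@En.n l18840 (nat_lit 4997) (nat_lit 14) (nat_lit 5))
    (@En.n l22009 (nat_lit 1880) (nat_lit 0) (nat_lit 10))
    (@En.n l18 (nat_lit 1882) (nat_lit 15) (nat_lit 2))))
  (@Cl.mk (nat_lit 0x200090005000e00080002000c000c0007000a000400040008000b000e0006) (nat_lit 0x10c109901002500) (nat_lit 16) Lb.e (@T16.mk En
    (@En.n l3506 (nat_lit 1881) (nat_lit 5) (nat_lit 6))
    (@En.n l1643 (nat_lit 12537) (nat_lit 7) (nat_lit 14))
    (@En.i (nat_lit 14045) (nat_lit 7) (nat_lit 11))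
    (@En.n l564 (nat_lit 911) (nat_lit 3) (nat_lit 8))
    (@En.n l7 (nat_lit 4983) (nat_lit 4) (nat_lit 4))
    (@En.i (nat_lit 6716) (nat_lit 5) (nat_lit 4))
    (@En.i (nat_lit 927) (nat_lit 8) (nat_lit 10))
    (@En.n l6296 (nat_lit 2002) (nat_lit 7) (nat_lit 7))
    (@En.n l134 (nat_lit 1877) (nat_lit 4) (nat_lit 12))
    (@En.i (nat_lit 2621) (nat_lit 10) (nat_lit 12))
    (@En.n l107 (nat_lit 1883) (nat_lit 10) (nat_lit 2))
    (@En.i (nat_lit 1882) (nat_lit 12) (nat_lit 8))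
    (@En.n l97 (nat_lit 5905) (nat_lit 1) (nat_lit 14))
    (@En.n l18840 (nat_lit 5002) (nat_lit 14) (nat_lit 5))
    (@En.n l22009 (nat_lit 1881) (nat_lit 3) (nat_lit 9))
    (@En.n l18 (nat_lit 1883) (nat_lit 15) (nat_lit 2))))
  (@Cl.mk (nat_lit 0x200060006000a000a000d0007000a000300060006000a000a0006000e0009) (nat_lit 0x2370800066061) (nat_lit 16) Lb.e (@T16.mk En
    (@En.n l10283 (nat_lit 1880) (nat_lit 9) (nat_lit 9))
    (@En.n l601 (nat_lit 4967) (nat_lit 1) (nat_lit 14))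
    (@En.n l1865 (nat_lit 1459) (nat_lit 2) (nat_lit 6))
    (@En.n l17734 (nat_lit 1874) (nat_lit 6) (nat_lit 10))
    (@En.n l10285 (nat_lit 2607) (nat_lit 4) (nat_lit 10))
    (@En.n l17735 (nat_lit 4994) (nat_lit 5) (nat_lit 6))
    (@En.n l5469 (nat_lit 5011) (nat_lit 6) (nat_lit 6))
    (@En.n l17736 (nat_lit 4873) (nat_lit 7) (nat_lit 3))
    (@En.i (nat_lit 13746) (nat_lit 8) (nat_lit 10))
    (@En.n l17737 (nat_lit 4527) (nat_lit 10) (nat_lit 7))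
    (@En.n l476 (nat_lit 1885) (nat_lit 11) (nat_lit 13))
    (@En.n l152 (nat_lit 1885) (nat_lit 12) (nat_lit 10))
    (@En.n l2032 (nat_lit 370) (nat_lit 13) (nat_lit 10))
    (@En.n l575 (nat_lit 4874) (nat_lit 14) (nat_lit 6))
    (@En.n l2032 (nat_lit 5391) (nat_lit 6) (nat_lit 6))
    (@En.n l50 (nat_lit 1884) (nat_lit 15) (nat_lit 2))))
  (@Cl.mk (nat_lit 0x200060006000a000d000600090003000e00060002000a000a0007000e000a) (nat_lit 0x26070b0077071) (nat_lit 16) Lb.e (@T16.mk En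
    (@En.n l10283 (nat_lit 1881) (nat_lit 11) (nat_lit 10))
    (@En.n l601 (nat_lit 4968) (nat_lit 1) (nat_lit 14))
    (@En.n l7683 (nat_lit 1463) (nat_lit 2) (nat_lit 7))
    (@En.n l7173 (nat_lit 1875) (nat_lit 14) (nat_lit 10))
    (@En.i (nat_lit 2606) (nat_lit 4) (nat_lit 10))
    (@En.n l3 (nat_lit 1885) (nat_lit 5) (nat_lit 2))
    (@En.i (nat_lit 1884) (nat_lit 6) (nat_lit 6))
    (@En.n l2977 (nat_lit 5258) (nat_lit 8) (nat_lit 14))
    (@En.n l3291 (nat_lit 4938) (nat_lit 8) (nat_lit 3))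
    (@En.i (nat_lit 13747) (nat_lit 9) (nat_lit 9))
    (@En.n l2869 (nat_lit 3423) (nat_lit 4) (nat_lit 6))
    (@En.n l2032 (nat_lit 13770) (nat_lit 5) (nat_lit 13))
    (@En.n l2032 (nat_lit 368) (nat_lit 13) (nat_lit 10))
    (@En.n l575 (nat_lit 4987) (nat_lit 14) (nat_lit 6))
    (@En.n l2032 (nat_lit 5393) (nat_lit 8) (nat_lit 6))
    (@En.n l50 (nat_lit 1885) (nat_lit 15) (nat_lit 2))))
  (@Cl.mk (nat_lit 0x20005000d0009000e000300020008000b000e00070002000b0005000e0008) (nat_lit 0x87a00694005056) (nat_lit 16) Lb.e (@T16.mk En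
    (@En.n l28783 (nat_lit 1353) (nat_lit 6) (nat_lit 8))
    (@En.n l13754 (nat_lit 1887) (nat_lit 1) (nat_lit 14))
    (@En.n l26302 (nat_lit 1350) (nat_lit 14) (nat_lit 5))
    (@En.i (nat_lit 1056) (nat_lit 3) (nat_lit 11))
    (@En.n l476 (nat_lit 1886) (nat_lit 4) (nat_lit 2))
    (@En.n l3549 (nat_lit 619) (nat_lit 5) (nat_lit 7))
    (@En.n l11814 (nat_lit 2694) (nat_lit 7) (nat_lit 14))
    (@En.i (nat_lit 13603) (nat_lit 7) (nat_lit 11))
    (@En.n l11814 (nat_lit 10758) (nat_lit 3) (nat_lit 8))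
    (@En.n l11 (nat_lit 1886) (nat_lit 9) (nat_lit 2))
    (@En.n l18528 (nat_lit 1264) (nat_lit 10) (nat_lit 3))
    (@En.n l513 (nat_lit 14094) (nat_lit 0) (nat_lit 14))
    (@En.n l33209 (nat_lit 1425) (nat_lit 13) (nat_lit 9))
    (@En.n l11819 (nat_lit 6717) (nat_lit 9) (nat_lit 13))
    (@En.n l12335 (nat_lit 1889) (nat_lit 4) (nat_lit 5))
    (@En.n l17 (nat_lit 1886) (nat_lit 15) (nat_lit 2))))
  (@Cl.mk (nat_lit 0x200080005000d0009000e0003000200090008000e00070002000b000e0007) (nat_lit 0x1087a0071200540) (nat_lit 16) Lb.e (@T16.mk En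
    (@En.n l12210 (nat_lit 1241) (nat_lit 7) (nat_lit 7))
    (@En.n l619 (nat_lit 1890) (nat_lit 9) (nat_lit 14))
    (@En.n l2689 (nat_lit 1052) (nat_lit 2) (nat_lit 11))
    (@En.n l17 (nat_lit 1887) (nat_lit 3) (nat_lit 2))
    (@En.n l9515 (nat_lit 614) (nat_lit 4) (nat_lit 7))
    (@En.n l6050 (nat_lit 2691) (nat_lit 6) (nat_lit 14))
    (@En.i (nat_lit 682) (nat_lit 6) (nat_lit 8))
    (@En.n l16632 (nat_lit 7946) (nat_lit 3) (nat_lit 9))
    (@En.n l50 (nat_lit 1887) (nat_lit 8) (nat_lit 2))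
    (@En.n l7 (nat_lit 1260) (nat_lit 9) (nat_lit 3))
    (@En.n l278 (nat_lit 13477) (nat_lit 0) (nat_lit 14))
    (@En.i (nat_lit 1424) (nat_lit 2) (nat_lit 9))
    (@En.n l18035 (nat_lit 5908) (nat_lit 9) (nat_lit 13))
    (@En.n l5421 (nat_lit 1886) (nat_lit 14) (nat_lit 5))
    (@En.n l12222 (nat_lit 1353) (nat_lit 5) (nat_lit 8))
    (@En.n l107 (nat_lit 1887) (nat_lit 15) (nat_lit 2))))
noncomputable def a118 : T16 Cl := @T16.mk Cl
  (@Cl.mk (nat_lit 0x20005000d0009000e00030002000a0009000e00070002000b0006000e0007) (nat_lit 0x81a007130030a0) (nat_lit 16) Lb.e (@T16.mk En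
    (@En.n l8968 (nat_lit 1241) (nat_lit 6) (nat_lit 7))
    (@En.n l8969 (nat_lit 1889) (nat_lit 8) (nat_lit 14))
    (@En.n l8970 (nat_lit 2006) (nat_lit 14) (nat_lit 6))
    (@En.i (nat_lit 333) (nat_lit 3) (nat_lit 11))
    (@En.n l3 (nat_lit 1888) (nat_lit 4) (nat_lit 2))
    (@En.n l527 (nat_lit 615) (nat_lit 5) (nat_lit 7))
    (@En.n l8971 (nat_lit 2754) (nat_lit 7) (nat_lit 14))
    (@En.n l217 (nat_lit 453) (nat_lit 14) (nat_lit 9))
    (@En.n l8972 (nat_lit 11508) (nat_lit 9) (nat_lit 10))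
    (@En.n l28 (nat_lit 1888) (nat_lit 9) (nat_lit 2))
    (@En.n l8973 (nat_lit 1240) (nat_lit 10) (nat_lit 3))
    (@En.n l8974 (nat_lit 13476) (nat_lit 0) (nat_lit 14))
    (@En.n l8975 (nat_lit 417) (nat_lit 13) (nat_lit 9))
    (@En.n l8976 (nat_lit 6383) (nat_lit 9) (nat_lit 13))
    (@En.n l8977 (nat_lit 1887) (nat_lit 13) (nat_lit 5))
    (@En.n l17 (nat_lit 1888) (nat_lit 15) (nat_lit 2))))
  (@Cl.mk (nat_lit 0x20007000a000e00070002000b000e0006000200090005000d0009000e0003) (nat_lit 0x14003900508190) (nat_lit 16) Lb.e (@T16.mk En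
    (@En.n l7 (nat_lit 1236) (nat_lit 9) (nat_lit 3))
    (@En.n l4799 (nat_lit 14042) (nat_lit 0) (nat_lit 14))
    (@En.n l210 (nat_lit 418) (nat_lit 2) (nat_lit 9))
    (@En.n l13167 (nat_lit 7826) (nat_lit 9) (nat_lit 13))
    (@En.n l21016 (nat_lit 1888) (nat_lit 14) (nat_lit 5))
    (@En.n l12205 (nat_lit 1234) (nat_lit 5) (nat_lit 9))
    (@En.n l3 (nat_lit 1889) (nat_lit 6) (nat_lit 2))
    (@En.n l19143 (nat_lit 1234) (nat_lit 7) (nat_lit 6))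
    (@En.i (nat_lit 3385) (nat_lit 9) (nat_lit 14))
    (@En.n l7709 (nat_lit 339) (nat_lit 2) (nat_lit 11))
    (@En.n l17 (nat_lit 1889) (nat_lit 10) (nat_lit 2))
    (@En.n l4356 (nat_lit 616) (nat_lit 4) (nat_lit 7))
    (@En.n l1638 (nat_lit 2755) (nat_lit 13) (nat_lit 14))
    (@En.n l7709 (nat_lit 683) (nat_lit 8) (nat_lit 10))
    (@En.n l998 (nat_lit 5688) (nat_lit 7) (nat_lit 7))
    (@En.n l50 (nat_lit 1889) (nat_lit 15) (nat_lit 2))))
  (@Cl.mk (nat_lit 0x2000a0008000e00070002000e00060002000e00080002000d0009000e0003) (nat_lit 0x1200300b2081b0) (nat_lit 16) Lb.e (@T16.mk En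
    (@En.n l7 (nat_lit 1891) (nat_lit 11) (nat_lit 3))
    (@En.n l685 (nat_lit 13478) (nat_lit 0) (nat_lit 14))
    (@En.i (nat_lit 1630) (nat_lit 2) (nat_lit 9))
    (@En.n l23992 (nat_lit 11538) (nat_lit 12) (nat_lit 13))
    (@En.n l11 (nat_lit 1890) (nat_lit 4) (nat_lit 2))
    (@En.n l15501 (nat_lit 1892) (nat_lit 14) (nat_lit 8))
    (@En.n l10841 (nat_lit 1888) (nat_lit 1) (nat_lit 14))
    (@En.n l3 (nat_lit 1890) (nat_lit 7) (nat_lit 2))
    (@En.n l19361 (nat_lit 1895) (nat_lit 14) (nat_lit 6))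
    (@En.n l877 (nat_lit 2125) (nat_lit 1) (nat_lit 14))
    (@En.n l17 (nat_lit 1890) (nat_lit 10) (nat_lit 2))
    (@En.n l23993 (nat_lit 2980) (nat_lit 12) (nat_lit 7))
    (@En.n l877 (nat_lit 2701) (nat_lit 13) (nat_lit 14))
    (@En.i (nat_lit 684) (nat_lit 14) (nat_lit 8))
    (@En.n l1304 (nat_lit 7937) (nat_lit 3) (nat_lit 10))
    (@En.n l50 (nat_lit 1890) (nat_lit 15) (nat_lit 2))))
  (@Cl.mk (nat_lit 0x2000d000d000a00030003000a0008000e00060002000e00060002000e0008) (nat_lit 0x7920001300c0022) (nat_lit 16) Lb.e (@T16.mk En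
    (@En.i (nat_lit 1893) (nat_lit 14) (nat_lit 8))
    (@En.i (nat_lit 1240) (nat_lit 1) (nat_lit 14))
    (@En.n l3 (nat_lit 1891) (nat_lit 2) (nat_lit 2))
    (@En.i (nat_lit 1896) (nat_lit 14) (nat_lit 6))
    (@En.n l877 (nat_lit 2127) (nat_lit 1) (nat_lit 14))
    (@En.n l17 (nat_lit 1891) (nat_lit 5) (nat_lit 2))
    (@En.n l4172 (nat_lit 2985) (nat_lit 6) (nat_lit 6))
    (@En.i (nat_lit 2697) (nat_lit 1) (nat_lit 14))
    (@En.i (nat_lit 687) (nat_lit 5) (nat_lit 8))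
    (@En.n l1304 (nat_lit 7938) (nat_lit 3) (nat_lit 10))
    (@En.n l50 (nat_lit 1898) (nat_lit 13) (nat_lit 3))
    (@En.i (nat_lit 1890) (nat_lit 0) (nat_lit 3))
    (@En.i (nat_lit 1629) (nat_lit 0) (nat_lit 10))
    (@En.n l601 (nat_lit 1890) (nat_lit 3) (nat_lit 13))
    (@En.n l287 (nat_lit 11539) (nat_lit 12) (nat_lit 13))
    (@En.n l11 (nat_lit 1891) (nat_lit 15) (nat_lit 2))))
  (@Cl.mk (nat_lit 0x200080008000d0008000e00030002000900080008000e00080002000e0007) (nat_lit 0x1571800012350c0) (nat_lit 16) Lb.e (@T16.mk En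
    (@En.n l2593 (nat_lit 1894) (nat_lit 14) (nat_lit 7))
    (@En.n l14797 (nat_lit 2128) (nat_lit 1) (nat_lit 14))
    (@En.n l3 (nat_lit 1892) (nat_lit 2) (nat_lit 2))
    (@En.n l16060 (nat_lit 2981) (nat_lit 3) (nat_lit 8))
    (@En.n l16061 (nat_lit 1887) (nat_lit 5) (nat_lit 14))
    (@En.n l16062 (nat_lit 1890) (nat_lit 13) (nat_lit 8))
    (@En.n l12457 (nat_lit 1210) (nat_lit 6) (nat_lit 8))
    (@En.n l15969 (nat_lit 7941) (nat_lit 4) (nat_lit 9))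
    (@En.n l28 (nat_lit 1892) (nat_lit 8) (nat_lit 2))
    (@En.n l4638 (nat_lit 1893) (nat_lit 9) (nat_lit 3))
    (@En.n l16063 (nat_lit 12995) (nat_lit 0) (nat_lit 14))
    (@En.n l12457 (nat_lit 1633) (nat_lit 2) (nat_lit 8))
    (@En.n l16064 (nat_lit 5721) (nat_lit 13) (nat_lit 13))
    (@En.n l217 (nat_lit 3667) (nat_lit 14) (nat_lit 8))
    (@En.i (nat_lit 1349) (nat_lit 12) (nat_lit 8))
    (@En.n l8 (nat_lit 1892) (nat_lit 15) (nat_lit 2))))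
  (@Cl.mk (nat_lit 0x200080008000d000d000900030003000900080008000e00070002000e0007) (nat_lit 0x1568200012400c0) (nat_lit 16) Lb.e (@T16.mk En
    (@En.i (nat_lit 1897) (nat_lit 14) (nat_lit 7))
    (@En.i (nat_lit 2126) (nat_lit 1) (nat_lit 14))
    (@En.n l17 (nat_lit 1893) (nat_lit 2) (nat_lit 2))
    (@En.n l4172 (nat_lit 2982) (nat_lit 3) (nat_lit 7))
    (@En.n l524 (nat_lit 1260) (nat_lit 5) (nat_lit 14))
    (@En.n l575 (nat_lit 1891) (nat_lit 8) (nat_lit 8))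
    (@En.i (nat_lit 1208) (nat_lit 6) (nat_lit 8))
    (@En.n l6578 (nat_lit 7945) (nat_lit 4) (nat_lit 9))
    (@En.n l50 (nat_lit 1899) (nat_lit 8) (nat_lit 3))
    (@En.n l15501 (nat_lit 1892) (nat_lit 9) (nat_lit 3))
    (@En.i (nat_lit 1649) (nat_lit 11) (nat_lit 9))
    (@En.n l15502 (nat_lit 1892) (nat_lit 12) (nat_lit 13))
    (@En.n l532 (nat_lit 5718) (nat_lit 13) (nat_lit 13))
    (@En.n l15503 (nat_lit 3666) (nat_lit 14) (nat_lit 8))
    (@En.n l15499 (nat_lit 1352) (nat_lit 12) (nat_lit 8))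
    (@En.n l3 (nat_lit 1893) (nat_lit 15) (nat_lit 2))))
  (@Cl.mk (nat_lit 0x20007000700070007000d0007000e000300020009000900090009000e0009) (nat_lit 0x60800012355) (nat_lit 16) Lb.e (@T16.mk En
    (@En.n l18567 (nat_lit 2978) (nat_lit 10) (nat_lit 9))
    (@En.n l211 (nat_lit 1241) (nat_lit 11) (nat_lit 14))
    (@En.n l7696 (nat_lit 1895) (nat_lit 2) (nat_lit 9))
    (@En.n l18576 (nat_lit 2924) (nat_lit 3) (nat_lit 9))
    (@En.n l564 (nat_lit 1892) (nat_lit 7) (nat_lit 9))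
    (@En.n l8355 (nat_lit 7487) (nat_lit 5) (nat_lit 9))
    (@En.n l28 (nat_lit 1894) (nat_lit 6) (nat_lit 2))
    (@En.n l2849 (nat_lit 1897) (nat_lit 7) (nat_lit 3))
    (@En.n l8355 (nat_lit 12909) (nat_lit 0) (nat_lit 14))
    (@En.i (nat_lit 1690) (nat_lit 2) (nat_lit 7))
    (@En.n l764 (nat_lit 5799) (nat_lit 11) (nat_lit 13))
    (@En.n l61 (nat_lit 2033) (nat_lit 12) (nat_lit 7))
    (@En.n l217 (nat_lit 3219) (nat_lit 13) (nat_lit 7))
    (@En.n l5802 (nat_lit 2034) (nat_lit 14) (nat_lit 7))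
    (@En.n l3426 (nat_lit 2142) (nat_lit 7) (nat_lit 7))
    (@En.n l3 (nat_lit 1894) (nat_lit 15) (nat_lit 2))))
  (@Cl.mk (nat_lit 0x200060006000e00070002000d0008000e00030002000a000a0009000e0008) (nat_lit 0x7130001245) (nat_lit 16) Lb.e (@T16.mk En
    (@En.n l34265 (nat_lit 2979) (nat_lit 11) (nat_lit 8))
    (@En.n l18460 (nat_lit 2700) (nat_lit 12) (nat_lit 14))
    (@En.n l7184 (nat_lit 972) (nat_lit 2) (nat_lit 9))
    (@En.n l34266 (nat_lit 1890) (nat_lit 14) (nat_lit 10))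
    (@En.n l5790 (nat_lit 7442) (nat_lit 4) (nat_lit 10))
    (@En.n l28 (nat_lit 1895) (nat_lit 5) (nat_lit 2))
    (@En.n l34267 (nat_lit 1896) (nat_lit 6) (nat_lit 3))
    (@En.n l34268 (nat_lit 13381) (nat_lit 0) (nat_lit 14))
    (@En.n l18646 (nat_lit 1692) (nat_lit 14) (nat_lit 8))
    (@En.i (nat_lit 11535) (nat_lit 10) (nat_lit 13))
    (@En.n l725 (nat_lit 1895) (nat_lit 10) (nat_lit 2))
    (@En.n l7046 (nat_lit 1894) (nat_lit 12) (nat_lit 7))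
    (@En.n l18582 (nat_lit 2006) (nat_lit 13) (nat_lit 14))
    (@En.n l644 (nat_lit 3426) (nat_lit 14) (nat_lit 6))
    (@En.n l2642 (nat_lit 2432) (nat_lit 8) (nat_lit 6))
    (@En.n l3 (nat_lit 1895) (nat_lit 15) (nat_lit 2))))
  (@Cl.mk (nat_lit 0x200060006000e00070002000d000d000900030003000a000a0009000e0007) (nat_lit 0xa006820001230) (nat_lit 16) Lb.e (@T16.mk En
    (@En.n l19360 (nat_lit 2914) (nat_lit 5) (nat_lit 7))
    (@En.n l1098 (nat_lit 2699) (nat_lit 1) (nat_lit 14))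
    (@En.i (nat_lit 970) (nat_lit 2) (nat_lit 9))
    (@En.n l152 (nat_lit 1891) (nat_lit 9) (nat_lit 10))
    (@En.n l1304 (nat_lit 7451) (nat_lit 4) (nat_lit 10))
    (@En.n l50 (nat_lit 2908) (nat_lit 5) (nat_lit 3))
    (@En.n l19361 (nat_lit 1895) (nat_lit 6) (nat_lit 3))
    (@En.n l2254 (nat_lit 1695) (nat_lit 0) (nat_lit 9))
    (@En.n l19362 (nat_lit 1895) (nat_lit 9) (nat_lit 13))
    (@En.n l19363 (nat_lit 11534) (nat_lit 10) (nat_lit 13))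
    (@En.n l11 (nat_lit 1896) (nat_lit 10) (nat_lit 2))
    (@En.i (nat_lit 1897) (nat_lit 12) (nat_lit 7))
    (@En.n l13828 (nat_lit 2005) (nat_lit 13) (nat_lit 14))
    (@En.n l19364 (nat_lit 2909) (nat_lit 14) (nat_lit 6))
    (@En.n l19365 (nat_lit 2386) (nat_lit 3) (nat_lit 6))
    (@En.n l17 (nat_lit 1896) (nat_lit 15) (nat_lit 2))))
  (@Cl.mk (nat_lit 0x20007000700070007000d000d0008000300030009000900090009000e0008) (nat_lit 0x57200012355) (nat_lit 16) Lb.e (@T16.mk En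
    (@En.n l5873 (nat_lit 2918) (nat_lit 9) (nat_lit 8))
    (@En.n l524 (nat_lit 1238) (nat_lit 1) (nat_lit 14))
    (@En.n l575 (nat_lit 1896) (nat_lit 2) (nat_lit 9))
    (@En.i (nat_lit 2923) (nat_lit 3) (nat_lit 9))
    (@En.n l152 (nat_lit 1893) (nat_lit 7) (nat_lit 9))
    (@En.n l6578 (nat_lit 7488) (nat_lit 5) (nat_lit 9))
    (@En.n l50 (nat_lit 2919) (nat_lit 6) (nat_lit 3))
    (@En.n l8074 (nat_lit 1894) (nat_lit 7) (nat_lit 3))
    (@En.n l6578 (nat_lit 1575) (nat_lit 0) (nat_lit 8))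
    (@En.n l8075 (nat_lit 1894) (nat_lit 10) (nat_lit 13))
    (@En.n l8076 (nat_lit 5796) (nat_lit 11) (nat_lit 13))
    (@En.n l8077 (nat_lit 2030) (nat_lit 12) (nat_lit 7))
    (@En.n l8078 (nat_lit 3218) (nat_lit 13) (nat_lit 7))
    (@En.n l8079 (nat_lit 2031) (nat_lit 14) (nat_lit 7))
    (@En.n l8080 (nat_lit 2143) (nat_lit 6) (nat_lit 7))
    (@En.n l17 (nat_lit 1897) (nat_lit 15) (nat_lit 2))))
  (@Cl.mk (nat_lit 0x2000b0003000a0008000e00050002000e00060002000e00080002000e000d) (nat_lit 0x2001500c0012048) (nat_lit 16) Lb.e (@T16.mk En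
    (@En.n l601 (nat_lit 1891) (nat_lit 14) (nat_lit 13))
    (@En.n l287 (nat_lit 12374) (nat_lit 1) (nat_lit 14))
    (@En.n l11 (nat_lit 1898) (nat_lit 2) (nat_lit 2))
    (@En.i (nat_lit 1899) (nat_lit 14) (nat_lit 8))
    (@En.i (nat_lit 1284) (nat_lit 1) (nat_lit 14))
    (@En.n l3 (nat_lit 1898) (nat_lit 5) (nat_lit 2))
    (@En.i (nat_lit 2908) (nat_lit 14) (nat_lit 6))
    (@En.i (nat_lit 2129) (nat_lit 1) (nat_lit 14))
    (@En.n l17 (nat_lit 1898) (nat_lit 8) (nat_lit 2))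
    (@En.i (nat_lit 3133) (nat_lit 9) (nat_lit 5))
    (@En.i (nat_lit 2706) (nat_lit 1) (nat_lit 14))
    (@En.i (nat_lit 1214) (nat_lit 12) (nat_lit 8))
    (@En.i (nat_lit 5951) (nat_lit 13) (nat_lit 10))
    (@En.i (nat_lit 1891) (nat_lit 10) (nat_lit 3))
    (@En.i (nat_lit 1627) (nat_lit 12) (nat_lit 11))
    (@En.n l7 (nat_lit 1898) (nat_lit 15) (nat_lit 2))))
  (@Cl.mk (nat_lit 0x200080008000e000d0002000a0003000900080008000e00060002000e0007) (nat_lit 0x1537030012600c0) (nat_lit 16) Lb.e (@T16.mk En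
    (@En.i (nat_lit 2919) (nat_lit 14) (nat_lit 7))
    (@En.i (nat_lit 2130) (nat_lit 1) (nat_lit 14))
    (@En.n l17 (nat_lit 1899) (nat_lit 2) (nat_lit 2))
    (@En.i (nat_lit 3132) (nat_lit 3) (nat_lit 6))
    (@En.n l524 (nat_lit 1261) (nat_lit 5) (nat_lit 14))
    (@En.n l575 (nat_lit 1898) (nat_lit 11) (nat_lit 8))
    (@En.i (nat_lit 1209) (nat_lit 6) (nat_lit 8))
    (@En.i (nat_lit 5949) (nat_lit 13) (nat_lit 9))
    (@En.i (nat_lit 1893) (nat_lit 8) (nat_lit 3))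
    (@En.i (nat_lit 1622) (nat_lit 0) (nat_lit 10))
    (@En.n l7 (nat_lit 1899) (nat_lit 10) (nat_lit 2))
    (@En.n l601 (nat_lit 1893) (nat_lit 12) (nat_lit 13))
    (@En.n l532 (nat_lit 5716) (nat_lit 13) (nat_lit 14))
    (@En.n l3554 (nat_lit 3665) (nat_lit 14) (nat_lit 8))
    (@En.n l107 (nat_lit 1282) (nat_lit 12) (nat_lit 8))
    (@En.n l3 (nat_lit 1899) (nat_lit 15) (nat_lit 2))))
  (@Cl.mk (nat_lit 0x20007000b000e00080002000900050009000e0009000200080007000e0007) (nat_lit 0x6c60106a105040) (nat_lit 16) Lb.e (@T16.mk En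
    (@En.n l7338 (nat_lit 1562) (nat_lit 5) (nat_lit 7))
    (@En.n l7339 (nat_lit 11369) (nat_lit 7) (nat_lit 14))
    (@En.i (nat_lit 696) (nat_lit 2) (nat_lit 7))
    (@En.n l2446 (nat_lit 10863) (nat_lit 3) (nat_lit 8))
    (@En.n l725 (nat_lit 1900) (nat_lit 4) (nat_lit 2))
    (@En.n l7046 (nat_lit 1563) (nat_lit 5) (nat_lit 9))
    (@En.n l7047 (nat_lit 5022) (nat_lit 7) (nat_lit 14))
    (@En.n l7340 (nat_lit 8172) (nat_lit 2) (nat_lit 9))
    (@En.n l7341 (nat_lit 1561) (nat_lit 14) (nat_lit 5))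
    (@En.n l7342 (nat_lit 1560) (nat_lit 4) (nat_lit 9))
    (@En.n l107 (nat_lit 1900) (nat_lit 10) (nat_lit 2))
    (@En.n l7343 (nat_lit 1699) (nat_lit 6) (nat_lit 8))
    (@En.n l7344 (nat_lit 2113) (nat_lit 13) (nat_lit 14))
    (@En.n l2376 (nat_lit 1887) (nat_lit 2) (nat_lit 11))
    (@En.n l7051 (nat_lit 1046) (nat_lit 3) (nat_lit 7))
    (@En.n l50 (nat_lit 1900) (nat_lit 15) (nat_lit 2))))
  (@Cl.mk (nat_lit 0x200070007000a0008000e00090002000900060009000900080007000e0007) (nat_lit 0x365030000080) (nat_lit 16) Lb.e (@T16.mk En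
    (@En.n l23083 (nat_lit 1904) (nat_lit 7) (nat_lit 7))
    (@En.n l3548 (nat_lit 3181) (nat_lit 9) (nat_lit 14))
    (@En.n l10026 (nat_lit 3108) (nat_lit 2) (nat_lit 7))
    (@En.n l23084 (nat_lit 4473) (nat_lit 3) (nat_lit 8))
    (@En.n l23085 (nat_lit 1905) (nat_lit 12) (nat_lit 9))
    (@En.n l10026 (nat_lit 1910) (nat_lit 5) (nat_lit 9))
    (@En.n l16262 (nat_lit 4764) (nat_lit 14) (nat_lit 6))
    (@En.n l23074 (nat_lit 5044) (nat_lit 8) (nat_lit 9))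
    (@En.n l7 (nat_lit 1901) (nat_lit 8) (nat_lit 2))
    (@En.n l23086 (nat_lit 1906) (nat_lit 10) (nat_lit 9))
    (@En.n l23087 (nat_lit 2083) (nat_lit 11) (nat_lit 14))
    (@En.n l2952 (nat_lit 1699) (nat_lit 12) (nat_lit 8))
    (@En.n l10029 (nat_lit 1902) (nat_lit 13) (nat_lit 10))
    (@En.n l10030 (nat_lit 1902) (nat_lit 14) (nat_lit 7))
    (@En.n l2947 (nat_lit 6545) (nat_lit 5) (nat_lit 7))
    (@En.n l17 (nat_lit 1901) (nat_lit 15) (nat_lit 2))))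
  (@Cl.mk (nat_lit 0x20007000a0007000e0008000200080006000e0009000200090008000e0008) (nat_lit 0x80540300100090) (nat_lit 16) Lb.e (@T16.mk En
    (@En.n l10086 (nat_lit 1903) (nat_lit 6) (nat_lit 8))
    (@En.n l10087 (nat_lit 5024) (nat_lit 8) (nat_lit 14))
    (@En.n l5570 (nat_lit 3105) (nat_lit 2) (nat_lit 8))
    (@En.n l10088 (nat_lit 4475) (nat_lit 3) (nat_lit 9))
    (@En.n l107 (nat_lit 1902) (nat_lit 4) (nat_lit 2))
    (@En.n l7230 (nat_lit 1901) (nat_lit 5) (nat_lit 9))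
    (@En.n l10089 (nat_lit 2111) (nat_lit 7) (nat_lit 14))
    (@En.n l10090 (nat_lit 4767) (nat_lit 14) (nat_lit 6))
    (@En.n l10091 (nat_lit 5045) (nat_lit 3) (nat_lit 8))
    (@En.n l50 (nat_lit 1902) (nat_lit 9) (nat_lit 2))
    (@En.n l7234 (nat_lit 1907) (nat_lit 5) (nat_lit 8))
    (@En.n l10092 (nat_lit 2085) (nat_lit 7) (nat_lit 14))
    (@En.n l10093 (nat_lit 1900) (nat_lit 2) (nat_lit 7))
    (@En.n l10094 (nat_lit 13705) (nat_lit 8) (nat_lit 10))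
    (@En.i (nat_lit 6548) (nat_lit 4) (nat_lit 7))
    (@En.n l2196 (nat_lit 1902) (nat_lit 15) (nat_lit 2))))
  (@Cl.mk (nat_lit 0x2000800080007000e000a0002000a000900080008000600090006000e0007) (nat_lit 0x40120016300030) (nat_lit 16) Lb.e (@T16.mk En
    (@En.n l6979 (nat_lit 1557) (nat_lit 6) (nat_lit 7))
    (@En.n l23193 (nat_lit 2082) (nat_lit 8) (nat_lit 14))
    (@En.i (nat_lit 1563) (nat_lit 2) (nat_lit 6))
    (@En.i (nat_lit 12970) (nat_lit 9) (nat_lit 9))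
    (@En.n l9516 (nat_lit 3165) (nat_lit 4) (nat_lit 6))
    (@En.n l61 (nat_lit 1930) (nat_lit 8) (nat_lit 8))
    (@En.n l12949 (nat_lit 3322) (nat_lit 6) (nat_lit 8))
    (@En.n l6981 (nat_lit 877) (nat_lit 14) (nat_lit 9))
    (@En.n l23194 (nat_lit 4568) (nat_lit 9) (nat_lit 10))
    (@En.n l107 (nat_lit 1903) (nat_lit 9) (nat_lit 2))
    (@En.n l23195 (nat_lit 1904) (nat_lit 11) (nat_lit 10))
    (@En.n l12787 (nat_lit 1615) (nat_lit 12) (nat_lit 14))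
    (@En.n l5416 (nat_lit 1573) (nat_lit 13) (nat_lit 7))
    (@En.n l23196 (nat_lit 1902) (nat_lit 8) (nat_lit 8))
    (@En.n l23197 (nat_lit 1985) (nat_lit 4) (nat_lit 8))
    (@En.n l50 (nat_lit 1903) (nat_lit 15) (nat_lit 2))))
noncomputable def a119 : T16 Cl := @T16.mk Cl
  (@Cl.mk (nat_lit 0x2000900090007000a000a00090008000700070006000600090007000e0008) (nat_lit 0x40130100001045) (nat_lit 16) Lb.e (@T16.mk En
    (@En.n l13026 (nat_lit 1660) (nat_lit 3) (nat_lit 8))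
    (@En.n l148 (nat_lit 1941) (nat_lit 1) (nat_lit 14))
    (@En.n l7219 (nat_lit 1683) (nat_lit 2) (nat_lit 7))
    (@En.n l13027 (nat_lit 1903) (nat_lit 3) (nat_lit 9))
    (@En.n l13028 (nat_lit 1903) (nat_lit 4) (nat_lit 6))
    (@En.n l13029 (nat_lit 3155) (nat_lit 5) (nat_lit 6))
    (@En.n l13030 (nat_lit 1931) (nat_lit 9) (nat_lit 7))
    (@En.n l13031 (nat_lit 3320) (nat_lit 7) (nat_lit 7))
    (@En.i (nat_lit 875) (nat_lit 8) (nat_lit 8))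
    (@En.n l13032 (nat_lit 3354) (nat_lit 10) (nat_lit 9))
    (@En.n l2337 (nat_lit 1909) (nat_lit 6) (nat_lit 10))
    (@En.i (nat_lit 1618) (nat_lit 8) (nat_lit 10))
    (@En.n l2019 (nat_lit 1569) (nat_lit 13) (nat_lit 7))
    (@En.n l13033 (nat_lit 1901) (nat_lit 7) (nat_lit 9))
    (@En.i (nat_lit 1988) (nat_lit 13) (nat_lit 9))
    (@En.n l67 (nat_lit 1904) (nat_lit 15) (nat_lit 2))))
  (@Cl.mk (nat_lit 0x2000a0006000900070006000e00060002000e00070002000a0009000e000a) (nat_lit 0x307000000001460) (nat_lit 16) Lb.e (@T16.mk En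
    (@En.n l68 (nat_lit 1908) (nat_lit 12) (nat_lit 10))
    (@En.n l12899 (nat_lit 2089) (nat_lit 13) (nat_lit 14))
    (@En.n l4288 (nat_lit 1698) (nat_lit 2) (nat_lit 9))
    (@En.n l12900 (nat_lit 1901) (nat_lit 12) (nat_lit 10))
    (@En.n l18 (nat_lit 1905) (nat_lit 4) (nat_lit 2))
    (@En.n l1035 (nat_lit 1901) (nat_lit 14) (nat_lit 7))
    (@En.n l3501 (nat_lit 7011) (nat_lit 1) (nat_lit 14))
    (@En.n l7 (nat_lit 1905) (nat_lit 7) (nat_lit 2))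
    (@En.n l28 (nat_lit 1909) (nat_lit 3) (nat_lit 6))
    (@En.n l645 (nat_lit 5064) (nat_lit 1) (nat_lit 14))
    (@En.i (nat_lit 3109) (nat_lit 5) (nat_lit 6))
    (@En.n l4288 (nat_lit 2912) (nat_lit 6) (nat_lit 7))
    (@En.i (nat_lit 4091) (nat_lit 9) (nat_lit 9))
    (@En.n l11694 (nat_lit 4763) (nat_lit 14) (nat_lit 6))
    (@En.n l12901 (nat_lit 5092) (nat_lit 10) (nat_lit 10))
    (@En.n l67 (nat_lit 1905) (nat_lit 15) (nat_lit 2))))
  (@Cl.mk (nat_lit 0x200080008000b0009000900090008000500080008000700070007000e0008) (nat_lit 0x340201600004) (nat_lit 16) Lb.e (@T16.mk En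
    (@En.n l30619 (nat_lit 1660) (nat_lit 9) (nat_lit 8))
    (@En.n l3786 (nat_lit 3175) (nat_lit 1) (nat_lit 14))
    (@En.n l30620 (nat_lit 1901) (nat_lit 2) (nat_lit 7))
    (@En.n l30621 (nat_lit 4631) (nat_lit 3) (nat_lit 7))
    (@En.n l30622 (nat_lit 4466) (nat_lit 4) (nat_lit 7))
    (@En.n l30623 (nat_lit 1908) (nat_lit 8) (nat_lit 8))
    (@En.n l1769 (nat_lit 1618) (nat_lit 6) (nat_lit 8))
    (@En.n l6975 (nat_lit 1640) (nat_lit 7) (nat_lit 5))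
    (@En.n l2337 (nat_lit 3676) (nat_lit 8) (nat_lit 8))
    (@En.n l30624 (nat_lit 2096) (nat_lit 10) (nat_lit 9))
    (@En.n l30625 (nat_lit 1911) (nat_lit 7) (nat_lit 9))
    (@En.n l30626 (nat_lit 1691) (nat_lit 12) (nat_lit 9))
    (@En.n l30627 (nat_lit 1907) (nat_lit 7) (nat_lit 11))
    (@En.n l30628 (nat_lit 1907) (nat_lit 8) (nat_lit 8))
    (@En.n l30629 (nat_lit 3159) (nat_lit 6) (nat_lit 8))
    (@En.n l17 (nat_lit 1906) (nat_lit 15) (nat_lit 2))))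
  (@Cl.mk (nat_lit 0x2000800080008000e000900020008000b00080008000800070005000e0008) (nat_lit 0x51b40692300022) (nat_lit 16) Lb.e (@T16.mk En
    (@En.n l15836 (nat_lit 1906) (nat_lit 6) (nat_lit 8))
    (@En.n l15837 (nat_lit 1616) (nat_lit 1) (nat_lit 14))
    (@En.n l1253 (nat_lit 1645) (nat_lit 2) (nat_lit 5))
    (@En.n l6398 (nat_lit 4155) (nat_lit 3) (nat_lit 7))
    (@En.n l13258 (nat_lit 2098) (nat_lit 4) (nat_lit 8))
    (@En.n l15838 (nat_lit 1913) (nat_lit 12) (nat_lit 8))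
    (@En.n l15839 (nat_lit 1562) (nat_lit 6) (nat_lit 8))
    (@En.n l15840 (nat_lit 13703) (nat_lit 7) (nat_lit 11))
    (@En.n l6402 (nat_lit 5167) (nat_lit 9) (nat_lit 8))
    (@En.n l3 (nat_lit 1907) (nat_lit 9) (nat_lit 2))
    (@En.n l6403 (nat_lit 1557) (nat_lit 11) (nat_lit 9))
    (@En.n l15841 (nat_lit 3176) (nat_lit 12) (nat_lit 14))
    (@En.n l11105 (nat_lit 1902) (nat_lit 2) (nat_lit 8))
    (@En.n l575 (nat_lit 4632) (nat_lit 3) (nat_lit 8))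
    (@En.n l15842 (nat_lit 4467) (nat_lit 4) (nat_lit 8))
    (@En.n l18 (nat_lit 1907) (nat_lit 15) (nat_lit 2))))
  (@Cl.mk (nat_lit 0x2000b000a000a000a000900050008000600060006000e00070002000e0008) (nat_lit 0x1480205000000c1) (nat_lit 16) Lb.e (@T16.mk En
    (@En.n l26162 (nat_lit 1906) (nat_lit 14) (nat_lit 8))
    (@En.n l12447 (nat_lit 5315) (nat_lit 1) (nat_lit 14))
    (@En.n l7 (nat_lit 1908) (nat_lit 2) (nat_lit 2))
    (@En.i (nat_lit 1659) (nat_lit 3) (nat_lit 7))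
    (@En.n l12448 (nat_lit 3174) (nat_lit 1) (nat_lit 14))
    (@En.n l11 (nat_lit 1905) (nat_lit 10) (nat_lit 6))
    (@En.n l4976 (nat_lit 4630) (nat_lit 6) (nat_lit 6))
    (@En.n l26163 (nat_lit 2907) (nat_lit 7) (nat_lit 6))
    (@En.i (nat_lit 1953) (nat_lit 10) (nat_lit 8))
    (@En.i (nat_lit 1644) (nat_lit 9) (nat_lit 5))
    (@En.i (nat_lit 4157) (nat_lit 11) (nat_lit 9))
    (@En.n l3454 (nat_lit 2097) (nat_lit 12) (nat_lit 10))
    (@En.n l18537 (nat_lit 1912) (nat_lit 6) (nat_lit 10))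
    (@En.n l18610 (nat_lit 1695) (nat_lit 14) (nat_lit 10))
    (@En.n l26164 (nat_lit 1906) (nat_lit 12) (nat_lit 11))
    (@En.n l18 (nat_lit 1908) (nat_lit 15) (nat_lit 2))))
  (@Cl.mk (nat_lit 0x200090008000e00090002000a000a0007000a0008000700060006000e0006) (nat_lit 0x2451024020000c0) (nat_lit 16) Lb.e (@T16.mk En
    (@En.n l7 (nat_lit 1904) (nat_lit 5) (nat_lit 6))
    (@En.n l2724 (nat_lit 3173) (nat_lit 1) (nat_lit 14))
    (@En.n l237 (nat_lit 1942) (nat_lit 2) (nat_lit 6))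
    (@En.i (nat_lit 3321) (nat_lit 3) (nat_lit 6))
    (@En.i (nat_lit 3114) (nat_lit 4) (nat_lit 7))
    (@En.n l1652 (nat_lit 2916) (nat_lit 5) (nat_lit 8))
    (@En.i (nat_lit 3271) (nat_lit 8) (nat_lit 10))
    (@En.n l414 (nat_lit 1570) (nat_lit 7) (nat_lit 7))
    (@En.n l134 (nat_lit 1905) (nat_lit 14) (nat_lit 10))
    (@En.i (nat_lit 1987) (nat_lit 10) (nat_lit 10))
    (@En.n l67 (nat_lit 1909) (nat_lit 10) (nat_lit 2))
    (@En.n l1595 (nat_lit 1659) (nat_lit 12) (nat_lit 9))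
    (@En.n l4996 (nat_lit 3174) (nat_lit 13) (nat_lit 14))
    (@En.i (nat_lit 1686) (nat_lit 14) (nat_lit 8))
    (@En.n l4600 (nat_lit 1904) (nat_lit 3) (nat_lit 9))
    (@En.n l18 (nat_lit 1909) (nat_lit 15) (nat_lit 2))))
  (@Cl.mk (nat_lit 0x20007000e000800020009000e000a0002000a0009000800070006000e0006) (nat_lit 0x11006503760000) (nat_lit 16) Lb.e (@T16.mk En
    (@En.n l4110 (nat_lit 1618) (nat_lit 4) (nat_lit 6))
    (@En.n l28391 (nat_lit 4827) (nat_lit 1) (nat_lit 14))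
    (@En.i (nat_lit 4505) (nat_lit 2) (nat_lit 6))
    (@En.n l1422 (nat_lit 4183) (nat_lit 3) (nat_lit 7))
    (@En.n l17576 (nat_lit 4092) (nat_lit 13) (nat_lit 8))
    (@En.i (nat_lit 4660) (nat_lit 5) (nat_lit 9))
    (@En.n l28393 (nat_lit 4358) (nat_lit 11) (nat_lit 10))
    (@En.n l67 (nat_lit 1910) (nat_lit 7) (nat_lit 2))
    (@En.n l28395 (nat_lit 1618) (nat_lit 9) (nat_lit 10))
    (@En.n l3501 (nat_lit 1912) (nat_lit 10) (nat_lit 14))
    (@En.n l9718 (nat_lit 1976) (nat_lit 11) (nat_lit 9))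
    (@En.n l17 (nat_lit 1910) (nat_lit 11) (nat_lit 2))
    (@En.n l13353 (nat_lit 1616) (nat_lit 13) (nat_lit 8))
    (@En.n l5 (nat_lit 1905) (nat_lit 6) (nat_lit 14))
    (@En.i (nat_lit 1911) (nat_lit 2) (nat_lit 7))
    (@En.n l7 (nat_lit 1910) (nat_lit 15) (nat_lit 2))))
  (@Cl.mk (nat_lit 0x20008000e0009000200090009000c000900080007000400070007000e0007) (nat_lit 0x1000030000090) (nat_lit 16) Lb.e (@T16.mk En
    (@En.n l28388 (nat_lit 1906) (nat_lit 4) (nat_lit 7))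
    (@En.n l28389 (nat_lit 6950) (nat_lit 6) (nat_lit 14))
    (@En.n l28390 (nat_lit 1912) (nat_lit 2) (nat_lit 7))
    (@En.n l11536 (nat_lit 1910) (nat_lit 3) (nat_lit 7))
    (@En.n l28391 (nat_lit 5127) (nat_lit 4) (nat_lit 4))
    (@En.i (nat_lit 4147) (nat_lit 5) (nat_lit 7))
    (@En.n l28392 (nat_lit 2105) (nat_lit 6) (nat_lit 8))
    (@En.n l3501 (nat_lit 4442) (nat_lit 12) (nat_lit 9))
    (@En.n l28393 (nat_lit 1913) (nat_lit 13) (nat_lit 12))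
    (@En.n l3698 (nat_lit 1913) (nat_lit 14) (nat_lit 9))
    (@En.n l28394 (nat_lit 6584) (nat_lit 11) (nat_lit 9))
    (@En.n l67 (nat_lit 1911) (nat_lit 11) (nat_lit 2))
    (@En.n l28395 (nat_lit 1869) (nat_lit 13) (nat_lit 9))
    (@En.n l3501 (nat_lit 2087) (nat_lit 1) (nat_lit 14))
    (@En.n l28396 (nat_lit 2086) (nat_lit 2) (nat_lit 8))
    (@En.n l17 (nat_lit 1911) (nat_lit 15) (nat_lit 2))))
  (@Cl.mk (nat_lit 0x20007000e00080002000e00090002000c000a0009000800040007000e0006) (nat_lit 0x1051017060090) (nat_lit 16) Lb.e (@T16.mk En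
    (@En.n l4939 (nat_lit 1908) (nat_lit 7) (nat_lit 6))
    (@En.n l2009 (nat_lit 5808) (nat_lit 1) (nat_lit 14))
    (@En.n l11612 (nat_lit 4504) (nat_lit 2) (nat_lit 7))
    (@En.n l16843 (nat_lit 5204) (nat_lit 3) (nat_lit 4))
    (@En.n l16844 (nat_lit 4148) (nat_lit 12) (nat_lit 8))
    (@En.n l619 (nat_lit 4868) (nat_lit 5) (nat_lit 9))
    (@En.n l1106 (nat_lit 6562) (nat_lit 14) (nat_lit 10))
    (@En.n l16845 (nat_lit 1911) (nat_lit 8) (nat_lit 12))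
    (@En.n l18 (nat_lit 1912) (nat_lit 8) (nat_lit 2))
    (@En.n l16846 (nat_lit 1911) (nat_lit 10) (nat_lit 9))
    (@En.n l5374 (nat_lit 8064) (nat_lit 1) (nat_lit 14))
    (@En.n l7 (nat_lit 1912) (nat_lit 11) (nat_lit 2))
    (@En.n l16847 (nat_lit 1871) (nat_lit 13) (nat_lit 8))
    (@En.n l5374 (nat_lit 2089) (nat_lit 1) (nat_lit 14))
    (@En.i (nat_lit 2087) (nat_lit 5) (nat_lit 7))
    (@En.n l476 (nat_lit 1912) (nat_lit 15) (nat_lit 2))))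
  (@Cl.mk (nat_lit 0x20009000c0008000700060004000e00070002000e000800020009000e000a) (nat_lit 0x7a20001009100b1) (nat_lit 16) Lb.e (@T16.mk En
    (@En.n l5350 (nat_lit 1870) (nat_lit 13) (nat_lit 10))
    (@En.n l17766 (nat_lit 2090) (nat_lit 1) (nat_lit 14))
    (@En.n l12438 (nat_lit 2084) (nat_lit 12) (nat_lit 9))
    (@En.n l28 (nat_lit 1913) (nat_lit 3) (nat_lit 2))
    (@En.n l15831 (nat_lit 1907) (nat_lit 14) (nat_lit 8))
    (@En.n l5452 (nat_lit 6948) (nat_lit 1) (nat_lit 14))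
    (@En.n l107 (nat_lit 1913) (nat_lit 6) (nat_lit 2))
    (@En.n l26594 (nat_lit 1911) (nat_lit 3) (nat_lit 7))
    (@En.n l26595 (nat_lit 1910) (nat_lit 1) (nat_lit 14))
    (@En.n l5452 (nat_lit 5126) (nat_lit 5) (nat_lit 4))
    (@En.n l26595 (nat_lit 4150) (nat_lit 6) (nat_lit 6))
    (@En.i (nat_lit 4869) (nat_lit 7) (nat_lit 7))
    (@En.n l14726 (nat_lit 4443) (nat_lit 13) (nat_lit 8))
    (@En.n l5452 (nat_lit 12849) (nat_lit 6) (nat_lit 12))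
    (@En.i (nat_lit 6586) (nat_lit 11) (nat_lit 9))
    (@En.n l2196 (nat_lit 1913) (nat_lit 15) (nat_lit 2))))
  (@Cl.mk (nat_lit 0x200060009000e000700020007000b000e00070002000a00050009000e0009) (nat_lit 0x130004c00106a1) (nat_lit 16) Lb.e (@T16.mk En
    (@En.n l2519 (nat_lit 1680) (nat_lit 5) (nat_lit 9))
    (@En.n l5268 (nat_lit 1877) (nat_lit 7) (nat_lit 14))
    (@En.n l8853 (nat_lit 1916) (nat_lit 2) (nat_lit 9))
    (@En.n l8854 (nat_lit 1703) (nat_lit 14) (nat_lit 5))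
    (@En.n l8855 (nat_lit 1688) (nat_lit 4) (nat_lit 10))
    (@En.n l28 (nat_lit 1914) (nat_lit 5) (nat_lit 2))
    (@En.n l8856 (nat_lit 1688) (nat_lit 6) (nat_lit 7))
    (@En.i (nat_lit 4774) (nat_lit 8) (nat_lit 14))
    (@En.n l862 (nat_lit 1889) (nat_lit 9) (nat_lit 11))
    (@En.n l7597 (nat_lit 913) (nat_lit 3) (nat_lit 7))
    (@En.n l725 (nat_lit 1914) (nat_lit 10) (nat_lit 2))
    (@En.n l3564 (nat_lit 1702) (nat_lit 12) (nat_lit 7))
    (@En.i (nat_lit 12837) (nat_lit 13) (nat_lit 14))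
    (@En.n l7597 (nat_lit 697) (nat_lit 2) (nat_lit 9))
    (@En.n l1081 (nat_lit 5209) (nat_lit 3) (nat_lit 6))
    (@En.n l3 (nat_lit 1914) (nat_lit 15) (nat_lit 2))))
  (@Cl.mk (nat_lit 0x2000500080008000d0008000d00030009000300080008000b0008000e0007) (nat_lit 0x325000000470) (nat_lit 16) Lb.e (@T16.mk En
    (@En.n l18769 (nat_lit 6807) (nat_lit 7) (nat_lit 7))
    (@En.n l936 (nat_lit 1924) (nat_lit 1) (nat_lit 14))
    (@En.i (nat_lit 9308) (nat_lit 2) (nat_lit 8))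
    (@En.n l21636 (nat_lit 1921) (nat_lit 3) (nat_lit 11))
    (@En.i (nat_lit 1921) (nat_lit 4) (nat_lit 8))
    (@En.n l23101 (nat_lit 8911) (nat_lit 5) (nat_lit 8))
    (@En.n l23327 (nat_lit 1918) (nat_lit 6) (nat_lit 3))
    (@En.n l9631 (nat_lit 5033) (nat_lit 0) (nat_lit 9))
    (@En.n l21771 (nat_lit 1920) (nat_lit 8) (nat_lit 3))
    (@En.n l2263 (nat_lit 2153) (nat_lit 10) (nat_lit 13))
    (@En.i (nat_lit 1589) (nat_lit 11) (nat_lit 8))
    (@En.n l25749 (nat_lit 9136) (nat_lit 12) (nat_lit 13))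
    (@En.n l25754 (nat_lit 1916) (nat_lit 13) (nat_lit 8))
    (@En.n l18769 (nat_lit 6479) (nat_lit 14) (nat_lit 8))
    (@En.n l36794 (nat_lit 6698) (nat_lit 13) (nat_lit 5))
    (@En.n l17 (nat_lit 1915) (nat_lit 15) (nat_lit 2))))
  (@Cl.mk (nat_lit 0x200050008000d0007000d000300080003000e00080002000b0009000e0008) (nat_lit 0x60040000101580) (nat_lit 16) Lb.e (@T16.mk En
    (@En.n l21012 (nat_lit 6810) (nat_lit 12) (nat_lit 8))
    (@En.n l3 (nat_lit 1927) (nat_lit 13) (nat_lit 14))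
    (@En.n l3 (nat_lit 11014) (nat_lit 14) (nat_lit 9))
    (@En.n l12050 (nat_lit 1915) (nat_lit 3) (nat_lit 11))
    (@En.n l50 (nat_lit 1916) (nat_lit 4) (nat_lit 2))
    (@En.n l12051 (nat_lit 1915) (nat_lit 5) (nat_lit 8))
    (@En.n l12099 (nat_lit 10782) (nat_lit 7) (nat_lit 14))
    (@En.n l9774 (nat_lit 1917) (nat_lit 7) (nat_lit 3))
    (@En.n l21013 (nat_lit 6452) (nat_lit 3) (nat_lit 8))
    (@En.n l9774 (nat_lit 1919) (nat_lit 9) (nat_lit 3))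
    (@En.n l3264 (nat_lit 1801) (nat_lit 11) (nat_lit 13))
    (@En.n l21014 (nat_lit 1732) (nat_lit 12) (nat_lit 7))
    (@En.i (nat_lit 8232) (nat_lit 13) (nat_lit 13))
    (@En.n l21015 (nat_lit 6065) (nat_lit 14) (nat_lit 8))
    (@En.n l7112 (nat_lit 6697) (nat_lit 13) (nat_lit 5))
    (@En.n l17 (nat_lit 1916) (nat_lit 15) (nat_lit 2))))
  (@Cl.mk (nat_lit 0x200050008000c0007000d000700040003000e00080002000b0009000e0009) (nat_lit 0x6040000000760) (nat_lit 16) Lb.e (@T16.mk En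
    (@En.n l18697 (nat_lit 5962) (nat_lit 12) (nat_lit 9))
    (@En.n l7745 (nat_lit 5960) (nat_lit 13) (nat_lit 14))
    (@En.n l2038 (nat_lit 11015) (nat_lit 14) (nat_lit 9))
    (@En.i (nat_lit 1918) (nat_lit 3) (nat_lit 11))
    (@En.n l17 (nat_lit 1917) (nat_lit 4) (nat_lit 2))
    (@En.n l1353 (nat_lit 1918) (nat_lit 5) (nat_lit 8))
    (@En.n l2680 (nat_lit 6942) (nat_lit 7) (nat_lit 14))
    (@En.n l8873 (nat_lit 1916) (nat_lit 7) (nat_lit 3))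
    (@En.i (nat_lit 4954) (nat_lit 8) (nat_lit 4))
    (@En.i (nat_lit 6925) (nat_lit 4) (nat_lit 7))
    (@En.n l2680 (nat_lit 1793) (nat_lit 11) (nat_lit 13))
    (@En.n l3213 (nat_lit 1707) (nat_lit 12) (nat_lit 7))
    (@En.i (nat_lit 5937) (nat_lit 13) (nat_lit 12))
    (@En.n l1643 (nat_lit 6063) (nat_lit 14) (nat_lit 8))
    (@En.n l2682 (nat_lit 5007) (nat_lit 13) (nat_lit 5))
    (@En.n l11 (nat_lit 1917) (nat_lit 15) (nat_lit 2))))
  (@Cl.mk (nat_lit 0x2000500080008000c0008000d00080004000300080008000b0008000e0008) (nat_lit 0x1625000609650) (nat_lit 16) Lb.e (@T16.mk En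
    (@En.n l18697 (nat_lit 5965) (nat_lit 1) (nat_lit 8))
    (@En.n l19554 (nat_lit 1925) (nat_lit 1) (nat_lit 14))
    (@En.n l5568 (nat_lit 9310) (nat_lit 2) (nat_lit 8))
    (@En.n l38747 (nat_lit 1922) (nat_lit 3) (nat_lit 11))
    (@En.n l38748 (nat_lit 1922) (nat_lit 4) (nat_lit 8))
    (@En.n l5571 (nat_lit 6209) (nat_lit 5) (nat_lit 8))
    (@En.n l38749 (nat_lit 1915) (nat_lit 6) (nat_lit 3))
    (@En.i (nat_lit 4953) (nat_lit 7) (nat_lit 4))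
    (@En.n l35585 (nat_lit 6919) (nat_lit 9) (nat_lit 8))
    (@En.n l2680 (nat_lit 1797) (nat_lit 10) (nat_lit 13))
    (@En.n l8572 (nat_lit 1706) (nat_lit 11) (nat_lit 8))
    (@En.i (nat_lit 6276) (nat_lit 12) (nat_lit 12))
    (@En.n l725 (nat_lit 1917) (nat_lit 13) (nat_lit 8))
    (@En.n l781 (nat_lit 6480) (nat_lit 14) (nat_lit 8))
    (@En.n l2682 (nat_lit 5006) (nat_lit 13) (nat_lit 5))
    (@En.n l11 (nat_lit 1918) (nat_lit 15) (nat_lit 2))))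
  (@Cl.mk (nat_lit 0x200050008000d000c0008000300080004000e00080002000b0008000e0008) (nat_lit 0x7000000006b0) (nat_lit 16) Lb.e (@T16.mk En
    (@En.n l20668 (nat_lit 6809) (nat_lit 12) (nat_lit 8))
    (@En.n l6072 (nat_lit 5344) (nat_lit 1) (nat_lit 14))
    (@En.n l20669 (nat_lit 9514) (nat_lit 14) (nat_lit 8))
    (@En.n l20670 (nat_lit 1920) (nat_lit 3) (nat_lit 11))
    (@En.n l17 (nat_lit 1919) (nat_lit 4) (nat_lit 2))
    (@En.n l20671 (nat_lit 1920) (nat_lit 5) (nat_lit 8))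
    (@En.n l1555 (nat_lit 10785) (nat_lit 7) (nat_lit 14))
    (@En.i (nat_lit 4920) (nat_lit 7) (nat_lit 4))
    (@En.n l20672 (nat_lit 5414) (nat_lit 3) (nat_lit 8))
    (@En.n l20673 (nat_lit 1916) (nat_lit 9) (nat_lit 3))
    (@En.n l7843 (nat_lit 2085) (nat_lit 11) (nat_lit 8))
    (@En.n l644 (nat_lit 1917) (nat_lit 12) (nat_lit 12))
    (@En.i (nat_lit 8231) (nat_lit 13) (nat_lit 13))
    (@En.n l1643 (nat_lit 6062) (nat_lit 14) (nat_lit 8))
    (@En.n l20674 (nat_lit 6701) (nat_lit 13) (nat_lit 5))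
    (@En.n l11 (nat_lit 1919) (nat_lit 15) (nat_lit 2))))
noncomputable def a120 : T16 Cl := @T16.mk Cl
  (@Cl.mk (nat_lit 0x2000500080008000d000c000900030009000400080008000b0007000e0007) (nat_lit 0x13700006090a0) (nat_lit 16) Lb.e (@T16.mk En
    (@En.n l50 (nat_lit 6805) (nat_lit 7) (nat_lit 7))
    (@En.n l36423 (nat_lit 1926) (nat_lit 1) (nat_lit 14))
    (@En.n l23239 (nat_lit 9312) (nat_lit 2) (nat_lit 7))
    (@En.n l3 (nat_lit 1923) (nat_lit 3) (nat_lit 11))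
    (@En.n l527 (nat_lit 1923) (nat_lit 4) (nat_lit 8))
    (@En.i (nat_lit 9973) (nat_lit 5) (nat_lit 8))
    (@En.n l2922 (nat_lit 4916) (nat_lit 6) (nat_lit 4))
    (@En.n l3348 (nat_lit 5359) (nat_lit 8) (nat_lit 9))
    (@En.n l36424 (nat_lit 1915) (nat_lit 8) (nat_lit 3))
    (@En.n l24163 (nat_lit 2084) (nat_lit 10) (nat_lit 9))
    (@En.n l33617 (nat_lit 1918) (nat_lit 11) (nat_lit 12))
    (@En.n l24166 (nat_lit 9130) (nat_lit 12) (nat_lit 13))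
    (@En.n l36425 (nat_lit 1919) (nat_lit 13) (nat_lit 8))
    (@En.n l36426 (nat_lit 6478) (nat_lit 14) (nat_lit 8))
    (@En.n l671 (nat_lit 6700) (nat_lit 13) (nat_lit 5))
    (@En.n l18 (nat_lit 1920) (nat_lit 15) (nat_lit 2))))
  (@Cl.mk (nat_lit 0x20005000e00080002000d0009000d0003000a00030008000b0007000e0006) (nat_lit 0x1004900069060) (nat_lit 16) Lb.e (@T16.mk En
    (@En.n l23041 (nat_lit 6808) (nat_lit 4) (nat_lit 6))
    (@En.n l7626 (nat_lit 6646) (nat_lit 1) (nat_lit 14))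
    (@En.n l8015 (nat_lit 9307) (nat_lit 2) (nat_lit 7))
    (@En.n l23042 (nat_lit 13358) (nat_lit 7) (nat_lit 11))
    (@En.n l10023 (nat_lit 8910) (nat_lit 4) (nat_lit 8))
    (@En.n l17939 (nat_lit 1922) (nat_lit 5) (nat_lit 3))
    (@En.n l1101 (nat_lit 5032) (nat_lit 11) (nat_lit 10))
    (@En.n l11696 (nat_lit 1923) (nat_lit 7) (nat_lit 3))
    (@En.n l1104 (nat_lit 2158) (nat_lit 9) (nat_lit 13))
    (@En.n l3571 (nat_lit 1733) (nat_lit 10) (nat_lit 9))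
    (@En.n l255 (nat_lit 9135) (nat_lit 11) (nat_lit 13))
    (@En.n l11 (nat_lit 1921) (nat_lit 11) (nat_lit 2))
    (@En.n l575 (nat_lit 1915) (nat_lit 13) (nat_lit 8))
    (@En.n l68 (nat_lit 6043) (nat_lit 1) (nat_lit 14))
    (@En.n l23043 (nat_lit 6717) (nat_lit 13) (nat_lit 5))
    (@En.n l17 (nat_lit 1921) (nat_lit 15) (nat_lit 2))))
  (@Cl.mk (nat_lit 0x20005000e00080002000c0009000d0009000400030008000b0007000e0007) (nat_lit 0x1084500068040) (nat_lit 16) Lb.e (@T16.mk En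
    (@En.n l50 (nat_lit 6674) (nat_lit 4) (nat_lit 7))
    (@En.n l33612 (nat_lit 5025) (nat_lit 1) (nat_lit 14))
    (@En.n l28892 (nat_lit 9309) (nat_lit 2) (nat_lit 7))
    (@En.n l4497 (nat_lit 13359) (nat_lit 7) (nat_lit 11))
    (@En.n l33613 (nat_lit 6207) (nat_lit 4) (nat_lit 8))
    (@En.n l28548 (nat_lit 1921) (nat_lit 5) (nat_lit 3))
    (@En.n l33614 (nat_lit 5023) (nat_lit 6) (nat_lit 4))
    (@En.n l4497 (nat_lit 6917) (nat_lit 12) (nat_lit 9))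
    (@En.n l33615 (nat_lit 1731) (nat_lit 9) (nat_lit 13))
    (@En.n l796 (nat_lit 1713) (nat_lit 10) (nat_lit 9))
    (@En.n l33616 (nat_lit 6275) (nat_lit 11) (nat_lit 12))
    (@En.n l107 (nat_lit 1922) (nat_lit 11) (nat_lit 2))
    (@En.n l33617 (nat_lit 1918) (nat_lit 13) (nat_lit 8))
    (@En.n l33618 (nat_lit 7039) (nat_lit 1) (nat_lit 14))
    (@En.n l33619 (nat_lit 6716) (nat_lit 13) (nat_lit 5))
    (@En.n l18 (nat_lit 1922) (nat_lit 15) (nat_lit 2))))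
  (@Cl.mk (nat_lit 0x20005000e00080002000d000c000a0003000a00040008000b0006000e0006) (nat_lit 0x1049000068090) (nat_lit 16) Lb.e (@T16.mk En
    (@En.n l50 (nat_lit 6806) (nat_lit 4) (nat_lit 6))
    (@En.n l17943 (nat_lit 5345) (nat_lit 1) (nat_lit 14))
    (@En.i (nat_lit 9311) (nat_lit 2) (nat_lit 6))
    (@En.i (nat_lit 13362) (nat_lit 7) (nat_lit 11))
    (@En.i (nat_lit 9972) (nat_lit 4) (nat_lit 8))
    (@En.n l2922 (nat_lit 4922) (nat_lit 5) (nat_lit 4))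
    (@En.n l3348 (nat_lit 4932) (nat_lit 11) (nat_lit 10))
    (@En.n l33622 (nat_lit 1921) (nat_lit 7) (nat_lit 3))
    (@En.n l2922 (nat_lit 1983) (nat_lit 9) (nat_lit 10))
    (@En.i (nat_lit 1922) (nat_lit 10) (nat_lit 12))
    (@En.n l3348 (nat_lit 9133) (nat_lit 11) (nat_lit 13))
    (@En.n l107 (nat_lit 1923) (nat_lit 11) (nat_lit 2))
    (@En.i (nat_lit 1920) (nat_lit 13) (nat_lit 8))
    (@En.n l3523 (nat_lit 7038) (nat_lit 1) (nat_lit 14))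
    (@En.n l671 (nat_lit 6718) (nat_lit 13) (nat_lit 5))
    (@En.n l18 (nat_lit 1923) (nat_lit 15) (nat_lit 2))))
  (@Cl.mk (nat_lit 0x2000b000500080008000d0005000d0003000a000300080008000b000e0006) (nat_lit 0x600040700000060) (nat_lit 16) Lb.e (@T16.mk En
    (@En.n l36603 (nat_lit 5109) (nat_lit 8) (nat_lit 6))
    (@En.n l25749 (nat_lit 12616) (nat_lit 4) (nat_lit 14))
    (@En.n l36604 (nat_lit 6646) (nat_lit 2) (nat_lit 11))
    (@En.n l1104 (nat_lit 6646) (nat_lit 3) (nat_lit 8))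
    (@En.n l36605 (nat_lit 8906) (nat_lit 4) (nat_lit 8))
    (@En.n l21328 (nat_lit 1925) (nat_lit 5) (nat_lit 3))
    (@En.n l7126 (nat_lit 5035) (nat_lit 0) (nat_lit 10))
    (@En.i (nat_lit 1926) (nat_lit 7) (nat_lit 3))
    (@En.n l2263 (nat_lit 2156) (nat_lit 9) (nat_lit 13))
    (@En.n l7126 (nat_lit 5346) (nat_lit 9) (nat_lit 5))
    (@En.n l25749 (nat_lit 9447) (nat_lit 11) (nat_lit 13))
    (@En.n l25754 (nat_lit 1927) (nat_lit 8) (nat_lit 8))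
    (@En.n l36606 (nat_lit 6466) (nat_lit 13) (nat_lit 8))
    (@En.i (nat_lit 1915) (nat_lit 14) (nat_lit 5))
    (@En.n l36607 (nat_lit 6647) (nat_lit 9) (nat_lit 11))
    (@En.n l17 (nat_lit 1924) (nat_lit 15) (nat_lit 2))))
  (@Cl.mk (nat_lit 0x2000b000500080008000c0005000d00090004000300080008000b000e0007) (nat_lit 0x600040800000040) (nat_lit 16) Lb.e (@T16.mk En
    (@En.n l14088 (nat_lit 5113) (nat_lit 2) (nat_lit 7))
    (@En.n l3623 (nat_lit 12618) (nat_lit 4) (nat_lit 14))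
    (@En.n l37202 (nat_lit 5025) (nat_lit 2) (nat_lit 11))
    (@En.n l37203 (nat_lit 5025) (nat_lit 3) (nat_lit 8))
    (@En.n l37204 (nat_lit 6210) (nat_lit 4) (nat_lit 8))
    (@En.n l37205 (nat_lit 1924) (nat_lit 5) (nat_lit 3))
    (@En.i (nat_lit 4918) (nat_lit 0) (nat_lit 4))
    (@En.n l37206 (nat_lit 6637) (nat_lit 0) (nat_lit 9))
    (@En.n l37207 (nat_lit 1800) (nat_lit 9) (nat_lit 13))
    (@En.n l11987 (nat_lit 5349) (nat_lit 9) (nat_lit 5))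
    (@En.n l6749 (nat_lit 6273) (nat_lit 11) (nat_lit 12))
    (@En.n l217 (nat_lit 5960) (nat_lit 8) (nat_lit 8))
    (@En.i (nat_lit 6465) (nat_lit 13) (nat_lit 8))
    (@En.n l4395 (nat_lit 1918) (nat_lit 14) (nat_lit 5))
    (@En.n l2053 (nat_lit 5964) (nat_lit 9) (nat_lit 11))
    (@En.n l3 (nat_lit 1925) (nat_lit 15) (nat_lit 2))))
  (@Cl.mk (nat_lit 0x2000a000500080008000d000c00060003000a000400080008000b000e0006) (nat_lit 0x500045001000390) (nat_lit 16) Lb.e (@T16.mk En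
    (@En.n l25748 (nat_lit 5111) (nat_lit 8) (nat_lit 6))
    (@En.n l25749 (nat_lit 12617) (nat_lit 4) (nat_lit 14))
    (@En.n l25750 (nat_lit 5345) (nat_lit 2) (nat_lit 11))
    (@En.n l16965 (nat_lit 5345) (nat_lit 3) (nat_lit 8))
    (@En.n l4488 (nat_lit 9977) (nat_lit 4) (nat_lit 8))
    (@En.n l25751 (nat_lit 4913) (nat_lit 5) (nat_lit 4))
    (@En.n l16564 (nat_lit 1742) (nat_lit 0) (nat_lit 10))
    (@En.n l7 (nat_lit 1924) (nat_lit 7) (nat_lit 3))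
    (@En.n l25752 (nat_lit 4829) (nat_lit 8) (nat_lit 6))
    (@En.n l25753 (nat_lit 1925) (nat_lit 10) (nat_lit 12))
    (@En.n l25749 (nat_lit 9443) (nat_lit 11) (nat_lit 13))
    (@En.n l25754 (nat_lit 5344) (nat_lit 12) (nat_lit 8))
    (@En.n l25755 (nat_lit 6467) (nat_lit 13) (nat_lit 8))
    (@En.n l21771 (nat_lit 1920) (nat_lit 14) (nat_lit 5))
    (@En.n l25756 (nat_lit 4458) (nat_lit 0) (nat_lit 10))
    (@En.n l17 (nat_lit 1926) (nat_lit 15) (nat_lit 2))))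
  (@Cl.mk (nat_lit 0x2000b000e00070002000c00050008000d0004000d000300090003000e0008) (nat_lit 0x170070630700001) (nat_lit 16) Lb.e (@T16.mk En
    (@En.n l12051 (nat_lit 1924) (nat_lit 4) (nat_lit 8))
    (@En.i (nat_lit 10783) (nat_lit 1) (nat_lit 14))
    (@En.n l278 (nat_lit 5960) (nat_lit 2) (nat_lit 3))
    (@En.i (nat_lit 6454) (nat_lit 3) (nat_lit 9))
    (@En.i (nat_lit 5344) (nat_lit 8) (nat_lit 3))
    (@En.i (nat_lit 2155) (nat_lit 0) (nat_lit 13))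
    (@En.n l771 (nat_lit 5348) (nat_lit 6) (nat_lit 4))
    (@En.i (nat_lit 8234) (nat_lit 8) (nat_lit 13))
    (@En.n l781 (nat_lit 5648) (nat_lit 13) (nat_lit 8))
    (@En.i (nat_lit 1916) (nat_lit 14) (nat_lit 5))
    (@En.n l3265 (nat_lit 6652) (nat_lit 11) (nat_lit 12))
    (@En.n l17 (nat_lit 1927) (nat_lit 11) (nat_lit 2))
    (@En.n l9325 (nat_lit 5110) (nat_lit 13) (nat_lit 7))
    (@En.i (nat_lit 11065) (nat_lit 4) (nat_lit 14))
    (@En.n l12050 (nat_lit 1924) (nat_lit 2) (nat_lit 11))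
    (@En.n l50 (nat_lit 1927) (nat_lit 15) (nat_lit 2))))
  (@Cl.mk (nat_lit 0x2000b0005000b000900060005000e00050002000e00070002000b000e000a) (nat_lit 0x208200c00500628) (nat_lit 16) Lb.e (@T16.mk En
    (@En.n l3298 (nat_lit 1534) (nat_lit 13) (nat_lit 10))
    (@En.n l619 (nat_lit 1612) (nat_lit 4) (nat_lit 14))
    (@En.i (nat_lit 1510) (nat_lit 12) (nat_lit 11))
    (@En.n l17 (nat_lit 1928) (nat_lit 3) (nat_lit 2))
    (@En.i (nat_lit 1563) (nat_lit 14) (nat_lit 7))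
    (@En.n l5 (nat_lit 1466) (nat_lit 1) (nat_lit 14))
    (@En.n l50 (nat_lit 1928) (nat_lit 6) (nat_lit 2))
    (@En.n l7 (nat_lit 1606) (nat_lit 7) (nat_lit 5))
    (@En.n l3299 (nat_lit 12836) (nat_lit 9) (nat_lit 14))
    (@En.i (nat_lit 672) (nat_lit 5) (nat_lit 5))
    (@En.n l3298 (nat_lit 8886) (nat_lit 6) (nat_lit 6))
    (@En.i (nat_lit 2186) (nat_lit 12) (nat_lit 9))
    (@En.n l3298 (nat_lit 7156) (nat_lit 9) (nat_lit 11))
    (@En.n l159 (nat_lit 1929) (nat_lit 14) (nat_lit 5))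
    (@En.n l11 (nat_lit 1532) (nat_lit 11) (nat_lit 11))
    (@En.n l107 (nat_lit 1928) (nat_lit 15) (nat_lit 2))))
  (@Cl.mk (nat_lit 0x20005000b000900050008000e00050002000e00070002000b0008000e000b) (nat_lit 0x6201c00a008339) (nat_lit 16) Lb.e (@T16.mk En
    (@En.i (nat_lit 1532) (nat_lit 12) (nat_lit 11))
    (@En.n l180 (nat_lit 1928) (nat_lit 1) (nat_lit 14))
    (@En.n l619 (nat_lit 1930) (nat_lit 14) (nat_lit 8))
    (@En.n l7678 (nat_lit 1450) (nat_lit 3) (nat_lit 11))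
    (@En.n l17 (nat_lit 1929) (nat_lit 4) (nat_lit 2))
    (@En.i (nat_lit 1554) (nat_lit 5) (nat_lit 7))
    (@En.n l998 (nat_lit 1467) (nat_lit 1) (nat_lit 14))
    (@En.n l50 (nat_lit 1929) (nat_lit 7) (nat_lit 2))
    (@En.n l7 (nat_lit 1553) (nat_lit 8) (nat_lit 5))
    (@En.n l9401 (nat_lit 12835) (nat_lit 10) (nat_lit 14))
    (@En.i (nat_lit 676) (nat_lit 10) (nat_lit 8))
    (@En.n l9401 (nat_lit 8887) (nat_lit 6) (nat_lit 5))
    (@En.i (nat_lit 2183) (nat_lit 13) (nat_lit 9))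
    (@En.n l1643 (nat_lit 7745) (nat_lit 9) (nat_lit 11))
    (@En.i (nat_lit 1678) (nat_lit 9) (nat_lit 5))
    (@En.n l11 (nat_lit 1929) (nat_lit 15) (nat_lit 2))))
  (@Cl.mk (nat_lit 0x20008000e000b0002000b000a0008000500080005000e00060002000e0008) (nat_lit 0x2280012000b0081) (nat_lit 16) Lb.e (@T16.mk En
    (@En.i (nat_lit 1903) (nat_lit 14) (nat_lit 8))
    (@En.n l5342 (nat_lit 1475) (nat_lit 1) (nat_lit 14))
    (@En.n l50 (nat_lit 1930) (nat_lit 2) (nat_lit 2))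
    (@En.n l7 (nat_lit 1932) (nat_lit 3) (nat_lit 6))
    (@En.n l3299 (nat_lit 1933) (nat_lit 9) (nat_lit 14))
    (@En.i (nat_lit 1928) (nat_lit 9) (nat_lit 5))
    (@En.i (nat_lit 12974) (nat_lit 10) (nat_lit 8))
    (@En.n l3298 (nat_lit 7977) (nat_lit 7) (nat_lit 5))
    (@En.n l55 (nat_lit 2210) (nat_lit 13) (nat_lit 8))
    (@En.n l55 (nat_lit 872) (nat_lit 10) (nat_lit 10))
    (@En.n l11 (nat_lit 3952) (nat_lit 11) (nat_lit 11))
    (@En.n l107 (nat_lit 1930) (nat_lit 11) (nat_lit 2))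
    (@En.n l11142 (nat_lit 1931) (nat_lit 13) (nat_lit 11))
    (@En.n l97 (nat_lit 1614) (nat_lit 1) (nat_lit 14))
    (@En.i (nat_lit 948) (nat_lit 12) (nat_lit 8))
    (@En.n l17 (nat_lit 1930) (nat_lit 15) (nat_lit 2))))
  (@Cl.mk (nat_lit 0x20008000b000b000a000900070005000500080006000e00070002000e0009) (nat_lit 0x2780100010b0071) (nat_lit 16) Lb.e (@T16.mk En
    (@En.n l5155 (nat_lit 1904) (nat_lit 14) (nat_lit 9))
    (@En.n l5156 (nat_lit 1476) (nat_lit 1) (nat_lit 14))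
    (@En.n l18 (nat_lit 1931) (nat_lit 2) (nat_lit 2))
    (@En.n l5157 (nat_lit 1658) (nat_lit 3) (nat_lit 7))
    (@En.n l396 (nat_lit 1935) (nat_lit 5) (nat_lit 14))
    (@En.n l28 (nat_lit 1534) (nat_lit 5) (nat_lit 6))
    (@En.n l5158 (nat_lit 1930) (nat_lit 6) (nat_lit 8))
    (@En.n l5159 (nat_lit 1930) (nat_lit 7) (nat_lit 5))
    (@En.i (nat_lit 7976) (nat_lit 8) (nat_lit 5))
    (@En.n l1924 (nat_lit 2209) (nat_lit 6) (nat_lit 7))
    (@En.n l5155 (nat_lit 869) (nat_lit 11) (nat_lit 9))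
    (@En.n l457 (nat_lit 3950) (nat_lit 12) (nat_lit 10))
    (@En.n l5160 (nat_lit 1942) (nat_lit 5) (nat_lit 11))
    (@En.n l387 (nat_lit 1943) (nat_lit 7) (nat_lit 11))
    (@En.i (nat_lit 949) (nat_lit 12) (nat_lit 8))
    (@En.n l3 (nat_lit 1931) (nat_lit 15) (nat_lit 2))))
  (@Cl.mk (nat_lit 0x20007000e000a0002000a000a000a000900060009000600060006000e0007) (nat_lit 0x22005230600080) (nat_lit 16) Lb.e (@T16.mk En
    (@En.n l50 (nat_lit 1557) (nat_lit 4) (nat_lit 7))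
    (@En.n l3786 (nat_lit 1807) (nat_lit 1) (nat_lit 14))
    (@En.n l3787 (nat_lit 2124) (nat_lit 2) (nat_lit 6))
    (@En.n l55 (nat_lit 1957) (nat_lit 3) (nat_lit 6))
    (@En.i (nat_lit 1606) (nat_lit 8) (nat_lit 6))
    (@En.i (nat_lit 12975) (nat_lit 9) (nat_lit 9))
    (@En.n l690 (nat_lit 6764) (nat_lit 6) (nat_lit 6))
    (@En.n l2337 (nat_lit 1967) (nat_lit 12) (nat_lit 9))
    (@En.n l601 (nat_lit 1930) (nat_lit 9) (nat_lit 10))
    (@En.n l2281 (nat_lit 1815) (nat_lit 6) (nat_lit 10))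
    (@En.n l11 (nat_lit 4211) (nat_lit 11) (nat_lit 10))
    (@En.n l107 (nat_lit 1932) (nat_lit 11) (nat_lit 2))
    (@En.i (nat_lit 1658) (nat_lit 13) (nat_lit 10))
    (@En.n l97 (nat_lit 1613) (nat_lit 1) (nat_lit 14))
    (@En.i (nat_lit 951) (nat_lit 2) (nat_lit 7))
    (@En.n l17 (nat_lit 1932) (nat_lit 15) (nat_lit 2))))
  (@Cl.mk (nat_lit 0x20008000b000800050008000e000500020008000e000800020008000e000b) (nat_lit 0x51200a000b50239) (nat_lit 16) Lb.e (@T16.mk En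
    (@En.n l55 (nat_lit 1935) (nat_lit 13) (nat_lit 11))
    (@En.n l387 (nat_lit 1972) (nat_lit 10) (nat_lit 14))
    (@En.n l2436 (nat_lit 425) (nat_lit 2) (nat_lit 8))
    (@En.n l3 (nat_lit 1933) (nat_lit 3) (nat_lit 2))
    (@En.n l20071 (nat_lit 2082) (nat_lit 4) (nat_lit 8))
    (@En.n l10708 (nat_lit 1929) (nat_lit 6) (nat_lit 14))
    (@En.n l8988 (nat_lit 1934) (nat_lit 2) (nat_lit 8))
    (@En.n l50 (nat_lit 1933) (nat_lit 7) (nat_lit 2))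
    (@En.n l996 (nat_lit 1934) (nat_lit 4) (nat_lit 5))
    (@En.i (nat_lit 11367) (nat_lit 6) (nat_lit 14))
    (@En.n l10192 (nat_lit 12972) (nat_lit 10) (nat_lit 8))
    (@En.i (nat_lit 7594) (nat_lit 3) (nat_lit 5))
    (@En.n l21918 (nat_lit 7764) (nat_lit 4) (nat_lit 8))
    (@En.i (nat_lit 874) (nat_lit 10) (nat_lit 11))
    (@En.n l2228 (nat_lit 5276) (nat_lit 6) (nat_lit 8))
    (@En.n l11 (nat_lit 1933) (nat_lit 15) (nat_lit 2))))
  (@Cl.mk (nat_lit 0x20007000e000a00020008000b000b000900060009000500050008000e0007) (nat_lit 0x380612300006b0) (nat_lit 16) Lb.e (@T16.mk En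
    (@En.n l4396 (nat_lit 1979) (nat_lit 4) (nat_lit 7))
    (@En.n l998 (nat_lit 1553) (nat_lit 6) (nat_lit 14))
    (@En.n l26031 (nat_lit 1982) (nat_lit 2) (nat_lit 8))
    (@En.n l26032 (nat_lit 1982) (nat_lit 3) (nat_lit 5))
    (@En.i (nat_lit 11183) (nat_lit 8) (nat_lit 5))
    (@En.n l4396 (nat_lit 12969) (nat_lit 9) (nat_lit 9))
    (@En.n l16403 (nat_lit 7589) (nat_lit 6) (nat_lit 6))
    (@En.n l12330 (nat_lit 4653) (nat_lit 12) (nat_lit 9))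
    (@En.n l11665 (nat_lit 1933) (nat_lit 13) (nat_lit 11))
    (@En.i (nat_lit 1930) (nat_lit 10) (nat_lit 11))
    (@En.n l998 (nat_lit 4643) (nat_lit 11) (nat_lit 8))
    (@En.n l107 (nat_lit 1934) (nat_lit 11) (nat_lit 2))
    (@En.n l16403 (nat_lit 1936) (nat_lit 13) (nat_lit 10))
    (@En.n l97 (nat_lit 1970) (nat_lit 1) (nat_lit 14))
    (@En.n l6617 (nat_lit 428) (nat_lit 2) (nat_lit 7))
    (@En.n l17 (nat_lit 1934) (nat_lit 15) (nat_lit 2))))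
  (@Cl.mk (nat_lit 0x20008000b000b0007000a0007000500050008000e000600020009000e0009) (nat_lit 0x280010001a00095) (nat_lit 16) Lb.e (@T16.mk En
    (@En.n l7900 (nat_lit 1941) (nat_lit 13) (nat_lit 9))
    (@En.n l13245 (nat_lit 1532) (nat_lit 1) (nat_lit 14))
    (@En.n l12666 (nat_lit 1936) (nat_lit 2) (nat_lit 9))
    (@En.n l50 (nat_lit 1935) (nat_lit 3) (nat_lit 2))
    (@En.n l12661 (nat_lit 1936) (nat_lit 4) (nat_lit 6))
    (@En.i (nat_lit 7660) (nat_lit 6) (nat_lit 14))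
    (@En.n l343 (nat_lit 1933) (nat_lit 10) (nat_lit 8))
    (@En.n l1577 (nat_lit 1933) (nat_lit 11) (nat_lit 5))
    (@En.i (nat_lit 7596) (nat_lit 8) (nat_lit 5))
    (@En.n l13246 (nat_lit 7763) (nat_lit 5) (nat_lit 7))
    (@En.i (nat_lit 871) (nat_lit 11) (nat_lit 10))
    (@En.n l13247 (nat_lit 4641) (nat_lit 7) (nat_lit 7))
    (@En.n l1578 (nat_lit 1940) (nat_lit 13) (nat_lit 11))
    (@En.n l387 (nat_lit 4630) (nat_lit 10) (nat_lit 11))
    (@En.n l4943 (nat_lit 429) (nat_lit 11) (nat_lit 8))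
    (@En.n l3 (nat_lit 1935) (nat_lit 15) (nat_lit 2))))
noncomputable def a121 : T16 Cl := @T16.mk Cl
  (@Cl.mk (nat_lit 0x20007000a000a0007000a000a0008000600060009000600060009000e0008) (nat_lit 0x70012300100784) (nat_lit 16) Lb.e (@T16.mk En
    (@En.n l3635 (nat_lit 1939) (nat_lit 1) (nat_lit 8))
    (@En.n l6506 (nat_lit 1531) (nat_lit 1) (nat_lit 14))
    (@En.n l7 (nat_lit 1938) (nat_lit 2) (nat_lit 9))
    (@En.n l644 (nat_lit 1938) (nat_lit 3) (nat_lit 6))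
    (@En.n l5838 (nat_lit 11182) (nat_lit 4) (nat_lit 6))
    (@En.n l26939 (nat_lit 1934) (nat_lit 5) (nat_lit 9))
    (@En.n l26940 (nat_lit 1934) (nat_lit 6) (nat_lit 6))
    (@En.i (nat_lit 7591) (nat_lit 7) (nat_lit 6))
    (@En.n l26941 (nat_lit 4648) (nat_lit 9) (nat_lit 8))
    (@En.n l16140 (nat_lit 1935) (nat_lit 10) (nat_lit 10))
    (@En.n l16141 (nat_lit 1931) (nat_lit 11) (nat_lit 10))
    (@En.n l16142 (nat_lit 4639) (nat_lit 12) (nat_lit 7))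
    (@En.n l26942 (nat_lit 1937) (nat_lit 13) (nat_lit 10))
    (@En.n l16145 (nat_lit 4631) (nat_lit 8) (nat_lit 10))
    (@En.n l20577 (nat_lit 1494) (nat_lit 13) (nat_lit 7))
    (@En.n l3 (nat_lit 1936) (nat_lit 15) (nat_lit 2))))
  (@Cl.mk (nat_lit 0x20007000a0006000900090007000e00060002000900070007000a000e0009) (nat_lit 0x80020600200054) (nat_lit 16) Lb.e (@T16.mk En
    (@En.n l13206 (nat_lit 3175) (nat_lit 10) (nat_lit 9))
    (@En.i (nat_lit 1528) (nat_lit 11) (nat_lit 14))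
    (@En.n l13207 (nat_lit 4644) (nat_lit 2) (nat_lit 10))
    (@En.n l13208 (nat_lit 4644) (nat_lit 3) (nat_lit 7))
    (@En.n l7471 (nat_lit 9863) (nat_lit 14) (nat_lit 7))
    (@En.n l13209 (nat_lit 1936) (nat_lit 5) (nat_lit 9))
    (@En.n l11 (nat_lit 1937) (nat_lit 6) (nat_lit 2))
    (@En.n l13210 (nat_lit 1936) (nat_lit 7) (nat_lit 6))
    (@En.n l1267 (nat_lit 5947) (nat_lit 9) (nat_lit 14))
    (@En.n l217 (nat_lit 4647) (nat_lit 2) (nat_lit 7))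
    (@En.n l13211 (nat_lit 1940) (nat_lit 11) (nat_lit 9))
    (@En.n l3426 (nat_lit 1942) (nat_lit 4) (nat_lit 9))
    (@En.n l13212 (nat_lit 5224) (nat_lit 13) (nat_lit 6))
    (@En.i (nat_lit 3673) (nat_lit 8) (nat_lit 10))
    (@En.n l13213 (nat_lit 1499) (nat_lit 7) (nat_lit 7))
    (@En.n l17 (nat_lit 1937) (nat_lit 15) (nat_lit 2))))
  (@Cl.mk (nat_lit 0x20006000900090007000e000a0002000900070007000a00060009000e0007) (nat_lit 0x60072040000670) (nat_lit 16) Lb.e (@T16.mk En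
    (@En.i (nat_lit 1980) (nat_lit 7) (nat_lit 7))
    (@En.n l3635 (nat_lit 1191) (nat_lit 9) (nat_lit 14))
    (@En.i (nat_lit 12997) (nat_lit 9) (nat_lit 9))
    (@En.n l15752 (nat_lit 9865) (nat_lit 3) (nat_lit 6))
    (@En.n l207 (nat_lit 1982) (nat_lit 4) (nat_lit 10))
    (@En.n l575 (nat_lit 1982) (nat_lit 5) (nat_lit 7))
    (@En.i (nat_lit 7590) (nat_lit 6) (nat_lit 7))
    (@En.i (nat_lit 4645) (nat_lit 8) (nat_lit 9))
    (@En.n l50 (nat_lit 1938) (nat_lit 8) (nat_lit 2))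
    (@En.i (nat_lit 1936) (nat_lit 10) (nat_lit 10))
    (@En.n l601 (nat_lit 1956) (nat_lit 11) (nat_lit 14))
    (@En.n l4780 (nat_lit 4640) (nat_lit 12) (nat_lit 7))
    (@En.n l30923 (nat_lit 4644) (nat_lit 13) (nat_lit 9))
    (@En.n l1776 (nat_lit 4632) (nat_lit 9) (nat_lit 9))
    (@En.i (nat_lit 1497) (nat_lit 5) (nat_lit 6))
    (@En.n l3 (nat_lit 1938) (nat_lit 15) (nat_lit 2))))
  (@Cl.mk (nat_lit 0x6000900090006000900090008000800070007000a00070007000a00080008) (nat_lit 0x130120400000030) (nat_lit 16) Lb.e (@T16.mk En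
    (@En.n l34858 (nat_lit 2086) (nat_lit 8) (nat_lit 8))
    (@En.n l26620 (nat_lit 1421) (nat_lit 8) (nat_lit 8))
    (@En.n l16136 (nat_lit 1980) (nat_lit 8) (nat_lit 10))
    (@En.n l16137 (nat_lit 1980) (nat_lit 9) (nat_lit 7))
    (@En.n l34859 (nat_lit 9861) (nat_lit 9) (nat_lit 7))
    (@En.n l18 (nat_lit 1979) (nat_lit 8) (nat_lit 10))
    (@En.n l61 (nat_lit 1979) (nat_lit 9) (nat_lit 7))
    (@En.n l34860 (nat_lit 3304) (nat_lit 9) (nat_lit 7))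
    (@En.n l34861 (nat_lit 1936) (nat_lit 8) (nat_lit 8))
    (@En.n l34862 (nat_lit 3131) (nat_lit 8) (nat_lit 8))
    (@En.n l34863 (nat_lit 1941) (nat_lit 7) (nat_lit 9))
    (@En.n l34864 (nat_lit 1904) (nat_lit 9) (nat_lit 9))
    (@En.n l32872 (nat_lit 5260) (nat_lit 10) (nat_lit 6))
    (@En.n l34865 (nat_lit 3175) (nat_lit 7) (nat_lit 9))
    (@En.n l34866 (nat_lit 1906) (nat_lit 9) (nat_lit 9))
    (@En.n l11165 (nat_lit 1708) (nat_lit 10) (nat_lit 6))))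
  (@Cl.mk (nat_lit 0x20008000b000600090006000e000500020008000e00070002000a000e000a) (nat_lit 0x190105002400165) (nat_lit 16) Lb.e (@T16.mk En
    (@En.n l3107 (nat_lit 3174) (nat_lit 9) (nat_lit 10))
    (@En.n l5134 (nat_lit 1530) (nat_lit 10) (nat_lit 14))
    (@En.n l5135 (nat_lit 1937) (nat_lit 2) (nat_lit 10))
    (@En.n l50 (nat_lit 1940) (nat_lit 3) (nat_lit 2))
    (@En.n l5134 (nat_lit 1937) (nat_lit 4) (nat_lit 7))
    (@En.i (nat_lit 11649) (nat_lit 6) (nat_lit 14))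
    (@En.n l536 (nat_lit 1935) (nat_lit 6) (nat_lit 8))
    (@En.n l28 (nat_lit 1940) (nat_lit 7) (nat_lit 2))
    (@En.n l11 (nat_lit 1935) (nat_lit 8) (nat_lit 5))
    (@En.n l5134 (nat_lit 5946) (nat_lit 10) (nat_lit 14))
    (@En.n l5136 (nat_lit 7765) (nat_lit 2) (nat_lit 6))
    (@En.i (nat_lit 870) (nat_lit 3) (nat_lit 9))
    (@En.n l1118 (nat_lit 5226) (nat_lit 4) (nat_lit 6))
    (@En.n l5134 (nat_lit 4164) (nat_lit 14) (nat_lit 11))
    (@En.n l170 (nat_lit 1503) (nat_lit 6) (nat_lit 8))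
    (@En.n l3 (nat_lit 1940) (nat_lit 15) (nat_lit 2))))
  (@Cl.mk (nat_lit 0x2000a000900090007000a000a0006000900070007000600060009000e0007) (nat_lit 0x140013010000030) (nat_lit 16) Lb.e (@T16.mk En
    (@En.n l26806 (nat_lit 1939) (nat_lit 4) (nat_lit 7))
    (@En.n l18965 (nat_lit 11364) (nat_lit 1) (nat_lit 14))
    (@En.n l21529 (nat_lit 2082) (nat_lit 9) (nat_lit 9))
    (@En.n l26807 (nat_lit 2082) (nat_lit 10) (nat_lit 6))
    (@En.n l18965 (nat_lit 3303) (nat_lit 4) (nat_lit 6))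
    (@En.n l18967 (nat_lit 1935) (nat_lit 9) (nat_lit 7))
    (@En.n l26808 (nat_lit 3197) (nat_lit 6) (nat_lit 7))
    (@En.i (nat_lit 876) (nat_lit 9) (nat_lit 9))
    (@En.n l4311 (nat_lit 5274) (nat_lit 8) (nat_lit 6))
    (@En.n l26809 (nat_lit 3174) (nat_lit 6) (nat_lit 10))
    (@En.i (nat_lit 1908) (nat_lit 11) (nat_lit 10))
    (@En.n l26810 (nat_lit 1705) (nat_lit 12) (nat_lit 7))
    (@En.n l11904 (nat_lit 2083) (nat_lit 7) (nat_lit 9))
    (@En.n l26811 (nat_lit 1998) (nat_lit 14) (nat_lit 9))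
    (@En.n l26812 (nat_lit 1939) (nat_lit 2) (nat_lit 10))
    (@En.n l18 (nat_lit 1941) (nat_lit 15) (nat_lit 2))))
  (@Cl.mk (nat_lit 0x200080007000e00080002000e000a00020008000b000900080006000e0005) (nat_lit 0x2056063067710b0) (nat_lit 16) Lb.e (@T16.mk En
    (@En.n l1651 (nat_lit 1931) (nat_lit 8) (nat_lit 5))
    (@En.n l473 (nat_lit 5711) (nat_lit 10) (nat_lit 14))
    (@En.i (nat_lit 2217) (nat_lit 2) (nat_lit 6))
    (@En.i (nat_lit 866) (nat_lit 3) (nat_lit 8))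
    (@En.n l1652 (nat_lit 4143) (nat_lit 4) (nat_lit 9))
    (@En.i (nat_lit 3721) (nat_lit 7) (nat_lit 11))
    (@En.n l475 (nat_lit 1666) (nat_lit 12) (nat_lit 8))
    (@En.n l28 (nat_lit 1942) (nat_lit 7) (nat_lit 2))
    (@En.n l77 (nat_lit 1909) (nat_lit 9) (nat_lit 10))
    (@En.n l476 (nat_lit 1511) (nat_lit 1) (nat_lit 14))
    (@En.n l67 (nat_lit 1942) (nat_lit 10) (nat_lit 2))
    (@En.n l477 (nat_lit 1656) (nat_lit 3) (nat_lit 8))
    (@En.n l1653 (nat_lit 1940) (nat_lit 5) (nat_lit 14))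
    (@En.n l1235 (nat_lit 1529) (nat_lit 14) (nat_lit 7))
    (@En.n l1654 (nat_lit 1931) (nat_lit 6) (nat_lit 8))
    (@En.n l18 (nat_lit 1942) (nat_lit 15) (nat_lit 2))))
  (@Cl.mk (nat_lit 0x20007000e00080002000e000a0002000b000a0009000800060005000e0006) (nat_lit 0xb10110680600c0) (nat_lit 16) Lb.e (@T16.mk En
    (@En.n l4110 (nat_lit 1613) (nat_lit 7) (nat_lit 6))
    (@En.n l12789 (nat_lit 1942) (nat_lit 1) (nat_lit 14))
    (@En.i (nat_lit 4506) (nat_lit 2) (nat_lit 5))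
    (@En.n l685 (nat_lit 3080) (nat_lit 3) (nat_lit 6))
    (@En.n l7998 (nat_lit 1948) (nat_lit 12) (nat_lit 8))
    (@En.n l12790 (nat_lit 3945) (nat_lit 5) (nat_lit 9))
    (@En.n l575 (nat_lit 3720) (nat_lit 14) (nat_lit 10))
    (@En.n l12791 (nat_lit 1812) (nat_lit 12) (nat_lit 11))
    (@En.n l3 (nat_lit 1943) (nat_lit 8) (nat_lit 2))
    (@En.n l7998 (nat_lit 1618) (nat_lit 10) (nat_lit 10))
    (@En.i (nat_lit 1762) (nat_lit 1) (nat_lit 14))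
    (@En.n l17 (nat_lit 1943) (nat_lit 11) (nat_lit 2))
    (@En.n l12792 (nat_lit 1617) (nat_lit 13) (nat_lit 8))
    (@En.n l5 (nat_lit 4630) (nat_lit 1) (nat_lit 14))
    (@En.i (nat_lit 1866) (nat_lit 5) (nat_lit 7))
    (@En.n l7 (nat_lit 1943) (nat_lit 15) (nat_lit 2))))
  (@Cl.mk (nat_lit 0x20009000e000a0002000b000a0008000700060005000e00060002000e0008) (nat_lit 0x2010982000b0011) (nat_lit 16) Lb.e (@T16.mk En
    (@En.i (nat_lit 1617) (nat_lit 14) (nat_lit 8))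
    (@En.n l3423 (nat_lit 1567) (nat_lit 1) (nat_lit 14))
    (@En.n l17 (nat_lit 1944) (nat_lit 2) (nat_lit 2))
    (@En.n l26029 (nat_lit 1618) (nat_lit 3) (nat_lit 6))
    (@En.n l5 (nat_lit 1811) (nat_lit 9) (nat_lit 14))
    (@En.n l26030 (nat_lit 3287) (nat_lit 5) (nat_lit 5))
    (@En.n l8936 (nat_lit 3940) (nat_lit 6) (nat_lit 6))
    (@En.i (nat_lit 1949) (nat_lit 7) (nat_lit 7))
    (@En.n l685 (nat_lit 1377) (nat_lit 13) (nat_lit 8))
    (@En.n l217 (nat_lit 4659) (nat_lit 14) (nat_lit 10))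
    (@En.n l601 (nat_lit 1970) (nat_lit 11) (nat_lit 11))
    (@En.n l28 (nat_lit 1944) (nat_lit 11) (nat_lit 2))
    (@En.i (nat_lit 1613) (nat_lit 13) (nat_lit 10))
    (@En.n l16096 (nat_lit 2097) (nat_lit 1) (nat_lit 14))
    (@En.n l13291 (nat_lit 1956) (nat_lit 12) (nat_lit 9))
    (@En.n l3 (nat_lit 1944) (nat_lit 15) (nat_lit 2))))
  (@Cl.mk (nat_lit 0x2000d000d000900030003000b000b000b000a0007000500050005000e0006) (nat_lit 0x1000096000000) (nat_lit 16) Lb.e (@T16.mk En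
    (@En.n l681 (nat_lit 1954) (nat_lit 4) (nat_lit 6))
    (@En.n l3786 (nat_lit 3114) (nat_lit 1) (nat_lit 14))
    (@En.n l3787 (nat_lit 4092) (nat_lit 11) (nat_lit 5))
    (@En.n l55 (nat_lit 1948) (nat_lit 11) (nat_lit 5))
    (@En.i (nat_lit 2650) (nat_lit 4) (nat_lit 5))
    (@En.n l13032 (nat_lit 2683) (nat_lit 5) (nat_lit 7))
    (@En.n l2337 (nat_lit 3276) (nat_lit 11) (nat_lit 10))
    (@En.n l601 (nat_lit 3940) (nat_lit 8) (nat_lit 11))
    (@En.n l2281 (nat_lit 4505) (nat_lit 5) (nat_lit 11))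
    (@En.i (nat_lit 3147) (nat_lit 10) (nat_lit 11))
    (@En.n l152 (nat_lit 1952) (nat_lit 13) (nat_lit 3))
    (@En.n l146 (nat_lit 1953) (nat_lit 0) (nat_lit 3))
    (@En.n l97 (nat_lit 1613) (nat_lit 0) (nat_lit 9))
    (@En.n l148 (nat_lit 1953) (nat_lit 3) (nat_lit 13))
    (@En.i (nat_lit 4433) (nat_lit 2) (nat_lit 13))
    (@En.n l17 (nat_lit 1945) (nat_lit 15) (nat_lit 2))))
  (@Cl.mk (nat_lit 0x2000b000b000b00090006000500050005000d000d000700030003000e000a) (nat_lit 0x5400000000033) (nat_lit 16) Lb.e (@T16.mk En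
    (@En.n l3279 (nat_lit 1954) (nat_lit 13) (nat_lit 10))
    (@En.n l2243 (nat_lit 5314) (nat_lit 1) (nat_lit 14))
    (@En.n l12783 (nat_lit 1951) (nat_lit 13) (nat_lit 3))
    (@En.n l18 (nat_lit 1950) (nat_lit 3) (nat_lit 3))
    (@En.n l404 (nat_lit 1618) (nat_lit 0) (nat_lit 7))
    (@En.n l61 (nat_lit 1950) (nat_lit 6) (nat_lit 13))
    (@En.n l564 (nat_lit 4565) (nat_lit 7) (nat_lit 13))
    (@En.n l237 (nat_lit 4659) (nat_lit 11) (nat_lit 5))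
    (@En.n l575 (nat_lit 3943) (nat_lit 11) (nat_lit 5))
    (@En.i (nat_lit 3278) (nat_lit 9) (nat_lit 5))
    (@En.n l2853 (nat_lit 3758) (nat_lit 6) (nat_lit 6))
    (@En.n l55 (nat_lit 2683) (nat_lit 12) (nat_lit 9))
    (@En.n l4905 (nat_lit 1948) (nat_lit 13) (nat_lit 11))
    (@En.n l577 (nat_lit 3273) (nat_lit 5) (nat_lit 11))
    (@En.n l107 (nat_lit 1965) (nat_lit 11) (nat_lit 11))
    (@En.n l3 (nat_lit 1946) (nat_lit 15) (nat_lit 2))))
  (@Cl.mk (nat_lit 0x2000c000b000900050004000e00050002000d0007000e00030002000e000b) (nat_lit 0x1040010000300c0) (nat_lit 16) Lb.e (@T16.mk En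
    (@En.n l575 (nat_lit 1953) (nat_lit 14) (nat_lit 11))
    (@En.i (nat_lit 7412) (nat_lit 1) (nat_lit 14))
    (@En.n l17 (nat_lit 1947) (nat_lit 2) (nat_lit 2))
    (@En.n l10850 (nat_lit 1948) (nat_lit 3) (nat_lit 3))
    (@En.i (nat_lit 13422) (nat_lit 0) (nat_lit 14))
    (@En.i (nat_lit 1943) (nat_lit 14) (nat_lit 7))
    (@En.n l564 (nat_lit 6360) (nat_lit 7) (nat_lit 13))
    (@En.n l7 (nat_lit 1947) (nat_lit 7) (nat_lit 2))
    (@En.n l28 (nat_lit 1950) (nat_lit 8) (nat_lit 5))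
    (@En.n l4021 (nat_lit 870) (nat_lit 1) (nat_lit 14))
    (@En.i (nat_lit 4105) (nat_lit 10) (nat_lit 4))
    (@En.n l7998 (nat_lit 3754) (nat_lit 3) (nat_lit 5))
    (@En.n l575 (nat_lit 3731) (nat_lit 4) (nat_lit 9))
    (@En.n l575 (nat_lit 3284) (nat_lit 14) (nat_lit 11))
    (@En.n l107 (nat_lit 811) (nat_lit 12) (nat_lit 12))
    (@En.n l3 (nat_lit 1947) (nat_lit 15) (nat_lit 2))))
  (@Cl.mk (nat_lit 0x2000c000b000800050004000e00050002000d000d000800030003000e000b) (nat_lit 0x1450010001200c1) (nat_lit 16) Lb.e (@T16.mk En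
    (@En.i (nat_lit 1945) (nat_lit 9) (nat_lit 11))
    (@En.i (nat_lit 7411) (nat_lit 1) (nat_lit 14))
    (@En.n l152 (nat_lit 1949) (nat_lit 13) (nat_lit 3))
    (@En.n l5162 (nat_lit 1947) (nat_lit 3) (nat_lit 3))
    (@En.n l97 (nat_lit 1944) (nat_lit 0) (nat_lit 8))
    (@En.n l11281 (nat_lit 1947) (nat_lit 6) (nat_lit 13))
    (@En.i (nat_lit 6359) (nat_lit 7) (nat_lit 13))
    (@En.n l17 (nat_lit 1948) (nat_lit 7) (nat_lit 2))
    (@En.n l12328 (nat_lit 1946) (nat_lit 8) (nat_lit 5))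
    (@En.n l5 (nat_lit 866) (nat_lit 1) (nat_lit 14))
    (@En.n l7402 (nat_lit 4103) (nat_lit 10) (nat_lit 4))
    (@En.i (nat_lit 3757) (nat_lit 3) (nat_lit 5))
    (@En.n l681 (nat_lit 3729) (nat_lit 4) (nat_lit 8))
    (@En.n l217 (nat_lit 3280) (nat_lit 14) (nat_lit 11))
    (@En.n l601 (nat_lit 813) (nat_lit 7) (nat_lit 12))
    (@En.n l28 (nat_lit 1948) (nat_lit 15) (nat_lit 2))))
  (@Cl.mk (nat_lit 0x200090003000e000b0002000c000b000700050004000e00050002000e000d) (nat_lit 0x40c001000010061) (nat_lit 16) Lb.e (@T16.mk En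
    (@En.i (nat_lit 1948) (nat_lit 6) (nat_lit 13))
    (@En.i (nat_lit 7642) (nat_lit 1) (nat_lit 14))
    (@En.n l17 (nat_lit 1949) (nat_lit 2) (nat_lit 2))
    (@En.n l50 (nat_lit 1951) (nat_lit 3) (nat_lit 5))
    (@En.n l5 (nat_lit 868) (nat_lit 1) (nat_lit 14))
    (@En.n l50 (nat_lit 4108) (nat_lit 5) (nat_lit 4))
    (@En.i (nat_lit 4057) (nat_lit 6) (nat_lit 5))
    (@En.i (nat_lit 3726) (nat_lit 7) (nat_lit 7))
    (@En.n l217 (nat_lit 3281) (nat_lit 9) (nat_lit 11))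
    (@En.n l601 (nat_lit 815) (nat_lit 10) (nat_lit 12))
    (@En.n l28 (nat_lit 1949) (nat_lit 10) (nat_lit 2))
    (@En.i (nat_lit 1952) (nat_lit 12) (nat_lit 11))
    (@En.i (nat_lit 4823) (nat_lit 1) (nat_lit 14))
    (@En.n l117 (nat_lit 1948) (nat_lit 2) (nat_lit 3))
    (@En.i (nat_lit 1957) (nat_lit 12) (nat_lit 9))
    (@En.n l3 (nat_lit 1949) (nat_lit 15) (nat_lit 2))))
  (@Cl.mk (nat_lit 0x2000b000b000b000a0006000500050005000d0006000e00030002000e000a) (nat_lit 0x160000b070000) (nat_lit 16) Lb.e (@T16.mk En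
    (@En.n l3279 (nat_lit 1955) (nat_lit 14) (nat_lit 10))
    (@En.i (nat_lit 7153) (nat_lit 1) (nat_lit 14))
    (@En.n l17 (nat_lit 1950) (nat_lit 2) (nat_lit 2))
    (@En.i (nat_lit 1946) (nat_lit 3) (nat_lit 3))
    (@En.i (nat_lit 13462) (nat_lit 0) (nat_lit 14))
    (@En.n l7 (nat_lit 1613) (nat_lit 5) (nat_lit 6))
    (@En.n l564 (nat_lit 4564) (nat_lit 7) (nat_lit 13))
    (@En.n l237 (nat_lit 4658) (nat_lit 7) (nat_lit 5))
    (@En.n l575 (nat_lit 3944) (nat_lit 11) (nat_lit 5))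
    (@En.i (nat_lit 4101) (nat_lit 9) (nat_lit 5))
    (@En.i (nat_lit 3759) (nat_lit 7) (nat_lit 6))
    (@En.n l4380 (nat_lit 2680) (nat_lit 12) (nat_lit 10))
    (@En.n l134 (nat_lit 1947) (nat_lit 13) (nat_lit 11))
    (@En.n l577 (nat_lit 4182) (nat_lit 5) (nat_lit 11))
    (@En.n l107 (nat_lit 1966) (nat_lit 12) (nat_lit 11))
    (@En.n l3 (nat_lit 1950) (nat_lit 15) (nat_lit 2))))
  (@Cl.mk (nat_lit 0x200080003000e000a0002000b000b000b00080006000500050005000e000d) (nat_lit 0x30a300016000031) (nat_lit 16) Lb.e (@T16.mk En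
    (@En.n l1658 (nat_lit 1946) (nat_lit 6) (nat_lit 13))
    (@En.i (nat_lit 2916) (nat_lit 1) (nat_lit 14))
    (@En.n l4906 (nat_lit 4660) (nat_lit 2) (nat_lit 5))
    (@En.n l2172 (nat_lit 3945) (nat_lit 3) (nat_lit 5))
    (@En.n l4907 (nat_lit 3279) (nat_lit 4) (nat_lit 5))
    (@En.i (nat_lit 3887) (nat_lit 5) (nat_lit 6))
    (@En.n l4908 (nat_lit 4085) (nat_lit 6) (nat_lit 8))
    (@En.n l742 (nat_lit 1949) (nat_lit 8) (nat_lit 11))
    (@En.n l396 (nat_lit 4183) (nat_lit 5) (nat_lit 11))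
    (@En.n l4909 (nat_lit 2069) (nat_lit 10) (nat_lit 11))
    (@En.n l28 (nat_lit 1951) (nat_lit 10) (nat_lit 2))
    (@En.i (nat_lit 3090) (nat_lit 12) (nat_lit 10))
    (@En.i (nat_lit 5302) (nat_lit 1) (nat_lit 14))
    (@En.n l4910 (nat_lit 1946) (nat_lit 2) (nat_lit 3))
    (@En.i (nat_lit 1870) (nat_lit 3) (nat_lit 8))
    (@En.n l3 (nat_lit 1951) (nat_lit 15) (nat_lit 2))))
noncomputable def a122 : T16 Cl := @T16.mk Cl
  (@Cl.mk (nat_lit 0x2000a0003000b000b000b000a0006000500050005000e00060002000e000d) (nat_lit 0x309000000000061) (nat_lit 16) Lb.e (@T16.mk En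
    (@En.i (nat_lit 1945) (nat_lit 14) (nat_lit 13))
    (@En.i (nat_lit 7643) (nat_lit 1) (nat_lit 14))
    (@En.n l17 (nat_lit 1952) (nat_lit 2) (nat_lit 2))
    (@En.n l50 (nat_lit 3090) (nat_lit 3) (nat_lit 6))
    (@En.n l3786 (nat_lit 3116) (nat_lit 1) (nat_lit 14))
    (@En.n l3787 (nat_lit 4476) (nat_lit 5) (nat_lit 5))
    (@En.n l55 (nat_lit 1949) (nat_lit 6) (nat_lit 5))
    (@En.i (nat_lit 2648) (nat_lit 7) (nat_lit 5))
    (@En.n l688 (nat_lit 3700) (nat_lit 8) (nat_lit 6))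
    (@En.n l2337 (nat_lit 3278) (nat_lit 10) (nat_lit 10))
    (@En.n l601 (nat_lit 3941) (nat_lit 11) (nat_lit 11))
    (@En.n l2281 (nat_lit 4506) (nat_lit 5) (nat_lit 11))
    (@En.n l11 (nat_lit 4898) (nat_lit 13) (nat_lit 11))
    (@En.n l117 (nat_lit 1945) (nat_lit 10) (nat_lit 3))
    (@En.i (nat_lit 1932) (nat_lit 12) (nat_lit 10))
    (@En.n l3 (nat_lit 1952) (nat_lit 15) (nat_lit 2))))
  (@Cl.mk (nat_lit 0x2000b000b000b000a0008000500050005000e00060002000d0008000e0003) (nat_lit 0x90964000300b5a0) (nat_lit 16) Lb.e (@T16.mk En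
    (@En.n l137 (nat_lit 1945) (nat_lit 11) (nat_lit 3))
    (@En.i (nat_lit 12847) (nat_lit 0) (nat_lit 14))
    (@En.n l4112 (nat_lit 1618) (nat_lit 14) (nat_lit 8))
    (@En.n l396 (nat_lit 4431) (nat_lit 2) (nat_lit 13))
    (@En.n l7 (nat_lit 1953) (nat_lit 4) (nat_lit 2))
    (@En.i (nat_lit 1955) (nat_lit 5) (nat_lit 6))
    (@En.n l134 (nat_lit 3117) (nat_lit 1) (nat_lit 14))
    (@En.n l11 (nat_lit 4091) (nat_lit 7) (nat_lit 5))
    (@En.n l4976 (nat_lit 1947) (nat_lit 11) (nat_lit 5))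
    (@En.n l4112 (nat_lit 2649) (nat_lit 9) (nat_lit 5))
    (@En.i (nat_lit 2681) (nat_lit 5) (nat_lit 8))
    (@En.i (nat_lit 4099) (nat_lit 12) (nat_lit 10))
    (@En.n l4314 (nat_lit 3942) (nat_lit 13) (nat_lit 11))
    (@En.n l25352 (nat_lit 4504) (nat_lit 5) (nat_lit 11))
    (@En.i (nat_lit 4468) (nat_lit 10) (nat_lit 11))
    (@En.n l17 (nat_lit 1953) (nat_lit 15) (nat_lit 2))))
  (@Cl.mk (nat_lit 0x30003000a000a000a000a000a000800060006000600060006000d000d0008) (nat_lit 0x20007500000502) (nat_lit 16) Lb.e (@T16.mk En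
    (@En.n l6958 (nat_lit 1619) (nat_lit 0) (nat_lit 8))
    (@En.n l61 (nat_lit 1955) (nat_lit 3) (nat_lit 13))
    (@En.n l1392 (nat_lit 3158) (nat_lit 2) (nat_lit 13))
    (@En.n l26556 (nat_lit 2078) (nat_lit 10) (nat_lit 6))
    (@En.n l26557 (nat_lit 3092) (nat_lit 10) (nat_lit 6))
    (@En.n l26558 (nat_lit 3270) (nat_lit 10) (nat_lit 6))
    (@En.n l4969 (nat_lit 1946) (nat_lit 10) (nat_lit 6))
    (@En.n l26559 (nat_lit 2645) (nat_lit 7) (nat_lit 6))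
    (@En.i (nat_lit 1381) (nat_lit 8) (nat_lit 8))
    (@En.n l26560 (nat_lit 1945) (nat_lit 6) (nat_lit 10))
    (@En.n l2853 (nat_lit 3269) (nat_lit 6) (nat_lit 10))
    (@En.n l13539 (nat_lit 2073) (nat_lit 6) (nat_lit 10))
    (@En.n l4297 (nat_lit 3091) (nat_lit 6) (nat_lit 10))
    (@En.i (nat_lit 2123) (nat_lit 14) (nat_lit 10))
    (@En.n l21964 (nat_lit 3090) (nat_lit 13) (nat_lit 3))
    (@En.n l18 (nat_lit 1955) (nat_lit 0) (nat_lit 3))))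
  (@Cl.mk (nat_lit 0x2000a000a000a000a000a000900060006000600060006000d0007000e0003) (nat_lit 0x80007400000b070) (nat_lit 16) Lb.e (@T16.mk En
    (@En.i (nat_lit 1954) (nat_lit 15) (nat_lit 3))
    (@En.i (nat_lit 12911) (nat_lit 0) (nat_lit 14))
    (@En.i (nat_lit 1619) (nat_lit 2) (nat_lit 7))
    (@En.n l396 (nat_lit 3154) (nat_lit 2) (nat_lit 13))
    (@En.n l4968 (nat_lit 2079) (nat_lit 4) (nat_lit 6))
    (@En.n l218 (nat_lit 3098) (nat_lit 5) (nat_lit 6))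
    (@En.n l394 (nat_lit 3271) (nat_lit 6) (nat_lit 6))
    (@En.n l4969 (nat_lit 1950) (nat_lit 10) (nat_lit 6))
    (@En.n l23002 (nat_lit 3076) (nat_lit 8) (nat_lit 6))
    (@En.n l644 (nat_lit 2670) (nat_lit 10) (nat_lit 9))
    (@En.n l77 (nat_lit 1953) (nat_lit 11) (nat_lit 10))
    (@En.n l55 (nat_lit 3272) (nat_lit 6) (nat_lit 10))
    (@En.n l619 (nat_lit 2076) (nat_lit 6) (nat_lit 10))
    (@En.i (nat_lit 3099) (nat_lit 6) (nat_lit 10))
    (@En.i (nat_lit 3149) (nat_lit 14) (nat_lit 10))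
    (@En.n l17 (nat_lit 1955) (nat_lit 15) (nat_lit 2))))
  (@Cl.mk (nat_lit 0x2000600090009000e00090002000a000900070007000a00070006000e0007) (nat_lit 0x216103400800b0) (nat_lit 16) Lb.e (@T16.mk En
    (@En.n l26035 (nat_lit 1869) (nat_lit 6) (nat_lit 7))
    (@En.n l3734 (nat_lit 1803) (nat_lit 8) (nat_lit 14))
    (@En.i (nat_lit 2130) (nat_lit 2) (nat_lit 6))
    (@En.n l10194 (nat_lit 6252) (nat_lit 3) (nat_lit 7))
    (@En.n l26036 (nat_lit 1957) (nat_lit 4) (nat_lit 10))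
    (@En.n l26037 (nat_lit 1957) (nat_lit 5) (nat_lit 7))
    (@En.i (nat_lit 7587) (nat_lit 6) (nat_lit 7))
    (@En.n l6578 (nat_lit 1961) (nat_lit 14) (nat_lit 9))
    (@En.n l50 (nat_lit 1936) (nat_lit 9) (nat_lit 10))
    (@En.n l7 (nat_lit 1956) (nat_lit 9) (nat_lit 2))
    (@En.n l10194 (nat_lit 1658) (nat_lit 11) (nat_lit 9))
    (@En.n l19221 (nat_lit 6009) (nat_lit 12) (nat_lit 14))
    (@En.n l26038 (nat_lit 1661) (nat_lit 13) (nat_lit 9))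
    (@En.n l1776 (nat_lit 1863) (nat_lit 9) (nat_lit 9))
    (@En.i (nat_lit 1486) (nat_lit 4) (nat_lit 6))
    (@En.n l3 (nat_lit 1956) (nat_lit 15) (nat_lit 2))))
  (@Cl.mk (nat_lit 0x20006000e00090002000e000a0002000b000a0007000a00060005000e0006) (nat_lit 0x230710340700b0) (nat_lit 16) Lb.e (@T16.mk En
    (@En.n l50 (nat_lit 1870) (nat_lit 7) (nat_lit 6))
    (@En.n l5 (nat_lit 1805) (nat_lit 1) (nat_lit 14))
    (@En.n l690 (nat_lit 2129) (nat_lit 2) (nat_lit 5))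
    (@En.i (nat_lit 6283) (nat_lit 3) (nat_lit 6))
    (@En.i (nat_lit 12976) (nat_lit 8) (nat_lit 10))
    (@En.n l690 (nat_lit 7586) (nat_lit 5) (nat_lit 7))
    (@En.n l217 (nat_lit 1959) (nat_lit 14) (nat_lit 10))
    (@En.n l601 (nat_lit 1934) (nat_lit 8) (nat_lit 11))
    (@En.n l28 (nat_lit 1957) (nat_lit 8) (nat_lit 2))
    (@En.i (nat_lit 1932) (nat_lit 10) (nat_lit 10))
    (@En.i (nat_lit 6007) (nat_lit 1) (nat_lit 14))
    (@En.n l107 (nat_lit 1957) (nat_lit 11) (nat_lit 2))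
    (@En.n l690 (nat_lit 1956) (nat_lit 13) (nat_lit 9))
    (@En.n l97 (nat_lit 1944) (nat_lit 1) (nat_lit 14))
    (@En.n l1544 (nat_lit 1541) (nat_lit 5) (nat_lit 6))
    (@En.n l17 (nat_lit 1957) (nat_lit 15) (nat_lit 2))))
  (@Cl.mk (nat_lit 0x20007000a000a000e000a0002000a0006000600090006000d0006000e0003) (nat_lit 0x500300000090) (nat_lit 16) Lb.e (@T16.mk En
    (@En.n l25366 (nat_lit 1961) (nat_lit 6) (nat_lit 3))
    (@En.i (nat_lit 13549) (nat_lit 0) (nat_lit 14))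
    (@En.n l690 (nat_lit 1956) (nat_lit 2) (nat_lit 6))
    (@En.n l8111 (nat_lit 5685) (nat_lit 10) (nat_lit 13))
    (@En.i (nat_lit 6255) (nat_lit 4) (nat_lit 6))
    (@En.n l3 (nat_lit 1960) (nat_lit 5) (nat_lit 9))
    (@En.n l527 (nat_lit 1960) (nat_lit 6) (nat_lit 6))
    (@En.n l10300 (nat_lit 5995) (nat_lit 14) (nat_lit 6))
    (@En.n l3424 (nat_lit 7884) (nat_lit 9) (nat_lit 10))
    (@En.n l28 (nat_lit 1958) (nat_lit 9) (nat_lit 2))
    (@En.n l77 (nat_lit 1966) (nat_lit 11) (nat_lit 10))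
    (@En.n l13287 (nat_lit 6005) (nat_lit 12) (nat_lit 14))
    (@En.n l26993 (nat_lit 1962) (nat_lit 13) (nat_lit 10))
    (@En.n l8111 (nat_lit 2077) (nat_lit 8) (nat_lit 10))
    (@En.i (nat_lit 7827) (nat_lit 4) (nat_lit 7))
    (@En.n l17 (nat_lit 1958) (nat_lit 15) (nat_lit 2))))
  (@Cl.mk (nat_lit 0x2000a000600090005000d000d0006000300030007000e000a0002000e000b) (nat_lit 0x300000000000050) (nat_lit 16) Lb.e (@T16.mk En
    (@En.n l77 (nat_lit 1967) (nat_lit 14) (nat_lit 11))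
    (@En.n l1543 (nat_lit 6003) (nat_lit 1) (nat_lit 14))
    (@En.n l107 (nat_lit 1959) (nat_lit 2) (nat_lit 2))
    (@En.n l25366 (nat_lit 1961) (nat_lit 3) (nat_lit 10))
    (@En.n l97 (nat_lit 4659) (nat_lit 5) (nat_lit 14))
    (@En.n l1543 (nat_lit 7830) (nat_lit 5) (nat_lit 7))
    (@En.n l6477 (nat_lit 5988) (nat_lit 13) (nat_lit 3))
    (@En.n l18 (nat_lit 1960) (nat_lit 0) (nat_lit 3))
    (@En.n l1878 (nat_lit 1977) (nat_lit 0) (nat_lit 6))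
    (@En.n l61 (nat_lit 1960) (nat_lit 3) (nat_lit 13))
    (@En.i (nat_lit 5682) (nat_lit 11) (nat_lit 13))
    (@En.i (nat_lit 5943) (nat_lit 8) (nat_lit 5))
    (@En.i (nat_lit 12980) (nat_lit 9) (nat_lit 9))
    (@En.n l1878 (nat_lit 5990) (nat_lit 14) (nat_lit 6))
    (@En.n l12144 (nat_lit 7877) (nat_lit 12) (nat_lit 10))
    (@En.n l28 (nat_lit 1959) (nat_lit 15) (nat_lit 2))))
  (@Cl.mk (nat_lit 0x20007000e000a0002000e000b0002000b000600090005000d0005000e0003) (nat_lit 0x105003070b080) (nat_lit 16) Lb.e (@T16.mk En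
    (@En.i (nat_lit 1959) (nat_lit 7) (nat_lit 3))
    (@En.i (nat_lit 13550) (nat_lit 0) (nat_lit 14))
    (@En.i (nat_lit 1957) (nat_lit 2) (nat_lit 5))
    (@En.i (nat_lit 5683) (nat_lit 11) (nat_lit 13))
    (@En.i (nat_lit 6282) (nat_lit 4) (nat_lit 5))
    (@En.i (nat_lit 12979) (nat_lit 9) (nat_lit 9))
    (@En.i (nat_lit 5997) (nat_lit 14) (nat_lit 6))
    (@En.n l3424 (nat_lit 7886) (nat_lit 12) (nat_lit 11))
    (@En.n l28 (nat_lit 1960) (nat_lit 8) (nat_lit 2))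
    (@En.n l77 (nat_lit 1968) (nat_lit 10) (nat_lit 11))
    (@En.i (nat_lit 6004) (nat_lit 1) (nat_lit 14))
    (@En.n l107 (nat_lit 1960) (nat_lit 11) (nat_lit 2))
    (@En.i (nat_lit 1958) (nat_lit 13) (nat_lit 10))
    (@En.n l97 (nat_lit 4658) (nat_lit 1) (nat_lit 14))
    (@En.i (nat_lit 7831) (nat_lit 5) (nat_lit 7))
    (@En.n l17 (nat_lit 1960) (nat_lit 15) (nat_lit 2))))
  (@Cl.mk (nat_lit 0x200090006000600090006000d000d0007000300030007000a000a000e000a) (nat_lit 0x300100100008050) (nat_lit 16) Lb.e (@T16.mk En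
    (@En.n l39890 (nat_lit 1965) (nat_lit 10) (nat_lit 10))
    (@En.n l25402 (nat_lit 5452) (nat_lit 1) (nat_lit 14))
    (@En.n l15668 (nat_lit 1963) (nat_lit 2) (nat_lit 10))
    (@En.n l7563 (nat_lit 2075) (nat_lit 8) (nat_lit 10))
    (@En.n l1363 (nat_lit 7828) (nat_lit 4) (nat_lit 7))
    (@En.n l7 (nat_lit 1964) (nat_lit 13) (nat_lit 3))
    (@En.n l39891 (nat_lit 1958) (nat_lit 0) (nat_lit 3))
    (@En.i (nat_lit 1976) (nat_lit 0) (nat_lit 7))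
    (@En.n l25282 (nat_lit 1958) (nat_lit 3) (nat_lit 13))
    (@En.n l7563 (nat_lit 5684) (nat_lit 10) (nat_lit 13))
    (@En.n l15050 (nat_lit 6256) (nat_lit 3) (nat_lit 6))
    (@En.n l39892 (nat_lit 1959) (nat_lit 12) (nat_lit 9))
    (@En.n l22351 (nat_lit 1959) (nat_lit 13) (nat_lit 6))
    (@En.i (nat_lit 5994) (nat_lit 14) (nat_lit 6))
    (@En.n l31041 (nat_lit 5986) (nat_lit 8) (nat_lit 9))
    (@En.n l3 (nat_lit 1961) (nat_lit 15) (nat_lit 2))))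
  (@Cl.mk (nat_lit 0x20007000a000e000900020009000e0006000200090007000d0007000e0003) (nat_lit 0x830030001000a0) (nat_lit 16) Lb.e (@T16.mk En
    (@En.i (nat_lit 1963) (nat_lit 5) (nat_lit 3))
    (@En.n l5378 (nat_lit 13551) (nat_lit 0) (nat_lit 14))
    (@En.i (nat_lit 1661) (nat_lit 2) (nat_lit 7))
    (@En.i (nat_lit 5687) (nat_lit 13) (nat_lit 13))
    (@En.n l3340 (nat_lit 6257) (nat_lit 14) (nat_lit 7))
    (@En.n l27139 (nat_lit 1958) (nat_lit 5) (nat_lit 9))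
    (@En.n l107 (nat_lit 1962) (nat_lit 6) (nat_lit 2))
    (@En.n l27140 (nat_lit 1958) (nat_lit 7) (nat_lit 6))
    (@En.i (nat_lit 2817) (nat_lit 9) (nat_lit 14))
    (@En.n l12585 (nat_lit 7883) (nat_lit 2) (nat_lit 9))
    (@En.n l17 (nat_lit 1962) (nat_lit 10) (nat_lit 2))
    (@En.n l7231 (nat_lit 1969) (nat_lit 4) (nat_lit 9))
    (@En.n l2605 (nat_lit 5450) (nat_lit 13) (nat_lit 14))
    (@En.i (nat_lit 3975) (nat_lit 2) (nat_lit 10))
    (@En.n l5381 (nat_lit 7825) (nat_lit 3) (nat_lit 7))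
    (@En.n l50 (nat_lit 1962) (nat_lit 15) (nat_lit 2))))
  (@Cl.mk (nat_lit 0x20008000e0006000200090007000d000d0008000300030007000a000e0009) (nat_lit 0x300020012000830) (nat_lit 16) Lb.e (@T16.mk En
    (@En.n l7231 (nat_lit 2068) (nat_lit 4) (nat_lit 9))
    (@En.n l2605 (nat_lit 5444) (nat_lit 6) (nat_lit 14))
    (@En.i (nat_lit 3974) (nat_lit 2) (nat_lit 10))
    (@En.n l16585 (nat_lit 7826) (nat_lit 3) (nat_lit 7))
    (@En.n l3643 (nat_lit 2071) (nat_lit 4) (nat_lit 3))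
    (@En.n l7 (nat_lit 1962) (nat_lit 0) (nat_lit 3))
    (@En.n l5572 (nat_lit 1978) (nat_lit 6) (nat_lit 8))
    (@En.n l644 (nat_lit 1962) (nat_lit 3) (nat_lit 13))
    (@En.i (nat_lit 5689) (nat_lit 13) (nat_lit 13))
    (@En.n l3340 (nat_lit 6258) (nat_lit 14) (nat_lit 7))
    (@En.n l21677 (nat_lit 1961) (nat_lit 11) (nat_lit 9))
    (@En.n l107 (nat_lit 1963) (nat_lit 11) (nat_lit 2))
    (@En.n l15234 (nat_lit 1961) (nat_lit 13) (nat_lit 6))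
    (@En.i (nat_lit 2815) (nat_lit 1) (nat_lit 14))
    (@En.n l7260 (nat_lit 5987) (nat_lit 2) (nat_lit 8))
    (@En.n l17 (nat_lit 1963) (nat_lit 15) (nat_lit 2))))
  (@Cl.mk (nat_lit 0x2000800030007000a000a000e000a000200080006000600090006000e000d) (nat_lit 0x300007003000041) (nat_lit 16) Lb.e (@T16.mk En
    (@En.n l134 (nat_lit 1961) (nat_lit 9) (nat_lit 13))
    (@En.i (nat_lit 5757) (nat_lit 10) (nat_lit 14))
    (@En.n l117 (nat_lit 6259) (nat_lit 2) (nat_lit 6))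
    (@En.n l617 (nat_lit 5988) (nat_lit 3) (nat_lit 9))
    (@En.n l2687 (nat_lit 5988) (nat_lit 4) (nat_lit 6))
    (@En.i (nat_lit 5991) (nat_lit 14) (nat_lit 6))
    (@En.i (nat_lit 5976) (nat_lit 6) (nat_lit 8))
    (@En.n l3 (nat_lit 1964) (nat_lit 7) (nat_lit 2))
    (@En.n l17 (nat_lit 2069) (nat_lit 9) (nat_lit 10))
    (@En.i (nat_lit 5454) (nat_lit 10) (nat_lit 14))
    (@En.n l17929 (nat_lit 2071) (nat_lit 2) (nat_lit 10))
    (@En.i (nat_lit 2074) (nat_lit 3) (nat_lit 10))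
    (@En.i (nat_lit 2004) (nat_lit 4) (nat_lit 7))
    (@En.i (nat_lit 1961) (nat_lit 5) (nat_lit 3))
    (@En.i (nat_lit 2084) (nat_lit 0) (nat_lit 8))
    (@En.n l28 (nat_lit 1964) (nat_lit 15) (nat_lit 2))))
  (@Cl.mk (nat_lit 0x300030008000b000b000a000a000800050005000800060006000d000d0008) (nat_lit 0x30981200000003) (nat_lit 16) Lb.e (@T16.mk En
    (@En.n l8021 (nat_lit 1973) (nat_lit 0) (nat_lit 8))
    (@En.n l61 (nat_lit 1966) (nat_lit 3) (nat_lit 13))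
    (@En.n l26565 (nat_lit 3311) (nat_lit 2) (nat_lit 13))
    (@En.n l26566 (nat_lit 1961) (nat_lit 10) (nat_lit 6))
    (@En.i (nat_lit 2301) (nat_lit 4) (nat_lit 6))
    (@En.n l3 (nat_lit 1967) (nat_lit 10) (nat_lit 8))
    (@En.n l527 (nat_lit 1967) (nat_lit 11) (nat_lit 5))
    (@En.n l23643 (nat_lit 5998) (nat_lit 7) (nat_lit 5))
    (@En.n l55 (nat_lit 835) (nat_lit 8) (nat_lit 8))
    (@En.n l26567 (nat_lit 813) (nat_lit 6) (nat_lit 10))
    (@En.n l26568 (nat_lit 4187) (nat_lit 11) (nat_lit 10))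
    (@En.n l13816 (nat_lit 2068) (nat_lit 5) (nat_lit 11))
    (@En.n l26569 (nat_lit 2073) (nat_lit 7) (nat_lit 11))
    (@En.n l26570 (nat_lit 5186) (nat_lit 14) (nat_lit 8))
    (@En.n l26571 (nat_lit 2069) (nat_lit 13) (nat_lit 3))
    (@En.n l18 (nat_lit 1966) (nat_lit 0) (nat_lit 3))))
  (@Cl.mk (nat_lit 0x20008000b000b000a000a000900050005000800060006000d0007000e0003) (nat_lit 0x40981200000b070) (nat_lit 16) Lb.e (@T16.mk En
    (@En.i (nat_lit 1965) (nat_lit 15) (nat_lit 3))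
    (@En.i (nat_lit 13546) (nat_lit 0) (nat_lit 14))
    (@En.n l7 (nat_lit 1658) (nat_lit 2) (nat_lit 7))
    (@En.n l564 (nat_lit 3308) (nat_lit 4) (nat_lit 13))
    (@En.n l237 (nat_lit 1958) (nat_lit 4) (nat_lit 6))
    (@En.i (nat_lit 2297) (nat_lit 5) (nat_lit 6))
    (@En.n l3 (nat_lit 1968) (nat_lit 6) (nat_lit 8))
    (@En.n l527 (nat_lit 1968) (nat_lit 7) (nat_lit 5))
    (@En.n l12174 (nat_lit 6101) (nat_lit 8) (nat_lit 5))
    (@En.n l4380 (nat_lit 827) (nat_lit 10) (nat_lit 9))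
    (@En.n l134 (nat_lit 811) (nat_lit 11) (nat_lit 10))
    (@En.n l27445 (nat_lit 4189) (nat_lit 12) (nat_lit 10))
    (@En.n l13816 (nat_lit 1969) (nat_lit 5) (nat_lit 11))
    (@En.n l27446 (nat_lit 2076) (nat_lit 7) (nat_lit 11))
    (@En.i (nat_lit 5189) (nat_lit 14) (nat_lit 8))
    (@En.n l17 (nat_lit 1966) (nat_lit 15) (nat_lit 2))))
  (@Cl.mk (nat_lit 0x2000b000b00090005000800050005000d000d0007000300030008000e000b) (nat_lit 0x912060000000341) (nat_lit 16) Lb.e (@T16.mk En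
    (@En.i (nat_lit 1965) (nat_lit 12) (nat_lit 11))
    (@En.n l97 (nat_lit 1946) (nat_lit 1) (nat_lit 14))
    (@En.n l4212 (nat_lit 5187) (nat_lit 2) (nat_lit 8))
    (@En.n l26571 (nat_lit 2358) (nat_lit 13) (nat_lit 3))
    (@En.n l18 (nat_lit 1968) (nat_lit 0) (nat_lit 3))
    (@En.n l7 (nat_lit 1974) (nat_lit 0) (nat_lit 7))
    (@En.n l61 (nat_lit 1968) (nat_lit 3) (nat_lit 13))
    (@En.n l564 (nat_lit 3349) (nat_lit 8) (nat_lit 13))
    (@En.n l237 (nat_lit 1959) (nat_lit 11) (nat_lit 5))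
    (@En.i (nat_lit 2355) (nat_lit 9) (nat_lit 5))
    (@En.i (nat_lit 12978) (nat_lit 10) (nat_lit 8))
    (@En.n l23643 (nat_lit 4068) (nat_lit 6) (nat_lit 5))
    (@En.n l55 (nat_lit 2208) (nat_lit 13) (nat_lit 9))
    (@En.n l134 (nat_lit 810) (nat_lit 14) (nat_lit 11))
    (@En.n l11 (nat_lit 2361) (nat_lit 10) (nat_lit 11))
    (@En.n l107 (nat_lit 1967) (nat_lit 15) (nat_lit 2))))
noncomputable def a123 : T16 Cl := @T16.mk Cl
  (@Cl.mk (nat_lit 0x20008000e000b0002000b000b000a0005000800050005000d0006000e0003) (nat_lit 0x41109120600b060) (nat_lit 16) Lb.e (@T16.mk En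
    (@En.i (nat_lit 1967) (nat_lit 4) (nat_lit 3))
    (@En.i (nat_lit 13548) (nat_lit 0) (nat_lit 14))
    (@En.n l7 (nat_lit 1932) (nat_lit 2) (nat_lit 6))
    (@En.n l564 (nat_lit 3350) (nat_lit 8) (nat_lit 13))
    (@En.n l237 (nat_lit 1960) (nat_lit 4) (nat_lit 5))
    (@En.i (nat_lit 2357) (nat_lit 9) (nat_lit 5))
    (@En.i (nat_lit 12977) (nat_lit 10) (nat_lit 8))
    (@En.i (nat_lit 6001) (nat_lit 7) (nat_lit 5))
    (@En.n l4380 (nat_lit 834) (nat_lit 9) (nat_lit 10))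
    (@En.n l134 (nat_lit 812) (nat_lit 10) (nat_lit 11))
    (@En.n l11 (nat_lit 4190) (nat_lit 11) (nat_lit 11))
    (@En.n l107 (nat_lit 1968) (nat_lit 11) (nat_lit 2))
    (@En.i (nat_lit 1966) (nat_lit 13) (nat_lit 11))
    (@En.n l97 (nat_lit 1950) (nat_lit 1) (nat_lit 14))
    (@En.i (nat_lit 5461) (nat_lit 2) (nat_lit 8))
    (@En.n l17 (nat_lit 1968) (nat_lit 15) (nat_lit 2))))
  (@Cl.mk (nat_lit 0x2000800070007000d0008000e000300020008000b000900090008000e0005) (nat_lit 0x10002a004871200) (nat_lit 16) Lb.e (@T16.mk En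
    (@En.n l5600 (nat_lit 1966) (nat_lit 8) (nat_lit 5))
    (@En.n l5928 (nat_lit 2950) (nat_lit 10) (nat_lit 14))
    (@En.n l644 (nat_lit 826) (nat_lit 2) (nat_lit 8))
    (@En.n l4758 (nat_lit 817) (nat_lit 3) (nat_lit 9))
    (@En.n l11831 (nat_lit 3623) (nat_lit 4) (nat_lit 9))
    (@En.n l2038 (nat_lit 3972) (nat_lit 7) (nat_lit 11))
    (@En.n l5605 (nat_lit 7829) (nat_lit 6) (nat_lit 8))
    (@En.n l17 (nat_lit 1969) (nat_lit 7) (nat_lit 2))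
    (@En.i (nat_lit 2068) (nat_lit 8) (nat_lit 3))
    (@En.n l476 (nat_lit 13552) (nat_lit 0) (nat_lit 14))
    (@En.n l5643 (nat_lit 1656) (nat_lit 2) (nat_lit 8))
    (@En.n l564 (nat_lit 3309) (nat_lit 12) (nat_lit 13))
    (@En.n l13093 (nat_lit 1962) (nat_lit 4) (nat_lit 7))
    (@En.n l1769 (nat_lit 2294) (nat_lit 14) (nat_lit 7))
    (@En.n l5608 (nat_lit 1966) (nat_lit 6) (nat_lit 8))
    (@En.n l11 (nat_lit 1969) (nat_lit 15) (nat_lit 2))))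
  (@Cl.mk (nat_lit 0x2000a0008000b000b000900070006000500050008000e00070002000e0009) (nat_lit 0x162830000050027) (nat_lit 16) Lb.e (@T16.mk En
    (@En.n l6842 (nat_lit 1814) (nat_lit 14) (nat_lit 9))
    (@En.n l27412 (nat_lit 949) (nat_lit 1) (nat_lit 14))
    (@En.n l17 (nat_lit 1970) (nat_lit 2) (nat_lit 2))
    (@En.n l27413 (nat_lit 1973) (nat_lit 3) (nat_lit 7))
    (@En.n l998 (nat_lit 1606) (nat_lit 5) (nat_lit 14))
    (@En.n l27414 (nat_lit 1971) (nat_lit 5) (nat_lit 8))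
    (@En.n l27415 (nat_lit 1971) (nat_lit 6) (nat_lit 5))
    (@En.n l27416 (nat_lit 3144) (nat_lit 7) (nat_lit 5))
    (@En.i (nat_lit 815) (nat_lit 8) (nat_lit 6))
    (@En.n l6842 (nat_lit 852) (nat_lit 6) (nat_lit 7))
    (@En.n l11144 (nat_lit 7815) (nat_lit 11) (nat_lit 9))
    (@En.n l11145 (nat_lit 1972) (nat_lit 5) (nat_lit 11))
    (@En.i (nat_lit 1614) (nat_lit 13) (nat_lit 11))
    (@En.n l27417 (nat_lit 1624) (nat_lit 14) (nat_lit 8))
    (@En.n l27418 (nat_lit 1936) (nat_lit 12) (nat_lit 10))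
    (@En.n l3 (nat_lit 1970) (nat_lit 15) (nat_lit 2))))
  (@Cl.mk (nat_lit 0x200090008000e000b0002000a0008000700050008000e00060002000e0008) (nat_lit 0x1613041006c0026) (nat_lit 16) Lb.e (@T16.mk En
    (@En.n l1347 (nat_lit 1858) (nat_lit 14) (nat_lit 8))
    (@En.n l3229 (nat_lit 948) (nat_lit 1) (nat_lit 14))
    (@En.n l7 (nat_lit 1971) (nat_lit 2) (nat_lit 2))
    (@En.n l4110 (nat_lit 1974) (nat_lit 3) (nat_lit 6))
    (@En.n l16041 (nat_lit 1192) (nat_lit 5) (nat_lit 14))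
    (@En.i (nat_lit 12995) (nat_lit 10) (nat_lit 8))
    (@En.n l8021 (nat_lit 2991) (nat_lit 6) (nat_lit 5))
    (@En.n l16042 (nat_lit 814) (nat_lit 7) (nat_lit 7))
    (@En.n l1347 (nat_lit 853) (nat_lit 14) (nat_lit 8))
    (@En.n l16043 (nat_lit 7817) (nat_lit 10) (nat_lit 10))
    (@En.n l107 (nat_lit 1971) (nat_lit 10) (nat_lit 2))
    (@En.n l16044 (nat_lit 1970) (nat_lit 12) (nat_lit 11))
    (@En.n l16042 (nat_lit 1944) (nat_lit 13) (nat_lit 14))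
    (@En.n l4808 (nat_lit 1627) (nat_lit 14) (nat_lit 8))
    (@En.n l12415 (nat_lit 1938) (nat_lit 12) (nat_lit 9))
    (@En.n l18 (nat_lit 1971) (nat_lit 15) (nat_lit 2))))
  (@Cl.mk (nat_lit 0x20008000e00080002000e000a0002000b0008000b000800060005000e0005) (nat_lit 0x1650280157200a0) (nat_lit 16) Lb.e (@T16.mk En
    (@En.n l4030 (nat_lit 1970) (nat_lit 7) (nat_lit 5))
    (@En.n l396 (nat_lit 4905) (nat_lit 9) (nat_lit 14))
    (@En.n l4001 (nat_lit 818) (nat_lit 2) (nat_lit 5))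
    (@En.i (nat_lit 860) (nat_lit 3) (nat_lit 6))
    (@En.n l916 (nat_lit 7919) (nat_lit 4) (nat_lit 8))
    (@En.i (nat_lit 3944) (nat_lit 13) (nat_lit 11))
    (@En.n l420 (nat_lit 1625) (nat_lit 6) (nat_lit 8))
    (@En.n l287 (nat_lit 1935) (nat_lit 12) (nat_lit 11))
    (@En.n l11 (nat_lit 1972) (nat_lit 8) (nat_lit 2))
    (@En.i (nat_lit 1813) (nat_lit 10) (nat_lit 10))
    (@En.i (nat_lit 1666) (nat_lit 1) (nat_lit 14))
    (@En.n l3 (nat_lit 1972) (nat_lit 11) (nat_lit 2))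
    (@En.i (nat_lit 1975) (nat_lit 13) (nat_lit 8))
    (@En.n l996 (nat_lit 1928) (nat_lit 5) (nat_lit 14))
    (@En.n l13767 (nat_lit 1970) (nat_lit 5) (nat_lit 8))
    (@En.n l18 (nat_lit 1972) (nat_lit 15) (nat_lit 2))))
  (@Cl.mk (nat_lit 0x200090007000a000a000900090008000700060006000900070007000e0008) (nat_lit 0x401804200000002) (nat_lit 16) Lb.e (@T16.mk En
    (@En.n l146 (nat_lit 1660) (nat_lit 2) (nat_lit 8))
    (@En.n l3786 (nat_lit 1987) (nat_lit 1) (nat_lit 14))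
    (@En.n l36631 (nat_lit 1976) (nat_lit 2) (nat_lit 7))
    (@En.i (nat_lit 1520) (nat_lit 3) (nat_lit 7))
    (@En.n l25742 (nat_lit 1974) (nat_lit 4) (nat_lit 9))
    (@En.n l12113 (nat_lit 1974) (nat_lit 5) (nat_lit 6))
    (@En.i (nat_lit 3147) (nat_lit 6) (nat_lit 6))
    (@En.n l6975 (nat_lit 2069) (nat_lit 7) (nat_lit 7))
    (@En.n l36632 (nat_lit 3314) (nat_lit 8) (nat_lit 8))
    (@En.n l36633 (nat_lit 1970) (nat_lit 10) (nat_lit 9))
    (@En.n l36634 (nat_lit 4359) (nat_lit 11) (nat_lit 9))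
    (@En.n l36635 (nat_lit 1975) (nat_lit 6) (nat_lit 10))
    (@En.n l8020 (nat_lit 1615) (nat_lit 8) (nat_lit 10))
    (@En.n l36636 (nat_lit 1694) (nat_lit 14) (nat_lit 7))
    (@En.n l19097 (nat_lit 1939) (nat_lit 13) (nat_lit 9))
    (@En.n l17 (nat_lit 1973) (nat_lit 15) (nat_lit 2))))
  (@Cl.mk (nat_lit 0x200080007000e000a0002000a000a000900080006000900060006000e0007) (nat_lit 0x401200523070000) (nat_lit 16) Lb.e (@T16.mk En
    (@En.n l50 (nat_lit 1557) (nat_lit 5) (nat_lit 7))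
    (@En.n l30921 (nat_lit 1991) (nat_lit 1) (nat_lit 14))
    (@En.n l30922 (nat_lit 1977) (nat_lit 2) (nat_lit 6))
    (@En.i (nat_lit 1760) (nat_lit 3) (nat_lit 6))
    (@En.i (nat_lit 12989) (nat_lit 9) (nat_lit 9))
    (@En.n l7582 (nat_lit 4471) (nat_lit 5) (nat_lit 6))
    (@En.n l1878 (nat_lit 2358) (nat_lit 6) (nat_lit 8))
    (@En.n l18508 (nat_lit 3318) (nat_lit 13) (nat_lit 9))
    (@En.n l2281 (nat_lit 1971) (nat_lit 9) (nat_lit 10))
    (@En.n l10486 (nat_lit 4361) (nat_lit 10) (nat_lit 10))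
    (@En.n l107 (nat_lit 1974) (nat_lit 10) (nat_lit 2))
    (@En.n l22066 (nat_lit 1973) (nat_lit 12) (nat_lit 10))
    (@En.n l13864 (nat_lit 1618) (nat_lit 13) (nat_lit 14))
    (@En.n l6599 (nat_lit 1693) (nat_lit 14) (nat_lit 7))
    (@En.n l18509 (nat_lit 1980) (nat_lit 3) (nat_lit 8))
    (@En.n l18 (nat_lit 1974) (nat_lit 15) (nat_lit 2))))
  (@Cl.mk (nat_lit 0x2000900080008000e00090002000a0007000a0008000800070006000e0006) (nat_lit 0x1401204070300c0) (nat_lit 16) Lb.e (@T16.mk En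
    (@En.n l21523 (nat_lit 1973) (nat_lit 6) (nat_lit 6))
    (@En.n l396 (nat_lit 4782) (nat_lit 8) (nat_lit 14))
    (@En.n l21524 (nat_lit 2070) (nat_lit 2) (nat_lit 6))
    (@En.i (nat_lit 3319) (nat_lit 3) (nat_lit 7))
    (@En.n l152 (nat_lit 1972) (nat_lit 4) (nat_lit 8))
    (@En.n l916 (nat_lit 3221) (nat_lit 5) (nat_lit 8))
    (@En.i (nat_lit 3098) (nat_lit 8) (nat_lit 10))
    (@En.n l420 (nat_lit 1702) (nat_lit 14) (nat_lit 7))
    (@En.n l9825 (nat_lit 1941) (nat_lit 9) (nat_lit 10))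
    (@En.n l11 (nat_lit 1975) (nat_lit 9) (nat_lit 2))
    (@En.n l3279 (nat_lit 1659) (nat_lit 11) (nat_lit 9))
    (@En.n l1572 (nat_lit 1674) (nat_lit 12) (nat_lit 14))
    (@En.n l21525 (nat_lit 1978) (nat_lit 8) (nat_lit 8))
    (@En.n l21526 (nat_lit 1521) (nat_lit 14) (nat_lit 8))
    (@En.n l21527 (nat_lit 1973) (nat_lit 4) (nat_lit 9))
    (@En.n l18 (nat_lit 1975) (nat_lit 15) (nat_lit 2))))
  (@Cl.mk (nat_lit 0x20008000600090009000e000900020009000800070007000a0007000e0007) (nat_lit 0x761074000000) (nat_lit 16) Lb.e (@T16.mk En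
    (@En.n l20594 (nat_lit 1869) (nat_lit 7) (nat_lit 7))
    (@En.i (nat_lit 4829) (nat_lit 1) (nat_lit 14))
    (@En.n l8663 (nat_lit 5914) (nat_lit 2) (nat_lit 7))
    (@En.n l617 (nat_lit 1977) (nat_lit 3) (nat_lit 10))
    (@En.n l2687 (nat_lit 1977) (nat_lit 4) (nat_lit 7))
    (@En.n l20595 (nat_lit 2120) (nat_lit 13) (nat_lit 7))
    (@En.i (nat_lit 1964) (nat_lit 6) (nat_lit 8))
    (@En.n l20596 (nat_lit 3126) (nat_lit 8) (nat_lit 9))
    (@En.n l3 (nat_lit 1976) (nat_lit 8) (nat_lit 2))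
    (@En.n l20597 (nat_lit 1973) (nat_lit 10) (nat_lit 9))
    (@En.n l12740 (nat_lit 5744) (nat_lit 11) (nat_lit 14))
    (@En.n l17929 (nat_lit 1978) (nat_lit 2) (nat_lit 9))
    (@En.n l20596 (nat_lit 2111) (nat_lit 3) (nat_lit 9))
    (@En.n l20598 (nat_lit 1688) (nat_lit 14) (nat_lit 6))
    (@En.n l8672 (nat_lit 2086) (nat_lit 5) (nat_lit 8))
    (@En.n l28 (nat_lit 1976) (nat_lit 15) (nat_lit 2))))
  (@Cl.mk (nat_lit 0x200070006000e00090002000e000a0002000a00090007000a0006000e0006) (nat_lit 0x2100108408000) (nat_lit 16) Lb.e (@T16.mk En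
    (@En.n l26602 (nat_lit 1870) (nat_lit 8) (nat_lit 6))
    (@En.n l26603 (nat_lit 4828) (nat_lit 1) (nat_lit 14))
    (@En.n l4352 (nat_lit 6290) (nat_lit 2) (nat_lit 6))
    (@En.n l7055 (nat_lit 12990) (nat_lit 8) (nat_lit 10))
    (@En.n l18468 (nat_lit 4561) (nat_lit 13) (nat_lit 7))
    (@En.i (nat_lit 5988) (nat_lit 5) (nat_lit 9))
    (@En.n l26604 (nat_lit 3125) (nat_lit 12) (nat_lit 10))
    (@En.n l3 (nat_lit 1977) (nat_lit 7) (nat_lit 2))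
    (@En.n l5537 (nat_lit 1974) (nat_lit 9) (nat_lit 10))
    (@En.n l7055 (nat_lit 5748) (nat_lit 1) (nat_lit 14))
    (@En.n l18 (nat_lit 1977) (nat_lit 10) (nat_lit 2))
    (@En.n l61 (nat_lit 1976) (nat_lit 12) (nat_lit 9))
    (@En.n l4352 (nat_lit 1910) (nat_lit 13) (nat_lit 14))
    (@En.n l26605 (nat_lit 1689) (nat_lit 14) (nat_lit 6))
    (@En.n l26606 (nat_lit 2088) (nat_lit 6) (nat_lit 7))
    (@En.n l28 (nat_lit 1977) (nat_lit 15) (nat_lit 2))))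
  (@Cl.mk (nat_lit 0x200080007000e00070002000a0008000e00080002000900060009000e0008) (nat_lit 0x603001601000601) (nat_lit 16) Lb.e (@T16.mk En
    (@En.n l4957 (nat_lit 1975) (nat_lit 5) (nat_lit 8))
    (@En.n l9183 (nat_lit 5743) (nat_lit 12) (nat_lit 14))
    (@En.n l9184 (nat_lit 3094) (nat_lit 2) (nat_lit 9))
    (@En.n l8874 (nat_lit 1914) (nat_lit 14) (nat_lit 6))
    (@En.n l9185 (nat_lit 2083) (nat_lit 4) (nat_lit 9))
    (@En.n l11 (nat_lit 1978) (nat_lit 5) (nat_lit 2))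
    (@En.n l9186 (nat_lit 1871) (nat_lit 6) (nat_lit 8))
    (@En.n l9187 (nat_lit 4832) (nat_lit 8) (nat_lit 14))
    (@En.n l8929 (nat_lit 5907) (nat_lit 2) (nat_lit 8))
    (@En.n l8930 (nat_lit 1976) (nat_lit 3) (nat_lit 10))
    (@En.n l18 (nat_lit 1978) (nat_lit 10) (nat_lit 2))
    (@En.n l8931 (nat_lit 1976) (nat_lit 5) (nat_lit 7))
    (@En.n l9188 (nat_lit 4777) (nat_lit 7) (nat_lit 14))
    (@En.i (nat_lit 2071) (nat_lit 14) (nat_lit 7))
    (@En.n l9184 (nat_lit 3130) (nat_lit 3) (nat_lit 8))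
    (@En.n l476 (nat_lit 1978) (nat_lit 15) (nat_lit 2))))
  (@Cl.mk (nat_lit 0x20007000a000a000900090007000a000600060009000700070006000e0009) (nat_lit 0x17640800000012) (nat_lit 16) Lb.e (@T16.mk En
    (@En.i (nat_lit 1939) (nat_lit 14) (nat_lit 9))
    (@En.n l26014 (nat_lit 1973) (nat_lit 1) (nat_lit 14))
    (@En.n l11165 (nat_lit 1706) (nat_lit 2) (nat_lit 6))
    (@En.n l20812 (nat_lit 2084) (nat_lit 3) (nat_lit 7))
    (@En.i (nat_lit 1771) (nat_lit 4) (nat_lit 7))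
    (@En.n l4964 (nat_lit 1981) (nat_lit 5) (nat_lit 9))
    (@En.n l4965 (nat_lit 1981) (nat_lit 6) (nat_lit 6))
    (@En.n l26014 (nat_lit 11185) (nat_lit 7) (nat_lit 6))
    (@En.i (nat_lit 12964) (nat_lit 8) (nat_lit 10))
    (@En.n l77 (nat_lit 3306) (nat_lit 10) (nat_lit 7))
    (@En.n l26615 (nat_lit 1934) (nat_lit 7) (nat_lit 9))
    (@En.n l13322 (nat_lit 4362) (nat_lit 12) (nat_lit 9))
    (@En.n l20814 (nat_lit 2082) (nat_lit 13) (nat_lit 10))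
    (@En.n l1787 (nat_lit 1903) (nat_lit 8) (nat_lit 10))
    (@En.i (nat_lit 5245) (nat_lit 13) (nat_lit 7))
    (@En.n l17 (nat_lit 1979) (nat_lit 15) (nat_lit 2))))
  (@Cl.mk (nat_lit 0x20009000900080008000b0007000a000700070005000800080006000e0009) (nat_lit 0x50000800013062) (nat_lit 16) Lb.e (@T16.mk En
    (@En.n l3635 (nat_lit 1939) (nat_lit 11) (nat_lit 9))
    (@En.n l27987 (nat_lit 1869) (nat_lit 1) (nat_lit 14))
    (@En.n l27988 (nat_lit 5261) (nat_lit 2) (nat_lit 6))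
    (@En.n l27989 (nat_lit 3176) (nat_lit 3) (nat_lit 8))
    (@En.n l1776 (nat_lit 1907) (nat_lit 4) (nat_lit 8))
    (@En.n l5103 (nat_lit 1711) (nat_lit 5) (nat_lit 5))
    (@En.n l3553 (nat_lit 2088) (nat_lit 9) (nat_lit 7))
    (@En.n l11790 (nat_lit 1461) (nat_lit 7) (nat_lit 7))
    (@En.n l11790 (nat_lit 12999) (nat_lit 8) (nat_lit 10))
    (@En.n l14070 (nat_lit 9859) (nat_lit 10) (nat_lit 7))
    (@En.n l27990 (nat_lit 1981) (nat_lit 7) (nat_lit 11))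
    (@En.n l27991 (nat_lit 1981) (nat_lit 8) (nat_lit 8))
    (@En.n l2711 (nat_lit 3307) (nat_lit 13) (nat_lit 8))
    (@En.n l152 (nat_lit 1938) (nat_lit 7) (nat_lit 9))
    (@En.n l27992 (nat_lit 1997) (nat_lit 4) (nat_lit 9))
    (@En.n l50 (nat_lit 1980) (nat_lit 15) (nat_lit 2))))
  (@Cl.mk (nat_lit 0x20007000e000a0002000a000a0008000b00060009000600060005000e0008) (nat_lit 0xb2075690700012) (nat_lit 16) Lb.e (@T16.mk En
    (@En.n l18514 (nat_lit 1980) (nat_lit 4) (nat_lit 8))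
    (@En.n l18515 (nat_lit 1974) (nat_lit 1) (nat_lit 14))
    (@En.n l5398 (nat_lit 1713) (nat_lit 2) (nat_lit 5))
    (@En.n l575 (nat_lit 1983) (nat_lit 3) (nat_lit 6))
    (@En.n l18516 (nat_lit 1465) (nat_lit 8) (nat_lit 6))
    (@En.n l18517 (nat_lit 12998) (nat_lit 9) (nat_lit 9))
    (@En.n l1013 (nat_lit 11187) (nat_lit 6) (nat_lit 6))
    (@En.i (nat_lit 12966) (nat_lit 7) (nat_lit 11))
    (@En.n l18516 (nat_lit 3348) (nat_lit 13) (nat_lit 8))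
    (@En.n l18518 (nat_lit 1982) (nat_lit 6) (nat_lit 10))
    (@En.n l18517 (nat_lit 4363) (nat_lit 11) (nat_lit 10))
    (@En.n l3 (nat_lit 1981) (nat_lit 11) (nat_lit 2))
    (@En.n l5403 (nat_lit 1979) (nat_lit 13) (nat_lit 10))
    (@En.n l4956 (nat_lit 1870) (nat_lit 1) (nat_lit 14))
    (@En.n l2568 (nat_lit 5262) (nat_lit 2) (nat_lit 7))
    (@En.n l17 (nat_lit 1981) (nat_lit 15) (nat_lit 2))))
  (@Cl.mk (nat_lit 0x20006000e000900020008000e000b0002000a0007000a00050008000e0006) (nat_lit 0x370682040805b0) (nat_lit 16) Lb.e (@T16.mk En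
    (@En.n l17901 (nat_lit 1981) (nat_lit 4) (nat_lit 6))
    (@En.n l3635 (nat_lit 1190) (nat_lit 6) (nat_lit 14))
    (@En.i (nat_lit 12996) (nat_lit 10) (nat_lit 8))
    (@En.n l7205 (nat_lit 11184) (nat_lit 7) (nat_lit 5))
    (@En.n l3635 (nat_lit 13128) (nat_lit 8) (nat_lit 10))
    (@En.i (nat_lit 7588) (nat_lit 5) (nat_lit 7))
    (@En.n l17902 (nat_lit 4651) (nat_lit 11) (nat_lit 10))
    (@En.n l50 (nat_lit 1982) (nat_lit 7) (nat_lit 2))
    (@En.n l17903 (nat_lit 1934) (nat_lit 9) (nat_lit 11))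
    (@En.n l7205 (nat_lit 1957) (nat_lit 10) (nat_lit 14))
    (@En.n l287 (nat_lit 5267) (nat_lit 11) (nat_lit 8))
    (@En.n l11 (nat_lit 1982) (nat_lit 11) (nat_lit 2))
    (@En.i (nat_lit 1938) (nat_lit 13) (nat_lit 9))
    (@En.n l10474 (nat_lit 1971) (nat_lit 1) (nat_lit 14))
    (@En.n l2436 (nat_lit 1495) (nat_lit 2) (nat_lit 6))
    (@En.n l3 (nat_lit 1982) (nat_lit 15) (nat_lit 2))))
  (@Cl.mk (nat_lit 0x20006000e00090002000e000a00020009000c0007000a00060004000e0007) (nat_lit 0xa2038000000010) (nat_lit 16) Lb.e (@T16.mk En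
    (@En.n l900 (nat_lit 2088) (nat_lit 7) (nat_lit 7))
    (@En.n l28711 (nat_lit 1977) (nat_lit 1) (nat_lit 14))
    (@En.i (nat_lit 4925) (nat_lit 2) (nat_lit 4))
    (@En.i (nat_lit 6616) (nat_lit 3) (nat_lit 6))
    (@En.n l2680 (nat_lit 13001) (nat_lit 8) (nat_lit 10))
    (@En.n l1013 (nat_lit 11189) (nat_lit 5) (nat_lit 7))
    (@En.i (nat_lit 14067) (nat_lit 6) (nat_lit 12))
    (@En.n l5448 (nat_lit 6554) (nat_lit 12) (nat_lit 9))
    (@En.n l11 (nat_lit 1983) (nat_lit 8) (nat_lit 2))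
    (@En.i (nat_lit 1981) (nat_lit 10) (nat_lit 10))
    (@En.n l2680 (nat_lit 6942) (nat_lit 1) (nat_lit 14))
    (@En.n l3 (nat_lit 1983) (nat_lit 11) (nat_lit 2))
    (@En.n l8874 (nat_lit 2084) (nat_lit 13) (nat_lit 9))
    (@En.n l4889 (nat_lit 1913) (nat_lit 5) (nat_lit 14))
    (@En.n l2568 (nat_lit 5215) (nat_lit 5) (nat_lit 6))
    (@En.n l17 (nat_lit 1983) (nat_lit 15) (nat_lit 2))))
noncomputable def a124 : T16 Cl := @T16.mk Cl
  (@Cl.mk (nat_lit 0x2000a000900080008000b00090006000900070005000800080007000e0007) (nat_lit 0x560930600460b0) (nat_lit 16) Lb.e (@T16.mk En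
    (@En.n l26495 (nat_lit 1988) (nat_lit 7) (nat_lit 7))
    (@En.n l26496 (nat_lit 4831) (nat_lit 1) (nat_lit 14))
    (@En.n l15595 (nat_lit 3343) (nat_lit 2) (nat_lit 7))
    (@En.n l5783 (nat_lit 1674) (nat_lit 3) (nat_lit 8))
    (@En.n l14066 (nat_lit 1975) (nat_lit 4) (nat_lit 8))
    (@En.n l9254 (nat_lit 1499) (nat_lit 5) (nat_lit 5))
    (@En.n l9315 (nat_lit 1278) (nat_lit 6) (nat_lit 7))
    (@En.i (nat_lit 2362) (nat_lit 9) (nat_lit 9))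
    (@En.n l4984 (nat_lit 1670) (nat_lit 8) (nat_lit 6))
    (@En.n l26497 (nat_lit 1590) (nat_lit 10) (nat_lit 9))
    (@En.n l936 (nat_lit 1989) (nat_lit 7) (nat_lit 11))
    (@En.n l55 (nat_lit 1989) (nat_lit 8) (nat_lit 8))
    (@En.n l4984 (nat_lit 2847) (nat_lit 13) (nat_lit 8))
    (@En.n l26498 (nat_lit 1516) (nat_lit 14) (nat_lit 9))
    (@En.n l26499 (nat_lit 1988) (nat_lit 5) (nat_lit 10))
    (@En.n l18 (nat_lit 1984) (nat_lit 15) (nat_lit 2))))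
  (@Cl.mk (nat_lit 0x2000900080008000b00090007000a000700050008000800070006000e0009) (nat_lit 0x500040000160026) (nat_lit 16) Lb.e (@T16.mk En
    (@En.n l26495 (nat_lit 1988) (nat_lit 10) (nat_lit 9))
    (@En.n l5607 (nat_lit 1657) (nat_lit 1) (nat_lit 14))
    (@En.n l38042 (nat_lit 1497) (nat_lit 2) (nat_lit 6))
    (@En.n l38043 (nat_lit 5079) (nat_lit 3) (nat_lit 7))
    (@En.n l217 (nat_lit 1989) (nat_lit 4) (nat_lit 8))
    (@En.i (nat_lit 1860) (nat_lit 5) (nat_lit 8))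
    (@En.n l38044 (nat_lit 1766) (nat_lit 6) (nat_lit 5))
    (@En.n l38045 (nat_lit 494) (nat_lit 7) (nat_lit 7))
    (@En.n l38046 (nat_lit 12915) (nat_lit 8) (nat_lit 10))
    (@En.n l19724 (nat_lit 2880) (nat_lit 10) (nat_lit 7))
    (@En.n l26498 (nat_lit 1199) (nat_lit 11) (nat_lit 9))
    (@En.n l38047 (nat_lit 1990) (nat_lit 7) (nat_lit 11))
    (@En.n l38048 (nat_lit 1990) (nat_lit 8) (nat_lit 8))
    (@En.n l38042 (nat_lit 1996) (nat_lit 14) (nat_lit 8))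
    (@En.n l38049 (nat_lit 3183) (nat_lit 4) (nat_lit 9))
    (@En.n l28 (nat_lit 1985) (nat_lit 15) (nat_lit 2))))
  (@Cl.mk (nat_lit 0x200090007000a000a00090007000a000700060006000900070006000e0009) (nat_lit 0x406040700000052) (nat_lit 16) Lb.e (@T16.mk En
    (@En.n l28702 (nat_lit 1988) (nat_lit 14) (nat_lit 9))
    (@En.n l20391 (nat_lit 1904) (nat_lit 1) (nat_lit 14))
    (@En.n l20444 (nat_lit 1767) (nat_lit 2) (nat_lit 6))
    (@En.n l12579 (nat_lit 1591) (nat_lit 3) (nat_lit 7))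
    (@En.n l28703 (nat_lit 1990) (nat_lit 4) (nat_lit 9))
    (@En.n l12591 (nat_lit 1990) (nat_lit 5) (nat_lit 6))
    (@En.n l28704 (nat_lit 2884) (nat_lit 6) (nat_lit 6))
    (@En.n l728 (nat_lit 1198) (nat_lit 7) (nat_lit 7))
    (@En.n l2159 (nat_lit 13546) (nat_lit 8) (nat_lit 10))
    (@En.n l28705 (nat_lit 3122) (nat_lit 10) (nat_lit 7))
    (@En.n l28706 (nat_lit 3344) (nat_lit 11) (nat_lit 9))
    (@En.n l28707 (nat_lit 1991) (nat_lit 6) (nat_lit 10))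
    (@En.n l14522 (nat_lit 1974) (nat_lit 8) (nat_lit 10))
    (@En.n l14545 (nat_lit 428) (nat_lit 14) (nat_lit 7))
    (@En.n l2159 (nat_lit 5081) (nat_lit 4) (nat_lit 9))
    (@En.n l50 (nat_lit 1986) (nat_lit 15) (nat_lit 2))))
  (@Cl.mk (nat_lit 0x2000a00090007000a000a00090006000900070006000600090007000e0007) (nat_lit 0x2401130600070c0) (nat_lit 16) Lb.e (@T16.mk En
    (@En.n l7 (nat_lit 1988) (nat_lit 3) (nat_lit 7))
    (@En.n l12907 (nat_lit 4833) (nat_lit 1) (nat_lit 14))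
    (@En.n l476 (nat_lit 1509) (nat_lit 2) (nat_lit 7))
    (@En.n l1157 (nat_lit 1991) (nat_lit 3) (nat_lit 9))
    (@En.n l575 (nat_lit 1991) (nat_lit 4) (nat_lit 6))
    (@En.i (nat_lit 3188) (nat_lit 5) (nat_lit 6))
    (@En.n l5408 (nat_lit 3352) (nat_lit 6) (nat_lit 7))
    (@En.i (nat_lit 3317) (nat_lit 9) (nat_lit 9))
    (@En.n l12908 (nat_lit 429) (nat_lit 8) (nat_lit 6))
    (@En.n l12909 (nat_lit 5089) (nat_lit 10) (nat_lit 9))
    (@En.n l12910 (nat_lit 1674) (nat_lit 6) (nat_lit 10))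
    (@En.n l12911 (nat_lit 1865) (nat_lit 8) (nat_lit 10))
    (@En.n l7158 (nat_lit 1669) (nat_lit 13) (nat_lit 7))
    (@En.n l7809 (nat_lit 1588) (nat_lit 14) (nat_lit 9))
    (@En.n l4600 (nat_lit 1988) (nat_lit 1) (nat_lit 10))
    (@En.n l18 (nat_lit 1987) (nat_lit 15) (nat_lit 2))))
  (@Cl.mk (nat_lit 0x6000900090008000600090009000800070007000a000800070007000a0008) (nat_lit 0x173057400840013) (nat_lit 16) Lb.e (@T16.mk En
    (@En.n l26731 (nat_lit 1420) (nat_lit 8) (nat_lit 8))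
    (@En.n l26732 (nat_lit 1985) (nat_lit 8) (nat_lit 10))
    (@En.n l26733 (nat_lit 1985) (nat_lit 9) (nat_lit 7))
    (@En.n l13029 (nat_lit 2848) (nat_lit 9) (nat_lit 7))
    (@En.n l26734 (nat_lit 1508) (nat_lit 8) (nat_lit 8))
    (@En.n l26735 (nat_lit 1986) (nat_lit 8) (nat_lit 10))
    (@En.n l13031 (nat_lit 1986) (nat_lit 9) (nat_lit 7))
    (@En.i (nat_lit 1994) (nat_lit 9) (nat_lit 7))
    (@En.n l26736 (nat_lit 3342) (nat_lit 8) (nat_lit 8))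
    (@En.n l2337 (nat_lit 1987) (nat_lit 7) (nat_lit 9))
    (@En.i (nat_lit 1973) (nat_lit 9) (nat_lit 9))
    (@En.n l26737 (nat_lit 1494) (nat_lit 10) (nat_lit 6))
    (@En.n l26738 (nat_lit 5078) (nat_lit 8) (nat_lit 8))
    (@En.n l26739 (nat_lit 1984) (nat_lit 7) (nat_lit 9))
    (@En.n l8020 (nat_lit 1862) (nat_lit 9) (nat_lit 9))
    (@En.n l26740 (nat_lit 1672) (nat_lit 10) (nat_lit 6))))
  (@Cl.mk (nat_lit 0x20008000e00080002000b000a0008000b00080005000800060005000e0008) (nat_lit 0x5b1015682050025) (nat_lit 16) Lb.e (@T16.mk En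
    (@En.i (nat_lit 1984) (nat_lit 4) (nat_lit 8))
    (@En.n l26653 (nat_lit 1655) (nat_lit 1) (nat_lit 14))
    (@En.n l152 (nat_lit 1496) (nat_lit 2) (nat_lit 5))
    (@En.n l9315 (nat_lit 1277) (nat_lit 3) (nat_lit 6))
    (@En.i (nat_lit 2364) (nat_lit 4) (nat_lit 8))
    (@En.n l420 (nat_lit 1675) (nat_lit 9) (nat_lit 5))
    (@En.n l9315 (nat_lit 496) (nat_lit 6) (nat_lit 8))
    (@En.n l26654 (nat_lit 12916) (nat_lit 7) (nat_lit 11))
    (@En.n l8396 (nat_lit 2851) (nat_lit 13) (nat_lit 8))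
    (@En.n l26498 (nat_lit 1401) (nat_lit 10) (nat_lit 10))
    (@En.n l1738 (nat_lit 1985) (nat_lit 11) (nat_lit 11))
    (@En.n l18 (nat_lit 1989) (nat_lit 11) (nat_lit 2))
    (@En.i (nat_lit 1985) (nat_lit 13) (nat_lit 8))
    (@En.n l396 (nat_lit 4830) (nat_lit 1) (nat_lit 14))
    (@En.n l19853 (nat_lit 3300) (nat_lit 2) (nat_lit 8))
    (@En.n l28 (nat_lit 1989) (nat_lit 15) (nat_lit 2))))
  (@Cl.mk (nat_lit 0x200080007000e000a0002000a0008000b00080006000900060005000e0008) (nat_lit 0x402705693070042) (nat_lit 16) Lb.e (@T16.mk En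
    (@En.n l22571 (nat_lit 1985) (nat_lit 5) (nat_lit 8))
    (@En.n l1708 (nat_lit 1903) (nat_lit 1) (nat_lit 14))
    (@En.n l237 (nat_lit 1768) (nat_lit 2) (nat_lit 5))
    (@En.n l1442 (nat_lit 498) (nat_lit 3) (nat_lit 6))
    (@En.i (nat_lit 13196) (nat_lit 9) (nat_lit 9))
    (@En.n l21376 (nat_lit 2881) (nat_lit 5) (nat_lit 6))
    (@En.n l414 (nat_lit 1196) (nat_lit 6) (nat_lit 8))
    (@En.i (nat_lit 13548) (nat_lit 7) (nat_lit 11))
    (@En.n l4603 (nat_lit 3121) (nat_lit 14) (nat_lit 8))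
    (@En.n l4586 (nat_lit 3345) (nat_lit 10) (nat_lit 10))
    (@En.n l107 (nat_lit 1990) (nat_lit 10) (nat_lit 2))
    (@En.n l9779 (nat_lit 1986) (nat_lit 12) (nat_lit 10))
    (@En.n l1801 (nat_lit 1992) (nat_lit 13) (nat_lit 14))
    (@En.n l4586 (nat_lit 1495) (nat_lit 14) (nat_lit 7))
    (@En.i (nat_lit 5080) (nat_lit 3) (nat_lit 8))
    (@En.n l17 (nat_lit 1990) (nat_lit 15) (nat_lit 2))))
  (@Cl.mk (nat_lit 0x2000900080007000e000a0002000a0007000a0008000600090006000e0006) (nat_lit 0x1406204083060c0) (nat_lit 16) Lb.e (@T16.mk En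
    (@En.n l25690 (nat_lit 1986) (nat_lit 6) (nat_lit 6))
    (@En.n l12397 (nat_lit 4834) (nat_lit 8) (nat_lit 14))
    (@En.n l25691 (nat_lit 1510) (nat_lit 2) (nat_lit 6))
    (@En.n l25692 (nat_lit 13552) (nat_lit 9) (nat_lit 9))
    (@En.i (nat_lit 3129) (nat_lit 4) (nat_lit 6))
    (@En.n l551 (nat_lit 3351) (nat_lit 5) (nat_lit 8))
    (@En.i (nat_lit 3315) (nat_lit 8) (nat_lit 10))
    (@En.n l11975 (nat_lit 425) (nat_lit 14) (nat_lit 7))
    (@En.n l25693 (nat_lit 5086) (nat_lit 9) (nat_lit 10))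
    (@En.n l11 (nat_lit 1991) (nat_lit 9) (nat_lit 2))
    (@En.i (nat_lit 1987) (nat_lit 11) (nat_lit 10))
    (@En.n l1144 (nat_lit 1909) (nat_lit 12) (nat_lit 14))
    (@En.n l7158 (nat_lit 2012) (nat_lit 2) (nat_lit 7))
    (@En.n l25694 (nat_lit 1714) (nat_lit 14) (nat_lit 8))
    (@En.n l25695 (nat_lit 1986) (nat_lit 4) (nat_lit 9))
    (@En.n l18 (nat_lit 1991) (nat_lit 15) (nat_lit 2))))
  (@Cl.mk (nat_lit 0x20008000e00090002000a000a0008000b00080007000600060005000e0008) (nat_lit 0x16015682000012) (nat_lit 16) Lb.e (@T16.mk En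
    (@En.n l11639 (nat_lit 1657) (nat_lit 4) (nat_lit 8))
    (@En.n l11642 (nat_lit 1615) (nat_lit 1) (nat_lit 14))
    (@En.n l1465 (nat_lit 1765) (nat_lit 2) (nat_lit 5))
    (@En.n l12667 (nat_lit 2098) (nat_lit 3) (nat_lit 6))
    (@En.n l15714 (nat_lit 2365) (nat_lit 4) (nat_lit 6))
    (@En.i (nat_lit 2400) (nat_lit 5) (nat_lit 7))
    (@En.i (nat_lit 1189) (nat_lit 6) (nat_lit 8))
    (@En.n l15714 (nat_lit 13462) (nat_lit 7) (nat_lit 11))
    (@En.n l15715 (nat_lit 4355) (nat_lit 13) (nat_lit 8))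
    (@En.n l61 (nat_lit 2124) (nat_lit 6) (nat_lit 10))
    (@En.n l6369 (nat_lit 1986) (nat_lit 11) (nat_lit 10))
    (@En.n l7 (nat_lit 1992) (nat_lit 11) (nat_lit 2))
    (@En.i (nat_lit 1557) (nat_lit 13) (nat_lit 9))
    (@En.n l15716 (nat_lit 1775) (nat_lit 1) (nat_lit 14))
    (@En.n l15714 (nat_lit 3145) (nat_lit 2) (nat_lit 8))
    (@En.n l107 (nat_lit 1992) (nat_lit 15) (nat_lit 2))))
  (@Cl.mk (nat_lit 0x3000a00090007000a000a0008000600090007000600060009000d00080007) (nat_lit 0x710005060000040) (nat_lit 16) Lb.e (@T16.mk En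
    (@En.n l18609 (nat_lit 2000) (nat_lit 0) (nat_lit 7))
    (@En.n l4112 (nat_lit 1988) (nat_lit 0) (nat_lit 8))
    (@En.n l18965 (nat_lit 9049) (nat_lit 6) (nat_lit 13))
    (@En.n l34722 (nat_lit 1995) (nat_lit 9) (nat_lit 9))
    (@En.n l34723 (nat_lit 1995) (nat_lit 10) (nat_lit 6))
    (@En.n l18965 (nat_lit 2828) (nat_lit 5) (nat_lit 6))
    (@En.n l34724 (nat_lit 7751) (nat_lit 6) (nat_lit 7))
    (@En.n l34725 (nat_lit 3195) (nat_lit 9) (nat_lit 9))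
    (@En.n l34726 (nat_lit 3124) (nat_lit 8) (nat_lit 6))
    (@En.n l9890 (nat_lit 9423) (nat_lit 8) (nat_lit 8))
    (@En.n l8234 (nat_lit 3189) (nat_lit 6) (nat_lit 10))
    (@En.i (nat_lit 4468) (nat_lit 8) (nat_lit 10))
    (@En.n l34727 (nat_lit 1299) (nat_lit 13) (nat_lit 7))
    (@En.n l34557 (nat_lit 1734) (nat_lit 7) (nat_lit 9))
    (@En.n l4086 (nat_lit 1997) (nat_lit 12) (nat_lit 10))
    (@En.n l137 (nat_lit 1994) (nat_lit 15) (nat_lit 3))))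
  (@Cl.mk (nat_lit 0x3000a00090007000a000a00070006000a0007000600060009000d00060009) (nat_lit 0x710000000000005) (nat_lit 16) Lb.e (@T16.mk En
    (@En.n l8303 (nat_lit 1859) (nat_lit 9) (nat_lit 9))
    (@En.i (nat_lit 1997) (nat_lit 15) (nat_lit 6))
    (@En.n l7099 (nat_lit 9050) (nat_lit 6) (nat_lit 13))
    (@En.n l27116 (nat_lit 1996) (nat_lit 9) (nat_lit 9))
    (@En.n l27117 (nat_lit 1996) (nat_lit 10) (nat_lit 6))
    (@En.n l7099 (nat_lit 3409) (nat_lit 5) (nat_lit 6))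
    (@En.n l476 (nat_lit 7749) (nat_lit 6) (nat_lit 7))
    (@En.n l23354 (nat_lit 3122) (nat_lit 9) (nat_lit 10))
    (@En.i (nat_lit 3119) (nat_lit 8) (nat_lit 6))
    (@En.n l26736 (nat_lit 8801) (nat_lit 10) (nat_lit 7))
    (@En.n l2337 (nat_lit 3188) (nat_lit 6) (nat_lit 10))
    (@En.i (nat_lit 3147) (nat_lit 8) (nat_lit 10))
    (@En.n l27118 (nat_lit 1301) (nat_lit 13) (nat_lit 7))
    (@En.n l143 (nat_lit 1738) (nat_lit 7) (nat_lit 9))
    (@En.n l11 (nat_lit 4835) (nat_lit 12) (nat_lit 10))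
    (@En.n l146 (nat_lit 1993) (nat_lit 15) (nat_lit 3))))
  (@Cl.mk (nat_lit 0x200090007000a000800060009000d000700060003000900080007000e000a) (nat_lit 0x6053070000610a1) (nat_lit 16) Lb.e (@T16.mk En
    (@En.n l32835 (nat_lit 1993) (nat_lit 11) (nat_lit 10))
    (@En.n l32836 (nat_lit 4360) (nat_lit 1) (nat_lit 14))
    (@En.n l14635 (nat_lit 1303) (nat_lit 2) (nat_lit 7))
    (@En.n l32837 (nat_lit 1735) (nat_lit 3) (nat_lit 8))
    (@En.n l28800 (nat_lit 4363) (nat_lit 4) (nat_lit 9))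
    (@En.n l32838 (nat_lit 1996) (nat_lit 5) (nat_lit 3))
    (@En.n l18 (nat_lit 2002) (nat_lit 0) (nat_lit 6))
    (@En.n l15271 (nat_lit 1985) (nat_lit 7) (nat_lit 7))
    (@En.i (nat_lit 10104) (nat_lit 9) (nat_lit 13))
    (@En.n l15223 (nat_lit 13217) (nat_lit 9) (nat_lit 9))
    (@En.n l1075 (nat_lit 4308) (nat_lit 4) (nat_lit 6))
    (@En.n l20489 (nat_lit 7752) (nat_lit 12) (nat_lit 8))
    (@En.n l1075 (nat_lit 3208) (nat_lit 8) (nat_lit 10))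
    (@En.n l14635 (nat_lit 3123) (nat_lit 14) (nat_lit 7))
    (@En.n l32839 (nat_lit 8409) (nat_lit 9) (nat_lit 9))
    (@En.n l28 (nat_lit 1995) (nat_lit 15) (nat_lit 2))))
  (@Cl.mk (nat_lit 0x200080007000b000800060009000d000500080003000900080007000e000a) (nat_lit 0x600307004060001) (nat_lit 16) Lb.e (@T16.mk En
    (@En.n l30485 (nat_lit 1994) (nat_lit 11) (nat_lit 10))
    (@En.n l30486 (nat_lit 3156) (nat_lit 1) (nat_lit 14))
    (@En.i (nat_lit 1305) (nat_lit 2) (nat_lit 7))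
    (@En.n l30487 (nat_lit 4930) (nat_lit 3) (nat_lit 8))
    (@En.n l30488 (nat_lit 4836) (nat_lit 4) (nat_lit 9))
    (@En.n l30489 (nat_lit 1995) (nat_lit 5) (nat_lit 3))
    (@En.n l30487 (nat_lit 1861) (nat_lit 0) (nat_lit 8))
    (@En.n l30490 (nat_lit 4363) (nat_lit 7) (nat_lit 5))
    (@En.n l9833 (nat_lit 7821) (nat_lit 9) (nat_lit 13))
    (@En.n l25714 (nat_lit 13223) (nat_lit 9) (nat_lit 9))
    (@En.n l3098 (nat_lit 4248) (nat_lit 4) (nat_lit 6))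
    (@En.n l889 (nat_lit 7750) (nat_lit 12) (nat_lit 8))
    (@En.n l30491 (nat_lit 3121) (nat_lit 13) (nat_lit 11))
    (@En.i (nat_lit 3120) (nat_lit 14) (nat_lit 7))
    (@En.n l30492 (nat_lit 9474) (nat_lit 9) (nat_lit 8))
    (@En.n l50 (nat_lit 1996) (nat_lit 15) (nat_lit 2))))
  (@Cl.mk (nat_lit 0x600090007000a000800060009000900070006000a0009000800070007000a) (nat_lit 0x406000000074000) (nat_lit 16) Lb.e (@T16.mk En
    (@En.n l40488 (nat_lit 4363) (nat_lit 8) (nat_lit 10))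
    (@En.n l40489 (nat_lit 4363) (nat_lit 9) (nat_lit 7))
    (@En.n l40490 (nat_lit 2834) (nat_lit 9) (nat_lit 7))
    (@En.n l7098 (nat_lit 4654) (nat_lit 8) (nat_lit 8))
    (@En.n l681 (nat_lit 1993) (nat_lit 7) (nat_lit 9))
    (@En.n l31062 (nat_lit 3131) (nat_lit 9) (nat_lit 10))
    (@En.i (nat_lit 3126) (nat_lit 10) (nat_lit 6))
    (@En.n l40491 (nat_lit 9425) (nat_lit 9) (nat_lit 7))
    (@En.n l2337 (nat_lit 3190) (nat_lit 7) (nat_lit 9))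
    (@En.i (nat_lit 4467) (nat_lit 9) (nat_lit 9))
    (@En.n l27118 (nat_lit 1300) (nat_lit 10) (nat_lit 6))
    (@En.n l40492 (nat_lit 6514) (nat_lit 8) (nat_lit 8))
    (@En.n l40493 (nat_lit 5221) (nat_lit 8) (nat_lit 10))
    (@En.n l40494 (nat_lit 1462) (nat_lit 9) (nat_lit 7))
    (@En.n l40495 (nat_lit 1984) (nat_lit 9) (nat_lit 9))
    (@En.n l40493 (nat_lit 11277) (nat_lit 15) (nat_lit 6))))
  (@Cl.mk (nat_lit 0x200090008000600090009000d000800070003000800070007000a000e0008) (nat_lit 0x300237600400151) (nat_lit 16) Lb.e (@T16.mk En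
    (@En.n l25886 (nat_lit 1421) (nat_lit 10) (nat_lit 8))
    (@En.n l6168 (nat_lit 7947) (nat_lit 1) (nat_lit 14))
    (@En.n l29927 (nat_lit 1773) (nat_lit 2) (nat_lit 10))
    (@En.n l29928 (nat_lit 1773) (nat_lit 3) (nat_lit 7))
    (@En.n l6168 (nat_lit 2291) (nat_lit 4) (nat_lit 7))
    (@En.n l29929 (nat_lit 1559) (nat_lit 5) (nat_lit 8))
    (@En.n l29930 (nat_lit 2000) (nat_lit 6) (nat_lit 3))
    (@En.i (nat_lit 2009) (nat_lit 0) (nat_lit 7))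
    (@En.n l29931 (nat_lit 1993) (nat_lit 9) (nat_lit 8))
    (@En.i (nat_lit 1544) (nat_lit 10) (nat_lit 13))
    (@En.n l5861 (nat_lit 1999) (nat_lit 11) (nat_lit 9))
    (@En.n l29932 (nat_lit 1695) (nat_lit 12) (nat_lit 9))
    (@En.i (nat_lit 1288) (nat_lit 13) (nat_lit 6))
    (@En.n l29932 (nat_lit 6698) (nat_lit 14) (nat_lit 8))
    (@En.n l29933 (nat_lit 1672) (nat_lit 8) (nat_lit 9))
    (@En.n l7 (nat_lit 1998) (nat_lit 15) (nat_lit 2))))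
  (@Cl.mk (nat_lit 0x2000a000900060009000d0007000600030007000e00070002000a000e0009) (nat_lit 0x300260000c00261) (nat_lit 16) Lb.e (@T16.mk En
    (@En.n l68 (nat_lit 1673) (nat_lit 13) (nat_lit 9))
    (@En.n l638 (nat_lit 9928) (nat_lit 1) (nat_lit 14))
    (@En.n l4555 (nat_lit 1998) (nat_lit 2) (nat_lit 10))
    (@En.n l18 (nat_lit 1999) (nat_lit 3) (nat_lit 2))
    (@En.n l4551 (nat_lit 1998) (nat_lit 4) (nat_lit 7))
    (@En.n l25784 (nat_lit 4968) (nat_lit 6) (nat_lit 14))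
    (@En.n l25785 (nat_lit 1844) (nat_lit 6) (nat_lit 7))
    (@En.n l638 (nat_lit 2001) (nat_lit 3) (nat_lit 3))
    (@En.n l25784 (nat_lit 2008) (nat_lit 0) (nat_lit 6))
    (@En.n l1236 (nat_lit 3189) (nat_lit 5) (nat_lit 7))
    (@En.n l638 (nat_lit 1201) (nat_lit 7) (nat_lit 13))
    (@En.n l14219 (nat_lit 1106) (nat_lit 12) (nat_lit 9))
    (@En.n l4548 (nat_lit 1286) (nat_lit 8) (nat_lit 6))
    (@En.n l77 (nat_lit 6697) (nat_lit 14) (nat_lit 9))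
    (@En.n l25786 (nat_lit 1669) (nat_lit 11) (nat_lit 10))
    (@En.n l67 (nat_lit 1999) (nat_lit 15) (nat_lit 2))))
noncomputable def a125 : T16 Cl := @T16.mk Cl
  (@Cl.mk (nat_lit 0x2000a0008000600090009000d000600090003000800070007000a000e0007) (nat_lit 0x200236060400470) (nat_lit 16) Lb.e (@T16.mk En
    (@En.i (nat_lit 1462) (nat_lit 10) (nat_lit 7))
    (@En.i (nat_lit 9931) (nat_lit 1) (nat_lit 14))
    (@En.n l3327 (nat_lit 2002) (nat_lit 2) (nat_lit 10))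
    (@En.n l2575 (nat_lit 2002) (nat_lit 3) (nat_lit 7))
    (@En.i (nat_lit 2581) (nat_lit 4) (nat_lit 7))
    (@En.i (nat_lit 1512) (nat_lit 5) (nat_lit 8))
    (@En.n l40294 (nat_lit 1998) (nat_lit 6) (nat_lit 3))
    (@En.i (nat_lit 2004) (nat_lit 0) (nat_lit 9))
    (@En.n l40295 (nat_lit 1941) (nat_lit 8) (nat_lit 6))
    (@En.n l3859 (nat_lit 1178) (nat_lit 10) (nat_lit 13))
    (@En.n l12560 (nat_lit 2001) (nat_lit 7) (nat_lit 9))
    (@En.n l40296 (nat_lit 1696) (nat_lit 12) (nat_lit 9))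
    (@En.n l40297 (nat_lit 1290) (nat_lit 13) (nat_lit 6))
    (@En.n l3326 (nat_lit 6700) (nat_lit 14) (nat_lit 8))
    (@En.n l2678 (nat_lit 1462) (nat_lit 8) (nat_lit 10))
    (@En.n l11 (nat_lit 2000) (nat_lit 15) (nat_lit 2))))
  (@Cl.mk (nat_lit 0x2000a000e00080002000b000900060009000d0005000800030007000e0007) (nat_lit 0x5810200270500c0) (nat_lit 16) Lb.e (@T16.mk En
    (@En.n l8268 (nat_lit 2000) (nat_lit 4) (nat_lit 7))
    (@En.n l13762 (nat_lit 4969) (nat_lit 1) (nat_lit 14))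
    (@En.n l26803 (nat_lit 1515) (nat_lit 2) (nat_lit 7))
    (@En.n l4415 (nat_lit 1999) (nat_lit 7) (nat_lit 3))
    (@En.n l7843 (nat_lit 2006) (nat_lit 0) (nat_lit 8))
    (@En.n l9902 (nat_lit 3174) (nat_lit 5) (nat_lit 5))
    (@En.i (nat_lit 1200) (nat_lit 7) (nat_lit 13))
    (@En.n l26803 (nat_lit 1111) (nat_lit 12) (nat_lit 9))
    (@En.n l26804 (nat_lit 1289) (nat_lit 8) (nat_lit 6))
    (@En.n l20674 (nat_lit 6701) (nat_lit 14) (nat_lit 9))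
    (@En.n l14776 (nat_lit 1460) (nat_lit 11) (nat_lit 11))
    (@En.n l3 (nat_lit 2001) (nat_lit 11) (nat_lit 2))
    (@En.n l14493 (nat_lit 1460) (nat_lit 13) (nat_lit 8))
    (@En.i (nat_lit 9927) (nat_lit 1) (nat_lit 14))
    (@En.n l1252 (nat_lit 2000) (nat_lit 2) (nat_lit 10))
    (@En.n l17 (nat_lit 2001) (nat_lit 15) (nat_lit 2))))
  (@Cl.mk (nat_lit 0x2000900070006000e00090002000d0007000a000300090007000a000e0006) (nat_lit 0x200630808040360) (nat_lit 16) Lb.e (@T16.mk En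
    (@En.n l12306 (nat_lit 1464) (nat_lit 6) (nat_lit 6))
    (@En.i (nat_lit 11314) (nat_lit 8) (nat_lit 14))
    (@En.n l5390 (nat_lit 13213) (nat_lit 8) (nat_lit 10))
    (@En.n l3082 (nat_lit 2579) (nat_lit 3) (nat_lit 7))
    (@En.n l5390 (nat_lit 1450) (nat_lit 11) (nat_lit 9))
    (@En.n l5389 (nat_lit 1773) (nat_lit 5) (nat_lit 3))
    (@En.n l3082 (nat_lit 2011) (nat_lit 0) (nat_lit 10))
    (@En.n l26370 (nat_lit 2082) (nat_lit 14) (nat_lit 7))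
    (@En.n l5390 (nat_lit 1179) (nat_lit 9) (nat_lit 13))
    (@En.n l28 (nat_lit 2002) (nat_lit 9) (nat_lit 2))
    (@En.n l1101 (nat_lit 2000) (nat_lit 11) (nat_lit 9))
    (@En.n l11727 (nat_lit 1517) (nat_lit 12) (nat_lit 14))
    (@En.n l26371 (nat_lit 1296) (nat_lit 13) (nat_lit 6))
    (@En.n l9655 (nat_lit 6718) (nat_lit 14) (nat_lit 7))
    (@En.n l12308 (nat_lit 1464) (nat_lit 4) (nat_lit 9))
    (@En.n l17 (nat_lit 2002) (nat_lit 15) (nat_lit 2))))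
  (@Cl.mk (nat_lit 0x2000900060009000d0008000700030007000e00070002000a0008000e0009) (nat_lit 0x254000c002092) (nat_lit 16) Lb.e (@T16.mk En
    (@En.n l3279 (nat_lit 1673) (nat_lit 12) (nat_lit 9))
    (@En.n l15140 (nat_lit 2001) (nat_lit 13) (nat_lit 14))
    (@En.n l15141 (nat_lit 9922) (nat_lit 2) (nat_lit 8))
    (@En.n l15142 (nat_lit 1770) (nat_lit 3) (nat_lit 10))
    (@En.n l18 (nat_lit 2003) (nat_lit 4) (nat_lit 2))
    (@En.n l15143 (nat_lit 1770) (nat_lit 5) (nat_lit 7))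
    (@En.n l15144 (nat_lit 4938) (nat_lit 7) (nat_lit 14))
    (@En.n l15145 (nat_lit 1517) (nat_lit 2) (nat_lit 7))
    (@En.n l15146 (nat_lit 2012) (nat_lit 8) (nat_lit 3))
    (@En.i (nat_lit 2005) (nat_lit 0) (nat_lit 7))
    (@En.n l4939 (nat_lit 1991) (nat_lit 5) (nat_lit 8))
    (@En.n l15140 (nat_lit 1099) (nat_lit 12) (nat_lit 13))
    (@En.n l15145 (nat_lit 352) (nat_lit 9) (nat_lit 9))
    (@En.n l2225 (nat_lit 418) (nat_lit 14) (nat_lit 6))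
    (@En.n l15147 (nat_lit 6842) (nat_lit 10) (nat_lit 9))
    (@En.n l11 (nat_lit 2003) (nat_lit 15) (nat_lit 2))))
  (@Cl.mk (nat_lit 0x20007000600060009000d0007000e0003000200090007000a000a000e0009) (nat_lit 0x50700002365) (nat_lit 16) Lb.e (@T16.mk En
    (@En.n l17 (nat_lit 3195) (nat_lit 10) (nat_lit 9))
    (@En.i (nat_lit 1826) (nat_lit 11) (nat_lit 14))
    (@En.n l17929 (nat_lit 2006) (nat_lit 2) (nat_lit 10))
    (@En.n l50 (nat_lit 1895) (nat_lit 3) (nat_lit 10))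
    (@En.i (nat_lit 1234) (nat_lit 14) (nat_lit 7))
    (@En.i (nat_lit 5208) (nat_lit 5) (nat_lit 9))
    (@En.n l28 (nat_lit 2004) (nat_lit 6) (nat_lit 2))
    (@En.i (nat_lit 2007) (nat_lit 7) (nat_lit 3))
    (@En.i (nat_lit 13383) (nat_lit 0) (nat_lit 14))
    (@En.i (nat_lit 1770) (nat_lit 2) (nat_lit 7))
    (@En.i (nat_lit 9100) (nat_lit 11) (nat_lit 13))
    (@En.n l617 (nat_lit 2011) (nat_lit 12) (nat_lit 9))
    (@En.n l2687 (nat_lit 2011) (nat_lit 13) (nat_lit 6))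
    (@En.i (nat_lit 3501) (nat_lit 14) (nat_lit 6))
    (@En.i (nat_lit 1850) (nat_lit 7) (nat_lit 7))
    (@En.n l3 (nat_lit 2004) (nat_lit 15) (nat_lit 2))))
  (@Cl.mk (nat_lit 0x20006000e000600020009000d000d000900030003000a0007000a000e0007) (nat_lit 0x90006820000240) (nat_lit 16) Lb.e (@T16.mk En
    (@En.i (nat_lit 3192) (nat_lit 4) (nat_lit 7))
    (@En.n l17251 (nat_lit 1202) (nat_lit 6) (nat_lit 14))
    (@En.n l19455 (nat_lit 968) (nat_lit 2) (nat_lit 10))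
    (@En.n l11726 (nat_lit 1236) (nat_lit 7) (nat_lit 7))
    (@En.n l19456 (nat_lit 5209) (nat_lit 4) (nat_lit 10))
    (@En.n l19457 (nat_lit 2008) (nat_lit 5) (nat_lit 3))
    (@En.n l5870 (nat_lit 2006) (nat_lit 6) (nat_lit 3))
    (@En.n l55 (nat_lit 1999) (nat_lit 0) (nat_lit 9))
    (@En.n l2691 (nat_lit 2006) (nat_lit 9) (nat_lit 13))
    (@En.n l17251 (nat_lit 9116) (nat_lit 10) (nat_lit 13))
    (@En.n l19458 (nat_lit 2007) (nat_lit 11) (nat_lit 9))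
    (@En.n l18 (nat_lit 2005) (nat_lit 11) (nat_lit 2))
    (@En.n l19459 (nat_lit 2007) (nat_lit 13) (nat_lit 6))
    (@En.n l19460 (nat_lit 3386) (nat_lit 1) (nat_lit 14))
    (@En.n l19461 (nat_lit 1847) (nat_lit 2) (nat_lit 6))
    (@En.n l1098 (nat_lit 2005) (nat_lit 15) (nat_lit 2))))
  (@Cl.mk (nat_lit 0x20006000e000600020009000d0008000e00030002000a0007000a000e0008) (nat_lit 0xc0017180000254) (nat_lit 16) Lb.e (@T16.mk En
    (@En.i (nat_lit 3193) (nat_lit 4) (nat_lit 8))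
    (@En.n l9187 (nat_lit 1206) (nat_lit 6) (nat_lit 14))
    (@En.i (nat_lit 971) (nat_lit 2) (nat_lit 10))
    (@En.n l21281 (nat_lit 1889) (nat_lit 14) (nat_lit 7))
    (@En.n l8226 (nat_lit 5207) (nat_lit 4) (nat_lit 10))
    (@En.n l11 (nat_lit 2006) (nat_lit 5) (nat_lit 2))
    (@En.n l1992 (nat_lit 2005) (nat_lit 6) (nat_lit 3))
    (@En.n l9187 (nat_lit 13382) (nat_lit 0) (nat_lit 14))
    (@En.n l2576 (nat_lit 2003) (nat_lit 2) (nat_lit 8))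
    (@En.n l9641 (nat_lit 9113) (nat_lit 10) (nat_lit 13))
    (@En.n l8930 (nat_lit 2004) (nat_lit 11) (nat_lit 9))
    (@En.n l18 (nat_lit 2006) (nat_lit 11) (nat_lit 2))
    (@En.n l8931 (nat_lit 2004) (nat_lit 13) (nat_lit 6))
    (@En.n l9641 (nat_lit 3374) (nat_lit 8) (nat_lit 14))
    (@En.n l18947 (nat_lit 1849) (nat_lit 2) (nat_lit 6))
    (@En.n l476 (nat_lit 2006) (nat_lit 15) (nat_lit 2))))
  (@Cl.mk (nat_lit 0x20007000600060009000d000d00080003000300090007000a000a000e0008) (nat_lit 0x766200602385) (nat_lit 16) Lb.e (@T16.mk En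
    (@En.n l17 (nat_lit 3194) (nat_lit 9) (nat_lit 8))
    (@En.n l8104 (nat_lit 1827) (nat_lit 1) (nat_lit 14))
    (@En.n l15528 (nat_lit 2005) (nat_lit 2) (nat_lit 10))
    (@En.n l15529 (nat_lit 1896) (nat_lit 3) (nat_lit 10))
    (@En.n l8104 (nat_lit 1229) (nat_lit 4) (nat_lit 7))
    (@En.n l8739 (nat_lit 5210) (nat_lit 5) (nat_lit 9))
    (@En.n l15530 (nat_lit 2009) (nat_lit 6) (nat_lit 3))
    (@En.n l11 (nat_lit 2004) (nat_lit 7) (nat_lit 3))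
    (@En.n l8104 (nat_lit 1998) (nat_lit 0) (nat_lit 8))
    (@En.n l55 (nat_lit 2004) (nat_lit 10) (nat_lit 13))
    (@En.i (nat_lit 9101) (nat_lit 11) (nat_lit 13))
    (@En.n l617 (nat_lit 2010) (nat_lit 12) (nat_lit 9))
    (@En.n l2687 (nat_lit 2010) (nat_lit 13) (nat_lit 6))
    (@En.i (nat_lit 3504) (nat_lit 14) (nat_lit 6))
    (@En.n l14082 (nat_lit 1846) (nat_lit 6) (nat_lit 7))
    (@En.n l3 (nat_lit 2007) (nat_lit 15) (nat_lit 2))))
  (@Cl.mk (nat_lit 0x20006000e000600020009000e000d0002000a0003000a0007000a000e0006) (nat_lit 0x7703000270) (nat_lit 16) Lb.e (@T16.mk En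
    (@En.n l3660 (nat_lit 3196) (nat_lit 4) (nat_lit 6))
    (@En.n l10275 (nat_lit 1204) (nat_lit 6) (nat_lit 14))
    (@En.n l117 (nat_lit 966) (nat_lit 2) (nat_lit 10))
    (@En.n l575 (nat_lit 1285) (nat_lit 7) (nat_lit 7))
    (@En.n l2032 (nat_lit 5191) (nat_lit 4) (nat_lit 10))
    (@En.n l10276 (nat_lit 2005) (nat_lit 5) (nat_lit 3))
    (@En.n l10277 (nat_lit 2012) (nat_lit 0) (nat_lit 10))
    (@En.n l7 (nat_lit 2008) (nat_lit 7) (nat_lit 2))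
    (@En.n l10278 (nat_lit 2005) (nat_lit 9) (nat_lit 13))
    (@En.n l10275 (nat_lit 9123) (nat_lit 10) (nat_lit 14))
    (@En.n l2972 (nat_lit 2009) (nat_lit 11) (nat_lit 9))
    (@En.n l3 (nat_lit 2008) (nat_lit 11) (nat_lit 2))
    (@En.n l10279 (nat_lit 2009) (nat_lit 13) (nat_lit 6))
    (@En.i (nat_lit 3375) (nat_lit 1) (nat_lit 14))
    (@En.n l2977 (nat_lit 1845) (nat_lit 2) (nat_lit 6))
    (@En.n l17 (nat_lit 2008) (nat_lit 15) (nat_lit 2))))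
  (@Cl.mk (nat_lit 0x20007000600060009000e000d00020009000300090007000a000a000e0007) (nat_lit 0x767030002370) (nat_lit 16) Lb.e (@T16.mk En
    (@En.n l8709 (nat_lit 3197) (nat_lit 7) (nat_lit 7))
    (@En.i (nat_lit 2768) (nat_lit 9) (nat_lit 14))
    (@En.n l8710 (nat_lit 2008) (nat_lit 2) (nat_lit 10))
    (@En.n l8711 (nat_lit 2908) (nat_lit 3) (nat_lit 10))
    (@En.i (nat_lit 1235) (nat_lit 12) (nat_lit 7))
    (@En.n l8712 (nat_lit 5192) (nat_lit 5) (nat_lit 9))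
    (@En.n l6168 (nat_lit 2007) (nat_lit 6) (nat_lit 3))
    (@En.i (nat_lit 1767) (nat_lit 0) (nat_lit 9))
    (@En.n l7 (nat_lit 2009) (nat_lit 8) (nat_lit 2))
    (@En.n l8713 (nat_lit 2007) (nat_lit 10) (nat_lit 13))
    (@En.n l8714 (nat_lit 9223) (nat_lit 11) (nat_lit 14))
    (@En.n l1899 (nat_lit 3216) (nat_lit 2) (nat_lit 9))
    (@En.n l1900 (nat_lit 3216) (nat_lit 3) (nat_lit 6))
    (@En.n l8715 (nat_lit 3495) (nat_lit 14) (nat_lit 6))
    (@En.n l8716 (nat_lit 1848) (nat_lit 5) (nat_lit 7))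
    (@En.n l17 (nat_lit 2009) (nat_lit 15) (nat_lit 2))))
  (@Cl.mk (nat_lit 0x2000800060009000d000d00070003000300080007000e000a0002000e0009) (nat_lit 0x306460000073097) (nat_lit 16) Lb.e (@T16.mk En
    (@En.n l14670 (nat_lit 3198) (nat_lit 14) (nat_lit 9))
    (@En.n l665 (nat_lit 1822) (nat_lit 1) (nat_lit 14))
    (@En.n l18 (nat_lit 2010) (nat_lit 2) (nat_lit 2))
    (@En.n l61 (nat_lit 2007) (nat_lit 3) (nat_lit 10))
    (@En.n l2197 (nat_lit 3218) (nat_lit 5) (nat_lit 14))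
    (@En.n l14671 (nat_lit 1232) (nat_lit 5) (nat_lit 7))
    (@En.n l9556 (nat_lit 5217) (nat_lit 6) (nat_lit 8))
    (@En.n l14672 (nat_lit 3216) (nat_lit 13) (nat_lit 3))
    (@En.n l11 (nat_lit 2011) (nat_lit 8) (nat_lit 3))
    (@En.n l14673 (nat_lit 1773) (nat_lit 0) (nat_lit 7))
    (@En.n l55 (nat_lit 2011) (nat_lit 11) (nat_lit 13))
    (@En.i (nat_lit 9103) (nat_lit 12) (nat_lit 13))
    (@En.n l7055 (nat_lit 13231) (nat_lit 9) (nat_lit 9))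
    (@En.i (nat_lit 3506) (nat_lit 14) (nat_lit 6))
    (@En.n l5949 (nat_lit 1851) (nat_lit 12) (nat_lit 8))
    (@En.n l3 (nat_lit 2010) (nat_lit 15) (nat_lit 2))))
  (@Cl.mk (nat_lit 0x2000800060009000d0006000e0003000200080007000e000a0002000e000a) (nat_lit 0x307506000073077) (nat_lit 16) Lb.e (@T16.mk En
    (@En.i (nat_lit 3208) (nat_lit 9) (nat_lit 10))
    (@En.n l7055 (nat_lit 1821) (nat_lit 1) (nat_lit 14))
    (@En.n l18 (nat_lit 2011) (nat_lit 2) (nat_lit 2))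
    (@En.n l61 (nat_lit 2004) (nat_lit 3) (nat_lit 10))
    (@En.n l2197 (nat_lit 3219) (nat_lit 5) (nat_lit 14))
    (@En.n l13709 (nat_lit 1230) (nat_lit 14) (nat_lit 7))
    (@En.n l9556 (nat_lit 5215) (nat_lit 6) (nat_lit 8))
    (@En.n l28 (nat_lit 2011) (nat_lit 7) (nat_lit 2))
    (@En.i (nat_lit 2010) (nat_lit 8) (nat_lit 3))
    (@En.n l9556 (nat_lit 13386) (nat_lit 0) (nat_lit 14))
    (@En.i (nat_lit 1769) (nat_lit 2) (nat_lit 6))
    (@En.i (nat_lit 9102) (nat_lit 12) (nat_lit 13))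
    (@En.n l7055 (nat_lit 13232) (nat_lit 9) (nat_lit 9))
    (@En.i (nat_lit 3503) (nat_lit 14) (nat_lit 6))
    (@En.n l7055 (nat_lit 2138) (nat_lit 12) (nat_lit 8))
    (@En.n l3 (nat_lit 2011) (nat_lit 15) (nat_lit 2))))
  (@Cl.mk (nat_lit 0x2000900060009000d0006000900030007000e00070002000a0007000e000a) (nat_lit 0x230600c001072) (nat_lit 16) Lb.e (@T16.mk En
    (@En.i (nat_lit 1669) (nat_lit 12) (nat_lit 10))
    (@En.n l23586 (nat_lit 1999) (nat_lit 1) (nat_lit 14))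
    (@En.n l23587 (nat_lit 6507) (nat_lit 14) (nat_lit 7))
    (@En.n l23588 (nat_lit 1767) (nat_lit 3) (nat_lit 10))
    (@En.n l18 (nat_lit 2012) (nat_lit 4) (nat_lit 2))
    (@En.n l11209 (nat_lit 1767) (nat_lit 5) (nat_lit 7))
    (@En.n l23589 (nat_lit 1885) (nat_lit 7) (nat_lit 14))
    (@En.n l2881 (nat_lit 1583) (nat_lit 2) (nat_lit 7))
    (@En.n l6096 (nat_lit 2003) (nat_lit 8) (nat_lit 3))
    (@En.n l6146 (nat_lit 13551) (nat_lit 9) (nat_lit 9))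
    (@En.n l17701 (nat_lit 3191) (nat_lit 5) (nat_lit 6))
    (@En.n l23587 (nat_lit 1313) (nat_lit 12) (nat_lit 13))
    (@En.n l1998 (nat_lit 359) (nat_lit 9) (nat_lit 9))
    (@En.n l11680 (nat_lit 420) (nat_lit 14) (nat_lit 6))
    (@En.n l2880 (nat_lit 6820) (nat_lit 10) (nat_lit 9))
    (@En.n l3 (nat_lit 2012) (nat_lit 15) (nat_lit 2))))
  (@Cl.mk (nat_lit 0x20007000a000600090009000d000800060003000900070007000a000e0008) (nat_lit 0x51004000b0) (nat_lit 16) Lb.e (@T16.mk En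
    (@En.i (nat_lit 2022) (nat_lit 10) (nat_lit 8))
    (@En.n l713 (nat_lit 7941) (nat_lit 1) (nat_lit 14))
    (@En.n l39017 (nat_lit 2019) (nat_lit 2) (nat_lit 10))
    (@En.n l39018 (nat_lit 2019) (nat_lit 3) (nat_lit 7))
    (@En.n l6752 (nat_lit 6435) (nat_lit 4) (nat_lit 7))
    (@En.n l6751 (nat_lit 2018) (nat_lit 5) (nat_lit 9))
    (@En.n l39019 (nat_lit 2016) (nat_lit 6) (nat_lit 3))
    (@En.n l6749 (nat_lit 5771) (nat_lit 7) (nat_lit 6))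
    (@En.n l18638 (nat_lit 1310) (nat_lit 9) (nat_lit 8))
    (@En.n l6749 (nat_lit 11265) (nat_lit 10) (nat_lit 13))
    (@En.n l217 (nat_lit 2014) (nat_lit 11) (nat_lit 9))
    (@En.i (nat_lit 7717) (nat_lit 12) (nat_lit 9))
    (@En.n l39020 (nat_lit 1767) (nat_lit 13) (nat_lit 6))
    (@En.i (nat_lit 4918) (nat_lit 8) (nat_lit 10))
    (@En.n l1975 (nat_lit 2442) (nat_lit 7) (nat_lit 7))
    (@En.n l3 (nat_lit 2013) (nat_lit 15) (nat_lit 2))))
  (@Cl.mk (nat_lit 0x20008000b00060009000d0007000500030008000e00070002000a000e0009) (nat_lit 0x7400040001b0) (nat_lit 16) Lb.e (@T16.mk En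
    (@En.i (nat_lit 2024) (nat_lit 13) (nat_lit 9))
    (@En.n l713 (nat_lit 9926) (nat_lit 1) (nat_lit 14))
    (@En.n l1738 (nat_lit 2013) (nat_lit 2) (nat_lit 10))
    (@En.n l18 (nat_lit 2014) (nat_lit 3) (nat_lit 2))
    (@En.i (nat_lit 2013) (nat_lit 4) (nat_lit 7))
    (@En.n l29870 (nat_lit 6608) (nat_lit 6) (nat_lit 14))
    (@En.n l2491 (nat_lit 2017) (nat_lit 6) (nat_lit 8))
    (@En.n l7129 (nat_lit 2015) (nat_lit 7) (nat_lit 3))
    (@En.n l1001 (nat_lit 6021) (nat_lit 8) (nat_lit 5))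
    (@En.n l5611 (nat_lit 5185) (nat_lit 5) (nat_lit 7))
    (@En.n l1001 (nat_lit 6063) (nat_lit 11) (nat_lit 13))
    (@En.i (nat_lit 6367) (nat_lit 12) (nat_lit 9))
    (@En.n l134 (nat_lit 2012) (nat_lit 13) (nat_lit 6))
    (@En.i (nat_lit 4955) (nat_lit 14) (nat_lit 11))
    (@En.n l615 (nat_lit 2620) (nat_lit 11) (nat_lit 8))
    (@En.n l3 (nat_lit 2014) (nat_lit 15) (nat_lit 2))))
  (@Cl.mk (nat_lit 0x20008000c00060009000d0004000800030008000e00070002000a000e0008) (nat_lit 0x800400040000b0) (nat_lit 16) Lb.e (@T16.mk En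
    (@En.n l15680 (nat_lit 6937) (nat_lit 13) (nat_lit 8))
    (@En.n l11219 (nat_lit 9924) (nat_lit 1) (nat_lit 14))
    (@En.n l15681 (nat_lit 2016) (nat_lit 2) (nat_lit 10))
    (@En.n l18 (nat_lit 2015) (nat_lit 3) (nat_lit 2))
    (@En.n l15682 (nat_lit 2016) (nat_lit 4) (nat_lit 7))
    (@En.n l15683 (nat_lit 6607) (nat_lit 6) (nat_lit 14))
    (@En.n l7471 (nat_lit 5905) (nat_lit 6) (nat_lit 8))
    (@En.n l4520 (nat_lit 2014) (nat_lit 7) (nat_lit 3))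
    (@En.n l15684 (nat_lit 7826) (nat_lit 0) (nat_lit 8))
    (@En.n l28 (nat_lit 2017) (nat_lit 9) (nat_lit 4))
    (@En.n l15685 (nat_lit 6065) (nat_lit 11) (nat_lit 13))
    (@En.i (nat_lit 6366) (nat_lit 12) (nat_lit 9))
    (@En.n l11754 (nat_lit 2003) (nat_lit 13) (nat_lit 6))
    (@En.n l4520 (nat_lit 5960) (nat_lit 10) (nat_lit 12))
    (@En.n l12650 (nat_lit 2617) (nat_lit 11) (nat_lit 8))
    (@En.n l3 (nat_lit 2015) (nat_lit 15) (nat_lit 2))))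
noncomputable def a126 : T16 Cl := @T16.mk Cl
  (@Cl.mk (nat_lit 0x20007000b000600090009000d000500090003000900070007000a000e0007) (nat_lit 0x700150004008b0) (nat_lit 16) Lb.e (@T16.mk En
    (@En.n l30142 (nat_lit 6936) (nat_lit 10) (nat_lit 7))
    (@En.n l4758 (nat_lit 7945) (nat_lit 1) (nat_lit 14))
    (@En.n l30143 (nat_lit 2021) (nat_lit 2) (nat_lit 10))
    (@En.n l30144 (nat_lit 2021) (nat_lit 3) (nat_lit 7))
    (@En.i (nat_lit 6434) (nat_lit 4) (nat_lit 7))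
    (@En.n l30145 (nat_lit 5021) (nat_lit 5) (nat_lit 9))
    (@En.n l30146 (nat_lit 2013) (nat_lit 6) (nat_lit 3))
    (@En.n l781 (nat_lit 7828) (nat_lit 0) (nat_lit 9))
    (@En.n l30147 (nat_lit 2018) (nat_lit 8) (nat_lit 5))
    (@En.n l1112 (nat_lit 11008) (nat_lit 10) (nat_lit 13))
    (@En.n l30148 (nat_lit 2015) (nat_lit 11) (nat_lit 9))
    (@En.n l30149 (nat_lit 7713) (nat_lit 12) (nat_lit 9))
    (@En.n l97 (nat_lit 1770) (nat_lit 13) (nat_lit 6))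
    (@En.n l30146 (nat_lit 1925) (nat_lit 14) (nat_lit 11))
    (@En.n l30150 (nat_lit 2445) (nat_lit 7) (nat_lit 7))
    (@En.n l28 (nat_lit 2016) (nat_lit 15) (nat_lit 2))))
  (@Cl.mk (nat_lit 0x20008000c000b0007000a0004000800050008000e000600020009000e0008) (nat_lit 0x610005030000a0) (nat_lit 16) Lb.e (@T16.mk En
    (@En.i (nat_lit 6926) (nat_lit 13) (nat_lit 8))
    (@En.i (nat_lit 9925) (nat_lit 1) (nat_lit 14))
    (@En.n l22009 (nat_lit 2018) (nat_lit 2) (nat_lit 9))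
    (@En.n l18 (nat_lit 2017) (nat_lit 3) (nat_lit 2))
    (@En.n l3506 (nat_lit 2018) (nat_lit 4) (nat_lit 6))
    (@En.n l2572 (nat_lit 9376) (nat_lit 6) (nat_lit 14))
    (@En.n l7471 (nat_lit 5904) (nat_lit 10) (nat_lit 8))
    (@En.n l23587 (nat_lit 6018) (nat_lit 7) (nat_lit 5))
    (@En.i (nat_lit 5182) (nat_lit 4) (nat_lit 8))
    (@En.i (nat_lit 9922) (nat_lit 9) (nat_lit 4))
    (@En.i (nat_lit 6368) (nat_lit 11) (nat_lit 10))
    (@En.n l8122 (nat_lit 1583) (nat_lit 7) (nat_lit 7))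
    (@En.n l6698 (nat_lit 2014) (nat_lit 13) (nat_lit 11))
    (@En.n l1578 (nat_lit 5350) (nat_lit 10) (nat_lit 12))
    (@En.i (nat_lit 2621) (nat_lit 11) (nat_lit 8))
    (@En.n l3 (nat_lit 2017) (nat_lit 15) (nat_lit 2))))
  (@Cl.mk (nat_lit 0x20007000b000a0007000a000a0005000900060009000600060009000e0007) (nat_lit 0x510010603007a0) (nat_lit 16) Lb.e (@T16.mk En
    (@En.n l42126 (nat_lit 2023) (nat_lit 7) (nat_lit 7))
    (@En.n l27064 (nat_lit 7944) (nat_lit 1) (nat_lit 14))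
    (@En.n l1972 (nat_lit 2020) (nat_lit 9) (nat_lit 9))
    (@En.n l1973 (nat_lit 2020) (nat_lit 10) (nat_lit 6))
    (@En.n l50 (nat_lit 9405) (nat_lit 4) (nat_lit 6))
    (@En.n l11 (nat_lit 5254) (nat_lit 5) (nat_lit 9))
    (@En.n l2568 (nat_lit 5768) (nat_lit 6) (nat_lit 6))
    (@En.n l6981 (nat_lit 5177) (nat_lit 8) (nat_lit 9))
    (@En.n l42127 (nat_lit 9905) (nat_lit 8) (nat_lit 5))
    (@En.n l9762 (nat_lit 2017) (nat_lit 10) (nat_lit 10))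
    (@En.i (nat_lit 7718) (nat_lit 11) (nat_lit 10))
    (@En.n l39020 (nat_lit 1584) (nat_lit 12) (nat_lit 7))
    (@En.n l8323 (nat_lit 2013) (nat_lit 13) (nat_lit 10))
    (@En.n l19776 (nat_lit 5349) (nat_lit 14) (nat_lit 11))
    (@En.i (nat_lit 2612) (nat_lit 13) (nat_lit 7))
    (@En.n l3 (nat_lit 2018) (nat_lit 15) (nat_lit 2))))
  (@Cl.mk (nat_lit 0x2000600090006000e00090002000d000900070003000a0007000a000e0007) (nat_lit 0x10600040840) (nat_lit 16) Lb.e (@T16.mk En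
    (@En.n l23539 (nat_lit 2025) (nat_lit 6) (nat_lit 7))
    (@En.n l23540 (nat_lit 7937) (nat_lit 1) (nat_lit 14))
    (@En.n l3324 (nat_lit 13481) (nat_lit 8) (nat_lit 10))
    (@En.n l2520 (nat_lit 6433) (nat_lit 3) (nat_lit 7))
    (@En.n l23541 (nat_lit 2020) (nat_lit 11) (nat_lit 10))
    (@En.n l23542 (nat_lit 2021) (nat_lit 5) (nat_lit 3))
    (@En.i (nat_lit 5767) (nat_lit 6) (nat_lit 7))
    (@En.n l3348 (nat_lit 5176) (nat_lit 14) (nat_lit 9))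
    (@En.n l1531 (nat_lit 11263) (nat_lit 9) (nat_lit 13))
    (@En.n l3 (nat_lit 2019) (nat_lit 9) (nat_lit 2))
    (@En.n l23543 (nat_lit 2013) (nat_lit 11) (nat_lit 9))
    (@En.n l23544 (nat_lit 7699) (nat_lit 12) (nat_lit 14))
    (@En.n l3324 (nat_lit 1768) (nat_lit 13) (nat_lit 6))
    (@En.n l2520 (nat_lit 5022) (nat_lit 9) (nat_lit 9))
    (@En.i (nat_lit 2439) (nat_lit 4) (nat_lit 6))
    (@En.n l7 (nat_lit 2019) (nat_lit 15) (nat_lit 2))))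
  (@Cl.mk (nat_lit 0x20006000a0007000a00060009000e000600020006000a00090007000e000a) (nat_lit 0x70306a00051001) (nat_lit 16) Lb.e (@T16.mk En
    (@En.n l5779 (nat_lit 2018) (nat_lit 10) (nat_lit 10))
    (@En.n l3749 (nat_lit 5252) (nat_lit 11) (nat_lit 14))
    (@En.n l9512 (nat_lit 1587) (nat_lit 2) (nat_lit 7))
    (@En.n l4466 (nat_lit 2019) (nat_lit 13) (nat_lit 9))
    (@En.n l23053 (nat_lit 5351) (nat_lit 4) (nat_lit 10))
    (@En.n l10280 (nat_lit 2606) (nat_lit 5) (nat_lit 6))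
    (@En.n l3 (nat_lit 2020) (nat_lit 6) (nat_lit 2))
    (@En.n l3323 (nat_lit 6939) (nat_lit 7) (nat_lit 6))
    (@En.n l2362 (nat_lit 7939) (nat_lit 9) (nat_lit 14))
    (@En.i (nat_lit 13484) (nat_lit 9) (nat_lit 9))
    (@En.n l38687 (nat_lit 7960) (nat_lit 3) (nat_lit 6))
    (@En.i (nat_lit 5255) (nat_lit 12) (nat_lit 10))
    (@En.n l4367 (nat_lit 5385) (nat_lit 5) (nat_lit 7))
    (@En.n l3749 (nat_lit 5178) (nat_lit 14) (nat_lit 10))
    (@En.n l3337 (nat_lit 9903) (nat_lit 7) (nat_lit 6))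
    (@En.n l50 (nat_lit 2020) (nat_lit 15) (nat_lit 2))))
  (@Cl.mk (nat_lit 0x20006000a0006000e00090002000d0006000a0003000a0007000a000e0006) (nat_lit 0x60010600040760) (nat_lit 16) Lb.e (@T16.mk En
    (@En.n l6610 (nat_lit 6938) (nat_lit 6) (nat_lit 6))
    (@En.n l33852 (nat_lit 7938) (nat_lit 1) (nat_lit 14))
    (@En.n l699 (nat_lit 13482) (nat_lit 8) (nat_lit 10))
    (@En.n l3291 (nat_lit 6431) (nat_lit 3) (nat_lit 7))
    (@En.i (nat_lit 5258) (nat_lit 11) (nat_lit 10))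
    (@En.n l36731 (nat_lit 2019) (nat_lit 5) (nat_lit 3))
    (@En.i (nat_lit 7830) (nat_lit 0) (nat_lit 10))
    (@En.n l7645 (nat_lit 2020) (nat_lit 14) (nat_lit 6))
    (@En.i (nat_lit 11010) (nat_lit 9) (nat_lit 13))
    (@En.n l18 (nat_lit 2021) (nat_lit 9) (nat_lit 2))
    (@En.n l9105 (nat_lit 2016) (nat_lit 11) (nat_lit 9))
    (@En.n l1063 (nat_lit 7700) (nat_lit 12) (nat_lit 14))
    (@En.n l16332 (nat_lit 1769) (nat_lit 13) (nat_lit 6))
    (@En.n l6608 (nat_lit 5025) (nat_lit 14) (nat_lit 10))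
    (@En.n l36732 (nat_lit 2609) (nat_lit 4) (nat_lit 6))
    (@En.n l11 (nat_lit 2021) (nat_lit 15) (nat_lit 2))))
  (@Cl.mk (nat_lit 0x4000a00080008000b0008000800060009000500080008000c000800080007) (nat_lit 0x500060000005420) (nat_lit 16) Lb.e (@T16.mk En
    (@En.n l33969 (nat_lit 6920) (nat_lit 9) (nat_lit 7))
    (@En.n l152 (nat_lit 2013) (nat_lit 8) (nat_lit 8))
    (@En.n l14087 (nat_lit 3183) (nat_lit 8) (nat_lit 8))
    (@En.n l8011 (nat_lit 11262) (nat_lit 7) (nat_lit 12))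
    (@En.n l217 (nat_lit 2024) (nat_lit 8) (nat_lit 8))
    (@En.i (nat_lit 7714) (nat_lit 10) (nat_lit 8))
    (@En.n l40873 (nat_lit 1672) (nat_lit 6) (nat_lit 5))
    (@En.i (nat_lit 4943) (nat_lit 9) (nat_lit 9))
    (@En.n l8009 (nat_lit 6790) (nat_lit 1) (nat_lit 6))
    (@En.n l40874 (nat_lit 6930) (nat_lit 8) (nat_lit 8))
    (@En.n l27981 (nat_lit 9368) (nat_lit 1) (nat_lit 8))
    (@En.n l40875 (nat_lit 2025) (nat_lit 7) (nat_lit 11))
    (@En.n l40876 (nat_lit 2025) (nat_lit 8) (nat_lit 8))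
    (@En.n l40877 (nat_lit 8496) (nat_lit 14) (nat_lit 8))
    (@En.n l40878 (nat_lit 2023) (nat_lit 11) (nat_lit 10))
    (@En.n l40879 (nat_lit 6936) (nat_lit 15) (nat_lit 4))))
  (@Cl.mk (nat_lit 0x5000900090007000a00070007000a000700070006000b0009000600090009) (nat_lit 0x470400000041000) (nat_lit 16) Lb.e (@T16.mk En
    (@En.n l40331 (nat_lit 6926) (nat_lit 7) (nat_lit 9))
    (@En.n l40332 (nat_lit 7715) (nat_lit 9) (nat_lit 9))
    (@En.n l12061 (nat_lit 1580) (nat_lit 2) (nat_lit 6))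
    (@En.n l40333 (nat_lit 2022) (nat_lit 7) (nat_lit 9))
    (@En.n l6080 (nat_lit 5352) (nat_lit 9) (nat_lit 11))
    (@En.n l1778 (nat_lit 6793) (nat_lit 10) (nat_lit 6))
    (@En.n l37521 (nat_lit 6927) (nat_lit 9) (nat_lit 7))
    (@En.n l19999 (nat_lit 9364) (nat_lit 7) (nat_lit 7))
    (@En.n l11 (nat_lit 6939) (nat_lit 8) (nat_lit 10))
    (@En.n l55 (nat_lit 6939) (nat_lit 9) (nat_lit 7))
    (@En.n l37522 (nat_lit 9413) (nat_lit 9) (nat_lit 7))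
    (@En.i (nat_lit 5256) (nat_lit 8) (nat_lit 10))
    (@En.n l742 (nat_lit 6922) (nat_lit 9) (nat_lit 7))
    (@En.n l40334 (nat_lit 2018) (nat_lit 7) (nat_lit 9))
    (@En.n l27174 (nat_lit 3302) (nat_lit 10) (nat_lit 9))
    (@En.n l40335 (nat_lit 9840) (nat_lit 15) (nat_lit 5))))
  (@Cl.mk (nat_lit 0x2000b000900090007000a00050008000c00070007000600040009000e0008) (nat_lit 0x170000640000501) (nat_lit 16) Lb.e (@T16.mk En
    (@En.i (nat_lit 2022) (nat_lit 13) (nat_lit 8))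
    (@En.n l6240 (nat_lit 6610) (nat_lit 1) (nat_lit 14))
    (@En.n l2491 (nat_lit 6926) (nat_lit 2) (nat_lit 9))
    (@En.n l35549 (nat_lit 6937) (nat_lit 3) (nat_lit 4))
    (@En.n l11 (nat_lit 6923) (nat_lit 4) (nat_lit 6))
    (@En.n l152 (nat_lit 2014) (nat_lit 9) (nat_lit 7))
    (@En.n l5704 (nat_lit 3300) (nat_lit 6) (nat_lit 7))
    (@En.n l1001 (nat_lit 6128) (nat_lit 8) (nat_lit 12))
    (@En.i (nat_lit 3248) (nat_lit 10) (nat_lit 8))
    (@En.n l134 (nat_lit 1669) (nat_lit 9) (nat_lit 5))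
    (@En.i (nat_lit 4945) (nat_lit 11) (nat_lit 10))
    (@En.n l35550 (nat_lit 6789) (nat_lit 12) (nat_lit 7))
    (@En.n l1596 (nat_lit 6929) (nat_lit 7) (nat_lit 9))
    (@En.n l27817 (nat_lit 9630) (nat_lit 14) (nat_lit 9))
    (@En.n l1738 (nat_lit 2022) (nat_lit 11) (nat_lit 11))
    (@En.n l18 (nat_lit 2024) (nat_lit 15) (nat_lit 2))))
  (@Cl.mk (nat_lit 0x2000c0009000900080004000b0008000b00070007000500080005000e0008) (nat_lit 0x651005690000001) (nat_lit 16) Lb.e (@T16.mk En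
    (@En.n l36687 (nat_lit 2022) (nat_lit 5) (nat_lit 8))
    (@En.n l31285 (nat_lit 7701) (nat_lit 1) (nat_lit 14))
    (@En.n l12079 (nat_lit 1766) (nat_lit 2) (nat_lit 5))
    (@En.n l36688 (nat_lit 4944) (nat_lit 10) (nat_lit 8))
    (@En.n l36689 (nat_lit 6796) (nat_lit 4) (nat_lit 5))
    (@En.n l12589 (nat_lit 6933) (nat_lit 9) (nat_lit 7))
    (@En.n l12080 (nat_lit 9365) (nat_lit 6) (nat_lit 7))
    (@En.i (nat_lit 13488) (nat_lit 7) (nat_lit 11))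
    (@En.i (nat_lit 8495) (nat_lit 9) (nat_lit 8))
    (@En.n l12026 (nat_lit 6939) (nat_lit 10) (nat_lit 11))
    (@En.n l936 (nat_lit 6938) (nat_lit 10) (nat_lit 4))
    (@En.n l11836 (nat_lit 6918) (nat_lit 12) (nat_lit 8))
    (@En.n l36690 (nat_lit 2019) (nat_lit 7) (nat_lit 9))
    (@En.n l12602 (nat_lit 3345) (nat_lit 14) (nat_lit 9))
    (@En.n l420 (nat_lit 11260) (nat_lit 3) (nat_lit 12))
    (@En.n l17 (nat_lit 2025) (nat_lit 15) (nat_lit 2))))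
  (@Cl.mk (nat_lit 0x2000d000b000a0003000900070005000e00060002000e00070002000e0009) (nat_lit 0x8780600600b00b4) (nat_lit 16) Lb.e (@T16.mk En
    (@En.n l1175 (nat_lit 1687) (nat_lit 14) (nat_lit 9))
    (@En.n l5 (nat_lit 1788) (nat_lit 1) (nat_lit 14))
    (@En.n l50 (nat_lit 2026) (nat_lit 2) (nat_lit 2))
    (@En.i (nat_lit 1535) (nat_lit 14) (nat_lit 7))
    (@En.n l3897 (nat_lit 10800) (nat_lit 1) (nat_lit 14))
    (@En.n l28 (nat_lit 2026) (nat_lit 5) (nat_lit 2))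
    (@En.n l3898 (nat_lit 1534) (nat_lit 6) (nat_lit 6))
    (@En.n l1578 (nat_lit 1530) (nat_lit 1) (nat_lit 14))
    (@En.n l771 (nat_lit 8985) (nat_lit 8) (nat_lit 5))
    (@En.i (nat_lit 2384) (nat_lit 6) (nat_lit 7))
    (@En.n l771 (nat_lit 7412) (nat_lit 11) (nat_lit 9))
    (@En.i (nat_lit 1685) (nat_lit 11) (nat_lit 3))
    (@En.n l575 (nat_lit 2028) (nat_lit 0) (nat_lit 10))
    (@En.i (nat_lit 1867) (nat_lit 14) (nat_lit 11))
    (@En.i (nat_lit 1513) (nat_lit 12) (nat_lit 13))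
    (@En.n l17 (nat_lit 2026) (nat_lit 15) (nat_lit 2))))
  (@Cl.mk (nat_lit 0x200080006000d0005000e00030002000e00080002000e000a0002000e000b) (nat_lit 0x304080050054079) (nat_lit 16) Lb.e (@T16.mk En
    (@En.i (nat_lit 2035) (nat_lit 14) (nat_lit 11))
    (@En.i (nat_lit 1351) (nat_lit 1) (nat_lit 14))
    (@En.n l17 (nat_lit 2027) (nat_lit 2) (nat_lit 2))
    (@En.n l764 (nat_lit 2034) (nat_lit 3) (nat_lit 10))
    (@En.n l5 (nat_lit 1792) (nat_lit 1) (nat_lit 14))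
    (@En.n l50 (nat_lit 2027) (nat_lit 5) (nat_lit 2))
    (@En.i (nat_lit 2033) (nat_lit 6) (nat_lit 8))
    (@En.i (nat_lit 12551) (nat_lit 1) (nat_lit 14))
    (@En.n l28 (nat_lit 2027) (nat_lit 8) (nat_lit 2))
    (@En.i (nat_lit 2028) (nat_lit 9) (nat_lit 3))
    (@En.i (nat_lit 12906) (nat_lit 0) (nat_lit 14))
    (@En.i (nat_lit 2026) (nat_lit 8) (nat_lit 5))
    (@En.i (nat_lit 11065) (nat_lit 13) (nat_lit 13))
    (@En.i (nat_lit 3551) (nat_lit 14) (nat_lit 6))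
    (@En.n l872 (nat_lit 7409) (nat_lit 12) (nat_lit 8))
    (@En.n l3 (nat_lit 2027) (nat_lit 15) (nat_lit 2))))
  (@Cl.mk (nat_lit 0x200080006000d000d000600030003000e00080002000e000a0002000e000a) (nat_lit 0x3035000b00440a7) (nat_lit 16) Lb.e (@T16.mk En
    (@En.i (nat_lit 2032) (nat_lit 14) (nat_lit 10))
    (@En.i (nat_lit 1385) (nat_lit 1) (nat_lit 14))
    (@En.n l17 (nat_lit 2028) (nat_lit 2) (nat_lit 2))
    (@En.n l871 (nat_lit 2031) (nat_lit 3) (nat_lit 10))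
    (@En.n l5 (nat_lit 1796) (nat_lit 1) (nat_lit 14))
    (@En.n l50 (nat_lit 2028) (nat_lit 5) (nat_lit 2))
    (@En.i (nat_lit 2030) (nat_lit 6) (nat_lit 8))
    (@En.i (nat_lit 12552) (nat_lit 1) (nat_lit 14))
    (@En.n l714 (nat_lit 2029) (nat_lit 13) (nat_lit 3))
    (@En.n l11 (nat_lit 2027) (nat_lit 9) (nat_lit 3))
    (@En.n l872 (nat_lit 1529) (nat_lit 0) (nat_lit 6))
    (@En.n l55 (nat_lit 2027) (nat_lit 12) (nat_lit 13))
    (@En.i (nat_lit 12621) (nat_lit 13) (nat_lit 13))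
    (@En.n l59 (nat_lit 3552) (nat_lit 14) (nat_lit 6))
    (@En.n l58 (nat_lit 4615) (nat_lit 12) (nat_lit 8))
    (@En.n l3 (nat_lit 2028) (nat_lit 15) (nat_lit 2))))
  (@Cl.mk (nat_lit 0x200070003000e00080002000e000a0002000e0009000200080006000e000d) (nat_lit 0x200240b703024) (nat_lit 16) Lb.e (@T16.mk En
    (@En.n l19 (nat_lit 2028) (nat_lit 12) (nat_lit 13))
    (@En.n l238 (nat_lit 2117) (nat_lit 13) (nat_lit 14))
    (@En.n l346 (nat_lit 3553) (nat_lit 2) (nat_lit 6))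
    (@En.i (nat_lit 7402) (nat_lit 12) (nat_lit 8))
    (@En.n l12 (nat_lit 2029) (nat_lit 4) (nat_lit 2))
    (@En.n l79 (nat_lit 4143) (nat_lit 5) (nat_lit 9))
    (@En.n l124 (nat_lit 1384) (nat_lit 1) (nat_lit 14))
    (@En.n l3 (nat_lit 2029) (nat_lit 7) (nat_lit 2))
    (@En.n l347 (nat_lit 2911) (nat_lit 3) (nat_lit 10))
    (@En.n l348 (nat_lit 2154) (nat_lit 1) (nat_lit 14))
    (@En.n l18 (nat_lit 2029) (nat_lit 10) (nat_lit 2))
    (@En.n l349 (nat_lit 2036) (nat_lit 12) (nat_lit 8))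
    (@En.n l350 (nat_lit 2115) (nat_lit 1) (nat_lit 14))
    (@En.n l238 (nat_lit 2028) (nat_lit 8) (nat_lit 3))
    (@En.n l351 (nat_lit 1685) (nat_lit 6) (nat_lit 7))
    (@En.n l28 (nat_lit 2029) (nat_lit 15) (nat_lit 2))))
  (@Cl.mk (nat_lit 0x2000800080007000d000d00070003000300080008000e00090002000e0009) (nat_lit 0x540460006093056) (nat_lit 16) Lb.e (@T16.mk En
    (@En.i (nat_lit 2037) (nat_lit 14) (nat_lit 9))
    (@En.i (nat_lit 1352) (nat_lit 1) (nat_lit 14))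
    (@En.n l17 (nat_lit 2030) (nat_lit 2) (nat_lit 2))
    (@En.n l2849 (nat_lit 1897) (nat_lit 3) (nat_lit 9))
    (@En.n l5 (nat_lit 1798) (nat_lit 5) (nat_lit 14))
    (@En.n l564 (nat_lit 3666) (nat_lit 8) (nat_lit 8))
    (@En.n l2850 (nat_lit 7713) (nat_lit 6) (nat_lit 8))
    (@En.n l2851 (nat_lit 2036) (nat_lit 13) (nat_lit 3))
    (@En.n l11 (nat_lit 2033) (nat_lit 8) (nat_lit 3))
    (@En.i (nat_lit 1527) (nat_lit 0) (nat_lit 7))
    (@En.n l55 (nat_lit 2033) (nat_lit 11) (nat_lit 13))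
    (@En.n l564 (nat_lit 12617) (nat_lit 12) (nat_lit 13))
    (@En.n l217 (nat_lit 3226) (nat_lit 13) (nat_lit 7))
    (@En.n l644 (nat_lit 2028) (nat_lit 14) (nat_lit 8))
    (@En.n l615 (nat_lit 2145) (nat_lit 12) (nat_lit 8))
    (@En.n l3 (nat_lit 2030) (nat_lit 15) (nat_lit 2))))
  (@Cl.mk (nat_lit 0x2000700060006000d000d000700030003000e00090002000a000a000e0009) (nat_lit 0x4600031034a6) (nat_lit 16) Lb.e (@T16.mk En
    (@En.n l2754 (nat_lit 2915) (nat_lit 12) (nat_lit 9))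
    (@En.n l2755 (nat_lit 1237) (nat_lit 13) (nat_lit 14))
    (@En.n l2756 (nat_lit 2909) (nat_lit 2) (nat_lit 10))
    (@En.n l2757 (nat_lit 2928) (nat_lit 3) (nat_lit 10))
    (@En.n l7 (nat_lit 2031) (nat_lit 4) (nat_lit 2))
    (@En.n l2758 (nat_lit 1897) (nat_lit 5) (nat_lit 9))
    (@En.n l2759 (nat_lit 11355) (nat_lit 1) (nat_lit 14))
    (@En.n l2760 (nat_lit 2911) (nat_lit 7) (nat_lit 3))
    (@En.n l1253 (nat_lit 2034) (nat_lit 8) (nat_lit 3))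
    (@En.n l2761 (nat_lit 1686) (nat_lit 0) (nat_lit 7))
    (@En.n l1722 (nat_lit 2034) (nat_lit 11) (nat_lit 13))
    (@En.n l766 (nat_lit 7996) (nat_lit 12) (nat_lit 13))
    (@En.n l2762 (nat_lit 2028) (nat_lit 13) (nat_lit 6))
    (@En.i (nat_lit 3549) (nat_lit 14) (nat_lit 6))
    (@En.n l2763 (nat_lit 7382) (nat_lit 5) (nat_lit 7))
    (@En.n l3 (nat_lit 2031) (nat_lit 15) (nat_lit 2))))
noncomputable def a127 : T16 Cl := @T16.mk Cl
  (@Cl.mk (nat_lit 0x2000a000a00070005000c000c0006000600040004000e00090002000e000b) (nat_lit 0x6700340000b0044) (nat_lit 16) Lb.e (@T16.mk En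
    (@En.i (nat_lit 2915) (nat_lit 14) (nat_lit 11))
    (@En.n l5 (nat_lit 2461) (nat_lit 1) (nat_lit 14))
    (@En.n l50 (nat_lit 2032) (nat_lit 2) (nat_lit 2))
    (@En.i (nat_lit 2037) (nat_lit 3) (nat_lit 9))
    (@En.n l2496 (nat_lit 12549) (nat_lit 1) (nat_lit 14))
    (@En.n l1282 (nat_lit 4143) (nat_lit 12) (nat_lit 4))
    (@En.n l11 (nat_lit 3949) (nat_lit 6) (nat_lit 4))
    (@En.n l152 (nat_lit 2028) (nat_lit 10) (nat_lit 6))
    (@En.n l936 (nat_lit 3951) (nat_lit 8) (nat_lit 6))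
    (@En.n l55 (nat_lit 2035) (nat_lit 10) (nat_lit 12))
    (@En.i (nat_lit 11062) (nat_lit 11) (nat_lit 12))
    (@En.i (nat_lit 3562) (nat_lit 8) (nat_lit 5))
    (@En.n l1262 (nat_lit 8325) (nat_lit 13) (nat_lit 7))
    (@En.n l1967 (nat_lit 4141) (nat_lit 6) (nat_lit 10))
    (@En.n l2848 (nat_lit 8221) (nat_lit 12) (nat_lit 10))
    (@En.n l17 (nat_lit 2032) (nat_lit 15) (nat_lit 2))))
  (@Cl.mk (nat_lit 0x2000800080007000d0006000e0003000200080008000e00090002000e000a) (nat_lit 0x540506006043058) (nat_lit 16) Lb.e (@T16.mk En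
    (@En.i (nat_lit 2038) (nat_lit 9) (nat_lit 10))
    (@En.i (nat_lit 1349) (nat_lit 1) (nat_lit 14))
    (@En.n l17 (nat_lit 2033) (nat_lit 2) (nat_lit 2))
    (@En.i (nat_lit 1894) (nat_lit 3) (nat_lit 9))
    (@En.n l5 (nat_lit 1795) (nat_lit 5) (nat_lit 14))
    (@En.n l564 (nat_lit 3667) (nat_lit 8) (nat_lit 8))
    (@En.n l3506 (nat_lit 7717) (nat_lit 6) (nat_lit 8))
    (@En.n l28 (nat_lit 2033) (nat_lit 7) (nat_lit 2))
    (@En.i (nat_lit 2030) (nat_lit 8) (nat_lit 3))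
    (@En.n l1267 (nat_lit 12905) (nat_lit 0) (nat_lit 14))
    (@En.i (nat_lit 1535) (nat_lit 2) (nat_lit 6))
    (@En.n l564 (nat_lit 12616) (nat_lit 12) (nat_lit 13))
    (@En.n l217 (nat_lit 3228) (nat_lit 4) (nat_lit 7))
    (@En.n l644 (nat_lit 2027) (nat_lit 14) (nat_lit 8))
    (@En.i (nat_lit 2144) (nat_lit 12) (nat_lit 8))
    (@En.n l3 (nat_lit 2033) (nat_lit 15) (nat_lit 2))))
  (@Cl.mk (nat_lit 0x2000700060006000d0006000e00030002000e00090002000a000a000e000a) (nat_lit 0x506006103267) (nat_lit 16) Lb.e (@T16.mk En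
    (@En.n l2348 (nat_lit 2039) (nat_lit 12) (nat_lit 10))
    (@En.n l6444 (nat_lit 1831) (nat_lit 13) (nat_lit 14))
    (@En.n l1353 (nat_lit 3426) (nat_lit 2) (nat_lit 10))
    (@En.n l1784 (nat_lit 2930) (nat_lit 3) (nat_lit 10))
    (@En.n l50 (nat_lit 2034) (nat_lit 4) (nat_lit 2))
    (@En.n l2348 (nat_lit 1894) (nat_lit 5) (nat_lit 9))
    (@En.i (nat_lit 11342) (nat_lit 1) (nat_lit 14))
    (@En.n l28 (nat_lit 2034) (nat_lit 7) (nat_lit 2))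
    (@En.n l287 (nat_lit 2031) (nat_lit 8) (nat_lit 3))
    (@En.i (nat_lit 12908) (nat_lit 0) (nat_lit 14))
    (@En.n l2434 (nat_lit 1687) (nat_lit 5) (nat_lit 6))
    (@En.i (nat_lit 7994) (nat_lit 12) (nat_lit 13))
    (@En.n l2345 (nat_lit 2027) (nat_lit 13) (nat_lit 6))
    (@En.i (nat_lit 3546) (nat_lit 14) (nat_lit 6))
    (@En.n l7642 (nat_lit 7384) (nat_lit 6) (nat_lit 7))
    (@En.n l3 (nat_lit 2034) (nat_lit 15) (nat_lit 2))))
  (@Cl.mk (nat_lit 0x2000b000b00070005000c00050005000e00040002000e00090002000e000b) (nat_lit 0x870030080000050) (nat_lit 16) Lb.e (@T16.mk En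
    (@En.i (nat_lit 2039) (nat_lit 14) (nat_lit 11))
    (@En.n l5 (nat_lit 2463) (nat_lit 1) (nat_lit 14))
    (@En.n l50 (nat_lit 2035) (nat_lit 2) (nat_lit 2))
    (@En.i (nat_lit 2038) (nat_lit 14) (nat_lit 9))
    (@En.i (nat_lit 11343) (nat_lit 1) (nat_lit 14))
    (@En.n l28 (nat_lit 2035) (nat_lit 5) (nat_lit 2))
    (@En.i (nat_lit 2032) (nat_lit 6) (nat_lit 4))
    (@En.n l1262 (nat_lit 3721) (nat_lit 1) (nat_lit 14))
    (@En.n l152 (nat_lit 2027) (nat_lit 11) (nat_lit 5))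
    (@En.i (nat_lit 1867) (nat_lit 9) (nat_lit 5))
    (@En.i (nat_lit 11060) (nat_lit 11) (nat_lit 12))
    (@En.i (nat_lit 4034) (nat_lit 8) (nat_lit 5))
    (@En.n l1262 (nat_lit 8323) (nat_lit 13) (nat_lit 7))
    (@En.n l5746 (nat_lit 4144) (nat_lit 14) (nat_lit 11))
    (@En.i (nat_lit 8217) (nat_lit 12) (nat_lit 11))
    (@En.n l17 (nat_lit 2035) (nat_lit 15) (nat_lit 2))))
  (@Cl.mk (nat_lit 0x20008000300080008000e00090002000e00080002000800080007000e000d) (nat_lit 0x106093086004045) (nat_lit 16) Lb.e (@T16.mk En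
    (@En.n l1261 (nat_lit 2030) (nat_lit 11) (nat_lit 13))
    (@En.i (nat_lit 4895) (nat_lit 12) (nat_lit 14))
    (@En.n l1262 (nat_lit 3224) (nat_lit 2) (nat_lit 7))
    (@En.n l1263 (nat_lit 2029) (nat_lit 3) (nat_lit 8))
    (@En.n l1264 (nat_lit 2195) (nat_lit 12) (nat_lit 8))
    (@En.n l17 (nat_lit 2036) (nat_lit 5) (nat_lit 2))
    (@En.n l1265 (nat_lit 3664) (nat_lit 6) (nat_lit 8))
    (@En.n l1266 (nat_lit 1282) (nat_lit 1) (nat_lit 14))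
    (@En.n l50 (nat_lit 2036) (nat_lit 8) (nat_lit 2))
    (@En.n l1267 (nat_lit 2919) (nat_lit 3) (nat_lit 9))
    (@En.n l476 (nat_lit 2155) (nat_lit 11) (nat_lit 14))
    (@En.n l152 (nat_lit 3665) (nat_lit 8) (nat_lit 8))
    (@En.i (nat_lit 5711) (nat_lit 6) (nat_lit 8))
    (@En.n l1268 (nat_lit 2030) (nat_lit 7) (nat_lit 3))
    (@En.n l1269 (nat_lit 1505) (nat_lit 0) (nat_lit 8))
    (@En.n l11 (nat_lit 2036) (nat_lit 15) (nat_lit 2))))
  (@Cl.mk (nat_lit 0x200090009000700070006000c000c000700070004000400090009000e000a) (nat_lit 0x560000000007033) (nat_lit 16) Lb.e (@T16.mk En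
    (@En.n l8055 (nat_lit 2918) (nat_lit 11) (nat_lit 10))
    (@En.n l5 (nat_lit 2838) (nat_lit 1) (nat_lit 14))
    (@En.i (nat_lit 3025) (nat_lit 7) (nat_lit 9))
    (@En.n l8307 (nat_lit 7711) (nat_lit 3) (nat_lit 9))
    (@En.n l1282 (nat_lit 3664) (nat_lit 12) (nat_lit 4))
    (@En.n l11 (nat_lit 3957) (nat_lit 5) (nat_lit 4))
    (@En.n l152 (nat_lit 2030) (nat_lit 9) (nat_lit 7))
    (@En.n l936 (nat_lit 4210) (nat_lit 7) (nat_lit 7))
    (@En.n l55 (nat_lit 2038) (nat_lit 4) (nat_lit 12))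
    (@En.i (nat_lit 11553) (nat_lit 10) (nat_lit 12))
    (@En.n l217 (nat_lit 3240) (nat_lit 10) (nat_lit 6))
    (@En.n l644 (nat_lit 2032) (nat_lit 12) (nat_lit 7))
    (@En.n l8305 (nat_lit 6996) (nat_lit 13) (nat_lit 7))
    (@En.n l4003 (nat_lit 2971) (nat_lit 7) (nat_lit 9))
    (@En.i (nat_lit 8224) (nat_lit 9) (nat_lit 9))
    (@En.n l17 (nat_lit 2037) (nat_lit 15) (nat_lit 2))))
  (@Cl.mk (nat_lit 0x200090009000e000a0002000a000a000700070006000c00060006000e0004) (nat_lit 0x7043076000a0090) (nat_lit 16) Lb.e (@T16.mk En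
    (@En.i (nat_lit 2037) (nat_lit 5) (nat_lit 4))
    (@En.n l5643 (nat_lit 2079) (nat_lit 1) (nat_lit 14))
    (@En.n l152 (nat_lit 2033) (nat_lit 10) (nat_lit 6))
    (@En.i (nat_lit 1860) (nat_lit 3) (nat_lit 6))
    (@En.i (nat_lit 11064) (nat_lit 10) (nat_lit 12))
    (@En.n l217 (nat_lit 2878) (nat_lit 5) (nat_lit 6))
    (@En.n l644 (nat_lit 2035) (nat_lit 12) (nat_lit 7))
    (@En.n l3428 (nat_lit 6890) (nat_lit 7) (nat_lit 7))
    (@En.n l4003 (nat_lit 2977) (nat_lit 14) (nat_lit 10))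
    (@En.i (nat_lit 8220) (nat_lit 10) (nat_lit 10))
    (@En.n l17 (nat_lit 2038) (nat_lit 10) (nat_lit 2))
    (@En.n l18567 (nat_lit 2978) (nat_lit 12) (nat_lit 10))
    (@En.n l5 (nat_lit 2533) (nat_lit 13) (nat_lit 14))
    (@En.i (nat_lit 2984) (nat_lit 7) (nat_lit 9))
    (@En.n l3506 (nat_lit 7714) (nat_lit 3) (nat_lit 9))
    (@En.n l28 (nat_lit 2038) (nat_lit 15) (nat_lit 2))))
  (@Cl.mk (nat_lit 0x2000b000b000a000a000600050005000c00060006000e00040002000e000a) (nat_lit 0x906600050080000) (nat_lit 16) Lb.e (@T16.mk En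
    (@En.n l18567 (nat_lit 2978) (nat_lit 14) (nat_lit 10))
    (@En.n l17547 (nat_lit 11337) (nat_lit 1) (nat_lit 14))
    (@En.n l28 (nat_lit 2039) (nat_lit 2) (nat_lit 2))
    (@En.i (nat_lit 2915) (nat_lit 3) (nat_lit 4))
    (@En.n l7864 (nat_lit 3271) (nat_lit 1) (nat_lit 14))
    (@En.n l6998 (nat_lit 2034) (nat_lit 10) (nat_lit 6))
    (@En.n l4920 (nat_lit 1870) (nat_lit 6) (nat_lit 6))
    (@En.n l764 (nat_lit 7992) (nat_lit 8) (nat_lit 12))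
    (@En.n l61 (nat_lit 2035) (nat_lit 11) (nat_lit 5))
    (@En.n l1545 (nat_lit 3656) (nat_lit 9) (nat_lit 5))
    (@En.n l7864 (nat_lit 8316) (nat_lit 7) (nat_lit 6))
    (@En.n l18568 (nat_lit 2976) (nat_lit 12) (nat_lit 10))
    (@En.n l7867 (nat_lit 4617) (nat_lit 13) (nat_lit 10))
    (@En.n l18569 (nat_lit 2920) (nat_lit 14) (nat_lit 11))
    (@En.n l18570 (nat_lit 2524) (nat_lit 12) (nat_lit 11))
    (@En.n l50 (nat_lit 2039) (nat_lit 15) (nat_lit 2))))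
  (@Cl.mk (nat_lit 0x2000700070007000d000d000700030003000c0009000900090004000e0009) (nat_lit 0x340006671066) (nat_lit 16) Lb.e (@T16.mk En
    (@En.i (nat_lit 2460) (nat_lit 8) (nat_lit 9))
    (@En.n l6258 (nat_lit 1897) (nat_lit 1) (nat_lit 14))
    (@En.n l6127 (nat_lit 761) (nat_lit 2) (nat_lit 4))
    (@En.n l6259 (nat_lit 1728) (nat_lit 3) (nat_lit 9))
    (@En.n l6260 (nat_lit 2048) (nat_lit 7) (nat_lit 9))
    (@En.n l4638 (nat_lit 1800) (nat_lit 5) (nat_lit 9))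
    (@En.n l6095 (nat_lit 1416) (nat_lit 7) (nat_lit 12))
    (@En.n l971 (nat_lit 2152) (nat_lit 7) (nat_lit 3))
    (@En.n l11 (nat_lit 2041) (nat_lit 8) (nat_lit 3))
    (@En.n l5613 (nat_lit 1415) (nat_lit 0) (nat_lit 7))
    (@En.n l55 (nat_lit 2041) (nat_lit 11) (nat_lit 13))
    (@En.n l6127 (nat_lit 12398) (nat_lit 12) (nat_lit 13))
    (@En.n l217 (nat_lit 1796) (nat_lit 9) (nat_lit 7))
    (@En.n l6261 (nat_lit 765) (nat_lit 14) (nat_lit 7))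
    (@En.n l6262 (nat_lit 4606) (nat_lit 5) (nat_lit 7))
    (@En.n l3 (nat_lit 2040) (nat_lit 15) (nat_lit 2))))
  (@Cl.mk (nat_lit 0x2000700070007000d0006000e00030002000c0009000900090004000e000a) (nat_lit 0x304006671068) (nat_lit 16) Lb.e (@T16.mk En
    (@En.i (nat_lit 2052) (nat_lit 9) (nat_lit 10))
    (@En.n l387 (nat_lit 1894) (nat_lit 1) (nat_lit 14))
    (@En.n l6127 (nat_lit 2043) (nat_lit 2) (nat_lit 4))
    (@En.n l15206 (nat_lit 1729) (nat_lit 3) (nat_lit 9))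
    (@En.n l15207 (nat_lit 2046) (nat_lit 7) (nat_lit 9))
    (@En.i (nat_lit 1799) (nat_lit 5) (nat_lit 9))
    (@En.n l15208 (nat_lit 956) (nat_lit 7) (nat_lit 12))
    (@En.n l28 (nat_lit 2041) (nat_lit 7) (nat_lit 2))
    (@En.i (nat_lit 2040) (nat_lit 8) (nat_lit 3))
    (@En.n l210 (nat_lit 12902) (nat_lit 0) (nat_lit 14))
    (@En.i (nat_lit 1414) (nat_lit 2) (nat_lit 6))
    (@En.n l6127 (nat_lit 12494) (nat_lit 12) (nat_lit 13))
    (@En.n l217 (nat_lit 1792) (nat_lit 9) (nat_lit 7))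
    (@En.n l14624 (nat_lit 2042) (nat_lit 14) (nat_lit 7))
    (@En.n l6262 (nat_lit 4605) (nat_lit 6) (nat_lit 7))
    (@En.n l3 (nat_lit 2041) (nat_lit 15) (nat_lit 2))))
  (@Cl.mk (nat_lit 0x200070006000d0005000e00030002000b000e00090002000a0005000e000b) (nat_lit 0x5060066703087) (nat_lit 16) Lb.e (@T16.mk En
    (@En.i (nat_lit 2516) (nat_lit 12) (nat_lit 11))
    (@En.n l2369 (nat_lit 3219) (nat_lit 1) (nat_lit 14))
    (@En.n l699 (nat_lit 2044) (nat_lit 14) (nat_lit 5))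
    (@En.n l11611 (nat_lit 2043) (nat_lit 3) (nat_lit 10))
    (@En.n l18 (nat_lit 2042) (nat_lit 4) (nat_lit 2))
    (@En.n l1063 (nat_lit 2041) (nat_lit 5) (nat_lit 9))
    (@En.n l1063 (nat_lit 2027) (nat_lit 7) (nat_lit 14))
    (@En.n l1998 (nat_lit 957) (nat_lit 8) (nat_lit 11))
    (@En.n l28 (nat_lit 2042) (nat_lit 8) (nat_lit 2))
    (@En.n l14412 (nat_lit 765) (nat_lit 9) (nat_lit 3))
    (@En.n l1997 (nat_lit 12932) (nat_lit 0) (nat_lit 14))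
    (@En.i (nat_lit 1748) (nat_lit 6) (nat_lit 5))
    (@En.n l14413 (nat_lit 12751) (nat_lit 8) (nat_lit 13))
    (@En.i (nat_lit 780) (nat_lit 14) (nat_lit 6))
    (@En.n l14414 (nat_lit 4342) (nat_lit 5) (nat_lit 7))
    (@En.n l3 (nat_lit 2042) (nat_lit 15) (nat_lit 2))))
  (@Cl.mk (nat_lit 0x2000600060009000d0006000e00030002000c0007000a000a0004000e000a) (nat_lit 0x606008072076) (nat_lit 16) Lb.e (@T16.mk En
    (@En.n l12527 (nat_lit 2053) (nat_lit 9) (nat_lit 10))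
    (@En.n l18 (nat_lit 2004) (nat_lit 1) (nat_lit 14))
    (@En.n l12527 (nat_lit 1794) (nat_lit 2) (nat_lit 4))
    (@En.n l61 (nat_lit 2045) (nat_lit 6) (nat_lit 10))
    (@En.n l1353 (nat_lit 1729) (nat_lit 4) (nat_lit 10))
    (@En.i (nat_lit 2930) (nat_lit 5) (nat_lit 7))
    (@En.i (nat_lit 1430) (nat_lit 7) (nat_lit 12))
    (@En.n l28 (nat_lit 2043) (nat_lit 7) (nat_lit 2))
    (@En.i (nat_lit 761) (nat_lit 8) (nat_lit 3))
    (@En.i (nat_lit 12926) (nat_lit 0) (nat_lit 14))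
    (@En.i (nat_lit 1721) (nat_lit 2) (nat_lit 6))
    (@En.i (nat_lit 12484) (nat_lit 12) (nat_lit 13))
    (@En.n l12529 (nat_lit 2044) (nat_lit 9) (nat_lit 9))
    (@En.n l6147 (nat_lit 2044) (nat_lit 10) (nat_lit 6))
    (@En.n l6081 (nat_lit 4346) (nat_lit 6) (nat_lit 6))
    (@En.n l3 (nat_lit 2043) (nat_lit 15) (nat_lit 2))))
  (@Cl.mk (nat_lit 0x20005000e000b000200060009000d0005000e00030002000b0007000e000a) (nat_lit 0x88007505007078) (nat_lit 16) Lb.e (@T16.mk En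
    (@En.n l10916 (nat_lit 2043) (nat_lit 4) (nat_lit 10))
    (@En.n l5 (nat_lit 2042) (nat_lit 6) (nat_lit 14))
    (@En.n l564 (nat_lit 2936) (nat_lit 6) (nat_lit 7))
    (@En.i (nat_lit 1429) (nat_lit 3) (nat_lit 11))
    (@En.n l28 (nat_lit 2044) (nat_lit 4) (nat_lit 2))
    (@En.n l287 (nat_lit 762) (nat_lit 5) (nat_lit 3))
    (@En.n l1997 (nat_lit 12927) (nat_lit 0) (nat_lit 14))
    (@En.i (nat_lit 1449) (nat_lit 7) (nat_lit 5))
    (@En.n l11611 (nat_lit 9221) (nat_lit 9) (nat_lit 13))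
    (@En.i (nat_lit 13919) (nat_lit 9) (nat_lit 9))
    (@En.n l1643 (nat_lit 4344) (nat_lit 5) (nat_lit 6))
    (@En.n l3 (nat_lit 2044) (nat_lit 11) (nat_lit 2))
    (@En.i (nat_lit 2517) (nat_lit 13) (nat_lit 11))
    (@En.n l3178 (nat_lit 2011) (nat_lit 1) (nat_lit 14))
    (@En.i (nat_lit 1791) (nat_lit 2) (nat_lit 5))
    (@En.n l17 (nat_lit 2044) (nat_lit 15) (nat_lit 2))))
  (@Cl.mk (nat_lit 0x20009000d0007000e00030002000d0007000a0003000e00090002000e0006) (nat_lit 0x150800901067060) (nat_lit 16) Lb.e (@T16.mk En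
    (@En.i (nat_lit 2043) (nat_lit 14) (nat_lit 6))
    (@En.n l1531 (nat_lit 7446) (nat_lit 1) (nat_lit 14))
    (@En.n l3 (nat_lit 2045) (nat_lit 2) (nat_lit 2))
    (@En.n l1532 (nat_lit 2051) (nat_lit 3) (nat_lit 9))
    (@En.n l11275 (nat_lit 2006) (nat_lit 1) (nat_lit 14))
    (@En.i (nat_lit 2046) (nat_lit 5) (nat_lit 3))
    (@En.i (nat_lit 1834) (nat_lit 3) (nat_lit 10))
    (@En.i (nat_lit 2929) (nat_lit 14) (nat_lit 7))
    (@En.i (nat_lit 1395) (nat_lit 9) (nat_lit 13))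
    (@En.n l28 (nat_lit 2045) (nat_lit 9) (nat_lit 2))
    (@En.i (nat_lit 2047) (nat_lit 10) (nat_lit 3))
    (@En.i (nat_lit 12928) (nat_lit 0) (nat_lit 14))
    (@En.i (nat_lit 1720) (nat_lit 13) (nat_lit 7))
    (@En.i (nat_lit 12399) (nat_lit 14) (nat_lit 13))
    (@En.n l617 (nat_lit 2043) (nat_lit 12) (nat_lit 9))
    (@En.n l17 (nat_lit 2045) (nat_lit 15) (nat_lit 2))))
  (@Cl.mk (nat_lit 0x20008000d0007000e00030002000d000900080003000e00090002000e0007) (nat_lit 0x460800761057080) (nat_lit 16) Lb.e (@T16.mk En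
    (@En.n l18710 (nat_lit 2041) (nat_lit 14) (nat_lit 7))
    (@En.n l1531 (nat_lit 7447) (nat_lit 1) (nat_lit 14))
    (@En.n l3 (nat_lit 2046) (nat_lit 2) (nat_lit 2))
    (@En.n l1532 (nat_lit 2559) (nat_lit 3) (nat_lit 9))
    (@En.n l18950 (nat_lit 2924) (nat_lit 1) (nat_lit 14))
    (@En.n l50 (nat_lit 2045) (nat_lit 5) (nat_lit 3))
    (@En.n l8669 (nat_lit 1839) (nat_lit 6) (nat_lit 8))
    (@En.i (nat_lit 1826) (nat_lit 14) (nat_lit 9))
    (@En.n l3327 (nat_lit 1540) (nat_lit 9) (nat_lit 13))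
    (@En.n l28 (nat_lit 2046) (nat_lit 9) (nat_lit 2))
    (@En.n l1029 (nat_lit 2048) (nat_lit 10) (nat_lit 3))
    (@En.n l11857 (nat_lit 12946) (nat_lit 0) (nat_lit 14))
    (@En.n l12740 (nat_lit 1719) (nat_lit 13) (nat_lit 7))
    (@En.i (nat_lit 10124) (nat_lit 14) (nat_lit 13))
    (@En.n l18951 (nat_lit 1794) (nat_lit 12) (nat_lit 8))
    (@En.n l17 (nat_lit 2046) (nat_lit 15) (nat_lit 2))))
  (@Cl.mk (nat_lit 0x20009000d000d000800030003000d0007000a0003000e00080002000e0006) (nat_lit 0x166200908055080) (nat_lit 16) Lb.e (@T16.mk En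
    (@En.i (nat_lit 761) (nat_lit 14) (nat_lit 6))
    (@En.n l1531 (nat_lit 7445) (nat_lit 1) (nat_lit 14))
    (@En.n l3 (nat_lit 2047) (nat_lit 2) (nat_lit 2))
    (@En.n l1532 (nat_lit 2055) (nat_lit 3) (nat_lit 8))
    (@En.n l26060 (nat_lit 2005) (nat_lit 1) (nat_lit 14))
    (@En.n l1029 (nat_lit 2048) (nat_lit 5) (nat_lit 3))
    (@En.n l10274 (nat_lit 1833) (nat_lit 3) (nat_lit 10))
    (@En.n l8104 (nat_lit 2927) (nat_lit 7) (nat_lit 7))
    (@En.i (nat_lit 1539) (nat_lit 9) (nat_lit 13))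
    (@En.n l7208 (nat_lit 2054) (nat_lit 13) (nat_lit 3))
    (@En.n l11 (nat_lit 2045) (nat_lit 10) (nat_lit 3))
    (@En.n l3621 (nat_lit 1537) (nat_lit 0) (nat_lit 8))
    (@En.n l55 (nat_lit 2045) (nat_lit 13) (nat_lit 13))
    (@En.i (nat_lit 12395) (nat_lit 14) (nat_lit 13))
    (@En.n l617 (nat_lit 761) (nat_lit 12) (nat_lit 9))
    (@En.n l17 (nat_lit 2047) (nat_lit 15) (nat_lit 2))))
noncomputable def a128 : T16 Cl := @T16.mk Cl
  (@Cl.mk (nat_lit 0x20008000d000d000800030003000d000900080003000e00080002000e0007) (nat_lit 0x457100961055040) (nat_lit 16) Lb.e (@T16.mk En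
    (@En.n l15279 (nat_lit 2040) (nat_lit 14) (nat_lit 7))
    (@En.n l14754 (nat_lit 3535) (nat_lit 1) (nat_lit 14))
    (@En.n l3 (nat_lit 2048) (nat_lit 2) (nat_lit 2))
    (@En.n l6072 (nat_lit 2050) (nat_lit 3) (nat_lit 8))
    (@En.n l2964 (nat_lit 2923) (nat_lit 1) (nat_lit 14))
    (@En.n l9812 (nat_lit 2047) (nat_lit 5) (nat_lit 3))
    (@En.i (nat_lit 1838) (nat_lit 6) (nat_lit 8))
    (@En.n l2964 (nat_lit 1827) (nat_lit 4) (nat_lit 9))
    (@En.n l6263 (nat_lit 1538) (nat_lit 9) (nat_lit 13))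
    (@En.n l3642 (nat_lit 2049) (nat_lit 9) (nat_lit 3))
    (@En.n l15280 (nat_lit 2046) (nat_lit 10) (nat_lit 3))
    (@En.n l1347 (nat_lit 1390) (nat_lit 0) (nat_lit 8))
    (@En.n l15281 (nat_lit 2046) (nat_lit 13) (nat_lit 13))
    (@En.i (nat_lit 12394) (nat_lit 14) (nat_lit 13))
    (@En.n l15282 (nat_lit 1797) (nat_lit 12) (nat_lit 8))
    (@En.n l11 (nat_lit 2048) (nat_lit 15) (nat_lit 2))))
  (@Cl.mk (nat_lit 0x20008000e000d000200090003000d000900080003000e00070002000e0007) (nat_lit 0x566030601070040) (nat_lit 16) Lb.e (@T16.mk En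
    (@En.n l1624 (nat_lit 2152) (nat_lit 14) (nat_lit 7))
    (@En.n l1872 (nat_lit 7697) (nat_lit 1) (nat_lit 14))
    (@En.n l50 (nat_lit 2049) (nat_lit 2) (nat_lit 2))
    (@En.i (nat_lit 2057) (nat_lit 3) (nat_lit 7))
    (@En.n l1883 (nat_lit 2922) (nat_lit 1) (nat_lit 14))
    (@En.n l28 (nat_lit 2054) (nat_lit 9) (nat_lit 3))
    (@En.n l1882 (nat_lit 1840) (nat_lit 6) (nat_lit 8))
    (@En.n l1883 (nat_lit 2768) (nat_lit 12) (nat_lit 9))
    (@En.n l1882 (nat_lit 1698) (nat_lit 13) (nat_lit 13))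
    (@En.n l1393 (nat_lit 2048) (nat_lit 9) (nat_lit 3))
    (@En.n l4306 (nat_lit 1718) (nat_lit 11) (nat_lit 9))
    (@En.n l3 (nat_lit 2049) (nat_lit 11) (nat_lit 2))
    (@En.n l4228 (nat_lit 2048) (nat_lit 13) (nat_lit 13))
    (@En.i (nat_lit 12387) (nat_lit 1) (nat_lit 14))
    (@En.n l5119 (nat_lit 2153) (nat_lit 12) (nat_lit 8))
    (@En.n l17 (nat_lit 2049) (nat_lit 15) (nat_lit 2))))
  (@Cl.mk (nat_lit 0x20007000c000c0008000800040004000d000a0009000300080008000e0006) (nat_lit 0x472200a0004230) (nat_lit 16) Lb.e (@T16.mk En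
    (@En.n l6166 (nat_lit 2460) (nat_lit 6) (nat_lit 6))
    (@En.i (nat_lit 8678) (nat_lit 1) (nat_lit 14))
    (@En.n l5579 (nat_lit 2063) (nat_lit 8) (nat_lit 8))
    (@En.n l6167 (nat_lit 2314) (nat_lit 3) (nat_lit 8))
    (@En.n l50 (nat_lit 2055) (nat_lit 4) (nat_lit 3))
    (@En.n l2848 (nat_lit 2563) (nat_lit 5) (nat_lit 9))
    (@En.n l217 (nat_lit 2798) (nat_lit 7) (nat_lit 10))
    (@En.n l6168 (nat_lit 1415) (nat_lit 8) (nat_lit 13))
    (@En.n l6169 (nat_lit 2057) (nat_lit 8) (nat_lit 4))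
    (@En.n l1964 (nat_lit 2288) (nat_lit 9) (nat_lit 4))
    (@En.n l6170 (nat_lit 2048) (nat_lit 11) (nat_lit 8))
    (@En.n l936 (nat_lit 2586) (nat_lit 12) (nat_lit 8))
    (@En.n l55 (nat_lit 2559) (nat_lit 13) (nat_lit 12))
    (@En.i (nat_lit 12113) (nat_lit 14) (nat_lit 12))
    (@En.n l6171 (nat_lit 2437) (nat_lit 4) (nat_lit 7))
    (@En.n l17 (nat_lit 2050) (nat_lit 15) (nat_lit 2))))
  (@Cl.mk (nat_lit 0x20008000c00070007000e00040002000d0008000b000300090009000e0005) (nat_lit 0x400800a5006250) (nat_lit 16) Lb.e (@T16.mk En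
    (@En.n l12306 (nat_lit 2053) (nat_lit 7) (nat_lit 5))
    (@En.i (nat_lit 7449) (nat_lit 1) (nat_lit 14))
    (@En.n l1867 (nat_lit 2062) (nat_lit 2) (nat_lit 9))
    (@En.i (nat_lit 7897) (nat_lit 11) (nat_lit 9))
    (@En.i (nat_lit 2559) (nat_lit 4) (nat_lit 3))
    (@En.n l3082 (nat_lit 3538) (nat_lit 0) (nat_lit 11))
    (@En.n l28784 (nat_lit 2935) (nat_lit 6) (nat_lit 8))
    (@En.i (nat_lit 1485) (nat_lit 8) (nat_lit 13))
    (@En.n l28 (nat_lit 2051) (nat_lit 8) (nat_lit 2))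
    (@En.i (nat_lit 2055) (nat_lit 9) (nat_lit 4))
    (@En.n l2038 (nat_lit 1849) (nat_lit 11) (nat_lit 14))
    (@En.n l1900 (nat_lit 2045) (nat_lit 12) (nat_lit 7))
    (@En.i (nat_lit 2002) (nat_lit 13) (nat_lit 7))
    (@En.i (nat_lit 12488) (nat_lit 14) (nat_lit 12))
    (@En.n l12308 (nat_lit 2053) (nat_lit 5) (nat_lit 8))
    (@En.n l17 (nat_lit 2051) (nat_lit 15) (nat_lit 2))))
  (@Cl.mk (nat_lit 0x2000c000a000a000a0004000a000a000600060006000c00060006000e0004) (nat_lit 0x770007200050070) (nat_lit 16) Lb.e (@T16.mk En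
    (@En.i (nat_lit 2460) (nat_lit 15) (nat_lit 4))
    (@En.n l8368 (nat_lit 2142) (nat_lit 1) (nat_lit 14))
    (@En.n l152 (nat_lit 2041) (nat_lit 10) (nat_lit 6))
    (@En.n l6220 (nat_lit 1771) (nat_lit 3) (nat_lit 6))
    (@En.n l6216 (nat_lit 12450) (nat_lit 5) (nat_lit 12))
    (@En.n l217 (nat_lit 2463) (nat_lit 10) (nat_lit 6))
    (@En.n l14624 (nat_lit 2516) (nat_lit 10) (nat_lit 6))
    (@En.n l8368 (nat_lit 8201) (nat_lit 7) (nat_lit 6))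
    (@En.n l6219 (nat_lit 2490) (nat_lit 9) (nat_lit 10))
    (@En.n l6220 (nat_lit 6887) (nat_lit 10) (nat_lit 10))
    (@En.n l2114 (nat_lit 2053) (nat_lit 10) (nat_lit 4))
    (@En.n l14625 (nat_lit 2433) (nat_lit 6) (nat_lit 10))
    (@En.n l6222 (nat_lit 2559) (nat_lit 6) (nat_lit 10))
    (@En.i (nat_lit 2167) (nat_lit 14) (nat_lit 10))
    (@En.n l6220 (nat_lit 955) (nat_lit 3) (nat_lit 12))
    (@En.n l28 (nat_lit 2052) (nat_lit 15) (nat_lit 2))))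
  (@Cl.mk (nat_lit 0x2000c0008000b000b0004000a000a000500050008000c00060006000e0004) (nat_lit 0x958105200650080) (nat_lit 16) Lb.e (@T16.mk En
    (@En.i (nat_lit 759) (nat_lit 15) (nat_lit 4))
    (@En.n l28785 (nat_lit 1850) (nat_lit 1) (nat_lit 14))
    (@En.n l15252 (nat_lit 2043) (nat_lit 10) (nat_lit 6))
    (@En.i (nat_lit 1464) (nat_lit 3) (nat_lit 6))
    (@En.n l15253 (nat_lit 12449) (nat_lit 7) (nat_lit 12))
    (@En.n l18 (nat_lit 2517) (nat_lit 10) (nat_lit 8))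
    (@En.n l61 (nat_lit 2517) (nat_lit 11) (nat_lit 5))
    (@En.n l7681 (nat_lit 8116) (nat_lit 7) (nat_lit 5))
    (@En.n l1867 (nat_lit 2065) (nat_lit 9) (nat_lit 10))
    (@En.n l5373 (nat_lit 7895) (nat_lit 10) (nat_lit 10))
    (@En.n l6042 (nat_lit 2435) (nat_lit 10) (nat_lit 4))
    (@En.n l15255 (nat_lit 2051) (nat_lit 5) (nat_lit 11))
    (@En.n l10909 (nat_lit 2433) (nat_lit 7) (nat_lit 11))
    (@En.n l28320 (nat_lit 2524) (nat_lit 14) (nat_lit 8))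
    (@En.i (nat_lit 1436) (nat_lit 3) (nat_lit 12))
    (@En.n l28 (nat_lit 2053) (nat_lit 15) (nat_lit 2))))
  (@Cl.mk (nat_lit 0x200090003000d0007000a0003000e00070002000e000600020009000e000d) (nat_lit 0x209080800600267) (nat_lit 16) Lb.e (@T16.mk En
    (@En.n l13480 (nat_lit 2047) (nat_lit 13) (nat_lit 13))
    (@En.i (nat_lit 12391) (nat_lit 1) (nat_lit 14))
    (@En.n l5119 (nat_lit 763) (nat_lit 12) (nat_lit 9))
    (@En.n l17 (nat_lit 2054) (nat_lit 3) (nat_lit 2))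
    (@En.n l1631 (nat_lit 763) (nat_lit 14) (nat_lit 6))
    (@En.n l17792 (nat_lit 7698) (nat_lit 1) (nat_lit 14))
    (@En.n l50 (nat_lit 2054) (nat_lit 6) (nat_lit 2))
    (@En.n l17793 (nat_lit 2056) (nat_lit 3) (nat_lit 7))
    (@En.n l17794 (nat_lit 2008) (nat_lit 1) (nat_lit 14))
    (@En.i (nat_lit 2049) (nat_lit 5) (nat_lit 3))
    (@En.n l17792 (nat_lit 1836) (nat_lit 11) (nat_lit 10))
    (@En.n l1883 (nat_lit 2931) (nat_lit 7) (nat_lit 7))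
    (@En.n l17792 (nat_lit 1700) (nat_lit 13) (nat_lit 13))
    (@En.n l4155 (nat_lit 2047) (nat_lit 9) (nat_lit 3))
    (@En.n l17795 (nat_lit 1296) (nat_lit 11) (nat_lit 9))
    (@En.n l3 (nat_lit 2054) (nat_lit 15) (nat_lit 2))))
  (@Cl.mk (nat_lit 0x20008000c000c0008000800040004000d0008000b000300080008000e0005) (nat_lit 0x2452300a4904250) (nat_lit 16) Lb.e (@T16.mk En
    (@En.n l12306 (nat_lit 759) (nat_lit 6) (nat_lit 5))
    (@En.i (nat_lit 7455) (nat_lit 1) (nat_lit 14))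
    (@En.n l5579 (nat_lit 2059) (nat_lit 8) (nat_lit 8))
    (@En.n l5760 (nat_lit 7892) (nat_lit 3) (nat_lit 8))
    (@En.i (nat_lit 2050) (nat_lit 4) (nat_lit 3))
    (@En.n l5760 (nat_lit 3508) (nat_lit 0) (nat_lit 11))
    (@En.n l15250 (nat_lit 2934) (nat_lit 6) (nat_lit 8))
    (@En.n l1898 (nat_lit 1394) (nat_lit 8) (nat_lit 13))
    (@En.n l5759 (nat_lit 2056) (nat_lit 8) (nat_lit 4))
    (@En.n l5760 (nat_lit 2579) (nat_lit 9) (nat_lit 4))
    (@En.n l1900 (nat_lit 2047) (nat_lit 11) (nat_lit 8))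
    (@En.n l936 (nat_lit 2583) (nat_lit 12) (nat_lit 8))
    (@En.n l55 (nat_lit 2051) (nat_lit 13) (nat_lit 12))
    (@En.i (nat_lit 12110) (nat_lit 14) (nat_lit 12))
    (@En.n l12308 (nat_lit 759) (nat_lit 4) (nat_lit 8))
    (@En.n l17 (nat_lit 2055) (nat_lit 15) (nat_lit 2))))
  (@Cl.mk (nat_lit 0x20008000e000c0002000900090004000d0008000b000300070007000e0005) (nat_lit 0x245033073800050) (nat_lit 16) Lb.e (@T16.mk En
    (@En.n l7728 (nat_lit 755) (nat_lit 4) (nat_lit 5))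
    (@En.i (nat_lit 8676) (nat_lit 6) (nat_lit 14))
    (@En.n l7729 (nat_lit 2058) (nat_lit 9) (nat_lit 7))
    (@En.n l7647 (nat_lit 7765) (nat_lit 3) (nat_lit 7))
    (@En.n l7730 (nat_lit 2057) (nat_lit 4) (nat_lit 3))
    (@En.i (nat_lit 2548) (nat_lit 0) (nat_lit 11))
    (@En.n l7731 (nat_lit 3353) (nat_lit 6) (nat_lit 8))
    (@En.n l763 (nat_lit 1844) (nat_lit 12) (nat_lit 13))
    (@En.i (nat_lit 2580) (nat_lit 8) (nat_lit 4))
    (@En.n l7732 (nat_lit 2054) (nat_lit 14) (nat_lit 9))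
    (@En.n l847 (nat_lit 2584) (nat_lit 11) (nat_lit 9))
    (@En.n l50 (nat_lit 2056) (nat_lit 11) (nat_lit 2))
    (@En.n l2301 (nat_lit 2055) (nat_lit 13) (nat_lit 12))
    (@En.n l2567 (nat_lit 12385) (nat_lit 1) (nat_lit 14))
    (@En.n l7733 (nat_lit 755) (nat_lit 2) (nat_lit 8))
    (@En.n l11 (nat_lit 2056) (nat_lit 15) (nat_lit 2))))
  (@Cl.mk (nat_lit 0x20007000e000c0002000900090004000d000a0009000300070007000e0006) (nat_lit 0x45034060000030) (nat_lit 16) Lb.e (@T16.mk En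
    (@En.n l2633 (nat_lit 2474) (nat_lit 4) (nat_lit 6))
    (@En.n l984 (nat_lit 8677) (nat_lit 6) (nat_lit 14))
    (@En.n l2634 (nat_lit 2064) (nat_lit 9) (nat_lit 7))
    (@En.n l2635 (nat_lit 2310) (nat_lit 3) (nat_lit 7))
    (@En.n l2636 (nat_lit 2056) (nat_lit 4) (nat_lit 3))
    (@En.n l803 (nat_lit 2547) (nat_lit 0) (nat_lit 9))
    (@En.n l1883 (nat_lit 2553) (nat_lit 11) (nat_lit 10))
    (@En.n l2637 (nat_lit 1686) (nat_lit 8) (nat_lit 13))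
    (@En.n l984 (nat_lit 2290) (nat_lit 8) (nat_lit 4))
    (@En.n l644 (nat_lit 2049) (nat_lit 10) (nat_lit 9))
    (@En.n l2638 (nat_lit 2589) (nat_lit 11) (nat_lit 9))
    (@En.n l3 (nat_lit 2057) (nat_lit 11) (nat_lit 2))
    (@En.n l2639 (nat_lit 2050) (nat_lit 13) (nat_lit 12))
    (@En.i (nat_lit 12389) (nat_lit 1) (nat_lit 14))
    (@En.n l2640 (nat_lit 2162) (nat_lit 2) (nat_lit 7))
    (@En.n l17 (nat_lit 2057) (nat_lit 15) (nat_lit 2))))
  (@Cl.mk (nat_lit 0x20005000d0009000c00030007000e000400020007000e000b0002000e0009) (nat_lit 0x74000400046064) (nat_lit 16) Lb.e (@T16.mk En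
    (@En.n l2612 (nat_lit 2056) (nat_lit 10) (nat_lit 9))
    (@En.n l2613 (nat_lit 2059) (nat_lit 1) (nat_lit 14))
    (@En.n l18 (nat_lit 2058) (nat_lit 2) (nat_lit 2))
    (@En.n l2614 (nat_lit 2059) (nat_lit 3) (nat_lit 11))
    (@En.n l366 (nat_lit 12380) (nat_lit 5) (nat_lit 14))
    (@En.n l536 (nat_lit 2061) (nat_lit 5) (nat_lit 7))
    (@En.n l28 (nat_lit 2058) (nat_lit 6) (nat_lit 2))
    (@En.n l11 (nat_lit 2061) (nat_lit 7) (nat_lit 4))
    (@En.n l2615 (nat_lit 3602) (nat_lit 9) (nat_lit 14))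
    (@En.n l2616 (nat_lit 408) (nat_lit 2) (nat_lit 7))
    (@En.n l12 (nat_lit 2064) (nat_lit 10) (nat_lit 3))
    (@En.n l2617 (nat_lit 2499) (nat_lit 12) (nat_lit 12))
    (@En.i (nat_lit 3356) (nat_lit 13) (nat_lit 9))
    (@En.n l2617 (nat_lit 1530) (nat_lit 7) (nat_lit 13))
    (@En.n l2618 (nat_lit 1857) (nat_lit 7) (nat_lit 5))
    (@En.n l3 (nat_lit 2058) (nat_lit 15) (nat_lit 2))))
  (@Cl.mk (nat_lit 0x200050005000d0009000c00030008000e000400020007000b000b000e0008) (nat_lit 0x9500140005653) (nat_lit 16) Lb.e (@T16.mk En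
    (@En.n l2116 (nat_lit 2055) (nat_lit 11) (nat_lit 8))
    (@En.i (nat_lit 2062) (nat_lit 12) (nat_lit 14))
    (@En.n l624 (nat_lit 2062) (nat_lit 13) (nat_lit 11))
    (@En.n l2117 (nat_lit 12114) (nat_lit 3) (nat_lit 11))
    (@En.n l2118 (nat_lit 2060) (nat_lit 4) (nat_lit 7))
    (@En.n l7 (nat_lit 2059) (nat_lit 5) (nat_lit 2))
    (@En.n l6160 (nat_lit 2060) (nat_lit 6) (nat_lit 4))
    (@En.i (nat_lit 3603) (nat_lit 8) (nat_lit 14))
    (@En.n l3340 (nat_lit 411) (nat_lit 2) (nat_lit 8))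
    (@En.i (nat_lit 2063) (nat_lit 9) (nat_lit 3))
    (@En.n l2544 (nat_lit 2492) (nat_lit 11) (nat_lit 12))
    (@En.n l2122 (nat_lit 2529) (nat_lit 12) (nat_lit 9))
    (@En.n l781 (nat_lit 1522) (nat_lit 13) (nat_lit 13))
    (@En.n l6161 (nat_lit 2058) (nat_lit 14) (nat_lit 5))
    (@En.n l2125 (nat_lit 2320) (nat_lit 8) (nat_lit 5))
    (@En.n l17 (nat_lit 2059) (nat_lit 15) (nat_lit 2))))
  (@Cl.mk (nat_lit 0x200050005000c0009000c000c00040009000400040007000b000b000e0007) (nat_lit 0x7591010004540) (nat_lit 16) Lb.e (@T16.mk En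
    (@En.n l2869 (nat_lit 759) (nat_lit 1) (nat_lit 7))
    (@En.n l476 (nat_lit 2065) (nat_lit 4) (nat_lit 14))
    (@En.n l152 (nat_lit 2065) (nat_lit 5) (nat_lit 11))
    (@En.n l2031 (nat_lit 12116) (nat_lit 3) (nat_lit 11))
    (@En.n l28 (nat_lit 2066) (nat_lit 4) (nat_lit 7))
    (@En.n l77 (nat_lit 2066) (nat_lit 5) (nat_lit 4))
    (@En.n l2895 (nat_lit 2067) (nat_lit 6) (nat_lit 4))
    (@En.n l2031 (nat_lit 406) (nat_lit 0) (nat_lit 9))
    (@En.i (nat_lit 2178) (nat_lit 8) (nat_lit 4))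
    (@En.n l6162 (nat_lit 2059) (nat_lit 10) (nat_lit 12))
    (@En.n l6163 (nat_lit 2488) (nat_lit 11) (nat_lit 12))
    (@En.n l2895 (nat_lit 2525) (nat_lit 12) (nat_lit 9))
    (@En.n l897 (nat_lit 1468) (nat_lit 13) (nat_lit 12))
    (@En.n l6164 (nat_lit 2061) (nat_lit 14) (nat_lit 5))
    (@En.n l899 (nat_lit 886) (nat_lit 13) (nat_lit 5))
    (@En.n l17 (nat_lit 2060) (nat_lit 15) (nat_lit 2))))
  (@Cl.mk (nat_lit 0x20005000c0009000c000c00040008000400040007000e000b0002000e0008) (nat_lit 0x949101000c5051) (nat_lit 16) Lb.e (@T16.mk En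
    (@En.n l517 (nat_lit 755) (nat_lit 14) (nat_lit 8))
    (@En.n l2625 (nat_lit 2060) (nat_lit 1) (nat_lit 14))
    (@En.n l18 (nat_lit 2061) (nat_lit 2) (nat_lit 2))
    (@En.n l2626 (nat_lit 2060) (nat_lit 3) (nat_lit 11))
    (@En.n l420 (nat_lit 12377) (nat_lit 5) (nat_lit 14))
    (@En.n l343 (nat_lit 758) (nat_lit 11) (nat_lit 7))
    (@En.n l1577 (nat_lit 758) (nat_lit 12) (nat_lit 4))
    (@En.i (nat_lit 3366) (nat_lit 7) (nat_lit 4))
    (@En.n l2627 (nat_lit 409) (nat_lit 5) (nat_lit 8))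
    (@En.n l575 (nat_lit 2481) (nat_lit 9) (nat_lit 4))
    (@En.n l1578 (nat_lit 2058) (nat_lit 11) (nat_lit 12))
    (@En.n l8 (nat_lit 2480) (nat_lit 12) (nat_lit 12))
    (@En.i (nat_lit 3357) (nat_lit 13) (nat_lit 9))
    (@En.n l2628 (nat_lit 1532) (nat_lit 14) (nat_lit 12))
    (@En.i (nat_lit 1856) (nat_lit 13) (nat_lit 5))
    (@En.n l3 (nat_lit 2061) (nat_lit 15) (nat_lit 2))))
  (@Cl.mk (nat_lit 0x20007000b000e00070002000e00050002000d0009000c00030009000e0004) (nat_lit 0x54009009500140) (nat_lit 16) Lb.e (@T16.mk En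
    (@En.n l8898 (nat_lit 2065) (nat_lit 8) (nat_lit 4))
    (@En.i (nat_lit 3606) (nat_lit 1) (nat_lit 14))
    (@En.n l2036 (nat_lit 415) (nat_lit 11) (nat_lit 9))
    (@En.i (nat_lit 2558) (nat_lit 3) (nat_lit 3))
    (@En.i (nat_lit 2493) (nat_lit 0) (nat_lit 12))
    (@En.n l3339 (nat_lit 2528) (nat_lit 5) (nat_lit 9))
    (@En.n l2034 (nat_lit 1479) (nat_lit 7) (nat_lit 13))
    (@En.n l3 (nat_lit 2062) (nat_lit 7) (nat_lit 2))
    (@En.n l476 (nat_lit 2059) (nat_lit 14) (nat_lit 5))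
    (@En.i (nat_lit 2278) (nat_lit 1) (nat_lit 14))
    (@En.n l17 (nat_lit 2062) (nat_lit 10) (nat_lit 2))
    (@En.n l2869 (nat_lit 2051) (nat_lit 12) (nat_lit 7))
    (@En.n l2036 (nat_lit 13179) (nat_lit 4) (nat_lit 14))
    (@En.n l2579 (nat_lit 12497) (nat_lit 14) (nat_lit 11))
    (@En.n l5934 (nat_lit 2065) (nat_lit 6) (nat_lit 7))
    (@En.n l7 (nat_lit 2062) (nat_lit 15) (nat_lit 2))))
  (@Cl.mk (nat_lit 0x200050005000d000b000a00030008000e000500020006000b000b000e0008) (nat_lit 0xa000120005603) (nat_lit 16) Lb.e (@T16.mk En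
    (@En.n l2116 (nat_lit 2050) (nat_lit 11) (nat_lit 8))
    (@En.i (nat_lit 2558) (nat_lit 12) (nat_lit 14))
    (@En.n l624 (nat_lit 2558) (nat_lit 13) (nat_lit 11))
    (@En.n l2117 (nat_lit 12118) (nat_lit 3) (nat_lit 11))
    (@En.n l2118 (nat_lit 2178) (nat_lit 4) (nat_lit 6))
    (@En.n l7 (nat_lit 2063) (nat_lit 5) (nat_lit 2))
    (@En.n l2119 (nat_lit 2475) (nat_lit 6) (nat_lit 5))
    (@En.i (nat_lit 3607) (nat_lit 8) (nat_lit 14))
    (@En.n l2120 (nat_lit 1076) (nat_lit 2) (nat_lit 8))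
    (@En.n l11 (nat_lit 2059) (nat_lit 9) (nat_lit 3))
    (@En.n l2121 (nat_lit 2501) (nat_lit 11) (nat_lit 10))
    (@En.n l2122 (nat_lit 2067) (nat_lit 12) (nat_lit 11))
    (@En.n l2123 (nat_lit 1523) (nat_lit 13) (nat_lit 13))
    (@En.n l2124 (nat_lit 2064) (nat_lit 14) (nat_lit 5))
    (@En.n l2125 (nat_lit 2285) (nat_lit 8) (nat_lit 5))
    (@En.n l17 (nat_lit 2063) (nat_lit 15) (nat_lit 2))))
noncomputable def a129 : T16 Cl := @T16.mk Cl
  (@Cl.mk (nat_lit 0x20005000d000b000a00030007000e000500020006000e000b0002000e0009) (nat_lit 0xa0000200046014) (nat_lit 16) Lb.e (@T16.mk En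
    (@En.n l800 (nat_lit 2057) (nat_lit 10) (nat_lit 9))
    (@En.n l801 (nat_lit 2063) (nat_lit 1) (nat_lit 14))
    (@En.n l18 (nat_lit 2064) (nat_lit 2) (nat_lit 2))
    (@En.n l802 (nat_lit 2063) (nat_lit 3) (nat_lit 11))
    (@En.n l803 (nat_lit 12384) (nat_lit 5) (nat_lit 14))
    (@En.n l393 (nat_lit 2481) (nat_lit 5) (nat_lit 6))
    (@En.n l28 (nat_lit 2064) (nat_lit 6) (nat_lit 2))
    (@En.n l394 (nat_lit 2476) (nat_lit 7) (nat_lit 5))
    (@En.n l804 (nat_lit 3638) (nat_lit 9) (nat_lit 14))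
    (@En.n l392 (nat_lit 1080) (nat_lit 2) (nat_lit 7))
    (@En.i (nat_lit 2058) (nat_lit 10) (nat_lit 3))
    (@En.i (nat_lit 2628) (nat_lit 12) (nat_lit 10))
    (@En.n l13 (nat_lit 3366) (nat_lit 13) (nat_lit 11))
    (@En.i (nat_lit 1529) (nat_lit 7) (nat_lit 13))
    (@En.n l805 (nat_lit 2280) (nat_lit 7) (nat_lit 5))
    (@En.n l3 (nat_lit 2064) (nat_lit 15) (nat_lit 2))))
  (@Cl.mk (nat_lit 0x2000c0009000c000c0004000a000400040007000b000e00060002000e0005) (nat_lit 0x969101000430010) (nat_lit 16) Lb.e (@T16.mk En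
    (@En.i (nat_lit 2060) (nat_lit 14) (nat_lit 5))
    (@En.i (nat_lit 774) (nat_lit 1) (nat_lit 14))
    (@En.n l17 (nat_lit 2065) (nat_lit 2) (nat_lit 2))
    (@En.n l2869 (nat_lit 2053) (nat_lit 3) (nat_lit 6))
    (@En.n l14611 (nat_lit 13173) (nat_lit 4) (nat_lit 14))
    (@En.n l2031 (nat_lit 12766) (nat_lit 2) (nat_lit 11))
    (@En.n l28 (nat_lit 2518) (nat_lit 11) (nat_lit 7))
    (@En.n l77 (nat_lit 2518) (nat_lit 12) (nat_lit 4))
    (@En.n l3039 (nat_lit 2814) (nat_lit 8) (nat_lit 4))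
    (@En.n l2031 (nat_lit 412) (nat_lit 10) (nat_lit 10))
    (@En.i (nat_lit 2175) (nat_lit 10) (nat_lit 4))
    (@En.n l14612 (nat_lit 2062) (nat_lit 4) (nat_lit 12))
    (@En.n l3039 (nat_lit 2489) (nat_lit 6) (nat_lit 12))
    (@En.n l10275 (nat_lit 2522) (nat_lit 14) (nat_lit 9))
    (@En.n l2031 (nat_lit 1470) (nat_lit 12) (nat_lit 12))
    (@En.n l3 (nat_lit 2065) (nat_lit 15) (nat_lit 2))))
  (@Cl.mk (nat_lit 0x200050005000b0009000e000c00020005000a00040007000b000b000e0006) (nat_lit 0x950a0010094c0) (nat_lit 16) Lb.e (@T16.mk En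
    (@En.n l2869 (nat_lit 756) (nat_lit 7) (nat_lit 6))
    (@En.n l476 (nat_lit 2518) (nat_lit 9) (nat_lit 14))
    (@En.n l152 (nat_lit 2518) (nat_lit 10) (nat_lit 11))
    (@En.n l2031 (nat_lit 12742) (nat_lit 11) (nat_lit 11))
    (@En.i (nat_lit 13573) (nat_lit 11) (nat_lit 7))
    (@En.n l7180 (nat_lit 2803) (nat_lit 5) (nat_lit 4))
    (@En.n l649 (nat_lit 410) (nat_lit 14) (nat_lit 10))
    (@En.i (nat_lit 2482) (nat_lit 7) (nat_lit 5))
    (@En.n l7 (nat_lit 2066) (nat_lit 8) (nat_lit 2))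
    (@En.i (nat_lit 2060) (nat_lit 10) (nat_lit 12))
    (@En.n l8468 (nat_lit 2479) (nat_lit 11) (nat_lit 14))
    (@En.n l7180 (nat_lit 2523) (nat_lit 12) (nat_lit 9))
    (@En.n l897 (nat_lit 1467) (nat_lit 13) (nat_lit 11))
    (@En.n l2898 (nat_lit 758) (nat_lit 4) (nat_lit 5))
    (@En.n l899 (nat_lit 883) (nat_lit 5) (nat_lit 5))
    (@En.n l17 (nat_lit 2066) (nat_lit 15) (nat_lit 2))))
  (@Cl.mk (nat_lit 0x200050005000b0009000c0007000d0005000400030007000b000b000e0009) (nat_lit 0x9400800000704) (nat_lit 16) Lb.e (@T16.mk En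
    (@En.n l6183 (nat_lit 2798) (nat_lit 11) (nat_lit 9))
    (@En.n l6184 (nat_lit 2814) (nat_lit 4) (nat_lit 14))
    (@En.n l6185 (nat_lit 2814) (nat_lit 5) (nat_lit 11))
    (@En.n l6186 (nat_lit 12071) (nat_lit 3) (nat_lit 11))
    (@En.n l343 (nat_lit 2803) (nat_lit 4) (nat_lit 7))
    (@En.n l28 (nat_lit 2805) (nat_lit 5) (nat_lit 3))
    (@En.n l2613 (nat_lit 2059) (nat_lit 6) (nat_lit 4))
    (@En.i (nat_lit 2171) (nat_lit 7) (nat_lit 5))
    (@En.n l6184 (nat_lit 3595) (nat_lit 9) (nat_lit 13))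
    (@En.n l6187 (nat_lit 6617) (nat_lit 10) (nat_lit 7))
    (@En.n l6188 (nat_lit 2496) (nat_lit 11) (nat_lit 12))
    (@En.i (nat_lit 2793) (nat_lit 12) (nat_lit 9))
    (@En.n l6189 (nat_lit 8468) (nat_lit 13) (nat_lit 11))
    (@En.n l17 (nat_lit 3366) (nat_lit 14) (nat_lit 5))
    (@En.n l2660 (nat_lit 2321) (nat_lit 13) (nat_lit 5))
    (@En.n l3 (nat_lit 2067) (nat_lit 15) (nat_lit 2))))
  (@Cl.mk (nat_lit 0x2000800070007000d000d0009000300030008000b000900090007000e0005) (nat_lit 0x100013003871010) (nat_lit 16) Lb.e (@T16.mk En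
    (@En.n l5600 (nat_lit 1965) (nat_lit 7) (nat_lit 5))
    (@En.n l5928 (nat_lit 1213) (nat_lit 1) (nat_lit 14))
    (@En.n l5643 (nat_lit 2221) (nat_lit 2) (nat_lit 7))
    (@En.n l7918 (nat_lit 816) (nat_lit 3) (nat_lit 9))
    (@En.n l13089 (nat_lit 3241) (nat_lit 4) (nat_lit 9))
    (@En.n l2038 (nat_lit 2080) (nat_lit 7) (nat_lit 11))
    (@En.n l13090 (nat_lit 5188) (nat_lit 6) (nat_lit 8))
    (@En.n l13091 (nat_lit 2070) (nat_lit 7) (nat_lit 3))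
    (@En.n l18 (nat_lit 1969) (nat_lit 8) (nat_lit 3))
    (@En.n l13092 (nat_lit 1975) (nat_lit 10) (nat_lit 9))
    (@En.n l61 (nat_lit 1969) (nat_lit 11) (nat_lit 13))
    (@En.n l564 (nat_lit 3310) (nat_lit 12) (nat_lit 13))
    (@En.n l13093 (nat_lit 1963) (nat_lit 9) (nat_lit 7))
    (@En.n l1769 (nat_lit 2295) (nat_lit 14) (nat_lit 7))
    (@En.n l5608 (nat_lit 1965) (nat_lit 5) (nat_lit 8))
    (@En.n l11 (nat_lit 2068) (nat_lit 15) (nat_lit 2))))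
  (@Cl.mk (nat_lit 0x2000900030008000b000b000a000a000700050005000800060006000e000d) (nat_lit 0x302098100000051) (nat_lit 16) Lb.e (@T16.mk En
    (@En.n l12804 (nat_lit 1965) (nat_lit 2) (nat_lit 13))
    (@En.n l899 (nat_lit 3352) (nat_lit 1) (nat_lit 14))
    (@En.n l9272 (nat_lit 1964) (nat_lit 2) (nat_lit 6))
    (@En.n l3851 (nat_lit 2342) (nat_lit 3) (nat_lit 6))
    (@En.n l2196 (nat_lit 2358) (nat_lit 4) (nat_lit 8))
    (@En.n l217 (nat_lit 2358) (nat_lit 5) (nat_lit 5))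
    (@En.i (nat_lit 6000) (nat_lit 6) (nat_lit 5))
    (@En.n l12805 (nat_lit 888) (nat_lit 7) (nat_lit 7))
    (@En.n l12806 (nat_lit 815) (nat_lit 9) (nat_lit 10))
    (@En.n l12807 (nat_lit 4188) (nat_lit 10) (nat_lit 10))
    (@En.n l12808 (nat_lit 2070) (nat_lit 5) (nat_lit 11))
    (@En.n l12809 (nat_lit 2072) (nat_lit 7) (nat_lit 11))
    (@En.i (nat_lit 3195) (nat_lit 13) (nat_lit 8))
    (@En.n l12810 (nat_lit 1965) (nat_lit 14) (nat_lit 3))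
    (@En.n l12811 (nat_lit 1979) (nat_lit 0) (nat_lit 9))
    (@En.n l28 (nat_lit 2069) (nat_lit 15) (nat_lit 2))))
  (@Cl.mk (nat_lit 0x2000800070007000e000d0002000a00030008000b000900090006000e0005) (nat_lit 0x100610302801000) (nat_lit 16) Lb.e (@T16.mk En
    (@En.n l26607 (nat_lit 2069) (nat_lit 6) (nat_lit 5))
    (@En.n l4505 (nat_lit 2951) (nat_lit 8) (nat_lit 14))
    (@En.n l3258 (nat_lit 2657) (nat_lit 2) (nat_lit 6))
    (@En.n l26608 (nat_lit 818) (nat_lit 3) (nat_lit 9))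
    (@En.i (nat_lit 3622) (nat_lit 4) (nat_lit 9))
    (@En.n l4505 (nat_lit 3930) (nat_lit 7) (nat_lit 11))
    (@En.i (nat_lit 3193) (nat_lit 6) (nat_lit 8))
    (@En.n l26609 (nat_lit 2068) (nat_lit 7) (nat_lit 3))
    (@En.n l4089 (nat_lit 2082) (nat_lit 0) (nat_lit 10))
    (@En.n l11 (nat_lit 2070) (nat_lit 9) (nat_lit 2))
    (@En.n l26610 (nat_lit 2068) (nat_lit 11) (nat_lit 13))
    (@En.n l3494 (nat_lit 3353) (nat_lit 12) (nat_lit 14))
    (@En.n l253 (nat_lit 2071) (nat_lit 9) (nat_lit 7))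
    (@En.n l3261 (nat_lit 2348) (nat_lit 14) (nat_lit 7))
    (@En.n l26611 (nat_lit 2069) (nat_lit 4) (nat_lit 8))
    (@En.n l18 (nat_lit 2070) (nat_lit 15) (nat_lit 2))))
  (@Cl.mk (nat_lit 0x20007000e0006000200090007000e000d0002000900030007000a000e0009) (nat_lit 0x10510300861) (nat_lit 16) Lb.e (@T16.mk En
    (@En.i (nat_lit 2070) (nat_lit 4) (nat_lit 9))
    (@En.n l9187 (nat_lit 5449) (nat_lit 11) (nat_lit 14))
    (@En.n l8932 (nat_lit 3979) (nat_lit 2) (nat_lit 10))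
    (@En.i (nat_lit 2006) (nat_lit 3) (nat_lit 7))
    (@En.n l5011 (nat_lit 1963) (nat_lit 4) (nat_lit 3))
    (@En.i (nat_lit 2085) (nat_lit 0) (nat_lit 9))
    (@En.n l11 (nat_lit 2071) (nat_lit 6) (nat_lit 2))
    (@En.n l7088 (nat_lit 1963) (nat_lit 8) (nat_lit 13))
    (@En.n l9187 (nat_lit 5755) (nat_lit 9) (nat_lit 14))
    (@En.n l8929 (nat_lit 6260) (nat_lit 14) (nat_lit 7))
    (@En.n l8930 (nat_lit 1964) (nat_lit 3) (nat_lit 9))
    (@En.n l18 (nat_lit 2071) (nat_lit 11) (nat_lit 2))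
    (@En.n l8931 (nat_lit 1964) (nat_lit 5) (nat_lit 6))
    (@En.n l9641 (nat_lit 2819) (nat_lit 7) (nat_lit 14))
    (@En.n l8932 (nat_lit 5978) (nat_lit 2) (nat_lit 7))
    (@En.n l476 (nat_lit 2071) (nat_lit 15) (nat_lit 2))))
  (@Cl.mk (nat_lit 0x200070007000e000d0002000a0003000b000a0009000900060005000e0006) (nat_lit 0x6003090030010) (nat_lit 16) Lb.e (@T16.mk En
    (@En.n l6979 (nat_lit 3090) (nat_lit 5) (nat_lit 6))
    (@En.n l17359 (nat_lit 2070) (nat_lit 1) (nat_lit 14))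
    (@En.i (nat_lit 2643) (nat_lit 2) (nat_lit 5))
    (@En.n l404 (nat_lit 2665) (nat_lit 3) (nat_lit 6))
    (@En.n l61 (nat_lit 3941) (nat_lit 10) (nat_lit 9))
    (@En.n l12949 (nat_lit 3268) (nat_lit 5) (nat_lit 9))
    (@En.n l6981 (nat_lit 3915) (nat_lit 12) (nat_lit 10))
    (@En.n l11 (nat_lit 4781) (nat_lit 8) (nat_lit 11))
    (@En.n l117 (nat_lit 2073) (nat_lit 8) (nat_lit 3))
    (@En.i (nat_lit 1903) (nat_lit 10) (nat_lit 10))
    (@En.n l3 (nat_lit 2072) (nat_lit 10) (nat_lit 2))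
    (@En.i (nat_lit 2073) (nat_lit 12) (nat_lit 13))
    (@En.n l4543 (nat_lit 2319) (nat_lit 13) (nat_lit 14))
    (@En.n l6983 (nat_lit 2074) (nat_lit 9) (nat_lit 7))
    (@En.n l6984 (nat_lit 2345) (nat_lit 3) (nat_lit 7))
    (@En.n l50 (nat_lit 2072) (nat_lit 15) (nat_lit 2))))
  (@Cl.mk (nat_lit 0x200070007000d000d000900030003000b000a0009000900070005000e0006) (nat_lit 0xb070098030020) (nat_lit 16) Lb.e (@T16.mk En
    (@En.n l3208 (nat_lit 1954) (nat_lit 6) (nat_lit 6))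
    (@En.n l33076 (nat_lit 2068) (nat_lit 1) (nat_lit 14))
    (@En.i (nat_lit 1171) (nat_lit 2) (nat_lit 5))
    (@En.n l6958 (nat_lit 2667) (nat_lit 3) (nat_lit 7))
    (@En.n l61 (nat_lit 3940) (nat_lit 7) (nat_lit 9))
    (@En.n l12949 (nat_lit 3266) (nat_lit 5) (nat_lit 9))
    (@En.n l6996 (nat_lit 2081) (nat_lit 6) (nat_lit 10))
    (@En.n l24038 (nat_lit 3146) (nat_lit 8) (nat_lit 11))
    (@En.n l152 (nat_lit 2072) (nat_lit 8) (nat_lit 3))
    (@En.n l24041 (nat_lit 2076) (nat_lit 9) (nat_lit 3))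
    (@En.n l12787 (nat_lit 1615) (nat_lit 11) (nat_lit 9))
    (@En.n l14974 (nat_lit 2076) (nat_lit 12) (nat_lit 13))
    (@En.n l17034 (nat_lit 3164) (nat_lit 13) (nat_lit 13))
    (@En.n l33077 (nat_lit 2075) (nat_lit 14) (nat_lit 7))
    (@En.n l17036 (nat_lit 2347) (nat_lit 4) (nat_lit 7))
    (@En.n l50 (nat_lit 2073) (nat_lit 15) (nat_lit 2))))
  (@Cl.mk (nat_lit 0x200070006000e000700020007000e000d000200090003000a0009000e0009) (nat_lit 0x1000600208001) (nat_lit 16) Lb.e (@T16.mk En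
    (@En.n l2519 (nat_lit 2072) (nat_lit 5) (nat_lit 9))
    (@En.n l2520 (nat_lit 4478) (nat_lit 7) (nat_lit 14))
    (@En.n l2521 (nat_lit 3978) (nat_lit 2) (nat_lit 9))
    (@En.n l50 (nat_lit 4777) (nat_lit 3) (nat_lit 10))
    (@En.n l7563 (nat_lit 2075) (nat_lit 9) (nat_lit 3))
    (@En.n l7564 (nat_lit 1902) (nat_lit 5) (nat_lit 9))
    (@En.n l28 (nat_lit 2074) (nat_lit 6) (nat_lit 2))
    (@En.n l7565 (nat_lit 2075) (nat_lit 13) (nat_lit 13))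
    (@En.n l7566 (nat_lit 5738) (nat_lit 9) (nat_lit 14))
    (@En.n l2644 (nat_lit 1324) (nat_lit 2) (nat_lit 7))
    (@En.n l725 (nat_lit 2074) (nat_lit 10) (nat_lit 2))
    (@En.n l7567 (nat_lit 3723) (nat_lit 4) (nat_lit 7))
    (@En.n l7568 (nat_lit 2071) (nat_lit 13) (nat_lit 14))
    (@En.i (nat_lit 4771) (nat_lit 14) (nat_lit 6))
    (@En.n l7564 (nat_lit 7472) (nat_lit 3) (nat_lit 7))
    (@En.n l3 (nat_lit 2074) (nat_lit 15) (nat_lit 2))))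
  (@Cl.mk (nat_lit 0x20007000d000d000800030003000a0009000e0009000200080006000e0007) (nat_lit 0xb0200703103010) (nat_lit 16) Lb.e (@T16.mk En
    (@En.n l18245 (nat_lit 2078) (nat_lit 12) (nat_lit 7))
    (@En.n l180 (nat_lit 1963) (nat_lit 13) (nat_lit 14))
    (@En.n l11117 (nat_lit 2647) (nat_lit 2) (nat_lit 6))
    (@En.n l7260 (nat_lit 7246) (nat_lit 3) (nat_lit 8))
    (@En.n l17 (nat_lit 2075) (nat_lit 4) (nat_lit 2))
    (@En.n l18246 (nat_lit 2073) (nat_lit 5) (nat_lit 9))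
    (@En.n l18247 (nat_lit 4477) (nat_lit 7) (nat_lit 14))
    (@En.n l3 (nat_lit 3102) (nat_lit 2) (nat_lit 9))
    (@En.n l18248 (nat_lit 2121) (nat_lit 3) (nat_lit 10))
    (@En.n l17856 (nat_lit 2074) (nat_lit 4) (nat_lit 3))
    (@En.n l7 (nat_lit 2077) (nat_lit 10) (nat_lit 3))
    (@En.n l18249 (nat_lit 2111) (nat_lit 6) (nat_lit 8))
    (@En.n l644 (nat_lit 2077) (nat_lit 13) (nat_lit 13))
    (@En.i (nat_lit 5741) (nat_lit 9) (nat_lit 13))
    (@En.n l18250 (nat_lit 1319) (nat_lit 3) (nat_lit 7))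
    (@En.n l11 (nat_lit 2075) (nat_lit 15) (nat_lit 2))))
  (@Cl.mk (nat_lit 0x200070007000d0008000e00030002000b000a0009000900080005000e0006) (nat_lit 0xb690098033010) (nat_lit 16) Lb.e (@T16.mk En
    (@En.n l117 (nat_lit 1955) (nat_lit 7) (nat_lit 6))
    (@En.n l17703 (nat_lit 1969) (nat_lit 1) (nat_lit 14))
    (@En.n l37045 (nat_lit 2646) (nat_lit 2) (nat_lit 5))
    (@En.n l644 (nat_lit 2668) (nat_lit 3) (nat_lit 8))
    (@En.n l7585 (nat_lit 3942) (nat_lit 12) (nat_lit 9))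
    (@En.n l4002 (nat_lit 3267) (nat_lit 5) (nat_lit 9))
    (@En.n l936 (nat_lit 3913) (nat_lit 14) (nat_lit 10))
    (@En.i (nat_lit 2990) (nat_lit 8) (nat_lit 11))
    (@En.n l17 (nat_lit 2076) (nat_lit 8) (nat_lit 2))
    (@En.n l13538 (nat_lit 2073) (nat_lit 9) (nat_lit 3))
    (@En.n l12126 (nat_lit 12989) (nat_lit 0) (nat_lit 14))
    (@En.n l2211 (nat_lit 1617) (nat_lit 12) (nat_lit 8))
    (@En.n l4002 (nat_lit 3166) (nat_lit 13) (nat_lit 13))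
    (@En.n l24779 (nat_lit 2077) (nat_lit 14) (nat_lit 7))
    (@En.n l17706 (nat_lit 2362) (nat_lit 5) (nat_lit 7))
    (@En.n l11 (nat_lit 2076) (nat_lit 15) (nat_lit 2))))
  (@Cl.mk (nat_lit 0x20007000d0007000e00030002000a0009000e0009000200090006000e0007) (nat_lit 0xb0900803103010) (nat_lit 16) Lb.e (@T16.mk En
    (@En.n l26876 (nat_lit 2079) (nat_lit 6) (nat_lit 7))
    (@En.n l180 (nat_lit 1962) (nat_lit 8) (nat_lit 14))
    (@En.i (nat_lit 3029) (nat_lit 2) (nat_lit 6))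
    (@En.n l12585 (nat_lit 7936) (nat_lit 3) (nat_lit 9))
    (@En.n l17 (nat_lit 2077) (nat_lit 4) (nat_lit 2))
    (@En.n l26877 (nat_lit 2076) (nat_lit 5) (nat_lit 9))
    (@En.n l2576 (nat_lit 4481) (nat_lit 7) (nat_lit 14))
    (@En.n l3 (nat_lit 3973) (nat_lit 2) (nat_lit 9))
    (@En.n l253 (nat_lit 4212) (nat_lit 3) (nat_lit 10))
    (@En.n l50 (nat_lit 2077) (nat_lit 9) (nat_lit 2))
    (@En.i (nat_lit 2075) (nat_lit 10) (nat_lit 3))
    (@En.n l26878 (nat_lit 12992) (nat_lit 0) (nat_lit 14))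
    (@En.n l6105 (nat_lit 1863) (nat_lit 13) (nat_lit 7))
    (@En.i (nat_lit 8046) (nat_lit 9) (nat_lit 13))
    (@En.n l3596 (nat_lit 1323) (nat_lit 4) (nat_lit 7))
    (@En.n l11 (nat_lit 2077) (nat_lit 15) (nat_lit 2))))
  (@Cl.mk (nat_lit 0x200090007000700070006000d000d000700030003000900090009000e000a) (nat_lit 0x300004600006141) (nat_lit 16) Lb.e (@T16.mk En
    (@En.n l15804 (nat_lit 1954) (nat_lit 10) (nat_lit 10))
    (@En.n l5 (nat_lit 2448) (nat_lit 1) (nat_lit 14))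
    (@En.n l15805 (nat_lit 2075) (nat_lit 7) (nat_lit 9))
    (@En.n l15806 (nat_lit 3100) (nat_lit 7) (nat_lit 9))
    (@En.n l9530 (nat_lit 3150) (nat_lit 4) (nat_lit 9))
    (@En.n l15807 (nat_lit 3723) (nat_lit 13) (nat_lit 3))
    (@En.n l4478 (nat_lit 2079) (nat_lit 0) (nat_lit 3))
    (@En.n l15808 (nat_lit 1616) (nat_lit 0) (nat_lit 7))
    (@En.n l15809 (nat_lit 2079) (nat_lit 3) (nat_lit 13))
    (@En.n l15810 (nat_lit 6470) (nat_lit 10) (nat_lit 13))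
    (@En.n l15811 (nat_lit 2081) (nat_lit 3) (nat_lit 6))
    (@En.n l15812 (nat_lit 3720) (nat_lit 12) (nat_lit 7))
    (@En.n l15813 (nat_lit 4659) (nat_lit 13) (nat_lit 7))
    (@En.n l15814 (nat_lit 3682) (nat_lit 14) (nat_lit 7))
    (@En.n l15815 (nat_lit 6883) (nat_lit 8) (nat_lit 9))
    (@En.n l17 (nat_lit 2078) (nat_lit 15) (nat_lit 2))))
  (@Cl.mk (nat_lit 0x2000900090009000e000a0002000a0007000700070006000d0006000e0003) (nat_lit 0x61510600005080) (nat_lit 16) Lb.e (@T16.mk En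
    (@En.n l1392 (nat_lit 2078) (nat_lit 6) (nat_lit 3))
    (@En.i (nat_lit 12910) (nat_lit 0) (nat_lit 14))
    (@En.i (nat_lit 1617) (nat_lit 2) (nat_lit 6))
    (@En.n l13163 (nat_lit 6469) (nat_lit 10) (nat_lit 13))
    (@En.n l4973 (nat_lit 2080) (nat_lit 4) (nat_lit 6))
    (@En.i (nat_lit 3721) (nat_lit 5) (nat_lit 7))
    (@En.n l152 (nat_lit 4658) (nat_lit 9) (nat_lit 7))
    (@En.n l1574 (nat_lit 3958) (nat_lit 14) (nat_lit 7))
    (@En.n l13164 (nat_lit 6875) (nat_lit 9) (nat_lit 10))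
    (@En.n l28 (nat_lit 2079) (nat_lit 9) (nat_lit 2))
    (@En.n l1615 (nat_lit 1955) (nat_lit 11) (nat_lit 10))
    (@En.n l5987 (nat_lit 2447) (nat_lit 12) (nat_lit 14))
    (@En.n l11325 (nat_lit 2077) (nat_lit 7) (nat_lit 9))
    (@En.n l5069 (nat_lit 3976) (nat_lit 7) (nat_lit 9))
    (@En.n l4509 (nat_lit 4210) (nat_lit 4) (nat_lit 9))
    (@En.n l17 (nat_lit 2079) (nat_lit 15) (nat_lit 2))))
noncomputable def a130 : T16 Cl := @T16.mk Cl
  (@Cl.mk (nat_lit 0x200080008000d000d000a00030003000b000800080006000d0005000e0003) (nat_lit 0x60020070600090) (nat_lit 16) Lb.e (@T16.mk En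
    (@En.n l19681 (nat_lit 2081) (nat_lit 15) (nat_lit 3))
    (@En.n l26854 (nat_lit 12784) (nat_lit 0) (nat_lit 14))
    (@En.n l3089 (nat_lit 2073) (nat_lit 2) (nat_lit 5))
    (@En.n l8907 (nat_lit 2952) (nat_lit 10) (nat_lit 13))
    (@En.n l1347 (nat_lit 3903) (nat_lit 4) (nat_lit 6))
    (@En.n l2062 (nat_lit 3931) (nat_lit 8) (nat_lit 8))
    (@En.n l18845 (nat_lit 3960) (nat_lit 6) (nat_lit 8))
    (@En.i (nat_lit 7930) (nat_lit 8) (nat_lit 11))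
    (@En.n l3180 (nat_lit 3930) (nat_lit 8) (nat_lit 3))
    (@En.n l18 (nat_lit 3972) (nat_lit 9) (nat_lit 3))
    (@En.n l12826 (nat_lit 3098) (nat_lit 11) (nat_lit 10))
    (@En.n l61 (nat_lit 3972) (nat_lit 12) (nat_lit 13))
    (@En.n l15790 (nat_lit 3012) (nat_lit 13) (nat_lit 13))
    (@En.n l17235 (nat_lit 3974) (nat_lit 8) (nat_lit 8))
    (@En.n l810 (nat_lit 4191) (nat_lit 4) (nat_lit 8))
    (@En.n l11 (nat_lit 2080) (nat_lit 15) (nat_lit 2))))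
  (@Cl.mk (nat_lit 0x3000300080008000d000d000a00030003000a000800080006000d000d0006) (nat_lit 0x6002007060010) (nat_lit 16) Lb.e (@T16.mk En
    (@En.n l11375 (nat_lit 3091) (nat_lit 0) (nat_lit 6))
    (@En.n l26585 (nat_lit 2080) (nat_lit 3) (nat_lit 13))
    (@En.n l25392 (nat_lit 2955) (nat_lit 10) (nat_lit 13))
    (@En.n l12842 (nat_lit 3902) (nat_lit 3) (nat_lit 6))
    (@En.n l30562 (nat_lit 3934) (nat_lit 8) (nat_lit 8))
    (@En.i (nat_lit 3687) (nat_lit 5) (nat_lit 8))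
    (@En.n l6657 (nat_lit 7933) (nat_lit 14) (nat_lit 10))
    (@En.n l18 (nat_lit 3915) (nat_lit 13) (nat_lit 3))
    (@En.n l30563 (nat_lit 3913) (nat_lit 0) (nat_lit 3))
    (@En.n l6444 (nat_lit 3092) (nat_lit 0) (nat_lit 10))
    (@En.n l30564 (nat_lit 3913) (nat_lit 3) (nat_lit 13))
    (@En.n l4316 (nat_lit 3010) (nat_lit 12) (nat_lit 13))
    (@En.n l15890 (nat_lit 3102) (nat_lit 8) (nat_lit 8))
    (@En.n l24741 (nat_lit 4193) (nat_lit 4) (nat_lit 8))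
    (@En.n l152 (nat_lit 3912) (nat_lit 13) (nat_lit 3))
    (@En.n l26584 (nat_lit 2080) (nat_lit 0) (nat_lit 3))))
  (@Cl.mk (nat_lit 0x20007000a0008000800060009000e000600020009000800080007000e000a) (nat_lit 0x65307200140022) (nat_lit 16) Lb.e (@T16.mk En
    (@En.n l21081 (nat_lit 1941) (nat_lit 10) (nat_lit 10))
    (@En.n l18139 (nat_lit 1975) (nat_lit 11) (nat_lit 14))
    (@En.i (nat_lit 1707) (nat_lit 2) (nat_lit 7))
    (@En.n l21082 (nat_lit 2085) (nat_lit 3) (nat_lit 8))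
    (@En.n l21083 (nat_lit 1773) (nat_lit 14) (nat_lit 8))
    (@En.n l21084 (nat_lit 1979) (nat_lit 5) (nat_lit 9))
    (@En.n l67 (nat_lit 2082) (nat_lit 6) (nat_lit 2))
    (@En.n l8902 (nat_lit 1979) (nat_lit 7) (nat_lit 6))
    (@En.n l21085 (nat_lit 11365) (nat_lit 9) (nat_lit 14))
    (@En.n l21086 (nat_lit 12965) (nat_lit 9) (nat_lit 9))
    (@En.n l18760 (nat_lit 3305) (nat_lit 3) (nat_lit 6))
    (@En.n l21087 (nat_lit 1933) (nat_lit 12) (nat_lit 8))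
    (@En.n l3082 (nat_lit 3205) (nat_lit 5) (nat_lit 8))
    (@En.n l21088 (nat_lit 3104) (nat_lit 8) (nat_lit 10))
    (@En.n l9874 (nat_lit 5275) (nat_lit 7) (nat_lit 7))
    (@En.n l50 (nat_lit 2082) (nat_lit 15) (nat_lit 2))))
  (@Cl.mk (nat_lit 0x200070007000a000e00080002000b000900060009000900050008000e0007) (nat_lit 0x500070170500) (nat_lit 16) Lb.e (@T16.mk En
    (@En.n l4447 (nat_lit 1941) (nat_lit 6) (nat_lit 7))
    (@En.n l21143 (nat_lit 5200) (nat_lit 1) (nat_lit 14))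
    (@En.n l8572 (nat_lit 3106) (nat_lit 2) (nat_lit 8))
    (@En.i (nat_lit 5206) (nat_lit 3) (nat_lit 5))
    (@En.n l725 (nat_lit 2089) (nat_lit 7) (nat_lit 9))
    (@En.n l13574 (nat_lit 1912) (nat_lit 5) (nat_lit 9))
    (@En.n l21144 (nat_lit 4880) (nat_lit 6) (nat_lit 6))
    (@En.n l2682 (nat_lit 5006) (nat_lit 14) (nat_lit 9))
    (@En.n l14776 (nat_lit 2086) (nat_lit 9) (nat_lit 11))
    (@En.n l3 (nat_lit 2083) (nat_lit 9) (nat_lit 2))
    (@En.n l14493 (nat_lit 2086) (nat_lit 11) (nat_lit 8))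
    (@En.n l617 (nat_lit 11351) (nat_lit 12) (nat_lit 14))
    (@En.n l21145 (nat_lit 2085) (nat_lit 8) (nat_lit 10))
    (@En.n l21146 (nat_lit 2085) (nat_lit 9) (nat_lit 7))
    (@En.n l10039 (nat_lit 2092) (nat_lit 4) (nat_lit 7))
    (@En.n l50 (nat_lit 2083) (nat_lit 15) (nat_lit 2))))
  (@Cl.mk (nat_lit 0x2000600090009000e000900020008000b00070007000a00070005000e0008) (nat_lit 0x17270000010012) (nat_lit 16) Lb.e (@T16.mk En
    (@En.n l20510 (nat_lit 2086) (nat_lit 6) (nat_lit 8))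
    (@En.n l134 (nat_lit 1976) (nat_lit 1) (nat_lit 14))
    (@En.n l7611 (nat_lit 4881) (nat_lit 2) (nat_lit 5))
    (@En.n l20845 (nat_lit 6682) (nat_lit 3) (nat_lit 7))
    (@En.n l8769 (nat_lit 1983) (nat_lit 4) (nat_lit 10))
    (@En.n l8744 (nat_lit 1983) (nat_lit 5) (nat_lit 7))
    (@En.i (nat_lit 11190) (nat_lit 6) (nat_lit 7))
    (@En.n l7611 (nat_lit 12967) (nat_lit 7) (nat_lit 11))
    (@En.n l15053 (nat_lit 2095) (nat_lit 9) (nat_lit 8))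
    (@En.n l3 (nat_lit 2084) (nat_lit 9) (nat_lit 2))
    (@En.n l8768 (nat_lit 1979) (nat_lit 11) (nat_lit 9))
    (@En.n l3324 (nat_lit 6940) (nat_lit 12) (nat_lit 14))
    (@En.n l17929 (nat_lit 2085) (nat_lit 13) (nat_lit 9))
    (@En.n l7564 (nat_lit 1902) (nat_lit 3) (nat_lit 9))
    (@En.i (nat_lit 5208) (nat_lit 4) (nat_lit 6))
    (@En.n l7 (nat_lit 2084) (nat_lit 15) (nat_lit 2))))
  (@Cl.mk (nat_lit 0x200060009000e000800020007000a000e00070002000a00080006000e0009) (nat_lit 0x60600840026012) (nat_lit 16) Lb.e (@T16.mk En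
    (@En.n l8928 (nat_lit 2083) (nat_lit 5) (nat_lit 9))
    (@En.n l1578 (nat_lit 1978) (nat_lit 7) (nat_lit 14))
    (@En.n l8409 (nat_lit 4924) (nat_lit 2) (nat_lit 6))
    (@En.n l8929 (nat_lit 6716) (nat_lit 14) (nat_lit 8))
    (@En.n l8930 (nat_lit 2084) (nat_lit 4) (nat_lit 10))
    (@En.n l18 (nat_lit 2085) (nat_lit 5) (nat_lit 2))
    (@En.n l8931 (nat_lit 2084) (nat_lit 6) (nat_lit 7))
    (@En.n l1897 (nat_lit 11366) (nat_lit 8) (nat_lit 14))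
    (@En.n l8409 (nat_lit 12973) (nat_lit 8) (nat_lit 10))
    (@En.n l8932 (nat_lit 6552) (nat_lit 3) (nat_lit 7))
    (@En.n l476 (nat_lit 2085) (nat_lit 10) (nat_lit 2))
    (@En.n l4089 (nat_lit 2082) (nat_lit 12) (nat_lit 8))
    (@En.n l8409 (nat_lit 6030) (nat_lit 13) (nat_lit 14))
    (@En.n l8932 (nat_lit 3107) (nat_lit 2) (nat_lit 9))
    (@En.n l8226 (nat_lit 5207) (nat_lit 3) (nat_lit 6))
    (@En.n l28 (nat_lit 2085) (nat_lit 15) (nat_lit 2))))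
  (@Cl.mk (nat_lit 0x200080008000b00080008000b0008000500080008000500080008000e0008) (nat_lit 0x11609601601621) (nat_lit 16) Lb.e (@T16.mk En
    (@En.n l30012 (nat_lit 1939) (nat_lit 9) (nat_lit 8))
    (@En.n l134 (nat_lit 6830) (nat_lit 1) (nat_lit 14))
    (@En.n l16928 (nat_lit 2083) (nat_lit 2) (nat_lit 8))
    (@En.n l33510 (nat_lit 1901) (nat_lit 3) (nat_lit 8))
    (@En.i (nat_lit 5205) (nat_lit 4) (nat_lit 5))
    (@En.n l17 (nat_lit 2087) (nat_lit 8) (nat_lit 8))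
    (@En.n l6788 (nat_lit 1911) (nat_lit 6) (nat_lit 8))
    (@En.n l33511 (nat_lit 4876) (nat_lit 7) (nat_lit 5))
    (@En.i (nat_lit 6692) (nat_lit 9) (nat_lit 8))
    (@En.n l33512 (nat_lit 2088) (nat_lit 10) (nat_lit 11))
    (@En.n l33513 (nat_lit 2088) (nat_lit 11) (nat_lit 8))
    (@En.n l33514 (nat_lit 11192) (nat_lit 12) (nat_lit 8))
    (@En.n l20623 (nat_lit 2084) (nat_lit 7) (nat_lit 11))
    (@En.n l33515 (nat_lit 2084) (nat_lit 8) (nat_lit 8))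
    (@En.n l33516 (nat_lit 2091) (nat_lit 6) (nat_lit 8))
    (@En.n l7 (nat_lit 2086) (nat_lit 15) (nat_lit 2))))
  (@Cl.mk (nat_lit 0x2000b00090009000c000900050008000400070007000e00070002000e0008) (nat_lit 0x2000005000200c1) (nat_lit 16) Lb.e (@T16.mk En
    (@En.n l5 (nat_lit 2086) (nat_lit 14) (nat_lit 8))
    (@En.n l9941 (nat_lit 6834) (nat_lit 1) (nat_lit 14))
    (@En.n l7 (nat_lit 2087) (nat_lit 2) (nat_lit 2))
    (@En.n l29111 (nat_lit 3175) (nat_lit 3) (nat_lit 7))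
    (@En.n l134 (nat_lit 6947) (nat_lit 1) (nat_lit 14))
    (@En.n l16928 (nat_lit 2089) (nat_lit 5) (nat_lit 7))
    (@En.n l4935 (nat_lit 1905) (nat_lit 11) (nat_lit 7))
    (@En.i (nat_lit 5218) (nat_lit 7) (nat_lit 4))
    (@En.n l4935 (nat_lit 4151) (nat_lit 10) (nat_lit 8))
    (@En.n l28430 (nat_lit 4877) (nat_lit 9) (nat_lit 5))
    (@En.i (nat_lit 6690) (nat_lit 11) (nat_lit 9))
    (@En.n l5709 (nat_lit 2090) (nat_lit 12) (nat_lit 12))
    (@En.n l1952 (nat_lit 2090) (nat_lit 13) (nat_lit 9))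
    (@En.n l5705 (nat_lit 6458) (nat_lit 14) (nat_lit 9))
    (@En.i (nat_lit 2086) (nat_lit 12) (nat_lit 11))
    (@En.n l18 (nat_lit 2087) (nat_lit 15) (nat_lit 2))))
  (@Cl.mk (nat_lit 0x200090009000c0008000b00070004000700070005000e00080002000e0009) (nat_lit 0x116800000a2031) (nat_lit 16) Lb.e (@T16.mk En
    (@En.n l7925 (nat_lit 1980) (nat_lit 14) (nat_lit 9))
    (@En.n l17763 (nat_lit 6941) (nat_lit 1) (nat_lit 14))
    (@En.n l107 (nat_lit 2088) (nat_lit 2) (nat_lit 2))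
    (@En.n l17764 (nat_lit 2086) (nat_lit 3) (nat_lit 8))
    (@En.n l17765 (nat_lit 1911) (nat_lit 1) (nat_lit 14))
    (@En.n l17766 (nat_lit 5263) (nat_lit 5) (nat_lit 5))
    (@En.n l17767 (nat_lit 2090) (nat_lit 9) (nat_lit 7))
    (@En.i (nat_lit 1913) (nat_lit 11) (nat_lit 7))
    (@En.n l17768 (nat_lit 4878) (nat_lit 8) (nat_lit 4))
    (@En.n l17769 (nat_lit 6615) (nat_lit 6) (nat_lit 7))
    (@En.i (nat_lit 13000) (nat_lit 7) (nat_lit 11))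
    (@En.i (nat_lit 11193) (nat_lit 12) (nat_lit 8))
    (@En.n l17770 (nat_lit 1983) (nat_lit 6) (nat_lit 12))
    (@En.n l12827 (nat_lit 1983) (nat_lit 7) (nat_lit 9))
    (@En.n l13663 (nat_lit 2093) (nat_lit 12) (nat_lit 9))
    (@En.n l28 (nat_lit 2088) (nat_lit 15) (nat_lit 2))))
  (@Cl.mk (nat_lit 0x2000a000e00090002000c000a0006000900040007000e00060002000e0007) (nat_lit 0x1510100600000c0) (nat_lit 16) Lb.e (@T16.mk En
    (@En.n l1353 (nat_lit 2083) (nat_lit 14) (nat_lit 7))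
    (@En.n l9025 (nat_lit 6832) (nat_lit 1) (nat_lit 14))
    (@En.n l50 (nat_lit 2089) (nat_lit 2) (nat_lit 2))
    (@En.n l9902 (nat_lit 3174) (nat_lit 3) (nat_lit 6))
    (@En.n l8897 (nat_lit 5203) (nat_lit 5) (nat_lit 14))
    (@En.n l3213 (nat_lit 3113) (nat_lit 5) (nat_lit 7))
    (@En.i (nat_lit 5220) (nat_lit 6) (nat_lit 4))
    (@En.n l9025 (nat_lit 4163) (nat_lit 4) (nat_lit 9))
    (@En.n l5082 (nat_lit 4977) (nat_lit 8) (nat_lit 6))
    (@En.n l2682 (nat_lit 5007) (nat_lit 14) (nat_lit 10))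
    (@En.n l14776 (nat_lit 2087) (nat_lit 11) (nat_lit 12))
    (@En.n l3 (nat_lit 2089) (nat_lit 11) (nat_lit 2))
    (@En.n l14493 (nat_lit 2087) (nat_lit 13) (nat_lit 9))
    (@En.i (nat_lit 11361) (nat_lit 1) (nat_lit 14))
    (@En.i (nat_lit 2083) (nat_lit 12) (nat_lit 10))
    (@En.n l17 (nat_lit 2089) (nat_lit 15) (nat_lit 2))))
  (@Cl.mk (nat_lit 0x2000c0009000c0008000400070004000e00070002000e00080002000e0009) (nat_lit 0x27a0000a00300a1) (nat_lit 16) Lb.e (@T16.mk En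
    (@En.n l17479 (nat_lit 2088) (nat_lit 14) (nat_lit 9))
    (@En.n l11611 (nat_lit 6833) (nat_lit 1) (nat_lit 14))
    (@En.n l50 (nat_lit 2090) (nat_lit 2) (nat_lit 2))
    (@En.n l564 (nat_lit 3176) (nat_lit 14) (nat_lit 8))
    (@En.n l8369 (nat_lit 6946) (nat_lit 1) (nat_lit 14))
    (@En.n l28 (nat_lit 2090) (nat_lit 5) (nat_lit 2))
    (@En.n l2683 (nat_lit 2087) (nat_lit 6) (nat_lit 7))
    (@En.n l14529 (nat_lit 1912) (nat_lit 1) (nat_lit 14))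
    (@En.i (nat_lit 5219) (nat_lit 8) (nat_lit 4))
    (@En.n l17480 (nat_lit 4162) (nat_lit 11) (nat_lit 7))
    (@En.n l17481 (nat_lit 4879) (nat_lit 10) (nat_lit 4))
    (@En.n l2381 (nat_lit 6694) (nat_lit 5) (nat_lit 8))
    (@En.n l5390 (nat_lit 14053) (nat_lit 6) (nat_lit 12))
    (@En.n l17482 (nat_lit 6459) (nat_lit 14) (nat_lit 9))
    (@En.n l17483 (nat_lit 2088) (nat_lit 12) (nat_lit 12))
    (@En.n l17 (nat_lit 2090) (nat_lit 15) (nat_lit 2))))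
  (@Cl.mk (nat_lit 0x50008000b00090006000900090005000900080007000b00070007000a0007) (nat_lit 0x140000046040000) (nat_lit 16) Lb.e (@T16.mk En
    (@En.n l43177 (nat_lit 11260) (nat_lit 0) (nat_lit 7))
    (@En.n l43178 (nat_lit 2093) (nat_lit 8) (nat_lit 10))
    (@En.n l43179 (nat_lit 2093) (nat_lit 9) (nat_lit 7))
    (@En.i (nat_lit 10722) (nat_lit 7) (nat_lit 7))
    (@En.n l40067 (nat_lit 2095) (nat_lit 8) (nat_lit 11))
    (@En.n l40067 (nat_lit 6551) (nat_lit 9) (nat_lit 7))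
    (@En.n l17 (nat_lit 2094) (nat_lit 8) (nat_lit 8))
    (@En.i (nat_lit 3304) (nat_lit 10) (nat_lit 9))
    (@En.n l26714 (nat_lit 10651) (nat_lit 8) (nat_lit 5))
    (@En.n l55 (nat_lit 2092) (nat_lit 7) (nat_lit 9))
    (@En.i (nat_lit 6545) (nat_lit 9) (nat_lit 9))
    (@En.n l4758 (nat_lit 1754) (nat_lit 2) (nat_lit 6))
    (@En.n l43180 (nat_lit 6831) (nat_lit 7) (nat_lit 9))
    (@En.n l43181 (nat_lit 6927) (nat_lit 7) (nat_lit 11))
    (@En.n l43180 (nat_lit 2086) (nat_lit 10) (nat_lit 8))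
    (@En.n l28273 (nat_lit 4929) (nat_lit 11) (nat_lit 5))))
  (@Cl.mk (nat_lit 0x2000a000800060009000c000a000600090004000800070006000a000e0007) (nat_lit 0x100150070000400) (nat_lit 16) Lb.e (@T16.mk En
    (@En.i (nat_lit 2091) (nat_lit 3) (nat_lit 7))
    (@En.i (nat_lit 8207) (nat_lit 1) (nat_lit 14))
    (@En.n l9182 (nat_lit 6552) (nat_lit 2) (nat_lit 10))
    (@En.n l9182 (nat_lit 6550) (nat_lit 3) (nat_lit 6))
    (@En.n l17 (nat_lit 6634) (nat_lit 4) (nat_lit 7))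
    (@En.i (nat_lit 3303) (nat_lit 5) (nat_lit 8))
    (@En.n l37030 (nat_lit 9630) (nat_lit 6) (nat_lit 4))
    (@En.i (nat_lit 5522) (nat_lit 9) (nat_lit 9))
    (@En.n l4758 (nat_lit 2585) (nat_lit 8) (nat_lit 6))
    (@En.n l11419 (nat_lit 6837) (nat_lit 10) (nat_lit 10))
    (@En.n l1112 (nat_lit 6928) (nat_lit 6) (nat_lit 12))
    (@En.n l11419 (nat_lit 2087) (nat_lit 12) (nat_lit 9))
    (@En.n l20448 (nat_lit 5417) (nat_lit 13) (nat_lit 6))
    (@En.n l23098 (nat_lit 11258) (nat_lit 14) (nat_lit 8))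
    (@En.n l3506 (nat_lit 2091) (nat_lit 1) (nat_lit 10))
    (@En.n l28 (nat_lit 2092) (nat_lit 15) (nat_lit 2))))
  (@Cl.mk (nat_lit 0x20006000a00090008000c0007000a000600040007000a00080006000e0009) (nat_lit 0x7040800040001) (nat_lit 16) Lb.e (@T16.mk En
    (@En.n l33482 (nat_lit 2091) (nat_lit 10) (nat_lit 9))
    (@En.n l134 (nat_lit 6584) (nat_lit 1) (nat_lit 14))
    (@En.n l32259 (nat_lit 1752) (nat_lit 2) (nat_lit 6))
    (@En.n l27329 (nat_lit 6836) (nat_lit 3) (nat_lit 8))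
    (@En.n l33483 (nat_lit 6934) (nat_lit 4) (nat_lit 10))
    (@En.n l20187 (nat_lit 2084) (nat_lit 5) (nat_lit 7))
    (@En.n l5331 (nat_lit 4928) (nat_lit 6) (nat_lit 4))
    (@En.n l18 (nat_lit 11263) (nat_lit 7) (nat_lit 6))
    (@En.n l2869 (nat_lit 12872) (nat_lit 8) (nat_lit 10))
    (@En.n l33484 (nat_lit 10723) (nat_lit 10) (nat_lit 7))
    (@En.n l3 (nat_lit 6554) (nat_lit 11) (nat_lit 12))
    (@En.n l3 (nat_lit 6553) (nat_lit 12) (nat_lit 8))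
    (@En.n l7642 (nat_lit 6636) (nat_lit 13) (nat_lit 9))
    (@En.n l6392 (nat_lit 3307) (nat_lit 14) (nat_lit 10))
    (@En.i (nat_lit 10654) (nat_lit 13) (nat_lit 6))
    (@En.n l7 (nat_lit 2093) (nat_lit 15) (nat_lit 2))))
  (@Cl.mk (nat_lit 0x3000b000a0007000a000a000500080006000b000600060009000d00050008) (nat_lit 0x500000503000301) (nat_lit 16) Lb.e (@T16.mk En
    (@En.n l5374 (nat_lit 2083) (nat_lit 10) (nat_lit 8))
    (@En.i (nat_lit 4936) (nat_lit 15) (nat_lit 5))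
    (@En.n l14821 (nat_lit 12445) (nat_lit 6) (nat_lit 13))
    (@En.n l2491 (nat_lit 6636) (nat_lit 9) (nat_lit 9))
    (@En.n l7129 (nat_lit 6636) (nat_lit 10) (nat_lit 6))
    (@En.i (nat_lit 10726) (nat_lit 5) (nat_lit 6))
    (@En.n l39929 (nat_lit 6556) (nat_lit 9) (nat_lit 11))
    (@En.i (nat_lit 5691) (nat_lit 7) (nat_lit 6))
    (@En.i (nat_lit 7507) (nat_lit 10) (nat_lit 8))
    (@En.n l26714 (nat_lit 10653) (nat_lit 9) (nat_lit 5))
    (@En.n l55 (nat_lit 6634) (nat_lit 6) (nat_lit 10))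
    (@En.i (nat_lit 6544) (nat_lit 8) (nat_lit 10))
    (@En.n l4758 (nat_lit 1755) (nat_lit 13) (nat_lit 7))
    (@En.n l3866 (nat_lit 5427) (nat_lit 14) (nat_lit 10))
    (@En.i (nat_lit 2091) (nat_lit 13) (nat_lit 11))
    (@En.i (nat_lit 6632) (nat_lit 15) (nat_lit 3))))
  (@Cl.mk (nat_lit 0x30007000a000a0005000a0008000b00060006000900060005000d0008000b) (nat_lit 0x6300000227) (nat_lit 16) Lb.e (@T16.mk En
    (@En.n l2921 (nat_lit 5382) (nat_lit 0) (nat_lit 11))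
    (@En.n l33482 (nat_lit 2091) (nat_lit 14) (nat_lit 8))
    (@En.n l36842 (nat_lit 3126) (nat_lit 2) (nat_lit 13))
    (@En.n l27168 (nat_lit 4926) (nat_lit 3) (nat_lit 5))
    (@En.n l27169 (nat_lit 11261) (nat_lit 4) (nat_lit 6))
    (@En.n l28 (nat_lit 6554) (nat_lit 9) (nat_lit 9))
    (@En.n l77 (nat_lit 6554) (nat_lit 10) (nat_lit 6))
    (@En.n l6081 (nat_lit 10023) (nat_lit 7) (nat_lit 6))
    (@En.i (nat_lit 5902) (nat_lit 7) (nat_lit 11))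
    (@En.n l61 (nat_lit 6556) (nat_lit 10) (nat_lit 8))
    (@En.n l2031 (nat_lit 3306) (nat_lit 11) (nat_lit 10))
    (@En.i (nat_lit 10652) (nat_lit 12) (nat_lit 5))
    (@En.n l14612 (nat_lit 6552) (nat_lit 6) (nat_lit 10))
    (@En.n l3039 (nat_lit 6548) (nat_lit 8) (nat_lit 10))
    (@En.n l2869 (nat_lit 1759) (nat_lit 12) (nat_lit 7))
    (@En.n l117 (nat_lit 6551) (nat_lit 15) (nat_lit 3))))
noncomputable def a131 : T16 Cl := @T16.mk Cl
  (@Cl.mk (nat_lit 0x200090009000c000a000900070004000700070006000e00070002000e0009) (nat_lit 0x3700000c0011) (nat_lit 16) Lb.e (@T16.mk En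
    (@En.n l9552 (nat_lit 1657) (nat_lit 14) (nat_lit 9))
    (@En.n l16094 (nat_lit 495) (nat_lit 1) (nat_lit 14))
    (@En.n l17 (nat_lit 2096) (nat_lit 2) (nat_lit 2))
    (@En.n l16095 (nat_lit 1906) (nat_lit 3) (nat_lit 7))
    (@En.n l13376 (nat_lit 1784) (nat_lit 5) (nat_lit 14))
    (@En.n l16096 (nat_lit 3138) (nat_lit 5) (nat_lit 6))
    (@En.n l16097 (nat_lit 2097) (nat_lit 9) (nat_lit 7))
    (@En.i (nat_lit 1944) (nat_lit 7) (nat_lit 7))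
    (@En.n l590 (nat_lit 1636) (nat_lit 8) (nat_lit 4))
    (@En.n l16098 (nat_lit 299) (nat_lit 6) (nat_lit 7))
    (@En.n l16099 (nat_lit 2100) (nat_lit 11) (nat_lit 9))
    (@En.n l1599 (nat_lit 1628) (nat_lit 12) (nat_lit 10))
    (@En.n l16100 (nat_lit 2098) (nat_lit 6) (nat_lit 12))
    (@En.n l16101 (nat_lit 2098) (nat_lit 7) (nat_lit 9))
    (@En.n l8940 (nat_lit 5291) (nat_lit 12) (nat_lit 9))
    (@En.n l3 (nat_lit 2096) (nat_lit 15) (nat_lit 2))))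
  (@Cl.mk (nat_lit 0x2000c000b000a0008000400070005000e00060002000e00080002000e0009) (nat_lit 0x1481000c00110c1) (nat_lit 16) Lb.e (@T16.mk En
    (@En.n l24355 (nat_lit 2096) (nat_lit 14) (nat_lit 9))
    (@En.n l16012 (nat_lit 6436) (nat_lit 1) (nat_lit 14))
    (@En.n l11 (nat_lit 2097) (nat_lit 2) (nat_lit 2))
    (@En.i (nat_lit 1655) (nat_lit 14) (nat_lit 8))
    (@En.n l3444 (nat_lit 497) (nat_lit 1) (nat_lit 14))
    (@En.n l3 (nat_lit 2097) (nat_lit 5) (nat_lit 2))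
    (@En.n l22376 (nat_lit 1908) (nat_lit 6) (nat_lit 6))
    (@En.n l3973 (nat_lit 1809) (nat_lit 1) (nat_lit 14))
    (@En.i (nat_lit 3133) (nat_lit 8) (nat_lit 5))
    (@En.n l24355 (nat_lit 3942) (nat_lit 11) (nat_lit 7))
    (@En.n l13262 (nat_lit 1637) (nat_lit 10) (nat_lit 4))
    (@En.i (nat_lit 1122) (nat_lit 5) (nat_lit 8))
    (@En.n l22379 (nat_lit 2104) (nat_lit 13) (nat_lit 10))
    (@En.n l61 (nat_lit 1629) (nat_lit 14) (nat_lit 11))
    (@En.n l24356 (nat_lit 2096) (nat_lit 12) (nat_lit 12))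
    (@En.n l7 (nat_lit 2097) (nat_lit 15) (nat_lit 2))))
  (@Cl.mk (nat_lit 0x20007000e00080002000e000a00020009000c0009000800060004000e0007) (nat_lit 0xc601207a260000) (nat_lit 16) Lb.e (@T16.mk En
    (@En.n l6485 (nat_lit 2096) (nat_lit 7) (nat_lit 7))
    (@En.n l6486 (nat_lit 2110) (nat_lit 1) (nat_lit 14))
    (@En.n l7 (nat_lit 1638) (nat_lit 2) (nat_lit 4))
    (@En.i (nat_lit 298) (nat_lit 3) (nat_lit 6))
    (@En.n l5544 (nat_lit 2102) (nat_lit 12) (nat_lit 8))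
    (@En.n l420 (nat_lit 1632) (nat_lit 5) (nat_lit 9))
    (@En.i (nat_lit 13702) (nat_lit 6) (nat_lit 12))
    (@En.n l287 (nat_lit 5293) (nat_lit 12) (nat_lit 9))
    (@En.n l11 (nat_lit 2098) (nat_lit 8) (nat_lit 2))
    (@En.n l5171 (nat_lit 1992) (nat_lit 10) (nat_lit 10))
    (@En.n l407 (nat_lit 499) (nat_lit 1) (nat_lit 14))
    (@En.n l3 (nat_lit 2098) (nat_lit 11) (nat_lit 2))
    (@En.n l6487 (nat_lit 1907) (nat_lit 13) (nat_lit 8))
    (@En.n l38 (nat_lit 1783) (nat_lit 5) (nat_lit 14))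
    (@En.i (nat_lit 3142) (nat_lit 5) (nat_lit 7))
    (@En.n l17 (nat_lit 2098) (nat_lit 15) (nat_lit 2))))
  (@Cl.mk (nat_lit 0x2000a000a000d000a0006000300060006000d0006000e00030002000e000a) (nat_lit 0x3000000400a0) (nat_lit 16) Lb.e (@T16.mk En
    (@En.i (nat_lit 2431) (nat_lit 14) (nat_lit 10))
    (@En.i (nat_lit 6623) (nat_lit 1) (nat_lit 14))
    (@En.n l17 (nat_lit 2099) (nat_lit 2) (nat_lit 2))
    (@En.i (nat_lit 2100) (nat_lit 3) (nat_lit 3))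
    (@En.n l4411 (nat_lit 13028) (nat_lit 0) (nat_lit 14))
    (@En.n l4968 (nat_lit 2096) (nat_lit 5) (nat_lit 6))
    (@En.n l11250 (nat_lit 11162) (nat_lit 7) (nat_lit 13))
    (@En.n l11166 (nat_lit 2103) (nat_lit 10) (nat_lit 6))
    (@En.n l4968 (nat_lit 4658) (nat_lit 8) (nat_lit 6))
    (@En.n l19705 (nat_lit 2108) (nat_lit 9) (nat_lit 3))
    (@En.n l1393 (nat_lit 2862) (nat_lit 0) (nat_lit 6))
    (@En.n l601 (nat_lit 8285) (nat_lit 12) (nat_lit 10))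
    (@En.i (nat_lit 2101) (nat_lit 13) (nat_lit 13))
    (@En.n l143 (nat_lit 2101) (nat_lit 14) (nat_lit 10))
    (@En.n l19706 (nat_lit 5557) (nat_lit 12) (nat_lit 10))
    (@En.n l3 (nat_lit 2099) (nat_lit 15) (nat_lit 2))))
  (@Cl.mk (nat_lit 0x2000a000a000d00090006000300060006000d000d000700030003000e000a) (nat_lit 0x6000001000a0) (nat_lit 16) Lb.e (@T16.mk En
    (@En.n l137 (nat_lit 2107) (nat_lit 13) (nat_lit 10))
    (@En.n l10720 (nat_lit 6624) (nat_lit 1) (nat_lit 14))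
    (@En.n l5332 (nat_lit 2105) (nat_lit 13) (nat_lit 3))
    (@En.n l18 (nat_lit 2099) (nat_lit 3) (nat_lit 3))
    (@En.n l404 (nat_lit 1911) (nat_lit 0) (nat_lit 7))
    (@En.n l61 (nat_lit 2099) (nat_lit 6) (nat_lit 13))
    (@En.n l23521 (nat_lit 11160) (nat_lit 7) (nat_lit 13))
    (@En.n l27327 (nat_lit 2104) (nat_lit 10) (nat_lit 6))
    (@En.n l4968 (nat_lit 4659) (nat_lit 12) (nat_lit 6))
    (@En.n l11059 (nat_lit 2106) (nat_lit 9) (nat_lit 3))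
    (@En.n l137 (nat_lit 2863) (nat_lit 0) (nat_lit 6))
    (@En.n l4909 (nat_lit 8286) (nat_lit 12) (nat_lit 9))
    (@En.n l12442 (nat_lit 2102) (nat_lit 13) (nat_lit 13))
    (@En.n l1878 (nat_lit 2102) (nat_lit 14) (nat_lit 10))
    (@En.n l27328 (nat_lit 5556) (nat_lit 11) (nat_lit 10))
    (@En.n l3 (nat_lit 2100) (nat_lit 15) (nat_lit 2))))
  (@Cl.mk (nat_lit 0x2000a000d000900050003000e00060002000d0007000e00030002000e000b) (nat_lit 0x8b20000000300b0) (nat_lit 16) Lb.e (@T16.mk En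
    (@En.i (nat_lit 2446) (nat_lit 14) (nat_lit 11))
    (@En.n l1327 (nat_lit 6626) (nat_lit 1) (nat_lit 14))
    (@En.n l17 (nat_lit 2101) (nat_lit 2) (nat_lit 2))
    (@En.n l12442 (nat_lit 2102) (nat_lit 3) (nat_lit 3))
    (@En.n l4869 (nat_lit 13030) (nat_lit 0) (nat_lit 14))
    (@En.n l12443 (nat_lit 2098) (nat_lit 14) (nat_lit 7))
    (@En.n l12444 (nat_lit 11163) (nat_lit 7) (nat_lit 13))
    (@En.n l28 (nat_lit 2101) (nat_lit 7) (nat_lit 2))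
    (@En.n l7 (nat_lit 2099) (nat_lit 8) (nat_lit 6))
    (@En.i (nat_lit 4182) (nat_lit 1) (nat_lit 14))
    (@En.n l10161 (nat_lit 3455) (nat_lit 10) (nat_lit 3))
    (@En.n l12445 (nat_lit 2857) (nat_lit 3) (nat_lit 5))
    (@En.n l644 (nat_lit 8284) (nat_lit 13) (nat_lit 9))
    (@En.n l4110 (nat_lit 13447) (nat_lit 5) (nat_lit 13))
    (@En.n l12446 (nat_lit 5561) (nat_lit 12) (nat_lit 10))
    (@En.n l3 (nat_lit 2101) (nat_lit 15) (nat_lit 2))))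
  (@Cl.mk (nat_lit 0x2000a000d000800050003000e00060002000d000d000800030003000e000b) (nat_lit 0x8b50000001200b0) (nat_lit 16) Lb.e (@T16.mk En
    (@En.n l5541 (nat_lit 2400) (nat_lit 9) (nat_lit 11))
    (@En.n l5539 (nat_lit 6628) (nat_lit 1) (nat_lit 14))
    (@En.n l7 (nat_lit 4869) (nat_lit 13) (nat_lit 3))
    (@En.n l10889 (nat_lit 2101) (nat_lit 3) (nat_lit 3))
    (@En.i (nat_lit 1913) (nat_lit 4) (nat_lit 8))
    (@En.n l14723 (nat_lit 2101) (nat_lit 6) (nat_lit 13))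
    (@En.n l5543 (nat_lit 11161) (nat_lit 7) (nat_lit 13))
    (@En.n l107 (nat_lit 2102) (nat_lit 7) (nat_lit 2))
    (@En.n l14724 (nat_lit 2100) (nat_lit 8) (nat_lit 6))
    (@En.n l14725 (nat_lit 3273) (nat_lit 1) (nat_lit 14))
    (@En.n l2101 (nat_lit 2109) (nat_lit 10) (nat_lit 3))
    (@En.n l2921 (nat_lit 2861) (nat_lit 3) (nat_lit 5))
    (@En.n l14726 (nat_lit 7694) (nat_lit 13) (nat_lit 8))
    (@En.i (nat_lit 13448) (nat_lit 5) (nat_lit 13))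
    (@En.i (nat_lit 5559) (nat_lit 11) (nat_lit 10))
    (@En.n l2196 (nat_lit 2102) (nat_lit 15) (nat_lit 2))))
  (@Cl.mk (nat_lit 0x2000d000b000700030006000d0005000e00030002000e00090002000e000a) (nat_lit 0x140000050090041) (nat_lit 16) Lb.e (@T16.mk En
    (@En.n l9737 (nat_lit 2099) (nat_lit 14) (nat_lit 10))
    (@En.n l4701 (nat_lit 5577) (nat_lit 1) (nat_lit 14))
    (@En.n l7 (nat_lit 2103) (nat_lit 2) (nat_lit 2))
    (@En.i (nat_lit 2447) (nat_lit 14) (nat_lit 9))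
    (@En.n l1347 (nat_lit 6625) (nat_lit 1) (nat_lit 14))
    (@En.n l11 (nat_lit 2103) (nat_lit 5) (nat_lit 2))
    (@En.n l117 (nat_lit 2104) (nat_lit 6) (nat_lit 3))
    (@En.n l1347 (nat_lit 13029) (nat_lit 0) (nat_lit 14))
    (@En.n l9733 (nat_lit 2097) (nat_lit 8) (nat_lit 5))
    (@En.n l7217 (nat_lit 12395) (nat_lit 10) (nat_lit 13))
    (@En.i (nat_lit 3937) (nat_lit 12) (nat_lit 6))
    (@En.n l1529 (nat_lit 4854) (nat_lit 11) (nat_lit 3))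
    (@En.n l3090 (nat_lit 3614) (nat_lit 0) (nat_lit 7))
    (@En.n l1501 (nat_lit 8287) (nat_lit 14) (nat_lit 11))
    (@En.n l9736 (nat_lit 2099) (nat_lit 12) (nat_lit 13))
    (@En.n l18 (nat_lit 2103) (nat_lit 15) (nat_lit 2))))
  (@Cl.mk (nat_lit 0x2000d000a000700030006000d000d000600030003000e00090002000e000a) (nat_lit 0x170000100090041) (nat_lit 16) Lb.e (@T16.mk En
    (@En.n l15815 (nat_lit 2100) (nat_lit 14) (nat_lit 10))
    (@En.n l19788 (nat_lit 5576) (nat_lit 1) (nat_lit 14))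
    (@En.n l7 (nat_lit 2104) (nat_lit 2) (nat_lit 2))
    (@En.i (nat_lit 2448) (nat_lit 3) (nat_lit 9))
    (@En.n l19789 (nat_lit 6627) (nat_lit 1) (nat_lit 14))
    (@En.n l10596 (nat_lit 4868) (nat_lit 13) (nat_lit 3))
    (@En.n l152 (nat_lit 2103) (nat_lit 6) (nat_lit 3))
    (@En.n l19790 (nat_lit 1912) (nat_lit 0) (nat_lit 6))
    (@En.n l619 (nat_lit 2103) (nat_lit 9) (nat_lit 13))
    (@En.n l19791 (nat_lit 12396) (nat_lit 10) (nat_lit 13))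
    (@En.i (nat_lit 3935) (nat_lit 12) (nat_lit 6))
    (@En.n l19792 (nat_lit 4824) (nat_lit 11) (nat_lit 3))
    (@En.n l1136 (nat_lit 3613) (nat_lit 0) (nat_lit 7))
    (@En.n l10536 (nat_lit 8288) (nat_lit 14) (nat_lit 10))
    (@En.n l19793 (nat_lit 2100) (nat_lit 12) (nat_lit 13))
    (@En.n l18 (nat_lit 2104) (nat_lit 15) (nat_lit 2))))
  (@Cl.mk (nat_lit 0x200080003000e000a0002000a000a000d00080006000300060006000e000d) (nat_lit 0x30a4000060000a1) (nat_lit 16) Lb.e (@T16.mk En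
    (@En.n l13657 (nat_lit 2100) (nat_lit 6) (nat_lit 13))
    (@En.n l13658 (nat_lit 9236) (nat_lit 1) (nat_lit 14))
    (@En.n l13659 (nat_lit 4868) (nat_lit 2) (nat_lit 6))
    (@En.n l13660 (nat_lit 4660) (nat_lit 3) (nat_lit 6))
    (@En.n l5454 (nat_lit 4825) (nat_lit 4) (nat_lit 3))
    (@En.n l5455 (nat_lit 3621) (nat_lit 0) (nat_lit 6))
    (@En.i (nat_lit 8557) (nat_lit 6) (nat_lit 8))
    (@En.n l13661 (nat_lit 4869) (nat_lit 8) (nat_lit 13))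
    (@En.n l13662 (nat_lit 4869) (nat_lit 9) (nat_lit 10))
    (@En.n l13663 (nat_lit 5558) (nat_lit 10) (nat_lit 10))
    (@En.n l28 (nat_lit 2105) (nat_lit 10) (nat_lit 2))
    (@En.n l7925 (nat_lit 2401) (nat_lit 12) (nat_lit 10))
    (@En.n l13663 (nat_lit 4870) (nat_lit 1) (nat_lit 14))
    (@En.n l13664 (nat_lit 2100) (nat_lit 2) (nat_lit 3))
    (@En.i (nat_lit 2088) (nat_lit 3) (nat_lit 8))
    (@En.n l3 (nat_lit 2105) (nat_lit 15) (nat_lit 2))))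
  (@Cl.mk (nat_lit 0x2000a000a000d0005000a000300060006000d000d000600030003000e000b) (nat_lit 0x30000000080) (nat_lit 16) Lb.e (@T16.mk En
    (@En.i (nat_lit 2456) (nat_lit 13) (nat_lit 11))
    (@En.n l3519 (nat_lit 5116) (nat_lit 1) (nat_lit 14))
    (@En.n l152 (nat_lit 4825) (nat_lit 13) (nat_lit 3))
    (@En.n l29834 (nat_lit 2108) (nat_lit 3) (nat_lit 3))
    (@En.n l97 (nat_lit 5127) (nat_lit 0) (nat_lit 6))
    (@En.n l6144 (nat_lit 2108) (nat_lit 6) (nat_lit 13))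
    (@En.n l22158 (nat_lit 12425) (nat_lit 7) (nat_lit 13))
    (@En.n l29835 (nat_lit 4824) (nat_lit 10) (nat_lit 6))
    (@En.n l29836 (nat_lit 4814) (nat_lit 12) (nat_lit 6))
    (@En.n l649 (nat_lit 2100) (nat_lit 9) (nat_lit 3))
    (@En.i (nat_lit 2496) (nat_lit 0) (nat_lit 10))
    (@En.n l29837 (nat_lit 7406) (nat_lit 7) (nat_lit 5))
    (@En.n l6140 (nat_lit 2109) (nat_lit 13) (nat_lit 13))
    (@En.n l6141 (nat_lit 2109) (nat_lit 14) (nat_lit 10))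
    (@En.n l29838 (nat_lit 5535) (nat_lit 11) (nat_lit 10))
    (@En.n l28 (nat_lit 2106) (nat_lit 15) (nat_lit 2))))
  (@Cl.mk (nat_lit 0x30003000a000a00090009000c000800060006000400070007000d000d0008) (nat_lit 0x86000600000572) (nat_lit 16) Lb.e (@T16.mk En
    (@En.n l13864 (nat_lit 1869) (nat_lit 0) (nat_lit 8))
    (@En.n l148 (nat_lit 2431) (nat_lit 3) (nat_lit 13))
    (@En.n l27513 (nat_lit 11835) (nat_lit 2) (nat_lit 13))
    (@En.n l27514 (nat_lit 2448) (nat_lit 9) (nat_lit 7))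
    (@En.n l27515 (nat_lit 2078) (nat_lit 11) (nat_lit 7))
    (@En.n l27516 (nat_lit 2199) (nat_lit 5) (nat_lit 4))
    (@En.n l5338 (nat_lit 2100) (nat_lit 10) (nat_lit 6))
    (@En.i (nat_lit 2402) (nat_lit 7) (nat_lit 6))
    (@En.n l681 (nat_lit 8277) (nat_lit 9) (nat_lit 8))
    (@En.n l27517 (nat_lit 2400) (nat_lit 6) (nat_lit 12))
    (@En.n l27518 (nat_lit 2400) (nat_lit 7) (nat_lit 9))
    (@En.n l18508 (nat_lit 3662) (nat_lit 12) (nat_lit 9))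
    (@En.n l27519 (nat_lit 2126) (nat_lit 6) (nat_lit 10))
    (@En.n l19313 (nat_lit 2848) (nat_lit 14) (nat_lit 10))
    (@En.n l27520 (nat_lit 2401) (nat_lit 13) (nat_lit 3))
    (@En.n l146 (nat_lit 2431) (nat_lit 0) (nat_lit 3))))
  (@Cl.mk (nat_lit 0x2000a000a000d0005000b000300060006000d0005000e00030002000e000b) (nat_lit 0x3000b040080) (nat_lit 16) Lb.e (@T16.mk En
    (@En.n l7235 (nat_lit 2457) (nat_lit 14) (nat_lit 11))
    (@En.n l6042 (nat_lit 5112) (nat_lit 1) (nat_lit 14))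
    (@En.n l50 (nat_lit 2108) (nat_lit 2) (nat_lit 2))
    (@En.n l9246 (nat_lit 2106) (nat_lit 3) (nat_lit 3))
    (@En.n l1723 (nat_lit 12882) (nat_lit 0) (nat_lit 14))
    (@En.i (nat_lit 1636) (nat_lit 5) (nat_lit 5))
    (@En.n l1353 (nat_lit 11894) (nat_lit 7) (nat_lit 13))
    (@En.n l61 (nat_lit 4854) (nat_lit 10) (nat_lit 6))
    (@En.n l1718 (nat_lit 4817) (nat_lit 12) (nat_lit 6))
    (@En.n l7235 (nat_lit 2099) (nat_lit 9) (nat_lit 3))
    (@En.i (nat_lit 2637) (nat_lit 0) (nat_lit 11))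
    (@En.n l2652 (nat_lit 7407) (nat_lit 8) (nat_lit 5))
    (@En.n l7233 (nat_lit 3455) (nat_lit 13) (nat_lit 13))
    (@En.n l14508 (nat_lit 3455) (nat_lit 14) (nat_lit 10))
    (@En.i (nat_lit 5569) (nat_lit 12) (nat_lit 10))
    (@En.n l3 (nat_lit 2108) (nat_lit 15) (nat_lit 2))))
  (@Cl.mk (nat_lit 0x2000a000d000400090003000e00060002000d000d000700030003000e000c) (nat_lit 0x8b0700000000090) (nat_lit 16) Lb.e (@T16.mk En
    (@En.n l14607 (nat_lit 2403) (nat_lit 9) (nat_lit 12))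
    (@En.n l1599 (nat_lit 5118) (nat_lit 1) (nat_lit 14))
    (@En.n l28 (nat_lit 5120) (nat_lit 13) (nat_lit 3))
    (@En.n l1393 (nat_lit 3455) (nat_lit 3) (nat_lit 3))
    (@En.n l2680 (nat_lit 5126) (nat_lit 0) (nat_lit 7))
    (@En.n l5987 (nat_lit 3455) (nat_lit 6) (nat_lit 13))
    (@En.n l7748 (nat_lit 12419) (nat_lit 7) (nat_lit 13))
    (@En.n l3 (nat_lit 2109) (nat_lit 7) (nat_lit 2))
    (@En.n l10801 (nat_lit 2106) (nat_lit 8) (nat_lit 6))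
    (@En.n l3815 (nat_lit 5122) (nat_lit 1) (nat_lit 14))
    (@En.n l3291 (nat_lit 2102) (nat_lit 10) (nat_lit 3))
    (@En.i (nat_lit 2495) (nat_lit 12) (nat_lit 9))
    (@En.n l2869 (nat_lit 3432) (nat_lit 4) (nat_lit 4))
    (@En.n l7748 (nat_lit 13444) (nat_lit 5) (nat_lit 13))
    (@En.i (nat_lit 5406) (nat_lit 11) (nat_lit 10))
    (@En.n l50 (nat_lit 2109) (nat_lit 15) (nat_lit 2))))
  (@Cl.mk (nat_lit 0x200070007000e00080002000e000a0002000a0009000900080006000e0006) (nat_lit 0xb6025080160c0) (nat_lit 16) Lb.e (@T16.mk En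
    (@En.n l10598 (nat_lit 1613) (nat_lit 8) (nat_lit 6))
    (@En.n l3414 (nat_lit 2118) (nat_lit 1) (nat_lit 14))
    (@En.n l685 (nat_lit 2642) (nat_lit 2) (nat_lit 6))
    (@En.n l217 (nat_lit 3273) (nat_lit 3) (nat_lit 8))
    (@En.n l10599 (nat_lit 1612) (nat_lit 13) (nat_lit 9))
    (@En.n l686 (nat_lit 3722) (nat_lit 5) (nat_lit 9))
    (@En.i (nat_lit 3954) (nat_lit 12) (nat_lit 10))
    (@En.n l3 (nat_lit 2110) (nat_lit 7) (nat_lit 2))
    (@En.i (nat_lit 1615) (nat_lit 9) (nat_lit 10))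
    (@En.i (nat_lit 1682) (nat_lit 1) (nat_lit 14))
    (@En.n l17 (nat_lit 2110) (nat_lit 10) (nat_lit 2))
    (@En.n l1573 (nat_lit 1616) (nat_lit 12) (nat_lit 8))
    (@En.n l5 (nat_lit 1864) (nat_lit 13) (nat_lit 14))
    (@En.n l10600 (nat_lit 2113) (nat_lit 14) (nat_lit 7))
    (@En.n l4968 (nat_lit 2096) (nat_lit 6) (nat_lit 7))
    (@En.n l28 (nat_lit 2110) (nat_lit 15) (nat_lit 2))))
  (@Cl.mk (nat_lit 0x2000800070007000e000800020008000e00080002000900090008000e0008) (nat_lit 0x6004103c1017603) (nat_lit 16) Lb.e (@T16.mk En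
    (@En.n l10516 (nat_lit 1615) (nat_lit 6) (nat_lit 8))
    (@En.n l10517 (nat_lit 2119) (nat_lit 12) (nat_lit 14))
    (@En.n l10518 (nat_lit 3095) (nat_lit 2) (nat_lit 8))
    (@En.n l10519 (nat_lit 2113) (nat_lit 3) (nat_lit 9))
    (@En.n l10520 (nat_lit 1901) (nat_lit 4) (nat_lit 9))
    (@En.n l11 (nat_lit 2111) (nat_lit 5) (nat_lit 2))
    (@En.n l10521 (nat_lit 1616) (nat_lit 6) (nat_lit 8))
    (@En.n l10096 (nat_lit 2118) (nat_lit 8) (nat_lit 14))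
    (@En.n l10522 (nat_lit 3136) (nat_lit 2) (nat_lit 8))
    (@En.n l17 (nat_lit 2111) (nat_lit 9) (nat_lit 2))
    (@En.n l10523 (nat_lit 1616) (nat_lit 4) (nat_lit 8))
    (@En.n l10524 (nat_lit 1978) (nat_lit 12) (nat_lit 14))
    (@En.n l10525 (nat_lit 2113) (nat_lit 2) (nat_lit 7))
    (@En.n l10526 (nat_lit 2074) (nat_lit 14) (nat_lit 7))
    (@En.i (nat_lit 4469) (nat_lit 4) (nat_lit 8))
    (@En.n l3 (nat_lit 2111) (nat_lit 15) (nat_lit 2))))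
noncomputable def a132 : T16 Cl := @T16.mk Cl
  (@Cl.mk (nat_lit 0x200090009000e000a0002000a0008000700070006000e00060002000e0008) (nat_lit 0x601108600060011) (nat_lit 16) Lb.e (@T16.mk En
    (@En.i (nat_lit 1616) (nat_lit 14) (nat_lit 8))
    (@En.i (nat_lit 1701) (nat_lit 1) (nat_lit 14))
    (@En.n l17 (nat_lit 2112) (nat_lit 2) (nat_lit 2))
    (@En.n l137 (nat_lit 1615) (nat_lit 3) (nat_lit 6))
    (@En.i (nat_lit 2119) (nat_lit 5) (nat_lit 14))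
    (@En.i (nat_lit 3275) (nat_lit 5) (nat_lit 6))
    (@En.n l10506 (nat_lit 1612) (nat_lit 12) (nat_lit 7))
    (@En.i (nat_lit 4476) (nat_lit 7) (nat_lit 7))
    (@En.n l3207 (nat_lit 3683) (nat_lit 14) (nat_lit 8))
    (@En.n l3699 (nat_lit 3355) (nat_lit 10) (nat_lit 10))
    (@En.n l7 (nat_lit 2112) (nat_lit 10) (nat_lit 2))
    (@En.n l644 (nat_lit 1613) (nat_lit 12) (nat_lit 10))
    (@En.n l10507 (nat_lit 1868) (nat_lit 13) (nat_lit 14))
    (@En.i (nat_lit 2113) (nat_lit 7) (nat_lit 9))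
    (@En.n l107 (nat_lit 1654) (nat_lit 12) (nat_lit 9))
    (@En.n l3 (nat_lit 2112) (nat_lit 15) (nat_lit 2))))
  (@Cl.mk (nat_lit 0x20007000e00070002000e000900020009000e0009000200090007000e0007) (nat_lit 0xb0012070106000) (nat_lit 16) Lb.e (@T16.mk En
    (@En.n l575 (nat_lit 2112) (nat_lit 7) (nat_lit 7))
    (@En.n l11 (nat_lit 2114) (nat_lit 13) (nat_lit 14))
    (@En.n l3768 (nat_lit 4770) (nat_lit 2) (nat_lit 7))
    (@En.n l3769 (nat_lit 4474) (nat_lit 3) (nat_lit 9))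
    (@En.n l7 (nat_lit 2113) (nat_lit 4) (nat_lit 2))
    (@En.n l3770 (nat_lit 2110) (nat_lit 5) (nat_lit 9))
    (@En.n l3771 (nat_lit 2116) (nat_lit 7) (nat_lit 14))
    (@En.n l3772 (nat_lit 4215) (nat_lit 12) (nat_lit 9))
    (@En.n l3 (nat_lit 2113) (nat_lit 8) (nat_lit 2))
    (@En.n l3773 (nat_lit 2111) (nat_lit 4) (nat_lit 9))
    (@En.n l3774 (nat_lit 1703) (nat_lit 1) (nat_lit 14))
    (@En.n l17 (nat_lit 2113) (nat_lit 11) (nat_lit 2))
    (@En.n l3775 (nat_lit 2111) (nat_lit 13) (nat_lit 7))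
    (@En.n l3776 (nat_lit 2114) (nat_lit 5) (nat_lit 14))
    (@En.n l2530 (nat_lit 3137) (nat_lit 5) (nat_lit 7))
    (@En.n l11 (nat_lit 2113) (nat_lit 15) (nat_lit 2))))
  (@Cl.mk (nat_lit 0x20009000e00060002000a0007000e00070002000e00060002000a000e0009) (nat_lit 0xc0060100a000c0) (nat_lit 16) Lb.e (@T16.mk En
    (@En.n l644 (nat_lit 2118) (nat_lit 4) (nat_lit 9))
    (@En.n l10544 (nat_lit 1890) (nat_lit 6) (nat_lit 14))
    (@En.n l10545 (nat_lit 2121) (nat_lit 12) (nat_lit 10))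
    (@En.n l3 (nat_lit 2114) (nat_lit 3) (nat_lit 2))
    (@En.n l10083 (nat_lit 4777) (nat_lit 14) (nat_lit 6))
    (@En.n l10546 (nat_lit 12838) (nat_lit 1) (nat_lit 14))
    (@En.n l17 (nat_lit 2114) (nat_lit 6) (nat_lit 2))
    (@En.n l10547 (nat_lit 2119) (nat_lit 7) (nat_lit 7))
    (@En.n l10548 (nat_lit 42) (nat_lit 1) (nat_lit 14))
    (@En.n l10544 (nat_lit 11639) (nat_lit 14) (nat_lit 7))
    (@En.n l8947 (nat_lit 2120) (nat_lit 11) (nat_lit 10))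
    (@En.n l11 (nat_lit 2114) (nat_lit 11) (nat_lit 2))
    (@En.n l575 (nat_lit 4897) (nat_lit 13) (nat_lit 6))
    (@En.n l10549 (nat_lit 2986) (nat_lit 10) (nat_lit 14))
    (@En.n l10550 (nat_lit 3401) (nat_lit 2) (nat_lit 9))
    (@En.n l7 (nat_lit 2114) (nat_lit 15) (nat_lit 2))))
  (@Cl.mk (nat_lit 0x20006000e000a0002000e0009000200090006000e000a00020007000e0007) (nat_lit 0x200c0000100010) (nat_lit 16) Lb.e (@T16.mk En
    (@En.n l1134 (nat_lit 5042) (nat_lit 13) (nat_lit 7))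
    (@En.n l1135 (nat_lit 15) (nat_lit 1) (nat_lit 14))
    (@En.n l1136 (nat_lit 10795) (nat_lit 2) (nat_lit 7))
    (@En.n l3 (nat_lit 2115) (nat_lit 3) (nat_lit 2))
    (@En.n l152 (nat_lit 4894) (nat_lit 4) (nat_lit 10))
    (@En.n l1137 (nat_lit 2113) (nat_lit 6) (nat_lit 14))
    (@En.n l1138 (nat_lit 12759) (nat_lit 6) (nat_lit 6))
    (@En.n l1139 (nat_lit 4557) (nat_lit 12) (nat_lit 9))
    (@En.n l7 (nat_lit 2115) (nat_lit 8) (nat_lit 2))
    (@En.n l644 (nat_lit 4890) (nat_lit 5) (nat_lit 9))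
    (@En.n l1140 (nat_lit 11656) (nat_lit 1) (nat_lit 14))
    (@En.n l11 (nat_lit 2115) (nat_lit 11) (nat_lit 2))
    (@En.n l1141 (nat_lit 4778) (nat_lit 13) (nat_lit 10))
    (@En.n l1142 (nat_lit 2113) (nat_lit 10) (nat_lit 14))
    (@En.n l1143 (nat_lit 12516) (nat_lit 5) (nat_lit 6))
    (@En.n l17 (nat_lit 2115) (nat_lit 15) (nat_lit 2))))
  (@Cl.mk (nat_lit 0x20008000e00070002000e00090002000e00080002000c00090007000e0004) (nat_lit 0x200200c00700c0) (nat_lit 16) Lb.e (@T16.mk En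
    (@En.n l10601 (nat_lit 4907) (nat_lit 10) (nat_lit 4))
    (@En.i (nat_lit 1890) (nat_lit 1) (nat_lit 14))
    (@En.n l685 (nat_lit 4724) (nat_lit 2) (nat_lit 7))
    (@En.n l2054 (nat_lit 11637) (nat_lit 3) (nat_lit 9))
    (@En.n l10602 (nat_lit 2122) (nat_lit 12) (nat_lit 12))
    (@En.n l11 (nat_lit 2116) (nat_lit 5) (nat_lit 2))
    (@En.n l10603 (nat_lit 4905) (nat_lit 14) (nat_lit 8))
    (@En.n l10604 (nat_lit 10100) (nat_lit 1) (nat_lit 14))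
    (@En.n l3 (nat_lit 2116) (nat_lit 8) (nat_lit 2))
    (@En.n l685 (nat_lit 2119) (nat_lit 14) (nat_lit 9))
    (@En.n l10193 (nat_lit 5001) (nat_lit 1) (nat_lit 14))
    (@En.n l17 (nat_lit 2116) (nat_lit 11) (nat_lit 2))
    (@En.n l10605 (nat_lit 2118) (nat_lit 13) (nat_lit 7))
    (@En.n l10606 (nat_lit 2986) (nat_lit 1) (nat_lit 14))
    (@En.n l10607 (nat_lit 3144) (nat_lit 5) (nat_lit 8))
    (@En.n l50 (nat_lit 2116) (nat_lit 15) (nat_lit 2))))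
  (@Cl.mk (nat_lit 0x20008000e000c0002000900070004000e00080002000e00070002000e0009) (nat_lit 0x140000100000a0) (nat_lit 16) Lb.e (@T16.mk En
    (@En.n l1209 (nat_lit 5042) (nat_lit 4) (nat_lit 9))
    (@En.n l1210 (nat_lit 4990) (nat_lit 1) (nat_lit 14))
    (@En.n l17 (nat_lit 2117) (nat_lit 2) (nat_lit 2))
    (@En.n l1211 (nat_lit 4890) (nat_lit 14) (nat_lit 7))
    (@En.n l1212 (nat_lit 12548) (nat_lit 1) (nat_lit 14))
    (@En.n l50 (nat_lit 2117) (nat_lit 5) (nat_lit 2))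
    (@En.n l1213 (nat_lit 4895) (nat_lit 6) (nat_lit 8))
    (@En.n l1214 (nat_lit 2113) (nat_lit 1) (nat_lit 14))
    (@En.i (nat_lit 12621) (nat_lit 8) (nat_lit 4))
    (@En.n l1215 (nat_lit 4751) (nat_lit 14) (nat_lit 7))
    (@En.n l1216 (nat_lit 7968) (nat_lit 11) (nat_lit 9))
    (@En.n l11 (nat_lit 2117) (nat_lit 11) (nat_lit 2))
    (@En.n l1217 (nat_lit 4906) (nat_lit 13) (nat_lit 12))
    (@En.i (nat_lit 1612) (nat_lit 1) (nat_lit 14))
    (@En.n l1209 (nat_lit 8162) (nat_lit 12) (nat_lit 8))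
    (@En.n l3 (nat_lit 2117) (nat_lit 15) (nat_lit 2))))
  (@Cl.mk (nat_lit 0x2000900070007000e00080002000e00070002000b000900090008000e0005) (nat_lit 0x10b007716b0) (nat_lit 16) Lb.e (@T16.mk En
    (@En.n l575 (nat_lit 4898) (nat_lit 9) (nat_lit 5))
    (@En.n l5402 (nat_lit 2980) (nat_lit 1) (nat_lit 14))
    (@En.n l23947 (nat_lit 3991) (nat_lit 2) (nat_lit 8))
    (@En.n l23948 (nat_lit 2116) (nat_lit 3) (nat_lit 9))
    (@En.n l23949 (nat_lit 5734) (nat_lit 4) (nat_lit 9))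
    (@En.n l23950 (nat_lit 3150) (nat_lit 12) (nat_lit 11))
    (@En.n l3 (nat_lit 2118) (nat_lit 6) (nat_lit 2))
    (@En.n l23012 (nat_lit 4782) (nat_lit 14) (nat_lit 7))
    (@En.i (nat_lit 11134) (nat_lit 1) (nat_lit 14))
    (@En.n l17 (nat_lit 2118) (nat_lit 9) (nat_lit 2))
    (@En.n l23951 (nat_lit 62) (nat_lit 3) (nat_lit 8))
    (@En.n l20908 (nat_lit 4832) (nat_lit 12) (nat_lit 14))
    (@En.n l3787 (nat_lit 2114) (nat_lit 9) (nat_lit 7))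
    (@En.n l5402 (nat_lit 5738) (nat_lit 14) (nat_lit 7))
    (@En.n l8947 (nat_lit 3147) (nat_lit 4) (nat_lit 9))
    (@En.n l11 (nat_lit 2118) (nat_lit 15) (nat_lit 2))))
  (@Cl.mk (nat_lit 0x200090009000e00070002000b000800070007000e000500020009000e0008) (nat_lit 0x71c007600500321) (nat_lit 16) Lb.e (@T16.mk En
    (@En.n l23926 (nat_lit 62) (nat_lit 5) (nat_lit 8))
    (@En.n l9291 (nat_lit 2980) (nat_lit 7) (nat_lit 14))
    (@En.i (nat_lit 3146) (nat_lit 2) (nat_lit 9))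
    (@En.n l17 (nat_lit 2119) (nat_lit 3) (nat_lit 2))
    (@En.n l23927 (nat_lit 4781) (nat_lit 4) (nat_lit 5))
    (@En.n l23928 (nat_lit 5743) (nat_lit 6) (nat_lit 14))
    (@En.n l10506 (nat_lit 2116) (nat_lit 2) (nat_lit 7))
    (@En.i (nat_lit 4478) (nat_lit 3) (nat_lit 7))
    (@En.n l7321 (nat_lit 11632) (nat_lit 14) (nat_lit 8))
    (@En.n l7557 (nat_lit 3151) (nat_lit 10) (nat_lit 11))
    (@En.n l7 (nat_lit 2119) (nat_lit 10) (nat_lit 2))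
    (@En.n l7318 (nat_lit 4899) (nat_lit 7) (nat_lit 7))
    (@En.n l9291 (nat_lit 5750) (nat_lit 13) (nat_lit 14))
    (@En.n l3776 (nat_lit 2114) (nat_lit 14) (nat_lit 9))
    (@En.n l23929 (nat_lit 3181) (nat_lit 11) (nat_lit 9))
    (@En.n l3 (nat_lit 2119) (nat_lit 15) (nat_lit 2))))
  (@Cl.mk (nat_lit 0x2000a00070006000a0006000e00060002000d000600090003000a000e000a) (nat_lit 0x500005030400) (nat_lit 16) Lb.e (@T16.mk En
    (@En.n l644 (nat_lit 3147) (nat_lit 9) (nat_lit 10))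
    (@En.n l24002 (nat_lit 7937) (nat_lit 10) (nat_lit 14))
    (@En.n l11 (nat_lit 4896) (nat_lit 11) (nat_lit 10))
    (@En.n l11616 (nat_lit 4560) (nat_lit 3) (nat_lit 3))
    (@En.n l97 (nat_lit 2113) (nat_lit 9) (nat_lit 9))
    (@En.n l5411 (nat_lit 4475) (nat_lit 14) (nat_lit 6))
    (@En.n l21947 (nat_lit 10965) (nat_lit 7) (nat_lit 13))
    (@En.n l17 (nat_lit 2120) (nat_lit 7) (nat_lit 2))
    (@En.n l10592 (nat_lit 3151) (nat_lit 8) (nat_lit 6))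
    (@En.n l181 (nat_lit 3404) (nat_lit 1) (nat_lit 14))
    (@En.i (nat_lit 10222) (nat_lit 2) (nat_lit 6))
    (@En.n l1157 (nat_lit 4561) (nat_lit 12) (nat_lit 10))
    (@En.i (nat_lit 4562) (nat_lit 13) (nat_lit 6))
    (@En.n l24003 (nat_lit 7479) (nat_lit 14) (nat_lit 7))
    (@En.n l11391 (nat_lit 4296) (nat_lit 11) (nat_lit 10))
    (@En.n l7 (nat_lit 2120) (nat_lit 15) (nat_lit 2))))
  (@Cl.mk (nat_lit 0x200070006000a000e000800020008000d000600090003000a0008000e0008) (nat_lit 0x8000000206000) (nat_lit 16) Lb.e (@T16.mk En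
    (@En.n l23994 (nat_lit 3146) (nat_lit 6) (nat_lit 8))
    (@En.n l3870 (nat_lit 3404) (nat_lit 8) (nat_lit 14))
    (@En.n l18936 (nat_lit 11237) (nat_lit 2) (nat_lit 8))
    (@En.n l23995 (nat_lit 4896) (nat_lit 3) (nat_lit 10))
    (@En.n l23996 (nat_lit 4212) (nat_lit 4) (nat_lit 3))
    (@En.n l23997 (nat_lit 2113) (nat_lit 5) (nat_lit 9))
    (@En.n l7494 (nat_lit 4213) (nat_lit 6) (nat_lit 6))
    (@En.n l18941 (nat_lit 8067) (nat_lit 8) (nat_lit 13))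
    (@En.n l23998 (nat_lit 4219) (nat_lit 9) (nat_lit 8))
    (@En.n l17 (nat_lit 2121) (nat_lit 9) (nat_lit 2))
    (@En.n l23999 (nat_lit 3150) (nat_lit 11) (nat_lit 8))
    (@En.i (nat_lit 6383) (nat_lit 12) (nat_lit 14))
    (@En.n l24000 (nat_lit 4217) (nat_lit 13) (nat_lit 10))
    (@En.i (nat_lit 4218) (nat_lit 14) (nat_lit 6))
    (@En.n l18944 (nat_lit 9451) (nat_lit 4) (nat_lit 7))
    (@En.n l3 (nat_lit 2121) (nat_lit 15) (nat_lit 2))))
  (@Cl.mk (nat_lit 0x200090008000c00080006000d0004000700030008000e00080002000e000a) (nat_lit 0x706003000400000) (nat_lit 16) Lb.e (@T16.mk En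
    (@En.i (nat_lit 3151) (nat_lit 14) (nat_lit 10))
    (@En.n l61 (nat_lit 2471) (nat_lit 1) (nat_lit 14))
    (@En.n l3 (nat_lit 2122) (nat_lit 2) (nat_lit 2))
    (@En.n l7028 (nat_lit 3150) (nat_lit 3) (nat_lit 8))
    (@En.n l11586 (nat_lit 11320) (nat_lit 5) (nat_lit 14))
    (@En.n l16019 (nat_lit 4903) (nat_lit 5) (nat_lit 8))
    (@En.n l14057 (nat_lit 3951) (nat_lit 6) (nat_lit 3))
    (@En.n l16020 (nat_lit 2113) (nat_lit 0) (nat_lit 7))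
    (@En.n l9378 (nat_lit 3952) (nat_lit 8) (nat_lit 4))
    (@En.n l16021 (nat_lit 11538) (nat_lit 10) (nat_lit 13))
    (@En.i (nat_lit 4389) (nat_lit 7) (nat_lit 6))
    (@En.n l16022 (nat_lit 10242) (nat_lit 12) (nat_lit 8))
    (@En.n l14057 (nat_lit 3949) (nat_lit 13) (nat_lit 12))
    (@En.i (nat_lit 3948) (nat_lit 14) (nat_lit 8))
    (@En.n l14059 (nat_lit 9606) (nat_lit 12) (nat_lit 9))
    (@En.n l11 (nat_lit 2122) (nat_lit 15) (nat_lit 2))))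
  (@Cl.mk (nat_lit 0x3000a000900090009000900070006000a0007000700070007000d00060009) (nat_lit 0x100000080000505) (nat_lit 16) Lb.e (@T16.mk En
    (@En.n l10957 (nat_lit 1616) (nat_lit 9) (nat_lit 9))
    (@En.n l61 (nat_lit 3153) (nat_lit 15) (nat_lit 6))
    (@En.n l27594 (nat_lit 5172) (nat_lit 2) (nat_lit 13))
    (@En.n l24496 (nat_lit 3150) (nat_lit 9) (nat_lit 7))
    (@En.n l40350 (nat_lit 3156) (nat_lit 9) (nat_lit 7))
    (@En.n l40351 (nat_lit 3151) (nat_lit 9) (nat_lit 7))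
    (@En.n l26559 (nat_lit 6040) (nat_lit 6) (nat_lit 7))
    (@En.n l27655 (nat_lit 3148) (nat_lit 9) (nat_lit 10))
    (@En.n l19348 (nat_lit 3154) (nat_lit 8) (nat_lit 6))
    (@En.i (nat_lit 5884) (nat_lit 9) (nat_lit 7))
    (@En.n l26560 (nat_lit 3147) (nat_lit 7) (nat_lit 9))
    (@En.n l31488 (nat_lit 3155) (nat_lit 7) (nat_lit 9))
    (@En.n l9518 (nat_lit 3146) (nat_lit 7) (nat_lit 9))
    (@En.n l11642 (nat_lit 6526) (nat_lit 7) (nat_lit 9))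
    (@En.n l22890 (nat_lit 58) (nat_lit 4) (nat_lit 10))
    (@En.n l18 (nat_lit 3149) (nat_lit 15) (nat_lit 3))))
  (@Cl.mk (nat_lit 0x20006000e000900020009000e000a0002000a0007000a00070006000e0006) (nat_lit 0x21006604070060) (nat_lit 16) Lb.e (@T16.mk En
    (@En.i (nat_lit 1992) (nat_lit 4) (nat_lit 6))
    (@En.i (nat_lit 5024) (nat_lit 1) (nat_lit 14))
    (@En.i (nat_lit 2127) (nat_lit 2) (nat_lit 6))
    (@En.i (nat_lit 1192) (nat_lit 7) (nat_lit 7))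
    (@En.n l357 (nat_lit 13031) (nat_lit 8) (nat_lit 10))
    (@En.n l1219 (nat_lit 6760) (nat_lit 5) (nat_lit 7))
    (@En.n l3699 (nat_lit 3346) (nat_lit 11) (nat_lit 10))
    (@En.n l7 (nat_lit 2124) (nat_lit 7) (nat_lit 2))
    (@En.n l644 (nat_lit 1932) (nat_lit 9) (nat_lit 10))
    (@En.n l134 (nat_lit 1810) (nat_lit 10) (nat_lit 14))
    (@En.n l11 (nat_lit 4213) (nat_lit 11) (nat_lit 9))
    (@En.n l107 (nat_lit 2124) (nat_lit 11) (nat_lit 2))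
    (@En.i (nat_lit 1654) (nat_lit 13) (nat_lit 9))
    (@En.n l97 (nat_lit 2112) (nat_lit 1) (nat_lit 14))
    (@En.i (nat_lit 1727) (nat_lit 2) (nat_lit 6))
    (@En.n l17 (nat_lit 2124) (nat_lit 15) (nat_lit 2))))
  (@Cl.mk (nat_lit 0x20005000e00080002000d0009000e00030002000b0008000b0007000e0005) (nat_lit 0x20081500500020) (nat_lit 16) Lb.e (@T16.mk En
    (@En.n l11642 (nat_lit 2446) (nat_lit 9) (nat_lit 5))
    (@En.n l11643 (nat_lit 2134) (nat_lit 1) (nat_lit 14))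
    (@En.i (nat_lit 8270) (nat_lit 2) (nat_lit 7))
    (@En.i (nat_lit 13458) (nat_lit 7) (nat_lit 11))
    (@En.n l1219 (nat_lit 4008) (nat_lit 4) (nat_lit 8))
    (@En.n l564 (nat_lit 6918) (nat_lit 10) (nat_lit 11))
    (@En.n l7 (nat_lit 2125) (nat_lit 6) (nat_lit 2))
    (@En.n l28 (nat_lit 2127) (nat_lit 7) (nat_lit 3))
    (@En.n l540 (nat_lit 12886) (nat_lit 0) (nat_lit 14))
    (@En.i (nat_lit 2124) (nat_lit 10) (nat_lit 9))
    (@En.i (nat_lit 11909) (nat_lit 11) (nat_lit 13))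
    (@En.n l107 (nat_lit 2125) (nat_lit 11) (nat_lit 2))
    (@En.n l11644 (nat_lit 2128) (nat_lit 13) (nat_lit 8))
    (@En.n l360 (nat_lit 3286) (nat_lit 1) (nat_lit 14))
    (@En.i (nat_lit 2166) (nat_lit 13) (nat_lit 5))
    (@En.n l17 (nat_lit 2125) (nat_lit 15) (nat_lit 2))))
  (@Cl.mk (nat_lit 0x2000500080008000d000d000900030003000a00080008000b0007000e0006) (nat_lit 0x56720050000b0) (nat_lit 16) Lb.e (@T16.mk En
    (@En.n l14073 (nat_lit 2107) (nat_lit 7) (nat_lit 6))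
    (@En.n l20765 (nat_lit 2132) (nat_lit 1) (nat_lit 14))
    (@En.n l877 (nat_lit 8272) (nat_lit 2) (nat_lit 7))
    (@En.n l27452 (nat_lit 2127) (nat_lit 3) (nat_lit 11))
    (@En.n l27453 (nat_lit 2127) (nat_lit 4) (nat_lit 8))
    (@En.i (nat_lit 4007) (nat_lit 5) (nat_lit 8))
    (@En.n l6578 (nat_lit 5423) (nat_lit 7) (nat_lit 10))
    (@En.n l50 (nat_lit 2130) (nat_lit 7) (nat_lit 3))
    (@En.n l878 (nat_lit 2128) (nat_lit 8) (nat_lit 3))
    (@En.i (nat_lit 1956) (nat_lit 10) (nat_lit 9))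
    (@En.n l27454 (nat_lit 2128) (nat_lit 11) (nat_lit 13))
    (@En.n l532 (nat_lit 11903) (nat_lit 12) (nat_lit 13))
    (@En.n l22256 (nat_lit 2131) (nat_lit 13) (nat_lit 8))
    (@En.n l27455 (nat_lit 3100) (nat_lit 14) (nat_lit 8))
    (@En.i (nat_lit 1800) (nat_lit 13) (nat_lit 5))
    (@En.n l3 (nat_lit 2126) (nat_lit 15) (nat_lit 2))))
  (@Cl.mk (nat_lit 0x20005000e00080002000d000d000a00030003000b0008000b0006000e0005) (nat_lit 0x210792005690b0) (nat_lit 16) Lb.e (@T16.mk En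
    (@En.i (nat_lit 2400) (nat_lit 4) (nat_lit 5))
    (@En.n l12 (nat_lit 2133) (nat_lit 1) (nat_lit 14))
    (@En.i (nat_lit 4628) (nat_lit 2) (nat_lit 6))
    (@En.i (nat_lit 13457) (nat_lit 7) (nat_lit 11))
    (@En.n l1219 (nat_lit 4005) (nat_lit 4) (nat_lit 8))
    (@En.n l564 (nat_lit 6914) (nat_lit 10) (nat_lit 11))
    (@En.n l20897 (nat_lit 2129) (nat_lit 6) (nat_lit 3))
    (@En.i (nat_lit 2125) (nat_lit 7) (nat_lit 3))
    (@En.n l4380 (nat_lit 1957) (nat_lit 9) (nat_lit 10))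
    (@En.n l134 (nat_lit 2125) (nat_lit 10) (nat_lit 13))
    (@En.n l11 (nat_lit 12733) (nat_lit 11) (nat_lit 13))
    (@En.n l107 (nat_lit 2127) (nat_lit 11) (nat_lit 2))
    (@En.n l1219 (nat_lit 2126) (nat_lit 13) (nat_lit 8))
    (@En.n l97 (nat_lit 3275) (nat_lit 1) (nat_lit 14))
    (@En.n l1219 (nat_lit 2159) (nat_lit 13) (nat_lit 5))
    (@En.n l17 (nat_lit 2127) (nat_lit 15) (nat_lit 2))))
noncomputable def a133 : T16 Cl := @T16.mk Cl
  (@Cl.mk (nat_lit 0x2000500080008000d0008000e00030002000a00080008000b0008000e0006) (nat_lit 0x656130050113b0) (nat_lit 16) Lb.e (@T16.mk En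
    (@En.n l4263 (nat_lit 2431) (nat_lit 8) (nat_lit 6))
    (@En.n l14842 (nat_lit 2135) (nat_lit 1) (nat_lit 14))
    (@En.i (nat_lit 8271) (nat_lit 2) (nat_lit 8))
    (@En.n l3199 (nat_lit 2125) (nat_lit 3) (nat_lit 11))
    (@En.n l2667 (nat_lit 2125) (nat_lit 4) (nat_lit 8))
    (@En.n l5969 (nat_lit 4010) (nat_lit 5) (nat_lit 8))
    (@En.n l10994 (nat_lit 6920) (nat_lit 7) (nat_lit 10))
    (@En.n l11 (nat_lit 2128) (nat_lit 7) (nat_lit 2))
    (@En.n l14843 (nat_lit 2126) (nat_lit 8) (nat_lit 3))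
    (@En.n l619 (nat_lit 721) (nat_lit 0) (nat_lit 14))
    (@En.n l10629 (nat_lit 1654) (nat_lit 11) (nat_lit 8))
    (@En.n l14844 (nat_lit 11905) (nat_lit 12) (nat_lit 13))
    (@En.n l14845 (nat_lit 2450) (nat_lit 13) (nat_lit 8))
    (@En.n l14842 (nat_lit 3976) (nat_lit 14) (nat_lit 8))
    (@En.n l14846 (nat_lit 1799) (nat_lit 13) (nat_lit 5))
    (@En.n l50 (nat_lit 2128) (nat_lit 15) (nat_lit 2))))
  (@Cl.mk (nat_lit 0x20005000e00080002000e000d0002000b0003000b0008000b0005000e0005) (nat_lit 0x200580305000b0) (nat_lit 16) Lb.e (@T16.mk En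
    (@En.n l10473 (nat_lit 2398) (nat_lit 7) (nat_lit 5))
    (@En.i (nat_lit 2137) (nat_lit 9) (nat_lit 14))
    (@En.n l199 (nat_lit 4627) (nat_lit 2) (nat_lit 5))
    (@En.n l1803 (nat_lit 13459) (nat_lit 7) (nat_lit 11))
    (@En.i (nat_lit 4003) (nat_lit 4) (nat_lit 8))
    (@En.i (nat_lit 5680) (nat_lit 13) (nat_lit 11))
    (@En.n l877 (nat_lit 2127) (nat_lit 6) (nat_lit 3))
    (@En.i (nat_lit 1982) (nat_lit 8) (nat_lit 11))
    (@En.n l7 (nat_lit 2129) (nat_lit 8) (nat_lit 2))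
    (@En.n l1285 (nat_lit 2127) (nat_lit 10) (nat_lit 13))
    (@En.n l287 (nat_lit 5671) (nat_lit 1) (nat_lit 14))
    (@En.n l11 (nat_lit 2129) (nat_lit 11) (nat_lit 2))
    (@En.i (nat_lit 2130) (nat_lit 13) (nat_lit 8))
    (@En.n l10474 (nat_lit 3287) (nat_lit 1) (nat_lit 14))
    (@En.i (nat_lit 2157) (nat_lit 13) (nat_lit 5))
    (@En.n l3 (nat_lit 2129) (nat_lit 15) (nat_lit 2))))
  (@Cl.mk (nat_lit 0x2000500080008000e000d0002000a0003000a00080008000b0006000e0006) (nat_lit 0x604703050110b0) (nat_lit 16) Lb.e (@T16.mk En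
    (@En.i (nat_lit 2401) (nat_lit 6) (nat_lit 6))
    (@En.i (nat_lit 2136) (nat_lit 8) (nat_lit 14))
    (@En.i (nat_lit 8194) (nat_lit 2) (nat_lit 6))
    (@En.n l207 (nat_lit 2129) (nat_lit 3) (nat_lit 11))
    (@En.n l575 (nat_lit 2129) (nat_lit 4) (nat_lit 8))
    (@En.i (nat_lit 4006) (nat_lit 5) (nat_lit 8))
    (@En.i (nat_lit 5214) (nat_lit 13) (nat_lit 10))
    (@En.i (nat_lit 2126) (nat_lit 7) (nat_lit 3))
    (@En.i (nat_lit 1938) (nat_lit 9) (nat_lit 10))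
    (@En.n l7 (nat_lit 2130) (nat_lit 9) (nat_lit 2))
    (@En.n l601 (nat_lit 2126) (nat_lit 11) (nat_lit 13))
    (@En.n l532 (nat_lit 5670) (nat_lit 12) (nat_lit 14))
    (@En.n l3554 (nat_lit 2451) (nat_lit 13) (nat_lit 8))
    (@En.n l1776 (nat_lit 3101) (nat_lit 10) (nat_lit 8))
    (@En.i (nat_lit 2156) (nat_lit 13) (nat_lit 5))
    (@En.n l3 (nat_lit 2130) (nat_lit 15) (nat_lit 2))))
  (@Cl.mk (nat_lit 0x200050008000d000d0008000300030009000e00080002000b0008000e0007) (nat_lit 0x45720052101600) (nat_lit 16) Lb.e (@T16.mk En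
    (@En.n l13794 (nat_lit 2448) (nat_lit 12) (nat_lit 7))
    (@En.n l1770 (nat_lit 2452) (nat_lit 1) (nat_lit 14))
    (@En.n l1769 (nat_lit 8279) (nat_lit 14) (nat_lit 8))
    (@En.n l13795 (nat_lit 2126) (nat_lit 3) (nat_lit 11))
    (@En.n l7 (nat_lit 2131) (nat_lit 4) (nat_lit 2))
    (@En.n l13796 (nat_lit 2126) (nat_lit 5) (nat_lit 8))
    (@En.i (nat_lit 4678) (nat_lit 7) (nat_lit 14))
    (@En.n l1867 (nat_lit 5422) (nat_lit 2) (nat_lit 9))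
    (@En.n l8860 (nat_lit 2451) (nat_lit 8) (nat_lit 3))
    (@En.n l13797 (nat_lit 2450) (nat_lit 9) (nat_lit 3))
    (@En.n l13798 (nat_lit 1661) (nat_lit 11) (nat_lit 8))
    (@En.n l13799 (nat_lit 2450) (nat_lit 12) (nat_lit 13))
    (@En.n l13800 (nat_lit 12115) (nat_lit 13) (nat_lit 13))
    (@En.n l1770 (nat_lit 3973) (nat_lit 14) (nat_lit 8))
    (@En.n l4816 (nat_lit 1798) (nat_lit 13) (nat_lit 5))
    (@En.n l17 (nat_lit 2131) (nat_lit 15) (nat_lit 2))))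
  (@Cl.mk (nat_lit 0x2000a000500080008000d000d000600030003000b00080008000b000e0005) (nat_lit 0x5000000005000a0) (nat_lit 16) Lb.e (@T16.mk En
    (@En.n l28884 (nat_lit 2456) (nat_lit 8) (nat_lit 5))
    (@En.n l5355 (nat_lit 2561) (nat_lit 4) (nat_lit 14))
    (@En.n l28885 (nat_lit 2133) (nat_lit 2) (nat_lit 11))
    (@En.n l28886 (nat_lit 2133) (nat_lit 3) (nat_lit 8))
    (@En.n l10970 (nat_lit 4012) (nat_lit 4) (nat_lit 8))
    (@En.n l28887 (nat_lit 5427) (nat_lit 6) (nat_lit 11))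
    (@En.n l8863 (nat_lit 2136) (nat_lit 13) (nat_lit 3))
    (@En.n l28888 (nat_lit 2135) (nat_lit 7) (nat_lit 3))
    (@En.n l28889 (nat_lit 5192) (nat_lit 0) (nat_lit 6))
    (@En.n l28890 (nat_lit 2135) (nat_lit 10) (nat_lit 13))
    (@En.n l10970 (nat_lit 11902) (nat_lit 11) (nat_lit 13))
    (@En.n l50 (nat_lit 2452) (nat_lit 12) (nat_lit 8))
    (@En.n l4172 (nat_lit 5810) (nat_lit 13) (nat_lit 8))
    (@En.n l13795 (nat_lit 2126) (nat_lit 14) (nat_lit 5))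
    (@En.n l4172 (nat_lit 6344) (nat_lit 7) (nat_lit 10))
    (@En.n l17 (nat_lit 2132) (nat_lit 15) (nat_lit 2))))
  (@Cl.mk (nat_lit 0x200090005000e00080002000d000d000700030003000c0008000b000e0004) (nat_lit 0x41000000569a0) (nat_lit 16) Lb.e (@T16.mk En
    (@En.n l4431 (nat_lit 2403) (nat_lit 5) (nat_lit 4))
    (@En.n l19822 (nat_lit 1832) (nat_lit 7) (nat_lit 14))
    (@En.i (nat_lit 13445) (nat_lit 7) (nat_lit 11))
    (@En.n l20684 (nat_lit 4011) (nat_lit 3) (nat_lit 8))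
    (@En.n l236 (nat_lit 6912) (nat_lit 10) (nat_lit 12))
    (@En.n l20685 (nat_lit 2137) (nat_lit 13) (nat_lit 3))
    (@En.n l360 (nat_lit 2134) (nat_lit 6) (nat_lit 3))
    (@En.n l1893 (nat_lit 5195) (nat_lit 0) (nat_lit 7))
    (@En.n l20686 (nat_lit 2134) (nat_lit 9) (nat_lit 13))
    (@En.n l13428 (nat_lit 12732) (nat_lit 10) (nat_lit 13))
    (@En.n l107 (nat_lit 2133) (nat_lit 10) (nat_lit 2))
    (@En.n l20687 (nat_lit 2132) (nat_lit 12) (nat_lit 8))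
    (@En.n l20688 (nat_lit 3288) (nat_lit 1) (nat_lit 14))
    (@En.i (nat_lit 2127) (nat_lit 14) (nat_lit 5))
    (@En.n l1711 (nat_lit 6343) (nat_lit 3) (nat_lit 9))
    (@En.n l17 (nat_lit 2133) (nat_lit 15) (nat_lit 2))))
  (@Cl.mk (nat_lit 0x2000a0005000e00080002000d0006000e00030002000c0008000b000e0004) (nat_lit 0x400b050050010) (nat_lit 16) Lb.e (@T16.mk En
    (@En.n l4263 (nat_lit 3454) (nat_lit 10) (nat_lit 4))
    (@En.n l17578 (nat_lit 1834) (nat_lit 7) (nat_lit 14))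
    (@En.n l3199 (nat_lit 13443) (nat_lit 7) (nat_lit 11))
    (@En.n l3928 (nat_lit 7390) (nat_lit 14) (nat_lit 8))
    (@En.n l17578 (nat_lit 6642) (nat_lit 10) (nat_lit 12))
    (@En.n l11 (nat_lit 2134) (nat_lit 5) (nat_lit 2))
    (@En.n l24331 (nat_lit 2133) (nat_lit 6) (nat_lit 3))
    (@En.n l24332 (nat_lit 12884) (nat_lit 0) (nat_lit 14))
    (@En.n l1184 (nat_lit 6030) (nat_lit 14) (nat_lit 6))
    (@En.n l3928 (nat_lit 11908) (nat_lit 10) (nat_lit 13))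
    (@En.n l17 (nat_lit 2134) (nat_lit 10) (nat_lit 2))
    (@En.n l21916 (nat_lit 2135) (nat_lit 12) (nat_lit 8))
    (@En.i (nat_lit 3290) (nat_lit 1) (nat_lit 14))
    (@En.n l3199 (nat_lit 2125) (nat_lit 14) (nat_lit 5))
    (@En.n l24333 (nat_lit 3459) (nat_lit 3) (nat_lit 10))
    (@En.n l50 (nat_lit 2134) (nat_lit 15) (nat_lit 2))))
  (@Cl.mk (nat_lit 0x2000b000500080008000d0005000e00030002000b00080008000b000e0005) (nat_lit 0x5060b03005011a0) (nat_lit 16) Lb.e (@T16.mk En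
    (@En.n l22226 (nat_lit 2457) (nat_lit 9) (nat_lit 5))
    (@En.n l1013 (nat_lit 3538) (nat_lit 4) (nat_lit 14))
    (@En.n l28727 (nat_lit 2134) (nat_lit 2) (nat_lit 11))
    (@En.n l21091 (nat_lit 2134) (nat_lit 3) (nat_lit 8))
    (@En.n l3213 (nat_lit 7389) (nat_lit 14) (nat_lit 8))
    (@En.n l9025 (nat_lit 6639) (nat_lit 6) (nat_lit 11))
    (@En.n l11 (nat_lit 2135) (nat_lit 6) (nat_lit 2))
    (@En.n l28728 (nat_lit 2132) (nat_lit 7) (nat_lit 3))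
    (@En.n l28729 (nat_lit 12879) (nat_lit 0) (nat_lit 14))
    (@En.n l2576 (nat_lit 5200) (nat_lit 2) (nat_lit 5))
    (@En.n l3213 (nat_lit 11904) (nat_lit 11) (nat_lit 13))
    (@En.n l77 (nat_lit 2458) (nat_lit 4) (nat_lit 8))
    (@En.i (nat_lit 5809) (nat_lit 5) (nat_lit 8))
    (@En.n l28727 (nat_lit 2128) (nat_lit 14) (nat_lit 5))
    (@En.i (nat_lit 3461) (nat_lit 8) (nat_lit 11))
    (@En.n l17 (nat_lit 2135) (nat_lit 15) (nat_lit 2))))
  (@Cl.mk (nat_lit 0x200070003000b00080008000b000e000500020009000500080008000e000d) (nat_lit 0x5000a006000a1) (nat_lit 16) Lb.e (@T16.mk En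
    (@En.n l20762 (nat_lit 2132) (nat_lit 10) (nat_lit 13))
    (@En.n l532 (nat_lit 5672) (nat_lit 11) (nat_lit 14))
    (@En.n l20763 (nat_lit 5190) (nat_lit 2) (nat_lit 8))
    (@En.n l16553 (nat_lit 5811) (nat_lit 3) (nat_lit 8))
    (@En.n l17 (nat_lit 2130) (nat_lit 14) (nat_lit 5))
    (@En.i (nat_lit 6348) (nat_lit 5) (nat_lit 9))
    (@En.n l3 (nat_lit 2136) (nat_lit 6) (nat_lit 2))
    (@En.n l2711 (nat_lit 2459) (nat_lit 7) (nat_lit 5))
    (@En.n l3655 (nat_lit 2560) (nat_lit 9) (nat_lit 14))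
    (@En.n l207 (nat_lit 2137) (nat_lit 10) (nat_lit 11))
    (@En.n l575 (nat_lit 2137) (nat_lit 11) (nat_lit 8))
    (@En.i (nat_lit 7388) (nat_lit 12) (nat_lit 8))
    (@En.n l20764 (nat_lit 5210) (nat_lit 13) (nat_lit 11))
    (@En.n l20765 (nat_lit 2132) (nat_lit 6) (nat_lit 3))
    (@En.i (nat_lit 4951) (nat_lit 7) (nat_lit 7))
    (@En.n l7 (nat_lit 2136) (nat_lit 15) (nat_lit 2))))
  (@Cl.mk (nat_lit 0x200080003000c0008000b000e0004000200080005000e00080002000e000d) (nat_lit 0x569a000031071) (nat_lit 16) Lb.e (@T16.mk En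
    (@En.n l10253 (nat_lit 2133) (nat_lit 9) (nat_lit 13))
    (@En.n l1803 (nat_lit 5675) (nat_lit 1) (nat_lit 14))
    (@En.n l11 (nat_lit 2137) (nat_lit 2) (nat_lit 2))
    (@En.i (nat_lit 2136) (nat_lit 3) (nat_lit 8))
    (@En.n l1722 (nat_lit 3289) (nat_lit 5) (nat_lit 14))
    (@En.n l17 (nat_lit 2129) (nat_lit 14) (nat_lit 5))
    (@En.n l1803 (nat_lit 6350) (nat_lit 6) (nat_lit 8))
    (@En.n l3 (nat_lit 2137) (nat_lit 7) (nat_lit 2))
    (@En.n l9359 (nat_lit 2399) (nat_lit 8) (nat_lit 4))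
    (@En.n l3621 (nat_lit 1839) (nat_lit 10) (nat_lit 14))
    (@En.n l1803 (nat_lit 13460) (nat_lit 7) (nat_lit 11))
    (@En.i (nat_lit 4013) (nat_lit 3) (nat_lit 8))
    (@En.n l10254 (nat_lit 5217) (nat_lit 13) (nat_lit 12))
    (@En.n l10255 (nat_lit 2133) (nat_lit 5) (nat_lit 3))
    (@En.n l3635 (nat_lit 5023) (nat_lit 12) (nat_lit 8))
    (@En.n l7 (nat_lit 2137) (nat_lit 15) (nat_lit 2))))
  (@Cl.mk (nat_lit 0x20005000b000800050008000d0005000e000300020008000b0008000e000b) (nat_lit 0x72012060058209) (nat_lit 16) Lb.e (@T16.mk En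
    (@En.n l6282 (nat_lit 1850) (nat_lit 11) (nat_lit 11))
    (@En.n l22017 (nat_lit 2139) (nat_lit 12) (nat_lit 14))
    (@En.n l13755 (nat_lit 3315) (nat_lit 13) (nat_lit 8))
    (@En.i (nat_lit 2044) (nat_lit 3) (nat_lit 11))
    (@En.n l253 (nat_lit 1758) (nat_lit 4) (nat_lit 8))
    (@En.n l28 (nat_lit 2138) (nat_lit 5) (nat_lit 2))
    (@En.n l4750 (nat_lit 1851) (nat_lit 6) (nat_lit 3))
    (@En.n l6150 (nat_lit 12924) (nat_lit 0) (nat_lit 14))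
    (@En.n l7288 (nat_lit 1552) (nat_lit 8) (nat_lit 5))
    (@En.n l3340 (nat_lit 12699) (nat_lit 10) (nat_lit 13))
    (@En.i (nat_lit 660) (nat_lit 10) (nat_lit 8))
    (@En.n l3340 (nat_lit 7419) (nat_lit 5) (nat_lit 5))
    (@En.n l5032 (nat_lit 2180) (nat_lit 13) (nat_lit 8))
    (@En.n l11819 (nat_lit 7899) (nat_lit 8) (nat_lit 11))
    (@En.n l387 (nat_lit 2430) (nat_lit 8) (nat_lit 5))
    (@En.n l17 (nat_lit 2138) (nat_lit 15) (nat_lit 2))))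
  (@Cl.mk (nat_lit 0x20008000b000e000a0002000b0005000b000800060005000d0005000e0003) (nat_lit 0x57c802072002010) (nat_lit 16) Lb.e (@T16.mk En
    (@En.n l9524 (nat_lit 2140) (nat_lit 5) (nat_lit 3))
    (@En.n l475 (nat_lit 945) (nat_lit 0) (nat_lit 14))
    (@En.n l9525 (nat_lit 1760) (nat_lit 2) (nat_lit 5))
    (@En.n l9526 (nat_lit 12706) (nat_lit 9) (nat_lit 13))
    (@En.n l9527 (nat_lit 658) (nat_lit 4) (nat_lit 5))
    (@En.i (nat_lit 7410) (nat_lit 5) (nat_lit 6))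
    (@En.n l9528 (nat_lit 2141) (nat_lit 6) (nat_lit 8))
    (@En.n l475 (nat_lit 6895) (nat_lit 8) (nat_lit 11))
    (@En.n l9529 (nat_lit 2138) (nat_lit 14) (nat_lit 5))
    (@En.n l8017 (nat_lit 1850) (nat_lit 10) (nat_lit 11))
    (@En.n l67 (nat_lit 2139) (nat_lit 10) (nat_lit 2))
    (@En.n l9530 (nat_lit 2142) (nat_lit 12) (nat_lit 10))
    (@En.i (nat_lit 3721) (nat_lit 13) (nat_lit 14))
    (@En.n l9531 (nat_lit 2042) (nat_lit 7) (nat_lit 11))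
    (@En.n l9532 (nat_lit 2509) (nat_lit 3) (nat_lit 8))
    (@En.n l17 (nat_lit 2139) (nat_lit 15) (nat_lit 2))))
  (@Cl.mk (nat_lit 0x2000b0005000a000800060005000d000d0006000300030008000b000e000a) (nat_lit 0x1072002300058c8) (nat_lit 16) Lb.e (@T16.mk En
    (@En.n l14865 (nat_lit 2143) (nat_lit 11) (nat_lit 10))
    (@En.n l14866 (nat_lit 3720) (nat_lit 4) (nat_lit 14))
    (@En.n l2451 (nat_lit 765) (nat_lit 7) (nat_lit 11))
    (@En.n l1353 (nat_lit 2510) (nat_lit 3) (nat_lit 8))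
    (@En.n l18 (nat_lit 2194) (nat_lit 13) (nat_lit 3))
    (@En.n l3307 (nat_lit 2139) (nat_lit 0) (nat_lit 3))
    (@En.n l2348 (nat_lit 1563) (nat_lit 0) (nat_lit 6))
    (@En.n l14867 (nat_lit 2139) (nat_lit 3) (nat_lit 13))
    (@En.n l14868 (nat_lit 12691) (nat_lit 9) (nat_lit 13))
    (@En.i (nat_lit 654) (nat_lit 9) (nat_lit 5))
    (@En.n l14869 (nat_lit 7327) (nat_lit 4) (nat_lit 6))
    (@En.n l725 (nat_lit 2148) (nat_lit 12) (nat_lit 8))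
    (@En.n l14462 (nat_lit 7916) (nat_lit 13) (nat_lit 10))
    (@En.n l1407 (nat_lit 1851) (nat_lit 14) (nat_lit 5))
    (@En.n l14870 (nat_lit 1846) (nat_lit 9) (nat_lit 11))
    (@En.n l107 (nat_lit 2140) (nat_lit 15) (nat_lit 2))))
  (@Cl.mk (nat_lit 0x200080005000b000e000b0002000c0005000800050004000d000b000e0003) (nat_lit 0x5080901010032c0) (nat_lit 16) Lb.e (@T16.mk En
    (@En.n l50 (nat_lit 2148) (nat_lit 6) (nat_lit 3))
    (@En.n l3300 (nat_lit 947) (nat_lit 0) (nat_lit 14))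
    (@En.n l3301 (nat_lit 881) (nat_lit 2) (nat_lit 11))
    (@En.n l3302 (nat_lit 12701) (nat_lit 10) (nat_lit 13))
    (@En.i (nat_lit 560) (nat_lit 4) (nat_lit 4))
    (@En.n l3300 (nat_lit 4413) (nat_lit 5) (nat_lit 5))
    (@En.n l3303 (nat_lit 684) (nat_lit 6) (nat_lit 8))
    (@En.n l3304 (nat_lit 2180) (nat_lit 14) (nat_lit 5))
    (@En.n l3305 (nat_lit 1856) (nat_lit 9) (nat_lit 12))
    (@En.n l107 (nat_lit 2141) (nat_lit 9) (nat_lit 2))
    (@En.n l3300 (nat_lit 2147) (nat_lit 11) (nat_lit 11))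
    (@En.n l3306 (nat_lit 4126) (nat_lit 12) (nat_lit 14))
    (@En.n l3307 (nat_lit 2139) (nat_lit 13) (nat_lit 11))
    (@En.n l403 (nat_lit 769) (nat_lit 14) (nat_lit 5))
    (@En.n l1353 (nat_lit 2511) (nat_lit 4) (nat_lit 8))
    (@En.n l18 (nat_lit 2141) (nat_lit 15) (nat_lit 2))))
  (@Cl.mk (nat_lit 0x20009000c000a000a000a0004000a0007000600060006000d0006000e0003) (nat_lit 0x577000700003060) (nat_lit 16) Lb.e (@T16.mk En
    (@En.i (nat_lit 2143) (nat_lit 15) (nat_lit 3))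
    (@En.n l8012 (nat_lit 12903) (nat_lit 0) (nat_lit 14))
    (@En.i (nat_lit 1520) (nat_lit 2) (nat_lit 6))
    (@En.n l8013 (nat_lit 12690) (nat_lit 4) (nat_lit 13))
    (@En.n l8014 (nat_lit 2144) (nat_lit 10) (nat_lit 6))
    (@En.n l8015 (nat_lit 2139) (nat_lit 5) (nat_lit 6))
    (@En.i (nat_lit 7407) (nat_lit 6) (nat_lit 6))
    (@En.n l8016 (nat_lit 2147) (nat_lit 7) (nat_lit 7))
    (@En.n l8012 (nat_lit 6888) (nat_lit 9) (nat_lit 10))
    (@En.n l8017 (nat_lit 1850) (nat_lit 9) (nat_lit 4))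
    (@En.n l8018 (nat_lit 2432) (nat_lit 11) (nat_lit 10))
    (@En.n l8019 (nat_lit 2283) (nat_lit 6) (nat_lit 10))
    (@En.n l8020 (nat_lit 2431) (nat_lit 13) (nat_lit 10))
    (@En.n l4109 (nat_lit 2041) (nat_lit 6) (nat_lit 12))
    (@En.i (nat_lit 2505) (nat_lit 14) (nat_lit 9))
    (@En.n l17 (nat_lit 2142) (nat_lit 15) (nat_lit 2))))
  (@Cl.mk (nat_lit 0x300030009000c000a000a000a000400090007000600060006000d000d0007) (nat_lit 0x57700060000340) (nat_lit 16) Lb.e (@T16.mk En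
    (@En.n l13838 (nat_lit 1683) (nat_lit 0) (nat_lit 7))
    (@En.n l61 (nat_lit 2142) (nat_lit 3) (nat_lit 13))
    (@En.n l13839 (nat_lit 12689) (nat_lit 2) (nat_lit 13))
    (@En.n l13840 (nat_lit 2145) (nat_lit 10) (nat_lit 6))
    (@En.n l3490 (nat_lit 2140) (nat_lit 10) (nat_lit 6))
    (@En.i (nat_lit 7406) (nat_lit 5) (nat_lit 6))
    (@En.n l13841 (nat_lit 2146) (nat_lit 6) (nat_lit 7))
    (@En.n l13842 (nat_lit 2316) (nat_lit 8) (nat_lit 9))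
    (@En.n l13843 (nat_lit 1846) (nat_lit 8) (nat_lit 4))
    (@En.n l13844 (nat_lit 2386) (nat_lit 6) (nat_lit 10))
    (@En.n l13845 (nat_lit 2284) (nat_lit 6) (nat_lit 10))
    (@En.n l13846 (nat_lit 2107) (nat_lit 12) (nat_lit 10))
    (@En.n l4109 (nat_lit 2040) (nat_lit 6) (nat_lit 12))
    (@En.n l13847 (nat_lit 2503) (nat_lit 14) (nat_lit 9))
    (@En.n l13848 (nat_lit 2151) (nat_lit 13) (nat_lit 3))
    (@En.n l18 (nat_lit 2142) (nat_lit 0) (nat_lit 3))))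
noncomputable def a134 : T16 Cl := @T16.mk Cl
  (@Cl.mk (nat_lit 0x20005000b000800070006000d0005000e000300020008000b0009000e000a) (nat_lit 0x84002010058741) (nat_lit 16) Lb.e (@T16.mk En
    (@En.n l3426 (nat_lit 2142) (nat_lit 11) (nat_lit 10))
    (@En.n l5 (nat_lit 2430) (nat_lit 12) (nat_lit 14))
    (@En.n l1643 (nat_lit 2447) (nat_lit 13) (nat_lit 9))
    (@En.n l564 (nat_lit 1792) (nat_lit 3) (nat_lit 11))
    (@En.n l3427 (nat_lit 2467) (nat_lit 4) (nat_lit 8))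
    (@En.n l28 (nat_lit 2144) (nat_lit 5) (nat_lit 2))
    (@En.n l615 (nat_lit 2145) (nat_lit 6) (nat_lit 3))
    (@En.n l3428 (nat_lit 946) (nat_lit 0) (nat_lit 14))
    (@En.n l771 (nat_lit 1762) (nat_lit 8) (nat_lit 5))
    (@En.n l564 (nat_lit 12329) (nat_lit 10) (nat_lit 13))
    (@En.n l217 (nat_lit 655) (nat_lit 4) (nat_lit 6))
    (@En.n l3426 (nat_lit 7408) (nat_lit 12) (nat_lit 7))
    (@En.n l872 (nat_lit 2149) (nat_lit 13) (nat_lit 8))
    (@En.n l3428 (nat_lit 6890) (nat_lit 8) (nat_lit 11))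
    (@En.n l3426 (nat_lit 2139) (nat_lit 8) (nat_lit 5))
    (@En.n l17 (nat_lit 2144) (nat_lit 15) (nat_lit 2))))
  (@Cl.mk (nat_lit 0x20005000a000800070006000d000d0006000300030008000b0009000e000a) (nat_lit 0x74002300056741) (nat_lit 16) Lb.e (@T16.mk En
    (@En.n l6008 (nat_lit 2143) (nat_lit 10) (nat_lit 10))
    (@En.n l396 (nat_lit 2198) (nat_lit 1) (nat_lit 14))
    (@En.i (nat_lit 2448) (nat_lit 2) (nat_lit 9))
    (@En.n l1836 (nat_lit 1796) (nat_lit 3) (nat_lit 11))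
    (@En.n l6009 (nat_lit 2471) (nat_lit 4) (nat_lit 8))
    (@En.n l6010 (nat_lit 2195) (nat_lit 5) (nat_lit 3))
    (@En.n l731 (nat_lit 2144) (nat_lit 6) (nat_lit 3))
    (@En.n l6011 (nat_lit 1682) (nat_lit 7) (nat_lit 6))
    (@En.n l2013 (nat_lit 2144) (nat_lit 9) (nat_lit 13))
    (@En.n l1836 (nat_lit 12636) (nat_lit 10) (nat_lit 13))
    (@En.n l6012 (nat_lit 568) (nat_lit 10) (nat_lit 6))
    (@En.n l6008 (nat_lit 7403) (nat_lit 12) (nat_lit 7))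
    (@En.n l6013 (nat_lit 2150) (nat_lit 13) (nat_lit 8))
    (@En.n l6014 (nat_lit 6996) (nat_lit 14) (nat_lit 10))
    (@En.n l6015 (nat_lit 2140) (nat_lit 13) (nat_lit 5))
    (@En.n l18 (nat_lit 2145) (nat_lit 15) (nat_lit 2))))
  (@Cl.mk (nat_lit 0x3000300090004000c000b000b000b00040007000500050005000d000d000c) (nat_lit 0x50880000000343) (nat_lit 16) Lb.e (@T16.mk En
    (@En.i (nat_lit 2223) (nat_lit 0) (nat_lit 12))
    (@En.n l8006 (nat_lit 2147) (nat_lit 3) (nat_lit 13))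
    (@En.n l5702 (nat_lit 12688) (nat_lit 2) (nat_lit 13))
    (@En.n l11 (nat_lit 2150) (nat_lit 11) (nat_lit 5))
    (@En.n l5703 (nat_lit 2148) (nat_lit 11) (nat_lit 5))
    (@En.n l8007 (nat_lit 3561) (nat_lit 5) (nat_lit 5))
    (@En.i (nat_lit 692) (nat_lit 11) (nat_lit 7))
    (@En.n l8008 (nat_lit 1852) (nat_lit 7) (nat_lit 4))
    (@En.n l8009 (nat_lit 2382) (nat_lit 5) (nat_lit 11))
    (@En.n l1596 (nat_lit 2282) (nat_lit 5) (nat_lit 11))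
    (@En.n l7914 (nat_lit 2402) (nat_lit 11) (nat_lit 11))
    (@En.n l5712 (nat_lit 2143) (nat_lit 12) (nat_lit 12))
    (@En.n l8010 (nat_lit 2224) (nat_lit 13) (nat_lit 4))
    (@En.n l8011 (nat_lit 2228) (nat_lit 14) (nat_lit 9))
    (@En.n l50 (nat_lit 2222) (nat_lit 13) (nat_lit 3))
    (@En.n l843 (nat_lit 2147) (nat_lit 0) (nat_lit 3))))
  (@Cl.mk (nat_lit 0x200090005000c000b000b000b00040007000500050005000d000b000e0003) (nat_lit 0x5088000000031c0) (nat_lit 16) Lb.e (@T16.mk En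
    (@En.n l2731 (nat_lit 2146) (nat_lit 15) (nat_lit 3))
    (@En.i (nat_lit 12919) (nat_lit 0) (nat_lit 14))
    (@En.n l2732 (nat_lit 885) (nat_lit 2) (nat_lit 11))
    (@En.n l836 (nat_lit 12675) (nat_lit 2) (nat_lit 13))
    (@En.n l2733 (nat_lit 2149) (nat_lit 11) (nat_lit 5))
    (@En.n l2734 (nat_lit 2141) (nat_lit 5) (nat_lit 5))
    (@En.i (nat_lit 3651) (nat_lit 6) (nat_lit 5))
    (@En.n l2735 (nat_lit 688) (nat_lit 7) (nat_lit 7))
    (@En.n l55 (nat_lit 1856) (nat_lit 8) (nat_lit 4))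
    (@En.n l2736 (nat_lit 2383) (nat_lit 10) (nat_lit 11))
    (@En.n l2737 (nat_lit 2280) (nat_lit 5) (nat_lit 11))
    (@En.n l578 (nat_lit 2424) (nat_lit 12) (nat_lit 11))
    (@En.n l2738 (nat_lit 2142) (nat_lit 13) (nat_lit 12))
    (@En.n l2739 (nat_lit 773) (nat_lit 14) (nat_lit 5))
    (@En.n l2740 (nat_lit 2504) (nat_lit 14) (nat_lit 9))
    (@En.n l17 (nat_lit 2147) (nat_lit 15) (nat_lit 2))))
  (@Cl.mk (nat_lit 0x2000c0005000800050004000d000d000c0003000300080004000b000e000b) (nat_lit 0x101002450040909) (nat_lit 16) Lb.e (@T16.mk En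
    (@En.n l3303 (nat_lit 2146) (nat_lit 10) (nat_lit 11))
    (@En.n l619 (nat_lit 3705) (nat_lit 4) (nat_lit 14))
    (@En.i (nat_lit 2140) (nat_lit 2) (nat_lit 11))
    (@En.n l403 (nat_lit 2190) (nat_lit 3) (nat_lit 4))
    (@En.n l1353 (nat_lit 2512) (nat_lit 4) (nat_lit 8))
    (@En.n l18 (nat_lit 2187) (nat_lit 5) (nat_lit 3))
    (@En.i (nat_lit 2141) (nat_lit 0) (nat_lit 3))
    (@En.n l6444 (nat_lit 2186) (nat_lit 8) (nat_lit 12))
    (@En.n l396 (nat_lit 2141) (nat_lit 3) (nat_lit 13))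
    (@En.n l5599 (nat_lit 10535) (nat_lit 10) (nat_lit 13))
    (@En.i (nat_lit 563) (nat_lit 10) (nat_lit 4))
    (@En.n l9522 (nat_lit 4415) (nat_lit 4) (nat_lit 5))
    (@En.n l3303 (nat_lit 687) (nat_lit 13) (nat_lit 8))
    (@En.n l159 (nat_lit 2181) (nat_lit 14) (nat_lit 5))
    (@En.n l9523 (nat_lit 1852) (nat_lit 8) (nat_lit 12))
    (@En.n l107 (nat_lit 2148) (nat_lit 15) (nat_lit 2))))
  (@Cl.mk (nat_lit 0x20005000800060005000d000b000e0003000200080005000b000a000e000b) (nat_lit 0x30023c00509861) (nat_lit 16) Lb.e (@T16.mk En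
    (@En.n l1035 (nat_lit 2147) (nat_lit 10) (nat_lit 11))
    (@En.n l1036 (nat_lit 2425) (nat_lit 11) (nat_lit 14))
    (@En.n l1037 (nat_lit 2426) (nat_lit 12) (nat_lit 10))
    (@En.n l1038 (nat_lit 2144) (nat_lit 3) (nat_lit 11))
    (@En.n l1039 (nat_lit 770) (nat_lit 4) (nat_lit 5))
    (@En.n l1040 (nat_lit 2466) (nat_lit 5) (nat_lit 8))
    (@En.n l7 (nat_lit 2149) (nat_lit 6) (nat_lit 2))
    (@En.n l1041 (nat_lit 2150) (nat_lit 7) (nat_lit 3))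
    (@En.n l332 (nat_lit 12918) (nat_lit 0) (nat_lit 14))
    (@En.n l1042 (nat_lit 882) (nat_lit 10) (nat_lit 11))
    (@En.n l1037 (nat_lit 12324) (nat_lit 11) (nat_lit 13))
    (@En.n l1043 (nat_lit 561) (nat_lit 4) (nat_lit 5))
    (@En.n l332 (nat_lit 3564) (nat_lit 13) (nat_lit 6))
    (@En.n l1043 (nat_lit 2716) (nat_lit 14) (nat_lit 8))
    (@En.n l1044 (nat_lit 2141) (nat_lit 7) (nat_lit 5))
    (@En.n l3 (nat_lit 2149) (nat_lit 15) (nat_lit 2))))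
  (@Cl.mk (nat_lit 0x20005000800060005000d000d000c0003000300080004000b000a000e000b) (nat_lit 0x30023500507851) (nat_lit 16) Lb.e (@T16.mk En
    (@En.n l68 (nat_lit 2146) (nat_lit 9) (nat_lit 11))
    (@En.n l637 (nat_lit 2203) (nat_lit 1) (nat_lit 14))
    (@En.n l638 (nat_lit 3678) (nat_lit 2) (nat_lit 10))
    (@En.n l2058 (nat_lit 2145) (nat_lit 3) (nat_lit 11))
    (@En.n l3448 (nat_lit 2235) (nat_lit 4) (nat_lit 4))
    (@En.n l2698 (nat_lit 2472) (nat_lit 5) (nat_lit 8))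
    (@En.n l50 (nat_lit 2204) (nat_lit 6) (nat_lit 3))
    (@En.n l299 (nat_lit 2149) (nat_lit 7) (nat_lit 3))
    (@En.i (nat_lit 2207) (nat_lit 9) (nat_lit 12))
    (@En.n l3449 (nat_lit 2149) (nat_lit 10) (nat_lit 13))
    (@En.n l255 (nat_lit 12327) (nat_lit 11) (nat_lit 13))
    (@En.i (nat_lit 558) (nat_lit 11) (nat_lit 5))
    (@En.n l3450 (nat_lit 3559) (nat_lit 13) (nat_lit 6))
    (@En.i (nat_lit 2714) (nat_lit 14) (nat_lit 8))
    (@En.n l730 (nat_lit 2148) (nat_lit 13) (nat_lit 5))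
    (@En.n l67 (nat_lit 2150) (nat_lit 15) (nat_lit 2))))
  (@Cl.mk (nat_lit 0x2000800030009000c000a000a000a000400080007000600060006000e000d) (nat_lit 0x204670006000034) (nat_lit 16) Lb.e (@T16.mk En
    (@En.n l5707 (nat_lit 2143) (nat_lit 2) (nat_lit 13))
    (@En.n l5702 (nat_lit 12738) (nat_lit 1) (nat_lit 14))
    (@En.n l11 (nat_lit 2195) (nat_lit 10) (nat_lit 6))
    (@En.n l5703 (nat_lit 2194) (nat_lit 3) (nat_lit 6))
    (@En.n l5708 (nat_lit 7405) (nat_lit 4) (nat_lit 6))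
    (@En.n l17 (nat_lit 2222) (nat_lit 5) (nat_lit 7))
    (@En.n l5708 (nat_lit 2312) (nat_lit 6) (nat_lit 8))
    (@En.n l5709 (nat_lit 1848) (nat_lit 7) (nat_lit 4))
    (@En.n l1952 (nat_lit 2394) (nat_lit 9) (nat_lit 10))
    (@En.n l1596 (nat_lit 2308) (nat_lit 6) (nat_lit 10))
    (@En.n l5710 (nat_lit 2401) (nat_lit 11) (nat_lit 10))
    (@En.n l5711 (nat_lit 2152) (nat_lit 6) (nat_lit 12))
    (@En.n l1738 (nat_lit 4943) (nat_lit 13) (nat_lit 9))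
    (@En.n l5712 (nat_lit 2143) (nat_lit 14) (nat_lit 3))
    (@En.n l5708 (nat_lit 1591) (nat_lit 0) (nat_lit 8))
    (@En.n l7 (nat_lit 2151) (nat_lit 15) (nat_lit 2))))
  (@Cl.mk (nat_lit 0x2000700070007000e000d000200080003000c0009000900090004000e0008) (nat_lit 0x540305612086) (nat_lit 16) Lb.e (@T16.mk En
    (@En.n l2947 (nat_lit 2474) (nat_lit 6) (nat_lit 8))
    (@En.n l2948 (nat_lit 2919) (nat_lit 1) (nat_lit 14))
    (@En.i (nat_lit 763) (nat_lit 2) (nat_lit 4))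
    (@En.n l2949 (nat_lit 1841) (nat_lit 3) (nat_lit 9))
    (@En.n l2950 (nat_lit 2049) (nat_lit 7) (nat_lit 9))
    (@En.n l2951 (nat_lit 2156) (nat_lit 5) (nat_lit 9))
    (@En.n l2952 (nat_lit 1699) (nat_lit 7) (nat_lit 12))
    (@En.n l2953 (nat_lit 2040) (nat_lit 7) (nat_lit 3))
    (@En.n l2954 (nat_lit 1413) (nat_lit 0) (nat_lit 8))
    (@En.n l7 (nat_lit 2152) (nat_lit 9) (nat_lit 2))
    (@En.n l2955 (nat_lit 2040) (nat_lit 11) (nat_lit 13))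
    (@En.n l2956 (nat_lit 12388) (nat_lit 12) (nat_lit 14))
    (@En.n l2957 (nat_lit 2154) (nat_lit 9) (nat_lit 7))
    (@En.n l2958 (nat_lit 764) (nat_lit 3) (nat_lit 7))
    (@En.n l2947 (nat_lit 4608) (nat_lit 4) (nat_lit 7))
    (@En.n l17 (nat_lit 2152) (nat_lit 15) (nat_lit 2))))
  (@Cl.mk (nat_lit 0x2000500080008000e000d000200080003000c00080008000b0004000e0008) (nat_lit 0x54540205609086) (nat_lit 16) Lb.e (@T16.mk En
    (@En.n l3098 (nat_lit 2162) (nat_lit 6) (nat_lit 8))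
    (@En.n l3 (nat_lit 2156) (nat_lit 1) (nat_lit 14))
    (@En.n l557 (nat_lit 2152) (nat_lit 2) (nat_lit 4))
    (@En.n l207 (nat_lit 2158) (nat_lit 3) (nat_lit 11))
    (@En.n l575 (nat_lit 2158) (nat_lit 4) (nat_lit 8))
    (@En.i (nat_lit 2770) (nat_lit 5) (nat_lit 8))
    (@En.n l6652 (nat_lit 1688) (nat_lit 7) (nat_lit 12))
    (@En.n l8730 (nat_lit 1797) (nat_lit 7) (nat_lit 3))
    (@En.n l3651 (nat_lit 1498) (nat_lit 0) (nat_lit 8))
    (@En.n l7 (nat_lit 2153) (nat_lit 9) (nat_lit 2))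
    (@En.n l8731 (nat_lit 1797) (nat_lit 11) (nat_lit 13))
    (@En.n l5102 (nat_lit 12299) (nat_lit 12) (nat_lit 14))
    (@En.n l7336 (nat_lit 1801) (nat_lit 13) (nat_lit 8))
    (@En.n l8732 (nat_lit 2154) (nat_lit 10) (nat_lit 8))
    (@En.n l3106 (nat_lit 2136) (nat_lit 4) (nat_lit 5))
    (@En.n l17 (nat_lit 2153) (nat_lit 15) (nat_lit 2))))
  (@Cl.mk (nat_lit 0x20005000e0009000200080007000e000d000200070003000b0008000e0009) (nat_lit 0x97040230005612) (nat_lit 16) Lb.e (@T16.mk En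
    (@En.n l971 (nat_lit 2152) (nat_lit 4) (nat_lit 9))
    (@En.n l972 (nat_lit 1801) (nat_lit 6) (nat_lit 14))
    (@En.n l973 (nat_lit 2155) (nat_lit 12) (nat_lit 8))
    (@En.n l974 (nat_lit 1703) (nat_lit 3) (nat_lit 11))
    (@En.n l218 (nat_lit 1796) (nat_lit 4) (nat_lit 3))
    (@En.n l716 (nat_lit 1502) (nat_lit 5) (nat_lit 7))
    (@En.n l28 (nat_lit 2154) (nat_lit 6) (nat_lit 2))
    (@En.n l55 (nat_lit 1796) (nat_lit 8) (nat_lit 13))
    (@En.n l975 (nat_lit 12548) (nat_lit 9) (nat_lit 14))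
    (@En.n l976 (nat_lit 634) (nat_lit 2) (nat_lit 7))
    (@En.n l977 (nat_lit 4614) (nat_lit 3) (nat_lit 8))
    (@En.n l3 (nat_lit 2154) (nat_lit 11) (nat_lit 2))
    (@En.n l978 (nat_lit 2465) (nat_lit 13) (nat_lit 9))
    (@En.n l975 (nat_lit 2036) (nat_lit 7) (nat_lit 14))
    (@En.n l979 (nat_lit 764) (nat_lit 7) (nat_lit 5))
    (@En.n l18 (nat_lit 2154) (nat_lit 15) (nat_lit 2))))
  (@Cl.mk (nat_lit 0x2000800030008000e00080002000b000e00080002000800050008000e000d) (nat_lit 0x1058000a6000456) (nat_lit 16) Lb.e (@T16.mk En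
    (@En.n l3262 (nat_lit 1798) (nat_lit 11) (nat_lit 13))
    (@En.i (nat_lit 11349) (nat_lit 12) (nat_lit 14))
    (@En.n l3263 (nat_lit 3524) (nat_lit 2) (nat_lit 8))
    (@En.n l3264 (nat_lit 1801) (nat_lit 14) (nat_lit 5))
    (@En.n l3265 (nat_lit 2196) (nat_lit 4) (nat_lit 8))
    (@En.n l17 (nat_lit 2155) (nat_lit 5) (nat_lit 2))
    (@En.n l3266 (nat_lit 2163) (nat_lit 6) (nat_lit 8))
    (@En.i (nat_lit 3665) (nat_lit 4) (nat_lit 14))
    (@En.n l3267 (nat_lit 2156) (nat_lit 2) (nat_lit 11))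
    (@En.n l50 (nat_lit 2155) (nat_lit 9) (nat_lit 2))
    (@En.n l1267 (nat_lit 2156) (nat_lit 4) (nat_lit 8))
    (@En.n l3201 (nat_lit 3383) (nat_lit 6) (nat_lit 14))
    (@En.i (nat_lit 5946) (nat_lit 6) (nat_lit 8))
    (@En.n l3268 (nat_lit 1798) (nat_lit 7) (nat_lit 3))
    (@En.n l3269 (nat_lit 1496) (nat_lit 0) (nat_lit 8))
    (@En.n l11 (nat_lit 2155) (nat_lit 15) (nat_lit 2))))
  (@Cl.mk (nat_lit 0x20007000500080008000e000d000200090003000900080008000b000e0007) (nat_lit 0x5566030560970) (nat_lit 16) Lb.e (@T16.mk En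
    (@En.n l3098 (nat_lit 2160) (nat_lit 7) (nat_lit 7))
    (@En.i (nat_lit 1899) (nat_lit 4) (nat_lit 14))
    (@En.n l207 (nat_lit 2157) (nat_lit 2) (nat_lit 11))
    (@En.n l575 (nat_lit 2157) (nat_lit 3) (nat_lit 8))
    (@En.i (nat_lit 2769) (nat_lit 12) (nat_lit 8))
    (@En.i (nat_lit 5947) (nat_lit 5) (nat_lit 9))
    (@En.i (nat_lit 1800) (nat_lit 6) (nat_lit 3))
    (@En.i (nat_lit 1497) (nat_lit 0) (nat_lit 9))
    (@En.n l7 (nat_lit 2156) (nat_lit 8) (nat_lit 2))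
    (@En.n l601 (nat_lit 1800) (nat_lit 10) (nat_lit 13))
    (@En.n l532 (nat_lit 11571) (nat_lit 11) (nat_lit 14))
    (@En.n l3554 (nat_lit 2155) (nat_lit 2) (nat_lit 8))
    (@En.n l8659 (nat_lit 2036) (nat_lit 3) (nat_lit 8))
    (@En.i (nat_lit 2153) (nat_lit 14) (nat_lit 5))
    (@En.n l8660 (nat_lit 2197) (nat_lit 5) (nat_lit 7))
    (@En.n l17 (nat_lit 2156) (nat_lit 15) (nat_lit 2))))
  (@Cl.mk (nat_lit 0x200060005000e00080002000e000d0002000a0003000a0008000b000e0006) (nat_lit 0x607702056860) (nat_lit 16) Lb.e (@T16.mk En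
    (@En.n l3098 (nat_lit 2161) (nat_lit 8) (nat_lit 6))
    (@En.i (nat_lit 1898) (nat_lit 10) (nat_lit 14))
    (@En.n l281 (nat_lit 13019) (nat_lit 7) (nat_lit 11))
    (@En.i (nat_lit 2772) (nat_lit 12) (nat_lit 8))
    (@En.i (nat_lit 5948) (nat_lit 4) (nat_lit 10))
    (@En.i (nat_lit 2159) (nat_lit 5) (nat_lit 3))
    (@En.n l2436 (nat_lit 1495) (nat_lit 12) (nat_lit 10))
    (@En.n l7 (nat_lit 2157) (nat_lit 7) (nat_lit 2))
    (@En.n l601 (nat_lit 2159) (nat_lit 9) (nat_lit 13))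
    (@En.n l287 (nat_lit 11573) (nat_lit 1) (nat_lit 14))
    (@En.n l11 (nat_lit 2157) (nat_lit 10) (nat_lit 2))
    (@En.i (nat_lit 2156) (nat_lit 12) (nat_lit 8))
    (@En.n l3478 (nat_lit 2922) (nat_lit 13) (nat_lit 14))
    (@En.i (nat_lit 2158) (nat_lit 14) (nat_lit 5))
    (@En.n l2765 (nat_lit 2393) (nat_lit 6) (nat_lit 6))
    (@En.n l17 (nat_lit 2157) (nat_lit 15) (nat_lit 2))))
  (@Cl.mk (nat_lit 0x20005000e00080002000e000d000200090003000d0008000b0003000e0007) (nat_lit 0x56068020768070) (nat_lit 16) Lb.e (@T16.mk En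
    (@En.n l3646 (nat_lit 2544) (nat_lit 7) (nat_lit 7))
    (@En.n l3 (nat_lit 2157) (nat_lit 1) (nat_lit 14))
    (@En.n l3647 (nat_lit 1841) (nat_lit 2) (nat_lit 3))
    (@En.n l3648 (nat_lit 13023) (nat_lit 7) (nat_lit 11))
    (@En.i (nat_lit 2771) (nat_lit 4) (nat_lit 8))
    (@En.n l3649 (nat_lit 1689) (nat_lit 6) (nat_lit 13))
    (@En.n l3650 (nat_lit 1731) (nat_lit 6) (nat_lit 3))
    (@En.n l3651 (nat_lit 1504) (nat_lit 12) (nat_lit 9))
    (@En.n l7 (nat_lit 2158) (nat_lit 8) (nat_lit 2))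
    (@En.n l3027 (nat_lit 1731) (nat_lit 10) (nat_lit 13))
    (@En.n l3652 (nat_lit 12296) (nat_lit 1) (nat_lit 14))
    (@En.n l11 (nat_lit 2158) (nat_lit 11) (nat_lit 2))
    (@En.i (nat_lit 2153) (nat_lit 13) (nat_lit 8))
    (@En.n l3653 (nat_lit 2049) (nat_lit 1) (nat_lit 14))
    (@En.n l3106 (nat_lit 2137) (nat_lit 5) (nat_lit 5))
    (@En.n l17 (nat_lit 2158) (nat_lit 15) (nat_lit 2))))
  (@Cl.mk (nat_lit 0x200060005000e00080002000d000d000900030003000a0008000b000e0007) (nat_lit 0x606820056840) (nat_lit 16) Lb.e (@T16.mk En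
    (@En.n l19359 (nat_lit 2168) (nat_lit 5) (nat_lit 7))
    (@En.i (nat_lit 1891) (nat_lit 7) (nat_lit 14))
    (@En.n l6115 (nat_lit 13020) (nat_lit 7) (nat_lit 11))
    (@En.i (nat_lit 1829) (nat_lit 3) (nat_lit 8))
    (@En.n l12577 (nat_lit 2021) (nat_lit 4) (nat_lit 10))
    (@En.n l50 (nat_lit 2157) (nat_lit 5) (nat_lit 3))
    (@En.n l877 (nat_lit 2166) (nat_lit 6) (nat_lit 3))
    (@En.n l12577 (nat_lit 1541) (nat_lit 0) (nat_lit 9))
    (@En.n l1285 (nat_lit 2166) (nat_lit 9) (nat_lit 13))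
    (@En.n l12577 (nat_lit 12271) (nat_lit 10) (nat_lit 13))
    (@En.n l11 (nat_lit 2159) (nat_lit 10) (nat_lit 2))
    (@En.i (nat_lit 1800) (nat_lit 12) (nat_lit 8))
    (@En.n l3478 (nat_lit 2923) (nat_lit 13) (nat_lit 14))
    (@En.n l3650 (nat_lit 1731) (nat_lit 14) (nat_lit 5))
    (@En.n l20675 (nat_lit 2392) (nat_lit 3) (nat_lit 6))
    (@En.n l17 (nat_lit 2159) (nat_lit 15) (nat_lit 2))))
noncomputable def a135 : T16 Cl := @T16.mk Cl
  (@Cl.mk (nat_lit 0x2000900090004000a00090009000c000700070006000400070007000e000c) (nat_lit 0x640600000000045) (nat_lit 16) Lb.e (@T16.mk En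
    (@En.n l7927 (nat_lit 2164) (nat_lit 3) (nat_lit 12))
    (@En.n l396 (nat_lit 11572) (nat_lit 1) (nat_lit 14))
    (@En.n l7928 (nat_lit 2163) (nat_lit 2) (nat_lit 7))
    (@En.n l7929 (nat_lit 3664) (nat_lit 3) (nat_lit 7))
    (@En.i (nat_lit 2162) (nat_lit 4) (nat_lit 4))
    (@En.n l7930 (nat_lit 6748) (nat_lit 5) (nat_lit 6))
    (@En.n l152 (nat_lit 2484) (nat_lit 9) (nat_lit 7))
    (@En.n l3851 (nat_lit 9261) (nat_lit 7) (nat_lit 7))
    (@En.n l8 (nat_lit 2161) (nat_lit 9) (nat_lit 12))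
    (@En.n l77 (nat_lit 2161) (nat_lit 10) (nat_lit 9))
    (@En.i (nat_lit 2781) (nat_lit 11) (nat_lit 9))
    (@En.n l7931 (nat_lit 5016) (nat_lit 12) (nat_lit 10))
    (@En.i (nat_lit 2850) (nat_lit 13) (nat_lit 4))
    (@En.n l3536 (nat_lit 2156) (nat_lit 7) (nat_lit 9))
    (@En.i (nat_lit 2844) (nat_lit 1) (nat_lit 9))
    (@En.n l18 (nat_lit 2160) (nat_lit 15) (nat_lit 2))))
  (@Cl.mk (nat_lit 0x2000a000a0004000b0009000c0006000600050004000e00070002000e000c) (nat_lit 0x73067a000000056) (nat_lit 16) Lb.e (@T16.mk En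
    (@En.i (nat_lit 2168) (nat_lit 14) (nat_lit 12))
    (@En.n l92 (nat_lit 12302) (nat_lit 1) (nat_lit 14))
    (@En.n l7 (nat_lit 2161) (nat_lit 2) (nat_lit 2))
    (@En.i (nat_lit 2160) (nat_lit 3) (nat_lit 7))
    (@En.n l3850 (nat_lit 2319) (nat_lit 1) (nat_lit 14))
    (@En.n l15 (nat_lit 2544) (nat_lit 5) (nat_lit 4))
    (@En.n l92 (nat_lit 6747) (nat_lit 6) (nat_lit 5))
    (@En.n l152 (nat_lit 2487) (nat_lit 10) (nat_lit 6))
    (@En.n l3851 (nat_lit 9294) (nat_lit 8) (nat_lit 6))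
    (@En.n l92 (nat_lit 13376) (nat_lit 6) (nat_lit 12))
    (@En.i (nat_lit 2554) (nat_lit 11) (nat_lit 9))
    (@En.n l539 (nat_lit 5017) (nat_lit 12) (nat_lit 11))
    (@En.n l3852 (nat_lit 2885) (nat_lit 9) (nat_lit 4))
    (@En.n l3536 (nat_lit 2157) (nat_lit 6) (nat_lit 10))
    (@En.n l92 (nat_lit 2887) (nat_lit 12) (nat_lit 10))
    (@En.n l18 (nat_lit 2161) (nat_lit 15) (nat_lit 2))))
  (@Cl.mk (nat_lit 0x2000800080004000c00090009000c000400080008000400070007000e000c) (nat_lit 0x330600005400044) (nat_lit 16) Lb.e (@T16.mk En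
    (@En.n l3714 (nat_lit 2437) (nat_lit 3) (nat_lit 12))
    (@En.n l3715 (nat_lit 12294) (nat_lit 1) (nat_lit 14))
    (@En.n l3716 (nat_lit 2165) (nat_lit 2) (nat_lit 7))
    (@En.n l3717 (nat_lit 2465) (nat_lit 11) (nat_lit 7))
    (@En.n l3535 (nat_lit 6348) (nat_lit 4) (nat_lit 4))
    (@En.n l152 (nat_lit 2481) (nat_lit 8) (nat_lit 8))
    (@En.n l936 (nat_lit 6752) (nat_lit 6) (nat_lit 8))
    (@En.n l3718 (nat_lit 2474) (nat_lit 7) (nat_lit 4))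
    (@En.n l3719 (nat_lit 2544) (nat_lit 9) (nat_lit 12))
    (@En.n l3720 (nat_lit 2544) (nat_lit 10) (nat_lit 9))
    (@En.i (nat_lit 2802) (nat_lit 11) (nat_lit 9))
    (@En.n l3721 (nat_lit 1681) (nat_lit 12) (nat_lit 12))
    (@En.n l3722 (nat_lit 2443) (nat_lit 13) (nat_lit 4))
    (@En.n l3536 (nat_lit 2153) (nat_lit 8) (nat_lit 8))
    (@En.n l3723 (nat_lit 2613) (nat_lit 1) (nat_lit 8))
    (@En.n l18 (nat_lit 2162) (nat_lit 15) (nat_lit 2))))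
  (@Cl.mk (nat_lit 0x20008000800040009000e00090002000c00080008000700040007000e000c) (nat_lit 0x420601015600040) (nat_lit 16) Lb.e (@T16.mk En
    (@En.n l3347 (nat_lit 2838) (nat_lit 8) (nat_lit 12))
    (@En.n l3348 (nat_lit 7975) (nat_lit 1) (nat_lit 14))
    (@En.n l3349 (nat_lit 3623) (nat_lit 2) (nat_lit 7))
    (@En.n l3350 (nat_lit 2165) (nat_lit 3) (nat_lit 4))
    (@En.i (nat_lit 6751) (nat_lit 4) (nat_lit 7))
    (@En.n l3351 (nat_lit 2485) (nat_lit 8) (nat_lit 8))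
    (@En.n l61 (nat_lit 9259) (nat_lit 6) (nat_lit 8))
    (@En.n l3352 (nat_lit 2160) (nat_lit 8) (nat_lit 12))
    (@En.n l7 (nat_lit 2163) (nat_lit 8) (nat_lit 2))
    (@En.n l3353 (nat_lit 2160) (nat_lit 10) (nat_lit 9))
    (@En.n l3354 (nat_lit 3395) (nat_lit 11) (nat_lit 14))
    (@En.n l3355 (nat_lit 5018) (nat_lit 12) (nat_lit 9))
    (@En.n l3350 (nat_lit 2849) (nat_lit 3) (nat_lit 4))
    (@En.n l3356 (nat_lit 2155) (nat_lit 14) (nat_lit 8))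
    (@En.i (nat_lit 2843) (nat_lit 5) (nat_lit 8))
    (@En.n l3 (nat_lit 2163) (nat_lit 15) (nat_lit 2))))
  (@Cl.mk (nat_lit 0x40004000a00090009000c000800080006000400070007000c000c00080008) (nat_lit 0x60004500004653) (nat_lit 16) Lb.e (@T16.mk En
    (@En.n l15377 (nat_lit 1800) (nat_lit 8) (nat_lit 8))
    (@En.n l15378 (nat_lit 2840) (nat_lit 1) (nat_lit 8))
    (@En.n l55 (nat_lit 2167) (nat_lit 4) (nat_lit 12))
    (@En.n l15379 (nat_lit 11878) (nat_lit 13) (nat_lit 12))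
    (@En.n l217 (nat_lit 2838) (nat_lit 9) (nat_lit 7))
    (@En.i (nat_lit 2037) (nat_lit 11) (nat_lit 7))
    (@En.n l420 (nat_lit 2437) (nat_lit 6) (nat_lit 4))
    (@En.n l15380 (nat_lit 6745) (nat_lit 0) (nat_lit 6))
    (@En.n l15381 (nat_lit 2171) (nat_lit 8) (nat_lit 8))
    (@En.n l12200 (nat_lit 9260) (nat_lit 10) (nat_lit 8))
    (@En.n l15382 (nat_lit 2168) (nat_lit 6) (nat_lit 12))
    (@En.n l15383 (nat_lit 2168) (nat_lit 7) (nat_lit 9))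
    (@En.n l15384 (nat_lit 2797) (nat_lit 7) (nat_lit 9))
    (@En.n l15385 (nat_lit 6936) (nat_lit 14) (nat_lit 10))
    (@En.n l15386 (nat_lit 2160) (nat_lit 12) (nat_lit 4))
    (@En.n l15387 (nat_lit 2880) (nat_lit 0) (nat_lit 4))))
  (@Cl.mk (nat_lit 0x2000700070004000b000e00090002000c00050009000900040007000e000c) (nat_lit 0x601010650033) (nat_lit 16) Lb.e (@T16.mk En
    (@En.n l2301 (nat_lit 2462) (nat_lit 8) (nat_lit 12))
    (@En.n l2027 (nat_lit 12545) (nat_lit 1) (nat_lit 14))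
    (@En.n l3311 (nat_lit 639) (nat_lit 2) (nat_lit 7))
    (@En.n l2050 (nat_lit 6759) (nat_lit 3) (nat_lit 4))
    (@En.n l2303 (nat_lit 2483) (nat_lit 7) (nat_lit 9))
    (@En.n l1568 (nat_lit 6756) (nat_lit 5) (nat_lit 9))
    (@En.n l2029 (nat_lit 2465) (nat_lit 14) (nat_lit 5))
    (@En.n l3312 (nat_lit 2162) (nat_lit 8) (nat_lit 12))
    (@En.n l3 (nat_lit 2165) (nat_lit 8) (nat_lit 2))
    (@En.n l2537 (nat_lit 2162) (nat_lit 10) (nat_lit 9))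
    (@En.n l2304 (nat_lit 3443) (nat_lit 11) (nat_lit 14))
    (@En.n l3297 (nat_lit 1680) (nat_lit 12) (nat_lit 11))
    (@En.i (nat_lit 2618) (nat_lit 3) (nat_lit 4))
    (@En.n l2307 (nat_lit 1801) (nat_lit 9) (nat_lit 7))
    (@En.n l847 (nat_lit 2622) (nat_lit 5) (nat_lit 7))
    (@En.n l50 (nat_lit 2165) (nat_lit 15) (nat_lit 2))))
  (@Cl.mk (nat_lit 0x200060005000e00080002000d0008000e00030002000a0008000b000e0008) (nat_lit 0xa607190056833) (nat_lit 16) Lb.e (@T16.mk En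
    (@En.n l11201 (nat_lit 2169) (nat_lit 11) (nat_lit 8))
    (@En.n l1219 (nat_lit 1890) (nat_lit 12) (nat_lit 14))
    (@En.i (nat_lit 13025) (nat_lit 7) (nat_lit 11))
    (@En.n l1219 (nat_lit 1828) (nat_lit 14) (nat_lit 8))
    (@En.n l11202 (nat_lit 2019) (nat_lit 4) (nat_lit 10))
    (@En.n l7 (nat_lit 2166) (nat_lit 5) (nat_lit 2))
    (@En.n l356 (nat_lit 2159) (nat_lit 6) (nat_lit 3))
    (@En.n l136 (nat_lit 12890) (nat_lit 0) (nat_lit 14))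
    (@En.i (nat_lit 1727) (nat_lit 14) (nat_lit 8))
    (@En.n l11203 (nat_lit 12269) (nat_lit 10) (nat_lit 13))
    (@En.n l107 (nat_lit 2166) (nat_lit 10) (nat_lit 2))
    (@En.n l11204 (nat_lit 1799) (nat_lit 12) (nat_lit 8))
    (@En.n l11201 (nat_lit 2924) (nat_lit 13) (nat_lit 14))
    (@En.n l11205 (nat_lit 1730) (nat_lit 14) (nat_lit 5))
    (@En.n l11206 (nat_lit 2421) (nat_lit 8) (nat_lit 6))
    (@En.n l12 (nat_lit 2166) (nat_lit 15) (nat_lit 2))))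
  (@Cl.mk (nat_lit 0x2000a00090009000c000900090006000400070007000c00070007000e0004) (nat_lit 0x600035000050040) (nat_lit 16) Lb.e (@T16.mk En
    (@En.i (nat_lit 2164) (nat_lit 15) (nat_lit 4))
    (@En.n l5607 (nat_lit 2431) (nat_lit 1) (nat_lit 14))
    (@En.n l152 (nat_lit 1799) (nat_lit 9) (nat_lit 7))
    (@En.i (nat_lit 1985) (nat_lit 3) (nat_lit 7))
    (@En.n l15379 (nat_lit 11876) (nat_lit 5) (nat_lit 12))
    (@En.n l217 (nat_lit 2533) (nat_lit 5) (nat_lit 7))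
    (@En.i (nat_lit 2038) (nat_lit 6) (nat_lit 7))
    (@En.n l420 (nat_lit 2435) (nat_lit 7) (nat_lit 4))
    (@En.n l10740 (nat_lit 3466) (nat_lit 8) (nat_lit 6))
    (@En.n l27784 (nat_lit 2172) (nat_lit 10) (nat_lit 9))
    (@En.n l6220 (nat_lit 8275) (nat_lit 11) (nat_lit 9))
    (@En.n l27835 (nat_lit 2169) (nat_lit 12) (nat_lit 12))
    (@En.n l18576 (nat_lit 2169) (nat_lit 13) (nat_lit 9))
    (@En.n l27836 (nat_lit 2808) (nat_lit 14) (nat_lit 9))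
    (@En.n l3506 (nat_lit 2022) (nat_lit 14) (nat_lit 10))
    (@En.n l28 (nat_lit 2167) (nat_lit 15) (nat_lit 2))))
  (@Cl.mk (nat_lit 0x2000c000c0009000900040004000b0009000c0007000700050004000e0007) (nat_lit 0x57630067a000000) (nat_lit 16) Lb.e (@T16.mk En
    (@En.n l7927 (nat_lit 2164) (nat_lit 5) (nat_lit 7))
    (@En.n l3850 (nat_lit 2925) (nat_lit 1) (nat_lit 14))
    (@En.n l8645 (nat_lit 2436) (nat_lit 2) (nat_lit 4))
    (@En.n l9227 (nat_lit 6746) (nat_lit 3) (nat_lit 5))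
    (@En.n l8649 (nat_lit 2173) (nat_lit 9) (nat_lit 7))
    (@En.n l9228 (nat_lit 9296) (nat_lit 5) (nat_lit 7))
    (@En.n l92 (nat_lit 13318) (nat_lit 6) (nat_lit 12))
    (@En.i (nat_lit 2796) (nat_lit 8) (nat_lit 9))
    (@En.n l9229 (nat_lit 6938) (nat_lit 9) (nat_lit 11))
    (@En.n l217 (nat_lit 2161) (nat_lit 12) (nat_lit 4))
    (@En.n l7639 (nat_lit 2881) (nat_lit 10) (nat_lit 4))
    (@En.n l8652 (nat_lit 2159) (nat_lit 7) (nat_lit 9))
    (@En.n l9229 (nat_lit 2888) (nat_lit 13) (nat_lit 9))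
    (@En.n l9230 (nat_lit 2169) (nat_lit 4) (nat_lit 12))
    (@En.n l9231 (nat_lit 11124) (nat_lit 3) (nat_lit 12))
    (@En.n l7 (nat_lit 2168) (nat_lit 15) (nat_lit 2))))
  (@Cl.mk (nat_lit 0x2000b0009000c0008000800050004000e00070002000c00080008000e0004) (nat_lit 0x67a240000065240) (nat_lit 16) Lb.e (@T16.mk En
    (@En.n l21072 (nat_lit 2168) (nat_lit 10) (nat_lit 4))
    (@En.n l1262 (nat_lit 2446) (nat_lit 1) (nat_lit 14))
    (@En.n l8746 (nat_lit 2166) (nat_lit 8) (nat_lit 8))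
    (@En.n l21073 (nat_lit 1990) (nat_lit 14) (nat_lit 8))
    (@En.n l6589 (nat_lit 11874) (nat_lit 5) (nat_lit 12))
    (@En.n l17 (nat_lit 2169) (nat_lit 5) (nat_lit 2))
    (@En.n l19640 (nat_lit 2167) (nat_lit 6) (nat_lit 7))
    (@En.i (nat_lit 2926) (nat_lit 1) (nat_lit 14))
    (@En.n l21074 (nat_lit 2434) (nat_lit 2) (nat_lit 4))
    (@En.n l21075 (nat_lit 3467) (nat_lit 9) (nat_lit 5))
    (@En.n l20799 (nat_lit 2170) (nat_lit 4) (nat_lit 8))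
    (@En.n l21076 (nat_lit 9302) (nat_lit 5) (nat_lit 8))
    (@En.n l21073 (nat_lit 13379) (nat_lit 6) (nat_lit 12))
    (@En.n l21077 (nat_lit 2787) (nat_lit 14) (nat_lit 9))
    (@En.n l21078 (nat_lit 2025) (nat_lit 9) (nat_lit 11))
    (@En.n l28 (nat_lit 2169) (nat_lit 15) (nat_lit 2))))
  (@Cl.mk (nat_lit 0x2000b000e00080002000e00050002000c000a000d000800040003000e0006) (nat_lit 0x56050070730000) (nat_lit 16) Lb.e (@T16.mk En
    (@En.n l7140 (nat_lit 2172) (nat_lit 7) (nat_lit 6))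
    (@En.n l1599 (nat_lit 2965) (nat_lit 1) (nat_lit 14))
    (@En.n l7139 (nat_lit 2177) (nat_lit 2) (nat_lit 3))
    (@En.n l8890 (nat_lit 2852) (nat_lit 3) (nat_lit 4))
    (@En.n l3213 (nat_lit 6706) (nat_lit 4) (nat_lit 8))
    (@En.n l8348 (nat_lit 13372) (nat_lit 5) (nat_lit 13))
    (@En.n l8891 (nat_lit 2813) (nat_lit 14) (nat_lit 10))
    (@En.n l8892 (nat_lit 6933) (nat_lit 12) (nat_lit 12))
    (@En.n l3 (nat_lit 2170) (nat_lit 8) (nat_lit 2))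
    (@En.n l8893 (nat_lit 2173) (nat_lit 14) (nat_lit 5))
    (@En.n l3815 (nat_lit 2428) (nat_lit 1) (nat_lit 14))
    (@En.n l17 (nat_lit 2170) (nat_lit 11) (nat_lit 2))
    (@En.n l8894 (nat_lit 2169) (nat_lit 3) (nat_lit 8))
    (@En.n l8895 (nat_lit 13193) (nat_lit 4) (nat_lit 14))
    (@En.i (nat_lit 12321) (nat_lit 2) (nat_lit 11))
    (@En.n l50 (nat_lit 2170) (nat_lit 15) (nat_lit 2))))
  (@Cl.mk (nat_lit 0x200050005000b000a000a000d00080005000300060006000b000b000e0008) (nat_lit 0x7006400000556) (nat_lit 16) Lb.e (@T16.mk En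
    (@En.n l6225 (nat_lit 2164) (nat_lit 1) (nat_lit 8))
    (@En.n l6226 (nat_lit 2172) (nat_lit 4) (nat_lit 14))
    (@En.n l6227 (nat_lit 2172) (nat_lit 5) (nat_lit 11))
    (@En.n l6186 (nat_lit 12653) (nat_lit 3) (nat_lit 11))
    (@En.n l6228 (nat_lit 2179) (nat_lit 4) (nat_lit 6))
    (@En.n l6229 (nat_lit 2971) (nat_lit 5) (nat_lit 6))
    (@En.n l1158 (nat_lit 2178) (nat_lit 6) (nat_lit 3))
    (@En.n l6230 (nat_lit 2634) (nat_lit 7) (nat_lit 5))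
    (@En.n l6231 (nat_lit 6711) (nat_lit 9) (nat_lit 8))
    (@En.n l8 (nat_lit 2173) (nat_lit 10) (nat_lit 13))
    (@En.n l77 (nat_lit 2173) (nat_lit 11) (nat_lit 10))
    (@En.i (nat_lit 2805) (nat_lit 12) (nat_lit 10))
    (@En.n l6232 (nat_lit 6932) (nat_lit 13) (nat_lit 11))
    (@En.n l17 (nat_lit 2484) (nat_lit 14) (nat_lit 5))
    (@En.i (nat_lit 2405) (nat_lit 13) (nat_lit 5))
    (@En.n l3 (nat_lit 2171) (nat_lit 15) (nat_lit 2))))
  (@Cl.mk (nat_lit 0x2000b000a000a000d00090005000300060006000b000e00070002000e0005) (nat_lit 0x701840000440060) (nat_lit 16) Lb.e (@T16.mk En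
    (@En.n l2895 (nat_lit 2171) (nat_lit 14) (nat_lit 5))
    (@En.n l10749 (nat_lit 2427) (nat_lit 1) (nat_lit 14))
    (@En.n l17 (nat_lit 2172) (nat_lit 2) (nat_lit 2))
    (@En.n l14626 (nat_lit 2167) (nat_lit 3) (nat_lit 7))
    (@En.n l3047 (nat_lit 13186) (nat_lit 4) (nat_lit 14))
    (@En.n l14627 (nat_lit 12663) (nat_lit 2) (nat_lit 11))
    (@En.n l28 (nat_lit 2174) (nat_lit 6) (nat_lit 6))
    (@En.n l14628 (nat_lit 2977) (nat_lit 12) (nat_lit 6))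
    (@En.n l50 (nat_lit 2175) (nat_lit 8) (nat_lit 3))
    (@En.n l2492 (nat_lit 2636) (nat_lit 0) (nat_lit 5))
    (@En.n l3047 (nat_lit 6712) (nat_lit 11) (nat_lit 9))
    (@En.n l3039 (nat_lit 2170) (nat_lit 5) (nat_lit 13))
    (@En.n l14629 (nat_lit 2170) (nat_lit 6) (nat_lit 10))
    (@En.n l14630 (nat_lit 2811) (nat_lit 14) (nat_lit 10))
    (@En.n l3047 (nat_lit 6930) (nat_lit 12) (nat_lit 11))
    (@En.n l3 (nat_lit 2172) (nat_lit 15) (nat_lit 2))))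
  (@Cl.mk (nat_lit 0x200050005000c000a000d000700040003000e00060002000b000b000e0009) (nat_lit 0x7850000000167) (nat_lit 16) Lb.e (@T16.mk En
    (@En.n l1738 (nat_lit 2168) (nat_lit 12) (nat_lit 9))
    (@En.n l3138 (nat_lit 2170) (nat_lit 13) (nat_lit 14))
    (@En.n l3139 (nat_lit 2170) (nat_lit 14) (nat_lit 11))
    (@En.n l3140 (nat_lit 12320) (nat_lit 3) (nat_lit 11))
    (@En.n l7 (nat_lit 2173) (nat_lit 4) (nat_lit 2))
    (@En.i (nat_lit 2171) (nat_lit 5) (nat_lit 6))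
    (@En.n l3141 (nat_lit 2964) (nat_lit 7) (nat_lit 14))
    (@En.n l319 (nat_lit 2176) (nat_lit 7) (nat_lit 3))
    (@En.n l3142 (nat_lit 2637) (nat_lit 8) (nat_lit 4))
    (@En.n l3143 (nat_lit 6707) (nat_lit 4) (nat_lit 7))
    (@En.n l93 (nat_lit 13370) (nat_lit 5) (nat_lit 13))
    (@En.i (nat_lit 2812) (nat_lit 12) (nat_lit 10))
    (@En.n l3144 (nat_lit 6935) (nat_lit 13) (nat_lit 12))
    (@En.n l17 (nat_lit 2487) (nat_lit 14) (nat_lit 5))
    (@En.i (nat_lit 2406) (nat_lit 13) (nat_lit 5))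
    (@En.n l3 (nat_lit 2173) (nat_lit 15) (nat_lit 2))))
  (@Cl.mk (nat_lit 0x2000a000e000a0002000d000a000600030006000b000e00060002000e0005) (nat_lit 0x731094000030050) (nat_lit 16) Lb.e (@T16.mk En
    (@En.i (nat_lit 2179) (nat_lit 14) (nat_lit 5))
    (@En.n l7524 (nat_lit 2429) (nat_lit 1) (nat_lit 14))
    (@En.n l17 (nat_lit 2174) (nat_lit 2) (nat_lit 2))
    (@En.n l2893 (nat_lit 2533) (nat_lit 3) (nat_lit 6))
    (@En.n l998 (nat_lit 13187) (nat_lit 4) (nat_lit 14))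
    (@En.i (nat_lit 12657) (nat_lit 2) (nat_lit 11))
    (@En.n l998 (nat_lit 3239) (nat_lit 6) (nat_lit 6))
    (@En.n l50 (nat_lit 2531) (nat_lit 7) (nat_lit 3))
    (@En.n l210 (nat_lit 2635) (nat_lit 0) (nat_lit 6))
    (@En.i (nat_lit 2534) (nat_lit 14) (nat_lit 10))
    (@En.i (nat_lit 2172) (nat_lit 11) (nat_lit 13))
    (@En.n l11 (nat_lit 2174) (nat_lit 11) (nat_lit 2))
    (@En.n l1578 (nat_lit 2172) (nat_lit 13) (nat_lit 10))
    (@En.i (nat_lit 3377) (nat_lit 1) (nat_lit 14))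
    (@En.n l613 (nat_lit 6929) (nat_lit 12) (nat_lit 10))
    (@En.n l3 (nat_lit 2174) (nat_lit 15) (nat_lit 2))))
  (@Cl.mk (nat_lit 0x2000c000a000a000d0004000a000300060006000b000e00060002000e0005) (nat_lit 0x700703000360010) (nat_lit 16) Lb.e (@T16.mk En
    (@En.i (nat_lit 2178) (nat_lit 14) (nat_lit 5))
    (@En.i (nat_lit 775) (nat_lit 1) (nat_lit 14))
    (@En.n l17 (nat_lit 2175) (nat_lit 2) (nat_lit 2))
    (@En.n l3133 (nat_lit 2435) (nat_lit 3) (nat_lit 6))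
    (@En.n l3047 (nat_lit 13182) (nat_lit 4) (nat_lit 14))
    (@En.n l1998 (nat_lit 12661) (nat_lit 2) (nat_lit 11))
    (@En.n l28 (nat_lit 2531) (nat_lit 6) (nat_lit 6))
    (@En.n l77 (nat_lit 2530) (nat_lit 12) (nat_lit 6))
    (@En.i (nat_lit 2172) (nat_lit 8) (nat_lit 3))
    (@En.n l1998 (nat_lit 1252) (nat_lit 0) (nat_lit 10))
    (@En.n l2868 (nat_lit 2490) (nat_lit 10) (nat_lit 4))
    (@En.i (nat_lit 2177) (nat_lit 5) (nat_lit 13))
    (@En.n l1578 (nat_lit 2177) (nat_lit 6) (nat_lit 10))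
    (@En.n l601 (nat_lit 2809) (nat_lit 14) (nat_lit 10))
    (@En.n l2903 (nat_lit 1500) (nat_lit 12) (nat_lit 12))
    (@En.n l3 (nat_lit 2175) (nat_lit 15) (nat_lit 2))))
noncomputable def a136 : T16 Cl := @T16.mk Cl
  (@Cl.mk (nat_lit 0x200050005000d000a000d000300080003000e00060002000b000b000e0008) (nat_lit 0xb060203004583) (nat_lit 16) Lb.e (@T16.mk En
    (@En.n l933 (nat_lit 2436) (nat_lit 12) (nat_lit 8))
    (@En.n l934 (nat_lit 2177) (nat_lit 13) (nat_lit 14))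
    (@En.n l935 (nat_lit 2177) (nat_lit 14) (nat_lit 11))
    (@En.i (nat_lit 12324) (nat_lit 3) (nat_lit 11))
    (@En.n l936 (nat_lit 2176) (nat_lit 4) (nat_lit 2))
    (@En.n l937 (nat_lit 2178) (nat_lit 5) (nat_lit 6))
    (@En.n l938 (nat_lit 2063) (nat_lit 7) (nat_lit 14))
    (@En.n l939 (nat_lit 2173) (nat_lit 7) (nat_lit 3))
    (@En.n l940 (nat_lit 1251) (nat_lit 3) (nat_lit 8))
    (@En.n l941 (nat_lit 2488) (nat_lit 9) (nat_lit 3))
    (@En.n l942 (nat_lit 13373) (nat_lit 5) (nat_lit 13))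
    (@En.n l943 (nat_lit 2806) (nat_lit 12) (nat_lit 10))
    (@En.n l944 (nat_lit 1502) (nat_lit 13) (nat_lit 13))
    (@En.n l945 (nat_lit 2486) (nat_lit 14) (nat_lit 5))
    (@En.n l942 (nat_lit 2404) (nat_lit 13) (nat_lit 5))
    (@En.n l17 (nat_lit 2176) (nat_lit 15) (nat_lit 2))))
  (@Cl.mk (nat_lit 0x2000b000e00070002000e00050002000d000a000d000300090003000e0006) (nat_lit 0x4700500a8602030) (nat_lit 16) Lb.e (@T16.mk En
    (@En.n l11 (nat_lit 2175) (nat_lit 7) (nat_lit 6))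
    (@En.n l3038 (nat_lit 2558) (nat_lit 1) (nat_lit 14))
    (@En.n l3039 (nat_lit 2170) (nat_lit 2) (nat_lit 3))
    (@En.n l1998 (nat_lit 1342) (nat_lit 11) (nat_lit 9))
    (@En.n l3040 (nat_lit 2489) (nat_lit 4) (nat_lit 3))
    (@En.n l3041 (nat_lit 13374) (nat_lit 5) (nat_lit 13))
    (@En.n l3042 (nat_lit 2810) (nat_lit 14) (nat_lit 10))
    (@En.n l3043 (nat_lit 1501) (nat_lit 12) (nat_lit 13))
    (@En.n l3 (nat_lit 2177) (nat_lit 8) (nat_lit 2))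
    (@En.n l3044 (nat_lit 2176) (nat_lit 14) (nat_lit 5))
    (@En.n l3045 (nat_lit 2418) (nat_lit 1) (nat_lit 14))
    (@En.n l17 (nat_lit 2177) (nat_lit 11) (nat_lit 2))
    (@En.n l3046 (nat_lit 2434) (nat_lit 13) (nat_lit 7))
    (@En.n l3047 (nat_lit 13191) (nat_lit 4) (nat_lit 14))
    (@En.n l3048 (nat_lit 12323) (nat_lit 2) (nat_lit 11))
    (@En.n l28 (nat_lit 2177) (nat_lit 15) (nat_lit 2))))
  (@Cl.mk (nat_lit 0x200050005000c000a000a000d00040009000300060006000b000b000e0007) (nat_lit 0x9017030003470) (nat_lit 16) Lb.e (@T16.mk En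
    (@En.n l3133 (nat_lit 2437) (nat_lit 1) (nat_lit 7))
    (@En.n l476 (nat_lit 2175) (nat_lit 4) (nat_lit 14))
    (@En.n l152 (nat_lit 2175) (nat_lit 5) (nat_lit 11))
    (@En.n l3134 (nat_lit 12662) (nat_lit 3) (nat_lit 11))
    (@En.n l28 (nat_lit 2482) (nat_lit 4) (nat_lit 6))
    (@En.n l77 (nat_lit 2464) (nat_lit 5) (nat_lit 6))
    (@En.n l2895 (nat_lit 2171) (nat_lit 6) (nat_lit 3))
    (@En.n l1998 (nat_lit 1248) (nat_lit 0) (nat_lit 9))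
    (@En.n l2868 (nat_lit 2475) (nat_lit 8) (nat_lit 4))
    (@En.n l3044 (nat_lit 2176) (nat_lit 10) (nat_lit 13))
    (@En.n l3135 (nat_lit 2176) (nat_lit 11) (nat_lit 10))
    (@En.n l3136 (nat_lit 2803) (nat_lit 12) (nat_lit 10))
    (@En.n l3134 (nat_lit 1422) (nat_lit 13) (nat_lit 12))
    (@En.n l3137 (nat_lit 2481) (nat_lit 14) (nat_lit 5))
    (@En.n l899 (nat_lit 887) (nat_lit 13) (nat_lit 5))
    (@En.n l17 (nat_lit 2178) (nat_lit 15) (nat_lit 2))))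
  (@Cl.mk (nat_lit 0x200050005000a000e000a0002000d0009000600030006000b000b000e0007) (nat_lit 0x7210750000140) (nat_lit 16) Lb.e (@T16.mk En
    (@En.n l2893 (nat_lit 2838) (nat_lit 6) (nat_lit 7))
    (@En.n l476 (nat_lit 2174) (nat_lit 4) (nat_lit 14))
    (@En.n l152 (nat_lit 2174) (nat_lit 5) (nat_lit 11))
    (@En.n l2879 (nat_lit 12655) (nat_lit 3) (nat_lit 11))
    (@En.n l998 (nat_lit 3236) (nat_lit 4) (nat_lit 6))
    (@En.n l50 (nat_lit 2482) (nat_lit 5) (nat_lit 3))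
    (@En.n l2894 (nat_lit 2632) (nat_lit 6) (nat_lit 6))
    (@En.i (nat_lit 2536) (nat_lit 14) (nat_lit 9))
    (@En.n l2895 (nat_lit 2171) (nat_lit 9) (nat_lit 13))
    (@En.n l11 (nat_lit 2179) (nat_lit 9) (nat_lit 2))
    (@En.n l2896 (nat_lit 2171) (nat_lit 11) (nat_lit 10))
    (@En.i (nat_lit 3384) (nat_lit 12) (nat_lit 14))
    (@En.n l2897 (nat_lit 6931) (nat_lit 13) (nat_lit 10))
    (@En.n l2898 (nat_lit 2485) (nat_lit 14) (nat_lit 5))
    (@En.n l2899 (nat_lit 2407) (nat_lit 13) (nat_lit 5))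
    (@En.n l17 (nat_lit 2179) (nat_lit 15) (nat_lit 2))))
  (@Cl.mk (nat_lit 0x20005000800040007000d000b000e0003000200080005000b0009000e000c) (nat_lit 0x10031c0050931a) (nat_lit 16) Lb.e (@T16.mk En
    (@En.n l9499 (nat_lit 1856) (nat_lit 10) (nat_lit 12))
    (@En.n l9500 (nat_lit 2141) (nat_lit 11) (nat_lit 14))
    (@En.n l8091 (nat_lit 2219) (nat_lit 12) (nat_lit 9))
    (@En.n l9501 (nat_lit 2138) (nat_lit 3) (nat_lit 11))
    (@En.n l17 (nat_lit 771) (nat_lit 4) (nat_lit 5))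
    (@En.n l3328 (nat_lit 2576) (nat_lit 5) (nat_lit 8))
    (@En.n l3 (nat_lit 2180) (nat_lit 6) (nat_lit 2))
    (@En.n l3323 (nat_lit 2181) (nat_lit 7) (nat_lit 3))
    (@En.n l3324 (nat_lit 12921) (nat_lit 0) (nat_lit 14))
    (@En.n l1253 (nat_lit 883) (nat_lit 10) (nat_lit 11))
    (@En.n l3325 (nat_lit 12696) (nat_lit 11) (nat_lit 13))
    (@En.n l9502 (nat_lit 13808) (nat_lit 11) (nat_lit 7))
    (@En.n l8091 (nat_lit 4416) (nat_lit 5) (nat_lit 4))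
    (@En.n l862 (nat_lit 682) (nat_lit 14) (nat_lit 8))
    (@En.i (nat_lit 2425) (nat_lit 7) (nat_lit 5))
    (@En.n l7 (nat_lit 2180) (nat_lit 15) (nat_lit 2))))
  (@Cl.mk (nat_lit 0x20005000800040007000d000d000c0003000300080004000b0009000e000c) (nat_lit 0x1002450040931a) (nat_lit 16) Lb.e (@T16.mk En
    (@En.n l22018 (nat_lit 1852) (nat_lit 9) (nat_lit 12))
    (@En.n l180 (nat_lit 2148) (nat_lit 1) (nat_lit 14))
    (@En.n l2038 (nat_lit 2212) (nat_lit 2) (nat_lit 9))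
    (@En.n l3749 (nat_lit 1851) (nat_lit 3) (nat_lit 11))
    (@En.n l403 (nat_lit 2184) (nat_lit 4) (nat_lit 4))
    (@En.n l1353 (nat_lit 2574) (nat_lit 5) (nat_lit 8))
    (@En.n l18 (nat_lit 2182) (nat_lit 6) (nat_lit 3))
    (@En.n l947 (nat_lit 2180) (nat_lit 7) (nat_lit 3))
    (@En.n l6444 (nat_lit 2183) (nat_lit 9) (nat_lit 12))
    (@En.n l5913 (nat_lit 2180) (nat_lit 10) (nat_lit 13))
    (@En.n l1889 (nat_lit 10534) (nat_lit 11) (nat_lit 13))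
    (@En.i (nat_lit 13809) (nat_lit 11) (nat_lit 7))
    (@En.n l22019 (nat_lit 4386) (nat_lit 4) (nat_lit 4))
    (@En.n l1643 (nat_lit 452) (nat_lit 14) (nat_lit 8))
    (@En.i (nat_lit 2203) (nat_lit 13) (nat_lit 5))
    (@En.n l11 (nat_lit 2181) (nat_lit 15) (nat_lit 2))))
  (@Cl.mk (nat_lit 0x20005000800040007000e000d0002000d000300080003000b0009000e000c) (nat_lit 0x100a302040930a) (nat_lit 16) Lb.e (@T16.mk En
    (@En.n l5313 (nat_lit 1855) (nat_lit 8) (nat_lit 12))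
    (@En.n l180 (nat_lit 2187) (nat_lit 1) (nat_lit 14))
    (@En.n l2038 (nat_lit 2211) (nat_lit 2) (nat_lit 9))
    (@En.i (nat_lit 2188) (nat_lit 3) (nat_lit 11))
    (@En.n l2364 (nat_lit 2183) (nat_lit 4) (nat_lit 3))
    (@En.i (nat_lit 4954) (nat_lit 5) (nat_lit 8))
    (@En.i (nat_lit 2181) (nat_lit 6) (nat_lit 3))
    (@En.n l1997 (nat_lit 804) (nat_lit 8) (nat_lit 13))
    (@En.n l50 (nat_lit 2182) (nat_lit 8) (nat_lit 2))
    (@En.n l396 (nat_lit 2181) (nat_lit 10) (nat_lit 13))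
    (@En.n l1889 (nat_lit 9228) (nat_lit 11) (nat_lit 14))
    (@En.i (nat_lit 13812) (nat_lit 11) (nat_lit 7))
    (@En.n l5011 (nat_lit 4384) (nat_lit 3) (nat_lit 4))
    (@En.n l1643 (nat_lit 448) (nat_lit 14) (nat_lit 8))
    (@En.i (nat_lit 2200) (nat_lit 5) (nat_lit 5))
    (@En.n l11 (nat_lit 2182) (nat_lit 15) (nat_lit 2))))
  (@Cl.mk (nat_lit 0x20005000900040007000e000c0002000d000700040003000b0009000e000c) (nat_lit 0x100c401000940a) (nat_lit 16) Lb.e (@T16.mk En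
    (@En.n l6119 (nat_lit 2185) (nat_lit 8) (nat_lit 12))
    (@En.n l180 (nat_lit 2186) (nat_lit 1) (nat_lit 14))
    (@En.n l2038 (nat_lit 2210) (nat_lit 2) (nat_lit 9))
    (@En.i (nat_lit 754) (nat_lit 3) (nat_lit 11))
    (@En.n l763 (nat_lit 2182) (nat_lit 4) (nat_lit 3))
    (@En.i (nat_lit 2191) (nat_lit 5) (nat_lit 4))
    (@En.n l764 (nat_lit 2188) (nat_lit 6) (nat_lit 7))
    (@En.n l2026 (nat_lit 785) (nat_lit 8) (nat_lit 13))
    (@En.n l50 (nat_lit 2183) (nat_lit 8) (nat_lit 2))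
    (@En.n l217 (nat_lit 2184) (nat_lit 10) (nat_lit 12))
    (@En.n l6120 (nat_lit 9232) (nat_lit 11) (nat_lit 14))
    (@En.i (nat_lit 13811) (nat_lit 11) (nat_lit 7))
    (@En.n l5975 (nat_lit 4385) (nat_lit 3) (nat_lit 4))
    (@En.n l1982 (nat_lit 445) (nat_lit 14) (nat_lit 9))
    (@En.i (nat_lit 2205) (nat_lit 13) (nat_lit 5))
    (@En.n l11 (nat_lit 2183) (nat_lit 15) (nat_lit 2))))
  (@Cl.mk (nat_lit 0x20005000a00040007000c000c000c0006000400040004000b0009000e000c) (nat_lit 0x1003150000950a) (nat_lit 16) Lb.e (@T16.mk En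
    (@En.i (nat_lit 2189) (nat_lit 10) (nat_lit 12))
    (@En.n l180 (nat_lit 2190) (nat_lit 1) (nat_lit 14))
    (@En.n l2038 (nat_lit 2208) (nat_lit 2) (nat_lit 9))
    (@En.n l5911 (nat_lit 756) (nat_lit 3) (nat_lit 11))
    (@En.n l1778 (nat_lit 883) (nat_lit 4) (nat_lit 4))
    (@En.n l2172 (nat_lit 2183) (nat_lit 5) (nat_lit 4))
    (@En.i (nat_lit 2259) (nat_lit 6) (nat_lit 4))
    (@En.n l5912 (nat_lit 1851) (nat_lit 7) (nat_lit 6))
    (@En.n l742 (nat_lit 2191) (nat_lit 9) (nat_lit 12))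
    (@En.n l5913 (nat_lit 771) (nat_lit 10) (nat_lit 12))
    (@En.n l2869 (nat_lit 12683) (nat_lit 11) (nat_lit 12))
    (@En.i (nat_lit 13807) (nat_lit 11) (nat_lit 7))
    (@En.i (nat_lit 4390) (nat_lit 13) (nat_lit 4))
    (@En.n l13988 (nat_lit 402) (nat_lit 14) (nat_lit 10))
    (@En.i (nat_lit 2236) (nat_lit 13) (nat_lit 5))
    (@En.n l11 (nat_lit 2184) (nat_lit 15) (nat_lit 2))))
  (@Cl.mk (nat_lit 0x2000d000800040003000c0009000c000c00040008000400040007000e000c) (nat_lit 0x1400a49001000c5) (nat_lit 16) Lb.e (@T16.mk En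
    (@En.n l5674 (nat_lit 2189) (nat_lit 3) (nat_lit 12))
    (@En.i (nat_lit 9240) (nat_lit 1) (nat_lit 14))
    (@En.n l5675 (nat_lit 2183) (nat_lit 11) (nat_lit 7))
    (@En.n l5676 (nat_lit 2183) (nat_lit 12) (nat_lit 4))
    (@En.n l5677 (nat_lit 4381) (nat_lit 4) (nat_lit 4))
    (@En.n l5678 (nat_lit 405) (nat_lit 5) (nat_lit 8))
    (@En.n l880 (nat_lit 2206) (nat_lit 6) (nat_lit 4))
    (@En.n l5679 (nat_lit 2250) (nat_lit 4) (nat_lit 12))
    (@En.n l2004 (nat_lit 2384) (nat_lit 9) (nat_lit 12))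
    (@En.n l5680 (nat_lit 2209) (nat_lit 10) (nat_lit 9))
    (@En.n l5681 (nat_lit 755) (nat_lit 11) (nat_lit 12))
    (@En.n l11 (nat_lit 1855) (nat_lit 11) (nat_lit 3))
    (@En.n l5682 (nat_lit 2192) (nat_lit 0) (nat_lit 4))
    (@En.n l5683 (nat_lit 1848) (nat_lit 14) (nat_lit 8))
    (@En.n l615 (nat_lit 737) (nat_lit 1) (nat_lit 13))
    (@En.n l3 (nat_lit 2185) (nat_lit 15) (nat_lit 2))))
  (@Cl.mk (nat_lit 0x2000c0005000900050004000e000c0002000d000700040003000b000e000b) (nat_lit 0x10100c4010009c9) (nat_lit 16) Lb.e (@T16.mk En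
    (@En.n l2093 (nat_lit 2223) (nat_lit 9) (nat_lit 11))
    (@En.n l2094 (nat_lit 3726) (nat_lit 4) (nat_lit 14))
    (@En.i (nat_lit 753) (nat_lit 11) (nat_lit 11))
    (@En.n l763 (nat_lit 2187) (nat_lit 3) (nat_lit 3))
    (@En.i (nat_lit 2193) (nat_lit 0) (nat_lit 4))
    (@En.n l764 (nat_lit 2194) (nat_lit 14) (nat_lit 7))
    (@En.n l765 (nat_lit 798) (nat_lit 7) (nat_lit 13))
    (@En.n l50 (nat_lit 2186) (nat_lit 7) (nat_lit 2))
    (@En.n l217 (nat_lit 2190) (nat_lit 9) (nat_lit 12))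
    (@En.n l2095 (nat_lit 9237) (nat_lit 1) (nat_lit 14))
    (@En.i (nat_lit 584) (nat_lit 10) (nat_lit 4))
    (@En.n l2096 (nat_lit 4401) (nat_lit 3) (nat_lit 5))
    (@En.n l2093 (nat_lit 1118) (nat_lit 4) (nat_lit 9))
    (@En.n l159 (nat_lit 2183) (nat_lit 14) (nat_lit 5))
    (@En.n l2097 (nat_lit 2185) (nat_lit 7) (nat_lit 12))
    (@En.n l107 (nat_lit 2186) (nat_lit 15) (nat_lit 2))))
  (@Cl.mk (nat_lit 0x2000c0005000800050004000e000d0002000d000300080003000b000e000b) (nat_lit 0x20200a3020409c9) (nat_lit 16) Lb.e (@T16.mk En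
    (@En.n l3303 (nat_lit 2222) (nat_lit 9) (nat_lit 11))
    (@En.n l619 (nat_lit 3725) (nat_lit 4) (nat_lit 14))
    (@En.i (nat_lit 2194) (nat_lit 11) (nat_lit 11))
    (@En.n l2364 (nat_lit 2186) (nat_lit 3) (nat_lit 3))
    (@En.n l3303 (nat_lit 4955) (nat_lit 4) (nat_lit 8))
    (@En.i (nat_lit 2148) (nat_lit 5) (nat_lit 3))
    (@En.i (nat_lit 800) (nat_lit 0) (nat_lit 13))
    (@En.n l50 (nat_lit 2187) (nat_lit 7) (nat_lit 2))
    (@En.n l396 (nat_lit 2148) (nat_lit 9) (nat_lit 13))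
    (@En.n l5599 (nat_lit 9231) (nat_lit 1) (nat_lit 14))
    (@En.i (nat_lit 566) (nat_lit 10) (nat_lit 4))
    (@En.n l5995 (nat_lit 4419) (nat_lit 3) (nat_lit 5))
    (@En.n l3303 (nat_lit 1214) (nat_lit 4) (nat_lit 8))
    (@En.n l159 (nat_lit 2182) (nat_lit 14) (nat_lit 5))
    (@En.n l5996 (nat_lit 1855) (nat_lit 7) (nat_lit 12))
    (@En.n l107 (nat_lit 2187) (nat_lit 15) (nat_lit 2))))
  (@Cl.mk (nat_lit 0x200050009000800050008000e000d0002000700030008000b0008000e000b) (nat_lit 0x72052300058209) (nat_lit 16) Lb.e (@T16.mk En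
    (@En.n l3839 (nat_lit 1848) (nat_lit 9) (nat_lit 11))
    (@En.n l180 (nat_lit 2194) (nat_lit 10) (nat_lit 14))
    (@En.n l12269 (nat_lit 3322) (nat_lit 11) (nat_lit 8))
    (@En.n l2366 (nat_lit 757) (nat_lit 3) (nat_lit 11))
    (@En.i (nat_lit 4953) (nat_lit 4) (nat_lit 8))
    (@En.n l3749 (nat_lit 1851) (nat_lit 5) (nat_lit 3))
    (@En.n l387 (nat_lit 1587) (nat_lit 6) (nat_lit 7))
    (@En.n l50 (nat_lit 2188) (nat_lit 7) (nat_lit 2))
    (@En.n l4270 (nat_lit 1851) (nat_lit 9) (nat_lit 13))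
    (@En.n l1889 (nat_lit 9226) (nat_lit 10) (nat_lit 14))
    (@En.i (nat_lit 13813) (nat_lit 10) (nat_lit 8))
    (@En.n l5234 (nat_lit 7423) (nat_lit 3) (nat_lit 5))
    (@En.n l725 (nat_lit 2182) (nat_lit 13) (nat_lit 8))
    (@En.n l10357 (nat_lit 7759) (nat_lit 5) (nat_lit 9))
    (@En.i (nat_lit 2196) (nat_lit 6) (nat_lit 5))
    (@En.n l11 (nat_lit 2188) (nat_lit 15) (nat_lit 2))))
  (@Cl.mk (nat_lit 0x400040004000c0009000c000c00040009000400040007000c000c000c0007) (nat_lit 0x8590010004130) (nat_lit 16) Lb.e (@T16.mk En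
    (@En.n l5912 (nat_lit 1846) (nat_lit 0) (nat_lit 7))
    (@En.n l742 (nat_lit 2192) (nat_lit 4) (nat_lit 12))
    (@En.n l5913 (nat_lit 774) (nat_lit 4) (nat_lit 12))
    (@En.n l13861 (nat_lit 12681) (nat_lit 13) (nat_lit 12))
    (@En.n l107 (nat_lit 2184) (nat_lit 11) (nat_lit 7))
    (@En.n l575 (nat_lit 2184) (nat_lit 12) (nat_lit 4))
    (@En.n l8351 (nat_lit 4380) (nat_lit 0) (nat_lit 4))
    (@En.n l13862 (nat_lit 401) (nat_lit 0) (nat_lit 9))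
    (@En.n l117 (nat_lit 2237) (nat_lit 1) (nat_lit 4))
    (@En.n l7771 (nat_lit 2251) (nat_lit 4) (nat_lit 12))
    (@En.n l3839 (nat_lit 2378) (nat_lit 6) (nat_lit 12))
    (@En.n l2038 (nat_lit 835) (nat_lit 12) (nat_lit 9))
    (@En.n l5911 (nat_lit 759) (nat_lit 13) (nat_lit 12))
    (@En.n l1778 (nat_lit 886) (nat_lit 12) (nat_lit 4))
    (@En.n l13863 (nat_lit 2185) (nat_lit 12) (nat_lit 4))
    (@En.i (nat_lit 2256) (nat_lit 0) (nat_lit 4))))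
  (@Cl.mk (nat_lit 0x2000c0005000a00050004000c000c000c0006000400040004000b000e000b) (nat_lit 0x1010031500009c9) (nat_lit 16) Lb.e (@T16.mk En
    (@En.i (nat_lit 2224) (nat_lit 11) (nat_lit 11))
    (@En.n l619 (nat_lit 3700) (nat_lit 4) (nat_lit 14))
    (@En.i (nat_lit 760) (nat_lit 2) (nat_lit 11))
    (@En.n l6066 (nat_lit 881) (nat_lit 12) (nat_lit 4))
    (@En.n l2172 (nat_lit 2186) (nat_lit 4) (nat_lit 4))
    (@En.i (nat_lit 2230) (nat_lit 5) (nat_lit 4))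
    (@En.n l5802 (nat_lit 2140) (nat_lit 6) (nat_lit 6))
    (@En.n l742 (nat_lit 2193) (nat_lit 4) (nat_lit 12))
    (@En.n l396 (nat_lit 769) (nat_lit 4) (nat_lit 12))
    (@En.i (nat_lit 12682) (nat_lit 10) (nat_lit 12))
    (@En.i (nat_lit 588) (nat_lit 10) (nat_lit 4))
    (@En.i (nat_lit 4392) (nat_lit 0) (nat_lit 5))
    (@En.n l5633 (nat_lit 304) (nat_lit 13) (nat_lit 10))
    (@En.n l159 (nat_lit 2184) (nat_lit 14) (nat_lit 5))
    (@En.n l11 (nat_lit 2189) (nat_lit 9) (nat_lit 12))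
    (@En.n l107 (nat_lit 2190) (nat_lit 15) (nat_lit 2))))
  (@Cl.mk (nat_lit 0x20005000b00040007000d000c00050003000e00040002000b0009000e000c) (nat_lit 0x100b400100910a) (nat_lit 16) Lb.e (@T16.mk En
    (@En.i (nat_lit 2192) (nat_lit 12) (nat_lit 12))
    (@En.n l180 (nat_lit 2193) (nat_lit 13) (nat_lit 14))
    (@En.n l2038 (nat_lit 834) (nat_lit 14) (nat_lit 9))
    (@En.i (nat_lit 2576) (nat_lit 3) (nat_lit 11))
    (@En.n l17 (nat_lit 2191) (nat_lit 4) (nat_lit 2))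
    (@En.n l50 (nat_lit 2184) (nat_lit 5) (nat_lit 4))
    (@En.n l998 (nat_lit 805) (nat_lit 7) (nat_lit 14))
    (@En.n l50 (nat_lit 2260) (nat_lit 7) (nat_lit 3))
    (@En.i (nat_lit 1929) (nat_lit 8) (nat_lit 5))
    (@En.n l217 (nat_lit 2259) (nat_lit 10) (nat_lit 12))
    (@En.i (nat_lit 4039) (nat_lit 11) (nat_lit 13))
    (@En.i (nat_lit 13743) (nat_lit 11) (nat_lit 7))
    (@En.i (nat_lit 4377) (nat_lit 7) (nat_lit 4))
    (@En.n l1643 (nat_lit 400) (nat_lit 9) (nat_lit 11))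
    (@En.i (nat_lit 2245) (nat_lit 9) (nat_lit 5))
    (@En.n l11 (nat_lit 2191) (nat_lit 15) (nat_lit 2))))
noncomputable def a137 : T16 Cl := @T16.mk Cl
  (@Cl.mk (nat_lit 0x2000c0009000c000c0004000a000400040007000d000c00060003000e0004) (nat_lit 0x919001000b20010) (nat_lit 16) Lb.e (@T16.mk En
    (@En.n l50 (nat_lit 2189) (nat_lit 14) (nat_lit 4))
    (@En.n l998 (nat_lit 783) (nat_lit 1) (nat_lit 14))
    (@En.n l50 (nat_lit 2255) (nat_lit 2) (nat_lit 3))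
    (@En.i (nat_lit 1532) (nat_lit 3) (nat_lit 6))
    (@En.n l217 (nat_lit 2256) (nat_lit 4) (nat_lit 12))
    (@En.n l1889 (nat_lit 12656) (nat_lit 6) (nat_lit 13))
    (@En.n l107 (nat_lit 2191) (nat_lit 11) (nat_lit 7))
    (@En.n l575 (nat_lit 2191) (nat_lit 12) (nat_lit 4))
    (@En.n l8351 (nat_lit 4379) (nat_lit 8) (nat_lit 4))
    (@En.n l14023 (nat_lit 398) (nat_lit 10) (nat_lit 10))
    (@En.i (nat_lit 2243) (nat_lit 10) (nat_lit 4))
    (@En.n l7771 (nat_lit 2252) (nat_lit 4) (nat_lit 12))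
    (@En.n l3839 (nat_lit 2376) (nat_lit 6) (nat_lit 12))
    (@En.n l2038 (nat_lit 827) (nat_lit 14) (nat_lit 9))
    (@En.n l3839 (nat_lit 2577) (nat_lit 12) (nat_lit 12))
    (@En.n l17 (nat_lit 2192) (nat_lit 15) (nat_lit 2))))
  (@Cl.mk (nat_lit 0x2000b000e000b0002000c0005000b00050004000d000c00050003000e0004) (nat_lit 0x9c9010100b40010) (nat_lit 16) Lb.e (@T16.mk En
    (@En.n l50 (nat_lit 2190) (nat_lit 4) (nat_lit 4))
    (@En.n l5 (nat_lit 799) (nat_lit 1) (nat_lit 14))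
    (@En.n l50 (nat_lit 2232) (nat_lit 2) (nat_lit 3))
    (@En.i (nat_lit 1928) (nat_lit 7) (nat_lit 5))
    (@En.n l217 (nat_lit 2230) (nat_lit 9) (nat_lit 12))
    (@En.i (nat_lit 12620) (nat_lit 10) (nat_lit 13))
    (@En.i (nat_lit 591) (nat_lit 6) (nat_lit 4))
    (@En.i (nat_lit 4376) (nat_lit 7) (nat_lit 5))
    (@En.n l3303 (nat_lit 311) (nat_lit 9) (nat_lit 11))
    (@En.n l159 (nat_lit 2191) (nat_lit 14) (nat_lit 5))
    (@En.n l11 (nat_lit 2192) (nat_lit 11) (nat_lit 12))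
    (@En.n l107 (nat_lit 2193) (nat_lit 11) (nat_lit 2))
    (@En.i (nat_lit 2225) (nat_lit 13) (nat_lit 11))
    (@En.n l619 (nat_lit 3699) (nat_lit 4) (nat_lit 14))
    (@En.i (nat_lit 2511) (nat_lit 2) (nat_lit 11))
    (@En.n l17 (nat_lit 2193) (nat_lit 15) (nat_lit 2))))
  (@Cl.mk (nat_lit 0x2000700030008000b000e000a0002000b00050009000800060005000e000d) (nat_lit 0x38c8020730043) (nat_lit 16) Lb.e (@T16.mk En
    (@En.n l396 (nat_lit 2140) (nat_lit 8) (nat_lit 13))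
    (@En.n l5599 (nat_lit 9227) (nat_lit 9) (nat_lit 14))
    (@En.i (nat_lit 640) (nat_lit 2) (nat_lit 5))
    (@En.n l5995 (nat_lit 7326) (nat_lit 3) (nat_lit 6))
    (@En.n l725 (nat_lit 2187) (nat_lit 12) (nat_lit 8))
    (@En.n l5995 (nat_lit 7918) (nat_lit 5) (nat_lit 9))
    (@En.n l159 (nat_lit 2188) (nat_lit 14) (nat_lit 5))
    (@En.n l5634 (nat_lit 1848) (nat_lit 8) (nat_lit 11))
    (@En.n l107 (nat_lit 2194) (nat_lit 8) (nat_lit 2))
    (@En.n l3303 (nat_lit 2151) (nat_lit 10) (nat_lit 10))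
    (@En.n l6030 (nat_lit 3722) (nat_lit 11) (nat_lit 14))
    (@En.i (nat_lit 764) (nat_lit 12) (nat_lit 11))
    (@En.n l6031 (nat_lit 4918) (nat_lit 13) (nat_lit 8))
    (@En.i (nat_lit 2140) (nat_lit 4) (nat_lit 3))
    (@En.n l5995 (nat_lit 498) (nat_lit 0) (nat_lit 7))
    (@En.n l50 (nat_lit 2194) (nat_lit 15) (nat_lit 2))))
  (@Cl.mk (nat_lit 0x200050009000800070006000e000d0002000700030008000b0009000e000a) (nat_lit 0x76004300046701) (nat_lit 16) Lb.e (@T16.mk En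
    (@En.n l68 (nat_lit 2151) (nat_lit 9) (nat_lit 10))
    (@En.n l637 (nat_lit 2196) (nat_lit 10) (nat_lit 14))
    (@En.n l2057 (nat_lit 2449) (nat_lit 11) (nat_lit 9))
    (@En.n l732 (nat_lit 2154) (nat_lit 3) (nat_lit 11))
    (@En.n l1738 (nat_lit 4999) (nat_lit 4) (nat_lit 8))
    (@En.n l2058 (nat_lit 2145) (nat_lit 5) (nat_lit 3))
    (@En.n l728 (nat_lit 499) (nat_lit 6) (nat_lit 7))
    (@En.n l7 (nat_lit 2195) (nat_lit 7) (nat_lit 2))
    (@En.n l2059 (nat_lit 2145) (nat_lit 9) (nat_lit 13))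
    (@En.n l2060 (nat_lit 11753) (nat_lit 10) (nat_lit 14))
    (@En.i (nat_lit 569) (nat_lit 2) (nat_lit 6))
    (@En.n l728 (nat_lit 7404) (nat_lit 3) (nat_lit 7))
    (@En.n l17 (nat_lit 2204) (nat_lit 13) (nat_lit 8))
    (@En.n l728 (nat_lit 6997) (nat_lit 5) (nat_lit 9))
    (@En.n l730 (nat_lit 2194) (nat_lit 6) (nat_lit 5))
    (@En.n l67 (nat_lit 2195) (nat_lit 15) (nat_lit 2))))
  (@Cl.mk (nat_lit 0x2000700030008000b000e00090002000c00050009000800040007000e000d) (nat_lit 0x46c00a0760023) (nat_lit 16) Lb.e (@T16.mk En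
    (@En.n l4270 (nat_lit 2198) (nat_lit 8) (nat_lit 13))
    (@En.n l2036 (nat_lit 12627) (nat_lit 1) (nat_lit 14))
    (@En.i (nat_lit 641) (nat_lit 2) (nat_lit 7))
    (@En.i (nat_lit 2455) (nat_lit 3) (nat_lit 4))
    (@En.n l725 (nat_lit 2200) (nat_lit 4) (nat_lit 8))
    (@En.n l4367 (nat_lit 6751) (nat_lit 5) (nat_lit 9))
    (@En.n l2037 (nat_lit 2195) (nat_lit 14) (nat_lit 5))
    (@En.i (nat_lit 2197) (nat_lit 8) (nat_lit 12))
    (@En.n l3 (nat_lit 2196) (nat_lit 8) (nat_lit 2))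
    (@En.n l97 (nat_lit 2197) (nat_lit 10) (nat_lit 9))
    (@En.n l725 (nat_lit 5318) (nat_lit 11) (nat_lit 14))
    (@En.n l2366 (nat_lit 1801) (nat_lit 7) (nat_lit 11))
    (@En.i (nat_lit 1878) (nat_lit 13) (nat_lit 8))
    (@En.n l3749 (nat_lit 2198) (nat_lit 4) (nat_lit 3))
    (@En.n l4367 (nat_lit 1712) (nat_lit 0) (nat_lit 7))
    (@En.n l50 (nat_lit 2196) (nat_lit 15) (nat_lit 2))))
  (@Cl.mk (nat_lit 0x2000800030009000c00090009000c000400080007000400070007000e000d) (nat_lit 0x304670906000034) (nat_lit 16) Lb.e (@T16.mk En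
    (@En.n l7279 (nat_lit 2199) (nat_lit 2) (nat_lit 13))
    (@En.n l2036 (nat_lit 12588) (nat_lit 1) (nat_lit 14))
    (@En.n l107 (nat_lit 2196) (nat_lit 2) (nat_lit 7))
    (@En.n l2068 (nat_lit 2195) (nat_lit 11) (nat_lit 7))
    (@En.n l5013 (nat_lit 2459) (nat_lit 4) (nat_lit 4))
    (@En.n l725 (nat_lit 2202) (nat_lit 5) (nat_lit 7))
    (@En.n l7280 (nat_lit 6748) (nat_lit 6) (nat_lit 8))
    (@En.n l7087 (nat_lit 2151) (nat_lit 7) (nat_lit 4))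
    (@En.n l3839 (nat_lit 2393) (nat_lit 9) (nat_lit 12))
    (@En.n l2535 (nat_lit 2393) (nat_lit 10) (nat_lit 9))
    (@En.n l7281 (nat_lit 4582) (nat_lit 11) (nat_lit 9))
    (@En.n l7282 (nat_lit 2153) (nat_lit 6) (nat_lit 12))
    (@En.i (nat_lit 1876) (nat_lit 13) (nat_lit 9))
    (@En.n l7283 (nat_lit 2199) (nat_lit 14) (nat_lit 3))
    (@En.n l7284 (nat_lit 1711) (nat_lit 0) (nat_lit 8))
    (@En.n l50 (nat_lit 2197) (nat_lit 15) (nat_lit 2))))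
  (@Cl.mk (nat_lit 0x2000c0005000a000800040007000d000d0006000300030008000b000e0009) (nat_lit 0xa07600230005630) (nat_lit 16) Lb.e (@T16.mk En
    (@En.i (nat_lit 2199) (nat_lit 11) (nat_lit 9))
    (@En.i (nat_lit 5316) (nat_lit 4) (nat_lit 14))
    (@En.n l12362 (nat_lit 1793) (nat_lit 7) (nat_lit 11))
    (@En.n l12583 (nat_lit 2617) (nat_lit 3) (nat_lit 8))
    (@En.n l7126 (nat_lit 2196) (nat_lit 13) (nat_lit 3))
    (@En.n l731 (nat_lit 2430) (nat_lit 0) (nat_lit 3))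
    (@En.n l14558 (nat_lit 1680) (nat_lit 0) (nat_lit 6))
    (@En.n l2013 (nat_lit 2430) (nat_lit 3) (nat_lit 13))
    (@En.n l6362 (nat_lit 12634) (nat_lit 9) (nat_lit 13))
    (@En.i (nat_lit 656) (nat_lit 11) (nat_lit 7))
    (@En.n l6362 (nat_lit 2454) (nat_lit 10) (nat_lit 4))
    (@En.n l8361 (nat_lit 2203) (nat_lit 12) (nat_lit 8))
    (@En.n l6825 (nat_lit 6757) (nat_lit 13) (nat_lit 10))
    (@En.n l699 (nat_lit 2145) (nat_lit 14) (nat_lit 5))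
    (@En.n l6042 (nat_lit 2199) (nat_lit 9) (nat_lit 12))
    (@En.n l50 (nat_lit 2198) (nat_lit 15) (nat_lit 2))))
  (@Cl.mk (nat_lit 0x300030009000c00090009000c000400090007000400070007000d000d0007) (nat_lit 0x56709060000340) (nat_lit 16) Lb.e (@T16.mk En
    (@En.n l6011 (nat_lit 1681) (nat_lit 0) (nat_lit 7))
    (@En.n l2013 (nat_lit 2422) (nat_lit 3) (nat_lit 13))
    (@En.n l14687 (nat_lit 10769) (nat_lit 2) (nat_lit 13))
    (@En.n l644 (nat_lit 2198) (nat_lit 9) (nat_lit 7))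
    (@En.i (nat_lit 2145) (nat_lit 11) (nat_lit 7))
    (@En.n l17810 (nat_lit 2456) (nat_lit 5) (nat_lit 4))
    (@En.n l8361 (nat_lit 2201) (nat_lit 6) (nat_lit 7))
    (@En.n l17811 (nat_lit 6745) (nat_lit 1) (nat_lit 9))
    (@En.n l17812 (nat_lit 2143) (nat_lit 8) (nat_lit 4))
    (@En.n l17813 (nat_lit 2392) (nat_lit 6) (nat_lit 12))
    (@En.n l17814 (nat_lit 2392) (nat_lit 7) (nat_lit 9))
    (@En.n l17815 (nat_lit 4580) (nat_lit 12) (nat_lit 9))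
    (@En.n l17816 (nat_lit 1797) (nat_lit 6) (nat_lit 12))
    (@En.n l17817 (nat_lit 2445) (nat_lit 14) (nat_lit 9))
    (@En.n l17818 (nat_lit 2197) (nat_lit 13) (nat_lit 3))
    (@En.n l731 (nat_lit 2422) (nat_lit 0) (nat_lit 3))))
  (@Cl.mk (nat_lit 0x2000d000300080003000b000e000a0002000d0005000800030006000e000d) (nat_lit 0x20507000b050023) (nat_lit 16) Lb.e (@T16.mk En
    (@En.n l396 (nat_lit 2203) (nat_lit 9) (nat_lit 13))
    (@En.n l2036 (nat_lit 12628) (nat_lit 1) (nat_lit 14))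
    (@En.i (nat_lit 565) (nat_lit 12) (nat_lit 6))
    (@En.i (nat_lit 3679) (nat_lit 3) (nat_lit 3))
    (@En.n l2036 (nat_lit 2711) (nat_lit 0) (nat_lit 8))
    (@En.n l2037 (nat_lit 2204) (nat_lit 14) (nat_lit 5))
    (@En.i (nat_lit 2202) (nat_lit 7) (nat_lit 13))
    (@En.n l3 (nat_lit 2200) (nat_lit 7) (nat_lit 2))
    (@En.n l97 (nat_lit 2202) (nat_lit 9) (nat_lit 10))
    (@En.i (nat_lit 4722) (nat_lit 4) (nat_lit 14))
    (@En.i (nat_lit 2196) (nat_lit 11) (nat_lit 11))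
    (@En.n l2364 (nat_lit 2205) (nat_lit 3) (nat_lit 3))
    (@En.i (nat_lit 5000) (nat_lit 0) (nat_lit 8))
    (@En.i (nat_lit 2203) (nat_lit 5) (nat_lit 3))
    (@En.i (nat_lit 582) (nat_lit 0) (nat_lit 13))
    (@En.n l50 (nat_lit 2200) (nat_lit 15) (nat_lit 2))))
  (@Cl.mk (nat_lit 0x3000300090004000c000a000a000d00040007000300060006000d000d000c) (nat_lit 0x50700a00000346) (nat_lit 16) Lb.e (@T16.mk En
    (@En.n l6444 (nat_lit 2206) (nat_lit 0) (nat_lit 12))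
    (@En.n l10728 (nat_lit 2419) (nat_lit 3) (nat_lit 13))
    (@En.n l10729 (nat_lit 10770) (nat_lit 13) (nat_lit 13))
    (@En.n l152 (nat_lit 2203) (nat_lit 10) (nat_lit 6))
    (@En.n l5891 (nat_lit 2150) (nat_lit 12) (nat_lit 6))
    (@En.n l9649 (nat_lit 2402) (nat_lit 5) (nat_lit 3))
    (@En.n l5891 (nat_lit 2695) (nat_lit 0) (nat_lit 7))
    (@En.n l10730 (nat_lit 2146) (nat_lit 7) (nat_lit 4))
    (@En.n l10731 (nat_lit 2387) (nat_lit 5) (nat_lit 13))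
    (@En.n l10732 (nat_lit 2387) (nat_lit 6) (nat_lit 10))
    (@En.n l10733 (nat_lit 4386) (nat_lit 11) (nat_lit 10))
    (@En.n l3749 (nat_lit 2199) (nat_lit 12) (nat_lit 12))
    (@En.n l403 (nat_lit 2237) (nat_lit 6) (nat_lit 4))
    (@En.n l10734 (nat_lit 2614) (nat_lit 14) (nat_lit 9))
    (@En.n l4296 (nat_lit 2202) (nat_lit 13) (nat_lit 3))
    (@En.n l10735 (nat_lit 2419) (nat_lit 0) (nat_lit 3))))
  (@Cl.mk (nat_lit 0x2000d000300090003000c000a000a000d00040007000300060006000e000d) (nat_lit 0x2050780a0000034) (nat_lit 16) Lb.e (@T16.mk En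
    (@En.n l7086 (nat_lit 2201) (nat_lit 2) (nat_lit 13))
    (@En.n l2036 (nat_lit 12589) (nat_lit 1) (nat_lit 14))
    (@En.n l107 (nat_lit 2200) (nat_lit 2) (nat_lit 6))
    (@En.n l2068 (nat_lit 2204) (nat_lit 12) (nat_lit 6))
    (@En.n l5013 (nat_lit 2397) (nat_lit 4) (nat_lit 3))
    (@En.n l2068 (nat_lit 2709) (nat_lit 0) (nat_lit 7))
    (@En.n l7087 (nat_lit 2222) (nat_lit 6) (nat_lit 4))
    (@En.n l3839 (nat_lit 2391) (nat_lit 8) (nat_lit 13))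
    (@En.n l2535 (nat_lit 2391) (nat_lit 9) (nat_lit 10))
    (@En.n l7088 (nat_lit 4384) (nat_lit 10) (nat_lit 10))
    (@En.i (nat_lit 2197) (nat_lit 11) (nat_lit 12))
    (@En.n l7089 (nat_lit 2206) (nat_lit 11) (nat_lit 3))
    (@En.i (nat_lit 1879) (nat_lit 0) (nat_lit 9))
    (@En.n l117 (nat_lit 2201) (nat_lit 14) (nat_lit 3))
    (@En.n l1758 (nat_lit 803) (nat_lit 0) (nat_lit 13))
    (@En.n l50 (nat_lit 2202) (nat_lit 15) (nat_lit 2))))
  (@Cl.mk (nat_lit 0x2000d0005000800030006000d000d000c0003000300080004000b000e000a) (nat_lit 0xb05002350050741) (nat_lit 16) Lb.e (@T16.mk En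
    (@En.i (nat_lit 2201) (nat_lit 10) (nat_lit 10))
    (@En.i (nat_lit 4721) (nat_lit 4) (nat_lit 14))
    (@En.n l3749 (nat_lit 2198) (nat_lit 2) (nat_lit 11))
    (@En.n l403 (nat_lit 2236) (nat_lit 3) (nat_lit 4))
    (@En.n l1353 (nat_lit 2615) (nat_lit 4) (nat_lit 8))
    (@En.n l18 (nat_lit 2200) (nat_lit 13) (nat_lit 3))
    (@En.n l947 (nat_lit 2425) (nat_lit 0) (nat_lit 3))
    (@En.n l6444 (nat_lit 2205) (nat_lit 8) (nat_lit 12))
    (@En.n l5913 (nat_lit 2425) (nat_lit 3) (nat_lit 13))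
    (@En.n l2036 (nat_lit 12326) (nat_lit 10) (nat_lit 13))
    (@En.i (nat_lit 562) (nat_lit 12) (nat_lit 6))
    (@En.i (nat_lit 3678) (nat_lit 11) (nat_lit 3))
    (@En.n l1353 (nat_lit 2692) (nat_lit 0) (nat_lit 8))
    (@En.n l2037 (nat_lit 2150) (nat_lit 14) (nat_lit 5))
    (@En.n l117 (nat_lit 2201) (nat_lit 8) (nat_lit 13))
    (@En.n l3 (nat_lit 2203) (nat_lit 15) (nat_lit 2))))
  (@Cl.mk (nat_lit 0x20005000800060005000e000d0002000d000300080003000b000a000e000b) (nat_lit 0x50023020507810) (nat_lit 16) Lb.e (@T16.mk En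
    (@En.n l68 (nat_lit 2222) (nat_lit 8) (nat_lit 11))
    (@En.n l637 (nat_lit 2200) (nat_lit 9) (nat_lit 14))
    (@En.n l638 (nat_lit 3679) (nat_lit 10) (nat_lit 10))
    (@En.i (nat_lit 2195) (nat_lit 3) (nat_lit 11))
    (@En.n l18 (nat_lit 2207) (nat_lit 4) (nat_lit 3))
    (@En.i (nat_lit 4998) (nat_lit 5) (nat_lit 8))
    (@En.i (nat_lit 2150) (nat_lit 6) (nat_lit 3))
    (@En.i (nat_lit 802) (nat_lit 8) (nat_lit 13))
    (@En.n l7 (nat_lit 2204) (nat_lit 8) (nat_lit 2))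
    (@En.n l601 (nat_lit 2150) (nat_lit 10) (nat_lit 13))
    (@En.n l255 (nat_lit 11752) (nat_lit 11) (nat_lit 14))
    (@En.i (nat_lit 564) (nat_lit 2) (nat_lit 5))
    (@En.n l728 (nat_lit 3557) (nat_lit 13) (nat_lit 6))
    (@En.i (nat_lit 2715) (nat_lit 14) (nat_lit 8))
    (@En.n l730 (nat_lit 2187) (nat_lit 13) (nat_lit 5))
    (@En.n l67 (nat_lit 2204) (nat_lit 15) (nat_lit 2))))
  (@Cl.mk (nat_lit 0x2000d0005000900030006000e000c0002000d000700040003000b000e000a) (nat_lit 0xb02002401000700) (nat_lit 16) Lb.e (@T16.mk En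
    (@En.i (nat_lit 2206) (nat_lit 9) (nat_lit 10))
    (@En.i (nat_lit 4725) (nat_lit 4) (nat_lit 14))
    (@En.i (nat_lit 2165) (nat_lit 11) (nat_lit 11))
    (@En.n l763 (nat_lit 2200) (nat_lit 11) (nat_lit 3))
    (@En.i (nat_lit 2245) (nat_lit 0) (nat_lit 4))
    (@En.n l764 (nat_lit 2196) (nat_lit 14) (nat_lit 7))
    (@En.n l2026 (nat_lit 580) (nat_lit 7) (nat_lit 13))
    (@En.n l50 (nat_lit 2205) (nat_lit 7) (nat_lit 2))
    (@En.n l217 (nat_lit 2236) (nat_lit 9) (nat_lit 12))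
    (@En.n l2027 (nat_lit 12629) (nat_lit 1) (nat_lit 14))
    (@En.i (nat_lit 585) (nat_lit 12) (nat_lit 6))
    (@En.i (nat_lit 3680) (nat_lit 3) (nat_lit 3))
    (@En.n l2028 (nat_lit 1331) (nat_lit 0) (nat_lit 9))
    (@En.n l2029 (nat_lit 2207) (nat_lit 14) (nat_lit 5))
    (@En.n l117 (nat_lit 2206) (nat_lit 7) (nat_lit 13))
    (@En.n l3 (nat_lit 2205) (nat_lit 15) (nat_lit 2))))
  (@Cl.mk (nat_lit 0x2000d000800040003000c000a000a000d00040008000300060006000e000c) (nat_lit 0x1400780a0200035) (nat_lit 16) Lb.e (@T16.mk En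
    (@En.n l217 (nat_lit 2237) (nat_lit 12) (nat_lit 12))
    (@En.n l2532 (nat_lit 12591) (nat_lit 1) (nat_lit 14))
    (@En.n l152 (nat_lit 2205) (nat_lit 10) (nat_lit 6))
    (@En.n l2533 (nat_lit 2207) (nat_lit 12) (nat_lit 6))
    (@En.n l2049 (nat_lit 2248) (nat_lit 4) (nat_lit 3))
    (@En.n l2533 (nat_lit 1330) (nat_lit 0) (nat_lit 8))
    (@En.n l2534 (nat_lit 2223) (nat_lit 6) (nat_lit 4))
    (@En.n l2535 (nat_lit 2390) (nat_lit 8) (nat_lit 13))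
    (@En.n l2536 (nat_lit 2390) (nat_lit 9) (nat_lit 10))
    (@En.n l2505 (nat_lit 4385) (nat_lit 10) (nat_lit 10))
    (@En.n l2537 (nat_lit 2162) (nat_lit 11) (nat_lit 12))
    (@En.n l2538 (nat_lit 2202) (nat_lit 11) (nat_lit 3))
    (@En.n l97 (nat_lit 2243) (nat_lit 0) (nat_lit 4))
    (@En.n l2539 (nat_lit 2197) (nat_lit 14) (nat_lit 8))
    (@En.n l2540 (nat_lit 577) (nat_lit 1) (nat_lit 13))
    (@En.n l50 (nat_lit 2206) (nat_lit 15) (nat_lit 2))))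
  (@Cl.mk (nat_lit 0x20005000900060005000e000c0002000d000700040003000b000a000e000b) (nat_lit 0x10024010007810) (nat_lit 16) Lb.e (@T16.mk En
    (@En.n l68 (nat_lit 2223) (nat_lit 8) (nat_lit 11))
    (@En.n l627 (nat_lit 2205) (nat_lit 1) (nat_lit 14))
    (@En.n l628 (nat_lit 3680) (nat_lit 10) (nat_lit 10))
    (@En.i (nat_lit 2465) (nat_lit 3) (nat_lit 11))
    (@En.i (nat_lit 2204) (nat_lit 4) (nat_lit 3))
    (@En.n l629 (nat_lit 2234) (nat_lit 5) (nat_lit 4))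
    (@En.n l5 (nat_lit 2195) (nat_lit 6) (nat_lit 7))
    (@En.n l630 (nat_lit 797) (nat_lit 8) (nat_lit 13))
    (@En.n l7 (nat_lit 2207) (nat_lit 8) (nat_lit 2))
    (@En.n l631 (nat_lit 2235) (nat_lit 10) (nat_lit 12))
    (@En.n l632 (nat_lit 11754) (nat_lit 11) (nat_lit 14))
    (@En.i (nat_lit 567) (nat_lit 2) (nat_lit 5))
    (@En.n l631 (nat_lit 3558) (nat_lit 13) (nat_lit 6))
    (@En.i (nat_lit 1021) (nat_lit 14) (nat_lit 9))
    (@En.n l633 (nat_lit 2186) (nat_lit 13) (nat_lit 5))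
    (@En.n l67 (nat_lit 2207) (nat_lit 15) (nat_lit 2))))
noncomputable def a138 : T16 Cl := @T16.mk Cl
  (@Cl.mk (nat_lit 0x2000c0009000400070004000c000c000c00070004000400040009000e000c) (nat_lit 0x710003120000401) (nat_lit 16) Lb.e (@T16.mk En
    (@En.i (nat_lit 835) (nat_lit 11) (nat_lit 12))
    (@En.n l97 (nat_lit 2683) (nat_lit 1) (nat_lit 14))
    (@En.n l3540 (nat_lit 7640) (nat_lit 2) (nat_lit 9))
    (@En.n l11056 (nat_lit 889) (nat_lit 12) (nat_lit 4))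
    (@En.n l2172 (nat_lit 2210) (nat_lit 4) (nat_lit 4))
    (@En.i (nat_lit 833) (nat_lit 5) (nat_lit 4))
    (@En.n l2781 (nat_lit 3318) (nat_lit 6) (nat_lit 7))
    (@En.n l742 (nat_lit 834) (nat_lit 4) (nat_lit 12))
    (@En.n l396 (nat_lit 777) (nat_lit 4) (nat_lit 12))
    (@En.n l3540 (nat_lit 7874) (nat_lit 10) (nat_lit 12))
    (@En.n l28 (nat_lit 2190) (nat_lit 10) (nat_lit 4))
    (@En.i (nat_lit 12986) (nat_lit 11) (nat_lit 7))
    (@En.n l6971 (nat_lit 4393) (nat_lit 1) (nat_lit 4))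
    (@En.i (nat_lit 437) (nat_lit 14) (nat_lit 9))
    (@En.i (nat_lit 4390) (nat_lit 1) (nat_lit 12))
    (@En.n l107 (nat_lit 2208) (nat_lit 15) (nat_lit 2))))
  (@Cl.mk (nat_lit 0x2000d0009000400030009000c000c000b00070004000400070005000e000c) (nat_lit 0x1400300000000c1) (nat_lit 16) Lb.e (@T16.mk En
    (@En.n l5852 (nat_lit 835) (nat_lit 3) (nat_lit 12))
    (@En.n l5895 (nat_lit 7763) (nat_lit 1) (nat_lit 14))
    (@En.i (nat_lit 2223) (nat_lit 2) (nat_lit 5))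
    (@En.n l633 (nat_lit 2210) (nat_lit 11) (nat_lit 7))
    (@En.n l2015 (nat_lit 2210) (nat_lit 12) (nat_lit 4))
    (@En.n l1053 (nat_lit 4399) (nat_lit 5) (nat_lit 4))
    (@En.n l5896 (nat_lit 442) (nat_lit 6) (nat_lit 7))
    (@En.n l5897 (nat_lit 4401) (nat_lit 8) (nat_lit 11))
    (@En.n l5861 (nat_lit 2217) (nat_lit 4) (nat_lit 12))
    (@En.n l5898 (nat_lit 3080) (nat_lit 6) (nat_lit 12))
    (@En.n l2326 (nat_lit 7610) (nat_lit 11) (nat_lit 9))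
    (@En.i (nat_lit 2213) (nat_lit 11) (nat_lit 3))
    (@En.n l5899 (nat_lit 827) (nat_lit 0) (nat_lit 4))
    (@En.n l217 (nat_lit 3320) (nat_lit 14) (nat_lit 9))
    (@En.n l5900 (nat_lit 736) (nat_lit 1) (nat_lit 13))
    (@En.n l7 (nat_lit 2209) (nat_lit 15) (nat_lit 2))))
  (@Cl.mk (nat_lit 0x2000c0008000400070004000e000c0002000d0008000400030009000e000c) (nat_lit 0x1000c401400301) (nat_lit 16) Lb.e (@T16.mk En
    (@En.n l1982 (nat_lit 2209) (nat_lit 9) (nat_lit 12))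
    (@En.n l11666 (nat_lit 3729) (nat_lit 1) (nat_lit 14))
    (@En.n l3296 (nat_lit 7628) (nat_lit 11) (nat_lit 9))
    (@En.n l763 (nat_lit 2211) (nat_lit 3) (nat_lit 3))
    (@En.i (nat_lit 834) (nat_lit 0) (nat_lit 4))
    (@En.n l1545 (nat_lit 3322) (nat_lit 14) (nat_lit 8))
    (@En.n l765 (nat_lit 806) (nat_lit 7) (nat_lit 13))
    (@En.n l50 (nat_lit 2210) (nat_lit 7) (nat_lit 2))
    (@En.n l217 (nat_lit 2208) (nat_lit 9) (nat_lit 12))
    (@En.n l1546 (nat_lit 7764) (nat_lit 1) (nat_lit 14))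
    (@En.n l28 (nat_lit 2186) (nat_lit 10) (nat_lit 4))
    (@En.i (nat_lit 13142) (nat_lit 11) (nat_lit 7))
    (@En.n l1166 (nat_lit 4398) (nat_lit 4) (nat_lit 4))
    (@En.i (nat_lit 500) (nat_lit 14) (nat_lit 8))
    (@En.n l5975 (nat_lit 4385) (nat_lit 7) (nat_lit 12))
    (@En.n l107 (nat_lit 2210) (nat_lit 15) (nat_lit 2))))
  (@Cl.mk (nat_lit 0x2000c0007000400070004000e000d0002000d0003000900030009000e000c) (nat_lit 0xab02000200) (nat_lit 16) Lb.e (@T16.mk En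
    (@En.n l1643 (nat_lit 2213) (nat_lit 9) (nat_lit 12))
    (@En.n l4684 (nat_lit 3728) (nat_lit 1) (nat_lit 14))
    (@En.n l170 (nat_lit 3214) (nat_lit 11) (nat_lit 9))
    (@En.n l2364 (nat_lit 2210) (nat_lit 3) (nat_lit 3))
    (@En.i (nat_lit 4956) (nat_lit 0) (nat_lit 9))
    (@En.i (nat_lit 2212) (nat_lit 5) (nat_lit 3))
    (@En.i (nat_lit 808) (nat_lit 0) (nat_lit 13))
    (@En.n l50 (nat_lit 2211) (nat_lit 7) (nat_lit 2))
    (@En.n l396 (nat_lit 2212) (nat_lit 9) (nat_lit 13))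
    (@En.n l4316 (nat_lit 7759) (nat_lit 1) (nat_lit 14))
    (@En.n l28 (nat_lit 2187) (nat_lit 10) (nat_lit 4))
    (@En.i (nat_lit 13143) (nat_lit 11) (nat_lit 7))
    (@En.n l170 (nat_lit 4405) (nat_lit 4) (nat_lit 4))
    (@En.i (nat_lit 553) (nat_lit 14) (nat_lit 7))
    (@En.n l5011 (nat_lit 4384) (nat_lit 7) (nat_lit 12))
    (@En.n l107 (nat_lit 2211) (nat_lit 15) (nat_lit 2))))
  (@Cl.mk (nat_lit 0x2000c0007000400070004000d000d000c00030003000900040009000e000c) (nat_lit 0x50000ab50000200) (nat_lit 16) Lb.e (@T16.mk En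
    (@En.n l27933 (nat_lit 2214) (nat_lit 10) (nat_lit 12))
    (@En.n l14017 (nat_lit 3727) (nat_lit 1) (nat_lit 14))
    (@En.n l14869 (nat_lit 3324) (nat_lit 2) (nat_lit 9))
    (@En.n l403 (nat_lit 2208) (nat_lit 3) (nat_lit 4))
    (@En.n l7406 (nat_lit 3350) (nat_lit 4) (nat_lit 9))
    (@En.n l18 (nat_lit 2211) (nat_lit 5) (nat_lit 3))
    (@En.n l1851 (nat_lit 2219) (nat_lit 0) (nat_lit 3))
    (@En.n l6444 (nat_lit 2210) (nat_lit 8) (nat_lit 12))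
    (@En.n l34309 (nat_lit 2219) (nat_lit 3) (nat_lit 13))
    (@En.n l3749 (nat_lit 7761) (nat_lit 10) (nat_lit 13))
    (@En.n l28 (nat_lit 2148) (nat_lit 10) (nat_lit 4))
    (@En.i (nat_lit 13144) (nat_lit 11) (nat_lit 7))
    (@En.n l14017 (nat_lit 4403) (nat_lit 5) (nat_lit 4))
    (@En.i (nat_lit 557) (nat_lit 14) (nat_lit 7))
    (@En.n l22019 (nat_lit 4386) (nat_lit 8) (nat_lit 12))
    (@En.n l107 (nat_lit 2212) (nat_lit 15) (nat_lit 2))))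
  (@Cl.mk (nat_lit 0x2000d0003000a00030009000c000c000b00060004000400070005000e000d) (nat_lit 0x20002a0000000ab) (nat_lit 16) Lb.e (@T16.mk En
    (@En.n l14522 (nat_lit 2214) (nat_lit 2) (nat_lit 13))
    (@En.i (nat_lit 7758) (nat_lit 1) (nat_lit 14))
    (@En.i (nat_lit 2222) (nat_lit 2) (nat_lit 5))
    (@En.n l730 (nat_lit 2211) (nat_lit 11) (nat_lit 7))
    (@En.n l731 (nat_lit 2211) (nat_lit 12) (nat_lit 4))
    (@En.n l728 (nat_lit 4406) (nat_lit 5) (nat_lit 4))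
    (@En.i (nat_lit 552) (nat_lit 6) (nat_lit 6))
    (@En.n l14523 (nat_lit 4419) (nat_lit 8) (nat_lit 11))
    (@En.n l14524 (nat_lit 2215) (nat_lit 4) (nat_lit 12))
    (@En.n l14522 (nat_lit 3079) (nat_lit 6) (nat_lit 12))
    (@En.n l728 (nat_lit 3215) (nat_lit 11) (nat_lit 9))
    (@En.n l18 (nat_lit 2209) (nat_lit 11) (nat_lit 3))
    (@En.n l2568 (nat_lit 4958) (nat_lit 0) (nat_lit 10))
    (@En.n l7914 (nat_lit 2214) (nat_lit 14) (nat_lit 3))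
    (@En.n l728 (nat_lit 807) (nat_lit 0) (nat_lit 13))
    (@En.n l7 (nat_lit 2213) (nat_lit 15) (nat_lit 2))))
  (@Cl.mk (nat_lit 0x30003000a00040009000c000c000b00060004000400070005000d000d000c) (nat_lit 0x2a0400000ab2) (nat_lit 16) Lb.e (@T16.mk En
    (@En.n l18986 (nat_lit 2209) (nat_lit 0) (nat_lit 12))
    (@En.n l3471 (nat_lit 2218) (nat_lit 3) (nat_lit 13))
    (@En.n l18987 (nat_lit 7754) (nat_lit 2) (nat_lit 13))
    (@En.n l18986 (nat_lit 2146) (nat_lit 3) (nat_lit 5))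
    (@En.n l17073 (nat_lit 2212) (nat_lit 11) (nat_lit 7))
    (@En.n l18988 (nat_lit 2212) (nat_lit 12) (nat_lit 4))
    (@En.i (nat_lit 4407) (nat_lit 6) (nat_lit 4))
    (@En.n l18986 (nat_lit 555) (nat_lit 0) (nat_lit 6))
    (@En.n l7583 (nat_lit 4415) (nat_lit 9) (nat_lit 11))
    (@En.n l601 (nat_lit 2216) (nat_lit 4) (nat_lit 12))
    (@En.i (nat_lit 3077) (nat_lit 6) (nat_lit 12))
    (@En.n l18989 (nat_lit 3323) (nat_lit 12) (nat_lit 9))
    (@En.n l18990 (nat_lit 835) (nat_lit 13) (nat_lit 4))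
    (@En.n l18991 (nat_lit 3308) (nat_lit 0) (nat_lit 10))
    (@En.n l18992 (nat_lit 2213) (nat_lit 13) (nat_lit 3))
    (@En.n l5368 (nat_lit 2218) (nat_lit 0) (nat_lit 3))))
  (@Cl.mk (nat_lit 0x200070006000e000d0002000d0003000b00030009000c000a0005000e0004) (nat_lit 0xab020002a0000) (nat_lit 16) Lb.e (@T16.mk En
    (@En.n l11728 (nat_lit 2213) (nat_lit 5) (nat_lit 4))
    (@En.n l5559 (nat_lit 3684) (nat_lit 1) (nat_lit 14))
    (@En.n l2352 (nat_lit 554) (nat_lit 2) (nat_lit 5))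
    (@En.i (nat_lit 3557) (nat_lit 3) (nat_lit 10))
    (@En.n l617 (nat_lit 3085) (nat_lit 6) (nat_lit 12))
    (@En.i (nat_lit 3734) (nat_lit 11) (nat_lit 9))
    (@En.n l2352 (nat_lit 2217) (nat_lit 6) (nat_lit 3))
    (@En.n l5559 (nat_lit 4961) (nat_lit 8) (nat_lit 11))
    (@En.n l6680 (nat_lit 2216) (nat_lit 8) (nat_lit 3))
    (@En.i (nat_lit 825) (nat_lit 10) (nat_lit 13))
    (@En.n l3 (nat_lit 2215) (nat_lit 10) (nat_lit 2))
    (@En.n l617 (nat_lit 2216) (nat_lit 12) (nat_lit 13))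
    (@En.n l7678 (nat_lit 7760) (nat_lit 13) (nat_lit 14))
    (@En.n l5560 (nat_lit 2307) (nat_lit 14) (nat_lit 6))
    (@En.n l11729 (nat_lit 2213) (nat_lit 3) (nat_lit 7))
    (@En.n l50 (nat_lit 2215) (nat_lit 15) (nat_lit 2))))
  (@Cl.mk (nat_lit 0x200070006000d000d000c00030003000b00040009000c000a0005000e0004) (nat_lit 0xab800002a0000) (nat_lit 16) Lb.e (@T16.mk En
    (@En.n l7 (nat_lit 2214) (nat_lit 6) (nat_lit 4))
    (@En.n l11705 (nat_lit 3685) (nat_lit 1) (nat_lit 14))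
    (@En.n l6958 (nat_lit 556) (nat_lit 2) (nat_lit 5))
    (@En.n l4350 (nat_lit 3559) (nat_lit 3) (nat_lit 10))
    (@En.i (nat_lit 3081) (nat_lit 6) (nat_lit 12))
    (@En.n l11706 (nat_lit 3326) (nat_lit 5) (nat_lit 9))
    (@En.n l6958 (nat_lit 2221) (nat_lit 6) (nat_lit 4))
    (@En.n l11707 (nat_lit 3309) (nat_lit 8) (nat_lit 11))
    (@En.n l6962 (nat_lit 2215) (nat_lit 8) (nat_lit 3))
    (@En.n l11708 (nat_lit 2220) (nat_lit 9) (nat_lit 3))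
    (@En.n l9533 (nat_lit 2217) (nat_lit 11) (nat_lit 12))
    (@En.n l11709 (nat_lit 2220) (nat_lit 12) (nat_lit 13))
    (@En.n l11706 (nat_lit 7762) (nat_lit 13) (nat_lit 13))
    (@En.n l24864 (nat_lit 2282) (nat_lit 14) (nat_lit 6))
    (@En.n l1723 (nat_lit 2214) (nat_lit 4) (nat_lit 7))
    (@En.n l50 (nat_lit 2216) (nat_lit 15) (nat_lit 2))))
  (@Cl.mk (nat_lit 0x200070006000e000c0002000d000a000400030009000c000a0006000e0004) (nat_lit 0xc7014003a0000) (nat_lit 16) Lb.e (@T16.mk En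
    (@En.n l4551 (nat_lit 2209) (nat_lit 5) (nat_lit 4))
    (@En.n l473 (nat_lit 3688) (nat_lit 1) (nat_lit 14))
    (@En.i (nat_lit 501) (nat_lit 2) (nat_lit 6))
    (@En.n l1652 (nat_lit 3558) (nat_lit 3) (nat_lit 10))
    (@En.i (nat_lit 3089) (nat_lit 6) (nat_lit 12))
    (@En.n l4552 (nat_lit 7609) (nat_lit 11) (nat_lit 9))
    (@En.n l4553 (nat_lit 2215) (nat_lit 6) (nat_lit 3))
    (@En.n l473 (nat_lit 826) (nat_lit 7) (nat_lit 4))
    (@En.n l77 (nat_lit 3321) (nat_lit 9) (nat_lit 10))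
    (@En.n l1412 (nat_lit 823) (nat_lit 10) (nat_lit 13))
    (@En.n l67 (nat_lit 2217) (nat_lit 10) (nat_lit 2))
    (@En.n l68 (nat_lit 2221) (nat_lit 12) (nat_lit 12))
    (@En.n l1413 (nat_lit 7765) (nat_lit 13) (nat_lit 14))
    (@En.n l4554 (nat_lit 2306) (nat_lit 14) (nat_lit 6))
    (@En.n l4555 (nat_lit 2209) (nat_lit 3) (nat_lit 7))
    (@En.n l18 (nat_lit 2217) (nat_lit 15) (nat_lit 2))))
  (@Cl.mk (nat_lit 0x2000a00050009000c000c000b00060004000400070005000d000b000e0003) (nat_lit 0x200400000a1c0) (nat_lit 16) Lb.e (@T16.mk En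
    (@En.n l2843 (nat_lit 2214) (nat_lit 15) (nat_lit 3))
    (@En.i (nat_lit 13105) (nat_lit 0) (nat_lit 14))
    (@En.n l5 (nat_lit 888) (nat_lit 2) (nat_lit 11))
    (@En.n l4943 (nat_lit 7855) (nat_lit 2) (nat_lit 13))
    (@En.n l28 (nat_lit 2147) (nat_lit 4) (nat_lit 5))
    (@En.n l343 (nat_lit 2219) (nat_lit 5) (nat_lit 7))
    (@En.n l1577 (nat_lit 2219) (nat_lit 6) (nat_lit 4))
    (@En.i (nat_lit 4408) (nat_lit 7) (nat_lit 4))
    (@En.n l5988 (nat_lit 539) (nat_lit 8) (nat_lit 6))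
    (@En.n l457 (nat_lit 4413) (nat_lit 10) (nat_lit 11))
    (@En.n l7901 (nat_lit 2220) (nat_lit 4) (nat_lit 12))
    (@En.n l7902 (nat_lit 3078) (nat_lit 6) (nat_lit 12))
    (@En.n l4947 (nat_lit 3325) (nat_lit 13) (nat_lit 9))
    (@En.n l7903 (nat_lit 776) (nat_lit 14) (nat_lit 5))
    (@En.i (nat_lit 3311) (nat_lit 14) (nat_lit 10))
    (@En.n l17 (nat_lit 2218) (nat_lit 15) (nat_lit 2))))
  (@Cl.mk (nat_lit 0x2000900050009000e000c0002000c0007000400070004000d000b000e0003) (nat_lit 0x201000000a1c0) (nat_lit 16) Lb.e (@T16.mk En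
    (@En.n l18542 (nat_lit 2212) (nat_lit 6) (nat_lit 3))
    (@En.i (nat_lit 13104) (nat_lit 0) (nat_lit 14))
    (@En.n l18543 (nat_lit 889) (nat_lit 2) (nat_lit 11))
    (@En.n l2436 (nat_lit 7861) (nat_lit 10) (nat_lit 13))
    (@En.n l580 (nat_lit 2141) (nat_lit 4) (nat_lit 4))
    (@En.n l281 (nat_lit 13145) (nat_lit 11) (nat_lit 7))
    (@En.i (nat_lit 4410) (nat_lit 6) (nat_lit 4))
    (@En.n l2436 (nat_lit 571) (nat_lit 14) (nat_lit 7))
    (@En.n l4485 (nat_lit 4416) (nat_lit 9) (nat_lit 12))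
    (@En.n l11 (nat_lit 2219) (nat_lit 9) (nat_lit 2))
    (@En.n l55 (nat_lit 2218) (nat_lit 11) (nat_lit 12))
    (@En.n l1329 (nat_lit 4088) (nat_lit 12) (nat_lit 14))
    (@En.n l4750 (nat_lit 3327) (nat_lit 13) (nat_lit 9))
    (@En.n l18544 (nat_lit 777) (nat_lit 14) (nat_lit 5))
    (@En.n l993 (nat_lit 3349) (nat_lit 4) (nat_lit 9))
    (@En.n l17 (nat_lit 2219) (nat_lit 15) (nat_lit 2))))
  (@Cl.mk (nat_lit 0x200070006000d000b000e00030002000b00050009000c000a0005000e0004) (nat_lit 0xa6300002a0000) (nat_lit 16) Lb.e (@T16.mk En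
    (@En.n l3233 (nat_lit 2218) (nat_lit 7) (nat_lit 4))
    (@En.n l396 (nat_lit 3959) (nat_lit 9) (nat_lit 14))
    (@En.n l11236 (nat_lit 570) (nat_lit 2) (nat_lit 5))
    (@En.n l1501 (nat_lit 3564) (nat_lit 3) (nat_lit 10))
    (@En.n l2738 (nat_lit 3084) (nat_lit 6) (nat_lit 12))
    (@En.i (nat_lit 3332) (nat_lit 5) (nat_lit 9))
    (@En.n l4869 (nat_lit 2656) (nat_lit 14) (nat_lit 5))
    (@En.n l11237 (nat_lit 3310) (nat_lit 8) (nat_lit 11))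
    (@En.n l11 (nat_lit 2220) (nat_lit 8) (nat_lit 2))
    (@En.n l11238 (nat_lit 2216) (nat_lit 9) (nat_lit 3))
    (@En.n l1501 (nat_lit 13114) (nat_lit 0) (nat_lit 14))
    (@En.n l11239 (nat_lit 2657) (nat_lit 12) (nat_lit 11))
    (@En.i (nat_lit 7854) (nat_lit 13) (nat_lit 13))
    (@En.n l9342 (nat_lit 2280) (nat_lit 14) (nat_lit 6))
    (@En.n l11240 (nat_lit 2218) (nat_lit 5) (nat_lit 7))
    (@En.n l18 (nat_lit 2220) (nat_lit 15) (nat_lit 2))))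
  (@Cl.mk (nat_lit 0x200070006000c000c000c00090004000400040009000c000a0007000e0004) (nat_lit 0x60130004a5000) (nat_lit 16) Lb.e (@T16.mk En
    (@En.n l12036 (nat_lit 835) (nat_lit 7) (nat_lit 4))
    (@En.n l4509 (nat_lit 3690) (nat_lit 1) (nat_lit 14))
    (@En.i (nat_lit 436) (nat_lit 2) (nat_lit 7))
    (@En.n l9706 (nat_lit 3563) (nat_lit 3) (nat_lit 10))
    (@En.i (nat_lit 3903) (nat_lit 6) (nat_lit 12))
    (@En.n l4511 (nat_lit 7606) (nat_lit 5) (nat_lit 9))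
    (@En.n l2309 (nat_lit 2657) (nat_lit 6) (nat_lit 4))
    (@En.n l11 (nat_lit 2217) (nat_lit 7) (nat_lit 4))
    (@En.n l4509 (nat_lit 830) (nat_lit 8) (nat_lit 4))
    (@En.n l77 (nat_lit 3319) (nat_lit 10) (nat_lit 9))
    (@En.n l4512 (nat_lit 826) (nat_lit 11) (nat_lit 12))
    (@En.n l4513 (nat_lit 2656) (nat_lit 4) (nat_lit 12))
    (@En.n l4514 (nat_lit 7887) (nat_lit 13) (nat_lit 12))
    (@En.n l5070 (nat_lit 2281) (nat_lit 14) (nat_lit 6))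
    (@En.n l12037 (nat_lit 835) (nat_lit 5) (nat_lit 7))
    (@En.n l18 (nat_lit 2221) (nat_lit 15) (nat_lit 2))))
  (@Cl.mk (nat_lit 0x2000d000300090003000c000b000b000b00040007000500050005000e000d) (nat_lit 0x2050789000000a4) (nat_lit 16) Lb.e (@T16.mk En
    (@En.n l601 (nat_lit 2146) (nat_lit 2) (nat_lit 13))
    (@En.n l5702 (nat_lit 12739) (nat_lit 1) (nat_lit 14))
    (@En.n l11 (nat_lit 2204) (nat_lit 11) (nat_lit 5))
    (@En.n l5703 (nat_lit 2187) (nat_lit 11) (nat_lit 5))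
    (@En.n l5704 (nat_lit 3560) (nat_lit 4) (nat_lit 5))
    (@En.i (nat_lit 1156) (nat_lit 5) (nat_lit 7))
    (@En.n l227 (nat_lit 1855) (nat_lit 6) (nat_lit 4))
    (@En.n l1952 (nat_lit 2385) (nat_lit 8) (nat_lit 11))
    (@En.n l1596 (nat_lit 2307) (nat_lit 5) (nat_lit 11))
    (@En.n l5705 (nat_lit 2397) (nat_lit 10) (nat_lit 11))
    (@En.i (nat_lit 2151) (nat_lit 11) (nat_lit 12))
    (@En.n l18 (nat_lit 2223) (nat_lit 11) (nat_lit 3))
    (@En.i (nat_lit 4945) (nat_lit 0) (nat_lit 9))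
    (@En.i (nat_lit 2146) (nat_lit 14) (nat_lit 3))
    (@En.i (nat_lit 796) (nat_lit 0) (nat_lit 13))
    (@En.n l7 (nat_lit 2222) (nat_lit 15) (nat_lit 2))))
  (@Cl.mk (nat_lit 0x2000d000800040003000c000b000b000b00040008000500050005000e000c) (nat_lit 0x1300989001000c2) (nat_lit 16) Lb.e (@T16.mk En
    (@En.n l1937 (nat_lit 2224) (nat_lit 3) (nat_lit 12))
    (@En.n l1938 (nat_lit 9244) (nat_lit 1) (nat_lit 14))
    (@En.n l11 (nat_lit 2207) (nat_lit 11) (nat_lit 5))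
    (@En.n l1939 (nat_lit 2186) (nat_lit 11) (nat_lit 5))
    (@En.n l1940 (nat_lit 3562) (nat_lit 4) (nat_lit 5))
    (@En.i (nat_lit 1102) (nat_lit 5) (nat_lit 8))
    (@En.n l1941 (nat_lit 2185) (nat_lit 6) (nat_lit 4))
    (@En.n l1942 (nat_lit 2384) (nat_lit 8) (nat_lit 11))
    (@En.n l1943 (nat_lit 2306) (nat_lit 5) (nat_lit 11))
    (@En.n l1944 (nat_lit 2248) (nat_lit 10) (nat_lit 11))
    (@En.n l1052 (nat_lit 2474) (nat_lit 11) (nat_lit 12))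
    (@En.i (nat_lit 2222) (nat_lit 11) (nat_lit 3))
    (@En.n l1945 (nat_lit 2225) (nat_lit 0) (nat_lit 4))
    (@En.n l5 (nat_lit 2151) (nat_lit 14) (nat_lit 8))
    (@En.n l1946 (nat_lit 791) (nat_lit 1) (nat_lit 13))
    (@En.n l7 (nat_lit 2223) (nat_lit 15) (nat_lit 2))))
noncomputable def a139 : T16 Cl := @T16.mk Cl
  (@Cl.mk (nat_lit 0x400040004000c000b000b000b00040009000500050005000c000c000c0007) (nat_lit 0x7800010001160) (nat_lit 16) Lb.e (@T16.mk En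
    (@En.n l5630 (nat_lit 2143) (nat_lit 0) (nat_lit 7))
    (@En.n l742 (nat_lit 2225) (nat_lit 4) (nat_lit 12))
    (@En.n l396 (nat_lit 773) (nat_lit 4) (nat_lit 12))
    (@En.n l5631 (nat_lit 20) (nat_lit 3) (nat_lit 12))
    (@En.n l5632 (nat_lit 2235) (nat_lit 11) (nat_lit 5))
    (@En.n l527 (nat_lit 2190) (nat_lit 11) (nat_lit 5))
    (@En.n l3462 (nat_lit 2879) (nat_lit 6) (nat_lit 5))
    (@En.n l5633 (nat_lit 303) (nat_lit 0) (nat_lit 9))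
    (@En.n l159 (nat_lit 2189) (nat_lit 8) (nat_lit 4))
    (@En.n l5634 (nat_lit 2378) (nat_lit 5) (nat_lit 11))
    (@En.n l5635 (nat_lit 2281) (nat_lit 5) (nat_lit 11))
    (@En.n l5636 (nat_lit 2239) (nat_lit 5) (nat_lit 11))
    (@En.n l5637 (nat_lit 2460) (nat_lit 13) (nat_lit 12))
    (@En.n l5638 (nat_lit 885) (nat_lit 12) (nat_lit 4))
    (@En.n l5639 (nat_lit 2223) (nat_lit 12) (nat_lit 4))
    (@En.i (nat_lit 2226) (nat_lit 0) (nat_lit 4))))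
  (@Cl.mk (nat_lit 0x2000c000b000b000b0004000a000500050005000d000c00060003000e0004) (nat_lit 0x780001000b50010) (nat_lit 16) Lb.e (@T16.mk En
    (@En.n l50 (nat_lit 2224) (nat_lit 14) (nat_lit 4))
    (@En.n l5 (nat_lit 795) (nat_lit 1) (nat_lit 14))
    (@En.n l50 (nat_lit 2227) (nat_lit 2) (nat_lit 3))
    (@En.n l3298 (nat_lit 1534) (nat_lit 3) (nat_lit 6))
    (@En.n l217 (nat_lit 2226) (nat_lit 4) (nat_lit 12))
    (@En.n l5706 (nat_lit 12680) (nat_lit 6) (nat_lit 13))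
    (@En.n l180 (nat_lit 2234) (nat_lit 11) (nat_lit 5))
    (@En.n l527 (nat_lit 2193) (nat_lit 7) (nat_lit 5))
    (@En.n l3462 (nat_lit 3636) (nat_lit 8) (nat_lit 5))
    (@En.n l3303 (nat_lit 325) (nat_lit 10) (nat_lit 10))
    (@En.n l159 (nat_lit 2192) (nat_lit 10) (nat_lit 4))
    (@En.n l5634 (nat_lit 2376) (nat_lit 5) (nat_lit 11))
    (@En.n l5635 (nat_lit 2292) (nat_lit 5) (nat_lit 11))
    (@En.n l5706 (nat_lit 2242) (nat_lit 14) (nat_lit 11))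
    (@En.n l5706 (nat_lit 2504) (nat_lit 12) (nat_lit 12))
    (@En.n l17 (nat_lit 2225) (nat_lit 15) (nat_lit 2))))
  (@Cl.mk (nat_lit 0x30003000c000b000b000b0004000b000500050005000c0005000d000d0004) (nat_lit 0x78000400040560) (nat_lit 16) Lb.e (@T16.mk En
    (@En.i (nat_lit 773) (nat_lit 0) (nat_lit 4))
    (@En.n l61 (nat_lit 2227) (nat_lit 3) (nat_lit 13))
    (@En.n l3303 (nat_lit 2146) (nat_lit 1) (nat_lit 13))
    (@En.i (nat_lit 2301) (nat_lit 3) (nat_lit 5))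
    (@En.n l5706 (nat_lit 12681) (nat_lit 5) (nat_lit 12))
    (@En.n l180 (nat_lit 2231) (nat_lit 11) (nat_lit 5))
    (@En.n l527 (nat_lit 2230) (nat_lit 11) (nat_lit 5))
    (@En.n l3462 (nat_lit 2875) (nat_lit 7) (nat_lit 5))
    (@En.n l3303 (nat_lit 542) (nat_lit 9) (nat_lit 11))
    (@En.n l159 (nat_lit 2256) (nat_lit 9) (nat_lit 4))
    (@En.n l5634 (nat_lit 2377) (nat_lit 5) (nat_lit 11))
    (@En.n l5635 (nat_lit 2286) (nat_lit 5) (nat_lit 11))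
    (@En.n l5706 (nat_lit 2273) (nat_lit 13) (nat_lit 11))
    (@En.n l5706 (nat_lit 2502) (nat_lit 14) (nat_lit 12))
    (@En.n l2888 (nat_lit 2229) (nat_lit 13) (nat_lit 3))
    (@En.n l18 (nat_lit 2227) (nat_lit 0) (nat_lit 3))))
  (@Cl.mk (nat_lit 0x2000c000b000b000b0004000b000500050005000d0005000d0003000e0003) (nat_lit 0x780004000a05030) (nat_lit 16) Lb.e (@T16.mk En
    (@En.i (nat_lit 2226) (nat_lit 15) (nat_lit 3))
    (@En.i (nat_lit 13725) (nat_lit 0) (nat_lit 14))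
    (@En.i (nat_lit 2225) (nat_lit 2) (nat_lit 3))
    (@En.n l3303 (nat_lit 2222) (nat_lit 0) (nat_lit 13))
    (@En.i (nat_lit 2297) (nat_lit 4) (nat_lit 5))
    (@En.n l5706 (nat_lit 12665) (nat_lit 6) (nat_lit 13))
    (@En.n l180 (nat_lit 2233) (nat_lit 11) (nat_lit 5))
    (@En.n l527 (nat_lit 2232) (nat_lit 7) (nat_lit 5))
    (@En.n l3462 (nat_lit 3605) (nat_lit 8) (nat_lit 5))
    (@En.n l3303 (nat_lit 544) (nat_lit 10) (nat_lit 11))
    (@En.n l159 (nat_lit 2255) (nat_lit 10) (nat_lit 4))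
    (@En.n l5634 (nat_lit 2374) (nat_lit 5) (nat_lit 11))
    (@En.n l5635 (nat_lit 2293) (nat_lit 5) (nat_lit 11))
    (@En.n l5706 (nat_lit 2369) (nat_lit 14) (nat_lit 11))
    (@En.n l5706 (nat_lit 2228) (nat_lit 12) (nat_lit 12))
    (@En.n l17 (nat_lit 2227) (nat_lit 15) (nat_lit 2))))
  (@Cl.mk (nat_lit 0x300090003000c000a000a000a00040007000b000600060006000d0005000d) (nat_lit 0x406700005000405) (nat_lit 16) Lb.e (@T16.mk En
    (@En.n l2683 (nat_lit 2151) (nat_lit 0) (nat_lit 13))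
    (@En.i (nat_lit 2506) (nat_lit 3) (nat_lit 5))
    (@En.n l7944 (nat_lit 11876) (nat_lit 2) (nat_lit 13))
    (@En.n l7945 (nat_lit 2472) (nat_lit 10) (nat_lit 6))
    (@En.n l7946 (nat_lit 2512) (nat_lit 10) (nat_lit 6))
    (@En.n l117 (nat_lit 8138) (nat_lit 5) (nat_lit 6))
    (@En.n l7947 (nat_lit 2226) (nat_lit 8) (nat_lit 11))
    (@En.n l7948 (nat_lit 6876) (nat_lit 11) (nat_lit 7))
    (@En.n l936 (nat_lit 2573) (nat_lit 8) (nat_lit 4))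
    (@En.n l55 (nat_lit 2388) (nat_lit 6) (nat_lit 10))
    (@En.n l575 (nat_lit 2289) (nat_lit 6) (nat_lit 10))
    (@En.i (nat_lit 2882) (nat_lit 12) (nat_lit 10))
    (@En.i (nat_lit 2503) (nat_lit 13) (nat_lit 12))
    (@En.i (nat_lit 2502) (nat_lit 15) (nat_lit 3))
    (@En.n l12976 (nat_lit 4978) (nat_lit 0) (nat_lit 9))
    (@En.i (nat_lit 2504) (nat_lit 15) (nat_lit 3))))
  (@Cl.mk (nat_lit 0x200050003000c000b000b000b0004000b000500050005000b0005000e000d) (nat_lit 0x7800040009016) (nat_lit 16) Lb.e (@T16.mk En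
    (@En.n l5937 (nat_lit 2226) (nat_lit 2) (nat_lit 13))
    (@En.i (nat_lit 885) (nat_lit 1) (nat_lit 14))
    (@En.n l1393 (nat_lit 2342) (nat_lit 2) (nat_lit 5))
    (@En.n l13138 (nat_lit 12683) (nat_lit 3) (nat_lit 11))
    (@En.n l6240 (nat_lit 2265) (nat_lit 4) (nat_lit 5))
    (@En.n l2153 (nat_lit 2264) (nat_lit 5) (nat_lit 5))
    (@En.n l15449 (nat_lit 3594) (nat_lit 6) (nat_lit 5))
    (@En.i (nat_lit 543) (nat_lit 8) (nat_lit 11))
    (@En.n l6242 (nat_lit 2258) (nat_lit 8) (nat_lit 4))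
    (@En.n l2156 (nat_lit 2379) (nat_lit 10) (nat_lit 11))
    (@En.n l6244 (nat_lit 2287) (nat_lit 11) (nat_lit 11))
    (@En.n l9941 (nat_lit 2271) (nat_lit 12) (nat_lit 11))
    (@En.i (nat_lit 1444) (nat_lit 13) (nat_lit 12))
    (@En.n l2746 (nat_lit 2226) (nat_lit 14) (nat_lit 3))
    (@En.i (nat_lit 2490) (nat_lit 0) (nat_lit 5))
    (@En.n l18 (nat_lit 2229) (nat_lit 15) (nat_lit 2))))
  (@Cl.mk (nat_lit 0x2000c0005000c00050004000c0004000d000d000400030003000b000e000b) (nat_lit 0x5003055000909) (nat_lit 16) Lb.e (@T16.mk En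
    (@En.i (nat_lit 2226) (nat_lit 12) (nat_lit 11))
    (@En.n l619 (nat_lit 3697) (nat_lit 4) (nat_lit 14))
    (@En.i (nat_lit 2513) (nat_lit 2) (nat_lit 11))
    (@En.i (nat_lit 2264) (nat_lit 13) (nat_lit 3))
    (@En.n l18 (nat_lit 2232) (nat_lit 0) (nat_lit 3))
    (@En.i (nat_lit 769) (nat_lit 0) (nat_lit 4))
    (@En.n l61 (nat_lit 2232) (nat_lit 3) (nat_lit 13))
    (@En.i (nat_lit 2148) (nat_lit 8) (nat_lit 13))
    (@En.i (nat_lit 2355) (nat_lit 8) (nat_lit 4))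
    (@En.i (nat_lit 12623) (nat_lit 10) (nat_lit 12))
    (@En.i (nat_lit 595) (nat_lit 10) (nat_lit 4))
    (@En.i (nat_lit 2330) (nat_lit 6) (nat_lit 5))
    (@En.n l3303 (nat_lit 519) (nat_lit 13) (nat_lit 12))
    (@En.n l159 (nat_lit 2259) (nat_lit 14) (nat_lit 5))
    (@En.n l11 (nat_lit 2256) (nat_lit 10) (nat_lit 12))
    (@En.n l107 (nat_lit 2230) (nat_lit 15) (nat_lit 2))))
  (@Cl.mk (nat_lit 0x20005000c00060005000c0004000d000d000400030003000b000a000e000b) (nat_lit 0x50030450007801) (nat_lit 16) Lb.e (@T16.mk En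
    (@En.n l107 (nat_lit 2226) (nat_lit 11) (nat_lit 11))
    (@En.n l1572 (nat_lit 2268) (nat_lit 1) (nat_lit 14))
    (@En.n l2051 (nat_lit 2272) (nat_lit 2) (nat_lit 10))
    (@En.n l3444 (nat_lit 2468) (nat_lit 3) (nat_lit 11))
    (@En.n l4929 (nat_lit 2265) (nat_lit 13) (nat_lit 3))
    (@En.n l18 (nat_lit 2233) (nat_lit 5) (nat_lit 3))
    (@En.n l3444 (nat_lit 770) (nat_lit 6) (nat_lit 4))
    (@En.n l61 (nat_lit 2233) (nat_lit 8) (nat_lit 13))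
    (@En.n l615 (nat_lit 2150) (nat_lit 9) (nat_lit 13))
    (@En.n l2242 (nat_lit 2338) (nat_lit 9) (nat_lit 4))
    (@En.n l5999 (nat_lit 12116) (nat_lit 11) (nat_lit 12))
    (@En.i (nat_lit 592) (nat_lit 11) (nat_lit 5))
    (@En.n l2056 (nat_lit 3600) (nat_lit 13) (nat_lit 6))
    (@En.n l615 (nat_lit 545) (nat_lit 14) (nat_lit 12))
    (@En.n l159 (nat_lit 2230) (nat_lit 13) (nat_lit 5))
    (@En.n l11 (nat_lit 2231) (nat_lit 15) (nat_lit 2))))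
  (@Cl.mk (nat_lit 0x2000b000e000b0002000c0005000c00050004000d0004000d0003000e0003) (nat_lit 0x909000500a04030) (nat_lit 16) Lb.e (@T16.mk En
    (@En.i (nat_lit 2230) (nat_lit 4) (nat_lit 3))
    (@En.i (nat_lit 13727) (nat_lit 0) (nat_lit 14))
    (@En.i (nat_lit 2193) (nat_lit 2) (nat_lit 3))
    (@En.i (nat_lit 2187) (nat_lit 8) (nat_lit 13))
    (@En.i (nat_lit 2357) (nat_lit 8) (nat_lit 4))
    (@En.i (nat_lit 4041) (nat_lit 10) (nat_lit 13))
    (@En.i (nat_lit 597) (nat_lit 6) (nat_lit 4))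
    (@En.i (nat_lit 4374) (nat_lit 7) (nat_lit 5))
    (@En.n l3303 (nat_lit 521) (nat_lit 9) (nat_lit 12))
    (@En.n l159 (nat_lit 2260) (nat_lit 14) (nat_lit 5))
    (@En.n l11 (nat_lit 2255) (nat_lit 11) (nat_lit 12))
    (@En.n l107 (nat_lit 2232) (nat_lit 11) (nat_lit 2))
    (@En.i (nat_lit 2227) (nat_lit 13) (nat_lit 11))
    (@En.n l619 (nat_lit 3698) (nat_lit 4) (nat_lit 14))
    (@En.i (nat_lit 2512) (nat_lit 2) (nat_lit 11))
    (@En.n l17 (nat_lit 2232) (nat_lit 15) (nat_lit 2))))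
  (@Cl.mk (nat_lit 0x20005000c00060005000d0004000d0003000e00030002000b000a000e000b) (nat_lit 0x200a0406007801) (nat_lit 16) Lb.e (@T16.mk En
    (@En.n l107 (nat_lit 2227) (nat_lit 12) (nat_lit 11))
    (@En.n l1572 (nat_lit 2373) (nat_lit 13) (nat_lit 14))
    (@En.n l2051 (nat_lit 2370) (nat_lit 14) (nat_lit 10))
    (@En.i (nat_lit 2472) (nat_lit 3) (nat_lit 11))
    (@En.n l17 (nat_lit 2233) (nat_lit 4) (nat_lit 2))
    (@En.i (nat_lit 2231) (nat_lit 5) (nat_lit 3))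
    (@En.i (nat_lit 13726) (nat_lit 0) (nat_lit 14))
    (@En.i (nat_lit 2234) (nat_lit 7) (nat_lit 3))
    (@En.n l615 (nat_lit 2204) (nat_lit 9) (nat_lit 13))
    (@En.i (nat_lit 2341) (nat_lit 9) (nat_lit 4))
    (@En.n l2055 (nat_lit 12114) (nat_lit 11) (nat_lit 13))
    (@En.i (nat_lit 593) (nat_lit 6) (nat_lit 5))
    (@En.n l2056 (nat_lit 3604) (nat_lit 13) (nat_lit 6))
    (@En.n l615 (nat_lit 548) (nat_lit 9) (nat_lit 12))
    (@En.n l159 (nat_lit 2232) (nat_lit 9) (nat_lit 5))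
    (@En.n l11 (nat_lit 2233) (nat_lit 15) (nat_lit 2))))
  (@Cl.mk (nat_lit 0x20005000b00060005000d000c00050003000e00040002000b000a000e000b) (nat_lit 0x200b4006007801) (nat_lit 16) Lb.e (@T16.mk En
    (@En.n l107 (nat_lit 2225) (nat_lit 12) (nat_lit 11))
    (@En.n l1572 (nat_lit 2245) (nat_lit 13) (nat_lit 14))
    (@En.n l2051 (nat_lit 2244) (nat_lit 14) (nat_lit 10))
    (@En.i (nat_lit 2466) (nat_lit 3) (nat_lit 11))
    (@En.n l17 (nat_lit 2234) (nat_lit 4) (nat_lit 2))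
    (@En.n l2052 (nat_lit 2235) (nat_lit 5) (nat_lit 4))
    (@En.n l2053 (nat_lit 801) (nat_lit 7) (nat_lit 14))
    (@En.n l50 (nat_lit 2233) (nat_lit 7) (nat_lit 3))
    (@En.n l2054 (nat_lit 1679) (nat_lit 8) (nat_lit 5))
    (@En.n l217 (nat_lit 2231) (nat_lit 10) (nat_lit 12))
    (@En.n l2055 (nat_lit 12118) (nat_lit 11) (nat_lit 13))
    (@En.i (nat_lit 589) (nat_lit 6) (nat_lit 5))
    (@En.n l2056 (nat_lit 3639) (nat_lit 13) (nat_lit 6))
    (@En.n l615 (nat_lit 1002) (nat_lit 9) (nat_lit 11))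
    (@En.n l159 (nat_lit 2193) (nat_lit 9) (nat_lit 5))
    (@En.n l11 (nat_lit 2234) (nat_lit 15) (nat_lit 2))))
  (@Cl.mk (nat_lit 0x20005000a00060005000c000c000c0006000400040004000b000a000e000b) (nat_lit 0x20031500007801) (nat_lit 16) Lb.e (@T16.mk En
    (@En.n l2072 (nat_lit 2224) (nat_lit 10) (nat_lit 11))
    (@En.n l2073 (nat_lit 2236) (nat_lit 1) (nat_lit 14))
    (@En.n l2074 (nat_lit 2238) (nat_lit 2) (nat_lit 10))
    (@En.n l2075 (nat_lit 2461) (nat_lit 3) (nat_lit 11))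
    (@En.n l2076 (nat_lit 882) (nat_lit 4) (nat_lit 4))
    (@En.n l2077 (nat_lit 2207) (nat_lit 5) (nat_lit 4))
    (@En.n l688 (nat_lit 2231) (nat_lit 6) (nat_lit 4))
    (@En.n l2078 (nat_lit 2145) (nat_lit 7) (nat_lit 6))
    (@En.n l687 (nat_lit 2234) (nat_lit 9) (nat_lit 12))
    (@En.n l2079 (nat_lit 770) (nat_lit 10) (nat_lit 12))
    (@En.n l2080 (nat_lit 12119) (nat_lit 11) (nat_lit 12))
    (@En.n l688 (nat_lit 586) (nat_lit 11) (nat_lit 5))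
    (@En.i (nat_lit 3563) (nat_lit 13) (nat_lit 6))
    (@En.n l682 (nat_lit 1020) (nat_lit 14) (nat_lit 10))
    (@En.n l2081 (nat_lit 2190) (nat_lit 13) (nat_lit 5))
    (@En.n l3 (nat_lit 2235) (nat_lit 15) (nat_lit 2))))
  (@Cl.mk (nat_lit 0x2000d0005000a00030006000c000c000c0006000400040004000b000e000a) (nat_lit 0xb050031500007c0) (nat_lit 16) Lb.e (@T16.mk En
    (@En.i (nat_lit 2237) (nat_lit 4) (nat_lit 10))
    (@En.i (nat_lit 4731) (nat_lit 4) (nat_lit 14))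
    (@En.n l5911 (nat_lit 2462) (nat_lit 2) (nat_lit 11))
    (@En.n l1778 (nat_lit 884) (nat_lit 12) (nat_lit 4))
    (@En.n l2172 (nat_lit 2205) (nat_lit 4) (nat_lit 4))
    (@En.i (nat_lit 2268) (nat_lit 5) (nat_lit 4))
    (@En.n l5912 (nat_lit 2198) (nat_lit 6) (nat_lit 6))
    (@En.n l742 (nat_lit 2245) (nat_lit 4) (nat_lit 12))
    (@En.n l5913 (nat_lit 772) (nat_lit 4) (nat_lit 12))
    (@En.n l5914 (nat_lit 12769) (nat_lit 10) (nat_lit 12))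
    (@En.i (nat_lit 587) (nat_lit 12) (nat_lit 6))
    (@En.i (nat_lit 2238) (nat_lit 11) (nat_lit 3))
    (@En.i (nat_lit 1271) (nat_lit 0) (nat_lit 10))
    (@En.n l5915 (nat_lit 2235) (nat_lit 14) (nat_lit 5))
    (@En.n l117 (nat_lit 2237) (nat_lit 2) (nat_lit 13))
    (@En.n l3 (nat_lit 2236) (nat_lit 15) (nat_lit 2))))
  (@Cl.mk (nat_lit 0x300060006000c000c000c0007000400040004000c000a000a000d00040009) (nat_lit 0x4260000980a04) (nat_lit 16) Lb.e (@T16.mk En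
    (@En.n l7419 (nat_lit 1247) (nat_lit 0) (nat_lit 9))
    (@En.n l7420 (nat_lit 2224) (nat_lit 8) (nat_lit 4))
    (@En.n l2535 (nat_lit 2241) (nat_lit 5) (nat_lit 13))
    (@En.n l2536 (nat_lit 2241) (nat_lit 6) (nat_lit 10))
    (@En.n l2038 (nat_lit 4390) (nat_lit 4) (nat_lit 10))
    (@En.n l5911 (nat_lit 2437) (nat_lit 13) (nat_lit 12))
    (@En.n l7421 (nat_lit 887) (nat_lit 12) (nat_lit 4))
    (@En.n l2172 (nat_lit 2206) (nat_lit 12) (nat_lit 4))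
    (@En.i (nat_lit 2269) (nat_lit 0) (nat_lit 4))
    (@En.n l5912 (nat_lit 2199) (nat_lit 0) (nat_lit 7))
    (@En.n l7422 (nat_lit 2243) (nat_lit 4) (nat_lit 12))
    (@En.n l7423 (nat_lit 775) (nat_lit 4) (nat_lit 12))
    (@En.n l7424 (nat_lit 12687) (nat_lit 13) (nat_lit 12))
    (@En.n l152 (nat_lit 2236) (nat_lit 10) (nat_lit 6))
    (@En.n l7425 (nat_lit 2235) (nat_lit 12) (nat_lit 6))
    (@En.n l5952 (nat_lit 2239) (nat_lit 15) (nat_lit 3))))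
  (@Cl.mk (nat_lit 0x2000d0009000600030006000c000c000c0007000400040004000a000e000a) (nat_lit 0x40000000000700) (nat_lit 16) Lb.e (@T16.mk En
    (@En.n l5952 (nat_lit 2239) (nat_lit 4) (nat_lit 10))
    (@En.i (nat_lit 4599) (nat_lit 1) (nat_lit 14))
    (@En.n l3540 (nat_lit 6346) (nat_lit 2) (nat_lit 10))
    (@En.n l5953 (nat_lit 2407) (nat_lit 12) (nat_lit 4))
    (@En.n l2172 (nat_lit 3680) (nat_lit 12) (nat_lit 4))
    (@En.i (nat_lit 2272) (nat_lit 5) (nat_lit 4))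
    (@En.n l4831 (nat_lit 2448) (nat_lit 6) (nat_lit 7))
    (@En.n l742 (nat_lit 2244) (nat_lit 4) (nat_lit 12))
    (@En.n l5954 (nat_lit 2429) (nat_lit 4) (nat_lit 12))
    (@En.n l1430 (nat_lit 12772) (nat_lit 10) (nat_lit 12))
    (@En.n l810 (nat_lit 3690) (nat_lit 12) (nat_lit 6))
    (@En.n l28 (nat_lit 2236) (nat_lit 11) (nat_lit 3))
    (@En.n l1401 (nat_lit 3610) (nat_lit 0) (nat_lit 6))
    (@En.n l5955 (nat_lit 7645) (nat_lit 14) (nat_lit 9))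
    (@En.n l5956 (nat_lit 2239) (nat_lit 2) (nat_lit 13))
    (@En.n l3 (nat_lit 2238) (nat_lit 15) (nat_lit 2))))
  (@Cl.mk (nat_lit 0x300060006000c000c000c0008000400040004000b000a000a000d00080005) (nat_lit 0x3000780b30) (nat_lit 16) Lb.e (@T16.mk En
    (@En.i (nat_lit 2864) (nat_lit 0) (nat_lit 5))
    (@En.n l13864 (nat_lit 2412) (nat_lit 0) (nat_lit 8))
    (@En.n l13865 (nat_lit 2240) (nat_lit 5) (nat_lit 13))
    (@En.n l13866 (nat_lit 2240) (nat_lit 6) (nat_lit 10))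
    (@En.n l7584 (nat_lit 4391) (nat_lit 4) (nat_lit 10))
    (@En.n l13867 (nat_lit 6344) (nat_lit 13) (nat_lit 11))
    (@En.n l13868 (nat_lit 2405) (nat_lit 12) (nat_lit 4))
    (@En.n l13869 (nat_lit 2248) (nat_lit 12) (nat_lit 4))
    (@En.n l13870 (nat_lit 2273) (nat_lit 0) (nat_lit 4))
    (@En.i (nat_lit 2107) (nat_lit 0) (nat_lit 8))
    (@En.n l13871 (nat_lit 2242) (nat_lit 4) (nat_lit 12))
    (@En.n l13872 (nat_lit 2427) (nat_lit 4) (nat_lit 12))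
    (@En.n l13873 (nat_lit 12441) (nat_lit 13) (nat_lit 12))
    (@En.n l13874 (nat_lit 2238) (nat_lit 10) (nat_lit 6))
    (@En.n l13875 (nat_lit 3692) (nat_lit 12) (nat_lit 6))
    (@En.n l13876 (nat_lit 2237) (nat_lit 15) (nat_lit 3))))
noncomputable def a140 : T16 Cl := @T16.mk Cl
  (@Cl.mk (nat_lit 0x2000c000c000c0009000400040004000c000a000d000700040003000e0006) (nat_lit 0x300078a00020) (nat_lit 16) Lb.e (@T16.mk En
    (@En.n l7426 (nat_lit 2239) (nat_lit 14) (nat_lit 6))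
    (@En.n l7427 (nat_lit 2667) (nat_lit 1) (nat_lit 14))
    (@En.n l152 (nat_lit 2241) (nat_lit 2) (nat_lit 3))
    (@En.n l7428 (nat_lit 2865) (nat_lit 3) (nat_lit 4))
    (@En.n l5643 (nat_lit 2411) (nat_lit 4) (nat_lit 7))
    (@En.n l7429 (nat_lit 13035) (nat_lit 5) (nat_lit 13))
    (@En.n l5644 (nat_lit 4396) (nat_lit 7) (nat_lit 10))
    (@En.n l2874 (nat_lit 6343) (nat_lit 8) (nat_lit 12))
    (@En.n l7430 (nat_lit 2406) (nat_lit 12) (nat_lit 4))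
    (@En.n l7431 (nat_lit 2249) (nat_lit 12) (nat_lit 4))
    (@En.i (nat_lit 2277) (nat_lit 10) (nat_lit 4))
    (@En.n l4920 (nat_lit 2400) (nat_lit 12) (nat_lit 9))
    (@En.n l742 (nat_lit 2246) (nat_lit 4) (nat_lit 12))
    (@En.n l396 (nat_lit 2428) (nat_lit 4) (nat_lit 12))
    (@En.n l7 (nat_lit 12708) (nat_lit 12) (nat_lit 12))
    (@En.n l28 (nat_lit 2240) (nat_lit 15) (nat_lit 2))))
  (@Cl.mk (nat_lit 0x2000c000c000c0008000400040004000d000a000d000300080003000e0006) (nat_lit 0x557300098902040) (nat_lit 16) Lb.e (@T16.mk En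
    (@En.n l756 (nat_lit 2237) (nat_lit 14) (nat_lit 6))
    (@En.n l2400 (nat_lit 2281) (nat_lit 1) (nat_lit 14))
    (@En.n l117 (nat_lit 2240) (nat_lit 2) (nat_lit 3))
    (@En.n l2476 (nat_lit 1340) (nat_lit 3) (nat_lit 8))
    (@En.n l3 (nat_lit 2378) (nat_lit 4) (nat_lit 3))
    (@En.n l2477 (nat_lit 13034) (nat_lit 5) (nat_lit 13))
    (@En.n l2403 (nat_lit 4392) (nat_lit 7) (nat_lit 10))
    (@En.i (nat_lit 2436) (nat_lit 8) (nat_lit 13))
    (@En.n l2478 (nat_lit 2404) (nat_lit 12) (nat_lit 4))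
    (@En.n l2172 (nat_lit 2390) (nat_lit 12) (nat_lit 4))
    (@En.i (nat_lit 2275) (nat_lit 10) (nat_lit 4))
    (@En.n l2479 (nat_lit 2392) (nat_lit 12) (nat_lit 8))
    (@En.n l742 (nat_lit 2247) (nat_lit 4) (nat_lit 12))
    (@En.n l396 (nat_lit 2418) (nat_lit 4) (nat_lit 12))
    (@En.n l2480 (nat_lit 12675) (nat_lit 10) (nat_lit 12))
    (@En.n l28 (nat_lit 2241) (nat_lit 15) (nat_lit 2))))
  (@Cl.mk (nat_lit 0x2000b000a000a000d00090005000300060006000d000c00070003000e0004) (nat_lit 0x700040000aa0010) (nat_lit 16) Lb.e (@T16.mk En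
    (@En.n l14063 (nat_lit 2239) (nat_lit 7) (nat_lit 4))
    (@En.n l14064 (nat_lit 574) (nat_lit 1) (nat_lit 14))
    (@En.n l50 (nat_lit 2369) (nat_lit 2) (nat_lit 3))
    (@En.n l4922 (nat_lit 1866) (nat_lit 3) (nat_lit 7))
    (@En.n l217 (nat_lit 2273) (nat_lit 4) (nat_lit 12))
    (@En.n l936 (nat_lit 12679) (nat_lit 6) (nat_lit 13))
    (@En.n l14065 (nat_lit 2244) (nat_lit 6) (nat_lit 6))
    (@En.n l14066 (nat_lit 3693) (nat_lit 12) (nat_lit 6))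
    (@En.n l9254 (nat_lit 2243) (nat_lit 8) (nat_lit 3))
    (@En.n l14067 (nat_lit 3607) (nat_lit 0) (nat_lit 5))
    (@En.n l2683 (nat_lit 6398) (nat_lit 11) (nat_lit 9))
    (@En.n l936 (nat_lit 2246) (nat_lit 12) (nat_lit 13))
    (@En.n l55 (nat_lit 2246) (nat_lit 13) (nat_lit 10))
    (@En.i (nat_lit 4375) (nat_lit 14) (nat_lit 10))
    (@En.n l5389 (nat_lit 6818) (nat_lit 12) (nat_lit 11))
    (@En.n l17 (nat_lit 2242) (nat_lit 15) (nat_lit 2))))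
  (@Cl.mk (nat_lit 0x2000c000a000a000d0004000a000300060006000d000c00060003000e0004) (nat_lit 0x700001000b50070) (nat_lit 16) Lb.e (@T16.mk En
    (@En.n l7161 (nat_lit 2237) (nat_lit 7) (nat_lit 4))
    (@En.n l3833 (nat_lit 583) (nat_lit 1) (nat_lit 14))
    (@En.n l50 (nat_lit 2371) (nat_lit 2) (nat_lit 3))
    (@En.i (nat_lit 1677) (nat_lit 3) (nat_lit 6))
    (@En.n l7162 (nat_lit 2269) (nat_lit 4) (nat_lit 12))
    (@En.n l1638 (nat_lit 12667) (nat_lit 6) (nat_lit 13))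
    (@En.n l107 (nat_lit 2245) (nat_lit 6) (nat_lit 6))
    (@En.n l7163 (nat_lit 2234) (nat_lit 12) (nat_lit 6))
    (@En.n l5978 (nat_lit 2242) (nat_lit 8) (nat_lit 3))
    (@En.n l2068 (nat_lit 609) (nat_lit 0) (nat_lit 10))
    (@En.n l7164 (nat_lit 2225) (nat_lit 10) (nat_lit 4))
    (@En.n l3839 (nat_lit 2247) (nat_lit 12) (nat_lit 13))
    (@En.n l2535 (nat_lit 2247) (nat_lit 13) (nat_lit 10))
    (@En.n l1578 (nat_lit 4377) (nat_lit 14) (nat_lit 10))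
    (@En.i (nat_lit 2443) (nat_lit 12) (nat_lit 12))
    (@En.n l17 (nat_lit 2243) (nat_lit 15) (nat_lit 2))))
  (@Cl.mk (nat_lit 0x2000a000e000a0002000d000a000600030006000d000c00060003000e0004) (nat_lit 0x701017000ba0010) (nat_lit 16) Lb.e (@T16.mk En
    (@En.n l50 (nat_lit 2238) (nat_lit 4) (nat_lit 4))
    (@En.n l998 (nat_lit 579) (nat_lit 1) (nat_lit 14))
    (@En.n l50 (nat_lit 2370) (nat_lit 2) (nat_lit 3))
    (@En.n l2678 (nat_lit 1868) (nat_lit 3) (nat_lit 6))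
    (@En.n l217 (nat_lit 2272) (nat_lit 9) (nat_lit 12))
    (@En.n l1638 (nat_lit 12774) (nat_lit 6) (nat_lit 13))
    (@En.n l810 (nat_lit 3771) (nat_lit 6) (nat_lit 6))
    (@En.n l28 (nat_lit 2245) (nat_lit 7) (nat_lit 3))
    (@En.n l590 (nat_lit 3638) (nat_lit 0) (nat_lit 6))
    (@En.i (nat_lit 6419) (nat_lit 14) (nat_lit 10))
    (@En.n l5978 (nat_lit 2242) (nat_lit 11) (nat_lit 13))
    (@En.n l3 (nat_lit 2244) (nat_lit 11) (nat_lit 2))
    (@En.n l5979 (nat_lit 2242) (nat_lit 13) (nat_lit 10))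
    (@En.i (nat_lit 4803) (nat_lit 1) (nat_lit 14))
    (@En.i (nat_lit 6821) (nat_lit 2) (nat_lit 10))
    (@En.n l17 (nat_lit 2244) (nat_lit 15) (nat_lit 2))))
  (@Cl.mk (nat_lit 0x2000b000e000a0002000d0005000b00030006000d000c00050003000e0004) (nat_lit 0x7c1010700b40060) (nat_lit 16) Lb.e (@T16.mk En
    (@En.n l50 (nat_lit 2236) (nat_lit 4) (nat_lit 4))
    (@En.n l998 (nat_lit 581) (nat_lit 1) (nat_lit 14))
    (@En.n l50 (nat_lit 2373) (nat_lit 2) (nat_lit 3))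
    (@En.i (nat_lit 1678) (nat_lit 3) (nat_lit 5))
    (@En.n l217 (nat_lit 2268) (nat_lit 9) (nat_lit 12))
    (@En.n l1638 (nat_lit 12773) (nat_lit 6) (nat_lit 13))
    (@En.i (nat_lit 590) (nat_lit 12) (nat_lit 6))
    (@En.i (nat_lit 2244) (nat_lit 7) (nat_lit 3))
    (@En.i (nat_lit 999) (nat_lit 0) (nat_lit 11))
    (@En.n l4870 (nat_lit 2234) (nat_lit 14) (nat_lit 5))
    (@En.i (nat_lit 2243) (nat_lit 11) (nat_lit 13))
    (@En.n l3 (nat_lit 2245) (nat_lit 11) (nat_lit 2))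
    (@En.n l97 (nat_lit 2243) (nat_lit 13) (nat_lit 10))
    (@En.i (nat_lit 4840) (nat_lit 4) (nat_lit 14))
    (@En.i (nat_lit 2618) (nat_lit 2) (nat_lit 11))
    (@En.n l17 (nat_lit 2245) (nat_lit 15) (nat_lit 2))))
  (@Cl.mk (nat_lit 0x2000c000a000d000800040003000e00060002000d000c00080003000e0004) (nat_lit 0x78b300200ba2010) (nat_lit 16) Lb.e (@T16.mk En
    (@En.n l50 (nat_lit 2240) (nat_lit 9) (nat_lit 4))
    (@En.n l5 (nat_lit 893) (nat_lit 1) (nat_lit 14))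
    (@En.n l50 (nat_lit 2368) (nat_lit 2) (nat_lit 3))
    (@En.i (nat_lit 1867) (nat_lit 3) (nat_lit 8))
    (@En.n l217 (nat_lit 2277) (nat_lit 14) (nat_lit 12))
    (@En.i (nat_lit 12674) (nat_lit 6) (nat_lit 13))
    (@En.n l28 (nat_lit 2246) (nat_lit 6) (nat_lit 2))
    (@En.i (nat_lit 2242) (nat_lit 7) (nat_lit 6))
    (@En.n l7165 (nat_lit 2668) (nat_lit 1) (nat_lit 14))
    (@En.n l152 (nat_lit 2247) (nat_lit 9) (nat_lit 3))
    (@En.n l1865 (nat_lit 3637) (nat_lit 10) (nat_lit 4))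
    (@En.n l1262 (nat_lit 6422) (nat_lit 4) (nat_lit 8))
    (@En.n l5389 (nat_lit 13073) (nat_lit 5) (nat_lit 13))
    (@En.i (nat_lit 4372) (nat_lit 14) (nat_lit 10))
    (@En.n l5389 (nat_lit 6819) (nat_lit 8) (nat_lit 12))
    (@En.n l17 (nat_lit 2246) (nat_lit 15) (nat_lit 2))))
  (@Cl.mk (nat_lit 0x2000d000a000d000300090003000e00060002000d000c00070003000e0004) (nat_lit 0x98b010300b60010) (nat_lit 16) Lb.e (@T16.mk En
    (@En.n l50 (nat_lit 2241) (nat_lit 9) (nat_lit 4))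
    (@En.n l5 (nat_lit 895) (nat_lit 1) (nat_lit 14))
    (@En.n l50 (nat_lit 2372) (nat_lit 11) (nat_lit 3))
    (@En.i (nat_lit 1685) (nat_lit 3) (nat_lit 7))
    (@En.n l217 (nat_lit 2275) (nat_lit 14) (nat_lit 12))
    (@En.n l755 (nat_lit 12668) (nat_lit 6) (nat_lit 13))
    (@En.n l28 (nat_lit 2247) (nat_lit 6) (nat_lit 2))
    (@En.n l1177 (nat_lit 2243) (nat_lit 7) (nat_lit 6))
    (@En.n l2400 (nat_lit 2292) (nat_lit 1) (nat_lit 14))
    (@En.n l117 (nat_lit 2246) (nat_lit 9) (nat_lit 3))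
    (@En.n l2401 (nat_lit 611) (nat_lit 11) (nat_lit 9))
    (@En.n l3 (nat_lit 2376) (nat_lit 4) (nat_lit 3))
    (@En.n l2402 (nat_lit 13078) (nat_lit 5) (nat_lit 13))
    (@En.n l2403 (nat_lit 4376) (nat_lit 14) (nat_lit 10))
    (@En.i (nat_lit 2441) (nat_lit 8) (nat_lit 13))
    (@En.n l17 (nat_lit 2247) (nat_lit 15) (nat_lit 2))))
  (@Cl.mk (nat_lit 0x2000d000900040003000b000a000a000d00070005000300060006000e000c) (nat_lit 0x2400700000000c1) (nat_lit 16) Lb.e (@T16.mk En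
    (@En.n l5693 (nat_lit 2239) (nat_lit 12) (nat_lit 12))
    (@En.n l5694 (nat_lit 12638) (nat_lit 1) (nat_lit 14))
    (@En.n l5695 (nat_lit 3680) (nat_lit 2) (nat_lit 6))
    (@En.n l5696 (nat_lit 3683) (nat_lit 12) (nat_lit 6))
    (@En.n l5697 (nat_lit 2206) (nat_lit 4) (nat_lit 3))
    (@En.n l5693 (nat_lit 4028) (nat_lit 0) (nat_lit 5))
    (@En.n l5698 (nat_lit 7523) (nat_lit 6) (nat_lit 7))
    (@En.n l5699 (nat_lit 2249) (nat_lit 8) (nat_lit 13))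
    (@En.n l5700 (nat_lit 2249) (nat_lit 9) (nat_lit 10))
    (@En.i (nat_lit 4389) (nat_lit 10) (nat_lit 10))
    (@En.n l5701 (nat_lit 6348) (nat_lit 11) (nat_lit 11))
    (@En.n l11 (nat_lit 2397) (nat_lit 11) (nat_lit 3))
    (@En.n l2351 (nat_lit 2242) (nat_lit 0) (nat_lit 4))
    (@En.n l4861 (nat_lit 2401) (nat_lit 14) (nat_lit 9))
    (@En.n l61 (nat_lit 576) (nat_lit 1) (nat_lit 13))
    (@En.n l3 (nat_lit 2248) (nat_lit 15) (nat_lit 2))))
  (@Cl.mk (nat_lit 0x2000d000a00040003000c000a000d000600040003000e00060002000e000c) (nat_lit 0x140078b000200c1) (nat_lit 16) Lb.e (@T16.mk En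
    (@En.n l2541 (nat_lit 2240) (nat_lit 14) (nat_lit 12))
    (@En.n l2542 (nat_lit 12639) (nat_lit 1) (nat_lit 14))
    (@En.n l3 (nat_lit 2249) (nat_lit 2) (nat_lit 2))
    (@En.n l2543 (nat_lit 2248) (nat_lit 3) (nat_lit 6))
    (@En.n l2544 (nat_lit 3080) (nat_lit 1) (nat_lit 14))
    (@En.n l2545 (nat_lit 2390) (nat_lit 5) (nat_lit 3))
    (@En.i (nat_lit 4031) (nat_lit 6) (nat_lit 4))
    (@En.n l2546 (nat_lit 4617) (nat_lit 7) (nat_lit 6))
    (@En.n l2542 (nat_lit 13069) (nat_lit 5) (nat_lit 13))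
    (@En.n l2543 (nat_lit 4400) (nat_lit 10) (nat_lit 10))
    (@En.n l2542 (nat_lit 6350) (nat_lit 11) (nat_lit 12))
    (@En.n l7 (nat_lit 2395) (nat_lit 11) (nat_lit 3))
    (@En.n l2547 (nat_lit 2246) (nat_lit 0) (nat_lit 4))
    (@En.i (nat_lit 2398) (nat_lit 14) (nat_lit 10))
    (@En.n l2548 (nat_lit 575) (nat_lit 12) (nat_lit 13))
    (@En.n l11 (nat_lit 2249) (nat_lit 15) (nat_lit 2))))
  (@Cl.mk (nat_lit 0x20007000e000c0002000d000900040003000d0009000c00030007000e0004) (nat_lit 0xc60440084a0040) (nat_lit 16) Lb.e (@T16.mk En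
    (@En.n l2567 (nat_lit 2185) (nat_lit 4) (nat_lit 4))
    (@En.i (nat_lit 3802) (nat_lit 1) (nat_lit 14))
    (@En.n l1982 (nat_lit 444) (nat_lit 2) (nat_lit 7))
    (@En.n l5866 (nat_lit 2306) (nat_lit 3) (nat_lit 3))
    (@En.i (nat_lit 3551) (nat_lit 0) (nat_lit 12))
    (@En.n l1262 (nat_lit 2217) (nat_lit 5) (nat_lit 9))
    (@En.i (nat_lit 2056) (nat_lit 7) (nat_lit 13))
    (@En.n l763 (nat_lit 1854) (nat_lit 7) (nat_lit 3))
    (@En.i (nat_lit 2252) (nat_lit 8) (nat_lit 4))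
    (@En.n l764 (nat_lit 1845) (nat_lit 10) (nat_lit 9))
    (@En.n l49 (nat_lit 782) (nat_lit 11) (nat_lit 13))
    (@En.n l50 (nat_lit 2250) (nat_lit 11) (nat_lit 2))
    (@En.n l217 (nat_lit 2251) (nat_lit 13) (nat_lit 12))
    (@En.n l2567 (nat_lit 6371) (nat_lit 1) (nat_lit 14))
    (@En.n l5867 (nat_lit 2185) (nat_lit 2) (nat_lit 7))
    (@En.n l11 (nat_lit 2250) (nat_lit 15) (nat_lit 2))))
  (@Cl.mk (nat_lit 0x20007000c000c000c0008000400040004000d0009000c00030008000e0004) (nat_lit 0x5673000b5a0140) (nat_lit 16) Lb.e (@T16.mk En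
    (@En.n l5152 (nat_lit 2189) (nat_lit 6) (nat_lit 4))
    (@En.i (nat_lit 3786) (nat_lit 1) (nat_lit 14))
    (@En.n l5643 (nat_lit 403) (nat_lit 2) (nat_lit 8))
    (@En.n l2576 (nat_lit 2281) (nat_lit 3) (nat_lit 3))
    (@En.i (nat_lit 3544) (nat_lit 0) (nat_lit 12))
    (@En.n l5643 (nat_lit 2221) (nat_lit 5) (nat_lit 9))
    (@En.n l5911 (nat_lit 2055) (nat_lit 7) (nat_lit 13))
    (@En.n l1778 (nat_lit 2320) (nat_lit 7) (nat_lit 4))
    (@En.n l2172 (nat_lit 2250) (nat_lit 8) (nat_lit 4))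
    (@En.i (nat_lit 2253) (nat_lit 9) (nat_lit 4))
    (@En.n l5912 (nat_lit 1847) (nat_lit 11) (nat_lit 8))
    (@En.n l742 (nat_lit 2252) (nat_lit 12) (nat_lit 12))
    (@En.n l5913 (nat_lit 2278) (nat_lit 4) (nat_lit 12))
    (@En.n l13997 (nat_lit 12665) (nat_lit 14) (nat_lit 12))
    (@En.n l5154 (nat_lit 2189) (nat_lit 4) (nat_lit 7))
    (@En.n l11 (nat_lit 2251) (nat_lit 15) (nat_lit 2))))
  (@Cl.mk (nat_lit 0x20007000d000c00070003000e00040002000d0009000c00030009000e0004) (nat_lit 0xb600100b1a0140) (nat_lit 16) Lb.e (@T16.mk En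
    (@En.n l5152 (nat_lit 2192) (nat_lit 8) (nat_lit 4))
    (@En.i (nat_lit 3779) (nat_lit 1) (nat_lit 14))
    (@En.i (nat_lit 399) (nat_lit 11) (nat_lit 9))
    (@En.n l2576 (nat_lit 2292) (nat_lit 3) (nat_lit 3))
    (@En.i (nat_lit 3566) (nat_lit 0) (nat_lit 12))
    (@En.i (nat_lit 826) (nat_lit 5) (nat_lit 9))
    (@En.i (nat_lit 2580) (nat_lit 7) (nat_lit 13))
    (@En.n l17 (nat_lit 2252) (nat_lit 7) (nat_lit 2))
    (@En.n l50 (nat_lit 2251) (nat_lit 8) (nat_lit 4))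
    (@En.n l998 (nat_lit 788) (nat_lit 1) (nat_lit 14))
    (@En.n l50 (nat_lit 2254) (nat_lit 10) (nat_lit 3))
    (@En.i (nat_lit 1530) (nat_lit 12) (nat_lit 7))
    (@En.n l217 (nat_lit 2253) (nat_lit 13) (nat_lit 12))
    (@En.i (nat_lit 12657) (nat_lit 6) (nat_lit 13))
    (@En.n l5154 (nat_lit 2192) (nat_lit 6) (nat_lit 7))
    (@En.n l11 (nat_lit 2252) (nat_lit 15) (nat_lit 2))))
  (@Cl.mk (nat_lit 0x20007000c0006000d000d000400030003000d0009000c0003000a000e0004) (nat_lit 0x50780009790140) (nat_lit 16) Lb.e (@T16.mk En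
    (@En.n l5152 (nat_lit 2256) (nat_lit 7) (nat_lit 4))
    (@En.i (nat_lit 3780) (nat_lit 1) (nat_lit 14))
    (@En.i (nat_lit 529) (nat_lit 2) (nat_lit 10))
    (@En.n l2576 (nat_lit 2286) (nat_lit 3) (nat_lit 3))
    (@En.i (nat_lit 2877) (nat_lit 0) (nat_lit 12))
    (@En.i (nat_lit 830) (nat_lit 5) (nat_lit 9))
    (@En.i (nat_lit 2579) (nat_lit 7) (nat_lit 13))
    (@En.n l5331 (nat_lit 2257) (nat_lit 13) (nat_lit 3))
    (@En.n l18 (nat_lit 2254) (nat_lit 8) (nat_lit 3))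
    (@En.n l947 (nat_lit 2278) (nat_lit 0) (nat_lit 4))
    (@En.n l61 (nat_lit 2254) (nat_lit 11) (nat_lit 13))
    (@En.n l1353 (nat_lit 1853) (nat_lit 12) (nat_lit 13))
    (@En.i (nat_lit 2298) (nat_lit 13) (nat_lit 6))
    (@En.n l2869 (nat_lit 12660) (nat_lit 14) (nat_lit 12))
    (@En.n l5154 (nat_lit 2256) (nat_lit 5) (nat_lit 7))
    (@En.n l11 (nat_lit 2253) (nat_lit 15) (nat_lit 2))))
  (@Cl.mk (nat_lit 0x20007000d0006000d0003000e00030002000d0009000c0003000a000e0004) (nat_lit 0x1070300b190140) (nat_lit 16) Lb.e (@T16.mk En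
    (@En.n l5152 (nat_lit 2255) (nat_lit 8) (nat_lit 4))
    (@En.i (nat_lit 3778) (nat_lit 1) (nat_lit 14))
    (@En.i (nat_lit 530) (nat_lit 11) (nat_lit 10))
    (@En.n l2576 (nat_lit 2293) (nat_lit 3) (nat_lit 3))
    (@En.i (nat_lit 3567) (nat_lit 0) (nat_lit 12))
    (@En.i (nat_lit 828) (nat_lit 5) (nat_lit 9))
    (@En.i (nat_lit 2578) (nat_lit 7) (nat_lit 13))
    (@En.n l17 (nat_lit 2254) (nat_lit 7) (nat_lit 2))
    (@En.i (nat_lit 2253) (nat_lit 8) (nat_lit 3))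
    (@En.i (nat_lit 13923) (nat_lit 0) (nat_lit 14))
    (@En.i (nat_lit 2252) (nat_lit 10) (nat_lit 3))
    (@En.i (nat_lit 1854) (nat_lit 12) (nat_lit 13))
    (@En.i (nat_lit 2296) (nat_lit 13) (nat_lit 6))
    (@En.n l1998 (nat_lit 33) (nat_lit 6) (nat_lit 13))
    (@En.n l5154 (nat_lit 2255) (nat_lit 6) (nat_lit 7))
    (@En.n l11 (nat_lit 2254) (nat_lit 15) (nat_lit 2))))
  (@Cl.mk (nat_lit 0x2000c0009000c000c0004000b000400040007000d0005000d0003000e0003) (nat_lit 0xa79a01000a05030) (nat_lit 16) Lb.e (@T16.mk En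
    (@En.i (nat_lit 2256) (nat_lit 15) (nat_lit 3))
    (@En.i (nat_lit 13924) (nat_lit 0) (nat_lit 14))
    (@En.i (nat_lit 2192) (nat_lit 2) (nat_lit 3))
    (@En.n l5313 (nat_lit 1855) (nat_lit 0) (nat_lit 13))
    (@En.i (nat_lit 2299) (nat_lit 4) (nat_lit 5))
    (@En.n l1889 (nat_lit 12660) (nat_lit 6) (nat_lit 13))
    (@En.n l107 (nat_lit 2260) (nat_lit 11) (nat_lit 7))
    (@En.n l575 (nat_lit 2260) (nat_lit 12) (nat_lit 4))
    (@En.n l8351 (nat_lit 4378) (nat_lit 8) (nat_lit 4))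
    (@En.n l14023 (nat_lit 528) (nat_lit 10) (nat_lit 11))
    (@En.i (nat_lit 2371) (nat_lit 10) (nat_lit 4))
    (@En.n l7771 (nat_lit 2254) (nat_lit 4) (nat_lit 12))
    (@En.n l3839 (nat_lit 2374) (nat_lit 6) (nat_lit 12))
    (@En.n l2038 (nat_lit 829) (nat_lit 14) (nat_lit 9))
    (@En.n l3839 (nat_lit 2573) (nat_lit 12) (nat_lit 12))
    (@En.n l17 (nat_lit 2255) (nat_lit 15) (nat_lit 2))))
noncomputable def a141 : T16 Cl := @T16.mk Cl
  (@Cl.mk (nat_lit 0x30003000c0009000c000c0004000b000400040007000c0005000d000d0004) (nat_lit 0xa79a0100010560) (nat_lit 16) Lb.e (@T16.mk En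
    (@En.n l947 (nat_lit 774) (nat_lit 0) (nat_lit 4))
    (@En.n l61 (nat_lit 2255) (nat_lit 3) (nat_lit 13))
    (@En.n l22018 (nat_lit 1852) (nat_lit 1) (nat_lit 13))
    (@En.i (nat_lit 2300) (nat_lit 3) (nat_lit 5))
    (@En.n l2869 (nat_lit 66) (nat_lit 5) (nat_lit 12))
    (@En.n l107 (nat_lit 2259) (nat_lit 11) (nat_lit 7))
    (@En.n l575 (nat_lit 2259) (nat_lit 12) (nat_lit 4))
    (@En.n l8351 (nat_lit 2262) (nat_lit 7) (nat_lit 4))
    (@En.n l14023 (nat_lit 526) (nat_lit 9) (nat_lit 11))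
    (@En.n l117 (nat_lit 2269) (nat_lit 9) (nat_lit 4))
    (@En.n l7771 (nat_lit 2253) (nat_lit 4) (nat_lit 12))
    (@En.n l3839 (nat_lit 2377) (nat_lit 6) (nat_lit 12))
    (@En.n l2038 (nat_lit 831) (nat_lit 13) (nat_lit 9))
    (@En.n l3839 (nat_lit 2572) (nat_lit 14) (nat_lit 12))
    (@En.n l5331 (nat_lit 2258) (nat_lit 13) (nat_lit 3))
    (@En.n l18 (nat_lit 2255) (nat_lit 0) (nat_lit 3))))
  (@Cl.mk (nat_lit 0x200050003000d0009000c0003000a000e000400020007000b0006000e000d) (nat_lit 0xa700140005068) (nat_lit 16) Lb.e (@T16.mk En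
    (@En.n l649 (nat_lit 2253) (nat_lit 11) (nat_lit 13))
    (@En.i (nat_lit 2320) (nat_lit 12) (nat_lit 14))
    (@En.n l699 (nat_lit 2349) (nat_lit 13) (nat_lit 6))
    (@En.n l2866 (nat_lit 4035) (nat_lit 3) (nat_lit 11))
    (@En.n l2179 (nat_lit 2258) (nat_lit 4) (nat_lit 7))
    (@En.n l50 (nat_lit 2257) (nat_lit 5) (nat_lit 2))
    (@En.n l7910 (nat_lit 2258) (nat_lit 6) (nat_lit 4))
    (@En.i (nat_lit 3788) (nat_lit 8) (nat_lit 14))
    (@En.n l2031 (nat_lit 531) (nat_lit 9) (nat_lit 10))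
    (@En.i (nat_lit 2287) (nat_lit 9) (nat_lit 3))
    (@En.n l2573 (nat_lit 3568) (nat_lit 11) (nat_lit 12))
    (@En.n l287 (nat_lit 2658) (nat_lit 12) (nat_lit 9))
    (@En.n l2036 (nat_lit 1445) (nat_lit 13) (nat_lit 13))
    (@En.n l2221 (nat_lit 2253) (nat_lit 7) (nat_lit 3))
    (@En.n l1643 (nat_lit 2062) (nat_lit 8) (nat_lit 5))
    (@En.n l3 (nat_lit 2257) (nat_lit 15) (nat_lit 2))))
  (@Cl.mk (nat_lit 0x200050003000c0009000c000c0004000b000400040007000b0005000e000d) (nat_lit 0x9791010009016) (nat_lit 16) Lb.e (@T16.mk En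
    (@En.n l649 (nat_lit 2256) (nat_lit 2) (nat_lit 13))
    (@En.i (nat_lit 886) (nat_lit 1) (nat_lit 14))
    (@En.n l26655 (nat_lit 2350) (nat_lit 2) (nat_lit 5))
    (@En.n l1998 (nat_lit 12647) (nat_lit 3) (nat_lit 11))
    (@En.n l7 (nat_lit 2261) (nat_lit 4) (nat_lit 7))
    (@En.n l644 (nat_lit 2261) (nat_lit 5) (nat_lit 4))
    (@En.n l15262 (nat_lit 2323) (nat_lit 6) (nat_lit 4))
    (@En.n l1998 (nat_lit 524) (nat_lit 8) (nat_lit 11))
    (@En.i (nat_lit 2267) (nat_lit 8) (nat_lit 4))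
    (@En.n l5837 (nat_lit 2257) (nat_lit 10) (nat_lit 12))
    (@En.n l21726 (nat_lit 2379) (nat_lit 11) (nat_lit 12))
    (@En.n l29883 (nat_lit 2659) (nat_lit 12) (nat_lit 9))
    (@En.n l1998 (nat_lit 1442) (nat_lit 13) (nat_lit 12))
    (@En.n l2221 (nat_lit 2256) (nat_lit 14) (nat_lit 3))
    (@En.n l1643 (nat_lit 2065) (nat_lit 0) (nat_lit 5))
    (@En.n l3 (nat_lit 2258) (nat_lit 15) (nat_lit 2))))
  (@Cl.mk (nat_lit 0x20005000c00040007000c0004000d000d000400030003000b0009000e000c) (nat_lit 0x1003055000971a) (nat_lit 16) Lb.e (@T16.mk En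
    (@En.i (nat_lit 2256) (nat_lit 11) (nat_lit 12))
    (@En.n l180 (nat_lit 2230) (nat_lit 1) (nat_lit 14))
    (@En.n l2038 (nat_lit 833) (nat_lit 2) (nat_lit 9))
    (@En.i (nat_lit 2575) (nat_lit 3) (nat_lit 11))
    (@En.n l5331 (nat_lit 2261) (nat_lit 13) (nat_lit 3))
    (@En.n l18 (nat_lit 2260) (nat_lit 5) (nat_lit 3))
    (@En.n l947 (nat_lit 771) (nat_lit 6) (nat_lit 4))
    (@En.n l61 (nat_lit 2260) (nat_lit 8) (nat_lit 13))
    (@En.i (nat_lit 2181) (nat_lit 9) (nat_lit 13))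
    (@En.i (nat_lit 2354) (nat_lit 9) (nat_lit 4))
    (@En.n l2869 (nat_lit 12647) (nat_lit 11) (nat_lit 12))
    (@En.i (nat_lit 13741) (nat_lit 11) (nat_lit 7))
    (@En.i (nat_lit 2263) (nat_lit 6) (nat_lit 4))
    (@En.n l1643 (nat_lit 523) (nat_lit 14) (nat_lit 12))
    (@En.i (nat_lit 2268) (nat_lit 13) (nat_lit 5))
    (@En.n l11 (nat_lit 2259) (nat_lit 15) (nat_lit 2))))
  (@Cl.mk (nat_lit 0x20005000c00040007000d0004000d0003000e00030002000b0009000e000c) (nat_lit 0x100a040300971a) (nat_lit 16) Lb.e (@T16.mk En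
    (@En.i (nat_lit 2255) (nat_lit 12) (nat_lit 12))
    (@En.n l180 (nat_lit 2232) (nat_lit 13) (nat_lit 14))
    (@En.n l2038 (nat_lit 832) (nat_lit 14) (nat_lit 9))
    (@En.i (nat_lit 2574) (nat_lit 3) (nat_lit 11))
    (@En.n l17 (nat_lit 2260) (nat_lit 4) (nat_lit 2))
    (@En.i (nat_lit 2259) (nat_lit 5) (nat_lit 3))
    (@En.i (nat_lit 13941) (nat_lit 0) (nat_lit 14))
    (@En.i (nat_lit 2191) (nat_lit 7) (nat_lit 3))
    (@En.i (nat_lit 2182) (nat_lit 9) (nat_lit 13))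
    (@En.i (nat_lit 2356) (nat_lit 9) (nat_lit 4))
    (@En.i (nat_lit 4035) (nat_lit 11) (nat_lit 13))
    (@En.i (nat_lit 13742) (nat_lit 11) (nat_lit 7))
    (@En.i (nat_lit 2375) (nat_lit 7) (nat_lit 4))
    (@En.n l1643 (nat_lit 527) (nat_lit 9) (nat_lit 12))
    (@En.i (nat_lit 2373) (nat_lit 9) (nat_lit 5))
    (@En.n l11 (nat_lit 2260) (nat_lit 15) (nat_lit 2))))
  (@Cl.mk (nat_lit 0x200050003000b0009000e000c00020005000c00040007000b0004000e000d) (nat_lit 0x970a001001026) (nat_lit 16) Lb.e (@T16.mk En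
    (@En.n l649 (nat_lit 2259) (nat_lit 8) (nat_lit 13))
    (@En.i (nat_lit 883) (nat_lit 9) (nat_lit 14))
    (@En.i (nat_lit 2352) (nat_lit 9) (nat_lit 4))
    (@En.n l1998 (nat_lit 23) (nat_lit 3) (nat_lit 11))
    (@En.i (nat_lit 13804) (nat_lit 11) (nat_lit 7))
    (@En.n l1353 (nat_lit 2324) (nat_lit 5) (nat_lit 4))
    (@En.n l2031 (nat_lit 525) (nat_lit 7) (nat_lit 12))
    (@En.i (nat_lit 2266) (nat_lit 7) (nat_lit 5))
    (@En.n l50 (nat_lit 2261) (nat_lit 8) (nat_lit 2))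
    (@En.i (nat_lit 2258) (nat_lit 10) (nat_lit 12))
    (@En.n l26656 (nat_lit 2264) (nat_lit 11) (nat_lit 14))
    (@En.n l287 (nat_lit 2661) (nat_lit 12) (nat_lit 9))
    (@En.n l2036 (nat_lit 1441) (nat_lit 3) (nat_lit 11))
    (@En.n l2221 (nat_lit 2259) (nat_lit 4) (nat_lit 3))
    (@En.n l1643 (nat_lit 2518) (nat_lit 5) (nat_lit 5))
    (@En.n l3 (nat_lit 2261) (nat_lit 15) (nat_lit 2))))
  (@Cl.mk (nat_lit 0x30003000b0009000c0009000d0005000400030007000c0007000d000d0004) (nat_lit 0x80930000050000) (nat_lit 16) Lb.e (@T16.mk En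
    (@En.i (nat_lit 4420) (nat_lit 0) (nat_lit 4))
    (@En.n l61 (nat_lit 4378) (nat_lit 3) (nat_lit 13))
    (@En.n l11794 (nat_lit 4382) (nat_lit 1) (nat_lit 13))
    (@En.i (nat_lit 4191) (nat_lit 3) (nat_lit 7))
    (@En.i (nat_lit 12583) (nat_lit 14) (nat_lit 12))
    (@En.n l13671 (nat_lit 2263) (nat_lit 5) (nat_lit 7))
    (@En.n l19671 (nat_lit 2326) (nat_lit 6) (nat_lit 3))
    (@En.n l152 (nat_lit 2253) (nat_lit 0) (nat_lit 4))
    (@En.n l1769 (nat_lit 2273) (nat_lit 8) (nat_lit 5))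
    (@En.i (nat_lit 3719) (nat_lit 10) (nat_lit 13))
    (@En.n l2038 (nat_lit 5940) (nat_lit 11) (nat_lit 9))
    (@En.i (nat_lit 2872) (nat_lit 6) (nat_lit 12))
    (@En.n l14514 (nat_lit 4364) (nat_lit 13) (nat_lit 9))
    (@En.i (nat_lit 10376) (nat_lit 14) (nat_lit 11))
    (@En.n l3519 (nat_lit 2323) (nat_lit 13) (nat_lit 3))
    (@En.n l18 (nat_lit 4378) (nat_lit 0) (nat_lit 3))))
  (@Cl.mk (nat_lit 0x30003000a0009000d000c000a0003000600040007000c0006000d000d0004) (nat_lit 0xa4000000000) (nat_lit 16) Lb.e (@T16.mk En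
    (@En.n l947 (nat_lit 778) (nat_lit 0) (nat_lit 4))
    (@En.n l61 (nat_lit 2375) (nat_lit 3) (nat_lit 13))
    (@En.n l22019 (nat_lit 4386) (nat_lit 1) (nat_lit 13))
    (@En.n l2678 (nat_lit 2361) (nat_lit 3) (nat_lit 6))
    (@En.n l2869 (nat_lit 12415) (nat_lit 12) (nat_lit 12))
    (@En.n l810 (nat_lit 4682) (nat_lit 11) (nat_lit 7))
    (@En.n l2678 (nat_lit 2256) (nat_lit 6) (nat_lit 4))
    (@En.i (nat_lit 2272) (nat_lit 12) (nat_lit 6))
    (@En.n l8328 (nat_lit 2326) (nat_lit 8) (nat_lit 3))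
    (@En.i (nat_lit 5933) (nat_lit 0) (nat_lit 10))
    (@En.n l8351 (nat_lit 2262) (nat_lit 11) (nat_lit 12))
    (@En.n l180 (nat_lit 2330) (nat_lit 12) (nat_lit 13))
    (@En.n l2038 (nat_lit 2333) (nat_lit 13) (nat_lit 9))
    (@En.n l3540 (nat_lit 10395) (nat_lit 4) (nat_lit 10))
    (@En.n l3180 (nat_lit 2324) (nat_lit 13) (nat_lit 3))
    (@En.n l18 (nat_lit 2375) (nat_lit 0) (nat_lit 3))))
  (@Cl.mk (nat_lit 0x200050003000b000e000b0002000c0005000c00050004000b0004000e000d) (nat_lit 0x9c90205003016) (nat_lit 16) Lb.e (@T16.mk En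
    (@En.n l61 (nat_lit 2230) (nat_lit 7) (nat_lit 13))
    (@En.n l20055 (nat_lit 881) (nat_lit 1) (nat_lit 14))
    (@En.i (nat_lit 2353) (nat_lit 2) (nat_lit 4))
    (@En.n l2886 (nat_lit 12649) (nat_lit 3) (nat_lit 11))
    (@En.i (nat_lit 849) (nat_lit 4) (nat_lit 4))
    (@En.n l17079 (nat_lit 2329) (nat_lit 5) (nat_lit 5))
    (@En.n l2888 (nat_lit 518) (nat_lit 7) (nat_lit 12))
    (@En.n l12840 (nat_lit 2261) (nat_lit 7) (nat_lit 5))
    (@En.n l4927 (nat_lit 2258) (nat_lit 9) (nat_lit 12))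
    (@En.n l107 (nat_lit 2264) (nat_lit 9) (nat_lit 2))
    (@En.n l2888 (nat_lit 2229) (nat_lit 11) (nat_lit 11))
    (@En.n l619 (nat_lit 3701) (nat_lit 12) (nat_lit 14))
    (@En.n l6147 (nat_lit 1443) (nat_lit 13) (nat_lit 11))
    (@En.n l72 (nat_lit 2230) (nat_lit 3) (nat_lit 3))
    (@En.n l2888 (nat_lit 2519) (nat_lit 0) (nat_lit 5))
    (@En.n l17 (nat_lit 2264) (nat_lit 15) (nat_lit 2))))
  (@Cl.mk (nat_lit 0x200050003000b000a000e000b00020005000c00060005000b0004000e000d) (nat_lit 0x7801002003015) (nat_lit 16) Lb.e (@T16.mk En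
    (@En.n l8503 (nat_lit 2231) (nat_lit 8) (nat_lit 13))
    (@En.i (nat_lit 882) (nat_lit 9) (nat_lit 14))
    (@En.n l8504 (nat_lit 2340) (nat_lit 9) (nat_lit 4))
    (@En.i (nat_lit 12742) (nat_lit 3) (nat_lit 11))
    (@En.n l2911 (nat_lit 847) (nat_lit 4) (nat_lit 5))
    (@En.n l2805 (nat_lit 3601) (nat_lit 5) (nat_lit 6))
    (@En.n l2911 (nat_lit 547) (nat_lit 7) (nat_lit 12))
    (@En.n l8505 (nat_lit 2264) (nat_lit 7) (nat_lit 5))
    (@En.n l28 (nat_lit 2265) (nat_lit 8) (nat_lit 2))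
    (@En.n l2906 (nat_lit 2229) (nat_lit 10) (nat_lit 11))
    (@En.n l50 (nat_lit 2266) (nat_lit 11) (nat_lit 14))
    (@En.n l2579 (nat_lit 2270) (nat_lit 12) (nat_lit 10))
    (@En.n l2911 (nat_lit 1453) (nat_lit 3) (nat_lit 11))
    (@En.n l8506 (nat_lit 2231) (nat_lit 4) (nat_lit 3))
    (@En.n l1643 (nat_lit 2530) (nat_lit 5) (nat_lit 5))
    (@En.n l3 (nat_lit 2265) (nat_lit 15) (nat_lit 2))))
  (@Cl.mk (nat_lit 0x200050003000b000e000a0002000d0005000c00030006000b0004000e000d) (nat_lit 0x7c00005009015) (nat_lit 16) Lb.e (@T16.mk En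
    (@En.n l649 (nat_lit 2268) (nat_lit 7) (nat_lit 13))
    (@En.i (nat_lit 884) (nat_lit 1) (nat_lit 14))
    (@En.i (nat_lit 2337) (nat_lit 2) (nat_lit 4))
    (@En.i (nat_lit 12743) (nat_lit 3) (nat_lit 11))
    (@En.i (nat_lit 848) (nat_lit 4) (nat_lit 6))
    (@En.n l2869 (nat_lit 2270) (nat_lit 5) (nat_lit 3))
    (@En.n l1997 (nat_lit 607) (nat_lit 0) (nat_lit 12))
    (@En.i (nat_lit 2265) (nat_lit 7) (nat_lit 5))
    (@En.i (nat_lit 2267) (nat_lit 9) (nat_lit 13))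
    (@En.n l28 (nat_lit 2266) (nat_lit 9) (nat_lit 2))
    (@En.n l134 (nat_lit 2267) (nat_lit 11) (nat_lit 10))
    (@En.i (nat_lit 4730) (nat_lit 12) (nat_lit 14))
    (@En.n l2036 (nat_lit 1454) (nat_lit 13) (nat_lit 11))
    (@En.n l2221 (nat_lit 2268) (nat_lit 3) (nat_lit 3))
    (@En.n l1643 (nat_lit 2531) (nat_lit 0) (nat_lit 5))
    (@En.n l3 (nat_lit 2266) (nat_lit 15) (nat_lit 2))))
  (@Cl.mk (nat_lit 0x200050003000c000a000a000d0004000b000300060006000b0005000e000d) (nat_lit 0x780b040009016) (nat_lit 16) Lb.e (@T16.mk En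
    (@En.n l3528 (nat_lit 2269) (nat_lit 2) (nat_lit 13))
    (@En.i (nat_lit 887) (nat_lit 1) (nat_lit 14))
    (@En.n l12832 (nat_lit 2339) (nat_lit 2) (nat_lit 5))
    (@En.n l1997 (nat_lit 12695) (nat_lit 3) (nat_lit 11))
    (@En.n l7 (nat_lit 2266) (nat_lit 4) (nat_lit 6))
    (@En.n l644 (nat_lit 2265) (nat_lit 5) (nat_lit 6))
    (@En.n l2869 (nat_lit 2271) (nat_lit 6) (nat_lit 3))
    (@En.n l1997 (nat_lit 605) (nat_lit 0) (nat_lit 11))
    (@En.n l9223 (nat_lit 2229) (nat_lit 8) (nat_lit 4))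
    (@En.n l21726 (nat_lit 2274) (nat_lit 10) (nat_lit 13))
    (@En.n l21727 (nat_lit 2274) (nat_lit 11) (nat_lit 10))
    (@En.n l564 (nat_lit 2324) (nat_lit 12) (nat_lit 10))
    (@En.n l893 (nat_lit 1456) (nat_lit 13) (nat_lit 12))
    (@En.n l4018 (nat_lit 2269) (nat_lit 14) (nat_lit 3))
    (@En.n l1643 (nat_lit 2175) (nat_lit 0) (nat_lit 5))
    (@En.n l3 (nat_lit 2267) (nat_lit 15) (nat_lit 2))))
  (@Cl.mk (nat_lit 0x2000d0005000c00030006000c0004000d000d000400030003000b000e000a) (nat_lit 0x50030450007c2) (nat_lit 16) Lb.e (@T16.mk En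
    (@En.i (nat_lit 2269) (nat_lit 12) (nat_lit 10))
    (@En.i (nat_lit 4600) (nat_lit 4) (nat_lit 14))
    (@En.i (nat_lit 2616) (nat_lit 2) (nat_lit 11))
    (@En.n l5331 (nat_lit 2266) (nat_lit 13) (nat_lit 3))
    (@En.n l18 (nat_lit 2373) (nat_lit 0) (nat_lit 3))
    (@En.n l947 (nat_lit 772) (nat_lit 0) (nat_lit 4))
    (@En.n l61 (nat_lit 2373) (nat_lit 3) (nat_lit 13))
    (@En.i (nat_lit 2203) (nat_lit 8) (nat_lit 13))
    (@En.i (nat_lit 2336) (nat_lit 8) (nat_lit 4))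
    (@En.n l2869 (nat_lit 12766) (nat_lit 10) (nat_lit 12))
    (@En.i (nat_lit 594) (nat_lit 12) (nat_lit 6))
    (@En.i (nat_lit 2272) (nat_lit 11) (nat_lit 3))
    (@En.i (nat_lit 606) (nat_lit 0) (nat_lit 12))
    (@En.n l4870 (nat_lit 2231) (nat_lit 14) (nat_lit 5))
    (@En.n l117 (nat_lit 2269) (nat_lit 10) (nat_lit 13))
    (@En.n l3 (nat_lit 2268) (nat_lit 15) (nat_lit 2))))
  (@Cl.mk (nat_lit 0x30003000c000a000a000d0004000b000300060006000c0005000d000d0004) (nat_lit 0x710b0400040560) (nat_lit 16) Lb.e (@T16.mk En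
    (@En.n l6140 (nat_lit 775) (nat_lit 0) (nat_lit 4))
    (@En.n l4007 (nat_lit 2371) (nat_lit 3) (nat_lit 13))
    (@En.i (nat_lit 2201) (nat_lit 1) (nat_lit 13))
    (@En.i (nat_lit 2334) (nat_lit 3) (nat_lit 5))
    (@En.n l3522 (nat_lit 12694) (nat_lit 13) (nat_lit 12))
    (@En.n l152 (nat_lit 2268) (nat_lit 10) (nat_lit 6))
    (@En.n l12743 (nat_lit 2231) (nat_lit 12) (nat_lit 6))
    (@En.n l5979 (nat_lit 2273) (nat_lit 7) (nat_lit 3))
    (@En.n l5891 (nat_lit 600) (nat_lit 0) (nat_lit 11))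
    (@En.n l7420 (nat_lit 2226) (nat_lit 9) (nat_lit 4))
    (@En.n l2535 (nat_lit 2275) (nat_lit 5) (nat_lit 13))
    (@En.n l2536 (nat_lit 2275) (nat_lit 6) (nat_lit 10))
    (@En.n l2038 (nat_lit 2263) (nat_lit 13) (nat_lit 10))
    (@En.i (nat_lit 2444) (nat_lit 14) (nat_lit 12))
    (@En.n l11382 (nat_lit 2267) (nat_lit 13) (nat_lit 3))
    (@En.n l4296 (nat_lit 2371) (nat_lit 0) (nat_lit 3))))
  (@Cl.mk (nat_lit 0x200050003000a000e000a0002000d000b000600030006000b0005000e000d) (nat_lit 0x7000040000050) (nat_lit 16) Lb.e (@T16.mk En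
    (@En.n l12394 (nat_lit 2272) (nat_lit 7) (nat_lit 13))
    (@En.i (nat_lit 2407) (nat_lit 1) (nat_lit 14))
    (@En.n l5347 (nat_lit 2346) (nat_lit 2) (nat_lit 5))
    (@En.i (nat_lit 12744) (nat_lit 3) (nat_lit 11))
    (@En.n l1897 (nat_lit 3772) (nat_lit 4) (nat_lit 6))
    (@En.n l1865 (nat_lit 2266) (nat_lit 5) (nat_lit 3))
    (@En.n l97 (nat_lit 3597) (nat_lit 6) (nat_lit 6))
    (@En.n l3866 (nat_lit 6413) (nat_lit 8) (nat_lit 11))
    (@En.i (nat_lit 2271) (nat_lit 9) (nat_lit 13))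
    (@En.n l18 (nat_lit 2270) (nat_lit 9) (nat_lit 2))
    (@En.n l5 (nat_lit 2271) (nat_lit 11) (nat_lit 10))
    (@En.n l1897 (nat_lit 4598) (nat_lit 12) (nat_lit 14))
    (@En.i (nat_lit 6832) (nat_lit 13) (nat_lit 10))
    (@En.n l1554 (nat_lit 2272) (nat_lit 3) (nat_lit 3))
    (@En.n l226 (nat_lit 2174) (nat_lit 0) (nat_lit 5))
    (@En.n l28 (nat_lit 2270) (nat_lit 15) (nat_lit 2))))
  (@Cl.mk (nat_lit 0x200050003000b000a000a000d000a0005000300060006000b0006000e000d) (nat_lit 0x780b300000068) (nat_lit 16) Lb.e (@T16.mk En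
    (@En.n l30077 (nat_lit 2273) (nat_lit 2) (nat_lit 13))
    (@En.n l8494 (nat_lit 2405) (nat_lit 1) (nat_lit 14))
    (@En.n l27099 (nat_lit 2345) (nat_lit 2) (nat_lit 6))
    (@En.n l1738 (nat_lit 12697) (nat_lit 3) (nat_lit 11))
    (@En.n l17 (nat_lit 2270) (nat_lit 4) (nat_lit 6))
    (@En.n l18041 (nat_lit 3696) (nat_lit 5) (nat_lit 6))
    (@En.n l1865 (nat_lit 2267) (nat_lit 6) (nat_lit 3))
    (@En.n l97 (nat_lit 3598) (nat_lit 7) (nat_lit 5))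
    (@En.n l11419 (nat_lit 6335) (nat_lit 9) (nat_lit 10))
    (@En.n l30078 (nat_lit 2276) (nat_lit 10) (nat_lit 13))
    (@En.n l30079 (nat_lit 2276) (nat_lit 11) (nat_lit 10))
    (@En.n l17017 (nat_lit 2325) (nat_lit 12) (nat_lit 10))
    (@En.i (nat_lit 6834) (nat_lit 13) (nat_lit 11))
    (@En.n l15625 (nat_lit 2273) (nat_lit 14) (nat_lit 3))
    (@En.n l226 (nat_lit 2172) (nat_lit 0) (nat_lit 5))
    (@En.n l28 (nat_lit 2271) (nat_lit 15) (nat_lit 2))))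
noncomputable def a142 : T16 Cl := @T16.mk Cl
  (@Cl.mk (nat_lit 0x2000d000b000600030006000c0005000d000d000400030003000a000e000a) (nat_lit 0x400090b0000700) (nat_lit 16) Lb.e (@T16.mk En
    (@En.n l5979 (nat_lit 2273) (nat_lit 12) (nat_lit 10))
    (@En.i (nat_lit 4597) (nat_lit 1) (nat_lit 14))
    (@En.n l1430 (nat_lit 6829) (nat_lit 2) (nat_lit 10))
    (@En.n l4830 (nat_lit 2270) (nat_lit 13) (nat_lit 3))
    (@En.n l18 (nat_lit 2370) (nat_lit 0) (nat_lit 3))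
    (@En.n l1430 (nat_lit 2429) (nat_lit 0) (nat_lit 4))
    (@En.n l61 (nat_lit 2370) (nat_lit 3) (nat_lit 13))
    (@En.i (nat_lit 3678) (nat_lit 8) (nat_lit 13))
    (@En.n l14685 (nat_lit 2344) (nat_lit 8) (nat_lit 5))
    (@En.n l2869 (nat_lit 12767) (nat_lit 10) (nat_lit 12))
    (@En.n l810 (nat_lit 3768) (nat_lit 12) (nat_lit 6))
    (@En.n l28 (nat_lit 2268) (nat_lit 11) (nat_lit 3))
    (@En.n l4394 (nat_lit 3599) (nat_lit 0) (nat_lit 6))
    (@En.i (nat_lit 6409) (nat_lit 14) (nat_lit 11))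
    (@En.n l5978 (nat_lit 2273) (nat_lit 10) (nat_lit 13))
    (@En.n l3 (nat_lit 2272) (nat_lit 15) (nat_lit 2))))
  (@Cl.mk (nat_lit 0x30003000b000a000a000d000a0005000300060006000c0006000d000d0004) (nat_lit 0x780b3000090780) (nat_lit 16) Lb.e (@T16.mk En
    (@En.n l10573 (nat_lit 2427) (nat_lit 0) (nat_lit 4))
    (@En.n l61 (nat_lit 2369) (nat_lit 3) (nat_lit 13))
    (@En.n l27564 (nat_lit 2402) (nat_lit 1) (nat_lit 13))
    (@En.n l26661 (nat_lit 2347) (nat_lit 3) (nat_lit 6))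
    (@En.n l27550 (nat_lit 12440) (nat_lit 13) (nat_lit 12))
    (@En.n l14065 (nat_lit 2272) (nat_lit 10) (nat_lit 6))
    (@En.n l14066 (nat_lit 3694) (nat_lit 12) (nat_lit 6))
    (@En.n l27565 (nat_lit 2269) (nat_lit 7) (nat_lit 3))
    (@En.n l14067 (nat_lit 3595) (nat_lit 0) (nat_lit 5))
    (@En.n l2683 (nat_lit 6334) (nat_lit 10) (nat_lit 10))
    (@En.n l936 (nat_lit 2277) (nat_lit 5) (nat_lit 13))
    (@En.n l55 (nat_lit 2277) (nat_lit 6) (nat_lit 10))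
    (@En.n l17060 (nat_lit 2326) (nat_lit 13) (nat_lit 10))
    (@En.i (nat_lit 6826) (nat_lit 14) (nat_lit 11))
    (@En.n l21766 (nat_lit 2271) (nat_lit 13) (nat_lit 3))
    (@En.n l18 (nat_lit 2369) (nat_lit 0) (nat_lit 3))))
  (@Cl.mk (nat_lit 0x200050003000d000a000d0003000a0003000e00060002000b0006000e000d) (nat_lit 0x88a0303004064) (nat_lit 16) Lb.e (@T16.mk En
    (@En.n l61 (nat_lit 2275) (nat_lit 12) (nat_lit 13))
    (@En.n l9326 (nat_lit 2404) (nat_lit 1) (nat_lit 14))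
    (@En.n l2478 (nat_lit 2343) (nat_lit 14) (nat_lit 6))
    (@En.n l9327 (nat_lit 12696) (nat_lit 3) (nat_lit 11))
    (@En.n l28 (nat_lit 2274) (nat_lit 4) (nat_lit 2))
    (@En.n l9328 (nat_lit 2267) (nat_lit 5) (nat_lit 6))
    (@En.n l9329 (nat_lit 2287) (nat_lit 7) (nat_lit 14))
    (@En.n l117 (nat_lit 2276) (nat_lit 7) (nat_lit 3))
    (@En.n l9330 (nat_lit 602) (nat_lit 9) (nat_lit 10))
    (@En.n l3 (nat_lit 2379) (nat_lit 9) (nat_lit 3))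
    (@En.n l2478 (nat_lit 13038) (nat_lit 5) (nat_lit 13))
    (@En.n l9331 (nat_lit 2329) (nat_lit 12) (nat_lit 10))
    (@En.n l9332 (nat_lit 1747) (nat_lit 13) (nat_lit 13))
    (@En.n l72 (nat_lit 2275) (nat_lit 8) (nat_lit 3))
    (@En.n l9333 (nat_lit 2177) (nat_lit 9) (nat_lit 5))
    (@En.n l17 (nat_lit 2274) (nat_lit 15) (nat_lit 2))))
  (@Cl.mk (nat_lit 0x2000c0006000d000d000400030003000d000a000d0003000a0003000e0006) (nat_lit 0x503700098a03030) (nat_lit 16) Lb.e (@T16.mk En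
    (@En.n l756 (nat_lit 2269) (nat_lit 6) (nat_lit 6))
    (@En.n l2400 (nat_lit 2286) (nat_lit 1) (nat_lit 14))
    (@En.n l117 (nat_lit 2277) (nat_lit 2) (nat_lit 3))
    (@En.n l2403 (nat_lit 603) (nat_lit 3) (nat_lit 10))
    (@En.n l3 (nat_lit 2377) (nat_lit 4) (nat_lit 3))
    (@En.n l2477 (nat_lit 13039) (nat_lit 5) (nat_lit 13))
    (@En.n l2403 (nat_lit 2330) (nat_lit 13) (nat_lit 10))
    (@En.i (nat_lit 2440) (nat_lit 8) (nat_lit 13))
    (@En.i (nat_lit 2274) (nat_lit 13) (nat_lit 3))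
    (@En.n l18 (nat_lit 2372) (nat_lit 9) (nat_lit 3))
    (@En.i (nat_lit 2418) (nat_lit 0) (nat_lit 4))
    (@En.n l61 (nat_lit 2372) (nat_lit 12) (nat_lit 13))
    (@En.n l1353 (nat_lit 2387) (nat_lit 13) (nat_lit 13))
    (@En.n l2477 (nat_lit 2305) (nat_lit 14) (nat_lit 6))
    (@En.n l755 (nat_lit 12678) (nat_lit 12) (nat_lit 12))
    (@En.n l28 (nat_lit 2275) (nat_lit 15) (nat_lit 2))))
  (@Cl.mk (nat_lit 0x200050003000c000a000d000900040003000e00060002000b0007000e000d) (nat_lit 0x78a2000000079) (nat_lit 16) Lb.e (@T16.mk En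
    (@En.n l61 (nat_lit 2277) (nat_lit 12) (nat_lit 13))
    (@En.n l11556 (nat_lit 2406) (nat_lit 1) (nat_lit 14))
    (@En.n l21765 (nat_lit 2365) (nat_lit 14) (nat_lit 7))
    (@En.n l3519 (nat_lit 12700) (nat_lit 3) (nat_lit 11))
    (@En.n l28 (nat_lit 2276) (nat_lit 4) (nat_lit 2))
    (@En.n l21766 (nat_lit 2271) (nat_lit 5) (nat_lit 6))
    (@En.n l3519 (nat_lit 2662) (nat_lit 7) (nat_lit 14))
    (@En.n l152 (nat_lit 2274) (nat_lit 7) (nat_lit 3))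
    (@En.n l5368 (nat_lit 3596) (nat_lit 8) (nat_lit 4))
    (@En.n l21767 (nat_lit 6429) (nat_lit 10) (nat_lit 9))
    (@En.n l21765 (nat_lit 13037) (nat_lit 5) (nat_lit 13))
    (@En.i (nat_lit 2327) (nat_lit 12) (nat_lit 10))
    (@En.i (nat_lit 6833) (nat_lit 13) (nat_lit 12))
    (@En.n l72 (nat_lit 2277) (nat_lit 8) (nat_lit 3))
    (@En.n l6142 (nat_lit 2170) (nat_lit 9) (nat_lit 5))
    (@En.n l17 (nat_lit 2276) (nat_lit 15) (nat_lit 2))))
  (@Cl.mk (nat_lit 0x2000c0007000d000d000400030003000c000a000d000900040003000e0006) (nat_lit 0x908900078a20020) (nat_lit 16) Lb.e (@T16.mk En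
    (@En.i (nat_lit 2273) (nat_lit 6) (nat_lit 6))
    (@En.n l7165 (nat_lit 2664) (nat_lit 1) (nat_lit 14))
    (@En.n l152 (nat_lit 2275) (nat_lit 2) (nat_lit 3))
    (@En.n l1865 (nat_lit 2876) (nat_lit 3) (nat_lit 4))
    (@En.i (nat_lit 6427) (nat_lit 4) (nat_lit 9))
    (@En.n l4256 (nat_lit 13040) (nat_lit 5) (nat_lit 13))
    (@En.i (nat_lit 2332) (nat_lit 13) (nat_lit 10))
    (@En.i (nat_lit 6828) (nat_lit 8) (nat_lit 12))
    (@En.i (nat_lit 2276) (nat_lit 13) (nat_lit 3))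
    (@En.n l18 (nat_lit 2368) (nat_lit 0) (nat_lit 3))
    (@En.i (nat_lit 2428) (nat_lit 0) (nat_lit 4))
    (@En.n l61 (nat_lit 2368) (nat_lit 3) (nat_lit 13))
    (@En.n l1865 (nat_lit 2396) (nat_lit 13) (nat_lit 13))
    (@En.i (nat_lit 2363) (nat_lit 14) (nat_lit 7))
    (@En.i (nat_lit 12707) (nat_lit 12) (nat_lit 12))
    (@En.n l28 (nat_lit 2277) (nat_lit 15) (nat_lit 2))))
  (@Cl.mk (nat_lit 0x20005000d0009000c00030009000e000400020007000c000b0007000e0004) (nat_lit 0xb6901400056080) (nat_lit 16) Lb.e (@T16.mk En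
    (@En.n l3323 (nat_lit 2251) (nat_lit 9) (nat_lit 4))
    (@En.n l7611 (nat_lit 1857) (nat_lit 11) (nat_lit 14))
    (@En.n l7882 (nat_lit 1849) (nat_lit 12) (nat_lit 7))
    (@En.n l1253 (nat_lit 2257) (nat_lit 3) (nat_lit 11))
    (@En.n l2579 (nat_lit 12671) (nat_lit 14) (nat_lit 12))
    (@En.n l5934 (nat_lit 774) (nat_lit 5) (nat_lit 7))
    (@En.n l7 (nat_lit 2278) (nat_lit 6) (nat_lit 2))
    (@En.n l8898 (nat_lit 774) (nat_lit 7) (nat_lit 4))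
    (@En.i (nat_lit 3791) (nat_lit 9) (nat_lit 14))
    (@En.i (nat_lit 431) (nat_lit 10) (nat_lit 9))
    (@En.i (nat_lit 2279) (nat_lit 10) (nat_lit 3))
    (@En.n l2544 (nat_lit 3539) (nat_lit 12) (nat_lit 12))
    (@En.n l13114 (nat_lit 2656) (nat_lit 13) (nat_lit 9))
    (@En.n l3337 (nat_lit 2051) (nat_lit 7) (nat_lit 13))
    (@En.i (nat_lit 2059) (nat_lit 13) (nat_lit 5))
    (@En.n l3 (nat_lit 2278) (nat_lit 15) (nat_lit 2))))
  (@Cl.mk (nat_lit 0x20005000d000b000a00030009000e000500020006000c000b0007000e0004) (nat_lit 0xa8001200056080) (nat_lit 16) Lb.e (@T16.mk En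
    (@En.n l7881 (nat_lit 2281) (nat_lit 9) (nat_lit 4))
    (@En.n l7611 (nat_lit 2280) (nat_lit 11) (nat_lit 14))
    (@En.n l7882 (nat_lit 2283) (nat_lit 12) (nat_lit 7))
    (@En.n l1253 (nat_lit 2287) (nat_lit 3) (nat_lit 11))
    (@En.n l2579 (nat_lit 12667) (nat_lit 14) (nat_lit 12))
    (@En.n l5934 (nat_lit 775) (nat_lit 5) (nat_lit 6))
    (@En.n l7 (nat_lit 2279) (nat_lit 6) (nat_lit 2))
    (@En.n l7883 (nat_lit 773) (nat_lit 7) (nat_lit 5))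
    (@En.i (nat_lit 3641) (nat_lit 9) (nat_lit 14))
    (@En.n l7884 (nat_lit 1074) (nat_lit 2) (nat_lit 9))
    (@En.n l11 (nat_lit 2278) (nat_lit 10) (nat_lit 3))
    (@En.n l7885 (nat_lit 2565) (nat_lit 12) (nat_lit 10))
    (@En.n l7886 (nat_lit 4420) (nat_lit 13) (nat_lit 11))
    (@En.n l3337 (nat_lit 2559) (nat_lit 7) (nat_lit 13))
    (@En.i (nat_lit 2063) (nat_lit 13) (nat_lit 5))
    (@En.n l3 (nat_lit 2279) (nat_lit 15) (nat_lit 2))))
  (@Cl.mk (nat_lit 0x20006000d000b000e00030002000a0005000d000b000a00030006000e0005) (nat_lit 0x55700509900030) (nat_lit 16) Lb.e (@T16.mk En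
    (@En.n l2665 (nat_lit 2147) (nat_lit 6) (nat_lit 5))
    (@En.i (nat_lit 3647) (nat_lit 8) (nat_lit 14))
    (@En.n l2666 (nat_lit 2754) (nat_lit 2) (nat_lit 6))
    (@En.n l50 (nat_lit 1857) (nat_lit 3) (nat_lit 3))
    (@En.n l2667 (nat_lit 2569) (nat_lit 0) (nat_lit 10))
    (@En.n l2668 (nat_lit 4417) (nat_lit 12) (nat_lit 11))
    (@En.n l476 (nat_lit 2283) (nat_lit 7) (nat_lit 13))
    (@En.n l2669 (nat_lit 2279) (nat_lit 14) (nat_lit 5))
    (@En.n l2670 (nat_lit 2290) (nat_lit 9) (nat_lit 10))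
    (@En.n l11 (nat_lit 2280) (nat_lit 9) (nat_lit 2))
    (@En.n l2671 (nat_lit 2282) (nat_lit 10) (nat_lit 3))
    (@En.n l2672 (nat_lit 12930) (nat_lit 0) (nat_lit 14))
    (@En.n l2673 (nat_lit 2285) (nat_lit 13) (nat_lit 11))
    (@En.n l810 (nat_lit 12668) (nat_lit 14) (nat_lit 13))
    (@En.n l2674 (nat_lit 2419) (nat_lit 4) (nat_lit 6))
    (@En.n l17 (nat_lit 2280) (nat_lit 15) (nat_lit 2))))
  (@Cl.mk (nat_lit 0x20006000c000c000c0008000400040004000d000b000a00030008000e0005) (nat_lit 0x5673000b900130) (nat_lit 16) Lb.e (@T16.mk En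
    (@En.n l5617 (nat_lit 2224) (nat_lit 6) (nat_lit 5))
    (@En.i (nat_lit 3646) (nat_lit 1) (nat_lit 14))
    (@En.n l5656 (nat_lit 1079) (nat_lit 2) (nat_lit 8))
    (@En.n l936 (nat_lit 2251) (nat_lit 3) (nat_lit 3))
    (@En.n l5621 (nat_lit 3520) (nat_lit 4) (nat_lit 10))
    (@En.n l936 (nat_lit 4380) (nat_lit 6) (nat_lit 11))
    (@En.n l2175 (nat_lit 2050) (nat_lit 7) (nat_lit 13))
    (@En.n l5657 (nat_lit 2285) (nat_lit 7) (nat_lit 4))
    (@En.n l5658 (nat_lit 2306) (nat_lit 8) (nat_lit 4))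
    (@En.i (nat_lit 2286) (nat_lit 9) (nat_lit 4))
    (@En.n l5659 (nat_lit 2284) (nat_lit 11) (nat_lit 8))
    (@En.n l742 (nat_lit 2292) (nat_lit 12) (nat_lit 12))
    (@En.n l5660 (nat_lit 2279) (nat_lit 4) (nat_lit 12))
    (@En.n l5661 (nat_lit 12680) (nat_lit 14) (nat_lit 12))
    (@En.n l5662 (nat_lit 2237) (nat_lit 13) (nat_lit 6))
    (@En.n l11 (nat_lit 2281) (nat_lit 15) (nat_lit 2))))
  (@Cl.mk (nat_lit 0x20006000d000d000c00030003000a0004000d000b000a00030006000e0005) (nat_lit 0x4670050b900030) (nat_lit 16) Lb.e (@T16.mk En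
    (@En.n l187 (nat_lit 2146) (nat_lit 5) (nat_lit 5))
    (@En.n l2009 (nat_lit 3648) (nat_lit 1) (nat_lit 14))
    (@En.n l3531 (nat_lit 1154) (nat_lit 2) (nat_lit 6))
    (@En.n l830 (nat_lit 1853) (nat_lit 3) (nat_lit 3))
    (@En.n l619 (nat_lit 3555) (nat_lit 0) (nat_lit 10))
    (@En.n l7887 (nat_lit 4382) (nat_lit 11) (nat_lit 11))
    (@En.i (nat_lit 2284) (nat_lit 7) (nat_lit 13))
    (@En.n l7888 (nat_lit 2281) (nat_lit 7) (nat_lit 4))
    (@En.n l7889 (nat_lit 2289) (nat_lit 9) (nat_lit 10))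
    (@En.n l50 (nat_lit 2307) (nat_lit 9) (nat_lit 3))
    (@En.n l2696 (nat_lit 2280) (nat_lit 10) (nat_lit 3))
    (@En.n l217 (nat_lit 2306) (nat_lit 12) (nat_lit 12))
    (@En.n l7890 (nat_lit 2280) (nat_lit 13) (nat_lit 13))
    (@En.n l226 (nat_lit 12673) (nat_lit 14) (nat_lit 13))
    (@En.n l7891 (nat_lit 2201) (nat_lit 3) (nat_lit 6))
    (@En.n l476 (nat_lit 2282) (nat_lit 15) (nat_lit 2))))
  (@Cl.mk (nat_lit 0x20007000d0007000e00030002000a000d000a0009000300090006000e0006) (nat_lit 0x50700588007030) (nat_lit 16) Lb.e (@T16.mk En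
    (@En.n l7874 (nat_lit 2142) (nat_lit 6) (nat_lit 6))
    (@En.i (nat_lit 7078) (nat_lit 8) (nat_lit 14))
    (@En.i (nat_lit 2280) (nat_lit 2) (nat_lit 6))
    (@En.n l7875 (nat_lit 6886) (nat_lit 3) (nat_lit 9))
    (@En.n l50 (nat_lit 1849) (nat_lit 4) (nat_lit 3))
    (@En.n l7875 (nat_lit 2567) (nat_lit 5) (nat_lit 9))
    (@En.n l7876 (nat_lit 3661) (nat_lit 13) (nat_lit 10))
    (@En.n l7877 (nat_lit 2046) (nat_lit 8) (nat_lit 13))
    (@En.n l810 (nat_lit 2586) (nat_lit 9) (nat_lit 10))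
    (@En.n l11 (nat_lit 2283) (nat_lit 9) (nat_lit 2))
    (@En.n l7878 (nat_lit 2284) (nat_lit 10) (nat_lit 3))
    (@En.n l7875 (nat_lit 12929) (nat_lit 0) (nat_lit 14))
    (@En.n l7879 (nat_lit 1521) (nat_lit 13) (nat_lit 7))
    (@En.n l810 (nat_lit 12669) (nat_lit 14) (nat_lit 13))
    (@En.n l7880 (nat_lit 2422) (nat_lit 4) (nat_lit 7))
    (@En.n l17 (nat_lit 2283) (nat_lit 15) (nat_lit 2))))
  (@Cl.mk (nat_lit 0x20007000d000d000800030003000a000d000a0009000300080006000e0006) (nat_lit 0x562005a8006040) (nat_lit 16) Lb.e (@T16.mk En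
    (@En.n l13934 (nat_lit 2143) (nat_lit 5) (nat_lit 6))
    (@En.n l5895 (nat_lit 7072) (nat_lit 1) (nat_lit 14))
    (@En.n l17 (nat_lit 2282) (nat_lit 2) (nat_lit 6))
    (@En.n l13935 (nat_lit 2311) (nat_lit 3) (nat_lit 8))
    (@En.n l2058 (nat_lit 1847) (nat_lit 4) (nat_lit 3))
    (@En.n l13936 (nat_lit 2571) (nat_lit 5) (nat_lit 9))
    (@En.n l11421 (nat_lit 3658) (nat_lit 12) (nat_lit 10))
    (@En.n l13937 (nat_lit 2048) (nat_lit 8) (nat_lit 13))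
    (@En.n l7889 (nat_lit 2291) (nat_lit 9) (nat_lit 10))
    (@En.n l50 (nat_lit 2308) (nat_lit 9) (nat_lit 3))
    (@En.n l13938 (nat_lit 2283) (nat_lit 10) (nat_lit 3))
    (@En.n l11421 (nat_lit 1686) (nat_lit 12) (nat_lit 8))
    (@En.n l13939 (nat_lit 2283) (nat_lit 13) (nat_lit 13))
    (@En.n l226 (nat_lit 12693) (nat_lit 14) (nat_lit 13))
    (@En.n l13940 (nat_lit 2199) (nat_lit 3) (nat_lit 7))
    (@En.n l476 (nat_lit 2284) (nat_lit 15) (nat_lit 2))))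
  (@Cl.mk (nat_lit 0x20006000b000e000c0002000900050004000d000b000a00030007000e0005) (nat_lit 0x4570400a800020) (nat_lit 16) Lb.e (@T16.mk En
    (@En.n l6190 (nat_lit 885) (nat_lit 5) (nat_lit 5))
    (@En.i (nat_lit 3640) (nat_lit 7) (nat_lit 14))
    (@En.n l6191 (nat_lit 1083) (nat_lit 2) (nat_lit 7))
    (@En.n l28 (nat_lit 2320) (nat_lit 3) (nat_lit 3))
    (@En.n l6192 (nat_lit 3522) (nat_lit 4) (nat_lit 10))
    (@En.n l2650 (nat_lit 2321) (nat_lit 11) (nat_lit 11))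
    (@En.n l3336 (nat_lit 1451) (nat_lit 7) (nat_lit 13))
    (@En.n l6193 (nat_lit 2282) (nat_lit 7) (nat_lit 4))
    (@En.n l725 (nat_lit 2287) (nat_lit 14) (nat_lit 5))
    (@En.n l6194 (nat_lit 2288) (nat_lit 10) (nat_lit 9))
    (@En.n l3 (nat_lit 2285) (nat_lit 10) (nat_lit 2))
    (@En.n l6195 (nat_lit 2281) (nat_lit 12) (nat_lit 12))
    (@En.n l6196 (nat_lit 2064) (nat_lit 4) (nat_lit 14))
    (@En.n l3336 (nat_lit 12620) (nat_lit 2) (nat_lit 11))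
    (@En.n l2179 (nat_lit 887) (nat_lit 3) (nat_lit 6))
    (@En.n l50 (nat_lit 2285) (nat_lit 15) (nat_lit 2))))
  (@Cl.mk (nat_lit 0x20006000c0006000d000d000400030003000d000b000a0003000a000e0005) (nat_lit 0x5077000a900320) (nat_lit 16) Lb.e (@T16.mk En
    (@En.n l5617 (nat_lit 2226) (nat_lit 7) (nat_lit 5))
    (@En.i (nat_lit 3644) (nat_lit 1) (nat_lit 14))
    (@En.n l5782 (nat_lit 546) (nat_lit 2) (nat_lit 10))
    (@En.n l936 (nat_lit 2253) (nat_lit 3) (nat_lit 3))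
    (@En.n l5621 (nat_lit 3512) (nat_lit 4) (nat_lit 10))
    (@En.n l936 (nat_lit 2262) (nat_lit 13) (nat_lit 11))
    (@En.i (nat_lit 2288) (nat_lit 7) (nat_lit 13))
    (@En.n l5333 (nat_lit 2287) (nat_lit 13) (nat_lit 3))
    (@En.n l18 (nat_lit 2293) (nat_lit 8) (nat_lit 3))
    (@En.n l668 (nat_lit 2279) (nat_lit 0) (nat_lit 4))
    (@En.n l61 (nat_lit 2293) (nat_lit 11) (nat_lit 13))
    (@En.n l614 (nat_lit 2282) (nat_lit 12) (nat_lit 13))
    (@En.i (nat_lit 2295) (nat_lit 13) (nat_lit 6))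
    (@En.n l4185 (nat_lit 12656) (nat_lit 14) (nat_lit 12))
    (@En.n l5662 (nat_lit 2269) (nat_lit 5) (nat_lit 6))
    (@En.n l11 (nat_lit 2286) (nat_lit 15) (nat_lit 2))))
  (@Cl.mk (nat_lit 0x200050003000d000b000a0003000a000e000500020006000b0006000e000d) (nat_lit 0xa900320005068) (nat_lit 16) Lb.e (@T16.mk En
    (@En.n l13540 (nat_lit 2286) (nat_lit 11) (nat_lit 13))
    (@En.i (nat_lit 2285) (nat_lit 12) (nat_lit 14))
    (@En.n l15330 (nat_lit 2348) (nat_lit 13) (nat_lit 6))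
    (@En.n l2866 (nat_lit 4039) (nat_lit 3) (nat_lit 11))
    (@En.n l2179 (nat_lit 2267) (nat_lit 4) (nat_lit 6))
    (@En.n l50 (nat_lit 2287) (nat_lit 5) (nat_lit 2))
    (@En.n l6190 (nat_lit 2229) (nat_lit 6) (nat_lit 5))
    (@En.i (nat_lit 3642) (nat_lit 8) (nat_lit 14))
    (@En.n l10288 (nat_lit 598) (nat_lit 2) (nat_lit 10))
    (@En.n l28 (nat_lit 2257) (nat_lit 9) (nat_lit 3))
    (@En.n l13543 (nat_lit 3513) (nat_lit 11) (nat_lit 10))
    (@En.n l2650 (nat_lit 2323) (nat_lit 12) (nat_lit 11))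
    (@En.n l9025 (nat_lit 1448) (nat_lit 13) (nat_lit 13))
    (@En.n l10845 (nat_lit 2286) (nat_lit 7) (nat_lit 3))
    (@En.n l1643 (nat_lit 2558) (nat_lit 8) (nat_lit 5))
    (@En.n l3 (nat_lit 2287) (nat_lit 15) (nat_lit 2))))
noncomputable def a143 : T16 Cl := @T16.mk Cl
  (@Cl.mk (nat_lit 0x20007000c0006000d000900040003000d000a000900030007000a000e0006) (nat_lit 0x40730090000430) (nat_lit 16) Lb.e (@T16.mk En
    (@En.i (nat_lit 2502) (nat_lit 7) (nat_lit 6))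
    (@En.i (nat_lit 8684) (nat_lit 1) (nat_lit 14))
    (@En.n l2201 (nat_lit 2287) (nat_lit 8) (nat_lit 10))
    (@En.i (nat_lit 6879) (nat_lit 3) (nat_lit 7))
    (@En.n l936 (nat_lit 2579) (nat_lit 4) (nat_lit 3))
    (@En.n l5621 (nat_lit 3511) (nat_lit 0) (nat_lit 9))
    (@En.n l936 (nat_lit 4308) (nat_lit 7) (nat_lit 10))
    (@En.n l14408 (nat_lit 1536) (nat_lit 8) (nat_lit 13))
    (@En.n l18 (nat_lit 2289) (nat_lit 8) (nat_lit 3))
    (@En.n l2351 (nat_lit 2559) (nat_lit 9) (nat_lit 4))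
    (@En.n l61 (nat_lit 2291) (nat_lit 11) (nat_lit 9))
    (@En.n l614 (nat_lit 2284) (nat_lit 12) (nat_lit 13))
    (@En.n l2772 (nat_lit 2589) (nat_lit 13) (nat_lit 6))
    (@En.n l2351 (nat_lit 12635) (nat_lit 14) (nat_lit 12))
    (@En.n l5662 (nat_lit 2444) (nat_lit 5) (nat_lit 7))
    (@En.n l11 (nat_lit 2288) (nat_lit 15) (nat_lit 2))))
  (@Cl.mk (nat_lit 0x20007000d0006000d0003000a0003000d000a000900030006000a000e0006) (nat_lit 0x50704098000430) (nat_lit 16) Lb.e (@T16.mk En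
    (@En.i (nat_lit 2228) (nat_lit 5) (nat_lit 6))
    (@En.i (nat_lit 8683) (nat_lit 1) (nat_lit 14))
    (@En.n l617 (nat_lit 2286) (nat_lit 2) (nat_lit 10))
    (@En.i (nat_lit 6873) (nat_lit 3) (nat_lit 6))
    (@En.n l936 (nat_lit 2578) (nat_lit 4) (nat_lit 3))
    (@En.n l5621 (nat_lit 3509) (nat_lit 0) (nat_lit 9))
    (@En.n l936 (nat_lit 4307) (nat_lit 7) (nat_lit 10))
    (@En.i (nat_lit 2291) (nat_lit 8) (nat_lit 13))
    (@En.i (nat_lit 2288) (nat_lit 8) (nat_lit 3))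
    (@En.n l4719 (nat_lit 4974) (nat_lit 10) (nat_lit 10))
    (@En.i (nat_lit 2290) (nat_lit 10) (nat_lit 3))
    (@En.n l614 (nat_lit 2308) (nat_lit 12) (nat_lit 13))
    (@En.i (nat_lit 2588) (nat_lit 13) (nat_lit 6))
    (@En.n l13261 (nat_lit 12663) (nat_lit 14) (nat_lit 13))
    (@En.n l5783 (nat_lit 2614) (nat_lit 3) (nat_lit 7))
    (@En.n l11 (nat_lit 2289) (nat_lit 15) (nat_lit 2))))
  (@Cl.mk (nat_lit 0x20007000d000c00070003000a0004000d000a0009000300060009000e0006) (nat_lit 0x250040a0000230) (nat_lit 16) Lb.e (@T16.mk En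
    (@En.i (nat_lit 2504) (nat_lit 5) (nat_lit 6))
    (@En.i (nat_lit 8680) (nat_lit 1) (nat_lit 14))
    (@En.n l7813 (nat_lit 2279) (nat_lit 9) (nat_lit 9))
    (@En.i (nat_lit 6872) (nat_lit 3) (nat_lit 6))
    (@En.n l936 (nat_lit 2580) (nat_lit 4) (nat_lit 3))
    (@En.n l5621 (nat_lit 3510) (nat_lit 0) (nat_lit 9))
    (@En.n l936 (nat_lit 4309) (nat_lit 7) (nat_lit 10))
    (@En.n l6268 (nat_lit 2586) (nat_lit 8) (nat_lit 13))
    (@En.n l2351 (nat_lit 2050) (nat_lit 8) (nat_lit 4))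
    (@En.n l612 (nat_lit 2588) (nat_lit 10) (nat_lit 10))
    (@En.n l50 (nat_lit 2289) (nat_lit 10) (nat_lit 3))
    (@En.n l872 (nat_lit 1391) (nat_lit 12) (nat_lit 7))
    (@En.n l217 (nat_lit 2288) (nat_lit 13) (nat_lit 12))
    (@En.n l850 (nat_lit 12666) (nat_lit 14) (nat_lit 13))
    (@En.n l5783 (nat_lit 2443) (nat_lit 3) (nat_lit 7))
    (@En.n l11 (nat_lit 2290) (nat_lit 15) (nat_lit 2))))
  (@Cl.mk (nat_lit 0x20008000d000600090003000a000d00090008000300070006000a000e0007) (nat_lit 0x340204800000540) (nat_lit 16) Lb.e (@T16.mk En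
    (@En.i (nat_lit 2503) (nat_lit 5) (nat_lit 7))
    (@En.i (nat_lit 8685) (nat_lit 1) (nat_lit 14))
    (@En.n l617 (nat_lit 2288) (nat_lit 2) (nat_lit 10))
    (@En.n l17 (nat_lit 2289) (nat_lit 3) (nat_lit 6))
    (@En.n l1080 (nat_lit 6881) (nat_lit 4) (nat_lit 7))
    (@En.n l936 (nat_lit 2581) (nat_lit 5) (nat_lit 3))
    (@En.n l5621 (nat_lit 3495) (nat_lit 0) (nat_lit 8))
    (@En.n l7290 (nat_lit 2828) (nat_lit 8) (nat_lit 9))
    (@En.n l3621 (nat_lit 1537) (nat_lit 9) (nat_lit 13))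
    (@En.n l1021 (nat_lit 4967) (nat_lit 10) (nat_lit 10))
    (@En.n l6268 (nat_lit 2586) (nat_lit 10) (nat_lit 3))
    (@En.n l7644 (nat_lit 1698) (nat_lit 0) (nat_lit 9))
    (@En.n l4635 (nat_lit 2587) (nat_lit 13) (nat_lit 6))
    (@En.n l3635 (nat_lit 12321) (nat_lit 14) (nat_lit 13))
    (@En.n l5783 (nat_lit 2445) (nat_lit 3) (nat_lit 8))
    (@En.n l11 (nat_lit 2291) (nat_lit 15) (nat_lit 2))))
  (@Cl.mk (nat_lit 0x20006000d000c00070003000e00040002000d000b000a00030009000e0005) (nat_lit 0x1600100b900120) (nat_lit 16) Lb.e (@T16.mk En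
    (@En.n l5617 (nat_lit 2225) (nat_lit 8) (nat_lit 5))
    (@En.i (nat_lit 3776) (nat_lit 1) (nat_lit 14))
    (@En.n l5782 (nat_lit 906) (nat_lit 2) (nat_lit 9))
    (@En.n l936 (nat_lit 2252) (nat_lit 3) (nat_lit 3))
    (@En.n l5621 (nat_lit 3518) (nat_lit 4) (nat_lit 10))
    (@En.n l936 (nat_lit 4379) (nat_lit 14) (nat_lit 11))
    (@En.i (nat_lit 2290) (nat_lit 7) (nat_lit 13))
    (@En.n l17 (nat_lit 2292) (nat_lit 7) (nat_lit 2))
    (@En.n l50 (nat_lit 2281) (nat_lit 8) (nat_lit 4))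
    (@En.n l5 (nat_lit 792) (nat_lit 10) (nat_lit 14))
    (@En.n l50 (nat_lit 2293) (nat_lit 10) (nat_lit 3))
    (@En.n l872 (nat_lit 1529) (nat_lit 12) (nat_lit 7))
    (@En.n l217 (nat_lit 2286) (nat_lit 13) (nat_lit 12))
    (@En.n l383 (nat_lit 24) (nat_lit 6) (nat_lit 13))
    (@En.n l5783 (nat_lit 2243) (nat_lit 6) (nat_lit 6))
    (@En.n l11 (nat_lit 2292) (nat_lit 15) (nat_lit 2))))
  (@Cl.mk (nat_lit 0x20006000d0006000d0003000e00030002000d000b000a0003000a000e0005) (nat_lit 0xb060300a900320) (nat_lit 16) Lb.e (@T16.mk En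
    (@En.n l5617 (nat_lit 2227) (nat_lit 8) (nat_lit 5))
    (@En.i (nat_lit 3777) (nat_lit 1) (nat_lit 14))
    (@En.n l5782 (nat_lit 599) (nat_lit 2) (nat_lit 10))
    (@En.n l936 (nat_lit 2254) (nat_lit 3) (nat_lit 3))
    (@En.n l5621 (nat_lit 3516) (nat_lit 4) (nat_lit 10))
    (@En.n l936 (nat_lit 4378) (nat_lit 14) (nat_lit 11))
    (@En.i (nat_lit 2289) (nat_lit 7) (nat_lit 13))
    (@En.n l17 (nat_lit 2293) (nat_lit 7) (nat_lit 2))
    (@En.i (nat_lit 2286) (nat_lit 8) (nat_lit 3))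
    (@En.i (nat_lit 13922) (nat_lit 0) (nat_lit 14))
    (@En.i (nat_lit 2292) (nat_lit 10) (nat_lit 3))
    (@En.n l614 (nat_lit 2307) (nat_lit 12) (nat_lit 13))
    (@En.i (nat_lit 2294) (nat_lit 13) (nat_lit 6))
    (@En.n l2004 (nat_lit 12657) (nat_lit 14) (nat_lit 13))
    (@En.n l5783 (nat_lit 2371) (nat_lit 6) (nat_lit 6))
    (@En.n l11 (nat_lit 2293) (nat_lit 15) (nat_lit 2))))
  (@Cl.mk (nat_lit 0x200070006000d0007000e00030002000d000a00090003000a0009000e0006) (nat_lit 0x6070090003230) (nat_lit 16) Lb.e (@T16.mk En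
    (@En.n l5617 (nat_lit 2297) (nat_lit 7) (nat_lit 6))
    (@En.n l14405 (nat_lit 6426) (nat_lit 1) (nat_lit 14))
    (@En.n l644 (nat_lit 2292) (nat_lit 2) (nat_lit 9))
    (@En.n l5782 (nat_lit 668) (nat_lit 3) (nat_lit 10))
    (@En.n l936 (nat_lit 2296) (nat_lit 4) (nat_lit 3))
    (@En.n l5621 (nat_lit 3524) (nat_lit 5) (nat_lit 9))
    (@En.n l936 (nat_lit 4192) (nat_lit 14) (nat_lit 10))
    (@En.i (nat_lit 2588) (nat_lit 8) (nat_lit 13))
    (@En.n l17 (nat_lit 2294) (nat_lit 8) (nat_lit 2))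
    (@En.i (nat_lit 2295) (nat_lit 9) (nat_lit 3))
    (@En.n l13791 (nat_lit 13541) (nat_lit 0) (nat_lit 14))
    (@En.i (nat_lit 1527) (nat_lit 12) (nat_lit 7))
    (@En.n l564 (nat_lit 2289) (nat_lit 13) (nat_lit 13))
    (@En.n l2491 (nat_lit 6262) (nat_lit 14) (nat_lit 6))
    (@En.n l5783 (nat_lit 2304) (nat_lit 5) (nat_lit 7))
    (@En.n l11 (nat_lit 2294) (nat_lit 15) (nat_lit 2))))
  (@Cl.mk (nat_lit 0x200070006000d000d000800030003000d000a00090003000a0008000e0006) (nat_lit 0x3710090001230) (nat_lit 16) Lb.e (@T16.mk En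
    (@En.n l5617 (nat_lit 2301) (nat_lit 6) (nat_lit 6))
    (@En.n l14405 (nat_lit 6427) (nat_lit 1) (nat_lit 14))
    (@En.i (nat_lit 2281) (nat_lit 2) (nat_lit 8))
    (@En.n l5809 (nat_lit 440) (nat_lit 3) (nat_lit 10))
    (@En.n l936 (nat_lit 2298) (nat_lit 4) (nat_lit 3))
    (@En.n l14406 (nat_lit 3224) (nat_lit 5) (nat_lit 9))
    (@En.n l936 (nat_lit 4191) (nat_lit 13) (nat_lit 10))
    (@En.n l2772 (nat_lit 2589) (nat_lit 8) (nat_lit 13))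
    (@En.n l3276 (nat_lit 2348) (nat_lit 8) (nat_lit 3))
    (@En.n l18 (nat_lit 2294) (nat_lit 9) (nat_lit 3))
    (@En.n l8354 (nat_lit 1521) (nat_lit 11) (nat_lit 8))
    (@En.n l61 (nat_lit 2294) (nat_lit 12) (nat_lit 13))
    (@En.n l564 (nat_lit 2290) (nat_lit 13) (nat_lit 13))
    (@En.n l14407 (nat_lit 6261) (nat_lit 14) (nat_lit 6))
    (@En.n l5662 (nat_lit 2334) (nat_lit 4) (nat_lit 7))
    (@En.n l11 (nat_lit 2295) (nat_lit 15) (nat_lit 2))))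
  (@Cl.mk (nat_lit 0x200080006000d0007000e00030002000d0008000b0003000a0009000e0005) (nat_lit 0x3070095002250) (nat_lit 16) Lb.e (@T16.mk En
    (@En.n l5152 (nat_lit 2299) (nat_lit 7) (nat_lit 5))
    (@En.n l5928 (nat_lit 6424) (nat_lit 1) (nat_lit 14))
    (@En.n l644 (nat_lit 2252) (nat_lit 2) (nat_lit 9))
    (@En.i (nat_lit 824) (nat_lit 11) (nat_lit 10))
    (@En.n l2576 (nat_lit 2294) (nat_lit 4) (nat_lit 3))
    (@En.i (nat_lit 3525) (nat_lit 7) (nat_lit 11))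
    (@En.i (nat_lit 1969) (nat_lit 6) (nat_lit 8))
    (@En.i (nat_lit 2582) (nat_lit 8) (nat_lit 13))
    (@En.n l17 (nat_lit 2296) (nat_lit 8) (nat_lit 2))
    (@En.i (nat_lit 2298) (nat_lit 9) (nat_lit 3))
    (@En.i (nat_lit 13539) (nat_lit 0) (nat_lit 14))
    (@En.i (nat_lit 1528) (nat_lit 12) (nat_lit 7))
    (@En.n l564 (nat_lit 2578) (nat_lit 13) (nat_lit 13))
    (@En.n l7471 (nat_lit 6265) (nat_lit 14) (nat_lit 6))
    (@En.n l5154 (nat_lit 2299) (nat_lit 5) (nat_lit 8))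
    (@En.n l11 (nat_lit 2296) (nat_lit 15) (nat_lit 2))))
  (@Cl.mk (nat_lit 0x2000c000a000a000a0004000b000a0006000600060005000d0006000e0003) (nat_lit 0x661005200005060) (nat_lit 16) Lb.e (@T16.mk En
    (@En.i (nat_lit 2301) (nat_lit 15) (nat_lit 3))
    (@En.n l1442 (nat_lit 13538) (nat_lit 0) (nat_lit 14))
    (@En.n l7 (nat_lit 1533) (nat_lit 2) (nat_lit 6))
    (@En.n l14104 (nat_lit 2228) (nat_lit 2) (nat_lit 13))
    (@En.n l15598 (nat_lit 6267) (nat_lit 4) (nat_lit 5))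
    (@En.n l180 (nat_lit 2341) (nat_lit 10) (nat_lit 6))
    (@En.n l527 (nat_lit 2357) (nat_lit 10) (nat_lit 6))
    (@En.n l24624 (nat_lit 6162) (nat_lit 7) (nat_lit 6))
    (@En.n l644 (nat_lit 2225) (nat_lit 9) (nat_lit 10))
    (@En.n l3303 (nat_lit 436) (nat_lit 10) (nat_lit 11))
    (@En.n l159 (nat_lit 2299) (nat_lit 10) (nat_lit 4))
    (@En.n l5634 (nat_lit 2302) (nat_lit 6) (nat_lit 10))
    (@En.n l5635 (nat_lit 2294) (nat_lit 6) (nat_lit 10))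
    (@En.n l5706 (nat_lit 2362) (nat_lit 14) (nat_lit 10))
    (@En.n l5706 (nat_lit 2506) (nat_lit 14) (nat_lit 12))
    (@En.n l17 (nat_lit 2297) (nat_lit 15) (nat_lit 2))))
  (@Cl.mk (nat_lit 0x200080006000d000d000800030003000d0008000b0003000a0008000e0005) (nat_lit 0x6410084002250) (nat_lit 16) Lb.e (@T16.mk En
    (@En.n l5152 (nat_lit 2300) (nat_lit 6) (nat_lit 5))
    (@En.n l5928 (nat_lit 6425) (nat_lit 1) (nat_lit 14))
    (@En.i (nat_lit 2251) (nat_lit 2) (nat_lit 8))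
    (@En.n l7915 (nat_lit 823) (nat_lit 3) (nat_lit 10))
    (@En.n l2576 (nat_lit 2295) (nat_lit 4) (nat_lit 3))
    (@En.i (nat_lit 3228) (nat_lit 7) (nat_lit 11))
    (@En.i (nat_lit 2068) (nat_lit 6) (nat_lit 8))
    (@En.i (nat_lit 2584) (nat_lit 8) (nat_lit 13))
    (@En.n l5808 (nat_lit 2349) (nat_lit 8) (nat_lit 3))
    (@En.n l18 (nat_lit 2296) (nat_lit 9) (nat_lit 3))
    (@En.i (nat_lit 1517) (nat_lit 11) (nat_lit 8))
    (@En.n l61 (nat_lit 2296) (nat_lit 12) (nat_lit 13))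
    (@En.n l564 (nat_lit 2580) (nat_lit 13) (nat_lit 13))
    (@En.n l892 (nat_lit 6264) (nat_lit 14) (nat_lit 6))
    (@En.n l5154 (nat_lit 2300) (nat_lit 4) (nat_lit 8))
    (@En.n l11 (nat_lit 2298) (nat_lit 15) (nat_lit 2))))
  (@Cl.mk (nat_lit 0x2000c0008000b000b0004000b000a0005000500080005000d0006000e0003) (nat_lit 0x957102200606060) (nat_lit 16) Lb.e (@T16.mk En
    (@En.i (nat_lit 2300) (nat_lit 15) (nat_lit 3))
    (@En.n l12512 (nat_lit 13535) (nat_lit 0) (nat_lit 14))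
    (@En.n l7 (nat_lit 1531) (nat_lit 2) (nat_lit 6))
    (@En.n l22666 (nat_lit 2573) (nat_lit 2) (nat_lit 13))
    (@En.n l40234 (nat_lit 5938) (nat_lit 4) (nat_lit 5))
    (@En.n l107 (nat_lit 2356) (nat_lit 10) (nat_lit 8))
    (@En.n l575 (nat_lit 2356) (nat_lit 11) (nat_lit 5))
    (@En.n l22853 (nat_lit 6110) (nat_lit 7) (nat_lit 5))
    (@En.n l644 (nat_lit 2192) (nat_lit 9) (nat_lit 10))
    (@En.n l1643 (nat_lit 822) (nat_lit 10) (nat_lit 11))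
    (@En.i (nat_lit 2304) (nat_lit 10) (nat_lit 4))
    (@En.n l7771 (nat_lit 2296) (nat_lit 5) (nat_lit 11))
    (@En.n l3839 (nat_lit 2302) (nat_lit 7) (nat_lit 11))
    (@En.n l619 (nat_lit 1966) (nat_lit 14) (nat_lit 8))
    (@En.n l3839 (nat_lit 1755) (nat_lit 14) (nat_lit 12))
    (@En.n l17 (nat_lit 2299) (nat_lit 15) (nat_lit 2))))
  (@Cl.mk (nat_lit 0x30003000c0008000b000b0004000b00090005000500080005000d000d0007) (nat_lit 0x94710320060670) (nat_lit 16) Lb.e (@T16.mk En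
    (@En.n l27929 (nat_lit 1518) (nat_lit 0) (nat_lit 7))
    (@En.n l61 (nat_lit 2299) (nat_lit 3) (nat_lit 13))
    (@En.n l22666 (nat_lit 2577) (nat_lit 2) (nat_lit 13))
    (@En.n l27930 (nat_lit 5936) (nat_lit 3) (nat_lit 5))
    (@En.n l107 (nat_lit 2354) (nat_lit 10) (nat_lit 8))
    (@En.n l575 (nat_lit 2354) (nat_lit 11) (nat_lit 5))
    (@En.n l27931 (nat_lit 6111) (nat_lit 6) (nat_lit 5))
    (@En.i (nat_lit 2189) (nat_lit 7) (nat_lit 9))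
    (@En.n l1643 (nat_lit 736) (nat_lit 9) (nat_lit 11))
    (@En.n l117 (nat_lit 2334) (nat_lit 9) (nat_lit 4))
    (@En.n l7771 (nat_lit 2298) (nat_lit 5) (nat_lit 11))
    (@En.n l3839 (nat_lit 2303) (nat_lit 7) (nat_lit 11))
    (@En.n l619 (nat_lit 1965) (nat_lit 13) (nat_lit 8))
    (@En.n l22020 (nat_lit 1751) (nat_lit 14) (nat_lit 12))
    (@En.n l27932 (nat_lit 2350) (nat_lit 13) (nat_lit 3))
    (@En.n l18 (nat_lit 2299) (nat_lit 0) (nat_lit 3))))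
  (@Cl.mk (nat_lit 0x30003000c000a000a000a0004000b00090006000600060005000d000d0007) (nat_lit 0x66100520000460) (nat_lit 16) Lb.e (@T16.mk En
    (@En.n l8021 (nat_lit 1520) (nat_lit 0) (nat_lit 7))
    (@En.n l61 (nat_lit 2297) (nat_lit 3) (nat_lit 13))
    (@En.n l14104 (nat_lit 2504) (nat_lit 2) (nat_lit 13))
    (@En.n l14105 (nat_lit 5944) (nat_lit 3) (nat_lit 5))
    (@En.n l5632 (nat_lit 2338) (nat_lit 10) (nat_lit 6))
    (@En.n l527 (nat_lit 2355) (nat_lit 10) (nat_lit 6))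
    (@En.n l14106 (nat_lit 6159) (nat_lit 6) (nat_lit 6))
    (@En.i (nat_lit 2224) (nat_lit 7) (nat_lit 9))
    (@En.n l3303 (nat_lit 435) (nat_lit 9) (nat_lit 11))
    (@En.n l159 (nat_lit 2300) (nat_lit 9) (nat_lit 4))
    (@En.n l5634 (nat_lit 2303) (nat_lit 6) (nat_lit 10))
    (@En.n l5635 (nat_lit 2295) (nat_lit 6) (nat_lit 10))
    (@En.n l14107 (nat_lit 2347) (nat_lit 13) (nat_lit 10))
    (@En.n l5706 (nat_lit 2508) (nat_lit 14) (nat_lit 12))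
    (@En.n l12839 (nat_lit 2342) (nat_lit 13) (nat_lit 3))
    (@En.n l18 (nat_lit 2297) (nat_lit 0) (nat_lit 3))))
  (@Cl.mk (nat_lit 0x20006000d0007000e00030002000d000b000a0003000a00090005000e0006) (nat_lit 0x60800668012060) (nat_lit 16) Lb.e (@T16.mk En
    (@En.n l5617 (nat_lit 2297) (nat_lit 6) (nat_lit 6))
    (@En.n l1578 (nat_lit 2296) (nat_lit 1) (nat_lit 14))
    (@En.n l9600 (nat_lit 6203) (nat_lit 2) (nat_lit 5))
    (@En.n l644 (nat_lit 2376) (nat_lit 3) (nat_lit 9))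
    (@En.n l2381 (nat_lit 433) (nat_lit 4) (nat_lit 10))
    (@En.i (nat_lit 2367) (nat_lit 5) (nat_lit 3))
    (@En.n l575 (nat_lit 3229) (nat_lit 0) (nat_lit 10))
    (@En.i (nat_lit 2364) (nat_lit 8) (nat_lit 11))
    (@En.i (nat_lit 2603) (nat_lit 9) (nat_lit 13))
    (@En.n l17 (nat_lit 2302) (nat_lit 9) (nat_lit 2))
    (@En.i (nat_lit 2303) (nat_lit 10) (nat_lit 3))
    (@En.i (nat_lit 13540) (nat_lit 0) (nat_lit 14))
    (@En.i (nat_lit 1535) (nat_lit 13) (nat_lit 7))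
    (@En.n l564 (nat_lit 2388) (nat_lit 14) (nat_lit 13))
    (@En.n l3100 (nat_lit 6235) (nat_lit 4) (nat_lit 6))
    (@En.n l28 (nat_lit 2302) (nat_lit 15) (nat_lit 2))))
  (@Cl.mk (nat_lit 0x20006000d000d000800030003000d000b000a0003000a00080005000e0006) (nat_lit 0x67300668042060) (nat_lit 16) Lb.e (@T16.mk En
    (@En.n l5617 (nat_lit 2301) (nat_lit 5) (nat_lit 6))
    (@En.n l1578 (nat_lit 2298) (nat_lit 1) (nat_lit 14))
    (@En.n l2477 (nat_lit 6200) (nat_lit 2) (nat_lit 5))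
    (@En.i (nat_lit 2378) (nat_lit 3) (nat_lit 8))
    (@En.n l7916 (nat_lit 432) (nat_lit 4) (nat_lit 10))
    (@En.n l2477 (nat_lit 2305) (nat_lit 5) (nat_lit 3))
    (@En.n l575 (nat_lit 3226) (nat_lit 0) (nat_lit 10))
    (@En.i (nat_lit 2363) (nat_lit 8) (nat_lit 11))
    (@En.i (nat_lit 2605) (nat_lit 9) (nat_lit 13))
    (@En.n l2478 (nat_lit 2351) (nat_lit 9) (nat_lit 3))
    (@En.n l18 (nat_lit 2302) (nat_lit 10) (nat_lit 3))
    (@En.i (nat_lit 1761) (nat_lit 12) (nat_lit 8))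
    (@En.n l61 (nat_lit 2302) (nat_lit 13) (nat_lit 13))
    (@En.n l564 (nat_lit 2600) (nat_lit 14) (nat_lit 13))
    (@En.n l892 (nat_lit 6077) (nat_lit 3) (nat_lit 6))
    (@En.n l28 (nat_lit 2303) (nat_lit 15) (nat_lit 2))))
noncomputable def a144 : T16 Cl := @T16.mk Cl
  (@Cl.mk (nat_lit 0x2000c00090009000c0004000b000a0004000700070005000d0006000e0003) (nat_lit 0x600005200005060) (nat_lit 16) Lb.e (@T16.mk En
    (@En.n l117 (nat_lit 2334) (nat_lit 15) (nat_lit 3))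
    (@En.n l1758 (nat_lit 13542) (nat_lit 0) (nat_lit 14))
    (@En.n l3834 (nat_lit 1506) (nat_lit 2) (nat_lit 6))
    (@En.n l564 (nat_lit 2614) (nat_lit 2) (nat_lit 13))
    (@En.n l23386 (nat_lit 6331) (nat_lit 4) (nat_lit 5))
    (@En.n l107 (nat_lit 2335) (nat_lit 5) (nat_lit 7))
    (@En.n l7163 (nat_lit 2341) (nat_lit 11) (nat_lit 7))
    (@En.i (nat_lit 1173) (nat_lit 7) (nat_lit 4))
    (@En.n l644 (nat_lit 2243) (nat_lit 9) (nat_lit 10))
    (@En.n l21719 (nat_lit 488) (nat_lit 10) (nat_lit 11))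
    (@En.n l7164 (nat_lit 2297) (nat_lit 10) (nat_lit 4))
    (@En.n l3839 (nat_lit 2367) (nat_lit 6) (nat_lit 12))
    (@En.n l2535 (nat_lit 2367) (nat_lit 7) (nat_lit 9))
    (@En.i (nat_lit 4190) (nat_lit 14) (nat_lit 9))
    (@En.i (nat_lit 2611) (nat_lit 14) (nat_lit 12))
    (@En.n l17 (nat_lit 2304) (nat_lit 15) (nat_lit 2))))
  (@Cl.mk (nat_lit 0x20006000d000d000800030003000d0009000c0003000a00080004000e0007) (nat_lit 0x57200600043040) (nat_lit 16) Lb.e (@T16.mk En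
    (@En.n l7313 (nat_lit 2334) (nat_lit 5) (nat_lit 7))
    (@En.n l2437 (nat_lit 2295) (nat_lit 1) (nat_lit 14))
    (@En.i (nat_lit 1172) (nat_lit 2) (nat_lit 4))
    (@En.n l3165 (nat_lit 2241) (nat_lit 3) (nat_lit 8))
    (@En.n l3677 (nat_lit 486) (nat_lit 4) (nat_lit 10))
    (@En.n l7314 (nat_lit 2303) (nat_lit 5) (nat_lit 3))
    (@En.i (nat_lit 14027) (nat_lit 6) (nat_lit 12))
    (@En.n l3677 (nat_lit 4187) (nat_lit 13) (nat_lit 9))
    (@En.n l476 (nat_lit 2608) (nat_lit 9) (nat_lit 13))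
    (@En.n l152 (nat_lit 2343) (nat_lit 9) (nat_lit 3))
    (@En.n l7315 (nat_lit 2367) (nat_lit 10) (nat_lit 3))
    (@En.n l97 (nat_lit 1765) (nat_lit 12) (nat_lit 8))
    (@En.n l7316 (nat_lit 2367) (nat_lit 13) (nat_lit 13))
    (@En.n l7317 (nat_lit 2441) (nat_lit 14) (nat_lit 13))
    (@En.i (nat_lit 6326) (nat_lit 3) (nat_lit 6))
    (@En.n l17 (nat_lit 2305) (nat_lit 15) (nat_lit 2))))
  (@Cl.mk (nat_lit 0x20006000e000c0002000d000900040003000d000b000a00030007000e0005) (nat_lit 0xc6024007800030) (nat_lit 16) Lb.e (@T16.mk En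
    (@En.n l1983 (nat_lit 2223) (nat_lit 4) (nat_lit 5))
    (@En.n l1984 (nat_lit 3804) (nat_lit 1) (nat_lit 14))
    (@En.n l1985 (nat_lit 1082) (nat_lit 2) (nat_lit 7))
    (@En.n l1986 (nat_lit 2250) (nat_lit 3) (nat_lit 3))
    (@En.n l619 (nat_lit 3553) (nat_lit 4) (nat_lit 10))
    (@En.n l1986 (nat_lit 4381) (nat_lit 10) (nat_lit 11))
    (@En.n l1987 (nat_lit 2057) (nat_lit 7) (nat_lit 13))
    (@En.n l18 (nat_lit 2307) (nat_lit 7) (nat_lit 3))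
    (@En.n l1984 (nat_lit 2292) (nat_lit 8) (nat_lit 4))
    (@En.n l61 (nat_lit 2308) (nat_lit 10) (nat_lit 9))
    (@En.n l1988 (nat_lit 794) (nat_lit 11) (nat_lit 13))
    (@En.n l7 (nat_lit 2306) (nat_lit 11) (nat_lit 2))
    (@En.n l1989 (nat_lit 2281) (nat_lit 13) (nat_lit 12))
    (@En.n l226 (nat_lit 6375) (nat_lit 1) (nat_lit 14))
    (@En.n l1990 (nat_lit 2206) (nat_lit 2) (nat_lit 6))
    (@En.n l476 (nat_lit 2306) (nat_lit 15) (nat_lit 2))))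
  (@Cl.mk (nat_lit 0x20006000e000d0002000d0003000a0003000d000b000a00030006000e0005) (nat_lit 0xa5040408800030) (nat_lit 16) Lb.e (@T16.mk En
    (@En.n l187 (nat_lit 2222) (nat_lit 4) (nat_lit 5))
    (@En.n l2009 (nat_lit 3805) (nat_lit 1) (nat_lit 14))
    (@En.n l3531 (nat_lit 1149) (nat_lit 2) (nat_lit 6))
    (@En.n l1106 (nat_lit 1854) (nat_lit 3) (nat_lit 3))
    (@En.n l619 (nat_lit 3554) (nat_lit 0) (nat_lit 10))
    (@En.n l1106 (nat_lit 4383) (nat_lit 10) (nat_lit 11))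
    (@En.i (nat_lit 2308) (nat_lit 7) (nat_lit 13))
    (@En.i (nat_lit 2306) (nat_lit 7) (nat_lit 3))
    (@En.i (nat_lit 4979) (nat_lit 9) (nat_lit 10))
    (@En.i (nat_lit 2282) (nat_lit 9) (nat_lit 3))
    (@En.n l226 (nat_lit 793) (nat_lit 11) (nat_lit 13))
    (@En.n l7 (nat_lit 2307) (nat_lit 11) (nat_lit 2))
    (@En.n l601 (nat_lit 2282) (nat_lit 13) (nat_lit 13))
    (@En.n l226 (nat_lit 6374) (nat_lit 1) (nat_lit 14))
    (@En.n l5781 (nat_lit 2202) (nat_lit 2) (nat_lit 6))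
    (@En.n l476 (nat_lit 2307) (nat_lit 15) (nat_lit 2))))
  (@Cl.mk (nat_lit 0x20007000e000d000200090003000a000d000a0009000300070006000e0006) (nat_lit 0x46030578000040) (nat_lit 16) Lb.e (@T16.mk En
    (@En.n l187 (nat_lit 2151) (nat_lit 4) (nat_lit 6))
    (@En.n l2009 (nat_lit 7071) (nat_lit 6) (nat_lit 14))
    (@En.n l17 (nat_lit 2307) (nat_lit 2) (nat_lit 6))
    (@En.n l2299 (nat_lit 2309) (nat_lit 3) (nat_lit 7))
    (@En.n l1106 (nat_lit 1845) (nat_lit 4) (nat_lit 3))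
    (@En.n l5799 (nat_lit 3556) (nat_lit 0) (nat_lit 9))
    (@En.n l5800 (nat_lit 4584) (nat_lit 11) (nat_lit 10))
    (@En.n l1987 (nat_lit 2049) (nat_lit 8) (nat_lit 13))
    (@En.i (nat_lit 4947) (nat_lit 9) (nat_lit 10))
    (@En.i (nat_lit 2284) (nat_lit 9) (nat_lit 3))
    (@En.n l2299 (nat_lit 1714) (nat_lit 11) (nat_lit 9))
    (@En.n l7 (nat_lit 2308) (nat_lit 11) (nat_lit 2))
    (@En.n l601 (nat_lit 2284) (nat_lit 13) (nat_lit 13))
    (@En.n l226 (nat_lit 6376) (nat_lit 1) (nat_lit 14))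
    (@En.n l5781 (nat_lit 2197) (nat_lit 2) (nat_lit 7))
    (@En.n l476 (nat_lit 2308) (nat_lit 15) (nat_lit 2))))
  (@Cl.mk (nat_lit 0x20006000e000c00020009000d0004000b0003000b000a00070005000e0005) (nat_lit 0x90075000000000) (nat_lit 16) Lb.e (@T16.mk En
    (@En.n l6979 (nat_lit 2312) (nat_lit 4) (nat_lit 5))
    (@En.n l4356 (nat_lit 8914) (nat_lit 1) (nat_lit 14))
    (@En.n l12554 (nat_lit 1153) (nat_lit 2) (nat_lit 5))
    (@En.n l61 (nat_lit 8581) (nat_lit 7) (nat_lit 7))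
    (@En.n l1545 (nat_lit 7323) (nat_lit 4) (nat_lit 10))
    (@En.n l4343 (nat_lit 9156) (nat_lit 10) (nat_lit 11))
    (@En.i (nat_lit 2310) (nat_lit 6) (nat_lit 3))
    (@En.n l4353 (nat_lit 5725) (nat_lit 8) (nat_lit 11))
    (@En.n l117 (nat_lit 2315) (nat_lit 8) (nat_lit 4))
    (@En.n l5560 (nat_lit 2307) (nat_lit 10) (nat_lit 13))
    (@En.i (nat_lit 2595) (nat_lit 11) (nat_lit 9))
    (@En.n l3 (nat_lit 2309) (nat_lit 11) (nat_lit 2))
    (@En.i (nat_lit 2311) (nat_lit 13) (nat_lit 12))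
    (@En.n l4793 (nat_lit 10122) (nat_lit 1) (nat_lit 14))
    (@En.i (nat_lit 6748) (nat_lit 2) (nat_lit 6))
    (@En.n l50 (nat_lit 2309) (nat_lit 15) (nat_lit 2))))
  (@Cl.mk (nat_lit 0x20006000e000b00020009000d000a00050003000b000a00070006000e0005) (nat_lit 0xb0073500000000) (nat_lit 16) Lb.e (@T16.mk En
    (@En.n l6979 (nat_lit 2313) (nat_lit 4) (nat_lit 5))
    (@En.n l2354 (nat_lit 8915) (nat_lit 1) (nat_lit 14))
    (@En.n l7793 (nat_lit 1081) (nat_lit 2) (nat_lit 6))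
    (@En.n l7794 (nat_lit 8582) (nat_lit 7) (nat_lit 7))
    (@En.n l1545 (nat_lit 7348) (nat_lit 4) (nat_lit 10))
    (@En.n l4543 (nat_lit 9831) (nat_lit 10) (nat_lit 11))
    (@En.n l11 (nat_lit 2309) (nat_lit 6) (nat_lit 3))
    (@En.n l2354 (nat_lit 6872) (nat_lit 7) (nat_lit 5))
    (@En.n l4543 (nat_lit 2319) (nat_lit 9) (nat_lit 10))
    (@En.n l5560 (nat_lit 2306) (nat_lit 10) (nat_lit 13))
    (@En.i (nat_lit 2591) (nat_lit 11) (nat_lit 9))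
    (@En.n l3 (nat_lit 2310) (nat_lit 11) (nat_lit 2))
    (@En.i (nat_lit 2314) (nat_lit 13) (nat_lit 11))
    (@En.n l1029 (nat_lit 10129) (nat_lit 1) (nat_lit 14))
    (@En.n l7795 (nat_lit 6752) (nat_lit 2) (nat_lit 6))
    (@En.n l50 (nat_lit 2310) (nat_lit 15) (nat_lit 2))))
  (@Cl.mk (nat_lit 0x20006000c000c0008000c00040004000b0004000b000a00080005000e0005) (nat_lit 0xa0480000005000) (nat_lit 16) Lb.e (@T16.mk En
    (@En.i (nat_lit 2316) (nat_lit 6) (nat_lit 5))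
    (@En.n l27755 (nat_lit 8916) (nat_lit 1) (nat_lit 14))
    (@En.n l10928 (nat_lit 1155) (nat_lit 2) (nat_lit 5))
    (@En.n l9274 (nat_lit 8372) (nat_lit 3) (nat_lit 8))
    (@En.n l1545 (nat_lit 7320) (nat_lit 4) (nat_lit 10))
    (@En.n l9274 (nat_lit 8731) (nat_lit 6) (nat_lit 11))
    (@En.i (nat_lit 2314) (nat_lit 6) (nat_lit 4))
    (@En.n l3819 (nat_lit 6881) (nat_lit 8) (nat_lit 11))
    (@En.n l152 (nat_lit 2309) (nat_lit 8) (nat_lit 4))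
    (@En.n l18589 (nat_lit 6663) (nat_lit 9) (nat_lit 4))
    (@En.n l16900 (nat_lit 2282) (nat_lit 11) (nat_lit 12))
    (@En.n l27756 (nat_lit 7040) (nat_lit 12) (nat_lit 8))
    (@En.n l3536 (nat_lit 6886) (nat_lit 13) (nat_lit 12))
    (@En.n l16721 (nat_lit 9781) (nat_lit 14) (nat_lit 12))
    (@En.i (nat_lit 6745) (nat_lit 13) (nat_lit 6))
    (@En.n l50 (nat_lit 2311) (nat_lit 15) (nat_lit 2))))
  (@Cl.mk (nat_lit 0x20008000d0004000a0003000b000b000b00080006000500050005000e000c) (nat_lit 0x630000105000090) (nat_lit 16) Lb.e (@T16.mk En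
    (@En.n l3230 (nat_lit 2316) (nat_lit 3) (nat_lit 12))
    (@En.n l6482 (nat_lit 10126) (nat_lit 1) (nat_lit 14))
    (@En.n l2172 (nat_lit 6997) (nat_lit 2) (nat_lit 5))
    (@En.n l77 (nat_lit 7918) (nat_lit 3) (nat_lit 5))
    (@En.i (nat_lit 8634) (nat_lit 4) (nat_lit 5))
    (@En.n l4855 (nat_lit 1157) (nat_lit 5) (nat_lit 6))
    (@En.n l742 (nat_lit 8526) (nat_lit 6) (nat_lit 8))
    (@En.n l396 (nat_lit 7767) (nat_lit 8) (nat_lit 11))
    (@En.n l6367 (nat_lit 2309) (nat_lit 5) (nat_lit 11))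
    (@En.n l28 (nat_lit 8957) (nat_lit 10) (nat_lit 11))
    (@En.i (nat_lit 2313) (nat_lit 10) (nat_lit 3))
    (@En.n l6478 (nat_lit 5727) (nat_lit 12) (nat_lit 10))
    (@En.n l117 (nat_lit 2317) (nat_lit 13) (nat_lit 4))
    (@En.n l4808 (nat_lit 2222) (nat_lit 14) (nat_lit 13))
    (@En.i (nat_lit 2598) (nat_lit 1) (nat_lit 8))
    (@En.n l3 (nat_lit 2312) (nat_lit 15) (nat_lit 2))))
  (@Cl.mk (nat_lit 0x20008000d000900050003000b000b000b00080007000500050005000e000b) (nat_lit 0x6250001040000b0) (nat_lit 16) Lb.e (@T16.mk En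
    (@En.n l7923 (nat_lit 2318) (nat_lit 6) (nat_lit 11))
    (@En.n l7924 (nat_lit 10130) (nat_lit 1) (nat_lit 14))
    (@En.n l2172 (nat_lit 6998) (nat_lit 2) (nat_lit 5))
    (@En.n l77 (nat_lit 7919) (nat_lit 3) (nat_lit 5))
    (@En.i (nat_lit 7345) (nat_lit 4) (nat_lit 5))
    (@En.n l4912 (nat_lit 1087) (nat_lit 5) (nat_lit 7))
    (@En.n l742 (nat_lit 8478) (nat_lit 6) (nat_lit 8))
    (@En.n l396 (nat_lit 7344) (nat_lit 8) (nat_lit 11))
    (@En.n l6367 (nat_lit 2310) (nat_lit 5) (nat_lit 11))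
    (@En.n l7925 (nat_lit 9261) (nat_lit 10) (nat_lit 11))
    (@En.n l11 (nat_lit 2312) (nat_lit 10) (nat_lit 3))
    (@En.n l6384 (nat_lit 6874) (nat_lit 0) (nat_lit 5))
    (@En.i (nat_lit 2917) (nat_lit 13) (nat_lit 9))
    (@En.n l7926 (nat_lit 2223) (nat_lit 14) (nat_lit 13))
    (@En.i (nat_lit 2596) (nat_lit 3) (nat_lit 8))
    (@En.n l3 (nat_lit 2313) (nat_lit 15) (nat_lit 2))))
  (@Cl.mk (nat_lit 0x20006000b000b0008000c0009000500050004000b000a00080007000e0005) (nat_lit 0x90484000003000) (nat_lit 16) Lb.e (@T16.mk En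
    (@En.n l15266 (nat_lit 2318) (nat_lit 9) (nat_lit 5))
    (@En.n l15267 (nat_lit 8918) (nat_lit 1) (nat_lit 14))
    (@En.n l15268 (nat_lit 1078) (nat_lit 2) (nat_lit 7))
    (@En.n l7794 (nat_lit 8586) (nat_lit 3) (nat_lit 8))
    (@En.n l8027 (nat_lit 7324) (nat_lit 4) (nat_lit 10))
    (@En.n l4543 (nat_lit 9412) (nat_lit 6) (nat_lit 11))
    (@En.n l3535 (nat_lit 7043) (nat_lit 6) (nat_lit 4))
    (@En.n l152 (nat_lit 2310) (nat_lit 7) (nat_lit 5))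
    (@En.n l15267 (nat_lit 6879) (nat_lit 8) (nat_lit 5))
    (@En.n l4543 (nat_lit 2925) (nat_lit 10) (nat_lit 9))
    (@En.n l15267 (nat_lit 2281) (nat_lit 11) (nat_lit 12))
    (@En.n l9775 (nat_lit 2592) (nat_lit 12) (nat_lit 8))
    (@En.n l3536 (nat_lit 6885) (nat_lit 5) (nat_lit 11))
    (@En.n l15269 (nat_lit 11049) (nat_lit 14) (nat_lit 11))
    (@En.n l15270 (nat_lit 6755) (nat_lit 13) (nat_lit 6))
    (@En.n l50 (nat_lit 2314) (nat_lit 15) (nat_lit 2))))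
  (@Cl.mk (nat_lit 0x20006000d000c000b0003000a0004000b0005000b000a00060005000e0005) (nat_lit 0x90100000000000) (nat_lit 16) Lb.e (@T16.mk En
    (@En.n l6979 (nat_lit 2317) (nat_lit 5) (nat_lit 5))
    (@En.n l6319 (nat_lit 8917) (nat_lit 1) (nat_lit 14))
    (@En.n l10633 (nat_lit 3850) (nat_lit 2) (nat_lit 5))
    (@En.n l28259 (nat_lit 8584) (nat_lit 3) (nat_lit 6))
    (@En.n l1545 (nat_lit 7325) (nat_lit 4) (nat_lit 10))
    (@En.n l27765 (nat_lit 9398) (nat_lit 6) (nat_lit 11))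
    (@En.i (nat_lit 6671) (nat_lit 6) (nat_lit 5))
    (@En.n l21256 (nat_lit 5175) (nat_lit 8) (nat_lit 11))
    (@En.i (nat_lit 2311) (nat_lit 8) (nat_lit 4))
    (@En.i (nat_lit 2599) (nat_lit 10) (nat_lit 10))
    (@En.n l18589 (nat_lit 6665) (nat_lit 10) (nat_lit 3))
    (@En.n l619 (nat_lit 2310) (nat_lit 12) (nat_lit 11))
    (@En.n l28557 (nat_lit 6663) (nat_lit 13) (nat_lit 12))
    (@En.n l16721 (nat_lit 10881) (nat_lit 14) (nat_lit 13))
    (@En.n l28558 (nat_lit 6734) (nat_lit 13) (nat_lit 6))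
    (@En.n l50 (nat_lit 2315) (nat_lit 15) (nat_lit 2))))
  (@Cl.mk (nat_lit 0x40004000a0004000b000b000b00090006000500050005000c000c0007000c) (nat_lit 0x1050000a004) (nat_lit 16) Lb.e (@T16.mk En
    (@En.n l27497 (nat_lit 2146) (nat_lit 0) (nat_lit 12))
    (@En.n l27498 (nat_lit 6039) (nat_lit 1) (nat_lit 7))
    (@En.n l27499 (nat_lit 6888) (nat_lit 4) (nat_lit 12))
    (@En.n l16721 (nat_lit 10857) (nat_lit 3) (nat_lit 12))
    (@En.n l14243 (nat_lit 6996) (nat_lit 11) (nat_lit 5))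
    (@En.n l1337 (nat_lit 7916) (nat_lit 11) (nat_lit 5))
    (@En.n l6979 (nat_lit 8318) (nat_lit 11) (nat_lit 5))
    (@En.n l8811 (nat_lit 2724) (nat_lit 0) (nat_lit 6))
    (@En.i (nat_lit 8374) (nat_lit 1) (nat_lit 9))
    (@En.n l217 (nat_lit 7766) (nat_lit 5) (nat_lit 11))
    (@En.n l644 (nat_lit 2311) (nat_lit 5) (nat_lit 11))
    (@En.n l9448 (nat_lit 8277) (nat_lit 12) (nat_lit 11))
    (@En.n l15266 (nat_lit 2318) (nat_lit 15) (nat_lit 4))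
    (@En.n l10415 (nat_lit 6882) (nat_lit 0) (nat_lit 10))
    (@En.n l27500 (nat_lit 2312) (nat_lit 12) (nat_lit 4))
    (@En.n l27501 (nat_lit 6197) (nat_lit 0) (nat_lit 4))))
  (@Cl.mk (nat_lit 0x300090004000a0005000b000b000b00070006000500050005000d000c000b) (nat_lit 0x600001000000801) (nat_lit 16) Lb.e (@T16.mk En
    (@En.n l619 (nat_lit 2313) (nat_lit 0) (nat_lit 11))
    (@En.n l3866 (nat_lit 6197) (nat_lit 4) (nat_lit 12))
    (@En.i (nat_lit 10930) (nat_lit 2) (nat_lit 13))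
    (@En.n l2172 (nat_lit 6190) (nat_lit 11) (nat_lit 5))
    (@En.n l77 (nat_lit 7907) (nat_lit 11) (nat_lit 5))
    (@En.i (nat_lit 8640) (nat_lit 5) (nat_lit 5))
    (@En.n l22962 (nat_lit 3859) (nat_lit 10) (nat_lit 6))
    (@En.n l742 (nat_lit 8591) (nat_lit 7) (nat_lit 7))
    (@En.n l396 (nat_lit 7768) (nat_lit 5) (nat_lit 11))
    (@En.n l6367 (nat_lit 2315) (nat_lit 5) (nat_lit 11))
    (@En.n l27960 (nat_lit 9106) (nat_lit 11) (nat_lit 11))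
    (@En.i (nat_lit 6672) (nat_lit 12) (nat_lit 5))
    (@En.n l27961 (nat_lit 5174) (nat_lit 13) (nat_lit 10))
    (@En.n l3230 (nat_lit 2316) (nat_lit 14) (nat_lit 4))
    (@En.i (nat_lit 5855) (nat_lit 0) (nat_lit 9))
    (@En.n l22964 (nat_lit 6669) (nat_lit 15) (nat_lit 3))))
  (@Cl.mk (nat_lit 0x4000b000b000b00090008000500050005000b000b0007000c000800050005) (nat_lit 0x10410009007400) (nat_lit 16) Lb.e (@T16.mk En
    (@En.n l15370 (nat_lit 2313) (nat_lit 11) (nat_lit 5))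
    (@En.n l2180 (nat_lit 6880) (nat_lit 1) (nat_lit 5))
    (@En.n l15371 (nat_lit 2918) (nat_lit 0) (nat_lit 8))
    (@En.n l8467 (nat_lit 2224) (nat_lit 1) (nat_lit 12))
    (@En.n l15372 (nat_lit 6891) (nat_lit 2) (nat_lit 7))
    (@En.n l61 (nat_lit 6887) (nat_lit 5) (nat_lit 11))
    (@En.n l287 (nat_lit 10281) (nat_lit 13) (nat_lit 11))
    (@En.n l11 (nat_lit 6999) (nat_lit 11) (nat_lit 5))
    (@En.n l15373 (nat_lit 7917) (nat_lit 11) (nat_lit 5))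
    (@En.n l8420 (nat_lit 8320) (nat_lit 0) (nat_lit 5))
    (@En.n l14294 (nat_lit 300) (nat_lit 8) (nat_lit 8))
    (@En.n l55 (nat_lit 8577) (nat_lit 1) (nat_lit 9))
    (@En.n l15374 (nat_lit 7247) (nat_lit 5) (nat_lit 11))
    (@En.n l15375 (nat_lit 2314) (nat_lit 5) (nat_lit 11))
    (@En.n l15376 (nat_lit 9260) (nat_lit 13) (nat_lit 11))
    (@En.n l2179 (nat_lit 7050) (nat_lit 12) (nat_lit 4))))
  (@Cl.mk (nat_lit 0x20007000e000c0002000a000a0004000b000a0009000600060005000e0006) (nat_lit 0x580740000000c0) (nat_lit 16) Lb.e (@T16.mk En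
    (@En.n l10752 (nat_lit 2917) (nat_lit 4) (nat_lit 6))
    (@En.n l1596 (nat_lit 3353) (nat_lit 1) (nat_lit 14))
    (@En.n l7010 (nat_lit 2309) (nat_lit 2) (nat_lit 5))
    (@En.n l10753 (nat_lit 2966) (nat_lit 10) (nat_lit 6))
    (@En.n l10754 (nat_lit 6419) (nat_lit 8) (nat_lit 6))
    (@En.n l3637 (nat_lit 3049) (nat_lit 5) (nat_lit 9))
    (@En.i (nat_lit 3007) (nat_lit 11) (nat_lit 10))
    (@En.n l4189 (nat_lit 5722) (nat_lit 8) (nat_lit 11))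
    (@En.n l2316 (nat_lit 3164) (nat_lit 8) (nat_lit 4))
    (@En.n l61 (nat_lit 2922) (nat_lit 6) (nat_lit 10))
    (@En.n l7010 (nat_lit 3160) (nat_lit 11) (nat_lit 10))
    (@En.n l7 (nat_lit 2319) (nat_lit 11) (nat_lit 2))
    (@En.i (nat_lit 2925) (nat_lit 13) (nat_lit 12))
    (@En.n l4183 (nat_lit 5739) (nat_lit 1) (nat_lit 14))
    (@En.n l3517 (nat_lit 2160) (nat_lit 2) (nat_lit 7))
    (@En.n l67 (nat_lit 2319) (nat_lit 15) (nat_lit 2))))
noncomputable def a145 : T16 Cl := @T16.mk Cl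
  (@Cl.mk (nat_lit 0x20007000b000e000c0002000900050004000d0009000c00030007000e0004) (nat_lit 0x4570400a490040) (nat_lit 16) Lb.e (@T16.mk En
    (@En.n l7910 (nat_lit 886) (nat_lit 5) (nat_lit 4))
    (@En.i (nat_lit 3916) (nat_lit 7) (nat_lit 14))
    (@En.n l766 (nat_lit 416) (nat_lit 2) (nat_lit 7))
    (@En.i (nat_lit 2285) (nat_lit 3) (nat_lit 3))
    (@En.n l2571 (nat_lit 3580) (nat_lit 0) (nat_lit 12))
    (@En.n l287 (nat_lit 2657) (nat_lit 5) (nat_lit 9))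
    (@En.n l3336 (nat_lit 1446) (nat_lit 7) (nat_lit 13))
    (@En.n l11610 (nat_lit 1853) (nat_lit 7) (nat_lit 4))
    (@En.n l725 (nat_lit 2257) (nat_lit 14) (nat_lit 5))
    (@En.n l2571 (nat_lit 2579) (nat_lit 10) (nat_lit 9))
    (@En.n l3 (nat_lit 2320) (nat_lit 10) (nat_lit 2))
    (@En.n l2213 (nat_lit 2251) (nat_lit 12) (nat_lit 12))
    (@En.n l2556 (nat_lit 2058) (nat_lit 4) (nat_lit 14))
    (@En.n l3336 (nat_lit 4041) (nat_lit 2) (nat_lit 11))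
    (@En.n l2179 (nat_lit 886) (nat_lit 3) (nat_lit 7))
    (@En.n l50 (nat_lit 2320) (nat_lit 15) (nat_lit 2))))
  (@Cl.mk (nat_lit 0x2000a00050004000b0009000c0006000d0005000400030007000b000e000c) (nat_lit 0x7090b0000500) (nat_lit 16) Lb.e (@T16.mk En
    (@En.n l15182 (nat_lit 4380) (nat_lit 12) (nat_lit 12))
    (@En.n l7829 (nat_lit 3366) (nat_lit 4) (nat_lit 14))
    (@En.n l15328 (nat_lit 12575) (nat_lit 2) (nat_lit 11))
    (@En.n l15329 (nat_lit 890) (nat_lit 3) (nat_lit 7))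
    (@En.n l11113 (nat_lit 2322) (nat_lit 4) (nat_lit 3))
    (@En.n l1722 (nat_lit 2320) (nat_lit 0) (nat_lit 4))
    (@En.n l7829 (nat_lit 2405) (nat_lit 6) (nat_lit 5))
    (@En.i (nat_lit 3592) (nat_lit 8) (nat_lit 13))
    (@En.n l617 (nat_lit 4445) (nat_lit 8) (nat_lit 6))
    (@En.n l4365 (nat_lit 2867) (nat_lit 10) (nat_lit 12))
    (@En.n l7829 (nat_lit 4434) (nat_lit 11) (nat_lit 9))
    (@En.n l13102 (nat_lit 9445) (nat_lit 12) (nat_lit 11))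
    (@En.n l1241 (nat_lit 4382) (nat_lit 12) (nat_lit 4))
    (@En.n l17 (nat_lit 2323) (nat_lit 14) (nat_lit 5))
    (@En.n l12001 (nat_lit 4308) (nat_lit 10) (nat_lit 10))
    (@En.n l3 (nat_lit 2321) (nat_lit 15) (nat_lit 2))))
  (@Cl.mk (nat_lit 0x2000a00050004000a0009000d0006000d0003000600030007000b000e000c) (nat_lit 0x300000000000560) (nat_lit 16) Lb.e (@T16.mk En
    (@En.n l9463 (nat_lit 4391) (nat_lit 10) (nat_lit 12))
    (@En.i (nat_lit 3364) (nat_lit 4) (nat_lit 14))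
    (@En.n l17904 (nat_lit 12574) (nat_lit 2) (nat_lit 11))
    (@En.n l17904 (nat_lit 4734) (nat_lit 3) (nat_lit 7))
    (@En.n l2660 (nat_lit 2321) (nat_lit 4) (nat_lit 3))
    (@En.n l7189 (nat_lit 3027) (nat_lit 0) (nat_lit 6))
    (@En.n l1023 (nat_lit 890) (nat_lit 6) (nat_lit 3))
    (@En.n l9385 (nat_lit 3586) (nat_lit 0) (nat_lit 13))
    (@En.n l117 (nat_lit 4444) (nat_lit 8) (nat_lit 6))
    (@En.n l8 (nat_lit 3582) (nat_lit 10) (nat_lit 13))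
    (@En.i (nat_lit 4435) (nat_lit 11) (nat_lit 9))
    (@En.n l17904 (nat_lit 9442) (nat_lit 12) (nat_lit 10))
    (@En.n l1329 (nat_lit 4388) (nat_lit 12) (nat_lit 4))
    (@En.n l17904 (nat_lit 2325) (nat_lit 14) (nat_lit 5))
    (@En.i (nat_lit 4248) (nat_lit 10) (nat_lit 10))
    (@En.n l18 (nat_lit 2322) (nat_lit 15) (nat_lit 2))))
  (@Cl.mk (nat_lit 0x200050003000b0009000c0009000d0005000400030007000b0007000e000d) (nat_lit 0x8003000006011) (nat_lit 16) Lb.e (@T16.mk En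
    (@En.n l4130 (nat_lit 2262) (nat_lit 2) (nat_lit 13))
    (@En.i (nat_lit 2321) (nat_lit 1) (nat_lit 14))
    (@En.n l17227 (nat_lit 2360) (nat_lit 2) (nat_lit 7))
    (@En.i (nat_lit 12593) (nat_lit 3) (nat_lit 11))
    (@En.n l15329 (nat_lit 2324) (nat_lit 4) (nat_lit 7))
    (@En.n l16585 (nat_lit 2325) (nat_lit 5) (nat_lit 3))
    (@En.n l1722 (nat_lit 2257) (nat_lit 6) (nat_lit 4))
    (@En.n l10039 (nat_lit 2271) (nat_lit 7) (nat_lit 5))
    (@En.i (nat_lit 3839) (nat_lit 9) (nat_lit 13))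
    (@En.n l617 (nat_lit 6082) (nat_lit 10) (nat_lit 9))
    (@En.n l4365 (nat_lit 2871) (nat_lit 11) (nat_lit 12))
    (@En.n l11416 (nat_lit 2660) (nat_lit 12) (nat_lit 9))
    (@En.i (nat_lit 9132) (nat_lit 13) (nat_lit 11))
    (@En.n l2832 (nat_lit 2262) (nat_lit 14) (nat_lit 3))
    (@En.n l513 (nat_lit 2814) (nat_lit 0) (nat_lit 5))
    (@En.n l3 (nat_lit 2323) (nat_lit 15) (nat_lit 2))))
  (@Cl.mk (nat_lit 0x200050003000a0009000d000c000a0003000600040007000b0006000e000d) (nat_lit 0x7001400009011) (nat_lit 16) Lb.e (@T16.mk En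
    (@En.n l6108 (nat_lit 2263) (nat_lit 2) (nat_lit 13))
    (@En.i (nat_lit 890) (nat_lit 1) (nat_lit 14))
    (@En.i (nat_lit 2359) (nat_lit 2) (nat_lit 6))
    (@En.i (nat_lit 12594) (nat_lit 3) (nat_lit 11))
    (@En.i (nat_lit 4736) (nat_lit 4) (nat_lit 7))
    (@En.n l387 (nat_lit 2258) (nat_lit 5) (nat_lit 4))
    (@En.n l3337 (nat_lit 2270) (nat_lit 6) (nat_lit 6))
    (@En.n l2586 (nat_lit 2325) (nat_lit 7) (nat_lit 3))
    (@En.n l2348 (nat_lit 5934) (nat_lit 0) (nat_lit 10))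
    (@En.n l17560 (nat_lit 2323) (nat_lit 10) (nat_lit 12))
    (@En.i (nat_lit 2329) (nat_lit 11) (nat_lit 13))
    (@En.n l37493 (nat_lit 2328) (nat_lit 12) (nat_lit 9))
    (@En.n l3337 (nat_lit 9133) (nat_lit 13) (nat_lit 10))
    (@En.n l12871 (nat_lit 2263) (nat_lit 14) (nat_lit 3))
    (@En.n l781 (nat_lit 2809) (nat_lit 0) (nat_lit 5))
    (@En.n l3 (nat_lit 2324) (nat_lit 15) (nat_lit 2))))
  (@Cl.mk (nat_lit 0x200050003000a0009000d0009000d0003000600030007000b0007000e000d) (nat_lit 0x7000000006070) (nat_lit 16) Lb.e (@T16.mk En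
    (@En.n l33222 (nat_lit 2326) (nat_lit 2) (nat_lit 13))
    (@En.n l32411 (nat_lit 2322) (nat_lit 1) (nat_lit 14))
    (@En.i (nat_lit 4195) (nat_lit 2) (nat_lit 7))
    (@En.i (nat_lit 12580) (nat_lit 3) (nat_lit 11))
    (@En.n l7075 (nat_lit 4680) (nat_lit 4) (nat_lit 7))
    (@En.n l5977 (nat_lit 2323) (nat_lit 5) (nat_lit 3))
    (@En.n l1867 (nat_lit 3030) (nat_lit 6) (nat_lit 6))
    (@En.n l7076 (nat_lit 2324) (nat_lit 7) (nat_lit 3))
    (@En.n l7077 (nat_lit 3837) (nat_lit 9) (nat_lit 13))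
    (@En.n l17510 (nat_lit 6240) (nat_lit 10) (nat_lit 9))
    (@En.n l33223 (nat_lit 2327) (nat_lit 11) (nat_lit 13))
    (@En.n l17556 (nat_lit 2331) (nat_lit 12) (nat_lit 9))
    (@En.i (nat_lit 9135) (nat_lit 13) (nat_lit 10))
    (@En.n l33224 (nat_lit 2326) (nat_lit 14) (nat_lit 3))
    (@En.n l27471 (nat_lit 2811) (nat_lit 0) (nat_lit 5))
    (@En.n l50 (nat_lit 2325) (nat_lit 15) (nat_lit 2))))
  (@Cl.mk (nat_lit 0x30003000a0009000d0009000d0003000600030007000c0007000d000d0004) (nat_lit 0x70000000000b00) (nat_lit 16) Lb.e (@T16.mk En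
    (@En.n l17070 (nat_lit 4421) (nat_lit 0) (nat_lit 4))
    (@En.n l17071 (nat_lit 4373) (nat_lit 3) (nat_lit 13))
    (@En.i (nat_lit 4388) (nat_lit 1) (nat_lit 13))
    (@En.n l3471 (nat_lit 4193) (nat_lit 3) (nat_lit 7))
    (@En.n l22898 (nat_lit 12582) (nat_lit 12) (nat_lit 12))
    (@En.n l19787 (nat_lit 4679) (nat_lit 12) (nat_lit 7))
    (@En.n l8246 (nat_lit 2262) (nat_lit 6) (nat_lit 3))
    (@En.n l40663 (nat_lit 1167) (nat_lit 0) (nat_lit 6))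
    (@En.n l21159 (nat_lit 2263) (nat_lit 8) (nat_lit 3))
    (@En.n l13793 (nat_lit 3717) (nat_lit 0) (nat_lit 13))
    (@En.n l15664 (nat_lit 6233) (nat_lit 11) (nat_lit 9))
    (@En.n l8246 (nat_lit 2332) (nat_lit 12) (nat_lit 13))
    (@En.i (nat_lit 4365) (nat_lit 13) (nat_lit 9))
    (@En.n l22898 (nat_lit 10427) (nat_lit 4) (nat_lit 10))
    (@En.n l40664 (nat_lit 2325) (nat_lit 13) (nat_lit 3))
    (@En.n l17077 (nat_lit 4373) (nat_lit 0) (nat_lit 3))))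
  (@Cl.mk (nat_lit 0x200050003000a000d0008000c0003000d000600040003000b0008000e000d) (nat_lit 0x7b00000000000) (nat_lit 16) Lb.e (@T16.mk En
    (@En.n l61 (nat_lit 2332) (nat_lit 2) (nat_lit 13))
    (@En.n l11556 (nat_lit 3582) (nat_lit 1) (nat_lit 14))
    (@En.n l28570 (nat_lit 4351) (nat_lit 2) (nat_lit 8))
    (@En.n l4194 (nat_lit 12590) (nat_lit 3) (nat_lit 11))
    (@En.n l15968 (nat_lit 2331) (nat_lit 4) (nat_lit 3))
    (@En.i (nat_lit 2871) (nat_lit 5) (nat_lit 4))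
    (@En.n l30284 (nat_lit 2325) (nat_lit 6) (nat_lit 6))
    (@En.n l4194 (nat_lit 3906) (nat_lit 8) (nat_lit 13))
    (@En.n l30285 (nat_lit 2329) (nat_lit 8) (nat_lit 3))
    (@En.i (nat_lit 3584) (nat_lit 10) (nat_lit 12))
    (@En.n l30286 (nat_lit 6241) (nat_lit 11) (nat_lit 8))
    (@En.n l3471 (nat_lit 3837) (nat_lit 5) (nat_lit 13))
    (@En.n l7430 (nat_lit 9137) (nat_lit 13) (nat_lit 10))
    (@En.n l72 (nat_lit 2332) (nat_lit 14) (nat_lit 3))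
    (@En.n l30287 (nat_lit 2813) (nat_lit 0) (nat_lit 5))
    (@En.n l17 (nat_lit 2327) (nat_lit 15) (nat_lit 2))))
  (@Cl.mk (nat_lit 0x2000500030009000d000c00090003000d000400070003000b0007000e000d) (nat_lit 0x7003010006000) (nat_lit 16) Lb.e (@T16.mk En
    (@En.n l31687 (nat_lit 2333) (nat_lit 2) (nat_lit 13))
    (@En.n l3 (nat_lit 4436) (nat_lit 1) (nat_lit 14))
    (@En.n l31688 (nat_lit 4185) (nat_lit 2) (nat_lit 7))
    (@En.n l31689 (nat_lit 12464) (nat_lit 3) (nat_lit 11))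
    (@En.n l9314 (nat_lit 2329) (nat_lit 4) (nat_lit 3))
    (@En.n l710 (nat_lit 4788) (nat_lit 5) (nat_lit 7))
    (@En.n l31690 (nat_lit 2659) (nat_lit 6) (nat_lit 4))
    (@En.n l1080 (nat_lit 2325) (nat_lit 8) (nat_lit 13))
    (@En.n l11 (nat_lit 2331) (nat_lit 8) (nat_lit 3))
    (@En.n l31688 (nat_lit 5945) (nat_lit 10) (nat_lit 9))
    (@En.n l31691 (nat_lit 2660) (nat_lit 11) (nat_lit 12))
    (@En.n l1329 (nat_lit 3836) (nat_lit 12) (nat_lit 13))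
    (@En.n l710 (nat_lit 7901) (nat_lit 13) (nat_lit 9))
    (@En.n l31692 (nat_lit 2333) (nat_lit 14) (nat_lit 3))
    (@En.n l31693 (nat_lit 2795) (nat_lit 0) (nat_lit 5))
    (@En.n l18 (nat_lit 2328) (nat_lit 15) (nat_lit 2))))
  (@Cl.mk (nat_lit 0x200050003000a000d000b00090003000d000600050003000b0007000e000d) (nat_lit 0x7b03010009010) (nat_lit 16) Lb.e (@T16.mk En
    (@En.n l21813 (nat_lit 2330) (nat_lit 2) (nat_lit 13))
    (@En.n l3384 (nat_lit 891) (nat_lit 1) (nat_lit 14))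
    (@En.n l21814 (nat_lit 4188) (nat_lit 2) (nat_lit 7))
    (@En.n l779 (nat_lit 12595) (nat_lit 3) (nat_lit 11))
    (@En.n l21815 (nat_lit 2328) (nat_lit 4) (nat_lit 3))
    (@En.n l21816 (nat_lit 2379) (nat_lit 5) (nat_lit 5))
    (@En.n l28 (nat_lit 2324) (nat_lit 6) (nat_lit 6))
    (@En.n l21817 (nat_lit 2323) (nat_lit 8) (nat_lit 13))
    (@En.n l21818 (nat_lit 2327) (nat_lit 8) (nat_lit 3))
    (@En.n l21814 (nat_lit 5941) (nat_lit 10) (nat_lit 9))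
    (@En.n l21819 (nat_lit 3594) (nat_lit 11) (nat_lit 11))
    (@En.n l21814 (nat_lit 3838) (nat_lit 12) (nat_lit 13))
    (@En.n l21820 (nat_lit 9134) (nat_lit 13) (nat_lit 10))
    (@En.n l21821 (nat_lit 2330) (nat_lit 14) (nat_lit 3))
    (@En.n l21822 (nat_lit 2810) (nat_lit 0) (nat_lit 5))
    (@En.n l3 (nat_lit 2329) (nat_lit 15) (nat_lit 2))))
  (@Cl.mk (nat_lit 0x30003000a000d000b00090003000d000600050003000c0007000d000d0004) (nat_lit 0x7b930100000b00) (nat_lit 16) Lb.e (@T16.mk En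
    (@En.i (nat_lit 779) (nat_lit 0) (nat_lit 4))
    (@En.n l61 (nat_lit 4374) (nat_lit 3) (nat_lit 13))
    (@En.n l9522 (nat_lit 4415) (nat_lit 1) (nat_lit 13))
    (@En.n l6504 (nat_lit 4187) (nat_lit 3) (nat_lit 7))
    (@En.n l3457 (nat_lit 12371) (nat_lit 11) (nat_lit 12))
    (@En.i (nat_lit 2333) (nat_lit 5) (nat_lit 3))
    (@En.n l3457 (nat_lit 2377) (nat_lit 0) (nat_lit 5))
    (@En.n l159 (nat_lit 2263) (nat_lit 7) (nat_lit 6))
    (@En.n l3459 (nat_lit 2262) (nat_lit 9) (nat_lit 13))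
    (@En.n l6868 (nat_lit 2332) (nat_lit 9) (nat_lit 3))
    (@En.i (nat_lit 5939) (nat_lit 0) (nat_lit 9))
    (@En.n l3462 (nat_lit 2875) (nat_lit 12) (nat_lit 11))
    (@En.n l17078 (nat_lit 3789) (nat_lit 5) (nat_lit 13))
    (@En.i (nat_lit 10387) (nat_lit 14) (nat_lit 10))
    (@En.n l17079 (nat_lit 2329) (nat_lit 13) (nat_lit 3))
    (@En.n l18 (nat_lit 4374) (nat_lit 0) (nat_lit 3))))
  (@Cl.mk (nat_lit 0x2000500030009000d0008000d0003000d000300070003000b0008000e000d) (nat_lit 0x7000000000000) (nat_lit 16) Lb.e (@T16.mk En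
    (@En.n l33295 (nat_lit 4365) (nat_lit 2) (nat_lit 13))
    (@En.n l3 (nat_lit 4435) (nat_lit 1) (nat_lit 14))
    (@En.n l33296 (nat_lit 4350) (nat_lit 2) (nat_lit 8))
    (@En.n l2642 (nat_lit 12466) (nat_lit 3) (nat_lit 11))
    (@En.n l9269 (nat_lit 2327) (nat_lit 4) (nat_lit 3))
    (@En.n l1203 (nat_lit 4687) (nat_lit 5) (nat_lit 7))
    (@En.n l9465 (nat_lit 2660) (nat_lit 6) (nat_lit 3))
    (@En.n l2642 (nat_lit 3900) (nat_lit 8) (nat_lit 13))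
    (@En.i (nat_lit 2328) (nat_lit 8) (nat_lit 3))
    (@En.n l29051 (nat_lit 3773) (nat_lit 10) (nat_lit 13))
    (@En.n l33296 (nat_lit 4499) (nat_lit 11) (nat_lit 8))
    (@En.n l1329 (nat_lit 3717) (nat_lit 12) (nat_lit 13))
    (@En.i (nat_lit 8621) (nat_lit 13) (nat_lit 9))
    (@En.n l33297 (nat_lit 4365) (nat_lit 14) (nat_lit 3))
    (@En.n l31693 (nat_lit 2790) (nat_lit 0) (nat_lit 5))
    (@En.n l18 (nat_lit 2331) (nat_lit 15) (nat_lit 2))))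
  (@Cl.mk (nat_lit 0x30003000a000d0008000c0003000d000600040003000c0008000d000d0004) (nat_lit 0x7b000200000b00) (nat_lit 16) Lb.e (@T16.mk En
    (@En.n l10573 (nat_lit 4422) (nat_lit 0) (nat_lit 4))
    (@En.n l61 (nat_lit 4369) (nat_lit 3) (nat_lit 13))
    (@En.n l17060 (nat_lit 4412) (nat_lit 1) (nat_lit 13))
    (@En.i (nat_lit 4352) (nat_lit 3) (nat_lit 8))
    (@En.i (nat_lit 12585) (nat_lit 11) (nat_lit 12))
    (@En.n l6324 (nat_lit 4365) (nat_lit 5) (nat_lit 3))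
    (@En.i (nat_lit 2872) (nat_lit 0) (nat_lit 4))
    (@En.n l17060 (nat_lit 2326) (nat_lit 7) (nat_lit 6))
    (@En.n l8015 (nat_lit 667) (nat_lit 1) (nat_lit 13))
    (@En.n l8400 (nat_lit 2330) (nat_lit 9) (nat_lit 3))
    (@En.i (nat_lit 3832) (nat_lit 0) (nat_lit 12))
    (@En.n l17884 (nat_lit 6242) (nat_lit 12) (nat_lit 8))
    (@En.n l3471 (nat_lit 3839) (nat_lit 5) (nat_lit 13))
    (@En.n l27666 (nat_lit 10426) (nat_lit 14) (nat_lit 10))
    (@En.i (nat_lit 2327) (nat_lit 13) (nat_lit 3))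
    (@En.n l18 (nat_lit 4369) (nat_lit 0) (nat_lit 3))))
  (@Cl.mk (nat_lit 0x300030009000d000c00090003000d000400070003000c0007000d000d0004) (nat_lit 0x70030100000b00) (nat_lit 16) Lb.e (@T16.mk En
    (@En.n l10866 (nat_lit 4423) (nat_lit 0) (nat_lit 4))
    (@En.n l61 (nat_lit 4368) (nat_lit 3) (nat_lit 13))
    (@En.n l14017 (nat_lit 4403) (nat_lit 1) (nat_lit 13))
    (@En.n l12442 (nat_lit 4184) (nat_lit 3) (nat_lit 7))
    (@En.n l28011 (nat_lit 12461) (nat_lit 11) (nat_lit 12))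
    (@En.n l28 (nat_lit 2330) (nat_lit 5) (nat_lit 3))
    (@En.i (nat_lit 4787) (nat_lit 11) (nat_lit 7))
    (@En.n l5732 (nat_lit 831) (nat_lit 7) (nat_lit 4))
    (@En.n l8328 (nat_lit 2326) (nat_lit 9) (nat_lit 13))
    (@En.n l32611 (nat_lit 4365) (nat_lit 9) (nat_lit 3))
    (@En.i (nat_lit 5943) (nat_lit 0) (nat_lit 9))
    (@En.n l27933 (nat_lit 4364) (nat_lit 12) (nat_lit 12))
    (@En.n l14017 (nat_lit 3785) (nat_lit 6) (nat_lit 13))
    (@En.n l14869 (nat_lit 7613) (nat_lit 14) (nat_lit 9))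
    (@En.n l32612 (nat_lit 2328) (nat_lit 13) (nat_lit 3))
    (@En.n l18 (nat_lit 4368) (nat_lit 0) (nat_lit 3))))
  (@Cl.mk (nat_lit 0x30003000c00090009000c0004000b00090004000700070005000d000d0007) (nat_lit 0x60110550000460) (nat_lit 16) Lb.e (@T16.mk En
    (@En.n l17978 (nat_lit 1763) (nat_lit 0) (nat_lit 7))
    (@En.n l4007 (nat_lit 2304) (nat_lit 3) (nat_lit 13))
    (@En.n l17979 (nat_lit 2443) (nat_lit 2) (nat_lit 13))
    (@En.n l17980 (nat_lit 6329) (nat_lit 3) (nat_lit 5))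
    (@En.n l152 (nat_lit 2336) (nat_lit 9) (nat_lit 7))
    (@En.n l7425 (nat_lit 2338) (nat_lit 11) (nat_lit 7))
    (@En.n l17981 (nat_lit 1128) (nat_lit 6) (nat_lit 4))
    (@En.i (nat_lit 2237) (nat_lit 0) (nat_lit 9))
    (@En.n l17982 (nat_lit 413) (nat_lit 9) (nat_lit 11))
    (@En.n l7420 (nat_lit 2301) (nat_lit 9) (nat_lit 4))
    (@En.n l17983 (nat_lit 2305) (nat_lit 6) (nat_lit 12))
    (@En.n l17984 (nat_lit 2305) (nat_lit 7) (nat_lit 9))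
    (@En.n l97 (nat_lit 2361) (nat_lit 13) (nat_lit 9))
    (@En.i (nat_lit 2613) (nat_lit 14) (nat_lit 12))
    (@En.n l17985 (nat_lit 2339) (nat_lit 13) (nat_lit 3))
    (@En.n l4296 (nat_lit 2304) (nat_lit 0) (nat_lit 3))))
  (@Cl.mk (nat_lit 0x2000b000e00090002000c0005000c000b000400070004000d0005000e0003) (nat_lit 0x6a1010380004050) (nat_lit 16) Lb.e (@T16.mk En
    (@En.i (nat_lit 2336) (nat_lit 4) (nat_lit 3))
    (@En.i (nat_lit 13544) (nat_lit 0) (nat_lit 14))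
    (@En.n l7 (nat_lit 1676) (nat_lit 6) (nat_lit 5))
    (@En.n l564 (nat_lit 2615) (nat_lit 8) (nat_lit 13))
    (@En.n l7 (nat_lit 6410) (nat_lit 8) (nat_lit 4))
    (@En.i (nat_lit 845) (nat_lit 11) (nat_lit 7))
    (@En.i (nat_lit 1200) (nat_lit 6) (nat_lit 4))
    (@En.n l644 (nat_lit 2245) (nat_lit 8) (nat_lit 11))
    (@En.n l4415 (nat_lit 493) (nat_lit 9) (nat_lit 12))
    (@En.n l4870 (nat_lit 2341) (nat_lit 14) (nat_lit 5))
    (@En.i (nat_lit 2304) (nat_lit 11) (nat_lit 12))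
    (@En.n l3 (nat_lit 2335) (nat_lit 11) (nat_lit 2))
    (@En.n l97 (nat_lit 2304) (nat_lit 13) (nat_lit 9))
    (@En.i (nat_lit 4845) (nat_lit 4) (nat_lit 14))
    (@En.i (nat_lit 2619) (nat_lit 2) (nat_lit 11))
    (@En.n l17 (nat_lit 2335) (nat_lit 15) (nat_lit 2))))
noncomputable def a146 : T16 Cl := @T16.mk Cl
  (@Cl.mk (nat_lit 0x2000c0005000c000a000400070004000d000d000600030003000b000e0009) (nat_lit 0x2066000350006a1) (nat_lit 16) Lb.e (@T16.mk En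
    (@En.i (nat_lit 2334) (nat_lit 12) (nat_lit 9))
    (@En.i (nat_lit 4596) (nat_lit 4) (nat_lit 14))
    (@En.i (nat_lit 2622) (nat_lit 2) (nat_lit 11))
    (@En.n l5331 (nat_lit 2337) (nat_lit 13) (nat_lit 3))
    (@En.n l18 (nat_lit 2335) (nat_lit 0) (nat_lit 3))
    (@En.n l7 (nat_lit 1764) (nat_lit 0) (nat_lit 6))
    (@En.n l61 (nat_lit 2335) (nat_lit 3) (nat_lit 13))
    (@En.n l564 (nat_lit 2618) (nat_lit 8) (nat_lit 13))
    (@En.n l7 (nat_lit 6409) (nat_lit 8) (nat_lit 4))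
    (@En.i (nat_lit 839) (nat_lit 11) (nat_lit 7))
    (@En.n l2653 (nat_lit 1126) (nat_lit 10) (nat_lit 4))
    (@En.i (nat_lit 2236) (nat_lit 12) (nat_lit 10))
    (@En.n l4415 (nat_lit 489) (nat_lit 13) (nat_lit 12))
    (@En.n l5915 (nat_lit 2338) (nat_lit 14) (nat_lit 5))
    (@En.n l117 (nat_lit 2334) (nat_lit 10) (nat_lit 12))
    (@En.n l3 (nat_lit 2336) (nat_lit 15) (nat_lit 2))))
  (@Cl.mk (nat_lit 0x200070003000b000e00090002000c0005000c0009000400070004000e000d) (nat_lit 0x6a00006100044) (nat_lit 16) Lb.e (@T16.mk En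
    (@En.n l649 (nat_lit 2336) (nat_lit 7) (nat_lit 13))
    (@En.n l1002 (nat_lit 2165) (nat_lit 1) (nat_lit 14))
    (@En.n l3291 (nat_lit 6413) (nat_lit 2) (nat_lit 4))
    (@En.n l9807 (nat_lit 843) (nat_lit 3) (nat_lit 7))
    (@En.n l12831 (nat_lit 1124) (nat_lit 4) (nat_lit 4))
    (@En.n l698 (nat_lit 884) (nat_lit 5) (nat_lit 9))
    (@En.n l3291 (nat_lit 492) (nat_lit 7) (nat_lit 12))
    (@En.n l8504 (nat_lit 2340) (nat_lit 14) (nat_lit 5))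
    (@En.n l12832 (nat_lit 2339) (nat_lit 9) (nat_lit 12))
    (@En.n l28 (nat_lit 2337) (nat_lit 9) (nat_lit 2))
    (@En.n l12833 (nat_lit 2339) (nat_lit 11) (nat_lit 9))
    (@En.i (nat_lit 4888) (nat_lit 12) (nat_lit 14))
    (@En.n l3291 (nat_lit 1712) (nat_lit 13) (nat_lit 11))
    (@En.n l2221 (nat_lit 2336) (nat_lit 3) (nat_lit 3))
    (@En.n l9806 (nat_lit 1675) (nat_lit 4) (nat_lit 7))
    (@En.n l3 (nat_lit 2337) (nat_lit 15) (nat_lit 2))))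
  (@Cl.mk (nat_lit 0x20005000c000a000700060004000d000d000600030003000b0009000e000a) (nat_lit 0x630004500066b2) (nat_lit 16) Lb.e (@T16.mk En
    (@En.n l2072 (nat_lit 2301) (nat_lit 11) (nat_lit 10))
    (@En.n l2073 (nat_lit 2336) (nat_lit 1) (nat_lit 14))
    (@En.n l3467 (nat_lit 2344) (nat_lit 2) (nat_lit 9))
    (@En.n l3623 (nat_lit 2469) (nat_lit 3) (nat_lit 11))
    (@En.n l3787 (nat_lit 2340) (nat_lit 4) (nat_lit 3))
    (@En.n l685 (nat_lit 2341) (nat_lit 5) (nat_lit 3))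
    (@En.n l6032 (nat_lit 1762) (nat_lit 6) (nat_lit 6))
    (@En.n l6033 (nat_lit 2341) (nat_lit 8) (nat_lit 13))
    (@En.n l6034 (nat_lit 2466) (nat_lit 9) (nat_lit 13))
    (@En.n l11 (nat_lit 6412) (nat_lit 9) (nat_lit 4))
    (@En.n l688 (nat_lit 842) (nat_lit 10) (nat_lit 6))
    (@En.n l3467 (nat_lit 6161) (nat_lit 12) (nat_lit 7))
    (@En.i (nat_lit 2235) (nat_lit 13) (nat_lit 10))
    (@En.n l6035 (nat_lit 442) (nat_lit 14) (nat_lit 12))
    (@En.n l2081 (nat_lit 2355) (nat_lit 13) (nat_lit 5))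
    (@En.n l3 (nat_lit 2338) (nat_lit 15) (nat_lit 2))))
  (@Cl.mk (nat_lit 0x200080003000c00090009000c0004000b00080004000700070005000e000d) (nat_lit 0x40670a051000055) (nat_lit 16) Lb.e (@T16.mk En
    (@En.n l7313 (nat_lit 2334) (nat_lit 2) (nat_lit 13))
    (@En.n l1122 (nat_lit 2162) (nat_lit 1) (nat_lit 14))
    (@En.n l10901 (nat_lit 6330) (nat_lit 2) (nat_lit 5))
    (@En.n l23719 (nat_lit 2337) (nat_lit 3) (nat_lit 7))
    (@En.n l23720 (nat_lit 2340) (nat_lit 11) (nat_lit 7))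
    (@En.i (nat_lit 1127) (nat_lit 5) (nat_lit 4))
    (@En.n l3166 (nat_lit 887) (nat_lit 6) (nat_lit 8))
    (@En.n l23721 (nat_lit 487) (nat_lit 8) (nat_lit 11))
    (@En.n l23722 (nat_lit 2342) (nat_lit 8) (nat_lit 4))
    (@En.n l18 (nat_lit 2343) (nat_lit 6) (nat_lit 12))
    (@En.n l61 (nat_lit 2343) (nat_lit 7) (nat_lit 9))
    (@En.n l23723 (nat_lit 2359) (nat_lit 12) (nat_lit 9))
    (@En.n l23724 (nat_lit 1711) (nat_lit 13) (nat_lit 12))
    (@En.n l23725 (nat_lit 2334) (nat_lit 14) (nat_lit 3))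
    (@En.n l20766 (nat_lit 1766) (nat_lit 0) (nat_lit 8))
    (@En.n l3 (nat_lit 2339) (nat_lit 15) (nat_lit 2))))
  (@Cl.mk (nat_lit 0x20005000c0009000700060004000e000d000200070003000b0009000e000a) (nat_lit 0x610004500067b0) (nat_lit 16) Lb.e (@T16.mk En
    (@En.n l3912 (nat_lit 2342) (nat_lit 10) (nat_lit 10))
    (@En.n l4911 (nat_lit 2337) (nat_lit 11) (nat_lit 14))
    (@En.n l4912 (nat_lit 2346) (nat_lit 12) (nat_lit 9))
    (@En.n l322 (nat_lit 499) (nat_lit 3) (nat_lit 11))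
    (@En.n l7 (nat_lit 2338) (nat_lit 4) (nat_lit 3))
    (@En.n l4913 (nat_lit 1772) (nat_lit 5) (nat_lit 7))
    (@En.n l7 (nat_lit 2340) (nat_lit 6) (nat_lit 2))
    (@En.n l644 (nat_lit 2338) (nat_lit 8) (nat_lit 13))
    (@En.n l4914 (nat_lit 2465) (nat_lit 9) (nat_lit 14))
    (@En.n l11 (nat_lit 6414) (nat_lit 9) (nat_lit 4))
    (@En.n l4915 (nat_lit 838) (nat_lit 3) (nat_lit 6))
    (@En.n l4912 (nat_lit 6160) (nat_lit 12) (nat_lit 7))
    (@En.n l1042 (nat_lit 882) (nat_lit 13) (nat_lit 9))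
    (@En.n l322 (nat_lit 500) (nat_lit 7) (nat_lit 12))
    (@En.n l4916 (nat_lit 2353) (nat_lit 7) (nat_lit 5))
    (@En.n l3 (nat_lit 2340) (nat_lit 15) (nat_lit 2))))
  (@Cl.mk (nat_lit 0x20005000c000b000700060004000d0005000e00030002000b0009000e000a) (nat_lit 0x630004070066b2) (nat_lit 16) Lb.e (@T16.mk En
    (@En.n l107 (nat_lit 2297) (nat_lit 12) (nat_lit 10))
    (@En.n l1572 (nat_lit 2335) (nat_lit 13) (nat_lit 14))
    (@En.n l1572 (nat_lit 2366) (nat_lit 14) (nat_lit 9))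
    (@En.i (nat_lit 2470) (nat_lit 3) (nat_lit 11))
    (@En.n l17 (nat_lit 2341) (nat_lit 4) (nat_lit 2))
    (@En.n l2242 (nat_lit 2338) (nat_lit 5) (nat_lit 3))
    (@En.i (nat_lit 13543) (nat_lit 0) (nat_lit 14))
    (@En.n l12782 (nat_lit 1607) (nat_lit 7) (nat_lit 5))
    (@En.n l564 (nat_lit 2472) (nat_lit 9) (nat_lit 13))
    (@En.n l4001 (nat_lit 6411) (nat_lit 9) (nat_lit 4))
    (@En.i (nat_lit 841) (nat_lit 5) (nat_lit 6))
    (@En.n l2054 (nat_lit 6163) (nat_lit 12) (nat_lit 7))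
    (@En.n l644 (nat_lit 2234) (nat_lit 13) (nat_lit 11))
    (@En.n l615 (nat_lit 501) (nat_lit 9) (nat_lit 12))
    (@En.n l159 (nat_lit 2357) (nat_lit 13) (nat_lit 5))
    (@En.n l11 (nat_lit 2341) (nat_lit 15) (nat_lit 2))))
  (@Cl.mk (nat_lit 0x200080003000c000a000a000a0004000b00080006000600060005000e000d) (nat_lit 0x206780052000055) (nat_lit 16) Lb.e (@T16.mk En
    (@En.n l12823 (nat_lit 2301) (nat_lit 2) (nat_lit 13))
    (@En.n l6080 (nat_lit 2474) (nat_lit 1) (nat_lit 14))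
    (@En.n l12824 (nat_lit 6268) (nat_lit 2) (nat_lit 5))
    (@En.n l10017 (nat_lit 2340) (nat_lit 10) (nat_lit 6))
    (@En.n l12825 (nat_lit 2353) (nat_lit 4) (nat_lit 6))
    (@En.i (nat_lit 6158) (nat_lit 5) (nat_lit 6))
    (@En.n l12826 (nat_lit 885) (nat_lit 6) (nat_lit 8))
    (@En.i (nat_lit 437) (nat_lit 8) (nat_lit 11))
    (@En.n l4856 (nat_lit 2350) (nat_lit 8) (nat_lit 4))
    (@En.n l12827 (nat_lit 2351) (nat_lit 6) (nat_lit 10))
    (@En.n l12828 (nat_lit 2348) (nat_lit 6) (nat_lit 10))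
    (@En.n l12829 (nat_lit 2345) (nat_lit 12) (nat_lit 10))
    (@En.i (nat_lit 1591) (nat_lit 13) (nat_lit 12))
    (@En.n l12830 (nat_lit 2301) (nat_lit 14) (nat_lit 3))
    (@En.n l1347 (nat_lit 1771) (nat_lit 0) (nat_lit 8))
    (@En.n l107 (nat_lit 2342) (nat_lit 15) (nat_lit 2))))
  (@Cl.mk (nat_lit 0x20006000e000d000200090003000d0009000c0003000a00070004000e0007) (nat_lit 0x56040679040040) (nat_lit 16) Lb.e (@T16.mk En
    (@En.i (nat_lit 2339) (nat_lit 4) (nat_lit 7))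
    (@En.n l5 (nat_lit 2348) (nat_lit 1) (nat_lit 14))
    (@En.i (nat_lit 1186) (nat_lit 2) (nat_lit 4))
    (@En.i (nat_lit 2404) (nat_lit 7) (nat_lit 7))
    (@En.n l175 (nat_lit 491) (nat_lit 4) (nat_lit 10))
    (@En.n l28 (nat_lit 2351) (nat_lit 5) (nat_lit 3))
    (@En.i (nat_lit 14029) (nat_lit 6) (nat_lit 12))
    (@En.n l3677 (nat_lit 4188) (nat_lit 12) (nat_lit 9))
    (@En.n l175 (nat_lit 1713) (nat_lit 9) (nat_lit 13))
    (@En.n l117 (nat_lit 2305) (nat_lit 9) (nat_lit 3))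
    (@En.i (nat_lit 1768) (nat_lit 11) (nat_lit 9))
    (@En.n l3 (nat_lit 2343) (nat_lit 11) (nat_lit 2))
    (@En.i (nat_lit 2305) (nat_lit 13) (nat_lit 13))
    (@En.i (nat_lit 2544) (nat_lit 1) (nat_lit 14))
    (@En.i (nat_lit 6328) (nat_lit 2) (nat_lit 6))
    (@En.n l17 (nat_lit 2343) (nat_lit 15) (nat_lit 2))))
  (@Cl.mk (nat_lit 0x2000c000b00090007000400070005000d000d0007000300030009000e0009) (nat_lit 0x450000000005b0) (nat_lit 16) Lb.e (@T16.mk En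
    (@En.n l7584 (nat_lit 2347) (nat_lit 12) (nat_lit 9))
    (@En.n l7975 (nat_lit 4593) (nat_lit 1) (nat_lit 14))
    (@En.n l3517 (nat_lit 5088) (nat_lit 2) (nat_lit 9))
    (@En.n l152 (nat_lit 2346) (nat_lit 13) (nat_lit 3))
    (@En.n l14915 (nat_lit 2366) (nat_lit 0) (nat_lit 3))
    (@En.n l97 (nat_lit 1655) (nat_lit 0) (nat_lit 7))
    (@En.n l14916 (nat_lit 2366) (nat_lit 3) (nat_lit 13))
    (@En.n l14917 (nat_lit 2849) (nat_lit 8) (nat_lit 13))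
    (@En.i (nat_lit 3007) (nat_lit 8) (nat_lit 5))
    (@En.n l14918 (nat_lit 3261) (nat_lit 11) (nat_lit 7))
    (@En.n l14919 (nat_lit 2336) (nat_lit 10) (nat_lit 4))
    (@En.i (nat_lit 1073) (nat_lit 12) (nat_lit 7))
    (@En.n l14920 (nat_lit 2238) (nat_lit 13) (nat_lit 9))
    (@En.n l61 (nat_lit 1125) (nat_lit 14) (nat_lit 11))
    (@En.i (nat_lit 2347) (nat_lit 10) (nat_lit 12))
    (@En.n l7 (nat_lit 2344) (nat_lit 15) (nat_lit 2))))
  (@Cl.mk (nat_lit 0x200090003000a00090009000c000a000700060004000700070006000e000d) (nat_lit 0x706070300000050) (nat_lit 16) Lb.e (@T16.mk En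
    (@En.n l2221 (nat_lit 2347) (nat_lit 2) (nat_lit 13))
    (@En.n l17363 (nat_lit 2160) (nat_lit 1) (nat_lit 14))
    (@En.n l2221 (nat_lit 1317) (nat_lit 2) (nat_lit 6))
    (@En.n l17364 (nat_lit 2346) (nat_lit 3) (nat_lit 7))
    (@En.n l17365 (nat_lit 3097) (nat_lit 4) (nat_lit 7))
    (@En.n l26638 (nat_lit 2339) (nat_lit 5) (nat_lit 4))
    (@En.i (nat_lit 1070) (nat_lit 6) (nat_lit 6))
    (@En.n l6110 (nat_lit 2405) (nat_lit 7) (nat_lit 7))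
    (@En.n l10853 (nat_lit 1129) (nat_lit 9) (nat_lit 10))
    (@En.n l2520 (nat_lit 2365) (nat_lit 6) (nat_lit 12))
    (@En.n l17368 (nat_lit 2365) (nat_lit 7) (nat_lit 9))
    (@En.n l26639 (nat_lit 4195) (nat_lit 12) (nat_lit 9))
    (@En.n l26640 (nat_lit 3177) (nat_lit 13) (nat_lit 10))
    (@En.n l4018 (nat_lit 2347) (nat_lit 14) (nat_lit 3))
    (@En.n l26641 (nat_lit 1985) (nat_lit 0) (nat_lit 9))
    (@En.n l28 (nat_lit 2345) (nat_lit 15) (nat_lit 2))))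
  (@Cl.mk (nat_lit 0x2000800030009000e00090002000c000b00080007000400070005000e000d) (nat_lit 0x606010145000051) (nat_lit 16) Lb.e (@T16.mk En
    (@En.i (nat_lit 2344) (nat_lit 7) (nat_lit 13))
    (@En.i (nat_lit 2163) (nat_lit 1) (nat_lit 14))
    (@En.i (nat_lit 3008) (nat_lit 2) (nat_lit 5))
    (@En.n l3354 (nat_lit 3267) (nat_lit 3) (nat_lit 7))
    (@En.n l12834 (nat_lit 2337) (nat_lit 4) (nat_lit 4))
    (@En.i (nat_lit 1121) (nat_lit 5) (nat_lit 7))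
    (@En.n l12835 (nat_lit 2407) (nat_lit 6) (nat_lit 8))
    (@En.n l61 (nat_lit 1123) (nat_lit 8) (nat_lit 11))
    (@En.n l2805 (nat_lit 2345) (nat_lit 9) (nat_lit 12))
    (@En.n l7 (nat_lit 2346) (nat_lit 9) (nat_lit 2))
    (@En.n l8170 (nat_lit 2345) (nat_lit 11) (nat_lit 9))
    (@En.n l3354 (nat_lit 4594) (nat_lit 12) (nat_lit 14))
    (@En.n l9582 (nat_lit 3178) (nat_lit 13) (nat_lit 9))
    (@En.n l117 (nat_lit 2344) (nat_lit 3) (nat_lit 3))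
    (@En.n l9584 (nat_lit 1989) (nat_lit 0) (nat_lit 8))
    (@En.n l3 (nat_lit 2346) (nat_lit 15) (nat_lit 2))))
  (@Cl.mk (nat_lit 0x30003000a00090009000c000a000800060004000700070006000d000d0008) (nat_lit 0x577a3400000b06) (nat_lit 16) Lb.e (@T16.mk En
    (@En.n l28025 (nat_lit 1657) (nat_lit 0) (nat_lit 8))
    (@En.n l28026 (nat_lit 2362) (nat_lit 3) (nat_lit 13))
    (@En.n l28027 (nat_lit 2850) (nat_lit 2) (nat_lit 13))
    (@En.i (nat_lit 1315) (nat_lit 3) (nat_lit 6))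
    (@En.n l403 (nat_lit 2344) (nat_lit 9) (nat_lit 7))
    (@En.n l6924 (nat_lit 3092) (nat_lit 11) (nat_lit 7))
    (@En.n l28028 (nat_lit 2334) (nat_lit 6) (nat_lit 4))
    (@En.i (nat_lit 1067) (nat_lit 7) (nat_lit 6))
    (@En.n l15413 (nat_lit 2239) (nat_lit 1) (nat_lit 8))
    (@En.n l15353 (nat_lit 1130) (nat_lit 10) (nat_lit 10))
    (@En.n l28029 (nat_lit 2363) (nat_lit 6) (nat_lit 12))
    (@En.n l28030 (nat_lit 2363) (nat_lit 7) (nat_lit 9))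
    (@En.n l28027 (nat_lit 4193) (nat_lit 13) (nat_lit 9))
    (@En.n l3517 (nat_lit 5084) (nat_lit 14) (nat_lit 10))
    (@En.n l15355 (nat_lit 2345) (nat_lit 13) (nat_lit 3))
    (@En.n l28031 (nat_lit 2362) (nat_lit 0) (nat_lit 3))))
  (@Cl.mk (nat_lit 0x200070006000e000d000200090003000d000a00090003000a0007000e0006) (nat_lit 0x5404087003030) (nat_lit 16) Lb.e (@T16.mk En
    (@En.n l18793 (nat_lit 2342) (nat_lit 5) (nat_lit 6))
    (@En.i (nat_lit 6429) (nat_lit 7) (nat_lit 14))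
    (@En.n l18794 (nat_lit 2285) (nat_lit 2) (nat_lit 7))
    (@En.n l18795 (nat_lit 669) (nat_lit 3) (nat_lit 10))
    (@En.n l18796 (nat_lit 2349) (nat_lit 4) (nat_lit 3))
    (@En.i (nat_lit 3225) (nat_lit 5) (nat_lit 9))
    (@En.n l18797 (nat_lit 2360) (nat_lit 12) (nat_lit 10))
    (@En.n l18795 (nat_lit 1714) (nat_lit 8) (nat_lit 13))
    (@En.n l4162 (nat_lit 2295) (nat_lit 8) (nat_lit 3))
    (@En.n l18798 (nat_lit 1773) (nat_lit 10) (nat_lit 9))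
    (@En.n l3 (nat_lit 2348) (nat_lit 10) (nat_lit 2))
    (@En.n l2443 (nat_lit 2295) (nat_lit 12) (nat_lit 13))
    (@En.n l968 (nat_lit 2057) (nat_lit 13) (nat_lit 14))
    (@En.n l18799 (nat_lit 6263) (nat_lit 14) (nat_lit 6))
    (@En.n l17 (nat_lit 2339) (nat_lit 3) (nat_lit 7))
    (@En.n l18 (nat_lit 2348) (nat_lit 15) (nat_lit 2))))
  (@Cl.mk (nat_lit 0x200080006000e000d000200090003000d0008000b0003000a0007000e0005) (nat_lit 0x5704083003050) (nat_lit 16) Lb.e (@T16.mk En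
    (@En.n l23587 (nat_lit 2350) (nat_lit 5) (nat_lit 5))
    (@En.n l8122 (nat_lit 6428) (nat_lit 7) (nat_lit 14))
    (@En.n l564 (nat_lit 2320) (nat_lit 2) (nat_lit 7))
    (@En.n l25426 (nat_lit 825) (nat_lit 3) (nat_lit 10))
    (@En.n l25393 (nat_lit 2348) (nat_lit 4) (nat_lit 3))
    (@En.i (nat_lit 3227) (nat_lit 7) (nat_lit 11))
    (@En.n l12595 (nat_lit 2070) (nat_lit 6) (nat_lit 8))
    (@En.n l8122 (nat_lit 1583) (nat_lit 8) (nat_lit 13))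
    (@En.n l8118 (nat_lit 2298) (nat_lit 8) (nat_lit 3))
    (@En.n l6296 (nat_lit 2002) (nat_lit 10) (nat_lit 9))
    (@En.n l3 (nat_lit 2349) (nat_lit 10) (nat_lit 2))
    (@En.n l5022 (nat_lit 2298) (nat_lit 12) (nat_lit 13))
    (@En.n l2511 (nat_lit 2056) (nat_lit 13) (nat_lit 14))
    (@En.i (nat_lit 6266) (nat_lit 14) (nat_lit 6))
    (@En.n l34420 (nat_lit 2350) (nat_lit 3) (nat_lit 8))
    (@En.n l18 (nat_lit 2349) (nat_lit 15) (nat_lit 2))))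
  (@Cl.mk (nat_lit 0x200080003000c0008000b000b0004000b00080005000500080005000e000d) (nat_lit 0x209381022006017) (nat_lit 16) Lb.e (@T16.mk En
    (@En.n l26627 (nat_lit 2300) (nat_lit 2) (nat_lit 13))
    (@En.n l26628 (nat_lit 755) (nat_lit 1) (nat_lit 14))
    (@En.n l26629 (nat_lit 5935) (nat_lit 2) (nat_lit 5))
    (@En.n l26630 (nat_lit 2352) (nat_lit 10) (nat_lit 8))
    (@En.n l26631 (nat_lit 2352) (nat_lit 11) (nat_lit 5))
    (@En.n l26632 (nat_lit 6198) (nat_lit 5) (nat_lit 5))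
    (@En.n l3308 (nat_lit 886) (nat_lit 6) (nat_lit 8))
    (@En.n l12491 (nat_lit 807) (nat_lit 8) (nat_lit 11))
    (@En.n l26633 (nat_lit 2339) (nat_lit 8) (nat_lit 4))
    (@En.n l26634 (nat_lit 2349) (nat_lit 5) (nat_lit 11))
    (@En.n l26632 (nat_lit 2351) (nat_lit 7) (nat_lit 11))
    (@En.n l26635 (nat_lit 2069) (nat_lit 12) (nat_lit 8))
    (@En.n l13965 (nat_lit 1584) (nat_lit 13) (nat_lit 12))
    (@En.n l26636 (nat_lit 2300) (nat_lit 14) (nat_lit 3))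
    (@En.n l26637 (nat_lit 1464) (nat_lit 0) (nat_lit 8))
    (@En.n l107 (nat_lit 2350) (nat_lit 15) (nat_lit 2))))
  (@Cl.mk (nat_lit 0x20006000e000d000200090003000d000b000a0003000a00070005000e0006) (nat_lit 0x57040778040060) (nat_lit 16) Lb.e (@T16.mk En
    (@En.n l900 (nat_lit 2342) (nat_lit 4) (nat_lit 6))
    (@En.n l23733 (nat_lit 2349) (nat_lit 1) (nat_lit 14))
    (@En.i (nat_lit 6199) (nat_lit 2) (nat_lit 5))
    (@En.n l3172 (nat_lit 2380) (nat_lit 7) (nat_lit 7))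
    (@En.n l1013 (nat_lit 434) (nat_lit 4) (nat_lit 10))
    (@En.i (nat_lit 2343) (nat_lit 5) (nat_lit 3))
    (@En.n l10440 (nat_lit 3223) (nat_lit 0) (nat_lit 10))
    (@En.n l77 (nat_lit 2365) (nat_lit 8) (nat_lit 11))
    (@En.n l23734 (nat_lit 1733) (nat_lit 9) (nat_lit 13))
    (@En.n l23735 (nat_lit 2303) (nat_lit 9) (nat_lit 3))
    (@En.n l3172 (nat_lit 1769) (nat_lit 11) (nat_lit 9))
    (@En.n l3 (nat_lit 2351) (nat_lit 11) (nat_lit 2))
    (@En.n l3165 (nat_lit 2303) (nat_lit 13) (nat_lit 13))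
    (@En.n l1126 (nat_lit 2545) (nat_lit 1) (nat_lit 14))
    (@En.n l5076 (nat_lit 6074) (nat_lit 2) (nat_lit 6))
    (@En.n l17 (nat_lit 2351) (nat_lit 15) (nat_lit 2))))
noncomputable def a147 : T16 Cl := @T16.mk Cl
  (@Cl.mk (nat_lit 0x20005000c0009000500080004000e000d000200070003000b0008000e000b) (nat_lit 0x32050160008309) (nat_lit 16) Lb.e (@T16.mk En
    (@En.n l26655 (nat_lit 2350) (nat_lit 10) (nat_lit 11))
    (@En.n l26656 (nat_lit 2353) (nat_lit 11) (nat_lit 14))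
    (@En.n l26657 (nat_lit 2358) (nat_lit 12) (nat_lit 8))
    (@En.n l2036 (nat_lit 1587) (nat_lit 3) (nat_lit 11))
    (@En.n l2221 (nat_lit 2354) (nat_lit 4) (nat_lit 3))
    (@En.n l9806 (nat_lit 1463) (nat_lit 5) (nat_lit 7))
    (@En.n l3 (nat_lit 2352) (nat_lit 6) (nat_lit 2))
    (@En.n l649 (nat_lit 2354) (nat_lit 8) (nat_lit 13))
    (@En.n l1002 (nat_lit 754) (nat_lit 9) (nat_lit 14))
    (@En.n l2364 (nat_lit 5934) (nat_lit 9) (nat_lit 4))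
    (@En.n l9807 (nat_lit 13810) (nat_lit 10) (nat_lit 8))
    (@En.n l26658 (nat_lit 6112) (nat_lit 4) (nat_lit 5))
    (@En.n l698 (nat_lit 883) (nat_lit 13) (nat_lit 9))
    (@En.n l2031 (nat_lit 808) (nat_lit 7) (nat_lit 12))
    (@En.i (nat_lit 2337) (nat_lit 7) (nat_lit 5))
    (@En.n l50 (nat_lit 2352) (nat_lit 15) (nat_lit 2))))
  (@Cl.mk (nat_lit 0x200070003000b000e000a0002000b0005000c0009000600050004000e000d) (nat_lit 0x8c80206200016) (nat_lit 16) Lb.e (@T16.mk En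
    (@En.n l61 (nat_lit 2355) (nat_lit 7) (nat_lit 13))
    (@En.n l5336 (nat_lit 753) (nat_lit 1) (nat_lit 14))
    (@En.n l12838 (nat_lit 5941) (nat_lit 2) (nat_lit 4))
    (@En.i (nat_lit 844) (nat_lit 3) (nat_lit 5))
    (@En.n l12839 (nat_lit 6156) (nat_lit 4) (nat_lit 6))
    (@En.n l6066 (nat_lit 881) (nat_lit 5) (nat_lit 9))
    (@En.n l12839 (nat_lit 850) (nat_lit 7) (nat_lit 12))
    (@En.n l12840 (nat_lit 2352) (nat_lit 14) (nat_lit 5))
    (@En.n l12841 (nat_lit 2350) (nat_lit 9) (nat_lit 11))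
    (@En.n l107 (nat_lit 2353) (nat_lit 9) (nat_lit 2))
    (@En.n l12839 (nat_lit 2342) (nat_lit 11) (nat_lit 10))
    (@En.n l4125 (nat_lit 3945) (nat_lit 12) (nat_lit 14))
    (@En.n l12839 (nat_lit 498) (nat_lit 13) (nat_lit 11))
    (@En.n l72 (nat_lit 2355) (nat_lit 3) (nat_lit 3))
    (@En.n l1935 (nat_lit 1465) (nat_lit 4) (nat_lit 7))
    (@En.n l17 (nat_lit 2353) (nat_lit 15) (nat_lit 2))))
  (@Cl.mk (nat_lit 0x20005000c000a000500080004000d000d000600030003000b0008000e000b) (nat_lit 0x32050560008408) (nat_lit 16) Lb.e (@T16.mk En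
    (@En.i (nat_lit 2300) (nat_lit 11) (nat_lit 11))
    (@En.n l180 (nat_lit 2355) (nat_lit 1) (nat_lit 14))
    (@En.n l619 (nat_lit 1967) (nat_lit 2) (nat_lit 8))
    (@En.i (nat_lit 1750) (nat_lit 3) (nat_lit 11))
    (@En.n l5331 (nat_lit 2352) (nat_lit 4) (nat_lit 3))
    (@En.n l18 (nat_lit 2356) (nat_lit 5) (nat_lit 3))
    (@En.n l7 (nat_lit 1552) (nat_lit 6) (nat_lit 6))
    (@En.n l61 (nat_lit 2356) (nat_lit 8) (nat_lit 13))
    (@En.n l564 (nat_lit 2576) (nat_lit 9) (nat_lit 13))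
    (@En.n l7 (nat_lit 5933) (nat_lit 9) (nat_lit 4))
    (@En.i (nat_lit 13732) (nat_lit 10) (nat_lit 8))
    (@En.i (nat_lit 6109) (nat_lit 5) (nat_lit 5))
    (@En.i (nat_lit 2184) (nat_lit 13) (nat_lit 10))
    (@En.n l1643 (nat_lit 806) (nat_lit 14) (nat_lit 12))
    (@En.i (nat_lit 2336) (nat_lit 13) (nat_lit 5))
    (@En.n l11 (nat_lit 2354) (nat_lit 15) (nat_lit 2))))
  (@Cl.mk (nat_lit 0x2000b0005000c000a000600050004000d000d000600030003000b000e000a) (nat_lit 0x2062000560008c7) (nat_lit 16) Lb.e (@T16.mk En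
    (@En.i (nat_lit 2301) (nat_lit 12) (nat_lit 10))
    (@En.n l619 (nat_lit 3943) (nat_lit 4) (nat_lit 14))
    (@En.i (nat_lit 1749) (nat_lit 2) (nat_lit 11))
    (@En.i (nat_lit 2353) (nat_lit 13) (nat_lit 3))
    (@En.n l18 (nat_lit 2357) (nat_lit 4) (nat_lit 3))
    (@En.n l7 (nat_lit 1760) (nat_lit 0) (nat_lit 6))
    (@En.n l61 (nat_lit 2357) (nat_lit 7) (nat_lit 13))
    (@En.n l564 (nat_lit 2511) (nat_lit 8) (nat_lit 13))
    (@En.n l7 (nat_lit 5939) (nat_lit 8) (nat_lit 4))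
    (@En.i (nat_lit 840) (nat_lit 9) (nat_lit 5))
    (@En.n l14921 (nat_lit 6108) (nat_lit 5) (nat_lit 6))
    (@En.i (nat_lit 2190) (nat_lit 12) (nat_lit 10))
    (@En.n l1643 (nat_lit 439) (nat_lit 13) (nat_lit 12))
    (@En.n l159 (nat_lit 2354) (nat_lit 14) (nat_lit 5))
    (@En.n l11 (nat_lit 2300) (nat_lit 10) (nat_lit 11))
    (@En.n l107 (nat_lit 2355) (nat_lit 15) (nat_lit 2))))
  (@Cl.mk (nat_lit 0x20005000c000b000500080004000d0005000e00030002000b0008000e000b) (nat_lit 0x32050505008508) (nat_lit 16) Lb.e (@T16.mk En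
    (@En.i (nat_lit 2299) (nat_lit 12) (nat_lit 11))
    (@En.n l180 (nat_lit 2357) (nat_lit 1) (nat_lit 14))
    (@En.n l619 (nat_lit 1968) (nat_lit 14) (nat_lit 8))
    (@En.i (nat_lit 1753) (nat_lit 3) (nat_lit 11))
    (@En.n l17 (nat_lit 2356) (nat_lit 4) (nat_lit 2))
    (@En.i (nat_lit 2354) (nat_lit 5) (nat_lit 3))
    (@En.i (nat_lit 13536) (nat_lit 0) (nat_lit 14))
    (@En.n l7 (nat_lit 1553) (nat_lit 7) (nat_lit 5))
    (@En.n l564 (nat_lit 2574) (nat_lit 9) (nat_lit 13))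
    (@En.n l7 (nat_lit 5937) (nat_lit 9) (nat_lit 4))
    (@En.i (nat_lit 13731) (nat_lit 10) (nat_lit 8))
    (@En.i (nat_lit 6107) (nat_lit 6) (nat_lit 5))
    (@En.n l644 (nat_lit 2191) (nat_lit 13) (nat_lit 11))
    (@En.n l1643 (nat_lit 809) (nat_lit 9) (nat_lit 12))
    (@En.i (nat_lit 2335) (nat_lit 9) (nat_lit 5))
    (@En.n l11 (nat_lit 2356) (nat_lit 15) (nat_lit 2))))
  (@Cl.mk (nat_lit 0x2000b0005000c000b000600050004000d0005000e00030002000b000e000a) (nat_lit 0x2062000507008c7) (nat_lit 16) Lb.e (@T16.mk En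
    (@En.i (nat_lit 2297) (nat_lit 13) (nat_lit 10))
    (@En.n l619 (nat_lit 3944) (nat_lit 4) (nat_lit 14))
    (@En.i (nat_lit 1757) (nat_lit 2) (nat_lit 11))
    (@En.n l17 (nat_lit 2357) (nat_lit 3) (nat_lit 2))
    (@En.i (nat_lit 2355) (nat_lit 4) (nat_lit 3))
    (@En.i (nat_lit 13537) (nat_lit 0) (nat_lit 14))
    (@En.n l7 (nat_lit 1606) (nat_lit 6) (nat_lit 5))
    (@En.n l564 (nat_lit 2512) (nat_lit 8) (nat_lit 13))
    (@En.n l7 (nat_lit 5942) (nat_lit 4) (nat_lit 4))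
    (@En.i (nat_lit 846) (nat_lit 5) (nat_lit 5))
    (@En.i (nat_lit 6106) (nat_lit 6) (nat_lit 6))
    (@En.n l644 (nat_lit 2193) (nat_lit 8) (nat_lit 11))
    (@En.n l1643 (nat_lit 851) (nat_lit 9) (nat_lit 12))
    (@En.n l159 (nat_lit 2356) (nat_lit 14) (nat_lit 5))
    (@En.n l11 (nat_lit 2299) (nat_lit 11) (nat_lit 11))
    (@En.n l107 (nat_lit 2357) (nat_lit 15) (nat_lit 2))))
  (@Cl.mk (nat_lit 0x2000800030008000e000b0002000b000b00080005000800050005000e000d) (nat_lit 0x302b10012060021) (nat_lit 16) Lb.e (@T16.mk En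
    (@En.n l12804 (nat_lit 1967) (nat_lit 7) (nat_lit 13))
    (@En.n l6080 (nat_lit 3351) (nat_lit 1) (nat_lit 14))
    (@En.n l152 (nat_lit 5988) (nat_lit 2) (nat_lit 5))
    (@En.n l13559 (nat_lit 2353) (nat_lit 3) (nat_lit 5))
    (@En.n l7055 (nat_lit 12981) (nat_lit 10) (nat_lit 8))
    (@En.i (nat_lit 5999) (nat_lit 5) (nat_lit 5))
    (@En.n l13560 (nat_lit 889) (nat_lit 6) (nat_lit 8))
    (@En.n l13561 (nat_lit 814) (nat_lit 8) (nat_lit 11))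
    (@En.n l13562 (nat_lit 2359) (nat_lit 9) (nat_lit 11))
    (@En.n l18 (nat_lit 2358) (nat_lit 9) (nat_lit 2))
    (@En.i (nat_lit 2069) (nat_lit 11) (nat_lit 11))
    (@En.n l2213 (nat_lit 1951) (nat_lit 12) (nat_lit 14))
    (@En.i (nat_lit 3208) (nat_lit 13) (nat_lit 8))
    (@En.n l12810 (nat_lit 1967) (nat_lit 3) (nat_lit 3))
    (@En.n l7882 (nat_lit 1981) (nat_lit 0) (nat_lit 8))
    (@En.n l28 (nat_lit 2358) (nat_lit 15) (nat_lit 2))))
  (@Cl.mk (nat_lit 0x20009000300090008000c000b000a000700040007000500080006000e000d) (nat_lit 0x206009000000006) (nat_lit 16) Lb.e (@T16.mk En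
    (@En.n l13556 (nat_lit 2361) (nat_lit 2) (nat_lit 13))
    (@En.n l3382 (nat_lit 2802) (nat_lit 1) (nat_lit 14))
    (@En.n l5693 (nat_lit 5636) (nat_lit 2) (nat_lit 6))
    (@En.i (nat_lit 4883) (nat_lit 3) (nat_lit 8))
    (@En.n l27253 (nat_lit 2350) (nat_lit 4) (nat_lit 5))
    (@En.n l17930 (nat_lit 2346) (nat_lit 5) (nat_lit 7))
    (@En.n l27254 (nat_lit 6175) (nat_lit 6) (nat_lit 4))
    (@En.n l61 (nat_lit 890) (nat_lit 7) (nat_lit 7))
    (@En.n l2348 (nat_lit 6098) (nat_lit 9) (nat_lit 10))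
    (@En.n l27255 (nat_lit 2360) (nat_lit 10) (nat_lit 11))
    (@En.n l21814 (nat_lit 4188) (nat_lit 11) (nat_lit 12))
    (@En.n l27256 (nat_lit 4185) (nat_lit 12) (nat_lit 8))
    (@En.n l27257 (nat_lit 9418) (nat_lit 13) (nat_lit 9))
    (@En.n l13558 (nat_lit 2361) (nat_lit 14) (nat_lit 3))
    (@En.n l3187 (nat_lit 4363) (nat_lit 0) (nat_lit 9))
    (@En.n l3 (nat_lit 2359) (nat_lit 15) (nat_lit 2))))
  (@Cl.mk (nat_lit 0x2000a0003000a0008000b00090006000d00060005000300080007000e000d) (nat_lit 0x206080000001007) (nat_lit 16) Lb.e (@T16.mk En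
    (@En.n l32853 (nat_lit 4191) (nat_lit 2) (nat_lit 13))
    (@En.n l9182 (nat_lit 2553) (nat_lit 1) (nat_lit 14))
    (@En.n l32854 (nat_lit 5634) (nat_lit 2) (nat_lit 7))
    (@En.n l32855 (nat_lit 2359) (nat_lit 3) (nat_lit 8))
    (@En.n l32856 (nat_lit 4195) (nat_lit 4) (nat_lit 3))
    (@En.n l31423 (nat_lit 2349) (nat_lit 0) (nat_lit 5))
    (@En.n l32857 (nat_lit 2345) (nat_lit 6) (nat_lit 6))
    (@En.n l32858 (nat_lit 6241) (nat_lit 8) (nat_lit 13))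
    (@En.n l32859 (nat_lit 2321) (nat_lit 8) (nat_lit 6))
    (@En.n l32860 (nat_lit 6172) (nat_lit 10) (nat_lit 9))
    (@En.n l32861 (nat_lit 3244) (nat_lit 7) (nat_lit 11))
    (@En.i (nat_lit 3969) (nat_lit 12) (nat_lit 8))
    (@En.n l32862 (nat_lit 9318) (nat_lit 13) (nat_lit 10))
    (@En.n l32863 (nat_lit 4191) (nat_lit 14) (nat_lit 3))
    (@En.n l32864 (nat_lit 1995) (nat_lit 0) (nat_lit 10))
    (@En.n l28 (nat_lit 2360) (nat_lit 15) (nat_lit 2))))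
  (@Cl.mk (nat_lit 0x3000300090008000c000b000a000800040007000500080006000d000d0008) (nat_lit 0x70080000050560) (nat_lit 16) Lb.e (@T16.mk En
    (@En.n l8965 (nat_lit 4361) (nat_lit 0) (nat_lit 8))
    (@En.n l61 (nat_lit 4190) (nat_lit 3) (nat_lit 13))
    (@En.n l33762 (nat_lit 4306) (nat_lit 2) (nat_lit 13))
    (@En.n l33763 (nat_lit 5635) (nat_lit 3) (nat_lit 6))
    (@En.n l117 (nat_lit 4882) (nat_lit 10) (nat_lit 8))
    (@En.i (nat_lit 2300) (nat_lit 5) (nat_lit 5))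
    (@En.n l18134 (nat_lit 2344) (nat_lit 11) (nat_lit 7))
    (@En.n l33764 (nat_lit 6179) (nat_lit 7) (nat_lit 4))
    (@En.n l1578 (nat_lit 4390) (nat_lit 0) (nat_lit 8))
    (@En.n l17285 (nat_lit 6097) (nat_lit 10) (nat_lit 10))
    (@En.n l10727 (nat_lit 4191) (nat_lit 11) (nat_lit 11))
    (@En.n l33765 (nat_lit 4187) (nat_lit 12) (nat_lit 12))
    (@En.n l33766 (nat_lit 4184) (nat_lit 13) (nat_lit 8))
    (@En.n l25047 (nat_lit 10394) (nat_lit 14) (nat_lit 9))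
    (@En.n l27230 (nat_lit 2359) (nat_lit 13) (nat_lit 3))
    (@En.n l18 (nat_lit 4190) (nat_lit 0) (nat_lit 3))))
  (@Cl.mk (nat_lit 0x2000a00090009000c000a000900060004000700070006000d0007000e0003) (nat_lit 0x50703500000b0c0) (nat_lit 16) Lb.e (@T16.mk En
    (@En.n l26661 (nat_lit 2347) (nat_lit 15) (nat_lit 3))
    (@En.n l4984 (nat_lit 12999) (nat_lit 0) (nat_lit 14))
    (@En.n l12854 (nat_lit 1862) (nat_lit 2) (nat_lit 7))
    (@En.n l564 (nat_lit 2882) (nat_lit 2) (nat_lit 13))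
    (@En.n l29942 (nat_lit 1316) (nat_lit 4) (nat_lit 6))
    (@En.n l5783 (nat_lit 2366) (nat_lit 5) (nat_lit 7))
    (@En.n l14066 (nat_lit 3098) (nat_lit 6) (nat_lit 7))
    (@En.n l9254 (nat_lit 2304) (nat_lit 7) (nat_lit 4))
    (@En.n l13355 (nat_lit 1072) (nat_lit 8) (nat_lit 6))
    (@En.n l644 (nat_lit 2242) (nat_lit 10) (nat_lit 9))
    (@En.n l2683 (nat_lit 1131) (nat_lit 11) (nat_lit 10))
    (@En.n l936 (nat_lit 2364) (nat_lit 6) (nat_lit 12))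
    (@En.n l55 (nat_lit 2364) (nat_lit 7) (nat_lit 9))
    (@En.i (nat_lit 4194) (nat_lit 14) (nat_lit 9))
    (@En.n l936 (nat_lit 5083) (nat_lit 14) (nat_lit 10))
    (@En.n l17 (nat_lit 2362) (nat_lit 15) (nat_lit 2))))
  (@Cl.mk (nat_lit 0x20007000d000d000900030003000b0009000c0009000700050004000e0007) (nat_lit 0x700569200030) (nat_lit 16) Lb.e (@T16.mk En
    (@En.n l26661 (nat_lit 2347) (nat_lit 5) (nat_lit 7))
    (@En.n l26662 (nat_lit 2073) (nat_lit 1) (nat_lit 14))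
    (@En.n l26663 (nat_lit 2305) (nat_lit 2) (nat_lit 4))
    (@En.n l7429 (nat_lit 1068) (nat_lit 3) (nat_lit 5))
    (@En.i (nat_lit 2240) (nat_lit 4) (nat_lit 7))
    (@En.n l17206 (nat_lit 1132) (nat_lit 5) (nat_lit 9))
    (@En.n l7429 (nat_lit 13426) (nat_lit 6) (nat_lit 12))
    (@En.i (nat_lit 4352) (nat_lit 13) (nat_lit 9))
    (@En.n l18565 (nat_lit 5085) (nat_lit 9) (nat_lit 11))
    (@En.n l21765 (nat_lit 2365) (nat_lit 9) (nat_lit 3))
    (@En.n l18 (nat_lit 2364) (nat_lit 10) (nat_lit 3))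
    (@En.n l4920 (nat_lit 1992) (nat_lit 12) (nat_lit 9))
    (@En.n l61 (nat_lit 2364) (nat_lit 13) (nat_lit 13))
    (@En.n l564 (nat_lit 2885) (nat_lit 14) (nat_lit 13))
    (@En.n l7429 (nat_lit 1318) (nat_lit 3) (nat_lit 7))
    (@En.n l28 (nat_lit 2363) (nat_lit 15) (nat_lit 2))))
  (@Cl.mk (nat_lit 0x20007000d0008000e00030002000b0009000c0009000800050004000e0007) (nat_lit 0xb6c0056a240020) (nat_lit 16) Lb.e (@T16.mk En
    (@En.i (nat_lit 2362) (nat_lit 6) (nat_lit 7))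
    (@En.n l7165 (nat_lit 2076) (nat_lit 1) (nat_lit 14))
    (@En.n l152 (nat_lit 2367) (nat_lit 2) (nat_lit 4))
    (@En.n l13355 (nat_lit 1071) (nat_lit 3) (nat_lit 5))
    (@En.n l644 (nat_lit 2246) (nat_lit 11) (nat_lit 8))
    (@En.i (nat_lit 1133) (nat_lit 5) (nat_lit 9))
    (@En.n l4252 (nat_lit 13428) (nat_lit 6) (nat_lit 12))
    (@En.i (nat_lit 4353) (nat_lit 14) (nat_lit 9))
    (@En.i (nat_lit 5082) (nat_lit 9) (nat_lit 11))
    (@En.n l17 (nat_lit 2364) (nat_lit 9) (nat_lit 2))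
    (@En.i (nat_lit 2363) (nat_lit 10) (nat_lit 3))
    (@En.i (nat_lit 12998) (nat_lit 0) (nat_lit 14))
    (@En.i (nat_lit 1860) (nat_lit 13) (nat_lit 8))
    (@En.n l564 (nat_lit 2883) (nat_lit 14) (nat_lit 13))
    (@En.n l3506 (nat_lit 1320) (nat_lit 4) (nat_lit 7))
    (@En.n l28 (nat_lit 2364) (nat_lit 15) (nat_lit 2))))
  (@Cl.mk (nat_lit 0x20007000e000d0002000a0003000b0009000c0009000600050004000e0007) (nat_lit 0x6108066a200020) (nat_lit 16) Lb.e (@T16.mk En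
    (@En.n l8466 (nat_lit 2345) (nat_lit 4) (nat_lit 7))
    (@En.n l1708 (nat_lit 2072) (nat_lit 1) (nat_lit 14))
    (@En.n l237 (nat_lit 2343) (nat_lit 2) (nat_lit 4))
    (@En.i (nat_lit 1069) (nat_lit 3) (nat_lit 5))
    (@En.n l415 (nat_lit 2406) (nat_lit 8) (nat_lit 6))
    (@En.n l414 (nat_lit 1136) (nat_lit 5) (nat_lit 9))
    (@En.i (nat_lit 13425) (nat_lit 6) (nat_lit 12))
    (@En.n l13138 (nat_lit 4351) (nat_lit 12) (nat_lit 9))
    (@En.n l11 (nat_lit 3179) (nat_lit 9) (nat_lit 11))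
    (@En.n l24272 (nat_lit 2363) (nat_lit 9) (nat_lit 3))
    (@En.i (nat_lit 1990) (nat_lit 11) (nat_lit 10))
    (@En.n l3 (nat_lit 2365) (nat_lit 11) (nat_lit 2))
    (@En.n l20140 (nat_lit 2363) (nat_lit 13) (nat_lit 13))
    (@En.n l3174 (nat_lit 2161) (nat_lit 1) (nat_lit 14))
    (@En.i (nat_lit 1321) (nat_lit 2) (nat_lit 7))
    (@En.n l17 (nat_lit 2365) (nat_lit 15) (nat_lit 2))))
  (@Cl.mk (nat_lit 0x20009000e00090002000c000b000a0007000400070005000d0006000e0003) (nat_lit 0x50101480000b0c0) (nat_lit 16) Lb.e (@T16.mk En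
    (@En.n l18134 (nat_lit 2344) (nat_lit 4) (nat_lit 3))
    (@En.i (nat_lit 13706) (nat_lit 0) (nat_lit 14))
    (@En.n l3402 (nat_lit 1865) (nat_lit 2) (nat_lit 6))
    (@En.n l18867 (nat_lit 4448) (nat_lit 8) (nat_lit 13))
    (@En.n l18868 (nat_lit 3009) (nat_lit 4) (nat_lit 5))
    (@En.n l117 (nat_lit 3262) (nat_lit 5) (nat_lit 7))
    (@En.n l575 (nat_lit 2335) (nat_lit 6) (nat_lit 4))
    (@En.n l13019 (nat_lit 1086) (nat_lit 7) (nat_lit 7))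
    (@En.n l11881 (nat_lit 2244) (nat_lit 9) (nat_lit 10))
    (@En.n l1578 (nat_lit 1201) (nat_lit 10) (nat_lit 11))
    (@En.n l12772 (nat_lit 2362) (nat_lit 11) (nat_lit 12))
    (@En.n l3 (nat_lit 2366) (nat_lit 11) (nat_lit 2))
    (@En.n l12773 (nat_lit 2362) (nat_lit 13) (nat_lit 9))
    (@En.i (nat_lit 4595) (nat_lit 1) (nat_lit 14))
    (@En.i (nat_lit 5087) (nat_lit 2) (nat_lit 9))
    (@En.n l17 (nat_lit 2366) (nat_lit 15) (nat_lit 2))))
  (@Cl.mk (nat_lit 0x20006000d0007000e00030002000d0009000c0003000a00090004000e0007) (nat_lit 0x6070067a042040) (nat_lit 16) Lb.e (@T16.mk En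
    (@En.n l1177 (nat_lit 2304) (nat_lit 6) (nat_lit 7))
    (@En.n l2400 (nat_lit 2294) (nat_lit 1) (nat_lit 14))
    (@En.n l13355 (nat_lit 1174) (nat_lit 2) (nat_lit 4))
    (@En.n l644 (nat_lit 2247) (nat_lit 10) (nat_lit 9))
    (@En.n l9316 (nat_lit 490) (nat_lit 4) (nat_lit 10))
    (@En.n l3 (nat_lit 2302) (nat_lit 5) (nat_lit 3))
    (@En.n l7130 (nat_lit 14028) (nat_lit 6) (nat_lit 12))
    (@En.n l2403 (nat_lit 4189) (nat_lit 14) (nat_lit 9))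
    (@En.i (nat_lit 2607) (nat_lit 9) (nat_lit 13))
    (@En.n l17 (nat_lit 2367) (nat_lit 9) (nat_lit 2))
    (@En.n l2477 (nat_lit 2305) (nat_lit 10) (nat_lit 3))
    (@En.n l9316 (nat_lit 13545) (nat_lit 0) (nat_lit 14))
    (@En.i (nat_lit 1505) (nat_lit 13) (nat_lit 7))
    (@En.n l564 (nat_lit 2610) (nat_lit 14) (nat_lit 13))
    (@En.n l3911 (nat_lit 6239) (nat_lit 4) (nat_lit 6))
    (@En.n l28 (nat_lit 2367) (nat_lit 15) (nat_lit 2))))
noncomputable def a148 : T16 Cl := @T16.mk Cl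
  (@Cl.mk (nat_lit 0x2000c000a000d000900040003000e00060002000d0007000d0003000e0003) (nat_lit 0x700200200a08030) (nat_lit 16) Lb.e (@T16.mk En
    (@En.i (nat_lit 2277) (nat_lit 9) (nat_lit 3))
    (@En.i (nat_lit 13913) (nat_lit 0) (nat_lit 14))
    (@En.i (nat_lit 2246) (nat_lit 2) (nat_lit 3))
    (@En.n l1865 (nat_lit 2395) (nat_lit 0) (nat_lit 13))
    (@En.i (nat_lit 2364) (nat_lit 14) (nat_lit 7))
    (@En.i (nat_lit 12676) (nat_lit 6) (nat_lit 13))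
    (@En.n l28 (nat_lit 2368) (nat_lit 6) (nat_lit 2))
    (@En.i (nat_lit 2369) (nat_lit 7) (nat_lit 6))
    (@En.n l7165 (nat_lit 2669) (nat_lit 1) (nat_lit 14))
    (@En.n l152 (nat_lit 2372) (nat_lit 2) (nat_lit 3))
    (@En.n l1865 (nat_lit 3606) (nat_lit 10) (nat_lit 4))
    (@En.i (nat_lit 6426) (nat_lit 4) (nat_lit 9))
    (@En.i (nat_lit 13076) (nat_lit 5) (nat_lit 13))
    (@En.i (nat_lit 4369) (nat_lit 14) (nat_lit 10))
    (@En.i (nat_lit 6825) (nat_lit 8) (nat_lit 12))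
    (@En.n l17 (nat_lit 2368) (nat_lit 15) (nat_lit 2))))
  (@Cl.mk (nat_lit 0x2000b000a000a000d000a0005000300060006000d0006000d0003000e0003) (nat_lit 0x701130000b07030) (nat_lit 16) Lb.e (@T16.mk En
    (@En.i (nat_lit 2273) (nat_lit 15) (nat_lit 3))
    (@En.n l1863 (nat_lit 13912) (nat_lit 0) (nat_lit 14))
    (@En.i (nat_lit 2242) (nat_lit 2) (nat_lit 3))
    (@En.n l3082 (nat_lit 2397) (nat_lit 0) (nat_lit 13))
    (@En.i (nat_lit 2362) (nat_lit 4) (nat_lit 6))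
    (@En.n l936 (nat_lit 12714) (nat_lit 6) (nat_lit 13))
    (@En.n l14065 (nat_lit 2370) (nat_lit 6) (nat_lit 6))
    (@En.n l14066 (nat_lit 3695) (nat_lit 7) (nat_lit 6))
    (@En.n l9254 (nat_lit 2371) (nat_lit 8) (nat_lit 3))
    (@En.n l14067 (nat_lit 3603) (nat_lit 0) (nat_lit 5))
    (@En.n l2683 (nat_lit 6408) (nat_lit 11) (nat_lit 10))
    (@En.n l936 (nat_lit 2368) (nat_lit 12) (nat_lit 13))
    (@En.n l55 (nat_lit 2368) (nat_lit 13) (nat_lit 10))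
    (@En.i (nat_lit 4373) (nat_lit 14) (nat_lit 10))
    (@En.n l936 (nat_lit 6823) (nat_lit 12) (nat_lit 11))
    (@En.n l17 (nat_lit 2369) (nat_lit 15) (nat_lit 2))))
  (@Cl.mk (nat_lit 0x2000a000e000a0002000d000b000600030006000d0005000d0003000e0003) (nat_lit 0x701024000a0b030) (nat_lit 16) Lb.e (@T16.mk En
    (@En.i (nat_lit 2272) (nat_lit 4) (nat_lit 3))
    (@En.i (nat_lit 13911) (nat_lit 0) (nat_lit 14))
    (@En.i (nat_lit 2244) (nat_lit 2) (nat_lit 3))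
    (@En.i (nat_lit 3679) (nat_lit 0) (nat_lit 13))
    (@En.n l2678 (nat_lit 2366) (nat_lit 4) (nat_lit 5))
    (@En.n l1638 (nat_lit 12496) (nat_lit 6) (nat_lit 13))
    (@En.n l810 (nat_lit 3766) (nat_lit 6) (nat_lit 6))
    (@En.n l28 (nat_lit 2373) (nat_lit 7) (nat_lit 3))
    (@En.n l590 (nat_lit 3602) (nat_lit 0) (nat_lit 6))
    (@En.i (nat_lit 6410) (nat_lit 14) (nat_lit 11))
    (@En.n l5978 (nat_lit 2369) (nat_lit 11) (nat_lit 13))
    (@En.n l3 (nat_lit 2370) (nat_lit 11) (nat_lit 2))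
    (@En.n l5979 (nat_lit 2369) (nat_lit 13) (nat_lit 10))
    (@En.i (nat_lit 4601) (nat_lit 1) (nat_lit 14))
    (@En.i (nat_lit 6827) (nat_lit 2) (nat_lit 10))
    (@En.n l17 (nat_lit 2370) (nat_lit 15) (nat_lit 2))))
  (@Cl.mk (nat_lit 0x2000c000a000a000d0004000b000300060006000d0005000d0003000e0003) (nat_lit 0x700004000a05070) (nat_lit 16) Lb.e (@T16.mk En
    (@En.n l117 (nat_lit 2269) (nat_lit 15) (nat_lit 3))
    (@En.n l1758 (nat_lit 13910) (nat_lit 0) (nat_lit 14))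
    (@En.i (nat_lit 2243) (nat_lit 2) (nat_lit 3))
    (@En.i (nat_lit 2202) (nat_lit 0) (nat_lit 13))
    (@En.i (nat_lit 2304) (nat_lit 4) (nat_lit 5))
    (@En.n l1638 (nat_lit 12671) (nat_lit 6) (nat_lit 13))
    (@En.n l107 (nat_lit 2373) (nat_lit 6) (nat_lit 6))
    (@En.n l7163 (nat_lit 2233) (nat_lit 12) (nat_lit 6))
    (@En.n l5978 (nat_lit 2369) (nat_lit 8) (nat_lit 3))
    (@En.n l2068 (nat_lit 604) (nat_lit 0) (nat_lit 11))
    (@En.n l7164 (nat_lit 2227) (nat_lit 10) (nat_lit 4))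
    (@En.n l3839 (nat_lit 2372) (nat_lit 5) (nat_lit 13))
    (@En.n l2535 (nat_lit 2372) (nat_lit 6) (nat_lit 10))
    (@En.n l1578 (nat_lit 2375) (nat_lit 14) (nat_lit 10))
    (@En.i (nat_lit 2614) (nat_lit 12) (nat_lit 12))
    (@En.n l17 (nat_lit 2371) (nat_lit 15) (nat_lit 2))))
  (@Cl.mk (nat_lit 0x2000d0006000d0003000e00030002000d000a000d0003000a0003000e0006) (nat_lit 0xa06030078b03030) (nat_lit 16) Lb.e (@T16.mk En
    (@En.n l1177 (nat_lit 2371) (nat_lit 7) (nat_lit 6))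
    (@En.n l2400 (nat_lit 2293) (nat_lit 1) (nat_lit 14))
    (@En.n l117 (nat_lit 2368) (nat_lit 9) (nat_lit 3))
    (@En.n l2381 (nat_lit 601) (nat_lit 11) (nat_lit 10))
    (@En.n l3 (nat_lit 2374) (nat_lit 4) (nat_lit 3))
    (@En.n l7130 (nat_lit 13077) (nat_lit 5) (nat_lit 13))
    (@En.n l2403 (nat_lit 4374) (nat_lit 14) (nat_lit 10))
    (@En.i (nat_lit 2610) (nat_lit 8) (nat_lit 13))
    (@En.n l17 (nat_lit 2372) (nat_lit 8) (nat_lit 2))
    (@En.i (nat_lit 2275) (nat_lit 9) (nat_lit 3))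
    (@En.n l2469 (nat_lit 13914) (nat_lit 0) (nat_lit 14))
    (@En.i (nat_lit 2247) (nat_lit 2) (nat_lit 3))
    (@En.i (nat_lit 2391) (nat_lit 0) (nat_lit 13))
    (@En.i (nat_lit 2367) (nat_lit 14) (nat_lit 6))
    (@En.n l755 (nat_lit 12670) (nat_lit 6) (nat_lit 13))
    (@En.n l28 (nat_lit 2372) (nat_lit 15) (nat_lit 2))))
  (@Cl.mk (nat_lit 0x2000b000e000a0002000d0005000c00030006000d0004000d0003000e0003) (nat_lit 0x7c1010500a04060) (nat_lit 16) Lb.e (@T16.mk En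
    (@En.i (nat_lit 2268) (nat_lit 4) (nat_lit 3))
    (@En.i (nat_lit 13940) (nat_lit 0) (nat_lit 14))
    (@En.i (nat_lit 2245) (nat_lit 2) (nat_lit 3))
    (@En.i (nat_lit 2200) (nat_lit 0) (nat_lit 13))
    (@En.i (nat_lit 2335) (nat_lit 4) (nat_lit 4))
    (@En.n l1638 (nat_lit 12497) (nat_lit 6) (nat_lit 13))
    (@En.i (nat_lit 596) (nat_lit 12) (nat_lit 6))
    (@En.i (nat_lit 2370) (nat_lit 7) (nat_lit 3))
    (@En.i (nat_lit 608) (nat_lit 0) (nat_lit 12))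
    (@En.n l4870 (nat_lit 2233) (nat_lit 14) (nat_lit 5))
    (@En.i (nat_lit 2371) (nat_lit 11) (nat_lit 13))
    (@En.n l3 (nat_lit 2373) (nat_lit 11) (nat_lit 2))
    (@En.n l97 (nat_lit 2371) (nat_lit 13) (nat_lit 10))
    (@En.i (nat_lit 4841) (nat_lit 4) (nat_lit 14))
    (@En.i (nat_lit 2615) (nat_lit 2) (nat_lit 11))
    (@En.n l17 (nat_lit 2373) (nat_lit 15) (nat_lit 2))))
  (@Cl.mk (nat_lit 0x2000d0006000d0003000e00030002000d000c000b0003000a0004000e0005) (nat_lit 0xa03030098901050) (nat_lit 16) Lb.e (@T16.mk En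
    (@En.n l5617 (nat_lit 2227) (nat_lit 7) (nat_lit 5))
    (@En.n l1578 (nat_lit 2254) (nat_lit 1) (nat_lit 14))
    (@En.n l117 (nat_lit 2873) (nat_lit 9) (nat_lit 4))
    (@En.n l2381 (nat_lit 533) (nat_lit 11) (nat_lit 10))
    (@En.i (nat_lit 2372) (nat_lit 4) (nat_lit 3))
    (@En.n l575 (nat_lit 3517) (nat_lit 0) (nat_lit 11))
    (@En.i (nat_lit 2368) (nat_lit 14) (nat_lit 12))
    (@En.i (nat_lit 2388) (nat_lit 8) (nat_lit 13))
    (@En.n l17 (nat_lit 2374) (nat_lit 8) (nat_lit 2))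
    (@En.i (nat_lit 2377) (nat_lit 9) (nat_lit 3))
    (@En.i (nat_lit 13915) (nat_lit 0) (nat_lit 14))
    (@En.i (nat_lit 2376) (nat_lit 11) (nat_lit 3))
    (@En.i (nat_lit 2385) (nat_lit 0) (nat_lit 13))
    (@En.i (nat_lit 2302) (nat_lit 14) (nat_lit 6))
    (@En.i (nat_lit 12677) (nat_lit 6) (nat_lit 13))
    (@En.n l28 (nat_lit 2374) (nat_lit 15) (nat_lit 2))))
  (@Cl.mk (nat_lit 0x2000a0009000d000c000a0003000600040007000d0006000d0003000e0003) (nat_lit 0x800a40000a0b030) (nat_lit 16) Lb.e (@T16.mk En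
    (@En.i (nat_lit 2263) (nat_lit 15) (nat_lit 3))
    (@En.i (nat_lit 13738) (nat_lit 0) (nat_lit 14))
    (@En.i (nat_lit 4377) (nat_lit 2) (nat_lit 3))
    (@En.n l5011 (nat_lit 4384) (nat_lit 0) (nat_lit 13))
    (@En.n l2678 (nat_lit 4190) (nat_lit 4) (nat_lit 6))
    (@En.i (nat_lit 12362) (nat_lit 6) (nat_lit 13))
    (@En.n l810 (nat_lit 4793) (nat_lit 6) (nat_lit 7))
    (@En.n l2678 (nat_lit 2255) (nat_lit 7) (nat_lit 4))
    (@En.i (nat_lit 2370) (nat_lit 8) (nat_lit 6))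
    (@En.n l5267 (nat_lit 4373) (nat_lit 9) (nat_lit 3))
    (@En.i (nat_lit 5937) (nat_lit 0) (nat_lit 10))
    (@En.n l8351 (nat_lit 4378) (nat_lit 12) (nat_lit 12))
    (@En.n l180 (nat_lit 4374) (nat_lit 13) (nat_lit 13))
    (@En.n l2038 (nat_lit 4368) (nat_lit 14) (nat_lit 9))
    (@En.i (nat_lit 10381) (nat_lit 4) (nat_lit 10))
    (@En.n l17 (nat_lit 2375) (nat_lit 15) (nat_lit 2))))
  (@Cl.mk (nat_lit 0x2000d000c00070003000e00040002000d000c000b000300090004000e0005) (nat_lit 0xb60010098901050) (nat_lit 16) Lb.e (@T16.mk En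
    (@En.n l5617 (nat_lit 2225) (nat_lit 7) (nat_lit 5))
    (@En.n l1578 (nat_lit 2252) (nat_lit 1) (nat_lit 14))
    (@En.n l117 (nat_lit 2874) (nat_lit 9) (nat_lit 4))
    (@En.i (nat_lit 326) (nat_lit 11) (nat_lit 9))
    (@En.i (nat_lit 2247) (nat_lit 11) (nat_lit 3))
    (@En.n l575 (nat_lit 3519) (nat_lit 0) (nat_lit 11))
    (@En.i (nat_lit 2246) (nat_lit 14) (nat_lit 12))
    (@En.i (nat_lit 2600) (nat_lit 8) (nat_lit 13))
    (@En.n l17 (nat_lit 2376) (nat_lit 8) (nat_lit 2))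
    (@En.n l50 (nat_lit 2378) (nat_lit 9) (nat_lit 4))
    (@En.n l5 (nat_lit 789) (nat_lit 1) (nat_lit 14))
    (@En.n l50 (nat_lit 2374) (nat_lit 11) (nat_lit 3))
    (@En.i (nat_lit 2026) (nat_lit 3) (nat_lit 7))
    (@En.n l217 (nat_lit 2377) (nat_lit 14) (nat_lit 12))
    (@En.i (nat_lit 12673) (nat_lit 6) (nat_lit 13))
    (@En.n l28 (nat_lit 2376) (nat_lit 15) (nat_lit 2))))
  (@Cl.mk (nat_lit 0x2000c0006000d000d000400030003000d000c000b0003000a0004000e0005) (nat_lit 0x506400088903050) (nat_lit 16) Lb.e (@T16.mk En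
    (@En.n l5617 (nat_lit 2226) (nat_lit 6) (nat_lit 5))
    (@En.n l1578 (nat_lit 2253) (nat_lit 1) (nat_lit 14))
    (@En.n l117 (nat_lit 2872) (nat_lit 2) (nat_lit 4))
    (@En.i (nat_lit 532) (nat_lit 3) (nat_lit 10))
    (@En.i (nat_lit 2275) (nat_lit 4) (nat_lit 3))
    (@En.n l575 (nat_lit 3515) (nat_lit 0) (nat_lit 11))
    (@En.i (nat_lit 2277) (nat_lit 7) (nat_lit 12))
    (@En.i (nat_lit 2389) (nat_lit 8) (nat_lit 13))
    (@En.i (nat_lit 2379) (nat_lit 13) (nat_lit 3))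
    (@En.n l18 (nat_lit 2374) (nat_lit 9) (nat_lit 3))
    (@En.i (nat_lit 2381) (nat_lit 0) (nat_lit 4))
    (@En.n l61 (nat_lit 2374) (nat_lit 12) (nat_lit 13))
    (@En.n l1353 (nat_lit 2382) (nat_lit 13) (nat_lit 13))
    (@En.i (nat_lit 2303) (nat_lit 14) (nat_lit 6))
    (@En.i (nat_lit 10537) (nat_lit 10) (nat_lit 12))
    (@En.n l28 (nat_lit 2377) (nat_lit 15) (nat_lit 2))))
  (@Cl.mk (nat_lit 0x2000c000c000c0008000400040004000d000c000b000300080004000e0005) (nat_lit 0x557200098901050) (nat_lit 16) Lb.e (@T16.mk En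
    (@En.n l5617 (nat_lit 2224) (nat_lit 5) (nat_lit 5))
    (@En.n l1578 (nat_lit 2251) (nat_lit 1) (nat_lit 14))
    (@En.n l117 (nat_lit 2870) (nat_lit 2) (nat_lit 4))
    (@En.i (nat_lit 346) (nat_lit 3) (nat_lit 8))
    (@En.i (nat_lit 2241) (nat_lit 4) (nat_lit 3))
    (@En.n l575 (nat_lit 3521) (nat_lit 0) (nat_lit 11))
    (@En.i (nat_lit 2240) (nat_lit 7) (nat_lit 12))
    (@En.i (nat_lit 2438) (nat_lit 8) (nat_lit 13))
    (@En.n l1935 (nat_lit 2380) (nat_lit 12) (nat_lit 4))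
    (@En.n l2172 (nat_lit 2384) (nat_lit 12) (nat_lit 4))
    (@En.i (nat_lit 2377) (nat_lit 10) (nat_lit 4))
    (@En.n l2479 (nat_lit 2386) (nat_lit 12) (nat_lit 8))
    (@En.n l742 (nat_lit 2376) (nat_lit 13) (nat_lit 12))
    (@En.n l396 (nat_lit 2381) (nat_lit 4) (nat_lit 12))
    (@En.n l7 (nat_lit 12688) (nat_lit 10) (nat_lit 12))
    (@En.n l28 (nat_lit 2378) (nat_lit 15) (nat_lit 2))))
  (@Cl.mk (nat_lit 0x200050003000d000c000b0003000a0004000e00050002000b0006000e000d) (nat_lit 0x8890405004067) (nat_lit 16) Lb.e (@T16.mk En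
    (@En.n l61 (nat_lit 2377) (nat_lit 12) (nat_lit 13))
    (@En.n l1353 (nat_lit 2380) (nat_lit 1) (nat_lit 14))
    (@En.n l2478 (nat_lit 2351) (nat_lit 14) (nat_lit 6))
    (@En.n l5331 (nat_lit 10534) (nat_lit 3) (nat_lit 11))
    (@En.n l28 (nat_lit 2379) (nat_lit 4) (nat_lit 2))
    (@En.n l3151 (nat_lit 2229) (nat_lit 5) (nat_lit 5))
    (@En.n l9329 (nat_lit 2257) (nat_lit 7) (nat_lit 14))
    (@En.n l117 (nat_lit 2871) (nat_lit 7) (nat_lit 4))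
    (@En.n l3153 (nat_lit 534) (nat_lit 9) (nat_lit 10))
    (@En.i (nat_lit 2274) (nat_lit 9) (nat_lit 3))
    (@En.n l575 (nat_lit 3514) (nat_lit 11) (nat_lit 11))
    (@En.i (nat_lit 2276) (nat_lit 12) (nat_lit 12))
    (@En.n l6147 (nat_lit 1449) (nat_lit 13) (nat_lit 13))
    (@En.n l72 (nat_lit 2377) (nat_lit 8) (nat_lit 3))
    (@En.n l666 (nat_lit 2489) (nat_lit 9) (nat_lit 5))
    (@En.n l17 (nat_lit 2379) (nat_lit 15) (nat_lit 2))))
  (@Cl.mk (nat_lit 0x2000900050004000d000c000b000300070004000e00050002000b000e000c) (nat_lit 0x400789000500456) (nat_lit 16) Lb.e (@T16.mk En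
    (@En.n l2197 (nat_lit 2378) (nat_lit 13) (nat_lit 12))
    (@En.n l9303 (nat_lit 2480) (nat_lit 4) (nat_lit 14))
    (@En.n l2199 (nat_lit 10535) (nat_lit 2) (nat_lit 11))
    (@En.n l28 (nat_lit 2380) (nat_lit 3) (nat_lit 2))
    (@En.n l9304 (nat_lit 885) (nat_lit 4) (nat_lit 5))
    (@En.n l9305 (nat_lit 2320) (nat_lit 1) (nat_lit 14))
    (@En.n l6680 (nat_lit 2867) (nat_lit 6) (nat_lit 4))
    (@En.i (nat_lit 351) (nat_lit 7) (nat_lit 7))
    (@En.n l9306 (nat_lit 2404) (nat_lit 8) (nat_lit 3))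
    (@En.n l575 (nat_lit 3523) (nat_lit 0) (nat_lit 11))
    (@En.n l7961 (nat_lit 2406) (nat_lit 11) (nat_lit 12))
    (@En.n l6147 (nat_lit 1748) (nat_lit 12) (nat_lit 13))
    (@En.n l18 (nat_lit 2382) (nat_lit 8) (nat_lit 4))
    (@En.n l775 (nat_lit 2379) (nat_lit 14) (nat_lit 5))
    (@En.i (nat_lit 2389) (nat_lit 11) (nat_lit 9))
    (@En.n l2196 (nat_lit 2380) (nat_lit 15) (nat_lit 2))))
  (@Cl.mk (nat_lit 0x20005000d000c000b000300090004000e00050002000c000b0007000e0004) (nat_lit 0x88901050045050) (nat_lit 16) Lb.e (@T16.mk En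
    (@En.n l50 (nat_lit 2378) (nat_lit 10) (nat_lit 4))
    (@En.n l3934 (nat_lit 2383) (nat_lit 1) (nat_lit 14))
    (@En.n l3935 (nat_lit 2432) (nat_lit 2) (nat_lit 7))
    (@En.n l2863 (nat_lit 2379) (nat_lit 3) (nat_lit 11))
    (@En.n l947 (nat_lit 10770) (nat_lit 5) (nat_lit 12))
    (@En.n l28 (nat_lit 2381) (nat_lit 5) (nat_lit 2))
    (@En.n l5617 (nat_lit 773) (nat_lit 6) (nat_lit 5))
    (@En.n l3152 (nat_lit 2278) (nat_lit 8) (nat_lit 14))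
    (@En.n l117 (nat_lit 2868) (nat_lit 8) (nat_lit 4))
    (@En.i (nat_lit 290) (nat_lit 10) (nat_lit 9))
    (@En.i (nat_lit 2418) (nat_lit 10) (nat_lit 3))
    (@En.n l575 (nat_lit 2566) (nat_lit 12) (nat_lit 11))
    (@En.i (nat_lit 2428) (nat_lit 13) (nat_lit 12))
    (@En.n l3938 (nat_lit 2433) (nat_lit 8) (nat_lit 13))
    (@En.i (nat_lit 2488) (nat_lit 13) (nat_lit 5))
    (@En.n l18 (nat_lit 2381) (nat_lit 15) (nat_lit 2))))
  (@Cl.mk (nat_lit 0x2000d000d000c00030003000a0004000d000c000b000300060004000e0005) (nat_lit 0x1570050b8900050) (nat_lit 16) Lb.e (@T16.mk En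
    (@En.n l7948 (nat_lit 2146) (nat_lit 4) (nat_lit 5))
    (@En.n l1578 (nat_lit 1853) (nat_lit 1) (nat_lit 14))
    (@En.n l6680 (nat_lit 2869) (nat_lit 2) (nat_lit 4))
    (@En.n l3922 (nat_lit 693) (nat_lit 12) (nat_lit 6))
    (@En.i (nat_lit 2387) (nat_lit 4) (nat_lit 3))
    (@En.n l10852 (nat_lit 3547) (nat_lit 0) (nat_lit 11))
    (@En.n l10853 (nat_lit 2396) (nat_lit 7) (nat_lit 12))
    (@En.n l3925 (nat_lit 2386) (nat_lit 8) (nat_lit 13))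
    (@En.n l775 (nat_lit 2378) (nat_lit 8) (nat_lit 4))
    (@En.i (nat_lit 2388) (nat_lit 10) (nat_lit 10))
    (@En.n l2593 (nat_lit 2385) (nat_lit 13) (nat_lit 3))
    (@En.n l2587 (nat_lit 2383) (nat_lit 0) (nat_lit 3))
    (@En.n l2348 (nat_lit 2384) (nat_lit 0) (nat_lit 12))
    (@En.n l3926 (nat_lit 2383) (nat_lit 3) (nat_lit 13))
    (@En.n l2595 (nat_lit 44) (nat_lit 2) (nat_lit 13))
    (@En.n l28 (nat_lit 2382) (nat_lit 15) (nat_lit 2))))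
  (@Cl.mk (nat_lit 0x2000a0005000d000c000b000300060004000e00050002000d000b000e0003) (nat_lit 0x508890005004540) (nat_lit 16) Lb.e (@T16.mk En
    (@En.n l1182 (nat_lit 2382) (nat_lit 11) (nat_lit 3))
    (@En.n l2038 (nat_lit 12931) (nat_lit 0) (nat_lit 14))
    (@En.n l3899 (nat_lit 2380) (nat_lit 2) (nat_lit 11))
    (@En.i (nat_lit 10768) (nat_lit 2) (nat_lit 13))
    (@En.n l17 (nat_lit 2383) (nat_lit 4) (nat_lit 2))
    (@En.n l3900 (nat_lit 2147) (nat_lit 5) (nat_lit 5))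
    (@En.i (nat_lit 1857) (nat_lit 1) (nat_lit 14))
    (@En.n l1186 (nat_lit 2858) (nat_lit 7) (nat_lit 4))
    (@En.n l3901 (nat_lit 685) (nat_lit 8) (nat_lit 6))
    (@En.i (nat_lit 2420) (nat_lit 9) (nat_lit 3))
    (@En.n l3902 (nat_lit 2570) (nat_lit 0) (nat_lit 11))
    (@En.n l3903 (nat_lit 2423) (nat_lit 12) (nat_lit 12))
    (@En.n l476 (nat_lit 2432) (nat_lit 13) (nat_lit 13))
    (@En.n l1188 (nat_lit 2381) (nat_lit 14) (nat_lit 5))
    (@En.n l1189 (nat_lit 2600) (nat_lit 10) (nat_lit 10))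
    (@En.n l11 (nat_lit 2383) (nat_lit 15) (nat_lit 2))))
noncomputable def a149 : T16 Cl := @T16.mk Cl
  (@Cl.mk (nat_lit 0x2000d000900040003000d000c000b000300070004000e00050002000e000c) (nat_lit 0x1400989000500c6) (nat_lit 16) Lb.e (@T16.mk En
    (@En.n l217 (nat_lit 2378) (nat_lit 14) (nat_lit 12))
    (@En.n l210 (nat_lit 12640) (nat_lit 1) (nat_lit 14))
    (@En.n l28 (nat_lit 2384) (nat_lit 2) (nat_lit 2))
    (@En.n l2549 (nat_lit 2223) (nat_lit 3) (nat_lit 5))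
    (@En.n l1578 (nat_lit 2250) (nat_lit 1) (nat_lit 14))
    (@En.n l117 (nat_lit 4034) (nat_lit 5) (nat_lit 4))
    (@En.n l2550 (nat_lit 1103) (nat_lit 6) (nat_lit 7))
    (@En.i (nat_lit 2390) (nat_lit 7) (nat_lit 3))
    (@En.n l2551 (nat_lit 3552) (nat_lit 0) (nat_lit 11))
    (@En.n l2552 (nat_lit 2249) (nat_lit 10) (nat_lit 12))
    (@En.i (nat_lit 2545) (nat_lit 11) (nat_lit 13))
    (@En.n l763 (nat_lit 2385) (nat_lit 11) (nat_lit 3))
    (@En.i (nat_lit 2376) (nat_lit 9) (nat_lit 4))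
    (@En.n l764 (nat_lit 2394) (nat_lit 14) (nat_lit 9))
    (@En.n l765 (nat_lit 786) (nat_lit 12) (nat_lit 13))
    (@En.n l50 (nat_lit 2384) (nat_lit 15) (nat_lit 2))))
  (@Cl.mk (nat_lit 0x2000d0003000a0003000d000c000b000300060004000e00050002000e000d) (nat_lit 0x2040a89000500a2) (nat_lit 16) Lb.e (@T16.mk En
    (@En.n l564 (nat_lit 2382) (nat_lit 14) (nat_lit 13))
    (@En.n l2865 (nat_lit 12594) (nat_lit 1) (nat_lit 14))
    (@En.n l28 (nat_lit 2385) (nat_lit 2) (nat_lit 2))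
    (@En.n l2683 (nat_lit 2222) (nat_lit 3) (nat_lit 5))
    (@En.n l1578 (nat_lit 1854) (nat_lit 1) (nat_lit 14))
    (@En.n l117 (nat_lit 4033) (nat_lit 5) (nat_lit 4))
    (@En.n l2381 (nat_lit 965) (nat_lit 6) (nat_lit 6))
    (@En.i (nat_lit 2391) (nat_lit 7) (nat_lit 3))
    (@En.n l4021 (nat_lit 3550) (nat_lit 0) (nat_lit 11))
    (@En.n l1865 (nat_lit 2395) (nat_lit 10) (nat_lit 12))
    (@En.i (nat_lit 2394) (nat_lit 11) (nat_lit 13))
    (@En.n l2364 (nat_lit 2384) (nat_lit 11) (nat_lit 3))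
    (@En.i (nat_lit 4942) (nat_lit 0) (nat_lit 10))
    (@En.n l1353 (nat_lit 2382) (nat_lit 10) (nat_lit 3))
    (@En.i (nat_lit 790) (nat_lit 0) (nat_lit 13))
    (@En.n l50 (nat_lit 2385) (nat_lit 15) (nat_lit 2))))
  (@Cl.mk (nat_lit 0x2000d000d000800030003000a000d000b000a0003000800060005000e0006) (nat_lit 0x261005a78050060) (nat_lit 16) Lb.e (@T16.mk En
    (@En.n l8086 (nat_lit 2143) (nat_lit 4) (nat_lit 6))
    (@En.n l936 (nat_lit 1847) (nat_lit 1) (nat_lit 14))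
    (@En.n l10123 (nat_lit 3432) (nat_lit 2) (nat_lit 5))
    (@En.n l7221 (nat_lit 2382) (nat_lit 3) (nat_lit 6))
    (@En.n l17823 (nat_lit 7766) (nat_lit 4) (nat_lit 8))
    (@En.i (nat_lit 2392) (nat_lit 5) (nat_lit 3))
    (@En.n l1101 (nat_lit 3545) (nat_lit 0) (nat_lit 10))
    (@En.n l7222 (nat_lit 2400) (nat_lit 8) (nat_lit 11))
    (@En.n l601 (nat_lit 1728) (nat_lit 5) (nat_lit 13))
    (@En.n l7225 (nat_lit 2601) (nat_lit 10) (nat_lit 10))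
    (@En.n l7226 (nat_lit 2394) (nat_lit 13) (nat_lit 3))
    (@En.n l5870 (nat_lit 2432) (nat_lit 0) (nat_lit 3))
    (@En.i (nat_lit 1687) (nat_lit 0) (nat_lit 8))
    (@En.n l2691 (nat_lit 2432) (nat_lit 3) (nat_lit 13))
    (@En.n l936 (nat_lit 10765) (nat_lit 2) (nat_lit 13))
    (@En.n l17 (nat_lit 2386) (nat_lit 15) (nat_lit 2))))
  (@Cl.mk (nat_lit 0x2000d000d000c00030003000a0004000d000a000d000300060003000e0006) (nat_lit 0x4270050a8900040) (nat_lit 16) Lb.e (@T16.mk En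
    (@En.n l3919 (nat_lit 2201) (nat_lit 4) (nat_lit 6))
    (@En.n l3920 (nat_lit 2282) (nat_lit 1) (nat_lit 14))
    (@En.n l3921 (nat_lit 2396) (nat_lit 2) (nat_lit 3))
    (@En.n l3922 (nat_lit 2697) (nat_lit 12) (nat_lit 6))
    (@En.n l3 (nat_lit 2382) (nat_lit 4) (nat_lit 3))
    (@En.n l3923 (nat_lit 13060) (nat_lit 5) (nat_lit 13))
    (@En.n l3924 (nat_lit 4415) (nat_lit 11) (nat_lit 10))
    (@En.n l3925 (nat_lit 2392) (nat_lit 8) (nat_lit 13))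
    (@En.n l775 (nat_lit 2241) (nat_lit 8) (nat_lit 4))
    (@En.i (nat_lit 2610) (nat_lit 10) (nat_lit 10))
    (@En.n l2593 (nat_lit 2391) (nat_lit 13) (nat_lit 3))
    (@En.n l2587 (nat_lit 2420) (nat_lit 0) (nat_lit 3))
    (@En.n l2348 (nat_lit 2390) (nat_lit 0) (nat_lit 12))
    (@En.n l3926 (nat_lit 2420) (nat_lit 3) (nat_lit 13))
    (@En.n l3927 (nat_lit 10768) (nat_lit 10) (nat_lit 13))
    (@En.n l28 (nat_lit 2387) (nat_lit 15) (nat_lit 2))))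
  (@Cl.mk (nat_lit 0x2000d0006000d0003000a0003000d000b000a00030006000a0005000e0006) (nat_lit 0x504040878004060) (nat_lit 16) Lb.e (@T16.mk En
    (@En.i (nat_lit 2228) (nat_lit 4) (nat_lit 6))
    (@En.n l1578 (nat_lit 2578) (nat_lit 1) (nat_lit 14))
    (@En.n l117 (nat_lit 8206) (nat_lit 2) (nat_lit 5))
    (@En.n l617 (nat_lit 2377) (nat_lit 3) (nat_lit 10))
    (@En.i (nat_lit 7934) (nat_lit 12) (nat_lit 6))
    (@En.i (nat_lit 2610) (nat_lit 5) (nat_lit 3))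
    (@En.n l575 (nat_lit 3505) (nat_lit 0) (nat_lit 10))
    (@En.i (nat_lit 2883) (nat_lit 8) (nat_lit 11))
    (@En.i (nat_lit 2601) (nat_lit 9) (nat_lit 13))
    (@En.i (nat_lit 2389) (nat_lit 9) (nat_lit 3))
    (@En.i (nat_lit 4940) (nat_lit 11) (nat_lit 10))
    (@En.i (nat_lit 2600) (nat_lit 11) (nat_lit 3))
    (@En.i (nat_lit 2394) (nat_lit 0) (nat_lit 13))
    (@En.i (nat_lit 2603) (nat_lit 14) (nat_lit 6))
    (@En.i (nat_lit 10646) (nat_lit 2) (nat_lit 13))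
    (@En.n l28 (nat_lit 2388) (nat_lit 15) (nat_lit 2))))
  (@Cl.mk (nat_lit 0x2000c0006000d000900040003000d000b000a00030007000a0005000e0006) (nat_lit 0x507300770005060) (nat_lit 16) Lb.e (@T16.mk En
    (@En.i (nat_lit 2502) (nat_lit 6) (nat_lit 6))
    (@En.n l1578 (nat_lit 2579) (nat_lit 1) (nat_lit 14))
    (@En.n l117 (nat_lit 8204) (nat_lit 2) (nat_lit 5))
    (@En.n l617 (nat_lit 2379) (nat_lit 8) (nat_lit 10))
    (@En.i (nat_lit 7128) (nat_lit 4) (nat_lit 7))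
    (@En.i (nat_lit 2440) (nat_lit 5) (nat_lit 3))
    (@En.n l575 (nat_lit 3506) (nat_lit 0) (nat_lit 10))
    (@En.i (nat_lit 2881) (nat_lit 8) (nat_lit 11))
    (@En.i (nat_lit 1721) (nat_lit 9) (nat_lit 13))
    (@En.n l18 (nat_lit 2388) (nat_lit 9) (nat_lit 3))
    (@En.n l3938 (nat_lit 2433) (nat_lit 10) (nat_lit 4))
    (@En.n l61 (nat_lit 2601) (nat_lit 12) (nat_lit 9))
    (@En.n l2434 (nat_lit 2386) (nat_lit 13) (nat_lit 13))
    (@En.i (nat_lit 2605) (nat_lit 14) (nat_lit 6))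
    (@En.i (nat_lit 10647) (nat_lit 9) (nat_lit 12))
    (@En.n l28 (nat_lit 2389) (nat_lit 15) (nat_lit 2))))
  (@Cl.mk (nat_lit 0x2000d000900040003000d000a000d000300070003000e00060002000e000c) (nat_lit 0x1400989000400c6) (nat_lit 16) Lb.e (@T16.mk En
    (@En.n l217 (nat_lit 2241) (nat_lit 14) (nat_lit 12))
    (@En.n l755 (nat_lit 12581) (nat_lit 1) (nat_lit 14))
    (@En.n l28 (nat_lit 2390) (nat_lit 2) (nat_lit 2))
    (@En.n l756 (nat_lit 2206) (nat_lit 3) (nat_lit 6))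
    (@En.n l757 (nat_lit 2306) (nat_lit 1) (nat_lit 14))
    (@En.n l758 (nat_lit 2249) (nat_lit 5) (nat_lit 3))
    (@En.n l759 (nat_lit 1332) (nat_lit 6) (nat_lit 7))
    (@En.n l3 (nat_lit 2384) (nat_lit 7) (nat_lit 3))
    (@En.n l760 (nat_lit 13086) (nat_lit 5) (nat_lit 13))
    (@En.n l761 (nat_lit 4401) (nat_lit 10) (nat_lit 10))
    (@En.n l762 (nat_lit 2544) (nat_lit 11) (nat_lit 13))
    (@En.n l763 (nat_lit 2391) (nat_lit 11) (nat_lit 3))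
    (@En.i (nat_lit 2247) (nat_lit 0) (nat_lit 4))
    (@En.n l764 (nat_lit 2393) (nat_lit 14) (nat_lit 9))
    (@En.n l765 (nat_lit 894) (nat_lit 12) (nat_lit 13))
    (@En.n l50 (nat_lit 2390) (nat_lit 15) (nat_lit 2))))
  (@Cl.mk (nat_lit 0x2000d0003000a0003000d000a000d000300060003000e00060002000e000d) (nat_lit 0x2040989000400a5) (nat_lit 16) Lb.e (@T16.mk En
    (@En.n l564 (nat_lit 2387) (nat_lit 14) (nat_lit 13))
    (@En.n l755 (nat_lit 12580) (nat_lit 1) (nat_lit 14))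
    (@En.n l28 (nat_lit 2391) (nat_lit 2) (nat_lit 2))
    (@En.n l1177 (nat_lit 2202) (nat_lit 3) (nat_lit 6))
    (@En.n l2379 (nat_lit 2307) (nat_lit 1) (nat_lit 14))
    (@En.n l2380 (nat_lit 2395) (nat_lit 5) (nat_lit 3))
    (@En.n l2381 (nat_lit 2706) (nat_lit 12) (nat_lit 6))
    (@En.n l3 (nat_lit 2385) (nat_lit 7) (nat_lit 3))
    (@En.n l2382 (nat_lit 13066) (nat_lit 5) (nat_lit 13))
    (@En.n l2383 (nat_lit 4419) (nat_lit 10) (nat_lit 10))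
    (@En.i (nat_lit 2393) (nat_lit 11) (nat_lit 13))
    (@En.n l2364 (nat_lit 2390) (nat_lit 11) (nat_lit 3))
    (@En.i (nat_lit 5008) (nat_lit 0) (nat_lit 10))
    (@En.n l1353 (nat_lit 2387) (nat_lit 10) (nat_lit 3))
    (@En.n l2383 (nat_lit 896) (nat_lit 0) (nat_lit 13))
    (@En.n l50 (nat_lit 2391) (nat_lit 15) (nat_lit 2))))
  (@Cl.mk (nat_lit 0x2000d000d000800030003000a000d0009000c0003000800060004000e0007) (nat_lit 0x432005978050050) (nat_lit 16) Lb.e (@T16.mk En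
    (@En.n l7218 (nat_lit 2199) (nat_lit 4) (nat_lit 7))
    (@En.n l7219 (nat_lit 2284) (nat_lit 1) (nat_lit 14))
    (@En.n l7220 (nat_lit 2403) (nat_lit 2) (nat_lit 4))
    (@En.n l7221 (nat_lit 2387) (nat_lit 3) (nat_lit 6))
    (@En.n l7222 (nat_lit 6746) (nat_lit 4) (nat_lit 8))
    (@En.n l50 (nat_lit 2386) (nat_lit 5) (nat_lit 3))
    (@En.n l7223 (nat_lit 13452) (nat_lit 6) (nat_lit 12))
    (@En.n l7222 (nat_lit 4578) (nat_lit 12) (nat_lit 9))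
    (@En.n l7224 (nat_lit 1731) (nat_lit 5) (nat_lit 13))
    (@En.n l7225 (nat_lit 2609) (nat_lit 10) (nat_lit 10))
    (@En.n l7226 (nat_lit 2393) (nat_lit 13) (nat_lit 3))
    (@En.n l5870 (nat_lit 2421) (nat_lit 0) (nat_lit 3))
    (@En.i (nat_lit 1684) (nat_lit 0) (nat_lit 8))
    (@En.n l2691 (nat_lit 2421) (nat_lit 3) (nat_lit 13))
    (@En.n l7227 (nat_lit 10767) (nat_lit 2) (nat_lit 13))
    (@En.n l17 (nat_lit 2392) (nat_lit 15) (nat_lit 2))))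
  (@Cl.mk (nat_lit 0x200090003000a000d0009000c0003000700060004000e00070002000e000d) (nat_lit 0x304878000050045) (nat_lit 16) Lb.e (@T16.mk En
    (@En.n l2430 (nat_lit 2392) (nat_lit 14) (nat_lit 13))
    (@En.n l2382 (nat_lit 12590) (nat_lit 1) (nat_lit 14))
    (@En.n l28 (nat_lit 2393) (nat_lit 2) (nat_lit 2))
    (@En.n l1177 (nat_lit 2197) (nat_lit 3) (nat_lit 7))
    (@En.n l2379 (nat_lit 2308) (nat_lit 1) (nat_lit 14))
    (@En.n l2431 (nat_lit 2399) (nat_lit 5) (nat_lit 4))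
    (@En.n l725 (nat_lit 2391) (nat_lit 6) (nat_lit 6))
    (@En.n l2382 (nat_lit 6747) (nat_lit 7) (nat_lit 7))
    (@En.n l3 (nat_lit 2394) (nat_lit 8) (nat_lit 3))
    (@En.n l2382 (nat_lit 13456) (nat_lit 6) (nat_lit 12))
    (@En.n l2432 (nat_lit 4581) (nat_lit 11) (nat_lit 9))
    (@En.n l2433 (nat_lit 2158) (nat_lit 5) (nat_lit 13))
    (@En.i (nat_lit 1874) (nat_lit 13) (nat_lit 10))
    (@En.n l2434 (nat_lit 2392) (nat_lit 10) (nat_lit 3))
    (@En.n l2382 (nat_lit 1713) (nat_lit 12) (nat_lit 9))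
    (@En.n l50 (nat_lit 2393) (nat_lit 15) (nat_lit 2))))
  (@Cl.mk (nat_lit 0x200090003000a000d000b000a0003000700060005000e00060002000e000d) (nat_lit 0x305978000060053) (nat_lit 16) Lb.e (@T16.mk En
    (@En.n l2430 (nat_lit 2386) (nat_lit 14) (nat_lit 13))
    (@En.i (nat_lit 12595) (nat_lit 1) (nat_lit 14))
    (@En.n l28 (nat_lit 2394) (nat_lit 2) (nat_lit 2))
    (@En.n l2683 (nat_lit 2151) (nat_lit 3) (nat_lit 6))
    (@En.n l1578 (nat_lit 1845) (nat_lit 1) (nat_lit 14))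
    (@En.n l117 (nat_lit 3434) (nat_lit 5) (nat_lit 5))
    (@En.n l725 (nat_lit 2385) (nat_lit 6) (nat_lit 6))
    (@En.n l7288 (nat_lit 7767) (nat_lit 7) (nat_lit 7))
    (@En.i (nat_lit 2393) (nat_lit 8) (nat_lit 3))
    (@En.n l4021 (nat_lit 3549) (nat_lit 0) (nat_lit 10))
    (@En.n l7289 (nat_lit 2398) (nat_lit 11) (nat_lit 11))
    (@En.i (nat_lit 1841) (nat_lit 5) (nat_lit 13))
    (@En.i (nat_lit 4939) (nat_lit 13) (nat_lit 10))
    (@En.n l2434 (nat_lit 2386) (nat_lit 10) (nat_lit 3))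
    (@En.i (nat_lit 1733) (nat_lit 12) (nat_lit 9))
    (@En.n l50 (nat_lit 2394) (nat_lit 15) (nat_lit 2))))
  (@Cl.mk (nat_lit 0x2000d0003000b0003000c000a000d000500040003000e00060002000e000d) (nat_lit 0x2000700000200a7) (nat_lit 16) Lb.e (@T16.mk En
    (@En.n l1578 (nat_lit 2396) (nat_lit 14) (nat_lit 13))
    (@En.n l7090 (nat_lit 12593) (nat_lit 1) (nat_lit 14))
    (@En.n l3 (nat_lit 2395) (nat_lit 2) (nat_lit 2))
    (@En.n l2543 (nat_lit 2397) (nat_lit 3) (nat_lit 6))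
    (@En.n l2544 (nat_lit 3079) (nat_lit 1) (nat_lit 14))
    (@En.n l7091 (nat_lit 2391) (nat_lit 5) (nat_lit 3))
    (@En.i (nat_lit 4030) (nat_lit 6) (nat_lit 4))
    (@En.n l7092 (nat_lit 4616) (nat_lit 7) (nat_lit 5))
    (@En.n l7090 (nat_lit 13064) (nat_lit 5) (nat_lit 13))
    (@En.n l2543 (nat_lit 4418) (nat_lit 10) (nat_lit 10))
    (@En.n l7090 (nat_lit 2399) (nat_lit 11) (nat_lit 12))
    (@En.i (nat_lit 2249) (nat_lit 11) (nat_lit 3))
    (@En.n l2579 (nat_lit 5219) (nat_lit 0) (nat_lit 11))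
    (@En.i (nat_lit 2396) (nat_lit 10) (nat_lit 3))
    (@En.n l2543 (nat_lit 892) (nat_lit 0) (nat_lit 13))
    (@En.n l11 (nat_lit 2395) (nat_lit 15) (nat_lit 2))))
  (@Cl.mk (nat_lit 0x2000d000d000c00030003000b0004000c000a000d000500040003000e0006) (nat_lit 0x672000070000020) (nat_lit 16) Lb.e (@T16.mk En
    (@En.n l10801 (nat_lit 2402) (nat_lit 4) (nat_lit 6))
    (@En.n l3815 (nat_lit 3077) (nat_lit 1) (nat_lit 14))
    (@En.n l10802 (nat_lit 2387) (nat_lit 2) (nat_lit 3))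
    (@En.i (nat_lit 2856) (nat_lit 3) (nat_lit 4))
    (@En.n l2546 (nat_lit 3437) (nat_lit 4) (nat_lit 5))
    (@En.n l7090 (nat_lit 13062) (nat_lit 5) (nat_lit 13))
    (@En.n l10803 (nat_lit 4412) (nat_lit 11) (nat_lit 10))
    (@En.n l10804 (nat_lit 2403) (nat_lit 8) (nat_lit 12))
    (@En.n l10805 (nat_lit 2240) (nat_lit 8) (nat_lit 4))
    (@En.n l10806 (nat_lit 2883) (nat_lit 10) (nat_lit 11))
    (@En.n l28 (nat_lit 2395) (nat_lit 13) (nat_lit 3))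
    (@En.n l10807 (nat_lit 2423) (nat_lit 0) (nat_lit 3))
    (@En.n l77 (nat_lit 2249) (nat_lit 0) (nat_lit 12))
    (@En.n l10808 (nat_lit 2423) (nat_lit 3) (nat_lit 13))
    (@En.n l7090 (nat_lit 10774) (nat_lit 2) (nat_lit 13))
    (@En.n l3 (nat_lit 2396) (nat_lit 15) (nat_lit 2))))
  (@Cl.mk (nat_lit 0x2000d0003000a0003000b000a000a000d00060005000300060006000e000d) (nat_lit 0x1030701100000a6) (nat_lit 16) Lb.e (@T16.mk En
    (@En.n l5693 (nat_lit 2402) (nat_lit 2) (nat_lit 13))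
    (@En.n l5694 (nat_lit 12592) (nat_lit 1) (nat_lit 14))
    (@En.n l14060 (nat_lit 3679) (nat_lit 2) (nat_lit 6))
    (@En.n l5696 (nat_lit 3681) (nat_lit 12) (nat_lit 6))
    (@En.n l7433 (nat_lit 2202) (nat_lit 4) (nat_lit 3))
    (@En.n l5693 (nat_lit 4029) (nat_lit 0) (nat_lit 5))
    (@En.n l14061 (nat_lit 4607) (nat_lit 6) (nat_lit 6))
    (@En.n l5699 (nat_lit 2395) (nat_lit 8) (nat_lit 13))
    (@En.n l5700 (nat_lit 2395) (nat_lit 9) (nat_lit 10))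
    (@En.i (nat_lit 4387) (nat_lit 10) (nat_lit 10))
    (@En.i (nat_lit 2459) (nat_lit 11) (nat_lit 11))
    (@En.i (nat_lit 2248) (nat_lit 11) (nat_lit 3))
    (@En.n l14061 (nat_lit 5218) (nat_lit 0) (nat_lit 10))
    (@En.n l14062 (nat_lit 2402) (nat_lit 14) (nat_lit 3))
    (@En.n l61 (nat_lit 573) (nat_lit 0) (nat_lit 13))
    (@En.n l3 (nat_lit 2397) (nat_lit 15) (nat_lit 2))))
  (@Cl.mk (nat_lit 0x2000a0003000b000b0009000c0006000500050004000e00070002000e000d) (nat_lit 0x303600000000097) (nat_lit 16) Lb.e (@T16.mk En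
    (@En.n l7586 (nat_lit 2400) (nat_lit 14) (nat_lit 13))
    (@En.n l7090 (nat_lit 9238) (nat_lit 1) (nat_lit 14))
    (@En.n l3 (nat_lit 2398) (nat_lit 2) (nat_lit 2))
    (@En.n l7587 (nat_lit 2401) (nat_lit 3) (nat_lit 7))
    (@En.n l2544 (nat_lit 3274) (nat_lit 1) (nat_lit 14))
    (@En.n l7588 (nat_lit 2393) (nat_lit 5) (nat_lit 4))
    (@En.n l7589 (nat_lit 4869) (nat_lit 6) (nat_lit 5))
    (@En.i (nat_lit 2395) (nat_lit 7) (nat_lit 5))
    (@En.n l2546 (nat_lit 4625) (nat_lit 8) (nat_lit 6))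
    (@En.n l7090 (nat_lit 13455) (nat_lit 6) (nat_lit 12))
    (@En.n l2543 (nat_lit 4573) (nat_lit 11) (nat_lit 9))
    (@En.n l7590 (nat_lit 2129) (nat_lit 5) (nat_lit 11))
    (@En.n l7591 (nat_lit 4830) (nat_lit 13) (nat_lit 11))
    (@En.n l7592 (nat_lit 2400) (nat_lit 10) (nat_lit 3))
    (@En.n l7593 (nat_lit 1981) (nat_lit 12) (nat_lit 10))
    (@En.n l11 (nat_lit 2398) (nat_lit 15) (nat_lit 2))))
  (@Cl.mk (nat_lit 0x200080003000c000c0009000c0004000400080004000e00070002000e000d) (nat_lit 0x5600004000090) (nat_lit 16) Lb.e (@T16.mk En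
    (@En.i (nat_lit 2403) (nat_lit 14) (nat_lit 13))
    (@En.i (nat_lit 9233) (nat_lit 1) (nat_lit 14))
    (@En.n l17 (nat_lit 2399) (nat_lit 2) (nat_lit 2))
    (@En.n l3178 (nat_lit 2459) (nat_lit 3) (nat_lit 7))
    (@En.n l622 (nat_lit 3298) (nat_lit 1) (nat_lit 14))
    (@En.n l7285 (nat_lit 2398) (nat_lit 5) (nat_lit 4))
    (@En.i (nat_lit 6750) (nat_lit 6) (nat_lit 8))
    (@En.n l2044 (nat_lit 5120) (nat_lit 7) (nat_lit 4))
    (@En.n l7286 (nat_lit 3435) (nat_lit 8) (nat_lit 4))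
    (@En.i (nat_lit 13446) (nat_lit 6) (nat_lit 12))
    (@En.n l3178 (nat_lit 7110) (nat_lit 11) (nat_lit 9))
    (@En.n l7287 (nat_lit 2137) (nat_lit 12) (nat_lit 12))
    (@En.n l5381 (nat_lit 5263) (nat_lit 13) (nat_lit 12))
    (@En.n l117 (nat_lit 2403) (nat_lit 10) (nat_lit 3))
    (@En.n l513 (nat_lit 4922) (nat_lit 12) (nat_lit 8))
    (@En.n l3 (nat_lit 2399) (nat_lit 15) (nat_lit 2))))
noncomputable def a150 : T16 Cl := @T16.mk Cl
  (@Cl.mk (nat_lit 0x2000d000d000900030003000b000b0009000c0007000500050004000e0007) (nat_lit 0x68200967a000000) (nat_lit 16) Lb.e (@T16.mk En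
    (@En.n l18186 (nat_lit 2107) (nat_lit 4) (nat_lit 7))
    (@En.n l18187 (nat_lit 3269) (nat_lit 1) (nat_lit 14))
    (@En.n l18188 (nat_lit 2392) (nat_lit 2) (nat_lit 4))
    (@En.n l5166 (nat_lit 2102) (nat_lit 11) (nat_lit 5))
    (@En.n l18189 (nat_lit 2396) (nat_lit 4) (nat_lit 5))
    (@En.n l18190 (nat_lit 4626) (nat_lit 5) (nat_lit 7))
    (@En.i (nat_lit 13454) (nat_lit 6) (nat_lit 12))
    (@En.n l13268 (nat_lit 3659) (nat_lit 12) (nat_lit 9))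
    (@En.n l61 (nat_lit 2127) (nat_lit 5) (nat_lit 11))
    (@En.n l18191 (nat_lit 2884) (nat_lit 10) (nat_lit 11))
    (@En.n l18192 (nat_lit 2398) (nat_lit 13) (nat_lit 3))
    (@En.n l11642 (nat_lit 2446) (nat_lit 0) (nat_lit 3))
    (@En.n l55 (nat_lit 1870) (nat_lit 0) (nat_lit 9))
    (@En.n l18193 (nat_lit 2446) (nat_lit 3) (nat_lit 13))
    (@En.n l5170 (nat_lit 11837) (nat_lit 2) (nat_lit 13))
    (@En.n l107 (nat_lit 2400) (nat_lit 15) (nat_lit 2))))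
  (@Cl.mk (nat_lit 0x200090003000a000a00090009000c000700060006000400070007000e000d) (nat_lit 0x303601100000096) (nat_lit 16) Lb.e (@T16.mk En
    (@En.n l14068 (nat_lit 2107) (nat_lit 2) (nat_lit 13))
    (@En.n l532 (nat_lit 5673) (nat_lit 1) (nat_lit 14))
    (@En.n l14069 (nat_lit 2449) (nat_lit 2) (nat_lit 7))
    (@En.n l1776 (nat_lit 3723) (nat_lit 3) (nat_lit 7))
    (@En.n l8660 (nat_lit 2197) (nat_lit 4) (nat_lit 4))
    (@En.n l3553 (nat_lit 2105) (nat_lit 5) (nat_lit 6))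
    (@En.n l2711 (nat_lit 2397) (nat_lit 6) (nat_lit 6))
    (@En.n l14070 (nat_lit 8957) (nat_lit 7) (nat_lit 7))
    (@En.n l14071 (nat_lit 2398) (nat_lit 9) (nat_lit 12))
    (@En.n l14072 (nat_lit 2398) (nat_lit 10) (nat_lit 9))
    (@En.n l2711 (nat_lit 4585) (nat_lit 11) (nat_lit 9))
    (@En.n l152 (nat_lit 2130) (nat_lit 6) (nat_lit 10))
    (@En.n l10048 (nat_lit 4831) (nat_lit 13) (nat_lit 10))
    (@En.n l14073 (nat_lit 2107) (nat_lit 14) (nat_lit 3))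
    (@En.i (nat_lit 1980) (nat_lit 0) (nat_lit 9))
    (@En.n l7 (nat_lit 2401) (nat_lit 15) (nat_lit 2))))
  (@Cl.mk (nat_lit 0x30003000a0004000b000a000a000d00060005000300060006000d000d000c) (nat_lit 0x701100000562) (nat_lit 16) Lb.e (@T16.mk En
    (@En.n l19181 (nat_lit 2248) (nat_lit 0) (nat_lit 12))
    (@En.n l13872 (nat_lit 2424) (nat_lit 3) (nat_lit 13))
    (@En.n l19182 (nat_lit 12436) (nat_lit 13) (nat_lit 13))
    (@En.n l19183 (nat_lit 3678) (nat_lit 10) (nat_lit 6))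
    (@En.n l1545 (nat_lit 3682) (nat_lit 12) (nat_lit 6))
    (@En.n l19184 (nat_lit 2201) (nat_lit 5) (nat_lit 3))
    (@En.i (nat_lit 2860) (nat_lit 0) (nat_lit 5))
    (@En.n l18986 (nat_lit 4603) (nat_lit 7) (nat_lit 6))
    (@En.n l6140 (nat_lit 2396) (nat_lit 5) (nat_lit 13))
    (@En.n l6141 (nat_lit 2396) (nat_lit 6) (nat_lit 10))
    (@En.n l7584 (nat_lit 4388) (nat_lit 11) (nat_lit 10))
    (@En.n l28 (nat_lit 2456) (nat_lit 12) (nat_lit 11))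
    (@En.i (nat_lit 2239) (nat_lit 6) (nat_lit 4))
    (@En.n l19185 (nat_lit 2882) (nat_lit 14) (nat_lit 10))
    (@En.n l13869 (nat_lit 2397) (nat_lit 13) (nat_lit 3))
    (@En.n l19186 (nat_lit 2424) (nat_lit 0) (nat_lit 3))))
  (@Cl.mk (nat_lit 0x2000d000d000700030003000c000c0009000c0004000400090004000e0007) (nat_lit 0xb0000a600007000) (nat_lit 16) Lb.e (@T16.mk En
    (@En.n l535 (nat_lit 2456) (nat_lit 4) (nat_lit 7))
    (@En.n l622 (nat_lit 3291) (nat_lit 1) (nat_lit 14))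
    (@En.n l1453 (nat_lit 2400) (nat_lit 2) (nat_lit 4))
    (@En.i (nat_lit 6744) (nat_lit 3) (nat_lit 9))
    (@En.n l5946 (nat_lit 2109) (nat_lit 12) (nat_lit 4))
    (@En.n l6769 (nat_lit 3430) (nat_lit 5) (nat_lit 4))
    (@En.i (nat_lit 13442) (nat_lit 6) (nat_lit 12))
    (@En.n l17819 (nat_lit 4209) (nat_lit 12) (nat_lit 9))
    (@En.n l4558 (nat_lit 2133) (nat_lit 4) (nat_lit 12))
    (@En.n l17820 (nat_lit 2890) (nat_lit 10) (nat_lit 12))
    (@En.n l152 (nat_lit 2399) (nat_lit 13) (nat_lit 3))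
    (@En.n l17821 (nat_lit 3454) (nat_lit 0) (nat_lit 3))
    (@En.n l513 (nat_lit 5133) (nat_lit 0) (nat_lit 7))
    (@En.n l17822 (nat_lit 3454) (nat_lit 3) (nat_lit 13))
    (@En.n l4130 (nat_lit 12418) (nat_lit 2) (nat_lit 13))
    (@En.n l17 (nat_lit 2403) (nat_lit 15) (nat_lit 2))))
  (@Cl.mk (nat_lit 0x2000900050004000d000a000d000300070003000e00060002000b000e000c) (nat_lit 0x30078a000300456) (nat_lit 16) Lb.e (@T16.mk En
    (@En.n l3165 (nat_lit 2241) (nat_lit 13) (nat_lit 12))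
    (@En.n l44 (nat_lit 2486) (nat_lit 4) (nat_lit 14))
    (@En.i (nat_lit 12701) (nat_lit 2) (nat_lit 11))
    (@En.n l17 (nat_lit 2404) (nat_lit 3) (nat_lit 2))
    (@En.n l3166 (nat_lit 887) (nat_lit 4) (nat_lit 6))
    (@En.n l3167 (nat_lit 2285) (nat_lit 1) (nat_lit 14))
    (@En.n l26 (nat_lit 2406) (nat_lit 6) (nat_lit 3))
    (@En.n l109 (nat_lit 1246) (nat_lit 7) (nat_lit 7))
    (@En.n l3168 (nat_lit 2380) (nat_lit 8) (nat_lit 3))
    (@En.i (nat_lit 13032) (nat_lit 5) (nat_lit 13))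
    (@En.n l44 (nat_lit 891) (nat_lit 11) (nat_lit 10))
    (@En.n l3169 (nat_lit 1746) (nat_lit 12) (nat_lit 13))
    (@En.n l3170 (nat_lit 2387) (nat_lit 8) (nat_lit 4))
    (@En.n l3171 (nat_lit 2274) (nat_lit 14) (nat_lit 5))
    (@En.n l3172 (nat_lit 2440) (nat_lit 11) (nat_lit 9))
    (@En.n l3 (nat_lit 2404) (nat_lit 15) (nat_lit 2))))
  (@Cl.mk (nat_lit 0x2000900050004000b000a000a000d00070005000300060006000b000e000c) (nat_lit 0x400710000000051) (nat_lit 16) Lb.e (@T16.mk En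
    (@En.n l15430 (nat_lit 2239) (nat_lit 11) (nat_lit 12))
    (@En.i (nat_lit 2484) (nat_lit 4) (nat_lit 14))
    (@En.n l4243 (nat_lit 12703) (nat_lit 2) (nat_lit 11))
    (@En.n l15431 (nat_lit 2407) (nat_lit 3) (nat_lit 6))
    (@En.n l4013 (nat_lit 3033) (nat_lit 4) (nat_lit 6))
    (@En.n l15432 (nat_lit 887) (nat_lit 5) (nat_lit 3))
    (@En.n l6230 (nat_lit 3590) (nat_lit 0) (nat_lit 5))
    (@En.n l15433 (nat_lit 2408) (nat_lit 7) (nat_lit 7))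
    (@En.n l8 (nat_lit 2406) (nat_lit 9) (nat_lit 13))
    (@En.n l77 (nat_lit 2406) (nat_lit 10) (nat_lit 10))
    (@En.i (nat_lit 2322) (nat_lit 11) (nat_lit 10))
    (@En.n l15434 (nat_lit 6835) (nat_lit 12) (nat_lit 11))
    (@En.n l6230 (nat_lit 2402) (nat_lit 12) (nat_lit 4))
    (@En.n l15435 (nat_lit 2271) (nat_lit 14) (nat_lit 5))
    (@En.n l15436 (nat_lit 2880) (nat_lit 1) (nat_lit 9))
    (@En.n l18 (nat_lit 2405) (nat_lit 15) (nat_lit 2))))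
  (@Cl.mk (nat_lit 0x2000a00050004000c000a000d000600040003000e00060002000b000e000c) (nat_lit 0x40078b000000061) (nat_lit 16) Lb.e (@T16.mk En
    (@En.n l9265 (nat_lit 2240) (nat_lit 13) (nat_lit 12))
    (@En.i (nat_lit 2487) (nat_lit 4) (nat_lit 14))
    (@En.n l93 (nat_lit 12702) (nat_lit 2) (nat_lit 11))
    (@En.n l7 (nat_lit 2406) (nat_lit 3) (nat_lit 2))
    (@En.i (nat_lit 2405) (nat_lit 4) (nat_lit 6))
    (@En.n l9266 (nat_lit 2665) (nat_lit 1) (nat_lit 14))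
    (@En.n l16 (nat_lit 2404) (nat_lit 6) (nat_lit 3))
    (@En.n l9267 (nat_lit 2859) (nat_lit 3) (nat_lit 4))
    (@En.n l89 (nat_lit 2409) (nat_lit 8) (nat_lit 6))
    (@En.n l93 (nat_lit 13033) (nat_lit 5) (nat_lit 13))
    (@En.i (nat_lit 3582) (nat_lit 11) (nat_lit 10))
    (@En.n l1162 (nat_lit 6839) (nat_lit 12) (nat_lit 12))
    (@En.n l9268 (nat_lit 2396) (nat_lit 8) (nat_lit 4))
    (@En.n l9269 (nat_lit 2276) (nat_lit 14) (nat_lit 5))
    (@En.n l7641 (nat_lit 2881) (nat_lit 11) (nat_lit 10))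
    (@En.n l18 (nat_lit 2406) (nat_lit 15) (nat_lit 2))))
  (@Cl.mk (nat_lit 0x2000800050004000a000e000a0002000d0008000600030006000b000e000c) (nat_lit 0x400702014000041) (nat_lit 16) Lb.e (@T16.mk En
    (@En.n l8490 (nat_lit 2238) (nat_lit 8) (nat_lit 12))
    (@En.n l8491 (nat_lit 2485) (nat_lit 4) (nat_lit 14))
    (@En.n l8492 (nat_lit 12747) (nat_lit 2) (nat_lit 11))
    (@En.n l1897 (nat_lit 3962) (nat_lit 3) (nat_lit 6))
    (@En.n l1865 (nat_lit 884) (nat_lit 4) (nat_lit 3))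
    (@En.n l4758 (nat_lit 3612) (nat_lit 0) (nat_lit 6))
    (@En.n l8493 (nat_lit 7646) (nat_lit 14) (nat_lit 8))
    (@En.n l8494 (nat_lit 2405) (nat_lit 8) (nat_lit 13))
    (@En.n l18 (nat_lit 2407) (nat_lit 8) (nat_lit 2))
    (@En.n l8495 (nat_lit 2405) (nat_lit 10) (nat_lit 10))
    (@En.n l1897 (nat_lit 4732) (nat_lit 11) (nat_lit 14))
    (@En.n l2038 (nat_lit 6838) (nat_lit 12) (nat_lit 10))
    (@En.n l1554 (nat_lit 3678) (nat_lit 3) (nat_lit 4))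
    (@En.n l476 (nat_lit 2270) (nat_lit 14) (nat_lit 5))
    (@En.i (nat_lit 2851) (nat_lit 5) (nat_lit 8))
    (@En.n l28 (nat_lit 2407) (nat_lit 15) (nat_lit 2))))
  (@Cl.mk (nat_lit 0x20009000800060005000c000b000b00070004000800050005000a000e000b) (nat_lit 0x4100a0000100000) (nat_lit 16) Lb.e (@T16.mk En
    (@En.n l23894 (nat_lit 2412) (nat_lit 10) (nat_lit 11))
    (@En.n l19322 (nat_lit 6774) (nat_lit 1) (nat_lit 14))
    (@En.n l28134 (nat_lit 11039) (nat_lit 2) (nat_lit 10))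
    (@En.n l2828 (nat_lit 7646) (nat_lit 11) (nat_lit 5))
    (@En.n l7543 (nat_lit 6763) (nat_lit 4) (nat_lit 5))
    (@En.i (nat_lit 1097) (nat_lit 5) (nat_lit 8))
    (@En.n l16268 (nat_lit 2414) (nat_lit 6) (nat_lit 4))
    (@En.n l13622 (nat_lit 6573) (nat_lit 7) (nat_lit 7))
    (@En.n l28135 (nat_lit 2409) (nat_lit 9) (nat_lit 11))
    (@En.n l19322 (nat_lit 4444) (nat_lit 10) (nat_lit 11))
    (@En.n l763 (nat_lit 9314) (nat_lit 11) (nat_lit 12))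
    (@En.i (nat_lit 4603) (nat_lit 11) (nat_lit 5))
    (@En.n l16268 (nat_lit 8534) (nat_lit 13) (nat_lit 6))
    (@En.n l28136 (nat_lit 887) (nat_lit 14) (nat_lit 8))
    (@En.i (nat_lit 9429) (nat_lit 2) (nat_lit 9))
    (@En.n l50 (nat_lit 2408) (nat_lit 15) (nat_lit 2))))
  (@Cl.mk (nat_lit 0x2000a000900060005000d000b000600030007000e00050002000a000e000b) (nat_lit 0x6400b9000200000) (nat_lit 16) Lb.e (@T16.mk En
    (@En.n l2639 (nat_lit 2411) (nat_lit 13) (nat_lit 11))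
    (@En.n l3487 (nat_lit 6710) (nat_lit 1) (nat_lit 14))
    (@En.i (nat_lit 11577) (nat_lit 2) (nat_lit 10))
    (@En.n l17 (nat_lit 2409) (nat_lit 3) (nat_lit 2))
    (@En.n l17639 (nat_lit 2408) (nat_lit 4) (nat_lit 5))
    (@En.n l10903 (nat_lit 3693) (nat_lit 6) (nat_lit 14))
    (@En.n l7138 (nat_lit 622) (nat_lit 6) (nat_lit 7))
    (@En.n l17640 (nat_lit 2410) (nat_lit 3) (nat_lit 3))
    (@En.n l108 (nat_lit 2124) (nat_lit 0) (nat_lit 6))
    (@En.n l3487 (nat_lit 2416) (nat_lit 10) (nat_lit 11))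
    (@En.n l17641 (nat_lit 9309) (nat_lit 7) (nat_lit 13))
    (@En.n l10903 (nat_lit 3437) (nat_lit 7) (nat_lit 5))
    (@En.n l4153 (nat_lit 8565) (nat_lit 8) (nat_lit 6))
    (@En.i (nat_lit 2404) (nat_lit 14) (nat_lit 9))
    (@En.n l17581 (nat_lit 9430) (nat_lit 11) (nat_lit 10))
    (@En.n l3 (nat_lit 2409) (nat_lit 15) (nat_lit 2))))
  (@Cl.mk (nat_lit 0x2000a000e000b0002000b000900060005000d0005000c00030007000e0004) (nat_lit 0x5007000040) (nat_lit 16) Lb.e (@T16.mk En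
    (@En.n l2710 (nat_lit 2414) (nat_lit 4) (nat_lit 4))
    (@En.i (nat_lit 3695) (nat_lit 1) (nat_lit 14))
    (@En.n l15145 (nat_lit 352) (nat_lit 2) (nat_lit 7))
    (@En.n l9819 (nat_lit 2409) (nat_lit 7) (nat_lit 3))
    (@En.n l3082 (nat_lit 6762) (nat_lit 9) (nat_lit 12))
    (@En.n l29862 (nat_lit 3222) (nat_lit 5) (nat_lit 5))
    (@En.n l15796 (nat_lit 9307) (nat_lit 7) (nat_lit 13))
    (@En.i (nat_lit 3436) (nat_lit 7) (nat_lit 5))
    (@En.n l152 (nat_lit 8564) (nat_lit 8) (nat_lit 6))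
    (@En.n l24895 (nat_lit 2380) (nat_lit 14) (nat_lit 9))
    (@En.n l29863 (nat_lit 7298) (nat_lit 11) (nat_lit 11))
    (@En.n l11 (nat_lit 2410) (nat_lit 11) (nat_lit 2))
    (@En.n l3279 (nat_lit 2413) (nat_lit 13) (nat_lit 11))
    (@En.n l2051 (nat_lit 6856) (nat_lit 1) (nat_lit 14))
    (@En.n l29864 (nat_lit 11578) (nat_lit 2) (nat_lit 10))
    (@En.n l17 (nat_lit 2410) (nat_lit 15) (nat_lit 2))))
  (@Cl.mk (nat_lit 0x2000b000b000b00090008000500050005000d000b000700030008000e0005) (nat_lit 0x90340008500120) (nat_lit 16) Lb.e (@T16.mk En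
    (@En.n l13906 (nat_lit 2412) (nat_lit 13) (nat_lit 5))
    (@En.i (nat_lit 2670) (nat_lit 1) (nat_lit 14))
    (@En.i (nat_lit 618) (nat_lit 2) (nat_lit 8))
    (@En.n l50 (nat_lit 2413) (nat_lit 3) (nat_lit 3))
    (@En.n l16178 (nat_lit 1932) (nat_lit 0) (nat_lit 7))
    (@En.n l217 (nat_lit 2417) (nat_lit 6) (nat_lit 11))
    (@En.n l15451 (nat_lit 8219) (nat_lit 7) (nat_lit 13))
    (@En.n l6169 (nat_lit 2409) (nat_lit 11) (nat_lit 5))
    (@En.n l11 (nat_lit 4617) (nat_lit 11) (nat_lit 5))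
    (@En.n l4976 (nat_lit 8371) (nat_lit 9) (nat_lit 5))
    (@En.n l16179 (nat_lit 2241) (nat_lit 11) (nat_lit 8))
    (@En.i (nat_lit 4626) (nat_lit 12) (nat_lit 9))
    (@En.n l55 (nat_lit 6422) (nat_lit 13) (nat_lit 11))
    (@En.n l619 (nat_lit 7531) (nat_lit 5) (nat_lit 11))
    (@En.i (nat_lit 11582) (nat_lit 11) (nat_lit 11))
    (@En.n l17 (nat_lit 2411) (nat_lit 15) (nat_lit 2))))
  (@Cl.mk (nat_lit 0x4000900050005000b000b000b00080007000500050005000c000b000b0008) (nat_lit 0x20009030000a062) (nat_lit 16) Lb.e (@T16.mk En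
    (@En.i (nat_lit 7499) (nat_lit 0) (nat_lit 8))
    (@En.n l19338 (nat_lit 2411) (nat_lit 5) (nat_lit 11))
    (@En.n l217 (nat_lit 6296) (nat_lit 5) (nat_lit 11))
    (@En.n l27552 (nat_lit 8223) (nat_lit 3) (nat_lit 12))
    (@En.n l27553 (nat_lit 2408) (nat_lit 11) (nat_lit 5))
    (@En.n l27554 (nat_lit 7523) (nat_lit 11) (nat_lit 5))
    (@En.n l27555 (nat_lit 8374) (nat_lit 0) (nat_lit 5))
    (@En.n l27556 (nat_lit 2237) (nat_lit 9) (nat_lit 7))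
    (@En.n l6387 (nat_lit 8277) (nat_lit 1) (nat_lit 8))
    (@En.n l27557 (nat_lit 6398) (nat_lit 5) (nat_lit 11))
    (@En.n l27558 (nat_lit 7530) (nat_lit 5) (nat_lit 11))
    (@En.n l27559 (nat_lit 10285) (nat_lit 12) (nat_lit 11))
    (@En.n l23125 (nat_lit 7645) (nat_lit 11) (nat_lit 5))
    (@En.n l27560 (nat_lit 5883) (nat_lit 0) (nat_lit 5))
    (@En.n l15704 (nat_lit 1256) (nat_lit 0) (nat_lit 9))
    (@En.n l27560 (nat_lit 2415) (nat_lit 1) (nat_lit 4))))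
  (@Cl.mk (nat_lit 0x2000b000b000b000a0008000500050005000d0006000c00030008000e0004) (nat_lit 0x90030008000140) (nat_lit 16) Lb.e (@T16.mk En
    (@En.i (nat_lit 2415) (nat_lit 15) (nat_lit 4))
    (@En.i (nat_lit 2671) (nat_lit 1) (nat_lit 14))
    (@En.i (nat_lit 344) (nat_lit 2) (nat_lit 8))
    (@En.i (nat_lit 2411) (nat_lit 3) (nat_lit 3))
    (@En.n l26965 (nat_lit 6766) (nat_lit 0) (nat_lit 12))
    (@En.i (nat_lit 2978) (nat_lit 5) (nat_lit 6))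
    (@En.n l601 (nat_lit 8218) (nat_lit 7) (nat_lit 13))
    (@En.n l218 (nat_lit 2410) (nat_lit 7) (nat_lit 5))
    (@En.n l11 (nat_lit 4618) (nat_lit 11) (nat_lit 5))
    (@En.n l4976 (nat_lit 8346) (nat_lit 9) (nat_lit 5))
    (@En.n l16179 (nat_lit 2378) (nat_lit 11) (nat_lit 8))
    (@En.n l77 (nat_lit 4624) (nat_lit 12) (nat_lit 10))
    (@En.n l4512 (nat_lit 6423) (nat_lit 13) (nat_lit 11))
    (@En.n l619 (nat_lit 7532) (nat_lit 5) (nat_lit 11))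
    (@En.i (nat_lit 11581) (nat_lit 11) (nat_lit 11))
    (@En.n l17 (nat_lit 2413) (nat_lit 15) (nat_lit 2))))
  (@Cl.mk (nat_lit 0x2000b000800060005000c0005000c000c0004000800040004000a000e000b) (nat_lit 0x100a0010100000) (nat_lit 16) Lb.e (@T16.mk En
    (@En.n l15640 (nat_lit 2415) (nat_lit 12) (nat_lit 11))
    (@En.n l7808 (nat_lit 6777) (nat_lit 1) (nat_lit 14))
    (@En.n l15641 (nat_lit 11583) (nat_lit 2) (nat_lit 10))
    (@En.n l152 (nat_lit 7647) (nat_lit 12) (nat_lit 4))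
    (@En.n l7808 (nat_lit 2416) (nat_lit 4) (nat_lit 4))
    (@En.n l15642 (nat_lit 353) (nat_lit 5) (nat_lit 8))
    (@En.n l15643 (nat_lit 4445) (nat_lit 6) (nat_lit 4))
    (@En.n l833 (nat_lit 2410) (nat_lit 4) (nat_lit 12))
    (@En.n l1240 (nat_lit 6768) (nat_lit 9) (nat_lit 12))
    (@En.n l3537 (nat_lit 3220) (nat_lit 9) (nat_lit 5))
    (@En.n l15644 (nat_lit 9305) (nat_lit 11) (nat_lit 12))
    (@En.n l1240 (nat_lit 7379) (nat_lit 11) (nat_lit 5))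
    (@En.i (nat_lit 8532) (nat_lit 13) (nat_lit 6))
    (@En.n l15645 (nat_lit 885) (nat_lit 14) (nat_lit 8))
    (@En.n l15646 (nat_lit 7300) (nat_lit 10) (nat_lit 11))
    (@En.n l7 (nat_lit 2414) (nat_lit 15) (nat_lit 2))))
  (@Cl.mk (nat_lit 0x40004000b000b000b000a0007000500050005000c0006000c000c00040009) (nat_lit 0x9030000700101) (nat_lit 16) Lb.e (@T16.mk En
    (@En.n l11217 (nat_lit 337) (nat_lit 0) (nat_lit 9))
    (@En.n l13906 (nat_lit 6292) (nat_lit 1) (nat_lit 4))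
    (@En.n l61 (nat_lit 2413) (nat_lit 4) (nat_lit 12))
    (@En.n l13907 (nat_lit 6300) (nat_lit 1) (nat_lit 12))
    (@En.n l13906 (nat_lit 2918) (nat_lit 4) (nat_lit 6))
    (@En.n l601 (nat_lit 8226) (nat_lit 3) (nat_lit 12))
    (@En.n l13908 (nat_lit 2414) (nat_lit 11) (nat_lit 5))
    (@En.n l13909 (nat_lit 7641) (nat_lit 11) (nat_lit 5))
    (@En.n l2710 (nat_lit 8533) (nat_lit 8) (nat_lit 5))
    (@En.n l13910 (nat_lit 2224) (nat_lit 0) (nat_lit 7))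
    (@En.n l77 (nat_lit 8672) (nat_lit 6) (nat_lit 10))
    (@En.n l4512 (nat_lit 6253) (nat_lit 5) (nat_lit 11))
    (@En.n l2749 (nat_lit 6309) (nat_lit 5) (nat_lit 11))
    (@En.n l13911 (nat_lit 10280) (nat_lit 12) (nat_lit 11))
    (@En.n l13912 (nat_lit 7643) (nat_lit 12) (nat_lit 4))
    (@En.i (nat_lit 2417) (nat_lit 0) (nat_lit 4))))
noncomputable def a151 : T16 Cl := @T16.mk Cl
  (@Cl.mk (nat_lit 0x2000b000a00060005000b0005000c0006000d000500040003000a000e000b) (nat_lit 0x10080000000000) (nat_lit 16) Lb.e (@T16.mk En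
    (@En.n l18200 (nat_lit 2417) (nat_lit 13) (nat_lit 11))
    (@En.i (nat_lit 6689) (nat_lit 1) (nat_lit 14))
    (@En.n l16865 (nat_lit 11036) (nat_lit 2) (nat_lit 10))
    (@En.n l7 (nat_lit 4437) (nat_lit 3) (nat_lit 3))
    (@En.n l30270 (nat_lit 2410) (nat_lit 0) (nat_lit 4))
    (@En.i (nat_lit 4444) (nat_lit 5) (nat_lit 5))
    (@En.n l18203 (nat_lit 3694) (nat_lit 7) (nat_lit 13))
    (@En.n l30271 (nat_lit 6565) (nat_lit 7) (nat_lit 6))
    (@En.n l30272 (nat_lit 6767) (nat_lit 9) (nat_lit 12))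
    (@En.n l22593 (nat_lit 4355) (nat_lit 9) (nat_lit 5))
    (@En.n l4600 (nat_lit 9465) (nat_lit 11) (nat_lit 11))
    (@En.n l20615 (nat_lit 7376) (nat_lit 11) (nat_lit 5))
    (@En.n l18207 (nat_lit 9742) (nat_lit 13) (nat_lit 6))
    (@En.n l619 (nat_lit 891) (nat_lit 14) (nat_lit 10))
    (@En.n l20123 (nat_lit 10442) (nat_lit 11) (nat_lit 11))
    (@En.n l18 (nat_lit 2416) (nat_lit 15) (nat_lit 2))))
  (@Cl.mk (nat_lit 0x3000b000b000b000a0009000500050005000b0006000c0007000d00050004) (nat_lit 0x90000004000100) (nat_lit 16) Lb.e (@T16.mk En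
    (@En.n l18 (nat_lit 2413) (nat_lit 0) (nat_lit 4))
    (@En.n l13906 (nat_lit 6296) (nat_lit 0) (nat_lit 5))
    (@En.i (nat_lit 1166) (nat_lit 1) (nat_lit 13))
    (@En.n l61 (nat_lit 5915) (nat_lit 3) (nat_lit 7))
    (@En.n l27654 (nat_lit 5888) (nat_lit 2) (nat_lit 12))
    (@En.n l27655 (nat_lit 3148) (nat_lit 5) (nat_lit 6))
    (@En.i (nat_lit 9459) (nat_lit 7) (nat_lit 11))
    (@En.n l15897 (nat_lit 2416) (nat_lit 11) (nat_lit 5))
    (@En.n l11 (nat_lit 6362) (nat_lit 11) (nat_lit 5))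
    (@En.n l4976 (nat_lit 9746) (nat_lit 9) (nat_lit 5))
    (@En.n l27656 (nat_lit 4392) (nat_lit 11) (nat_lit 9))
    (@En.n l77 (nat_lit 10231) (nat_lit 6) (nat_lit 10))
    (@En.n l55 (nat_lit 6245) (nat_lit 5) (nat_lit 11))
    (@En.n l619 (nat_lit 4427) (nat_lit 5) (nat_lit 11))
    (@En.i (nat_lit 10417) (nat_lit 14) (nat_lit 11))
    (@En.n l27657 (nat_lit 4431) (nat_lit 13) (nat_lit 3))))
  (@Cl.mk (nat_lit 0x20005000d000a000d000300090003000e00060002000c000b0007000e0004) (nat_lit 0x98a02030045040) (nat_lit 16) Lb.e (@T16.mk En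
    (@En.n l50 (nat_lit 2241) (nat_lit 10) (nat_lit 4))
    (@En.n l3934 (nat_lit 2420) (nat_lit 1) (nat_lit 14))
    (@En.n l3935 (nat_lit 2421) (nat_lit 2) (nat_lit 7))
    (@En.n l2863 (nat_lit 2274) (nat_lit 3) (nat_lit 11))
    (@En.n l3154 (nat_lit 10690) (nat_lit 5) (nat_lit 12))
    (@En.n l28 (nat_lit 2418) (nat_lit 5) (nat_lit 2))
    (@En.n l3936 (nat_lit 775) (nat_lit 6) (nat_lit 6))
    (@En.n l3152 (nat_lit 2279) (nat_lit 8) (nat_lit 14))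
    (@En.n l117 (nat_lit 2428) (nat_lit 8) (nat_lit 3))
    (@En.n l3907 (nat_lit 1341) (nat_lit 10) (nat_lit 9))
    (@En.n l3 (nat_lit 2381) (nat_lit 10) (nat_lit 3))
    (@En.n l3937 (nat_lit 13058) (nat_lit 5) (nat_lit 13))
    (@En.n l2403 (nat_lit 779) (nat_lit 13) (nat_lit 10))
    (@En.n l3938 (nat_lit 2434) (nat_lit 8) (nat_lit 13))
    (@En.n l3154 (nat_lit 2176) (nat_lit 13) (nat_lit 5))
    (@En.n l18 (nat_lit 2418) (nat_lit 15) (nat_lit 2))))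
  (@Cl.mk (nat_lit 0x200090005000c000a000a000d00040007000300060006000d000b000e0003) (nat_lit 0x50800a0000036c0) (nat_lit 16) Lb.e (@T16.mk En
    (@En.n l3841 (nat_lit 2201) (nat_lit 15) (nat_lit 3))
    (@En.i (nat_lit 12896) (nat_lit 0) (nat_lit 14))
    (@En.n l3842 (nat_lit 887) (nat_lit 2) (nat_lit 11))
    (@En.n l591 (nat_lit 10690) (nat_lit 13) (nat_lit 13))
    (@En.n l3843 (nat_lit 2425) (nat_lit 4) (nat_lit 6))
    (@En.n l3844 (nat_lit 2149) (nat_lit 12) (nat_lit 6))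
    (@En.n l11 (nat_lit 2424) (nat_lit 6) (nat_lit 3))
    (@En.n l3845 (nat_lit 2691) (nat_lit 0) (nat_lit 7))
    (@En.n l424 (nat_lit 2147) (nat_lit 8) (nat_lit 4))
    (@En.n l3846 (nat_lit 2420) (nat_lit 10) (nat_lit 13))
    (@En.n l3847 (nat_lit 2420) (nat_lit 11) (nat_lit 10))
    (@En.i (nat_lit 4416) (nat_lit 12) (nat_lit 10))
    (@En.n l3848 (nat_lit 2422) (nat_lit 13) (nat_lit 12))
    (@En.n l3849 (nat_lit 775) (nat_lit 14) (nat_lit 5))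
    (@En.n l3722 (nat_lit 2443) (nat_lit 14) (nat_lit 9))
    (@En.n l17 (nat_lit 2419) (nat_lit 15) (nat_lit 2))))
  (@Cl.mk (nat_lit 0x2000a0005000d000a000d000300060003000e00060002000d000b000e0003) (nat_lit 0x50b890004001530) (nat_lit 16) Lb.e (@T16.mk En
    (@En.n l1182 (nat_lit 2387) (nat_lit 11) (nat_lit 3))
    (@En.n l1183 (nat_lit 12895) (nat_lit 0) (nat_lit 14))
    (@En.n l1184 (nat_lit 2404) (nat_lit 2) (nat_lit 11))
    (@En.n l1185 (nat_lit 16) (nat_lit 2) (nat_lit 13))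
    (@En.n l17 (nat_lit 2420) (nat_lit 4) (nat_lit 2))
    (@En.n l1183 (nat_lit 2419) (nat_lit 5) (nat_lit 6))
    (@En.i (nat_lit 2280) (nat_lit 1) (nat_lit 14))
    (@En.n l1186 (nat_lit 2423) (nat_lit 7) (nat_lit 3))
    (@En.n l1187 (nat_lit 2701) (nat_lit 8) (nat_lit 6))
    (@En.n l50 (nat_lit 2383) (nat_lit 9) (nat_lit 3))
    (@En.n l1184 (nat_lit 13061) (nat_lit 5) (nat_lit 13))
    (@En.n l1183 (nat_lit 4413) (nat_lit 12) (nat_lit 10))
    (@En.n l476 (nat_lit 2421) (nat_lit 13) (nat_lit 13))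
    (@En.n l1188 (nat_lit 2418) (nat_lit 14) (nat_lit 5))
    (@En.n l1189 (nat_lit 2441) (nat_lit 10) (nat_lit 10))
    (@En.n l11 (nat_lit 2420) (nat_lit 15) (nat_lit 2))))
  (@Cl.mk (nat_lit 0x2000a000d0009000c0003000900060004000e00070002000d0007000e0003) (nat_lit 0x5a0806004002030) (nat_lit 16) Lb.e (@T16.mk En
    (@En.n l1992 (nat_lit 2392) (nat_lit 11) (nat_lit 3))
    (@En.n l619 (nat_lit 12892) (nat_lit 0) (nat_lit 14))
    (@En.n l1184 (nat_lit 1765) (nat_lit 14) (nat_lit 7))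
    (@En.n l3928 (nat_lit 10691) (nat_lit 2) (nat_lit 13))
    (@En.n l17 (nat_lit 2421) (nat_lit 4) (nat_lit 2))
    (@En.n l3929 (nat_lit 2422) (nat_lit 5) (nat_lit 7))
    (@En.i (nat_lit 2283) (nat_lit 1) (nat_lit 14))
    (@En.n l2900 (nat_lit 3454) (nat_lit 7) (nat_lit 4))
    (@En.i (nat_lit 2420) (nat_lit 8) (nat_lit 6))
    (@En.n l3930 (nat_lit 3467) (nat_lit 10) (nat_lit 9))
    (@En.n l50 (nat_lit 2432) (nat_lit 10) (nat_lit 3))
    (@En.n l1184 (nat_lit 13451) (nat_lit 6) (nat_lit 12))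
    (@En.n l3931 (nat_lit 4577) (nat_lit 13) (nat_lit 9))
    (@En.n l3932 (nat_lit 1730) (nat_lit 5) (nat_lit 13))
    (@En.n l3933 (nat_lit 2439) (nat_lit 10) (nat_lit 10))
    (@En.n l11 (nat_lit 2421) (nat_lit 15) (nat_lit 2))))
  (@Cl.mk (nat_lit 0x20009000c00090009000c0004000a0007000400070007000d0006000e0003) (nat_lit 0x570190400003030) (nat_lit 16) Lb.e (@T16.mk En
    (@En.n l615 (nat_lit 2199) (nat_lit 15) (nat_lit 3))
    (@En.n l10736 (nat_lit 12894) (nat_lit 0) (nat_lit 14))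
    (@En.n l771 (nat_lit 1763) (nat_lit 2) (nat_lit 6))
    (@En.n l10737 (nat_lit 10771) (nat_lit 4) (nat_lit 13))
    (@En.n l217 (nat_lit 2430) (nat_lit 4) (nat_lit 7))
    (@En.i (nat_lit 2144) (nat_lit 11) (nat_lit 7))
    (@En.n l10738 (nat_lit 2457) (nat_lit 6) (nat_lit 4))
    (@En.n l10739 (nat_lit 2419) (nat_lit 7) (nat_lit 7))
    (@En.n l10740 (nat_lit 3466) (nat_lit 9) (nat_lit 10))
    (@En.n l10741 (nat_lit 2142) (nat_lit 9) (nat_lit 4))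
    (@En.n l10742 (nat_lit 2421) (nat_lit 11) (nat_lit 12))
    (@En.n l10743 (nat_lit 2421) (nat_lit 12) (nat_lit 9))
    (@En.n l10737 (nat_lit 4579) (nat_lit 13) (nat_lit 9))
    (@En.n l10744 (nat_lit 1794) (nat_lit 6) (nat_lit 12))
    (@En.n l10745 (nat_lit 2442) (nat_lit 14) (nat_lit 9))
    (@En.n l28 (nat_lit 2422) (nat_lit 15) (nat_lit 2))))
  (@Cl.mk (nat_lit 0x2000b0005000c000a000d000500040003000e00060002000d000b000e0003) (nat_lit 0x7000002006130) (nat_lit 16) Lb.e (@T16.mk En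
    (@En.n l3873 (nat_lit 2396) (nat_lit 11) (nat_lit 3))
    (@En.i (nat_lit 13018) (nat_lit 0) (nat_lit 14))
    (@En.n l5 (nat_lit 2406) (nat_lit 2) (nat_lit 11))
    (@En.n l564 (nat_lit 10775) (nat_lit 2) (nat_lit 13))
    (@En.n l7 (nat_lit 2423) (nat_lit 4) (nat_lit 2))
    (@En.i (nat_lit 2424) (nat_lit 5) (nat_lit 6))
    (@En.n l1174 (nat_lit 3078) (nat_lit 1) (nat_lit 14))
    (@En.n l323 (nat_lit 2420) (nat_lit 7) (nat_lit 3))
    (@En.n l3874 (nat_lit 2854) (nat_lit 8) (nat_lit 4))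
    (@En.n l1174 (nat_lit 4602) (nat_lit 9) (nat_lit 5))
    (@En.n l91 (nat_lit 13059) (nat_lit 5) (nat_lit 13))
    (@En.i (nat_lit 4411) (nat_lit 12) (nat_lit 10))
    (@En.n l1491 (nat_lit 3454) (nat_lit 13) (nat_lit 12))
    (@En.n l3763 (nat_lit 2428) (nat_lit 14) (nat_lit 5))
    (@En.n l3852 (nat_lit 2885) (nat_lit 10) (nat_lit 11))
    (@En.n l17 (nat_lit 2423) (nat_lit 15) (nat_lit 2))))
  (@Cl.mk (nat_lit 0x2000a0005000b000a000a000d00060005000300060006000d000b000e0003) (nat_lit 0x7011000005140) (nat_lit 16) Lb.e (@T16.mk En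
    (@En.n l7990 (nat_lit 2402) (nat_lit 15) (nat_lit 3))
    (@En.i (nat_lit 13016) (nat_lit 0) (nat_lit 14))
    (@En.n l5 (nat_lit 2405) (nat_lit 2) (nat_lit 11))
    (@En.n l420 (nat_lit 12437) (nat_lit 13) (nat_lit 13))
    (@En.n l4642 (nat_lit 2426) (nat_lit 4) (nat_lit 6))
    (@En.n l7991 (nat_lit 3958) (nat_lit 12) (nat_lit 6))
    (@En.i (nat_lit 2419) (nat_lit 6) (nat_lit 3))
    (@En.n l6230 (nat_lit 2855) (nat_lit 0) (nat_lit 5))
    (@En.n l117 (nat_lit 4604) (nat_lit 8) (nat_lit 6))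
    (@En.n l8 (nat_lit 2423) (nat_lit 10) (nat_lit 13))
    (@En.n l77 (nat_lit 2423) (nat_lit 11) (nat_lit 10))
    (@En.i (nat_lit 4414) (nat_lit 12) (nat_lit 10))
    (@En.n l4646 (nat_lit 2457) (nat_lit 13) (nat_lit 11))
    (@En.i (nat_lit 2427) (nat_lit 14) (nat_lit 5))
    (@En.i (nat_lit 2850) (nat_lit 14) (nat_lit 10))
    (@En.n l17 (nat_lit 2424) (nat_lit 15) (nat_lit 2))))
  (@Cl.mk (nat_lit 0x200080005000b000e000a0002000d0005000800030006000d000b000e0003) (nat_lit 0x508510b050021c0) (nat_lit 16) Lb.e (@T16.mk En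
    (@En.n l3323 (nat_lit 2203) (nat_lit 6) (nat_lit 3))
    (@En.n l3324 (nat_lit 12898) (nat_lit 0) (nat_lit 14))
    (@En.n l1253 (nat_lit 884) (nat_lit 2) (nat_lit 11))
    (@En.n l3325 (nat_lit 12323) (nat_lit 10) (nat_lit 13))
    (@En.n l3326 (nat_lit 559) (nat_lit 12) (nat_lit 6))
    (@En.n l3327 (nat_lit 2426) (nat_lit 5) (nat_lit 3))
    (@En.n l3328 (nat_lit 2694) (nat_lit 0) (nat_lit 8))
    (@En.n l3329 (nat_lit 2149) (nat_lit 14) (nat_lit 5))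
    (@En.n l3330 (nat_lit 2419) (nat_lit 9) (nat_lit 13))
    (@En.n l11 (nat_lit 2425) (nat_lit 9) (nat_lit 2))
    (@En.n l3331 (nat_lit 2419) (nat_lit 11) (nat_lit 10))
    (@En.i (nat_lit 4726) (nat_lit 4) (nat_lit 14))
    (@En.n l3332 (nat_lit 2430) (nat_lit 13) (nat_lit 11))
    (@En.n l17 (nat_lit 772) (nat_lit 14) (nat_lit 5))
    (@En.n l3328 (nat_lit 2618) (nat_lit 4) (nat_lit 8))
    (@En.n l3 (nat_lit 2425) (nat_lit 15) (nat_lit 2))))
  (@Cl.mk (nat_lit 0x200090005000a000e000a0002000d0007000600030006000d000b000e0003) (nat_lit 0x7410200009130) (nat_lit 16) Lb.e (@T16.mk En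
    (@En.n l3394 (nat_lit 3678) (nat_lit 6) (nat_lit 3))
    (@En.n l3395 (nat_lit 13017) (nat_lit 0) (nat_lit 14))
    (@En.n l3396 (nat_lit 2407) (nat_lit 2) (nat_lit 11))
    (@En.i (nat_lit 12325) (nat_lit 10) (nat_lit 13))
    (@En.n l649 (nat_lit 3959) (nat_lit 4) (nat_lit 6))
    (@En.n l3072 (nat_lit 2425) (nat_lit 5) (nat_lit 3))
    (@En.n l1900 (nat_lit 3611) (nat_lit 0) (nat_lit 6))
    (@En.n l3397 (nat_lit 4611) (nat_lit 14) (nat_lit 7))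
    (@En.n l1902 (nat_lit 2424) (nat_lit 9) (nat_lit 13))
    (@En.n l17 (nat_lit 2426) (nat_lit 9) (nat_lit 2))
    (@En.n l1903 (nat_lit 2424) (nat_lit 11) (nat_lit 10))
    (@En.n l1769 (nat_lit 4715) (nat_lit 12) (nat_lit 14))
    (@En.i (nat_lit 2453) (nat_lit 13) (nat_lit 10))
    (@En.n l3398 (nat_lit 2429) (nat_lit 14) (nat_lit 5))
    (@En.n l3399 (nat_lit 2849) (nat_lit 4) (nat_lit 9))
    (@En.n l50 (nat_lit 2426) (nat_lit 15) (nat_lit 2))))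
  (@Cl.mk (nat_lit 0x20005000b000a000a000d00090005000300060006000c000b0007000e0004) (nat_lit 0x700030000a1050) (nat_lit 16) Lb.e (@T16.mk En
    (@En.n l7990 (nat_lit 2239) (nat_lit 8) (nat_lit 4))
    (@En.n l3 (nat_lit 2424) (nat_lit 1) (nat_lit 14))
    (@En.n l19191 (nat_lit 2431) (nat_lit 2) (nat_lit 7))
    (@En.n l19192 (nat_lit 2271) (nat_lit 3) (nat_lit 11))
    (@En.n l4592 (nat_lit 12439) (nat_lit 5) (nat_lit 12))
    (@En.n l19193 (nat_lit 2429) (nat_lit 5) (nat_lit 6))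
    (@En.n l19194 (nat_lit 3702) (nat_lit 6) (nat_lit 6))
    (@En.n l3849 (nat_lit 775) (nat_lit 7) (nat_lit 3))
    (@En.n l18347 (nat_lit 2639) (nat_lit 0) (nat_lit 5))
    (@En.n l19195 (nat_lit 7530) (nat_lit 10) (nat_lit 9))
    (@En.n l7862 (nat_lit 2428) (nat_lit 11) (nat_lit 13))
    (@En.n l6730 (nat_lit 2428) (nat_lit 12) (nat_lit 10))
    (@En.i (nat_lit 4421) (nat_lit 13) (nat_lit 10))
    (@En.n l19196 (nat_lit 3461) (nat_lit 14) (nat_lit 11))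
    (@En.n l3106 (nat_lit 2171) (nat_lit 13) (nat_lit 5))
    (@En.n l17 (nat_lit 2427) (nat_lit 15) (nat_lit 2))))
  (@Cl.mk (nat_lit 0x20005000c000a000d000800040003000e00060002000c000b0008000e0004) (nat_lit 0x78b200000a1240) (nat_lit 16) Lb.e (@T16.mk En
    (@En.n l50 (nat_lit 2240) (nat_lit 10) (nat_lit 4))
    (@En.n l10571 (nat_lit 2423) (nat_lit 1) (nat_lit 14))
    (@En.n l10816 (nat_lit 2446) (nat_lit 2) (nat_lit 8))
    (@En.n l2863 (nat_lit 2276) (nat_lit 3) (nat_lit 11))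
    (@En.i (nat_lit 12438) (nat_lit 5) (nat_lit 12))
    (@En.n l28 (nat_lit 2428) (nat_lit 5) (nat_lit 2))
    (@En.n l10573 (nat_lit 2427) (nat_lit 6) (nat_lit 6))
    (@En.n l10816 (nat_lit 2666) (nat_lit 8) (nat_lit 14))
    (@En.n l152 (nat_lit 2418) (nat_lit 8) (nat_lit 3))
    (@En.n l1865 (nat_lit 2853) (nat_lit 9) (nat_lit 4))
    (@En.n l3428 (nat_lit 7531) (nat_lit 11) (nat_lit 8))
    (@En.n l10817 (nat_lit 13043) (nat_lit 5) (nat_lit 13))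
    (@En.n l10573 (nat_lit 4422) (nat_lit 13) (nat_lit 10))
    (@En.n l10818 (nat_lit 3459) (nat_lit 8) (nat_lit 12))
    (@En.n l3155 (nat_lit 2173) (nat_lit 13) (nat_lit 5))
    (@En.n l18 (nat_lit 2428) (nat_lit 15) (nat_lit 2))))
  (@Cl.mk (nat_lit 0x20005000a000e000a0002000d000a000600030006000c000b0006000e0004) (nat_lit 0x771014000a1040) (nat_lit 16) Lb.e (@T16.mk En
    (@En.n l9656 (nat_lit 2238) (nat_lit 5) (nat_lit 4))
    (@En.n l9657 (nat_lit 2426) (nat_lit 1) (nat_lit 14))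
    (@En.n l9658 (nat_lit 2447) (nat_lit 2) (nat_lit 6))
    (@En.i (nat_lit 2270) (nat_lit 3) (nat_lit 11))
    (@En.n l9659 (nat_lit 12664) (nat_lit 10) (nat_lit 12))
    (@En.n l1897 (nat_lit 3961) (nat_lit 5) (nat_lit 6))
    (@En.n l7615 (nat_lit 772) (nat_lit 6) (nat_lit 3))
    (@En.n l97 (nat_lit 2641) (nat_lit 7) (nat_lit 6))
    (@En.n l9660 (nat_lit 6421) (nat_lit 9) (nat_lit 10))
    (@En.n l9661 (nat_lit 2427) (nat_lit 10) (nat_lit 13))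
    (@En.n l18 (nat_lit 2429) (nat_lit 10) (nat_lit 2))
    (@En.n l9662 (nat_lit 2427) (nat_lit 12) (nat_lit 10))
    (@En.n l5021 (nat_lit 4672) (nat_lit 13) (nat_lit 14))
    (@En.n l4847 (nat_lit 3463) (nat_lit 14) (nat_lit 10))
    (@En.n l5825 (nat_lit 2179) (nat_lit 13) (nat_lit 5))
    (@En.n l28 (nat_lit 2429) (nat_lit 15) (nat_lit 2))))
  (@Cl.mk (nat_lit 0x20008000b000e00090002000c0005000b000800040007000d0005000e0003) (nat_lit 0x57310a086002030) (nat_lit 16) Lb.e (@T16.mk En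
    (@En.n l615 (nat_lit 2198) (nat_lit 5) (nat_lit 3))
    (@En.n l9553 (nat_lit 12897) (nat_lit 0) (nat_lit 14))
    (@En.n l9554 (nat_lit 1764) (nat_lit 2) (nat_lit 5))
    (@En.n l6296 (nat_lit 12637) (nat_lit 9) (nat_lit 13))
    (@En.i (nat_lit 657) (nat_lit 11) (nat_lit 7))
    (@En.n l6296 (nat_lit 2453) (nat_lit 5) (nat_lit 4))
    (@En.n l9555 (nat_lit 2425) (nat_lit 6) (nat_lit 8))
    (@En.i (nat_lit 6788) (nat_lit 8) (nat_lit 11))
    (@En.n l2593 (nat_lit 2144) (nat_lit 14) (nat_lit 5))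
    (@En.n l1738 (nat_lit 2422) (nat_lit 10) (nat_lit 12))
    (@En.n l18 (nat_lit 2430) (nat_lit 10) (nat_lit 2))
    (@En.i (nat_lit 2422) (nat_lit 12) (nat_lit 9))
    (@En.n l1643 (nat_lit 5317) (nat_lit 13) (nat_lit 14))
    (@En.n l564 (nat_lit 1791) (nat_lit 7) (nat_lit 11))
    (@En.n l3427 (nat_lit 2620) (nat_lit 3) (nat_lit 8))
    (@En.n l28 (nat_lit 2430) (nat_lit 15) (nat_lit 2))))
  (@Cl.mk (nat_lit 0x2000a000a00090009000c000900060006000400070007000d0007000e0003) (nat_lit 0x860003000006030) (nat_lit 16) Lb.e (@T16.mk En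
    (@En.n l137 (nat_lit 2107) (nat_lit 15) (nat_lit 3))
    (@En.n l12252 (nat_lit 12887) (nat_lit 0) (nat_lit 14))
    (@En.i (nat_lit 1657) (nat_lit 2) (nat_lit 7))
    (@En.n l19187 (nat_lit 11834) (nat_lit 4) (nat_lit 13))
    (@En.n l11166 (nat_lit 2447) (nat_lit 4) (nat_lit 7))
    (@En.n l4968 (nat_lit 2079) (nat_lit 5) (nat_lit 7))
    (@En.n l19232 (nat_lit 2422) (nat_lit 6) (nat_lit 4))
    (@En.n l152 (nat_lit 2099) (nat_lit 10) (nat_lit 6))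
    (@En.n l19233 (nat_lit 2424) (nat_lit 8) (nat_lit 6))
    (@En.n l601 (nat_lit 8273) (nat_lit 10) (nat_lit 9))
    (@En.i (nat_lit 2446) (nat_lit 11) (nat_lit 12))
    (@En.n l143 (nat_lit 2446) (nat_lit 12) (nat_lit 9))
    (@En.n l19233 (nat_lit 3663) (nat_lit 13) (nat_lit 9))
    (@En.n l10815 (nat_lit 2128) (nat_lit 6) (nat_lit 10))
    (@En.i (nat_lit 2840) (nat_lit 14) (nat_lit 10))
    (@En.n l17 (nat_lit 2431) (nat_lit 15) (nat_lit 2))))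
noncomputable def a152 : T16 Cl := @T16.mk Cl
  (@Cl.mk (nat_lit 0x2000a000d000b000a0003000900060005000e00060002000d0007000e0003) (nat_lit 0x577806006005030) (nat_lit 16) Lb.e (@T16.mk En
    (@En.n l1992 (nat_lit 2386) (nat_lit 11) (nat_lit 3))
    (@En.n l619 (nat_lit 12900) (nat_lit 0) (nat_lit 14))
    (@En.n l1188 (nat_lit 1761) (nat_lit 14) (nat_lit 7))
    (@En.n l2125 (nat_lit 10766) (nat_lit 2) (nat_lit 13))
    (@En.n l17 (nat_lit 2432) (nat_lit 4) (nat_lit 2))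
    (@En.n l10854 (nat_lit 2142) (nat_lit 5) (nat_lit 6))
    (@En.i (nat_lit 1849) (nat_lit 1) (nat_lit 14))
    (@En.n l3387 (nat_lit 3431) (nat_lit 2) (nat_lit 5))
    (@En.i (nat_lit 2383) (nat_lit 8) (nat_lit 6))
    (@En.n l3387 (nat_lit 6893) (nat_lit 10) (nat_lit 9))
    (@En.i (nat_lit 2421) (nat_lit 10) (nat_lit 3))
    (@En.n l10855 (nat_lit 2568) (nat_lit 0) (nat_lit 10))
    (@En.n l10856 (nat_lit 2446) (nat_lit 13) (nat_lit 11))
    (@En.n l7877 (nat_lit 1729) (nat_lit 5) (nat_lit 13))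
    (@En.n l10857 (nat_lit 2602) (nat_lit 10) (nat_lit 10))
    (@En.n l11 (nat_lit 2432) (nat_lit 15) (nat_lit 2))))
  (@Cl.mk (nat_lit 0x2000c00070007000e00040002000d000b000a0003000900090005000e0006) (nat_lit 0x600400778042060) (nat_lit 16) Lb.e (@T16.mk En
    (@En.n l20797 (nat_lit 2052) (nat_lit 6) (nat_lit 6))
    (@En.i (nat_lit 2051) (nat_lit 1) (nat_lit 14))
    (@En.n l20798 (nat_lit 8202) (nat_lit 2) (nat_lit 5))
    (@En.n l20799 (nat_lit 2489) (nat_lit 3) (nat_lit 9))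
    (@En.n l20800 (nat_lit 6892) (nat_lit 11) (nat_lit 9))
    (@En.i (nat_lit 2434) (nat_lit 5) (nat_lit 3))
    (@En.n l20801 (nat_lit 2561) (nat_lit 0) (nat_lit 10))
    (@En.n l20802 (nat_lit 2169) (nat_lit 14) (nat_lit 11))
    (@En.n l20803 (nat_lit 1724) (nat_lit 9) (nat_lit 13))
    (@En.n l28 (nat_lit 2433) (nat_lit 9) (nat_lit 2))
    (@En.n l8751 (nat_lit 2438) (nat_lit 10) (nat_lit 4))
    (@En.n l2038 (nat_lit 2432) (nat_lit 1) (nat_lit 14))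
    (@En.n l1900 (nat_lit 1729) (nat_lit 9) (nat_lit 7))
    (@En.n l20800 (nat_lit 1769) (nat_lit 14) (nat_lit 7))
    (@En.n l6589 (nat_lit 12445) (nat_lit 9) (nat_lit 12))
    (@En.n l17 (nat_lit 2433) (nat_lit 15) (nat_lit 2))))
  (@Cl.mk (nat_lit 0x2000c00070007000e00040002000d0009000c0003000900090004000e0007) (nat_lit 0x600400800043040) (nat_lit 16) Lb.e (@T16.mk En
    (@En.n l6166 (nat_lit 2435) (nat_lit 6) (nat_lit 7))
    (@En.i (nat_lit 2559) (nat_lit 1) (nat_lit 14))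
    (@En.n l8746 (nat_lit 3459) (nat_lit 2) (nat_lit 4))
    (@En.n l8747 (nat_lit 2177) (nat_lit 3) (nat_lit 9))
    (@En.n l8748 (nat_lit 6884) (nat_lit 11) (nat_lit 9))
    (@En.n l50 (nat_lit 2433) (nat_lit 5) (nat_lit 3))
    (@En.n l8749 (nat_lit 13450) (nat_lit 6) (nat_lit 12))
    (@En.n l217 (nat_lit 2807) (nat_lit 14) (nat_lit 9))
    (@En.n l8750 (nat_lit 1498) (nat_lit 9) (nat_lit 13))
    (@En.n l28 (nat_lit 2434) (nat_lit 9) (nat_lit 2))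
    (@En.n l8751 (nat_lit 2436) (nat_lit 10) (nat_lit 4))
    (@En.n l2038 (nat_lit 2421) (nat_lit 1) (nat_lit 14))
    (@En.n l8752 (nat_lit 1730) (nat_lit 9) (nat_lit 7))
    (@En.n l8749 (nat_lit 1768) (nat_lit 14) (nat_lit 7))
    (@En.i (nat_lit 12447) (nat_lit 9) (nat_lit 12))
    (@En.n l17 (nat_lit 2434) (nat_lit 15) (nat_lit 2))))
  (@Cl.mk (nat_lit 0x2000c00090009000c0004000a000a000400070007000c00060006000e0004) (nat_lit 0x901105400020040) (nat_lit 16) Lb.e (@T16.mk En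
    (@En.i (nat_lit 2437) (nat_lit 15) (nat_lit 4))
    (@En.n l8367 (nat_lit 2422) (nat_lit 1) (nat_lit 14))
    (@En.n l20790 (nat_lit 1794) (nat_lit 10) (nat_lit 6))
    (@En.n l20791 (nat_lit 1766) (nat_lit 3) (nat_lit 6))
    (@En.i (nat_lit 12448) (nat_lit 5) (nat_lit 12))
    (@En.n l644 (nat_lit 2532) (nat_lit 5) (nat_lit 7))
    (@En.i (nat_lit 2463) (nat_lit 11) (nat_lit 7))
    (@En.n l1643 (nat_lit 3461) (nat_lit 7) (nat_lit 4))
    (@En.n l8431 (nat_lit 2175) (nat_lit 9) (nat_lit 10))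
    (@En.n l8413 (nat_lit 3465) (nat_lit 10) (nat_lit 10))
    (@En.n l699 (nat_lit 2052) (nat_lit 10) (nat_lit 4))
    (@En.n l20792 (nat_lit 2434) (nat_lit 6) (nat_lit 12))
    (@En.n l6222 (nat_lit 2434) (nat_lit 7) (nat_lit 9))
    (@En.i (nat_lit 2804) (nat_lit 14) (nat_lit 9))
    (@En.n l20793 (nat_lit 426) (nat_lit 3) (nat_lit 12))
    (@En.n l28 (nat_lit 2435) (nat_lit 15) (nat_lit 2))))
  (@Cl.mk (nat_lit 0x2000c000c0008000800040004000d0009000c0003000800080004000e0007) (nat_lit 0x672300800043040) (nat_lit 16) Lb.e (@T16.mk En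
    (@En.n l2995 (nat_lit 2437) (nat_lit 5) (nat_lit 7))
    (@En.n l2996 (nat_lit 2050) (nat_lit 1) (nat_lit 14))
    (@En.n l2997 (nat_lit 6343) (nat_lit 2) (nat_lit 4))
    (@En.n l2998 (nat_lit 2176) (nat_lit 8) (nat_lit 8))
    (@En.n l2999 (nat_lit 6754) (nat_lit 4) (nat_lit 8))
    (@En.n l3 (nat_lit 2438) (nat_lit 5) (nat_lit 3))
    (@En.n l2997 (nat_lit 13377) (nat_lit 6) (nat_lit 12))
    (@En.n l3000 (nat_lit 2800) (nat_lit 8) (nat_lit 9))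
    (@En.n l3001 (nat_lit 1413) (nat_lit 9) (nat_lit 13))
    (@En.n l3002 (nat_lit 2544) (nat_lit 12) (nat_lit 4))
    (@En.i (nat_lit 2440) (nat_lit 10) (nat_lit 4))
    (@En.n l3003 (nat_lit 1731) (nat_lit 8) (nat_lit 8))
    (@En.n l3004 (nat_lit 2439) (nat_lit 13) (nat_lit 8))
    (@En.n l3005 (nat_lit 2434) (nat_lit 14) (nat_lit 12))
    (@En.n l3006 (nat_lit 11121) (nat_lit 9) (nat_lit 12))
    (@En.n l28 (nat_lit 2436) (nat_lit 15) (nat_lit 2))))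
  (@Cl.mk (nat_lit 0x40004000c00090009000c000400090009000400070007000c000c00070007) (nat_lit 0x80110540003300) (nat_lit 16) Lb.e (@T16.mk En
    (@En.n l8783 (nat_lit 1797) (nat_lit 9) (nat_lit 7))
    (@En.n l8784 (nat_lit 2442) (nat_lit 1) (nat_lit 7))
    (@En.n l55 (nat_lit 2435) (nat_lit 4) (nat_lit 12))
    (@En.n l8785 (nat_lit 11122) (nat_lit 13) (nat_lit 12))
    (@En.n l644 (nat_lit 2462) (nat_lit 9) (nat_lit 7))
    (@En.i (nat_lit 2461) (nat_lit 11) (nat_lit 7))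
    (@En.n l615 (nat_lit 6344) (nat_lit 6) (nat_lit 4))
    (@En.n l8431 (nat_lit 2178) (nat_lit 7) (nat_lit 9))
    (@En.n l8413 (nat_lit 6755) (nat_lit 1) (nat_lit 9))
    (@En.n l699 (nat_lit 2460) (nat_lit 9) (nat_lit 4))
    (@En.n l8786 (nat_lit 2436) (nat_lit 6) (nat_lit 12))
    (@En.n l8787 (nat_lit 2436) (nat_lit 7) (nat_lit 9))
    (@En.n l8316 (nat_lit 2799) (nat_lit 13) (nat_lit 9))
    (@En.n l8788 (nat_lit 1411) (nat_lit 3) (nat_lit 12))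
    (@En.n l8789 (nat_lit 2162) (nat_lit 12) (nat_lit 4))
    (@En.n l5760 (nat_lit 2444) (nat_lit 0) (nat_lit 4))))
  (@Cl.mk (nat_lit 0x2000c000c0008000800040004000d000b000a0003000800080005000e0006) (nat_lit 0x672300871042060) (nat_lit 16) Lb.e (@T16.mk En
    (@En.n l7957 (nat_lit 2460) (nat_lit 5) (nat_lit 6))
    (@En.n l2996 (nat_lit 2055) (nat_lit 1) (nat_lit 14))
    (@En.n l117 (nat_lit 8203) (nat_lit 2) (nat_lit 5))
    (@En.n l2176 (nat_lit 2488) (nat_lit 8) (nat_lit 8))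
    (@En.i (nat_lit 7247) (nat_lit 4) (nat_lit 8))
    (@En.i (nat_lit 2436) (nat_lit 5) (nat_lit 3))
    (@En.n l575 (nat_lit 1843) (nat_lit 0) (nat_lit 10))
    (@En.n l8793 (nat_lit 2168) (nat_lit 8) (nat_lit 11))
    (@En.n l2171 (nat_lit 1414) (nat_lit 9) (nat_lit 13))
    (@En.n l2172 (nat_lit 2545) (nat_lit 12) (nat_lit 4))
    (@En.i (nat_lit 2389) (nat_lit 10) (nat_lit 4))
    (@En.n l8794 (nat_lit 1728) (nat_lit 8) (nat_lit 8))
    (@En.n l742 (nat_lit 2602) (nat_lit 13) (nat_lit 8))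
    (@En.n l3005 (nat_lit 2433) (nat_lit 14) (nat_lit 12))
    (@En.n l5911 (nat_lit 12344) (nat_lit 9) (nat_lit 12))
    (@En.n l28 (nat_lit 2438) (nat_lit 15) (nat_lit 2))))
  (@Cl.mk (nat_lit 0x2000d000800070003000a000d0008000b00030008000600090005000e0008) (nat_lit 0x410047000404055) (nat_lit 16) Lb.e (@T16.mk En
    (@En.n l1532 (nat_lit 2442) (nat_lit 4) (nat_lit 8))
    (@En.n l2755 (nat_lit 2586) (nat_lit 1) (nat_lit 14))
    (@En.n l8724 (nat_lit 6817) (nat_lit 2) (nat_lit 5))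
    (@En.n l2755 (nat_lit 2434) (nat_lit 3) (nat_lit 9))
    (@En.n l8725 (nat_lit 2441) (nat_lit 4) (nat_lit 6))
    (@En.n l8726 (nat_lit 6796) (nat_lit 5) (nat_lit 8))
    (@En.n l8727 (nat_lit 2602) (nat_lit 6) (nat_lit 3))
    (@En.n l8724 (nat_lit 14024) (nat_lit 7) (nat_lit 11))
    (@En.n l8728 (nat_lit 2835) (nat_lit 13) (nat_lit 8))
    (@En.i (nat_lit 1718) (nat_lit 5) (nat_lit 13))
    (@En.n l8729 (nat_lit 2606) (nat_lit 11) (nat_lit 10))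
    (@En.n l8678 (nat_lit 2609) (nat_lit 11) (nat_lit 3))
    (@En.i (nat_lit 1395) (nat_lit 0) (nat_lit 7))
    (@En.n l3348 (nat_lit 1767) (nat_lit 14) (nat_lit 8))
    (@En.n l1531 (nat_lit 10679) (nat_lit 2) (nat_lit 13))
    (@En.n l3 (nat_lit 2439) (nat_lit 15) (nat_lit 2))))
  (@Cl.mk (nat_lit 0x2000c0006000d000900040003000d0009000c00030007000a0004000e0007) (nat_lit 0x504200800004040) (nat_lit 16) Lb.e (@T16.mk En
    (@En.n l756 (nat_lit 2444) (nat_lit 6) (nat_lit 7))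
    (@En.n l2400 (nat_lit 2288) (nat_lit 1) (nat_lit 14))
    (@En.n l117 (nat_lit 6828) (nat_lit 2) (nat_lit 4))
    (@En.n l617 (nat_lit 2274) (nat_lit 8) (nat_lit 10))
    (@En.i (nat_lit 6650) (nat_lit 4) (nat_lit 7))
    (@En.n l3 (nat_lit 2389) (nat_lit 5) (nat_lit 3))
    (@En.n l8691 (nat_lit 14025) (nat_lit 6) (nat_lit 12))
    (@En.i (nat_lit 4299) (nat_lit 14) (nat_lit 9))
    (@En.i (nat_lit 1722) (nat_lit 9) (nat_lit 13))
    (@En.n l18 (nat_lit 2610) (nat_lit 9) (nat_lit 3))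
    (@En.n l3938 (nat_lit 2434) (nat_lit 10) (nat_lit 4))
    (@En.n l61 (nat_lit 2609) (nat_lit 12) (nat_lit 9))
    (@En.n l2434 (nat_lit 2392) (nat_lit 13) (nat_lit 13))
    (@En.n l8691 (nat_lit 2608) (nat_lit 14) (nat_lit 6))
    (@En.n l3927 (nat_lit 9677) (nat_lit 9) (nat_lit 12))
    (@En.n l28 (nat_lit 2440) (nat_lit 15) (nat_lit 2))))
  (@Cl.mk (nat_lit 0x2000d000c00070003000a0004000d0009000c0003000600090004000e0007) (nat_lit 0x460040800003040) (nat_lit 16) Lb.e (@T16.mk En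
    (@En.n l1177 (nat_lit 2443) (nat_lit 4) (nat_lit 7))
    (@En.n l2400 (nat_lit 2290) (nat_lit 1) (nat_lit 14))
    (@En.n l2464 (nat_lit 6819) (nat_lit 2) (nat_lit 4))
    (@En.n l617 (nat_lit 2418) (nat_lit 9) (nat_lit 9))
    (@En.i (nat_lit 6709) (nat_lit 12) (nat_lit 6))
    (@En.n l3 (nat_lit 2600) (nat_lit 5) (nat_lit 3))
    (@En.n l2464 (nat_lit 14007) (nat_lit 6) (nat_lit 12))
    (@En.i (nat_lit 4303) (nat_lit 12) (nat_lit 9))
    (@En.n l3619 (nat_lit 2439) (nat_lit 9) (nat_lit 13))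
    (@En.n l50 (nat_lit 2436) (nat_lit 9) (nat_lit 4))
    (@En.n l612 (nat_lit 2607) (nat_lit 11) (nat_lit 10))
    (@En.n l50 (nat_lit 2610) (nat_lit 11) (nat_lit 3))
    (@En.n l1181 (nat_lit 1774) (nat_lit 0) (nat_lit 7))
    (@En.n l217 (nat_lit 2440) (nat_lit 14) (nat_lit 12))
    (@En.n l3620 (nat_lit 10681) (nat_lit 9) (nat_lit 13))
    (@En.n l28 (nat_lit 2441) (nat_lit 15) (nat_lit 2))))
  (@Cl.mk (nat_lit 0x30009000c00080008000b000400090007000a000500080008000d00070006) (nat_lit 0x450110505042600) (nat_lit 16) Lb.e (@T16.mk En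
    (@En.i (nat_lit 1485) (nat_lit 0) (nat_lit 6))
    (@En.n l20732 (nat_lit 1672) (nat_lit 7) (nat_lit 7))
    (@En.i (nat_lit 10683) (nat_lit 2) (nat_lit 13))
    (@En.n l20733 (nat_lit 2620) (nat_lit 8) (nat_lit 8))
    (@En.n l20734 (nat_lit 2467) (nat_lit 10) (nat_lit 8))
    (@En.n l20735 (nat_lit 6816) (nat_lit 5) (nat_lit 5))
    (@En.n l20734 (nat_lit 2435) (nat_lit 8) (nat_lit 10))
    (@En.n l20736 (nat_lit 2443) (nat_lit 7) (nat_lit 7))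
    (@En.n l20737 (nat_lit 6790) (nat_lit 2) (nat_lit 9))
    (@En.n l20738 (nat_lit 2505) (nat_lit 9) (nat_lit 4))
    (@En.n l1899 (nat_lit 2439) (nat_lit 7) (nat_lit 11))
    (@En.n l1900 (nat_lit 2439) (nat_lit 8) (nat_lit 8))
    (@En.n l20739 (nat_lit 2826) (nat_lit 13) (nat_lit 8))
    (@En.i (nat_lit 1288) (nat_lit 6) (nat_lit 12))
    (@En.n l20740 (nat_lit 2612) (nat_lit 4) (nat_lit 9))
    (@En.n l20741 (nat_lit 2445) (nat_lit 15) (nat_lit 3))))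
  (@Cl.mk (nat_lit 0x300090004000c00090009000c00040007000a000400070007000d000c0006) (nat_lit 0x406011002000350) (nat_lit 16) Lb.e (@T16.mk En
    (@En.n l3840 (nat_lit 1488) (nat_lit 0) (nat_lit 6))
    (@En.n l7162 (nat_lit 2444) (nat_lit 4) (nat_lit 12))
    (@En.n l10204 (nat_lit 10685) (nat_lit 2) (nat_lit 13))
    (@En.n l107 (nat_lit 2618) (nat_lit 9) (nat_lit 7))
    (@En.n l7163 (nat_lit 2466) (nat_lit 11) (nat_lit 7))
    (@En.n l10205 (nat_lit 6818) (nat_lit 5) (nat_lit 4))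
    (@En.n l2039 (nat_lit 775) (nat_lit 8) (nat_lit 10))
    (@En.i (nat_lit 6708) (nat_lit 11) (nat_lit 7))
    (@En.n l10206 (nat_lit 2504) (nat_lit 8) (nat_lit 4))
    (@En.n l3839 (nat_lit 2441) (nat_lit 6) (nat_lit 12))
    (@En.n l2535 (nat_lit 2441) (nat_lit 7) (nat_lit 9))
    (@En.n l3312 (nat_lit 4306) (nat_lit 12) (nat_lit 9))
    (@En.n l10207 (nat_lit 2442) (nat_lit 13) (nat_lit 12))
    (@En.n l10208 (nat_lit 2437) (nat_lit 14) (nat_lit 4))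
    (@En.n l612 (nat_lit 2611) (nat_lit 0) (nat_lit 9))
    (@En.n l50 (nat_lit 2614) (nat_lit 15) (nat_lit 3))))
  (@Cl.mk (nat_lit 0x3000c00090009000c00040008000b000400070007000c0005000d00080004) (nat_lit 0x601104500040560) (nat_lit 16) Lb.e (@T16.mk En
    (@En.n l3348 (nat_lit 2435) (nat_lit 0) (nat_lit 4))
    (@En.n l4007 (nat_lit 2445) (nat_lit 0) (nat_lit 8))
    (@En.n l3749 (nat_lit 2199) (nat_lit 1) (nat_lit 13))
    (@En.i (nat_lit 2613) (nat_lit 3) (nat_lit 5))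
    (@En.n l20664 (nat_lit 9675) (nat_lit 13) (nat_lit 12))
    (@En.n l152 (nat_lit 2616) (nat_lit 9) (nat_lit 7))
    (@En.n l3348 (nat_lit 2468) (nat_lit 11) (nat_lit 7))
    (@En.n l5979 (nat_lit 6826) (nat_lit 7) (nat_lit 4))
    (@En.n l20665 (nat_lit 2267) (nat_lit 7) (nat_lit 11))
    (@En.n l10337 (nat_lit 6651) (nat_lit 1) (nat_lit 8))
    (@En.n l10338 (nat_lit 2502) (nat_lit 10) (nat_lit 4))
    (@En.n l2535 (nat_lit 2440) (nat_lit 6) (nat_lit 12))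
    (@En.n l2536 (nat_lit 2440) (nat_lit 7) (nat_lit 9))
    (@En.n l17133 (nat_lit 4305) (nat_lit 14) (nat_lit 9))
    (@En.n l20666 (nat_lit 1293) (nat_lit 3) (nat_lit 12))
    (@En.n l4296 (nat_lit 2614) (nat_lit 13) (nat_lit 3))))
  (@Cl.mk (nat_lit 0x30009000c00080008000b000400080007000b000500080008000d00050008) (nat_lit 0x450000506002505) (nat_lit 16) Lb.e (@T16.mk En
    (@En.n l33551 (nat_lit 1688) (nat_lit 10) (nat_lit 8))
    (@En.n l23388 (nat_lit 2612) (nat_lit 7) (nat_lit 5))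
    (@En.n l33552 (nat_lit 9678) (nat_lit 2) (nat_lit 13))
    (@En.n l107 (nat_lit 2617) (nat_lit 8) (nat_lit 8))
    (@En.n l7163 (nat_lit 2471) (nat_lit 10) (nat_lit 8))
    (@En.n l8351 (nat_lit 6822) (nat_lit 5) (nat_lit 5))
    (@En.n l6680 (nat_lit 2444) (nat_lit 8) (nat_lit 11))
    (@En.n l17 (nat_lit 2614) (nat_lit 7) (nat_lit 7))
    (@En.i (nat_lit 6647) (nat_lit 11) (nat_lit 8))
    (@En.n l10206 (nat_lit 2503) (nat_lit 9) (nat_lit 4))
    (@En.n l3839 (nat_lit 2609) (nat_lit 7) (nat_lit 11))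
    (@En.n l2535 (nat_lit 2609) (nat_lit 8) (nat_lit 8))
    (@En.n l33553 (nat_lit 2834) (nat_lit 13) (nat_lit 8))
    (@En.n l33554 (nat_lit 1290) (nat_lit 6) (nat_lit 12))
    (@En.n l33555 (nat_lit 1880) (nat_lit 4) (nat_lit 9))
    (@En.n l10207 (nat_lit 2442) (nat_lit 15) (nat_lit 3))))
  (@Cl.mk (nat_lit 0x2000b000b0009000c0008000500050004000e00070002000d0008000e0003) (nat_lit 0x967a20000007130) (nat_lit 16) Lb.e (@T16.mk En
    (@En.n l12388 (nat_lit 2400) (nat_lit 11) (nat_lit 3))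
    (@En.n l12253 (nat_lit 12889) (nat_lit 0) (nat_lit 14))
    (@En.n l11615 (nat_lit 1992) (nat_lit 14) (nat_lit 8))
    (@En.n l12389 (nat_lit 11836) (nat_lit 2) (nat_lit 13))
    (@En.n l28 (nat_lit 2446) (nat_lit 4) (nat_lit 2))
    (@En.n l7 (nat_lit 2431) (nat_lit 5) (nat_lit 7))
    (@En.i (nat_lit 3272) (nat_lit 1) (nat_lit 14))
    (@En.n l12390 (nat_lit 2421) (nat_lit 7) (nat_lit 4))
    (@En.n l152 (nat_lit 2101) (nat_lit 11) (nat_lit 5))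
    (@En.n l12391 (nat_lit 2423) (nat_lit 9) (nat_lit 5))
    (@En.n l644 (nat_lit 7536) (nat_lit 5) (nat_lit 8))
    (@En.n l4110 (nat_lit 13453) (nat_lit 6) (nat_lit 12))
    (@En.n l12391 (nat_lit 3660) (nat_lit 13) (nat_lit 9))
    (@En.n l12392 (nat_lit 2125) (nat_lit 5) (nat_lit 11))
    (@En.n l12393 (nat_lit 2888) (nat_lit 10) (nat_lit 11))
    (@En.n l17 (nat_lit 2446) (nat_lit 15) (nat_lit 2))))
  (@Cl.mk (nat_lit 0x200090009000e00090002000c000a0007000700040007000d0006000e0003) (nat_lit 0x7641014000000a0) (nat_lit 16) Lb.e (@T16.mk En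
    (@En.n l117 (nat_lit 2448) (nat_lit 5) (nat_lit 3))
    (@En.n l9732 (nat_lit 12888) (nat_lit 0) (nat_lit 14))
    (@En.n l9733 (nat_lit 1655) (nat_lit 2) (nat_lit 6))
    (@En.n l9734 (nat_lit 12110) (nat_lit 9) (nat_lit 13))
    (@En.i (nat_lit 3972) (nat_lit 4) (nat_lit 7))
    (@En.n l4869 (nat_lit 2430) (nat_lit 5) (nat_lit 4))
    (@En.n l77 (nat_lit 2103) (nat_lit 12) (nat_lit 7))
    (@En.n l9735 (nat_lit 2426) (nat_lit 7) (nat_lit 7))
    (@En.n l7983 (nat_lit 8276) (nat_lit 14) (nat_lit 10))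
    (@En.n l9736 (nat_lit 2431) (nat_lit 10) (nat_lit 12))
    (@En.n l18 (nat_lit 2447) (nat_lit 10) (nat_lit 2))
    (@En.n l9737 (nat_lit 2431) (nat_lit 12) (nat_lit 9))
    (@En.n l9734 (nat_lit 4482) (nat_lit 13) (nat_lit 14))
    (@En.n l1599 (nat_lit 2450) (nat_lit 7) (nat_lit 9))
    (@En.n l810 (nat_lit 2839) (nat_lit 3) (nat_lit 9))
    (@En.n l11 (nat_lit 2447) (nat_lit 15) (nat_lit 2))))
noncomputable def a153 : T16 Cl := @T16.mk Cl
  (@Cl.mk (nat_lit 0x2000c00090007000700040007000d000d00070003000300090009000e0009) (nat_lit 0x170000010007631) (nat_lit 16) Lb.e (@T16.mk En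
    (@En.n l14686 (nat_lit 2107) (nat_lit 11) (nat_lit 9))
    (@En.n l14687 (nat_lit 4480) (nat_lit 1) (nat_lit 14))
    (@En.n l14688 (nat_lit 2131) (nat_lit 7) (nat_lit 9))
    (@En.n l12628 (nat_lit 2847) (nat_lit 3) (nat_lit 9))
    (@En.n l12629 (nat_lit 2449) (nat_lit 13) (nat_lit 3))
    (@En.n l152 (nat_lit 2447) (nat_lit 0) (nat_lit 3))
    (@En.n l1992 (nat_lit 1871) (nat_lit 0) (nat_lit 7))
    (@En.n l619 (nat_lit 2447) (nat_lit 3) (nat_lit 13))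
    (@En.n l14687 (nat_lit 12109) (nat_lit 9) (nat_lit 13))
    (@En.i (nat_lit 3913) (nat_lit 11) (nat_lit 7))
    (@En.n l420 (nat_lit 2198) (nat_lit 10) (nat_lit 4))
    (@En.n l77 (nat_lit 2104) (nat_lit 12) (nat_lit 7))
    (@En.n l12626 (nat_lit 3678) (nat_lit 13) (nat_lit 7))
    (@En.n l14689 (nat_lit 8278) (nat_lit 14) (nat_lit 9))
    (@En.n l14690 (nat_lit 2107) (nat_lit 9) (nat_lit 12))
    (@En.n l18 (nat_lit 2448) (nat_lit 15) (nat_lit 2))))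
  (@Cl.mk (nat_lit 0x20008000300090009000e00090002000c00080007000700040007000e000d) (nat_lit 0x300601026000091) (nat_lit 16) Lb.e (@T16.mk En
    (@En.n l4827 (nat_lit 2448) (nat_lit 8) (nat_lit 13))
    (@En.n l5980 (nat_lit 10101) (nat_lit 1) (nat_lit 14))
    (@En.n l810 (nat_lit 3914) (nat_lit 2) (nat_lit 7))
    (@En.n l2486 (nat_lit 2196) (nat_lit 3) (nat_lit 4))
    (@En.n l4828 (nat_lit 4868) (nat_lit 4) (nat_lit 7))
    (@En.i (nat_lit 3679) (nat_lit 5) (nat_lit 7))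
    (@En.n l5981 (nat_lit 9209) (nat_lit 6) (nat_lit 8))
    (@En.n l5982 (nat_lit 2401) (nat_lit 8) (nat_lit 12))
    (@En.n l3 (nat_lit 2449) (nat_lit 8) (nat_lit 2))
    (@En.n l5983 (nat_lit 2401) (nat_lit 10) (nat_lit 9))
    (@En.i (nat_lit 4479) (nat_lit 11) (nat_lit 14))
    (@En.n l5984 (nat_lit 2451) (nat_lit 7) (nat_lit 9))
    (@En.n l17 (nat_lit 4839) (nat_lit 13) (nat_lit 9))
    (@En.n l4826 (nat_lit 2448) (nat_lit 4) (nat_lit 3))
    (@En.n l5985 (nat_lit 3176) (nat_lit 0) (nat_lit 8))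
    (@En.n l50 (nat_lit 2449) (nat_lit 15) (nat_lit 2))))
  (@Cl.mk (nat_lit 0x200050008000d0007000e000300020009000e00080002000b0009000e0007) (nat_lit 0x46030053102400) (nat_lit 16) Lb.e (@T16.mk En
    (@En.n l1504 (nat_lit 2447) (nat_lit 7) (nat_lit 7))
    (@En.n l4589 (nat_lit 2458) (nat_lit 9) (nat_lit 14))
    (@En.n l10976 (nat_lit 8274) (nat_lit 14) (nat_lit 9))
    (@En.n l14796 (nat_lit 2128) (nat_lit 3) (nat_lit 11))
    (@En.n l18 (nat_lit 2450) (nat_lit 4) (nat_lit 2))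
    (@En.n l14797 (nat_lit 2128) (nat_lit 5) (nat_lit 8))
    (@En.n l4589 (nat_lit 4691) (nat_lit 7) (nat_lit 14))
    (@En.n l13450 (nat_lit 6923) (nat_lit 2) (nat_lit 9))
    (@En.n l28 (nat_lit 2450) (nat_lit 8) (nat_lit 2))
    (@En.n l8316 (nat_lit 2131) (nat_lit 9) (nat_lit 3))
    (@En.n l14798 (nat_lit 12876) (nat_lit 0) (nat_lit 14))
    (@En.i (nat_lit 1653) (nat_lit 12) (nat_lit 7))
    (@En.n l8994 (nat_lit 12114) (nat_lit 13) (nat_lit 13))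
    (@En.n l4589 (nat_lit 3975) (nat_lit 14) (nat_lit 8))
    (@En.i (nat_lit 1795) (nat_lit 13) (nat_lit 5))
    (@En.n l8 (nat_lit 2450) (nat_lit 15) (nat_lit 2))))
  (@Cl.mk (nat_lit 0x200050008000e000d0002000900030009000e00080002000b0007000e0007) (nat_lit 0x6a602050102000) (nat_lit 16) Lb.e (@T16.mk En
    (@En.n l11038 (nat_lit 2449) (nat_lit 5) (nat_lit 7))
    (@En.n l5423 (nat_lit 5190) (nat_lit 7) (nat_lit 14))
    (@En.n l11039 (nat_lit 9210) (nat_lit 14) (nat_lit 7))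
    (@En.n l3267 (nat_lit 2130) (nat_lit 3) (nat_lit 11))
    (@En.n l50 (nat_lit 2451) (nat_lit 4) (nat_lit 2))
    (@En.n l1267 (nat_lit 2130) (nat_lit 5) (nat_lit 8))
    (@En.n l11039 (nat_lit 4785) (nat_lit 7) (nat_lit 14))
    (@En.n l4361 (nat_lit 5213) (nat_lit 2) (nat_lit 9))
    (@En.n l11040 (nat_lit 2131) (nat_lit 8) (nat_lit 3))
    (@En.n l10873 (nat_lit 4644) (nat_lit 10) (nat_lit 9))
    (@En.n l11 (nat_lit 2451) (nat_lit 10) (nat_lit 2))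
    (@En.n l11041 (nat_lit 2131) (nat_lit 12) (nat_lit 13))
    (@En.i (nat_lit 10099) (nat_lit 13) (nat_lit 14))
    (@En.n l5149 (nat_lit 3977) (nat_lit 2) (nat_lit 8))
    (@En.i (nat_lit 2155) (nat_lit 3) (nat_lit 5))
    (@En.n l3 (nat_lit 2451) (nat_lit 15) (nat_lit 2))))
  (@Cl.mk (nat_lit 0x2000b00050008000d000d000500030003000a000e00080002000b000e0006) (nat_lit 0x60000052101c0) (nat_lit 16) Lb.e (@T16.mk En
    (@En.n l3522 (nat_lit 2454) (nat_lit 13) (nat_lit 6))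
    (@En.n l476 (nat_lit 2491) (nat_lit 4) (nat_lit 14))
    (@En.i (nat_lit 2132) (nat_lit 2) (nat_lit 11))
    (@En.n l7 (nat_lit 2452) (nat_lit 3) (nat_lit 2))
    (@En.n l601 (nat_lit 2132) (nat_lit 4) (nat_lit 8))
    (@En.i (nat_lit 4696) (nat_lit 6) (nat_lit 14))
    (@En.n l649 (nat_lit 5426) (nat_lit 2) (nat_lit 10))
    (@En.i (nat_lit 5190) (nat_lit 13) (nat_lit 3))
    (@En.n l152 (nat_lit 2458) (nat_lit 0) (nat_lit 3))
    (@En.n l1865 (nat_lit 5191) (nat_lit 0) (nat_lit 5))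
    (@En.n l619 (nat_lit 2458) (nat_lit 3) (nat_lit 13))
    (@En.n l10970 (nat_lit 12770) (nat_lit 8) (nat_lit 13))
    (@En.i (nat_lit 4688) (nat_lit 13) (nat_lit 8))
    (@En.i (nat_lit 2131) (nat_lit 14) (nat_lit 5))
    (@En.i (nat_lit 6346) (nat_lit 11) (nat_lit 11))
    (@En.n l17 (nat_lit 2452) (nat_lit 15) (nat_lit 2))))
  (@Cl.mk (nat_lit 0x2000a000a000e00090002000c00060006000c00040007000d0004000e0003) (nat_lit 0x564000005000030) (nat_lit 16) Lb.e (@T16.mk En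
    (@En.i (nat_lit 2454) (nat_lit 5) (nat_lit 3))
    (@En.i (nat_lit 12878) (nat_lit 0) (nat_lit 14))
    (@En.i (nat_lit 1642) (nat_lit 2) (nat_lit 4))
    (@En.i (nat_lit 12488) (nat_lit 9) (nat_lit 13))
    (@En.n l649 (nat_lit 4798) (nat_lit 11) (nat_lit 7))
    (@En.n l9654 (nat_lit 2447) (nat_lit 5) (nat_lit 4))
    (@En.i (nat_lit 3464) (nat_lit 7) (nat_lit 12))
    (@En.n l1900 (nat_lit 4854) (nat_lit 13) (nat_lit 6))
    (@En.n l9655 (nat_lit 4612) (nat_lit 14) (nat_lit 6))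
    (@En.n l5596 (nat_lit 2457) (nat_lit 10) (nat_lit 12))
    (@En.n l17 (nat_lit 2453) (nat_lit 10) (nat_lit 2))
    (@En.n l5597 (nat_lit 2457) (nat_lit 12) (nat_lit 9))
    (@En.i (nat_lit 5596) (nat_lit 13) (nat_lit 14))
    (@En.n l1867 (nat_lit 2458) (nat_lit 14) (nat_lit 10))
    (@En.i (nat_lit 5105) (nat_lit 3) (nat_lit 10))
    (@En.n l50 (nat_lit 2453) (nat_lit 15) (nat_lit 2))))
  (@Cl.mk (nat_lit 0x2000c00060006000b00040007000d000d000500030003000a000a000e0009) (nat_lit 0x200900010005630) (nat_lit 16) Lb.e (@T16.mk En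
    (@En.n l22263 (nat_lit 2456) (nat_lit 11) (nat_lit 9))
    (@En.i (nat_lit 5581) (nat_lit 1) (nat_lit 14))
    (@En.n l1140 (nat_lit 2452) (nat_lit 6) (nat_lit 10))
    (@En.n l1554 (nat_lit 5288) (nat_lit 3) (nat_lit 10))
    (@En.n l18241 (nat_lit 2455) (nat_lit 13) (nat_lit 3))
    (@En.n l7 (nat_lit 2453) (nat_lit 0) (nat_lit 3))
    (@En.n l18243 (nat_lit 5193) (nat_lit 0) (nat_lit 5))
    (@En.n l644 (nat_lit 2453) (nat_lit 3) (nat_lit 13))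
    (@En.i (nat_lit 12489) (nat_lit 9) (nat_lit 13))
    (@En.n l3528 (nat_lit 4681) (nat_lit 11) (nat_lit 7))
    (@En.n l22264 (nat_lit 2448) (nat_lit 10) (nat_lit 4))
    (@En.n l17552 (nat_lit 6742) (nat_lit 12) (nat_lit 11))
    (@En.n l1900 (nat_lit 4824) (nat_lit 13) (nat_lit 6))
    (@En.n l15604 (nat_lit 4610) (nat_lit 14) (nat_lit 6))
    (@En.n l22265 (nat_lit 2456) (nat_lit 9) (nat_lit 12))
    (@En.n l17 (nat_lit 2454) (nat_lit 15) (nat_lit 2))))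
  (@Cl.mk (nat_lit 0x200060003000a000a000e00090002000c00060006000a00040007000e000d) (nat_lit 0x5600020060091) (nat_lit 16) Lb.e (@T16.mk En
    (@En.n l7560 (nat_lit 2454) (nat_lit 8) (nat_lit 13))
    (@En.n l8820 (nat_lit 12284) (nat_lit 1) (nat_lit 14))
    (@En.n l810 (nat_lit 4686) (nat_lit 2) (nat_lit 7))
    (@En.n l725 (nat_lit 2449) (nat_lit 3) (nat_lit 4))
    (@En.n l1359 (nat_lit 6743) (nat_lit 4) (nat_lit 10))
    (@En.n l14561 (nat_lit 4855) (nat_lit 5) (nat_lit 6))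
    (@En.n l2682 (nat_lit 4614) (nat_lit 6) (nat_lit 6))
    (@En.n l5013 (nat_lit 2459) (nat_lit 8) (nat_lit 12))
    (@En.n l3 (nat_lit 2455) (nat_lit 8) (nat_lit 2))
    (@En.n l5977 (nat_lit 2459) (nat_lit 10) (nat_lit 9))
    (@En.n l725 (nat_lit 5583) (nat_lit 11) (nat_lit 14))
    (@En.n l7043 (nat_lit 5190) (nat_lit 12) (nat_lit 10))
    (@En.i (nat_lit 5206) (nat_lit 13) (nat_lit 10))
    (@En.n l8820 (nat_lit 2454) (nat_lit 4) (nat_lit 3))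
    (@En.n l14562 (nat_lit 4969) (nat_lit 0) (nat_lit 6))
    (@En.n l50 (nat_lit 2455) (nat_lit 15) (nat_lit 2))))
  (@Cl.mk (nat_lit 0x30003000b000b00090009000c00050005000a000400070007000d000d0006) (nat_lit 0x96711004000000) (nat_lit 16) Lb.e (@T16.mk En
    (@En.n l33584 (nat_lit 5194) (nat_lit 0) (nat_lit 6))
    (@En.n l1867 (nat_lit 2457) (nat_lit 3) (nat_lit 13))
    (@En.n l33585 (nat_lit 12424) (nat_lit 2) (nat_lit 13))
    (@En.n l33586 (nat_lit 2454) (nat_lit 9) (nat_lit 7))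
    (@En.n l13867 (nat_lit 4816) (nat_lit 11) (nat_lit 7))
    (@En.n l853 (nat_lit 2107) (nat_lit 5) (nat_lit 4))
    (@En.n l797 (nat_lit 6741) (nat_lit 0) (nat_lit 10))
    (@En.n l55 (nat_lit 2106) (nat_lit 11) (nat_lit 5))
    (@En.n l29837 (nat_lit 4606) (nat_lit 8) (nat_lit 5))
    (@En.n l664 (nat_lit 2403) (nat_lit 6) (nat_lit 12))
    (@En.n l665 (nat_lit 2403) (nat_lit 7) (nat_lit 9))
    (@En.n l33587 (nat_lit 4587) (nat_lit 12) (nat_lit 9))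
    (@En.n l33588 (nat_lit 2132) (nat_lit 5) (nat_lit 11))
    (@En.n l33589 (nat_lit 2893) (nat_lit 14) (nat_lit 11))
    (@En.n l33590 (nat_lit 2459) (nat_lit 13) (nat_lit 3))
    (@En.n l1865 (nat_lit 2457) (nat_lit 0) (nat_lit 3))))
  (@Cl.mk (nat_lit 0x2000b000b00090009000c00050005000b000400070007000d0005000e0003) (nat_lit 0x9670a004000b030) (nat_lit 16) Lb.e (@T16.mk En
    (@En.n l2869 (nat_lit 2456) (nat_lit 15) (nat_lit 3))
    (@En.n l1841 (nat_lit 12880) (nat_lit 0) (nat_lit 14))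
    (@En.i (nat_lit 1639) (nat_lit 2) (nat_lit 5))
    (@En.n l19187 (nat_lit 11893) (nat_lit 2) (nat_lit 13))
    (@En.n l12241 (nat_lit 2453) (nat_lit 4) (nat_lit 7))
    (@En.n l19188 (nat_lit 4818) (nat_lit 11) (nat_lit 7))
    (@En.i (nat_lit 2431) (nat_lit 6) (nat_lit 4))
    (@En.n l19189 (nat_lit 3457) (nat_lit 8) (nat_lit 11))
    (@En.n l12245 (nat_lit 2108) (nat_lit 11) (nat_lit 5))
    (@En.n l19190 (nat_lit 4605) (nat_lit 9) (nat_lit 5))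
    (@En.i (nat_lit 3454) (nat_lit 11) (nat_lit 12))
    (@En.n l143 (nat_lit 3454) (nat_lit 12) (nat_lit 9))
    (@En.n l12246 (nat_lit 7427) (nat_lit 13) (nat_lit 9))
    (@En.n l11162 (nat_lit 2135) (nat_lit 5) (nat_lit 11))
    (@En.n l12240 (nat_lit 5106) (nat_lit 14) (nat_lit 11))
    (@En.n l17 (nat_lit 2457) (nat_lit 15) (nat_lit 2))))
  (@Cl.mk (nat_lit 0x2000a000e00080002000b000e00060002000c00050008000d0004000e0003) (nat_lit 0x53102c00606b030) (nat_lit 16) Lb.e (@T16.mk En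
    (@En.n l117 (nat_lit 2452) (nat_lit 8) (nat_lit 3))
    (@En.n l2034 (nat_lit 12877) (nat_lit 0) (nat_lit 14))
    (@En.n l2576 (nat_lit 5203) (nat_lit 6) (nat_lit 4))
    (@En.n l2579 (nat_lit 12497) (nat_lit 8) (nat_lit 13))
    (@En.i (nat_lit 4797) (nat_lit 4) (nat_lit 8))
    (@En.n l4817 (nat_lit 2450) (nat_lit 14) (nat_lit 5))
    (@En.i (nat_lit 3463) (nat_lit 7) (nat_lit 12))
    (@En.n l17 (nat_lit 2458) (nat_lit 7) (nat_lit 2))
    (@En.n l2869 (nat_lit 2453) (nat_lit 8) (nat_lit 6))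
    (@En.n l2034 (nat_lit 2493) (nat_lit 4) (nat_lit 14))
    (@En.n l4172 (nat_lit 2135) (nat_lit 2) (nat_lit 11))
    (@En.n l7 (nat_lit 2458) (nat_lit 11) (nat_lit 2))
    (@En.i (nat_lit 2135) (nat_lit 4) (nat_lit 8))
    (@En.i (nat_lit 4697) (nat_lit 6) (nat_lit 14))
    (@En.n l2031 (nat_lit 6641) (nat_lit 2) (nat_lit 10))
    (@En.n l11 (nat_lit 2458) (nat_lit 15) (nat_lit 2))))
  (@Cl.mk (nat_lit 0x200070003000b000b00090009000c000500050009000400070007000e000d) (nat_lit 0x5671100300091) (nat_lit 16) Lb.e (@T16.mk En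
    (@En.n l17930 (nat_lit 2456) (nat_lit 2) (nat_lit 13))
    (@En.n l7055 (nat_lit 12285) (nat_lit 1) (nat_lit 14))
    (@En.n l14060 (nat_lit 2455) (nat_lit 2) (nat_lit 7))
    (@En.n l17931 (nat_lit 4815) (nat_lit 3) (nat_lit 7))
    (@En.n l4864 (nat_lit 2401) (nat_lit 4) (nat_lit 4))
    (@En.n l7055 (nat_lit 6749) (nat_lit 5) (nat_lit 9))
    (@En.n l5693 (nat_lit 4825) (nat_lit 6) (nat_lit 5))
    (@En.n l14061 (nat_lit 4608) (nat_lit 7) (nat_lit 5))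
    (@En.n l17932 (nat_lit 2399) (nat_lit 9) (nat_lit 12))
    (@En.n l17933 (nat_lit 2399) (nat_lit 10) (nat_lit 9))
    (@En.n l61 (nat_lit 7111) (nat_lit 11) (nat_lit 9))
    (@En.n l5701 (nat_lit 2136) (nat_lit 12) (nat_lit 11))
    (@En.n l14061 (nat_lit 5205) (nat_lit 13) (nat_lit 11))
    (@En.n l17934 (nat_lit 2456) (nat_lit 14) (nat_lit 3))
    (@En.n l2922 (nat_lit 4923) (nat_lit 0) (nat_lit 7))
    (@En.n l3 (nat_lit 2459) (nat_lit 15) (nat_lit 2))))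
  (@Cl.mk (nat_lit 0x40004000c000a000a000a000400090009000600060006000c000c00070007) (nat_lit 0x67120520002600) (nat_lit 16) Lb.e (@T16.mk En
    (@En.n l152 (nat_lit 2040) (nat_lit 9) (nat_lit 7))
    (@En.n l6215 (nat_lit 2505) (nat_lit 1) (nat_lit 7))
    (@En.n l55 (nat_lit 2052) (nat_lit 4) (nat_lit 12))
    (@En.n l6216 (nat_lit 10283) (nat_lit 10) (nat_lit 12))
    (@En.n l217 (nat_lit 2461) (nat_lit 10) (nat_lit 6))
    (@En.n l6217 (nat_lit 760) (nat_lit 10) (nat_lit 6))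
    (@En.n l6218 (nat_lit 8122) (nat_lit 6) (nat_lit 6))
    (@En.n l6219 (nat_lit 2475) (nat_lit 7) (nat_lit 9))
    (@En.n l6220 (nat_lit 2318) (nat_lit 11) (nat_lit 9))
    (@En.n l2114 (nat_lit 759) (nat_lit 9) (nat_lit 4))
    (@En.n l6221 (nat_lit 2438) (nat_lit 6) (nat_lit 10))
    (@En.n l6222 (nat_lit 2050) (nat_lit 6) (nat_lit 10))
    (@En.i (nat_lit 2164) (nat_lit 13) (nat_lit 10))
    (@En.n l5772 (nat_lit 1412) (nat_lit 3) (nat_lit 12))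
    (@En.n l6223 (nat_lit 2474) (nat_lit 12) (nat_lit 4))
    (@En.n l6224 (nat_lit 2502) (nat_lit 0) (nat_lit 4))))
  (@Cl.mk (nat_lit 0x20005000a000a00070006000c000c0006000600040004000b0009000e000a) (nat_lit 0x62002300006732) (nat_lit 16) Lb.e (@T16.mk En
    (@En.i (nat_lit 2460) (nat_lit 11) (nat_lit 10))
    (@En.n l396 (nat_lit 2462) (nat_lit 1) (nat_lit 14))
    (@En.i (nat_lit 2838) (nat_lit 2) (nat_lit 9))
    (@En.n l2871 (nat_lit 1410) (nat_lit 3) (nat_lit 11))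
    (@En.n l978 (nat_lit 2465) (nat_lit 4) (nat_lit 4))
    (@En.n l11 (nat_lit 2468) (nat_lit 5) (nat_lit 4))
    (@En.n l152 (nat_lit 1796) (nat_lit 6) (nat_lit 6))
    (@En.n l936 (nat_lit 2467) (nat_lit 7) (nat_lit 6))
    (@En.n l55 (nat_lit 2463) (nat_lit 9) (nat_lit 12))
    (@En.i (nat_lit 12729) (nat_lit 10) (nat_lit 12))
    (@En.n l644 (nat_lit 638) (nat_lit 10) (nat_lit 6))
    (@En.n l2872 (nat_lit 8131) (nat_lit 12) (nat_lit 7))
    (@En.n l2873 (nat_lit 2464) (nat_lit 6) (nat_lit 10))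
    (@En.n l2874 (nat_lit 6999) (nat_lit 14) (nat_lit 10))
    (@En.n l2875 (nat_lit 760) (nat_lit 13) (nat_lit 5))
    (@En.n l18 (nat_lit 2461) (nat_lit 15) (nat_lit 2))))
  (@Cl.mk (nat_lit 0x2000c0005000a000a00040007000c000c0006000600040004000b000e0009) (nat_lit 0x206400230000621) (nat_lit 16) Lb.e (@T16.mk En
    (@En.i (nat_lit 2437) (nat_lit 12) (nat_lit 9))
    (@En.i (nat_lit 3441) (nat_lit 4) (nat_lit 14))
    (@En.n l227 (nat_lit 421) (nat_lit 2) (nat_lit 11))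
    (@En.n l5759 (nat_lit 2165) (nat_lit 12) (nat_lit 4))
    (@En.n l5760 (nat_lit 2616) (nat_lit 4) (nat_lit 4))
    (@En.n l5761 (nat_lit 1793) (nat_lit 10) (nat_lit 6))
    (@En.n l936 (nat_lit 2620) (nat_lit 6) (nat_lit 6))
    (@En.n l55 (nat_lit 2532) (nat_lit 4) (nat_lit 12))
    (@En.i (nat_lit 12728) (nat_lit 9) (nat_lit 12))
    (@En.i (nat_lit 738) (nat_lit 11) (nat_lit 7))
    (@En.n l615 (nat_lit 6346) (nat_lit 10) (nat_lit 4))
    (@En.n l1867 (nat_lit 2482) (nat_lit 6) (nat_lit 10))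
    (@En.n l5760 (nat_lit 6786) (nat_lit 13) (nat_lit 10))
    (@En.n l699 (nat_lit 2461) (nat_lit 14) (nat_lit 5))
    (@En.n l6042 (nat_lit 2437) (nat_lit 10) (nat_lit 12))
    (@En.n l50 (nat_lit 2462) (nat_lit 15) (nat_lit 2))))
  (@Cl.mk (nat_lit 0x20005000b000b00070006000c00050005000e00040002000b0009000e000a) (nat_lit 0x62002002006741) (nat_lit 16) Lb.e (@T16.mk En
    (@En.i (nat_lit 2052) (nat_lit 12) (nat_lit 10))
    (@En.n l396 (nat_lit 2532) (nat_lit 13) (nat_lit 14))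
    (@En.i (nat_lit 2533) (nat_lit 14) (nat_lit 9))
    (@En.i (nat_lit 427) (nat_lit 3) (nat_lit 11))
    (@En.n l28 (nat_lit 2463) (nat_lit 4) (nat_lit 2))
    (@En.i (nat_lit 2461) (nat_lit 5) (nat_lit 4))
    (@En.n l8367 (nat_lit 2144) (nat_lit 7) (nat_lit 14))
    (@En.n l152 (nat_lit 1792) (nat_lit 7) (nat_lit 5))
    (@En.i (nat_lit 1772) (nat_lit 8) (nat_lit 5))
    (@En.i (nat_lit 12659) (nat_lit 10) (nat_lit 12))
    (@En.n l644 (nat_lit 740) (nat_lit 5) (nat_lit 6))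
    (@En.n l8368 (nat_lit 8200) (nat_lit 12) (nat_lit 7))
    (@En.n l2873 (nat_lit 2530) (nat_lit 13) (nat_lit 11))
    (@En.n l2874 (nat_lit 6889) (nat_lit 9) (nat_lit 11))
    (@En.n l640 (nat_lit 2516) (nat_lit 13) (nat_lit 5))
    (@En.n l18 (nat_lit 2463) (nat_lit 15) (nat_lit 2))))
noncomputable def a154 : T16 Cl := @T16.mk Cl
  (@Cl.mk (nat_lit 0x200050005000b000a000e000b00020005000a00060005000b000b000e0006) (nat_lit 0x9832001001300) (nat_lit 16) Lb.e (@T16.mk En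
    (@En.n l892 (nat_lit 2461) (nat_lit 7) (nat_lit 6))
    (@En.n l476 (nat_lit 2530) (nat_lit 9) (nat_lit 14))
    (@En.n l152 (nat_lit 2530) (nat_lit 10) (nat_lit 11))
    (@En.i (nat_lit 12) (nat_lit 3) (nat_lit 11))
    (@En.n l893 (nat_lit 741) (nat_lit 4) (nat_lit 5))
    (@En.n l894 (nat_lit 2629) (nat_lit 5) (nat_lit 6))
    (@En.n l893 (nat_lit 1022) (nat_lit 14) (nat_lit 10))
    (@En.n l895 (nat_lit 2479) (nat_lit 7) (nat_lit 5))
    (@En.n l11 (nat_lit 2464) (nat_lit 8) (nat_lit 2))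
    (@En.n l896 (nat_lit 2475) (nat_lit 10) (nat_lit 11))
    (@En.n l7 (nat_lit 2482) (nat_lit 11) (nat_lit 14))
    (@En.n l644 (nat_lit 2179) (nat_lit 12) (nat_lit 10))
    (@En.n l897 (nat_lit 1662) (nat_lit 13) (nat_lit 11))
    (@En.n l898 (nat_lit 2478) (nat_lit 4) (nat_lit 5))
    (@En.n l899 (nat_lit 882) (nat_lit 5) (nat_lit 5))
    (@En.n l17 (nat_lit 2464) (nat_lit 15) (nat_lit 2))))
  (@Cl.mk (nat_lit 0x200050009000900070006000e000c0002000700070004000b0009000e000a) (nat_lit 0x62003300006712) (nat_lit 16) Lb.e (@T16.mk En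
    (@En.n l1045 (nat_lit 2474) (nat_lit 9) (nat_lit 10))
    (@En.n l627 (nat_lit 2165) (nat_lit 10) (nat_lit 14))
    (@En.n l1046 (nat_lit 2163) (nat_lit 11) (nat_lit 9))
    (@En.n l1047 (nat_lit 1682) (nat_lit 3) (nat_lit 11))
    (@En.n l629 (nat_lit 2466) (nat_lit 4) (nat_lit 4))
    (@En.n l1048 (nat_lit 2154) (nat_lit 5) (nat_lit 7))
    (@En.n l1049 (nat_lit 2469) (nat_lit 6) (nat_lit 7))
    (@En.n l7 (nat_lit 2465) (nat_lit 7) (nat_lit 2))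
    (@En.n l1050 (nat_lit 2461) (nat_lit 9) (nat_lit 12))
    (@En.n l1051 (nat_lit 12546) (nat_lit 10) (nat_lit 14))
    (@En.i (nat_lit 630) (nat_lit 2) (nat_lit 6))
    (@En.n l1052 (nat_lit 8130) (nat_lit 12) (nat_lit 7))
    (@En.n l819 (nat_lit 2478) (nat_lit 13) (nat_lit 9))
    (@En.n l1053 (nat_lit 6998) (nat_lit 5) (nat_lit 9))
    (@En.n l633 (nat_lit 753) (nat_lit 6) (nat_lit 5))
    (@En.n l67 (nat_lit 2465) (nat_lit 15) (nat_lit 2))))
  (@Cl.mk (nat_lit 0x200050008000b00070006000d000c0005000300080004000b0009000e000a) (nat_lit 0x1003400406702) (nat_lit 16) Lb.e (@T16.mk En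
    (@En.n l3441 (nat_lit 2504) (nat_lit 10) (nat_lit 10))
    (@En.n l1572 (nat_lit 2618) (nat_lit 1) (nat_lit 14))
    (@En.n l3442 (nat_lit 2849) (nat_lit 2) (nat_lit 9))
    (@En.n l3443 (nat_lit 2467) (nat_lit 3) (nat_lit 11))
    (@En.n l3444 (nat_lit 2461) (nat_lit 4) (nat_lit 4))
    (@En.n l612 (nat_lit 2470) (nat_lit 5) (nat_lit 8))
    (@En.n l50 (nat_lit 2472) (nat_lit 6) (nat_lit 3))
    (@En.n l2690 (nat_lit 1511) (nat_lit 7) (nat_lit 5))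
    (@En.n l3445 (nat_lit 2468) (nat_lit 9) (nat_lit 12))
    (@En.n l2055 (nat_lit 11907) (nat_lit 10) (nat_lit 13))
    (@En.i (nat_lit 648) (nat_lit 10) (nat_lit 6))
    (@En.n l3446 (nat_lit 8132) (nat_lit 12) (nat_lit 7))
    (@En.n l3443 (nat_lit 770) (nat_lit 13) (nat_lit 11))
    (@En.n l3447 (nat_lit 7002) (nat_lit 14) (nat_lit 8))
    (@En.n l159 (nat_lit 2511) (nat_lit 13) (nat_lit 5))
    (@En.n l11 (nat_lit 2466) (nat_lit 15) (nat_lit 2))))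
  (@Cl.mk (nat_lit 0x20005000a0008000b00080007000d0006000500030008000b0008000e0009) (nat_lit 0x71330400045600) (nat_lit 16) Lb.e (@T16.mk En
    (@En.n l8368 (nat_lit 2505) (nat_lit 11) (nat_lit 9))
    (@En.n l396 (nat_lit 2620) (nat_lit 1) (nat_lit 14))
    (@En.i (nat_lit 2839) (nat_lit 2) (nat_lit 8))
    (@En.n l8404 (nat_lit 1287) (nat_lit 3) (nat_lit 11))
    (@En.n l8405 (nat_lit 2473) (nat_lit 4) (nat_lit 8))
    (@En.n l8406 (nat_lit 2471) (nat_lit 5) (nat_lit 3))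
    (@En.n l731 (nat_lit 1522) (nat_lit 6) (nat_lit 5))
    (@En.n l8407 (nat_lit 1671) (nat_lit 7) (nat_lit 6))
    (@En.i (nat_lit 12731) (nat_lit 9) (nat_lit 13))
    (@En.n l644 (nat_lit 726) (nat_lit 9) (nat_lit 7))
    (@En.n l8367 (nat_lit 8133) (nat_lit 11) (nat_lit 8))
    (@En.i (nat_lit 2463) (nat_lit 12) (nat_lit 11))
    (@En.n l8408 (nat_lit 2466) (nat_lit 13) (nat_lit 8))
    (@En.n l8409 (nat_lit 6486) (nat_lit 14) (nat_lit 10))
    (@En.n l8410 (nat_lit 2509) (nat_lit 13) (nat_lit 5))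
    (@En.n l18 (nat_lit 2467) (nat_lit 15) (nat_lit 2))))
  (@Cl.mk (nat_lit 0x200050009000c00070006000c0004000d000700040003000b0009000e000a) (nat_lit 0x63003040006702) (nat_lit 16) Lb.e (@T16.mk En
    (@En.n l8394 (nat_lit 2502) (nat_lit 12) (nat_lit 10))
    (@En.n l8395 (nat_lit 2616) (nat_lit 1) (nat_lit 14))
    (@En.n l8396 (nat_lit 2851) (nat_lit 2) (nat_lit 9))
    (@En.n l8397 (nat_lit 1294) (nat_lit 3) (nat_lit 11))
    (@En.n l8398 (nat_lit 2472) (nat_lit 4) (nat_lit 3))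
    (@En.i (nat_lit 2463) (nat_lit 5) (nat_lit 4))
    (@En.n l8399 (nat_lit 2471) (nat_lit 6) (nat_lit 7))
    (@En.n l8015 (nat_lit 2145) (nat_lit 8) (nat_lit 13))
    (@En.n l8400 (nat_lit 2469) (nat_lit 8) (nat_lit 4))
    (@En.i (nat_lit 12764) (nat_lit 10) (nat_lit 12))
    (@En.n l3437 (nat_lit 647) (nat_lit 10) (nat_lit 6))
    (@En.n l8401 (nat_lit 8134) (nat_lit 12) (nat_lit 7))
    (@En.n l8402 (nat_lit 2265) (nat_lit 6) (nat_lit 12))
    (@En.n l8403 (nat_lit 7000) (nat_lit 14) (nat_lit 9))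
    (@En.n l3440 (nat_lit 2513) (nat_lit 13) (nat_lit 5))
    (@En.n l18 (nat_lit 2468) (nat_lit 15) (nat_lit 2))))
  (@Cl.mk (nat_lit 0x200050009000c000a000800070004000d000700060003000b0008000e0009) (nat_lit 0x67300050005600) (nat_lit 16) Lb.e (@T16.mk En
    (@En.n l3452 (nat_lit 2508) (nat_lit 12) (nat_lit 9))
    (@En.n l3453 (nat_lit 2622) (nat_lit 1) (nat_lit 14))
    (@En.n l3454 (nat_lit 2843) (nat_lit 2) (nat_lit 8))
    (@En.n l3455 (nat_lit 495) (nat_lit 3) (nat_lit 11))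
    (@En.n l3456 (nat_lit 2470) (nat_lit 4) (nat_lit 3))
    (@En.n l3457 (nat_lit 1788) (nat_lit 5) (nat_lit 6))
    (@En.n l3458 (nat_lit 2473) (nat_lit 6) (nat_lit 7))
    (@En.n l3459 (nat_lit 2467) (nat_lit 8) (nat_lit 13))
    (@En.n l3460 (nat_lit 6417) (nat_lit 8) (nat_lit 4))
    (@En.n l3461 (nat_lit 732) (nat_lit 9) (nat_lit 7))
    (@En.n l3454 (nat_lit 8257) (nat_lit 11) (nat_lit 8))
    (@En.n l3462 (nat_lit 2461) (nat_lit 12) (nat_lit 10))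
    (@En.n l3463 (nat_lit 2340) (nat_lit 13) (nat_lit 12))
    (@En.n l3464 (nat_lit 6489) (nat_lit 14) (nat_lit 9))
    (@En.n l3465 (nat_lit 1749) (nat_lit 13) (nat_lit 5))
    (@En.n l18 (nat_lit 2469) (nat_lit 15) (nat_lit 2))))
  (@Cl.mk (nat_lit 0x200050008000c000b000800070004000d000500080003000b0008000e0009) (nat_lit 0x7200050305600) (nat_lit 16) Lb.e (@T16.mk En
    (@En.n l3441 (nat_lit 2506) (nat_lit 12) (nat_lit 9))
    (@En.n l1572 (nat_lit 2619) (nat_lit 1) (nat_lit 14))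
    (@En.n l3442 (nat_lit 2845) (nat_lit 2) (nat_lit 8))
    (@En.n l9746 (nat_lit 2473) (nat_lit 3) (nat_lit 11))
    (@En.n l6945 (nat_lit 2469) (nat_lit 4) (nat_lit 3))
    (@En.n l9747 (nat_lit 4990) (nat_lit 5) (nat_lit 8))
    (@En.n l9748 (nat_lit 1476) (nat_lit 6) (nat_lit 5))
    (@En.n l564 (nat_lit 2471) (nat_lit 8) (nat_lit 13))
    (@En.n l6511 (nat_lit 6416) (nat_lit 8) (nat_lit 4))
    (@En.i (nat_lit 645) (nat_lit 9) (nat_lit 7))
    (@En.n l4729 (nat_lit 8256) (nat_lit 11) (nat_lit 8))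
    (@En.n l644 (nat_lit 2466) (nat_lit 12) (nat_lit 11))
    (@En.n l9749 (nat_lit 2338) (nat_lit 13) (nat_lit 12))
    (@En.n l3447 (nat_lit 7005) (nat_lit 14) (nat_lit 8))
    (@En.n l159 (nat_lit 1757) (nat_lit 13) (nat_lit 5))
    (@En.n l11 (nat_lit 2470) (nat_lit 15) (nat_lit 2))))
  (@Cl.mk (nat_lit 0x2000500090008000c00080007000d0004000700030008000b0008000e0009) (nat_lit 0x604604000456c2) (nat_lit 16) Lb.e (@T16.mk En
    (@En.n l3441 (nat_lit 2503) (nat_lit 11) (nat_lit 9))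
    (@En.n l1572 (nat_lit 2617) (nat_lit 1) (nat_lit 14))
    (@En.n l3442 (nat_lit 2847) (nat_lit 2) (nat_lit 8))
    (@En.n l14850 (nat_lit 1291) (nat_lit 3) (nat_lit 11))
    (@En.n l14851 (nat_lit 4997) (nat_lit 4) (nat_lit 8))
    (@En.n l3443 (nat_lit 2467) (nat_lit 5) (nat_lit 3))
    (@En.n l14852 (nat_lit 1703) (nat_lit 6) (nat_lit 7))
    (@En.n l9746 (nat_lit 2473) (nat_lit 7) (nat_lit 4))
    (@En.n l14853 (nat_lit 11909) (nat_lit 9) (nat_lit 13))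
    (@En.i (nat_lit 646) (nat_lit 9) (nat_lit 7))
    (@En.n l14854 (nat_lit 8136) (nat_lit 11) (nat_lit 8))
    (@En.n l3443 (nat_lit 2468) (nat_lit 12) (nat_lit 12))
    (@En.n l17 (nat_lit 2472) (nat_lit 13) (nat_lit 8))
    (@En.i (nat_lit 6484) (nat_lit 14) (nat_lit 9))
    (@En.n l159 (nat_lit 2510) (nat_lit 13) (nat_lit 5))
    (@En.n l11 (nat_lit 2471) (nat_lit 15) (nat_lit 2))))
  (@Cl.mk (nat_lit 0x200050008000c00070006000d0004000d000300080003000b0009000e000a) (nat_lit 0x66003040406701) (nat_lit 16) Lb.e (@T16.mk En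
    (@En.n l3441 (nat_lit 2228) (nat_lit 10) (nat_lit 10))
    (@En.n l1572 (nat_lit 2615) (nat_lit 1) (nat_lit 14))
    (@En.n l3442 (nat_lit 4448) (nat_lit 2) (nat_lit 9))
    (@En.i (nat_lit 2471) (nat_lit 3) (nat_lit 11))
    (@En.n l3444 (nat_lit 2468) (nat_lit 4) (nat_lit 3))
    (@En.n l4750 (nat_lit 4996) (nat_lit 5) (nat_lit 8))
    (@En.i (nat_lit 2466) (nat_lit 6) (nat_lit 3))
    (@En.n l615 (nat_lit 2195) (nat_lit 8) (nat_lit 13))
    (@En.i (nat_lit 2470) (nat_lit 8) (nat_lit 4))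
    (@En.n l2055 (nat_lit 11905) (nat_lit 10) (nat_lit 13))
    (@En.i (nat_lit 642) (nat_lit 10) (nat_lit 6))
    (@En.n l2056 (nat_lit 8135) (nat_lit 12) (nat_lit 7))
    (@En.n l617 (nat_lit 2231) (nat_lit 13) (nat_lit 12))
    (@En.n l3447 (nat_lit 7001) (nat_lit 14) (nat_lit 8))
    (@En.n l159 (nat_lit 2512) (nat_lit 13) (nat_lit 5))
    (@En.n l11 (nat_lit 2472) (nat_lit 15) (nat_lit 2))))
  (@Cl.mk (nat_lit 0x2000500090008000c000b000900080004000700050008000b0007000e0008) (nat_lit 0x71840100034000) (nat_lit 16) Lb.e (@T16.mk En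
    (@En.n l6981 (nat_lit 2507) (nat_lit 1) (nat_lit 8))
    (@En.n l9760 (nat_lit 2621) (nat_lit 1) (nat_lit 14))
    (@En.n l1643 (nat_lit 2841) (nat_lit 2) (nat_lit 7))
    (@En.n l2037 (nat_lit 497) (nat_lit 3) (nat_lit 11))
    (@En.n l5732 (nat_lit 4981) (nat_lit 4) (nat_lit 8))
    (@En.i (nat_lit 1468) (nat_lit 5) (nat_lit 5))
    (@En.n l6981 (nat_lit 1668) (nat_lit 6) (nat_lit 7))
    (@En.n l9761 (nat_lit 8144) (nat_lit 7) (nat_lit 4))
    (@En.n l9762 (nat_lit 729) (nat_lit 8) (nat_lit 8))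
    (@En.n l134 (nat_lit 8258) (nat_lit 10) (nat_lit 9))
    (@En.n l9763 (nat_lit 2467) (nat_lit 11) (nat_lit 11))
    (@En.n l9764 (nat_lit 2469) (nat_lit 12) (nat_lit 12))
    (@En.n l9765 (nat_lit 2470) (nat_lit 13) (nat_lit 8))
    (@En.n l9766 (nat_lit 6487) (nat_lit 14) (nat_lit 9))
    (@En.n l9767 (nat_lit 1756) (nat_lit 13) (nat_lit 5))
    (@En.n l17 (nat_lit 2473) (nat_lit 15) (nat_lit 2))))
  (@Cl.mk (nat_lit 0x2000800080004000c000a000a000a000400080008000600060006000e000c) (nat_lit 0x340871005200043) (nat_lit 16) Lb.e (@T16.mk En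
    (@En.n l2706 (nat_lit 2460) (nat_lit 3) (nat_lit 12))
    (@En.n l2707 (nat_lit 12386) (nat_lit 1) (nat_lit 14))
    (@En.n l2708 (nat_lit 2465) (nat_lit 10) (nat_lit 6))
    (@En.n l2709 (nat_lit 753) (nat_lit 3) (nat_lit 6))
    (@En.i (nat_lit 8128) (nat_lit 4) (nat_lit 6))
    (@En.n l2710 (nat_lit 2476) (nat_lit 8) (nat_lit 8))
    (@En.n l2711 (nat_lit 2313) (nat_lit 6) (nat_lit 8))
    (@En.i (nat_lit 755) (nat_lit 7) (nat_lit 4))
    (@En.n l2712 (nat_lit 2545) (nat_lit 9) (nat_lit 10))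
    (@En.n l2713 (nat_lit 2057) (nat_lit 6) (nat_lit 10))
    (@En.n l2714 (nat_lit 2160) (nat_lit 11) (nat_lit 10))
    (@En.n l2715 (nat_lit 1683) (nat_lit 12) (nat_lit 12))
    (@En.n l2716 (nat_lit 2504) (nat_lit 13) (nat_lit 4))
    (@En.n l2717 (nat_lit 2152) (nat_lit 8) (nat_lit 8))
    (@En.n l2718 (nat_lit 2508) (nat_lit 1) (nat_lit 8))
    (@En.n l7 (nat_lit 2474) (nat_lit 15) (nat_lit 2))))
  (@Cl.mk (nat_lit 0x200050005000c000b000b000b00040009000500050005000b000b000e0007) (nat_lit 0x8810010004400) (nat_lit 16) Lb.e (@T16.mk En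
    (@En.n l2150 (nat_lit 2460) (nat_lit 1) (nat_lit 7))
    (@En.n l18 (nat_lit 2490) (nat_lit 4) (nat_lit 14))
    (@En.n l61 (nat_lit 2490) (nat_lit 5) (nat_lit 11))
    (@En.n l2151 (nat_lit 12119) (nat_lit 3) (nat_lit 11))
    (@En.n l2152 (nat_lit 2464) (nat_lit 4) (nat_lit 5))
    (@En.n l2153 (nat_lit 2479) (nat_lit 5) (nat_lit 5))
    (@En.n l2154 (nat_lit 2497) (nat_lit 6) (nat_lit 5))
    (@En.i (nat_lit 293) (nat_lit 8) (nat_lit 9))
    (@En.n l2155 (nat_lit 2060) (nat_lit 8) (nat_lit 4))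
    (@En.n l2156 (nat_lit 2488) (nat_lit 10) (nat_lit 11))
    (@En.n l2157 (nat_lit 2063) (nat_lit 11) (nat_lit 11))
    (@En.n l2158 (nat_lit 2171) (nat_lit 12) (nat_lit 11))
    (@En.n l2159 (nat_lit 1418) (nat_lit 13) (nat_lit 12))
    (@En.n l2160 (nat_lit 2476) (nat_lit 14) (nat_lit 5))
    (@En.n l655 (nat_lit 885) (nat_lit 13) (nat_lit 5))
    (@En.n l7 (nat_lit 2475) (nat_lit 15) (nat_lit 2))))
  (@Cl.mk (nat_lit 0x20005000c000b000b000b00040008000500050005000e000b0002000e0008) (nat_lit 0x981001000c5014) (nat_lit 16) Lb.e (@T16.mk En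
    (@En.n l833 (nat_lit 2474) (nat_lit 14) (nat_lit 8))
    (@En.n l834 (nat_lit 2475) (nat_lit 1) (nat_lit 14))
    (@En.n l18 (nat_lit 2476) (nat_lit 2) (nat_lit 2))
    (@En.n l835 (nat_lit 2475) (nat_lit 3) (nat_lit 11))
    (@En.n l836 (nat_lit 12379) (nat_lit 5) (nat_lit 14))
    (@En.n l237 (nat_lit 2478) (nat_lit 11) (nat_lit 5))
    (@En.n l575 (nat_lit 2477) (nat_lit 6) (nat_lit 5))
    (@En.i (nat_lit 2557) (nat_lit 7) (nat_lit 5))
    (@En.n l837 (nat_lit 1085) (nat_lit 5) (nat_lit 8))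
    (@En.n l55 (nat_lit 2061) (nat_lit 9) (nat_lit 4))
    (@En.n l134 (nat_lit 2480) (nat_lit 11) (nat_lit 11))
    (@En.n l577 (nat_lit 2064) (nat_lit 12) (nat_lit 11))
    (@En.n l578 (nat_lit 2484) (nat_lit 13) (nat_lit 11))
    (@En.i (nat_lit 1534) (nat_lit 14) (nat_lit 12))
    (@En.i (nat_lit 2147) (nat_lit 13) (nat_lit 5))
    (@En.n l3 (nat_lit 2476) (nat_lit 15) (nat_lit 2))))
  (@Cl.mk (nat_lit 0x20005000b000e000b0002000c0005000900050004000e000b0002000e0007) (nat_lit 0x7c9020700c40c0) (nat_lit 16) Lb.e (@T16.mk En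
    (@En.n l993 (nat_lit 753) (nat_lit 14) (nat_lit 7))
    (@En.n l994 (nat_lit 2479) (nat_lit 1) (nat_lit 14))
    (@En.n l18 (nat_lit 2477) (nat_lit 2) (nat_lit 2))
    (@En.n l995 (nat_lit 2479) (nat_lit 3) (nat_lit 11))
    (@En.n l37 (nat_lit 12378) (nat_lit 5) (nat_lit 14))
    (@En.n l996 (nat_lit 749) (nat_lit 5) (nat_lit 4))
    (@En.i (nat_lit 3361) (nat_lit 6) (nat_lit 5))
    (@En.n l837 (nat_lit 1120) (nat_lit 4) (nat_lit 9))
    (@En.i (nat_lit 758) (nat_lit 14) (nat_lit 5))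
    (@En.n l127 (nat_lit 2061) (nat_lit 10) (nat_lit 12))
    (@En.n l11 (nat_lit 2477) (nat_lit 10) (nat_lit 2))
    (@En.i (nat_lit 2476) (nat_lit 12) (nat_lit 11))
    (@En.n l128 (nat_lit 4142) (nat_lit 13) (nat_lit 14))
    (@En.n l996 (nat_lit 1928) (nat_lit 2) (nat_lit 11))
    (@En.n l580 (nat_lit 2141) (nat_lit 13) (nat_lit 5))
    (@En.n l3 (nat_lit 2477) (nat_lit 15) (nat_lit 2))))
  (@Cl.mk (nat_lit 0x20005000900060005000e000b0002000e000700020005000b000a000e000b) (nat_lit 0x100c2010008842) (nat_lit 16) Lb.e (@T16.mk En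
    (@En.n l77 (nat_lit 2476) (nat_lit 11) (nat_lit 11))
    (@En.n l289 (nat_lit 2483) (nat_lit 12) (nat_lit 14))
    (@En.n l186 (nat_lit 2485) (nat_lit 13) (nat_lit 10))
    (@En.n l290 (nat_lit 1679) (nat_lit 3) (nat_lit 11))
    (@En.n l291 (nat_lit 2149) (nat_lit 4) (nat_lit 5))
    (@En.n l3 (nat_lit 2478) (nat_lit 5) (nat_lit 2))
    (@En.n l292 (nat_lit 2465) (nat_lit 6) (nat_lit 7))
    (@En.n l293 (nat_lit 2464) (nat_lit 1) (nat_lit 14))
    (@En.n l18 (nat_lit 2478) (nat_lit 8) (nat_lit 2))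
    (@En.n l294 (nat_lit 2464) (nat_lit 3) (nat_lit 11))
    (@En.n l295 (nat_lit 11656) (nat_lit 11) (nat_lit 14))
    (@En.n l296 (nat_lit 747) (nat_lit 5) (nat_lit 5))
    (@En.i (nat_lit 2630) (nat_lit 6) (nat_lit 6))
    (@En.n l296 (nat_lit 1023) (nat_lit 14) (nat_lit 9))
    (@En.n l115 (nat_lit 2477) (nat_lit 8) (nat_lit 5))
    (@En.n l28 (nat_lit 2478) (nat_lit 15) (nat_lit 2))))
  (@Cl.mk (nat_lit 0x200050005000b000e000b0002000c0005000a00050004000b000b000e0006) (nat_lit 0x8c902010033b0) (nat_lit 16) Lb.e (@T16.mk En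
    (@En.n l663 (nat_lit 760) (nat_lit 6) (nat_lit 6))
    (@En.n l2884 (nat_lit 2519) (nat_lit 4) (nat_lit 14))
    (@En.n l2885 (nat_lit 2519) (nat_lit 5) (nat_lit 11))
    (@En.n l2886 (nat_lit 12746) (nat_lit 3) (nat_lit 11))
    (@En.i (nat_lit 746) (nat_lit 4) (nat_lit 4))
    (@En.n l2887 (nat_lit 2806) (nat_lit 5) (nat_lit 5))
    (@En.n l2888 (nat_lit 297) (nat_lit 13) (nat_lit 10))
    (@En.n l2889 (nat_lit 2066) (nat_lit 7) (nat_lit 5))
    (@En.n l2890 (nat_lit 2060) (nat_lit 9) (nat_lit 12))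
    (@En.n l107 (nat_lit 2479) (nat_lit 9) (nat_lit 2))
    (@En.n l2888 (nat_lit 2475) (nat_lit 11) (nat_lit 11))
    (@En.n l619 (nat_lit 4141) (nat_lit 12) (nat_lit 14))
    (@En.n l671 (nat_lit 1466) (nat_lit 13) (nat_lit 11))
    (@En.n l2891 (nat_lit 2477) (nat_lit 14) (nat_lit 5))
    (@En.n l2892 (nat_lit 881) (nat_lit 13) (nat_lit 5))
    (@En.n l403 (nat_lit 2479) (nat_lit 15) (nat_lit 2))))
noncomputable def a155 : T16 Cl := @T16.mk Cl
  (@Cl.mk (nat_lit 0x20005000d000c000b000300070004000e00050002000e000b0002000e0009) (nat_lit 0x98900050046004) (nat_lit 16) Lb.e (@T16.mk En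
    (@En.n l1167 (nat_lit 2545) (nat_lit 14) (nat_lit 9))
    (@En.n l1168 (nat_lit 2488) (nat_lit 1) (nat_lit 14))
    (@En.n l18 (nat_lit 2480) (nat_lit 2) (nat_lit 2))
    (@En.n l1169 (nat_lit 2488) (nat_lit 3) (nat_lit 11))
    (@En.n l427 (nat_lit 12308) (nat_lit 1) (nat_lit 14))
    (@En.n l7 (nat_lit 2480) (nat_lit 5) (nat_lit 2))
    (@En.n l28 (nat_lit 2476) (nat_lit 6) (nat_lit 5))
    (@En.n l1170 (nat_lit 2058) (nat_lit 8) (nat_lit 14))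
    (@En.i (nat_lit 2866) (nat_lit 8) (nat_lit 4))
    (@En.n l1171 (nat_lit 1110) (nat_lit 6) (nat_lit 7))
    (@En.n l575 (nat_lit 2486) (nat_lit 10) (nat_lit 3))
    (@En.n l575 (nat_lit 2500) (nat_lit 12) (nat_lit 11))
    (@En.n l1172 (nat_lit 2487) (nat_lit 13) (nat_lit 12))
    (@En.n l1173 (nat_lit 2026) (nat_lit 14) (nat_lit 13))
    (@En.n l1174 (nat_lit 2383) (nat_lit 13) (nat_lit 5))
    (@En.n l3 (nat_lit 2480) (nat_lit 15) (nat_lit 2))))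
  (@Cl.mk (nat_lit 0x20005000c000a000a000d00040008000300060006000e000b0002000e0008) (nat_lit 0x700503000c4084) (nat_lit 16) Lb.e (@T16.mk En
    (@En.i (nat_lit 2162) (nat_lit 14) (nat_lit 8))
    (@En.n l1158 (nat_lit 2178) (nat_lit 1) (nat_lit 14))
    (@En.n l18 (nat_lit 2481) (nat_lit 2) (nat_lit 2))
    (@En.n l1159 (nat_lit 2178) (nat_lit 3) (nat_lit 11))
    (@En.n l420 (nat_lit 12310) (nat_lit 5) (nat_lit 14))
    (@En.n l1160 (nat_lit 2483) (nat_lit 5) (nat_lit 6))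
    (@En.n l422 (nat_lit 2478) (nat_lit 12) (nat_lit 6))
    (@En.n l11 (nat_lit 2484) (nat_lit 7) (nat_lit 3))
    (@En.n l1026 (nat_lit 1249) (nat_lit 0) (nat_lit 8))
    (@En.n l424 (nat_lit 2476) (nat_lit 9) (nat_lit 4))
    (@En.n l8 (nat_lit 2486) (nat_lit 11) (nat_lit 13))
    (@En.n l77 (nat_lit 2486) (nat_lit 12) (nat_lit 10))
    (@En.i (nat_lit 3365) (nat_lit 13) (nat_lit 10))
    (@En.n l1161 (nat_lit 1677) (nat_lit 14) (nat_lit 12))
    (@En.i (nat_lit 2419) (nat_lit 13) (nat_lit 5))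
    (@En.n l3 (nat_lit 2481) (nat_lit 15) (nat_lit 2))))
  (@Cl.mk (nat_lit 0x200050005000b000e000a0002000d0005000a00030006000b000b000e0006) (nat_lit 0x8210803002260) (nat_lit 16) Lb.e (@T16.mk En
    (@En.n l2869 (nat_lit 2462) (nat_lit 6) (nat_lit 6))
    (@En.n l476 (nat_lit 2531) (nat_lit 4) (nat_lit 14))
    (@En.n l152 (nat_lit 2531) (nat_lit 5) (nat_lit 11))
    (@En.i (nat_lit 12658) (nat_lit 3) (nat_lit 11))
    (@En.n l476 (nat_lit 745) (nat_lit 4) (nat_lit 6))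
    (@En.i (nat_lit 2179) (nat_lit 5) (nat_lit 3))
    (@En.n l1998 (nat_lit 1250) (nat_lit 0) (nat_lit 10))
    (@En.i (nat_lit 2464) (nat_lit 7) (nat_lit 5))
    (@En.i (nat_lit 2178) (nat_lit 9) (nat_lit 13))
    (@En.n l11 (nat_lit 2482) (nat_lit 9) (nat_lit 2))
    (@En.n l1578 (nat_lit 2178) (nat_lit 11) (nat_lit 10))
    (@En.i (nat_lit 3378) (nat_lit 12) (nat_lit 14))
    (@En.n l897 (nat_lit 1665) (nat_lit 13) (nat_lit 11))
    (@En.n l2870 (nat_lit 2483) (nat_lit 14) (nat_lit 5))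
    (@En.n l899 (nat_lit 884) (nat_lit 13) (nat_lit 5))
    (@En.n l17 (nat_lit 2482) (nat_lit 15) (nat_lit 2))))
  (@Cl.mk (nat_lit 0x20005000b000e000a0002000d0005000900030006000e000b0002000e0007) (nat_lit 0x731060400c3070) (nat_lit 16) Lb.e (@T16.mk En
    (@En.n l1002 (nat_lit 2165) (nat_lit 14) (nat_lit 7))
    (@En.n l1003 (nat_lit 2482) (nat_lit 1) (nat_lit 14))
    (@En.n l3 (nat_lit 2483) (nat_lit 2) (nat_lit 2))
    (@En.n l1004 (nat_lit 2482) (nat_lit 3) (nat_lit 11))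
    (@En.i (nat_lit 11655) (nat_lit 5) (nat_lit 14))
    (@En.n l1005 (nat_lit 748) (nat_lit 5) (nat_lit 6))
    (@En.n l1006 (nat_lit 2485) (nat_lit 6) (nat_lit 3))
    (@En.n l1007 (nat_lit 1255) (nat_lit 0) (nat_lit 9))
    (@En.n l1008 (nat_lit 2478) (nat_lit 14) (nat_lit 5))
    (@En.n l1009 (nat_lit 2481) (nat_lit 10) (nat_lit 13))
    (@En.n l28 (nat_lit 2483) (nat_lit 10) (nat_lit 2))
    (@En.n l1010 (nat_lit 2481) (nat_lit 12) (nat_lit 10))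
    (@En.i (nat_lit 3445) (nat_lit 13) (nat_lit 14))
    (@En.n l862 (nat_lit 1678) (nat_lit 14) (nat_lit 11))
    (@En.n l1011 (nat_lit 2425) (nat_lit 13) (nat_lit 5))
    (@En.n l725 (nat_lit 2483) (nat_lit 15) (nat_lit 2))))
  (@Cl.mk (nat_lit 0x20005000b000a000a000d00070005000300060006000e000b0002000e0009) (nat_lit 0x70060000041067) (nat_lit 16) Lb.e (@T16.mk En
    (@En.i (nat_lit 2160) (nat_lit 14) (nat_lit 9))
    (@En.i (nat_lit 2171) (nat_lit 1) (nat_lit 14))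
    (@En.n l18 (nat_lit 2484) (nat_lit 2) (nat_lit 2))
    (@En.n l5 (nat_lit 2171) (nat_lit 3) (nat_lit 11))
    (@En.n l420 (nat_lit 12304) (nat_lit 5) (nat_lit 14))
    (@En.n l343 (nat_lit 2485) (nat_lit 5) (nat_lit 6))
    (@En.n l1462 (nat_lit 3023) (nat_lit 6) (nat_lit 6))
    (@En.i (nat_lit 2481) (nat_lit 7) (nat_lit 3))
    (@En.n l424 (nat_lit 2633) (nat_lit 0) (nat_lit 5))
    (@En.n l117 (nat_lit 6774) (nat_lit 6) (nat_lit 7))
    (@En.n l8 (nat_lit 2487) (nat_lit 11) (nat_lit 13))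
    (@En.n l77 (nat_lit 2487) (nat_lit 12) (nat_lit 10))
    (@En.i (nat_lit 3364) (nat_lit 13) (nat_lit 10))
    (@En.i (nat_lit 7139) (nat_lit 14) (nat_lit 11))
    (@En.i (nat_lit 2424) (nat_lit 13) (nat_lit 5))
    (@En.n l3 (nat_lit 2484) (nat_lit 15) (nat_lit 2))))
  (@Cl.mk (nat_lit 0x20005000a000e000a0002000d0008000600030006000e000b0002000e0008) (nat_lit 0x73107500031055) (nat_lit 16) Lb.e (@T16.mk En
    (@En.n l1020 (nat_lit 2163) (nat_lit 14) (nat_lit 8))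
    (@En.n l1021 (nat_lit 2179) (nat_lit 1) (nat_lit 14))
    (@En.n l18 (nat_lit 2485) (nat_lit 2) (nat_lit 2))
    (@En.n l1022 (nat_lit 2179) (nat_lit 3) (nat_lit 11))
    (@En.n l591 (nat_lit 11657) (nat_lit 5) (nat_lit 14))
    (@En.n l1023 (nat_lit 3235) (nat_lit 5) (nat_lit 6))
    (@En.n l1024 (nat_lit 2483) (nat_lit 6) (nat_lit 3))
    (@En.n l1025 (nat_lit 2631) (nat_lit 7) (nat_lit 6))
    (@En.n l1026 (nat_lit 6776) (nat_lit 14) (nat_lit 8))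
    (@En.n l55 (nat_lit 2484) (nat_lit 10) (nat_lit 13))
    (@En.n l8 (nat_lit 2485) (nat_lit 10) (nat_lit 2))
    (@En.n l127 (nat_lit 2484) (nat_lit 12) (nat_lit 10))
    (@En.n l1023 (nat_lit 3379) (nat_lit 13) (nat_lit 14))
    (@En.n l1027 (nat_lit 7140) (nat_lit 14) (nat_lit 10))
    (@En.n l591 (nat_lit 2426) (nat_lit 13) (nat_lit 5))
    (@En.n l3 (nat_lit 2485) (nat_lit 15) (nat_lit 2))))
  (@Cl.mk (nat_lit 0x20005000d000a000d000300070003000e00060002000e000b0002000e0009) (nat_lit 0x78400030045094) (nat_lit 16) Lb.e (@T16.mk En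
    (@En.n l15 (nat_lit 2544) (nat_lit 14) (nat_lit 9))
    (@En.n l319 (nat_lit 2176) (nat_lit 1) (nat_lit 14))
    (@En.n l18 (nat_lit 2486) (nat_lit 2) (nat_lit 2))
    (@En.n l320 (nat_lit 2176) (nat_lit 3) (nat_lit 11))
    (@En.n l321 (nat_lit 12307) (nat_lit 1) (nat_lit 14))
    (@En.n l7 (nat_lit 2486) (nat_lit 5) (nat_lit 2))
    (@En.i (nat_lit 2481) (nat_lit 6) (nat_lit 6))
    (@En.n l95 (nat_lit 2064) (nat_lit 8) (nat_lit 14))
    (@En.n l11 (nat_lit 2487) (nat_lit 8) (nat_lit 3))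
    (@En.n l322 (nat_lit 1333) (nat_lit 6) (nat_lit 7))
    (@En.n l33 (nat_lit 2480) (nat_lit 10) (nat_lit 3))
    (@En.n l16 (nat_lit 13375) (nat_lit 5) (nat_lit 13))
    (@En.i (nat_lit 3361) (nat_lit 13) (nat_lit 10))
    (@En.n l238 (nat_lit 1685) (nat_lit 14) (nat_lit 13))
    (@En.n l323 (nat_lit 2420) (nat_lit 13) (nat_lit 5))
    (@En.n l3 (nat_lit 2486) (nat_lit 15) (nat_lit 2))))
  (@Cl.mk (nat_lit 0x20005000c000a000d000600040003000e00060002000e000b0002000e000a) (nat_lit 0x78500000051078) (nat_lit 16) Lb.e (@T16.mk En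
    (@En.i (nat_lit 2161) (nat_lit 14) (nat_lit 10))
    (@En.i (nat_lit 2173) (nat_lit 1) (nat_lit 14))
    (@En.n l18 (nat_lit 2487) (nat_lit 2) (nat_lit 2))
    (@En.n l5 (nat_lit 2173) (nat_lit 3) (nat_lit 11))
    (@En.n l564 (nat_lit 12305) (nat_lit 1) (nat_lit 14))
    (@En.n l7 (nat_lit 2487) (nat_lit 5) (nat_lit 2))
    (@En.i (nat_lit 2484) (nat_lit 6) (nat_lit 6))
    (@En.i (nat_lit 2966) (nat_lit 8) (nat_lit 14))
    (@En.i (nat_lit 2486) (nat_lit 8) (nat_lit 3))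
    (@En.n l1162 (nat_lit 2710) (nat_lit 9) (nat_lit 4))
    (@En.n l117 (nat_lit 6710) (nat_lit 7) (nat_lit 6))
    (@En.i (nat_lit 13367) (nat_lit 5) (nat_lit 13))
    (@En.i (nat_lit 3363) (nat_lit 13) (nat_lit 10))
    (@En.n l1162 (nat_lit 7141) (nat_lit 14) (nat_lit 12))
    (@En.i (nat_lit 2423) (nat_lit 13) (nat_lit 5))
    (@En.n l3 (nat_lit 2487) (nat_lit 15) (nat_lit 2))))
  (@Cl.mk (nat_lit 0x200050005000d000c000b000300080004000e00050002000b000b000e0008) (nat_lit 0xb8901050056c3) (nat_lit 16) Lb.e (@T16.mk En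
    (@En.n l663 (nat_lit 2438) (nat_lit 12) (nat_lit 8))
    (@En.n l947 (nat_lit 2489) (nat_lit 13) (nat_lit 14))
    (@En.n l948 (nat_lit 2489) (nat_lit 14) (nat_lit 11))
    (@En.n l666 (nat_lit 12327) (nat_lit 3) (nat_lit 11))
    (@En.n l28 (nat_lit 2488) (nat_lit 4) (nat_lit 2))
    (@En.n l3151 (nat_lit 2475) (nat_lit 5) (nat_lit 5))
    (@En.n l3152 (nat_lit 2059) (nat_lit 7) (nat_lit 14))
    (@En.n l117 (nat_lit 2496) (nat_lit 7) (nat_lit 4))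
    (@En.n l3153 (nat_lit 219) (nat_lit 3) (nat_lit 8))
    (@En.n l3154 (nat_lit 2176) (nat_lit 9) (nat_lit 3))
    (@En.n l575 (nat_lit 2494) (nat_lit 11) (nat_lit 11))
    (@En.n l3155 (nat_lit 2173) (nat_lit 12) (nat_lit 12))
    (@En.n l671 (nat_lit 1788) (nat_lit 13) (nat_lit 13))
    (@En.n l3156 (nat_lit 2480) (nat_lit 14) (nat_lit 5))
    (@En.n l663 (nat_lit 2380) (nat_lit 13) (nat_lit 5))
    (@En.n l403 (nat_lit 2488) (nat_lit 15) (nat_lit 2))))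
  (@Cl.mk (nat_lit 0x2000b000e00070002000e00050002000d000c000b000300090004000e0005) (nat_lit 0x5b00600b8001050) (nat_lit 16) Lb.e (@T16.mk En
    (@En.n l8896 (nat_lit 2490) (nat_lit 7) (nat_lit 5))
    (@En.n l601 (nat_lit 2062) (nat_lit 1) (nat_lit 14))
    (@En.i (nat_lit 2495) (nat_lit 2) (nat_lit 4))
    (@En.n l8897 (nat_lit 218) (nat_lit 11) (nat_lit 9))
    (@En.n l8898 (nat_lit 2177) (nat_lit 4) (nat_lit 3))
    (@En.n l2680 (nat_lit 2491) (nat_lit 0) (nat_lit 11))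
    (@En.n l1578 (nat_lit 2170) (nat_lit 7) (nat_lit 12))
    (@En.n l1889 (nat_lit 1789) (nat_lit 12) (nat_lit 13))
    (@En.n l3 (nat_lit 2489) (nat_lit 8) (nat_lit 2))
    (@En.n l3010 (nat_lit 2488) (nat_lit 14) (nat_lit 5))
    (@En.n l2544 (nat_lit 2381) (nat_lit 1) (nat_lit 14))
    (@En.n l17 (nat_lit 2489) (nat_lit 11) (nat_lit 2))
    (@En.n l8894 (nat_lit 2433) (nat_lit 13) (nat_lit 7))
    (@En.n l8897 (nat_lit 13183) (nat_lit 4) (nat_lit 14))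
    (@En.i (nat_lit 12326) (nat_lit 2) (nat_lit 11))
    (@En.n l50 (nat_lit 2489) (nat_lit 15) (nat_lit 2))))
  (@Cl.mk (nat_lit 0x2000c000b000b000b0004000a000500050005000b000e00060002000e0005) (nat_lit 0x8801010003c0010) (nat_lit 16) Lb.e (@T16.mk En
    (@En.i (nat_lit 2475) (nat_lit 14) (nat_lit 5))
    (@En.n l5937 (nat_lit 773) (nat_lit 1) (nat_lit 14))
    (@En.n l7 (nat_lit 2490) (nat_lit 2) (nat_lit 2))
    (@En.n l2150 (nat_lit 2052) (nat_lit 3) (nat_lit 6))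
    (@En.i (nat_lit 13175) (nat_lit 4) (nat_lit 14))
    (@En.n l5938 (nat_lit 12769) (nat_lit 2) (nat_lit 11))
    (@En.n l2152 (nat_lit 2530) (nat_lit 11) (nat_lit 5))
    (@En.n l152 (nat_lit 2519) (nat_lit 7) (nat_lit 5))
    (@En.n l5939 (nat_lit 2498) (nat_lit 8) (nat_lit 5))
    (@En.i (nat_lit 292) (nat_lit 10) (nat_lit 10))
    (@En.n l2155 (nat_lit 2065) (nat_lit 10) (nat_lit 4))
    (@En.n l5940 (nat_lit 2489) (nat_lit 5) (nat_lit 11))
    (@En.n l5941 (nat_lit 2558) (nat_lit 5) (nat_lit 11))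
    (@En.n l5942 (nat_lit 2172) (nat_lit 14) (nat_lit 11))
    (@En.i (nat_lit 961) (nat_lit 12) (nat_lit 12))
    (@En.n l17 (nat_lit 2490) (nat_lit 15) (nat_lit 2))))
  (@Cl.mk (nat_lit 0x20008000d000d000500030003000b000e00080002000e00050002000e000b) (nat_lit 0x1330005020b0079) (nat_lit 16) Lb.e (@T16.mk En
    (@En.i (nat_lit 2498) (nat_lit 14) (nat_lit 11))
    (@En.i (nat_lit 1793) (nat_lit 1) (nat_lit 14))
    (@En.n l17 (nat_lit 2491) (nat_lit 2) (nat_lit 2))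
    (@En.n l535 (nat_lit 2494) (nat_lit 14) (nat_lit 5))
    (@En.n l622 (nat_lit 2566) (nat_lit 1) (nat_lit 14))
    (@En.n l7 (nat_lit 2491) (nat_lit 5) (nat_lit 2))
    (@En.n l623 (nat_lit 2561) (nat_lit 6) (nat_lit 8))
    (@En.i (nat_lit 13235) (nat_lit 4) (nat_lit 14))
    (@En.n l2041 (nat_lit 12629) (nat_lit 9) (nat_lit 11))
    (@En.i (nat_lit 2562) (nat_lit 13) (nat_lit 3))
    (@En.n l2042 (nat_lit 2493) (nat_lit 10) (nat_lit 3))
    (@En.n l2043 (nat_lit 2558) (nat_lit 0) (nat_lit 5))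
    (@En.n l2044 (nat_lit 2493) (nat_lit 13) (nat_lit 13))
    (@En.n l2041 (nat_lit 4031) (nat_lit 14) (nat_lit 13))
    (@En.n l253 (nat_lit 215) (nat_lit 12) (nat_lit 8))
    (@En.n l3 (nat_lit 2491) (nat_lit 15) (nat_lit 2))))
  (@Cl.mk (nat_lit 0x200050005000e000c00020007000d0004000e00030002000b000b000e0009) (nat_lit 0x7a00304000003) (nat_lit 16) Lb.e (@T16.mk En
    (@En.n l663 (nat_lit 3508) (nat_lit 5) (nat_lit 9))
    (@En.n l947 (nat_lit 2493) (nat_lit 7) (nat_lit 14))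
    (@En.n l948 (nat_lit 2493) (nat_lit 8) (nat_lit 11))
    (@En.n l666 (nat_lit 11752) (nat_lit 3) (nat_lit 11))
    (@En.n l28 (nat_lit 2492) (nat_lit 4) (nat_lit 2))
    (@En.i (nat_lit 2494) (nat_lit 5) (nat_lit 3))
    (@En.n l666 (nat_lit 13749) (nat_lit 0) (nat_lit 14))
    (@En.i (nat_lit 2488) (nat_lit 7) (nat_lit 4))
    (@En.i (nat_lit 4029) (nat_lit 9) (nat_lit 13))
    (@En.n l2101 (nat_lit 212) (nat_lit 4) (nat_lit 7))
    (@En.n l3 (nat_lit 2492) (nat_lit 10) (nat_lit 2))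
    (@En.i (nat_lit 2496) (nat_lit 12) (nat_lit 12))
    (@En.n l671 (nat_lit 1792) (nat_lit 13) (nat_lit 14))
    (@En.n l2102 (nat_lit 2499) (nat_lit 14) (nat_lit 5))
    (@En.n l663 (nat_lit 3580) (nat_lit 3) (nat_lit 5))
    (@En.n l403 (nat_lit 2492) (nat_lit 15) (nat_lit 2))))
  (@Cl.mk (nat_lit 0x20008000d0004000e00030002000b000e00080002000e00050002000e000c) (nat_lit 0x1200009c20b009a) (nat_lit 16) Lb.e (@T16.mk En
    (@En.n l1578 (nat_lit 2495) (nat_lit 7) (nat_lit 12))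
    (@En.n l1889 (nat_lit 1791) (nat_lit 1) (nat_lit 14))
    (@En.n l3 (nat_lit 2493) (nat_lit 2) (nat_lit 2))
    (@En.n l3010 (nat_lit 2492) (nat_lit 14) (nat_lit 5))
    (@En.n l2544 (nat_lit 3539) (nat_lit 1) (nat_lit 14))
    (@En.n l17 (nat_lit 2493) (nat_lit 5) (nat_lit 2))
    (@En.n l5926 (nat_lit 3538) (nat_lit 6) (nat_lit 8))
    (@En.n l2036 (nat_lit 13242) (nat_lit 4) (nat_lit 14))
    (@En.i (nat_lit 12628) (nat_lit 9) (nat_lit 11))
    (@En.n l50 (nat_lit 2493) (nat_lit 9) (nat_lit 2))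
    (@En.n l5916 (nat_lit 2491) (nat_lit 10) (nat_lit 3))
    (@En.i (nat_lit 13755) (nat_lit 0) (nat_lit 14))
    (@En.i (nat_lit 2489) (nat_lit 2) (nat_lit 4))
    (@En.i (nat_lit 4030) (nat_lit 14) (nat_lit 13))
    (@En.n l2036 (nat_lit 213) (nat_lit 12) (nat_lit 8))
    (@En.n l11 (nat_lit 2493) (nat_lit 15) (nat_lit 2))))
  (@Cl.mk (nat_lit 0x200050005000e000b00020007000d000d000500030003000b000b000e0009) (nat_lit 0x7800240006611) (nat_lit 16) Lb.e (@T16.mk En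
    (@En.n l663 (nat_lit 1843) (nat_lit 5) (nat_lit 9))
    (@En.n l664 (nat_lit 2491) (nat_lit 7) (nat_lit 14))
    (@En.n l665 (nat_lit 2491) (nat_lit 8) (nat_lit 11))
    (@En.n l666 (nat_lit 11754) (nat_lit 3) (nat_lit 11))
    (@En.n l667 (nat_lit 2501) (nat_lit 4) (nat_lit 3))
    (@En.n l11 (nat_lit 2492) (nat_lit 5) (nat_lit 3))
    (@En.n l668 (nat_lit 2063) (nat_lit 6) (nat_lit 5))
    (@En.n l55 (nat_lit 2492) (nat_lit 8) (nat_lit 13))
    (@En.i (nat_lit 4028) (nat_lit 9) (nat_lit 13))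
    (@En.n l669 (nat_lit 216) (nat_lit 3) (nat_lit 7))
    (@En.n l3 (nat_lit 2494) (nat_lit 10) (nat_lit 2))
    (@En.n l670 (nat_lit 2497) (nat_lit 12) (nat_lit 11))
    (@En.n l671 (nat_lit 1796) (nat_lit 13) (nat_lit 14))
    (@En.n l672 (nat_lit 2500) (nat_lit 14) (nat_lit 5))
    (@En.n l663 (nat_lit 3523) (nat_lit 3) (nat_lit 5))
    (@En.n l403 (nat_lit 2494) (nat_lit 15) (nat_lit 2))))
  (@Cl.mk (nat_lit 0x2000b000e00090002000e00050002000c000c0007000c00040004000e0004) (nat_lit 0x60000900000b0) (nat_lit 16) Lb.e (@T16.mk En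
    (@En.n l14607 (nat_lit 2498) (nat_lit 7) (nat_lit 4))
    (@En.n l1599 (nat_lit 2817) (nat_lit 1) (nat_lit 14))
    (@En.n l28 (nat_lit 2493) (nat_lit 12) (nat_lit 4))
    (@En.i (nat_lit 2170) (nat_lit 3) (nat_lit 4))
    (@En.i (nat_lit 2856) (nat_lit 12) (nat_lit 12))
    (@En.n l3213 (nat_lit 6704) (nat_lit 5) (nat_lit 7))
    (@En.n l14608 (nat_lit 2852) (nat_lit 7) (nat_lit 12))
    (@En.n l14609 (nat_lit 8989) (nat_lit 12) (nat_lit 12))
    (@En.n l3 (nat_lit 2495) (nat_lit 8) (nat_lit 2))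
    (@En.n l10801 (nat_lit 2496) (nat_lit 14) (nat_lit 5))
    (@En.n l3815 (nat_lit 2868) (nat_lit 1) (nat_lit 14))
    (@En.n l17 (nat_lit 2495) (nat_lit 11) (nat_lit 2))
    (@En.n l8894 (nat_lit 2702) (nat_lit 3) (nat_lit 9))
    (@En.n l2680 (nat_lit 13243) (nat_lit 4) (nat_lit 14))
    (@En.i (nat_lit 12626) (nat_lit 2) (nat_lit 11))
    (@En.n l50 (nat_lit 2495) (nat_lit 15) (nat_lit 2))))
noncomputable def a156 : T16 Cl := @T16.mk Cl
  (@Cl.mk (nat_lit 0x200050005000c000c0006000c00040004000e00040002000b000b000e000a) (nat_lit 0x9a0000a000112) (nat_lit 16) Lb.e (@T16.mk En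
    (@En.n l663 (nat_lit 2703) (nat_lit 12) (nat_lit 10))
    (@En.n l6140 (nat_lit 2495) (nat_lit 13) (nat_lit 14))
    (@En.n l6141 (nat_lit 2495) (nat_lit 14) (nat_lit 11))
    (@En.n l6142 (nat_lit 11755) (nat_lit 3) (nat_lit 11))
    (@En.n l28 (nat_lit 2496) (nat_lit 4) (nat_lit 2))
    (@En.n l670 (nat_lit 2497) (nat_lit 5) (nat_lit 4))
    (@En.n l3519 (nat_lit 2818) (nat_lit 7) (nat_lit 14))
    (@En.n l152 (nat_lit 2492) (nat_lit 7) (nat_lit 4))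
    (@En.n l3155 (nat_lit 2173) (nat_lit 8) (nat_lit 4))
    (@En.i (nat_lit 2860) (nat_lit 10) (nat_lit 12))
    (@En.n l6143 (nat_lit 6703) (nat_lit 5) (nat_lit 6))
    (@En.n l6144 (nat_lit 2637) (nat_lit 12) (nat_lit 12))
    (@En.n l671 (nat_lit 8987) (nat_lit 13) (nat_lit 12))
    (@En.n l6145 (nat_lit 2866) (nat_lit 14) (nat_lit 5))
    (@En.n l1545 (nat_lit 2867) (nat_lit 13) (nat_lit 5))
    (@En.n l403 (nat_lit 2496) (nat_lit 15) (nat_lit 2))))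
  (@Cl.mk (nat_lit 0x200050005000b000b0006000c000c0005000500040004000b000b000e000a) (nat_lit 0x7000100006702) (nat_lit 16) Lb.e (@T16.mk En
    (@En.n l2185 (nat_lit 2555) (nat_lit 1) (nat_lit 10))
    (@En.n l2186 (nat_lit 2498) (nat_lit 4) (nat_lit 14))
    (@En.n l2187 (nat_lit 2498) (nat_lit 5) (nat_lit 11))
    (@En.n l2188 (nat_lit 7661) (nat_lit 3) (nat_lit 11))
    (@En.n l237 (nat_lit 2629) (nat_lit 4) (nat_lit 4))
    (@En.i (nat_lit 2812) (nat_lit 5) (nat_lit 4))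
    (@En.n l234 (nat_lit 2494) (nat_lit 6) (nat_lit 5))
    (@En.n l55 (nat_lit 2067) (nat_lit 7) (nat_lit 5))
    (@En.n l2189 (nat_lit 2496) (nat_lit 9) (nat_lit 12))
    (@En.n l2190 (nat_lit 2864) (nat_lit 10) (nat_lit 12))
    (@En.n l2191 (nat_lit 6659) (nat_lit 11) (nat_lit 6))
    (@En.n l2192 (nat_lit 2634) (nat_lit 12) (nat_lit 11))
    (@En.i (nat_lit 7649) (nat_lit 13) (nat_lit 11))
    (@En.n l17 (nat_lit 2557) (nat_lit 14) (nat_lit 5))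
    (@En.i (nat_lit 3581) (nat_lit 13) (nat_lit 5))
    (@En.n l3 (nat_lit 2497) (nat_lit 15) (nat_lit 2))))
  (@Cl.mk (nat_lit 0x2000b000b0007000c000c0005000500040004000b000e00090002000e0005) (nat_lit 0x8000100006c5090) (nat_lit 16) Lb.e (@T16.mk En
    (@En.n l5943 (nat_lit 2497) (nat_lit 14) (nat_lit 5))
    (@En.n l622 (nat_lit 3650) (nat_lit 1) (nat_lit 14))
    (@En.n l7 (nat_lit 2498) (nat_lit 2) (nat_lit 2))
    (@En.n l1790 (nat_lit 2687) (nat_lit 3) (nat_lit 9))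
    (@En.i (nat_lit 13241) (nat_lit 4) (nat_lit 14))
    (@En.n l5944 (nat_lit 12630) (nat_lit 2) (nat_lit 11))
    (@En.n l920 (nat_lit 2684) (nat_lit 12) (nat_lit 4))
    (@En.n l5945 (nat_lit 2813) (nat_lit 7) (nat_lit 4))
    (@En.n l152 (nat_lit 2491) (nat_lit 11) (nat_lit 5))
    (@En.n l5936 (nat_lit 2814) (nat_lit 9) (nat_lit 5))
    (@En.n l5946 (nat_lit 2495) (nat_lit 4) (nat_lit 12))
    (@En.n l5947 (nat_lit 2865) (nat_lit 12) (nat_lit 12))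
    (@En.n l253 (nat_lit 6702) (nat_lit 13) (nat_lit 7))
    (@En.n l5948 (nat_lit 2636) (nat_lit 5) (nat_lit 11))
    (@En.n l766 (nat_lit 7650) (nat_lit 12) (nat_lit 11))
    (@En.n l17 (nat_lit 2498) (nat_lit 15) (nat_lit 2))))
  (@Cl.mk (nat_lit 0x20005000e000c00020006000d0004000e00030002000e000b0002000e000a) (nat_lit 0x8a003040001014) (nat_lit 16) Lb.e (@T16.mk En
    (@En.n l211 (nat_lit 2548) (nat_lit 4) (nat_lit 10))
    (@En.n l768 (nat_lit 2492) (nat_lit 1) (nat_lit 14))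
    (@En.n l50 (nat_lit 2499) (nat_lit 2) (nat_lit 2))
    (@En.n l769 (nat_lit 2492) (nat_lit 3) (nat_lit 11))
    (@En.n l767 (nat_lit 12567) (nat_lit 1) (nat_lit 14))
    (@En.n l28 (nat_lit 2499) (nat_lit 5) (nat_lit 2))
    (@En.n l58 (nat_lit 2500) (nat_lit 6) (nat_lit 3))
    (@En.n l770 (nat_lit 13754) (nat_lit 0) (nat_lit 14))
    (@En.n l771 (nat_lit 2480) (nat_lit 8) (nat_lit 4))
    (@En.n l770 (nat_lit 3618) (nat_lit 10) (nat_lit 13))
    (@En.n l772 (nat_lit 1108) (nat_lit 7) (nat_lit 6))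
    (@En.n l3 (nat_lit 2499) (nat_lit 11) (nat_lit 2))
    (@En.n l773 (nat_lit 2866) (nat_lit 13) (nat_lit 12))
    (@En.i (nat_lit 2027) (nat_lit 1) (nat_lit 14))
    (@En.n l211 (nat_lit 3541) (nat_lit 2) (nat_lit 5))
    (@En.n l17 (nat_lit 2499) (nat_lit 15) (nat_lit 2))))
  (@Cl.mk (nat_lit 0x20005000e000b00020006000d000d000500030003000e000b0002000e000a) (nat_lit 0xb8002400007024) (nat_lit 16) Lb.e (@T16.mk En
    (@En.n l233 (nat_lit 2546) (nat_lit 4) (nat_lit 10))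
    (@En.n l234 (nat_lit 2494) (nat_lit 1) (nat_lit 14))
    (@En.n l18 (nat_lit 2500) (nat_lit 2) (nat_lit 2))
    (@En.n l235 (nat_lit 2494) (nat_lit 3) (nat_lit 11))
    (@En.n l236 (nat_lit 12759) (nat_lit 9) (nat_lit 14))
    (@En.n l237 (nat_lit 2628) (nat_lit 5) (nat_lit 3))
    (@En.n l238 (nat_lit 2499) (nat_lit 6) (nat_lit 3))
    (@En.n l55 (nat_lit 2064) (nat_lit 7) (nat_lit 5))
    (@En.n l239 (nat_lit 2499) (nat_lit 9) (nat_lit 13))
    (@En.n l240 (nat_lit 3619) (nat_lit 10) (nat_lit 13))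
    (@En.n l241 (nat_lit 1109) (nat_lit 7) (nat_lit 6))
    (@En.n l12 (nat_lit 2500) (nat_lit 11) (nat_lit 2))
    (@En.n l13 (nat_lit 2557) (nat_lit 13) (nat_lit 11))
    (@En.n l242 (nat_lit 2028) (nat_lit 1) (nat_lit 14))
    (@En.n l243 (nat_lit 2570) (nat_lit 2) (nat_lit 5))
    (@En.n l3 (nat_lit 2500) (nat_lit 15) (nat_lit 2))))
  (@Cl.mk (nat_lit 0x200050005000e000a00020007000e000d000200060003000b000b000e0009) (nat_lit 0xa800530005603) (nat_lit 16) Lb.e (@T16.mk En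
    (@En.n l258 (nat_lit 2563) (nat_lit 10) (nat_lit 9))
    (@En.n l259 (nat_lit 2562) (nat_lit 11) (nat_lit 14))
    (@En.n l260 (nat_lit 2562) (nat_lit 12) (nat_lit 11))
    (@En.i (nat_lit 11656) (nat_lit 3) (nat_lit 11))
    (@En.n l261 (nat_lit 2494) (nat_lit 4) (nat_lit 3))
    (@En.n l262 (nat_lit 2176) (nat_lit 5) (nat_lit 6))
    (@En.n l7 (nat_lit 2501) (nat_lit 6) (nat_lit 2))
    (@En.n l263 (nat_lit 2494) (nat_lit 8) (nat_lit 13))
    (@En.n l261 (nat_lit 4141) (nat_lit 9) (nat_lit 14))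
    (@En.n l264 (nat_lit 1010) (nat_lit 2) (nat_lit 7))
    (@En.n l17 (nat_lit 2501) (nat_lit 10) (nat_lit 2))
    (@En.n l265 (nat_lit 2629) (nat_lit 12) (nat_lit 10))
    (@En.n l266 (nat_lit 2154) (nat_lit 13) (nat_lit 14))
    (@En.n l267 (nat_lit 2628) (nat_lit 14) (nat_lit 5))
    (@En.n l268 (nat_lit 3522) (nat_lit 7) (nat_lit 5))
    (@En.n l67 (nat_lit 2501) (nat_lit 15) (nat_lit 2))))
  (@Cl.mk (nat_lit 0x3000c000a000a000a00040008000b000600060006000c0005000d00080004) (nat_lit 0x671105500040560) (nat_lit 16) Lb.e (@T16.mk En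
    (@En.n l7950 (nat_lit 2052) (nat_lit 0) (nat_lit 4))
    (@En.n l61 (nat_lit 2503) (nat_lit 0) (nat_lit 8))
    (@En.n l15397 (nat_lit 2143) (nat_lit 1) (nat_lit 13))
    (@En.i (nat_lit 2508) (nat_lit 3) (nat_lit 5))
    (@En.n l7944 (nat_lit 11875) (nat_lit 10) (nat_lit 12))
    (@En.n l15398 (nat_lit 2468) (nat_lit 10) (nat_lit 6))
    (@En.n l7946 (nat_lit 2513) (nat_lit 10) (nat_lit 6))
    (@En.n l117 (nat_lit 8140) (nat_lit 7) (nat_lit 6))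
    (@En.n l9304 (nat_lit 2229) (nat_lit 7) (nat_lit 11))
    (@En.n l14312 (nat_lit 6880) (nat_lit 11) (nat_lit 8))
    (@En.n l936 (nat_lit 2572) (nat_lit 10) (nat_lit 4))
    (@En.n l55 (nat_lit 2389) (nat_lit 6) (nat_lit 10))
    (@En.n l575 (nat_lit 2288) (nat_lit 6) (nat_lit 10))
    (@En.n l15399 (nat_lit 2880) (nat_lit 14) (nat_lit 10))
    (@En.n l15400 (nat_lit 1297) (nat_lit 3) (nat_lit 12))
    (@En.n l18 (nat_lit 2228) (nat_lit 13) (nat_lit 3))))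
  (@Cl.mk (nat_lit 0x30009000c000900090009000400080007000b000700070007000d00050008) (nat_lit 0x456100606000505) (nat_lit 16) Lb.e (@T16.mk En
    (@En.n l20564 (nat_lit 1699) (nat_lit 10) (nat_lit 8))
    (@En.n l19109 (nat_lit 2507) (nat_lit 7) (nat_lit 5))
    (@En.n l7944 (nat_lit 11874) (nat_lit 2) (nat_lit 13))
    (@En.n l7945 (nat_lit 2471) (nat_lit 9) (nat_lit 7))
    (@En.n l7946 (nat_lit 2510) (nat_lit 9) (nat_lit 7))
    (@En.n l117 (nat_lit 8139) (nat_lit 5) (nat_lit 7))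
    (@En.n l617 (nat_lit 2502) (nat_lit 8) (nat_lit 11))
    (@En.n l17 (nat_lit 2228) (nat_lit 7) (nat_lit 7))
    (@En.i (nat_lit 6882) (nat_lit 11) (nat_lit 8))
    (@En.n l936 (nat_lit 2514) (nat_lit 9) (nat_lit 4))
    (@En.n l55 (nat_lit 2601) (nat_lit 7) (nat_lit 9))
    (@En.n l575 (nat_lit 2291) (nat_lit 7) (nat_lit 9))
    (@En.n l7290 (nat_lit 2848) (nat_lit 13) (nat_lit 9))
    (@En.n l12742 (nat_lit 1295) (nat_lit 6) (nat_lit 12))
    (@En.n l27521 (nat_lit 4917) (nat_lit 4) (nat_lit 9))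
    (@En.n l7949 (nat_lit 2505) (nat_lit 15) (nat_lit 3))))
  (@Cl.mk (nat_lit 0x300090004000c000a000a000a00040007000a000600060006000d000c0006) (nat_lit 0x406710002000350) (nat_lit 16) Lb.e (@T16.mk En
    (@En.n l3898 (nat_lit 1509) (nat_lit 0) (nat_lit 6))
    (@En.n l217 (nat_lit 2502) (nat_lit 4) (nat_lit 12))
    (@En.n l7944 (nat_lit 11879) (nat_lit 2) (nat_lit 13))
    (@En.n l7945 (nat_lit 2466) (nat_lit 10) (nat_lit 6))
    (@En.n l7946 (nat_lit 2511) (nat_lit 10) (nat_lit 6))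
    (@En.n l117 (nat_lit 8137) (nat_lit 5) (nat_lit 6))
    (@En.n l7947 (nat_lit 773) (nat_lit 8) (nat_lit 10))
    (@En.n l7948 (nat_lit 6874) (nat_lit 11) (nat_lit 7))
    (@En.n l936 (nat_lit 2577) (nat_lit 8) (nat_lit 4))
    (@En.n l55 (nat_lit 2600) (nat_lit 6) (nat_lit 10))
    (@En.n l575 (nat_lit 2290) (nat_lit 6) (nat_lit 10))
    (@En.n l2569 (nat_lit 2850) (nat_lit 12) (nat_lit 10))
    (@En.n l7949 (nat_lit 2505) (nat_lit 13) (nat_lit 12))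
    (@En.n l7950 (nat_lit 2460) (nat_lit 14) (nat_lit 4))
    (@En.n l612 (nat_lit 2506) (nat_lit 0) (nat_lit 9))
    (@En.n l50 (nat_lit 2228) (nat_lit 15) (nat_lit 3))))
  (@Cl.mk (nat_lit 0x30009000c000900090009000400090007000a000700070007000d00070006) (nat_lit 0x456730503000500) (nat_lit 16) Lb.e (@T16.mk En
    (@En.n l15360 (nat_lit 1394) (nat_lit 0) (nat_lit 6))
    (@En.n l15361 (nat_lit 1421) (nat_lit 7) (nat_lit 7))
    (@En.n l15362 (nat_lit 11877) (nat_lit 2) (nat_lit 13))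
    (@En.n l15363 (nat_lit 2467) (nat_lit 9) (nat_lit 7))
    (@En.n l8214 (nat_lit 2509) (nat_lit 9) (nat_lit 7))
    (@En.n l15364 (nat_lit 8141) (nat_lit 5) (nat_lit 7))
    (@En.n l11283 (nat_lit 2052) (nat_lit 8) (nat_lit 10))
    (@En.n l15365 (nat_lit 2504) (nat_lit 7) (nat_lit 7))
    (@En.n l8012 (nat_lit 6891) (nat_lit 9) (nat_lit 9))
    (@En.n l15366 (nat_lit 1759) (nat_lit 9) (nat_lit 4))
    (@En.n l15367 (nat_lit 2602) (nat_lit 7) (nat_lit 9))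
    (@En.n l15368 (nat_lit 2586) (nat_lit 7) (nat_lit 9))
    (@En.n l8020 (nat_lit 2840) (nat_lit 13) (nat_lit 9))
    (@En.n l15360 (nat_lit 1396) (nat_lit 6) (nat_lit 12))
    (@En.n l15369 (nat_lit 2507) (nat_lit 4) (nat_lit 9))
    (@En.n l13847 (nat_lit 2503) (nat_lit 15) (nat_lit 3))))
  (@Cl.mk (nat_lit 0x3000c00090009000900040007000b000a0007000700070005000d00060009) (nat_lit 0x567000630000603) (nat_lit 16) Lb.e (@T16.mk En
    (@En.n l12976 (nat_lit 4991) (nat_lit 9) (nat_lit 9))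
    (@En.i (nat_lit 1508) (nat_lit 6) (nat_lit 6))
    (@En.n l564 (nat_lit 2503) (nat_lit 2) (nat_lit 13))
    (@En.n l3100 (nat_lit 6270) (nat_lit 3) (nat_lit 5))
    (@En.n l7945 (nat_lit 2470) (nat_lit 9) (nat_lit 7))
    (@En.n l7946 (nat_lit 1757) (nat_lit 9) (nat_lit 7))
    (@En.n l10152 (nat_lit 6813) (nat_lit 6) (nat_lit 7))
    (@En.n l644 (nat_lit 2504) (nat_lit 6) (nat_lit 10))
    (@En.n l7947 (nat_lit 2301) (nat_lit 8) (nat_lit 11))
    (@En.n l7948 (nat_lit 6875) (nat_lit 11) (nat_lit 7))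
    (@En.n l936 (nat_lit 1755) (nat_lit 10) (nat_lit 4))
    (@En.n l55 (nat_lit 2603) (nat_lit 7) (nat_lit 9))
    (@En.n l575 (nat_lit 2588) (nat_lit 7) (nat_lit 9))
    (@En.i (nat_lit 2846) (nat_lit 14) (nat_lit 9))
    (@En.n l19109 (nat_lit 2507) (nat_lit 3) (nat_lit 12))
    (@En.i (nat_lit 2508) (nat_lit 15) (nat_lit 3))))
  (@Cl.mk (nat_lit 0x400080007000b000a0008000800080005000800060009000c000800080008) (nat_lit 0x507401201034560) (nat_lit 16) Lb.e (@T16.mk En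
    (@En.n l19116 (nat_lit 2604) (nat_lit 8) (nat_lit 8))
    (@En.n l19117 (nat_lit 2587) (nat_lit 8) (nat_lit 8))
    (@En.n l19118 (nat_lit 2842) (nat_lit 11) (nat_lit 8))
    (@En.n l19119 (nat_lit 1590) (nat_lit 6) (nat_lit 12))
    (@En.n l4515 (nat_lit 4875) (nat_lit 9) (nat_lit 9))
    (@En.n l19120 (nat_lit 1409) (nat_lit 10) (nat_lit 6))
    (@En.i (nat_lit 1673) (nat_lit 10) (nat_lit 8))
    (@En.n l19121 (nat_lit 6271) (nat_lit 7) (nat_lit 5))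
    (@En.n l19122 (nat_lit 2473) (nat_lit 8) (nat_lit 8))
    (@En.n l19123 (nat_lit 1756) (nat_lit 8) (nat_lit 8))
    (@En.n l3866 (nat_lit 6812) (nat_lit 2) (nat_lit 8))
    (@En.n l19124 (nat_lit 2505) (nat_lit 6) (nat_lit 10))
    (@En.n l19125 (nat_lit 2508) (nat_lit 8) (nat_lit 11))
    (@En.n l19126 (nat_lit 2506) (nat_lit 9) (nat_lit 7))
    (@En.n l19127 (nat_lit 2594) (nat_lit 11) (nat_lit 8))
    (@En.n l19128 (nat_lit 1754) (nat_lit 15) (nat_lit 4))))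
  (@Cl.mk (nat_lit 0x3000c00090009000900040008000b00090007000700070005000d00080007) (nat_lit 0x567005630000620) (nat_lit 16) Lb.e (@T16.mk En
    (@En.n l7951 (nat_lit 1414) (nat_lit 0) (nat_lit 7))
    (@En.n l7952 (nat_lit 2507) (nat_lit 6) (nat_lit 8))
    (@En.n l7953 (nat_lit 2505) (nat_lit 2) (nat_lit 13))
    (@En.n l7954 (nat_lit 6269) (nat_lit 3) (nat_lit 5))
    (@En.n l7955 (nat_lit 2469) (nat_lit 9) (nat_lit 7))
    (@En.n l7946 (nat_lit 1749) (nat_lit 9) (nat_lit 7))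
    (@En.n l7956 (nat_lit 6811) (nat_lit 6) (nat_lit 7))
    (@En.n l7957 (nat_lit 2460) (nat_lit 7) (nat_lit 9))
    (@En.n l7958 (nat_lit 2342) (nat_lit 7) (nat_lit 11))
    (@En.n l7956 (nat_lit 2596) (nat_lit 11) (nat_lit 8))
    (@En.n l7959 (nat_lit 1751) (nat_lit 10) (nat_lit 4))
    (@En.n l55 (nat_lit 2605) (nat_lit 7) (nat_lit 9))
    (@En.n l7960 (nat_lit 2589) (nat_lit 7) (nat_lit 9))
    (@En.n l7961 (nat_lit 2844) (nat_lit 14) (nat_lit 9))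
    (@En.n l7962 (nat_lit 1420) (nat_lit 3) (nat_lit 12))
    (@En.n l18 (nat_lit 2506) (nat_lit 15) (nat_lit 3))))
  (@Cl.mk (nat_lit 0x2000a0005000a0008000b00070006000d0006000500030008000b000e0009) (nat_lit 0x4070300300047c7) (nat_lit 16) Lb.e (@T16.mk En
    (@En.n l19947 (nat_lit 2505) (nat_lit 12) (nat_lit 9))
    (@En.n l6937 (nat_lit 3951) (nat_lit 4) (nat_lit 14))
    (@En.n l5549 (nat_lit 1397) (nat_lit 2) (nat_lit 11))
    (@En.n l612 (nat_lit 1756) (nat_lit 3) (nat_lit 8))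
    (@En.n l50 (nat_lit 2510) (nat_lit 4) (nat_lit 3))
    (@En.n l5549 (nat_lit 1446) (nat_lit 0) (nat_lit 5))
    (@En.i (nat_lit 1461) (nat_lit 6) (nat_lit 6))
    (@En.n l19948 (nat_lit 12273) (nat_lit 8) (nat_lit 13))
    (@En.i (nat_lit 728) (nat_lit 8) (nat_lit 6))
    (@En.n l16905 (nat_lit 10388) (nat_lit 4) (nat_lit 7))
    (@En.n l3327 (nat_lit 2516) (nat_lit 11) (nat_lit 11))
    (@En.n l17 (nat_lit 2511) (nat_lit 12) (nat_lit 8))
    (@En.n l19949 (nat_lit 7818) (nat_lit 13) (nat_lit 10))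
    (@En.n l12715 (nat_lit 1758) (nat_lit 14) (nat_lit 5))
    (@En.n l19950 (nat_lit 1759) (nat_lit 10) (nat_lit 10))
    (@En.n l107 (nat_lit 2509) (nat_lit 15) (nat_lit 2))))
  (@Cl.mk (nat_lit 0x2000a000500090008000c00070006000d0004000700030008000b000e0009) (nat_lit 0x6070030004717) (nat_lit 16) Lb.e (@T16.mk En
    (@En.n l5706 (nat_lit 2503) (nat_lit 12) (nat_lit 9))
    (@En.n l26855 (nat_lit 2122) (nat_lit 4) (nat_lit 14))
    (@En.n l7018 (nat_lit 1399) (nat_lit 2) (nat_lit 11))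
    (@En.n l387 (nat_lit 4913) (nat_lit 3) (nat_lit 8))
    (@En.i (nat_lit 2509) (nat_lit 4) (nat_lit 3))
    (@En.i (nat_lit 1900) (nat_lit 0) (nat_lit 7))
    (@En.i (nat_lit 1756) (nat_lit 6) (nat_lit 4))
    (@En.n l28642 (nat_lit 12269) (nat_lit 8) (nat_lit 13))
    (@En.i (nat_lit 650) (nat_lit 8) (nat_lit 6))
    (@En.i (nat_lit 10386) (nat_lit 4) (nat_lit 7))
    (@En.n l617 (nat_lit 2513) (nat_lit 11) (nat_lit 12))
    (@En.n l17 (nat_lit 2512) (nat_lit 12) (nat_lit 8))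
    (@En.i (nat_lit 7915) (nat_lit 13) (nat_lit 9))
    (@En.n l159 (nat_lit 2515) (nat_lit 14) (nat_lit 5))
    (@En.n l5634 (nat_lit 2514) (nat_lit 10) (nat_lit 10))
    (@En.n l107 (nat_lit 2510) (nat_lit 15) (nat_lit 2))))
  (@Cl.mk (nat_lit 0x2000b00050008000b00060005000d000c0005000300080004000b000e000a) (nat_lit 0x6200440040808) (nat_lit 16) Lb.e (@T16.mk En
    (@En.n l5706 (nat_lit 2504) (nat_lit 11) (nat_lit 10))
    (@En.n l619 (nat_lit 3947) (nat_lit 4) (nat_lit 14))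
    (@En.i (nat_lit 2509) (nat_lit 2) (nat_lit 11))
    (@En.n l50 (nat_lit 760) (nat_lit 3) (nat_lit 4))
    (@En.n l612 (nat_lit 1757) (nat_lit 4) (nat_lit 8))
    (@En.n l50 (nat_lit 2512) (nat_lit 5) (nat_lit 3))
    (@En.i (nat_lit 1510) (nat_lit 0) (nat_lit 5))
    (@En.n l217 (nat_lit 2513) (nat_lit 8) (nat_lit 12))
    (@En.i (nat_lit 12598) (nat_lit 9) (nat_lit 13))
    (@En.i (nat_lit 725) (nat_lit 9) (nat_lit 5))
    (@En.i (nat_lit 10384) (nat_lit 4) (nat_lit 6))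
    (@En.n l617 (nat_lit 769) (nat_lit 7) (nat_lit 11))
    (@En.n l6031 (nat_lit 7921) (nat_lit 13) (nat_lit 8))
    (@En.n l159 (nat_lit 2576) (nat_lit 14) (nat_lit 5))
    (@En.n l5634 (nat_lit 2577) (nat_lit 9) (nat_lit 11))
    (@En.n l107 (nat_lit 2511) (nat_lit 15) (nat_lit 2))))
noncomputable def a157 : T16 Cl := @T16.mk Cl
  (@Cl.mk (nat_lit 0x2000b00050008000c00060005000d0004000d000300080003000b000e000a) (nat_lit 0x6600404030808) (nat_lit 16) Lb.e (@T16.mk En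
    (@En.n l5706 (nat_lit 2228) (nat_lit 11) (nat_lit 10))
    (@En.n l619 (nat_lit 3948) (nat_lit 4) (nat_lit 14))
    (@En.i (nat_lit 2510) (nat_lit 2) (nat_lit 11))
    (@En.i (nat_lit 2513) (nat_lit 3) (nat_lit 3))
    (@En.n l387 (nat_lit 4915) (nat_lit 4) (nat_lit 8))
    (@En.i (nat_lit 2511) (nat_lit 5) (nat_lit 3))
    (@En.i (nat_lit 2194) (nat_lit 0) (nat_lit 13))
    (@En.i (nat_lit 1757) (nat_lit 7) (nat_lit 4))
    (@En.i (nat_lit 12270) (nat_lit 9) (nat_lit 13))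
    (@En.i (nat_lit 644) (nat_lit 9) (nat_lit 5))
    (@En.i (nat_lit 10385) (nat_lit 4) (nat_lit 6))
    (@En.n l617 (nat_lit 2230) (nat_lit 12) (nat_lit 12))
    (@En.n l6031 (nat_lit 7922) (nat_lit 13) (nat_lit 8))
    (@En.n l159 (nat_lit 2574) (nat_lit 14) (nat_lit 5))
    (@En.n l5634 (nat_lit 2573) (nat_lit 9) (nat_lit 11))
    (@En.n l107 (nat_lit 2512) (nat_lit 15) (nat_lit 2))))
  (@Cl.mk (nat_lit 0x2000b00050009000c00060005000c0004000d000700040003000b000e000a) (nat_lit 0x6600304000808) (nat_lit 16) Lb.e (@T16.mk En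
    (@En.n l5706 (nat_lit 2502) (nat_lit 13) (nat_lit 10))
    (@En.n l2940 (nat_lit 3949) (nat_lit 4) (nat_lit 14))
    (@En.i (nat_lit 1406) (nat_lit 2) (nat_lit 11))
    (@En.n l18 (nat_lit 2512) (nat_lit 3) (nat_lit 3))
    (@En.n l3348 (nat_lit 2516) (nat_lit 4) (nat_lit 4))
    (@En.n l61 (nat_lit 2510) (nat_lit 5) (nat_lit 7))
    (@En.i (nat_lit 2140) (nat_lit 7) (nat_lit 13))
    (@En.i (nat_lit 1749) (nat_lit 7) (nat_lit 4))
    (@En.n l19932 (nat_lit 12267) (nat_lit 9) (nat_lit 12))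
    (@En.i (nat_lit 652) (nat_lit 9) (nat_lit 5))
    (@En.i (nat_lit 10387) (nat_lit 6) (nat_lit 6))
    (@En.n l617 (nat_lit 2264) (nat_lit 6) (nat_lit 12))
    (@En.i (nat_lit 7913) (nat_lit 13) (nat_lit 9))
    (@En.n l159 (nat_lit 2575) (nat_lit 14) (nat_lit 5))
    (@En.n l5634 (nat_lit 2572) (nat_lit 11) (nat_lit 11))
    (@En.n l107 (nat_lit 2513) (nat_lit 15) (nat_lit 2))))
  (@Cl.mk (nat_lit 0x30009000c0007000a000a000400080007000b000600060009000d00050008) (nat_lit 0x480780503000405) (nat_lit 16) Lb.e (@T16.mk En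
    (@En.n l26712 (nat_lit 1560) (nat_lit 10) (nat_lit 8))
    (@En.i (nat_lit 1754) (nat_lit 7) (nat_lit 5))
    (@En.n l28604 (nat_lit 12447) (nat_lit 6) (nat_lit 13))
    (@En.n l14025 (nat_lit 2515) (nat_lit 9) (nat_lit 9))
    (@En.n l14026 (nat_lit 2515) (nat_lit 10) (nat_lit 6))
    (@En.n l117 (nat_lit 10373) (nat_lit 5) (nat_lit 6))
    (@En.n l617 (nat_lit 2572) (nat_lit 8) (nat_lit 11))
    (@En.n l17 (nat_lit 2573) (nat_lit 7) (nat_lit 7))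
    (@En.i (nat_lit 7843) (nat_lit 11) (nat_lit 8))
    (@En.n l5152 (nat_lit 2445) (nat_lit 9) (nat_lit 4))
    (@En.n l575 (nat_lit 2581) (nat_lit 6) (nat_lit 10))
    (@En.i (nat_lit 2601) (nat_lit 8) (nat_lit 10))
    (@En.n l5646 (nat_lit 3304) (nat_lit 13) (nat_lit 7))
    (@En.i (nat_lit 1405) (nat_lit 6) (nat_lit 12))
    (@En.i (nat_lit 4919) (nat_lit 4) (nat_lit 9))
    (@En.n l18679 (nat_lit 1759) (nat_lit 15) (nat_lit 3))))
  (@Cl.mk (nat_lit 0x2000500090008000c00060009000d0004000700030008000b0007000e000a) (nat_lit 0x60307300047028) (nat_lit 16) Lb.e (@T16.mk En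
    (@En.n l3839 (nat_lit 2514) (nat_lit 11) (nat_lit 10))
    (@En.n l180 (nat_lit 2510) (nat_lit 1) (nat_lit 14))
    (@En.n l26855 (nat_lit 3307) (nat_lit 2) (nat_lit 7))
    (@En.n l7018 (nat_lit 1402) (nat_lit 3) (nat_lit 11))
    (@En.n l13102 (nat_lit 4916) (nat_lit 4) (nat_lit 8))
    (@En.n l3327 (nat_lit 1758) (nat_lit 5) (nat_lit 3))
    (@En.n l2373 (nat_lit 1561) (nat_lit 6) (nat_lit 7))
    (@En.n l13056 (nat_lit 1752) (nat_lit 7) (nat_lit 4))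
    (@En.n l2544 (nat_lit 12352) (nat_lit 9) (nat_lit 13))
    (@En.i (nat_lit 13737) (nat_lit 9) (nat_lit 9))
    (@En.n l18864 (nat_lit 10380) (nat_lit 11) (nat_lit 6))
    (@En.n l617 (nat_lit 2575) (nat_lit 12) (nat_lit 12))
    (@En.n l17 (nat_lit 2574) (nat_lit 13) (nat_lit 8))
    (@En.i (nat_lit 7871) (nat_lit 14) (nat_lit 9))
    (@En.i (nat_lit 2617) (nat_lit 13) (nat_lit 5))
    (@En.n l11 (nat_lit 2515) (nat_lit 15) (nat_lit 2))))
  (@Cl.mk (nat_lit 0x2000b0005000b000b00060005000c00050005000e00040002000b000e000a) (nat_lit 0x206200400200618) (nat_lit 16) Lb.e (@T16.mk En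
    (@En.n l1063 (nat_lit 2052) (nat_lit 13) (nat_lit 10))
    (@En.n l1063 (nat_lit 2035) (nat_lit 4) (nat_lit 14))
    (@En.n l1998 (nat_lit 958) (nat_lit 2) (nat_lit 11))
    (@En.n l28 (nat_lit 2516) (nat_lit 3) (nat_lit 2))
    (@En.n l5760 (nat_lit 760) (nat_lit 4) (nat_lit 4))
    (@En.n l19856 (nat_lit 2139) (nat_lit 1) (nat_lit 14))
    (@En.n l152 (nat_lit 2042) (nat_lit 11) (nat_lit 5))
    (@En.n l3082 (nat_lit 1465) (nat_lit 7) (nat_lit 5))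
    (@En.i (nat_lit 12749) (nat_lit 9) (nat_lit 12))
    (@En.i (nat_lit 751) (nat_lit 5) (nat_lit 5))
    (@En.n l19856 (nat_lit 8100) (nat_lit 6) (nat_lit 6))
    (@En.n l19857 (nat_lit 2519) (nat_lit 8) (nat_lit 11))
    (@En.n l19858 (nat_lit 6894) (nat_lit 9) (nat_lit 11))
    (@En.n l699 (nat_lit 2517) (nat_lit 14) (nat_lit 5))
    (@En.n l17 (nat_lit 2053) (nat_lit 11) (nat_lit 11))
    (@En.n l18 (nat_lit 2516) (nat_lit 15) (nat_lit 2))))
  (@Cl.mk (nat_lit 0x20005000b000b00050008000c00050005000e00040002000b0008000e000b) (nat_lit 0x72054007007529) (nat_lit 16) Lb.e (@T16.mk En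
    (@En.i (nat_lit 2053) (nat_lit 12) (nat_lit 11))
    (@En.n l5 (nat_lit 2516) (nat_lit 1) (nat_lit 14))
    (@En.i (nat_lit 2521) (nat_lit 14) (nat_lit 8))
    (@En.i (nat_lit 1435) (nat_lit 3) (nat_lit 11))
    (@En.n l28 (nat_lit 2517) (nat_lit 4) (nat_lit 2))
    (@En.i (nat_lit 756) (nat_lit 5) (nat_lit 4))
    (@En.n l476 (nat_lit 2138) (nat_lit 7) (nat_lit 14))
    (@En.n l152 (nat_lit 2044) (nat_lit 7) (nat_lit 5))
    (@En.i (nat_lit 1463) (nat_lit 8) (nat_lit 5))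
    (@En.i (nat_lit 12748) (nat_lit 10) (nat_lit 12))
    (@En.i (nat_lit 13916) (nat_lit 10) (nat_lit 8))
    (@En.n l1643 (nat_lit 8101) (nat_lit 6) (nat_lit 5))
    (@En.n l1867 (nat_lit 2518) (nat_lit 13) (nat_lit 11))
    (@En.n l5372 (nat_lit 7896) (nat_lit 9) (nat_lit 11))
    (@En.i (nat_lit 2532) (nat_lit 9) (nat_lit 5))
    (@En.n l17 (nat_lit 2517) (nat_lit 15) (nat_lit 2))))
  (@Cl.mk (nat_lit 0x20005000b00040007000b000e00050002000e00050002000b0009000e000c) (nat_lit 0x1003b00100769a) (nat_lit 16) Lb.e (@T16.mk En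
    (@En.i (nat_lit 2065) (nat_lit 12) (nat_lit 12))
    (@En.n l5610 (nat_lit 2519) (nat_lit 13) (nat_lit 14))
    (@En.n l10275 (nat_lit 2520) (nat_lit 14) (nat_lit 9))
    (@En.i (nat_lit 1469) (nat_lit 3) (nat_lit 11))
    (@En.n l3 (nat_lit 2518) (nat_lit 4) (nat_lit 2))
    (@En.i (nat_lit 2066) (nat_lit 14) (nat_lit 5))
    (@En.i (nat_lit 771) (nat_lit 7) (nat_lit 14))
    (@En.n l17 (nat_lit 2518) (nat_lit 7) (nat_lit 2))
    (@En.n l2869 (nat_lit 2517) (nat_lit 8) (nat_lit 5))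
    (@En.n l2036 (nat_lit 13172) (nat_lit 4) (nat_lit 14))
    (@En.n l2031 (nat_lit 12743) (nat_lit 11) (nat_lit 11))
    (@En.i (nat_lit 13917) (nat_lit 11) (nat_lit 7))
    (@En.i (nat_lit 2809) (nat_lit 7) (nat_lit 4))
    (@En.n l2036 (nat_lit 414) (nat_lit 9) (nat_lit 11))
    (@En.i (nat_lit 2531) (nat_lit 9) (nat_lit 5))
    (@En.n l7 (nat_lit 2518) (nat_lit 15) (nat_lit 2))))
  (@Cl.mk (nat_lit 0x2000b000e000b0002000c0005000b00050004000b000e00050002000e0005) (nat_lit 0x9890201002a0010) (nat_lit 16) Lb.e (@T16.mk En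
    (@En.n l903 (nat_lit 2479) (nat_lit 14) (nat_lit 5))
    (@En.n l5937 (nat_lit 769) (nat_lit 1) (nat_lit 14))
    (@En.n l7 (nat_lit 2519) (nat_lit 2) (nat_lit 2))
    (@En.n l8371 (nat_lit 2516) (nat_lit 7) (nat_lit 5))
    (@En.i (nat_lit 13171) (nat_lit 4) (nat_lit 14))
    (@En.n l287 (nat_lit 12745) (nat_lit 10) (nat_lit 11))
    (@En.n l11 (nat_lit 743) (nat_lit 6) (nat_lit 4))
    (@En.i (nat_lit 2810) (nat_lit 7) (nat_lit 5))
    (@En.i (nat_lit 295) (nat_lit 9) (nat_lit 11))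
    (@En.n l2155 (nat_lit 2518) (nat_lit 14) (nat_lit 5))
    (@En.n l8372 (nat_lit 2065) (nat_lit 11) (nat_lit 12))
    (@En.n l3 (nat_lit 2519) (nat_lit 11) (nat_lit 2))
    (@En.i (nat_lit 2490) (nat_lit 13) (nat_lit 11))
    (@En.n l918 (nat_lit 4144) (nat_lit 4) (nat_lit 14))
    (@En.i (nat_lit 960) (nat_lit 12) (nat_lit 11))
    (@En.n l17 (nat_lit 2519) (nat_lit 15) (nat_lit 2))))
  (@Cl.mk (nat_lit 0x20009000e000c0002000c000a000400070004000b000e00060002000e0005) (nat_lit 0x566031000400010) (nat_lit 16) Lb.e (@T16.mk En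
    (@En.n l2154 (nat_lit 2523) (nat_lit 14) (nat_lit 5))
    (@En.n l1012 (nat_lit 777) (nat_lit 1) (nat_lit 14))
    (@En.n l7 (nat_lit 2520) (nat_lit 2) (nat_lit 2))
    (@En.n l26015 (nat_lit 2521) (nat_lit 3) (nat_lit 6))
    (@En.i (nat_lit 13174) (nat_lit 4) (nat_lit 14))
    (@En.n l5931 (nat_lit 7258) (nat_lit 10) (nat_lit 11))
    (@En.i (nat_lit 2519) (nat_lit 6) (nat_lit 4))
    (@En.n l2034 (nat_lit 13571) (nat_lit 11) (nat_lit 7))
    (@En.n l21053 (nat_lit 2795) (nat_lit 8) (nat_lit 4))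
    (@En.n l28777 (nat_lit 892) (nat_lit 14) (nat_lit 10))
    (@En.n l2034 (nat_lit 2809) (nat_lit 11) (nat_lit 12))
    (@En.n l3 (nat_lit 2520) (nat_lit 11) (nat_lit 2))
    (@En.i (nat_lit 2522) (nat_lit 13) (nat_lit 12))
    (@En.n l2042 (nat_lit 2976) (nat_lit 1) (nat_lit 14))
    (@En.n l2568 (nat_lit 7743) (nat_lit 12) (nat_lit 9))
    (@En.n l17 (nat_lit 2520) (nat_lit 15) (nat_lit 2))))
  (@Cl.mk (nat_lit 0x20008000e000b0002000b000a000a000500080005000c00060006000e0004) (nat_lit 0x410005200050090) (nat_lit 16) Lb.e (@T16.mk En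
    (@En.i (nat_lit 2526) (nat_lit 4) (nat_lit 4))
    (@En.n l28291 (nat_lit 3315) (nat_lit 1) (nat_lit 14))
    (@En.n l3498 (nat_lit 2936) (nat_lit 10) (nat_lit 6))
    (@En.n l28318 (nat_lit 1981) (nat_lit 3) (nat_lit 6))
    (@En.n l564 (nat_lit 7560) (nat_lit 9) (nat_lit 12))
    (@En.n l420 (nat_lit 2516) (nat_lit 9) (nat_lit 5))
    (@En.i (nat_lit 13364) (nat_lit 10) (nat_lit 8))
    (@En.n l28291 (nat_lit 8096) (nat_lit 7) (nat_lit 5))
    (@En.n l28319 (nat_lit 2520) (nat_lit 9) (nat_lit 10))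
    (@En.n l12876 (nat_lit 899) (nat_lit 10) (nat_lit 10))
    (@En.i (nat_lit 2804) (nat_lit 11) (nat_lit 11))
    (@En.n l17 (nat_lit 2521) (nat_lit 11) (nat_lit 2))
    (@En.n l28320 (nat_lit 2524) (nat_lit 13) (nat_lit 11))
    (@En.n l1708 (nat_lit 2039) (nat_lit 1) (nat_lit 14))
    (@En.n l28321 (nat_lit 7748) (nat_lit 2) (nat_lit 8))
    (@En.n l28 (nat_lit 2521) (nat_lit 15) (nat_lit 2))))
  (@Cl.mk (nat_lit 0x20009000c000c000b00090004000400070005000b000e00070002000e0005) (nat_lit 0x550210000540010) (nat_lit 16) Lb.e (@T16.mk En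
    (@En.n l2131 (nat_lit 2525) (nat_lit 14) (nat_lit 5))
    (@En.n l1012 (nat_lit 776) (nat_lit 1) (nat_lit 14))
    (@En.n l7 (nat_lit 2522) (nat_lit 2) (nat_lit 2))
    (@En.i (nat_lit 2524) (nat_lit 3) (nat_lit 7))
    (@En.i (nat_lit 12968) (nat_lit 4) (nat_lit 14))
    (@En.n l5931 (nat_lit 7261) (nat_lit 2) (nat_lit 11))
    (@En.i (nat_lit 2490) (nat_lit 6) (nat_lit 5))
    (@En.n l476 (nat_lit 2520) (nat_lit 7) (nat_lit 7))
    (@En.n l152 (nat_lit 2520) (nat_lit 8) (nat_lit 4))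
    (@En.n l14623 (nat_lit 2791) (nat_lit 9) (nat_lit 4))
    (@En.n l55 (nat_lit 575) (nat_lit 11) (nat_lit 9))
    (@En.n l619 (nat_lit 2810) (nat_lit 12) (nat_lit 11))
    (@En.n l886 (nat_lit 2528) (nat_lit 4) (nat_lit 12))
    (@En.n l5374 (nat_lit 2965) (nat_lit 6) (nat_lit 12))
    (@En.i (nat_lit 7740) (nat_lit 12) (nat_lit 9))
    (@En.n l17 (nat_lit 2522) (nat_lit 15) (nat_lit 2))))
  (@Cl.mk (nat_lit 0x2000500050009000e000c0002000c0009000400070004000b000b000e0007) (nat_lit 0x4550210004510) (nat_lit 16) Lb.e (@T16.mk En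
    (@En.n l15195 (nat_lit 2526) (nat_lit 6) (nat_lit 7))
    (@En.n l3157 (nat_lit 2520) (nat_lit 4) (nat_lit 14))
    (@En.n l3158 (nat_lit 2520) (nat_lit 5) (nat_lit 11))
    (@En.n l9213 (nat_lit 7255) (nat_lit 3) (nat_lit 11))
    (@En.n l994 (nat_lit 2479) (nat_lit 4) (nat_lit 4))
    (@En.n l9593 (nat_lit 13570) (nat_lit 11) (nat_lit 7))
    (@En.i (nat_lit 2794) (nat_lit 6) (nat_lit 4))
    (@En.n l14778 (nat_lit 573) (nat_lit 14) (nat_lit 9))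
    (@En.n l4485 (nat_lit 2803) (nat_lit 9) (nat_lit 12))
    (@En.n l11 (nat_lit 2523) (nat_lit 9) (nat_lit 2))
    (@En.n l55 (nat_lit 2525) (nat_lit 11) (nat_lit 12))
    (@En.n l15196 (nat_lit 2970) (nat_lit 12) (nat_lit 14))
    (@En.n l8115 (nat_lit 7745) (nat_lit 13) (nat_lit 9))
    (@En.n l17 (nat_lit 3358) (nat_lit 14) (nat_lit 5))
    (@En.n l3633 (nat_lit 889) (nat_lit 13) (nat_lit 5))
    (@En.n l3 (nat_lit 2523) (nat_lit 15) (nat_lit 2))))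
  (@Cl.mk (nat_lit 0x20008000b000b000a000900090005000500080006000c00070007000e0004) (nat_lit 0x4980420010500a0) (nat_lit 16) Lb.e (@T16.mk En
    (@En.n l28816 (nat_lit 2527) (nat_lit 15) (nat_lit 4))
    (@En.n l28817 (nat_lit 3317) (nat_lit 1) (nat_lit 14))
    (@En.n l28818 (nat_lit 2930) (nat_lit 9) (nat_lit 7))
    (@En.i (nat_lit 1979) (nat_lit 3) (nat_lit 7))
    (@En.n l28819 (nat_lit 7558) (nat_lit 5) (nat_lit 12))
    (@En.n l2150 (nat_lit 2052) (nat_lit 5) (nat_lit 6))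
    (@En.n l28820 (nat_lit 2521) (nat_lit 6) (nat_lit 8))
    (@En.n l28821 (nat_lit 2521) (nat_lit 7) (nat_lit 5))
    (@En.n l28817 (nat_lit 8097) (nat_lit 8) (nat_lit 5))
    (@En.n l77 (nat_lit 2522) (nat_lit 10) (nat_lit 9))
    (@En.n l55 (nat_lit 897) (nat_lit 11) (nat_lit 9))
    (@En.n l28822 (nat_lit 2807) (nat_lit 12) (nat_lit 10))
    (@En.n l7393 (nat_lit 2935) (nat_lit 5) (nat_lit 11))
    (@En.n l2129 (nat_lit 2926) (nat_lit 7) (nat_lit 11))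
    (@En.n l11512 (nat_lit 7744) (nat_lit 14) (nat_lit 8))
    (@En.n l17 (nat_lit 2524) (nat_lit 15) (nat_lit 2))))
  (@Cl.mk (nat_lit 0x2000500050009000c000c000b00080004000400070005000b000b000e0008) (nat_lit 0x4402100005653) (nat_lit 16) Lb.e (@T16.mk En
    (@En.n l6198 (nat_lit 2527) (nat_lit 1) (nat_lit 8))
    (@En.n l6199 (nat_lit 2522) (nat_lit 4) (nat_lit 14))
    (@En.n l6200 (nat_lit 2522) (nat_lit 5) (nat_lit 11))
    (@En.n l6201 (nat_lit 7257) (nat_lit 3) (nat_lit 11))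
    (@En.n l6202 (nat_lit 2475) (nat_lit 4) (nat_lit 5))
    (@En.n l343 (nat_lit 2523) (nat_lit 5) (nat_lit 7))
    (@En.n l1577 (nat_lit 2523) (nat_lit 6) (nat_lit 4))
    (@En.i (nat_lit 2793) (nat_lit 7) (nat_lit 4))
    (@En.n l5990 (nat_lit 576) (nat_lit 0) (nat_lit 8))
    (@En.n l457 (nat_lit 2806) (nat_lit 10) (nat_lit 11))
    (@En.n l1578 (nat_lit 2529) (nat_lit 11) (nat_lit 12))
    (@En.n l6203 (nat_lit 2964) (nat_lit 12) (nat_lit 12))
    (@En.i (nat_lit 7741) (nat_lit 13) (nat_lit 9))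
    (@En.n l17 (nat_lit 3357) (nat_lit 14) (nat_lit 5))
    (@En.i (nat_lit 888) (nat_lit 13) (nat_lit 5))
    (@En.n l3 (nat_lit 2525) (nat_lit 15) (nat_lit 2))))
  (@Cl.mk (nat_lit 0x2000b00090009000500080005000c000c00070007000400040008000e000b) (nat_lit 0x12000360000680) (nat_lit 16) Lb.e (@T16.mk En
    (@En.n l14279 (nat_lit 2527) (nat_lit 12) (nat_lit 11))
    (@En.n l1708 (nat_lit 2915) (nat_lit 1) (nat_lit 14))
    (@En.n l14280 (nat_lit 7752) (nat_lit 2) (nat_lit 8))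
    (@En.n l14281 (nat_lit 3351) (nat_lit 12) (nat_lit 4))
    (@En.n l12589 (nat_lit 3348) (nat_lit 4) (nat_lit 4))
    (@En.n l14282 (nat_lit 2933) (nat_lit 9) (nat_lit 7))
    (@En.n l936 (nat_lit 3347) (nat_lit 6) (nat_lit 7))
    (@En.n l55 (nat_lit 2521) (nat_lit 4) (nat_lit 12))
    (@En.n l564 (nat_lit 7254) (nat_lit 9) (nat_lit 12))
    (@En.n l12589 (nat_lit 760) (nat_lit 9) (nat_lit 5))
    (@En.i (nat_lit 13574) (nat_lit 10) (nat_lit 8))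
    (@En.n l8380 (nat_lit 8129) (nat_lit 12) (nat_lit 5))
    (@En.n l14283 (nat_lit 2523) (nat_lit 7) (nat_lit 9))
    (@En.n l4770 (nat_lit 904) (nat_lit 14) (nat_lit 9))
    (@En.n l8316 (nat_lit 2799) (nat_lit 10) (nat_lit 11))
    (@En.n l17 (nat_lit 2526) (nat_lit 15) (nat_lit 2))))
  (@Cl.mk (nat_lit 0x400040008000b000b000a000800080005000500080006000c000c00080008) (nat_lit 0x69201200104623) (nat_lit 16) Lb.e (@T16.mk En
    (@En.n l2717 (nat_lit 2928) (nat_lit 8) (nat_lit 8))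
    (@En.n l867 (nat_lit 3302) (nat_lit 1) (nat_lit 8))
    (@En.n l15331 (nat_lit 2524) (nat_lit 4) (nat_lit 12))
    (@En.n l15332 (nat_lit 7256) (nat_lit 3) (nat_lit 12))
    (@En.n l15333 (nat_lit 2460) (nat_lit 4) (nat_lit 6))
    (@En.n l15334 (nat_lit 2526) (nat_lit 10) (nat_lit 8))
    (@En.n l15335 (nat_lit 2526) (nat_lit 11) (nat_lit 5))
    (@En.i (nat_lit 9576) (nat_lit 7) (nat_lit 5))
    (@En.n l8641 (nat_lit 2525) (nat_lit 8) (nat_lit 8))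
    (@En.n l15336 (nat_lit 903) (nat_lit 1) (nat_lit 8))
    (@En.n l15337 (nat_lit 2800) (nat_lit 6) (nat_lit 10))
    (@En.n l7896 (nat_lit 2934) (nat_lit 5) (nat_lit 11))
    (@En.n l15338 (nat_lit 2925) (nat_lit 7) (nat_lit 11))
    (@En.i (nat_lit 7751) (nat_lit 11) (nat_lit 8))
    (@En.n l50 (nat_lit 3352) (nat_lit 12) (nat_lit 4))
    (@En.n l15339 (nat_lit 3306) (nat_lit 0) (nat_lit 4))))
noncomputable def a158 : T16 Cl := @T16.mk Cl
  (@Cl.mk (nat_lit 0x200070006000b000e00080002000e000500020009000c000a0008000e0004) (nat_lit 0x60205004a01b0) (nat_lit 16) Lb.e (@T16.mk En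
    (@En.n l5933 (nat_lit 2522) (nat_lit 9) (nat_lit 4))
    (@En.n l998 (nat_lit 3239) (nat_lit 11) (nat_lit 14))
    (@En.n l2579 (nat_lit 893) (nat_lit 2) (nat_lit 8))
    (@En.n l5577 (nat_lit 2684) (nat_lit 3) (nat_lit 10))
    (@En.n l998 (nat_lit 2817) (nat_lit 6) (nat_lit 12))
    (@En.n l5612 (nat_lit 7739) (nat_lit 12) (nat_lit 9))
    (@En.n l3 (nat_lit 2528) (nat_lit 6) (nat_lit 2))
    (@En.n l21004 (nat_lit 2529) (nat_lit 14) (nat_lit 5))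
    (@En.n l3337 (nat_lit 2656) (nat_lit 1) (nat_lit 14))
    (@En.n l17 (nat_lit 2528) (nat_lit 9) (nat_lit 2))
    (@En.n l2869 (nat_lit 2935) (nat_lit 11) (nat_lit 8))
    (@En.n l998 (nat_lit 12971) (nat_lit 4) (nat_lit 14))
    (@En.n l998 (nat_lit 7565) (nat_lit 13) (nat_lit 11))
    (@En.n l5592 (nat_lit 2558) (nat_lit 14) (nat_lit 6))
    (@En.n l893 (nat_lit 2522) (nat_lit 7) (nat_lit 7))
    (@En.n l28 (nat_lit 2528) (nat_lit 15) (nat_lit 2))))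
  (@Cl.mk (nat_lit 0x2000500050009000c000a0007000e0004000200070006000b000b000e0009) (nat_lit 0x4a00b00005713) (nat_lit 16) Lb.e (@T16.mk En
    (@En.n l3247 (nat_lit 2934) (nat_lit 10) (nat_lit 9))
    (@En.n l2597 (nat_lit 2528) (nat_lit 11) (nat_lit 14))
    (@En.n l2598 (nat_lit 2528) (nat_lit 12) (nat_lit 11))
    (@En.n l969 (nat_lit 7567) (nat_lit 3) (nat_lit 11))
    (@En.n l801 (nat_lit 2063) (nat_lit 4) (nat_lit 6))
    (@En.n l536 (nat_lit 2525) (nat_lit 5) (nat_lit 7))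
    (@En.n l28 (nat_lit 2529) (nat_lit 6) (nat_lit 2))
    (@En.n l11 (nat_lit 2525) (nat_lit 7) (nat_lit 4))
    (@En.n l969 (nat_lit 3236) (nat_lit 9) (nat_lit 14))
    (@En.n l3256 (nat_lit 574) (nat_lit 2) (nat_lit 7))
    (@En.i (nat_lit 2629) (nat_lit 11) (nat_lit 10))
    (@En.n l969 (nat_lit 2818) (nat_lit 12) (nat_lit 12))
    (@En.n l3256 (nat_lit 7415) (nat_lit 13) (nat_lit 9))
    (@En.n l17 (nat_lit 3356) (nat_lit 14) (nat_lit 5))
    (@En.n l4011 (nat_lit 2657) (nat_lit 7) (nat_lit 5))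
    (@En.n l3 (nat_lit 2529) (nat_lit 15) (nat_lit 2))))
  (@Cl.mk (nat_lit 0x20005000b00060005000b000e00050002000e00050002000b000a000e000b) (nat_lit 0x1002c001007841) (nat_lit 16) Lb.e (@T16.mk En
    (@En.n l896 (nat_lit 2490) (nat_lit 12) (nat_lit 11))
    (@En.n l7 (nat_lit 2531) (nat_lit 13) (nat_lit 14))
    (@En.n l644 (nat_lit 2174) (nat_lit 14) (nat_lit 10))
    (@En.n l893 (nat_lit 1663) (nat_lit 3) (nat_lit 11))
    (@En.n l3 (nat_lit 2530) (nat_lit 4) (nat_lit 2))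
    (@En.i (nat_lit 2464) (nat_lit 14) (nat_lit 5))
    (@En.n l2867 (nat_lit 770) (nat_lit 7) (nat_lit 14))
    (@En.n l17 (nat_lit 2530) (nat_lit 7) (nat_lit 2))
    (@En.n l892 (nat_lit 2463) (nat_lit 8) (nat_lit 5))
    (@En.n l893 (nat_lit 13184) (nat_lit 4) (nat_lit 14))
    (@En.n l1998 (nat_lit 12658) (nat_lit 11) (nat_lit 11))
    (@En.n l893 (nat_lit 744) (nat_lit 6) (nat_lit 5))
    (@En.i (nat_lit 2684) (nat_lit 13) (nat_lit 6))
    (@En.n l893 (nat_lit 1026) (nat_lit 9) (nat_lit 11))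
    (@En.n l2868 (nat_lit 2519) (nat_lit 9) (nat_lit 5))
    (@En.n l11 (nat_lit 2530) (nat_lit 15) (nat_lit 2))))
  (@Cl.mk (nat_lit 0x2000b000e000a0002000d0005000b00030006000b000e00050002000e0005) (nat_lit 0x931080300150010) (nat_lit 16) Lb.e (@T16.mk En
    (@En.i (nat_lit 2482) (nat_lit 14) (nat_lit 5))
    (@En.i (nat_lit 772) (nat_lit 1) (nat_lit 14))
    (@En.n l17 (nat_lit 2531) (nat_lit 2) (nat_lit 2))
    (@En.n l2869 (nat_lit 2532) (nat_lit 3) (nat_lit 5))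
    (@En.n l2036 (nat_lit 13185) (nat_lit 4) (nat_lit 14))
    (@En.n l1998 (nat_lit 33) (nat_lit 2) (nat_lit 11))
    (@En.i (nat_lit 742) (nat_lit 12) (nat_lit 6))
    (@En.i (nat_lit 2174) (nat_lit 7) (nat_lit 3))
    (@En.n l1998 (nat_lit 1273) (nat_lit 0) (nat_lit 11))
    (@En.i (nat_lit 2530) (nat_lit 14) (nat_lit 5))
    (@En.i (nat_lit 2175) (nat_lit 11) (nat_lit 13))
    (@En.n l11 (nat_lit 2531) (nat_lit 11) (nat_lit 2))
    (@En.n l1578 (nat_lit 2175) (nat_lit 13) (nat_lit 10))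
    (@En.i (nat_lit 3396) (nat_lit 4) (nat_lit 14))
    (@En.i (nat_lit 1664) (nat_lit 12) (nat_lit 11))
    (@En.n l3 (nat_lit 2531) (nat_lit 15) (nat_lit 2))))
  (@Cl.mk (nat_lit 0x2000b000e00090002000c0005000b000b00040007000c00050005000e0004) (nat_lit 0x631020640020040) (nat_lit 16) Lb.e (@T16.mk En
    (@En.i (nat_lit 2462) (nat_lit 4) (nat_lit 4))
    (@En.n l8367 (nat_lit 2430) (nat_lit 1) (nat_lit 14))
    (@En.n l152 (nat_lit 1791) (nat_lit 11) (nat_lit 5))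
    (@En.i (nat_lit 1675) (nat_lit 7) (nat_lit 5))
    (@En.i (nat_lit 12660) (nat_lit 9) (nat_lit 12))
    (@En.i (nat_lit 750) (nat_lit 11) (nat_lit 7))
    (@En.n l1643 (nat_lit 3463) (nat_lit 6) (nat_lit 4))
    (@En.n l1867 (nat_lit 2531) (nat_lit 8) (nat_lit 11))
    (@En.n l19836 (nat_lit 6787) (nat_lit 9) (nat_lit 11))
    (@En.n l699 (nat_lit 2463) (nat_lit 14) (nat_lit 5))
    (@En.n l6042 (nat_lit 2435) (nat_lit 11) (nat_lit 12))
    (@En.n l50 (nat_lit 2532) (nat_lit 11) (nat_lit 2))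
    (@En.i (nat_lit 2435) (nat_lit 13) (nat_lit 9))
    (@En.i (nat_lit 3440) (nat_lit 4) (nat_lit 14))
    (@En.i (nat_lit 424) (nat_lit 2) (nat_lit 11))
    (@En.n l28 (nat_lit 2532) (nat_lit 15) (nat_lit 2))))
  (@Cl.mk (nat_lit 0x20009000e00090002000c000a000a000700040007000c00060006000e0004) (nat_lit 0x6310155000300b0) (nat_lit 16) Lb.e (@T16.mk En
    (@En.i (nat_lit 2838) (nat_lit 4) (nat_lit 4))
    (@En.n l2038 (nat_lit 2447) (nat_lit 1) (nat_lit 14))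
    (@En.n l152 (nat_lit 1795) (nat_lit 10) (nat_lit 6))
    (@En.i (nat_lit 1989) (nat_lit 3) (nat_lit 6))
    (@En.n l19837 (nat_lit 12665) (nat_lit 9) (nat_lit 12))
    (@En.i (nat_lit 3245) (nat_lit 5) (nat_lit 7))
    (@En.n l420 (nat_lit 2532) (nat_lit 6) (nat_lit 4))
    (@En.i (nat_lit 6788) (nat_lit 7) (nat_lit 7))
    (@En.n l8381 (nat_lit 2174) (nat_lit 9) (nat_lit 10))
    (@En.i (nat_lit 8280) (nat_lit 14) (nat_lit 10))
    (@En.n l1738 (nat_lit 2167) (nat_lit 11) (nat_lit 12))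
    (@En.n l18 (nat_lit 2533) (nat_lit 11) (nat_lit 2))
    (@En.i (nat_lit 2167) (nat_lit 13) (nat_lit 9))
    (@En.n l396 (nat_lit 3390) (nat_lit 1) (nat_lit 14))
    (@En.n l3506 (nat_lit 2024) (nat_lit 2) (nat_lit 9))
    (@En.n l28 (nat_lit 2533) (nat_lit 15) (nat_lit 2))))
  (@Cl.mk (nat_lit 0x2000a0005000b0005000a000d000600050003000e00060002000b000e000b) (nat_lit 0x302000000a00930) (nat_lit 16) Lb.e (@T16.mk En
    (@En.n l8443 (nat_lit 6712) (nat_lit 13) (nat_lit 11))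
    (@En.i (nat_lit 4971) (nat_lit 4) (nat_lit 14))
    (@En.n l5856 (nat_lit 9528) (nat_lit 2) (nat_lit 11))
    (@En.n l3 (nat_lit 2534) (nat_lit 3) (nat_lit 2))
    (@En.i (nat_lit 2536) (nat_lit 4) (nat_lit 6))
    (@En.n l19838 (nat_lit 6421) (nat_lit 1) (nat_lit 14))
    (@En.n l14126 (nat_lit 2538) (nat_lit 6) (nat_lit 3))
    (@En.i (nat_lit 2531) (nat_lit 3) (nat_lit 5))
    (@En.n l2893 (nat_lit 8280) (nat_lit 8) (nat_lit 6))
    (@En.n l19839 (nat_lit 13188) (nat_lit 5) (nat_lit 13))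
    (@En.n l5856 (nat_lit 12047) (nat_lit 11) (nat_lit 10))
    (@En.n l998 (nat_lit 5393) (nat_lit 7) (nat_lit 5))
    (@En.n l5856 (nat_lit 1266) (nat_lit 9) (nat_lit 11))
    (@En.n l3020 (nat_lit 2535) (nat_lit 14) (nat_lit 5))
    (@En.n l3047 (nat_lit 6815) (nat_lit 11) (nat_lit 10))
    (@En.n l11 (nat_lit 2534) (nat_lit 15) (nat_lit 2))))
  (@Cl.mk (nat_lit 0x20005000b0004000a000d000900050003000e00060002000b0007000e000c) (nat_lit 0x10000009005040) (nat_lit 16) Lb.e (@T16.mk En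
    (@En.n l8809 (nat_lit 6702) (nat_lit 12) (nat_lit 12))
    (@En.n l8810 (nat_lit 2534) (nat_lit 1) (nat_lit 14))
    (@En.n l8811 (nat_lit 1277) (nat_lit 14) (nat_lit 7))
    (@En.n l8812 (nat_lit 9493) (nat_lit 3) (nat_lit 11))
    (@En.n l7 (nat_lit 2535) (nat_lit 4) (nat_lit 2))
    (@En.n l50 (nat_lit 2537) (nat_lit 5) (nat_lit 6))
    (@En.i (nat_lit 6420) (nat_lit 7) (nat_lit 14))
    (@En.n l8813 (nat_lit 2539) (nat_lit 7) (nat_lit 3))
    (@En.n l8814 (nat_lit 2530) (nat_lit 8) (nat_lit 5))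
    (@En.n l859 (nat_lit 7352) (nat_lit 10) (nat_lit 9))
    (@En.n l8815 (nat_lit 13194) (nat_lit 5) (nat_lit 13))
    (@En.n l8816 (nat_lit 12042) (nat_lit 12) (nat_lit 10))
    (@En.n l8817 (nat_lit 5399) (nat_lit 7) (nat_lit 4))
    (@En.n l8812 (nat_lit 1058) (nat_lit 9) (nat_lit 11))
    (@En.n l8818 (nat_lit 6614) (nat_lit 9) (nat_lit 5))
    (@En.n l3 (nat_lit 2535) (nat_lit 15) (nat_lit 2))))
  (@Cl.mk (nat_lit 0x200090005000a0005000a000a000d00070006000300060006000b000e000b) (nat_lit 0x402001100000920) (nat_lit 16) Lb.e (@T16.mk En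
    (@En.n l8443 (nat_lit 6711) (nat_lit 11) (nat_lit 11))
    (@En.i (nat_lit 4973) (nat_lit 4) (nat_lit 14))
    (@En.n l897 (nat_lit 9527) (nat_lit 2) (nat_lit 11))
    (@En.n l8444 (nat_lit 6776) (nat_lit 3) (nat_lit 6))
    (@En.n l8445 (nat_lit 7646) (nat_lit 4) (nat_lit 6))
    (@En.n l8446 (nat_lit 2540) (nat_lit 5) (nat_lit 3))
    (@En.i (nat_lit 2482) (nat_lit 0) (nat_lit 6))
    (@En.n l8447 (nat_lit 9253) (nat_lit 7) (nat_lit 7))
    (@En.n l476 (nat_lit 2534) (nat_lit 9) (nat_lit 13))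
    (@En.n l152 (nat_lit 2534) (nat_lit 10) (nat_lit 10))
    (@En.n l5856 (nat_lit 12048) (nat_lit 11) (nat_lit 10))
    (@En.n l998 (nat_lit 5391) (nat_lit 5) (nat_lit 5))
    (@En.n l5856 (nat_lit 1267) (nat_lit 13) (nat_lit 10))
    (@En.n l8448 (nat_lit 2537) (nat_lit 14) (nat_lit 5))
    (@En.n l8449 (nat_lit 6814) (nat_lit 9) (nat_lit 9))
    (@En.n l11 (nat_lit 2536) (nat_lit 15) (nat_lit 2))))
  (@Cl.mk (nat_lit 0x20005000a0004000a000a000d000a0006000300060006000b0006000e000c) (nat_lit 0x10011000009030) (nat_lit 16) Lb.e (@T16.mk En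
    (@En.n l3221 (nat_lit 6659) (nat_lit 10) (nat_lit 12))
    (@En.n l3222 (nat_lit 2536) (nat_lit 1) (nat_lit 14))
    (@En.n l3223 (nat_lit 1278) (nat_lit 2) (nat_lit 6))
    (@En.n l3224 (nat_lit 9499) (nat_lit 3) (nat_lit 11))
    (@En.n l3225 (nat_lit 6778) (nat_lit 4) (nat_lit 6))
    (@En.n l3226 (nat_lit 7647) (nat_lit 5) (nat_lit 6))
    (@En.n l3227 (nat_lit 2541) (nat_lit 6) (nat_lit 3))
    (@En.n l3228 (nat_lit 2464) (nat_lit 0) (nat_lit 6))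
    (@En.n l3229 (nat_lit 7350) (nat_lit 9) (nat_lit 10))
    (@En.i (nat_lit 2535) (nat_lit 10) (nat_lit 13))
    (@En.n l3230 (nat_lit 2535) (nat_lit 11) (nat_lit 10))
    (@En.n l3231 (nat_lit 12045) (nat_lit 12) (nat_lit 10))
    (@En.n l3232 (nat_lit 5394) (nat_lit 13) (nat_lit 4))
    (@En.n l3233 (nat_lit 1059) (nat_lit 14) (nat_lit 10))
    (@En.i (nat_lit 6613) (nat_lit 13) (nat_lit 5))
    (@En.n l3 (nat_lit 2537) (nat_lit 15) (nat_lit 2))))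
  (@Cl.mk (nat_lit 0x200090005000c0005000a000d000400070003000e00060002000b000e000b) (nat_lit 0x409000000900930) (nat_lit 16) Lb.e (@T16.mk En
    (@En.n l35551 (nat_lit 6713) (nat_lit 13) (nat_lit 11))
    (@En.n l18476 (nat_lit 4879) (nat_lit 4) (nat_lit 14))
    (@En.i (nat_lit 9529) (nat_lit 2) (nat_lit 11))
    (@En.n l3 (nat_lit 2538) (nat_lit 3) (nat_lit 2))
    (@En.n l35552 (nat_lit 2540) (nat_lit 4) (nat_lit 6))
    (@En.n l35553 (nat_lit 8187) (nat_lit 1) (nat_lit 14))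
    (@En.n l5694 (nat_lit 2534) (nat_lit 6) (nat_lit 3))
    (@En.n l35554 (nat_lit 3026) (nat_lit 11) (nat_lit 7))
    (@En.n l22424 (nat_lit 8989) (nat_lit 8) (nat_lit 4))
    (@En.n l35555 (nat_lit 13873) (nat_lit 5) (nat_lit 13))
    (@En.n l10142 (nat_lit 12044) (nat_lit 11) (nat_lit 10))
    (@En.n l28636 (nat_lit 6676) (nat_lit 7) (nat_lit 5))
    (@En.n l3337 (nat_lit 2542) (nat_lit 9) (nat_lit 12))
    (@En.i (nat_lit 2539) (nat_lit 14) (nat_lit 5))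
    (@En.n l18474 (nat_lit 5107) (nat_lit 11) (nat_lit 9))
    (@En.n l11 (nat_lit 2538) (nat_lit 15) (nat_lit 2))))
  (@Cl.mk (nat_lit 0x20005000c0004000a000d0004000a0003000e00060002000b0006000e000c) (nat_lit 0x80000009009040) (nat_lit 16) Lb.e (@T16.mk En
    (@En.n l7256 (nat_lit 6656) (nat_lit 12) (nat_lit 12))
    (@En.n l17 (nat_lit 2538) (nat_lit 1) (nat_lit 14))
    (@En.n l2199 (nat_lit 2542) (nat_lit 14) (nat_lit 6))
    (@En.i (nat_lit 9497) (nat_lit 3) (nat_lit 11))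
    (@En.n l3 (nat_lit 2539) (nat_lit 4) (nat_lit 2))
    (@En.n l11856 (nat_lit 2541) (nat_lit 5) (nat_lit 6))
    (@En.n l3870 (nat_lit 8186) (nat_lit 7) (nat_lit 14))
    (@En.n l3870 (nat_lit 2535) (nat_lit 7) (nat_lit 3))
    (@En.n l3869 (nat_lit 2765) (nat_lit 9) (nat_lit 10))
    (@En.n l20934 (nat_lit 8987) (nat_lit 9) (nat_lit 4))
    (@En.n l2544 (nat_lit 13871) (nat_lit 5) (nat_lit 13))
    (@En.n l3348 (nat_lit 12040) (nat_lit 12) (nat_lit 10))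
    (@En.n l20935 (nat_lit 6677) (nat_lit 7) (nat_lit 4))
    (@En.n l617 (nat_lit 5143) (nat_lit 9) (nat_lit 12))
    (@En.i (nat_lit 6601) (nat_lit 9) (nat_lit 5))
    (@En.n l11 (nat_lit 2539) (nat_lit 15) (nat_lit 2))))
  (@Cl.mk (nat_lit 0x200080005000b0005000a000a000d00050008000300060006000b000e000b) (nat_lit 0x308001104000920) (nat_lit 16) Lb.e (@T16.mk En
    (@En.i (nat_lit 6714) (nat_lit 11) (nat_lit 11))
    (@En.n l20010 (nat_lit 4877) (nat_lit 4) (nat_lit 14))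
    (@En.n l20011 (nat_lit 8078) (nat_lit 2) (nat_lit 11))
    (@En.n l20012 (nat_lit 6780) (nat_lit 3) (nat_lit 6))
    (@En.n l20013 (nat_lit 7669) (nat_lit 12) (nat_lit 6))
    (@En.n l20014 (nat_lit 2536) (nat_lit 5) (nat_lit 3))
    (@En.i (nat_lit 3021) (nat_lit 0) (nat_lit 8))
    (@En.n l20015 (nat_lit 7650) (nat_lit 7) (nat_lit 5))
    (@En.n l20016 (nat_lit 2538) (nat_lit 9) (nat_lit 13))
    (@En.n l20017 (nat_lit 2538) (nat_lit 10) (nat_lit 10))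
    (@En.n l20018 (nat_lit 12046) (nat_lit 11) (nat_lit 10))
    (@En.n l20019 (nat_lit 5396) (nat_lit 5) (nat_lit 5))
    (@En.n l20020 (nat_lit 2543) (nat_lit 13) (nat_lit 11))
    (@En.n l20021 (nat_lit 2541) (nat_lit 14) (nat_lit 5))
    (@En.n l20011 (nat_lit 5103) (nat_lit 9) (nat_lit 8))
    (@En.n l8 (nat_lit 2540) (nat_lit 15) (nat_lit 2))))
  (@Cl.mk (nat_lit 0x20005000b0004000a000a000d0005000b000300060006000b0005000e000c) (nat_lit 0x80011030009030) (nat_lit 16) Lb.e (@T16.mk En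
    (@En.n l9437 (nat_lit 6655) (nat_lit 10) (nat_lit 12))
    (@En.n l9438 (nat_lit 2540) (nat_lit 1) (nat_lit 14))
    (@En.n l9439 (nat_lit 2543) (nat_lit 2) (nat_lit 5))
    (@En.i (nat_lit 8077) (nat_lit 3) (nat_lit 11))
    (@En.n l252 (nat_lit 6781) (nat_lit 4) (nat_lit 6))
    (@En.n l4418 (nat_lit 7670) (nat_lit 5) (nat_lit 6))
    (@En.n l4416 (nat_lit 2537) (nat_lit 6) (nat_lit 3))
    (@En.n l9440 (nat_lit 2638) (nat_lit 0) (nat_lit 11))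
    (@En.n l4421 (nat_lit 7649) (nat_lit 8) (nat_lit 5))
    (@En.n l4422 (nat_lit 2539) (nat_lit 10) (nat_lit 13))
    (@En.n l4423 (nat_lit 2539) (nat_lit 11) (nat_lit 10))
    (@En.n l2039 (nat_lit 12039) (nat_lit 12) (nat_lit 10))
    (@En.n l6118 (nat_lit 5971) (nat_lit 13) (nat_lit 4))
    (@En.n l6908 (nat_lit 5140) (nat_lit 14) (nat_lit 11))
    (@En.n l9440 (nat_lit 6597) (nat_lit 13) (nat_lit 5))
    (@En.n l3 (nat_lit 2541) (nat_lit 15) (nat_lit 2))))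
  (@Cl.mk (nat_lit 0x20006000e000c00020009000c00040009000c0004000a00070004000e0007) (nat_lit 0x200480000300a0) (nat_lit 16) Lb.e (@T16.mk En
    (@En.i (nat_lit 2543) (nat_lit 4) (nat_lit 7))
    (@En.n l1578 (nat_lit 8188) (nat_lit 1) (nat_lit 14))
    (@En.n l3340 (nat_lit 1266) (nat_lit 2) (nat_lit 4))
    (@En.n l2571 (nat_lit 2538) (nat_lit 7) (nat_lit 7))
    (@En.n l4991 (nat_lit 1028) (nat_lit 4) (nat_lit 10))
    (@En.n l7645 (nat_lit 8988) (nat_lit 5) (nat_lit 4))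
    (@En.i (nat_lit 13875) (nat_lit 6) (nat_lit 12))
    (@En.n l3340 (nat_lit 12370) (nat_lit 12) (nat_lit 9))
    (@En.n l4991 (nat_lit 6801) (nat_lit 8) (nat_lit 4))
    (@En.i (nat_lit 5381) (nat_lit 6) (nat_lit 12))
    (@En.n l2571 (nat_lit 5102) (nat_lit 11) (nat_lit 9))
    (@En.n l50 (nat_lit 2542) (nat_lit 11) (nat_lit 2))
    (@En.n l564 (nat_lit 6804) (nat_lit 13) (nat_lit 12))
    (@En.n l13339 (nat_lit 4878) (nat_lit 1) (nat_lit 14))
    (@En.i (nat_lit 7355) (nat_lit 2) (nat_lit 6))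
    (@En.n l28 (nat_lit 2542) (nat_lit 15) (nat_lit 2))))
  (@Cl.mk (nat_lit 0x20008000b000400090009000c0005000b00080004000700070005000e000c) (nat_lit 0x370011045000030) (nat_lit 16) Lb.e (@T16.mk En
    (@En.n l564 (nat_lit 6784) (nat_lit 3) (nat_lit 12))
    (@En.n l13339 (nat_lit 4876) (nat_lit 1) (nat_lit 14))
    (@En.n l2037 (nat_lit 7353) (nat_lit 2) (nat_lit 5))
    (@En.n l13340 (nat_lit 6782) (nat_lit 3) (nat_lit 7))
    (@En.n l13341 (nat_lit 7668) (nat_lit 11) (nat_lit 7))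
    (@En.n l3340 (nat_lit 1267) (nat_lit 5) (nat_lit 4))
    (@En.n l13342 (nat_lit 2540) (nat_lit 6) (nat_lit 8))
    (@En.n l13343 (nat_lit 1025) (nat_lit 8) (nat_lit 11))
    (@En.n l13344 (nat_lit 7651) (nat_lit 8) (nat_lit 5))
    (@En.n l11 (nat_lit 2542) (nat_lit 6) (nat_lit 12))
    (@En.n l55 (nat_lit 2542) (nat_lit 7) (nat_lit 9))
    (@En.n l3340 (nat_lit 12587) (nat_lit 12) (nat_lit 9))
    (@En.n l13345 (nat_lit 6802) (nat_lit 13) (nat_lit 4))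
    (@En.i (nat_lit 5379) (nat_lit 7) (nat_lit 11))
    (@En.n l13346 (nat_lit 5099) (nat_lit 1) (nat_lit 8))
    (@En.n l50 (nat_lit 2543) (nat_lit 15) (nat_lit 2))))
noncomputable def a159 : T16 Cl := @T16.mk Cl
  (@Cl.mk (nat_lit 0x2000900090004000d0009000c0003000700070004000e00070002000e000c) (nat_lit 0x33087a000040047) (nat_lit 16) Lb.e (@T16.mk En
    (@En.n l1121 (nat_lit 2436) (nat_lit 14) (nat_lit 12))
    (@En.i (nat_lit 12292) (nat_lit 1) (nat_lit 14))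
    (@En.n l17 (nat_lit 2544) (nat_lit 2) (nat_lit 2))
    (@En.n l1122 (nat_lit 2162) (nat_lit 3) (nat_lit 7))
    (@En.n l1123 (nat_lit 2057) (nat_lit 1) (nat_lit 14))
    (@En.i (nat_lit 6350) (nat_lit 5) (nat_lit 4))
    (@En.n l44 (nat_lit 2486) (nat_lit 9) (nat_lit 7))
    (@En.n l514 (nat_lit 6753) (nat_lit 7) (nat_lit 7))
    (@En.n l1124 (nat_lit 2545) (nat_lit 8) (nat_lit 3))
    (@En.i (nat_lit 13378) (nat_lit 6) (nat_lit 12))
    (@En.n l1122 (nat_lit 2552) (nat_lit 11) (nat_lit 9))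
    (@En.n l1125 (nat_lit 1684) (nat_lit 12) (nat_lit 13))
    (@En.n l1126 (nat_lit 2441) (nat_lit 9) (nat_lit 4))
    (@En.n l1127 (nat_lit 2158) (nat_lit 7) (nat_lit 9))
    (@En.i (nat_lit 2608) (nat_lit 12) (nat_lit 9))
    (@En.n l3 (nat_lit 2544) (nat_lit 15) (nat_lit 2))))
  (@Cl.mk (nat_lit 0x2000900090004000d000b000a0003000700070005000e00060002000e000c) (nat_lit 0x340878000060047) (nat_lit 16) Lb.e (@T16.mk En
    (@En.n l217 (nat_lit 2438) (nat_lit 14) (nat_lit 12))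
    (@En.n l762 (nat_lit 12293) (nat_lit 1) (nat_lit 14))
    (@En.n l28 (nat_lit 2545) (nat_lit 2) (nat_lit 2))
    (@En.n l3730 (nat_lit 2474) (nat_lit 3) (nat_lit 6))
    (@En.n l1578 (nat_lit 2056) (nat_lit 1) (nat_lit 14))
    (@En.n l762 (nat_lit 8214) (nat_lit 5) (nat_lit 5))
    (@En.n l3731 (nat_lit 2480) (nat_lit 9) (nat_lit 7))
    (@En.n l3732 (nat_lit 7344) (nat_lit 7) (nat_lit 7))
    (@En.n l762 (nat_lit 2544) (nat_lit 8) (nat_lit 3))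
    (@En.n l575 (nat_lit 2546) (nat_lit 0) (nat_lit 10))
    (@En.n l2569 (nat_lit 2161) (nat_lit 11) (nat_lit 11))
    (@En.n l3733 (nat_lit 1687) (nat_lit 12) (nat_lit 13))
    (@En.i (nat_lit 2600) (nat_lit 9) (nat_lit 4))
    (@En.n l764 (nat_lit 1841) (nat_lit 7) (nat_lit 9))
    (@En.n l847 (nat_lit 2605) (nat_lit 12) (nat_lit 9))
    (@En.n l50 (nat_lit 2545) (nat_lit 15) (nat_lit 2))))
  (@Cl.mk (nat_lit 0x200060006000d000d000600030003000e000c0002000a000a0004000e000a) (nat_lit 0x35000260330b7) (nat_lit 16) Lb.e (@T16.mk En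
    (@En.n l844 (nat_lit 2549) (nat_lit 11) (nat_lit 10))
    (@En.n l845 (nat_lit 2031) (nat_lit 1) (nat_lit 14))
    (@En.i (nat_lit 3507) (nat_lit 2) (nat_lit 4))
    (@En.n l846 (nat_lit 1837) (nat_lit 14) (nat_lit 10))
    (@En.n l847 (nat_lit 3490) (nat_lit 4) (nat_lit 10))
    (@En.n l50 (nat_lit 2546) (nat_lit 5) (nat_lit 2))
    (@En.n l217 (nat_lit 1843) (nat_lit 7) (nat_lit 12))
    (@En.n l848 (nat_lit 12562) (nat_lit 8) (nat_lit 14))
    (@En.n l849 (nat_lit 2547) (nat_lit 8) (nat_lit 3))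
    (@En.n l11 (nat_lit 2548) (nat_lit 9) (nat_lit 3))
    (@En.n l850 (nat_lit 2057) (nat_lit 0) (nat_lit 6))
    (@En.n l55 (nat_lit 2548) (nat_lit 12) (nat_lit 13))
    (@En.i (nat_lit 8638) (nat_lit 13) (nat_lit 13))
    (@En.n l851 (nat_lit 2500) (nat_lit 10) (nat_lit 6))
    (@En.n l852 (nat_lit 7337) (nat_lit 8) (nat_lit 6))
    (@En.n l3 (nat_lit 2546) (nat_lit 15) (nat_lit 2))))
  (@Cl.mk (nat_lit 0x200060006000e000d000200070003000e000c0002000a000a0004000e0009) (nat_lit 0x44000680320a7) (nat_lit 16) Lb.e (@T16.mk En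
    (@En.n l305 (nat_lit 2551) (nat_lit 5) (nat_lit 9))
    (@En.n l306 (nat_lit 2911) (nat_lit 1) (nat_lit 14))
    (@En.n l307 (nat_lit 3510) (nat_lit 2) (nat_lit 4))
    (@En.n l308 (nat_lit 1840) (nat_lit 9) (nat_lit 10))
    (@En.n l309 (nat_lit 3487) (nat_lit 4) (nat_lit 10))
    (@En.n l3 (nat_lit 2547) (nat_lit 5) (nat_lit 2))
    (@En.n l310 (nat_lit 2563) (nat_lit 12) (nat_lit 12))
    (@En.i (nat_lit 12527) (nat_lit 8) (nat_lit 14))
    (@En.n l311 (nat_lit 2546) (nat_lit 8) (nat_lit 3))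
    (@En.i (nat_lit 2544) (nat_lit 3) (nat_lit 7))
    (@En.n l18 (nat_lit 2547) (nat_lit 10) (nat_lit 2))
    (@En.n l312 (nat_lit 2546) (nat_lit 12) (nat_lit 13))
    (@En.n l313 (nat_lit 8647) (nat_lit 13) (nat_lit 14))
    (@En.n l25 (nat_lit 2628) (nat_lit 10) (nat_lit 6))
    (@En.n l314 (nat_lit 7348) (nat_lit 3) (nat_lit 6))
    (@En.n l28 (nat_lit 2547) (nat_lit 15) (nat_lit 2))))
  (@Cl.mk (nat_lit 0x200060006000d0005000e00030002000e000c0002000a000a0004000e000b) (nat_lit 0x4060057032077) (nat_lit 16) Lb.e (@T16.mk En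
    (@En.n l2569 (nat_lit 2550) (nat_lit 11) (nat_lit 11))
    (@En.n l763 (nat_lit 2034) (nat_lit 1) (nat_lit 14))
    (@En.i (nat_lit 3500) (nat_lit 2) (nat_lit 4))
    (@En.n l764 (nat_lit 1836) (nat_lit 14) (nat_lit 10))
    (@En.n l847 (nat_lit 3496) (nat_lit 4) (nat_lit 10))
    (@En.n l50 (nat_lit 2548) (nat_lit 5) (nat_lit 2))
    (@En.n l217 (nat_lit 3508) (nat_lit 7) (nat_lit 12))
    (@En.n l848 (nat_lit 12563) (nat_lit 1) (nat_lit 14))
    (@En.n l28 (nat_lit 2548) (nat_lit 8) (nat_lit 2))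
    (@En.i (nat_lit 2546) (nat_lit 9) (nat_lit 3))
    (@En.n l848 (nat_lit 13900) (nat_lit 0) (nat_lit 14))
    (@En.i (nat_lit 2545) (nat_lit 5) (nat_lit 5))
    (@En.i (nat_lit 8636) (nat_lit 13) (nat_lit 13))
    (@En.n l2570 (nat_lit 2499) (nat_lit 10) (nat_lit 6))
    (@En.i (nat_lit 7336) (nat_lit 8) (nat_lit 6))
    (@En.n l3 (nat_lit 2548) (nat_lit 15) (nat_lit 2))))
  (@Cl.mk (nat_lit 0x2000b000b0004000a000a00050005000c000c0006000600040004000e000c) (nat_lit 0x630600000000000) (nat_lit 16) Lb.e (@T16.mk En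
    (@En.n l601 (nat_lit 2555) (nat_lit 3) (nat_lit 12))
    (@En.n l2747 (nat_lit 11555) (nat_lit 1) (nat_lit 14))
    (@En.n l11 (nat_lit 2551) (nat_lit 12) (nat_lit 4))
    (@En.n l2710 (nat_lit 2554) (nat_lit 3) (nat_lit 4))
    (@En.n l2748 (nat_lit 2546) (nat_lit 10) (nat_lit 6))
    (@En.i (nat_lit 2553) (nat_lit 5) (nat_lit 6))
    (@En.n l2749 (nat_lit 2550) (nat_lit 7) (nat_lit 12))
    (@En.n l2750 (nat_lit 8648) (nat_lit 8) (nat_lit 12))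
    (@En.n l2751 (nat_lit 2557) (nat_lit 11) (nat_lit 5))
    (@En.i (nat_lit 6862) (nat_lit 9) (nat_lit 5))
    (@En.n l282 (nat_lit 2708) (nat_lit 6) (nat_lit 10))
    (@En.n l2752 (nat_lit 8973) (nat_lit 12) (nat_lit 10))
    (@En.n l2750 (nat_lit 3480) (nat_lit 13) (nat_lit 4))
    (@En.n l61 (nat_lit 2556) (nat_lit 14) (nat_lit 11))
    (@En.n l2753 (nat_lit 3483) (nat_lit 1) (nat_lit 11))
    (@En.n l7 (nat_lit 2549) (nat_lit 15) (nat_lit 2))))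
  (@Cl.mk (nat_lit 0x2000b000b0004000b000b00050005000c00050005000e00040002000e000c) (nat_lit 0x7406000a0050080) (nat_lit 16) Lb.e (@T16.mk En
    (@En.n l7639 (nat_lit 2703) (nat_lit 14) (nat_lit 12))
    (@En.n l7640 (nat_lit 12084) (nat_lit 1) (nat_lit 14))
    (@En.n l7 (nat_lit 2550) (nat_lit 2) (nat_lit 2))
    (@En.n l345 (nat_lit 2549) (nat_lit 3) (nat_lit 4))
    (@En.n l427 (nat_lit 3009) (nat_lit 1) (nat_lit 14))
    (@En.n l2813 (nat_lit 2548) (nat_lit 11) (nat_lit 5))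
    (@En.i (nat_lit 2161) (nat_lit 6) (nat_lit 5))
    (@En.n l3852 (nat_lit 8324) (nat_lit 8) (nat_lit 12))
    (@En.n l152 (nat_lit 2866) (nat_lit 11) (nat_lit 5))
    (@En.n l427 (nat_lit 6860) (nat_lit 9) (nat_lit 5))
    (@En.n l133 (nat_lit 2707) (nat_lit 11) (nat_lit 11))
    (@En.n l4288 (nat_lit 8975) (nat_lit 12) (nat_lit 11))
    (@En.n l3852 (nat_lit 3476) (nat_lit 9) (nat_lit 4))
    (@En.n l3536 (nat_lit 2705) (nat_lit 14) (nat_lit 11))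
    (@En.n l7641 (nat_lit 3478) (nat_lit 12) (nat_lit 11))
    (@En.n l18 (nat_lit 2550) (nat_lit 15) (nat_lit 2))))
  (@Cl.mk (nat_lit 0x2000700070004000e000c0002000b000b00040009000900050005000e000c) (nat_lit 0x70640600031) (nat_lit 16) Lb.e (@T16.mk En
    (@En.n l68 (nat_lit 2549) (nat_lit 7) (nat_lit 12))
    (@En.n l1070 (nat_lit 8934) (nat_lit 1) (nat_lit 14))
    (@En.n l1071 (nat_lit 2630) (nat_lit 11) (nat_lit 5))
    (@En.i (nat_lit 7351) (nat_lit 3) (nat_lit 5))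
    (@En.n l1072 (nat_lit 2740) (nat_lit 7) (nat_lit 9))
    (@En.n l1073 (nat_lit 8646) (nat_lit 5) (nat_lit 9))
    (@En.n l1074 (nat_lit 2749) (nat_lit 6) (nat_lit 4))
    (@En.n l61 (nat_lit 2713) (nat_lit 8) (nat_lit 11))
    (@En.n l1075 (nat_lit 3485) (nat_lit 9) (nat_lit 11))
    (@En.n l7 (nat_lit 2551) (nat_lit 9) (nat_lit 2))
    (@En.n l1076 (nat_lit 2685) (nat_lit 11) (nat_lit 12))
    (@En.n l255 (nat_lit 12528) (nat_lit 12) (nat_lit 14))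
    (@En.i (nat_lit 2779) (nat_lit 2) (nat_lit 4))
    (@En.n l1077 (nat_lit 2547) (nat_lit 9) (nat_lit 7))
    (@En.n l1078 (nat_lit 2552) (nat_lit 4) (nat_lit 7))
    (@En.n l67 (nat_lit 2551) (nat_lit 15) (nat_lit 2))))
  (@Cl.mk (nat_lit 0x2000a000a00040009000c000a000600060004000d000700060003000e000c) (nat_lit 0x40601000000000) (nat_lit 16) Lb.e (@T16.mk En
    (@En.i (nat_lit 2800) (nat_lit 14) (nat_lit 12))
    (@En.n l3533 (nat_lit 11500) (nat_lit 1) (nat_lit 14))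
    (@En.n l7 (nat_lit 2780) (nat_lit 2) (nat_lit 3))
    (@En.n l2813 (nat_lit 2545) (nat_lit 3) (nat_lit 6))
    (@En.i (nat_lit 2802) (nat_lit 4) (nat_lit 7))
    (@En.n l3534 (nat_lit 2553) (nat_lit 6) (nat_lit 13))
    (@En.n l3535 (nat_lit 9578) (nat_lit 6) (nat_lit 4))
    (@En.n l152 (nat_lit 3361) (nat_lit 10) (nat_lit 6))
    (@En.n l936 (nat_lit 9416) (nat_lit 8) (nat_lit 6))
    (@En.n l870 (nat_lit 2549) (nat_lit 10) (nat_lit 10))
    (@En.n l384 (nat_lit 3049) (nat_lit 6) (nat_lit 12))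
    (@En.n l1208 (nat_lit 8891) (nat_lit 12) (nat_lit 9))
    (@En.n l2813 (nat_lit 4303) (nat_lit 13) (nat_lit 4))
    (@En.n l3536 (nat_lit 2771) (nat_lit 6) (nat_lit 10))
    (@En.n l384 (nat_lit 4224) (nat_lit 12) (nat_lit 10))
    (@En.n l18 (nat_lit 2552) (nat_lit 15) (nat_lit 2))))
  (@Cl.mk (nat_lit 0x2000a000a0004000a0008000b00060006000d0006000500030008000e000c) (nat_lit 0x44085100b0002c0) (nat_lit 16) Lb.e (@T16.mk En
    (@En.n l7796 (nat_lit 2798) (nat_lit 13) (nat_lit 12))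
    (@En.n l532 (nat_lit 11563) (nat_lit 1) (nat_lit 14))
    (@En.n l3529 (nat_lit 2802) (nat_lit 2) (nat_lit 8))
    (@En.n l2710 (nat_lit 2781) (nat_lit 3) (nat_lit 3))
    (@En.n l7006 (nat_lit 2056) (nat_lit 0) (nat_lit 5))
    (@En.n l3532 (nat_lit 2160) (nat_lit 5) (nat_lit 6))
    (@En.n l7797 (nat_lit 8653) (nat_lit 7) (nat_lit 13))
    (@En.n l1071 (nat_lit 3366) (nat_lit 10) (nat_lit 6))
    (@En.i (nat_lit 9831) (nat_lit 8) (nat_lit 6))
    (@En.n l7798 (nat_lit 2550) (nat_lit 10) (nat_lit 11))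
    (@En.i (nat_lit 2779) (nat_lit 11) (nat_lit 8))
    (@En.n l7799 (nat_lit 8890) (nat_lit 12) (nat_lit 10))
    (@En.n l7800 (nat_lit 4309) (nat_lit 8) (nat_lit 4))
    (@En.n l61 (nat_lit 2768) (nat_lit 14) (nat_lit 10))
    (@En.i (nat_lit 2830) (nat_lit 1) (nat_lit 10))
    (@En.n l7 (nat_lit 2553) (nat_lit 15) (nat_lit 2))))
  (@Cl.mk (nat_lit 0x2000b000b00040009000c00050005000c0004000d000700040003000e000c) (nat_lit 0x20600000000000) (nat_lit 16) Lb.e (@T16.mk En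
    (@En.i (nat_lit 2796) (nat_lit 14) (nat_lit 12))
    (@En.n l396 (nat_lit 11501) (nat_lit 1) (nat_lit 14))
    (@En.n l7 (nat_lit 2778) (nat_lit 2) (nat_lit 3))
    (@En.i (nat_lit 2550) (nat_lit 3) (nat_lit 4))
    (@En.i (nat_lit 2781) (nat_lit 4) (nat_lit 7))
    (@En.n l3850 (nat_lit 3007) (nat_lit 6) (nat_lit 13))
    (@En.i (nat_lit 2552) (nat_lit 6) (nat_lit 4))
    (@En.n l133 (nat_lit 8649) (nat_lit 8) (nat_lit 12))
    (@En.n l152 (nat_lit 3363) (nat_lit 11) (nat_lit 5))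
    (@En.n l3851 (nat_lit 9827) (nat_lit 9) (nat_lit 5))
    (@En.n l133 (nat_lit 2721) (nat_lit 6) (nat_lit 12))
    (@En.n l1208 (nat_lit 8900) (nat_lit 12) (nat_lit 9))
    (@En.n l133 (nat_lit 4246) (nat_lit 13) (nat_lit 4))
    (@En.n l3536 (nat_lit 2772) (nat_lit 14) (nat_lit 11))
    (@En.i (nat_lit 4231) (nat_lit 1) (nat_lit 11))
    (@En.n l18 (nat_lit 2554) (nat_lit 15) (nat_lit 2))))
  (@Cl.mk (nat_lit 0x40004000a000a00060006000c000c0006000600040004000c000c000a000a) (nat_lit 0x8700000000a713) (nat_lit 16) Lb.e (@T16.mk En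
    (@En.n l61 (nat_lit 1842) (nat_lit 6) (nat_lit 10))
    (@En.i (nat_lit 1336) (nat_lit 1) (nat_lit 10))
    (@En.n l6249 (nat_lit 2687) (nat_lit 4) (nat_lit 12))
    (@En.n l6250 (nat_lit 11742) (nat_lit 3) (nat_lit 12))
    (@En.n l6251 (nat_lit 2685) (nat_lit 12) (nat_lit 4))
    (@En.n l6252 (nat_lit 2796) (nat_lit 0) (nat_lit 4))
    (@En.n l6253 (nat_lit 1843) (nat_lit 10) (nat_lit 6))
    (@En.n l6250 (nat_lit 2798) (nat_lit 1) (nat_lit 6))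
    (@En.n l6254 (nat_lit 2703) (nat_lit 4) (nat_lit 12))
    (@En.n l2750 (nat_lit 8320) (nat_lit 10) (nat_lit 12))
    (@En.n l6255 (nat_lit 2497) (nat_lit 10) (nat_lit 6))
    (@En.n l4172 (nat_lit 6867) (nat_lit 5) (nat_lit 6))
    (@En.n l6256 (nat_lit 2688) (nat_lit 6) (nat_lit 10))
    (@En.i (nat_lit 8226) (nat_lit 14) (nat_lit 10))
    (@En.n l50 (nat_lit 2549) (nat_lit 12) (nat_lit 4))
    (@En.n l6257 (nat_lit 2751) (nat_lit 0) (nat_lit 4))))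
  (@Cl.mk (nat_lit 0x2000b000300090009000e00050002000c000c0007000700040004000e000d) (nat_lit 0x207050000000078) (nat_lit 16) Lb.e (@T16.mk En
    (@En.n l601 (nat_lit 1842) (nat_lit 8) (nat_lit 13))
    (@En.n l2747 (nat_lit 8115) (nat_lit 1) (nat_lit 14))
    (@En.n l11 (nat_lit 2713) (nat_lit 12) (nat_lit 4))
    (@En.n l152 (nat_lit 2772) (nat_lit 3) (nat_lit 4))
    (@En.i (nat_lit 1837) (nat_lit 4) (nat_lit 7))
    (@En.i (nat_lit 2768) (nat_lit 5) (nat_lit 7))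
    (@En.n l619 (nat_lit 2705) (nat_lit 7) (nat_lit 12))
    (@En.i (nat_lit 7347) (nat_lit 8) (nat_lit 12))
    (@En.n l17 (nat_lit 2556) (nat_lit 8) (nat_lit 2))
    (@En.i (nat_lit 2549) (nat_lit 9) (nat_lit 5))
    (@En.i (nat_lit 1156) (nat_lit 11) (nat_lit 14))
    (@En.n l282 (nat_lit 2709) (nat_lit 7) (nat_lit 9))
    (@En.i (nat_lit 8972) (nat_lit 3) (nat_lit 9))
    (@En.i (nat_lit 1842) (nat_lit 4) (nat_lit 3))
    (@En.i (nat_lit 1228) (nat_lit 0) (nat_lit 11))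
    (@En.n l7 (nat_lit 2556) (nat_lit 15) (nat_lit 2))))
  (@Cl.mk (nat_lit 0x20005000b000b0005000c000c0005000500040004000e000b0002000e000b) (nat_lit 0x70000000007017) (nat_lit 16) Lb.e (@T16.mk En
    (@En.n l870 (nat_lit 2549) (nat_lit 14) (nat_lit 11))
    (@En.i (nat_lit 2497) (nat_lit 1) (nat_lit 14))
    (@En.n l18 (nat_lit 2557) (nat_lit 2) (nat_lit 2))
    (@En.n l5 (nat_lit 2497) (nat_lit 3) (nat_lit 11))
    (@En.n l414 (nat_lit 12760) (nat_lit 5) (nat_lit 14))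
    (@En.n l237 (nat_lit 2630) (nat_lit 5) (nat_lit 4))
    (@En.i (nat_lit 3363) (nat_lit 6) (nat_lit 4))
    (@En.i (nat_lit 2500) (nat_lit 7) (nat_lit 5))
    (@En.n l55 (nat_lit 3366) (nat_lit 8) (nat_lit 5))
    (@En.n l134 (nat_lit 2866) (nat_lit 10) (nat_lit 12))
    (@En.n l11 (nat_lit 3610) (nat_lit 11) (nat_lit 12))
    (@En.n l117 (nat_lit 6777) (nat_lit 8) (nat_lit 5))
    (@En.i (nat_lit 2633) (nat_lit 5) (nat_lit 11))
    (@En.i (nat_lit 8984) (nat_lit 14) (nat_lit 11))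
    (@En.i (nat_lit 3651) (nat_lit 13) (nat_lit 5))
    (@En.n l3 (nat_lit 2557) (nat_lit 15) (nat_lit 2))))
  (@Cl.mk (nat_lit 0x20006000b000e00070002000e00050002000d000b000a00030009000e0005) (nat_lit 0x5c009009900120) (nat_lit 16) Lb.e (@T16.mk En
    (@En.n l5930 (nat_lit 2490) (nat_lit 8) (nat_lit 5))
    (@En.i (nat_lit 3637) (nat_lit 1) (nat_lit 14))
    (@En.n l5931 (nat_lit 1075) (nat_lit 2) (nat_lit 9))
    (@En.n l11 (nat_lit 2062) (nat_lit 3) (nat_lit 3))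
    (@En.n l5932 (nat_lit 2562) (nat_lit 4) (nat_lit 10))
    (@En.n l55 (nat_lit 2814) (nat_lit 14) (nat_lit 11))
    (@En.n l5933 (nat_lit 1524) (nat_lit 7) (nat_lit 13))
    (@En.n l3 (nat_lit 2558) (nat_lit 7) (nat_lit 2))
    (@En.n l476 (nat_lit 2063) (nat_lit 14) (nat_lit 5))
    (@En.i (nat_lit 2279) (nat_lit 1) (nat_lit 14))
    (@En.n l17 (nat_lit 2558) (nat_lit 10) (nat_lit 2))
    (@En.n l2869 (nat_lit 2559) (nat_lit 12) (nat_lit 7))
    (@En.n l5933 (nat_lit 13212) (nat_lit 4) (nat_lit 14))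
    (@En.n l2579 (nat_lit 12773) (nat_lit 14) (nat_lit 11))
    (@En.n l5934 (nat_lit 2175) (nat_lit 6) (nat_lit 6))
    (@En.n l7 (nat_lit 2558) (nat_lit 15) (nat_lit 2))))
  (@Cl.mk (nat_lit 0x20007000c00070007000e00040002000d000a0009000300090009000e0006) (nat_lit 0x60080098006230) (nat_lit 16) Lb.e (@T16.mk En
    (@En.n l6166 (nat_lit 2052) (nat_lit 7) (nat_lit 6))
    (@En.i (nat_lit 7456) (nat_lit 1) (nat_lit 14))
    (@En.n l1867 (nat_lit 2558) (nat_lit 2) (nat_lit 9))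
    (@En.n l14622 (nat_lit 6885) (nat_lit 11) (nat_lit 9))
    (@En.n l50 (nat_lit 2051) (nat_lit 4) (nat_lit 3))
    (@En.n l773 (nat_lit 2560) (nat_lit 5) (nat_lit 9))
    (@En.n l217 (nat_lit 2824) (nat_lit 14) (nat_lit 10))
    (@En.i (nat_lit 1525) (nat_lit 8) (nat_lit 13))
    (@En.n l28 (nat_lit 2559) (nat_lit 8) (nat_lit 2))
    (@En.i (nat_lit 2050) (nat_lit 9) (nat_lit 4))
    (@En.n l2038 (nat_lit 2283) (nat_lit 11) (nat_lit 14))
    (@En.n l1900 (nat_lit 2046) (nat_lit 12) (nat_lit 7))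
    (@En.n l5389 (nat_lit 1773) (nat_lit 13) (nat_lit 7))
    (@En.i (nat_lit 12491) (nat_lit 14) (nat_lit 12))
    (@En.n l6171 (nat_lit 2435) (nat_lit 5) (nat_lit 7))
    (@En.n l17 (nat_lit 2559) (nat_lit 15) (nat_lit 2))))
noncomputable def a160 : T16 Cl := @T16.mk Cl
  (@Cl.mk (nat_lit 0x200070003000c00080008000e00040002000e0009000200080008000e000d) (nat_lit 0x5329009703274) (nat_lit 16) Lb.e (@T16.mk En
    (@En.n l906 (nat_lit 2561) (nat_lit 12) (nat_lit 13))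
    (@En.i (nat_lit 8998) (nat_lit 13) (nat_lit 14))
    (@En.n l157 (nat_lit 2562) (nat_lit 2) (nat_lit 8))
    (@En.n l2978 (nat_lit 7346) (nat_lit 12) (nat_lit 8))
    (@En.n l18 (nat_lit 2560) (nat_lit 4) (nat_lit 2))
    (@En.n l2979 (nat_lit 2564) (nat_lit 5) (nat_lit 9))
    (@En.n l910 (nat_lit 2153) (nat_lit 1) (nat_lit 14))
    (@En.n l7 (nat_lit 2560) (nat_lit 7) (nat_lit 2))
    (@En.n l28 (nat_lit 2563) (nat_lit 8) (nat_lit 4))
    (@En.n l2980 (nat_lit 2567) (nat_lit 10) (nat_lit 14))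
    (@En.n l1659 (nat_lit 1839) (nat_lit 11) (nat_lit 8))
    (@En.n l2981 (nat_lit 3216) (nat_lit 12) (nat_lit 8))
    (@En.n l2982 (nat_lit 12541) (nat_lit 13) (nat_lit 12))
    (@En.n l916 (nat_lit 2561) (nat_lit 8) (nat_lit 3))
    (@En.n l2983 (nat_lit 2434) (nat_lit 0) (nat_lit 7))
    (@En.n l3 (nat_lit 2560) (nat_lit 15) (nat_lit 2))))
  (@Cl.mk (nat_lit 0x200080008000d000d000600030003000c00080008000e00040002000e000a) (nat_lit 0x323500061290077) (nat_lit 16) Lb.e (@T16.mk En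
    (@En.n l2938 (nat_lit 2687) (nat_lit 14) (nat_lit 10))
    (@En.n l664 (nat_lit 1797) (nat_lit 1) (nat_lit 14))
    (@En.n l18 (nat_lit 2561) (nat_lit 2) (nat_lit 2))
    (@En.n l50 (nat_lit 1843) (nat_lit 3) (nat_lit 4))
    (@En.n l2197 (nat_lit 2568) (nat_lit 5) (nat_lit 14))
    (@En.n l2858 (nat_lit 1832) (nat_lit 8) (nat_lit 8))
    (@En.i (nat_lit 2010) (nat_lit 6) (nat_lit 8))
    (@En.n l2351 (nat_lit 11710) (nat_lit 8) (nat_lit 12))
    (@En.n l738 (nat_lit 2560) (nat_lit 13) (nat_lit 3))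
    (@En.n l11 (nat_lit 3538) (nat_lit 9) (nat_lit 3))
    (@En.n l2351 (nat_lit 2559) (nat_lit 0) (nat_lit 6))
    (@En.n l55 (nat_lit 3538) (nat_lit 12) (nat_lit 13))
    (@En.i (nat_lit 7342) (nat_lit 13) (nat_lit 13))
    (@En.n l796 (nat_lit 2491) (nat_lit 14) (nat_lit 8))
    (@En.n l5949 (nat_lit 7315) (nat_lit 12) (nat_lit 8))
    (@En.n l3 (nat_lit 2561) (nat_lit 15) (nat_lit 2))))
  (@Cl.mk (nat_lit 0x200060003000b000e00080002000e00050002000e000a00020008000e000d) (nat_lit 0x5c40b00c80164) (nat_lit 16) Lb.e (@T16.mk En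
    (@En.n l198 (nat_lit 2491) (nat_lit 13) (nat_lit 13))
    (@En.n l918 (nat_lit 4144) (nat_lit 1) (nat_lit 14))
    (@En.n l919 (nat_lit 1012) (nat_lit 2) (nat_lit 8))
    (@En.n l3 (nat_lit 2562) (nat_lit 3) (nat_lit 2))
    (@En.n l920 (nat_lit 2684) (nat_lit 4) (nat_lit 10))
    (@En.i (nat_lit 1801) (nat_lit 1) (nat_lit 14))
    (@En.n l17 (nat_lit 2562) (nat_lit 6) (nat_lit 2))
    (@En.n l921 (nat_lit 2501) (nat_lit 14) (nat_lit 5))
    (@En.n l622 (nat_lit 2565) (nat_lit 1) (nat_lit 14))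
    (@En.n l7 (nat_lit 2562) (nat_lit 9) (nat_lit 2))
    (@En.n l922 (nat_lit 2560) (nat_lit 11) (nat_lit 8))
    (@En.i (nat_lit 13240) (nat_lit 4) (nat_lit 14))
    (@En.n l287 (nat_lit 11655) (nat_lit 13) (nat_lit 11))
    (@En.n l11 (nat_lit 2491) (nat_lit 9) (nat_lit 3))
    (@En.n l923 (nat_lit 2177) (nat_lit 0) (nat_lit 6))
    (@En.n l207 (nat_lit 2562) (nat_lit 15) (nat_lit 2))))
  (@Cl.mk (nat_lit 0x200070003000c000c0009000900040004000e0009000200070007000e000d) (nat_lit 0x7623009700064) (nat_lit 16) Lb.e (@T16.mk En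
    (@En.n l906 (nat_lit 1843) (nat_lit 12) (nat_lit 13))
    (@En.i (nat_lit 8938) (nat_lit 13) (nat_lit 14))
    (@En.n l907 (nat_lit 2501) (nat_lit 9) (nat_lit 7))
    (@En.n l908 (nat_lit 7324) (nat_lit 3) (nat_lit 7))
    (@En.n l18 (nat_lit 2563) (nat_lit 4) (nat_lit 2))
    (@En.n l909 (nat_lit 2685) (nat_lit 5) (nat_lit 9))
    (@En.n l910 (nat_lit 2152) (nat_lit 1) (nat_lit 14))
    (@En.n l911 (nat_lit 2547) (nat_lit 2) (nat_lit 4))
    (@En.n l912 (nat_lit 3511) (nat_lit 3) (nat_lit 4))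
    (@En.n l913 (nat_lit 1838) (nat_lit 10) (nat_lit 9))
    (@En.n l914 (nat_lit 3494) (nat_lit 5) (nat_lit 9))
    (@En.n l134 (nat_lit 2560) (nat_lit 12) (nat_lit 12))
    (@En.n l915 (nat_lit 11335) (nat_lit 13) (nat_lit 12))
    (@En.n l916 (nat_lit 1843) (nat_lit 8) (nat_lit 3))
    (@En.n l917 (nat_lit 2436) (nat_lit 0) (nat_lit 7))
    (@En.n l3 (nat_lit 2563) (nat_lit 15) (nat_lit 2))))
  (@Cl.mk (nat_lit 0x2000700070004000c00090009000e000400020009000900070007000e000c) (nat_lit 0x642a00600060) (nat_lit 16) Lb.e (@T16.mk En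
    (@En.n l8616 (nat_lit 2687) (nat_lit 10) (nat_lit 12))
    (@En.n l8617 (nat_lit 8941) (nat_lit 11) (nat_lit 14))
    (@En.n l8618 (nat_lit 2684) (nat_lit 2) (nat_lit 7))
    (@En.n l5214 (nat_lit 7352) (nat_lit 3) (nat_lit 7))
    (@En.n l8619 (nat_lit 2686) (nat_lit 7) (nat_lit 9))
    (@En.n l8620 (nat_lit 8222) (nat_lit 5) (nat_lit 9))
    (@En.n l17 (nat_lit 2564) (nat_lit 6) (nat_lit 2))
    (@En.n l8621 (nat_lit 2685) (nat_lit 7) (nat_lit 4))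
    (@En.i (nat_lit 3616) (nat_lit 9) (nat_lit 14))
    (@En.n l8622 (nat_lit 2693) (nat_lit 10) (nat_lit 9))
    (@En.n l8623 (nat_lit 3205) (nat_lit 11) (nat_lit 9))
    (@En.n l8624 (nat_lit 11305) (nat_lit 12) (nat_lit 12))
    (@En.n l4147 (nat_lit 2785) (nat_lit 5) (nat_lit 4))
    (@En.n l8625 (nat_lit 2560) (nat_lit 14) (nat_lit 7))
    (@En.n l8616 (nat_lit 2807) (nat_lit 7) (nat_lit 7))
    (@En.n l28 (nat_lit 2564) (nat_lit 15) (nat_lit 2))))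
  (@Cl.mk (nat_lit 0x20005000e000a00020008000e000d000200060003000c000b0008000e0004) (nat_lit 0xa80123000000a0) (nat_lit 16) Lb.e (@T16.mk En
    (@En.n l50 (nat_lit 3520) (nat_lit 8) (nat_lit 4))
    (@En.n l1279 (nat_lit 2569) (nat_lit 6) (nat_lit 14))
    (@En.n l1280 (nat_lit 2567) (nat_lit 11) (nat_lit 8))
    (@En.n l1281 (nat_lit 3513) (nat_lit 3) (nat_lit 11))
    (@En.n l715 (nat_lit 12310) (nat_lit 13) (nat_lit 12))
    (@En.n l218 (nat_lit 2566) (nat_lit 5) (nat_lit 3))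
    (@En.n l716 (nat_lit 2418) (nat_lit 6) (nat_lit 6))
    (@En.n l28 (nat_lit 2565) (nat_lit 7) (nat_lit 2))
    (@En.n l55 (nat_lit 2566) (nat_lit 9) (nat_lit 13))
    (@En.n l218 (nat_lit 3703) (nat_lit 10) (nat_lit 14))
    (@En.n l1282 (nat_lit 1011) (nat_lit 2) (nat_lit 8))
    (@En.n l3 (nat_lit 2565) (nat_lit 11) (nat_lit 2))
    (@En.n l1282 (nat_lit 3609) (nat_lit 13) (nat_lit 10))
    (@En.n l738 (nat_lit 2560) (nat_lit 6) (nat_lit 14))
    (@En.n l667 (nat_lit 2501) (nat_lit 13) (nat_lit 5))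
    (@En.n l18 (nat_lit 2565) (nat_lit 15) (nat_lit 2))))
  (@Cl.mk (nat_lit 0x20005000e000b00020008000d000d000500030003000c000b0008000e0004) (nat_lit 0x880124000600a0) (nat_lit 16) Lb.e (@T16.mk En
    (@En.n l50 (nat_lit 3521) (nat_lit 4) (nat_lit 4))
    (@En.n l287 (nat_lit 2570) (nat_lit 6) (nat_lit 14))
    (@En.i (nat_lit 2568) (nat_lit 6) (nat_lit 8))
    (@En.n l2863 (nat_lit 3514) (nat_lit 3) (nat_lit 11))
    (@En.n l947 (nat_lit 12591) (nat_lit 9) (nat_lit 12))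
    (@En.i (nat_lit 2565) (nat_lit 5) (nat_lit 3))
    (@En.n l11 (nat_lit 3539) (nat_lit 6) (nat_lit 3))
    (@En.n l668 (nat_lit 2279) (nat_lit 7) (nat_lit 5))
    (@En.n l55 (nat_lit 3539) (nat_lit 9) (nat_lit 13))
    (@En.i (nat_lit 3856) (nat_lit 10) (nat_lit 13))
    (@En.n l882 (nat_lit 217) (nat_lit 11) (nat_lit 8))
    (@En.n l3 (nat_lit 2566) (nat_lit 11) (nat_lit 2))
    (@En.i (nat_lit 3650) (nat_lit 13) (nat_lit 11))
    (@En.i (nat_lit 2561) (nat_lit 1) (nat_lit 14))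
    (@En.i (nat_lit 2494) (nat_lit 13) (nat_lit 5))
    (@En.n l18 (nat_lit 2566) (nat_lit 15) (nat_lit 2))))
  (@Cl.mk (nat_lit 0x200070003000d0008000e00030002000b000e0009000200080005000e000d) (nat_lit 0x7680059705074) (nat_lit 16) Lb.e (@T16.mk En
    (@En.n l1270 (nat_lit 2568) (nat_lit 12) (nat_lit 13))
    (@En.n l1271 (nat_lit 4128) (nat_lit 1) (nat_lit 14))
    (@En.n l1272 (nat_lit 2569) (nat_lit 14) (nat_lit 5))
    (@En.i (nat_lit 7322) (nat_lit 3) (nat_lit 8))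
    (@En.n l12 (nat_lit 2567) (nat_lit 4) (nat_lit 2))
    (@En.n l176 (nat_lit 3616) (nat_lit 5) (nat_lit 9))
    (@En.n l1273 (nat_lit 1839) (nat_lit 7) (nat_lit 14))
    (@En.n l1274 (nat_lit 3494) (nat_lit 2) (nat_lit 11))
    (@En.n l17 (nat_lit 2567) (nat_lit 8) (nat_lit 2))
    (@En.n l1275 (nat_lit 2571) (nat_lit 9) (nat_lit 3))
    (@En.i (nat_lit 13373) (nat_lit 0) (nat_lit 14))
    (@En.n l1276 (nat_lit 3217) (nat_lit 12) (nat_lit 8))
    (@En.n l118 (nat_lit 12309) (nat_lit 13) (nat_lit 13))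
    (@En.n l1277 (nat_lit 2568) (nat_lit 8) (nat_lit 3))
    (@En.n l1278 (nat_lit 2421) (nat_lit 5) (nat_lit 7))
    (@En.n l28 (nat_lit 2567) (nat_lit 15) (nat_lit 2))))
  (@Cl.mk (nat_lit 0x200080005000d000d000600030003000d0008000e00030002000b000e000a) (nat_lit 0x503500076800577) (nat_lit 16) Lb.e (@T16.mk En
    (@En.n l2857 (nat_lit 3652) (nat_lit 13) (nat_lit 10))
    (@En.n l2858 (nat_lit 1832) (nat_lit 4) (nat_lit 14))
    (@En.n l2588 (nat_lit 3493) (nat_lit 2) (nat_lit 11))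
    (@En.n l18 (nat_lit 2568) (nat_lit 3) (nat_lit 2))
    (@En.n l871 (nat_lit 3545) (nat_lit 4) (nat_lit 3))
    (@En.n l2859 (nat_lit 13370) (nat_lit 0) (nat_lit 14))
    (@En.i (nat_lit 3218) (nat_lit 6) (nat_lit 8))
    (@En.n l2860 (nat_lit 12573) (nat_lit 8) (nat_lit 13))
    (@En.n l1280 (nat_lit 2567) (nat_lit 13) (nat_lit 3))
    (@En.n l11 (nat_lit 3540) (nat_lit 9) (nat_lit 3))
    (@En.n l2861 (nat_lit 2283) (nat_lit 0) (nat_lit 6))
    (@En.n l55 (nat_lit 3540) (nat_lit 12) (nat_lit 13))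
    (@En.n l404 (nat_lit 6972) (nat_lit 9) (nat_lit 13))
    (@En.n l2862 (nat_lit 2570) (nat_lit 14) (nat_lit 5))
    (@En.n l2859 (nat_lit 7316) (nat_lit 11) (nat_lit 8))
    (@En.n l3 (nat_lit 2568) (nat_lit 15) (nat_lit 2))))
  (@Cl.mk (nat_lit 0x20005000e000d000200060003000d000b000e00030002000b0005000e000a) (nat_lit 0x840000090050a8) (nat_lit 16) Lb.e (@T16.mk En
    (@En.n l352 (nat_lit 3564) (nat_lit 4) (nat_lit 10))
    (@En.n l353 (nat_lit 2567) (nat_lit 6) (nat_lit 14))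
    (@En.n l354 (nat_lit 2565) (nat_lit 14) (nat_lit 5))
    (@En.n l355 (nat_lit 3510) (nat_lit 3) (nat_lit 11))
    (@En.n l7 (nat_lit 2569) (nat_lit 4) (nat_lit 2))
    (@En.n l356 (nat_lit 3555) (nat_lit 5) (nat_lit 3))
    (@En.n l353 (nat_lit 13375) (nat_lit 0) (nat_lit 14))
    (@En.n l357 (nat_lit 3522) (nat_lit 12) (nat_lit 11))
    (@En.n l358 (nat_lit 12307) (nat_lit 9) (nat_lit 13))
    (@En.n l359 (nat_lit 2570) (nat_lit 9) (nat_lit 3))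
    (@En.n l360 (nat_lit 2420) (nat_lit 5) (nat_lit 6))
    (@En.n l3 (nat_lit 2569) (nat_lit 11) (nat_lit 2))
    (@En.n l361 (nat_lit 2570) (nat_lit 13) (nat_lit 13))
    (@En.i (nat_lit 4126) (nat_lit 9) (nat_lit 14))
    (@En.n l362 (nat_lit 2726) (nat_lit 2) (nat_lit 5))
    (@En.n l17 (nat_lit 2569) (nat_lit 15) (nat_lit 2))))
  (@Cl.mk (nat_lit 0x20005000d000d000500030003000d000b000e00030002000b0005000e000b) (nat_lit 0x33000509005088) (nat_lit 16) Lb.e (@T16.mk En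
    (@En.n l873 (nat_lit 3651) (nat_lit 12) (nat_lit 11))
    (@En.n l874 (nat_lit 2568) (nat_lit 1) (nat_lit 14))
    (@En.n l244 (nat_lit 2566) (nat_lit 14) (nat_lit 5))
    (@En.n l245 (nat_lit 3507) (nat_lit 3) (nat_lit 11))
    (@En.n l50 (nat_lit 2570) (nat_lit 4) (nat_lit 2))
    (@En.n l7 (nat_lit 3547) (nat_lit 5) (nat_lit 3))
    (@En.n l246 (nat_lit 13367) (nat_lit 0) (nat_lit 14))
    (@En.n l875 (nat_lit 3523) (nat_lit 8) (nat_lit 11))
    (@En.n l876 (nat_lit 12581) (nat_lit 9) (nat_lit 13))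
    (@En.n l877 (nat_lit 2569) (nat_lit 9) (nat_lit 3))
    (@En.n l250 (nat_lit 3541) (nat_lit 10) (nat_lit 3))
    (@En.n l878 (nat_lit 2280) (nat_lit 0) (nat_lit 5))
    (@En.n l252 (nat_lit 3541) (nat_lit 13) (nat_lit 13))
    (@En.n l766 (nat_lit 4014) (nat_lit 9) (nat_lit 13))
    (@En.n l253 (nat_lit 973) (nat_lit 9) (nat_lit 5))
    (@En.n l3 (nat_lit 2570) (nat_lit 15) (nat_lit 2))))
  (@Cl.mk (nat_lit 0x200070003000d000d000900030003000b000e0009000200070005000e000d) (nat_lit 0x6800059700074) (nat_lit 16) Lb.e (@T16.mk En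
    (@En.n l2410 (nat_lit 3545) (nat_lit 12) (nat_lit 13))
    (@En.n l2411 (nat_lit 4127) (nat_lit 13) (nat_lit 14))
    (@En.n l2412 (nat_lit 3555) (nat_lit 14) (nat_lit 5))
    (@En.i (nat_lit 7320) (nat_lit 3) (nat_lit 7))
    (@En.n l725 (nat_lit 2571) (nat_lit 4) (nat_lit 2))
    (@En.n l2413 (nat_lit 3615) (nat_lit 5) (nat_lit 9))
    (@En.n l2414 (nat_lit 1838) (nat_lit 7) (nat_lit 14))
    (@En.n l2415 (nat_lit 3495) (nat_lit 2) (nat_lit 11))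
    (@En.n l152 (nat_lit 3556) (nat_lit 3) (nat_lit 3))
    (@En.n l2416 (nat_lit 2567) (nat_lit 9) (nat_lit 3))
    (@En.n l2417 (nat_lit 2911) (nat_lit 5) (nat_lit 9))
    (@En.n l2418 (nat_lit 2567) (nat_lit 12) (nat_lit 13))
    (@En.n l2414 (nat_lit 12311) (nat_lit 13) (nat_lit 13))
    (@En.n l2419 (nat_lit 3545) (nat_lit 8) (nat_lit 3))
    (@En.n l2420 (nat_lit 2392) (nat_lit 0) (nat_lit 7))
    (@En.n l50 (nat_lit 2571) (nat_lit 15) (nat_lit 2))))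
  (@Cl.mk (nat_lit 0x3000c0008000b000b00040008000b000500050008000c0005000d00080004) (nat_lit 0x968905200020560) (nat_lit 16) Lb.e (@T16.mk En
    (@En.n l18680 (nat_lit 2053) (nat_lit 0) (nat_lit 4))
    (@En.n l61 (nat_lit 2514) (nat_lit 0) (nat_lit 8))
    (@En.n l14031 (nat_lit 1846) (nat_lit 1) (nat_lit 13))
    (@En.n l7695 (nat_lit 1751) (nat_lit 3) (nat_lit 5))
    (@En.n l28605 (nat_lit 12446) (nat_lit 7) (nat_lit 12))
    (@En.n l14025 (nat_lit 2575) (nat_lit 10) (nat_lit 8))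
    (@En.n l14026 (nat_lit 2575) (nat_lit 11) (nat_lit 5))
    (@En.n l117 (nat_lit 10376) (nat_lit 7) (nat_lit 5))
    (@En.n l29880 (nat_lit 2258) (nat_lit 7) (nat_lit 11))
    (@En.n l14311 (nat_lit 7872) (nat_lit 11) (nat_lit 8))
    (@En.n l29881 (nat_lit 2444) (nat_lit 10) (nat_lit 4))
    (@En.n l575 (nat_lit 2579) (nat_lit 5) (nat_lit 11))
    (@En.i (nat_lit 2389) (nat_lit 7) (nat_lit 11))
    (@En.n l29882 (nat_lit 3306) (nat_lit 14) (nat_lit 8))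
    (@En.n l9790 (nat_lit 1408) (nat_lit 3) (nat_lit 12))
    (@En.n l18 (nat_lit 2573) (nat_lit 13) (nat_lit 3))))
  (@Cl.mk (nat_lit 0x300090003000c0008000b000b00040007000b000500050008000d0005000d) (nat_lit 0x309689002000505) (nat_lit 16) Lb.e (@T16.mk En
    (@En.i (nat_lit 1848) (nat_lit 0) (nat_lit 13))
    (@En.i (nat_lit 1755) (nat_lit 3) (nat_lit 5))
    (@En.n l19960 (nat_lit 12448) (nat_lit 2) (nat_lit 13))
    (@En.n l14025 (nat_lit 2574) (nat_lit 10) (nat_lit 8))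
    (@En.n l14026 (nat_lit 2574) (nat_lit 11) (nat_lit 5))
    (@En.n l117 (nat_lit 10375) (nat_lit 5) (nat_lit 5))
    (@En.n l34432 (nat_lit 2256) (nat_lit 8) (nat_lit 11))
    (@En.n l18677 (nat_lit 7879) (nat_lit 11) (nat_lit 7))
    (@En.n l5152 (nat_lit 2614) (nat_lit 8) (nat_lit 4))
    (@En.n l575 (nat_lit 2578) (nat_lit 5) (nat_lit 11))
    (@En.i (nat_lit 2388) (nat_lit 7) (nat_lit 11))
    (@En.n l5600 (nat_lit 3308) (nat_lit 14) (nat_lit 8))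
    (@En.i (nat_lit 2514) (nat_lit 13) (nat_lit 12))
    (@En.i (nat_lit 2572) (nat_lit 15) (nat_lit 3))
    (@En.i (nat_lit 4921) (nat_lit 0) (nat_lit 9))
    (@En.i (nat_lit 2577) (nat_lit 15) (nat_lit 3))))
  (@Cl.mk (nat_lit 0x200050008000c00050008000d0004000d000300080003000b0008000e000b) (nat_lit 0x62064040308619) (nat_lit 16) Lb.e (@T16.mk En
    (@En.n l3839 (nat_lit 2573) (nat_lit 10) (nat_lit 11))
    (@En.n l180 (nat_lit 2512) (nat_lit 1) (nat_lit 14))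
    (@En.n l619 (nat_lit 3350) (nat_lit 2) (nat_lit 8))
    (@En.i (nat_lit 2515) (nat_lit 3) (nat_lit 11))
    (@En.i (nat_lit 2575) (nat_lit 4) (nat_lit 3))
    (@En.n l387 (nat_lit 4920) (nat_lit 5) (nat_lit 8))
    (@En.i (nat_lit 2576) (nat_lit 6) (nat_lit 3))
    (@En.i (nat_lit 2188) (nat_lit 8) (nat_lit 13))
    (@En.i (nat_lit 1753) (nat_lit 8) (nat_lit 4))
    (@En.n l2544 (nat_lit 12356) (nat_lit 10) (nat_lit 13))
    (@En.i (nat_lit 13734) (nat_lit 10) (nat_lit 8))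
    (@En.i (nat_lit 10381) (nat_lit 12) (nat_lit 5))
    (@En.n l617 (nat_lit 2259) (nat_lit 13) (nat_lit 12))
    (@En.n l781 (nat_lit 7876) (nat_lit 14) (nat_lit 8))
    (@En.i (nat_lit 2615) (nat_lit 13) (nat_lit 5))
    (@En.n l11 (nat_lit 2574) (nat_lit 15) (nat_lit 2))))
  (@Cl.mk (nat_lit 0x200050009000c00050008000c0004000d000700040003000b0008000e000b) (nat_lit 0x62063040008619) (nat_lit 16) Lb.e (@T16.mk En
    (@En.n l3839 (nat_lit 2572) (nat_lit 12) (nat_lit 11))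
    (@En.n l180 (nat_lit 2513) (nat_lit 1) (nat_lit 14))
    (@En.n l619 (nat_lit 3348) (nat_lit 2) (nat_lit 8))
    (@En.i (nat_lit 1404) (nat_lit 3) (nat_lit 11))
    (@En.n l18 (nat_lit 2574) (nat_lit 4) (nat_lit 3))
    (@En.n l3348 (nat_lit 2517) (nat_lit 5) (nat_lit 4))
    (@En.n l61 (nat_lit 2515) (nat_lit 6) (nat_lit 7))
    (@En.n l3749 (nat_lit 1851) (nat_lit 8) (nat_lit 13))
    (@En.i (nat_lit 1750) (nat_lit 8) (nat_lit 4))
    (@En.n l35633 (nat_lit 12353) (nat_lit 10) (nat_lit 12))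
    (@En.n l3348 (nat_lit 13739) (nat_lit 10) (nat_lit 8))
    (@En.n l3540 (nat_lit 10395) (nat_lit 12) (nat_lit 5))
    (@En.n l2199 (nat_lit 2261) (nat_lit 6) (nat_lit 12))
    (@En.i (nat_lit 7870) (nat_lit 14) (nat_lit 9))
    (@En.i (nat_lit 2616) (nat_lit 13) (nat_lit 5))
    (@En.n l11 (nat_lit 2575) (nat_lit 15) (nat_lit 2))))
noncomputable def a161 : T16 Cl := @T16.mk Cl
  (@Cl.mk (nat_lit 0x200050008000b00050008000d000c0005000300080004000b0008000e000b) (nat_lit 0x62004400408519) (nat_lit 16) Lb.e (@T16.mk En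
    (@En.n l3839 (nat_lit 2577) (nat_lit 10) (nat_lit 11))
    (@En.n l180 (nat_lit 2511) (nat_lit 1) (nat_lit 14))
    (@En.n l619 (nat_lit 3349) (nat_lit 2) (nat_lit 8))
    (@En.n l3327 (nat_lit 1758) (nat_lit 3) (nat_lit 11))
    (@En.n l3348 (nat_lit 756) (nat_lit 4) (nat_lit 4))
    (@En.n l612 (nat_lit 1753) (nat_lit 5) (nat_lit 8))
    (@En.n l50 (nat_lit 2574) (nat_lit 6) (nat_lit 3))
    (@En.n l7678 (nat_lit 1450) (nat_lit 7) (nat_lit 5))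
    (@En.n l217 (nat_lit 2575) (nat_lit 9) (nat_lit 12))
    (@En.n l2544 (nat_lit 12597) (nat_lit 10) (nat_lit 13))
    (@En.i (nat_lit 13735) (nat_lit 10) (nat_lit 8))
    (@En.i (nat_lit 10382) (nat_lit 12) (nat_lit 5))
    (@En.n l2039 (nat_lit 771) (nat_lit 13) (nat_lit 11))
    (@En.n l781 (nat_lit 7885) (nat_lit 14) (nat_lit 8))
    (@En.i (nat_lit 2618) (nat_lit 13) (nat_lit 5))
    (@En.n l11 (nat_lit 2576) (nat_lit 15) (nat_lit 2))))
  (@Cl.mk (nat_lit 0x300090004000c0008000b000b00040007000a000500050008000d000c0006) (nat_lit 0x408589002001530) (nat_lit 16) Lb.e (@T16.mk En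
    (@En.n l11859 (nat_lit 1512) (nat_lit 0) (nat_lit 6))
    (@En.n l217 (nat_lit 2572) (nat_lit 4) (nat_lit 12))
    (@En.n l9798 (nat_lit 12454) (nat_lit 2) (nat_lit 13))
    (@En.n l14025 (nat_lit 2576) (nat_lit 10) (nat_lit 8))
    (@En.n l14026 (nat_lit 2576) (nat_lit 11) (nat_lit 5))
    (@En.n l117 (nat_lit 10374) (nat_lit 5) (nat_lit 5))
    (@En.n l18676 (nat_lit 774) (nat_lit 8) (nat_lit 10))
    (@En.n l18677 (nat_lit 7882) (nat_lit 11) (nat_lit 7))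
    (@En.n l5152 (nat_lit 2443) (nat_lit 8) (nat_lit 4))
    (@En.n l575 (nat_lit 2580) (nat_lit 5) (nat_lit 11))
    (@En.i (nat_lit 2600) (nat_lit 7) (nat_lit 11))
    (@En.n l18678 (nat_lit 3311) (nat_lit 12) (nat_lit 8))
    (@En.n l18679 (nat_lit 1759) (nat_lit 13) (nat_lit 12))
    (@En.n l18680 (nat_lit 759) (nat_lit 14) (nat_lit 4))
    (@En.n l612 (nat_lit 1755) (nat_lit 0) (nat_lit 9))
    (@En.n l50 (nat_lit 2573) (nat_lit 15) (nat_lit 3))))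
  (@Cl.mk (nat_lit 0x20008000d0006000d0003000a0003000d0008000b00030006000a000e0005) (nat_lit 0x1207040a6800250) (nat_lit 16) Lb.e (@T16.mk En
    (@En.i (nat_lit 2573) (nat_lit 5) (nat_lit 5))
    (@En.i (nat_lit 8687) (nat_lit 1) (nat_lit 14))
    (@En.n l617 (nat_lit 2253) (nat_lit 2) (nat_lit 10))
    (@En.i (nat_lit 7880) (nat_lit 3) (nat_lit 6))
    (@En.n l2576 (nat_lit 2289) (nat_lit 4) (nat_lit 3))
    (@En.i (nat_lit 3502) (nat_lit 0) (nat_lit 11))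
    (@En.i (nat_lit 3309) (nat_lit 6) (nat_lit 8))
    (@En.i (nat_lit 2581) (nat_lit 8) (nat_lit 13))
    (@En.i (nat_lit 2579) (nat_lit 8) (nat_lit 3))
    (@En.i (nat_lit 4976) (nat_lit 10) (nat_lit 10))
    (@En.i (nat_lit 2580) (nat_lit 10) (nat_lit 3))
    (@En.i (nat_lit 1845) (nat_lit 12) (nat_lit 13))
    (@En.i (nat_lit 2582) (nat_lit 13) (nat_lit 6))
    (@En.i (nat_lit 12661) (nat_lit 14) (nat_lit 13))
    (@En.n l2678 (nat_lit 2573) (nat_lit 3) (nat_lit 8))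
    (@En.n l11 (nat_lit 2578) (nat_lit 15) (nat_lit 2))))
  (@Cl.mk (nat_lit 0x20008000c0006000d000900040003000d0008000b00030007000a000e0005) (nat_lit 0x140730086800250) (nat_lit 16) Lb.e (@T16.mk En
    (@En.i (nat_lit 2572) (nat_lit 7) (nat_lit 5))
    (@En.i (nat_lit 8688) (nat_lit 1) (nat_lit 14))
    (@En.n l2199 (nat_lit 2257) (nat_lit 8) (nat_lit 10))
    (@En.i (nat_lit 7849) (nat_lit 3) (nat_lit 7))
    (@En.n l2576 (nat_lit 2288) (nat_lit 4) (nat_lit 3))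
    (@En.i (nat_lit 3503) (nat_lit 0) (nat_lit 11))
    (@En.i (nat_lit 3305) (nat_lit 6) (nat_lit 8))
    (@En.i (nat_lit 1447) (nat_lit 8) (nat_lit 13))
    (@En.n l18 (nat_lit 2578) (nat_lit 8) (nat_lit 3))
    (@En.n l3348 (nat_lit 2051) (nat_lit 9) (nat_lit 4))
    (@En.n l61 (nat_lit 2581) (nat_lit 11) (nat_lit 9))
    (@En.n l3749 (nat_lit 1847) (nat_lit 12) (nat_lit 13))
    (@En.i (nat_lit 2584) (nat_lit 13) (nat_lit 6))
    (@En.n l3348 (nat_lit 12637) (nat_lit 14) (nat_lit 12))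
    (@En.n l2678 (nat_lit 2572) (nat_lit 5) (nat_lit 8))
    (@En.n l11 (nat_lit 2579) (nat_lit 15) (nat_lit 2))))
  (@Cl.mk (nat_lit 0x20008000d000c00070003000a0004000d0008000b000300060009000e0005) (nat_lit 0x2550040a5800250) (nat_lit 16) Lb.e (@T16.mk En
    (@En.i (nat_lit 2577) (nat_lit 5) (nat_lit 5))
    (@En.i (nat_lit 8681) (nat_lit 1) (nat_lit 14))
    (@En.n l2039 (nat_lit 2278) (nat_lit 9) (nat_lit 9))
    (@En.i (nat_lit 7881) (nat_lit 3) (nat_lit 6))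
    (@En.n l2576 (nat_lit 2290) (nat_lit 4) (nat_lit 3))
    (@En.i (nat_lit 3500) (nat_lit 0) (nat_lit 11))
    (@En.i (nat_lit 3310) (nat_lit 6) (nat_lit 8))
    (@En.n l3327 (nat_lit 2583) (nat_lit 8) (nat_lit 13))
    (@En.n l3348 (nat_lit 2055) (nat_lit 8) (nat_lit 4))
    (@En.n l612 (nat_lit 2582) (nat_lit 10) (nat_lit 10))
    (@En.n l50 (nat_lit 2578) (nat_lit 10) (nat_lit 3))
    (@En.i (nat_lit 1515) (nat_lit 12) (nat_lit 7))
    (@En.n l217 (nat_lit 2579) (nat_lit 13) (nat_lit 12))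
    (@En.n l3348 (nat_lit 12664) (nat_lit 14) (nat_lit 13))
    (@En.n l2678 (nat_lit 2577) (nat_lit 3) (nat_lit 8))
    (@En.n l11 (nat_lit 2580) (nat_lit 15) (nat_lit 2))))
  (@Cl.mk (nat_lit 0x20009000d000600090003000a000d0007000a000300070006000a000e0006) (nat_lit 0x130204907000360) (nat_lit 16) Lb.e (@T16.mk En
    (@En.i (nat_lit 2514) (nat_lit 5) (nat_lit 6))
    (@En.i (nat_lit 8689) (nat_lit 1) (nat_lit 14))
    (@En.n l617 (nat_lit 2579) (nat_lit 2) (nat_lit 10))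
    (@En.n l17 (nat_lit 2578) (nat_lit 3) (nat_lit 6))
    (@En.i (nat_lit 7842) (nat_lit 4) (nat_lit 7))
    (@En.n l2576 (nat_lit 2291) (nat_lit 5) (nat_lit 3))
    (@En.i (nat_lit 3501) (nat_lit 0) (nat_lit 10))
    (@En.n l5646 (nat_lit 3303) (nat_lit 7) (nat_lit 7))
    (@En.i (nat_lit 1392) (nat_lit 9) (nat_lit 13))
    (@En.i (nat_lit 4972) (nat_lit 10) (nat_lit 10))
    (@En.n l3327 (nat_lit 2583) (nat_lit 10) (nat_lit 3))
    (@En.i (nat_lit 1700) (nat_lit 0) (nat_lit 9))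
    (@En.i (nat_lit 2585) (nat_lit 13) (nat_lit 6))
    (@En.n l3325 (nat_lit 12323) (nat_lit 14) (nat_lit 13))
    (@En.n l2678 (nat_lit 2514) (nat_lit 3) (nat_lit 9))
    (@En.n l11 (nat_lit 2581) (nat_lit 15) (nat_lit 2))))
  (@Cl.mk (nat_lit 0x200090006000d0007000a0003000d0007000a00030006000a0009000e0006) (nat_lit 0x204030808003360) (nat_lit 16) Lb.e (@T16.mk En
    (@En.i (nat_lit 1755) (nat_lit 6) (nat_lit 6))
    (@En.n l5928 (nat_lit 6430) (nat_lit 1) (nat_lit 14))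
    (@En.n l644 (nat_lit 2580) (nat_lit 2) (nat_lit 9))
    (@En.n l617 (nat_lit 2298) (nat_lit 3) (nat_lit 10))
    (@En.i (nat_lit 7883) (nat_lit 4) (nat_lit 6))
    (@En.n l2576 (nat_lit 2588) (nat_lit 5) (nat_lit 3))
    (@En.i (nat_lit 3498) (nat_lit 0) (nat_lit 10))
    (@En.i (nat_lit 3313) (nat_lit 7) (nat_lit 7))
    (@En.i (nat_lit 2585) (nat_lit 9) (nat_lit 13))
    (@En.i (nat_lit 2584) (nat_lit 9) (nat_lit 3))
    (@En.n l538 (nat_lit 4977) (nat_lit 11) (nat_lit 10))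
    (@En.i (nat_lit 1514) (nat_lit 12) (nat_lit 7))
    (@En.n l564 (nat_lit 2581) (nat_lit 13) (nat_lit 13))
    (@En.n l7471 (nat_lit 12139) (nat_lit 14) (nat_lit 6))
    (@En.n l2678 (nat_lit 1755) (nat_lit 4) (nat_lit 9))
    (@En.n l11 (nat_lit 2582) (nat_lit 15) (nat_lit 2))))
  (@Cl.mk (nat_lit 0x20009000d000800070003000a000d0007000a0003000800060009000e0006) (nat_lit 0x271004902040360) (nat_lit 16) Lb.e (@T16.mk En
    (@En.n l12306 (nat_lit 1759) (nat_lit 5) (nat_lit 6))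
    (@En.n l4790 (nat_lit 8152) (nat_lit 1) (nat_lit 14))
    (@En.i (nat_lit 2051) (nat_lit 2) (nat_lit 9))
    (@En.n l7075 (nat_lit 2580) (nat_lit 3) (nat_lit 6))
    (@En.n l4790 (nat_lit 4649) (nat_lit 4) (nat_lit 8))
    (@En.i (nat_lit 2586) (nat_lit 5) (nat_lit 3))
    (@En.n l4790 (nat_lit 3499) (nat_lit 0) (nat_lit 10))
    (@En.n l17552 (nat_lit 3301) (nat_lit 7) (nat_lit 7))
    (@En.n l29872 (nat_lit 1389) (nat_lit 5) (nat_lit 13))
    (@En.n l23371 (nat_lit 2585) (nat_lit 10) (nat_lit 10))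
    (@En.n l3072 (nat_lit 2581) (nat_lit 10) (nat_lit 3))
    (@En.n l1900 (nat_lit 1392) (nat_lit 0) (nat_lit 7))
    (@En.n l4790 (nat_lit 2000) (nat_lit 13) (nat_lit 8))
    (@En.i (nat_lit 12325) (nat_lit 14) (nat_lit 13))
    (@En.n l12308 (nat_lit 1759) (nat_lit 3) (nat_lit 9))
    (@En.n l17 (nat_lit 2583) (nat_lit 15) (nat_lit 2))))
  (@Cl.mk (nat_lit 0x200090006000d000900080003000d0007000a00030007000a0008000e0006) (nat_lit 0x208220707004360) (nat_lit 16) Lb.e (@T16.mk En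
    (@En.n l7695 (nat_lit 1751) (nat_lit 6) (nat_lit 6))
    (@En.n l5928 (nat_lit 6431) (nat_lit 1) (nat_lit 14))
    (@En.n l5911 (nat_lit 2055) (nat_lit 2) (nat_lit 8))
    (@En.n l2773 (nat_lit 2349) (nat_lit 3) (nat_lit 10))
    (@En.i (nat_lit 4647) (nat_lit 4) (nat_lit 7))
    (@En.n l18658 (nat_lit 2589) (nat_lit 5) (nat_lit 3))
    (@En.i (nat_lit 3496) (nat_lit 0) (nat_lit 10))
    (@En.n l18658 (nat_lit 3343) (nat_lit 7) (nat_lit 7))
    (@En.i (nat_lit 1581) (nat_lit 9) (nat_lit 13))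
    (@En.n l18 (nat_lit 2582) (nat_lit 9) (nat_lit 3))
    (@En.n l7695 (nat_lit 1720) (nat_lit 11) (nat_lit 8))
    (@En.n l61 (nat_lit 2585) (nat_lit 12) (nat_lit 9))
    (@En.n l6840 (nat_lit 2583) (nat_lit 13) (nat_lit 13))
    (@En.n l2773 (nat_lit 12140) (nat_lit 14) (nat_lit 6))
    (@En.n l18659 (nat_lit 1751) (nat_lit 4) (nat_lit 9))
    (@En.n l11 (nat_lit 2584) (nat_lit 15) (nat_lit 2))))
  (@Cl.mk (nat_lit 0x2000a000600090007000a000d00060009000300070006000a0009000e0007) (nat_lit 0x201037070005470) (nat_lit 16) Lb.e (@T16.mk En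
    (@En.i (nat_lit 1754) (nat_lit 10) (nat_lit 7))
    (@En.n l5928 (nat_lit 6434) (nat_lit 1) (nat_lit 14))
    (@En.n l1540 (nat_lit 2583) (nat_lit 2) (nat_lit 9))
    (@En.n l617 (nat_lit 2584) (nat_lit 3) (nat_lit 10))
    (@En.n l17 (nat_lit 2582) (nat_lit 4) (nat_lit 6))
    (@En.i (nat_lit 4646) (nat_lit 5) (nat_lit 7))
    (@En.n l34421 (nat_lit 2587) (nat_lit 6) (nat_lit 3))
    (@En.i (nat_lit 3497) (nat_lit 0) (nat_lit 9))
    (@En.n l34422 (nat_lit 3300) (nat_lit 8) (nat_lit 6))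
    (@En.n l3858 (nat_lit 1579) (nat_lit 5) (nat_lit 13))
    (@En.n l22442 (nat_lit 4877) (nat_lit 11) (nat_lit 10))
    (@En.n l10819 (nat_lit 1405) (nat_lit 12) (nat_lit 7))
    (@En.n l3858 (nat_lit 2001) (nat_lit 9) (nat_lit 9))
    (@En.n l7471 (nat_lit 12138) (nat_lit 14) (nat_lit 6))
    (@En.n l2678 (nat_lit 1754) (nat_lit 8) (nat_lit 10))
    (@En.n l11 (nat_lit 2585) (nat_lit 15) (nat_lit 2))))
  (@Cl.mk (nat_lit 0x20008000d000800070003000a000d000900080003000800060009000e0007) (nat_lit 0x331004962040340) (nat_lit 16) Lb.e (@T16.mk En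
    (@En.n l15283 (nat_lit 2505) (nat_lit 5) (nat_lit 7))
    (@En.n l15033 (nat_lit 8682) (nat_lit 1) (nat_lit 14))
    (@En.i (nat_lit 2559) (nat_lit 2) (nat_lit 9))
    (@En.n l2501 (nat_lit 2290) (nat_lit 3) (nat_lit 6))
    (@En.n l15284 (nat_lit 2592) (nat_lit 4) (nat_lit 8))
    (@En.n l50 (nat_lit 2583) (nat_lit 5) (nat_lit 3))
    (@En.n l15285 (nat_lit 3494) (nat_lit 0) (nat_lit 8))
    (@En.n l3053 (nat_lit 2825) (nat_lit 8) (nat_lit 9))
    (@En.n l15286 (nat_lit 1390) (nat_lit 9) (nat_lit 13))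
    (@En.n l15287 (nat_lit 2587) (nat_lit 10) (nat_lit 10))
    (@En.n l15030 (nat_lit 2291) (nat_lit 10) (nat_lit 3))
    (@En.n l15288 (nat_lit 1389) (nat_lit 12) (nat_lit 7))
    (@En.n l15289 (nat_lit 1998) (nat_lit 13) (nat_lit 8))
    (@En.i (nat_lit 12322) (nat_lit 14) (nat_lit 13))
    (@En.n l12326 (nat_lit 2442) (nat_lit 3) (nat_lit 8))
    (@En.n l17 (nat_lit 2586) (nat_lit 15) (nat_lit 2))))
  (@Cl.mk (nat_lit 0x20009000600090007000a000d00080007000300070006000a0009000e0008) (nat_lit 0x301037500005451) (nat_lit 16) Lb.e (@T16.mk En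
    (@En.n l18807 (nat_lit 2507) (nat_lit 10) (nat_lit 8))
    (@En.n l18808 (nat_lit 6435) (nat_lit 1) (nat_lit 14))
    (@En.n l18809 (nat_lit 2586) (nat_lit 2) (nat_lit 9))
    (@En.n l3664 (nat_lit 2589) (nat_lit 3) (nat_lit 10))
    (@En.n l12208 (nat_lit 2588) (nat_lit 4) (nat_lit 6))
    (@En.n l2977 (nat_lit 2590) (nat_lit 5) (nat_lit 7))
    (@En.n l18810 (nat_lit 2585) (nat_lit 6) (nat_lit 3))
    (@En.i (nat_lit 3488) (nat_lit 0) (nat_lit 7))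
    (@En.n l18811 (nat_lit 2829) (nat_lit 9) (nat_lit 8))
    (@En.n l1758 (nat_lit 1704) (nat_lit 10) (nat_lit 13))
    (@En.n l117 (nat_lit 4973) (nat_lit 11) (nat_lit 10))
    (@En.i (nat_lit 1393) (nat_lit 12) (nat_lit 7))
    (@En.n l18812 (nat_lit 1999) (nat_lit 13) (nat_lit 9))
    (@En.n l18813 (nat_lit 12135) (nat_lit 14) (nat_lit 6))
    (@En.n l5900 (nat_lit 2612) (nat_lit 8) (nat_lit 9))
    (@En.n l7 (nat_lit 2587) (nat_lit 15) (nat_lit 2))))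
  (@Cl.mk (nat_lit 0x200080006000d0007000a0003000d0009000800030006000a0009000e0007) (nat_lit 0x305030860002340) (nat_lit 16) Lb.e (@T16.mk En
    (@En.i (nat_lit 2506) (nat_lit 6) (nat_lit 7))
    (@En.n l14405 (nat_lit 6432) (nat_lit 1) (nat_lit 14))
    (@En.n l644 (nat_lit 2290) (nat_lit 2) (nat_lit 9))
    (@En.n l617 (nat_lit 2295) (nat_lit 3) (nat_lit 10))
    (@En.i (nat_lit 6871) (nat_lit 4) (nat_lit 6))
    (@En.n l936 (nat_lit 2582) (nat_lit 5) (nat_lit 3))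
    (@En.n l18791 (nat_lit 3492) (nat_lit 0) (nat_lit 8))
    (@En.n l936 (nat_lit 4220) (nat_lit 14) (nat_lit 9))
    (@En.n l4635 (nat_lit 2587) (nat_lit 9) (nat_lit 13))
    (@En.n l2772 (nat_lit 2589) (nat_lit 9) (nat_lit 3))
    (@En.n l18791 (nat_lit 4975) (nat_lit 11) (nat_lit 10))
    (@En.n l4636 (nat_lit 1516) (nat_lit 12) (nat_lit 7))
    (@En.n l564 (nat_lit 2291) (nat_lit 13) (nat_lit 13))
    (@En.n l2491 (nat_lit 12136) (nat_lit 14) (nat_lit 6))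
    (@En.n l5783 (nat_lit 2611) (nat_lit 4) (nat_lit 8))
    (@En.n l11 (nat_lit 2588) (nat_lit 15) (nat_lit 2))))
  (@Cl.mk (nat_lit 0x200080006000d000900080003000d0009000800030007000a0008000e0007) (nat_lit 0x304220860004340) (nat_lit 16) Lb.e (@T16.mk En
    (@En.n l1109 (nat_lit 2508) (nat_lit 6) (nat_lit 7))
    (@En.n l1112 (nat_lit 6433) (nat_lit 1) (nat_lit 14))
    (@En.n l7814 (nat_lit 2050) (nat_lit 2) (nat_lit 8))
    (@En.n l1110 (nat_lit 2348) (nat_lit 3) (nat_lit 10))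
    (@En.n l7815 (nat_lit 2591) (nat_lit 4) (nat_lit 7))
    (@En.n l7816 (nat_lit 2584) (nat_lit 5) (nat_lit 3))
    (@En.i (nat_lit 3487) (nat_lit 0) (nat_lit 8))
    (@En.n l3523 (nat_lit 2830) (nat_lit 14) (nat_lit 9))
    (@En.n l1105 (nat_lit 1588) (nat_lit 9) (nat_lit 13))
    (@En.n l7817 (nat_lit 2588) (nat_lit 9) (nat_lit 3))
    (@En.n l3667 (nat_lit 1719) (nat_lit 11) (nat_lit 8))
    (@En.n l1107 (nat_lit 2587) (nat_lit 12) (nat_lit 9))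
    (@En.n l7818 (nat_lit 2586) (nat_lit 13) (nat_lit 13))
    (@En.n l3670 (nat_lit 12137) (nat_lit 14) (nat_lit 6))
    (@En.n l7819 (nat_lit 2613) (nat_lit 4) (nat_lit 8))
    (@En.n l7 (nat_lit 2589) (nat_lit 15) (nat_lit 2))))
  (@Cl.mk (nat_lit 0x2000800060009000d0008000b00030009000800070005000a0008000e0007) (nat_lit 0x5630000003300) (nat_lit 16) Lb.e (@T16.mk En
    (@En.i (nat_lit 2594) (nat_lit 7) (nat_lit 7))
    (@En.n l2031 (nat_lit 7951) (nat_lit 1) (nat_lit 14))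
    (@En.n l34550 (nat_lit 2592) (nat_lit 2) (nat_lit 8))
    (@En.n l34551 (nat_lit 2591) (nat_lit 3) (nat_lit 10))
    (@En.n l2221 (nat_lit 6673) (nat_lit 4) (nat_lit 5))
    (@En.n l2345 (nat_lit 9046) (nat_lit 5) (nat_lit 7))
    (@En.i (nat_lit 7234) (nat_lit 6) (nat_lit 8))
    (@En.n l4991 (nat_lit 10556) (nat_lit 8) (nat_lit 9))
    (@En.n l3596 (nat_lit 2593) (nat_lit 8) (nat_lit 3))
    (@En.i (nat_lit 5728) (nat_lit 0) (nat_lit 11))
    (@En.n l4991 (nat_lit 3161) (nat_lit 11) (nat_lit 8))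
    (@En.n l3599 (nat_lit 2588) (nat_lit 12) (nat_lit 13))
    (@En.i (nat_lit 1844) (nat_lit 13) (nat_lit 9))
    (@En.n l1353 (nat_lit 11246) (nat_lit 14) (nat_lit 6))
    (@En.n l18 (nat_lit 6793) (nat_lit 5) (nat_lit 8))
    (@En.n l50 (nat_lit 2590) (nat_lit 15) (nat_lit 2))))
  (@Cl.mk (nat_lit 0x200070006000c0009000d000900040003000a00090007000a0007000e0006) (nat_lit 0x684000002000) (nat_lit 16) Lb.e (@T16.mk En
    (@En.n l6979 (nat_lit 2596) (nat_lit 8) (nat_lit 6))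
    (@En.n l18742 (nat_lit 7950) (nat_lit 1) (nat_lit 14))
    (@En.n l18743 (nat_lit 2314) (nat_lit 2) (nat_lit 7))
    (@En.i (nat_lit 2642) (nat_lit 3) (nat_lit 10))
    (@En.n l61 (nat_lit 8587) (nat_lit 4) (nat_lit 7))
    (@En.n l1545 (nat_lit 2949) (nat_lit 5) (nat_lit 9))
    (@En.n l4543 (nat_lit 8839) (nat_lit 7) (nat_lit 10))
    (@En.n l11 (nat_lit 2595) (nat_lit 7) (nat_lit 3))
    (@En.n l18744 (nat_lit 6871) (nat_lit 8) (nat_lit 4))
    (@En.i (nat_lit 3160) (nat_lit 10) (nat_lit 9))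
    (@En.n l7921 (nat_lit 2295) (nat_lit 11) (nat_lit 13))
    (@En.n l18745 (nat_lit 2590) (nat_lit 12) (nat_lit 9))
    (@En.n l9775 (nat_lit 2592) (nat_lit 13) (nat_lit 12))
    (@En.n l18746 (nat_lit 11237) (nat_lit 14) (nat_lit 6))
    (@En.n l6984 (nat_lit 6794) (nat_lit 6) (nat_lit 7))
    (@En.n l50 (nat_lit 2591) (nat_lit 15) (nat_lit 2))))
noncomputable def a162 : T16 Cl := @T16.mk Cl
  (@Cl.mk (nat_lit 0x20007000c0008000c00080004000b0004000a0009000800050008000e0006) (nat_lit 0xa3630100030200) (nat_lit 16) Lb.e (@T16.mk En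
    (@En.n l394 (nat_lit 6891) (nat_lit 6) (nat_lit 6))
    (@En.n l2813 (nat_lit 10260) (nat_lit 1) (nat_lit 14))
    (@En.n l152 (nat_lit 6885) (nat_lit 10) (nat_lit 8))
    (@En.n l19165 (nat_lit 6671) (nat_lit 3) (nat_lit 5))
    (@En.n l644 (nat_lit 9044) (nat_lit 4) (nat_lit 8))
    (@En.n l4136 (nat_lit 7236) (nat_lit 5) (nat_lit 9))
    (@En.n l170 (nat_lit 10557) (nat_lit 7) (nat_lit 10))
    (@En.n l345 (nat_lit 7041) (nat_lit 7) (nat_lit 4))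
    (@En.n l29906 (nat_lit 2590) (nat_lit 9) (nat_lit 11))
    (@En.n l20648 (nat_lit 6881) (nat_lit 9) (nat_lit 4))
    (@En.i (nat_lit 3162) (nat_lit 11) (nat_lit 8))
    (@En.n l2813 (nat_lit 2290) (nat_lit 12) (nat_lit 12))
    (@En.n l6631 (nat_lit 1559) (nat_lit 13) (nat_lit 8))
    (@En.n l14939 (nat_lit 11436) (nat_lit 14) (nat_lit 12))
    (@En.n l24206 (nat_lit 6790) (nat_lit 13) (nat_lit 7))
    (@En.n l28 (nat_lit 2592) (nat_lit 15) (nat_lit 2))))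
  (@Cl.mk (nat_lit 0x2000800060009000d000a000900030009000800070006000a0007000e0007) (nat_lit 0x1055000000030c0) (nat_lit 16) Lb.e (@T16.mk En
    (@En.n l34463 (nat_lit 2597) (nat_lit 7) (nat_lit 7))
    (@En.n l19244 (nat_lit 7954) (nat_lit 1) (nat_lit 14))
    (@En.n l19756 (nat_lit 7041) (nat_lit 2) (nat_lit 7))
    (@En.n l28324 (nat_lit 2595) (nat_lit 3) (nat_lit 10))
    (@En.n l28324 (nat_lit 2599) (nat_lit 4) (nat_lit 6))
    (@En.n l17 (nat_lit 9048) (nat_lit 5) (nat_lit 7))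
    (@En.i (nat_lit 2948) (nat_lit 6) (nat_lit 8))
    (@En.n l20450 (nat_lit 10064) (nat_lit 8) (nat_lit 9))
    (@En.n l1106 (nat_lit 2590) (nat_lit 8) (nat_lit 3))
    (@En.n l619 (nat_lit 6504) (nat_lit 0) (nat_lit 9))
    (@En.n l10040 (nat_lit 7702) (nat_lit 11) (nat_lit 10))
    (@En.i (nat_lit 2589) (nat_lit 12) (nat_lit 13))
    (@En.n l11421 (nat_lit 1686) (nat_lit 9) (nat_lit 9))
    (@En.i (nat_lit 11240) (nat_lit 14) (nat_lit 6))
    (@En.n l50 (nat_lit 1715) (nat_lit 5) (nat_lit 8))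
    (@En.n l7 (nat_lit 2593) (nat_lit 15) (nat_lit 2))))
  (@Cl.mk (nat_lit 0x300090009000900080006000b000900070007000700050008000d0007000a) (nat_lit 0x10400300004704) (nat_lit 16) Lb.e (@T16.mk En
    (@En.i (nat_lit 5729) (nat_lit 8) (nat_lit 10))
    (@En.n l32323 (nat_lit 3153) (nat_lit 13) (nat_lit 7))
    (@En.n l3599 (nat_lit 2506) (nat_lit 2) (nat_lit 13))
    (@En.n l2348 (nat_lit 1519) (nat_lit 10) (nat_lit 8))
    (@En.n l1353 (nat_lit 11245) (nat_lit 4) (nat_lit 5))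
    (@En.n l12845 (nat_lit 6487) (nat_lit 9) (nat_lit 7))
    (@En.n l34788 (nat_lit 7817) (nat_lit 9) (nat_lit 7))
    (@En.n l34789 (nat_lit 9964) (nat_lit 7) (nat_lit 7))
    (@En.n l34790 (nat_lit 6891) (nat_lit 7) (nat_lit 9))
    (@En.n l34791 (nat_lit 2596) (nat_lit 10) (nat_lit 11))
    (@En.n l34792 (nat_lit 6883) (nat_lit 10) (nat_lit 6))
    (@En.n l34793 (nat_lit 8573) (nat_lit 12) (nat_lit 8))
    (@En.n l34794 (nat_lit 7241) (nat_lit 7) (nat_lit 9))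
    (@En.n l644 (nat_lit 2590) (nat_lit 7) (nat_lit 9))
    (@En.n l23339 (nat_lit 8821) (nat_lit 12) (nat_lit 9))
    (@En.n l34795 (nat_lit 2597) (nat_lit 15) (nat_lit 3))))
  (@Cl.mk (nat_lit 0x200070006000d0009000d0003000a0003000a00090007000a0006000e0006) (nat_lit 0x650004002000) (nat_lit 16) Lb.e (@T16.mk En
    (@En.n l6979 (nat_lit 2598) (nat_lit 6) (nat_lit 6))
    (@En.n l6980 (nat_lit 7953) (nat_lit 1) (nat_lit 14))
    (@En.n l24384 (nat_lit 7043) (nat_lit 2) (nat_lit 6))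
    (@En.i (nat_lit 2643) (nat_lit 3) (nat_lit 10))
    (@En.n l61 (nat_lit 8588) (nat_lit 4) (nat_lit 7))
    (@En.n l1545 (nat_lit 2944) (nat_lit 5) (nat_lit 9))
    (@En.i (nat_lit 10066) (nat_lit 7) (nat_lit 10))
    (@En.i (nat_lit 2591) (nat_lit 7) (nat_lit 3))
    (@En.n l14735 (nat_lit 6505) (nat_lit 9) (nat_lit 10))
    (@En.n l117 (nat_lit 2599) (nat_lit 9) (nat_lit 3))
    (@En.n l28517 (nat_lit 2348) (nat_lit 11) (nat_lit 13))
    (@En.n l28518 (nat_lit 2593) (nat_lit 12) (nat_lit 9))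
    (@En.n l27756 (nat_lit 7040) (nat_lit 13) (nat_lit 13))
    (@En.n l6983 (nat_lit 11239) (nat_lit 14) (nat_lit 6))
    (@En.n l6984 (nat_lit 6798) (nat_lit 4) (nat_lit 7))
    (@En.n l50 (nat_lit 2595) (nat_lit 15) (nat_lit 2))))
  (@Cl.mk (nat_lit 0x3000a000a000a0008000b00080006000600060005000c0008000d00080004) (nat_lit 0x10492000055740) (nat_lit 16) Lb.e (@T16.mk En
    (@En.n l2211 (nat_lit 6875) (nat_lit 0) (nat_lit 4))
    (@En.i (nat_lit 3157) (nat_lit 0) (nat_lit 8))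
    (@En.n l12830 (nat_lit 2301) (nat_lit 1) (nat_lit 13))
    (@En.n l19046 (nat_lit 2594) (nat_lit 3) (nat_lit 8))
    (@En.n l9775 (nat_lit 6891) (nat_lit 3) (nat_lit 12))
    (@En.n l15740 (nat_lit 11244) (nat_lit 11) (nat_lit 5))
    (@En.n l2172 (nat_lit 6489) (nat_lit 10) (nat_lit 6))
    (@En.n l77 (nat_lit 7815) (nat_lit 10) (nat_lit 6))
    (@En.i (nat_lit 9968) (nat_lit 8) (nat_lit 6))
    (@En.n l19047 (nat_lit 2318) (nat_lit 10) (nat_lit 8))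
    (@En.i (nat_lit 2652) (nat_lit 7) (nat_lit 11))
    (@En.n l742 (nat_lit 8576) (nat_lit 12) (nat_lit 8))
    (@En.n l396 (nat_lit 7242) (nat_lit 6) (nat_lit 10))
    (@En.n l6367 (nat_lit 2591) (nat_lit 6) (nat_lit 10))
    (@En.n l5663 (nat_lit 8825) (nat_lit 14) (nat_lit 10))
    (@En.n l11 (nat_lit 2598) (nat_lit 13) (nat_lit 3))))
  (@Cl.mk (nat_lit 0x300090009000900080007000b000800070007000700050008000d00090008) (nat_lit 0x10400400004700) (nat_lit 16) Lb.e (@T16.mk En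
    (@En.n l34852 (nat_lit 6495) (nat_lit 0) (nat_lit 8))
    (@En.n l34853 (nat_lit 5849) (nat_lit 13) (nat_lit 9))
    (@En.n l34854 (nat_lit 2508) (nat_lit 2) (nat_lit 13))
    (@En.n l20187 (nat_lit 1575) (nat_lit 10) (nat_lit 8))
    (@En.n l34855 (nat_lit 11242) (nat_lit 4) (nat_lit 5))
    (@En.n l2172 (nat_lit 6485) (nat_lit 9) (nat_lit 7))
    (@En.n l77 (nat_lit 7816) (nat_lit 9) (nat_lit 7))
    (@En.i (nat_lit 9965) (nat_lit 7) (nat_lit 7))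
    (@En.n l34856 (nat_lit 6042) (nat_lit 9) (nat_lit 8))
    (@En.n l3 (nat_lit 2598) (nat_lit 8) (nat_lit 11))
    (@En.n l3 (nat_lit 5855) (nat_lit 9) (nat_lit 7))
    (@En.n l742 (nat_lit 9050) (nat_lit 12) (nat_lit 8))
    (@En.n l396 (nat_lit 7243) (nat_lit 7) (nat_lit 9))
    (@En.n l34857 (nat_lit 2593) (nat_lit 7) (nat_lit 9))
    (@En.n l28 (nat_lit 9861) (nat_lit 12) (nat_lit 9))
    (@En.n l19046 (nat_lit 2594) (nat_lit 15) (nat_lit 3))))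
  (@Cl.mk (nat_lit 0x300090003000a000a000a0008000b00070006000600060005000d0008000d) (nat_lit 0x504900000056) (nat_lit 16) Lb.e (@T16.mk En
    (@En.i (nat_lit 2342) (nat_lit 0) (nat_lit 13))
    (@En.i (nat_lit 2597) (nat_lit 3) (nat_lit 8))
    (@En.n l6080 (nat_lit 6039) (nat_lit 2) (nat_lit 13))
    (@En.n l22965 (nat_lit 11241) (nat_lit 3) (nat_lit 5))
    (@En.n l2172 (nat_lit 6488) (nat_lit 10) (nat_lit 6))
    (@En.n l77 (nat_lit 7814) (nat_lit 10) (nat_lit 6))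
    (@En.i (nat_lit 9967) (nat_lit 8) (nat_lit 6))
    (@En.n l12826 (nat_lit 7050) (nat_lit 7) (nat_lit 7))
    (@En.i (nat_lit 2651) (nat_lit 7) (nat_lit 11))
    (@En.n l742 (nat_lit 9054) (nat_lit 12) (nat_lit 8))
    (@En.n l396 (nat_lit 7244) (nat_lit 6) (nat_lit 10))
    (@En.n l6367 (nat_lit 2595) (nat_lit 6) (nat_lit 10))
    (@En.n l28 (nat_lit 9859) (nat_lit 13) (nat_lit 10))
    (@En.i (nat_lit 2596) (nat_lit 15) (nat_lit 3))
    (@En.n l1347 (nat_lit 6496) (nat_lit 0) (nat_lit 9))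
    (@En.n l117 (nat_lit 5855) (nat_lit 15) (nat_lit 3))))
  (@Cl.mk (nat_lit 0x200070006000d000c000a0003000a0004000a00090006000a0006000e0006) (nat_lit 0x180004001000) (nat_lit 16) Lb.e (@T16.mk En
    (@En.n l6979 (nat_lit 5855) (nat_lit 6) (nat_lit 6))
    (@En.n l18265 (nat_lit 7952) (nat_lit 1) (nat_lit 14))
    (@En.n l41219 (nat_lit 7046) (nat_lit 2) (nat_lit 6))
    (@En.i (nat_lit 1171) (nat_lit 3) (nat_lit 10))
    (@En.n l61 (nat_lit 8589) (nat_lit 4) (nat_lit 6))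
    (@En.n l1545 (nat_lit 2947) (nat_lit 5) (nat_lit 9))
    (@En.n l31261 (nat_lit 10068) (nat_lit 7) (nat_lit 10))
    (@En.n l33078 (nat_lit 6673) (nat_lit 7) (nat_lit 4))
    (@En.n l7529 (nat_lit 5163) (nat_lit 9) (nat_lit 10))
    (@En.n l152 (nat_lit 2595) (nat_lit 9) (nat_lit 3))
    (@En.n l41220 (nat_lit 5851) (nat_lit 11) (nat_lit 10))
    (@En.n l619 (nat_lit 2591) (nat_lit 12) (nat_lit 12))
    (@En.n l31261 (nat_lit 6670) (nat_lit 13) (nat_lit 13))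
    (@En.n l17035 (nat_lit 11236) (nat_lit 14) (nat_lit 6))
    (@En.n l17036 (nat_lit 6802) (nat_lit 4) (nat_lit 7))
    (@En.n l50 (nat_lit 2599) (nat_lit 15) (nat_lit 2))))
  (@Cl.mk (nat_lit 0x2000d000c00070003000a0004000d000b000a0003000600090005000e0006) (nat_lit 0x560040878002060) (nat_lit 16) Lb.e (@T16.mk En
    (@En.i (nat_lit 2504) (nat_lit 4) (nat_lit 6))
    (@En.n l1578 (nat_lit 2580) (nat_lit 1) (nat_lit 14))
    (@En.n l117 (nat_lit 8205) (nat_lit 2) (nat_lit 5))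
    (@En.n l617 (nat_lit 2381) (nat_lit 9) (nat_lit 9))
    (@En.i (nat_lit 7935) (nat_lit 12) (nat_lit 6))
    (@En.i (nat_lit 2441) (nat_lit 5) (nat_lit 3))
    (@En.n l575 (nat_lit 3507) (nat_lit 0) (nat_lit 10))
    (@En.i (nat_lit 2885) (nat_lit 8) (nat_lit 11))
    (@En.i (nat_lit 2602) (nat_lit 9) (nat_lit 13))
    (@En.n l50 (nat_lit 2438) (nat_lit 9) (nat_lit 4))
    (@En.n l612 (nat_lit 2603) (nat_lit 11) (nat_lit 10))
    (@En.n l50 (nat_lit 2388) (nat_lit 11) (nat_lit 3))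
    (@En.i (nat_lit 1513) (nat_lit 0) (nat_lit 7))
    (@En.n l217 (nat_lit 2389) (nat_lit 14) (nat_lit 12))
    (@En.i (nat_lit 10686) (nat_lit 9) (nat_lit 13))
    (@En.n l28 (nat_lit 2600) (nat_lit 15) (nat_lit 2))))
  (@Cl.mk (nat_lit 0x2000d000600090003000a000d000a0009000300070006000a0006000e0007) (nat_lit 0x502047670006070) (nat_lit 16) Lb.e (@T16.mk En
    (@En.i (nat_lit 2503) (nat_lit 4) (nat_lit 7))
    (@En.n l1578 (nat_lit 2581) (nat_lit 1) (nat_lit 14))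
    (@En.n l117 (nat_lit 8207) (nat_lit 2) (nat_lit 6))
    (@En.n l617 (nat_lit 2389) (nat_lit 3) (nat_lit 10))
    (@En.n l17 (nat_lit 2388) (nat_lit 4) (nat_lit 6))
    (@En.i (nat_lit 7129) (nat_lit 5) (nat_lit 7))
    (@En.i (nat_lit 2609) (nat_lit 6) (nat_lit 3))
    (@En.n l575 (nat_lit 3504) (nat_lit 0) (nat_lit 9))
    (@En.n l17 (nat_lit 2884) (nat_lit 9) (nat_lit 10))
    (@En.i (nat_lit 1720) (nat_lit 5) (nat_lit 13))
    (@En.i (nat_lit 4873) (nat_lit 11) (nat_lit 10))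
    (@En.i (nat_lit 2602) (nat_lit 11) (nat_lit 3))
    (@En.i (nat_lit 1697) (nat_lit 9) (nat_lit 9))
    (@En.i (nat_lit 2604) (nat_lit 14) (nat_lit 6))
    (@En.i (nat_lit 10648) (nat_lit 2) (nat_lit 13))
    (@En.n l28 (nat_lit 2601) (nat_lit 15) (nat_lit 2))))
  (@Cl.mk (nat_lit 0x2000d000800070003000a000d000a000900030008000600090006000e0007) (nat_lit 0x510047620403070) (nat_lit 16) Lb.e (@T16.mk En
    (@En.n l7949 (nat_lit 2505) (nat_lit 4) (nat_lit 7))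
    (@En.n l20746 (nat_lit 2583) (nat_lit 1) (nat_lit 14))
    (@En.n l117 (nat_lit 8208) (nat_lit 2) (nat_lit 6))
    (@En.n l20746 (nat_lit 2433) (nat_lit 3) (nat_lit 9))
    (@En.n l17 (nat_lit 2600) (nat_lit 4) (nat_lit 6))
    (@En.i (nat_lit 7240) (nat_lit 5) (nat_lit 8))
    (@En.n l3619 (nat_lit 2439) (nat_lit 6) (nat_lit 3))
    (@En.n l575 (nat_lit 3493) (nat_lit 0) (nat_lit 9))
    (@En.n l20747 (nat_lit 2888) (nat_lit 9) (nat_lit 10))
    (@En.n l12740 (nat_lit 1719) (nat_lit 5) (nat_lit 13))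
    (@En.n l612 (nat_lit 2604) (nat_lit 11) (nat_lit 10))
    (@En.n l50 (nat_lit 2601) (nat_lit 11) (nat_lit 3))
    (@En.n l4748 (nat_lit 1539) (nat_lit 0) (nat_lit 7))
    (@En.i (nat_lit 1770) (nat_lit 14) (nat_lit 8))
    (@En.n l20748 (nat_lit 10680) (nat_lit 2) (nat_lit 13))
    (@En.n l28 (nat_lit 2602) (nat_lit 15) (nat_lit 2))))
  (@Cl.mk (nat_lit 0x20006000d0007000a0003000d000a000900030006000a00090006000e0007) (nat_lit 0x60305670053070) (nat_lit 16) Lb.e (@T16.mk En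
    (@En.i (nat_lit 2506) (nat_lit 5) (nat_lit 7))
    (@En.n l1578 (nat_lit 2582) (nat_lit 1) (nat_lit 14))
    (@En.n l10152 (nat_lit 6208) (nat_lit 2) (nat_lit 6))
    (@En.n l644 (nat_lit 2600) (nat_lit 3) (nat_lit 9))
    (@En.n l617 (nat_lit 2303) (nat_lit 4) (nat_lit 10))
    (@En.i (nat_lit 7936) (nat_lit 5) (nat_lit 6))
    (@En.i (nat_lit 2607) (nat_lit 6) (nat_lit 3))
    (@En.n l575 (nat_lit 3491) (nat_lit 0) (nat_lit 9))
    (@En.i (nat_lit 2886) (nat_lit 9) (nat_lit 10))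
    (@En.i (nat_lit 2604) (nat_lit 10) (nat_lit 13))
    (@En.i (nat_lit 2605) (nat_lit 10) (nat_lit 3))
    (@En.n l538 (nat_lit 4872) (nat_lit 12) (nat_lit 10))
    (@En.i (nat_lit 1428) (nat_lit 13) (nat_lit 7))
    (@En.n l564 (nat_lit 2601) (nat_lit 14) (nat_lit 13))
    (@En.n l3100 (nat_lit 10359) (nat_lit 7) (nat_lit 6))
    (@En.n l28 (nat_lit 2603) (nat_lit 15) (nat_lit 2))))
  (@Cl.mk (nat_lit 0x2000600090007000a000d00090008000300070006000a00090007000e0008) (nat_lit 0x10345600064082) (nat_lit 16) Lb.e (@T16.mk En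
    (@En.n l19109 (nat_lit 2507) (nat_lit 9) (nat_lit 8))
    (@En.n l1578 (nat_lit 2585) (nat_lit 1) (nat_lit 14))
    (@En.n l23609 (nat_lit 6209) (nat_lit 2) (nat_lit 7))
    (@En.n l644 (nat_lit 2602) (nat_lit 3) (nat_lit 9))
    (@En.n l617 (nat_lit 2605) (nat_lit 4) (nat_lit 10))
    (@En.n l17 (nat_lit 2603) (nat_lit 5) (nat_lit 6))
    (@En.i (nat_lit 7241) (nat_lit 6) (nat_lit 7))
    (@En.n l10153 (nat_lit 2606) (nat_lit 7) (nat_lit 3))
    (@En.n l575 (nat_lit 3489) (nat_lit 0) (nat_lit 8))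
    (@En.n l23610 (nat_lit 2889) (nat_lit 10) (nat_lit 9))
    (@En.n l12741 (nat_lit 1732) (nat_lit 11) (nat_lit 13))
    (@En.n l20353 (nat_lit 4870) (nat_lit 12) (nat_lit 10))
    (@En.i (nat_lit 1426) (nat_lit 13) (nat_lit 7))
    (@En.n l23611 (nat_lit 2003) (nat_lit 14) (nat_lit 9))
    (@En.n l20353 (nat_lit 10358) (nat_lit 6) (nat_lit 6))
    (@En.n l28 (nat_lit 2604) (nat_lit 15) (nat_lit 2))))
  (@Cl.mk (nat_lit 0x20006000d000900080003000d000a000900030007000a00080006000e0007) (nat_lit 0x62205670053070) (nat_lit 16) Lb.e (@T16.mk En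
    (@En.i (nat_lit 2508) (nat_lit 5) (nat_lit 7))
    (@En.n l1578 (nat_lit 2584) (nat_lit 1) (nat_lit 14))
    (@En.n l8691 (nat_lit 6207) (nat_lit 2) (nat_lit 6))
    (@En.i (nat_lit 2438) (nat_lit 3) (nat_lit 8))
    (@En.n l8691 (nat_lit 2351) (nat_lit 4) (nat_lit 10))
    (@En.n l7916 (nat_lit 7242) (nat_lit 5) (nat_lit 7))
    (@En.n l8691 (nat_lit 2608) (nat_lit 6) (nat_lit 3))
    (@En.n l575 (nat_lit 3490) (nat_lit 0) (nat_lit 9))
    (@En.n l10345 (nat_lit 2887) (nat_lit 9) (nat_lit 10))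
    (@En.n l10346 (nat_lit 1589) (nat_lit 10) (nat_lit 13))
    (@En.n l18 (nat_lit 2603) (nat_lit 10) (nat_lit 3))
    (@En.n l2769 (nat_lit 1723) (nat_lit 12) (nat_lit 8))
    (@En.n l61 (nat_lit 2604) (nat_lit 13) (nat_lit 9))
    (@En.n l564 (nat_lit 2602) (nat_lit 14) (nat_lit 13))
    (@En.n l2773 (nat_lit 10360) (nat_lit 7) (nat_lit 6))
    (@En.n l28 (nat_lit 2605) (nat_lit 15) (nat_lit 2))))
  (@Cl.mk (nat_lit 0x2000600090007000a000d0007000a000300070006000a00090006000e0009) (nat_lit 0x10340000065062) (nat_lit 16) Lb.e (@T16.mk En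
    (@En.n l10283 (nat_lit 2612) (nat_lit 9) (nat_lit 9))
    (@En.n l601 (nat_lit 2587) (nat_lit 1) (nat_lit 14))
    (@En.n l10284 (nat_lit 1045) (nat_lit 2) (nat_lit 6))
    (@En.n l1762 (nat_lit 2439) (nat_lit 3) (nat_lit 9))
    (@En.n l5466 (nat_lit 2608) (nat_lit 4) (nat_lit 10))
    (@En.n l10285 (nat_lit 2607) (nat_lit 5) (nat_lit 6))
    (@En.n l2977 (nat_lit 6795) (nat_lit 6) (nat_lit 7))
    (@En.n l10286 (nat_lit 2604) (nat_lit 7) (nat_lit 3))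
    (@En.n l10284 (nat_lit 14022) (nat_lit 8) (nat_lit 10))
    (@En.n l10287 (nat_lit 2836) (nat_lit 10) (nat_lit 7))
    (@En.n l1758 (nat_lit 1707) (nat_lit 11) (nat_lit 13))
    (@En.n l117 (nat_lit 4874) (nat_lit 12) (nat_lit 10))
    (@En.n l5313 (nat_lit 1430) (nat_lit 13) (nat_lit 7))
    (@En.n l10277 (nat_lit 2012) (nat_lit 14) (nat_lit 9))
    (@En.n l2032 (nat_lit 8464) (nat_lit 6) (nat_lit 6))
    (@En.n l50 (nat_lit 2606) (nat_lit 15) (nat_lit 2))))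
  (@Cl.mk (nat_lit 0x20006000d0007000a0003000d0008000b00030006000a00090005000e0008) (nat_lit 0x60305000054052) (nat_lit 16) Lb.e (@T16.mk En
    (@En.n l1177 (nat_lit 2611) (nat_lit 5) (nat_lit 8))
    (@En.n l2400 (nat_lit 2588) (nat_lit 1) (nat_lit 14))
    (@En.n l10152 (nat_lit 1175) (nat_lit 2) (nat_lit 5))
    (@En.n l644 (nat_lit 2441) (nat_lit 3) (nat_lit 9))
    (@En.n l10152 (nat_lit 2305) (nat_lit 4) (nat_lit 10))
    (@En.i (nat_lit 6870) (nat_lit 5) (nat_lit 6))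
    (@En.n l3 (nat_lit 2603) (nat_lit 6) (nat_lit 3))
    (@En.n l10152 (nat_lit 14023) (nat_lit 7) (nat_lit 11))
    (@En.n l3851 (nat_lit 4222) (nat_lit 9) (nat_lit 8))
    (@En.n l10153 (nat_lit 2606) (nat_lit 10) (nat_lit 13))
    (@En.n l8691 (nat_lit 2608) (nat_lit 10) (nat_lit 3))
    (@En.n l10154 (nat_lit 4992) (nat_lit 8) (nat_lit 10))
    (@En.n l3908 (nat_lit 1432) (nat_lit 13) (nat_lit 7))
    (@En.n l564 (nat_lit 2609) (nat_lit 14) (nat_lit 13))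
    (@En.n l3911 (nat_lit 8462) (nat_lit 7) (nat_lit 6))
    (@En.n l28 (nat_lit 2607) (nat_lit 15) (nat_lit 2))))
noncomputable def a163 : T16 Cl := @T16.mk Cl
  (@Cl.mk (nat_lit 0x20006000d000900080003000d0008000b00030007000a00080005000e0008) (nat_lit 0x52205000054052) (nat_lit 16) Lb.e (@T16.mk En
    (@En.n l3673 (nat_lit 2613) (nat_lit 5) (nat_lit 8))
    (@En.n l3674 (nat_lit 2589) (nat_lit 1) (nat_lit 14))
    (@En.i (nat_lit 1036) (nat_lit 2) (nat_lit 5))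
    (@En.n l3675 (nat_lit 2436) (nat_lit 3) (nat_lit 8))
    (@En.i (nat_lit 2343) (nat_lit 4) (nat_lit 10))
    (@En.n l115 (nat_lit 6797) (nat_lit 5) (nat_lit 7))
    (@En.n l3676 (nat_lit 2605) (nat_lit 6) (nat_lit 3))
    (@En.i (nat_lit 14021) (nat_lit 7) (nat_lit 11))
    (@En.n l3677 (nat_lit 4224) (nat_lit 9) (nat_lit 8))
    (@En.n l3678 (nat_lit 1706) (nat_lit 10) (nat_lit 13))
    (@En.n l3679 (nat_lit 2607) (nat_lit 10) (nat_lit 3))
    (@En.n l1255 (nat_lit 1725) (nat_lit 12) (nat_lit 8))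
    (@En.n l1730 (nat_lit 2606) (nat_lit 13) (nat_lit 9))
    (@En.n l3680 (nat_lit 2439) (nat_lit 14) (nat_lit 13))
    (@En.i (nat_lit 8463) (nat_lit 7) (nat_lit 6))
    (@En.n l17 (nat_lit 2608) (nat_lit 15) (nat_lit 2))))
  (@Cl.mk (nat_lit 0x2000d000600090003000a000d0008000b000300070006000a0005000e0008) (nat_lit 0x501045690005051) (nat_lit 16) Lb.e (@T16.mk En
    (@En.n l1177 (nat_lit 2445) (nat_lit 4) (nat_lit 8))
    (@En.n l2400 (nat_lit 2291) (nat_lit 1) (nat_lit 14))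
    (@En.n l117 (nat_lit 6824) (nat_lit 2) (nat_lit 5))
    (@En.n l617 (nat_lit 2440) (nat_lit 3) (nat_lit 10))
    (@En.n l17 (nat_lit 2610) (nat_lit 4) (nat_lit 6))
    (@En.i (nat_lit 6648) (nat_lit 5) (nat_lit 7))
    (@En.n l3 (nat_lit 2601) (nat_lit 6) (nat_lit 3))
    (@En.n l9792 (nat_lit 14009) (nat_lit 7) (nat_lit 11))
    (@En.i (nat_lit 4298) (nat_lit 13) (nat_lit 8))
    (@En.n l7192 (nat_lit 1296) (nat_lit 5) (nat_lit 13))
    (@En.n l17477 (nat_lit 1884) (nat_lit 11) (nat_lit 10))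
    (@En.n l3619 (nat_lit 2439) (nat_lit 11) (nat_lit 3))
    (@En.n l17800 (nat_lit 1689) (nat_lit 9) (nat_lit 9))
    (@En.n l10153 (nat_lit 2606) (nat_lit 14) (nat_lit 6))
    (@En.n l3927 (nat_lit 9679) (nat_lit 2) (nat_lit 13))
    (@En.n l28 (nat_lit 2609) (nat_lit 15) (nat_lit 2))))
  (@Cl.mk (nat_lit 0x2000d0006000d0003000a0003000d0009000c00030006000a0004000e0007) (nat_lit 0x506040600004040) (nat_lit 16) Lb.e (@T16.mk En
    (@En.n l1177 (nat_lit 2614) (nat_lit 4) (nat_lit 7))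
    (@En.n l2400 (nat_lit 2289) (nat_lit 1) (nat_lit 14))
    (@En.n l117 (nat_lit 6825) (nat_lit 2) (nat_lit 4))
    (@En.n l617 (nat_lit 2275) (nat_lit 3) (nat_lit 10))
    (@En.i (nat_lit 6705) (nat_lit 12) (nat_lit 6))
    (@En.n l3 (nat_lit 2388) (nat_lit 5) (nat_lit 3))
    (@En.n l10165 (nat_lit 14026) (nat_lit 6) (nat_lit 12))
    (@En.n l3851 (nat_lit 4301) (nat_lit 14) (nat_lit 9))
    (@En.i (nat_lit 2609) (nat_lit 9) (nat_lit 13))
    (@En.i (nat_lit 2440) (nat_lit 9) (nat_lit 3))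
    (@En.i (nat_lit 4994) (nat_lit 11) (nat_lit 10))
    (@En.i (nat_lit 2441) (nat_lit 11) (nat_lit 3))
    (@En.i (nat_lit 2393) (nat_lit 0) (nat_lit 13))
    (@En.i (nat_lit 2607) (nat_lit 14) (nat_lit 6))
    (@En.n l3927 (nat_lit 9682) (nat_lit 2) (nat_lit 13))
    (@En.n l28 (nat_lit 2610) (nat_lit 15) (nat_lit 2))))
  (@Cl.mk (nat_lit 0x3000c00080008000b00040007000b000a0005000800080005000d00060009) (nat_lit 0x501100630120603) (nat_lit 16) Lb.e (@T16.mk En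
    (@En.n l23385 (nat_lit 4989) (nat_lit 9) (nat_lit 9))
    (@En.n l3834 (nat_lit 1477) (nat_lit 6) (nat_lit 6))
    (@En.n l564 (nat_lit 2445) (nat_lit 2) (nat_lit 13))
    (@En.n l23386 (nat_lit 8465) (nat_lit 3) (nat_lit 5))
    (@En.n l107 (nat_lit 2619) (nat_lit 8) (nat_lit 8))
    (@En.n l7163 (nat_lit 2470) (nat_lit 10) (nat_lit 8))
    (@En.n l15298 (nat_lit 1176) (nat_lit 6) (nat_lit 5))
    (@En.n l644 (nat_lit 2443) (nat_lit 6) (nat_lit 10))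
    (@En.n l6680 (nat_lit 2334) (nat_lit 8) (nat_lit 11))
    (@En.i (nat_lit 6859) (nat_lit 11) (nat_lit 7))
    (@En.n l10206 (nat_lit 2506) (nat_lit 10) (nat_lit 4))
    (@En.n l3839 (nat_lit 2607) (nat_lit 7) (nat_lit 11))
    (@En.n l2535 (nat_lit 2607) (nat_lit 8) (nat_lit 8))
    (@En.n l23387 (nat_lit 4221) (nat_lit 14) (nat_lit 8))
    (@En.n l23388 (nat_lit 2612) (nat_lit 3) (nat_lit 12))
    (@En.n l117 (nat_lit 2613) (nat_lit 15) (nat_lit 3))))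
  (@Cl.mk (nat_lit 0x400080007000b000a0006000900090005000800060009000c00070007000a) (nat_lit 0x507601201034001) (nat_lit 16) Lb.e (@T16.mk En
    (@En.n l21928 (nat_lit 2606) (nat_lit 8) (nat_lit 10))
    (@En.n l21929 (nat_lit 2606) (nat_lit 9) (nat_lit 7))
    (@En.n l1643 (nat_lit 2831) (nat_lit 7) (nat_lit 7))
    (@En.n l23599 (nat_lit 1705) (nat_lit 6) (nat_lit 12))
    (@En.n l5732 (nat_lit 4986) (nat_lit 9) (nat_lit 9))
    (@En.n l613 (nat_lit 1436) (nat_lit 10) (nat_lit 6))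
    (@En.n l23600 (nat_lit 1669) (nat_lit 10) (nat_lit 8))
    (@En.n l13648 (nat_lit 8830) (nat_lit 7) (nat_lit 5))
    (@En.n l9762 (nat_lit 2621) (nat_lit 7) (nat_lit 9))
    (@En.i (nat_lit 2473) (nat_lit 9) (nat_lit 9))
    (@En.n l2031 (nat_lit 1177) (nat_lit 2) (nat_lit 6))
    (@En.n l23601 (nat_lit 2442) (nat_lit 6) (nat_lit 10))
    (@En.n l23602 (nat_lit 2613) (nat_lit 8) (nat_lit 11))
    (@En.n l23603 (nat_lit 2611) (nat_lit 9) (nat_lit 7))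
    (@En.n l15872 (nat_lit 6793) (nat_lit 11) (nat_lit 8))
    (@En.n l10463 (nat_lit 2507) (nat_lit 15) (nat_lit 4))))
  (@Cl.mk (nat_lit 0x3000c00080008000b00040008000b00090005000800080005000d00080007) (nat_lit 0x501105650120720) (nat_lit 16) Lb.e (@T16.mk En
    (@En.n l4356 (nat_lit 1724) (nat_lit 0) (nat_lit 7))
    (@En.n l10333 (nat_lit 2612) (nat_lit 6) (nat_lit 8))
    (@En.n l10334 (nat_lit 2442) (nat_lit 2) (nat_lit 13))
    (@En.n l10335 (nat_lit 8831) (nat_lit 3) (nat_lit 5))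
    (@En.n l152 (nat_lit 2622) (nat_lit 8) (nat_lit 8))
    (@En.n l4806 (nat_lit 2469) (nat_lit 10) (nat_lit 8))
    (@En.n l10336 (nat_lit 1043) (nat_lit 6) (nat_lit 5))
    (@En.n l5911 (nat_lit 2437) (nat_lit 7) (nat_lit 9))
    (@En.n l10336 (nat_lit 2339) (nat_lit 7) (nat_lit 11))
    (@En.n l10337 (nat_lit 6794) (nat_lit 11) (nat_lit 8))
    (@En.n l10338 (nat_lit 2508) (nat_lit 10) (nat_lit 4))
    (@En.n l10339 (nat_lit 2608) (nat_lit 7) (nat_lit 11))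
    (@En.n l10340 (nat_lit 2608) (nat_lit 8) (nat_lit 8))
    (@En.n l10341 (nat_lit 2833) (nat_lit 14) (nat_lit 8))
    (@En.n l10342 (nat_lit 1708) (nat_lit 3) (nat_lit 12))
    (@En.n l4296 (nat_lit 2611) (nat_lit 15) (nat_lit 3))))
  (@Cl.mk (nat_lit 0x300090003000c00090009000c00040007000b000400070007000d0005000d) (nat_lit 0x406011005000405) (nat_lit 16) Lb.e (@T16.mk En
    (@En.i (nat_lit 2197) (nat_lit 0) (nat_lit 13))
    (@En.i (nat_lit 2611) (nat_lit 3) (nat_lit 5))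
    (@En.n l23416 (nat_lit 9680) (nat_lit 2) (nat_lit 13))
    (@En.n l107 (nat_lit 2615) (nat_lit 9) (nat_lit 7))
    (@En.n l7163 (nat_lit 2472) (nat_lit 11) (nat_lit 7))
    (@En.n l8351 (nat_lit 6823) (nat_lit 5) (nat_lit 4))
    (@En.n l6680 (nat_lit 2269) (nat_lit 8) (nat_lit 11))
    (@En.i (nat_lit 6657) (nat_lit 11) (nat_lit 7))
    (@En.n l10206 (nat_lit 2228) (nat_lit 8) (nat_lit 4))
    (@En.n l3839 (nat_lit 2610) (nat_lit 6) (nat_lit 12))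
    (@En.n l2535 (nat_lit 2610) (nat_lit 7) (nat_lit 9))
    (@En.n l23387 (nat_lit 4304) (nat_lit 14) (nat_lit 9))
    (@En.i (nat_lit 2445) (nat_lit 13) (nat_lit 12))
    (@En.n l117 (nat_lit 2444) (nat_lit 15) (nat_lit 3))
    (@En.n l23417 (nat_lit 4993) (nat_lit 0) (nat_lit 9))
    (@En.i (nat_lit 2443) (nat_lit 15) (nat_lit 3))))
  (@Cl.mk (nat_lit 0x2000c00050008000c00040007000d0004000d000300080003000b000e0009) (nat_lit 0x2056003040406c1) (nat_lit 16) Lb.e (@T16.mk En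
    (@En.n l97 (nat_lit 2614) (nat_lit 11) (nat_lit 9))
    (@En.i (nat_lit 3453) (nat_lit 4) (nat_lit 14))
    (@En.i (nat_lit 2617) (nat_lit 2) (nat_lit 11))
    (@En.i (nat_lit 2616) (nat_lit 3) (nat_lit 3))
    (@En.n l387 (nat_lit 4995) (nat_lit 4) (nat_lit 8))
    (@En.i (nat_lit 2618) (nat_lit 5) (nat_lit 3))
    (@En.i (nat_lit 2196) (nat_lit 0) (nat_lit 13))
    (@En.i (nat_lit 2619) (nat_lit 7) (nat_lit 4))
    (@En.n l1638 (nat_lit 11904) (nat_lit 9) (nat_lit 13))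
    (@En.i (nat_lit 643) (nat_lit 11) (nat_lit 7))
    (@En.i (nat_lit 6827) (nat_lit 10) (nat_lit 4))
    (@En.n l617 (nat_lit 2268) (nat_lit 12) (nat_lit 12))
    (@En.i (nat_lit 6857) (nat_lit 13) (nat_lit 8))
    (@En.n l4870 (nat_lit 2472) (nat_lit 14) (nat_lit 5))
    (@En.i (nat_lit 2614) (nat_lit 9) (nat_lit 12))
    (@En.n l3 (nat_lit 2615) (nat_lit 15) (nat_lit 2))))
  (@Cl.mk (nat_lit 0x2000c00050009000c00040007000c0004000d000700040003000b000e0009) (nat_lit 0x2066003040006c1) (nat_lit 16) Lb.e (@T16.mk En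
    (@En.i (nat_lit 2444) (nat_lit 13) (nat_lit 9))
    (@En.n l2199 (nat_lit 3449) (nat_lit 4) (nat_lit 14))
    (@En.i (nat_lit 1292) (nat_lit 2) (nat_lit 11))
    (@En.n l18 (nat_lit 2615) (nat_lit 3) (nat_lit 3))
    (@En.n l3348 (nat_lit 2532) (nat_lit 0) (nat_lit 4))
    (@En.n l61 (nat_lit 2617) (nat_lit 5) (nat_lit 7))
    (@En.n l3749 (nat_lit 2198) (nat_lit 7) (nat_lit 13))
    (@En.i (nat_lit 2622) (nat_lit 7) (nat_lit 4))
    (@En.n l2199 (nat_lit 12765) (nat_lit 9) (nat_lit 12))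
    (@En.n l3348 (nat_lit 651) (nat_lit 11) (nat_lit 7))
    (@En.n l1430 (nat_lit 6829) (nat_lit 10) (nat_lit 4))
    (@En.n l2199 (nat_lit 2266) (nat_lit 6) (nat_lit 12))
    (@En.i (nat_lit 6653) (nat_lit 13) (nat_lit 9))
    (@En.n l4497 (nat_lit 2468) (nat_lit 14) (nat_lit 5))
    (@En.n l117 (nat_lit 2444) (nat_lit 11) (nat_lit 12))
    (@En.n l3 (nat_lit 2616) (nat_lit 15) (nat_lit 2))))
  (@Cl.mk (nat_lit 0x2000b000500090008000c00050008000d0004000700030008000b000e0008) (nat_lit 0x1066701400045b1) (nat_lit 16) Lb.e (@T16.mk En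
    (@En.n l97 (nat_lit 2445) (nat_lit 12) (nat_lit 8))
    (@En.n l17 (nat_lit 3450) (nat_lit 4) (nat_lit 14))
    (@En.n l7018 (nat_lit 1289) (nat_lit 2) (nat_lit 11))
    (@En.n l26863 (nat_lit 1882) (nat_lit 3) (nat_lit 8))
    (@En.n l3327 (nat_lit 2620) (nat_lit 4) (nat_lit 3))
    (@En.n l2373 (nat_lit 1914) (nat_lit 11) (nat_lit 7))
    (@En.n l22084 (nat_lit 2621) (nat_lit 6) (nat_lit 4))
    (@En.n l1638 (nat_lit 11908) (nat_lit 8) (nat_lit 13))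
    (@En.i (nat_lit 649) (nat_lit 10) (nat_lit 8))
    (@En.n l18864 (nat_lit 6842) (nat_lit 9) (nat_lit 5))
    (@En.n l617 (nat_lit 2616) (nat_lit 11) (nat_lit 12))
    (@En.n l17 (nat_lit 2615) (nat_lit 12) (nat_lit 8))
    (@En.i (nat_lit 6652) (nat_lit 13) (nat_lit 9))
    (@En.n l4870 (nat_lit 2471) (nat_lit 14) (nat_lit 5))
    (@En.i (nat_lit 2445) (nat_lit 10) (nat_lit 11))
    (@En.n l3 (nat_lit 2617) (nat_lit 15) (nat_lit 2))))
  (@Cl.mk (nat_lit 0x2000c00050008000b00040007000d000c0005000300080004000b000e0009) (nat_lit 0x2051002400406c1) (nat_lit 16) Lb.e (@T16.mk En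
    (@En.n l97 (nat_lit 2443) (nat_lit 11) (nat_lit 9))
    (@En.i (nat_lit 3447) (nat_lit 4) (nat_lit 14))
    (@En.n l3327 (nat_lit 2620) (nat_lit 2) (nat_lit 11))
    (@En.n l3348 (nat_lit 2462) (nat_lit 3) (nat_lit 4))
    (@En.n l612 (nat_lit 2619) (nat_lit 4) (nat_lit 8))
    (@En.n l50 (nat_lit 2615) (nat_lit 5) (nat_lit 3))
    (@En.i (nat_lit 1478) (nat_lit 0) (nat_lit 5))
    (@En.n l217 (nat_lit 2616) (nat_lit 8) (nat_lit 12))
    (@En.n l1638 (nat_lit 11906) (nat_lit 9) (nat_lit 13))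
    (@En.i (nat_lit 724) (nat_lit 11) (nat_lit 7))
    (@En.i (nat_lit 6821) (nat_lit 10) (nat_lit 4))
    (@En.n l2039 (nat_lit 772) (nat_lit 7) (nat_lit 11))
    (@En.i (nat_lit 6715) (nat_lit 13) (nat_lit 8))
    (@En.n l4870 (nat_lit 2466) (nat_lit 14) (nat_lit 5))
    (@En.i (nat_lit 2443) (nat_lit 9) (nat_lit 12))
    (@En.n l3 (nat_lit 2618) (nat_lit 15) (nat_lit 2))))
  (@Cl.mk (nat_lit 0x2000b00050008000c000b000500080004000d000500080003000b000e0008) (nat_lit 0x2057201050305c1) (nat_lit 16) Lb.e (@T16.mk En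
    (@En.n l97 (nat_lit 2611) (nat_lit 13) (nat_lit 8))
    (@En.i (nat_lit 3451) (nat_lit 4) (nat_lit 14))
    (@En.n l22084 (nat_lit 2621) (nat_lit 2) (nat_lit 11))
    (@En.i (nat_lit 2622) (nat_lit 3) (nat_lit 3))
    (@En.n l387 (nat_lit 4988) (nat_lit 10) (nat_lit 8))
    (@En.n l7 (nat_lit 1474) (nat_lit 5) (nat_lit 5))
    (@En.n l564 (nat_lit 2617) (nat_lit 7) (nat_lit 13))
    (@En.n l7 (nat_lit 2623) (nat_lit 7) (nat_lit 4))
    (@En.i (nat_lit 653) (nat_lit 10) (nat_lit 8))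
    (@En.i (nat_lit 1178) (nat_lit 9) (nat_lit 5))
    (@En.n l644 (nat_lit 2618) (nat_lit 11) (nat_lit 11))
    (@En.n l617 (nat_lit 2336) (nat_lit 12) (nat_lit 12))
    (@En.i (nat_lit 6858) (nat_lit 13) (nat_lit 8))
    (@En.n l4870 (nat_lit 2470) (nat_lit 14) (nat_lit 5))
    (@En.i (nat_lit 2611) (nat_lit 11) (nat_lit 11))
    (@En.n l3 (nat_lit 2619) (nat_lit 15) (nat_lit 2))))
  (@Cl.mk (nat_lit 0x2000b0005000a0008000b00050008000d0006000500030008000b000e0008) (nat_lit 0x2076501500045c1) (nat_lit 16) Lb.e (@T16.mk En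
    (@En.n l19872 (nat_lit 2442) (nat_lit 12) (nat_lit 8))
    (@En.i (nat_lit 3448) (nat_lit 4) (nat_lit 14))
    (@En.n l5839 (nat_lit 1286) (nat_lit 2) (nat_lit 11))
    (@En.n l14209 (nat_lit 2621) (nat_lit 3) (nat_lit 8))
    (@En.n l3072 (nat_lit 2617) (nat_lit 4) (nat_lit 3))
    (@En.n l5839 (nat_lit 1479) (nat_lit 0) (nat_lit 5))
    (@En.n l4790 (nat_lit 1670) (nat_lit 6) (nat_lit 6))
    (@En.n l19873 (nat_lit 12730) (nat_lit 8) (nat_lit 13))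
    (@En.i (nat_lit 727) (nat_lit 10) (nat_lit 8))
    (@En.n l14304 (nat_lit 6820) (nat_lit 9) (nat_lit 5))
    (@En.i (nat_lit 2532) (nat_lit 7) (nat_lit 11))
    (@En.n l7075 (nat_lit 2618) (nat_lit 12) (nat_lit 8))
    (@En.n l4790 (nat_lit 6789) (nat_lit 13) (nat_lit 10))
    (@En.n l699 (nat_lit 2467) (nat_lit 14) (nat_lit 5))
    (@En.n l19874 (nat_lit 2442) (nat_lit 10) (nat_lit 11))
    (@En.n l50 (nat_lit 2620) (nat_lit 15) (nat_lit 2))))
  (@Cl.mk (nat_lit 0x2000a000500090008000c000b000600090004000700050008000b000e0007) (nat_lit 0x2076860100034c0) (nat_lit 16) Lb.e (@T16.mk En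
    (@En.n l3506 (nat_lit 2612) (nat_lit 2) (nat_lit 7))
    (@En.n l1643 (nat_lit 3452) (nat_lit 4) (nat_lit 14))
    (@En.n l5951 (nat_lit 1709) (nat_lit 2) (nat_lit 11))
    (@En.n l11235 (nat_lit 4985) (nat_lit 10) (nat_lit 8))
    (@En.n l5951 (nat_lit 1470) (nat_lit 4) (nat_lit 5))
    (@En.i (nat_lit 1667) (nat_lit 5) (nat_lit 7))
    (@En.n l12650 (nat_lit 2624) (nat_lit 6) (nat_lit 4))
    (@En.i (nat_lit 730) (nat_lit 9) (nat_lit 9))
    (@En.n l8122 (nat_lit 1179) (nat_lit 8) (nat_lit 6))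
    (@En.n l13824 (nat_lit 2620) (nat_lit 10) (nat_lit 11))
    (@En.n l22085 (nat_lit 2622) (nat_lit 11) (nat_lit 12))
    (@En.n l13085 (nat_lit 2619) (nat_lit 12) (nat_lit 8))
    (@En.n l4758 (nat_lit 6791) (nat_lit 13) (nat_lit 9))
    (@En.n l18840 (nat_lit 2473) (nat_lit 14) (nat_lit 5))
    (@En.n l22009 (nat_lit 2612) (nat_lit 0) (nat_lit 10))
    (@En.n l18 (nat_lit 2621) (nat_lit 15) (nat_lit 2))))
  (@Cl.mk (nat_lit 0x2000b00050009000c000a000500080004000d000700060003000b000e0008) (nat_lit 0x2067501060005c1) (nat_lit 16) Lb.e (@T16.mk En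
    (@En.i (nat_lit 2613) (nat_lit 13) (nat_lit 8))
    (@En.n l2199 (nat_lit 3446) (nat_lit 4) (nat_lit 14))
    (@En.n l7053 (nat_lit 1710) (nat_lit 2) (nat_lit 11))
    (@En.n l18 (nat_lit 2619) (nat_lit 3) (nat_lit 3))
    (@En.n l4356 (nat_lit 1789) (nat_lit 4) (nat_lit 6))
    (@En.n l9538 (nat_lit 2621) (nat_lit 5) (nat_lit 7))
    (@En.n l6840 (nat_lit 2620) (nat_lit 7) (nat_lit 13))
    (@En.n l5543 (nat_lit 2625) (nat_lit 7) (nat_lit 4))
    (@En.n l4806 (nat_lit 733) (nat_lit 10) (nat_lit 8))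
    (@En.n l4812 (nat_lit 1180) (nat_lit 9) (nat_lit 5))
    (@En.n l5911 (nat_lit 2462) (nat_lit 11) (nat_lit 10))
    (@En.n l2199 (nat_lit 2337) (nat_lit 6) (nat_lit 12))
    (@En.i (nat_lit 6792) (nat_lit 13) (nat_lit 9))
    (@En.n l1466 (nat_lit 2469) (nat_lit 14) (nat_lit 5))
    (@En.n l117 (nat_lit 2613) (nat_lit 11) (nat_lit 11))
    (@En.n l3 (nat_lit 2622) (nat_lit 15) (nat_lit 2))))
  (@Cl.mk (nat_lit 0x2000a00050008000c0006000c00060004000d000400080003000b000e000a) (nat_lit 0x400000000700) (nat_lit 16) Lb.e (@T16.mk En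
    (@En.n l18553 (nat_lit 8494) (nat_lit 13) (nat_lit 10))
    (@En.i (nat_lit 6460) (nat_lit 4) (nat_lit 14))
    (@En.i (nat_lit 2624) (nat_lit 2) (nat_lit 11))
    (@En.n l15093 (nat_lit 2625) (nat_lit 3) (nat_lit 3))
    (@En.n l12995 (nat_lit 6701) (nat_lit 4) (nat_lit 8))
    (@En.i (nat_lit 2626) (nat_lit 5) (nat_lit 4))
    (@En.n l2682 (nat_lit 10974) (nat_lit 7) (nat_lit 13))
    (@En.i (nat_lit 2615) (nat_lit 7) (nat_lit 4))
    (@En.n l14494 (nat_lit 1544) (nat_lit 8) (nat_lit 6))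
    (@En.n l18556 (nat_lit 11902) (nat_lit 10) (nat_lit 12))
    (@En.n l810 (nat_lit 10656) (nat_lit 6) (nat_lit 6))
    (@En.n l617 (nat_lit 6409) (nat_lit 12) (nat_lit 12))
    (@En.i (nat_lit 6860) (nat_lit 13) (nat_lit 8))
    (@En.n l20160 (nat_lit 6416) (nat_lit 14) (nat_lit 5))
    (@En.n l14776 (nat_lit 8465) (nat_lit 11) (nat_lit 10))
    (@En.n l3 (nat_lit 2623) (nat_lit 15) (nat_lit 2))))
noncomputable def a164 : T16 Cl := @T16.mk Cl
  (@Cl.mk (nat_lit 0x20009000500090008000c0007000c00070004000700040008000b000e0009) (nat_lit 0x150400000600) (nat_lit 16) Lb.e (@T16.mk En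
    (@En.n l18553 (nat_lit 8496) (nat_lit 2) (nat_lit 9))
    (@En.n l17 (nat_lit 6458) (nat_lit 4) (nat_lit 14))
    (@En.n l35932 (nat_lit 7182) (nat_lit 2) (nat_lit 11))
    (@En.n l26863 (nat_lit 6700) (nat_lit 3) (nat_lit 8))
    (@En.n l24630 (nat_lit 8471) (nat_lit 4) (nat_lit 4))
    (@En.n l35933 (nat_lit 11333) (nat_lit 5) (nat_lit 7))
    (@En.i (nat_lit 2617) (nat_lit 6) (nat_lit 4))
    (@En.n l35934 (nat_lit 1543) (nat_lit 7) (nat_lit 7))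
    (@En.n l24630 (nat_lit 12732) (nat_lit 9) (nat_lit 12))
    (@En.n l18864 (nat_lit 10654) (nat_lit 10) (nat_lit 7))
    (@En.n l35935 (nat_lit 2625) (nat_lit 11) (nat_lit 12))
    (@En.n l17 (nat_lit 2623) (nat_lit 12) (nat_lit 8))
    (@En.n l35936 (nat_lit 9828) (nat_lit 13) (nat_lit 9))
    (@En.n l35937 (nat_lit 8144) (nat_lit 14) (nat_lit 5))
    (@En.n l35938 (nat_lit 8830) (nat_lit 0) (nat_lit 9))
    (@En.n l3 (nat_lit 2624) (nat_lit 15) (nat_lit 2))))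
  (@Cl.mk (nat_lit 0x2000a00050009000c0006000b00060004000d000700050003000b000e000a) (nat_lit 0x400000000700) (nat_lit 16) Lb.e (@T16.mk En
    (@En.n l21019 (nat_lit 8495) (nat_lit 13) (nat_lit 10))
    (@En.n l2195 (nat_lit 6459) (nat_lit 4) (nat_lit 14))
    (@En.n l5732 (nat_lit 7180) (nat_lit 2) (nat_lit 11))
    (@En.n l10756 (nat_lit 2623) (nat_lit 3) (nat_lit 3))
    (@En.n l21020 (nat_lit 8989) (nat_lit 4) (nat_lit 5))
    (@En.n l22086 (nat_lit 2624) (nat_lit 5) (nat_lit 7))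
    (@En.n l2940 (nat_lit 8717) (nat_lit 7) (nat_lit 13))
    (@En.n l19237 (nat_lit 2616) (nat_lit 7) (nat_lit 4))
    (@En.n l22087 (nat_lit 1545) (nat_lit 8) (nat_lit 6))
    (@En.n l5311 (nat_lit 12734) (nat_lit 10) (nat_lit 11))
    (@En.n l22088 (nat_lit 10660) (nat_lit 6) (nat_lit 6))
    (@En.n l159 (nat_lit 6413) (nat_lit 6) (nat_lit 12))
    (@En.i (nat_lit 9827) (nat_lit 13) (nat_lit 9))
    (@En.n l22089 (nat_lit 6417) (nat_lit 14) (nat_lit 5))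
    (@En.n l22090 (nat_lit 8831) (nat_lit 11) (nat_lit 10))
    (@En.n l7 (nat_lit 2625) (nat_lit 15) (nat_lit 2))))
  (@Cl.mk (nat_lit 0x2000900050008000b0006000c000b00070005000400080005000b000e000a) (nat_lit 0x503400100040770) (nat_lit 16) Lb.e (@T16.mk En
    (@En.n l18553 (nat_lit 8425) (nat_lit 2) (nat_lit 10))
    (@En.i (nat_lit 6457) (nat_lit 4) (nat_lit 14))
    (@En.n l24630 (nat_lit 8471) (nat_lit 2) (nat_lit 11))
    (@En.n l3348 (nat_lit 7650) (nat_lit 3) (nat_lit 5))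
    (@En.n l612 (nat_lit 2627) (nat_lit 4) (nat_lit 8))
    (@En.n l14781 (nat_lit 8439) (nat_lit 5) (nat_lit 4))
    (@En.i (nat_lit 2618) (nat_lit 6) (nat_lit 5))
    (@En.n l24631 (nat_lit 7827) (nat_lit 7) (nat_lit 7))
    (@En.n l12355 (nat_lit 2625) (nat_lit 9) (nat_lit 11))
    (@En.n l24632 (nat_lit 5677) (nat_lit 10) (nat_lit 12))
    (@En.n l810 (nat_lit 8426) (nat_lit 11) (nat_lit 6))
    (@En.n l24633 (nat_lit 6421) (nat_lit 7) (nat_lit 11))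
    (@En.n l12355 (nat_lit 9294) (nat_lit 13) (nat_lit 8))
    (@En.n l20160 (nat_lit 8466) (nat_lit 14) (nat_lit 5))
    (@En.n l20161 (nat_lit 8428) (nat_lit 0) (nat_lit 9))
    (@En.n l3 (nat_lit 2626) (nat_lit 15) (nat_lit 2))))
  (@Cl.mk (nat_lit 0x2000800050008000d000b00070003000c0008000500080004000b000e0009) (nat_lit 0x6034500520305a0) (nat_lit 16) Lb.e (@T16.mk En
    (@En.n l20156 (nat_lit 8399) (nat_lit 2) (nat_lit 9))
    (@En.n l1501 (nat_lit 6455) (nat_lit 4) (nat_lit 14))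
    (@En.n l20157 (nat_lit 8398) (nat_lit 2) (nat_lit 11))
    (@En.n l4808 (nat_lit 8472) (nat_lit 3) (nat_lit 4))
    (@En.n l20158 (nat_lit 3494) (nat_lit 4) (nat_lit 8))
    (@En.i (nat_lit 2619) (nat_lit 5) (nat_lit 5))
    (@En.n l11959 (nat_lit 7823) (nat_lit 6) (nat_lit 8))
    (@En.n l564 (nat_lit 2624) (nat_lit 8) (nat_lit 12))
    (@En.n l15280 (nat_lit 8439) (nat_lit 8) (nat_lit 3))
    (@En.n l1501 (nat_lit 8424) (nat_lit 0) (nat_lit 7))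
    (@En.n l644 (nat_lit 2626) (nat_lit 11) (nat_lit 11))
    (@En.n l20159 (nat_lit 8478) (nat_lit 12) (nat_lit 13))
    (@En.n l430 (nat_lit 9293) (nat_lit 13) (nat_lit 8))
    (@En.n l20160 (nat_lit 8467) (nat_lit 14) (nat_lit 5))
    (@En.n l20161 (nat_lit 8435) (nat_lit 5) (nat_lit 8))
    (@En.n l3 (nat_lit 2627) (nat_lit 15) (nat_lit 2))))
  (@Cl.mk (nat_lit 0x20005000e000a00020006000e000d000200060003000e000b0002000e000a) (nat_lit 0xc8006300016014) (nat_lit 16) Lb.e (@T16.mk En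
    (@En.n l74 (nat_lit 2547) (nat_lit 4) (nat_lit 10))
    (@En.n l75 (nat_lit 2501) (nat_lit 1) (nat_lit 14))
    (@En.n l18 (nat_lit 2628) (nat_lit 2) (nat_lit 2))
    (@En.n l76 (nat_lit 2501) (nat_lit 3) (nat_lit 11))
    (@En.i (nat_lit 4) (nat_lit 1) (nat_lit 14))
    (@En.n l28 (nat_lit 2500) (nat_lit 5) (nat_lit 3))
    (@En.n l27 (nat_lit 2486) (nat_lit 6) (nat_lit 6))
    (@En.n l28 (nat_lit 2628) (nat_lit 7) (nat_lit 2))
    (@En.n l77 (nat_lit 2500) (nat_lit 9) (nat_lit 13))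
    (@En.n l78 (nat_lit 4142) (nat_lit 10) (nat_lit 14))
    (@En.n l79 (nat_lit 1013) (nat_lit 2) (nat_lit 6))
    (@En.n l12 (nat_lit 2628) (nat_lit 11) (nat_lit 2))
    (@En.n l13 (nat_lit 2630) (nat_lit 13) (nat_lit 10))
    (@En.i (nat_lit 2029) (nat_lit 6) (nat_lit 14))
    (@En.n l78 (nat_lit 2569) (nat_lit 2) (nat_lit 5))
    (@En.n l3 (nat_lit 2628) (nat_lit 15) (nat_lit 2))))
  (@Cl.mk (nat_lit 0x200050005000a000a0006000e000c0002000600060004000b000b000e000a) (nat_lit 0x7804100006702) (nat_lit 16) Lb.e (@T16.mk En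
    (@En.n l965 (nat_lit 2685) (nat_lit 9) (nat_lit 10))
    (@En.n l966 (nat_lit 2684) (nat_lit 10) (nat_lit 14))
    (@En.n l967 (nat_lit 2684) (nat_lit 11) (nat_lit 11))
    (@En.n l968 (nat_lit 11652) (nat_lit 3) (nat_lit 11))
    (@En.i (nat_lit 2793) (nat_lit 4) (nat_lit 4))
    (@En.n l75 (nat_lit 2501) (nat_lit 5) (nat_lit 6))
    (@En.n l115 (nat_lit 2806) (nat_lit 6) (nat_lit 6))
    (@En.n l28 (nat_lit 2629) (nat_lit 7) (nat_lit 2))
    (@En.n l77 (nat_lit 2497) (nat_lit 9) (nat_lit 12))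
    (@En.n l969 (nat_lit 2971) (nat_lit 10) (nat_lit 14))
    (@En.n l970 (nat_lit 2537) (nat_lit 2) (nat_lit 6))
    (@En.n l168 (nat_lit 2632) (nat_lit 12) (nat_lit 10))
    (@En.i (nat_lit 7648) (nat_lit 13) (nat_lit 10))
    (@En.n l17 (nat_lit 2630) (nat_lit 14) (nat_lit 5))
    (@En.n l499 (nat_lit 3608) (nat_lit 6) (nat_lit 5))
    (@En.n l3 (nat_lit 2629) (nat_lit 15) (nat_lit 2))))
  (@Cl.mk (nat_lit 0x20005000a000a0005000e000c0002000600060004000e000b0002000e000b) (nat_lit 0x70051000007017) (nat_lit 16) Lb.e (@T16.mk En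
    (@En.n l345 (nat_lit 2551) (nat_lit 8) (nat_lit 11))
    (@En.i (nat_lit 2629) (nat_lit 1) (nat_lit 14))
    (@En.n l18 (nat_lit 2630) (nat_lit 2) (nat_lit 2))
    (@En.n l5 (nat_lit 2629) (nat_lit 3) (nat_lit 11))
    (@En.i (nat_lit 12527) (nat_lit 12) (nat_lit 14))
    (@En.i (nat_lit 3360) (nat_lit 5) (nat_lit 4))
    (@En.i (nat_lit 2628) (nat_lit 6) (nat_lit 6))
    (@En.n l115 (nat_lit 3361) (nat_lit 7) (nat_lit 6))
    (@En.n l28 (nat_lit 2630) (nat_lit 8) (nat_lit 2))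
    (@En.n l77 (nat_lit 2557) (nat_lit 10) (nat_lit 12))
    (@En.n l116 (nat_lit 3023) (nat_lit 11) (nat_lit 14))
    (@En.n l117 (nat_lit 6778) (nat_lit 2) (nat_lit 5))
    (@En.n l168 (nat_lit 2631) (nat_lit 13) (nat_lit 10))
    (@En.i (nat_lit 8645) (nat_lit 4) (nat_lit 10))
    (@En.i (nat_lit 3564) (nat_lit 5) (nat_lit 5))
    (@En.n l3 (nat_lit 2630) (nat_lit 15) (nat_lit 2))))
  (@Cl.mk (nat_lit 0x20005000a0004000e000b0002000e000600020005000e000b0002000e000c) (nat_lit 0x80400800040003) (nat_lit 16) Lb.e (@T16.mk En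
    (@En.n l538 (nat_lit 2740) (nat_lit 10) (nat_lit 12))
    (@En.i (nat_lit 2632) (nat_lit 1) (nat_lit 14))
    (@En.n l11 (nat_lit 2631) (nat_lit 2) (nat_lit 2))
    (@En.n l1172 (nat_lit 2632) (nat_lit 3) (nat_lit 11))
    (@En.n l387 (nat_lit 12529) (nat_lit 5) (nat_lit 14))
    (@En.n l133 (nat_lit 3063) (nat_lit 5) (nat_lit 5))
    (@En.n l3 (nat_lit 2631) (nat_lit 6) (nat_lit 2))
    (@En.n l133 (nat_lit 2630) (nat_lit 7) (nat_lit 6))
    (@En.n l1248 (nat_lit 2633) (nat_lit 1) (nat_lit 14))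
    (@En.n l18 (nat_lit 2631) (nat_lit 9) (nat_lit 2))
    (@En.n l1249 (nat_lit 2633) (nat_lit 3) (nat_lit 11))
    (@En.n l1250 (nat_lit 3022) (nat_lit 12) (nat_lit 14))
    (@En.n l7 (nat_lit 1382) (nat_lit 5) (nat_lit 4))
    (@En.n l1251 (nat_lit 5136) (nat_lit 14) (nat_lit 10))
    (@En.n l1252 (nat_lit 3611) (nat_lit 7) (nat_lit 5))
    (@En.n l8 (nat_lit 2631) (nat_lit 15) (nat_lit 2))))
  (@Cl.mk (nat_lit 0x200050005000a0005000e000b0002000e000600020005000b000b000e000b) (nat_lit 0x70300900090c2) (nat_lit 16) Lb.e (@T16.mk En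
    (@En.n l3248 (nat_lit 2696) (nat_lit 11) (nat_lit 11))
    (@En.n l1828 (nat_lit 2635) (nat_lit 12) (nat_lit 14))
    (@En.n l1829 (nat_lit 2635) (nat_lit 13) (nat_lit 11))
    (@En.n l1501 (nat_lit 11649) (nat_lit 3) (nat_lit 11))
    (@En.n l133 (nat_lit 2763) (nat_lit 4) (nat_lit 5))
    (@En.n l3 (nat_lit 2632) (nat_lit 5) (nat_lit 2))
    (@En.n l133 (nat_lit 2629) (nat_lit 6) (nat_lit 6))
    (@En.n l2582 (nat_lit 2634) (nat_lit 8) (nat_lit 14))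
    (@En.n l18 (nat_lit 2632) (nat_lit 8) (nat_lit 2))
    (@En.n l2583 (nat_lit 2634) (nat_lit 10) (nat_lit 11))
    (@En.n l1250 (nat_lit 3021) (nat_lit 11) (nat_lit 14))
    (@En.n l3249 (nat_lit 1274) (nat_lit 5) (nat_lit 5))
    (@En.n l1501 (nat_lit 6781) (nat_lit 13) (nat_lit 10))
    (@En.n l12 (nat_lit 2631) (nat_lit 14) (nat_lit 5))
    (@En.i (nat_lit 3612) (nat_lit 8) (nat_lit 5))
    (@En.n l8 (nat_lit 2632) (nat_lit 15) (nat_lit 2))))
  (@Cl.mk (nat_lit 0x200050005000e000b0002000e000c00020005000b0004000b000b000e0005) (nat_lit 0x6300909070) (nat_lit 16) Lb.e (@T16.mk En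
    (@En.n l13 (nat_lit 2557) (nat_lit 8) (nat_lit 5))
    (@En.n l2835 (nat_lit 2710) (nat_lit 10) (nat_lit 14))
    (@En.n l2836 (nat_lit 2710) (nat_lit 11) (nat_lit 11))
    (@En.n l2837 (nat_lit 2641) (nat_lit 3) (nat_lit 11))
    (@En.n l578 (nat_lit 1283) (nat_lit 4) (nat_lit 4))
    (@En.n l2730 (nat_lit 4153) (nat_lit 14) (nat_lit 11))
    (@En.n l2192 (nat_lit 2855) (nat_lit 6) (nat_lit 5))
    (@En.n l3 (nat_lit 2633) (nat_lit 7) (nat_lit 2))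
    (@En.n l2838 (nat_lit 2708) (nat_lit 9) (nat_lit 12))
    (@En.n l2192 (nat_lit 2634) (nat_lit 1) (nat_lit 14))
    (@En.n l18 (nat_lit 2633) (nat_lit 10) (nat_lit 2))
    (@En.n l2839 (nat_lit 2634) (nat_lit 3) (nat_lit 11))
    (@En.n l2840 (nat_lit 12761) (nat_lit 13) (nat_lit 14))
    (@En.n l2841 (nat_lit 2631) (nat_lit 5) (nat_lit 5))
    (@En.n l13 (nat_lit 2640) (nat_lit 6) (nat_lit 5))
    (@En.n l12 (nat_lit 2633) (nat_lit 15) (nat_lit 2))))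
  (@Cl.mk (nat_lit 0x200050005000b0005000b000b000e0005000200050005000b000b000e000b) (nat_lit 0x9090800009052) (nat_lit 16) Lb.e (@T16.mk En
    (@En.n l4194 (nat_lit 2688) (nat_lit 10) (nat_lit 11))
    (@En.n l6330 (nat_lit 2636) (nat_lit 11) (nat_lit 14))
    (@En.n l6331 (nat_lit 2636) (nat_lit 12) (nat_lit 11))
    (@En.n l6332 (nat_lit 7657) (nat_lit 3) (nat_lit 11))
    (@En.n l6145 (nat_lit 2632) (nat_lit 4) (nat_lit 5))
    (@En.n l6333 (nat_lit 2638) (nat_lit 5) (nat_lit 5))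
    (@En.n l403 (nat_lit 2634) (nat_lit 6) (nat_lit 2))
    (@En.n l6333 (nat_lit 2497) (nat_lit 7) (nat_lit 5))
    (@En.n l6334 (nat_lit 2637) (nat_lit 9) (nat_lit 14))
    (@En.n l6335 (nat_lit 2637) (nat_lit 10) (nat_lit 11))
    (@En.n l6336 (nat_lit 2639) (nat_lit 11) (nat_lit 11))
    (@En.n l4254 (nat_lit 1253) (nat_lit 4) (nat_lit 5))
    (@En.n l6332 (nat_lit 2541) (nat_lit 13) (nat_lit 11))
    (@En.n l6337 (nat_lit 2633) (nat_lit 6) (nat_lit 5))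
    (@En.i (nat_lit 3590) (nat_lit 7) (nat_lit 5))
    (@En.n l936 (nat_lit 2634) (nat_lit 15) (nat_lit 2))))
  (@Cl.mk (nat_lit 0x20005000b000e000a0002000e00050002000a0006000e000b0002000e0006) (nat_lit 0x9b60a007080000) (nat_lit 16) Lb.e (@T16.mk En
    (@En.n l248 (nat_lit 2684) (nat_lit 14) (nat_lit 6))
    (@En.n l5647 (nat_lit 2636) (nat_lit 1) (nat_lit 14))
    (@En.n l18 (nat_lit 2635) (nat_lit 2) (nat_lit 2))
    (@En.n l8828 (nat_lit 2636) (nat_lit 3) (nat_lit 11))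
    (@En.n l8176 (nat_lit 3026) (nat_lit 5) (nat_lit 14))
    (@En.i (nat_lit 1275) (nat_lit 5) (nat_lit 6))
    (@En.n l8829 (nat_lit 6780) (nat_lit 12) (nat_lit 10))
    (@En.n l7 (nat_lit 2635) (nat_lit 7) (nat_lit 2))
    (@En.n l5028 (nat_lit 2632) (nat_lit 14) (nat_lit 5))
    (@En.n l134 (nat_lit 2641) (nat_lit 1) (nat_lit 14))
    (@En.n l458 (nat_lit 2635) (nat_lit 10) (nat_lit 2))
    (@En.n l1170 (nat_lit 2686) (nat_lit 12) (nat_lit 10))
    (@En.i (nat_lit 13246) (nat_lit 4) (nat_lit 14))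
    (@En.n l766 (nat_lit 11647) (nat_lit 14) (nat_lit 11))
    (@En.n l8176 (nat_lit 2760) (nat_lit 13) (nat_lit 5))
    (@En.n l3 (nat_lit 2635) (nat_lit 15) (nat_lit 2))))
  (@Cl.mk (nat_lit 0x200050005000b000e000a0002000e00050002000b0006000b000b000e0005) (nat_lit 0x94005009090c0) (nat_lit 16) Lb.e (@T16.mk En
    (@En.n l14651 (nat_lit 2498) (nat_lit 9) (nat_lit 5))
    (@En.n l1847 (nat_lit 2852) (nat_lit 4) (nat_lit 14))
    (@En.n l33 (nat_lit 2852) (nat_lit 5) (nat_lit 11))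
    (@En.n l1347 (nat_lit 2853) (nat_lit 3) (nat_lit 11))
    (@En.n l7262 (nat_lit 1276) (nat_lit 4) (nat_lit 6))
    (@En.n l14652 (nat_lit 2540) (nat_lit 12) (nat_lit 11))
    (@En.n l7 (nat_lit 2636) (nat_lit 6) (nat_lit 2))
    (@En.n l8263 (nat_lit 2634) (nat_lit 14) (nat_lit 5))
    (@En.n l1491 (nat_lit 2639) (nat_lit 9) (nat_lit 14))
    (@En.n l11 (nat_lit 2636) (nat_lit 9) (nat_lit 2))
    (@En.n l14653 (nat_lit 2689) (nat_lit 11) (nat_lit 10))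
    (@En.n l14654 (nat_lit 13245) (nat_lit 4) (nat_lit 14))
    (@En.n l14655 (nat_lit 7662) (nat_lit 13) (nat_lit 11))
    (@En.n l10921 (nat_lit 2635) (nat_lit 14) (nat_lit 5))
    (@En.n l14656 (nat_lit 2765) (nat_lit 13) (nat_lit 5))
    (@En.n l17 (nat_lit 2636) (nat_lit 15) (nat_lit 2))))
  (@Cl.mk (nat_lit 0x200050005000c0005000b000e00040002000e00050002000b000b000e000b) (nat_lit 0x909700a000002) (nat_lit 16) Lb.e (@T16.mk En
    (@En.n l9241 (nat_lit 2704) (nat_lit 12) (nat_lit 11))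
    (@En.n l9242 (nat_lit 2852) (nat_lit 13) (nat_lit 14))
    (@En.n l9243 (nat_lit 2852) (nat_lit 14) (nat_lit 11))
    (@En.n l3328 (nat_lit 7658) (nat_lit 3) (nat_lit 11))
    (@En.n l3 (nat_lit 2637) (nat_lit 4) (nat_lit 2))
    (@En.n l9244 (nat_lit 2634) (nat_lit 5) (nat_lit 5))
    (@En.n l9245 (nat_lit 2767) (nat_lit 7) (nat_lit 14))
    (@En.n l50 (nat_lit 2637) (nat_lit 7) (nat_lit 2))
    (@En.n l9246 (nat_lit 2496) (nat_lit 8) (nat_lit 4))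
    (@En.n l3328 (nat_lit 13368) (nat_lit 4) (nat_lit 14))
    (@En.n l4103 (nat_lit 2855) (nat_lit 11) (nat_lit 11))
    (@En.n l3860 (nat_lit 1343) (nat_lit 6) (nat_lit 5))
    (@En.n l1353 (nat_lit 2539) (nat_lit 13) (nat_lit 12))
    (@En.n l61 (nat_lit 2710) (nat_lit 14) (nat_lit 5))
    (@En.n l9241 (nat_lit 2859) (nat_lit 9) (nat_lit 5))
    (@En.n l11 (nat_lit 2637) (nat_lit 15) (nat_lit 2))))
  (@Cl.mk (nat_lit 0x200050005000a0005000b000e000c0002000600050004000b000b000e000b) (nat_lit 0x14300000002) (nat_lit 16) Lb.e (@T16.mk En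
    (@En.n l4264 (nat_lit 2717) (nat_lit 9) (nat_lit 11))
    (@En.n l4265 (nat_lit 2765) (nat_lit 10) (nat_lit 14))
    (@En.n l4266 (nat_lit 2765) (nat_lit 11) (nat_lit 11))
    (@En.n l1349 (nat_lit 12102) (nat_lit 3) (nat_lit 11))
    (@En.n l7 (nat_lit 1224) (nat_lit 4) (nat_lit 4))
    (@En.n l4267 (nat_lit 2732) (nat_lit 14) (nat_lit 5))
    (@En.i (nat_lit 2812) (nat_lit 6) (nat_lit 6))
    (@En.n l8 (nat_lit 2638) (nat_lit 7) (nat_lit 2))
    (@En.n l4268 (nat_lit 2766) (nat_lit 9) (nat_lit 12))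
    (@En.n l511 (nat_lit 2632) (nat_lit 10) (nat_lit 14))
    (@En.n l2582 (nat_lit 2634) (nat_lit 2) (nat_lit 11))
    (@En.n l4269 (nat_lit 1025) (nat_lit 3) (nat_lit 5))
    (@En.n l1208 (nat_lit 7670) (nat_lit 13) (nat_lit 10))
    (@En.n l17 (nat_lit 2640) (nat_lit 14) (nat_lit 5))
    (@En.n l1329 (nat_lit 3583) (nat_lit 6) (nat_lit 5))
    (@En.n l3 (nat_lit 2638) (nat_lit 15) (nat_lit 2))))
  (@Cl.mk (nat_lit 0x200050005000c000b000a000e000400020005000b0006000b000b000e0005) (nat_lit 0x854000700000) (nat_lit 16) Lb.e (@T16.mk En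
    (@En.n l2869 (nat_lit 3650) (nat_lit 8) (nat_lit 5))
    (@En.n l476 (nat_lit 2853) (nat_lit 10) (nat_lit 14))
    (@En.n l152 (nat_lit 2853) (nat_lit 11) (nat_lit 11))
    (@En.n l14619 (nat_lit 3848) (nat_lit 3) (nat_lit 11))
    (@En.n l15583 (nat_lit 2972) (nat_lit 4) (nat_lit 6))
    (@En.n l4108 (nat_lit 3457) (nat_lit 14) (nat_lit 11))
    (@En.n l15584 (nat_lit 2634) (nat_lit 13) (nat_lit 5))
    (@En.n l28 (nat_lit 2639) (nat_lit 7) (nat_lit 2))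
    (@En.n l15585 (nat_lit 2864) (nat_lit 8) (nat_lit 4))
    (@En.n l10790 (nat_lit 2855) (nat_lit 10) (nat_lit 14))
    (@En.n l15586 (nat_lit 2862) (nat_lit 11) (nat_lit 10))
    (@En.n l15583 (nat_lit 3598) (nat_lit 3) (nat_lit 11))
    (@En.n l4108 (nat_lit 12039) (nat_lit 13) (nat_lit 12))
    (@En.n l15587 (nat_lit 2641) (nat_lit 5) (nat_lit 5))
    (@En.n l14819 (nat_lit 3591) (nat_lit 6) (nat_lit 5))
    (@En.n l17 (nat_lit 2639) (nat_lit 15) (nat_lit 2))))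
noncomputable def a165 : T16 Cl := @T16.mk Cl
  (@Cl.mk (nat_lit 0x20005000a0004000b000e000c0002000600050004000e000b0002000e000c) (nat_lit 0x150000001012) (nat_lit 16) Lb.e (@T16.mk En
    (@En.n l1335 (nat_lit 2718) (nat_lit 8) (nat_lit 12))
    (@En.i (nat_lit 2638) (nat_lit 1) (nat_lit 14))
    (@En.n l18 (nat_lit 2640) (nat_lit 2) (nat_lit 2))
    (@En.n l5 (nat_lit 2638) (nat_lit 3) (nat_lit 11))
    (@En.n l564 (nat_lit 12566) (nat_lit 12) (nat_lit 14))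
    (@En.n l7 (nat_lit 1225) (nat_lit 5) (nat_lit 4))
    (@En.n l12 (nat_lit 3051) (nat_lit 14) (nat_lit 5))
    (@En.i (nat_lit 3363) (nat_lit 7) (nat_lit 6))
    (@En.n l8 (nat_lit 2640) (nat_lit 8) (nat_lit 2))
    (@En.n l544 (nat_lit 2894) (nat_lit 10) (nat_lit 12))
    (@En.n l511 (nat_lit 2631) (nat_lit 11) (nat_lit 14))
    (@En.i (nat_lit 2632) (nat_lit 2) (nat_lit 11))
    (@En.n l1336 (nat_lit 1024) (nat_lit 3) (nat_lit 4))
    (@En.n l1208 (nat_lit 5833) (nat_lit 4) (nat_lit 10))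
    (@En.i (nat_lit 3589) (nat_lit 5) (nat_lit 5))
    (@En.n l3 (nat_lit 2640) (nat_lit 15) (nat_lit 2))))
  (@Cl.mk (nat_lit 0x20005000a0006000e000b0002000e000600020005000c000b000a000e0004) (nat_lit 0x810100008090) (nat_lit 16) Lb.e (@T16.mk En
    (@En.n l8173 (nat_lit 3610) (nat_lit 9) (nat_lit 4))
    (@En.n l8174 (nat_lit 3611) (nat_lit 11) (nat_lit 14))
    (@En.n l1170 (nat_lit 3614) (nat_lit 12) (nat_lit 10))
    (@En.i (nat_lit 3597) (nat_lit 3) (nat_lit 11))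
    (@En.n l8175 (nat_lit 12339) (nat_lit 14) (nat_lit 12))
    (@En.n l8176 (nat_lit 3073) (nat_lit 5) (nat_lit 5))
    (@En.n l3 (nat_lit 2641) (nat_lit 6) (nat_lit 2))
    (@En.n l8177 (nat_lit 3609) (nat_lit 7) (nat_lit 6))
    (@En.n l8178 (nat_lit 2639) (nat_lit 1) (nat_lit 14))
    (@En.n l18 (nat_lit 2641) (nat_lit 9) (nat_lit 2))
    (@En.n l8179 (nat_lit 2639) (nat_lit 3) (nat_lit 11))
    (@En.n l8175 (nat_lit 3028) (nat_lit 12) (nat_lit 14))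
    (@En.i (nat_lit 3020) (nat_lit 5) (nat_lit 6))
    (@En.n l8175 (nat_lit 3464) (nat_lit 14) (nat_lit 10))
    (@En.n l8180 (nat_lit 2632) (nat_lit 13) (nat_lit 5))
    (@En.n l28 (nat_lit 2641) (nat_lit 15) (nat_lit 2))))
  (@Cl.mk (nat_lit 0x200060006000e000c0002000d000a00040003000b000a000a0006000e0005) (nat_lit 0xc1014008010c0) (nat_lit 16) Lb.e (@T16.mk En
    (@En.n l6979 (nat_lit 2652) (nat_lit 5) (nat_lit 5))
    (@En.n l6980 (nat_lit 2992) (nat_lit 1) (nat_lit 14))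
    (@En.n l404 (nat_lit 1375) (nat_lit 2) (nat_lit 6))
    (@En.n l61 (nat_lit 678) (nat_lit 9) (nat_lit 10))
    (@En.n l1545 (nat_lit 3910) (nat_lit 4) (nat_lit 10))
    (@En.n l6981 (nat_lit 7985) (nat_lit 11) (nat_lit 11))
    (@En.n l11 (nat_lit 2643) (nat_lit 6) (nat_lit 3))
    (@En.n l6982 (nat_lit 1164) (nat_lit 7) (nat_lit 4))
    (@En.i (nat_lit 2072) (nat_lit 9) (nat_lit 10))
    (@En.n l2688 (nat_lit 440) (nat_lit 10) (nat_lit 13))
    (@En.n l3 (nat_lit 2642) (nat_lit 10) (nat_lit 2))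
    (@En.i (nat_lit 1169) (nat_lit 12) (nat_lit 12))
    (@En.i (nat_lit 2310) (nat_lit 13) (nat_lit 14))
    (@En.n l6983 (nat_lit 4770) (nat_lit 14) (nat_lit 6))
    (@En.n l6984 (nat_lit 299) (nat_lit 3) (nat_lit 6))
    (@En.n l50 (nat_lit 2642) (nat_lit 15) (nat_lit 2))))
  (@Cl.mk (nat_lit 0x200060006000e000d0002000d0003000b0003000b000a000a0005000e0005) (nat_lit 0xab020608010c0) (nat_lit 16) Lb.e (@T16.mk En
    (@En.n l6979 (nat_lit 2651) (nat_lit 5) (nat_lit 5))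
    (@En.n l6980 (nat_lit 2993) (nat_lit 1) (nat_lit 14))
    (@En.i (nat_lit 3967) (nat_lit 2) (nat_lit 5))
    (@En.n l61 (nat_lit 681) (nat_lit 9) (nat_lit 10))
    (@En.n l1545 (nat_lit 3911) (nat_lit 4) (nat_lit 10))
    (@En.i (nat_lit 5572) (nat_lit 11) (nat_lit 11))
    (@En.i (nat_lit 2642) (nat_lit 6) (nat_lit 3))
    (@En.i (nat_lit 4775) (nat_lit 8) (nat_lit 11))
    (@En.n l117 (nat_lit 1171) (nat_lit 8) (nat_lit 3))
    (@En.i (nat_lit 669) (nat_lit 10) (nat_lit 13))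
    (@En.n l3 (nat_lit 2643) (nat_lit 10) (nat_lit 2))
    (@En.i (nat_lit 1171) (nat_lit 12) (nat_lit 13))
    (@En.i (nat_lit 2309) (nat_lit 13) (nat_lit 14))
    (@En.n l6983 (nat_lit 4771) (nat_lit 10) (nat_lit 6))
    (@En.n l6984 (nat_lit 1070) (nat_lit 3) (nat_lit 6))
    (@En.n l50 (nat_lit 2643) (nat_lit 15) (nat_lit 2))))
  (@Cl.mk (nat_lit 0x2000d000d000c00030003000c0004000c000a0004000e00040002000e0006) (nat_lit 0xab10070880c0010) (nat_lit 16) Lb.e (@T16.mk En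
    (@En.i (nat_lit 1171) (nat_lit 14) (nat_lit 6))
    (@En.n l5 (nat_lit 310) (nat_lit 1) (nat_lit 14))
    (@En.n l50 (nat_lit 2644) (nat_lit 2) (nat_lit 2))
    (@En.n l7 (nat_lit 2650) (nat_lit 3) (nat_lit 4))
    (@En.i (nat_lit 689) (nat_lit 1) (nat_lit 14))
    (@En.n l1422 (nat_lit 3931) (nat_lit 5) (nat_lit 4))
    (@En.i (nat_lit 3815) (nat_lit 3) (nat_lit 10))
    (@En.i (nat_lit 4516) (nat_lit 8) (nat_lit 12))
    (@En.i (nat_lit 3748) (nat_lit 8) (nat_lit 4))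
    (@En.i (nat_lit 3140) (nat_lit 10) (nat_lit 12))
    (@En.n l152 (nat_lit 681) (nat_lit 13) (nat_lit 3))
    (@En.i (nat_lit 3749) (nat_lit 0) (nat_lit 3))
    (@En.n l619 (nat_lit 678) (nat_lit 0) (nat_lit 12))
    (@En.n l97 (nat_lit 3749) (nat_lit 3) (nat_lit 13))
    (@En.i (nat_lit 8583) (nat_lit 12) (nat_lit 13))
    (@En.n l17 (nat_lit 2644) (nat_lit 15) (nat_lit 2))))
  (@Cl.mk (nat_lit 0x30003000a0004000b000b000b000b00060005000500050005000d000d000c) (nat_lit 0x300100000009b2) (nat_lit 16) Lb.e (@T16.mk En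
    (@En.n l619 (nat_lit 2652) (nat_lit 0) (nat_lit 12))
    (@En.i (nat_lit 3076) (nat_lit 3) (nat_lit 13))
    (@En.i (nat_lit 2317) (nat_lit 2) (nat_lit 13))
    (@En.n l2781 (nat_lit 3682) (nat_lit 11) (nat_lit 5))
    (@En.n l2172 (nat_lit 1376) (nat_lit 11) (nat_lit 5))
    (@En.n l77 (nat_lit 3727) (nat_lit 11) (nat_lit 5))
    (@En.i (nat_lit 3761) (nat_lit 6) (nat_lit 5))
    (@En.n l4476 (nat_lit 3691) (nat_lit 7) (nat_lit 6))
    (@En.n l742 (nat_lit 2650) (nat_lit 5) (nat_lit 11))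
    (@En.n l396 (nat_lit 3077) (nat_lit 5) (nat_lit 11))
    (@En.n l6367 (nat_lit 1171) (nat_lit 5) (nat_lit 11))
    (@En.n l19238 (nat_lit 3296) (nat_lit 12) (nat_lit 11))
    (@En.n l6366 (nat_lit 1381) (nat_lit 13) (nat_lit 4))
    (@En.n l4476 (nat_lit 3154) (nat_lit 14) (nat_lit 10))
    (@En.n l152 (nat_lit 2651) (nat_lit 13) (nat_lit 3))
    (@En.n l117 (nat_lit 3076) (nat_lit 0) (nat_lit 3))))
  (@Cl.mk (nat_lit 0x200060006000d000b000e00030002000b0005000b000a000a0005000e0005) (nat_lit 0xa0c00608000c0) (nat_lit 16) Lb.e (@T16.mk En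
    (@En.n l3998 (nat_lit 3076) (nat_lit 7) (nat_lit 5))
    (@En.n l20382 (nat_lit 2756) (nat_lit 9) (nat_lit 14))
    (@En.n l11610 (nat_lit 3961) (nat_lit 2) (nat_lit 5))
    (@En.n l6722 (nat_lit 3749) (nat_lit 11) (nat_lit 10))
    (@En.i (nat_lit 3895) (nat_lit 4) (nat_lit 10))
    (@En.n l4960 (nat_lit 5571) (nat_lit 13) (nat_lit 11))
    (@En.n l24718 (nat_lit 1170) (nat_lit 14) (nat_lit 5))
    (@En.n l1504 (nat_lit 3135) (nat_lit 8) (nat_lit 11))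
    (@En.n l17 (nat_lit 2646) (nat_lit 8) (nat_lit 2))
    (@En.n l16481 (nat_lit 1171) (nat_lit 9) (nat_lit 3))
    (@En.i (nat_lit 12990) (nat_lit 0) (nat_lit 14))
    (@En.n l24719 (nat_lit 3032) (nat_lit 12) (nat_lit 11))
    (@En.n l2571 (nat_lit 6665) (nat_lit 13) (nat_lit 13))
    (@En.n l16482 (nat_lit 3029) (nat_lit 14) (nat_lit 6))
    (@En.n l2738 (nat_lit 1072) (nat_lit 5) (nat_lit 6))
    (@En.n l28 (nat_lit 2646) (nat_lit 15) (nat_lit 2))))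
  (@Cl.mk (nat_lit 0x20006000d000d000c00030003000a0004000a000e000a00020006000e0006) (nat_lit 0x9b0000004100a0) (nat_lit 16) Lb.e (@T16.mk En
    (@En.n l17501 (nat_lit 3682) (nat_lit 13) (nat_lit 6))
    (@En.n l5553 (nat_lit 2762) (nat_lit 1) (nat_lit 14))
    (@En.n l17502 (nat_lit 7200) (nat_lit 2) (nat_lit 6))
    (@En.n l17 (nat_lit 2647) (nat_lit 3) (nat_lit 2))
    (@En.n l6444 (nat_lit 1171) (nat_lit 4) (nat_lit 10))
    (@En.n l5553 (nat_lit 4716) (nat_lit 6) (nat_lit 14))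
    (@En.n l7448 (nat_lit 5573) (nat_lit 2) (nat_lit 10))
    (@En.i (nat_lit 3031) (nat_lit 7) (nat_lit 4))
    (@En.n l17503 (nat_lit 4218) (nat_lit 4) (nat_lit 10))
    (@En.n l7446 (nat_lit 4771) (nat_lit 5) (nat_lit 3))
    (@En.n l17504 (nat_lit 3029) (nat_lit 10) (nat_lit 3))
    (@En.n l17505 (nat_lit 4770) (nat_lit 12) (nat_lit 12))
    (@En.n l17506 (nat_lit 3029) (nat_lit 13) (nat_lit 13))
    (@En.n l7448 (nat_lit 8051) (nat_lit 10) (nat_lit 13))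
    (@En.n l17507 (nat_lit 4276) (nat_lit 3) (nat_lit 6))
    (@En.n l50 (nat_lit 2647) (nat_lit 15) (nat_lit 2))))
  (@Cl.mk (nat_lit 0x2000d0003000b0003000c000c000b000500040004000e00050002000e000d) (nat_lit 0x2000017000100a0) (nat_lit 16) Lb.e (@T16.mk En
    (@En.i (nat_lit 2650) (nat_lit 14) (nat_lit 13))
    (@En.i (nat_lit 8527) (nat_lit 1) (nat_lit 14))
    (@En.n l17 (nat_lit 2648) (nat_lit 2) (nat_lit 2))
    (@En.n l50 (nat_lit 2651) (nat_lit 3) (nat_lit 5))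
    (@En.n l3786 (nat_lit 858) (nat_lit 1) (nat_lit 14))
    (@En.n l3787 (nat_lit 3730) (nat_lit 12) (nat_lit 4))
    (@En.i (nat_lit 4056) (nat_lit 6) (nat_lit 4))
    (@En.i (nat_lit 3932) (nat_lit 7) (nat_lit 5))
    (@En.n l2337 (nat_lit 4026) (nat_lit 9) (nat_lit 11))
    (@En.n l601 (nat_lit 681) (nat_lit 10) (nat_lit 12))
    (@En.n l28 (nat_lit 4512) (nat_lit 11) (nat_lit 12))
    (@En.i (nat_lit 2653) (nat_lit 11) (nat_lit 3))
    (@En.i (nat_lit 4893) (nat_lit 0) (nat_lit 11))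
    (@En.n l117 (nat_lit 2650) (nat_lit 10) (nat_lit 3))
    (@En.i (nat_lit 674) (nat_lit 0) (nat_lit 13))
    (@En.n l3 (nat_lit 2648) (nat_lit 15) (nat_lit 2))))
  (@Cl.mk (nat_lit 0x2000b0005000c000c000b000500040004000e00050002000d000b000e0003) (nat_lit 0x600a00006000080) (nat_lit 16) Lb.e (@T16.mk En
    (@En.n l107 (nat_lit 2650) (nat_lit 11) (nat_lit 3))
    (@En.n l24709 (nat_lit 12846) (nat_lit 0) (nat_lit 14))
    (@En.i (nat_lit 3707) (nat_lit 2) (nat_lit 11))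
    (@En.i (nat_lit 9743) (nat_lit 2) (nat_lit 13))
    (@En.n l17 (nat_lit 2649) (nat_lit 4) (nat_lit 2))
    (@En.n l7161 (nat_lit 3076) (nat_lit 5) (nat_lit 5))
    (@En.n l3786 (nat_lit 3737) (nat_lit 1) (nat_lit 14))
    (@En.n l3787 (nat_lit 4090) (nat_lit 7) (nat_lit 4))
    (@En.i (nat_lit 3753) (nat_lit 8) (nat_lit 4))
    (@En.n l16160 (nat_lit 3935) (nat_lit 9) (nat_lit 5))
    (@En.n l21047 (nat_lit 3844) (nat_lit 11) (nat_lit 11))
    (@En.n l601 (nat_lit 3749) (nat_lit 12) (nat_lit 12))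
    (@En.n l6822 (nat_lit 4511) (nat_lit 13) (nat_lit 12))
    (@En.n l6387 (nat_lit 3751) (nat_lit 14) (nat_lit 5))
    (@En.i (nat_lit 4470) (nat_lit 10) (nat_lit 11))
    (@En.n l67 (nat_lit 2649) (nat_lit 15) (nat_lit 2))))
  (@Cl.mk (nat_lit 0x2000d000d000c00030003000b0004000c000c000b000500040004000e0005) (nat_lit 0xb17006009900010) (nat_lit 16) Lb.e (@T16.mk En
    (@En.n l50 (nat_lit 2645) (nat_lit 4) (nat_lit 5))
    (@En.n l3786 (nat_lit 859) (nat_lit 1) (nat_lit 14))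
    (@En.n l3787 (nat_lit 2655) (nat_lit 12) (nat_lit 4))
    (@En.i (nat_lit 3755) (nat_lit 3) (nat_lit 4))
    (@En.i (nat_lit 3934) (nat_lit 4) (nat_lit 5))
    (@En.n l2337 (nat_lit 3827) (nat_lit 10) (nat_lit 11))
    (@En.n l601 (nat_lit 2644) (nat_lit 7) (nat_lit 12))
    (@En.n l18989 (nat_lit 4510) (nat_lit 8) (nat_lit 12))
    (@En.i (nat_lit 2654) (nat_lit 8) (nat_lit 4))
    (@En.i (nat_lit 4472) (nat_lit 10) (nat_lit 11))
    (@En.n l152 (nat_lit 2648) (nat_lit 13) (nat_lit 3))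
    (@En.i (nat_lit 2649) (nat_lit 0) (nat_lit 3))
    (@En.n l619 (nat_lit 2653) (nat_lit 0) (nat_lit 12))
    (@En.n l97 (nat_lit 2649) (nat_lit 3) (nat_lit 13))
    (@En.i (nat_lit 8590) (nat_lit 2) (nat_lit 13))
    (@En.n l17 (nat_lit 2650) (nat_lit 15) (nat_lit 2))))
  (@Cl.mk (nat_lit 0x2000d0003000a0003000b000b000b000b00060005000500050005000e000d) (nat_lit 0x2060090800000aa) (nat_lit 16) Lb.e (@T16.mk En
    (@En.i (nat_lit 2645) (nat_lit 2) (nat_lit 13))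
    (@En.i (nat_lit 2312) (nat_lit 1) (nat_lit 14))
    (@En.n l1778 (nat_lit 3681) (nat_lit 11) (nat_lit 5))
    (@En.n l2172 (nat_lit 1378) (nat_lit 11) (nat_lit 5))
    (@En.n l77 (nat_lit 3728) (nat_lit 11) (nat_lit 5))
    (@En.i (nat_lit 3817) (nat_lit 5) (nat_lit 5))
    (@En.n l1347 (nat_lit 3774) (nat_lit 6) (nat_lit 6))
    (@En.n l742 (nat_lit 2648) (nat_lit 8) (nat_lit 11))
    (@En.n l396 (nat_lit 3079) (nat_lit 5) (nat_lit 11))
    (@En.n l6367 (nat_lit 2643) (nat_lit 5) (nat_lit 11))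
    (@En.n l28 (nat_lit 3299) (nat_lit 11) (nat_lit 11))
    (@En.i (nat_lit 2652) (nat_lit 11) (nat_lit 3))
    (@En.n l1347 (nat_lit 4779) (nat_lit 0) (nat_lit 10))
    (@En.n l117 (nat_lit 2645) (nat_lit 14) (nat_lit 3))
    (@En.i (nat_lit 437) (nat_lit 0) (nat_lit 13))
    (@En.n l3 (nat_lit 2651) (nat_lit 15) (nat_lit 2))))
  (@Cl.mk (nat_lit 0x2000d000900040003000b000b000b000b00070005000500050005000e000c) (nat_lit 0x1200090800000c1) (nat_lit 16) Lb.e (@T16.mk En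
    (@En.n l6366 (nat_lit 1381) (nat_lit 3) (nat_lit 12))
    (@En.i (nat_lit 2313) (nat_lit 1) (nat_lit 14))
    (@En.n l1778 (nat_lit 3683) (nat_lit 11) (nat_lit 5))
    (@En.n l2172 (nat_lit 1377) (nat_lit 11) (nat_lit 5))
    (@En.n l77 (nat_lit 3729) (nat_lit 11) (nat_lit 5))
    (@En.i (nat_lit 3816) (nat_lit 5) (nat_lit 5))
    (@En.n l4908 (nat_lit 1373) (nat_lit 6) (nat_lit 7))
    (@En.n l742 (nat_lit 2653) (nat_lit 8) (nat_lit 11))
    (@En.n l396 (nat_lit 3080) (nat_lit 5) (nat_lit 11))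
    (@En.n l6367 (nat_lit 2642) (nat_lit 5) (nat_lit 11))
    (@En.n l5663 (nat_lit 6765) (nat_lit 11) (nat_lit 11))
    (@En.n l11 (nat_lit 2651) (nat_lit 11) (nat_lit 3))
    (@En.n l2211 (nat_lit 2670) (nat_lit 0) (nat_lit 4))
    (@En.i (nat_lit 3090) (nat_lit 14) (nat_lit 9))
    (@En.n l4314 (nat_lit 435) (nat_lit 1) (nat_lit 13))
    (@En.n l3 (nat_lit 2652) (nat_lit 15) (nat_lit 2))))
  (@Cl.mk (nat_lit 0x2000d000a00040003000c000c000b000600040004000e00050002000e000c) (nat_lit 0x1400017000100c6) (nat_lit 16) Lb.e (@T16.mk En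
    (@En.i (nat_lit 2654) (nat_lit 14) (nat_lit 12))
    (@En.i (nat_lit 8477) (nat_lit 1) (nat_lit 14))
    (@En.n l17 (nat_lit 2653) (nat_lit 2) (nat_lit 2))
    (@En.n l50 (nat_lit 2652) (nat_lit 3) (nat_lit 5))
    (@En.n l3786 (nat_lit 860) (nat_lit 1) (nat_lit 14))
    (@En.n l3787 (nat_lit 3731) (nat_lit 12) (nat_lit 4))
    (@En.i (nat_lit 3831) (nat_lit 6) (nat_lit 4))
    (@En.n l688 (nat_lit 3943) (nat_lit 7) (nat_lit 6))
    (@En.n l2337 (nat_lit 3824) (nat_lit 9) (nat_lit 11))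
    (@En.n l601 (nat_lit 678) (nat_lit 10) (nat_lit 12))
    (@En.n l11655 (nat_lit 7976) (nat_lit 11) (nat_lit 12))
    (@En.n l11 (nat_lit 2648) (nat_lit 11) (nat_lit 3))
    (@En.n l6385 (nat_lit 2672) (nat_lit 0) (nat_lit 4))
    (@En.i (nat_lit 1952) (nat_lit 14) (nat_lit 10))
    (@En.i (nat_lit 438) (nat_lit 12) (nat_lit 13))
    (@En.n l3 (nat_lit 2653) (nat_lit 15) (nat_lit 2))))
  (@Cl.mk (nat_lit 0x2000c000c000c0009000400040004000c000c000b000700040004000e0005) (nat_lit 0x50820000a900060) (nat_lit 16) Lb.e (@T16.mk En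
    (@En.n l6387 (nat_lit 1381) (nat_lit 5) (nat_lit 5))
    (@En.n l3786 (nat_lit 3333) (nat_lit 1) (nat_lit 14))
    (@En.n l3787 (nat_lit 2681) (nat_lit 12) (nat_lit 4))
    (@En.i (nat_lit 3756) (nat_lit 3) (nat_lit 4))
    (@En.n l688 (nat_lit 1946) (nat_lit 4) (nat_lit 7))
    (@En.n l2337 (nat_lit 3822) (nat_lit 5) (nat_lit 11))
    (@En.n l601 (nat_lit 3748) (nat_lit 7) (nat_lit 12))
    (@En.i (nat_lit 5886) (nat_lit 8) (nat_lit 12))
    (@En.n l11 (nat_lit 3707) (nat_lit 12) (nat_lit 4))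
    (@En.n l152 (nat_lit 2653) (nat_lit 12) (nat_lit 4))
    (@En.n l6387 (nat_lit 2674) (nat_lit 10) (nat_lit 4))
    (@En.i (nat_lit 1945) (nat_lit 12) (nat_lit 9))
    (@En.n l6386 (nat_lit 2672) (nat_lit 4) (nat_lit 12))
    (@En.n l17082 (nat_lit 3751) (nat_lit 4) (nat_lit 12))
    (@En.i (nat_lit 8506) (nat_lit 11) (nat_lit 12))
    (@En.n l17 (nat_lit 2654) (nat_lit 15) (nat_lit 2))))
  (@Cl.mk (nat_lit 0x2000c00060004000e00040002000d000d000c00030003000a0004000e000c) (nat_lit 0x600060000001) (nat_lit 16) Lb.e (@T16.mk En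
    (@En.n l644 (nat_lit 2650) (nat_lit 7) (nat_lit 12))
    (@En.n l3528 (nat_lit 5829) (nat_lit 1) (nat_lit 14))
    (@En.i (nat_lit 2681) (nat_lit 2) (nat_lit 4))
    (@En.i (nat_lit 4562) (nat_lit 3) (nat_lit 10))
    (@En.n l152 (nat_lit 3730) (nat_lit 4) (nat_lit 3))
    (@En.i (nat_lit 4090) (nat_lit 0) (nat_lit 3))
    (@En.n l619 (nat_lit 3731) (nat_lit 7) (nat_lit 12))
    (@En.n l97 (nat_lit 4090) (nat_lit 3) (nat_lit 13))
    (@En.i (nat_lit 9740) (nat_lit 9) (nat_lit 13))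
    (@En.n l17 (nat_lit 2655) (nat_lit 9) (nat_lit 2))
    (@En.i (nat_lit 3727) (nat_lit 10) (nat_lit 4))
    (@En.i (nat_lit 4716) (nat_lit 1) (nat_lit 14))
    (@En.i (nat_lit 4053) (nat_lit 2) (nat_lit 4))
    (@En.i (nat_lit 3936) (nat_lit 14) (nat_lit 6))
    (@En.n l11391 (nat_lit 4403) (nat_lit 9) (nat_lit 12))
    (@En.n l7 (nat_lit 2655) (nat_lit 15) (nat_lit 2))))
noncomputable def a166 : T16 Cl := @T16.mk Cl
  (@Cl.mk (nat_lit 0x200050009000c000a0008000e0004000200070006000c000b0008000e0004) (nat_lit 0x5a21b0000a7240) (nat_lit 16) Lb.e (@T16.mk En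
    (@En.n l12011 (nat_lit 2221) (nat_lit 8) (nat_lit 4))
    (@En.n l4758 (nat_lit 2220) (nat_lit 10) (nat_lit 14))
    (@En.n l12012 (nat_lit 3316) (nat_lit 11) (nat_lit 8))
    (@En.n l12013 (nat_lit 2658) (nat_lit 3) (nat_lit 11))
    (@En.n l1643 (nat_lit 7859) (nat_lit 13) (nat_lit 12))
    (@En.n l12014 (nat_lit 2279) (nat_lit 5) (nat_lit 6))
    (@En.n l24862 (nat_lit 776) (nat_lit 6) (nat_lit 7))
    (@En.n l18 (nat_lit 2656) (nat_lit 7) (nat_lit 2))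
    (@En.n l24863 (nat_lit 776) (nat_lit 8) (nat_lit 4))
    (@En.n l12013 (nat_lit 3961) (nat_lit 10) (nat_lit 14))
    (@En.n l12008 (nat_lit 433) (nat_lit 11) (nat_lit 8))
    (@En.n l3438 (nat_lit 3609) (nat_lit 12) (nat_lit 10))
    (@En.n l12013 (nat_lit 3904) (nat_lit 13) (nat_lit 12))
    (@En.i (nat_lit 901) (nat_lit 5) (nat_lit 9))
    (@En.n l19840 (nat_lit 2529) (nat_lit 13) (nat_lit 5))
    (@En.n l28 (nat_lit 2656) (nat_lit 15) (nat_lit 2))))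
  (@Cl.mk (nat_lit 0x200070006000b000e000c0002000a000500040009000c000a0006000e0004) (nat_lit 0x56103003a40b0) (nat_lit 16) Lb.e (@T16.mk En
    (@En.n l3362 (nat_lit 888) (nat_lit 6) (nat_lit 4))
    (@En.i (nat_lit 3962) (nat_lit 8) (nat_lit 14))
    (@En.n l6899 (nat_lit 627) (nat_lit 2) (nat_lit 6))
    (@En.n l12687 (nat_lit 3608) (nat_lit 3) (nat_lit 10))
    (@En.i (nat_lit 3905) (nat_lit 6) (nat_lit 12))
    (@En.n l12003 (nat_lit 7900) (nat_lit 5) (nat_lit 9))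
    (@En.n l1241 (nat_lit 2216) (nat_lit 6) (nat_lit 4))
    (@En.n l17 (nat_lit 2658) (nat_lit 14) (nat_lit 5))
    (@En.n l12001 (nat_lit 3305) (nat_lit 9) (nat_lit 10))
    (@En.n l3 (nat_lit 2657) (nat_lit 9) (nat_lit 2))
    (@En.n l12002 (nat_lit 2221) (nat_lit 11) (nat_lit 12))
    (@En.n l12003 (nat_lit 3356) (nat_lit 4) (nat_lit 14))
    (@En.i (nat_lit 5982) (nat_lit 13) (nat_lit 11))
    (@En.n l1722 (nat_lit 2285) (nat_lit 14) (nat_lit 6))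
    (@En.n l3360 (nat_lit 888) (nat_lit 4) (nat_lit 7))
    (@En.n l7 (nat_lit 2657) (nat_lit 15) (nat_lit 2))))
  (@Cl.mk (nat_lit 0x2000500030009000c000a0009000e0004000200070006000b0007000e000d) (nat_lit 0x6001b00006071) (nat_lit 16) Lb.e (@T16.mk En
    (@En.n l4130 (nat_lit 830) (nat_lit 10) (nat_lit 13))
    (@En.i (nat_lit 2657) (nat_lit 11) (nat_lit 14))
    (@En.n l12268 (nat_lit 2070) (nat_lit 12) (nat_lit 7))
    (@En.i (nat_lit 5984) (nat_lit 3) (nat_lit 11))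
    (@En.n l1722 (nat_lit 2287) (nat_lit 4) (nat_lit 6))
    (@En.n l20939 (nat_lit 2659) (nat_lit 5) (nat_lit 7))
    (@En.n l7 (nat_lit 2658) (nat_lit 6) (nat_lit 2))
    (@En.n l13574 (nat_lit 2659) (nat_lit 7) (nat_lit 4))
    (@En.i (nat_lit 3772) (nat_lit 9) (nat_lit 14))
    (@En.n l6393 (nat_lit 843) (nat_lit 10) (nat_lit 9))
    (@En.n l1915 (nat_lit 3601) (nat_lit 11) (nat_lit 10))
    (@En.i (nat_lit 2663) (nat_lit 12) (nat_lit 12))
    (@En.n l3337 (nat_lit 7897) (nat_lit 13) (nat_lit 9))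
    (@En.n l2832 (nat_lit 830) (nat_lit 6) (nat_lit 3))
    (@En.n l781 (nat_lit 2528) (nat_lit 7) (nat_lit 5))
    (@En.n l3 (nat_lit 2658) (nat_lit 15) (nat_lit 2))))
  (@Cl.mk (nat_lit 0x2000500030009000c000c000b000a0004000400070005000b0006000e000d) (nat_lit 0x6011100009011) (nat_lit 16) Lb.e (@T16.mk En
    (@En.n l1012 (nat_lit 831) (nat_lit 2) (nat_lit 13))
    (@En.n l6210 (nat_lit 888) (nat_lit 1) (nat_lit 14))
    (@En.n l4961 (nat_lit 2069) (nat_lit 2) (nat_lit 6))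
    (@En.n l5931 (nat_lit 5980) (nat_lit 3) (nat_lit 11))
    (@En.i (nat_lit 2229) (nat_lit 4) (nat_lit 5))
    (@En.n l26691 (nat_lit 2661) (nat_lit 5) (nat_lit 7))
    (@En.n l26692 (nat_lit 2661) (nat_lit 6) (nat_lit 4))
    (@En.n l26693 (nat_lit 2660) (nat_lit 7) (nat_lit 4))
    (@En.n l55 (nat_lit 838) (nat_lit 9) (nat_lit 10))
    (@En.n l5931 (nat_lit 2329) (nat_lit 10) (nat_lit 11))
    (@En.n l12891 (nat_lit 2658) (nat_lit 11) (nat_lit 12))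
    (@En.n l5374 (nat_lit 2662) (nat_lit 12) (nat_lit 12))
    (@En.i (nat_lit 7895) (nat_lit 13) (nat_lit 9))
    (@En.n l3291 (nat_lit 831) (nat_lit 14) (nat_lit 3))
    (@En.i (nat_lit 2522) (nat_lit 0) (nat_lit 5))
    (@En.n l18 (nat_lit 2659) (nat_lit 15) (nat_lit 2))))
  (@Cl.mk (nat_lit 0x2000500030009000c0008000d000c0004000300070004000b0008000e000d) (nat_lit 0x7a00100007000) (nat_lit 16) Lb.e (@T16.mk En
    (@En.n l21978 (nat_lit 4364) (nat_lit 2) (nat_lit 13))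
    (@En.n l21979 (nat_lit 4434) (nat_lit 1) (nat_lit 14))
    (@En.n l21980 (nat_lit 3969) (nat_lit 2) (nat_lit 8))
    (@En.n l6654 (nat_lit 12465) (nat_lit 3) (nat_lit 11))
    (@En.n l9458 (nat_lit 3594) (nat_lit 4) (nat_lit 4))
    (@En.n l21981 (nat_lit 2328) (nat_lit 5) (nat_lit 7))
    (@En.n l21982 (nat_lit 2331) (nat_lit 6) (nat_lit 3))
    (@En.n l6586 (nat_lit 2658) (nat_lit 7) (nat_lit 4))
    (@En.n l21983 (nat_lit 2327) (nat_lit 9) (nat_lit 12))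
    (@En.i (nat_lit 3769) (nat_lit 10) (nat_lit 13))
    (@En.n l21984 (nat_lit 4498) (nat_lit 11) (nat_lit 8))
    (@En.n l6654 (nat_lit 3793) (nat_lit 12) (nat_lit 12))
    (@En.n l21985 (nat_lit 7902) (nat_lit 13) (nat_lit 9))
    (@En.n l21986 (nat_lit 4364) (nat_lit 14) (nat_lit 3))
    (@En.n l21987 (nat_lit 2791) (nat_lit 0) (nat_lit 5))
    (@En.n l50 (nat_lit 2660) (nat_lit 15) (nat_lit 2))))
  (@Cl.mk (nat_lit 0x2000500030009000e000c0002000c000b000400070004000b0005000e000d) (nat_lit 0x6010210009011) (nat_lit 16) Lb.e (@T16.mk En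
    (@En.n l6108 (nat_lit 833) (nat_lit 7) (nat_lit 13))
    (@En.i (nat_lit 889) (nat_lit 1) (nat_lit 14))
    (@En.n l5351 (nat_lit 2358) (nat_lit 2) (nat_lit 5))
    (@En.i (nat_lit 5983) (nat_lit 3) (nat_lit 11))
    (@En.n l5348 (nat_lit 2264) (nat_lit 4) (nat_lit 4))
    (@En.n l3337 (nat_lit 12987) (nat_lit 11) (nat_lit 7))
    (@En.n l16514 (nat_lit 2328) (nat_lit 6) (nat_lit 4))
    (@En.n l5335 (nat_lit 844) (nat_lit 8) (nat_lit 11))
    (@En.i (nat_lit 2324) (nat_lit 9) (nat_lit 12))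
    (@En.n l7 (nat_lit 2661) (nat_lit 9) (nat_lit 2))
    (@En.n l5378 (nat_lit 2659) (nat_lit 11) (nat_lit 12))
    (@En.n l134 (nat_lit 4084) (nat_lit 12) (nat_lit 14))
    (@En.n l3345 (nat_lit 7896) (nat_lit 13) (nat_lit 9))
    (@En.n l12871 (nat_lit 833) (nat_lit 3) (nat_lit 3))
    (@En.n l5378 (nat_lit 2520) (nat_lit 0) (nat_lit 5))
    (@En.n l3 (nat_lit 2661) (nat_lit 15) (nat_lit 2))))
  (@Cl.mk (nat_lit 0x200050003000c000b000a00090004000e000500020006000b0007000e000d) (nat_lit 0xa0000c0000070) (nat_lit 16) Lb.e (@T16.mk En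
    (@En.n l27232 (nat_lit 2664) (nat_lit 11) (nat_lit 13))
    (@En.n l1246 (nat_lit 2665) (nat_lit 12) (nat_lit 14))
    (@En.n l4446 (nat_lit 2072) (nat_lit 13) (nat_lit 7))
    (@En.i (nat_lit 7474) (nat_lit 3) (nat_lit 11))
    (@En.n l10039 (nat_lit 2271) (nat_lit 4) (nat_lit 6))
    (@En.n l50 (nat_lit 2662) (nat_lit 5) (nat_lit 2))
    (@En.n l9234 (nat_lit 3706) (nat_lit 6) (nat_lit 5))
    (@En.n l601 (nat_lit 2658) (nat_lit 8) (nat_lit 14))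
    (@En.i (nat_lit 3793) (nat_lit 8) (nat_lit 4))
    (@En.n l10086 (nat_lit 3643) (nat_lit 10) (nat_lit 9))
    (@En.n l20571 (nat_lit 3838) (nat_lit 11) (nat_lit 10))
    (@En.n l77 (nat_lit 3906) (nat_lit 12) (nat_lit 11))
    (@En.i (nat_lit 8064) (nat_lit 13) (nat_lit 12))
    (@En.n l27233 (nat_lit 2664) (nat_lit 7) (nat_lit 3))
    (@En.i (nat_lit 2965) (nat_lit 8) (nat_lit 5))
    (@En.n l3 (nat_lit 2662) (nat_lit 15) (nat_lit 2))))
  (@Cl.mk (nat_lit 0x200050003000c00090008000d0004000e000300020007000b0008000e000d) (nat_lit 0xa00a040000001) (nat_lit 16) Lb.e (@T16.mk En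
    (@En.n l6108 (nat_lit 666) (nat_lit 11) (nat_lit 13))
    (@En.i (nat_lit 3905) (nat_lit 12) (nat_lit 14))
    (@En.i (nat_lit 3930) (nat_lit 13) (nat_lit 8))
    (@En.i (nat_lit 4753) (nat_lit 3) (nat_lit 11))
    (@En.i (nat_lit 2323) (nat_lit 4) (nat_lit 7))
    (@En.n l50 (nat_lit 2663) (nat_lit 5) (nat_lit 2))
    (@En.i (nat_lit 3906) (nat_lit 6) (nat_lit 3))
    (@En.i (nat_lit 13008) (nat_lit 0) (nat_lit 14))
    (@En.i (nat_lit 2662) (nat_lit 8) (nat_lit 4))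
    (@En.i (nat_lit 4256) (nat_lit 10) (nat_lit 13))
    (@En.n l6393 (nat_lit 3787) (nat_lit 11) (nat_lit 8))
    (@En.i (nat_lit 3067) (nat_lit 12) (nat_lit 9))
    (@En.i (nat_lit 8066) (nat_lit 13) (nat_lit 12))
    (@En.n l12871 (nat_lit 666) (nat_lit 7) (nat_lit 3))
    (@En.i (nat_lit 2817) (nat_lit 8) (nat_lit 5))
    (@En.n l3 (nat_lit 2663) (nat_lit 15) (nat_lit 2))))
  (@Cl.mk (nat_lit 0x20006000c0007000d000d000400030003000c000b000a00090004000e0005) (nat_lit 0xb0000a100010) (nat_lit 16) Lb.e (@T16.mk En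
    (@En.n l117 (nat_lit 1166) (nat_lit 7) (nat_lit 5))
    (@En.n l17703 (nat_lit 830) (nat_lit 1) (nat_lit 14))
    (@En.n l18860 (nat_lit 3792) (nat_lit 2) (nat_lit 4))
    (@En.n l77 (nat_lit 3645) (nat_lit 3) (nat_lit 9))
    (@En.n l6458 (nat_lit 3789) (nat_lit 4) (nat_lit 10))
    (@En.n l936 (nat_lit 667) (nat_lit 5) (nat_lit 11))
    (@En.i (nat_lit 7496) (nat_lit 7) (nat_lit 12))
    (@En.n l33360 (nat_lit 2662) (nat_lit 13) (nat_lit 3))
    (@En.n l18 (nat_lit 2669) (nat_lit 8) (nat_lit 3))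
    (@En.n l404 (nat_lit 2666) (nat_lit 0) (nat_lit 4))
    (@En.n l61 (nat_lit 2669) (nat_lit 11) (nat_lit 13))
    (@En.n l18860 (nat_lit 3077) (nat_lit 12) (nat_lit 13))
    (@En.n l13538 (nat_lit 2073) (nat_lit 13) (nat_lit 7))
    (@En.n l16169 (nat_lit 7131) (nat_lit 14) (nat_lit 12))
    (@En.n l17706 (nat_lit 2273) (nat_lit 5) (nat_lit 6))
    (@En.n l11 (nat_lit 2664) (nat_lit 15) (nat_lit 2))))
  (@Cl.mk (nat_lit 0x20006000b000e000c0002000a00050004000c000b000a00060004000e0005) (nat_lit 0x600800a9000c0) (nat_lit 16) Lb.e (@T16.mk En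
    (@En.n l50 (nat_lit 1380) (nat_lit 5) (nat_lit 5))
    (@En.n l21750 (nat_lit 2657) (nat_lit 1) (nat_lit 14))
    (@En.i (nat_lit 3064) (nat_lit 2) (nat_lit 4))
    (@En.n l13864 (nat_lit 3693) (nat_lit 8) (nat_lit 6))
    (@En.n l21751 (nat_lit 3835) (nat_lit 4) (nat_lit 10))
    (@En.n l7584 (nat_lit 3901) (nat_lit 11) (nat_lit 11))
    (@En.n l645 (nat_lit 8063) (nat_lit 7) (nat_lit 12))
    (@En.i (nat_lit 3077) (nat_lit 7) (nat_lit 4))
    (@En.n l2316 (nat_lit 2662) (nat_lit 14) (nat_lit 5))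
    (@En.n l21752 (nat_lit 3165) (nat_lit 10) (nat_lit 10))
    (@En.n l67 (nat_lit 2665) (nat_lit 10) (nat_lit 2))
    (@En.n l68 (nat_lit 2667) (nat_lit 12) (nat_lit 12))
    (@En.n l21753 (nat_lit 2966) (nat_lit 4) (nat_lit 14))
    (@En.n l265 (nat_lit 7473) (nat_lit 2) (nat_lit 11))
    (@En.n l13872 (nat_lit 2405) (nat_lit 3) (nat_lit 6))
    (@En.n l18 (nat_lit 2665) (nat_lit 15) (nat_lit 2))))
  (@Cl.mk (nat_lit 0x20005000c000b000a00080004000e000500020006000c000b0008000e0004) (nat_lit 0xa0030c000916a0) (nat_lit 16) Lb.e (@T16.mk En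
    (@En.n l137 (nat_lit 2667) (nat_lit 9) (nat_lit 4))
    (@En.n l24293 (nat_lit 3078) (nat_lit 11) (nat_lit 14))
    (@En.i (nat_lit 3272) (nat_lit 12) (nat_lit 8))
    (@En.n l24294 (nat_lit 2662) (nat_lit 3) (nat_lit 11))
    (@En.n l24295 (nat_lit 7134) (nat_lit 14) (nat_lit 12))
    (@En.n l19233 (nat_lit 2427) (nat_lit 5) (nat_lit 6))
    (@En.n l28 (nat_lit 2666) (nat_lit 6) (nat_lit 2))
    (@En.n l14327 (nat_lit 2974) (nat_lit 7) (nat_lit 5))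
    (@En.n l24296 (nat_lit 2656) (nat_lit 9) (nat_lit 14))
    (@En.n l4086 (nat_lit 3848) (nat_lit 9) (nat_lit 4))
    (@En.n l24297 (nat_lit 2668) (nat_lit 11) (nat_lit 8))
    (@En.n l146 (nat_lit 3840) (nat_lit 12) (nat_lit 10))
    (@En.n l24298 (nat_lit 3897) (nat_lit 13) (nat_lit 11))
    (@En.n l24299 (nat_lit 7794) (nat_lit 7) (nat_lit 12))
    (@En.n l24300 (nat_lit 2964) (nat_lit 13) (nat_lit 5))
    (@En.n l17 (nat_lit 2666) (nat_lit 15) (nat_lit 2))))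
  (@Cl.mk (nat_lit 0x20006000c000c000c0009000400040004000c000b000a00070004000e0005) (nat_lit 0xa24000a900010) (nat_lit 16) Lb.e (@T16.mk En
    (@En.n l6387 (nat_lit 1381) (nat_lit 6) (nat_lit 5))
    (@En.n l18181 (nat_lit 2221) (nat_lit 1) (nat_lit 14))
    (@En.i (nat_lit 3847) (nat_lit 2) (nat_lit 4))
    (@En.n l13864 (nat_lit 2670) (nat_lit 3) (nat_lit 7))
    (@En.n l18182 (nat_lit 3823) (nat_lit 4) (nat_lit 10))
    (@En.n l7584 (nat_lit 3902) (nat_lit 5) (nat_lit 11))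
    (@En.n l18183 (nat_lit 6341) (nat_lit 7) (nat_lit 12))
    (@En.n l11 (nat_lit 2665) (nat_lit 7) (nat_lit 4))
    (@En.n l152 (nat_lit 3080) (nat_lit 8) (nat_lit 4))
    (@En.n l18184 (nat_lit 2664) (nat_lit 9) (nat_lit 4))
    (@En.i (nat_lit 3269) (nat_lit 11) (nat_lit 9))
    (@En.n l18088 (nat_lit 2668) (nat_lit 12) (nat_lit 12))
    (@En.n l148 (nat_lit 2666) (nat_lit 4) (nat_lit 12))
    (@En.n l18185 (nat_lit 7477) (nat_lit 14) (nat_lit 12))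
    (@En.i (nat_lit 2239) (nat_lit 13) (nat_lit 6))
    (@En.n l18 (nat_lit 2667) (nat_lit 15) (nat_lit 2))))
  (@Cl.mk (nat_lit 0x20006000d000c00080003000e00040002000c000b000a00080004000e0005) (nat_lit 0xb120100a102010) (nat_lit 16) Lb.e (@T16.mk En
    (@En.n l117 (nat_lit 2670) (nat_lit 8) (nat_lit 5))
    (@En.n l17703 (nat_lit 826) (nat_lit 1) (nat_lit 14))
    (@En.n l17704 (nat_lit 3641) (nat_lit 2) (nat_lit 4))
    (@En.n l6385 (nat_lit 2672) (nat_lit 3) (nat_lit 8))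
    (@En.n l2229 (nat_lit 3643) (nat_lit 4) (nat_lit 10))
    (@En.n l936 (nat_lit 664) (nat_lit 14) (nat_lit 11))
    (@En.i (nat_lit 7498) (nat_lit 7) (nat_lit 12))
    (@En.n l17 (nat_lit 2668) (nat_lit 7) (nat_lit 2))
    (@En.n l17705 (nat_lit 2667) (nat_lit 8) (nat_lit 4))
    (@En.n l5 (nat_lit 433) (nat_lit 10) (nat_lit 14))
    (@En.n l50 (nat_lit 2669) (nat_lit 10) (nat_lit 3))
    (@En.n l7833 (nat_lit 1943) (nat_lit 12) (nat_lit 8))
    (@En.n l217 (nat_lit 2664) (nat_lit 13) (nat_lit 12))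
    (@En.n l7619 (nat_lit 7935) (nat_lit 6) (nat_lit 13))
    (@En.n l17706 (nat_lit 2242) (nat_lit 6) (nat_lit 6))
    (@En.n l11 (nat_lit 2668) (nat_lit 15) (nat_lit 2))))
  (@Cl.mk (nat_lit 0x20006000d0007000d0003000e00030002000c000b000a00090004000e0005) (nat_lit 0xa0b0300a100010) (nat_lit 16) Lb.e (@T16.mk En
    (@En.n l117 (nat_lit 2671) (nat_lit 8) (nat_lit 5))
    (@En.n l17703 (nat_lit 828) (nat_lit 1) (nat_lit 14))
    (@En.n l17704 (nat_lit 3791) (nat_lit 2) (nat_lit 4))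
    (@En.n l77 (nat_lit 3782) (nat_lit 3) (nat_lit 9))
    (@En.i (nat_lit 3787) (nat_lit 4) (nat_lit 10))
    (@En.n l936 (nat_lit 665) (nat_lit 14) (nat_lit 11))
    (@En.i (nat_lit 7495) (nat_lit 7) (nat_lit 12))
    (@En.n l17 (nat_lit 2669) (nat_lit 7) (nat_lit 2))
    (@En.i (nat_lit 2664) (nat_lit 8) (nat_lit 3))
    (@En.i (nat_lit 13723) (nat_lit 0) (nat_lit 14))
    (@En.i (nat_lit 2668) (nat_lit 10) (nat_lit 3))
    (@En.n l4473 (nat_lit 3079) (nat_lit 12) (nat_lit 13))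
    (@En.i (nat_lit 2076) (nat_lit 13) (nat_lit 7))
    (@En.n l7619 (nat_lit 7934) (nat_lit 6) (nat_lit 13))
    (@En.n l17706 (nat_lit 2369) (nat_lit 6) (nat_lit 6))
    (@En.n l11 (nat_lit 2669) (nat_lit 15) (nat_lit 2))))
  (@Cl.mk (nat_lit 0x2000b000b000b000b00090005000500050005000d000c00070003000e0004) (nat_lit 0x12030000b10010) (nat_lit 16) Lb.e (@T16.mk En
    (@En.n l50 (nat_lit 1381) (nat_lit 14) (nat_lit 4))
    (@En.n l5 (nat_lit 436) (nat_lit 1) (nat_lit 14))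
    (@En.n l50 (nat_lit 2671) (nat_lit 2) (nat_lit 3))
    (@En.n l15700 (nat_lit 1613) (nat_lit 3) (nat_lit 7))
    (@En.n l217 (nat_lit 1166) (nat_lit 4) (nat_lit 12))
    (@En.n l601 (nat_lit 6874) (nat_lit 6) (nat_lit 13))
    (@En.n l218 (nat_lit 3693) (nat_lit 11) (nat_lit 5))
    (@En.n l11 (nat_lit 1372) (nat_lit 7) (nat_lit 5))
    (@En.n l4976 (nat_lit 2680) (nat_lit 11) (nat_lit 5))
    (@En.n l1573 (nat_lit 3646) (nat_lit 9) (nat_lit 5))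
    (@En.i (nat_lit 2654) (nat_lit 11) (nat_lit 9))
    (@En.n l55 (nat_lit 2672) (nat_lit 12) (nat_lit 11))
    (@En.n l619 (nat_lit 2668) (nat_lit 5) (nat_lit 11))
    (@En.i (nat_lit 1164) (nat_lit 5) (nat_lit 11))
    (@En.i (nat_lit 7499) (nat_lit 12) (nat_lit 11))
    (@En.n l17 (nat_lit 2670) (nat_lit 15) (nat_lit 2))))
  (@Cl.mk (nat_lit 0x2000b000b000b000b000a0005000500050005000d0006000d0003000e0003) (nat_lit 0x12030000a0b030) (nat_lit 16) Lb.e (@T16.mk En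
    (@En.i (nat_lit 1166) (nat_lit 15) (nat_lit 3))
    (@En.i (nat_lit 13720) (nat_lit 0) (nat_lit 14))
    (@En.i (nat_lit 2670) (nat_lit 2) (nat_lit 3))
    (@En.n l1393 (nat_lit 2651) (nat_lit 0) (nat_lit 13))
    (@En.i (nat_lit 1955) (nat_lit 4) (nat_lit 6))
    (@En.n l601 (nat_lit 6876) (nat_lit 6) (nat_lit 13))
    (@En.n l218 (nat_lit 3695) (nat_lit 6) (nat_lit 5))
    (@En.n l11 (nat_lit 1371) (nat_lit 7) (nat_lit 5))
    (@En.n l4976 (nat_lit 2678) (nat_lit 11) (nat_lit 5))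
    (@En.n l1393 (nat_lit 3786) (nat_lit 9) (nat_lit 5))
    (@En.n l77 (nat_lit 3821) (nat_lit 11) (nat_lit 10))
    (@En.n l55 (nat_lit 2673) (nat_lit 12) (nat_lit 11))
    (@En.n l619 (nat_lit 2669) (nat_lit 5) (nat_lit 11))
    (@En.i (nat_lit 1162) (nat_lit 5) (nat_lit 11))
    (@En.i (nat_lit 7494) (nat_lit 12) (nat_lit 11))
    (@En.n l17 (nat_lit 2671) (nat_lit 15) (nat_lit 2))))
noncomputable def a167 : T16 Cl := @T16.mk Cl
  (@Cl.mk (nat_lit 0x2000c000c000b000800040004000e00050002000d000c00080003000e0004) (nat_lit 0x19300a00b71010) (nat_lit 16) Lb.e (@T16.mk En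
    (@En.n l19015 (nat_lit 2654) (nat_lit 9) (nat_lit 4))
    (@En.n l5 (nat_lit 673) (nat_lit 1) (nat_lit 14))
    (@En.n l50 (nat_lit 2673) (nat_lit 2) (nat_lit 3))
    (@En.n l685 (nat_lit 1614) (nat_lit 3) (nat_lit 8))
    (@En.n l217 (nat_lit 2674) (nat_lit 14) (nat_lit 12))
    (@En.n l601 (nat_lit 8509) (nat_lit 6) (nat_lit 13))
    (@En.n l28 (nat_lit 2672) (nat_lit 6) (nat_lit 2))
    (@En.i (nat_lit 2670) (nat_lit 7) (nat_lit 5))
    (@En.n l12618 (nat_lit 3330) (nat_lit 1) (nat_lit 14))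
    (@En.n l152 (nat_lit 2676) (nat_lit 12) (nat_lit 4))
    (@En.n l12617 (nat_lit 3776) (nat_lit 10) (nat_lit 4))
    (@En.i (nat_lit 1948) (nat_lit 4) (nat_lit 8))
    (@En.n l11666 (nat_lit 3645) (nat_lit 13) (nat_lit 11))
    (@En.n l12619 (nat_lit 679) (nat_lit 14) (nat_lit 12))
    (@En.i (nat_lit 6392) (nat_lit 8) (nat_lit 12))
    (@En.n l17 (nat_lit 2672) (nat_lit 15) (nat_lit 2))))
  (@Cl.mk (nat_lit 0x2000c000c000b000900040004000e00050002000d0007000d0003000e0003) (nat_lit 0x19300600a01030) (nat_lit 16) Lb.e (@T16.mk En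
    (@En.i (nat_lit 2674) (nat_lit 9) (nat_lit 3))
    (@En.i (nat_lit 13719) (nat_lit 0) (nat_lit 14))
    (@En.i (nat_lit 2672) (nat_lit 2) (nat_lit 3))
    (@En.n l2438 (nat_lit 2648) (nat_lit 0) (nat_lit 13))
    (@En.i (nat_lit 3272) (nat_lit 14) (nat_lit 7))
    (@En.n l601 (nat_lit 8510) (nat_lit 6) (nat_lit 13))
    (@En.n l28 (nat_lit 2673) (nat_lit 6) (nat_lit 2))
    (@En.i (nat_lit 2671) (nat_lit 7) (nat_lit 5))
    (@En.n l4108 (nat_lit 3332) (nat_lit 1) (nat_lit 14))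
    (@En.n l152 (nat_lit 2675) (nat_lit 12) (nat_lit 4))
    (@En.n l2438 (nat_lit 3779) (nat_lit 10) (nat_lit 4))
    (@En.i (nat_lit 3285) (nat_lit 4) (nat_lit 9))
    (@En.n l4684 (nat_lit 3783) (nat_lit 13) (nat_lit 11))
    (@En.n l10815 (nat_lit 680) (nat_lit 14) (nat_lit 12))
    (@En.i (nat_lit 6391) (nat_lit 8) (nat_lit 12))
    (@En.n l17 (nat_lit 2673) (nat_lit 15) (nat_lit 2))))
  (@Cl.mk (nat_lit 0x2000c0007000d000d000400030003000c000c000b000900040004000e0005) (nat_lit 0x6022000019300b0) (nat_lit 16) Lb.e (@T16.mk En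
    (@En.i (nat_lit 1166) (nat_lit 6) (nat_lit 5))
    (@En.n l8329 (nat_lit 3326) (nat_lit 1) (nat_lit 14))
    (@En.n l152 (nat_lit 2677) (nat_lit 2) (nat_lit 4))
    (@En.n l14016 (nat_lit 3713) (nat_lit 3) (nat_lit 4))
    (@En.i (nat_lit 3280) (nat_lit 4) (nat_lit 9))
    (@En.n l14017 (nat_lit 3785) (nat_lit 5) (nat_lit 11))
    (@En.n l8260 (nat_lit 1168) (nat_lit 7) (nat_lit 12))
    (@En.i (nat_lit 6393) (nat_lit 8) (nat_lit 12))
    (@En.i (nat_lit 3708) (nat_lit 13) (nat_lit 3))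
    (@En.n l18 (nat_lit 2673) (nat_lit 0) (nat_lit 3))
    (@En.i (nat_lit 3751) (nat_lit 0) (nat_lit 4))
    (@En.n l61 (nat_lit 2673) (nat_lit 3) (nat_lit 13))
    (@En.n l14016 (nat_lit 2650) (nat_lit 13) (nat_lit 13))
    (@En.n l137 (nat_lit 3269) (nat_lit 14) (nat_lit 7))
    (@En.i (nat_lit 8520) (nat_lit 11) (nat_lit 12))
    (@En.n l28 (nat_lit 2674) (nat_lit 15) (nat_lit 2))))
  (@Cl.mk (nat_lit 0x2000c000a0004000e00040002000d0006000d0003000e00030002000e000c) (nat_lit 0x30000a02030001) (nat_lit 16) Lb.e (@T16.mk En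
    (@En.i (nat_lit 2673) (nat_lit 14) (nat_lit 12))
    (@En.i (nat_lit 8079) (nat_lit 1) (nat_lit 14))
    (@En.n l17 (nat_lit 2675) (nat_lit 2) (nat_lit 2))
    (@En.i (nat_lit 2677) (nat_lit 9) (nat_lit 3))
    (@En.i (nat_lit 13730) (nat_lit 0) (nat_lit 14))
    (@En.i (nat_lit 2676) (nat_lit 5) (nat_lit 3))
    (@En.n l1393 (nat_lit 3730) (nat_lit 7) (nat_lit 13))
    (@En.i (nat_lit 4182) (nat_lit 14) (nat_lit 6))
    (@En.n l601 (nat_lit 8297) (nat_lit 9) (nat_lit 13))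
    (@En.n l28 (nat_lit 2675) (nat_lit 9) (nat_lit 2))
    (@En.n l11 (nat_lit 2678) (nat_lit 10) (nat_lit 4))
    (@En.i (nat_lit 4800) (nat_lit 1) (nat_lit 14))
    (@En.n l1393 (nat_lit 3781) (nat_lit 2) (nat_lit 4))
    (@En.i (nat_lit 4102) (nat_lit 14) (nat_lit 10))
    (@En.i (nat_lit 4368) (nat_lit 12) (nat_lit 12))
    (@En.n l3 (nat_lit 2675) (nat_lit 15) (nat_lit 2))))
  (@Cl.mk (nat_lit 0x2000c00090004000e00040002000d000c00070003000e00040002000e000c) (nat_lit 0x50a00b00010001) (nat_lit 16) Lb.e (@T16.mk En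
    (@En.i (nat_lit 2672) (nat_lit 14) (nat_lit 12))
    (@En.i (nat_lit 8085) (nat_lit 1) (nat_lit 14))
    (@En.n l17 (nat_lit 2676) (nat_lit 2) (nat_lit 2))
    (@En.n l8934 (nat_lit 2681) (nat_lit 3) (nat_lit 4))
    (@En.n l5 (nat_lit 865) (nat_lit 1) (nat_lit 14))
    (@En.n l50 (nat_lit 2675) (nat_lit 5) (nat_lit 3))
    (@En.n l685 (nat_lit 1612) (nat_lit 6) (nat_lit 7))
    (@En.n l217 (nat_lit 2677) (nat_lit 14) (nat_lit 12))
    (@En.n l601 (nat_lit 8293) (nat_lit 9) (nat_lit 13))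
    (@En.n l28 (nat_lit 2676) (nat_lit 9) (nat_lit 2))
    (@En.n l11 (nat_lit 2680) (nat_lit 10) (nat_lit 4))
    (@En.i (nat_lit 4802) (nat_lit 1) (nat_lit 14))
    (@En.n l1573 (nat_lit 3782) (nat_lit 9) (nat_lit 4))
    (@En.i (nat_lit 1949) (nat_lit 14) (nat_lit 9))
    (@En.i (nat_lit 4371) (nat_lit 12) (nat_lit 12))
    (@En.n l3 (nat_lit 2676) (nat_lit 15) (nat_lit 2))))
  (@Cl.mk (nat_lit 0x2000c0006000d000d000400030003000e000c0002000c000a0004000e0004) (nat_lit 0xa073000010120b0) (nat_lit 16) Lb.e (@T16.mk En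
    (@En.n l11 (nat_lit 2679) (nat_lit 10) (nat_lit 4))
    (@En.i (nat_lit 4801) (nat_lit 1) (nat_lit 14))
    (@En.n l1392 (nat_lit 3784) (nat_lit 2) (nat_lit 4))
    (@En.i (nat_lit 3281) (nat_lit 14) (nat_lit 10))
    (@En.i (nat_lit 2333) (nat_lit 11) (nat_lit 12))
    (@En.n l3 (nat_lit 2677) (nat_lit 5) (nat_lit 2))
    (@En.i (nat_lit 2674) (nat_lit 7) (nat_lit 12))
    (@En.i (nat_lit 8081) (nat_lit 1) (nat_lit 14))
    (@En.n l3180 (nat_lit 2682) (nat_lit 13) (nat_lit 3))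
    (@En.n l18 (nat_lit 2675) (nat_lit 3) (nat_lit 3))
    (@En.i (nat_lit 4089) (nat_lit 0) (nat_lit 4))
    (@En.n l61 (nat_lit 2675) (nat_lit 6) (nat_lit 13))
    (@En.n l1392 (nat_lit 2655) (nat_lit 7) (nat_lit 13))
    (@En.i (nat_lit 3273) (nat_lit 14) (nat_lit 6))
    (@En.n l4909 (nat_lit 8554) (nat_lit 9) (nat_lit 12))
    (@En.n l28 (nat_lit 2677) (nat_lit 15) (nat_lit 2))))
  (@Cl.mk (nat_lit 0x2000c000c000b000500040004000d0005000d0003000e00030002000e000b) (nat_lit 0x314000a00030081) (nat_lit 16) Lb.e (@T16.mk En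
    (@En.n l575 (nat_lit 2671) (nat_lit 14) (nat_lit 11))
    (@En.i (nat_lit 8082) (nat_lit 1) (nat_lit 14))
    (@En.n l17 (nat_lit 2678) (nat_lit 2) (nat_lit 2))
    (@En.i (nat_lit 2679) (nat_lit 3) (nat_lit 3))
    (@En.i (nat_lit 13718) (nat_lit 0) (nat_lit 14))
    (@En.i (nat_lit 2680) (nat_lit 5) (nat_lit 3))
    (@En.n l4973 (nat_lit 3728) (nat_lit 7) (nat_lit 13))
    (@En.n l28 (nat_lit 1950) (nat_lit 7) (nat_lit 5))
    (@En.n l6370 (nat_lit 7922) (nat_lit 9) (nat_lit 13))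
    (@En.n l1577 (nat_lit 3698) (nat_lit 12) (nat_lit 4))
    (@En.i (nat_lit 4047) (nat_lit 10) (nat_lit 4))
    (@En.n l4973 (nat_lit 3783) (nat_lit 8) (nat_lit 5))
    (@En.n l457 (nat_lit 3828) (nat_lit 13) (nat_lit 11))
    (@En.n l1578 (nat_lit 2675) (nat_lit 14) (nat_lit 12))
    (@En.n l107 (nat_lit 829) (nat_lit 12) (nat_lit 12))
    (@En.n l3 (nat_lit 2678) (nat_lit 15) (nat_lit 2))))
  (@Cl.mk (nat_lit 0x2000c000c000b000500040004000c0005000d000d000400030003000e000b) (nat_lit 0x324000000100081) (nat_lit 16) Lb.e (@T16.mk En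
    (@En.n l575 (nat_lit 1166) (nat_lit 13) (nat_lit 11))
    (@En.i (nat_lit 8084) (nat_lit 1) (nat_lit 14))
    (@En.n l3180 (nat_lit 4084) (nat_lit 13) (nat_lit 3))
    (@En.n l18 (nat_lit 2678) (nat_lit 3) (nat_lit 3))
    (@En.i (nat_lit 4087) (nat_lit 0) (nat_lit 4))
    (@En.n l61 (nat_lit 2678) (nat_lit 6) (nat_lit 13))
    (@En.n l7293 (nat_lit 3727) (nat_lit 7) (nat_lit 13))
    (@En.n l28 (nat_lit 1946) (nat_lit 7) (nat_lit 5))
    (@En.n l4909 (nat_lit 7484) (nat_lit 9) (nat_lit 12))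
    (@En.n l1577 (nat_lit 3697) (nat_lit 12) (nat_lit 4))
    (@En.i (nat_lit 4043) (nat_lit 10) (nat_lit 4))
    (@En.n l7293 (nat_lit 3785) (nat_lit 0) (nat_lit 5))
    (@En.n l457 (nat_lit 3824) (nat_lit 13) (nat_lit 11))
    (@En.n l1578 (nat_lit 2677) (nat_lit 4) (nat_lit 12))
    (@En.n l107 (nat_lit 831) (nat_lit 11) (nat_lit 12))
    (@En.n l3 (nat_lit 2679) (nat_lit 15) (nat_lit 2))))
  (@Cl.mk (nat_lit 0x2000c000c000a000500040004000d000c00060003000e00040002000e000b) (nat_lit 0x315000b10010081) (nat_lit 16) Lb.e (@T16.mk En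
    (@En.n l575 (nat_lit 2670) (nat_lit 14) (nat_lit 11))
    (@En.i (nat_lit 8086) (nat_lit 1) (nat_lit 14))
    (@En.n l17 (nat_lit 2680) (nat_lit 2) (nat_lit 2))
    (@En.n l50 (nat_lit 2683) (nat_lit 3) (nat_lit 4))
    (@En.n l5 (nat_lit 851) (nat_lit 1) (nat_lit 14))
    (@En.n l50 (nat_lit 2678) (nat_lit 5) (nat_lit 3))
    (@En.n l28 (nat_lit 1614) (nat_lit 6) (nat_lit 6))
    (@En.n l217 (nat_lit 2679) (nat_lit 8) (nat_lit 12))
    (@En.n l6370 (nat_lit 7921) (nat_lit 9) (nat_lit 13))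
    (@En.n l1577 (nat_lit 3699) (nat_lit 12) (nat_lit 4))
    (@En.i (nat_lit 4057) (nat_lit 10) (nat_lit 4))
    (@En.n l6371 (nat_lit 3645) (nat_lit 8) (nat_lit 5))
    (@En.n l575 (nat_lit 2653) (nat_lit 13) (nat_lit 10))
    (@En.n l1578 (nat_lit 2676) (nat_lit 14) (nat_lit 12))
    (@En.n l107 (nat_lit 827) (nat_lit 12) (nat_lit 12))
    (@En.n l3 (nat_lit 2680) (nat_lit 15) (nat_lit 2))))
  (@Cl.mk (nat_lit 0x2000c00080004000e00040002000c000c000c0008000400040004000e000c) (nat_lit 0x40900901300001) (nat_lit 16) Lb.e (@T16.mk En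
    (@En.n l644 (nat_lit 2654) (nat_lit 7) (nat_lit 12))
    (@En.n l134 (nat_lit 8646) (nat_lit 1) (nat_lit 14))
    (@En.n l11 (nat_lit 4086) (nat_lit 12) (nat_lit 4))
    (@En.n l152 (nat_lit 3731) (nat_lit 3) (nat_lit 4))
    (@En.n l6366 (nat_lit 2677) (nat_lit 10) (nat_lit 4))
    (@En.i (nat_lit 4092) (nat_lit 5) (nat_lit 8))
    (@En.n l4314 (nat_lit 2676) (nat_lit 7) (nat_lit 12))
    (@En.n l11096 (nat_lit 4089) (nat_lit 4) (nat_lit 12))
    (@En.i (nat_lit 8294) (nat_lit 9) (nat_lit 12))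
    (@En.n l17 (nat_lit 2681) (nat_lit 9) (nat_lit 2))
    (@En.n l2210 (nat_lit 2683) (nat_lit 10) (nat_lit 4))
    (@En.i (nat_lit 4727) (nat_lit 1) (nat_lit 14))
    (@En.i (nat_lit 3821) (nat_lit 2) (nat_lit 4))
    (@En.n l6366 (nat_lit 1951) (nat_lit 14) (nat_lit 8))
    (@En.n l11391 (nat_lit 4393) (nat_lit 5) (nat_lit 12))
    (@En.n l7 (nat_lit 2681) (nat_lit 15) (nat_lit 2))))
  (@Cl.mk (nat_lit 0x200050003000e000c0002000c000a0004000e00040002000b0006000e000d) (nat_lit 0x1300000068) (nat_lit 16) Lb.e (@T16.mk En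
    (@En.n l6108 (nat_lit 2677) (nat_lit 12) (nat_lit 13))
    (@En.n l1459 (nat_lit 4086) (nat_lit 1) (nat_lit 14))
    (@En.n l5349 (nat_lit 4183) (nat_lit 14) (nat_lit 6))
    (@En.i (nat_lit 8551) (nat_lit 3) (nat_lit 11))
    (@En.n l776 (nat_lit 2682) (nat_lit 4) (nat_lit 2))
    (@En.n l50 (nat_lit 4084) (nat_lit 5) (nat_lit 4))
    (@En.i (nat_lit 4812) (nat_lit 7) (nat_lit 14))
    (@En.n l4343 (nat_lit 3716) (nat_lit 7) (nat_lit 4))
    (@En.n l217 (nat_lit 3283) (nat_lit 9) (nat_lit 10))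
    (@En.n l16514 (nat_lit 2328) (nat_lit 10) (nat_lit 12))
    (@En.n l28 (nat_lit 2682) (nat_lit 10) (nat_lit 2))
    (@En.n l8479 (nat_lit 3708) (nat_lit 12) (nat_lit 12))
    (@En.i (nat_lit 9216) (nat_lit 13) (nat_lit 14))
    (@En.n l12871 (nat_lit 2677) (nat_lit 8) (nat_lit 3))
    (@En.n l781 (nat_lit 4169) (nat_lit 9) (nat_lit 5))
    (@En.n l3 (nat_lit 2682) (nat_lit 15) (nat_lit 2))))
  (@Cl.mk (nat_lit 0x2000c000c0009000500040004000c000c000c0007000400040004000e000b) (nat_lit 0x1130000020000c1) (nat_lit 16) Lb.e (@T16.mk En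
    (@En.n l575 (nat_lit 1381) (nat_lit 12) (nat_lit 11))
    (@En.n l3423 (nat_lit 8644) (nat_lit 1) (nat_lit 14))
    (@En.n l6377 (nat_lit 4085) (nat_lit 12) (nat_lit 4))
    (@En.n l6378 (nat_lit 3729) (nat_lit 3) (nat_lit 4))
    (@En.i (nat_lit 2679) (nat_lit 4) (nat_lit 4))
    (@En.n l6379 (nat_lit 3270) (nat_lit 5) (nat_lit 7))
    (@En.n l742 (nat_lit 2680) (nat_lit 7) (nat_lit 12))
    (@En.n l396 (nat_lit 4087) (nat_lit 4) (nat_lit 12))
    (@En.n l4909 (nat_lit 7481) (nat_lit 9) (nat_lit 12))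
    (@En.n l1577 (nat_lit 3700) (nat_lit 12) (nat_lit 4))
    (@En.i (nat_lit 3887) (nat_lit 10) (nat_lit 4))
    (@En.n l6379 (nat_lit 3822) (nat_lit 0) (nat_lit 5))
    (@En.n l575 (nat_lit 2652) (nat_lit 13) (nat_lit 9))
    (@En.n l6380 (nat_lit 2681) (nat_lit 14) (nat_lit 12))
    (@En.n l107 (nat_lit 835) (nat_lit 10) (nat_lit 12))
    (@En.n l3 (nat_lit 2683) (nat_lit 15) (nat_lit 2))))
  (@Cl.mk (nat_lit 0x2000600060004000b000e00090002000e00050002000a000a0007000e000c) (nat_lit 0x6c5090078051) (nat_lit 16) Lb.e (@T16.mk En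
    (@En.n l3019 (nat_lit 2498) (nat_lit 11) (nat_lit 12))
    (@En.n l1266 (nat_lit 2977) (nat_lit 1) (nat_lit 14))
    (@En.n l3020 (nat_lit 2535) (nat_lit 2) (nat_lit 7))
    (@En.n l3021 (nat_lit 2635) (nat_lit 6) (nat_lit 10))
    (@En.n l3022 (nat_lit 6785) (nat_lit 4) (nat_lit 10))
    (@En.n l3 (nat_lit 2684) (nat_lit 5) (nat_lit 2))
    (@En.n l894 (nat_lit 2629) (nat_lit 14) (nat_lit 5))
    (@En.n l3020 (nat_lit 3609) (nat_lit 1) (nat_lit 14))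
    (@En.n l17 (nat_lit 2684) (nat_lit 8) (nat_lit 2))
    (@En.n l3023 (nat_lit 2564) (nat_lit 10) (nat_lit 9))
    (@En.n l893 (nat_lit 13250) (nat_lit 4) (nat_lit 14))
    (@En.n l2567 (nat_lit 11650) (nat_lit 12) (nat_lit 11))
    (@En.n l3024 (nat_lit 2791) (nat_lit 6) (nat_lit 4))
    (@En.n l3025 (nat_lit 2562) (nat_lit 14) (nat_lit 6))
    (@En.n l2868 (nat_lit 2810) (nat_lit 8) (nat_lit 6))
    (@En.n l11 (nat_lit 2684) (nat_lit 15) (nat_lit 2))))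
  (@Cl.mk (nat_lit 0x2000700070004000c000c000a000a000400040009000900060006000e000c) (nat_lit 0x671300600051) (nat_lit 16) Lb.e (@T16.mk En
    (@En.n l2934 (nat_lit 2555) (nat_lit 9) (nat_lit 12))
    (@En.n l1113 (nat_lit 8935) (nat_lit 1) (nat_lit 14))
    (@En.n l1154 (nat_lit 2629) (nat_lit 10) (nat_lit 6))
    (@En.n l2935 (nat_lit 7350) (nat_lit 3) (nat_lit 6))
    (@En.n l2936 (nat_lit 2696) (nat_lit 7) (nat_lit 9))
    (@En.n l2937 (nat_lit 8225) (nat_lit 5) (nat_lit 9))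
    (@En.n l2938 (nat_lit 2551) (nat_lit 6) (nat_lit 4))
    (@En.n l2939 (nat_lit 2748) (nat_lit 7) (nat_lit 4))
    (@En.n l2940 (nat_lit 2712) (nat_lit 9) (nat_lit 10))
    (@En.n l2941 (nat_lit 1335) (nat_lit 10) (nat_lit 10))
    (@En.n l2942 (nat_lit 2564) (nat_lit 11) (nat_lit 12))
    (@En.n l2943 (nat_lit 9935) (nat_lit 12) (nat_lit 12))
    (@En.n l2944 (nat_lit 2789) (nat_lit 13) (nat_lit 4))
    (@En.n l2945 (nat_lit 2563) (nat_lit 14) (nat_lit 7))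
    (@En.n l2946 (nat_lit 2800) (nat_lit 1) (nat_lit 7))
    (@En.n l7 (nat_lit 2685) (nat_lit 15) (nat_lit 2))))
  (@Cl.mk (nat_lit 0x20005000c000a000a000e00040002000900060006000e000b0002000e0007) (nat_lit 0x852b0070050000) (nat_lit 16) Lb.e (@T16.mk En
    (@En.n l20378 (nat_lit 2564) (nat_lit 14) (nat_lit 7))
    (@En.n l7563 (nat_lit 2689) (nat_lit 1) (nat_lit 14))
    (@En.n l18 (nat_lit 2686) (nat_lit 2) (nat_lit 2))
    (@En.n l20379 (nat_lit 2689) (nat_lit 3) (nat_lit 11))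
    (@En.n l7085 (nat_lit 9306) (nat_lit 5) (nat_lit 14))
    (@En.n l7471 (nat_lit 2635) (nat_lit 5) (nat_lit 6))
    (@En.n l1253 (nat_lit 1272) (nat_lit 6) (nat_lit 6))
    (@En.i (nat_lit 6775) (nat_lit 4) (nat_lit 9))
    (@En.n l28 (nat_lit 2686) (nat_lit 8) (nat_lit 2))
    (@En.n l20380 (nat_lit 2696) (nat_lit 9) (nat_lit 4))
    (@En.n l1578 (nat_lit 3614) (nat_lit 11) (nat_lit 14))
    (@En.n l4959 (nat_lit 2694) (nat_lit 12) (nat_lit 10))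
    (@En.i (nat_lit 3204) (nat_lit 13) (nat_lit 10))
    (@En.n l20381 (nat_lit 11645) (nat_lit 14) (nat_lit 12))
    (@En.n l20382 (nat_lit 2756) (nat_lit 13) (nat_lit 5))
    (@En.n l3 (nat_lit 2686) (nat_lit 15) (nat_lit 2))))
  (@Cl.mk (nat_lit 0x2000a000a00070007000c000c0006000600040004000c00090009000e0004) (nat_lit 0x6700a00000642a0) (nat_lit 16) Lb.e (@T16.mk En
    (@En.n l14632 (nat_lit 2555) (nat_lit 15) (nat_lit 4))
    (@En.n l14633 (nat_lit 3652) (nat_lit 1) (nat_lit 14))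
    (@En.n l14634 (nat_lit 2698) (nat_lit 2) (nat_lit 9))
    (@En.n l14635 (nat_lit 3198) (nat_lit 3) (nat_lit 9))
    (@En.i (nat_lit 11704) (nat_lit 5) (nat_lit 12))
    (@En.n l14636 (nat_lit 2564) (nat_lit 12) (nat_lit 4))
    (@En.n l7430 (nat_lit 2787) (nat_lit 6) (nat_lit 4))
    (@En.n l14637 (nat_lit 2561) (nat_lit 10) (nat_lit 6))
    (@En.i (nat_lit 2824) (nat_lit 8) (nat_lit 6))
    (@En.n l14638 (nat_lit 2702) (nat_lit 10) (nat_lit 12))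
    (@En.i (nat_lit 7343) (nat_lit 11) (nat_lit 12))
    (@En.n l14639 (nat_lit 2498) (nat_lit 12) (nat_lit 7))
    (@En.n l14640 (nat_lit 7949) (nat_lit 13) (nat_lit 7))
    (@En.n l14641 (nat_lit 2689) (nat_lit 6) (nat_lit 10))
    (@En.n l14642 (nat_lit 8223) (nat_lit 14) (nat_lit 10))
    (@En.n l28 (nat_lit 2687) (nat_lit 15) (nat_lit 2))))
noncomputable def a168 : T16 Cl := @T16.mk Cl
  (@Cl.mk (nat_lit 0x200050005000c000c000b000b00040004000a00050005000b000b000e0006) (nat_lit 0x913006000000) (nat_lit 16) Lb.e (@T16.mk En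
    (@En.n l15475 (nat_lit 2555) (nat_lit 7) (nat_lit 6))
    (@En.n l3 (nat_lit 2704) (nat_lit 4) (nat_lit 14))
    (@En.n l527 (nat_lit 2704) (nat_lit 5) (nat_lit 11))
    (@En.i (nat_lit 8317) (nat_lit 3) (nat_lit 11))
    (@En.n l11224 (nat_lit 2634) (nat_lit 11) (nat_lit 5))
    (@En.n l15476 (nat_lit 1247) (nat_lit 5) (nat_lit 5))
    (@En.n l15477 (nat_lit 6655) (nat_lit 7) (nat_lit 10))
    (@En.n l15478 (nat_lit 2708) (nat_lit 7) (nat_lit 4))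
    (@En.i (nat_lit 2746) (nat_lit 8) (nat_lit 4))
    (@En.n l15479 (nat_lit 2695) (nat_lit 10) (nat_lit 11))
    (@En.n l4380 (nat_lit 1334) (nat_lit 11) (nat_lit 11))
    (@En.n l134 (nat_lit 2689) (nat_lit 12) (nat_lit 12))
    (@En.n l15480 (nat_lit 7663) (nat_lit 13) (nat_lit 12))
    (@En.n l15481 (nat_lit 2696) (nat_lit 14) (nat_lit 5))
    (@En.n l15482 (nat_lit 2717) (nat_lit 13) (nat_lit 5))
    (@En.n l17 (nat_lit 2688) (nat_lit 15) (nat_lit 2))))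
  (@Cl.mk (nat_lit 0x200050005000c000a000a000e00040002000a00060006000b000b000e0006) (nat_lit 0x88640060090c0) (nat_lit 16) Lb.e (@T16.mk En
    (@En.n l17524 (nat_lit 2687) (nat_lit 8) (nat_lit 6))
    (@En.n l3 (nat_lit 2690) (nat_lit 10) (nat_lit 14))
    (@En.n l527 (nat_lit 2690) (nat_lit 11) (nat_lit 11))
    (@En.i (nat_lit 8314) (nat_lit 3) (nat_lit 11))
    (@En.n l21066 (nat_lit 2636) (nat_lit 4) (nat_lit 6))
    (@En.n l10921 (nat_lit 610) (nat_lit 5) (nat_lit 6))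
    (@En.n l15234 (nat_lit 6714) (nat_lit 7) (nat_lit 10))
    (@En.n l7 (nat_lit 2689) (nat_lit 7) (nat_lit 2))
    (@En.n l28 (nat_lit 2688) (nat_lit 8) (nat_lit 4))
    (@En.n l24169 (nat_lit 2862) (nat_lit 10) (nat_lit 14))
    (@En.n l15479 (nat_lit 2691) (nat_lit 11) (nat_lit 10))
    (@En.n l15234 (nat_lit 3203) (nat_lit 12) (nat_lit 10))
    (@En.n l3763 (nat_lit 11700) (nat_lit 13) (nat_lit 12))
    (@En.n l24170 (nat_lit 2686) (nat_lit 14) (nat_lit 5))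
    (@En.n l3106 (nat_lit 2725) (nat_lit 13) (nat_lit 5))
    (@En.n l17 (nat_lit 2689) (nat_lit 15) (nat_lit 2))))
  (@Cl.mk (nat_lit 0x2000b00060006000b000e00050002000e00050002000c000a000a000e0004) (nat_lit 0x6009b00a0080740) (nat_lit 16) Lb.e (@T16.mk En
    (@En.n l28 (nat_lit 2704) (nat_lit 10) (nat_lit 4))
    (@En.n l781 (nat_lit 2857) (nat_lit 12) (nat_lit 14))
    (@En.n l13 (nat_lit 2701) (nat_lit 2) (nat_lit 10))
    (@En.i (nat_lit 3207) (nat_lit 3) (nat_lit 10))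
    (@En.i (nat_lit 10760) (nat_lit 12) (nat_lit 12))
    (@En.n l107 (nat_lit 2690) (nat_lit 5) (nat_lit 2))
    (@En.i (nat_lit 2689) (nat_lit 14) (nat_lit 5))
    (@En.n l10838 (nat_lit 2757) (nat_lit 1) (nat_lit 14))
    (@En.n l17 (nat_lit 2690) (nat_lit 8) (nat_lit 2))
    (@En.n l10838 (nat_lit 2702) (nat_lit 9) (nat_lit 5))
    (@En.i (nat_lit 13394) (nat_lit 4) (nat_lit 14))
    (@En.i (nat_lit 8313) (nat_lit 12) (nat_lit 11))
    (@En.i (nat_lit 2852) (nat_lit 6) (nat_lit 6))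
    (@En.i (nat_lit 1341) (nat_lit 14) (nat_lit 6))
    (@En.n l564 (nat_lit 6713) (nat_lit 9) (nat_lit 11))
    (@En.n l7 (nat_lit 2690) (nat_lit 15) (nat_lit 2))))
  (@Cl.mk (nat_lit 0x200050005000d000a000e000300020009000e00060002000b000b000e0007) (nat_lit 0x95b0061000000) (nat_lit 16) Lb.e (@T16.mk En
    (@En.n l10697 (nat_lit 2698) (nat_lit 7) (nat_lit 7))
    (@En.n l10698 (nat_lit 2701) (nat_lit 9) (nat_lit 14))
    (@En.n l10699 (nat_lit 2701) (nat_lit 10) (nat_lit 11))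
    (@En.n l10700 (nat_lit 7309) (nat_lit 3) (nat_lit 11))
    (@En.n l17 (nat_lit 2691) (nat_lit 4) (nat_lit 2))
    (@En.n l4250 (nat_lit 2689) (nat_lit 5) (nat_lit 6))
    (@En.n l10701 (nat_lit 144) (nat_lit 7) (nat_lit 14))
    (@En.n l831 (nat_lit 6708) (nat_lit 2) (nat_lit 9))
    (@En.n l50 (nat_lit 2691) (nat_lit 8) (nat_lit 2))
    (@En.n l7 (nat_lit 2695) (nat_lit 9) (nat_lit 3))
    (@En.n l10702 (nat_lit 13025) (nat_lit 0) (nat_lit 14))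
    (@En.n l8452 (nat_lit 1245) (nat_lit 12) (nat_lit 10))
    (@En.n l645 (nat_lit 8107) (nat_lit 13) (nat_lit 13))
    (@En.n l10703 (nat_lit 2694) (nat_lit 14) (nat_lit 5))
    (@En.i (nat_lit 2716) (nat_lit 13) (nat_lit 5))
    (@En.n l936 (nat_lit 2691) (nat_lit 15) (nat_lit 2))))
  (@Cl.mk (nat_lit 0x20005000d000d000b000300030008000e00050002000e000b0002000e0008) (nat_lit 0x8a2000100b4004) (nat_lit 16) Lb.e (@T16.mk En
    (@En.n l2611 (nat_lit 2712) (nat_lit 14) (nat_lit 8))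
    (@En.n l9541 (nat_lit 2695) (nat_lit 1) (nat_lit 14))
    (@En.n l3 (nat_lit 2692) (nat_lit 2) (nat_lit 2))
    (@En.n l2605 (nat_lit 2695) (nat_lit 3) (nat_lit 11))
    (@En.i (nat_lit 3677) (nat_lit 1) (nat_lit 14))
    (@En.n l17 (nat_lit 2692) (nat_lit 5) (nat_lit 2))
    (@En.n l4366 (nat_lit 2696) (nat_lit 6) (nat_lit 5))
    (@En.i (nat_lit 148) (nat_lit 8) (nat_lit 14))
    (@En.i (nat_lit 6857) (nat_lit 5) (nat_lit 8))
    (@En.n l20377 (nat_lit 2711) (nat_lit 9) (nat_lit 3))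
    (@En.i (nat_lit 2694) (nat_lit 10) (nat_lit 3))
    (@En.n l4371 (nat_lit 1331) (nat_lit 12) (nat_lit 11))
    (@En.n l1363 (nat_lit 2694) (nat_lit 13) (nat_lit 13))
    (@En.n l3345 (nat_lit 11361) (nat_lit 14) (nat_lit 13))
    (@En.n l2605 (nat_lit 1146) (nat_lit 13) (nat_lit 5))
    (@En.n l28 (nat_lit 2692) (nat_lit 15) (nat_lit 2))))
  (@Cl.mk (nat_lit 0x2000800080004000d0009000e0003000200080008000e00070002000e000c) (nat_lit 0x32081a006020070) (nat_lit 16) Lb.e (@T16.mk En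
    (@En.n l77 (nat_lit 2698) (nat_lit 9) (nat_lit 12))
    (@En.n l11191 (nat_lit 5375) (nat_lit 1) (nat_lit 14))
    (@En.n l107 (nat_lit 2693) (nat_lit 2) (nat_lit 2))
    (@En.n l11192 (nat_lit 2564) (nat_lit 3) (nat_lit 7))
    (@En.n l4570 (nat_lit 2716) (nat_lit 5) (nat_lit 14))
    (@En.n l11193 (nat_lit 2694) (nat_lit 8) (nat_lit 8))
    (@En.n l521 (nat_lit 8216) (nat_lit 6) (nat_lit 8))
    (@En.n l17 (nat_lit 2693) (nat_lit 7) (nat_lit 2))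
    (@En.n l11194 (nat_lit 2712) (nat_lit 8) (nat_lit 3))
    (@En.i (nat_lit 13450) (nat_lit 0) (nat_lit 14))
    (@En.n l356 (nat_lit 1100) (nat_lit 2) (nat_lit 9))
    (@En.n l8110 (nat_lit 11357) (nat_lit 12) (nat_lit 13))
    (@En.n l4570 (nat_lit 2782) (nat_lit 4) (nat_lit 4))
    (@En.n l11195 (nat_lit 1839) (nat_lit 14) (nat_lit 8))
    (@En.n l11196 (nat_lit 1819) (nat_lit 12) (nat_lit 8))
    (@En.n l28 (nat_lit 2693) (nat_lit 15) (nat_lit 2))))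
  (@Cl.mk (nat_lit 0x20005000d000a000e000300020008000e00060002000e000b0002000e0008) (nat_lit 0x91b00630061014) (nat_lit 16) Lb.e (@T16.mk En
    (@En.n l5272 (nat_lit 2693) (nat_lit 14) (nat_lit 8))
    (@En.n l9541 (nat_lit 2691) (nat_lit 1) (nat_lit 14))
    (@En.n l3 (nat_lit 2694) (nat_lit 2) (nat_lit 2))
    (@En.n l2605 (nat_lit 2691) (nat_lit 3) (nat_lit 11))
    (@En.n l2039 (nat_lit 5378) (nat_lit 1) (nat_lit 14))
    (@En.n l17 (nat_lit 2694) (nat_lit 5) (nat_lit 2))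
    (@En.n l8244 (nat_lit 2686) (nat_lit 6) (nat_lit 6))
    (@En.n l778 (nat_lit 223) (nat_lit 8) (nat_lit 14))
    (@En.i (nat_lit 6715) (nat_lit 5) (nat_lit 8))
    (@En.n l776 (nat_lit 2694) (nat_lit 9) (nat_lit 2))
    (@En.n l50 (nat_lit 2692) (nat_lit 10) (nat_lit 3))
    (@En.n l2609 (nat_lit 13026) (nat_lit 0) (nat_lit 14))
    (@En.n l9542 (nat_lit 1244) (nat_lit 13) (nat_lit 10))
    (@En.n l3345 (nat_lit 11359) (nat_lit 14) (nat_lit 13))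
    (@En.n l2605 (nat_lit 2755) (nat_lit 4) (nat_lit 5))
    (@En.n l28 (nat_lit 2694) (nat_lit 15) (nat_lit 2))))
  (@Cl.mk (nat_lit 0x200050005000d000d000b000300030009000e00050002000b000b000e0007) (nat_lit 0x8a200620034c0) (nat_lit 16) Lb.e (@T16.mk En
    (@En.n l3824 (nat_lit 1842) (nat_lit 12) (nat_lit 7))
    (@En.n l16492 (nat_lit 2697) (nat_lit 13) (nat_lit 14))
    (@En.n l16493 (nat_lit 2697) (nat_lit 14) (nat_lit 11))
    (@En.n l638 (nat_lit 7310) (nat_lit 3) (nat_lit 11))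
    (@En.n l17 (nat_lit 2695) (nat_lit 4) (nat_lit 2))
    (@En.n l4250 (nat_lit 2688) (nat_lit 5) (nat_lit 5))
    (@En.n l195 (nat_lit 142) (nat_lit 7) (nat_lit 14))
    (@En.n l831 (nat_lit 6657) (nat_lit 2) (nat_lit 9))
    (@En.n l50 (nat_lit 2709) (nat_lit 8) (nat_lit 3))
    (@En.i (nat_lit 2691) (nat_lit 9) (nat_lit 3))
    (@En.i (nat_lit 1330) (nat_lit 11) (nat_lit 11))
    (@En.n l601 (nat_lit 2691) (nat_lit 12) (nat_lit 13))
    (@En.n l645 (nat_lit 8106) (nat_lit 13) (nat_lit 13))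
    (@En.n l10703 (nat_lit 2692) (nat_lit 14) (nat_lit 5))
    (@En.i (nat_lit 2714) (nat_lit 13) (nat_lit 5))
    (@En.n l936 (nat_lit 2695) (nat_lit 15) (nat_lit 2))))
  (@Cl.mk (nat_lit 0x20005000c000c000b000b00040004000900050005000e000b0002000e0007) (nat_lit 0x9130070041010) (nat_lit 16) Lb.e (@T16.mk En
    (@En.n l8589 (nat_lit 2685) (nat_lit 14) (nat_lit 7))
    (@En.n l8590 (nat_lit 2688) (nat_lit 1) (nat_lit 14))
    (@En.n l18 (nat_lit 2696) (nat_lit 2) (nat_lit 2))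
    (@En.n l8591 (nat_lit 2688) (nat_lit 3) (nat_lit 11))
    (@En.n l1437 (nat_lit 8939) (nat_lit 5) (nat_lit 14))
    (@En.n l1172 (nat_lit 2632) (nat_lit 11) (nat_lit 5))
    (@En.n l8592 (nat_lit 1271) (nat_lit 6) (nat_lit 5))
    (@En.n l1437 (nat_lit 6658) (nat_lit 4) (nat_lit 9))
    (@En.n l575 (nat_lit 2740) (nat_lit 8) (nat_lit 4))
    (@En.n l4012 (nat_lit 2743) (nat_lit 9) (nat_lit 4))
    (@En.n l1435 (nat_lit 2692) (nat_lit 11) (nat_lit 11))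
    (@En.n l8593 (nat_lit 1337) (nat_lit 12) (nat_lit 11))
    (@En.n l8594 (nat_lit 2686) (nat_lit 13) (nat_lit 12))
    (@En.n l8595 (nat_lit 9932) (nat_lit 14) (nat_lit 12))
    (@En.n l1329 (nat_lit 1151) (nat_lit 13) (nat_lit 5))
    (@En.n l3 (nat_lit 2696) (nat_lit 15) (nat_lit 2))))
  (@Cl.mk (nat_lit 0x2000b000e00060002000e00050002000d000d000b00030003000a000e0005) (nat_lit 0x3b0020099100620) (nat_lit 16) Lb.e (@T16.mk En
    (@En.n l877 (nat_lit 2704) (nat_lit 7) (nat_lit 5))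
    (@En.i (nat_lit 140) (nat_lit 1) (nat_lit 14))
    (@En.n l1304 (nat_lit 6705) (nat_lit 2) (nat_lit 10))
    (@En.n l50 (nat_lit 2706) (nat_lit 3) (nat_lit 3))
    (@En.n l877 (nat_lit 2701) (nat_lit 0) (nat_lit 3))
    (@En.n l10837 (nat_lit 1332) (nat_lit 0) (nat_lit 11))
    (@En.n l1285 (nat_lit 2701) (nat_lit 3) (nat_lit 13))
    (@En.n l1301 (nat_lit 11375) (nat_lit 12) (nat_lit 13))
    (@En.n l11 (nat_lit 2697) (nat_lit 8) (nat_lit 2))
    (@En.n l6651 (nat_lit 2695) (nat_lit 14) (nat_lit 5))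
    (@En.n l2055 (nat_lit 1154) (nat_lit 1) (nat_lit 14))
    (@En.n l3 (nat_lit 2697) (nat_lit 11) (nat_lit 2))
    (@En.n l1098 (nat_lit 2699) (nat_lit 13) (nat_lit 6))
    (@En.n l10837 (nat_lit 13022) (nat_lit 4) (nat_lit 14))
    (@En.n l877 (nat_lit 7308) (nat_lit 2) (nat_lit 11))
    (@En.n l17 (nat_lit 2697) (nat_lit 15) (nat_lit 2))))
  (@Cl.mk (nat_lit 0x200090009000e00070002000c000c0007000700040004000d0009000e0003) (nat_lit 0x67300a0000081a0) (nat_lit 16) Lb.e (@T16.mk En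
    (@En.n l18190 (nat_lit 1842) (nat_lit 5) (nat_lit 3))
    (@En.i (nat_lit 13379) (nat_lit 0) (nat_lit 14))
    (@En.n l12787 (nat_lit 1097) (nat_lit 2) (nat_lit 9))
    (@En.n l19821 (nat_lit 8109) (nat_lit 9) (nat_lit 13))
    (@En.n l237 (nat_lit 2693) (nat_lit 12) (nat_lit 4))
    (@En.n l2094 (nat_lit 1828) (nat_lit 5) (nat_lit 4))
    (@En.n l19822 (nat_lit 1832) (nat_lit 12) (nat_lit 7))
    (@En.n l19821 (nat_lit 1826) (nat_lit 7) (nat_lit 7))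
    (@En.n l19823 (nat_lit 2700) (nat_lit 9) (nat_lit 12))
    (@En.n l4604 (nat_lit 7334) (nat_lit 10) (nat_lit 12))
    (@En.n l107 (nat_lit 2698) (nat_lit 10) (nat_lit 2))
    (@En.n l19824 (nat_lit 2687) (nat_lit 12) (nat_lit 7))
    (@En.n l12787 (nat_lit 688) (nat_lit 13) (nat_lit 14))
    (@En.n l19825 (nat_lit 2691) (nat_lit 7) (nat_lit 9))
    (@En.i (nat_lit 8219) (nat_lit 3) (nat_lit 9))
    (@En.n l17 (nat_lit 2698) (nat_lit 15) (nat_lit 2))))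
  (@Cl.mk (nat_lit 0x2000c00060006000e00040002000d000d000a00030003000a000a000e0006) (nat_lit 0xa00b00792006720) (nat_lit 16) Lb.e (@T16.mk En
    (@En.n l24345 (nat_lit 2703) (nat_lit 6) (nat_lit 6))
    (@En.i (nat_lit 693) (nat_lit 1) (nat_lit 14))
    (@En.n l288 (nat_lit 2697) (nat_lit 2) (nat_lit 10))
    (@En.n l1304 (nat_lit 9266) (nat_lit 3) (nat_lit 10))
    (@En.n l50 (nat_lit 2705) (nat_lit 13) (nat_lit 3))
    (@En.n l3968 (nat_lit 2700) (nat_lit 0) (nat_lit 3))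
    (@En.n l6115 (nat_lit 623) (nat_lit 0) (nat_lit 10))
    (@En.n l23511 (nat_lit 2700) (nat_lit 3) (nat_lit 13))
    (@En.n l12575 (nat_lit 11751) (nat_lit 9) (nat_lit 13))
    (@En.n l11 (nat_lit 2699) (nat_lit 9) (nat_lit 2))
    (@En.n l117 (nat_lit 1842) (nat_lit 10) (nat_lit 4))
    (@En.n l12575 (nat_lit 1202) (nat_lit 1) (nat_lit 14))
    (@En.n l24346 (nat_lit 1833) (nat_lit 13) (nat_lit 6))
    (@En.i (nat_lit 2159) (nat_lit 14) (nat_lit 6))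
    (@En.n l3444 (nat_lit 3061) (nat_lit 9) (nat_lit 12))
    (@En.n l17 (nat_lit 2699) (nat_lit 15) (nat_lit 2))))
  (@Cl.mk (nat_lit 0x2000a000a000e00070002000c00060006000e00040002000d0009000e0003) (nat_lit 0x87300a0010081a0) (nat_lit 16) Lb.e (@T16.mk En
    (@En.n l10822 (nat_lit 2699) (nat_lit 5) (nat_lit 3))
    (@En.n l10823 (nat_lit 13394) (nat_lit 0) (nat_lit 14))
    (@En.n l10824 (nat_lit 622) (nat_lit 2) (nat_lit 9))
    (@En.n l9646 (nat_lit 11377) (nat_lit 9) (nat_lit 13))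
    (@En.n l17 (nat_lit 2700) (nat_lit 4) (nat_lit 2))
    (@En.n l10825 (nat_lit 2698) (nat_lit 5) (nat_lit 4))
    (@En.n l10823 (nat_lit 1206) (nat_lit 1) (nat_lit 14))
    (@En.n l8931 (nat_lit 1834) (nat_lit 13) (nat_lit 6))
    (@En.n l3199 (nat_lit 2166) (nat_lit 14) (nat_lit 6))
    (@En.n l5 (nat_lit 7296) (nat_lit 10) (nat_lit 12))
    (@En.n l476 (nat_lit 2700) (nat_lit 10) (nat_lit 2))
    (@En.n l998 (nat_lit 2702) (nat_lit 12) (nat_lit 7))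
    (@En.n l10826 (nat_lit 685) (nat_lit 13) (nat_lit 14))
    (@En.n l1187 (nat_lit 2701) (nat_lit 14) (nat_lit 10))
    (@En.n l8243 (nat_lit 9264) (nat_lit 3) (nat_lit 10))
    (@En.n l11 (nat_lit 2700) (nat_lit 15) (nat_lit 2))))
  (@Cl.mk (nat_lit 0x2000a000e00060002000b000e00060002000e00050002000d000a000e0003) (nat_lit 0x61009c00c0086b0) (nat_lit 16) Lb.e (@T16.mk En
    (@En.n l356 (nat_lit 2697) (nat_lit 4) (nat_lit 3))
    (@En.n l3887 (nat_lit 13027) (nat_lit 0) (nat_lit 14))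
    (@En.i (nat_lit 1246) (nat_lit 2) (nat_lit 10))
    (@En.n l3888 (nat_lit 11373) (nat_lit 12) (nat_lit 13))
    (@En.n l107 (nat_lit 2701) (nat_lit 4) (nat_lit 2))
    (@En.n l3889 (nat_lit 2691) (nat_lit 14) (nat_lit 5))
    (@En.n l3887 (nat_lit 2754) (nat_lit 1) (nat_lit 14))
    (@En.n l17 (nat_lit 2701) (nat_lit 7) (nat_lit 2))
    (@En.n l3890 (nat_lit 2700) (nat_lit 8) (nat_lit 6))
    (@En.i (nat_lit 13027) (nat_lit 4) (nat_lit 14))
    (@En.i (nat_lit 7307) (nat_lit 11) (nat_lit 11))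
    (@En.n l12 (nat_lit 2701) (nat_lit 11) (nat_lit 2))
    (@En.i (nat_lit 2690) (nat_lit 13) (nat_lit 6))
    (@En.n l3891 (nat_lit 5) (nat_lit 1) (nat_lit 14))
    (@En.n l3892 (nat_lit 6709) (nat_lit 2) (nat_lit 10))
    (@En.n l7 (nat_lit 2701) (nat_lit 15) (nat_lit 2))))
  (@Cl.mk (nat_lit 0x2000b000b00070007000c00050005000e00040002000c00090009000e0004) (nat_lit 0x8700a00700052a0) (nat_lit 16) Lb.e (@T16.mk En
    (@En.n l24347 (nat_lit 2703) (nat_lit 10) (nat_lit 4))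
    (@En.n l4758 (nat_lit 3654) (nat_lit 1) (nat_lit 14))
    (@En.n l24348 (nat_lit 2700) (nat_lit 2) (nat_lit 9))
    (@En.n l20798 (nat_lit 3208) (nat_lit 14) (nat_lit 9))
    (@En.n l6589 (nat_lit 11705) (nat_lit 5) (nat_lit 12))
    (@En.n l17 (nat_lit 2702) (nat_lit 5) (nat_lit 2))
    (@En.n l24349 (nat_lit 2687) (nat_lit 6) (nat_lit 4))
    (@En.i (nat_lit 2950) (nat_lit 1) (nat_lit 14))
    (@En.n l24350 (nat_lit 3538) (nat_lit 11) (nat_lit 5))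
    (@En.i (nat_lit 2169) (nat_lit 9) (nat_lit 5))
    (@En.n l20798 (nat_lit 7776) (nat_lit 11) (nat_lit 12))
    (@En.n l20799 (nat_lit 2495) (nat_lit 5) (nat_lit 7))
    (@En.n l527 (nat_lit 7948) (nat_lit 6) (nat_lit 7))
    (@En.n l21077 (nat_lit 2690) (nat_lit 14) (nat_lit 11))
    (@En.n l21078 (nat_lit 8994) (nat_lit 9) (nat_lit 11))
    (@En.n l28 (nat_lit 2702) (nat_lit 15) (nat_lit 2))))
  (@Cl.mk (nat_lit 0x2000c000c000a000a00040004000b000b00060006000c00050005000e0004) (nat_lit 0xa113007700a0010) (nat_lit 16) Lb.e (@T16.mk En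
    (@En.n l2170 (nat_lit 2555) (nat_lit 5) (nat_lit 4))
    (@En.n l15199 (nat_lit 1212) (nat_lit 1) (nat_lit 14))
    (@En.n l152 (nat_lit 3508) (nat_lit 11) (nat_lit 5))
    (@En.n l8793 (nat_lit 2168) (nat_lit 3) (nat_lit 5))
    (@En.i (nat_lit 8318) (nat_lit 5) (nat_lit 12))
    (@En.n l2176 (nat_lit 2496) (nat_lit 10) (nat_lit 6))
    (@En.n l15200 (nat_lit 6861) (nat_lit 6) (nat_lit 6))
    (@En.n l3536 (nat_lit 2704) (nat_lit 8) (nat_lit 11))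
    (@En.n l15201 (nat_lit 8995) (nat_lit 9) (nat_lit 11))
    (@En.n l15202 (nat_lit 2550) (nat_lit 12) (nat_lit 4))
    (@En.i (nat_lit 3474) (nat_lit 10) (nat_lit 4))
    (@En.n l15203 (nat_lit 2699) (nat_lit 6) (nat_lit 10))
    (@En.n l644 (nat_lit 1339) (nat_lit 13) (nat_lit 10))
    (@En.n l15204 (nat_lit 2702) (nat_lit 4) (nat_lit 12))
    (@En.n l15205 (nat_lit 11743) (nat_lit 3) (nat_lit 12))
    (@En.n l28 (nat_lit 2703) (nat_lit 15) (nat_lit 2))))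
noncomputable def a169 : T16 Cl := @T16.mk Cl
  (@Cl.mk (nat_lit 0x2000c000c000b000b00040004000b00050005000b000e00050002000e0005) (nat_lit 0x912006009c0020) (nat_lit 16) Lb.e (@T16.mk En
    (@En.i (nat_lit 2688) (nat_lit 14) (nat_lit 5))
    (@En.n l97 (nat_lit 1155) (nat_lit 1) (nat_lit 14))
    (@En.n l17 (nat_lit 2704) (nat_lit 2) (nat_lit 2))
    (@En.n l3098 (nat_lit 2703) (nat_lit 3) (nat_lit 5))
    (@En.i (nat_lit 13319) (nat_lit 4) (nat_lit 14))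
    (@En.i (nat_lit 8315) (nat_lit 2) (nat_lit 11))
    (@En.n l21754 (nat_lit 2637) (nat_lit 11) (nat_lit 5))
    (@En.n l7 (nat_lit 1340) (nat_lit 7) (nat_lit 5))
    (@En.n l564 (nat_lit 6656) (nat_lit 9) (nat_lit 11))
    (@En.n l237 (nat_lit 2707) (nat_lit 12) (nat_lit 4))
    (@En.i (nat_lit 3470) (nat_lit 10) (nat_lit 4))
    (@En.n l20684 (nat_lit 2697) (nat_lit 5) (nat_lit 11))
    (@En.n l4380 (nat_lit 1338) (nat_lit 13) (nat_lit 11))
    (@En.n l134 (nat_lit 2690) (nat_lit 4) (nat_lit 12))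
    (@En.n l11 (nat_lit 10753) (nat_lit 12) (nat_lit 12))
    (@En.n l107 (nat_lit 2704) (nat_lit 15) (nat_lit 2))))
  (@Cl.mk (nat_lit 0x2000b0003000a000a000e00050002000c00060006000e00040002000e000d) (nat_lit 0x3060500a0010078) (nat_lit 16) Lb.e (@T16.mk En
    (@En.n l601 (nat_lit 2699) (nat_lit 8) (nat_lit 13))
    (@En.n l12575 (nat_lit 12258) (nat_lit 1) (nat_lit 14))
    (@En.n l11 (nat_lit 2705) (nat_lit 2) (nat_lit 2))
    (@En.n l117 (nat_lit 2556) (nat_lit 3) (nat_lit 4))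
    (@En.n l12575 (nat_lit 1204) (nat_lit 1) (nat_lit 14))
    (@En.n l9929 (nat_lit 1836) (nat_lit 5) (nat_lit 6))
    (@En.i (nat_lit 2157) (nat_lit 14) (nat_lit 6))
    (@En.n l3647 (nat_lit 7319) (nat_lit 8) (nat_lit 12))
    (@En.n l17 (nat_lit 2705) (nat_lit 8) (nat_lit 2))
    (@En.n l3098 (nat_lit 2550) (nat_lit 9) (nat_lit 5))
    (@En.i (nat_lit 965) (nat_lit 11) (nat_lit 14))
    (@En.n l288 (nat_lit 2706) (nat_lit 2) (nat_lit 10))
    (@En.i (nat_lit 8974) (nat_lit 3) (nat_lit 10))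
    (@En.i (nat_lit 2699) (nat_lit 4) (nat_lit 3))
    (@En.n l2004 (nat_lit 621) (nat_lit 12) (nat_lit 11))
    (@En.n l7 (nat_lit 2705) (nat_lit 15) (nat_lit 2))))
  (@Cl.mk (nat_lit 0x2000b000e00060002000e00050002000e000d0002000c0003000a000e0004) (nat_lit 0x30002008a030840) (nat_lit 16) Lb.e (@T16.mk En
    (@En.n l199 (nat_lit 2707) (nat_lit 10) (nat_lit 4))
    (@En.n l1016 (nat_lit 177) (nat_lit 12) (nat_lit 14))
    (@En.n l2055 (nat_lit 5147) (nat_lit 2) (nat_lit 10))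
    (@En.i (nat_lit 2697) (nat_lit 3) (nat_lit 3))
    (@En.n l1014 (nat_lit 1356) (nat_lit 0) (nat_lit 12))
    (@En.n l7 (nat_lit 2706) (nat_lit 5) (nat_lit 2))
    (@En.n l601 (nat_lit 2697) (nat_lit 7) (nat_lit 13))
    (@En.n l1014 (nat_lit 12091) (nat_lit 1) (nat_lit 14))
    (@En.n l11 (nat_lit 2706) (nat_lit 8) (nat_lit 2))
    (@En.n l6651 (nat_lit 2709) (nat_lit 14) (nat_lit 5))
    (@En.n l2055 (nat_lit 1149) (nat_lit 1) (nat_lit 14))
    (@En.n l3 (nat_lit 2706) (nat_lit 11) (nat_lit 2))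
    (@En.n l1098 (nat_lit 2705) (nat_lit 6) (nat_lit 6))
    (@En.n l6652 (nat_lit 13021) (nat_lit 4) (nat_lit 14))
    (@En.n l1001 (nat_lit 7311) (nat_lit 9) (nat_lit 11))
    (@En.n l17 (nat_lit 2706) (nat_lit 15) (nat_lit 2))))
  (@Cl.mk (nat_lit 0x2000c000c0004000b00040004000b000e00050002000e00050002000e000c) (nat_lit 0x140900000020001) (nat_lit 16) Lb.e (@T16.mk En
    (@En.n l77 (nat_lit 2704) (nat_lit 14) (nat_lit 12))
    (@En.n l8891 (nat_lit 12085) (nat_lit 1) (nat_lit 14))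
    (@En.n l107 (nat_lit 2707) (nat_lit 2) (nat_lit 2))
    (@En.n l9236 (nat_lit 2708) (nat_lit 14) (nat_lit 5))
    (@En.n l10384 (nat_lit 1153) (nat_lit 1) (nat_lit 14))
    (@En.n l17 (nat_lit 2707) (nat_lit 5) (nat_lit 2))
    (@En.n l10788 (nat_lit 2550) (nat_lit 6) (nat_lit 5))
    (@En.n l436 (nat_lit 13366) (nat_lit 4) (nat_lit 14))
    (@En.i (nat_lit 8321) (nat_lit 9) (nat_lit 11))
    (@En.n l1255 (nat_lit 2710) (nat_lit 12) (nat_lit 4))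
    (@En.n l436 (nat_lit 1332) (nat_lit 10) (nat_lit 4))
    (@En.n l1119 (nat_lit 5145) (nat_lit 12) (nat_lit 11))
    (@En.i (nat_lit 3472) (nat_lit 9) (nat_lit 4))
    (@En.n l5263 (nat_lit 2706) (nat_lit 4) (nat_lit 12))
    (@En.n l115 (nat_lit 1357) (nat_lit 12) (nat_lit 12))
    (@En.n l28 (nat_lit 2707) (nat_lit 15) (nat_lit 2))))
  (@Cl.mk (nat_lit 0x200050005000e000c0002000c000c0004000a00040004000b000b000e0006) (nat_lit 0x102408000110) (nat_lit 16) Lb.e (@T16.mk En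
    (@En.n l3824 (nat_lit 2549) (nat_lit 5) (nat_lit 6))
    (@En.n l8032 (nat_lit 2707) (nat_lit 7) (nat_lit 14))
    (@En.n l8033 (nat_lit 2707) (nat_lit 8) (nat_lit 11))
    (@En.n l8034 (nat_lit 8322) (nat_lit 3) (nat_lit 11))
    (@En.n l4253 (nat_lit 2633) (nat_lit 4) (nat_lit 4))
    (@En.n l18 (nat_lit 1330) (nat_lit 5) (nat_lit 4))
    (@En.i (nat_lit 4152) (nat_lit 12) (nat_lit 10))
    (@En.n l8034 (nat_lit 1367) (nat_lit 7) (nat_lit 4))
    (@En.n l61 (nat_lit 2709) (nat_lit 9) (nat_lit 12))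
    (@En.n l3471 (nat_lit 1360) (nat_lit 10) (nat_lit 12))
    (@En.n l7 (nat_lit 2708) (nat_lit 10) (nat_lit 2))
    (@En.n l8035 (nat_lit 2688) (nat_lit 12) (nat_lit 12))
    (@En.n l645 (nat_lit 12090) (nat_lit 13) (nat_lit 14))
    (@En.n l4256 (nat_lit 2740) (nat_lit 14) (nat_lit 5))
    (@En.i (nat_lit 2718) (nat_lit 13) (nat_lit 5))
    (@En.n l936 (nat_lit 2708) (nat_lit 15) (nat_lit 2))))
  (@Cl.mk (nat_lit 0x200050005000e000d0002000c00030009000e00040002000b000b000e0007) (nat_lit 0x8903074003410) (nat_lit 16) Lb.e (@T16.mk En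
    (@En.n l3824 (nat_lit 2556) (nat_lit 5) (nat_lit 7))
    (@En.n l16492 (nat_lit 2706) (nat_lit 13) (nat_lit 14))
    (@En.n l16493 (nat_lit 2706) (nat_lit 14) (nat_lit 11))
    (@En.n l638 (nat_lit 7313) (nat_lit 3) (nat_lit 11))
    (@En.n l17 (nat_lit 2709) (nat_lit 4) (nat_lit 2))
    (@En.i (nat_lit 2708) (nat_lit 5) (nat_lit 4))
    (@En.n l195 (nat_lit 211) (nat_lit 7) (nat_lit 14))
    (@En.i (nat_lit 4167) (nat_lit 2) (nat_lit 9))
    (@En.i (nat_lit 2695) (nat_lit 8) (nat_lit 3))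
    (@En.n l645 (nat_lit 1243) (nat_lit 10) (nat_lit 12))
    (@En.n l7 (nat_lit 2709) (nat_lit 10) (nat_lit 2))
    (@En.n l601 (nat_lit 2695) (nat_lit 12) (nat_lit 13))
    (@En.n l645 (nat_lit 8114) (nat_lit 13) (nat_lit 14))
    (@En.n l7041 (nat_lit 2711) (nat_lit 14) (nat_lit 5))
    (@En.i (nat_lit 2715) (nat_lit 13) (nat_lit 5))
    (@En.n l936 (nat_lit 2709) (nat_lit 15) (nat_lit 2))))
  (@Cl.mk (nat_lit 0x20005000c0004000b000e00040002000e00050002000e000b0002000e000c) (nat_lit 0x960000001012) (nat_lit 16) Lb.e (@T16.mk En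
    (@En.n l1721 (nat_lit 2707) (nat_lit 14) (nat_lit 12))
    (@En.n l617 (nat_lit 2637) (nat_lit 1) (nat_lit 14))
    (@En.n l17 (nat_lit 2710) (nat_lit 2) (nat_lit 2))
    (@En.i (nat_lit 2637) (nat_lit 3) (nat_lit 11))
    (@En.n l1531 (nat_lit 12088) (nat_lit 1) (nat_lit 14))
    (@En.n l3 (nat_lit 2710) (nat_lit 5) (nat_lit 2))
    (@En.n l3856 (nat_lit 2633) (nat_lit 14) (nat_lit 5))
    (@En.n l3857 (nat_lit 3062) (nat_lit 8) (nat_lit 14))
    (@En.n l50 (nat_lit 2710) (nat_lit 8) (nat_lit 2))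
    (@En.n l3858 (nat_lit 2866) (nat_lit 9) (nat_lit 4))
    (@En.n l3859 (nat_lit 13369) (nat_lit 4) (nat_lit 14))
    (@En.i (nat_lit 3611) (nat_lit 12) (nat_lit 11))
    (@En.n l3860 (nat_lit 1347) (nat_lit 9) (nat_lit 4))
    (@En.i (nat_lit 5146) (nat_lit 14) (nat_lit 12))
    (@En.n l1718 (nat_lit 2854) (nat_lit 13) (nat_lit 5))
    (@En.n l11 (nat_lit 2710) (nat_lit 15) (nat_lit 2))))
  (@Cl.mk (nat_lit 0x20005000e000d0002000c00030008000e00040002000e000b0002000e0008) (nat_lit 0x99020060004024) (nat_lit 16) Lb.e (@T16.mk En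
    (@En.n l5276 (nat_lit 2713) (nat_lit 14) (nat_lit 8))
    (@En.n l3340 (nat_lit 2709) (nat_lit 1) (nat_lit 14))
    (@En.n l17 (nat_lit 2711) (nat_lit 2) (nat_lit 2))
    (@En.n l7681 (nat_lit 2709) (nat_lit 3) (nat_lit 11))
    (@En.n l2034 (nat_lit 5381) (nat_lit 1) (nat_lit 14))
    (@En.n l50 (nat_lit 2711) (nat_lit 5) (nat_lit 2))
    (@En.n l564 (nat_lit 2740) (nat_lit 6) (nat_lit 4))
    (@En.n l2036 (nat_lit 210) (nat_lit 8) (nat_lit 14))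
    (@En.i (nat_lit 5134) (nat_lit 5) (nat_lit 8))
    (@En.n l5050 (nat_lit 2692) (nat_lit 9) (nat_lit 3))
    (@En.i (nat_lit 1003) (nat_lit 11) (nat_lit 12))
    (@En.n l11 (nat_lit 2711) (nat_lit 11) (nat_lit 2))
    (@En.n l7684 (nat_lit 2692) (nat_lit 13) (nat_lit 13))
    (@En.i (nat_lit 12533) (nat_lit 1) (nat_lit 14))
    (@En.n l7681 (nat_lit 1145) (nat_lit 13) (nat_lit 5))
    (@En.n l3 (nat_lit 2711) (nat_lit 15) (nat_lit 2))))
  (@Cl.mk (nat_lit 0x2000800080004000d000d000a0003000300080008000e00060002000e000c) (nat_lit 0x3207920061200c1) (nat_lit 16) Lb.e (@T16.mk En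
    (@En.n l68 (nat_lit 1842) (nat_lit 14) (nat_lit 12))
    (@En.n l8604 (nat_lit 3675) (nat_lit 1) (nat_lit 14))
    (@En.n l17 (nat_lit 2712) (nat_lit 2) (nat_lit 2))
    (@En.n l8605 (nat_lit 2685) (nat_lit 3) (nat_lit 6))
    (@En.i (nat_lit 2714) (nat_lit 5) (nat_lit 14))
    (@En.n l1068 (nat_lit 2692) (nat_lit 8) (nat_lit 8))
    (@En.n l8604 (nat_lit 8215) (nat_lit 6) (nat_lit 8))
    (@En.n l50 (nat_lit 2713) (nat_lit 7) (nat_lit 3))
    (@En.n l6574 (nat_lit 2693) (nat_lit 8) (nat_lit 3))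
    (@En.i (nat_lit 1328) (nat_lit 10) (nat_lit 10))
    (@En.n l6567 (nat_lit 2693) (nat_lit 11) (nat_lit 13))
    (@En.n l255 (nat_lit 11352) (nat_lit 12) (nat_lit 13))
    (@En.i (nat_lit 2777) (nat_lit 9) (nat_lit 4))
    (@En.n l1100 (nat_lit 1838) (nat_lit 14) (nat_lit 8))
    (@En.n l3516 (nat_lit 1818) (nat_lit 12) (nat_lit 8))
    (@En.n l67 (nat_lit 2712) (nat_lit 15) (nat_lit 2))))
  (@Cl.mk (nat_lit 0x2000800080004000e000d0002000b000300080008000e00050002000e000c) (nat_lit 0x3108803061500c1) (nat_lit 16) Lb.e (@T16.mk En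
    (@En.n l68 (nat_lit 2556) (nat_lit 7) (nat_lit 12))
    (@En.n l2005 (nat_lit 5379) (nat_lit 1) (nat_lit 14))
    (@En.n l17 (nat_lit 2713) (nat_lit 2) (nat_lit 2))
    (@En.i (nat_lit 2551) (nat_lit 3) (nat_lit 5))
    (@En.i (nat_lit 2715) (nat_lit 5) (nat_lit 14))
    (@En.n l3515 (nat_lit 2711) (nat_lit 8) (nat_lit 8))
    (@En.i (nat_lit 8971) (nat_lit 6) (nat_lit 8))
    (@En.i (nat_lit 2712) (nat_lit 7) (nat_lit 3))
    (@En.n l3082 (nat_lit 1242) (nat_lit 0) (nat_lit 11))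
    (@En.n l7 (nat_lit 2713) (nat_lit 9) (nat_lit 2))
    (@En.n l601 (nat_lit 2712) (nat_lit 11) (nat_lit 13))
    (@En.n l255 (nat_lit 12530) (nat_lit 1) (nat_lit 14))
    (@En.i (nat_lit 2775) (nat_lit 2) (nat_lit 4))
    (@En.i (nat_lit 1840) (nat_lit 14) (nat_lit 8))
    (@En.n l3516 (nat_lit 2771) (nat_lit 12) (nat_lit 8))
    (@En.n l67 (nat_lit 2713) (nat_lit 15) (nat_lit 2))))
  (@Cl.mk (nat_lit 0x2000800050004000d000d000b000300030008000e00050002000b000e000c) (nat_lit 0x2008a20061009c1) (nat_lit 16) Lb.e (@T16.mk En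
    (@En.n l68 (nat_lit 692) (nat_lit 13) (nat_lit 12))
    (@En.n l831 (nat_lit 2692) (nat_lit 4) (nat_lit 14))
    (@En.i (nat_lit 4609) (nat_lit 2) (nat_lit 11))
    (@En.n l17 (nat_lit 2714) (nat_lit 3) (nat_lit 2))
    (@En.n l4172 (nat_lit 2717) (nat_lit 4) (nat_lit 5))
    (@En.i (nat_lit 147) (nat_lit 6) (nat_lit 14))
    (@En.i (nat_lit 7001) (nat_lit 6) (nat_lit 8))
    (@En.n l50 (nat_lit 2715) (nat_lit 7) (nat_lit 3))
    (@En.i (nat_lit 2716) (nat_lit 8) (nat_lit 3))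
    (@En.i (nat_lit 1021) (nat_lit 10) (nat_lit 11))
    (@En.n l601 (nat_lit 2716) (nat_lit 11) (nat_lit 13))
    (@En.n l645 (nat_lit 11691) (nat_lit 12) (nat_lit 13))
    (@En.i (nat_lit 691) (nat_lit 8) (nat_lit 4))
    (@En.n l3015 (nat_lit 975) (nat_lit 14) (nat_lit 5))
    (@En.n l197 (nat_lit 1829) (nat_lit 11) (nat_lit 8))
    (@En.n l67 (nat_lit 2714) (nat_lit 15) (nat_lit 2))))
  (@Cl.mk (nat_lit 0x2000800050004000e000d0002000c00030008000e00040002000b000e000c) (nat_lit 0x400990206400912) (nat_lit 16) Lb.e (@T16.mk En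
    (@En.n l68 (nat_lit 1156) (nat_lit 7) (nat_lit 12))
    (@En.n l645 (nat_lit 2711) (nat_lit 4) (nat_lit 14))
    (@En.i (nat_lit 4613) (nat_lit 2) (nat_lit 11))
    (@En.n l17 (nat_lit 2715) (nat_lit 3) (nat_lit 2))
    (@En.i (nat_lit 2718) (nat_lit 4) (nat_lit 4))
    (@En.i (nat_lit 209) (nat_lit 6) (nat_lit 14))
    (@En.i (nat_lit 5832) (nat_lit 6) (nat_lit 8))
    (@En.i (nat_lit 2714) (nat_lit 7) (nat_lit 3))
    (@En.i (nat_lit 1018) (nat_lit 0) (nat_lit 12))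
    (@En.n l7 (nat_lit 2715) (nat_lit 9) (nat_lit 2))
    (@En.n l601 (nat_lit 2714) (nat_lit 11) (nat_lit 13))
    (@En.n l645 (nat_lit 12779) (nat_lit 1) (nat_lit 14))
    (@En.i (nat_lit 1147) (nat_lit 2) (nat_lit 4))
    (@En.n l3015 (nat_lit 2719) (nat_lit 14) (nat_lit 5))
    (@En.n l197 (nat_lit 2772) (nat_lit 4) (nat_lit 8))
    (@En.n l67 (nat_lit 2715) (nat_lit 15) (nat_lit 2))))
  (@Cl.mk (nat_lit 0x2000800050004000d000a000e000300020008000e00060002000b000e000c) (nat_lit 0x20091a006100371) (nat_lit 16) Lb.e (@T16.mk En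
    (@En.n l68 (nat_lit 688) (nat_lit 9) (nat_lit 12))
    (@En.n l831 (nat_lit 2694) (nat_lit 4) (nat_lit 14))
    (@En.n l3451 (nat_lit 4611) (nat_lit 2) (nat_lit 11))
    (@En.n l17 (nat_lit 2716) (nat_lit 3) (nat_lit 2))
    (@En.n l3451 (nat_lit 2725) (nat_lit 4) (nat_lit 6))
    (@En.i (nat_lit 146) (nat_lit 6) (nat_lit 14))
    (@En.i (nat_lit 7002) (nat_lit 6) (nat_lit 8))
    (@En.n l50 (nat_lit 2716) (nat_lit 7) (nat_lit 2))
    (@En.n l7 (nat_lit 2714) (nat_lit 8) (nat_lit 3))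
    (@En.n l1422 (nat_lit 13451) (nat_lit 0) (nat_lit 14))
    (@En.i (nat_lit 1019) (nat_lit 2) (nat_lit 10))
    (@En.n l645 (nat_lit 11689) (nat_lit 12) (nat_lit 13))
    (@En.i (nat_lit 689) (nat_lit 4) (nat_lit 4))
    (@En.n l2319 (nat_lit 2726) (nat_lit 14) (nat_lit 5))
    (@En.n l197 (nat_lit 1828) (nat_lit 6) (nat_lit 8))
    (@En.n l67 (nat_lit 2716) (nat_lit 15) (nat_lit 2))))
  (@Cl.mk (nat_lit 0x2000700050004000c000c000b000b00040004000900050005000b000e000c) (nat_lit 0x1300700952) (nat_lit 16) Lb.e (@T16.mk En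
    (@En.n l68 (nat_lit 2724) (nat_lit 2) (nat_lit 12))
    (@En.n l3471 (nat_lit 2696) (nat_lit 4) (nat_lit 14))
    (@En.n l3492 (nat_lit 8664) (nat_lit 2) (nat_lit 11))
    (@En.n l11388 (nat_lit 2638) (nat_lit 11) (nat_lit 5))
    (@En.n l18 (nat_lit 1020) (nat_lit 4) (nat_lit 5))
    (@En.i (nat_lit 7003) (nat_lit 5) (nat_lit 9))
    (@En.n l77 (nat_lit 2718) (nat_lit 6) (nat_lit 4))
    (@En.n l3492 (nat_lit 4252) (nat_lit 7) (nat_lit 4))
    (@En.n l5653 (nat_lit 2714) (nat_lit 9) (nat_lit 11))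
    (@En.n l601 (nat_lit 1031) (nat_lit 10) (nat_lit 11))
    (@En.n l11389 (nat_lit 2725) (nat_lit 11) (nat_lit 12))
    (@En.n l11390 (nat_lit 11489) (nat_lit 12) (nat_lit 12))
    (@En.i (nat_lit 1152) (nat_lit 12) (nat_lit 4))
    (@En.n l2321 (nat_lit 2720) (nat_lit 14) (nat_lit 5))
    (@En.n l3476 (nat_lit 2796) (nat_lit 1) (nat_lit 7))
    (@En.n l67 (nat_lit 2717) (nat_lit 15) (nat_lit 2))))
  (@Cl.mk (nat_lit 0x2000700050004000e000c0002000c000c0004000900040004000b000e000c) (nat_lit 0x10130600972) (nat_lit 16) Lb.e (@T16.mk En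
    (@En.n l68 (nat_lit 1157) (nat_lit 7) (nat_lit 12))
    (@En.n l3471 (nat_lit 2740) (nat_lit 4) (nat_lit 14))
    (@En.n l265 (nat_lit 8669) (nat_lit 2) (nat_lit 11))
    (@En.n l4194 (nat_lit 2640) (nat_lit 12) (nat_lit 4))
    (@En.n l18 (nat_lit 1021) (nat_lit 4) (nat_lit 4))
    (@En.i (nat_lit 5829) (nat_lit 5) (nat_lit 9))
    (@En.n l265 (nat_lit 4254) (nat_lit 6) (nat_lit 4))
    (@En.n l61 (nat_lit 2715) (nat_lit 8) (nat_lit 12))
    (@En.i (nat_lit 1029) (nat_lit 9) (nat_lit 12))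
    (@En.n l7 (nat_lit 2718) (nat_lit 9) (nat_lit 2))
    (@En.i (nat_lit 2717) (nat_lit 11) (nat_lit 12))
    (@En.n l645 (nat_lit 12778) (nat_lit 12) (nat_lit 14))
    (@En.i (nat_lit 1150) (nat_lit 2) (nat_lit 4))
    (@En.n l2316 (nat_lit 2721) (nat_lit 14) (nat_lit 5))
    (@En.n l3476 (nat_lit 2554) (nat_lit 4) (nat_lit 7))
    (@En.n l67 (nat_lit 2718) (nat_lit 15) (nat_lit 2))))
  (@Cl.mk (nat_lit 0x200050003000e000d0002000c0003000b000e00040002000b0005000e000d) (nat_lit 0x8903006009021) (nat_lit 16) Lb.e (@T16.mk En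
    (@En.n l1144 (nat_lit 963) (nat_lit 6) (nat_lit 13))
    (@En.n l11 (nat_lit 2715) (nat_lit 1) (nat_lit 14))
    (@En.n l1483 (nat_lit 1597) (nat_lit 14) (nat_lit 5))
    (@En.n l1154 (nat_lit 7386) (nat_lit 3) (nat_lit 11))
    (@En.n l17 (nat_lit 2719) (nat_lit 4) (nat_lit 2))
    (@En.n l1154 (nat_lit 2721) (nat_lit 5) (nat_lit 4))
    (@En.n l2260 (nat_lit 208) (nat_lit 7) (nat_lit 14))
    (@En.i (nat_lit 4784) (nat_lit 8) (nat_lit 11))
    (@En.i (nat_lit 975) (nat_lit 8) (nat_lit 3))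
    (@En.n l2261 (nat_lit 1008) (nat_lit 10) (nat_lit 12))
    (@En.n l7 (nat_lit 2719) (nat_lit 10) (nat_lit 2))
    (@En.n l601 (nat_lit 975) (nat_lit 12) (nat_lit 13))
    (@En.n l2262 (nat_lit 12088) (nat_lit 13) (nat_lit 14))
    (@En.n l11 (nat_lit 963) (nat_lit 2) (nat_lit 3))
    (@En.n l2263 (nat_lit 2706) (nat_lit 9) (nat_lit 5))
    (@En.n l1157 (nat_lit 2719) (nat_lit 15) (nat_lit 2))))
noncomputable def a170 : T16 Cl := @T16.mk Cl
  (@Cl.mk (nat_lit 0x200050003000c000c000b000b00040004000c00050005000b0004000e000d) (nat_lit 0x1000009063) (nat_lit 16) Lb.e (@T16.mk En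
    (@En.n l11223 (nat_lit 2723) (nat_lit 2) (nat_lit 13))
    (@En.n l8556 (nat_lit 2717) (nat_lit 1) (nat_lit 14))
    (@En.n l429 (nat_lit 1598) (nat_lit 2) (nat_lit 4))
    (@En.i (nat_lit 8665) (nat_lit 3) (nat_lit 11))
    (@En.n l11224 (nat_lit 2732) (nat_lit 4) (nat_lit 5))
    (@En.n l7 (nat_lit 1007) (nat_lit 5) (nat_lit 5))
    (@En.n l11225 (nat_lit 7208) (nat_lit 7) (nat_lit 12))
    (@En.n l237 (nat_lit 2721) (nat_lit 7) (nat_lit 4))
    (@En.i (nat_lit 4258) (nat_lit 8) (nat_lit 4))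
    (@En.n l3238 (nat_lit 975) (nat_lit 10) (nat_lit 11))
    (@En.n l4380 (nat_lit 4261) (nat_lit 11) (nat_lit 11))
    (@En.n l134 (nat_lit 2728) (nat_lit 12) (nat_lit 12))
    (@En.n l11 (nat_lit 10354) (nat_lit 13) (nat_lit 12))
    (@En.n l11226 (nat_lit 2723) (nat_lit 14) (nat_lit 3))
    (@En.i (nat_lit 2704) (nat_lit 0) (nat_lit 5))
    (@En.n l3 (nat_lit 2720) (nat_lit 15) (nat_lit 2))))
  (@Cl.mk (nat_lit 0x200050003000e000c0002000c000c0004000c00040004000b0004000e000d) (nat_lit 0x510240a009083) (nat_lit 16) Lb.e (@T16.mk En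
    (@En.n l965 (nat_lit 2722) (nat_lit 6) (nat_lit 13))
    (@En.n l1246 (nat_lit 2718) (nat_lit 1) (nat_lit 14))
    (@En.n l340 (nat_lit 3049) (nat_lit 2) (nat_lit 4))
    (@En.i (nat_lit 8668) (nat_lit 3) (nat_lit 11))
    (@En.n l168 (nat_lit 3051) (nat_lit 4) (nat_lit 4))
    (@En.n l340 (nat_lit 1009) (nat_lit 5) (nat_lit 4))
    (@En.n l4081 (nat_lit 4752) (nat_lit 7) (nat_lit 12))
    (@En.i (nat_lit 4257) (nat_lit 7) (nat_lit 4))
    (@En.n l3701 (nat_lit 2719) (nat_lit 9) (nat_lit 12))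
    (@En.n l115 (nat_lit 1016) (nat_lit 10) (nat_lit 12))
    (@En.n l28 (nat_lit 2721) (nat_lit 10) (nat_lit 2))
    (@En.n l77 (nat_lit 2720) (nat_lit 12) (nat_lit 12))
    (@En.n l1544 (nat_lit 12086) (nat_lit 13) (nat_lit 14))
    (@En.n l1246 (nat_lit 2722) (nat_lit 2) (nat_lit 3))
    (@En.i (nat_lit 2707) (nat_lit 3) (nat_lit 5))
    (@En.n l3 (nat_lit 2721) (nat_lit 15) (nat_lit 2))))
  (@Cl.mk (nat_lit 0x2000c000c0004000c00040004000c0004000d000d000400030003000e000c) (nat_lit 0x30000902100050) (nat_lit 16) Lb.e (@T16.mk En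
    (@En.n l8257 (nat_lit 2723) (nat_lit 13) (nat_lit 12))
    (@En.i (nat_lit 12756) (nat_lit 1) (nat_lit 14))
    (@En.n l1154 (nat_lit 2721) (nat_lit 13) (nat_lit 3))
    (@En.n l8258 (nat_lit 967) (nat_lit 3) (nat_lit 3))
    (@En.n l1992 (nat_lit 1153) (nat_lit 0) (nat_lit 4))
    (@En.n l8259 (nat_lit 967) (nat_lit 6) (nat_lit 13))
    (@En.i (nat_lit 1150) (nat_lit 7) (nat_lit 13))
    (@En.n l1769 (nat_lit 3048) (nat_lit 7) (nat_lit 4))
    (@En.n l3523 (nat_lit 8673) (nat_lit 9) (nat_lit 12))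
    (@En.n l3519 (nat_lit 2735) (nat_lit 12) (nat_lit 4))
    (@En.n l18 (nat_lit 1104) (nat_lit 10) (nat_lit 4))
    (@En.n l3522 (nat_lit 4698) (nat_lit 12) (nat_lit 12))
    (@En.n l8246 (nat_lit 4260) (nat_lit 8) (nat_lit 4))
    (@En.n l61 (nat_lit 963) (nat_lit 14) (nat_lit 12))
    (@En.i (nat_lit 4265) (nat_lit 11) (nat_lit 12))
    (@En.n l7 (nat_lit 2722) (nat_lit 15) (nat_lit 2))))
  (@Cl.mk (nat_lit 0x30003000c000c000b000b00040004000c00050005000c0004000d000d0004) (nat_lit 0xa3030080020230) (nat_lit 16) Lb.e (@T16.mk En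
    (@En.n l19667 (nat_lit 1155) (nat_lit 0) (nat_lit 4))
    (@En.n l19668 (nat_lit 2996) (nat_lit 3) (nat_lit 13))
    (@En.n l19669 (nat_lit 1152) (nat_lit 1) (nat_lit 13))
    (@En.i (nat_lit 3034) (nat_lit 3) (nat_lit 4))
    (@En.n l1770 (nat_lit 8667) (nat_lit 0) (nat_lit 12))
    (@En.n l11333 (nat_lit 2731) (nat_lit 11) (nat_lit 5))
    (@En.n l19670 (nat_lit 348) (nat_lit 6) (nat_lit 5))
    (@En.n l16001 (nat_lit 7207) (nat_lit 8) (nat_lit 12))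
    (@En.n l19671 (nat_lit 2722) (nat_lit 12) (nat_lit 4))
    (@En.n l19672 (nat_lit 3001) (nat_lit 9) (nat_lit 4))
    (@En.n l19673 (nat_lit 695) (nat_lit 5) (nat_lit 11))
    (@En.n l55 (nat_lit 4263) (nat_lit 12) (nat_lit 11))
    (@En.n l19672 (nat_lit 2727) (nat_lit 4) (nat_lit 12))
    (@En.i (nat_lit 11924) (nat_lit 14) (nat_lit 12))
    (@En.n l19674 (nat_lit 2720) (nat_lit 13) (nat_lit 3))
    (@En.n l19675 (nat_lit 2996) (nat_lit 0) (nat_lit 3))))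
  (@Cl.mk (nat_lit 0x400040004000c000c000b000b00040004000a00050005000c000c000c0006) (nat_lit 0xa023000009140) (nat_lit 16) Lb.e (@T16.mk En
    (@En.i (nat_lit 1211) (nat_lit 0) (nat_lit 6))
    (@En.n l24947 (nat_lit 2997) (nat_lit 4) (nat_lit 12))
    (@En.n l9978 (nat_lit 1155) (nat_lit 4) (nat_lit 12))
    (@En.n l2934 (nat_lit 8670) (nat_lit 11) (nat_lit 12))
    (@En.n l13870 (nat_lit 2766) (nat_lit 11) (nat_lit 5))
    (@En.n l18 (nat_lit 303) (nat_lit 5) (nat_lit 5))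
    (@En.i (nat_lit 6877) (nat_lit 0) (nat_lit 10))
    (@En.n l77 (nat_lit 1157) (nat_lit 12) (nat_lit 4))
    (@En.n l24743 (nat_lit 3873) (nat_lit 0) (nat_lit 4))
    (@En.n l5653 (nat_lit 692) (nat_lit 5) (nat_lit 11))
    (@En.n l601 (nat_lit 3860) (nat_lit 5) (nat_lit 11))
    (@En.n l15917 (nat_lit 2759) (nat_lit 4) (nat_lit 12))
    (@En.i (nat_lit 5594) (nat_lit 13) (nat_lit 12))
    (@En.n l11 (nat_lit 2717) (nat_lit 12) (nat_lit 4))
    (@En.n l152 (nat_lit 1219) (nat_lit 12) (nat_lit 4))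
    (@En.n l4182 (nat_lit 2723) (nat_lit 0) (nat_lit 4))))
  (@Cl.mk (nat_lit 0x2000700050004000c000a000a000e00040002000900060006000b000e000c) (nat_lit 0xa72b00000360) (nat_lit 16) Lb.e (@T16.mk En
    (@En.n l9753 (nat_lit 2759) (nat_lit 10) (nat_lit 12))
    (@En.n l7264 (nat_lit 2686) (nat_lit 4) (nat_lit 14))
    (@En.i (nat_lit 8663) (nat_lit 2) (nat_lit 11))
    (@En.n l4269 (nat_lit 2765) (nat_lit 3) (nat_lit 6))
    (@En.n l4164 (nat_lit 1027) (nat_lit 14) (nat_lit 6))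
    (@En.n l9754 (nat_lit 7004) (nat_lit 5) (nat_lit 9))
    (@En.n l7 (nat_lit 2725) (nat_lit 6) (nat_lit 2))
    (@En.n l9754 (nat_lit 2717) (nat_lit 7) (nat_lit 4))
    (@En.n l9755 (nat_lit 3885) (nat_lit 9) (nat_lit 14))
    (@En.n l3235 (nat_lit 2716) (nat_lit 10) (nat_lit 10))
    (@En.n l4164 (nat_lit 3209) (nat_lit 11) (nat_lit 10))
    (@En.n l9756 (nat_lit 11697) (nat_lit 12) (nat_lit 12))
    (@En.n l9757 (nat_lit 2758) (nat_lit 5) (nat_lit 4))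
    (@En.n l17 (nat_lit 2728) (nat_lit 14) (nat_lit 5))
    (@En.i (nat_lit 2787) (nat_lit 7) (nat_lit 7))
    (@En.n l3 (nat_lit 2725) (nat_lit 15) (nat_lit 2))))
  (@Cl.mk (nat_lit 0x200050003000d000a000e00030002000b000e00060002000b0005000e000d) (nat_lit 0x91b0082004082) (nat_lit 16) Lb.e (@T16.mk En
    (@En.n l1240 (nat_lit 973) (nat_lit 8) (nat_lit 13))
    (@En.n l1241 (nat_lit 2716) (nat_lit 1) (nat_lit 14))
    (@En.n l429 (nat_lit 1596) (nat_lit 14) (nat_lit 5))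
    (@En.i (nat_lit 7387) (nat_lit 3) (nat_lit 11))
    (@En.n l12 (nat_lit 2726) (nat_lit 4) (nat_lit 2))
    (@En.i (nat_lit 2728) (nat_lit 5) (nat_lit 6))
    (@En.n l430 (nat_lit 201) (nat_lit 7) (nat_lit 14))
    (@En.n l1242 (nat_lit 3534) (nat_lit 8) (nat_lit 11))
    (@En.n l7 (nat_lit 2726) (nat_lit 8) (nat_lit 2))
    (@En.n l1243 (nat_lit 975) (nat_lit 9) (nat_lit 3))
    (@En.n l1244 (nat_lit 13061) (nat_lit 0) (nat_lit 14))
    (@En.n l12 (nat_lit 355) (nat_lit 12) (nat_lit 10))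
    (@En.n l1245 (nat_lit 11692) (nat_lit 13) (nat_lit 13))
    (@En.n l1241 (nat_lit 973) (nat_lit 4) (nat_lit 3))
    (@En.i (nat_lit 2701) (nat_lit 5) (nat_lit 5))
    (@En.n l3 (nat_lit 2726) (nat_lit 15) (nat_lit 2))))
  (@Cl.mk (nat_lit 0x2000c00060006000c0004000d000d000400030003000c000a000a000e0004) (nat_lit 0x9002006000202b0) (nat_lit 16) Lb.e (@T16.mk En
    (@En.n l8247 (nat_lit 2723) (nat_lit 9) (nat_lit 4))
    (@En.i (nat_lit 4045) (nat_lit 1) (nat_lit 14))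
    (@En.n l8248 (nat_lit 973) (nat_lit 2) (nat_lit 10))
    (@En.n l97 (nat_lit 3324) (nat_lit 3) (nat_lit 10))
    (@En.n l8249 (nat_lit 11023) (nat_lit 5) (nat_lit 12))
    (@En.n l8250 (nat_lit 2728) (nat_lit 13) (nat_lit 3))
    (@En.n l4296 (nat_lit 2995) (nat_lit 6) (nat_lit 3))
    (@En.n l8251 (nat_lit 2757) (nat_lit 0) (nat_lit 4))
    (@En.n l4007 (nat_lit 2995) (nat_lit 9) (nat_lit 13))
    (@En.n l8252 (nat_lit 2758) (nat_lit 10) (nat_lit 13))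
    (@En.n l5876 (nat_lit 3037) (nat_lit 10) (nat_lit 4))
    (@En.n l8253 (nat_lit 7538) (nat_lit 12) (nat_lit 12))
    (@En.n l8254 (nat_lit 2730) (nat_lit 13) (nat_lit 6))
    (@En.n l8255 (nat_lit 217) (nat_lit 14) (nat_lit 6))
    (@En.n l8256 (nat_lit 3536) (nat_lit 8) (nat_lit 12))
    (@En.n l3 (nat_lit 2727) (nat_lit 15) (nat_lit 2))))
  (@Cl.mk (nat_lit 0x200050003000c000a000a000e00040002000c00060006000b0004000e000d) (nat_lit 0xa02b000003071) (nat_lit 16) Lb.e (@T16.mk En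
    (@En.n l4074 (nat_lit 2727) (nat_lit 9) (nat_lit 13))
    (@En.i (nat_lit 2725) (nat_lit 1) (nat_lit 14))
    (@En.n l4075 (nat_lit 3038) (nat_lit 2) (nat_lit 4))
    (@En.i (nat_lit 8662) (nat_lit 3) (nat_lit 11))
    (@En.n l1252 (nat_lit 2729) (nat_lit 4) (nat_lit 6))
    (@En.i (nat_lit 1011) (nat_lit 5) (nat_lit 6))
    (@En.n l4076 (nat_lit 7210) (nat_lit 7) (nat_lit 12))
    (@En.n l7 (nat_lit 2728) (nat_lit 7) (nat_lit 2))
    (@En.n l28 (nat_lit 2720) (nat_lit 8) (nat_lit 4))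
    (@En.n l4077 (nat_lit 4049) (nat_lit 10) (nat_lit 14))
    (@En.n l13 (nat_lit 2726) (nat_lit 11) (nat_lit 10))
    (@En.i (nat_lit 3214) (nat_lit 12) (nat_lit 10))
    (@En.i (nat_lit 11699) (nat_lit 13) (nat_lit 12))
    (@En.n l4078 (nat_lit 2727) (nat_lit 5) (nat_lit 3))
    (@En.i (nat_lit 2690) (nat_lit 6) (nat_lit 5))
    (@En.n l3 (nat_lit 2728) (nat_lit 15) (nat_lit 2))))
  (@Cl.mk (nat_lit 0x200050003000b000e000a0002000e00050002000d0006000b0003000e000d) (nat_lit 0x108004020a4) (nat_lit 16) Lb.e (@T16.mk En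
    (@En.n l11220 (nat_lit 2730) (nat_lit 10) (nat_lit 13))
    (@En.n l3869 (nat_lit 2765) (nat_lit 1) (nat_lit 14))
    (@En.n l8821 (nat_lit 2738) (nat_lit 2) (nat_lit 3))
    (@En.i (nat_lit 2710) (nat_lit 3) (nat_lit 11))
    (@En.i (nat_lit 1017) (nat_lit 4) (nat_lit 6))
    (@En.n l1531 (nat_lit 4861) (nat_lit 6) (nat_lit 13))
    (@En.n l3 (nat_lit 2729) (nat_lit 6) (nat_lit 2))
    (@En.n l11221 (nat_lit 2732) (nat_lit 7) (nat_lit 5))
    (@En.n l3857 (nat_lit 3842) (nat_lit 9) (nat_lit 14))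
    (@En.n l50 (nat_lit 2729) (nat_lit 9) (nat_lit 2))
    (@En.n l3858 (nat_lit 2728) (nat_lit 11) (nat_lit 10))
    (@En.n l3328 (nat_lit 13206) (nat_lit 4) (nat_lit 14))
    (@En.i (nat_lit 12101) (nat_lit 13) (nat_lit 11))
    (@En.n l11222 (nat_lit 2730) (nat_lit 6) (nat_lit 3))
    (@En.n l3859 (nat_lit 2852) (nat_lit 0) (nat_lit 5))
    (@En.n l11 (nat_lit 2729) (nat_lit 15) (nat_lit 2))))
  (@Cl.mk (nat_lit 0x2000d0006000c0003000d000d000400030003000b000e000a0002000e0005) (nat_lit 0x5020320000010c0) (nat_lit 16) Lb.e (@T16.mk En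
    (@En.n l16002 (nat_lit 2731) (nat_lit 14) (nat_lit 5))
    (@En.i (nat_lit 3841) (nat_lit 1) (nat_lit 14))
    (@En.n l936 (nat_lit 2730) (nat_lit 2) (nat_lit 2))
    (@En.n l55 (nat_lit 2727) (nat_lit 3) (nat_lit 10))
    (@En.n l19676 (nat_lit 13205) (nat_lit 4) (nat_lit 14))
    (@En.n l9975 (nat_lit 4179) (nat_lit 2) (nat_lit 11))
    (@En.n l19677 (nat_lit 2729) (nat_lit 13) (nat_lit 3))
    (@En.n l18 (nat_lit 2733) (nat_lit 0) (nat_lit 3))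
    (@En.n l9975 (nat_lit 2761) (nat_lit 0) (nat_lit 4))
    (@En.n l61 (nat_lit 2733) (nat_lit 3) (nat_lit 13))
    (@En.n l19678 (nat_lit 2762) (nat_lit 11) (nat_lit 13))
    (@En.n l14833 (nat_lit 2737) (nat_lit 11) (nat_lit 3))
    (@En.n l9975 (nat_lit 2707) (nat_lit 0) (nat_lit 12))
    (@En.n l19678 (nat_lit 1161) (nat_lit 14) (nat_lit 6))
    (@En.n l16001 (nat_lit 4856) (nat_lit 12) (nat_lit 13))
    (@En.n l3 (nat_lit 2730) (nat_lit 15) (nat_lit 2))))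
  (@Cl.mk (nat_lit 0x200050005000d0005000c0003000d000d000400030003000b000b000e000b) (nat_lit 0x4020120000111) (nat_lit 16) Lb.e (@T16.mk En
    (@En.n l4245 (nat_lit 2723) (nat_lit 11) (nat_lit 11))
    (@En.n l4245 (nat_lit 2730) (nat_lit 4) (nat_lit 14))
    (@En.n l68 (nat_lit 2730) (nat_lit 5) (nat_lit 11))
    (@En.i (nat_lit 11930) (nat_lit 3) (nat_lit 11))
    (@En.i (nat_lit 2732) (nat_lit 13) (nat_lit 3))
    (@En.n l18 (nat_lit 2734) (nat_lit 5) (nat_lit 3))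
    (@En.i (nat_lit 2767) (nat_lit 6) (nat_lit 4))
    (@En.n l61 (nat_lit 2734) (nat_lit 8) (nat_lit 13))
    (@En.n l3471 (nat_lit 1224) (nat_lit 9) (nat_lit 13))
    (@En.i (nat_lit 2736) (nat_lit 9) (nat_lit 3))
    (@En.i (nat_lit 2708) (nat_lit 11) (nat_lit 12))
    (@En.i (nat_lit 1158) (nat_lit 5) (nat_lit 5))
    (@En.n l645 (nat_lit 4754) (nat_lit 13) (nat_lit 13))
    (@En.n l4256 (nat_lit 2735) (nat_lit 14) (nat_lit 5))
    (@En.i (nat_lit 3832) (nat_lit 13) (nat_lit 5))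
    (@En.n l936 (nat_lit 2731) (nat_lit 15) (nat_lit 2))))
  (@Cl.mk (nat_lit 0x200050003000b000b000e000b000200050005000d0005000b0003000e000d) (nat_lit 0x111000401052) (nat_lit 16) Lb.e (@T16.mk En
    (@En.n l61 (nat_lit 2731) (nat_lit 8) (nat_lit 13))
    (@En.n l3471 (nat_lit 2638) (nat_lit 9) (nat_lit 14))
    (@En.n l4249 (nat_lit 2739) (nat_lit 9) (nat_lit 3))
    (@En.n l4253 (nat_lit 2633) (nat_lit 11) (nat_lit 11))
    (@En.n l4254 (nat_lit 1014) (nat_lit 4) (nat_lit 5))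
    (@En.n l4255 (nat_lit 7206) (nat_lit 13) (nat_lit 13))
    (@En.n l4256 (nat_lit 3051) (nat_lit 6) (nat_lit 5))
    (@En.i (nat_lit 3584) (nat_lit 7) (nat_lit 5))
    (@En.n l936 (nat_lit 2732) (nat_lit 8) (nat_lit 2))
    (@En.n l4194 (nat_lit 2720) (nat_lit 10) (nat_lit 11))
    (@En.n l4257 (nat_lit 2729) (nat_lit 11) (nat_lit 14))
    (@En.n l4258 (nat_lit 2729) (nat_lit 12) (nat_lit 11))
    (@En.n l4259 (nat_lit 12103) (nat_lit 3) (nat_lit 11))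
    (@En.n l72 (nat_lit 2731) (nat_lit 4) (nat_lit 3))
    (@En.n l4260 (nat_lit 2637) (nat_lit 5) (nat_lit 5))
    (@En.n l17 (nat_lit 2732) (nat_lit 15) (nat_lit 2))))
  (@Cl.mk (nat_lit 0x2000b000e000a0002000e00050002000d0006000d0003000d0003000e0003) (nat_lit 0x50b01030) (nat_lit 16) Lb.e (@T16.mk En
    (@En.i (nat_lit 2730) (nat_lit 7) (nat_lit 3))
    (@En.n l6002 (nat_lit 13663) (nat_lit 0) (nat_lit 14))
    (@En.i (nat_lit 2998) (nat_lit 2) (nat_lit 3))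
    (@En.n l16001 (nat_lit 1226) (nat_lit 11) (nat_lit 13))
    (@En.i (nat_lit 4168) (nat_lit 4) (nat_lit 3))
    (@En.n l6002 (nat_lit 2706) (nat_lit 6) (nat_lit 13))
    (@En.n l16474 (nat_lit 1159) (nat_lit 14) (nat_lit 6))
    (@En.n l16001 (nat_lit 4857) (nat_lit 12) (nat_lit 13))
    (@En.n l3 (nat_lit 2733) (nat_lit 8) (nat_lit 2))
    (@En.n l16002 (nat_lit 2734) (nat_lit 14) (nat_lit 5))
    (@En.i (nat_lit 4070) (nat_lit 1) (nat_lit 14))
    (@En.n l936 (nat_lit 2733) (nat_lit 11) (nat_lit 2))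
    (@En.n l6000 (nat_lit 2995) (nat_lit 3) (nat_lit 10))
    (@En.n l16003 (nat_lit 13209) (nat_lit 4) (nat_lit 14))
    (@En.n l6002 (nat_lit 4173) (nat_lit 2) (nat_lit 11))
    (@En.n l17 (nat_lit 2733) (nat_lit 15) (nat_lit 2))))
  (@Cl.mk (nat_lit 0x200050005000d0005000d0003000d0003000e00030002000b000b000e000b) (nat_lit 0x30a0103000115) (nat_lit 16) Lb.e (@T16.mk En
    (@En.n l8015 (nat_lit 2996) (nat_lit 12) (nat_lit 11))
    (@En.n l4245 (nat_lit 2733) (nat_lit 13) (nat_lit 14))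
    (@En.n l68 (nat_lit 2733) (nat_lit 14) (nat_lit 11))
    (@En.i (nat_lit 4181) (nat_lit 3) (nat_lit 11))
    (@En.n l17 (nat_lit 2734) (nat_lit 4) (nat_lit 2))
    (@En.i (nat_lit 2731) (nat_lit 5) (nat_lit 3))
    (@En.i (nat_lit 13664) (nat_lit 0) (nat_lit 14))
    (@En.i (nat_lit 2895) (nat_lit 7) (nat_lit 3))
    (@En.n l645 (nat_lit 1222) (nat_lit 9) (nat_lit 13))
    (@En.i (nat_lit 2900) (nat_lit 9) (nat_lit 3))
    (@En.i (nat_lit 2709) (nat_lit 11) (nat_lit 13))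
    (@En.i (nat_lit 1160) (nat_lit 6) (nat_lit 5))
    (@En.n l645 (nat_lit 4753) (nat_lit 13) (nat_lit 13))
    (@En.n l7041 (nat_lit 2897) (nat_lit 14) (nat_lit 5))
    (@En.i (nat_lit 3833) (nat_lit 9) (nat_lit 5))
    (@En.n l936 (nat_lit 2734) (nat_lit 15) (nat_lit 2))))
  (@Cl.mk (nat_lit 0x20005000d0004000c0003000d000d000400030003000e000b0002000e000c) (nat_lit 0x20201200051021) (nat_lit 16) Lb.e (@T16.mk En
    (@En.n l4130 (nat_lit 2722) (nat_lit 14) (nat_lit 12))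
    (@En.n l1329 (nat_lit 2731) (nat_lit 1) (nat_lit 14))
    (@En.n l18 (nat_lit 2735) (nat_lit 2) (nat_lit 2))
    (@En.n l1330 (nat_lit 2731) (nat_lit 3) (nat_lit 11))
    (@En.i (nat_lit 12755) (nat_lit 5) (nat_lit 14))
    (@En.i (nat_lit 3051) (nat_lit 13) (nat_lit 3))
    (@En.n l1722 (nat_lit 2897) (nat_lit 6) (nat_lit 3))
    (@En.i (nat_lit 3062) (nat_lit 7) (nat_lit 4))
    (@En.n l2593 (nat_lit 2897) (nat_lit 9) (nat_lit 13))
    (@En.i (nat_lit 1225) (nat_lit 10) (nat_lit 13))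
    (@En.n l164 (nat_lit 2901) (nat_lit 10) (nat_lit 3))
    (@En.i (nat_lit 2740) (nat_lit 12) (nat_lit 12))
    (@En.i (nat_lit 1114) (nat_lit 9) (nat_lit 4))
    (@En.n l387 (nat_lit 4747) (nat_lit 14) (nat_lit 13))
    (@En.n l1329 (nat_lit 3845) (nat_lit 13) (nat_lit 5))
    (@En.n l3 (nat_lit 2735) (nat_lit 15) (nat_lit 2))))
noncomputable def a171 : T16 Cl := @T16.mk Cl
  (@Cl.mk (nat_lit 0x200050005000d000b00060003000d000d000500030003000b000b000e000a) (nat_lit 0x3500050000008) (nat_lit 16) Lb.e (@T16.mk En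
    (@En.n l4245 (nat_lit 3034) (nat_lit 11) (nat_lit 10))
    (@En.n l4246 (nat_lit 2737) (nat_lit 4) (nat_lit 14))
    (@En.n l4247 (nat_lit 2737) (nat_lit 5) (nat_lit 11))
    (@En.n l4248 (nat_lit 11933) (nat_lit 3) (nat_lit 11))
    (@En.n l4249 (nat_lit 2739) (nat_lit 4) (nat_lit 3))
    (@En.n l18 (nat_lit 2900) (nat_lit 5) (nat_lit 3))
    (@En.n l4250 (nat_lit 2964) (nat_lit 6) (nat_lit 5))
    (@En.n l61 (nat_lit 2900) (nat_lit 8) (nat_lit 13))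
    (@En.n l4003 (nat_lit 2793) (nat_lit 9) (nat_lit 13))
    (@En.n l7 (nat_lit 2731) (nat_lit 9) (nat_lit 3))
    (@En.n l4251 (nat_lit 4147) (nat_lit 0) (nat_lit 6))
    (@En.i (nat_lit 2766) (nat_lit 12) (nat_lit 11))
    (@En.n l645 (nat_lit 4755) (nat_lit 13) (nat_lit 13))
    (@En.n l4252 (nat_lit 2901) (nat_lit 14) (nat_lit 5))
    (@En.i (nat_lit 3825) (nat_lit 13) (nat_lit 5))
    (@En.n l936 (nat_lit 2736) (nat_lit 15) (nat_lit 2))))
  (@Cl.mk (nat_lit 0x2000d000b00070003000d000d000500030003000b000e00090002000e0005) (nat_lit 0x4500000009c7000) (nat_lit 16) Lb.e (@T16.mk En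
    (@En.n l11445 (nat_lit 2736) (nat_lit 14) (nat_lit 5))
    (@En.n l11446 (nat_lit 3826) (nat_lit 1) (nat_lit 14))
    (@En.n l17 (nat_lit 2737) (nat_lit 2) (nat_lit 2))
    (@En.n l4353 (nat_lit 3037) (nat_lit 3) (nat_lit 9))
    (@En.n l11447 (nat_lit 13207) (nat_lit 4) (nat_lit 14))
    (@En.n l998 (nat_lit 4172) (nat_lit 2) (nat_lit 11))
    (@En.n l11448 (nat_lit 2738) (nat_lit 13) (nat_lit 3))
    (@En.n l9647 (nat_lit 4168) (nat_lit 0) (nat_lit 3))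
    (@En.n l11449 (nat_lit 2965) (nat_lit 0) (nat_lit 5))
    (@En.n l11450 (nat_lit 4168) (nat_lit 3) (nat_lit 13))
    (@En.n l11451 (nat_lit 2791) (nat_lit 11) (nat_lit 13))
    (@En.n l11452 (nat_lit 2730) (nat_lit 11) (nat_lit 3))
    (@En.n l11453 (nat_lit 4150) (nat_lit 0) (nat_lit 7))
    (@En.n l11454 (nat_lit 2764) (nat_lit 14) (nat_lit 11))
    (@En.n l11455 (nat_lit 4862) (nat_lit 12) (nat_lit 13))
    (@En.n l3 (nat_lit 2737) (nat_lit 15) (nat_lit 2))))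
  (@Cl.mk (nat_lit 0x200060003000b000e00090002000e00050002000d000a00070003000e000d) (nat_lit 0x70800500061) (nat_lit 16) Lb.e (@T16.mk En
    (@En.n l4222 (nat_lit 2737) (nat_lit 10) (nat_lit 13))
    (@En.n l4223 (nat_lit 2684) (nat_lit 1) (nat_lit 14))
    (@En.n l4224 (nat_lit 2729) (nat_lit 2) (nat_lit 3))
    (@En.i (nat_lit 4149) (nat_lit 3) (nat_lit 7))
    (@En.n l4225 (nat_lit 2765) (nat_lit 4) (nat_lit 10))
    (@En.n l4226 (nat_lit 4865) (nat_lit 6) (nat_lit 13))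
    (@En.n l107 (nat_lit 2738) (nat_lit 6) (nat_lit 2))
    (@En.n l4227 (nat_lit 2739) (nat_lit 14) (nat_lit 5))
    (@En.n l4228 (nat_lit 3840) (nat_lit 1) (nat_lit 14))
    (@En.n l754 (nat_lit 2738) (nat_lit 9) (nat_lit 2))
    (@En.n l4229 (nat_lit 3038) (nat_lit 11) (nat_lit 9))
    (@En.n l1391 (nat_lit 13208) (nat_lit 4) (nat_lit 14))
    (@En.n l4230 (nat_lit 12098) (nat_lit 13) (nat_lit 11))
    (@En.n l4230 (nat_lit 2737) (nat_lit 6) (nat_lit 3))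
    (@En.n l4231 (nat_lit 2170) (nat_lit 0) (nat_lit 6))
    (@En.n l50 (nat_lit 2738) (nat_lit 15) (nat_lit 2))))
  (@Cl.mk (nat_lit 0x200050005000d000a00060003000e000d000200060003000b000b000e000a) (nat_lit 0x3100510000118) (nat_lit 16) Lb.e (@T16.mk En
    (@En.n l1313 (nat_lit 1598) (nat_lit 10) (nat_lit 10))
    (@En.n l1314 (nat_lit 2738) (nat_lit 11) (nat_lit 14))
    (@En.n l1315 (nat_lit 2738) (nat_lit 12) (nat_lit 11))
    (@En.n l1316 (nat_lit 12104) (nat_lit 3) (nat_lit 11))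
    (@En.n l1317 (nat_lit 2736) (nat_lit 4) (nat_lit 3))
    (@En.n l1318 (nat_lit 2173) (nat_lit 5) (nat_lit 6))
    (@En.n l3 (nat_lit 2739) (nat_lit 6) (nat_lit 2))
    (@En.n l1319 (nat_lit 2736) (nat_lit 8) (nat_lit 13))
    (@En.n l1320 (nat_lit 2629) (nat_lit 9) (nat_lit 14))
    (@En.n l1321 (nat_lit 2732) (nat_lit 2) (nat_lit 3))
    (@En.n l1322 (nat_lit 4146) (nat_lit 3) (nat_lit 6))
    (@En.n l1318 (nat_lit 2638) (nat_lit 12) (nat_lit 10))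
    (@En.i (nat_lit 7193) (nat_lit 13) (nat_lit 13))
    (@En.n l1323 (nat_lit 3050) (nat_lit 14) (nat_lit 5))
    (@En.n l1324 (nat_lit 3835) (nat_lit 7) (nat_lit 5))
    (@En.n l50 (nat_lit 2739) (nat_lit 15) (nat_lit 2))))
  (@Cl.mk (nat_lit 0x20005000e000c0002000c000c0004000900040004000e000b0002000e0007) (nat_lit 0x1023070061020) (nat_lit 16) Lb.e (@T16.mk En
    (@En.n l3494 (nat_lit 2551) (nat_lit 14) (nat_lit 7))
    (@En.n l1329 (nat_lit 2708) (nat_lit 1) (nat_lit 14))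
    (@En.n l18 (nat_lit 2740) (nat_lit 2) (nat_lit 2))
    (@En.n l1330 (nat_lit 2708) (nat_lit 3) (nat_lit 11))
    (@En.n l3495 (nat_lit 8990) (nat_lit 5) (nat_lit 14))
    (@En.i (nat_lit 2631) (nat_lit 12) (nat_lit 4))
    (@En.n l1253 (nat_lit 1331) (nat_lit 6) (nat_lit 4))
    (@En.i (nat_lit 5135) (nat_lit 4) (nat_lit 9))
    (@En.n l3496 (nat_lit 2741) (nat_lit 8) (nat_lit 4))
    (@En.n l2593 (nat_lit 2711) (nat_lit 10) (nat_lit 12))
    (@En.i (nat_lit 1364) (nat_lit 11) (nat_lit 12))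
    (@En.n l11 (nat_lit 2740) (nat_lit 11) (nat_lit 2))
    (@En.i (nat_lit 2696) (nat_lit 13) (nat_lit 12))
    (@En.n l387 (nat_lit 12531) (nat_lit 1) (nat_lit 14))
    (@En.n l1329 (nat_lit 1148) (nat_lit 13) (nat_lit 5))
    (@En.n l3 (nat_lit 2740) (nat_lit 15) (nat_lit 2))))
  (@Cl.mk (nat_lit 0x20005000d000c000a0003000d0004000900030006000e000b0002000e0007) (nat_lit 0x8206000001010) (nat_lit 16) Lb.e (@T16.mk En
    (@En.i (nat_lit 2749) (nat_lit 14) (nat_lit 7))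
    (@En.n l1531 (nat_lit 1367) (nat_lit 1) (nat_lit 14))
    (@En.n l3 (nat_lit 2741) (nat_lit 2) (nat_lit 2))
    (@En.n l3358 (nat_lit 1367) (nat_lit 3) (nat_lit 11))
    (@En.i (nat_lit 9032) (nat_lit 5) (nat_lit 14))
    (@En.n l7826 (nat_lit 2641) (nat_lit 12) (nat_lit 6))
    (@En.n l9872 (nat_lit 1337) (nat_lit 6) (nat_lit 3))
    (@En.n l6624 (nat_lit 6629) (nat_lit 0) (nat_lit 9))
    (@En.n l9873 (nat_lit 2696) (nat_lit 8) (nat_lit 4))
    (@En.n l343 (nat_lit 1365) (nat_lit 10) (nat_lit 13))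
    (@En.n l28 (nat_lit 2742) (nat_lit 10) (nat_lit 3))
    (@En.n l3362 (nat_lit 1382) (nat_lit 12) (nat_lit 10))
    (@En.n l77 (nat_lit 2743) (nat_lit 13) (nat_lit 12))
    (@En.n l3513 (nat_lit 9927) (nat_lit 14) (nat_lit 13))
    (@En.n l1246 (nat_lit 4278) (nat_lit 13) (nat_lit 5))
    (@En.n l17 (nat_lit 2741) (nat_lit 15) (nat_lit 2))))
  (@Cl.mk (nat_lit 0x20005000d0009000d0003000d0003000900030007000e000b0002000e0007) (nat_lit 0x4507040004080) (nat_lit 16) Lb.e (@T16.mk En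
    (@En.i (nat_lit 2747) (nat_lit 14) (nat_lit 7))
    (@En.n l1531 (nat_lit 2745) (nat_lit 1) (nat_lit 14))
    (@En.n l3 (nat_lit 2742) (nat_lit 2) (nat_lit 2))
    (@En.n l3358 (nat_lit 2745) (nat_lit 3) (nat_lit 11))
    (@En.i (nat_lit 9029) (nat_lit 5) (nat_lit 14))
    (@En.i (nat_lit 3599) (nat_lit 5) (nat_lit 7))
    (@En.i (nat_lit 2744) (nat_lit 6) (nat_lit 3))
    (@En.i (nat_lit 6631) (nat_lit 0) (nat_lit 9))
    (@En.i (nat_lit 2743) (nat_lit 8) (nat_lit 3))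
    (@En.i (nat_lit 3368) (nat_lit 10) (nat_lit 13))
    (@En.i (nat_lit 2741) (nat_lit 10) (nat_lit 3))
    (@En.i (nat_lit 3617) (nat_lit 12) (nat_lit 13))
    (@En.i (nat_lit 1365) (nat_lit 13) (nat_lit 9))
    (@En.i (nat_lit 9924) (nat_lit 14) (nat_lit 13))
    (@En.n l9595 (nat_lit 3746) (nat_lit 13) (nat_lit 5))
    (@En.n l17 (nat_lit 2742) (nat_lit 15) (nat_lit 2))))
  (@Cl.mk (nat_lit 0x20005000c0009000d000c00040003000900040007000e000b0002000e0007) (nat_lit 0x74000000004070) (nat_lit 16) Lb.e (@T16.mk En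
    (@En.i (nat_lit 2748) (nat_lit 14) (nat_lit 7))
    (@En.n l1531 (nat_lit 2746) (nat_lit 1) (nat_lit 14))
    (@En.n l3 (nat_lit 2743) (nat_lit 2) (nat_lit 2))
    (@En.n l3358 (nat_lit 2746) (nat_lit 3) (nat_lit 11))
    (@En.i (nat_lit 9030) (nat_lit 5) (nat_lit 14))
    (@En.n l7828 (nat_lit 3597) (nat_lit 11) (nat_lit 7))
    (@En.n l19563 (nat_lit 3202) (nat_lit 6) (nat_lit 4))
    (@En.n l7264 (nat_lit 4452) (nat_lit 4) (nat_lit 9))
    (@En.n l7 (nat_lit 2742) (nat_lit 8) (nat_lit 3))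
    (@En.n l7264 (nat_lit 2686) (nat_lit 9) (nat_lit 4))
    (@En.n l644 (nat_lit 2744) (nat_lit 11) (nat_lit 12))
    (@En.n l2791 (nat_lit 3613) (nat_lit 12) (nat_lit 13))
    (@En.n l11113 (nat_lit 1364) (nat_lit 13) (nat_lit 9))
    (@En.n l7264 (nat_lit 9925) (nat_lit 14) (nat_lit 12))
    (@En.n l9595 (nat_lit 3745) (nat_lit 13) (nat_lit 5))
    (@En.n l17 (nat_lit 2743) (nat_lit 15) (nat_lit 2))))
  (@Cl.mk (nat_lit 0x20005000d0009000c0003000d0008000400030007000e000b0002000e0008) (nat_lit 0x94a06400031080) (nat_lit 16) Lb.e (@T16.mk En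
    (@En.i (nat_lit 2752) (nat_lit 14) (nat_lit 8))
    (@En.n l1531 (nat_lit 1366) (nat_lit 1) (nat_lit 14))
    (@En.n l3 (nat_lit 2744) (nat_lit 2) (nat_lit 2))
    (@En.n l3358 (nat_lit 1366) (nat_lit 3) (nat_lit 11))
    (@En.n l17828 (nat_lit 9031) (nat_lit 5) (nat_lit 14))
    (@En.n l612 (nat_lit 2743) (nat_lit 5) (nat_lit 7))
    (@En.n l50 (nat_lit 2742) (nat_lit 6) (nat_lit 3))
    (@En.n l19555 (nat_lit 3201) (nat_lit 7) (nat_lit 4))
    (@En.i (nat_lit 4450) (nat_lit 5) (nat_lit 8))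
    (@En.n l7035 (nat_lit 3367) (nat_lit 10) (nat_lit 13))
    (@En.n l9872 (nat_lit 1337) (nat_lit 10) (nat_lit 3))
    (@En.n l2790 (nat_lit 2906) (nat_lit 12) (nat_lit 12))
    (@En.n l3380 (nat_lit 1363) (nat_lit 13) (nat_lit 9))
    (@En.n l11003 (nat_lit 9926) (nat_lit 14) (nat_lit 13))
    (@En.n l19556 (nat_lit 3738) (nat_lit 13) (nat_lit 5))
    (@En.n l17 (nat_lit 2744) (nat_lit 15) (nat_lit 2))))
  (@Cl.mk (nat_lit 0x200050005000d0009000d0003000d0003000a00030007000b000b000e0006) (nat_lit 0x8560704003070) (nat_lit 16) Lb.e (@T16.mk En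
    (@En.n l3098 (nat_lit 2750) (nat_lit 8) (nat_lit 6))
    (@En.n l3 (nat_lit 3471) (nat_lit 4) (nat_lit 14))
    (@En.n l527 (nat_lit 3471) (nat_lit 5) (nat_lit 11))
    (@En.i (nat_lit 7454) (nat_lit 3) (nat_lit 11))
    (@En.n l5251 (nat_lit 3595) (nat_lit 4) (nat_lit 7))
    (@En.i (nat_lit 1366) (nat_lit 5) (nat_lit 3))
    (@En.i (nat_lit 5116) (nat_lit 0) (nat_lit 10))
    (@En.i (nat_lit 2746) (nat_lit 7) (nat_lit 3))
    (@En.n l10280 (nat_lit 3369) (nat_lit 9) (nat_lit 13))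
    (@En.i (nat_lit 1367) (nat_lit 9) (nat_lit 3))
    (@En.n l8479 (nat_lit 3621) (nat_lit 11) (nat_lit 13))
    (@En.i (nat_lit 1362) (nat_lit 12) (nat_lit 9))
    (@En.i (nat_lit 11725) (nat_lit 13) (nat_lit 13))
    (@En.n l8480 (nat_lit 2742) (nat_lit 14) (nat_lit 5))
    (@En.n l3106 (nat_lit 4253) (nat_lit 13) (nat_lit 5))
    (@En.n l17 (nat_lit 2745) (nat_lit 15) (nat_lit 2))))
  (@Cl.mk (nat_lit 0x200050005000c0009000d000c00040003000a00040007000b000b000e0006) (nat_lit 0xa561005003060) (nat_lit 16) Lb.e (@T16.mk En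
    (@En.n l3098 (nat_lit 2751) (nat_lit 8) (nat_lit 6))
    (@En.n l3 (nat_lit 3470) (nat_lit 4) (nat_lit 14))
    (@En.n l527 (nat_lit 3470) (nat_lit 5) (nat_lit 11))
    (@En.i (nat_lit 8343) (nat_lit 3) (nat_lit 11))
    (@En.n l25362 (nat_lit 3598) (nat_lit 11) (nat_lit 7))
    (@En.n l7 (nat_lit 3199) (nat_lit 5) (nat_lit 4))
    (@En.n l564 (nat_lit 4451) (nat_lit 7) (nat_lit 10))
    (@En.n l7 (nat_lit 2745) (nat_lit 7) (nat_lit 3))
    (@En.i (nat_lit 2689) (nat_lit 8) (nat_lit 4))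
    (@En.n l644 (nat_lit 1366) (nat_lit 10) (nat_lit 12))
    (@En.n l13544 (nat_lit 2863) (nat_lit 11) (nat_lit 13))
    (@En.n l17742 (nat_lit 1360) (nat_lit 12) (nat_lit 9))
    (@En.i (nat_lit 10757) (nat_lit 13) (nat_lit 12))
    (@En.n l8480 (nat_lit 2743) (nat_lit 14) (nat_lit 5))
    (@En.n l3106 (nat_lit 4252) (nat_lit 13) (nat_lit 5))
    (@En.n l17 (nat_lit 2746) (nat_lit 15) (nat_lit 2))))
  (@Cl.mk (nat_lit 0x2000700070004000d0008000d0003000c00030009000900040008000e000c) (nat_lit 0x801065000a) (nat_lit 16) Lb.e (@T16.mk En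
    (@En.n l3507 (nat_lit 2750) (nat_lit 10) (nat_lit 12))
    (@En.n l3508 (nat_lit 9004) (nat_lit 1) (nat_lit 14))
    (@En.n l7822 (nat_lit 3600) (nat_lit 2) (nat_lit 8))
    (@En.n l429 (nat_lit 10611) (nat_lit 3) (nat_lit 4))
    (@En.n l61 (nat_lit 2742) (nat_lit 7) (nat_lit 9))
    (@En.n l2786 (nat_lit 10016) (nat_lit 5) (nat_lit 9))
    (@En.i (nat_lit 2748) (nat_lit 6) (nat_lit 3))
    (@En.n l7031 (nat_lit 31) (nat_lit 0) (nat_lit 12))
    (@En.i (nat_lit 2749) (nat_lit 8) (nat_lit 3))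
    (@En.n l2786 (nat_lit 3620) (nat_lit 10) (nat_lit 13))
    (@En.i (nat_lit 3486) (nat_lit 11) (nat_lit 8))
    (@En.i (nat_lit 9929) (nat_lit 12) (nat_lit 13))
    (@En.n l9595 (nat_lit 4250) (nat_lit 13) (nat_lit 4))
    (@En.n l1692 (nat_lit 3509) (nat_lit 9) (nat_lit 7))
    (@En.i (nat_lit 4301) (nat_lit 7) (nat_lit 7))
    (@En.n l3 (nat_lit 2747) (nat_lit 15) (nat_lit 2))))
  (@Cl.mk (nat_lit 0x2000700070004000c0008000d000b000400030009000900050008000e000c) (nat_lit 0x800000610005) (nat_lit 16) Lb.e (@T16.mk En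
    (@En.n l3507 (nat_lit 2751) (nat_lit 10) (nat_lit 12))
    (@En.n l3508 (nat_lit 9005) (nat_lit 1) (nat_lit 14))
    (@En.n l7828 (nat_lit 3601) (nat_lit 10) (nat_lit 8))
    (@En.n l429 (nat_lit 10609) (nat_lit 3) (nat_lit 5))
    (@En.n l61 (nat_lit 2743) (nat_lit 7) (nat_lit 9))
    (@En.n l8602 (nat_lit 9385) (nat_lit 5) (nat_lit 9))
    (@En.n l7 (nat_lit 2747) (nat_lit 6) (nat_lit 3))
    (@En.n l4075 (nat_lit 2564) (nat_lit 7) (nat_lit 4))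
    (@En.n l644 (nat_lit 2752) (nat_lit 9) (nat_lit 11))
    (@En.n l4576 (nat_lit 3615) (nat_lit 10) (nat_lit 13))
    (@En.n l8602 (nat_lit 3485) (nat_lit 11) (nat_lit 8))
    (@En.n l7264 (nat_lit 9635) (nat_lit 12) (nat_lit 12))
    (@En.n l8603 (nat_lit 4251) (nat_lit 13) (nat_lit 4))
    (@En.n l1692 (nat_lit 3511) (nat_lit 9) (nat_lit 7))
    (@En.n l3098 (nat_lit 4299) (nat_lit 7) (nat_lit 7))
    (@En.n l3 (nat_lit 2748) (nat_lit 15) (nat_lit 2))))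
  (@Cl.mk (nat_lit 0x2000700070004000d000c00090003000c00040009000900040007000e000c) (nat_lit 0x92000610000) (nat_lit 16) Lb.e (@T16.mk En
    (@En.n l3507 (nat_lit 3480) (nat_lit 8) (nat_lit 12))
    (@En.n l3508 (nat_lit 9006) (nat_lit 1) (nat_lit 14))
    (@En.n l3509 (nat_lit 3609) (nat_lit 11) (nat_lit 7))
    (@En.n l429 (nat_lit 10612) (nat_lit 3) (nat_lit 4))
    (@En.n l61 (nat_lit 2741) (nat_lit 7) (nat_lit 9))
    (@En.n l3510 (nat_lit 10017) (nat_lit 5) (nat_lit 9))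
    (@En.n l3511 (nat_lit 2685) (nat_lit 6) (nat_lit 4))
    (@En.n l343 (nat_lit 3486) (nat_lit 8) (nat_lit 12))
    (@En.n l28 (nat_lit 2747) (nat_lit 8) (nat_lit 3))
    (@En.n l3512 (nat_lit 1281) (nat_lit 10) (nat_lit 9))
    (@En.n l77 (nat_lit 2748) (nat_lit 11) (nat_lit 12))
    (@En.n l3513 (nat_lit 9930) (nat_lit 12) (nat_lit 13))
    (@En.n l3514 (nat_lit 4322) (nat_lit 13) (nat_lit 4))
    (@En.n l1692 (nat_lit 3510) (nat_lit 9) (nat_lit 7))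
    (@En.n l3098 (nat_lit 4303) (nat_lit 5) (nat_lit 7))
    (@En.n l3 (nat_lit 2749) (nat_lit 15) (nat_lit 2))))
  (@Cl.mk (nat_lit 0x3000a000a00040008000c000c0006000600040004000d0008000d0003000c) (nat_lit 0x650590000062902) (nat_lit 16) Lb.e (@T16.mk En
    (@En.n l387 (nat_lit 3370) (nat_lit 0) (nat_lit 12))
    (@En.i (nat_lit 3480) (nat_lit 15) (nat_lit 3))
    (@En.n l725 (nat_lit 3657) (nat_lit 0) (nat_lit 13))
    (@En.i (nat_lit 3481) (nat_lit 3) (nat_lit 8))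
    (@En.i (nat_lit 11741) (nat_lit 2) (nat_lit 13))
    (@En.n l1090 (nat_lit 2747) (nat_lit 12) (nat_lit 4))
    (@En.n l3535 (nat_lit 4243) (nat_lit 6) (nat_lit 4))
    (@En.n l152 (nat_lit 3505) (nat_lit 10) (nat_lit 6))
    (@En.n l936 (nat_lit 4307) (nat_lit 1) (nat_lit 6))
    (@En.n l55 (nat_lit 3473) (nat_lit 4) (nat_lit 12))
    (@En.i (nat_lit 8488) (nat_lit 11) (nat_lit 12))
    (@En.n l617 (nat_lit 2875) (nat_lit 11) (nat_lit 8))
    (@En.i (nat_lit 10006) (nat_lit 10) (nat_lit 4))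
    (@En.n l3536 (nat_lit 2745) (nat_lit 6) (nat_lit 10))
    (@En.n l3745 (nat_lit 10009) (nat_lit 1) (nat_lit 10))
    (@En.i (nat_lit 2751) (nat_lit 15) (nat_lit 3))))
  (@Cl.mk (nat_lit 0x3000a000a00050008000c000c0006000600040004000c0008000d000b0004) (nat_lit 0x760040000080a00) (nat_lit 16) Lb.e (@T16.mk En
    (@En.n l2938 (nat_lit 2687) (nat_lit 0) (nat_lit 4))
    (@En.i (nat_lit 2753) (nat_lit 0) (nat_lit 11))
    (@En.n l14270 (nat_lit 3653) (nat_lit 1) (nat_lit 13))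
    (@En.n l2767 (nat_lit 3483) (nat_lit 3) (nat_lit 8))
    (@En.n l2938 (nat_lit 11739) (nat_lit 3) (nat_lit 12))
    (@En.n l1090 (nat_lit 2748) (nat_lit 12) (nat_lit 4))
    (@En.n l3535 (nat_lit 4241) (nat_lit 6) (nat_lit 4))
    (@En.n l152 (nat_lit 3506) (nat_lit 10) (nat_lit 6))
    (@En.n l936 (nat_lit 4308) (nat_lit 1) (nat_lit 6))
    (@En.n l55 (nat_lit 3474) (nat_lit 4) (nat_lit 12))
    (@En.i (nat_lit 8492) (nat_lit 11) (nat_lit 12))
    (@En.n l617 (nat_lit 3594) (nat_lit 10) (nat_lit 8))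
    (@En.i (nat_lit 7300) (nat_lit 5) (nat_lit 5))
    (@En.n l3536 (nat_lit 2746) (nat_lit 6) (nat_lit 10))
    (@En.n l3745 (nat_lit 9381) (nat_lit 1) (nat_lit 10))
    (@En.n l18 (nat_lit 2750) (nat_lit 15) (nat_lit 3))))
noncomputable def a172 : T16 Cl := @T16.mk Cl
  (@Cl.mk (nat_lit 0x2000800080004000d0008000b0003000c00080008000500040008000e000c) (nat_lit 0x630909045500106) (nat_lit 16) Lb.e (@T16.mk En
    (@En.n l17177 (nat_lit 2753) (nat_lit 8) (nat_lit 12))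
    (@En.n l17178 (nat_lit 9007) (nat_lit 1) (nat_lit 14))
    (@En.n l612 (nat_lit 2748) (nat_lit 2) (nat_lit 8))
    (@En.n l50 (nat_lit 2747) (nat_lit 3) (nat_lit 4))
    (@En.n l17179 (nat_lit 10608) (nat_lit 4) (nat_lit 5))
    (@En.n l61 (nat_lit 2744) (nat_lit 8) (nat_lit 8))
    (@En.n l17180 (nat_lit 9867) (nat_lit 6) (nat_lit 8))
    (@En.n l10159 (nat_lit 3370) (nat_lit 8) (nat_lit 12))
    (@En.n l17181 (nat_lit 1335) (nat_lit 8) (nat_lit 3))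
    (@En.n l17179 (nat_lit 2912) (nat_lit 10) (nat_lit 11))
    (@En.n l17182 (nat_lit 3484) (nat_lit 11) (nat_lit 8))
    (@En.n l11003 (nat_lit 9634) (nat_lit 12) (nat_lit 13))
    (@En.n l9595 (nat_lit 4295) (nat_lit 13) (nat_lit 4))
    (@En.n l17183 (nat_lit 3495) (nat_lit 8) (nat_lit 8))
    (@En.n l17184 (nat_lit 4298) (nat_lit 5) (nat_lit 8))
    (@En.n l3 (nat_lit 2752) (nat_lit 15) (nat_lit 2))))
  (@Cl.mk (nat_lit 0x3000c00090009000500040008000c000c0007000700040004000d0008000b) (nat_lit 0x1510015a0000909) (nat_lit 16) Lb.e (@T16.mk En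
    (@En.n l27597 (nat_lit 2913) (nat_lit 0) (nat_lit 11))
    (@En.n l27598 (nat_lit 3482) (nat_lit 13) (nat_lit 8))
    (@En.n l3647 (nat_lit 11737) (nat_lit 2) (nat_lit 13))
    (@En.n l27599 (nat_lit 2752) (nat_lit 12) (nat_lit 4))
    (@En.n l22921 (nat_lit 4239) (nat_lit 4) (nat_lit 4))
    (@En.n l9272 (nat_lit 3504) (nat_lit 9) (nat_lit 7))
    (@En.n l3647 (nat_lit 2828) (nat_lit 1) (nat_lit 7))
    (@En.n l55 (nat_lit 3475) (nat_lit 4) (nat_lit 12))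
    (@En.i (nat_lit 8482) (nat_lit 7) (nat_lit 12))
    (@En.n l2196 (nat_lit 2751) (nat_lit 11) (nat_lit 8))
    (@En.i (nat_lit 2750) (nat_lit 12) (nat_lit 4))
    (@En.n l27597 (nat_lit 7299) (nat_lit 0) (nat_lit 5))
    (@En.n l9279 (nat_lit 1366) (nat_lit 7) (nat_lit 9))
    (@En.n l3518 (nat_lit 9656) (nat_lit 14) (nat_lit 9))
    (@En.n l14056 (nat_lit 51) (nat_lit 2) (nat_lit 12))
    (@En.n l844 (nat_lit 1336) (nat_lit 15) (nat_lit 3))))
  (@Cl.mk (nat_lit 0x20005000d000a000e00030002000a000e00060002000c000b0006000e0004) (nat_lit 0x91b007200a50b0) (nat_lit 16) Lb.e (@T16.mk En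
    (@En.n l4404 (nat_lit 688) (nat_lit 6) (nat_lit 4))
    (@En.n l7535 (nat_lit 2755) (nat_lit 8) (nat_lit 14))
    (@En.i (nat_lit 1206) (nat_lit 2) (nat_lit 6))
    (@En.n l7842 (nat_lit 2726) (nat_lit 3) (nat_lit 11))
    (@En.n l7843 (nat_lit 7239) (nat_lit 11) (nat_lit 12))
    (@En.n l7 (nat_lit 2754) (nat_lit 5) (nat_lit 2))
    (@En.n l7844 (nat_lit 2757) (nat_lit 6) (nat_lit 6))
    (@En.n l7845 (nat_lit 179) (nat_lit 8) (nat_lit 14))
    (@En.n l7533 (nat_lit 6872) (nat_lit 9) (nat_lit 10))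
    (@En.n l107 (nat_lit 2754) (nat_lit 9) (nat_lit 2))
    (@En.n l7846 (nat_lit 1154) (nat_lit 10) (nat_lit 3))
    (@En.i (nat_lit 13458) (nat_lit 0) (nat_lit 14))
    (@En.n l7845 (nat_lit 1083) (nat_lit 13) (nat_lit 10))
    (@En.i (nat_lit 12801) (nat_lit 8) (nat_lit 13))
    (@En.n l7847 (nat_lit 2691) (nat_lit 13) (nat_lit 5))
    (@En.n l17 (nat_lit 2754) (nat_lit 15) (nat_lit 2))))
  (@Cl.mk (nat_lit 0x20007000e00060002000d000b000e0003000200090005000d000a000e0003) (nat_lit 0x300b4a007091b0) (nat_lit 16) Lb.e (@T16.mk En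
    (@En.n l7 (nat_lit 1146) (nat_lit 9) (nat_lit 3))
    (@En.n l1417 (nat_lit 13443) (nat_lit 0) (nat_lit 14))
    (@En.n l2552 (nat_lit 1088) (nat_lit 2) (nat_lit 10))
    (@En.n l1865 (nat_lit 6095) (nat_lit 13) (nat_lit 13))
    (@En.n l1417 (nat_lit 2754) (nat_lit 14) (nat_lit 5))
    (@En.n l7705 (nat_lit 2782) (nat_lit 5) (nat_lit 9))
    (@En.n l67 (nat_lit 2755) (nat_lit 6) (nat_lit 2))
    (@En.n l107 (nat_lit 689) (nat_lit 7) (nat_lit 3))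
    (@En.n l830 (nat_lit 13760) (nat_lit 0) (nat_lit 14))
    (@En.i (nat_lit 2716) (nat_lit 2) (nat_lit 11))
    (@En.n l18652 (nat_lit 7227) (nat_lit 11) (nat_lit 13))
    (@En.n l17 (nat_lit 2755) (nat_lit 11) (nat_lit 2))
    (@En.n l2694 (nat_lit 2756) (nat_lit 5) (nat_lit 6))
    (@En.n l830 (nat_lit 178) (nat_lit 7) (nat_lit 14))
    (@En.n l830 (nat_lit 4065) (nat_lit 7) (nat_lit 7))
    (@En.n l50 (nat_lit 2755) (nat_lit 15) (nat_lit 2))))
  (@Cl.mk (nat_lit 0x200080005000c000a000a000e00040002000800060006000d000b000e0003) (nat_lit 0xa02b00000a480) (nat_lit 16) Lb.e (@T16.mk En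
    (@En.n l26846 (nat_lit 2758) (nat_lit 8) (nat_lit 3))
    (@En.n l13819 (nat_lit 13758) (nat_lit 0) (nat_lit 14))
    (@En.n l19728 (nat_lit 2725) (nat_lit 2) (nat_lit 11))
    (@En.n l1643 (nat_lit 8920) (nat_lit 12) (nat_lit 13))
    (@En.n l17209 (nat_lit 2760) (nat_lit 4) (nat_lit 6))
    (@En.n l34415 (nat_lit 314) (nat_lit 14) (nat_lit 6))
    (@En.n l7712 (nat_lit 6101) (nat_lit 6) (nat_lit 8))
    (@En.n l28 (nat_lit 2756) (nat_lit 7) (nat_lit 2))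
    (@En.n l32236 (nat_lit 1151) (nat_lit 8) (nat_lit 4))
    (@En.n l4758 (nat_lit 3882) (nat_lit 10) (nat_lit 14))
    (@En.n l34416 (nat_lit 2755) (nat_lit 2) (nat_lit 10))
    (@En.n l17210 (nat_lit 3211) (nat_lit 3) (nat_lit 10))
    (@En.n l34417 (nat_lit 6013) (nat_lit 13) (nat_lit 12))
    (@En.i (nat_lit 2757) (nat_lit 14) (nat_lit 5))
    (@En.n l34418 (nat_lit 2785) (nat_lit 6) (nat_lit 8))
    (@En.n l17 (nat_lit 2756) (nat_lit 15) (nat_lit 2))))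
  (@Cl.mk (nat_lit 0x20005000c000a000a000e00040002000b00060006000c000b0005000e0004) (nat_lit 0xa02b0060094090) (nat_lit 16) Lb.e (@T16.mk En
    (@En.n l18883 (nat_lit 2759) (nat_lit 7) (nat_lit 4))
    (@En.n l11928 (nat_lit 2756) (nat_lit 1) (nat_lit 14))
    (@En.i (nat_lit 2950) (nat_lit 2) (nat_lit 5))
    (@En.n l18884 (nat_lit 2728) (nat_lit 3) (nat_lit 11))
    (@En.n l1643 (nat_lit 8926) (nat_lit 12) (nat_lit 12))
    (@En.n l18885 (nat_lit 2761) (nat_lit 5) (nat_lit 6))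
    (@En.n l3428 (nat_lit 1074) (nat_lit 6) (nat_lit 6))
    (@En.n l18886 (nat_lit 6671) (nat_lit 8) (nat_lit 11))
    (@En.n l28 (nat_lit 2757) (nat_lit 8) (nat_lit 2))
    (@En.n l18887 (nat_lit 1155) (nat_lit 9) (nat_lit 4))
    (@En.n l4758 (nat_lit 3852) (nat_lit 11) (nat_lit 14))
    (@En.n l18888 (nat_lit 2754) (nat_lit 12) (nat_lit 10))
    (@En.n l18884 (nat_lit 3210) (nat_lit 13) (nat_lit 10))
    (@En.n l18889 (nat_lit 5614) (nat_lit 14) (nat_lit 12))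
    (@En.n l18890 (nat_lit 2689) (nat_lit 13) (nat_lit 5))
    (@En.n l17 (nat_lit 2757) (nat_lit 15) (nat_lit 2))))
  (@Cl.mk (nat_lit 0x2000800060006000d000d000c0003000300080004000c000a000a000e0004) (nat_lit 0x6003b50000a12b0) (nat_lit 16) Lb.e (@T16.mk En
    (@En.n l77 (nat_lit 1152) (nat_lit 7) (nat_lit 4))
    (@En.n l15910 (nat_lit 3878) (nat_lit 1) (nat_lit 14))
    (@En.n l15911 (nat_lit 689) (nat_lit 2) (nat_lit 10))
    (@En.n l15912 (nat_lit 856) (nat_lit 3) (nat_lit 10))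
    (@En.n l19006 (nat_lit 6014) (nat_lit 12) (nat_lit 12))
    (@En.n l15917 (nat_lit 2759) (nat_lit 5) (nat_lit 4))
    (@En.n l19007 (nat_lit 2784) (nat_lit 6) (nat_lit 8))
    (@En.n l152 (nat_lit 2993) (nat_lit 7) (nat_lit 3))
    (@En.n l19008 (nat_lit 2756) (nat_lit 0) (nat_lit 3))
    (@En.n l619 (nat_lit 2992) (nat_lit 10) (nat_lit 12))
    (@En.n l19009 (nat_lit 2756) (nat_lit 3) (nat_lit 13))
    (@En.n l19010 (nat_lit 8917) (nat_lit 12) (nat_lit 13))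
    (@En.n l19011 (nat_lit 2762) (nat_lit 13) (nat_lit 6))
    (@En.n l15912 (nat_lit 308) (nat_lit 14) (nat_lit 6))
    (@En.n l77 (nat_lit 5998) (nat_lit 5) (nat_lit 8))
    (@En.n l7 (nat_lit 2758) (nat_lit 15) (nat_lit 2))))
  (@Cl.mk (nat_lit 0x2000a00060006000c000c000c0006000400040004000c000a000a000e0004) (nat_lit 0x3a40000a12b0) (nat_lit 16) Lb.e (@T16.mk En
    (@En.n l19156 (nat_lit 2724) (nat_lit 8) (nat_lit 4))
    (@En.i (nat_lit 3759) (nat_lit 1) (nat_lit 14))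
    (@En.n l2735 (nat_lit 688) (nat_lit 2) (nat_lit 10))
    (@En.n l10214 (nat_lit 863) (nat_lit 3) (nat_lit 10))
    (@En.n l19157 (nat_lit 5592) (nat_lit 5) (nat_lit 12))
    (@En.n l19158 (nat_lit 2725) (nat_lit 12) (nat_lit 4))
    (@En.n l19159 (nat_lit 2992) (nat_lit 6) (nat_lit 4))
    (@En.n l2855 (nat_lit 2727) (nat_lit 7) (nat_lit 4))
    (@En.n l19160 (nat_lit 1213) (nat_lit 8) (nat_lit 6))
    (@En.n l19161 (nat_lit 2994) (nat_lit 10) (nat_lit 12))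
    (@En.n l19162 (nat_lit 2757) (nat_lit 4) (nat_lit 12))
    (@En.n l19163 (nat_lit 7537) (nat_lit 12) (nat_lit 12))
    (@En.n l19164 (nat_lit 2764) (nat_lit 13) (nat_lit 6))
    (@En.n l10214 (nat_lit 291) (nat_lit 14) (nat_lit 6))
    (@En.n l19165 (nat_lit 6672) (nat_lit 14) (nat_lit 10))
    (@En.n l17 (nat_lit 2759) (nat_lit 15) (nat_lit 2))))
  (@Cl.mk (nat_lit 0x200070005000b000e000a0002000e0005000200090006000d000b000e0003) (nat_lit 0x610000501290) (nat_lit 16) Lb.e (@T16.mk En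
    (@En.n l11905 (nat_lit 2762) (nat_lit 9) (nat_lit 3))
    (@En.n l11906 (nat_lit 13752) (nat_lit 0) (nat_lit 14))
    (@En.i (nat_lit 2765) (nat_lit 2) (nat_lit 11))
    (@En.i (nat_lit 1361) (nat_lit 13) (nat_lit 13))
    (@En.n l20972 (nat_lit 1071) (nat_lit 14) (nat_lit 6))
    (@En.n l11460 (nat_lit 5995) (nat_lit 12) (nat_lit 9))
    (@En.n l107 (nat_lit 2760) (nat_lit 6) (nat_lit 2))
    (@En.n l9233 (nat_lit 2763) (nat_lit 14) (nat_lit 5))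
    (@En.n l97 (nat_lit 3073) (nat_lit 1) (nat_lit 14))
    (@En.n l17 (nat_lit 2760) (nat_lit 9) (nat_lit 2))
    (@En.n l17226 (nat_lit 2756) (nat_lit 11) (nat_lit 10))
    (@En.i (nat_lit 13202) (nat_lit 4) (nat_lit 14))
    (@En.n l780 (nat_lit 6006) (nat_lit 13) (nat_lit 11))
    (@En.n l55 (nat_lit 2761) (nat_lit 14) (nat_lit 5))
    (@En.n l20973 (nat_lit 2791) (nat_lit 7) (nat_lit 7))
    (@En.n l50 (nat_lit 2760) (nat_lit 15) (nat_lit 2))))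
  (@Cl.mk (nat_lit 0x20005000b000e000a0002000e00050002000c0006000c000b0004000e0004) (nat_lit 0x10a0050030a0) (nat_lit 16) Lb.e (@T16.mk En
    (@En.n l28 (nat_lit 2764) (nat_lit 8) (nat_lit 4))
    (@En.n l343 (nat_lit 2760) (nat_lit 1) (nat_lit 14))
    (@En.n l28 (nat_lit 2817) (nat_lit 2) (nat_lit 4))
    (@En.n l9264 (nat_lit 2729) (nat_lit 3) (nat_lit 11))
    (@En.i (nat_lit 3472) (nat_lit 13) (nat_lit 12))
    (@En.n l3213 (nat_lit 1077) (nat_lit 5) (nat_lit 6))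
    (@En.n l8891 (nat_lit 8187) (nat_lit 7) (nat_lit 12))
    (@En.n l107 (nat_lit 2761) (nat_lit 7) (nat_lit 2))
    (@En.n l9236 (nat_lit 2767) (nat_lit 14) (nat_lit 5))
    (@En.n l10384 (nat_lit 3848) (nat_lit 1) (nat_lit 14))
    (@En.n l17 (nat_lit 2761) (nat_lit 10) (nat_lit 2))
    (@En.n l21005 (nat_lit 2757) (nat_lit 12) (nat_lit 10))
    (@En.i (nat_lit 13200) (nat_lit 4) (nat_lit 14))
    (@En.i (nat_lit 5611) (nat_lit 14) (nat_lit 11))
    (@En.n l170 (nat_lit 2636) (nat_lit 13) (nat_lit 5))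
    (@En.n l50 (nat_lit 2761) (nat_lit 15) (nat_lit 2))))
  (@Cl.mk (nat_lit 0x200090006000d000d000c0003000300070004000b000e000a0002000e0005) (nat_lit 0x50b2100009c2090) (nat_lit 16) Lb.e (@T16.mk En
    (@En.n l25154 (nat_lit 1224) (nat_lit 14) (nat_lit 5))
    (@En.n l25155 (nat_lit 3075) (nat_lit 1) (nat_lit 14))
    (@En.n l7 (nat_lit 2762) (nat_lit 2) (nat_lit 2))
    (@En.n l25156 (nat_lit 2758) (nat_lit 3) (nat_lit 10))
    (@En.i (nat_lit 13203) (nat_lit 4) (nat_lit 14))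
    (@En.n l1684 (nat_lit 5453) (nat_lit 2) (nat_lit 11))
    (@En.n l10256 (nat_lit 2764) (nat_lit 6) (nat_lit 4))
    (@En.n l25157 (nat_lit 2790) (nat_lit 7) (nat_lit 7))
    (@En.n l23594 (nat_lit 1226) (nat_lit 8) (nat_lit 3))
    (@En.n l25158 (nat_lit 2760) (nat_lit 0) (nat_lit 3))
    (@En.n l25159 (nat_lit 1227) (nat_lit 11) (nat_lit 12))
    (@En.n l25160 (nat_lit 2760) (nat_lit 3) (nat_lit 13))
    (@En.n l10256 (nat_lit 1357) (nat_lit 13) (nat_lit 13))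
    (@En.i (nat_lit 1068) (nat_lit 14) (nat_lit 6))
    (@En.n l19792 (nat_lit 5994) (nat_lit 12) (nat_lit 9))
    (@En.n l17 (nat_lit 2762) (nat_lit 15) (nat_lit 2))))
  (@Cl.mk (nat_lit 0x20005000500090005000d000b000e0003000200070005000b000b000e000b) (nat_lit 0x30b2800000173) (nat_lit 16) Lb.e (@T16.mk En
    (@En.n l9466 (nat_lit 1151) (nat_lit 10) (nat_lit 11))
    (@En.n l9467 (nat_lit 2760) (nat_lit 11) (nat_lit 14))
    (@En.n l9468 (nat_lit 2760) (nat_lit 12) (nat_lit 11))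
    (@En.n l1386 (nat_lit 6004) (nat_lit 3) (nat_lit 11))
    (@En.n l4267 (nat_lit 2767) (nat_lit 4) (nat_lit 5))
    (@En.i (nat_lit 2793) (nat_lit 5) (nat_lit 7))
    (@En.n l172 (nat_lit 2763) (nat_lit 6) (nat_lit 2))
    (@En.n l28 (nat_lit 1224) (nat_lit 7) (nat_lit 3))
    (@En.n l499 (nat_lit 13750) (nat_lit 0) (nat_lit 14))
    (@En.n l77 (nat_lit 2638) (nat_lit 10) (nat_lit 11))
    (@En.n l9469 (nat_lit 1362) (nat_lit 11) (nat_lit 13))
    (@En.n l9470 (nat_lit 1072) (nat_lit 4) (nat_lit 5))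
    (@En.n l387 (nat_lit 5996) (nat_lit 13) (nat_lit 9))
    (@En.n l17 (nat_lit 3063) (nat_lit 14) (nat_lit 5))
    (@En.n l499 (nat_lit 3065) (nat_lit 7) (nat_lit 5))
    (@En.n l3 (nat_lit 2763) (nat_lit 15) (nat_lit 2))))
  (@Cl.mk (nat_lit 0x2000b0006000c000c000c0005000400040004000b000e000a0002000e0005) (nat_lit 0x40a140000002090) (nat_lit 16) Lb.e (@T16.mk En
    (@En.n l15478 (nat_lit 2766) (nat_lit 14) (nat_lit 5))
    (@En.n l16188 (nat_lit 3846) (nat_lit 1) (nat_lit 14))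
    (@En.n l17 (nat_lit 2764) (nat_lit 2) (nat_lit 2))
    (@En.n l16189 (nat_lit 2759) (nat_lit 3) (nat_lit 10))
    (@En.n l11905 (nat_lit 13201) (nat_lit 4) (nat_lit 14))
    (@En.i (nat_lit 5587) (nat_lit 2) (nat_lit 11))
    (@En.n l16190 (nat_lit 2765) (nat_lit 12) (nat_lit 4))
    (@En.n l16191 (nat_lit 1227) (nat_lit 7) (nat_lit 4))
    (@En.n l16188 (nat_lit 2730) (nat_lit 8) (nat_lit 4))
    (@En.i (nat_lit 2815) (nat_lit 9) (nat_lit 5))
    (@En.n l16192 (nat_lit 2998) (nat_lit 4) (nat_lit 12))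
    (@En.n l4380 (nat_lit 2761) (nat_lit 4) (nat_lit 12))
    (@En.i (nat_lit 2704) (nat_lit 13) (nat_lit 12))
    (@En.n l11905 (nat_lit 294) (nat_lit 14) (nat_lit 6))
    (@En.n l16193 (nat_lit 7475) (nat_lit 12) (nat_lit 11))
    (@En.n l107 (nat_lit 2764) (nat_lit 15) (nat_lit 2))))
  (@Cl.mk (nat_lit 0x2000600050004000b000e000a0002000e00050002000a0006000b000e000c) (nat_lit 0x9c8080080192) (nat_lit 16) Lb.e (@T16.mk En
    (@En.n l11458 (nat_lit 2764) (nat_lit 11) (nat_lit 12))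
    (@En.n l11459 (nat_lit 2635) (nat_lit 4) (nat_lit 14))
    (@En.n l9264 (nat_lit 2637) (nat_lit 2) (nat_lit 11))
    (@En.n l1408 (nat_lit 1028) (nat_lit 14) (nat_lit 6))
    (@En.n l11460 (nat_lit 7669) (nat_lit 4) (nat_lit 10))
    (@En.n l107 (nat_lit 2765) (nat_lit 5) (nat_lit 2))
    (@En.n l11461 (nat_lit 2638) (nat_lit 14) (nat_lit 5))
    (@En.n l11462 (nat_lit 3591) (nat_lit 1) (nat_lit 14))
    (@En.n l17 (nat_lit 2765) (nat_lit 8) (nat_lit 2))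
    (@En.n l11463 (nat_lit 2725) (nat_lit 10) (nat_lit 10))
    (@En.n l1408 (nat_lit 13204) (nat_lit 4) (nat_lit 14))
    (@En.n l11464 (nat_lit 12100) (nat_lit 12) (nat_lit 11))
    (@En.n l1408 (nat_lit 2762) (nat_lit 6) (nat_lit 4))
    (@En.n l11465 (nat_lit 2729) (nat_lit 14) (nat_lit 5))
    (@En.n l11466 (nat_lit 2813) (nat_lit 8) (nat_lit 6))
    (@En.n l50 (nat_lit 2765) (nat_lit 15) (nat_lit 2))))
  (@Cl.mk (nat_lit 0x200050005000b0005000c000c000c0005000400040004000b000b000e000b) (nat_lit 0x40a2400000113) (nat_lit 16) Lb.e (@T16.mk En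
    (@En.n l7427 (nat_lit 2724) (nat_lit 10) (nat_lit 11))
    (@En.n l11539 (nat_lit 2764) (nat_lit 4) (nat_lit 14))
    (@En.n l11540 (nat_lit 2764) (nat_lit 5) (nat_lit 11))
    (@En.n l11541 (nat_lit 5589) (nat_lit 3) (nat_lit 11))
    (@En.n l11542 (nat_lit 2638) (nat_lit 4) (nat_lit 4))
    (@En.n l11543 (nat_lit 1223) (nat_lit 5) (nat_lit 4))
    (@En.i (nat_lit 2731) (nat_lit 6) (nat_lit 4))
    (@En.n l11544 (nat_lit 2816) (nat_lit 7) (nat_lit 5))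
    (@En.n l742 (nat_lit 2895) (nat_lit 9) (nat_lit 12))
    (@En.n l396 (nat_lit 2767) (nat_lit 10) (nat_lit 12))
    (@En.n l11541 (nat_lit 2688) (nat_lit 11) (nat_lit 12))
    (@En.n l11545 (nat_lit 300) (nat_lit 12) (nat_lit 5))
    (@En.n l11546 (nat_lit 7476) (nat_lit 13) (nat_lit 11))
    (@En.n l4256 (nat_lit 2894) (nat_lit 14) (nat_lit 5))
    (@En.i (nat_lit 3587) (nat_lit 13) (nat_lit 5))
    (@En.n l936 (nat_lit 2766) (nat_lit 15) (nat_lit 2))))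
  (@Cl.mk (nat_lit 0x200050005000c0005000c000b0004000e000400020005000b000b000e000b) (nat_lit 0x4012090000111) (nat_lit 16) Lb.e (@T16.mk En
    (@En.n l3474 (nat_lit 1155) (nat_lit 11) (nat_lit 11))
    (@En.n l8032 (nat_lit 2761) (nat_lit 12) (nat_lit 14))
    (@En.n l8033 (nat_lit 2761) (nat_lit 13) (nat_lit 11))
    (@En.n l8034 (nat_lit 5613) (nat_lit 3) (nat_lit 11))
    (@En.i (nat_lit 2634) (nat_lit 4) (nat_lit 5))
    (@En.n l18 (nat_lit 2767) (nat_lit 5) (nat_lit 2))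
    (@En.n l50 (nat_lit 2766) (nat_lit 6) (nat_lit 4))
    (@En.n l3471 (nat_lit 2763) (nat_lit 8) (nat_lit 14))
    (@En.n l4250 (nat_lit 2818) (nat_lit 8) (nat_lit 4))
    (@En.n l2863 (nat_lit 2732) (nat_lit 3) (nat_lit 11))
    (@En.n l8034 (nat_lit 1367) (nat_lit 11) (nat_lit 12))
    (@En.n l6323 (nat_lit 1078) (nat_lit 5) (nat_lit 5))
    (@En.n l645 (nat_lit 8186) (nat_lit 13) (nat_lit 12))
    (@En.n l4256 (nat_lit 3062) (nat_lit 14) (nat_lit 5))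
    (@En.i (nat_lit 3064) (nat_lit 8) (nat_lit 5))
    (@En.n l936 (nat_lit 2767) (nat_lit 15) (nat_lit 2))))
noncomputable def a173 : T16 Cl := @T16.mk Cl
  (@Cl.mk (nat_lit 0x2000a000300090007000a000e00060002000d0007000600030009000e000d) (nat_lit 0x307016000000567) (nat_lit 16) Lb.e (@T16.mk En
    (@En.n l601 (nat_lit 1827) (nat_lit 9) (nat_lit 13))
    (@En.n l532 (nat_lit 11564) (nat_lit 1) (nat_lit 14))
    (@En.n l1690 (nat_lit 2770) (nat_lit 11) (nat_lit 9))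
    (@En.n l152 (nat_lit 2769) (nat_lit 3) (nat_lit 3))
    (@En.n l17721 (nat_lit 2054) (nat_lit 4) (nat_lit 6))
    (@En.n l97 (nat_lit 2156) (nat_lit 14) (nat_lit 7))
    (@En.i (nat_lit 7218) (nat_lit 7) (nat_lit 13))
    (@En.n l17 (nat_lit 2768) (nat_lit 7) (nat_lit 2))
    (@En.i (nat_lit 2553) (nat_lit 8) (nat_lit 6))
    (@En.i (nat_lit 1203) (nat_lit 10) (nat_lit 14))
    (@En.n l7622 (nat_lit 2705) (nat_lit 11) (nat_lit 10))
    (@En.i (nat_lit 2775) (nat_lit 12) (nat_lit 7))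
    (@En.n l532 (nat_lit 8897) (nat_lit 13) (nat_lit 9))
    (@En.i (nat_lit 1827) (nat_lit 5) (nat_lit 3))
    (@En.i (nat_lit 1303) (nat_lit 0) (nat_lit 10))
    (@En.n l7 (nat_lit 2768) (nat_lit 15) (nat_lit 2))))
  (@Cl.mk (nat_lit 0x2000a000300080007000b000e00060002000d0005000800030009000e000d) (nat_lit 0x305026006020577) (nat_lit 16) Lb.e (@T16.mk En
    (@En.n l601 (nat_lit 1824) (nat_lit 9) (nat_lit 13))
    (@En.n l532 (nat_lit 11565) (nat_lit 1) (nat_lit 14))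
    (@En.n l281 (nat_lit 3369) (nat_lit 11) (nat_lit 9))
    (@En.n l117 (nat_lit 2768) (nat_lit 3) (nat_lit 3))
    (@En.n l13111 (nat_lit 3665) (nat_lit 0) (nat_lit 8))
    (@En.i (nat_lit 2770) (nat_lit 14) (nat_lit 5))
    (@En.n l2125 (nat_lit 7288) (nat_lit 7) (nat_lit 13))
    (@En.n l17 (nat_lit 2769) (nat_lit 7) (nat_lit 2))
    (@En.n l3098 (nat_lit 2781) (nat_lit 8) (nat_lit 6))
    (@En.i (nat_lit 1209) (nat_lit 4) (nat_lit 14))
    (@En.n l207 (nat_lit 2772) (nat_lit 11) (nat_lit 11))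
    (@En.i (nat_lit 2774) (nat_lit 12) (nat_lit 7))
    (@En.n l532 (nat_lit 8902) (nat_lit 13) (nat_lit 8))
    (@En.i (nat_lit 1824) (nat_lit 5) (nat_lit 3))
    (@En.i (nat_lit 1305) (nat_lit 0) (nat_lit 10))
    (@En.n l7 (nat_lit 2769) (nat_lit 15) (nat_lit 2))))
  (@Cl.mk (nat_lit 0x20005000800060009000e000d00020009000300080007000b000a000e0007) (nat_lit 0x10456030502270) (nat_lit 16) Lb.e (@T16.mk En
    (@En.n l3098 (nat_lit 2802) (nat_lit 7) (nat_lit 7))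
    (@En.n l3 (nat_lit 2769) (nat_lit 9) (nat_lit 14))
    (@En.n l3 (nat_lit 2768) (nat_lit 10) (nat_lit 10))
    (@En.n l207 (nat_lit 2771) (nat_lit 3) (nat_lit 11))
    (@En.i (nat_lit 2773) (nat_lit 4) (nat_lit 7))
    (@En.n l532 (nat_lit 8896) (nat_lit 5) (nat_lit 8))
    (@En.n l7174 (nat_lit 1822) (nat_lit 6) (nat_lit 3))
    (@En.i (nat_lit 1304) (nat_lit 0) (nat_lit 9))
    (@En.n l7 (nat_lit 2770) (nat_lit 8) (nat_lit 2))
    (@En.n l7175 (nat_lit 1822) (nat_lit 10) (nat_lit 13))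
    (@En.n l532 (nat_lit 11567) (nat_lit 11) (nat_lit 14))
    (@En.n l7176 (nat_lit 3368) (nat_lit 12) (nat_lit 9))
    (@En.i (nat_lit 763) (nat_lit 13) (nat_lit 6))
    (@En.n l7177 (nat_lit 2155) (nat_lit 4) (nat_lit 8))
    (@En.n l3106 (nat_lit 7388) (nat_lit 5) (nat_lit 5))
    (@En.n l17 (nat_lit 2770) (nat_lit 15) (nat_lit 2))))
  (@Cl.mk (nat_lit 0x20005000d000800070003000e000d0002000a00030008000b0009000e0006) (nat_lit 0x12007703051170) (nat_lit 16) Lb.e (@T16.mk En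
    (@En.n l3098 (nat_lit 2552) (nat_lit 8) (nat_lit 6))
    (@En.n l3 (nat_lit 2772) (nat_lit 10) (nat_lit 14))
    (@En.n l3 (nat_lit 2556) (nat_lit 11) (nat_lit 9))
    (@En.n l919 (nat_lit 1597) (nat_lit 3) (nat_lit 11))
    (@En.i (nat_lit 8898) (nat_lit 4) (nat_lit 8))
    (@En.i (nat_lit 1818) (nat_lit 5) (nat_lit 3))
    (@En.n l3651 (nat_lit 1101) (nat_lit 0) (nat_lit 10))
    (@En.n l7 (nat_lit 2771) (nat_lit 7) (nat_lit 2))
    (@En.n l601 (nat_lit 1818) (nat_lit 9) (nat_lit 13))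
    (@En.n l5042 (nat_lit 11570) (nat_lit 10) (nat_lit 14))
    (@En.n l11 (nat_lit 2773) (nat_lit 10) (nat_lit 3))
    (@En.n l9929 (nat_lit 1841) (nat_lit 12) (nat_lit 7))
    (@En.i (nat_lit 2770) (nat_lit 13) (nat_lit 8))
    (@En.n l9930 (nat_lit 2768) (nat_lit 6) (nat_lit 13))
    (@En.n l3106 (nat_lit 4013) (nat_lit 13) (nat_lit 5))
    (@En.n l17 (nat_lit 2771) (nat_lit 15) (nat_lit 2))))
  (@Cl.mk (nat_lit 0x2000b00030008000b000e00050002000c0005000d000800040003000e000d) (nat_lit 0x105160050130088) (nat_lit 16) Lb.e (@T16.mk En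
    (@En.n l601 (nat_lit 1829) (nat_lit 8) (nat_lit 13))
    (@En.n l287 (nat_lit 11569) (nat_lit 1) (nat_lit 14))
    (@En.n l11 (nat_lit 2774) (nat_lit 2) (nat_lit 3))
    (@En.i (nat_lit 2705) (nat_lit 3) (nat_lit 4))
    (@En.i (nat_lit 2769) (nat_lit 4) (nat_lit 8))
    (@En.n l3478 (nat_lit 1203) (nat_lit 6) (nat_lit 13))
    (@En.i (nat_lit 2771) (nat_lit 14) (nat_lit 5))
    (@En.n l2125 (nat_lit 7287) (nat_lit 8) (nat_lit 12))
    (@En.n l17 (nat_lit 2772) (nat_lit 8) (nat_lit 2))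
    (@En.n l3098 (nat_lit 2554) (nat_lit 9) (nat_lit 5))
    (@En.i (nat_lit 1214) (nat_lit 11) (nat_lit 14))
    (@En.n l253 (nat_lit 2719) (nat_lit 7) (nat_lit 11))
    (@En.i (nat_lit 8901) (nat_lit 3) (nat_lit 8))
    (@En.i (nat_lit 1829) (nat_lit 4) (nat_lit 3))
    (@En.i (nat_lit 372) (nat_lit 0) (nat_lit 11))
    (@En.n l7 (nat_lit 2772) (nat_lit 15) (nat_lit 2))))
  (@Cl.mk (nat_lit 0x20005000d000600090003000e000d0002000a00030007000b000a000e0006) (nat_lit 0x70507701001260) (nat_lit 16) Lb.e (@T16.mk En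
    (@En.n l3098 (nat_lit 2780) (nat_lit 8) (nat_lit 6))
    (@En.n l3 (nat_lit 2774) (nat_lit 10) (nat_lit 14))
    (@En.n l3 (nat_lit 2775) (nat_lit 11) (nat_lit 10))
    (@En.n l3549 (nat_lit 969) (nat_lit 3) (nat_lit 11))
    (@En.i (nat_lit 4074) (nat_lit 4) (nat_lit 7))
    (@En.i (nat_lit 1823) (nat_lit 5) (nat_lit 3))
    (@En.i (nat_lit 370) (nat_lit 0) (nat_lit 10))
    (@En.n l7 (nat_lit 2773) (nat_lit 7) (nat_lit 2))
    (@En.n l601 (nat_lit 1823) (nat_lit 9) (nat_lit 13))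
    (@En.i (nat_lit 7255) (nat_lit 10) (nat_lit 14))
    (@En.i (nat_lit 2771) (nat_lit 10) (nat_lit 3))
    (@En.n l5033 (nat_lit 3445) (nat_lit 12) (nat_lit 9))
    (@En.i (nat_lit 2932) (nat_lit 13) (nat_lit 6))
    (@En.n l5035 (nat_lit 2769) (nat_lit 6) (nat_lit 13))
    (@En.n l3106 (nat_lit 7270) (nat_lit 13) (nat_lit 5))
    (@En.n l17 (nat_lit 2773) (nat_lit 15) (nat_lit 2))))
  (@Cl.mk (nat_lit 0x2000b00030007000b000e00050002000d0005000d000300090003000e000d) (nat_lit 0x1001500b0206088) (nat_lit 16) Lb.e (@T16.mk En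
    (@En.n l601 (nat_lit 2776) (nat_lit 8) (nat_lit 13))
    (@En.i (nat_lit 7258) (nat_lit 1) (nat_lit 14))
    (@En.i (nat_lit 2772) (nat_lit 2) (nat_lit 3))
    (@En.n l253 (nat_lit 3378) (nat_lit 11) (nat_lit 9))
    (@En.n l117 (nat_lit 2775) (nat_lit 4) (nat_lit 3))
    (@En.n l625 (nat_lit 1209) (nat_lit 0) (nat_lit 13))
    (@En.i (nat_lit 2773) (nat_lit 14) (nat_lit 5))
    (@En.n l2125 (nat_lit 7264) (nat_lit 8) (nat_lit 13))
    (@En.n l17 (nat_lit 2774) (nat_lit 8) (nat_lit 2))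
    (@En.n l3098 (nat_lit 2778) (nat_lit 9) (nat_lit 5))
    (@En.i (nat_lit 1215) (nat_lit 11) (nat_lit 14))
    (@En.n l253 (nat_lit 963) (nat_lit 12) (nat_lit 11))
    (@En.i (nat_lit 4072) (nat_lit 13) (nat_lit 7))
    (@En.i (nat_lit 2776) (nat_lit 4) (nat_lit 3))
    (@En.i (nat_lit 368) (nat_lit 0) (nat_lit 11))
    (@En.n l7 (nat_lit 2774) (nat_lit 15) (nat_lit 2))))
  (@Cl.mk (nat_lit 0x2000b00030007000a000e00050002000d000c0006000300090004000e000d) (nat_lit 0x1001600b6006088) (nat_lit 16) Lb.e (@T16.mk En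
    (@En.n l601 (nat_lit 2777) (nat_lit 8) (nat_lit 13))
    (@En.n l1897 (nat_lit 7259) (nat_lit 1) (nat_lit 14))
    (@En.i (nat_lit 2556) (nat_lit 2) (nat_lit 4))
    (@En.n l1690 (nat_lit 2773) (nat_lit 11) (nat_lit 9))
    (@En.n l152 (nat_lit 2774) (nat_lit 4) (nat_lit 3))
    (@En.i (nat_lit 2931) (nat_lit 0) (nat_lit 6))
    (@En.n l619 (nat_lit 2772) (nat_lit 7) (nat_lit 12))
    (@En.i (nat_lit 7262) (nat_lit 8) (nat_lit 13))
    (@En.n l17 (nat_lit 2775) (nat_lit 8) (nat_lit 2))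
    (@En.i (nat_lit 2779) (nat_lit 9) (nat_lit 5))
    (@En.i (nat_lit 1147) (nat_lit 11) (nat_lit 14))
    (@En.n l3531 (nat_lit 1149) (nat_lit 8) (nat_lit 10))
    (@En.i (nat_lit 4073) (nat_lit 13) (nat_lit 7))
    (@En.i (nat_lit 2777) (nat_lit 4) (nat_lit 3))
    (@En.i (nat_lit 366) (nat_lit 0) (nat_lit 11))
    (@En.n l7 (nat_lit 2775) (nat_lit 15) (nat_lit 2))))
  (@Cl.mk (nat_lit 0x2000d0005000d000300090003000d000d000a000300030007000b000e0006) (nat_lit 0xb02060792000160) (nat_lit 16) Lb.e (@T16.mk En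
    (@En.n l19359 (nat_lit 2788) (nat_lit 4) (nat_lit 6))
    (@En.i (nat_lit 690) (nat_lit 4) (nat_lit 14))
    (@En.n l253 (nat_lit 695) (nat_lit 2) (nat_lit 11))
    (@En.i (nat_lit 8358) (nat_lit 3) (nat_lit 7))
    (@En.n l50 (nat_lit 2774) (nat_lit 13) (nat_lit 3))
    (@En.i (nat_lit 2783) (nat_lit 0) (nat_lit 3))
    (@En.i (nat_lit 1548) (nat_lit 0) (nat_lit 10))
    (@En.n l601 (nat_lit 2783) (nat_lit 3) (nat_lit 13))
    (@En.i (nat_lit 12481) (nat_lit 9) (nat_lit 13))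
    (@En.i (nat_lit 1829) (nat_lit 9) (nat_lit 3))
    (@En.n l253 (nat_lit 3384) (nat_lit 11) (nat_lit 9))
    (@En.n l117 (nat_lit 2777) (nat_lit 11) (nat_lit 3))
    (@En.n l625 (nat_lit 1208) (nat_lit 0) (nat_lit 13))
    (@En.i (nat_lit 1823) (nat_lit 14) (nat_lit 5))
    (@En.n l2125 (nat_lit 7263) (nat_lit 9) (nat_lit 13))
    (@En.n l17 (nat_lit 2776) (nat_lit 15) (nat_lit 2))))
  (@Cl.mk (nat_lit 0x2000d000c0006000300090004000d000d000a000300030007000a000e0006) (nat_lit 0xb10060792000160) (nat_lit 16) Lb.e (@T16.mk En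
    (@En.i (nat_lit 2789) (nat_lit 4) (nat_lit 6))
    (@En.i (nat_lit 691) (nat_lit 1) (nat_lit 14))
    (@En.n l3531 (nat_lit 1154) (nat_lit 8) (nat_lit 10))
    (@En.i (nat_lit 8357) (nat_lit 3) (nat_lit 7))
    (@En.n l50 (nat_lit 2775) (nat_lit 13) (nat_lit 3))
    (@En.i (nat_lit 2782) (nat_lit 0) (nat_lit 3))
    (@En.i (nat_lit 1549) (nat_lit 0) (nat_lit 10))
    (@En.n l601 (nat_lit 2782) (nat_lit 3) (nat_lit 13))
    (@En.n l1897 (nat_lit 12479) (nat_lit 9) (nat_lit 13))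
    (@En.i (nat_lit 1842) (nat_lit 9) (nat_lit 4))
    (@En.n l1690 (nat_lit 1823) (nat_lit 11) (nat_lit 9))
    (@En.n l152 (nat_lit 2776) (nat_lit 11) (nat_lit 3))
    (@En.i (nat_lit 2927) (nat_lit 0) (nat_lit 6))
    (@En.n l619 (nat_lit 1829) (nat_lit 14) (nat_lit 12))
    (@En.i (nat_lit 7229) (nat_lit 9) (nat_lit 13))
    (@En.n l17 (nat_lit 2777) (nat_lit 15) (nat_lit 2))))
  (@Cl.mk (nat_lit 0x2000b000b00040008000c00050005000d0004000d000300080003000e000c) (nat_lit 0x20010040406000) (nat_lit 16) Lb.e (@T16.mk En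
    (@En.i (nat_lit 2788) (nat_lit 12) (nat_lit 12))
    (@En.i (nat_lit 7560) (nat_lit 1) (nat_lit 14))
    (@En.i (nat_lit 2554) (nat_lit 2) (nat_lit 3))
    (@En.n l766 (nat_lit 3441) (nat_lit 3) (nat_lit 8))
    (@En.n l345 (nat_lit 2779) (nat_lit 4) (nat_lit 3))
    (@En.n l5347 (nat_lit 3008) (nat_lit 0) (nat_lit 13))
    (@En.i (nat_lit 2780) (nat_lit 6) (nat_lit 4))
    (@En.n l9967 (nat_lit 9144) (nat_lit 8) (nat_lit 13))
    (@En.n l152 (nat_lit 3362) (nat_lit 11) (nat_lit 5))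
    (@En.n l3851 (nat_lit 9825) (nat_lit 9) (nat_lit 5))
    (@En.n l4130 (nat_lit 2722) (nat_lit 11) (nat_lit 12))
    (@En.n l387 (nat_lit 6317) (nat_lit 12) (nat_lit 8))
    (@En.i (nat_lit 4245) (nat_lit 7) (nat_lit 4))
    (@En.n l3536 (nat_lit 2774) (nat_lit 14) (nat_lit 11))
    (@En.i (nat_lit 4229) (nat_lit 1) (nat_lit 11))
    (@En.n l18 (nat_lit 2778) (nat_lit 15) (nat_lit 2))))
  (@Cl.mk (nat_lit 0x2000b000b00040008000b00050005000d000c0005000300080004000e000c) (nat_lit 0x20410041003000) (nat_lit 16) Lb.e (@T16.mk En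
    (@En.n l601 (nat_lit 2789) (nat_lit 12) (nat_lit 12))
    (@En.n l1897 (nat_lit 7563) (nat_lit 1) (nat_lit 14))
    (@En.i (nat_lit 2549) (nat_lit 2) (nat_lit 4))
    (@En.n l3529 (nat_lit 2780) (nat_lit 3) (nat_lit 8))
    (@En.n l2710 (nat_lit 2778) (nat_lit 4) (nat_lit 3))
    (@En.i (nat_lit 3353) (nat_lit 0) (nat_lit 5))
    (@En.n l2749 (nat_lit 2554) (nat_lit 7) (nat_lit 12))
    (@En.n l3530 (nat_lit 9143) (nat_lit 8) (nat_lit 13))
    (@En.n l1071 (nat_lit 3360) (nat_lit 11) (nat_lit 5))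
    (@En.i (nat_lit 9824) (nat_lit 9) (nat_lit 5))
    (@En.n l3531 (nat_lit 1153) (nat_lit 7) (nat_lit 11))
    (@En.n l1073 (nat_lit 6310) (nat_lit 12) (nat_lit 8))
    (@En.n l3532 (nat_lit 4322) (nat_lit 7) (nat_lit 4))
    (@En.n l61 (nat_lit 2775) (nat_lit 14) (nat_lit 11))
    (@En.i (nat_lit 4227) (nat_lit 1) (nat_lit 11))
    (@En.n l7 (nat_lit 2779) (nat_lit 15) (nat_lit 2))))
  (@Cl.mk (nat_lit 0x2000a000a00040008000c000b000600060004000d000500080003000e000c) (nat_lit 0x420592000002002) (nat_lit 16) Lb.e (@T16.mk En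
    (@En.i (nat_lit 2801) (nat_lit 14) (nat_lit 12))
    (@En.i (nat_lit 7254) (nat_lit 1) (nat_lit 14))
    (@En.i (nat_lit 2552) (nat_lit 2) (nat_lit 3))
    (@En.n l2359 (nat_lit 3443) (nat_lit 10) (nat_lit 8))
    (@En.n l9966 (nat_lit 3352) (nat_lit 4) (nat_lit 5))
    (@En.n l127 (nat_lit 2781) (nat_lit 6) (nat_lit 13))
    (@En.n l3535 (nat_lit 9577) (nat_lit 6) (nat_lit 4))
    (@En.n l152 (nat_lit 3359) (nat_lit 10) (nat_lit 6))
    (@En.n l936 (nat_lit 9417) (nat_lit 8) (nat_lit 6))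
    (@En.n l870 (nat_lit 2779) (nat_lit 10) (nat_lit 11))
    (@En.n l4291 (nat_lit 3048) (nat_lit 11) (nat_lit 12))
    (@En.n l387 (nat_lit 6318) (nat_lit 12) (nat_lit 8))
    (@En.i (nat_lit 4302) (nat_lit 13) (nat_lit 4))
    (@En.n l3536 (nat_lit 2773) (nat_lit 6) (nat_lit 10))
    (@En.i (nat_lit 4225) (nat_lit 1) (nat_lit 10))
    (@En.n l18 (nat_lit 2780) (nat_lit 15) (nat_lit 2))))
  (@Cl.mk (nat_lit 0x2000a000a000400090008000c00060006000d0004000700030008000e000c) (nat_lit 0x4071100b000300) (nat_lit 16) Lb.e (@T16.mk En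
    (@En.i (nat_lit 2797) (nat_lit 13) (nat_lit 12))
    (@En.n l396 (nat_lit 11566) (nat_lit 1) (nat_lit 14))
    (@En.n l15543 (nat_lit 3370) (nat_lit 2) (nat_lit 8))
    (@En.n l345 (nat_lit 2553) (nat_lit 3) (nat_lit 3))
    (@En.i (nat_lit 3024) (nat_lit 11) (nat_lit 7))
    (@En.i (nat_lit 2802) (nat_lit 5) (nat_lit 4))
    (@En.n l9967 (nat_lit 8651) (nat_lit 7) (nat_lit 13))
    (@En.n l152 (nat_lit 3364) (nat_lit 10) (nat_lit 6))
    (@En.n l3851 (nat_lit 9829) (nat_lit 8) (nat_lit 6))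
    (@En.n l8 (nat_lit 2554) (nat_lit 10) (nat_lit 12))
    (@En.i (nat_lit 2778) (nat_lit 11) (nat_lit 8))
    (@En.n l766 (nat_lit 8895) (nat_lit 12) (nat_lit 9))
    (@En.i (nat_lit 4249) (nat_lit 8) (nat_lit 4))
    (@En.n l3536 (nat_lit 2769) (nat_lit 14) (nat_lit 10))
    (@En.i (nat_lit 4233) (nat_lit 1) (nat_lit 10))
    (@En.n l18 (nat_lit 2781) (nat_lit 15) (nat_lit 2))))
  (@Cl.mk (nat_lit 0x20007000a000e00070002000d000c0006000300090004000d0009000e0003) (nat_lit 0x8400b100608190) (nat_lit 16) Lb.e (@T16.mk En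
    (@En.n l7 (nat_lit 2777) (nat_lit 5) (nat_lit 3))
    (@En.n l6574 (nat_lit 13438) (nat_lit 0) (nat_lit 14))
    (@En.i (nat_lit 1089) (nat_lit 2) (nat_lit 9))
    (@En.n l17578 (nat_lit 12075) (nat_lit 9) (nat_lit 13))
    (@En.n l15450 (nat_lit 2698) (nat_lit 4) (nat_lit 4))
    (@En.n l18064 (nat_lit 1820) (nat_lit 11) (nat_lit 9))
    (@En.n l152 (nat_lit 2783) (nat_lit 6) (nat_lit 3))
    (@En.n l10262 (nat_lit 2929) (nat_lit 7) (nat_lit 6))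
    (@En.n l619 (nat_lit 1828) (nat_lit 9) (nat_lit 12))
    (@En.n l19497 (nat_lit 7277) (nat_lit 10) (nat_lit 13))
    (@En.n l17 (nat_lit 2782) (nat_lit 10) (nat_lit 2))
    (@En.n l19652 (nat_lit 2785) (nat_lit 12) (nat_lit 7))
    (@En.i (nat_lit 689) (nat_lit 13) (nat_lit 14))
    (@En.n l19653 (nat_lit 2754) (nat_lit 8) (nat_lit 10))
    (@En.i (nat_lit 8238) (nat_lit 3) (nat_lit 7))
    (@En.n l50 (nat_lit 2782) (nat_lit 15) (nat_lit 2))))
  (@Cl.mk (nat_lit 0x20007000b000e00070002000d0005000d000300090003000d0009000e0003) (nat_lit 0x1400b020608190) (nat_lit 16) Lb.e (@T16.mk En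
    (@En.n l7 (nat_lit 2776) (nat_lit 5) (nat_lit 3))
    (@En.n l12506 (nat_lit 13439) (nat_lit 0) (nat_lit 14))
    (@En.i (nat_lit 1090) (nat_lit 2) (nat_lit 9))
    (@En.n l17578 (nat_lit 12483) (nat_lit 9) (nat_lit 13))
    (@En.i (nat_lit 1828) (nat_lit 4) (nat_lit 3))
    (@En.n l19004 (nat_lit 3376) (nat_lit 11) (nat_lit 9))
    (@En.n l117 (nat_lit 2782) (nat_lit 6) (nat_lit 3))
    (@En.n l625 (nat_lit 1210) (nat_lit 0) (nat_lit 13))
    (@En.n l12099 (nat_lit 1820) (nat_lit 14) (nat_lit 5))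
    (@En.n l2125 (nat_lit 7275) (nat_lit 10) (nat_lit 13))
    (@En.n l17 (nat_lit 2783) (nat_lit 10) (nat_lit 2))
    (@En.n l19005 (nat_lit 2784) (nat_lit 12) (nat_lit 7))
    (@En.i (nat_lit 686) (nat_lit 13) (nat_lit 14))
    (@En.n l253 (nat_lit 973) (nat_lit 14) (nat_lit 11))
    (@En.i (nat_lit 8236) (nat_lit 3) (nat_lit 7))
    (@En.n l50 (nat_lit 2783) (nat_lit 15) (nat_lit 2))))
noncomputable def a174 : T16 Cl := @T16.mk Cl
  (@Cl.mk (nat_lit 0x20008000c00070007000d0004000d000300080003000c00090009000e0004) (nat_lit 0xa0000206010200) (nat_lit 16) Lb.e (@T16.mk En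
    (@En.n l34752 (nat_lit 2788) (nat_lit 8) (nat_lit 4))
    (@En.i (nat_lit 4586) (nat_lit 1) (nat_lit 14))
    (@En.n l34753 (nat_lit 2783) (nat_lit 2) (nat_lit 9))
    (@En.n l34754 (nat_lit 3120) (nat_lit 3) (nat_lit 9))
    (@En.i (nat_lit 75) (nat_lit 5) (nat_lit 12))
    (@En.n l34755 (nat_lit 2787) (nat_lit 5) (nat_lit 3))
    (@En.n l3549 (nat_lit 3389) (nat_lit 6) (nat_lit 8))
    (@En.i (nat_lit 2785) (nat_lit 7) (nat_lit 3))
    (@En.n l2571 (nat_lit 2951) (nat_lit 0) (nat_lit 13))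
    (@En.i (nat_lit 2786) (nat_lit 9) (nat_lit 4))
    (@En.n l34756 (nat_lit 9147) (nat_lit 11) (nat_lit 13))
    (@En.n l20485 (nat_lit 2790) (nat_lit 12) (nat_lit 7))
    (@En.n l34757 (nat_lit 7953) (nat_lit 13) (nat_lit 7))
    (@En.n l24928 (nat_lit 2727) (nat_lit 14) (nat_lit 12))
    (@En.n l34758 (nat_lit 8367) (nat_lit 6) (nat_lit 8))
    (@En.n l17 (nat_lit 2784) (nat_lit 15) (nat_lit 2))))
  (@Cl.mk (nat_lit 0x20008000b00070007000d000c0005000300080004000c00090009000e0004) (nat_lit 0x70000006000200) (nat_lit 16) Lb.e (@T16.mk En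
    (@En.n l20479 (nat_lit 2789) (nat_lit 8) (nat_lit 4))
    (@En.i (nat_lit 4574) (nat_lit 1) (nat_lit 14))
    (@En.n l20480 (nat_lit 2782) (nat_lit 2) (nat_lit 9))
    (@En.n l20481 (nat_lit 3123) (nat_lit 3) (nat_lit 9))
    (@En.n l20482 (nat_lit 10607) (nat_lit 5) (nat_lit 12))
    (@En.n l7775 (nat_lit 2687) (nat_lit 5) (nat_lit 4))
    (@En.n l343 (nat_lit 2786) (nat_lit 6) (nat_lit 8))
    (@En.n l28 (nat_lit 2784) (nat_lit 7) (nat_lit 3))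
    (@En.n l20483 (nat_lit 2935) (nat_lit 0) (nat_lit 5))
    (@En.n l20484 (nat_lit 2787) (nat_lit 10) (nat_lit 12))
    (@En.n l7775 (nat_lit 9148) (nat_lit 11) (nat_lit 13))
    (@En.n l20485 (nat_lit 2791) (nat_lit 12) (nat_lit 7))
    (@En.n l11323 (nat_lit 7952) (nat_lit 13) (nat_lit 7))
    (@En.n l20483 (nat_lit 2757) (nat_lit 7) (nat_lit 11))
    (@En.n l20486 (nat_lit 8366) (nat_lit 6) (nat_lit 8))
    (@En.n l17 (nat_lit 2785) (nat_lit 15) (nat_lit 2))))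
  (@Cl.mk (nat_lit 0x20008000c000b000800080004000d000500080003000c00080008000e0004) (nat_lit 0x8400005002200) (nat_lit 16) Lb.e (@T16.mk En
    (@En.n l34752 (nat_lit 2801) (nat_lit 10) (nat_lit 4))
    (@En.i (nat_lit 4576) (nat_lit 1) (nat_lit 14))
    (@En.n l36495 (nat_lit 1820) (nat_lit 8) (nat_lit 8))
    (@En.n l36496 (nat_lit 3125) (nat_lit 3) (nat_lit 8))
    (@En.n l36497 (nat_lit 10606) (nat_lit 5) (nat_lit 12))
    (@En.n l36498 (nat_lit 2807) (nat_lit 5) (nat_lit 3))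
    (@En.n l919 (nat_lit 3398) (nat_lit 6) (nat_lit 8))
    (@En.n l36499 (nat_lit 2524) (nat_lit 7) (nat_lit 5))
    (@En.n l36500 (nat_lit 2808) (nat_lit 9) (nat_lit 13))
    (@En.n l24436 (nat_lit 7396) (nat_lit 9) (nat_lit 4))
    (@En.n l20485 (nat_lit 2795) (nat_lit 11) (nat_lit 8))
    (@En.n l36501 (nat_lit 9408) (nat_lit 12) (nat_lit 8))
    (@En.n l55 (nat_lit 2785) (nat_lit 13) (nat_lit 11))
    (@En.n l24438 (nat_lit 3037) (nat_lit 14) (nat_lit 12))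
    (@En.n l36502 (nat_lit 8480) (nat_lit 14) (nat_lit 8))
    (@En.n l17 (nat_lit 2786) (nat_lit 15) (nat_lit 2))))
  (@Cl.mk (nat_lit 0x20009000c00070007000c0004000d000700040003000c00090009000e0004) (nat_lit 0x6100a0100000200) (nat_lit 16) Lb.e (@T16.mk En
    (@En.n l19241 (nat_lit 2796) (nat_lit 10) (nat_lit 4))
    (@En.n l22398 (nat_lit 3660) (nat_lit 1) (nat_lit 14))
    (@En.n l22399 (nat_lit 1828) (nat_lit 2) (nat_lit 9))
    (@En.i (nat_lit 3121) (nat_lit 3) (nat_lit 9))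
    (@En.n l2584 (nat_lit 11939) (nat_lit 5) (nat_lit 12))
    (@En.n l22400 (nat_lit 2784) (nat_lit 5) (nat_lit 3))
    (@En.n l22401 (nat_lit 2702) (nat_lit 6) (nat_lit 4))
    (@En.n l22402 (nat_lit 2808) (nat_lit 7) (nat_lit 7))
    (@En.n l22403 (nat_lit 1213) (nat_lit 9) (nat_lit 13))
    (@En.n l22404 (nat_lit 2807) (nat_lit 9) (nat_lit 4))
    (@En.i (nat_lit 8661) (nat_lit 11) (nat_lit 12))
    (@En.n l22405 (nat_lit 2813) (nat_lit 12) (nat_lit 7))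
    (@En.n l22406 (nat_lit 7950) (nat_lit 13) (nat_lit 7))
    (@En.i (nat_lit 2728) (nat_lit 6) (nat_lit 12))
    (@En.n l19241 (nat_lit 8788) (nat_lit 14) (nat_lit 9))
    (@En.n l7 (nat_lit 2787) (nat_lit 15) (nat_lit 2))))
  (@Cl.mk (nat_lit 0x300080003000c000c000a000a000400040008000c00060006000d0004000d) (nat_lit 0x20a203005900002) (nat_lit 16) Lb.e (@T16.mk En
    (@En.n l5347 (nat_lit 3006) (nat_lit 0) (nat_lit 13))
    (@En.i (nat_lit 2801) (nat_lit 3) (nat_lit 4))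
    (@En.n l9931 (nat_lit 9142) (nat_lit 2) (nat_lit 13))
    (@En.n l8649 (nat_lit 2792) (nat_lit 10) (nat_lit 6))
    (@En.n l3851 (nat_lit 7956) (nat_lit 4) (nat_lit 6))
    (@En.n l9463 (nat_lit 2723) (nat_lit 7) (nat_lit 12))
    (@En.n l612 (nat_lit 8362) (nat_lit 6) (nat_lit 8))
    (@En.n l217 (nat_lit 2778) (nat_lit 12) (nat_lit 4))
    (@En.n l5 (nat_lit 4242) (nat_lit 8) (nat_lit 4))
    (@En.n l8652 (nat_lit 2776) (nat_lit 6) (nat_lit 10))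
    (@En.n l20548 (nat_lit 4237) (nat_lit 11) (nat_lit 10))
    (@En.n l20549 (nat_lit 2784) (nat_lit 4) (nat_lit 12))
    (@En.i (nat_lit 10606) (nat_lit 13) (nat_lit 12))
    (@En.i (nat_lit 2796) (nat_lit 15) (nat_lit 3))
    (@En.n l766 (nat_lit 3380) (nat_lit 0) (nat_lit 8))
    (@En.n l20550 (nat_lit 2789) (nat_lit 15) (nat_lit 3))))
  (@Cl.mk (nat_lit 0x300080004000c000c000a000a000400040008000b00060006000d000c0005) (nat_lit 0x60a133000100a00) (nat_lit 16) Lb.e (@T16.mk En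
    (@En.i (nat_lit 2934) (nat_lit 0) (nat_lit 5))
    (@En.n l8637 (nat_lit 2796) (nat_lit 4) (nat_lit 12))
    (@En.n l8638 (nat_lit 9141) (nat_lit 2) (nat_lit 13))
    (@En.n l8639 (nat_lit 2793) (nat_lit 10) (nat_lit 6))
    (@En.n l4172 (nat_lit 7958) (nat_lit 4) (nat_lit 6))
    (@En.n l8640 (nat_lit 1155) (nat_lit 7) (nat_lit 11))
    (@En.i (nat_lit 8360) (nat_lit 6) (nat_lit 8))
    (@En.n l50 (nat_lit 2779) (nat_lit 12) (nat_lit 4))
    (@En.n l8641 (nat_lit 4251) (nat_lit 8) (nat_lit 4))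
    (@En.n l61 (nat_lit 2777) (nat_lit 6) (nat_lit 10))
    (@En.i (nat_lit 4294) (nat_lit 11) (nat_lit 10))
    (@En.n l8642 (nat_lit 2785) (nat_lit 4) (nat_lit 12))
    (@En.n l8643 (nat_lit 10605) (nat_lit 13) (nat_lit 12))
    (@En.i (nat_lit 2555) (nat_lit 4) (nat_lit 4))
    (@En.n l8644 (nat_lit 2801) (nat_lit 0) (nat_lit 8))
    (@En.n l6252 (nat_lit 2788) (nat_lit 15) (nat_lit 3))))
  (@Cl.mk (nat_lit 0x20009000d0007000d0003000d000300070003000b000e00090002000e0005) (nat_lit 0x460a00000061000) (nat_lit 16) Lb.e (@T16.mk En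
    (@En.n l18 (nat_lit 2792) (nat_lit 14) (nat_lit 5))
    (@En.n l1531 (nat_lit 4424) (nat_lit 1) (nat_lit 14))
    (@En.n l3 (nat_lit 2790) (nat_lit 2) (nat_lit 2))
    (@En.n l1531 (nat_lit 2784) (nat_lit 3) (nat_lit 9))
    (@En.n l3870 (nat_lit 13299) (nat_lit 4) (nat_lit 14))
    (@En.i (nat_lit 12483) (nat_lit 2) (nat_lit 11))
    (@En.i (nat_lit 2813) (nat_lit 6) (nat_lit 3))
    (@En.n l5787 (nat_lit 3381) (nat_lit 7) (nat_lit 7))
    (@En.i (nat_lit 2791) (nat_lit 8) (nat_lit 3))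
    (@En.i (nat_lit 2819) (nat_lit 0) (nat_lit 13))
    (@En.i (nat_lit 2795) (nat_lit 10) (nat_lit 3))
    (@En.n l3870 (nat_lit 3238) (nat_lit 12) (nat_lit 13))
    (@En.n l117 (nat_lit 6679) (nat_lit 13) (nat_lit 7))
    (@En.n l21003 (nat_lit 2730) (nat_lit 14) (nat_lit 13))
    (@En.n l1738 (nat_lit 8444) (nat_lit 12) (nat_lit 9))
    (@En.n l17 (nat_lit 2790) (nat_lit 15) (nat_lit 2))))
  (@Cl.mk (nat_lit 0x20009000c0007000d000c0004000300070004000b000e00090002000e0005) (nat_lit 0x460b00000001000) (nat_lit 16) Lb.e (@T16.mk En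
    (@En.n l18 (nat_lit 2793) (nat_lit 14) (nat_lit 5))
    (@En.n l1531 (nat_lit 4425) (nat_lit 1) (nat_lit 14))
    (@En.n l3 (nat_lit 2791) (nat_lit 2) (nat_lit 2))
    (@En.n l1531 (nat_lit 2785) (nat_lit 3) (nat_lit 9))
    (@En.n l8845 (nat_lit 13300) (nat_lit 4) (nat_lit 14))
    (@En.n l8846 (nat_lit 12076) (nat_lit 2) (nat_lit 11))
    (@En.n l8847 (nat_lit 2498) (nat_lit 6) (nat_lit 4))
    (@En.n l343 (nat_lit 2795) (nat_lit 7) (nat_lit 7))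
    (@En.n l28 (nat_lit 2790) (nat_lit 8) (nat_lit 3))
    (@En.n l2597 (nat_lit 2528) (nat_lit 0) (nat_lit 4))
    (@En.n l77 (nat_lit 2813) (nat_lit 11) (nat_lit 12))
    (@En.n l8846 (nat_lit 3237) (nat_lit 12) (nat_lit 13))
    (@En.n l8848 (nat_lit 5399) (nat_lit 13) (nat_lit 7))
    (@En.n l8846 (nat_lit 2761) (nat_lit 6) (nat_lit 12))
    (@En.n l1738 (nat_lit 8450) (nat_lit 12) (nat_lit 9))
    (@En.n l17 (nat_lit 2791) (nat_lit 15) (nat_lit 2))))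
  (@Cl.mk (nat_lit 0x2000500050009000d0006000d0003000d000300070003000b000b000e000a) (nat_lit 0x3503090000171) (nat_lit 16) Lb.e (@T16.mk En
    (@En.n l1738 (nat_lit 2788) (nat_lit 10) (nat_lit 10))
    (@En.i (nat_lit 2790) (nat_lit 4) (nat_lit 14))
    (@En.n l5 (nat_lit 2790) (nat_lit 5) (nat_lit 11))
    (@En.i (nat_lit 12482) (nat_lit 3) (nat_lit 11))
    (@En.i (nat_lit 2812) (nat_lit 4) (nat_lit 3))
    (@En.i (nat_lit 3392) (nat_lit 5) (nat_lit 7))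
    (@En.i (nat_lit 2793) (nat_lit 6) (nat_lit 3))
    (@En.i (nat_lit 2820) (nat_lit 8) (nat_lit 13))
    (@En.i (nat_lit 2794) (nat_lit 8) (nat_lit 3))
    (@En.i (nat_lit 3234) (nat_lit 10) (nat_lit 13))
    (@En.n l117 (nat_lit 6680) (nat_lit 3) (nat_lit 6))
    (@En.n l1329 (nat_lit 2731) (nat_lit 12) (nat_lit 13))
    (@En.i (nat_lit 8446) (nat_lit 13) (nat_lit 9))
    (@En.n l17 (nat_lit 3362) (nat_lit 14) (nat_lit 5))
    (@En.i (nat_lit 4435) (nat_lit 13) (nat_lit 5))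
    (@En.n l3 (nat_lit 2792) (nat_lit 15) (nat_lit 2))))
  (@Cl.mk (nat_lit 0x2000500050009000c0006000d000c0004000300070004000b000b000e000a) (nat_lit 0x350b400000114) (nat_lit 16) Lb.e (@T16.mk En
    (@En.n l3247 (nat_lit 2789) (nat_lit 10) (nat_lit 10))
    (@En.i (nat_lit 2791) (nat_lit 4) (nat_lit 14))
    (@En.n l5 (nat_lit 2791) (nat_lit 5) (nat_lit 11))
    (@En.i (nat_lit 12077) (nat_lit 3) (nat_lit 11))
    (@En.n l28 (nat_lit 2497) (nat_lit 4) (nat_lit 4))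
    (@En.n l343 (nat_lit 2794) (nat_lit 5) (nat_lit 7))
    (@En.n l28 (nat_lit 2792) (nat_lit 6) (nat_lit 3))
    (@En.i (nat_lit 2529) (nat_lit 7) (nat_lit 4))
    (@En.n l77 (nat_lit 2812) (nat_lit 9) (nat_lit 12))
    (@En.i (nat_lit 3232) (nat_lit 10) (nat_lit 13))
    (@En.n l117 (nat_lit 5394) (nat_lit 3) (nat_lit 6))
    (@En.n l1329 (nat_lit 2767) (nat_lit 12) (nat_lit 12))
    (@En.i (nat_lit 8452) (nat_lit 13) (nat_lit 9))
    (@En.n l17 (nat_lit 3360) (nat_lit 14) (nat_lit 5))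
    (@En.i (nat_lit 4434) (nat_lit 13) (nat_lit 5))
    (@En.n l3 (nat_lit 2793) (nat_lit 15) (nat_lit 2))))
  (@Cl.mk (nat_lit 0x2000500050009000d000c00070003000d000400070003000b000b000e0009) (nat_lit 0x3460090000094) (nat_lit 16) Lb.e (@T16.mk En
    (@En.n l1738 (nat_lit 2801) (nat_lit 12) (nat_lit 9))
    (@En.i (nat_lit 2795) (nat_lit 4) (nat_lit 14))
    (@En.n l5 (nat_lit 2795) (nat_lit 5) (nat_lit 11))
    (@En.i (nat_lit 12480) (nat_lit 3) (nat_lit 11))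
    (@En.i (nat_lit 2806) (nat_lit 4) (nat_lit 3))
    (@En.i (nat_lit 3383) (nat_lit 5) (nat_lit 7))
    (@En.n l11 (nat_lit 2525) (nat_lit 6) (nat_lit 4))
    (@En.n l127 (nat_lit 2805) (nat_lit 8) (nat_lit 13))
    (@En.n l11 (nat_lit 2792) (nat_lit 8) (nat_lit 3))
    (@En.i (nat_lit 6615) (nat_lit 0) (nat_lit 7))
    (@En.n l55 (nat_lit 2793) (nat_lit 11) (nat_lit 12))
    (@En.n l1329 (nat_lit 2736) (nat_lit 12) (nat_lit 13))
    (@En.i (nat_lit 8447) (nat_lit 13) (nat_lit 9))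
    (@En.n l17 (nat_lit 3359) (nat_lit 14) (nat_lit 5))
    (@En.i (nat_lit 4436) (nat_lit 13) (nat_lit 5))
    (@En.n l3 (nat_lit 2794) (nat_lit 15) (nat_lit 2))))
  (@Cl.mk (nat_lit 0x20009000d000c00080003000d000400070003000b000e00080002000e0005) (nat_lit 0x457600000983000) (nat_lit 16) Lb.e (@T16.mk En
    (@En.n l18 (nat_lit 2794) (nat_lit 14) (nat_lit 5))
    (@En.n l1531 (nat_lit 4423) (nat_lit 1) (nat_lit 14))
    (@En.n l3 (nat_lit 2795) (nat_lit 2) (nat_lit 2))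
    (@En.n l1531 (nat_lit 2786) (nat_lit 3) (nat_lit 8))
    (@En.n l3157 (nat_lit 13181) (nat_lit 4) (nat_lit 14))
    (@En.n l10072 (nat_lit 12481) (nat_lit 2) (nat_lit 11))
    (@En.n l3157 (nat_lit 2810) (nat_lit 6) (nat_lit 3))
    (@En.n l2405 (nat_lit 3393) (nat_lit 11) (nat_lit 7))
    (@En.n l21000 (nat_lit 2522) (nat_lit 8) (nat_lit 4))
    (@En.n l127 (nat_lit 2811) (nat_lit 10) (nat_lit 13))
    (@En.n l11 (nat_lit 2790) (nat_lit 10) (nat_lit 3))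
    (@En.n l21001 (nat_lit 6616) (nat_lit 12) (nat_lit 8))
    (@En.n l55 (nat_lit 2791) (nat_lit 13) (nat_lit 12))
    (@En.n l21002 (nat_lit 2737) (nat_lit 14) (nat_lit 13))
    (@En.n l1738 (nat_lit 8449) (nat_lit 12) (nat_lit 9))
    (@En.n l17 (nat_lit 2795) (nat_lit 15) (nat_lit 2))))
  (@Cl.mk (nat_lit 0x3000c000c000a000a000400040009000c00060006000c0004000d00070004) (nat_lit 0xa103006100a0100) (nat_lit 16) Lb.e (@T16.mk En
    (@En.n l7639 (nat_lit 2703) (nat_lit 0) (nat_lit 4))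
    (@En.i (nat_lit 2797) (nat_lit 0) (nat_lit 7))
    (@En.n l3850 (nat_lit 1211) (nat_lit 1) (nat_lit 13))
    (@En.i (nat_lit 2800) (nat_lit 3) (nat_lit 4))
    (@En.n l3257 (nat_lit 8657) (nat_lit 0) (nat_lit 12))
    (@En.n l8649 (nat_lit 2812) (nat_lit 10) (nat_lit 6))
    (@En.n l3851 (nat_lit 7955) (nat_lit 6) (nat_lit 6))
    (@En.n l3257 (nat_lit 2720) (nat_lit 6) (nat_lit 12))
    (@En.i (nat_lit 8416) (nat_lit 14) (nat_lit 9))
    (@En.n l217 (nat_lit 2554) (nat_lit 12) (nat_lit 4))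
    (@En.n l3257 (nat_lit 4241) (nat_lit 0) (nat_lit 4))
    (@En.n l8652 (nat_lit 1829) (nat_lit 6) (nat_lit 10))
    (@En.n l15461 (nat_lit 4238) (nat_lit 1) (nat_lit 10))
    (@En.n l15462 (nat_lit 2787) (nat_lit 4) (nat_lit 12))
    (@En.i (nat_lit 11940) (nat_lit 3) (nat_lit 12))
    (@En.n l7 (nat_lit 2788) (nat_lit 13) (nat_lit 3))))
  (@Cl.mk (nat_lit 0x30008000c000c000900090004000400090008000c00070007000d00040007) (nat_lit 0x1a0330076200000) (nat_lit 16) Lb.e (@T16.mk En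
    (@En.n l7927 (nat_lit 3025) (nat_lit 0) (nat_lit 7))
    (@En.n l8646 (nat_lit 2799) (nat_lit 7) (nat_lit 4))
    (@En.n l21570 (nat_lit 8654) (nat_lit 0) (nat_lit 13))
    (@En.n l8649 (nat_lit 2805) (nat_lit 9) (nat_lit 7))
    (@En.n l3851 (nat_lit 7961) (nat_lit 4) (nat_lit 7))
    (@En.n l8 (nat_lit 2796) (nat_lit 7) (nat_lit 12))
    (@En.i (nat_lit 2788) (nat_lit 6) (nat_lit 8))
    (@En.n l29924 (nat_lit 8415) (nat_lit 5) (nat_lit 9))
    (@En.n l217 (nat_lit 2781) (nat_lit 12) (nat_lit 4))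
    (@En.n l5 (nat_lit 4248) (nat_lit 9) (nat_lit 4))
    (@En.n l8652 (nat_lit 1824) (nat_lit 7) (nat_lit 9))
    (@En.n l20548 (nat_lit 2827) (nat_lit 12) (nat_lit 9))
    (@En.n l29925 (nat_lit 2808) (nat_lit 4) (nat_lit 12))
    (@En.n l29494 (nat_lit 4176) (nat_lit 7) (nat_lit 12))
    (@En.n l15543 (nat_lit 51) (nat_lit 4) (nat_lit 8))
    (@En.n l29926 (nat_lit 2798) (nat_lit 15) (nat_lit 3))))
  (@Cl.mk (nat_lit 0x30008000c000c0009000900040004000a0008000b00070007000d00060005) (nat_lit 0x6a0330081800000) (nat_lit 16) Lb.e (@T16.mk En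
    (@En.n l18 (nat_lit 2055) (nat_lit 0) (nat_lit 5))
    (@En.n l15271 (nat_lit 2164) (nat_lit 7) (nat_lit 6))
    (@En.i (nat_lit 8658) (nat_lit 2) (nat_lit 13))
    (@En.n l14393 (nat_lit 2067) (nat_lit 9) (nat_lit 7))
    (@En.n l15272 (nat_lit 9412) (nat_lit 4) (nat_lit 7))
    (@En.n l15273 (nat_lit 2703) (nat_lit 7) (nat_lit 11))
    (@En.n l14632 (nat_lit 2789) (nat_lit 6) (nat_lit 8))
    (@En.n l15274 (nat_lit 8418) (nat_lit 8) (nat_lit 10))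
    (@En.n l15275 (nat_lit 2553) (nat_lit 12) (nat_lit 4))
    (@En.n l15273 (nat_lit 4308) (nat_lit 9) (nat_lit 4))
    (@En.n l15276 (nat_lit 1827) (nat_lit 7) (nat_lit 9))
    (@En.n l15277 (nat_lit 2825) (nat_lit 12) (nat_lit 9))
    (@En.n l55 (nat_lit 2824) (nat_lit 4) (nat_lit 12))
    (@En.i (nat_lit 11025) (nat_lit 7) (nat_lit 12))
    (@En.n l15278 (nat_lit 2799) (nat_lit 4) (nat_lit 8))
    (@En.n l15005 (nat_lit 2797) (nat_lit 15) (nat_lit 3))))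
  (@Cl.mk (nat_lit 0x4000400090008000c000b000800080004000700050008000c000c00080008) (nat_lit 0x70294000050023) (nat_lit 16) Lb.e (@T16.mk En
    (@En.n l1899 (nat_lit 1822) (nat_lit 8) (nat_lit 8))
    (@En.n l20551 (nat_lit 2826) (nat_lit 1) (nat_lit 8))
    (@En.n l13799 (nat_lit 2804) (nat_lit 4) (nat_lit 12))
    (@En.n l20552 (nat_lit 11935) (nat_lit 7) (nat_lit 12))
    (@En.n l4816 (nat_lit 3370) (nat_lit 10) (nat_lit 8))
    (@En.n l19334 (nat_lit 759) (nat_lit 5) (nat_lit 5))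
    (@En.n l4816 (nat_lit 2838) (nat_lit 11) (nat_lit 7))
    (@En.n l20553 (nat_lit 7394) (nat_lit 7) (nat_lit 4))
    (@En.n l20554 (nat_lit 2803) (nat_lit 8) (nat_lit 8))
    (@En.n l1769 (nat_lit 9409) (nat_lit 1) (nat_lit 8))
    (@En.n l20552 (nat_lit 2798) (nat_lit 5) (nat_lit 11))
    (@En.n l16968 (nat_lit 2800) (nat_lit 7) (nat_lit 12))
    (@En.n l20555 (nat_lit 2801) (nat_lit 8) (nat_lit 8))
    (@En.n l20556 (nat_lit 8406) (nat_lit 5) (nat_lit 9))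
    (@En.n l20557 (nat_lit 2802) (nat_lit 12) (nat_lit 4))
    (@En.n l20558 (nat_lit 4305) (nat_lit 0) (nat_lit 4))))
noncomputable def a175 : T16 Cl := @T16.mk Cl
  (@Cl.mk (nat_lit 0x3000c000c00090009000400040009000c000a000700070004000d00070006) (nat_lit 0xa00300718000100) (nat_lit 16) Lb.e (@T16.mk En
    (@En.n l8645 (nat_lit 2438) (nat_lit 0) (nat_lit 6))
    (@En.n l8646 (nat_lit 2799) (nat_lit 6) (nat_lit 7))
    (@En.n l8647 (nat_lit 2798) (nat_lit 2) (nat_lit 13))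
    (@En.n l8648 (nat_lit 7395) (nat_lit 3) (nat_lit 4))
    (@En.n l8649 (nat_lit 2806) (nat_lit 9) (nat_lit 7))
    (@En.n l8650 (nat_lit 9410) (nat_lit 5) (nat_lit 7))
    (@En.n l8651 (nat_lit 2555) (nat_lit 12) (nat_lit 10))
    (@En.n l8650 (nat_lit 1598) (nat_lit 6) (nat_lit 12))
    (@En.i (nat_lit 8419) (nat_lit 14) (nat_lit 9))
    (@En.n l217 (nat_lit 2552) (nat_lit 12) (nat_lit 4))
    (@En.n l8645 (nat_lit 4299) (nat_lit 0) (nat_lit 4))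
    (@En.n l8652 (nat_lit 1818) (nat_lit 7) (nat_lit 9))
    (@En.n l8653 (nat_lit 2835) (nat_lit 1) (nat_lit 9))
    (@En.n l8654 (nat_lit 2807) (nat_lit 4) (nat_lit 12))
    (@En.n l8655 (nat_lit 11934) (nat_lit 3) (nat_lit 12))
    (@En.n l7 (nat_lit 2801) (nat_lit 15) (nat_lit 3))))
  (@Cl.mk (nat_lit 0x3000c000c00090009000400040008000c000b000700070004000d00050008) (nat_lit 0x1133006a2000105) (nat_lit 16) Lb.e (@T16.mk En
    (@En.n l20545 (nat_lit 3395) (nat_lit 10) (nat_lit 8))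
    (@En.n l20546 (nat_lit 2527) (nat_lit 6) (nat_lit 5))
    (@En.n l127 (nat_lit 2797) (nat_lit 2) (nat_lit 13))
    (@En.n l8648 (nat_lit 7397) (nat_lit 3) (nat_lit 4))
    (@En.n l8649 (nat_lit 2794) (nat_lit 9) (nat_lit 7))
    (@En.n l20547 (nat_lit 9411) (nat_lit 5) (nat_lit 7))
    (@En.n l8651 (nat_lit 2789) (nat_lit 5) (nat_lit 11))
    (@En.n l9463 (nat_lit 3034) (nat_lit 7) (nat_lit 12))
    (@En.n l612 (nat_lit 8364) (nat_lit 11) (nat_lit 8))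
    (@En.n l217 (nat_lit 2780) (nat_lit 12) (nat_lit 4))
    (@En.n l5 (nat_lit 4297) (nat_lit 0) (nat_lit 4))
    (@En.n l8652 (nat_lit 1823) (nat_lit 7) (nat_lit 9))
    (@En.n l20548 (nat_lit 2837) (nat_lit 1) (nat_lit 9))
    (@En.n l20549 (nat_lit 2786) (nat_lit 4) (nat_lit 12))
    (@En.i (nat_lit 56) (nat_lit 3) (nat_lit 12))
    (@En.i (nat_lit 2800) (nat_lit 15) (nat_lit 3))))
  (@Cl.mk (nat_lit 0x200090009000400090008000c000b000700070004000700050008000e000c) (nat_lit 0x407612000001c1) (nat_lit 16) Lb.e (@T16.mk En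
    (@En.n l8646 (nat_lit 2799) (nat_lit 3) (nat_lit 12))
    (@En.n l396 (nat_lit 11568) (nat_lit 1) (nat_lit 14))
    (@En.n l1023 (nat_lit 31) (nat_lit 2) (nat_lit 8))
    (@En.n l9966 (nat_lit 755) (nat_lit 3) (nat_lit 5))
    (@En.n l1020 (nat_lit 2163) (nat_lit 4) (nat_lit 7))
    (@En.n l3535 (nat_lit 9580) (nat_lit 5) (nat_lit 4))
    (@En.n l152 (nat_lit 3365) (nat_lit 9) (nat_lit 7))
    (@En.n l936 (nat_lit 9415) (nat_lit 7) (nat_lit 7))
    (@En.n l870 (nat_lit 2553) (nat_lit 9) (nat_lit 11))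
    (@En.n l8 (nat_lit 2552) (nat_lit 10) (nat_lit 12))
    (@En.i (nat_lit 2780) (nat_lit 11) (nat_lit 8))
    (@En.n l766 (nat_lit 8889) (nat_lit 12) (nat_lit 9))
    (@En.i (nat_lit 4306) (nat_lit 13) (nat_lit 4))
    (@En.n l3536 (nat_lit 2770) (nat_lit 7) (nat_lit 9))
    (@En.i (nat_lit 2833) (nat_lit 1) (nat_lit 9))
    (@En.n l18 (nat_lit 2802) (nat_lit 15) (nat_lit 2))))
  (@Cl.mk (nat_lit 0x200050005000a0009000d000c00080003000600040007000b000b000e0008) (nat_lit 0x8451600005603) (nat_lit 16) Lb.e (@T16.mk En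
    (@En.n l9217 (nat_lit 2799) (nat_lit 1) (nat_lit 8))
    (@En.n l9218 (nat_lit 2809) (nat_lit 4) (nat_lit 14))
    (@En.n l9219 (nat_lit 2809) (nat_lit 5) (nat_lit 11))
    (@En.n l1021 (nat_lit 11918) (nat_lit 3) (nat_lit 11))
    (@En.n l9220 (nat_lit 3369) (nat_lit 4) (nat_lit 7))
    (@En.n l1158 (nat_lit 2060) (nat_lit 5) (nat_lit 4))
    (@En.n l1021 (nat_lit 2179) (nat_lit 6) (nat_lit 6))
    (@En.n l11 (nat_lit 2805) (nat_lit 7) (nat_lit 3))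
    (@En.n l1021 (nat_lit 6609) (nat_lit 0) (nat_lit 8))
    (@En.n l55 (nat_lit 2067) (nat_lit 10) (nat_lit 12))
    (@En.n l8 (nat_lit 2806) (nat_lit 11) (nat_lit 13))
    (@En.i (nat_lit 2794) (nat_lit 12) (nat_lit 9))
    (@En.n l8197 (nat_lit 8469) (nat_lit 13) (nat_lit 10))
    (@En.n l17 (nat_lit 3365) (nat_lit 14) (nat_lit 5))
    (@En.n l1023 (nat_lit 890) (nat_lit 13) (nat_lit 5))
    (@En.n l3 (nat_lit 2803) (nat_lit 15) (nat_lit 2))))
  (@Cl.mk (nat_lit 0x200090008000c000b000900090004000700050008000c00070007000e0004) (nat_lit 0x7109400000a0000) (nat_lit 16) Lb.e (@T16.mk En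
    (@En.n l8316 (nat_lit 2799) (nat_lit 15) (nat_lit 4))
    (@En.n l5601 (nat_lit 4579) (nat_lit 1) (nat_lit 14))
    (@En.n l3498 (nat_lit 1821) (nat_lit 9) (nat_lit 7))
    (@En.i (nat_lit 4363) (nat_lit 3) (nat_lit 7))
    (@En.n l34304 (nat_lit 11920) (nat_lit 5) (nat_lit 12))
    (@En.i (nat_lit 3394) (nat_lit 5) (nat_lit 8))
    (@En.n l396 (nat_lit 2053) (nat_lit 6) (nat_lit 5))
    (@En.i (nat_lit 2533) (nat_lit 7) (nat_lit 7))
    (@En.n l34302 (nat_lit 7392) (nat_lit 8) (nat_lit 4))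
    (@En.n l8381 (nat_lit 2809) (nat_lit 10) (nat_lit 9))
    (@En.n l10976 (nat_lit 9406) (nat_lit 11) (nat_lit 9))
    (@En.n l34304 (nat_lit 2824) (nat_lit 12) (nat_lit 11))
    (@En.n l36503 (nat_lit 2807) (nat_lit 13) (nat_lit 12))
    (@En.n l36504 (nat_lit 2786) (nat_lit 14) (nat_lit 8))
    (@En.n l3506 (nat_lit 8397) (nat_lit 5) (nat_lit 9))
    (@En.n l28 (nat_lit 2804) (nat_lit 15) (nat_lit 2))))
  (@Cl.mk (nat_lit 0x200050005000a0009000d0007000d0003000600030007000b000b000e0009) (nat_lit 0x8460800000004) (nat_lit 16) Lb.e (@T16.mk En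
    (@En.n l1738 (nat_lit 2797) (nat_lit 11) (nat_lit 9))
    (@En.i (nat_lit 2811) (nat_lit 4) (nat_lit 14))
    (@En.n l5 (nat_lit 2811) (nat_lit 5) (nat_lit 11))
    (@En.n l7184 (nat_lit 12070) (nat_lit 3) (nat_lit 11))
    (@En.n l7 (nat_lit 3371) (nat_lit 4) (nat_lit 7))
    (@En.i (nat_lit 2067) (nat_lit 5) (nat_lit 3))
    (@En.i (nat_lit 3021) (nat_lit 6) (nat_lit 6))
    (@En.i (nat_lit 2803) (nat_lit 7) (nat_lit 3))
    (@En.n l1603 (nat_lit 3598) (nat_lit 0) (nat_lit 13))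
    (@En.n l117 (nat_lit 6684) (nat_lit 10) (nat_lit 7))
    (@En.n l8 (nat_lit 2812) (nat_lit 11) (nat_lit 13))
    (@En.i (nat_lit 2792) (nat_lit 12) (nat_lit 9))
    (@En.i (nat_lit 8423) (nat_lit 13) (nat_lit 10))
    (@En.n l17 (nat_lit 3364) (nat_lit 14) (nat_lit 5))
    (@En.i (nat_lit 2322) (nat_lit 13) (nat_lit 5))
    (@En.n l3 (nat_lit 2805) (nat_lit 15) (nat_lit 2))))
  (@Cl.mk (nat_lit 0x200050005000a000d000b00070003000d000600050003000b000b000e0009) (nat_lit 0x8410090006791) (nat_lit 16) Lb.e (@T16.mk En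
    (@En.n l1738 (nat_lit 2800) (nat_lit 12) (nat_lit 9))
    (@En.n l3157 (nat_lit 2810) (nat_lit 4) (nat_lit 14))
    (@En.n l3158 (nat_lit 2810) (nat_lit 5) (nat_lit 11))
    (@En.n l319 (nat_lit 11937) (nat_lit 3) (nat_lit 11))
    (@En.n l7 (nat_lit 2794) (nat_lit 4) (nat_lit 3))
    (@En.n l3159 (nat_lit 2488) (nat_lit 5) (nat_lit 5))
    (@En.i (nat_lit 2803) (nat_lit 6) (nat_lit 6))
    (@En.n l127 (nat_lit 2067) (nat_lit 8) (nat_lit 13))
    (@En.n l11 (nat_lit 2812) (nat_lit 8) (nat_lit 3))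
    (@En.n l3160 (nat_lit 6613) (nat_lit 0) (nat_lit 7))
    (@En.i (nat_lit 2497) (nat_lit 11) (nat_lit 11))
    (@En.n l385 (nat_lit 2739) (nat_lit 12) (nat_lit 13))
    (@En.i (nat_lit 8470) (nat_lit 13) (nat_lit 10))
    (@En.n l17 (nat_lit 3361) (nat_lit 14) (nat_lit 5))
    (@En.i (nat_lit 891) (nat_lit 13) (nat_lit 5))
    (@En.n l3 (nat_lit 2806) (nat_lit 15) (nat_lit 2))))
  (@Cl.mk (nat_lit 0x20009000c000a000800080004000d000700060003000c00080008000e0004) (nat_lit 0x7a83000000a0200) (nat_lit 16) Lb.e (@T16.mk En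
    (@En.n l20487 (nat_lit 2800) (nat_lit 10) (nat_lit 4))
    (@En.n l14633 (nat_lit 4577) (nat_lit 1) (nat_lit 14))
    (@En.n l20488 (nat_lit 1819) (nat_lit 8) (nat_lit 8))
    (@En.n l20489 (nat_lit 4362) (nat_lit 3) (nat_lit 8))
    (@En.n l20490 (nat_lit 11925) (nat_lit 5) (nat_lit 12))
    (@En.n l20491 (nat_lit 2786) (nat_lit 5) (nat_lit 3))
    (@En.n l18 (nat_lit 2433) (nat_lit 0) (nat_lit 6))
    (@En.n l15271 (nat_lit 2804) (nat_lit 7) (nat_lit 7))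
    (@En.i (nat_lit 2824) (nat_lit 9) (nat_lit 13))
    (@En.n l20492 (nat_lit 7393) (nat_lit 9) (nat_lit 4))
    (@En.n l20493 (nat_lit 2810) (nat_lit 11) (nat_lit 8))
    (@En.n l20494 (nat_lit 9407) (nat_lit 12) (nat_lit 8))
    (@En.n l20490 (nat_lit 2687) (nat_lit 13) (nat_lit 10))
    (@En.n l14633 (nat_lit 3038) (nat_lit 6) (nat_lit 12))
    (@En.n l20495 (nat_lit 8400) (nat_lit 14) (nat_lit 9))
    (@En.n l28 (nat_lit 2807) (nat_lit 15) (nat_lit 2))))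
  (@Cl.mk (nat_lit 0x200090008000c00080008000d0004000700030008000c00080008000e0004) (nat_lit 0x71230b0006a1200) (nat_lit 16) Lb.e (@T16.mk En
    (@En.n l37869 (nat_lit 2797) (nat_lit 9) (nat_lit 4))
    (@En.n l37870 (nat_lit 3663) (nat_lit 1) (nat_lit 14))
    (@En.n l2125 (nat_lit 1825) (nat_lit 2) (nat_lit 8))
    (@En.n l37871 (nat_lit 1996) (nat_lit 3) (nat_lit 8))
    (@En.n l2132 (nat_lit 11022) (nat_lit 5) (nat_lit 12))
    (@En.n l37872 (nat_lit 3373) (nat_lit 5) (nat_lit 8))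
    (@En.n l2701 (nat_lit 2824) (nat_lit 6) (nat_lit 3))
    (@En.n l37873 (nat_lit 2984) (nat_lit 0) (nat_lit 7))
    (@En.n l37874 (nat_lit 2804) (nat_lit 8) (nat_lit 4))
    (@En.i (nat_lit 8659) (nat_lit 10) (nat_lit 13))
    (@En.n l37875 (nat_lit 2811) (nat_lit 11) (nat_lit 8))
    (@En.n l37876 (nat_lit 7960) (nat_lit 12) (nat_lit 8))
    (@En.n l24379 (nat_lit 2787) (nat_lit 13) (nat_lit 12))
    (@En.n l37870 (nat_lit 2784) (nat_lit 14) (nat_lit 8))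
    (@En.n l5891 (nat_lit 8405) (nat_lit 5) (nat_lit 9))
    (@En.n l11 (nat_lit 2808) (nat_lit 15) (nat_lit 2))))
  (@Cl.mk (nat_lit 0x2000a0009000d000c00090003000600040007000b000e00070002000e0005) (nat_lit 0x8572700005c0010) (nat_lit 16) Lb.e (@T16.mk En
    (@En.n l7180 (nat_lit 2803) (nat_lit 14) (nat_lit 5))
    (@En.i (nat_lit 778) (nat_lit 1) (nat_lit 14))
    (@En.n l17 (nat_lit 2809) (nat_lit 2) (nat_lit 2))
    (@En.n l2893 (nat_lit 2804) (nat_lit 3) (nat_lit 7))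
    (@En.n l2036 (nat_lit 13176) (nat_lit 4) (nat_lit 14))
    (@En.i (nat_lit 11914) (nat_lit 2) (nat_lit 11))
    (@En.n l15191 (nat_lit 3375) (nat_lit 6) (nat_lit 7))
    (@En.n l4172 (nat_lit 2065) (nat_lit 7) (nat_lit 4))
    (@En.i (nat_lit 2174) (nat_lit 8) (nat_lit 6))
    (@En.n l19004 (nat_lit 2811) (nat_lit 9) (nat_lit 3))
    (@En.i (nat_lit 6608) (nat_lit 0) (nat_lit 9))
    (@En.n l3039 (nat_lit 2814) (nat_lit 12) (nat_lit 12))
    (@En.n l5610 (nat_lit 2810) (nat_lit 13) (nat_lit 13))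
    (@En.n l21006 (nat_lit 2795) (nat_lit 14) (nat_lit 9))
    (@En.i (nat_lit 8398) (nat_lit 12) (nat_lit 10))
    (@En.n l3 (nat_lit 2809) (nat_lit 15) (nat_lit 2))))
  (@Cl.mk (nat_lit 0x2000a000d000b00080003000d000600050003000b000e00080002000e0005) (nat_lit 0x76160a000681010) (nat_lit 16) Lb.e (@T16.mk En
    (@En.n l2154 (nat_lit 2806) (nat_lit 14) (nat_lit 5))
    (@En.n l5937 (nat_lit 779) (nat_lit 1) (nat_lit 14))
    (@En.n l7 (nat_lit 2810) (nat_lit 2) (nat_lit 2))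
    (@En.n l8849 (nat_lit 2807) (nat_lit 3) (nat_lit 8))
    (@En.i (nat_lit 13177) (nat_lit 4) (nat_lit 14))
    (@En.n l287 (nat_lit 11916) (nat_lit 2) (nat_lit 11))
    (@En.n l8850 (nat_lit 2795) (nat_lit 6) (nat_lit 3))
    (@En.n l8851 (nat_lit 2489) (nat_lit 0) (nat_lit 5))
    (@En.n l2155 (nat_lit 2809) (nat_lit 8) (nat_lit 6))
    (@En.n l5940 (nat_lit 2814) (nat_lit 10) (nat_lit 13))
    (@En.n l8852 (nat_lit 2813) (nat_lit 10) (nat_lit 3))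
    (@En.i (nat_lit 6614) (nat_lit 12) (nat_lit 8))
    (@En.n l5939 (nat_lit 2498) (nat_lit 13) (nat_lit 11))
    (@En.n l4484 (nat_lit 2738) (nat_lit 5) (nat_lit 13))
    (@En.i (nat_lit 8472) (nat_lit 12) (nat_lit 10))
    (@En.n l17 (nat_lit 2810) (nat_lit 15) (nat_lit 2))))
  (@Cl.mk (nat_lit 0x2000a0009000d0008000d0003000600030007000b000e00080002000e0005) (nat_lit 0x8566b00009c20a0) (nat_lit 16) Lb.e (@T16.mk En
    (@En.n l18 (nat_lit 2805) (nat_lit 14) (nat_lit 5))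
    (@En.n l1531 (nat_lit 4421) (nat_lit 1) (nat_lit 14))
    (@En.n l3 (nat_lit 2811) (nat_lit 2) (nat_lit 2))
    (@En.n l28803 (nat_lit 2808) (nat_lit 3) (nat_lit 8))
    (@En.n l3870 (nat_lit 13180) (nat_lit 4) (nat_lit 14))
    (@En.n l28804 (nat_lit 11919) (nat_lit 2) (nat_lit 11))
    (@En.n l28805 (nat_lit 3386) (nat_lit 6) (nat_lit 7))
    (@En.n l6184 (nat_lit 2814) (nat_lit 7) (nat_lit 3))
    (@En.n l7182 (nat_lit 3026) (nat_lit 0) (nat_lit 6))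
    (@En.n l9218 (nat_lit 2809) (nat_lit 9) (nat_lit 3))
    (@En.n l19294 (nat_lit 3596) (nat_lit 0) (nat_lit 13))
    (@En.n l17755 (nat_lit 6683) (nat_lit 12) (nat_lit 8))
    (@En.n l8 (nat_lit 2813) (nat_lit 13) (nat_lit 13))
    (@En.i (nat_lit 2790) (nat_lit 14) (nat_lit 9))
    (@En.n l18943 (nat_lit 8438) (nat_lit 12) (nat_lit 10))
    (@En.n l17 (nat_lit 2811) (nat_lit 15) (nat_lit 2))))
  (@Cl.mk (nat_lit 0x200050005000a000d0006000c0003000d000600040003000b000b000e000a) (nat_lit 0x7503090000001) (nat_lit 16) Lb.e (@T16.mk En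
    (@En.n l1738 (nat_lit 2796) (nat_lit 12) (nat_lit 10))
    (@En.i (nat_lit 2813) (nat_lit 4) (nat_lit 14))
    (@En.n l5 (nat_lit 2813) (nat_lit 5) (nat_lit 11))
    (@En.i (nat_lit 11941) (nat_lit 3) (nat_lit 11))
    (@En.n l7 (nat_lit 2792) (nat_lit 4) (nat_lit 3))
    (@En.n l2582 (nat_lit 2496) (nat_lit 5) (nat_lit 4))
    (@En.i (nat_lit 2805) (nat_lit 6) (nat_lit 6))
    (@En.i (nat_lit 2816) (nat_lit 8) (nat_lit 13))
    (@En.i (nat_lit 2806) (nat_lit 8) (nat_lit 3))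
    (@En.n l2582 (nat_lit 3590) (nat_lit 10) (nat_lit 12))
    (@En.n l117 (nat_lit 6654) (nat_lit 11) (nat_lit 6))
    (@En.n l1329 (nat_lit 2732) (nat_lit 5) (nat_lit 13))
    (@En.i (nat_lit 8443) (nat_lit 13) (nat_lit 10))
    (@En.n l17 (nat_lit 3363) (nat_lit 14) (nat_lit 5))
    (@En.i (nat_lit 3582) (nat_lit 13) (nat_lit 5))
    (@En.n l3 (nat_lit 2812) (nat_lit 15) (nat_lit 2))))
  (@Cl.mk (nat_lit 0x2000a000d0007000c0003000d000600040003000b000e00090002000e0005) (nat_lit 0x850a0a0009c1000) (nat_lit 16) Lb.e (@T16.mk En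
    (@En.n l18 (nat_lit 2812) (nat_lit 14) (nat_lit 5))
    (@En.n l1531 (nat_lit 4422) (nat_lit 1) (nat_lit 14))
    (@En.n l3 (nat_lit 2813) (nat_lit 2) (nat_lit 2))
    (@En.n l14643 (nat_lit 2787) (nat_lit 3) (nat_lit 9))
    (@En.n l3870 (nat_lit 13301) (nat_lit 4) (nat_lit 14))
    (@En.n l14644 (nat_lit 11921) (nat_lit 2) (nat_lit 11))
    (@En.n l7 (nat_lit 2790) (nat_lit 6) (nat_lit 3))
    (@En.n l3138 (nat_lit 2495) (nat_lit 0) (nat_lit 4))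
    (@En.i (nat_lit 2811) (nat_lit 8) (nat_lit 6))
    (@En.n l14644 (nat_lit 2815) (nat_lit 10) (nat_lit 13))
    (@En.n l3157 (nat_lit 2810) (nat_lit 10) (nat_lit 3))
    (@En.n l14644 (nat_lit 2859) (nat_lit 12) (nat_lit 12))
    (@En.n l14645 (nat_lit 6681) (nat_lit 13) (nat_lit 7))
    (@En.n l14646 (nat_lit 2729) (nat_lit 5) (nat_lit 13))
    (@En.n l4600 (nat_lit 7681) (nat_lit 12) (nat_lit 10))
    (@En.n l17 (nat_lit 2813) (nat_lit 15) (nat_lit 2))))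
  (@Cl.mk (nat_lit 0x2000b0009000c0008000d0005000400030007000b000e00080002000e0005) (nat_lit 0x8510900006c3000) (nat_lit 16) Lb.e (@T16.mk En
    (@En.n l14618 (nat_lit 2067) (nat_lit 14) (nat_lit 5))
    (@En.n l3815 (nat_lit 4420) (nat_lit 1) (nat_lit 14))
    (@En.n l17 (nat_lit 2814) (nat_lit 2) (nat_lit 2))
    (@En.n l2869 (nat_lit 2824) (nat_lit 3) (nat_lit 8))
    (@En.n l1599 (nat_lit 13178) (nat_lit 4) (nat_lit 14))
    (@En.n l14619 (nat_lit 11026) (nat_lit 2) (nat_lit 11))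
    (@En.n l11512 (nat_lit 2809) (nat_lit 6) (nat_lit 7))
    (@En.n l14620 (nat_lit 2811) (nat_lit 7) (nat_lit 3))
    (@En.n l28 (nat_lit 2062) (nat_lit 0) (nat_lit 4))
    (@En.n l8898 (nat_lit 2172) (nat_lit 9) (nat_lit 5))
    (@En.i (nat_lit 2876) (nat_lit 11) (nat_lit 13))
    (@En.n l601 (nat_lit 6687) (nat_lit 12) (nat_lit 8))
    (@En.i (nat_lit 2495) (nat_lit 6) (nat_lit 12))
    (@En.n l14621 (nat_lit 2791) (nat_lit 14) (nat_lit 9))
    (@En.i (nat_lit 8471) (nat_lit 12) (nat_lit 11))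
    (@En.n l3 (nat_lit 2814) (nat_lit 15) (nat_lit 2))))
  (@Cl.mk (nat_lit 0x2000b00090007000d000d0005000300030007000b000e00090002000e0005) (nat_lit 0x60a900000020c0) (nat_lit 16) Lb.e (@T16.mk En
    (@En.n l15234 (nat_lit 2816) (nat_lit 14) (nat_lit 5))
    (@En.n l9448 (nat_lit 3897) (nat_lit 1) (nat_lit 14))
    (@En.n l17 (nat_lit 2815) (nat_lit 2) (nat_lit 2))
    (@En.n l17226 (nat_lit 1213) (nat_lit 3) (nat_lit 9))
    (@En.i (nat_lit 12954) (nat_lit 4) (nat_lit 14))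
    (@En.i (nat_lit 2958) (nat_lit 2) (nat_lit 11))
    (@En.n l28854 (nat_lit 2811) (nat_lit 6) (nat_lit 7))
    (@En.n l28855 (nat_lit 2819) (nat_lit 13) (nat_lit 3))
    (@En.n l7 (nat_lit 2817) (nat_lit 0) (nat_lit 3))
    (@En.i (nat_lit 2983) (nat_lit 0) (nat_lit 5))
    (@En.n l644 (nat_lit 2817) (nat_lit 3) (nat_lit 13))
    (@En.i (nat_lit 3470) (nat_lit 12) (nat_lit 13))
    (@En.n l3340 (nat_lit 2277) (nat_lit 13) (nat_lit 7))
    (@En.n l11905 (nat_lit 2762) (nat_lit 14) (nat_lit 9))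
    (@En.i (nat_lit 8196) (nat_lit 12) (nat_lit 11))
    (@En.n l107 (nat_lit 2815) (nat_lit 15) (nat_lit 2))))
noncomputable def a176 : T16 Cl := @T16.mk Cl
  (@Cl.mk (nat_lit 0x200050005000b00090006000d000d0005000300030007000b000b000e000a) (nat_lit 0x507800000113) (nat_lit 16) Lb.e (@T16.mk En
    (@En.n l15667 (nat_lit 1211) (nat_lit 10) (nat_lit 10))
    (@En.n l14644 (nat_lit 2815) (nat_lit 4) (nat_lit 14))
    (@En.n l15668 (nat_lit 2815) (nat_lit 5) (nat_lit 11))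
    (@En.n l7563 (nat_lit 5573) (nat_lit 3) (nat_lit 11))
    (@En.n l538 (nat_lit 2805) (nat_lit 4) (nat_lit 7))
    (@En.n l7 (nat_lit 2820) (nat_lit 5) (nat_lit 3))
    (@En.n l3141 (nat_lit 2818) (nat_lit 6) (nat_lit 3))
    (@En.i (nat_lit 2972) (nat_lit 7) (nat_lit 5))
    (@En.n l15669 (nat_lit 2818) (nat_lit 9) (nat_lit 13))
    (@En.n l7563 (nat_lit 2746) (nat_lit 10) (nat_lit 13))
    (@En.n l15670 (nat_lit 2273) (nat_lit 3) (nat_lit 6))
    (@En.n l538 (nat_lit 1224) (nat_lit 12) (nat_lit 9))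
    (@En.i (nat_lit 8198) (nat_lit 13) (nat_lit 11))
    (@En.n l17 (nat_lit 2821) (nat_lit 14) (nat_lit 5))
    (@En.n l15068 (nat_lit 3901) (nat_lit 13) (nat_lit 5))
    (@En.n l3 (nat_lit 2816) (nat_lit 15) (nat_lit 2))))
  (@Cl.mk (nat_lit 0x20007000b000e00090002000e00050002000c00090007000d0004000e0003) (nat_lit 0x540c0096080a0) (nat_lit 16) Lb.e (@T16.mk En
    (@En.i (nat_lit 2815) (nat_lit 8) (nat_lit 3))
    (@En.n l10280 (nat_lit 13747) (nat_lit 0) (nat_lit 14))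
    (@En.i (nat_lit 2965) (nat_lit 2) (nat_lit 4))
    (@En.i (nat_lit 3471) (nat_lit 12) (nat_lit 13))
    (@En.n l3340 (nat_lit 2368) (nat_lit 4) (nat_lit 7))
    (@En.i (nat_lit 2760) (nat_lit 5) (nat_lit 9))
    (@En.i (nat_lit 8189) (nat_lit 7) (nat_lit 12))
    (@En.n l107 (nat_lit 2817) (nat_lit 7) (nat_lit 2))
    (@En.i (nat_lit 2818) (nat_lit 14) (nat_lit 5))
    (@En.n l97 (nat_lit 3904) (nat_lit 1) (nat_lit 14))
    (@En.n l17 (nat_lit 2817) (nat_lit 10) (nat_lit 2))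
    (@En.n l17226 (nat_lit 2950) (nat_lit 12) (nat_lit 9))
    (@En.i (nat_lit 13199) (nat_lit 4) (nat_lit 14))
    (@En.i (nat_lit 5579) (nat_lit 14) (nat_lit 11))
    (@En.n l513 (nat_lit 2814) (nat_lit 6) (nat_lit 7))
    (@En.n l50 (nat_lit 2817) (nat_lit 15) (nat_lit 2))))
  (@Cl.mk (nat_lit 0x200050005000c00090006000d0004000e000300020007000b000b000e000a) (nat_lit 0x9407090000163) (nat_lit 16) Lb.e (@T16.mk En
    (@En.n l5036 (nat_lit 1212) (nat_lit 11) (nat_lit 10))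
    (@En.n l3 (nat_lit 2817) (nat_lit 12) (nat_lit 14))
    (@En.n l527 (nat_lit 2817) (nat_lit 13) (nat_lit 11))
    (@En.i (nat_lit 5574) (nat_lit 3) (nat_lit 11))
    (@En.n l9233 (nat_lit 2067) (nat_lit 4) (nat_lit 7))
    (@En.n l50 (nat_lit 2818) (nat_lit 5) (nat_lit 2))
    (@En.n l15234 (nat_lit 2816) (nat_lit 6) (nat_lit 3))
    (@En.n l10280 (nat_lit 13746) (nat_lit 0) (nat_lit 14))
    (@En.i (nat_lit 2964) (nat_lit 8) (nat_lit 4))
    (@En.i (nat_lit 2745) (nat_lit 10) (nat_lit 13))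
    (@En.n l3340 (nat_lit 2369) (nat_lit 4) (nat_lit 6))
    (@En.n l9233 (nat_lit 2763) (nat_lit 12) (nat_lit 9))
    (@En.n l12230 (nat_lit 8192) (nat_lit 13) (nat_lit 12))
    (@En.n l15235 (nat_lit 2823) (nat_lit 14) (nat_lit 5))
    (@En.n l3106 (nat_lit 3905) (nat_lit 8) (nat_lit 5))
    (@En.n l17 (nat_lit 2818) (nat_lit 15) (nat_lit 2))))
  (@Cl.mk (nat_lit 0x2000600030007000b000e00090002000e00050002000a00090007000e000d) (nat_lit 0xc000503b) (nat_lit 16) Lb.e (@T16.mk En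
    (@En.n l16277 (nat_lit 2815) (nat_lit 11) (nat_lit 13))
    (@En.n l14644 (nat_lit 3207) (nat_lit 1) (nat_lit 14))
    (@En.n l16278 (nat_lit 2276) (nat_lit 2) (nat_lit 7))
    (@En.n l2593 (nat_lit 1226) (nat_lit 14) (nat_lit 9))
    (@En.n l1738 (nat_lit 8555) (nat_lit 4) (nat_lit 10))
    (@En.n l17 (nat_lit 2819) (nat_lit 5) (nat_lit 2))
    (@En.n l18 (nat_lit 2820) (nat_lit 14) (nat_lit 5))
    (@En.n l1531 (nat_lit 3896) (nat_lit 1) (nat_lit 14))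
    (@En.n l3 (nat_lit 2819) (nat_lit 8) (nat_lit 2))
    (@En.n l10235 (nat_lit 2951) (nat_lit 10) (nat_lit 9))
    (@En.n l16279 (nat_lit 13408) (nat_lit 4) (nat_lit 14))
    (@En.n l16280 (nat_lit 5580) (nat_lit 12) (nat_lit 11))
    (@En.i (nat_lit 3374) (nat_lit 13) (nat_lit 7))
    (@En.n l14644 (nat_lit 2815) (nat_lit 7) (nat_lit 3))
    (@En.n l14348 (nat_lit 1344) (nat_lit 0) (nat_lit 6))
    (@En.n l28 (nat_lit 2819) (nat_lit 15) (nat_lit 2))))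
  (@Cl.mk (nat_lit 0x200050005000a00090006000e000d0002000600030007000b000b000e000a) (nat_lit 0x503800000112) (nat_lit 16) Lb.e (@T16.mk En
    (@En.n l14347 (nat_lit 3006) (nat_lit 9) (nat_lit 10))
    (@En.i (nat_lit 2819) (nat_lit 10) (nat_lit 14))
    (@En.n l5 (nat_lit 2819) (nat_lit 11) (nat_lit 11))
    (@En.i (nat_lit 5575) (nat_lit 3) (nat_lit 11))
    (@En.i (nat_lit 3387) (nat_lit 4) (nat_lit 7))
    (@En.i (nat_lit 2816) (nat_lit 5) (nat_lit 3))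
    (@En.i (nat_lit 1276) (nat_lit 6) (nat_lit 6))
    (@En.n l28 (nat_lit 2820) (nat_lit 7) (nat_lit 2))
    (@En.n l134 (nat_lit 2816) (nat_lit 9) (nat_lit 13))
    (@En.i (nat_lit 3203) (nat_lit 10) (nat_lit 14))
    (@En.n l117 (nat_lit 2271) (nat_lit 2) (nat_lit 6))
    (@En.n l2593 (nat_lit 1222) (nat_lit 12) (nat_lit 9))
    (@En.i (nat_lit 8553) (nat_lit 13) (nat_lit 10))
    (@En.n l17 (nat_lit 2822) (nat_lit 14) (nat_lit 5))
    (@En.n l15068 (nat_lit 3899) (nat_lit 6) (nat_lit 5))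
    (@En.n l3 (nat_lit 2820) (nat_lit 15) (nat_lit 2))))
  (@Cl.mk (nat_lit 0x20005000b00090005000d000d0005000300030007000e000b0002000e000b) (nat_lit 0x4017000001022) (nat_lit 16) Lb.e (@T16.mk En
    (@En.n l3850 (nat_lit 3007) (nat_lit 14) (nat_lit 11))
    (@En.i (nat_lit 2816) (nat_lit 1) (nat_lit 14))
    (@En.n l18 (nat_lit 2821) (nat_lit 2) (nat_lit 2))
    (@En.n l5 (nat_lit 2816) (nat_lit 3) (nat_lit 11))
    (@En.n l417 (nat_lit 4814) (nat_lit 5) (nat_lit 14))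
    (@En.n l538 (nat_lit 3364) (nat_lit 5) (nat_lit 7))
    (@En.n l7 (nat_lit 2822) (nat_lit 6) (nat_lit 3))
    (@En.n l427 (nat_lit 2823) (nat_lit 7) (nat_lit 3))
    (@En.i (nat_lit 3020) (nat_lit 8) (nat_lit 5))
    (@En.n l576 (nat_lit 2823) (nat_lit 10) (nat_lit 13))
    (@En.n l3260 (nat_lit 2743) (nat_lit 11) (nat_lit 13))
    (@En.n l417 (nat_lit 2272) (nat_lit 8) (nat_lit 5))
    (@En.n l538 (nat_lit 1225) (nat_lit 13) (nat_lit 9))
    (@En.i (nat_lit 12776) (nat_lit 14) (nat_lit 11))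
    (@En.n l2845 (nat_lit 3082) (nat_lit 13) (nat_lit 5))
    (@En.n l3 (nat_lit 2821) (nat_lit 15) (nat_lit 2))))
  (@Cl.mk (nat_lit 0x20005000a00090005000e000d0002000600030007000e000b0002000e000b) (nat_lit 0x3032000001022) (nat_lit 16) Lb.e (@T16.mk En
    (@En.n l5347 (nat_lit 3008) (nat_lit 8) (nat_lit 11))
    (@En.i (nat_lit 2820) (nat_lit 1) (nat_lit 14))
    (@En.n l18 (nat_lit 2822) (nat_lit 2) (nat_lit 2))
    (@En.n l5 (nat_lit 2820) (nat_lit 3) (nat_lit 11))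
    (@En.n l2571 (nat_lit 4813) (nat_lit 12) (nat_lit 14))
    (@En.i (nat_lit 3372) (nat_lit 5) (nat_lit 7))
    (@En.i (nat_lit 2821) (nat_lit 6) (nat_lit 3))
    (@En.i (nat_lit 1275) (nat_lit 7) (nat_lit 6))
    (@En.n l28 (nat_lit 2822) (nat_lit 8) (nat_lit 2))
    (@En.n l134 (nat_lit 2821) (nat_lit 10) (nat_lit 13))
    (@En.i (nat_lit 3204) (nat_lit 11) (nat_lit 14))
    (@En.n l117 (nat_lit 2270) (nat_lit 2) (nat_lit 5))
    (@En.n l2593 (nat_lit 1220) (nat_lit 13) (nat_lit 9))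
    (@En.i (nat_lit 12808) (nat_lit 4) (nat_lit 10))
    (@En.i (nat_lit 3895) (nat_lit 5) (nat_lit 5))
    (@En.n l3 (nat_lit 2822) (nat_lit 15) (nat_lit 2))))
  (@Cl.mk (nat_lit 0x20005000c00090005000d0004000e000300020007000e000b0002000e000b) (nat_lit 0x40600000b1072) (nat_lit 16) Lb.e (@T16.mk En
    (@En.i (nat_lit 3009) (nat_lit 10) (nat_lit 11))
    (@En.n l7686 (nat_lit 2818) (nat_lit 1) (nat_lit 14))
    (@En.n l3 (nat_lit 2823) (nat_lit 2) (nat_lit 2))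
    (@En.n l7687 (nat_lit 2818) (nat_lit 3) (nat_lit 11))
    (@En.i (nat_lit 4817) (nat_lit 5) (nat_lit 14))
    (@En.n l1374 (nat_lit 3366) (nat_lit 5) (nat_lit 7))
    (@En.n l17 (nat_lit 2823) (nat_lit 6) (nat_lit 2))
    (@En.n l435 (nat_lit 2821) (nat_lit 7) (nat_lit 3))
    (@En.n l521 (nat_lit 13748) (nat_lit 0) (nat_lit 14))
    (@En.n l436 (nat_lit 2966) (nat_lit 9) (nat_lit 4))
    (@En.n l1395 (nat_lit 2742) (nat_lit 11) (nat_lit 13))
    (@En.i (nat_lit 2370) (nat_lit 4) (nat_lit 5))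
    (@En.n l1374 (nat_lit 3063) (nat_lit 13) (nat_lit 9))
    (@En.n l3986 (nat_lit 12777) (nat_lit 7) (nat_lit 12))
    (@En.n l810 (nat_lit 3084) (nat_lit 7) (nat_lit 5))
    (@En.n l28 (nat_lit 2823) (nat_lit 15) (nat_lit 2))))
  (@Cl.mk (nat_lit 0x2000a0008000b00080008000d0006000500030008000c00080008000e0004) (nat_lit 0x71831b0001a2200) (nat_lit 16) Lb.e (@T16.mk En
    (@En.i (nat_lit 2798) (nat_lit 9) (nat_lit 4))
    (@En.n l28799 (nat_lit 3661) (nat_lit 1) (nat_lit 14))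
    (@En.n l28746 (nat_lit 1826) (nat_lit 2) (nat_lit 8))
    (@En.i (nat_lit 1995) (nat_lit 3) (nat_lit 8))
    (@En.i (nat_lit 11019) (nat_lit 5) (nat_lit 12))
    (@En.n l28800 (nat_lit 2804) (nat_lit 5) (nat_lit 8))
    (@En.n l28801 (nat_lit 2808) (nat_lit 6) (nat_lit 3))
    (@En.n l18 (nat_lit 2051) (nat_lit 0) (nat_lit 5))
    (@En.n l15271 (nat_lit 2167) (nat_lit 8) (nat_lit 6))
    (@En.i (nat_lit 8746) (nat_lit 10) (nat_lit 13))
    (@En.n l1867 (nat_lit 2814) (nat_lit 11) (nat_lit 8))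
    (@En.n l20880 (nat_lit 9404) (nat_lit 12) (nat_lit 8))
    (@En.n l20880 (nat_lit 2702) (nat_lit 13) (nat_lit 11))
    (@En.n l28802 (nat_lit 2785) (nat_lit 14) (nat_lit 8))
    (@En.i (nat_lit 8401) (nat_lit 8) (nat_lit 10))
    (@En.n l28 (nat_lit 2824) (nat_lit 15) (nat_lit 2))))
  (@Cl.mk (nat_lit 0x30009000d000900080003000b00090007000a000700050008000d00070006) (nat_lit 0x2200502002300) (nat_lit 16) Lb.e (@T16.mk En
    (@En.n l8147 (nat_lit 2583) (nat_lit 0) (nat_lit 6))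
    (@En.n l4263 (nat_lit 2840) (nat_lit 6) (nat_lit 7))
    (@En.n l3528 (nat_lit 10292) (nat_lit 8) (nat_lit 13))
    (@En.n l20348 (nat_lit 2824) (nat_lit 10) (nat_lit 8))
    (@En.n l18645 (nat_lit 4309) (nat_lit 4) (nat_lit 5))
    (@En.i (nat_lit 10557) (nat_lit 5) (nat_lit 7))
    (@En.n l18645 (nat_lit 1339) (nat_lit 8) (nat_lit 10))
    (@En.n l29922 (nat_lit 4294) (nat_lit 7) (nat_lit 7))
    (@En.i (nat_lit 9643) (nat_lit 14) (nat_lit 9))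
    (@En.n l6698 (nat_lit 2829) (nat_lit 10) (nat_lit 11))
    (@En.n l9956 (nat_lit 2828) (nat_lit 10) (nat_lit 3))
    (@En.n l4758 (nat_lit 1178) (nat_lit 0) (nat_lit 8))
    (@En.n l22681 (nat_lit 1993) (nat_lit 13) (nat_lit 9))
    (@En.n l20348 (nat_lit 11467) (nat_lit 6) (nat_lit 13))
    (@En.n l18945 (nat_lit 2826) (nat_lit 3) (nat_lit 9))
    (@En.n l29923 (nat_lit 2827) (nat_lit 15) (nat_lit 3))))
  (@Cl.mk (nat_lit 0x3000a00080007000b000a0008000600090005000800060009000d00080007) (nat_lit 0x60235010507010) (nat_lit 16) Lb.e (@T16.mk En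
    (@En.n l2040 (nat_lit 1179) (nat_lit 0) (nat_lit 7))
    (@En.n l36459 (nat_lit 1997) (nat_lit 11) (nat_lit 8))
    (@En.i (nat_lit 10624) (nat_lit 6) (nat_lit 13))
    (@En.n l9687 (nat_lit 4547) (nat_lit 9) (nat_lit 9))
    (@En.n l28290 (nat_lit 1759) (nat_lit 4) (nat_lit 6))
    (@En.n l9687 (nat_lit 2839) (nat_lit 10) (nat_lit 8))
    (@En.n l36460 (nat_lit 12051) (nat_lit 6) (nat_lit 5))
    (@En.n l9687 (nat_lit 2804) (nat_lit 9) (nat_lit 9))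
    (@En.n l5585 (nat_lit 4306) (nat_lit 8) (nat_lit 6))
    (@En.n l2824 (nat_lit 10564) (nat_lit 2) (nat_lit 8))
    (@En.n l24220 (nat_lit 2825) (nat_lit 6) (nat_lit 10))
    (@En.n l36316 (nat_lit 2835) (nat_lit 12) (nat_lit 11))
    (@En.n l36461 (nat_lit 2837) (nat_lit 13) (nat_lit 7))
    (@En.n l3866 (nat_lit 8404) (nat_lit 14) (nat_lit 8))
    (@En.n l36462 (nat_lit 2831) (nat_lit 8) (nat_lit 10))
    (@En.n l36463 (nat_lit 2834) (nat_lit 15) (nat_lit 3))))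
  (@Cl.mk (nat_lit 0x30009000d000900080003000b00080007000b000700050008000d00050008) (nat_lit 0x702200000001405) (nat_lit 16) Lb.e (@T16.mk En
    (@En.n l29798 (nat_lit 4212) (nat_lit 10) (nat_lit 8))
    (@En.n l25998 (nat_lit 2826) (nat_lit 6) (nat_lit 5))
    (@En.n l6117 (nat_lit 10290) (nat_lit 8) (nat_lit 13))
    (@En.n l29799 (nat_lit 2808) (nat_lit 10) (nat_lit 8))
    (@En.n l3098 (nat_lit 4249) (nat_lit 4) (nat_lit 5))
    (@En.i (nat_lit 10552) (nat_lit 5) (nat_lit 7))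
    (@En.n l29800 (nat_lit 4238) (nat_lit 12) (nat_lit 11))
    (@En.i (nat_lit 4237) (nat_lit 7) (nat_lit 7))
    (@En.n l29801 (nat_lit 8881) (nat_lit 14) (nat_lit 8))
    (@En.n l28673 (nat_lit 2832) (nat_lit 10) (nat_lit 11))
    (@En.n l16296 (nat_lit 3409) (nat_lit 10) (nat_lit 3))
    (@En.n l61 (nat_lit 1180) (nat_lit 0) (nat_lit 8))
    (@En.n l20605 (nat_lit 1994) (nat_lit 13) (nat_lit 9))
    (@En.n l29802 (nat_lit 11470) (nat_lit 6) (nat_lit 13))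
    (@En.n l29803 (nat_lit 4526) (nat_lit 3) (nat_lit 9))
    (@En.n l29804 (nat_lit 2825) (nat_lit 15) (nat_lit 3))))
  (@Cl.mk (nat_lit 0x30009000d0007000a0003000b00090007000a000600050009000d00070006) (nat_lit 0x700706005300) (nat_lit 16) Lb.e (@T16.mk En
    (@En.n l11401 (nat_lit 2581) (nat_lit 0) (nat_lit 6))
    (@En.i (nat_lit 2848) (nat_lit 6) (nat_lit 7))
    (@En.i (nat_lit 8703) (nat_lit 6) (nat_lit 13))
    (@En.n l16218 (nat_lit 4308) (nat_lit 3) (nat_lit 9))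
    (@En.n l1003 (nat_lit 4307) (nat_lit 4) (nat_lit 5))
    (@En.n l17 (nat_lit 10403) (nat_lit 5) (nat_lit 6))
    (@En.n l1003 (nat_lit 3475) (nat_lit 8) (nat_lit 10))
    (@En.n l40698 (nat_lit 4295) (nat_lit 7) (nat_lit 7))
    (@En.n l11403 (nat_lit 9650) (nat_lit 14) (nat_lit 9))
    (@En.n l20451 (nat_lit 4526) (nat_lit 10) (nat_lit 11))
    (@En.n l3522 (nat_lit 2825) (nat_lit 10) (nat_lit 3))
    (@En.n l6788 (nat_lit 4560) (nat_lit 0) (nat_lit 10))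
    (@En.n l8922 (nat_lit 2829) (nat_lit 13) (nat_lit 7))
    (@En.i (nat_lit 11471) (nat_lit 6) (nat_lit 13))
    (@En.i (nat_lit 2834) (nat_lit 3) (nat_lit 9))
    (@En.n l11469 (nat_lit 3409) (nat_lit 15) (nat_lit 3))))
  (@Cl.mk (nat_lit 0x3000a0007000a0008000b0008000600090006000500090008000d00080007) (nat_lit 0x802294020023450) (nat_lit 16) Lb.e (@T16.mk En
    (@En.n l34580 (nat_lit 2585) (nat_lit 0) (nat_lit 7))
    (@En.n l34581 (nat_lit 2842) (nat_lit 3) (nat_lit 8))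
    (@En.n l34582 (nat_lit 9818) (nat_lit 2) (nat_lit 13))
    (@En.n l2491 (nat_lit 2825) (nat_lit 3) (nat_lit 8))
    (@En.n l34583 (nat_lit 2830) (nat_lit 10) (nat_lit 9))
    (@En.n l34584 (nat_lit 4220) (nat_lit 11) (nat_lit 5))
    (@En.n l34585 (nat_lit 10556) (nat_lit 6) (nat_lit 6))
    (@En.n l34584 (nat_lit 3479) (nat_lit 9) (nat_lit 9))
    (@En.n l936 (nat_lit 4228) (nat_lit 8) (nat_lit 6))
    (@En.n l34582 (nat_lit 9476) (nat_lit 10) (nat_lit 8))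
    (@En.i (nat_lit 3425) (nat_lit 7) (nat_lit 11))
    (@En.n l34586 (nat_lit 1176) (nat_lit 12) (nat_lit 8))
    (@En.n l34582 (nat_lit 3189) (nat_lit 8) (nat_lit 10))
    (@En.i (nat_lit 10022) (nat_lit 14) (nat_lit 7))
    (@En.n l34587 (nat_lit 2831) (nat_lit 12) (nat_lit 10))
    (@En.n l4189 (nat_lit 2832) (nat_lit 15) (nat_lit 3))))
  (@Cl.mk (nat_lit 0x300090007000a000600090007000d00070006000300090007000d000a0009) (nat_lit 0x502010300070132) (nat_lit 16) Lb.e (@T16.mk En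
    (@En.n l6444 (nat_lit 1096) (nat_lit 0) (nat_lit 9))
    (@En.n l18757 (nat_lit 2829) (nat_lit 12) (nat_lit 10))
    (@En.n l18758 (nat_lit 2825) (nat_lit 13) (nat_lit 13))
    (@En.n l18759 (nat_lit 10563) (nat_lit 14) (nat_lit 7))
    (@En.n l3529 (nat_lit 2833) (nat_lit 4) (nat_lit 9))
    (@En.n l2710 (nat_lit 4233) (nat_lit 5) (nat_lit 3))
    (@En.n l18760 (nat_lit 2584) (nat_lit 0) (nat_lit 6))
    (@En.n l3532 (nat_lit 2844) (nat_lit 7) (nat_lit 7))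
    (@En.n l18761 (nat_lit 9817) (nat_lit 9) (nat_lit 13))
    (@En.n l18762 (nat_lit 2798) (nat_lit 3) (nat_lit 7))
    (@En.n l9943 (nat_lit 2360) (nat_lit 9) (nat_lit 9))
    (@En.i (nat_lit 8839) (nat_lit 5) (nat_lit 6))
    (@En.n l18763 (nat_lit 3478) (nat_lit 8) (nat_lit 10))
    (@En.i (nat_lit 4227) (nat_lit 14) (nat_lit 7))
    (@En.n l7799 (nat_lit 9477) (nat_lit 9) (nat_lit 9))
    (@En.n l18764 (nat_lit 4220) (nat_lit 15) (nat_lit 3))))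
  (@Cl.mk (nat_lit 0x600090007000a000600090007000a00070006000a000900070006000a0009) (nat_lit 0x507060800230022) (nat_lit 16) Lb.e (@T16.mk En
    (@En.n l38463 (nat_lit 2826) (nat_lit 7) (nat_lit 9))
    (@En.n l38464 (nat_lit 2833) (nat_lit 9) (nat_lit 10))
    (@En.n l38084 (nat_lit 4221) (nat_lit 10) (nat_lit 6))
    (@En.n l38465 (nat_lit 10565) (nat_lit 9) (nat_lit 7))
    (@En.n l38466 (nat_lit 2829) (nat_lit 7) (nat_lit 9))
    (@En.n l38467 (nat_lit 2836) (nat_lit 9) (nat_lit 10))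
    (@En.n l13017 (nat_lit 4226) (nat_lit 10) (nat_lit 6))
    (@En.n l10348 (nat_lit 8402) (nat_lit 9) (nat_lit 7))
    (@En.n l117 (nat_lit 4535) (nat_lit 8) (nat_lit 10))
    (@En.n l22666 (nat_lit 1177) (nat_lit 9) (nat_lit 7))
    (@En.n l13017 (nat_lit 3190) (nat_lit 9) (nat_lit 9))
    (@En.n l38468 (nat_lit 10722) (nat_lit 15) (nat_lit 6))
    (@En.i (nat_lit 4534) (nat_lit 8) (nat_lit 10))
    (@En.n l38469 (nat_lit 1754) (nat_lit 9) (nat_lit 7))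
    (@En.i (nat_lit 2841) (nat_lit 9) (nat_lit 9))
    (@En.n l38470 (nat_lit 9919) (nat_lit 3) (nat_lit 6))))
noncomputable def a177 : T16 Cl := @T16.mk Cl
  (@Cl.mk (nat_lit 0x3000a0007000a0008000b00070006000a0006000500090008000d00060009) (nat_lit 0x807290020002506) (nat_lit 16) Lb.e (@T16.mk En
    (@En.n l39165 (nat_lit 4213) (nat_lit 9) (nat_lit 9))
    (@En.n l27112 (nat_lit 2831) (nat_lit 15) (nat_lit 6))
    (@En.n l8145 (nat_lit 9821) (nat_lit 2) (nat_lit 13))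
    (@En.n l38459 (nat_lit 2827) (nat_lit 3) (nat_lit 8))
    (@En.n l23263 (nat_lit 4233) (nat_lit 10) (nat_lit 9))
    (@En.n l39166 (nat_lit 4219) (nat_lit 11) (nat_lit 5))
    (@En.n l476 (nat_lit 10554) (nat_lit 6) (nat_lit 6))
    (@En.n l18223 (nat_lit 4232) (nat_lit 9) (nat_lit 10))
    (@En.i (nat_lit 4230) (nat_lit 10) (nat_lit 6))
    (@En.n l5408 (nat_lit 9727) (nat_lit 10) (nat_lit 7))
    (@En.i (nat_lit 4703) (nat_lit 7) (nat_lit 11))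
    (@En.n l39167 (nat_lit 1043) (nat_lit 12) (nat_lit 8))
    (@En.i (nat_lit 3188) (nat_lit 8) (nat_lit 10))
    (@En.n l39168 (nat_lit 10023) (nat_lit 14) (nat_lit 7))
    (@En.n l11 (nat_lit 4528) (nat_lit 12) (nat_lit 10))
    (@En.n l21562 (nat_lit 2829) (nat_lit 15) (nat_lit 3))))
  (@Cl.mk (nat_lit 0x300080007000b000a0007000a000800050008000600090006000d00090008) (nat_lit 0x602301104060172) (nat_lit 16) Lb.e (@T16.mk En
    (@En.n l22871 (nat_lit 1095) (nat_lit 0) (nat_lit 8))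
    (@En.n l22872 (nat_lit 2831) (nat_lit 10) (nat_lit 9))
    (@En.n l22873 (nat_lit 2826) (nat_lit 2) (nat_lit 13))
    (@En.n l22874 (nat_lit 10723) (nat_lit 3) (nat_lit 6))
    (@En.n l22871 (nat_lit 4553) (nat_lit 9) (nat_lit 9))
    (@En.n l22875 (nat_lit 1751) (nat_lit 5) (nat_lit 6))
    (@En.n l1020 (nat_lit 2843) (nat_lit 10) (nat_lit 8))
    (@En.n l3535 (nat_lit 9920) (nat_lit 7) (nat_lit 5))
    (@En.n l9217 (nat_lit 2799) (nat_lit 8) (nat_lit 8))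
    (@En.n l1023 (nat_lit 2359) (nat_lit 8) (nat_lit 10))
    (@En.n l936 (nat_lit 10566) (nat_lit 2) (nat_lit 7))
    (@En.n l870 (nat_lit 2830) (nat_lit 12) (nat_lit 10))
    (@En.n l22876 (nat_lit 4224) (nat_lit 8) (nat_lit 11))
    (@En.i (nat_lit 4225) (nat_lit 14) (nat_lit 7))
    (@En.n l9451 (nat_lit 8409) (nat_lit 12) (nat_lit 8))
    (@En.n l22802 (nat_lit 4221) (nat_lit 15) (nat_lit 3))))
  (@Cl.mk (nat_lit 0x3000a00080007000b000a00070006000a0005000800060009000d00060009) (nat_lit 0x60070060407406) (nat_lit 16) Lb.e (@T16.mk En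
    (@En.n l6788 (nat_lit 4475) (nat_lit 9) (nat_lit 9))
    (@En.n l43042 (nat_lit 2831) (nat_lit 11) (nat_lit 6))
    (@En.n l43043 (nat_lit 10626) (nat_lit 6) (nat_lit 13))
    (@En.n l43044 (nat_lit 4548) (nat_lit 9) (nat_lit 9))
    (@En.n l43045 (nat_lit 2514) (nat_lit 4) (nat_lit 6))
    (@En.n l40370 (nat_lit 2847) (nat_lit 10) (nat_lit 8))
    (@En.n l37350 (nat_lit 12053) (nat_lit 6) (nat_lit 5))
    (@En.n l43046 (nat_lit 4305) (nat_lit 9) (nat_lit 10))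
    (@En.n l1003 (nat_lit 4304) (nat_lit 10) (nat_lit 6))
    (@En.n l43047 (nat_lit 10833) (nat_lit 2) (nat_lit 7))
    (@En.n l7 (nat_lit 2828) (nat_lit 6) (nat_lit 10))
    (@En.n l43045 (nat_lit 4298) (nat_lit 12) (nat_lit 11))
    (@En.n l43048 (nat_lit 4296) (nat_lit 13) (nat_lit 7))
    (@En.n l32553 (nat_lit 9651) (nat_lit 14) (nat_lit 8))
    (@En.n l43049 (nat_lit 4528) (nat_lit 4) (nat_lit 10))
    (@En.n l38284 (nat_lit 2826) (nat_lit 15) (nat_lit 3))))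
  (@Cl.mk (nat_lit 0x3000b0008000b00090007000500080005000d000800070003000d00090008) (nat_lit 0x61200104600072) (nat_lit 16) Lb.e (@T16.mk En
    (@En.n l20458 (nat_lit 1181) (nat_lit 0) (nat_lit 8))
    (@En.n l6587 (nat_lit 3131) (nat_lit 14) (nat_lit 9))
    (@En.n l20459 (nat_lit 10623) (nat_lit 2) (nat_lit 13))
    (@En.n l20460 (nat_lit 2837) (nat_lit 3) (nat_lit 3))
    (@En.n l20461 (nat_lit 2602) (nat_lit 0) (nat_lit 7))
    (@En.n l20462 (nat_lit 2826) (nat_lit 5) (nat_lit 8))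
    (@En.n l20463 (nat_lit 2825) (nat_lit 2) (nat_lit 13))
    (@En.n l6581 (nat_lit 12052) (nat_lit 7) (nat_lit 5))
    (@En.n l20464 (nat_lit 2807) (nat_lit 10) (nat_lit 8))
    (@En.n l20465 (nat_lit 4303) (nat_lit 9) (nat_lit 5))
    (@En.n l4037 (nat_lit 10569) (nat_lit 6) (nat_lit 7))
    (@En.n l20466 (nat_lit 1336) (nat_lit 12) (nat_lit 9))
    (@En.i (nat_lit 1599) (nat_lit 7) (nat_lit 11))
    (@En.i (nat_lit 9670) (nat_lit 14) (nat_lit 8))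
    (@En.n l6585 (nat_lit 2836) (nat_lit 11) (nat_lit 11))
    (@En.n l20467 (nat_lit 4298) (nat_lit 15) (nat_lit 3))))
  (@Cl.mk (nat_lit 0x30007000a0008000b0007000a000800060005000900080006000d00090008) (nat_lit 0x72901200020563) (nat_lit 16) Lb.e (@T16.mk En
    (@En.n l22838 (nat_lit 2604) (nat_lit 0) (nat_lit 8))
    (@En.n l22839 (nat_lit 2831) (nat_lit 14) (nat_lit 9))
    (@En.n l22840 (nat_lit 2829) (nat_lit 2) (nat_lit 13))
    (@En.i (nat_lit 10508) (nat_lit 3) (nat_lit 6))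
    (@En.n l11420 (nat_lit 2835) (nat_lit 8) (nat_lit 8))
    (@En.n l3272 (nat_lit 4224) (nat_lit 5) (nat_lit 9))
    (@En.n l2711 (nat_lit 4222) (nat_lit 6) (nat_lit 5))
    (@En.n l17 (nat_lit 10568) (nat_lit 7) (nat_lit 6))
    (@En.n l22841 (nat_lit 3482) (nat_lit 8) (nat_lit 8))
    (@En.i (nat_lit 1601) (nat_lit 8) (nat_lit 10))
    (@En.n l22842 (nat_lit 9425) (nat_lit 11) (nat_lit 7))
    (@En.n l11419 (nat_lit 3424) (nat_lit 7) (nat_lit 11))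
    (@En.n l22843 (nat_lit 1044) (nat_lit 13) (nat_lit 8))
    (@En.n l22844 (nat_lit 3191) (nat_lit 8) (nat_lit 10))
    (@En.n l11419 (nat_lit 10726) (nat_lit 12) (nat_lit 7))
    (@En.n l22845 (nat_lit 4226) (nat_lit 15) (nat_lit 3))))
  (@Cl.mk (nat_lit 0x3000b0007000b000a0007000500080005000d000600090003000d00090008) (nat_lit 0x1300105000022) (nat_lit 16) Lb.e (@T16.mk En
    (@En.n l61 (nat_lit 1182) (nat_lit 0) (nat_lit 8))
    (@En.n l20605 (nat_lit 3126) (nat_lit 14) (nat_lit 9))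
    (@En.n l36452 (nat_lit 10031) (nat_lit 2) (nat_lit 13))
    (@En.n l36453 (nat_lit 2835) (nat_lit 3) (nat_lit 3))
    (@En.n l36454 (nat_lit 4554) (nat_lit 9) (nat_lit 9))
    (@En.n l18781 (nat_lit 3302) (nat_lit 5) (nat_lit 6))
    (@En.n l5035 (nat_lit 2827) (nat_lit 2) (nat_lit 13))
    (@En.n l3106 (nat_lit 12055) (nat_lit 7) (nat_lit 5))
    (@En.n l3098 (nat_lit 2786) (nat_lit 10) (nat_lit 8))
    (@En.n l3098 (nat_lit 4302) (nat_lit 9) (nat_lit 5))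
    (@En.n l36455 (nat_lit 10571) (nat_lit 6) (nat_lit 7))
    (@En.n l3 (nat_lit 4294) (nat_lit 6) (nat_lit 10))
    (@En.n l36456 (nat_lit 1602) (nat_lit 8) (nat_lit 11))
    (@En.n l36457 (nat_lit 10133) (nat_lit 14) (nat_lit 7))
    (@En.n l28673 (nat_lit 4226) (nat_lit 11) (nat_lit 11))
    (@En.n l36458 (nat_lit 4296) (nat_lit 15) (nat_lit 3))))
  (@Cl.mk (nat_lit 0x2000c00090009000700040007000c000c00070007000400040009000e0009) (nat_lit 0x156000a40000621) (nat_lit 16) Lb.e (@T16.mk En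
    (@En.i (nat_lit 2164) (nat_lit 12) (nat_lit 9))
    (@En.n l396 (nat_lit 3380) (nat_lit 1) (nat_lit 14))
    (@En.n l8376 (nat_lit 6937) (nat_lit 2) (nat_lit 9))
    (@En.n l8377 (nat_lit 2163) (nat_lit 12) (nat_lit 4))
    (@En.n l8378 (nat_lit 2851) (nat_lit 4) (nat_lit 4))
    (@En.n l152 (nat_lit 1798) (nat_lit 9) (nat_lit 7))
    (@En.n l936 (nat_lit 2839) (nat_lit 6) (nat_lit 7))
    (@En.n l55 (nat_lit 2533) (nat_lit 4) (nat_lit 12))
    (@En.n l8379 (nat_lit 12686) (nat_lit 9) (nat_lit 12))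
    (@En.i (nat_lit 3242) (nat_lit 11) (nat_lit 7))
    (@En.n l420 (nat_lit 2462) (nat_lit 10) (nat_lit 4))
    (@En.n l8380 (nat_lit 6757) (nat_lit 12) (nat_lit 7))
    (@En.n l8381 (nat_lit 2179) (nat_lit 7) (nat_lit 9))
    (@En.n l4770 (nat_lit 9253) (nat_lit 14) (nat_lit 9))
    (@En.n l1738 (nat_lit 2164) (nat_lit 10) (nat_lit 12))
    (@En.n l18 (nat_lit 2838) (nat_lit 15) (nat_lit 2))))
  (@Cl.mk (nat_lit 0x2000b00090007000a000800050008000d00070006000300090008000e0008) (nat_lit 0x60640050006592) (nat_lit 16) Lb.e (@T16.mk En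
    (@En.n l5607 (nat_lit 2840) (nat_lit 12) (nat_lit 8))
    (@En.n l5601 (nat_lit 4546) (nat_lit 1) (nat_lit 14))
    (@En.n l19887 (nat_lit 6925) (nat_lit 2) (nat_lit 8))
    (@En.n l7866 (nat_lit 2841) (nat_lit 3) (nat_lit 9))
    (@En.n l19888 (nat_lit 2847) (nat_lit 4) (nat_lit 3))
    (@En.n l152 (nat_lit 1483) (nat_lit 0) (nat_lit 6))
    (@En.n l1769 (nat_lit 1984) (nat_lit 6) (nat_lit 7))
    (@En.n l5601 (nat_lit 12107) (nat_lit 8) (nat_lit 13))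
    (@En.i (nat_lit 4192) (nat_lit 10) (nat_lit 8))
    (@En.n l420 (nat_lit 2620) (nat_lit 9) (nat_lit 5))
    (@En.n l19889 (nat_lit 6810) (nat_lit 11) (nat_lit 8))
    (@En.i (nat_lit 2533) (nat_lit 8) (nat_lit 10))
    (@En.n l19890 (nat_lit 2849) (nat_lit 13) (nat_lit 7))
    (@En.n l9657 (nat_lit 9628) (nat_lit 14) (nat_lit 9))
    (@En.n l5606 (nat_lit 2840) (nat_lit 10) (nat_lit 11))
    (@En.n l18 (nat_lit 2839) (nat_lit 15) (nat_lit 2))))
  (@Cl.mk (nat_lit 0x3000a000900080008000b0008000600090007000500080008000d00080007) (nat_lit 0x751094060051640) (nat_lit 16) Lb.e (@T16.mk En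
    (@En.n l24502 (nat_lit 1482) (nat_lit 0) (nat_lit 7))
    (@En.n l23924 (nat_lit 1988) (nat_lit 12) (nat_lit 8))
    (@En.n l30018 (nat_lit 11872) (nat_lit 2) (nat_lit 13))
    (@En.n l12251 (nat_lit 2839) (nat_lit 8) (nat_lit 8))
    (@En.n l24496 (nat_lit 4210) (nat_lit 10) (nat_lit 8))
    (@En.n l30019 (nat_lit 2442) (nat_lit 5) (nat_lit 5))
    (@En.n l10718 (nat_lit 6807) (nat_lit 6) (nat_lit 7))
    (@En.n l24496 (nat_lit 2167) (nat_lit 9) (nat_lit 9))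
    (@En.n l19233 (nat_lit 2850) (nat_lit 8) (nat_lit 6))
    (@En.n l601 (nat_lit 8826) (nat_lit 10) (nat_lit 8))
    (@En.n l12393 (nat_lit 2888) (nat_lit 7) (nat_lit 11))
    (@En.n l1657 (nat_lit 2888) (nat_lit 8) (nat_lit 8))
    (@En.n l12243 (nat_lit 2827) (nat_lit 8) (nat_lit 8))
    (@En.n l1236 (nat_lit 6919) (nat_lit 7) (nat_lit 9))
    (@En.n l30020 (nat_lit 2842) (nat_lit 12) (nat_lit 10))
    (@En.n l27594 (nat_lit 2848) (nat_lit 15) (nat_lit 3))))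
  (@Cl.mk (nat_lit 0x2000a00080007000b000a00090006000900050008000600090007000e0007) (nat_lit 0x60674000205070) (nat_lit 16) Lb.e (@T16.mk En
    (@En.n l7 (nat_lit 2842) (nat_lit 10) (nat_lit 7))
    (@En.n l8524 (nat_lit 4533) (nat_lit 1) (nat_lit 14))
    (@En.n l10348 (nat_lit 5053) (nat_lit 2) (nat_lit 7))
    (@En.n l117 (nat_lit 5229) (nat_lit 3) (nat_lit 9))
    (@En.i (nat_lit 1472) (nat_lit 4) (nat_lit 6))
    (@En.i (nat_lit 1674) (nat_lit 5) (nat_lit 8))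
    (@En.n l8528 (nat_lit 9830) (nat_lit 6) (nat_lit 5))
    (@En.i (nat_lit 4190) (nat_lit 9) (nat_lit 9))
    (@En.n l4896 (nat_lit 2621) (nat_lit 8) (nat_lit 6))
    (@En.n l8528 (nat_lit 1716) (nat_lit 10) (nat_lit 9))
    (@En.n l10727 (nat_lit 2839) (nat_lit 11) (nat_lit 10))
    (@En.n l8529 (nat_lit 2843) (nat_lit 12) (nat_lit 11))
    (@En.n l13077 (nat_lit 2845) (nat_lit 13) (nat_lit 7))
    (@En.n l22184 (nat_lit 8827) (nat_lit 14) (nat_lit 8))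
    (@En.n l4600 (nat_lit 2842) (nat_lit 8) (nat_lit 10))
    (@En.n l18 (nat_lit 2841) (nat_lit 15) (nat_lit 2))))
  (@Cl.mk (nat_lit 0x600090007000a000800070007000a00070006000a00090008000600090009) (nat_lit 0x406400800574061) (nat_lit 16) Lb.e (@T16.mk En
    (@En.n l2337 (nat_lit 2841) (nat_lit 7) (nat_lit 9))
    (@En.i (nat_lit 4211) (nat_lit 9) (nat_lit 9))
    (@En.n l1599 (nat_lit 2612) (nat_lit 10) (nat_lit 6))
    (@En.n l34834 (nat_lit 1715) (nat_lit 8) (nat_lit 8))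
    (@En.n l34835 (nat_lit 2840) (nat_lit 7) (nat_lit 9))
    (@En.n l34836 (nat_lit 2844) (nat_lit 9) (nat_lit 10))
    (@En.n l34837 (nat_lit 2846) (nat_lit 10) (nat_lit 6))
    (@En.n l34838 (nat_lit 8821) (nat_lit 9) (nat_lit 7))
    (@En.n l34839 (nat_lit 2889) (nat_lit 8) (nat_lit 10))
    (@En.n l34840 (nat_lit 2889) (nat_lit 9) (nat_lit 7))
    (@En.n l34841 (nat_lit 2832) (nat_lit 9) (nat_lit 7))
    (@En.n l34842 (nat_lit 5054) (nat_lit 8) (nat_lit 8))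
    (@En.n l117 (nat_lit 5227) (nat_lit 8) (nat_lit 10))
    (@En.n l8283 (nat_lit 1481) (nat_lit 9) (nat_lit 7))
    (@En.n l34841 (nat_lit 1987) (nat_lit 9) (nat_lit 9))
    (@En.n l34843 (nat_lit 8838) (nat_lit 10) (nat_lit 6))))
  (@Cl.mk (nat_lit 0x2000b0008000b00090008000500080005000d0008000700030008000e0008) (nat_lit 0x65730006300580) (nat_lit 16) Lb.e (@T16.mk En
    (@En.n l3353 (nat_lit 2844) (nat_lit 13) (nat_lit 8))
    (@En.n l3354 (nat_lit 4588) (nat_lit 1) (nat_lit 14))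
    (@En.n l9582 (nat_lit 3185) (nat_lit 2) (nat_lit 8))
    (@En.n l9583 (nat_lit 2845) (nat_lit 3) (nat_lit 3))
    (@En.n l9584 (nat_lit 1790) (nat_lit 0) (nat_lit 7))
    (@En.n l9585 (nat_lit 2841) (nat_lit 5) (nat_lit 8))
    (@En.n l9586 (nat_lit 2839) (nat_lit 7) (nat_lit 13))
    (@En.i (nat_lit 9829) (nat_lit 7) (nat_lit 5))
    (@En.n l6806 (nat_lit 4189) (nat_lit 10) (nat_lit 8))
    (@En.n l9587 (nat_lit 2622) (nat_lit 9) (nat_lit 5))
    (@En.i (nat_lit 6799) (nat_lit 11) (nat_lit 8))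
    (@En.n l9588 (nat_lit 2838) (nat_lit 12) (nat_lit 9))
    (@En.i (nat_lit 2346) (nat_lit 7) (nat_lit 11))
    (@En.n l61 (nat_lit 9263) (nat_lit 14) (nat_lit 8))
    (@En.n l3352 (nat_lit 2844) (nat_lit 11) (nat_lit 11))
    (@En.n l7 (nat_lit 2843) (nat_lit 15) (nat_lit 2))))
  (@Cl.mk (nat_lit 0x3000900080008000b0007000a000800070005000800080006000d00090008) (nat_lit 0x560904600510752) (nat_lit 16) Lb.e (@T16.mk En
    (@En.n l19065 (nat_lit 1487) (nat_lit 0) (nat_lit 8))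
    (@En.n l19066 (nat_lit 2842) (nat_lit 14) (nat_lit 9))
    (@En.n l19067 (nat_lit 2840) (nat_lit 2) (nat_lit 13))
    (@En.n l19068 (nat_lit 8837) (nat_lit 3) (nat_lit 6))
    (@En.n l7928 (nat_lit 2843) (nat_lit 8) (nat_lit 8))
    (@En.n l7929 (nat_lit 3953) (nat_lit 10) (nat_lit 8))
    (@En.n l3723 (nat_lit 2613) (nat_lit 6) (nat_lit 5))
    (@En.n l9354 (nat_lit 6798) (nat_lit 7) (nat_lit 7))
    (@En.n l6225 (nat_lit 2164) (nat_lit 8) (nat_lit 8))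
    (@En.n l9354 (nat_lit 2345) (nat_lit 8) (nat_lit 10))
    (@En.n l19069 (nat_lit 8825) (nat_lit 11) (nat_lit 7))
    (@En.n l19070 (nat_lit 2887) (nat_lit 7) (nat_lit 11))
    (@En.n l19071 (nat_lit 2887) (nat_lit 8) (nat_lit 8))
    (@En.i (nat_lit 4233) (nat_lit 14) (nat_lit 8))
    (@En.n l4163 (nat_lit 3184) (nat_lit 12) (nat_lit 9))
    (@En.n l4710 (nat_lit 2846) (nat_lit 15) (nat_lit 3))))
  (@Cl.mk (nat_lit 0x2000b0007000b000a0008000500080005000d0006000900030008000e0008) (nat_lit 0x5630006060580) (nat_lit 16) Lb.e (@T16.mk En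
    (@En.n l10338 (nat_lit 2846) (nat_lit 13) (nat_lit 8))
    (@En.n l11 (nat_lit 4589) (nat_lit 1) (nat_lit 14))
    (@En.n l11807 (nat_lit 5100) (nat_lit 2) (nat_lit 8))
    (@En.n l22180 (nat_lit 2843) (nat_lit 3) (nat_lit 3))
    (@En.n l22181 (nat_lit 5226) (nat_lit 0) (nat_lit 9))
    (@En.n l11851 (nat_lit 1802) (nat_lit 5) (nat_lit 6))
    (@En.n l564 (nat_lit 2847) (nat_lit 7) (nat_lit 13))
    (@En.n l22182 (nat_lit 9831) (nat_lit 7) (nat_lit 5))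
    (@En.n l1660 (nat_lit 4186) (nat_lit 10) (nat_lit 8))
    (@En.i (nat_lit 2619) (nat_lit 9) (nat_lit 5))
    (@En.n l22182 (nat_lit 6803) (nat_lit 11) (nat_lit 8))
    (@En.n l644 (nat_lit 2849) (nat_lit 12) (nat_lit 10))
    (@En.n l22182 (nat_lit 2344) (nat_lit 13) (nat_lit 11))
    (@En.n l2611 (nat_lit 9603) (nat_lit 14) (nat_lit 7))
    (@En.n l10206 (nat_lit 2846) (nat_lit 11) (nat_lit 11))
    (@En.n l3 (nat_lit 2845) (nat_lit 15) (nat_lit 2))))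
  (@Cl.mk (nat_lit 0x3000900080008000b0006000a000900070005000800080006000d0007000a) (nat_lit 0x560904500510707) (nat_lit 16) Lb.e (@T16.mk En
    (@En.n l34546 (nat_lit 5224) (nat_lit 8) (nat_lit 10))
    (@En.n l12377 (nat_lit 1490) (nat_lit 11) (nat_lit 7))
    (@En.n l34829 (nat_lit 2848) (nat_lit 2) (nat_lit 13))
    (@En.n l34830 (nat_lit 8839) (nat_lit 3) (nat_lit 6))
    (@En.n l34831 (nat_lit 2845) (nat_lit 8) (nat_lit 8))
    (@En.n l34832 (nat_lit 3954) (nat_lit 10) (nat_lit 8))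
    (@En.n l9254 (nat_lit 2611) (nat_lit 6) (nat_lit 5))
    (@En.n l34830 (nat_lit 6802) (nat_lit 7) (nat_lit 7))
    (@En.n l12381 (nat_lit 2850) (nat_lit 7) (nat_lit 9))
    (@En.n l34830 (nat_lit 2347) (nat_lit 9) (nat_lit 10))
    (@En.n l7948 (nat_lit 9590) (nat_lit 11) (nat_lit 6))
    (@En.n l936 (nat_lit 2886) (nat_lit 7) (nat_lit 11))
    (@En.n l55 (nat_lit 2886) (nat_lit 8) (nat_lit 8))
    (@En.n l3536 (nat_lit 4219) (nat_lit 14) (nat_lit 8))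
    (@En.n l24271 (nat_lit 5101) (nat_lit 12) (nat_lit 9))
    (@En.n l7961 (nat_lit 2844) (nat_lit 15) (nat_lit 3))))
  (@Cl.mk (nat_lit 0x2000b00080007000b000800050008000d00050008000300090008000e0008) (nat_lit 0x50630050206590) (nat_lit 16) Lb.e (@T16.mk En
    (@En.n l28904 (nat_lit 2848) (nat_lit 12) (nat_lit 8))
    (@En.n l28905 (nat_lit 3408) (nat_lit 1) (nat_lit 14))
    (@En.n l28906 (nat_lit 5418) (nat_lit 2) (nat_lit 8))
    (@En.n l25497 (nat_lit 4837) (nat_lit 3) (nat_lit 9))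
    (@En.n l12715 (nat_lit 2839) (nat_lit 4) (nat_lit 3))
    (@En.n l28907 (nat_lit 1978) (nat_lit 0) (nat_lit 8))
    (@En.n l25498 (nat_lit 2841) (nat_lit 6) (nat_lit 5))
    (@En.n l28906 (nat_lit 12106) (nat_lit 8) (nat_lit 13))
    (@En.n l12718 (nat_lit 4194) (nat_lit 10) (nat_lit 8))
    (@En.i (nat_lit 2617) (nat_lit 9) (nat_lit 5))
    (@En.n l28908 (nat_lit 6809) (nat_lit 11) (nat_lit 8))
    (@En.n l28909 (nat_lit 2851) (nat_lit 12) (nat_lit 11))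
    (@En.n l17 (nat_lit 4448) (nat_lit 13) (nat_lit 7))
    (@En.n l7243 (nat_lit 9510) (nat_lit 14) (nat_lit 8))
    (@En.n l28910 (nat_lit 2848) (nat_lit 10) (nat_lit 11))
    (@En.n l3 (nat_lit 2847) (nat_lit 15) (nat_lit 2))))
noncomputable def a178 : T16 Cl := @T16.mk Cl
  (@Cl.mk (nat_lit 0x3000a000900080008000b00070006000a0007000500080008000d00060009) (nat_lit 0x756090050021602) (nat_lit 16) Lb.e (@T16.mk En
    (@En.n l40368 (nat_lit 1976) (nat_lit 9) (nat_lit 9))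
    (@En.n l40369 (nat_lit 2842) (nat_lit 15) (nat_lit 6))
    (@En.i (nat_lit 11870) (nat_lit 2) (nat_lit 13))
    (@En.n l40370 (nat_lit 2847) (nat_lit 8) (nat_lit 8))
    (@En.n l40371 (nat_lit 3150) (nat_lit 10) (nat_lit 8))
    (@En.n l40372 (nat_lit 2445) (nat_lit 5) (nat_lit 5))
    (@En.n l14256 (nat_lit 6805) (nat_lit 6) (nat_lit 7))
    (@En.n l40373 (nat_lit 2880) (nat_lit 9) (nat_lit 10))
    (@En.n l7646 (nat_lit 2882) (nat_lit 8) (nat_lit 6))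
    (@En.n l14223 (nat_lit 9455) (nat_lit 10) (nat_lit 7))
    (@En.n l1003 (nat_lit 2884) (nat_lit 7) (nat_lit 11))
    (@En.n l40374 (nat_lit 2884) (nat_lit 8) (nat_lit 8))
    (@En.n l17138 (nat_lit 3409) (nat_lit 8) (nat_lit 8))
    (@En.n l40368 (nat_lit 5421) (nat_lit 7) (nat_lit 9))
    (@En.n l40375 (nat_lit 4835) (nat_lit 4) (nat_lit 10))
    (@En.n l19624 (nat_lit 2840) (nat_lit 15) (nat_lit 3))))
  (@Cl.mk (nat_lit 0x2000c0007000a000700040007000d000c00060003000900040009000e0009) (nat_lit 0x5000b000706a0) (nat_lit 16) Lb.e (@T16.mk En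
    (@En.n l2537 (nat_lit 2850) (nat_lit 11) (nat_lit 9))
    (@En.n l6908 (nat_lit 4590) (nat_lit 1) (nat_lit 14))
    (@En.n l9578 (nat_lit 5105) (nat_lit 2) (nat_lit 9))
    (@En.n l4497 (nat_lit 2838) (nat_lit 3) (nat_lit 4))
    (@En.n l612 (nat_lit 2845) (nat_lit 4) (nat_lit 9))
    (@En.n l50 (nat_lit 4448) (nat_lit 5) (nat_lit 3))
    (@En.n l9579 (nat_lit 1491) (nat_lit 0) (nat_lit 6))
    (@En.n l9580 (nat_lit 2851) (nat_lit 8) (nat_lit 12))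
    (@En.n l9578 (nat_lit 11891) (nat_lit 9) (nat_lit 13))
    (@En.n l4497 (nat_lit 3970) (nat_lit 11) (nat_lit 7))
    (@En.i (nat_lit 2618) (nat_lit 10) (nat_lit 4))
    (@En.n l9581 (nat_lit 6736) (nat_lit 12) (nat_lit 7))
    (@En.n l9580 (nat_lit 2429) (nat_lit 8) (nat_lit 10))
    (@En.n l2611 (nat_lit 9602) (nat_lit 14) (nat_lit 7))
    (@En.n l3312 (nat_lit 2850) (nat_lit 9) (nat_lit 12))
    (@En.n l3 (nat_lit 2849) (nat_lit 15) (nat_lit 2))))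
  (@Cl.mk (nat_lit 0x3000a0004000a00090009000c000600090006000400070007000d000c0007) (nat_lit 0x80670a040000a60) (nat_lit 16) Lb.e (@T16.mk En
    (@En.n l4650 (nat_lit 1489) (nat_lit 0) (nat_lit 7))
    (@En.n l19058 (nat_lit 2880) (nat_lit 4) (nat_lit 12))
    (@En.n l420 (nat_lit 11881) (nat_lit 2) (nat_lit 13))
    (@En.n l3716 (nat_lit 2849) (nat_lit 9) (nat_lit 7))
    (@En.n l19059 (nat_lit 3955) (nat_lit 11) (nat_lit 7))
    (@En.n l3722 (nat_lit 2443) (nat_lit 5) (nat_lit 4))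
    (@En.n l1672 (nat_lit 6734) (nat_lit 0) (nat_lit 6))
    (@En.n l152 (nat_lit 2427) (nat_lit 9) (nat_lit 9))
    (@En.n l19060 (nat_lit 9588) (nat_lit 8) (nat_lit 6))
    (@En.n l7863 (nat_lit 2885) (nat_lit 6) (nat_lit 12))
    (@En.n l19061 (nat_lit 2885) (nat_lit 7) (nat_lit 9))
    (@En.i (nat_lit 4249) (nat_lit 7) (nat_lit 9))
    (@En.n l19062 (nat_lit 5106) (nat_lit 13) (nat_lit 10))
    (@En.n l19063 (nat_lit 2164) (nat_lit 14) (nat_lit 4))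
    (@En.n l4710 (nat_lit 2846) (nat_lit 0) (nat_lit 10))
    (@En.n l19064 (nat_lit 2882) (nat_lit 15) (nat_lit 3))))
  (@Cl.mk (nat_lit 0x2000c0008000b000700040007000c0005000d0008000400030009000e0009) (nat_lit 0x55000a023006a0) (nat_lit 16) Lb.e (@T16.mk En
    (@En.n l5 (nat_lit 2880) (nat_lit 13) (nat_lit 9))
    (@En.n l1897 (nat_lit 4592) (nat_lit 1) (nat_lit 14))
    (@En.i (nat_lit 5419) (nat_lit 2) (nat_lit 9))
    (@En.n l4530 (nat_lit 4448) (nat_lit 3) (nat_lit 3))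
    (@En.n l19886 (nat_lit 2533) (nat_lit 0) (nat_lit 4))
    (@En.n l13676 (nat_lit 2847) (nat_lit 5) (nat_lit 8))
    (@En.n l12928 (nat_lit 2448) (nat_lit 7) (nat_lit 13))
    (@En.n l5347 (nat_lit 2843) (nat_lit 7) (nat_lit 5))
    (@En.n l639 (nat_lit 12108) (nat_lit 9) (nat_lit 12))
    (@En.n l19886 (nat_lit 4353) (nat_lit 11) (nat_lit 7))
    (@En.n l11989 (nat_lit 2616) (nat_lit 10) (nat_lit 4))
    (@En.n l619 (nat_lit 4453) (nat_lit 12) (nat_lit 7))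
    (@En.i (nat_lit 2270) (nat_lit 7) (nat_lit 11))
    (@En.n l8148 (nat_lit 9509) (nat_lit 14) (nat_lit 8))
    (@En.i (nat_lit 2880) (nat_lit 11) (nat_lit 12))
    (@En.n l18 (nat_lit 2851) (nat_lit 15) (nat_lit 2))))
  (@Cl.mk (nat_lit 0x2000b000e000a0002000e00050002000c0006000b000e00040002000e0005) (nat_lit 0x9c10700a09b00b0) (nat_lit 16) Lb.e (@T16.mk En
    (@En.n l21066 (nat_lit 2636) (nat_lit 14) (nat_lit 5))
    (@En.n l133 (nat_lit 2761) (nat_lit 1) (nat_lit 14))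
    (@En.n l17 (nat_lit 2852) (nat_lit 2) (nat_lit 2))
    (@En.n l21067 (nat_lit 2495) (nat_lit 3) (nat_lit 4))
    (@En.n l1497 (nat_lit 13371) (nat_lit 4) (nat_lit 14))
    (@En.n l7693 (nat_lit 2854) (nat_lit 2) (nat_lit 11))
    (@En.n l21068 (nat_lit 1344) (nat_lit 14) (nat_lit 6))
    (@En.n l21069 (nat_lit 2538) (nat_lit 12) (nat_lit 12))
    (@En.n l7 (nat_lit 2852) (nat_lit 8) (nat_lit 2))
    (@En.n l21070 (nat_lit 2637) (nat_lit 14) (nat_lit 5))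
    (@En.n l1504 (nat_lit 2853) (nat_lit 1) (nat_lit 14))
    (@En.n l12 (nat_lit 2852) (nat_lit 11) (nat_lit 2))
    (@En.n l13 (nat_lit 2690) (nat_lit 3) (nat_lit 10))
    (@En.n l21071 (nat_lit 13244) (nat_lit 4) (nat_lit 14))
    (@En.n l1172 (nat_lit 7664) (nat_lit 12) (nat_lit 11))
    (@En.n l107 (nat_lit 2852) (nat_lit 15) (nat_lit 2))))
  (@Cl.mk (nat_lit 0x20005000c0006000b000e00040002000e00050002000c000b000a000e0004) (nat_lit 0x709c0000078060) (nat_lit 16) Lb.e (@T16.mk En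
    (@En.n l14613 (nat_lit 2865) (nat_lit 10) (nat_lit 4))
    (@En.i (nat_lit 2854) (nat_lit 1) (nat_lit 14))
    (@En.n l24310 (nat_lit 2857) (nat_lit 13) (nat_lit 10))
    (@En.n l175 (nat_lit 3596) (nat_lit 3) (nat_lit 11))
    (@En.i (nat_lit 12046) (nat_lit 12) (nat_lit 12))
    (@En.n l3 (nat_lit 2853) (nat_lit 5) (nat_lit 2))
    (@En.i (nat_lit 2639) (nat_lit 14) (nat_lit 5))
    (@En.n l24285 (nat_lit 3848) (nat_lit 8) (nat_lit 14))
    (@En.n l17 (nat_lit 2853) (nat_lit 8) (nat_lit 2))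
    (@En.n l2869 (nat_lit 2868) (nat_lit 9) (nat_lit 4))
    (@En.n l1599 (nat_lit 13380) (nat_lit 4) (nat_lit 14))
    (@En.n l14619 (nat_lit 3849) (nat_lit 12) (nat_lit 11))
    (@En.n l998 (nat_lit 2983) (nat_lit 13) (nat_lit 6))
    (@En.n l1393 (nat_lit 3456) (nat_lit 14) (nat_lit 12))
    (@En.n l14161 (nat_lit 2637) (nat_lit 13) (nat_lit 5))
    (@En.n l28 (nat_lit 2853) (nat_lit 15) (nat_lit 2))))
  (@Cl.mk (nat_lit 0x2000d0005000c0003000b000e00040002000e00050002000d000b000e0003) (nat_lit 0x907000000007850) (nat_lit 16) Lb.e (@T16.mk En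
    (@En.n l11 (nat_lit 2856) (nat_lit 11) (nat_lit 3))
    (@En.n l3459 (nat_lit 13021) (nat_lit 0) (nat_lit 14))
    (@En.n l175 (nat_lit 2859) (nat_lit 14) (nat_lit 11))
    (@En.n l3459 (nat_lit 12044) (nat_lit 12) (nat_lit 13))
    (@En.n l3 (nat_lit 2854) (nat_lit 4) (nat_lit 2))
    (@En.n l10790 (nat_lit 2855) (nat_lit 14) (nat_lit 5))
    (@En.n l10162 (nat_lit 3849) (nat_lit 1) (nat_lit 14))
    (@En.n l17 (nat_lit 2854) (nat_lit 7) (nat_lit 2))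
    (@En.n l10791 (nat_lit 2858) (nat_lit 8) (nat_lit 4))
    (@En.n l1599 (nat_lit 13065) (nat_lit 4) (nat_lit 14))
    (@En.i (nat_lit 3069) (nat_lit 11) (nat_lit 11))
    (@En.i (nat_lit 2857) (nat_lit 6) (nat_lit 3))
    (@En.n l1393 (nat_lit 3455) (nat_lit 0) (nat_lit 12))
    (@En.n l110 (nat_lit 2853) (nat_lit 14) (nat_lit 5))
    (@En.n l1599 (nat_lit 3472) (nat_lit 10) (nat_lit 13))
    (@En.n l28 (nat_lit 2854) (nat_lit 15) (nat_lit 2))))
  (@Cl.mk (nat_lit 0x200050005000d000b000e00030002000d0005000b0003000b000b000e0005) (nat_lit 0x4830090100110) (nat_lit 16) Lb.e (@T16.mk En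
    (@En.n l6333 (nat_lit 3651) (nat_lit 7) (nat_lit 5))
    (@En.n l8277 (nat_lit 2854) (nat_lit 9) (nat_lit 14))
    (@En.n l8278 (nat_lit 2854) (nat_lit 10) (nat_lit 11))
    (@En.n l8279 (nat_lit 3073) (nat_lit 3) (nat_lit 11))
    (@En.n l4004 (nat_lit 2862) (nat_lit 4) (nat_lit 3))
    (@En.n l6144 (nat_lit 2108) (nat_lit 0) (nat_lit 11))
    (@En.n l6292 (nat_lit 2639) (nat_lit 6) (nat_lit 5))
    (@En.n l4298 (nat_lit 1367) (nat_lit 8) (nat_lit 13))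
    (@En.n l3 (nat_lit 2855) (nat_lit 8) (nat_lit 2))
    (@En.n l152 (nat_lit 2860) (nat_lit 9) (nat_lit 3))
    (@En.n l8280 (nat_lit 13019) (nat_lit 0) (nat_lit 14))
    (@En.n l97 (nat_lit 3590) (nat_lit 12) (nat_lit 11))
    (@En.n l8280 (nat_lit 12040) (nat_lit 13) (nat_lit 13))
    (@En.n l8281 (nat_lit 3611) (nat_lit 14) (nat_lit 5))
    (@En.n l6333 (nat_lit 3589) (nat_lit 13) (nat_lit 5))
    (@En.n l403 (nat_lit 2855) (nat_lit 15) (nat_lit 2))))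
  (@Cl.mk (nat_lit 0x2000d000d000c00030003000d0004000c0003000b000e00040002000e0005) (nat_lit 0x58a009010000060) (nat_lit 16) Lb.e (@T16.mk En
    (@En.n l10801 (nat_lit 2860) (nat_lit 14) (nat_lit 5))
    (@En.n l3815 (nat_lit 3851) (nat_lit 1) (nat_lit 14))
    (@En.n l17 (nat_lit 2856) (nat_lit 2) (nat_lit 2))
    (@En.n l2869 (nat_lit 2869) (nat_lit 3) (nat_lit 4))
    (@En.n l1599 (nat_lit 13063) (nat_lit 4) (nat_lit 14))
    (@En.i (nat_lit 3072) (nat_lit 2) (nat_lit 11))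
    (@En.i (nat_lit 2861) (nat_lit 6) (nat_lit 3))
    (@En.i (nat_lit 2109) (nat_lit 0) (nat_lit 12))
    (@En.i (nat_lit 2865) (nat_lit 8) (nat_lit 4))
    (@En.n l1599 (nat_lit 3471) (nat_lit 10) (nat_lit 13))
    (@En.n l28 (nat_lit 4030) (nat_lit 13) (nat_lit 3))
    (@En.i (nat_lit 2854) (nat_lit 0) (nat_lit 3))
    (@En.n l77 (nat_lit 4031) (nat_lit 0) (nat_lit 12))
    (@En.n l1578 (nat_lit 2854) (nat_lit 3) (nat_lit 13))
    (@En.i (nat_lit 12362) (nat_lit 12) (nat_lit 13))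
    (@En.n l3 (nat_lit 2856) (nat_lit 15) (nat_lit 2))))
  (@Cl.mk (nat_lit 0x2000d000a000e00030002000d000b00060003000b000e00050002000e0005) (nat_lit 0x78300a100000000) (nat_lit 16) Lb.e (@T16.mk En
    (@En.n l10839 (nat_lit 2862) (nat_lit 14) (nat_lit 5))
    (@En.n l5224 (nat_lit 3852) (nat_lit 1) (nat_lit 14))
    (@En.n l17 (nat_lit 2857) (nat_lit 2) (nat_lit 2))
    (@En.n l5224 (nat_lit 3654) (nat_lit 8) (nat_lit 5))
    (@En.n l10778 (nat_lit 13464) (nat_lit 4) (nat_lit 14))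
    (@En.n l998 (nat_lit 6960) (nat_lit 11) (nat_lit 11))
    (@En.n l50 (nat_lit 2854) (nat_lit 11) (nat_lit 3))
    (@En.n l10840 (nat_lit 2986) (nat_lit 0) (nat_lit 6))
    (@En.n l10807 (nat_lit 2423) (nat_lit 14) (nat_lit 11))
    (@En.n l1599 (nat_lit 1338) (nat_lit 10) (nat_lit 13))
    (@En.n l28 (nat_lit 2857) (nat_lit 10) (nat_lit 2))
    (@En.n l11 (nat_lit 2861) (nat_lit 11) (nat_lit 3))
    (@En.n l10807 (nat_lit 13022) (nat_lit 0) (nat_lit 14))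
    (@En.n l10778 (nat_lit 2975) (nat_lit 14) (nat_lit 10))
    (@En.n l3459 (nat_lit 12367) (nat_lit 12) (nat_lit 13))
    (@En.n l3 (nat_lit 2857) (nat_lit 15) (nat_lit 2))))
  (@Cl.mk (nat_lit 0x2000c0005000c000c0004000c00040004000e00040002000d000b000e0003) (nat_lit 0x88000050067b0) (nat_lit 16) Lb.e (@T16.mk En
    (@En.n l7691 (nat_lit 2869) (nat_lit 11) (nat_lit 3))
    (@En.i (nat_lit 13366) (nat_lit 0) (nat_lit 14))
    (@En.n l7692 (nat_lit 2867) (nat_lit 2) (nat_lit 11))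
    (@En.n l1174 (nat_lit 12582) (nat_lit 2) (nat_lit 13))
    (@En.n l7 (nat_lit 2858) (nat_lit 4) (nat_lit 2))
    (@En.n l28 (nat_lit 3651) (nat_lit 5) (nat_lit 4))
    (@En.n l1174 (nat_lit 3084) (nat_lit 1) (nat_lit 14))
    (@En.n l2813 (nat_lit 3541) (nat_lit 12) (nat_lit 4))
    (@En.i (nat_lit 2423) (nat_lit 8) (nat_lit 4))
    (@En.n l1361 (nat_lit 3070) (nat_lit 10) (nat_lit 12))
    (@En.n l1174 (nat_lit 3438) (nat_lit 10) (nat_lit 4))
    (@En.n l7693 (nat_lit 2854) (nat_lit 12) (nat_lit 12))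
    (@En.i (nat_lit 3431) (nat_lit 8) (nat_lit 12))
    (@En.n l3763 (nat_lit 2868) (nat_lit 14) (nat_lit 5))
    (@En.n l3852 (nat_lit 3476) (nat_lit 10) (nat_lit 12))
    (@En.n l17 (nat_lit 2858) (nat_lit 15) (nat_lit 2))))
  (@Cl.mk (nat_lit 0x2000b000e000c0002000c00050004000c0004000b000e00040002000e0005) (nat_lit 0x719000070000000) (nat_lit 16) Lb.e (@T16.mk En
    (@En.n l10246 (nat_lit 3590) (nat_lit 14) (nat_lit 5))
    (@En.n l1335 (nat_lit 3064) (nat_lit 1) (nat_lit 14))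
    (@En.n l17 (nat_lit 2859) (nat_lit 2) (nat_lit 2))
    (@En.n l2843 (nat_lit 2867) (nat_lit 7) (nat_lit 4))
    (@En.n l433 (nat_lit 13036) (nat_lit 4) (nat_lit 14))
    (@En.i (nat_lit 3589) (nat_lit 10) (nat_lit 11))
    (@En.n l21755 (nat_lit 2975) (nat_lit 6) (nat_lit 4))
    (@En.n l509 (nat_lit 6601) (nat_lit 8) (nat_lit 12))
    (@En.n l158 (nat_lit 2856) (nat_lit 8) (nat_lit 4))
    (@En.n l12 (nat_lit 3596) (nat_lit 14) (nat_lit 5))
    (@En.i (nat_lit 3470) (nat_lit 11) (nat_lit 12))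
    (@En.n l8 (nat_lit 2859) (nat_lit 11) (nat_lit 2))
    (@En.n l1504 (nat_lit 2865) (nat_lit 13) (nat_lit 12))
    (@En.n l509 (nat_lit 2710) (nat_lit 4) (nat_lit 14))
    (@En.n l1637 (nat_lit 12281) (nat_lit 12) (nat_lit 11))
    (@En.n l107 (nat_lit 2859) (nat_lit 15) (nat_lit 2))))
  (@Cl.mk (nat_lit 0x200050005000d000d000c00030003000d0004000b0003000b000b000e0005) (nat_lit 0x45a0080100110) (nat_lit 16) Lb.e (@T16.mk En
    (@En.n l1545 (nat_lit 3561) (nat_lit 6) (nat_lit 5))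
    (@En.n l6140 (nat_lit 2856) (nat_lit 4) (nat_lit 14))
    (@En.n l6141 (nat_lit 2856) (nat_lit 5) (nat_lit 11))
    (@En.n l6142 (nat_lit 3075) (nat_lit 3) (nat_lit 11))
    (@En.i (nat_lit 2863) (nat_lit 4) (nat_lit 3))
    (@En.i (nat_lit 2106) (nat_lit 0) (nat_lit 11))
    (@En.i (nat_lit 2864) (nat_lit 6) (nat_lit 4))
    (@En.n l3519 (nat_lit 2745) (nat_lit 8) (nat_lit 13))
    (@En.n l152 (nat_lit 4029) (nat_lit 8) (nat_lit 3))
    (@En.n l117 (nat_lit 2855) (nat_lit 9) (nat_lit 3))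
    (@En.n l619 (nat_lit 4028) (nat_lit 11) (nat_lit 12))
    (@En.i (nat_lit 2855) (nat_lit 12) (nat_lit 13))
    (@En.n l6293 (nat_lit 12043) (nat_lit 13) (nat_lit 13))
    (@En.n l15214 (nat_lit 3565) (nat_lit 14) (nat_lit 5))
    (@En.n l1545 (nat_lit 3588) (nat_lit 13) (nat_lit 5))
    (@En.n l403 (nat_lit 2860) (nat_lit 15) (nat_lit 2))))
  (@Cl.mk (nat_lit 0x2000d000d000b00030003000d000b00050003000b000e00050002000e0005) (nat_lit 0x58000a100000000) (nat_lit 16) Lb.e (@T16.mk En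
    (@En.n l10801 (nat_lit 2863) (nat_lit 14) (nat_lit 5))
    (@En.n l3815 (nat_lit 3853) (nat_lit 1) (nat_lit 14))
    (@En.n l17 (nat_lit 2861) (nat_lit 2) (nat_lit 2))
    (@En.n l14677 (nat_lit 3655) (nat_lit 3) (nat_lit 5))
    (@En.n l1599 (nat_lit 13068) (nat_lit 4) (nat_lit 14))
    (@En.n l998 (nat_lit 6961) (nat_lit 2) (nat_lit 11))
    (@En.n l50 (nat_lit 2856) (nat_lit 6) (nat_lit 3))
    (@En.n l2678 (nat_lit 2988) (nat_lit 0) (nat_lit 5))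
    (@En.i (nat_lit 2396) (nat_lit 9) (nat_lit 11))
    (@En.n l1599 (nat_lit 3469) (nat_lit 10) (nat_lit 13))
    (@En.n l28 (nat_lit 4032) (nat_lit 13) (nat_lit 3))
    (@En.i (nat_lit 2857) (nat_lit 11) (nat_lit 3))
    (@En.i (nat_lit 2976) (nat_lit 0) (nat_lit 11))
    (@En.n l1578 (nat_lit 2857) (nat_lit 14) (nat_lit 13))
    (@En.i (nat_lit 12364) (nat_lit 12) (nat_lit 13))
    (@En.n l3 (nat_lit 2861) (nat_lit 15) (nat_lit 2))))
  (@Cl.mk (nat_lit 0x200050005000d000a000e00030002000d000a00060003000b000b000e0006) (nat_lit 0x4430081003110) (nat_lit 16) Lb.e (@T16.mk En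
    (@En.n l19691 (nat_lit 3652) (nat_lit 7) (nat_lit 6))
    (@En.n l3611 (nat_lit 2857) (nat_lit 4) (nat_lit 14))
    (@En.n l19692 (nat_lit 2857) (nat_lit 5) (nat_lit 11))
    (@En.n l19693 (nat_lit 6959) (nat_lit 3) (nat_lit 11))
    (@En.n l10178 (nat_lit 2855) (nat_lit 4) (nat_lit 3))
    (@En.n l19694 (nat_lit 2987) (nat_lit 5) (nat_lit 6))
    (@En.n l19693 (nat_lit 2424) (nat_lit 14) (nat_lit 10))
    (@En.n l19695 (nat_lit 1334) (nat_lit 8) (nat_lit 13))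
    (@En.n l11 (nat_lit 2862) (nat_lit 8) (nat_lit 2))
    (@En.n l6564 (nat_lit 2863) (nat_lit 9) (nat_lit 3))
    (@En.n l19693 (nat_lit 13020) (nat_lit 0) (nat_lit 14))
    (@En.n l19696 (nat_lit 2973) (nat_lit 12) (nat_lit 10))
    (@En.n l19697 (nat_lit 12041) (nat_lit 13) (nat_lit 13))
    (@En.n l19698 (nat_lit 3614) (nat_lit 14) (nat_lit 5))
    (@En.n l19699 (nat_lit 3885) (nat_lit 13) (nat_lit 5))
    (@En.n l181 (nat_lit 2862) (nat_lit 15) (nat_lit 2))))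
  (@Cl.mk (nat_lit 0x200050005000d000d000b00030003000d000a00050003000b000b000e0006) (nat_lit 0x4550091000110) (nat_lit 16) Lb.e (@T16.mk En
    (@En.n l15573 (nat_lit 3653) (nat_lit 6) (nat_lit 6))
    (@En.n l6140 (nat_lit 2861) (nat_lit 4) (nat_lit 14))
    (@En.n l6141 (nat_lit 2861) (nat_lit 5) (nat_lit 11))
    (@En.n l11228 (nat_lit 6962) (nat_lit 3) (nat_lit 11))
    (@En.n l28 (nat_lit 2860) (nat_lit 4) (nat_lit 3))
    (@En.n l15574 (nat_lit 2903) (nat_lit 5) (nat_lit 5))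
    (@En.i (nat_lit 2402) (nat_lit 13) (nat_lit 10))
    (@En.n l3519 (nat_lit 1366) (nat_lit 8) (nat_lit 13))
    (@En.n l152 (nat_lit 3621) (nat_lit 8) (nat_lit 3))
    (@En.n l15575 (nat_lit 2862) (nat_lit 9) (nat_lit 3))
    (@En.n l97 (nat_lit 2970) (nat_lit 11) (nat_lit 11))
    (@En.n l4004 (nat_lit 2862) (nat_lit 12) (nat_lit 13))
    (@En.n l15576 (nat_lit 12366) (nat_lit 13) (nat_lit 13))
    (@En.n l15577 (nat_lit 3613) (nat_lit 14) (nat_lit 5))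
    (@En.n l1545 (nat_lit 3884) (nat_lit 13) (nat_lit 5))
    (@En.n l403 (nat_lit 2863) (nat_lit 15) (nat_lit 2))))
noncomputable def a179 : T16 Cl := @T16.mk Cl
  (@Cl.mk (nat_lit 0x200050005000c000c000c000b000400040004000b0005000b000b000e0005) (nat_lit 0x81a6000700000) (nat_lit 16) Lb.e (@T16.mk En
    (@En.n l6288 (nat_lit 2879) (nat_lit 7) (nat_lit 5))
    (@En.n l6140 (nat_lit 2865) (nat_lit 4) (nat_lit 14))
    (@En.n l6141 (nat_lit 2865) (nat_lit 5) (nat_lit 11))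
    (@En.n l6289 (nat_lit 3846) (nat_lit 3) (nat_lit 11))
    (@En.i (nat_lit 2967) (nat_lit 4) (nat_lit 5))
    (@En.n l797 (nat_lit 6741) (nat_lit 6) (nat_lit 11))
    (@En.n l11 (nat_lit 3590) (nat_lit 6) (nat_lit 4))
    (@En.n l152 (nat_lit 4028) (nat_lit 7) (nat_lit 4))
    (@En.n l6290 (nat_lit 3595) (nat_lit 8) (nat_lit 4))
    (@En.n l55 (nat_lit 2863) (nat_lit 10) (nat_lit 11))
    (@En.n l6291 (nat_lit 3607) (nat_lit 11) (nat_lit 12))
    (@En.n l6292 (nat_lit 2639) (nat_lit 12) (nat_lit 12))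
    (@En.n l6293 (nat_lit 12725) (nat_lit 13) (nat_lit 12))
    (@En.n l6294 (nat_lit 3610) (nat_lit 14) (nat_lit 5))
    (@En.n l1545 (nat_lit 3585) (nat_lit 13) (nat_lit 5))
    (@En.n l403 (nat_lit 2864) (nat_lit 15) (nat_lit 2))))
  (@Cl.mk (nat_lit 0x2000c000c000c000b000400040004000c0005000b000e00040002000e0005) (nat_lit 0x88a1000309c0060) (nat_lit 16) Lb.e (@T16.mk En
    (@En.n l10801 (nat_lit 2864) (nat_lit 14) (nat_lit 5))
    (@En.n l3815 (nat_lit 3847) (nat_lit 1) (nat_lit 14))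
    (@En.n l17 (nat_lit 2865) (nat_lit 2) (nat_lit 2))
    (@En.n l11059 (nat_lit 2870) (nat_lit 3) (nat_lit 4))
    (@En.n l14607 (nat_lit 13072) (nat_lit 4) (nat_lit 14))
    (@En.n l11263 (nat_lit 3760) (nat_lit 2) (nat_lit 11))
    (@En.n l7572 (nat_lit 2968) (nat_lit 6) (nat_lit 5))
    (@En.n l14607 (nat_lit 6744) (nat_lit 8) (nat_lit 12))
    (@En.n l1599 (nat_lit 2859) (nat_lit 8) (nat_lit 4))
    (@En.n l28 (nat_lit 4031) (nat_lit 12) (nat_lit 4))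
    (@En.n l110 (nat_lit 2876) (nat_lit 10) (nat_lit 4))
    (@En.n l644 (nat_lit 2861) (nat_lit 12) (nat_lit 11))
    (@En.n l8163 (nat_lit 3637) (nat_lit 4) (nat_lit 12))
    (@En.n l4517 (nat_lit 2853) (nat_lit 4) (nat_lit 12))
    (@En.i (nat_lit 12724) (nat_lit 12) (nat_lit 12))
    (@En.n l3 (nat_lit 2865) (nat_lit 15) (nat_lit 2))))
  (@Cl.mk (nat_lit 0x20005000c000c0005000c00040004000e00040002000e000b0002000e000b) (nat_lit 0x910a0010001028) (nat_lit 16) Lb.e (@T16.mk En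
    (@En.i (nat_lit 2550) (nat_lit 14) (nat_lit 11))
    (@En.n l2582 (nat_lit 2496) (nat_lit 1) (nat_lit 14))
    (@En.n l18 (nat_lit 2866) (nat_lit 2) (nat_lit 2))
    (@En.n l2583 (nat_lit 2496) (nat_lit 3) (nat_lit 11))
    (@En.n l564 (nat_lit 12086) (nat_lit 1) (nat_lit 14))
    (@En.n l7 (nat_lit 2866) (nat_lit 5) (nat_lit 2))
    (@En.n l28 (nat_lit 2557) (nat_lit 6) (nat_lit 4))
    (@En.n l427 (nat_lit 2823) (nat_lit 8) (nat_lit 14))
    (@En.n l238 (nat_lit 2499) (nat_lit 8) (nat_lit 4))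
    (@En.i (nat_lit 2487) (nat_lit 9) (nat_lit 4))
    (@En.n l2584 (nat_lit 3565) (nat_lit 11) (nat_lit 12))
    (@En.n l427 (nat_lit 6856) (nat_lit 8) (nat_lit 5))
    (@En.n l1252 (nat_lit 2710) (nat_lit 13) (nat_lit 12))
    (@En.i (nat_lit 8985) (nat_lit 14) (nat_lit 12))
    (@En.i (nat_lit 2858) (nat_lit 13) (nat_lit 5))
    (@En.n l3 (nat_lit 2866) (nat_lit 15) (nat_lit 2))))
  (@Cl.mk (nat_lit 0x2000b00050004000c000c0005000c00040004000e00040002000b000e000c) (nat_lit 0x780000500618) (nat_lit 16) Lb.e (@T16.mk En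
    (@En.n l11132 (nat_lit 2870) (nat_lit 13) (nat_lit 12))
    (@En.n l11556 (nat_lit 2866) (nat_lit 4) (nat_lit 14))
    (@En.n l3519 (nat_lit 9235) (nat_lit 2) (nat_lit 11))
    (@En.n l28 (nat_lit 2867) (nat_lit 3) (nat_lit 2))
    (@En.n l15244 (nat_lit 3581) (nat_lit 4) (nat_lit 4))
    (@En.n l3519 (nat_lit 3905) (nat_lit 1) (nat_lit 14))
    (@En.n l6962 (nat_lit 3580) (nat_lit 12) (nat_lit 4))
    (@En.n l11556 (nat_lit 2406) (nat_lit 7) (nat_lit 4))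
    (@En.i (nat_lit 3588) (nat_lit 9) (nat_lit 12))
    (@En.n l15245 (nat_lit 2410) (nat_lit 5) (nat_lit 5))
    (@En.n l3471 (nat_lit 2859) (nat_lit 7) (nat_lit 12))
    (@En.n l11556 (nat_lit 8996) (nat_lit 8) (nat_lit 12))
    (@En.n l72 (nat_lit 2869) (nat_lit 8) (nat_lit 4))
    (@En.n l403 (nat_lit 2871) (nat_lit 14) (nat_lit 5))
    (@En.n l1353 (nat_lit 3474) (nat_lit 11) (nat_lit 11))
    (@En.n l17 (nat_lit 2867) (nat_lit 15) (nat_lit 2))))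
  (@Cl.mk (nat_lit 0x20005000c000c0007000c00040004000e00040002000c000b0009000e0004) (nat_lit 0x780000500670c0) (nat_lit 16) Lb.e (@T16.mk En
    (@En.n l50 (nat_lit 2870) (nat_lit 10) (nat_lit 4))
    (@En.n l10571 (nat_lit 2858) (nat_lit 1) (nat_lit 14))
    (@En.n l7694 (nat_lit 3654) (nat_lit 2) (nat_lit 9))
    (@En.n l2863 (nat_lit 2871) (nat_lit 3) (nat_lit 11))
    (@En.i (nat_lit 12584) (nat_lit 5) (nat_lit 12))
    (@En.n l28 (nat_lit 2868) (nat_lit 5) (nat_lit 2))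
    (@En.i (nat_lit 3650) (nat_lit 6) (nat_lit 4))
    (@En.n l11245 (nat_lit 3904) (nat_lit 8) (nat_lit 14))
    (@En.n l152 (nat_lit 3539) (nat_lit 8) (nat_lit 4))
    (@En.i (nat_lit 2428) (nat_lit 9) (nat_lit 4))
    (@En.i (nat_lit 3851) (nat_lit 11) (nat_lit 12))
    (@En.n l3428 (nat_lit 7532) (nat_lit 12) (nat_lit 7))
    (@En.n l1867 (nat_lit 2853) (nat_lit 13) (nat_lit 12))
    (@En.i (nat_lit 8202) (nat_lit 8) (nat_lit 12))
    (@En.i (nat_lit 2496) (nat_lit 13) (nat_lit 5))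
    (@En.n l18 (nat_lit 2868) (nat_lit 15) (nat_lit 2))))
  (@Cl.mk (nat_lit 0x2000d000d000c00030003000c0004000c000c0004000c00040004000e0004) (nat_lit 0x678004082000050) (nat_lit 16) Lb.e (@T16.mk En
    (@En.n l5763 (nat_lit 3561) (nat_lit 4) (nat_lit 4))
    (@En.n l11794 (nat_lit 3081) (nat_lit 1) (nat_lit 14))
    (@En.n l6962 (nat_lit 3543) (nat_lit 12) (nat_lit 4))
    (@En.n l1865 (nat_lit 2396) (nat_lit 3) (nat_lit 4))
    (@En.i (nat_lit 3071) (nat_lit 9) (nat_lit 12))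
    (@En.n l18629 (nat_lit 3436) (nat_lit 5) (nat_lit 4))
    (@En.n l1867 (nat_lit 2856) (nat_lit 7) (nat_lit 12))
    (@En.i (nat_lit 3432) (nat_lit 8) (nat_lit 12))
    (@En.n l403 (nat_lit 2870) (nat_lit 8) (nat_lit 4))
    (@En.n l1353 (nat_lit 3473) (nat_lit 10) (nat_lit 12))
    (@En.n l18 (nat_lit 4033) (nat_lit 13) (nat_lit 3))
    (@En.n l10571 (nat_lit 2858) (nat_lit 0) (nat_lit 3))
    (@En.n l6444 (nat_lit 4034) (nat_lit 0) (nat_lit 12))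
    (@En.n l18630 (nat_lit 2858) (nat_lit 3) (nat_lit 13))
    (@En.i (nat_lit 12415) (nat_lit 2) (nat_lit 13))
    (@En.n l28 (nat_lit 2869) (nat_lit 15) (nat_lit 2))))
  (@Cl.mk (nat_lit 0x2000c000c000c000a000400040004000c000c0006000c00040004000e0004) (nat_lit 0x678200084000050) (nat_lit 16) Lb.e (@T16.mk En
    (@En.i (nat_lit 2879) (nat_lit 5) (nat_lit 4))
    (@En.n l5643 (nat_lit 3903) (nat_lit 1) (nat_lit 14))
    (@En.n l152 (nat_lit 3544) (nat_lit 12) (nat_lit 4))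
    (@En.i (nat_lit 2240) (nat_lit 3) (nat_lit 4))
    (@En.i (nat_lit 3761) (nat_lit 0) (nat_lit 12))
    (@En.n l5643 (nat_lit 2413) (nat_lit 5) (nat_lit 6))
    (@En.n l13905 (nat_lit 2865) (nat_lit 7) (nat_lit 12))
    (@En.i (nat_lit 8203) (nat_lit 8) (nat_lit 12))
    (@En.n l2781 (nat_lit 2867) (nat_lit 12) (nat_lit 4))
    (@En.n l2172 (nat_lit 4034) (nat_lit 12) (nat_lit 4))
    (@En.i (nat_lit 2872) (nat_lit 10) (nat_lit 4))
    (@En.n l2781 (nat_lit 3655) (nat_lit 12) (nat_lit 10))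
    (@En.n l742 (nat_lit 2874) (nat_lit 4) (nat_lit 12))
    (@En.n l396 (nat_lit 2868) (nat_lit 4) (nat_lit 12))
    (@En.n l7 (nat_lit 11811) (nat_lit 11) (nat_lit 12))
    (@En.n l28 (nat_lit 2870) (nat_lit 15) (nat_lit 2))))
  (@Cl.mk (nat_lit 0x200050003000c000c0008000c00040004000e00040002000b0008000e000d) (nat_lit 0x9a30005006429) (nat_lit 16) Lb.e (@T16.mk En
    (@En.n l61 (nat_lit 2872) (nat_lit 12) (nat_lit 13))
    (@En.i (nat_lit 2867) (nat_lit 1) (nat_lit 14))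
    (@En.n l28576 (nat_lit 3244) (nat_lit 14) (nat_lit 8))
    (@En.n l3519 (nat_lit 9233) (nat_lit 3) (nat_lit 11))
    (@En.n l28 (nat_lit 2871) (nat_lit 4) (nat_lit 2))
    (@En.i (nat_lit 3594) (nat_lit 5) (nat_lit 4))
    (@En.n l3519 (nat_lit 2663) (nat_lit 7) (nat_lit 14))
    (@En.n l152 (nat_lit 3568) (nat_lit 7) (nat_lit 4))
    (@En.i (nat_lit 2276) (nat_lit 8) (nat_lit 4))
    (@En.i (nat_lit 4020) (nat_lit 10) (nat_lit 12))
    (@En.n l2101 (nat_lit 6428) (nat_lit 11) (nat_lit 8))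
    (@En.n l3471 (nat_lit 3596) (nat_lit 12) (nat_lit 12))
    (@En.i (nat_lit 9376) (nat_lit 13) (nat_lit 12))
    (@En.n l72 (nat_lit 2872) (nat_lit 8) (nat_lit 3))
    (@En.n l6142 (nat_lit 2495) (nat_lit 9) (nat_lit 5))
    (@En.n l17 (nat_lit 2871) (nat_lit 15) (nat_lit 2))))
  (@Cl.mk (nat_lit 0x2000c0008000d000d000400030003000c000c0008000c00040004000e0004) (nat_lit 0x608900078200010) (nat_lit 16) Lb.e (@T16.mk En
    (@En.i (nat_lit 2875) (nat_lit 6) (nat_lit 4))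
    (@En.n l2038 (nat_lit 666) (nat_lit 1) (nat_lit 14))
    (@En.n l152 (nat_lit 2877) (nat_lit 12) (nat_lit 4))
    (@En.i (nat_lit 2277) (nat_lit 3) (nat_lit 4))
    (@En.i (nat_lit 4027) (nat_lit 0) (nat_lit 12))
    (@En.i (nat_lit 6425) (nat_lit 5) (nat_lit 8))
    (@En.n l1867 (nat_lit 2876) (nat_lit 7) (nat_lit 12))
    (@En.i (nat_lit 8204) (nat_lit 8) (nat_lit 12))
    (@En.i (nat_lit 2871) (nat_lit 13) (nat_lit 3))
    (@En.n l18 (nat_lit 2873) (nat_lit 0) (nat_lit 3))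
    (@En.i (nat_lit 2868) (nat_lit 0) (nat_lit 4))
    (@En.n l61 (nat_lit 2873) (nat_lit 3) (nat_lit 13))
    (@En.i (nat_lit 2869) (nat_lit 13) (nat_lit 13))
    (@En.i (nat_lit 2878) (nat_lit 14) (nat_lit 8))
    (@En.i (nat_lit 12195) (nat_lit 11) (nat_lit 12))
    (@En.n l28 (nat_lit 2872) (nat_lit 15) (nat_lit 2))))
  (@Cl.mk (nat_lit 0x2000c000c0008000c00040004000e00040002000d0008000d0003000e0003) (nat_lit 0x784000100a08030) (nat_lit 16) Lb.e (@T16.mk En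
    (@En.i (nat_lit 2872) (nat_lit 9) (nat_lit 3))
    (@En.i (nat_lit 13916) (nat_lit 0) (nat_lit 14))
    (@En.i (nat_lit 2874) (nat_lit 2) (nat_lit 3))
    (@En.i (nat_lit 4033) (nat_lit 0) (nat_lit 13))
    (@En.i (nat_lit 3245) (nat_lit 14) (nat_lit 8))
    (@En.i (nat_lit 12198) (nat_lit 6) (nat_lit 13))
    (@En.n l28 (nat_lit 2873) (nat_lit 6) (nat_lit 2))
    (@En.i (nat_lit 3605) (nat_lit 7) (nat_lit 4))
    (@En.n l2038 (nat_lit 662) (nat_lit 1) (nat_lit 14))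
    (@En.n l152 (nat_lit 3567) (nat_lit 12) (nat_lit 4))
    (@En.i (nat_lit 2368) (nat_lit 10) (nat_lit 4))
    (@En.i (nat_lit 4050) (nat_lit 12) (nat_lit 12))
    (@En.i (nat_lit 6424) (nat_lit 5) (nat_lit 8))
    (@En.n l1867 (nat_lit 3606) (nat_lit 14) (nat_lit 12))
    (@En.i (nat_lit 8206) (nat_lit 8) (nat_lit 12))
    (@En.n l17 (nat_lit 2873) (nat_lit 15) (nat_lit 2))))
  (@Cl.mk (nat_lit 0x2000c000c0007000c00040004000e00040002000d000c00090003000e0004) (nat_lit 0x880000100b71010) (nat_lit 16) Lb.e (@T16.mk En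
    (@En.n l50 (nat_lit 2870) (nat_lit 9) (nat_lit 4))
    (@En.n l5 (nat_lit 750) (nat_lit 1) (nat_lit 14))
    (@En.n l50 (nat_lit 2873) (nat_lit 2) (nat_lit 3))
    (@En.i (nat_lit 2035) (nat_lit 3) (nat_lit 9))
    (@En.n l217 (nat_lit 2872) (nat_lit 14) (nat_lit 12))
    (@En.i (nat_lit 12201) (nat_lit 6) (nat_lit 13))
    (@En.n l28 (nat_lit 2874) (nat_lit 6) (nat_lit 2))
    (@En.i (nat_lit 3636) (nat_lit 7) (nat_lit 4))
    (@En.n l2038 (nat_lit 663) (nat_lit 1) (nat_lit 14))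
    (@En.n l152 (nat_lit 3566) (nat_lit 12) (nat_lit 4))
    (@En.i (nat_lit 2246) (nat_lit 10) (nat_lit 4))
    (@En.i (nat_lit 3755) (nat_lit 12) (nat_lit 12))
    (@En.i (nat_lit 6423) (nat_lit 5) (nat_lit 7))
    (@En.n l1867 (nat_lit 3637) (nat_lit 14) (nat_lit 12))
    (@En.i (nat_lit 8205) (nat_lit 8) (nat_lit 12))
    (@En.n l17 (nat_lit 2874) (nat_lit 15) (nat_lit 2))))
  (@Cl.mk (nat_lit 0x30003000b000b0008000c000c0005000500040004000c0008000d000d0004) (nat_lit 0x784010000739a0) (nat_lit 16) Lb.e (@T16.mk En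
    (@En.i (nat_lit 3650) (nat_lit 0) (nat_lit 4))
    (@En.n l61 (nat_lit 3605) (nat_lit 3) (nat_lit 13))
    (@En.n l5763 (nat_lit 3561) (nat_lit 1) (nat_lit 13))
    (@En.i (nat_lit 3240) (nat_lit 3) (nat_lit 8))
    (@En.i (nat_lit 9243) (nat_lit 5) (nat_lit 12))
    (@En.i (nat_lit 3600) (nat_lit 12) (nat_lit 4))
    (@En.n l11 (nat_lit 2332) (nat_lit 6) (nat_lit 4))
    (@En.n l152 (nat_lit 3515) (nat_lit 11) (nat_lit 5))
    (@En.n l936 (nat_lit 2262) (nat_lit 8) (nat_lit 5))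
    (@En.n l55 (nat_lit 2872) (nat_lit 4) (nat_lit 12))
    (@En.i (nat_lit 3819) (nat_lit 11) (nat_lit 12))
    (@En.i (nat_lit 6336) (nat_lit 12) (nat_lit 8))
    (@En.n l5579 (nat_lit 3595) (nat_lit 5) (nat_lit 11))
    (@En.i (nat_lit 8140) (nat_lit 14) (nat_lit 11))
    (@En.i (nat_lit 3594) (nat_lit 13) (nat_lit 3))
    (@En.n l18 (nat_lit 3605) (nat_lit 0) (nat_lit 3))))
  (@Cl.mk (nat_lit 0x2000c0009000d000d000400030003000c0007000b000e00040002000e0005) (nat_lit 0x869800070000060) (nat_lit 16) Lb.e (@T16.mk En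
    (@En.n l476 (nat_lit 3595) (nat_lit 14) (nat_lit 5))
    (@En.n l3815 (nat_lit 3792) (nat_lit 1) (nat_lit 14))
    (@En.n l17 (nat_lit 2876) (nat_lit 2) (nat_lit 2))
    (@En.n l2869 (nat_lit 2872) (nat_lit 3) (nat_lit 4))
    (@En.n l1599 (nat_lit 13042) (nat_lit 4) (nat_lit 14))
    (@En.n l14619 (nat_lit 3845) (nat_lit 2) (nat_lit 11))
    (@En.n l998 (nat_lit 2815) (nat_lit 6) (nat_lit 7))
    (@En.i (nat_lit 6685) (nat_lit 8) (nat_lit 12))
    (@En.n l1599 (nat_lit 3596) (nat_lit 13) (nat_lit 3))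
    (@En.n l28 (nat_lit 3606) (nat_lit 0) (nat_lit 3))
    (@En.i (nat_lit 2853) (nat_lit 0) (nat_lit 4))
    (@En.n l77 (nat_lit 3606) (nat_lit 3) (nat_lit 13))
    (@En.i (nat_lit 2856) (nat_lit 13) (nat_lit 13))
    (@En.n l2032 (nat_lit 3237) (nat_lit 14) (nat_lit 9))
    (@En.i (nat_lit 5678) (nat_lit 12) (nat_lit 12))
    (@En.n l3 (nat_lit 2876) (nat_lit 15) (nat_lit 2))))
  (@Cl.mk (nat_lit 0x20009000d0004000e00030002000c0007000d000d000400030003000e000c) (nat_lit 0x130500507800098) (nat_lit 16) Lb.e (@T16.mk En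
    (@En.i (nat_lit 2872) (nat_lit 7) (nat_lit 12))
    (@En.i (nat_lit 3503) (nat_lit 1) (nat_lit 14))
    (@En.i (nat_lit 3568) (nat_lit 13) (nat_lit 3))
    (@En.n l18 (nat_lit 3567) (nat_lit 3) (nat_lit 3))
    (@En.i (nat_lit 3539) (nat_lit 0) (nat_lit 4))
    (@En.n l61 (nat_lit 3567) (nat_lit 6) (nat_lit 13))
    (@En.n l1353 (nat_lit 3543) (nat_lit 7) (nat_lit 13))
    (@En.i (nat_lit 3228) (nat_lit 14) (nat_lit 7))
    (@En.i (nat_lit 9230) (nat_lit 9) (nat_lit 12))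
    (@En.n l28 (nat_lit 2877) (nat_lit 9) (nat_lit 2))
    (@En.i (nat_lit 3515) (nat_lit 10) (nat_lit 3))
    (@En.i (nat_lit 13009) (nat_lit 0) (nat_lit 14))
    (@En.i (nat_lit 2377) (nat_lit 2) (nat_lit 4))
    (@En.i (nat_lit 4021) (nat_lit 14) (nat_lit 13))
    (@En.i (nat_lit 535) (nat_lit 4) (nat_lit 9))
    (@En.n l3 (nat_lit 2877) (nat_lit 15) (nat_lit 2))))
  (@Cl.mk (nat_lit 0x20008000d000d000a00030003000b000b00080006000c00050005000e0004) (nat_lit 0x69a0008620000a0) (nat_lit 16) Lb.e (@T16.mk En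
    (@En.i (nat_lit 3240) (nat_lit 5) (nat_lit 4))
    (@En.n l2038 (nat_lit 2080) (nat_lit 1) (nat_lit 14))
    (@En.n l152 (nat_lit 3228) (nat_lit 2) (nat_lit 5))
    (@En.i (nat_lit 2363) (nat_lit 3) (nat_lit 5))
    (@En.i (nat_lit 4082) (nat_lit 10) (nat_lit 12))
    (@En.i (nat_lit 2870) (nat_lit 5) (nat_lit 6))
    (@En.n l7918 (nat_lit 6202) (nat_lit 6) (nat_lit 8))
    (@En.n l4003 (nat_lit 3237) (nat_lit 8) (nat_lit 11))
    (@En.i (nat_lit 8210) (nat_lit 9) (nat_lit 11))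
    (@En.n l28576 (nat_lit 3244) (nat_lit 9) (nat_lit 3))
    (@En.n l18 (nat_lit 3245) (nat_lit 10) (nat_lit 3))
    (@En.i (nat_lit 3222) (nat_lit 12) (nat_lit 10))
    (@En.n l61 (nat_lit 3245) (nat_lit 13) (nat_lit 13))
    (@En.n l564 (nat_lit 3476) (nat_lit 14) (nat_lit 13))
    (@En.n l3506 (nat_lit 3246) (nat_lit 3) (nat_lit 8))
    (@En.n l28 (nat_lit 2878) (nat_lit 15) (nat_lit 2))))
  (@Cl.mk (nat_lit 0x400040004000b000b0006000c000c0005000500040004000c000c000c000a) (nat_lit 0x7800100006790) (nat_lit 16) Lb.e (@T16.mk En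
    (@En.n l5641 (nat_lit 3653) (nat_lit 0) (nat_lit 10))
    (@En.n l742 (nat_lit 3636) (nat_lit 4) (nat_lit 12))
    (@En.n l396 (nat_lit 3650) (nat_lit 4) (nat_lit 12))
    (@En.n l7 (nat_lit 9242) (nat_lit 3) (nat_lit 12))
    (@En.n l737 (nat_lit 3563) (nat_lit 12) (nat_lit 4))
    (@En.n l5642 (nat_lit 4396) (nat_lit 0) (nat_lit 4))
    (@En.n l152 (nat_lit 3521) (nat_lit 11) (nat_lit 5))
    (@En.n l936 (nat_lit 4380) (nat_lit 1) (nat_lit 5))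
    (@En.n l55 (nat_lit 2870) (nat_lit 4) (nat_lit 12))
    (@En.i (nat_lit 3818) (nat_lit 1) (nat_lit 12))
    (@En.n l5643 (nat_lit 2415) (nat_lit 4) (nat_lit 6))
    (@En.n l5644 (nat_lit 2864) (nat_lit 5) (nat_lit 11))
    (@En.i (nat_lit 8122) (nat_lit 13) (nat_lit 11))
    (@En.n l5645 (nat_lit 3581) (nat_lit 12) (nat_lit 4))
    (@En.n l2172 (nat_lit 3562) (nat_lit 12) (nat_lit 4))
    (@En.i (nat_lit 2875) (nat_lit 0) (nat_lit 4))))
noncomputable def a180 : T16 Cl := @T16.mk Cl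
  (@Cl.mk (nat_lit 0x3000a00090009000c0007000a0006000400070007000c0006000d00090004) (nat_lit 0x670a04000050830) (nat_lit 16) Lb.e (@T16.mk En
    (@En.n l30043 (nat_lit 2167) (nat_lit 0) (nat_lit 4))
    (@En.n l30044 (nat_lit 2848) (nat_lit 0) (nat_lit 9))
    (@En.n l30045 (nat_lit 2107) (nat_lit 1) (nat_lit 13))
    (@En.n l8494 (nat_lit 2844) (nat_lit 3) (nat_lit 6))
    (@En.n l30046 (nat_lit 11781) (nat_lit 13) (nat_lit 12))
    (@En.n l17 (nat_lit 2851) (nat_lit 9) (nat_lit 7))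
    (@En.n l30043 (nat_lit 3957) (nat_lit 11) (nat_lit 7))
    (@En.n l30047 (nat_lit 2444) (nat_lit 7) (nat_lit 4))
    (@En.n l30048 (nat_lit 4455) (nat_lit 0) (nat_lit 6))
    (@En.i (nat_lit 2271) (nat_lit 8) (nat_lit 10))
    (@En.n l30049 (nat_lit 9429) (nat_lit 11) (nat_lit 7))
    (@En.n l30050 (nat_lit 2881) (nat_lit 6) (nat_lit 12))
    (@En.n l30051 (nat_lit 2881) (nat_lit 7) (nat_lit 9))
    (@En.n l8494 (nat_lit 4248) (nat_lit 7) (nat_lit 9))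
    (@En.i (nat_lit 5420) (nat_lit 14) (nat_lit 10))
    (@En.n l30052 (nat_lit 2882) (nat_lit 13) (nat_lit 3))))
  (@Cl.mk (nat_lit 0x2000c0007000d000a00040003000b0009000c0006000900050004000e0007) (nat_lit 0x609300679030000) (nat_lit 16) Lb.e (@T16.mk En
    (@En.n l15399 (nat_lit 2880) (nat_lit 6) (nat_lit 7))
    (@En.n l10772 (nat_lit 3165) (nat_lit 1) (nat_lit 14))
    (@En.n l152 (nat_lit 2440) (nat_lit 2) (nat_lit 4))
    (@En.n l3851 (nat_lit 4461) (nat_lit 3) (nat_lit 5))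
    (@En.n l617 (nat_lit 2276) (nat_lit 9) (nat_lit 9))
    (@En.i (nat_lit 9430) (nat_lit 5) (nat_lit 6))
    (@En.n l3851 (nat_lit 13406) (nat_lit 6) (nat_lit 12))
    (@En.n l3536 (nat_lit 4241) (nat_lit 14) (nat_lit 9))
    (@En.n l16584 (nat_lit 6916) (nat_lit 9) (nat_lit 11))
    (@En.n l18 (nat_lit 2883) (nat_lit 9) (nat_lit 3))
    (@En.n l11793 (nat_lit 2169) (nat_lit 0) (nat_lit 4))
    (@En.i (nat_lit 2884) (nat_lit 12) (nat_lit 10))
    (@En.n l20295 (nat_lit 2400) (nat_lit 13) (nat_lit 13))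
    (@En.n l10345 (nat_lit 2887) (nat_lit 14) (nat_lit 7))
    (@En.i (nat_lit 11782) (nat_lit 3) (nat_lit 12))
    (@En.n l28 (nat_lit 2881) (nat_lit 15) (nat_lit 2))))
  (@Cl.mk (nat_lit 0x3000a0003000a00090009000c0006000a0006000400070007000d0006000d) (nat_lit 0x806000040000a07) (nat_lit 16) Lb.e (@T16.mk En
    (@En.n l8656 (nat_lit 2401) (nat_lit 0) (nat_lit 13))
    (@En.i (nat_lit 2846) (nat_lit 3) (nat_lit 6))
    (@En.n l32173 (nat_lit 11880) (nat_lit 2) (nat_lit 13))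
    (@En.n l34831 (nat_lit 4448) (nat_lit 9) (nat_lit 7))
    (@En.n l34833 (nat_lit 3956) (nat_lit 11) (nat_lit 7))
    (@En.n l9254 (nat_lit 2614) (nat_lit 5) (nat_lit 4))
    (@En.n l3851 (nat_lit 4449) (nat_lit 0) (nat_lit 6))
    (@En.n l617 (nat_lit 2273) (nat_lit 9) (nat_lit 10))
    (@En.n l7948 (nat_lit 9079) (nat_lit 8) (nat_lit 6))
    (@En.n l936 (nat_lit 2883) (nat_lit 6) (nat_lit 12))
    (@En.n l55 (nat_lit 2883) (nat_lit 7) (nat_lit 9))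
    (@En.n l3536 (nat_lit 4247) (nat_lit 7) (nat_lit 9))
    (@En.n l936 (nat_lit 2893) (nat_lit 13) (nat_lit 10))
    (@En.n l15399 (nat_lit 2880) (nat_lit 15) (nat_lit 3))
    (@En.n l12976 (nat_lit 5221) (nat_lit 0) (nat_lit 10))
    (@En.n l2569 (nat_lit 2850) (nat_lit 15) (nat_lit 3))))
  (@Cl.mk (nat_lit 0x2000d0007000d0003000b0003000b0009000c0005000900050004000e0007) (nat_lit 0xa0809067a030000) (nat_lit 16) Lb.e (@T16.mk En
    (@En.i (nat_lit 2882) (nat_lit 4) (nat_lit 7))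
    (@En.n l10772 (nat_lit 3166) (nat_lit 1) (nat_lit 14))
    (@En.n l152 (nat_lit 2610) (nat_lit 2) (nat_lit 4))
    (@En.n l3851 (nat_lit 6735) (nat_lit 3) (nat_lit 5))
    (@En.n l617 (nat_lit 2277) (nat_lit 4) (nat_lit 9))
    (@En.i (nat_lit 9596) (nat_lit 5) (nat_lit 5))
    (@En.n l3851 (nat_lit 14003) (nat_lit 6) (nat_lit 12))
    (@En.n l3536 (nat_lit 4243) (nat_lit 14) (nat_lit 9))
    (@En.i (nat_lit 2890) (nat_lit 9) (nat_lit 11))
    (@En.i (nat_lit 2881) (nat_lit 9) (nat_lit 3))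
    (@En.n l387 (nat_lit 5222) (nat_lit 11) (nat_lit 11))
    (@En.i (nat_lit 2885) (nat_lit 11) (nat_lit 3))
    (@En.n l7289 (nat_lit 2398) (nat_lit 0) (nat_lit 13))
    (@En.i (nat_lit 2886) (nat_lit 14) (nat_lit 7))
    (@En.i (nat_lit 11882) (nat_lit 2) (nat_lit 13))
    (@En.n l28 (nat_lit 2883) (nat_lit 15) (nat_lit 2))))
  (@Cl.mk (nat_lit 0x2000d0007000a0003000b000a0008000b00060005000900060005000e0008) (nat_lit 0x702085680040003) (nat_lit 16) Lb.e (@T16.mk En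
    (@En.n l3647 (nat_lit 2848) (nat_lit 4) (nat_lit 8))
    (@En.n l899 (nat_lit 3155) (nat_lit 1) (nat_lit 14))
    (@En.n l9272 (nat_lit 2609) (nat_lit 2) (nat_lit 5))
    (@En.n l3851 (nat_lit 6806) (nat_lit 3) (nat_lit 6))
    (@En.n l2196 (nat_lit 2881) (nat_lit 4) (nat_lit 9))
    (@En.i (nat_lit 2883) (nat_lit 5) (nat_lit 5))
    (@En.n l61 (nat_lit 9456) (nat_lit 6) (nat_lit 6))
    (@En.n l31288 (nat_lit 13407) (nat_lit 7) (nat_lit 11))
    (@En.n l9279 (nat_lit 4239) (nat_lit 13) (nat_lit 8))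
    (@En.n l3518 (nat_lit 6915) (nat_lit 10) (nat_lit 10))
    (@En.n l31289 (nat_lit 4836) (nat_lit 11) (nat_lit 11))
    (@En.n l16548 (nat_lit 2888) (nat_lit 11) (nat_lit 3))
    (@En.n l20864 (nat_lit 1977) (nat_lit 8) (nat_lit 10))
    (@En.n l15723 (nat_lit 2889) (nat_lit 14) (nat_lit 7))
    (@En.n l899 (nat_lit 11869) (nat_lit 2) (nat_lit 13))
    (@En.n l28 (nat_lit 2884) (nat_lit 15) (nat_lit 2))))
  (@Cl.mk (nat_lit 0x2000d000c00080003000b0004000b0009000c0005000800050004000e0007) (nat_lit 0xb71090679030000) (nat_lit 16) Lb.e (@T16.mk En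
    (@En.n l2569 (nat_lit 2850) (nat_lit 4) (nat_lit 7))
    (@En.n l10772 (nat_lit 3164) (nat_lit 1) (nat_lit 14))
    (@En.n l152 (nat_lit 2441) (nat_lit 2) (nat_lit 4))
    (@En.n l3851 (nat_lit 6733) (nat_lit 3) (nat_lit 5))
    (@En.n l617 (nat_lit 2428) (nat_lit 10) (nat_lit 8))
    (@En.n l10773 (nat_lit 9595) (nat_lit 5) (nat_lit 5))
    (@En.n l3851 (nat_lit 14004) (nat_lit 6) (nat_lit 12))
    (@En.n l3536 (nat_lit 4246) (nat_lit 12) (nat_lit 9))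
    (@En.n l4542 (nat_lit 2891) (nat_lit 9) (nat_lit 11))
    (@En.n l10774 (nat_lit 2168) (nat_lit 9) (nat_lit 4))
    (@En.n l612 (nat_lit 2886) (nat_lit 11) (nat_lit 11))
    (@En.n l50 (nat_lit 2883) (nat_lit 11) (nat_lit 3))
    (@En.n l2569 (nat_lit 1775) (nat_lit 0) (nat_lit 8))
    (@En.n l217 (nat_lit 2881) (nat_lit 14) (nat_lit 12))
    (@En.n l10775 (nat_lit 11885) (nat_lit 2) (nat_lit 13))
    (@En.n l28 (nat_lit 2885) (nat_lit 15) (nat_lit 2))))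
  (@Cl.mk (nat_lit 0x20007000d0008000b0003000a0008000b00050009000800060005000e0008) (nat_lit 0x81805680340006) (nat_lit 16) Lb.e (@T16.mk En
    (@En.i (nat_lit 2846) (nat_lit 5) (nat_lit 8))
    (@En.n l10772 (nat_lit 3163) (nat_lit 1) (nat_lit 14))
    (@En.n l152 (nat_lit 2607) (nat_lit 2) (nat_lit 5))
    (@En.n l24270 (nat_lit 6801) (nat_lit 3) (nat_lit 6))
    (@En.n l644 (nat_lit 2885) (nat_lit 4) (nat_lit 8))
    (@En.n l617 (nat_lit 2363) (nat_lit 5) (nat_lit 9))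
    (@En.i (nat_lit 9594) (nat_lit 6) (nat_lit 5))
    (@En.n l3851 (nat_lit 14005) (nat_lit 7) (nat_lit 11))
    (@En.n l3536 (nat_lit 4235) (nat_lit 14) (nat_lit 8))
    (@En.n l24271 (nat_lit 2892) (nat_lit 10) (nat_lit 10))
    (@En.n l10345 (nat_lit 2887) (nat_lit 10) (nat_lit 3))
    (@En.n l23392 (nat_lit 5225) (nat_lit 7) (nat_lit 11))
    (@En.i (nat_lit 1776) (nat_lit 13) (nat_lit 8))
    (@En.n l7025 (nat_lit 2884) (nat_lit 14) (nat_lit 13))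
    (@En.n l24270 (nat_lit 10556) (nat_lit 3) (nat_lit 7))
    (@En.n l28 (nat_lit 2886) (nat_lit 15) (nat_lit 2))))
  (@Cl.mk (nat_lit 0x20007000d000a00090003000a0008000b00060009000700060005000e0008) (nat_lit 0x86205680300006) (nat_lit 16) Lb.e (@T16.mk En
    (@En.n l3174 (nat_lit 2844) (nat_lit 5) (nat_lit 8))
    (@En.n l1708 (nat_lit 3160) (nat_lit 1) (nat_lit 14))
    (@En.n l237 (nat_lit 2608) (nat_lit 2) (nat_lit 5))
    (@En.i (nat_lit 6800) (nat_lit 3) (nat_lit 6))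
    (@En.n l10776 (nat_lit 2168) (nat_lit 4) (nat_lit 7))
    (@En.i (nat_lit 2365) (nat_lit 5) (nat_lit 9))
    (@En.n l414 (nat_lit 9298) (nat_lit 6) (nat_lit 6))
    (@En.i (nat_lit 14019) (nat_lit 7) (nat_lit 11))
    (@En.n l3174 (nat_lit 4231) (nat_lit 14) (nat_lit 8))
    (@En.n l4607 (nat_lit 5149) (nat_lit 10) (nat_lit 10))
    (@En.n l10777 (nat_lit 2886) (nat_lit 10) (nat_lit 3))
    (@En.n l4602 (nat_lit 1727) (nat_lit 12) (nat_lit 9))
    (@En.n l4589 (nat_lit 2889) (nat_lit 13) (nat_lit 10))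
    (@En.n l1452 (nat_lit 2888) (nat_lit 14) (nat_lit 13))
    (@En.i (nat_lit 10554) (nat_lit 3) (nat_lit 7))
    (@En.n l17 (nat_lit 2887) (nat_lit 15) (nat_lit 2))))
  (@Cl.mk (nat_lit 0x2000d000900080003000b000a0008000b00070005000800060005000e0008) (nat_lit 0x752085680050006) (nat_lit 16) Lb.e (@T16.mk En
    (@En.n l16322 (nat_lit 2840) (nat_lit 4) (nat_lit 8))
    (@En.n l16323 (nat_lit 3162) (nat_lit 1) (nat_lit 14))
    (@En.n l16324 (nat_lit 2439) (nat_lit 2) (nat_lit 5))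
    (@En.n l3863 (nat_lit 6808) (nat_lit 3) (nat_lit 6))
    (@En.n l16325 (nat_lit 2169) (nat_lit 10) (nat_lit 8))
    (@En.n l16326 (nat_lit 2885) (nat_lit 5) (nat_lit 5))
    (@En.n l4388 (nat_lit 9301) (nat_lit 6) (nat_lit 7))
    (@En.i (nat_lit 14006) (nat_lit 7) (nat_lit 11))
    (@En.n l4597 (nat_lit 4238) (nat_lit 13) (nat_lit 8))
    (@En.i (nat_lit 6917) (nat_lit 10) (nat_lit 10))
    (@En.n l16327 (nat_lit 2889) (nat_lit 11) (nat_lit 11))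
    (@En.n l16328 (nat_lit 2884) (nat_lit 11) (nat_lit 3))
    (@En.n l16329 (nat_lit 1484) (nat_lit 0) (nat_lit 8))
    (@En.n l16330 (nat_lit 1986) (nat_lit 14) (nat_lit 9))
    (@En.n l420 (nat_lit 11871) (nat_lit 2) (nat_lit 13))
    (@En.n l17 (nat_lit 2888) (nat_lit 15) (nat_lit 2))))
  (@Cl.mk (nat_lit 0x20007000a0008000b00090007000a000600050009000800070006000e0009) (nat_lit 0x52740700460007) (nat_lit 16) Lb.e (@T16.mk En
    (@En.n l24273 (nat_lit 2842) (nat_lit 1) (nat_lit 9))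
    (@En.n l24274 (nat_lit 3161) (nat_lit 1) (nat_lit 14))
    (@En.n l24275 (nat_lit 2606) (nat_lit 2) (nat_lit 6))
    (@En.i (nat_lit 1717) (nat_lit 3) (nat_lit 7))
    (@En.n l24276 (nat_lit 2888) (nat_lit 4) (nat_lit 8))
    (@En.n l4817 (nat_lit 2887) (nat_lit 5) (nat_lit 9))
    (@En.n l24277 (nat_lit 2886) (nat_lit 6) (nat_lit 5))
    (@En.n l17 (nat_lit 8828) (nat_lit 7) (nat_lit 6))
    (@En.n l12585 (nat_lit 14020) (nat_lit 8) (nat_lit 10))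
    (@En.n l14195 (nat_lit 4232) (nat_lit 10) (nat_lit 7))
    (@En.n l24276 (nat_lit 5056) (nat_lit 11) (nat_lit 9))
    (@En.n l10040 (nat_lit 5228) (nat_lit 12) (nat_lit 11))
    (@En.n l24278 (nat_lit 1434) (nat_lit 13) (nat_lit 8))
    (@En.n l24279 (nat_lit 1991) (nat_lit 8) (nat_lit 10))
    (@En.n l11419 (nat_lit 10555) (nat_lit 13) (nat_lit 7))
    (@En.n l50 (nat_lit 2889) (nat_lit 15) (nat_lit 2))))
  (@Cl.mk (nat_lit 0x2000d000800070003000c000b0008000b00040008000500090005000e0008) (nat_lit 0x500095000004000) (nat_lit 16) Lb.e (@T16.mk En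
    (@En.n l936 (nat_lit 2893) (nat_lit 4) (nat_lit 8))
    (@En.n l10772 (nat_lit 6576) (nat_lit 1) (nat_lit 14))
    (@En.n l17 (nat_lit 2884) (nat_lit 2) (nat_lit 5))
    (@En.i (nat_lit 6591) (nat_lit 3) (nat_lit 9))
    (@En.n l3851 (nat_lit 5114) (nat_lit 4) (nat_lit 5))
    (@En.n l617 (nat_lit 6828) (nat_lit 5) (nat_lit 8))
    (@En.n l33593 (nat_lit 9597) (nat_lit 6) (nat_lit 4))
    (@En.n l3851 (nat_lit 13891) (nat_lit 7) (nat_lit 11))
    (@En.i (nat_lit 12008) (nat_lit 1) (nat_lit 8))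
    (@En.n l33594 (nat_lit 6913) (nat_lit 10) (nat_lit 11))
    (@En.n l387 (nat_lit 5261) (nat_lit 11) (nat_lit 12))
    (@En.n l4542 (nat_lit 2891) (nat_lit 11) (nat_lit 3))
    (@En.n l7646 (nat_lit 5680) (nat_lit 0) (nat_lit 7))
    (@En.n l24271 (nat_lit 2892) (nat_lit 14) (nat_lit 8))
    (@En.n l32175 (nat_lit 9705) (nat_lit 2) (nat_lit 13))
    (@En.n l28 (nat_lit 2890) (nat_lit 15) (nat_lit 2))))
  (@Cl.mk (nat_lit 0x2000d000600090003000c000b0008000b000400070005000a0005000e0008) (nat_lit 0x502045000002000) (nat_lit 16) Lb.e (@T16.mk En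
    (@En.n l24264 (nat_lit 5106) (nat_lit 4) (nat_lit 8))
    (@En.n l95 (nat_lit 5171) (nat_lit 1) (nat_lit 14))
    (@En.n l24265 (nat_lit 2888) (nat_lit 2) (nat_lit 5))
    (@En.n l181 (nat_lit 5107) (nat_lit 3) (nat_lit 10))
    (@En.i (nat_lit 5108) (nat_lit 4) (nat_lit 5))
    (@En.n l3864 (nat_lit 3459) (nat_lit 5) (nat_lit 7))
    (@En.n l20922 (nat_lit 9593) (nat_lit 6) (nat_lit 4))
    (@En.n l24266 (nat_lit 13888) (nat_lit 7) (nat_lit 11))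
    (@En.n l24267 (nat_lit 12009) (nat_lit 1) (nat_lit 8))
    (@En.n l24265 (nat_lit 6640) (nat_lit 10) (nat_lit 11))
    (@En.n l4163 (nat_lit 2892) (nat_lit 11) (nat_lit 12))
    (@En.n l15710 (nat_lit 2890) (nat_lit 11) (nat_lit 3))
    (@En.n l3864 (nat_lit 1810) (nat_lit 9) (nat_lit 9))
    (@En.n l24268 (nat_lit 4934) (nat_lit 14) (nat_lit 6))
    (@En.n l24269 (nat_lit 9703) (nat_lit 2) (nat_lit 13))
    (@En.n l7 (nat_lit 2891) (nat_lit 15) (nat_lit 2))))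
  (@Cl.mk (nat_lit 0x2000800060009000c000a0007000a0004000800070006000a0006000e0009) (nat_lit 0x602340003005000) (nat_lit 16) Lb.e (@T16.mk En
    (@En.i (nat_lit 5101) (nat_lit 2) (nat_lit 9))
    (@En.n l396 (nat_lit 5165) (nat_lit 1) (nat_lit 14))
    (@En.n l890 (nat_lit 2889) (nat_lit 2) (nat_lit 6))
    (@En.n l37953 (nat_lit 5102) (nat_lit 3) (nat_lit 10))
    (@En.i (nat_lit 5162) (nat_lit 4) (nat_lit 6))
    (@En.n l13299 (nat_lit 2891) (nat_lit 5) (nat_lit 7))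
    (@En.n l37954 (nat_lit 5085) (nat_lit 6) (nat_lit 8))
    (@En.n l3536 (nat_lit 9592) (nat_lit 7) (nat_lit 4))
    (@En.n l37954 (nat_lit 13893) (nat_lit 8) (nat_lit 10))
    (@En.n l12290 (nat_lit 12010) (nat_lit 1) (nat_lit 7))
    (@En.n l37955 (nat_lit 5055) (nat_lit 11) (nat_lit 10))
    (@En.n l3866 (nat_lit 4640) (nat_lit 6) (nat_lit 12))
    (@En.n l25089 (nat_lit 1808) (nat_lit 9) (nat_lit 9))
    (@En.i (nat_lit 4933) (nat_lit 14) (nat_lit 6))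
    (@En.n l1790 (nat_lit 10565) (nat_lit 6) (nat_lit 8))
    (@En.n l18 (nat_lit 2892) (nat_lit 15) (nat_lit 2))))
  (@Cl.mk (nat_lit 0x3000b000a00080008000b000500090006000a000500080008000d00070006) (nat_lit 0x850110004060400) (nat_lit 16) Lb.e (@T16.mk En
    (@En.n l39932 (nat_lit 5214) (nat_lit 0) (nat_lit 6))
    (@En.n l39933 (nat_lit 5101) (nat_lit 0) (nat_lit 7))
    (@En.n l34579 (nat_lit 9706) (nat_lit 2) (nat_lit 13))
    (@En.n l39934 (nat_lit 5288) (nat_lit 8) (nat_lit 8))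
    (@En.n l39935 (nat_lit 5289) (nat_lit 10) (nat_lit 8))
    (@En.n l5646 (nat_lit 2848) (nat_lit 5) (nat_lit 5))
    (@En.n l39936 (nat_lit 6592) (nat_lit 9) (nat_lit 10))
    (@En.n l21574 (nat_lit 5111) (nat_lit 7) (nat_lit 6))
    (@En.n l39937 (nat_lit 6826) (nat_lit 10) (nat_lit 9))
    (@En.n l25555 (nat_lit 9080) (nat_lit 9) (nat_lit 5))
    (@En.i (nat_lit 2890) (nat_lit 7) (nat_lit 11))
    (@En.n l5386 (nat_lit 2890) (nat_lit 8) (nat_lit 8))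
    (@En.n l8776 (nat_lit 11615) (nat_lit 13) (nat_lit 8))
    (@En.n l39938 (nat_lit 5425) (nat_lit 6) (nat_lit 10))
    (@En.n l39939 (nat_lit 5260) (nat_lit 4) (nat_lit 11))
    (@En.n l39940 (nat_lit 5106) (nat_lit 15) (nat_lit 3))))
  (@Cl.mk (nat_lit 0x20005000b0004000c000c000c0005000400040004000e000b0002000e000c) (nat_lit 0xaa4000031021) (nat_lit 16) Lb.e (@T16.mk En
    (@En.n l4291 (nat_lit 1157) (nat_lit 14) (nat_lit 12))
    (@En.n l1329 (nat_lit 2766) (nat_lit 1) (nat_lit 14))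
    (@En.n l18 (nat_lit 2894) (nat_lit 2) (nat_lit 2))
    (@En.n l1330 (nat_lit 2766) (nat_lit 3) (nat_lit 11))
    (@En.i (nat_lit 8953) (nat_lit 5) (nat_lit 14))
    (@En.n l13 (nat_lit 2640) (nat_lit 5) (nat_lit 4))
    (@En.n l4292 (nat_lit 1221) (nat_lit 6) (nat_lit 4))
    (@En.i (nat_lit 2735) (nat_lit 7) (nat_lit 4))
    (@En.n l167 (nat_lit 2821) (nat_lit 8) (nat_lit 5))
    (@En.n l4293 (nat_lit 2896) (nat_lit 10) (nat_lit 12))
    (@En.n l164 (nat_lit 3062) (nat_lit 11) (nat_lit 12))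
    (@En.n l11 (nat_lit 2696) (nat_lit 12) (nat_lit 12))
    (@En.n l4294 (nat_lit 1087) (nat_lit 9) (nat_lit 4))
    (@En.n l4295 (nat_lit 5827) (nat_lit 14) (nat_lit 11))
    (@En.n l1329 (nat_lit 3760) (nat_lit 13) (nat_lit 5))
    (@En.n l3 (nat_lit 2894) (nat_lit 15) (nat_lit 2))))
  (@Cl.mk (nat_lit 0x200050005000c0005000d000c00040003000e00040002000b000b000e000b) (nat_lit 0xb3001000005) (nat_lit 16) Lb.e (@T16.mk En
    (@En.n l8015 (nat_lit 2997) (nat_lit 12) (nat_lit 11))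
    (@En.n l4245 (nat_lit 2998) (nat_lit 13) (nat_lit 14))
    (@En.n l68 (nat_lit 2998) (nat_lit 14) (nat_lit 11))
    (@En.i (nat_lit 11929) (nat_lit 3) (nat_lit 11))
    (@En.n l17 (nat_lit 2895) (nat_lit 4) (nat_lit 2))
    (@En.n l50 (nat_lit 2766) (nat_lit 5) (nat_lit 4))
    (@En.n l5 (nat_lit 604) (nat_lit 7) (nat_lit 14))
    (@En.n l50 (nat_lit 2734) (nat_lit 7) (nat_lit 3))
    (@En.i (nat_lit 2987) (nat_lit 8) (nat_lit 4))
    (@En.n l217 (nat_lit 2731) (nat_lit 10) (nat_lit 12))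
    (@En.i (nat_lit 2695) (nat_lit 11) (nat_lit 13))
    (@En.i (nat_lit 302) (nat_lit 6) (nat_lit 5))
    (@En.n l645 (nat_lit 7474) (nat_lit 13) (nat_lit 12))
    (@En.n l7041 (nat_lit 2896) (nat_lit 14) (nat_lit 5))
    (@En.i (nat_lit 3712) (nat_lit 9) (nat_lit 5))
    (@En.n l936 (nat_lit 2895) (nat_lit 15) (nat_lit 2))))
noncomputable def a181 : T16 Cl := @T16.mk Cl
  (@Cl.mk (nat_lit 0x20005000c0004000d000c00040003000e00040002000e000b0002000e000c) (nat_lit 0xb30010041016) (nat_lit 16) Lb.e (@T16.mk En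
    (@En.i (nat_lit 2898) (nat_lit 14) (nat_lit 12))
    (@En.n l3340 (nat_lit 2895) (nat_lit 1) (nat_lit 14))
    (@En.n l17 (nat_lit 2896) (nat_lit 2) (nat_lit 2))
    (@En.n l7681 (nat_lit 2895) (nat_lit 3) (nat_lit 11))
    (@En.n l5050 (nat_lit 9217) (nat_lit 1) (nat_lit 14))
    (@En.n l50 (nat_lit 2896) (nat_lit 5) (nat_lit 2))
    (@En.n l3229 (nat_lit 2894) (nat_lit 6) (nat_lit 4))
    (@En.n l5050 (nat_lit 608) (nat_lit 8) (nat_lit 14))
    (@En.n l28 (nat_lit 2897) (nat_lit 8) (nat_lit 3))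
    (@En.n l11613 (nat_lit 2905) (nat_lit 9) (nat_lit 4))
    (@En.n l2650 (nat_lit 2735) (nat_lit 11) (nat_lit 12))
    (@En.n l5050 (nat_lit 2692) (nat_lit 12) (nat_lit 13))
    (@En.i (nat_lit 1115) (nat_lit 9) (nat_lit 4))
    (@En.i (nat_lit 5831) (nat_lit 14) (nat_lit 12))
    (@En.n l7681 (nat_lit 3753) (nat_lit 13) (nat_lit 5))
    (@En.n l3 (nat_lit 2896) (nat_lit 15) (nat_lit 2))))
  (@Cl.mk (nat_lit 0x20005000d0004000d0003000d0003000e00030002000e000b0002000e000c) (nat_lit 0x30a01030071021) (nat_lit 16) Lb.e (@T16.mk En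
    (@En.i (nat_lit 967) (nat_lit 14) (nat_lit 12))
    (@En.n l3340 (nat_lit 2734) (nat_lit 1) (nat_lit 14))
    (@En.n l17 (nat_lit 2897) (nat_lit 2) (nat_lit 2))
    (@En.n l7681 (nat_lit 2734) (nat_lit 3) (nat_lit 11))
    (@En.n l11611 (nat_lit 9221) (nat_lit 1) (nat_lit 14))
    (@En.n l50 (nat_lit 2897) (nat_lit 5) (nat_lit 2))
    (@En.n l564 (nat_lit 2735) (nat_lit 6) (nat_lit 3))
    (@En.i (nat_lit 13665) (nat_lit 0) (nat_lit 14))
    (@En.i (nat_lit 2896) (nat_lit 8) (nat_lit 3))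
    (@En.i (nat_lit 1220) (nat_lit 10) (nat_lit 13))
    (@En.n l287 (nat_lit 2899) (nat_lit 10) (nat_lit 3))
    (@En.i (nat_lit 2711) (nat_lit 12) (nat_lit 13))
    (@En.i (nat_lit 1113) (nat_lit 9) (nat_lit 4))
    (@En.i (nat_lit 4746) (nat_lit 14) (nat_lit 13))
    (@En.n l7681 (nat_lit 4052) (nat_lit 13) (nat_lit 5))
    (@En.n l3 (nat_lit 2897) (nat_lit 15) (nat_lit 2))))
  (@Cl.mk (nat_lit 0x2000c000c0004000b00040004000d000c00050003000e00040002000e000c) (nat_lit 0x530000ba0010040) (nat_lit 16) Lb.e (@T16.mk En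
    (@En.n l18512 (nat_lit 2997) (nat_lit 14) (nat_lit 12))
    (@En.i (nat_lit 9219) (nat_lit 1) (nat_lit 14))
    (@En.n l50 (nat_lit 2898) (nat_lit 2) (nat_lit 2))
    (@En.n l22266 (nat_lit 1157) (nat_lit 3) (nat_lit 4))
    (@En.n l601 (nat_lit 456) (nat_lit 1) (nat_lit 14))
    (@En.n l28 (nat_lit 967) (nat_lit 5) (nat_lit 3))
    (@En.n l13540 (nat_lit 3133) (nat_lit 6) (nat_lit 5))
    (@En.n l18989 (nat_lit 2722) (nat_lit 8) (nat_lit 12))
    (@En.n l5276 (nat_lit 4619) (nat_lit 9) (nat_lit 13))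
    (@En.n l152 (nat_lit 2896) (nat_lit 12) (nat_lit 4))
    (@En.n l10847 (nat_lit 1103) (nat_lit 10) (nat_lit 4))
    (@En.i (nat_lit 5828) (nat_lit 12) (nat_lit 11))
    (@En.n l7681 (nat_lit 3338) (nat_lit 9) (nat_lit 4))
    (@En.n l15358 (nat_lit 965) (nat_lit 14) (nat_lit 12))
    (@En.n l10089 (nat_lit 3336) (nat_lit 12) (nat_lit 12))
    (@En.n l17 (nat_lit 2898) (nat_lit 15) (nat_lit 2))))
  (@Cl.mk (nat_lit 0x20005000d000c00050003000d0004000e00030002000e000b0002000e000b) (nat_lit 0x21004060050009) (nat_lit 16) Lb.e (@T16.mk En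
    (@En.n l766 (nat_lit 2904) (nat_lit 14) (nat_lit 11))
    (@En.n l1203 (nat_lit 2900) (nat_lit 1) (nat_lit 14))
    (@En.n l18 (nat_lit 2899) (nat_lit 2) (nat_lit 2))
    (@En.n l1326 (nat_lit 2900) (nat_lit 3) (nat_lit 11))
    (@En.i (nat_lit 12753) (nat_lit 1) (nat_lit 14))
    (@En.n l7 (nat_lit 2899) (nat_lit 5) (nat_lit 2))
    (@En.i (nat_lit 2901) (nat_lit 6) (nat_lit 3))
    (@En.i (nat_lit 13666) (nat_lit 0) (nat_lit 14))
    (@En.i (nat_lit 2902) (nat_lit 8) (nat_lit 4))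
    (@En.i (nat_lit 3362) (nat_lit 10) (nat_lit 13))
    (@En.n l1253 (nat_lit 2897) (nat_lit 10) (nat_lit 3))
    (@En.n l117 (nat_lit 4163) (nat_lit 0) (nat_lit 5))
    (@En.n l1722 (nat_lit 2896) (nat_lit 13) (nat_lit 12))
    (@En.n l766 (nat_lit 4749) (nat_lit 14) (nat_lit 13))
    (@En.n l1326 (nat_lit 4055) (nat_lit 13) (nat_lit 5))
    (@En.n l3 (nat_lit 2899) (nat_lit 15) (nat_lit 2))))
  (@Cl.mk (nat_lit 0x200050005000d000c00060003000d0004000e00030002000b000b000e000a) (nat_lit 0x41004060090c8) (nat_lit 16) Lb.e (@T16.mk En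
    (@En.n l575 (nat_lit 3035) (nat_lit 12) (nat_lit 10))
    (@En.n l4245 (nat_lit 4168) (nat_lit 13) (nat_lit 14))
    (@En.n l68 (nat_lit 4168) (nat_lit 14) (nat_lit 11))
    (@En.i (nat_lit 4171) (nat_lit 3) (nat_lit 11))
    (@En.n l17 (nat_lit 2900) (nat_lit 4) (nat_lit 2))
    (@En.i (nat_lit 2736) (nat_lit 5) (nat_lit 3))
    (@En.i (nat_lit 13661) (nat_lit 0) (nat_lit 14))
    (@En.n l7 (nat_lit 2903) (nat_lit 7) (nat_lit 4))
    (@En.n l4003 (nat_lit 2792) (nat_lit 9) (nat_lit 13))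
    (@En.n l7 (nat_lit 2734) (nat_lit 9) (nat_lit 3))
    (@En.i (nat_lit 4151) (nat_lit 5) (nat_lit 6))
    (@En.n l644 (nat_lit 2895) (nat_lit 12) (nat_lit 12))
    (@En.n l645 (nat_lit 7192) (nat_lit 13) (nat_lit 13))
    (@En.n l4252 (nat_lit 2899) (nat_lit 14) (nat_lit 5))
    (@En.i (nat_lit 3834) (nat_lit 13) (nat_lit 5))
    (@En.n l936 (nat_lit 2900) (nat_lit 15) (nat_lit 2))))
  (@Cl.mk (nat_lit 0x20005000d000b00050003000d000d000500030003000e000b0002000e000b) (nat_lit 0x31004500051019) (nat_lit 16) Lb.e (@T16.mk En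
    (@En.n l1325 (nat_lit 3048) (nat_lit 14) (nat_lit 11))
    (@En.n l1203 (nat_lit 2736) (nat_lit 1) (nat_lit 14))
    (@En.n l18 (nat_lit 2901) (nat_lit 2) (nat_lit 2))
    (@En.n l1326 (nat_lit 2736) (nat_lit 3) (nat_lit 11))
    (@En.i (nat_lit 12754) (nat_lit 5) (nat_lit 14))
    (@En.n l343 (nat_lit 3050) (nat_lit 5) (nat_lit 3))
    (@En.n l28 (nat_lit 2899) (nat_lit 6) (nat_lit 3))
    (@En.n l1327 (nat_lit 2966) (nat_lit 7) (nat_lit 5))
    (@En.n l77 (nat_lit 2899) (nat_lit 9) (nat_lit 13))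
    (@En.i (nat_lit 3360) (nat_lit 10) (nat_lit 13))
    (@En.n l536 (nat_lit 2735) (nat_lit 10) (nat_lit 3))
    (@En.n l1328 (nat_lit 4148) (nat_lit 8) (nat_lit 5))
    (@En.n l343 (nat_lit 2894) (nat_lit 13) (nat_lit 11))
    (@En.n l766 (nat_lit 4748) (nat_lit 14) (nat_lit 13))
    (@En.n l1203 (nat_lit 3844) (nat_lit 13) (nat_lit 5))
    (@En.n l3 (nat_lit 2901) (nat_lit 15) (nat_lit 2))))
  (@Cl.mk (nat_lit 0x20005000c000c000b000600040004000e00050002000e000b0002000e000a) (nat_lit 0x80200060040008) (nat_lit 16) Lb.e (@T16.mk En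
    (@En.n l766 (nat_lit 2907) (nat_lit 14) (nat_lit 10))
    (@En.n l9385 (nat_lit 2903) (nat_lit 1) (nat_lit 14))
    (@En.n l18 (nat_lit 2902) (nat_lit 2) (nat_lit 2))
    (@En.n l1782 (nat_lit 2903) (nat_lit 3) (nat_lit 11))
    (@En.i (nat_lit 5789) (nat_lit 1) (nat_lit 14))
    (@En.n l7 (nat_lit 2902) (nat_lit 5) (nat_lit 2))
    (@En.n l11074 (nat_lit 2969) (nat_lit 6) (nat_lit 5))
    (@En.n l134 (nat_lit 3201) (nat_lit 8) (nat_lit 14))
    (@En.i (nat_lit 2906) (nat_lit 8) (nat_lit 4))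
    (@En.n l1253 (nat_lit 2896) (nat_lit 9) (nat_lit 4))
    (@En.n l4938 (nat_lit 2104) (nat_lit 7) (nat_lit 6))
    (@En.n l55 (nat_lit 2901) (nat_lit 12) (nat_lit 11))
    (@En.n l11075 (nat_lit 2905) (nat_lit 13) (nat_lit 12))
    (@En.n l766 (nat_lit 5703) (nat_lit 14) (nat_lit 12))
    (@En.n l1782 (nat_lit 2649) (nat_lit 13) (nat_lit 5))
    (@En.n l3 (nat_lit 2902) (nat_lit 15) (nat_lit 2))))
  (@Cl.mk (nat_lit 0x200050005000c000c000b000700040004000e00050002000b000b000e0009) (nat_lit 0x90600060090c7) (nat_lit 16) Lb.e (@T16.mk En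
    (@En.n l17771 (nat_lit 2914) (nat_lit 12) (nat_lit 9))
    (@En.n l17772 (nat_lit 2988) (nat_lit 13) (nat_lit 14))
    (@En.n l17773 (nat_lit 2988) (nat_lit 14) (nat_lit 11))
    (@En.n l17774 (nat_lit 8073) (nat_lit 3) (nat_lit 11))
    (@En.n l17 (nat_lit 2903) (nat_lit 4) (nat_lit 2))
    (@En.n l17775 (nat_lit 2967) (nat_lit 5) (nat_lit 5))
    (@En.n l3786 (nat_lit 3200) (nat_lit 7) (nat_lit 14))
    (@En.n l3787 (nat_lit 2921) (nat_lit 7) (nat_lit 4))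
    (@En.i (nat_lit 2895) (nat_lit 8) (nat_lit 4))
    (@En.n l17776 (nat_lit 2100) (nat_lit 4) (nat_lit 7))
    (@En.n l2337 (nat_lit 2736) (nat_lit 11) (nat_lit 11))
    (@En.n l601 (nat_lit 2987) (nat_lit 12) (nat_lit 12))
    (@En.n l17777 (nat_lit 7443) (nat_lit 13) (nat_lit 12))
    (@En.n l17778 (nat_lit 2902) (nat_lit 14) (nat_lit 5))
    (@En.i (nat_lit 3707) (nat_lit 13) (nat_lit 5))
    (@En.n l936 (nat_lit 2903) (nat_lit 15) (nat_lit 2))))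
  (@Cl.mk (nat_lit 0x2000b000b0004000c000b000500050004000d0005000e00030002000e000c) (nat_lit 0x840710005070050) (nat_lit 16) Lb.e (@T16.mk En
    (@En.n l11355 (nat_lit 3035) (nat_lit 14) (nat_lit 12))
    (@En.i (nat_lit 12606) (nat_lit 1) (nat_lit 14))
    (@En.n l50 (nat_lit 2904) (nat_lit 2) (nat_lit 2))
    (@En.n l11356 (nat_lit 3048) (nat_lit 3) (nat_lit 3))
    (@En.n l8714 (nat_lit 13654) (nat_lit 0) (nat_lit 14))
    (@En.i (nat_lit 2907) (nat_lit 5) (nat_lit 5))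
    (@En.n l287 (nat_lit 2778) (nat_lit 7) (nat_lit 13))
    (@En.n l9938 (nat_lit 7339) (nat_lit 7) (nat_lit 4))
    (@En.n l5761 (nat_lit 2899) (nat_lit 11) (nat_lit 5))
    (@En.n l936 (nat_lit 3054) (nat_lit 9) (nat_lit 5))
    (@En.n l55 (nat_lit 2898) (nat_lit 11) (nat_lit 11))
    (@En.i (nat_lit 4693) (nat_lit 12) (nat_lit 12))
    (@En.n l7681 (nat_lit 3046) (nat_lit 9) (nat_lit 4))
    (@En.n l1867 (nat_lit 966) (nat_lit 5) (nat_lit 11))
    (@En.n l11357 (nat_lit 4463) (nat_lit 12) (nat_lit 11))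
    (@En.n l17 (nat_lit 2904) (nat_lit 15) (nat_lit 2))))
  (@Cl.mk (nat_lit 0x20005000c000a0005000e00040002000e00060002000e000b0002000e000b) (nat_lit 0xa10c0020060005) (nat_lit 16) Lb.e (@T16.mk En
    (@En.n l649 (nat_lit 3133) (nat_lit 14) (nat_lit 11))
    (@En.n l13546 (nat_lit 2987) (nat_lit 1) (nat_lit 14))
    (@En.n l17 (nat_lit 2905) (nat_lit 2) (nat_lit 2))
    (@En.n l24322 (nat_lit 2987) (nat_lit 3) (nat_lit 11))
    (@En.n l19875 (nat_lit 9216) (nat_lit 1) (nat_lit 14))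
    (@En.n l50 (nat_lit 2905) (nat_lit 5) (nat_lit 2))
    (@En.n l859 (nat_lit 3020) (nat_lit 6) (nat_lit 6))
    (@En.n l19875 (nat_lit 999) (nat_lit 8) (nat_lit 14))
    (@En.n l28 (nat_lit 2905) (nat_lit 8) (nat_lit 2))
    (@En.n l24323 (nat_lit 2902) (nat_lit 9) (nat_lit 4))
    (@En.n l19875 (nat_lit 2694) (nat_lit 11) (nat_lit 14))
    (@En.n l24324 (nat_lit 2103) (nat_lit 8) (nat_lit 5))
    (@En.i (nat_lit 1221) (nat_lit 13) (nat_lit 10))
    (@En.n l858 (nat_lit 12391) (nat_lit 14) (nat_lit 12))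
    (@En.n l24322 (nat_lit 3749) (nat_lit 13) (nat_lit 5))
    (@En.n l3 (nat_lit 2905) (nat_lit 15) (nat_lit 2))))
  (@Cl.mk (nat_lit 0x20005000e000c0002000c00070004000e00040002000e000b0002000e0009) (nat_lit 0x790000a0040004) (nat_lit 16) Lb.e (@T16.mk En
    (@En.n l3987 (nat_lit 2912) (nat_lit 14) (nat_lit 9))
    (@En.n l2409 (nat_lit 2921) (nat_lit 1) (nat_lit 14))
    (@En.n l18 (nat_lit 2906) (nat_lit 2) (nat_lit 2))
    (@En.n l3988 (nat_lit 2921) (nat_lit 3) (nat_lit 11))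
    (@En.i (nat_lit 5786) (nat_lit 1) (nat_lit 14))
    (@En.n l7 (nat_lit 2906) (nat_lit 5) (nat_lit 2))
    (@En.n l11 (nat_lit 4140) (nat_lit 6) (nat_lit 4))
    (@En.n l127 (nat_lit 3388) (nat_lit 8) (nat_lit 14))
    (@En.n l11 (nat_lit 2899) (nat_lit 8) (nat_lit 4))
    (@En.i (nat_lit 4868) (nat_lit 14) (nat_lit 7))
    (@En.i (nat_lit 3359) (nat_lit 11) (nat_lit 12))
    (@En.n l207 (nat_lit 2906) (nat_lit 11) (nat_lit 2))
    (@En.n l198 (nat_lit 2902) (nat_lit 13) (nat_lit 12))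
    (@En.n l713 (nat_lit 4904) (nat_lit 1) (nat_lit 14))
    (@En.n l3988 (nat_lit 4090) (nat_lit 13) (nat_lit 5))
    (@En.n l3 (nat_lit 2906) (nat_lit 15) (nat_lit 2))))
  (@Cl.mk (nat_lit 0x2000a000a0004000b000b000a0006000600050005000e00060002000e000c) (nat_lit 0x720702000070050) (nat_lit 16) Lb.e (@T16.mk En
    (@En.n l22966 (nat_lit 2914) (nat_lit 14) (nat_lit 12))
    (@En.i (nat_lit 5790) (nat_lit 1) (nat_lit 14))
    (@En.n l50 (nat_lit 2907) (nat_lit 2) (nat_lit 2))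
    (@En.n l22967 (nat_lit 2917) (nat_lit 3) (nat_lit 6))
    (@En.n l601 (nat_lit 3196) (nat_lit 1) (nat_lit 14))
    (@En.n l22968 (nat_lit 2912) (nat_lit 5) (nat_lit 5))
    (@En.n l22969 (nat_lit 7767) (nat_lit 6) (nat_lit 5))
    (@En.n l5761 (nat_lit 2902) (nat_lit 10) (nat_lit 6))
    (@En.n l22970 (nat_lit 8288) (nat_lit 8) (nat_lit 6))
    (@En.n l13540 (nat_lit 3048) (nat_lit 10) (nat_lit 10))
    (@En.n l22971 (nat_lit 3133) (nat_lit 11) (nat_lit 11))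
    (@En.i (nat_lit 5202) (nat_lit 12) (nat_lit 11))
    (@En.n l22972 (nat_lit 4470) (nat_lit 9) (nat_lit 4))
    (@En.n l15358 (nat_lit 2908) (nat_lit 6) (nat_lit 10))
    (@En.n l22969 (nat_lit 4466) (nat_lit 12) (nat_lit 10))
    (@En.n l17 (nat_lit 2907) (nat_lit 15) (nat_lit 2))))
  (@Cl.mk (nat_lit 0x200060006000e00070002000e000d0002000a0003000a000a0009000e0006) (nat_lit 0x1006701001160) (nat_lit 16) Lb.e (@T16.mk En
    (@En.n l4185 (nat_lit 2907) (nat_lit 8) (nat_lit 6))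
    (@En.n l1098 (nat_lit 2705) (nat_lit 10) (nat_lit 14))
    (@En.i (nat_lit 969) (nat_lit 2) (nat_lit 9))
    (@En.n l152 (nat_lit 1898) (nat_lit 12) (nat_lit 10))
    (@En.n l10020 (nat_lit 5199) (nat_lit 4) (nat_lit 10))
    (@En.i (nat_lit 1896) (nat_lit 5) (nat_lit 3))
    (@En.i (nat_lit 1693) (nat_lit 12) (nat_lit 10))
    (@En.n l7 (nat_lit 2908) (nat_lit 7) (nat_lit 2))
    (@En.n l601 (nat_lit 1896) (nat_lit 9) (nat_lit 13))
    (@En.n l287 (nat_lit 12373) (nat_lit 1) (nat_lit 14))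
    (@En.n l11 (nat_lit 2908) (nat_lit 10) (nat_lit 2))
    (@En.i (nat_lit 2919) (nat_lit 12) (nat_lit 7))
    (@En.n l1572 (nat_lit 2008) (nat_lit 13) (nat_lit 14))
    (@En.n l3556 (nat_lit 2910) (nat_lit 14) (nat_lit 6))
    (@En.n l8844 (nat_lit 2394) (nat_lit 6) (nat_lit 6))
    (@En.n l17 (nat_lit 2908) (nat_lit 15) (nat_lit 2))))
  (@Cl.mk (nat_lit 0x20006000e00060002000d000d000800030003000e000a0002000a000e0008) (nat_lit 0x80057100710356) (nat_lit 16) Lb.e (@T16.mk En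
    (@En.n l1097 (nat_lit 2913) (nat_lit 13) (nat_lit 8))
    (@En.n l8063 (nat_lit 1833) (nat_lit 1) (nat_lit 14))
    (@En.n l8064 (nat_lit 1823) (nat_lit 2) (nat_lit 10))
    (@En.n l7 (nat_lit 2909) (nat_lit 3) (nat_lit 2))
    (@En.n l8065 (nat_lit 1896) (nat_lit 4) (nat_lit 10))
    (@En.n l8063 (nat_lit 11366) (nat_lit 1) (nat_lit 14))
    (@En.n l8066 (nat_lit 2910) (nat_lit 6) (nat_lit 3))
    (@En.n l2765 (nat_lit 3426) (nat_lit 7) (nat_lit 3))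
    (@En.i (nat_lit 1698) (nat_lit 4) (nat_lit 8))
    (@En.n l2766 (nat_lit 3426) (nat_lit 10) (nat_lit 13))
    (@En.n l1096 (nat_lit 12382) (nat_lit 11) (nat_lit 13))
    (@En.n l17 (nat_lit 2909) (nat_lit 11) (nat_lit 2))
    (@En.n l8067 (nat_lit 2031) (nat_lit 13) (nat_lit 6))
    (@En.n l8068 (nat_lit 3381) (nat_lit 1) (nat_lit 14))
    (@En.i (nat_lit 3427) (nat_lit 2) (nat_lit 6))
    (@En.n l1098 (nat_lit 2909) (nat_lit 15) (nat_lit 2))))
  (@Cl.mk (nat_lit 0x20006000e00060002000e000d000200090003000e000a0002000a000e0007) (nat_lit 0x90056020710340) (nat_lit 16) Lb.e (@T16.mk En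
    (@En.n l3544 (nat_lit 2912) (nat_lit 7) (nat_lit 7))
    (@En.i (nat_lit 1836) (nat_lit 9) (nat_lit 14))
    (@En.n l1081 (nat_lit 2773) (nat_lit 2) (nat_lit 10))
    (@En.n l3 (nat_lit 2910) (nat_lit 3) (nat_lit 2))
    (@En.n l1082 (nat_lit 2908) (nat_lit 4) (nat_lit 10))
    (@En.i (nat_lit 4774) (nat_lit 1) (nat_lit 14))
    (@En.n l3037 (nat_lit 2909) (nat_lit 6) (nat_lit 3))
    (@En.i (nat_lit 1689) (nat_lit 12) (nat_lit 9))
    (@En.n l50 (nat_lit 2910) (nat_lit 8) (nat_lit 2))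
    (@En.n l3545 (nat_lit 2909) (nat_lit 10) (nat_lit 13))
    (@En.n l3546 (nat_lit 12376) (nat_lit 1) (nat_lit 14))
    (@En.n l28 (nat_lit 2910) (nat_lit 11) (nat_lit 2))
    (@En.i (nat_lit 2911) (nat_lit 13) (nat_lit 6))
    (@En.n l3547 (nat_lit 3393) (nat_lit 5) (nat_lit 14))
    (@En.n l3037 (nat_lit 3433) (nat_lit 5) (nat_lit 6))
    (@En.n l725 (nat_lit 2910) (nat_lit 15) (nat_lit 2))))
  (@Cl.mk (nat_lit 0x2000700060006000e000d000200080003000e00090002000a000a000e0008) (nat_lit 0x550206703496) (nat_lit 16) Lb.e (@T16.mk En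
    (@En.n l1079 (nat_lit 2916) (nat_lit 6) (nat_lit 8))
    (@En.n l1080 (nat_lit 1388) (nat_lit 8) (nat_lit 14))
    (@En.n l55 (nat_lit 2910) (nat_lit 2) (nat_lit 10))
    (@En.n l1081 (nat_lit 2932) (nat_lit 3) (nat_lit 10))
    (@En.n l3 (nat_lit 2911) (nat_lit 4) (nat_lit 2))
    (@En.n l1082 (nat_lit 2919) (nat_lit 5) (nat_lit 9))
    (@En.i (nat_lit 4778) (nat_lit 1) (nat_lit 14))
    (@En.n l1083 (nat_lit 2031) (nat_lit 7) (nat_lit 3))
    (@En.n l1084 (nat_lit 1684) (nat_lit 3) (nat_lit 8))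
    (@En.n l50 (nat_lit 2911) (nat_lit 9) (nat_lit 2))
    (@En.n l1085 (nat_lit 2031) (nat_lit 11) (nat_lit 13))
    (@En.n l1086 (nat_lit 5782) (nat_lit 12) (nat_lit 14))
    (@En.n l1087 (nat_lit 2029) (nat_lit 2) (nat_lit 6))
    (@En.n l1088 (nat_lit 3556) (nat_lit 14) (nat_lit 6))
    (@En.n l1089 (nat_lit 7385) (nat_lit 4) (nat_lit 7))
    (@En.n l725 (nat_lit 2911) (nat_lit 15) (nat_lit 2))))
noncomputable def a182 : T16 Cl := @T16.mk Cl
  (@Cl.mk (nat_lit 0x2000900090004000e000b0002000b000700070005000e00050002000e000c) (nat_lit 0x330880300070087) (nat_lit 16) Lb.e (@T16.mk En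
    (@En.n l68 (nat_lit 2913) (nat_lit 7) (nat_lit 12))
    (@En.n l9989 (nat_lit 5784) (nat_lit 1) (nat_lit 14))
    (@En.n l17 (nat_lit 2912) (nat_lit 2) (nat_lit 2))
    (@En.n l3490 (nat_lit 2916) (nat_lit 3) (nat_lit 5))
    (@En.i (nat_lit 3398) (nat_lit 1) (nat_lit 14))
    (@En.n l8210 (nat_lit 7779) (nat_lit 5) (nat_lit 5))
    (@En.n l9990 (nat_lit 2906) (nat_lit 9) (nat_lit 7))
    (@En.n l9991 (nat_lit 9208) (nat_lit 14) (nat_lit 7))
    (@En.n l9992 (nat_lit 2780) (nat_lit 9) (nat_lit 11))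
    (@En.n l7 (nat_lit 2912) (nat_lit 9) (nat_lit 2))
    (@En.n l9993 (nat_lit 2907) (nat_lit 11) (nat_lit 11))
    (@En.n l9994 (nat_lit 4776) (nat_lit 1) (nat_lit 14))
    (@En.n l9995 (nat_lit 4563) (nat_lit 2) (nat_lit 4))
    (@En.n l1099 (nat_lit 2910) (nat_lit 7) (nat_lit 9))
    (@En.n l8210 (nat_lit 4473) (nat_lit 12) (nat_lit 9))
    (@En.n l67 (nat_lit 2912) (nat_lit 15) (nat_lit 2))))
  (@Cl.mk (nat_lit 0x2000b000800080005000e00050002000c000c0008000800040004000e000b) (nat_lit 0x355070065220088) (nat_lit 16) Lb.e (@T16.mk En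
    (@En.n l17141 (nat_lit 2914) (nat_lit 8) (nat_lit 11))
    (@En.n l134 (nat_lit 11365) (nat_lit 1) (nat_lit 14))
    (@En.n l11 (nat_lit 2912) (nat_lit 12) (nat_lit 4))
    (@En.n l17142 (nat_lit 4561) (nat_lit 3) (nat_lit 4))
    (@En.i (nat_lit 2909) (nat_lit 8) (nat_lit 8))
    (@En.n l17143 (nat_lit 4560) (nat_lit 5) (nat_lit 8))
    (@En.n l17144 (nat_lit 2920) (nat_lit 7) (nat_lit 12))
    (@En.n l17145 (nat_lit 11568) (nat_lit 8) (nat_lit 12))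
    (@En.n l17 (nat_lit 2913) (nat_lit 8) (nat_lit 2))
    (@En.n l17146 (nat_lit 2915) (nat_lit 9) (nat_lit 5))
    (@En.i (nat_lit 3389) (nat_lit 1) (nat_lit 14))
    (@En.n l17147 (nat_lit 7777) (nat_lit 2) (nat_lit 5))
    (@En.n l4935 (nat_lit 2921) (nat_lit 8) (nat_lit 8))
    (@En.n l17148 (nat_lit 8557) (nat_lit 14) (nat_lit 8))
    (@En.n l17149 (nat_lit 2801) (nat_lit 6) (nat_lit 11))
    (@En.n l7 (nat_lit 2913) (nat_lit 15) (nat_lit 2))))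
  (@Cl.mk (nat_lit 0x2000c000c0009000900040004000b000b000a0007000700050005000e0006) (nat_lit 0xa06300702000070) (nat_lit 16) Lb.e (@T16.mk En
    (@En.n l146 (nat_lit 2918) (nat_lit 5) (nat_lit 6))
    (@En.n l31078 (nat_lit 3192) (nat_lit 1) (nat_lit 14))
    (@En.n l31079 (nat_lit 2913) (nat_lit 11) (nat_lit 5))
    (@En.n l6564 (nat_lit 7766) (nat_lit 3) (nat_lit 5))
    (@En.n l31080 (nat_lit 2903) (nat_lit 9) (nat_lit 7))
    (@En.n l6975 (nat_lit 8286) (nat_lit 5) (nat_lit 7))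
    (@En.n l21047 (nat_lit 3034) (nat_lit 6) (nat_lit 10))
    (@En.n l31081 (nat_lit 2985) (nat_lit 8) (nat_lit 11))
    (@En.n l31082 (nat_lit 7438) (nat_lit 9) (nat_lit 11))
    (@En.n l31083 (nat_lit 2907) (nat_lit 12) (nat_lit 4))
    (@En.n l31084 (nat_lit 4471) (nat_lit 10) (nat_lit 4))
    (@En.n l31085 (nat_lit 1896) (nat_lit 7) (nat_lit 9))
    (@En.n l146 (nat_lit 4468) (nat_lit 13) (nat_lit 9))
    (@En.n l31086 (nat_lit 2979) (nat_lit 4) (nat_lit 12))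
    (@En.n l31087 (nat_lit 11544) (nat_lit 3) (nat_lit 12))
    (@En.n l17 (nat_lit 2914) (nat_lit 15) (nat_lit 2))))
  (@Cl.mk (nat_lit 0x2000b000b00090009000600050005000c000c0007000700040004000e000a) (nat_lit 0x345600056000077) (nat_lit 16) Lb.e (@T16.mk En
    (@En.n l8055 (nat_lit 2918) (nat_lit 13) (nat_lit 10))
    (@En.n l8056 (nat_lit 11338) (nat_lit 1) (nat_lit 14))
    (@En.n l8057 (nat_lit 2916) (nat_lit 12) (nat_lit 4))
    (@En.n l1964 (nat_lit 4566) (nat_lit 3) (nat_lit 4))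
    (@En.n l8058 (nat_lit 2031) (nat_lit 9) (nat_lit 7))
    (@En.n l8059 (nat_lit 4567) (nat_lit 5) (nat_lit 7))
    (@En.n l55 (nat_lit 2039) (nat_lit 7) (nat_lit 12))
    (@En.n l764 (nat_lit 7252) (nat_lit 8) (nat_lit 12))
    (@En.n l61 (nat_lit 2032) (nat_lit 11) (nat_lit 5))
    (@En.n l1545 (nat_lit 3657) (nat_lit 9) (nat_lit 5))
    (@En.n l7864 (nat_lit 8319) (nat_lit 11) (nat_lit 6))
    (@En.n l8060 (nat_lit 2970) (nat_lit 7) (nat_lit 9))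
    (@En.n l1968 (nat_lit 7523) (nat_lit 13) (nat_lit 9))
    (@En.n l8061 (nat_lit 2913) (nat_lit 14) (nat_lit 11))
    (@En.n l8062 (nat_lit 2527) (nat_lit 11) (nat_lit 11))
    (@En.n l50 (nat_lit 2915) (nat_lit 15) (nat_lit 2))))
  (@Cl.mk (nat_lit 0x2000800080004000e000a0002000b000b00080008000600050005000e000c) (nat_lit 0x330b00045600026) (nat_lit 16) Lb.e (@T16.mk En
    (@En.n l3537 (nat_lit 2915) (nat_lit 7) (nat_lit 12))
    (@En.n l2776 (nat_lit 5779) (nat_lit 1) (nat_lit 14))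
    (@En.n l2172 (nat_lit 4143) (nat_lit 2) (nat_lit 5))
    (@En.n l3538 (nat_lit 3620) (nat_lit 3) (nat_lit 5))
    (@En.i (nat_lit 8635) (nat_lit 4) (nat_lit 6))
    (@En.n l3539 (nat_lit 4140) (nat_lit 8) (nat_lit 8))
    (@En.n l3538 (nat_lit 7644) (nat_lit 6) (nat_lit 8))
    (@En.n l3108 (nat_lit 2912) (nat_lit 8) (nat_lit 11))
    (@En.n l3540 (nat_lit 3352) (nat_lit 9) (nat_lit 11))
    (@En.n l28 (nat_lit 2916) (nat_lit 9) (nat_lit 2))
    (@En.i (nat_lit 2917) (nat_lit 11) (nat_lit 10))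
    (@En.n l3541 (nat_lit 4891) (nat_lit 1) (nat_lit 14))
    (@En.n l3542 (nat_lit 4565) (nat_lit 2) (nat_lit 4))
    (@En.n l3543 (nat_lit 2911) (nat_lit 8) (nat_lit 8))
    (@En.i (nat_lit 3354) (nat_lit 4) (nat_lit 8))
    (@En.n l3 (nat_lit 2916) (nat_lit 15) (nat_lit 2))))
  (@Cl.mk (nat_lit 0x2000900090004000a000a000a000a000700070006000600060006000e000c) (nat_lit 0x640801300000037) (nat_lit 16) Lb.e (@T16.mk En
    (@En.n l9996 (nat_lit 2918) (nat_lit 3) (nat_lit 12))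
    (@En.n l7924 (nat_lit 5730) (nat_lit 1) (nat_lit 14))
    (@En.n l2172 (nat_lit 3664) (nat_lit 2) (nat_lit 6))
    (@En.n l77 (nat_lit 3221) (nat_lit 3) (nat_lit 6))
    (@En.n l55 (nat_lit 2916) (nat_lit 4) (nat_lit 6))
    (@En.i (nat_lit 2312) (nat_lit 5) (nat_lit 6))
    (@En.n l9997 (nat_lit 2969) (nat_lit 9) (nat_lit 7))
    (@En.n l742 (nat_lit 7645) (nat_lit 7) (nat_lit 7))
    (@En.n l9998 (nat_lit 2907) (nat_lit 9) (nat_lit 10))
    (@En.n l9999 (nat_lit 2319) (nat_lit 6) (nat_lit 10))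
    (@En.n l7925 (nat_lit 3132) (nat_lit 6) (nat_lit 10))
    (@En.n l10000 (nat_lit 5701) (nat_lit 12) (nat_lit 10))
    (@En.n l5807 (nat_lit 3158) (nat_lit 13) (nat_lit 4))
    (@En.n l10001 (nat_lit 2919) (nat_lit 7) (nat_lit 9))
    (@En.i (nat_lit 3157) (nat_lit 1) (nat_lit 9))
    (@En.n l3 (nat_lit 2917) (nat_lit 15) (nat_lit 2))))
  (@Cl.mk (nat_lit 0x40004000a000a000a000a000800080006000600060006000c000c00080008) (nat_lit 0x60234500006753) (nat_lit 16) Lb.e (@T16.mk En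
    (@En.n l2819 (nat_lit 1897) (nat_lit 8) (nat_lit 8))
    (@En.i (nat_lit 3149) (nat_lit 1) (nat_lit 8))
    (@En.n l19338 (nat_lit 2978) (nat_lit 4) (nat_lit 12))
    (@En.n l3107 (nat_lit 5608) (nat_lit 3) (nat_lit 12))
    (@En.n l19339 (nat_lit 2037) (nat_lit 10) (nat_lit 6))
    (@En.n l19340 (nat_lit 3220) (nat_lit 10) (nat_lit 6))
    (@En.n l19341 (nat_lit 2915) (nat_lit 10) (nat_lit 6))
    (@En.n l19165 (nat_lit 2316) (nat_lit 7) (nat_lit 6))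
    (@En.n l19342 (nat_lit 2967) (nat_lit 8) (nat_lit 8))
    (@En.n l644 (nat_lit 2412) (nat_lit 8) (nat_lit 8))
    (@En.n l19343 (nat_lit 2914) (nat_lit 6) (nat_lit 10))
    (@En.n l19344 (nat_lit 2925) (nat_lit 6) (nat_lit 10))
    (@En.n l19345 (nat_lit 2982) (nat_lit 6) (nat_lit 10))
    (@En.n l19346 (nat_lit 7710) (nat_lit 14) (nat_lit 10))
    (@En.n l19347 (nat_lit 2917) (nat_lit 12) (nat_lit 4))
    (@En.n l19348 (nat_lit 3148) (nat_lit 0) (nat_lit 4))))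
  (@Cl.mk (nat_lit 0x20007000700070007000e000d0002000900030009000900090009000e0007) (nat_lit 0x56030612270) (nat_lit 16) Lb.e (@T16.mk En
    (@En.n l3553 (nat_lit 2917) (nat_lit 7) (nat_lit 7))
    (@En.n l524 (nat_lit 1239) (nat_lit 9) (nat_lit 14))
    (@En.n l575 (nat_lit 2908) (nat_lit 2) (nat_lit 9))
    (@En.i (nat_lit 2922) (nat_lit 3) (nat_lit 9))
    (@En.n l152 (nat_lit 1899) (nat_lit 7) (nat_lit 9))
    (@En.i (nat_lit 5710) (nat_lit 5) (nat_lit 9))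
    (@En.i (nat_lit 1897) (nat_lit 6) (nat_lit 3))
    (@En.i (nat_lit 1577) (nat_lit 0) (nat_lit 9))
    (@En.n l7 (nat_lit 2919) (nat_lit 8) (nat_lit 2))
    (@En.n l601 (nat_lit 1897) (nat_lit 10) (nat_lit 13))
    (@En.n l532 (nat_lit 5792) (nat_lit 11) (nat_lit 14))
    (@En.n l3554 (nat_lit 2036) (nat_lit 2) (nat_lit 7))
    (@En.n l3555 (nat_lit 3217) (nat_lit 3) (nat_lit 7))
    (@En.n l3556 (nat_lit 2911) (nat_lit 14) (nat_lit 7))
    (@En.n l3557 (nat_lit 2151) (nat_lit 5) (nat_lit 7))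
    (@En.n l17 (nat_lit 2919) (nat_lit 15) (nat_lit 2))))
  (@Cl.mk (nat_lit 0x2000b000900090005000e00050002000c00070007000e00040002000e000b) (nat_lit 0x955070040080037) (nat_lit 16) Lb.e (@T16.mk En
    (@En.n l68 (nat_lit 2979) (nat_lit 14) (nat_lit 11))
    (@En.n l32709 (nat_lit 11341) (nat_lit 1) (nat_lit 14))
    (@En.n l17 (nat_lit 2920) (nat_lit 2) (nat_lit 2))
    (@En.n l21922 (nat_lit 2913) (nat_lit 3) (nat_lit 4))
    (@En.i (nat_lit 4091) (nat_lit 1) (nat_lit 14))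
    (@En.n l24337 (nat_lit 3426) (nat_lit 9) (nat_lit 7))
    (@En.n l9381 (nat_lit 1977) (nat_lit 14) (nat_lit 7))
    (@En.n l32710 (nat_lit 11566) (nat_lit 8) (nat_lit 12))
    (@En.n l7 (nat_lit 2920) (nat_lit 8) (nat_lit 2))
    (@En.n l14220 (nat_lit 2039) (nat_lit 9) (nat_lit 5))
    (@En.n l3865 (nat_lit 3412) (nat_lit 1) (nat_lit 14))
    (@En.i (nat_lit 8312) (nat_lit 2) (nat_lit 5))
    (@En.n l16504 (nat_lit 4169) (nat_lit 3) (nat_lit 9))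
    (@En.n l9381 (nat_lit 8956) (nat_lit 14) (nat_lit 9))
    (@En.n l11695 (nat_lit 2786) (nat_lit 12) (nat_lit 11))
    (@En.n l67 (nat_lit 2920) (nat_lit 15) (nat_lit 2))))
  (@Cl.mk (nat_lit 0x200050005000e000c0002000c00080004000e00040002000b000b000e0008) (nat_lit 0x4a074060090c3) (nat_lit 16) Lb.e (@T16.mk En
    (@En.n l7195 (nat_lit 2913) (nat_lit 5) (nat_lit 8))
    (@En.n l7196 (nat_lit 4169) (nat_lit 13) (nat_lit 14))
    (@En.n l7197 (nat_lit 4169) (nat_lit 14) (nat_lit 11))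
    (@En.n l7198 (nat_lit 11567) (nat_lit 3) (nat_lit 11))
    (@En.n l17 (nat_lit 2921) (nat_lit 4) (nat_lit 2))
    (@En.n l7199 (nat_lit 2970) (nat_lit 5) (nat_lit 4))
    (@En.n l7200 (nat_lit 3376) (nat_lit 7) (nat_lit 14))
    (@En.i (nat_lit 2900) (nat_lit 7) (nat_lit 4))
    (@En.n l3698 (nat_lit 2105) (nat_lit 14) (nat_lit 8))
    (@En.n l7201 (nat_lit 2794) (nat_lit 10) (nat_lit 12))
    (@En.n l7 (nat_lit 2921) (nat_lit 10) (nat_lit 2))
    (@En.n l644 (nat_lit 2903) (nat_lit 12) (nat_lit 12))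
    (@En.n l645 (nat_lit 11367) (nat_lit 13) (nat_lit 14))
    (@En.n l7202 (nat_lit 2906) (nat_lit 14) (nat_lit 5))
    (@En.i (nat_lit 4086) (nat_lit 13) (nat_lit 5))
    (@En.n l936 (nat_lit 2921) (nat_lit 15) (nat_lit 2))))
  (@Cl.mk (nat_lit 0x20006000e000700020008000e000d0002000a0003000a00090008000e0006) (nat_lit 0xc0066703001160) (nat_lit 16) Lb.e (@T16.mk En
    (@En.i (nat_lit 2319) (nat_lit 4) (nat_lit 6))
    (@En.n l7966 (nat_lit 1284) (nat_lit 6) (nat_lit 14))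
    (@En.i (nat_lit 1597) (nat_lit 2) (nat_lit 8))
    (@En.i (nat_lit 1203) (nat_lit 12) (nat_lit 9))
    (@En.i (nat_lit 5712) (nat_lit 4) (nat_lit 10))
    (@En.i (nat_lit 2923) (nat_lit 5) (nat_lit 3))
    (@En.i (nat_lit 1573) (nat_lit 11) (nat_lit 10))
    (@En.n l7 (nat_lit 2922) (nat_lit 7) (nat_lit 2))
    (@En.n l601 (nat_lit 2923) (nat_lit 9) (nat_lit 13))
    (@En.n l4804 (nat_lit 5794) (nat_lit 10) (nat_lit 14))
    (@En.n l476 (nat_lit 2156) (nat_lit 11) (nat_lit 8))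
    (@En.n l67 (nat_lit 2922) (nat_lit 11) (nat_lit 2))
    (@En.n l477 (nat_lit 2919) (nat_lit 13) (nat_lit 7))
    (@En.n l1596 (nat_lit 2931) (nat_lit 1) (nat_lit 14))
    (@En.n l10025 (nat_lit 2308) (nat_lit 2) (nat_lit 6))
    (@En.n l17 (nat_lit 2922) (nat_lit 15) (nat_lit 2))))
  (@Cl.mk (nat_lit 0x20006000e000700020008000d000d000900030003000a00090008000e0007) (nat_lit 0xc0056820001140) (nat_lit 16) Lb.e (@T16.mk En
    (@En.n l4172 (nat_lit 2925) (nat_lit 4) (nat_lit 7))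
    (@En.n l7966 (nat_lit 1240) (nat_lit 6) (nat_lit 14))
    (@En.i (nat_lit 974) (nat_lit 2) (nat_lit 8))
    (@En.i (nat_lit 1205) (nat_lit 3) (nat_lit 9))
    (@En.n l7967 (nat_lit 7700) (nat_lit 4) (nat_lit 10))
    (@En.n l50 (nat_lit 2922) (nat_lit 5) (nat_lit 3))
    (@En.n l2694 (nat_lit 2924) (nat_lit 6) (nat_lit 3))
    (@En.i (nat_lit 1568) (nat_lit 12) (nat_lit 9))
    (@En.n l19370 (nat_lit 2924) (nat_lit 9) (nat_lit 13))
    (@En.n l4804 (nat_lit 5795) (nat_lit 10) (nat_lit 13))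
    (@En.n l476 (nat_lit 1800) (nat_lit 11) (nat_lit 8))
    (@En.n l67 (nat_lit 2923) (nat_lit 11) (nat_lit 2))
    (@En.n l477 (nat_lit 1897) (nat_lit 13) (nat_lit 7))
    (@En.n l1596 (nat_lit 2927) (nat_lit 1) (nat_lit 14))
    (@En.n l10025 (nat_lit 2284) (nat_lit 2) (nat_lit 6))
    (@En.n l17 (nat_lit 2923) (nat_lit 15) (nat_lit 2))))
  (@Cl.mk (nat_lit 0x20006000e000700020008000d0008000e00030002000a00090008000e0008) (nat_lit 0x90057180001144) (nat_lit 16) Lb.e (@T16.mk En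
    (@En.i (nat_lit 2926) (nat_lit 4) (nat_lit 8))
    (@En.i (nat_lit 1888) (nat_lit 6) (nat_lit 14))
    (@En.n l872 (nat_lit 1596) (nat_lit 2) (nat_lit 8))
    (@En.n l7716 (nat_lit 1207) (nat_lit 14) (nat_lit 9))
    (@En.n l11173 (nat_lit 7699) (nat_lit 4) (nat_lit 10))
    (@En.n l28 (nat_lit 2924) (nat_lit 5) (nat_lit 2))
    (@En.n l19638 (nat_lit 2923) (nat_lit 6) (nat_lit 3))
    (@En.n l7368 (nat_lit 12947) (nat_lit 0) (nat_lit 14))
    (@En.n l7716 (nat_lit 1574) (nat_lit 2) (nat_lit 8))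
    (@En.n l7368 (nat_lit 5797) (nat_lit 10) (nat_lit 13))
    (@En.n l19639 (nat_lit 1799) (nat_lit 11) (nat_lit 8))
    (@En.n l17 (nat_lit 2924) (nat_lit 11) (nat_lit 2))
    (@En.n l19640 (nat_lit 1894) (nat_lit 13) (nat_lit 7))
    (@En.n l19641 (nat_lit 2929) (nat_lit 8) (nat_lit 14))
    (@En.n l19642 (nat_lit 2283) (nat_lit 2) (nat_lit 6))
    (@En.n l3 (nat_lit 2924) (nat_lit 15) (nat_lit 2))))
  (@Cl.mk (nat_lit 0x20007000c000c0009000900040004000b000a0009000700070005000e0006) (nat_lit 0x786300811000c0) (nat_lit 16) Lb.e (@T16.mk En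
    (@En.n l21728 (nat_lit 2918) (nat_lit 6) (nat_lit 6))
    (@En.n l21729 (nat_lit 2934) (nat_lit 1) (nat_lit 14))
    (@En.n l7010 (nat_lit 2311) (nat_lit 2) (nat_lit 5))
    (@En.n l21730 (nat_lit 2964) (nat_lit 9) (nat_lit 7))
    (@En.n l7012 (nat_lit 6398) (nat_lit 4) (nat_lit 7))
    (@En.n l3449 (nat_lit 1598) (nat_lit 5) (nat_lit 9))
    (@En.i (nat_lit 1211) (nat_lit 6) (nat_lit 10))
    (@En.n l21731 (nat_lit 7703) (nat_lit 8) (nat_lit 11))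
    (@En.n l77 (nat_lit 2319) (nat_lit 8) (nat_lit 4))
    (@En.n l2321 (nat_lit 3165) (nat_lit 9) (nat_lit 4))
    (@En.n l5653 (nat_lit 2923) (nat_lit 7) (nat_lit 9))
    (@En.n l21728 (nat_lit 3162) (nat_lit 12) (nat_lit 9))
    (@En.n l19008 (nat_lit 2926) (nat_lit 13) (nat_lit 12))
    (@En.n l21732 (nat_lit 5602) (nat_lit 14) (nat_lit 12))
    (@En.n l21733 (nat_lit 2164) (nat_lit 4) (nat_lit 7))
    (@En.n l67 (nat_lit 2925) (nat_lit 15) (nat_lit 2))))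
  (@Cl.mk (nat_lit 0x20007000c00080008000e00040002000b000a0009000800080005000e0006) (nat_lit 0x752a00812340c0) (nat_lit 16) Lb.e (@T16.mk En
    (@En.n l1262 (nat_lit 2978) (nat_lit 7) (nat_lit 6))
    (@En.n l5 (nat_lit 2935) (nat_lit 1) (nat_lit 14))
    (@En.n l13323 (nat_lit 6886) (nat_lit 2) (nat_lit 5))
    (@En.n l17209 (nat_lit 2965) (nat_lit 3) (nat_lit 8))
    (@En.n l23142 (nat_lit 6422) (nat_lit 12) (nat_lit 8))
    (@En.n l1262 (nat_lit 3038) (nat_lit 5) (nat_lit 9))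
    (@En.n l217 (nat_lit 1213) (nat_lit 14) (nat_lit 10))
    (@En.n l7865 (nat_lit 7701) (nat_lit 8) (nat_lit 11))
    (@En.n l28 (nat_lit 2926) (nat_lit 8) (nat_lit 2))
    (@En.n l14269 (nat_lit 2925) (nat_lit 9) (nat_lit 4))
    (@En.n l1262 (nat_lit 3272) (nat_lit 11) (nat_lit 14))
    (@En.n l152 (nat_lit 2924) (nat_lit 8) (nat_lit 8))
    (@En.n l2401 (nat_lit 1903) (nat_lit 13) (nat_lit 8))
    (@En.n l17208 (nat_lit 5601) (nat_lit 14) (nat_lit 12))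
    (@En.n l19639 (nat_lit 2167) (nat_lit 5) (nat_lit 7))
    (@En.n l17 (nat_lit 2926) (nat_lit 15) (nat_lit 2))))
  (@Cl.mk (nat_lit 0x200090008000d000d0009000300030007000a0008000e00070002000e0006) (nat_lit 0x5568200012700b0) (nat_lit 16) Lb.e (@T16.mk En
    (@En.n l97 (nat_lit 2928) (nat_lit 14) (nat_lit 6))
    (@En.n l9969 (nat_lit 3530) (nat_lit 1) (nat_lit 14))
    (@En.n l17 (nat_lit 2927) (nat_lit 2) (nat_lit 2))
    (@En.i (nat_lit 2934) (nat_lit 3) (nat_lit 7))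
    (@En.n l4660 (nat_lit 1236) (nat_lit 5) (nat_lit 14))
    (@En.i (nat_lit 2712) (nat_lit 5) (nat_lit 8))
    (@En.n l10024 (nat_lit 1202) (nat_lit 8) (nat_lit 10))
    (@En.n l8604 (nat_lit 6057) (nat_lit 7) (nat_lit 7))
    (@En.n l50 (nat_lit 2931) (nat_lit 8) (nat_lit 3))
    (@En.n l10262 (nat_lit 2929) (nat_lit 0) (nat_lit 3))
    (@En.i (nat_lit 1704) (nat_lit 0) (nat_lit 9))
    (@En.n l12221 (nat_lit 2929) (nat_lit 3) (nat_lit 13))
    (@En.n l5588 (nat_lit 5369) (nat_lit 13) (nat_lit 13))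
    (@En.n l1100 (nat_lit 2048) (nat_lit 14) (nat_lit 8))
    (@En.n l1690 (nat_lit 2928) (nat_lit 12) (nat_lit 9))
    (@En.n l67 (nat_lit 2927) (nat_lit 15) (nat_lit 2))))
noncomputable def a183 : T16 Cl := @T16.mk Cl
  (@Cl.mk (nat_lit 0x20006000600090007000d000d0008000300030007000a000a0009000e0008) (nat_lit 0x4048200012182) (nat_lit 16) Lb.e (@T16.mk En
    (@En.n l2947 (nat_lit 2527) (nat_lit 9) (nat_lit 8))
    (@En.n l3548 (nat_lit 1229) (nat_lit 1) (nat_lit 14))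
    (@En.n l575 (nat_lit 1818) (nat_lit 2) (nat_lit 9))
    (@En.n l3 (nat_lit 2927) (nat_lit 6) (nat_lit 10))
    (@En.n l3549 (nat_lit 2923) (nat_lit 4) (nat_lit 10))
    (@En.i (nat_lit 6053) (nat_lit 5) (nat_lit 7))
    (@En.n l50 (nat_lit 2932) (nat_lit 6) (nat_lit 3))
    (@En.n l8069 (nat_lit 2930) (nat_lit 7) (nat_lit 3))
    (@En.i (nat_lit 1588) (nat_lit 0) (nat_lit 8))
    (@En.n l8070 (nat_lit 2930) (nat_lit 10) (nat_lit 13))
    (@En.n l8071 (nat_lit 5366) (nat_lit 11) (nat_lit 13))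
    (@En.n l2953 (nat_lit 2040) (nat_lit 12) (nat_lit 7))
    (@En.n l8072 (nat_lit 2933) (nat_lit 13) (nat_lit 9))
    (@En.n l8073 (nat_lit 2933) (nat_lit 14) (nat_lit 6))
    (@En.n l2947 (nat_lit 2941) (nat_lit 6) (nat_lit 6))
    (@En.n l17 (nat_lit 2928) (nat_lit 15) (nat_lit 2))))
  (@Cl.mk (nat_lit 0x20007000a0008000e00080002000e0006000200090008000d0008000e0003) (nat_lit 0x11540800557190) (nat_lit 16) Lb.e (@T16.mk En
    (@En.n l8104 (nat_lit 2927) (nat_lit 9) (nat_lit 3))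
    (@En.n l3858 (nat_lit 12937) (nat_lit 0) (nat_lit 14))
    (@En.n l12741 (nat_lit 1732) (nat_lit 2) (nat_lit 8))
    (@En.n l3858 (nat_lit 5368) (nat_lit 13) (nat_lit 13))
    (@En.n l644 (nat_lit 2046) (nat_lit 14) (nat_lit 8))
    (@En.n l617 (nat_lit 2930) (nat_lit 12) (nat_lit 9))
    (@En.n l17 (nat_lit 2929) (nat_lit 6) (nat_lit 2))
    (@En.i (nat_lit 2930) (nat_lit 14) (nat_lit 6))
    (@En.n l1531 (nat_lit 3537) (nat_lit 1) (nat_lit 14))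
    (@En.n l3 (nat_lit 2929) (nat_lit 9) (nat_lit 2))
    (@En.n l18574 (nat_lit 2935) (nat_lit 3) (nat_lit 8))
    (@En.n l21830 (nat_lit 1889) (nat_lit 12) (nat_lit 14))
    (@En.n l11857 (nat_lit 2693) (nat_lit 5) (nat_lit 8))
    (@En.n l3858 (nat_lit 1206) (nat_lit 8) (nat_lit 10))
    (@En.n l8825 (nat_lit 6056) (nat_lit 7) (nat_lit 7))
    (@En.n l28 (nat_lit 2929) (nat_lit 15) (nat_lit 2))))
  (@Cl.mk (nat_lit 0x20006000600090007000d0007000e000300020007000a000a0009000e0009) (nat_lit 0x4070800012165) (nat_lit 16) Lb.e (@T16.mk En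
    (@En.n l18572 (nat_lit 2524) (nat_lit 10) (nat_lit 9))
    (@En.n l18 (nat_lit 1234) (nat_lit 11) (nat_lit 14))
    (@En.n l18573 (nat_lit 1819) (nat_lit 2) (nat_lit 9))
    (@En.n l61 (nat_lit 2929) (nat_lit 13) (nat_lit 10))
    (@En.n l18574 (nat_lit 2924) (nat_lit 4) (nat_lit 10))
    (@En.n l18575 (nat_lit 6052) (nat_lit 5) (nat_lit 7))
    (@En.n l28 (nat_lit 2930) (nat_lit 6) (nat_lit 2))
    (@En.n l2768 (nat_lit 2928) (nat_lit 7) (nat_lit 3))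
    (@En.n l892 (nat_lit 12934) (nat_lit 0) (nat_lit 14))
    (@En.n l10346 (nat_lit 1589) (nat_lit 2) (nat_lit 7))
    (@En.n l18573 (nat_lit 5367) (nat_lit 11) (nat_lit 13))
    (@En.n l2171 (nat_lit 2041) (nat_lit 12) (nat_lit 7))
    (@En.n l5496 (nat_lit 2936) (nat_lit 13) (nat_lit 9))
    (@En.n l5337 (nat_lit 2936) (nat_lit 14) (nat_lit 6))
    (@En.n l6081 (nat_lit 2940) (nat_lit 7) (nat_lit 6))
    (@En.n l3 (nat_lit 2930) (nat_lit 15) (nat_lit 2))))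
  (@Cl.mk (nat_lit 0x200090008000e000d0002000a00030007000a0008000e00060002000e0006) (nat_lit 0x5667030012700b0) (nat_lit 16) Lb.e (@T16.mk En
    (@En.n l97 (nat_lit 2932) (nat_lit 14) (nat_lit 6))
    (@En.n l4660 (nat_lit 7696) (nat_lit 1) (nat_lit 14))
    (@En.n l17 (nat_lit 2931) (nat_lit 2) (nat_lit 2))
    (@En.i (nat_lit 3353) (nat_lit 3) (nat_lit 6))
    (@En.n l4660 (nat_lit 1285) (nat_lit 5) (nat_lit 14))
    (@En.i (nat_lit 2713) (nat_lit 5) (nat_lit 8))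
    (@En.n l10024 (nat_lit 1204) (nat_lit 8) (nat_lit 10))
    (@En.i (nat_lit 3113) (nat_lit 7) (nat_lit 7))
    (@En.i (nat_lit 2927) (nat_lit 8) (nat_lit 3))
    (@En.i (nat_lit 1707) (nat_lit 0) (nat_lit 10))
    (@En.n l7 (nat_lit 2931) (nat_lit 10) (nat_lit 2))
    (@En.n l601 (nat_lit 2927) (nat_lit 12) (nat_lit 13))
    (@En.n l5588 (nat_lit 5760) (nat_lit 13) (nat_lit 14))
    (@En.n l2764 (nat_lit 2049) (nat_lit 14) (nat_lit 8))
    (@En.n l1690 (nat_lit 2932) (nat_lit 12) (nat_lit 9))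
    (@En.n l67 (nat_lit 2931) (nat_lit 15) (nat_lit 2))))
  (@Cl.mk (nat_lit 0x20006000600090007000e000d0002000900030007000a000a0009000e0007) (nat_lit 0x4055030012280) (nat_lit 16) Lb.e (@T16.mk En
    (@En.n l2947 (nat_lit 3352) (nat_lit 7) (nat_lit 7))
    (@En.n l3548 (nat_lit 1235) (nat_lit 9) (nat_lit 14))
    (@En.n l575 (nat_lit 2771) (nat_lit 2) (nat_lit 9))
    (@En.n l3 (nat_lit 2931) (nat_lit 6) (nat_lit 10))
    (@En.n l3549 (nat_lit 2922) (nat_lit 4) (nat_lit 10))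
    (@En.i (nat_lit 3106) (nat_lit 5) (nat_lit 7))
    (@En.i (nat_lit 2928) (nat_lit 6) (nat_lit 3))
    (@En.i (nat_lit 1706) (nat_lit 0) (nat_lit 9))
    (@En.n l7 (nat_lit 2932) (nat_lit 8) (nat_lit 2))
    (@En.n l601 (nat_lit 2928) (nat_lit 10) (nat_lit 13))
    (@En.n l3550 (nat_lit 5765) (nat_lit 11) (nat_lit 14))
    (@En.i (nat_lit 2152) (nat_lit 12) (nat_lit 7))
    (@En.n l3551 (nat_lit 2937) (nat_lit 13) (nat_lit 9))
    (@En.n l3552 (nat_lit 2937) (nat_lit 14) (nat_lit 6))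
    (@En.n l2947 (nat_lit 2948) (nat_lit 5) (nat_lit 6))
    (@En.n l17 (nat_lit 2932) (nat_lit 15) (nat_lit 2))))
  (@Cl.mk (nat_lit 0x2000600090006000d000d0007000300030007000e000a0002000a000e0009) (nat_lit 0x30370000420192) (nat_lit 16) Lb.e (@T16.mk En
    (@En.n l626 (nat_lit 2526) (nat_lit 13) (nat_lit 9))
    (@En.n l5789 (nat_lit 1232) (nat_lit 1) (nat_lit 14))
    (@En.i (nat_lit 1822) (nat_lit 2) (nat_lit 10))
    (@En.n l50 (nat_lit 2933) (nat_lit 3) (nat_lit 2))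
    (@En.n l5790 (nat_lit 2928) (nat_lit 4) (nat_lit 10))
    (@En.n l601 (nat_lit 2031) (nat_lit 6) (nat_lit 14))
    (@En.n l5791 (nat_lit 6055) (nat_lit 6) (nat_lit 7))
    (@En.n l710 (nat_lit 2937) (nat_lit 7) (nat_lit 3))
    (@En.n l1253 (nat_lit 2936) (nat_lit 8) (nat_lit 3))
    (@En.n l5792 (nat_lit 1714) (nat_lit 0) (nat_lit 7))
    (@En.n l1722 (nat_lit 2936) (nat_lit 11) (nat_lit 13))
    (@En.n l766 (nat_lit 5363) (nat_lit 12) (nat_lit 13))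
    (@En.n l699 (nat_lit 765) (nat_lit 13) (nat_lit 6))
    (@En.n l626 (nat_lit 14099) (nat_lit 9) (nat_lit 9))
    (@En.n l5793 (nat_lit 2938) (nat_lit 5) (nat_lit 6))
    (@En.n l3 (nat_lit 2933) (nat_lit 15) (nat_lit 2))))
  (@Cl.mk (nat_lit 0x200080007000c000c00090009000400040008000b000900070007000e0005) (nat_lit 0x2056230031100b0) (nat_lit 16) Lb.e (@T16.mk En
    (@En.n l9968 (nat_lit 2527) (nat_lit 7) (nat_lit 5))
    (@En.n l9969 (nat_lit 8722) (nat_lit 1) (nat_lit 14))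
    (@En.n l8639 (nat_lit 2529) (nat_lit 9) (nat_lit 7))
    (@En.n l20395 (nat_lit 905) (nat_lit 3) (nat_lit 7))
    (@En.n l8605 (nat_lit 2685) (nat_lit 4) (nat_lit 9))
    (@En.n l20525 (nat_lit 1212) (nat_lit 7) (nat_lit 11))
    (@En.n l20395 (nat_lit 7753) (nat_lit 6) (nat_lit 8))
    (@En.n l50 (nat_lit 3353) (nat_lit 7) (nat_lit 4))
    (@En.n l20526 (nat_lit 3305) (nat_lit 8) (nat_lit 4))
    (@En.n l61 (nat_lit 2927) (nat_lit 10) (nat_lit 9))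
    (@En.n l20453 (nat_lit 3301) (nat_lit 11) (nat_lit 9))
    (@En.n l20527 (nat_lit 2935) (nat_lit 12) (nat_lit 12))
    (@En.n l20525 (nat_lit 7564) (nat_lit 13) (nat_lit 12))
    (@En.n l20528 (nat_lit 2050) (nat_lit 14) (nat_lit 7))
    (@En.n l3056 (nat_lit 2527) (nat_lit 5) (nat_lit 8))
    (@En.n l67 (nat_lit 2934) (nat_lit 15) (nat_lit 2))))
  (@Cl.mk (nat_lit 0x200080007000c00080008000e000400020008000b000900080008000e0005) (nat_lit 0x20512b0047132b0) (nat_lit 16) Lb.e (@T16.mk En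
    (@En.n l5389 (nat_lit 2524) (nat_lit 8) (nat_lit 5))
    (@En.n l27203 (nat_lit 8729) (nat_lit 10) (nat_lit 14))
    (@En.n l1867 (nat_lit 2528) (nat_lit 2) (nat_lit 8))
    (@En.n l527 (nat_lit 898) (nat_lit 3) (nat_lit 8))
    (@En.n l8368 (nat_lit 2564) (nat_lit 4) (nat_lit 9))
    (@En.i (nat_lit 2950) (nat_lit 7) (nat_lit 11))
    (@En.n l4756 (nat_lit 7837) (nat_lit 6) (nat_lit 8))
    (@En.n l28 (nat_lit 2935) (nat_lit 7) (nat_lit 2))
    (@En.n l25621 (nat_lit 2934) (nat_lit 8) (nat_lit 4))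
    (@En.n l4758 (nat_lit 3316) (nat_lit 10) (nat_lit 14))
    (@En.n l27204 (nat_lit 2929) (nat_lit 2) (nat_lit 8))
    (@En.n l27205 (nat_lit 2082) (nat_lit 3) (nat_lit 8))
    (@En.n l17208 (nat_lit 7559) (nat_lit 13) (nat_lit 12))
    (@En.n l27206 (nat_lit 2559) (nat_lit 14) (nat_lit 7))
    (@En.n l17617 (nat_lit 2524) (nat_lit 6) (nat_lit 8))
    (@En.n l18 (nat_lit 2935) (nat_lit 15) (nat_lit 2))))
  (@Cl.mk (nat_lit 0x2000600090006000d0006000e000300020007000e000a0002000a000e000a) (nat_lit 0x30607000720176) (nat_lit 16) Lb.e (@T16.mk En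
    (@En.n l387 (nat_lit 2521) (nat_lit 9) (nat_lit 10))
    (@En.n l3030 (nat_lit 1230) (nat_lit 10) (nat_lit 14))
    (@En.i (nat_lit 1821) (nat_lit 2) (nat_lit 10))
    (@En.n l18 (nat_lit 2936) (nat_lit 3) (nat_lit 2))
    (@En.n l5529 (nat_lit 2930) (nat_lit 4) (nat_lit 10))
    (@En.n l396 (nat_lit 2034) (nat_lit 6) (nat_lit 14))
    (@En.n l2205 (nat_lit 6054) (nat_lit 6) (nat_lit 7))
    (@En.n l28 (nat_lit 2936) (nat_lit 7) (nat_lit 2))
    (@En.n l287 (nat_lit 2933) (nat_lit 8) (nat_lit 3))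
    (@En.n l5366 (nat_lit 12933) (nat_lit 0) (nat_lit 14))
    (@En.i (nat_lit 1733) (nat_lit 2) (nat_lit 6))
    (@En.i (nat_lit 5364) (nat_lit 12) (nat_lit 13))
    (@En.n l725 (nat_lit 2042) (nat_lit 13) (nat_lit 6))
    (@En.n l387 (nat_lit 14100) (nat_lit 9) (nat_lit 9))
    (@En.n l2383 (nat_lit 2939) (nat_lit 6) (nat_lit 6))
    (@En.n l3 (nat_lit 2936) (nat_lit 15) (nat_lit 2))))
  (@Cl.mk (nat_lit 0x2000600090006000e000d0002000800030007000e000a0002000a000e0008) (nat_lit 0x30440300720386) (nat_lit 16) Lb.e (@T16.mk En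
    (@En.n l2421 (nat_lit 3351) (nat_lit 6) (nat_lit 8))
    (@En.n l2422 (nat_lit 1231) (nat_lit 8) (nat_lit 14))
    (@En.n l2423 (nat_lit 2770) (nat_lit 2) (nat_lit 10))
    (@En.n l107 (nat_lit 2937) (nat_lit 3) (nat_lit 2))
    (@En.n l2424 (nat_lit 2932) (nat_lit 4) (nat_lit 10))
    (@En.n l2417 (nat_lit 2911) (nat_lit 6) (nat_lit 14))
    (@En.n l17 (nat_lit 3107) (nat_lit 6) (nat_lit 7))
    (@En.n l720 (nat_lit 2933) (nat_lit 7) (nat_lit 3))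
    (@En.n l699 (nat_lit 1713) (nat_lit 0) (nat_lit 8))
    (@En.n l50 (nat_lit 2937) (nat_lit 9) (nat_lit 2))
    (@En.n l722 (nat_lit 2933) (nat_lit 11) (nat_lit 13))
    (@En.n l723 (nat_lit 5766) (nat_lit 12) (nat_lit 14))
    (@En.n l2425 (nat_lit 764) (nat_lit 2) (nat_lit 6))
    (@En.n l698 (nat_lit 14098) (nat_lit 9) (nat_lit 9))
    (@En.i (nat_lit 2944) (nat_lit 4) (nat_lit 6))
    (@En.n l725 (nat_lit 2937) (nat_lit 15) (nat_lit 2))))
  (@Cl.mk (nat_lit 0x300030007000d000a000d0003000b0003000a000600090005000d000d0006) (nat_lit 0x790007000000) (nat_lit 16) Lb.e (@T16.mk En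
    (@En.n l2364 (nat_lit 2595) (nat_lit 0) (nat_lit 6))
    (@En.n l1131 (nat_lit 2939) (nat_lit 3) (nat_lit 13))
    (@En.n l723 (nat_lit 10314) (nat_lit 9) (nat_lit 13))
    (@En.n l6688 (nat_lit 4343) (nat_lit 3) (nat_lit 5))
    (@En.i (nat_lit 3086) (nat_lit 9) (nat_lit 9))
    (@En.i (nat_lit 7263) (nat_lit 5) (nat_lit 6))
    (@En.n l698 (nat_lit 8129) (nat_lit 13) (nat_lit 10))
    (@En.i (nat_lit 2945) (nat_lit 7) (nat_lit 3))
    (@En.n l6672 (nat_lit 4012) (nat_lit 0) (nat_lit 11))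
    (@En.n l117 (nat_lit 2943) (nat_lit 9) (nat_lit 3))
    (@En.n l14369 (nat_lit 3223) (nat_lit 5) (nat_lit 13))
    (@En.n l6675 (nat_lit 2941) (nat_lit 12) (nat_lit 10))
    (@En.n l3593 (nat_lit 7382) (nat_lit 13) (nat_lit 13))
    (@En.n l1353 (nat_lit 8246) (nat_lit 12) (nat_lit 7))
    (@En.n l18 (nat_lit 2944) (nat_lit 13) (nat_lit 3))
    (@En.n l403 (nat_lit 2939) (nat_lit 0) (nat_lit 3))))
  (@Cl.mk (nat_lit 0x20007000d000a000d0003000b0003000b000600090005000d0005000e0003) (nat_lit 0x790000000b000) (nat_lit 16) Lb.e (@T16.mk En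
    (@En.n l1545 (nat_lit 2938) (nat_lit 15) (nat_lit 3))
    (@En.n l13701 (nat_lit 13882) (nat_lit 0) (nat_lit 14))
    (@En.n l7 (nat_lit 7244) (nat_lit 2) (nat_lit 5))
    (@En.n l4356 (nat_lit 8618) (nat_lit 9) (nat_lit 13))
    (@En.n l28512 (nat_lit 4342) (nat_lit 4) (nat_lit 5))
    (@En.i (nat_lit 3085) (nat_lit 5) (nat_lit 9))
    (@En.n l2781 (nat_lit 7275) (nat_lit 6) (nat_lit 6))
    (@En.n l13182 (nat_lit 8096) (nat_lit 8) (nat_lit 11))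
    (@En.n l7921 (nat_lit 2946) (nat_lit 8) (nat_lit 3))
    (@En.n l4353 (nat_lit 7389) (nat_lit 10) (nat_lit 11))
    (@En.n l28513 (nat_lit 2942) (nat_lit 10) (nat_lit 3))
    (@En.n l13701 (nat_lit 3227) (nat_lit 12) (nat_lit 13))
    (@En.n l28514 (nat_lit 2940) (nat_lit 13) (nat_lit 10))
    (@En.n l28515 (nat_lit 7384) (nat_lit 14) (nat_lit 13))
    (@En.n l28516 (nat_lit 8244) (nat_lit 14) (nat_lit 7))
    (@En.n l18 (nat_lit 2939) (nat_lit 15) (nat_lit 2))))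
  (@Cl.mk (nat_lit 0x20007000a000d000b000a0003000a0006000500090006000d0006000e0003) (nat_lit 0x69000000100000) (nat_lit 16) Lb.e (@T16.mk En
    (@En.n l12541 (nat_lit 2941) (nat_lit 15) (nat_lit 3))
    (@En.n l11866 (nat_lit 13893) (nat_lit 0) (nat_lit 14))
    (@En.n l32120 (nat_lit 7243) (nat_lit 2) (nat_lit 6))
    (@En.n l5368 (nat_lit 10317) (nat_lit 4) (nat_lit 13))
    (@En.n l10089 (nat_lit 4605) (nat_lit 4) (nat_lit 6))
    (@En.n l31236 (nat_lit 2939) (nat_lit 5) (nat_lit 9))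
    (@En.i (nat_lit 2942) (nat_lit 6) (nat_lit 5))
    (@En.n l34356 (nat_lit 7276) (nat_lit 7) (nat_lit 6))
    (@En.n l10971 (nat_lit 8097) (nat_lit 9) (nat_lit 10))
    (@En.n l3536 (nat_lit 7238) (nat_lit 9) (nat_lit 3))
    (@En.n l34357 (nat_lit 7390) (nat_lit 11) (nat_lit 10))
    (@En.n l68 (nat_lit 7121) (nat_lit 12) (nat_lit 11))
    (@En.n l3866 (nat_lit 3496) (nat_lit 5) (nat_lit 13))
    (@En.n l9715 (nat_lit 2283) (nat_lit 8) (nat_lit 10))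
    (@En.n l34358 (nat_lit 8248) (nat_lit 14) (nat_lit 7))
    (@En.n l50 (nat_lit 2940) (nat_lit 15) (nat_lit 2))))
  (@Cl.mk (nat_lit 0x300030007000a000d000b000a000300090006000500090006000d000d0007) (nat_lit 0x6900060010010) (nat_lit 16) Lb.e (@T16.mk En
    (@En.i (nat_lit 2593) (nat_lit 0) (nat_lit 7))
    (@En.n l17912 (nat_lit 2940) (nat_lit 3) (nat_lit 13))
    (@En.n l19384 (nat_lit 10315) (nat_lit 2) (nat_lit 13))
    (@En.n l8682 (nat_lit 4606) (nat_lit 3) (nat_lit 6))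
    (@En.n l5646 (nat_lit 2938) (nat_lit 4) (nat_lit 9))
    (@En.n l5646 (nat_lit 2943) (nat_lit 5) (nat_lit 5))
    (@En.n l17 (nat_lit 7230) (nat_lit 6) (nat_lit 6))
    (@En.i (nat_lit 9576) (nat_lit 8) (nat_lit 9))
    (@En.n l2058 (nat_lit 7232) (nat_lit 8) (nat_lit 3))
    (@En.n l619 (nat_lit 4011) (nat_lit 0) (nat_lit 10))
    (@En.n l10040 (nat_lit 7119) (nat_lit 11) (nat_lit 11))
    (@En.n l1109 (nat_lit 3490) (nat_lit 5) (nat_lit 13))
    (@En.i (nat_lit 2284) (nat_lit 8) (nat_lit 10))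
    (@En.i (nat_lit 8249) (nat_lit 14) (nat_lit 7))
    (@En.n l50 (nat_lit 2948) (nat_lit 13) (nat_lit 3))
    (@En.n l6388 (nat_lit 2940) (nat_lit 0) (nat_lit 3))))
  (@Cl.mk (nat_lit 0x20007000d000c000b0003000b0004000b000500090005000d0005000e0003) (nat_lit 0x400000000000) (nat_lit 16) Lb.e (@T16.mk En
    (@En.n l17334 (nat_lit 2943) (nat_lit 15) (nat_lit 3))
    (@En.n l4818 (nat_lit 13337) (nat_lit 0) (nat_lit 14))
    (@En.n l20138 (nat_lit 7245) (nat_lit 2) (nat_lit 5))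
    (@En.i (nat_lit 8613) (nat_lit 9) (nat_lit 13))
    (@En.n l10089 (nat_lit 4338) (nat_lit 4) (nat_lit 5))
    (@En.n l31236 (nat_lit 3081) (nat_lit 5) (nat_lit 9))
    (@En.i (nat_lit 7272) (nat_lit 6) (nat_lit 5))
    (@En.n l10971 (nat_lit 8095) (nat_lit 8) (nat_lit 11))
    (@En.i (nat_lit 7221) (nat_lit 8) (nat_lit 4))
    (@En.i (nat_lit 5521) (nat_lit 10) (nat_lit 11))
    (@En.n l31669 (nat_lit 2939) (nat_lit 10) (nat_lit 3))
    (@En.n l619 (nat_lit 4867) (nat_lit 12) (nat_lit 11))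
    (@En.n l3866 (nat_lit 2946) (nat_lit 13) (nat_lit 12))
    (@En.n l8766 (nat_lit 7407) (nat_lit 14) (nat_lit 13))
    (@En.n l6042 (nat_lit 8251) (nat_lit 14) (nat_lit 7))
    (@En.n l50 (nat_lit 2942) (nat_lit 15) (nat_lit 2))))
  (@Cl.mk (nat_lit 0x300030007000d000c000b0003000b0004000a000500090005000d000d0006) (nat_lit 0x40000000010) (nat_lit 16) Lb.e (@T16.mk En
    (@En.n l2364 (nat_lit 2599) (nat_lit 0) (nat_lit 6))
    (@En.n l28520 (nat_lit 2942) (nat_lit 3) (nat_lit 13))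
    (@En.n l11400 (nat_lit 8614) (nat_lit 9) (nat_lit 13))
    (@En.n l6657 (nat_lit 4341) (nat_lit 3) (nat_lit 5))
    (@En.i (nat_lit 3083) (nat_lit 4) (nat_lit 9))
    (@En.i (nat_lit 7269) (nat_lit 5) (nat_lit 5))
    (@En.n l28521 (nat_lit 9575) (nat_lit 13) (nat_lit 10))
    (@En.n l11400 (nat_lit 3531) (nat_lit 7) (nat_lit 4))
    (@En.n l16495 (nat_lit 5516) (nat_lit 9) (nat_lit 11))
    (@En.n l152 (nat_lit 2938) (nat_lit 9) (nat_lit 3))
    (@En.n l28522 (nat_lit 4863) (nat_lit 0) (nat_lit 11))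
    (@En.n l619 (nat_lit 2945) (nat_lit 12) (nat_lit 12))
    (@En.n l26585 (nat_lit 7406) (nat_lit 13) (nat_lit 13))
    (@En.i (nat_lit 8252) (nat_lit 12) (nat_lit 7))
    (@En.n l18 (nat_lit 2947) (nat_lit 13) (nat_lit 3))
    (@En.n l28523 (nat_lit 2942) (nat_lit 0) (nat_lit 3))))
noncomputable def a184 : T16 Cl := @T16.mk Cl
  (@Cl.mk (nat_lit 0x2000700030007000d000a000d0003000b00030009000600090005000e000d) (nat_lit 0x79000700001) (nat_lit 16) Lb.e (@T16.mk En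
    (@En.n l396 (nat_lit 2938) (nat_lit 2) (nat_lit 13))
    (@En.n l889 (nat_lit 7861) (nat_lit 1) (nat_lit 14))
    (@En.i (nat_lit 7331) (nat_lit 2) (nat_lit 5))
    (@En.i (nat_lit 3911) (nat_lit 3) (nat_lit 9))
    (@En.i (nat_lit 7264) (nat_lit 4) (nat_lit 6))
    (@En.n l698 (nat_lit 9572) (nat_lit 5) (nat_lit 9))
    (@En.i (nat_lit 2949) (nat_lit 6) (nat_lit 3))
    (@En.n l6674 (nat_lit 7388) (nat_lit 8) (nat_lit 11))
    (@En.n l117 (nat_lit 2947) (nat_lit 8) (nat_lit 3))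
    (@En.n l3590 (nat_lit 3225) (nat_lit 10) (nat_lit 13))
    (@En.n l6675 (nat_lit 2948) (nat_lit 11) (nat_lit 10))
    (@En.i (nat_lit 7385) (nat_lit 12) (nat_lit 13))
    (@En.n l17 (nat_lit 5520) (nat_lit 13) (nat_lit 7))
    (@En.i (nat_lit 2938) (nat_lit 14) (nat_lit 3))
    (@En.n l699 (nat_lit 6800) (nat_lit 0) (nat_lit 7))
    (@En.n l50 (nat_lit 2944) (nat_lit 15) (nat_lit 2))))
  (@Cl.mk (nat_lit 0x300030007000c000a000d000a00040003000a000600090006000d000d0006) (nat_lit 0xa793007000000) (nat_lit 16) Lb.e (@T16.mk En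
    (@En.n l2364 (nat_lit 2591) (nat_lit 0) (nat_lit 6))
    (@En.n l8124 (nat_lit 2946) (nat_lit 3) (nat_lit 13))
    (@En.n l8125 (nat_lit 8617) (nat_lit 2) (nat_lit 13))
    (@En.n l8126 (nat_lit 7332) (nat_lit 3) (nat_lit 6))
    (@En.i (nat_lit 3088) (nat_lit 9) (nat_lit 9))
    (@En.n l1080 (nat_lit 7229) (nat_lit 5) (nat_lit 6))
    (@En.n l717 (nat_lit 6866) (nat_lit 7) (nat_lit 10))
    (@En.n l11 (nat_lit 2938) (nat_lit 7) (nat_lit 3))
    (@En.n l8127 (nat_lit 3526) (nat_lit 0) (nat_lit 4))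
    (@En.n l55 (nat_lit 1603) (nat_lit 10) (nat_lit 10))
    (@En.n l8126 (nat_lit 3226) (nat_lit 5) (nat_lit 13))
    (@En.n l8128 (nat_lit 7232) (nat_lit 12) (nat_lit 10))
    (@En.n l8129 (nat_lit 7235) (nat_lit 13) (nat_lit 12))
    (@En.n l8130 (nat_lit 8255) (nat_lit 12) (nat_lit 7))
    (@En.n l18 (nat_lit 2949) (nat_lit 13) (nat_lit 3))
    (@En.n l8131 (nat_lit 2946) (nat_lit 0) (nat_lit 3))))
  (@Cl.mk (nat_lit 0x20007000c000a000d000a00040003000b000600090006000d0005000e0003) (nat_lit 0xa793000000b000) (nat_lit 16) Lb.e (@T16.mk En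
    (@En.n l2774 (nat_lit 2945) (nat_lit 15) (nat_lit 3))
    (@En.n l892 (nat_lit 13883) (nat_lit 0) (nat_lit 14))
    (@En.n l7916 (nat_lit 7242) (nat_lit 2) (nat_lit 5))
    (@En.n l564 (nat_lit 8616) (nat_lit 4) (nat_lit 13))
    (@En.i (nat_lit 7333) (nat_lit 4) (nat_lit 6))
    (@En.n l6272 (nat_lit 3089) (nat_lit 5) (nat_lit 9))
    (@En.i (nat_lit 7277) (nat_lit 6) (nat_lit 6))
    (@En.i (nat_lit 6863) (nat_lit 8) (nat_lit 11))
    (@En.n l7920 (nat_lit 2939) (nat_lit 8) (nat_lit 3))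
    (@En.n l18 (nat_lit 3527) (nat_lit 9) (nat_lit 4))
    (@En.n l13206 (nat_lit 4463) (nat_lit 11) (nat_lit 10))
    (@En.i (nat_lit 3228) (nat_lit 12) (nat_lit 13))
    (@En.n l61 (nat_lit 7238) (nat_lit 13) (nat_lit 10))
    (@En.n l564 (nat_lit 7237) (nat_lit 14) (nat_lit 12))
    (@En.n l892 (nat_lit 8254) (nat_lit 14) (nat_lit 7))
    (@En.n l28 (nat_lit 2946) (nat_lit 15) (nat_lit 2))))
  (@Cl.mk (nat_lit 0x2000700030007000d000c000b0003000b00040009000500090005000e000d) (nat_lit 0x6000700001) (nat_lit 16) Lb.e (@T16.mk En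
    (@En.n l396 (nat_lit 2943) (nat_lit 2) (nat_lit 13))
    (@En.n l889 (nat_lit 7761) (nat_lit 1) (nat_lit 14))
    (@En.n l16494 (nat_lit 7360) (nat_lit 2) (nat_lit 5))
    (@En.i (nat_lit 3087) (nat_lit 3) (nat_lit 9))
    (@En.i (nat_lit 7268) (nat_lit 4) (nat_lit 5))
    (@En.n l3589 (nat_lit 9573) (nat_lit 5) (nat_lit 9))
    (@En.n l10230 (nat_lit 7220) (nat_lit 6) (nat_lit 4))
    (@En.n l16495 (nat_lit 5517) (nat_lit 8) (nat_lit 11))
    (@En.n l152 (nat_lit 2944) (nat_lit 8) (nat_lit 3))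
    (@En.n l8906 (nat_lit 4866) (nat_lit 10) (nat_lit 11))
    (@En.n l619 (nat_lit 2949) (nat_lit 11) (nat_lit 12))
    (@En.n l6656 (nat_lit 7405) (nat_lit 12) (nat_lit 13))
    (@En.n l17 (nat_lit 5521) (nat_lit 13) (nat_lit 7))
    (@En.i (nat_lit 2943) (nat_lit 14) (nat_lit 3))
    (@En.n l699 (nat_lit 6801) (nat_lit 0) (nat_lit 7))
    (@En.n l50 (nat_lit 2947) (nat_lit 15) (nat_lit 2))))
  (@Cl.mk (nat_lit 0x2000800030007000a000d000b000a000300080006000500090006000e000d) (nat_lit 0x200670006001051) (nat_lit 16) Lb.e (@T16.mk En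
    (@En.n l601 (nat_lit 2941) (nat_lit 2) (nat_lit 13))
    (@En.i (nat_lit 7862) (nat_lit 1) (nat_lit 14))
    (@En.i (nat_lit 4608) (nat_lit 2) (nat_lit 6))
    (@En.n l5646 (nat_lit 2944) (nat_lit 3) (nat_lit 9))
    (@En.n l5646 (nat_lit 2947) (nat_lit 4) (nat_lit 5))
    (@En.n l17 (nat_lit 7265) (nat_lit 5) (nat_lit 6))
    (@En.i (nat_lit 9574) (nat_lit 6) (nat_lit 8))
    (@En.n l1106 (nat_lit 7234) (nat_lit 7) (nat_lit 3))
    (@En.n l619 (nat_lit 4013) (nat_lit 0) (nat_lit 10))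
    (@En.n l10040 (nat_lit 7118) (nat_lit 10) (nat_lit 11))
    (@En.i (nat_lit 3487) (nat_lit 5) (nat_lit 13))
    (@En.i (nat_lit 2308) (nat_lit 8) (nat_lit 10))
    (@En.i (nat_lit 5522) (nat_lit 13) (nat_lit 7))
    (@En.i (nat_lit 2941) (nat_lit 14) (nat_lit 3))
    (@En.i (nat_lit 1717) (nat_lit 0) (nat_lit 8))
    (@En.n l7 (nat_lit 2948) (nat_lit 15) (nat_lit 2))))
  (@Cl.mk (nat_lit 0x2000700030007000c000a000d000a000400030009000600090006000e000d) (nat_lit 0xa79300700001) (nat_lit 16) Lb.e (@T16.mk En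
    (@En.n l396 (nat_lit 2945) (nat_lit 2) (nat_lit 13))
    (@En.n l889 (nat_lit 7867) (nat_lit 1) (nat_lit 14))
    (@En.n l3686 (nat_lit 7324) (nat_lit 2) (nat_lit 6))
    (@En.i (nat_lit 3910) (nat_lit 3) (nat_lit 9))
    (@En.n l1080 (nat_lit 7262) (nat_lit 4) (nat_lit 6))
    (@En.n l3687 (nat_lit 7353) (nat_lit 5) (nat_lit 9))
    (@En.n l11 (nat_lit 2944) (nat_lit 6) (nat_lit 3))
    (@En.n l3688 (nat_lit 3528) (nat_lit 7) (nat_lit 4))
    (@En.n l55 (nat_lit 1600) (nat_lit 9) (nat_lit 10))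
    (@En.n l3689 (nat_lit 3224) (nat_lit 10) (nat_lit 13))
    (@En.n l3690 (nat_lit 7234) (nat_lit 11) (nat_lit 10))
    (@En.n l3587 (nat_lit 7236) (nat_lit 12) (nat_lit 12))
    (@En.n l17 (nat_lit 5510) (nat_lit 13) (nat_lit 7))
    (@En.i (nat_lit 2945) (nat_lit 14) (nat_lit 3))
    (@En.n l699 (nat_lit 6797) (nat_lit 0) (nat_lit 7))
    (@En.n l50 (nat_lit 2949) (nat_lit 15) (nat_lit 2))))
  (@Cl.mk (nat_lit 0x20008000c00090009000e00040002000b000800070007000d0005000e0003) (nat_lit 0x2a32c006100b060) (nat_lit 16) Lb.e (@T16.mk En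
    (@En.i (nat_lit 1213) (nat_lit 7) (nat_lit 3))
    (@En.i (nat_lit 13756) (nat_lit 0) (nat_lit 14))
    (@En.i (nat_lit 2926) (nat_lit 2) (nat_lit 5))
    (@En.n l1643 (nat_lit 8728) (nat_lit 11) (nat_lit 13))
    (@En.n l17209 (nat_lit 2817) (nat_lit 4) (nat_lit 7))
    (@En.n l527 (nat_lit 6426) (nat_lit 13) (nat_lit 7))
    (@En.i (nat_lit 2756) (nat_lit 6) (nat_lit 8))
    (@En.i (nat_lit 8517) (nat_lit 8) (nat_lit 11))
    (@En.n l28 (nat_lit 2950) (nat_lit 8) (nat_lit 2))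
    (@En.n l2691 (nat_lit 1212) (nat_lit 9) (nat_lit 4))
    (@En.n l4758 (nat_lit 3262) (nat_lit 11) (nat_lit 14))
    (@En.n l18888 (nat_lit 1206) (nat_lit 12) (nat_lit 9))
    (@En.i (nat_lit 3104) (nat_lit 13) (nat_lit 9))
    (@En.n l17208 (nat_lit 2953) (nat_lit 14) (nat_lit 12))
    (@En.n l6589 (nat_lit 2824) (nat_lit 5) (nat_lit 8))
    (@En.n l17 (nat_lit 2950) (nat_lit 15) (nat_lit 2))))
  (@Cl.mk (nat_lit 0x2000700030008000c00090009000e000400020009000800070007000e000d) (nat_lit 0x1072c00060041) (nat_lit 16) Lb.e (@T16.mk En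
    (@En.n l30728 (nat_lit 1213) (nat_lit 10) (nat_lit 13))
    (@En.n l2786 (nat_lit 8721) (nat_lit 11) (nat_lit 14))
    (@En.n l12149 (nat_lit 2819) (nat_lit 2) (nat_lit 7))
    (@En.n l30729 (nat_lit 6429) (nat_lit 3) (nat_lit 7))
    (@En.n l30730 (nat_lit 2993) (nat_lit 14) (nat_lit 8))
    (@En.n l26127 (nat_lit 8296) (nat_lit 5) (nat_lit 9))
    (@En.n l7 (nat_lit 2951) (nat_lit 6) (nat_lit 2))
    (@En.n l30731 (nat_lit 3006) (nat_lit 7) (nat_lit 4))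
    (@En.i (nat_lit 3267) (nat_lit 9) (nat_lit 14))
    (@En.n l30732 (nat_lit 1210) (nat_lit 10) (nat_lit 9))
    (@En.n l30733 (nat_lit 3118) (nat_lit 11) (nat_lit 9))
    (@En.i (nat_lit 2954) (nat_lit 12) (nat_lit 12))
    (@En.n l2199 (nat_lit 69) (nat_lit 5) (nat_lit 8))
    (@En.n l30734 (nat_lit 1213) (nat_lit 6) (nat_lit 3))
    (@En.n l3187 (nat_lit 1345) (nat_lit 0) (nat_lit 7))
    (@En.n l3 (nat_lit 2951) (nat_lit 15) (nat_lit 2))))
  (@Cl.mk (nat_lit 0x30003000c00080008000d0004000d0003000a000300080008000d000d0006) (nat_lit 0x900b0200002a00) (nat_lit 16) Lb.e (@T16.mk En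
    (@En.n l34263 (nat_lit 6590) (nat_lit 0) (nat_lit 6))
    (@En.n l644 (nat_lit 2953) (nat_lit 3) (nat_lit 13))
    (@En.n l40389 (nat_lit 9194) (nat_lit 13) (nat_lit 13))
    (@En.n l61 (nat_lit 2958) (nat_lit 8) (nat_lit 8))
    (@En.n l7231 (nat_lit 6242) (nat_lit 4) (nat_lit 8))
    (@En.n l18000 (nat_lit 2956) (nat_lit 5) (nat_lit 3))
    (@En.n l7257 (nat_lit 11056) (nat_lit 0) (nat_lit 10))
    (@En.n l117 (nat_lit 2955) (nat_lit 7) (nat_lit 3))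
    (@En.n l21109 (nat_lit 2959) (nat_lit 0) (nat_lit 13))
    (@En.n l5036 (nat_lit 5570) (nat_lit 9) (nat_lit 4))
    (@En.n l7231 (nat_lit 3043) (nat_lit 11) (nat_lit 13))
    (@En.n l21110 (nat_lit 2957) (nat_lit 8) (nat_lit 8))
    (@En.i (nat_lit 5515) (nat_lit 13) (nat_lit 8))
    (@En.i (nat_lit 12207) (nat_lit 8) (nat_lit 12))
    (@En.n l17857 (nat_lit 2954) (nat_lit 13) (nat_lit 3))
    (@En.n l7 (nat_lit 2953) (nat_lit 0) (nat_lit 3))))
  (@Cl.mk (nat_lit 0x2000c00080008000d0004000d0003000b000300080008000d0005000e0003) (nat_lit 0x90000000000b040) (nat_lit 16) Lb.e (@T16.mk En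
    (@En.i (nat_lit 2952) (nat_lit 15) (nat_lit 3))
    (@En.n l13116 (nat_lit 13297) (nat_lit 0) (nat_lit 14))
    (@En.i (nat_lit 5601) (nat_lit 2) (nat_lit 5))
    (@En.n l37853 (nat_lit 4335) (nat_lit 13) (nat_lit 13))
    (@En.n l61 (nat_lit 5579) (nat_lit 4) (nat_lit 8))
    (@En.n l7231 (nat_lit 6243) (nat_lit 5) (nat_lit 8))
    (@En.i (nat_lit 2963) (nat_lit 6) (nat_lit 3))
    (@En.i (nat_lit 10996) (nat_lit 0) (nat_lit 11))
    (@En.n l117 (nat_lit 2962) (nat_lit 8) (nat_lit 3))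
    (@En.n l21109 (nat_lit 5442) (nat_lit 10) (nat_lit 13))
    (@En.n l5036 (nat_lit 5571) (nat_lit 10) (nat_lit 4))
    (@En.n l7231 (nat_lit 3045) (nat_lit 12) (nat_lit 13))
    (@En.n l21110 (nat_lit 5400) (nat_lit 8) (nat_lit 8))
    (@En.i (nat_lit 5520) (nat_lit 14) (nat_lit 8))
    (@En.i (nat_lit 12209) (nat_lit 8) (nat_lit 12))
    (@En.n l50 (nat_lit 2953) (nat_lit 15) (nat_lit 2))))
  (@Cl.mk (nat_lit 0x200070003000c00080008000d0004000d00030009000300080008000e000d) (nat_lit 0xa00001000020b) (nat_lit 16) Lb.e (@T16.mk En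
    (@En.n l22923 (nat_lit 2952) (nat_lit 2) (nat_lit 13))
    (@En.n l2786 (nat_lit 9154) (nat_lit 1) (nat_lit 14))
    (@En.n l7249 (nat_lit 5580) (nat_lit 2) (nat_lit 8))
    (@En.i (nat_lit 6241) (nat_lit 3) (nat_lit 8))
    (@En.n l5349 (nat_lit 2960) (nat_lit 4) (nat_lit 3))
    (@En.n l61 (nat_lit 8171) (nat_lit 0) (nat_lit 9))
    (@En.n l9454 (nat_lit 2961) (nat_lit 6) (nat_lit 3))
    (@En.i (nat_lit 50) (nat_lit 0) (nat_lit 13))
    (@En.n l4446 (nat_lit 5572) (nat_lit 8) (nat_lit 4))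
    (@En.i (nat_lit 4197) (nat_lit 10) (nat_lit 13))
    (@En.n l12569 (nat_lit 5401) (nat_lit 11) (nat_lit 8))
    (@En.n l9411 (nat_lit 5514) (nat_lit 12) (nat_lit 8))
    (@En.i (nat_lit 10112) (nat_lit 13) (nat_lit 12))
    (@En.n l18474 (nat_lit 2952) (nat_lit 14) (nat_lit 3))
    (@En.n l3098 (nat_lit 6591) (nat_lit 0) (nat_lit 7))
    (@En.n l3 (nat_lit 2954) (nat_lit 15) (nat_lit 2))))
  (@Cl.mk (nat_lit 0x30003000b00080008000d000c00050003000a000400080008000d000d0006) (nat_lit 0x800b0000000000) (nat_lit 16) Lb.e (@T16.mk En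
    (@En.n l18243 (nat_lit 5720) (nat_lit 0) (nat_lit 6))
    (@En.n l644 (nat_lit 2962) (nat_lit 3) (nat_lit 13))
    (@En.n l9943 (nat_lit 8603) (nat_lit 11) (nat_lit 13))
    (@En.n l61 (nat_lit 5581) (nat_lit 8) (nat_lit 8))
    (@En.n l3528 (nat_lit 4500) (nat_lit 4) (nat_lit 8))
    (@En.n l24219 (nat_lit 4483) (nat_lit 5) (nat_lit 4))
    (@En.n l18239 (nat_lit 7987) (nat_lit 0) (nat_lit 10))
    (@En.n l152 (nat_lit 2952) (nat_lit 7) (nat_lit 3))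
    (@En.n l15604 (nat_lit 3292) (nat_lit 0) (nat_lit 5))
    (@En.n l39754 (nat_lit 2956) (nat_lit 10) (nat_lit 12))
    (@En.n l12291 (nat_lit 3039) (nat_lit 11) (nat_lit 13))
    (@En.n l13808 (nat_lit 4513) (nat_lit 8) (nat_lit 8))
    (@En.n l18239 (nat_lit 5516) (nat_lit 13) (nat_lit 8))
    (@En.n l2817 (nat_lit 11442) (nat_lit 14) (nat_lit 11))
    (@En.n l39755 (nat_lit 2961) (nat_lit 13) (nat_lit 3))
    (@En.n l7 (nat_lit 2962) (nat_lit 0) (nat_lit 3))))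
  (@Cl.mk (nat_lit 0x30003000c00080008000c0004000d00090004000300080008000d000d0007) (nat_lit 0x800a01000000b0) (nat_lit 16) Lb.e (@T16.mk En
    (@En.n l97 (nat_lit 6447) (nat_lit 0) (nat_lit 7))
    (@En.n l26915 (nat_lit 2963) (nat_lit 3) (nat_lit 13))
    (@En.n l7492 (nat_lit 9150) (nat_lit 13) (nat_lit 13))
    (@En.n l17294 (nat_lit 4489) (nat_lit 8) (nat_lit 8))
    (@En.n l26916 (nat_lit 4496) (nat_lit 4) (nat_lit 8))
    (@En.n l26917 (nat_lit 2952) (nat_lit 5) (nat_lit 3))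
    (@En.i (nat_lit 4484) (nat_lit 0) (nat_lit 4))
    (@En.n l17291 (nat_lit 5592) (nat_lit 0) (nat_lit 9))
    (@En.n l26918 (nat_lit 49) (nat_lit 1) (nat_lit 13))
    (@En.n l10307 (nat_lit 5337) (nat_lit 9) (nat_lit 4))
    (@En.n l25000 (nat_lit 4201) (nat_lit 11) (nat_lit 12))
    (@En.n l61 (nat_lit 5332) (nat_lit 8) (nat_lit 8))
    (@En.n l26919 (nat_lit 5512) (nat_lit 13) (nat_lit 8))
    (@En.i (nat_lit 12208) (nat_lit 8) (nat_lit 12))
    (@En.n l152 (nat_lit 2960) (nat_lit 13) (nat_lit 3))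
    (@En.n l24409 (nat_lit 2963) (nat_lit 0) (nat_lit 3))))
  (@Cl.mk (nat_lit 0x2000d000d000700030003000d0008000d0003000d000300090003000e0008) (nat_lit 0x7600000051) (nat_lit 16) Lb.e (@T16.mk En
    (@En.n l8907 (nat_lit 2952) (nat_lit 4) (nat_lit 8))
    (@En.n l33333 (nat_lit 6261) (nat_lit 1) (nat_lit 14))
    (@En.n l137 (nat_lit 5332) (nat_lit 2) (nat_lit 3))
    (@En.n l4019 (nat_lit 11058) (nat_lit 3) (nat_lit 9))
    (@En.n l117 (nat_lit 4513) (nat_lit 4) (nat_lit 3))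
    (@En.n l13442 (nat_lit 5446) (nat_lit 0) (nat_lit 13))
    (@En.n l3089 (nat_lit 4516) (nat_lit 6) (nat_lit 3))
    (@En.i (nat_lit 4103) (nat_lit 0) (nat_lit 13))
    (@En.n l20715 (nat_lit 5402) (nat_lit 13) (nat_lit 8))
    (@En.i (nat_lit 11623) (nat_lit 10) (nat_lit 13))
    (@En.n l25073 (nat_lit 5401) (nat_lit 13) (nat_lit 3))
    (@En.n l18 (nat_lit 5400) (nat_lit 11) (nat_lit 3))
    (@En.n l33915 (nat_lit 5721) (nat_lit 0) (nat_lit 7))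
    (@En.n l61 (nat_lit 5400) (nat_lit 14) (nat_lit 13))
    (@En.n l18121 (nat_lit 9088) (nat_lit 2) (nat_lit 13))
    (@En.n l7 (nat_lit 2957) (nat_lit 15) (nat_lit 2))))
  (@Cl.mk (nat_lit 0x2000d0005000d0003000b00030008000d000d000500030003000b000e0008) (nat_lit 0x50100000921) (nat_lit 16) Lb.e (@T16.mk En
    (@En.i (nat_lit 2952) (nat_lit 12) (nat_lit 8))
    (@En.i (nat_lit 4747) (nat_lit 4) (nat_lit 14))
    (@En.i (nat_lit 12205) (nat_lit 2) (nat_lit 11))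
    (@En.i (nat_lit 5580) (nat_lit 13) (nat_lit 3))
    (@En.n l7 (nat_lit 5579) (nat_lit 0) (nat_lit 3))
    (@En.i (nat_lit 8061) (nat_lit 0) (nat_lit 5))
    (@En.n l644 (nat_lit 5579) (nat_lit 3) (nat_lit 13))
    (@En.i (nat_lit 8300) (nat_lit 8) (nat_lit 13))
    (@En.n l3340 (nat_lit 2332) (nat_lit 3) (nat_lit 8))
    (@En.i (nat_lit 4489) (nat_lit 9) (nat_lit 3))
    (@En.i (nat_lit 12778) (nat_lit 11) (nat_lit 11))
    (@En.n l117 (nat_lit 5581) (nat_lit 11) (nat_lit 3))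
    (@En.n l781 (nat_lit 5445) (nat_lit 0) (nat_lit 13))
    (@En.i (nat_lit 5573) (nat_lit 14) (nat_lit 5))
    (@En.i (nat_lit 7417) (nat_lit 10) (nat_lit 13))
    (@En.n l17 (nat_lit 2958) (nat_lit 15) (nat_lit 2))))
  (@Cl.mk (nat_lit 0x200090003000800080008000d000d000700030003000800080008000e000d) (nat_lit 0x20103b000030061) (nat_lit 16) Lb.e (@T16.mk En
    (@En.n l2221 (nat_lit 49) (nat_lit 2) (nat_lit 13))
    (@En.n l5577 (nat_lit 4882) (nat_lit 1) (nat_lit 14))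
    (@En.n l13058 (nat_lit 5446) (nat_lit 2) (nat_lit 8))
    (@En.n l13059 (nat_lit 5130) (nat_lit 3) (nat_lit 8))
    (@En.n l13060 (nat_lit 6086) (nat_lit 4) (nat_lit 8))
    (@En.n l13041 (nat_lit 50) (nat_lit 5) (nat_lit 3))
    (@En.n l18 (nat_lit 5442) (nat_lit 0) (nat_lit 3))
    (@En.i (nat_lit 5736) (nat_lit 0) (nat_lit 7))
    (@En.n l61 (nat_lit 5442) (nat_lit 3) (nat_lit 13))
    (@En.n l4021 (nat_lit 3634) (nat_lit 10) (nat_lit 13))
    (@En.n l1865 (nat_lit 5445) (nat_lit 11) (nat_lit 8))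
    (@En.n l152 (nat_lit 5129) (nat_lit 8) (nat_lit 8))
    (@En.n l117 (nat_lit 1213) (nat_lit 13) (nat_lit 8))
    (@En.n l13061 (nat_lit 49) (nat_lit 6) (nat_lit 3))
    (@En.i (nat_lit 1646) (nat_lit 0) (nat_lit 9))
    (@En.n l28 (nat_lit 2959) (nat_lit 15) (nat_lit 2))))
noncomputable def a185 : T16 Cl := @T16.mk Cl
  (@Cl.mk (nat_lit 0x200080003000c00080008000c0004000d00080004000300080008000e000d) (nat_lit 0x8000010000301) (nat_lit 16) Lb.e (@T16.mk En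
    (@En.i (nat_lit 2956) (nat_lit 2) (nat_lit 13))
    (@En.n l3538 (nat_lit 9155) (nat_lit 1) (nat_lit 14))
    (@En.n l13187 (nat_lit 5582) (nat_lit 2) (nat_lit 8))
    (@En.n l3166 (nat_lit 4495) (nat_lit 3) (nat_lit 8))
    (@En.n l12803 (nat_lit 2954) (nat_lit 4) (nat_lit 3))
    (@En.i (nat_lit 4486) (nat_lit 0) (nat_lit 4))
    (@En.n l3166 (nat_lit 5590) (nat_lit 6) (nat_lit 8))
    (@En.n l13188 (nat_lit 2959) (nat_lit 8) (nat_lit 13))
    (@En.n l10307 (nat_lit 5342) (nat_lit 8) (nat_lit 4))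
    (@En.n l7406 (nat_lit 4200) (nat_lit 10) (nat_lit 12))
    (@En.n l61 (nat_lit 5331) (nat_lit 11) (nat_lit 8))
    (@En.n l13189 (nat_lit 5513) (nat_lit 12) (nat_lit 8))
    (@En.i (nat_lit 10113) (nat_lit 13) (nat_lit 12))
    (@En.n l117 (nat_lit 2956) (nat_lit 14) (nat_lit 3))
    (@En.i (nat_lit 6898) (nat_lit 0) (nat_lit 8))
    (@En.n l3 (nat_lit 2960) (nat_lit 15) (nat_lit 2))))
  (@Cl.mk (nat_lit 0x200070003000b00080008000d000c000500030009000400080008000e000d) (nat_lit 0x6000100000201) (nat_lit 16) Lb.e (@T16.mk En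
    (@En.n l25388 (nat_lit 2955) (nat_lit 2) (nat_lit 13))
    (@En.n l4316 (nat_lit 9153) (nat_lit 1) (nat_lit 14))
    (@En.n l25389 (nat_lit 5583) (nat_lit 2) (nat_lit 8))
    (@En.n l17747 (nat_lit 4499) (nat_lit 3) (nat_lit 8))
    (@En.n l3707 (nat_lit 4485) (nat_lit 4) (nat_lit 4))
    (@En.i (nat_lit 7985) (nat_lit 5) (nat_lit 9))
    (@En.n l6641 (nat_lit 2954) (nat_lit 6) (nat_lit 3))
    (@En.n l25390 (nat_lit 3297) (nat_lit 7) (nat_lit 5))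
    (@En.n l22518 (nat_lit 2960) (nat_lit 9) (nat_lit 12))
    (@En.n l25391 (nat_lit 3041) (nat_lit 10) (nat_lit 13))
    (@En.n l19122 (nat_lit 4515) (nat_lit 11) (nat_lit 8))
    (@En.i (nat_lit 5517) (nat_lit 12) (nat_lit 8))
    (@En.i (nat_lit 10117) (nat_lit 13) (nat_lit 11))
    (@En.n l25392 (nat_lit 2955) (nat_lit 14) (nat_lit 3))
    (@En.i (nat_lit 6594) (nat_lit 0) (nat_lit 7))
    (@En.n l50 (nat_lit 2961) (nat_lit 15) (nat_lit 2))))
  (@Cl.mk (nat_lit 0x2000b00080008000d000c00050003000b000400080008000d0005000e0003) (nat_lit 0x60005000000b040) (nat_lit 16) Lb.e (@T16.mk En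
    (@En.i (nat_lit 2955) (nat_lit 15) (nat_lit 3))
    (@En.i (nat_lit 13296) (nat_lit 0) (nat_lit 14))
    (@En.i (nat_lit 5600) (nat_lit 2) (nat_lit 5))
    (@En.n l9943 (nat_lit 8602) (nat_lit 4) (nat_lit 13))
    (@En.n l61 (nat_lit 5596) (nat_lit 4) (nat_lit 8))
    (@En.n l1897 (nat_lit 6244) (nat_lit 5) (nat_lit 8))
    (@En.i (nat_lit 4487) (nat_lit 6) (nat_lit 4))
    (@En.n l5551 (nat_lit 7806) (nat_lit 8) (nat_lit 11))
    (@En.n l152 (nat_lit 2953) (nat_lit 8) (nat_lit 3))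
    (@En.n l5588 (nat_lit 3294) (nat_lit 0) (nat_lit 5))
    (@En.n l619 (nat_lit 2963) (nat_lit 11) (nat_lit 12))
    (@En.n l12291 (nat_lit 3040) (nat_lit 12) (nat_lit 13))
    (@En.n l13808 (nat_lit 4514) (nat_lit 13) (nat_lit 8))
    (@En.i (nat_lit 5521) (nat_lit 14) (nat_lit 8))
    (@En.i (nat_lit 11441) (nat_lit 14) (nat_lit 11))
    (@En.n l50 (nat_lit 2962) (nat_lit 15) (nat_lit 2))))
  (@Cl.mk (nat_lit 0x2000c00080008000c0004000d000a0004000300080008000d0006000e0003) (nat_lit 0x80040200000a040) (nat_lit 16) Lb.e (@T16.mk En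
    (@En.n l18000 (nat_lit 2956) (nat_lit 15) (nat_lit 3))
    (@En.n l13131 (nat_lit 13298) (nat_lit 0) (nat_lit 14))
    (@En.i (nat_lit 6441) (nat_lit 2) (nat_lit 6))
    (@En.n l6277 (nat_lit 9140) (nat_lit 13) (nat_lit 13))
    (@En.n l61 (nat_lit 5610) (nat_lit 4) (nat_lit 8))
    (@En.n l287 (nat_lit 6254) (nat_lit 5) (nat_lit 8))
    (@En.n l11 (nat_lit 2953) (nat_lit 6) (nat_lit 3))
    (@En.n l5043 (nat_lit 4488) (nat_lit 0) (nat_lit 4))
    (@En.n l55 (nat_lit 5614) (nat_lit 9) (nat_lit 10))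
    (@En.n l3447 (nat_lit 3631) (nat_lit 10) (nat_lit 13))
    (@En.n l5046 (nat_lit 5341) (nat_lit 10) (nat_lit 4))
    (@En.n l7231 (nat_lit 4208) (nat_lit 12) (nat_lit 12))
    (@En.n l21110 (nat_lit 5336) (nat_lit 8) (nat_lit 8))
    (@En.i (nat_lit 5510) (nat_lit 14) (nat_lit 8))
    (@En.i (nat_lit 12210) (nat_lit 8) (nat_lit 12))
    (@En.n l50 (nat_lit 2963) (nat_lit 15) (nat_lit 2))))
  (@Cl.mk (nat_lit 0x200050005000c000b000a00070004000e000500020006000b000b000e0009) (nat_lit 0x31200c0006707) (nat_lit 16) Lb.e (@T16.mk En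
    (@En.n l9232 (nat_lit 2925) (nat_lit 11) (nat_lit 9))
    (@En.n l3 (nat_lit 2965) (nat_lit 12) (nat_lit 14))
    (@En.n l527 (nat_lit 2965) (nat_lit 13) (nat_lit 11))
    (@En.i (nat_lit 5599) (nat_lit 3) (nat_lit 11))
    (@En.n l9233 (nat_lit 2171) (nat_lit 4) (nat_lit 6))
    (@En.n l50 (nat_lit 2964) (nat_lit 5) (nat_lit 2))
    (@En.n l9234 (nat_lit 2967) (nat_lit 6) (nat_lit 5))
    (@En.n l9235 (nat_lit 2529) (nat_lit 8) (nat_lit 14))
    (@En.n l9236 (nat_lit 2767) (nat_lit 8) (nat_lit 4))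
    (@En.n l3340 (nat_lit 2242) (nat_lit 3) (nat_lit 7))
    (@En.n l9237 (nat_lit 2739) (nat_lit 11) (nat_lit 10))
    (@En.n l9238 (nat_lit 2816) (nat_lit 12) (nat_lit 11))
    (@En.n l9239 (nat_lit 7709) (nat_lit 13) (nat_lit 12))
    (@En.n l9240 (nat_lit 2966) (nat_lit 14) (nat_lit 5))
    (@En.n l9236 (nat_lit 2665) (nat_lit 8) (nat_lit 5))
    (@En.n l17 (nat_lit 2964) (nat_lit 15) (nat_lit 2))))
  (@Cl.mk (nat_lit 0x20006000b000e00080002000e00050002000c000b000a00080004000e0005) (nat_lit 0x6c60b0041130c0) (nat_lit 16) Lb.e (@T16.mk En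
    (@En.n l21062 (nat_lit 2968) (nat_lit 8) (nat_lit 5))
    (@En.n l21063 (nat_lit 2528) (nat_lit 1) (nat_lit 14))
    (@En.i (nat_lit 2761) (nat_lit 2) (nat_lit 4))
    (@En.n l3340 (nat_lit 2246) (nat_lit 3) (nat_lit 8))
    (@En.n l20571 (nat_lit 2738) (nat_lit 4) (nat_lit 10))
    (@En.n l77 (nat_lit 2815) (nat_lit 14) (nat_lit 11))
    (@En.i (nat_lit 7708) (nat_lit 7) (nat_lit 12))
    (@En.n l107 (nat_lit 2965) (nat_lit 7) (nat_lit 2))
    (@En.i (nat_lit 2964) (nat_lit 14) (nat_lit 5))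
    (@En.n l21064 (nat_lit 2666) (nat_lit 1) (nat_lit 14))
    (@En.n l17 (nat_lit 2965) (nat_lit 10) (nat_lit 2))
    (@En.n l17226 (nat_lit 2926) (nat_lit 12) (nat_lit 8))
    (@En.i (nat_lit 13198) (nat_lit 4) (nat_lit 14))
    (@En.i (nat_lit 5598) (nat_lit 14) (nat_lit 11))
    (@En.n l21065 (nat_lit 2172) (nat_lit 6) (nat_lit 6))
    (@En.n l50 (nat_lit 2965) (nat_lit 15) (nat_lit 2))))
  (@Cl.mk (nat_lit 0x20005000c000b000a00060004000e000500020006000e000b0002000e000a) (nat_lit 0x1200c00057018) (nat_lit 16) Lb.e (@T16.mk En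
    (@En.n l3850 (nat_lit 2319) (nat_lit 10) (nat_lit 10))
    (@En.n l3141 (nat_lit 2964) (nat_lit 1) (nat_lit 14))
    (@En.n l18 (nat_lit 2966) (nat_lit 2) (nat_lit 2))
    (@En.n l3853 (nat_lit 2964) (nat_lit 3) (nat_lit 11))
    (@En.n l427 (nat_lit 4823) (nat_lit 5) (nat_lit 14))
    (@En.n l538 (nat_lit 2484) (nat_lit 5) (nat_lit 6))
    (@En.n l7 (nat_lit 2966) (nat_lit 6) (nat_lit 2))
    (@En.n l28 (nat_lit 2969) (nat_lit 7) (nat_lit 5))
    (@En.n l95 (nat_lit 3356) (nat_lit 9) (nat_lit 14))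
    (@En.n l3248 (nat_lit 3062) (nat_lit 9) (nat_lit 4))
    (@En.n l427 (nat_lit 2244) (nat_lit 3) (nat_lit 6))
    (@En.n l3854 (nat_lit 3050) (nat_lit 12) (nat_lit 10))
    (@En.i (nat_lit 2821) (nat_lit 13) (nat_lit 11))
    (@En.n l3855 (nat_lit 5704) (nat_lit 7) (nat_lit 12))
    (@En.n l1174 (nat_lit 3078) (nat_lit 7) (nat_lit 5))
    (@En.n l3 (nat_lit 2966) (nat_lit 15) (nat_lit 2))))
  (@Cl.mk (nat_lit 0x200050005000b000b000b000b00080005000500050005000b000b000e0008) (nat_lit 0x3027400000666) (nat_lit 16) Lb.e (@T16.mk En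
    (@En.n l6958 (nat_lit 2918) (nat_lit 1) (nat_lit 8))
    (@En.n l3972 (nat_lit 2968) (nat_lit 4) (nat_lit 14))
    (@En.n l9366 (nat_lit 2968) (nat_lit 5) (nat_lit 11))
    (@En.n l5332 (nat_lit 5605) (nat_lit 3) (nat_lit 11))
    (@En.n l9367 (nat_lit 2971) (nat_lit 4) (nat_lit 5))
    (@En.n l9368 (nat_lit 2973) (nat_lit 5) (nat_lit 5))
    (@En.n l4976 (nat_lit 2970) (nat_lit 6) (nat_lit 5))
    (@En.n l6284 (nat_lit 2766) (nat_lit 7) (nat_lit 5))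
    (@En.i (nat_lit 2239) (nat_lit 9) (nat_lit 8))
    (@En.n l9369 (nat_lit 2903) (nat_lit 10) (nat_lit 11))
    (@En.n l9370 (nat_lit 2964) (nat_lit 11) (nat_lit 11))
    (@En.n l9371 (nat_lit 2972) (nat_lit 12) (nat_lit 11))
    (@En.n l9372 (nat_lit 5705) (nat_lit 13) (nat_lit 11))
    (@En.n l9373 (nat_lit 2969) (nat_lit 14) (nat_lit 5))
    (@En.n l6284 (nat_lit 1380) (nat_lit 13) (nat_lit 5))
    (@En.n l403 (nat_lit 2967) (nat_lit 15) (nat_lit 2))))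
  (@Cl.mk (nat_lit 0x2000b000b000b000b00090005000500050005000b000e00070002000e0005) (nat_lit 0x802740000550080) (nat_lit 16) Lb.e (@T16.mk En
    (@En.n l20904 (nat_lit 2967) (nat_lit 14) (nat_lit 5))
    (@En.n l3872 (nat_lit 2974) (nat_lit 1) (nat_lit 14))
    (@En.n l17 (nat_lit 2968) (nat_lit 2) (nat_lit 2))
    (@En.n l16407 (nat_lit 2978) (nat_lit 3) (nat_lit 7))
    (@En.n l11351 (nat_lit 12847) (nat_lit 4) (nat_lit 14))
    (@En.n l998 (nat_lit 5603) (nat_lit 2) (nat_lit 11))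
    (@En.n l20905 (nat_lit 2977) (nat_lit 11) (nat_lit 5))
    (@En.n l20906 (nat_lit 2975) (nat_lit 7) (nat_lit 5))
    (@En.n l575 (nat_lit 2976) (nat_lit 11) (nat_lit 5))
    (@En.n l11454 (nat_lit 2764) (nat_lit 9) (nat_lit 5))
    (@En.n l11350 (nat_lit 2240) (nat_lit 11) (nat_lit 9))
    (@En.n l601 (nat_lit 2988) (nat_lit 5) (nat_lit 11))
    (@En.n l20907 (nat_lit 2965) (nat_lit 5) (nat_lit 11))
    (@En.n l20908 (nat_lit 2983) (nat_lit 5) (nat_lit 11))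
    (@En.n l11351 (nat_lit 5850) (nat_lit 12) (nat_lit 11))
    (@En.n l3 (nat_lit 2968) (nat_lit 15) (nat_lit 2))))
  (@Cl.mk (nat_lit 0x20005000b000b000b000b00070005000500050005000e000b0002000e0009) (nat_lit 0x30230000051077) (nat_lit 16) Lb.e (@T16.mk En
    (@En.n l3989 (nat_lit 2917) (nat_lit 14) (nat_lit 9))
    (@En.n l3990 (nat_lit 2967) (nat_lit 1) (nat_lit 14))
    (@En.n l18 (nat_lit 2969) (nat_lit 2) (nat_lit 2))
    (@En.n l3991 (nat_lit 2967) (nat_lit 3) (nat_lit 11))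
    (@En.n l3992 (nat_lit 5302) (nat_lit 5) (nat_lit 14))
    (@En.n l3993 (nat_lit 3023) (nat_lit 5) (nat_lit 5))
    (@En.n l1602 (nat_lit 3230) (nat_lit 6) (nat_lit 5))
    (@En.n l3994 (nat_lit 4140) (nat_lit 7) (nat_lit 5))
    (@En.n l3995 (nat_lit 2894) (nat_lit 8) (nat_lit 5))
    (@En.n l3992 (nat_lit 2238) (nat_lit 6) (nat_lit 7))
    (@En.n l3996 (nat_lit 2902) (nat_lit 11) (nat_lit 11))
    (@En.n l134 (nat_lit 2966) (nat_lit 12) (nat_lit 11))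
    (@En.n l55 (nat_lit 3020) (nat_lit 13) (nat_lit 11))
    (@En.n l3997 (nat_lit 5698) (nat_lit 14) (nat_lit 11))
    (@En.n l3998 (nat_lit 3076) (nat_lit 13) (nat_lit 5))
    (@En.n l3 (nat_lit 2969) (nat_lit 15) (nat_lit 2))))
  (@Cl.mk (nat_lit 0x200050005000e000b0002000c000c0009000500040004000b000b000e0007) (nat_lit 0x4401850004400) (nat_lit 16) Lb.e (@T16.mk En
    (@En.n l3179 (nat_lit 2915) (nat_lit 5) (nat_lit 7))
    (@En.n l947 (nat_lit 2976) (nat_lit 7) (nat_lit 14))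
    (@En.n l948 (nat_lit 2976) (nat_lit 8) (nat_lit 11))
    (@En.n l3180 (nat_lit 7253) (nat_lit 3) (nat_lit 11))
    (@En.n l1577 (nat_lit 4141) (nat_lit 4) (nat_lit 4))
    (@En.i (nat_lit 3621) (nat_lit 5) (nat_lit 4))
    (@En.n l3181 (nat_lit 2736) (nat_lit 6) (nat_lit 5))
    (@En.n l3182 (nat_lit 2248) (nat_lit 13) (nat_lit 9))
    (@En.n l3183 (nat_lit 2921) (nat_lit 9) (nat_lit 12))
    (@En.n l3184 (nat_lit 2525) (nat_lit 10) (nat_lit 12))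
    (@En.n l3 (nat_lit 2970) (nat_lit 10) (nat_lit 2))
    (@En.n l575 (nat_lit 2967) (nat_lit 12) (nat_lit 11))
    (@En.n l3185 (nat_lit 12550) (nat_lit 13) (nat_lit 14))
    (@En.n l3186 (nat_lit 4140) (nat_lit 14) (nat_lit 5))
    (@En.n l3181 (nat_lit 4085) (nat_lit 13) (nat_lit 5))
    (@En.n l403 (nat_lit 2970) (nat_lit 15) (nat_lit 2))))
  (@Cl.mk (nat_lit 0x200050005000a000a000e000b00020009000600060005000b000b000e0007) (nat_lit 0x33050000400) (nat_lit 16) Lb.e (@T16.mk En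
    (@En.n l3187 (nat_lit 2037) (nat_lit 7) (nat_lit 7))
    (@En.n l3 (nat_lit 2977) (nat_lit 9) (nat_lit 14))
    (@En.n l527 (nat_lit 2977) (nat_lit 10) (nat_lit 11))
    (@En.i (nat_lit 12255) (nat_lit 3) (nat_lit 11))
    (@En.n l3188 (nat_lit 3232) (nat_lit 4) (nat_lit 5))
    (@En.n l3189 (nat_lit 4141) (nat_lit 5) (nat_lit 6))
    (@En.n l3190 (nat_lit 2638) (nat_lit 6) (nat_lit 6))
    (@En.n l3191 (nat_lit 6345) (nat_lit 8) (nat_lit 9))
    (@En.n l7 (nat_lit 2971) (nat_lit 8) (nat_lit 2))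
    (@En.n l3192 (nat_lit 2967) (nat_lit 10) (nat_lit 11))
    (@En.n l3193 (nat_lit 2179) (nat_lit 11) (nat_lit 14))
    (@En.n l3194 (nat_lit 3021) (nat_lit 12) (nat_lit 10))
    (@En.n l3195 (nat_lit 7712) (nat_lit 13) (nat_lit 10))
    (@En.n l3196 (nat_lit 3023) (nat_lit 14) (nat_lit 5))
    (@En.n l3106 (nat_lit 3033) (nat_lit 13) (nat_lit 5))
    (@En.n l17 (nat_lit 2971) (nat_lit 15) (nat_lit 2))))
  (@Cl.mk (nat_lit 0x200050005000b000a000a0007000e0005000200060006000b000b000e0009) (nat_lit 0x9150500000003) (nat_lit 16) Lb.e (@T16.mk En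
    (@En.n l14347 (nat_lit 2982) (nat_lit 10) (nat_lit 9))
    (@En.n l14644 (nat_lit 2983) (nat_lit 11) (nat_lit 14))
    (@En.n l15668 (nat_lit 2983) (nat_lit 12) (nat_lit 11))
    (@En.n l7271 (nat_lit 8062) (nat_lit 3) (nat_lit 11))
    (@En.n l538 (nat_lit 3021) (nat_lit 4) (nat_lit 6))
    (@En.n l6229 (nat_lit 1253) (nat_lit 5) (nat_lit 6))
    (@En.n l28 (nat_lit 2972) (nat_lit 6) (nat_lit 2))
    (@En.n l3990 (nat_lit 2967) (nat_lit 7) (nat_lit 5))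
    (@En.n l7563 (nat_lit 2689) (nat_lit 9) (nat_lit 14))
    (@En.n l17752 (nat_lit 2427) (nat_lit 2) (nat_lit 7))
    (@En.n l17753 (nat_lit 2987) (nat_lit 11) (nat_lit 10))
    (@En.i (nat_lit 2820) (nat_lit 12) (nat_lit 10))
    (@En.n l11082 (nat_lit 11327) (nat_lit 13) (nat_lit 11))
    (@En.n l17 (nat_lit 3020) (nat_lit 14) (nat_lit 5))
    (@En.n l17754 (nat_lit 3032) (nat_lit 7) (nat_lit 5))
    (@En.n l3 (nat_lit 2972) (nat_lit 15) (nat_lit 2))))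
  (@Cl.mk (nat_lit 0x200050005000a000e000b0002000c0009000600050004000b000b000e0007) (nat_lit 0x3110450004500) (nat_lit 16) Lb.e (@T16.mk En
    (@En.n l6183 (nat_lit 3220) (nat_lit 6) (nat_lit 7))
    (@En.n l3870 (nat_lit 2975) (nat_lit 4) (nat_lit 14))
    (@En.n l12560 (nat_lit 2975) (nat_lit 5) (nat_lit 11))
    (@En.n l3390 (nat_lit 6957) (nat_lit 3) (nat_lit 11))
    (@En.i (nat_lit 3234) (nat_lit 4) (nat_lit 4))
    (@En.n l8161 (nat_lit 2863) (nat_lit 5) (nat_lit 5))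
    (@En.n l11079 (nat_lit 1223) (nat_lit 6) (nat_lit 6))
    (@En.n l3390 (nat_lit 2405) (nat_lit 14) (nat_lit 9))
    (@En.n l21894 (nat_lit 3199) (nat_lit 9) (nat_lit 12))
    (@En.n l11 (nat_lit 2973) (nat_lit 9) (nat_lit 2))
    (@En.n l21895 (nat_lit 2967) (nat_lit 11) (nat_lit 11))
    (@En.n l3390 (nat_lit 1283) (nat_lit 12) (nat_lit 14))
    (@En.n l1253 (nat_lit 5272) (nat_lit 13) (nat_lit 10))
    (@En.n l17 (nat_lit 3230) (nat_lit 14) (nat_lit 5))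
    (@En.n l15958 (nat_lit 1374) (nat_lit 13) (nat_lit 5))
    (@En.n l3 (nat_lit 2973) (nat_lit 15) (nat_lit 2))))
  (@Cl.mk (nat_lit 0x20005000b000b000b000b00090005000500050005000c000b0007000e0004) (nat_lit 0x31105000096070) (nat_lit 16) Lb.e (@T16.mk En
    (@En.n l50 (nat_lit 1381) (nat_lit 15) (nat_lit 4))
    (@En.n l2807 (nat_lit 3076) (nat_lit 1) (nat_lit 14))
    (@En.n l6958 (nat_lit 1955) (nat_lit 2) (nat_lit 7))
    (@En.n l2863 (nat_lit 3706) (nat_lit 3) (nat_lit 11))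
    (@En.n l13976 (nat_lit 6667) (nat_lit 5) (nat_lit 12))
    (@En.n l24722 (nat_lit 3702) (nat_lit 5) (nat_lit 5))
    (@En.n l11 (nat_lit 1375) (nat_lit 6) (nat_lit 5))
    (@En.n l4976 (nat_lit 4087) (nat_lit 7) (nat_lit 5))
    (@En.n l23554 (nat_lit 3846) (nat_lit 8) (nat_lit 5))
    (@En.i (nat_lit 2667) (nat_lit 10) (nat_lit 9))
    (@En.n l55 (nat_lit 3751) (nat_lit 11) (nat_lit 11))
    (@En.n l9533 (nat_lit 2666) (nat_lit 12) (nat_lit 11))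
    (@En.n l148 (nat_lit 1170) (nat_lit 13) (nat_lit 11))
    (@En.n l17194 (nat_lit 5882) (nat_lit 14) (nat_lit 11))
    (@En.i (nat_lit 2967) (nat_lit 13) (nat_lit 5))
    (@En.n l18 (nat_lit 2974) (nat_lit 15) (nat_lit 2))))
  (@Cl.mk (nat_lit 0x2000a000e000b0002000c000a000600050004000b000e00060002000e0005) (nat_lit 0x7110050004c0010) (nat_lit 16) Lb.e (@T16.mk En
    (@En.n l8268 (nat_lit 2973) (nat_lit 14) (nat_lit 5))
    (@En.n l21794 (nat_lit 1375) (nat_lit 1) (nat_lit 14))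
    (@En.n l7 (nat_lit 2975) (nat_lit 2) (nat_lit 2))
    (@En.n l21795 (nat_lit 3222) (nat_lit 3) (nat_lit 6))
    (@En.i (nat_lit 13422) (nat_lit 4) (nat_lit 14))
    (@En.n l1510 (nat_lit 6958) (nat_lit 10) (nat_lit 11))
    (@En.i (nat_lit 3238) (nat_lit 6) (nat_lit 4))
    (@En.n l21796 (nat_lit 2861) (nat_lit 7) (nat_lit 5))
    (@En.n l21797 (nat_lit 1227) (nat_lit 8) (nat_lit 6))
    (@En.n l21798 (nat_lit 2406) (nat_lit 14) (nat_lit 10))
    (@En.n l1511 (nat_lit 3206) (nat_lit 11) (nat_lit 12))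
    (@En.n l3 (nat_lit 2975) (nat_lit 11) (nat_lit 2))
    (@En.n l21799 (nat_lit 2968) (nat_lit 13) (nat_lit 11))
    (@En.n l427 (nat_lit 1347) (nat_lit 1) (nat_lit 14))
    (@En.n l1529 (nat_lit 5273) (nat_lit 12) (nat_lit 10))
    (@En.n l17 (nat_lit 2975) (nat_lit 15) (nat_lit 2))))
noncomputable def a186 : T16 Cl := @T16.mk Cl
  (@Cl.mk (nat_lit 0x2000c000c000a000500040004000b000e00060002000e00050002000e000b) (nat_lit 0x1950003c0090059) (nat_lit 16) Lb.e (@T16.mk En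
    (@En.i (nat_lit 2968) (nat_lit 14) (nat_lit 11))
    (@En.n l2680 (nat_lit 11340) (nat_lit 1) (nat_lit 14))
    (@En.n l3 (nat_lit 2976) (nat_lit 2) (nat_lit 2))
    (@En.n l3010 (nat_lit 2970) (nat_lit 14) (nat_lit 5))
    (@En.n l2544 (nat_lit 4087) (nat_lit 1) (nat_lit 14))
    (@En.n l17 (nat_lit 2976) (nat_lit 5) (nat_lit 2))
    (@En.n l8795 (nat_lit 2039) (nat_lit 6) (nat_lit 6))
    (@En.n l2680 (nat_lit 12846) (nat_lit 4) (nat_lit 14))
    (@En.n l998 (nat_lit 7990) (nat_lit 9) (nat_lit 11))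
    (@En.n l3787 (nat_lit 4144) (nat_lit 12) (nat_lit 4))
    (@En.i (nat_lit 4032) (nat_lit 10) (nat_lit 4))
    (@En.i (nat_lit 2737) (nat_lit 8) (nat_lit 5))
    (@En.n l77 (nat_lit 2249) (nat_lit 13) (nat_lit 10))
    (@En.n l601 (nat_lit 4169) (nat_lit 4) (nat_lit 12))
    (@En.n l8796 (nat_lit 2522) (nat_lit 12) (nat_lit 12))
    (@En.n l11 (nat_lit 2976) (nat_lit 15) (nat_lit 2))))
  (@Cl.mk (nat_lit 0x2000a000600060005000b000e00060002000e00050002000a000a000e000b) (nat_lit 0x50003c00a000043) (nat_lit 16) Lb.e (@T16.mk En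
    (@En.n l8797 (nat_lit 2968) (nat_lit 12) (nat_lit 11))
    (@En.n l3193 (nat_lit 2174) (nat_lit 13) (nat_lit 14))
    (@En.i (nat_lit 3026) (nat_lit 6) (nat_lit 10))
    (@En.i (nat_lit 7716) (nat_lit 12) (nat_lit 10))
    (@En.n l107 (nat_lit 2977) (nat_lit 4) (nat_lit 2))
    (@En.i (nat_lit 2971) (nat_lit 14) (nat_lit 5))
    (@En.n l97 (nat_lit 3702) (nat_lit 1) (nat_lit 14))
    (@En.n l17 (nat_lit 2977) (nat_lit 7) (nat_lit 2))
    (@En.n l3187 (nat_lit 2038) (nat_lit 3) (nat_lit 6))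
    (@En.i (nat_lit 13103) (nat_lit 4) (nat_lit 14))
    (@En.i (nat_lit 12251) (nat_lit 11) (nat_lit 11))
    (@En.n l55 (nat_lit 3237) (nat_lit 6) (nat_lit 5))
    (@En.n l8798 (nat_lit 4144) (nat_lit 13) (nat_lit 6))
    (@En.n l245 (nat_lit 2765) (nat_lit 14) (nat_lit 6))
    (@En.n l4942 (nat_lit 6342) (nat_lit 10) (nat_lit 10))
    (@En.n l7 (nat_lit 2977) (nat_lit 15) (nat_lit 2))))
  (@Cl.mk (nat_lit 0x2000a000a000a000a000900090006000600060006000c00070007000e0004) (nat_lit 0x872345000060080) (nat_lit 16) Lb.e (@T16.mk En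
    (@En.n l13906 (nat_lit 2918) (nat_lit 15) (nat_lit 4))
    (@En.i (nat_lit 1955) (nat_lit 1) (nat_lit 14))
    (@En.n l18608 (nat_lit 1894) (nat_lit 9) (nat_lit 7))
    (@En.n l26761 (nat_lit 1557) (nat_lit 3) (nat_lit 7))
    (@En.n l34351 (nat_lit 5606) (nat_lit 5) (nat_lit 12))
    (@En.n l24496 (nat_lit 2038) (nat_lit 5) (nat_lit 6))
    (@En.n l34352 (nat_lit 3222) (nat_lit 6) (nat_lit 6))
    (@En.n l34353 (nat_lit 2039) (nat_lit 10) (nat_lit 6))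
    (@En.n l4969 (nat_lit 6888) (nat_lit 8) (nat_lit 6))
    (@En.n l34354 (nat_lit 2968) (nat_lit 10) (nat_lit 9))
    (@En.n l644 (nat_lit 2411) (nat_lit 11) (nat_lit 9))
    (@En.n l77 (nat_lit 2979) (nat_lit 12) (nat_lit 10))
    (@En.n l4512 (nat_lit 2926) (nat_lit 6) (nat_lit 10))
    (@En.n l619 (nat_lit 2981) (nat_lit 6) (nat_lit 10))
    (@En.i (nat_lit 7440) (nat_lit 14) (nat_lit 10))
    (@En.n l17 (nat_lit 2978) (nat_lit 15) (nat_lit 2))))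
  (@Cl.mk (nat_lit 0x2000b000b000a0008000800050005000e00060002000c00080008000e0004) (nat_lit 0x6024400200a52b0) (nat_lit 16) Lb.e (@T16.mk En
    (@En.n l27595 (nat_lit 2914) (nat_lit 10) (nat_lit 4))
    (@En.i (nat_lit 1953) (nat_lit 1) (nat_lit 14))
    (@En.n l18607 (nat_lit 1895) (nat_lit 8) (nat_lit 8))
    (@En.n l16178 (nat_lit 1974) (nat_lit 14) (nat_lit 8))
    (@En.n l34351 (nat_lit 11543) (nat_lit 5) (nat_lit 12))
    (@En.n l7 (nat_lit 2979) (nat_lit 5) (nat_lit 2))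
    (@En.i (nat_lit 2978) (nat_lit 6) (nat_lit 6))
    (@En.n l17788 (nat_lit 3193) (nat_lit 1) (nat_lit 14))
    (@En.n l11 (nat_lit 2920) (nat_lit 11) (nat_lit 5))
    (@En.n l4976 (nat_lit 6893) (nat_lit 9) (nat_lit 5))
    (@En.n l31485 (nat_lit 2988) (nat_lit 4) (nat_lit 8))
    (@En.i (nat_lit 7694) (nat_lit 5) (nat_lit 8))
    (@En.i (nat_lit 3037) (nat_lit 13) (nat_lit 10))
    (@En.n l4314 (nat_lit 2980) (nat_lit 14) (nat_lit 11))
    (@En.n l34557 (nat_lit 7437) (nat_lit 9) (nat_lit 11))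
    (@En.n l17 (nat_lit 2979) (nat_lit 15) (nat_lit 2))))
  (@Cl.mk (nat_lit 0x2000b000900070007000e00050002000e00070002000c00090009000e0004) (nat_lit 0x9000c00100022a0) (nat_lit 16) Lb.e (@T16.mk En
    (@En.n l31089 (nat_lit 2985) (nat_lit 10) (nat_lit 4))
    (@En.i (nat_lit 3942) (nat_lit 1) (nat_lit 14))
    (@En.n l31090 (nat_lit 1890) (nat_lit 2) (nat_lit 9))
    (@En.n l13377 (nat_lit 1971) (nat_lit 14) (nat_lit 9))
    (@En.n l31091 (nat_lit 11545) (nat_lit 12) (nat_lit 12))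
    (@En.n l3 (nat_lit 2980) (nat_lit 5) (nat_lit 2))
    (@En.n l1573 (nat_lit 2981) (nat_lit 14) (nat_lit 7))
    (@En.n l31092 (nat_lit 615) (nat_lit 1) (nat_lit 14))
    (@En.n l17 (nat_lit 2980) (nat_lit 8) (nat_lit 2))
    (@En.n l8934 (nat_lit 2979) (nat_lit 9) (nat_lit 5))
    (@En.n l998 (nat_lit 8270) (nat_lit 1) (nat_lit 14))
    (@En.n l31093 (nat_lit 2986) (nat_lit 5) (nat_lit 7))
    (@En.i (nat_lit 8284) (nat_lit 6) (nat_lit 7))
    (@En.n l31094 (nat_lit 2992) (nat_lit 14) (nat_lit 9))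
    (@En.n l9726 (nat_lit 7942) (nat_lit 9) (nat_lit 11))
    (@En.n l28 (nat_lit 2980) (nat_lit 15) (nat_lit 2))))
  (@Cl.mk (nat_lit 0x200070007000c00080008000e00040002000a0009000900080008000e0006) (nat_lit 0x712a0061144c0) (nat_lit 16) Lb.e (@T16.mk En
    (@En.n l117 (nat_lit 2978) (nat_lit 8) (nat_lit 6))
    (@En.n l4073 (nat_lit 8271) (nat_lit 1) (nat_lit 14))
    (@En.n l30573 (nat_lit 2983) (nat_lit 2) (nat_lit 8))
    (@En.n l644 (nat_lit 7531) (nat_lit 3) (nat_lit 8))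
    (@En.n l7585 (nat_lit 2980) (nat_lit 13) (nat_lit 9))
    (@En.n l4002 (nat_lit 2951) (nat_lit 5) (nat_lit 9))
    (@En.n l19200 (nat_lit 11323) (nat_lit 7) (nat_lit 10))
    (@En.n l17 (nat_lit 2981) (nat_lit 7) (nat_lit 2))
    (@En.n l19156 (nat_lit 2982) (nat_lit 8) (nat_lit 4))
    (@En.i (nat_lit 2076) (nat_lit 10) (nat_lit 14))
    (@En.n l30574 (nat_lit 1892) (nat_lit 11) (nat_lit 8))
    (@En.n l10214 (nat_lit 1858) (nat_lit 12) (nat_lit 8))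
    (@En.n l4002 (nat_lit 6590) (nat_lit 13) (nat_lit 12))
    (@En.n l30575 (nat_lit 2984) (nat_lit 14) (nat_lit 7))
    (@En.n l30576 (nat_lit 1346) (nat_lit 6) (nat_lit 7))
    (@En.n l11 (nat_lit 2981) (nat_lit 15) (nat_lit 2))))
  (@Cl.mk (nat_lit 0x200070007000c000c0009000900040004000a0009000900070007000e0006) (nat_lit 0x78230080200c0) (nat_lit 16) Lb.e (@T16.mk En
    (@En.n l31065 (nat_lit 2918) (nat_lit 7) (nat_lit 6))
    (@En.n l1285 (nat_lit 8272) (nat_lit 1) (nat_lit 14))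
    (@En.n l25891 (nat_lit 2972) (nat_lit 9) (nat_lit 7))
    (@En.n l11992 (nat_lit 7530) (nat_lit 3) (nat_lit 7))
    (@En.n l575 (nat_lit 2985) (nat_lit 7) (nat_lit 9))
    (@En.i (nat_lit 3006) (nat_lit 5) (nat_lit 9))
    (@En.n l15824 (nat_lit 11328) (nat_lit 7) (nat_lit 10))
    (@En.n l77 (nat_lit 3132) (nat_lit 7) (nat_lit 4))
    (@En.n l16170 (nat_lit 2989) (nat_lit 8) (nat_lit 4))
    (@En.n l5653 (nat_lit 1893) (nat_lit 10) (nat_lit 9))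
    (@En.n l14094 (nat_lit 2990) (nat_lit 11) (nat_lit 9))
    (@En.n l15917 (nat_lit 2981) (nat_lit 12) (nat_lit 12))
    (@En.n l27852 (nat_lit 6604) (nat_lit 13) (nat_lit 12))
    (@En.n l31066 (nat_lit 3025) (nat_lit 14) (nat_lit 7))
    (@En.n l30030 (nat_lit 1279) (nat_lit 5) (nat_lit 7))
    (@En.n l3 (nat_lit 2982) (nat_lit 15) (nat_lit 2))))
  (@Cl.mk (nat_lit 0x200060006000b000e00080002000e00050002000b000a000a0008000e0005) (nat_lit 0x9c20100916350) (nat_lit 16) Lb.e (@T16.mk En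
    (@En.n l21062 (nat_lit 2968) (nat_lit 9) (nat_lit 5))
    (@En.i (nat_lit 2690) (nat_lit 1) (nat_lit 14))
    (@En.n l3340 (nat_lit 2428) (nat_lit 2) (nat_lit 8))
    (@En.n l33454 (nat_lit 2986) (nat_lit 6) (nat_lit 10))
    (@En.n l33455 (nat_lit 2819) (nat_lit 4) (nat_lit 10))
    (@En.n l7212 (nat_lit 11325) (nat_lit 12) (nat_lit 11))
    (@En.n l107 (nat_lit 2983) (nat_lit 6) (nat_lit 2))
    (@En.n l15234 (nat_lit 2972) (nat_lit 14) (nat_lit 5))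
    (@En.n l33456 (nat_lit 1170) (nat_lit 1) (nat_lit 14))
    (@En.n l17 (nat_lit 2983) (nat_lit 9) (nat_lit 2))
    (@En.n l33457 (nat_lit 2981) (nat_lit 11) (nat_lit 8))
    (@En.n l25582 (nat_lit 13381) (nat_lit 4) (nat_lit 14))
    (@En.i (nat_lit 8061) (nat_lit 13) (nat_lit 11))
    (@En.n l21068 (nat_lit 3026) (nat_lit 14) (nat_lit 6))
    (@En.n l4167 (nat_lit 1343) (nat_lit 7) (nat_lit 6))
    (@En.n l7 (nat_lit 2983) (nat_lit 15) (nat_lit 2))))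
  (@Cl.mk (nat_lit 0x20007000c00070007000e000400020009000e0009000200090009000e0007) (nat_lit 0x400a0073205520) (nat_lit 16) Lb.e (@T16.mk En
    (@En.n l644 (nat_lit 2038) (nat_lit 7) (nat_lit 7))
    (@En.n l27836 (nat_lit 8274) (nat_lit 13) (nat_lit 14))
    (@En.n l4003 (nat_lit 3026) (nat_lit 2) (nat_lit 9))
    (@En.n l21782 (nat_lit 9265) (nat_lit 3) (nat_lit 9))
    (@En.n l17 (nat_lit 2984) (nat_lit 4) (nat_lit 2))
    (@En.n l30493 (nat_lit 2981) (nat_lit 5) (nat_lit 9))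
    (@En.n l27836 (nat_lit 3412) (nat_lit 7) (nat_lit 14))
    (@En.n l15985 (nat_lit 9634) (nat_lit 2) (nat_lit 9))
    (@En.n l28 (nat_lit 2984) (nat_lit 8) (nat_lit 2))
    (@En.i (nat_lit 3025) (nat_lit 9) (nat_lit 4))
    (@En.n l30494 (nat_lit 2077) (nat_lit 11) (nat_lit 14))
    (@En.n l3498 (nat_lit 3667) (nat_lit 12) (nat_lit 7))
    (@En.n l12856 (nat_lit 1861) (nat_lit 13) (nat_lit 7))
    (@En.n l15985 (nat_lit 12252) (nat_lit 9) (nat_lit 12))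
    (@En.n l564 (nat_lit 3477) (nat_lit 5) (nat_lit 7))
    (@En.n l50 (nat_lit 2984) (nat_lit 15) (nat_lit 2))))
  (@Cl.mk (nat_lit 0x2000c000c000a000a00040004000b000900060006000e00050002000e0007) (nat_lit 0x133009100c0010) (nat_lit 16) Lb.e (@T16.mk En
    (@En.i (nat_lit 2982) (nat_lit 14) (nat_lit 7))
    (@En.n l16165 (nat_lit 990) (nat_lit 1) (nat_lit 14))
    (@En.n l3 (nat_lit 2985) (nat_lit 2) (nat_lit 2))
    (@En.n l16166 (nat_lit 2914) (nat_lit 3) (nat_lit 5))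
    (@En.n l1285 (nat_lit 4628) (nat_lit 1) (nat_lit 14))
    (@En.n l16167 (nat_lit 2987) (nat_lit 10) (nat_lit 6))
    (@En.n l16168 (nat_lit 8285) (nat_lit 6) (nat_lit 6))
    (@En.i (nat_lit 1219) (nat_lit 4) (nat_lit 9))
    (@En.n l16169 (nat_lit 11313) (nat_lit 9) (nat_lit 11))
    (@En.n l77 (nat_lit 3133) (nat_lit 12) (nat_lit 4))
    (@En.n l16170 (nat_lit 2991) (nat_lit 10) (nat_lit 4))
    (@En.n l5653 (nat_lit 1891) (nat_lit 12) (nat_lit 10))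
    (@En.n l14094 (nat_lit 3143) (nat_lit 13) (nat_lit 10))
    (@En.n l16171 (nat_lit 2980) (nat_lit 4) (nat_lit 12))
    (@En.n l16172 (nat_lit 11546) (nat_lit 12) (nat_lit 12))
    (@En.n l11 (nat_lit 2985) (nat_lit 15) (nat_lit 2))))
  (@Cl.mk (nat_lit 0x2000b000e00090002000e00050002000c000a0007000e00040002000e0006) (nat_lit 0xb30b00050c0010) (nat_lit 16) Lb.e (@T16.mk En
    (@En.n l23517 (nat_lit 2983) (nat_lit 14) (nat_lit 6))
    (@En.n l23518 (nat_lit 611) (nat_lit 1) (nat_lit 14))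
    (@En.n l17 (nat_lit 2986) (nat_lit 2) (nat_lit 2))
    (@En.n l23519 (nat_lit 2988) (nat_lit 3) (nat_lit 4))
    (@En.n l23517 (nat_lit 2701) (nat_lit 1) (nat_lit 14))
    (@En.i (nat_lit 2101) (nat_lit 5) (nat_lit 7))
    (@En.n l23520 (nat_lit 1227) (nat_lit 14) (nat_lit 10))
    (@En.n l23521 (nat_lit 11320) (nat_lit 12) (nat_lit 12))
    (@En.n l28 (nat_lit 2986) (nat_lit 8) (nat_lit 2))
    (@En.n l23522 (nat_lit 2987) (nat_lit 14) (nat_lit 5))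
    (@En.i (nat_lit 3750) (nat_lit 1) (nat_lit 14))
    (@En.n l110 (nat_lit 2986) (nat_lit 11) (nat_lit 2))
    (@En.n l644 (nat_lit 2980) (nat_lit 3) (nat_lit 9))
    (@En.n l12443 (nat_lit 13478) (nat_lit 4) (nat_lit 14))
    (@En.n l23523 (nat_lit 8067) (nat_lit 12) (nat_lit 11))
    (@En.n l3 (nat_lit 2986) (nat_lit 15) (nat_lit 2))))
  (@Cl.mk (nat_lit 0x200050005000c000a0006000e00040002000e00060002000b000b000e000a) (nat_lit 0xa40c0010091c4) (nat_lit 16) Lb.e (@T16.mk En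
    (@En.n l21240 (nat_lit 2985) (nat_lit 12) (nat_lit 10))
    (@En.n l21241 (nat_lit 2986) (nat_lit 13) (nat_lit 14))
    (@En.n l21242 (nat_lit 2986) (nat_lit 14) (nat_lit 11))
    (@En.n l17803 (nat_lit 8068) (nat_lit 3) (nat_lit 11))
    (@En.n l17 (nat_lit 2987) (nat_lit 4) (nat_lit 2))
    (@En.n l17033 (nat_lit 2972) (nat_lit 5) (nat_lit 6))
    (@En.n l5 (nat_lit 609) (nat_lit 7) (nat_lit 14))
    (@En.n l50 (nat_lit 2987) (nat_lit 7) (nat_lit 2))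
    (@En.n l7 (nat_lit 2903) (nat_lit 8) (nat_lit 4))
    (@En.i (nat_lit 2691) (nat_lit 10) (nat_lit 14))
    (@En.n l21241 (nat_lit 2099) (nat_lit 5) (nat_lit 6))
    (@En.n l8452 (nat_lit 1223) (nat_lit 12) (nat_lit 10))
    (@En.n l645 (nat_lit 11319) (nat_lit 13) (nat_lit 12))
    (@En.n l21243 (nat_lit 2905) (nat_lit 14) (nat_lit 5))
    (@En.i (nat_lit 3710) (nat_lit 13) (nat_lit 5))
    (@En.n l936 (nat_lit 2987) (nat_lit 15) (nat_lit 2))))
  (@Cl.mk (nat_lit 0x2000b000e00080002000e00050002000c000c000b000800040004000e0005) (nat_lit 0x9b60a0071630060) (nat_lit 16) Lb.e (@T16.mk En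
    (@En.n l7 (nat_lit 2968) (nat_lit 7) (nat_lit 5))
    (@En.n l2032 (nat_lit 3468) (nat_lit 1) (nat_lit 14))
    (@En.n l575 (nat_lit 4169) (nat_lit 2) (nat_lit 4))
    (@En.n l8966 (nat_lit 2998) (nat_lit 3) (nat_lit 4))
    (@En.n l21187 (nat_lit 2102) (nat_lit 4) (nat_lit 8))
    (@En.n l1578 (nat_lit 2737) (nat_lit 13) (nat_lit 11))
    (@En.n l21188 (nat_lit 2986) (nat_lit 7) (nat_lit 12))
    (@En.n l10725 (nat_lit 7441) (nat_lit 12) (nat_lit 12))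
    (@En.n l3 (nat_lit 2988) (nat_lit 8) (nat_lit 2))
    (@En.n l21189 (nat_lit 2903) (nat_lit 14) (nat_lit 5))
    (@En.n l2544 (nat_lit 3751) (nat_lit 1) (nat_lit 14))
    (@En.n l17 (nat_lit 2988) (nat_lit 11) (nat_lit 2))
    (@En.n l8965 (nat_lit 2979) (nat_lit 3) (nat_lit 8))
    (@En.n l11595 (nat_lit 12845) (nat_lit 4) (nat_lit 14))
    (@En.n l998 (nat_lit 4178) (nat_lit 2) (nat_lit 11))
    (@En.n l50 (nat_lit 2988) (nat_lit 15) (nat_lit 2))))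
  (@Cl.mk (nat_lit 0x200070007000c0007000d000a00040003000a0009000900060009000e0006) (nat_lit 0x6013000000120) (nat_lit 16) Lb.e (@T16.mk En
    (@En.n l14325 (nat_lit 3148) (nat_lit 8) (nat_lit 6))
    (@En.n l37775 (nat_lit 9110) (nat_lit 1) (nat_lit 14))
    (@En.n l6997 (nat_lit 1165) (nat_lit 9) (nat_lit 9))
    (@En.n l6958 (nat_lit 6340) (nat_lit 3) (nat_lit 6))
    (@En.n l61 (nat_lit 2991) (nat_lit 7) (nat_lit 9))
    (@En.n l39897 (nat_lit 3016) (nat_lit 5) (nat_lit 9))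
    (@En.n l6997 (nat_lit 11245) (nat_lit 7) (nat_lit 10))
    (@En.n l11 (nat_lit 3141) (nat_lit 7) (nat_lit 3))
    (@En.n l39898 (nat_lit 2981) (nat_lit 8) (nat_lit 4))
    (@En.n l24038 (nat_lit 3146) (nat_lit 10) (nat_lit 10))
    (@En.n l1144 (nat_lit 2073) (nat_lit 11) (nat_lit 13))
    (@En.n l7527 (nat_lit 3134) (nat_lit 12) (nat_lit 7))
    (@En.n l2828 (nat_lit 5166) (nat_lit 13) (nat_lit 12))
    (@En.n l39899 (nat_lit 4217) (nat_lit 9) (nat_lit 7))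
    (@En.n l39900 (nat_lit 5090) (nat_lit 6) (nat_lit 7))
    (@En.n l50 (nat_lit 2989) (nat_lit 15) (nat_lit 2))))
  (@Cl.mk (nat_lit 0x200080008000d000900080003000b000900080008000700050008000e0007) (nat_lit 0x6120801000530) (nat_lit 16) Lb.e (@T16.mk En
    (@En.n l117 (nat_lit 3149) (nat_lit 6) (nat_lit 7))
    (@En.n l322 (nat_lit 6252) (nat_lit 1) (nat_lit 14))
    (@En.i (nat_lit 2981) (nat_lit 2) (nat_lit 8))
    (@En.n l17187 (nat_lit 3135) (nat_lit 3) (nat_lit 5))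
    (@En.n l644 (nat_lit 7498) (nat_lit 4) (nat_lit 7))
    (@En.n l77 (nat_lit 3143) (nat_lit 8) (nat_lit 8))
    (@En.n l2727 (nat_lit 1325) (nat_lit 6) (nat_lit 8))
    (@En.n l19200 (nat_lit 10467) (nat_lit 14) (nat_lit 9))
    (@En.n l30998 (nat_lit 3145) (nat_lit 9) (nat_lit 11))
    (@En.n l2243 (nat_lit 3146) (nat_lit 9) (nat_lit 3))
    (@En.n l837 (nat_lit 1648) (nat_lit 11) (nat_lit 8))
    (@En.n l23510 (nat_lit 1814) (nat_lit 12) (nat_lit 9))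
    (@En.n l4002 (nat_lit 6576) (nat_lit 13) (nat_lit 13))
    (@En.n l40923 (nat_lit 4212) (nat_lit 8) (nat_lit 8))
    (@En.n l38974 (nat_lit 5083) (nat_lit 4) (nat_lit 8))
    (@En.n l11 (nat_lit 2990) (nat_lit 15) (nat_lit 2))))
  (@Cl.mk (nat_lit 0x2000c0008000d000b00040003000b000900050008000e00050002000e0007) (nat_lit 0x2000705c0020) (nat_lit 16) Lb.e (@T16.mk En
    (@En.i (nat_lit 2989) (nat_lit 14) (nat_lit 7))
    (@En.n l7145 (nat_lit 916) (nat_lit 1) (nat_lit 14))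
    (@En.n l50 (nat_lit 2991) (nat_lit 2) (nat_lit 2))
    (@En.n l30899 (nat_lit 4471) (nat_lit 3) (nat_lit 5))
    (@En.n l476 (nat_lit 8233) (nat_lit 1) (nat_lit 14))
    (@En.n l17580 (nat_lit 3709) (nat_lit 10) (nat_lit 8))
    (@En.n l30900 (nat_lit 7920) (nat_lit 6) (nat_lit 5))
    (@En.n l10969 (nat_lit 3871) (nat_lit 4) (nat_lit 9))
    (@En.n l16196 (nat_lit 11250) (nat_lit 9) (nat_lit 11))
    (@En.n l11 (nat_lit 3140) (nat_lit 9) (nat_lit 3))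
    (@En.n l30900 (nat_lit 2980) (nat_lit 0) (nat_lit 4))
    (@En.i (nat_lit 3144) (nat_lit 12) (nat_lit 11))
    (@En.n l1144 (nat_lit 3940) (nat_lit 13) (nat_lit 13))
    (@En.n l7527 (nat_lit 3138) (nat_lit 14) (nat_lit 8))
    (@En.i (nat_lit 10968) (nat_lit 12) (nat_lit 12))
    (@En.n l17 (nat_lit 2991) (nat_lit 15) (nat_lit 2))))
noncomputable def a187 : T16 Cl := @T16.mk Cl
  (@Cl.mk (nat_lit 0x2000900060006000e000c0002000d000700040003000c000a000a000e0004) (nat_lit 0x700c401000a12b0) (nat_lit 16) Lb.e (@T16.mk En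
    (@En.n l77 (nat_lit 1219) (nat_lit 6) (nat_lit 4))
    (@En.n l15910 (nat_lit 3879) (nat_lit 8) (nat_lit 14))
    (@En.n l15911 (nat_lit 684) (nat_lit 2) (nat_lit 10))
    (@En.n l15912 (nat_lit 853) (nat_lit 3) (nat_lit 10))
    (@En.n l15913 (nat_lit 5590) (nat_lit 11) (nat_lit 12))
    (@En.n l11 (nat_lit 2993) (nat_lit 5) (nat_lit 3))
    (@En.n l15914 (nat_lit 2994) (nat_lit 6) (nat_lit 4))
    (@En.n l15915 (nat_lit 2951) (nat_lit 14) (nat_lit 7))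
    (@En.n l15916 (nat_lit 485) (nat_lit 9) (nat_lit 13))
    (@En.n l3 (nat_lit 2992) (nat_lit 9) (nat_lit 2))
    (@En.n l15917 (nat_lit 2759) (nat_lit 11) (nat_lit 12))
    (@En.n l15918 (nat_lit 8915) (nat_lit 12) (nat_lit 14))
    (@En.n l15919 (nat_lit 1227) (nat_lit 13) (nat_lit 6))
    (@En.n l15912 (nat_lit 296) (nat_lit 14) (nat_lit 6))
    (@En.n l15920 (nat_lit 7481) (nat_lit 4) (nat_lit 9))
    (@En.n l7 (nat_lit 2992) (nat_lit 15) (nat_lit 2))))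
  (@Cl.mk (nat_lit 0x2000800060006000e000d0002000d000300080003000c000a000a000e0004) (nat_lit 0x500a402020a12b0) (nat_lit 16) Lb.e (@T16.mk En
    (@En.n l77 (nat_lit 1218) (nat_lit 6) (nat_lit 4))
    (@En.n l15910 (nat_lit 3876) (nat_lit 8) (nat_lit 14))
    (@En.n l15911 (nat_lit 686) (nat_lit 2) (nat_lit 10))
    (@En.n l15912 (nat_lit 854) (nat_lit 3) (nat_lit 10))
    (@En.i (nat_lit 6086) (nat_lit 11) (nat_lit 12))
    (@En.i (nat_lit 2992) (nat_lit 5) (nat_lit 3))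
    (@En.n l26448 (nat_lit 3412) (nat_lit 6) (nat_lit 8))
    (@En.n l117 (nat_lit 2758) (nat_lit 7) (nat_lit 3))
    (@En.i (nat_lit 612) (nat_lit 0) (nat_lit 13))
    (@En.n l3 (nat_lit 2993) (nat_lit 9) (nat_lit 2))
    (@En.i (nat_lit 2758) (nat_lit 11) (nat_lit 13))
    (@En.n l26124 (nat_lit 8914) (nat_lit 12) (nat_lit 14))
    (@En.n l15919 (nat_lit 1226) (nat_lit 13) (nat_lit 6))
    (@En.n l15912 (nat_lit 307) (nat_lit 14) (nat_lit 6))
    (@En.n l30495 (nat_lit 6000) (nat_lit 4) (nat_lit 8))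
    (@En.n l7 (nat_lit 2993) (nat_lit 15) (nat_lit 2))))
  (@Cl.mk (nat_lit 0x2000b00060006000d000c00050003000e00040002000c000a000a000e0004) (nat_lit 0xb300100032b0) (nat_lit 16) Lb.e (@T16.mk En
    (@En.n l107 (nat_lit 2997) (nat_lit 10) (nat_lit 4))
    (@En.i (nat_lit 3754) (nat_lit 12) (nat_lit 14))
    (@En.n l24357 (nat_lit 685) (nat_lit 2) (nat_lit 10))
    (@En.i (nat_lit 3329) (nat_lit 3) (nat_lit 10))
    (@En.n l14488 (nat_lit 11024) (nat_lit 12) (nat_lit 12))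
    (@En.n l17 (nat_lit 2994) (nat_lit 5) (nat_lit 2))
    (@En.n l24358 (nat_lit 2759) (nat_lit 6) (nat_lit 4))
    (@En.n l13266 (nat_lit 613) (nat_lit 1) (nat_lit 14))
    (@En.n l50 (nat_lit 2995) (nat_lit 8) (nat_lit 3))
    (@En.n l1422 (nat_lit 2980) (nat_lit 9) (nat_lit 5))
    (@En.n l7162 (nat_lit 2727) (nat_lit 11) (nat_lit 12))
    (@En.n l1836 (nat_lit 7533) (nat_lit 12) (nat_lit 13))
    (@En.n l18617 (nat_lit 2998) (nat_lit 6) (nat_lit 6))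
    (@En.n l18618 (nat_lit 290) (nat_lit 14) (nat_lit 6))
    (@En.n l18619 (nat_lit 7477) (nat_lit 9) (nat_lit 11))
    (@En.n l67 (nat_lit 2994) (nat_lit 15) (nat_lit 2))))
  (@Cl.mk (nat_lit 0x2000c00060006000d0004000d0003000e00030002000c000a000a000e0004) (nat_lit 0x700a050300082b0) (nat_lit 16) Lb.e (@T16.mk En
    (@En.n l107 (nat_lit 2996) (nat_lit 10) (nat_lit 4))
    (@En.i (nat_lit 4048) (nat_lit 12) (nat_lit 14))
    (@En.n l18615 (nat_lit 694) (nat_lit 2) (nat_lit 10))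
    (@En.i (nat_lit 3327) (nat_lit 14) (nat_lit 10))
    (@En.n l14488 (nat_lit 11022) (nat_lit 12) (nat_lit 12))
    (@En.n l17 (nat_lit 2995) (nat_lit 5) (nat_lit 2))
    (@En.n l117 (nat_lit 2727) (nat_lit 6) (nat_lit 3))
    (@En.n l1836 (nat_lit 13667) (nat_lit 0) (nat_lit 14))
    (@En.i (nat_lit 2994) (nat_lit 8) (nat_lit 3))
    (@En.n l18616 (nat_lit 2993) (nat_lit 10) (nat_lit 13))
    (@En.n l14485 (nat_lit 3036) (nat_lit 4) (nat_lit 4))
    (@En.n l1836 (nat_lit 7534) (nat_lit 6) (nat_lit 13))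
    (@En.n l18617 (nat_lit 2733) (nat_lit 6) (nat_lit 6))
    (@En.n l18618 (nat_lit 214) (nat_lit 14) (nat_lit 6))
    (@En.n l18619 (nat_lit 7426) (nat_lit 9) (nat_lit 12))
    (@En.n l67 (nat_lit 2995) (nat_lit 15) (nat_lit 2))))
  (@Cl.mk (nat_lit 0x2000c000c000b000b00040004000c00050005000d0004000d0003000e0003) (nat_lit 0xa14300700a02030) (nat_lit 16) Lb.e (@T16.mk En
    (@En.n l34397 (nat_lit 2723) (nat_lit 15) (nat_lit 3))
    (@En.n l27822 (nat_lit 13655) (nat_lit 0) (nat_lit 14))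
    (@En.i (nat_lit 2997) (nat_lit 2) (nat_lit 3))
    (@En.n l14576 (nat_lit 1218) (nat_lit 0) (nat_lit 13))
    (@En.n l9530 (nat_lit 3035) (nat_lit 4) (nat_lit 4))
    (@En.n l27822 (nat_lit 4623) (nat_lit 6) (nat_lit 13))
    (@En.n l22253 (nat_lit 2734) (nat_lit 11) (nat_lit 5))
    (@En.n l18618 (nat_lit 347) (nat_lit 7) (nat_lit 5))
    (@En.n l11010 (nat_lit 7303) (nat_lit 9) (nat_lit 12))
    (@En.n l27823 (nat_lit 967) (nat_lit 12) (nat_lit 4))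
    (@En.i (nat_lit 3000) (nat_lit 10) (nat_lit 4))
    (@En.n l18615 (nat_lit 962) (nat_lit 5) (nat_lit 11))
    (@En.n l27824 (nat_lit 3340) (nat_lit 13) (nat_lit 11))
    (@En.n l97 (nat_lit 2995) (nat_lit 4) (nat_lit 12))
    (@En.n l1236 (nat_lit 11920) (nat_lit 12) (nat_lit 12))
    (@En.n l17 (nat_lit 2996) (nat_lit 15) (nat_lit 2))))
  (@Cl.mk (nat_lit 0x2000c000c000b000b00040004000b00050005000d000c00050003000e0004) (nat_lit 0xa14300000b30010) (nat_lit 16) Lb.e (@T16.mk En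
    (@En.n l27818 (nat_lit 2724) (nat_lit 14) (nat_lit 4))
    (@En.n l27819 (nat_lit 457) (nat_lit 1) (nat_lit 14))
    (@En.n l50 (nat_lit 2996) (nat_lit 2) (nat_lit 3))
    (@En.n l27820 (nat_lit 2985) (nat_lit 3) (nat_lit 5))
    (@En.n l27821 (nat_lit 2723) (nat_lit 4) (nat_lit 12))
    (@En.n l27822 (nat_lit 4622) (nat_lit 6) (nat_lit 13))
    (@En.n l22253 (nat_lit 2895) (nat_lit 11) (nat_lit 5))
    (@En.n l18618 (nat_lit 346) (nat_lit 7) (nat_lit 5))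
    (@En.n l11010 (nat_lit 7131) (nat_lit 9) (nat_lit 11))
    (@En.n l27823 (nat_lit 2898) (nat_lit 12) (nat_lit 4))
    (@En.i (nat_lit 2999) (nat_lit 10) (nat_lit 4))
    (@En.n l24357 (nat_lit 693) (nat_lit 5) (nat_lit 11))
    (@En.n l27824 (nat_lit 3335) (nat_lit 13) (nat_lit 11))
    (@En.n l97 (nat_lit 2994) (nat_lit 4) (nat_lit 12))
    (@En.n l1236 (nat_lit 11911) (nat_lit 12) (nat_lit 12))
    (@En.n l17 (nat_lit 2997) (nat_lit 15) (nat_lit 2))))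
  (@Cl.mk (nat_lit 0x2000b000e000a0002000e00050002000c0006000d000c00040003000e0004) (nat_lit 0x9c4090070a30010) (nat_lit 16) Lb.e (@T16.mk En
    (@En.n l15998 (nat_lit 2764) (nat_lit 7) (nat_lit 4))
    (@En.n l15999 (nat_lit 601) (nat_lit 1) (nat_lit 14))
    (@En.n l50 (nat_lit 2733) (nat_lit 2) (nat_lit 3))
    (@En.n l6045 (nat_lit 2986) (nat_lit 3) (nat_lit 4))
    (@En.n l217 (nat_lit 2730) (nat_lit 12) (nat_lit 12))
    (@En.n l6002 (nat_lit 2697) (nat_lit 6) (nat_lit 13))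
    (@En.n l16000 (nat_lit 301) (nat_lit 14) (nat_lit 6))
    (@En.n l16001 (nat_lit 7473) (nat_lit 12) (nat_lit 12))
    (@En.n l3 (nat_lit 2998) (nat_lit 8) (nat_lit 2))
    (@En.n l16002 (nat_lit 2895) (nat_lit 14) (nat_lit 5))
    (@En.i (nat_lit 3752) (nat_lit 1) (nat_lit 14))
    (@En.n l936 (nat_lit 2998) (nat_lit 11) (nat_lit 2))
    (@En.n l6000 (nat_lit 2994) (nat_lit 3) (nat_lit 10))
    (@En.n l16003 (nat_lit 13210) (nat_lit 4) (nat_lit 14))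
    (@En.n l1953 (nat_lit 4177) (nat_lit 2) (nat_lit 11))
    (@En.n l17 (nat_lit 2998) (nat_lit 15) (nat_lit 2))))
  (@Cl.mk (nat_lit 0x2000c0009000d000c00040003000b00040007000d000c00050003000e0004) (nat_lit 0x5b300000b30060) (nat_lit 16) Lb.e (@T16.mk En
    (@En.n l50 (nat_lit 3873) (nat_lit 6) (nat_lit 4))
    (@En.n l13266 (nat_lit 461) (nat_lit 1) (nat_lit 14))
    (@En.n l50 (nat_lit 3000) (nat_lit 2) (nat_lit 3))
    (@En.n l9530 (nat_lit 2991) (nat_lit 3) (nat_lit 5))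
    (@En.n l217 (nat_lit 3001) (nat_lit 4) (nat_lit 12))
    (@En.n l1836 (nat_lit 8241) (nat_lit 6) (nat_lit 13))
    (@En.n l9530 (nat_lit 3711) (nat_lit 11) (nat_lit 7))
    (@En.i (nat_lit 3328) (nat_lit 7) (nat_lit 4))
    (@En.n l11010 (nat_lit 7134) (nat_lit 9) (nat_lit 11))
    (@En.n l10862 (nat_lit 3339) (nat_lit 9) (nat_lit 3))
    (@En.i (nat_lit 2994) (nat_lit 0) (nat_lit 4))
    (@En.n l22188 (nat_lit 3331) (nat_lit 12) (nat_lit 12))
    (@En.i (nat_lit 3757) (nat_lit 13) (nat_lit 13))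
    (@En.i (nat_lit 3336) (nat_lit 14) (nat_lit 9))
    (@En.i (nat_lit 10897) (nat_lit 12) (nat_lit 12))
    (@En.n l17 (nat_lit 2999) (nat_lit 15) (nat_lit 2))))
  (@Cl.mk (nat_lit 0x2000c0009000d000c00040003000c00040007000d0004000d0003000e0003) (nat_lit 0xb300000a00030) (nat_lit 16) Lb.e (@T16.mk En
    (@En.i (nat_lit 3001) (nat_lit 15) (nat_lit 3))
    (@En.n l1836 (nat_lit 13674) (nat_lit 0) (nat_lit 14))
    (@En.i (nat_lit 2999) (nat_lit 2) (nat_lit 3))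
    (@En.i (nat_lit 4282) (nat_lit 0) (nat_lit 13))
    (@En.n l9530 (nat_lit 3040) (nat_lit 4) (nat_lit 4))
    (@En.n l1836 (nat_lit 8301) (nat_lit 6) (nat_lit 13))
    (@En.n l9530 (nat_lit 3715) (nat_lit 11) (nat_lit 7))
    (@En.i (nat_lit 3325) (nat_lit 7) (nat_lit 4))
    (@En.n l11010 (nat_lit 7418) (nat_lit 9) (nat_lit 12))
    (@En.n l10862 (nat_lit 3003) (nat_lit 9) (nat_lit 3))
    (@En.i (nat_lit 2995) (nat_lit 0) (nat_lit 4))
    (@En.n l22188 (nat_lit 3002) (nat_lit 12) (nat_lit 12))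
    (@En.i (nat_lit 4044) (nat_lit 13) (nat_lit 13))
    (@En.i (nat_lit 4336) (nat_lit 14) (nat_lit 9))
    (@En.i (nat_lit 10890) (nat_lit 12) (nat_lit 12))
    (@En.n l17 (nat_lit 3000) (nat_lit 15) (nat_lit 2))))
  (@Cl.mk (nat_lit 0x30003000c0009000d000c00040003000c00040007000c0004000d000d0004) (nat_lit 0xb30000020010) (nat_lit 16) Lb.e (@T16.mk En
    (@En.n l15658 (nat_lit 3858) (nat_lit 0) (nat_lit 4))
    (@En.n l61 (nat_lit 3000) (nat_lit 3) (nat_lit 13))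
    (@En.n l8252 (nat_lit 3747) (nat_lit 1) (nat_lit 13))
    (@En.n l9530 (nat_lit 3039) (nat_lit 3) (nat_lit 4))
    (@En.n l8047 (nat_lit 8308) (nat_lit 0) (nat_lit 12))
    (@En.n l22253 (nat_lit 3717) (nat_lit 11) (nat_lit 7))
    (@En.i (nat_lit 3323) (nat_lit 6) (nat_lit 4))
    (@En.n l11010 (nat_lit 7417) (nat_lit 8) (nat_lit 12))
    (@En.n l10862 (nat_lit 3005) (nat_lit 8) (nat_lit 3))
    (@En.n l117 (nat_lit 2727) (nat_lit 0) (nat_lit 4))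
    (@En.n l22188 (nat_lit 3744) (nat_lit 11) (nat_lit 12))
    (@En.i (nat_lit 4046) (nat_lit 1) (nat_lit 13))
    (@En.n l14455 (nat_lit 4265) (nat_lit 13) (nat_lit 9))
    (@En.i (nat_lit 10887) (nat_lit 14) (nat_lit 12))
    (@En.n l11228 (nat_lit 4258) (nat_lit 13) (nat_lit 3))
    (@En.n l18 (nat_lit 3000) (nat_lit 0) (nat_lit 3))))
  (@Cl.mk (nat_lit 0x2000d0009000c0003000d000b000400030007000d0005000d0003000e0003) (nat_lit 0x2006000a06030) (nat_lit 16) Lb.e (@T16.mk En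
    (@En.i (nat_lit 3744) (nat_lit 15) (nat_lit 3))
    (@En.n l476 (nat_lit 13054) (nat_lit 0) (nat_lit 14))
    (@En.i (nat_lit 3331) (nat_lit 2) (nat_lit 3))
    (@En.n l4108 (nat_lit 4283) (nat_lit 0) (nat_lit 13))
    (@En.n l28 (nat_lit 3047) (nat_lit 4) (nat_lit 5))
    (@En.n l476 (nat_lit 8302) (nat_lit 6) (nat_lit 13))
    (@En.i (nat_lit 3000) (nat_lit 6) (nat_lit 7))
    (@En.n l28 (nat_lit 3003) (nat_lit 7) (nat_lit 3))
    (@En.n l4108 (nat_lit 3332) (nat_lit 0) (nat_lit 4))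
    (@En.i (nat_lit 7416) (nat_lit 10) (nat_lit 11))
    (@En.i (nat_lit 4683) (nat_lit 11) (nat_lit 13))
    (@En.i (nat_lit 3340) (nat_lit 11) (nat_lit 3))
    (@En.n l2038 (nat_lit 2675) (nat_lit 0) (nat_lit 12))
    (@En.i (nat_lit 3341) (nat_lit 14) (nat_lit 9))
    (@En.i (nat_lit 10888) (nat_lit 2) (nat_lit 13))
    (@En.n l17 (nat_lit 3002) (nat_lit 15) (nat_lit 2))))
  (@Cl.mk (nat_lit 0x2000d0009000d0003000d0003000c00030007000d0004000d0003000e0003) (nat_lit 0xb000000a00030) (nat_lit 16) Lb.e (@T16.mk En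
    (@En.i (nat_lit 3005) (nat_lit 15) (nat_lit 3))
    (@En.n l476 (nat_lit 13057) (nat_lit 0) (nat_lit 14))
    (@En.i (nat_lit 3339) (nat_lit 2) (nat_lit 3))
    (@En.i (nat_lit 4281) (nat_lit 0) (nat_lit 13))
    (@En.i (nat_lit 3045) (nat_lit 4) (nat_lit 4))
    (@En.n l476 (nat_lit 8299) (nat_lit 6) (nat_lit 13))
    (@En.i (nat_lit 3718) (nat_lit 6) (nat_lit 7))
    (@En.i (nat_lit 3002) (nat_lit 7) (nat_lit 3))
    (@En.i (nat_lit 7065) (nat_lit 0) (nat_lit 12))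
    (@En.n l10969 (nat_lit 3000) (nat_lit 9) (nat_lit 3))
    (@En.i (nat_lit 4793) (nat_lit 11) (nat_lit 13))
    (@En.i (nat_lit 3004) (nat_lit 11) (nat_lit 3))
    (@En.n l2038 (nat_lit 4047) (nat_lit 0) (nat_lit 13))
    (@En.i (nat_lit 4337) (nat_lit 14) (nat_lit 9))
    (@En.i (nat_lit 10889) (nat_lit 2) (nat_lit 13))
    (@En.n l17 (nat_lit 3003) (nat_lit 15) (nat_lit 2))))
  (@Cl.mk (nat_lit 0x2000d000c000a0003000d0004000c00030006000d0004000d0003000e0003) (nat_lit 0x11000000a00030) (nat_lit 16) Lb.e (@T16.mk En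
    (@En.n l117 (nat_lit 4260) (nat_lit 15) (nat_lit 3))
    (@En.n l7705 (nat_lit 13676) (nat_lit 0) (nat_lit 14))
    (@En.i (nat_lit 3338) (nat_lit 2) (nat_lit 3))
    (@En.n l1865 (nat_lit 4284) (nat_lit 0) (nat_lit 13))
    (@En.i (nat_lit 3046) (nat_lit 4) (nat_lit 4))
    (@En.n l7705 (nat_lit 8303) (nat_lit 6) (nat_lit 13))
    (@En.n l1992 (nat_lit 4070) (nat_lit 12) (nat_lit 6))
    (@En.i (nat_lit 3340) (nat_lit 7) (nat_lit 3))
    (@En.n l1865 (nat_lit 7064) (nat_lit 0) (nat_lit 12))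
    (@En.n l28668 (nat_lit 2996) (nat_lit 9) (nat_lit 4))
    (@En.n l117 (nat_lit 4337) (nat_lit 11) (nat_lit 13))
    (@En.n l107 (nat_lit 3003) (nat_lit 11) (nat_lit 3))
    (@En.n l24986 (nat_lit 1113) (nat_lit 0) (nat_lit 10))
    (@En.n l8015 (nat_lit 3000) (nat_lit 14) (nat_lit 12))
    (@En.i (nat_lit 10901) (nat_lit 2) (nat_lit 13))
    (@En.n l17 (nat_lit 3004) (nat_lit 15) (nat_lit 2))))
  (@Cl.mk (nat_lit 0x30003000d0009000d0003000d0003000c00030007000c0004000d000d0004) (nat_lit 0xb03000020010) (nat_lit 16) Lb.e (@T16.mk En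
    (@En.n l11245 (nat_lit 3857) (nat_lit 0) (nat_lit 4))
    (@En.n l61 (nat_lit 3003) (nat_lit 3) (nat_lit 13))
    (@En.i (nat_lit 4280) (nat_lit 1) (nat_lit 13))
    (@En.i (nat_lit 3043) (nat_lit 3) (nat_lit 4))
    (@En.n l3517 (nat_lit 8304) (nat_lit 14) (nat_lit 12))
    (@En.i (nat_lit 3719) (nat_lit 5) (nat_lit 7))
    (@En.i (nat_lit 3744) (nat_lit 6) (nat_lit 3))
    (@En.i (nat_lit 7062) (nat_lit 0) (nat_lit 12))
    (@En.n l10969 (nat_lit 3001) (nat_lit 8) (nat_lit 3))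
    (@En.i (nat_lit 4682) (nat_lit 0) (nat_lit 13))
    (@En.n l117 (nat_lit 4260) (nat_lit 10) (nat_lit 3))
    (@En.n l2038 (nat_lit 4043) (nat_lit 0) (nat_lit 13))
    (@En.i (nat_lit 4262) (nat_lit 13) (nat_lit 9))
    (@En.i (nat_lit 10883) (nat_lit 2) (nat_lit 13))
    (@En.n l3519 (nat_lit 4256) (nat_lit 13) (nat_lit 3))
    (@En.n l18 (nat_lit 3003) (nat_lit 0) (nat_lit 3))))
  (@Cl.mk (nat_lit 0x2000700030008000c000c000a000a000400040009000800060006000e000d) (nat_lit 0x4011200710041) (nat_lit 16) Lb.e (@T16.mk En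
    (@En.i (nat_lit 1211) (nat_lit 2) (nat_lit 13))
    (@En.n l9926 (nat_lit 8720) (nat_lit 1) (nat_lit 14))
    (@En.n l25891 (nat_lit 2820) (nat_lit 10) (nat_lit 6))
    (@En.n l11992 (nat_lit 6335) (nat_lit 3) (nat_lit 6))
    (@En.i (nat_lit 1218) (nat_lit 4) (nat_lit 8))
    (@En.n l13976 (nat_lit 8559) (nat_lit 5) (nat_lit 9))
    (@En.n l77 (nat_lit 3008) (nat_lit 6) (nat_lit 4))
    (@En.n l5909 (nat_lit 3016) (nat_lit 7) (nat_lit 4))
    (@En.n l5653 (nat_lit 1208) (nat_lit 9) (nat_lit 10))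
    (@En.n l601 (nat_lit 1325) (nat_lit 10) (nat_lit 10))
    (@En.n l15915 (nat_lit 2951) (nat_lit 11) (nat_lit 12))
    (@En.n l27852 (nat_lit 5572) (nat_lit 12) (nat_lit 12))
    (@En.n l2943 (nat_lit 3373) (nat_lit 13) (nat_lit 8))
    (@En.n l117 (nat_lit 1211) (nat_lit 14) (nat_lit 3))
    (@En.i (nat_lit 1280) (nat_lit 0) (nat_lit 7))
    (@En.n l3 (nat_lit 3006) (nat_lit 15) (nat_lit 2))))
  (@Cl.mk (nat_lit 0x2000b000b0004000a000800050005000d000d0006000300030008000e000c) (nat_lit 0x14081002b000461) (nat_lit 16) Lb.e (@T16.mk En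
    (@En.i (nat_lit 1211) (nat_lit 12) (nat_lit 12))
    (@En.n l134 (nat_lit 4819) (nat_lit 1) (nat_lit 14))
    (@En.n l3517 (nat_lit 2781) (nat_lit 2) (nat_lit 8))
    (@En.n l152 (nat_lit 3008) (nat_lit 13) (nat_lit 3))
    (@En.n l10754 (nat_lit 3009) (nat_lit 0) (nat_lit 3))
    (@En.n l97 (nat_lit 3132) (nat_lit 0) (nat_lit 6))
    (@En.n l9973 (nat_lit 3009) (nat_lit 3) (nat_lit 13))
    (@En.i (nat_lit 9153) (nat_lit 8) (nat_lit 13))
    (@En.n l10753 (nat_lit 2821) (nat_lit 11) (nat_lit 5))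
    (@En.n l19235 (nat_lit 6409) (nat_lit 9) (nat_lit 5))
    (@En.i (nat_lit 1150) (nat_lit 11) (nat_lit 8))
    (@En.i (nat_lit 12771) (nat_lit 12) (nat_lit 10))
    (@En.i (nat_lit 3010) (nat_lit 7) (nat_lit 4))
    (@En.n l61 (nat_lit 1203) (nat_lit 14) (nat_lit 11))
    (@En.i (nat_lit 1315) (nat_lit 10) (nat_lit 11))
    (@En.n l7 (nat_lit 3007) (nat_lit 15) (nat_lit 2))))
noncomputable def a188 : T16 Cl := @T16.mk Cl
  (@Cl.mk (nat_lit 0x2000700030008000e000c0002000b000b00040009000800050005000e000d) (nat_lit 0x4610140010043) (nat_lit 16) Lb.e (@T16.mk En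
    (@En.i (nat_lit 3007) (nat_lit 7) (nat_lit 13))
    (@En.i (nat_lit 9152) (nat_lit 1) (nat_lit 14))
    (@En.n l1780 (nat_lit 2822) (nat_lit 11) (nat_lit 5))
    (@En.n l524 (nat_lit 6413) (nat_lit 3) (nat_lit 5))
    (@En.i (nat_lit 1216) (nat_lit 11) (nat_lit 8))
    (@En.n l2869 (nat_lit 12511) (nat_lit 5) (nat_lit 9))
    (@En.n l947 (nat_lit 3011) (nat_lit 6) (nat_lit 4))
    (@En.n l61 (nat_lit 1209) (nat_lit 8) (nat_lit 11))
    (@En.i (nat_lit 1317) (nat_lit 9) (nat_lit 11))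
    (@En.n l7 (nat_lit 3008) (nat_lit 9) (nat_lit 2))
    (@En.i (nat_lit 3006) (nat_lit 11) (nat_lit 12))
    (@En.n l134 (nat_lit 4820) (nat_lit 12) (nat_lit 14))
    (@En.n l2943 (nat_lit 3394) (nat_lit 13) (nat_lit 8))
    (@En.n l117 (nat_lit 3007) (nat_lit 3) (nat_lit 3))
    (@En.i (nat_lit 1277) (nat_lit 0) (nat_lit 7))
    (@En.n l3 (nat_lit 3008) (nat_lit 15) (nat_lit 2))))
  (@Cl.mk (nat_lit 0x20008000e000c0002000b000b0004000b000800050005000d0005000e0003) (nat_lit 0x39101407400a040) (nat_lit 16) Lb.e (@T16.mk En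
    (@En.n l18547 (nat_lit 3007) (nat_lit 4) (nat_lit 3))
    (@En.n l5448 (nat_lit 13901) (nat_lit 0) (nat_lit 14))
    (@En.n l18548 (nat_lit 2319) (nat_lit 2) (nat_lit 5))
    (@En.n l2682 (nat_lit 9154) (nat_lit 8) (nat_lit 13))
    (@En.n l55 (nat_lit 2823) (nat_lit 11) (nat_lit 5))
    (@En.i (nat_lit 6410) (nat_lit 9) (nat_lit 5))
    (@En.n l18549 (nat_lit 1148) (nat_lit 6) (nat_lit 8))
    (@En.n l3986 (nat_lit 12775) (nat_lit 8) (nat_lit 11))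
    (@En.n l810 (nat_lit 3012) (nat_lit 8) (nat_lit 4))
    (@En.n l18550 (nat_lit 1204) (nat_lit 10) (nat_lit 11))
    (@En.n l1395 (nat_lit 1316) (nat_lit 11) (nat_lit 11))
    (@En.n l3 (nat_lit 3009) (nat_lit 11) (nat_lit 2))
    (@En.n l18551 (nat_lit 1212) (nat_lit 13) (nat_lit 12))
    (@En.n l11 (nat_lit 4821) (nat_lit 1) (nat_lit 14))
    (@En.n l18552 (nat_lit 2553) (nat_lit 2) (nat_lit 8))
    (@En.n l17 (nat_lit 3009) (nat_lit 15) (nat_lit 2))))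
  (@Cl.mk (nat_lit 0x300030008000d000c00090003000c0004000a000800040007000d000d0006) (nat_lit 0xb010100000000) (nat_lit 16) Lb.e (@T16.mk En
    (@En.n l6140 (nat_lit 3135) (nat_lit 0) (nat_lit 6))
    (@En.n l34954 (nat_lit 3012) (nat_lit 3) (nat_lit 13))
    (@En.n l10179 (nat_lit 8603) (nat_lit 2) (nat_lit 13))
    (@En.n l34955 (nat_lit 3897) (nat_lit 11) (nat_lit 7))
    (@En.n l34956 (nat_lit 4494) (nat_lit 4) (nat_lit 4))
    (@En.i (nat_lit 4279) (nat_lit 5) (nat_lit 8))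
    (@En.n l12835 (nat_lit 11111) (nat_lit 1) (nat_lit 10))
    (@En.n l4172 (nat_lit 1211) (nat_lit 7) (nat_lit 4))
    (@En.n l22900 (nat_lit 1319) (nat_lit 9) (nat_lit 12))
    (@En.n l6319 (nat_lit 3013) (nat_lit 9) (nat_lit 3))
    (@En.i (nat_lit 2344) (nat_lit 0) (nat_lit 9))
    (@En.n l8048 (nat_lit 3014) (nat_lit 12) (nat_lit 12))
    (@En.n l34957 (nat_lit 7036) (nat_lit 13) (nat_lit 13))
    (@En.n l3517 (nat_lit 4249) (nat_lit 14) (nat_lit 8))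
    (@En.n l6950 (nat_lit 3011) (nat_lit 13) (nat_lit 3))
    (@En.n l34958 (nat_lit 3012) (nat_lit 0) (nat_lit 3))))
  (@Cl.mk (nat_lit 0x2000700030008000d000c00090003000c00040009000800040007000e000d) (nat_lit 0x5002010000001) (nat_lit 16) Lb.e (@T16.mk En
    (@En.n l2544 (nat_lit 3010) (nat_lit 2) (nat_lit 13))
    (@En.n l3337 (nat_lit 9145) (nat_lit 1) (nat_lit 14))
    (@En.n l26388 (nat_lit 3896) (nat_lit 11) (nat_lit 7))
    (@En.n l5917 (nat_lit 4493) (nat_lit 3) (nat_lit 4))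
    (@En.i (nat_lit 4284) (nat_lit 4) (nat_lit 8))
    (@En.n l5928 (nat_lit 11212) (nat_lit 5) (nat_lit 9))
    (@En.n l7512 (nat_lit 3006) (nat_lit 6) (nat_lit 4))
    (@En.n l14619 (nat_lit 1324) (nat_lit 8) (nat_lit 12))
    (@En.n l2869 (nat_lit 3015) (nat_lit 8) (nat_lit 3))
    (@En.n l2544 (nat_lit 2346) (nat_lit 10) (nat_lit 9))
    (@En.n l7882 (nat_lit 3016) (nat_lit 11) (nat_lit 12))
    (@En.n l2083 (nat_lit 7063) (nat_lit 12) (nat_lit 13))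
    (@En.n l7 (nat_lit 4518) (nat_lit 13) (nat_lit 8))
    (@En.n l3815 (nat_lit 3010) (nat_lit 14) (nat_lit 3))
    (@En.n l2867 (nat_lit 5048) (nat_lit 0) (nat_lit 7))
    (@En.n l11 (nat_lit 3011) (nat_lit 15) (nat_lit 2))))
  (@Cl.mk (nat_lit 0x20008000d000c00090003000c0004000b000800040007000d0005000e0003) (nat_lit 0xb020100000b000) (nat_lit 16) Lb.e (@T16.mk En
    (@En.n l19687 (nat_lit 3010) (nat_lit 15) (nat_lit 3))
    (@En.n l8243 (nat_lit 13786) (nat_lit 0) (nat_lit 14))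
    (@En.n l10785 (nat_lit 3164) (nat_lit 2) (nat_lit 5))
    (@En.n l5891 (nat_lit 9194) (nat_lit 4) (nat_lit 13))
    (@En.n l17614 (nat_lit 3904) (nat_lit 11) (nat_lit 7))
    (@En.i (nat_lit 4501) (nat_lit 5) (nat_lit 4))
    (@En.n l34318 (nat_lit 4278) (nat_lit 6) (nat_lit 8))
    (@En.n l8012 (nat_lit 11145) (nat_lit 8) (nat_lit 11))
    (@En.n l28 (nat_lit 1212) (nat_lit 8) (nat_lit 4))
    (@En.n l34319 (nat_lit 1323) (nat_lit 10) (nat_lit 12))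
    (@En.n l24242 (nat_lit 3017) (nat_lit 10) (nat_lit 3))
    (@En.n l34320 (nat_lit 2366) (nat_lit 12) (nat_lit 9))
    (@En.n l17614 (nat_lit 3018) (nat_lit 13) (nat_lit 12))
    (@En.n l28 (nat_lit 7034) (nat_lit 14) (nat_lit 13))
    (@En.n l8243 (nat_lit 4309) (nat_lit 14) (nat_lit 8))
    (@En.n l17 (nat_lit 3012) (nat_lit 15) (nat_lit 2))))
  (@Cl.mk (nat_lit 0x300030008000d0008000d0003000c0003000a000800040008000d000d0006) (nat_lit 0xa100000001000) (nat_lit 16) Lb.e (@T16.mk En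
    (@En.n l31004 (nat_lit 3141) (nat_lit 0) (nat_lit 6))
    (@En.n l22753 (nat_lit 3017) (nat_lit 3) (nat_lit 13))
    (@En.i (nat_lit 8602) (nat_lit 11) (nat_lit 13))
    (@En.n l20423 (nat_lit 667) (nat_lit 3) (nat_lit 8))
    (@En.n l13633 (nat_lit 4491) (nat_lit 4) (nat_lit 4))
    (@En.n l4130 (nat_lit 4280) (nat_lit 5) (nat_lit 8))
    (@En.i (nat_lit 11110) (nat_lit 1) (nat_lit 10))
    (@En.i (nat_lit 3014) (nat_lit 7) (nat_lit 3))
    (@En.n l5646 (nat_lit 5319) (nat_lit 0) (nat_lit 12))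
    (@En.n l965 (nat_lit 3010) (nat_lit 9) (nat_lit 3))
    (@En.n l6108 (nat_lit 3265) (nat_lit 0) (nat_lit 13))
    (@En.i (nat_lit 1319) (nat_lit 12) (nat_lit 8))
    (@En.n l9182 (nat_lit 7035) (nat_lit 13) (nat_lit 13))
    (@En.n l152 (nat_lit 4247) (nat_lit 14) (nat_lit 8))
    (@En.n l2834 (nat_lit 3015) (nat_lit 13) (nat_lit 3))
    (@En.n l3480 (nat_lit 3017) (nat_lit 0) (nat_lit 3))))
  (@Cl.mk (nat_lit 0x300030008000c0008000d000b00040003000a000800050008000d000d0006) (nat_lit 0x5a103000000000) (nat_lit 16) Lb.e (@T16.mk En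
    (@En.n l31004 (nat_lit 2989) (nat_lit 0) (nat_lit 6))
    (@En.n l19242 (nat_lit 3018) (nat_lit 3) (nat_lit 13))
    (@En.i (nat_lit 9138) (nat_lit 11) (nat_lit 13))
    (@En.n l388 (nat_lit 3906) (nat_lit 10) (nat_lit 8))
    (@En.n l31005 (nat_lit 4083) (nat_lit 4) (nat_lit 5))
    (@En.n l8552 (nat_lit 3747) (nat_lit 5) (nat_lit 8))
    (@En.n l21657 (nat_lit 9751) (nat_lit 7) (nat_lit 10))
    (@En.n l7 (nat_lit 3013) (nat_lit 7) (nat_lit 3))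
    (@En.n l22403 (nat_lit 1213) (nat_lit 0) (nat_lit 4))
    (@En.n l17023 (nat_lit 3019) (nat_lit 10) (nat_lit 11))
    (@En.n l9448 (nat_lit 3263) (nat_lit 11) (nat_lit 13))
    (@En.n l9451 (nat_lit 1315) (nat_lit 12) (nat_lit 8))
    (@En.n l388 (nat_lit 5523) (nat_lit 13) (nat_lit 12))
    (@En.n l31006 (nat_lit 4248) (nat_lit 14) (nat_lit 8))
    (@En.n l21682 (nat_lit 3016) (nat_lit 13) (nat_lit 3))
    (@En.n l4774 (nat_lit 3018) (nat_lit 0) (nat_lit 3))))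
  (@Cl.mk (nat_lit 0x2000700030008000d0008000d0003000c00030009000800040008000e000d) (nat_lit 0x5010000000001) (nat_lit 16) Lb.e (@T16.mk En
    (@En.n l18443 (nat_lit 3013) (nat_lit 2) (nat_lit 13))
    (@En.n l476 (nat_lit 9144) (nat_lit 1) (nat_lit 14))
    (@En.i (nat_lit 3907) (nat_lit 2) (nat_lit 8))
    (@En.i (nat_lit 4492) (nat_lit 3) (nat_lit 4))
    (@En.i (nat_lit 4281) (nat_lit 4) (nat_lit 8))
    (@En.n l26659 (nat_lit 11215) (nat_lit 5) (nat_lit 9))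
    (@En.n l10969 (nat_lit 3016) (nat_lit 6) (nat_lit 3))
    (@En.n l14554 (nat_lit 5321) (nat_lit 8) (nat_lit 12))
    (@En.n l1865 (nat_lit 3011) (nat_lit 8) (nat_lit 3))
    (@En.n l2038 (nat_lit 3268) (nat_lit 10) (nat_lit 13))
    (@En.i (nat_lit 1324) (nat_lit 11) (nat_lit 8))
    (@En.n l6655 (nat_lit 7060) (nat_lit 12) (nat_lit 13))
    (@En.n l17 (nat_lit 4519) (nat_lit 13) (nat_lit 8))
    (@En.n l3517 (nat_lit 3013) (nat_lit 14) (nat_lit 3))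
    (@En.n l18446 (nat_lit 5046) (nat_lit 0) (nat_lit 7))
    (@En.n l50 (nat_lit 3015) (nat_lit 15) (nat_lit 2))))
  (@Cl.mk (nat_lit 0x2000700030008000c0008000d000b000400030009000800050008000e000d) (nat_lit 0x5a10300700001) (nat_lit 16) Lb.e (@T16.mk En
    (@En.n l25966 (nat_lit 3014) (nat_lit 2) (nat_lit 13))
    (@En.n l1836 (nat_lit 9143) (nat_lit 1) (nat_lit 14))
    (@En.n l25967 (nat_lit 3900) (nat_lit 10) (nat_lit 8))
    (@En.n l11567 (nat_lit 6339) (nat_lit 3) (nat_lit 5))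
    (@En.i (nat_lit 4282) (nat_lit 4) (nat_lit 8))
    (@En.n l25968 (nat_lit 9752) (nat_lit 5) (nat_lit 9))
    (@En.n l10862 (nat_lit 3015) (nat_lit 6) (nat_lit 3))
    (@En.n l6586 (nat_lit 2951) (nat_lit 7) (nat_lit 4))
    (@En.n l4684 (nat_lit 4490) (nat_lit 9) (nat_lit 11))
    (@En.i (nat_lit 3266) (nat_lit 10) (nat_lit 13))
    (@En.n l8361 (nat_lit 1317) (nat_lit 11) (nat_lit 8))
    (@En.n l25969 (nat_lit 5524) (nat_lit 12) (nat_lit 12))
    (@En.n l17 (nat_lit 3411) (nat_lit 13) (nat_lit 8))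
    (@En.n l8047 (nat_lit 3014) (nat_lit 14) (nat_lit 3))
    (@En.n l25970 (nat_lit 5091) (nat_lit 0) (nat_lit 7))
    (@En.n l50 (nat_lit 3016) (nat_lit 15) (nat_lit 2))))
  (@Cl.mk (nat_lit 0x20008000d0008000d0003000c0003000b000800040008000d0005000e0003) (nat_lit 0xa100000001b000) (nat_lit 16) Lb.e (@T16.mk En
    (@En.n l3535 (nat_lit 3013) (nat_lit 15) (nat_lit 3))
    (@En.i (nat_lit 13784) (nat_lit 0) (nat_lit 14))
    (@En.n l10772 (nat_lit 3166) (nat_lit 2) (nat_lit 5))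
    (@En.i (nat_lit 4335) (nat_lit 4) (nat_lit 13))
    (@En.n l5568 (nat_lit 666) (nat_lit 4) (nat_lit 8))
    (@En.n l2125 (nat_lit 4502) (nat_lit 5) (nat_lit 4))
    (@En.n l34578 (nat_lit 3746) (nat_lit 6) (nat_lit 8))
    (@En.n l9182 (nat_lit 11140) (nat_lit 8) (nat_lit 11))
    (@En.n l17133 (nat_lit 3018) (nat_lit 8) (nat_lit 3))
    (@En.n l9967 (nat_lit 5320) (nat_lit 10) (nat_lit 12))
    (@En.n l10773 (nat_lit 3012) (nat_lit 10) (nat_lit 3))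
    (@En.n l4991 (nat_lit 3264) (nat_lit 12) (nat_lit 13))
    (@En.n l18235 (nat_lit 1323) (nat_lit 13) (nat_lit 8))
    (@En.n l899 (nat_lit 7033) (nat_lit 14) (nat_lit 13))
    (@En.i (nat_lit 4307) (nat_lit 14) (nat_lit 8))
    (@En.n l28 (nat_lit 3017) (nat_lit 15) (nat_lit 2))))
  (@Cl.mk (nat_lit 0x20008000c0008000d000b00040003000b000800050008000d0005000e0003) (nat_lit 0xa103000001b000) (nat_lit 16) Lb.e (@T16.mk En
    (@En.n l511 (nat_lit 3014) (nat_lit 15) (nat_lit 3))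
    (@En.n l12001 (nat_lit 13783) (nat_lit 0) (nat_lit 14))
    (@En.n l31477 (nat_lit 3165) (nat_lit 2) (nat_lit 5))
    (@En.n l2642 (nat_lit 4332) (nat_lit 4) (nat_lit 13))
    (@En.i (nat_lit 2663) (nat_lit 10) (nat_lit 8))
    (@En.n l31478 (nat_lit 6318) (nat_lit 5) (nat_lit 5))
    (@En.n l31479 (nat_lit 3745) (nat_lit 6) (nat_lit 8))
    (@En.n l3328 (nat_lit 9772) (nat_lit 8) (nat_lit 11))
    (@En.n l22764 (nat_lit 3017) (nat_lit 8) (nat_lit 3))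
    (@En.n l31480 (nat_lit 2950) (nat_lit 9) (nat_lit 4))
    (@En.n l2642 (nat_lit 3259) (nat_lit 11) (nat_lit 11))
    (@En.n l31478 (nat_lit 3260) (nat_lit 12) (nat_lit 13))
    (@En.i (nat_lit 1316) (nat_lit 13) (nat_lit 8))
    (@En.i (nat_lit 5525) (nat_lit 14) (nat_lit 12))
    (@En.n l12001 (nat_lit 4308) (nat_lit 14) (nat_lit 8))
    (@En.n l50 (nat_lit 3018) (nat_lit 15) (nat_lit 2))))
  (@Cl.mk (nat_lit 0x300030009000d0008000b0003000c00090007000500040008000d000d0007) (nat_lit 0x5b120060001000) (nat_lit 16) Lb.e (@T16.mk En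
    (@En.n l97 (nat_lit 3146) (nat_lit 0) (nat_lit 7))
    (@En.n l16851 (nat_lit 3259) (nat_lit 3) (nat_lit 13))
    (@En.n l8237 (nat_lit 10175) (nat_lit 2) (nat_lit 13))
    (@En.n l24317 (nat_lit 3014) (nat_lit 3) (nat_lit 8))
    (@En.n l15710 (nat_lit 3013) (nat_lit 4) (nat_lit 4))
    (@En.n l3208 (nat_lit 4081) (nat_lit 5) (nat_lit 5))
    (@En.i (nat_lit 3741) (nat_lit 6) (nat_lit 7))
    (@En.n l21949 (nat_lit 9750) (nat_lit 14) (nat_lit 9))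
    (@En.n l11391 (nat_lit 4483) (nat_lit 9) (nat_lit 12))
    (@En.n l13382 (nat_lit 1322) (nat_lit 9) (nat_lit 3))
    (@En.i (nat_lit 4092) (nat_lit 0) (nat_lit 11))
    (@En.n l7987 (nat_lit 1318) (nat_lit 12) (nat_lit 8))
    (@En.n l8237 (nat_lit 3926) (nat_lit 13) (nat_lit 13))
    (@En.n l2385 (nat_lit 3409) (nat_lit 14) (nat_lit 9))
    (@En.n l152 (nat_lit 4490) (nat_lit 13) (nat_lit 3))
    (@En.n l7808 (nat_lit 3259) (nat_lit 0) (nat_lit 3))))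
  (@Cl.mk (nat_lit 0x20005000b000a000a0006000e0005000200060006000e000b0002000e000a) (nat_lit 0x9120c0000b1014) (nat_lit 16) Lb.e (@T16.mk En
    (@En.n l5347 (nat_lit 3132) (nat_lit 9) (nat_lit 10))
    (@En.i (nat_lit 2972) (nat_lit 1) (nat_lit 14))
    (@En.n l18 (nat_lit 3020) (nat_lit 2) (nat_lit 2))
    (@En.n l5 (nat_lit 2972) (nat_lit 3) (nat_lit 11))
    (@En.n l2571 (nat_lit 4822) (nat_lit 5) (nat_lit 14))
    (@En.n l538 (nat_lit 3022) (nat_lit 5) (nat_lit 6))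
    (@En.n l7 (nat_lit 1274) (nat_lit 6) (nat_lit 6))
    (@En.n l28 (nat_lit 3020) (nat_lit 7) (nat_lit 2))
    (@En.i (nat_lit 2969) (nat_lit 8) (nat_lit 5))
    (@En.i (nat_lit 2686) (nat_lit 10) (nat_lit 14))
    (@En.n l117 (nat_lit 2429) (nat_lit 2) (nat_lit 6))
    (@En.n l11081 (nat_lit 2905) (nat_lit 12) (nat_lit 10))
    (@En.i (nat_lit 2822) (nat_lit 13) (nat_lit 10))
    (@En.n l11082 (nat_lit 12385) (nat_lit 14) (nat_lit 11))
    (@En.i (nat_lit 2646) (nat_lit 6) (nat_lit 5))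
    (@En.n l3 (nat_lit 3020) (nat_lit 15) (nat_lit 2))))
  (@Cl.mk (nat_lit 0x200050005000a000e000a00020008000e000600020006000b000b000e0008) (nat_lit 0x8220460005003) (nat_lit 16) Lb.e (@T16.mk En
    (@En.n l6225 (nat_lit 3025) (nat_lit 11) (nat_lit 8))
    (@En.n l7182 (nat_lit 3026) (nat_lit 12) (nat_lit 14))
    (@En.n l7183 (nat_lit 3026) (nat_lit 13) (nat_lit 11))
    (@En.n l7184 (nat_lit 12250) (nat_lit 3) (nat_lit 11))
    (@En.n l6229 (nat_lit 1362) (nat_lit 4) (nat_lit 6))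
    (@En.n l28 (nat_lit 3021) (nat_lit 5) (nat_lit 2))
    (@En.n l7185 (nat_lit 2971) (nat_lit 6) (nat_lit 6))
    (@En.n l7186 (nat_lit 2636) (nat_lit 8) (nat_lit 14))
    (@En.n l7187 (nat_lit 3460) (nat_lit 2) (nat_lit 8))
    (@En.n l8 (nat_lit 3021) (nat_lit 9) (nat_lit 2))
    (@En.i (nat_lit 2972) (nat_lit 11) (nat_lit 10))
    (@En.i (nat_lit 3376) (nat_lit 12) (nat_lit 14))
    (@En.n l7188 (nat_lit 11330) (nat_lit 13) (nat_lit 10))
    (@En.n l17 (nat_lit 3022) (nat_lit 14) (nat_lit 5))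
    (@En.n l7189 (nat_lit 3027) (nat_lit 8) (nat_lit 5))
    (@En.n l3 (nat_lit 3021) (nat_lit 15) (nat_lit 2))))
  (@Cl.mk (nat_lit 0x20005000a000e000a00020007000e000600020006000e000b0002000e0009) (nat_lit 0x3200b00026014) (nat_lit 16) Lb.e (@T16.mk En
    (@En.i (nat_lit 3024) (nat_lit 5) (nat_lit 9))
    (@En.i (nat_lit 3021) (nat_lit 1) (nat_lit 14))
    (@En.n l18 (nat_lit 3022) (nat_lit 2) (nat_lit 2))
    (@En.n l5 (nat_lit 3021) (nat_lit 3) (nat_lit 11))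
    (@En.n l420 (nat_lit 4774) (nat_lit 5) (nat_lit 14))
    (@En.n l4013 (nat_lit 1365) (nat_lit 5) (nat_lit 6))
    (@En.n l28 (nat_lit 3022) (nat_lit 6) (nat_lit 2))
    (@En.n l594 (nat_lit 3023) (nat_lit 7) (nat_lit 6))
    (@En.n l1603 (nat_lit 2635) (nat_lit 9) (nat_lit 14))
    (@En.n l4014 (nat_lit 3462) (nat_lit 2) (nat_lit 7))
    (@En.n l8 (nat_lit 3022) (nat_lit 10) (nat_lit 2))
    (@En.i (nat_lit 3020) (nat_lit 12) (nat_lit 10))
    (@En.i (nat_lit 3388) (nat_lit 13) (nat_lit 14))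
    (@En.n l4015 (nat_lit 12380) (nat_lit 2) (nat_lit 10))
    (@En.n l1604 (nat_lit 3029) (nat_lit 7) (nat_lit 5))
    (@En.n l3 (nat_lit 3022) (nat_lit 15) (nat_lit 2))))
  (@Cl.mk (nat_lit 0x20005000a000a000e000b00020008000600060005000e000b0002000e0008) (nat_lit 0x1430500021016) (nat_lit 16) Lb.e (@T16.mk En
    (@En.n l1204 (nat_lit 3664) (nat_lit 14) (nat_lit 8))
    (@En.n l1205 (nat_lit 2971) (nat_lit 1) (nat_lit 14))
    (@En.n l18 (nat_lit 3023) (nat_lit 2) (nat_lit 2))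
    (@En.n l1206 (nat_lit 2971) (nat_lit 3) (nat_lit 11))
    (@En.n l461 (nat_lit 4778) (nat_lit 5) (nat_lit 14))
    (@En.n l462 (nat_lit 3233) (nat_lit 5) (nat_lit 5))
    (@En.n l1207 (nat_lit 4142) (nat_lit 6) (nat_lit 6))
    (@En.i (nat_lit 2640) (nat_lit 7) (nat_lit 6))
    (@En.n l117 (nat_lit 6347) (nat_lit 5) (nat_lit 8))
    (@En.n l8 (nat_lit 3023) (nat_lit 9) (nat_lit 2))
    (@En.n l464 (nat_lit 2969) (nat_lit 11) (nat_lit 11))
    (@En.n l464 (nat_lit 2485) (nat_lit 12) (nat_lit 14))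
    (@En.n l465 (nat_lit 3022) (nat_lit 13) (nat_lit 10))
    (@En.n l1208 (nat_lit 5702) (nat_lit 3) (nat_lit 10))
    (@En.n l34 (nat_lit 3958) (nat_lit 4) (nat_lit 5))
    (@En.n l3 (nat_lit 3023) (nat_lit 15) (nat_lit 2))))
noncomputable def a189 : T16 Cl := @T16.mk Cl
  (@Cl.mk (nat_lit 0x200070007000e000700020007000e000c00020009000900040009000e0009) (nat_lit 0xb000260330042) (nat_lit 16) Lb.e (@T16.mk En
    (@En.n l5347 (nat_lit 3132) (nat_lit 5) (nat_lit 9))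
    (@En.n l9627 (nat_lit 3398) (nat_lit 7) (nat_lit 14))
    (@En.n l10939 (nat_lit 5959) (nat_lit 2) (nat_lit 9))
    (@En.n l1604 (nat_lit 4216) (nat_lit 3) (nat_lit 4))
    (@En.n l10940 (nat_lit 3665) (nat_lit 10) (nat_lit 9))
    (@En.n l10941 (nat_lit 4214) (nat_lit 5) (nat_lit 9))
    (@En.n l18 (nat_lit 3024) (nat_lit 6) (nat_lit 2))
    (@En.n l7927 (nat_lit 3025) (nat_lit 13) (nat_lit 12))
    (@En.n l10942 (nat_lit 4775) (nat_lit 9) (nat_lit 14))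
    (@En.n l4013 (nat_lit 3486) (nat_lit 2) (nat_lit 7))
    (@En.n l28 (nat_lit 3024) (nat_lit 10) (nat_lit 2))
    (@En.n l10943 (nat_lit 3664) (nat_lit 4) (nat_lit 7))
    (@En.n l9627 (nat_lit 9210) (nat_lit 13) (nat_lit 14))
    (@En.n l152 (nat_lit 3022) (nat_lit 9) (nat_lit 7))
    (@En.n l3851 (nat_lit 8988) (nat_lit 3) (nat_lit 7))
    (@En.n l8 (nat_lit 3024) (nat_lit 15) (nat_lit 2))))
  (@Cl.mk (nat_lit 0x20007000c000c00080008000400040009000e0009000200080008000e0007) (nat_lit 0x552300721045b0) (nat_lit 16) Lb.e (@T16.mk En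
    (@En.n l644 (nat_lit 2037) (nat_lit 12) (nat_lit 7))
    (@En.n l17160 (nat_lit 8279) (nat_lit 13) (nat_lit 14))
    (@En.n l15381 (nat_lit 3021) (nat_lit 8) (nat_lit 8))
    (@En.n l17161 (nat_lit 8991) (nat_lit 3) (nat_lit 8))
    (@En.n l17 (nat_lit 3025) (nat_lit 4) (nat_lit 2))
    (@En.n l17162 (nat_lit 2982) (nat_lit 5) (nat_lit 9))
    (@En.n l17160 (nat_lit 3389) (nat_lit 7) (nat_lit 14))
    (@En.n l17157 (nat_lit 9929) (nat_lit 2) (nat_lit 9))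
    (@En.n l15386 (nat_lit 3024) (nat_lit 3) (nat_lit 4))
    (@En.n l17163 (nat_lit 4217) (nat_lit 4) (nat_lit 4))
    (@En.n l3498 (nat_lit 3666) (nat_lit 11) (nat_lit 8))
    (@En.n l17164 (nat_lit 4212) (nat_lit 6) (nat_lit 8))
    (@En.n l55 (nat_lit 2984) (nat_lit 13) (nat_lit 12))
    (@En.n l17165 (nat_lit 8070) (nat_lit 9) (nat_lit 12))
    (@En.n l564 (nat_lit 3481) (nat_lit 10) (nat_lit 7))
    (@En.n l50 (nat_lit 3025) (nat_lit 15) (nat_lit 2))))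
  (@Cl.mk (nat_lit 0x20006000b000e00070002000e00050002000a000e000a00020009000e0006) (nat_lit 0x9c00a008720480) (nat_lit 16) Lb.e (@T16.mk En
    (@En.n l198 (nat_lit 2977) (nat_lit 13) (nat_lit 6))
    (@En.n l17711 (nat_lit 2852) (nat_lit 10) (nat_lit 14))
    (@En.i (nat_lit 3458) (nat_lit 2) (nat_lit 9))
    (@En.n l7 (nat_lit 3026) (nat_lit 3) (nat_lit 2))
    (@En.n l960 (nat_lit 2983) (nat_lit 4) (nat_lit 10))
    (@En.n l17712 (nat_lit 3385) (nat_lit 6) (nat_lit 14))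
    (@En.n l1316 (nat_lit 11331) (nat_lit 12) (nat_lit 10))
    (@En.n l107 (nat_lit 3026) (nat_lit 7) (nat_lit 2))
    (@En.n l3194 (nat_lit 3021) (nat_lit 14) (nat_lit 5))
    (@En.n l17713 (nat_lit 3028) (nat_lit 1) (nat_lit 14))
    (@En.n l17 (nat_lit 3026) (nat_lit 10) (nat_lit 2))
    (@En.n l3187 (nat_lit 2984) (nat_lit 12) (nat_lit 7))
    (@En.i (nat_lit 14080) (nat_lit 4) (nat_lit 14))
    (@En.n l17714 (nat_lit 12248) (nat_lit 10) (nat_lit 11))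
    (@En.i (nat_lit 1361) (nat_lit 6) (nat_lit 6))
    (@En.n l207 (nat_lit 3026) (nat_lit 15) (nat_lit 2))))
  (@Cl.mk (nat_lit 0x20006000b000e000c0002000900050004000a000e000a00020007000e0006) (nat_lit 0x43004000000090) (nat_lit 16) Lb.e (@T16.mk En
    (@En.n l7645 (nat_lit 3033) (nat_lit 5) (nat_lit 6))
    (@En.n l3869 (nat_lit 2765) (nat_lit 7) (nat_lit 14))
    (@En.n l2290 (nat_lit 7459) (nat_lit 2) (nat_lit 7))
    (@En.n l50 (nat_lit 3027) (nat_lit 3) (nat_lit 2))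
    (@En.n l7066 (nat_lit 3032) (nat_lit 4) (nat_lit 10))
    (@En.n l8820 (nat_lit 4759) (nat_lit 6) (nat_lit 14))
    (@En.i (nat_lit 12123) (nat_lit 2) (nat_lit 10))
    (@En.n l7069 (nat_lit 2647) (nat_lit 7) (nat_lit 4))
    (@En.n l725 (nat_lit 3030) (nat_lit 14) (nat_lit 5))
    (@En.i (nat_lit 4217) (nat_lit 5) (nat_lit 9))
    (@En.n l11 (nat_lit 3027) (nat_lit 10) (nat_lit 2))
    (@En.n l16556 (nat_lit 3031) (nat_lit 12) (nat_lit 12))
    (@En.n l2371 (nat_lit 3022) (nat_lit 4) (nat_lit 14))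
    (@En.n l617 (nat_lit 12780) (nat_lit 2) (nat_lit 11))
    (@En.n l7507 (nat_lit 4255) (nat_lit 3) (nat_lit 6))
    (@En.n l3 (nat_lit 3027) (nat_lit 15) (nat_lit 2))))
  (@Cl.mk (nat_lit 0x20005000a000e000a00020009000e000600020006000c000b0007000e0004) (nat_lit 0x7104b00095090) (nat_lit 16) Lb.e (@T16.mk En
    (@En.n l18251 (nat_lit 3031) (nat_lit 9) (nat_lit 4))
    (@En.n l1690 (nat_lit 3029) (nat_lit 11) (nat_lit 14))
    (@En.n l152 (nat_lit 2077) (nat_lit 12) (nat_lit 7))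
    (@En.n l7457 (nat_lit 3030) (nat_lit 3) (nat_lit 11))
    (@En.i (nat_lit 8047) (nat_lit 10) (nat_lit 12))
    (@En.n l18252 (nat_lit 4267) (nat_lit 5) (nat_lit 6))
    (@En.n l11 (nat_lit 3028) (nat_lit 6) (nat_lit 2))
    (@En.n l18253 (nat_lit 3702) (nat_lit 7) (nat_lit 6))
    (@En.n l2038 (nat_lit 2761) (nat_lit 9) (nat_lit 14))
    (@En.n l18254 (nat_lit 7795) (nat_lit 2) (nat_lit 9))
    (@En.n l17 (nat_lit 3028) (nat_lit 10) (nat_lit 2))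
    (@En.n l18255 (nat_lit 1170) (nat_lit 12) (nat_lit 10))
    (@En.i (nat_lit 4714) (nat_lit 13) (nat_lit 14))
    (@En.i (nat_lit 11034) (nat_lit 2) (nat_lit 10))
    (@En.n l8229 (nat_lit 3021) (nat_lit 13) (nat_lit 5))
    (@En.n l50 (nat_lit 3028) (nat_lit 15) (nat_lit 2))))
  (@Cl.mk (nat_lit 0x20006000d000b000e00030002000a0005000a000e000a00020006000e0006) (nat_lit 0xa5800300410010) (nat_lit 16) Lb.e (@T16.mk En
    (@En.n l11115 (nat_lit 3958) (nat_lit 13) (nat_lit 6))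
    (@En.n l180 (nat_lit 2760) (nat_lit 8) (nat_lit 14))
    (@En.n l3106 (nat_lit 7458) (nat_lit 2) (nat_lit 6))
    (@En.n l17 (nat_lit 3029) (nat_lit 3) (nat_lit 2))
    (@En.n l6644 (nat_lit 2646) (nat_lit 4) (nat_lit 10))
    (@En.n l11116 (nat_lit 4717) (nat_lit 6) (nat_lit 14))
    (@En.i (nat_lit 5574) (nat_lit 2) (nat_lit 10))
    (@En.n l3 (nat_lit 3028) (nat_lit 14) (nat_lit 5))
    (@En.i (nat_lit 4216) (nat_lit 4) (nat_lit 10))
    (@En.n l50 (nat_lit 3029) (nat_lit 9) (nat_lit 2))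
    (@En.n l11117 (nat_lit 2647) (nat_lit 10) (nat_lit 3))
    (@En.n l6644 (nat_lit 12991) (nat_lit 0) (nat_lit 14))
    (@En.n l6101 (nat_lit 3027) (nat_lit 13) (nat_lit 11))
    (@En.i (nat_lit 8048) (nat_lit 10) (nat_lit 13))
    (@En.n l3340 (nat_lit 4272) (nat_lit 4) (nat_lit 6))
    (@En.n l11 (nat_lit 3029) (nat_lit 15) (nat_lit 2))))
  (@Cl.mk (nat_lit 0x200050003000a000e000a0002000a000e000600020006000b0006000e000d) (nat_lit 0x10690004041) (nat_lit 16) Lb.e (@T16.mk En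
    (@En.n l26695 (nat_lit 1167) (nat_lit 11) (nat_lit 13))
    (@En.i (nat_lit 3027) (nat_lit 12) (nat_lit 14))
    (@En.n l17 (nat_lit 3093) (nat_lit 13) (nat_lit 6))
    (@En.i (nat_lit 12091) (nat_lit 3) (nat_lit 11))
    (@En.n l7507 (nat_lit 4259) (nat_lit 4) (nat_lit 6))
    (@En.n l3 (nat_lit 3030) (nat_lit 5) (nat_lit 2))
    (@En.n l7645 (nat_lit 3696) (nat_lit 6) (nat_lit 6))
    (@En.i (nat_lit 2729) (nat_lit 8) (nat_lit 14))
    (@En.i (nat_lit 4078) (nat_lit 2) (nat_lit 10))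
    (@En.n l50 (nat_lit 3030) (nat_lit 9) (nat_lit 2))
    (@En.i (nat_lit 1165) (nat_lit 11) (nat_lit 10))
    (@En.n l3328 (nat_lit 4812) (nat_lit 12) (nat_lit 14))
    (@En.i (nat_lit 12122) (nat_lit 13) (nat_lit 10))
    (@En.n l7136 (nat_lit 1167) (nat_lit 7) (nat_lit 3))
    (@En.n l7507 (nat_lit 3026) (nat_lit 8) (nat_lit 5))
    (@En.n l11 (nat_lit 3030) (nat_lit 15) (nat_lit 2))))
  (@Cl.mk (nat_lit 0x20006000c000c000c0008000400040004000a000e000a00020008000e0006) (nat_lit 0x9a2300000104a0) (nat_lit 16) Lb.e (@T16.mk En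
    (@En.n l7442 (nat_lit 3692) (nat_lit 13) (nat_lit 6))
    (@En.n l2939 (nat_lit 2764) (nat_lit 1) (nat_lit 14))
    (@En.n l7443 (nat_lit 5881) (nat_lit 2) (nat_lit 8))
    (@En.n l17 (nat_lit 3031) (nat_lit 3) (nat_lit 2))
    (@En.n l6444 (nat_lit 1169) (nat_lit 4) (nat_lit 10))
    (@En.n l5553 (nat_lit 4727) (nat_lit 6) (nat_lit 14))
    (@En.n l7444 (nat_lit 11007) (nat_lit 2) (nat_lit 10))
    (@En.n l7445 (nat_lit 3027) (nat_lit 7) (nat_lit 4))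
    (@En.n l7446 (nat_lit 4770) (nat_lit 8) (nat_lit 4))
    (@En.n l7447 (nat_lit 1167) (nat_lit 9) (nat_lit 4))
    (@En.n l7448 (nat_lit 2075) (nat_lit 11) (nat_lit 8))
    (@En.n l7449 (nat_lit 4772) (nat_lit 12) (nat_lit 12))
    (@En.n l7450 (nat_lit 3028) (nat_lit 4) (nat_lit 12))
    (@En.n l7444 (nat_lit 10999) (nat_lit 10) (nat_lit 12))
    (@En.n l7447 (nat_lit 3862) (nat_lit 13) (nat_lit 6))
    (@En.n l50 (nat_lit 3031) (nat_lit 15) (nat_lit 2))))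
  (@Cl.mk (nat_lit 0x200060006000b000e000c0002000a00050004000b000a000a0006000e0005) (nat_lit 0x9c104008800c0) (nat_lit 16) Lb.e (@T16.mk En
    (@En.n l6979 (nat_lit 1380) (nat_lit 6) (nat_lit 5))
    (@En.n l3451 (nat_lit 2725) (nat_lit 8) (nat_lit 14))
    (@En.n l10928 (nat_lit 3702) (nat_lit 2) (nat_lit 6))
    (@En.n l61 (nat_lit 3710) (nat_lit 10) (nat_lit 10))
    (@En.n l1545 (nat_lit 3899) (nat_lit 4) (nat_lit 10))
    (@En.n l14829 (nat_lit 12120) (nat_lit 12) (nat_lit 11))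
    (@En.i (nat_lit 1171) (nat_lit 6) (nat_lit 4))
    (@En.n l6999 (nat_lit 1165) (nat_lit 14) (nat_lit 5))
    (@En.n l575 (nat_lit 2989) (nat_lit 9) (nat_lit 10))
    (@En.n l67 (nat_lit 3032) (nat_lit 9) (nat_lit 2))
    (@En.n l68 (nat_lit 1169) (nat_lit 11) (nat_lit 12))
    (@En.n l17033 (nat_lit 3020) (nat_lit 4) (nat_lit 14))
    (@En.n l3451 (nat_lit 8187) (nat_lit 13) (nat_lit 11))
    (@En.n l17035 (nat_lit 3027) (nat_lit 14) (nat_lit 6))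
    (@En.n l25373 (nat_lit 1025) (nat_lit 4) (nat_lit 6))
    (@En.n l50 (nat_lit 3032) (nat_lit 15) (nat_lit 2))))
  (@Cl.mk (nat_lit 0x2000800050004000a000a000e000b00020008000600060005000b000e000c) (nat_lit 0x600011105000330) (nat_lit 16) Lb.e (@T16.mk En
    (@En.n l9391 (nat_lit 3692) (nat_lit 9) (nat_lit 12))
    (@En.n l3363 (nat_lit 3023) (nat_lit 4) (nat_lit 14))
    (@En.i (nat_lit 12259) (nat_lit 2) (nat_lit 11))
    (@En.n l9392 (nat_lit 3963) (nat_lit 3) (nat_lit 5))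
    (@En.n l9393 (nat_lit 3704) (nat_lit 4) (nat_lit 6))
    (@En.n l9394 (nat_lit 3583) (nat_lit 14) (nat_lit 6))
    (@En.n l9395 (nat_lit 6763) (nat_lit 6) (nat_lit 8))
    (@En.n l7 (nat_lit 3033) (nat_lit 7) (nat_lit 2))
    (@En.n l9396 (nat_lit 1380) (nat_lit 9) (nat_lit 11))
    (@En.n l9397 (nat_lit 2407) (nat_lit 10) (nat_lit 14))
    (@En.n l1316 (nat_lit 3027) (nat_lit 6) (nat_lit 10))
    (@En.n l9398 (nat_lit 7010) (nat_lit 3) (nat_lit 10))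
    (@En.n l9394 (nat_lit 3682) (nat_lit 4) (nat_lit 4))
    (@En.n l17 (nat_lit 3696) (nat_lit 14) (nat_lit 5))
    (@En.n l1203 (nat_lit 3957) (nat_lit 6) (nat_lit 8))
    (@En.n l3 (nat_lit 3033) (nat_lit 15) (nat_lit 2))))
  (@Cl.mk (nat_lit 0x30003000c000c000a000a00040004000c000a000600060004000d000d0006) (nat_lit 0x20730091000b20) (nat_lit 16) Lb.e (@T16.mk En
    (@En.n l11330 (nat_lit 2925) (nat_lit 0) (nat_lit 6))
    (@En.n l9272 (nat_lit 3035) (nat_lit 3) (nat_lit 13))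
    (@En.n l11331 (nat_lit 2789) (nat_lit 2) (nat_lit 13))
    (@En.n l11332 (nat_lit 7321) (nat_lit 3) (nat_lit 4))
    (@En.n l11333 (nat_lit 2736) (nat_lit 10) (nat_lit 6))
    (@En.n l11334 (nat_lit 3056) (nat_lit 5) (nat_lit 6))
    (@En.n l11330 (nat_lit 2724) (nat_lit 6) (nat_lit 10))
    (@En.n l11335 (nat_lit 7115) (nat_lit 8) (nat_lit 12))
    (@En.n l11336 (nat_lit 3048) (nat_lit 12) (nat_lit 4))
    (@En.n l152 (nat_lit 3039) (nat_lit 9) (nat_lit 4))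
    (@En.n l11337 (nat_lit 970) (nat_lit 6) (nat_lit 10))
    (@En.n l11338 (nat_lit 1602) (nat_lit 12) (nat_lit 10))
    (@En.n l11339 (nat_lit 3037) (nat_lit 4) (nat_lit 12))
    (@En.n l11340 (nat_lit 11936) (nat_lit 14) (nat_lit 12))
    (@En.n l11341 (nat_lit 1598) (nat_lit 13) (nat_lit 3))
    (@En.n l11342 (nat_lit 3035) (nat_lit 0) (nat_lit 3))))
  (@Cl.mk (nat_lit 0x2000c000c000a000a00040004000c000b000600060004000d0005000e0003) (nat_lit 0xa07300010001070) (nat_lit 16) Lb.e (@T16.mk En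
    (@En.n l3 (nat_lit 3034) (nat_lit 15) (nat_lit 3))
    (@En.n l551 (nat_lit 13651) (nat_lit 0) (nat_lit 14))
    (@En.n l24936 (nat_lit 2914) (nat_lit 2) (nat_lit 5))
    (@En.n l24937 (nat_lit 2788) (nat_lit 2) (nat_lit 13))
    (@En.n l24938 (nat_lit 7340) (nat_lit 4) (nat_lit 4))
    (@En.n l1483 (nat_lit 2900) (nat_lit 10) (nat_lit 6))
    (@En.n l551 (nat_lit 7304) (nat_lit 6) (nat_lit 6))
    (@En.n l24939 (nat_lit 2997) (nat_lit 8) (nat_lit 11))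
    (@En.n l9938 (nat_lit 7444) (nat_lit 9) (nat_lit 12))
    (@En.n l24940 (nat_lit 2904) (nat_lit 12) (nat_lit 4))
    (@En.i (nat_lit 3040) (nat_lit 10) (nat_lit 4))
    (@En.n l24941 (nat_lit 968) (nat_lit 6) (nat_lit 10))
    (@En.n l3208 (nat_lit 4465) (nat_lit 13) (nat_lit 10))
    (@En.n l24942 (nat_lit 3036) (nat_lit 14) (nat_lit 12))
    (@En.n l22603 (nat_lit 11935) (nat_lit 14) (nat_lit 12))
    (@En.n l17 (nat_lit 3035) (nat_lit 15) (nat_lit 2))))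
  (@Cl.mk (nat_lit 0x2000c00090009000e00040002000c000b000700070004000d0005000e0003) (nat_lit 0xa62700610001070) (nat_lit 16) Lb.e (@T16.mk En
    (@En.n l28 (nat_lit 3037) (nat_lit 6) (nat_lit 3))
    (@En.n l4096 (nat_lit 13660) (nat_lit 0) (nat_lit 14))
    (@En.i (nat_lit 2979) (nat_lit 8) (nat_lit 5))
    (@En.n l4147 (nat_lit 2784) (nat_lit 10) (nat_lit 13))
    (@En.n l152 (nat_lit 7317) (nat_lit 10) (nat_lit 4))
    (@En.n l34394 (nat_lit 4168) (nat_lit 5) (nat_lit 7))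
    (@En.n l31277 (nat_lit 7306) (nat_lit 6) (nat_lit 7))
    (@En.n l13443 (nat_lit 2994) (nat_lit 14) (nat_lit 11))
    (@En.n l4289 (nat_lit 7120) (nat_lit 9) (nat_lit 12))
    (@En.n l17 (nat_lit 3036) (nat_lit 9) (nat_lit 2))
    (@En.n l28238 (nat_lit 3035) (nat_lit 10) (nat_lit 4))
    (@En.i (nat_lit 4097) (nat_lit 1) (nat_lit 14))
    (@En.n l3865 (nat_lit 971) (nat_lit 7) (nat_lit 9))
    (@En.n l34395 (nat_lit 3315) (nat_lit 14) (nat_lit 9))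
    (@En.n l34396 (nat_lit 4176) (nat_lit 14) (nat_lit 12))
    (@En.n l7 (nat_lit 3036) (nat_lit 15) (nat_lit 2))))
  (@Cl.mk (nat_lit 0x2000c000a000700070004000d000d000600030003000c00090009000e0004) (nat_lit 0xa100012000a6270) (nat_lit 16) Lb.e (@T16.mk En
    (@En.n l19358 (nat_lit 3034) (nat_lit 9) (nat_lit 4))
    (@En.i (nat_lit 4099) (nat_lit 1) (nat_lit 14))
    (@En.n l2817 (nat_lit 972) (nat_lit 7) (nat_lit 9))
    (@En.n l19654 (nat_lit 3318) (nat_lit 3) (nat_lit 9))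
    (@En.n l19655 (nat_lit 12064) (nat_lit 14) (nat_lit 12))
    (@En.n l237 (nat_lit 3038) (nat_lit 13) (nat_lit 3))
    (@En.i (nat_lit 3036) (nat_lit 0) (nat_lit 3))
    (@En.n l4512 (nat_lit 2926) (nat_lit 0) (nat_lit 6))
    (@En.n l134 (nat_lit 3036) (nat_lit 3) (nat_lit 13))
    (@En.n l1593 (nat_lit 2785) (nat_lit 10) (nat_lit 13))
    (@En.n l152 (nat_lit 7316) (nat_lit 10) (nat_lit 4))
    (@En.n l16504 (nat_lit 2737) (nat_lit 12) (nat_lit 7))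
    (@En.n l3208 (nat_lit 7305) (nat_lit 13) (nat_lit 7))
    (@En.n l97 (nat_lit 2759) (nat_lit 14) (nat_lit 10))
    (@En.n l14512 (nat_lit 7117) (nat_lit 8) (nat_lit 12))
    (@En.n l17 (nat_lit 3037) (nat_lit 15) (nat_lit 2))))
  (@Cl.mk (nat_lit 0x200070003000c00090009000e00040002000c0009000700070004000e000d) (nat_lit 0xa626009100072) (nat_lit 16) Lb.e (@T16.mk En
    (@En.n l77 (nat_lit 3037) (nat_lit 9) (nat_lit 13))
    (@En.i (nat_lit 2564) (nat_lit 1) (nat_lit 14))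
    (@En.n l152 (nat_lit 7322) (nat_lit 2) (nat_lit 4))
    (@En.n l11197 (nat_lit 2738) (nat_lit 3) (nat_lit 7))
    (@En.n l5214 (nat_lit 7312) (nat_lit 4) (nat_lit 7))
    (@En.n l11198 (nat_lit 2725) (nat_lit 5) (nat_lit 9))
    (@En.n l5165 (nat_lit 7116) (nat_lit 7) (nat_lit 12))
    (@En.n l17 (nat_lit 3038) (nat_lit 7) (nat_lit 2))
    (@En.n l8313 (nat_lit 1598) (nat_lit 8) (nat_lit 4))
    (@En.i (nat_lit 4106) (nat_lit 10) (nat_lit 14))
    (@En.n l149 (nat_lit 1596) (nat_lit 7) (nat_lit 9))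
    (@En.n l11199 (nat_lit 3322) (nat_lit 12) (nat_lit 9))
    (@En.n l473 (nat_lit 10355) (nat_lit 13) (nat_lit 12))
    (@En.n l28 (nat_lit 3037) (nat_lit 5) (nat_lit 3))
    (@En.n l11200 (nat_lit 2169) (nat_lit 6) (nat_lit 7))
    (@En.n l28 (nat_lit 3038) (nat_lit 15) (nat_lit 2))))
  (@Cl.mk (nat_lit 0x30003000c0008000d000b00040003000c000a000500080004000d000d0006) (nat_lit 0x1a80000000000) (nat_lit 16) Lb.e (@T16.mk En
    (@En.n l11245 (nat_lit 3165) (nat_lit 0) (nat_lit 6))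
    (@En.n l61 (nat_lit 3040) (nat_lit 3) (nat_lit 13))
    (@En.n l17159 (nat_lit 4251) (nat_lit 2) (nat_lit 13))
    (@En.n l24951 (nat_lit 7327) (nat_lit 3) (nat_lit 4))
    (@En.n l1483 (nat_lit 3836) (nat_lit 10) (nat_lit 8))
    (@En.n l24952 (nat_lit 4575) (nat_lit 5) (nat_lit 5))
    (@En.n l10969 (nat_lit 3873) (nat_lit 14) (nat_lit 10))
    (@En.n l9938 (nat_lit 4587) (nat_lit 8) (nat_lit 12))
    (@En.n l11 (nat_lit 3043) (nat_lit 8) (nat_lit 3))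
    (@En.n l24953 (nat_lit 3037) (nat_lit 0) (nat_lit 4))
    (@En.i (nat_lit 3042) (nat_lit 11) (nat_lit 11))
    (@En.n l1144 (nat_lit 3276) (nat_lit 1) (nat_lit 13))
    (@En.n l24954 (nat_lit 1603) (nat_lit 13) (nat_lit 8))
    (@En.n l24955 (nat_lit 10959) (nat_lit 14) (nat_lit 12))
    (@En.n l3519 (nat_lit 3041) (nat_lit 13) (nat_lit 3))
    (@En.n l18 (nat_lit 3040) (nat_lit 0) (nat_lit 3))))
noncomputable def a190 : T16 Cl := @T16.mk Cl
  (@Cl.mk (nat_lit 0x2000c0008000d000b00040003000c000b000500080004000d0005000e0003) (nat_lit 0xb80001000b030) (nat_lit 16) Lb.e (@T16.mk En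
    (@En.i (nat_lit 3039) (nat_lit 15) (nat_lit 3))
    (@En.n l476 (nat_lit 13308) (nat_lit 0) (nat_lit 14))
    (@En.n l30899 (nat_lit 4471) (nat_lit 2) (nat_lit 5))
    (@En.n l17159 (nat_lit 4242) (nat_lit 2) (nat_lit 13))
    (@En.n l24951 (nat_lit 7410) (nat_lit 4) (nat_lit 4))
    (@En.n l1483 (nat_lit 3716) (nat_lit 10) (nat_lit 8))
    (@En.n l4147 (nat_lit 4576) (nat_lit 6) (nat_lit 5))
    (@En.n l24939 (nat_lit 2999) (nat_lit 8) (nat_lit 11))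
    (@En.n l9938 (nat_lit 7427) (nat_lit 9) (nat_lit 12))
    (@En.n l11 (nat_lit 3045) (nat_lit 9) (nat_lit 3))
    (@En.n l31462 (nat_lit 3036) (nat_lit 10) (nat_lit 4))
    (@En.i (nat_lit 3047) (nat_lit 12) (nat_lit 11))
    (@En.n l1144 (nat_lit 4098) (nat_lit 13) (nat_lit 13))
    (@En.i (nat_lit 4463) (nat_lit 14) (nat_lit 8))
    (@En.i (nat_lit 10958) (nat_lit 14) (nat_lit 12))
    (@En.n l17 (nat_lit 3040) (nat_lit 15) (nat_lit 2))))
  (@Cl.mk (nat_lit 0x200070003000c0008000d000b00040003000c0009000500080004000e000d) (nat_lit 0x1b8000000011) (nat_lit 16) Lb.e (@T16.mk En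
    (@En.n l4130 (nat_lit 3039) (nat_lit 2) (nat_lit 13))
    (@En.i (nat_lit 2748) (nat_lit 1) (nat_lit 14))
    (@En.i (nat_lit 7326) (nat_lit 2) (nat_lit 4))
    (@En.n l9453 (nat_lit 3838) (nat_lit 10) (nat_lit 8))
    (@En.n l429 (nat_lit 4583) (nat_lit 4) (nat_lit 5))
    (@En.n l61 (nat_lit 4252) (nat_lit 5) (nat_lit 9))
    (@En.n l564 (nat_lit 7111) (nat_lit 7) (nat_lit 12))
    (@En.n l7 (nat_lit 4197) (nat_lit 7) (nat_lit 3))
    (@En.n l4075 (nat_lit 3038) (nat_lit 8) (nat_lit 4))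
    (@En.n l644 (nat_lit 4196) (nat_lit 10) (nat_lit 11))
    (@En.n l4576 (nat_lit 3277) (nat_lit 11) (nat_lit 13))
    (@En.n l9453 (nat_lit 1600) (nat_lit 12) (nat_lit 8))
    (@En.i (nat_lit 10343) (nat_lit 13) (nat_lit 12))
    (@En.n l2832 (nat_lit 3039) (nat_lit 14) (nat_lit 3))
    (@En.n l3098 (nat_lit 2881) (nat_lit 0) (nat_lit 7))
    (@En.n l3 (nat_lit 3041) (nat_lit 15) (nat_lit 2))))
  (@Cl.mk (nat_lit 0x30003000d0008000b0003000c000b00090005000400080005000d000d0007) (nat_lit 0x1706060010000) (nat_lit 16) Lb.e (@T16.mk En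
    (@En.n l28688 (nat_lit 3155) (nat_lit 0) (nat_lit 7))
    (@En.n l61 (nat_lit 3047) (nat_lit 3) (nat_lit 13))
    (@En.n l28689 (nat_lit 4295) (nat_lit 2) (nat_lit 13))
    (@En.n l7 (nat_lit 7406) (nat_lit 3) (nat_lit 5))
    (@En.n l1157 (nat_lit 3039) (nat_lit 4) (nat_lit 8))
    (@En.i (nat_lit 3043) (nat_lit 5) (nat_lit 4))
    (@En.n l28690 (nat_lit 4572) (nat_lit 6) (nat_lit 5))
    (@En.n l55 (nat_lit 3742) (nat_lit 1) (nat_lit 9))
    (@En.n l55 (nat_lit 4209) (nat_lit 9) (nat_lit 11))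
    (@En.n l11 (nat_lit 3990) (nat_lit 10) (nat_lit 12))
    (@En.n l15709 (nat_lit 1602) (nat_lit 10) (nat_lit 3))
    (@En.n l13405 (nat_lit 3273) (nat_lit 7) (nat_lit 11))
    (@En.i (nat_lit 1604) (nat_lit 13) (nat_lit 8))
    (@En.n l28688 (nat_lit 10960) (nat_lit 2) (nat_lit 13))
    (@En.n l28691 (nat_lit 4196) (nat_lit 13) (nat_lit 3))
    (@En.n l18 (nat_lit 3047) (nat_lit 0) (nat_lit 3))))
  (@Cl.mk (nat_lit 0x30003000d0008000d0003000c0003000c000a000400080004000d000d0006) (nat_lit 0x90a05005030000) (nat_lit 16) Lb.e (@T16.mk En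
    (@En.n l11245 (nat_lit 3166) (nat_lit 0) (nat_lit 6))
    (@En.n l61 (nat_lit 3045) (nat_lit 3) (nat_lit 13))
    (@En.n l14697 (nat_lit 4250) (nat_lit 2) (nat_lit 13))
    (@En.n l7 (nat_lit 7330) (nat_lit 3) (nat_lit 4))
    (@En.i (nat_lit 3785) (nat_lit 4) (nat_lit 8))
    (@En.i (nat_lit 4201) (nat_lit 5) (nat_lit 4))
    (@En.i (nat_lit 3872) (nat_lit 0) (nat_lit 10))
    (@En.n l3528 (nat_lit 5527) (nat_lit 8) (nat_lit 12))
    (@En.i (nat_lit 3039) (nat_lit 8) (nat_lit 3))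
    (@En.i (nat_lit 4882) (nat_lit 0) (nat_lit 12))
    (@En.n l117 (nat_lit 3044) (nat_lit 10) (nat_lit 3))
    (@En.n l619 (nat_lit 3278) (nat_lit 0) (nat_lit 13))
    (@En.i (nat_lit 4199) (nat_lit 13) (nat_lit 8))
    (@En.i (nat_lit 10699) (nat_lit 2) (nat_lit 13))
    (@En.n l3519 (nat_lit 4197) (nat_lit 13) (nat_lit 3))
    (@En.n l18 (nat_lit 3045) (nat_lit 0) (nat_lit 3))))
  (@Cl.mk (nat_lit 0x30003000d000c00090003000c0004000c000a000400070004000d000d0006) (nat_lit 0x91000005000000) (nat_lit 16) Lb.e (@T16.mk En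
    (@En.n l5874 (nat_lit 3164) (nat_lit 0) (nat_lit 6))
    (@En.n l4007 (nat_lit 3046) (nat_lit 3) (nat_lit 13))
    (@En.n l4003 (nat_lit 4322) (nat_lit 2) (nat_lit 13))
    (@En.n l7 (nat_lit 7328) (nat_lit 3) (nat_lit 4))
    (@En.n l1769 (nat_lit 3826) (nat_lit 11) (nat_lit 7))
    (@En.n l11334 (nat_lit 4203) (nat_lit 5) (nat_lit 4))
    (@En.i (nat_lit 3859) (nat_lit 0) (nat_lit 10))
    (@En.n l1140 (nat_lit 3926) (nat_lit 8) (nat_lit 12))
    (@En.i (nat_lit 3034) (nat_lit 8) (nat_lit 4))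
    (@En.i (nat_lit 4199) (nat_lit 10) (nat_lit 12))
    (@En.n l152 (nat_lit 3043) (nat_lit 10) (nat_lit 3))
    (@En.n l11366 (nat_lit 4157) (nat_lit 0) (nat_lit 9))
    (@En.n l619 (nat_lit 3039) (nat_lit 13) (nat_lit 12))
    (@En.i (nat_lit 10700) (nat_lit 2) (nat_lit 13))
    (@En.n l4298 (nat_lit 4198) (nat_lit 13) (nat_lit 3))
    (@En.n l4296 (nat_lit 3046) (nat_lit 0) (nat_lit 3))))
  (@Cl.mk (nat_lit 0x2000d0008000d0003000c0003000c000b000400080004000d0005000e0003) (nat_lit 0x90b06000000b030) (nat_lit 16) Lb.e (@T16.mk En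
    (@En.i (nat_lit 3043) (nat_lit 15) (nat_lit 3))
    (@En.n l476 (nat_lit 13307) (nat_lit 0) (nat_lit 14))
    (@En.n l7 (nat_lit 4472) (nat_lit 2) (nat_lit 5))
    (@En.n l396 (nat_lit 4244) (nat_lit 2) (nat_lit 13))
    (@En.n l7 (nat_lit 7416) (nat_lit 4) (nat_lit 4))
    (@En.i (nat_lit 3784) (nat_lit 5) (nat_lit 8))
    (@En.i (nat_lit 4208) (nat_lit 6) (nat_lit 4))
    (@En.n l644 (nat_lit 3339) (nat_lit 8) (nat_lit 11))
    (@En.n l3528 (nat_lit 5529) (nat_lit 9) (nat_lit 12))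
    (@En.i (nat_lit 3040) (nat_lit 9) (nat_lit 3))
    (@En.i (nat_lit 4884) (nat_lit 11) (nat_lit 12))
    (@En.i (nat_lit 3046) (nat_lit 11) (nat_lit 3))
    (@En.n l619 (nat_lit 4101) (nat_lit 0) (nat_lit 13))
    (@En.i (nat_lit 4462) (nat_lit 14) (nat_lit 8))
    (@En.i (nat_lit 10696) (nat_lit 2) (nat_lit 13))
    (@En.n l17 (nat_lit 3045) (nat_lit 15) (nat_lit 2))))
  (@Cl.mk (nat_lit 0x2000d000c00090003000c0004000c000b000400070004000d0005000e0003) (nat_lit 0x91006000000b030) (nat_lit 16) Lb.e (@T16.mk En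
    (@En.n l117 (nat_lit 3044) (nat_lit 15) (nat_lit 3))
    (@En.n l7705 (nat_lit 13309) (nat_lit 0) (nat_lit 14))
    (@En.n l7 (nat_lit 4470) (nat_lit 2) (nat_lit 5))
    (@En.n l5369 (nat_lit 4245) (nat_lit 2) (nat_lit 13))
    (@En.n l7705 (nat_lit 7341) (nat_lit 4) (nat_lit 4))
    (@En.n l1992 (nat_lit 4071) (nat_lit 11) (nat_lit 7))
    (@En.n l23060 (nat_lit 4206) (nat_lit 6) (nat_lit 4))
    (@En.n l644 (nat_lit 3338) (nat_lit 8) (nat_lit 11))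
    (@En.n l9956 (nat_lit 5530) (nat_lit 9) (nat_lit 12))
    (@En.n l107 (nat_lit 3035) (nat_lit 9) (nat_lit 4))
    (@En.n l117 (nat_lit 4462) (nat_lit 11) (nat_lit 12))
    (@En.n l107 (nat_lit 3045) (nat_lit 11) (nat_lit 3))
    (@En.n l24986 (nat_lit 4160) (nat_lit 0) (nat_lit 9))
    (@En.n l575 (nat_lit 3040) (nat_lit 14) (nat_lit 12))
    (@En.n l9956 (nat_lit 10697) (nat_lit 2) (nat_lit 13))
    (@En.n l17 (nat_lit 3046) (nat_lit 15) (nat_lit 2))))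
  (@Cl.mk (nat_lit 0x2000d0008000b0003000c000b000a0005000400080005000d0006000e0003) (nat_lit 0x700070010b060) (nat_lit 16) Lb.e (@T16.mk En
    (@En.i (nat_lit 3042) (nat_lit 15) (nat_lit 3))
    (@En.n l4989 (nat_lit 14017) (nat_lit 0) (nat_lit 14))
    (@En.n l7 (nat_lit 3147) (nat_lit 2) (nat_lit 6))
    (@En.n l2724 (nat_lit 4240) (nat_lit 2) (nat_lit 13))
    (@En.n l7 (nat_lit 7407) (nat_lit 4) (nat_lit 5))
    (@En.n l1157 (nat_lit 3040) (nat_lit 5) (nat_lit 8))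
    (@En.i (nat_lit 3045) (nat_lit 6) (nat_lit 4))
    (@En.n l1593 (nat_lit 4574) (nat_lit 7) (nat_lit 5))
    (@En.n l4380 (nat_lit 3331) (nat_lit 9) (nat_lit 10))
    (@En.n l55 (nat_lit 7430) (nat_lit 10) (nat_lit 11))
    (@En.n l11 (nat_lit 3998) (nat_lit 11) (nat_lit 12))
    (@En.n l11616 (nat_lit 4465) (nat_lit 11) (nat_lit 3))
    (@En.n l13405 (nat_lit 4182) (nat_lit 7) (nat_lit 11))
    (@En.i (nat_lit 4464) (nat_lit 14) (nat_lit 8))
    (@En.i (nat_lit 10410) (nat_lit 2) (nat_lit 13))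
    (@En.n l17 (nat_lit 3047) (nat_lit 15) (nat_lit 2))))
  (@Cl.mk (nat_lit 0x2000b000b0004000c000a000500050004000d000d000600030003000e000c) (nat_lit 0x840810005600053) (nat_lit 16) Lb.e (@T16.mk En
    (@En.n l4182 (nat_lit 3034) (nat_lit 13) (nat_lit 12))
    (@En.n l4183 (nat_lit 12608) (nat_lit 1) (nat_lit 14))
    (@En.n l4184 (nat_lit 3049) (nat_lit 13) (nat_lit 3))
    (@En.n l4185 (nat_lit 2904) (nat_lit 3) (nat_lit 3))
    (@En.i (nat_lit 2319) (nat_lit 0) (nat_lit 6))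
    (@En.n l4186 (nat_lit 2904) (nat_lit 6) (nat_lit 13))
    (@En.n l1596 (nat_lit 2779) (nat_lit 7) (nat_lit 13))
    (@En.n l4187 (nat_lit 3060) (nat_lit 7) (nat_lit 4))
    (@En.n l4188 (nat_lit 2901) (nat_lit 11) (nat_lit 5))
    (@En.n l1596 (nat_lit 3053) (nat_lit 9) (nat_lit 5))
    (@En.i (nat_lit 1157) (nat_lit 11) (nat_lit 10))
    (@En.n l4189 (nat_lit 4692) (nat_lit 12) (nat_lit 12))
    (@En.n l4190 (nat_lit 3044) (nat_lit 8) (nat_lit 4))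
    (@En.n l61 (nat_lit 969) (nat_lit 5) (nat_lit 11))
    (@En.n l3637 (nat_lit 1603) (nat_lit 11) (nat_lit 11))
    (@En.n l7 (nat_lit 3048) (nat_lit 15) (nat_lit 2))))
  (@Cl.mk (nat_lit 0x200070003000e000c0002000b000b0004000c0009000500050004000e000d) (nat_lit 0x510840a700046) (nat_lit 16) Lb.e (@T16.mk En
    (@En.n l1305 (nat_lit 3048) (nat_lit 6) (nat_lit 13))
    (@En.n l1306 (nat_lit 2551) (nat_lit 1) (nat_lit 14))
    (@En.n l28 (nat_lit 7323) (nat_lit 2) (nat_lit 4))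
    (@En.n l1307 (nat_lit 3050) (nat_lit 11) (nat_lit 5))
    (@En.i (nat_lit 3052) (nat_lit 4) (nat_lit 5))
    (@En.n l1308 (nat_lit 2718) (nat_lit 5) (nat_lit 9))
    (@En.n l1309 (nat_lit 4786) (nat_lit 7) (nat_lit 12))
    (@En.n l693 (nat_lit 4198) (nat_lit 7) (nat_lit 4))
    (@En.n l1310 (nat_lit 1597) (nat_lit 5) (nat_lit 11))
    (@En.i (nat_lit 1600) (nat_lit 10) (nat_lit 11))
    (@En.n l3 (nat_lit 3049) (nat_lit 10) (nat_lit 2))
    (@En.n l1311 (nat_lit 1598) (nat_lit 12) (nat_lit 12))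
    (@En.i (nat_lit 12760) (nat_lit 1) (nat_lit 14))
    (@En.n l1308 (nat_lit 3048) (nat_lit 2) (nat_lit 3))
    (@En.n l1312 (nat_lit 2161) (nat_lit 3) (nat_lit 7))
    (@En.n l50 (nat_lit 3049) (nat_lit 15) (nat_lit 2))))
  (@Cl.mk (nat_lit 0x20005000d000a00050003000e000d000200060003000e000b0002000e000b) (nat_lit 0x21006500001029) (nat_lit 16) Lb.e (@T16.mk En
    (@En.n l384 (nat_lit 3049) (nat_lit 9) (nat_lit 11))
    (@En.n l385 (nat_lit 2739) (nat_lit 1) (nat_lit 14))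
    (@En.n l18 (nat_lit 3050) (nat_lit 2) (nat_lit 2))
    (@En.n l386 (nat_lit 2739) (nat_lit 3) (nat_lit 11))
    (@En.n l384 (nat_lit 12759) (nat_lit 5) (nat_lit 14))
    (@En.n l126 (nat_lit 2901) (nat_lit 5) (nat_lit 3))
    (@En.n l13 (nat_lit 2487) (nat_lit 6) (nat_lit 6))
    (@En.n l8 (nat_lit 3050) (nat_lit 7) (nat_lit 2))
    (@En.n l127 (nat_lit 2901) (nat_lit 9) (nat_lit 13))
    (@En.n l126 (nat_lit 2630) (nat_lit 10) (nat_lit 14))
    (@En.n l11 (nat_lit 3051) (nat_lit 2) (nat_lit 3))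
    (@En.n l128 (nat_lit 4145) (nat_lit 3) (nat_lit 5))
    (@En.n l13 (nat_lit 2640) (nat_lit 13) (nat_lit 10))
    (@En.n l387 (nat_lit 4751) (nat_lit 6) (nat_lit 13))
    (@En.n l128 (nat_lit 4112) (nat_lit 6) (nat_lit 5))
    (@En.n l3 (nat_lit 3050) (nat_lit 15) (nat_lit 2))))
  (@Cl.mk (nat_lit 0x200050003000e000b0002000e000c00020005000d0004000b0003000e000d) (nat_lit 0x7102300301062) (nat_lit 16) Lb.e (@T16.mk En
    (@En.n l538 (nat_lit 2735) (nat_lit 9) (nat_lit 13))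
    (@En.i (nat_lit 2640) (nat_lit 10) (nat_lit 14))
    (@En.i (nat_lit 3050) (nat_lit 10) (nat_lit 3))
    (@En.i (nat_lit 2631) (nat_lit 3) (nat_lit 11))
    (@En.n l132 (nat_lit 1368) (nat_lit 4) (nat_lit 4))
    (@En.n l387 (nat_lit 4750) (nat_lit 6) (nat_lit 13))
    (@En.n l1329 (nat_lit 3843) (nat_lit 6) (nat_lit 5))
    (@En.n l3 (nat_lit 3051) (nat_lit 7) (nat_lit 2))
    (@En.n l133 (nat_lit 2721) (nat_lit 9) (nat_lit 12))
    (@En.n l1329 (nat_lit 2732) (nat_lit 10) (nat_lit 14))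
    (@En.n l18 (nat_lit 3051) (nat_lit 10) (nat_lit 2))
    (@En.n l1330 (nat_lit 2732) (nat_lit 12) (nat_lit 11))
    (@En.n l564 (nat_lit 12567) (nat_lit 13) (nat_lit 14))
    (@En.n l7 (nat_lit 2735) (nat_lit 5) (nat_lit 3))
    (@En.n l1252 (nat_lit 2710) (nat_lit 6) (nat_lit 5))
    (@En.n l8 (nat_lit 3051) (nat_lit 15) (nat_lit 2))))
  (@Cl.mk (nat_lit 0x2000a0003000e000b0002000b0006000c0005000d000500040003000e000d) (nat_lit 0x7003050000080) (nat_lit 16) Lb.e (@T16.mk En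
    (@En.n l4191 (nat_lit 3053) (nat_lit 6) (nat_lit 13))
    (@En.n l1306 (nat_lit 7351) (nat_lit 1) (nat_lit 14))
    (@En.n l28 (nat_lit 3057) (nat_lit 2) (nat_lit 3))
    (@En.n l4192 (nat_lit 5136) (nat_lit 3) (nat_lit 4))
    (@En.i (nat_lit 1593) (nat_lit 4) (nat_lit 5))
    (@En.n l4193 (nat_lit 4787) (nat_lit 6) (nat_lit 13))
    (@En.n l1386 (nat_lit 4202) (nat_lit 6) (nat_lit 5))
    (@En.n l1386 (nat_lit 2721) (nat_lit 8) (nat_lit 12))
    (@En.n l2364 (nat_lit 8637) (nat_lit 14) (nat_lit 6))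
    (@En.i (nat_lit 7280) (nat_lit 10) (nat_lit 11))
    (@En.n l3 (nat_lit 3052) (nat_lit 10) (nat_lit 2))
    (@En.n l1311 (nat_lit 7318) (nat_lit 12) (nat_lit 11))
    (@En.i (nat_lit 12383) (nat_lit 1) (nat_lit 14))
    (@En.n l1306 (nat_lit 3053) (nat_lit 2) (nat_lit 3))
    (@En.n l1386 (nat_lit 7831) (nat_lit 3) (nat_lit 10))
    (@En.n l50 (nat_lit 3052) (nat_lit 15) (nat_lit 2))))
  (@Cl.mk (nat_lit 0x2000b0007000c0005000d000500040003000d000d000900030003000e000b) (nat_lit 0x30400000b000070) (nat_lit 16) Lb.e (@T16.mk En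
    (@En.n l11358 (nat_lit 3056) (nat_lit 13) (nat_lit 11))
    (@En.n l11359 (nat_lit 12354) (nat_lit 1) (nat_lit 14))
    (@En.n l8862 (nat_lit 3052) (nat_lit 13) (nat_lit 3))
    (@En.n l8258 (nat_lit 3054) (nat_lit 3) (nat_lit 3))
    (@En.n l11360 (nat_lit 7142) (nat_lit 4) (nat_lit 9))
    (@En.n l8259 (nat_lit 3054) (nat_lit 6) (nat_lit 13))
    (@En.i (nat_lit 9824) (nat_lit 7) (nat_lit 13))
    (@En.n l3488 (nat_lit 3055) (nat_lit 7) (nat_lit 3))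
    (@En.n l3519 (nat_lit 5135) (nat_lit 8) (nat_lit 4))
    (@En.n l1985 (nat_lit 1107) (nat_lit 9) (nat_lit 5))
    (@En.n l3522 (nat_lit 4684) (nat_lit 11) (nat_lit 13))
    (@En.n l11361 (nat_lit 4203) (nat_lit 7) (nat_lit 5))
    (@En.i (nat_lit 2722) (nat_lit 13) (nat_lit 12))
    (@En.n l11362 (nat_lit 8635) (nat_lit 14) (nat_lit 7))
    (@En.n l11359 (nat_lit 7279) (nat_lit 11) (nat_lit 11))
    (@En.n l7 (nat_lit 3053) (nat_lit 15) (nat_lit 2))))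
  (@Cl.mk (nat_lit 0x2000b0008000c0005000d000500040003000d0008000e00030002000e000b) (nat_lit 0x30400000b000070) (nat_lit 16) Lb.e (@T16.mk En
    (@En.n l5551 (nat_lit 7304) (nat_lit 14) (nat_lit 11))
    (@En.n l17568 (nat_lit 12355) (nat_lit 1) (nat_lit 14))
    (@En.n l50 (nat_lit 3054) (nat_lit 2) (nat_lit 2))
    (@En.n l3528 (nat_lit 3053) (nat_lit 3) (nat_lit 3))
    (@En.n l5276 (nat_lit 13188) (nat_lit 0) (nat_lit 14))
    (@En.i (nat_lit 6562) (nat_lit 5) (nat_lit 8))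
    (@En.n l649 (nat_lit 9825) (nat_lit 7) (nat_lit 13))
    (@En.n l18591 (nat_lit 3059) (nat_lit 7) (nat_lit 3))
    (@En.n l152 (nat_lit 5134) (nat_lit 8) (nat_lit 4))
    (@En.n l14309 (nat_lit 1106) (nat_lit 9) (nat_lit 5))
    (@En.i (nat_lit 4688) (nat_lit 11) (nat_lit 13))
    (@En.n l5276 (nat_lit 4206) (nat_lit 8) (nat_lit 5))
    (@En.i (nat_lit 967) (nat_lit 13) (nat_lit 12))
    (@En.n l24985 (nat_lit 7779) (nat_lit 14) (nat_lit 8))
    (@En.n l10089 (nat_lit 7278) (nat_lit 12) (nat_lit 11))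
    (@En.n l17 (nat_lit 3054) (nat_lit 15) (nat_lit 2))))
  (@Cl.mk (nat_lit 0x2000a0007000d0005000d000300060003000d000d000900030003000e000b) (nat_lit 0x804000000000090) (nat_lit 16) Lb.e (@T16.mk En
    (@En.n l3588 (nat_lit 3061) (nat_lit 13) (nat_lit 11))
    (@En.i (nat_lit 12351) (nat_lit 1) (nat_lit 14))
    (@En.n l18 (nat_lit 3057) (nat_lit 13) (nat_lit 3))
    (@En.n l403 (nat_lit 3059) (nat_lit 3) (nat_lit 3))
    (@En.n l6444 (nat_lit 7145) (nat_lit 4) (nat_lit 9))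
    (@En.n l1131 (nat_lit 3059) (nat_lit 6) (nat_lit 13))
    (@En.n l723 (nat_lit 8864) (nat_lit 7) (nat_lit 13))
    (@En.n l1306 (nat_lit 3053) (nat_lit 7) (nat_lit 3))
    (@En.n l3037 (nat_lit 2909) (nat_lit 12) (nat_lit 6))
    (@En.i (nat_lit 3058) (nat_lit 9) (nat_lit 3))
    (@En.n l6672 (nat_lit 4687) (nat_lit 0) (nat_lit 13))
    (@En.n l117 (nat_lit 7113) (nat_lit 7) (nat_lit 5))
    (@En.n l2197 (nat_lit 3060) (nat_lit 13) (nat_lit 13))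
    (@En.n l403 (nat_lit 8634) (nat_lit 14) (nat_lit 7))
    (@En.i (nat_lit 7263) (nat_lit 11) (nat_lit 10))
    (@En.n l3 (nat_lit 3055) (nat_lit 15) (nat_lit 2))))
noncomputable def a191 : T16 Cl := @T16.mk Cl
  (@Cl.mk (nat_lit 0x30003000b000b000a0006000b00050005000d000600050003000d000d000a) (nat_lit 0x96204006000000) (nat_lit 16) Lb.e (@T16.mk En
    (@En.n l17192 (nat_lit 6361) (nat_lit 0) (nat_lit 10))
    (@En.n l12851 (nat_lit 7304) (nat_lit 3) (nat_lit 13))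
    (@En.n l24943 (nat_lit 7958) (nat_lit 2) (nat_lit 13))
    (@En.n l24944 (nat_lit 3061) (nat_lit 3) (nat_lit 3))
    (@En.n l24945 (nat_lit 4152) (nat_lit 0) (nat_lit 5))
    (@En.i (nat_lit 337) (nat_lit 5) (nat_lit 6))
    (@En.n l14009 (nat_lit 7202) (nat_lit 7) (nat_lit 13))
    (@En.n l24946 (nat_lit 3053) (nat_lit 11) (nat_lit 5))
    (@En.n l28 (nat_lit 4575) (nat_lit 8) (nat_lit 5))
    (@En.n l19801 (nat_lit 2723) (nat_lit 10) (nat_lit 11))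
    (@En.n l3503 (nat_lit 8319) (nat_lit 6) (nat_lit 6))
    (@En.n l644 (nat_lit 6990) (nat_lit 12) (nat_lit 10))
    (@En.n l77 (nat_lit 7305) (nat_lit 5) (nat_lit 11))
    (@En.i (nat_lit 10628) (nat_lit 14) (nat_lit 11))
    (@En.n l17199 (nat_lit 7318) (nat_lit 13) (nat_lit 3))
    (@En.n l14014 (nat_lit 7304) (nat_lit 0) (nat_lit 3))))
  (@Cl.mk (nat_lit 0x2000a0003000e000b0002000a0006000d0005000d000300060003000e000d) (nat_lit 0x9007030000051) (nat_lit 16) Lb.e (@T16.mk En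
    (@En.n l396 (nat_lit 3055) (nat_lit 6) (nat_lit 13))
    (@En.i (nat_lit 8870) (nat_lit 1) (nat_lit 14))
    (@En.i (nat_lit 3052) (nat_lit 2) (nat_lit 3))
    (@En.i (nat_lit 2910) (nat_lit 12) (nat_lit 6))
    (@En.i (nat_lit 7349) (nat_lit 4) (nat_lit 3))
    (@En.i (nat_lit 4788) (nat_lit 0) (nat_lit 13))
    (@En.n l117 (nat_lit 7112) (nat_lit 6) (nat_lit 5))
    (@En.n l725 (nat_lit 7323) (nat_lit 8) (nat_lit 13))
    (@En.n l2364 (nat_lit 8636) (nat_lit 14) (nat_lit 6))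
    (@En.i (nat_lit 7264) (nat_lit 10) (nat_lit 10))
    (@En.n l3 (nat_lit 3057) (nat_lit 10) (nat_lit 2))
    (@En.i (nat_lit 7319) (nat_lit 12) (nat_lit 11))
    (@En.i (nat_lit 12400) (nat_lit 1) (nat_lit 14))
    (@En.i (nat_lit 3055) (nat_lit 2) (nat_lit 3))
    (@En.i (nat_lit 7830) (nat_lit 3) (nat_lit 10))
    (@En.n l50 (nat_lit 3057) (nat_lit 15) (nat_lit 2))))
  (@Cl.mk (nat_lit 0x2000a0007000d000c0006000300060004000d000d000900030003000e000a) (nat_lit 0x8035000000000a0) (nat_lit 16) Lb.e (@T16.mk En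
    (@En.n l8139 (nat_lit 7314) (nat_lit 13) (nat_lit 10))
    (@En.i (nat_lit 12346) (nat_lit 1) (nat_lit 14))
    (@En.n l18 (nat_lit 7349) (nat_lit 13) (nat_lit 3))
    (@En.n l8140 (nat_lit 7338) (nat_lit 3) (nat_lit 3))
    (@En.n l6444 (nat_lit 7143) (nat_lit 4) (nat_lit 9))
    (@En.n l8141 (nat_lit 7338) (nat_lit 6) (nat_lit 13))
    (@En.n l8142 (nat_lit 8259) (nat_lit 7) (nat_lit 13))
    (@En.n l8143 (nat_lit 5137) (nat_lit 7) (nat_lit 4))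
    (@En.n l1080 (nat_lit 1237) (nat_lit 8) (nat_lit 6))
    (@En.n l11 (nat_lit 3055) (nat_lit 9) (nat_lit 3))
    (@En.n l8142 (nat_lit 3535) (nat_lit 0) (nat_lit 6))
    (@En.n l8144 (nat_lit 3053) (nat_lit 12) (nat_lit 12))
    (@En.n l2197 (nat_lit 7337) (nat_lit 13) (nat_lit 13))
    (@En.n l403 (nat_lit 7345) (nat_lit 14) (nat_lit 7))
    (@En.n l1080 (nat_lit 7229) (nat_lit 11) (nat_lit 10))
    (@En.n l3 (nat_lit 3058) (nat_lit 15) (nat_lit 2))))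
  (@Cl.mk (nat_lit 0x2000a0008000d0005000d000300060003000d0008000e00030002000e000b) (nat_lit 0x80400000b000090) (nat_lit 16) Lb.e (@T16.mk En
    (@En.n l17134 (nat_lit 7296) (nat_lit 14) (nat_lit 11))
    (@En.n l2781 (nat_lit 12352) (nat_lit 1) (nat_lit 14))
    (@En.n l18 (nat_lit 3059) (nat_lit 2) (nat_lit 2))
    (@En.n l1545 (nat_lit 3055) (nat_lit 3) (nat_lit 3))
    (@En.n l28548 (nat_lit 13873) (nat_lit 0) (nat_lit 14))
    (@En.i (nat_lit 6563) (nat_lit 5) (nat_lit 8))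
    (@En.n l4356 (nat_lit 8862) (nat_lit 7) (nat_lit 13))
    (@En.n l28549 (nat_lit 3054) (nat_lit 7) (nat_lit 3))
    (@En.n l28550 (nat_lit 3426) (nat_lit 12) (nat_lit 6))
    (@En.n l19453 (nat_lit 7338) (nat_lit 9) (nat_lit 3))
    (@En.n l19453 (nat_lit 4689) (nat_lit 0) (nat_lit 13))
    (@En.n l28551 (nat_lit 7431) (nat_lit 8) (nat_lit 5))
    (@En.n l3348 (nat_lit 7339) (nat_lit 13) (nat_lit 13))
    (@En.i (nat_lit 7778) (nat_lit 14) (nat_lit 8))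
    (@En.n l2781 (nat_lit 7275) (nat_lit 12) (nat_lit 10))
    (@En.n l3 (nat_lit 3059) (nat_lit 15) (nat_lit 2))))
  (@Cl.mk (nat_lit 0x2000a000d0004000c0003000b00060004000d000d000500030003000e000c) (nat_lit 0x8300080000000a0) (nat_lit 16) Lb.e (@T16.mk En
    (@En.n l5801 (nat_lit 7321) (nat_lit 13) (nat_lit 12))
    (@En.n l5802 (nat_lit 12350) (nat_lit 1) (nat_lit 14))
    (@En.n l2777 (nat_lit 7323) (nat_lit 13) (nat_lit 3))
    (@En.n l4356 (nat_lit 7339) (nat_lit 3) (nat_lit 3))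
    (@En.n l644 (nat_lit 2309) (nat_lit 0) (nat_lit 5))
    (@En.n l5803 (nat_lit 7339) (nat_lit 6) (nat_lit 13))
    (@En.n l5804 (nat_lit 8863) (nat_lit 7) (nat_lit 13))
    (@En.n l5805 (nat_lit 2722) (nat_lit 7) (nat_lit 4))
    (@En.n l2781 (nat_lit 3055) (nat_lit 8) (nat_lit 6))
    (@En.n l5806 (nat_lit 8674) (nat_lit 10) (nat_lit 11))
    (@En.i (nat_lit 7337) (nat_lit 10) (nat_lit 3))
    (@En.n l3541 (nat_lit 4694) (nat_lit 0) (nat_lit 12))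
    (@En.n l5807 (nat_lit 7328) (nat_lit 8) (nat_lit 4))
    (@En.n l2783 (nat_lit 3550) (nat_lit 5) (nat_lit 13))
    (@En.n l2781 (nat_lit 2938) (nat_lit 11) (nat_lit 10))
    (@En.n l3 (nat_lit 3060) (nat_lit 15) (nat_lit 2))))
  (@Cl.mk (nat_lit 0x30003000b000b00090006000c00050005000d000400070003000d000d000a) (nat_lit 0x96709006000000) (nat_lit 16) Lb.e (@T16.mk En
    (@En.n l55 (nat_lit 7146) (nat_lit 0) (nat_lit 10))
    (@En.n l2691 (nat_lit 7296) (nat_lit 3) (nat_lit 13))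
    (@En.n l27760 (nat_lit 8805) (nat_lit 2) (nat_lit 13))
    (@En.n l22890 (nat_lit 3056) (nat_lit 3) (nat_lit 3))
    (@En.n l27761 (nat_lit 1896) (nat_lit 11) (nat_lit 7))
    (@En.n l27762 (nat_lit 7314) (nat_lit 5) (nat_lit 4))
    (@En.i (nat_lit 7290) (nat_lit 7) (nat_lit 13))
    (@En.n l10233 (nat_lit 3055) (nat_lit 11) (nat_lit 5))
    (@En.n l19165 (nat_lit 4578) (nat_lit 8) (nat_lit 5))
    (@En.n l1596 (nat_lit 7321) (nat_lit 10) (nat_lit 12))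
    (@En.n l18752 (nat_lit 8318) (nat_lit 6) (nat_lit 6))
    (@En.n l20869 (nat_lit 7379) (nat_lit 12) (nat_lit 9))
    (@En.n l19200 (nat_lit 7308) (nat_lit 5) (nat_lit 11))
    (@En.n l27763 (nat_lit 10627) (nat_lit 14) (nat_lit 11))
    (@En.n l27764 (nat_lit 7319) (nat_lit 13) (nat_lit 3))
    (@En.n l5870 (nat_lit 7296) (nat_lit 0) (nat_lit 3))))
  (@Cl.mk (nat_lit 0x20005000c0004000c000b0004000e000400020005000e000b0002000e000c) (nat_lit 0x80920c00001021) (nat_lit 16) Lb.e (@T16.mk En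
    (@En.n l1325 (nat_lit 1153) (nat_lit 10) (nat_lit 12))
    (@En.n l1329 (nat_lit 2767) (nat_lit 1) (nat_lit 14))
    (@En.n l18 (nat_lit 3062) (nat_lit 2) (nat_lit 2))
    (@En.n l1330 (nat_lit 2767) (nat_lit 3) (nat_lit 11))
    (@En.n l313 (nat_lit 8950) (nat_lit 5) (nat_lit 14))
    (@En.n l28 (nat_lit 2633) (nat_lit 13) (nat_lit 5))
    (@En.n l172 (nat_lit 3062) (nat_lit 6) (nat_lit 2))
    (@En.n l28 (nat_lit 2894) (nat_lit 7) (nat_lit 4))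
    (@En.i (nat_lit 3063) (nat_lit 9) (nat_lit 14))
    (@En.n l313 (nat_lit 2823) (nat_lit 9) (nat_lit 4))
    (@En.n l77 (nat_lit 3051) (nat_lit 3) (nat_lit 11))
    (@En.n l3496 (nat_lit 2741) (nat_lit 12) (nat_lit 12))
    (@En.i (nat_lit 1081) (nat_lit 5) (nat_lit 4))
    (@En.n l387 (nat_lit 5823) (nat_lit 7) (nat_lit 12))
    (@En.n l1329 (nat_lit 3849) (nat_lit 7) (nat_lit 5))
    (@En.n l3 (nat_lit 3062) (nat_lit 15) (nat_lit 2))))
  (@Cl.mk (nat_lit 0x2000500090004000d000b000e0003000200070005000e000b0002000e000c) (nat_lit 0x30b2b000001081) (nat_lit 16) Lb.e (@T16.mk En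
    (@En.n l2264 (nat_lit 1148) (nat_lit 9) (nat_lit 12))
    (@En.i (nat_lit 2763) (nat_lit 1) (nat_lit 14))
    (@En.n l18 (nat_lit 3063) (nat_lit 2) (nat_lit 2))
    (@En.n l5 (nat_lit 2763) (nat_lit 3) (nat_lit 11))
    (@En.n l4088 (nat_lit 6058) (nat_lit 5) (nat_lit 14))
    (@En.n l12 (nat_lit 3062) (nat_lit 5) (nat_lit 5))
    (@En.i (nat_lit 3360) (nat_lit 6) (nat_lit 7))
    (@En.n l172 (nat_lit 3063) (nat_lit 7) (nat_lit 2))
    (@En.n l28 (nat_lit 1225) (nat_lit 8) (nat_lit 3))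
    (@En.n l1750 (nat_lit 13753) (nat_lit 0) (nat_lit 14))
    (@En.n l77 (nat_lit 2640) (nat_lit 11) (nat_lit 11))
    (@En.n l2660 (nat_lit 1365) (nat_lit 12) (nat_lit 13))
    (@En.n l2267 (nat_lit 1086) (nat_lit 4) (nat_lit 4))
    (@En.n l387 (nat_lit 4125) (nat_lit 5) (nat_lit 9))
    (@En.n l513 (nat_lit 3069) (nat_lit 6) (nat_lit 5))
    (@En.n l3 (nat_lit 3063) (nat_lit 15) (nat_lit 2))))
  (@Cl.mk (nat_lit 0x20005000b000e000c0002000c00050004000c0004000c000b0004000e0004) (nat_lit 0x710000000030c0) (nat_lit 16) Lb.e (@T16.mk En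
    (@En.n l50 (nat_lit 3587) (nat_lit 5) (nat_lit 4))
    (@En.n l10571 (nat_lit 3065) (nat_lit 1) (nat_lit 14))
    (@En.n l3451 (nat_lit 3905) (nat_lit 2) (nat_lit 4))
    (@En.n l2863 (nat_lit 3584) (nat_lit 3) (nat_lit 11))
    (@En.n l265 (nat_lit 4254) (nat_lit 10) (nat_lit 12))
    (@En.i (nat_lit 1375) (nat_lit 5) (nat_lit 4))
    (@En.n l645 (nat_lit 8061) (nat_lit 7) (nat_lit 12))
    (@En.i (nat_lit 3851) (nat_lit 7) (nat_lit 4))
    (@En.n l2316 (nat_lit 3793) (nat_lit 14) (nat_lit 5))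
    (@En.n l3474 (nat_lit 3858) (nat_lit 10) (nat_lit 12))
    (@En.n l67 (nat_lit 3064) (nat_lit 10) (nat_lit 2))
    (@En.n l68 (nat_lit 3847) (nat_lit 12) (nat_lit 12))
    (@En.n l3471 (nat_lit 3062) (nat_lit 4) (nat_lit 14))
    (@En.n l265 (nat_lit 8710) (nat_lit 2) (nat_lit 11))
    (@En.i (nat_lit 3590) (nat_lit 13) (nat_lit 5))
    (@En.n l18 (nat_lit 3064) (nat_lit 15) (nat_lit 2))))
  (@Cl.mk (nat_lit 0x200070005000b000e000c0002000c0005000400090004000d000b000e0003) (nat_lit 0x81004000002b0) (nat_lit 16) Lb.e (@T16.mk En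
    (@En.n l7691 (nat_lit 3066) (nat_lit 6) (nat_lit 3))
    (@En.i (nat_lit 12850) (nat_lit 0) (nat_lit 14))
    (@En.n l7692 (nat_lit 3583) (nat_lit 2) (nat_lit 11))
    (@En.n l4851 (nat_lit 4255) (nat_lit 10) (nat_lit 13))
    (@En.n l2738 (nat_lit 1379) (nat_lit 4) (nat_lit 4))
    (@En.n l1251 (nat_lit 6960) (nat_lit 5) (nat_lit 9))
    (@En.n l1361 (nat_lit 3070) (nat_lit 6) (nat_lit 4))
    (@En.n l11028 (nat_lit 3067) (nat_lit 14) (nat_lit 5))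
    (@En.n l19564 (nat_lit 3745) (nat_lit 9) (nat_lit 12))
    (@En.n l11 (nat_lit 3065) (nat_lit 9) (nat_lit 2))
    (@En.n l2804 (nat_lit 3068) (nat_lit 11) (nat_lit 12))
    (@En.n l133 (nat_lit 3063) (nat_lit 4) (nat_lit 14))
    (@En.n l2738 (nat_lit 7166) (nat_lit 13) (nat_lit 11))
    (@En.n l3763 (nat_lit 3064) (nat_lit 14) (nat_lit 5))
    (@En.n l133 (nat_lit 4434) (nat_lit 4) (nat_lit 7))
    (@En.n l17 (nat_lit 3065) (nat_lit 15) (nat_lit 2))))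
  (@Cl.mk (nat_lit 0x2000c0005000400090004000d000d000c0003000300070004000b000e000c) (nat_lit 0x400001130000810) (nat_lit 16) Lb.e (@T16.mk En
    (@En.n l68 (nat_lit 3074) (nat_lit 10) (nat_lit 12))
    (@En.n l3471 (nat_lit 1225) (nat_lit 4) (nat_lit 14))
    (@En.i (nat_lit 7165) (nat_lit 2) (nat_lit 11))
    (@En.n l403 (nat_lit 3587) (nat_lit 3) (nat_lit 4))
    (@En.n l3471 (nat_lit 4435) (nat_lit 4) (nat_lit 7))
    (@En.n l18 (nat_lit 3892) (nat_lit 5) (nat_lit 3))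
    (@En.n l10571 (nat_lit 3065) (nat_lit 0) (nat_lit 3))
    (@En.n l6444 (nat_lit 3893) (nat_lit 8) (nat_lit 12))
    (@En.n l18630 (nat_lit 3065) (nat_lit 3) (nat_lit 13))
    (@En.i (nat_lit 1029) (nat_lit 10) (nat_lit 13))
    (@En.n l14016 (nat_lit 1376) (nat_lit 10) (nat_lit 4))
    (@En.n l645 (nat_lit 6961) (nat_lit 12) (nat_lit 9))
    (@En.i (nat_lit 3071) (nat_lit 5) (nat_lit 4))
    (@En.n l11396 (nat_lit 3798) (nat_lit 14) (nat_lit 5))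
    (@En.n l25258 (nat_lit 3747) (nat_lit 8) (nat_lit 12))
    (@En.n l67 (nat_lit 3066) (nat_lit 15) (nat_lit 2))))
  (@Cl.mk (nat_lit 0x20005000300090007000d000b000e0003000200070005000b0009000e000d) (nat_lit 0x7003400008020) (nat_lit 16) Lb.e (@T16.mk En
    (@En.n l6108 (nat_lit 3794) (nat_lit 10) (nat_lit 13))
    (@En.n l11999 (nat_lit 3065) (nat_lit 11) (nat_lit 14))
    (@En.n l9411 (nat_lit 3964) (nat_lit 12) (nat_lit 9))
    (@En.n l780 (nat_lit 7167) (nat_lit 3) (nat_lit 11))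
    (@En.n l55 (nat_lit 3793) (nat_lit 4) (nat_lit 5))
    (@En.n l11416 (nat_lit 2660) (nat_lit 5) (nat_lit 7))
    (@En.n l50 (nat_lit 3067) (nat_lit 6) (nat_lit 2))
    (@En.n l9454 (nat_lit 3798) (nat_lit 7) (nat_lit 3))
    (@En.n l11906 (nat_lit 12852) (nat_lit 0) (nat_lit 14))
    (@En.n l25262 (nat_lit 3586) (nat_lit 10) (nat_lit 11))
    (@En.i (nat_lit 4259) (nat_lit 11) (nat_lit 13))
    (@En.n l11906 (nat_lit 3895) (nat_lit 12) (nat_lit 7))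
    (@En.n l22162 (nat_lit 6959) (nat_lit 13) (nat_lit 9))
    (@En.n l12871 (nat_lit 3794) (nat_lit 6) (nat_lit 3))
    (@En.i (nat_lit 2760) (nat_lit 7) (nat_lit 5))
    (@En.n l3 (nat_lit 3067) (nat_lit 15) (nat_lit 2))))
  (@Cl.mk (nat_lit 0x200070005000c000c000c000b00040004000400090005000d000b000e0003) (nat_lit 0x8a06000006340) (nat_lit 16) Lb.e (@T16.mk En
    (@En.n l50 (nat_lit 3074) (nat_lit 15) (nat_lit 3))
    (@En.n l401 (nat_lit 12851) (nat_lit 0) (nat_lit 14))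
    (@En.n l2863 (nat_lit 3585) (nat_lit 2) (nat_lit 11))
    (@En.n l4190 (nat_lit 3862) (nat_lit 4) (nat_lit 13))
    (@En.n l2807 (nat_lit 3076) (nat_lit 4) (nat_lit 5))
    (@En.n l8189 (nat_lit 7274) (nat_lit 5) (nat_lit 9))
    (@En.n l8190 (nat_lit 3065) (nat_lit 6) (nat_lit 4))
    (@En.n l152 (nat_lit 4014) (nat_lit 7) (nat_lit 4))
    (@En.n l8191 (nat_lit 3794) (nat_lit 8) (nat_lit 4))
    (@En.n l55 (nat_lit 3881) (nat_lit 10) (nat_lit 11))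
    (@En.n l8192 (nat_lit 3647) (nat_lit 11) (nat_lit 12))
    (@En.n l8193 (nat_lit 3073) (nat_lit 4) (nat_lit 12))
    (@En.n l8194 (nat_lit 7164) (nat_lit 13) (nat_lit 12))
    (@En.n l403 (nat_lit 3847) (nat_lit 14) (nat_lit 5))
    (@En.i (nat_lit 4394) (nat_lit 14) (nat_lit 7))
    (@En.n l18 (nat_lit 3068) (nat_lit 15) (nat_lit 2))))
  (@Cl.mk (nat_lit 0x200070005000d000b000e00030002000d000500090003000d000b000e0003) (nat_lit 0x99b00000003b0) (nat_lit 16) Lb.e (@T16.mk En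
    (@En.n l11 (nat_lit 3072) (nat_lit 7) (nat_lit 3))
    (@En.n l3459 (nat_lit 12856) (nat_lit 0) (nat_lit 14))
    (@En.n l175 (nat_lit 3589) (nat_lit 2) (nat_lit 11))
    (@En.n l5267 (nat_lit 4272) (nat_lit 11) (nat_lit 13))
    (@En.n l11261 (nat_lit 3882) (nat_lit 4) (nat_lit 3))
    (@En.i (nat_lit 4800) (nat_lit 5) (nat_lit 9))
    (@En.n l11262 (nat_lit 3073) (nat_lit 14) (nat_lit 5))
    (@En.n l10162 (nat_lit 4278) (nat_lit 8) (nat_lit 13))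
    (@En.n l17 (nat_lit 3069) (nat_lit 8) (nat_lit 2))
    (@En.n l2869 (nat_lit 3070) (nat_lit 9) (nat_lit 3))
    (@En.n l1599 (nat_lit 13460) (nat_lit 0) (nat_lit 14))
    (@En.n l10807 (nat_lit 3065) (nat_lit 12) (nat_lit 11))
    (@En.n l1393 (nat_lit 5412) (nat_lit 13) (nat_lit 13))
    (@En.n l11263 (nat_lit 3849) (nat_lit 14) (nat_lit 5))
    (@En.n l1599 (nat_lit 4408) (nat_lit 5) (nat_lit 7))
    (@En.n l28 (nat_lit 3069) (nat_lit 15) (nat_lit 2))))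
  (@Cl.mk (nat_lit 0x200070005000d000d000c00030003000d000400090003000d000b000e0003) (nat_lit 0xaa0000600240) (nat_lit 16) Lb.e (@T16.mk En
    (@En.n l50 (nat_lit 3071) (nat_lit 15) (nat_lit 3))
    (@En.i (nat_lit 12855) (nat_lit 0) (nat_lit 14))
    (@En.n l2863 (nat_lit 3588) (nat_lit 2) (nat_lit 11))
    (@En.i (nat_lit 4276) (nat_lit 10) (nat_lit 13))
    (@En.i (nat_lit 3881) (nat_lit 4) (nat_lit 3))
    (@En.n l649 (nat_lit 4801) (nat_lit 5) (nat_lit 9))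
    (@En.i (nat_lit 3068) (nat_lit 6) (nat_lit 4))
    (@En.n l11245 (nat_lit 3746) (nat_lit 8) (nat_lit 13))
    (@En.n l152 (nat_lit 4015) (nat_lit 8) (nat_lit 3))
    (@En.n l1865 (nat_lit 3069) (nat_lit 9) (nat_lit 3))
    (@En.n l619 (nat_lit 4014) (nat_lit 11) (nat_lit 12))
    (@En.n l1867 (nat_lit 3069) (nat_lit 12) (nat_lit 13))
    (@En.i (nat_lit 5413) (nat_lit 13) (nat_lit 13))
    (@En.n l403 (nat_lit 3851) (nat_lit 14) (nat_lit 5))
    (@En.i (nat_lit 4407) (nat_lit 4) (nat_lit 7))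
    (@En.n l18 (nat_lit 3070) (nat_lit 15) (nat_lit 2))))
  (@Cl.mk (nat_lit 0x3000300070004000d000d000c00030003000d000400090003000d000d000c) (nat_lit 0xa000060013) (nat_lit 16) Lb.e (@T16.mk En
    (@En.n l6444 (nat_lit 3815) (nat_lit 0) (nat_lit 12))
    (@En.n l396 (nat_lit 3070) (nat_lit 3) (nat_lit 13))
    (@En.i (nat_lit 4275) (nat_lit 10) (nat_lit 13))
    (@En.i (nat_lit 3875) (nat_lit 3) (nat_lit 3))
    (@En.n l649 (nat_lit 4597) (nat_lit 0) (nat_lit 9))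
    (@En.i (nat_lit 3074) (nat_lit 5) (nat_lit 4))
    (@En.i (nat_lit 4280) (nat_lit 7) (nat_lit 13))
    (@En.n l152 (nat_lit 3813) (nat_lit 13) (nat_lit 3))
    (@En.n l1865 (nat_lit 3072) (nat_lit 0) (nat_lit 3))
    (@En.n l619 (nat_lit 3810) (nat_lit 0) (nat_lit 12))
    (@En.n l1867 (nat_lit 3072) (nat_lit 3) (nat_lit 13))
    (@En.i (nat_lit 5409) (nat_lit 12) (nat_lit 13))
    (@En.n l403 (nat_lit 3761) (nat_lit 3) (nat_lit 4))
    (@En.i (nat_lit 4402) (nat_lit 4) (nat_lit 7))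
    (@En.n l18 (nat_lit 3812) (nat_lit 13) (nat_lit 3))
    (@En.i (nat_lit 3070) (nat_lit 0) (nat_lit 3))))
noncomputable def a192 : T16 Cl := @T16.mk Cl
  (@Cl.mk (nat_lit 0x2000d000500090003000d000d000c0003000300070004000d000b000e0003) (nat_lit 0x130000b970) (nat_lit 16) Lb.e (@T16.mk En
    (@En.n l2869 (nat_lit 3071) (nat_lit 8) (nat_lit 3))
    (@En.n l1599 (nat_lit 13446) (nat_lit 0) (nat_lit 14))
    (@En.n l2579 (nat_lit 3066) (nat_lit 2) (nat_lit 11))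
    (@En.i (nat_lit 5406) (nat_lit 12) (nat_lit 13))
    (@En.n l11263 (nat_lit 3760) (nat_lit 4) (nat_lit 4))
    (@En.n l1599 (nat_lit 4409) (nat_lit 5) (nat_lit 7))
    (@En.n l28 (nat_lit 3890) (nat_lit 13) (nat_lit 3))
    (@En.i (nat_lit 3069) (nat_lit 0) (nat_lit 3))
    (@En.n l77 (nat_lit 3891) (nat_lit 9) (nat_lit 12))
    (@En.n l1578 (nat_lit 3069) (nat_lit 3) (nat_lit 13))
    (@En.i (nat_lit 4271) (nat_lit 11) (nat_lit 13))
    (@En.n l11647 (nat_lit 3878) (nat_lit 11) (nat_lit 3))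
    (@En.i (nat_lit 4601) (nat_lit 0) (nat_lit 9))
    (@En.i (nat_lit 3075) (nat_lit 14) (nat_lit 5))
    (@En.n l3815 (nat_lit 4279) (nat_lit 7) (nat_lit 13))
    (@En.n l17 (nat_lit 3072) (nat_lit 15) (nat_lit 2))))
  (@Cl.mk (nat_lit 0x2000500090006000d000b000e0003000200070005000c000b000a000e0004) (nat_lit 0x3b0000992c0) (nat_lit 16) Lb.e (@T16.mk En
    (@En.n l15308 (nat_lit 3068) (nat_lit 8) (nat_lit 4))
    (@En.n l19569 (nat_lit 3069) (nat_lit 10) (nat_lit 14))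
    (@En.n l16859 (nat_lit 3882) (nat_lit 11) (nat_lit 10))
    (@En.i (nat_lit 3067) (nat_lit 3) (nat_lit 11))
    (@En.n l19570 (nat_lit 5569) (nat_lit 13) (nat_lit 12))
    (@En.n l19571 (nat_lit 3848) (nat_lit 5) (nat_lit 5))
    (@En.n l19572 (nat_lit 4425) (nat_lit 6) (nat_lit 7))
    (@En.n l50 (nat_lit 3073) (nat_lit 7) (nat_lit 2))
    (@En.n l19573 (nat_lit 3075) (nat_lit 8) (nat_lit 3))
    (@En.n l19574 (nat_lit 12854) (nat_lit 0) (nat_lit 14))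
    (@En.n l19575 (nat_lit 3591) (nat_lit 11) (nat_lit 11))
    (@En.i (nat_lit 4267) (nat_lit 12) (nat_lit 13))
    (@En.n l11906 (nat_lit 2646) (nat_lit 13) (nat_lit 6))
    (@En.n l19570 (nat_lit 4806) (nat_lit 5) (nat_lit 9))
    (@En.n l19576 (nat_lit 2763) (nat_lit 13) (nat_lit 5))
    (@En.n l3 (nat_lit 3073) (nat_lit 15) (nat_lit 2))))
  (@Cl.mk (nat_lit 0x3000300070004000c000c000c000b00040004000400090005000d000d000c) (nat_lit 0x8a7300000073) (nat_lit 16) Lb.e (@T16.mk En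
    (@En.n l6444 (nat_lit 3807) (nat_lit 0) (nat_lit 12))
    (@En.n l396 (nat_lit 3068) (nat_lit 3) (nat_lit 13))
    (@En.i (nat_lit 3863) (nat_lit 2) (nat_lit 13))
    (@En.n l1392 (nat_lit 2645) (nat_lit 3) (nat_lit 5))
    (@En.n l19587 (nat_lit 7267) (nat_lit 4) (nat_lit 9))
    (@En.n l11 (nat_lit 3066) (nat_lit 12) (nat_lit 4))
    (@En.n l152 (nat_lit 3810) (nat_lit 12) (nat_lit 4))
    (@En.n l936 (nat_lit 3796) (nat_lit 7) (nat_lit 4))
    (@En.n l55 (nat_lit 3875) (nat_lit 9) (nat_lit 11))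
    (@En.n l619 (nat_lit 3648) (nat_lit 4) (nat_lit 12))
    (@En.n l1867 (nat_lit 3075) (nat_lit 4) (nat_lit 12))
    (@En.i (nat_lit 7077) (nat_lit 12) (nat_lit 12))
    (@En.n l403 (nat_lit 3818) (nat_lit 4) (nat_lit 4))
    (@En.i (nat_lit 4395) (nat_lit 14) (nat_lit 7))
    (@En.n l18 (nat_lit 3806) (nat_lit 13) (nat_lit 3))
    (@En.i (nat_lit 3068) (nat_lit 0) (nat_lit 3))))
  (@Cl.mk (nat_lit 0x2000500090006000d000d000c0003000300070004000c000b000a000e0004) (nat_lit 0x13000099280) (nat_lit 16) Lb.e (@T16.mk En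
    (@En.n l2869 (nat_lit 3074) (nat_lit 7) (nat_lit 4))
    (@En.n l476 (nat_lit 3072) (nat_lit 1) (nat_lit 14))
    (@En.n l14814 (nat_lit 3878) (nat_lit 2) (nat_lit 10))
    (@En.n l25371 (nat_lit 3798) (nat_lit 3) (nat_lit 11))
    (@En.n l11108 (nat_lit 5535) (nat_lit 12) (nat_lit 12))
    (@En.n l11263 (nat_lit 3846) (nat_lit 5) (nat_lit 4))
    (@En.n l1599 (nat_lit 4424) (nat_lit 6) (nat_lit 7))
    (@En.n l28 (nat_lit 3889) (nat_lit 7) (nat_lit 3))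
    (@En.n l11262 (nat_lit 3073) (nat_lit 8) (nat_lit 3))
    (@En.n l77 (nat_lit 3888) (nat_lit 10) (nat_lit 12))
    (@En.n l25372 (nat_lit 3073) (nat_lit 11) (nat_lit 13))
    (@En.n l22665 (nat_lit 4269) (nat_lit 12) (nat_lit 13))
    (@En.n l11647 (nat_lit 1171) (nat_lit 13) (nat_lit 6))
    (@En.n l476 (nat_lit 4808) (nat_lit 14) (nat_lit 9))
    (@En.n l14819 (nat_lit 1224) (nat_lit 13) (nat_lit 5))
    (@En.n l17 (nat_lit 3075) (nat_lit 15) (nat_lit 2))))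
  (@Cl.mk (nat_lit 0x2000a0005000b000b000b000b00060005000500050005000d000b000e0003) (nat_lit 0x30390100000a160) (nat_lit 16) Lb.e (@T16.mk En
    (@En.n l152 (nat_lit 2645) (nat_lit 15) (nat_lit 3))
    (@En.n l11090 (nat_lit 12988) (nat_lit 0) (nat_lit 14))
    (@En.n l97 (nat_lit 1380) (nat_lit 2) (nat_lit 11))
    (@En.n l11091 (nat_lit 6669) (nat_lit 2) (nat_lit 13))
    (@En.n l4005 (nat_lit 3958) (nat_lit 11) (nat_lit 5))
    (@En.n l11092 (nat_lit 1379) (nat_lit 5) (nat_lit 5))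
    (@En.n l77 (nat_lit 4088) (nat_lit 6) (nat_lit 5))
    (@En.i (nat_lit 3760) (nat_lit 7) (nat_lit 5))
    (@En.n l11091 (nat_lit 3690) (nat_lit 8) (nat_lit 6))
    (@En.n l7422 (nat_lit 2649) (nat_lit 10) (nat_lit 11))
    (@En.n l11093 (nat_lit 3078) (nat_lit 5) (nat_lit 11))
    (@En.n l11094 (nat_lit 2646) (nat_lit 5) (nat_lit 11))
    (@En.n l11095 (nat_lit 3295) (nat_lit 13) (nat_lit 11))
    (@En.n l11096 (nat_lit 2974) (nat_lit 14) (nat_lit 5))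
    (@En.i (nat_lit 3158) (nat_lit 14) (nat_lit 10))
    (@En.n l3 (nat_lit 3076) (nat_lit 15) (nat_lit 2))))
  (@Cl.mk (nat_lit 0x20006000d000d000c00030003000b0004000c000b000a00050004000e0005) (nat_lit 0x9a200009900010) (nat_lit 16) Lb.e (@T16.mk En
    (@En.n l50 (nat_lit 2645) (nat_lit 5) (nat_lit 5))
    (@En.n l4316 (nat_lit 2216) (nat_lit 1) (nat_lit 14))
    (@En.i (nat_lit 3851) (nat_lit 2) (nat_lit 4))
    (@En.n l13864 (nat_lit 3762) (nat_lit 3) (nat_lit 5))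
    (@En.n l7583 (nat_lit 4024) (nat_lit 4) (nat_lit 10))
    (@En.n l7584 (nat_lit 3083) (nat_lit 5) (nat_lit 11))
    (@En.n l28 (nat_lit 3291) (nat_lit 7) (nat_lit 12))
    (@En.i (nat_lit 2667) (nat_lit 7) (nat_lit 4))
    (@En.n l24301 (nat_lit 3166) (nat_lit 9) (nat_lit 11))
    (@En.n l152 (nat_lit 3079) (nat_lit 9) (nat_lit 3))
    (@En.n l24302 (nat_lit 3078) (nat_lit 10) (nat_lit 3))
    (@En.n l619 (nat_lit 3080) (nat_lit 12) (nat_lit 12))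
    (@En.n l24303 (nat_lit 3078) (nat_lit 13) (nat_lit 13))
    (@En.i (nat_lit 7768) (nat_lit 14) (nat_lit 13))
    (@En.i (nat_lit 2402) (nat_lit 3) (nat_lit 6))
    (@En.n l18 (nat_lit 3077) (nat_lit 15) (nat_lit 2))))
  (@Cl.mk (nat_lit 0x20006000d000b000e00030002000b0005000c000b000a00050004000e0005) (nat_lit 0x9190000a900010) (nat_lit 16) Lb.e (@T16.mk En
    (@En.n l10782 (nat_lit 3076) (nat_lit 6) (nat_lit 5))
    (@En.n l6557 (nat_lit 2220) (nat_lit 1) (nat_lit 14))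
    (@En.n l10783 (nat_lit 3849) (nat_lit 2) (nat_lit 4))
    (@En.i (nat_lit 3771) (nat_lit 3) (nat_lit 5))
    (@En.n l2667 (nat_lit 4112) (nat_lit 4) (nat_lit 10))
    (@En.n l217 (nat_lit 3082) (nat_lit 12) (nat_lit 11))
    (@En.n l10784 (nat_lit 3293) (nat_lit 7) (nat_lit 12))
    (@En.n l2900 (nat_lit 2666) (nat_lit 14) (nat_lit 5))
    (@En.n l10785 (nat_lit 3164) (nat_lit 9) (nat_lit 11))
    (@En.n l11 (nat_lit 3078) (nat_lit 9) (nat_lit 2))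
    (@En.n l10786 (nat_lit 3077) (nat_lit 10) (nat_lit 3))
    (@En.n l2038 (nat_lit 12976) (nat_lit 0) (nat_lit 14))
    (@En.n l10787 (nat_lit 2665) (nat_lit 13) (nat_lit 11))
    (@En.i (nat_lit 7769) (nat_lit 14) (nat_lit 13))
    (@En.n l7744 (nat_lit 2424) (nat_lit 4) (nat_lit 6))
    (@En.n l17 (nat_lit 3078) (nat_lit 15) (nat_lit 2))))
  (@Cl.mk (nat_lit 0x20006000e000d0002000d0003000b0003000c000b000a00050004000e0005) (nat_lit 0xaa020009900010) (nat_lit 16) Lb.e (@T16.mk En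
    (@En.n l50 (nat_lit 2651) (nat_lit 4) (nat_lit 5))
    (@En.n l2650 (nat_lit 2215) (nat_lit 1) (nat_lit 14))
    (@En.i (nat_lit 3855) (nat_lit 2) (nat_lit 4))
    (@En.n l7582 (nat_lit 3770) (nat_lit 3) (nat_lit 5))
    (@En.n l7583 (nat_lit 4023) (nat_lit 4) (nat_lit 10))
    (@En.n l7584 (nat_lit 3086) (nat_lit 10) (nat_lit 11))
    (@En.n l28 (nat_lit 3298) (nat_lit 7) (nat_lit 12))
    (@En.i (nat_lit 3080) (nat_lit 7) (nat_lit 3))
    (@En.i (nat_lit 5246) (nat_lit 9) (nat_lit 11))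
    (@En.n l117 (nat_lit 3077) (nat_lit 9) (nat_lit 3))
    (@En.i (nat_lit 434) (nat_lit 11) (nat_lit 13))
    (@En.n l3 (nat_lit 3079) (nat_lit 11) (nat_lit 2))
    (@En.i (nat_lit 3077) (nat_lit 13) (nat_lit 13))
    (@En.i (nat_lit 7767) (nat_lit 1) (nat_lit 14))
    (@En.n l6285 (nat_lit 2397) (nat_lit 2) (nat_lit 6))
    (@En.n l18 (nat_lit 3079) (nat_lit 15) (nat_lit 2))))
  (@Cl.mk (nat_lit 0x20006000e000c0002000d000a00040003000c000b000a00060004000e0005) (nat_lit 0xc101400a900010) (nat_lit 16) Lb.e (@T16.mk En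
    (@En.n l50 (nat_lit 2652) (nat_lit 4) (nat_lit 5))
    (@En.n l7581 (nat_lit 2217) (nat_lit 1) (nat_lit 14))
    (@En.i (nat_lit 3856) (nat_lit 2) (nat_lit 4))
    (@En.n l7582 (nat_lit 1372) (nat_lit 3) (nat_lit 6))
    (@En.n l7583 (nat_lit 4025) (nat_lit 4) (nat_lit 10))
    (@En.n l7584 (nat_lit 3088) (nat_lit 10) (nat_lit 11))
    (@En.n l287 (nat_lit 6770) (nat_lit 7) (nat_lit 12))
    (@En.n l11 (nat_lit 3079) (nat_lit 7) (nat_lit 3))
    (@En.n l7585 (nat_lit 2668) (nat_lit 8) (nat_lit 4))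
    (@En.i (nat_lit 3274) (nat_lit 10) (nat_lit 10))
    (@En.i (nat_lit 432) (nat_lit 11) (nat_lit 13))
    (@En.n l3 (nat_lit 3080) (nat_lit 11) (nat_lit 2))
    (@En.i (nat_lit 2667) (nat_lit 13) (nat_lit 12))
    (@En.i (nat_lit 7344) (nat_lit 1) (nat_lit 14))
    (@En.n l6285 (nat_lit 2248) (nat_lit 2) (nat_lit 6))
    (@En.n l18 (nat_lit 3080) (nat_lit 15) (nat_lit 2))))
  (@Cl.mk (nat_lit 0x20007000d000d000c00030003000c0004000c00090004000d0004000e0003) (nat_lit 0xab000109700040) (nat_lit 16) Lb.e (@T16.mk En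
    (@En.n l1545 (nat_lit 3083) (nat_lit 15) (nat_lit 3))
    (@En.i (nat_lit 13698) (nat_lit 0) (nat_lit 14))
    (@En.n l7 (nat_lit 3077) (nat_lit 2) (nat_lit 4))
    (@En.n l11705 (nat_lit 4280) (nat_lit 9) (nat_lit 13))
    (@En.n l6958 (nat_lit 3763) (nat_lit 4) (nat_lit 4))
    (@En.n l2781 (nat_lit 3070) (nat_lit 5) (nat_lit 9))
    (@En.n l11706 (nat_lit 7029) (nat_lit 7) (nat_lit 12))
    (@En.n l6958 (nat_lit 3903) (nat_lit 7) (nat_lit 4))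
    (@En.n l11707 (nat_lit 3017) (nat_lit 9) (nat_lit 12))
    (@En.n l152 (nat_lit 3085) (nat_lit 9) (nat_lit 3))
    (@En.n l15575 (nat_lit 3084) (nat_lit 10) (nat_lit 3))
    (@En.n l9533 (nat_lit 3089) (nat_lit 12) (nat_lit 12))
    (@En.n l4004 (nat_lit 3084) (nat_lit 13) (nat_lit 13))
    (@En.n l11706 (nat_lit 7341) (nat_lit 14) (nat_lit 13))
    (@En.i (nat_lit 4382) (nat_lit 3) (nat_lit 7))
    (@En.n l18 (nat_lit 3081) (nat_lit 15) (nat_lit 2))))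
  (@Cl.mk (nat_lit 0x2000c0005000b00090004000d000d0005000300030007000d000b000e0003) (nat_lit 0x20810000000a8a0) (nat_lit 16) Lb.e (@T16.mk En
    (@En.n l19681 (nat_lit 3083) (nat_lit 9) (nat_lit 3))
    (@En.n l2038 (nat_lit 12980) (nat_lit 0) (nat_lit 14))
    (@En.n l19682 (nat_lit 3901) (nat_lit 2) (nat_lit 11))
    (@En.i (nat_lit 7330) (nat_lit 13) (nat_lit 13))
    (@En.n l19683 (nat_lit 4414) (nat_lit 4) (nat_lit 7))
    (@En.n l19684 (nat_lit 3895) (nat_lit 13) (nat_lit 3))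
    (@En.n l18 (nat_lit 3084) (nat_lit 0) (nat_lit 3))
    (@En.n l3900 (nat_lit 2646) (nat_lit 0) (nat_lit 5))
    (@En.n l61 (nat_lit 3084) (nat_lit 3) (nat_lit 13))
    (@En.n l17614 (nat_lit 3745) (nat_lit 10) (nat_lit 13))
    (@En.i (nat_lit 3768) (nat_lit 10) (nat_lit 4))
    (@En.n l19685 (nat_lit 3072) (nat_lit 12) (nat_lit 9))
    (@En.n l19686 (nat_lit 7034) (nat_lit 13) (nat_lit 11))
    (@En.n l8252 (nat_lit 3897) (nat_lit 14) (nat_lit 5))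
    (@En.n l19687 (nat_lit 3010) (nat_lit 8) (nat_lit 12))
    (@En.n l11 (nat_lit 3082) (nat_lit 15) (nat_lit 2))))
  (@Cl.mk (nat_lit 0x300030007000d000d000c00030003000c0004000b00090004000d000d0005) (nat_lit 0xab60010870010) (nat_lit 16) Lb.e (@T16.mk En
    (@En.n l2364 (nat_lit 1171) (nat_lit 0) (nat_lit 5))
    (@En.n l1131 (nat_lit 3081) (nat_lit 3) (nat_lit 13))
    (@En.n l11386 (nat_lit 3747) (nat_lit 9) (nat_lit 13))
    (@En.n l15557 (nat_lit 3764) (nat_lit 3) (nat_lit 4))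
    (@En.i (nat_lit 3071) (nat_lit 4) (nat_lit 9))
    (@En.i (nat_lit 7036) (nat_lit 12) (nat_lit 11))
    (@En.i (nat_lit 3902) (nat_lit 6) (nat_lit 4))
    (@En.n l3517 (nat_lit 3013) (nat_lit 8) (nat_lit 12))
    (@En.n l152 (nat_lit 3086) (nat_lit 13) (nat_lit 3))
    (@En.n l26584 (nat_lit 3082) (nat_lit 0) (nat_lit 3))
    (@En.n l619 (nat_lit 3088) (nat_lit 0) (nat_lit 12))
    (@En.n l26585 (nat_lit 3082) (nat_lit 3) (nat_lit 13))
    (@En.n l6657 (nat_lit 7328) (nat_lit 13) (nat_lit 13))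
    (@En.i (nat_lit 4388) (nat_lit 3) (nat_lit 7))
    (@En.n l18 (nat_lit 3087) (nat_lit 13) (nat_lit 3))
    (@En.n l403 (nat_lit 3081) (nat_lit 0) (nat_lit 3))))
  (@Cl.mk (nat_lit 0x20007000d000b000e00030002000c0005000c00090004000d0004000e0003) (nat_lit 0xa8a0020910b040) (nat_lit 16) Lb.e (@T16.mk En
    (@En.i (nat_lit 3082) (nat_lit 6) (nat_lit 3))
    (@En.n l8012 (nat_lit 13700) (nat_lit 0) (nat_lit 14))
    (@En.i (nat_lit 3078) (nat_lit 2) (nat_lit 4))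
    (@En.n l17614 (nat_lit 3746) (nat_lit 10) (nat_lit 13))
    (@En.i (nat_lit 3766) (nat_lit 4) (nat_lit 4))
    (@En.n l18622 (nat_lit 3069) (nat_lit 5) (nat_lit 9))
    (@En.n l8012 (nat_lit 7028) (nat_lit 7) (nat_lit 12))
    (@En.n l18623 (nat_lit 3904) (nat_lit 14) (nat_lit 5))
    (@En.i (nat_lit 3012) (nat_lit 9) (nat_lit 12))
    (@En.n l11 (nat_lit 3084) (nat_lit 9) (nat_lit 2))
    (@En.n l6564 (nat_lit 3081) (nat_lit 10) (nat_lit 3))
    (@En.n l2038 (nat_lit 12979) (nat_lit 0) (nat_lit 14))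
    (@En.n l17614 (nat_lit 3905) (nat_lit 13) (nat_lit 11))
    (@En.i (nat_lit 7416) (nat_lit 14) (nat_lit 13))
    (@En.n l7744 (nat_lit 4417) (nat_lit 4) (nat_lit 7))
    (@En.n l17 (nat_lit 3084) (nat_lit 15) (nat_lit 2))))
  (@Cl.mk (nat_lit 0x20007000e000d0002000d0003000c0003000c00090004000d0004000e0003) (nat_lit 0xab020009700040) (nat_lit 16) Lb.e (@T16.mk En
    (@En.n l1545 (nat_lit 3086) (nat_lit 4) (nat_lit 3))
    (@En.i (nat_lit 13701) (nat_lit 0) (nat_lit 14))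
    (@En.n l7 (nat_lit 3079) (nat_lit 2) (nat_lit 4))
    (@En.n l4357 (nat_lit 4281) (nat_lit 8) (nat_lit 13))
    (@En.n l404 (nat_lit 3765) (nat_lit 4) (nat_lit 4))
    (@En.n l2781 (nat_lit 4015) (nat_lit 5) (nat_lit 9))
    (@En.n l5909 (nat_lit 7067) (nat_lit 11) (nat_lit 12))
    (@En.n l404 (nat_lit 3089) (nat_lit 7) (nat_lit 3))
    (@En.n l5909 (nat_lit 5317) (nat_lit 9) (nat_lit 12))
    (@En.n l117 (nat_lit 3081) (nat_lit 9) (nat_lit 3))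
    (@En.i (nat_lit 658) (nat_lit 11) (nat_lit 13))
    (@En.n l3 (nat_lit 3085) (nat_lit 11) (nat_lit 2))
    (@En.i (nat_lit 3081) (nat_lit 13) (nat_lit 13))
    (@En.n l4356 (nat_lit 7339) (nat_lit 1) (nat_lit 14))
    (@En.n l4357 (nat_lit 4383) (nat_lit 2) (nat_lit 7))
    (@En.n l18 (nat_lit 3085) (nat_lit 15) (nat_lit 2))))
  (@Cl.mk (nat_lit 0x2000d0003000c0003000b00090004000d000d0005000300030007000e000d) (nat_lit 0x2000870010000bb) (nat_lit 16) Lb.e (@T16.mk En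
    (@En.i (nat_lit 3083) (nat_lit 12) (nat_lit 13))
    (@En.n l403 (nat_lit 3060) (nat_lit 1) (nat_lit 14))
    (@En.n l1353 (nat_lit 4387) (nat_lit 2) (nat_lit 7))
    (@En.n l18 (nat_lit 3911) (nat_lit 13) (nat_lit 3))
    (@En.n l403 (nat_lit 3085) (nat_lit 0) (nat_lit 3))
    (@En.n l2364 (nat_lit 2643) (nat_lit 0) (nat_lit 5))
    (@En.n l1131 (nat_lit 3085) (nat_lit 3) (nat_lit 13))
    (@En.n l6636 (nat_lit 4282) (nat_lit 8) (nat_lit 13))
    (@En.n l4283 (nat_lit 3767) (nat_lit 8) (nat_lit 4))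
    (@En.i (nat_lit 3813) (nat_lit 10) (nat_lit 9))
    (@En.n l698 (nat_lit 7063) (nat_lit 11) (nat_lit 11))
    (@En.i (nat_lit 3088) (nat_lit 11) (nat_lit 3))
    (@En.n l6636 (nat_lit 5316) (nat_lit 0) (nat_lit 12))
    (@En.n l117 (nat_lit 3083) (nat_lit 8) (nat_lit 3))
    (@En.n l698 (nat_lit 654) (nat_lit 0) (nat_lit 13))
    (@En.n l3 (nat_lit 3086) (nat_lit 15) (nat_lit 2))))
  (@Cl.mk (nat_lit 0x2000600030007000d000d000c00030003000c0004000a00090004000e000d) (nat_lit 0x1087011) (nat_lit 16) Lb.e (@T16.mk En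
    (@En.n l396 (nat_lit 3083) (nat_lit 2) (nat_lit 13))
    (@En.n l889 (nat_lit 856) (nat_lit 1) (nat_lit 14))
    (@En.i (nat_lit 3769) (nat_lit 2) (nat_lit 4))
    (@En.i (nat_lit 3812) (nat_lit 3) (nat_lit 9))
    (@En.n l26659 (nat_lit 7062) (nat_lit 4) (nat_lit 10))
    (@En.i (nat_lit 3898) (nat_lit 5) (nat_lit 4))
    (@En.i (nat_lit 3015) (nat_lit 7) (nat_lit 12))
    (@En.n l152 (nat_lit 3911) (nat_lit 7) (nat_lit 3))
    (@En.n l26660 (nat_lit 3895) (nat_lit 8) (nat_lit 3))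
    (@En.n l619 (nat_lit 3910) (nat_lit 10) (nat_lit 12))
    (@En.n l14226 (nat_lit 3895) (nat_lit 11) (nat_lit 13))
    (@En.i (nat_lit 7325) (nat_lit 12) (nat_lit 13))
    (@En.n l17 (nat_lit 4743) (nat_lit 13) (nat_lit 7))
    (@En.i (nat_lit 3083) (nat_lit 14) (nat_lit 3))
    (@En.n l699 (nat_lit 1068) (nat_lit 0) (nat_lit 6))
    (@En.n l50 (nat_lit 3087) (nat_lit 15) (nat_lit 2))))
noncomputable def a193 : T16 Cl := @T16.mk Cl
  (@Cl.mk (nat_lit 0x2000d000b00040003000b00090005000d000d0005000300030007000e000c) (nat_lit 0x1000870000000c5) (nat_lit 16) Lb.e (@T16.mk En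
    (@En.i (nat_lit 3902) (nat_lit 12) (nat_lit 12))
    (@En.n l403 (nat_lit 7337) (nat_lit 1) (nat_lit 14))
    (@En.n l1353 (nat_lit 4389) (nat_lit 2) (nat_lit 7))
    (@En.n l18 (nat_lit 3910) (nat_lit 13) (nat_lit 3))
    (@En.n l13998 (nat_lit 3089) (nat_lit 0) (nat_lit 3))
    (@En.n l2364 (nat_lit 2642) (nat_lit 0) (nat_lit 5))
    (@En.n l13999 (nat_lit 3089) (nat_lit 3) (nat_lit 13))
    (@En.n l9455 (nat_lit 3871) (nat_lit 8) (nat_lit 13))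
    (@En.n l4283 (nat_lit 1370) (nat_lit 8) (nat_lit 5))
    (@En.i (nat_lit 3810) (nat_lit 10) (nat_lit 9))
    (@En.n l14000 (nat_lit 7095) (nat_lit 11) (nat_lit 11))
    (@En.n l11 (nat_lit 3086) (nat_lit 11) (nat_lit 3))
    (@En.n l9455 (nat_lit 664) (nat_lit 0) (nat_lit 4))
    (@En.n l55 (nat_lit 3265) (nat_lit 14) (nat_lit 11))
    (@En.n l2233 (nat_lit 568) (nat_lit 1) (nat_lit 13))
    (@En.n l3 (nat_lit 3088) (nat_lit 15) (nat_lit 2))))
  (@Cl.mk (nat_lit 0x20007000e000c0002000d000b00040003000c00090005000d0004000e0003) (nat_lit 0xca01000970b040) (nat_lit 16) Lb.e (@T16.mk En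
    (@En.n l12112 (nat_lit 3088) (nat_lit 4) (nat_lit 3))
    (@En.i (nat_lit 13898) (nat_lit 0) (nat_lit 14))
    (@En.n l12113 (nat_lit 3080) (nat_lit 2) (nat_lit 4))
    (@En.n l473 (nat_lit 3870) (nat_lit 8) (nat_lit 13))
    (@En.i (nat_lit 1371) (nat_lit 4) (nat_lit 5))
    (@En.n l1410 (nat_lit 4014) (nat_lit 5) (nat_lit 9))
    (@En.n l601 (nat_lit 7094) (nat_lit 11) (nat_lit 12))
    (@En.n l1411 (nat_lit 3085) (nat_lit 7) (nat_lit 3))
    (@En.n l2438 (nat_lit 663) (nat_lit 8) (nat_lit 4))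
    (@En.n l77 (nat_lit 3264) (nat_lit 10) (nat_lit 11))
    (@En.n l12114 (nat_lit 655) (nat_lit 11) (nat_lit 13))
    (@En.n l67 (nat_lit 3089) (nat_lit 11) (nat_lit 2))
    (@En.n l68 (nat_lit 3903) (nat_lit 13) (nat_lit 12))
    (@En.n l5164 (nat_lit 7336) (nat_lit 1) (nat_lit 14))
    (@En.n l473 (nat_lit 4381) (nat_lit 2) (nat_lit 7))
    (@En.n l17 (nat_lit 3089) (nat_lit 15) (nat_lit 2))))
  (@Cl.mk (nat_lit 0x200090003000a000a000a000a000a000700060006000600060006000e000d) (nat_lit 0x102010100000046) (nat_lit 16) Lb.e (@T16.mk En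
    (@En.n l12812 (nat_lit 1954) (nat_lit 2) (nat_lit 13))
    (@En.i (nat_lit 2917) (nat_lit 1) (nat_lit 14))
    (@En.n l12813 (nat_lit 3723) (nat_lit 2) (nat_lit 6))
    (@En.n l2172 (nat_lit 3097) (nat_lit 3) (nat_lit 6))
    (@En.n l77 (nat_lit 3724) (nat_lit 4) (nat_lit 6))
    (@En.n l55 (nat_lit 1951) (nat_lit 5) (nat_lit 6))
    (@En.i (nat_lit 2651) (nat_lit 6) (nat_lit 6))
    (@En.n l4908 (nat_lit 1380) (nat_lit 7) (nat_lit 7))
    (@En.n l742 (nat_lit 1952) (nat_lit 9) (nat_lit 10))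
    (@En.n l396 (nat_lit 3274) (nat_lit 6) (nat_lit 10))
    (@En.n l6367 (nat_lit 2072) (nat_lit 6) (nat_lit 10))
    (@En.n l12814 (nat_lit 3096) (nat_lit 6) (nat_lit 10))
    (@En.n l12815 (nat_lit 4780) (nat_lit 13) (nat_lit 10))
    (@En.n l12816 (nat_lit 1954) (nat_lit 14) (nat_lit 3))
    (@En.i (nat_lit 1557) (nat_lit 0) (nat_lit 9))
    (@En.n l3 (nat_lit 3090) (nat_lit 15) (nat_lit 2))))
  (@Cl.mk (nat_lit 0x2000700070007000d000d000900030003000a0009000900090007000e0006) (nat_lit 0x683008000090) (nat_lit 16) Lb.e (@T16.mk En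
    (@En.n l11615 (nat_lit 1954) (nat_lit 7) (nat_lit 6))
    (@En.n l37770 (nat_lit 3292) (nat_lit 1) (nat_lit 14))
    (@En.n l6958 (nat_lit 1169) (nat_lit 2) (nat_lit 7))
    (@En.n l61 (nat_lit 4505) (nat_lit 3) (nat_lit 9))
    (@En.n l37771 (nat_lit 3275) (nat_lit 7) (nat_lit 9))
    (@En.n l4476 (nat_lit 3912) (nat_lit 5) (nat_lit 9))
    (@En.n l16419 (nat_lit 5437) (nat_lit 7) (nat_lit 10))
    (@En.n l4478 (nat_lit 3096) (nat_lit 7) (nat_lit 3))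
    (@En.n l23062 (nat_lit 3099) (nat_lit 8) (nat_lit 3))
    (@En.n l16042 (nat_lit 1617) (nat_lit 10) (nat_lit 9))
    (@En.n l37772 (nat_lit 3099) (nat_lit 11) (nat_lit 13))
    (@En.n l24684 (nat_lit 3135) (nat_lit 12) (nat_lit 13))
    (@En.n l37773 (nat_lit 3100) (nat_lit 13) (nat_lit 7))
    (@En.n l37774 (nat_lit 3095) (nat_lit 14) (nat_lit 7))
    (@En.n l11532 (nat_lit 3676) (nat_lit 5) (nat_lit 7))
    (@En.n l7 (nat_lit 3091) (nat_lit 15) (nat_lit 2))))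
  (@Cl.mk (nat_lit 0x2000b00090007000700060005000d000d00070003000300090009000e000a) (nat_lit 0x1700000000050c1) (nat_lit 16) Lb.e (@T16.mk En
    (@En.n l12784 (nat_lit 1954) (nat_lit 11) (nat_lit 10))
    (@En.n l1546 (nat_lit 2344) (nat_lit 1) (nat_lit 14))
    (@En.n l12785 (nat_lit 3095) (nat_lit 7) (nat_lit 9))
    (@En.n l12786 (nat_lit 3156) (nat_lit 3) (nat_lit 9))
    (@En.n l152 (nat_lit 3097) (nat_lit 13) (nat_lit 3))
    (@En.n l146 (nat_lit 3098) (nat_lit 0) (nat_lit 3))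
    (@En.n l12787 (nat_lit 1617) (nat_lit 0) (nat_lit 7))
    (@En.n l148 (nat_lit 3098) (nat_lit 3) (nat_lit 13))
    (@En.i (nat_lit 3955) (nat_lit 9) (nat_lit 13))
    (@En.n l763 (nat_lit 3915) (nat_lit 9) (nat_lit 5))
    (@En.n l12788 (nat_lit 3263) (nat_lit 4) (nat_lit 6))
    (@En.n l5338 (nat_lit 3943) (nat_lit 12) (nat_lit 7))
    (@En.i (nat_lit 1376) (nat_lit 13) (nat_lit 7))
    (@En.n l681 (nat_lit 3692) (nat_lit 14) (nat_lit 9))
    (@En.n l765 (nat_lit 875) (nat_lit 9) (nat_lit 11))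
    (@En.n l50 (nat_lit 3092) (nat_lit 15) (nat_lit 2))))
  (@Cl.mk (nat_lit 0x200070006000e000d0002000900030009000e00090002000a0007000e0007) (nat_lit 0x30040000000a0) (nat_lit 16) Lb.e (@T16.mk En
    (@En.n l12844 (nat_lit 3097) (nat_lit 5) (nat_lit 7))
    (@En.n l6444 (nat_lit 4853) (nat_lit 7) (nat_lit 14))
    (@En.n l1353 (nat_lit 3027) (nat_lit 2) (nat_lit 7))
    (@En.n l12845 (nat_lit 3110) (nat_lit 3) (nat_lit 10))
    (@En.n l50 (nat_lit 3093) (nat_lit 4) (nat_lit 2))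
    (@En.n l12846 (nat_lit 3096) (nat_lit 5) (nat_lit 9))
    (@En.n l2544 (nat_lit 4826) (nat_lit 7) (nat_lit 14))
    (@En.i (nat_lit 7705) (nat_lit 2) (nat_lit 9))
    (@En.i (nat_lit 3095) (nat_lit 8) (nat_lit 3))
    (@En.i (nat_lit 1861) (nat_lit 10) (nat_lit 9))
    (@En.n l11 (nat_lit 3093) (nat_lit 10) (nat_lit 2))
    (@En.n l1578 (nat_lit 3095) (nat_lit 12) (nat_lit 13))
    (@En.n l6839 (nat_lit 3024) (nat_lit 8) (nat_lit 14))
    (@En.i (nat_lit 3980) (nat_lit 14) (nat_lit 6))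
    (@En.n l4990 (nat_lit 1605) (nat_lit 3) (nat_lit 7))
    (@En.n l3 (nat_lit 3093) (nat_lit 15) (nat_lit 2))))
  (@Cl.mk (nat_lit 0x200070006000d0007000e000300020009000e00090002000a0009000e0007) (nat_lit 0x90000007500) (nat_lit 16) Lb.e (@T16.mk En
    (@En.n l1769 (nat_lit 3098) (nat_lit 7) (nat_lit 7))
    (@En.n l10095 (nat_lit 4852) (nat_lit 13) (nat_lit 14))
    (@En.n l644 (nat_lit 4772) (nat_lit 2) (nat_lit 9))
    (@En.n l7142 (nat_lit 3106) (nat_lit 3) (nat_lit 10))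
    (@En.n l11 (nat_lit 3094) (nat_lit 4) (nat_lit 2))
    (@En.n l7143 (nat_lit 3099) (nat_lit 5) (nat_lit 9))
    (@En.n l10096 (nat_lit 4804) (nat_lit 7) (nat_lit 14))
    (@En.n l10097 (nat_lit 5433) (nat_lit 2) (nat_lit 9))
    (@En.n l17 (nat_lit 3094) (nat_lit 8) (nat_lit 2))
    (@En.n l10098 (nat_lit 3095) (nat_lit 9) (nat_lit 3))
    (@En.n l10097 (nat_lit 13705) (nat_lit 0) (nat_lit 14))
    (@En.n l7 (nat_lit 2111) (nat_lit 12) (nat_lit 7))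
    (@En.n l10099 (nat_lit 4218) (nat_lit 8) (nat_lit 13))
    (@En.n l10100 (nat_lit 3979) (nat_lit 14) (nat_lit 6))
    (@En.i (nat_lit 4462) (nat_lit 5) (nat_lit 7))
    (@En.n l3 (nat_lit 3094) (nat_lit 15) (nat_lit 2))))
  (@Cl.mk (nat_lit 0x200070006000d000d0008000300030009000e00090002000a0008000e0007) (nat_lit 0xb120070104520) (nat_lit 16) Lb.e (@T16.mk En
    (@En.n l23289 (nat_lit 3092) (nat_lit 12) (nat_lit 7))
    (@En.n l8820 (nat_lit 4851) (nat_lit 13) (nat_lit 14))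
    (@En.n l7514 (nat_lit 3031) (nat_lit 2) (nat_lit 8))
    (@En.n l23290 (nat_lit 3108) (nat_lit 3) (nat_lit 10))
    (@En.n l50 (nat_lit 3095) (nat_lit 4) (nat_lit 2))
    (@En.n l23291 (nat_lit 3091) (nat_lit 5) (nat_lit 9))
    (@En.n l3815 (nat_lit 3991) (nat_lit 7) (nat_lit 14))
    (@En.n l810 (nat_lit 5434) (nat_lit 2) (nat_lit 9))
    (@En.n l28 (nat_lit 3093) (nat_lit 8) (nat_lit 3))
    (@En.n l22608 (nat_lit 3094) (nat_lit 9) (nat_lit 3))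
    (@En.i (nat_lit 1863) (nat_lit 11) (nat_lit 8))
    (@En.n l23292 (nat_lit 3094) (nat_lit 12) (nat_lit 13))
    (@En.n l11150 (nat_lit 4216) (nat_lit 8) (nat_lit 13))
    (@En.i (nat_lit 3978) (nat_lit 14) (nat_lit 6))
    (@En.n l23293 (nat_lit 4199) (nat_lit 4) (nat_lit 7))
    (@En.n l3 (nat_lit 3095) (nat_lit 15) (nat_lit 2))))
  (@Cl.mk (nat_lit 0x2000700070007000e000d0002000a0003000a0009000900090006000e0006) (nat_lit 0x570308700080) (nat_lit 16) Lb.e (@T16.mk En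
    (@En.n l25396 (nat_lit 3090) (nat_lit 6) (nat_lit 6))
    (@En.n l23545 (nat_lit 3297) (nat_lit 8) (nat_lit 14))
    (@En.n l6442 (nat_lit 3032) (nat_lit 2) (nat_lit 6))
    (@En.n l10050 (nat_lit 4506) (nat_lit 3) (nat_lit 9))
    (@En.n l4973 (nat_lit 3287) (nat_lit 7) (nat_lit 9))
    (@En.i (nat_lit 3986) (nat_lit 5) (nat_lit 9))
    (@En.n l11486 (nat_lit 8102) (nat_lit 13) (nat_lit 10))
    (@En.n l1392 (nat_lit 3091) (nat_lit 7) (nat_lit 3))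
    (@En.i (nat_lit 1858) (nat_lit 9) (nat_lit 10))
    (@En.n l50 (nat_lit 3096) (nat_lit 9) (nat_lit 2))
    (@En.n l1393 (nat_lit 3091) (nat_lit 11) (nat_lit 13))
    (@En.n l4316 (nat_lit 3132) (nat_lit 12) (nat_lit 14))
    (@En.n l4494 (nat_lit 3101) (nat_lit 9) (nat_lit 7))
    (@En.n l25397 (nat_lit 3093) (nat_lit 14) (nat_lit 7))
    (@En.n l25398 (nat_lit 4154) (nat_lit 4) (nat_lit 7))
    (@En.n l3 (nat_lit 3096) (nat_lit 15) (nat_lit 2))))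
  (@Cl.mk (nat_lit 0x20008000300090009000e000a0002000b00080007000700060005000e000d) (nat_lit 0x605112056000041) (nat_lit 16) Lb.e (@T16.mk En
    (@En.i (nat_lit 3092) (nat_lit 8) (nat_lit 13))
    (@En.i (nat_lit 3664) (nat_lit 1) (nat_lit 14))
    (@En.n l763 (nat_lit 3986) (nat_lit 2) (nat_lit 5))
    (@En.n l2900 (nat_lit 3266) (nat_lit 3) (nat_lit 6))
    (@En.n l55 (nat_lit 3945) (nat_lit 4) (nat_lit 7))
    (@En.i (nat_lit 1378) (nat_lit 13) (nat_lit 7))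
    (@En.n l4917 (nat_lit 3033) (nat_lit 6) (nat_lit 8))
    (@En.n l765 (nat_lit 3115) (nat_lit 8) (nat_lit 11))
    (@En.n l50 (nat_lit 3097) (nat_lit 8) (nat_lit 2))
    (@En.n l217 (nat_lit 3090) (nat_lit 10) (nat_lit 10))
    (@En.n l1546 (nat_lit 2346) (nat_lit 11) (nat_lit 14))
    (@En.n l4918 (nat_lit 3093) (nat_lit 7) (nat_lit 9))
    (@En.n l4919 (nat_lit 3173) (nat_lit 13) (nat_lit 9))
    (@En.n l117 (nat_lit 3092) (nat_lit 4) (nat_lit 3))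
    (@En.n l1575 (nat_lit 1860) (nat_lit 0) (nat_lit 8))
    (@En.n l3 (nat_lit 3097) (nat_lit 15) (nat_lit 2))))
  (@Cl.mk (nat_lit 0x200090009000e000a0002000b000a0007000700060005000d0006000e0003) (nat_lit 0x51110160000b070) (nat_lit 16) Lb.e (@T16.mk En
    (@En.n l137 (nat_lit 3092) (nat_lit 5) (nat_lit 3))
    (@En.i (nat_lit 13703) (nat_lit 0) (nat_lit 14))
    (@En.n l7913 (nat_lit 1615) (nat_lit 2) (nat_lit 6))
    (@En.n l10007 (nat_lit 3956) (nat_lit 9) (nat_lit 13))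
    (@En.n l23014 (nat_lit 3930) (nat_lit 4) (nat_lit 5))
    (@En.i (nat_lit 3260) (nat_lit 5) (nat_lit 6))
    (@En.n l152 (nat_lit 3944) (nat_lit 12) (nat_lit 7))
    (@En.n l23015 (nat_lit 1379) (nat_lit 7) (nat_lit 7))
    (@En.n l644 (nat_lit 3693) (nat_lit 14) (nat_lit 10))
    (@En.n l9825 (nat_lit 876) (nat_lit 10) (nat_lit 11))
    (@En.n l11 (nat_lit 3098) (nat_lit 10) (nat_lit 2))
    (@En.n l3279 (nat_lit 1955) (nat_lit 12) (nat_lit 10))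
    (@En.n l1572 (nat_lit 2366) (nat_lit 13) (nat_lit 14))
    (@En.n l5870 (nat_lit 3094) (nat_lit 7) (nat_lit 9))
    (@En.i (nat_lit 4360) (nat_lit 3) (nat_lit 9))
    (@En.n l17 (nat_lit 3098) (nat_lit 15) (nat_lit 2))))
  (@Cl.mk (nat_lit 0x2000700070007000d0008000e00030002000a0009000900090008000e0006) (nat_lit 0x719008700190) (nat_lit 16) Lb.e (@T16.mk En
    (@En.n l152 (nat_lit 1955) (nat_lit 8) (nat_lit 6))
    (@En.n l22270 (nat_lit 3294) (nat_lit 1) (nat_lit 14))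
    (@En.n l644 (nat_lit 1164) (nat_lit 2) (nat_lit 8))
    (@En.n l22271 (nat_lit 4504) (nat_lit 3) (nat_lit 9))
    (@En.n l17050 (nat_lit 3286) (nat_lit 7) (nat_lit 9))
    (@En.n l22272 (nat_lit 3914) (nat_lit 5) (nat_lit 9))
    (@En.n l22273 (nat_lit 5436) (nat_lit 7) (nat_lit 10))
    (@En.n l17 (nat_lit 3099) (nat_lit 7) (nat_lit 2))
    (@En.n l4297 (nat_lit 3091) (nat_lit 8) (nat_lit 3))
    (@En.n l4971 (nat_lit 12970) (nat_lit 0) (nat_lit 14))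
    (@En.n l148 (nat_lit 1616) (nat_lit 11) (nat_lit 8))
    (@En.n l10815 (nat_lit 3141) (nat_lit 12) (nat_lit 13))
    (@En.n l9671 (nat_lit 3976) (nat_lit 13) (nat_lit 7))
    (@En.n l17085 (nat_lit 3094) (nat_lit 14) (nat_lit 7))
    (@En.n l9673 (nat_lit 4156) (nat_lit 6) (nat_lit 7))
    (@En.n l3 (nat_lit 3099) (nat_lit 15) (nat_lit 2))))
  (@Cl.mk (nat_lit 0x200080007000d000d00080003000300090008000e000900020008000e0007) (nat_lit 0x6067200503103a0) (nat_lit 16) Lb.e (@T16.mk En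
    (@En.n l22255 (nat_lit 2078) (nat_lit 13) (nat_lit 7))
    (@En.i (nat_lit 5810) (nat_lit 1) (nat_lit 14))
    (@En.n l6825 (nat_lit 6673) (nat_lit 2) (nat_lit 8))
    (@En.n l50 (nat_lit 3100) (nat_lit 3) (nat_lit 2))
    (@En.n l30375 (nat_lit 3091) (nat_lit 4) (nat_lit 9))
    (@En.n l30376 (nat_lit 2131) (nat_lit 6) (nat_lit 14))
    (@En.n l6825 (nat_lit 3103) (nat_lit 2) (nat_lit 8))
    (@En.n l21140 (nat_lit 5440) (nat_lit 3) (nat_lit 9))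
    (@En.n l7126 (nat_lit 3101) (nat_lit 4) (nat_lit 3))
    (@En.n l152 (nat_lit 3976) (nat_lit 9) (nat_lit 3))
    (@En.n l6825 (nat_lit 1863) (nat_lit 6) (nat_lit 8))
    (@En.n l619 (nat_lit 3976) (nat_lit 12) (nat_lit 13))
    (@En.n l6362 (nat_lit 6472) (nat_lit 13) (nat_lit 13))
    (@En.n l77 (nat_lit 3102) (nat_lit 14) (nat_lit 7))
    (@En.n l15742 (nat_lit 3671) (nat_lit 11) (nat_lit 8))
    (@En.n l17 (nat_lit 3100) (nat_lit 15) (nat_lit 2))))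
  (@Cl.mk (nat_lit 0x20007000e0007000200080007000e000d00020009000300090008000e0009) (nat_lit 0x90050370300011) (nat_lit 16) Lb.e (@T16.mk En
    (@En.n l7432 (nat_lit 3096) (nat_lit 4) (nat_lit 9))
    (@En.n l6761 (nat_lit 2451) (nat_lit 6) (nat_lit 14))
    (@En.i (nat_lit 3980) (nat_lit 2) (nat_lit 8))
    (@En.n l7490 (nat_lit 8105) (nat_lit 3) (nat_lit 9))
    (@En.n l3749 (nat_lit 3100) (nat_lit 8) (nat_lit 3))
    (@En.i (nat_lit 4632) (nat_lit 5) (nat_lit 9))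
    (@En.n l50 (nat_lit 3101) (nat_lit 6) (nat_lit 2))
    (@En.n l4270 (nat_lit 3100) (nat_lit 12) (nat_lit 13))
    (@En.n l2544 (nat_lit 5125) (nat_lit 9) (nat_lit 14))
    (@En.n l2669 (nat_lit 3103) (nat_lit 14) (nat_lit 7))
    (@En.n l28 (nat_lit 3669) (nat_lit 3) (nat_lit 8))
    (@En.n l11 (nat_lit 3101) (nat_lit 11) (nat_lit 2))
    (@En.i (nat_lit 3723) (nat_lit 5) (nat_lit 7))
    (@En.n l725 (nat_lit 5811) (nat_lit 7) (nat_lit 14))
    (@En.i (nat_lit 8188) (nat_lit 2) (nat_lit 7))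
    (@En.n l3 (nat_lit 3101) (nat_lit 15) (nat_lit 2))))
  (@Cl.mk (nat_lit 0x20007000d000d0007000300030008000d000d0009000300030009000e0008) (nat_lit 0x2000500200721) (nat_lit 16) Lb.e (@T16.mk En
    (@En.n l18239 (nat_lit 2081) (nat_lit 5) (nat_lit 8))
    (@En.i (nat_lit 4684) (nat_lit 1) (nat_lit 14))
    (@En.n l33628 (nat_lit 11229) (nat_lit 2) (nat_lit 9))
    (@En.n l18241 (nat_lit 3978) (nat_lit 3) (nat_lit 3))
    (@En.n l7 (nat_lit 3973) (nat_lit 4) (nat_lit 3))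
    (@En.n l3394 (nat_lit 3095) (nat_lit 5) (nat_lit 9))
    (@En.n l644 (nat_lit 3973) (nat_lit 7) (nat_lit 13))
    (@En.i (nat_lit 7029) (nat_lit 8) (nat_lit 13))
    (@En.n l33629 (nat_lit 3981) (nat_lit 3) (nat_lit 8))
    (@En.n l14680 (nat_lit 3103) (nat_lit 9) (nat_lit 3))
    (@En.n l152 (nat_lit 3974) (nat_lit 10) (nat_lit 3))
    (@En.n l15604 (nat_lit 3100) (nat_lit 0) (nat_lit 7))
    (@En.n l619 (nat_lit 3974) (nat_lit 13) (nat_lit 13))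
    (@En.i (nat_lit 5581) (nat_lit 14) (nat_lit 13))
    (@En.n l23234 (nat_lit 3531) (nat_lit 3) (nat_lit 7))
    (@En.n l17 (nat_lit 3102) (nat_lit 15) (nat_lit 2))))
  (@Cl.mk (nat_lit 0x20007000e000d0002000800030008000d000d0009000300030008000e0008) (nat_lit 0x21000000100620) (nat_lit 16) Lb.e (@T16.mk En
    (@En.n l7432 (nat_lit 3912) (nat_lit 4) (nat_lit 8))
    (@En.n l6672 (nat_lit 4687) (nat_lit 6) (nat_lit 14))
    (@En.n l1353 (nat_lit 11230) (nat_lit 2) (nat_lit 8))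
    (@En.n l18 (nat_lit 3980) (nat_lit 3) (nat_lit 3))
    (@En.n l7882 (nat_lit 3977) (nat_lit 8) (nat_lit 3))
    (@En.i (nat_lit 3093) (nat_lit 5) (nat_lit 9))
    (@En.n l25107 (nat_lit 3977) (nat_lit 11) (nat_lit 13))
    (@En.n l7882 (nat_lit 7067) (nat_lit 12) (nat_lit 13))
    (@En.n l3749 (nat_lit 7068) (nat_lit 13) (nat_lit 8))
    (@En.n l8820 (nat_lit 3102) (nat_lit 9) (nat_lit 3))
    (@En.n l1353 (nat_lit 3668) (nat_lit 0) (nat_lit 8))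
    (@En.n l11 (nat_lit 3103) (nat_lit 11) (nat_lit 2))
    (@En.n l8819 (nat_lit 3102) (nat_lit 13) (nat_lit 13))
    (@En.n l3749 (nat_lit 5316) (nat_lit 1) (nat_lit 14))
    (@En.i (nat_lit 7220) (nat_lit 2) (nat_lit 7))
    (@En.n l3 (nat_lit 3103) (nat_lit 15) (nat_lit 2))))
noncomputable def a194 : T16 Cl := @T16.mk Cl
  (@Cl.mk (nat_lit 0x2000900090008000e000b0002000a0007000700050008000d0006000e0003) (nat_lit 0x72521050006b040) (nat_lit 16) Lb.e (@T16.mk En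
    (@En.n l17206 (nat_lit 877) (nat_lit 6) (nat_lit 3))
    (@En.n l17207 (nat_lit 13387) (nat_lit 0) (nat_lit 14))
    (@En.n l2401 (nat_lit 1903) (nat_lit 2) (nat_lit 6))
    (@En.n l2381 (nat_lit 9004) (nat_lit 10) (nat_lit 13))
    (@En.n l17208 (nat_lit 12953) (nat_lit 10) (nat_lit 8))
    (@En.n l17209 (nat_lit 3018) (nat_lit 5) (nat_lit 5))
    (@En.n l6416 (nat_lit 874) (nat_lit 9) (nat_lit 7))
    (@En.n l17210 (nat_lit 3211) (nat_lit 14) (nat_lit 7))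
    (@En.n l17211 (nat_lit 8889) (nat_lit 9) (nat_lit 10))
    (@En.n l28 (nat_lit 3104) (nat_lit 9) (nat_lit 2))
    (@En.n l17212 (nat_lit 876) (nat_lit 11) (nat_lit 11))
    (@En.n l17213 (nat_lit 3098) (nat_lit 12) (nat_lit 14))
    (@En.n l17214 (nat_lit 1313) (nat_lit 2) (nat_lit 8))
    (@En.n l17208 (nat_lit 3107) (nat_lit 7) (nat_lit 9))
    (@En.n l6589 (nat_lit 1995) (nat_lit 4) (nat_lit 9))
    (@En.n l17 (nat_lit 3104) (nat_lit 15) (nat_lit 2))))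
  (@Cl.mk (nat_lit 0x200060009000d000d00080003000300090007000e000a00020008000e0007) (nat_lit 0x67400701006a0) (nat_lit 16) Lb.e (@T16.mk En
    (@En.n l7562 (nat_lit 877) (nat_lit 13) (nat_lit 7))
    (@En.n l3496 (nat_lit 5925) (nat_lit 1) (nat_lit 14))
    (@En.i (nat_lit 8899) (nat_lit 2) (nat_lit 8))
    (@En.n l18 (nat_lit 3105) (nat_lit 3) (nat_lit 2))
    (@En.n l11104 (nat_lit 3108) (nat_lit 4) (nat_lit 10))
    (@En.n l396 (nat_lit 3095) (nat_lit 6) (nat_lit 14))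
    (@En.n l536 (nat_lit 6048) (nat_lit 6) (nat_lit 7))
    (@En.n l810 (nat_lit 5358) (nat_lit 3) (nat_lit 9))
    (@En.n l28 (nat_lit 3111) (nat_lit 8) (nat_lit 3))
    (@En.n l3706 (nat_lit 3107) (nat_lit 9) (nat_lit 3))
    (@En.i (nat_lit 4632) (nat_lit 11) (nat_lit 8))
    (@En.n l11105 (nat_lit 3107) (nat_lit 12) (nat_lit 13))
    (@En.n l3496 (nat_lit 9032) (nat_lit 13) (nat_lit 13))
    (@En.n l1253 (nat_lit 12955) (nat_lit 9) (nat_lit 9))
    (@En.n l11106 (nat_lit 5515) (nat_lit 4) (nat_lit 6))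
    (@En.n l3 (nat_lit 3105) (nat_lit 15) (nat_lit 2))))
  (@Cl.mk (nat_lit 0x2000600060009000d0008000e00030002000a0007000a000a0008000e0006) (nat_lit 0x745008006490) (nat_lit 16) Lb.e (@T16.mk En
    (@En.n l3187 (nat_lit 876) (nat_lit 8) (nat_lit 6))
    (@En.n l3548 (nat_lit 5924) (nat_lit 1) (nat_lit 14))
    (@En.n l575 (nat_lit 8898) (nat_lit 2) (nat_lit 8))
    (@En.n l3 (nat_lit 3113) (nat_lit 6) (nat_lit 10))
    (@En.n l10026 (nat_lit 4504) (nat_lit 4) (nat_lit 10))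
    (@En.n l10027 (nat_lit 5844) (nat_lit 5) (nat_lit 7))
    (@En.i (nat_lit 1739) (nat_lit 7) (nat_lit 10))
    (@En.n l7 (nat_lit 3106) (nat_lit 7) (nat_lit 2))
    (@En.n l1328 (nat_lit 3108) (nat_lit 8) (nat_lit 3))
    (@En.n l10028 (nat_lit 13388) (nat_lit 0) (nat_lit 14))
    (@En.i (nat_lit 1901) (nat_lit 11) (nat_lit 8))
    (@En.i (nat_lit 9027) (nat_lit 12) (nat_lit 13))
    (@En.n l10029 (nat_lit 3107) (nat_lit 13) (nat_lit 9))
    (@En.n l10030 (nat_lit 3107) (nat_lit 14) (nat_lit 6))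
    (@En.n l2947 (nat_lit 5522) (nat_lit 6) (nat_lit 6))
    (@En.n l17 (nat_lit 3106) (nat_lit 15) (nat_lit 2))))
  (@Cl.mk (nat_lit 0x200060009000d0007000e0003000200090007000e000a00020009000e0007) (nat_lit 0x760400101105a0) (nat_lit 16) Lb.e (@T16.mk En
    (@En.n l3340 (nat_lit 3104) (nat_lit 7) (nat_lit 7))
    (@En.n l7228 (nat_lit 5927) (nat_lit 9) (nat_lit 14))
    (@En.n l7229 (nat_lit 8896) (nat_lit 2) (nat_lit 9))
    (@En.n l107 (nat_lit 3107) (nat_lit 3) (nat_lit 2))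
    (@En.n l7230 (nat_lit 3106) (nat_lit 4) (nat_lit 10))
    (@En.n l7231 (nat_lit 3094) (nat_lit 6) (nat_lit 14))
    (@En.n l7232 (nat_lit 6058) (nat_lit 6) (nat_lit 7))
    (@En.n l7233 (nat_lit 1741) (nat_lit 3) (nat_lit 9))
    (@En.n l50 (nat_lit 3107) (nat_lit 8) (nat_lit 2))
    (@En.n l7234 (nat_lit 3105) (nat_lit 9) (nat_lit 3))
    (@En.n l7233 (nat_lit 13392) (nat_lit 0) (nat_lit 14))
    (@En.i (nat_lit 1902) (nat_lit 12) (nat_lit 7))
    (@En.n l7228 (nat_lit 9029) (nat_lit 13) (nat_lit 13))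
    (@En.n l7235 (nat_lit 12957) (nat_lit 9) (nat_lit 9))
    (@En.i (nat_lit 5520) (nat_lit 5) (nat_lit 6))
    (@En.n l2196 (nat_lit 3107) (nat_lit 15) (nat_lit 2))))
  (@Cl.mk (nat_lit 0x2000600060009000d000d000900030003000a0007000a000a0007000e0006) (nat_lit 0x1785008083080) (nat_lit 16) Lb.e (@T16.mk En
    (@En.n l4110 (nat_lit 875) (nat_lit 7) (nat_lit 6))
    (@En.n l23078 (nat_lit 5922) (nat_lit 1) (nat_lit 14))
    (@En.n l1422 (nat_lit 8909) (nat_lit 2) (nat_lit 7))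
    (@En.n l217 (nat_lit 3109) (nat_lit 6) (nat_lit 10))
    (@En.i (nat_lit 4505) (nat_lit 4) (nat_lit 10))
    (@En.n l19792 (nat_lit 5842) (nat_lit 5) (nat_lit 7))
    (@En.n l23079 (nat_lit 1742) (nat_lit 7) (nat_lit 10))
    (@En.n l152 (nat_lit 3110) (nat_lit 7) (nat_lit 3))
    (@En.n l1035 (nat_lit 3106) (nat_lit 8) (nat_lit 3))
    (@En.n l97 (nat_lit 4631) (nat_lit 10) (nat_lit 9))
    (@En.n l23080 (nat_lit 3106) (nat_lit 11) (nat_lit 13))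
    (@En.n l331 (nat_lit 9026) (nat_lit 12) (nat_lit 13))
    (@En.n l23081 (nat_lit 3105) (nat_lit 13) (nat_lit 9))
    (@En.n l23082 (nat_lit 3105) (nat_lit 14) (nat_lit 6))
    (@En.n l11538 (nat_lit 5518) (nat_lit 5) (nat_lit 6))
    (@En.n l7 (nat_lit 3108) (nat_lit 15) (nat_lit 2))))
  (@Cl.mk (nat_lit 0x20009000d000d000a00030003000b0007000a0006000e00050002000e0006) (nat_lit 0x289600702080000) (nat_lit 16) Lb.e (@T16.mk En
    (@En.i (nat_lit 3108) (nat_lit 14) (nat_lit 6))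
    (@En.n l3502 (nat_lit 7013) (nat_lit 1) (nat_lit 14))
    (@En.n l7 (nat_lit 3109) (nat_lit 2) (nat_lit 2))
    (@En.n l28 (nat_lit 3114) (nat_lit 3) (nat_lit 5))
    (@En.n l1684 (nat_lit 5920) (nat_lit 5) (nat_lit 14))
    (@En.i (nat_lit 8970) (nat_lit 5) (nat_lit 6))
    (@En.i (nat_lit 4095) (nat_lit 3) (nat_lit 10))
    (@En.i (nat_lit 5841) (nat_lit 7) (nat_lit 7))
    (@En.i (nat_lit 5361) (nat_lit 9) (nat_lit 11))
    (@En.n l152 (nat_lit 3112) (nat_lit 9) (nat_lit 3))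
    (@En.n l4288 (nat_lit 3113) (nat_lit 10) (nat_lit 3))
    (@En.n l97 (nat_lit 4630) (nat_lit 12) (nat_lit 10))
    (@En.n l4289 (nat_lit 3113) (nat_lit 13) (nat_lit 13))
    (@En.n l541 (nat_lit 8982) (nat_lit 14) (nat_lit 13))
    (@En.n l1738 (nat_lit 3108) (nat_lit 12) (nat_lit 9))
    (@En.n l18 (nat_lit 3109) (nat_lit 15) (nat_lit 2))))
  (@Cl.mk (nat_lit 0x2000600060009000e000d0002000a0003000a0007000a000a0006000e0006) (nat_lit 0x580607008090) (nat_lit 16) Lb.e (@T16.mk En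
    (@En.n l4110 (nat_lit 3115) (nat_lit 6) (nat_lit 6))
    (@En.n l21011 (nat_lit 5919) (nat_lit 8) (nat_lit 14))
    (@En.n l11156 (nat_lit 8944) (nat_lit 2) (nat_lit 6))
    (@En.n l217 (nat_lit 3112) (nat_lit 6) (nat_lit 10))
    (@En.i (nat_lit 4506) (nat_lit 4) (nat_lit 10))
    (@En.n l1529 (nat_lit 5846) (nat_lit 5) (nat_lit 7))
    (@En.n l11156 (nat_lit 5346) (nat_lit 13) (nat_lit 10))
    (@En.n l117 (nat_lit 3108) (nat_lit 7) (nat_lit 3))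
    (@En.i (nat_lit 1781) (nat_lit 9) (nat_lit 10))
    (@En.n l3 (nat_lit 3110) (nat_lit 9) (nat_lit 2))
    (@En.i (nat_lit 3108) (nat_lit 11) (nat_lit 13))
    (@En.n l4739 (nat_lit 8986) (nat_lit 12) (nat_lit 14))
    (@En.n l22537 (nat_lit 3111) (nat_lit 13) (nat_lit 9))
    (@En.n l22538 (nat_lit 3111) (nat_lit 14) (nat_lit 6))
    (@En.n l22539 (nat_lit 5519) (nat_lit 4) (nat_lit 6))
    (@En.n l7 (nat_lit 3110) (nat_lit 15) (nat_lit 2))))
  (@Cl.mk (nat_lit 0x200060009000e000d00020009000300090007000e000a00020007000e0007) (nat_lit 0x747050501100a0) (nat_lit 16) Lb.e (@T16.mk En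
    (@En.n l7432 (nat_lit 3118) (nat_lit 5) (nat_lit 7))
    (@En.n l16332 (nat_lit 5926) (nat_lit 7) (nat_lit 14))
    (@En.i (nat_lit 8945) (nat_lit 2) (nat_lit 7))
    (@En.n l18 (nat_lit 3111) (nat_lit 3) (nat_lit 2))
    (@En.n l22476 (nat_lit 3110) (nat_lit 4) (nat_lit 10))
    (@En.n l396 (nat_lit 3093) (nat_lit 6) (nat_lit 14))
    (@En.n l1253 (nat_lit 6047) (nat_lit 6) (nat_lit 7))
    (@En.i (nat_lit 5347) (nat_lit 3) (nat_lit 9))
    (@En.i (nat_lit 3105) (nat_lit 8) (nat_lit 3))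
    (@En.i (nat_lit 1782) (nat_lit 10) (nat_lit 9))
    (@En.n l11 (nat_lit 3111) (nat_lit 10) (nat_lit 2))
    (@En.n l1578 (nat_lit 3105) (nat_lit 12) (nat_lit 13))
    (@En.n l3495 (nat_lit 8990) (nat_lit 13) (nat_lit 14))
    (@En.n l1253 (nat_lit 12958) (nat_lit 9) (nat_lit 9))
    (@En.n l253 (nat_lit 5514) (nat_lit 3) (nat_lit 6))
    (@En.n l3 (nat_lit 3111) (nat_lit 15) (nat_lit 2))))
  (@Cl.mk (nat_lit 0x20009000e000d0002000b0003000b0007000a0005000e00050002000e0006) (nat_lit 0x169070707080000) (nat_lit 16) Lb.e (@T16.mk En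
    (@En.i (nat_lit 3110) (nat_lit 14) (nat_lit 6))
    (@En.n l564 (nat_lit 7014) (nat_lit 1) (nat_lit 14))
    (@En.n l7 (nat_lit 3112) (nat_lit 2) (nat_lit 2))
    (@En.n l28 (nat_lit 3116) (nat_lit 3) (nat_lit 5))
    (@En.i (nat_lit 5921) (nat_lit 9) (nat_lit 14))
    (@En.i (nat_lit 8998) (nat_lit 5) (nat_lit 5))
    (@En.i (nat_lit 4105) (nat_lit 11) (nat_lit 10))
    (@En.n l1529 (nat_lit 5845) (nat_lit 7) (nat_lit 7))
    (@En.i (nat_lit 5348) (nat_lit 9) (nat_lit 11))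
    (@En.n l117 (nat_lit 3109) (nat_lit 9) (nat_lit 3))
    (@En.i (nat_lit 1786) (nat_lit 0) (nat_lit 11))
    (@En.n l3 (nat_lit 3112) (nat_lit 11) (nat_lit 2))
    (@En.i (nat_lit 3109) (nat_lit 13) (nat_lit 13))
    (@En.i (nat_lit 8985) (nat_lit 1) (nat_lit 14))
    (@En.n l1738 (nat_lit 3110) (nat_lit 12) (nat_lit 9))
    (@En.n l18 (nat_lit 3112) (nat_lit 15) (nat_lit 2))))
  (@Cl.mk (nat_lit 0x20009000d0009000e00030002000b0007000a0007000e00050002000e0006) (nat_lit 0x185600705080000) (nat_lit 16) Lb.e (@T16.mk En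
    (@En.n l97 (nat_lit 3106) (nat_lit 14) (nat_lit 6))
    (@En.n l12290 (nat_lit 7012) (nat_lit 1) (nat_lit 14))
    (@En.n l17 (nat_lit 3113) (nat_lit 2) (nat_lit 2))
    (@En.n l1073 (nat_lit 3117) (nat_lit 3) (nat_lit 5))
    (@En.n l4660 (nat_lit 5923) (nat_lit 5) (nat_lit 14))
    (@En.i (nat_lit 8971) (nat_lit 5) (nat_lit 7))
    (@En.n l16844 (nat_lit 4093) (nat_lit 13) (nat_lit 10))
    (@En.i (nat_lit 5843) (nat_lit 14) (nat_lit 7))
    (@En.n l9874 (nat_lit 1740) (nat_lit 9) (nat_lit 11))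
    (@En.n l7 (nat_lit 3113) (nat_lit 9) (nat_lit 2))
    (@En.n l1792 (nat_lit 3109) (nat_lit 10) (nat_lit 3))
    (@En.n l5588 (nat_lit 13393) (nat_lit 0) (nat_lit 14))
    (@En.n l16844 (nat_lit 1905) (nat_lit 2) (nat_lit 9))
    (@En.i (nat_lit 8983) (nat_lit 14) (nat_lit 13))
    (@En.n l1690 (nat_lit 3106) (nat_lit 12) (nat_lit 9))
    (@En.n l67 (nat_lit 3113) (nat_lit 15) (nat_lit 2))))
  (@Cl.mk (nat_lit 0x20008000d000d000900030003000b000b0008000b000700050005000e0005) (nat_lit 0x1786009819000c0) (nat_lit 16) Lb.e (@T16.mk En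
    (@En.n l7 (nat_lit 875) (nat_lit 5) (nat_lit 5))
    (@En.n l2724 (nat_lit 4484) (nat_lit 1) (nat_lit 14))
    (@En.n l237 (nat_lit 866) (nat_lit 2) (nat_lit 5))
    (@En.i (nat_lit 859) (nat_lit 3) (nat_lit 5))
    (@En.i (nat_lit 8644) (nat_lit 4) (nat_lit 7))
    (@En.i (nat_lit 4098) (nat_lit 7) (nat_lit 11))
    (@En.n l414 (nat_lit 1138) (nat_lit 6) (nat_lit 8))
    (@En.n l134 (nat_lit 3109) (nat_lit 8) (nat_lit 11))
    (@En.i (nat_lit 3188) (nat_lit 9) (nat_lit 11))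
    (@En.n l152 (nat_lit 3116) (nat_lit 9) (nat_lit 3))
    (@En.n l11616 (nat_lit 3117) (nat_lit 10) (nat_lit 3))
    (@En.n l97 (nat_lit 1813) (nat_lit 12) (nat_lit 9))
    (@En.n l5411 (nat_lit 3117) (nat_lit 13) (nat_lit 13))
    (@En.i (nat_lit 9040) (nat_lit 14) (nat_lit 13))
    (@En.n l4600 (nat_lit 875) (nat_lit 3) (nat_lit 8))
    (@En.n l18 (nat_lit 3114) (nat_lit 15) (nat_lit 2))))
  (@Cl.mk (nat_lit 0x200090003000a000a0008000b000b000700060006000500050008000e000d) (nat_lit 0x608811400000061) (nat_lit 16) Lb.e (@T16.mk En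
    (@En.i (nat_lit 875) (nat_lit 2) (nat_lit 13))
    (@En.i (nat_lit 7653) (nat_lit 1) (nat_lit 14))
    (@En.n l2114 (nat_lit 3118) (nat_lit 2) (nat_lit 8))
    (@En.n l1959 (nat_lit 3118) (nat_lit 3) (nat_lit 5))
    (@En.n l3787 (nat_lit 4490) (nat_lit 4) (nat_lit 5))
    (@En.n l55 (nat_lit 867) (nat_lit 5) (nat_lit 6))
    (@En.i (nat_lit 855) (nat_lit 6) (nat_lit 6))
    (@En.n l688 (nat_lit 8933) (nat_lit 7) (nat_lit 7))
    (@En.n l2337 (nat_lit 3116) (nat_lit 5) (nat_lit 11))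
    (@En.i (nat_lit 1952) (nat_lit 10) (nat_lit 11))
    (@En.n l2019 (nat_lit 1143) (nat_lit 11) (nat_lit 8))
    (@En.n l2281 (nat_lit 3110) (nat_lit 6) (nat_lit 10))
    (@En.n l11 (nat_lit 4833) (nat_lit 13) (nat_lit 10))
    (@En.n l117 (nat_lit 875) (nat_lit 14) (nat_lit 3))
    (@En.i (nat_lit 1779) (nat_lit 0) (nat_lit 9))
    (@En.n l3 (nat_lit 3115) (nat_lit 15) (nat_lit 2))))
  (@Cl.mk (nat_lit 0x20008000e000d0002000a0003000b000b0008000b000600050005000e0005) (nat_lit 0x1780709813000c0) (nat_lit 16) Lb.e (@T16.mk En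
    (@En.n l7 (nat_lit 3115) (nat_lit 4) (nat_lit 5))
    (@En.n l2724 (nat_lit 4486) (nat_lit 1) (nat_lit 14))
    (@En.n l237 (nat_lit 868) (nat_lit 2) (nat_lit 5))
    (@En.i (nat_lit 858) (nat_lit 3) (nat_lit 5))
    (@En.i (nat_lit 8938) (nat_lit 4) (nat_lit 6))
    (@En.i (nat_lit 4101) (nat_lit 10) (nat_lit 11))
    (@En.n l414 (nat_lit 1142) (nat_lit 6) (nat_lit 8))
    (@En.n l134 (nat_lit 3112) (nat_lit 8) (nat_lit 11))
    (@En.n l11 (nat_lit 4838) (nat_lit 9) (nat_lit 11))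
    (@En.n l117 (nat_lit 3114) (nat_lit 9) (nat_lit 3))
    (@En.i (nat_lit 1807) (nat_lit 11) (nat_lit 10))
    (@En.n l3 (nat_lit 3116) (nat_lit 11) (nat_lit 2))
    (@En.i (nat_lit 3114) (nat_lit 13) (nat_lit 13))
    (@En.i (nat_lit 8984) (nat_lit 1) (nat_lit 14))
    (@En.n l4600 (nat_lit 3115) (nat_lit 2) (nat_lit 8))
    (@En.n l18 (nat_lit 3116) (nat_lit 15) (nat_lit 2))))
  (@Cl.mk (nat_lit 0x20008000d0008000e00030002000b000b0008000b000800050005000e0005) (nat_lit 0x175b00981930020) (nat_lit 16) Lb.e (@T16.mk En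
    (@En.i (nat_lit 876) (nat_lit 6) (nat_lit 5))
    (@En.n l4147 (nat_lit 4488) (nat_lit 1) (nat_lit 14))
    (@En.n l3498 (nat_lit 870) (nat_lit 2) (nat_lit 5))
    (@En.n l17576 (nat_lit 3737) (nat_lit 3) (nat_lit 5))
    (@En.i (nat_lit 8646) (nat_lit 4) (nat_lit 8))
    (@En.i (nat_lit 4097) (nat_lit 12) (nat_lit 11))
    (@En.n l22703 (nat_lit 1141) (nat_lit 6) (nat_lit 8))
    (@En.n l3501 (nat_lit 3113) (nat_lit 8) (nat_lit 11))
    (@En.n l3502 (nat_lit 3189) (nat_lit 9) (nat_lit 11))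
    (@En.n l17 (nat_lit 3117) (nat_lit 9) (nat_lit 2))
    (@En.n l3503 (nat_lit 3114) (nat_lit 10) (nat_lit 3))
    (@En.n l18964 (nat_lit 13384) (nat_lit 0) (nat_lit 14))
    (@En.n l17576 (nat_lit 1909) (nat_lit 13) (nat_lit 8))
    (@En.n l3505 (nat_lit 9041) (nat_lit 14) (nat_lit 13))
    (@En.n l3506 (nat_lit 876) (nat_lit 4) (nat_lit 8))
    (@En.n l28 (nat_lit 3117) (nat_lit 15) (nat_lit 2))))
  (@Cl.mk (nat_lit 0x200080003000900090008000e000b000200080007000700050008000e000d) (nat_lit 0x507612206000651) (nat_lit 16) Lb.e (@T16.mk En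
    (@En.i (nat_lit 877) (nat_lit 9) (nat_lit 13))
    (@En.i (nat_lit 8934) (nat_lit 10) (nat_lit 14))
    (@En.n l5562 (nat_lit 12950) (nat_lit 10) (nat_lit 8))
    (@En.n l1527 (nat_lit 3016) (nat_lit 3) (nat_lit 5))
    (@En.n l55 (nat_lit 873) (nat_lit 4) (nat_lit 7))
    (@En.i (nat_lit 854) (nat_lit 14) (nat_lit 7))
    (@En.n l982 (nat_lit 8931) (nat_lit 6) (nat_lit 8))
    (@En.n l18 (nat_lit 3118) (nat_lit 7) (nat_lit 2))
    (@En.n l1708 (nat_lit 3115) (nat_lit 9) (nat_lit 11))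
    (@En.n l1063 (nat_lit 3097) (nat_lit 10) (nat_lit 14))
    (@En.n l890 (nat_lit 1314) (nat_lit 2) (nat_lit 8))
    (@En.n l4494 (nat_lit 3111) (nat_lit 7) (nat_lit 9))
    (@En.n l982 (nat_lit 4834) (nat_lit 4) (nat_lit 9))
    (@En.n l117 (nat_lit 877) (nat_lit 5) (nat_lit 3))
    (@En.i (nat_lit 1778) (nat_lit 0) (nat_lit 8))
    (@En.n l3 (nat_lit 3118) (nat_lit 15) (nat_lit 2))))
  (@Cl.mk (nat_lit 0x3000a0003000a0008000b000b0006000a0006000500050008000d0006000d) (nat_lit 0x707102040000402) (nat_lit 16) Lb.e (@T16.mk En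
    (@En.n l619 (nat_lit 3115) (nat_lit 0) (nat_lit 13))
    (@En.i (nat_lit 3126) (nat_lit 3) (nat_lit 6))
    (@En.n l6014 (nat_lit 9986) (nat_lit 2) (nat_lit 13))
    (@En.n l27116 (nat_lit 3120) (nat_lit 10) (nat_lit 8))
    (@En.n l27117 (nat_lit 3120) (nat_lit 11) (nat_lit 5))
    (@En.n l34759 (nat_lit 4240) (nat_lit 5) (nat_lit 5))
    (@En.n l476 (nat_lit 7855) (nat_lit 6) (nat_lit 6))
    (@En.n l12788 (nat_lit 3323) (nat_lit 9) (nat_lit 10))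
    (@En.n l27118 (nat_lit 9877) (nat_lit 8) (nat_lit 6))
    (@En.n l2337 (nat_lit 3128) (nat_lit 5) (nat_lit 11))
    (@En.i (nat_lit 4472) (nat_lit 7) (nat_lit 11))
    (@En.n l27118 (nat_lit 369) (nat_lit 14) (nat_lit 8))
    (@En.n l18989 (nat_lit 6632) (nat_lit 13) (nat_lit 10))
    (@En.n l7099 (nat_lit 3122) (nat_lit 15) (nat_lit 3))
    (@En.i (nat_lit 5227) (nat_lit 0) (nat_lit 10))
    (@En.n l14486 (nat_lit 3124) (nat_lit 15) (nat_lit 3))))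
noncomputable def a195 : T16 Cl := @T16.mk Cl
  (@Cl.mk (nat_lit 0x20007000b000700050008000d0005000d00030009000300090008000e000b) (nat_lit 0x500640206071b1) (nat_lit 16) Lb.e (@T16.mk En
    (@En.n l30485 (nat_lit 3119) (nat_lit 10) (nat_lit 11))
    (@En.n l30486 (nat_lit 4356) (nat_lit 1) (nat_lit 14))
    (@En.i (nat_lit 368) (nat_lit 2) (nat_lit 8))
    (@En.n l16383 (nat_lit 6635) (nat_lit 3) (nat_lit 9))
    (@En.n l9833 (nat_lit 3121) (nat_lit 4) (nat_lit 3))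
    (@En.n l7609 (nat_lit 5228) (nat_lit 5) (nat_lit 9))
    (@En.n l117 (nat_lit 3123) (nat_lit 6) (nat_lit 3))
    (@En.n l2365 (nat_lit 3118) (nat_lit 0) (nat_lit 13))
    (@En.n l2642 (nat_lit 3125) (nat_lit 8) (nat_lit 5))
    (@En.n l3593 (nat_lit 9990) (nat_lit 10) (nat_lit 13))
    (@En.n l12585 (nat_lit 13297) (nat_lit 10) (nat_lit 8))
    (@En.n l3098 (nat_lit 4242) (nat_lit 4) (nat_lit 5))
    (@En.n l889 (nat_lit 7861) (nat_lit 13) (nat_lit 7))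
    (@En.n l38093 (nat_lit 3324) (nat_lit 14) (nat_lit 11))
    (@En.i (nat_lit 9950) (nat_lit 7) (nat_lit 7))
    (@En.n l50 (nat_lit 3120) (nat_lit 15) (nat_lit 2))))
  (@Cl.mk (nat_lit 0x20008000b000700050008000c0005000d00080004000300090008000e000b) (nat_lit 0x5900040150071b3) (nat_lit 16) Lb.e (@T16.mk En
    (@En.n l644 (nat_lit 3122) (nat_lit 12) (nat_lit 11))
    (@En.n l9449 (nat_lit 4355) (nat_lit 1) (nat_lit 14))
    (@En.n l22574 (nat_lit 372) (nat_lit 2) (nat_lit 8))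
    (@En.n l22575 (nat_lit 4937) (nat_lit 3) (nat_lit 9))
    (@En.n l22576 (nat_lit 3120) (nat_lit 4) (nat_lit 3))
    (@En.n l3480 (nat_lit 3208) (nat_lit 0) (nat_lit 4))
    (@En.n l22574 (nat_lit 1996) (nat_lit 6) (nat_lit 8))
    (@En.n l4163 (nat_lit 877) (nat_lit 8) (nat_lit 13))
    (@En.n l4165 (nat_lit 4362) (nat_lit 8) (nat_lit 5))
    (@En.i (nat_lit 7819) (nat_lit 10) (nat_lit 12))
    (@En.n l14654 (nat_lit 13298) (nat_lit 10) (nat_lit 8))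
    (@En.i (nat_lit 4241) (nat_lit 12) (nat_lit 5))
    (@En.n l20029 (nat_lit 7867) (nat_lit 13) (nat_lit 7))
    (@En.i (nat_lit 3214) (nat_lit 7) (nat_lit 11))
    (@En.n l22574 (nat_lit 8796) (nat_lit 2) (nat_lit 8))
    (@En.n l7 (nat_lit 3121) (nat_lit 15) (nat_lit 2))))
  (@Cl.mk (nat_lit 0x3000a0008000b000b0007000a0006000500050008000c0006000d00090004) (nat_lit 0x712308000150160) (nat_lit 16) Lb.e (@T16.mk En
    (@En.n l15186 (nat_lit 3195) (nat_lit 0) (nat_lit 4))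
    (@En.n l6662 (nat_lit 1994) (nat_lit 0) (nat_lit 9))
    (@En.n l29343 (nat_lit 875) (nat_lit 1) (nat_lit 13))
    (@En.n l3948 (nat_lit 3131) (nat_lit 3) (nat_lit 6))
    (@En.i (nat_lit 9054) (nat_lit 7) (nat_lit 12))
    (@En.n l612 (nat_lit 3121) (nat_lit 10) (nat_lit 8))
    (@En.n l3787 (nat_lit 3121) (nat_lit 11) (nat_lit 5))
    (@En.i (nat_lit 4239) (nat_lit 11) (nat_lit 5))
    (@En.n l29477 (nat_lit 7856) (nat_lit 8) (nat_lit 6))
    (@En.i (nat_lit 3215) (nat_lit 8) (nat_lit 10))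
    (@En.n l29478 (nat_lit 8797) (nat_lit 2) (nat_lit 7))
    (@En.n l2280 (nat_lit 3129) (nat_lit 5) (nat_lit 11))
    (@En.n l6661 (nat_lit 4471) (nat_lit 7) (nat_lit 11))
    (@En.n l29479 (nat_lit 373) (nat_lit 14) (nat_lit 8))
    (@En.i (nat_lit 5280) (nat_lit 14) (nat_lit 10))
    (@En.n l6661 (nat_lit 3119) (nat_lit 13) (nat_lit 3))))
  (@Cl.mk (nat_lit 0x20007000a000700050008000d000c000600030009000400090008000e000b) (nat_lit 0x600035006071b0) (nat_lit 16) Lb.e (@T16.mk En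
    (@En.n l36464 (nat_lit 3124) (nat_lit 10) (nat_lit 11))
    (@En.n l36465 (nat_lit 4357) (nat_lit 1) (nat_lit 14))
    (@En.i (nat_lit 366) (nat_lit 2) (nat_lit 8))
    (@En.n l21082 (nat_lit 6636) (nat_lit 3) (nat_lit 9))
    (@En.i (nat_lit 3198) (nat_lit 4) (nat_lit 4))
    (@En.n l16218 (nat_lit 3125) (nat_lit 5) (nat_lit 9))
    (@En.n l152 (nat_lit 3120) (nat_lit 6) (nat_lit 3))
    (@En.i (nat_lit 2082) (nat_lit 7) (nat_lit 6))
    (@En.n l9944 (nat_lit 3121) (nat_lit 9) (nat_lit 12))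
    (@En.n l14229 (nat_lit 9989) (nat_lit 10) (nat_lit 13))
    (@En.n l17 (nat_lit 13296) (nat_lit 10) (nat_lit 8))
    (@En.n l3532 (nat_lit 4251) (nat_lit 4) (nat_lit 5))
    (@En.n l889 (nat_lit 7761) (nat_lit 13) (nat_lit 7))
    (@En.n l9944 (nat_lit 3210) (nat_lit 8) (nat_lit 10))
    (@En.i (nat_lit 9879) (nat_lit 7) (nat_lit 7))
    (@En.n l50 (nat_lit 3123) (nat_lit 15) (nat_lit 2))))
  (@Cl.mk (nat_lit 0x3000a0004000a0008000b000b000600090006000500050008000d000c0007) (nat_lit 0x701192050001460) (nat_lit 16) Lb.e (@T16.mk En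
    (@En.n l36431 (nat_lit 1941) (nat_lit 0) (nat_lit 7))
    (@En.n l36432 (nat_lit 3122) (nat_lit 4) (nat_lit 12))
    (@En.n l4985 (nat_lit 9985) (nat_lit 2) (nat_lit 13))
    (@En.n l22531 (nat_lit 3123) (nat_lit 10) (nat_lit 8))
    (@En.n l29252 (nat_lit 3123) (nat_lit 11) (nat_lit 5))
    (@En.n l36432 (nat_lit 4295) (nat_lit 5) (nat_lit 5))
    (@En.n l7 (nat_lit 7754) (nat_lit 6) (nat_lit 6))
    (@En.n l36432 (nat_lit 3212) (nat_lit 9) (nat_lit 9))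
    (@En.n l36433 (nat_lit 9878) (nat_lit 8) (nat_lit 6))
    (@En.n l217 (nat_lit 3127) (nat_lit 5) (nat_lit 11))
    (@En.n l28554 (nat_lit 4470) (nat_lit 7) (nat_lit 11))
    (@En.n l36433 (nat_lit 367) (nat_lit 12) (nat_lit 8))
    (@En.n l12128 (nat_lit 2094) (nat_lit 13) (nat_lit 10))
    (@En.n l36434 (nat_lit 3194) (nat_lit 14) (nat_lit 4))
    (@En.n l28552 (nat_lit 3126) (nat_lit 0) (nat_lit 10))
    (@En.n l10977 (nat_lit 3119) (nat_lit 15) (nat_lit 3))))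
  (@Cl.mk (nat_lit 0x20007000b000a0008000600090005000d00060009000300080007000e000a) (nat_lit 0x673000105010a0) (nat_lit 16) Lb.e (@T16.mk En
    (@En.n l36842 (nat_lit 3126) (nat_lit 12) (nat_lit 10))
    (@En.n l134 (nat_lit 4358) (nat_lit 1) (nat_lit 14))
    (@En.n l2125 (nat_lit 370) (nat_lit 2) (nat_lit 7))
    (@En.n l152 (nat_lit 2093) (nat_lit 3) (nat_lit 8))
    (@En.n l1865 (nat_lit 4362) (nat_lit 4) (nat_lit 3))
    (@En.n l2921 (nat_lit 5225) (nat_lit 0) (nat_lit 9))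
    (@En.n l37925 (nat_lit 1979) (nat_lit 6) (nat_lit 6))
    (@En.n l22554 (nat_lit 1996) (nat_lit 8) (nat_lit 13))
    (@En.n l37926 (nat_lit 11207) (nat_lit 8) (nat_lit 5))
    (@En.n l2869 (nat_lit 13225) (nat_lit 9) (nat_lit 9))
    (@En.n l26601 (nat_lit 4297) (nat_lit 11) (nat_lit 6))
    (@En.i (nat_lit 7811) (nat_lit 12) (nat_lit 8))
    (@En.n l899 (nat_lit 3123) (nat_lit 13) (nat_lit 10))
    (@En.n l649 (nat_lit 3318) (nat_lit 14) (nat_lit 11))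
    (@En.i (nat_lit 9876) (nat_lit 10) (nat_lit 7))
    (@En.n l7 (nat_lit 3125) (nat_lit 15) (nat_lit 2))))
  (@Cl.mk (nat_lit 0x300090007000a000a0006000a000900070006000600090006000d0007000a) (nat_lit 0x108005600010106) (nat_lit 16) Lb.e (@T16.mk En
    (@En.n l26958 (nat_lit 5224) (nat_lit 0) (nat_lit 10))
    (@En.n l36625 (nat_lit 1939) (nat_lit 3) (nat_lit 7))
    (@En.n l619 (nat_lit 1994) (nat_lit 2) (nat_lit 13))
    (@En.n l36626 (nat_lit 11209) (nat_lit 3) (nat_lit 6))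
    (@En.n l36627 (nat_lit 3125) (nat_lit 9) (nat_lit 9))
    (@En.n l36628 (nat_lit 3125) (nat_lit 10) (nat_lit 6))
    (@En.n l36629 (nat_lit 4296) (nat_lit 10) (nat_lit 6))
    (@En.n l36630 (nat_lit 7809) (nat_lit 7) (nat_lit 7))
    (@En.n l22196 (nat_lit 3124) (nat_lit 7) (nat_lit 9))
    (@En.n l23959 (nat_lit 3314) (nat_lit 9) (nat_lit 10))
    (@En.n l36630 (nat_lit 9874) (nat_lit 11) (nat_lit 6))
    (@En.n l2337 (nat_lit 3130) (nat_lit 6) (nat_lit 10))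
    (@En.i (nat_lit 4469) (nat_lit 8) (nat_lit 10))
    (@En.n l27118 (nat_lit 371) (nat_lit 14) (nat_lit 7))
    (@En.n l17986 (nat_lit 2091) (nat_lit 12) (nat_lit 9))
    (@En.n l7098 (nat_lit 3131) (nat_lit 15) (nat_lit 3))))
  (@Cl.mk (nat_lit 0x20008000d000c00080003000b0004000b0008000b000500080005000e0005) (nat_lit 0x257008071104060) (nat_lit 16) Lb.e (@T16.mk En
    (@En.i (nat_lit 3124) (nat_lit 5) (nat_lit 5))
    (@En.n l3430 (nat_lit 4518) (nat_lit 1) (nat_lit 14))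
    (@En.i (nat_lit 7762) (nat_lit 2) (nat_lit 5))
    (@En.n l3531 (nat_lit 3736) (nat_lit 10) (nat_lit 8))
    (@En.n l17310 (nat_lit 9636) (nat_lit 4) (nat_lit 5))
    (@En.n l5375 (nat_lit 3046) (nat_lit 7) (nat_lit 11))
    (@En.n l420 (nat_lit 909) (nat_lit 6) (nat_lit 8))
    (@En.n l12128 (nat_lit 6634) (nat_lit 8) (nat_lit 11))
    (@En.n l1688 (nat_lit 3192) (nat_lit 8) (nat_lit 4))
    (@En.n l9591 (nat_lit 3130) (nat_lit 10) (nat_lit 11))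
    (@En.n l26461 (nat_lit 3128) (nat_lit 10) (nat_lit 3))
    (@En.n l4985 (nat_lit 3174) (nat_lit 12) (nat_lit 8))
    (@En.n l37182 (nat_lit 3129) (nat_lit 13) (nat_lit 12))
    (@En.n l4985 (nat_lit 9987) (nat_lit 14) (nat_lit 13))
    (@En.n l1738 (nat_lit 3124) (nat_lit 3) (nat_lit 8))
    (@En.n l18 (nat_lit 3127) (nat_lit 15) (nat_lit 2))))
  (@Cl.mk (nat_lit 0x20008000d0007000d0003000b0003000b0008000b000500090005000e0005) (nat_lit 0x160908071103060) (nat_lit 16) Lb.e (@T16.mk En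
    (@En.n l7 (nat_lit 3119) (nat_lit 5) (nat_lit 5))
    (@En.n l396 (nat_lit 4519) (nat_lit 1) (nat_lit 14))
    (@En.n l476 (nat_lit 7854) (nat_lit 2) (nat_lit 5))
    (@En.i (nat_lit 3326) (nat_lit 3) (nat_lit 9))
    (@En.i (nat_lit 9638) (nat_lit 4) (nat_lit 5))
    (@En.i (nat_lit 3045) (nat_lit 7) (nat_lit 11))
    (@En.n l20179 (nat_lit 911) (nat_lit 6) (nat_lit 8))
    (@En.n l3528 (nat_lit 6633) (nat_lit 8) (nat_lit 11))
    (@En.i (nat_lit 3129) (nat_lit 8) (nat_lit 3))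
    (@En.i (nat_lit 5229) (nat_lit 10) (nat_lit 11))
    (@En.n l7705 (nat_lit 3127) (nat_lit 10) (nat_lit 3))
    (@En.n l619 (nat_lit 3116) (nat_lit 12) (nat_lit 13))
    (@En.i (nat_lit 3130) (nat_lit 13) (nat_lit 7))
    (@En.i (nat_lit 9988) (nat_lit 14) (nat_lit 13))
    (@En.n l4600 (nat_lit 3119) (nat_lit 3) (nat_lit 8))
    (@En.n l18 (nat_lit 3128) (nat_lit 15) (nat_lit 2))))
  (@Cl.mk (nat_lit 0x20008000c0007000d000a00040003000b0008000b000600090005000e0005) (nat_lit 0x260970071204060) (nat_lit 16) Lb.e (@T16.mk En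
    (@En.n l2387 (nat_lit 3122) (nat_lit 7) (nat_lit 5))
    (@En.n l25971 (nat_lit 3411) (nat_lit 1) (nat_lit 14))
    (@En.n l476 (nat_lit 7857) (nat_lit 2) (nat_lit 5))
    (@En.n l2385 (nat_lit 3734) (nat_lit 9) (nat_lit 9))
    (@En.n l25972 (nat_lit 9357) (nat_lit 4) (nat_lit 6))
    (@En.i (nat_lit 3040) (nat_lit 7) (nat_lit 11))
    (@En.n l20179 (nat_lit 915) (nat_lit 6) (nat_lit 8))
    (@En.n l9938 (nat_lit 5279) (nat_lit 8) (nat_lit 11))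
    (@En.n l11 (nat_lit 3128) (nat_lit 8) (nat_lit 3))
    (@En.n l25973 (nat_lit 3193) (nat_lit 9) (nat_lit 4))
    (@En.i (nat_lit 3188) (nat_lit 11) (nat_lit 10))
    (@En.n l1144 (nat_lit 3114) (nat_lit 12) (nat_lit 13))
    (@En.i (nat_lit 3191) (nat_lit 13) (nat_lit 7))
    (@En.n l2385 (nat_lit 8588) (nat_lit 14) (nat_lit 12))
    (@En.n l25974 (nat_lit 3122) (nat_lit 5) (nat_lit 8))
    (@En.n l18 (nat_lit 3129) (nat_lit 15) (nat_lit 2))))
  (@Cl.mk (nat_lit 0x200090007000d0008000b0003000a0007000a0005000900080006000e0006) (nat_lit 0x206070108005070) (nat_lit 16) Lb.e (@T16.mk En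
    (@En.n l7 (nat_lit 3126) (nat_lit 6) (nat_lit 6))
    (@En.n l396 (nat_lit 3421) (nat_lit 1) (nat_lit 14))
    (@En.n l1770 (nat_lit 7810) (nat_lit 2) (nat_lit 6))
    (@En.n l21433 (nat_lit 3127) (nat_lit 3) (nat_lit 8))
    (@En.n l1769 (nat_lit 3319) (nat_lit 4) (nat_lit 9))
    (@En.i (nat_lit 9637) (nat_lit 5) (nat_lit 5))
    (@En.i (nat_lit 4462) (nat_lit 8) (nat_lit 10))
    (@En.n l20179 (nat_lit 913) (nat_lit 7) (nat_lit 7))
    (@En.n l1140 (nat_lit 2092) (nat_lit 9) (nat_lit 10))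
    (@En.i (nat_lit 3191) (nat_lit 9) (nat_lit 3))
    (@En.i (nat_lit 5226) (nat_lit 7) (nat_lit 11))
    (@En.i (nat_lit 3175) (nat_lit 12) (nat_lit 8))
    (@En.n l619 (nat_lit 3188) (nat_lit 13) (nat_lit 13))
    (@En.n l17638 (nat_lit 9893) (nat_lit 14) (nat_lit 7))
    (@En.n l4600 (nat_lit 3126) (nat_lit 4) (nat_lit 9))
    (@En.n l18 (nat_lit 3130) (nat_lit 15) (nat_lit 2))))
  (@Cl.mk (nat_lit 0x300090007000a000a0007000a000800070006000600090006000d00090008) (nat_lit 0x600008600000152) (nat_lit 16) Lb.e (@T16.mk En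
    (@En.n l36435 (nat_lit 1770) (nat_lit 0) (nat_lit 8))
    (@En.n l25847 (nat_lit 1997) (nat_lit 14) (nat_lit 9))
    (@En.n l36436 (nat_lit 1993) (nat_lit 2) (nat_lit 13))
    (@En.n l61 (nat_lit 11278) (nat_lit 3) (nat_lit 6))
    (@En.n l730 (nat_lit 4362) (nat_lit 9) (nat_lit 9))
    (@En.n l731 (nat_lit 4362) (nat_lit 10) (nat_lit 6))
    (@En.n l36435 (nat_lit 4298) (nat_lit 10) (nat_lit 6))
    (@En.i (nat_lit 4655) (nat_lit 9) (nat_lit 7))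
    (@En.n l36437 (nat_lit 3194) (nat_lit 8) (nat_lit 8))
    (@En.i (nat_lit 3320) (nat_lit 8) (nat_lit 10))
    (@En.n l36438 (nat_lit 9424) (nat_lit 11) (nat_lit 7))
    (@En.n l36439 (nat_lit 3191) (nat_lit 6) (nat_lit 10))
    (@En.n l14522 (nat_lit 4466) (nat_lit 8) (nat_lit 10))
    (@En.n l20442 (nat_lit 977) (nat_lit 14) (nat_lit 7))
    (@En.n l20441 (nat_lit 5285) (nat_lit 12) (nat_lit 9))
    (@En.n l18080 (nat_lit 3126) (nat_lit 15) (nat_lit 3))))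
  (@Cl.mk (nat_lit 0x200070007000e000c0002000a000a0004000a0009000900060006000e0006) (nat_lit 0x48034081200c0) (nat_lit 16) Lb.e (@T16.mk En
    (@En.n l3553 (nat_lit 2917) (nat_lit 5) (nat_lit 6))
    (@En.i (nat_lit 8194) (nat_lit 1) (nat_lit 14))
    (@En.n l1780 (nat_lit 3020) (nat_lit 10) (nat_lit 6))
    (@En.n l22978 (nat_lit 6421) (nat_lit 3) (nat_lit 6))
    (@En.n l575 (nat_lit 3133) (nat_lit 10) (nat_lit 9))
    (@En.i (nat_lit 3008) (nat_lit 5) (nat_lit 9))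
    (@En.n l22979 (nat_lit 5953) (nat_lit 12) (nat_lit 10))
    (@En.n l947 (nat_lit 3135) (nat_lit 7) (nat_lit 4))
    (@En.n l61 (nat_lit 1899) (nat_lit 9) (nat_lit 10))
    (@En.i (nat_lit 3134) (nat_lit 10) (nat_lit 10))
    (@En.n l7 (nat_lit 3132) (nat_lit 10) (nat_lit 2))
    (@En.i (nat_lit 2982) (nat_lit 12) (nat_lit 12))
    (@En.n l134 (nat_lit 5247) (nat_lit 13) (nat_lit 14))
    (@En.n l11731 (nat_lit 3024) (nat_lit 9) (nat_lit 7))
    (@En.n l107 (nat_lit 1278) (nat_lit 3) (nat_lit 7))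
    (@En.n l3 (nat_lit 3132) (nat_lit 15) (nat_lit 2))))
  (@Cl.mk (nat_lit 0x2000b000b0004000b000900050005000e00050002000e00070002000e000c) (nat_lit 0x4309100c0020041) (nat_lit 16) Lb.e (@T16.mk En
    (@En.i (nat_lit 2985) (nat_lit 14) (nat_lit 12))
    (@En.n l287 (nat_lit 5619) (nat_lit 1) (nat_lit 14))
    (@En.n l11 (nat_lit 3133) (nat_lit 2) (nat_lit 2))
    (@En.i (nat_lit 3132) (nat_lit 14) (nat_lit 7))
    (@En.n l4186 (nat_lit 993) (nat_lit 1) (nat_lit 14))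
    (@En.n l3 (nat_lit 3133) (nat_lit 5) (nat_lit 2))
    (@En.n l4185 (nat_lit 2907) (nat_lit 6) (nat_lit 5))
    (@En.n l199 (nat_lit 4627) (nat_lit 1) (nat_lit 14))
    (@En.n l5331 (nat_lit 2905) (nat_lit 11) (nat_lit 5))
    (@En.n l199 (nat_lit 8287) (nat_lit 9) (nat_lit 5))
    (@En.i (nat_lit 1217) (nat_lit 11) (nat_lit 9))
    (@En.n l4185 (nat_lit 12392) (nat_lit 12) (nat_lit 11))
    (@En.n l24244 (nat_lit 3139) (nat_lit 9) (nat_lit 4))
    (@En.n l61 (nat_lit 1898) (nat_lit 14) (nat_lit 11))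
    (@En.i (nat_lit 3138) (nat_lit 12) (nat_lit 11))
    (@En.n l7 (nat_lit 3133) (nat_lit 15) (nat_lit 2))))
  (@Cl.mk (nat_lit 0x2000800080007000d000a00090003000900080008000600090007000e0007) (nat_lit 0x40723001001030) (nat_lit 16) Lb.e (@T16.mk En
    (@En.n l3553 (nat_lit 3157) (nat_lit 7) (nat_lit 7))
    (@En.n l15752 (nat_lit 9865) (nat_lit 1) (nat_lit 14))
    (@En.n l11386 (nat_lit 2982) (nat_lit 2) (nat_lit 7))
    (@En.n l1723 (nat_lit 3096) (nat_lit 3) (nat_lit 9))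
    (@En.n l22978 (nat_lit 7529) (nat_lit 4) (nat_lit 6))
    (@En.n l575 (nat_lit 3138) (nat_lit 8) (nat_lit 8))
    (@En.i (nat_lit 1317) (nat_lit 6) (nat_lit 8))
    (@En.n l22979 (nat_lit 11288) (nat_lit 8) (nat_lit 9))
    (@En.n l2806 (nat_lit 3136) (nat_lit 8) (nat_lit 3))
    (@En.n l6444 (nat_lit 1633) (nat_lit 0) (nat_lit 9))
    (@En.n l5838 (nat_lit 3145) (nat_lit 11) (nat_lit 10))
    (@En.n l14094 (nat_lit 2990) (nat_lit 12) (nat_lit 13))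
    (@En.n l26270 (nat_lit 6524) (nat_lit 13) (nat_lit 7))
    (@En.n l38610 (nat_lit 4214) (nat_lit 8) (nat_lit 8))
    (@En.n l38611 (nat_lit 5078) (nat_lit 5) (nat_lit 8))
    (@En.n l3 (nat_lit 3134) (nat_lit 15) (nat_lit 2))))
  (@Cl.mk (nat_lit 0x200070007000d000c00080003000b0004000a0009000900050008000e0006) (nat_lit 0x5710500100120) (nat_lit 16) Lb.e (@T16.mk En
    (@En.n l38604 (nat_lit 3158) (nat_lit 6) (nat_lit 6))
    (@En.n l7510 (nat_lit 9112) (nat_lit 1) (nat_lit 14))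
    (@En.n l38605 (nat_lit 1170) (nat_lit 10) (nat_lit 8))
    (@En.n l38606 (nat_lit 4432) (nat_lit 3) (nat_lit 5))
    (@En.n l8807 (nat_lit 3139) (nat_lit 7) (nat_lit 9))
    (@En.i (nat_lit 3011) (nat_lit 5) (nat_lit 9))
    (@En.n l32585 (nat_lit 12215) (nat_lit 7) (nat_lit 10))
    (@En.n l7512 (nat_lit 2982) (nat_lit 7) (nat_lit 4))
    (@En.n l2085 (nat_lit 3136) (nat_lit 9) (nat_lit 11))
    (@En.n l3011 (nat_lit 3141) (nat_lit 9) (nat_lit 3))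
    (@En.n l2544 (nat_lit 1655) (nat_lit 11) (nat_lit 8))
    (@En.n l38607 (nat_lit 2989) (nat_lit 12) (nat_lit 12))
    (@En.n l2083 (nat_lit 6476) (nat_lit 13) (nat_lit 13))
    (@En.n l38608 (nat_lit 4216) (nat_lit 9) (nat_lit 7))
    (@En.n l38609 (nat_lit 5049) (nat_lit 4) (nat_lit 7))
    (@En.n l11 (nat_lit 3135) (nat_lit 15) (nat_lit 2))))
noncomputable def a196 : T16 Cl := @T16.mk Cl
  (@Cl.mk (nat_lit 0x2000800080007000d0008000b0003000900080008000500090008000e0007) (nat_lit 0x714001001230) (nat_lit 16) Lb.e (@T16.mk En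
    (@En.n l14325 (nat_lit 3152) (nat_lit 7) (nat_lit 7))
    (@En.n l23952 (nat_lit 11181) (nat_lit 1) (nat_lit 14))
    (@En.n l2500 (nat_lit 3135) (nat_lit 2) (nat_lit 8))
    (@En.n l10593 (nat_lit 3091) (nat_lit 3) (nat_lit 9))
    (@En.n l23953 (nat_lit 6352) (nat_lit 4) (nat_lit 5))
    (@En.n l61 (nat_lit 3137) (nat_lit 8) (nat_lit 8))
    (@En.n l1545 (nat_lit 1324) (nat_lit 6) (nat_lit 8))
    (@En.n l23954 (nat_lit 12217) (nat_lit 8) (nat_lit 9))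
    (@En.n l7527 (nat_lit 3134) (nat_lit 8) (nat_lit 3))
    (@En.n l23955 (nat_lit 5042) (nat_lit 0) (nat_lit 11))
    (@En.n l23956 (nat_lit 1657) (nat_lit 11) (nat_lit 8))
    (@En.n l7526 (nat_lit 3146) (nat_lit 12) (nat_lit 13))
    (@En.n l7529 (nat_lit 5434) (nat_lit 13) (nat_lit 7))
    (@En.n l23957 (nat_lit 4215) (nat_lit 8) (nat_lit 8))
    (@En.n l23958 (nat_lit 5044) (nat_lit 5) (nat_lit 8))
    (@En.n l50 (nat_lit 3136) (nat_lit 15) (nat_lit 2))))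
  (@Cl.mk (nat_lit 0x20008000d0009000c0003000a0008000400080007000e00060002000e0008) (nat_lit 0x15066000b0021) (nat_lit 16) Lb.e (@T16.mk En
    (@En.i (nat_lit 3136) (nat_lit 14) (nat_lit 8))
    (@En.n l7145 (nat_lit 914) (nat_lit 1) (nat_lit 14))
    (@En.n l50 (nat_lit 3137) (nat_lit 2) (nat_lit 2))
    (@En.n l7 (nat_lit 4469) (nat_lit 3) (nat_lit 6))
    (@En.n l1770 (nat_lit 11186) (nat_lit 5) (nat_lit 14))
    (@En.n l527 (nat_lit 3139) (nat_lit 5) (nat_lit 7))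
    (@En.n l2826 (nat_lit 3275) (nat_lit 6) (nat_lit 8))
    (@En.n l10582 (nat_lit 7925) (nat_lit 7) (nat_lit 4))
    (@En.i (nat_lit 3866) (nat_lit 5) (nat_lit 8))
    (@En.n l1867 (nat_lit 12222) (nat_lit 10) (nat_lit 10))
    (@En.n l7527 (nat_lit 3138) (nat_lit 10) (nat_lit 3))
    (@En.n l4029 (nat_lit 2117) (nat_lit 12) (nat_lit 12))
    (@En.n l10583 (nat_lit 2096) (nat_lit 13) (nat_lit 9))
    (@En.n l619 (nat_lit 3144) (nat_lit 14) (nat_lit 13))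
    (@En.n l10584 (nat_lit 10982) (nat_lit 12) (nat_lit 8))
    (@En.n l17 (nat_lit 3137) (nat_lit 15) (nat_lit 2))))
  (@Cl.mk (nat_lit 0x20008000d000b000a0003000a0008000500080006000e00060002000e0008) (nat_lit 0x6032076000c0021) (nat_lit 16) Lb.e (@T16.mk En
    (@En.i (nat_lit 3134) (nat_lit 14) (nat_lit 8))
    (@En.n l24030 (nat_lit 976) (nat_lit 1) (nat_lit 14))
    (@En.n l3 (nat_lit 3138) (nat_lit 2) (nat_lit 2))
    (@En.n l23039 (nat_lit 4466) (nat_lit 3) (nat_lit 6))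
    (@En.n l7205 (nat_lit 11184) (nat_lit 5) (nat_lit 14))
    (@En.n l11386 (nat_lit 2985) (nat_lit 5) (nat_lit 6))
    (@En.n l12579 (nat_lit 3287) (nat_lit 6) (nat_lit 8))
    (@En.n l10645 (nat_lit 8291) (nat_lit 7) (nat_lit 5))
    (@En.i (nat_lit 3865) (nat_lit 5) (nat_lit 8))
    (@En.n l4185 (nat_lit 11284) (nat_lit 10) (nat_lit 10))
    (@En.n l2806 (nat_lit 3137) (nat_lit 10) (nat_lit 3))
    (@En.n l6444 (nat_lit 1630) (nat_lit 0) (nat_lit 10))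
    (@En.n l5838 (nat_lit 3142) (nat_lit 13) (nat_lit 11))
    (@En.n l14094 (nat_lit 3143) (nat_lit 14) (nat_lit 13))
    (@En.n l287 (nat_lit 10979) (nat_lit 12) (nat_lit 8))
    (@En.n l11 (nat_lit 3138) (nat_lit 15) (nat_lit 2))))
  (@Cl.mk (nat_lit 0x2000d000c00090003000c0004000b000900040007000e00050002000e0007) (nat_lit 0x120607700b0020) (nat_lit 16) Lb.e (@T16.mk En
    (@En.n l2552 (nat_lit 3135) (nat_lit 14) (nat_lit 7))
    (@En.n l18520 (nat_lit 910) (nat_lit 1) (nat_lit 14))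
    (@En.n l50 (nat_lit 3139) (nat_lit 2) (nat_lit 2))
    (@En.n l7 (nat_lit 4470) (nat_lit 3) (nat_lit 5))
    (@En.n l7705 (nat_lit 8235) (nat_lit 1) (nat_lit 14))
    (@En.n l19029 (nat_lit 3750) (nat_lit 11) (nat_lit 7))
    (@En.n l8880 (nat_lit 7924) (nat_lit 6) (nat_lit 4))
    (@En.n l2552 (nat_lit 3869) (nat_lit 4) (nat_lit 9))
    (@En.n l1865 (nat_lit 11624) (nat_lit 9) (nat_lit 11))
    (@En.n l24014 (nat_lit 2985) (nat_lit 9) (nat_lit 4))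
    (@En.n l117 (nat_lit 3137) (nat_lit 11) (nat_lit 12))
    (@En.n l107 (nat_lit 3140) (nat_lit 11) (nat_lit 3))
    (@En.n l21240 (nat_lit 2097) (nat_lit 0) (nat_lit 9))
    (@En.n l575 (nat_lit 2991) (nat_lit 14) (nat_lit 12))
    (@En.i (nat_lit 9774) (nat_lit 12) (nat_lit 13))
    (@En.n l17 (nat_lit 3139) (nat_lit 15) (nat_lit 2))))
  (@Cl.mk (nat_lit 0x2000d0008000d0003000c0003000b000900040008000e00050002000e0007) (nat_lit 0x100608001b0020) (nat_lit 16) Lb.e (@T16.mk En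
    (@En.i (nat_lit 3141) (nat_lit 14) (nat_lit 7))
    (@En.n l7145 (nat_lit 912) (nat_lit 1) (nat_lit 14))
    (@En.n l50 (nat_lit 3140) (nat_lit 2) (nat_lit 2))
    (@En.n l7 (nat_lit 4472) (nat_lit 3) (nat_lit 5))
    (@En.n l476 (nat_lit 8234) (nat_lit 1) (nat_lit 14))
    (@En.i (nat_lit 1168) (nat_lit 5) (nat_lit 8))
    (@En.n l6559 (nat_lit 7923) (nat_lit 6) (nat_lit 4))
    (@En.i (nat_lit 3870) (nat_lit 4) (nat_lit 9))
    (@En.i (nat_lit 11625) (nat_lit 9) (nat_lit 11))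
    (@En.i (nat_lit 2991) (nat_lit 9) (nat_lit 3))
    (@En.i (nat_lit 4895) (nat_lit 11) (nat_lit 12))
    (@En.i (nat_lit 3139) (nat_lit 11) (nat_lit 3))
    (@En.n l619 (nat_lit 3941) (nat_lit 0) (nat_lit 13))
    (@En.i (nat_lit 3137) (nat_lit 14) (nat_lit 8))
    (@En.i (nat_lit 11168) (nat_lit 12) (nat_lit 13))
    (@En.n l17 (nat_lit 3140) (nat_lit 15) (nat_lit 2))))
  (@Cl.mk (nat_lit 0x200070007000d0007000d0003000b0003000a0009000900050009000e0006) (nat_lit 0x6010900110120) (nat_lit 16) Lb.e (@T16.mk En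
    (@En.n l14325 (nat_lit 3154) (nat_lit 6) (nat_lit 6))
    (@En.n l37775 (nat_lit 9111) (nat_lit 1) (nat_lit 14))
    (@En.n l19028 (nat_lit 1163) (nat_lit 2) (nat_lit 9))
    (@En.n l15923 (nat_lit 4430) (nat_lit 3) (nat_lit 5))
    (@En.n l61 (nat_lit 3140) (nat_lit 7) (nat_lit 9))
    (@En.n l1545 (nat_lit 3015) (nat_lit 5) (nat_lit 9))
    (@En.n l32572 (nat_lit 12213) (nat_lit 7) (nat_lit 10))
    (@En.i (nat_lit 2989) (nat_lit 7) (nat_lit 3))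
    (@En.n l3200 (nat_lit 4908) (nat_lit 9) (nat_lit 11))
    (@En.n l2552 (nat_lit 3135) (nat_lit 9) (nat_lit 3))
    (@En.n l619 (nat_lit 2072) (nat_lit 11) (nat_lit 13))
    (@En.i (nat_lit 3136) (nat_lit 12) (nat_lit 7))
    (@En.n l21256 (nat_lit 5175) (nat_lit 13) (nat_lit 13))
    (@En.n l23957 (nat_lit 4218) (nat_lit 9) (nat_lit 7))
    (@En.n l23958 (nat_lit 5047) (nat_lit 6) (nat_lit 7))
    (@En.n l50 (nat_lit 3141) (nat_lit 15) (nat_lit 2))))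
  (@Cl.mk (nat_lit 0x20008000b0009000c000900070005000400080007000e00070002000e0009) (nat_lit 0x218600010c0010) (nat_lit 16) Lb.e (@T16.mk En
    (@En.i (nat_lit 3145) (nat_lit 14) (nat_lit 9))
    (@En.n l16090 (nat_lit 985) (nat_lit 1) (nat_lit 14))
    (@En.n l3 (nat_lit 3142) (nat_lit 2) (nat_lit 2))
    (@En.n l10005 (nat_lit 4467) (nat_lit 3) (nat_lit 7))
    (@En.n l996 (nat_lit 11183) (nat_lit 5) (nat_lit 14))
    (@En.n l16091 (nat_lit 3143) (nat_lit 5) (nat_lit 7))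
    (@En.n l6204 (nat_lit 3138) (nat_lit 6) (nat_lit 8))
    (@En.n l16092 (nat_lit 3137) (nat_lit 7) (nat_lit 4))
    (@En.n l13767 (nat_lit 8295) (nat_lit 8) (nat_lit 5))
    (@En.i (nat_lit 3864) (nat_lit 6) (nat_lit 7))
    (@En.n l16093 (nat_lit 11287) (nat_lit 11) (nat_lit 9))
    (@En.i (nat_lit 4906) (nat_lit 12) (nat_lit 12))
    (@En.n l396 (nat_lit 1631) (nat_lit 13) (nat_lit 9))
    (@En.i (nat_lit 1972) (nat_lit 7) (nat_lit 11))
    (@En.n l287 (nat_lit 11607) (nat_lit 12) (nat_lit 8))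
    (@En.n l11 (nat_lit 3142) (nat_lit 15) (nat_lit 2))))
  (@Cl.mk (nat_lit 0x2000d000a00090003000c000a0008000600040007000e00060002000e0008) (nat_lit 0xb220976000c0011) (nat_lit 16) Lb.e (@T16.mk En
    (@En.i (nat_lit 2990) (nat_lit 14) (nat_lit 8))
    (@En.n l4219 (nat_lit 989) (nat_lit 1) (nat_lit 14))
    (@En.n l11 (nat_lit 3143) (nat_lit 2) (nat_lit 2))
    (@En.n l117 (nat_lit 4468) (nat_lit 3) (nat_lit 6))
    (@En.n l322 (nat_lit 6283) (nat_lit 1) (nat_lit 14))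
    (@En.n l2211 (nat_lit 2980) (nat_lit 11) (nat_lit 7))
    (@En.n l30997 (nat_lit 3139) (nat_lit 6) (nat_lit 4))
    (@En.n l6384 (nat_lit 8293) (nat_lit 7) (nat_lit 6))
    (@En.n l2727 (nat_lit 3867) (nat_lit 5) (nat_lit 8))
    (@En.n l19165 (nat_lit 11308) (nat_lit 10) (nat_lit 10))
    (@En.n l30998 (nat_lit 3142) (nat_lit 11) (nat_lit 12))
    (@En.n l13538 (nat_lit 3144) (nat_lit 11) (nat_lit 3))
    (@En.n l837 (nat_lit 1635) (nat_lit 0) (nat_lit 9))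
    (@En.n l6384 (nat_lit 1970) (nat_lit 14) (nat_lit 10))
    (@En.n l14381 (nat_lit 11551) (nat_lit 12) (nat_lit 13))
    (@En.n l7 (nat_lit 3143) (nat_lit 15) (nat_lit 2))))
  (@Cl.mk (nat_lit 0x2000d0008000b0003000c000a0008000500040008000e00060002000e0008) (nat_lit 0xb110870006c0020) (nat_lit 16) Lb.e (@T16.mk En
    (@En.n l24038 (nat_lit 3146) (nat_lit 14) (nat_lit 8))
    (@En.n l24039 (nat_lit 918) (nat_lit 1) (nat_lit 14))
    (@En.n l50 (nat_lit 3144) (nat_lit 2) (nat_lit 2))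
    (@En.n l7 (nat_lit 3147) (nat_lit 3) (nat_lit 6))
    (@En.n l476 (nat_lit 6284) (nat_lit 1) (nat_lit 14))
    (@En.n l1157 (nat_lit 2991) (nat_lit 5) (nat_lit 8))
    (@En.i (nat_lit 3140) (nat_lit 6) (nat_lit 4))
    (@En.n l24040 (nat_lit 7921) (nat_lit 7) (nat_lit 5))
    (@En.n l24038 (nat_lit 3868) (nat_lit 5) (nat_lit 8))
    (@En.n l55 (nat_lit 11249) (nat_lit 10) (nat_lit 10))
    (@En.n l11 (nat_lit 4903) (nat_lit 11) (nat_lit 12))
    (@En.n l24041 (nat_lit 3143) (nat_lit 11) (nat_lit 3))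
    (@En.n l24040 (nat_lit 1612) (nat_lit 0) (nat_lit 11))
    (@En.n l4320 (nat_lit 3142) (nat_lit 14) (nat_lit 8))
    (@En.n l17042 (nat_lit 10966) (nat_lit 12) (nat_lit 13))
    (@En.n l17 (nat_lit 3144) (nat_lit 15) (nat_lit 2))))
  (@Cl.mk (nat_lit 0x2000900090007000a0008000b0008000700070006000500090008000e0008) (nat_lit 0x740127400002646) (nat_lit 16) Lb.e (@T16.mk En
    (@En.n l30331 (nat_lit 3153) (nat_lit 3) (nat_lit 8))
    (@En.i (nat_lit 11182) (nat_lit 1) (nat_lit 14))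
    (@En.n l16091 (nat_lit 2990) (nat_lit 2) (nat_lit 8))
    (@En.n l6204 (nat_lit 3134) (nat_lit 3) (nat_lit 9))
    (@En.n l16092 (nat_lit 3136) (nat_lit 4) (nat_lit 5))
    (@En.n l237 (nat_lit 7528) (nat_lit 5) (nat_lit 6))
    (@En.n l575 (nat_lit 3142) (nat_lit 9) (nat_lit 7))
    (@En.i (nat_lit 1321) (nat_lit 7) (nat_lit 7))
    (@En.n l20141 (nat_lit 11290) (nat_lit 9) (nat_lit 8))
    (@En.i (nat_lit 4901) (nat_lit 10) (nat_lit 11))
    (@En.n l2724 (nat_lit 1188) (nat_lit 11) (nat_lit 8))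
    (@En.i (nat_lit 1813) (nat_lit 8) (nat_lit 10))
    (@En.n l27108 (nat_lit 6525) (nat_lit 13) (nat_lit 7))
    (@En.n l30332 (nat_lit 4213) (nat_lit 7) (nat_lit 9))
    (@En.n l107 (nat_lit 5081) (nat_lit 1) (nat_lit 9))
    (@En.n l3 (nat_lit 3145) (nat_lit 15) (nat_lit 2))))
  (@Cl.mk (nat_lit 0x200080008000d0007000a0003000b000900080008000600050009000e0007) (nat_lit 0x616020876100230) (nat_lit 16) Lb.e (@T16.mk En
    (@En.n l20891 (nat_lit 2123) (nat_lit 6) (nat_lit 7))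
    (@En.n l9079 (nat_lit 6380) (nat_lit 1) (nat_lit 14))
    (@En.n l39161 (nat_lit 2989) (nat_lit 2) (nat_lit 9))
    (@En.n l13381 (nat_lit 3141) (nat_lit 3) (nat_lit 5))
    (@En.i (nat_lit 6341) (nat_lit 4) (nat_lit 6))
    (@En.n l39162 (nat_lit 3144) (nat_lit 8) (nat_lit 8))
    (@En.i (nat_lit 4490) (nat_lit 6) (nat_lit 8))
    (@En.n l13380 (nat_lit 11244) (nat_lit 14) (nat_lit 9))
    (@En.n l11391 (nat_lit 4783) (nat_lit 9) (nat_lit 11))
    (@En.n l3917 (nat_lit 2990) (nat_lit 9) (nat_lit 3))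
    (@En.i (nat_lit 2112) (nat_lit 11) (nat_lit 10))
    (@En.n l7987 (nat_lit 3145) (nat_lit 12) (nat_lit 7))
    (@En.n l9079 (nat_lit 5171) (nat_lit 13) (nat_lit 13))
    (@En.n l39163 (nat_lit 2121) (nat_lit 8) (nat_lit 8))
    (@En.n l39164 (nat_lit 5084) (nat_lit 4) (nat_lit 8))
    (@En.n l3 (nat_lit 3146) (nat_lit 15) (nat_lit 2))))
  (@Cl.mk (nat_lit 0x2000d0007000a0003000b000a000a000900060005000900060006000e0007) (nat_lit 0x6098870070080) (nat_lit 16) Lb.e (@T16.mk En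
    (@En.n l681 (nat_lit 2123) (nat_lit 4) (nat_lit 7))
    (@En.n l3786 (nat_lit 3188) (nat_lit 1) (nat_lit 14))
    (@En.n l3787 (nat_lit 2120) (nat_lit 10) (nat_lit 6))
    (@En.i (nat_lit 6038) (nat_lit 3) (nat_lit 6))
    (@En.n l21636 (nat_lit 4471) (nat_lit 4) (nat_lit 9))
    (@En.i (nat_lit 4472) (nat_lit 5) (nat_lit 5))
    (@En.n l6975 (nat_lit 7481) (nat_lit 6) (nat_lit 6))
    (@En.n l2337 (nat_lit 3042) (nat_lit 7) (nat_lit 9))
    (@En.n l601 (nat_lit 3144) (nat_lit 9) (nat_lit 10))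
    (@En.n l143 (nat_lit 7433) (nat_lit 10) (nat_lit 10))
    (@En.n l11 (nat_lit 4892) (nat_lit 11) (nat_lit 11))
    (@En.n l146 (nat_lit 4468) (nat_lit 11) (nat_lit 3))
    (@En.n l8303 (nat_lit 2110) (nat_lit 8) (nat_lit 10))
    (@En.i (nat_lit 4467) (nat_lit 14) (nat_lit 7))
    (@En.i (nat_lit 10962) (nat_lit 2) (nat_lit 13))
    (@En.n l17 (nat_lit 3147) (nat_lit 15) (nat_lit 2))))
  (@Cl.mk (nat_lit 0x3000a000a000a000a0007000a0006000600060006000c0006000d00090004) (nat_lit 0x212207000040160) (nat_lit 16) Lb.e (@T16.mk En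
    (@En.n l35176 (nat_lit 2978) (nat_lit 0) (nat_lit 4))
    (@En.n l15557 (nat_lit 2123) (nat_lit 0) (nat_lit 9))
    (@En.n l13902 (nat_lit 1954) (nat_lit 1) (nat_lit 13))
    (@En.n l21964 (nat_lit 3157) (nat_lit 3) (nat_lit 6))
    (@En.n l5332 (nat_lit 5170) (nat_lit 5) (nat_lit 12))
    (@En.n l35177 (nat_lit 3957) (nat_lit 10) (nat_lit 6))
    (@En.n l21965 (nat_lit 4355) (nat_lit 10) (nat_lit 6))
    (@En.n l35178 (nat_lit 4566) (nat_lit 10) (nat_lit 6))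
    (@En.n l35179 (nat_lit 6197) (nat_lit 8) (nat_lit 6))
    (@En.i (nat_lit 3706) (nat_lit 8) (nat_lit 10))
    (@En.n l13902 (nat_lit 5883) (nat_lit 11) (nat_lit 7))
    (@En.n l35180 (nat_lit 4471) (nat_lit 6) (nat_lit 10))
    (@En.n l17078 (nat_lit 3165) (nat_lit 6) (nat_lit 10))
    (@En.n l8260 (nat_lit 2989) (nat_lit 6) (nat_lit 10))
    (@En.n l27248 (nat_lit 6527) (nat_lit 14) (nat_lit 10))
    (@En.n l72 (nat_lit 3154) (nat_lit 13) (nat_lit 3))))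
  (@Cl.mk (nat_lit 0x3000a00090009000900090008000600090007000700070007000d00080007) (nat_lit 0x701225060000440) (nat_lit 16) Lb.e (@T16.mk En
    (@En.n l18608 (nat_lit 1519) (nat_lit 0) (nat_lit 7))
    (@En.i (nat_lit 1660) (nat_lit 0) (nat_lit 8))
    (@En.n l396 (nat_lit 5301) (nat_lit 2) (nat_lit 13))
    (@En.n l24496 (nat_lit 4210) (nat_lit 9) (nat_lit 7))
    (@En.n l218 (nat_lit 4360) (nat_lit 9) (nat_lit 7))
    (@En.n l394 (nat_lit 4567) (nat_lit 9) (nat_lit 7))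
    (@En.n l9966 (nat_lit 6039) (nat_lit 6) (nat_lit 7))
    (@En.i (nat_lit 2978) (nat_lit 9) (nat_lit 9))
    (@En.n l23002 (nat_lit 3158) (nat_lit 8) (nat_lit 6))
    (@En.n l644 (nat_lit 7499) (nat_lit 8) (nat_lit 8))
    (@En.n l77 (nat_lit 4468) (nat_lit 7) (nat_lit 9))
    (@En.n l55 (nat_lit 3162) (nat_lit 7) (nat_lit 9))
    (@En.n l619 (nat_lit 2990) (nat_lit 7) (nat_lit 9))
    (@En.n l34597 (nat_lit 5441) (nat_lit 7) (nat_lit 9))
    (@En.i (nat_lit 3153) (nat_lit 12) (nat_lit 10))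
    (@En.i (nat_lit 2123) (nat_lit 15) (nat_lit 3))))
  (@Cl.mk (nat_lit 0x200080007000b000800080007000d000500080003000900080008000e0009) (nat_lit 0x6066106040761a1) (nat_lit 16) Lb.e (@T16.mk En
    (@En.n l18567 (nat_lit 2123) (nat_lit 11) (nat_lit 9))
    (@En.n l30547 (nat_lit 2847) (nat_lit 1) (nat_lit 14))
    (@En.n l30548 (nat_lit 2121) (nat_lit 2) (nat_lit 8))
    (@En.n l16485 (nat_lit 6534) (nat_lit 3) (nat_lit 8))
    (@En.n l30549 (nat_lit 4892) (nat_lit 4) (nat_lit 9))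
    (@En.n l11 (nat_lit 4210) (nat_lit 5) (nat_lit 3))
    (@En.n l30550 (nat_lit 2111) (nat_lit 0) (nat_lit 8))
    (@En.n l30551 (nat_lit 4211) (nat_lit 7) (nat_lit 5))
    (@En.n l30552 (nat_lit 11545) (nat_lit 9) (nat_lit 13))
    (@En.n l30553 (nat_lit 4193) (nat_lit 9) (nat_lit 7))
    (@En.n l30554 (nat_lit 2122) (nat_lit 11) (nat_lit 8))
    (@En.n l30555 (nat_lit 6196) (nat_lit 12) (nat_lit 8))
    (@En.n l11 (nat_lit 3957) (nat_lit 13) (nat_lit 11))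
    (@En.n l30555 (nat_lit 3956) (nat_lit 14) (nat_lit 7))
    (@En.n l22836 (nat_lit 9453) (nat_lit 9) (nat_lit 8))
    (@En.n l17 (nat_lit 3150) (nat_lit 15) (nat_lit 2))))
  (@Cl.mk (nat_lit 0x2000a000a00080007000b000700060006000d0005000800030009000e0009) (nat_lit 0x816060004020401) (nat_lit 16) Lb.e (@T16.mk En
    (@En.n l30321 (nat_lit 2123) (nat_lit 13) (nat_lit 9))
    (@En.n l18475 (nat_lit 7942) (nat_lit 1) (nat_lit 14))
    (@En.n l14056 (nat_lit 4783) (nat_lit 2) (nat_lit 9))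
    (@En.n l30322 (nat_lit 4567) (nat_lit 3) (nat_lit 3))
    (@En.n l30323 (nat_lit 2111) (nat_lit 10) (nat_lit 8))
    (@En.n l30324 (nat_lit 4568) (nat_lit 5) (nat_lit 5))
    (@En.n l1776 (nat_lit 6582) (nat_lit 7) (nat_lit 13))
    (@En.n l575 (nat_lit 2122) (nat_lit 10) (nat_lit 6))
    (@En.i (nat_lit 4585) (nat_lit 8) (nat_lit 6))
    (@En.n l30325 (nat_lit 10072) (nat_lit 5) (nat_lit 7))
    (@En.n l2196 (nat_lit 4566) (nat_lit 11) (nat_lit 11))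
    (@En.i (nat_lit 4564) (nat_lit 12) (nat_lit 7))
    (@En.n l4861 (nat_lit 6365) (nat_lit 13) (nat_lit 8))
    (@En.n l10011 (nat_lit 2120) (nat_lit 14) (nat_lit 10))
    (@En.n l30326 (nat_lit 3304) (nat_lit 11) (nat_lit 10))
    (@En.n l3 (nat_lit 3151) (nat_lit 15) (nat_lit 2))))
noncomputable def a197 : T16 Cl := @T16.mk Cl
  (@Cl.mk (nat_lit 0x300090009000900090006000a000900070007000700070006000d0007000a) (nat_lit 0x12008700000601) (nat_lit 16) Lb.e (@T16.mk En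
    (@En.n l6042 (nat_lit 19) (nat_lit 0) (nat_lit 10))
    (@En.n l38626 (nat_lit 1660) (nat_lit 6) (nat_lit 7))
    (@En.n l14009 (nat_lit 2123) (nat_lit 2) (nat_lit 13))
    (@En.n l38627 (nat_lit 5437) (nat_lit 3) (nat_lit 6))
    (@En.n l38628 (nat_lit 3954) (nat_lit 9) (nat_lit 7))
    (@En.n l38629 (nat_lit 4358) (nat_lit 9) (nat_lit 7))
    (@En.n l35178 (nat_lit 3355) (nat_lit 9) (nat_lit 7))
    (@En.n l26559 (nat_lit 5855) (nat_lit 7) (nat_lit 7))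
    (@En.n l38630 (nat_lit 3158) (nat_lit 7) (nat_lit 9))
    (@En.i (nat_lit 1954) (nat_lit 9) (nat_lit 10))
    (@En.n l26560 (nat_lit 6353) (nat_lit 11) (nat_lit 6))
    (@En.n l30562 (nat_lit 4469) (nat_lit 7) (nat_lit 9))
    (@En.n l17078 (nat_lit 3163) (nat_lit 7) (nat_lit 9))
    (@En.n l8260 (nat_lit 3136) (nat_lit 7) (nat_lit 9))
    (@En.n l27594 (nat_lit 3159) (nat_lit 12) (nat_lit 9))
    (@En.n l21964 (nat_lit 3157) (nat_lit 15) (nat_lit 3))))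
  (@Cl.mk (nat_lit 0x600090007000a000800080008000800070006000a00090008000800080008) (nat_lit 0x406052200375502) (nat_lit 16) Lb.e (@T16.mk En
    (@En.n l30020 (nat_lit 4211) (nat_lit 8) (nat_lit 8))
    (@En.n l38621 (nat_lit 4361) (nat_lit 8) (nat_lit 8))
    (@En.n l394 (nat_lit 4568) (nat_lit 8) (nat_lit 8))
    (@En.n l19347 (nat_lit 2597) (nat_lit 8) (nat_lit 8))
    (@En.n l17 (nat_lit 3149) (nat_lit 7) (nat_lit 9))
    (@En.n l31521 (nat_lit 3157) (nat_lit 9) (nat_lit 10))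
    (@En.n l38635 (nat_lit 3152) (nat_lit 10) (nat_lit 6))
    (@En.n l644 (nat_lit 7521) (nat_lit 9) (nat_lit 7))
    (@En.n l38636 (nat_lit 4467) (nat_lit 8) (nat_lit 8))
    (@En.n l38637 (nat_lit 3161) (nat_lit 8) (nat_lit 8))
    (@En.n l38638 (nat_lit 3145) (nat_lit 8) (nat_lit 8))
    (@En.n l38639 (nat_lit 5160) (nat_lit 8) (nat_lit 8))
    (@En.n l26766 (nat_lit 3169) (nat_lit 8) (nat_lit 10))
    (@En.n l30012 (nat_lit 1550) (nat_lit 9) (nat_lit 7))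
    (@En.n l26766 (nat_lit 1659) (nat_lit 9) (nat_lit 9))
    (@En.n l38640 (nat_lit 6527) (nat_lit 10) (nat_lit 6))))
  (@Cl.mk (nat_lit 0x3000a0003000a000a000a000a0006000a0006000600060006000d0006000d) (nat_lit 0x202127070000a07) (nat_lit 16) Lb.e (@T16.mk En
    (@En.n l38631 (nat_lit 3090) (nat_lit 0) (nat_lit 13))
    (@En.i (nat_lit 3152) (nat_lit 3) (nat_lit 6))
    (@En.n l38632 (nat_lit 5174) (nat_lit 2) (nat_lit 13))
    (@En.n l38633 (nat_lit 3956) (nat_lit 10) (nat_lit 6))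
    (@En.n l38634 (nat_lit 4356) (nat_lit 10) (nat_lit 6))
    (@En.n l35178 (nat_lit 4564) (nat_lit 10) (nat_lit 6))
    (@En.n l1392 (nat_lit 6669) (nat_lit 6) (nat_lit 6))
    (@En.i (nat_lit 1166) (nat_lit 9) (nat_lit 10))
    (@En.n l6443 (nat_lit 6355) (nat_lit 8) (nat_lit 6))
    (@En.n l30562 (nat_lit 4472) (nat_lit 6) (nat_lit 10))
    (@En.n l17078 (nat_lit 3166) (nat_lit 6) (nat_lit 10))
    (@En.n l8260 (nat_lit 3141) (nat_lit 6) (nat_lit 10))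
    (@En.i (nat_lit 5301) (nat_lit 13) (nat_lit 10))
    (@En.i (nat_lit 3148) (nat_lit 15) (nat_lit 3))
    (@En.n l6042 (nat_lit 3169) (nat_lit 0) (nat_lit 10))
    (@En.n l2807 (nat_lit 3158) (nat_lit 15) (nat_lit 3))))
  (@Cl.mk (nat_lit 0x20008000d0007000a0003000b000a000900080006000500090006000e0007) (nat_lit 0x2506040700020c0) (nat_lit 16) Lb.e (@T16.mk En
    (@En.n l26818 (nat_lit 2123) (nat_lit 5) (nat_lit 7))
    (@En.n l134 (nat_lit 3303) (nat_lit 1) (nat_lit 14))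
    (@En.i (nat_lit 6670) (nat_lit 2) (nat_lit 6))
    (@En.n l26819 (nat_lit 3165) (nat_lit 3) (nat_lit 9))
    (@En.n l14250 (nat_lit 3166) (nat_lit 4) (nat_lit 5))
    (@En.n l26820 (nat_lit 5886) (nat_lit 5) (nat_lit 6))
    (@En.n l6787 (nat_lit 4196) (nat_lit 6) (nat_lit 8))
    (@En.n l17005 (nat_lit 3019) (nat_lit 7) (nat_lit 9))
    (@En.n l26821 (nat_lit 6533) (nat_lit 9) (nat_lit 10))
    (@En.n l14253 (nat_lit 3167) (nat_lit 10) (nat_lit 11))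
    (@En.n l19624 (nat_lit 3162) (nat_lit 10) (nat_lit 3))
    (@En.n l6788 (nat_lit 1910) (nat_lit 8) (nat_lit 10))
    (@En.n l26822 (nat_lit 3161) (nat_lit 13) (nat_lit 7))
    (@En.i (nat_lit 6544) (nat_lit 14) (nat_lit 13))
    (@En.i (nat_lit 2848) (nat_lit 3) (nat_lit 8))
    (@En.n l7 (nat_lit 3155) (nat_lit 15) (nat_lit 2))))
  (@Cl.mk (nat_lit 0x2000a00080007000b000800070006000d00050008000300090008000e0009) (nat_lit 0x1502000305040c1) (nat_lit 16) Lb.e (@T16.mk En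
    (@En.n l26572 (nat_lit 2123) (nat_lit 12) (nat_lit 9))
    (@En.n l26573 (nat_lit 5088) (nat_lit 1) (nat_lit 14))
    (@En.n l26574 (nat_lit 6524) (nat_lit 2) (nat_lit 8))
    (@En.n l26575 (nat_lit 3167) (nat_lit 3) (nat_lit 9))
    (@En.n l26576 (nat_lit 4360) (nat_lit 4) (nat_lit 3))
    (@En.n l26574 (nat_lit 1863) (nat_lit 0) (nat_lit 8))
    (@En.n l1895 (nat_lit 4361) (nat_lit 6) (nat_lit 5))
    (@En.n l11028 (nat_lit 5290) (nat_lit 8) (nat_lit 13))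
    (@En.n l22315 (nat_lit 4195) (nat_lit 8) (nat_lit 6))
    (@En.n l26577 (nat_lit 3662) (nat_lit 9) (nat_lit 7))
    (@En.n l26578 (nat_lit 7161) (nat_lit 11) (nat_lit 8))
    (@En.n l26579 (nat_lit 4355) (nat_lit 12) (nat_lit 11))
    (@En.i (nat_lit 4356) (nat_lit 13) (nat_lit 7))
    (@En.n l4592 (nat_lit 6575) (nat_lit 14) (nat_lit 8))
    (@En.n l26580 (nat_lit 1994) (nat_lit 10) (nat_lit 10))
    (@En.n l17 (nat_lit 3156) (nat_lit 15) (nat_lit 2))))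
  (@Cl.mk (nat_lit 0x300090009000900090007000a000800070007000700070006000d00090008) (nat_lit 0x412202600000553) (nat_lit 16) Lb.e (@T16.mk En
    (@En.n l22997 (nat_lit 1690) (nat_lit 0) (nat_lit 8))
    (@En.n l22998 (nat_lit 3153) (nat_lit 14) (nat_lit 9))
    (@En.n l9996 (nat_lit 3149) (nat_lit 2) (nat_lit 13))
    (@En.n l15740 (nat_lit 6526) (nat_lit 3) (nat_lit 6))
    (@En.n l2172 (nat_lit 3953) (nat_lit 9) (nat_lit 7))
    (@En.n l77 (nat_lit 4359) (nat_lit 9) (nat_lit 7))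
    (@En.n l55 (nat_lit 3354) (nat_lit 9) (nat_lit 7))
    (@En.i (nat_lit 2598) (nat_lit 7) (nat_lit 7))
    (@En.n l22999 (nat_lit 2918) (nat_lit 8) (nat_lit 8))
    (@En.i (nat_lit 3090) (nat_lit 8) (nat_lit 10))
    (@En.n l742 (nat_lit 7522) (nat_lit 9) (nat_lit 7))
    (@En.n l396 (nat_lit 4466) (nat_lit 7) (nat_lit 9))
    (@En.n l6367 (nat_lit 3160) (nat_lit 7) (nat_lit 9))
    (@En.n l7925 (nat_lit 3134) (nat_lit 7) (nat_lit 9))
    (@En.n l23000 (nat_lit 5159) (nat_lit 12) (nat_lit 9))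
    (@En.n l12816 (nat_lit 3152) (nat_lit 15) (nat_lit 3))))
  (@Cl.mk (nat_lit 0x3000a0004000a000a000a000a000600090006000600060006000d000c0007) (nat_lit 0x200127060000450) (nat_lit 16) Lb.e (@T16.mk En
    (@En.n l22985 (nat_lit 1659) (nat_lit 0) (nat_lit 7))
    (@En.n l22986 (nat_lit 3148) (nat_lit 4) (nat_lit 12))
    (@En.n l22987 (nat_lit 6474) (nat_lit 2) (nat_lit 13))
    (@En.n l22988 (nat_lit 3955) (nat_lit 10) (nat_lit 6))
    (@En.n l22989 (nat_lit 4357) (nat_lit 10) (nat_lit 6))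
    (@En.n l22990 (nat_lit 4565) (nat_lit 10) (nat_lit 6))
    (@En.n l22991 (nat_lit 2317) (nat_lit 6) (nat_lit 6))
    (@En.n l22992 (nat_lit 2974) (nat_lit 9) (nat_lit 9))
    (@En.n l11091 (nat_lit 6354) (nat_lit 8) (nat_lit 6))
    (@En.n l7422 (nat_lit 4470) (nat_lit 6) (nat_lit 10))
    (@En.n l22993 (nat_lit 3164) (nat_lit 6) (nat_lit 10))
    (@En.n l22994 (nat_lit 3135) (nat_lit 6) (nat_lit 10))
    (@En.n l11095 (nat_lit 5172) (nat_lit 13) (nat_lit 10))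
    (@En.n l22995 (nat_lit 2918) (nat_lit 14) (nat_lit 4))
    (@En.n l4476 (nat_lit 3152) (nat_lit 0) (nat_lit 10))
    (@En.n l22996 (nat_lit 3154) (nat_lit 15) (nat_lit 3))))
  (@Cl.mk (nat_lit 0x50008000b00090008000800080005000900080007000b0008000800080007) (nat_lit 0x147000016000000) (nat_lit 16) Lb.e (@T16.mk En
    (@En.n l38717 (nat_lit 10518) (nat_lit 9) (nat_lit 7))
    (@En.n l12248 (nat_lit 5291) (nat_lit 8) (nat_lit 8))
    (@En.n l42329 (nat_lit 6584) (nat_lit 8) (nat_lit 8))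
    (@En.i (nat_lit 8185) (nat_lit 8) (nat_lit 8))
    (@En.n l38616 (nat_lit 5167) (nat_lit 8) (nat_lit 11))
    (@En.n l38616 (nat_lit 5168) (nat_lit 9) (nat_lit 7))
    (@En.n l17 (nat_lit 5172) (nat_lit 8) (nat_lit 8))
    (@En.n l26818 (nat_lit 2123) (nat_lit 10) (nat_lit 9))
    (@En.n l4966 (nat_lit 9851) (nat_lit 8) (nat_lit 5))
    (@En.n l77 (nat_lit 6545) (nat_lit 8) (nat_lit 8))
    (@En.n l26178 (nat_lit 5165) (nat_lit 8) (nat_lit 8))
    (@En.n l42330 (nat_lit 12218) (nat_lit 8) (nat_lit 8))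
    (@En.n l36277 (nat_lit 6438) (nat_lit 7) (nat_lit 9))
    (@En.n l42330 (nat_lit 5783) (nat_lit 7) (nat_lit 11))
    (@En.n l19124 (nat_lit 1869) (nat_lit 10) (nat_lit 8))
    (@En.n l11294 (nat_lit 6532) (nat_lit 11) (nat_lit 5))))
  (@Cl.mk (nat_lit 0x200080007000d000a00090003000a000900080006000900070006000e0007) (nat_lit 0x2066300120400c0) (nat_lit 16) Lb.e (@T16.mk En
    (@En.n l6979 (nat_lit 3157) (nat_lit 6) (nat_lit 7))
    (@En.n l24230 (nat_lit 3343) (nat_lit 1) (nat_lit 14))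
    (@En.i (nat_lit 2595) (nat_lit 2) (nat_lit 6))
    (@En.n l24231 (nat_lit 2925) (nat_lit 3) (nat_lit 7))
    (@En.i (nat_lit 2072) (nat_lit 4) (nat_lit 9))
    (@En.n l61 (nat_lit 6388) (nat_lit 5) (nat_lit 6))
    (@En.n l12949 (nat_lit 1600) (nat_lit 6) (nat_lit 8))
    (@En.n l4543 (nat_lit 1315) (nat_lit 7) (nat_lit 9))
    (@En.n l24232 (nat_lit 5150) (nat_lit 9) (nat_lit 10))
    (@En.n l24233 (nat_lit 3163) (nat_lit 9) (nat_lit 3))
    (@En.n l24234 (nat_lit 1574) (nat_lit 0) (nat_lit 9))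
    (@En.n l24235 (nat_lit 3161) (nat_lit 12) (nat_lit 10))
    (@En.n l9775 (nat_lit 3162) (nat_lit 13) (nat_lit 13))
    (@En.n l24236 (nat_lit 6534) (nat_lit 14) (nat_lit 7))
    (@En.n l7795 (nat_lit 2844) (nat_lit 4) (nat_lit 8))
    (@En.n l50 (nat_lit 3160) (nat_lit 15) (nat_lit 2))))
  (@Cl.mk (nat_lit 0x200090007000a0008000b00090008000700060005000900080007000e0008) (nat_lit 0x2052301000560c6) (nat_lit 16) Lb.e (@T16.mk En
    (@En.n l26683 (nat_lit 3153) (nat_lit 2) (nat_lit 8))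
    (@En.n l3638 (nat_lit 3300) (nat_lit 1) (nat_lit 14))
    (@En.n l7804 (nat_lit 2593) (nat_lit 2) (nat_lit 7))
    (@En.n l26684 (nat_lit 3162) (nat_lit 3) (nat_lit 8))
    (@En.n l26685 (nat_lit 3160) (nat_lit 4) (nat_lit 9))
    (@En.n l26686 (nat_lit 3163) (nat_lit 5) (nat_lit 5))
    (@En.n l26687 (nat_lit 6390) (nat_lit 6) (nat_lit 6))
    (@En.n l7804 (nat_lit 1601) (nat_lit 7) (nat_lit 7))
    (@En.i (nat_lit 1318) (nat_lit 8) (nat_lit 8))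
    (@En.n l26688 (nat_lit 5153) (nat_lit 10) (nat_lit 9))
    (@En.i (nat_lit 3170) (nat_lit 7) (nat_lit 11))
    (@En.n l2724 (nat_lit 1565) (nat_lit 12) (nat_lit 8))
    (@En.i (nat_lit 1909) (nat_lit 8) (nat_lit 10))
    (@En.n l21562 (nat_lit 6535) (nat_lit 14) (nat_lit 7))
    (@En.n l12907 (nat_lit 2842) (nat_lit 0) (nat_lit 9))
    (@En.n l67 (nat_lit 3161) (nat_lit 15) (nat_lit 2))))
  (@Cl.mk (nat_lit 0x20008000d000900080003000b000a000900080007000500080006000e0007) (nat_lit 0x2552040120050c0) (nat_lit 16) Lb.e (@T16.mk En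
    (@En.i (nat_lit 3149) (nat_lit 5) (nat_lit 7))
    (@En.n l4108 (nat_lit 3301) (nat_lit 1) (nat_lit 14))
    (@En.n l345 (nat_lit 7040) (nat_lit 2) (nat_lit 6))
    (@En.n l473 (nat_lit 2926) (nat_lit 3) (nat_lit 8))
    (@En.n l28686 (nat_lit 3164) (nat_lit 4) (nat_lit 5))
    (@En.n l644 (nat_lit 6392) (nat_lit 5) (nat_lit 7))
    (@En.n l5165 (nat_lit 1599) (nat_lit 6) (nat_lit 8))
    (@En.n l9675 (nat_lit 1322) (nat_lit 7) (nat_lit 9))
    (@En.n l1236 (nat_lit 7149) (nat_lit 9) (nat_lit 10))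
    (@En.n l24363 (nat_lit 3161) (nat_lit 10) (nat_lit 11))
    (@En.n l27594 (nat_lit 3155) (nat_lit 10) (nat_lit 3))
    (@En.n l8502 (nat_lit 1578) (nat_lit 12) (nat_lit 8))
    (@En.n l23924 (nat_lit 1904) (nat_lit 13) (nat_lit 9))
    (@En.n l28687 (nat_lit 6546) (nat_lit 14) (nat_lit 13))
    (@En.i (nat_lit 2840) (nat_lit 3) (nat_lit 8))
    (@En.n l28 (nat_lit 3162) (nat_lit 15) (nat_lit 2))))
  (@Cl.mk (nat_lit 0x200080007000d0008000b0003000a000900080005000900080006000e0007) (nat_lit 0x2062800110450c0) (nat_lit 16) Lb.e (@T16.mk En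
    (@En.n l37048 (nat_lit 3152) (nat_lit 6) (nat_lit 7))
    (@En.n l16867 (nat_lit 3313) (nat_lit 1) (nat_lit 14))
    (@En.n l39323 (nat_lit 2599) (nat_lit 2) (nat_lit 6))
    (@En.n l55 (nat_lit 3164) (nat_lit 3) (nat_lit 8))
    (@En.n l39323 (nat_lit 2073) (nat_lit 4) (nat_lit 9))
    (@En.n l23031 (nat_lit 6251) (nat_lit 5) (nat_lit 5))
    (@En.i (nat_lit 1605) (nat_lit 6) (nat_lit 8))
    (@En.n l20257 (nat_lit 1319) (nat_lit 7) (nat_lit 9))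
    (@En.n l2346 (nat_lit 5165) (nat_lit 9) (nat_lit 10))
    (@En.n l37509 (nat_lit 3160) (nat_lit 9) (nat_lit 3))
    (@En.n l30595 (nat_lit 3168) (nat_lit 7) (nat_lit 11))
    (@En.n l166 (nat_lit 1862) (nat_lit 12) (nat_lit 8))
    (@En.n l34040 (nat_lit 3155) (nat_lit 13) (nat_lit 13))
    (@En.n l38796 (nat_lit 5440) (nat_lit 14) (nat_lit 7))
    (@En.n l39324 (nat_lit 2846) (nat_lit 4) (nat_lit 8))
    (@En.n l3 (nat_lit 3163) (nat_lit 15) (nat_lit 2))))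
  (@Cl.mk (nat_lit 0x20007000d000c00080003000b0004000b000a0009000500080005000e0006) (nat_lit 0xa72090010040c0) (nat_lit 16) Lb.e (@T16.mk En
    (@En.n l24227 (nat_lit 3158) (nat_lit 5) (nat_lit 6))
    (@En.n l16867 (nat_lit 3310) (nat_lit 1) (nat_lit 14))
    (@En.n l20259 (nat_lit 2315) (nat_lit 2) (nat_lit 5))
    (@En.n l166 (nat_lit 2666) (nat_lit 10) (nat_lit 8))
    (@En.n l14496 (nat_lit 6250) (nat_lit 4) (nat_lit 5))
    (@En.i (nat_lit 4198) (nat_lit 5) (nat_lit 9))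
    (@En.n l3538 (nat_lit 3010) (nat_lit 6) (nat_lit 10))
    (@En.n l3510 (nat_lit 5171) (nat_lit 8) (nat_lit 11))
    (@En.n l24228 (nat_lit 2925) (nat_lit 8) (nat_lit 4))
    (@En.n l343 (nat_lit 3163) (nat_lit 10) (nat_lit 11))
    (@En.n l28 (nat_lit 3166) (nat_lit 10) (nat_lit 3))
    (@En.n l166 (nat_lit 1865) (nat_lit 12) (nat_lit 8))
    (@En.n l77 (nat_lit 3165) (nat_lit 13) (nat_lit 12))
    (@En.n l7455 (nat_lit 8020) (nat_lit 14) (nat_lit 13))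
    (@En.n l24229 (nat_lit 2850) (nat_lit 3) (nat_lit 7))
    (@En.n l3 (nat_lit 3164) (nat_lit 15) (nat_lit 2))))
  (@Cl.mk (nat_lit 0x20007000c0007000d000a00040003000b000a0009000600090005000e0006) (nat_lit 0x609700011010c0) (nat_lit 16) Lb.e (@T16.mk En
    (@En.n l37048 (nat_lit 3148) (nat_lit 7) (nat_lit 6))
    (@En.n l16867 (nat_lit 3305) (nat_lit 1) (nat_lit 14))
    (@En.i (nat_lit 6663) (nat_lit 2) (nat_lit 5))
    (@En.n l10247 (nat_lit 2662) (nat_lit 9) (nat_lit 9))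
    (@En.n l37507 (nat_lit 5885) (nat_lit 4) (nat_lit 6))
    (@En.i (nat_lit 3041) (nat_lit 5) (nat_lit 9))
    (@En.n l20257 (nat_lit 3014) (nat_lit 6) (nat_lit 10))
    (@En.n l564 (nat_lit 7724) (nat_lit 8) (nat_lit 11))
    (@En.n l7 (nat_lit 3166) (nat_lit 8) (nat_lit 3))
    (@En.n l10665 (nat_lit 2926) (nat_lit 9) (nat_lit 4))
    (@En.n l16871 (nat_lit 3155) (nat_lit 11) (nat_lit 10))
    (@En.n l37508 (nat_lit 3269) (nat_lit 12) (nat_lit 13))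
    (@En.n l37509 (nat_lit 3160) (nat_lit 13) (nat_lit 7))
    (@En.n l10247 (nat_lit 6547) (nat_lit 14) (nat_lit 12))
    (@En.n l37510 (nat_lit 2880) (nat_lit 5) (nat_lit 7))
    (@En.n l3 (nat_lit 3165) (nat_lit 15) (nat_lit 2))))
  (@Cl.mk (nat_lit 0x20007000d0007000d0003000b0003000b000a0009000500090005000e0006) (nat_lit 0xa08090010010c0) (nat_lit 16) Lb.e (@T16.mk En
    (@En.n l37048 (nat_lit 3154) (nat_lit 5) (nat_lit 6))
    (@En.n l16867 (nat_lit 3309) (nat_lit 1) (nat_lit 14))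
    (@En.i (nat_lit 6665) (nat_lit 2) (nat_lit 5))
    (@En.n l37049 (nat_lit 2664) (nat_lit 3) (nat_lit 9))
    (@En.n l23031 (nat_lit 6248) (nat_lit 4) (nat_lit 5))
    (@En.i (nat_lit 4197) (nat_lit 5) (nat_lit 9))
    (@En.n l20257 (nat_lit 3013) (nat_lit 6) (nat_lit 10))
    (@En.i (nat_lit 6576) (nat_lit 8) (nat_lit 11))
    (@En.i (nat_lit 3165) (nat_lit 8) (nat_lit 3))
    (@En.i (nat_lit 3171) (nat_lit 10) (nat_lit 11))
    (@En.i (nat_lit 3164) (nat_lit 10) (nat_lit 3))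
    (@En.n l30594 (nat_lit 3274) (nat_lit 12) (nat_lit 13))
    (@En.i (nat_lit 3163) (nat_lit 13) (nat_lit 7))
    (@En.n l16871 (nat_lit 8019) (nat_lit 14) (nat_lit 13))
    (@En.n l39324 (nat_lit 2882) (nat_lit 3) (nat_lit 7))
    (@En.n l3 (nat_lit 3166) (nat_lit 15) (nat_lit 2))))
  (@Cl.mk (nat_lit 0x2000900070007000b000b00090008000700050005000900090007000e0008) (nat_lit 0x730600053001) (nat_lit 16) Lb.e (@T16.mk En
    (@En.n l26667 (nat_lit 58) (nat_lit 2) (nat_lit 8))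
    (@En.n l26668 (nat_lit 3186) (nat_lit 1) (nat_lit 14))
    (@En.i (nat_lit 7706) (nat_lit 2) (nat_lit 7))
    (@En.n l26669 (nat_lit 3172) (nat_lit 3) (nat_lit 9))
    (@En.n l26670 (nat_lit 3163) (nat_lit 4) (nat_lit 9))
    (@En.n l5760 (nat_lit 3171) (nat_lit 5) (nat_lit 5))
    (@En.n l26671 (nat_lit 6441) (nat_lit 6) (nat_lit 5))
    (@En.i (nat_lit 3995) (nat_lit 7) (nat_lit 7))
    (@En.n l13886 (nat_lit 4483) (nat_lit 8) (nat_lit 8))
    (@En.n l19122 (nat_lit 7732) (nat_lit 10) (nat_lit 9))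
    (@En.n l26672 (nat_lit 3173) (nat_lit 5) (nat_lit 11))
    (@En.n l2824 (nat_lit 4358) (nat_lit 12) (nat_lit 11))
    (@En.n l26673 (nat_lit 3170) (nat_lit 9) (nat_lit 7))
    (@En.n l16498 (nat_lit 6446) (nat_lit 14) (nat_lit 7))
    (@En.n l26674 (nat_lit 4835) (nat_lit 8) (nat_lit 9))
    (@En.n l50 (nat_lit 3167) (nat_lit 15) (nat_lit 2))))
noncomputable def a198 : T16 Cl := @T16.mk Cl
  (@Cl.mk (nat_lit 0x20007000e0008000200090007000e000b00020009000800070005000e0009) (nat_lit 0x1000770060025) (nat_lit 16) Lb.e (@T16.mk En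
    (@En.n l23782 (nat_lit 3171) (nat_lit 4) (nat_lit 9))
    (@En.n l23783 (nat_lit 1863) (nat_lit 1) (nat_lit 14))
    (@En.n l7630 (nat_lit 5798) (nat_lit 2) (nat_lit 5))
    (@En.n l1055 (nat_lit 4886) (nat_lit 3) (nat_lit 7))
    (@En.n l217 (nat_lit 5322) (nat_lit 14) (nat_lit 8))
    (@En.n l23784 (nat_lit 5848) (nat_lit 5) (nat_lit 9))
    (@En.n l67 (nat_lit 3168) (nat_lit 6) (nat_lit 2))
    (@En.n l23785 (nat_lit 3170) (nat_lit 8) (nat_lit 11))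
    (@En.n l7630 (nat_lit 1910) (nat_lit 9) (nat_lit 14))
    (@En.i (nat_lit 6980) (nat_lit 14) (nat_lit 7))
    (@En.i (nat_lit 5224) (nat_lit 11) (nat_lit 9))
    (@En.n l17 (nat_lit 3168) (nat_lit 11) (nat_lit 2))
    (@En.n l23786 (nat_lit 19) (nat_lit 5) (nat_lit 8))
    (@En.n l5 (nat_lit 5041) (nat_lit 7) (nat_lit 14))
    (@En.n l1055 (nat_lit 5851) (nat_lit 2) (nat_lit 7))
    (@En.n l7 (nat_lit 3168) (nat_lit 15) (nat_lit 2))))
  (@Cl.mk (nat_lit 0x200090009000900090006000a000a000700070007000700060006000e000a) (nat_lit 0x8500000011) (nat_lit 16) Lb.e (@T16.mk En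
    (@En.i (nat_lit 58) (nat_lit 5) (nat_lit 10))
    (@En.n l108 (nat_lit 1557) (nat_lit 1) (nat_lit 14))
    (@En.i (nat_lit 19) (nat_lit 2) (nat_lit 6))
    (@En.n l23001 (nat_lit 6442) (nat_lit 3) (nat_lit 6))
    (@En.n l218 (nat_lit 4891) (nat_lit 9) (nat_lit 7))
    (@En.n l394 (nat_lit 3170) (nat_lit 5) (nat_lit 7))
    (@En.n l4969 (nat_lit 4901) (nat_lit 9) (nat_lit 7))
    (@En.n l23002 (nat_lit 5854) (nat_lit 7) (nat_lit 7))
    (@En.n l644 (nat_lit 4779) (nat_lit 9) (nat_lit 10))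
    (@En.i (nat_lit 1955) (nat_lit 10) (nat_lit 10))
    (@En.n l4316 (nat_lit 5607) (nat_lit 11) (nat_lit 6))
    (@En.n l8390 (nat_lit 4889) (nat_lit 7) (nat_lit 9))
    (@En.n l22131 (nat_lit 3171) (nat_lit 7) (nat_lit 9))
    (@En.n l23003 (nat_lit 4908) (nat_lit 7) (nat_lit 9))
    (@En.i (nat_lit 5849) (nat_lit 3) (nat_lit 9))
    (@En.n l17 (nat_lit 3169) (nat_lit 15) (nat_lit 2))))
  (@Cl.mk (nat_lit 0x20008000e00090002000a0007000b000b00080007000600050005000e0009) (nat_lit 0x1000620000026) (nat_lit 16) Lb.e (@T16.mk En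
    (@En.n l22581 (nat_lit 3167) (nat_lit 4) (nat_lit 9))
    (@En.n l38050 (nat_lit 1860) (nat_lit 1) (nat_lit 14))
    (@En.n l38051 (nat_lit 3168) (nat_lit 2) (nat_lit 5))
    (@En.n l237 (nat_lit 6443) (nat_lit 3) (nat_lit 5))
    (@En.n l16501 (nat_lit 3994) (nat_lit 4) (nat_lit 6))
    (@En.i (nat_lit 5325) (nat_lit 5) (nat_lit 7))
    (@En.n l16504 (nat_lit 7734) (nat_lit 6) (nat_lit 8))
    (@En.n l4380 (nat_lit 5251) (nat_lit 8) (nat_lit 11))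
    (@En.i (nat_lit 3271) (nat_lit 9) (nat_lit 11))
    (@En.n l21562 (nat_lit 5300) (nat_lit 14) (nat_lit 7))
    (@En.n l26742 (nat_lit 5227) (nat_lit 11) (nat_lit 10))
    (@En.n l67 (nat_lit 3170) (nat_lit 11) (nat_lit 2))
    (@En.n l1595 (nat_lit 3169) (nat_lit 13) (nat_lit 9))
    (@En.n l3638 (nat_lit 3187) (nat_lit 1) (nat_lit 14))
    (@En.n l16501 (nat_lit 7702) (nat_lit 2) (nat_lit 8))
    (@En.n l17 (nat_lit 3170) (nat_lit 15) (nat_lit 2))))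
  (@Cl.mk (nat_lit 0x2000800070007000e000b0002000a000900080005000900090006000e0007) (nat_lit 0x280070042000) (nat_lit 16) Lb.e (@T16.mk En
    (@En.n l30591 (nat_lit 3169) (nat_lit 6) (nat_lit 7))
    (@En.n l16867 (nat_lit 5050) (nat_lit 8) (nat_lit 14))
    (@En.n l3348 (nat_lit 7173) (nat_lit 2) (nat_lit 6))
    (@En.n l30592 (nat_lit 5246) (nat_lit 3) (nat_lit 9))
    (@En.n l5957 (nat_lit 2076) (nat_lit 4) (nat_lit 9))
    (@En.n l30593 (nat_lit 5600) (nat_lit 5) (nat_lit 5))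
    (@En.i (nat_lit 4883) (nat_lit 6) (nat_lit 8))
    (@En.n l2977 (nat_lit 5319) (nat_lit 14) (nat_lit 9))
    (@En.n l15747 (nat_lit 5269) (nat_lit 9) (nat_lit 10))
    (@En.n l7 (nat_lit 3171) (nat_lit 9) (nat_lit 2))
    (@En.n l9926 (nat_lit 3167) (nat_lit 11) (nat_lit 11))
    (@En.n l30594 (nat_lit 1974) (nat_lit 12) (nat_lit 14))
    (@En.n l30595 (nat_lit 3168) (nat_lit 9) (nat_lit 7))
    (@En.n l11131 (nat_lit 6907) (nat_lit 14) (nat_lit 7))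
    (@En.n l30596 (nat_lit 5221) (nat_lit 4) (nat_lit 8))
    (@En.n l3 (nat_lit 3171) (nat_lit 15) (nat_lit 2))))
  (@Cl.mk (nat_lit 0x20008000e00070002000b000b000a000900080005000500090006000e0007) (nat_lit 0xb0084000002000) (nat_lit 16) Lb.e (@T16.mk En
    (@En.n l34286 (nat_lit 4780) (nat_lit 4) (nat_lit 7))
    (@En.n l601 (nat_lit 4965) (nat_lit 1) (nat_lit 14))
    (@En.n l16179 (nat_lit 5247) (nat_lit 2) (nat_lit 6))
    (@En.n l7221 (nat_lit 3166) (nat_lit 3) (nat_lit 9))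
    (@En.n l22969 (nat_lit 5246) (nat_lit 4) (nat_lit 5))
    (@En.n l152 (nat_lit 5609) (nat_lit 9) (nat_lit 5))
    (@En.n l7221 (nat_lit 4594) (nat_lit 6) (nat_lit 8))
    (@En.n l77 (nat_lit 4480) (nat_lit 12) (nat_lit 9))
    (@En.n l3570 (nat_lit 8038) (nat_lit 9) (nat_lit 10))
    (@En.n l34287 (nat_lit 4827) (nat_lit 5) (nat_lit 11))
    (@En.i (nat_lit 4361) (nat_lit 11) (nat_lit 11))
    (@En.n l17 (nat_lit 3172) (nat_lit 11) (nat_lit 2))
    (@En.n l34288 (nat_lit 3167) (nat_lit 13) (nat_lit 7))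
    (@En.i (nat_lit 5202) (nat_lit 1) (nat_lit 14))
    (@En.n l28289 (nat_lit 4831) (nat_lit 2) (nat_lit 8))
    (@En.n l50 (nat_lit 3172) (nat_lit 15) (nat_lit 2))))
  (@Cl.mk (nat_lit 0x2000900090008000e00090002000a00070007000b000800070006000e0005) (nat_lit 0x6400000002000b0) (nat_lit 16) Lb.e (@T16.mk En
    (@En.n l12847 (nat_lit 3167) (nat_lit 6) (nat_lit 5))
    (@En.n l601 (nat_lit 5715) (nat_lit 8) (nat_lit 14))
    (@En.n l12848 (nat_lit 3988) (nat_lit 2) (nat_lit 6))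
    (@En.i (nat_lit 4484) (nat_lit 3) (nat_lit 7))
    (@En.n l2438 (nat_lit 5779) (nat_lit 4) (nat_lit 8))
    (@En.n l12849 (nat_lit 4356) (nat_lit 12) (nat_lit 11))
    (@En.n l61 (nat_lit 5251) (nat_lit 9) (nat_lit 7))
    (@En.n l12850 (nat_lit 7010) (nat_lit 14) (nat_lit 7))
    (@En.n l12664 (nat_lit 4833) (nat_lit 9) (nat_lit 10))
    (@En.n l67 (nat_lit 3173) (nat_lit 9) (nat_lit 2))
    (@En.n l68 (nat_lit 4780) (nat_lit 11) (nat_lit 9))
    (@En.n l12851 (nat_lit 3178) (nat_lit 12) (nat_lit 14))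
    (@En.n l12852 (nat_lit 7704) (nat_lit 2) (nat_lit 8))
    (@En.n l12853 (nat_lit 4827) (nat_lit 14) (nat_lit 9))
    (@En.n l7409 (nat_lit 3161) (nat_lit 4) (nat_lit 9))
    (@En.n l50 (nat_lit 3173) (nat_lit 15) (nat_lit 2))))
  (@Cl.mk (nat_lit 0x20009000e00080002000b000a000a0007000a0005000800060006000e0006) (nat_lit 0x1460041020400c0) (nat_lit 16) Lb.e (@T16.mk En
    (@En.n l13007 (nat_lit 1941) (nat_lit 4) (nat_lit 6))
    (@En.n l8122 (nat_lit 3178) (nat_lit 1) (nat_lit 14))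
    (@En.n l8627 (nat_lit 1940) (nat_lit 10) (nat_lit 6))
    (@En.n l13008 (nat_lit 3196) (nat_lit 3) (nat_lit 6))
    (@En.n l13007 (nat_lit 3117) (nat_lit 4) (nat_lit 8))
    (@En.n l8630 (nat_lit 5223) (nat_lit 5) (nat_lit 5))
    (@En.n l13009 (nat_lit 4160) (nat_lit 11) (nat_lit 10))
    (@En.n l13010 (nat_lit 1709) (nat_lit 7) (nat_lit 7))
    (@En.n l1415 (nat_lit 2089) (nat_lit 9) (nat_lit 10))
    (@En.n l13011 (nat_lit 1999) (nat_lit 14) (nat_lit 10))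
    (@En.n l13012 (nat_lit 3175) (nat_lit 11) (nat_lit 11))
    (@En.n l3 (nat_lit 3174) (nat_lit 11) (nat_lit 2))
    (@En.n l13013 (nat_lit 3175) (nat_lit 13) (nat_lit 8))
    (@En.i (nat_lit 9932) (nat_lit 1) (nat_lit 14))
    (@En.n l13014 (nat_lit 1941) (nat_lit 2) (nat_lit 9))
    (@En.n l17 (nat_lit 3174) (nat_lit 15) (nat_lit 2))))
  (@Cl.mk (nat_lit 0x2000a00080008000b000900090006000900050008000800070007000e0007) (nat_lit 0x1569310201500c0) (nat_lit 16) Lb.e (@T16.mk En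
    (@En.n l22281 (nat_lit 1939) (nat_lit 7) (nat_lit 7))
    (@En.n l22282 (nat_lit 3177) (nat_lit 1) (nat_lit 14))
    (@En.n l22283 (nat_lit 1937) (nat_lit 9) (nat_lit 7))
    (@En.n l575 (nat_lit 3191) (nat_lit 3) (nat_lit 7))
    (@En.n l19515 (nat_lit 3174) (nat_lit 4) (nat_lit 8))
    (@En.n l1769 (nat_lit 1909) (nat_lit 5) (nat_lit 8))
    (@En.n l22284 (nat_lit 5221) (nat_lit 6) (nat_lit 5))
    (@En.i (nat_lit 4156) (nat_lit 9) (nat_lit 9))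
    (@En.n l20179 (nat_lit 1710) (nat_lit 8) (nat_lit 6))
    (@En.n l22285 (nat_lit 2087) (nat_lit 10) (nat_lit 9))
    (@En.n l22284 (nat_lit 1673) (nat_lit 11) (nat_lit 9))
    (@En.n l22286 (nat_lit 3176) (nat_lit 7) (nat_lit 11))
    (@En.n l22287 (nat_lit 3176) (nat_lit 8) (nat_lit 8))
    (@En.n l22288 (nat_lit 9858) (nat_lit 14) (nat_lit 8))
    (@En.n l22289 (nat_lit 1939) (nat_lit 5) (nat_lit 10))
    (@En.n l18 (nat_lit 3175) (nat_lit 15) (nat_lit 2))))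
  (@Cl.mk (nat_lit 0x200080008000e00080002000b0008000b00080008000500080005000e0008) (nat_lit 0x65a101582102032) (nat_lit 16) Lb.e (@T16.mk En
    (@En.n l14787 (nat_lit 3175) (nat_lit 5) (nat_lit 8))
    (@En.n l14788 (nat_lit 1871) (nat_lit 1) (nat_lit 14))
    (@En.n l387 (nat_lit 5222) (nat_lit 2) (nat_lit 5))
    (@En.n l14789 (nat_lit 4158) (nat_lit 3) (nat_lit 8))
    (@En.n l3851 (nat_lit 1712) (nat_lit 4) (nat_lit 5))
    (@En.n l2593 (nat_lit 2090) (nat_lit 11) (nat_lit 8))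
    (@En.n l12978 (nat_lit 1458) (nat_lit 6) (nat_lit 8))
    (@En.n l14790 (nat_lit 13706) (nat_lit 7) (nat_lit 11))
    (@En.n l3536 (nat_lit 9856) (nat_lit 14) (nat_lit 8))
    (@En.n l14791 (nat_lit 1980) (nat_lit 10) (nat_lit 11))
    (@En.n l18 (nat_lit 3176) (nat_lit 10) (nat_lit 2))
    (@En.n l14792 (nat_lit 1980) (nat_lit 12) (nat_lit 8))
    (@En.n l14790 (nat_lit 3179) (nat_lit 13) (nat_lit 14))
    (@En.n l14793 (nat_lit 4644) (nat_lit 8) (nat_lit 8))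
    (@En.n l14794 (nat_lit 3190) (nat_lit 3) (nat_lit 8))
    (@En.n l28 (nat_lit 3176) (nat_lit 15) (nat_lit 2))))
  (@Cl.mk (nat_lit 0x2000a000a00080008000b000900060006000a0005000800080007000e0006) (nat_lit 0x4500030020100b0) (nat_lit 16) Lb.e (@T16.mk En
    (@En.n l37789 (nat_lit 3180) (nat_lit 7) (nat_lit 6))
    (@En.n l37790 (nat_lit 5016) (nat_lit 1) (nat_lit 14))
    (@En.n l12665 (nat_lit 3423) (nat_lit 2) (nat_lit 7))
    (@En.n l34117 (nat_lit 3178) (nat_lit 3) (nat_lit 8))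
    (@En.i (nat_lit 3173) (nat_lit 4) (nat_lit 8))
    (@En.n l37791 (nat_lit 1980) (nat_lit 5) (nat_lit 5))
    (@En.n l12851 (nat_lit 5047) (nat_lit 9) (nat_lit 10))
    (@En.n l61 (nat_lit 3182) (nat_lit 10) (nat_lit 6))
    (@En.n l12850 (nat_lit 6835) (nat_lit 8) (nat_lit 6))
    (@En.n l12114 (nat_lit 4970) (nat_lit 10) (nat_lit 9))
    (@En.n l15232 (nat_lit 3179) (nat_lit 7) (nat_lit 11))
    (@En.n l15233 (nat_lit 3179) (nat_lit 8) (nat_lit 8))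
    (@En.n l37792 (nat_lit 10049) (nat_lit 13) (nat_lit 8))
    (@En.n l37793 (nat_lit 3181) (nat_lit 6) (nat_lit 10))
    (@En.n l37794 (nat_lit 3183) (nat_lit 5) (nat_lit 10))
    (@En.n l50 (nat_lit 3177) (nat_lit 15) (nat_lit 2))))
  (@Cl.mk (nat_lit 0x200090009000e00080002000b000a00070007000b000500080006000e0005) (nat_lit 0x45c1014002060b0) (nat_lit 16) Lb.e (@T16.mk En
    (@En.i (nat_lit 3186) (nat_lit 5) (nat_lit 5))
    (@En.n l4559 (nat_lit 5018) (nat_lit 1) (nat_lit 14))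
    (@En.n l387 (nat_lit 3394) (nat_lit 2) (nat_lit 6))
    (@En.n l152 (nat_lit 4488) (nat_lit 3) (nat_lit 8))
    (@En.i (nat_lit 3176) (nat_lit 4) (nat_lit 5))
    (@En.i (nat_lit 5094) (nat_lit 11) (nat_lit 11))
    (@En.n l2593 (nat_lit 5043) (nat_lit 12) (nat_lit 7))
    (@En.n l513 (nat_lit 6838) (nat_lit 7) (nat_lit 7))
    (@En.n l26651 (nat_lit 4968) (nat_lit 14) (nat_lit 10))
    (@En.n l20615 (nat_lit 3177) (nat_lit 10) (nat_lit 11))
    (@En.n l18 (nat_lit 3178) (nat_lit 10) (nat_lit 2))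
    (@En.n l26652 (nat_lit 3177) (nat_lit 12) (nat_lit 8))
    (@En.n l3082 (nat_lit 9311) (nat_lit 13) (nat_lit 14))
    (@En.n l12876 (nat_lit 5064) (nat_lit 14) (nat_lit 9))
    (@En.n l766 (nat_lit 3300) (nat_lit 3) (nat_lit 9))
    (@En.n l28 (nat_lit 3178) (nat_lit 15) (nat_lit 2))))
  (@Cl.mk (nat_lit 0x20008000e00070002000b000b0008000b00080005000500090005000e0008) (nat_lit 0x390045694002042) (nat_lit 16) Lb.e (@T16.mk En
    (@En.n l6139 (nat_lit 3177) (nat_lit 4) (nat_lit 8))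
    (@En.n l1708 (nat_lit 4781) (nat_lit 1) (nat_lit 14))
    (@En.n l7 (nat_lit 1981) (nat_lit 2) (nat_lit 5))
    (@En.n l2032 (nat_lit 5046) (nat_lit 3) (nat_lit 9))
    (@En.n l575 (nat_lit 5038) (nat_lit 4) (nat_lit 5))
    (@En.n l7259 (nat_lit 6839) (nat_lit 9) (nat_lit 5))
    (@En.n l15198 (nat_lit 4911) (nat_lit 6) (nat_lit 8))
    (@En.i (nat_lit 13960) (nat_lit 7) (nat_lit 11))
    (@En.n l4018 (nat_lit 10050) (nat_lit 13) (nat_lit 8))
    (@En.n l11795 (nat_lit 5024) (nat_lit 5) (nat_lit 11))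
    (@En.n l22908 (nat_lit 3345) (nat_lit 11) (nat_lit 11))
    (@En.n l3 (nat_lit 3179) (nat_lit 11) (nat_lit 2))
    (@En.n l9952 (nat_lit 4964) (nat_lit 13) (nat_lit 7))
    (@En.n l16557 (nat_lit 5017) (nat_lit 1) (nat_lit 14))
    (@En.i (nat_lit 4532) (nat_lit 2) (nat_lit 8))
    (@En.n l17 (nat_lit 3179) (nat_lit 15) (nat_lit 2))))
  (@Cl.mk (nat_lit 0x60006000a000a000600090009000800060006000a000a00070007000a0008) (nat_lit 0x63010200330005) (nat_lit 16) Lb.e (@T16.mk En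
    (@En.n l3303 (nat_lit 4917) (nat_lit 8) (nat_lit 8))
    (@En.n l3 (nat_lit 4964) (nat_lit 8) (nat_lit 10))
    (@En.n l527 (nat_lit 4964) (nat_lit 9) (nat_lit 7))
    (@En.n l38036 (nat_lit 9515) (nat_lit 9) (nat_lit 7))
    (@En.n l4380 (nat_lit 4960) (nat_lit 6) (nat_lit 10))
    (@En.n l1353 (nat_lit 3312) (nat_lit 9) (nat_lit 10))
    (@En.n l61 (nat_lit 4962) (nat_lit 10) (nat_lit 6))
    (@En.n l22570 (nat_lit 7569) (nat_lit 10) (nat_lit 6))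
    (@En.n l38036 (nat_lit 4527) (nat_lit 8) (nat_lit 8))
    (@En.n l38037 (nat_lit 3186) (nat_lit 7) (nat_lit 9))
    (@En.n l38036 (nat_lit 3167) (nat_lit 9) (nat_lit 9))
    (@En.n l22566 (nat_lit 3184) (nat_lit 3) (nat_lit 6))
    (@En.n l38038 (nat_lit 3177) (nat_lit 6) (nat_lit 10))
    (@En.n l38039 (nat_lit 5044) (nat_lit 9) (nat_lit 10))
    (@En.n l38040 (nat_lit 5036) (nat_lit 10) (nat_lit 6))
    (@En.n l38041 (nat_lit 6840) (nat_lit 10) (nat_lit 6))))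
  (@Cl.mk (nat_lit 0x2000a0006000900090008000e00060002000a00070007000a0008000e0006) (nat_lit 0x300607004000360) (nat_lit 16) Lb.e (@T16.mk En
    (@En.n l38730 (nat_lit 3177) (nat_lit 8) (nat_lit 6))
    (@En.n l38731 (nat_lit 5200) (nat_lit 10) (nat_lit 14))
    (@En.n l38732 (nat_lit 4944) (nat_lit 2) (nat_lit 8))
    (@En.n l38733 (nat_lit 5024) (nat_lit 3) (nat_lit 10))
    (@En.n l38734 (nat_lit 5024) (nat_lit 4) (nat_lit 7))
    (@En.n l38735 (nat_lit 11195) (nat_lit 14) (nat_lit 7))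
    (@En.n l38736 (nat_lit 3304) (nat_lit 7) (nat_lit 10))
    (@En.n l17 (nat_lit 3181) (nat_lit 7) (nat_lit 2))
    (@En.n l38737 (nat_lit 4960) (nat_lit 8) (nat_lit 6))
    (@En.i (nat_lit 5066) (nat_lit 10) (nat_lit 14))
    (@En.n l38738 (nat_lit 3399) (nat_lit 2) (nat_lit 8))
    (@En.n l38739 (nat_lit 5064) (nat_lit 3) (nat_lit 9))
    (@En.n l38738 (nat_lit 4827) (nat_lit 4) (nat_lit 9))
    (@En.n l38735 (nat_lit 1938) (nat_lit 14) (nat_lit 6))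
    (@En.n l34824 (nat_lit 5084) (nat_lit 7) (nat_lit 10))
    (@En.n l7 (nat_lit 3181) (nat_lit 15) (nat_lit 2))))
  (@Cl.mk (nat_lit 0x200090009000c000a0006000a0004000700070006000e00060002000e000a) (nat_lit 0x3010000b0025) (nat_lit 16) Lb.e (@T16.mk En
    (@En.i (nat_lit 3177) (nat_lit 14) (nat_lit 10))
    (@En.n l14957 (nat_lit 1585) (nat_lit 1) (nat_lit 14))
    (@En.n l50 (nat_lit 3182) (nat_lit 2) (nat_lit 2))
    (@En.n l6325 (nat_lit 5036) (nat_lit 3) (nat_lit 6))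
    (@En.n l601 (nat_lit 5010) (nat_lit 5) (nat_lit 14))
    (@En.n l12665 (nat_lit 3419) (nat_lit 5) (nat_lit 6))
    (@En.n l33517 (nat_lit 5043) (nat_lit 9) (nat_lit 7))
    (@En.i (nat_lit 5251) (nat_lit 7) (nat_lit 7))
    (@En.n l12114 (nat_lit 2088) (nat_lit 8) (nat_lit 4))
    (@En.i (nat_lit 1160) (nat_lit 10) (nat_lit 10))
    (@En.n l12850 (nat_lit 6600) (nat_lit 7) (nat_lit 6))
    (@En.n l12114 (nat_lit 4980) (nat_lit 12) (nat_lit 10))
    (@En.n l15232 (nat_lit 5038) (nat_lit 6) (nat_lit 12))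
    (@En.n l15233 (nat_lit 5038) (nat_lit 7) (nat_lit 9))
    (@En.n l1236 (nat_lit 9909) (nat_lit 12) (nat_lit 9))
    (@En.n l17 (nat_lit 3182) (nat_lit 15) (nat_lit 2))))
  (@Cl.mk (nat_lit 0x600090007000a000600090009000800070006000a000900070007000a0008) (nat_lit 0x203012300340003) (nat_lit 16) Lb.e (@T16.mk En
    (@En.n l22284 (nat_lit 2507) (nat_lit 8) (nat_lit 8))
    (@En.n l22562 (nat_lit 3345) (nat_lit 8) (nat_lit 10))
    (@En.n l22563 (nat_lit 3345) (nat_lit 9) (nat_lit 7))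
    (@En.n l34739 (nat_lit 10059) (nat_lit 9) (nat_lit 7))
    (@En.n l34740 (nat_lit 3302) (nat_lit 7) (nat_lit 9))
    (@En.n l34741 (nat_lit 3342) (nat_lit 9) (nat_lit 10))
    (@En.n l34742 (nat_lit 3312) (nat_lit 10) (nat_lit 6))
    (@En.n l22560 (nat_lit 1306) (nat_lit 9) (nat_lit 7))
    (@En.n l34739 (nat_lit 2836) (nat_lit 8) (nat_lit 8))
    (@En.n l7041 (nat_lit 3300) (nat_lit 7) (nat_lit 9))
    (@En.n l1769 (nat_lit 3161) (nat_lit 9) (nat_lit 9))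
    (@En.n l34743 (nat_lit 1997) (nat_lit 10) (nat_lit 6))
    (@En.i (nat_lit 5036) (nat_lit 8) (nat_lit 10))
    (@En.n l34744 (nat_lit 1580) (nat_lit 9) (nat_lit 7))
    (@En.i (nat_lit 3175) (nat_lit 9) (nat_lit 9))
    (@En.n l1140 (nat_lit 5420) (nat_lit 10) (nat_lit 6))))
noncomputable def a199 : T16 Cl := @T16.mk Cl
  (@Cl.mk (nat_lit 0x5000a0009000900070007000a0006000900070007000b0006000900090007) (nat_lit 0x434000040050000) (nat_lit 16) Lb.e (@T16.mk En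
    (@En.n l34813 (nat_lit 4538) (nat_lit 9) (nat_lit 7))
    (@En.n l34814 (nat_lit 3185) (nat_lit 7) (nat_lit 9))
    (@En.n l34815 (nat_lit 5859) (nat_lit 9) (nat_lit 9))
    (@En.n l24260 (nat_lit 1939) (nat_lit 15) (nat_lit 6))
    (@En.i (nat_lit 5098) (nat_lit 8) (nat_lit 11))
    (@En.n l34816 (nat_lit 5031) (nat_lit 9) (nat_lit 7))
    (@En.n l34817 (nat_lit 6936) (nat_lit 9) (nat_lit 7))
    (@En.n l34818 (nat_lit 3177) (nat_lit 9) (nat_lit 9))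
    (@En.n l34819 (nat_lit 10042) (nat_lit 8) (nat_lit 6))
    (@En.n l50 (nat_lit 5149) (nat_lit 8) (nat_lit 10))
    (@En.n l217 (nat_lit 5149) (nat_lit 9) (nat_lit 7))
    (@En.n l34820 (nat_lit 10076) (nat_lit 9) (nat_lit 7))
    (@En.n l34821 (nat_lit 5063) (nat_lit 7) (nat_lit 9))
    (@En.n l34815 (nat_lit 1310) (nat_lit 7) (nat_lit 9))
    (@En.n l34822 (nat_lit 5054) (nat_lit 10) (nat_lit 10))
    (@En.i (nat_lit 7571) (nat_lit 11) (nat_lit 5))))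
  (@Cl.mk (nat_lit 0x2000a0007000a00080008000c0006000900060004000900080008000e0007) (nat_lit 0x105005070030400) (nat_lit 16) Lb.e (@T16.mk En
    (@En.n l22168 (nat_lit 3184) (nat_lit 11) (nat_lit 7))
    (@En.n l22169 (nat_lit 9318) (nat_lit 1) (nat_lit 14))
    (@En.n l22170 (nat_lit 5065) (nat_lit 2) (nat_lit 8))
    (@En.n l22171 (nat_lit 5185) (nat_lit 3) (nat_lit 8))
    (@En.n l22172 (nat_lit 5053) (nat_lit 4) (nat_lit 9))
    (@En.n l22173 (nat_lit 7570) (nat_lit 5) (nat_lit 4))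
    (@En.n l387 (nat_lit 4547) (nat_lit 6) (nat_lit 6))
    (@En.n l22174 (nat_lit 6011) (nat_lit 9) (nat_lit 9))
    (@En.n l22175 (nat_lit 3175) (nat_lit 8) (nat_lit 6))
    (@En.i (nat_lit 5096) (nat_lit 10) (nat_lit 12))
    (@En.n l2593 (nat_lit 6453) (nat_lit 11) (nat_lit 8))
    (@En.n l9187 (nat_lit 6937) (nat_lit 12) (nat_lit 8))
    (@En.i (nat_lit 3178) (nat_lit 8) (nat_lit 10))
    (@En.n l12015 (nat_lit 10090) (nat_lit 14) (nat_lit 7))
    (@En.n l22176 (nat_lit 3184) (nat_lit 9) (nat_lit 10))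
    (@En.n l18 (nat_lit 3185) (nat_lit 15) (nat_lit 2))))
  (@Cl.mk (nat_lit 0x2000a000900070007000b000b0006000900070005000500090009000e0007) (nat_lit 0x1400730700033c0) (nat_lit 16) Lb.e (@T16.mk En
    (@En.n l27448 (nat_lit 3180) (nat_lit 3) (nat_lit 7))
    (@En.n l9941 (nat_lit 9317) (nat_lit 1) (nat_lit 14))
    (@En.n l4770 (nat_lit 4965) (nat_lit 2) (nat_lit 9))
    (@En.n l4664 (nat_lit 3313) (nat_lit 3) (nat_lit 9))
    (@En.n l13790 (nat_lit 5050) (nat_lit 11) (nat_lit 5))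
    (@En.n l12301 (nat_lit 7568) (nat_lit 5) (nat_lit 5))
    (@En.n l387 (nat_lit 3370) (nat_lit 6) (nat_lit 7))
    (@En.n l1896 (nat_lit 4487) (nat_lit 9) (nat_lit 9))
    (@En.n l936 (nat_lit 3185) (nat_lit 8) (nat_lit 6))
    (@En.n l55 (nat_lit 3178) (nat_lit 5) (nat_lit 11))
    (@En.i (nat_lit 5092) (nat_lit 11) (nat_lit 11))
    (@En.n l2593 (nat_lit 3187) (nat_lit 12) (nat_lit 7))
    (@En.n l4750 (nat_lit 6841) (nat_lit 13) (nat_lit 7))
    (@En.n l26651 (nat_lit 4967) (nat_lit 14) (nat_lit 9))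
    (@En.n l27449 (nat_lit 3180) (nat_lit 1) (nat_lit 10))
    (@En.n l18 (nat_lit 3186) (nat_lit 15) (nat_lit 2))))
  (@Cl.mk (nat_lit 0x2000b000a0007000b000b00050008000600050005000e00090002000e0008) (nat_lit 0x406200000340c0) (nat_lit 16) Lb.e (@T16.mk En
    (@En.n l7681 (nat_lit 5036) (nat_lit 14) (nat_lit 8))
    (@En.n l11611 (nat_lit 9379) (nat_lit 1) (nat_lit 14))
    (@En.n l50 (nat_lit 3187) (nat_lit 2) (nat_lit 2))
    (@En.n l564 (nat_lit 3186) (nat_lit 3) (nat_lit 9))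
    (@En.n l20937 (nat_lit 1989) (nat_lit 1) (nat_lit 14))
    (@En.n l213 (nat_lit 5041) (nat_lit 11) (nat_lit 5))
    (@En.n l27098 (nat_lit 6454) (nat_lit 6) (nat_lit 5))
    (@En.i (nat_lit 3441) (nat_lit 7) (nat_lit 6))
    (@En.n l616 (nat_lit 5326) (nat_lit 10) (nat_lit 8))
    (@En.n l936 (nat_lit 6453) (nat_lit 9) (nat_lit 5))
    (@En.n l55 (nat_lit 5043) (nat_lit 11) (nat_lit 11))
    (@En.n l97 (nat_lit 4160) (nat_lit 12) (nat_lit 11))
    (@En.n l615 (nat_lit 6599) (nat_lit 13) (nat_lit 7))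
    (@En.n l1867 (nat_lit 4973) (nat_lit 14) (nat_lit 10))
    (@En.n l3340 (nat_lit 5036) (nat_lit 12) (nat_lit 11))
    (@En.n l17 (nat_lit 3187) (nat_lit 15) (nat_lit 2))))
  (@Cl.mk (nat_lit 0x20009000d0007000a0003000b000a0007000a0006000500090006000e0006) (nat_lit 0x150608608005070) (nat_lit 16) Lb.e (@T16.mk En
    (@En.n l7 (nat_lit 1994) (nat_lit 5) (nat_lit 6))
    (@En.n l2724 (nat_lit 3407) (nat_lit 1) (nat_lit 14))
    (@En.n l476 (nat_lit 7836) (nat_lit 2) (nat_lit 6))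
    (@En.n l1157 (nat_lit 3129) (nat_lit 3) (nat_lit 9))
    (@En.i (nat_lit 3128) (nat_lit 4) (nat_lit 5))
    (@En.n l5408 (nat_lit 9354) (nat_lit 5) (nat_lit 6))
    (@En.i (nat_lit 3047) (nat_lit 8) (nat_lit 10))
    (@En.n l13404 (nat_lit 917) (nat_lit 7) (nat_lit 7))
    (@En.n l55 (nat_lit 5282) (nat_lit 9) (nat_lit 10))
    (@En.n l11 (nat_lit 4837) (nat_lit 10) (nat_lit 11))
    (@En.n l5408 (nat_lit 3189) (nat_lit 10) (nat_lit 3))
    (@En.n l13405 (nat_lit 1864) (nat_lit 8) (nat_lit 10))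
    (@En.i (nat_lit 3190) (nat_lit 13) (nat_lit 7))
    (@En.n l5408 (nat_lit 9048) (nat_lit 14) (nat_lit 13))
    (@En.n l4600 (nat_lit 1994) (nat_lit 3) (nat_lit 9))
    (@En.n l18 (nat_lit 3188) (nat_lit 15) (nat_lit 2))))
  (@Cl.mk (nat_lit 0x20009000d000900080003000b000a0007000a0007000500080006000e0006) (nat_lit 0x155208108004060) (nat_lit 16) Lb.e (@T16.mk En
    (@En.n l19308 (nat_lit 1993) (nat_lit 5) (nat_lit 6))
    (@En.n l27022 (nat_lit 3410) (nat_lit 1) (nat_lit 14))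
    (@En.n l27023 (nat_lit 7753) (nat_lit 2) (nat_lit 6))
    (@En.n l3517 (nat_lit 3193) (nat_lit 3) (nat_lit 8))
    (@En.n l27023 (nat_lit 3127) (nat_lit 4) (nat_lit 5))
    (@En.i (nat_lit 9485) (nat_lit 5) (nat_lit 7))
    (@En.n l19308 (nat_lit 4465) (nat_lit 8) (nat_lit 10))
    (@En.n l27024 (nat_lit 1298) (nat_lit 7) (nat_lit 7))
    (@En.n l27025 (nat_lit 1736) (nat_lit 9) (nat_lit 10))
    (@En.n l27026 (nat_lit 3190) (nat_lit 10) (nat_lit 11))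
    (@En.n l27027 (nat_lit 3188) (nat_lit 10) (nat_lit 3))
    (@En.n l9155 (nat_lit 2001) (nat_lit 12) (nat_lit 8))
    (@En.n l18831 (nat_lit 1987) (nat_lit 13) (nat_lit 9))
    (@En.i (nat_lit 9047) (nat_lit 14) (nat_lit 13))
    (@En.n l22686 (nat_lit 1993) (nat_lit 3) (nat_lit 9))
    (@En.n l7 (nat_lit 3189) (nat_lit 15) (nat_lit 2))))
  (@Cl.mk (nat_lit 0x2000a0007000a0008000b00090006000900060005000900080007000e0007) (nat_lit 0x105275070005070) (nat_lit 16) Lb.e (@T16.mk En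
    (@En.n l7 (nat_lit 1997) (nat_lit 2) (nat_lit 7))
    (@En.n l27112 (nat_lit 4532) (nat_lit 1) (nat_lit 14))
    (@En.n l1770 (nat_lit 4656) (nat_lit 2) (nat_lit 7))
    (@En.n l27113 (nat_lit 3189) (nat_lit 3) (nat_lit 8))
    (@En.n l1157 (nat_lit 3191) (nat_lit 4) (nat_lit 9))
    (@En.i (nat_lit 3130) (nat_lit 5) (nat_lit 5))
    (@En.n l27114 (nat_lit 9486) (nat_lit 6) (nat_lit 6))
    (@En.i (nat_lit 4464) (nat_lit 9) (nat_lit 9))
    (@En.n l5139 (nat_lit 1302) (nat_lit 8) (nat_lit 6))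
    (@En.n l9938 (nat_lit 5287) (nat_lit 10) (nat_lit 9))
    (@En.n l27112 (nat_lit 5223) (nat_lit 7) (nat_lit 11))
    (@En.n l22284 (nat_lit 1460) (nat_lit 12) (nat_lit 8))
    (@En.n l27112 (nat_lit 1674) (nat_lit 8) (nat_lit 10))
    (@En.n l27115 (nat_lit 11274) (nat_lit 14) (nat_lit 7))
    (@En.n l4600 (nat_lit 1997) (nat_lit 0) (nat_lit 10))
    (@En.n l18 (nat_lit 3190) (nat_lit 15) (nat_lit 2))))
  (@Cl.mk (nat_lit 0x200090007000d000a00090003000a0007000a0006000900070006000e0006) (nat_lit 0x106630608070070) (nat_lit 16) Lb.e (@T16.mk En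
    (@En.n l37270 (nat_lit 3131) (nat_lit 6) (nat_lit 6))
    (@En.n l37271 (nat_lit 3423) (nat_lit 1) (nat_lit 14))
    (@En.n l37272 (nat_lit 7808) (nat_lit 2) (nat_lit 6))
    (@En.n l551 (nat_lit 3192) (nat_lit 3) (nat_lit 7))
    (@En.n l1483 (nat_lit 3321) (nat_lit 4) (nat_lit 9))
    (@En.n l30801 (nat_lit 9487) (nat_lit 5) (nat_lit 6))
    (@En.i (nat_lit 4463) (nat_lit 8) (nat_lit 10))
    (@En.n l37273 (nat_lit 919) (nat_lit 7) (nat_lit 7))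
    (@En.n l9938 (nat_lit 5284) (nat_lit 9) (nat_lit 10))
    (@En.n l11 (nat_lit 3130) (nat_lit 9) (nat_lit 3))
    (@En.n l37274 (nat_lit 2003) (nat_lit 0) (nat_lit 9))
    (@En.i (nat_lit 3190) (nat_lit 12) (nat_lit 10))
    (@En.n l30801 (nat_lit 3189) (nat_lit 13) (nat_lit 13))
    (@En.n l25484 (nat_lit 11273) (nat_lit 14) (nat_lit 7))
    (@En.n l37275 (nat_lit 3131) (nat_lit 4) (nat_lit 9))
    (@En.n l18 (nat_lit 3191) (nat_lit 15) (nat_lit 2))))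
  (@Cl.mk (nat_lit 0x20008000c000c0009000900040004000b0008000b000700070005000e0005) (nat_lit 0x58630031200060) (nat_lit 16) Lb.e (@T16.mk En
    (@En.n l29455 (nat_lit 3194) (nat_lit 6) (nat_lit 5))
    (@En.n l29456 (nat_lit 3373) (nat_lit 1) (nat_lit 14))
    (@En.n l2818 (nat_lit 7757) (nat_lit 2) (nat_lit 5))
    (@En.n l25698 (nat_lit 3200) (nat_lit 9) (nat_lit 7))
    (@En.i (nat_lit 9503) (nat_lit 4) (nat_lit 7))
    (@En.n l4939 (nat_lit 3035) (nat_lit 7) (nat_lit 11))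
    (@En.n l29457 (nat_lit 991) (nat_lit 6) (nat_lit 8))
    (@En.n l25699 (nat_lit 5278) (nat_lit 8) (nat_lit 11))
    (@En.n l29458 (nat_lit 3196) (nat_lit 8) (nat_lit 4))
    (@En.n l4939 (nat_lit 3129) (nat_lit 9) (nat_lit 4))
    (@En.n l1097 (nat_lit 2005) (nat_lit 7) (nat_lit 9))
    (@En.n l2824 (nat_lit 3189) (nat_lit 12) (nat_lit 9))
    (@En.n l2691 (nat_lit 3193) (nat_lit 13) (nat_lit 12))
    (@En.n l29459 (nat_lit 9117) (nat_lit 14) (nat_lit 12))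
    (@En.n l29460 (nat_lit 3194) (nat_lit 4) (nat_lit 8))
    (@En.n l18 (nat_lit 3192) (nat_lit 15) (nat_lit 2))))
  (@Cl.mk (nat_lit 0x20008000c00080008000e00040002000b0008000b000800080005000e0005) (nat_lit 0x752c0041233010) (nat_lit 16) Lb.e (@T16.mk En
    (@En.n l26607 (nat_lit 3195) (nat_lit 7) (nat_lit 5))
    (@En.n l33300 (nat_lit 69) (nat_lit 1) (nat_lit 14))
    (@En.n l133 (nat_lit 7900) (nat_lit 2) (nat_lit 5))
    (@En.n l22160 (nat_lit 3468) (nat_lit 3) (nat_lit 8))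
    (@En.i (nat_lit 9502) (nat_lit 4) (nat_lit 8))
    (@En.n l9871 (nat_lit 3036) (nat_lit 7) (nat_lit 11))
    (@En.n l25601 (nat_lit 616) (nat_lit 6) (nat_lit 8))
    (@En.n l5377 (nat_lit 5275) (nat_lit 8) (nat_lit 11))
    (@En.n l11 (nat_lit 3193) (nat_lit 8) (nat_lit 2))
    (@En.n l1992 (nat_lit 3192) (nat_lit 9) (nat_lit 4))
    (@En.n l9871 (nat_lit 3117) (nat_lit 11) (nat_lit 14))
    (@En.n l253 (nat_lit 2006) (nat_lit 8) (nat_lit 8))
    (@En.n l33301 (nat_lit 1991) (nat_lit 13) (nat_lit 8))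
    (@En.n l2125 (nat_lit 9111) (nat_lit 14) (nat_lit 12))
    (@En.n l26611 (nat_lit 3195) (nat_lit 5) (nat_lit 8))
    (@En.n l18 (nat_lit 3193) (nat_lit 15) (nat_lit 2))))
  (@Cl.mk (nat_lit 0x40004000a0008000b000b000800080006000500050008000c000c00080008) (nat_lit 0x81134500064753) (nat_lit 16) Lb.e (@T16.mk En
    (@En.n l9272 (nat_lit 2007) (nat_lit 8) (nat_lit 8))
    (@En.n l30090 (nat_lit 1993) (nat_lit 1) (nat_lit 8))
    (@En.n l55 (nat_lit 3195) (nat_lit 4) (nat_lit 12))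
    (@En.i (nat_lit 9108) (nat_lit 7) (nat_lit 12))
    (@En.n l30091 (nat_lit 3198) (nat_lit 10) (nat_lit 8))
    (@En.n l30092 (nat_lit 3198) (nat_lit 11) (nat_lit 5))
    (@En.i (nat_lit 2753) (nat_lit 11) (nat_lit 5))
    (@En.n l30093 (nat_lit 7755) (nat_lit 0) (nat_lit 6))
    (@En.n l9279 (nat_lit 3199) (nat_lit 8) (nat_lit 8))
    (@En.n l26614 (nat_lit 9421) (nat_lit 2) (nat_lit 8))
    (@En.n l30094 (nat_lit 3192) (nat_lit 5) (nat_lit 11))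
    (@En.n l30095 (nat_lit 2914) (nat_lit 7) (nat_lit 11))
    (@En.n l30096 (nat_lit 625) (nat_lit 13) (nat_lit 8))
    (@En.n l30097 (nat_lit 5265) (nat_lit 14) (nat_lit 10))
    (@En.n l30098 (nat_lit 3197) (nat_lit 12) (nat_lit 4))
    (@En.n l22921 (nat_lit 3122) (nat_lit 0) (nat_lit 4))))
  (@Cl.mk (nat_lit 0x2000a0008000b000b000900090006000500050008000c00070007000e0004) (nat_lit 0x811345000660010) (nat_lit 16) Lb.e (@T16.mk En
    (@En.i (nat_lit 3194) (nat_lit 15) (nat_lit 4))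
    (@En.n l26612 (nat_lit 876) (nat_lit 1) (nat_lit 14))
    (@En.n l9272 (nat_lit 2004) (nat_lit 9) (nat_lit 7))
    (@En.n l26613 (nat_lit 1986) (nat_lit 3) (nat_lit 7))
    (@En.i (nat_lit 9105) (nat_lit 5) (nat_lit 12))
    (@En.n l2196 (nat_lit 3208) (nat_lit 5) (nat_lit 8))
    (@En.n l217 (nat_lit 3208) (nat_lit 6) (nat_lit 5))
    (@En.i (nat_lit 3475) (nat_lit 7) (nat_lit 5))
    (@En.n l12805 (nat_lit 7898) (nat_lit 8) (nat_lit 6))
    (@En.n l9279 (nat_lit 3206) (nat_lit 10) (nat_lit 9))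
    (@En.n l26614 (nat_lit 9419) (nat_lit 11) (nat_lit 9))
    (@En.n l12808 (nat_lit 3193) (nat_lit 5) (nat_lit 11))
    (@En.n l26612 (nat_lit 2979) (nat_lit 13) (nat_lit 11))
    (@En.n l9275 (nat_lit 617) (nat_lit 14) (nat_lit 8))
    (@En.n l12811 (nat_lit 5245) (nat_lit 14) (nat_lit 10))
    (@En.n l28 (nat_lit 3195) (nat_lit 15) (nat_lit 2))))
  (@Cl.mk (nat_lit 0x20008000e000c0002000a000a0004000b0008000b000600060005000e0005) (nat_lit 0x66074031200060) (nat_lit 16) Lb.e (@T16.mk En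
    (@En.n l22830 (nat_lit 3197) (nat_lit 4) (nat_lit 5))
    (@En.n l134 (nat_lit 3394) (nat_lit 1) (nat_lit 14))
    (@En.n l9938 (nat_lit 7760) (nat_lit 2) (nat_lit 5))
    (@En.n l5761 (nat_lit 3201) (nat_lit 10) (nat_lit 6))
    (@En.n l22831 (nat_lit 9504) (nat_lit 4) (nat_lit 6))
    (@En.i (nat_lit 2904) (nat_lit 10) (nat_lit 11))
    (@En.n l532 (nat_lit 992) (nat_lit 6) (nat_lit 8))
    (@En.i (nat_lit 5197) (nat_lit 8) (nat_lit 11))
    (@En.n l5276 (nat_lit 3127) (nat_lit 8) (nat_lit 4))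
    (@En.n l9940 (nat_lit 2008) (nat_lit 6) (nat_lit 10))
    (@En.n l11357 (nat_lit 3191) (nat_lit 11) (nat_lit 10))
    (@En.n l17 (nat_lit 3196) (nat_lit 11) (nat_lit 2))
    (@En.n l14274 (nat_lit 3192) (nat_lit 13) (nat_lit 12))
    (@En.n l2152 (nat_lit 6377) (nat_lit 1) (nat_lit 14))
    (@En.n l22832 (nat_lit 3197) (nat_lit 2) (nat_lit 8))
    (@En.n l7 (nat_lit 3196) (nat_lit 15) (nat_lit 2))))
  (@Cl.mk (nat_lit 0x2000900090004000a0008000b000b000700070006000500050008000e000c) (nat_lit 0x640811300000635) (nat_lit 16) Lb.e (@T16.mk En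
    (@En.n l20435 (nat_lit 3194) (nat_lit 3) (nat_lit 12))
    (@En.n l227 (nat_lit 9224) (nat_lit 1) (nat_lit 14))
    (@En.n l20436 (nat_lit 3205) (nat_lit 2) (nat_lit 8))
    (@En.n l20437 (nat_lit 3205) (nat_lit 3) (nat_lit 5))
    (@En.n l7297 (nat_lit 2752) (nat_lit 4) (nat_lit 5))
    (@En.i (nat_lit 7758) (nat_lit 5) (nat_lit 6))
    (@En.n l20438 (nat_lit 3202) (nat_lit 9) (nat_lit 7))
    (@En.n l20439 (nat_lit 9506) (nat_lit 7) (nat_lit 7))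
    (@En.n l20440 (nat_lit 3196) (nat_lit 5) (nat_lit 11))
    (@En.n l20441 (nat_lit 2907) (nat_lit 10) (nat_lit 11))
    (@En.n l20442 (nat_lit 994) (nat_lit 11) (nat_lit 8))
    (@En.n l20441 (nat_lit 5196) (nat_lit 12) (nat_lit 10))
    (@En.n l20443 (nat_lit 3124) (nat_lit 13) (nat_lit 4))
    (@En.n l20444 (nat_lit 2009) (nat_lit 7) (nat_lit 9))
    (@En.i (nat_lit 3131) (nat_lit 1) (nat_lit 9))
    (@En.n l7 (nat_lit 3197) (nat_lit 15) (nat_lit 2))))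
  (@Cl.mk (nat_lit 0x200090009000700050008000c000c000700070004000400090008000e000b) (nat_lit 0x640053600003122) (nat_lit 16) Lb.e (@T16.mk En
    (@En.n l19286 (nat_lit 3194) (nat_lit 11) (nat_lit 11))
    (@En.n l28833 (nat_lit 3220) (nat_lit 1) (nat_lit 14))
    (@En.i (nat_lit 1228) (nat_lit 2) (nat_lit 8))
    (@En.n l28834 (nat_lit 5264) (nat_lit 3) (nat_lit 9))
    (@En.n l5760 (nat_lit 3205) (nat_lit 12) (nat_lit 4))
    (@En.n l28835 (nat_lit 3121) (nat_lit 5) (nat_lit 4))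
    (@En.n l28836 (nat_lit 2010) (nat_lit 9) (nat_lit 7))
    (@En.n l28837 (nat_lit 1995) (nat_lit 7) (nat_lit 7))
    (@En.n l19282 (nat_lit 3208) (nat_lit 4) (nat_lit 12))
    (@En.n l19286 (nat_lit 9181) (nat_lit 10) (nat_lit 12))
    (@En.n l5582 (nat_lit 13236) (nat_lit 10) (nat_lit 8))
    (@En.n l19286 (nat_lit 2751) (nat_lit 12) (nat_lit 5))
    (@En.n l10230 (nat_lit 7756) (nat_lit 13) (nat_lit 7))
    (@En.n l28838 (nat_lit 3203) (nat_lit 7) (nat_lit 9))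
    (@En.i (nat_lit 9420) (nat_lit 2) (nat_lit 9))
    (@En.n l50 (nat_lit 3198) (nat_lit 15) (nat_lit 2))))
  (@Cl.mk (nat_lit 0x200050005000b0009000c000c00080005000400040007000b000b000e0008) (nat_lit 0x9513400005606) (nat_lit 16) Lb.e (@T16.mk En
    (@En.n l3147 (nat_lit 3194) (nat_lit 1) (nat_lit 8))
    (@En.n l3 (nat_lit 3206) (nat_lit 4) (nat_lit 14))
    (@En.n l527 (nat_lit 3206) (nat_lit 5) (nat_lit 11))
    (@En.i (nat_lit 7690) (nat_lit 3) (nat_lit 11))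
    (@En.n l21394 (nat_lit 3203) (nat_lit 4) (nat_lit 7))
    (@En.n l31496 (nat_lit 3203) (nat_lit 5) (nat_lit 4))
    (@En.i (nat_lit 1366) (nat_lit 6) (nat_lit 4))
    (@En.n l31497 (nat_lit 600) (nat_lit 7) (nat_lit 5))
    (@En.n l2337 (nat_lit 4455) (nat_lit 9) (nat_lit 8))
    (@En.n l31498 (nat_lit 3200) (nat_lit 10) (nat_lit 12))
    (@En.n l31497 (nat_lit 2903) (nat_lit 11) (nat_lit 12))
    (@En.n l6700 (nat_lit 996) (nat_lit 12) (nat_lit 9))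
    (@En.n l31499 (nat_lit 4642) (nat_lit 13) (nat_lit 11))
    (@En.n l31500 (nat_lit 3202) (nat_lit 14) (nat_lit 5))
    (@En.n l31497 (nat_lit 3213) (nat_lit 13) (nat_lit 5))
    (@En.n l17 (nat_lit 3199) (nat_lit 15) (nat_lit 2))))
noncomputable def a200 : T16 Cl := @T16.mk Cl
  (@Cl.mk (nat_lit 0x200050005000c0009000c00070004000e000400020007000b000b000e0009) (nat_lit 0xa420050006737) (nat_lit 16) Lb.e (@T16.mk En
    (@En.n l12901 (nat_lit 3192) (nat_lit 11) (nat_lit 9))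
    (@En.n l17600 (nat_lit 3468) (nat_lit 12) (nat_lit 14))
    (@En.n l17601 (nat_lit 3468) (nat_lit 13) (nat_lit 11))
    (@En.n l7198 (nat_lit 8232) (nat_lit 3) (nat_lit 11))
    (@En.n l33298 (nat_lit 3199) (nat_lit 4) (nat_lit 7))
    (@En.n l18 (nat_lit 3200) (nat_lit 5) (nat_lit 2))
    (@En.n l33299 (nat_lit 3199) (nat_lit 6) (nat_lit 4))
    (@En.n l4003 (nat_lit 3387) (nat_lit 8) (nat_lit 14))
    (@En.n l7 (nat_lit 604) (nat_lit 8) (nat_lit 4))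
    (@En.n l7198 (nat_lit 6624) (nat_lit 3) (nat_lit 7))
    (@En.i (nat_lit 2900) (nat_lit 11) (nat_lit 12))
    (@En.n l8402 (nat_lit 997) (nat_lit 12) (nat_lit 9))
    (@En.n l645 (nat_lit 5277) (nat_lit 13) (nat_lit 12))
    (@En.n l4252 (nat_lit 3201) (nat_lit 14) (nat_lit 5))
    (@En.i (nat_lit 3735) (nat_lit 8) (nat_lit 5))
    (@En.n l936 (nat_lit 3200) (nat_lit 15) (nat_lit 2))))
  (@Cl.mk (nat_lit 0x20005000c0009000c00060004000e000400020007000e000b0002000e000a) (nat_lit 0xa3200500087048) (nat_lit 16) Lb.e (@T16.mk En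
    (@En.n l766 (nat_lit 3196) (nat_lit 10) (nat_lit 10))
    (@En.n l1203 (nat_lit 3200) (nat_lit 1) (nat_lit 14))
    (@En.n l18 (nat_lit 3201) (nat_lit 2) (nat_lit 2))
    (@En.n l1326 (nat_lit 3200) (nat_lit 3) (nat_lit 11))
    (@En.n l5366 (nat_lit 10118) (nat_lit 5) (nat_lit 14))
    (@En.n l3100 (nat_lit 3202) (nat_lit 5) (nat_lit 7))
    (@En.n l28 (nat_lit 3201) (nat_lit 6) (nat_lit 2))
    (@En.n l5611 (nat_lit 3202) (nat_lit 7) (nat_lit 4))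
    (@En.i (nat_lit 3372) (nat_lit 9) (nat_lit 14))
    (@En.n l5366 (nat_lit 608) (nat_lit 9) (nat_lit 4))
    (@En.i (nat_lit 6627) (nat_lit 3) (nat_lit 6))
    (@En.i (nat_lit 2899) (nat_lit 12) (nat_lit 12))
    (@En.n l2593 (nat_lit 995) (nat_lit 13) (nat_lit 9))
    (@En.n l766 (nat_lit 6016) (nat_lit 7) (nat_lit 12))
    (@En.n l1326 (nat_lit 3737) (nat_lit 7) (nat_lit 5))
    (@En.n l3 (nat_lit 3201) (nat_lit 15) (nat_lit 2))))
  (@Cl.mk (nat_lit 0x20005000b0009000c000c00070005000400040007000e000b0002000e0009) (nat_lit 0x93130000086017) (nat_lit 16) Lb.e (@T16.mk En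
    (@En.n l24710 (nat_lit 3197) (nat_lit 14) (nat_lit 9))
    (@En.n l15669 (nat_lit 3199) (nat_lit 1) (nat_lit 14))
    (@En.n l18 (nat_lit 3202) (nat_lit 2) (nat_lit 2))
    (@En.n l24711 (nat_lit 3199) (nat_lit 3) (nat_lit 11))
    (@En.n l5231 (nat_lit 9035) (nat_lit 5) (nat_lit 14))
    (@En.n l11 (nat_lit 3204) (nat_lit 5) (nat_lit 7))
    (@En.n l55 (nat_lit 3204) (nat_lit 6) (nat_lit 4))
    (@En.n l9311 (nat_lit 2744) (nat_lit 7) (nat_lit 4))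
    (@En.n l5231 (nat_lit 606) (nat_lit 8) (nat_lit 5))
    (@En.i (nat_lit 4453) (nat_lit 6) (nat_lit 7))
    (@En.n l6697 (nat_lit 3201) (nat_lit 11) (nat_lit 12))
    (@En.n l6698 (nat_lit 2902) (nat_lit 12) (nat_lit 12))
    (@En.n l2593 (nat_lit 998) (nat_lit 13) (nat_lit 9))
    (@En.n l1253 (nat_lit 5201) (nat_lit 14) (nat_lit 11))
    (@En.n l14951 (nat_lit 862) (nat_lit 13) (nat_lit 5))
    (@En.n l3 (nat_lit 3202) (nat_lit 15) (nat_lit 2))))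
  (@Cl.mk (nat_lit 0x200050005000a0009000e000c00020009000600040007000b000b000e0007) (nat_lit 0x7422030004500) (nat_lit 16) Lb.e (@T16.mk En
    (@En.n l37488 (nat_lit 3198) (nat_lit 7) (nat_lit 7))
    (@En.n l14644 (nat_lit 3207) (nat_lit 9) (nat_lit 14))
    (@En.n l15668 (nat_lit 3207) (nat_lit 10) (nat_lit 11))
    (@En.n l7563 (nat_lit 7684) (nat_lit 3) (nat_lit 11))
    (@En.i (nat_lit 13247) (nat_lit 11) (nat_lit 7))
    (@En.n l7563 (nat_lit 2746) (nat_lit 5) (nat_lit 4))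
    (@En.n l1253 (nat_lit 605) (nat_lit 6) (nat_lit 6))
    (@En.i (nat_lit 4456) (nat_lit 8) (nat_lit 9))
    (@En.n l28 (nat_lit 3203) (nat_lit 8) (nat_lit 2))
    (@En.n l15669 (nat_lit 3199) (nat_lit 10) (nat_lit 12))
    (@En.n l1578 (nat_lit 2973) (nat_lit 11) (nat_lit 14))
    (@En.n l2593 (nat_lit 1243) (nat_lit 12) (nat_lit 9))
    (@En.n l1253 (nat_lit 5266) (nat_lit 13) (nat_lit 10))
    (@En.n l17 (nat_lit 3204) (nat_lit 14) (nat_lit 5))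
    (@En.n l9385 (nat_lit 3209) (nat_lit 13) (nat_lit 5))
    (@En.n l3 (nat_lit 3203) (nat_lit 15) (nat_lit 2))))
  (@Cl.mk (nat_lit 0x20005000a0009000e000c00020008000600040007000e000b0002000e0008) (nat_lit 0x43220300085016) (nat_lit 16) Lb.e (@T16.mk En
    (@En.n l5347 (nat_lit 3205) (nat_lit 14) (nat_lit 8))
    (@En.i (nat_lit 3203) (nat_lit 1) (nat_lit 14))
    (@En.n l18 (nat_lit 3204) (nat_lit 2) (nat_lit 2))
    (@En.n l5 (nat_lit 3203) (nat_lit 3) (nat_lit 11))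
    (@En.n l15197 (nat_lit 9320) (nat_lit 5) (nat_lit 14))
    (@En.i (nat_lit 13249) (nat_lit 11) (nat_lit 7))
    (@En.n l3260 (nat_lit 2743) (nat_lit 6) (nat_lit 4))
    (@En.n l1253 (nat_lit 607) (nat_lit 7) (nat_lit 6))
    (@En.i (nat_lit 4454) (nat_lit 5) (nat_lit 8))
    (@En.n l28 (nat_lit 3204) (nat_lit 9) (nat_lit 2))
    (@En.i (nat_lit 3202) (nat_lit 11) (nat_lit 12))
    (@En.n l1578 (nat_lit 3230) (nat_lit 12) (nat_lit 14))
    (@En.n l2593 (nat_lit 1003) (nat_lit 13) (nat_lit 9))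
    (@En.n l1253 (nat_lit 6017) (nat_lit 3) (nat_lit 10))
    (@En.n l253 (nat_lit 3211) (nat_lit 4) (nat_lit 5))
    (@En.n l3 (nat_lit 3204) (nat_lit 15) (nat_lit 2))))
  (@Cl.mk (nat_lit 0x200080008000400090008000e000b000200080008000700050008000e000c) (nat_lit 0x530312205400524) (nat_lit 16) Lb.e (@T16.mk En
    (@En.n l9926 (nat_lit 3198) (nat_lit 9) (nat_lit 12))
    (@En.n l134 (nat_lit 8966) (nat_lit 10) (nat_lit 14))
    (@En.n l9582 (nat_lit 13251) (nat_lit 10) (nat_lit 8))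
    (@En.n l20468 (nat_lit 2748) (nat_lit 3) (nat_lit 5))
    (@En.n l20469 (nat_lit 7759) (nat_lit 4) (nat_lit 7))
    (@En.n l1780 (nat_lit 3204) (nat_lit 8) (nat_lit 8))
    (@En.n l6081 (nat_lit 9507) (nat_lit 6) (nat_lit 8))
    (@En.n l3 (nat_lit 3205) (nat_lit 7) (nat_lit 2))
    (@En.n l20470 (nat_lit 3197) (nat_lit 9) (nat_lit 11))
    (@En.n l9059 (nat_lit 3221) (nat_lit 10) (nat_lit 14))
    (@En.i (nat_lit 1242) (nat_lit 2) (nat_lit 8))
    (@En.n l20471 (nat_lit 5198) (nat_lit 3) (nat_lit 9))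
    (@En.n l3348 (nat_lit 3123) (nat_lit 4) (nat_lit 4))
    (@En.n l61 (nat_lit 3216) (nat_lit 14) (nat_lit 8))
    (@En.n l20472 (nat_lit 4362) (nat_lit 6) (nat_lit 8))
    (@En.n l7 (nat_lit 3205) (nat_lit 15) (nat_lit 2))))
  (@Cl.mk (nat_lit 0x2000b0009000c000c00090005000400040007000b000e00070002000e0005) (nat_lit 0x952a400005c0020) (nat_lit 16) Lb.e (@T16.mk En
    (@En.i (nat_lit 3199) (nat_lit 14) (nat_lit 5))
    (@En.n l97 (nat_lit 3212) (nat_lit 1) (nat_lit 14))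
    (@En.n l17 (nat_lit 3206) (nat_lit 2) (nat_lit 2))
    (@En.n l3147 (nat_lit 3195) (nat_lit 3) (nat_lit 7))
    (@En.i (nat_lit 13403) (nat_lit 4) (nat_lit 14))
    (@En.i (nat_lit 7689) (nat_lit 2) (nat_lit 11))
    (@En.n l612 (nat_lit 3207) (nat_lit 11) (nat_lit 7))
    (@En.n l3787 (nat_lit 3207) (nat_lit 12) (nat_lit 4))
    (@En.i (nat_lit 3469) (nat_lit 8) (nat_lit 4))
    (@En.n l2081 (nat_lit 603) (nat_lit 9) (nat_lit 5))
    (@En.n l2337 (nat_lit 4461) (nat_lit 11) (nat_lit 9))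
    (@En.n l601 (nat_lit 3468) (nat_lit 4) (nat_lit 12))
    (@En.n l16521 (nat_lit 2988) (nat_lit 6) (nat_lit 12))
    (@En.i (nat_lit 1354) (nat_lit 14) (nat_lit 9))
    (@En.i (nat_lit 4643) (nat_lit 12) (nat_lit 11))
    (@En.n l107 (nat_lit 3206) (nat_lit 15) (nat_lit 2))))
  (@Cl.mk (nat_lit 0x2000a000600040007000b000e00060002000e00050002000a0009000e000c) (nat_lit 0x30004c008008523) (nat_lit 16) Lb.e (@T16.mk En
    (@En.n l644 (nat_lit 3206) (nat_lit 12) (nat_lit 12))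
    (@En.n l1498 (nat_lit 2975) (nat_lit 13) (nat_lit 14))
    (@En.n l21677 (nat_lit 1356) (nat_lit 2) (nat_lit 9))
    (@En.n l7262 (nat_lit 5267) (nat_lit 12) (nat_lit 10))
    (@En.n l107 (nat_lit 3207) (nat_lit 4) (nat_lit 2))
    (@En.n l15234 (nat_lit 3203) (nat_lit 14) (nat_lit 5))
    (@En.n l97 (nat_lit 3210) (nat_lit 1) (nat_lit 14))
    (@En.n l17 (nat_lit 3207) (nat_lit 7) (nat_lit 2))
    (@En.n l3098 (nat_lit 3208) (nat_lit 3) (nat_lit 6))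
    (@En.n l433 (nat_lit 13405) (nat_lit 4) (nat_lit 14))
    (@En.i (nat_lit 7685) (nat_lit 11) (nat_lit 11))
    (@En.n l433 (nat_lit 13248) (nat_lit 11) (nat_lit 7))
    (@En.i (nat_lit 3470) (nat_lit 7) (nat_lit 4))
    (@En.n l7262 (nat_lit 602) (nat_lit 14) (nat_lit 6))
    (@En.n l3699 (nat_lit 4459) (nat_lit 10) (nat_lit 10))
    (@En.n l7 (nat_lit 3207) (nat_lit 15) (nat_lit 2))))
  (@Cl.mk (nat_lit 0x200090008000e000b0002000a000a000700050008000c00060006000e0004) (nat_lit 0x412206400550050) (nat_lit 16) Lb.e (@T16.mk En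
    (@En.n l14670 (nat_lit 3198) (nat_lit 5) (nat_lit 4))
    (@En.n l11793 (nat_lit 3104) (nat_lit 1) (nat_lit 14))
    (@En.n l152 (nat_lit 2011) (nat_lit 10) (nat_lit 6))
    (@En.n l27261 (nat_lit 1990) (nat_lit 3) (nat_lit 6))
    (@En.i (nat_lit 7695) (nat_lit 10) (nat_lit 12))
    (@En.n l7055 (nat_lit 13239) (nat_lit 10) (nat_lit 8))
    (@En.i (nat_lit 3474) (nat_lit 6) (nat_lit 5))
    (@En.n l26601 (nat_lit 7899) (nat_lit 7) (nat_lit 7))
    (@En.n l3536 (nat_lit 3207) (nat_lit 14) (nat_lit 10))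
    (@En.n l27262 (nat_lit 9418) (nat_lit 10) (nat_lit 10))
    (@En.n l18 (nat_lit 3208) (nat_lit 10) (nat_lit 2))
    (@En.i (nat_lit 3195) (nat_lit 12) (nat_lit 11))
    (@En.n l2197 (nat_lit 3222) (nat_lit 13) (nat_lit 14))
    (@En.n l9275 (nat_lit 621) (nat_lit 14) (nat_lit 8))
    (@En.n l9556 (nat_lit 5262) (nat_lit 3) (nat_lit 9))
    (@En.n l28 (nat_lit 3208) (nat_lit 15) (nat_lit 2))))
  (@Cl.mk (nat_lit 0x2000800050004000a0009000e000c00020008000600040007000b000e000c) (nat_lit 0x600642004000491) (nat_lit 16) Lb.e (@T16.mk En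
    (@En.n l68 (nat_lit 863) (nat_lit 9) (nat_lit 12))
    (@En.n l12850 (nat_lit 3204) (nat_lit 4) (nat_lit 14))
    (@En.n l9745 (nat_lit 8524) (nat_lit 2) (nat_lit 11))
    (@En.n l699 (nat_lit 13285) (nat_lit 11) (nat_lit 7))
    (@En.n l9745 (nat_lit 4252) (nat_lit 4) (nat_lit 4))
    (@En.i (nat_lit 547) (nat_lit 14) (nat_lit 6))
    (@En.n l890 (nat_lit 6193) (nat_lit 6) (nat_lit 8))
    (@En.n l18 (nat_lit 3209) (nat_lit 7) (nat_lit 2))
    (@En.n l1708 (nat_lit 3213) (nat_lit 9) (nat_lit 12))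
    (@En.n l1063 (nat_lit 1374) (nat_lit 10) (nat_lit 14))
    (@En.n l890 (nat_lit 1018) (nat_lit 2) (nat_lit 9))
    (@En.n l645 (nat_lit 7577) (nat_lit 3) (nat_lit 10))
    (@En.i (nat_lit 856) (nat_lit 4) (nat_lit 4))
    (@En.n l9744 (nat_lit 3214) (nat_lit 14) (nat_lit 5))
    (@En.n l9745 (nat_lit 3121) (nat_lit 6) (nat_lit 8))
    (@En.n l67 (nat_lit 3209) (nat_lit 15) (nat_lit 2))))
  (@Cl.mk (nat_lit 0x20005000a0009000e000c0002000a000600040007000c000b0006000e0004) (nat_lit 0x812005000a5070) (nat_lit 16) Lb.e (@T16.mk En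
    (@En.n l24897 (nat_lit 863) (nat_lit 6) (nat_lit 4))
    (@En.n l24898 (nat_lit 3211) (nat_lit 8) (nat_lit 14))
    (@En.n l10665 (nat_lit 3104) (nat_lit 2) (nat_lit 6))
    (@En.i (nat_lit 3214) (nat_lit 3) (nat_lit 11))
    (@En.n l117 (nat_lit 10526) (nat_lit 11) (nat_lit 12))
    (@En.n l24899 (nat_lit 13282) (nat_lit 11) (nat_lit 7))
    (@En.i (nat_lit 3858) (nat_lit 6) (nat_lit 4))
    (@En.n l24900 (nat_lit 598) (nat_lit 7) (nat_lit 6))
    (@En.n l24901 (nat_lit 6662) (nat_lit 9) (nat_lit 10))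
    (@En.n l7 (nat_lit 3210) (nat_lit 9) (nat_lit 2))
    (@En.n l644 (nat_lit 3212) (nat_lit 11) (nat_lit 12))
    (@En.n l9450 (nat_lit 1375) (nat_lit 12) (nat_lit 14))
    (@En.n l21676 (nat_lit 362) (nat_lit 13) (nat_lit 9))
    (@En.n l24898 (nat_lit 7506) (nat_lit 3) (nat_lit 10))
    (@En.n l24902 (nat_lit 3203) (nat_lit 13) (nat_lit 5))
    (@En.n l3 (nat_lit 3210) (nat_lit 15) (nat_lit 2))))
  (@Cl.mk (nat_lit 0x20007000600040007000d000b000e0003000200090005000a0009000e000c) (nat_lit 0xb5600708121) (nat_lit 16) Lb.e (@T16.mk En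
    (@En.n l32368 (nat_lit 862) (nat_lit 10) (nat_lit 12))
    (@En.n l1578 (nat_lit 1379) (nat_lit 11) (nat_lit 14))
    (@En.n l4758 (nat_lit 363) (nat_lit 2) (nat_lit 9))
    (@En.i (nat_lit 5930) (nat_lit 3) (nat_lit 10))
    (@En.n l32369 (nat_lit 3210) (nat_lit 14) (nat_lit 5))
    (@En.n l31315 (nat_lit 3123) (nat_lit 5) (nat_lit 9))
    (@En.n l17 (nat_lit 3211) (nat_lit 6) (nat_lit 2))
    (@En.n l8258 (nat_lit 856) (nat_lit 7) (nat_lit 3))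
    (@En.n l476 (nat_lit 12832) (nat_lit 0) (nat_lit 14))
    (@En.n l11107 (nat_lit 3209) (nat_lit 2) (nat_lit 11))
    (@En.n l649 (nat_lit 10524) (nat_lit 11) (nat_lit 13))
    (@En.i (nat_lit 13283) (nat_lit 11) (nat_lit 7))
    (@En.n l32370 (nat_lit 3745) (nat_lit 5) (nat_lit 4))
    (@En.n l152 (nat_lit 512) (nat_lit 14) (nat_lit 6))
    (@En.n l476 (nat_lit 6183) (nat_lit 7) (nat_lit 7))
    (@En.n l28 (nat_lit 3211) (nat_lit 15) (nat_lit 2))))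
  (@Cl.mk (nat_lit 0x20005000b0009000c000c00090005000400040007000c000b0007000e0004) (nat_lit 0x81aa40000a6010) (nat_lit 16) Lb.e (@T16.mk En
    (@En.n l16388 (nat_lit 861) (nat_lit 15) (nat_lit 4))
    (@En.n l6661 (nat_lit 862) (nat_lit 1) (nat_lit 14))
    (@En.n l16389 (nat_lit 876) (nat_lit 2) (nat_lit 7))
    (@En.i (nat_lit 3215) (nat_lit 3) (nat_lit 11))
    (@En.n l117 (nat_lit 6406) (nat_lit 5) (nat_lit 12))
    (@En.n l612 (nat_lit 3210) (nat_lit 5) (nat_lit 7))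
    (@En.n l3787 (nat_lit 3210) (nat_lit 6) (nat_lit 4))
    (@En.i (nat_lit 3739) (nat_lit 7) (nat_lit 4))
    (@En.n l16390 (nat_lit 546) (nat_lit 8) (nat_lit 5))
    (@En.n l2337 (nat_lit 6663) (nat_lit 10) (nat_lit 9))
    (@En.n l16391 (nat_lit 3736) (nat_lit 11) (nat_lit 12))
    (@En.n l6664 (nat_lit 3751) (nat_lit 12) (nat_lit 12))
    (@En.n l16392 (nat_lit 361) (nat_lit 13) (nat_lit 9))
    (@En.n l16393 (nat_lit 7507) (nat_lit 14) (nat_lit 11))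
    (@En.n l107 (nat_lit 3199) (nat_lit 13) (nat_lit 5))
    (@En.n l3 (nat_lit 3212) (nat_lit 15) (nat_lit 2))))
  (@Cl.mk (nat_lit 0x2000900050004000b0009000c000c00070005000400040007000b000e000c) (nat_lit 0x70094aa00000991) (nat_lit 16) Lb.e (@T16.mk En
    (@En.n l68 (nat_lit 861) (nat_lit 2) (nat_lit 12))
    (@En.n l14998 (nat_lit 3202) (nat_lit 4) (nat_lit 14))
    (@En.n l14999 (nat_lit 8526) (nat_lit 2) (nat_lit 11))
    (@En.n l2114 (nat_lit 3209) (nat_lit 3) (nat_lit 7))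
    (@En.n l1959 (nat_lit 3209) (nat_lit 4) (nat_lit 4))
    (@En.n l14999 (nat_lit 3740) (nat_lit 5) (nat_lit 4))
    (@En.i (nat_lit 545) (nat_lit 6) (nat_lit 5))
    (@En.n l4621 (nat_lit 6191) (nat_lit 7) (nat_lit 7))
    (@En.n l2337 (nat_lit 3735) (nat_lit 4) (nat_lit 12))
    (@En.i (nat_lit 3707) (nat_lit 10) (nat_lit 12))
    (@En.n l2019 (nat_lit 1001) (nat_lit 11) (nat_lit 9))
    (@En.n l14829 (nat_lit 7576) (nat_lit 12) (nat_lit 11))
    (@En.i (nat_lit 857) (nat_lit 12) (nat_lit 4))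
    (@En.n l15000 (nat_lit 3215) (nat_lit 14) (nat_lit 5))
    (@En.n l14999 (nat_lit 3122) (nat_lit 1) (nat_lit 9))
    (@En.n l67 (nat_lit 3213) (nat_lit 15) (nat_lit 2))))
  (@Cl.mk (nat_lit 0x200050003000a0009000e000c0002000b000600040007000b0005000e000d) (nat_lit 0x81200800040a2) (nat_lit 16) Lb.e (@T16.mk En
    (@En.n l9448 (nat_lit 3324) (nat_lit 8) (nat_lit 13))
    (@En.n l4164 (nat_lit 3209) (nat_lit 1) (nat_lit 14))
    (@En.n l4165 (nat_lit 3322) (nat_lit 2) (nat_lit 5))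
    (@En.i (nat_lit 8523) (nat_lit 3) (nat_lit 11))
    (@En.n l1501 (nat_lit 13153) (nat_lit 11) (nat_lit 7))
    (@En.i (nat_lit 4258) (nat_lit 5) (nat_lit 4))
    (@En.n l1501 (nat_lit 550) (nat_lit 6) (nat_lit 6))
    (@En.n l3699 (nat_lit 7423) (nat_lit 8) (nat_lit 11))
    (@En.n l7 (nat_lit 3214) (nat_lit 8) (nat_lit 2))
    (@En.n l644 (nat_lit 3215) (nat_lit 10) (nat_lit 12))
    (@En.n l9449 (nat_lit 1369) (nat_lit 11) (nat_lit 14))
    (@En.n l3237 (nat_lit 1008) (nat_lit 12) (nat_lit 9))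
    (@En.n l1501 (nat_lit 5061) (nat_lit 13) (nat_lit 10))
    (@En.n l9450 (nat_lit 3324) (nat_lit 4) (nat_lit 3))
    (@En.i (nat_lit 3207) (nat_lit 5) (nat_lit 5))
    (@En.n l3 (nat_lit 3214) (nat_lit 15) (nat_lit 2))))
  (@Cl.mk (nat_lit 0x200050003000b0009000c000c000a0005000400040007000b0006000e000d) (nat_lit 0x81aa7000050a2) (nat_lit 16) Lb.e (@T16.mk En
    (@En.n l6660 (nat_lit 3323) (nat_lit 2) (nat_lit 13))
    (@En.n l6661 (nat_lit 3213) (nat_lit 1) (nat_lit 14))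
    (@En.n l3948 (nat_lit 3320) (nat_lit 2) (nat_lit 6))
    (@En.i (nat_lit 8527) (nat_lit 3) (nat_lit 11))
    (@En.n l612 (nat_lit 3214) (nat_lit 4) (nat_lit 7))
    (@En.n l3787 (nat_lit 3214) (nat_lit 5) (nat_lit 4))
    (@En.i (nat_lit 3743) (nat_lit 6) (nat_lit 4))
    (@En.n l6662 (nat_lit 549) (nat_lit 7) (nat_lit 5))
    (@En.n l2337 (nat_lit 7326) (nat_lit 9) (nat_lit 10))
    (@En.n l601 (nat_lit 3734) (nat_lit 10) (nat_lit 12))
    (@En.n l6663 (nat_lit 3708) (nat_lit 11) (nat_lit 12))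
    (@En.i (nat_lit 1006) (nat_lit 12) (nat_lit 9))
    (@En.i (nat_lit 5058) (nat_lit 13) (nat_lit 11))
    (@En.n l6664 (nat_lit 3323) (nat_lit 14) (nat_lit 3))
    (@En.i (nat_lit 3206) (nat_lit 0) (nat_lit 5))
    (@En.n l3 (nat_lit 3215) (nat_lit 15) (nat_lit 2))))
noncomputable def a201 : T16 Cl := @T16.mk Cl
  (@Cl.mk (nat_lit 0x20008000300080007000e000a0002000e00080002000800060009000e000d) (nat_lit 0x202053086030655) (nat_lit 16) Lb.e (@T16.mk En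
    (@En.n l8733 (nat_lit 2010) (nat_lit 11) (nat_lit 13))
    (@En.n l532 (nat_lit 9222) (nat_lit 12) (nat_lit 14))
    (@En.n l8734 (nat_lit 13233) (nat_lit 9) (nat_lit 9))
    (@En.n l8735 (nat_lit 3511) (nat_lit 14) (nat_lit 6))
    (@En.n l1776 (nat_lit 2188) (nat_lit 12) (nat_lit 8))
    (@En.n l17 (nat_lit 3216) (nat_lit 5) (nat_lit 2))
    (@En.i (nat_lit 3205) (nat_lit 6) (nat_lit 8))
    (@En.n l1531 (nat_lit 2770) (nat_lit 1) (nat_lit 14))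
    (@En.n l3 (nat_lit 3216) (nat_lit 8) (nat_lit 2))
    (@En.n l1532 (nat_lit 2009) (nat_lit 3) (nat_lit 10))
    (@En.n l8736 (nat_lit 3217) (nat_lit 11) (nat_lit 14))
    (@En.i (nat_lit 1231) (nat_lit 12) (nat_lit 7))
    (@En.n l8737 (nat_lit 5195) (nat_lit 6) (nat_lit 8))
    (@En.n l8092 (nat_lit 2010) (nat_lit 7) (nat_lit 3))
    (@En.n l8734 (nat_lit 1768) (nat_lit 0) (nat_lit 8))
    (@En.n l7 (nat_lit 3216) (nat_lit 15) (nat_lit 2))))
  (@Cl.mk (nat_lit 0x2000800030008000e00090002000a000e00080002000800070006000e000d) (nat_lit 0x305420496040045) (nat_lit 16) Lb.e (@T16.mk En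
    (@En.n l4158 (nat_lit 3218) (nat_lit 11) (nat_lit 13))
    (@En.n l1923 (nat_lit 5732) (nat_lit 8) (nat_lit 14))
    (@En.i (nat_lit 3225) (nat_lit 2) (nat_lit 6))
    (@En.n l4159 (nat_lit 2571) (nat_lit 3) (nat_lit 7))
    (@En.n l3130 (nat_lit 2194) (nat_lit 4) (nat_lit 8))
    (@En.n l28 (nat_lit 3217) (nat_lit 5) (nat_lit 2))
    (@En.n l481 (nat_lit 3221) (nat_lit 6) (nat_lit 8))
    (@En.n l4160 (nat_lit 1816) (nat_lit 8) (nat_lit 14))
    (@En.n l4161 (nat_lit 2009) (nat_lit 2) (nat_lit 10))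
    (@En.n l3 (nat_lit 3217) (nat_lit 9) (nat_lit 2))
    (@En.n l1612 (nat_lit 2919) (nat_lit 4) (nat_lit 9))
    (@En.n l184 (nat_lit 1384) (nat_lit 6) (nat_lit 14))
    (@En.i (nat_lit 5708) (nat_lit 6) (nat_lit 8))
    (@En.n l4162 (nat_lit 3218) (nat_lit 7) (nat_lit 3))
    (@En.i (nat_lit 1765) (nat_lit 0) (nat_lit 8))
    (@En.n l18 (nat_lit 3217) (nat_lit 15) (nat_lit 2))))
  (@Cl.mk (nat_lit 0x2000800070006000d000d0007000300030008000e00090002000a000e0009) (nat_lit 0x300460005620496) (nat_lit 16) Lb.e (@T16.mk En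
    (@En.i (nat_lit 3220) (nat_lit 13) (nat_lit 9))
    (@En.n l2769 (nat_lit 1233) (nat_lit 1) (nat_lit 14))
    (@En.n l2588 (nat_lit 2007) (nat_lit 2) (nat_lit 10))
    (@En.n l18 (nat_lit 3218) (nat_lit 3) (nat_lit 2))
    (@En.n l2849 (nat_lit 1897) (nat_lit 4) (nat_lit 9))
    (@En.n l564 (nat_lit 1385) (nat_lit 6) (nat_lit 14))
    (@En.n l8352 (nat_lit 7491) (nat_lit 6) (nat_lit 8))
    (@En.n l8353 (nat_lit 3217) (nat_lit 13) (nat_lit 3))
    (@En.n l11 (nat_lit 3219) (nat_lit 8) (nat_lit 3))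
    (@En.n l8354 (nat_lit 1521) (nat_lit 0) (nat_lit 7))
    (@En.n l55 (nat_lit 3219) (nat_lit 11) (nat_lit 13))
    (@En.n l5802 (nat_lit 5805) (nat_lit 8) (nat_lit 13))
    (@En.n l8355 (nat_lit 3223) (nat_lit 13) (nat_lit 6))
    (@En.n l879 (nat_lit 3545) (nat_lit 14) (nat_lit 7))
    (@En.n l8356 (nat_lit 2140) (nat_lit 11) (nat_lit 8))
    (@En.n l3 (nat_lit 3218) (nat_lit 15) (nat_lit 2))))
  (@Cl.mk (nat_lit 0x2000800070006000d0006000e000300020008000e00090002000a000e000a) (nat_lit 0x300506000620478) (nat_lit 16) Lb.e (@T16.mk En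
    (@En.i (nat_lit 3222) (nat_lit 9) (nat_lit 10))
    (@En.n l2769 (nat_lit 1817) (nat_lit 10) (nat_lit 14))
    (@En.n l2588 (nat_lit 2004) (nat_lit 2) (nat_lit 10))
    (@En.n l18 (nat_lit 3219) (nat_lit 3) (nat_lit 2))
    (@En.i (nat_lit 1894) (nat_lit 4) (nat_lit 9))
    (@En.n l564 (nat_lit 1351) (nat_lit 6) (nat_lit 14))
    (@En.n l8355 (nat_lit 7490) (nat_lit 6) (nat_lit 8))
    (@En.n l28 (nat_lit 3219) (nat_lit 7) (nat_lit 2))
    (@En.i (nat_lit 3218) (nat_lit 8) (nat_lit 3))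
    (@En.n l8355 (nat_lit 13704) (nat_lit 0) (nat_lit 14))
    (@En.i (nat_lit 1761) (nat_lit 2) (nat_lit 6))
    (@En.n l5802 (nat_lit 6970) (nat_lit 8) (nat_lit 13))
    (@En.n l8355 (nat_lit 3227) (nat_lit 4) (nat_lit 6))
    (@En.n l2588 (nat_lit 3542) (nat_lit 14) (nat_lit 7))
    (@En.n l7917 (nat_lit 2139) (nat_lit 6) (nat_lit 8))
    (@En.n l3 (nat_lit 3219) (nat_lit 15) (nat_lit 2))))
  (@Cl.mk (nat_lit 0x2000b00090009000700060005000c000c00070007000400040009000e000a) (nat_lit 0x456000560000011) (nat_lit 16) Lb.e (@T16.mk En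
    (@En.n l8055 (nat_lit 2918) (nat_lit 12) (nat_lit 10))
    (@En.n l19808 (nat_lit 1383) (nat_lit 1) (nat_lit 14))
    (@En.n l19809 (nat_lit 5271) (nat_lit 2) (nat_lit 9))
    (@En.n l8057 (nat_lit 3221) (nat_lit 12) (nat_lit 4))
    (@En.n l19810 (nat_lit 4355) (nat_lit 4) (nat_lit 4))
    (@En.n l152 (nat_lit 3218) (nat_lit 9) (nat_lit 7))
    (@En.n l19811 (nat_lit 4360) (nat_lit 6) (nat_lit 7))
    (@En.n l55 (nat_lit 3222) (nat_lit 4) (nat_lit 12))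
    (@En.n l6958 (nat_lit 5296) (nat_lit 9) (nat_lit 12))
    (@En.n l19812 (nat_lit 3243) (nat_lit 9) (nat_lit 5))
    (@En.n l5641 (nat_lit 3653) (nat_lit 10) (nat_lit 6))
    (@En.n l19813 (nat_lit 7916) (nat_lit 12) (nat_lit 7))
    (@En.n l14393 (nat_lit 2973) (nat_lit 7) (nat_lit 9))
    (@En.n l13913 (nat_lit 2408) (nat_lit 14) (nat_lit 9))
    (@En.n l1935 (nat_lit 3194) (nat_lit 10) (nat_lit 11))
    (@En.n l18 (nat_lit 3220) (nat_lit 15) (nat_lit 2))))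
  (@Cl.mk (nat_lit 0x20008000800040009000e000a0002000b00080008000700060005000e000c) (nat_lit 0x540011045600036) (nat_lit 16) Lb.e (@T16.mk En
    (@En.n l3537 (nat_lit 3220) (nat_lit 8) (nat_lit 12))
    (@En.n l11316 (nat_lit 5729) (nat_lit 1) (nat_lit 14))
    (@En.n l3915 (nat_lit 3622) (nat_lit 2) (nat_lit 5))
    (@En.i (nat_lit 3615) (nat_lit 3) (nat_lit 6))
    (@En.i (nat_lit 7918) (nat_lit 4) (nat_lit 7))
    (@En.n l6885 (nat_lit 3230) (nat_lit 8) (nat_lit 8))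
    (@En.n l61 (nat_lit 7646) (nat_lit 6) (nat_lit 8))
    (@En.n l6369 (nat_lit 3197) (nat_lit 8) (nat_lit 11))
    (@En.n l7 (nat_lit 3221) (nat_lit 8) (nat_lit 2))
    (@En.i (nat_lit 2917) (nat_lit 10) (nat_lit 10))
    (@En.n l11317 (nat_lit 1281) (nat_lit 11) (nat_lit 14))
    (@En.n l8099 (nat_lit 5697) (nat_lit 12) (nat_lit 9))
    (@En.n l11318 (nat_lit 4357) (nat_lit 3) (nat_lit 4))
    (@En.n l1465 (nat_lit 3217) (nat_lit 14) (nat_lit 8))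
    (@En.i (nat_lit 4359) (nat_lit 5) (nat_lit 8))
    (@En.n l3 (nat_lit 3221) (nat_lit 15) (nat_lit 2))))
  (@Cl.mk (nat_lit 0x20009000e000a0002000b000a000a000700060005000c00060006000e0004) (nat_lit 0x618047600050080) (nat_lit 16) Lb.e (@T16.mk En
    (@En.i (nat_lit 3220) (nat_lit 4) (nat_lit 4))
    (@En.n l13092 (nat_lit 3098) (nat_lit 1) (nat_lit 14))
    (@En.n l152 (nat_lit 3219) (nat_lit 10) (nat_lit 6))
    (@En.n l4920 (nat_lit 1992) (nat_lit 3) (nat_lit 6))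
    (@En.n l24668 (nat_lit 5295) (nat_lit 9) (nat_lit 12))
    (@En.n l24669 (nat_lit 3244) (nat_lit 5) (nat_lit 5))
    (@En.n l2781 (nat_lit 3655) (nat_lit 6) (nat_lit 6))
    (@En.n l19628 (nat_lit 6895) (nat_lit 7) (nat_lit 7))
    (@En.n l24670 (nat_lit 2975) (nat_lit 9) (nat_lit 10))
    (@En.n l24671 (nat_lit 2409) (nat_lit 14) (nat_lit 10))
    (@En.n l1935 (nat_lit 3195) (nat_lit 11) (nat_lit 11))
    (@En.n l18 (nat_lit 3222) (nat_lit 11) (nat_lit 2))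
    (@En.n l18567 (nat_lit 2978) (nat_lit 13) (nat_lit 10))
    (@En.n l564 (nat_lit 1348) (nat_lit 1) (nat_lit 14))
    (@En.n l8355 (nat_lit 5270) (nat_lit 2) (nat_lit 9))
    (@En.n l28 (nat_lit 3222) (nat_lit 15) (nat_lit 2))))
  (@Cl.mk (nat_lit 0x200090006000d000d0006000300030007000e000d0002000a0003000e000a) (nat_lit 0x2035000038040a7) (nat_lit 16) Lb.e (@T16.mk En
    (@En.n l8116 (nat_lit 3243) (nat_lit 12) (nat_lit 10))
    (@En.n l8117 (nat_lit 2933) (nat_lit 1) (nat_lit 14))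
    (@En.n l8118 (nat_lit 3226) (nat_lit 2) (nat_lit 3))
    (@En.n l8119 (nat_lit 2010) (nat_lit 3) (nat_lit 10))
    (@En.n l3 (nat_lit 3223) (nat_lit 4) (nat_lit 2))
    (@En.n l5022 (nat_lit 3226) (nat_lit 6) (nat_lit 13))
    (@En.n l2511 (nat_lit 2546) (nat_lit 7) (nat_lit 14))
    (@En.n l18 (nat_lit 5651) (nat_lit 2) (nat_lit 7))
    (@En.n l8120 (nat_lit 3225) (nat_lit 13) (nat_lit 3))
    (@En.n l18 (nat_lit 3227) (nat_lit 0) (nat_lit 3))
    (@En.n l8121 (nat_lit 2348) (nat_lit 0) (nat_lit 6))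
    (@En.n l61 (nat_lit 3227) (nat_lit 3) (nat_lit 13))
    (@En.n l8122 (nat_lit 6320) (nat_lit 8) (nat_lit 13))
    (@En.n l8119 (nat_lit 3523) (nat_lit 14) (nat_lit 6))
    (@En.n l8123 (nat_lit 654) (nat_lit 10) (nat_lit 9))
    (@En.n l28 (nat_lit 3223) (nat_lit 15) (nat_lit 2))))
  (@Cl.mk (nat_lit 0x2000700030007000d000d000900030003000e0009000200090007000e000d) (nat_lit 0x78300a702015) (nat_lit 16) Lb.e (@T16.mk En
    (@En.n l2437 (nat_lit 3226) (nat_lit 12) (nat_lit 13))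
    (@En.n l2438 (nat_lit 872) (nat_lit 13) (nat_lit 14))
    (@En.n l549 (nat_lit 3520) (nat_lit 2) (nat_lit 7))
    (@En.n l545 (nat_lit 569) (nat_lit 3) (nat_lit 9))
    (@En.n l28 (nat_lit 3224) (nat_lit 4) (nat_lit 2))
    (@En.n l2439 (nat_lit 3241) (nat_lit 5) (nat_lit 9))
    (@En.n l2440 (nat_lit 3487) (nat_lit 1) (nat_lit 14))
    (@En.n l152 (nat_lit 3225) (nat_lit 7) (nat_lit 3))
    (@En.n l2441 (nat_lit 3524) (nat_lit 8) (nat_lit 3))
    (@En.n l97 (nat_lit 3217) (nat_lit 10) (nat_lit 9))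
    (@En.n l2442 (nat_lit 3524) (nat_lit 11) (nat_lit 13))
    (@En.n l492 (nat_lit 3510) (nat_lit 7) (nat_lit 13))
    (@En.i (nat_lit 5499) (nat_lit 13) (nat_lit 7))
    (@En.n l2443 (nat_lit 3226) (nat_lit 8) (nat_lit 3))
    (@En.i (nat_lit 2305) (nat_lit 0) (nat_lit 7))
    (@En.n l18 (nat_lit 3224) (nat_lit 15) (nat_lit 2))))
  (@Cl.mk (nat_lit 0x2000700030007000e000d0002000a0003000e0009000200090006000e000d) (nat_lit 0x780409702014) (nat_lit 16) Lb.e (@T16.mk En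
    (@En.n l3683 (nat_lit 3223) (nat_lit 12) (nat_lit 13))
    (@En.i (nat_lit 873) (nat_lit 8) (nat_lit 14))
    (@En.i (nat_lit 3522) (nat_lit 2) (nat_lit 6))
    (@En.n l3130 (nat_lit 640) (nat_lit 3) (nat_lit 9))
    (@En.n l28 (nat_lit 3225) (nat_lit 4) (nat_lit 2))
    (@En.n l982 (nat_lit 3622) (nat_lit 5) (nat_lit 9))
    (@En.n l3684 (nat_lit 2937) (nat_lit 1) (nat_lit 14))
    (@En.n l117 (nat_lit 3224) (nat_lit 7) (nat_lit 3))
    (@En.n l1255 (nat_lit 3216) (nat_lit 9) (nat_lit 10))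
    (@En.n l3 (nat_lit 3225) (nat_lit 9) (nat_lit 2))
    (@En.i (nat_lit 3224) (nat_lit 11) (nat_lit 13))
    (@En.i (nat_lit 2547) (nat_lit 7) (nat_lit 14))
    (@En.i (nat_lit 5498) (nat_lit 13) (nat_lit 7))
    (@En.n l3685 (nat_lit 3223) (nat_lit 8) (nat_lit 3))
    (@En.i (nat_lit 2343) (nat_lit 0) (nat_lit 7))
    (@En.n l18 (nat_lit 3225) (nat_lit 15) (nat_lit 2))))
  (@Cl.mk (nat_lit 0x200090007000d000d0006000300030007000d000d000900030003000e000a) (nat_lit 0x2044000078300a7) (nat_lit 16) Lb.e (@T16.mk En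
    (@En.i (nat_lit 3240) (nat_lit 13) (nat_lit 10))
    (@En.i (nat_lit 3490) (nat_lit 1) (nat_lit 14))
    (@En.n l5808 (nat_lit 3223) (nat_lit 2) (nat_lit 3))
    (@En.n l18 (nat_lit 3229) (nat_lit 3) (nat_lit 3))
    (@En.i (nat_lit 3218) (nat_lit 4) (nat_lit 9))
    (@En.n l61 (nat_lit 3229) (nat_lit 6) (nat_lit 13))
    (@En.n l564 (nat_lit 3507) (nat_lit 7) (nat_lit 13))
    (@En.n l892 (nat_lit 5650) (nat_lit 7) (nat_lit 7))
    (@En.n l2391 (nat_lit 3224) (nat_lit 13) (nat_lit 3))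
    (@En.n l11 (nat_lit 3228) (nat_lit 0) (nat_lit 3))
    (@En.i (nat_lit 2295) (nat_lit 0) (nat_lit 6))
    (@En.n l55 (nat_lit 3228) (nat_lit 3) (nat_lit 13))
    (@En.n l564 (nat_lit 6315) (nat_lit 13) (nat_lit 13))
    (@En.i (nat_lit 3521) (nat_lit 14) (nat_lit 7))
    (@En.n l5809 (nat_lit 568) (nat_lit 11) (nat_lit 9))
    (@En.n l3 (nat_lit 3226) (nat_lit 15) (nat_lit 2))))
  (@Cl.mk (nat_lit 0x20007000e000d0002000a0003000e000b000200090006000d0005000e0003) (nat_lit 0x68040890204050) (nat_lit 16) Lb.e (@T16.mk En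
    (@En.i (nat_lit 3223) (nat_lit 9) (nat_lit 3))
    (@En.i (nat_lit 12791) (nat_lit 0) (nat_lit 14))
    (@En.n l7081 (nat_lit 2351) (nat_lit 2) (nat_lit 5))
    (@En.n l8122 (nat_lit 6319) (nat_lit 8) (nat_lit 13))
    (@En.n l8119 (nat_lit 3580) (nat_lit 14) (nat_lit 6))
    (@En.n l18586 (nat_lit 658) (nat_lit 5) (nat_lit 9))
    (@En.n l28 (nat_lit 3227) (nat_lit 6) (nat_lit 2))
    (@En.n l7084 (nat_lit 3244) (nat_lit 8) (nat_lit 11))
    (@En.n l8122 (nat_lit 2936) (nat_lit 1) (nat_lit 14))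
    (@En.n l8118 (nat_lit 3228) (nat_lit 9) (nat_lit 3))
    (@En.n l8119 (nat_lit 2011) (nat_lit 3) (nat_lit 10))
    (@En.n l3 (nat_lit 3227) (nat_lit 11) (nat_lit 2))
    (@En.n l5022 (nat_lit 3228) (nat_lit 13) (nat_lit 13))
    (@En.n l2511 (nat_lit 2548) (nat_lit 7) (nat_lit 14))
    (@En.i (nat_lit 6073) (nat_lit 2) (nat_lit 7))
    (@En.n l17 (nat_lit 3227) (nat_lit 15) (nat_lit 2))))
  (@Cl.mk (nat_lit 0x20007000d000d000900030003000e000b000200090007000d0005000e0003) (nat_lit 0x78300890203050) (nat_lit 16) Lb.e (@T16.mk En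
    (@En.i (nat_lit 3226) (nat_lit 9) (nat_lit 3))
    (@En.n l892 (nat_lit 12787) (nat_lit 0) (nat_lit 14))
    (@En.i (nat_lit 2303) (nat_lit 2) (nat_lit 5))
    (@En.n l564 (nat_lit 6316) (nat_lit 13) (nat_lit 13))
    (@En.i (nat_lit 3544) (nat_lit 14) (nat_lit 7))
    (@En.i (nat_lit 655) (nat_lit 5) (nat_lit 9))
    (@En.n l3 (nat_lit 3228) (nat_lit 6) (nat_lit 2))
    (@En.i (nat_lit 2878) (nat_lit 8) (nat_lit 11))
    (@En.i (nat_lit 3496) (nat_lit 1) (nat_lit 14))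
    (@En.n l5808 (nat_lit 3227) (nat_lit 9) (nat_lit 3))
    (@En.n l18 (nat_lit 3525) (nat_lit 10) (nat_lit 3))
    (@En.i (nat_lit 3219) (nat_lit 4) (nat_lit 9))
    (@En.n l61 (nat_lit 3525) (nat_lit 13) (nat_lit 13))
    (@En.n l564 (nat_lit 3500) (nat_lit 7) (nat_lit 13))
    (@En.n l892 (nat_lit 3250) (nat_lit 7) (nat_lit 7))
    (@En.n l28 (nat_lit 3228) (nat_lit 15) (nat_lit 2))))
  (@Cl.mk (nat_lit 0x200090008000d000d0006000300030007000d0008000e00030002000e000a) (nat_lit 0x2235000071800a7) (nat_lit 16) Lb.e (@T16.mk En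
    (@En.i (nat_lit 3242) (nat_lit 14) (nat_lit 10))
    (@En.i (nat_lit 3491) (nat_lit 1) (nat_lit 14))
    (@En.n l17 (nat_lit 3229) (nat_lit 2) (nat_lit 2))
    (@En.i (nat_lit 3226) (nat_lit 3) (nat_lit 3))
    (@En.i (nat_lit 14099) (nat_lit 0) (nat_lit 14))
    (@En.i (nat_lit 2030) (nat_lit 5) (nat_lit 8))
    (@En.n l564 (nat_lit 3505) (nat_lit 7) (nat_lit 13))
    (@En.n l2491 (nat_lit 6366) (nat_lit 7) (nat_lit 7))
    (@En.i (nat_lit 3524) (nat_lit 13) (nat_lit 3))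
    (@En.n l11 (nat_lit 3525) (nat_lit 0) (nat_lit 3))
    (@En.i (nat_lit 2294) (nat_lit 0) (nat_lit 6))
    (@En.n l55 (nat_lit 3525) (nat_lit 3) (nat_lit 13))
    (@En.n l564 (nat_lit 6313) (nat_lit 13) (nat_lit 13))
    (@En.n l644 (nat_lit 3519) (nat_lit 14) (nat_lit 8))
    (@En.n l615 (nat_lit 656) (nat_lit 12) (nat_lit 9))
    (@En.n l3 (nat_lit 3229) (nat_lit 15) (nat_lit 2))))
  (@Cl.mk (nat_lit 0x20005000a000e000b0002000c0008000600050004000e000b0002000e0008) (nat_lit 0x711045000b5016) (nat_lit 16) Lb.e (@T16.mk En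
    (@En.n l8160 (nat_lit 3221) (nat_lit 14) (nat_lit 8))
    (@En.i (nat_lit 2973) (nat_lit 1) (nat_lit 14))
    (@En.n l18 (nat_lit 3230) (nat_lit 2) (nat_lit 2))
    (@En.n l5 (nat_lit 2973) (nat_lit 3) (nat_lit 11))
    (@En.n l6103 (nat_lit 4765) (nat_lit 5) (nat_lit 14))
    (@En.i (nat_lit 3231) (nat_lit 5) (nat_lit 4))
    (@En.i (nat_lit 3613) (nat_lit 6) (nat_lit 5))
    (@En.n l11079 (nat_lit 1221) (nat_lit 7) (nat_lit 6))
    (@En.n l810 (nat_lit 2407) (nat_lit 14) (nat_lit 8))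
    (@En.n l28 (nat_lit 3202) (nat_lit 10) (nat_lit 12))
    (@En.n l11 (nat_lit 3230) (nat_lit 10) (nat_lit 2))
    (@En.n l11080 (nat_lit 2969) (nat_lit 12) (nat_lit 11))
    (@En.i (nat_lit 1382) (nat_lit 13) (nat_lit 14))
    (@En.n l1253 (nat_lit 5695) (nat_lit 14) (nat_lit 10))
    (@En.n l253 (nat_lit 1379) (nat_lit 13) (nat_lit 5))
    (@En.n l3 (nat_lit 3230) (nat_lit 15) (nat_lit 2))))
  (@Cl.mk (nat_lit 0x200050009000e000d0002000c0003000900070004000e000b0002000e0007) (nat_lit 0x21203060020000) (nat_lit 16) Lb.e (@T16.mk En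
    (@En.i (nat_lit 3622) (nat_lit 14) (nat_lit 7))
    (@En.i (nat_lit 3234) (nat_lit 1) (nat_lit 14))
    (@En.n l18 (nat_lit 3231) (nat_lit 2) (nat_lit 2))
    (@En.n l5 (nat_lit 3234) (nat_lit 3) (nat_lit 11))
    (@En.i (nat_lit 3111) (nat_lit 5) (nat_lit 14))
    (@En.i (nat_lit 3612) (nat_lit 5) (nat_lit 4))
    (@En.n l1253 (nat_lit 1220) (nat_lit 6) (nat_lit 7))
    (@En.i (nat_lit 6603) (nat_lit 4) (nat_lit 9))
    (@En.i (nat_lit 3233) (nat_lit 8) (nat_lit 3))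
    (@En.i (nat_lit 3204) (nat_lit 10) (nat_lit 12))
    (@En.n l11 (nat_lit 3231) (nat_lit 10) (nat_lit 2))
    (@En.n l1578 (nat_lit 3233) (nat_lit 12) (nat_lit 13))
    (@En.i (nat_lit 2740) (nat_lit 13) (nat_lit 14))
    (@En.n l1253 (nat_lit 5694) (nat_lit 14) (nat_lit 9))
    (@En.n l253 (nat_lit 3964) (nat_lit 13) (nat_lit 5))
    (@En.n l3 (nat_lit 3231) (nat_lit 15) (nat_lit 2))))
noncomputable def a202 : T16 Cl := @T16.mk Cl
  (@Cl.mk (nat_lit 0x2000500050009000d000d000b00030003000a00070005000b000b000e0006) (nat_lit 0x31a2005000000) (nat_lit 16) Lb.e (@T16.mk En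
    (@En.n l6183 (nat_lit 3240) (nat_lit 7) (nat_lit 6))
    (@En.n l8846 (nat_lit 3237) (nat_lit 4) (nat_lit 14))
    (@En.n l9384 (nat_lit 3237) (nat_lit 5) (nat_lit 11))
    (@En.n l6203 (nat_lit 4077) (nat_lit 3) (nat_lit 11))
    (@En.n l2582 (nat_lit 2864) (nat_lit 4) (nat_lit 5))
    (@En.n l536 (nat_lit 1224) (nat_lit 5) (nat_lit 7))
    (@En.n l810 (nat_lit 5395) (nat_lit 7) (nat_lit 10))
    (@En.n l28 (nat_lit 3234) (nat_lit 7) (nat_lit 3))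
    (@En.n l969 (nat_lit 3236) (nat_lit 8) (nat_lit 3))
    (@En.i (nat_lit 2973) (nat_lit 10) (nat_lit 11))
    (@En.n l8590 (nat_lit 3236) (nat_lit 11) (nat_lit 13))
    (@En.n l6203 (nat_lit 1367) (nat_lit 12) (nat_lit 13))
    (@En.n l1253 (nat_lit 5504) (nat_lit 13) (nat_lit 9))
    (@En.n l17 (nat_lit 3233) (nat_lit 14) (nat_lit 5))
    (@En.n l9385 (nat_lit 3963) (nat_lit 13) (nat_lit 5))
    (@En.n l3 (nat_lit 3232) (nat_lit 15) (nat_lit 2))))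
  (@Cl.mk (nat_lit 0x200050009000d000d000b00030003000900070005000e000b0002000e0007) (nat_lit 0x31220050021010) (nat_lit 16) Lb.e (@T16.mk En
    (@En.n l4010 (nat_lit 3241) (nat_lit 14) (nat_lit 7))
    (@En.i (nat_lit 3232) (nat_lit 1) (nat_lit 14))
    (@En.n l18 (nat_lit 3233) (nat_lit 2) (nat_lit 2))
    (@En.n l5 (nat_lit 3232) (nat_lit 3) (nat_lit 11))
    (@En.i (nat_lit 3105) (nat_lit 5) (nat_lit 14))
    (@En.n l2678 (nat_lit 3610) (nat_lit 5) (nat_lit 5))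
    (@En.n l536 (nat_lit 1225) (nat_lit 6) (nat_lit 7))
    (@En.n l810 (nat_lit 5398) (nat_lit 4) (nat_lit 9))
    (@En.n l28 (nat_lit 3231) (nat_lit 8) (nat_lit 3))
    (@En.n l4011 (nat_lit 3235) (nat_lit 9) (nat_lit 3))
    (@En.i (nat_lit 3230) (nat_lit 11) (nat_lit 11))
    (@En.n l4012 (nat_lit 3235) (nat_lit 12) (nat_lit 13))
    (@En.n l3496 (nat_lit 2741) (nat_lit 13) (nat_lit 13))
    (@En.n l1253 (nat_lit 5501) (nat_lit 14) (nat_lit 9))
    (@En.n l253 (nat_lit 3960) (nat_lit 13) (nat_lit 5))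
    (@En.n l3 (nat_lit 3233) (nat_lit 15) (nat_lit 2))))
  (@Cl.mk (nat_lit 0x2000500050009000e000d0002000c0003000a00070004000b000b000e0006) (nat_lit 0x41203050090c0) (nat_lit 16) Lb.e (@T16.mk En
    (@En.n l5646 (nat_lit 3243) (nat_lit 6) (nat_lit 6))
    (@En.n l3870 (nat_lit 3238) (nat_lit 4) (nat_lit 14))
    (@En.n l12560 (nat_lit 3238) (nat_lit 5) (nat_lit 11))
    (@En.i (nat_lit 4078) (nat_lit 3) (nat_lit 11))
    (@En.n l2582 (nat_lit 3590) (nat_lit 4) (nat_lit 4))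
    (@En.n l1253 (nat_lit 1222) (nat_lit 5) (nat_lit 7))
    (@En.i (nat_lit 6600) (nat_lit 13) (nat_lit 10))
    (@En.i (nat_lit 3232) (nat_lit 7) (nat_lit 3))
    (@En.i (nat_lit 3203) (nat_lit 9) (nat_lit 12))
    (@En.n l11 (nat_lit 3234) (nat_lit 9) (nat_lit 2))
    (@En.n l1578 (nat_lit 3232) (nat_lit 11) (nat_lit 13))
    (@En.n l1329 (nat_lit 2708) (nat_lit 12) (nat_lit 14))
    (@En.n l1253 (nat_lit 5667) (nat_lit 13) (nat_lit 9))
    (@En.n l17 (nat_lit 3231) (nat_lit 14) (nat_lit 5))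
    (@En.n l9385 (nat_lit 3966) (nat_lit 13) (nat_lit 5))
    (@En.n l3 (nat_lit 3234) (nat_lit 15) (nat_lit 2))))
  (@Cl.mk (nat_lit 0x200050009000d000a000e00030002000900070006000e000b0002000e0007) (nat_lit 0x212a0050020000) (nat_lit 16) Lb.e (@T16.mk En
    (@En.n l3357 (nat_lit 3623) (nat_lit 14) (nat_lit 7))
    (@En.n l1531 (nat_lit 3236) (nat_lit 1) (nat_lit 14))
    (@En.n l3 (nat_lit 3235) (nat_lit 2) (nat_lit 2))
    (@En.n l3358 (nat_lit 3236) (nat_lit 3) (nat_lit 11))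
    (@En.n l3359 (nat_lit 3107) (nat_lit 5) (nat_lit 14))
    (@En.n l1722 (nat_lit 3638) (nat_lit 5) (nat_lit 6))
    (@En.n l3360 (nat_lit 3063) (nat_lit 6) (nat_lit 7))
    (@En.n l3361 (nat_lit 5390) (nat_lit 4) (nat_lit 9))
    (@En.n l7 (nat_lit 3235) (nat_lit 8) (nat_lit 2))
    (@En.n l3362 (nat_lit 3233) (nat_lit 9) (nat_lit 3))
    (@En.n l2790 (nat_lit 13572) (nat_lit 0) (nat_lit 14))
    (@En.n l3363 (nat_lit 3023) (nat_lit 12) (nat_lit 10))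
    (@En.i (nat_lit 2742) (nat_lit 13) (nat_lit 13))
    (@En.n l3364 (nat_lit 5500) (nat_lit 4) (nat_lit 9))
    (@En.n l3359 (nat_lit 3959) (nat_lit 13) (nat_lit 5))
    (@En.n l17 (nat_lit 3235) (nat_lit 15) (nat_lit 2))))
  (@Cl.mk (nat_lit 0x2000500050009000d000a000e00030002000a00070006000b000b000e0006) (nat_lit 0x491a0050090c0) (nat_lit 16) Lb.e (@T16.mk En
    (@En.n l3187 (nat_lit 3242) (nat_lit 8) (nat_lit 6))
    (@En.n l3 (nat_lit 3239) (nat_lit 4) (nat_lit 14))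
    (@En.n l527 (nat_lit 3239) (nat_lit 5) (nat_lit 11))
    (@En.i (nat_lit 4074) (nat_lit 3) (nat_lit 11))
    (@En.n l5035 (nat_lit 3607) (nat_lit 4) (nat_lit 6))
    (@En.n l8477 (nat_lit 2763) (nat_lit 5) (nat_lit 7))
    (@En.i (nat_lit 5391) (nat_lit 7) (nat_lit 10))
    (@En.n l7 (nat_lit 3236) (nat_lit 7) (nat_lit 2))
    (@En.n l8478 (nat_lit 3232) (nat_lit 8) (nat_lit 3))
    (@En.n l8479 (nat_lit 13570) (nat_lit 0) (nat_lit 14))
    (@En.i (nat_lit 2971) (nat_lit 11) (nat_lit 10))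
    (@En.i (nat_lit 2745) (nat_lit 12) (nat_lit 13))
    (@En.n l3195 (nat_lit 5502) (nat_lit 13) (nat_lit 9))
    (@En.n l8480 (nat_lit 3235) (nat_lit 14) (nat_lit 5))
    (@En.n l3106 (nat_lit 3962) (nat_lit 13) (nat_lit 5))
    (@En.n l17 (nat_lit 3236) (nat_lit 15) (nat_lit 2))))
  (@Cl.mk (nat_lit 0x20009000d000d000b00030003000b00070005000b000e00050002000e0005) (nat_lit 0x58a2005009c0000) (nat_lit 16) Lb.e (@T16.mk En
    (@En.n l8478 (nat_lit 3232) (nat_lit 14) (nat_lit 5))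
    (@En.n l1325 (nat_lit 3775) (nat_lit 1) (nat_lit 14))
    (@En.n l17 (nat_lit 3237) (nat_lit 2) (nat_lit 2))
    (@En.n l3187 (nat_lit 2878) (nat_lit 3) (nat_lit 5))
    (@En.n l1490 (nat_lit 13424) (nat_lit 4) (nat_lit 14))
    (@En.i (nat_lit 4076) (nat_lit 2) (nat_lit 11))
    (@En.n l8798 (nat_lit 2865) (nat_lit 6) (nat_lit 5))
    (@En.n l1490 (nat_lit 2762) (nat_lit 7) (nat_lit 7))
    (@En.n l170 (nat_lit 6678) (nat_lit 9) (nat_lit 11))
    (@En.n l11251 (nat_lit 3238) (nat_lit 9) (nat_lit 3))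
    (@En.n l28 (nat_lit 3239) (nat_lit 10) (nat_lit 3))
    (@En.n l436 (nat_lit 2975) (nat_lit 12) (nat_lit 11))
    (@En.n l77 (nat_lit 3239) (nat_lit 13) (nat_lit 13))
    (@En.i (nat_lit 3472) (nat_lit 14) (nat_lit 13))
    (@En.n l1490 (nat_lit 3251) (nat_lit 12) (nat_lit 9))
    (@En.n l107 (nat_lit 3237) (nat_lit 15) (nat_lit 2))))
  (@Cl.mk (nat_lit 0x20009000e000d0002000c0003000b00070004000b000e00050002000e0005) (nat_lit 0x4190406009b0000) (nat_lit 16) Lb.e (@T16.mk En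
    (@En.n l8268 (nat_lit 3234) (nat_lit 14) (nat_lit 5))
    (@En.n l1708 (nat_lit 3967) (nat_lit 1) (nat_lit 14))
    (@En.n l7 (nat_lit 3238) (nat_lit 2) (nat_lit 2))
    (@En.i (nat_lit 3244) (nat_lit 3) (nat_lit 5))
    (@En.i (nat_lit 13423) (nat_lit 4) (nat_lit 14))
    (@En.n l427 (nat_lit 4080) (nat_lit 10) (nat_lit 11))
    (@En.n l561 (nat_lit 2859) (nat_lit 6) (nat_lit 4))
    (@En.n l1529 (nat_lit 1226) (nat_lit 7) (nat_lit 7))
    (@En.n l8273 (nat_lit 6602) (nat_lit 9) (nat_lit 11))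
    (@En.n l427 (nat_lit 3237) (nat_lit 9) (nat_lit 3))
    (@En.n l561 (nat_lit 3207) (nat_lit 0) (nat_lit 12))
    (@En.n l3 (nat_lit 3238) (nat_lit 11) (nat_lit 2))
    (@En.n l1684 (nat_lit 3237) (nat_lit 13) (nat_lit 13))
    (@En.n l427 (nat_lit 2707) (nat_lit 1) (nat_lit 14))
    (@En.n l1529 (nat_lit 5669) (nat_lit 12) (nat_lit 9))
    (@En.n l17 (nat_lit 3238) (nat_lit 15) (nat_lit 2))))
  (@Cl.mk (nat_lit 0x20009000d000a000e00030002000b00070006000b000e00050002000e0005) (nat_lit 0x491a005009b0000) (nat_lit 16) Lb.e (@T16.mk En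
    (@En.i (nat_lit 3236) (nat_lit 14) (nat_lit 5))
    (@En.n l97 (nat_lit 3961) (nat_lit 1) (nat_lit 14))
    (@En.n l17 (nat_lit 3239) (nat_lit 2) (nat_lit 2))
    (@En.n l3187 (nat_lit 3245) (nat_lit 3) (nat_lit 5))
    (@En.i (nat_lit 13427) (nat_lit 4) (nat_lit 14))
    (@En.i (nat_lit 4072) (nat_lit 12) (nat_lit 11))
    (@En.n l625 (nat_lit 3637) (nat_lit 13) (nat_lit 6))
    (@En.n l245 (nat_lit 2760) (nat_lit 14) (nat_lit 7))
    (@En.i (nat_lit 5393) (nat_lit 9) (nat_lit 11))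
    (@En.n l7 (nat_lit 3239) (nat_lit 9) (nat_lit 2))
    (@En.i (nat_lit 3237) (nat_lit 10) (nat_lit 3))
    (@En.n l781 (nat_lit 13571) (nat_lit 0) (nat_lit 14))
    (@En.i (nat_lit 2977) (nat_lit 2) (nat_lit 10))
    (@En.i (nat_lit 3471) (nat_lit 14) (nat_lit 13))
    (@En.i (nat_lit 5505) (nat_lit 12) (nat_lit 9))
    (@En.n l107 (nat_lit 3239) (nat_lit 15) (nat_lit 2))))
  (@Cl.mk (nat_lit 0x30003000a000a00080006000c000c00060006000400040008000d000d000a) (nat_lit 0x66500100002982) (nat_lit 16) Lb.e (@T16.mk En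
    (@En.i (nat_lit 3220) (nat_lit 0) (nat_lit 10))
    (@En.n l61 (nat_lit 3242) (nat_lit 3) (nat_lit 13))
    (@En.n l564 (nat_lit 3480) (nat_lit 2) (nat_lit 13))
    (@En.n l14391 (nat_lit 3252) (nat_lit 3) (nat_lit 8))
    (@En.n l6849 (nat_lit 3241) (nat_lit 12) (nat_lit 4))
    (@En.n l11 (nat_lit 4352) (nat_lit 5) (nat_lit 4))
    (@En.n l152 (nat_lit 3226) (nat_lit 10) (nat_lit 6))
    (@En.n l936 (nat_lit 4191) (nat_lit 7) (nat_lit 6))
    (@En.n l55 (nat_lit 2878) (nat_lit 4) (nat_lit 12))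
    (@En.i (nat_lit 4083) (nat_lit 10) (nat_lit 12))
    (@En.i (nat_lit 2879) (nat_lit 10) (nat_lit 6))
    (@En.n l14392 (nat_lit 6166) (nat_lit 12) (nat_lit 8))
    (@En.n l14393 (nat_lit 3232) (nat_lit 6) (nat_lit 10))
    (@En.i (nat_lit 9334) (nat_lit 14) (nat_lit 10))
    (@En.n l14394 (nat_lit 3243) (nat_lit 13) (nat_lit 3))
    (@En.n l18 (nat_lit 3242) (nat_lit 0) (nat_lit 3))))
  (@Cl.mk (nat_lit 0x20007000700040008000d000d000a000300030009000900080006000e000c) (nat_lit 0x12200662011) (nat_lit 16) Lb.e (@T16.mk En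
    (@En.n l7295 (nat_lit 3240) (nat_lit 9) (nat_lit 12))
    (@En.n l7296 (nat_lit 877) (nat_lit 1) (nat_lit 14))
    (@En.n l7297 (nat_lit 3563) (nat_lit 2) (nat_lit 6))
    (@En.i (nat_lit 6164) (nat_lit 3) (nat_lit 8))
    (@En.n l7298 (nat_lit 3233) (nat_lit 7) (nat_lit 9))
    (@En.n l7299 (nat_lit 9344) (nat_lit 5) (nat_lit 9))
    (@En.n l7300 (nat_lit 3622) (nat_lit 6) (nat_lit 3))
    (@En.n l7301 (nat_lit 3623) (nat_lit 7) (nat_lit 3))
    (@En.n l7302 (nat_lit 3221) (nat_lit 9) (nat_lit 10))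
    (@En.n l7303 (nat_lit 3623) (nat_lit 10) (nat_lit 13))
    (@En.n l7304 (nat_lit 2749) (nat_lit 11) (nat_lit 13))
    (@En.n l5201 (nat_lit 3631) (nat_lit 12) (nat_lit 8))
    (@En.n l7305 (nat_lit 3968) (nat_lit 4) (nat_lit 4))
    (@En.n l7306 (nat_lit 3224) (nat_lit 14) (nat_lit 7))
    (@En.n l1723 (nat_lit 4187) (nat_lit 6) (nat_lit 7))
    (@En.n l7 (nat_lit 3241) (nat_lit 15) (nat_lit 2))))
  (@Cl.mk (nat_lit 0x2000a000a00080007000c000c00060006000400040008000d0009000e0003) (nat_lit 0x662000000007190) (nat_lit 16) Lb.e (@T16.mk En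
    (@En.i (nat_lit 3240) (nat_lit 15) (nat_lit 3))
    (@En.i (nat_lit 13574) (nat_lit 0) (nat_lit 14))
    (@En.i (nat_lit 2037) (nat_lit 2) (nat_lit 9))
    (@En.n l564 (nat_lit 2750) (nat_lit 4) (nat_lit 13))
    (@En.i (nat_lit 5506) (nat_lit 4) (nat_lit 8))
    (@En.i (nat_lit 3623) (nat_lit 12) (nat_lit 4))
    (@En.n l11 (nat_lit 4353) (nat_lit 6) (nat_lit 4))
    (@En.n l152 (nat_lit 3229) (nat_lit 10) (nat_lit 6))
    (@En.n l936 (nat_lit 4192) (nat_lit 8) (nat_lit 6))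
    (@En.n l55 (nat_lit 3245) (nat_lit 4) (nat_lit 12))
    (@En.i (nat_lit 6318) (nat_lit 11) (nat_lit 12))
    (@En.n l644 (nat_lit 3636) (nat_lit 12) (nat_lit 7))
    (@En.i (nat_lit 6169) (nat_lit 13) (nat_lit 8))
    (@En.n l4003 (nat_lit 3236) (nat_lit 6) (nat_lit 10))
    (@En.i (nat_lit 8143) (nat_lit 14) (nat_lit 10))
    (@En.n l17 (nat_lit 3242) (nat_lit 15) (nat_lit 2))))
  (@Cl.mk (nat_lit 0x2000b0003000a000a00080005000c000c00060006000400040008000e000d) (nat_lit 0x30662000000021a) (nat_lit 16) Lb.e (@T16.mk En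
    (@En.n l19333 (nat_lit 3240) (nat_lit 2) (nat_lit 13))
    (@En.n l19334 (nat_lit 2549) (nat_lit 1) (nat_lit 14))
    (@En.n l17405 (nat_lit 5666) (nat_lit 2) (nat_lit 8))
    (@En.n l1003 (nat_lit 3622) (nat_lit 12) (nat_lit 4))
    (@En.n l19335 (nat_lit 4351) (nat_lit 4) (nat_lit 4))
    (@En.n l7894 (nat_lit 3223) (nat_lit 10) (nat_lit 6))
    (@En.n l97 (nat_lit 2360) (nat_lit 6) (nat_lit 6))
    (@En.n l19336 (nat_lit 3244) (nat_lit 4) (nat_lit 12))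
    (@En.n l18041 (nat_lit 6339) (nat_lit 9) (nat_lit 12))
    (@En.n l13196 (nat_lit 3581) (nat_lit 9) (nat_lit 5))
    (@En.n l3866 (nat_lit 6167) (nat_lit 11) (nat_lit 8))
    (@En.n l11401 (nat_lit 3234) (nat_lit 6) (nat_lit 10))
    (@En.i (nat_lit 9317) (nat_lit 13) (nat_lit 10))
    (@En.n l19337 (nat_lit 3240) (nat_lit 14) (nat_lit 3))
    (@En.n l10139 (nat_lit 3198) (nat_lit 0) (nat_lit 11))
    (@En.n l28 (nat_lit 3243) (nat_lit 15) (nat_lit 2))))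
  (@Cl.mk (nat_lit 0x20008000e000d0002000b0003000b000b00080005000c00050005000e0004) (nat_lit 0x39a0308740a0040) (nat_lit 16) Lb.e (@T16.mk En
    (@En.n l18007 (nat_lit 3243) (nat_lit 4) (nat_lit 4))
    (@En.n l25332 (nat_lit 3930) (nat_lit 1) (nat_lit 14))
    (@En.n l17537 (nat_lit 3227) (nat_lit 2) (nat_lit 5))
    (@En.n l28 (nat_lit 2365) (nat_lit 3) (nat_lit 5))
    (@En.n l9025 (nat_lit 6323) (nat_lit 9) (nat_lit 12))
    (@En.n l25333 (nat_lit 2867) (nat_lit 9) (nat_lit 5))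
    (@En.n l420 (nat_lit 6201) (nat_lit 6) (nat_lit 8))
    (@En.n l77 (nat_lit 3238) (nat_lit 8) (nat_lit 11))
    (@En.n l1013 (nat_lit 9311) (nat_lit 9) (nat_lit 11))
    (@En.n l21795 (nat_lit 2878) (nat_lit 9) (nat_lit 3))
    (@En.n l17581 (nat_lit 3208) (nat_lit 11) (nat_lit 11))
    (@En.n l3 (nat_lit 3244) (nat_lit 11) (nat_lit 2))
    (@En.n l14292 (nat_lit 2878) (nat_lit 13) (nat_lit 13))
    (@En.n l3726 (nat_lit 2550) (nat_lit 1) (nat_lit 14))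
    (@En.n l9902 (nat_lit 3247) (nat_lit 2) (nat_lit 8))
    (@En.n l17 (nat_lit 3244) (nat_lit 15) (nat_lit 2))))
  (@Cl.mk (nat_lit 0x20008000d0009000e00030002000b000b00080007000c00050005000e0004) (nat_lit 0x6919008620a0070) (nat_lit 16) Lb.e (@T16.mk En
    (@En.i (nat_lit 3242) (nat_lit 6) (nat_lit 4))
    (@En.n l2038 (nat_lit 3972) (nat_lit 1) (nat_lit 14))
    (@En.n l152 (nat_lit 3525) (nat_lit 2) (nat_lit 5))
    (@En.i (nat_lit 2364) (nat_lit 3) (nat_lit 5))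
    (@En.i (nat_lit 6317) (nat_lit 11) (nat_lit 12))
    (@En.n l644 (nat_lit 2874) (nat_lit 12) (nat_lit 7))
    (@En.i (nat_lit 6204) (nat_lit 6) (nat_lit 8))
    (@En.n l4003 (nat_lit 3239) (nat_lit 8) (nat_lit 11))
    (@En.i (nat_lit 8209) (nat_lit 9) (nat_lit 11))
    (@En.n l17 (nat_lit 3245) (nat_lit 9) (nat_lit 2))
    (@En.i (nat_lit 2878) (nat_lit 10) (nat_lit 3))
    (@En.i (nat_lit 13364) (nat_lit 0) (nat_lit 14))
    (@En.i (nat_lit 2038) (nat_lit 13) (nat_lit 9))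
    (@En.n l564 (nat_lit 3473) (nat_lit 14) (nat_lit 13))
    (@En.n l3506 (nat_lit 3248) (nat_lit 4) (nat_lit 8))
    (@En.n l28 (nat_lit 3245) (nat_lit 15) (nat_lit 2))))
  (@Cl.mk (nat_lit 0x30003000a000a0008000b0007000c00060006000500040008000d000d0009) (nat_lit 0x400200005000) (nat_lit 16) Lb.e (@T16.mk En
    (@En.n l18636 (nat_lit 5270) (nat_lit 0) (nat_lit 9))
    (@En.n l61 (nat_lit 3248) (nat_lit 3) (nat_lit 13))
    (@En.n l9939 (nat_lit 12059) (nat_lit 2) (nat_lit 13))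
    (@En.n l2491 (nat_lit 3249) (nat_lit 3) (nat_lit 8))
    (@En.n l17065 (nat_lit 3252) (nat_lit 4) (nat_lit 4))
    (@En.n l11 (nat_lit 3984) (nat_lit 5) (nat_lit 5))
    (@En.n l19274 (nat_lit 3250) (nat_lit 10) (nat_lit 6))
    (@En.n l4189 (nat_lit 1318) (nat_lit 7) (nat_lit 6))
    (@En.i (nat_lit 2875) (nat_lit 9) (nat_lit 12))
    (@En.n l134 (nat_lit 12196) (nat_lit 10) (nat_lit 7))
    (@En.i (nat_lit 5825) (nat_lit 7) (nat_lit 11))
    (@En.n l11363 (nat_lit 6111) (nat_lit 12) (nat_lit 8))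
    (@En.n l9976 (nat_lit 3251) (nat_lit 6) (nat_lit 10))
    (@En.i (nat_lit 10727) (nat_lit 14) (nat_lit 10))
    (@En.n l4927 (nat_lit 3247) (nat_lit 13) (nat_lit 3))
    (@En.n l18 (nat_lit 3248) (nat_lit 0) (nat_lit 3))))
  (@Cl.mk (nat_lit 0x2000a0003000a000a0008000b0006000c00060006000500040008000e000d) (nat_lit 0x500200002a1) (nat_lit 16) Lb.e (@T16.mk En
    (@En.n l8631 (nat_lit 3246) (nat_lit 2) (nat_lit 13))
    (@En.n l6539 (nat_lit 10334) (nat_lit 1) (nat_lit 14))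
    (@En.n l34231 (nat_lit 3253) (nat_lit 2) (nat_lit 8))
    (@En.n l23044 (nat_lit 5666) (nat_lit 3) (nat_lit 4))
    (@En.n l134 (nat_lit 5428) (nat_lit 4) (nat_lit 5))
    (@En.n l55 (nat_lit 6073) (nat_lit 5) (nat_lit 6))
    (@En.n l11084 (nat_lit 1321) (nat_lit 6) (nat_lit 6))
    (@En.n l11620 (nat_lit 3594) (nat_lit 8) (nat_lit 12))
    (@En.n l6295 (nat_lit 12285) (nat_lit 8) (nat_lit 6))
    (@En.i (nat_lit 5827) (nat_lit 10) (nat_lit 11))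
    (@En.n l1415 (nat_lit 6198) (nat_lit 11) (nat_lit 8))
    (@En.n l34232 (nat_lit 5669) (nat_lit 6) (nat_lit 10))
    (@En.i (nat_lit 9405) (nat_lit 13) (nat_lit 10))
    (@En.n l11621 (nat_lit 3246) (nat_lit 14) (nat_lit 3))
    (@En.i (nat_lit 5262) (nat_lit 0) (nat_lit 10))
    (@En.n l3 (nat_lit 3247) (nat_lit 15) (nat_lit 2))))
noncomputable def a203 : T16 Cl := @T16.mk Cl
  (@Cl.mk (nat_lit 0x2000a000a0008000b0008000c00060006000500040008000d0008000e0003) (nat_lit 0x505200005b080) (nat_lit 16) Lb.e (@T16.mk En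
    (@En.i (nat_lit 3246) (nat_lit 15) (nat_lit 3))
    (@En.i (nat_lit 13636) (nat_lit 0) (nat_lit 14))
    (@En.i (nat_lit 7714) (nat_lit 2) (nat_lit 8))
    (@En.n l9939 (nat_lit 12058) (nat_lit 4) (nat_lit 13))
    (@En.n l2491 (nat_lit 3254) (nat_lit 4) (nat_lit 8))
    (@En.n l134 (nat_lit 5506) (nat_lit 5) (nat_lit 4))
    (@En.n l11 (nat_lit 3983) (nat_lit 6) (nat_lit 5))
    (@En.n l152 (nat_lit 6367) (nat_lit 10) (nat_lit 6))
    (@En.i (nat_lit 1320) (nat_lit 8) (nat_lit 6))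
    (@En.i (nat_lit 3605) (nat_lit 10) (nat_lit 12))
    (@En.n l134 (nat_lit 12199) (nat_lit 11) (nat_lit 8))
    (@En.i (nat_lit 5826) (nat_lit 12) (nat_lit 11))
    (@En.i (nat_lit 6110) (nat_lit 13) (nat_lit 8))
    (@En.n l5579 (nat_lit 5505) (nat_lit 6) (nat_lit 10))
    (@En.i (nat_lit 10726) (nat_lit 14) (nat_lit 10))
    (@En.n l17 (nat_lit 3248) (nat_lit 15) (nat_lit 2))))
  (@Cl.mk (nat_lit 0x30003000900090008000d000b000800030007000700050008000d000d0008) (nat_lit 0x401000004000) (nat_lit 16) Lb.e (@T16.mk En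
    (@En.n l22846 (nat_lit 5269) (nat_lit 0) (nat_lit 8))
    (@En.n l61 (nat_lit 3254) (nat_lit 3) (nat_lit 13))
    (@En.n l3528 (nat_lit 12006) (nat_lit 11) (nat_lit 13))
    (@En.n l7471 (nat_lit 2959) (nat_lit 10) (nat_lit 8))
    (@En.n l6076 (nat_lit 5429) (nat_lit 4) (nat_lit 5))
    (@En.n l152 (nat_lit 3255) (nat_lit 9) (nat_lit 7))
    (@En.n l22679 (nat_lit 1322) (nat_lit 6) (nat_lit 7))
    (@En.n l22847 (nat_lit 3252) (nat_lit 7) (nat_lit 3))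
    (@En.i (nat_lit 8965) (nat_lit 0) (nat_lit 8))
    (@En.n l6698 (nat_lit 3246) (nat_lit 10) (nat_lit 11))
    (@En.n l17285 (nat_lit 3257) (nat_lit 11) (nat_lit 13))
    (@En.n l4758 (nat_lit 6109) (nat_lit 12) (nat_lit 8))
    (@En.n l22848 (nat_lit 3256) (nat_lit 7) (nat_lit 9))
    (@En.n l5801 (nat_lit 10728) (nat_lit 5) (nat_lit 9))
    (@En.n l22849 (nat_lit 3253) (nat_lit 13) (nat_lit 3))
    (@En.n l18 (nat_lit 3254) (nat_lit 0) (nat_lit 3))))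
  (@Cl.mk (nat_lit 0x20009000c0008000d0006000400030007000d000d000800030003000e000a) (nat_lit 0x2005000000000b1) (nat_lit 16) Lb.e (@T16.mk En
    (@En.n l8631 (nat_lit 3246) (nat_lit 13) (nat_lit 10))
    (@En.n l476 (nat_lit 12144) (nat_lit 1) (nat_lit 14))
    (@En.n l152 (nat_lit 6073) (nat_lit 13) (nat_lit 3))
    (@En.n l20805 (nat_lit 6367) (nat_lit 3) (nat_lit 3))
    (@En.n l97 (nat_lit 7490) (nat_lit 4) (nat_lit 8))
    (@En.n l21885 (nat_lit 6367) (nat_lit 6) (nat_lit 13))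
    (@En.i (nat_lit 12244) (nat_lit 7) (nat_lit 13))
    (@En.n l27716 (nat_lit 3255) (nat_lit 7) (nat_lit 7))
    (@En.i (nat_lit 5650) (nat_lit 8) (nat_lit 3))
    (@En.i (nat_lit 5867) (nat_lit 0) (nat_lit 4))
    (@En.i (nat_lit 6077) (nat_lit 6) (nat_lit 6))
    (@En.n l8631 (nat_lit 3515) (nat_lit 12) (nat_lit 13))
    (@En.n l5022 (nat_lit 6379) (nat_lit 13) (nat_lit 8))
    (@En.i (nat_lit 4671) (nat_lit 14) (nat_lit 12))
    (@En.n l5825 (nat_lit 726) (nat_lit 11) (nat_lit 9))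
    (@En.n l28 (nat_lit 3250) (nat_lit 15) (nat_lit 2))))
  (@Cl.mk (nat_lit 0x2000600050009000d000d000a00030003000a0007000a0006000b000e0006) (nat_lit 0x4000008050290) (nat_lit 16) Lb.e (@T16.mk En
    (@En.n l22266 (nat_lit 3246) (nat_lit 7) (nat_lit 6))
    (@En.i (nat_lit 3109) (nat_lit 4) (nat_lit 14))
    (@En.n l1684 (nat_lit 3595) (nat_lit 2) (nat_lit 11))
    (@En.n l23593 (nat_lit 5677) (nat_lit 3) (nat_lit 6))
    (@En.i (nat_lit 5821) (nat_lit 4) (nat_lit 10))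
    (@En.n l19792 (nat_lit 5994) (nat_lit 5) (nat_lit 7))
    (@En.n l3609 (nat_lit 8456) (nat_lit 7) (nat_lit 10))
    (@En.n l23594 (nat_lit 5669) (nat_lit 7) (nat_lit 3))
    (@En.n l1362 (nat_lit 5505) (nat_lit 8) (nat_lit 3))
    (@En.n l19792 (nat_lit 5273) (nat_lit 10) (nat_lit 10))
    (@En.n l5207 (nat_lit 5505) (nat_lit 11) (nat_lit 13))
    (@En.n l3502 (nat_lit 10943) (nat_lit 12) (nat_lit 13))
    (@En.n l23595 (nat_lit 3256) (nat_lit 13) (nat_lit 9))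
    (@En.n l23596 (nat_lit 5504) (nat_lit 14) (nat_lit 5))
    (@En.n l23597 (nat_lit 3917) (nat_lit 5) (nat_lit 6))
    (@En.n l7 (nat_lit 3251) (nat_lit 15) (nat_lit 2))))
  (@Cl.mk (nat_lit 0x30003000900090008000d0007000c00030007000700040008000d000d0009) (nat_lit 0x630200001000) (nat_lit 16) Lb.e (@T16.mk En
    (@En.n l11383 (nat_lit 5271) (nat_lit 0) (nat_lit 9))
    (@En.n l28561 (nat_lit 5506) (nat_lit 3) (nat_lit 13))
    (@En.n l9155 (nat_lit 12007) (nat_lit 11) (nat_lit 13))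
    (@En.n l11386 (nat_lit 49) (nat_lit 3) (nat_lit 8))
    (@En.n l11383 (nat_lit 5626) (nat_lit 4) (nat_lit 4))
    (@En.n l28562 (nat_lit 5650) (nat_lit 9) (nat_lit 7))
    (@En.n l14973 (nat_lit 5632) (nat_lit 6) (nat_lit 7))
    (@En.n l28563 (nat_lit 3249) (nat_lit 7) (nat_lit 3))
    (@En.n l14826 (nat_lit 3600) (nat_lit 0) (nat_lit 12))
    (@En.n l28564 (nat_lit 9241) (nat_lit 10) (nat_lit 7))
    (@En.n l50 (nat_lit 5553) (nat_lit 11) (nat_lit 13))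
    (@En.n l5355 (nat_lit 6105) (nat_lit 12) (nat_lit 8))
    (@En.n l10952 (nat_lit 5504) (nat_lit 7) (nat_lit 9))
    (@En.n l17953 (nat_lit 10729) (nat_lit 5) (nat_lit 9))
    (@En.n l15355 (nat_lit 5666) (nat_lit 13) (nat_lit 3))
    (@En.n l19721 (nat_lit 5506) (nat_lit 0) (nat_lit 3))))
  (@Cl.mk (nat_lit 0x200090003000900090008000d000b000700030007000700050008000e000d) (nat_lit 0x601000001a1) (nat_lit 16) Lb.e (@T16.mk En
    (@En.n l27318 (nat_lit 3249) (nat_lit 2) (nat_lit 13))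
    (@En.n l5577 (nat_lit 10336) (nat_lit 1) (nat_lit 14))
    (@En.n l27319 (nat_lit 50) (nat_lit 2) (nat_lit 8))
    (@En.n l25261 (nat_lit 5430) (nat_lit 3) (nat_lit 5))
    (@En.n l27320 (nat_lit 6072) (nat_lit 4) (nat_lit 7))
    (@En.n l27321 (nat_lit 1325) (nat_lit 5) (nat_lit 7))
    (@En.n l18 (nat_lit 5666) (nat_lit 6) (nat_lit 3))
    (@En.n l15823 (nat_lit 8963) (nat_lit 0) (nat_lit 7))
    (@En.n l27322 (nat_lit 3247) (nat_lit 9) (nat_lit 11))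
    (@En.n l27323 (nat_lit 5640) (nat_lit 10) (nat_lit 13))
    (@En.n l3536 (nat_lit 6112) (nat_lit 11) (nat_lit 8))
    (@En.n l152 (nat_lit 5668) (nat_lit 7) (nat_lit 9))
    (@En.n l117 (nat_lit 7960) (nat_lit 13) (nat_lit 9))
    (@En.n l10308 (nat_lit 3249) (nat_lit 14) (nat_lit 3))
    (@En.n l27324 (nat_lit 5261) (nat_lit 0) (nat_lit 9))
    (@En.n l28 (nat_lit 3253) (nat_lit 15) (nat_lit 2))))
  (@Cl.mk (nat_lit 0x2000900090008000d000b000900030007000700050008000d0007000e0003) (nat_lit 0x501600004b000) (nat_lit 16) Lb.e (@T16.mk En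
    (@En.i (nat_lit 3249) (nat_lit 15) (nat_lit 3))
    (@En.i (nat_lit 13638) (nat_lit 0) (nat_lit 14))
    (@En.n l3506 (nat_lit 7715) (nat_lit 2) (nat_lit 7))
    (@En.n l3528 (nat_lit 12005) (nat_lit 11) (nat_lit 13))
    (@En.n l7471 (nat_lit 5442) (nat_lit 4) (nat_lit 8))
    (@En.n l6076 (nat_lit 5431) (nat_lit 5) (nat_lit 5))
    (@En.n l152 (nat_lit 6368) (nat_lit 9) (nat_lit 7))
    (@En.i (nat_lit 3258) (nat_lit 7) (nat_lit 7))
    (@En.n l3766 (nat_lit 5506) (nat_lit 8) (nat_lit 3))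
    (@En.i (nat_lit 10036) (nat_lit 0) (nat_lit 9))
    (@En.n l6698 (nat_lit 3248) (nat_lit 11) (nat_lit 11))
    (@En.n l1578 (nat_lit 5638) (nat_lit 12) (nat_lit 13))
    (@En.n l4758 (nat_lit 6107) (nat_lit 13) (nat_lit 8))
    (@En.n l1140 (nat_lit 5503) (nat_lit 7) (nat_lit 9))
    (@En.i (nat_lit 10725) (nat_lit 5) (nat_lit 9))
    (@En.n l17 (nat_lit 3254) (nat_lit 15) (nat_lit 2))))
  (@Cl.mk (nat_lit 0x20009000d000c00090003000700040007000d000d000700030003000e0009) (nat_lit 0x201000000000071) (nat_lit 16) Lb.e (@T16.mk En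
    (@En.i (nat_lit 3249) (nat_lit 13) (nat_lit 9))
    (@En.i (nat_lit 12233) (nat_lit 1) (nat_lit 14))
    (@En.n l5331 (nat_lit 6072) (nat_lit 13) (nat_lit 3))
    (@En.n l18 (nat_lit 6368) (nat_lit 3) (nat_lit 3))
    (@En.n l1347 (nat_lit 7489) (nat_lit 4) (nat_lit 7))
    (@En.n l61 (nat_lit 6368) (nat_lit 6) (nat_lit 13))
    (@En.n l2572 (nat_lit 12235) (nat_lit 7) (nat_lit 13))
    (@En.n l7471 (nat_lit 5129) (nat_lit 7) (nat_lit 7))
    (@En.n l17285 (nat_lit 5865) (nat_lit 8) (nat_lit 4))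
    (@En.n l4019 (nat_lit 6079) (nat_lit 5) (nat_lit 7))
    (@En.n l13431 (nat_lit 5650) (nat_lit 10) (nat_lit 3))
    (@En.i (nat_lit 9035) (nat_lit 0) (nat_lit 9))
    (@En.n l27030 (nat_lit 3250) (nat_lit 13) (nat_lit 12))
    (@En.n l17285 (nat_lit 5639) (nat_lit 14) (nat_lit 13))
    (@En.i (nat_lit 729) (nat_lit 11) (nat_lit 9))
    (@En.n l3 (nat_lit 3255) (nat_lit 15) (nat_lit 2))))
  (@Cl.mk (nat_lit 0x200060009000d000d00090003000300090007000d000a00070003000e0007) (nat_lit 0x30000070060090) (nat_lit 16) Lb.e (@T16.mk En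
    (@En.n l10308 (nat_lit 3249) (nat_lit 6) (nat_lit 7))
    (@En.n l10309 (nat_lit 3108) (nat_lit 1) (nat_lit 14))
    (@En.n l18 (nat_lit 5504) (nat_lit 2) (nat_lit 3))
    (@En.n l6479 (nat_lit 8959) (nat_lit 3) (nat_lit 7))
    (@En.n l10310 (nat_lit 3251) (nat_lit 4) (nat_lit 10))
    (@En.n l4021 (nat_lit 5544) (nat_lit 6) (nat_lit 13))
    (@En.i (nat_lit 5990) (nat_lit 6) (nat_lit 7))
    (@En.n l10311 (nat_lit 8455) (nat_lit 8) (nat_lit 9))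
    (@En.n l7 (nat_lit 5668) (nat_lit 8) (nat_lit 3))
    (@En.n l10145 (nat_lit 5503) (nat_lit 9) (nat_lit 3))
    (@En.i (nat_lit 5848) (nat_lit 11) (nat_lit 9))
    (@En.n l10312 (nat_lit 5503) (nat_lit 12) (nat_lit 13))
    (@En.n l10313 (nat_lit 10937) (nat_lit 13) (nat_lit 13))
    (@En.n l617 (nat_lit 5130) (nat_lit 9) (nat_lit 9))
    (@En.i (nat_lit 5512) (nat_lit 4) (nat_lit 6))
    (@En.n l3 (nat_lit 3256) (nat_lit 15) (nat_lit 2))))
  (@Cl.mk (nat_lit 0x3000300090009000d000a00070003000c0007000700060004000d000d0009) (nat_lit 0xb60030000000) (nat_lit 16) Lb.e (@T16.mk En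
    (@En.n l97 (nat_lit 7732) (nat_lit 0) (nat_lit 9))
    (@En.n l2503 (nat_lit 5638) (nat_lit 3) (nat_lit 13))
    (@En.n l7003 (nat_lit 10466) (nat_lit 2) (nat_lit 13))
    (@En.n l38477 (nat_lit 3628) (nat_lit 3) (nat_lit 4))
    (@En.n l6996 (nat_lit 5405) (nat_lit 4) (nat_lit 6))
    (@En.n l55 (nat_lit 5639) (nat_lit 9) (nat_lit 7))
    (@En.n l7003 (nat_lit 5518) (nat_lit 6) (nat_lit 7))
    (@En.n l13955 (nat_lit 3246) (nat_lit 8) (nat_lit 12))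
    (@En.n l13950 (nat_lit 5553) (nat_lit 8) (nat_lit 3))
    (@En.n l17546 (nat_lit 10125) (nat_lit 0) (nat_lit 7))
    (@En.n l217 (nat_lit 4133) (nat_lit 11) (nat_lit 10))
    (@En.n l29567 (nat_lit 5659) (nat_lit 12) (nat_lit 13))
    (@En.n l38478 (nat_lit 5544) (nat_lit 7) (nat_lit 9))
    (@En.n l38479 (nat_lit 10721) (nat_lit 14) (nat_lit 9))
    (@En.n l152 (nat_lit 5640) (nat_lit 13) (nat_lit 3))
    (@En.n l16716 (nat_lit 5638) (nat_lit 0) (nat_lit 3))))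
  (@Cl.mk (nat_lit 0x20009000d000a00090003000c000a0007000600040007000d0006000e0003) (nat_lit 0x1b120100000b0c0) (nat_lit 16) Lb.e (@T16.mk En
    (@En.n l22679 (nat_lit 1322) (nat_lit 15) (nat_lit 3))
    (@En.i (nat_lit 13782) (nat_lit 0) (nat_lit 14))
    (@En.n l4263 (nat_lit 3162) (nat_lit 2) (nat_lit 6))
    (@En.n l3528 (nat_lit 10173) (nat_lit 4) (nat_lit 13))
    (@En.n l5928 (nat_lit 2950) (nat_lit 4) (nat_lit 7))
    (@En.n l7 (nat_lit 3012) (nat_lit 5) (nat_lit 4))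
    (@En.n l5891 (nat_lit 6236) (nat_lit 6) (nat_lit 6))
    (@En.n l22680 (nat_lit 4273) (nat_lit 7) (nat_lit 7))
    (@En.i (nat_lit 8584) (nat_lit 9) (nat_lit 10))
    (@En.n l6698 (nat_lit 1320) (nat_lit 10) (nat_lit 12))
    (@En.n l9956 (nat_lit 3259) (nat_lit 10) (nat_lit 3))
    (@En.n l4758 (nat_lit 1200) (nat_lit 12) (nat_lit 9))
    (@En.n l22681 (nat_lit 876) (nat_lit 13) (nat_lit 10))
    (@En.n l3528 (nat_lit 5529) (nat_lit 14) (nat_lit 13))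
    (@En.i (nat_lit 2825) (nat_lit 14) (nat_lit 9))
    (@En.n l17 (nat_lit 3258) (nat_lit 15) (nat_lit 2))))
  (@Cl.mk (nat_lit 0x20009000d0008000b0003000c000a0007000500040008000d0006000e0003) (nat_lit 0x1b120650002b070) (nat_lit 16) Lb.e (@T16.mk En
    (@En.n l6785 (nat_lit 3019) (nat_lit 15) (nat_lit 3))
    (@En.i (nat_lit 13781) (nat_lit 0) (nat_lit 14))
    (@En.i (nat_lit 3155) (nat_lit 2) (nat_lit 6))
    (@En.i (nat_lit 10174) (nat_lit 4) (nat_lit 13))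
    (@En.n l899 (nat_lit 3018) (nat_lit 4) (nat_lit 8))
    (@En.n l1003 (nat_lit 3017) (nat_lit 5) (nat_lit 4))
    (@En.n l6788 (nat_lit 6310) (nat_lit 6) (nat_lit 5))
    (@En.n l17005 (nat_lit 3738) (nat_lit 7) (nat_lit 7))
    (@En.n l619 (nat_lit 9773) (nat_lit 9) (nat_lit 10))
    (@En.n l19334 (nat_lit 4487) (nat_lit 10) (nat_lit 12))
    (@En.n l3522 (nat_lit 3258) (nat_lit 10) (nat_lit 3))
    (@En.n l6788 (nat_lit 4091) (nat_lit 12) (nat_lit 11))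
    (@En.n l8922 (nat_lit 1320) (nat_lit 13) (nat_lit 8))
    (@En.i (nat_lit 5530) (nat_lit 14) (nat_lit 13))
    (@En.i (nat_lit 2828) (nat_lit 14) (nat_lit 9))
    (@En.n l7 (nat_lit 3259) (nat_lit 15) (nat_lit 2))))
  (@Cl.mk (nat_lit 0x20008000d000d000a00030003000c000b000800060004000d0005000e0003) (nat_lit 0x5ab200700002000) (nat_lit 16) Lb.e (@T16.mk En
    (@En.n l19348 (nat_lit 3263) (nat_lit 15) (nat_lit 3))
    (@En.i (nat_lit 13691) (nat_lit 0) (nat_lit 14))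
    (@En.n l25684 (nat_lit 3269) (nat_lit 2) (nat_lit 5))
    (@En.n l38307 (nat_lit 3971) (nat_lit 9) (nat_lit 13))
    (@En.n l11973 (nat_lit 3081) (nat_lit 4) (nat_lit 4))
    (@En.i (nat_lit 3821) (nat_lit 5) (nat_lit 6))
    (@En.n l19342 (nat_lit 3881) (nat_lit 6) (nat_lit 8))
    (@En.n l644 (nat_lit 3762) (nat_lit 8) (nat_lit 11))
    (@En.n l10008 (nat_lit 3259) (nat_lit 9) (nat_lit 12))
    (@En.n l11 (nat_lit 3264) (nat_lit 9) (nat_lit 3))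
    (@En.n l5870 (nat_lit 3262) (nat_lit 10) (nat_lit 3))
    (@En.i (nat_lit 3271) (nat_lit 12) (nat_lit 10))
    (@En.n l2691 (nat_lit 3262) (nat_lit 13) (nat_lit 13))
    (@En.n l5859 (nat_lit 3046) (nat_lit 14) (nat_lit 13))
    (@En.i (nat_lit 3658) (nat_lit 3) (nat_lit 8))
    (@En.n l17 (nat_lit 3260) (nat_lit 15) (nat_lit 2))))
  (@Cl.mk (nat_lit 0x2000c000a000800070004000d000d0006000300030008000d0009000e0003) (nat_lit 0x27000230005a1c0) (nat_lit 16) Lb.e (@T16.mk En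
    (@En.n l19681 (nat_lit 3263) (nat_lit 9) (nat_lit 3))
    (@En.n l619 (nat_lit 12978) (nat_lit 0) (nat_lit 14))
    (@En.n l20715 (nat_lit 3092) (nat_lit 2) (nat_lit 9))
    (@En.i (nat_lit 3043) (nat_lit 13) (nat_lit 13))
    (@En.n l18946 (nat_lit 3663) (nat_lit 4) (nat_lit 8))
    (@En.n l3519 (nat_lit 3267) (nat_lit 13) (nat_lit 3))
    (@En.n l18 (nat_lit 3262) (nat_lit 0) (nat_lit 3))
    (@En.n l1347 (nat_lit 2076) (nat_lit 0) (nat_lit 6))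
    (@En.n l61 (nat_lit 3262) (nat_lit 3) (nat_lit 13))
    (@En.n l21659 (nat_lit 3970) (nat_lit 10) (nat_lit 13))
    (@En.n l7 (nat_lit 3082) (nat_lit 10) (nat_lit 4))
    (@En.n l1769 (nat_lit 3645) (nat_lit 12) (nat_lit 7))
    (@En.n l20715 (nat_lit 3878) (nat_lit 13) (nat_lit 8))
    (@En.i (nat_lit 3690) (nat_lit 14) (nat_lit 10))
    (@En.n l22679 (nat_lit 1322) (nat_lit 8) (nat_lit 12))
    (@En.n l11 (nat_lit 3261) (nat_lit 15) (nat_lit 2))))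
  (@Cl.mk (nat_lit 0x20008000d0009000e00030002000c000b000800070004000d0005000e0003) (nat_lit 0x5a2b00200002000) (nat_lit 16) Lb.e (@T16.mk En
    (@En.i (nat_lit 3261) (nat_lit 6) (nat_lit 3))
    (@En.i (nat_lit 13690) (nat_lit 0) (nat_lit 14))
    (@En.n l4263 (nat_lit 3272) (nat_lit 2) (nat_lit 5))
    (@En.n l564 (nat_lit 4354) (nat_lit 10) (nat_lit 13))
    (@En.n l7 (nat_lit 3084) (nat_lit 4) (nat_lit 4))
    (@En.n l1769 (nat_lit 3782) (nat_lit 12) (nat_lit 7))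
    (@En.i (nat_lit 3882) (nat_lit 6) (nat_lit 8))
    (@En.n l644 (nat_lit 3771) (nat_lit 8) (nat_lit 11))
    (@En.i (nat_lit 3258) (nat_lit 9) (nat_lit 12))
    (@En.n l11 (nat_lit 3262) (nat_lit 9) (nat_lit 2))
    (@En.n l1992 (nat_lit 3260) (nat_lit 10) (nat_lit 3))
    (@En.n l619 (nat_lit 12977) (nat_lit 0) (nat_lit 14))
    (@En.n l2576 (nat_lit 3098) (nat_lit 13) (nat_lit 9))
    (@En.i (nat_lit 3045) (nat_lit 14) (nat_lit 13))
    (@En.i (nat_lit 3661) (nat_lit 4) (nat_lit 8))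
    (@En.n l17 (nat_lit 3262) (nat_lit 15) (nat_lit 2))))
  (@Cl.mk (nat_lit 0x300030008000d000d000a00030003000c000a000800060004000d000d0006) (nat_lit 0x5ab20017000230) (nat_lit 16) Lb.e (@T16.mk En
    (@En.n l11367 (nat_lit 2073) (nat_lit 0) (nat_lit 6))
    (@En.n l15554 (nat_lit 3260) (nat_lit 3) (nat_lit 13))
    (@En.n l8047 (nat_lit 3968) (nat_lit 9) (nat_lit 13))
    (@En.n l28 (nat_lit 3083) (nat_lit 3) (nat_lit 4))
    (@En.n l15557 (nat_lit 3822) (nat_lit 4) (nat_lit 6))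
    (@En.i (nat_lit 3875) (nat_lit 5) (nat_lit 8))
    (@En.n l12842 (nat_lit 3691) (nat_lit 13) (nat_lit 10))
    (@En.n l8329 (nat_lit 3019) (nat_lit 8) (nat_lit 12))
    (@En.n l152 (nat_lit 3265) (nat_lit 13) (nat_lit 3))
    (@En.n l26584 (nat_lit 3261) (nat_lit 0) (nat_lit 3))
    (@En.n l14017 (nat_lit 3270) (nat_lit 0) (nat_lit 10))
    (@En.n l26585 (nat_lit 3261) (nat_lit 3) (nat_lit 13))
    (@En.n l6657 (nat_lit 3044) (nat_lit 13) (nat_lit 13))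
    (@En.i (nat_lit 3662) (nat_lit 3) (nat_lit 8))
    (@En.n l18 (nat_lit 3266) (nat_lit 13) (nat_lit 3))
    (@En.n l26586 (nat_lit 3260) (nat_lit 0) (nat_lit 3))))
noncomputable def a204 : T16 Cl := @T16.mk Cl
  (@Cl.mk (nat_lit 0x20008000e000d0002000b0003000c000b000800050004000d0005000e0003) (nat_lit 0x6b090800002000) (nat_lit 16) Lb.e (@T16.mk En
    (@En.n l12112 (nat_lit 3265) (nat_lit 4) (nat_lit 3))
    (@En.n l1592 (nat_lit 13692) (nat_lit 0) (nat_lit 14))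
    (@En.n l25710 (nat_lit 3274) (nat_lit 2) (nat_lit 5))
    (@En.n l1448 (nat_lit 4350) (nat_lit 8) (nat_lit 13))
    (@En.n l25711 (nat_lit 3085) (nat_lit 4) (nat_lit 4))
    (@En.i (nat_lit 3834) (nat_lit 9) (nat_lit 5))
    (@En.n l1410 (nat_lit 3883) (nat_lit 6) (nat_lit 8))
    (@En.n l644 (nat_lit 3770) (nat_lit 8) (nat_lit 11))
    (@En.n l3638 (nat_lit 4482) (nat_lit 9) (nat_lit 12))
    (@En.i (nat_lit 3260) (nat_lit 9) (nat_lit 3))
    (@En.n l575 (nat_lit 3315) (nat_lit 11) (nat_lit 11))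
    (@En.n l67 (nat_lit 3264) (nat_lit 11) (nat_lit 2))
    (@En.n l68 (nat_lit 3260) (nat_lit 13) (nat_lit 13))
    (@En.n l3638 (nat_lit 2904) (nat_lit 1) (nat_lit 14))
    (@En.n l18772 (nat_lit 4584) (nat_lit 2) (nat_lit 8))
    (@En.n l17 (nat_lit 3264) (nat_lit 15) (nat_lit 2))))
  (@Cl.mk (nat_lit 0x2000b0003000c000a000800050004000d000d0006000300030008000e000d) (nat_lit 0x90076002300046b) (nat_lit 16) Lb.e (@T16.mk En
    (@En.i (nat_lit 3263) (nat_lit 12) (nat_lit 13))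
    (@En.n l1308 (nat_lit 3048) (nat_lit 1) (nat_lit 14))
    (@En.n l7406 (nat_lit 4585) (nat_lit 2) (nat_lit 8))
    (@En.n l18 (nat_lit 3268) (nat_lit 13) (nat_lit 3))
    (@En.n l13998 (nat_lit 3264) (nat_lit 0) (nat_lit 3))
    (@En.n l11367 (nat_lit 2072) (nat_lit 0) (nat_lit 6))
    (@En.n l13999 (nat_lit 3264) (nat_lit 3) (nat_lit 13))
    (@En.n l4909 (nat_lit 3969) (nat_lit 8) (nat_lit 13))
    (@En.n l28 (nat_lit 3086) (nat_lit 8) (nat_lit 4))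
    (@En.n l4283 (nat_lit 3825) (nat_lit 9) (nat_lit 5))
    (@En.i (nat_lit 3880) (nat_lit 11) (nat_lit 8))
    (@En.n l3219 (nat_lit 3774) (nat_lit 12) (nat_lit 10))
    (@En.n l6672 (nat_lit 4480) (nat_lit 13) (nat_lit 12))
    (@En.n l117 (nat_lit 3263) (nat_lit 8) (nat_lit 3))
    (@En.i (nat_lit 3318) (nat_lit 0) (nat_lit 11))
    (@En.n l3 (nat_lit 3265) (nat_lit 15) (nat_lit 2))))
  (@Cl.mk (nat_lit 0x2000700030008000d000d000a00030003000c0009000800060004000e000d) (nat_lit 0x4ab2009760023) (nat_lit 16) Lb.e (@T16.mk En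
    (@En.n l396 (nat_lit 3263) (nat_lit 2) (nat_lit 13))
    (@En.n l4316 (nat_lit 3241) (nat_lit 1) (nat_lit 14))
    (@En.n l28 (nat_lit 3087) (nat_lit 2) (nat_lit 4))
    (@En.n l2438 (nat_lit 3823) (nat_lit 3) (nat_lit 6))
    (@En.i (nat_lit 3877) (nat_lit 4) (nat_lit 8))
    (@En.n l12842 (nat_lit 3963) (nat_lit 5) (nat_lit 9))
    (@En.n l4108 (nat_lit 4490) (nat_lit 7) (nat_lit 12))
    (@En.n l152 (nat_lit 3268) (nat_lit 7) (nat_lit 3))
    (@En.n l6586 (nat_lit 3267) (nat_lit 8) (nat_lit 3))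
    (@En.n l4684 (nat_lit 3724) (nat_lit 10) (nat_lit 10))
    (@En.n l12843 (nat_lit 3267) (nat_lit 11) (nat_lit 13))
    (@En.n l6654 (nat_lit 4198) (nat_lit 12) (nat_lit 13))
    (@En.n l17 (nat_lit 4484) (nat_lit 13) (nat_lit 8))
    (@En.i (nat_lit 3263) (nat_lit 14) (nat_lit 3))
    (@En.n l12400 (nat_lit 2363) (nat_lit 0) (nat_lit 7))
    (@En.n l50 (nat_lit 3266) (nat_lit 15) (nat_lit 2))))
  (@Cl.mk (nat_lit 0x2000700030008000d0009000e00030002000c0009000800070004000e000d) (nat_lit 0x5a2b002700043) (nat_lit 16) Lb.e (@T16.mk En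
    (@En.n l4130 (nat_lit 3261) (nat_lit 9) (nat_lit 13))
    (@En.n l3357 (nat_lit 3623) (nat_lit 1) (nat_lit 14))
    (@En.n l2199 (nat_lit 3895) (nat_lit 2) (nat_lit 4))
    (@En.n l5959 (nat_lit 3643) (nat_lit 3) (nat_lit 7))
    (@En.n l5959 (nat_lit 3876) (nat_lit 4) (nat_lit 8))
    (@En.n l61 (nat_lit 3962) (nat_lit 5) (nat_lit 9))
    (@En.n l5960 (nat_lit 1325) (nat_lit 7) (nat_lit 12))
    (@En.n l7 (nat_lit 3267) (nat_lit 7) (nat_lit 2))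
    (@En.n l2265 (nat_lit 3266) (nat_lit 8) (nat_lit 3))
    (@En.n l3337 (nat_lit 12981) (nat_lit 0) (nat_lit 14))
    (@En.n l5959 (nat_lit 3097) (nat_lit 11) (nat_lit 9))
    (@En.i (nat_lit 4197) (nat_lit 12) (nat_lit 13))
    (@En.n l2199 (nat_lit 4488) (nat_lit 13) (nat_lit 8))
    (@En.n l2832 (nat_lit 3261) (nat_lit 5) (nat_lit 3))
    (@En.n l3187 (nat_lit 2364) (nat_lit 0) (nat_lit 7))
    (@En.n l3 (nat_lit 3267) (nat_lit 15) (nat_lit 2))))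
  (@Cl.mk (nat_lit 0x2000700030008000e000d0002000b0003000c0009000800050004000e000d) (nat_lit 0x46b0009760043) (nat_lit 16) Lb.e (@T16.mk En
    (@En.n l396 (nat_lit 3265) (nat_lit 7) (nat_lit 13))
    (@En.n l4278 (nat_lit 3622) (nat_lit 1) (nat_lit 14))
    (@En.n l28 (nat_lit 3911) (nat_lit 2) (nat_lit 4))
    (@En.i (nat_lit 3835) (nat_lit 3) (nat_lit 5))
    (@En.i (nat_lit 3732) (nat_lit 11) (nat_lit 8))
    (@En.n l3219 (nat_lit 3966) (nat_lit 5) (nat_lit 9))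
    (@En.i (nat_lit 4479) (nat_lit 7) (nat_lit 12))
    (@En.n l117 (nat_lit 3266) (nat_lit 7) (nat_lit 3))
    (@En.i (nat_lit 3322) (nat_lit 9) (nat_lit 11))
    (@En.n l3 (nat_lit 3268) (nat_lit 9) (nat_lit 2))
    (@En.i (nat_lit 3266) (nat_lit 11) (nat_lit 13))
    (@En.i (nat_lit 3049) (nat_lit 12) (nat_lit 14))
    (@En.n l17 (nat_lit 4486) (nat_lit 13) (nat_lit 8))
    (@En.i (nat_lit 3265) (nat_lit 3) (nat_lit 3))
    (@En.n l2483 (nat_lit 2365) (nat_lit 0) (nat_lit 7))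
    (@En.n l50 (nat_lit 3268) (nat_lit 15) (nat_lit 2))))
  (@Cl.mk (nat_lit 0x20007000d000d000900030003000b000b000a0009000700050005000e0006) (nat_lit 0x683005680000c0) (nat_lit 16) Lb.e (@T16.mk En
    (@En.n l681 (nat_lit 1954) (nat_lit 5) (nat_lit 6))
    (@En.n l33974 (nat_lit 3319) (nat_lit 1) (nat_lit 14))
    (@En.n l5338 (nat_lit 3273) (nat_lit 2) (nat_lit 5))
    (@En.i (nat_lit 3077) (nat_lit 3) (nat_lit 5))
    (@En.n l13864 (nat_lit 2654) (nat_lit 4) (nat_lit 7))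
    (@En.n l27518 (nat_lit 3277) (nat_lit 5) (nat_lit 9))
    (@En.n l18508 (nat_lit 3263) (nat_lit 6) (nat_lit 10))
    (@En.n l18183 (nat_lit 3275) (nat_lit 8) (nat_lit 11))
    (@En.n l19313 (nat_lit 3155) (nat_lit 9) (nat_lit 11))
    (@En.n l152 (nat_lit 3274) (nat_lit 9) (nat_lit 3))
    (@En.n l146 (nat_lit 3272) (nat_lit 10) (nat_lit 3))
    (@En.n l13864 (nat_lit 1618) (nat_lit 12) (nat_lit 9))
    (@En.n l148 (nat_lit 3272) (nat_lit 13) (nat_lit 13))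
    (@En.n l31571 (nat_lit 4470) (nat_lit 14) (nat_lit 13))
    (@En.i (nat_lit 2107) (nat_lit 3) (nat_lit 7))
    (@En.n l18 (nat_lit 3269) (nat_lit 15) (nat_lit 2))))
  (@Cl.mk (nat_lit 0x2000b000b00090007000600050005000d000d0007000300030009000e000a) (nat_lit 0x351000045000571) (nat_lit 16) Lb.e (@T16.mk En
    (@En.n l12812 (nat_lit 1954) (nat_lit 12) (nat_lit 10))
    (@En.n l15708 (nat_lit 4157) (nat_lit 1) (nat_lit 14))
    (@En.n l10592 (nat_lit 3151) (nat_lit 2) (nat_lit 9))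
    (@En.n l152 (nat_lit 3724) (nat_lit 13) (nat_lit 3))
    (@En.n l15709 (nat_lit 3271) (nat_lit 0) (nat_lit 3))
    (@En.n l11642 (nat_lit 1615) (nat_lit 0) (nat_lit 7))
    (@En.n l11338 (nat_lit 3271) (nat_lit 3) (nat_lit 13))
    (@En.n l15710 (nat_lit 4357) (nat_lit 8) (nat_lit 13))
    (@En.n l4121 (nat_lit 3720) (nat_lit 11) (nat_lit 5))
    (@En.n l11101 (nat_lit 3265) (nat_lit 9) (nat_lit 5))
    (@En.n l13267 (nat_lit 3276) (nat_lit 10) (nat_lit 6))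
    (@En.i (nat_lit 3727) (nat_lit 12) (nat_lit 7))
    (@En.n l3208 (nat_lit 1373) (nat_lit 13) (nat_lit 9))
    (@En.n l61 (nat_lit 4092) (nat_lit 14) (nat_lit 11))
    (@En.n l396 (nat_lit 3314) (nat_lit 10) (nat_lit 11))
    (@En.n l7 (nat_lit 3270) (nat_lit 15) (nat_lit 2))))
  (@Cl.mk (nat_lit 0x20009000e000a0002000b000b000a0007000600050005000d0006000e0003) (nat_lit 0x571035100004070) (nat_lit 16) Lb.e (@T16.mk En
    (@En.n l13034 (nat_lit 3270) (nat_lit 4) (nat_lit 3))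
    (@En.i (nat_lit 12912) (nat_lit 0) (nat_lit 14))
    (@En.n l7 (nat_lit 1618) (nat_lit 2) (nat_lit 6))
    (@En.n l5369 (nat_lit 4356) (nat_lit 8) (nat_lit 13))
    (@En.n l237 (nat_lit 3721) (nat_lit 4) (nat_lit 5))
    (@En.i (nat_lit 3264) (nat_lit 5) (nat_lit 5))
    (@En.i (nat_lit 4098) (nat_lit 6) (nat_lit 6))
    (@En.n l13035 (nat_lit 4088) (nat_lit 7) (nat_lit 7))
    (@En.n l4380 (nat_lit 1372) (nat_lit 9) (nat_lit 10))
    (@En.n l134 (nat_lit 4091) (nat_lit 10) (nat_lit 11))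
    (@En.i (nat_lit 3317) (nat_lit 11) (nat_lit 11))
    (@En.n l67 (nat_lit 3271) (nat_lit 11) (nat_lit 2))
    (@En.n l1595 (nat_lit 1955) (nat_lit 13) (nat_lit 10))
    (@En.n l13036 (nat_lit 4160) (nat_lit 1) (nat_lit 14))
    (@En.i (nat_lit 4567) (nat_lit 2) (nat_lit 9))
    (@En.n l17 (nat_lit 3271) (nat_lit 15) (nat_lit 2))))
  (@Cl.mk (nat_lit 0x20007000d0008000e00030002000b000b000a0009000800050005000e0006) (nat_lit 0x759005680400c0) (nat_lit 16) Lb.e (@T16.mk En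
    (@En.i (nat_lit 1955) (nat_lit 6) (nat_lit 6))
    (@En.n l4108 (nat_lit 3316) (nat_lit 1) (nat_lit 14))
    (@En.n l152 (nat_lit 4182) (nat_lit 2) (nat_lit 5))
    (@En.n l2438 (nat_lit 3078) (nat_lit 3) (nat_lit 5))
    (@En.n l644 (nat_lit 2672) (nat_lit 11) (nat_lit 8))
    (@En.i (nat_lit 4106) (nat_lit 5) (nat_lit 9))
    (@En.n l4684 (nat_lit 3261) (nat_lit 13) (nat_lit 10))
    (@En.n l10815 (nat_lit 3286) (nat_lit 8) (nat_lit 11))
    (@En.i (nat_lit 3162) (nat_lit 9) (nat_lit 11))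
    (@En.n l17 (nat_lit 3272) (nat_lit 9) (nat_lit 2))
    (@En.n l137 (nat_lit 3269) (nat_lit 10) (nat_lit 3))
    (@En.n l4413 (nat_lit 12975) (nat_lit 0) (nat_lit 14))
    (@En.i (nat_lit 1615) (nat_lit 13) (nat_lit 8))
    (@En.n l2438 (nat_lit 4472) (nat_lit 14) (nat_lit 13))
    (@En.i (nat_lit 2431) (nat_lit 4) (nat_lit 7))
    (@En.n l28 (nat_lit 3272) (nat_lit 15) (nat_lit 2))))
  (@Cl.mk (nat_lit 0x20006000d000d000800030003000e000b0002000b000a00080005000e0005) (nat_lit 0x662006609450c0) (nat_lit 16) Lb.e (@T16.mk En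
    (@En.n l394 (nat_lit 1946) (nat_lit 9) (nat_lit 5))
    (@En.n l11059 (nat_lit 3991) (nat_lit 1) (nat_lit 14))
    (@En.n l137 (nat_lit 3853) (nat_lit 2) (nat_lit 5))
    (@En.n l12620 (nat_lit 2681) (nat_lit 13) (nat_lit 8))
    (@En.i (nat_lit 3282) (nat_lit 4) (nat_lit 10))
    (@En.n l12442 (nat_lit 4184) (nat_lit 11) (nat_lit 11))
    (@En.n l3 (nat_lit 3273) (nat_lit 6) (nat_lit 2))
    (@En.n l137 (nat_lit 3269) (nat_lit 8) (nat_lit 11))
    (@En.n l3108 (nat_lit 7049) (nat_lit 1) (nat_lit 14))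
    (@En.n l1777 (nat_lit 4183) (nat_lit 9) (nat_lit 3))
    (@En.n l18 (nat_lit 4182) (nat_lit 10) (nat_lit 3))
    (@En.n l404 (nat_lit 1910) (nat_lit 12) (nat_lit 8))
    (@En.n l61 (nat_lit 4182) (nat_lit 13) (nat_lit 13))
    (@En.n l1393 (nat_lit 4563) (nat_lit 7) (nat_lit 13))
    (@En.i (nat_lit 2100) (nat_lit 7) (nat_lit 6))
    (@En.n l28 (nat_lit 3273) (nat_lit 15) (nat_lit 2))))
  (@Cl.mk (nat_lit 0x20007000e000d0002000a0003000b000b000a0009000600050005000e0006) (nat_lit 0x670305780000c0) (nat_lit 16) Lb.e (@T16.mk En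
    (@En.n l50 (nat_lit 3090) (nat_lit 4) (nat_lit 6))
    (@En.n l18506 (nat_lit 3321) (nat_lit 1) (nat_lit 14))
    (@En.n l55 (nat_lit 4183) (nat_lit 2) (nat_lit 5))
    (@En.i (nat_lit 3079) (nat_lit 3) (nat_lit 5))
    (@En.n l7582 (nat_lit 3707) (nat_lit 8) (nat_lit 6))
    (@En.n l18507 (nat_lit 3279) (nat_lit 5) (nat_lit 9))
    (@En.n l18508 (nat_lit 3265) (nat_lit 11) (nat_lit 10))
    (@En.n l2281 (nat_lit 3287) (nat_lit 8) (nat_lit 11))
    (@En.n l10486 (nat_lit 3172) (nat_lit 9) (nat_lit 11))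
    (@En.n l117 (nat_lit 3269) (nat_lit 9) (nat_lit 3))
    (@En.i (nat_lit 1974) (nat_lit 11) (nat_lit 10))
    (@En.n l3 (nat_lit 3274) (nat_lit 11) (nat_lit 2))
    (@En.i (nat_lit 3269) (nat_lit 13) (nat_lit 13))
    (@En.n l10486 (nat_lit 2907) (nat_lit 1) (nat_lit 14))
    (@En.n l18509 (nat_lit 2401) (nat_lit 2) (nat_lit 7))
    (@En.n l18 (nat_lit 3274) (nat_lit 15) (nat_lit 2))))
  (@Cl.mk (nat_lit 0x20008000d000d000a00030003000b000900080006000e00050002000e0007) (nat_lit 0x612200576020010) (nat_lit 16) Lb.e (@T16.mk En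
    (@En.n l5240 (nat_lit 3091) (nat_lit 14) (nat_lit 7))
    (@En.n l2243 (nat_lit 334) (nat_lit 1) (nat_lit 14))
    (@En.n l17 (nat_lit 3275) (nat_lit 2) (nat_lit 2))
    (@En.n l22293 (nat_lit 3269) (nat_lit 3) (nat_lit 5))
    (@En.n l20895 (nat_lit 3288) (nat_lit 5) (nat_lit 14))
    (@En.n l2054 (nat_lit 3748) (nat_lit 5) (nat_lit 6))
    (@En.i (nat_lit 4104) (nat_lit 6) (nat_lit 8))
    (@En.n l1218 (nat_lit 3689) (nat_lit 4) (nat_lit 9))
    (@En.n l564 (nat_lit 7725) (nat_lit 9) (nat_lit 11))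
    (@En.n l22294 (nat_lit 3287) (nat_lit 9) (nat_lit 3))
    (@En.n l2530 (nat_lit 3286) (nat_lit 10) (nat_lit 3))
    (@En.n l4380 (nat_lit 1944) (nat_lit 12) (nat_lit 10))
    (@En.n l22295 (nat_lit 3286) (nat_lit 13) (nat_lit 13))
    (@En.n l22296 (nat_lit 3139) (nat_lit 14) (nat_lit 13))
    (@En.n l359 (nat_lit 2126) (nat_lit 12) (nat_lit 8))
    (@En.n l3 (nat_lit 3275) (nat_lit 15) (nat_lit 2))))
  (@Cl.mk (nat_lit 0x30003000c000c000a000600040004000d000d000600030003000d000d000a) (nat_lit 0x77500035000894) (nat_lit 16) Lb.e (@T16.mk En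
    (@En.n l97 (nat_lit 1946) (nat_lit 0) (nat_lit 10))
    (@En.n l11338 (nat_lit 4099) (nat_lit 3) (nat_lit 13))
    (@En.i (nat_lit 10225) (nat_lit 2) (nat_lit 13))
    (@En.n l26975 (nat_lit 3277) (nat_lit 13) (nat_lit 3))
    (@En.n l18 (nat_lit 4098) (nat_lit 0) (nat_lit 3))
    (@En.n l7 (nat_lit 3269) (nat_lit 0) (nat_lit 6))
    (@En.n l61 (nat_lit 4098) (nat_lit 3) (nat_lit 13))
    (@En.n l2724 (nat_lit 4572) (nat_lit 8) (nat_lit 13))
    (@En.n l237 (nat_lit 3280) (nat_lit 12) (nat_lit 4))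
    (@En.i (nat_lit 3827) (nat_lit 9) (nat_lit 4))
    (@En.n l13034 (nat_lit 3276) (nat_lit 5) (nat_lit 6))
    (@En.n l55 (nat_lit 3758) (nat_lit 12) (nat_lit 10))
    (@En.n l134 (nat_lit 4096) (nat_lit 4) (nat_lit 12))
    (@En.i (nat_lit 3042) (nat_lit 9) (nat_lit 12))
    (@En.n l152 (nat_lit 3278) (nat_lit 13) (nat_lit 3))
    (@En.n l15709 (nat_lit 4099) (nat_lit 0) (nat_lit 3))))
  (@Cl.mk (nat_lit 0x200070003000d000d000a00030003000c000c0009000600040004000e000d) (nat_lit 0x9a40006700074) (nat_lit 16) Lb.e (@T16.mk En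
    (@En.n l13267 (nat_lit 3276) (nat_lit 7) (nat_lit 13))
    (@En.i (nat_lit 3615) (nat_lit 1) (nat_lit 14))
    (@En.n l12783 (nat_lit 3282) (nat_lit 2) (nat_lit 4))
    (@En.n l6884 (nat_lit 4024) (nat_lit 3) (nat_lit 4))
    (@En.i (nat_lit 3278) (nat_lit 4) (nat_lit 6))
    (@En.n l13268 (nat_lit 3884) (nat_lit 5) (nat_lit 9))
    (@En.n l61 (nat_lit 4104) (nat_lit 7) (nat_lit 12))
    (@En.n l1345 (nat_lit 4196) (nat_lit 8) (nat_lit 12))
    (@En.n l13269 (nat_lit 3279) (nat_lit 8) (nat_lit 3))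
    (@En.n l137 (nat_lit 4106) (nat_lit 9) (nat_lit 3))
    (@En.n l55 (nat_lit 1951) (nat_lit 11) (nat_lit 10))
    (@En.n l2207 (nat_lit 4106) (nat_lit 12) (nat_lit 13))
    (@En.n l11 (nat_lit 12503) (nat_lit 13) (nat_lit 13))
    (@En.n l13270 (nat_lit 3276) (nat_lit 3) (nat_lit 3))
    (@En.i (nat_lit 2400) (nat_lit 0) (nat_lit 7))
    (@En.n l3 (nat_lit 3277) (nat_lit 15) (nat_lit 2))))
  (@Cl.mk (nat_lit 0x2000b0003000c000c000a000500040004000d000d000600030003000e000d) (nat_lit 0x208780005600099) (nat_lit 16) Lb.e (@T16.mk En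
    (@En.i (nat_lit 3276) (nat_lit 2) (nat_lit 13))
    (@En.i (nat_lit 8666) (nat_lit 1) (nat_lit 14))
    (@En.n l1780 (nat_lit 3279) (nat_lit 13) (nat_lit 3))
    (@En.n l18 (nat_lit 4101) (nat_lit 3) (nat_lit 3))
    (@En.n l7 (nat_lit 3274) (nat_lit 0) (nat_lit 6))
    (@En.n l61 (nat_lit 4101) (nat_lit 6) (nat_lit 13))
    (@En.n l564 (nat_lit 4571) (nat_lit 7) (nat_lit 13))
    (@En.n l237 (nat_lit 3281) (nat_lit 7) (nat_lit 4))
    (@En.i (nat_lit 4026) (nat_lit 8) (nat_lit 4))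
    (@En.n l2853 (nat_lit 3280) (nat_lit 9) (nat_lit 5))
    (@En.n l55 (nat_lit 3887) (nat_lit 11) (nat_lit 10))
    (@En.n l134 (nat_lit 4103) (nat_lit 12) (nat_lit 12))
    (@En.n l11 (nat_lit 4593) (nat_lit 13) (nat_lit 12))
    (@En.n l117 (nat_lit 3276) (nat_lit 14) (nat_lit 3))
    (@En.i (nat_lit 1967) (nat_lit 0) (nat_lit 11))
    (@En.n l3 (nat_lit 3278) (nat_lit 15) (nat_lit 2))))
  (@Cl.mk (nat_lit 0x200070003000e000d0002000b0003000c000c0009000500040004000e000d) (nat_lit 0x8a02000700046) (nat_lit 16) Lb.e (@T16.mk En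
    (@En.n l5347 (nat_lit 3278) (nat_lit 6) (nat_lit 13))
    (@En.n l2786 (nat_lit 3620) (nat_lit 1) (nat_lit 14))
    (@En.i (nat_lit 3283) (nat_lit 2) (nat_lit 4))
    (@En.n l5348 (nat_lit 4023) (nat_lit 3) (nat_lit 4))
    (@En.n l5349 (nat_lit 3281) (nat_lit 4) (nat_lit 5))
    (@En.n l61 (nat_lit 3886) (nat_lit 5) (nat_lit 9))
    (@En.n l5350 (nat_lit 4108) (nat_lit 7) (nat_lit 12))
    (@En.i (nat_lit 4594) (nat_lit 8) (nat_lit 12))
    (@En.n l4576 (nat_lit 3277) (nat_lit 8) (nat_lit 3))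
    (@En.n l5351 (nat_lit 2358) (nat_lit 10) (nat_lit 11))
    (@En.n l28 (nat_lit 3279) (nat_lit 10) (nat_lit 2))
    (@En.n l5352 (nat_lit 3277) (nat_lit 12) (nat_lit 13))
    (@En.n l4575 (nat_lit 8953) (nat_lit 1) (nat_lit 14))
    (@En.n l5353 (nat_lit 3278) (nat_lit 2) (nat_lit 3))
    (@En.n l5354 (nat_lit 2398) (nat_lit 3) (nat_lit 7))
    (@En.n l3 (nat_lit 3279) (nat_lit 15) (nat_lit 2))))
noncomputable def a205 : T16 Cl := @T16.mk Cl
  (@Cl.mk (nat_lit 0x2000b00070004000d000d000500030003000d000d000900030003000e000c) (nat_lit 0x300000008820068) (nat_lit 16) Lb.e (@T16.mk En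
    (@En.n l77 (nat_lit 3276) (nat_lit 13) (nat_lit 12))
    (@En.i (nat_lit 7403) (nat_lit 1) (nat_lit 14))
    (@En.n l152 (nat_lit 3281) (nat_lit 13) (nat_lit 3))
    (@En.n l5161 (nat_lit 3284) (nat_lit 3) (nat_lit 3))
    (@En.n l97 (nat_lit 4659) (nat_lit 4) (nat_lit 9))
    (@En.n l11622 (nat_lit 3284) (nat_lit 6) (nat_lit 13))
    (@En.i (nat_lit 10236) (nat_lit 7) (nat_lit 13))
    (@En.n l16029 (nat_lit 3282) (nat_lit 13) (nat_lit 3))
    (@En.n l18 (nat_lit 3285) (nat_lit 8) (nat_lit 3))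
    (@En.n l681 (nat_lit 3273) (nat_lit 0) (nat_lit 5))
    (@En.n l61 (nat_lit 3285) (nat_lit 11) (nat_lit 13))
    (@En.i (nat_lit 4667) (nat_lit 12) (nat_lit 13))
    (@En.i (nat_lit 4046) (nat_lit 8) (nat_lit 4))
    (@En.n l1658 (nat_lit 3277) (nat_lit 14) (nat_lit 7))
    (@En.n l548 (nat_lit 4068) (nat_lit 11) (nat_lit 11))
    (@En.n l28 (nat_lit 3280) (nat_lit 15) (nat_lit 2))))
  (@Cl.mk (nat_lit 0x2000a0003000e000c0002000b00060004000d000d000500030003000e000d) (nat_lit 0x106909000000079) (nat_lit 16) Lb.e (@T16.mk En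
    (@En.i (nat_lit 3280) (nat_lit 6) (nat_lit 13))
    (@En.i (nat_lit 8671) (nat_lit 1) (nat_lit 14))
    (@En.n l12143 (nat_lit 3283) (nat_lit 13) (nat_lit 3))
    (@En.n l18 (nat_lit 4102) (nat_lit 3) (nat_lit 3))
    (@En.i (nat_lit 4183) (nat_lit 0) (nat_lit 5))
    (@En.n l61 (nat_lit 4102) (nat_lit 6) (nat_lit 13))
    (@En.i (nat_lit 4668) (nat_lit 7) (nat_lit 13))
    (@En.i (nat_lit 4043) (nat_lit 7) (nat_lit 4))
    (@En.i (nat_lit 3282) (nat_lit 14) (nat_lit 6))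
    (@En.n l12144 (nat_lit 5999) (nat_lit 10) (nat_lit 11))
    (@En.n l28 (nat_lit 3281) (nat_lit 10) (nat_lit 2))
    (@En.n l77 (nat_lit 3278) (nat_lit 12) (nat_lit 12))
    (@En.i (nat_lit 4814) (nat_lit 1) (nat_lit 14))
    (@En.n l117 (nat_lit 3280) (nat_lit 2) (nat_lit 3))
    (@En.i (nat_lit 1959) (nat_lit 3) (nat_lit 10))
    (@En.n l3 (nat_lit 3281) (nat_lit 15) (nat_lit 2))))
  (@Cl.mk (nat_lit 0x200060003000d000d000900030003000e000c0002000a00070004000e000d) (nat_lit 0x40031030071) (nat_lit 16) Lb.e (@T16.mk En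
    (@En.n l6475 (nat_lit 3280) (nat_lit 11) (nat_lit 13))
    (@En.n l6476 (nat_lit 4661) (nat_lit 1) (nat_lit 14))
    (@En.n l4085 (nat_lit 4042) (nat_lit 2) (nat_lit 4))
    (@En.n l4907 (nat_lit 3279) (nat_lit 14) (nat_lit 7))
    (@En.n l1878 (nat_lit 5990) (nat_lit 4) (nat_lit 10))
    (@En.n l3 (nat_lit 3282) (nat_lit 5) (nat_lit 2))
    (@En.n l1658 (nat_lit 3277) (nat_lit 7) (nat_lit 12))
    (@En.n l451 (nat_lit 7404) (nat_lit 8) (nat_lit 14))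
    (@En.n l6477 (nat_lit 3283) (nat_lit 8) (nat_lit 3))
    (@En.n l18 (nat_lit 4109) (nat_lit 9) (nat_lit 3))
    (@En.n l404 (nat_lit 4660) (nat_lit 11) (nat_lit 9))
    (@En.n l61 (nat_lit 4109) (nat_lit 12) (nat_lit 13))
    (@En.n l3129 (nat_lit 12507) (nat_lit 13) (nat_lit 13))
    (@En.n l137 (nat_lit 3280) (nat_lit 7) (nat_lit 3))
    (@En.n l1878 (nat_lit 2102) (nat_lit 8) (nat_lit 6))
    (@En.n l28 (nat_lit 3282) (nat_lit 15) (nat_lit 2))))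
  (@Cl.mk (nat_lit 0x200060003000e000d0002000a0003000e000c0002000a00060004000e000d) (nat_lit 0x7102071000081) (nat_lit 16) Lb.e (@T16.mk En
    (@En.n l13393 (nat_lit 3281) (nat_lit 6) (nat_lit 13))
    (@En.n l13394 (nat_lit 4662) (nat_lit 1) (nat_lit 14))
    (@En.n l18 (nat_lit 4022) (nat_lit 2) (nat_lit 4))
    (@En.n l13395 (nat_lit 3283) (nat_lit 14) (nat_lit 6))
    (@En.i (nat_lit 5989) (nat_lit 4) (nat_lit 10))
    (@En.n l2196 (nat_lit 3283) (nat_lit 5) (nat_lit 2))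
    (@En.n l7244 (nat_lit 3279) (nat_lit 7) (nat_lit 12))
    (@En.i (nat_lit 4813) (nat_lit 8) (nat_lit 14))
    (@En.n l5537 (nat_lit 3282) (nat_lit 8) (nat_lit 3))
    (@En.n l13395 (nat_lit 5988) (nat_lit 10) (nat_lit 10))
    (@En.n l28 (nat_lit 3283) (nat_lit 10) (nat_lit 2))
    (@En.n l13396 (nat_lit 3282) (nat_lit 12) (nat_lit 13))
    (@En.n l2199 (nat_lit 9212) (nat_lit 1) (nat_lit 14))
    (@En.n l13397 (nat_lit 3281) (nat_lit 2) (nat_lit 3))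
    (@En.i (nat_lit 4869) (nat_lit 3) (nat_lit 6))
    (@En.n l3 (nat_lit 3283) (nat_lit 15) (nat_lit 2))))
  (@Cl.mk (nat_lit 0x2000b00080004000d000d000500030003000d0008000e00030002000e000c) (nat_lit 0x930000007660062) (nat_lit 16) Lb.e (@T16.mk En
    (@En.i (nat_lit 4099) (nat_lit 14) (nat_lit 12))
    (@En.i (nat_lit 4615) (nat_lit 1) (nat_lit 14))
    (@En.n l17 (nat_lit 3284) (nat_lit 2) (nat_lit 2))
    (@En.n l2853 (nat_lit 3280) (nat_lit 3) (nat_lit 3))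
    (@En.i (nat_lit 13033) (nat_lit 0) (nat_lit 14))
    (@En.i (nat_lit 3720) (nat_lit 5) (nat_lit 8))
    (@En.n l564 (nat_lit 10234) (nat_lit 7) (nat_lit 13))
    (@En.n l237 (nat_lit 4109) (nat_lit 13) (nat_lit 3))
    (@En.i (nat_lit 4100) (nat_lit 8) (nat_lit 3))
    (@En.n l55 (nat_lit 4182) (nat_lit 0) (nat_lit 5))
    (@En.n l134 (nat_lit 4100) (nat_lit 11) (nat_lit 13))
    (@En.n l11 (nat_lit 4669) (nat_lit 12) (nat_lit 13))
    (@En.n l2855 (nat_lit 4045) (nat_lit 9) (nat_lit 4))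
    (@En.i (nat_lit 4104) (nat_lit 14) (nat_lit 8))
    (@En.i (nat_lit 6001) (nat_lit 12) (nat_lit 11))
    (@En.n l3 (nat_lit 3284) (nat_lit 15) (nat_lit 2))))
  (@Cl.mk (nat_lit 0x2000c00070004000d0004000e00030002000d000d000900030003000e000c) (nat_lit 0xa00b04000020072) (nat_lit 16) Lb.e (@T16.mk En
    (@En.n l77 (nat_lit 4098) (nat_lit 9) (nat_lit 12))
    (@En.i (nat_lit 7408) (nat_lit 1) (nat_lit 14))
    (@En.n l152 (nat_lit 4102) (nat_lit 13) (nat_lit 3))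
    (@En.n l146 (nat_lit 4100) (nat_lit 3) (nat_lit 3))
    (@En.n l97 (nat_lit 4658) (nat_lit 0) (nat_lit 9))
    (@En.n l148 (nat_lit 4100) (nat_lit 6) (nat_lit 13))
    (@En.i (nat_lit 10237) (nat_lit 7) (nat_lit 13))
    (@En.n l17 (nat_lit 3285) (nat_lit 7) (nat_lit 2))
    (@En.i (nat_lit 3280) (nat_lit 8) (nat_lit 3))
    (@En.i (nat_lit 14027) (nat_lit 0) (nat_lit 14))
    (@En.i (nat_lit 1948) (nat_lit 10) (nat_lit 4))
    (@En.i (nat_lit 3630) (nat_lit 12) (nat_lit 13))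
    (@En.i (nat_lit 4044) (nat_lit 4) (nat_lit 4))
    (@En.i (nat_lit 4106) (nat_lit 14) (nat_lit 7))
    (@En.n l3424 (nat_lit 4062) (nat_lit 7) (nat_lit 12))
    (@En.n l28 (nat_lit 3285) (nat_lit 15) (nat_lit 2))))
  (@Cl.mk (nat_lit 0x20008000d0009000e00030002000b000900080007000e00050002000e0007) (nat_lit 0x611900575020010) (nat_lit 16) Lb.e (@T16.mk En
    (@En.n l7708 (nat_lit 3099) (nat_lit 14) (nat_lit 7))
    (@En.n l998 (nat_lit 333) (nat_lit 1) (nat_lit 14))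
    (@En.n l50 (nat_lit 3286) (nat_lit 2) (nat_lit 2))
    (@En.n l4263 (nat_lit 3272) (nat_lit 3) (nat_lit 5))
    (@En.n l476 (nat_lit 3290) (nat_lit 5) (nat_lit 14))
    (@En.n l1769 (nat_lit 679) (nat_lit 12) (nat_lit 7))
    (@En.n l2667 (nat_lit 4107) (nat_lit 6) (nat_lit 8))
    (@En.i (nat_lit 3688) (nat_lit 14) (nat_lit 9))
    (@En.n l790 (nat_lit 7726) (nat_lit 9) (nat_lit 11))
    (@En.n l11 (nat_lit 3286) (nat_lit 9) (nat_lit 2))
    (@En.n l9676 (nat_lit 3275) (nat_lit 10) (nat_lit 3))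
    (@En.n l619 (nat_lit 12974) (nat_lit 0) (nat_lit 14))
    (@En.n l2667 (nat_lit 2112) (nat_lit 13) (nat_lit 9))
    (@En.i (nat_lit 3140) (nat_lit 14) (nat_lit 13))
    (@En.i (nat_lit 2128) (nat_lit 12) (nat_lit 8))
    (@En.n l17 (nat_lit 3286) (nat_lit 15) (nat_lit 2))))
  (@Cl.mk (nat_lit 0x20008000e000d0002000b0003000b000900080005000e00050002000e0007) (nat_lit 0x152040676070010) (nat_lit 16) Lb.e (@T16.mk En
    (@En.n l1347 (nat_lit 3096) (nat_lit 14) (nat_lit 7))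
    (@En.n l6369 (nat_lit 335) (nat_lit 1) (nat_lit 14))
    (@En.n l7 (nat_lit 3287) (nat_lit 2) (nat_lit 2))
    (@En.n l4110 (nat_lit 3274) (nat_lit 3) (nat_lit 5))
    (@En.n l1347 (nat_lit 3289) (nat_lit 9) (nat_lit 14))
    (@En.n l404 (nat_lit 3710) (nat_lit 9) (nat_lit 5))
    (@En.n l12417 (nat_lit 4108) (nat_lit 6) (nat_lit 8))
    (@En.n l1347 (nat_lit 4000) (nat_lit 12) (nat_lit 9))
    (@En.n l4353 (nat_lit 8037) (nat_lit 9) (nat_lit 11))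
    (@En.n l23538 (nat_lit 3275) (nat_lit 9) (nat_lit 3))
    (@En.i (nat_lit 1971) (nat_lit 11) (nat_lit 11))
    (@En.n l3 (nat_lit 3287) (nat_lit 11) (nat_lit 2))
    (@En.n l13353 (nat_lit 3275) (nat_lit 13) (nat_lit 13))
    (@En.n l4855 (nat_lit 3133) (nat_lit 1) (nat_lit 14))
    (@En.n l12415 (nat_lit 2130) (nat_lit 12) (nat_lit 8))
    (@En.n l18 (nat_lit 3287) (nat_lit 15) (nat_lit 2))))
  (@Cl.mk (nat_lit 0x20008000d000d000700030003000c00090008000e000400020009000e0007) (nat_lit 0x100000700100530) (nat_lit 16) Lb.e (@T16.mk En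
    (@En.n l35248 (nat_lit 3292) (nat_lit 13) (nat_lit 7))
    (@En.i (nat_lit 1168) (nat_lit 1) (nat_lit 14))
    (@En.n l27484 (nat_lit 6341) (nat_lit 2) (nat_lit 9))
    (@En.n l50 (nat_lit 3288) (nat_lit 3) (nat_lit 2))
    (@En.n l34687 (nat_lit 3291) (nat_lit 4) (nat_lit 4))
    (@En.n l2830 (nat_lit 972) (nat_lit 6) (nat_lit 14))
    (@En.n l2826 (nat_lit 4110) (nat_lit 6) (nat_lit 8))
    (@En.i (nat_lit 7018) (nat_lit 3) (nat_lit 9))
    (@En.n l21271 (nat_lit 6577) (nat_lit 9) (nat_lit 12))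
    (@En.n l15956 (nat_lit 3289) (nat_lit 13) (nat_lit 3))
    (@En.n l152 (nat_lit 3290) (nat_lit 10) (nat_lit 3))
    (@En.n l21271 (nat_lit 5708) (nat_lit 0) (nat_lit 7))
    (@En.n l619 (nat_lit 3290) (nat_lit 13) (nat_lit 13))
    (@En.i (nat_lit 8235) (nat_lit 10) (nat_lit 13))
    (@En.n l28581 (nat_lit 2132) (nat_lit 11) (nat_lit 8))
    (@En.n l17 (nat_lit 3288) (nat_lit 15) (nat_lit 2))))
  (@Cl.mk (nat_lit 0x200080003000c00090008000e000400020008000e000700020008000e000d) (nat_lit 0x7006003200171) (nat_lit 16) Lb.e (@T16.mk En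
    (@En.n l14381 (nat_lit 3288) (nat_lit 13) (nat_lit 13))
    (@En.n l7205 (nat_lit 4627) (nat_lit 10) (nat_lit 14))
    (@En.n l287 (nat_lit 2136) (nat_lit 2) (nat_lit 8))
    (@En.n l11 (nat_lit 3289) (nat_lit 3) (nat_lit 2))
    (@En.n l23545 (nat_lit 3297) (nat_lit 4) (nat_lit 7))
    (@En.n l23546 (nat_lit 3709) (nat_lit 6) (nat_lit 14))
    (@En.n l23547 (nat_lit 6770) (nat_lit 2) (nat_lit 8))
    (@En.n l3 (nat_lit 3289) (nat_lit 7) (nat_lit 2))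
    (@En.n l12263 (nat_lit 3298) (nat_lit 4) (nat_lit 4))
    (@En.n l4273 (nat_lit 1596) (nat_lit 6) (nat_lit 14))
    (@En.n l23546 (nat_lit 4124) (nat_lit 2) (nat_lit 8))
    (@En.i (nat_lit 7019) (nat_lit 3) (nat_lit 9))
    (@En.n l23548 (nat_lit 7491) (nat_lit 13) (nat_lit 12))
    (@En.n l6441 (nat_lit 3288) (nat_lit 9) (nat_lit 3))
    (@En.n l6493 (nat_lit 5022) (nat_lit 6) (nat_lit 8))
    (@En.n l50 (nat_lit 3289) (nat_lit 15) (nat_lit 2))))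
  (@Cl.mk (nat_lit 0x20008000d0006000e00030002000c00090008000e00040002000a000e0007) (nat_lit 0x1b0300800100330) (nat_lit 16) Lb.e (@T16.mk En
    (@En.n l21916 (nat_lit 3294) (nat_lit 13) (nat_lit 7))
    (@En.i (nat_lit 680) (nat_lit 8) (nat_lit 14))
    (@En.n l998 (nat_lit 7794) (nat_lit 2) (nat_lit 10))
    (@En.n l50 (nat_lit 3290) (nat_lit 3) (nat_lit 2))
    (@En.n l4263 (nat_lit 3293) (nat_lit 4) (nat_lit 4))
    (@En.n l5559 (nat_lit 971) (nat_lit 6) (nat_lit 14))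
    (@En.n l2667 (nat_lit 4116) (nat_lit 6) (nat_lit 8))
    (@En.i (nat_lit 6910) (nat_lit 14) (nat_lit 9))
    (@En.n l4361 (nat_lit 6579) (nat_lit 9) (nat_lit 12))
    (@En.n l11 (nat_lit 3290) (nat_lit 9) (nat_lit 2))
    (@En.n l117 (nat_lit 3288) (nat_lit 10) (nat_lit 3))
    (@En.n l7678 (nat_lit 12972) (nat_lit 0) (nat_lit 14))
    (@En.i (nat_lit 5743) (nat_lit 13) (nat_lit 6))
    (@En.i (nat_lit 8234) (nat_lit 10) (nat_lit 13))
    (@En.n l21917 (nat_lit 2135) (nat_lit 11) (nat_lit 8))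
    (@En.n l17 (nat_lit 3290) (nat_lit 15) (nat_lit 2))))
  (@Cl.mk (nat_lit 0x20007000d000d000700030003000c000c000a0009000400040009000e0006) (nat_lit 0x6800004c0) (nat_lit 16) Lb.e (@T16.mk En
    (@En.n l649 (nat_lit 3296) (nat_lit 5) (nat_lit 6))
    (@En.n l649 (nat_lit 2674) (nat_lit 1) (nat_lit 14))
    (@En.i (nat_lit 6308) (nat_lit 2) (nat_lit 9))
    (@En.n l55 (nat_lit 5122) (nat_lit 3) (nat_lit 4))
    (@En.n l18332 (nat_lit 7032) (nat_lit 4) (nat_lit 4))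
    (@En.n l17936 (nat_lit 4113) (nat_lit 5) (nat_lit 9))
    (@En.n l33591 (nat_lit 3929) (nat_lit 12) (nat_lit 10))
    (@En.n l33592 (nat_lit 3288) (nat_lit 8) (nat_lit 12))
    (@En.n l33003 (nat_lit 6576) (nat_lit 9) (nat_lit 12))
    (@En.n l152 (nat_lit 3298) (nat_lit 9) (nat_lit 3))
    (@En.n l1865 (nat_lit 3293) (nat_lit 10) (nat_lit 3))
    (@En.n l97 (nat_lit 5132) (nat_lit 0) (nat_lit 7))
    (@En.n l1867 (nat_lit 3293) (nat_lit 13) (nat_lit 13))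
    (@En.n l18332 (nat_lit 7693) (nat_lit 14) (nat_lit 13))
    (@En.i (nat_lit 2456) (nat_lit 3) (nat_lit 7))
    (@En.n l18 (nat_lit 3291) (nat_lit 15) (nat_lit 2))))
  (@Cl.mk (nat_lit 0x2000a000700070007000d000d000600030003000b000900090009000e0005) (nat_lit 0x500000000801080) (nat_lit 16) Lb.e (@T16.mk En
    (@En.n l19779 (nat_lit 3296) (nat_lit 8) (nat_lit 5))
    (@En.n l14674 (nat_lit 3037) (nat_lit 1) (nat_lit 14))
    (@En.n l30293 (nat_lit 4507) (nat_lit 2) (nat_lit 9))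
    (@En.n l30294 (nat_lit 3288) (nat_lit 7) (nat_lit 9))
    (@En.n l15806 (nat_lit 5319) (nat_lit 4) (nat_lit 9))
    (@En.n l649 (nat_lit 6449) (nat_lit 6) (nat_lit 11))
    (@En.n l21156 (nat_lit 3297) (nat_lit 13) (nat_lit 3))
    (@En.n l152 (nat_lit 3294) (nat_lit 7) (nat_lit 3))
    (@En.n l30295 (nat_lit 5710) (nat_lit 0) (nat_lit 6))
    (@En.n l619 (nat_lit 3294) (nat_lit 10) (nat_lit 13))
    (@En.n l30296 (nat_lit 9112) (nat_lit 11) (nat_lit 13))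
    (@En.n l644 (nat_lit 5810) (nat_lit 12) (nat_lit 7))
    (@En.n l77 (nat_lit 4851) (nat_lit 9) (nat_lit 7))
    (@En.n l30297 (nat_lit 4139) (nat_lit 14) (nat_lit 7))
    (@En.n l15741 (nat_lit 5884) (nat_lit 7) (nat_lit 10))
    (@En.n l17 (nat_lit 3292) (nat_lit 15) (nat_lit 2))))
  (@Cl.mk (nat_lit 0x20007000d0006000e00030002000c000c000a000900040004000a000e0006) (nat_lit 0xb0300090000770) (nat_lit 16) Lb.e (@T16.mk En
    (@En.i (nat_lit 3295) (nat_lit 6) (nat_lit 6))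
    (@En.i (nat_lit 2673) (nat_lit 8) (nat_lit 14))
    (@En.n l476 (nat_lit 7796) (nat_lit 2) (nat_lit 10))
    (@En.n l152 (nat_lit 5123) (nat_lit 3) (nat_lit 4))
    (@En.n l2438 (nat_lit 7031) (nat_lit 4) (nat_lit 4))
    (@En.n l548 (nat_lit 4117) (nat_lit 5) (nat_lit 9))
    (@En.n l4684 (nat_lit 7026) (nat_lit 13) (nat_lit 10))
    (@En.n l10815 (nat_lit 3290) (nat_lit 8) (nat_lit 12))
    (@En.i (nat_lit 5171) (nat_lit 9) (nat_lit 12))
    (@En.n l17 (nat_lit 3293) (nat_lit 9) (nat_lit 2))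
    (@En.n l2869 (nat_lit 3291) (nat_lit 10) (nat_lit 3))
    (@En.i (nat_lit 12969) (nat_lit 0) (nat_lit 14))
    (@En.i (nat_lit 5737) (nat_lit 13) (nat_lit 6))
    (@En.n l2438 (nat_lit 7689) (nat_lit 14) (nat_lit 13))
    (@En.i (nat_lit 2457) (nat_lit 4) (nat_lit 7))
    (@En.n l28 (nat_lit 3293) (nat_lit 15) (nat_lit 2))))
  (@Cl.mk (nat_lit 0x2000b000700070007000d0005000e00030002000b000900090009000e0005) (nat_lit 0x9000b0900101080) (nat_lit 16) Lb.e (@T16.mk En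
    (@En.n l21089 (nat_lit 3295) (nat_lit 9) (nat_lit 5))
    (@En.n l19533 (nat_lit 3036) (nat_lit 11) (nat_lit 14))
    (@En.n l21090 (nat_lit 4508) (nat_lit 2) (nat_lit 9))
    (@En.n l21091 (nat_lit 3290) (nat_lit 7) (nat_lit 9))
    (@En.n l17235 (nat_lit 5320) (nat_lit 14) (nat_lit 9))
    (@En.i (nat_lit 57) (nat_lit 6) (nat_lit 11))
    (@En.n l11 (nat_lit 3294) (nat_lit 6) (nat_lit 2))
    (@En.n l117 (nat_lit 3292) (nat_lit 7) (nat_lit 3))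
    (@En.n l5051 (nat_lit 12965) (nat_lit 0) (nat_lit 14))
    (@En.n l2576 (nat_lit 5746) (nat_lit 2) (nat_lit 5))
    (@En.n l8910 (nat_lit 9111) (nat_lit 11) (nat_lit 13))
    (@En.n l644 (nat_lit 5809) (nat_lit 4) (nat_lit 7))
    (@En.n l77 (nat_lit 4852) (nat_lit 9) (nat_lit 7))
    (@En.n l10294 (nat_lit 5820) (nat_lit 14) (nat_lit 7))
    (@En.n l21092 (nat_lit 5882) (nat_lit 8) (nat_lit 11))
    (@En.n l17 (nat_lit 3294) (nat_lit 15) (nat_lit 2))))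
  (@Cl.mk (nat_lit 0x2000b000b000a000a000a00050005000b000600060006000d0005000e0003) (nat_lit 0x620100080000080) (nat_lit 16) Lb.e (@T16.mk En
    (@En.i (nat_lit 3296) (nat_lit 15) (nat_lit 3))
    (@En.i (nat_lit 12964) (nat_lit 0) (nat_lit 14))
    (@En.i (nat_lit 5740) (nat_lit 2) (nat_lit 5))
    (@En.n l4961 (nat_lit 9105) (nat_lit 2) (nat_lit 13))
    (@En.n l19188 (nat_lit 4818) (nat_lit 10) (nat_lit 6))
    (@En.n l4963 (nat_lit 4846) (nat_lit 5) (nat_lit 6))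
    (@En.i (nat_lit 4138) (nat_lit 6) (nat_lit 6))
    (@En.n l4964 (nat_lit 5880) (nat_lit 8) (nat_lit 11))
    (@En.n l4965 (nat_lit 4821) (nat_lit 11) (nat_lit 5))
    (@En.n l4966 (nat_lit 7037) (nat_lit 9) (nat_lit 5))
    (@En.n l77 (nat_lit 4511) (nat_lit 11) (nat_lit 10))
    (@En.n l55 (nat_lit 3293) (nat_lit 6) (nat_lit 10))
    (@En.n l619 (nat_lit 5341) (nat_lit 13) (nat_lit 10))
    (@En.n l12955 (nat_lit 3294) (nat_lit 5) (nat_lit 11))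
    (@En.i (nat_lit 5172) (nat_lit 14) (nat_lit 11))
    (@En.n l17 (nat_lit 3295) (nat_lit 15) (nat_lit 2))))
noncomputable def a206 : T16 Cl := @T16.mk Cl
  (@Cl.mk (nat_lit 0x30003000b000b000a000a000a00050005000a000600060006000d000d0006) (nat_lit 0x59410002000510) (nat_lit 16) Lb.e (@T16.mk En
    (@En.n l18636 (nat_lit 5709) (nat_lit 0) (nat_lit 6))
    (@En.n l61 (nat_lit 3295) (nat_lit 3) (nat_lit 13))
    (@En.n l14016 (nat_lit 9106) (nat_lit 2) (nat_lit 13))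
    (@En.n l35533 (nat_lit 4816) (nat_lit 10) (nat_lit 6))
    (@En.n l4963 (nat_lit 4847) (nat_lit 10) (nat_lit 6))
    (@En.n l2943 (nat_lit 4133) (nat_lit 5) (nat_lit 6))
    (@En.n l2943 (nat_lit 5888) (nat_lit 7) (nat_lit 10))
    (@En.n l19274 (nat_lit 4819) (nat_lit 11) (nat_lit 5))
    (@En.n l14016 (nat_lit 7052) (nat_lit 8) (nat_lit 5))
    (@En.n l77 (nat_lit 4510) (nat_lit 6) (nat_lit 10))
    (@En.n l35534 (nat_lit 3291) (nat_lit 6) (nat_lit 10))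
    (@En.n l3522 (nat_lit 5337) (nat_lit 12) (nat_lit 10))
    (@En.n l24910 (nat_lit 3292) (nat_lit 5) (nat_lit 11))
    (@En.n l18738 (nat_lit 5301) (nat_lit 14) (nat_lit 11))
    (@En.n l4927 (nat_lit 3299) (nat_lit 13) (nat_lit 3))
    (@En.n l18 (nat_lit 3295) (nat_lit 0) (nat_lit 3))))
  (@Cl.mk (nat_lit 0x200070003000b000900090009000e000500020009000700070007000e000d) (nat_lit 0x80107004000a1) (nat_lit 16) Lb.e (@T16.mk En
    (@En.n l22010 (nat_lit 3292) (nat_lit 10) (nat_lit 13))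
    (@En.n l22011 (nat_lit 8194) (nat_lit 11) (nat_lit 14))
    (@En.n l8744 (nat_lit 5811) (nat_lit 2) (nat_lit 7))
    (@En.n l644 (nat_lit 4853) (nat_lit 3) (nat_lit 7))
    (@En.i (nat_lit 5822) (nat_lit 14) (nat_lit 7))
    (@En.n l10997 (nat_lit 6765) (nat_lit 5) (nat_lit 9))
    (@En.n l3 (nat_lit 3297) (nat_lit 6) (nat_lit 2))
    (@En.n l22012 (nat_lit 3299) (nat_lit 7) (nat_lit 5))
    (@En.n l22013 (nat_lit 3038) (nat_lit 9) (nat_lit 14))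
    (@En.n l19391 (nat_lit 4509) (nat_lit 10) (nat_lit 9))
    (@En.n l22014 (nat_lit 3289) (nat_lit 11) (nat_lit 9))
    (@En.n l22015 (nat_lit 5321) (nat_lit 12) (nat_lit 9))
    (@En.i (nat_lit 7488) (nat_lit 13) (nat_lit 11))
    (@En.n l9682 (nat_lit 3292) (nat_lit 6) (nat_lit 3))
    (@En.n l8662 (nat_lit 4944) (nat_lit 7) (nat_lit 7))
    (@En.n l11 (nat_lit 3297) (nat_lit 15) (nat_lit 2))))
  (@Cl.mk (nat_lit 0x20007000e000d000200080003000c000c000a0009000400040008000e0006) (nat_lit 0x610000800002c0) (nat_lit 16) Lb.e (@T16.mk En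
    (@En.n l50 (nat_lit 3299) (nat_lit 4) (nat_lit 6))
    (@En.n l2573 (nat_lit 3708) (nat_lit 6) (nat_lit 14))
    (@En.n l287 (nat_lit 6771) (nat_lit 2) (nat_lit 8))
    (@En.n l55 (nat_lit 5121) (nat_lit 3) (nat_lit 4))
    (@En.n l17935 (nat_lit 7054) (nat_lit 8) (nat_lit 4))
    (@En.n l17936 (nat_lit 3574) (nat_lit 5) (nat_lit 9))
    (@En.n l134 (nat_lit 7109) (nat_lit 11) (nat_lit 10))
    (@En.n l9195 (nat_lit 3289) (nat_lit 12) (nat_lit 12))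
    (@En.n l8627 (nat_lit 7489) (nat_lit 13) (nat_lit 12))
    (@En.n l117 (nat_lit 3291) (nat_lit 9) (nat_lit 3))
    (@En.i (nat_lit 4911) (nat_lit 11) (nat_lit 8))
    (@En.n l3 (nat_lit 3298) (nat_lit 11) (nat_lit 2))
    (@En.i (nat_lit 3291) (nat_lit 13) (nat_lit 13))
    (@En.n l13533 (nat_lit 4625) (nat_lit 1) (nat_lit 14))
    (@En.n l3354 (nat_lit 2459) (nat_lit 2) (nat_lit 7))
    (@En.n l18 (nat_lit 3298) (nat_lit 15) (nat_lit 2))))
  (@Cl.mk (nat_lit 0x200070003000b000b000a000a000a000500050009000600060006000e000d) (nat_lit 0x3941000500096) (nat_lit 16) Lb.e (@T16.mk En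
    (@En.n l8631 (nat_lit 3296) (nat_lit 2) (nat_lit 13))
    (@En.i (nat_lit 8957) (nat_lit 1) (nat_lit 14))
    (@En.n l1935 (nat_lit 4815) (nat_lit 2) (nat_lit 6))
    (@En.n l12755 (nat_lit 4849) (nat_lit 3) (nat_lit 6))
    (@En.i (nat_lit 4137) (nat_lit 4) (nat_lit 6))
    (@En.n l5663 (nat_lit 6766) (nat_lit 5) (nat_lit 9))
    (@En.n l55 (nat_lit 4820) (nat_lit 6) (nat_lit 5))
    (@En.n l17110 (nat_lit 7053) (nat_lit 7) (nat_lit 5))
    (@En.n l742 (nat_lit 4512) (nat_lit 9) (nat_lit 10))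
    (@En.n l396 (nat_lit 3298) (nat_lit 6) (nat_lit 10))
    (@En.n l12756 (nat_lit 5342) (nat_lit 11) (nat_lit 10))
    (@En.n l17111 (nat_lit 3297) (nat_lit 12) (nat_lit 11))
    (@En.n l17110 (nat_lit 5253) (nat_lit 13) (nat_lit 11))
    (@En.n l11621 (nat_lit 3296) (nat_lit 14) (nat_lit 3))
    (@En.i (nat_lit 4970) (nat_lit 0) (nat_lit 7))
    (@En.n l3 (nat_lit 3299) (nat_lit 15) (nat_lit 2))))
  (@Cl.mk (nat_lit 0x2000a00090007000a0008000b0006000900070006000500090008000e0007) (nat_lit 0x1402130100034b0) (nat_lit 16) Lb.e (@T16.mk En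
    (@En.n l7681 (nat_lit 3183) (nat_lit 3) (nat_lit 7))
    (@En.n l38452 (nat_lit 9405) (nat_lit 1) (nat_lit 14))
    (@En.n l38453 (nat_lit 3301) (nat_lit 2) (nat_lit 8))
    (@En.n l9936 (nat_lit 3343) (nat_lit 3) (nat_lit 9))
    (@En.n l38454 (nat_lit 3313) (nat_lit 4) (nat_lit 5))
    (@En.n l38455 (nat_lit 1309) (nat_lit 5) (nat_lit 6))
    (@En.i (nat_lit 3484) (nat_lit 6) (nat_lit 7))
    (@En.n l616 (nat_lit 1320) (nat_lit 9) (nat_lit 9))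
    (@En.n l38456 (nat_lit 3190) (nat_lit 8) (nat_lit 6))
    (@En.i (nat_lit 3187) (nat_lit 10) (nat_lit 11))
    (@En.n l38457 (nat_lit 1582) (nat_lit 11) (nat_lit 8))
    (@En.n l38452 (nat_lit 3174) (nat_lit 8) (nat_lit 10))
    (@En.n l615 (nat_lit 5419) (nat_lit 13) (nat_lit 7))
    (@En.n l9940 (nat_lit 2587) (nat_lit 14) (nat_lit 9))
    (@En.n l3340 (nat_lit 3183) (nat_lit 1) (nat_lit 10))
    (@En.n l17 (nat_lit 3300) (nat_lit 15) (nat_lit 2))))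
  (@Cl.mk (nat_lit 0x200090008000d000900080003000b0007000a0008000700050008000e0006) (nat_lit 0x481104011003b0) (nat_lit 16) Lb.e (@T16.mk En
    (@En.n l24929 (nat_lit 3302) (nat_lit 6) (nat_lit 6))
    (@En.n l3528 (nat_lit 8747) (nat_lit 1) (nat_lit 14))
    (@En.n l5928 (nat_lit 2935) (nat_lit 2) (nat_lit 8))
    (@En.n l18645 (nat_lit 3310) (nat_lit 3) (nat_lit 5))
    (@En.n l5891 (nat_lit 5184) (nat_lit 4) (nat_lit 7))
    (@En.n l36447 (nat_lit 1335) (nat_lit 5) (nat_lit 8))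
    (@En.i (nat_lit 3258) (nat_lit 8) (nat_lit 10))
    (@En.n l19892 (nat_lit 4656) (nat_lit 7) (nat_lit 7))
    (@En.n l36448 (nat_lit 3300) (nat_lit 9) (nat_lit 11))
    (@En.n l9956 (nat_lit 3303) (nat_lit 9) (nat_lit 3))
    (@En.n l4758 (nat_lit 1579) (nat_lit 11) (nat_lit 8))
    (@En.n l22681 (nat_lit 1941) (nat_lit 12) (nat_lit 9))
    (@En.n l3528 (nat_lit 6633) (nat_lit 13) (nat_lit 13))
    (@En.n l8147 (nat_lit 2586) (nat_lit 14) (nat_lit 8))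
    (@En.n l24930 (nat_lit 3302) (nat_lit 4) (nat_lit 9))
    (@En.n l18 (nat_lit 3301) (nat_lit 15) (nat_lit 2))))
  (@Cl.mk (nat_lit 0x3000a0007000a000a00090008000600090006000600090007000d00080007) (nat_lit 0x401234030070710) (nat_lit 16) Lb.e (@T16.mk En
    (@En.n l29971 (nat_lit 1581) (nat_lit 0) (nat_lit 7))
    (@En.n l29972 (nat_lit 1939) (nat_lit 0) (nat_lit 8))
    (@En.n l29973 (nat_lit 6632) (nat_lit 2) (nat_lit 13))
    (@En.n l7 (nat_lit 2505) (nat_lit 3) (nat_lit 7))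
    (@En.n l29974 (nat_lit 3347) (nat_lit 9) (nat_lit 9))
    (@En.n l29975 (nat_lit 3347) (nat_lit 10) (nat_lit 6))
    (@En.n l2824 (nat_lit 10064) (nat_lit 6) (nat_lit 6))
    (@En.n l29976 (nat_lit 2524) (nat_lit 9) (nat_lit 9))
    (@En.n l1593 (nat_lit 3311) (nat_lit 8) (nat_lit 6))
    (@En.n l26743 (nat_lit 1308) (nat_lit 8) (nat_lit 8))
    (@En.n l29977 (nat_lit 2835) (nat_lit 11) (nat_lit 9))
    (@En.n l26744 (nat_lit 3301) (nat_lit 6) (nat_lit 10))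
    (@En.n l12911 (nat_lit 3162) (nat_lit 8) (nat_lit 10))
    (@En.n l7158 (nat_lit 4654) (nat_lit 14) (nat_lit 7))
    (@En.n l23026 (nat_lit 3183) (nat_lit 12) (nat_lit 10))
    (@En.n l29978 (nat_lit 3304) (nat_lit 15) (nat_lit 3))))
  (@Cl.mk (nat_lit 0x200090008000d0007000a0003000b0007000a0008000600050009000e0006) (nat_lit 0x470104066003b0) (nat_lit 16) Lb.e (@T16.mk En
    (@En.i (nat_lit 3304) (nat_lit 6) (nat_lit 6))
    (@En.i (nat_lit 8748) (nat_lit 1) (nat_lit 14))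
    (@En.n l16218 (nat_lit 3305) (nat_lit 2) (nat_lit 9))
    (@En.n l1003 (nat_lit 3309) (nat_lit 3) (nat_lit 5))
    (@En.n l6788 (nat_lit 7598) (nat_lit 4) (nat_lit 6))
    (@En.n l35054 (nat_lit 2752) (nat_lit 5) (nat_lit 8))
    (@En.i (nat_lit 3259) (nat_lit 8) (nat_lit 10))
    (@En.n l4758 (nat_lit 4646) (nat_lit 7) (nat_lit 7))
    (@En.n l11419 (nat_lit 3186) (nat_lit 9) (nat_lit 11))
    (@En.n l3522 (nat_lit 3301) (nat_lit 9) (nat_lit 3))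
    (@En.n l6788 (nat_lit 1905) (nat_lit 0) (nat_lit 10))
    (@En.n l39986 (nat_lit 3300) (nat_lit 12) (nat_lit 7))
    (@En.i (nat_lit 6634) (nat_lit 13) (nat_lit 13))
    (@En.n l14223 (nat_lit 2291) (nat_lit 14) (nat_lit 8))
    (@En.n l3506 (nat_lit 3304) (nat_lit 4) (nat_lit 9))
    (@En.n l28 (nat_lit 3303) (nat_lit 15) (nat_lit 2))))
  (@Cl.mk (nat_lit 0x3000a0007000a000a000900070006000a0006000600090007000d00060009) (nat_lit 0x401730030070406) (nat_lit 16) Lb.e (@T16.mk En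
    (@En.n l40910 (nat_lit 1901) (nat_lit 9) (nat_lit 9))
    (@En.n l40911 (nat_lit 3183) (nat_lit 15) (nat_lit 6))
    (@En.i (nat_lit 2094) (nat_lit 2) (nat_lit 13))
    (@En.n l14223 (nat_lit 2503) (nat_lit 3) (nat_lit 7))
    (@En.n l40912 (nat_lit 3307) (nat_lit 9) (nat_lit 9))
    (@En.n l40913 (nat_lit 3307) (nat_lit 10) (nat_lit 6))
    (@En.n l5770 (nat_lit 10065) (nat_lit 6) (nat_lit 6))
    (@En.n l40914 (nat_lit 3306) (nat_lit 9) (nat_lit 10))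
    (@En.n l40915 (nat_lit 3308) (nat_lit 10) (nat_lit 6))
    (@En.n l26820 (nat_lit 7510) (nat_lit 9) (nat_lit 7))
    (@En.n l40916 (nat_lit 4298) (nat_lit 11) (nat_lit 9))
    (@En.n l55 (nat_lit 3303) (nat_lit 6) (nat_lit 10))
    (@En.i (nat_lit 3155) (nat_lit 8) (nat_lit 10))
    (@En.n l40917 (nat_lit 4645) (nat_lit 14) (nat_lit 7))
    (@En.n l40918 (nat_lit 3180) (nat_lit 12) (nat_lit 10))
    (@En.n l40919 (nat_lit 3302) (nat_lit 15) (nat_lit 3))))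
  (@Cl.mk (nat_lit 0x200080007000c0007000d000a000400030008000b000900060009000e0005) (nat_lit 0x50920051202b0) (nat_lit 16) Lb.e (@T16.mk En
    (@En.n l29882 (nat_lit 3306) (nat_lit 8) (nat_lit 5))
    (@En.i (nat_lit 8727) (nat_lit 1) (nat_lit 14))
    (@En.n l17133 (nat_lit 2658) (nat_lit 9) (nat_lit 9))
    (@En.n l4991 (nat_lit 7599) (nat_lit 3) (nat_lit 6))
    (@En.n l22789 (nat_lit 2748) (nat_lit 4) (nat_lit 9))
    (@En.n l17133 (nat_lit 3018) (nat_lit 7) (nat_lit 11))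
    (@En.n l10794 (nat_lit 4649) (nat_lit 6) (nat_lit 8))
    (@En.n l18 (nat_lit 3309) (nat_lit 7) (nat_lit 3))
    (@En.n l11793 (nat_lit 2935) (nat_lit 8) (nat_lit 4))
    (@En.n l899 (nat_lit 3303) (nat_lit 10) (nat_lit 10))
    (@En.n l4991 (nat_lit 3319) (nat_lit 11) (nat_lit 13))
    (@En.n l18658 (nat_lit 3343) (nat_lit 12) (nat_lit 7))
    (@En.n l17133 (nat_lit 7556) (nat_lit 13) (nat_lit 12))
    (@En.n l1769 (nat_lit 2288) (nat_lit 14) (nat_lit 7))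
    (@En.n l36411 (nat_lit 3306) (nat_lit 6) (nat_lit 8))
    (@En.n l11 (nat_lit 3305) (nat_lit 15) (nat_lit 2))))
  (@Cl.mk (nat_lit 0x30008000b000b000a0007000a0005000500080006000c0006000d00090004) (nat_lit 0x512802006050770) (nat_lit 16) Lb.e (@T16.mk En
    (@En.n l7 (nat_lit 2524) (nat_lit 0) (nat_lit 4))
    (@En.n l29992 (nat_lit 3304) (nat_lit 0) (nat_lit 9))
    (@En.n l29993 (nat_lit 3314) (nat_lit 1) (nat_lit 13))
    (@En.n l4966 (nat_lit 3342) (nat_lit 3) (nat_lit 6))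
    (@En.n l5931 (nat_lit 6556) (nat_lit 5) (nat_lit 12))
    (@En.n l6246 (nat_lit 2502) (nat_lit 5) (nat_lit 6))
    (@En.n l29994 (nat_lit 3348) (nat_lit 10) (nat_lit 8))
    (@En.n l29995 (nat_lit 3348) (nat_lit 11) (nat_lit 5))
    (@En.n l29996 (nat_lit 10434) (nat_lit 8) (nat_lit 5))
    (@En.i (nat_lit 2659) (nat_lit 8) (nat_lit 10))
    (@En.n l29997 (nat_lit 7513) (nat_lit 1) (nat_lit 7))
    (@En.n l6243 (nat_lit 4299) (nat_lit 12) (nat_lit 10))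
    (@En.n l29998 (nat_lit 3305) (nat_lit 5) (nat_lit 11))
    (@En.n l29999 (nat_lit 3165) (nat_lit 7) (nat_lit 11))
    (@En.i (nat_lit 4650) (nat_lit 14) (nat_lit 8))
    (@En.n l30000 (nat_lit 3308) (nat_lit 15) (nat_lit 3))))
  (@Cl.mk (nat_lit 0x2000a00080007000b000600090006000d00050008000300090007000e000a) (nat_lit 0x860306030504012) (nat_lit 16) Lb.e (@T16.mk En
    (@En.n l34738 (nat_lit 3304) (nat_lit 12) (nat_lit 10))
    (@En.n l97 (nat_lit 3151) (nat_lit 1) (nat_lit 14))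
    (@En.n l38829 (nat_lit 4651) (nat_lit 2) (nat_lit 7))
    (@En.n l14056 (nat_lit 4964) (nat_lit 3) (nat_lit 9))
    (@En.n l38830 (nat_lit 3347) (nat_lit 4) (nat_lit 3))
    (@En.n l38831 (nat_lit 1902) (nat_lit 10) (nat_lit 8))
    (@En.n l6830 (nat_lit 3345) (nat_lit 6) (nat_lit 5))
    (@En.n l1776 (nat_lit 6636) (nat_lit 8) (nat_lit 13))
    (@En.n l61 (nat_lit 2510) (nat_lit 8) (nat_lit 6))
    (@En.n l61 (nat_lit 13971) (nat_lit 9) (nat_lit 9))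
    (@En.n l27975 (nat_lit 10067) (nat_lit 5) (nat_lit 6))
    (@En.n l2196 (nat_lit 3348) (nat_lit 12) (nat_lit 11))
    (@En.i (nat_lit 3350) (nat_lit 13) (nat_lit 7))
    (@En.n l4861 (nat_lit 7511) (nat_lit 14) (nat_lit 8))
    (@En.n l38832 (nat_lit 2834) (nat_lit 10) (nat_lit 10))
    (@En.n l107 (nat_lit 3307) (nat_lit 15) (nat_lit 2))))
  (@Cl.mk (nat_lit 0x30008000b000b000a0006000a0005000500080006000d0006000d0003000a) (nat_lit 0x5127010000a0708) (nat_lit 16) Lb.e (@T16.mk En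
    (@En.n l387 (nat_lit 4962) (nat_lit 0) (nat_lit 10))
    (@En.n l17215 (nat_lit 3311) (nat_lit 15) (nat_lit 3))
    (@En.n l34737 (nat_lit 3320) (nat_lit 0) (nat_lit 13))
    (@En.i (nat_lit 3312) (nat_lit 3) (nat_lit 6))
    (@En.n l34738 (nat_lit 5691) (nat_lit 2) (nat_lit 13))
    (@En.n l5706 (nat_lit 2228) (nat_lit 3) (nat_lit 6))
    (@En.n l3 (nat_lit 3350) (nat_lit 10) (nat_lit 8))
    (@En.n l527 (nat_lit 3350) (nat_lit 11) (nat_lit 5))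
    (@En.n l3462 (nat_lit 10435) (nat_lit 8) (nat_lit 5))
    (@En.n l6904 (nat_lit 831) (nat_lit 9) (nat_lit 10))
    (@En.n l1316 (nat_lit 5488) (nat_lit 8) (nat_lit 6))
    (@En.n l34734 (nat_lit 4301) (nat_lit 12) (nat_lit 10))
    (@En.n l13816 (nat_lit 3309) (nat_lit 5) (nat_lit 11))
    (@En.n l34734 (nat_lit 3166) (nat_lit 7) (nat_lit 11))
    (@En.n l29724 (nat_lit 5181) (nat_lit 13) (nat_lit 8))
    (@En.n l28253 (nat_lit 3306) (nat_lit 15) (nat_lit 3))))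
  (@Cl.mk (nat_lit 0x200080007000d0007000d0003000b00030008000b000900050009000e0005) (nat_lit 0x10b0809051601b0) (nat_lit 16) Lb.e (@T16.mk En
    (@En.n l5600 (nat_lit 3308) (nat_lit 8) (nat_lit 5))
    (@En.i (nat_lit 8728) (nat_lit 1) (nat_lit 14))
    (@En.n l617 (nat_lit 830) (nat_lit 2) (nat_lit 9))
    (@En.n l2125 (nat_lit 5492) (nat_lit 3) (nat_lit 5))
    (@En.n l22789 (nat_lit 2747) (nat_lit 4) (nat_lit 9))
    (@En.i (nat_lit 3017) (nat_lit 7) (nat_lit 11))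
    (@En.n l9182 (nat_lit 5183) (nat_lit 6) (nat_lit 8))
    (@En.i (nat_lit 3305) (nat_lit 7) (nat_lit 3))
    (@En.i (nat_lit 5050) (nat_lit 0) (nat_lit 11))
    (@En.i (nat_lit 3310) (nat_lit 9) (nat_lit 3))
    (@En.n l4991 (nat_lit 3321) (nat_lit 11) (nat_lit 13))
    (@En.i (nat_lit 3313) (nat_lit 12) (nat_lit 7))
    (@En.n l899 (nat_lit 7791) (nat_lit 13) (nat_lit 13))
    (@En.n l1769 (nat_lit 2289) (nat_lit 14) (nat_lit 7))
    (@En.n l5608 (nat_lit 3308) (nat_lit 6) (nat_lit 8))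
    (@En.n l11 (nat_lit 3309) (nat_lit 15) (nat_lit 2))))
  (@Cl.mk (nat_lit 0x200080007000d000c00080003000b00040008000b000900050008000e0005) (nat_lit 0xb6109041202b0) (nat_lit 16) Lb.e (@T16.mk En
    (@En.n l18678 (nat_lit 3311) (nat_lit 6) (nat_lit 5))
    (@En.i (nat_lit 8724) (nat_lit 1) (nat_lit 14))
    (@En.n l13074 (nat_lit 2656) (nat_lit 10) (nat_lit 8))
    (@En.n l17095 (nat_lit 5493) (nat_lit 3) (nat_lit 5))
    (@En.n l22789 (nat_lit 2749) (nat_lit 4) (nat_lit 9))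
    (@En.n l10773 (nat_lit 3012) (nat_lit 7) (nat_lit 11))
    (@En.n l13076 (nat_lit 5182) (nat_lit 6) (nat_lit 8))
    (@En.n l7731 (nat_lit 2934) (nat_lit 7) (nat_lit 4))
    (@En.n l612 (nat_lit 3313) (nat_lit 9) (nat_lit 11))
    (@En.n l50 (nat_lit 3309) (nat_lit 9) (nat_lit 3))
    (@En.n l2894 (nat_lit 1674) (nat_lit 11) (nat_lit 8))
    (@En.n l217 (nat_lit 3305) (nat_lit 12) (nat_lit 12))
    (@En.n l13076 (nat_lit 7793) (nat_lit 13) (nat_lit 13))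
    (@En.n l1769 (nat_lit 2290) (nat_lit 14) (nat_lit 7))
    (@En.n l22790 (nat_lit 3311) (nat_lit 4) (nat_lit 8))
    (@En.n l11 (nat_lit 3310) (nat_lit 15) (nat_lit 2))))
  (@Cl.mk (nat_lit 0x3000a00040008000b000b000a000600090005000500080006000d000c0007) (nat_lit 0x804123020060b60) (nat_lit 16) Lb.e (@T16.mk En
    (@En.n l460 (nat_lit 1987) (nat_lit 0) (nat_lit 7))
    (@En.n l18969 (nat_lit 3306) (nat_lit 4) (nat_lit 12))
    (@En.n l18970 (nat_lit 5690) (nat_lit 2) (nat_lit 13))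
    (@En.n l1167 (nat_lit 2504) (nat_lit 3) (nat_lit 6))
    (@En.n l18971 (nat_lit 3349) (nat_lit 10) (nat_lit 8))
    (@En.n l18972 (nat_lit 3349) (nat_lit 11) (nat_lit 5))
    (@En.n l517 (nat_lit 10074) (nat_lit 6) (nat_lit 5))
    (@En.n l18973 (nat_lit 776) (nat_lit 9) (nat_lit 9))
    (@En.n l5988 (nat_lit 5489) (nat_lit 8) (nat_lit 6))
    (@En.n l18974 (nat_lit 4303) (nat_lit 10) (nat_lit 10))
    (@En.n l18975 (nat_lit 3310) (nat_lit 5) (nat_lit 11))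
    (@En.n l18976 (nat_lit 3164) (nat_lit 7) (nat_lit 11))
    (@En.n l4947 (nat_lit 5177) (nat_lit 11) (nat_lit 8))
    (@En.n l517 (nat_lit 2527) (nat_lit 14) (nat_lit 4))
    (@En.n l18977 (nat_lit 3312) (nat_lit 0) (nat_lit 10))
    (@En.n l18978 (nat_lit 3308) (nat_lit 1) (nat_lit 3))))
noncomputable def a207 : T16 Cl := @T16.mk Cl
  (@Cl.mk (nat_lit 0x30007000a000a00090006000a000900060006000900070006000d0007000a) (nat_lit 0x12302300000507) (nat_lit 16) Lb.e (@T16.mk En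
    (@En.n l34728 (nat_lit 5040) (nat_lit 0) (nat_lit 10))
    (@En.n l34729 (nat_lit 1988) (nat_lit 2) (nat_lit 7))
    (@En.n l34730 (nat_lit 3304) (nat_lit 2) (nat_lit 13))
    (@En.n l34731 (nat_lit 5423) (nat_lit 3) (nat_lit 6))
    (@En.n l5706 (nat_lit 2506) (nat_lit 4) (nat_lit 7))
    (@En.n l3 (nat_lit 3346) (nat_lit 9) (nat_lit 9))
    (@En.n l527 (nat_lit 3346) (nat_lit 10) (nat_lit 6))
    (@En.n l34732 (nat_lit 10063) (nat_lit 7) (nat_lit 6))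
    (@En.n l34733 (nat_lit 3311) (nat_lit 7) (nat_lit 9))
    (@En.n l617 (nat_lit 1965) (nat_lit 9) (nat_lit 10))
    (@En.n l386 (nat_lit 5473) (nat_lit 11) (nat_lit 6))
    (@En.n l34734 (nat_lit 4222) (nat_lit 7) (nat_lit 9))
    (@En.n l13816 (nat_lit 3313) (nat_lit 6) (nat_lit 10))
    (@En.n l34734 (nat_lit 3163) (nat_lit 8) (nat_lit 10))
    (@En.n l34735 (nat_lit 1310) (nat_lit 12) (nat_lit 7))
    (@En.n l34736 (nat_lit 3342) (nat_lit 15) (nat_lit 3))))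
  (@Cl.mk (nat_lit 0x2000900080007000d0008000b00030007000a0008000500090008000e0006) (nat_lit 0x1408180012023b0) (nat_lit 16) Lb.e (@T16.mk En
    (@En.n l5600 (nat_lit 3312) (nat_lit 7) (nat_lit 6))
    (@En.n l5928 (nat_lit 9404) (nat_lit 1) (nat_lit 14))
    (@En.n l644 (nat_lit 3310) (nat_lit 2) (nat_lit 8))
    (@En.n l617 (nat_lit 2068) (nat_lit 3) (nat_lit 9))
    (@En.n l2125 (nat_lit 5495) (nat_lit 4) (nat_lit 5))
    (@En.n l22789 (nat_lit 3486) (nat_lit 5) (nat_lit 8))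
    (@En.n l18235 (nat_lit 1323) (nat_lit 8) (nat_lit 10))
    (@En.n l26872 (nat_lit 5185) (nat_lit 7) (nat_lit 7))
    (@En.n l18658 (nat_lit 3343) (nat_lit 8) (nat_lit 3))
    (@En.n l12274 (nat_lit 5041) (nat_lit 0) (nat_lit 11))
    (@En.n l21779 (nat_lit 1984) (nat_lit 11) (nat_lit 8))
    (@En.n l18235 (nat_lit 3303) (nat_lit 12) (nat_lit 13))
    (@En.n l26873 (nat_lit 5422) (nat_lit 13) (nat_lit 7))
    (@En.n l1769 (nat_lit 2588) (nat_lit 14) (nat_lit 8))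
    (@En.n l5608 (nat_lit 3312) (nat_lit 5) (nat_lit 9))
    (@En.n l11 (nat_lit 3313) (nat_lit 15) (nat_lit 2))))
  (@Cl.mk (nat_lit 0x30003000a0008000b000b000a000800060005000500080006000d000d0008) (nat_lit 0x51724100000566) (nat_lit 16) Lb.e (@T16.mk En
    (@En.n l13864 (nat_lit 1904) (nat_lit 0) (nat_lit 8))
    (@En.n l27900 (nat_lit 3317) (nat_lit 3) (nat_lit 13))
    (@En.n l27901 (nat_lit 3124) (nat_lit 2) (nat_lit 13))
    (@En.n l27902 (nat_lit 2143) (nat_lit 3) (nat_lit 6))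
    (@En.n l17073 (nat_lit 3318) (nat_lit 10) (nat_lit 8))
    (@En.n l18988 (nat_lit 3318) (nat_lit 11) (nat_lit 5))
    (@En.n l27903 (nat_lit 3042) (nat_lit 6) (nat_lit 5))
    (@En.i (nat_lit 2214) (nat_lit 7) (nat_lit 6))
    (@En.n l13864 (nat_lit 861) (nat_lit 8) (nat_lit 8))
    (@En.n l27518 (nat_lit 4578) (nat_lit 10) (nat_lit 10))
    (@En.n l27904 (nat_lit 3319) (nat_lit 5) (nat_lit 11))
    (@En.i (nat_lit 3269) (nat_lit 7) (nat_lit 11))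
    (@En.n l27905 (nat_lit 338) (nat_lit 13) (nat_lit 8))
    (@En.n l19313 (nat_lit 3304) (nat_lit 14) (nat_lit 10))
    (@En.n l18992 (nat_lit 3320) (nat_lit 13) (nat_lit 3))
    (@En.n l27906 (nat_lit 3317) (nat_lit 0) (nat_lit 3))))
  (@Cl.mk (nat_lit 0x200090008000e000b0002000b000a0007000500080005000d0006000e0003) (nat_lit 0x518805700005080) (nat_lit 16) Lb.e (@T16.mk En
    (@En.n l37665 (nat_lit 3318) (nat_lit 5) (nat_lit 3))
    (@En.n l11975 (nat_lit 12935) (nat_lit 0) (nat_lit 14))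
    (@En.n l37666 (nat_lit 1974) (nat_lit 2) (nat_lit 6))
    (@En.n l37667 (nat_lit 3120) (nat_lit 9) (nat_lit 13))
    (@En.n l24951 (nat_lit 2139) (nat_lit 4) (nat_lit 5))
    (@En.n l25692 (nat_lit 13150) (nat_lit 10) (nat_lit 8))
    (@En.i (nat_lit 3040) (nat_lit 6) (nat_lit 5))
    (@En.n l4147 (nat_lit 2219) (nat_lit 7) (nat_lit 7))
    (@En.n l24939 (nat_lit 3329) (nat_lit 14) (nat_lit 10))
    (@En.n l37668 (nat_lit 4579) (nat_lit 10) (nat_lit 11))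
    (@En.n l11 (nat_lit 3315) (nat_lit 10) (nat_lit 2))
    (@En.i (nat_lit 3317) (nat_lit 12) (nat_lit 11))
    (@En.n l1144 (nat_lit 3271) (nat_lit 13) (nat_lit 14))
    (@En.n l17509 (nat_lit 359) (nat_lit 14) (nat_lit 8))
    (@En.n l37669 (nat_lit 3347) (nat_lit 3) (nat_lit 9))
    (@En.n l17 (nat_lit 3315) (nat_lit 15) (nat_lit 2))))
  (@Cl.mk (nat_lit 0x200080007000d0008000e00030002000b0008000b000900080005000e0005) (nat_lit 0x2071a00511340b0) (nat_lit 16) Lb.e (@T16.mk En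
    (@En.n l24929 (nat_lit 3317) (nat_lit 7) (nat_lit 5))
    (@En.n l396 (nat_lit 3989) (nat_lit 1) (nat_lit 14))
    (@En.n l476 (nat_lit 2220) (nat_lit 2) (nat_lit 5))
    (@En.n l1769 (nat_lit 3330) (nat_lit 3) (nat_lit 8))
    (@En.n l13399 (nat_lit 3616) (nat_lit 4) (nat_lit 9))
    (@En.i (nat_lit 3262) (nat_lit 7) (nat_lit 11))
    (@En.n l4869 (nat_lit 339) (nat_lit 6) (nat_lit 8))
    (@En.i (nat_lit 3301) (nat_lit 8) (nat_lit 11))
    (@En.n l11 (nat_lit 3316) (nat_lit 8) (nat_lit 2))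
    (@En.n l1992 (nat_lit 3319) (nat_lit 9) (nat_lit 3))
    (@En.n l619 (nat_lit 12938) (nat_lit 0) (nat_lit 14))
    (@En.n l2576 (nat_lit 1975) (nat_lit 12) (nat_lit 8))
    (@En.i (nat_lit 3128) (nat_lit 13) (nat_lit 13))
    (@En.n l18947 (nat_lit 2283) (nat_lit 14) (nat_lit 7))
    (@En.n l24930 (nat_lit 3317) (nat_lit 5) (nat_lit 8))
    (@En.n l18 (nat_lit 3316) (nat_lit 15) (nat_lit 2))))
  (@Cl.mk (nat_lit 0x2000a0008000b000b000a000900060005000500080006000d0007000e0003) (nat_lit 0x517245000105090) (nat_lit 16) Lb.e (@T16.mk En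
    (@En.n l26741 (nat_lit 3314) (nat_lit 15) (nat_lit 3))
    (@En.n l1594 (nat_lit 12936) (nat_lit 0) (nat_lit 14))
    (@En.n l7 (nat_lit 1973) (nat_lit 2) (nat_lit 7))
    (@En.n l26742 (nat_lit 3119) (nat_lit 2) (nat_lit 13))
    (@En.n l7 (nat_lit 2142) (nat_lit 4) (nat_lit 6))
    (@En.n l1157 (nat_lit 3315) (nat_lit 5) (nat_lit 8))
    (@En.n l575 (nat_lit 3315) (nat_lit 6) (nat_lit 5))
    (@En.i (nat_lit 3047) (nat_lit 7) (nat_lit 5))
    (@En.n l1593 (nat_lit 2218) (nat_lit 8) (nat_lit 6))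
    (@En.n l26743 (nat_lit 3328) (nat_lit 10) (nat_lit 9))
    (@En.n l12911 (nat_lit 4577) (nat_lit 11) (nat_lit 10))
    (@En.n l26744 (nat_lit 3316) (nat_lit 5) (nat_lit 11))
    (@En.n l12911 (nat_lit 3272) (nat_lit 7) (nat_lit 11))
    (@En.n l7158 (nat_lit 340) (nat_lit 14) (nat_lit 8))
    (@En.i (nat_lit 3302) (nat_lit 14) (nat_lit 10))
    (@En.n l17 (nat_lit 3317) (nat_lit 15) (nat_lit 2))))
  (@Cl.mk (nat_lit 0x2000b00090007000500080005000d000d00070003000300090008000e000b) (nat_lit 0x510060460005188) (nat_lit 16) Lb.e (@T16.mk En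
    (@En.n l27933 (nat_lit 3314) (nat_lit 11) (nat_lit 11))
    (@En.n l14017 (nat_lit 3270) (nat_lit 1) (nat_lit 14))
    (@En.n l1310 (nat_lit 343) (nat_lit 2) (nat_lit 8))
    (@En.n l7406 (nat_lit 3307) (nat_lit 3) (nat_lit 9))
    (@En.n l18 (nat_lit 3322) (nat_lit 13) (nat_lit 3))
    (@En.n l30262 (nat_lit 3315) (nat_lit 0) (nat_lit 3))
    (@En.n l11367 (nat_lit 1903) (nat_lit 0) (nat_lit 7))
    (@En.n l30263 (nat_lit 3315) (nat_lit 3) (nat_lit 13))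
    (@En.n l30264 (nat_lit 3123) (nat_lit 9) (nat_lit 13))
    (@En.n l2486 (nat_lit 2140) (nat_lit 9) (nat_lit 5))
    (@En.n l4826 (nat_lit 13148) (nat_lit 10) (nat_lit 8))
    (@En.n l30265 (nat_lit 3039) (nat_lit 5) (nat_lit 5))
    (@En.i (nat_lit 2212) (nat_lit 13) (nat_lit 7))
    (@En.n l3219 (nat_lit 863) (nat_lit 14) (nat_lit 9))
    (@En.n l22019 (nat_lit 4580) (nat_lit 9) (nat_lit 11))
    (@En.n l107 (nat_lit 3318) (nat_lit 15) (nat_lit 2))))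
  (@Cl.mk (nat_lit 0x200080007000d000d000900030003000b0008000b000900070005000e0005) (nat_lit 0x1068200511700b0) (nat_lit 16) Lb.e (@T16.mk En
    (@En.n l25684 (nat_lit 3314) (nat_lit 6) (nat_lit 5))
    (@En.n l396 (nat_lit 3987) (nat_lit 1) (nat_lit 14))
    (@En.n l11973 (nat_lit 2216) (nat_lit 2) (nat_lit 5))
    (@En.i (nat_lit 3333) (nat_lit 3) (nat_lit 7))
    (@En.n l916 (nat_lit 3615) (nat_lit 4) (nat_lit 9))
    (@En.i (nat_lit 3260) (nat_lit 7) (nat_lit 11))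
    (@En.n l420 (nat_lit 336) (nat_lit 6) (nat_lit 8))
    (@En.n l10008 (nat_lit 3303) (nat_lit 8) (nat_lit 11))
    (@En.n l11 (nat_lit 3321) (nat_lit 8) (nat_lit 3))
    (@En.n l5870 (nat_lit 3316) (nat_lit 9) (nat_lit 3))
    (@En.i (nat_lit 1909) (nat_lit 11) (nat_lit 9))
    (@En.n l2691 (nat_lit 3316) (nat_lit 12) (nat_lit 13))
    (@En.n l1596 (nat_lit 3127) (nat_lit 13) (nat_lit 13))
    (@En.n l7804 (nat_lit 2284) (nat_lit 14) (nat_lit 7))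
    (@En.n l25685 (nat_lit 3314) (nat_lit 4) (nat_lit 8))
    (@En.n l18 (nat_lit 3319) (nat_lit 15) (nat_lit 2))))
  (@Cl.mk (nat_lit 0x200090003000a0008000b000b000a000700060005000500080006000e000d) (nat_lit 0x305182700000046) (nat_lit 16) Lb.e (@T16.mk En
    (@En.n l14522 (nat_lit 3314) (nat_lit 2) (nat_lit 13))
    (@En.i (nat_lit 3197) (nat_lit 1) (nat_lit 14))
    (@En.n l61 (nat_lit 2151) (nat_lit 2) (nat_lit 6))
    (@En.n l730 (nat_lit 3322) (nat_lit 3) (nat_lit 8))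
    (@En.n l731 (nat_lit 3322) (nat_lit 4) (nat_lit 5))
    (@En.n l7297 (nat_lit 4196) (nat_lit 5) (nat_lit 5))
    (@En.i (nat_lit 2213) (nat_lit 6) (nat_lit 6))
    (@En.n l13622 (nat_lit 3213) (nat_lit 7) (nat_lit 7))
    (@En.n l14543 (nat_lit 4581) (nat_lit 9) (nat_lit 10))
    (@En.n l14544 (nat_lit 3321) (nat_lit 5) (nat_lit 11))
    (@En.n l14522 (nat_lit 3274) (nat_lit 7) (nat_lit 11))
    (@En.n l14545 (nat_lit 342) (nat_lit 12) (nat_lit 8))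
    (@En.n l14546 (nat_lit 4960) (nat_lit 13) (nat_lit 10))
    (@En.n l7914 (nat_lit 3314) (nat_lit 14) (nat_lit 3))
    (@En.i (nat_lit 1986) (nat_lit 0) (nat_lit 9))
    (@En.n l7 (nat_lit 3320) (nat_lit 15) (nat_lit 2))))
  (@Cl.mk (nat_lit 0x200080007000e000d0002000a0003000b0008000b000900060005000e0005) (nat_lit 0x1077030511600b0) (nat_lit 16) Lb.e (@T16.mk En
    (@En.n l11994 (nat_lit 3320) (nat_lit 5) (nat_lit 5))
    (@En.n l4538 (nat_lit 3988) (nat_lit 1) (nat_lit 14))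
    (@En.n l11995 (nat_lit 2215) (nat_lit 2) (nat_lit 5))
    (@En.i (nat_lit 3735) (nat_lit 3) (nat_lit 6))
    (@En.n l11996 (nat_lit 3620) (nat_lit 4) (nat_lit 9))
    (@En.i (nat_lit 3264) (nat_lit 7) (nat_lit 11))
    (@En.n l1592 (nat_lit 341) (nat_lit 6) (nat_lit 8))
    (@En.n l3638 (nat_lit 4965) (nat_lit 8) (nat_lit 11))
    (@En.i (nat_lit 3319) (nat_lit 8) (nat_lit 3))
    (@En.n l575 (nat_lit 1991) (nat_lit 10) (nat_lit 10))
    (@En.n l67 (nat_lit 3321) (nat_lit 10) (nat_lit 2))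
    (@En.n l68 (nat_lit 3319) (nat_lit 12) (nat_lit 13))
    (@En.n l3638 (nat_lit 3196) (nat_lit 13) (nat_lit 14))
    (@En.n l7804 (nat_lit 2308) (nat_lit 14) (nat_lit 7))
    (@En.n l11997 (nat_lit 3320) (nat_lit 3) (nat_lit 8))
    (@En.n l18 (nat_lit 3321) (nat_lit 15) (nat_lit 2))))
  (@Cl.mk (nat_lit 0x20008000300090008000e000b0002000b00080007000500080005000e000d) (nat_lit 0x305189055006035) (nat_lit 16) Lb.e (@T16.mk En
    (@En.n l396 (nat_lit 3318) (nat_lit 8) (nat_lit 13))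
    (@En.n l9950 (nat_lit 3205) (nat_lit 1) (nat_lit 14))
    (@En.n l2486 (nat_lit 2194) (nat_lit 2) (nat_lit 5))
    (@En.i (nat_lit 13149) (nat_lit 10) (nat_lit 8))
    (@En.n l4282 (nat_lit 3041) (nat_lit 4) (nat_lit 5))
    (@En.i (nat_lit 2211) (nat_lit 13) (nat_lit 7))
    (@En.n l3219 (nat_lit 3209) (nat_lit 6) (nat_lit 8))
    (@En.n l4208 (nat_lit 4582) (nat_lit 8) (nat_lit 11))
    (@En.n l107 (nat_lit 3322) (nat_lit 8) (nat_lit 2))
    (@En.n l1643 (nat_lit 3320) (nat_lit 10) (nat_lit 11))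
    (@En.n l4684 (nat_lit 3724) (nat_lit 11) (nat_lit 14))
    (@En.n l4208 (nat_lit 1595) (nat_lit 12) (nat_lit 8))
    (@En.n l17 (nat_lit 4959) (nat_lit 13) (nat_lit 9))
    (@En.i (nat_lit 3318) (nat_lit 4) (nat_lit 3))
    (@En.n l2483 (nat_lit 1990) (nat_lit 0) (nat_lit 8))
    (@En.n l50 (nat_lit 3322) (nat_lit 15) (nat_lit 2))))
  (@Cl.mk (nat_lit 0x30003000b0009000c000c000a0005000400040007000c0006000d000d0004) (nat_lit 0x812a3000090120) (nat_lit 16) Lb.e (@T16.mk En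
    (@En.n l14015 (nat_lit 3212) (nat_lit 0) (nat_lit 4))
    (@En.n l61 (nat_lit 3325) (nat_lit 3) (nat_lit 13))
    (@En.n l14016 (nat_lit 857) (nat_lit 1) (nat_lit 13))
    (@En.n l137 (nat_lit 3314) (nat_lit 3) (nat_lit 6))
    (@En.n l8047 (nat_lit 8533) (nat_lit 5) (nat_lit 12))
    (@En.n l10862 (nat_lit 3324) (nat_lit 11) (nat_lit 7))
    (@En.n l11 (nat_lit 3324) (nat_lit 12) (nat_lit 4))
    (@En.n l10862 (nat_lit 3744) (nat_lit 7) (nat_lit 4))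
    (@En.n l14016 (nat_lit 538) (nat_lit 0) (nat_lit 5))
    (@En.i (nat_lit 7327) (nat_lit 10) (nat_lit 10))
    (@En.n l14017 (nat_lit 3326) (nat_lit 4) (nat_lit 12))
    (@En.i (nat_lit 2674) (nat_lit 6) (nat_lit 12))
    (@En.n l14018 (nat_lit 330) (nat_lit 13) (nat_lit 9))
    (@En.i (nat_lit 5181) (nat_lit 14) (nat_lit 11))
    (@En.n l11229 (nat_lit 3215) (nat_lit 13) (nat_lit 3))
    (@En.n l18 (nat_lit 3325) (nat_lit 0) (nat_lit 3))))
  (@Cl.mk (nat_lit 0x2000b000600040007000c0005000d000d000400030003000a0009000e000c) (nat_lit 0x400090120008123) (nat_lit 16) Lb.e (@T16.mk En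
    (@En.n l68 (nat_lit 3323) (nat_lit 11) (nat_lit 12))
    (@En.i (nat_lit 1370) (nat_lit 1) (nat_lit 14))
    (@En.n l14455 (nat_lit 356) (nat_lit 2) (nat_lit 9))
    (@En.n l15657 (nat_lit 5180) (nat_lit 3) (nat_lit 10))
    (@En.n l11228 (nat_lit 3214) (nat_lit 13) (nat_lit 3))
    (@En.n l18 (nat_lit 3327) (nat_lit 0) (nat_lit 3))
    (@En.n l15658 (nat_lit 3210) (nat_lit 0) (nat_lit 4))
    (@En.n l61 (nat_lit 3327) (nat_lit 3) (nat_lit 13))
    (@En.n l11685 (nat_lit 856) (nat_lit 9) (nat_lit 13))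
    (@En.n l15659 (nat_lit 3318) (nat_lit 9) (nat_lit 5))
    (@En.n l8047 (nat_lit 8532) (nat_lit 11) (nat_lit 12))
    (@En.n l10862 (nat_lit 13151) (nat_lit 11) (nat_lit 7))
    (@En.i (nat_lit 3001) (nat_lit 6) (nat_lit 4))
    (@En.n l11685 (nat_lit 541) (nat_lit 14) (nat_lit 6))
    (@En.n l14455 (nat_lit 7420) (nat_lit 9) (nat_lit 11))
    (@En.n l67 (nat_lit 3324) (nat_lit 15) (nat_lit 2))))
  (@Cl.mk (nat_lit 0x2000b0009000c000c000a0005000400040007000d0006000d0003000e0003) (nat_lit 0x212a30000a01030) (nat_lit 16) Lb.e (@T16.mk En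
    (@En.i (nat_lit 3323) (nat_lit 15) (nat_lit 3))
    (@En.n l1834 (nat_lit 12945) (nat_lit 0) (nat_lit 14))
    (@En.i (nat_lit 3328) (nat_lit 2) (nat_lit 3))
    (@En.n l2438 (nat_lit 855) (nat_lit 0) (nat_lit 13))
    (@En.n l18993 (nat_lit 3317) (nat_lit 4) (nat_lit 6))
    (@En.n l1834 (nat_lit 8346) (nat_lit 6) (nat_lit 13))
    (@En.n l10862 (nat_lit 3327) (nat_lit 6) (nat_lit 7))
    (@En.n l11 (nat_lit 3327) (nat_lit 7) (nat_lit 4))
    (@En.n l10862 (nat_lit 3002) (nat_lit 8) (nat_lit 4))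
    (@En.n l18618 (nat_lit 535) (nat_lit 9) (nat_lit 5))
    (@En.i (nat_lit 7410) (nat_lit 11) (nat_lit 10))
    (@En.n l4684 (nat_lit 3332) (nat_lit 4) (nat_lit 12))
    (@En.i (nat_lit 2673) (nat_lit 13) (nat_lit 12))
    (@En.n l18994 (nat_lit 328) (nat_lit 14) (nat_lit 9))
    (@En.i (nat_lit 5177) (nat_lit 12) (nat_lit 11))
    (@En.n l17 (nat_lit 3325) (nat_lit 15) (nat_lit 2))))
  (@Cl.mk (nat_lit 0x20007000c0007000d000d000400030003000c0009000c00090004000e0004) (nat_lit 0x501200081920a0) (nat_lit 16) Lb.e (@T16.mk En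
    (@En.n l14325 (nat_lit 3323) (nat_lit 7) (nat_lit 4))
    (@En.n l396 (nat_lit 4681) (nat_lit 1) (nat_lit 14))
    (@En.n l7 (nat_lit 540) (nat_lit 2) (nat_lit 4))
    (@En.n l14326 (nat_lit 7403) (nat_lit 3) (nat_lit 9))
    (@En.i (nat_lit 3784) (nat_lit 6) (nat_lit 12))
    (@En.n l420 (nat_lit 327) (nat_lit 5) (nat_lit 9))
    (@En.n l3528 (nat_lit 5183) (nat_lit 7) (nat_lit 12))
    (@En.n l2385 (nat_lit 3734) (nat_lit 13) (nat_lit 3))
    (@En.n l152 (nat_lit 3332) (nat_lit 8) (nat_lit 3))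
    (@En.n l1992 (nat_lit 3736) (nat_lit 0) (nat_lit 4))
    (@En.n l619 (nat_lit 3332) (nat_lit 11) (nat_lit 13))
    (@En.i (nat_lit 859) (nat_lit 12) (nat_lit 13))
    (@En.n l1769 (nat_lit 3319) (nat_lit 13) (nat_lit 7))
    (@En.n l10536 (nat_lit 8578) (nat_lit 14) (nat_lit 12))
    (@En.n l14326 (nat_lit 3323) (nat_lit 5) (nat_lit 7))
    (@En.n l18 (nat_lit 3326) (nat_lit 15) (nat_lit 2))))
  (@Cl.mk (nat_lit 0x2000a0009000e000c0002000b000600040007000d0005000d0003000e0003) (nat_lit 0x712304000a01030) (nat_lit 16) Lb.e (@T16.mk En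
    (@En.i (nat_lit 3324) (nat_lit 5) (nat_lit 3))
    (@En.n l7604 (nat_lit 13716) (nat_lit 0) (nat_lit 14))
    (@En.i (nat_lit 3329) (nat_lit 7) (nat_lit 3))
    (@En.n l1449 (nat_lit 854) (nat_lit 9) (nat_lit 13))
    (@En.n l9530 (nat_lit 3315) (nat_lit 4) (nat_lit 5))
    (@En.n l1836 (nat_lit 8564) (nat_lit 6) (nat_lit 13))
    (@En.n l10862 (nat_lit 13152) (nat_lit 11) (nat_lit 7))
    (@En.i (nat_lit 3000) (nat_lit 7) (nat_lit 4))
    (@En.n l1449 (nat_lit 537) (nat_lit 14) (nat_lit 6))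
    (@En.n l28465 (nat_lit 7419) (nat_lit 10) (nat_lit 11))
    (@En.n l67 (nat_lit 3327) (nat_lit 10) (nat_lit 2))
    (@En.n l68 (nat_lit 3325) (nat_lit 12) (nat_lit 12))
    (@En.i (nat_lit 1371) (nat_lit 13) (nat_lit 14))
    (@En.n l8361 (nat_lit 357) (nat_lit 14) (nat_lit 9))
    (@En.i (nat_lit 5178) (nat_lit 3) (nat_lit 10))
    (@En.n l17 (nat_lit 3327) (nat_lit 15) (nat_lit 2))))
noncomputable def a208 : T16 Cl := @T16.mk Cl
  (@Cl.mk (nat_lit 0x2000b0009000c000c00090005000400040007000d000c00070003000e0004) (nat_lit 0x212a40000ba0010) (nat_lit 16) Lb.e (@T16.mk En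
    (@En.n l19015 (nat_lit 861) (nat_lit 14) (nat_lit 4))
    (@En.n l30338 (nat_lit 394) (nat_lit 1) (nat_lit 14))
    (@En.n l50 (nat_lit 3325) (nat_lit 2) (nat_lit 3))
    (@En.n l685 (nat_lit 1970) (nat_lit 3) (nat_lit 7))
    (@En.n l217 (nat_lit 3323) (nat_lit 4) (nat_lit 12))
    (@En.n l1834 (nat_lit 8371) (nat_lit 6) (nat_lit 13))
    (@En.n l10862 (nat_lit 3329) (nat_lit 11) (nat_lit 7))
    (@En.n l11 (nat_lit 3329) (nat_lit 12) (nat_lit 4))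
    (@En.n l10862 (nat_lit 3331) (nat_lit 8) (nat_lit 4))
    (@En.n l18618 (nat_lit 532) (nat_lit 9) (nat_lit 5))
    (@En.i (nat_lit 7135) (nat_lit 11) (nat_lit 9))
    (@En.n l11666 (nat_lit 3330) (nat_lit 4) (nat_lit 12))
    (@En.i (nat_lit 2672) (nat_lit 13) (nat_lit 12))
    (@En.n l18994 (nat_lit 324) (nat_lit 14) (nat_lit 9))
    (@En.i (nat_lit 1308) (nat_lit 12) (nat_lit 11))
    (@En.n l17 (nat_lit 3328) (nat_lit 15) (nat_lit 2))))
  (@Cl.mk (nat_lit 0x2000a000600040007000d000c00060003000e00040002000a0009000e000c) (nat_lit 0x6000ba001002123) (nat_lit 16) Lb.e (@T16.mk En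
    (@En.n l68 (nat_lit 3328) (nat_lit 12) (nat_lit 12))
    (@En.i (nat_lit 1372) (nat_lit 13) (nat_lit 14))
    (@En.n l21291 (nat_lit 358) (nat_lit 2) (nat_lit 9))
    (@En.n l28464 (nat_lit 5179) (nat_lit 3) (nat_lit 10))
    (@En.n l17 (nat_lit 3329) (nat_lit 4) (nat_lit 2))
    (@En.n l26149 (nat_lit 863) (nat_lit 5) (nat_lit 4))
    (@En.n l13266 (nat_lit 458) (nat_lit 1) (nat_lit 14))
    (@En.n l50 (nat_lit 3327) (nat_lit 2) (nat_lit 3))
    (@En.n l9527 (nat_lit 1971) (nat_lit 3) (nat_lit 6))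
    (@En.n l217 (nat_lit 3324) (nat_lit 10) (nat_lit 12))
    (@En.n l1836 (nat_lit 8565) (nat_lit 6) (nat_lit 13))
    (@En.n l10862 (nat_lit 13154) (nat_lit 11) (nat_lit 7))
    (@En.i (nat_lit 2999) (nat_lit 7) (nat_lit 4))
    (@En.n l26151 (nat_lit 534) (nat_lit 14) (nat_lit 6))
    (@En.n l28465 (nat_lit 7132) (nat_lit 10) (nat_lit 10))
    (@En.n l67 (nat_lit 3329) (nat_lit 15) (nat_lit 2))))
  (@Cl.mk (nat_lit 0x20007000d000c00080003000e00040002000c0009000c00080004000e0004) (nat_lit 0xb6601002193090) (nat_lit 16) Lb.e (@T16.mk En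
    (@En.n l7913 (nat_lit 3328) (nat_lit 8) (nat_lit 4))
    (@En.n l396 (nat_lit 4799) (nat_lit 1) (nat_lit 14))
    (@En.n l7 (nat_lit 533) (nat_lit 2) (nat_lit 4))
    (@En.n l13380 (nat_lit 7411) (nat_lit 3) (nat_lit 8))
    (@En.i (nat_lit 3782) (nat_lit 13) (nat_lit 12))
    (@En.n l420 (nat_lit 323) (nat_lit 5) (nat_lit 9))
    (@En.n l614 (nat_lit 5184) (nat_lit 7) (nat_lit 12))
    (@En.n l11 (nat_lit 3330) (nat_lit 7) (nat_lit 2))
    (@En.n l117 (nat_lit 3333) (nat_lit 8) (nat_lit 4))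
    (@En.n l2691 (nat_lit 391) (nat_lit 1) (nat_lit 14))
    (@En.n l936 (nat_lit 3332) (nat_lit 10) (nat_lit 3))
    (@En.i (nat_lit 1972) (nat_lit 12) (nat_lit 8))
    (@En.n l936 (nat_lit 3326) (nat_lit 13) (nat_lit 12))
    (@En.n l322 (nat_lit 8369) (nat_lit 6) (nat_lit 13))
    (@En.n l13380 (nat_lit 3328) (nat_lit 6) (nat_lit 7))
    (@En.n l18 (nat_lit 3330) (nat_lit 15) (nat_lit 2))))
  (@Cl.mk (nat_lit 0x2000d0009000c0003000d000a000400030007000d000c00060003000e0004) (nat_lit 0x52076000b40010) (nat_lit 16) Lb.e (@T16.mk En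
    (@En.n l50 (nat_lit 3742) (nat_lit 8) (nat_lit 4))
    (@En.n l7145 (nat_lit 465) (nat_lit 1) (nat_lit 14))
    (@En.n l50 (nat_lit 3002) (nat_lit 2) (nat_lit 3))
    (@En.n l28 (nat_lit 3144) (nat_lit 3) (nat_lit 6))
    (@En.n l217 (nat_lit 3744) (nat_lit 4) (nat_lit 12))
    (@En.n l476 (nat_lit 8326) (nat_lit 6) (nat_lit 13))
    (@En.i (nat_lit 2999) (nat_lit 6) (nat_lit 7))
    (@En.n l28 (nat_lit 3339) (nat_lit 7) (nat_lit 3))
    (@En.n l12618 (nat_lit 3330) (nat_lit 0) (nat_lit 4))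
    (@En.i (nat_lit 7769) (nat_lit 10) (nat_lit 10))
    (@En.i (nat_lit 4795) (nat_lit 11) (nat_lit 13))
    (@En.i (nat_lit 3335) (nat_lit 11) (nat_lit 3))
    (@En.n l2038 (nat_lit 2676) (nat_lit 0) (nat_lit 12))
    (@En.i (nat_lit 3334) (nat_lit 14) (nat_lit 9))
    (@En.i (nat_lit 10257) (nat_lit 2) (nat_lit 13))
    (@En.n l17 (nat_lit 3331) (nat_lit 15) (nat_lit 2))))
  (@Cl.mk (nat_lit 0x20007000d0007000d0003000e00030002000c0009000c00090004000e0004) (nat_lit 0xb0103008192050) (nat_lit 16) Lb.e (@T16.mk En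
    (@En.n l4263 (nat_lit 3325) (nat_lit 8) (nat_lit 4))
    (@En.n l396 (nat_lit 4798) (nat_lit 1) (nat_lit 14))
    (@En.n l10348 (nat_lit 536) (nat_lit 2) (nat_lit 4))
    (@En.n l13399 (nat_lit 7408) (nat_lit 3) (nat_lit 9))
    (@En.i (nat_lit 3781) (nat_lit 6) (nat_lit 12))
    (@En.n l4869 (nat_lit 329) (nat_lit 5) (nat_lit 9))
    (@En.i (nat_lit 5182) (nat_lit 7) (nat_lit 12))
    (@En.n l11 (nat_lit 3332) (nat_lit 7) (nat_lit 2))
    (@En.n l117 (nat_lit 3326) (nat_lit 8) (nat_lit 3))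
    (@En.n l1501 (nat_lit 13115) (nat_lit 0) (nat_lit 14))
    (@En.n l2576 (nat_lit 3330) (nat_lit 10) (nat_lit 3))
    (@En.i (nat_lit 858) (nat_lit 12) (nat_lit 13))
    (@En.i (nat_lit 3316) (nat_lit 13) (nat_lit 7))
    (@En.n l1501 (nat_lit 8368) (nat_lit 6) (nat_lit 13))
    (@En.n l13399 (nat_lit 3325) (nat_lit 6) (nat_lit 7))
    (@En.n l18 (nat_lit 3332) (nat_lit 15) (nat_lit 2))))
  (@Cl.mk (nat_lit 0x20007000c000c000c0009000400040004000c0009000c00070004000e0004) (nat_lit 0x967700081a0050) (nat_lit 16) Lb.e (@T16.mk En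
    (@En.n l7 (nat_lit 861) (nat_lit 6) (nat_lit 4))
    (@En.n l396 (nat_lit 4757) (nat_lit 1) (nat_lit 14))
    (@En.n l7 (nat_lit 544) (nat_lit 2) (nat_lit 4))
    (@En.i (nat_lit 5314) (nat_lit 3) (nat_lit 7))
    (@En.i (nat_lit 3821) (nat_lit 6) (nat_lit 12))
    (@En.n l420 (nat_lit 321) (nat_lit 5) (nat_lit 9))
    (@En.n l134 (nat_lit 7598) (nat_lit 7) (nat_lit 12))
    (@En.n l11 (nat_lit 3735) (nat_lit 7) (nat_lit 4))
    (@En.n l152 (nat_lit 860) (nat_lit 8) (nat_lit 4))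
    (@En.n l936 (nat_lit 3326) (nat_lit 9) (nat_lit 4))
    (@En.i (nat_lit 3114) (nat_lit 11) (nat_lit 9))
    (@En.n l619 (nat_lit 3330) (nat_lit 12) (nat_lit 12))
    (@En.i (nat_lit 3736) (nat_lit 4) (nat_lit 12))
    (@En.i (nat_lit 8372) (nat_lit 14) (nat_lit 12))
    (@En.n l4600 (nat_lit 861) (nat_lit 4) (nat_lit 7))
    (@En.n l18 (nat_lit 3333) (nat_lit 15) (nat_lit 2))))
  (@Cl.mk (nat_lit 0x20009000c000a000d00090004000300070006000d000c00070003000e0004) (nat_lit 0x432050000b60010) (nat_lit 16) Lb.e (@T16.mk En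
    (@En.n l33400 (nat_lit 3861) (nat_lit 7) (nat_lit 4))
    (@En.n l7145 (nat_lit 478) (nat_lit 1) (nat_lit 14))
    (@En.n l50 (nat_lit 3341) (nat_lit 2) (nat_lit 3))
    (@En.n l7526 (nat_lit 3142) (nat_lit 3) (nat_lit 7))
    (@En.n l217 (nat_lit 4264) (nat_lit 4) (nat_lit 12))
    (@En.n l1770 (nat_lit 8094) (nat_lit 6) (nat_lit 13))
    (@En.n l527 (nat_lit 3335) (nat_lit 6) (nat_lit 6))
    (@En.i (nat_lit 3336) (nat_lit 7) (nat_lit 7))
    (@En.n l28 (nat_lit 3337) (nat_lit 8) (nat_lit 3))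
    (@En.n l24281 (nat_lit 323) (nat_lit 0) (nat_lit 4))
    (@En.i (nat_lit 7125) (nat_lit 11) (nat_lit 9))
    (@En.n l7526 (nat_lit 4792) (nat_lit 12) (nat_lit 13))
    (@En.n l33401 (nat_lit 219) (nat_lit 13) (nat_lit 10))
    (@En.n l7526 (nat_lit 3330) (nat_lit 6) (nat_lit 12))
    (@En.n l33395 (nat_lit 10320) (nat_lit 12) (nat_lit 9))
    (@En.n l17 (nat_lit 3334) (nat_lit 15) (nat_lit 2))))
  (@Cl.mk (nat_lit 0x2000d000b000a0003000d000a000500030006000d000c00060003000e0004) (nat_lit 0x32016000b40010) (nat_lit 16) Lb.e (@T16.mk En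
    (@En.n l18519 (nat_lit 3860) (nat_lit 8) (nat_lit 4))
    (@En.n l18520 (nat_lit 475) (nat_lit 1) (nat_lit 14))
    (@En.n l50 (nat_lit 3340) (nat_lit 2) (nat_lit 3))
    (@En.n l146 (nat_lit 3143) (nat_lit 3) (nat_lit 6))
    (@En.n l7162 (nat_lit 4263) (nat_lit 4) (nat_lit 12))
    (@En.n l7705 (nat_lit 8328) (nat_lit 6) (nat_lit 13))
    (@En.i (nat_lit 2994) (nat_lit 12) (nat_lit 6))
    (@En.n l28 (nat_lit 3338) (nat_lit 7) (nat_lit 3))
    (@En.n l5163 (nat_lit 326) (nat_lit 0) (nat_lit 5))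
    (@En.n l10786 (nat_lit 7768) (nat_lit 10) (nat_lit 10))
    (@En.n l117 (nat_lit 3334) (nat_lit 11) (nat_lit 13))
    (@En.n l107 (nat_lit 3331) (nat_lit 11) (nat_lit 3))
    (@En.n l18521 (nat_lit 1110) (nat_lit 0) (nat_lit 10))
    (@En.n l8015 (nat_lit 3328) (nat_lit 14) (nat_lit 11))
    (@En.n l14488 (nat_lit 12025) (nat_lit 2) (nat_lit 13))
    (@En.n l17 (nat_lit 3335) (nat_lit 15) (nat_lit 2))))
  (@Cl.mk (nat_lit 0x20009000d000c000b0003000a000400070005000d000c00060003000e0004) (nat_lit 0x414306000b40010) (nat_lit 16) Lb.e (@T16.mk En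
    (@En.n l27875 (nat_lit 3863) (nat_lit 5) (nat_lit 4))
    (@En.n l13266 (nat_lit 481) (nat_lit 1) (nat_lit 14))
    (@En.n l50 (nat_lit 4336) (nat_lit 2) (nat_lit 3))
    (@En.n l7525 (nat_lit 3138) (nat_lit 3) (nat_lit 6))
    (@En.n l33402 (nat_lit 4265) (nat_lit 4) (nat_lit 12))
    (@En.n l1770 (nat_lit 8093) (nat_lit 6) (nat_lit 13))
    (@En.i (nat_lit 2997) (nat_lit 6) (nat_lit 5))
    (@En.n l22253 (nat_lit 3770) (nat_lit 7) (nat_lit 7))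
    (@En.n l18994 (nat_lit 324) (nat_lit 8) (nat_lit 4))
    (@En.n l11010 (nat_lit 7123) (nat_lit 10) (nat_lit 10))
    (@En.n l10862 (nat_lit 3337) (nat_lit 10) (nat_lit 3))
    (@En.n l15520 (nat_lit 351) (nat_lit 0) (nat_lit 11))
    (@En.n l22188 (nat_lit 3334) (nat_lit 13) (nat_lit 12))
    (@En.n l97 (nat_lit 3335) (nat_lit 14) (nat_lit 13))
    (@En.n l13924 (nat_lit 10318) (nat_lit 12) (nat_lit 9))
    (@En.n l17 (nat_lit 3336) (nat_lit 15) (nat_lit 2))))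
  (@Cl.mk (nat_lit 0x20009000d000a000d0003000a000300070006000d000c00060003000e0004) (nat_lit 0x412006000b60070) (nat_lit 16) Lb.e (@T16.mk En
    (@En.n l50 (nat_lit 3862) (nat_lit 7) (nat_lit 4))
    (@En.n l7145 (nat_lit 471) (nat_lit 1) (nat_lit 14))
    (@En.n l50 (nat_lit 4337) (nat_lit 2) (nat_lit 3))
    (@En.i (nat_lit 3137) (nat_lit 3) (nat_lit 6))
    (@En.n l217 (nat_lit 4262) (nat_lit 4) (nat_lit 12))
    (@En.n l1770 (nat_lit 8092) (nat_lit 6) (nat_lit 13))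
    (@En.n l527 (nat_lit 3338) (nat_lit 6) (nat_lit 6))
    (@En.n l1769 (nat_lit 3762) (nat_lit 7) (nat_lit 7))
    (@En.i (nat_lit 3334) (nat_lit 8) (nat_lit 3))
    (@En.n l1867 (nat_lit 8023) (nat_lit 0) (nat_lit 10))
    (@En.n l10969 (nat_lit 3336) (nat_lit 10) (nat_lit 3))
    (@En.n l3062 (nat_lit 4790) (nat_lit 0) (nat_lit 13))
    (@En.n l5386 (nat_lit 302) (nat_lit 13) (nat_lit 10))
    (@En.n l2038 (nat_lit 3331) (nat_lit 14) (nat_lit 13))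
    (@En.i (nat_lit 10321) (nat_lit 12) (nat_lit 9))
    (@En.n l17 (nat_lit 3337) (nat_lit 15) (nat_lit 2))))
  (@Cl.mk (nat_lit 0x2000d000c000a0003000d0004000b00030006000d000c00050003000e0004) (nat_lit 0x12010900b30060) (nat_lit 16) Lb.e (@T16.mk En
    (@En.n l7161 (nat_lit 3859) (nat_lit 8) (nat_lit 4))
    (@En.n l18520 (nat_lit 472) (nat_lit 1) (nat_lit 14))
    (@En.n l50 (nat_lit 3004) (nat_lit 2) (nat_lit 3))
    (@En.i (nat_lit 3139) (nat_lit 3) (nat_lit 5))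
    (@En.n l7162 (nat_lit 4260) (nat_lit 4) (nat_lit 12))
    (@En.n l7705 (nat_lit 4629) (nat_lit 6) (nat_lit 13))
    (@En.n l1992 (nat_lit 3752) (nat_lit 12) (nat_lit 6))
    (@En.i (nat_lit 3335) (nat_lit 7) (nat_lit 3))
    (@En.n l1865 (nat_lit 8021) (nat_lit 0) (nat_lit 11))
    (@En.n l28668 (nat_lit 2997) (nat_lit 9) (nat_lit 4))
    (@En.n l117 (nat_lit 3337) (nat_lit 11) (nat_lit 13))
    (@En.n l107 (nat_lit 3339) (nat_lit 11) (nat_lit 3))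
    (@En.n l24986 (nat_lit 1115) (nat_lit 0) (nat_lit 10))
    (@En.n l8015 (nat_lit 2999) (nat_lit 14) (nat_lit 12))
    (@En.i (nat_lit 12028) (nat_lit 2) (nat_lit 13))
    (@En.n l17 (nat_lit 3338) (nat_lit 15) (nat_lit 2))))
  (@Cl.mk (nat_lit 0x2000d0009000d0003000d0003000b00030007000d000c00050003000e0004) (nat_lit 0x5b000900b30060) (nat_lit 16) Lb.e (@T16.mk En
    (@En.n l50 (nat_lit 3872) (nat_lit 8) (nat_lit 4))
    (@En.n l7145 (nat_lit 467) (nat_lit 1) (nat_lit 14))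
    (@En.n l50 (nat_lit 3003) (nat_lit 2) (nat_lit 3))
    (@En.i (nat_lit 3140) (nat_lit 3) (nat_lit 5))
    (@En.n l217 (nat_lit 3005) (nat_lit 4) (nat_lit 12))
    (@En.n l476 (nat_lit 8298) (nat_lit 6) (nat_lit 13))
    (@En.i (nat_lit 3713) (nat_lit 6) (nat_lit 7))
    (@En.i (nat_lit 3331) (nat_lit 7) (nat_lit 3))
    (@En.i (nat_lit 8022) (nat_lit 0) (nat_lit 11))
    (@En.n l10969 (nat_lit 2999) (nat_lit 9) (nat_lit 3))
    (@En.i (nat_lit 4794) (nat_lit 11) (nat_lit 13))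
    (@En.i (nat_lit 3338) (nat_lit 11) (nat_lit 3))
    (@En.n l2038 (nat_lit 4057) (nat_lit 0) (nat_lit 13))
    (@En.i (nat_lit 3337) (nat_lit 14) (nat_lit 9))
    (@En.i (nat_lit 10256) (nat_lit 2) (nat_lit 13))
    (@En.n l17 (nat_lit 3339) (nat_lit 15) (nat_lit 2))))
  (@Cl.mk (nat_lit 0x2000d000b000a0003000d000b000500030006000d0005000d0003000e0003) (nat_lit 0x32006000a06030) (nat_lit 16) Lb.e (@T16.mk En
    (@En.n l117 (nat_lit 4263) (nat_lit 15) (nat_lit 3))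
    (@En.n l7705 (nat_lit 13675) (nat_lit 0) (nat_lit 14))
    (@En.i (nat_lit 3335) (nat_lit 2) (nat_lit 3))
    (@En.n l14484 (nat_lit 4286) (nat_lit 0) (nat_lit 13))
    (@En.n l14485 (nat_lit 4465) (nat_lit 4) (nat_lit 5))
    (@En.n l7705 (nat_lit 8340) (nat_lit 6) (nat_lit 13))
    (@En.i (nat_lit 2995) (nat_lit 12) (nat_lit 6))
    (@En.n l28 (nat_lit 3004) (nat_lit 7) (nat_lit 3))
    (@En.n l5163 (nat_lit 331) (nat_lit 0) (nat_lit 5))
    (@En.n l14486 (nat_lit 7341) (nat_lit 10) (nat_lit 11))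
    (@En.n l117 (nat_lit 3341) (nat_lit 11) (nat_lit 13))
    (@En.n l107 (nat_lit 3002) (nat_lit 11) (nat_lit 3))
    (@En.n l14487 (nat_lit 1108) (nat_lit 0) (nat_lit 10))
    (@En.n l8015 (nat_lit 3325) (nat_lit 14) (nat_lit 11))
    (@En.n l14488 (nat_lit 10900) (nat_lit 2) (nat_lit 13))
    (@En.n l17 (nat_lit 3340) (nat_lit 15) (nat_lit 2))))
  (@Cl.mk (nat_lit 0x20009000c000a000d000a0004000300070006000d0006000d0003000e0003) (nat_lit 0x791b50000a07030) (nat_lit 16) Lb.e (@T16.mk En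
    (@En.i (nat_lit 4264) (nat_lit 15) (nat_lit 3))
    (@En.n l476 (nat_lit 13055) (nat_lit 0) (nat_lit 14))
    (@En.i (nat_lit 3334) (nat_lit 2) (nat_lit 3))
    (@En.n l5014 (nat_lit 4287) (nat_lit 0) (nat_lit 13))
    (@En.n l28 (nat_lit 4464) (nat_lit 4) (nat_lit 6))
    (@En.n l1770 (nat_lit 8091) (nat_lit 6) (nat_lit 13))
    (@En.n l527 (nat_lit 3340) (nat_lit 6) (nat_lit 6))
    (@En.i (nat_lit 4336) (nat_lit 7) (nat_lit 7))
    (@En.n l28 (nat_lit 4337) (nat_lit 8) (nat_lit 3))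
    (@En.n l4109 (nat_lit 329) (nat_lit 0) (nat_lit 4))
    (@En.i (nat_lit 4338) (nat_lit 11) (nat_lit 10))
    (@En.n l5014 (nat_lit 4791) (nat_lit 12) (nat_lit 13))
    (@En.n l24867 (nat_lit 212) (nat_lit 13) (nat_lit 10))
    (@En.n l5014 (nat_lit 3332) (nat_lit 6) (nat_lit 12))
    (@En.n l7157 (nat_lit 10326) (nat_lit 12) (nat_lit 9))
    (@En.n l17 (nat_lit 3341) (nat_lit 15) (nat_lit 2))))
  (@Cl.mk (nat_lit 0x30007000a000a00090007000a000800060006000900070006000d00090008) (nat_lit 0x12302300000833) (nat_lit 16) Lb.e (@T16.mk En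
    (@En.n l18979 (nat_lit 1589) (nat_lit 0) (nat_lit 8))
    (@En.n l18980 (nat_lit 3183) (nat_lit 14) (nat_lit 9))
    (@En.n l18981 (nat_lit 3302) (nat_lit 2) (nat_lit 13))
    (@En.n l11401 (nat_lit 5421) (nat_lit 3) (nat_lit 6))
    (@En.n l2718 (nat_lit 2508) (nat_lit 4) (nat_lit 7))
    (@En.n l11434 (nat_lit 3344) (nat_lit 9) (nat_lit 9))
    (@En.n l16306 (nat_lit 3344) (nat_lit 10) (nat_lit 6))
    (@En.i (nat_lit 10062) (nat_lit 7) (nat_lit 6))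
    (@En.n l2364 (nat_lit 2527) (nat_lit 8) (nat_lit 8))
    (@En.n l1003 (nat_lit 2069) (nat_lit 8) (nat_lit 10))
    (@En.n l18982 (nat_lit 1311) (nat_lit 11) (nat_lit 7))
    (@En.n l18983 (nat_lit 4224) (nat_lit 7) (nat_lit 9))
    (@En.n l18984 (nat_lit 3343) (nat_lit 6) (nat_lit 10))
    (@En.n l2299 (nat_lit 3160) (nat_lit 8) (nat_lit 10))
    (@En.n l7898 (nat_lit 1993) (nat_lit 12) (nat_lit 7))
    (@En.n l18985 (nat_lit 3312) (nat_lit 15) (nat_lit 3))))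
  (@Cl.mk (nat_lit 0x2000900080007000d000a000900030007000a0008000600090007000e0006) (nat_lit 0x1409330012020b0) (nat_lit 16) Lb.e (@T16.mk En
    (@En.n l22861 (nat_lit 3342) (nat_lit 7) (nat_lit 6))
    (@En.n l20446 (nat_lit 7960) (nat_lit 1) (nat_lit 14))
    (@En.n l2944 (nat_lit 2934) (nat_lit 2) (nat_lit 7))
    (@En.n l3517 (nat_lit 2070) (nat_lit 3) (nat_lit 9))
    (@En.n l16891 (nat_lit 5471) (nat_lit 4) (nat_lit 6))
    (@En.i (nat_lit 3485) (nat_lit 5) (nat_lit 8))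
    (@En.n l22862 (nat_lit 1316) (nat_lit 8) (nat_lit 10))
    (@En.i (nat_lit 3189) (nat_lit 7) (nat_lit 7))
    (@En.n l22863 (nat_lit 3313) (nat_lit 8) (nat_lit 3))
    (@En.n l2940 (nat_lit 1732) (nat_lit 0) (nat_lit 9))
    (@En.n l3521 (nat_lit 3300) (nat_lit 11) (nat_lit 10))
    (@En.n l22864 (nat_lit 3301) (nat_lit 12) (nat_lit 13))
    (@En.n l9155 (nat_lit 5418) (nat_lit 13) (nat_lit 7))
    (@En.n l61 (nat_lit 2589) (nat_lit 14) (nat_lit 8))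
    (@En.n l22865 (nat_lit 3342) (nat_lit 5) (nat_lit 9))
    (@En.n l7 (nat_lit 3343) (nat_lit 15) (nat_lit 2))))
noncomputable def a209 : T16 Cl := @T16.mk Cl
  (@Cl.mk (nat_lit 0x2000a0008000b00090006000900060005000d0008000700030007000e000a) (nat_lit 0x452307007300072) (nat_lit 16) Lb.e (@T16.mk En
    (@En.n l9885 (nat_lit 3342) (nat_lit 13) (nat_lit 10))
    (@En.n l17218 (nat_lit 3354) (nat_lit 1) (nat_lit 14))
    (@En.i (nat_lit 1995) (nat_lit 2) (nat_lit 7))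
    (@En.n l17219 (nat_lit 3346) (nat_lit 3) (nat_lit 3))
    (@En.n l16541 (nat_lit 1733) (nat_lit 0) (nat_lit 7))
    (@En.n l17220 (nat_lit 3345) (nat_lit 5) (nat_lit 8))
    (@En.n l17221 (nat_lit 3347) (nat_lit 7) (nat_lit 13))
    (@En.n l18 (nat_lit 6915) (nat_lit 7) (nat_lit 5))
    (@En.n l17222 (nat_lit 1749) (nat_lit 8) (nat_lit 6))
    (@En.n l17223 (nat_lit 13975) (nat_lit 9) (nat_lit 9))
    (@En.n l1075 (nat_lit 10057) (nat_lit 6) (nat_lit 6))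
    (@En.n l17224 (nat_lit 2526) (nat_lit 12) (nat_lit 9))
    (@En.n l1075 (nat_lit 2358) (nat_lit 7) (nat_lit 11))
    (@En.n l17220 (nat_lit 5470) (nat_lit 14) (nat_lit 8))
    (@En.n l17225 (nat_lit 2833) (nat_lit 11) (nat_lit 10))
    (@En.n l28 (nat_lit 3344) (nat_lit 15) (nat_lit 2))))
  (@Cl.mk (nat_lit 0x2000900080007000b000a0007000a000700050008000600090006000e0009) (nat_lit 0x410340800203062) (nat_lit 16) Lb.e (@T16.mk En
    (@En.n l9829 (nat_lit 3183) (nat_lit 10) (nat_lit 9))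
    (@En.n l32843 (nat_lit 4568) (nat_lit 1) (nat_lit 14))
    (@En.n l32844 (nat_lit 4363) (nat_lit 2) (nat_lit 6))
    (@En.i (nat_lit 5037) (nat_lit 3) (nat_lit 9))
    (@En.n l32845 (nat_lit 1584) (nat_lit 4) (nat_lit 6))
    (@En.n l32846 (nat_lit 3176) (nat_lit 5) (nat_lit 8))
    (@En.n l17258 (nat_lit 6916) (nat_lit 6) (nat_lit 5))
    (@En.n l17008 (nat_lit 1756) (nat_lit 7) (nat_lit 7))
    (@En.n l32847 (nat_lit 13547) (nat_lit 8) (nat_lit 10))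
    (@En.n l32848 (nat_lit 10052) (nat_lit 10) (nat_lit 7))
    (@En.n l32849 (nat_lit 3347) (nat_lit 11) (nat_lit 10))
    (@En.n l32850 (nat_lit 3344) (nat_lit 12) (nat_lit 11))
    (@En.n l1323 (nat_lit 3346) (nat_lit 13) (nat_lit 7))
    (@En.i (nat_lit 1307) (nat_lit 14) (nat_lit 8))
    (@En.n l32847 (nat_lit 2831) (nat_lit 4) (nat_lit 9))
    (@En.n l18 (nat_lit 3345) (nat_lit 15) (nat_lit 2))))
  (@Cl.mk (nat_lit 0x2000a0007000b000a0006000900060005000d0006000900030007000e000a) (nat_lit 0x402307004060072) (nat_lit 16) Lb.e (@T16.mk En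
    (@En.i (nat_lit 3312) (nat_lit 13) (nat_lit 10))
    (@En.n l97 (nat_lit 3355) (nat_lit 1) (nat_lit 14))
    (@En.n l8558 (nat_lit 5176) (nat_lit 2) (nat_lit 7))
    (@En.n l23844 (nat_lit 3344) (nat_lit 3) (nat_lit 3))
    (@En.n l386 (nat_lit 5039) (nat_lit 0) (nat_lit 9))
    (@En.n l11728 (nat_lit 1986) (nat_lit 5) (nat_lit 6))
    (@En.n l7025 (nat_lit 3307) (nat_lit 7) (nat_lit 13))
    (@En.n l7 (nat_lit 6914) (nat_lit 7) (nat_lit 5))
    (@En.i (nat_lit 1757) (nat_lit 8) (nat_lit 6))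
    (@En.i (nat_lit 13973) (nat_lit 9) (nat_lit 9))
    (@En.n l13 (nat_lit 10056) (nat_lit 6) (nat_lit 6))
    (@En.n l644 (nat_lit 3349) (nat_lit 12) (nat_lit 10))
    (@En.n l617 (nat_lit 1967) (nat_lit 13) (nat_lit 11))
    (@En.n l386 (nat_lit 5491) (nat_lit 14) (nat_lit 7))
    (@En.n l23845 (nat_lit 4221) (nat_lit 11) (nat_lit 10))
    (@En.n l107 (nat_lit 3346) (nat_lit 15) (nat_lit 2))))
  (@Cl.mk (nat_lit 0x2000a00090007000a000600090006000d00070006000300090007000e000a) (nat_lit 0x450306060004062) (nat_lit 16) Lb.e (@T16.mk En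
    (@En.n l28291 (nat_lit 3302) (nat_lit 12) (nat_lit 10))
    (@En.n l28292 (nat_lit 4567) (nat_lit 1) (nat_lit 14))
    (@En.n l27164 (nat_lit 4657) (nat_lit 2) (nat_lit 7))
    (@En.n l28293 (nat_lit 3345) (nat_lit 3) (nat_lit 9))
    (@En.n l28294 (nat_lit 3307) (nat_lit 4) (nat_lit 3))
    (@En.n l3498 (nat_lit 1583) (nat_lit 0) (nat_lit 6))
    (@En.n l28295 (nat_lit 1980) (nat_lit 6) (nat_lit 7))
    (@En.n l564 (nat_lit 6635) (nat_lit 8) (nat_lit 13))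
    (@En.n l25762 (nat_lit 2509) (nat_lit 8) (nat_lit 6))
    (@En.i (nat_lit 13974) (nat_lit 9) (nat_lit 9))
    (@En.n l28296 (nat_lit 10066) (nat_lit 5) (nat_lit 6))
    (@En.i (nat_lit 2521) (nat_lit 8) (nat_lit 10))
    (@En.n l19890 (nat_lit 3349) (nat_lit 13) (nat_lit 7))
    (@En.n l25764 (nat_lit 5179) (nat_lit 14) (nat_lit 9))
    (@En.n l5601 (nat_lit 2826) (nat_lit 10) (nat_lit 10))
    (@En.n l17 (nat_lit 3347) (nat_lit 15) (nat_lit 2))))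
  (@Cl.mk (nat_lit 0x2000b0008000b000500080005000c0005000d0008000400030008000e000b) (nat_lit 0x52050407600582) (nat_lit 16) Lb.e (@T16.mk En
    (@En.n l28253 (nat_lit 3306) (nat_lit 13) (nat_lit 11))
    (@En.n l97 (nat_lit 4566) (nat_lit 1) (nat_lit 14))
    (@En.n l26134 (nat_lit 4652) (nat_lit 2) (nat_lit 8))
    (@En.n l18 (nat_lit 3350) (nat_lit 3) (nat_lit 3))
    (@En.n l4497 (nat_lit 2521) (nat_lit 0) (nat_lit 4))
    (@En.i (nat_lit 3307) (nat_lit 5) (nat_lit 8))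
    (@En.n l3713 (nat_lit 3318) (nat_lit 7) (nat_lit 13))
    (@En.n l23844 (nat_lit 3344) (nat_lit 7) (nat_lit 5))
    (@En.n l14183 (nat_lit 7557) (nat_lit 9) (nat_lit 12))
    (@En.i (nat_lit 2513) (nat_lit 9) (nat_lit 5))
    (@En.i (nat_lit 13970) (nat_lit 10) (nat_lit 8))
    (@En.n l27975 (nat_lit 10431) (nat_lit 7) (nat_lit 5))
    (@En.n l14183 (nat_lit 2661) (nat_lit 7) (nat_lit 11))
    (@En.n l4861 (nat_lit 7512) (nat_lit 14) (nat_lit 8))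
    (@En.n l14183 (nat_lit 4305) (nat_lit 11) (nat_lit 11))
    (@En.n l107 (nat_lit 3348) (nat_lit 15) (nat_lit 2))))
  (@Cl.mk (nat_lit 0x2000b0007000a000500080005000d000c00060003000900040008000e000b) (nat_lit 0x2050b50070482) (nat_lit 16) Lb.e (@T16.mk En
    (@En.n l17215 (nat_lit 3311) (nat_lit 11) (nat_lit 11))
    (@En.n l97 (nat_lit 4565) (nat_lit 1) (nat_lit 14))
    (@En.n l17216 (nat_lit 5178) (nat_lit 2) (nat_lit 8))
    (@En.n l4497 (nat_lit 2526) (nat_lit 3) (nat_lit 4))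
    (@En.n l612 (nat_lit 3346) (nat_lit 4) (nat_lit 9))
    (@En.n l50 (nat_lit 3350) (nat_lit 5) (nat_lit 3))
    (@En.n l14897 (nat_lit 1991) (nat_lit 0) (nat_lit 6))
    (@En.n l217 (nat_lit 3348) (nat_lit 8) (nat_lit 12))
    (@En.n l1776 (nat_lit 5693) (nat_lit 9) (nat_lit 13))
    (@En.i (nat_lit 2511) (nat_lit 9) (nat_lit 5))
    (@En.i (nat_lit 13972) (nat_lit 10) (nat_lit 8))
    (@En.n l12571 (nat_lit 10075) (nat_lit 5) (nat_lit 5))
    (@En.n l6904 (nat_lit 777) (nat_lit 8) (nat_lit 10))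
    (@En.n l4133 (nat_lit 5490) (nat_lit 14) (nat_lit 7))
    (@En.n l17217 (nat_lit 4306) (nat_lit 9) (nat_lit 11))
    (@En.n l107 (nat_lit 3349) (nat_lit 15) (nat_lit 2))))
  (@Cl.mk (nat_lit 0x2000b0007000b000500080005000d0005000d0003000900030008000e000b) (nat_lit 0x1060a06070582) (nat_lit 16) Lb.e (@T16.mk En
    (@En.i (nat_lit 3308) (nat_lit 13) (nat_lit 11))
    (@En.n l97 (nat_lit 4564) (nat_lit 1) (nat_lit 14))
    (@En.i (nat_lit 5180) (nat_lit 2) (nat_lit 8))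
    (@En.i (nat_lit 3348) (nat_lit 3) (nat_lit 3))
    (@En.n l387 (nat_lit 4963) (nat_lit 0) (nat_lit 9))
    (@En.i (nat_lit 3349) (nat_lit 5) (nat_lit 3))
    (@En.n l3713 (nat_lit 3322) (nat_lit 0) (nat_lit 13))
    (@En.i (nat_lit 3346) (nat_lit 7) (nat_lit 5))
    (@En.n l1776 (nat_lit 7780) (nat_lit 9) (nat_lit 13))
    (@En.i (nat_lit 2512) (nat_lit 9) (nat_lit 5))
    (@En.i (nat_lit 13969) (nat_lit 10) (nat_lit 8))
    (@En.n l5995 (nat_lit 10432) (nat_lit 5) (nat_lit 5))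
    (@En.n l6904 (nat_lit 833) (nat_lit 13) (nat_lit 11))
    (@En.n l1316 (nat_lit 5487) (nat_lit 14) (nat_lit 7))
    (@En.n l23845 (nat_lit 4304) (nat_lit 11) (nat_lit 11))
    (@En.n l107 (nat_lit 3350) (nat_lit 15) (nat_lit 2))))
  (@Cl.mk (nat_lit 0x20008000800040008000e000b0002000b00080008000500080005000e000c) (nat_lit 0x4406c2035200014) (nat_lit 16) Lb.e (@T16.mk En
    (@En.n l6890 (nat_lit 2526) (nat_lit 8) (nat_lit 12))
    (@En.n l2435 (nat_lit 32) (nat_lit 1) (nat_lit 14))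
    (@En.n l993 (nat_lit 753) (nat_lit 2) (nat_lit 5))
    (@En.n l6891 (nat_lit 13852) (nat_lit 10) (nat_lit 8))
    (@En.n l6891 (nat_lit 9572) (nat_lit 4) (nat_lit 5))
    (@En.n l152 (nat_lit 3358) (nat_lit 8) (nat_lit 8))
    (@En.n l6892 (nat_lit 7627) (nat_lit 6) (nat_lit 8))
    (@En.n l4485 (nat_lit 2802) (nat_lit 8) (nat_lit 11))
    (@En.n l11 (nat_lit 3351) (nat_lit 8) (nat_lit 2))
    (@En.n l833 (nat_lit 3352) (nat_lit 10) (nat_lit 11))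
    (@En.n l6893 (nat_lit 2916) (nat_lit 11) (nat_lit 14))
    (@En.n l2238 (nat_lit 3104) (nat_lit 12) (nat_lit 8))
    (@En.n l993 (nat_lit 3349) (nat_lit 3) (nat_lit 4))
    (@En.n l6891 (nat_lit 2937) (nat_lit 8) (nat_lit 8))
    (@En.n l6894 (nat_lit 3344) (nat_lit 5) (nat_lit 8))
    (@En.n l18 (nat_lit 3351) (nat_lit 15) (nat_lit 2))))
  (@Cl.mk (nat_lit 0x20009000900040008000b000b000a000700070005000500080006000e000c) (nat_lit 0x440619200001045) (nat_lit 16) Lb.e (@T16.mk En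
    (@En.n l601 (nat_lit 2527) (nat_lit 3) (nat_lit 12))
    (@En.n l7892 (nat_lit 5758) (nat_lit 1) (nat_lit 14))
    (@En.i (nat_lit 2474) (nat_lit 2) (nat_lit 6))
    (@En.n l5255 (nat_lit 3351) (nat_lit 3) (nat_lit 8))
    (@En.n l7893 (nat_lit 3351) (nat_lit 4) (nat_lit 5))
    (@En.i (nat_lit 9574) (nat_lit 5) (nat_lit 5))
    (@En.n l3532 (nat_lit 3357) (nat_lit 9) (nat_lit 7))
    (@En.n l7894 (nat_lit 7626) (nat_lit 7) (nat_lit 7))
    (@En.n l7895 (nat_lit 2552) (nat_lit 9) (nat_lit 10))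
    (@En.n l7896 (nat_lit 3353) (nat_lit 5) (nat_lit 11))
    (@En.n l7897 (nat_lit 2319) (nat_lit 7) (nat_lit 11))
    (@En.n l7898 (nat_lit 876) (nat_lit 12) (nat_lit 8))
    (@En.n l7899 (nat_lit 3311) (nat_lit 13) (nat_lit 4))
    (@En.n l2717 (nat_lit 2932) (nat_lit 7) (nat_lit 9))
    (@En.i (nat_lit 3342) (nat_lit 1) (nat_lit 9))
    (@En.n l7 (nat_lit 3352) (nat_lit 15) (nat_lit 2))))
  (@Cl.mk (nat_lit 0x200080007000e000c0002000a000a00040008000b000900060006000e0005) (nat_lit 0x2056044028100b0) (nat_lit 16) Lb.e (@T16.mk En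
    (@En.n l9968 (nat_lit 3352) (nat_lit 5) (nat_lit 5))
    (@En.n l9969 (nat_lit 8721) (nat_lit 1) (nat_lit 14))
    (@En.n l1071 (nat_lit 3356) (nat_lit 10) (nat_lit 6))
    (@En.n l9970 (nat_lit 7611) (nat_lit 3) (nat_lit 6))
    (@En.i (nat_lit 2551) (nat_lit 4) (nat_lit 9))
    (@En.n l9971 (nat_lit 3009) (nat_lit 7) (nat_lit 11))
    (@En.n l1073 (nat_lit 3117) (nat_lit 6) (nat_lit 8))
    (@En.n l7006 (nat_lit 3310) (nat_lit 7) (nat_lit 4))
    (@En.n l61 (nat_lit 2931) (nat_lit 9) (nat_lit 10))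
    (@En.n l1075 (nat_lit 3343) (nat_lit 10) (nat_lit 10))
    (@En.n l7 (nat_lit 3353) (nat_lit 10) (nat_lit 2))
    (@En.n l601 (nat_lit 2934) (nat_lit 12) (nat_lit 12))
    (@En.n l9972 (nat_lit 5756) (nat_lit 13) (nat_lit 14))
    (@En.n l2764 (nat_lit 2057) (nat_lit 14) (nat_lit 7))
    (@En.n l3056 (nat_lit 3352) (nat_lit 3) (nat_lit 8))
    (@En.n l67 (nat_lit 3353) (nat_lit 15) (nat_lit 2))))
  (@Cl.mk (nat_lit 0x2000a000a0008000b00090007000600060005000d000800070003000e0009) (nat_lit 0x305270000520065) (nat_lit 16) Lb.e (@T16.mk En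
    (@En.i (nat_lit 3157) (nat_lit 14) (nat_lit 9))
    (@En.n l10013 (nat_lit 7439) (nat_lit 1) (nat_lit 14))
    (@En.n l10014 (nat_lit 3355) (nat_lit 2) (nat_lit 3))
    (@En.n l10015 (nat_lit 1687) (nat_lit 3) (nat_lit 7))
    (@En.n l10016 (nat_lit 4568) (nat_lit 4) (nat_lit 8))
    (@En.n l6631 (nat_lit 4567) (nat_lit 6) (nat_lit 13))
    (@En.n l6477 (nat_lit 6533) (nat_lit 6) (nat_lit 5))
    (@En.n l10017 (nat_lit 3950) (nat_lit 10) (nat_lit 6))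
    (@En.n l10018 (nat_lit 4581) (nat_lit 8) (nat_lit 6))
    (@En.i (nat_lit 9969) (nat_lit 10) (nat_lit 7))
    (@En.n l10019 (nat_lit 2915) (nat_lit 11) (nat_lit 9))
    (@En.i (nat_lit 1951) (nat_lit 7) (nat_lit 11))
    (@En.n l742 (nat_lit 7520) (nat_lit 13) (nat_lit 8))
    (@En.n l396 (nat_lit 4473) (nat_lit 6) (nat_lit 10))
    (@En.n l3540 (nat_lit 3342) (nat_lit 12) (nat_lit 10))
    (@En.n l28 (nat_lit 3354) (nat_lit 15) (nat_lit 2))))
  (@Cl.mk (nat_lit 0x2000a000a0007000b000a0007000600060005000d000600090003000e0009) (nat_lit 0x300670000503061) (nat_lit 16) Lb.e (@T16.mk En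
    (@En.n l19349 (nat_lit 3152) (nat_lit 14) (nat_lit 9))
    (@En.n l18144 (nat_lit 9887) (nat_lit 1) (nat_lit 14))
    (@En.n l19351 (nat_lit 3354) (nat_lit 2) (nat_lit 3))
    (@En.n l386 (nat_lit 5042) (nat_lit 9) (nat_lit 9))
    (@En.n l2352 (nat_lit 1904) (nat_lit 4) (nat_lit 6))
    (@En.n l7025 (nat_lit 3151) (nat_lit 6) (nat_lit 13))
    (@En.n l7 (nat_lit 7725) (nat_lit 6) (nat_lit 5))
    (@En.n l575 (nat_lit 3946) (nat_lit 10) (nat_lit 6))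
    (@En.i (nat_lit 4583) (nat_lit 8) (nat_lit 6))
    (@En.n l2856 (nat_lit 9971) (nat_lit 10) (nat_lit 7))
    (@En.n l644 (nat_lit 4565) (nat_lit 11) (nat_lit 10))
    (@En.n l617 (nat_lit 1946) (nat_lit 12) (nat_lit 11))
    (@En.n l386 (nat_lit 6356) (nat_lit 13) (nat_lit 7))
    (@En.n l10011 (nat_lit 4474) (nat_lit 6) (nat_lit 10))
    (@En.n l107 (nat_lit 3312) (nat_lit 12) (nat_lit 10))
    (@En.n l3 (nat_lit 3355) (nat_lit 15) (nat_lit 2))))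
  (@Cl.mk (nat_lit 0x200050009000c000a0006000e0004000200070006000e000b0002000e000a) (nat_lit 0x3110b000056025) (nat_lit 16) Lb.e (@T16.mk En
    (@En.n l345 (nat_lit 3353) (nat_lit 9) (nat_lit 10))
    (@En.i (nat_lit 2529) (nat_lit 1) (nat_lit 14))
    (@En.n l18 (nat_lit 3356) (nat_lit 2) (nat_lit 2))
    (@En.n l5 (nat_lit 2529) (nat_lit 3) (nat_lit 11))
    (@En.n l1393 (nat_lit 5761) (nat_lit 5) (nat_lit 14))
    (@En.i (nat_lit 2064) (nat_lit 5) (nat_lit 6))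
    (@En.n l536 (nat_lit 3357) (nat_lit 6) (nat_lit 7))
    (@En.n l28 (nat_lit 3356) (nat_lit 7) (nat_lit 2))
    (@En.n l11 (nat_lit 3357) (nat_lit 8) (nat_lit 4))
    (@En.n l4011 (nat_lit 3235) (nat_lit 10) (nat_lit 14))
    (@En.n l1393 (nat_lit 579) (nat_lit 2) (nat_lit 6))
    (@En.i (nat_lit 2630) (nat_lit 12) (nat_lit 10))
    (@En.n l313 (nat_lit 2823) (nat_lit 13) (nat_lit 12))
    (@En.i (nat_lit 870) (nat_lit 5) (nat_lit 9))
    (@En.n l170 (nat_lit 2220) (nat_lit 6) (nat_lit 5))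
    (@En.n l3 (nat_lit 3356) (nat_lit 15) (nat_lit 2))))
  (@Cl.mk (nat_lit 0x200050009000c000c000b00070004000400070005000e000b0002000e0009) (nat_lit 0x312200000c6065) (nat_lit 16) Lb.e (@T16.mk En
    (@En.n l517 (nat_lit 3352) (nat_lit 14) (nat_lit 9))
    (@En.i (nat_lit 2525) (nat_lit 1) (nat_lit 14))
    (@En.n l18 (nat_lit 3357) (nat_lit 2) (nat_lit 2))
    (@En.n l5 (nat_lit 2525) (nat_lit 3) (nat_lit 11))
    (@En.i (nat_lit 5764) (nat_lit 5) (nat_lit 14))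
    (@En.n l28 (nat_lit 2476) (nat_lit 5) (nat_lit 5))
    (@En.n l343 (nat_lit 3358) (nat_lit 6) (nat_lit 7))
    (@En.n l1577 (nat_lit 3358) (nat_lit 7) (nat_lit 4))
    (@En.i (nat_lit 3360) (nat_lit 8) (nat_lit 4))
    (@En.i (nat_lit 572) (nat_lit 6) (nat_lit 7))
    (@En.n l457 (nat_lit 3361) (nat_lit 11) (nat_lit 11))
    (@En.n l1578 (nat_lit 3356) (nat_lit 12) (nat_lit 12))
    (@En.n l2686 (nat_lit 2966) (nat_lit 13) (nat_lit 12))
    (@En.i (nat_lit 871) (nat_lit 14) (nat_lit 9))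
    (@En.i (nat_lit 2218) (nat_lit 13) (nat_lit 5))
    (@En.n l3 (nat_lit 3357) (nat_lit 15) (nat_lit 2))))
  (@Cl.mk (nat_lit 0x200050009000e000c0002000c0008000400070004000e000b0002000e0008) (nat_lit 0x392041000c5025) (nat_lit 16) Lb.e (@T16.mk En
    (@En.i (nat_lit 3351) (nat_lit 14) (nat_lit 8))
    (@En.i (nat_lit 2523) (nat_lit 1) (nat_lit 14))
    (@En.n l18 (nat_lit 3358) (nat_lit 2) (nat_lit 2))
    (@En.n l5 (nat_lit 2523) (nat_lit 3) (nat_lit 11))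
    (@En.i (nat_lit 5766) (nat_lit 5) (nat_lit 14))
    (@En.i (nat_lit 2477) (nat_lit 5) (nat_lit 4))
    (@En.i (nat_lit 13572) (nat_lit 11) (nat_lit 7))
    (@En.i (nat_lit 3359) (nat_lit 7) (nat_lit 4))
    (@En.i (nat_lit 578) (nat_lit 14) (nat_lit 8))
    (@En.n l4485 (nat_lit 3365) (nat_lit 10) (nat_lit 12))
    (@En.n l11 (nat_lit 3358) (nat_lit 10) (nat_lit 2))
    (@En.n l55 (nat_lit 3357) (nat_lit 12) (nat_lit 12))
    (@En.n l164 (nat_lit 4140) (nat_lit 13) (nat_lit 14))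
    (@En.i (nat_lit 874) (nat_lit 14) (nat_lit 9))
    (@En.i (nat_lit 2219) (nat_lit 13) (nat_lit 5))
    (@En.n l3 (nat_lit 3358) (nat_lit 15) (nat_lit 2))))
  (@Cl.mk (nat_lit 0x200050009000d000c00060003000d000400070003000e000b0002000e000a) (nat_lit 0x24a000000b10a5) (nat_lit 16) Lb.e (@T16.mk En
    (@En.i (nat_lit 2780) (nat_lit 14) (nat_lit 10))
    (@En.i (nat_lit 2794) (nat_lit 1) (nat_lit 14))
    (@En.n l18 (nat_lit 3359) (nat_lit 2) (nat_lit 2))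
    (@En.n l5 (nat_lit 2794) (nat_lit 3) (nat_lit 11))
    (@En.i (nat_lit 5363) (nat_lit 5) (nat_lit 14))
    (@En.i (nat_lit 3361) (nat_lit 5) (nat_lit 3))
    (@En.i (nat_lit 3444) (nat_lit 6) (nat_lit 7))
    (@En.n l11 (nat_lit 3357) (nat_lit 7) (nat_lit 4))
    (@En.n l127 (nat_lit 3364) (nat_lit 9) (nat_lit 13))
    (@En.n l11 (nat_lit 3362) (nat_lit 9) (nat_lit 3))
    (@En.i (nat_lit 6694) (nat_lit 0) (nat_lit 6))
    (@En.n l55 (nat_lit 3360) (nat_lit 12) (nat_lit 12))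
    (@En.n l164 (nat_lit 2901) (nat_lit 13) (nat_lit 13))
    (@En.i (nat_lit 6313) (nat_lit 14) (nat_lit 9))
    (@En.i (nat_lit 4410) (nat_lit 13) (nat_lit 5))
    (@En.n l3 (nat_lit 3359) (nat_lit 15) (nat_lit 2))))
noncomputable def a210 : T16 Cl := @T16.mk Cl
  (@Cl.mk (nat_lit 0x200050009000c0005000d000c0004000300070004000e000b0002000e000b) (nat_lit 0x290340000b1021) (nat_lit 16) Lb.e (@T16.mk En
    (@En.n l345 (nat_lit 2779) (nat_lit 14) (nat_lit 11))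
    (@En.i (nat_lit 2793) (nat_lit 1) (nat_lit 14))
    (@En.n l18 (nat_lit 3360) (nat_lit 2) (nat_lit 2))
    (@En.n l5 (nat_lit 2793) (nat_lit 3) (nat_lit 11))
    (@En.i (nat_lit 5365) (nat_lit 5) (nat_lit 14))
    (@En.n l28 (nat_lit 2557) (nat_lit 5) (nat_lit 4))
    (@En.n l343 (nat_lit 3359) (nat_lit 6) (nat_lit 7))
    (@En.n l28 (nat_lit 3362) (nat_lit 7) (nat_lit 3))
    (@En.i (nat_lit 3356) (nat_lit 8) (nat_lit 4))
    (@En.n l77 (nat_lit 3363) (nat_lit 10) (nat_lit 12))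
    (@En.i (nat_lit 3233) (nat_lit 11) (nat_lit 13))
    (@En.n l117 (nat_lit 5397) (nat_lit 8) (nat_lit 5))
    (@En.i (nat_lit 3062) (nat_lit 13) (nat_lit 12))
    (@En.i (nat_lit 6312) (nat_lit 14) (nat_lit 9))
    (@En.i (nat_lit 4408) (nat_lit 13) (nat_lit 5))
    (@En.n l3 (nat_lit 3360) (nat_lit 15) (nat_lit 2))))
  (@Cl.mk (nat_lit 0x20005000a000d000b00060003000d000600050003000e000b0002000e000a) (nat_lit 0x731008000c70a1) (nat_lit 16) Lb.e (@T16.mk En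
    (@En.i (nat_lit 2552) (nat_lit 14) (nat_lit 10))
    (@En.i (nat_lit 2806) (nat_lit 1) (nat_lit 14))
    (@En.n l18 (nat_lit 3361) (nat_lit 2) (nat_lit 2))
    (@En.n l5 (nat_lit 2806) (nat_lit 3) (nat_lit 11))
    (@En.n l564 (nat_lit 11503) (nat_lit 5) (nat_lit 14))
    (@En.n l7 (nat_lit 3359) (nat_lit 5) (nat_lit 3))
    (@En.n l11 (nat_lit 2480) (nat_lit 6) (nat_lit 5))
    (@En.i (nat_lit 3365) (nat_lit 7) (nat_lit 6))
    (@En.n l127 (nat_lit 3366) (nat_lit 9) (nat_lit 13))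
    (@En.n l11 (nat_lit 3363) (nat_lit 9) (nat_lit 3))
    (@En.i (nat_lit 6695) (nat_lit 0) (nat_lit 6))
    (@En.i (nat_lit 2557) (nat_lit 12) (nat_lit 11))
    (@En.i (nat_lit 3050) (nat_lit 13) (nat_lit 13))
    (@En.i (nat_lit 8886) (nat_lit 14) (nat_lit 10))
    (@En.i (nat_lit 4413) (nat_lit 13) (nat_lit 5))
    (@En.n l3 (nat_lit 3361) (nat_lit 15) (nat_lit 2))))
  (@Cl.mk (nat_lit 0x200050009000d0005000d0003000d000300070003000e000b0002000e000b) (nat_lit 0x230303000b1081) (nat_lit 16) Lb.e (@T16.mk En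
    (@En.i (nat_lit 2778) (nat_lit 14) (nat_lit 11))
    (@En.i (nat_lit 2792) (nat_lit 1) (nat_lit 14))
    (@En.n l18 (nat_lit 3362) (nat_lit 2) (nat_lit 2))
    (@En.n l5 (nat_lit 2792) (nat_lit 3) (nat_lit 11))
    (@En.i (nat_lit 5364) (nat_lit 5) (nat_lit 14))
    (@En.i (nat_lit 3363) (nat_lit 5) (nat_lit 3))
    (@En.i (nat_lit 3442) (nat_lit 6) (nat_lit 7))
    (@En.i (nat_lit 3360) (nat_lit 7) (nat_lit 3))
    (@En.i (nat_lit 2822) (nat_lit 9) (nat_lit 13))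
    (@En.i (nat_lit 3359) (nat_lit 9) (nat_lit 3))
    (@En.i (nat_lit 3231) (nat_lit 11) (nat_lit 13))
    (@En.n l117 (nat_lit 6688) (nat_lit 8) (nat_lit 5))
    (@En.i (nat_lit 2735) (nat_lit 13) (nat_lit 13))
    (@En.i (nat_lit 6314) (nat_lit 14) (nat_lit 9))
    (@En.i (nat_lit 4409) (nat_lit 13) (nat_lit 5))
    (@En.n l3 (nat_lit 3362) (nat_lit 15) (nat_lit 2))))
  (@Cl.mk (nat_lit 0x20005000a000d0005000c0003000d000600040003000e000b0002000e000b) (nat_lit 0x740308000b1011) (nat_lit 16) Lb.e (@T16.mk En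
    (@En.i (nat_lit 2554) (nat_lit 14) (nat_lit 11))
    (@En.i (nat_lit 2812) (nat_lit 1) (nat_lit 14))
    (@En.n l18 (nat_lit 3363) (nat_lit 2) (nat_lit 2))
    (@En.n l5 (nat_lit 2812) (nat_lit 3) (nat_lit 11))
    (@En.n l564 (nat_lit 11502) (nat_lit 5) (nat_lit 14))
    (@En.n l7 (nat_lit 3362) (nat_lit 5) (nat_lit 3))
    (@En.i (nat_lit 2866) (nat_lit 6) (nat_lit 4))
    (@En.i (nat_lit 3364) (nat_lit 7) (nat_lit 6))
    (@En.i (nat_lit 2821) (nat_lit 9) (nat_lit 13))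
    (@En.i (nat_lit 3361) (nat_lit 9) (nat_lit 3))
    (@En.i (nat_lit 3612) (nat_lit 11) (nat_lit 12))
    (@En.n l117 (nat_lit 6689) (nat_lit 8) (nat_lit 5))
    (@En.i (nat_lit 3051) (nat_lit 5) (nat_lit 13))
    (@En.i (nat_lit 8867) (nat_lit 14) (nat_lit 10))
    (@En.i (nat_lit 4411) (nat_lit 13) (nat_lit 5))
    (@En.n l3 (nat_lit 3363) (nat_lit 15) (nat_lit 2))))
  (@Cl.mk (nat_lit 0x20005000a0009000d0006000d0003000600030007000e000b0002000e000a) (nat_lit 0x8350b000051011) (nat_lit 16) Lb.e (@T16.mk En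
    (@En.i (nat_lit 2781) (nat_lit 14) (nat_lit 10))
    (@En.i (nat_lit 2805) (nat_lit 1) (nat_lit 14))
    (@En.n l18 (nat_lit 3364) (nat_lit 2) (nat_lit 2))
    (@En.n l5 (nat_lit 2805) (nat_lit 3) (nat_lit 11))
    (@En.n l420 (nat_lit 12400) (nat_lit 5) (nat_lit 14))
    (@En.n l7 (nat_lit 3367) (nat_lit 5) (nat_lit 7))
    (@En.i (nat_lit 3366) (nat_lit 6) (nat_lit 3))
    (@En.i (nat_lit 3022) (nat_lit 7) (nat_lit 6))
    (@En.i (nat_lit 3365) (nat_lit 8) (nat_lit 3))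
    (@En.n l1603 (nat_lit 3597) (nat_lit 0) (nat_lit 13))
    (@En.n l117 (nat_lit 6773) (nat_lit 7) (nat_lit 6))
    (@En.n l8 (nat_lit 3363) (nat_lit 12) (nat_lit 13))
    (@En.i (nat_lit 3362) (nat_lit 13) (nat_lit 9))
    (@En.n l420 (nat_lit 8868) (nat_lit 14) (nat_lit 10))
    (@En.i (nat_lit 4414) (nat_lit 13) (nat_lit 5))
    (@En.n l3 (nat_lit 3364) (nat_lit 15) (nat_lit 2))))
  (@Cl.mk (nat_lit 0x20005000a0009000d000c00070003000600040007000e000b0002000e0009) (nat_lit 0x834300000c6011) (nat_lit 16) Lb.e (@T16.mk En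
    (@En.i (nat_lit 2802) (nat_lit 14) (nat_lit 9))
    (@En.i (nat_lit 2803) (nat_lit 1) (nat_lit 14))
    (@En.n l18 (nat_lit 3365) (nat_lit 2) (nat_lit 2))
    (@En.n l5 (nat_lit 2803) (nat_lit 3) (nat_lit 11))
    (@En.n l420 (nat_lit 12382) (nat_lit 5) (nat_lit 14))
    (@En.n l1023 (nat_lit 3368) (nat_lit 5) (nat_lit 7))
    (@En.n l11 (nat_lit 2061) (nat_lit 6) (nat_lit 4))
    (@En.i (nat_lit 2485) (nat_lit 7) (nat_lit 6))
    (@En.n l11 (nat_lit 3364) (nat_lit 8) (nat_lit 3))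
    (@En.i (nat_lit 6612) (nat_lit 0) (nat_lit 7))
    (@En.n l55 (nat_lit 3366) (nat_lit 11) (nat_lit 12))
    (@En.n l8 (nat_lit 3361) (nat_lit 12) (nat_lit 13))
    (@En.i (nat_lit 3359) (nat_lit 13) (nat_lit 9))
    (@En.n l420 (nat_lit 8887) (nat_lit 14) (nat_lit 10))
    (@En.i (nat_lit 4416) (nat_lit 13) (nat_lit 5))
    (@En.n l3 (nat_lit 3365) (nat_lit 15) (nat_lit 2))))
  (@Cl.mk (nat_lit 0x20005000b0009000c0006000d0005000400030007000e000b0002000e000a) (nat_lit 0x932070000c1015) (nat_lit 16) Lb.e (@T16.mk En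
    (@En.n l345 (nat_lit 2553) (nat_lit 14) (nat_lit 10))
    (@En.i (nat_lit 2067) (nat_lit 1) (nat_lit 14))
    (@En.n l18 (nat_lit 3366) (nat_lit 2) (nat_lit 2))
    (@En.n l5 (nat_lit 2067) (nat_lit 3) (nat_lit 11))
    (@En.n l420 (nat_lit 12383) (nat_lit 5) (nat_lit 14))
    (@En.n l343 (nat_lit 3365) (nat_lit 5) (nat_lit 7))
    (@En.n l28 (nat_lit 3364) (nat_lit 6) (nat_lit 3))
    (@En.i (nat_lit 2058) (nat_lit 7) (nat_lit 4))
    (@En.i (nat_lit 2484) (nat_lit 8) (nat_lit 5))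
    (@En.n l2660 (nat_lit 3599) (nat_lit 10) (nat_lit 13))
    (@En.n l117 (nat_lit 6772) (nat_lit 7) (nat_lit 6))
    (@En.n l8 (nat_lit 2866) (nat_lit 12) (nat_lit 12))
    (@En.i (nat_lit 3360) (nat_lit 13) (nat_lit 9))
    (@En.n l420 (nat_lit 8888) (nat_lit 14) (nat_lit 11))
    (@En.i (nat_lit 4417) (nat_lit 13) (nat_lit 5))
    (@En.n l3 (nat_lit 3366) (nat_lit 15) (nat_lit 2))))
  (@Cl.mk (nat_lit 0x2000500090009000d000d00070003000300070007000e000b0002000e0009) (nat_lit 0x33550000053070) (nat_lit 16) Lb.e (@T16.mk En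
    (@En.n l766 (nat_lit 3370) (nat_lit 14) (nat_lit 9))
    (@En.i (nat_lit 3371) (nat_lit 1) (nat_lit 14))
    (@En.n l18 (nat_lit 3367) (nat_lit 2) (nat_lit 2))
    (@En.n l5 (nat_lit 3371) (nat_lit 3) (nat_lit 11))
    (@En.n l890 (nat_lit 2933) (nat_lit 5) (nat_lit 14))
    (@En.n l9629 (nat_lit 3379) (nat_lit 5) (nat_lit 7))
    (@En.n l9630 (nat_lit 1365) (nat_lit 6) (nat_lit 7))
    (@En.n l2360 (nat_lit 3368) (nat_lit 7) (nat_lit 3))
    (@En.n l536 (nat_lit 3372) (nat_lit 8) (nat_lit 3))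
    (@En.n l117 (nat_lit 4974) (nat_lit 0) (nat_lit 7))
    (@En.n l172 (nat_lit 3372) (nat_lit 11) (nat_lit 13))
    (@En.n l343 (nat_lit 3359) (nat_lit 12) (nat_lit 13))
    (@En.n l77 (nat_lit 3442) (nat_lit 13) (nat_lit 9))
    (@En.n l766 (nat_lit 3229) (nat_lit 14) (nat_lit 9))
    (@En.n l253 (nat_lit 4676) (nat_lit 13) (nat_lit 5))
    (@En.n l3 (nat_lit 3367) (nat_lit 15) (nat_lit 2))))
  (@Cl.mk (nat_lit 0x2000500090009000e000d00020008000300070007000e000b0002000e0008) (nat_lit 0x33a60600083051) (nat_lit 16) Lb.e (@T16.mk En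
    (@En.n l7031 (nat_lit 31) (nat_lit 6) (nat_lit 8))
    (@En.n l7032 (nat_lit 3369) (nat_lit 1) (nat_lit 14))
    (@En.n l3 (nat_lit 3368) (nat_lit 2) (nat_lit 2))
    (@En.n l7033 (nat_lit 3369) (nat_lit 3) (nat_lit 11))
    (@En.n l7034 (nat_lit 2937) (nat_lit 5) (nat_lit 14))
    (@En.n l1722 (nat_lit 3445) (nat_lit 5) (nat_lit 7))
    (@En.i (nat_lit 3235) (nat_lit 6) (nat_lit 7))
    (@En.n l7035 (nat_lit 3367) (nat_lit 7) (nat_lit 3))
    (@En.n l7036 (nat_lit 4994) (nat_lit 0) (nat_lit 8))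
    (@En.n l7 (nat_lit 3368) (nat_lit 9) (nat_lit 2))
    (@En.n l7037 (nat_lit 3367) (nat_lit 11) (nat_lit 13))
    (@En.n l2790 (nat_lit 3358) (nat_lit 12) (nat_lit 14))
    (@En.n l3382 (nat_lit 3444) (nat_lit 13) (nat_lit 9))
    (@En.n l7038 (nat_lit 3524) (nat_lit 3) (nat_lit 9))
    (@En.n l7034 (nat_lit 4737) (nat_lit 4) (nat_lit 5))
    (@En.n l17 (nat_lit 3368) (nat_lit 15) (nat_lit 2))))
  (@Cl.mk (nat_lit 0x20005000500090009000e000d00020009000300070007000b000b000e0007) (nat_lit 0x4466020002340) (nat_lit 16) Lb.e (@T16.mk En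
    (@En.n l2869 (nat_lit 3370) (nat_lit 7) (nat_lit 7))
    (@En.n l476 (nat_lit 3375) (nat_lit 4) (nat_lit 14))
    (@En.n l152 (nat_lit 3375) (nat_lit 5) (nat_lit 11))
    (@En.n l2032 (nat_lit 2773) (nat_lit 3) (nat_lit 11))
    (@En.n l575 (nat_lit 3378) (nat_lit 4) (nat_lit 7))
    (@En.n l2032 (nat_lit 3236) (nat_lit 5) (nat_lit 7))
    (@En.n l7178 (nat_lit 3371) (nat_lit 6) (nat_lit 3))
    (@En.i (nat_lit 1884) (nat_lit 0) (nat_lit 9))
    (@En.n l7 (nat_lit 3369) (nat_lit 8) (nat_lit 2))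
    (@En.n l7179 (nat_lit 3371) (nat_lit 10) (nat_lit 13))
    (@En.n l7180 (nat_lit 2523) (nat_lit 11) (nat_lit 14))
    (@En.n l7169 (nat_lit 3383) (nat_lit 12) (nat_lit 9))
    (@En.n l3665 (nat_lit 3492) (nat_lit 13) (nat_lit 9))
    (@En.n l7181 (nat_lit 3368) (nat_lit 14) (nat_lit 5))
    (@En.n l5469 (nat_lit 4733) (nat_lit 5) (nat_lit 5))
    (@En.n l17 (nat_lit 3369) (nat_lit 15) (nat_lit 2))))
  (@Cl.mk (nat_lit 0x200090009000400080008000c000c000700070004000400080008000e000c) (nat_lit 0x73034a300004291) (nat_lit 16) Lb.e (@T16.mk En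
    (@En.i (nat_lit 51) (nat_lit 3) (nat_lit 12))
    (@En.i (nat_lit 2526) (nat_lit 1) (nat_lit 14))
    (@En.n l17157 (nat_lit 3395) (nat_lit 2) (nat_lit 8))
    (@En.n l12197 (nat_lit 3486) (nat_lit 3) (nat_lit 8))
    (@En.n l17158 (nat_lit 31) (nat_lit 4) (nat_lit 4))
    (@En.n l17159 (nat_lit 4549) (nat_lit 5) (nat_lit 4))
    (@En.n l5761 (nat_lit 3367) (nat_lit 9) (nat_lit 7))
    (@En.n l936 (nat_lit 4547) (nat_lit 7) (nat_lit 7))
    (@En.n l55 (nat_lit 3394) (nat_lit 4) (nat_lit 12))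
    (@En.n l564 (nat_lit 2780) (nat_lit 10) (nat_lit 12))
    (@En.n l644 (nat_lit 3441) (nat_lit 11) (nat_lit 8))
    (@En.i (nat_lit 3242) (nat_lit 12) (nat_lit 8))
    (@En.n l615 (nat_lit 4521) (nat_lit 13) (nat_lit 4))
    (@En.n l1867 (nat_lit 3369) (nat_lit 7) (nat_lit 9))
    (@En.n l4770 (nat_lit 4527) (nat_lit 1) (nat_lit 9))
    (@En.n l17 (nat_lit 3370) (nat_lit 15) (nat_lit 2))))
  (@Cl.mk (nat_lit 0x20005000500090009000d000d00080003000300070007000b000b000e0008) (nat_lit 0x4457600002361) (nat_lit 16) Lb.e (@T16.mk En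
    (@En.n l5786 (nat_lit 51) (nat_lit 1) (nat_lit 8))
    (@En.n l14344 (nat_lit 3386) (nat_lit 4) (nat_lit 14))
    (@En.n l14345 (nat_lit 3386) (nat_lit 5) (nat_lit 11))
    (@En.n l14343 (nat_lit 1823) (nat_lit 3) (nat_lit 11))
    (@En.n l14346 (nat_lit 3384) (nat_lit 4) (nat_lit 7))
    (@En.n l9471 (nat_lit 1362) (nat_lit 5) (nat_lit 7))
    (@En.n l2408 (nat_lit 3369) (nat_lit 6) (nat_lit 3))
    (@En.n l536 (nat_lit 3387) (nat_lit 7) (nat_lit 3))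
    (@En.n l6228 (nat_lit 4967) (nat_lit 0) (nat_lit 8))
    (@En.n l172 (nat_lit 3387) (nat_lit 10) (nat_lit 13))
    (@En.n l343 (nat_lit 2794) (nat_lit 11) (nat_lit 13))
    (@En.n l77 (nat_lit 3392) (nat_lit 12) (nat_lit 9))
    (@En.n l766 (nat_lit 3491) (nat_lit 13) (nat_lit 9))
    (@En.n l17 (nat_lit 3367) (nat_lit 14) (nat_lit 5))
    (@En.n l4425 (nat_lit 4734) (nat_lit 13) (nat_lit 5))
    (@En.n l3 (nat_lit 3371) (nat_lit 15) (nat_lit 2))))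
  (@Cl.mk (nat_lit 0x2000500090009000d0006000e0003000200070007000e000b0002000e000a) (nat_lit 0x334040000830a0) (nat_lit 16) Lb.e (@T16.mk En
    (@En.n l387 (nat_lit 3394) (nat_lit 9) (nat_lit 10))
    (@En.i (nat_lit 3387) (nat_lit 1) (nat_lit 14))
    (@En.n l18 (nat_lit 3372) (nat_lit 2) (nat_lit 2))
    (@En.n l5 (nat_lit 3387) (nat_lit 3) (nat_lit 11))
    (@En.i (nat_lit 2936) (nat_lit 5) (nat_lit 14))
    (@En.n l538 (nat_lit 3388) (nat_lit 5) (nat_lit 7))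
    (@En.i (nat_lit 1363) (nat_lit 6) (nat_lit 7))
    (@En.n l28 (nat_lit 3372) (nat_lit 7) (nat_lit 2))
    (@En.n l164 (nat_lit 3367) (nat_lit 8) (nat_lit 3))
    (@En.i (nat_lit 13249) (nat_lit 0) (nat_lit 14))
    (@En.i (nat_lit 4940) (nat_lit 2) (nat_lit 6))
    (@En.i (nat_lit 3362) (nat_lit 12) (nat_lit 13))
    (@En.n l2593 (nat_lit 3397) (nat_lit 13) (nat_lit 9))
    (@En.n l387 (nat_lit 3525) (nat_lit 5) (nat_lit 9))
    (@En.i (nat_lit 4756) (nat_lit 6) (nat_lit 5))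
    (@En.n l3 (nat_lit 3372) (nat_lit 15) (nat_lit 2))))
  (@Cl.mk (nat_lit 0x200080008000c000c000900090004000400080008000c00070007000e0004) (nat_lit 0x5311000045a0050) (nat_lit 16) Lb.e (@T16.mk En
    (@En.i (nat_lit 51) (nat_lit 7) (nat_lit 4))
    (@En.n l5551 (nat_lit 4487) (nat_lit 1) (nat_lit 14))
    (@En.n l40894 (nat_lit 3387) (nat_lit 9) (nat_lit 7))
    (@En.n l18510 (nat_lit 4836) (nat_lit 3) (nat_lit 7))
    (@En.n l564 (nat_lit 2788) (nat_lit 5) (nat_lit 12))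
    (@En.n l644 (nat_lit 3390) (nat_lit 8) (nat_lit 8))
    (@En.n l1353 (nat_lit 3477) (nat_lit 6) (nat_lit 8))
    (@En.n l61 (nat_lit 3394) (nat_lit 7) (nat_lit 4))
    (@En.n l18512 (nat_lit 3411) (nat_lit 8) (nat_lit 4))
    (@En.n l14275 (nat_lit 3386) (nat_lit 10) (nat_lit 9))
    (@En.n l9943 (nat_lit 3410) (nat_lit 11) (nat_lit 9))
    (@En.n l40895 (nat_lit 69) (nat_lit 4) (nat_lit 12))
    (@En.n l40896 (nat_lit 2786) (nat_lit 13) (nat_lit 12))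
    (@En.n l40897 (nat_lit 3389) (nat_lit 14) (nat_lit 8))
    (@En.n l3506 (nat_lit 3482) (nat_lit 5) (nat_lit 8))
    (@En.n l28 (nat_lit 3373) (nat_lit 15) (nat_lit 2))))
  (@Cl.mk (nat_lit 0x200070007000b000e00080002000e0005000200090009000d0008000e0003) (nat_lit 0x2810b00557640) (nat_lit 16) Lb.e (@T16.mk En
    (@En.n l9218 (nat_lit 3386) (nat_lit 9) (nat_lit 3))
    (@En.n l3870 (nat_lit 13248) (nat_lit 0) (nat_lit 14))
    (@En.n l30474 (nat_lit 4938) (nat_lit 2) (nat_lit 8))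
    (@En.i (nat_lit 2790) (nat_lit 13) (nat_lit 13))
    (@En.n l2593 (nat_lit 3391) (nat_lit 14) (nat_lit 9))
    (@En.n l387 (nat_lit 3497) (nat_lit 12) (nat_lit 9))
    (@En.n l17 (nat_lit 3374) (nat_lit 6) (nat_lit 2))
    (@En.n l18 (nat_lit 3387) (nat_lit 14) (nat_lit 5))
    (@En.n l1531 (nat_lit 4675) (nat_lit 1) (nat_lit 14))
    (@En.n l3 (nat_lit 3374) (nat_lit 9) (nat_lit 2))
    (@En.n l1531 (nat_lit 69) (nat_lit 3) (nat_lit 8))
    (@En.n l3870 (nat_lit 13761) (nat_lit 4) (nat_lit 14))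
    (@En.n l12369 (nat_lit 2783) (nat_lit 13) (nat_lit 11))
    (@En.n l21830 (nat_lit 3385) (nat_lit 14) (nat_lit 7))
    (@En.n l14348 (nat_lit 1358) (nat_lit 7) (nat_lit 7))
    (@En.n l28 (nat_lit 3374) (nat_lit 15) (nat_lit 2))))
  (@Cl.mk (nat_lit 0x200090009000e000d0002000a000300070007000b000e00060002000e0005) (nat_lit 0x5577020002300c0) (nat_lit 16) Lb.e (@T16.mk En
    (@En.i (nat_lit 3369) (nat_lit 14) (nat_lit 5))
    (@En.n l2977 (nat_lit 4673) (nat_lit 1) (nat_lit 14))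
    (@En.n l17 (nat_lit 3375) (nat_lit 2) (nat_lit 2))
    (@En.n l2869 (nat_lit 3394) (nat_lit 3) (nat_lit 6))
    (@En.n l2032 (nat_lit 13763) (nat_lit 4) (nat_lit 14))
    (@En.n l2032 (nat_lit 2774) (nat_lit 11) (nat_lit 11))
    (@En.n l575 (nat_lit 3396) (nat_lit 12) (nat_lit 7))
    (@En.n l2032 (nat_lit 3239) (nat_lit 7) (nat_lit 7))
    (@En.i (nat_lit 3386) (nat_lit 8) (nat_lit 3))
    (@En.i (nat_lit 1885) (nat_lit 0) (nat_lit 10))
    (@En.n l7 (nat_lit 3375) (nat_lit 10) (nat_lit 2))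
    (@En.n l601 (nat_lit 3386) (nat_lit 12) (nat_lit 13))
    (@En.n l10275 (nat_lit 2520) (nat_lit 13) (nat_lit 14))
    (@En.i (nat_lit 3393) (nat_lit 2) (nat_lit 9))
    (@En.i (nat_lit 3488) (nat_lit 12) (nat_lit 9))
    (@En.n l3 (nat_lit 3375) (nat_lit 15) (nat_lit 2))))
noncomputable def a211 : T16 Cl := @T16.mk Cl
  (@Cl.mk (nat_lit 0x200050005000e00090002000d0008000e000300020007000b000b000e0008) (nat_lit 0x1507450001260) (nat_lit 16) Lb.e (@T16.mk En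
    (@En.n l12272 (nat_lit 3389) (nat_lit 11) (nat_lit 8))
    (@En.n l17755 (nat_lit 3385) (nat_lit 12) (nat_lit 14))
    (@En.n l17756 (nat_lit 3385) (nat_lit 13) (nat_lit 11))
    (@En.n l7184 (nat_lit 971) (nat_lit 3) (nat_lit 11))
    (@En.n l14342 (nat_lit 1366) (nat_lit 4) (nat_lit 7))
    (@En.n l28 (nat_lit 3376) (nat_lit 5) (nat_lit 2))
    (@En.n l1021 (nat_lit 3384) (nat_lit 6) (nat_lit 3))
    (@En.n l17757 (nat_lit 13245) (nat_lit 0) (nat_lit 14))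
    (@En.n l11268 (nat_lit 4870) (nat_lit 2) (nat_lit 8))
    (@En.i (nat_lit 2805) (nat_lit 10) (nat_lit 13))
    (@En.n l8 (nat_lit 3376) (nat_lit 10) (nat_lit 2))
    (@En.i (nat_lit 3387) (nat_lit 12) (nat_lit 9))
    (@En.n l8 (nat_lit 1350) (nat_lit 13) (nat_lit 14))
    (@En.n l17 (nat_lit 3388) (nat_lit 14) (nat_lit 5))
    (@En.n l12558 (nat_lit 4759) (nat_lit 8) (nat_lit 5))
    (@En.n l3 (nat_lit 3376) (nat_lit 15) (nat_lit 2))))
  (@Cl.mk (nat_lit 0x2000d000d000a000300030007000b000e00060002000e00050002000e0009) (nat_lit 0x8800001600c0026) (nat_lit 16) Lb.e (@T16.mk En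
    (@En.i (nat_lit 3386) (nat_lit 14) (nat_lit 9))
    (@En.i (nat_lit 1264) (nat_lit 1) (nat_lit 14))
    (@En.n l3 (nat_lit 3377) (nat_lit 2) (nat_lit 2))
    (@En.i (nat_lit 3384) (nat_lit 14) (nat_lit 5))
    (@En.i (nat_lit 4672) (nat_lit 1) (nat_lit 14))
    (@En.n l17 (nat_lit 3377) (nat_lit 5) (nat_lit 2))
    (@En.n l8481 (nat_lit 3390) (nat_lit 6) (nat_lit 6))
    (@En.n l998 (nat_lit 13759) (nat_lit 4) (nat_lit 14))
    (@En.i (nat_lit 962) (nat_lit 2) (nat_lit 11))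
    (@En.n l998 (nat_lit 3471) (nat_lit 6) (nat_lit 7))
    (@En.n l50 (nat_lit 3396) (nat_lit 13) (nat_lit 3))
    (@En.i (nat_lit 3385) (nat_lit 0) (nat_lit 3))
    (@En.i (nat_lit 4971) (nat_lit 0) (nat_lit 10))
    (@En.n l601 (nat_lit 3385) (nat_lit 3) (nat_lit 13))
    (@En.i (nat_lit 2809) (nat_lit 12) (nat_lit 13))
    (@En.n l11 (nat_lit 3377) (nat_lit 15) (nat_lit 2))))
  (@Cl.mk (nat_lit 0x200050005000e00090002000e000d0002000a00030007000b000b000e0006) (nat_lit 0x1501700001260) (nat_lit 16) Lb.e (@T16.mk En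
    (@En.n l2869 (nat_lit 3441) (nat_lit 8) (nat_lit 6))
    (@En.n l476 (nat_lit 3396) (nat_lit 10) (nat_lit 14))
    (@En.n l152 (nat_lit 3396) (nat_lit 11) (nat_lit 11))
    (@En.i (nat_lit 966) (nat_lit 3) (nat_lit 11))
    (@En.n l476 (nat_lit 3603) (nat_lit 4) (nat_lit 7))
    (@En.i (nat_lit 3384) (nat_lit 5) (nat_lit 3))
    (@En.i (nat_lit 4874) (nat_lit 0) (nat_lit 10))
    (@En.n l7 (nat_lit 3378) (nat_lit 7) (nat_lit 2))
    (@En.n l601 (nat_lit 3384) (nat_lit 9) (nat_lit 13))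
    (@En.i (nat_lit 2066) (nat_lit 10) (nat_lit 14))
    (@En.n l11 (nat_lit 3378) (nat_lit 10) (nat_lit 2))
    (@En.i (nat_lit 3369) (nat_lit 12) (nat_lit 9))
    (@En.n l619 (nat_lit 1268) (nat_lit 13) (nat_lit 14))
    (@En.n l2870 (nat_lit 3445) (nat_lit 14) (nat_lit 5))
    (@En.n l899 (nat_lit 4729) (nat_lit 13) (nat_lit 5))
    (@En.n l17 (nat_lit 3378) (nat_lit 15) (nat_lit 2))))
  (@Cl.mk (nat_lit 0x20005000e00090002000d000d0008000300030007000e000b0002000e0008) (nat_lit 0x24057000082080) (nat_lit 16) Lb.e (@T16.mk En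
    (@En.i (nat_lit 3395) (nat_lit 14) (nat_lit 8))
    (@En.n l3377 (nat_lit 3384) (nat_lit 1) (nat_lit 14))
    (@En.n l3 (nat_lit 3379) (nat_lit 2) (nat_lit 2))
    (@En.n l3378 (nat_lit 3384) (nat_lit 3) (nat_lit 11))
    (@En.n l3379 (nat_lit 2909) (nat_lit 5) (nat_lit 14))
    (@En.i (nat_lit 2742) (nat_lit 5) (nat_lit 7))
    (@En.n l2593 (nat_lit 3445) (nat_lit 6) (nat_lit 3))
    (@En.n l3380 (nat_lit 3388) (nat_lit 7) (nat_lit 3))
    (@En.n l617 (nat_lit 4975) (nat_lit 0) (nat_lit 8))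
    (@En.n l3381 (nat_lit 3388) (nat_lit 10) (nat_lit 13))
    (@En.n l3382 (nat_lit 3365) (nat_lit 11) (nat_lit 13))
    (@En.n l28 (nat_lit 3379) (nat_lit 11) (nat_lit 2))
    (@En.n l3383 (nat_lit 3367) (nat_lit 13) (nat_lit 9))
    (@En.n l3384 (nat_lit 3666) (nat_lit 1) (nat_lit 14))
    (@En.n l3379 (nat_lit 4715) (nat_lit 13) (nat_lit 5))
    (@En.n l17 (nat_lit 3379) (nat_lit 15) (nat_lit 2))))
  (@Cl.mk (nat_lit 0x2000c000c00090009000400040008000c000c0007000700040004000e0008) (nat_lit 0x344000619000011) (nat_lit 16) Lb.e (@T16.mk En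
    (@En.i (nat_lit 51) (nat_lit 5) (nat_lit 8))
    (@En.n l8714 (nat_lit 1280) (nat_lit 1) (nat_lit 14))
    (@En.n l14272 (nat_lit 3395) (nat_lit 12) (nat_lit 4))
    (@En.n l6961 (nat_lit 4592) (nat_lit 3) (nat_lit 4))
    (@En.n l14273 (nat_lit 3392) (nat_lit 9) (nat_lit 7))
    (@En.n l14274 (nat_lit 4546) (nat_lit 5) (nat_lit 7))
    (@En.n l55 (nat_lit 3390) (nat_lit 7) (nat_lit 12))
    (@En.n l11355 (nat_lit 3035) (nat_lit 8) (nat_lit 12))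
    (@En.n l1353 (nat_lit 2750) (nat_lit 11) (nat_lit 8))
    (@En.n l61 (nat_lit 3441) (nat_lit 12) (nat_lit 4))
    (@En.n l11355 (nat_lit 4702) (nat_lit 10) (nat_lit 4))
    (@En.n l14275 (nat_lit 3384) (nat_lit 7) (nat_lit 9))
    (@En.n l14276 (nat_lit 3425) (nat_lit 13) (nat_lit 9))
    (@En.n l14277 (nat_lit 3389) (nat_lit 4) (nat_lit 12))
    (@En.n l14278 (nat_lit 2799) (nat_lit 11) (nat_lit 12))
    (@En.n l50 (nat_lit 3380) (nat_lit 15) (nat_lit 2))))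
  (@Cl.mk (nat_lit 0x20009000d000d000800030003000e00070002000b000e00080002000e0005) (nat_lit 0x457000700344070) (nat_lit 16) Lb.e (@T16.mk En
    (@En.n l14331 (nat_lit 3392) (nat_lit 14) (nat_lit 5))
    (@En.i (nat_lit 4678) (nat_lit 1) (nat_lit 14))
    (@En.n l1770 (nat_lit 3381) (nat_lit 2) (nat_lit 2))
    (@En.n l1769 (nat_lit 3389) (nat_lit 3) (nat_lit 8))
    (@En.n l14332 (nat_lit 13765) (nat_lit 4) (nat_lit 14))
    (@En.n l14333 (nat_lit 1824) (nat_lit 2) (nat_lit 11))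
    (@En.n l7 (nat_lit 3381) (nat_lit 6) (nat_lit 2))
    (@En.n l14334 (nat_lit 3386) (nat_lit 7) (nat_lit 7))
    (@En.n l14335 (nat_lit 1344) (nat_lit 1) (nat_lit 14))
    (@En.n l14336 (nat_lit 3393) (nat_lit 13) (nat_lit 3))
    (@En.n l14337 (nat_lit 3391) (nat_lit 10) (nat_lit 3))
    (@En.n l14338 (nat_lit 4966) (nat_lit 0) (nat_lit 8))
    (@En.n l14339 (nat_lit 3391) (nat_lit 13) (nat_lit 13))
    (@En.n l13800 (nat_lit 4168) (nat_lit 7) (nat_lit 13))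
    (@En.n l14340 (nat_lit 3504) (nat_lit 12) (nat_lit 9))
    (@En.n l17 (nat_lit 3381) (nat_lit 15) (nat_lit 2))))
  (@Cl.mk (nat_lit 0x2000500050009000d0006000e00030002000e00070002000b000b000e000a) (nat_lit 0x340b002003255) (nat_lit 16) Lb.e (@T16.mk En
    (@En.n l617 (nat_lit 3390) (nat_lit 12) (nat_lit 10))
    (@En.i (nat_lit 3391) (nat_lit 4) (nat_lit 14))
    (@En.n l1353 (nat_lit 3391) (nat_lit 5) (nat_lit 11))
    (@En.i (nat_lit 1821) (nat_lit 3) (nat_lit 11))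
    (@En.n l50 (nat_lit 3382) (nat_lit 4) (nat_lit 2))
    (@En.n l564 (nat_lit 3387) (nat_lit 5) (nat_lit 7))
    (@En.i (nat_lit 1252) (nat_lit 7) (nat_lit 14))
    (@En.n l28 (nat_lit 3382) (nat_lit 7) (nat_lit 2))
    (@En.n l287 (nat_lit 3392) (nat_lit 8) (nat_lit 3))
    (@En.i (nat_lit 13252) (nat_lit 0) (nat_lit 14))
    (@En.i (nat_lit 4939) (nat_lit 5) (nat_lit 6))
    (@En.n l3340 (nat_lit 2734) (nat_lit 12) (nat_lit 13))
    (@En.i (nat_lit 3502) (nat_lit 13) (nat_lit 9))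
    (@En.n l725 (nat_lit 3397) (nat_lit 14) (nat_lit 5))
    (@En.n l3340 (nat_lit 4690) (nat_lit 13) (nat_lit 5))
    (@En.n l3 (nat_lit 3382) (nat_lit 15) (nat_lit 2))))
  (@Cl.mk (nat_lit 0x2000500050009000e000d000200080003000e00070002000b000b000e0008) (nat_lit 0x3560107003460) (nat_lit 16) Lb.e (@T16.mk En
    (@En.n l2404 (nat_lit 3395) (nat_lit 6) (nat_lit 8))
    (@En.n l2405 (nat_lit 3393) (nat_lit 8) (nat_lit 14))
    (@En.n l2406 (nat_lit 3393) (nat_lit 9) (nat_lit 11))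
    (@En.n l2407 (nat_lit 2770) (nat_lit 3) (nat_lit 11))
    (@En.n l7 (nat_lit 3383) (nat_lit 4) (nat_lit 2))
    (@En.n l2408 (nat_lit 3369) (nat_lit 5) (nat_lit 7))
    (@En.n l127 (nat_lit 3021) (nat_lit 7) (nat_lit 14))
    (@En.n l11 (nat_lit 3392) (nat_lit 7) (nat_lit 3))
    (@En.n l712 (nat_lit 1874) (nat_lit 3) (nat_lit 8))
    (@En.n l207 (nat_lit 3383) (nat_lit 9) (nat_lit 2))
    (@En.n l198 (nat_lit 3392) (nat_lit 11) (nat_lit 13))
    (@En.n l2409 (nat_lit 2921) (nat_lit 12) (nat_lit 14))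
    (@En.n l766 (nat_lit 3509) (nat_lit 13) (nat_lit 9))
    (@En.n l17 (nat_lit 3444) (nat_lit 14) (nat_lit 5))
    (@En.n l710 (nat_lit 4699) (nat_lit 4) (nat_lit 5))
    (@En.n l3 (nat_lit 3383) (nat_lit 15) (nat_lit 2))))
  (@Cl.mk (nat_lit 0x200050005000e00090002000d000d0009000300030007000b000b000e0007) (nat_lit 0x1506870001270) (nat_lit 16) Lb.e (@T16.mk En
    (@En.n l8481 (nat_lit 3380) (nat_lit 5) (nat_lit 7))
    (@En.n l476 (nat_lit 3377) (nat_lit 7) (nat_lit 14))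
    (@En.n l152 (nat_lit 3377) (nat_lit 8) (nat_lit 11))
    (@En.i (nat_lit 968) (nat_lit 3) (nat_lit 11))
    (@En.n l998 (nat_lit 2745) (nat_lit 4) (nat_lit 7))
    (@En.n l50 (nat_lit 3378) (nat_lit 5) (nat_lit 3))
    (@En.n l8482 (nat_lit 3376) (nat_lit 6) (nat_lit 3))
    (@En.i (nat_lit 4973) (nat_lit 0) (nat_lit 9))
    (@En.n l2895 (nat_lit 3376) (nat_lit 9) (nat_lit 13))
    (@En.n l7180 (nat_lit 2803) (nat_lit 10) (nat_lit 13))
    (@En.n l11 (nat_lit 3384) (nat_lit 10) (nat_lit 2))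
    (@En.n l7178 (nat_lit 3371) (nat_lit 12) (nat_lit 9))
    (@En.n l619 (nat_lit 1269) (nat_lit 13) (nat_lit 14))
    (@En.n l8483 (nat_lit 3379) (nat_lit 14) (nat_lit 5))
    (@En.n l8484 (nat_lit 4732) (nat_lit 13) (nat_lit 5))
    (@En.n l17 (nat_lit 3384) (nat_lit 15) (nat_lit 2))))
  (@Cl.mk (nat_lit 0x20007000b000e00070002000e00050002000e00090002000d0009000e0003) (nat_lit 0x15008006607050) (nat_lit 16) Lb.e (@T16.mk En
    (@En.n l7 (nat_lit 3377) (nat_lit 11) (nat_lit 3))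
    (@En.n l4360 (nat_lit 13244) (nat_lit 0) (nat_lit 14))
    (@En.n l2026 (nat_lit 4871) (nat_lit 2) (nat_lit 9))
    (@En.n l19004 (nat_lit 2811) (nat_lit 12) (nat_lit 13))
    (@En.n l11 (nat_lit 3385) (nat_lit 4) (nat_lit 2))
    (@En.n l19004 (nat_lit 3374) (nat_lit 5) (nat_lit 9))
    (@En.n l7678 (nat_lit 1886) (nat_lit 1) (nat_lit 14))
    (@En.n l3 (nat_lit 3385) (nat_lit 7) (nat_lit 2))
    (@En.n l8482 (nat_lit 3376) (nat_lit 14) (nat_lit 5))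
    (@En.n l5559 (nat_lit 4714) (nat_lit 1) (nat_lit 14))
    (@En.n l17 (nat_lit 3385) (nat_lit 10) (nat_lit 2))
    (@En.n l4797 (nat_lit 3412) (nat_lit 12) (nat_lit 7))
    (@En.n l998 (nat_lit 13760) (nat_lit 4) (nat_lit 14))
    (@En.i (nat_lit 694) (nat_lit 14) (nat_lit 11))
    (@En.n l998 (nat_lit 3469) (nat_lit 6) (nat_lit 7))
    (@En.n l50 (nat_lit 3385) (nat_lit 15) (nat_lit 2))))
  (@Cl.mk (nat_lit 0x200090009000d000d00090003000300070007000b000e00070002000e0005) (nat_lit 0x556870000250080) (nat_lit 16) Lb.e (@T16.mk En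
    (@En.n l7178 (nat_lit 3371) (nat_lit 14) (nat_lit 5))
    (@En.n l22256 (nat_lit 4674) (nat_lit 1) (nat_lit 14))
    (@En.n l17 (nat_lit 3386) (nat_lit 2) (nat_lit 2))
    (@En.n l8481 (nat_lit 3373) (nat_lit 3) (nat_lit 7))
    (@En.n l2032 (nat_lit 13762) (nat_lit 4) (nat_lit 14))
    (@En.n l2032 (nat_lit 2776) (nat_lit 2) (nat_lit 11))
    (@En.n l575 (nat_lit 3377) (nat_lit 9) (nat_lit 7))
    (@En.n l998 (nat_lit 1361) (nat_lit 7) (nat_lit 7))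
    (@En.n l50 (nat_lit 3375) (nat_lit 8) (nat_lit 3))
    (@En.n l19004 (nat_lit 3374) (nat_lit 0) (nat_lit 3))
    (@En.i (nat_lit 4968) (nat_lit 0) (nat_lit 9))
    (@En.n l14630 (nat_lit 3374) (nat_lit 3) (nat_lit 13))
    (@En.n l21006 (nat_lit 2795) (nat_lit 13) (nat_lit 13))
    (@En.n l7172 (nat_lit 3381) (nat_lit 14) (nat_lit 9))
    (@En.n l3661 (nat_lit 3489) (nat_lit 12) (nat_lit 9))
    (@En.n l3 (nat_lit 3386) (nat_lit 15) (nat_lit 2))))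
  (@Cl.mk (nat_lit 0x20005000500090009000d0007000e0003000200070007000b000b000e0009) (nat_lit 0x4460400002391) (nat_lit 16) Lb.e (@T16.mk En
    (@En.n l28497 (nat_lit 3373) (nat_lit 10) (nat_lit 9))
    (@En.i (nat_lit 3374) (nat_lit 11) (nat_lit 14))
    (@En.n l5 (nat_lit 3374) (nat_lit 12) (nat_lit 11))
    (@En.i (nat_lit 1820) (nat_lit 3) (nat_lit 11))
    (@En.n l538 (nat_lit 3376) (nat_lit 4) (nat_lit 7))
    (@En.i (nat_lit 1359) (nat_lit 5) (nat_lit 7))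
    (@En.n l28 (nat_lit 3387) (nat_lit 6) (nat_lit 2))
    (@En.n l164 (nat_lit 3371) (nat_lit 7) (nat_lit 3))
    (@En.i (nat_lit 13247) (nat_lit 0) (nat_lit 14))
    (@En.i (nat_lit 4873) (nat_lit 2) (nat_lit 7))
    (@En.i (nat_lit 2792) (nat_lit 11) (nat_lit 13))
    (@En.n l2593 (nat_lit 3382) (nat_lit 12) (nat_lit 9))
    (@En.n l387 (nat_lit 3498) (nat_lit 13) (nat_lit 9))
    (@En.n l17 (nat_lit 3372) (nat_lit 14) (nat_lit 5))
    (@En.n l1329 (nat_lit 4758) (nat_lit 7) (nat_lit 5))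
    (@En.n l3 (nat_lit 3387) (nat_lit 15) (nat_lit 2))))
  (@Cl.mk (nat_lit 0x20005000e00090002000d0007000e000300020007000e000b0002000e0009) (nat_lit 0x24060900052070) (nat_lit 16) Lb.e (@T16.mk En
    (@En.n l9627 (nat_lit 3398) (nat_lit 10) (nat_lit 9))
    (@En.i (nat_lit 3376) (nat_lit 1) (nat_lit 14))
    (@En.n l18 (nat_lit 3388) (nat_lit 2) (nat_lit 2))
    (@En.n l5 (nat_lit 3376) (nat_lit 3) (nat_lit 11))
    (@En.n l420 (nat_lit 3426) (nat_lit 5) (nat_lit 14))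
    (@En.n l9628 (nat_lit 2744) (nat_lit 5) (nat_lit 7))
    (@En.n l28 (nat_lit 3388) (nat_lit 6) (nat_lit 2))
    (@En.n l1023 (nat_lit 3379) (nat_lit 7) (nat_lit 3))
    (@En.n l1603 (nat_lit 13246) (nat_lit 0) (nat_lit 14))
    (@En.i (nat_lit 4872) (nat_lit 2) (nat_lit 7))
    (@En.i (nat_lit 3364) (nat_lit 11) (nat_lit 13))
    (@En.n l8 (nat_lit 3388) (nat_lit 11) (nat_lit 2))
    (@En.i (nat_lit 3372) (nat_lit 13) (nat_lit 9))
    (@En.n l8 (nat_lit 3667) (nat_lit 1) (nat_lit 14))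
    (@En.n l8 (nat_lit 4717) (nat_lit 7) (nat_lit 5))
    (@En.n l3 (nat_lit 3388) (nat_lit 15) (nat_lit 2))))
  (@Cl.mk (nat_lit 0x20008000c000c0008000800040004000e00080002000c00080008000e0004) (nat_lit 0x279610015033560) (nat_lit 16) Lb.e (@T16.mk En
    (@En.n l28432 (nat_lit 3380) (nat_lit 10) (nat_lit 4))
    (@En.i (nat_lit 5326) (nat_lit 1) (nat_lit 14))
    (@En.n l19908 (nat_lit 3376) (nat_lit 8) (nat_lit 8))
    (@En.n l17148 (nat_lit 5228) (nat_lit 3) (nat_lit 8))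
    (@En.n l28433 (nat_lit 2797) (nat_lit 5) (nat_lit 12))
    (@En.n l7 (nat_lit 3389) (nat_lit 5) (nat_lit 2))
    (@En.n l28434 (nat_lit 3373) (nat_lit 6) (nat_lit 8))
    (@En.n l134 (nat_lit 1345) (nat_lit 1) (nat_lit 14))
    (@En.n l11 (nat_lit 3398) (nat_lit 8) (nat_lit 4))
    (@En.n l28435 (nat_lit 3405) (nat_lit 9) (nat_lit 4))
    (@En.n l8068 (nat_lit 3381) (nat_lit 11) (nat_lit 8))
    (@En.n l28436 (nat_lit 3403) (nat_lit 12) (nat_lit 8))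
    (@En.n l2691 (nat_lit 3412) (nat_lit 13) (nat_lit 12))
    (@En.n l7630 (nat_lit 3036) (nat_lit 8) (nat_lit 12))
    (@En.n l17145 (nat_lit 2753) (nat_lit 9) (nat_lit 8))
    (@En.n l17 (nat_lit 3389) (nat_lit 15) (nat_lit 2))))
  (@Cl.mk (nat_lit 0x2000c000c000a000a000400040008000c00060006000e00040002000e0008) (nat_lit 0x1441004800b0026) (nat_lit 16) Lb.e (@T16.mk En
    (@En.i (nat_lit 3373) (nat_lit 14) (nat_lit 8))
    (@En.n l5551 (nat_lit 1258) (nat_lit 1) (nat_lit 14))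
    (@En.n l28 (nat_lit 3390) (nat_lit 2) (nat_lit 2))
    (@En.i (nat_lit 3380) (nat_lit 3) (nat_lit 4))
    (@En.n l5551 (nat_lit 4482) (nat_lit 1) (nat_lit 14))
    (@En.n l6962 (nat_lit 3382) (nat_lit 10) (nat_lit 6))
    (@En.i (nat_lit 4830) (nat_lit 6) (nat_lit 6))
    (@En.n l18512 (nat_lit 2996) (nat_lit 8) (nat_lit 12))
    (@En.n l1353 (nat_lit 3473) (nat_lit 5) (nat_lit 8))
    (@En.n l61 (nat_lit 3440) (nat_lit 12) (nat_lit 4))
    (@En.n l18512 (nat_lit 3414) (nat_lit 10) (nat_lit 4))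
    (@En.n l14275 (nat_lit 3377) (nat_lit 12) (nat_lit 10))
    (@En.n l9943 (nat_lit 3413) (nat_lit 13) (nat_lit 10))
    (@En.n l28317 (nat_lit 3412) (nat_lit 4) (nat_lit 12))
    (@En.n l6042 (nat_lit 2804) (nat_lit 12) (nat_lit 12))
    (@En.n l50 (nat_lit 3390) (nat_lit 15) (nat_lit 2))))
  (@Cl.mk (nat_lit 0x20009000d0007000e00030002000e00070002000b000e00090002000e0005) (nat_lit 0x460b00200144070) (nat_lit 16) Lb.e (@T16.mk En
    (@En.n l17 (nat_lit 3382) (nat_lit 14) (nat_lit 5))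
    (@En.n l2642 (nat_lit 4691) (nat_lit 1) (nat_lit 14))
    (@En.n l3 (nat_lit 3391) (nat_lit 2) (nat_lit 2))
    (@En.n l1003 (nat_lit 3412) (nat_lit 3) (nat_lit 9))
    (@En.n l2520 (nat_lit 13767) (nat_lit 4) (nat_lit 14))
    (@En.i (nat_lit 1825) (nat_lit 12) (nat_lit 11))
    (@En.n l50 (nat_lit 3391) (nat_lit 6) (nat_lit 2))
    (@En.n l564 (nat_lit 3374) (nat_lit 14) (nat_lit 7))
    (@En.i (nat_lit 1342) (nat_lit 1) (nat_lit 14))
    (@En.n l28 (nat_lit 3391) (nat_lit 9) (nat_lit 2))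
    (@En.n l28480 (nat_lit 3381) (nat_lit 10) (nat_lit 3))
    (@En.i (nat_lit 13338) (nat_lit 0) (nat_lit 14))
    (@En.i (nat_lit 4941) (nat_lit 13) (nat_lit 7))
    (@En.n l21030 (nat_lit 2733) (nat_lit 7) (nat_lit 13))
    (@En.i (nat_lit 3501) (nat_lit 12) (nat_lit 9))
    (@En.n l725 (nat_lit 3391) (nat_lit 15) (nat_lit 2))))
noncomputable def a212 : T16 Cl := @T16.mk Cl
  (@Cl.mk (nat_lit 0x2000500050009000d000d000700030003000e00070002000b000b000e0009) (nat_lit 0x3550007003455) (nat_lit 16) Lb.e (@T16.mk En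
    (@En.n l5786 (nat_lit 3380) (nat_lit 12) (nat_lit 9))
    (@En.n l5787 (nat_lit 3381) (nat_lit 4) (nat_lit 14))
    (@En.n l5788 (nat_lit 3381) (nat_lit 5) (nat_lit 11))
    (@En.i (nat_lit 1822) (nat_lit 3) (nat_lit 11))
    (@En.n l7 (nat_lit 3392) (nat_lit 4) (nat_lit 2))
    (@En.i (nat_lit 3371) (nat_lit 5) (nat_lit 7))
    (@En.i (nat_lit 1276) (nat_lit 7) (nat_lit 14))
    (@En.i (nat_lit 3383) (nat_lit 7) (nat_lit 3))
    (@En.n l1253 (nat_lit 3382) (nat_lit 8) (nat_lit 3))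
    (@En.n l117 (nat_lit 4947) (nat_lit 0) (nat_lit 7))
    (@En.n l1722 (nat_lit 3382) (nat_lit 11) (nat_lit 13))
    (@En.n l1203 (nat_lit 2900) (nat_lit 12) (nat_lit 13))
    (@En.n l766 (nat_lit 3505) (nat_lit 13) (nat_lit 9))
    (@En.n l17 (nat_lit 3442) (nat_lit 14) (nat_lit 5))
    (@En.n l1203 (nat_lit 4694) (nat_lit 13) (nat_lit 5))
    (@En.n l3 (nat_lit 3392) (nat_lit 15) (nat_lit 2))))
  (@Cl.mk (nat_lit 0x200090003000e00070002000b000e00070002000e000500020009000e000d) (nat_lit 0x209003500800466) (nat_lit 16) Lb.e (@T16.mk En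
    (@En.n l7166 (nat_lit 3381) (nat_lit 13) (nat_lit 13))
    (@En.n l7167 (nat_lit 4169) (nat_lit 7) (nat_lit 14))
    (@En.n l7168 (nat_lit 3495) (nat_lit 12) (nat_lit 9))
    (@En.n l3 (nat_lit 3393) (nat_lit 3) (nat_lit 2))
    (@En.n l7169 (nat_lit 3383) (nat_lit 14) (nat_lit 5))
    (@En.n l7170 (nat_lit 4785) (nat_lit 1) (nat_lit 14))
    (@En.n l17 (nat_lit 3393) (nat_lit 6) (nat_lit 2))
    (@En.n l7170 (nat_lit 3398) (nat_lit 3) (nat_lit 7))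
    (@En.n l7171 (nat_lit 13766) (nat_lit 4) (nat_lit 14))
    (@En.n l7171 (nat_lit 2769) (nat_lit 10) (nat_lit 11))
    (@En.n l11 (nat_lit 3393) (nat_lit 10) (nat_lit 2))
    (@En.n l575 (nat_lit 3375) (nat_lit 7) (nat_lit 7))
    (@En.n l2032 (nat_lit 3026) (nat_lit 1) (nat_lit 14))
    (@En.n l7172 (nat_lit 3381) (nat_lit 9) (nat_lit 3))
    (@En.n l7173 (nat_lit 1875) (nat_lit 11) (nat_lit 9))
    (@En.n l7 (nat_lit 3393) (nat_lit 15) (nat_lit 2))))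
  (@Cl.mk (nat_lit 0x200080008000e000c0002000a000a000400080008000c00060006000e0004) (nat_lit 0x532208303620050) (nat_lit 16) Lb.e (@T16.mk En
    (@En.i (nat_lit 3370) (nat_lit 5) (nat_lit 4))
    (@En.n l13093 (nat_lit 5320) (nat_lit 1) (nat_lit 14))
    (@En.n l3498 (nat_lit 3372) (nat_lit 10) (nat_lit 6))
    (@En.i (nat_lit 5222) (nat_lit 3) (nat_lit 6))
    (@En.n l564 (nat_lit 2778) (nat_lit 10) (nat_lit 12))
    (@En.n l644 (nat_lit 3440) (nat_lit 11) (nat_lit 8))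
    (@En.i (nat_lit 3245) (nat_lit 6) (nat_lit 8))
    (@En.n l1643 (nat_lit 4518) (nat_lit 7) (nat_lit 4))
    (@En.n l1867 (nat_lit 3375) (nat_lit 9) (nat_lit 10))
    (@En.i (nat_lit 3423) (nat_lit 10) (nat_lit 10))
    (@En.n l17 (nat_lit 3394) (nat_lit 10) (nat_lit 2))
    (@En.i (nat_lit 3373) (nat_lit 12) (nat_lit 12))
    (@En.i (nat_lit 2521) (nat_lit 13) (nat_lit 14))
    (@En.n l32715 (nat_lit 3398) (nat_lit 14) (nat_lit 8))
    (@En.n l3506 (nat_lit 3484) (nat_lit 3) (nat_lit 8))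
    (@En.n l28 (nat_lit 3394) (nat_lit 15) (nat_lit 2))))
  (@Cl.mk (nat_lit 0x2000800080004000e00080002000c000c00080008000400040008000e000c) (nat_lit 0x620c40236100192) (nat_lit 16) Lb.e (@T16.mk En
    (@En.n l6875 (nat_lit 3380) (nat_lit 7) (nat_lit 12))
    (@En.n l6876 (nat_lit 2913) (nat_lit 1) (nat_lit 14))
    (@En.i (nat_lit 2747) (nat_lit 2) (nat_lit 8))
    (@En.n l2593 (nat_lit 3443) (nat_lit 3) (nat_lit 4))
    (@En.n l5349 (nat_lit 4558) (nat_lit 4) (nat_lit 4))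
    (@En.n l61 (nat_lit 3379) (nat_lit 8) (nat_lit 8))
    (@En.n l2786 (nat_lit 4554) (nat_lit 6) (nat_lit 8))
    (@En.n l6877 (nat_lit 3398) (nat_lit 4) (nat_lit 12))
    (@En.n l3382 (nat_lit 2802) (nat_lit 9) (nat_lit 12))
    (@En.n l28 (nat_lit 3395) (nat_lit 9) (nat_lit 2))
    (@En.n l6878 (nat_lit 3370) (nat_lit 11) (nat_lit 8))
    (@En.n l6879 (nat_lit 3025) (nat_lit 1) (nat_lit 14))
    (@En.n l6880 (nat_lit 4590) (nat_lit 2) (nat_lit 4))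
    (@En.n l6881 (nat_lit 3383) (nat_lit 8) (nat_lit 8))
    (@En.i (nat_lit 4588) (nat_lit 4) (nat_lit 8))
    (@En.n l3 (nat_lit 3395) (nat_lit 15) (nat_lit 2))))
  (@Cl.mk (nat_lit 0x2000b00030007000b000e00050002000e00050002000e00090002000e000d) (nat_lit 0x1500b00260a9) (nat_lit 16) Lb.e (@T16.mk En
    (@En.n l601 (nat_lit 3377) (nat_lit 14) (nat_lit 13))
    (@En.i (nat_lit 2518) (nat_lit 1) (nat_lit 14))
    (@En.n l11 (nat_lit 3396) (nat_lit 2) (nat_lit 2))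
    (@En.i (nat_lit 3375) (nat_lit 14) (nat_lit 9))
    (@En.i (nat_lit 1262) (nat_lit 1) (nat_lit 14))
    (@En.n l3 (nat_lit 3396) (nat_lit 5) (nat_lit 2))
    (@En.i (nat_lit 3378) (nat_lit 14) (nat_lit 5))
    (@En.i (nat_lit 4728) (nat_lit 1) (nat_lit 14))
    (@En.n l17 (nat_lit 3396) (nat_lit 8) (nat_lit 2))
    (@En.n l2869 (nat_lit 3440) (nat_lit 9) (nat_lit 5))
    (@En.n l2568 (nat_lit 13764) (nat_lit 4) (nat_lit 14))
    (@En.i (nat_lit 964) (nat_lit 12) (nat_lit 11))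
    (@En.i (nat_lit 3606) (nat_lit 13) (nat_lit 7))
    (@En.i (nat_lit 3377) (nat_lit 10) (nat_lit 3))
    (@En.i (nat_lit 4987) (nat_lit 0) (nat_lit 11))
    (@En.n l7 (nat_lit 3396) (nat_lit 15) (nat_lit 2))))
  (@Cl.mk (nat_lit 0x200050009000d0005000e00030002000e00070002000e000b0002000e000b) (nat_lit 0x240c0020084066) (nat_lit 16) Lb.e (@T16.mk En
    (@En.i (nat_lit 3440) (nat_lit 14) (nat_lit 11))
    (@En.i (nat_lit 3382) (nat_lit 1) (nat_lit 14))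
    (@En.n l17 (nat_lit 3397) (nat_lit 2) (nat_lit 2))
    (@En.n l1353 (nat_lit 3382) (nat_lit 3) (nat_lit 11))
    (@En.i (nat_lit 2044) (nat_lit 1) (nat_lit 14))
    (@En.n l50 (nat_lit 3397) (nat_lit 5) (nat_lit 2))
    (@En.n l564 (nat_lit 3372) (nat_lit 6) (nat_lit 7))
    (@En.i (nat_lit 1273) (nat_lit 8) (nat_lit 14))
    (@En.n l28 (nat_lit 3397) (nat_lit 8) (nat_lit 2))
    (@En.n l287 (nat_lit 3442) (nat_lit 9) (nat_lit 3))
    (@En.i (nat_lit 13253) (nat_lit 0) (nat_lit 14))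
    (@En.i (nat_lit 4942) (nat_lit 8) (nat_lit 5))
    (@En.i (nat_lit 2897) (nat_lit 13) (nat_lit 13))
    (@En.i (nat_lit 3567) (nat_lit 14) (nat_lit 9))
    (@En.n l1643 (nat_lit 4697) (nat_lit 13) (nat_lit 5))
    (@En.n l3 (nat_lit 3397) (nat_lit 15) (nat_lit 2))))
  (@Cl.mk (nat_lit 0x20008000e000c0002000900090004000e00080002000c00070007000e0004) (nat_lit 0x248073034020060) (nat_lit 16) Lb.e (@T16.mk En
    (@En.n l17152 (nat_lit 3395) (nat_lit 4) (nat_lit 4))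
    (@En.i (nat_lit 5323) (nat_lit 6) (nat_lit 14))
    (@En.n l17150 (nat_lit 3388) (nat_lit 9) (nat_lit 7))
    (@En.n l9991 (nat_lit 5225) (nat_lit 14) (nat_lit 7))
    (@En.n l7628 (nat_lit 2781) (nat_lit 9) (nat_lit 12))
    (@En.n l7 (nat_lit 3398) (nat_lit 5) (nat_lit 2))
    (@En.n l17151 (nat_lit 3394) (nat_lit 6) (nat_lit 8))
    (@En.n l17153 (nat_lit 2984) (nat_lit 1) (nat_lit 14))
    (@En.n l7630 (nat_lit 3400) (nat_lit 8) (nat_lit 4))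
    (@En.n l17154 (nat_lit 3393) (nat_lit 14) (nat_lit 9))
    (@En.n l17155 (nat_lit 3399) (nat_lit 11) (nat_lit 9))
    (@En.n l67 (nat_lit 3398) (nat_lit 11) (nat_lit 2))
    (@En.n l68 (nat_lit 3389) (nat_lit 13) (nat_lit 12))
    (@En.n l7630 (nat_lit 2920) (nat_lit 1) (nat_lit 14))
    (@En.n l17156 (nat_lit 2752) (nat_lit 2) (nat_lit 8))
    (@En.n l17 (nat_lit 3398) (nat_lit 15) (nat_lit 2))))
  (@Cl.mk (nat_lit 0x200090006000d000900080003000e00070002000b0007000a0008000e0005) (nat_lit 0x600600700300660) (nat_lit 16) Lb.e (@T16.mk En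
    (@En.n l663 (nat_lit 4588) (nat_lit 9) (nat_lit 5))
    (@En.n l32734 (nat_lit 12797) (nat_lit 1) (nat_lit 14))
    (@En.n l32734 (nat_lit 3389) (nat_lit 2) (nat_lit 8))
    (@En.i (nat_lit 4826) (nat_lit 3) (nat_lit 10))
    (@En.n l14556 (nat_lit 4640) (nat_lit 14) (nat_lit 7))
    (@En.n l32735 (nat_lit 4233) (nat_lit 12) (nat_lit 11))
    (@En.n l28 (nat_lit 3399) (nat_lit 6) (nat_lit 2))
    (@En.n l32736 (nat_lit 3423) (nat_lit 7) (nat_lit 7))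
    (@En.n l32737 (nat_lit 9265) (nat_lit 1) (nat_lit 14))
    (@En.n l32738 (nat_lit 3401) (nat_lit 9) (nat_lit 3))
    (@En.n l32739 (nat_lit 4941) (nat_lit 11) (nat_lit 8))
    (@En.n l24163 (nat_lit 3402) (nat_lit 12) (nat_lit 9))
    (@En.n l24679 (nat_lit 3403) (nat_lit 13) (nat_lit 13))
    (@En.i (nat_lit 11189) (nat_lit 14) (nat_lit 6))
    (@En.n l32739 (nat_lit 4298) (nat_lit 8) (nat_lit 9))
    (@En.n l18 (nat_lit 3399) (nat_lit 15) (nat_lit 2))))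
  (@Cl.mk (nat_lit 0x20008000d000c00070003000a0004000e00080002000c00060009000e0004) (nat_lit 0x3000020a0000640) (nat_lit 16) Lb.e (@T16.mk En
    (@En.n l32711 (nat_lit 4590) (nat_lit 10) (nat_lit 4))
    (@En.i (nat_lit 4514) (nat_lit 1) (nat_lit 14))
    (@En.n l3865 (nat_lit 4714) (nat_lit 9) (nat_lit 9))
    (@En.n l32730 (nat_lit 8176) (nat_lit 14) (nat_lit 6))
    (@En.n l32731 (nat_lit 4249) (nat_lit 5) (nat_lit 12))
    (@En.n l7 (nat_lit 3400) (nat_lit 5) (nat_lit 2))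
    (@En.n l27092 (nat_lit 4518) (nat_lit 6) (nat_lit 8))
    (@En.n l3865 (nat_lit 11232) (nat_lit 1) (nat_lit 14))
    (@En.n l20299 (nat_lit 3389) (nat_lit 8) (nat_lit 4))
    (@En.n l32732 (nat_lit 3401) (nat_lit 10) (nat_lit 10))
    (@En.n l152 (nat_lit 3406) (nat_lit 10) (nat_lit 3))
    (@En.n l15603 (nat_lit 5064) (nat_lit 12) (nat_lit 7))
    (@En.n l32733 (nat_lit 3405) (nat_lit 13) (nat_lit 12))
    (@En.i (nat_lit 8312) (nat_lit 8) (nat_lit 13))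
    (@En.n l32733 (nat_lit 4295) (nat_lit 3) (nat_lit 8))
    (@En.n l17 (nat_lit 3400) (nat_lit 15) (nat_lit 2))))
  (@Cl.mk (nat_lit 0x200090006000d0007000a0003000e00070002000b0006000a0009000e0005) (nat_lit 0x600010900008750) (nat_lit 16) Lb.e (@T16.mk En
    (@En.n l24004 (nat_lit 4589) (nat_lit 9) (nat_lit 5))
    (@En.n l18866 (nat_lit 12796) (nat_lit 11) (nat_lit 14))
    (@En.n l3 (nat_lit 3400) (nat_lit 2) (nat_lit 9))
    (@En.n l3763 (nat_lit 3991) (nat_lit 3) (nat_lit 10))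
    (@En.n l24005 (nat_lit 8175) (nat_lit 14) (nat_lit 6))
    (@En.n l8910 (nat_lit 4219) (nat_lit 12) (nat_lit 11))
    (@En.n l7 (nat_lit 3401) (nat_lit 6) (nat_lit 2))
    (@En.n l10067 (nat_lit 3421) (nat_lit 7) (nat_lit 7))
    (@En.n l24006 (nat_lit 11231) (nat_lit 1) (nat_lit 14))
    (@En.n l10831 (nat_lit 3399) (nat_lit 9) (nat_lit 3))
    (@En.n l10069 (nat_lit 15) (nat_lit 3) (nat_lit 10))
    (@En.n l24007 (nat_lit 3181) (nat_lit 4) (nat_lit 7))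
    (@En.n l21066 (nat_lit 3404) (nat_lit 13) (nat_lit 13))
    (@En.n l3763 (nat_lit 11191) (nat_lit 14) (nat_lit 6))
    (@En.n l24008 (nat_lit 4296) (nat_lit 8) (nat_lit 9))
    (@En.n l17 (nat_lit 3401) (nat_lit 15) (nat_lit 2))))
  (@Cl.mk (nat_lit 0x2000a000600090007000a000e00060002000a00070006000a0009000e0006) (nat_lit 0x705006003001370) (nat_lit 16) Lb.e (@T16.mk En
    (@En.n l38833 (nat_lit 4533) (nat_lit 8) (nat_lit 6))
    (@En.n l23540 (nat_lit 12798) (nat_lit 10) (nat_lit 14))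
    (@En.n l8091 (nat_lit 3403) (nat_lit 2) (nat_lit 9))
    (@En.n l33784 (nat_lit 3399) (nat_lit 3) (nat_lit 10))
    (@En.n l38834 (nat_lit 3401) (nat_lit 4) (nat_lit 6))
    (@En.i (nat_lit 5267) (nat_lit 14) (nat_lit 7))
    (@En.n l38835 (nat_lit 2832) (nat_lit 7) (nat_lit 10))
    (@En.n l3 (nat_lit 3402) (nat_lit 7) (nat_lit 2))
    (@En.n l38836 (nat_lit 4532) (nat_lit 8) (nat_lit 6))
    (@En.n l23540 (nat_lit 9264) (nat_lit 10) (nat_lit 14))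
    (@En.n l5647 (nat_lit 12554) (nat_lit 2) (nat_lit 10))
    (@En.n l5592 (nat_lit 4951) (nat_lit 3) (nat_lit 7))
    (@En.n l2520 (nat_lit 4832) (nat_lit 4) (nat_lit 9))
    (@En.i (nat_lit 11190) (nat_lit 14) (nat_lit 6))
    (@En.n l38837 (nat_lit 2834) (nat_lit 7) (nat_lit 10))
    (@En.n l7 (nat_lit 3402) (nat_lit 15) (nat_lit 2))))
  (@Cl.mk (nat_lit 0x20009000d000800070003000a000e00070002000b000800060009000e0005) (nat_lit 0x6b5001800100260) (nat_lit 16) Lb.e (@T16.mk En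
    (@En.n l117 (nat_lit 4546) (nat_lit 9) (nat_lit 5))
    (@En.n l3176 (nat_lit 12799) (nat_lit 11) (nat_lit 14))
    (@En.n l20970 (nat_lit 3412) (nat_lit 2) (nat_lit 9))
    (@En.n l10833 (nat_lit 3400) (nat_lit 3) (nat_lit 6))
    (@En.n l13365 (nat_lit 5238) (nat_lit 14) (nat_lit 8))
    (@En.n l21284 (nat_lit 2827) (nat_lit 6) (nat_lit 11))
    (@En.n l17 (nat_lit 3403) (nat_lit 6) (nat_lit 2))
    (@En.n l37956 (nat_lit 3410) (nat_lit 7) (nat_lit 7))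
    (@En.n l3176 (nat_lit 6706) (nat_lit 9) (nat_lit 14))
    (@En.n l18543 (nat_lit 3402) (nat_lit 10) (nat_lit 10))
    (@En.n l128 (nat_lit 3404) (nat_lit 10) (nat_lit 3))
    (@En.n l20968 (nat_lit 4949) (nat_lit 4) (nat_lit 7))
    (@En.n l13365 (nat_lit 4829) (nat_lit 13) (nat_lit 8))
    (@En.i (nat_lit 7306) (nat_lit 7) (nat_lit 13))
    (@En.n l614 (nat_lit 2828) (nat_lit 3) (nat_lit 9))
    (@En.n l11 (nat_lit 3403) (nat_lit 15) (nat_lit 2))))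
  (@Cl.mk (nat_lit 0x20009000d000600090003000a000e00070002000b00070006000a000e0005) (nat_lit 0x3b0101c000008c0) (nat_lit 16) Lb.e (@T16.mk En
    (@En.n l24004 (nat_lit 3408) (nat_lit 9) (nat_lit 5))
    (@En.i (nat_lit 12801) (nat_lit 11) (nat_lit 14))
    (@En.n l3852 (nat_lit 3405) (nat_lit 2) (nat_lit 10))
    (@En.i (nat_lit 3406) (nat_lit 3) (nat_lit 6))
    (@En.n l38979 (nat_lit 9323) (nat_lit 14) (nat_lit 7))
    (@En.n l17684 (nat_lit 3409) (nat_lit 6) (nat_lit 11))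
    (@En.n l7 (nat_lit 3404) (nat_lit 6) (nat_lit 2))
    (@En.n l38980 (nat_lit 3407) (nat_lit 7) (nat_lit 7))
    (@En.n l7532 (nat_lit 6709) (nat_lit 9) (nat_lit 14))
    (@En.i (nat_lit 38) (nat_lit 2) (nat_lit 10))
    (@En.n l10830 (nat_lit 3403) (nat_lit 10) (nat_lit 3))
    (@En.n l38981 (nat_lit 2114) (nat_lit 0) (nat_lit 9))
    (@En.n l38982 (nat_lit 3402) (nat_lit 13) (nat_lit 6))
    (@En.i (nat_lit 7307) (nat_lit 7) (nat_lit 13))
    (@En.n l2813 (nat_lit 3409) (nat_lit 3) (nat_lit 9))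
    (@En.n l17 (nat_lit 3404) (nat_lit 15) (nat_lit 2))))
  (@Cl.mk (nat_lit 0x20008000c0006000d000900040003000e00080002000c0007000a000e0004) (nat_lit 0x3a00200a0000740) (nat_lit 16) Lb.e (@T16.mk En
    (@En.n l50 (nat_lit 4592) (nat_lit 10) (nat_lit 4))
    (@En.n l7670 (nat_lit 5336) (nat_lit 12) (nat_lit 14))
    (@En.i (nat_lit 4812) (nat_lit 8) (nat_lit 10))
    (@En.n l14711 (nat_lit 9321) (nat_lit 14) (nat_lit 7))
    (@En.n l3380 (nat_lit 4248) (nat_lit 5) (nat_lit 12))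
    (@En.n l28 (nat_lit 3405) (nat_lit 5) (nat_lit 2))
    (@En.n l41160 (nat_lit 3411) (nat_lit 6) (nat_lit 8))
    (@En.n l32727 (nat_lit 6870) (nat_lit 1) (nat_lit 14))
    (@En.n l41161 (nat_lit 3406) (nat_lit 8) (nat_lit 3))
    (@En.n l9325 (nat_lit 3412) (nat_lit 9) (nat_lit 4))
    (@En.n l7670 (nat_lit 3404) (nat_lit 11) (nat_lit 9))
    (@En.n l4542 (nat_lit 4477) (nat_lit 12) (nat_lit 13))
    (@En.n l775 (nat_lit 3399) (nat_lit 13) (nat_lit 6))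
    (@En.n l7670 (nat_lit 7317) (nat_lit 14) (nat_lit 12))
    (@En.i (nat_lit 4239) (nat_lit 9) (nat_lit 8))
    (@En.n l776 (nat_lit 3405) (nat_lit 15) (nat_lit 2))))
  (@Cl.mk (nat_lit 0x20008000d0006000d0003000a0003000e00080002000c0006000a000e0004) (nat_lit 0x3606020a0000740) (nat_lit 16) Lb.e (@T16.mk En
    (@En.n l24004 (nat_lit 4591) (nat_lit 10) (nat_lit 4))
    (@En.i (nat_lit 5400) (nat_lit 12) (nat_lit 14))
    (@En.n l38823 (nat_lit 4801) (nat_lit 2) (nat_lit 10))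
    (@En.n l28114 (nat_lit 8177) (nat_lit 14) (nat_lit 6))
    (@En.n l8910 (nat_lit 4247) (nat_lit 5) (nat_lit 12))
    (@En.n l7 (nat_lit 3406) (nat_lit 5) (nat_lit 2))
    (@En.n l10067 (nat_lit 4519) (nat_lit 6) (nat_lit 8))
    (@En.i (nat_lit 11233) (nat_lit 1) (nat_lit 14))
    (@En.n l2813 (nat_lit 3405) (nat_lit 8) (nat_lit 3))
    (@En.i (nat_lit 12554) (nat_lit 10) (nat_lit 10))
    (@En.n l117 (nat_lit 3400) (nat_lit 10) (nat_lit 3))
    (@En.n l182 (nat_lit 4478) (nat_lit 12) (nat_lit 13))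
    (@En.i (nat_lit 3401) (nat_lit 13) (nat_lit 6))
    (@En.i (nat_lit 8313) (nat_lit 8) (nat_lit 13))
    (@En.n l23808 (nat_lit 4240) (nat_lit 3) (nat_lit 8))
    (@En.n l17 (nat_lit 3406) (nat_lit 15) (nat_lit 2))))
  (@Cl.mk (nat_lit 0x200090009000d0007000a0003000b00070007000b000600050009000e0005) (nat_lit 0x140000000000060) (nat_lit 16) Lb.e (@T16.mk En
    (@En.n l28 (nat_lit 4524) (nat_lit 6) (nat_lit 5))
    (@En.n l476 (nat_lit 5614) (nat_lit 1) (nat_lit 14))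
    (@En.i (nat_lit 3411) (nat_lit 2) (nat_lit 9))
    (@En.n l28 (nat_lit 4519) (nat_lit 3) (nat_lit 5))
    (@En.n l4108 (nat_lit 9328) (nat_lit 4) (nat_lit 6))
    (@En.i (nat_lit 4240) (nat_lit 6) (nat_lit 11))
    (@En.n l61 (nat_lit 3415) (nat_lit 9) (nat_lit 7))
    (@En.n l27109 (nat_lit 10021) (nat_lit 7) (nat_lit 7))
    (@En.n l11108 (nat_lit 4529) (nat_lit 9) (nat_lit 11))
    (@En.n l6822 (nat_lit 3410) (nat_lit 9) (nat_lit 3))
    (@En.n l4108 (nat_lit 4897) (nat_lit 0) (nat_lit 10))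
    (@En.n l5014 (nat_lit 4532) (nat_lit 12) (nat_lit 7))
    (@En.n l27110 (nat_lit 7401) (nat_lit 13) (nat_lit 13))
    (@En.n l27111 (nat_lit 3404) (nat_lit 14) (nat_lit 9))
    (@En.n l7409 (nat_lit 2832) (nat_lit 4) (nat_lit 9))
    (@En.n l50 (nat_lit 3407) (nat_lit 15) (nat_lit 2))))
noncomputable def a213 : T16 Cl := @T16.mk Cl
  (@Cl.mk (nat_lit 0x2000b000b00080007000b000500050009000d0005000800030009000e0007) (nat_lit 0x110000027000080) (nat_lit 16) Lb.e (@T16.mk En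
    (@En.n l10413 (nat_lit 4524) (nat_lit 13) (nat_lit 7))
    (@En.n l35551 (nat_lit 6713) (nat_lit 1) (nat_lit 14))
    (@En.n l14056 (nat_lit 4529) (nat_lit 2) (nat_lit 9))
    (@En.n l40941 (nat_lit 4546) (nat_lit 3) (nat_lit 3))
    (@En.n l14058 (nat_lit 4777) (nat_lit 10) (nat_lit 8))
    (@En.n l5572 (nat_lit 4533) (nat_lit 5) (nat_lit 5))
    (@En.n l2977 (nat_lit 7296) (nat_lit 7) (nat_lit 13))
    (@En.n l32761 (nat_lit 4247) (nat_lit 3) (nat_lit 9))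
    (@En.n l575 (nat_lit 3450) (nat_lit 11) (nat_lit 5))
    (@En.n l28400 (nat_lit 10910) (nat_lit 9) (nat_lit 5))
    (@En.n l40942 (nat_lit 4592) (nat_lit 11) (nat_lit 11))
    (@En.i (nat_lit 4591) (nat_lit 12) (nat_lit 7))
    (@En.n l40943 (nat_lit 10907) (nat_lit 13) (nat_lit 8))
    (@En.n l32765 (nat_lit 3404) (nat_lit 5) (nat_lit 11))
    (@En.n l40944 (nat_lit 2834) (nat_lit 11) (nat_lit 11))
    (@En.n l3 (nat_lit 3408) (nat_lit 15) (nat_lit 2))))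
  (@Cl.mk (nat_lit 0x30009000d0007000a0003000b00080007000b000600050009000d00050008) (nat_lit 0x400102509002301) (nat_lit 16) Lb.e (@T16.mk En
    (@En.n l33405 (nat_lit 2121) (nat_lit 10) (nat_lit 8))
    (@En.n l40485 (nat_lit 2834) (nat_lit 6) (nat_lit 5))
    (@En.i (nat_lit 10289) (nat_lit 6) (nat_lit 13))
    (@En.n l29382 (nat_lit 4248) (nat_lit 3) (nat_lit 9))
    (@En.n l50 (nat_lit 4247) (nat_lit 4) (nat_lit 5))
    (@En.n l1807 (nat_lit 10404) (nat_lit 5) (nat_lit 6))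
    (@En.n l3 (nat_lit 4239) (nat_lit 12) (nat_lit 11))
    (@En.n l4365 (nat_lit 4240) (nat_lit 7) (nat_lit 7))
    (@En.n l40486 (nat_lit 9978) (nat_lit 14) (nat_lit 8))
    (@En.n l36583 (nat_lit 4524) (nat_lit 10) (nat_lit 11))
    (@En.n l14771 (nat_lit 2827) (nat_lit 10) (nat_lit 3))
    (@En.n l1807 (nat_lit 2120) (nat_lit 0) (nat_lit 10))
    (@En.n l2275 (nat_lit 2832) (nat_lit 13) (nat_lit 7))
    (@En.n l11840 (nat_lit 10618) (nat_lit 6) (nat_lit 13))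
    (@En.n l32785 (nat_lit 4524) (nat_lit 3) (nat_lit 9))
    (@En.n l33404 (nat_lit 2828) (nat_lit 15) (nat_lit 3))))
  (@Cl.mk (nat_lit 0x200090009000d000900080003000b00070007000b000700050008000e0005) (nat_lit 0x370760000800150) (nat_lit 16) Lb.e (@T16.mk En
    (@En.n l1992 (nat_lit 4526) (nat_lit 6) (nat_lit 5))
    (@En.n l27106 (nat_lit 5615) (nat_lit 1) (nat_lit 14))
    (@En.n l37870 (nat_lit 69) (nat_lit 2) (nat_lit 8))
    (@En.i (nat_lit 4518) (nat_lit 3) (nat_lit 5))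
    (@En.n l40451 (nat_lit 5242) (nat_lit 4) (nat_lit 7))
    (@En.n l40452 (nat_lit 4237) (nat_lit 6) (nat_lit 11))
    (@En.n l77 (nat_lit 3413) (nat_lit 9) (nat_lit 7))
    (@En.n l899 (nat_lit 10020) (nat_lit 7) (nat_lit 7))
    (@En.n l10789 (nat_lit 4532) (nat_lit 9) (nat_lit 11))
    (@En.n l8258 (nat_lit 3407) (nat_lit 9) (nat_lit 3))
    (@En.n l40453 (nat_lit 4969) (nat_lit 11) (nat_lit 8))
    (@En.n l40454 (nat_lit 4833) (nat_lit 12) (nat_lit 9))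
    (@En.n l14576 (nat_lit 9408) (nat_lit 13) (nat_lit 13))
    (@En.n l40455 (nat_lit 3403) (nat_lit 14) (nat_lit 9))
    (@En.n l7836 (nat_lit 2829) (nat_lit 4) (nat_lit 9))
    (@En.n l11 (nat_lit 3410) (nat_lit 15) (nat_lit 2))))
  (@Cl.mk (nat_lit 0x200080008000c0007000d000a0004000300080008000c00060009000e0004) (nat_lit 0x40001006020750) (nat_lit 16) Lb.e (@T16.mk En
    (@En.n l39472 (nat_lit 4522) (nat_lit 8) (nat_lit 4))
    (@En.n l1836 (nat_lit 2963) (nat_lit 1) (nat_lit 14))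
    (@En.n l33194 (nat_lit 4686) (nat_lit 9) (nat_lit 9))
    (@En.i (nat_lit 9327) (nat_lit 3) (nat_lit 6))
    (@En.n l29439 (nat_lit 4242) (nat_lit 5) (nat_lit 12))
    (@En.n l61 (nat_lit 3414) (nat_lit 8) (nat_lit 8))
    (@En.n l11010 (nat_lit 6865) (nat_lit 6) (nat_lit 8))
    (@En.n l10862 (nat_lit 4519) (nat_lit 7) (nat_lit 3))
    (@En.n l12849 (nat_lit 69) (nat_lit 0) (nat_lit 4))
    (@En.n l22188 (nat_lit 3407) (nat_lit 10) (nat_lit 10))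
    (@En.i (nat_lit 4484) (nat_lit 11) (nat_lit 13))
    (@En.n l11010 (nat_lit 3423) (nat_lit 12) (nat_lit 7))
    (@En.n l21642 (nat_lit 7396) (nat_lit 13) (nat_lit 12))
    (@En.n l40098 (nat_lit 3405) (nat_lit 14) (nat_lit 8))
    (@En.n l40099 (nat_lit 4232) (nat_lit 6) (nat_lit 8))
    (@En.n l50 (nat_lit 3411) (nat_lit 15) (nat_lit 2))))
  (@Cl.mk (nat_lit 0x20008000c00070007000e00040002000e00080002000c00090009000e0004) (nat_lit 0x6800b0021033160) (nat_lit 16) Lb.e (@T16.mk En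
    (@En.n l41206 (nat_lit 3390) (nat_lit 10) (nat_lit 4))
    (@En.i (nat_lit 5329) (nat_lit 1) (nat_lit 14))
    (@En.n l41207 (nat_lit 3385) (nat_lit 2) (nat_lit 9))
    (@En.n l41208 (nat_lit 5231) (nat_lit 3) (nat_lit 9))
    (@En.i (nat_lit 2808) (nat_lit 12) (nat_lit 12))
    (@En.n l7 (nat_lit 3412) (nat_lit 5) (nat_lit 2))
    (@En.n l1599 (nat_lit 69) (nat_lit 6) (nat_lit 8))
    (@En.n l41209 (nat_lit 619) (nat_lit 1) (nat_lit 14))
    (@En.n l11 (nat_lit 3412) (nat_lit 8) (nat_lit 2))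
    (@En.n l1992 (nat_lit 3389) (nat_lit 9) (nat_lit 4))
    (@En.n l41209 (nat_lit 4481) (nat_lit 11) (nat_lit 14))
    (@En.n l2125 (nat_lit 3391) (nat_lit 12) (nat_lit 7))
    (@En.n l41210 (nat_lit 4828) (nat_lit 13) (nat_lit 7))
    (@En.n l11107 (nat_lit 2995) (nat_lit 14) (nat_lit 12))
    (@En.n l31318 (nat_lit 3475) (nat_lit 5) (nat_lit 8))
    (@En.n l17 (nat_lit 3412) (nat_lit 15) (nat_lit 2))))
  (@Cl.mk (nat_lit 0x2000d000a00090003000c0007000b000600040007000e00050002000e0009) (nat_lit 0x300007000b0024) (nat_lit 16) Lb.e (@T16.mk En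
    (@En.i (nat_lit 3410) (nat_lit 14) (nat_lit 9))
    (@En.n l27106 (nat_lit 1175) (nat_lit 1) (nat_lit 14))
    (@En.n l11 (nat_lit 3413) (nat_lit 2) (nat_lit 2))
    (@En.n l1992 (nat_lit 3425) (nat_lit 3) (nat_lit 5))
    (@En.n l27106 (nat_lit 5612) (nat_lit 1) (nat_lit 14))
    (@En.i (nat_lit 3412) (nat_lit 11) (nat_lit 7))
    (@En.i (nat_lit 3417) (nat_lit 6) (nat_lit 4))
    (@En.n l40451 (nat_lit 5216) (nat_lit 7) (nat_lit 6))
    (@En.n l11107 (nat_lit 3340) (nat_lit 9) (nat_lit 11))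
    (@En.n l899 (nat_lit 8212) (nat_lit 6) (nat_lit 7))
    (@En.n l10789 (nat_lit 3420) (nat_lit 11) (nat_lit 12))
    (@En.n l8258 (nat_lit 3415) (nat_lit 11) (nat_lit 3))
    (@En.n l40453 (nat_lit 4879) (nat_lit 0) (nat_lit 9))
    (@En.n l40454 (nat_lit 5230) (nat_lit 14) (nat_lit 10))
    (@En.i (nat_lit 9406) (nat_lit 12) (nat_lit 13))
    (@En.n l7 (nat_lit 3413) (nat_lit 15) (nat_lit 2))))
  (@Cl.mk (nat_lit 0x2000c0008000d000b000400030008000c00050008000e00040002000e0008) (nat_lit 0x6100c0021) (nat_lit 16) Lb.e (@T16.mk En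
    (@En.i (nat_lit 3411) (nat_lit 14) (nat_lit 8))
    (@En.n l1836 (nat_lit 1033) (nat_lit 1) (nat_lit 14))
    (@En.n l50 (nat_lit 3414) (nat_lit 2) (nat_lit 2))
    (@En.n l9530 (nat_lit 4702) (nat_lit 3) (nat_lit 4))
    (@En.n l1836 (nat_lit 5610) (nat_lit 1) (nat_lit 14))
    (@En.n l9530 (nat_lit 4689) (nat_lit 10) (nat_lit 8))
    (@En.i (nat_lit 12818) (nat_lit 6) (nat_lit 5))
    (@En.i (nat_lit 3000) (nat_lit 8) (nat_lit 12))
    (@En.n l11010 (nat_lit 7450) (nat_lit 5) (nat_lit 8))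
    (@En.n l10862 (nat_lit 3416) (nat_lit 9) (nat_lit 3))
    (@En.n l6822 (nat_lit 3412) (nat_lit 0) (nat_lit 4))
    (@En.n l22188 (nat_lit 3415) (nat_lit 12) (nat_lit 11))
    (@En.i (nat_lit 5328) (nat_lit 13) (nat_lit 13))
    (@En.n l11010 (nat_lit 3419) (nat_lit 14) (nat_lit 8))
    (@En.i (nat_lit 7392) (nat_lit 12) (nat_lit 12))
    (@En.n l17 (nat_lit 3414) (nat_lit 15) (nat_lit 2))))
  (@Cl.mk (nat_lit 0x2000d0008000b0003000c0007000b000500040008000e00050002000e0009) (nat_lit 0x90007001c0022) (nat_lit 16) Lb.e (@T16.mk En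
    (@En.i (nat_lit 3407) (nat_lit 14) (nat_lit 9))
    (@En.n l476 (nat_lit 1036) (nat_lit 1) (nat_lit 14))
    (@En.n l50 (nat_lit 3415) (nat_lit 2) (nat_lit 2))
    (@En.n l28 (nat_lit 4703) (nat_lit 3) (nat_lit 5))
    (@En.n l476 (nat_lit 5611) (nat_lit 1) (nat_lit 14))
    (@En.i (nat_lit 3414) (nat_lit 5) (nat_lit 8))
    (@En.n l28 (nat_lit 3416) (nat_lit 6) (nat_lit 4))
    (@En.n l4108 (nat_lit 12819) (nat_lit 7) (nat_lit 5))
    (@En.i (nat_lit 3002) (nat_lit 9) (nat_lit 11))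
    (@En.n l11008 (nat_lit 10010) (nat_lit 6) (nat_lit 7))
    (@En.n l11108 (nat_lit 12532) (nat_lit 11) (nat_lit 12))
    (@En.n l6822 (nat_lit 3413) (nat_lit 11) (nat_lit 3))
    (@En.n l4108 (nat_lit 4900) (nat_lit 0) (nat_lit 11))
    (@En.n l5014 (nat_lit 3420) (nat_lit 14) (nat_lit 8))
    (@En.i (nat_lit 7399) (nat_lit 12) (nat_lit 13))
    (@En.n l17 (nat_lit 3415) (nat_lit 15) (nat_lit 2))))
  (@Cl.mk (nat_lit 0x2000d0008000d0003000c00030008000c00040008000e00040002000e0008) (nat_lit 0x600100c0010) (nat_lit 16) Lb.e (@T16.mk En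
    (@En.i (nat_lit 4519) (nat_lit 14) (nat_lit 8))
    (@En.n l476 (nat_lit 1035) (nat_lit 1) (nat_lit 14))
    (@En.n l50 (nat_lit 3416) (nat_lit 2) (nat_lit 2))
    (@En.i (nat_lit 4701) (nat_lit 3) (nat_lit 4))
    (@En.n l476 (nat_lit 5579) (nat_lit 1) (nat_lit 14))
    (@En.i (nat_lit 4688) (nat_lit 5) (nat_lit 8))
    (@En.i (nat_lit 12815) (nat_lit 6) (nat_lit 4))
    (@En.i (nat_lit 3003) (nat_lit 8) (nat_lit 12))
    (@En.n l649 (nat_lit 8688) (nat_lit 5) (nat_lit 8))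
    (@En.n l10969 (nat_lit 3414) (nat_lit 9) (nat_lit 3))
    (@En.i (nat_lit 12530) (nat_lit 0) (nat_lit 12))
    (@En.n l1865 (nat_lit 3417) (nat_lit 11) (nat_lit 3))
    (@En.n l2038 (nat_lit 5330) (nat_lit 0) (nat_lit 13))
    (@En.i (nat_lit 3418) (nat_lit 14) (nat_lit 8))
    (@En.i (nat_lit 8099) (nat_lit 12) (nat_lit 13))
    (@En.n l17 (nat_lit 3416) (nat_lit 15) (nat_lit 2))))
  (@Cl.mk (nat_lit 0x2000d000c00090003000c00040008000c00040007000e00040002000e0008) (nat_lit 0x120000100c0010) (nat_lit 16) Lb.e (@T16.mk En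
    (@En.i (nat_lit 4518) (nat_lit 14) (nat_lit 8))
    (@En.n l3337 (nat_lit 1038) (nat_lit 1) (nat_lit 14))
    (@En.n l11 (nat_lit 3417) (nat_lit 2) (nat_lit 2))
    (@En.n l117 (nat_lit 4700) (nat_lit 3) (nat_lit 4))
    (@En.n l3337 (nat_lit 5596) (nat_lit 1) (nat_lit 14))
    (@En.i (nat_lit 4691) (nat_lit 11) (nat_lit 7))
    (@En.n l2576 (nat_lit 12816) (nat_lit 6) (nat_lit 4))
    (@En.n l2579 (nat_lit 3004) (nat_lit 8) (nat_lit 12))
    (@En.i (nat_lit 8687) (nat_lit 5) (nat_lit 8))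
    (@En.n l9182 (nat_lit 3390) (nat_lit 9) (nat_lit 4))
    (@En.n l14619 (nat_lit 3418) (nat_lit 11) (nat_lit 12))
    (@En.n l2869 (nat_lit 3416) (nat_lit 11) (nat_lit 3))
    (@En.n l2568 (nat_lit 5043) (nat_lit 0) (nat_lit 9))
    (@En.n l7882 (nat_lit 3414) (nat_lit 14) (nat_lit 12))
    (@En.i (nat_lit 8101) (nat_lit 12) (nat_lit 13))
    (@En.n l7 (nat_lit 3417) (nat_lit 15) (nat_lit 2))))
  (@Cl.mk (nat_lit 0x20008000d0009000c00030007000b000400080007000e00050002000e0009) (nat_lit 0x611a007000c0010) (nat_lit 16) Lb.e (@T16.mk En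
    (@En.i (nat_lit 3421) (nat_lit 14) (nat_lit 9))
    (@En.n l476 (nat_lit 1040) (nat_lit 1) (nat_lit 14))
    (@En.n l50 (nat_lit 3418) (nat_lit 2) (nat_lit 2))
    (@En.i (nat_lit 3422) (nat_lit 3) (nat_lit 5))
    (@En.n l1770 (nat_lit 11034) (nat_lit 5) (nat_lit 14))
    (@En.n l649 (nat_lit 3417) (nat_lit 5) (nat_lit 7))
    (@En.n l1769 (nat_lit 3992) (nat_lit 6) (nat_lit 8))
    (@En.i (nat_lit 12817) (nat_lit 7) (nat_lit 4))
    (@En.i (nat_lit 4337) (nat_lit 9) (nat_lit 11))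
    (@En.n l1867 (nat_lit 8689) (nat_lit 6) (nat_lit 7))
    (@En.n l9938 (nat_lit 3419) (nat_lit 10) (nat_lit 3))
    (@En.n l9928 (nat_lit 12529) (nat_lit 0) (nat_lit 12))
    (@En.n l5386 (nat_lit 3182) (nat_lit 13) (nat_lit 9))
    (@En.n l2038 (nat_lit 3415) (nat_lit 14) (nat_lit 13))
    (@En.i (nat_lit 9135) (nat_lit 12) (nat_lit 8))
    (@En.n l17 (nat_lit 3418) (nat_lit 15) (nat_lit 2))))
  (@Cl.mk (nat_lit 0x20008000d000b000a00030007000b000500080006000e00050002000e0009) (nat_lit 0x6140007000c0022) (nat_lit 16) Lb.e (@T16.mk En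
    (@En.i (nat_lit 3423) (nat_lit 14) (nat_lit 9))
    (@En.i (nat_lit 1037) (nat_lit 1) (nat_lit 14))
    (@En.n l28 (nat_lit 3419) (nat_lit 2) (nat_lit 2))
    (@En.i (nat_lit 3424) (nat_lit 3) (nat_lit 5))
    (@En.n l2038 (nat_lit 11032) (nat_lit 5) (nat_lit 14))
    (@En.n l617 (nat_lit 3390) (nat_lit 5) (nat_lit 6))
    (@En.n l5588 (nat_lit 3993) (nat_lit 6) (nat_lit 8))
    (@En.i (nat_lit 5263) (nat_lit 7) (nat_lit 5))
    (@En.n l10089 (nat_lit 4336) (nat_lit 9) (nat_lit 11))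
    (@En.i (nat_lit 8206) (nat_lit 6) (nat_lit 7))
    (@En.n l3340 (nat_lit 3418) (nat_lit 10) (nat_lit 3))
    (@En.n l3866 (nat_lit 4871) (nat_lit 0) (nat_lit 10))
    (@En.n l1112 (nat_lit 3420) (nat_lit 13) (nat_lit 11))
    (@En.n l9943 (nat_lit 3413) (nat_lit 14) (nat_lit 13))
    (@En.i (nat_lit 9133) (nat_lit 12) (nat_lit 8))
    (@En.n l50 (nat_lit 3419) (nat_lit 15) (nat_lit 2))))
  (@Cl.mk (nat_lit 0x20008000b0009000c0006000a0005000400080007000e00060002000e000a) (nat_lit 0x630a060010b0024) (nat_lit 16) Lb.e (@T16.mk En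
    (@En.i (nat_lit 4532) (nat_lit 14) (nat_lit 10))
    (@En.n l9771 (nat_lit 1045) (nat_lit 1) (nat_lit 14))
    (@En.n l3 (nat_lit 3420) (nat_lit 2) (nat_lit 2))
    (@En.i (nat_lit 4535) (nat_lit 3) (nat_lit 6))
    (@En.n l5572 (nat_lit 11033) (nat_lit 5) (nat_lit 14))
    (@En.n l37934 (nat_lit 3413) (nat_lit 5) (nat_lit 7))
    (@En.n l20142 (nat_lit 3419) (nat_lit 6) (nat_lit 8))
    (@En.n l9880 (nat_lit 3418) (nat_lit 7) (nat_lit 4))
    (@En.n l10348 (nat_lit 5215) (nat_lit 8) (nat_lit 5))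
    (@En.n l28782 (nat_lit 3341) (nat_lit 10) (nat_lit 10))
    (@En.n l8523 (nat_lit 8207) (nat_lit 7) (nat_lit 6))
    (@En.i (nat_lit 12531) (nat_lit 12) (nat_lit 12))
    (@En.n l396 (nat_lit 4878) (nat_lit 13) (nat_lit 9))
    (@En.i (nat_lit 5232) (nat_lit 7) (nat_lit 11))
    (@En.n l564 (nat_lit 9132) (nat_lit 12) (nat_lit 8))
    (@En.n l11 (nat_lit 3420) (nat_lit 15) (nat_lit 2))))
  (@Cl.mk (nat_lit 0x2000900090007000d0008000b000300070007000b000500090008000e0005) (nat_lit 0x770110000000060) (nat_lit 16) Lb.e (@T16.mk En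
    (@En.i (nat_lit 4523) (nat_lit 7) (nat_lit 5))
    (@En.n l31161 (nat_lit 7806) (nat_lit 1) (nat_lit 14))
    (@En.n l649 (nat_lit 4518) (nat_lit 2) (nat_lit 8))
    (@En.n l1769 (nat_lit 3987) (nat_lit 3) (nat_lit 9))
    (@En.i (nat_lit 5268) (nat_lit 4) (nat_lit 5))
    (@En.n l3471 (nat_lit 4234) (nat_lit 13) (nat_lit 11))
    (@En.n l61 (nat_lit 3418) (nat_lit 9) (nat_lit 7))
    (@En.n l1867 (nat_lit 7086) (nat_lit 7) (nat_lit 7))
    (@En.n l9938 (nat_lit 3423) (nat_lit 8) (nat_lit 3))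
    (@En.n l22810 (nat_lit 12555) (nat_lit 0) (nat_lit 11))
    (@En.n l5386 (nat_lit 3177) (nat_lit 11) (nat_lit 8))
    (@En.n l2038 (nat_lit 3407) (nat_lit 12) (nat_lit 13))
    (@En.n l7079 (nat_lit 9626) (nat_lit 13) (nat_lit 7))
    (@En.n l22811 (nat_lit 3401) (nat_lit 14) (nat_lit 9))
    (@En.n l6042 (nat_lit 4226) (nat_lit 5) (nat_lit 9))
    (@En.n l50 (nat_lit 3421) (nat_lit 15) (nat_lit 2))))
  (@Cl.mk (nat_lit 0x20007000d0008000b00030007000b000b00050009000800050005000e0009) (nat_lit 0xa0500080000050) (nat_lit 16) Lb.e (@T16.mk En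
    (@En.i (nat_lit 4523) (nat_lit 5) (nat_lit 9))
    (@En.n l476 (nat_lit 5045) (nat_lit 1) (nat_lit 14))
    (@En.n l3527 (nat_lit 4557) (nat_lit 11) (nat_lit 5))
    (@En.n l9882 (nat_lit 11490) (nat_lit 3) (nat_lit 5))
    (@En.n l3528 (nat_lit 4700) (nat_lit 4) (nat_lit 8))
    (@En.n l1769 (nat_lit 3996) (nat_lit 5) (nat_lit 9))
    (@En.i (nat_lit 11425) (nat_lit 6) (nat_lit 5))
    (@En.n l644 (nat_lit 3418) (nat_lit 8) (nat_lit 11))
    (@En.i (nat_lit 4462) (nat_lit 9) (nat_lit 11))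
    (@En.n l1140 (nat_lit 8150) (nat_lit 10) (nat_lit 7))
    (@En.n l9938 (nat_lit 3424) (nat_lit 10) (nat_lit 3))
    (@En.n l3066 (nat_lit 12527) (nat_lit 7) (nat_lit 11))
    (@En.i (nat_lit 5036) (nat_lit 13) (nat_lit 8))
    (@En.n l619 (nat_lit 4703) (nat_lit 14) (nat_lit 13))
    (@En.i (nat_lit 8632) (nat_lit 3) (nat_lit 7))
    (@En.n l17 (nat_lit 3422) (nat_lit 15) (nat_lit 2))))
  (@Cl.mk (nat_lit 0x2000900090007000d000a0009000300070007000b000600090007000e0005) (nat_lit 0x170170000000060) (nat_lit 16) Lb.e (@T16.mk En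
    (@En.n l4770 (nat_lit 4527) (nat_lit 7) (nat_lit 5))
    (@En.n l2038 (nat_lit 7804) (nat_lit 1) (nat_lit 14))
    (@En.n l617 (nat_lit 3373) (nat_lit 2) (nat_lit 7))
    (@En.n l10976 (nat_lit 3988) (nat_lit 3) (nat_lit 9))
    (@En.i (nat_lit 5261) (nat_lit 4) (nat_lit 6))
    (@En.n l564 (nat_lit 4229) (nat_lit 13) (nat_lit 11))
    (@En.n l644 (nat_lit 3419) (nat_lit 9) (nat_lit 7))
    (@En.i (nat_lit 8209) (nat_lit 7) (nat_lit 7))
    (@En.n l3340 (nat_lit 3421) (nat_lit 8) (nat_lit 3))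
    (@En.n l3866 (nat_lit 4938) (nat_lit 0) (nat_lit 9))
    (@En.n l1112 (nat_lit 4532) (nat_lit 11) (nat_lit 10))
    (@En.n l9943 (nat_lit 3410) (nat_lit 12) (nat_lit 13))
    (@En.n l12876 (nat_lit 9625) (nat_lit 13) (nat_lit 7))
    (@En.n l43029 (nat_lit 3399) (nat_lit 14) (nat_lit 9))
    (@En.n l26350 (nat_lit 2836) (nat_lit 5) (nat_lit 9))
    (@En.n l28 (nat_lit 3423) (nat_lit 15) (nat_lit 2))))
noncomputable def a214 : T16 Cl := @T16.mk Cl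
  (@Cl.mk (nat_lit 0x20007000d000a000900030007000b000b00060009000700050005000e0009) (nat_lit 0xa4400080000050) (nat_lit 16) Lb.e (@T16.mk En
    (@En.n l4770 (nat_lit 4527) (nat_lit 5) (nat_lit 9))
    (@En.n l8714 (nat_lit 5079) (nat_lit 1) (nat_lit 14))
    (@En.n l5759 (nat_lit 4556) (nat_lit 2) (nat_lit 5))
    (@En.n l5760 (nat_lit 11491) (nat_lit 3) (nat_lit 5))
    (@En.n l617 (nat_lit 3380) (nat_lit 4) (nat_lit 7))
    (@En.n l5760 (nat_lit 3994) (nat_lit 5) (nat_lit 9))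
    (@En.n l936 (nat_lit 4544) (nat_lit 6) (nat_lit 6))
    (@En.n l55 (nat_lit 3419) (nat_lit 8) (nat_lit 11))
    (@En.n l11357 (nat_lit 4463) (nat_lit 9) (nat_lit 11))
    (@En.i (nat_lit 8138) (nat_lit 10) (nat_lit 7))
    (@En.n l3340 (nat_lit 3422) (nat_lit 10) (nat_lit 3))
    (@En.n l3866 (nat_lit 4870) (nat_lit 0) (nat_lit 9))
    (@En.n l1112 (nat_lit 4535) (nat_lit 13) (nat_lit 10))
    (@En.n l14276 (nat_lit 3425) (nat_lit 14) (nat_lit 13))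
    (@En.n l5760 (nat_lit 9128) (nat_lit 3) (nat_lit 7))
    (@En.n l50 (nat_lit 3424) (nat_lit 15) (nat_lit 2))))
  (@Cl.mk (nat_lit 0x2000d000900080003000b0007000b000b00070005000800050005000e0009) (nat_lit 0x930000080020050) (nat_lit 16) Lb.e (@T16.mk En
    (@En.i (nat_lit 4526) (nat_lit 4) (nat_lit 9))
    (@En.n l134 (nat_lit 5082) (nat_lit 1) (nat_lit 14))
    (@En.n l11 (nat_lit 4554) (nat_lit 11) (nat_lit 5))
    (@En.i (nat_lit 10908) (nat_lit 3) (nat_lit 5))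
    (@En.i (nat_lit 3389) (nat_lit 10) (nat_lit 8))
    (@En.n l936 (nat_lit 4700) (nat_lit 5) (nat_lit 5))
    (@En.n l19906 (nat_lit 10902) (nat_lit 6) (nat_lit 7))
    (@En.n l2691 (nat_lit 3413) (nat_lit 8) (nat_lit 11))
    (@En.n l7630 (nat_lit 4465) (nat_lit 9) (nat_lit 11))
    (@En.i (nat_lit 10009) (nat_lit 14) (nat_lit 7))
    (@En.n l20621 (nat_lit 4535) (nat_lit 11) (nat_lit 11))
    (@En.n l4189 (nat_lit 4703) (nat_lit 11) (nat_lit 3))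
    (@En.n l28430 (nat_lit 4877) (nat_lit 0) (nat_lit 8))
    (@En.n l28431 (nat_lit 5227) (nat_lit 14) (nat_lit 9))
    (@En.i (nat_lit 9409) (nat_lit 2) (nat_lit 13))
    (@En.n l7 (nat_lit 3425) (nat_lit 15) (nat_lit 2))))
  (@Cl.mk (nat_lit 0x20006000e00060002000d0007000e00030002000e000a0002000a000e0009) (nat_lit 0x80060700410196) (nat_lit 16) Lb.e (@T16.mk En
    (@En.n l18571 (nat_lit 2920) (nat_lit 13) (nat_lit 9))
    (@En.i (nat_lit 1834) (nat_lit 1) (nat_lit 14))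
    (@En.i (nat_lit 1820) (nat_lit 2) (nat_lit 10))
    (@En.n l50 (nat_lit 3426) (nat_lit 3) (nat_lit 2))
    (@En.i (nat_lit 1895) (nat_lit 4) (nat_lit 10))
    (@En.i (nat_lit 11368) (nat_lit 1) (nat_lit 14))
    (@En.n l28 (nat_lit 3426) (nat_lit 6) (nat_lit 2))
    (@En.n l7644 (nat_lit 2909) (nat_lit 7) (nat_lit 3))
    (@En.n l7507 (nat_lit 14080) (nat_lit 0) (nat_lit 14))
    (@En.i (nat_lit 1697) (nat_lit 14) (nat_lit 7))
    (@En.i (nat_lit 12400) (nat_lit 11) (nat_lit 13))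
    (@En.n l725 (nat_lit 3426) (nat_lit 11) (nat_lit 2))
    (@En.n l17 (nat_lit 2034) (nat_lit 13) (nat_lit 6))
    (@En.i (nat_lit 3391) (nat_lit 1) (nat_lit 14))
    (@En.n l2642 (nat_lit 3428) (nat_lit 2) (nat_lit 6))
    (@En.n l3 (nat_lit 3426) (nat_lit 15) (nat_lit 2))))
  (@Cl.mk (nat_lit 0x2000d000d000700030003000d000a000d0003000b000300090006000e0005) (nat_lit 0x3680000070) (nat_lit 16) Lb.e (@T16.mk En
    (@En.i (nat_lit 7382) (nat_lit 4) (nat_lit 5))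
    (@En.n l936 (nat_lit 7030) (nat_lit 1) (nat_lit 14))
    (@En.i (nat_lit 3436) (nat_lit 2) (nat_lit 6))
    (@En.n l19366 (nat_lit 7777) (nat_lit 3) (nat_lit 9))
    (@En.i (nat_lit 3430) (nat_lit 4) (nat_lit 3))
    (@En.n l1101 (nat_lit 7271) (nat_lit 0) (nat_lit 11))
    (@En.n l4538 (nat_lit 3432) (nat_lit 6) (nat_lit 3))
    (@En.i (nat_lit 1837) (nat_lit 0) (nat_lit 13))
    (@En.i (nat_lit 2386) (nat_lit 9) (nat_lit 10))
    (@En.n l8087 (nat_lit 10010) (nat_lit 10) (nat_lit 13))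
    (@En.n l11 (nat_lit 3433) (nat_lit 13) (nat_lit 3))
    (@En.n l5870 (nat_lit 3428) (nat_lit 11) (nat_lit 3))
    (@En.i (nat_lit 6043) (nat_lit 0) (nat_lit 7))
    (@En.n l2691 (nat_lit 3428) (nat_lit 14) (nat_lit 13))
    (@En.n l936 (nat_lit 12402) (nat_lit 2) (nat_lit 13))
    (@En.n l17 (nat_lit 3427) (nat_lit 15) (nat_lit 2))))
  (@Cl.mk (nat_lit 0x2000d0006000e00030002000d000a000d0003000b0003000a0006000e0005) (nat_lit 0xb05003680000070) (nat_lit 16) Lb.e (@T16.mk En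
    (@En.i (nat_lit 7384) (nat_lit 5) (nat_lit 5))
    (@En.i (nat_lit 7027) (nat_lit 1) (nat_lit 14))
    (@En.i (nat_lit 3438) (nat_lit 7) (nat_lit 6))
    (@En.n l9871 (nat_lit 8312) (nat_lit 3) (nat_lit 10))
    (@En.i (nat_lit 3429) (nat_lit 9) (nat_lit 3))
    (@En.i (nat_lit 7273) (nat_lit 11) (nat_lit 11))
    (@En.n l1251 (nat_lit 3431) (nat_lit 6) (nat_lit 3))
    (@En.n l2125 (nat_lit 1836) (nat_lit 0) (nat_lit 13))
    (@En.i (nat_lit 2432) (nat_lit 14) (nat_lit 10))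
    (@En.i (nat_lit 10014) (nat_lit 10) (nat_lit 13))
    (@En.n l11 (nat_lit 3428) (nat_lit 10) (nat_lit 2))
    (@En.n l1992 (nat_lit 3427) (nat_lit 11) (nat_lit 3))
    (@En.n l619 (nat_lit 13400) (nat_lit 0) (nat_lit 14))
    (@En.n l1769 (nat_lit 6032) (nat_lit 14) (nat_lit 6))
    (@En.n l2125 (nat_lit 12401) (nat_lit 2) (nat_lit 13))
    (@En.n l17 (nat_lit 3428) (nat_lit 15) (nat_lit 2))))
  (@Cl.mk (nat_lit 0x2000c000a000d000a00040003000a0006000e00060002000d0006000e0003) (nat_lit 0x669000007000030) (nat_lit 16) Lb.e (@T16.mk En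
    (@En.n l1992 (nat_lit 3430) (nat_lit 11) (nat_lit 3))
    (@En.n l619 (nat_lit 13401) (nat_lit 0) (nat_lit 14))
    (@En.n l1184 (nat_lit 6031) (nat_lit 14) (nat_lit 6))
    (@En.n l3928 (nat_lit 12405) (nat_lit 2) (nat_lit 13))
    (@En.n l17 (nat_lit 3429) (nat_lit 4) (nat_lit 2))
    (@En.n l24321 (nat_lit 4605) (nat_lit 5) (nat_lit 6))
    (@En.i (nat_lit 7031) (nat_lit 1) (nat_lit 14))
    (@En.i (nat_lit 4602) (nat_lit 7) (nat_lit 6))
    (@En.n l23571 (nat_lit 8202) (nat_lit 3) (nat_lit 10))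
    (@En.n l50 (nat_lit 3428) (nat_lit 4) (nat_lit 3))
    (@En.i (nat_lit 2134) (nat_lit 0) (nat_lit 4))
    (@En.n l217 (nat_lit 7431) (nat_lit 12) (nat_lit 10))
    (@En.n l16924 (nat_lit 1833) (nat_lit 8) (nat_lit 13))
    (@En.i (nat_lit 2421) (nat_lit 14) (nat_lit 10))
    (@En.i (nat_lit 9593) (nat_lit 10) (nat_lit 12))
    (@En.n l11 (nat_lit 3429) (nat_lit 15) (nat_lit 2))))
  (@Cl.mk (nat_lit 0x2000d000d000700030003000c000a000d000a0004000300090006000e0006) (nat_lit 0x10006692000070) (nat_lit 16) Lb.e (@T16.mk En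
    (@En.n l30133 (nat_lit 4606) (nat_lit 4) (nat_lit 6))
    (@En.n l936 (nat_lit 7032) (nat_lit 1) (nat_lit 14))
    (@En.i (nat_lit 3437) (nat_lit 2) (nat_lit 6))
    (@En.n l29817 (nat_lit 8203) (nat_lit 3) (nat_lit 9))
    (@En.n l50 (nat_lit 3427) (nat_lit 4) (nat_lit 3))
    (@En.n l15450 (nat_lit 2133) (nat_lit 0) (nat_lit 4))
    (@En.n l17938 (nat_lit 7113) (nat_lit 11) (nat_lit 10))
    (@En.n l1100 (nat_lit 1835) (nat_lit 8) (nat_lit 13))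
    (@En.i (nat_lit 2392) (nat_lit 9) (nat_lit 10))
    (@En.n l1100 (nat_lit 9597) (nat_lit 10) (nat_lit 12))
    (@En.n l11 (nat_lit 3435) (nat_lit 13) (nat_lit 3))
    (@En.n l5870 (nat_lit 3429) (nat_lit 0) (nat_lit 3))
    (@En.i (nat_lit 7039) (nat_lit 0) (nat_lit 7))
    (@En.n l2691 (nat_lit 3429) (nat_lit 3) (nat_lit 13))
    (@En.n l936 (nat_lit 12410) (nat_lit 2) (nat_lit 13))
    (@En.n l17 (nat_lit 3430) (nat_lit 15) (nat_lit 2))))
  (@Cl.mk (nat_lit 0x2000d0006000e00030002000d000c000b0003000b0004000a0005000e0005) (nat_lit 0x3003710000080) (nat_lit 16) Lb.e (@T16.mk En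
    (@En.n l18631 (nat_lit 7407) (nat_lit 5) (nat_lit 5))
    (@En.n l566 (nat_lit 7028) (nat_lit 1) (nat_lit 14))
    (@En.n l566 (nat_lit 3654) (nat_lit 7) (nat_lit 5))
    (@En.i (nat_lit 8313) (nat_lit 3) (nat_lit 10))
    (@En.n l1491 (nat_lit 3454) (nat_lit 9) (nat_lit 4))
    (@En.n l1361 (nat_lit 5413) (nat_lit 11) (nat_lit 11))
    (@En.n l4100 (nat_lit 3428) (nat_lit 6) (nat_lit 3))
    (@En.n l1504 (nat_lit 2101) (nat_lit 0) (nat_lit 11))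
    (@En.n l18632 (nat_lit 3429) (nat_lit 14) (nat_lit 12))
    (@En.n l4386 (nat_lit 8213) (nat_lit 10) (nat_lit 13))
    (@En.n l17 (nat_lit 3431) (nat_lit 10) (nat_lit 2))
    (@En.n l7691 (nat_lit 3432) (nat_lit 11) (nat_lit 3))
    (@En.i (nat_lit 13402) (nat_lit 0) (nat_lit 14))
    (@En.n l18633 (nat_lit 6033) (nat_lit 14) (nat_lit 6))
    (@En.n l18634 (nat_lit 12404) (nat_lit 2) (nat_lit 13))
    (@En.n l7 (nat_lit 3431) (nat_lit 15) (nat_lit 2))))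
  (@Cl.mk (nat_lit 0x2000d000d000700030003000d000c000b0003000b000400090005000e0005) (nat_lit 0x10003710000080) (nat_lit 16) Lb.e (@T16.mk En
    (@En.n l13917 (nat_lit 7406) (nat_lit 4) (nat_lit 5))
    (@En.n l11792 (nat_lit 7029) (nat_lit 1) (nat_lit 14))
    (@En.n l725 (nat_lit 3655) (nat_lit 2) (nat_lit 5))
    (@En.n l1075 (nat_lit 7776) (nat_lit 3) (nat_lit 9))
    (@En.n l15223 (nat_lit 2403) (nat_lit 4) (nat_lit 4))
    (@En.i (nat_lit 5409) (nat_lit 10) (nat_lit 11))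
    (@En.n l11722 (nat_lit 3427) (nat_lit 6) (nat_lit 3))
    (@En.n l3866 (nat_lit 2102) (nat_lit 0) (nat_lit 11))
    (@En.n l16314 (nat_lit 3430) (nat_lit 9) (nat_lit 12))
    (@En.n l1353 (nat_lit 8212) (nat_lit 10) (nat_lit 13))
    (@En.n l18 (nat_lit 3434) (nat_lit 13) (nat_lit 3))
    (@En.n l10571 (nat_lit 3431) (nat_lit 11) (nat_lit 3))
    (@En.i (nat_lit 7038) (nat_lit 0) (nat_lit 7))
    (@En.n l18630 (nat_lit 3431) (nat_lit 14) (nat_lit 13))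
    (@En.n l11792 (nat_lit 12407) (nat_lit 2) (nat_lit 13))
    (@En.n l28 (nat_lit 3432) (nat_lit 15) (nat_lit 2))))
  (@Cl.mk (nat_lit 0x200080003000d000a000d0003000b000300080006000e00050002000e000d) (nat_lit 0x202690000070051) (nat_lit 16) Lb.e (@T16.mk En
    (@En.n l68 (nat_lit 3427) (nat_lit 14) (nat_lit 13))
    (@En.i (nat_lit 12696) (nat_lit 1) (nat_lit 14))
    (@En.n l17 (nat_lit 3433) (nat_lit 2) (nat_lit 2))
    (@En.n l9885 (nat_lit 7385) (nat_lit 3) (nat_lit 5))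
    (@En.n l3015 (nat_lit 7066) (nat_lit 5) (nat_lit 14))
    (@En.n l3082 (nat_lit 3439) (nat_lit 5) (nat_lit 6))
    (@En.n l10023 (nat_lit 7779) (nat_lit 6) (nat_lit 8))
    (@En.i (nat_lit 3435) (nat_lit 7) (nat_lit 3))
    (@En.n l1101 (nat_lit 7270) (nat_lit 0) (nat_lit 11))
    (@En.n l4538 (nat_lit 3434) (nat_lit 9) (nat_lit 3))
    (@En.i (nat_lit 1840) (nat_lit 11) (nat_lit 13))
    (@En.n l3571 (nat_lit 2394) (nat_lit 12) (nat_lit 10))
    (@En.n l255 (nat_lit 3418) (nat_lit 13) (nat_lit 13))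
    (@En.i (nat_lit 3427) (nat_lit 10) (nat_lit 3))
    (@En.i (nat_lit 1921) (nat_lit 12) (nat_lit 8))
    (@En.n l67 (nat_lit 3433) (nat_lit 15) (nat_lit 2))))
  (@Cl.mk (nat_lit 0x200080003000d000c000b0003000b000400080005000e00050002000e000d) (nat_lit 0x202850000080051) (nat_lit 16) Lb.e (@T16.mk En
    (@En.n l396 (nat_lit 3432) (nat_lit 14) (nat_lit 13))
    (@En.n l17942 (nat_lit 10534) (nat_lit 1) (nat_lit 14))
    (@En.n l28 (nat_lit 3434) (nat_lit 2) (nat_lit 2))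
    (@En.n l5760 (nat_lit 7405) (nat_lit 3) (nat_lit 5))
    (@En.n l2038 (nat_lit 7067) (nat_lit 5) (nat_lit 14))
    (@En.n l725 (nat_lit 3656) (nat_lit 5) (nat_lit 5))
    (@En.n l3082 (nat_lit 7778) (nat_lit 6) (nat_lit 8))
    (@En.n l5390 (nat_lit 2399) (nat_lit 7) (nat_lit 4))
    (@En.i (nat_lit 5411) (nat_lit 9) (nat_lit 11))
    (@En.n l11722 (nat_lit 3433) (nat_lit 9) (nat_lit 3))
    (@En.n l3866 (nat_lit 4869) (nat_lit 11) (nat_lit 11))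
    (@En.n l16314 (nat_lit 3435) (nat_lit 12) (nat_lit 12))
    (@En.i (nat_lit 3419) (nat_lit 13) (nat_lit 13))
    (@En.i (nat_lit 3432) (nat_lit 10) (nat_lit 3))
    (@En.n l3082 (nat_lit 1923) (nat_lit 12) (nat_lit 8))
    (@En.n l50 (nat_lit 3434) (nat_lit 15) (nat_lit 2))))
  (@Cl.mk (nat_lit 0x200080003000c000a000d000a0004000300080006000e00060002000e000d) (nat_lit 0x207580000030051) (nat_lit 16) Lb.e (@T16.mk En
    (@En.n l68 (nat_lit 3430) (nat_lit 14) (nat_lit 13))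
    (@En.n l6573 (nat_lit 12700) (nat_lit 1) (nat_lit 14))
    (@En.n l17 (nat_lit 3435) (nat_lit 2) (nat_lit 2))
    (@En.n l17937 (nat_lit 4608) (nat_lit 3) (nat_lit 6))
    (@En.n l3015 (nat_lit 7054) (nat_lit 5) (nat_lit 14))
    (@En.n l6864 (nat_lit 4616) (nat_lit 5) (nat_lit 6))
    (@En.n l6573 (nat_lit 8214) (nat_lit 6) (nat_lit 8))
    (@En.n l50 (nat_lit 3433) (nat_lit 7) (nat_lit 3))
    (@En.n l10986 (nat_lit 2137) (nat_lit 8) (nat_lit 4))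
    (@En.n l17938 (nat_lit 7112) (nat_lit 10) (nat_lit 10))
    (@En.n l1100 (nat_lit 1838) (nat_lit 11) (nat_lit 13))
    (@En.n l3571 (nat_lit 2393) (nat_lit 12) (nat_lit 10))
    (@En.n l255 (nat_lit 12817) (nat_lit 13) (nat_lit 12))
    (@En.i (nat_lit 3430) (nat_lit 10) (nat_lit 3))
    (@En.n l17939 (nat_lit 1922) (nat_lit 12) (nat_lit 8))
    (@En.n l67 (nat_lit 3435) (nat_lit 15) (nat_lit 2))))
  (@Cl.mk (nat_lit 0x2000d000d000b00030003000c000a0005000d0004000c00030006000e0004) (nat_lit 0x2003609030070) (nat_lit 16) Lb.e (@T16.mk En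
    (@En.n l1075 (nat_lit 7379) (nat_lit 4) (nat_lit 4))
    (@En.i (nat_lit 3763) (nat_lit 1) (nat_lit 14))
    (@En.n l19455 (nat_lit 968) (nat_lit 12) (nat_lit 6))
    (@En.i (nat_lit 3437) (nat_lit 3) (nat_lit 3))
    (@En.n l3082 (nat_lit 4004) (nat_lit 0) (nat_lit 12))
    (@En.n l18772 (nat_lit 3655) (nat_lit 5) (nat_lit 4))
    (@En.n l1098 (nat_lit 3427) (nat_lit 7) (nat_lit 13))
    (@En.i (nat_lit 4623) (nat_lit 7) (nat_lit 5))
    (@En.n l7221 (nat_lit 2382) (nat_lit 9) (nat_lit 10))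
    (@En.n l24320 (nat_lit 7450) (nat_lit 10) (nat_lit 12))
    (@En.n l5760 (nat_lit 3439) (nat_lit 13) (nat_lit 3))
    (@En.n l5870 (nat_lit 3438) (nat_lit 0) (nat_lit 3))
    (@En.n l55 (nat_lit 4618) (nat_lit 0) (nat_lit 11))
    (@En.n l2691 (nat_lit 3438) (nat_lit 3) (nat_lit 13))
    (@En.i (nat_lit 11823) (nat_lit 2) (nat_lit 13))
    (@En.n l17 (nat_lit 3436) (nat_lit 15) (nat_lit 2))))
  (@Cl.mk (nat_lit 0x2000d000d000b00030003000b000a0005000d000b000500030006000e0005) (nat_lit 0x200660a000070) (nat_lit 16) Lb.e (@T16.mk En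
    (@En.n l8605 (nat_lit 4603) (nat_lit 4) (nat_lit 5))
    (@En.i (nat_lit 3762) (nat_lit 1) (nat_lit 14))
    (@En.n l6864 (nat_lit 2699) (nat_lit 12) (nat_lit 6))
    (@En.n l50 (nat_lit 3436) (nat_lit 3) (nat_lit 3))
    (@En.n l15450 (nat_lit 2127) (nat_lit 0) (nat_lit 5))
    (@En.n l24319 (nat_lit 7376) (nat_lit 10) (nat_lit 11))
    (@En.n l1098 (nat_lit 3430) (nat_lit 7) (nat_lit 13))
    (@En.i (nat_lit 4622) (nat_lit 7) (nat_lit 5))
    (@En.n l7221 (nat_lit 2387) (nat_lit 9) (nat_lit 10))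
    (@En.n l24320 (nat_lit 9596) (nat_lit 10) (nat_lit 11))
    (@En.n l1964 (nat_lit 4616) (nat_lit 13) (nat_lit 3))
    (@En.n l5870 (nat_lit 4602) (nat_lit 0) (nat_lit 3))
    (@En.n l55 (nat_lit 4617) (nat_lit 0) (nat_lit 11))
    (@En.n l2691 (nat_lit 4602) (nat_lit 3) (nat_lit 13))
    (@En.n l6867 (nat_lit 12432) (nat_lit 2) (nat_lit 13))
    (@En.n l17 (nat_lit 3437) (nat_lit 15) (nat_lit 2))))
  (@Cl.mk (nat_lit 0x2000c000a0006000d0004000c00030006000e00040002000d000a000e0003) (nat_lit 0x36090300700b150) (nat_lit 16) Lb.e (@T16.mk En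
    (@En.n l1992 (nat_lit 3436) (nat_lit 11) (nat_lit 3))
    (@En.n l2038 (nat_lit 13398) (nat_lit 0) (nat_lit 14))
    (@En.n l2576 (nat_lit 2410) (nat_lit 14) (nat_lit 10))
    (@En.i (nat_lit 11824) (nat_lit 2) (nat_lit 13))
    (@En.n l17 (nat_lit 3438) (nat_lit 4) (nat_lit 2))
    (@En.i (nat_lit 7381) (nat_lit 5) (nat_lit 4))
    (@En.i (nat_lit 3766) (nat_lit 1) (nat_lit 14))
    (@En.i (nat_lit 971) (nat_lit 12) (nat_lit 6))
    (@En.i (nat_lit 4602) (nat_lit 8) (nat_lit 3))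
    (@En.n l3902 (nat_lit 4009) (nat_lit 0) (nat_lit 12))
    (@En.i (nat_lit 3654) (nat_lit 10) (nat_lit 4))
    (@En.n l476 (nat_lit 3428) (nat_lit 7) (nat_lit 13))
    (@En.n l1769 (nat_lit 7534) (nat_lit 7) (nat_lit 6))
    (@En.i (nat_lit 2383) (nat_lit 14) (nat_lit 10))
    (@En.n l8243 (nat_lit 6864) (nat_lit 10) (nat_lit 12))
    (@En.n l11 (nat_lit 3438) (nat_lit 15) (nat_lit 2))))
  (@Cl.mk (nat_lit 0x2000c0003000c000a0004000d0004000c00030006000e00040002000e000d) (nat_lit 0x20250a030040091) (nat_lit 16) Lb.e (@T16.mk En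
    (@En.n l9926 (nat_lit 3436) (nat_lit 14) (nat_lit 13))
    (@En.i (nat_lit 12695) (nat_lit 1) (nat_lit 14))
    (@En.n l11 (nat_lit 3439) (nat_lit 2) (nat_lit 2))
    (@En.n l117 (nat_lit 7380) (nat_lit 3) (nat_lit 4))
    (@En.n l3348 (nat_lit 3765) (nat_lit 1) (nat_lit 14))
    (@En.n l253 (nat_lit 966) (nat_lit 12) (nat_lit 6))
    (@En.n l2576 (nat_lit 4616) (nat_lit 6) (nat_lit 3))
    (@En.i (nat_lit 4002) (nat_lit 0) (nat_lit 12))
    (@En.n l5646 (nat_lit 3656) (nat_lit 8) (nat_lit 4))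
    (@En.n l3325 (nat_lit 3433) (nat_lit 10) (nat_lit 13))
    (@En.n l3348 (nat_lit 4620) (nat_lit 10) (nat_lit 4))
    (@En.n l1253 (nat_lit 2385) (nat_lit 12) (nat_lit 10))
    (@En.i (nat_lit 3417) (nat_lit 13) (nat_lit 12))
    (@En.n l3348 (nat_lit 3436) (nat_lit 10) (nat_lit 3))
    (@En.i (nat_lit 902) (nat_lit 12) (nat_lit 12))
    (@En.n l7 (nat_lit 3439) (nat_lit 15) (nat_lit 2))))
noncomputable def a215 : T16 Cl := @T16.mk Cl
  (@Cl.mk (nat_lit 0x2000b000b00040008000c00050005000e00040002000e00080002000e000c) (nat_lit 0x5105100c0026032) (nat_lit 16) Lb.e (@T16.mk En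
    (@En.i (nat_lit 3390) (nat_lit 14) (nat_lit 12))
    (@En.i (nat_lit 2517) (nat_lit 1) (nat_lit 14))
    (@En.n l50 (nat_lit 3440) (nat_lit 2) (nat_lit 2))
    (@En.i (nat_lit 3394) (nat_lit 14) (nat_lit 8))
    (@En.i (nat_lit 1266) (nat_lit 1) (nat_lit 14))
    (@En.n l28 (nat_lit 3440) (nat_lit 5) (nat_lit 2))
    (@En.i (nat_lit 3441) (nat_lit 6) (nat_lit 4))
    (@En.n l2038 (nat_lit 5317) (nat_lit 1) (nat_lit 14))
    (@En.n l152 (nat_lit 3397) (nat_lit 11) (nat_lit 5))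
    (@En.i (nat_lit 5219) (nat_lit 9) (nat_lit 5))
    (@En.i (nat_lit 967) (nat_lit 11) (nat_lit 12))
    (@En.i (nat_lit 2873) (nat_lit 12) (nat_lit 8))
    (@En.n l1643 (nat_lit 3417) (nat_lit 9) (nat_lit 4))
    (@En.n l1867 (nat_lit 3396) (nat_lit 14) (nat_lit 11))
    (@En.i (nat_lit 3419) (nat_lit 12) (nat_lit 11))
    (@En.n l17 (nat_lit 3440) (nat_lit 15) (nat_lit 2))))
  (@Cl.mk (nat_lit 0x2000a000a00040008000c000c0006000600040004000e00080002000e000c) (nat_lit 0x510382000015014) (nat_lit 16) Lb.e (@T16.mk En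
    (@En.i (nat_lit 3380) (nat_lit 14) (nat_lit 12))
    (@En.i (nat_lit 756) (nat_lit 1) (nat_lit 14))
    (@En.n l50 (nat_lit 3441) (nat_lit 2) (nat_lit 2))
    (@En.i (nat_lit 3370) (nat_lit 3) (nat_lit 8))
    (@En.n l8714 (nat_lit 1277) (nat_lit 1) (nat_lit 14))
    (@En.n l14268 (nat_lit 3443) (nat_lit 12) (nat_lit 4))
    (@En.n l9938 (nat_lit 3449) (nat_lit 6) (nat_lit 4))
    (@En.n l5761 (nat_lit 3442) (nat_lit 10) (nat_lit 6))
    (@En.n l936 (nat_lit 3448) (nat_lit 8) (nat_lit 6))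
    (@En.n l55 (nat_lit 3440) (nat_lit 10) (nat_lit 12))
    (@En.i (nat_lit 2904) (nat_lit 11) (nat_lit 12))
    (@En.i (nat_lit 3605) (nat_lit 12) (nat_lit 8))
    (@En.n l615 (nat_lit 4700) (nat_lit 9) (nat_lit 4))
    (@En.n l1867 (nat_lit 3378) (nat_lit 6) (nat_lit 10))
    (@En.i (nat_lit 3424) (nat_lit 12) (nat_lit 10))
    (@En.n l17 (nat_lit 3441) (nat_lit 15) (nat_lit 2))))
  (@Cl.mk (nat_lit 0x200050009000d000d000600030003000e00070002000e000b0002000e000a) (nat_lit 0x23500010014066) (nat_lit 16) Lb.e (@T16.mk En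
    (@En.n l766 (nat_lit 3441) (nat_lit 14) (nat_lit 10))
    (@En.i (nat_lit 3392) (nat_lit 1) (nat_lit 14))
    (@En.n l18 (nat_lit 3442) (nat_lit 2) (nat_lit 2))
    (@En.n l5 (nat_lit 3392) (nat_lit 3) (nat_lit 11))
    (@En.i (nat_lit 762) (nat_lit 1) (nat_lit 14))
    (@En.n l7 (nat_lit 3442) (nat_lit 5) (nat_lit 2))
    (@En.i (nat_lit 3367) (nat_lit 6) (nat_lit 7))
    (@En.i (nat_lit 1275) (nat_lit 8) (nat_lit 14))
    (@En.i (nat_lit 3444) (nat_lit 8) (nat_lit 3))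
    (@En.n l1253 (nat_lit 3397) (nat_lit 9) (nat_lit 3))
    (@En.n l117 (nat_lit 4979) (nat_lit 0) (nat_lit 6))
    (@En.n l1722 (nat_lit 3397) (nat_lit 12) (nat_lit 13))
    (@En.i (nat_lit 2899) (nat_lit 13) (nat_lit 13))
    (@En.n l766 (nat_lit 3517) (nat_lit 14) (nat_lit 9))
    (@En.n l253 (nat_lit 4696) (nat_lit 13) (nat_lit 5))
    (@En.n l3 (nat_lit 3442) (nat_lit 15) (nat_lit 2))))
  (@Cl.mk (nat_lit 0x2000700070004000e00080002000e000c00020009000900040008000e000c) (nat_lit 0xc10230000699) (nat_lit 16) Lb.e (@T16.mk En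
    (@En.n l6833 (nat_lit 3441) (nat_lit 10) (nat_lit 12))
    (@En.n l3544 (nat_lit 2912) (nat_lit 11) (nat_lit 14))
    (@En.n l2641 (nat_lit 3604) (nat_lit 2) (nat_lit 8))
    (@En.n l6834 (nat_lit 4559) (nat_lit 3) (nat_lit 4))
    (@En.n l698 (nat_lit 3445) (nat_lit 7) (nat_lit 9))
    (@En.n l1002 (nat_lit 4556) (nat_lit 12) (nat_lit 9))
    (@En.n l50 (nat_lit 3443) (nat_lit 6) (nat_lit 2))
    (@En.n l564 (nat_lit 3395) (nat_lit 8) (nat_lit 12))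
    (@En.n l1002 (nat_lit 754) (nat_lit 1) (nat_lit 14))
    (@En.n l28 (nat_lit 3443) (nat_lit 9) (nat_lit 2))
    (@En.n l6835 (nat_lit 31) (nat_lit 3) (nat_lit 8))
    (@En.n l6836 (nat_lit 3024) (nat_lit 12) (nat_lit 14))
    (@En.n l1002 (nat_lit 3447) (nat_lit 5) (nat_lit 4))
    (@En.n l6837 (nat_lit 3444) (nat_lit 9) (nat_lit 7))
    (@En.i (nat_lit 3446) (nat_lit 7) (nat_lit 7))
    (@En.n l3 (nat_lit 3443) (nat_lit 15) (nat_lit 2))))
  (@Cl.mk (nat_lit 0x200050009000e000d000200070003000e00070002000e000b0002000e0009) (nat_lit 0x284000c0054071) (nat_lit 16) Lb.e (@T16.mk En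
    (@En.n l2359 (nat_lit 3443) (nat_lit 5) (nat_lit 9))
    (@En.i (nat_lit 3383) (nat_lit 1) (nat_lit 14))
    (@En.n l18 (nat_lit 3444) (nat_lit 2) (nat_lit 2))
    (@En.n l5 (nat_lit 3383) (nat_lit 3) (nat_lit 11))
    (@En.i (nat_lit 757) (nat_lit 1) (nat_lit 14))
    (@En.n l7 (nat_lit 3444) (nat_lit 5) (nat_lit 2))
    (@En.n l2360 (nat_lit 3368) (nat_lit 6) (nat_lit 7))
    (@En.n l127 (nat_lit 3022) (nat_lit 8) (nat_lit 14))
    (@En.n l11 (nat_lit 3442) (nat_lit 8) (nat_lit 3))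
    (@En.n l712 (nat_lit 5008) (nat_lit 6) (nat_lit 7))
    (@En.n l207 (nat_lit 3444) (nat_lit 10) (nat_lit 2))
    (@En.n l198 (nat_lit 3442) (nat_lit 12) (nat_lit 13))
    (@En.i (nat_lit 2906) (nat_lit 13) (nat_lit 14))
    (@En.n l766 (nat_lit 3516) (nat_lit 2) (nat_lit 9))
    (@En.n l253 (nat_lit 4784) (nat_lit 3) (nat_lit 5))
    (@En.n l3 (nat_lit 3444) (nat_lit 15) (nat_lit 2))))
  (@Cl.mk (nat_lit 0x20005000e00090002000e000d0002000900030007000e000b0002000e0007) (nat_lit 0x24016070082070) (nat_lit 16) Lb.e (@T16.mk En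
    (@En.i (nat_lit 3443) (nat_lit 14) (nat_lit 7))
    (@En.n l1003 (nat_lit 3378) (nat_lit 1) (nat_lit 14))
    (@En.n l3 (nat_lit 3445) (nat_lit 2) (nat_lit 2))
    (@En.n l1004 (nat_lit 3378) (nat_lit 3) (nat_lit 11))
    (@En.i (nat_lit 2910) (nat_lit 5) (nat_lit 14))
    (@En.i (nat_lit 3602) (nat_lit 5) (nat_lit 7))
    (@En.n l1353 (nat_lit 3379) (nat_lit 6) (nat_lit 3))
    (@En.i (nat_lit 4992) (nat_lit 12) (nat_lit 9))
    (@En.n l50 (nat_lit 3445) (nat_lit 8) (nat_lit 2))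
    (@En.n l564 (nat_lit 3379) (nat_lit 10) (nat_lit 13))
    (@En.n l1006 (nat_lit 758) (nat_lit 1) (nat_lit 14))
    (@En.n l28 (nat_lit 3445) (nat_lit 11) (nat_lit 2))
    (@En.n l287 (nat_lit 3368) (nat_lit 13) (nat_lit 9))
    (@En.n l862 (nat_lit 3665) (nat_lit 1) (nat_lit 14))
    (@En.n l1011 (nat_lit 4726) (nat_lit 5) (nat_lit 5))
    (@En.n l725 (nat_lit 3445) (nat_lit 15) (nat_lit 2))))
  (@Cl.mk (nat_lit 0x20009000c000a000500090004000d000700060003000e00070002000e000b) (nat_lit 0x6020402000b0024) (nat_lit 16) Lb.e (@T16.mk En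
    (@En.n l564 (nat_lit 4588) (nat_lit 14) (nat_lit 11))
    (@En.n l2571 (nat_lit 1750) (nat_lit 1) (nat_lit 14))
    (@En.n l28 (nat_lit 3446) (nat_lit 2) (nat_lit 2))
    (@En.n l17015 (nat_lit 4553) (nat_lit 3) (nat_lit 7))
    (@En.n l7645 (nat_lit 8988) (nat_lit 1) (nat_lit 14))
    (@En.n l11610 (nat_lit 3451) (nat_lit 5) (nat_lit 3))
    (@En.n l9806 (nat_lit 4942) (nat_lit 6) (nat_lit 6))
    (@En.n l17016 (nat_lit 3452) (nat_lit 7) (nat_lit 7))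
    (@En.n l17017 (nat_lit 3448) (nat_lit 9) (nat_lit 13))
    (@En.n l2364 (nat_lit 6459) (nat_lit 9) (nat_lit 4))
    (@En.n l17018 (nat_lit 4374) (nat_lit 11) (nat_lit 9))
    (@En.n l6444 (nat_lit 11456) (nat_lit 8) (nat_lit 5))
    (@En.n l11357 (nat_lit 3441) (nat_lit 13) (nat_lit 10))
    (@En.i (nat_lit 4888) (nat_lit 6) (nat_lit 12))
    (@En.n l2571 (nat_lit 10342) (nat_lit 12) (nat_lit 9))
    (@En.n l50 (nat_lit 3446) (nat_lit 15) (nat_lit 2))))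
  (@Cl.mk (nat_lit 0x20008000b00040008000d000c0005000300080004000e00080002000e000c) (nat_lit 0x3400000b0020) (nat_lit 16) Lb.e (@T16.mk En
    (@En.n l17014 (nat_lit 4590) (nat_lit 14) (nat_lit 12))
    (@En.i (nat_lit 2576) (nat_lit 1) (nat_lit 14))
    (@En.n l3 (nat_lit 3447) (nat_lit 2) (nat_lit 2))
    (@En.i (nat_lit 4552) (nat_lit 3) (nat_lit 8))
    (@En.n l8769 (nat_lit 11228) (nat_lit 1) (nat_lit 14))
    (@En.n l3348 (nat_lit 3441) (nat_lit 5) (nat_lit 4))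
    (@En.n l612 (nat_lit 3451) (nat_lit 6) (nat_lit 8))
    (@En.n l50 (nat_lit 3453) (nat_lit 7) (nat_lit 3))
    (@En.n l5559 (nat_lit 4961) (nat_lit 0) (nat_lit 5))
    (@En.n l12896 (nat_lit 3449) (nat_lit 10) (nat_lit 12))
    (@En.n l2544 (nat_lit 7779) (nat_lit 11) (nat_lit 13))
    (@En.n l3348 (nat_lit 4367) (nat_lit 12) (nat_lit 8))
    (@En.n l3939 (nat_lit 4707) (nat_lit 9) (nat_lit 4))
    (@En.n l2039 (nat_lit 4728) (nat_lit 7) (nat_lit 11))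
    (@En.i (nat_lit 11419) (nat_lit 12) (nat_lit 8))
    (@En.n l11 (nat_lit 3447) (nat_lit 15) (nat_lit 2))))
  (@Cl.mk (nat_lit 0x2000a0008000b00050009000d0006000500030008000e00070002000e000b) (nat_lit 0x120510000b0014) (nat_lit 16) Lb.e (@T16.mk En
    (@En.n l5551 (nat_lit 4546) (nat_lit 14) (nat_lit 11))
    (@En.i (nat_lit 1758) (nat_lit 1) (nat_lit 14))
    (@En.n l50 (nat_lit 3448) (nat_lit 2) (nat_lit 2))
    (@En.i (nat_lit 4547) (nat_lit 3) (nat_lit 7))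
    (@En.n l5839 (nat_lit 2534) (nat_lit 5) (nat_lit 14))
    (@En.n l13671 (nat_lit 3452) (nat_lit 5) (nat_lit 8))
    (@En.n l7076 (nat_lit 3450) (nat_lit 6) (nat_lit 3))
    (@En.n l152 (nat_lit 4948) (nat_lit 0) (nat_lit 5))
    (@En.n l14529 (nat_lit 5218) (nat_lit 8) (nat_lit 6))
    (@En.i (nat_lit 3054) (nat_lit 10) (nat_lit 13))
    (@En.i (nat_lit 4378) (nat_lit 11) (nat_lit 9))
    (@En.n l28282 (nat_lit 11424) (nat_lit 8) (nat_lit 5))
    (@En.i (nat_lit 3440) (nat_lit 13) (nat_lit 11))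
    (@En.n l7075 (nat_lit 3447) (nat_lit 14) (nat_lit 8))
    (@En.i (nat_lit 4544) (nat_lit 12) (nat_lit 10))
    (@En.n l17 (nat_lit 3448) (nat_lit 15) (nat_lit 2))))
  (@Cl.mk (nat_lit 0x20009000c00040008000c0004000d000700040003000e00080002000e000c) (nat_lit 0x3a04000b0024) (nat_lit 16) Lb.e (@T16.mk En
    (@En.n l564 (nat_lit 4592) (nat_lit 14) (nat_lit 12))
    (@En.n l2571 (nat_lit 2575) (nat_lit 1) (nat_lit 14))
    (@En.n l28 (nat_lit 3449) (nat_lit 2) (nat_lit 2))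
    (@En.n l287 (nat_lit 4549) (nat_lit 3) (nat_lit 8))
    (@En.i (nat_lit 2542) (nat_lit 1) (nat_lit 14))
    (@En.n l11610 (nat_lit 3453) (nat_lit 5) (nat_lit 3))
    (@En.n l3340 (nat_lit 3440) (nat_lit 6) (nat_lit 4))
    (@En.n l2571 (nat_lit 3450) (nat_lit 7) (nat_lit 7))
    (@En.n l10089 (nat_lit 5316) (nat_lit 9) (nat_lit 13))
    (@En.i (nat_lit 3446) (nat_lit 9) (nat_lit 4))
    (@En.i (nat_lit 7339) (nat_lit 11) (nat_lit 12))
    (@En.n l3340 (nat_lit 4369) (nat_lit 12) (nat_lit 8))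
    (@En.n l3098 (nat_lit 4709) (nat_lit 9) (nat_lit 4))
    (@En.i (nat_lit 4730) (nat_lit 6) (nat_lit 12))
    (@En.n l2571 (nat_lit 11491) (nat_lit 12) (nat_lit 9))
    (@En.n l50 (nat_lit 3449) (nat_lit 15) (nat_lit 2))))
  (@Cl.mk (nat_lit 0x200090008000c00050009000d0004000700030008000e00070002000e000b) (nat_lit 0x10510003a0032) (nat_lit 16) Lb.e (@T16.mk En
    (@En.i (nat_lit 3408) (nat_lit 14) (nat_lit 11))
    (@En.n l61 (nat_lit 2515) (nat_lit 1) (nat_lit 14))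
    (@En.n l3 (nat_lit 3450) (nat_lit 2) (nat_lit 2))
    (@En.n l17133 (nat_lit 4548) (nat_lit 3) (nat_lit 7))
    (@En.i (nat_lit 2538) (nat_lit 5) (nat_lit 14))
    (@En.n l14056 (nat_lit 12532) (nat_lit 5) (nat_lit 8))
    (@En.n l2586 (nat_lit 3448) (nat_lit 6) (nat_lit 3))
    (@En.n l14058 (nat_lit 4774) (nat_lit 11) (nat_lit 7))
    (@En.n l5572 (nat_lit 3452) (nat_lit 8) (nat_lit 4))
    (@En.n l2544 (nat_lit 3059) (nat_lit 10) (nat_lit 13))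
    (@En.n l3348 (nat_lit 4373) (nat_lit 11) (nat_lit 9))
    (@En.n l28400 (nat_lit 11422) (nat_lit 8) (nat_lit 5))
    (@En.n l3337 (nat_lit 3449) (nat_lit 13) (nat_lit 12))
    (@En.i (nat_lit 3453) (nat_lit 14) (nat_lit 8))
    (@En.n l61 (nat_lit 11493) (nat_lit 12) (nat_lit 9))
    (@En.n l11 (nat_lit 3450) (nat_lit 15) (nat_lit 2))))
  (@Cl.mk (nat_lit 0x20008000c000b000500090004000d000500080003000e00070002000e000b) (nat_lit 0x310402060b0014) (nat_lit 16) Lb.e (@T16.mk En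
    (@En.i (nat_lit 4589) (nat_lit 14) (nat_lit 11))
    (@En.i (nat_lit 1753) (nat_lit 1) (nat_lit 14))
    (@En.n l3 (nat_lit 3451) (nat_lit 2) (nat_lit 2))
    (@En.i (nat_lit 4551) (nat_lit 3) (nat_lit 7))
    (@En.i (nat_lit 11227) (nat_lit 1) (nat_lit 14))
    (@En.n l2199 (nat_lit 3446) (nat_lit 5) (nat_lit 3))
    (@En.n l387 (nat_lit 12529) (nat_lit 10) (nat_lit 8))
    (@En.n l8812 (nat_lit 4958) (nat_lit 7) (nat_lit 5))
    (@En.n l7025 (nat_lit 3450) (nat_lit 9) (nat_lit 13))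
    (@En.n l7 (nat_lit 6460) (nat_lit 9) (nat_lit 4))
    (@En.n l1501 (nat_lit 4368) (nat_lit 11) (nat_lit 9))
    (@En.n l1252 (nat_lit 11465) (nat_lit 8) (nat_lit 5))
    (@En.n l644 (nat_lit 3447) (nat_lit 13) (nat_lit 11))
    (@En.n l617 (nat_lit 4596) (nat_lit 14) (nat_lit 12))
    (@En.i (nat_lit 11482) (nat_lit 12) (nat_lit 8))
    (@En.n l11 (nat_lit 3451) (nat_lit 15) (nat_lit 2))))
  (@Cl.mk (nat_lit 0x200090008000c000b0006000a0004000700050008000e00060002000e000a) (nat_lit 0x7113050006b0014) (nat_lit 16) Lb.e (@T16.mk En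
    (@En.i (nat_lit 4533) (nat_lit 14) (nat_lit 10))
    (@En.i (nat_lit 1752) (nat_lit 1) (nat_lit 14))
    (@En.n l50 (nat_lit 3452) (nat_lit 2) (nat_lit 2))
    (@En.n l2678 (nat_lit 4534) (nat_lit 3) (nat_lit 6))
    (@En.n l14609 (nat_lit 8989) (nat_lit 5) (nat_lit 14))
    (@En.n l810 (nat_lit 12530) (nat_lit 10) (nat_lit 8))
    (@En.n l1643 (nat_lit 4952) (nat_lit 6) (nat_lit 5))
    (@En.i (nat_lit 5220) (nat_lit 7) (nat_lit 7))
    (@En.n l5012 (nat_lit 6458) (nat_lit 8) (nat_lit 4))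
    (@En.i (nat_lit 2375) (nat_lit 10) (nat_lit 10))
    (@En.n l3213 (nat_lit 11450) (nat_lit 7) (nat_lit 6))
    (@En.n l8351 (nat_lit 3448) (nat_lit 12) (nat_lit 11))
    (@En.n l27435 (nat_lit 3446) (nat_lit 13) (nat_lit 12))
    (@En.n l5011 (nat_lit 3451) (nat_lit 14) (nat_lit 8))
    (@En.i (nat_lit 4543) (nat_lit 12) (nat_lit 9))
    (@En.n l17 (nat_lit 3452) (nat_lit 15) (nat_lit 2))))
  (@Cl.mk (nat_lit 0x20008000c00040008000d0004000d000300080003000e00080002000e000c) (nat_lit 0x6803404030b0020) (nat_lit 16) Lb.e (@T16.mk En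
    (@En.i (nat_lit 4591) (nat_lit 14) (nat_lit 12))
    (@En.i (nat_lit 2574) (nat_lit 1) (nat_lit 14))
    (@En.n l3 (nat_lit 3453) (nat_lit 2) (nat_lit 2))
    (@En.i (nat_lit 4531) (nat_lit 3) (nat_lit 8))
    (@En.i (nat_lit 11230) (nat_lit 1) (nat_lit 14))
    (@En.n l2199 (nat_lit 3449) (nat_lit 5) (nat_lit 3))
    (@En.n l387 (nat_lit 12531) (nat_lit 6) (nat_lit 8))
    (@En.i (nat_lit 3447) (nat_lit 7) (nat_lit 3))
    (@En.n l725 (nat_lit 5318) (nat_lit 0) (nat_lit 13))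
    (@En.i (nat_lit 3451) (nat_lit 9) (nat_lit 4))
    (@En.n l2544 (nat_lit 7778) (nat_lit 11) (nat_lit 13))
    (@En.i (nat_lit 4366) (nat_lit 12) (nat_lit 8))
    (@En.i (nat_lit 4713) (nat_lit 9) (nat_lit 4))
    (@En.n l617 (nat_lit 4600) (nat_lit 14) (nat_lit 12))
    (@En.i (nat_lit 11412) (nat_lit 12) (nat_lit 8))
    (@En.n l11 (nat_lit 3453) (nat_lit 15) (nat_lit 2))))
  (@Cl.mk (nat_lit 0x2000c000c0009000c00040004000a0004000e00070002000d0006000e0003) (nat_lit 0x56790020800b050) (nat_lit 16) Lb.e (@T16.mk En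
    (@En.n l10809 (nat_lit 2403) (nat_lit 11) (nat_lit 3))
    (@En.n l10810 (nat_lit 12883) (nat_lit 0) (nat_lit 14))
    (@En.n l10811 (nat_lit 1641) (nat_lit 14) (nat_lit 6))
    (@En.n l10812 (nat_lit 12423) (nat_lit 2) (nat_lit 13))
    (@En.n l28 (nat_lit 3454) (nat_lit 4) (nat_lit 2))
    (@En.n l7 (nat_lit 2457) (nat_lit 5) (nat_lit 7))
    (@En.i (nat_lit 3293) (nat_lit 1) (nat_lit 14))
    (@En.i (nat_lit 2446) (nat_lit 7) (nat_lit 4))
    (@En.n l10810 (nat_lit 3456) (nat_lit 9) (nat_lit 10))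
    (@En.n l10813 (nat_lit 3455) (nat_lit 12) (nat_lit 4))
    (@En.n l2438 (nat_lit 3429) (nat_lit 10) (nat_lit 4))
    (@En.n l8898 (nat_lit 13440) (nat_lit 6) (nat_lit 12))
    (@En.n l10814 (nat_lit 7430) (nat_lit 13) (nat_lit 9))
    (@En.n l10815 (nat_lit 2134) (nat_lit 4) (nat_lit 12))
    (@En.n l1327 (nat_lit 2891) (nat_lit 10) (nat_lit 12))
    (@En.n l17 (nat_lit 3454) (nat_lit 15) (nat_lit 2))))
  (@Cl.mk (nat_lit 0x2000a000d0004000a0003000e00060002000d0006000e00030002000e000c) (nat_lit 0x8b020200b050096) (nat_lit 16) Lb.e (@T16.mk En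
    (@En.n l95 (nat_lit 3454) (nat_lit 14) (nat_lit 12))
    (@En.i (nat_lit 5117) (nat_lit 1) (nat_lit 14))
    (@En.n l17 (nat_lit 3455) (nat_lit 2) (nat_lit 2))
    (@En.n l4019 (nat_lit 2109) (nat_lit 3) (nat_lit 3))
    (@En.i (nat_lit 12885) (nat_lit 0) (nat_lit 14))
    (@En.n l24309 (nat_lit 1638) (nat_lit 14) (nat_lit 6))
    (@En.n l7557 (nat_lit 12422) (nat_lit 7) (nat_lit 13))
    (@En.n l7 (nat_lit 3455) (nat_lit 7) (nat_lit 2))
    (@En.n l2140 (nat_lit 2108) (nat_lit 8) (nat_lit 6))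
    (@En.n l95 (nat_lit 5123) (nat_lit 1) (nat_lit 14))
    (@En.n l95 (nat_lit 2101) (nat_lit 10) (nat_lit 3))
    (@En.n l1847 (nat_lit 2852) (nat_lit 12) (nat_lit 10))
    (@En.n l4691 (nat_lit 3431) (nat_lit 4) (nat_lit 4))
    (@En.n l2294 (nat_lit 13441) (nat_lit 5) (nat_lit 13))
    (@En.i (nat_lit 5412) (nat_lit 12) (nat_lit 10))
    (@En.n l3 (nat_lit 3455) (nat_lit 15) (nat_lit 2))))
noncomputable def a216 : T16 Cl := @T16.mk Cl
  (@Cl.mk (nat_lit 0x2000c0005000a000d0004000a0003000e00060002000c0006000b000e0004) (nat_lit 0x6000010b0000260) (nat_lit 16) Lb.e (@T16.mk En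
    (@En.n l14651 (nat_lit 6744) (nat_lit 10) (nat_lit 4))
    (@En.i (nat_lit 3455) (nat_lit 4) (nat_lit 14))
    (@En.i (nat_lit 2423) (nat_lit 2) (nat_lit 11))
    (@En.n l24325 (nat_lit 6943) (nat_lit 14) (nat_lit 6))
    (@En.n l3699 (nat_lit 9681) (nat_lit 12) (nat_lit 12))
    (@En.n l7 (nat_lit 3456) (nat_lit 5) (nat_lit 2))
    (@En.n l7987 (nat_lit 3457) (nat_lit 6) (nat_lit 6))
    (@En.n l95 (nat_lit 7796) (nat_lit 1) (nat_lit 14))
    (@En.n l3916 (nat_lit 3467) (nat_lit 8) (nat_lit 3))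
    (@En.i (nat_lit 2636) (nat_lit 10) (nat_lit 10))
    (@En.n l11238 (nat_lit 8202) (nat_lit 4) (nat_lit 4))
    (@En.n l14654 (nat_lit 13439) (nat_lit 5) (nat_lit 13))
    (@En.n l2738 (nat_lit 7772) (nat_lit 13) (nat_lit 10))
    (@En.n l24326 (nat_lit 3458) (nat_lit 14) (nat_lit 5))
    (@En.i (nat_lit 5107) (nat_lit 9) (nat_lit 12))
    (@En.n l17 (nat_lit 3456) (nat_lit 15) (nat_lit 2))))
  (@Cl.mk (nat_lit 0x2000b0005000a000a000d0005000b000300060006000c0005000b000e0004) (nat_lit 0x600110300000250) (nat_lit 16) Lb.e (@T16.mk En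
    (@En.n l30209 (nat_lit 6741) (nat_lit 8) (nat_lit 4))
    (@En.n l396 (nat_lit 2108) (nat_lit 4) (nat_lit 14))
    (@En.n l19177 (nat_lit 2424) (nat_lit 2) (nat_lit 11))
    (@En.n l22049 (nat_lit 6944) (nat_lit 3) (nat_lit 5))
    (@En.i (nat_lit 9683) (nat_lit 13) (nat_lit 12))
    (@En.n l17904 (nat_lit 3464) (nat_lit 5) (nat_lit 6))
    (@En.n l7271 (nat_lit 7461) (nat_lit 12) (nat_lit 6))
    (@En.n l1349 (nat_lit 3466) (nat_lit 7) (nat_lit 3))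
    (@En.n l19178 (nat_lit 2634) (nat_lit 0) (nat_lit 11))
    (@En.n l19179 (nat_lit 8201) (nat_lit 9) (nat_lit 5))
    (@En.n l1208 (nat_lit 3456) (nat_lit 11) (nat_lit 13))
    (@En.n l19180 (nat_lit 3456) (nat_lit 12) (nat_lit 10))
    (@En.n l2642 (nat_lit 7428) (nat_lit 13) (nat_lit 10))
    (@En.n l2642 (nat_lit 3460) (nat_lit 14) (nat_lit 5))
    (@En.n l21657 (nat_lit 5103) (nat_lit 7) (nat_lit 11))
    (@En.n l18 (nat_lit 3457) (nat_lit 15) (nat_lit 2))))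
  (@Cl.mk (nat_lit 0x20005000a000d0007000a0003000e00060002000b0006000b0009000e0005) (nat_lit 0x70b00002370) (nat_lit 16) Lb.e (@T16.mk En
    (@En.n l4941 (nat_lit 6342) (nat_lit 9) (nat_lit 5))
    (@En.n l33445 (nat_lit 3456) (nat_lit 1) (nat_lit 14))
    (@En.n l33446 (nat_lit 3459) (nat_lit 12) (nat_lit 9))
    (@En.n l33447 (nat_lit 2428) (nat_lit 3) (nat_lit 11))
    (@En.n l11906 (nat_lit 6942) (nat_lit 4) (nat_lit 6))
    (@En.n l33448 (nat_lit 9679) (nat_lit 6) (nat_lit 11))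
    (@En.n l107 (nat_lit 3458) (nat_lit 6) (nat_lit 2))
    (@En.n l33449 (nat_lit 3460) (nat_lit 7) (nat_lit 6))
    (@En.n l33450 (nat_lit 7795) (nat_lit 9) (nat_lit 14))
    (@En.n l33451 (nat_lit 6884) (nat_lit 9) (nat_lit 3))
    (@En.n l11906 (nat_lit 2635) (nat_lit 11) (nat_lit 10))
    (@En.n l33452 (nat_lit 9265) (nat_lit 12) (nat_lit 7))
    (@En.n l4942 (nat_lit 13437) (nat_lit 5) (nat_lit 13))
    (@En.n l33453 (nat_lit 7398) (nat_lit 14) (nat_lit 10))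
    (@En.i (nat_lit 5119) (nat_lit 13) (nat_lit 5))
    (@En.n l207 (nat_lit 3458) (nat_lit 15) (nat_lit 2))))
  (@Cl.mk (nat_lit 0x2000c00060009000e00040002000c0009000c00070004000a0004000e0007) (nat_lit 0x2600600008030) (nat_lit 16) Lb.e (@T16.mk En
    (@En.n l20794 (nat_lit 3461) (nat_lit 6) (nat_lit 7))
    (@En.n l2983 (nat_lit 7794) (nat_lit 1) (nat_lit 14))
    (@En.n l2983 (nat_lit 2169) (nat_lit 8) (nat_lit 4))
    (@En.n l20795 (nat_lit 3458) (nat_lit 10) (nat_lit 10))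
    (@En.n l20796 (nat_lit 3456) (nat_lit 10) (nat_lit 4))
    (@En.n l18732 (nat_lit 9264) (nat_lit 5) (nat_lit 7))
    (@En.n l183 (nat_lit 13438) (nat_lit 6) (nat_lit 12))
    (@En.n l11160 (nat_lit 7393) (nat_lit 14) (nat_lit 9))
    (@En.n l4381 (nat_lit 6644) (nat_lit 9) (nat_lit 12))
    (@En.n l7 (nat_lit 3459) (nat_lit 9) (nat_lit 2))
    (@En.n l5197 (nat_lit 6343) (nat_lit 10) (nat_lit 4))
    (@En.n l541 (nat_lit 3454) (nat_lit 1) (nat_lit 14))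
    (@En.i (nat_lit 2125) (nat_lit 9) (nat_lit 9))
    (@En.n l183 (nat_lit 6940) (nat_lit 14) (nat_lit 6))
    (@En.n l18499 (nat_lit 9678) (nat_lit 5) (nat_lit 12))
    (@En.n l107 (nat_lit 3459) (nat_lit 15) (nat_lit 2))))
  (@Cl.mk (nat_lit 0x20005000a000a000d0008000b000300060006000b0005000b0008000e0005) (nat_lit 0x1143000002360) (nat_lit 16) Lb.e (@T16.mk En
    (@En.n l7742 (nat_lit 6345) (nat_lit 7) (nat_lit 5))
    (@En.n l899 (nat_lit 3457) (nat_lit 1) (nat_lit 14))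
    (@En.n l10674 (nat_lit 3461) (nat_lit 2) (nat_lit 8))
    (@En.n l17745 (nat_lit 2427) (nat_lit 3) (nat_lit 11))
    (@En.n l17746 (nat_lit 6941) (nat_lit 4) (nat_lit 5))
    (@En.i (nat_lit 9682) (nat_lit 6) (nat_lit 11))
    (@En.n l17747 (nat_lit 3462) (nat_lit 6) (nat_lit 6))
    (@En.n l7457 (nat_lit 7459) (nat_lit 7) (nat_lit 6))
    (@En.n l9592 (nat_lit 3465) (nat_lit 8) (nat_lit 3))
    (@En.n l5011 (nat_lit 2632) (nat_lit 0) (nat_lit 11))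
    (@En.n l17748 (nat_lit 8991) (nat_lit 11) (nat_lit 8))
    (@En.n l17749 (nat_lit 3458) (nat_lit 12) (nat_lit 13))
    (@En.n l17750 (nat_lit 3458) (nat_lit 13) (nat_lit 10))
    (@En.i (nat_lit 7399) (nat_lit 14) (nat_lit 10))
    (@En.n l17751 (nat_lit 6619) (nat_lit 13) (nat_lit 5))
    (@En.n l50 (nat_lit 3460) (nat_lit 15) (nat_lit 2))))
  (@Cl.mk (nat_lit 0x2000b00090009000c00080005000b000400070007000c00050008000e0004) (nat_lit 0x601140400000240) (nat_lit 16) Lb.e (@T16.mk En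
    (@En.n l117 (nat_lit 6344) (nat_lit 15) (nat_lit 4))
    (@En.n l24481 (nat_lit 2457) (nat_lit 1) (nat_lit 14))
    (@En.n l33495 (nat_lit 2128) (nat_lit 10) (nat_lit 8))
    (@En.n l33496 (nat_lit 6830) (nat_lit 3) (nat_lit 5))
    (@En.n l7489 (nat_lit 9680) (nat_lit 5) (nat_lit 12))
    (@En.n l77 (nat_lit 3463) (nat_lit 5) (nat_lit 7))
    (@En.i (nat_lit 7460) (nat_lit 11) (nat_lit 7))
    (@En.n l4817 (nat_lit 2167) (nat_lit 7) (nat_lit 4))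
    (@En.n l6606 (nat_lit 3460) (nat_lit 9) (nat_lit 11))
    (@En.n l24133 (nat_lit 3457) (nat_lit 9) (nat_lit 5))
    (@En.n l33497 (nat_lit 8994) (nat_lit 11) (nat_lit 8))
    (@En.n l33498 (nat_lit 3459) (nat_lit 6) (nat_lit 12))
    (@En.n l33499 (nat_lit 3459) (nat_lit 7) (nat_lit 9))
    (@En.n l7489 (nat_lit 7392) (nat_lit 14) (nat_lit 9))
    (@En.n l9025 (nat_lit 6643) (nat_lit 14) (nat_lit 11))
    (@En.n l11 (nat_lit 3461) (nat_lit 15) (nat_lit 2))))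
  (@Cl.mk (nat_lit 0x20005000e000a0002000d0009000c00030006000b0004000b0007000e0005) (nat_lit 0x21025400002050) (nat_lit 16) Lb.e (@T16.mk En
    (@En.n l10972 (nat_lit 6347) (nat_lit 4) (nat_lit 5))
    (@En.n l1770 (nat_lit 3464) (nat_lit 1) (nat_lit 14))
    (@En.n l649 (nat_lit 3463) (nat_lit 2) (nat_lit 7))
    (@En.n l3398 (nat_lit 2429) (nat_lit 3) (nat_lit 11))
    (@En.n l3398 (nat_lit 6946) (nat_lit 4) (nat_lit 4))
    (@En.i (nat_lit 12670) (nat_lit 10) (nat_lit 11))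
    (@En.n l1867 (nat_lit 7458) (nat_lit 6) (nat_lit 6))
    (@En.n l7158 (nat_lit 6787) (nat_lit 7) (nat_lit 3))
    (@En.n l7077 (nat_lit 2631) (nat_lit 0) (nat_lit 12))
    (@En.n l10973 (nat_lit 8988) (nat_lit 10) (nat_lit 9))
    (@En.n l2038 (nat_lit 3460) (nat_lit 11) (nat_lit 13))
    (@En.n l17 (nat_lit 3462) (nat_lit 11) (nat_lit 2))
    (@En.n l7079 (nat_lit 3460) (nat_lit 13) (nat_lit 10))
    (@En.i (nat_lit 3418) (nat_lit 1) (nat_lit 14))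
    (@En.n l7074 (nat_lit 6630) (nat_lit 13) (nat_lit 5))
    (@En.n l50 (nat_lit 3462) (nat_lit 15) (nat_lit 2))))
  (@Cl.mk (nat_lit 0x2000a000e00090002000c00090006000c00040007000c00040007000e0004) (nat_lit 0x621025050000040) (nat_lit 16) Lb.e (@T16.mk En
    (@En.n l117 (nat_lit 6346) (nat_lit 4) (nat_lit 4))
    (@En.n l3337 (nat_lit 2453) (nat_lit 1) (nat_lit 14))
    (@En.n l12585 (nat_lit 2450) (nat_lit 11) (nat_lit 7))
    (@En.n l7610 (nat_lit 6947) (nat_lit 3) (nat_lit 4))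
    (@En.n l2579 (nat_lit 12671) (nat_lit 9) (nat_lit 12))
    (@En.i (nat_lit 7198) (nat_lit 5) (nat_lit 7))
    (@En.n l4817 (nat_lit 2533) (nat_lit 6) (nat_lit 4))
    (@En.n l14619 (nat_lit 3462) (nat_lit 8) (nat_lit 12))
    (@En.n l2869 (nat_lit 3464) (nat_lit 8) (nat_lit 6))
    (@En.n l2568 (nat_lit 8989) (nat_lit 14) (nat_lit 9))
    (@En.n l4172 (nat_lit 3461) (nat_lit 11) (nat_lit 12))
    (@En.n l7 (nat_lit 3463) (nat_lit 11) (nat_lit 2))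
    (@En.i (nat_lit 3461) (nat_lit 13) (nat_lit 9))
    (@En.i (nat_lit 3417) (nat_lit 1) (nat_lit 14))
    (@En.i (nat_lit 6645) (nat_lit 2) (nat_lit 10))
    (@En.n l11 (nat_lit 3463) (nat_lit 15) (nat_lit 2))))
  (@Cl.mk (nat_lit 0x2000a0005000e000a0002000d0006000c00030006000c0004000b000e0004) (nat_lit 0x803102040000240) (nat_lit 16) Lb.e (@T16.mk En
    (@En.n l17552 (nat_lit 6742) (nat_lit 5) (nat_lit 4))
    (@En.n l1899 (nat_lit 4854) (nat_lit 7) (nat_lit 14))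
    (@En.i (nat_lit 2426) (nat_lit 2) (nat_lit 11))
    (@En.n l19511 (nat_lit 6945) (nat_lit 3) (nat_lit 4))
    (@En.i (nat_lit 12672) (nat_lit 10) (nat_lit 12))
    (@En.n l649 (nat_lit 4806) (nat_lit 12) (nat_lit 6))
    (@En.n l19512 (nat_lit 6788) (nat_lit 6) (nat_lit 3))
    (@En.n l19513 (nat_lit 2633) (nat_lit 8) (nat_lit 12))
    (@En.n l19514 (nat_lit 8200) (nat_lit 14) (nat_lit 6))
    (@En.n l17555 (nat_lit 3457) (nat_lit 10) (nat_lit 13))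
    (@En.n l17 (nat_lit 3464) (nat_lit 10) (nat_lit 2))
    (@En.n l17557 (nat_lit 3457) (nat_lit 12) (nat_lit 10))
    (@En.i (nat_lit 11034) (nat_lit 1) (nat_lit 14))
    (@En.i (nat_lit 3462) (nat_lit 14) (nat_lit 5))
    (@En.n l9642 (nat_lit 5104) (nat_lit 3) (nat_lit 10))
    (@En.n l50 (nat_lit 3464) (nat_lit 15) (nat_lit 2))))
  (@Cl.mk (nat_lit 0x20005000a000a000d000a0009000300060006000b0006000b0007000e0005) (nat_lit 0x41000001060) (nat_lit 16) Lb.e (@T16.mk En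
    (@En.i (nat_lit 6755) (nat_lit 7) (nat_lit 5))
    (@En.n l33508 (nat_lit 3466) (nat_lit 1) (nat_lit 14))
    (@En.n l19958 (nat_lit 2167) (nat_lit 2) (nat_lit 7))
    (@En.n l2865 (nat_lit 775) (nat_lit 3) (nat_lit 11))
    (@En.n l21721 (nat_lit 1585) (nat_lit 4) (nat_lit 6))
    (@En.i (nat_lit 10646) (nat_lit 6) (nat_lit 11))
    (@En.n l725 (nat_lit 6787) (nat_lit 6) (nat_lit 6))
    (@En.n l3340 (nat_lit 6889) (nat_lit 7) (nat_lit 6))
    (@En.n l3927 (nat_lit 3460) (nat_lit 8) (nat_lit 3))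
    (@En.n l4021 (nat_lit 1276) (nat_lit 0) (nat_lit 9))
    (@En.n l3333 (nat_lit 6896) (nat_lit 11) (nat_lit 10))
    (@En.i (nat_lit 6884) (nat_lit 12) (nat_lit 13))
    (@En.n l1353 (nat_lit 6884) (nat_lit 13) (nat_lit 10))
    (@En.n l33509 (nat_lit 9406) (nat_lit 14) (nat_lit 10))
    (@En.i (nat_lit 6621) (nat_lit 13) (nat_lit 5))
    (@En.n l50 (nat_lit 3465) (nat_lit 15) (nat_lit 2))))
  (@Cl.mk (nat_lit 0x2000a0005000a000a000d000a0006000300060006000c0006000b000e0004) (nat_lit 0x600003000000750) (nat_lit 16) Lb.e (@T16.mk En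
    (@En.n l3098 (nat_lit 6745) (nat_lit 8) (nat_lit 4))
    (@En.i (nat_lit 2099) (nat_lit 4) (nat_lit 14))
    (@En.n l393 (nat_lit 2419) (nat_lit 2) (nat_lit 11))
    (@En.n l14940 (nat_lit 494) (nat_lit 3) (nat_lit 6))
    (@En.n l24202 (nat_lit 10649) (nat_lit 13) (nat_lit 12))
    (@En.n l24203 (nat_lit 6788) (nat_lit 5) (nat_lit 6))
    (@En.n l4968 (nat_lit 6890) (nat_lit 6) (nat_lit 6))
    (@En.n l10722 (nat_lit 3457) (nat_lit 7) (nat_lit 3))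
    (@En.n l24204 (nat_lit 2689) (nat_lit 0) (nat_lit 6))
    (@En.n l601 (nat_lit 6897) (nat_lit 10) (nat_lit 10))
    (@En.n l12446 (nat_lit 3467) (nat_lit 11) (nat_lit 13))
    (@En.n l448 (nat_lit 3467) (nat_lit 12) (nat_lit 10))
    (@En.n l24202 (nat_lit 8733) (nat_lit 13) (nat_lit 10))
    (@En.n l24205 (nat_lit 3465) (nat_lit 14) (nat_lit 5))
    (@En.n l24206 (nat_lit 6790) (nat_lit 7) (nat_lit 10))
    (@En.n l17 (nat_lit 3466) (nat_lit 15) (nat_lit 2))))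
  (@Cl.mk (nat_lit 0x2000b0005000a000d000900050003000e00060002000c0007000b000e0004) (nat_lit 0x608b50000000640) (nat_lit 16) Lb.e (@T16.mk En
    (@En.n l28 (nat_lit 6746) (nat_lit 10) (nat_lit 4))
    (@En.n l10889 (nat_lit 2101) (nat_lit 4) (nat_lit 14))
    (@En.n l10890 (nat_lit 2420) (nat_lit 2) (nat_lit 11))
    (@En.i (nat_lit 498) (nat_lit 14) (nat_lit 7))
    (@En.n l7691 (nat_lit 10762) (nat_lit 12) (nat_lit 12))
    (@En.n l107 (nat_lit 3467) (nat_lit 5) (nat_lit 2))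
    (@En.n l10891 (nat_lit 3466) (nat_lit 6) (nat_lit 6))
    (@En.n l10889 (nat_lit 6886) (nat_lit 1) (nat_lit 14))
    (@En.n l10892 (nat_lit 3456) (nat_lit 8) (nat_lit 3))
    (@En.n l18 (nat_lit 2690) (nat_lit 9) (nat_lit 5))
    (@En.n l10893 (nat_lit 9304) (nat_lit 4) (nat_lit 9))
    (@En.i (nat_lit 13320) (nat_lit 5) (nat_lit 13))
    (@En.i (nat_lit 7775) (nat_lit 13) (nat_lit 10))
    (@En.n l10894 (nat_lit 6884) (nat_lit 14) (nat_lit 5))
    (@En.n l10895 (nat_lit 6796) (nat_lit 9) (nat_lit 11))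
    (@En.n l7 (nat_lit 3467) (nat_lit 15) (nat_lit 2))))
  (@Cl.mk (nat_lit 0x20007000b000e00080002000e00050002000c0009000c00080004000e0004) (nat_lit 0x6260a009592050) (nat_lit 16) Lb.e (@T16.mk En
    (@En.n l7 (nat_lit 3206) (nat_lit 8) (nat_lit 4))
    (@En.n l17578 (nat_lit 3374) (nat_lit 1) (nat_lit 14))
    (@En.n l278 (nat_lit 601) (nat_lit 2) (nat_lit 4))
    (@En.i (nat_lit 6628) (nat_lit 3) (nat_lit 8))
    (@En.n l7113 (nat_lit 4168) (nat_lit 6) (nat_lit 12))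
    (@En.n l9320 (nat_lit 1355) (nat_lit 5) (nat_lit 9))
    (@En.n l3201 (nat_lit 5276) (nat_lit 7) (nat_lit 12))
    (@En.n l107 (nat_lit 3468) (nat_lit 7) (nat_lit 2))
    (@En.n l7112 (nat_lit 3200) (nat_lit 14) (nat_lit 5))
    (@En.n l7113 (nat_lit 3736) (nat_lit 1) (nat_lit 14))
    (@En.n l17 (nat_lit 3468) (nat_lit 10) (nat_lit 2))
    (@En.n l9325 (nat_lit 3193) (nat_lit 12) (nat_lit 8))
    (@En.i (nat_lit 13404) (nat_lit 4) (nat_lit 14))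
    (@En.i (nat_lit 8234) (nat_lit 14) (nat_lit 11))
    (@En.n l252 (nat_lit 3206) (nat_lit 6) (nat_lit 7))
    (@En.n l50 (nat_lit 3468) (nat_lit 15) (nat_lit 2))))
  (@Cl.mk (nat_lit 0x2000d0009000c0003000d000a000400030007000b000e00060002000e0005) (nat_lit 0xb69094000960080) (nat_lit 16) Lb.e (@T16.mk En
    (@En.i (nat_lit 1366) (nat_lit 14) (nat_lit 5))
    (@En.n l97 (nat_lit 3739) (nat_lit 1) (nat_lit 14))
    (@En.n l17 (nat_lit 3469) (nat_lit 2) (nat_lit 2))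
    (@En.n l3147 (nat_lit 3475) (nat_lit 3) (nat_lit 6))
    (@En.i (nat_lit 13396) (nat_lit 4) (nat_lit 14))
    (@En.i (nat_lit 8298) (nat_lit 2) (nat_lit 11))
    (@En.n l612 (nat_lit 3470) (nat_lit 6) (nat_lit 7))
    (@En.n l50 (nat_lit 3471) (nat_lit 7) (nat_lit 3))
    (@En.i (nat_lit 3468) (nat_lit 0) (nat_lit 4))
    (@En.n l217 (nat_lit 6735) (nat_lit 10) (nat_lit 10))
    (@En.n l10280 (nat_lit 3386) (nat_lit 11) (nat_lit 13))
    (@En.i (nat_lit 1338) (nat_lit 11) (nat_lit 3))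
    (@En.n l781 (nat_lit 4169) (nat_lit 6) (nat_lit 12))
    (@En.i (nat_lit 1358) (nat_lit 14) (nat_lit 9))
    (@En.i (nat_lit 10758) (nat_lit 12) (nat_lit 13))
    (@En.n l107 (nat_lit 3469) (nat_lit 15) (nat_lit 2))))
  (@Cl.mk (nat_lit 0x2000c0009000d000c00040003000b00040007000b000e00050002000e0005) (nat_lit 0x959a00600950000) (nat_lit 16) Lb.e (@T16.mk En
    (@En.i (nat_lit 2746) (nat_lit 14) (nat_lit 5))
    (@En.n l97 (nat_lit 3858) (nat_lit 1) (nat_lit 14))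
    (@En.n l17 (nat_lit 3470) (nat_lit 2) (nat_lit 2))
    (@En.n l3098 (nat_lit 3474) (nat_lit 3) (nat_lit 5))
    (@En.i (nat_lit 13395) (nat_lit 4) (nat_lit 14))
    (@En.i (nat_lit 8300) (nat_lit 2) (nat_lit 11))
    (@En.i (nat_lit 3596) (nat_lit 11) (nat_lit 7))
    (@En.n l7 (nat_lit 3206) (nat_lit 7) (nat_lit 4))
    (@En.n l564 (nat_lit 4460) (nat_lit 9) (nat_lit 11))
    (@En.n l7 (nat_lit 3471) (nat_lit 9) (nat_lit 3))
    (@En.i (nat_lit 2690) (nat_lit 0) (nat_lit 4))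
    (@En.n l644 (nat_lit 3469) (nat_lit 12) (nat_lit 12))
    (@En.n l781 (nat_lit 2861) (nat_lit 13) (nat_lit 13))
    (@En.i (nat_lit 1357) (nat_lit 14) (nat_lit 9))
    (@En.i (nat_lit 10754) (nat_lit 12) (nat_lit 12))
    (@En.n l107 (nat_lit 3470) (nat_lit 15) (nat_lit 2))))
  (@Cl.mk (nat_lit 0x2000d0009000d0003000d0003000b00030007000b000e00050002000e0005) (nat_lit 0x867080600960000) (nat_lit 16) Lb.e (@T16.mk En
    (@En.i (nat_lit 2745) (nat_lit 14) (nat_lit 5))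
    (@En.n l97 (nat_lit 3857) (nat_lit 1) (nat_lit 14))
    (@En.n l17 (nat_lit 3471) (nat_lit 2) (nat_lit 2))
    (@En.n l3098 (nat_lit 3473) (nat_lit 3) (nat_lit 5))
    (@En.i (nat_lit 13397) (nat_lit 4) (nat_lit 14))
    (@En.i (nat_lit 8299) (nat_lit 2) (nat_lit 11))
    (@En.n l513 (nat_lit 2876) (nat_lit 6) (nat_lit 7))
    (@En.i (nat_lit 3469) (nat_lit 7) (nat_lit 3))
    (@En.i (nat_lit 5118) (nat_lit 0) (nat_lit 11))
    (@En.i (nat_lit 3470) (nat_lit 9) (nat_lit 3))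
    (@En.n l10280 (nat_lit 3375) (nat_lit 11) (nat_lit 13))
    (@En.i (nat_lit 3472) (nat_lit 11) (nat_lit 3))
    (@En.n l781 (nat_lit 4032) (nat_lit 0) (nat_lit 13))
    (@En.i (nat_lit 1361) (nat_lit 14) (nat_lit 9))
    (@En.i (nat_lit 10761) (nat_lit 12) (nat_lit 13))
    (@En.n l107 (nat_lit 3471) (nat_lit 15) (nat_lit 2))))
noncomputable def a217 : T16 Cl := @T16.mk Cl
  (@Cl.mk (nat_lit 0x2000d000c000a0003000d0004000b00030006000b000e00050002000e0005) (nat_lit 0x7a20806009c0000) (nat_lit 16) Lb.e (@T16.mk En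
    (@En.i (nat_lit 1367) (nat_lit 14) (nat_lit 5))
    (@En.n l97 (nat_lit 3850) (nat_lit 1) (nat_lit 14))
    (@En.n l17 (nat_lit 3472) (nat_lit 2) (nat_lit 2))
    (@En.n l3098 (nat_lit 3476) (nat_lit 3) (nat_lit 5))
    (@En.i (nat_lit 13398) (nat_lit 4) (nat_lit 14))
    (@En.i (nat_lit 8302) (nat_lit 2) (nat_lit 11))
    (@En.n l513 (nat_lit 2853) (nat_lit 12) (nat_lit 6))
    (@En.i (nat_lit 1338) (nat_lit 7) (nat_lit 3))
    (@En.n l170 (nat_lit 5117) (nat_lit 0) (nat_lit 11))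
    (@En.n l28 (nat_lit 2704) (nat_lit 9) (nat_lit 4))
    (@En.n l343 (nat_lit 1361) (nat_lit 11) (nat_lit 13))
    (@En.n l28 (nat_lit 3471) (nat_lit 11) (nat_lit 3))
    (@En.i (nat_lit 1347) (nat_lit 0) (nat_lit 10))
    (@En.n l77 (nat_lit 3470) (nat_lit 14) (nat_lit 12))
    (@En.i (nat_lit 11722) (nat_lit 12) (nat_lit 13))
    (@En.n l107 (nat_lit 3472) (nat_lit 15) (nat_lit 2))))
  (@Cl.mk (nat_lit 0x2000d0008000d0003000c0003000b000b00040008000c00050005000e0004) (nat_lit 0x8090306703a0010) (nat_lit 16) Lb.e (@T16.mk En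
    (@En.i (nat_lit 2750) (nat_lit 6) (nat_lit 4))
    (@En.i (nat_lit 3017) (nat_lit 1) (nat_lit 14))
    (@En.n l152 (nat_lit 3502) (nat_lit 11) (nat_lit 5))
    (@En.i (nat_lit 2883) (nat_lit 3) (nat_lit 5))
    (@En.i (nat_lit 8304) (nat_lit 9) (nat_lit 12))
    (@En.n l617 (nat_lit 2872) (nat_lit 5) (nat_lit 8))
    (@En.i (nat_lit 7450) (nat_lit 6) (nat_lit 4))
    (@En.n l3536 (nat_lit 3471) (nat_lit 8) (nat_lit 11))
    (@En.i (nat_lit 8212) (nat_lit 9) (nat_lit 11))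
    (@En.i (nat_lit 3474) (nat_lit 9) (nat_lit 3))
    (@En.n l387 (nat_lit 3394) (nat_lit 11) (nat_lit 12))
    (@En.i (nat_lit 3476) (nat_lit 11) (nat_lit 3))
    (@En.n l725 (nat_lit 3656) (nat_lit 0) (nat_lit 13))
    (@En.i (nat_lit 3477) (nat_lit 14) (nat_lit 8))
    (@En.i (nat_lit 11719) (nat_lit 2) (nat_lit 13))
    (@En.n l28 (nat_lit 3473) (nat_lit 15) (nat_lit 2))))
  (@Cl.mk (nat_lit 0x2000c0008000d000b00040003000b000b00050008000c00050005000e0004) (nat_lit 0x63a9006704a0010) (nat_lit 16) Lb.e (@T16.mk En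
    (@En.i (nat_lit 2751) (nat_lit 6) (nat_lit 4))
    (@En.n l17133 (nat_lit 3018) (nat_lit 1) (nat_lit 14))
    (@En.n l152 (nat_lit 3503) (nat_lit 11) (nat_lit 5))
    (@En.i (nat_lit 2881) (nat_lit 3) (nat_lit 5))
    (@En.i (nat_lit 8307) (nat_lit 5) (nat_lit 12))
    (@En.n l617 (nat_lit 2871) (nat_lit 10) (nat_lit 8))
    (@En.i (nat_lit 7298) (nat_lit 6) (nat_lit 5))
    (@En.n l3536 (nat_lit 3470) (nat_lit 8) (nat_lit 11))
    (@En.n l20960 (nat_lit 9382) (nat_lit 9) (nat_lit 11))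
    (@En.n l18 (nat_lit 3473) (nat_lit 9) (nat_lit 3))
    (@En.n l11793 (nat_lit 2702) (nat_lit 0) (nat_lit 4))
    (@En.i (nat_lit 3475) (nat_lit 12) (nat_lit 11))
    (@En.n l725 (nat_lit 3655) (nat_lit 13) (nat_lit 13))
    (@En.i (nat_lit 3478) (nat_lit 14) (nat_lit 8))
    (@En.i (nat_lit 10759) (nat_lit 3) (nat_lit 12))
    (@En.n l28 (nat_lit 3474) (nat_lit 15) (nat_lit 2))))
  (@Cl.mk (nat_lit 0x2000d0008000b0003000c000a000a000500040008000c00060006000e0004) (nat_lit 0x728025500590080) (nat_lit 16) Lb.e (@T16.mk En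
    (@En.i (nat_lit 2753) (nat_lit 4) (nat_lit 4))
    (@En.n l899 (nat_lit 3259) (nat_lit 1) (nat_lit 14))
    (@En.n l9272 (nat_lit 3501) (nat_lit 10) (nat_lit 6))
    (@En.i (nat_lit 2884) (nat_lit 3) (nat_lit 6))
    (@En.i (nat_lit 8599) (nat_lit 7) (nat_lit 12))
    (@En.n l2196 (nat_lit 3474) (nat_lit 5) (nat_lit 8))
    (@En.i (nat_lit 3473) (nat_lit 6) (nat_lit 4))
    (@En.n l61 (nat_lit 7297) (nat_lit 7) (nat_lit 5))
    (@En.n l9279 (nat_lit 3469) (nat_lit 9) (nat_lit 10))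
    (@En.n l3518 (nat_lit 9657) (nat_lit 10) (nat_lit 10))
    (@En.n l14056 (nat_lit 3373) (nat_lit 11) (nat_lit 12))
    (@En.i (nat_lit 1339) (nat_lit 11) (nat_lit 3))
    (@En.n l18096 (nat_lit 2920) (nat_lit 0) (nat_lit 11))
    (@En.i (nat_lit 3479) (nat_lit 14) (nat_lit 8))
    (@En.n l899 (nat_lit 11799) (nat_lit 2) (nat_lit 13))
    (@En.n l28 (nat_lit 3475) (nat_lit 15) (nat_lit 2))))
  (@Cl.mk (nat_lit 0x2000d000c00090003000c0004000b000b00040007000c00050005000e0004) (nat_lit 0x8720a0670000010) (nat_lit 16) Lb.e (@T16.mk En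
    (@En.i (nat_lit 3480) (nat_lit 4) (nat_lit 4))
    (@En.n l10773 (nat_lit 3012) (nat_lit 1) (nat_lit 14))
    (@En.n l152 (nat_lit 3500) (nat_lit 11) (nat_lit 5))
    (@En.i (nat_lit 2885) (nat_lit 3) (nat_lit 5))
    (@En.i (nat_lit 8310) (nat_lit 9) (nat_lit 12))
    (@En.n l617 (nat_lit 2868) (nat_lit 11) (nat_lit 7))
    (@En.i (nat_lit 6864) (nat_lit 6) (nat_lit 4))
    (@En.n l3536 (nat_lit 3472) (nat_lit 8) (nat_lit 11))
    (@En.n l4542 (nat_lit 8213) (nat_lit 9) (nat_lit 11))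
    (@En.n l50 (nat_lit 2703) (nat_lit 9) (nat_lit 4))
    (@En.n l612 (nat_lit 3477) (nat_lit 11) (nat_lit 12))
    (@En.n l50 (nat_lit 3473) (nat_lit 11) (nat_lit 3))
    (@En.i (nat_lit 1348) (nat_lit 0) (nat_lit 9))
    (@En.n l217 (nat_lit 3474) (nat_lit 14) (nat_lit 12))
    (@En.n l4172 (nat_lit 11718) (nat_lit 2) (nat_lit 13))
    (@En.n l28 (nat_lit 3476) (nat_lit 15) (nat_lit 2))))
  (@Cl.mk (nat_lit 0x20008000d0009000c0003000a000a000400080007000c00060006000e0004) (nat_lit 0x682906103000010) (nat_lit 16) Lb.e (@T16.mk En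
    (@En.i (nat_lit 3481) (nat_lit 5) (nat_lit 4))
    (@En.n l18235 (nat_lit 1323) (nat_lit 1) (nat_lit 14))
    (@En.n l152 (nat_lit 3498) (nat_lit 10) (nat_lit 6))
    (@En.i (nat_lit 2886) (nat_lit 3) (nat_lit 6))
    (@En.i (nat_lit 8362) (nat_lit 5) (nat_lit 12))
    (@En.n l644 (nat_lit 3476) (nat_lit 5) (nat_lit 7))
    (@En.n l617 (nat_lit 2878) (nat_lit 6) (nat_lit 8))
    (@En.i (nat_lit 6865) (nat_lit 7) (nat_lit 4))
    (@En.n l3536 (nat_lit 1361) (nat_lit 9) (nat_lit 10))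
    (@En.i (nat_lit 10020) (nat_lit 10) (nat_lit 10))
    (@En.i (nat_lit 3478) (nat_lit 10) (nat_lit 3))
    (@En.n l12274 (nat_lit 3398) (nat_lit 12) (nat_lit 12))
    (@En.i (nat_lit 1346) (nat_lit 13) (nat_lit 9))
    (@En.n l7025 (nat_lit 3475) (nat_lit 14) (nat_lit 13))
    (@En.n l3506 (nat_lit 10559) (nat_lit 3) (nat_lit 8))
    (@En.n l28 (nat_lit 3477) (nat_lit 15) (nat_lit 2))))
  (@Cl.mk (nat_lit 0x20008000d000b000a0003000a000a000500080006000c00060006000e0004) (nat_lit 0x216305105000010) (nat_lit 16) Lb.e (@T16.mk En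
    (@En.n l2767 (nat_lit 3483) (nat_lit 5) (nat_lit 4))
    (@En.n l17133 (nat_lit 1316) (nat_lit 1) (nat_lit 14))
    (@En.n l152 (nat_lit 3496) (nat_lit 10) (nat_lit 6))
    (@En.n l10345 (nat_lit 2887) (nat_lit 3) (nat_lit 6))
    (@En.i (nat_lit 8363) (nat_lit 5) (nat_lit 12))
    (@En.i (nat_lit 2703) (nat_lit 5) (nat_lit 6))
    (@En.n l18565 (nat_lit 3244) (nat_lit 6) (nat_lit 8))
    (@En.i (nat_lit 6863) (nat_lit 7) (nat_lit 5))
    (@En.n l3536 (nat_lit 1357) (nat_lit 9) (nat_lit 10))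
    (@En.n l18566 (nat_lit 9483) (nat_lit 10) (nat_lit 10))
    (@En.n l18 (nat_lit 3477) (nat_lit 10) (nat_lit 3))
    (@En.n l2769 (nat_lit 622) (nat_lit 0) (nat_lit 10))
    (@En.i (nat_lit 3479) (nat_lit 13) (nat_lit 11))
    (@En.n l7025 (nat_lit 1339) (nat_lit 14) (nat_lit 13))
    (@En.n l2773 (nat_lit 10558) (nat_lit 3) (nat_lit 8))
    (@En.n l28 (nat_lit 3478) (nat_lit 15) (nat_lit 2))))
  (@Cl.mk (nat_lit 0x20008000b0009000c000900090005000400080007000c00070007000e0004) (nat_lit 0x152a51006000010) (nat_lit 16) Lb.e (@T16.mk En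
    (@En.n l27598 (nat_lit 3482) (nat_lit 15) (nat_lit 4))
    (@En.n l31684 (nat_lit 1320) (nat_lit 1) (nat_lit 14))
    (@En.n l9272 (nat_lit 3497) (nat_lit 9) (nat_lit 7))
    (@En.n l15723 (nat_lit 2889) (nat_lit 3) (nat_lit 7))
    (@En.i (nat_lit 8367) (nat_lit 5) (nat_lit 12))
    (@En.n l644 (nat_lit 1339) (nat_lit 5) (nat_lit 7))
    (@En.n l2196 (nat_lit 3478) (nat_lit 6) (nat_lit 8))
    (@En.i (nat_lit 3477) (nat_lit 7) (nat_lit 4))
    (@En.n l61 (nat_lit 9532) (nat_lit 8) (nat_lit 5))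
    (@En.n l9279 (nat_lit 1358) (nat_lit 10) (nat_lit 9))
    (@En.n l3518 (nat_lit 9482) (nat_lit 11) (nat_lit 9))
    (@En.n l31684 (nat_lit 3389) (nat_lit 12) (nat_lit 12))
    (@En.i (nat_lit 620) (nat_lit 13) (nat_lit 9))
    (@En.n l31685 (nat_lit 3193) (nat_lit 7) (nat_lit 11))
    (@En.n l31686 (nat_lit 72) (nat_lit 6) (nat_lit 8))
    (@En.n l28 (nat_lit 3479) (nat_lit 15) (nat_lit 2))))
  (@Cl.mk (nat_lit 0x3000c0004000a000a00040007000c000c0006000600040004000d000c0009) (nat_lit 0x406100a10000892) (nat_lit 16) Lb.e (@T16.mk En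
    (@En.n l1458 (nat_lit 1383) (nat_lit 0) (nat_lit 9))
    (@En.n l217 (nat_lit 2751) (nat_lit 4) (nat_lit 12))
    (@En.n l7515 (nat_lit 11727) (nat_lit 2) (nat_lit 13))
    (@En.n l1090 (nat_lit 2749) (nat_lit 12) (nat_lit 4))
    (@En.n l3535 (nat_lit 4246) (nat_lit 4) (nat_lit 4))
    (@En.n l152 (nat_lit 3507) (nat_lit 10) (nat_lit 6))
    (@En.n l936 (nat_lit 4309) (nat_lit 1) (nat_lit 6))
    (@En.n l55 (nat_lit 3476) (nat_lit 4) (nat_lit 12))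
    (@En.i (nat_lit 8493) (nat_lit 9) (nat_lit 12))
    (@En.n l617 (nat_lit 3650) (nat_lit 11) (nat_lit 7))
    (@En.i (nat_lit 6868) (nat_lit 10) (nat_lit 4))
    (@En.n l3536 (nat_lit 1367) (nat_lit 6) (nat_lit 10))
    (@En.n l8044 (nat_lit 10013) (nat_lit 1) (nat_lit 10))
    (@En.n l844 (nat_lit 2555) (nat_lit 14) (nat_lit 4))
    (@En.n l612 (nat_lit 3481) (nat_lit 0) (nat_lit 12))
    (@En.n l50 (nat_lit 2750) (nat_lit 1) (nat_lit 3))))
  (@Cl.mk (nat_lit 0x300090009000400080007000c000c00070007000400040008000d0009000c) (nat_lit 0x510605100001a13) (nat_lit 16) Lb.e (@T16.mk En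
    (@En.n l8089 (nat_lit 3395) (nat_lit 0) (nat_lit 12))
    (@En.i (nat_lit 1279) (nat_lit 12) (nat_lit 9))
    (@En.n l7025 (nat_lit 2753) (nat_lit 2) (nat_lit 13))
    (@En.n l8089 (nat_lit 53) (nat_lit 3) (nat_lit 8))
    (@En.n l1090 (nat_lit 3486) (nat_lit 12) (nat_lit 4))
    (@En.n l3535 (nat_lit 4235) (nat_lit 5) (nat_lit 4))
    (@En.n l152 (nat_lit 3491) (nat_lit 9) (nat_lit 7))
    (@En.n l936 (nat_lit 4220) (nat_lit 7) (nat_lit 7))
    (@En.n l55 (nat_lit 3477) (nat_lit 4) (nat_lit 12))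
    (@En.i (nat_lit 8364) (nat_lit 10) (nat_lit 12))
    (@En.n l644 (nat_lit 3480) (nat_lit 9) (nat_lit 7))
    (@En.n l617 (nat_lit 3240) (nat_lit 11) (nat_lit 8))
    (@En.i (nat_lit 6869) (nat_lit 6) (nat_lit 4))
    (@En.n l3536 (nat_lit 1362) (nat_lit 7) (nat_lit 9))
    (@En.n l3745 (nat_lit 10018) (nat_lit 1) (nat_lit 9))
    (@En.n l2767 (nat_lit 3483) (nat_lit 15) (nat_lit 3))))
  (@Cl.mk (nat_lit 0x400040008000b0009000c000800080005000400080007000c000c00080008) (nat_lit 0x641a4100406163) (nat_lit 16) Lb.e (@T16.mk En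
    (@En.n l19324 (nat_lit 3489) (nat_lit 8) (nat_lit 8))
    (@En.n l14276 (nat_lit 2829) (nat_lit 1) (nat_lit 8))
    (@En.n l19325 (nat_lit 3479) (nat_lit 4) (nat_lit 12))
    (@En.n l19326 (nat_lit 8480) (nat_lit 13) (nat_lit 12))
    (@En.n l19327 (nat_lit 1336) (nat_lit 9) (nat_lit 7))
    (@En.n l9936 (nat_lit 3483) (nat_lit 11) (nat_lit 8))
    (@En.n l19328 (nat_lit 3481) (nat_lit 12) (nat_lit 4))
    (@En.n l6961 (nat_lit 7359) (nat_lit 0) (nat_lit 5))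
    (@En.n l14273 (nat_lit 1359) (nat_lit 8) (nat_lit 8))
    (@En.n l14274 (nat_lit 9479) (nat_lit 1) (nat_lit 8))
    (@En.i (nat_lit 3380) (nat_lit 6) (nat_lit 12))
    (@En.n l19329 (nat_lit 1254) (nat_lit 12) (nat_lit 9))
    (@En.n l14274 (nat_lit 3192) (nat_lit 7) (nat_lit 11))
    (@En.n l1353 (nat_lit 10559) (nat_lit 11) (nat_lit 8))
    (@En.n l61 (nat_lit 3484) (nat_lit 12) (nat_lit 4))
    (@En.n l19330 (nat_lit 4232) (nat_lit 0) (nat_lit 4))))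
  (@Cl.mk (nat_lit 0x300090009000500080006000c000c00070007000400040008000d000b000a) (nat_lit 0x510305100006a51) (nat_lit 16) Lb.e (@T16.mk En
    (@En.n l8045 (nat_lit 1097) (nat_lit 0) (nat_lit 10))
    (@En.n l3521 (nat_lit 3482) (nat_lit 12) (nat_lit 11))
    (@En.n l8046 (nat_lit 1336) (nat_lit 2) (nat_lit 13))
    (@En.n l8047 (nat_lit 10560) (nat_lit 11) (nat_lit 8))
    (@En.n l77 (nat_lit 3485) (nat_lit 12) (nat_lit 4))
    (@En.n l8048 (nat_lit 4231) (nat_lit 5) (nat_lit 4))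
    (@En.n l8049 (nat_lit 3490) (nat_lit 9) (nat_lit 7))
    (@En.n l8050 (nat_lit 2830) (nat_lit 7) (nat_lit 7))
    (@En.n l8051 (nat_lit 3478) (nat_lit 4) (nat_lit 12))
    (@En.n l1111 (nat_lit 8365) (nat_lit 10) (nat_lit 12))
    (@En.n l2934 (nat_lit 2555) (nat_lit 10) (nat_lit 6))
    (@En.n l8052 (nat_lit 3243) (nat_lit 10) (nat_lit 8))
    (@En.n l8050 (nat_lit 6866) (nat_lit 6) (nat_lit 5))
    (@En.n l8053 (nat_lit 1360) (nat_lit 7) (nat_lit 9))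
    (@En.i (nat_lit 9478) (nat_lit 1) (nat_lit 9))
    (@En.n l8054 (nat_lit 3481) (nat_lit 15) (nat_lit 3))))
  (@Cl.mk (nat_lit 0x20009000900040008000b0009000c000700070005000400080007000e000c) (nat_lit 0x7406423000040c7) (nat_lit 16) Lb.e (@T16.mk En
    (@En.i (nat_lit 3482) (nat_lit 3) (nat_lit 12))
    (@En.n l6240 (nat_lit 7748) (nat_lit 1) (nat_lit 14))
    (@En.n l9935 (nat_lit 1335) (nat_lit 2) (nat_lit 7))
    (@En.n l9936 (nat_lit 3485) (nat_lit 3) (nat_lit 8))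
    (@En.n l9937 (nat_lit 3486) (nat_lit 4) (nat_lit 4))
    (@En.n l9938 (nat_lit 7355) (nat_lit 5) (nat_lit 5))
    (@En.n l5761 (nat_lit 1363) (nat_lit 9) (nat_lit 7))
    (@En.n l9939 (nat_lit 9486) (nat_lit 7) (nat_lit 7))
    (@En.i (nat_lit 3441) (nat_lit 9) (nat_lit 12))
    (@En.n l134 (nat_lit 1267) (nat_lit 10) (nat_lit 9))
    (@En.i (nat_lit 3196) (nat_lit 7) (nat_lit 11))
    (@En.i (nat_lit 3248) (nat_lit 12) (nat_lit 8))
    (@En.n l615 (nat_lit 4228) (nat_lit 13) (nat_lit 4))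
    (@En.n l9940 (nat_lit 3488) (nat_lit 7) (nat_lit 9))
    (@En.n l9941 (nat_lit 2836) (nat_lit 1) (nat_lit 9))
    (@En.n l17 (nat_lit 3484) (nat_lit 15) (nat_lit 2))))
  (@Cl.mk (nat_lit 0x20008000800040008000d000b000a000300080008000500080006000e000c) (nat_lit 0x6406851051030c6) (nat_lit 16) Lb.e (@T16.mk En
    (@En.i (nat_lit 3483) (nat_lit 9) (nat_lit 12))
    (@En.n l1110 (nat_lit 7750) (nat_lit 1) (nat_lit 14))
    (@En.i (nat_lit 2685) (nat_lit 2) (nat_lit 6))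
    (@En.n l3517 (nat_lit 3622) (nat_lit 3) (nat_lit 8))
    (@En.n l3518 (nat_lit 7353) (nat_lit 4) (nat_lit 5))
    (@En.n l3519 (nat_lit 1364) (nat_lit 8) (nat_lit 8))
    (@En.i (nat_lit 9485) (nat_lit 6) (nat_lit 8))
    (@En.n l3520 (nat_lit 3486) (nat_lit 7) (nat_lit 3))
    (@En.n l619 (nat_lit 1100) (nat_lit 0) (nat_lit 10))
    (@En.n l3521 (nat_lit 3484) (nat_lit 10) (nat_lit 11))
    (@En.i (nat_lit 1335) (nat_lit 11) (nat_lit 13))
    (@En.n l3522 (nat_lit 3254) (nat_lit 12) (nat_lit 8))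
    (@En.n l3523 (nat_lit 4227) (nat_lit 4) (nat_lit 4))
    (@En.n l61 (nat_lit 3487) (nat_lit 8) (nat_lit 8))
    (@En.n l3524 (nat_lit 4224) (nat_lit 1) (nat_lit 8))
    (@En.n l7 (nat_lit 3485) (nat_lit 15) (nat_lit 2))))
  (@Cl.mk (nat_lit 0x20008000800040008000d0009000c000300080008000400080007000e000c) (nat_lit 0x6406a2a051030c6) (nat_lit 16) Lb.e (@T16.mk En
    (@En.n l3507 (nat_lit 3481) (nat_lit 9) (nat_lit 12))
    (@En.n l9893 (nat_lit 7752) (nat_lit 1) (nat_lit 14))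
    (@En.n l55 (nat_lit 2749) (nat_lit 2) (nat_lit 7))
    (@En.n l9894 (nat_lit 3241) (nat_lit 3) (nat_lit 8))
    (@En.n l4572 (nat_lit 10613) (nat_lit 4) (nat_lit 4))
    (@En.n l61 (nat_lit 1365) (nat_lit 8) (nat_lit 8))
    (@En.n l9895 (nat_lit 10019) (nat_lit 6) (nat_lit 8))
    (@En.n l8602 (nat_lit 3485) (nat_lit 7) (nat_lit 3))
    (@En.n l9895 (nat_lit 3443) (nat_lit 0) (nat_lit 12))
    (@En.n l5480 (nat_lit 1278) (nat_lit 10) (nat_lit 9))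
    (@En.n l780 (nat_lit 2752) (nat_lit 11) (nat_lit 13))
    (@En.n l6878 (nat_lit 5506) (nat_lit 12) (nat_lit 8))
    (@En.n l9595 (nat_lit 4236) (nat_lit 4) (nat_lit 4))
    (@En.n l9896 (nat_lit 3492) (nat_lit 8) (nat_lit 8))
    (@En.i (nat_lit 4222) (nat_lit 1) (nat_lit 8))
    (@En.n l3 (nat_lit 3486) (nat_lit 15) (nat_lit 2))))
  (@Cl.mk (nat_lit 0x2000600090007000e000d0002000800030007000d000a00090003000e0008) (nat_lit 0x30450300622096) (nat_lit 16) Lb.e (@T16.mk En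
    (@En.i (nat_lit 3485) (nat_lit 6) (nat_lit 8))
    (@En.n l1105 (nat_lit 2932) (nat_lit 1) (nat_lit 14))
    (@En.n l1106 (nat_lit 3492) (nat_lit 2) (nat_lit 3))
    (@En.n l619 (nat_lit 1816) (nat_lit 10) (nat_lit 9))
    (@En.n l1107 (nat_lit 3488) (nat_lit 4) (nat_lit 10))
    (@En.n l1108 (nat_lit 3494) (nat_lit 6) (nat_lit 13))
    (@En.i (nat_lit 5503) (nat_lit 6) (nat_lit 7))
    (@En.n l1109 (nat_lit 3490) (nat_lit 7) (nat_lit 3))
    (@En.n l1110 (nat_lit 2608) (nat_lit 0) (nat_lit 8))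
    (@En.n l7 (nat_lit 3487) (nat_lit 9) (nat_lit 2))
    (@En.n l1111 (nat_lit 3490) (nat_lit 11) (nat_lit 13))
    (@En.n l1112 (nat_lit 7746) (nat_lit 12) (nat_lit 14))
    (@En.n l1113 (nat_lit 2563) (nat_lit 2) (nat_lit 7))
    (@En.n l1110 (nat_lit 3225) (nat_lit 3) (nat_lit 9))
    (@En.n l1114 (nat_lit 2949) (nat_lit 4) (nat_lit 6))
    (@En.n l17 (nat_lit 3487) (nat_lit 15) (nat_lit 2))))
noncomputable def a218 : T16 Cl := @T16.mk Cl
  (@Cl.mk (nat_lit 0x20006000500090008000e000d0002000900030007000a0008000b000e0007) (nat_lit 0x4456030012380) (nat_lit 16) Lb.e (@T16.mk En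
    (@En.n l3660 (nat_lit 3484) (nat_lit 7) (nat_lit 7))
    (@En.n l1758 (nat_lit 2931) (nat_lit 4) (nat_lit 14))
    (@En.n l117 (nat_lit 3378) (nat_lit 2) (nat_lit 11))
    (@En.i (nat_lit 1265) (nat_lit 11) (nat_lit 8))
    (@En.i (nat_lit 2008) (nat_lit 4) (nat_lit 10))
    (@En.n l2032 (nat_lit 5505) (nat_lit 5) (nat_lit 7))
    (@En.n l3661 (nat_lit 3489) (nat_lit 6) (nat_lit 3))
    (@En.i (nat_lit 2606) (nat_lit 0) (nat_lit 9))
    (@En.n l7 (nat_lit 3488) (nat_lit 8) (nat_lit 2))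
    (@En.n l3662 (nat_lit 3489) (nat_lit 10) (nat_lit 13))
    (@En.n l3663 (nat_lit 7743) (nat_lit 11) (nat_lit 14))
    (@En.i (nat_lit 3494) (nat_lit 12) (nat_lit 8))
    (@En.n l3664 (nat_lit 3487) (nat_lit 13) (nat_lit 9))
    (@En.n l3665 (nat_lit 3492) (nat_lit 14) (nat_lit 5))
    (@En.n l2977 (nat_lit 7234) (nat_lit 5) (nat_lit 6))
    (@En.n l17 (nat_lit 3488) (nat_lit 15) (nat_lit 2))))
  (@Cl.mk (nat_lit 0x20006000500090008000d000d0008000300030007000a0008000b000e0008) (nat_lit 0x4457200011385) (nat_lit 16) Lb.e (@T16.mk En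
    (@En.n l8103 (nat_lit 3482) (nat_lit 9) (nat_lit 8))
    (@En.n l8104 (nat_lit 2927) (nat_lit 4) (nat_lit 14))
    (@En.n l8105 (nat_lit 3384) (nat_lit 2) (nat_lit 11))
    (@En.n l4635 (nat_lit 1263) (nat_lit 3) (nat_lit 8))
    (@En.n l8106 (nat_lit 2005) (nat_lit 4) (nat_lit 10))
    (@En.n l8107 (nat_lit 12141) (nat_lit 5) (nat_lit 7))
    (@En.n l7211 (nat_lit 3488) (nat_lit 6) (nat_lit 3))
    (@En.n l11 (nat_lit 3497) (nat_lit 7) (nat_lit 3))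
    (@En.n l4635 (nat_lit 2587) (nat_lit 0) (nat_lit 8))
    (@En.n l55 (nat_lit 3497) (nat_lit 10) (nat_lit 13))
    (@En.n l1363 (nat_lit 8449) (nat_lit 11) (nat_lit 13))
    (@En.n l644 (nat_lit 3493) (nat_lit 12) (nat_lit 8))
    (@En.n l617 (nat_lit 3490) (nat_lit 13) (nat_lit 9))
    (@En.n l17 (nat_lit 3491) (nat_lit 14) (nat_lit 5))
    (@En.n l1080 (nat_lit 7232) (nat_lit 6) (nat_lit 6))
    (@En.n l3 (nat_lit 3489) (nat_lit 15) (nat_lit 2))))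
  (@Cl.mk (nat_lit 0x2000600090007000d000d0007000300030007000d000a00090003000e0009) (nat_lit 0x30460000821096) (nat_lit 16) Lb.e (@T16.mk En
    (@En.n l2767 (nat_lit 3483) (nat_lit 14) (nat_lit 9))
    (@En.n l2768 (nat_lit 2928) (nat_lit 1) (nat_lit 14))
    (@En.n l18 (nat_lit 3491) (nat_lit 2) (nat_lit 3))
    (@En.n l2769 (nat_lit 1233) (nat_lit 3) (nat_lit 9))
    (@En.n l61 (nat_lit 3489) (nat_lit 4) (nat_lit 10))
    (@En.n l564 (nat_lit 3493) (nat_lit 6) (nat_lit 13))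
    (@En.n l2770 (nat_lit 12146) (nat_lit 6) (nat_lit 7))
    (@En.n l2771 (nat_lit 3487) (nat_lit 7) (nat_lit 3))
    (@En.n l11 (nat_lit 3496) (nat_lit 8) (nat_lit 3))
    (@En.n l2772 (nat_lit 2589) (nat_lit 0) (nat_lit 7))
    (@En.n l55 (nat_lit 3496) (nat_lit 11) (nat_lit 13))
    (@En.n l564 (nat_lit 8448) (nat_lit 12) (nat_lit 13))
    (@En.i (nat_lit 1843) (nat_lit 13) (nat_lit 7))
    (@En.n l2773 (nat_lit 3223) (nat_lit 14) (nat_lit 9))
    (@En.n l2774 (nat_lit 2945) (nat_lit 5) (nat_lit 6))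
    (@En.n l3 (nat_lit 3490) (nat_lit 15) (nat_lit 2))))
  (@Cl.mk (nat_lit 0x2000500090008000d000d0007000300030007000d0008000b0003000e0009) (nat_lit 0x33460000823096) (nat_lit 16) Lb.e (@T16.mk En
    (@En.i (nat_lit 3481) (nat_lit 14) (nat_lit 9))
    (@En.i (nat_lit 3489) (nat_lit 1) (nat_lit 14))
    (@En.i (nat_lit 3490) (nat_lit 2) (nat_lit 3))
    (@En.n l8089 (nat_lit 3379) (nat_lit 3) (nat_lit 11))
    (@En.i (nat_lit 1352) (nat_lit 4) (nat_lit 8))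
    (@En.n l564 (nat_lit 3504) (nat_lit 6) (nat_lit 13))
    (@En.n l8089 (nat_lit 12145) (nat_lit 6) (nat_lit 7))
    (@En.n l3606 (nat_lit 3492) (nat_lit 7) (nat_lit 3))
    (@En.n l11 (nat_lit 3498) (nat_lit 8) (nat_lit 3))
    (@En.i (nat_lit 2588) (nat_lit 0) (nat_lit 7))
    (@En.n l55 (nat_lit 3498) (nat_lit 11) (nat_lit 13))
    (@En.n l564 (nat_lit 8447) (nat_lit 12) (nat_lit 13))
    (@En.n l644 (nat_lit 3507) (nat_lit 13) (nat_lit 8))
    (@En.n l617 (nat_lit 3226) (nat_lit 14) (nat_lit 9))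
    (@En.i (nat_lit 3526) (nat_lit 13) (nat_lit 5))
    (@En.n l3 (nat_lit 3491) (nat_lit 15) (nat_lit 2))))
  (@Cl.mk (nat_lit 0x2000500090008000e000d0002000800030007000d0008000b0003000e0008) (nat_lit 0x33450300723096) (nat_lit 16) Lb.e (@T16.mk En
    (@En.n l3594 (nat_lit 3486) (nat_lit 6) (nat_lit 8))
    (@En.n l3595 (nat_lit 3488) (nat_lit 1) (nat_lit 14))
    (@En.n l3596 (nat_lit 3487) (nat_lit 2) (nat_lit 3))
    (@En.i (nat_lit 3445) (nat_lit 3) (nat_lit 11))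
    (@En.n l3597 (nat_lit 1282) (nat_lit 4) (nat_lit 8))
    (@En.n l3598 (nat_lit 3495) (nat_lit 6) (nat_lit 13))
    (@En.n l2645 (nat_lit 5502) (nat_lit 6) (nat_lit 7))
    (@En.n l3599 (nat_lit 3491) (nat_lit 7) (nat_lit 3))
    (@En.n l3600 (nat_lit 2607) (nat_lit 0) (nat_lit 8))
    (@En.n l50 (nat_lit 3492) (nat_lit 9) (nat_lit 2))
    (@En.n l3601 (nat_lit 3491) (nat_lit 11) (nat_lit 13))
    (@En.n l3602 (nat_lit 7745) (nat_lit 12) (nat_lit 14))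
    (@En.n l3603 (nat_lit 3510) (nat_lit 13) (nat_lit 8))
    (@En.n l2555 (nat_lit 3224) (nat_lit 3) (nat_lit 9))
    (@En.n l1011 (nat_lit 3528) (nat_lit 4) (nat_lit 5))
    (@En.n l725 (nat_lit 3492) (nat_lit 15) (nat_lit 2))))
  (@Cl.mk (nat_lit 0x2000700050008000d000d000700030003000d000900080003000b000e0009) (nat_lit 0x3460007720461) (nat_lit 16) Lb.e (@T16.mk En
    (@En.n l6267 (nat_lit 1336) (nat_lit 13) (nat_lit 9))
    (@En.n l1029 (nat_lit 2048) (nat_lit 4) (nat_lit 14))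
    (@En.n l612 (nat_lit 3489) (nat_lit 2) (nat_lit 11))
    (@En.n l50 (nat_lit 3504) (nat_lit 3) (nat_lit 3))
    (@En.n l1459 (nat_lit 1386) (nat_lit 0) (nat_lit 8))
    (@En.i (nat_lit 2007) (nat_lit 5) (nat_lit 9))
    (@En.n l6268 (nat_lit 11678) (nat_lit 7) (nat_lit 13))
    (@En.n l1091 (nat_lit 3494) (nat_lit 7) (nat_lit 3))
    (@En.n l11 (nat_lit 3499) (nat_lit 8) (nat_lit 3))
    (@En.n l6268 (nat_lit 2586) (nat_lit 0) (nat_lit 7))
    (@En.n l55 (nat_lit 3499) (nat_lit 11) (nat_lit 13))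
    (@En.i (nat_lit 8334) (nat_lit 12) (nat_lit 13))
    (@En.n l617 (nat_lit 2561) (nat_lit 13) (nat_lit 8))
    (@En.n l17 (nat_lit 3507) (nat_lit 14) (nat_lit 5))
    (@En.n l6269 (nat_lit 7235) (nat_lit 5) (nat_lit 7))
    (@En.n l3 (nat_lit 3493) (nat_lit 15) (nat_lit 2))))
  (@Cl.mk (nat_lit 0x2000700050008000e000d000200080003000d000900080003000b000e0008) (nat_lit 0x3450605120481) (nat_lit 16) Lb.e (@T16.mk En
    (@En.n l2970 (nat_lit 1335) (nat_lit 6) (nat_lit 8))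
    (@En.n l1884 (nat_lit 2049) (nat_lit 4) (nat_lit 14))
    (@En.n l1759 (nat_lit 3488) (nat_lit 2) (nat_lit 11))
    (@En.n l2971 (nat_lit 3495) (nat_lit 3) (nat_lit 3))
    (@En.i (nat_lit 1387) (nat_lit 11) (nat_lit 8))
    (@En.n l2972 (nat_lit 2009) (nat_lit 5) (nat_lit 9))
    (@En.n l2970 (nat_lit 11333) (nat_lit 7) (nat_lit 13))
    (@En.n l2973 (nat_lit 3493) (nat_lit 7) (nat_lit 3))
    (@En.n l1762 (nat_lit 2439) (nat_lit 0) (nat_lit 8))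
    (@En.n l7 (nat_lit 3494) (nat_lit 9) (nat_lit 2))
    (@En.n l2974 (nat_lit 3493) (nat_lit 11) (nat_lit 13))
    (@En.n l1884 (nat_lit 9003) (nat_lit 12) (nat_lit 14))
    (@En.n l2975 (nat_lit 2560) (nat_lit 2) (nat_lit 8))
    (@En.n l2976 (nat_lit 3510) (nat_lit 14) (nat_lit 5))
    (@En.n l2977 (nat_lit 7236) (nat_lit 4) (nat_lit 7))
    (@En.n l17 (nat_lit 3494) (nat_lit 15) (nat_lit 2))))
  (@Cl.mk (nat_lit 0x2000600050009000e000d000200080003000d0007000a0003000b000e0008) (nat_lit 0x3350206020496) (nat_lit 16) Lb.e (@T16.mk En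
    (@En.n l7207 (nat_lit 2752) (nat_lit 6) (nat_lit 8))
    (@En.n l7208 (nat_lit 2054) (nat_lit 8) (nat_lit 14))
    (@En.n l7209 (nat_lit 3369) (nat_lit 2) (nat_lit 11))
    (@En.n l1091 (nat_lit 3494) (nat_lit 3) (nat_lit 3))
    (@En.n l7210 (nat_lit 2910) (nat_lit 4) (nat_lit 10))
    (@En.n l7211 (nat_lit 3488) (nat_lit 5) (nat_lit 7))
    (@En.n l7210 (nat_lit 11331) (nat_lit 7) (nat_lit 13))
    (@En.n l218 (nat_lit 3504) (nat_lit 7) (nat_lit 3))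
    (@En.n l716 (nat_lit 2609) (nat_lit 0) (nat_lit 8))
    (@En.n l28 (nat_lit 3495) (nat_lit 9) (nat_lit 2))
    (@En.n l55 (nat_lit 3504) (nat_lit 11) (nat_lit 13))
    (@En.n l218 (nat_lit 9002) (nat_lit 12) (nat_lit 14))
    (@En.n l617 (nat_lit 3511) (nat_lit 13) (nat_lit 9))
    (@En.n l17 (nat_lit 3509) (nat_lit 14) (nat_lit 5))
    (@En.n l1080 (nat_lit 7213) (nat_lit 4) (nat_lit 6))
    (@En.n l3 (nat_lit 3495) (nat_lit 15) (nat_lit 2))))
  (@Cl.mk (nat_lit 0x2000600090007000d0006000e000300020007000d000a00090003000e000a) (nat_lit 0x30507000822076) (nat_lit 16) Lb.e (@T16.mk En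
    (@En.i (nat_lit 3478) (nat_lit 9) (nat_lit 10))
    (@En.i (nat_lit 2930) (nat_lit 1) (nat_lit 14))
    (@En.n l18 (nat_lit 3498) (nat_lit 2) (nat_lit 3))
    (@En.n l2769 (nat_lit 1817) (nat_lit 12) (nat_lit 9))
    (@En.n l61 (nat_lit 3497) (nat_lit 4) (nat_lit 10))
    (@En.n l564 (nat_lit 3499) (nat_lit 6) (nat_lit 13))
    (@En.n l2773 (nat_lit 12144) (nat_lit 6) (nat_lit 7))
    (@En.n l28 (nat_lit 3496) (nat_lit 7) (nat_lit 2))
    (@En.i (nat_lit 3490) (nat_lit 8) (nat_lit 3))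
    (@En.n l2773 (nat_lit 13780) (nat_lit 0) (nat_lit 14))
    (@En.i (nat_lit 2605) (nat_lit 2) (nat_lit 6))
    (@En.n l564 (nat_lit 8445) (nat_lit 12) (nat_lit 13))
    (@En.i (nat_lit 3508) (nat_lit 13) (nat_lit 7))
    (@En.n l2773 (nat_lit 3227) (nat_lit 5) (nat_lit 9))
    (@En.i (nat_lit 2946) (nat_lit 6) (nat_lit 6))
    (@En.n l3 (nat_lit 3496) (nat_lit 15) (nat_lit 2))))
  (@Cl.mk (nat_lit 0x20006000500090008000d0007000e000300020007000a0008000b000e0009) (nat_lit 0x4460700011366) (nat_lit 16) Lb.e (@T16.mk En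
    (@En.n l17 (nat_lit 3479) (nat_lit 10) (nat_lit 9))
    (@En.i (nat_lit 2929) (nat_lit 11) (nat_lit 14))
    (@En.n l538 (nat_lit 3376) (nat_lit 2) (nat_lit 11))
    (@En.i (nat_lit 1353) (nat_lit 13) (nat_lit 8))
    (@En.n l18582 (nat_lit 2006) (nat_lit 4) (nat_lit 10))
    (@En.n l3506 (nat_lit 12142) (nat_lit 5) (nat_lit 7))
    (@En.n l28 (nat_lit 3497) (nat_lit 6) (nat_lit 2))
    (@En.i (nat_lit 3489) (nat_lit 7) (nat_lit 3))
    (@En.n l7471 (nat_lit 13779) (nat_lit 0) (nat_lit 14))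
    (@En.i (nat_lit 2604) (nat_lit 2) (nat_lit 7))
    (@En.n l1363 (nat_lit 8444) (nat_lit 11) (nat_lit 13))
    (@En.n l644 (nat_lit 3499) (nat_lit 12) (nat_lit 8))
    (@En.n l617 (nat_lit 3496) (nat_lit 13) (nat_lit 9))
    (@En.n l17 (nat_lit 3498) (nat_lit 14) (nat_lit 5))
    (@En.i (nat_lit 7238) (nat_lit 7) (nat_lit 6))
    (@En.n l3 (nat_lit 3497) (nat_lit 15) (nat_lit 2))))
  (@Cl.mk (nat_lit 0x2000500090008000d0006000e000300020007000d0008000b0003000e000a) (nat_lit 0x33506000813077) (nat_lit 16) Lb.e (@T16.mk En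
    (@En.i (nat_lit 3477) (nat_lit 9) (nat_lit 10))
    (@En.i (nat_lit 3497) (nat_lit 1) (nat_lit 14))
    (@En.i (nat_lit 3496) (nat_lit 2) (nat_lit 3))
    (@En.n l538 (nat_lit 3388) (nat_lit 3) (nat_lit 11))
    (@En.i (nat_lit 1349) (nat_lit 4) (nat_lit 8))
    (@En.n l564 (nat_lit 3501) (nat_lit 6) (nat_lit 13))
    (@En.n l3506 (nat_lit 12143) (nat_lit 6) (nat_lit 7))
    (@En.n l28 (nat_lit 3498) (nat_lit 7) (nat_lit 2))
    (@En.i (nat_lit 3491) (nat_lit 8) (nat_lit 3))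
    (@En.n l7471 (nat_lit 13778) (nat_lit 0) (nat_lit 14))
    (@En.i (nat_lit 2603) (nat_lit 2) (nat_lit 6))
    (@En.n l564 (nat_lit 8446) (nat_lit 12) (nat_lit 13))
    (@En.n l644 (nat_lit 3500) (nat_lit 13) (nat_lit 8))
    (@En.n l617 (nat_lit 3228) (nat_lit 5) (nat_lit 9))
    (@En.i (nat_lit 3527) (nat_lit 6) (nat_lit 5))
    (@En.n l3 (nat_lit 3498) (nat_lit 15) (nat_lit 2))))
  (@Cl.mk (nat_lit 0x2000700050008000d0006000e00030002000d000900080003000b000e000a) (nat_lit 0x3506007120461) (nat_lit 16) Lb.e (@T16.mk En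
    (@En.n l17 (nat_lit 1339) (nat_lit 9) (nat_lit 10))
    (@En.i (nat_lit 2046) (nat_lit 4) (nat_lit 14))
    (@En.n l612 (nat_lit 3497) (nat_lit 2) (nat_lit 11))
    (@En.n l50 (nat_lit 3501) (nat_lit 3) (nat_lit 3))
    (@En.i (nat_lit 1830) (nat_lit 0) (nat_lit 8))
    (@En.i (nat_lit 2004) (nat_lit 5) (nat_lit 9))
    (@En.n l3327 (nat_lit 11675) (nat_lit 7) (nat_lit 13))
    (@En.n l28 (nat_lit 3499) (nat_lit 7) (nat_lit 2))
    (@En.i (nat_lit 3493) (nat_lit 8) (nat_lit 3))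
    (@En.i (nat_lit 13777) (nat_lit 0) (nat_lit 14))
    (@En.i (nat_lit 2602) (nat_lit 2) (nat_lit 6))
    (@En.i (nat_lit 8333) (nat_lit 12) (nat_lit 13))
    (@En.n l617 (nat_lit 3538) (nat_lit 13) (nat_lit 8))
    (@En.n l17 (nat_lit 3500) (nat_lit 14) (nat_lit 5))
    (@En.i (nat_lit 7237) (nat_lit 6) (nat_lit 7))
    (@En.n l3 (nat_lit 3499) (nat_lit 15) (nat_lit 2))))
  (@Cl.mk (nat_lit 0x200050008000d0005000e00030002000d000c00080003000b0004000e000b) (nat_lit 0x24060067204077) (nat_lit 16) Lb.e (@T16.mk En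
    (@En.i (nat_lit 3476) (nat_lit 8) (nat_lit 11))
    (@En.i (nat_lit 3499) (nat_lit 1) (nat_lit 14))
    (@En.n l50 (nat_lit 3508) (nat_lit 2) (nat_lit 4))
    (@En.n l612 (nat_lit 3498) (nat_lit 3) (nat_lit 11))
    (@En.n l50 (nat_lit 3502) (nat_lit 4) (nat_lit 3))
    (@En.i (nat_lit 1351) (nat_lit 5) (nat_lit 8))
    (@En.n l217 (nat_lit 3503) (nat_lit 7) (nat_lit 12))
    (@En.i (nat_lit 11680) (nat_lit 8) (nat_lit 13))
    (@En.n l28 (nat_lit 3500) (nat_lit 8) (nat_lit 2))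
    (@En.i (nat_lit 3507) (nat_lit 9) (nat_lit 3))
    (@En.i (nat_lit 13776) (nat_lit 0) (nat_lit 14))
    (@En.i (nat_lit 2600) (nat_lit 2) (nat_lit 5))
    (@En.i (nat_lit 8337) (nat_lit 13) (nat_lit 13))
    (@En.n l617 (nat_lit 3539) (nat_lit 10) (nat_lit 8))
    (@En.i (nat_lit 3533) (nat_lit 13) (nat_lit 5))
    (@En.n l3 (nat_lit 3500) (nat_lit 15) (nat_lit 2))))
  (@Cl.mk (nat_lit 0x2000600050009000d0006000e00030002000d0007000a0003000b000e000a) (nat_lit 0x3508007020476) (nat_lit 16) Lb.e (@T16.mk En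
    (@En.n l17 (nat_lit 3475) (nat_lit 9) (nat_lit 10))
    (@En.i (nat_lit 2045) (nat_lit 4) (nat_lit 14))
    (@En.i (nat_lit 3387) (nat_lit 2) (nat_lit 11))
    (@En.i (nat_lit 3499) (nat_lit 3) (nat_lit 3))
    (@En.i (nat_lit 3426) (nat_lit 4) (nat_lit 10))
    (@En.i (nat_lit 3497) (nat_lit 5) (nat_lit 7))
    (@En.i (nat_lit 11679) (nat_lit 7) (nat_lit 13))
    (@En.n l28 (nat_lit 3501) (nat_lit 7) (nat_lit 2))
    (@En.i (nat_lit 3504) (nat_lit 8) (nat_lit 3))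
    (@En.i (nat_lit 13774) (nat_lit 0) (nat_lit 14))
    (@En.i (nat_lit 2601) (nat_lit 2) (nat_lit 6))
    (@En.i (nat_lit 8597) (nat_lit 12) (nat_lit 13))
    (@En.n l617 (nat_lit 3503) (nat_lit 13) (nat_lit 9))
    (@En.n l17 (nat_lit 3502) (nat_lit 14) (nat_lit 5))
    (@En.i (nat_lit 7295) (nat_lit 6) (nat_lit 6))
    (@En.n l3 (nat_lit 3501) (nat_lit 15) (nat_lit 2))))
  (@Cl.mk (nat_lit 0x200050009000d0005000e00030002000d0007000d0003000b0003000e000b) (nat_lit 0x24060060904087) (nat_lit 16) Lb.e (@T16.mk En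
    (@En.i (nat_lit 3473) (nat_lit 8) (nat_lit 11))
    (@En.i (nat_lit 3501) (nat_lit 1) (nat_lit 14))
    (@En.i (nat_lit 3503) (nat_lit 2) (nat_lit 3))
    (@En.i (nat_lit 3372) (nat_lit 3) (nat_lit 11))
    (@En.i (nat_lit 3500) (nat_lit 4) (nat_lit 3))
    (@En.i (nat_lit 3546) (nat_lit 6) (nat_lit 13))
    (@En.i (nat_lit 3498) (nat_lit 6) (nat_lit 7))
    (@En.i (nat_lit 11682) (nat_lit 8) (nat_lit 13))
    (@En.n l28 (nat_lit 3502) (nat_lit 8) (nat_lit 2))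
    (@En.i (nat_lit 3505) (nat_lit 9) (nat_lit 3))
    (@En.i (nat_lit 13775) (nat_lit 0) (nat_lit 14))
    (@En.i (nat_lit 2388) (nat_lit 2) (nat_lit 5))
    (@En.i (nat_lit 8311) (nat_lit 13) (nat_lit 13))
    (@En.n l617 (nat_lit 2877) (nat_lit 14) (nat_lit 9))
    (@En.i (nat_lit 7448) (nat_lit 13) (nat_lit 5))
    (@En.n l3 (nat_lit 3502) (nat_lit 15) (nat_lit 2))))
  (@Cl.mk (nat_lit 0x200060009000d0005000e00030002000c0007000d000a00040003000e000b) (nat_lit 0x24060060930087) (nat_lit 16) Lb.e (@T16.mk En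
    (@En.i (nat_lit 3474) (nat_lit 8) (nat_lit 11))
    (@En.i (nat_lit 2043) (nat_lit 1) (nat_lit 14))
    (@En.n l18 (nat_lit 3502) (nat_lit 2) (nat_lit 3))
    (@En.i (nat_lit 3538) (nat_lit 3) (nat_lit 4))
    (@En.n l61 (nat_lit 3501) (nat_lit 4) (nat_lit 10))
    (@En.n l1353 (nat_lit 3542) (nat_lit 6) (nat_lit 13))
    (@En.i (nat_lit 3496) (nat_lit 6) (nat_lit 7))
    (@En.i (nat_lit 12229) (nat_lit 8) (nat_lit 12))
    (@En.n l28 (nat_lit 3503) (nat_lit 8) (nat_lit 2))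
    (@En.i (nat_lit 3506) (nat_lit 9) (nat_lit 3))
    (@En.i (nat_lit 13773) (nat_lit 0) (nat_lit 14))
    (@En.i (nat_lit 2389) (nat_lit 2) (nat_lit 5))
    (@En.i (nat_lit 8594) (nat_lit 13) (nat_lit 13))
    (@En.n l617 (nat_lit 3568) (nat_lit 9) (nat_lit 9))
    (@En.i (nat_lit 4348) (nat_lit 5) (nat_lit 6))
    (@En.n l3 (nat_lit 3503) (nat_lit 15) (nat_lit 2))))
noncomputable def a219 : T16 Cl := @T16.mk Cl
  (@Cl.mk (nat_lit 0x2000600050009000d000d000700030003000d0007000a0003000b000e0009) (nat_lit 0x3460007020466) (nat_lit 16) Lb.e (@T16.mk En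
    (@En.n l17 (nat_lit 2753) (nat_lit 13) (nat_lit 9))
    (@En.i (nat_lit 2047) (nat_lit 4) (nat_lit 14))
    (@En.n l164 (nat_lit 3371) (nat_lit 2) (nat_lit 11))
    (@En.i (nat_lit 3493) (nat_lit 3) (nat_lit 3))
    (@En.n l7644 (nat_lit 2909) (nat_lit 4) (nat_lit 10))
    (@En.i (nat_lit 3489) (nat_lit 5) (nat_lit 7))
    (@En.i (nat_lit 11683) (nat_lit 7) (nat_lit 13))
    (@En.i (nat_lit 3495) (nat_lit 7) (nat_lit 3))
    (@En.n l11 (nat_lit 3501) (nat_lit 8) (nat_lit 3))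
    (@En.i (nat_lit 2291) (nat_lit 0) (nat_lit 7))
    (@En.n l55 (nat_lit 3501) (nat_lit 11) (nat_lit 13))
    (@En.i (nat_lit 8484) (nat_lit 12) (nat_lit 13))
    (@En.n l617 (nat_lit 3506) (nat_lit 13) (nat_lit 9))
    (@En.n l17 (nat_lit 3505) (nat_lit 14) (nat_lit 5))
    (@En.n l1080 (nat_lit 7216) (nat_lit 5) (nat_lit 6))
    (@En.n l3 (nat_lit 3504) (nat_lit 15) (nat_lit 2))))
  (@Cl.mk (nat_lit 0x200050009000d000d000600030003000d0007000d0003000b0003000e000a) (nat_lit 0x23500060904077) (nat_lit 16) Lb.e (@T16.mk En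
    (@En.i (nat_lit 2750) (nat_lit 14) (nat_lit 10))
    (@En.i (nat_lit 3504) (nat_lit 1) (nat_lit 14))
    (@En.i (nat_lit 3506) (nat_lit 2) (nat_lit 3))
    (@En.n l164 (nat_lit 3367) (nat_lit 3) (nat_lit 11))
    (@En.i (nat_lit 3507) (nat_lit 4) (nat_lit 3))
    (@En.n l287 (nat_lit 3549) (nat_lit 6) (nat_lit 13))
    (@En.i (nat_lit 3491) (nat_lit 6) (nat_lit 7))
    (@En.i (nat_lit 11684) (nat_lit 8) (nat_lit 13))
    (@En.i (nat_lit 3509) (nat_lit 8) (nat_lit 3))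
    (@En.n l11 (nat_lit 3502) (nat_lit 9) (nat_lit 3))
    (@En.i (nat_lit 2289) (nat_lit 0) (nat_lit 6))
    (@En.n l55 (nat_lit 3502) (nat_lit 12) (nat_lit 13))
    (@En.i (nat_lit 8486) (nat_lit 13) (nat_lit 13))
    (@En.n l617 (nat_lit 3515) (nat_lit 14) (nat_lit 9))
    (@En.i (nat_lit 3532) (nat_lit 13) (nat_lit 5))
    (@En.n l3 (nat_lit 3505) (nat_lit 15) (nat_lit 2))))
  (@Cl.mk (nat_lit 0x200060009000d000d000600030003000c0007000d000a00040003000e000a) (nat_lit 0x235000609300a8) (nat_lit 16) Lb.e (@T16.mk En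
    (@En.i (nat_lit 2751) (nat_lit 14) (nat_lit 10))
    (@En.i (nat_lit 761) (nat_lit 1) (nat_lit 14))
    (@En.n l18 (nat_lit 3505) (nat_lit 2) (nat_lit 3))
    (@En.i (nat_lit 2561) (nat_lit 3) (nat_lit 4))
    (@En.n l61 (nat_lit 3504) (nat_lit 4) (nat_lit 10))
    (@En.n l287 (nat_lit 3545) (nat_lit 6) (nat_lit 13))
    (@En.i (nat_lit 3490) (nat_lit 6) (nat_lit 7))
    (@En.i (nat_lit 12225) (nat_lit 8) (nat_lit 12))
    (@En.i (nat_lit 3511) (nat_lit 8) (nat_lit 3))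
    (@En.n l11 (nat_lit 3503) (nat_lit 9) (nat_lit 3))
    (@En.i (nat_lit 2288) (nat_lit 0) (nat_lit 6))
    (@En.n l55 (nat_lit 3503) (nat_lit 12) (nat_lit 13))
    (@En.i (nat_lit 8490) (nat_lit 13) (nat_lit 13))
    (@En.n l617 (nat_lit 3514) (nat_lit 9) (nat_lit 9))
    (@En.i (nat_lit 4349) (nat_lit 4) (nat_lit 6))
    (@En.n l3 (nat_lit 3506) (nat_lit 15) (nat_lit 2))))
  (@Cl.mk (nat_lit 0x200050008000d000d000600030003000d000c00080003000b0004000e000a) (nat_lit 0x23500067204077) (nat_lit 16) Lb.e (@T16.mk En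
    (@En.i (nat_lit 3480) (nat_lit 12) (nat_lit 10))
    (@En.i (nat_lit 3493) (nat_lit 1) (nat_lit 14))
    (@En.n l50 (nat_lit 1843) (nat_lit 2) (nat_lit 4))
    (@En.n l612 (nat_lit 3491) (nat_lit 3) (nat_lit 11))
    (@En.n l50 (nat_lit 3505) (nat_lit 4) (nat_lit 3))
    (@En.i (nat_lit 1385) (nat_lit 5) (nat_lit 8))
    (@En.n l217 (nat_lit 3506) (nat_lit 7) (nat_lit 12))
    (@En.i (nat_lit 11685) (nat_lit 8) (nat_lit 13))
    (@En.i (nat_lit 3510) (nat_lit 8) (nat_lit 3))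
    (@En.n l11 (nat_lit 3500) (nat_lit 9) (nat_lit 3))
    (@En.i (nat_lit 2290) (nat_lit 0) (nat_lit 6))
    (@En.n l55 (nat_lit 3500) (nat_lit 12) (nat_lit 13))
    (@En.i (nat_lit 8338) (nat_lit 13) (nat_lit 13))
    (@En.n l617 (nat_lit 2566) (nat_lit 10) (nat_lit 8))
    (@En.i (nat_lit 3529) (nat_lit 13) (nat_lit 5))
    (@En.n l3 (nat_lit 3507) (nat_lit 15) (nat_lit 2))))
  (@Cl.mk (nat_lit 0x200070007000d0005000e00030002000c000c0009000900040004000e000b) (nat_lit 0x4050067230078) (nat_lit 16) Lb.e (@T16.mk En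
    (@En.i (nat_lit 2703) (nat_lit 8) (nat_lit 11))
    (@En.n l2171 (nat_lit 2041) (nat_lit 1) (nat_lit 14))
    (@En.n l2172 (nat_lit 2548) (nat_lit 2) (nat_lit 4))
    (@En.i (nat_lit 3503) (nat_lit 3) (nat_lit 4))
    (@En.n l2588 (nat_lit 1833) (nat_lit 7) (nat_lit 9))
    (@En.n l742 (nat_lit 3499) (nat_lit 5) (nat_lit 9))
    (@En.n l396 (nat_lit 3538) (nat_lit 7) (nat_lit 12))
    (@En.n l5911 (nat_lit 11745) (nat_lit 8) (nat_lit 12))
    (@En.n l28 (nat_lit 3508) (nat_lit 8) (nat_lit 2))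
    (@En.i (nat_lit 1843) (nat_lit 9) (nat_lit 3))
    (@En.i (nat_lit 13757) (nat_lit 0) (nat_lit 14))
    (@En.i (nat_lit 2438) (nat_lit 2) (nat_lit 5))
    (@En.i (nat_lit 8634) (nat_lit 13) (nat_lit 13))
    (@En.n l2176 (nat_lit 2492) (nat_lit 9) (nat_lit 7))
    (@En.i (nat_lit 7333) (nat_lit 5) (nat_lit 7))
    (@En.n l3 (nat_lit 3508) (nat_lit 15) (nat_lit 2))))
  (@Cl.mk (nat_lit 0x200050009000e000d000200070003000d0007000d0003000b0003000e0009) (nat_lit 0x234000608040a7) (nat_lit 16) Lb.e (@T16.mk En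
    (@En.n l1090 (nat_lit 2747) (nat_lit 5) (nat_lit 9))
    (@En.i (nat_lit 3495) (nat_lit 1) (nat_lit 14))
    (@En.i (nat_lit 3511) (nat_lit 2) (nat_lit 3))
    (@En.n l3604 (nat_lit 3368) (nat_lit 3) (nat_lit 11))
    (@En.i (nat_lit 3510) (nat_lit 4) (nat_lit 3))
    (@En.n l3605 (nat_lit 3556) (nat_lit 6) (nat_lit 13))
    (@En.n l3606 (nat_lit 3492) (nat_lit 6) (nat_lit 7))
    (@En.n l3607 (nat_lit 11330) (nat_lit 8) (nat_lit 13))
    (@En.n l218 (nat_lit 3505) (nat_lit 8) (nat_lit 3))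
    (@En.n l716 (nat_lit 2610) (nat_lit 0) (nat_lit 7))
    (@En.n l28 (nat_lit 3509) (nat_lit 10) (nat_lit 2))
    (@En.n l55 (nat_lit 3505) (nat_lit 12) (nat_lit 13))
    (@En.n l218 (nat_lit 9000) (nat_lit 13) (nat_lit 14))
    (@En.n l617 (nat_lit 3512) (nat_lit 2) (nat_lit 9))
    (@En.n l3605 (nat_lit 7209) (nat_lit 3) (nat_lit 5))
    (@En.n l3 (nat_lit 3509) (nat_lit 15) (nat_lit 2))))
  (@Cl.mk (nat_lit 0x200050008000e000d000200070003000d000c00080003000b0004000e0009) (nat_lit 0x23400068204097) (nat_lit 16) Lb.e (@T16.mk En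
    (@En.n l1090 (nat_lit 2749) (nat_lit 5) (nat_lit 9))
    (@En.n l1091 (nat_lit 3494) (nat_lit 1) (nat_lit 14))
    (@En.n l1092 (nat_lit 2563) (nat_lit 7) (nat_lit 4))
    (@En.n l1093 (nat_lit 3492) (nat_lit 3) (nat_lit 11))
    (@En.n l50 (nat_lit 3509) (nat_lit 4) (nat_lit 3))
    (@En.n l1094 (nat_lit 1384) (nat_lit 5) (nat_lit 8))
    (@En.n l217 (nat_lit 3511) (nat_lit 7) (nat_lit 12))
    (@En.n l1095 (nat_lit 11334) (nat_lit 8) (nat_lit 13))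
    (@En.n l218 (nat_lit 3507) (nat_lit 8) (nat_lit 3))
    (@En.n l716 (nat_lit 2441) (nat_lit 0) (nat_lit 7))
    (@En.n l28 (nat_lit 3510) (nat_lit 10) (nat_lit 2))
    (@En.n l55 (nat_lit 3507) (nat_lit 12) (nat_lit 13))
    (@En.n l218 (nat_lit 9001) (nat_lit 13) (nat_lit 14))
    (@En.n l617 (nat_lit 2565) (nat_lit 10) (nat_lit 8))
    (@En.i (nat_lit 3534) (nat_lit 3) (nat_lit 5))
    (@En.n l3 (nat_lit 3510) (nat_lit 15) (nat_lit 2))))
  (@Cl.mk (nat_lit 0x200060009000e000d000200070003000c0007000d000a00040003000e0009) (nat_lit 0x23400070930097) (nat_lit 16) Lb.e (@T16.mk En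
    (@En.n l1090 (nat_lit 2748) (nat_lit 5) (nat_lit 9))
    (@En.n l2959 (nat_lit 763) (nat_lit 1) (nat_lit 14))
    (@En.n l18 (nat_lit 3509) (nat_lit 2) (nat_lit 3))
    (@En.n l738 (nat_lit 2560) (nat_lit 8) (nat_lit 4))
    (@En.n l61 (nat_lit 3495) (nat_lit 4) (nat_lit 10))
    (@En.n l2960 (nat_lit 2571) (nat_lit 11) (nat_lit 13))
    (@En.n l2771 (nat_lit 3487) (nat_lit 6) (nat_lit 7))
    (@En.n l1095 (nat_lit 11332) (nat_lit 8) (nat_lit 12))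
    (@En.n l218 (nat_lit 3506) (nat_lit 8) (nat_lit 3))
    (@En.n l716 (nat_lit 2440) (nat_lit 0) (nat_lit 7))
    (@En.n l28 (nat_lit 3511) (nat_lit 10) (nat_lit 2))
    (@En.n l55 (nat_lit 3506) (nat_lit 12) (nat_lit 13))
    (@En.n l218 (nat_lit 8999) (nat_lit 13) (nat_lit 14))
    (@En.n l2961 (nat_lit 3513) (nat_lit 9) (nat_lit 9))
    (@En.i (nat_lit 7211) (nat_lit 3) (nat_lit 6))
    (@En.n l3 (nat_lit 3511) (nat_lit 15) (nat_lit 2))))
  (@Cl.mk (nat_lit 0x200060003000c0007000d000d000400030003000e000a00020009000e000d) (nat_lit 0x6029000a80123) (nat_lit 16) Lb.e (@T16.mk En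
    (@En.n l55 (nat_lit 3515) (nat_lit 13) (nat_lit 13))
    (@En.n l218 (nat_lit 3697) (nat_lit 1) (nat_lit 14))
    (@En.n l615 (nat_lit 549) (nat_lit 2) (nat_lit 9))
    (@En.n l3 (nat_lit 3512) (nat_lit 3) (nat_lit 2))
    (@En.i (nat_lit 3600) (nat_lit 4) (nat_lit 10))
    (@En.i (nat_lit 3511) (nat_lit 1) (nat_lit 14))
    (@En.n l218 (nat_lit 3513) (nat_lit 13) (nat_lit 3))
    (@En.n l18 (nat_lit 3516) (nat_lit 7) (nat_lit 3))
    (@En.i (nat_lit 2565) (nat_lit 0) (nat_lit 4))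
    (@En.n l61 (nat_lit 3516) (nat_lit 10) (nat_lit 13))
    (@En.n l287 (nat_lit 3555) (nat_lit 7) (nat_lit 13))
    (@En.n l2391 (nat_lit 3224) (nat_lit 12) (nat_lit 7))
    (@En.n l2392 (nat_lit 12377) (nat_lit 13) (nat_lit 12))
    (@En.n l218 (nat_lit 3515) (nat_lit 9) (nat_lit 3))
    (@En.n l716 (nat_lit 2275) (nat_lit 0) (nat_lit 6))
    (@En.n l28 (nat_lit 3512) (nat_lit 15) (nat_lit 2))))
  (@Cl.mk (nat_lit 0x200050003000e000a00020009000e000d000200060003000b0007000e000d) (nat_lit 0xa801230009033) (nat_lit 16) Lb.e (@T16.mk En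
    (@En.n l3274 (nat_lit 3512) (nat_lit 10) (nat_lit 13))
    (@En.n l3275 (nat_lit 3522) (nat_lit 11) (nat_lit 14))
    (@En.n l3276 (nat_lit 3225) (nat_lit 12) (nat_lit 7))
    (@En.n l3277 (nat_lit 12376) (nat_lit 3) (nat_lit 11))
    (@En.i (nat_lit 3514) (nat_lit 4) (nat_lit 3))
    (@En.n l3278 (nat_lit 2274) (nat_lit 5) (nat_lit 6))
    (@En.n l11 (nat_lit 3513) (nat_lit 6) (nat_lit 2))
    (@En.n l3279 (nat_lit 3514) (nat_lit 8) (nat_lit 13))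
    (@En.i (nat_lit 3701) (nat_lit 9) (nat_lit 14))
    (@En.n l3280 (nat_lit 550) (nat_lit 2) (nat_lit 9))
    (@En.n l3 (nat_lit 3513) (nat_lit 10) (nat_lit 2))
    (@En.n l3281 (nat_lit 3601) (nat_lit 12) (nat_lit 10))
    (@En.n l951 (nat_lit 757) (nat_lit 13) (nat_lit 14))
    (@En.n l3282 (nat_lit 3512) (nat_lit 6) (nat_lit 3))
    (@En.n l951 (nat_lit 2562) (nat_lit 7) (nat_lit 5))
    (@En.n l17 (nat_lit 3513) (nat_lit 15) (nat_lit 2))))
  (@Cl.mk (nat_lit 0x200050003000e000b00020009000d000d000500030003000b0007000e000d) (nat_lit 0xb801240009028) (nat_lit 16) Lb.e (@T16.mk En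
    (@En.n l61 (nat_lit 3515) (nat_lit 6) (nat_lit 13))
    (@En.n l1353 (nat_lit 3523) (nat_lit 7) (nat_lit 14))
    (@En.n l5808 (nat_lit 3223) (nat_lit 7) (nat_lit 7))
    (@En.n l5331 (nat_lit 9232) (nat_lit 3) (nat_lit 11))
    (@En.n l218 (nat_lit 3513) (nat_lit 4) (nat_lit 3))
    (@En.n l11 (nat_lit 3568) (nat_lit 5) (nat_lit 3))
    (@En.n l5333 (nat_lit 2287) (nat_lit 6) (nat_lit 5))
    (@En.n l55 (nat_lit 3568) (nat_lit 8) (nat_lit 13))
    (@En.i (nat_lit 4019) (nat_lit 9) (nat_lit 13))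
    (@En.n l669 (nat_lit 541) (nat_lit 10) (nat_lit 9))
    (@En.n l3 (nat_lit 3514) (nat_lit 10) (nat_lit 2))
    (@En.i (nat_lit 3594) (nat_lit 12) (nat_lit 11))
    (@En.n l797 (nat_lit 762) (nat_lit 13) (nat_lit 14))
    (@En.n l72 (nat_lit 3515) (nat_lit 2) (nat_lit 3))
    (@En.n l797 (nat_lit 2491) (nat_lit 3) (nat_lit 5))
    (@En.n l17 (nat_lit 3514) (nat_lit 15) (nat_lit 2))))
  (@Cl.mk (nat_lit 0x20009000d000d000500030003000c0007000d000d000400030003000e000b) (nat_lit 0x1240006078000b8) (nat_lit 16) Lb.e (@T16.mk En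
    (@En.i (nat_lit 2875) (nat_lit 13) (nat_lit 11))
    (@En.i (nat_lit 3506) (nat_lit 1) (nat_lit 14))
    (@En.i (nat_lit 3514) (nat_lit 13) (nat_lit 3))
    (@En.n l18 (nat_lit 3517) (nat_lit 3) (nat_lit 3))
    (@En.i (nat_lit 2566) (nat_lit 0) (nat_lit 4))
    (@En.n l61 (nat_lit 3517) (nat_lit 6) (nat_lit 13))
    (@En.n l287 (nat_lit 3547) (nat_lit 7) (nat_lit 13))
    (@En.i (nat_lit 3226) (nat_lit 7) (nat_lit 7))
    (@En.i (nat_lit 9240) (nat_lit 9) (nat_lit 12))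
    (@En.i (nat_lit 3512) (nat_lit 13) (nat_lit 3))
    (@En.n l11 (nat_lit 2877) (nat_lit 10) (nat_lit 3))
    (@En.i (nat_lit 2286) (nat_lit 0) (nat_lit 5))
    (@En.n l55 (nat_lit 2877) (nat_lit 13) (nat_lit 13))
    (@En.i (nat_lit 3829) (nat_lit 14) (nat_lit 13))
    (@En.n l615 (nat_lit 538) (nat_lit 11) (nat_lit 9))
    (@En.n l3 (nat_lit 3515) (nat_lit 15) (nat_lit 2))))
  (@Cl.mk (nat_lit 0x200060003000d0007000d0003000e00030002000e000a00020009000e000d) (nat_lit 0xb080300b80123) (nat_lit 16) Lb.e (@T16.mk En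
    (@En.n l55 (nat_lit 3517) (nat_lit 13) (nat_lit 13))
    (@En.n l218 (nat_lit 3698) (nat_lit 1) (nat_lit 14))
    (@En.n l615 (nat_lit 551) (nat_lit 2) (nat_lit 9))
    (@En.n l3 (nat_lit 3516) (nat_lit 3) (nat_lit 2))
    (@En.i (nat_lit 3604) (nat_lit 4) (nat_lit 10))
    (@En.i (nat_lit 3509) (nat_lit 1) (nat_lit 14))
    (@En.n l17 (nat_lit 3516) (nat_lit 6) (nat_lit 2))
    (@En.i (nat_lit 3512) (nat_lit 7) (nat_lit 3))
    (@En.i (nat_lit 13921) (nat_lit 0) (nat_lit 14))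
    (@En.i (nat_lit 3518) (nat_lit 9) (nat_lit 3))
    (@En.n l287 (nat_lit 3554) (nat_lit 7) (nat_lit 13))
    (@En.i (nat_lit 3524) (nat_lit 12) (nat_lit 7))
    (@En.i (nat_lit 12380) (nat_lit 13) (nat_lit 13))
    (@En.n l218 (nat_lit 3517) (nat_lit 9) (nat_lit 3))
    (@En.n l716 (nat_lit 2372) (nat_lit 0) (nat_lit 6))
    (@En.n l28 (nat_lit 3516) (nat_lit 15) (nat_lit 2))))
  (@Cl.mk (nat_lit 0x20009000d000d000500030003000d0007000d0003000e00030002000e000b) (nat_lit 0x124000a07050088) (nat_lit 16) Lb.e (@T16.mk En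
    (@En.i (nat_lit 3605) (nat_lit 14) (nat_lit 11))
    (@En.i (nat_lit 3505) (nat_lit 1) (nat_lit 14))
    (@En.n l17 (nat_lit 3517) (nat_lit 2) (nat_lit 2))
    (@En.i (nat_lit 3515) (nat_lit 3) (nat_lit 3))
    (@En.i (nat_lit 13920) (nat_lit 0) (nat_lit 14))
    (@En.i (nat_lit 3519) (nat_lit 5) (nat_lit 3))
    (@En.n l287 (nat_lit 3550) (nat_lit 7) (nat_lit 13))
    (@En.i (nat_lit 3229) (nat_lit 7) (nat_lit 7))
    (@En.i (nat_lit 6371) (nat_lit 9) (nat_lit 13))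
    (@En.i (nat_lit 3516) (nat_lit 13) (nat_lit 3))
    (@En.n l11 (nat_lit 3567) (nat_lit 10) (nat_lit 3))
    (@En.i (nat_lit 2293) (nat_lit 0) (nat_lit 5))
    (@En.n l55 (nat_lit 3567) (nat_lit 13) (nat_lit 13))
    (@En.i (nat_lit 3830) (nat_lit 14) (nat_lit 13))
    (@En.n l615 (nat_lit 540) (nat_lit 12) (nat_lit 9))
    (@En.n l3 (nat_lit 3517) (nat_lit 15) (nat_lit 2))))
  (@Cl.mk (nat_lit 0x200060003000d000c00080003000e00040002000e000a00020008000e000d) (nat_lit 0xa710100a80223) (nat_lit 16) Lb.e (@T16.mk En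
    (@En.n l55 (nat_lit 3519) (nat_lit 13) (nat_lit 13))
    (@En.n l218 (nat_lit 3699) (nat_lit 1) (nat_lit 14))
    (@En.n l615 (nat_lit 1004) (nat_lit 2) (nat_lit 8))
    (@En.n l3 (nat_lit 3518) (nat_lit 3) (nat_lit 2))
    (@En.i (nat_lit 3639) (nat_lit 4) (nat_lit 10))
    (@En.i (nat_lit 3510) (nat_lit 1) (nat_lit 14))
    (@En.n l17 (nat_lit 3518) (nat_lit 6) (nat_lit 2))
    (@En.n l50 (nat_lit 3520) (nat_lit 7) (nat_lit 4))
    (@En.n l5 (nat_lit 631) (nat_lit 9) (nat_lit 14))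
    (@En.n l50 (nat_lit 3516) (nat_lit 9) (nat_lit 3))
    (@En.n l714 (nat_lit 2029) (nat_lit 11) (nat_lit 8))
    (@En.n l217 (nat_lit 3512) (nat_lit 12) (nat_lit 12))
    (@En.n l715 (nat_lit 12384) (nat_lit 13) (nat_lit 13))
    (@En.n l218 (nat_lit 3519) (nat_lit 9) (nat_lit 3))
    (@En.n l716 (nat_lit 2247) (nat_lit 7) (nat_lit 6))
    (@En.n l28 (nat_lit 3518) (nat_lit 15) (nat_lit 2))))
  (@Cl.mk (nat_lit 0x20008000d000d000500030003000d000c00080003000e00040002000e000b) (nat_lit 0x124000b71010088) (nat_lit 16) Lb.e (@T16.mk En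
    (@En.i (nat_lit 3636) (nat_lit 14) (nat_lit 11))
    (@En.i (nat_lit 3507) (nat_lit 1) (nat_lit 14))
    (@En.n l17 (nat_lit 3519) (nat_lit 2) (nat_lit 2))
    (@En.n l50 (nat_lit 3521) (nat_lit 3) (nat_lit 4))
    (@En.n l5 (nat_lit 635) (nat_lit 1) (nat_lit 14))
    (@En.n l50 (nat_lit 3517) (nat_lit 5) (nat_lit 3))
    (@En.i (nat_lit 2028) (nat_lit 6) (nat_lit 8))
    (@En.n l217 (nat_lit 3515) (nat_lit 8) (nat_lit 12))
    (@En.i (nat_lit 6375) (nat_lit 9) (nat_lit 13))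
    (@En.i (nat_lit 3518) (nat_lit 13) (nat_lit 3))
    (@En.n l11 (nat_lit 3566) (nat_lit 10) (nat_lit 3))
    (@En.i (nat_lit 2292) (nat_lit 0) (nat_lit 5))
    (@En.n l55 (nat_lit 3566) (nat_lit 13) (nat_lit 13))
    (@En.i (nat_lit 3831) (nat_lit 14) (nat_lit 13))
    (@En.n l615 (nat_lit 332) (nat_lit 12) (nat_lit 8))
    (@En.n l3 (nat_lit 3519) (nat_lit 15) (nat_lit 2))))

end Pool.Agent.MP_61a8e3_al.G4.K
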