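import Pool.Agent.MP_61a8e3_al.G4.KL0
import Pool.Agent.MP_61a8e3_al.G4.KL1
import Pool.Agent.MP_61a8e3_al.G4.KL2
import Pool.Agent.MP_61a8e3_al.G4.KL3
import Pool.Agent.MP_61a8e3_al.G4.KL4
import Pool.Agent.MP_61a8e3_al.G4.KL5
import Pool.Agent.MP_61a8e3_al.G4.KL6
import Pool.Agent.MP_61a8e3_al.G4.KL7

/-! Part K: classes, part 2. -/

set_option autoImplicit false
set_option maxRecDepth 100000
set_option linter.all false

namespace Pool.Agent.MP_61a8e3_al.G4.K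

noncomputable def a220 : T16 Cl := @T16.mk Cl
  (@Cl.mk (nat_lit 0x200060003000c000c000c0009000400040004000e000a00020007000e000d) (nat_lit 0x5181000a80023) (nat_lit 16) Lb.e (@T16.mk En
    (@En.n l55 (nat_lit 3521) (nat_lit 13) (nat_lit 13))
    (@En.n l218 (nat_lit 3700) (nat_lit 1) (nat_lit 14))
    (@En.n l737 (nat_lit 1007) (nat_lit 2) (nat_lit 7))
    (@En.n l3 (nat_lit 3520) (nat_lit 3) (nat_lit 2))
    (@En.n l737 (nat_lit 3563) (nat_lit 4) (nat_lit 10))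
    (@En.n l738 (nat_lit 2563) (nat_lit 6) (nat_lit 14))
    (@En.n l739 (nat_lit 3522) (nat_lit 6) (nat_lit 4))
    (@En.n l740 (nat_lit 3553) (nat_lit 7) (nat_lit 4))
    (@En.i (nat_lit 3512) (nat_lit 8) (nat_lit 4))
    (@En.n l741 (nat_lit 2571) (nat_lit 10) (nat_lit 9))
    (@En.n l742 (nat_lit 3518) (nat_lit 11) (nat_lit 12))
    (@En.n l396 (nat_lit 2565) (nat_lit 4) (nat_lit 12))
    (@En.n l743 (nat_lit 12379) (nat_lit 13) (nat_lit 12))
    (@En.n l218 (nat_lit 3521) (nat_lit 9) (nat_lit 3))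
    (@En.n l716 (nat_lit 2241) (nat_lit 0) (nat_lit 6))
    (@En.n l28 (nat_lit 3520) (nat_lit 15) (nat_lit 2))))
  (@Cl.mk (nat_lit 0x20007000d000d000500030003000c000c000c0009000400040004000e000b) (nat_lit 0x24000578300088) (nat_lit 16) Lb.e (@T16.mk En
    (@En.i (nat_lit 2879) (nat_lit 12) (nat_lit 11))
    (@En.i (nat_lit 1843) (nat_lit 1) (nat_lit 14))
    (@En.n l1935 (nat_lit 3523) (nat_lit 2) (nat_lit 4))
    (@En.n l740 (nat_lit 3552) (nat_lit 3) (nat_lit 4))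
    (@En.i (nat_lit 3515) (nat_lit 4) (nat_lit 4))
    (@En.n l879 (nat_lit 3545) (nat_lit 5) (nat_lit 9))
    (@En.n l742 (nat_lit 3519) (nat_lit 7) (nat_lit 12))
    (@En.n l396 (nat_lit 2566) (nat_lit 4) (nat_lit 12))
    (@En.n l7 (nat_lit 9244) (nat_lit 9) (nat_lit 12))
    (@En.i (nat_lit 3520) (nat_lit 13) (nat_lit 3))
    (@En.n l11 (nat_lit 3544) (nat_lit 10) (nat_lit 3))
    (@En.i (nat_lit 2281) (nat_lit 0) (nat_lit 5))
    (@En.n l55 (nat_lit 3544) (nat_lit 13) (nat_lit 13))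
    (@En.i (nat_lit 3816) (nat_lit 14) (nat_lit 13))
    (@En.n l1936 (nat_lit 348) (nat_lit 3) (nat_lit 7))
    (@En.n l3 (nat_lit 3521) (nat_lit 15) (nat_lit 2))))
  (@Cl.mk (nat_lit 0x200060003000b000e000c0002000a00050004000e000a00020006000e000d) (nat_lit 0x9220400b80023) (nat_lit 16) Lb.e (@T16.mk En
    (@En.n l980 (nat_lit 3523) (nat_lit 13) (nat_lit 13))
    (@En.n l108 (nat_lit 3704) (nat_lit 8) (nat_lit 14))
    (@En.n l981 (nat_lit 355) (nat_lit 2) (nat_lit 6))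
    (@En.n l28 (nat_lit 3522) (nat_lit 3) (nat_lit 2))
    (@En.n l982 (nat_lit 3608) (nat_lit 4) (nat_lit 10))
    (@En.n l983 (nat_lit 764) (nat_lit 6) (nat_lit 14))
    (@En.n l984 (nat_lit 3555) (nat_lit 2) (nat_lit 4))
    (@En.n l985 (nat_lit 3513) (nat_lit 14) (nat_lit 5))
    (@En.n l986 (nat_lit 3511) (nat_lit 4) (nat_lit 10))
    (@En.n l3 (nat_lit 3522) (nat_lit 9) (nat_lit 2))
    (@En.n l549 (nat_lit 3520) (nat_lit 11) (nat_lit 12))
    (@En.n l25 (nat_lit 2628) (nat_lit 4) (nat_lit 14))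
    (@En.i (nat_lit 12378) (nat_lit 13) (nat_lit 11))
    (@En.n l987 (nat_lit 3523) (nat_lit 9) (nat_lit 3))
    (@En.i (nat_lit 2404) (nat_lit 4) (nat_lit 6))
    (@En.n l18 (nat_lit 3522) (nat_lit 15) (nat_lit 2))))
  (@Cl.mk (nat_lit 0x20006000d000d000500030003000b000e000c0002000a00050004000e000b) (nat_lit 0x240009180400b8) (nat_lit 16) Lb.e (@T16.mk En
    (@En.n l2194 (nat_lit 3581) (nat_lit 11) (nat_lit 11))
    (@En.n l796 (nat_lit 765) (nat_lit 1) (nat_lit 14))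
    (@En.n l2195 (nat_lit 3547) (nat_lit 2) (nat_lit 4))
    (@En.n l775 (nat_lit 3514) (nat_lit 14) (nat_lit 5))
    (@En.i (nat_lit 3506) (nat_lit 4) (nat_lit 10))
    (@En.n l2196 (nat_lit 3523) (nat_lit 5) (nat_lit 2))
    (@En.n l2197 (nat_lit 3521) (nat_lit 7) (nat_lit 12))
    (@En.n l2198 (nat_lit 2500) (nat_lit 4) (nat_lit 14))
    (@En.n l2199 (nat_lit 9237) (nat_lit 9) (nat_lit 11))
    (@En.n l2200 (nat_lit 3522) (nat_lit 13) (nat_lit 3))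
    (@En.n l11 (nat_lit 3580) (nat_lit 10) (nat_lit 3))
    (@En.n l2201 (nat_lit 2285) (nat_lit 0) (nat_lit 5))
    (@En.n l55 (nat_lit 3580) (nat_lit 13) (nat_lit 13))
    (@En.n l2199 (nat_lit 4017) (nat_lit 8) (nat_lit 13))
    (@En.n l2202 (nat_lit 350) (nat_lit 8) (nat_lit 6))
    (@En.n l3 (nat_lit 3523) (nat_lit 15) (nat_lit 2))))
  (@Cl.mk (nat_lit 0x2000700030007000d0008000e00030002000e0009000200090008000e000d) (nat_lit 0x71800a702314) (nat_lit 16) Lb.e (@T16.mk En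
    (@En.n l55 (nat_lit 3229) (nat_lit 12) (nat_lit 13))
    (@En.n l7116 (nat_lit 874) (nat_lit 13) (nat_lit 14))
    (@En.n l644 (nat_lit 3518) (nat_lit 2) (nat_lit 8))
    (@En.n l7117 (nat_lit 641) (nat_lit 3) (nat_lit 9))
    (@En.n l3 (nat_lit 3524) (nat_lit 4) (nat_lit 2))
    (@En.i (nat_lit 3623) (nat_lit 5) (nat_lit 9))
    (@En.n l3606 (nat_lit 3492) (nat_lit 1) (nat_lit 14))
    (@En.n l17 (nat_lit 3524) (nat_lit 7) (nat_lit 2))
    (@En.n l2391 (nat_lit 3224) (nat_lit 8) (nat_lit 3))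
    (@En.n l7117 (nat_lit 14098) (nat_lit 0) (nat_lit 14))
    (@En.n l2851 (nat_lit 2036) (nat_lit 11) (nat_lit 8))
    (@En.n l564 (nat_lit 3509) (nat_lit 7) (nat_lit 13))
    (@En.n l7118 (nat_lit 5500) (nat_lit 13) (nat_lit 7))
    (@En.n l218 (nat_lit 3229) (nat_lit 8) (nat_lit 3))
    (@En.n l716 (nat_lit 2367) (nat_lit 0) (nat_lit 7))
    (@En.n l28 (nat_lit 3524) (nat_lit 15) (nat_lit 2))))
  (@Cl.mk (nat_lit 0x20007000d0008000e00030002000e000b000200090008000d0005000e0003) (nat_lit 0x71500890224050) (nat_lit 16) Lb.e (@T16.mk En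
    (@En.i (nat_lit 3229) (nat_lit 9) (nat_lit 3))
    (@En.n l7471 (nat_lit 12790) (nat_lit 0) (nat_lit 14))
    (@En.i (nat_lit 2302) (nat_lit 2) (nat_lit 5))
    (@En.n l564 (nat_lit 6314) (nat_lit 13) (nat_lit 13))
    (@En.n l644 (nat_lit 3566) (nat_lit 14) (nat_lit 8))
    (@En.i (nat_lit 657) (nat_lit 12) (nat_lit 9))
    (@En.n l3 (nat_lit 3525) (nat_lit 6) (nat_lit 2))
    (@En.i (nat_lit 3245) (nat_lit 8) (nat_lit 11))
    (@En.i (nat_lit 3498) (nat_lit 1) (nat_lit 14))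
    (@En.n l17 (nat_lit 3525) (nat_lit 9) (nat_lit 2))
    (@En.i (nat_lit 3228) (nat_lit 10) (nat_lit 3))
    (@En.i (nat_lit 14100) (nat_lit 0) (nat_lit 14))
    (@En.i (nat_lit 2033) (nat_lit 5) (nat_lit 8))
    (@En.n l564 (nat_lit 3502) (nat_lit 7) (nat_lit 13))
    (@En.n l3506 (nat_lit 6367) (nat_lit 7) (nat_lit 7))
    (@En.n l28 (nat_lit 3525) (nat_lit 15) (nat_lit 2))))
  (@Cl.mk (nat_lit 0x2000a000500090008000d000d0006000300030007000c0008000b000e0004) (nat_lit 0x1200000000890) (nat_lit 16) Lb.e (@T16.mk En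
    (@En.n l3098 (nat_lit 3531) (nat_lit 8) (nat_lit 4))
    (@En.i (nat_lit 3229) (nat_lit 4) (nat_lit 14))
    (@En.n l19425 (nat_lit 4715) (nat_lit 2) (nat_lit 11))
    (@En.n l58 (nat_lit 3671) (nat_lit 3) (nat_lit 8))
    (@En.n l3904 (nat_lit 7216) (nat_lit 13) (nat_lit 12))
    (@En.n l12197 (nat_lit 12128) (nat_lit 5) (nat_lit 7))
    (@En.n l17158 (nat_lit 3528) (nat_lit 13) (nat_lit 3))
    (@En.n l11 (nat_lit 3527) (nat_lit 0) (nat_lit 3))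
    (@En.i (nat_lit 6871) (nat_lit 0) (nat_lit 6))
    (@En.n l55 (nat_lit 3527) (nat_lit 3) (nat_lit 13))
    (@En.n l564 (nat_lit 7903) (nat_lit 11) (nat_lit 13))
    (@En.n l644 (nat_lit 3529) (nat_lit 12) (nat_lit 8))
    (@En.n l3447 (nat_lit 664) (nat_lit 13) (nat_lit 9))
    (@En.n l19425 (nat_lit 3530) (nat_lit 14) (nat_lit 5))
    (@En.i (nat_lit 6869) (nat_lit 7) (nat_lit 10))
    (@En.n l17 (nat_lit 3526) (nat_lit 15) (nat_lit 2))))
  (@Cl.mk (nat_lit 0x20007000c0008000b000e00040002000b000500090008000d0005000e0003) (nat_lit 0x86000012b000) (nat_lit 16) Lb.e (@T16.mk En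
    (@En.i (nat_lit 3526) (nat_lit 7) (nat_lit 3))
    (@En.n l7471 (nat_lit 13838) (nat_lit 0) (nat_lit 14))
    (@En.i (nat_lit 7936) (nat_lit 2) (nat_lit 5))
    (@En.n l564 (nat_lit 8620) (nat_lit 11) (nat_lit 13))
    (@En.n l644 (nat_lit 3533) (nat_lit 12) (nat_lit 8))
    (@En.n l781 (nat_lit 663) (nat_lit 5) (nat_lit 9))
    (@En.i (nat_lit 3537) (nat_lit 14) (nat_lit 5))
    (@En.i (nat_lit 6865) (nat_lit 8) (nat_lit 11))
    (@En.n l17 (nat_lit 3527) (nat_lit 8) (nat_lit 2))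
    (@En.n l3098 (nat_lit 7221) (nat_lit 9) (nat_lit 4))
    (@En.i (nat_lit 3525) (nat_lit 11) (nat_lit 14))
    (@En.i (nat_lit 4717) (nat_lit 12) (nat_lit 11))
    (@En.i (nat_lit 3673) (nat_lit 13) (nat_lit 8))
    (@En.n l564 (nat_lit 7295) (nat_lit 14) (nat_lit 12))
    (@En.n l3506 (nat_lit 12156) (nat_lit 5) (nat_lit 7))
    (@En.n l28 (nat_lit 3527) (nat_lit 15) (nat_lit 2))))
  (@Cl.mk (nat_lit 0x2000700030007000c0008000b000e000400020009000500090008000e000d) (nat_lit 0x6900000401) (nat_lit 16) Lb.e (@T16.mk En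
    (@En.n l10156 (nat_lit 3526) (nat_lit 10) (nat_lit 13))
    (@En.n l2790 (nat_lit 7899) (nat_lit 11) (nat_lit 14))
    (@En.n l10157 (nat_lit 3534) (nat_lit 2) (nat_lit 8))
    (@En.n l10158 (nat_lit 3908) (nat_lit 3) (nat_lit 9))
    (@En.n l17 (nat_lit 7696) (nat_lit 14) (nat_lit 5))
    (@En.n l3328 (nat_lit 10613) (nat_lit 5) (nat_lit 9))
    (@En.n l3 (nat_lit 3528) (nat_lit 6) (nat_lit 2))
    (@En.n l3323 (nat_lit 7220) (nat_lit 7) (nat_lit 4))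
    (@En.n l7038 (nat_lit 3524) (nat_lit 9) (nat_lit 14))
    (@En.i (nat_lit 4726) (nat_lit 10) (nat_lit 11))
    (@En.n l766 (nat_lit 3669) (nat_lit 11) (nat_lit 8))
    (@En.n l1540 (nat_lit 7213) (nat_lit 12) (nat_lit 12))
    (@En.n l8769 (nat_lit 5508) (nat_lit 5) (nat_lit 7))
    (@En.n l10159 (nat_lit 3526) (nat_lit 6) (nat_lit 3))
    (@En.n l10160 (nat_lit 6870) (nat_lit 0) (nat_lit 7))
    (@En.n l7 (nat_lit 3528) (nat_lit 15) (nat_lit 2))))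
  (@Cl.mk (nat_lit 0x2000b00050008000d000d000500030003000d000b00080003000b000e0005) (nat_lit 0x100000a000920) (nat_lit 16) Lb.e (@T16.mk En
    (@En.n l3147 (nat_lit 3536) (nat_lit 7) (nat_lit 5))
    (@En.i (nat_lit 3519) (nat_lit 4) (nat_lit 14))
    (@En.n l612 (nat_lit 3526) (nat_lit 2) (nat_lit 11))
    (@En.n l50 (nat_lit 3532) (nat_lit 3) (nat_lit 3))
    (@En.n l58 (nat_lit 3674) (nat_lit 4) (nat_lit 8))
    (@En.n l217 (nat_lit 4349) (nat_lit 13) (nat_lit 11))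
    (@En.i (nat_lit 11965) (nat_lit 7) (nat_lit 13))
    (@En.i (nat_lit 3534) (nat_lit 13) (nat_lit 3))
    (@En.n l11 (nat_lit 3533) (nat_lit 8) (nat_lit 3))
    (@En.i (nat_lit 6872) (nat_lit 0) (nat_lit 5))
    (@En.n l55 (nat_lit 3533) (nat_lit 11) (nat_lit 13))
    (@En.i (nat_lit 8241) (nat_lit 12) (nat_lit 13))
    (@En.n l3447 (nat_lit 1168) (nat_lit 13) (nat_lit 8))
    (@En.i (nat_lit 3535) (nat_lit 14) (nat_lit 5))
    (@En.i (nat_lit 6868) (nat_lit 11) (nat_lit 11))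
    (@En.n l17 (nat_lit 3529) (nat_lit 15) (nat_lit 2))))
  (@Cl.mk (nat_lit 0x2000500090008000d000d0009000300030007000b0008000b0007000e0005) (nat_lit 0x336800008080a0) (nat_lit 16) Lb.e (@T16.mk En
    (@En.n l16501 (nat_lit 7119) (nat_lit 7) (nat_lit 5))
    (@En.n l5582 (nat_lit 3526) (nat_lit 1) (nat_lit 14))
    (@En.i (nat_lit 8722) (nat_lit 2) (nat_lit 7))
    (@En.n l3082 (nat_lit 4672) (nat_lit 3) (nat_lit 11))
    (@En.n l26670 (nat_lit 3675) (nat_lit 4) (nat_lit 8))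
    (@En.i (nat_lit 7290) (nat_lit 13) (nat_lit 11))
    (@En.n l26670 (nat_lit 12127) (nat_lit 6) (nat_lit 7))
    (@En.n l5760 (nat_lit 7696) (nat_lit 7) (nat_lit 3))
    (@En.n l9632 (nat_lit 3537) (nat_lit 8) (nat_lit 3))
    (@En.n l55 (nat_lit 5252) (nat_lit 10) (nat_lit 9))
    (@En.n l9633 (nat_lit 3537) (nat_lit 11) (nat_lit 13))
    (@En.n l5579 (nat_lit 7901) (nat_lit 12) (nat_lit 13))
    (@En.n l30173 (nat_lit 3535) (nat_lit 13) (nat_lit 8))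
    (@En.n l30601 (nat_lit 7072) (nat_lit 14) (nat_lit 9))
    (@En.n l31694 (nat_lit 3489) (nat_lit 13) (nat_lit 5))
    (@En.n l50 (nat_lit 3530) (nat_lit 15) (nat_lit 2))))
  (@Cl.mk (nat_lit 0x300030007000c000c0009000c00040004000a000400090007000d000d0006) (nat_lit 0x4107000020070) (nat_lit 16) Lb.e (@T16.mk En
    (@En.n l35241 (nat_lit 6673) (nat_lit 0) (nat_lit 6))
    (@En.n l644 (nat_lit 7221) (nat_lit 3) (nat_lit 13))
    (@En.n l6042 (nat_lit 8608) (nat_lit 2) (nat_lit 13))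
    (@En.i (nat_lit 3536) (nat_lit 3) (nat_lit 7))
    (@En.n l17334 (nat_lit 3902) (nat_lit 4) (nat_lit 9))
    (@En.n l22696 (nat_lit 7119) (nat_lit 5) (nat_lit 4))
    (@En.n l35242 (nat_lit 9536) (nat_lit 0) (nat_lit 10))
    (@En.n l152 (nat_lit 4859) (nat_lit 12) (nat_lit 4))
    (@En.n l35243 (nat_lit 2945) (nat_lit 8) (nat_lit 4))
    (@En.n l35241 (nat_lit 4718) (nat_lit 6) (nat_lit 12))
    (@En.n l7231 (nat_lit 4199) (nat_lit 11) (nat_lit 9))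
    (@En.n l3536 (nat_lit 3526) (nat_lit 4) (nat_lit 12))
    (@En.n l35244 (nat_lit 7422) (nat_lit 13) (nat_lit 12))
    (@En.n l35245 (nat_lit 12151) (nat_lit 12) (nat_lit 7))
    (@En.n l32461 (nat_lit 7220) (nat_lit 13) (nat_lit 3))
    (@En.n l7 (nat_lit 7221) (nat_lit 0) (nat_lit 3))))
  (@Cl.mk (nat_lit 0x2000b00050009000d000d000500030003000d0007000c0003000b000e0004) (nat_lit 0x9010960) (nat_lit 16) Lb.e (@T16.mk En
    (@En.n l3098 (nat_lit 7207) (nat_lit 7) (nat_lit 4))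
    (@En.i (nat_lit 3517) (nat_lit 4) (nat_lit 14))
    (@En.n l4750 (nat_lit 4676) (nat_lit 2) (nat_lit 11))
    (@En.i (nat_lit 3529) (nat_lit 3) (nat_lit 3))
    (@En.n l14380 (nat_lit 3060) (nat_lit 0) (nat_lit 12))
    (@En.i (nat_lit 3526) (nat_lit 5) (nat_lit 7))
    (@En.i (nat_lit 11960) (nat_lit 7) (nat_lit 13))
    (@En.n l3605 (nat_lit 7209) (nat_lit 13) (nat_lit 3))
    (@En.n l11 (nat_lit 7448) (nat_lit 8) (nat_lit 3))
    (@En.i (nat_lit 6873) (nat_lit 0) (nat_lit 5))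
    (@En.n l55 (nat_lit 7448) (nat_lit 11) (nat_lit 13))
    (@En.i (nat_lit 8301) (nat_lit 12) (nat_lit 13))
    (@En.n l3447 (nat_lit 3713) (nat_lit 13) (nat_lit 9))
    (@En.i (nat_lit 7445) (nat_lit 14) (nat_lit 5))
    (@En.i (nat_lit 10006) (nat_lit 11) (nat_lit 11))
    (@En.n l17 (nat_lit 3532) (nat_lit 15) (nat_lit 2))))
  (@Cl.mk (nat_lit 0x2000c00050008000d0004000e00030002000d000b00080003000b000e0005) (nat_lit 0x1b0000a000960) (nat_lit 16) Lb.e (@T16.mk En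
    (@En.n l3147 (nat_lit 7426) (nat_lit 8) (nat_lit 5))
    (@En.i (nat_lit 3566) (nat_lit 4) (nat_lit 14))
    (@En.n l612 (nat_lit 3527) (nat_lit 11) (nat_lit 11))
    (@En.n l50 (nat_lit 7448) (nat_lit 3) (nat_lit 3))
    (@En.i (nat_lit 4164) (nat_lit 4) (nat_lit 8))
    (@En.n l217 (nat_lit 4348) (nat_lit 14) (nat_lit 11))
    (@En.i (nat_lit 11964) (nat_lit 7) (nat_lit 13))
    (@En.n l28 (nat_lit 3533) (nat_lit 7) (nat_lit 2))
    (@En.i (nat_lit 3529) (nat_lit 8) (nat_lit 3))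
    (@En.i (nat_lit 13839) (nat_lit 0) (nat_lit 14))
    (@En.i (nat_lit 7935) (nat_lit 10) (nat_lit 4))
    (@En.i (nat_lit 8298) (nat_lit 12) (nat_lit 13))
    (@En.n l781 (nat_lit 680) (nat_lit 4) (nat_lit 8))
    (@En.i (nat_lit 7447) (nat_lit 14) (nat_lit 5))
    (@En.i (nat_lit 6864) (nat_lit 7) (nat_lit 12))
    (@En.n l17 (nat_lit 3533) (nat_lit 15) (nat_lit 2))))
  (@Cl.mk (nat_lit 0x200060003000d000b00080003000b000e00050002000a00050008000e000d) (nat_lit 0xa000720000301) (nat_lit 16) Lb.e (@T16.mk En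
    (@En.n l55 (nat_lit 3529) (nat_lit 11) (nat_lit 13))
    (@En.n l218 (nat_lit 8565) (nat_lit 12) (nat_lit 14))
    (@En.n l714 (nat_lit 3709) (nat_lit 2) (nat_lit 8))
    (@En.n l3624 (nat_lit 7697) (nat_lit 14) (nat_lit 5))
    (@En.n l3625 (nat_lit 10612) (nat_lit 4) (nat_lit 10))
    (@En.n l17 (nat_lit 3534) (nat_lit 5) (nat_lit 2))
    (@En.n l3626 (nat_lit 7210) (nat_lit 6) (nat_lit 5))
    (@En.i (nat_lit 3518) (nat_lit 8) (nat_lit 14))
    (@En.n l3627 (nat_lit 3528) (nat_lit 9) (nat_lit 11))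
    (@En.n l3628 (nat_lit 7209) (nat_lit 9) (nat_lit 3))
    (@En.n l714 (nat_lit 4165) (nat_lit 11) (nat_lit 8))
    (@En.n l217 (nat_lit 7211) (nat_lit 12) (nat_lit 11))
    (@En.n l715 (nat_lit 12124) (nat_lit 13) (nat_lit 13))
    (@En.n l218 (nat_lit 3529) (nat_lit 7) (nat_lit 3))
    (@En.n l716 (nat_lit 6709) (nat_lit 8) (nat_lit 6))
    (@En.n l28 (nat_lit 3534) (nat_lit 15) (nat_lit 2))))
  (@Cl.mk (nat_lit 0x200050008000d000d000800030003000d000a00080003000b0008000e0006) (nat_lit 0x25700090009030) (nat_lit 16) Lb.e (@T16.mk En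
    (@En.n l19435 (nat_lit 7117) (nat_lit 6) (nat_lit 6))
    (@En.n l3 (nat_lit 3529) (nat_lit 1) (nat_lit 14))
    (@En.n l3 (nat_lit 8678) (nat_lit 2) (nat_lit 8))
    (@En.n l19436 (nat_lit 3530) (nat_lit 3) (nat_lit 11))
    (@En.n l50 (nat_lit 7445) (nat_lit 4) (nat_lit 3))
    (@En.n l58 (nat_lit 5376) (nat_lit 5) (nat_lit 8))
    (@En.n l19437 (nat_lit 7294) (nat_lit 13) (nat_lit 10))
    (@En.n l8914 (nat_lit 12163) (nat_lit 8) (nat_lit 13))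
    (@En.n l3624 (nat_lit 7697) (nat_lit 8) (nat_lit 3))
    (@En.n l11 (nat_lit 7447) (nat_lit 9) (nat_lit 3))
    (@En.n l19438 (nat_lit 7699) (nat_lit 11) (nat_lit 8))
    (@En.n l55 (nat_lit 7447) (nat_lit 12) (nat_lit 13))
    (@En.i (nat_lit 8239) (nat_lit 13) (nat_lit 13))
    (@En.n l19439 (nat_lit 3288) (nat_lit 14) (nat_lit 8))
    (@En.n l3106 (nat_lit 3493) (nat_lit 13) (nat_lit 5))
    (@En.n l17 (nat_lit 3535) (nat_lit 15) (nat_lit 2))))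
noncomputable def a221 : T16 Cl := @T16.mk Cl
  (@Cl.mk (nat_lit 0x30003000c000b000b00090004000c00050005000b00040007000d000d0005) (nat_lit 0x30110800000000) (nat_lit 16) Lb.e (@T16.mk En
    (@En.n l19427 (nat_lit 6671) (nat_lit 0) (nat_lit 5))
    (@En.n l644 (nat_lit 7426) (nat_lit 3) (nat_lit 13))
    (@En.i (nat_lit 8535) (nat_lit 2) (nat_lit 13))
    (@En.n l19428 (nat_lit 1163) (nat_lit 11) (nat_lit 7))
    (@En.n l19429 (nat_lit 7117) (nat_lit 4) (nat_lit 4))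
    (@En.n l19430 (nat_lit 9537) (nat_lit 0) (nat_lit 11))
    (@En.n l9272 (nat_lit 4856) (nat_lit 11) (nat_lit 5))
    (@En.n l3851 (nat_lit 7332) (nat_lit 7) (nat_lit 5))
    (@En.n l2196 (nat_lit 3531) (nat_lit 9) (nat_lit 12))
    (@En.i (nat_lit 7207) (nat_lit 9) (nat_lit 4))
    (@En.n l19431 (nat_lit 3044) (nat_lit 11) (nat_lit 9))
    (@En.n l9279 (nat_lit 3529) (nat_lit 5) (nat_lit 11))
    (@En.n l19432 (nat_lit 7420) (nat_lit 13) (nat_lit 11))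
    (@En.n l19433 (nat_lit 11966) (nat_lit 14) (nat_lit 12))
    (@En.n l19434 (nat_lit 7210) (nat_lit 13) (nat_lit 3))
    (@En.n l7 (nat_lit 7426) (nat_lit 0) (nat_lit 3))))
  (@Cl.mk (nat_lit 0x2000500090008000d0008000e000300020007000b0008000b0008000e0005) (nat_lit 0x33700000808070) (nat_lit 16) Lb.e (@T16.mk En
    (@En.n l3098 (nat_lit 7121) (nat_lit 8) (nat_lit 5))
    (@En.n l3 (nat_lit 3527) (nat_lit 10) (nat_lit 14))
    (@En.n l3 (nat_lit 8729) (nat_lit 11) (nat_lit 8))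
    (@En.n l4589 (nat_lit 4714) (nat_lit 3) (nat_lit 11))
    (@En.i (nat_lit 5375) (nat_lit 4) (nat_lit 8))
    (@En.n l4589 (nat_lit 7291) (nat_lit 14) (nat_lit 11))
    (@En.n l3099 (nat_lit 12130) (nat_lit 6) (nat_lit 7))
    (@En.n l28 (nat_lit 3537) (nat_lit 7) (nat_lit 2))
    (@En.n l19425 (nat_lit 3530) (nat_lit 8) (nat_lit 3))
    (@En.n l6646 (nat_lit 13840) (nat_lit 0) (nat_lit 14))
    (@En.n l13119 (nat_lit 7486) (nat_lit 2) (nat_lit 8))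
    (@En.n l564 (nat_lit 8621) (nat_lit 12) (nat_lit 13))
    (@En.n l644 (nat_lit 7447) (nat_lit 13) (nat_lit 8))
    (@En.n l3105 (nat_lit 7078) (nat_lit 5) (nat_lit 9))
    (@En.n l3106 (nat_lit 3497) (nat_lit 13) (nat_lit 5))
    (@En.n l17 (nat_lit 3537) (nat_lit 15) (nat_lit 2))))
  (@Cl.mk (nat_lit 0x200080008000d0005000e00030002000c00080008000e00040002000e000b) (nat_lit 0x424070061290069) (nat_lit 16) Lb.e (@T16.mk En
    (@En.n l11793 (nat_lit 2702) (nat_lit 14) (nat_lit 11))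
    (@En.n l12527 (nat_lit 1794) (nat_lit 1) (nat_lit 14))
    (@En.n l18 (nat_lit 3538) (nat_lit 2) (nat_lit 2))
    (@En.n l50 (nat_lit 3508) (nat_lit 3) (nat_lit 4))
    (@En.n l2197 (nat_lit 3540) (nat_lit 5) (nat_lit 14))
    (@En.n l7695 (nat_lit 1834) (nat_lit 8) (nat_lit 8))
    (@En.i (nat_lit 2011) (nat_lit 6) (nat_lit 8))
    (@En.n l3348 (nat_lit 11711) (nat_lit 8) (nat_lit 12))
    (@En.n l28 (nat_lit 3538) (nat_lit 8) (nat_lit 2))
    (@En.i (nat_lit 2561) (nat_lit 9) (nat_lit 3))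
    (@En.n l13709 (nat_lit 13772) (nat_lit 0) (nat_lit 14))
    (@En.n l3938 (nat_lit 2433) (nat_lit 2) (nat_lit 5))
    (@En.i (nat_lit 7778) (nat_lit 13) (nat_lit 13))
    (@En.n l14610 (nat_lit 2493) (nat_lit 14) (nat_lit 8))
    (@En.i (nat_lit 7335) (nat_lit 12) (nat_lit 8))
    (@En.n l3 (nat_lit 3538) (nat_lit 15) (nat_lit 2))))
  (@Cl.mk (nat_lit 0x20005000e000c00020008000d0004000e00030002000c000b0008000e0004) (nat_lit 0x780130500672a0) (nat_lit 16) Lb.e (@T16.mk En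
    (@En.n l50 (nat_lit 3544) (nat_lit 4) (nat_lit 4))
    (@En.n l1353 (nat_lit 3541) (nat_lit 6) (nat_lit 14))
    (@En.i (nat_lit 3540) (nat_lit 6) (nat_lit 8))
    (@En.n l2863 (nat_lit 3568) (nat_lit 3) (nat_lit 11))
    (@En.n l947 (nat_lit 12589) (nat_lit 9) (nat_lit 12))
    (@En.n l28 (nat_lit 3539) (nat_lit 5) (nat_lit 2))
    (@En.i (nat_lit 2566) (nat_lit 6) (nat_lit 3))
    (@En.n l947 (nat_lit 13014) (nat_lit 0) (nat_lit 14))
    (@En.i (nat_lit 2381) (nat_lit 8) (nat_lit 4))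
    (@En.i (nat_lit 3855) (nat_lit 10) (nat_lit 13))
    (@En.i (nat_lit 214) (nat_lit 11) (nat_lit 8))
    (@En.n l3 (nat_lit 3539) (nat_lit 11) (nat_lit 2))
    (@En.i (nat_lit 2868) (nat_lit 13) (nat_lit 12))
    (@En.i (nat_lit 3538) (nat_lit 1) (nat_lit 14))
    (@En.i (nat_lit 2492) (nat_lit 13) (nat_lit 5))
    (@En.n l18 (nat_lit 3539) (nat_lit 15) (nat_lit 2))))
  (@Cl.mk (nat_lit 0x200080005000d0005000e00030002000d0008000e00030002000b000e000b) (nat_lit 0x504050071800569) (nat_lit 16) Lb.e (@T16.mk En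
    (@En.n l7694 (nat_lit 3654) (nat_lit 13) (nat_lit 11))
    (@En.n l7695 (nat_lit 1834) (nat_lit 4) (nat_lit 14))
    (@En.n l2588 (nat_lit 3499) (nat_lit 2) (nat_lit 11))
    (@En.n l18 (nat_lit 3540) (nat_lit 3) (nat_lit 2))
    (@En.n l7696 (nat_lit 3542) (nat_lit 4) (nat_lit 3))
    (@En.n l1353 (nat_lit 13368) (nat_lit 0) (nat_lit 14))
    (@En.i (nat_lit 3219) (nat_lit 6) (nat_lit 8))
    (@En.n l4357 (nat_lit 12574) (nat_lit 8) (nat_lit 13))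
    (@En.n l28 (nat_lit 3540) (nat_lit 8) (nat_lit 2))
    (@En.i (nat_lit 2568) (nat_lit 9) (nat_lit 3))
    (@En.n l7697 (nat_lit 13694) (nat_lit 0) (nat_lit 14))
    (@En.n l3935 (nat_lit 2432) (nat_lit 7) (nat_lit 5))
    (@En.n l5802 (nat_lit 6971) (nat_lit 9) (nat_lit 13))
    (@En.n l1935 (nat_lit 3541) (nat_lit 14) (nat_lit 5))
    (@En.n l6414 (nat_lit 7317) (nat_lit 11) (nat_lit 8))
    (@En.n l3 (nat_lit 3540) (nat_lit 15) (nat_lit 2))))
  (@Cl.mk (nat_lit 0x20005000d0004000e00030002000d000b000e00030002000b0005000e000c) (nat_lit 0x20500569005079) (nat_lit 16) Lb.e (@T16.mk En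
    (@En.n l2569 (nat_lit 2858) (nat_lit 12) (nat_lit 12))
    (@En.n l2585 (nat_lit 3540) (nat_lit 1) (nat_lit 14))
    (@En.n l775 (nat_lit 3539) (nat_lit 14) (nat_lit 5))
    (@En.i (nat_lit 3500) (nat_lit 3) (nat_lit 11))
    (@En.n l776 (nat_lit 3541) (nat_lit 4) (nat_lit 2))
    (@En.n l50 (nat_lit 3543) (nat_lit 5) (nat_lit 3))
    (@En.n l777 (nat_lit 13369) (nat_lit 0) (nat_lit 14))
    (@En.n l217 (nat_lit 3580) (nat_lit 8) (nat_lit 11))
    (@En.n l2586 (nat_lit 12580) (nat_lit 9) (nat_lit 13))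
    (@En.n l28 (nat_lit 3541) (nat_lit 9) (nat_lit 2))
    (@En.n l780 (nat_lit 2570) (nat_lit 10) (nat_lit 3))
    (@En.n l2039 (nat_lit 13699) (nat_lit 0) (nat_lit 14))
    (@En.n l2587 (nat_lit 2383) (nat_lit 7) (nat_lit 4))
    (@En.n l617 (nat_lit 4015) (nat_lit 9) (nat_lit 13))
    (@En.n l781 (nat_lit 694) (nat_lit 9) (nat_lit 5))
    (@En.n l3 (nat_lit 3541) (nat_lit 15) (nat_lit 2))))
  (@Cl.mk (nat_lit 0x200070005000d0005000e00030002000d000d000900030003000b000e000b) (nat_lit 0x4050078200578) (nat_lit 16) Lb.e (@T16.mk En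
    (@En.n l13932 (nat_lit 3655) (nat_lit 8) (nat_lit 11))
    (@En.i (nat_lit 1833) (nat_lit 4) (nat_lit 14))
    (@En.i (nat_lit 3501) (nat_lit 2) (nat_lit 11))
    (@En.n l2593 (nat_lit 3546) (nat_lit 3) (nat_lit 3))
    (@En.n l2585 (nat_lit 3540) (nat_lit 4) (nat_lit 3))
    (@En.n l617 (nat_lit 2034) (nat_lit 5) (nat_lit 9))
    (@En.n l13933 (nat_lit 3540) (nat_lit 7) (nat_lit 13))
    (@En.i (nat_lit 12577) (nat_lit 8) (nat_lit 13))
    (@En.n l28 (nat_lit 3542) (nat_lit 8) (nat_lit 2))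
    (@En.n l780 (nat_lit 3545) (nat_lit 9) (nat_lit 3))
    (@En.i (nat_lit 13693) (nat_lit 0) (nat_lit 14))
    (@En.n l3925 (nat_lit 2386) (nat_lit 2) (nat_lit 5))
    (@En.n l617 (nat_lit 6973) (nat_lit 13) (nat_lit 13))
    (@En.n l17 (nat_lit 3543) (nat_lit 14) (nat_lit 5))
    (@En.i (nat_lit 7340) (nat_lit 5) (nat_lit 7))
    (@En.n l3 (nat_lit 3542) (nat_lit 15) (nat_lit 2))))
  (@Cl.mk (nat_lit 0x20005000d0004000e00030002000d000d000c00030003000b0004000e000c) (nat_lit 0x30500567005089) (nat_lit 16) Lb.e (@T16.mk En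
    (@En.n l617 (nat_lit 2869) (nat_lit 7) (nat_lit 12))
    (@En.i (nat_lit 3542) (nat_lit 1) (nat_lit 14))
    (@En.n l775 (nat_lit 3544) (nat_lit 2) (nat_lit 4))
    (@En.i (nat_lit 3502) (nat_lit 3) (nat_lit 11))
    (@En.n l2593 (nat_lit 3548) (nat_lit 4) (nat_lit 3))
    (@En.i (nat_lit 3541) (nat_lit 5) (nat_lit 3))
    (@En.n l2348 (nat_lit 3551) (nat_lit 7) (nat_lit 12))
    (@En.n l1363 (nat_lit 3541) (nat_lit 8) (nat_lit 13))
    (@En.i (nat_lit 12594) (nat_lit 9) (nat_lit 13))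
    (@En.n l28 (nat_lit 3543) (nat_lit 9) (nat_lit 2))
    (@En.n l780 (nat_lit 3547) (nat_lit 10) (nat_lit 3))
    (@En.i (nat_lit 13696) (nat_lit 0) (nat_lit 14))
    (@En.i (nat_lit 2382) (nat_lit 2) (nat_lit 4))
    (@En.n l617 (nat_lit 3813) (nat_lit 14) (nat_lit 13))
    (@En.n l781 (nat_lit 962) (nat_lit 13) (nat_lit 5))
    (@En.n l3 (nat_lit 3543) (nat_lit 15) (nat_lit 2))))
  (@Cl.mk (nat_lit 0x20007000d0004000e00030002000c000c000c0009000400040004000e000c) (nat_lit 0x30400577300089) (nat_lit 16) Lb.e (@T16.mk En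
    (@En.i (nat_lit 2870) (nat_lit 7) (nat_lit 12))
    (@En.i (nat_lit 3508) (nat_lit 1) (nat_lit 14))
    (@En.n l1935 (nat_lit 3580) (nat_lit 2) (nat_lit 4))
    (@En.n l2172 (nat_lit 3551) (nat_lit 3) (nat_lit 4))
    (@En.i (nat_lit 2877) (nat_lit 4) (nat_lit 4))
    (@En.n l2588 (nat_lit 3542) (nat_lit 5) (nat_lit 9))
    (@En.n l742 (nat_lit 3566) (nat_lit 7) (nat_lit 12))
    (@En.n l396 (nat_lit 3539) (nat_lit 4) (nat_lit 12))
    (@En.n l7 (nat_lit 12739) (nat_lit 9) (nat_lit 12))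
    (@En.n l28 (nat_lit 3544) (nat_lit 9) (nat_lit 2))
    (@En.i (nat_lit 3521) (nat_lit 10) (nat_lit 3))
    (@En.i (nat_lit 13012) (nat_lit 0) (nat_lit 14))
    (@En.i (nat_lit 2378) (nat_lit 2) (nat_lit 4))
    (@En.i (nat_lit 3817) (nat_lit 14) (nat_lit 13))
    (@En.i (nat_lit 347) (nat_lit 4) (nat_lit 7))
    (@En.n l3 (nat_lit 3544) (nat_lit 15) (nat_lit 2))))
  (@Cl.mk (nat_lit 0x200070005000d000d000600030003000d000d000900030003000b000e000a) (nat_lit 0x3500078200567) (nat_lit 16) Lb.e (@T16.mk En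
    (@En.n l5646 (nat_lit 3653) (nat_lit 12) (nat_lit 10))
    (@En.n l5647 (nat_lit 1835) (nat_lit 4) (nat_lit 14))
    (@En.n l245 (nat_lit 3504) (nat_lit 2) (nat_lit 11))
    (@En.n l50 (nat_lit 3549) (nat_lit 3) (nat_lit 3))
    (@En.n l874 (nat_lit 2568) (nat_lit 4) (nat_lit 3))
    (@En.i (nat_lit 2031) (nat_lit 5) (nat_lit 9))
    (@En.n l5648 (nat_lit 2568) (nat_lit 7) (nat_lit 13))
    (@En.n l5647 (nat_lit 12576) (nat_lit 8) (nat_lit 13))
    (@En.n l1284 (nat_lit 2571) (nat_lit 13) (nat_lit 3))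
    (@En.n l250 (nat_lit 3542) (nat_lit 9) (nat_lit 3))
    (@En.n l117 (nat_lit 2284) (nat_lit 0) (nat_lit 6))
    (@En.n l252 (nat_lit 3542) (nat_lit 12) (nat_lit 13))
    (@En.n l766 (nat_lit 6974) (nat_lit 13) (nat_lit 13))
    (@En.n l17 (nat_lit 3547) (nat_lit 14) (nat_lit 5))
    (@En.n l5649 (nat_lit 7321) (nat_lit 4) (nat_lit 7))
    (@En.n l3 (nat_lit 3545) (nat_lit 15) (nat_lit 2))))
  (@Cl.mk (nat_lit 0x200060005000d0005000e00030002000e000d0002000a0003000b000e000b) (nat_lit 0x40500280303b9) (nat_lit 16) Lb.e (@T16.mk En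
    (@En.n l725 (nat_lit 3656) (nat_lit 11) (nat_lit 11))
    (@En.i (nat_lit 1836) (nat_lit 12) (nat_lit 14))
    (@En.i (nat_lit 3382) (nat_lit 2) (nat_lit 11))
    (@En.n l1353 (nat_lit 3542) (nat_lit 3) (nat_lit 3))
    (@En.i (nat_lit 2936) (nat_lit 4) (nat_lit 10))
    (@En.n l50 (nat_lit 3546) (nat_lit 5) (nat_lit 2))
    (@En.n l564 (nat_lit 3542) (nat_lit 7) (nat_lit 13))
    (@En.i (nat_lit 12649) (nat_lit 1) (nat_lit 14))
    (@En.n l28 (nat_lit 3546) (nat_lit 8) (nat_lit 2))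
    (@En.n l287 (nat_lit 3549) (nat_lit 9) (nat_lit 3))
    (@En.i (nat_lit 13695) (nat_lit 0) (nat_lit 14))
    (@En.i (nat_lit 2394) (nat_lit 5) (nat_lit 5))
    (@En.i (nat_lit 6977) (nat_lit 13) (nat_lit 13))
    (@En.n l725 (nat_lit 3548) (nat_lit 14) (nat_lit 5))
    (@En.i (nat_lit 7339) (nat_lit 8) (nat_lit 6))
    (@En.n l3 (nat_lit 3546) (nat_lit 15) (nat_lit 2))))
  (@Cl.mk (nat_lit 0x20005000d000d000500030003000d000d000c00030003000b0004000e000b) (nat_lit 0x24000567005078) (nat_lit 16) Lb.e (@T16.mk En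
    (@En.n l2864 (nat_lit 3561) (nat_lit 11) (nat_lit 11))
    (@En.i (nat_lit 3545) (nat_lit 1) (nat_lit 14))
    (@En.n l244 (nat_lit 3521) (nat_lit 2) (nat_lit 4))
    (@En.n l245 (nat_lit 3505) (nat_lit 3) (nat_lit 11))
    (@En.n l50 (nat_lit 3550) (nat_lit 4) (nat_lit 3))
    (@En.i (nat_lit 2570) (nat_lit 5) (nat_lit 3))
    (@En.n l217 (nat_lit 3552) (nat_lit 7) (nat_lit 12))
    (@En.n l601 (nat_lit 2570) (nat_lit 8) (nat_lit 13))
    (@En.i (nat_lit 12640) (nat_lit 9) (nat_lit 13))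
    (@En.i (nat_lit 3555) (nat_lit 9) (nat_lit 3))
    (@En.n l250 (nat_lit 3543) (nat_lit 10) (nat_lit 3))
    (@En.n l117 (nat_lit 2282) (nat_lit 0) (nat_lit 5))
    (@En.n l252 (nat_lit 3543) (nat_lit 13) (nat_lit 13))
    (@En.n l766 (nat_lit 3810) (nat_lit 14) (nat_lit 13))
    (@En.n l253 (nat_lit 695) (nat_lit 13) (nat_lit 5))
    (@En.n l3 (nat_lit 3547) (nat_lit 15) (nat_lit 2))))
  (@Cl.mk (nat_lit 0x20005000d0004000e00030002000e000d0002000d0003000b0003000e000c) (nat_lit 0x304001602050ca) (nat_lit 16) Lb.e (@T16.mk En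
    (@En.i (nat_lit 4033) (nat_lit 10) (nat_lit 12))
    (@En.i (nat_lit 3546) (nat_lit 1) (nat_lit 14))
    (@En.n l2364 (nat_lit 3551) (nat_lit 2) (nat_lit 3))
    (@En.i (nat_lit 3397) (nat_lit 3) (nat_lit 11))
    (@En.n l1353 (nat_lit 3543) (nat_lit 4) (nat_lit 3))
    (@En.i (nat_lit 780) (nat_lit 6) (nat_lit 13))
    (@En.n l50 (nat_lit 3548) (nat_lit 6) (nat_lit 2))
    (@En.n l564 (nat_lit 3543) (nat_lit 8) (nat_lit 13))
    (@En.i (nat_lit 23) (nat_lit 1) (nat_lit 14))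
    (@En.n l28 (nat_lit 3548) (nat_lit 9) (nat_lit 2))
    (@En.n l287 (nat_lit 3550) (nat_lit 10) (nat_lit 3))
    (@En.i (nat_lit 13697) (nat_lit 0) (nat_lit 14))
    (@En.i (nat_lit 2385) (nat_lit 5) (nat_lit 4))
    (@En.i (nat_lit 3811) (nat_lit 7) (nat_lit 13))
    (@En.n l1643 (nat_lit 964) (nat_lit 7) (nat_lit 5))
    (@En.n l3 (nat_lit 3548) (nat_lit 15) (nat_lit 2))))
  (@Cl.mk (nat_lit 0x200060005000d000d000600030003000e000d0002000a0003000b000e000a) (nat_lit 0x3500058030577) (nat_lit 16) Lb.e (@T16.mk En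
    (@En.n l1969 (nat_lit 3657) (nat_lit 11) (nat_lit 10))
    (@En.n l1970 (nat_lit 1837) (nat_lit 12) (nat_lit 14))
    (@En.i (nat_lit 3392) (nat_lit 2) (nat_lit 11))
    (@En.i (nat_lit 3545) (nat_lit 3) (nat_lit 3))
    (@En.i (nat_lit 2933) (nat_lit 4) (nat_lit 10))
    (@En.n l7 (nat_lit 3549) (nat_lit 5) (nat_lit 2))
    (@En.n l601 (nat_lit 3545) (nat_lit 7) (nat_lit 13))
    (@En.i (nat_lit 12565) (nat_lit 8) (nat_lit 14))
    (@En.n l710 (nat_lit 3556) (nat_lit 8) (nat_lit 3))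
    (@En.n l1253 (nat_lit 3546) (nat_lit 9) (nat_lit 3))
    (@En.n l117 (nat_lit 2308) (nat_lit 0) (nat_lit 6))
    (@En.n l1722 (nat_lit 3546) (nat_lit 12) (nat_lit 13))
    (@En.n l766 (nat_lit 6979) (nat_lit 13) (nat_lit 13))
    (@En.n l17 (nat_lit 3550) (nat_lit 14) (nat_lit 5))
    (@En.n l1971 (nat_lit 3060) (nat_lit 8) (nat_lit 6))
    (@En.n l3 (nat_lit 3549) (nat_lit 15) (nat_lit 2))))
  (@Cl.mk (nat_lit 0x20005000d000d000500030003000e000d0002000d0003000b0003000e000b) (nat_lit 0x24000a60205088) (nat_lit 16) Lb.e (@T16.mk En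
    (@En.n l766 (nat_lit 3560) (nat_lit 10) (nat_lit 11))
    (@En.i (nat_lit 3549) (nat_lit 1) (nat_lit 14))
    (@En.i (nat_lit 3552) (nat_lit 2) (nat_lit 3))
    (@En.i (nat_lit 3442) (nat_lit 3) (nat_lit 11))
    (@En.i (nat_lit 3547) (nat_lit 4) (nat_lit 3))
    (@En.i (nat_lit 636) (nat_lit 6) (nat_lit 13))
    (@En.n l7 (nat_lit 3550) (nat_lit 6) (nat_lit 2))
    (@En.n l601 (nat_lit 3547) (nat_lit 8) (nat_lit 13))
    (@En.i (nat_lit 12646) (nat_lit 9) (nat_lit 14))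
    (@En.i (nat_lit 3554) (nat_lit 9) (nat_lit 3))
    (@En.n l1253 (nat_lit 3548) (nat_lit 10) (nat_lit 3))
    (@En.n l117 (nat_lit 2307) (nat_lit 0) (nat_lit 5))
    (@En.n l1722 (nat_lit 3548) (nat_lit 13) (nat_lit 13))
    (@En.n l766 (nat_lit 3808) (nat_lit 7) (nat_lit 13))
    (@En.n l253 (nat_lit 963) (nat_lit 7) (nat_lit 5))
    (@En.n l3 (nat_lit 3550) (nat_lit 15) (nat_lit 2))))
  (@Cl.mk (nat_lit 0x20006000d0004000e00030002000e000c0002000d000a00040003000e000c) (nat_lit 0x30400c60140089) (nat_lit 16) Lb.e (@T16.mk En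
    (@En.i (nat_lit 4034) (nat_lit 10) (nat_lit 12))
    (@En.i (nat_lit 2548) (nat_lit 1) (nat_lit 14))
    (@En.n l763 (nat_lit 3548) (nat_lit 2) (nat_lit 3))
    (@En.i (nat_lit 3566) (nat_lit 3) (nat_lit 4))
    (@En.n l764 (nat_lit 3546) (nat_lit 4) (nat_lit 10))
    (@En.n l765 (nat_lit 637) (nat_lit 6) (nat_lit 13))
    (@En.n l50 (nat_lit 3551) (nat_lit 6) (nat_lit 2))
    (@En.n l217 (nat_lit 3544) (nat_lit 8) (nat_lit 12))
    (@En.n l210 (nat_lit 12646) (nat_lit 1) (nat_lit 14))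
    (@En.n l28 (nat_lit 3551) (nat_lit 9) (nat_lit 2))
    (@En.n l59 (nat_lit 3552) (nat_lit 10) (nat_lit 3))
    (@En.n l210 (nat_lit 13899) (nat_lit 0) (nat_lit 14))
    (@En.i (nat_lit 2384) (nat_lit 5) (nat_lit 4))
    (@En.i (nat_lit 3814) (nat_lit 14) (nat_lit 13))
    (@En.n l1982 (nat_lit 1105) (nat_lit 7) (nat_lit 6))
    (@En.n l3 (nat_lit 3551) (nat_lit 15) (nat_lit 2))))
noncomputable def a222 : T16 Cl := @T16.mk Cl
  (@Cl.mk (nat_lit 0x20006000d000d000500030003000e000c0002000d000a00040003000e000b) (nat_lit 0x240001601400c8) (nat_lit 16) Lb.e (@T16.mk En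
    (@En.n l189 (nat_lit 3562) (nat_lit 10) (nat_lit 11))
    (@En.n l189 (nat_lit 2546) (nat_lit 1) (nat_lit 14))
    (@En.n l18 (nat_lit 3550) (nat_lit 2) (nat_lit 3))
    (@En.n l189 (nat_lit 3519) (nat_lit 3) (nat_lit 4))
    (@En.n l61 (nat_lit 3549) (nat_lit 4) (nat_lit 10))
    (@En.n l605 (nat_lit 633) (nat_lit 6) (nat_lit 13))
    (@En.n l7 (nat_lit 3552) (nat_lit 6) (nat_lit 2))
    (@En.n l204 (nat_lit 3521) (nat_lit 8) (nat_lit 12))
    (@En.i (nat_lit 7) (nat_lit 1) (nat_lit 14))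
    (@En.i (nat_lit 3553) (nat_lit 13) (nat_lit 3))
    (@En.n l606 (nat_lit 3551) (nat_lit 10) (nat_lit 3))
    (@En.n l117 (nat_lit 2306) (nat_lit 0) (nat_lit 5))
    (@En.n l607 (nat_lit 3551) (nat_lit 13) (nat_lit 13))
    (@En.n l189 (nat_lit 3809) (nat_lit 7) (nat_lit 13))
    (@En.n l608 (nat_lit 1104) (nat_lit 7) (nat_lit 6))
    (@En.n l3 (nat_lit 3552) (nat_lit 15) (nat_lit 2))))
  (@Cl.mk (nat_lit 0x200060003000e000c0002000d000a00040003000e000a00020006000e000d) (nat_lit 0xc602400b80033) (nat_lit 16) Lb.e (@T16.mk En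
    (@En.n l198 (nat_lit 3552) (nat_lit 13) (nat_lit 13))
    (@En.n l199 (nat_lit 3726) (nat_lit 1) (nat_lit 14))
    (@En.n l200 (nat_lit 1009) (nat_lit 2) (nat_lit 6))
    (@En.n l3 (nat_lit 3553) (nat_lit 3) (nat_lit 2))
    (@En.n l201 (nat_lit 3558) (nat_lit 4) (nat_lit 10))
    (@En.n l202 (nat_lit 2547) (nat_lit 1) (nat_lit 14))
    (@En.n l18 (nat_lit 3554) (nat_lit 2) (nat_lit 3))
    (@En.n l189 (nat_lit 3518) (nat_lit 7) (nat_lit 4))
    (@En.n l200 (nat_lit 3556) (nat_lit 4) (nat_lit 10))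
    (@En.n l203 (nat_lit 634) (nat_lit 10) (nat_lit 13))
    (@En.n l7 (nat_lit 3553) (nat_lit 10) (nat_lit 2))
    (@En.n l204 (nat_lit 3520) (nat_lit 12) (nat_lit 12))
    (@En.n l205 (nat_lit 12759) (nat_lit 1) (nat_lit 14))
    (@En.n l11 (nat_lit 3552) (nat_lit 9) (nat_lit 3))
    (@En.n l206 (nat_lit 2390) (nat_lit 3) (nat_lit 6))
    (@En.n l207 (nat_lit 3553) (nat_lit 15) (nat_lit 2))))
  (@Cl.mk (nat_lit 0x20005000e000d000200060003000e000d0002000d0003000b0003000e000a) (nat_lit 0x33000a70105078) (nat_lit 16) Lb.e (@T16.mk En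
    (@En.n l709 (nat_lit 3557) (nat_lit 4) (nat_lit 10))
    (@En.n l710 (nat_lit 3556) (nat_lit 1) (nat_lit 14))
    (@En.i (nat_lit 3553) (nat_lit 6) (nat_lit 3))
    (@En.i (nat_lit 3444) (nat_lit 3) (nat_lit 11))
    (@En.i (nat_lit 3555) (nat_lit 4) (nat_lit 3))
    (@En.n l711 (nat_lit 632) (nat_lit 10) (nat_lit 13))
    (@En.n l7 (nat_lit 3554) (nat_lit 6) (nat_lit 2))
    (@En.n l601 (nat_lit 3555) (nat_lit 8) (nat_lit 13))
    (@En.n l711 (nat_lit 12567) (nat_lit 9) (nat_lit 14))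
    (@En.n l11 (nat_lit 3550) (nat_lit 9) (nat_lit 3))
    (@En.n l712 (nat_lit 2391) (nat_lit 3) (nat_lit 6))
    (@En.n l207 (nat_lit 3554) (nat_lit 11) (nat_lit 2))
    (@En.n l198 (nat_lit 3550) (nat_lit 13) (nat_lit 13))
    (@En.n l713 (nat_lit 3725) (nat_lit 1) (nat_lit 14))
    (@En.n l253 (nat_lit 2719) (nat_lit 2) (nat_lit 5))
    (@En.n l3 (nat_lit 3554) (nat_lit 15) (nat_lit 2))))
  (@Cl.mk (nat_lit 0x20005000e000d000200060003000d000d000c00030003000b0004000e000a) (nat_lit 0x730006170050a8) (nat_lit 16) Lb.e (@T16.mk En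
    (@En.n l1283 (nat_lit 3559) (nat_lit 4) (nat_lit 10))
    (@En.n l1284 (nat_lit 2571) (nat_lit 6) (nat_lit 14))
    (@En.n l244 (nat_lit 3520) (nat_lit 6) (nat_lit 4))
    (@En.n l245 (nat_lit 3509) (nat_lit 3) (nat_lit 11))
    (@En.n l50 (nat_lit 3554) (nat_lit 4) (nat_lit 3))
    (@En.n l877 (nat_lit 2569) (nat_lit 5) (nat_lit 3))
    (@En.n l217 (nat_lit 3553) (nat_lit 11) (nat_lit 12))
    (@En.n l1285 (nat_lit 2569) (nat_lit 8) (nat_lit 13))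
    (@En.n l1286 (nat_lit 12308) (nat_lit 9) (nat_lit 13))
    (@En.n l11 (nat_lit 3547) (nat_lit 9) (nat_lit 3))
    (@En.n l1287 (nat_lit 2387) (nat_lit 0) (nat_lit 6))
    (@En.n l207 (nat_lit 3555) (nat_lit 11) (nat_lit 2))
    (@En.n l198 (nat_lit 3547) (nat_lit 13) (nat_lit 13))
    (@En.n l713 (nat_lit 3705) (nat_lit 1) (nat_lit 14))
    (@En.n l253 (nat_lit 975) (nat_lit 2) (nat_lit 5))
    (@En.n l3 (nat_lit 3555) (nat_lit 15) (nat_lit 2))))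
  (@Cl.mk (nat_lit 0x200060005000e000d000200070003000e000d0002000a0003000b000e0009) (nat_lit 0x3400057030567) (nat_lit 16) Lb.e (@T16.mk En
    (@En.n l717 (nat_lit 3620) (nat_lit 5) (nat_lit 9))
    (@En.n l718 (nat_lit 1840) (nat_lit 7) (nat_lit 14))
    (@En.n l719 (nat_lit 3383) (nat_lit 2) (nat_lit 11))
    (@En.n l117 (nat_lit 2571) (nat_lit 8) (nat_lit 3))
    (@En.i (nat_lit 2937) (nat_lit 4) (nat_lit 10))
    (@En.n l3 (nat_lit 3556) (nat_lit 5) (nat_lit 2))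
    (@En.i (nat_lit 2571) (nat_lit 12) (nat_lit 13))
    (@En.n l698 (nat_lit 12566) (nat_lit 8) (nat_lit 14))
    (@En.n l720 (nat_lit 3549) (nat_lit 8) (nat_lit 3))
    (@En.n l721 (nat_lit 2393) (nat_lit 3) (nat_lit 7))
    (@En.n l50 (nat_lit 3556) (nat_lit 10) (nat_lit 2))
    (@En.n l722 (nat_lit 3549) (nat_lit 12) (nat_lit 13))
    (@En.n l723 (nat_lit 4132) (nat_lit 13) (nat_lit 14))
    (@En.n l724 (nat_lit 3554) (nat_lit 14) (nat_lit 5))
    (@En.i (nat_lit 7323) (nat_lit 3) (nat_lit 6))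
    (@En.n l725 (nat_lit 3556) (nat_lit 15) (nat_lit 2))))
  (@Cl.mk (nat_lit 0x2000600060004000e000d0002000d0003000c0003000a000a0004000e000c) (nat_lit 0xa70204078060) (nat_lit 16) Lb.e (@T16.mk En
    (@En.n l2301 (nat_lit 3560) (nat_lit 7) (nat_lit 12))
    (@En.n l2302 (nat_lit 3681) (nat_lit 1) (nat_lit 14))
    (@En.n l1030 (nat_lit 7386) (nat_lit 2) (nat_lit 4))
    (@En.n l2303 (nat_lit 3618) (nat_lit 6) (nat_lit 10))
    (@En.i (nat_lit 7404) (nat_lit 11) (nat_lit 10))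
    (@En.n l1030 (nat_lit 3558) (nat_lit 5) (nat_lit 3))
    (@En.n l2304 (nat_lit 3443) (nat_lit 7) (nat_lit 12))
    (@En.n l2305 (nat_lit 3559) (nat_lit 7) (nat_lit 3))
    (@En.i (nat_lit 752) (nat_lit 9) (nat_lit 13))
    (@En.n l3 (nat_lit 3557) (nat_lit 9) (nat_lit 2))
    (@En.n l2306 (nat_lit 3559) (nat_lit 11) (nat_lit 13))
    (@En.n l763 (nat_lit 12757) (nat_lit 12) (nat_lit 14))
    (@En.i (nat_lit 4406) (nat_lit 2) (nat_lit 4))
    (@En.n l2307 (nat_lit 3554) (nat_lit 10) (nat_lit 6))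
    (@En.n l847 (nat_lit 4419) (nat_lit 4) (nat_lit 6))
    (@En.n l50 (nat_lit 3557) (nat_lit 15) (nat_lit 2))))
  (@Cl.mk (nat_lit 0x2000600060004000e000c0002000d000b00040003000a000a0005000e000c) (nat_lit 0xc70140078070) (nat_lit 16) Lb.e (@T16.mk En
    (@En.n l700 (nat_lit 3562) (nat_lit 7) (nat_lit 12))
    (@En.n l701 (nat_lit 3683) (nat_lit 1) (nat_lit 14))
    (@En.i (nat_lit 7642) (nat_lit 2) (nat_lit 5))
    (@En.n l683 (nat_lit 3619) (nat_lit 6) (nat_lit 10))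
    (@En.n l702 (nat_lit 8130) (nat_lit 4) (nat_lit 10))
    (@En.n l703 (nat_lit 3557) (nat_lit 5) (nat_lit 3))
    (@En.n l704 (nat_lit 3639) (nat_lit 6) (nat_lit 4))
    (@En.n l702 (nat_lit 3620) (nat_lit 8) (nat_lit 11))
    (@En.n l705 (nat_lit 630) (nat_lit 9) (nat_lit 13))
    (@En.n l28 (nat_lit 3558) (nat_lit 9) (nat_lit 2))
    (@En.i (nat_lit 3563) (nat_lit 11) (nat_lit 12))
    (@En.n l706 (nat_lit 12758) (nat_lit 12) (nat_lit 14))
    (@En.n l290 (nat_lit 4399) (nat_lit 2) (nat_lit 4))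
    (@En.n l707 (nat_lit 3553) (nat_lit 14) (nat_lit 6))
    (@En.n l708 (nat_lit 4401) (nat_lit 4) (nat_lit 6))
    (@En.n l3 (nat_lit 3558) (nat_lit 15) (nat_lit 2))))
  (@Cl.mk (nat_lit 0x2000600060004000d000d000c00030003000c0004000a000a0004000e000c) (nat_lit 0x678002078069) (nat_lit 16) Lb.e (@T16.mk En
    (@En.n l4120 (nat_lit 3561) (nat_lit 8) (nat_lit 12))
    (@En.n l7 (nat_lit 3682) (nat_lit 1) (nat_lit 14))
    (@En.n l4121 (nat_lit 7383) (nat_lit 2) (nat_lit 4))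
    (@En.n l2781 (nat_lit 3565) (nat_lit 6) (nat_lit 10))
    (@En.n l4122 (nat_lit 7403) (nat_lit 4) (nat_lit 10))
    (@En.n l1777 (nat_lit 3563) (nat_lit 5) (nat_lit 4))
    (@En.n l3519 (nat_lit 2747) (nat_lit 7) (nat_lit 12))
    (@En.n l4123 (nat_lit 3557) (nat_lit 7) (nat_lit 3))
    (@En.n l4124 (nat_lit 3564) (nat_lit 8) (nat_lit 3))
    (@En.n l4125 (nat_lit 3558) (nat_lit 10) (nat_lit 12))
    (@En.n l4126 (nat_lit 3564) (nat_lit 11) (nat_lit 13))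
    (@En.n l4127 (nat_lit 12330) (nat_lit 12) (nat_lit 13))
    (@En.n l4128 (nat_lit 4407) (nat_lit 3) (nat_lit 4))
    (@En.n l4129 (nat_lit 3555) (nat_lit 10) (nat_lit 6))
    (@En.i (nat_lit 4415) (nat_lit 5) (nat_lit 6))
    (@En.n l17 (nat_lit 3559) (nat_lit 15) (nat_lit 2))))
  (@Cl.mk (nat_lit 0x2000d0003000c0003000b000b0004000c000c0005000500040004000e000d) (nat_lit 0x2050780a00000a8) (nat_lit 16) Lb.e (@T16.mk En
    (@En.n l5758 (nat_lit 3561) (nat_lit 2) (nat_lit 13))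
    (@En.n l3289 (nat_lit 12651) (nat_lit 1) (nat_lit 14))
    (@En.n l5759 (nat_lit 3557) (nat_lit 12) (nat_lit 4))
    (@En.n l5760 (nat_lit 4418) (nat_lit 3) (nat_lit 4))
    (@En.n l5761 (nat_lit 3550) (nat_lit 11) (nat_lit 5))
    (@En.n l936 (nat_lit 4383) (nat_lit 5) (nat_lit 5))
    (@En.n l55 (nat_lit 4033) (nat_lit 7) (nat_lit 12))
    (@En.i (nat_lit 3806) (nat_lit 8) (nat_lit 12))
    (@En.n l615 (nat_lit 7380) (nat_lit 8) (nat_lit 4))
    (@En.n l5762 (nat_lit 4029) (nat_lit 5) (nat_lit 11))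
    (@En.n l5760 (nat_lit 7405) (nat_lit 11) (nat_lit 11))
    (@En.n l2364 (nat_lit 3562) (nat_lit 11) (nat_lit 3))
    (@En.i (nat_lit 3441) (nat_lit 0) (nat_lit 12))
    (@En.n l5763 (nat_lit 3561) (nat_lit 14) (nat_lit 3))
    (@En.n l5760 (nat_lit 739) (nat_lit 0) (nat_lit 13))
    (@En.n l50 (nat_lit 3560) (nat_lit 15) (nat_lit 2))))
  (@Cl.mk (nat_lit 0x30003000c0004000b000b0004000c000c0005000500040004000d000d000c) (nat_lit 0x30720810000788) (nat_lit 16) Lb.e (@T16.mk En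
    (@En.n l8290 (nat_lit 3562) (nat_lit 0) (nat_lit 12))
    (@En.n l3471 (nat_lit 3651) (nat_lit 3) (nat_lit 13))
    (@En.n l8291 (nat_lit 11853) (nat_lit 2) (nat_lit 13))
    (@En.n l8292 (nat_lit 3559) (nat_lit 12) (nat_lit 4))
    (@En.i (nat_lit 4412) (nat_lit 4) (nat_lit 4))
    (@En.n l8293 (nat_lit 3547) (nat_lit 11) (nat_lit 5))
    (@En.n l2364 (nat_lit 4382) (nat_lit 6) (nat_lit 5))
    (@En.n l8294 (nat_lit 2869) (nat_lit 4) (nat_lit 12))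
    (@En.n l8295 (nat_lit 3074) (nat_lit 9) (nat_lit 12))
    (@En.n l8296 (nat_lit 7379) (nat_lit 9) (nat_lit 4))
    (@En.n l644 (nat_lit 2860) (nat_lit 5) (nat_lit 11))
    (@En.n l8297 (nat_lit 7406) (nat_lit 12) (nat_lit 11))
    (@En.n l8298 (nat_lit 2879) (nat_lit 13) (nat_lit 4))
    (@En.n l8299 (nat_lit 2750) (nat_lit 0) (nat_lit 12))
    (@En.n l8300 (nat_lit 3560) (nat_lit 13) (nat_lit 3))
    (@En.n l5368 (nat_lit 3651) (nat_lit 0) (nat_lit 3))))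
  (@Cl.mk (nat_lit 0x2000d000b00040003000b000b0005000c000c0005000500040004000e000c) (nat_lit 0x1200780a00000c7) (nat_lit 16) Lb.e (@T16.mk En
    (@En.n l217 (nat_lit 2879) (nat_lit 3) (nat_lit 12))
    (@En.n l380 (nat_lit 12650) (nat_lit 1) (nat_lit 14))
    (@En.n l1282 (nat_lit 3558) (nat_lit 12) (nat_lit 4))
    (@En.n l1964 (nat_lit 4400) (nat_lit 3) (nat_lit 4))
    (@En.n l1965 (nat_lit 3552) (nat_lit 11) (nat_lit 5))
    (@En.n l936 (nat_lit 4381) (nat_lit 5) (nat_lit 5))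
    (@En.n l55 (nat_lit 4034) (nat_lit 7) (nat_lit 12))
    (@En.i (nat_lit 3807) (nat_lit 8) (nat_lit 12))
    (@En.n l1966 (nat_lit 7641) (nat_lit 8) (nat_lit 5))
    (@En.n l1967 (nat_lit 4028) (nat_lit 5) (nat_lit 11))
    (@En.n l1968 (nat_lit 8128) (nat_lit 11) (nat_lit 11))
    (@En.n l763 (nat_lit 3560) (nat_lit 11) (nat_lit 3))
    (@En.i (nat_lit 3636) (nat_lit 0) (nat_lit 4))
    (@En.n l1545 (nat_lit 3657) (nat_lit 14) (nat_lit 11))
    (@En.n l765 (nat_lit 638) (nat_lit 1) (nat_lit 13))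
    (@En.n l50 (nat_lit 3562) (nat_lit 15) (nat_lit 2))))
  (@Cl.mk (nat_lit 0x2000600060004000c000c000c000a000400040004000a000a0006000e000c) (nat_lit 0x689200074021) (nat_lit 16) Lb.e (@T16.mk En
    (@En.n l2331 (nat_lit 2879) (nat_lit 9) (nat_lit 12))
    (@En.n l2332 (nat_lit 3692) (nat_lit 1) (nat_lit 14))
    (@En.i (nat_lit 7643) (nat_lit 2) (nat_lit 6))
    (@En.n l2333 (nat_lit 3610) (nat_lit 6) (nat_lit 10))
    (@En.n l2334 (nat_lit 8131) (nat_lit 4) (nat_lit 10))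
    (@En.n l2335 (nat_lit 3608) (nat_lit 5) (nat_lit 4))
    (@En.n l55 (nat_lit 3558) (nat_lit 6) (nat_lit 4))
    (@En.n l2336 (nat_lit 3600) (nat_lit 7) (nat_lit 4))
    (@En.n l2337 (nat_lit 3615) (nat_lit 9) (nat_lit 10))
    (@En.n l2338 (nat_lit 3639) (nat_lit 10) (nat_lit 12))
    (@En.n l2281 (nat_lit 3609) (nat_lit 4) (nat_lit 12))
    (@En.n l2339 (nat_lit 11517) (nat_lit 12) (nat_lit 12))
    (@En.n l2340 (nat_lit 4394) (nat_lit 13) (nat_lit 4))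
    (@En.n l2341 (nat_lit 3520) (nat_lit 14) (nat_lit 6))
    (@En.n l2081 (nat_lit 4392) (nat_lit 1) (nat_lit 6))
    (@En.n l3 (nat_lit 3563) (nat_lit 15) (nat_lit 2))))
  (@Cl.mk (nat_lit 0x2000600060004000d000b000e00030002000c0005000a000a0004000e000c) (nat_lit 0x687001078062) (nat_lit 16) Lb.e (@T16.mk En
    (@En.n l77 (nat_lit 3651) (nat_lit 9) (nat_lit 12))
    (@En.n l1254 (nat_lit 3958) (nat_lit 1) (nat_lit 14))
    (@En.n l291 (nat_lit 7387) (nat_lit 2) (nat_lit 4))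
    (@En.n l1255 (nat_lit 3611) (nat_lit 6) (nat_lit 10))
    (@En.n l253 (nat_lit 7408) (nat_lit 4) (nat_lit 10))
    (@En.n l291 (nat_lit 3609) (nat_lit 14) (nat_lit 5))
    (@En.n l1256 (nat_lit 2749) (nat_lit 7) (nat_lit 12))
    (@En.n l17 (nat_lit 3564) (nat_lit 7) (nat_lit 2))
    (@En.n l1257 (nat_lit 3559) (nat_lit 8) (nat_lit 3))
    (@En.i (nat_lit 13378) (nat_lit 0) (nat_lit 14))
    (@En.n l1258 (nat_lit 3608) (nat_lit 11) (nat_lit 11))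
    (@En.n l309 (nat_lit 12312) (nat_lit 12) (nat_lit 13))
    (@En.i (nat_lit 4408) (nat_lit 4) (nat_lit 4))
    (@En.n l78 (nat_lit 2569) (nat_lit 10) (nat_lit 6))
    (@En.n l115 (nat_lit 4413) (nat_lit 6) (nat_lit 6))
    (@En.n l28 (nat_lit 3564) (nat_lit 15) (nat_lit 2))))
  (@Cl.mk (nat_lit 0x20005000d000d000c00030003000d0004000a0003000e000b0002000e0006) (nat_lit 0x38900807051020) (nat_lit 16) Lb.e (@T16.mk En
    (@En.i (nat_lit 3559) (nat_lit 14) (nat_lit 6))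
    (@En.n l2364 (nat_lit 2860) (nat_lit 1) (nat_lit 14))
    (@En.n l17 (nat_lit 3565) (nat_lit 2) (nat_lit 2))
    (@En.n l7658 (nat_lit 2860) (nat_lit 3) (nat_lit 11))
    (@En.n l7659 (nat_lit 2647) (nat_lit 5) (nat_lit 14))
    (@En.n l7660 (nat_lit 3613) (nat_lit 5) (nat_lit 3))
    (@En.n l7661 (nat_lit 4824) (nat_lit 3) (nat_lit 10))
    (@En.n l7662 (nat_lit 3610) (nat_lit 7) (nat_lit 4))
    (@En.n l3519 (nat_lit 2742) (nat_lit 9) (nat_lit 13))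
    (@En.n l7663 (nat_lit 3618) (nat_lit 9) (nat_lit 3))
    (@En.n l7664 (nat_lit 3611) (nat_lit 10) (nat_lit 3))
    (@En.n l7665 (nat_lit 3619) (nat_lit 12) (nat_lit 12))
    (@En.n l7059 (nat_lit 3611) (nat_lit 13) (nat_lit 13))
    (@En.n l7666 (nat_lit 11068) (nat_lit 14) (nat_lit 13))
    (@En.n l4128 (nat_lit 3070) (nat_lit 13) (nat_lit 5))
    (@En.n l403 (nat_lit 3565) (nat_lit 15) (nat_lit 2))))
  (@Cl.mk (nat_lit 0x20008000d0004000e00030002000d000c00080003000e00040002000e000c) (nat_lit 0x130400b61050089) (nat_lit 16) Lb.e (@T16.mk En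
    (@En.i (nat_lit 2874) (nat_lit 14) (nat_lit 12))
    (@En.i (nat_lit 3500) (nat_lit 1) (nat_lit 14))
    (@En.n l17 (nat_lit 3566) (nat_lit 2) (nat_lit 2))
    (@En.n l50 (nat_lit 3544) (nat_lit 3) (nat_lit 4))
    (@En.n l5 (nat_lit 781) (nat_lit 1) (nat_lit 14))
    (@En.n l50 (nat_lit 3567) (nat_lit 5) (nat_lit 3))
    (@En.i (nat_lit 2027) (nat_lit 6) (nat_lit 8))
    (@En.n l217 (nat_lit 2877) (nat_lit 8) (nat_lit 12))
    (@En.i (nat_lit 6374) (nat_lit 9) (nat_lit 13))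
    (@En.n l28 (nat_lit 3566) (nat_lit 9) (nat_lit 2))
    (@En.i (nat_lit 3519) (nat_lit 10) (nat_lit 3))
    (@En.i (nat_lit 13011) (nat_lit 0) (nat_lit 14))
    (@En.i (nat_lit 2376) (nat_lit 2) (nat_lit 4))
    (@En.i (nat_lit 4056) (nat_lit 14) (nat_lit 13))
    (@En.i (nat_lit 331) (nat_lit 12) (nat_lit 8))
    (@En.n l3 (nat_lit 3566) (nat_lit 15) (nat_lit 2))))
  (@Cl.mk (nat_lit 0x20009000d0004000e00030002000d0007000d0003000e00030002000e000c) (nat_lit 0x130500a07030098) (nat_lit 16) Lb.e (@T16.mk En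
    (@En.i (nat_lit 2873) (nat_lit 14) (nat_lit 12))
    (@En.i (nat_lit 3502) (nat_lit 1) (nat_lit 14))
    (@En.n l17 (nat_lit 3567) (nat_lit 2) (nat_lit 2))
    (@En.i (nat_lit 2877) (nat_lit 3) (nat_lit 3))
    (@En.i (nat_lit 13919) (nat_lit 0) (nat_lit 14))
    (@En.i (nat_lit 3566) (nat_lit 5) (nat_lit 3))
    (@En.i (nat_lit 3548) (nat_lit 7) (nat_lit 13))
    (@En.i (nat_lit 3525) (nat_lit 14) (nat_lit 7))
    (@En.i (nat_lit 6372) (nat_lit 9) (nat_lit 13))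
    (@En.n l28 (nat_lit 3567) (nat_lit 9) (nat_lit 2))
    (@En.i (nat_lit 3517) (nat_lit 10) (nat_lit 3))
    (@En.i (nat_lit 13010) (nat_lit 0) (nat_lit 14))
    (@En.i (nat_lit 2374) (nat_lit 2) (nat_lit 4))
    (@En.i (nat_lit 4051) (nat_lit 14) (nat_lit 13))
    (@En.i (nat_lit 536) (nat_lit 12) (nat_lit 9))
    (@En.n l3 (nat_lit 3567) (nat_lit 15) (nat_lit 2))))
noncomputable def a223 : T16 Cl := @T16.mk Cl
  (@Cl.mk (nat_lit 0x200050003000e000c00020009000d0004000e00030002000b0007000e000d) (nat_lit 0x9a01304006028) (nat_lit 16) Lb.e (@T16.mk En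
    (@En.n l61 (nat_lit 2877) (nat_lit 6) (nat_lit 13))
    (@En.n l1353 (nat_lit 3580) (nat_lit 7) (nat_lit 14))
    (@En.n l5808 (nat_lit 3227) (nat_lit 14) (nat_lit 7))
    (@En.n l5331 (nat_lit 9228) (nat_lit 3) (nat_lit 11))
    (@En.n l28 (nat_lit 3568) (nat_lit 4) (nat_lit 2))
    (@En.i (nat_lit 3514) (nat_lit 5) (nat_lit 3))
    (@En.n l5808 (nat_lit 13013) (nat_lit 0) (nat_lit 14))
    (@En.i (nat_lit 2379) (nat_lit 7) (nat_lit 4))
    (@En.i (nat_lit 4018) (nat_lit 9) (nat_lit 13))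
    (@En.n l2101 (nat_lit 537) (nat_lit 10) (nat_lit 9))
    (@En.n l3 (nat_lit 3568) (nat_lit 10) (nat_lit 2))
    (@En.i (nat_lit 2871) (nat_lit 12) (nat_lit 12))
    (@En.n l6147 (nat_lit 2044) (nat_lit 13) (nat_lit 14))
    (@En.n l72 (nat_lit 2877) (nat_lit 2) (nat_lit 3))
    (@En.n l666 (nat_lit 2493) (nat_lit 3) (nat_lit 5))
    (@En.n l17 (nat_lit 3568) (nat_lit 15) (nat_lit 2))))
  (@Cl.mk (nat_lit 0x200090003000e000d0002000b00030007000d000d000500030003000e000d) (nat_lit 0x2002000045000a0) (nat_lit 16) Lb.e (@T16.mk En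
    (@En.i (nat_lit 3576) (nat_lit 6) (nat_lit 13))
    (@En.i (nat_lit 5989) (nat_lit 1) (nat_lit 14))
    (@En.i (nat_lit 5124) (nat_lit 13) (nat_lit 3))
    (@En.n l18 (nat_lit 3578) (nat_lit 3) (nat_lit 3))
    (@En.i (nat_lit 5121) (nat_lit 0) (nat_lit 5))
    (@En.n l61 (nat_lit 3578) (nat_lit 6) (nat_lit 13))
    (@En.n l1353 (nat_lit 4022) (nat_lit 7) (nat_lit 13))
    (@En.i (nat_lit 2877) (nat_lit 7) (nat_lit 7))
    (@En.i (nat_lit 3577) (nat_lit 8) (nat_lit 3))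
    (@En.i (nat_lit 5975) (nat_lit 0) (nat_lit 11))
    (@En.n l28 (nat_lit 3569) (nat_lit 10) (nat_lit 2))
    (@En.n l134 (nat_lit 3577) (nat_lit 12) (nat_lit 13))
    (@En.i (nat_lit 5869) (nat_lit 1) (nat_lit 14))
    (@En.n l117 (nat_lit 3576) (nat_lit 2) (nat_lit 3))
    (@En.i (nat_lit 926) (nat_lit 3) (nat_lit 9))
    (@En.n l3 (nat_lit 3569) (nat_lit 15) (nat_lit 2))))
  (@Cl.mk (nat_lit 0x2000c00030008000d0004000e00030002000d000d000800030003000e000d) (nat_lit 0x1403000060003) (nat_lit 16) Lb.e (@T16.mk En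
    (@En.n l649 (nat_lit 3579) (nat_lit 9) (nat_lit 13))
    (@En.i (nat_lit 7065) (nat_lit 1) (nat_lit 14))
    (@En.n l152 (nat_lit 3578) (nat_lit 13) (nat_lit 3))
    (@En.n l1865 (nat_lit 4123) (nat_lit 3) (nat_lit 3))
    (@En.n l97 (nat_lit 5694) (nat_lit 0) (nat_lit 8))
    (@En.n l1867 (nat_lit 4123) (nat_lit 6) (nat_lit 13))
    (@En.i (nat_lit 5656) (nat_lit 7) (nat_lit 13))
    (@En.n l17 (nat_lit 3570) (nat_lit 7) (nat_lit 2))
    (@En.i (nat_lit 3576) (nat_lit 8) (nat_lit 3))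
    (@En.i (nat_lit 13274) (nat_lit 0) (nat_lit 14))
    (@En.i (nat_lit 4517) (nat_lit 10) (nat_lit 4))
    (@En.n l649 (nat_lit 4021) (nat_lit 12) (nat_lit 13))
    (@En.i (nat_lit 2873) (nat_lit 4) (nat_lit 8))
    (@En.n l3528 (nat_lit 3579) (nat_lit 5) (nat_lit 3))
    (@En.i (nat_lit 5894) (nat_lit 0) (nat_lit 12))
    (@En.n l28 (nat_lit 3570) (nat_lit 15) (nat_lit 2))))
  (@Cl.mk (nat_lit 0x200090003000d000d000b000300030007000d0005000e00030002000e000d) (nat_lit 0x200000005000070) (nat_lit 16) Lb.e (@T16.mk En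
    (@En.n l3528 (nat_lit 3579) (nat_lit 14) (nat_lit 13))
    (@En.i (nat_lit 5993) (nat_lit 1) (nat_lit 14))
    (@En.n l17 (nat_lit 3571) (nat_lit 2) (nat_lit 2))
    (@En.i (nat_lit 3577) (nat_lit 3) (nat_lit 3))
    (@En.i (nat_lit 13275) (nat_lit 0) (nat_lit 14))
    (@En.n l3506 (nat_lit 4512) (nat_lit 5) (nat_lit 5))
    (@En.n l2572 (nat_lit 4020) (nat_lit 7) (nat_lit 13))
    (@En.n l564 (nat_lit 6314) (nat_lit 7) (nat_lit 7))
    (@En.n l7 (nat_lit 3578) (nat_lit 8) (nat_lit 3))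
    (@En.i (nat_lit 4125) (nat_lit 0) (nat_lit 3))
    (@En.i (nat_lit 5890) (nat_lit 11) (nat_lit 11))
    (@En.n l134 (nat_lit 4125) (nat_lit 3) (nat_lit 13))
    (@En.i (nat_lit 6368) (nat_lit 13) (nat_lit 13))
    (@En.n l4018 (nat_lit 3579) (nat_lit 10) (nat_lit 3))
    (@En.i (nat_lit 927) (nat_lit 12) (nat_lit 9))
    (@En.n l3 (nat_lit 3571) (nat_lit 15) (nat_lit 2))))
  (@Cl.mk (nat_lit 0x300030008000d000d000600030003000d000d000800030003000d000d000a) (nat_lit 0x50600050200267) (nat_lit 16) Lb.e (@T16.mk En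
    (@En.i (nat_lit 4664) (nat_lit 0) (nat_lit 10))
    (@En.n l3528 (nat_lit 4118) (nat_lit 3) (nat_lit 13))
    (@En.n l3528 (nat_lit 5527) (nat_lit 9) (nat_lit 13))
    (@En.n l152 (nat_lit 3577) (nat_lit 13) (nat_lit 3))
    (@En.n l9956 (nat_lit 4115) (nat_lit 0) (nat_lit 3))
    (@En.n l97 (nat_lit 5131) (nat_lit 0) (nat_lit 8))
    (@En.n l1140 (nat_lit 4115) (nat_lit 3) (nat_lit 13))
    (@En.i (nat_lit 5659) (nat_lit 8) (nat_lit 13))
    (@En.i (nat_lit 4113) (nat_lit 13) (nat_lit 3))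
    (@En.n l25360 (nat_lit 3579) (nat_lit 0) (nat_lit 3))
    (@En.n l3506 (nat_lit 3291) (nat_lit 0) (nat_lit 6))
    (@En.n l17791 (nat_lit 3579) (nat_lit 3) (nat_lit 13))
    (@En.n l3528 (nat_lit 4046) (nat_lit 13) (nat_lit 13))
    (@En.i (nat_lit 4082) (nat_lit 3) (nat_lit 8))
    (@En.n l7 (nat_lit 3576) (nat_lit 13) (nat_lit 3))
    (@En.n l11259 (nat_lit 4118) (nat_lit 0) (nat_lit 3))))
  (@Cl.mk (nat_lit 0x200060003000d000d000800030003000e000d0002000a00030008000e000d) (nat_lit 0x50200a3000575) (nat_lit 16) Lb.e (@T16.mk En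
    (@En.n l61 (nat_lit 3576) (nat_lit 11) (nat_lit 13))
    (@En.n l11654 (nat_lit 3281) (nat_lit 12) (nat_lit 14))
    (@En.i (nat_lit 2871) (nat_lit 2) (nat_lit 8))
    (@En.i (nat_lit 4113) (nat_lit 3) (nat_lit 3))
    (@En.n l3519 (nat_lit 6048) (nat_lit 4) (nat_lit 10))
    (@En.n l28 (nat_lit 3573) (nat_lit 5) (nat_lit 2))
    (@En.n l134 (nat_lit 4113) (nat_lit 7) (nat_lit 13))
    (@En.n l3519 (nat_lit 7061) (nat_lit 8) (nat_lit 14))
    (@En.n l152 (nat_lit 5124) (nat_lit 8) (nat_lit 3))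
    (@En.n l25364 (nat_lit 4114) (nat_lit 9) (nat_lit 3))
    (@En.n l97 (nat_lit 5128) (nat_lit 11) (nat_lit 8))
    (@En.n l4300 (nat_lit 4114) (nat_lit 12) (nat_lit 13))
    (@En.n l16049 (nat_lit 6070) (nat_lit 13) (nat_lit 13))
    (@En.n l72 (nat_lit 3576) (nat_lit 7) (nat_lit 3))
    (@En.n l6142 (nat_lit 2109) (nat_lit 8) (nat_lit 6))
    (@En.n l17 (nat_lit 3573) (nat_lit 15) (nat_lit 2))))
  (@Cl.mk (nat_lit 0x200070003000e000d000200090003000d000d0009000300030007000e000d) (nat_lit 0x7002000700046) (nat_lit 16) Lb.e (@T16.mk En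
    (@En.n l61 (nat_lit 3577) (nat_lit 6) (nat_lit 13))
    (@En.n l5445 (nat_lit 3282) (nat_lit 7) (nat_lit 14))
    (@En.n l5337 (nat_lit 6319) (nat_lit 2) (nat_lit 7))
    (@En.n l7 (nat_lit 5124) (nat_lit 3) (nat_lit 3))
    (@En.n l5446 (nat_lit 4124) (nat_lit 0) (nat_lit 3))
    (@En.i (nat_lit 4662) (nat_lit 5) (nat_lit 9))
    (@En.n l5447 (nat_lit 4124) (nat_lit 3) (nat_lit 13))
    (@En.n l5331 (nat_lit 6072) (nat_lit 8) (nat_lit 13))
    (@En.n l117 (nat_lit 4113) (nat_lit 8) (nat_lit 3))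
    (@En.n l2101 (nat_lit 928) (nat_lit 10) (nat_lit 9))
    (@En.n l3 (nat_lit 3574) (nat_lit 10) (nat_lit 2))
    (@En.i (nat_lit 4113) (nat_lit 12) (nat_lit 13))
    (@En.n l5337 (nat_lit 6048) (nat_lit 1) (nat_lit 14))
    (@En.n l72 (nat_lit 3577) (nat_lit 2) (nat_lit 3))
    (@En.n l5337 (nat_lit 2399) (nat_lit 3) (nat_lit 7))
    (@En.n l17 (nat_lit 3574) (nat_lit 15) (nat_lit 2))))
  (@Cl.mk (nat_lit 0x2000b00030009000d000d000500030003000d0007000e00030002000e000d) (nat_lit 0x7050005060004) (nat_lit 16) Lb.e (@T16.mk En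
    (@En.i (nat_lit 4115) (nat_lit 14) (nat_lit 13))
    (@En.i (nat_lit 7058) (nat_lit 1) (nat_lit 14))
    (@En.n l17 (nat_lit 3575) (nat_lit 2) (nat_lit 2))
    (@En.n l2869 (nat_lit 3576) (nat_lit 3) (nat_lit 3))
    (@En.i (nat_lit 13085) (nat_lit 0) (nat_lit 14))
    (@En.i (nat_lit 5445) (nat_lit 5) (nat_lit 7))
    (@En.i (nat_lit 6143) (nat_lit 7) (nat_lit 13))
    (@En.n l142 (nat_lit 4114) (nat_lit 13) (nat_lit 3))
    (@En.n l28 (nat_lit 4123) (nat_lit 8) (nat_lit 3))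
    (@En.i (nat_lit 5123) (nat_lit 0) (nat_lit 5))
    (@En.n l77 (nat_lit 4123) (nat_lit 11) (nat_lit 13))
    (@En.i (nat_lit 4047) (nat_lit 12) (nat_lit 13))
    (@En.i (nat_lit 2876) (nat_lit 13) (nat_lit 9))
    (@En.n l117 (nat_lit 4115) (nat_lit 10) (nat_lit 3))
    (@En.i (nat_lit 6060) (nat_lit 0) (nat_lit 11))
    (@En.n l3 (nat_lit 3575) (nat_lit 15) (nat_lit 2))))
  (@Cl.mk (nat_lit 0x2000b00030008000d000d000500030003000d000d000800030003000e000d) (nat_lit 0x145000b650003) (nat_lit 16) Lb.e (@T16.mk En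
    (@En.n l134 (nat_lit 3572) (nat_lit 2) (nat_lit 13))
    (@En.i (nat_lit 7062) (nat_lit 1) (nat_lit 14))
    (@En.n l152 (nat_lit 3569) (nat_lit 13) (nat_lit 3))
    (@En.n l1865 (nat_lit 3575) (nat_lit 3) (nat_lit 3))
    (@En.n l97 (nat_lit 5129) (nat_lit 0) (nat_lit 8))
    (@En.n l1867 (nat_lit 3575) (nat_lit 6) (nat_lit 13))
    (@En.i (nat_lit 5658) (nat_lit 7) (nat_lit 13))
    (@En.i (nat_lit 3573) (nat_lit 13) (nat_lit 3))
    (@En.n l18 (nat_lit 3570) (nat_lit 8) (nat_lit 3))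
    (@En.i (nat_lit 5122) (nat_lit 0) (nat_lit 5))
    (@En.n l61 (nat_lit 3570) (nat_lit 11) (nat_lit 13))
    (@En.n l649 (nat_lit 4043) (nat_lit 12) (nat_lit 13))
    (@En.i (nat_lit 2872) (nat_lit 13) (nat_lit 8))
    (@En.i (nat_lit 3572) (nat_lit 14) (nat_lit 3))
    (@En.i (nat_lit 5903) (nat_lit 0) (nat_lit 11))
    (@En.n l28 (nat_lit 3576) (nat_lit 15) (nat_lit 2))))
  (@Cl.mk (nat_lit 0x200090003000d000d000a000300030007000d000d000600030003000e000d) (nat_lit 0x201070005600086) (nat_lit 16) Lb.e (@T16.mk En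
    (@En.i (nat_lit 3572) (nat_lit 7) (nat_lit 13))
    (@En.i (nat_lit 5990) (nat_lit 1) (nat_lit 14))
    (@En.i (nat_lit 3574) (nat_lit 13) (nat_lit 3))
    (@En.n l18 (nat_lit 3571) (nat_lit 3) (nat_lit 3))
    (@En.n l3506 (nat_lit 3298) (nat_lit 0) (nat_lit 6))
    (@En.n l61 (nat_lit 3571) (nat_lit 6) (nat_lit 13))
    (@En.n l2572 (nat_lit 4042) (nat_lit 7) (nat_lit 13))
    (@En.n l564 (nat_lit 6316) (nat_lit 7) (nat_lit 7))
    (@En.n l7 (nat_lit 3569) (nat_lit 8) (nat_lit 3))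
    (@En.i (nat_lit 4111) (nat_lit 0) (nat_lit 3))
    (@En.i (nat_lit 4665) (nat_lit 11) (nat_lit 10))
    (@En.n l134 (nat_lit 4111) (nat_lit 3) (nat_lit 13))
    (@En.i (nat_lit 3255) (nat_lit 13) (nat_lit 13))
    (@En.n l117 (nat_lit 3572) (nat_lit 3) (nat_lit 3))
    (@En.i (nat_lit 921) (nat_lit 0) (nat_lit 9))
    (@En.n l3 (nat_lit 3577) (nat_lit 15) (nat_lit 2))))
  (@Cl.mk (nat_lit 0x200090003000e000d0002000c00030007000d0004000e00030002000e000d) (nat_lit 0x1001000040000a1) (nat_lit 16) Lb.e (@T16.mk En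
    (@En.i (nat_lit 3570) (nat_lit 6) (nat_lit 13))
    (@En.i (nat_lit 5992) (nat_lit 1) (nat_lit 14))
    (@En.n l17 (nat_lit 3578) (nat_lit 2) (nat_lit 2))
    (@En.i (nat_lit 3569) (nat_lit 3) (nat_lit 3))
    (@En.i (nat_lit 13276) (nat_lit 0) (nat_lit 14))
    (@En.i (nat_lit 5863) (nat_lit 5) (nat_lit 4))
    (@En.n l2573 (nat_lit 4018) (nat_lit 7) (nat_lit 13))
    (@En.i (nat_lit 3567) (nat_lit 7) (nat_lit 7))
    (@En.i (nat_lit 3571) (nat_lit 8) (nat_lit 3))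
    (@En.i (nat_lit 5896) (nat_lit 0) (nat_lit 12))
    (@En.n l28 (nat_lit 3578) (nat_lit 10) (nat_lit 2))
    (@En.n l134 (nat_lit 3571) (nat_lit 12) (nat_lit 13))
    (@En.i (nat_lit 5871) (nat_lit 1) (nat_lit 14))
    (@En.n l117 (nat_lit 3570) (nat_lit 2) (nat_lit 3))
    (@En.i (nat_lit 923) (nat_lit 12) (nat_lit 9))
    (@En.n l3 (nat_lit 3578) (nat_lit 15) (nat_lit 2))))
  (@Cl.mk (nat_lit 0x2000d000d000800030003000d000d000b000300030008000d0005000e0003) (nat_lit 0xb06002600035030) (nat_lit 16) Lb.e (@T16.mk En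
    (@En.n l3522 (nat_lit 3572) (nat_lit 9) (nat_lit 3))
    (@En.i (nat_lit 13270) (nat_lit 0) (nat_lit 14))
    (@En.i (nat_lit 4510) (nat_lit 2) (nat_lit 5))
    (@En.i (nat_lit 4027) (nat_lit 13) (nat_lit 13))
    (@En.n l3522 (nat_lit 6317) (nat_lit 4) (nat_lit 8))
    (@En.n l8258 (nat_lit 3570) (nat_lit 13) (nat_lit 3))
    (@En.n l117 (nat_lit 4122) (nat_lit 0) (nat_lit 3))
    (@En.n l3522 (nat_lit 4671) (nat_lit 0) (nat_lit 11))
    (@En.i (nat_lit 4122) (nat_lit 3) (nat_lit 13))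
    (@En.i (nat_lit 5529) (nat_lit 10) (nat_lit 13))
    (@En.n l11382 (nat_lit 3571) (nat_lit 13) (nat_lit 3))
    (@En.n l18 (nat_lit 4121) (nat_lit 11) (nat_lit 3))
    (@En.n l11383 (nat_lit 5501) (nat_lit 0) (nat_lit 8))
    (@En.n l61 (nat_lit 4121) (nat_lit 14) (nat_lit 13))
    (@En.i (nat_lit 5655) (nat_lit 8) (nat_lit 13))
    (@En.n l7 (nat_lit 3579) (nat_lit 15) (nat_lit 2))))
  (@Cl.mk (nat_lit 0x20006000d0004000e00030002000b000e000c0002000a00050004000e000c) (nat_lit 0x30500518040098) (nat_lit 16) Lb.e (@T16.mk En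
    (@En.n l617 (nat_lit 2867) (nat_lit 11) (nat_lit 12))
    (@En.n l6147 (nat_lit 2042) (nat_lit 1) (nat_lit 14))
    (@En.n l18 (nat_lit 3543) (nat_lit 2) (nat_lit 4))
    (@En.n l775 (nat_lit 3568) (nat_lit 14) (nat_lit 5))
    (@En.i (nat_lit 3503) (nat_lit 4) (nat_lit 10))
    (@En.n l2196 (nat_lit 3580) (nat_lit 5) (nat_lit 2))
    (@En.n l2197 (nat_lit 3544) (nat_lit 7) (nat_lit 12))
    (@En.n l6134 (nat_lit 2499) (nat_lit 4) (nat_lit 14))
    (@En.n l2199 (nat_lit 9231) (nat_lit 9) (nat_lit 11))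
    (@En.n l28 (nat_lit 3580) (nat_lit 9) (nat_lit 2))
    (@En.i (nat_lit 3523) (nat_lit 10) (nat_lit 3))
    (@En.n l2199 (nat_lit 13015) (nat_lit 0) (nat_lit 14))
    (@En.i (nat_lit 2380) (nat_lit 6) (nat_lit 4))
    (@En.n l2199 (nat_lit 4016) (nat_lit 8) (nat_lit 13))
    (@En.i (nat_lit 349) (nat_lit 8) (nat_lit 6))
    (@En.n l3 (nat_lit 3580) (nat_lit 15) (nat_lit 2))))
  (@Cl.mk (nat_lit 0x2000b00050004000b000b0005000c000c0005000500040004000b000e000c) (nat_lit 0x100780010000618) (nat_lit 16) Lb.e (@T16.mk En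
    (@En.n l6346 (nat_lit 2879) (nat_lit 2) (nat_lit 12))
    (@En.i (nat_lit 2557) (nat_lit 4) (nat_lit 14))
    (@En.n l6347 (nat_lit 9239) (nat_lit 2) (nat_lit 11))
    (@En.n l6348 (nat_lit 3608) (nat_lit 12) (nat_lit 4))
    (@En.i (nat_lit 3582) (nat_lit 4) (nat_lit 4))
    (@En.n l6349 (nat_lit 3523) (nat_lit 11) (nat_lit 5))
    (@En.n l6350 (nat_lit 2321) (nat_lit 6) (nat_lit 5))
    (@En.n l6351 (nat_lit 2867) (nat_lit 8) (nat_lit 12))
    (@En.n l6352 (nat_lit 3585) (nat_lit 9) (nat_lit 12))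
    (@En.n l6353 (nat_lit 2414) (nat_lit 9) (nat_lit 5))
    (@En.n l2192 (nat_lit 3590) (nat_lit 5) (nat_lit 11))
    (@En.i (nat_lit 9380) (nat_lit 12) (nat_lit 11))
    (@En.n l1329 (nat_lit 3561) (nat_lit 12) (nat_lit 4))
    (@En.n l6354 (nat_lit 3594) (nat_lit 14) (nat_lit 5))
    (@En.n l6355 (nat_lit 2751) (nat_lit 1) (nat_lit 11))
    (@En.n l18 (nat_lit 3581) (nat_lit 15) (nat_lit 2))))
  (@Cl.mk (nat_lit 0x2000b00050004000a000d0005000c0003000d000600040003000b000e000c) (nat_lit 0x7b00000006c0) (nat_lit 16) Lb.e (@T16.mk En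
    (@En.n l9463 (nat_lit 4396) (nat_lit 13) (nat_lit 12))
    (@En.i (nat_lit 3363) (nat_lit 4) (nat_lit 14))
    (@En.i (nat_lit 12578) (nat_lit 2) (nat_lit 11))
    (@En.n l7 (nat_lit 4435) (nat_lit 3) (nat_lit 3))
    (@En.n l2584 (nat_lit 2867) (nat_lit 4) (nat_lit 4))
    (@En.i (nat_lit 2322) (nat_lit 5) (nat_lit 6))
    (@En.n l15068 (nat_lit 3901) (nat_lit 7) (nat_lit 13))
    (@En.i (nat_lit 891) (nat_lit 7) (nat_lit 3))
    (@En.n l2584 (nat_lit 3583) (nat_lit 9) (nat_lit 12))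
    (@En.n l117 (nat_lit 2416) (nat_lit 9) (nat_lit 5))
    (@En.n l1329 (nat_lit 3584) (nat_lit 5) (nat_lit 13))
    (@En.i (nat_lit 9446) (nat_lit 12) (nat_lit 10))
    (@En.n l1329 (nat_lit 4412) (nat_lit 12) (nat_lit 4))
    (@En.n l9269 (nat_lit 2327) (nat_lit 14) (nat_lit 5))
    (@En.n l388 (nat_lit 4241) (nat_lit 1) (nat_lit 11))
    (@En.n l18 (nat_lit 3582) (nat_lit 15) (nat_lit 2))))
  (@Cl.mk (nat_lit 0x2000600050004000b000e000c0002000c00050004000a0004000b000e000c) (nat_lit 0x81a000070122) (nat_lit 16) Lb.e (@T16.mk En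
    (@En.n l11132 (nat_lit 3587) (nat_lit 8) (nat_lit 12))
    (@En.n l11556 (nat_lit 3612) (nat_lit 4) (nat_lit 14))
    (@En.n l4194 (nat_lit 2638) (nat_lit 2) (nat_lit 11))
    (@En.n l11557 (nat_lit 1374) (nat_lit 3) (nat_lit 4))
    (@En.n l4255 (nat_lit 6958) (nat_lit 4) (nat_lit 10))
    (@En.i (nat_lit 3588) (nat_lit 5) (nat_lit 4))
    (@En.n l11558 (nat_lit 3586) (nat_lit 14) (nat_lit 5))
    (@En.n l4194 (nat_lit 4252) (nat_lit 8) (nat_lit 12))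
    (@En.n l67 (nat_lit 3583) (nat_lit 8) (nat_lit 2))
    (@En.n l68 (nat_lit 3585) (nat_lit 10) (nat_lit 12))
    (@En.n l3471 (nat_lit 2640) (nat_lit 4) (nat_lit 14))
    (@En.n l11556 (nat_lit 12300) (nat_lit 12) (nat_lit 11))
    (@En.n l72 (nat_lit 3066) (nat_lit 3) (nat_lit 4))
    (@En.n l403 (nat_lit 3584) (nat_lit 14) (nat_lit 5))
    (@En.n l3471 (nat_lit 3582) (nat_lit 5) (nat_lit 6))
    (@En.n l17 (nat_lit 3583) (nat_lit 15) (nat_lit 2))))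
noncomputable def a224 : T16 Cl := @T16.mk Cl
  (@Cl.mk (nat_lit 0x200050003000b000e000c0002000c00050004000d0004000b0003000e000d) (nat_lit 0x8a0300a02033) (nat_lit 16) Lb.e (@T16.mk En
    (@En.n l61 (nat_lit 3832) (nat_lit 7) (nat_lit 13))
    (@En.i (nat_lit 3583) (nat_lit 1) (nat_lit 14))
    (@En.n l11548 (nat_lit 3835) (nat_lit 2) (nat_lit 3))
    (@En.n l4194 (nat_lit 2640) (nat_lit 3) (nat_lit 11))
    (@En.n l11548 (nat_lit 1369) (nat_lit 4) (nat_lit 4))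
    (@En.n l645 (nat_lit 5580) (nat_lit 6) (nat_lit 13))
    (@En.i (nat_lit 4020) (nat_lit 6) (nat_lit 4))
    (@En.n l4253 (nat_lit 3837) (nat_lit 7) (nat_lit 5))
    (@En.n l4194 (nat_lit 4258) (nat_lit 9) (nat_lit 12))
    (@En.n l67 (nat_lit 3584) (nat_lit 9) (nat_lit 2))
    (@En.n l68 (nat_lit 3593) (nat_lit 11) (nat_lit 12))
    (@En.n l3471 (nat_lit 3051) (nat_lit 12) (nat_lit 14))
    (@En.i (nat_lit 12295) (nat_lit 13) (nat_lit 11))
    (@En.n l72 (nat_lit 3832) (nat_lit 3) (nat_lit 3))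
    (@En.n l4194 (nat_lit 2859) (nat_lit 0) (nat_lit 5))
    (@En.n l17 (nat_lit 3584) (nat_lit 15) (nat_lit 2))))
  (@Cl.mk (nat_lit 0x2000600050004000c000c000c000b000400040004000a0005000b000e000c) (nat_lit 0x89a300070220) (nat_lit 16) Lb.e (@T16.mk En
    (@En.n l11132 (nat_lit 3818) (nat_lit 9) (nat_lit 12))
    (@En.n l7662 (nat_lit 3610) (nat_lit 4) (nat_lit 14))
    (@En.n l6289 (nat_lit 2766) (nat_lit 2) (nat_lit 11))
    (@En.n l13551 (nat_lit 1380) (nat_lit 3) (nat_lit 5))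
    (@En.n l13552 (nat_lit 6767) (nat_lit 4) (nat_lit 10))
    (@En.n l11 (nat_lit 3583) (nat_lit 5) (nat_lit 4))
    (@En.n l7663 (nat_lit 4017) (nat_lit 6) (nat_lit 4))
    (@En.n l11364 (nat_lit 3592) (nat_lit 7) (nat_lit 4))
    (@En.n l55 (nat_lit 3884) (nat_lit 9) (nat_lit 11))
    (@En.n l13545 (nat_lit 3640) (nat_lit 10) (nat_lit 12))
    (@En.n l4188 (nat_lit 3591) (nat_lit 4) (nat_lit 12))
    (@En.i (nat_lit 12604) (nat_lit 12) (nat_lit 12))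
    (@En.n l72 (nat_lit 3074) (nat_lit 12) (nat_lit 4))
    (@En.n l403 (nat_lit 3593) (nat_lit 14) (nat_lit 5))
    (@En.i (nat_lit 4396) (nat_lit 1) (nat_lit 6))
    (@En.n l17 (nat_lit 3585) (nat_lit 15) (nat_lit 2))))
  (@Cl.mk (nat_lit 0x200050003000a0007000b000e000c0002000600050004000b0009000e000d) (nat_lit 0x702200000002b) (nat_lit 16) Lb.e (@T16.mk En
    (@En.n l25247 (nat_lit 3592) (nat_lit 9) (nat_lit 13))
    (@En.n l25248 (nat_lit 3583) (nat_lit 10) (nat_lit 14))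
    (@En.i (nat_lit 3966) (nat_lit 11) (nat_lit 9))
    (@En.n l14226 (nat_lit 11573) (nat_lit 3) (nat_lit 11))
    (@En.i (nat_lit 3798) (nat_lit 4) (nat_lit 4))
    (@En.n l25249 (nat_lit 3837) (nat_lit 14) (nat_lit 5))
    (@En.n l25250 (nat_lit 2327) (nat_lit 6) (nat_lit 6))
    (@En.n l67 (nat_lit 3586) (nat_lit 7) (nat_lit 2))
    (@En.n l25251 (nat_lit 3714) (nat_lit 9) (nat_lit 12))
    (@En.n l14226 (nat_lit 3597) (nat_lit 10) (nat_lit 14))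
    (@En.n l25250 (nat_lit 2732) (nat_lit 11) (nat_lit 11))
    (@En.i (nat_lit 3899) (nat_lit 12) (nat_lit 7))
    (@En.n l12850 (nat_lit 6957) (nat_lit 13) (nat_lit 10))
    (@En.n l25252 (nat_lit 3592) (nat_lit 5) (nat_lit 3))
    (@En.n l6641 (nat_lit 2765) (nat_lit 6) (nat_lit 5))
    (@En.n l50 (nat_lit 3586) (nat_lit 15) (nat_lit 2))))
  (@Cl.mk (nat_lit 0x2000c00050004000b0004000c000c000c0005000400040004000b000e000c) (nat_lit 0x400401140000740) (nat_lit 16) Lb.e (@T16.mk En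
    (@En.n l68 (nat_lit 3818) (nat_lit 2) (nat_lit 12))
    (@En.n l3471 (nat_lit 2894) (nat_lit 4) (nat_lit 14))
    (@En.i (nat_lit 8707) (nat_lit 2) (nat_lit 11))
    (@En.n l2781 (nat_lit 3583) (nat_lit 12) (nat_lit 4))
    (@En.n l2172 (nat_lit 3893) (nat_lit 4) (nat_lit 4))
    (@En.i (nat_lit 3832) (nat_lit 5) (nat_lit 4))
    (@En.n l2781 (nat_lit 3901) (nat_lit 6) (nat_lit 5))
    (@En.n l742 (nat_lit 3712) (nat_lit 4) (nat_lit 12))
    (@En.n l396 (nat_lit 3064) (nat_lit 4) (nat_lit 12))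
    (@En.n l7 (nat_lit 2717) (nat_lit 10) (nat_lit 12))
    (@En.i (nat_lit 1373) (nat_lit 10) (nat_lit 4))
    (@En.n l11546 (nat_lit 5603) (nat_lit 12) (nat_lit 11))
    (@En.i (nat_lit 3761) (nat_lit 12) (nat_lit 4))
    (@En.i (nat_lit 3714) (nat_lit 14) (nat_lit 5))
    (@En.n l8015 (nat_lit 3873) (nat_lit 1) (nat_lit 12))
    (@En.n l67 (nat_lit 3587) (nat_lit 15) (nat_lit 2))))
  (@Cl.mk (nat_lit 0x2000600050004000d000d000c00030003000d0004000a0003000b000e000c) (nat_lit 0x79a000070160) (nat_lit 16) Lb.e (@T16.mk En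
    (@En.n l11132 (nat_lit 3761) (nat_lit 8) (nat_lit 12))
    (@En.i (nat_lit 3565) (nat_lit 4) (nat_lit 14))
    (@En.n l3519 (nat_lit 1224) (nat_lit 2) (nat_lit 11))
    (@En.i (nat_lit 3884) (nat_lit 3) (nat_lit 3))
    (@En.n l11654 (nat_lit 4814) (nat_lit 4) (nat_lit 10))
    (@En.i (nat_lit 3585) (nat_lit 5) (nat_lit 4))
    (@En.n l3519 (nat_lit 4253) (nat_lit 7) (nat_lit 13))
    (@En.n l7663 (nat_lit 4016) (nat_lit 7) (nat_lit 3))
    (@En.n l5368 (nat_lit 3589) (nat_lit 8) (nat_lit 3))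
    (@En.n l7665 (nat_lit 4017) (nat_lit 10) (nat_lit 12))
    (@En.n l3471 (nat_lit 3589) (nat_lit 11) (nat_lit 13))
    (@En.i (nat_lit 12236) (nat_lit 12) (nat_lit 13))
    (@En.n l72 (nat_lit 3071) (nat_lit 12) (nat_lit 4))
    (@En.n l403 (nat_lit 4020) (nat_lit 14) (nat_lit 5))
    (@En.i (nat_lit 4412) (nat_lit 5) (nat_lit 6))
    (@En.n l17 (nat_lit 3588) (nat_lit 15) (nat_lit 2))))
  (@Cl.mk (nat_lit 0x2000600050004000d000b000e00030002000d0005000a0003000b000e000c) (nat_lit 0x896000070260) (nat_lit 16) Lb.e (@T16.mk En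
    (@En.n l4268 (nat_lit 3760) (nat_lit 9) (nat_lit 12))
    (@En.n l509 (nat_lit 3611) (nat_lit 4) (nat_lit 14))
    (@En.n l133 (nat_lit 2763) (nat_lit 2) (nat_lit 11))
    (@En.n l4312 (nat_lit 3885) (nat_lit 3) (nat_lit 3))
    (@En.n l158 (nat_lit 4817) (nat_lit 4) (nat_lit 10))
    (@En.n l4313 (nat_lit 3591) (nat_lit 14) (nat_lit 5))
    (@En.n l133 (nat_lit 4254) (nat_lit 7) (nat_lit 13))
    (@En.n l17 (nat_lit 3589) (nat_lit 7) (nat_lit 2))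
    (@En.n l2843 (nat_lit 3588) (nat_lit 8) (nat_lit 3))
    (@En.i (nat_lit 13456) (nat_lit 0) (nat_lit 14))
    (@En.n l1330 (nat_lit 3583) (nat_lit 11) (nat_lit 11))
    (@En.n l509 (nat_lit 12241) (nat_lit 12) (nat_lit 13))
    (@En.n l158 (nat_lit 3072) (nat_lit 4) (nat_lit 4))
    (@En.n l4267 (nat_lit 3843) (nat_lit 14) (nat_lit 5))
    (@En.i (nat_lit 4411) (nat_lit 6) (nat_lit 6))
    (@En.n l8 (nat_lit 3589) (nat_lit 15) (nat_lit 2))))
  (@Cl.mk (nat_lit 0x200050005000b000e000c0002000c00050004000b0004000b000b000e0005) (nat_lit 0x7120200702110) (nat_lit 16) Lb.e (@T16.mk En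
    (@En.n l6333 (nat_lit 3581) (nat_lit 6) (nat_lit 5))
    (@En.n l3476 (nat_lit 2859) (nat_lit 4) (nat_lit 14))
    (@En.n l3474 (nat_lit 2859) (nat_lit 5) (nat_lit 11))
    (@En.n l265 (nat_lit 3591) (nat_lit 3) (nat_lit 11))
    (@En.n l15580 (nat_lit 2973) (nat_lit 4) (nat_lit 4))
    (@En.n l3155 (nat_lit 6597) (nat_lit 12) (nat_lit 11))
    (@En.i (nat_lit 2860) (nat_lit 6) (nat_lit 4))
    (@En.n l15581 (nat_lit 3598) (nat_lit 14) (nat_lit 5))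
    (@En.n l4194 (nat_lit 2746) (nat_lit 9) (nat_lit 12))
    (@En.n l67 (nat_lit 3590) (nat_lit 9) (nat_lit 2))
    (@En.n l68 (nat_lit 2864) (nat_lit 11) (nat_lit 12))
    (@En.n l15582 (nat_lit 2633) (nat_lit 12) (nat_lit 14))
    (@En.n l3155 (nat_lit 5623) (nat_lit 13) (nat_lit 11))
    (@En.n l6145 (nat_lit 3612) (nat_lit 14) (nat_lit 5))
    (@En.n l1545 (nat_lit 3583) (nat_lit 13) (nat_lit 5))
    (@En.n l403 (nat_lit 3590) (nat_lit 15) (nat_lit 2))))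
  (@Cl.mk (nat_lit 0x20005000a0006000b000e000c0002000600050004000c000b000a000e0004) (nat_lit 0x70290000081270) (nat_lit 16) Lb.e (@T16.mk En
    (@En.n l11633 (nat_lit 3585) (nat_lit 7) (nat_lit 4))
    (@En.n l499 (nat_lit 3589) (nat_lit 9) (nat_lit 14))
    (@En.n l11648 (nat_lit 3885) (nat_lit 10) (nat_lit 10))
    (@En.n l11649 (nat_lit 3586) (nat_lit 3) (nat_lit 11))
    (@En.n l6203 (nat_lit 12032) (nat_lit 12) (nat_lit 12))
    (@En.n l11650 (nat_lit 3075) (nat_lit 5) (nat_lit 4))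
    (@En.n l17 (nat_lit 3842) (nat_lit 14) (nat_lit 5))
    (@En.n l168 (nat_lit 4422) (nat_lit 7) (nat_lit 6))
    (@En.n l3 (nat_lit 3591) (nat_lit 8) (nat_lit 2))
    (@En.n l11651 (nat_lit 3846) (nat_lit 10) (nat_lit 12))
    (@En.n l7826 (nat_lit 2641) (nat_lit 11) (nat_lit 14))
    (@En.n l1329 (nat_lit 2767) (nat_lit 2) (nat_lit 11))
    (@En.n l11652 (nat_lit 3032) (nat_lit 13) (nat_lit 6))
    (@En.n l1386 (nat_lit 7461) (nat_lit 4) (nat_lit 10))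
    (@En.n l11653 (nat_lit 2638) (nat_lit 13) (nat_lit 5))
    (@En.n l172 (nat_lit 3591) (nat_lit 15) (nat_lit 2))))
  (@Cl.mk (nat_lit 0x2000600050004000c0009000d000d000400030003000a0007000b000e000c) (nat_lit 0x80aa00070224) (nat_lit 16) Lb.e (@T16.mk En
    (@En.n l15182 (nat_lit 3790) (nat_lit 10) (nat_lit 12))
    (@En.i (nat_lit 3599) (nat_lit 4) (nat_lit 14))
    (@En.n l1329 (nat_lit 2731) (nat_lit 2) (nat_lit 11))
    (@En.n l11649 (nat_lit 3901) (nat_lit 3) (nat_lit 7))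
    (@En.i (nat_lit 4446) (nat_lit 4) (nat_lit 10))
    (@En.n l11627 (nat_lit 3586) (nat_lit 13) (nat_lit 3))
    (@En.n l1722 (nat_lit 3916) (nat_lit 6) (nat_lit 3))
    (@En.i (nat_lit 3591) (nat_lit 0) (nat_lit 4))
    (@En.n l2593 (nat_lit 3916) (nat_lit 9) (nat_lit 13))
    (@En.n l4365 (nat_lit 3588) (nat_lit 10) (nat_lit 13))
    (@En.n l11649 (nat_lit 3963) (nat_lit 11) (nat_lit 9))
    (@En.i (nat_lit 10744) (nat_lit 12) (nat_lit 12))
    (@En.n l2832 (nat_lit 3796) (nat_lit 12) (nat_lit 4))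
    (@En.n l17 (nat_lit 3839) (nat_lit 14) (nat_lit 5))
    (@En.n l1329 (nat_lit 2332) (nat_lit 7) (nat_lit 6))
    (@En.n l3 (nat_lit 3592) (nat_lit 15) (nat_lit 2))))
  (@Cl.mk (nat_lit 0x200050003000c000c000c000b000400040004000d0005000b0003000e000d) (nat_lit 0x8906000302039) (nat_lit 16) Lb.e (@T16.mk En
    (@En.n l61 (nat_lit 3819) (nat_lit 2) (nat_lit 13))
    (@En.i (nat_lit 3585) (nat_lit 1) (nat_lit 14))
    (@En.n l1777 (nat_lit 3823) (nat_lit 2) (nat_lit 3))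
    (@En.n l11364 (nat_lit 2894) (nat_lit 3) (nat_lit 11))
    (@En.i (nat_lit 3706) (nat_lit 4) (nat_lit 5))
    (@En.n l797 (nat_lit 6323) (nat_lit 6) (nat_lit 13))
    (@En.n l11 (nat_lit 3584) (nat_lit 6) (nat_lit 4))
    (@En.n l152 (nat_lit 4019) (nat_lit 7) (nat_lit 4))
    (@En.n l11364 (nat_lit 3839) (nat_lit 8) (nat_lit 4))
    (@En.n l55 (nat_lit 4042) (nat_lit 10) (nat_lit 11))
    (@En.n l13545 (nat_lit 3642) (nat_lit 11) (nat_lit 12))
    (@En.n l4188 (nat_lit 3842) (nat_lit 12) (nat_lit 12))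
    (@En.i (nat_lit 12603) (nat_lit 13) (nat_lit 12))
    (@En.n l72 (nat_lit 3819) (nat_lit 14) (nat_lit 3))
    (@En.n l6142 (nat_lit 2865) (nat_lit 0) (nat_lit 5))
    (@En.n l17 (nat_lit 3593) (nat_lit 15) (nat_lit 2))))
  (@Cl.mk (nat_lit 0x200050003000b000b0008000c000c0005000500040004000b0008000e000d) (nat_lit 0x796110000732a) (nat_lit 16) Lb.e (@T16.mk En
    (@En.n l61 (nat_lit 2875) (nat_lit 2) (nat_lit 13))
    (@En.n l15244 (nat_lit 3581) (nat_lit 1) (nat_lit 14))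
    (@En.n l14394 (nat_lit 3243) (nat_lit 2) (nat_lit 8))
    (@En.n l11364 (nat_lit 9238) (nat_lit 3) (nat_lit 11))
    (@En.n l6847 (nat_lit 3601) (nat_lit 4) (nat_lit 4))
    (@En.n l11 (nat_lit 2327) (nat_lit 5) (nat_lit 4))
    (@En.n l152 (nat_lit 3514) (nat_lit 6) (nat_lit 5))
    (@En.n l11364 (nat_lit 2323) (nat_lit 7) (nat_lit 5))
    (@En.n l55 (nat_lit 2871) (nat_lit 9) (nat_lit 12))
    (@En.i (nat_lit 3593) (nat_lit 10) (nat_lit 12))
    (@En.n l669 (nat_lit 6337) (nat_lit 11) (nat_lit 8))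
    (@En.n l15679 (nat_lit 3598) (nat_lit 12) (nat_lit 11))
    (@En.i (nat_lit 9379) (nat_lit 13) (nat_lit 11))
    (@En.n l72 (nat_lit 2875) (nat_lit 14) (nat_lit 3))
    (@En.n l797 (nat_lit 2498) (nat_lit 0) (nat_lit 5))
    (@En.n l17 (nat_lit 3594) (nat_lit 15) (nat_lit 2))))
  (@Cl.mk (nat_lit 0x200050005000c0009000d000d000400030003000b0007000b000b000e0005) (nat_lit 0x8467000700110) (nat_lit 16) Lb.e (@T16.mk En
    (@En.n l2116 (nat_lit 2875) (nat_lit 8) (nat_lit 5))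
    (@En.i (nat_lit 2876) (nat_lit 4) (nat_lit 14))
    (@En.n l624 (nat_lit 2876) (nat_lit 5) (nat_lit 11))
    (@En.n l2117 (nat_lit 3841) (nat_lit 3) (nat_lit 11))
    (@En.n l11658 (nat_lit 2816) (nat_lit 4) (nat_lit 7))
    (@En.i (nat_lit 6686) (nat_lit 6) (nat_lit 11))
    (@En.n l15290 (nat_lit 3598) (nat_lit 13) (nat_lit 3))
    (@En.n l28 (nat_lit 3603) (nat_lit 7) (nat_lit 3))
    (@En.n l253 (nat_lit 2639) (nat_lit 8) (nat_lit 4))
    (@En.n l77 (nat_lit 3603) (nat_lit 10) (nat_lit 13))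
    (@En.n l3815 (nat_lit 2860) (nat_lit 11) (nat_lit 13))
    (@En.n l14621 (nat_lit 3232) (nat_lit 12) (nat_lit 9))
    (@En.n l781 (nat_lit 5676) (nat_lit 13) (nat_lit 12))
    (@En.n l15291 (nat_lit 3599) (nat_lit 14) (nat_lit 5))
    (@En.n l7877 (nat_lit 3592) (nat_lit 13) (nat_lit 5))
    (@En.n l17 (nat_lit 3595) (nat_lit 15) (nat_lit 2))))
  (@Cl.mk (nat_lit 0x200050003000c0007000b000e00040002000e00050002000b0009000e000d) (nat_lit 0x902000600752a) (nat_lit 16) Lb.e (@T16.mk En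
    (@En.n l1504 (nat_lit 2876) (nat_lit 12) (nat_lit 13))
    (@En.i (nat_lit 2859) (nat_lit 13) (nat_lit 14))
    (@En.n l1497 (nat_lit 3238) (nat_lit 14) (nat_lit 9))
    (@En.n l133 (nat_lit 5675) (nat_lit 3) (nat_lit 11))
    (@En.n l107 (nat_lit 3596) (nat_lit 4) (nat_lit 2))
    (@En.n l25362 (nat_lit 3598) (nat_lit 5) (nat_lit 5))
    (@En.n l133 (nat_lit 3793) (nat_lit 7) (nat_lit 14))
    (@En.n l17 (nat_lit 3596) (nat_lit 7) (nat_lit 2))
    (@En.n l2843 (nat_lit 2871) (nat_lit 8) (nat_lit 4))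
    (@En.n l1497 (nat_lit 13041) (nat_lit 4) (nat_lit 14))
    (@En.n l1329 (nat_lit 3843) (nat_lit 11) (nat_lit 11))
    (@En.n l25363 (nat_lit 2819) (nat_lit 12) (nat_lit 7))
    (@En.n l564 (nat_lit 6607) (nat_lit 13) (nat_lit 12))
    (@En.n l158 (nat_lit 2876) (nat_lit 8) (nat_lit 3))
    (@En.i (nat_lit 2852) (nat_lit 9) (nat_lit 5))
    (@En.n l8 (nat_lit 3596) (nat_lit 15) (nat_lit 2))))
  (@Cl.mk (nat_lit 0x200050003000a0007000e000b0002000e000600020005000b0009000e000d) (nat_lit 0x701002000736a) (nat_lit 16) Lb.e (@T16.mk En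
    (@En.n l16784 (nat_lit 3599) (nat_lit 11) (nat_lit 13))
    (@En.n l5577 (nat_lit 3612) (nat_lit 12) (nat_lit 14))
    (@En.n l1170 (nat_lit 3231) (nat_lit 13) (nat_lit 9))
    (@En.i (nat_lit 12374) (nat_lit 3) (nat_lit 11))
    (@En.n l8176 (nat_lit 3067) (nat_lit 4) (nat_lit 5))
    (@En.n l3 (nat_lit 3597) (nat_lit 5) (nat_lit 2))
    (@En.i (nat_lit 3601) (nat_lit 6) (nat_lit 6))
    (@En.i (nat_lit 3598) (nat_lit 8) (nat_lit 14))
    (@En.n l18 (nat_lit 3597) (nat_lit 8) (nat_lit 2))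
    (@En.n l5 (nat_lit 3598) (nat_lit 10) (nat_lit 11))
    (@En.n l4021 (nat_lit 3030) (nat_lit 11) (nat_lit 14))
    (@En.i (nat_lit 2822) (nat_lit 5) (nat_lit 7))
    (@En.n l1170 (nat_lit 6955) (nat_lit 13) (nat_lit 10))
    (@En.n l18834 (nat_lit 3599) (nat_lit 7) (nat_lit 3))
    (@En.i (nat_lit 2635) (nat_lit 8) (nat_lit 5))
    (@En.n l28 (nat_lit 3597) (nat_lit 15) (nat_lit 2))))
  (@Cl.mk (nat_lit 0x200050003000b0007000b000b000e0005000200050005000b0009000e000d) (nat_lit 0x8093100007527) (nat_lit 16) Lb.e (@T16.mk En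
    (@En.n l25376 (nat_lit 3595) (nat_lit 10) (nat_lit 13))
    (@En.n l25378 (nat_lit 3590) (nat_lit 11) (nat_lit 14))
    (@En.n l1170 (nat_lit 3234) (nat_lit 12) (nat_lit 9))
    (@En.i (nat_lit 5671) (nat_lit 3) (nat_lit 11))
    (@En.n l17 (nat_lit 3597) (nat_lit 4) (nat_lit 5))
    (@En.n l15068 (nat_lit 3586) (nat_lit 5) (nat_lit 5))
    (@En.n l3 (nat_lit 3598) (nat_lit 6) (nat_lit 2))
    (@En.n l25379 (nat_lit 3594) (nat_lit 7) (nat_lit 5))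
    (@En.n l25380 (nat_lit 3596) (nat_lit 9) (nat_lit 14))
    (@En.n l25381 (nat_lit 3596) (nat_lit 10) (nat_lit 11))
    (@En.n l23881 (nat_lit 3842) (nat_lit 11) (nat_lit 11))
    (@En.i (nat_lit 2820) (nat_lit 4) (nat_lit 7))
    (@En.n l1170 (nat_lit 6606) (nat_lit 13) (nat_lit 11))
    (@En.n l25377 (nat_lit 3595) (nat_lit 6) (nat_lit 3))
    (@En.n l5647 (nat_lit 2636) (nat_lit 7) (nat_lit 5))
    (@En.n l28 (nat_lit 3598) (nat_lit 15) (nat_lit 2))))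
  (@Cl.mk (nat_lit 0x20005000c0009000d000d000400030003000a0007000e000b0002000e0006) (nat_lit 0x84960007011020) (nat_lit 16) Lb.e (@T16.mk En
    (@En.n l7822 (nat_lit 3600) (nat_lit 14) (nat_lit 6))
    (@En.n l7823 (nat_lit 3595) (nat_lit 1) (nat_lit 14))
    (@En.n l3 (nat_lit 3599) (nat_lit 2) (nat_lit 2))
    (@En.n l7824 (nat_lit 3595) (nat_lit 3) (nat_lit 11))
    (@En.n l7825 (nat_lit 1167) (nat_lit 5) (nat_lit 14))
    (@En.n l7826 (nat_lit 2821) (nat_lit 5) (nat_lit 7))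
    (@En.n l7827 (nat_lit 6740) (nat_lit 3) (nat_lit 10))
    (@En.n l7828 (nat_lit 3597) (nat_lit 13) (nat_lit 3))
    (@En.n l1722 (nat_lit 3602) (nat_lit 8) (nat_lit 3))
    (@En.n l7826 (nat_lit 2641) (nat_lit 0) (nat_lit 4))
    (@En.n l2593 (nat_lit 3602) (nat_lit 11) (nat_lit 13))
    (@En.n l4365 (nat_lit 3565) (nat_lit 12) (nat_lit 13))
    (@En.n l7829 (nat_lit 3233) (nat_lit 13) (nat_lit 9))
    (@En.n l7826 (nat_lit 5958) (nat_lit 14) (nat_lit 12))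
    (@En.n l7830 (nat_lit 3794) (nat_lit 13) (nat_lit 5))
    (@En.n l17 (nat_lit 3599) (nat_lit 15) (nat_lit 2))))
noncomputable def a225 : T16 Cl := @T16.mk Cl
  (@Cl.mk (nat_lit 0x2000600060004000c0008000d000d000400030003000a000a0008000e000c) (nat_lit 0x718900078621) (nat_lit 16) Lb.e (@T16.mk En
    (@En.n l55 (nat_lit 2875) (nat_lit 10) (nat_lit 12))
    (@En.n l218 (nat_lit 3694) (nat_lit 1) (nat_lit 14))
    (@En.n l737 (nat_lit 6412) (nat_lit 2) (nat_lit 8))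
    (@En.n l6846 (nat_lit 3599) (nat_lit 6) (nat_lit 10))
    (@En.i (nat_lit 8134) (nat_lit 4) (nat_lit 10))
    (@En.n l6847 (nat_lit 3601) (nat_lit 13) (nat_lit 3))
    (@En.n l18 (nat_lit 3604) (nat_lit 6) (nat_lit 3))
    (@En.n l1282 (nat_lit 3609) (nat_lit 0) (nat_lit 4))
    (@En.n l61 (nat_lit 3604) (nat_lit 9) (nat_lit 13))
    (@En.n l6848 (nat_lit 3559) (nat_lit 10) (nat_lit 13))
    (@En.n l6849 (nat_lit 3241) (nat_lit 11) (nat_lit 8))
    (@En.i (nat_lit 12372) (nat_lit 12) (nat_lit 12))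
    (@En.n l6850 (nat_lit 4364) (nat_lit 5) (nat_lit 4))
    (@En.n l152 (nat_lit 3512) (nat_lit 14) (nat_lit 6))
    (@En.n l2313 (nat_lit 2330) (nat_lit 7) (nat_lit 6))
    (@En.n l28 (nat_lit 3600) (nat_lit 15) (nat_lit 2))))
  (@Cl.mk (nat_lit 0x200050003000a000a0008000e000c0002000600060004000b0008000e000d) (nat_lit 0x7862200007029) (nat_lit 16) Lb.e (@T16.mk En
    (@En.n l9483 (nat_lit 3600) (nat_lit 9) (nat_lit 13))
    (@En.n l5577 (nat_lit 3608) (nat_lit 10) (nat_lit 14))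
    (@En.n l1170 (nat_lit 3622) (nat_lit 11) (nat_lit 8))
    (@En.i (nat_lit 12373) (nat_lit 3) (nat_lit 11))
    (@En.n l9484 (nat_lit 2660) (nat_lit 4) (nat_lit 4))
    (@En.n l9485 (nat_lit 3513) (nat_lit 5) (nat_lit 6))
    (@En.n l9486 (nat_lit 2329) (nat_lit 6) (nat_lit 6))
    (@En.n l18 (nat_lit 3601) (nat_lit 7) (nat_lit 2))
    (@En.n l9487 (nat_lit 3594) (nat_lit 9) (nat_lit 12))
    (@En.n l5030 (nat_lit 3696) (nat_lit 10) (nat_lit 14))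
    (@En.n l8177 (nat_lit 6414) (nat_lit 2) (nat_lit 8))
    (@En.n l152 (nat_lit 3597) (nat_lit 12) (nat_lit 10))
    (@En.n l1170 (nat_lit 9383) (nat_lit 13) (nat_lit 10))
    (@En.n l9488 (nat_lit 3600) (nat_lit 5) (nat_lit 3))
    (@En.n l248 (nat_lit 2684) (nat_lit 6) (nat_lit 5))
    (@En.n l28 (nat_lit 3601) (nat_lit 15) (nat_lit 2))))
  (@Cl.mk (nat_lit 0x20005000d0009000d0003000e00030002000a0007000e000b0002000e0006) (nat_lit 0xa3503007000000) (nat_lit 16) Lb.e (@T16.mk En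
    (@En.n l2641 (nat_lit 3604) (nat_lit 14) (nat_lit 6))
    (@En.n l2642 (nat_lit 3603) (nat_lit 1) (nat_lit 14))
    (@En.n l3 (nat_lit 3602) (nat_lit 2) (nat_lit 2))
    (@En.n l2643 (nat_lit 3603) (nat_lit 3) (nat_lit 11))
    (@En.n l2644 (nat_lit 4773) (nat_lit 5) (nat_lit 14))
    (@En.n l1718 (nat_lit 2823) (nat_lit 5) (nat_lit 7))
    (@En.i (nat_lit 6738) (nat_lit 3) (nat_lit 10))
    (@En.n l50 (nat_lit 3602) (nat_lit 7) (nat_lit 2))
    (@En.n l564 (nat_lit 3599) (nat_lit 8) (nat_lit 3))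
    (@En.i (nat_lit 13927) (nat_lit 0) (nat_lit 14))
    (@En.i (nat_lit 3638) (nat_lit 10) (nat_lit 3))
    (@En.i (nat_lit 3618) (nat_lit 12) (nat_lit 13))
    (@En.n l287 (nat_lit 3235) (nat_lit 13) (nat_lit 9))
    (@En.n l862 (nat_lit 5950) (nat_lit 6) (nat_lit 13))
    (@En.n l2652 (nat_lit 3795) (nat_lit 13) (nat_lit 5))
    (@En.n l725 (nat_lit 3602) (nat_lit 15) (nat_lit 2))))
  (@Cl.mk (nat_lit 0x200050005000d0009000d0003000e00030002000b0007000b000b000e0005) (nat_lit 0xa5603007090c0) (nat_lit 16) Lb.e (@T16.mk En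
    (@En.n l2116 (nat_lit 3605) (nat_lit 9) (nat_lit 5))
    (@En.i (nat_lit 3606) (nat_lit 11) (nat_lit 14))
    (@En.n l624 (nat_lit 3606) (nat_lit 12) (nat_lit 11))
    (@En.n l2117 (nat_lit 4070) (nat_lit 3) (nat_lit 11))
    (@En.n l6172 (nat_lit 2818) (nat_lit 4) (nat_lit 7))
    (@En.i (nat_lit 6729) (nat_lit 6) (nat_lit 11))
    (@En.n l7 (nat_lit 3603) (nat_lit 6) (nat_lit 2))
    (@En.i (nat_lit 3595) (nat_lit 7) (nat_lit 3))
    (@En.n l253 (nat_lit 13573) (nat_lit 0) (nat_lit 14))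
    (@En.i (nat_lit 3607) (nat_lit 9) (nat_lit 3))
    (@En.n l2544 (nat_lit 4029) (nat_lit 11) (nat_lit 13))
    (@En.n l15248 (nat_lit 3236) (nat_lit 12) (nat_lit 9))
    (@En.n l781 (nat_lit 5955) (nat_lit 13) (nat_lit 13))
    (@En.n l5033 (nat_lit 3602) (nat_lit 14) (nat_lit 5))
    (@En.n l2125 (nat_lit 3916) (nat_lit 13) (nat_lit 5))
    (@En.n l17 (nat_lit 3603) (nat_lit 15) (nat_lit 2))))
  (@Cl.mk (nat_lit 0x2000600060004000d0008000d0003000e00030002000a000a0008000e000c) (nat_lit 0xa28030078520) (nat_lit 16) Lb.e (@T16.mk En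
    (@En.n l55 (nat_lit 3605) (nat_lit 11) (nat_lit 12))
    (@En.n l218 (nat_lit 3695) (nat_lit 12) (nat_lit 14))
    (@En.n l1282 (nat_lit 6411) (nat_lit 2) (nat_lit 8))
    (@En.n l2309 (nat_lit 3602) (nat_lit 6) (nat_lit 10))
    (@En.i (nat_lit 8135) (nat_lit 4) (nat_lit 10))
    (@En.n l17 (nat_lit 3604) (nat_lit 5) (nat_lit 2))
    (@En.i (nat_lit 3600) (nat_lit 6) (nat_lit 3))
    (@En.i (nat_lit 13926) (nat_lit 0) (nat_lit 14))
    (@En.i (nat_lit 3639) (nat_lit 8) (nat_lit 3))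
    (@En.n l5759 (nat_lit 3557) (nat_lit 10) (nat_lit 13))
    (@En.i (nat_lit 3623) (nat_lit 11) (nat_lit 8))
    (@En.n l2312 (nat_lit 5959) (nat_lit 12) (nat_lit 13))
    (@En.n l218 (nat_lit 4367) (nat_lit 6) (nat_lit 4))
    (@En.n l152 (nat_lit 3516) (nat_lit 14) (nat_lit 6))
    (@En.n l2313 (nat_lit 4374) (nat_lit 8) (nat_lit 6))
    (@En.n l28 (nat_lit 3604) (nat_lit 15) (nat_lit 2))))
  (@Cl.mk (nat_lit 0x2000b000b0008000c000c0005000500040004000d0008000d0003000e0003) (nat_lit 0x782a10000a19030) (nat_lit 16) Lb.e (@T16.mk En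
    (@En.i (nat_lit 2875) (nat_lit 15) (nat_lit 3))
    (@En.i (nat_lit 13918) (nat_lit 0) (nat_lit 14))
    (@En.i (nat_lit 3636) (nat_lit 2) (nat_lit 3))
    (@En.i (nat_lit 3560) (nat_lit 0) (nat_lit 13))
    (@En.i (nat_lit 3242) (nat_lit 4) (nat_lit 8))
    (@En.i (nat_lit 9245) (nat_lit 6) (nat_lit 13))
    (@En.i (nat_lit 3604) (nat_lit 12) (nat_lit 4))
    (@En.n l11 (nat_lit 4369) (nat_lit 7) (nat_lit 4))
    (@En.n l152 (nat_lit 3517) (nat_lit 11) (nat_lit 5))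
    (@En.n l936 (nat_lit 4378) (nat_lit 9) (nat_lit 5))
    (@En.n l55 (nat_lit 2873) (nat_lit 11) (nat_lit 12))
    (@En.i (nat_lit 3820) (nat_lit 12) (nat_lit 12))
    (@En.i (nat_lit 6415) (nat_lit 13) (nat_lit 8))
    (@En.n l5579 (nat_lit 3603) (nat_lit 5) (nat_lit 11))
    (@En.i (nat_lit 8138) (nat_lit 12) (nat_lit 11))
    (@En.n l17 (nat_lit 3605) (nat_lit 15) (nat_lit 2))))
  (@Cl.mk (nat_lit 0x2000c0007000b000e00040002000e00050002000d0009000d0003000e0003) (nat_lit 0x709b00600b57030) (nat_lit 16) Lb.e (@T16.mk En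
    (@En.i (nat_lit 2876) (nat_lit 9) (nat_lit 3))
    (@En.i (nat_lit 13917) (nat_lit 0) (nat_lit 14))
    (@En.i (nat_lit 3637) (nat_lit 2) (nat_lit 3))
    (@En.i (nat_lit 4030) (nat_lit 0) (nat_lit 13))
    (@En.n l2032 (nat_lit 3239) (nat_lit 14) (nat_lit 9))
    (@En.i (nat_lit 12200) (nat_lit 12) (nat_lit 13))
    (@En.n l3 (nat_lit 3606) (nat_lit 6) (nat_lit 2))
    (@En.n l476 (nat_lit 3603) (nat_lit 14) (nat_lit 5))
    (@En.i (nat_lit 3791) (nat_lit 1) (nat_lit 14))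
    (@En.n l17 (nat_lit 3606) (nat_lit 9) (nat_lit 2))
    (@En.n l2869 (nat_lit 2873) (nat_lit 10) (nat_lit 4))
    (@En.n l2568 (nat_lit 13075) (nat_lit 4) (nat_lit 14))
    (@En.n l2579 (nat_lit 4052) (nat_lit 2) (nat_lit 11))
    (@En.n l998 (nat_lit 2817) (nat_lit 14) (nat_lit 7))
    (@En.i (nat_lit 6730) (nat_lit 8) (nat_lit 12))
    (@En.n l7 (nat_lit 3606) (nat_lit 15) (nat_lit 2))))
  (@Cl.mk (nat_lit 0x200050005000d000c000a0003000e00040002000b0006000b000b000e0005) (nat_lit 0xb920100700000) (nat_lit 16) Lb.e (@T16.mk En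
    (@En.n l2116 (nat_lit 3636) (nat_lit 9) (nat_lit 5))
    (@En.i (nat_lit 3637) (nat_lit 11) (nat_lit 14))
    (@En.n l624 (nat_lit 3637) (nat_lit 12) (nat_lit 11))
    (@En.n l2117 (nat_lit 3752) (nat_lit 3) (nat_lit 11))
    (@En.n l6172 (nat_lit 2964) (nat_lit 4) (nat_lit 6))
    (@En.n l6152 (nat_lit 6731) (nat_lit 6) (nat_lit 11))
    (@En.n l7 (nat_lit 3607) (nat_lit 6) (nat_lit 2))
    (@En.n l6173 (nat_lit 2864) (nat_lit 7) (nat_lit 4))
    (@En.n l134 (nat_lit 745) (nat_lit 9) (nat_lit 14))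
    (@En.n l11 (nat_lit 3603) (nat_lit 9) (nat_lit 3))
    (@En.n l6174 (nat_lit 4141) (nat_lit 11) (nat_lit 10))
    (@En.n l55 (nat_lit 3595) (nat_lit 12) (nat_lit 12))
    (@En.n l781 (nat_lit 12727) (nat_lit 13) (nat_lit 13))
    (@En.n l5033 (nat_lit 3638) (nat_lit 14) (nat_lit 5))
    (@En.n l2125 (nat_lit 3640) (nat_lit 13) (nat_lit 5))
    (@En.n l17 (nat_lit 3607) (nat_lit 15) (nat_lit 2))))
  (@Cl.mk (nat_lit 0x2000600060004000b000e000c0002000b00050004000a000a0005000e000c) (nat_lit 0x719010073021) (nat_lit 16) Lb.e (@T16.mk En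
    (@En.n l3257 (nat_lit 3581) (nat_lit 8) (nat_lit 12))
    (@En.n l3258 (nat_lit 3033) (nat_lit 9) (nat_lit 14))
    (@En.n l3259 (nat_lit 7647) (nat_lit 2) (nat_lit 5))
    (@En.n l152 (nat_lit 3612) (nat_lit 6) (nat_lit 10))
    (@En.i (nat_lit 9386) (nat_lit 4) (nat_lit 10))
    (@En.n l2584 (nat_lit 3559) (nat_lit 5) (nat_lit 4))
    (@En.n l1603 (nat_lit 3601) (nat_lit 14) (nat_lit 5))
    (@En.n l3260 (nat_lit 2748) (nat_lit 8) (nat_lit 11))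
    (@En.n l11 (nat_lit 3608) (nat_lit 8) (nat_lit 2))
    (@En.n l2795 (nat_lit 3563) (nat_lit 10) (nat_lit 12))
    (@En.n l133 (nat_lit 2630) (nat_lit 4) (nat_lit 14))
    (@En.i (nat_lit 12375) (nat_lit 12) (nat_lit 11))
    (@En.n l133 (nat_lit 4434) (nat_lit 3) (nat_lit 4))
    (@En.n l3261 (nat_lit 3522) (nat_lit 14) (nat_lit 6))
    (@En.n l388 (nat_lit 891) (nat_lit 5) (nat_lit 6))
    (@En.n l18 (nat_lit 3608) (nat_lit 15) (nat_lit 2))))
  (@Cl.mk (nat_lit 0x20005000a000a0007000e000c0002000600060004000c000b0009000e0004) (nat_lit 0x71090000078280) (nat_lit 16) Lb.e (@T16.mk En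
    (@En.n l4110 (nat_lit 3563) (nat_lit 7) (nat_lit 4))
    (@En.n l4111 (nat_lit 3564) (nat_lit 9) (nat_lit 14))
    (@En.n l4112 (nat_lit 3616) (nat_lit 10) (nat_lit 9))
    (@En.n l4113 (nat_lit 3601) (nat_lit 3) (nat_lit 11))
    (@En.n l4114 (nat_lit 12314) (nat_lit 12) (nat_lit 12))
    (@En.n l332 (nat_lit 4425) (nat_lit 5) (nat_lit 4))
    (@En.n l4115 (nat_lit 2565) (nat_lit 6) (nat_lit 6))
    (@En.n l1034 (nat_lit 779) (nat_lit 7) (nat_lit 6))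
    (@En.n l3 (nat_lit 3609) (nat_lit 8) (nat_lit 2))
    (@En.n l700 (nat_lit 3650) (nat_lit 10) (nat_lit 12))
    (@En.n l4116 (nat_lit 3702) (nat_lit 11) (nat_lit 14))
    (@En.i (nat_lit 6420) (nat_lit 2) (nat_lit 7))
    (@En.n l4117 (nat_lit 2641) (nat_lit 13) (nat_lit 10))
    (@En.n l4118 (nat_lit 8200) (nat_lit 4) (nat_lit 10))
    (@En.n l4119 (nat_lit 2629) (nat_lit 13) (nat_lit 5))
    (@En.n l7 (nat_lit 3609) (nat_lit 15) (nat_lit 2))))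
  (@Cl.mk (nat_lit 0x20005000c000c000c000b000400040004000a0005000e000b0002000e0006) (nat_lit 0x71a60003011010) (nat_lit 16) Lb.e (@T16.mk En
    (@En.n l2795 (nat_lit 3563) (nat_lit 14) (nat_lit 6))
    (@En.n l2796 (nat_lit 2864) (nat_lit 1) (nat_lit 14))
    (@En.n l18 (nat_lit 3610) (nat_lit 2) (nat_lit 2))
    (@En.n l2797 (nat_lit 2864) (nat_lit 3) (nat_lit 11))
    (@En.n l2798 (nat_lit 3031) (nat_lit 5) (nat_lit 14))
    (@En.n l2799 (nat_lit 2969) (nat_lit 5) (nat_lit 5))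
    (@En.n l117 (nat_lit 6742) (nat_lit 3) (nat_lit 10))
    (@En.n l575 (nat_lit 3612) (nat_lit 7) (nat_lit 4))
    (@En.n l2800 (nat_lit 3619) (nat_lit 8) (nat_lit 4))
    (@En.n l2801 (nat_lit 3599) (nat_lit 9) (nat_lit 4))
    (@En.n l1578 (nat_lit 3613) (nat_lit 11) (nat_lit 11))
    (@En.n l2802 (nat_lit 3638) (nat_lit 12) (nat_lit 12))
    (@En.n l2803 (nat_lit 2641) (nat_lit 4) (nat_lit 12))
    (@En.i (nat_lit 12342) (nat_lit 14) (nat_lit 12))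
    (@En.n l2804 (nat_lit 3068) (nat_lit 13) (nat_lit 5))
    (@En.n l3 (nat_lit 3610) (nat_lit 15) (nat_lit 2))))
  (@Cl.mk (nat_lit 0x20005000d000b000e00030002000d0005000a0003000e000b0002000e0006) (nat_lit 0x78800707051020) (nat_lit 16) Lb.e (@T16.mk En
    (@En.n l1721 (nat_lit 3564) (nat_lit 14) (nat_lit 6))
    (@En.n l4102 (nat_lit 2855) (nat_lit 1) (nat_lit 14))
    (@En.n l17 (nat_lit 3611) (nat_lit 2) (nat_lit 2))
    (@En.n l4103 (nat_lit 2855) (nat_lit 3) (nat_lit 11))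
    (@En.n l1531 (nat_lit 3029) (nat_lit 5) (nat_lit 14))
    (@En.n l4104 (nat_lit 3614) (nat_lit 5) (nat_lit 3))
    (@En.i (nat_lit 4854) (nat_lit 3) (nat_lit 10))
    (@En.n l4105 (nat_lit 2641) (nat_lit 14) (nat_lit 5))
    (@En.n l4106 (nat_lit 2741) (nat_lit 9) (nat_lit 13))
    (@En.n l50 (nat_lit 3611) (nat_lit 9) (nat_lit 2))
    (@En.n l4107 (nat_lit 3565) (nat_lit 10) (nat_lit 3))
    (@En.n l1720 (nat_lit 13023) (nat_lit 0) (nat_lit 14))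
    (@En.n l3806 (nat_lit 3612) (nat_lit 13) (nat_lit 11))
    (@En.i (nat_lit 12332) (nat_lit 14) (nat_lit 13))
    (@En.n l1718 (nat_lit 3069) (nat_lit 13) (nat_lit 5))
    (@En.n l11 (nat_lit 3611) (nat_lit 15) (nat_lit 2))))
  (@Cl.mk (nat_lit 0x20005000b000e000c0002000c00050004000a0004000e000b0002000e0006) (nat_lit 0x75201002013020) (nat_lit 16) Lb.e (@T16.mk En
    (@En.i (nat_lit 3608) (nat_lit 14) (nat_lit 6))
    (@En.n l2582 (nat_lit 3590) (nat_lit 1) (nat_lit 14))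
    (@En.n l18 (nat_lit 3612) (nat_lit 2) (nat_lit 2))
    (@En.n l2583 (nat_lit 3590) (nat_lit 3) (nat_lit 11))
    (@En.n l564 (nat_lit 3027) (nat_lit 5) (nat_lit 14))
    (@En.n l7 (nat_lit 3230) (nat_lit 5) (nat_lit 4))
    (@En.i (nat_lit 6956) (nat_lit 12) (nat_lit 10))
    (@En.n l2584 (nat_lit 3565) (nat_lit 7) (nat_lit 4))
    (@En.n l1603 (nat_lit 3597) (nat_lit 14) (nat_lit 5))
    (@En.n l3260 (nat_lit 2743) (nat_lit 10) (nat_lit 12))
    (@En.n l11 (nat_lit 3612) (nat_lit 10) (nat_lit 2))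
    (@En.i (nat_lit 3610) (nat_lit 12) (nat_lit 12))
    (@En.i (nat_lit 2631) (nat_lit 4) (nat_lit 14))
    (@En.i (nat_lit 5622) (nat_lit 2) (nat_lit 11))
    (@En.i (nat_lit 3065) (nat_lit 13) (nat_lit 5))
    (@En.n l3 (nat_lit 3612) (nat_lit 15) (nat_lit 2))))
  (@Cl.mk (nat_lit 0x20005000d000d000b00030003000d000900050003000e000b0002000e0007) (nat_lit 0x3b500750051020) (nat_lit 16) Lb.e (@T16.mk En
    (@En.n l8160 (nat_lit 3615) (nat_lit 14) (nat_lit 7))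
    (@En.n l8161 (nat_lit 2863) (nat_lit 1) (nat_lit 14))
    (@En.n l18 (nat_lit 3613) (nat_lit 2) (nat_lit 2))
    (@En.n l8162 (nat_lit 2863) (nat_lit 3) (nat_lit 11))
    (@En.n l4955 (nat_lit 5838) (nat_lit 5) (nat_lit 14))
    (@En.n l2584 (nat_lit 3565) (nat_lit 5) (nat_lit 3))
    (@En.n l8163 (nat_lit 2902) (nat_lit 6) (nat_lit 5))
    (@En.n l8164 (nat_lit 3678) (nat_lit 4) (nat_lit 9))
    (@En.n l8165 (nat_lit 2744) (nat_lit 9) (nat_lit 13))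
    (@En.n l8166 (nat_lit 3617) (nat_lit 9) (nat_lit 3))
    (@En.i (nat_lit 3614) (nat_lit 10) (nat_lit 3))
    (@En.n l5399 (nat_lit 4140) (nat_lit 12) (nat_lit 11))
    (@En.n l1172 (nat_lit 3614) (nat_lit 13) (nat_lit 13))
    (@En.n l8167 (nat_lit 12333) (nat_lit 14) (nat_lit 13))
    (@En.n l8168 (nat_lit 3881) (nat_lit 13) (nat_lit 5))
    (@En.n l3 (nat_lit 3613) (nat_lit 15) (nat_lit 2))))
  (@Cl.mk (nat_lit 0x20005000d000a000e00030002000d000900060003000e000b0002000e0007) (nat_lit 0xa8a00810054020) (nat_lit 16) Lb.e (@T16.mk En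
    (@En.n l11270 (nat_lit 3616) (nat_lit 14) (nat_lit 7))
    (@En.n l10587 (nat_lit 2862) (nat_lit 1) (nat_lit 14))
    (@En.n l18 (nat_lit 3614) (nat_lit 2) (nat_lit 2))
    (@En.n l11271 (nat_lit 2862) (nat_lit 3) (nat_lit 11))
    (@En.n l11272 (nat_lit 5840) (nat_lit 5) (nat_lit 14))
    (@En.n l1162 (nat_lit 3611) (nat_lit 5) (nat_lit 3))
    (@En.n l11079 (nat_lit 2905) (nat_lit 6) (nat_lit 6))
    (@En.n l7983 (nat_lit 2426) (nat_lit 14) (nat_lit 9))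
    (@En.n l3766 (nat_lit 1337) (nat_lit 9) (nat_lit 13))
    (@En.n l11 (nat_lit 3614) (nat_lit 9) (nat_lit 2))
    (@En.n l5117 (nat_lit 3613) (nat_lit 10) (nat_lit 3))
    (@En.n l11273 (nat_lit 13024) (nat_lit 0) (nat_lit 14))
    (@En.i (nat_lit 3230) (nat_lit 13) (nat_lit 10))
    (@En.n l11274 (nat_lit 12335) (nat_lit 14) (nat_lit 13))
    (@En.n l3760 (nat_lit 3882) (nat_lit 13) (nat_lit 5))
    (@En.n l3 (nat_lit 3614) (nat_lit 15) (nat_lit 2))))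
  (@Cl.mk (nat_lit 0x2000700070004000d000d000a00030003000c0009000900060004000e000c) (nat_lit 0x6b1005660064) (nat_lit 16) Lb.e (@T16.mk En
    (@En.n l6882 (nat_lit 3653) (nat_lit 8) (nat_lit 12))
    (@En.n l6883 (nat_lit 4134) (nat_lit 1) (nat_lit 14))
    (@En.n l6884 (nat_lit 3559) (nat_lit 2) (nat_lit 4))
    (@En.i (nat_lit 8666) (nat_lit 3) (nat_lit 6))
    (@En.n l6885 (nat_lit 3613) (nat_lit 7) (nat_lit 9))
    (@En.n l6886 (nat_lit 4609) (nat_lit 5) (nat_lit 9))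
    (@En.n l1345 (nat_lit 2752) (nat_lit 7) (nat_lit 12))
    (@En.n l6887 (nat_lit 3620) (nat_lit 7) (nat_lit 3))
    (@En.n l137 (nat_lit 3616) (nat_lit 8) (nat_lit 3))
    (@En.n l55 (nat_lit 2916) (nat_lit 10) (nat_lit 10))
    (@En.n l2207 (nat_lit 3616) (nat_lit 11) (nat_lit 13))
    (@En.n l6888 (nat_lit 9639) (nat_lit 12) (nat_lit 13))
    (@En.n l6889 (nat_lit 4572) (nat_lit 3) (nat_lit 4))
    (@En.n l4212 (nat_lit 2571) (nat_lit 14) (nat_lit 7))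
    (@En.i (nat_lit 4578) (nat_lit 5) (nat_lit 7))
    (@En.n l3 (nat_lit 3615) (nat_lit 15) (nat_lit 2))))
noncomputable def a226 : T16 Cl := @T16.mk Cl
  (@Cl.mk (nat_lit 0x2000700070004000d0009000e00030002000c0009000900070004000e000c) (nat_lit 0xa19005620074) (nat_lit 16) Lb.e (@T16.mk En
    (@En.i (nat_lit 3652) (nat_lit 9) (nat_lit 12))
    (@En.n l4146 (nat_lit 4135) (nat_lit 1) (nat_lit 14))
    (@En.n l4147 (nat_lit 3564) (nat_lit 2) (nat_lit 4))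
    (@En.n l681 (nat_lit 7413) (nat_lit 3) (nat_lit 7))
    (@En.n l4148 (nat_lit 3614) (nat_lit 7) (nat_lit 9))
    (@En.n l148 (nat_lit 4611) (nat_lit 5) (nat_lit 9))
    (@En.n l4149 (nat_lit 1335) (nat_lit 7) (nat_lit 12))
    (@En.n l17 (nat_lit 3616) (nat_lit 7) (nat_lit 2))
    (@En.n l1658 (nat_lit 3615) (nat_lit 8) (nat_lit 3))
    (@En.n l551 (nat_lit 13377) (nat_lit 0) (nat_lit 14))
    (@En.n l681 (nat_lit 3221) (nat_lit 11) (nat_lit 9))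
    (@En.n l2440 (nat_lit 12315) (nat_lit 12) (nat_lit 13))
    (@En.n l4147 (nat_lit 4574) (nat_lit 4) (nat_lit 4))
    (@En.n l476 (nat_lit 2567) (nat_lit 14) (nat_lit 7))
    (@En.i (nat_lit 4577) (nat_lit 6) (nat_lit 7))
    (@En.n l28 (nat_lit 3616) (nat_lit 15) (nat_lit 2))))
  (@Cl.mk (nat_lit 0x20005000e000d0002000c0003000d000900040003000e000b0002000e0007) (nat_lit 0x74030840020000) (nat_lit 16) Lb.e (@T16.mk En
    (@En.n l2786 (nat_lit 3620) (nat_lit 14) (nat_lit 7))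
    (@En.n l2787 (nat_lit 3621) (nat_lit 1) (nat_lit 14))
    (@En.n l3 (nat_lit 3617) (nat_lit 2) (nat_lit 2))
    (@En.n l2788 (nat_lit 3621) (nat_lit 3) (nat_lit 11))
    (@En.n l2789 (nat_lit 5839) (nat_lit 1) (nat_lit 14))
    (@En.n l2593 (nat_lit 3618) (nat_lit 5) (nat_lit 3))
    (@En.n l2790 (nat_lit 2906) (nat_lit 6) (nat_lit 4))
    (@En.n l2789 (nat_lit 3679) (nat_lit 12) (nat_lit 9))
    (@En.i (nat_lit 3379) (nat_lit 9) (nat_lit 13))
    (@En.n l2791 (nat_lit 3613) (nat_lit 9) (nat_lit 3))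
    (@En.n l2790 (nat_lit 3358) (nat_lit 11) (nat_lit 12))
    (@En.n l28 (nat_lit 3617) (nat_lit 11) (nat_lit 2))
    (@En.n l2792 (nat_lit 3613) (nat_lit 13) (nat_lit 13))
    (@En.n l2793 (nat_lit 11061) (nat_lit 1) (nat_lit 14))
    (@En.n l2794 (nat_lit 3883) (nat_lit 13) (nat_lit 5))
    (@En.n l17 (nat_lit 3617) (nat_lit 15) (nat_lit 2))))
  (@Cl.mk (nat_lit 0x20005000e000d0002000d0003000d0003000a0003000e000b0002000e0006) (nat_lit 0xa4020707060000) (nat_lit 16) Lb.e (@T16.mk En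
    (@En.n l1002 (nat_lit 3557) (nat_lit 14) (nat_lit 6))
    (@En.n l854 (nat_lit 4029) (nat_lit 1) (nat_lit 14))
    (@En.n l3 (nat_lit 3618) (nat_lit 2) (nat_lit 2))
    (@En.n l855 (nat_lit 4029) (nat_lit 3) (nat_lit 11))
    (@En.i (nat_lit 4771) (nat_lit 1) (nat_lit 14))
    (@En.n l1353 (nat_lit 3617) (nat_lit 5) (nat_lit 3))
    (@En.n l2571 (nat_lit 4855) (nat_lit 11) (nat_lit 10))
    (@En.i (nat_lit 3619) (nat_lit 7) (nat_lit 3))
    (@En.i (nat_lit 3445) (nat_lit 9) (nat_lit 13))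
    (@En.n l2572 (nat_lit 3565) (nat_lit 9) (nat_lit 3))
    (@En.n l862 (nat_lit 749) (nat_lit 11) (nat_lit 13))
    (@En.n l28 (nat_lit 3618) (nat_lit 11) (nat_lit 2))
    (@En.n l2573 (nat_lit 3565) (nat_lit 13) (nat_lit 13))
    (@En.n l862 (nat_lit 11065) (nat_lit 1) (nat_lit 14))
    (@En.n l863 (nat_lit 4015) (nat_lit 13) (nat_lit 5))
    (@En.n l725 (nat_lit 3618) (nat_lit 15) (nat_lit 2))))
  (@Cl.mk (nat_lit 0x20005000e000c0002000d000c00040003000a0004000e000b0002000e0006) (nat_lit 0xc8014007040000) (nat_lit 16) Lb.e (@T16.mk En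
    (@En.n l853 (nat_lit 3558) (nat_lit 14) (nat_lit 6))
    (@En.n l854 (nat_lit 4028) (nat_lit 1) (nat_lit 14))
    (@En.n l3 (nat_lit 3619) (nat_lit 2) (nat_lit 2))
    (@En.n l855 (nat_lit 4028) (nat_lit 3) (nat_lit 11))
    (@En.i (nat_lit 4770) (nat_lit 5) (nat_lit 14))
    (@En.n l856 (nat_lit 4140) (nat_lit 5) (nat_lit 4))
    (@En.n l857 (nat_lit 6743) (nat_lit 11) (nat_lit 10))
    (@En.n l50 (nat_lit 3618) (nat_lit 7) (nat_lit 3))
    (@En.n l858 (nat_lit 3638) (nat_lit 8) (nat_lit 4))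
    (@En.n l859 (nat_lit 3617) (nat_lit 10) (nat_lit 12))
    (@En.n l860 (nat_lit 747) (nat_lit 11) (nat_lit 13))
    (@En.n l28 (nat_lit 3619) (nat_lit 11) (nat_lit 2))
    (@En.n l861 (nat_lit 3610) (nat_lit 13) (nat_lit 12))
    (@En.n l862 (nat_lit 12621) (nat_lit 1) (nat_lit 14))
    (@En.n l863 (nat_lit 4014) (nat_lit 13) (nat_lit 5))
    (@En.n l725 (nat_lit 3619) (nat_lit 15) (nat_lit 2))))
  (@Cl.mk (nat_lit 0x2000700070004000e000d0002000b0003000c0009000900050004000e000c) (nat_lit 0x670304650030) (nat_lit 16) Lb.e (@T16.mk En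
    (@En.n l2314 (nat_lit 3657) (nat_lit 7) (nat_lit 12))
    (@En.n l2315 (nat_lit 4136) (nat_lit 1) (nat_lit 14))
    (@En.n l264 (nat_lit 3557) (nat_lit 2) (nat_lit 4))
    (@En.n l2316 (nat_lit 8671) (nat_lit 3) (nat_lit 5))
    (@En.n l2317 (nat_lit 3617) (nat_lit 7) (nat_lit 9))
    (@En.i (nat_lit 4613) (nat_lit 5) (nat_lit 9))
    (@En.n l2318 (nat_lit 3395) (nat_lit 7) (nat_lit 12))
    (@En.n l2319 (nat_lit 3615) (nat_lit 7) (nat_lit 3))
    (@En.n l2320 (nat_lit 3351) (nat_lit 9) (nat_lit 11))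
    (@En.n l7 (nat_lit 3620) (nat_lit 9) (nat_lit 2))
    (@En.n l2321 (nat_lit 3615) (nat_lit 11) (nat_lit 13))
    (@En.n l2322 (nat_lit 8171) (nat_lit 12) (nat_lit 14))
    (@En.n l264 (nat_lit 4571) (nat_lit 2) (nat_lit 4))
    (@En.n l2322 (nat_lit 3556) (nat_lit 9) (nat_lit 7))
    (@En.n l2323 (nat_lit 4581) (nat_lit 4) (nat_lit 7))
    (@En.n l67 (nat_lit 3620) (nat_lit 15) (nat_lit 2))))
  (@Cl.mk (nat_lit 0x200050005000e000d0002000c0003000d000a00040003000b000b000e0006) (nat_lit 0x75060940090c0) (nat_lit 16) Lb.e (@T16.mk En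
    (@En.n l6283 (nat_lit 3657) (nat_lit 5) (nat_lit 6))
    (@En.n l947 (nat_lit 4032) (nat_lit 7) (nat_lit 14))
    (@En.n l948 (nat_lit 4032) (nat_lit 8) (nat_lit 11))
    (@En.n l3180 (nat_lit 7251) (nat_lit 3) (nat_lit 11))
    (@En.n l28 (nat_lit 4029) (nat_lit 4) (nat_lit 3))
    (@En.n l6284 (nat_lit 2921) (nat_lit 5) (nat_lit 4))
    (@En.n l6285 (nat_lit 2397) (nat_lit 12) (nat_lit 10))
    (@En.n l666 (nat_lit 3384) (nat_lit 8) (nat_lit 13))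
    (@En.n l117 (nat_lit 2863) (nat_lit 8) (nat_lit 3))
    (@En.n l6132 (nat_lit 2523) (nat_lit 10) (nat_lit 12))
    (@En.n l3 (nat_lit 3621) (nat_lit 10) (nat_lit 2))
    (@En.i (nat_lit 2863) (nat_lit 12) (nat_lit 13))
    (@En.n l671 (nat_lit 4040) (nat_lit 13) (nat_lit 14))
    (@En.n l6286 (nat_lit 3617) (nat_lit 14) (nat_lit 5))
    (@En.n l6287 (nat_lit 3886) (nat_lit 13) (nat_lit 5))
    (@En.n l403 (nat_lit 3621) (nat_lit 15) (nat_lit 2))))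
  (@Cl.mk (nat_lit 0x20007000700040008000e000d0002000b00030009000900080005000e000c) (nat_lit 0x612030672031) (nat_lit 16) Lb.e (@T16.mk En
    (@En.n l9931 (nat_lit 3243) (nat_lit 8) (nat_lit 12))
    (@En.n l7432 (nat_lit 3118) (nat_lit 9) (nat_lit 14))
    (@En.i (nat_lit 3608) (nat_lit 2) (nat_lit 5))
    (@En.n l9932 (nat_lit 6165) (nat_lit 3) (nat_lit 8))
    (@En.n l152 (nat_lit 3231) (nat_lit 7) (nat_lit 9))
    (@En.i (nat_lit 9502) (nat_lit 5) (nat_lit 9))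
    (@En.n l4010 (nat_lit 3241) (nat_lit 6) (nat_lit 3))
    (@En.n l5347 (nat_lit 3205) (nat_lit 8) (nat_lit 11))
    (@En.n l11 (nat_lit 3622) (nat_lit 8) (nat_lit 2))
    (@En.n l9932 (nat_lit 3241) (nat_lit 10) (nat_lit 13))
    (@En.n l3494 (nat_lit 2551) (nat_lit 11) (nat_lit 14))
    (@En.n l1253 (nat_lit 5442) (nat_lit 12) (nat_lit 8))
    (@En.n l2125 (nat_lit 3969) (nat_lit 3) (nat_lit 4))
    (@En.n l3261 (nat_lit 3225) (nat_lit 14) (nat_lit 7))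
    (@En.n l9933 (nat_lit 4188) (nat_lit 5) (nat_lit 7))
    (@En.n l18 (nat_lit 3622) (nat_lit 15) (nat_lit 2))))
  (@Cl.mk (nat_lit 0x20007000700040008000d0009000e000300020009000900080007000e000c) (nat_lit 0x112900666031) (nat_lit 16) Lb.e (@T16.mk En
    (@En.n l55 (nat_lit 3242) (nat_lit 10) (nat_lit 12))
    (@En.n l9557 (nat_lit 3104) (nat_lit 11) (nat_lit 14))
    (@En.n l644 (nat_lit 3639) (nat_lit 2) (nat_lit 7))
    (@En.n l1282 (nat_lit 6168) (nat_lit 3) (nat_lit 8))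
    (@En.n l9558 (nat_lit 3235) (nat_lit 7) (nat_lit 9))
    (@En.n l9559 (nat_lit 8142) (nat_lit 5) (nat_lit 9))
    (@En.n l17 (nat_lit 3623) (nat_lit 6) (nat_lit 2))
    (@En.n l6849 (nat_lit 3241) (nat_lit 7) (nat_lit 3))
    (@En.n l7117 (nat_lit 13852) (nat_lit 0) (nat_lit 14))
    (@En.n l1282 (nat_lit 3664) (nat_lit 10) (nat_lit 9))
    (@En.n l9560 (nat_lit 2747) (nat_lit 11) (nat_lit 13))
    (@En.n l9561 (nat_lit 36) (nat_lit 4) (nat_lit 8))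
    (@En.n l218 (nat_lit 3970) (nat_lit 5) (nat_lit 4))
    (@En.n l152 (nat_lit 3524) (nat_lit 14) (nat_lit 7))
    (@En.n l2313 (nat_lit 4189) (nat_lit 7) (nat_lit 7))
    (@En.n l28 (nat_lit 3623) (nat_lit 15) (nat_lit 2))))
  (@Cl.mk (nat_lit 0x3000300080008000d0006000d0003000c0003000800080004000d000d000a) (nat_lit 0xa02020430020) (nat_lit 16) Lb.e (@T16.mk En
    (@En.i (nat_lit 6589) (nat_lit 0) (nat_lit 10))
    (@En.n l33747 (nat_lit 3625) (nat_lit 3) (nat_lit 13))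
    (@En.i (nat_lit 10454) (nat_lit 10) (nat_lit 13))
    (@En.n l2125 (nat_lit 5562) (nat_lit 3) (nat_lit 4))
    (@En.n l32698 (nat_lit 3630) (nat_lit 8) (nat_lit 8))
    (@En.n l9182 (nat_lit 5338) (nat_lit 5) (nat_lit 8))
    (@En.i (nat_lit 3627) (nat_lit 6) (nat_lit 3))
    (@En.n l4010 (nat_lit 3241) (nat_lit 0) (nat_lit 12))
    (@En.i (nat_lit 3628) (nat_lit 8) (nat_lit 3))
    (@En.n l7562 (nat_lit 3915) (nat_lit 0) (nat_lit 13))
    (@En.n l2678 (nat_lit 10338) (nat_lit 3) (nat_lit 6))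
    (@En.n l24478 (nat_lit 4067) (nat_lit 12) (nat_lit 13))
    (@En.n l152 (nat_lit 3629) (nat_lit 8) (nat_lit 8))
    (@En.n l810 (nat_lit 10810) (nat_lit 14) (nat_lit 8))
    (@En.n l28 (nat_lit 3626) (nat_lit 13) (nat_lit 3))
    (@En.n l22214 (nat_lit 3625) (nat_lit 0) (nat_lit 3))))
  (@Cl.mk (nat_lit 0x200080008000d0007000d0003000c0003000800080004000d0009000e0003) (nat_lit 0xb020204301030) (nat_lit 16) Lb.e (@T16.mk En
    (@En.n l37704 (nat_lit 3624) (nat_lit 15) (nat_lit 3))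
    (@En.n l3 (nat_lit 13966) (nat_lit 0) (nat_lit 14))
    (@En.n l26676 (nat_lit 5297) (nat_lit 2) (nat_lit 9))
    (@En.n l37705 (nat_lit 77) (nat_lit 2) (nat_lit 13))
    (@En.n l4851 (nat_lit 5563) (nat_lit 4) (nat_lit 4))
    (@En.n l37706 (nat_lit 5648) (nat_lit 8) (nat_lit 8))
    (@En.n l3549 (nat_lit 5340) (nat_lit 6) (nat_lit 8))
    (@En.n l7861 (nat_lit 3633) (nat_lit 7) (nat_lit 3))
    (@En.n l37707 (nat_lit 3623) (nat_lit 0) (nat_lit 12))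
    (@En.n l24436 (nat_lit 3632) (nat_lit 9) (nat_lit 3))
    (@En.n l11028 (nat_lit 3930) (nat_lit 11) (nat_lit 13))
    (@En.n l25328 (nat_lit 11132) (nat_lit 12) (nat_lit 7))
    (@En.n l37705 (nat_lit 6100) (nat_lit 13) (nat_lit 13))
    (@En.n l37708 (nat_lit 5550) (nat_lit 8) (nat_lit 8))
    (@En.n l37709 (nat_lit 10807) (nat_lit 14) (nat_lit 8))
    (@En.n l17 (nat_lit 3625) (nat_lit 15) (nat_lit 2))))
  (@Cl.mk (nat_lit 0x2000b000300080008000d0005000d0003000c0003000800080004000e000d) (nat_lit 0xa03020430a1) (nat_lit 16) Lb.e (@T16.mk En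
    (@En.n l1578 (nat_lit 3624) (nat_lit 2) (nat_lit 13))
    (@En.i (nat_lit 4531) (nat_lit 1) (nat_lit 14))
    (@En.n l2125 (nat_lit 5564) (nat_lit 2) (nat_lit 4))
    (@En.n l3261 (nat_lit 5649) (nat_lit 3) (nat_lit 8))
    (@En.n l9182 (nat_lit 5339) (nat_lit 4) (nat_lit 8))
    (@En.i (nat_lit 3635) (nat_lit 5) (nat_lit 3))
    (@En.i (nat_lit 3622) (nat_lit 0) (nat_lit 12))
    (@En.i (nat_lit 3634) (nat_lit 7) (nat_lit 3))
    (@En.n l7432 (nat_lit 3986) (nat_lit 9) (nat_lit 13))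
    (@En.i (nat_lit 10335) (nat_lit 9) (nat_lit 5))
    (@En.n l899 (nat_lit 4069) (nat_lit 11) (nat_lit 13))
    (@En.n l152 (nat_lit 5542) (nat_lit 8) (nat_lit 8))
    (@En.i (nat_lit 8728) (nat_lit 13) (nat_lit 8))
    (@En.i (nat_lit 3624) (nat_lit 14) (nat_lit 3))
    (@En.i (nat_lit 7780) (nat_lit 0) (nat_lit 11))
    (@En.n l11 (nat_lit 3626) (nat_lit 15) (nat_lit 2))))
  (@Cl.mk (nat_lit 0x3000300080008000c0006000d000b00040003000800080005000d000d000a) (nat_lit 0x301500440000) (nat_lit 16) Lb.e (@T16.mk En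
    (@En.i (nat_lit 7737) (nat_lit 0) (nat_lit 10))
    (@En.n l32696 (nat_lit 3633) (nat_lit 3) (nat_lit 13))
    (@En.n l9962 (nat_lit 4525) (nat_lit 12) (nat_lit 13))
    (@En.n l32697 (nat_lit 7249) (nat_lit 3) (nat_lit 5))
    (@En.n l32698 (nat_lit 4667) (nat_lit 8) (nat_lit 8))
    (@En.n l10794 (nat_lit 4205) (nat_lit 5) (nat_lit 8))
    (@En.n l18 (nat_lit 3624) (nat_lit 6) (nat_lit 3))
    (@En.n l4353 (nat_lit 3987) (nat_lit 0) (nat_lit 4))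
    (@En.n l17389 (nat_lit 5553) (nat_lit 9) (nat_lit 11))
    (@En.n l7562 (nat_lit 2081) (nat_lit 10) (nat_lit 13))
    (@En.n l10174 (nat_lit 5311) (nat_lit 3) (nat_lit 6))
    (@En.n l899 (nat_lit 6181) (nat_lit 12) (nat_lit 12))
    (@En.n l152 (nat_lit 5548) (nat_lit 8) (nat_lit 8))
    (@En.n l810 (nat_lit 10811) (nat_lit 14) (nat_lit 8))
    (@En.n l28 (nat_lit 3635) (nat_lit 13) (nat_lit 3))
    (@En.n l32699 (nat_lit 3633) (nat_lit 0) (nat_lit 3))))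
  (@Cl.mk (nat_lit 0x3000300080008000d000c00070003000c0004000800080004000d000d0009) (nat_lit 0xb40030330100) (nat_lit 16) Lb.e (@T16.mk En
    (@En.i (nat_lit 7731) (nat_lit 0) (nat_lit 9))
    (@En.n l31454 (nat_lit 3632) (nat_lit 3) (nat_lit 13))
    (@En.n l3939 (nat_lit 61) (nat_lit 2) (nat_lit 13))
    (@En.n l3928 (nat_lit 5536) (nat_lit 3) (nat_lit 4))
    (@En.n l31455 (nat_lit 5644) (nat_lit 8) (nat_lit 8))
    (@En.n l31456 (nat_lit 5402) (nat_lit 5) (nat_lit 8))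
    (@En.n l31457 (nat_lit 3990) (nat_lit 6) (nat_lit 4))
    (@En.n l31458 (nat_lit 3252) (nat_lit 8) (nat_lit 12))
    (@En.n l50 (nat_lit 3624) (nat_lit 8) (nat_lit 3))
    (@En.n l10362 (nat_lit 10094) (nat_lit 0) (nat_lit 7))
    (@En.n l217 (nat_lit 3627) (nat_lit 11) (nat_lit 12))
    (@En.n l24478 (nat_lit 4068) (nat_lit 12) (nat_lit 13))
    (@En.n l152 (nat_lit 5540) (nat_lit 8) (nat_lit 8))
    (@En.n l810 (nat_lit 10812) (nat_lit 14) (nat_lit 8))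
    (@En.n l28 (nat_lit 3634) (nat_lit 13) (nat_lit 3))
    (@En.n l10169 (nat_lit 3632) (nat_lit 0) (nat_lit 3))))
  (@Cl.mk (nat_lit 0x20005000d000d000b000300030008000d0005000d0003000b0003000e0008) (nat_lit 0x5006002020b5) (nat_lit 16) Lb.e (@T16.mk En
    (@En.i (nat_lit 3624) (nat_lit 5) (nat_lit 8))
    (@En.i (nat_lit 5545) (nat_lit 1) (nat_lit 14))
    (@En.i (nat_lit 5548) (nat_lit 2) (nat_lit 3))
    (@En.i (nat_lit 3233) (nat_lit 3) (nat_lit 11))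
    (@En.i (nat_lit 5540) (nat_lit 4) (nat_lit 3))
    (@En.i (nat_lit 3978) (nat_lit 6) (nat_lit 13))
    (@En.n l2678 (nat_lit 11127) (nat_lit 6) (nat_lit 5))
    (@En.n l3815 (nat_lit 3851) (nat_lit 8) (nat_lit 13))
    (@En.n l810 (nat_lit 10889) (nat_lit 9) (nat_lit 8))
    (@En.n l28 (nat_lit 5542) (nat_lit 9) (nat_lit 3))
    (@En.i (nat_lit 5550) (nat_lit 10) (nat_lit 3))
    (@En.i (nat_lit 8027) (nat_lit 12) (nat_lit 11))
    (@En.n l1578 (nat_lit 5550) (nat_lit 13) (nat_lit 13))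
    (@En.i (nat_lit 4713) (nat_lit 14) (nat_lit 13))
    (@En.i (nat_lit 4808) (nat_lit 13) (nat_lit 5))
    (@En.n l3 (nat_lit 3629) (nat_lit 15) (nat_lit 2))))
  (@Cl.mk (nat_lit 0x2000d0007000d0003000d000300080003000d000d000900030003000e0008) (nat_lit 0xa0602000000a1) (nat_lit 16) Lb.e (@T16.mk En
    (@En.n l17971 (nat_lit 3624) (nat_lit 13) (nat_lit 8))
    (@En.n l2440 (nat_lit 10935) (nat_lit 1) (nat_lit 14))
    (@En.n l152 (nat_lit 5649) (nat_lit 13) (nat_lit 3))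
    (@En.n l2438 (nat_lit 5648) (nat_lit 3) (nat_lit 3))
    (@En.n l97 (nat_lit 8034) (nat_lit 0) (nat_lit 9))
    (@En.n l10815 (nat_lit 5648) (nat_lit 6) (nat_lit 13))
    (@En.n l1119 (nat_lit 4705) (nat_lit 7) (nat_lit 13))
    (@En.n l5567 (nat_lit 4670) (nat_lit 7) (nat_lit 3))
    (@En.i (nat_lit 5332) (nat_lit 0) (nat_lit 8))
    (@En.i (nat_lit 4667) (nat_lit 9) (nat_lit 3))
    (@En.i (nat_lit 3224) (nat_lit 0) (nat_lit 13))
    (@En.n l7402 (nat_lit 5644) (nat_lit 11) (nat_lit 3))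
    (@En.n l2438 (nat_lit 3932) (nat_lit 0) (nat_lit 13))
    (@En.i (nat_lit 12501) (nat_lit 14) (nat_lit 7))
    (@En.n l17972 (nat_lit 6105) (nat_lit 11) (nat_lit 13))
    (@En.n l28 (nat_lit 3630) (nat_lit 15) (nat_lit 2))))
  (@Cl.mk (nat_lit 0x2000800080008000d000d000900030003000800080008000d0007000e0003) (nat_lit 0x406a1000305b0a0) (nat_lit 16) Lb.e (@T16.mk En
    (@En.i (nat_lit 49) (nat_lit 7) (nat_lit 3))
    (@En.n l17952 (nat_lit 12951) (nat_lit 0) (nat_lit 14))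
    (@En.i (nat_lit 5714) (nat_lit 2) (nat_lit 7))
    (@En.n l6140 (nat_lit 3624) (nat_lit 11) (nat_lit 13))
    (@En.n l61 (nat_lit 5443) (nat_lit 4) (nat_lit 8))
    (@En.n l10952 (nat_lit 5501) (nat_lit 8) (nat_lit 8))
    (@En.n l17953 (nat_lit 6013) (nat_lit 6) (nat_lit 8))
    (@En.n l15355 (nat_lit 5442) (nat_lit 7) (nat_lit 3))
    (@En.i (nat_lit 36) (nat_lit 0) (nat_lit 3))
    (@En.n l11383 (nat_lit 5697) (nat_lit 10) (nat_lit 9))
    (@En.n l97 (nat_lit 36) (nat_lit 3) (nat_lit 13))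
    (@En.n l9155 (nat_lit 3632) (nat_lit 12) (nat_lit 13))
    (@En.n l17954 (nat_lit 5444) (nat_lit 13) (nat_lit 8))
    (@En.n l17955 (nat_lit 5499) (nat_lit 14) (nat_lit 8))
    (@En.n l4172 (nat_lit 6012) (nat_lit 5) (nat_lit 8))
    (@En.n l7 (nat_lit 3631) (nat_lit 15) (nat_lit 2))))
noncomputable def a227 : T16 Cl := @T16.mk Cl
  (@Cl.mk (nat_lit 0x200080008000d000c00080003000c0004000800080004000d0008000e0003) (nat_lit 0x950020330b030) (nat_lit 16) Lb.e (@T16.mk En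
    (@En.n l18120 (nat_lit 3628) (nat_lit 15) (nat_lit 3))
    (@En.i (nat_lit 13869) (nat_lit 0) (nat_lit 14))
    (@En.i (nat_lit 7187) (nat_lit 2) (nat_lit 8))
    (@En.n l564 (nat_lit 10454) (nat_lit 2) (nat_lit 13))
    (@En.n l7 (nat_lit 5625) (nat_lit 4) (nat_lit 4))
    (@En.n l152 (nat_lit 5643) (nat_lit 8) (nat_lit 8))
    (@En.i (nat_lit 5404) (nat_lit 6) (nat_lit 8))
    (@En.n l2678 (nat_lit 3998) (nat_lit 7) (nat_lit 4))
    (@En.n l3766 (nat_lit 5506) (nat_lit 9) (nat_lit 12))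
    (@En.n l4147 (nat_lit 3625) (nat_lit 9) (nat_lit 3))
    (@En.i (nat_lit 10102) (nat_lit 11) (nat_lit 8))
    (@En.n l17089 (nat_lit 3633) (nat_lit 12) (nat_lit 12))
    (@En.n l619 (nat_lit 6001) (nat_lit 13) (nat_lit 13))
    (@En.n l3691 (nat_lit 5507) (nat_lit 8) (nat_lit 8))
    (@En.i (nat_lit 10808) (nat_lit 14) (nat_lit 8))
    (@En.n l17 (nat_lit 3632) (nat_lit 15) (nat_lit 2))))
  (@Cl.mk (nat_lit 0x200080008000c0007000d000b00040003000800080005000d0009000e0003) (nat_lit 0x401500440b030) (nat_lit 16) Lb.e (@T16.mk En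
    (@En.n l24784 (nat_lit 3627) (nat_lit 15) (nat_lit 3))
    (@En.n l24785 (nat_lit 13962) (nat_lit 0) (nat_lit 14))
    (@En.n l24786 (nat_lit 5299) (nat_lit 2) (nat_lit 9))
    (@En.n l24787 (nat_lit 10455) (nat_lit 4) (nat_lit 13))
    (@En.n l1347 (nat_lit 7248) (nat_lit 4) (nat_lit 5))
    (@En.n l24788 (nat_lit 4669) (nat_lit 8) (nat_lit 8))
    (@En.n l10070 (nat_lit 4207) (nat_lit 6) (nat_lit 8))
    (@En.n l24789 (nat_lit 3625) (nat_lit 7) (nat_lit 3))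
    (@En.n l24787 (nat_lit 3989) (nat_lit 0) (nat_lit 4))
    (@En.n l12826 (nat_lit 5652) (nat_lit 10) (nat_lit 11))
    (@En.i (nat_lit 2080) (nat_lit 11) (nat_lit 13))
    (@En.n l61 (nat_lit 11133) (nat_lit 12) (nat_lit 7))
    (@En.n l24790 (nat_lit 6188) (nat_lit 13) (nat_lit 12))
    (@En.n l24791 (nat_lit 5552) (nat_lit 8) (nat_lit 8))
    (@En.n l24792 (nat_lit 10809) (nat_lit 14) (nat_lit 8))
    (@En.n l11 (nat_lit 3633) (nat_lit 15) (nat_lit 2))))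
  (@Cl.mk (nat_lit 0x2000a000300080008000d000c00060003000c0004000800080004000e000d) (nat_lit 0xa30040330a2) (nat_lit 16) Lb.e (@T16.mk En
    (@En.n l1578 (nat_lit 3628) (nat_lit 2) (nat_lit 13))
    (@En.i (nat_lit 4552) (nat_lit 1) (nat_lit 14))
    (@En.n l3928 (nat_lit 5624) (nat_lit 2) (nat_lit 4))
    (@En.n l26839 (nat_lit 5646) (nat_lit 3) (nat_lit 8))
    (@En.n l14734 (nat_lit 5403) (nat_lit 4) (nat_lit 8))
    (@En.n l3928 (nat_lit 3995) (nat_lit 5) (nat_lit 4))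
    (@En.n l250 (nat_lit 5666) (nat_lit 7) (nat_lit 12))
    (@En.n l50 (nat_lit 3626) (nat_lit 7) (nat_lit 3))
    (@En.i (nat_lit 10101) (nat_lit 8) (nat_lit 6))
    (@En.n l217 (nat_lit 3635) (nat_lit 10) (nat_lit 12))
    (@En.n l899 (nat_lit 5999) (nat_lit 11) (nat_lit 13))
    (@En.n l152 (nat_lit 5541) (nat_lit 8) (nat_lit 8))
    (@En.i (nat_lit 8724) (nat_lit 13) (nat_lit 8))
    (@En.i (nat_lit 3628) (nat_lit 14) (nat_lit 3))
    (@En.i (nat_lit 5243) (nat_lit 0) (nat_lit 10))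
    (@En.n l11 (nat_lit 3634) (nat_lit 15) (nat_lit 2))))
  (@Cl.mk (nat_lit 0x2000b000300080008000c0005000d000b00040003000800080005000e000d) (nat_lit 0x203400440a1) (nat_lit 16) Lb.e (@T16.mk En
    (@En.n l1578 (nat_lit 3627) (nat_lit 2) (nat_lit 13))
    (@En.n l17133 (nat_lit 4549) (nat_lit 1) (nat_lit 14))
    (@En.n l6080 (nat_lit 7250) (nat_lit 2) (nat_lit 5))
    (@En.n l3261 (nat_lit 4668) (nat_lit 3) (nat_lit 8))
    (@En.n l10794 (nat_lit 4204) (nat_lit 4) (nat_lit 8))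
    (@En.n l18 (nat_lit 3626) (nat_lit 5) (nat_lit 3))
    (@En.n l17134 (nat_lit 3988) (nat_lit 0) (nat_lit 4))
    (@En.n l899 (nat_lit 5653) (nat_lit 8) (nat_lit 11))
    (@En.n l7432 (nat_lit 3912) (nat_lit 9) (nat_lit 13))
    (@En.i (nat_lit 10336) (nat_lit 9) (nat_lit 5))
    (@En.n l899 (nat_lit 6180) (nat_lit 11) (nat_lit 12))
    (@En.n l152 (nat_lit 5547) (nat_lit 8) (nat_lit 8))
    (@En.i (nat_lit 8727) (nat_lit 13) (nat_lit 8))
    (@En.i (nat_lit 3627) (nat_lit 14) (nat_lit 3))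
    (@En.i (nat_lit 5693) (nat_lit 0) (nat_lit 11))
    (@En.n l11 (nat_lit 3635) (nat_lit 15) (nat_lit 2))))
  (@Cl.mk (nat_lit 0x2000b000b0007000c000c0005000500040004000d000c00090003000e0004) (nat_lit 0x780010000b81010) (nat_lit 16) Lb.e (@T16.mk En
    (@En.n l50 (nat_lit 2879) (nat_lit 14) (nat_lit 4))
    (@En.n l5 (nat_lit 738) (nat_lit 1) (nat_lit 14))
    (@En.n l50 (nat_lit 3605) (nat_lit 2) (nat_lit 3))
    (@En.i (nat_lit 2032) (nat_lit 3) (nat_lit 9))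
    (@En.n l217 (nat_lit 2875) (nat_lit 4) (nat_lit 12))
    (@En.i (nat_lit 9246) (nat_lit 6) (nat_lit 13))
    (@En.i (nat_lit 3639) (nat_lit 12) (nat_lit 4))
    (@En.n l11 (nat_lit 4372) (nat_lit 7) (nat_lit 4))
    (@En.n l152 (nat_lit 3519) (nat_lit 11) (nat_lit 5))
    (@En.n l936 (nat_lit 4379) (nat_lit 9) (nat_lit 5))
    (@En.n l55 (nat_lit 2874) (nat_lit 11) (nat_lit 12))
    (@En.i (nat_lit 3756) (nat_lit 12) (nat_lit 12))
    (@En.i (nat_lit 6253) (nat_lit 13) (nat_lit 7))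
    (@En.n l5579 (nat_lit 3607) (nat_lit 5) (nat_lit 11))
    (@En.i (nat_lit 8137) (nat_lit 12) (nat_lit 11))
    (@En.n l17 (nat_lit 3636) (nat_lit 15) (nat_lit 2))))
  (@Cl.mk (nat_lit 0x2000c0006000b000e00040002000e00050002000d000c000a0003000e0004) (nat_lit 0x709c00600a92010) (nat_lit 16) Lb.e (@T16.mk En
    (@En.n l14613 (nat_lit 2865) (nat_lit 9) (nat_lit 4))
    (@En.n l134 (nat_lit 742) (nat_lit 1) (nat_lit 14))
    (@En.n l11 (nat_lit 3606) (nat_lit 2) (nat_lit 3))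
    (@En.n l14613 (nat_lit 4144) (nat_lit 3) (nat_lit 10))
    (@En.n l55 (nat_lit 2876) (nat_lit 14) (nat_lit 12))
    (@En.i (nat_lit 12726) (nat_lit 12) (nat_lit 13))
    (@En.n l3 (nat_lit 3637) (nat_lit 6) (nat_lit 2))
    (@En.n l476 (nat_lit 3607) (nat_lit 14) (nat_lit 5))
    (@En.i (nat_lit 3641) (nat_lit 1) (nat_lit 14))
    (@En.n l17 (nat_lit 3637) (nat_lit 9) (nat_lit 2))
    (@En.n l2869 (nat_lit 2874) (nat_lit 10) (nat_lit 4))
    (@En.n l5933 (nat_lit 13074) (nat_lit 4) (nat_lit 14))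
    (@En.n l2579 (nat_lit 3753) (nat_lit 2) (nat_lit 11))
    (@En.n l998 (nat_lit 2965) (nat_lit 14) (nat_lit 6))
    (@En.n l5933 (nat_lit 6732) (nat_lit 8) (nat_lit 12))
    (@En.n l7 (nat_lit 3637) (nat_lit 15) (nat_lit 2))))
  (@Cl.mk (nat_lit 0x20005000d000c000a0003000e00040002000a0006000e000b0002000e0006) (nat_lit 0xb9201007001010) (nat_lit 16) Lb.e (@T16.mk En
    (@En.n l2641 (nat_lit 3639) (nat_lit 14) (nat_lit 6))
    (@En.n l2642 (nat_lit 3607) (nat_lit 1) (nat_lit 14))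
    (@En.n l3 (nat_lit 3638) (nat_lit 2) (nat_lit 2))
    (@En.n l2643 (nat_lit 3607) (nat_lit 3) (nat_lit 11))
    (@En.n l2644 (nat_lit 4772) (nat_lit 5) (nat_lit 14))
    (@En.n l2645 (nat_lit 2966) (nat_lit 5) (nat_lit 6))
    (@En.n l2646 (nat_lit 6737) (nat_lit 3) (nat_lit 10))
    (@En.n l50 (nat_lit 3638) (nat_lit 7) (nat_lit 2))
    (@En.n l2647 (nat_lit 3610) (nat_lit 8) (nat_lit 4))
    (@En.n l2648 (nat_lit 748) (nat_lit 10) (nat_lit 14))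
    (@En.n l28 (nat_lit 3602) (nat_lit 10) (nat_lit 3))
    (@En.n l2649 (nat_lit 4142) (nat_lit 12) (nat_lit 10))
    (@En.n l2650 (nat_lit 3599) (nat_lit 13) (nat_lit 12))
    (@En.n l2651 (nat_lit 5957) (nat_lit 6) (nat_lit 13))
    (@En.n l2652 (nat_lit 3647) (nat_lit 13) (nat_lit 5))
    (@En.n l725 (nat_lit 3638) (nat_lit 15) (nat_lit 2))))
  (@Cl.mk (nat_lit 0x2000600060004000d000c00090003000e00040002000a000a0007000e000c) (nat_lit 0xb80010078021) (nat_lit 16) Lb.e (@T16.mk En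
    (@En.n l55 (nat_lit 3636) (nat_lit 11) (nat_lit 12))
    (@En.n l218 (nat_lit 3693) (nat_lit 1) (nat_lit 14))
    (@En.n l2308 (nat_lit 6418) (nat_lit 2) (nat_lit 7))
    (@En.n l2309 (nat_lit 3638) (nat_lit 6) (nat_lit 10))
    (@En.n l2310 (nat_lit 8132) (nat_lit 4) (nat_lit 10))
    (@En.n l17 (nat_lit 3639) (nat_lit 5) (nat_lit 2))
    (@En.n l2311 (nat_lit 3563) (nat_lit 6) (nat_lit 4))
    (@En.n l5 (nat_lit 639) (nat_lit 8) (nat_lit 14))
    (@En.n l50 (nat_lit 3604) (nat_lit 8) (nat_lit 3))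
    (@En.n l1282 (nat_lit 4143) (nat_lit 10) (nat_lit 9))
    (@En.n l217 (nat_lit 3600) (nat_lit 11) (nat_lit 12))
    (@En.n l2312 (nat_lit 11514) (nat_lit 12) (nat_lit 13))
    (@En.n l218 (nat_lit 3649) (nat_lit 6) (nat_lit 4))
    (@En.n l152 (nat_lit 3518) (nat_lit 14) (nat_lit 6))
    (@En.n l2313 (nat_lit 4376) (nat_lit 8) (nat_lit 6))
    (@En.n l28 (nat_lit 3639) (nat_lit 15) (nat_lit 2))))
  (@Cl.mk (nat_lit 0x2000600050004000d000c000a0003000e00040002000a0006000b000e000c) (nat_lit 0xb92010070114) (nat_lit 16) Lb.e (@T16.mk En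
    (@En.n l6195 (nat_lit 3646) (nat_lit 11) (nat_lit 12))
    (@En.i (nat_lit 3638) (nat_lit 4) (nat_lit 14))
    (@En.n l3340 (nat_lit 2895) (nat_lit 2) (nat_lit 11))
    (@En.n l7461 (nat_lit 2665) (nat_lit 14) (nat_lit 6))
    (@En.n l6193 (nat_lit 6768) (nat_lit 4) (nat_lit 10))
    (@En.n l50 (nat_lit 3640) (nat_lit 5) (nat_lit 2))
    (@En.n l13542 (nat_lit 3585) (nat_lit 6) (nat_lit 4))
    (@En.n l601 (nat_lit 879) (nat_lit 8) (nat_lit 14))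
    (@En.n l28 (nat_lit 3916) (nat_lit 8) (nat_lit 3))
    (@En.n l13549 (nat_lit 3704) (nat_lit 10) (nat_lit 10))
    (@En.n l2650 (nat_lit 3592) (nat_lit 11) (nat_lit 12))
    (@En.i (nat_lit 10746) (nat_lit 12) (nat_lit 13))
    (@En.n l10845 (nat_lit 3648) (nat_lit 6) (nat_lit 4))
    (@En.n l725 (nat_lit 3642) (nat_lit 14) (nat_lit 5))
    (@En.n l3340 (nat_lit 4372) (nat_lit 8) (nat_lit 6))
    (@En.n l3 (nat_lit 3640) (nat_lit 15) (nat_lit 2))))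
  (@Cl.mk (nat_lit 0x20005000d000c000a0003000e00040002000c0006000c000b0004000e0004) (nat_lit 0xb8001008023050) (nat_lit 16) Lb.e (@T16.mk En
    (@En.n l7881 (nat_lit 3646) (nat_lit 8) (nat_lit 4))
    (@En.n l7611 (nat_lit 3647) (nat_lit 1) (nat_lit 14))
    (@En.n l7882 (nat_lit 663) (nat_lit 2) (nat_lit 4))
    (@En.n l1253 (nat_lit 3642) (nat_lit 3) (nat_lit 11))
    (@En.n l2579 (nat_lit 3338) (nat_lit 13) (nat_lit 12))
    (@En.n l9109 (nat_lit 2666) (nat_lit 5) (nat_lit 6))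
    (@En.n l8435 (nat_lit 6305) (nat_lit 7) (nat_lit 12))
    (@En.n l7 (nat_lit 3641) (nat_lit 7) (nat_lit 2))
    (@En.n l6173 (nat_lit 3847) (nat_lit 8) (nat_lit 4))
    (@En.n l9397 (nat_lit 767) (nat_lit 10) (nat_lit 14))
    (@En.n l11 (nat_lit 3791) (nat_lit 10) (nat_lit 3))
    (@En.n l6174 (nat_lit 3703) (nat_lit 12) (nat_lit 10))
    (@En.n l7886 (nat_lit 3792) (nat_lit 13) (nat_lit 12))
    (@En.n l3337 (nat_lit 7456) (nat_lit 6) (nat_lit 13))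
    (@En.i (nat_lit 3607) (nat_lit 13) (nat_lit 5))
    (@En.n l3 (nat_lit 3641) (nat_lit 15) (nat_lit 2))))
  (@Cl.mk (nat_lit 0x200050003000d000c000a0003000e00040002000d0006000b0003000e000d) (nat_lit 0xba00100002025) (nat_lit 16) Lb.e (@T16.mk En
    (@En.n l13540 (nat_lit 3644) (nat_lit 10) (nat_lit 13))
    (@En.i (nat_lit 3640) (nat_lit 1) (nat_lit 14))
    (@En.n l13541 (nat_lit 3643) (nat_lit 2) (nat_lit 3))
    (@En.i (nat_lit 2896) (nat_lit 3) (nat_lit 11))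
    (@En.n l1353 (nat_lit 2662) (nat_lit 4) (nat_lit 6))
    (@En.n l9025 (nat_lit 6333) (nat_lit 6) (nat_lit 13))
    (@En.n l50 (nat_lit 3642) (nat_lit 6) (nat_lit 2))
    (@En.n l13542 (nat_lit 3593) (nat_lit 7) (nat_lit 4))
    (@En.n l601 (nat_lit 848) (nat_lit 9) (nat_lit 14))
    (@En.n l28 (nat_lit 3788) (nat_lit 9) (nat_lit 3))
    (@En.n l13543 (nat_lit 3701) (nat_lit 11) (nat_lit 10))
    (@En.n l2650 (nat_lit 3839) (nat_lit 12) (nat_lit 12))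
    (@En.i (nat_lit 12602) (nat_lit 13) (nat_lit 13))
    (@En.n l10845 (nat_lit 3644) (nat_lit 6) (nat_lit 3))
    (@En.n l1643 (nat_lit 3637) (nat_lit 7) (nat_lit 5))
    (@En.n l3 (nat_lit 3642) (nat_lit 15) (nat_lit 2))))
  (@Cl.mk (nat_lit 0x200060003000d000c00090003000e00040002000d000a00070003000e000d) (nat_lit 0xb870100080035) (nat_lit 16) Lb.e (@T16.mk En
    (@En.n l5338 (nat_lit 3645) (nat_lit 10) (nat_lit 13))
    (@En.n l5339 (nat_lit 3639) (nat_lit 1) (nat_lit 14))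
    (@En.n l5340 (nat_lit 3642) (nat_lit 2) (nat_lit 3))
    (@En.i (nat_lit 3941) (nat_lit 3) (nat_lit 7))
    (@En.n l5341 (nat_lit 3640) (nat_lit 4) (nat_lit 10))
    (@En.n l5342 (nat_lit 6332) (nat_lit 6) (nat_lit 13))
    (@En.n l50 (nat_lit 3643) (nat_lit 6) (nat_lit 2))
    (@En.n l7 (nat_lit 3823) (nat_lit 7) (nat_lit 4))
    (@En.n l5343 (nat_lit 843) (nat_lit 9) (nat_lit 14))
    (@En.n l685 (nat_lit 3787) (nat_lit 9) (nat_lit 3))
    (@En.n l55 (nat_lit 3945) (nat_lit 11) (nat_lit 9))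
    (@En.n l5344 (nat_lit 3789) (nat_lit 12) (nat_lit 12))
    (@En.n l11 (nat_lit 12609) (nat_lit 13) (nat_lit 13))
    (@En.n l5345 (nat_lit 3645) (nat_lit 6) (nat_lit 3))
    (@En.n l5346 (nat_lit 2246) (nat_lit 7) (nat_lit 6))
    (@En.n l3 (nat_lit 3643) (nat_lit 15) (nat_lit 2))))
  (@Cl.mk (nat_lit 0x2000d0006000c0003000d000d000400030003000d000c000a0003000e0004) (nat_lit 0x301045000b90010) (nat_lit 16) Lb.e (@T16.mk En
    (@En.n l117 (nat_lit 3819) (nat_lit 8) (nat_lit 4))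
    (@En.n l2691 (nat_lit 594) (nat_lit 1) (nat_lit 14))
    (@En.n l936 (nat_lit 3780) (nat_lit 2) (nat_lit 3))
    (@En.i (nat_lit 3697) (nat_lit 3) (nat_lit 10))
    (@En.n l936 (nat_lit 3719) (nat_lit 13) (nat_lit 12))
    (@En.i (nat_lit 8684) (nat_lit 6) (nat_lit 13))
    (@En.n l5333 (nat_lit 3642) (nat_lit 13) (nat_lit 3))
    (@En.n l18 (nat_lit 3777) (nat_lit 7) (nat_lit 3))
    (@En.n l668 (nat_lit 3641) (nat_lit 0) (nat_lit 4))
    (@En.n l61 (nat_lit 3777) (nat_lit 10) (nat_lit 13))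
    (@En.i (nat_lit 3648) (nat_lit 11) (nat_lit 13))
    (@En.i (nat_lit 3645) (nat_lit 11) (nat_lit 3))
    (@En.n l4185 (nat_lit 2898) (nat_lit 0) (nat_lit 12))
    (@En.i (nat_lit 2664) (nat_lit 14) (nat_lit 6))
    (@En.n l614 (nat_lit 6322) (nat_lit 7) (nat_lit 13))
    (@En.n l11 (nat_lit 3644) (nat_lit 15) (nat_lit 2))))
  (@Cl.mk (nat_lit 0x2000d000b00070003000d000d000500030003000d000c00090003000e0004) (nat_lit 0x880045000a87010) (nat_lit 16) Lb.e (@T16.mk En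
    (@En.n l117 (nat_lit 3822) (nat_lit 8) (nat_lit 4))
    (@En.n l2691 (nat_lit 839) (nat_lit 1) (nat_lit 14))
    (@En.n l936 (nat_lit 3783) (nat_lit 2) (nat_lit 3))
    (@En.i (nat_lit 3943) (nat_lit 3) (nat_lit 9))
    (@En.n l936 (nat_lit 3785) (nat_lit 13) (nat_lit 12))
    (@En.i (nat_lit 7943) (nat_lit 6) (nat_lit 13))
    (@En.n l1779 (nat_lit 3643) (nat_lit 13) (nat_lit 3))
    (@En.n l18 (nat_lit 3782) (nat_lit 7) (nat_lit 3))
    (@En.n l2211 (nat_lit 2668) (nat_lit 0) (nat_lit 5))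
    (@En.n l61 (nat_lit 3782) (nat_lit 10) (nat_lit 13))
    (@En.n l13537 (nat_lit 3649) (nat_lit 11) (nat_lit 13))
    (@En.n l7 (nat_lit 3644) (nat_lit 11) (nat_lit 3))
    (@En.n l13538 (nat_lit 3940) (nat_lit 0) (nat_lit 7))
    (@En.i (nat_lit 3646) (nat_lit 14) (nat_lit 11))
    (@En.n l614 (nat_lit 6238) (nat_lit 7) (nat_lit 13))
    (@En.n l11 (nat_lit 3645) (nat_lit 15) (nat_lit 2))))
  (@Cl.mk (nat_lit 0x2000b0006000c000c000c0005000400040004000d000c000a0003000e0004) (nat_lit 0x702330000b90020) (nat_lit 16) Lb.e (@T16.mk En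
    (@En.n l117 (nat_lit 3818) (nat_lit 14) (nat_lit 4))
    (@En.n l2691 (nat_lit 587) (nat_lit 1) (nat_lit 14))
    (@En.n l936 (nat_lit 3786) (nat_lit 2) (nat_lit 3))
    (@En.i (nat_lit 3700) (nat_lit 3) (nat_lit 10))
    (@En.n l936 (nat_lit 3790) (nat_lit 4) (nat_lit 12))
    (@En.n l2175 (nat_lit 8678) (nat_lit 6) (nat_lit 13))
    (@En.n l5657 (nat_lit 3640) (nat_lit 12) (nat_lit 4))
    (@En.n l2172 (nat_lit 3804) (nat_lit 7) (nat_lit 4))
    (@En.i (nat_lit 3644) (nat_lit 8) (nat_lit 4))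
    (@En.n l6423 (nat_lit 664) (nat_lit 9) (nat_lit 5))
    (@En.n l742 (nat_lit 3776) (nat_lit 11) (nat_lit 12))
    (@En.n l5660 (nat_lit 3641) (nat_lit 4) (nat_lit 12))
    (@En.n l6423 (nat_lit 2997) (nat_lit 13) (nat_lit 12))
    (@En.n l13989 (nat_lit 2667) (nat_lit 14) (nat_lit 6))
    (@En.n l13990 (nat_lit 6300) (nat_lit 12) (nat_lit 11))
    (@En.n l11 (nat_lit 3646) (nat_lit 15) (nat_lit 2))))
  (@Cl.mk (nat_lit 0x200070005000d000c000a0003000e0004000200090006000d000b000e0003) (nat_lit 0xaa00200702240) (nat_lit 16) Lb.e (@T16.mk En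
    (@En.n l5967 (nat_lit 3648) (nat_lit 9) (nat_lit 3))
    (@En.n l2038 (nat_lit 13002) (nat_lit 0) (nat_lit 14))
    (@En.n l2673 (nat_lit 3640) (nat_lit 2) (nat_lit 11))
    (@En.n l810 (nat_lit 3337) (nat_lit 13) (nat_lit 13))
    (@En.i (nat_lit 3078) (nat_lit 14) (nat_lit 6))
    (@En.n l7834 (nat_lit 7276) (nat_lit 5) (nat_lit 9))
    (@En.n l17 (nat_lit 3647) (nat_lit 6) (nat_lit 2))
    (@En.n l7835 (nat_lit 3068) (nat_lit 7) (nat_lit 4))
    (@En.n l998 (nat_lit 559) (nat_lit 1) (nat_lit 14))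
    (@En.n l50 (nat_lit 3795) (nat_lit 9) (nat_lit 3))
    (@En.n l2667 (nat_lit 4126) (nat_lit 11) (nat_lit 10))
    (@En.n l217 (nat_lit 3794) (nat_lit 12) (nat_lit 12))
    (@En.n l476 (nat_lit 7078) (nat_lit 13) (nat_lit 13))
    (@En.n l2669 (nat_lit 3641) (nat_lit 14) (nat_lit 5))
    (@En.n l7836 (nat_lit 3649) (nat_lit 7) (nat_lit 7))
    (@En.n l11 (nat_lit 3647) (nat_lit 15) (nat_lit 2))))
noncomputable def a228 : T16 Cl := @T16.mk Cl
  (@Cl.mk (nat_lit 0x200090006000d000d000c0003000300070004000d000c000a0003000e0004) (nat_lit 0x702340000b60020) (nat_lit 16) Lb.e (@T16.mk En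
    (@En.n l117 (nat_lit 3074) (nat_lit 6) (nat_lit 4))
    (@En.n l2691 (nat_lit 562) (nat_lit 1) (nat_lit 14))
    (@En.n l936 (nat_lit 3797) (nat_lit 2) (nat_lit 3))
    (@En.i (nat_lit 3705) (nat_lit 3) (nat_lit 10))
    (@En.n l936 (nat_lit 3796) (nat_lit 11) (nat_lit 12))
    (@En.n l6441 (nat_lit 7072) (nat_lit 6) (nat_lit 13))
    (@En.n l403 (nat_lit 3646) (nat_lit 6) (nat_lit 4))
    (@En.n l1353 (nat_lit 4370) (nat_lit 7) (nat_lit 7))
    (@En.n l18 (nat_lit 3805) (nat_lit 8) (nat_lit 3))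
    (@En.n l2808 (nat_lit 3647) (nat_lit 0) (nat_lit 3))
    (@En.n l6444 (nat_lit 3804) (nat_lit 11) (nat_lit 12))
    (@En.n l6445 (nat_lit 3647) (nat_lit 3) (nat_lit 13))
    (@En.n l9455 (nat_lit 3336) (nat_lit 13) (nat_lit 13))
    (@En.n l18860 (nat_lit 3077) (nat_lit 14) (nat_lit 6))
    (@En.n l614 (nat_lit 7230) (nat_lit 4) (nat_lit 9))
    (@En.n l11 (nat_lit 3648) (nat_lit 15) (nat_lit 2))))
  (@Cl.mk (nat_lit 0x20009000c0007000d000c0004000300070004000d000c00090003000e0004) (nat_lit 0x590300000b70010) (nat_lit 16) Lb.e (@T16.mk En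
    (@En.n l6862 (nat_lit 4394) (nat_lit 7) (nat_lit 4))
    (@En.n l6863 (nat_lit 724) (nat_lit 1) (nat_lit 14))
    (@En.n l50 (nat_lit 4367) (nat_lit 2) (nat_lit 3))
    (@En.n l6864 (nat_lit 3947) (nat_lit 3) (nat_lit 9))
    (@En.n l6865 (nat_lit 4364) (nat_lit 4) (nat_lit 12))
    (@En.n l1596 (nat_lit 7888) (nat_lit 6) (nat_lit 13))
    (@En.i (nat_lit 3636) (nat_lit 6) (nat_lit 4))
    (@En.n l219 (nat_lit 4371) (nat_lit 7) (nat_lit 7))
    (@En.n l1964 (nat_lit 4370) (nat_lit 8) (nat_lit 3))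
    (@En.n l5870 (nat_lit 826) (nat_lit 0) (nat_lit 4))
    (@En.n l55 (nat_lit 4372) (nat_lit 11) (nat_lit 12))
    (@En.i (nat_lit 3762) (nat_lit 12) (nat_lit 13))
    (@En.n l6866 (nat_lit 6247) (nat_lit 13) (nat_lit 7))
    (@En.n l5579 (nat_lit 3641) (nat_lit 6) (nat_lit 12))
    (@En.n l6867 (nat_lit 7620) (nat_lit 12) (nat_lit 9))
    (@En.n l17 (nat_lit 3649) (nat_lit 15) (nat_lit 2))))
  (@Cl.mk (nat_lit 0x20005000b000b0007000c000c0005000500040004000c000b0009000e0004) (nat_lit 0x780a1000068280) (nat_lit 16) Lb.e (@T16.mk En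
    (@En.n l50 (nat_lit 2879) (nat_lit 15) (nat_lit 4))
    (@En.n l8190 (nat_lit 3651) (nat_lit 1) (nat_lit 14))
    (@En.n l2857 (nat_lit 3652) (nat_lit 2) (nat_lit 9))
    (@En.n l2863 (nat_lit 3594) (nat_lit 3) (nat_lit 11))
    (@En.n l4190 (nat_lit 12038) (nat_lit 5) (nat_lit 12))
    (@En.n l1282 (nat_lit 3609) (nat_lit 5) (nat_lit 4))
    (@En.n l8304 (nat_lit 4422) (nat_lit 6) (nat_lit 4))
    (@En.n l152 (nat_lit 2566) (nat_lit 7) (nat_lit 5))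
    (@En.n l936 (nat_lit 4420) (nat_lit 8) (nat_lit 5))
    (@En.n l55 (nat_lit 2868) (nat_lit 10) (nat_lit 12))
    (@En.i (nat_lit 3847) (nat_lit 11) (nat_lit 12))
    (@En.n l8305 (nat_lit 6309) (nat_lit 12) (nat_lit 7))
    (@En.n l1867 (nat_lit 2639) (nat_lit 5) (nat_lit 11))
    (@En.n l8306 (nat_lit 8201) (nat_lit 14) (nat_lit 11))
    (@En.n l670 (nat_lit 2497) (nat_lit 13) (nat_lit 5))
    (@En.n l18 (nat_lit 3650) (nat_lit 15) (nat_lit 2))))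
  (@Cl.mk (nat_lit 0x2000c0005000b000b0004000c000c0005000500040004000d000b000e0003) (nat_lit 0x507201100007770) (nat_lit 16) Lb.e (@T16.mk En
    (@En.n l2843 (nat_lit 3561) (nat_lit 15) (nat_lit 3))
    (@En.i (nat_lit 13376) (nat_lit 0) (nat_lit 14))
    (@En.n l5 (nat_lit 3581) (nat_lit 2) (nat_lit 11))
    (@En.n l414 (nat_lit 12037) (nat_lit 2) (nat_lit 13))
    (@En.n l237 (nat_lit 3564) (nat_lit 12) (nat_lit 4))
    (@En.i (nat_lit 4411) (nat_lit 5) (nat_lit 4))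
    (@En.n l243 (nat_lit 2570) (nat_lit 11) (nat_lit 5))
    (@En.n l55 (nat_lit 4417) (nat_lit 7) (nat_lit 5))
    (@En.n l134 (nat_lit 2858) (nat_lit 9) (nat_lit 12))
    (@En.n l2844 (nat_lit 3068) (nat_lit 10) (nat_lit 12))
    (@En.n l2845 (nat_lit 7381) (nat_lit 10) (nat_lit 4))
    (@En.n l2192 (nat_lit 2855) (nat_lit 5) (nat_lit 11))
    (@En.n l2738 (nat_lit 7407) (nat_lit 13) (nat_lit 11))
    (@En.n l2846 (nat_lit 3650) (nat_lit 14) (nat_lit 5))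
    (@En.n l2847 (nat_lit 3480) (nat_lit 14) (nat_lit 12))
    (@En.n l17 (nat_lit 3651) (nat_lit 15) (nat_lit 2))))
  (@Cl.mk (nat_lit 0x2000c000a000a00070004000c000c0006000600040004000d0009000e0003) (nat_lit 0x162003300008190) (nat_lit 16) Lb.e (@T16.mk En
    (@En.n l8336 (nat_lit 3653) (nat_lit 15) (nat_lit 3))
    (@En.n l8337 (nat_lit 13318) (nat_lit 0) (nat_lit 14))
    (@En.n l8338 (nat_lit 3220) (nat_lit 2) (nat_lit 9))
    (@En.n l8017 (nat_lit 11851) (nat_lit 2) (nat_lit 13))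
    (@En.n l55 (nat_lit 3616) (nat_lit 12) (nat_lit 4))
    (@En.n l8016 (nat_lit 3660) (nat_lit 5) (nat_lit 4))
    (@En.n l8339 (nat_lit 2568) (nat_lit 10) (nat_lit 6))
    (@En.n l8340 (nat_lit 3661) (nat_lit 7) (nat_lit 6))
    (@En.n l8341 (nat_lit 3654) (nat_lit 9) (nat_lit 12))
    (@En.n l8342 (nat_lit 7248) (nat_lit 10) (nat_lit 12))
    (@En.n l8016 (nat_lit 3651) (nat_lit 10) (nat_lit 4))
    (@En.i (nat_lit 7539) (nat_lit 12) (nat_lit 7))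
    (@En.n l8343 (nat_lit 2862) (nat_lit 6) (nat_lit 10))
    (@En.n l8344 (nat_lit 4604) (nat_lit 14) (nat_lit 10))
    (@En.n l8345 (nat_lit 1336) (nat_lit 14) (nat_lit 12))
    (@En.n l17 (nat_lit 3652) (nat_lit 15) (nat_lit 2))))
  (@Cl.mk (nat_lit 0x30003000c000a000a00060004000c000c0006000600040004000d000d000a) (nat_lit 0x26200390000798) (nat_lit 16) Lb.e (@T16.mk En
    (@En.n l13881 (nat_lit 2915) (nat_lit 0) (nat_lit 10))
    (@En.n l13882 (nat_lit 3652) (nat_lit 3) (nat_lit 13))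
    (@En.n l13883 (nat_lit 11810) (nat_lit 2) (nat_lit 13))
    (@En.n l13884 (nat_lit 3615) (nat_lit 12) (nat_lit 4))
    (@En.n l13885 (nat_lit 3659) (nat_lit 4) (nat_lit 4))
    (@En.n l11401 (nat_lit 3545) (nat_lit 10) (nat_lit 6))
    (@En.n l13886 (nat_lit 3658) (nat_lit 6) (nat_lit 6))
    (@En.n l6914 (nat_lit 3655) (nat_lit 4) (nat_lit 12))
    (@En.n l13887 (nat_lit 7249) (nat_lit 9) (nat_lit 12))
    (@En.n l13888 (nat_lit 3561) (nat_lit 9) (nat_lit 4))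
    (@En.n l13889 (nat_lit 8672) (nat_lit 0) (nat_lit 6))
    (@En.n l13890 (nat_lit 2863) (nat_lit 6) (nat_lit 10))
    (@En.n l13891 (nat_lit 4603) (nat_lit 13) (nat_lit 10))
    (@En.n l13892 (nat_lit 2753) (nat_lit 14) (nat_lit 12))
    (@En.n l13893 (nat_lit 3657) (nat_lit 13) (nat_lit 3))
    (@En.n l13894 (nat_lit 3652) (nat_lit 0) (nat_lit 3))))
  (@Cl.mk (nat_lit 0x2000c000b000b00070004000c00050005000e00040002000d0009000e0003) (nat_lit 0x182002001008790) (nat_lit 16) Lb.e (@T16.mk En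
    (@En.n l18641 (nat_lit 3655) (nat_lit 11) (nat_lit 3))
    (@En.n l619 (nat_lit 13319) (nat_lit 0) (nat_lit 14))
    (@En.n l18642 (nat_lit 3222) (nat_lit 14) (nat_lit 9))
    (@En.i (nat_lit 11808) (nat_lit 2) (nat_lit 13))
    (@En.n l17 (nat_lit 3654) (nat_lit 4) (nat_lit 2))
    (@En.n l8242 (nat_lit 3652) (nat_lit 5) (nat_lit 4))
    (@En.i (nat_lit 3262) (nat_lit 1) (nat_lit 14))
    (@En.n l8232 (nat_lit 3540) (nat_lit 11) (nat_lit 5))
    (@En.n l4263 (nat_lit 2446) (nat_lit 8) (nat_lit 5))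
    (@En.n l18642 (nat_lit 5566) (nat_lit 10) (nat_lit 12))
    (@En.n l18643 (nat_lit 2858) (nat_lit 10) (nat_lit 4))
    (@En.n l1769 (nat_lit 7535) (nat_lit 6) (nat_lit 7))
    (@En.n l18644 (nat_lit 2857) (nat_lit 8) (nat_lit 11))
    (@En.n l644 (nat_lit 4602) (nat_lit 14) (nat_lit 11))
    (@En.n l18645 (nat_lit 1339) (nat_lit 10) (nat_lit 12))
    (@En.n l11 (nat_lit 3654) (nat_lit 15) (nat_lit 2))))
  (@Cl.mk (nat_lit 0x2000d000d000a00030003000c000b000b00060004000c00050005000e0004) (nat_lit 0x791003720080010) (nat_lit 16) Lb.e (@T16.mk En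
    (@En.n l5768 (nat_lit 3653) (nat_lit 4) (nat_lit 4))
    (@En.n l14204 (nat_lit 3260) (nat_lit 1) (nat_lit 14))
    (@En.n l27582 (nat_lit 3542) (nat_lit 11) (nat_lit 5))
    (@En.n l27583 (nat_lit 2400) (nat_lit 3) (nat_lit 5))
    (@En.n l27584 (nat_lit 5565) (nat_lit 9) (nat_lit 12))
    (@En.i (nat_lit 2869) (nat_lit 5) (nat_lit 4))
    (@En.n l14204 (nat_lit 4624) (nat_lit 6) (nat_lit 6))
    (@En.n l14222 (nat_lit 2861) (nat_lit 8) (nat_lit 11))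
    (@En.n l27585 (nat_lit 3437) (nat_lit 9) (nat_lit 11))
    (@En.n l1353 (nat_lit 3475) (nat_lit 10) (nat_lit 12))
    (@En.n l18 (nat_lit 3656) (nat_lit 13) (nat_lit 3))
    (@En.n l27586 (nat_lit 3654) (nat_lit 0) (nat_lit 3))
    (@En.n l2364 (nat_lit 2039) (nat_lit 0) (nat_lit 10))
    (@En.n l27587 (nat_lit 3654) (nat_lit 3) (nat_lit 13))
    (@En.i (nat_lit 11804) (nat_lit 2) (nat_lit 13))
    (@En.n l28 (nat_lit 3655) (nat_lit 15) (nat_lit 2))))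
  (@Cl.mk (nat_lit 0x2000b0003000c000b000b00050004000c00050005000e00040002000e000d) (nat_lit 0x105820020010068) (nat_lit 16) Lb.e (@T16.mk En
    (@En.n l396 (nat_lit 3655) (nat_lit 14) (nat_lit 13))
    (@En.i (nat_lit 12683) (nat_lit 1) (nat_lit 14))
    (@En.n l28 (nat_lit 3656) (nat_lit 2) (nat_lit 2))
    (@En.i (nat_lit 3657) (nat_lit 3) (nat_lit 4))
    (@En.n l14204 (nat_lit 3264) (nat_lit 1) (nat_lit 14))
    (@En.n l14202 (nat_lit 3546) (nat_lit 11) (nat_lit 5))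
    (@En.n l1865 (nat_lit 2398) (nat_lit 6) (nat_lit 5))
    (@En.n l698 (nat_lit 5567) (nat_lit 8) (nat_lit 12))
    (@En.i (nat_lit 4033) (nat_lit 8) (nat_lit 4))
    (@En.n l14204 (nat_lit 4621) (nat_lit 9) (nat_lit 5))
    (@En.n l14222 (nat_lit 4032) (nat_lit 11) (nat_lit 11))
    (@En.n l14223 (nat_lit 4616) (nat_lit 12) (nat_lit 11))
    (@En.n l17 (nat_lit 3390) (nat_lit 13) (nat_lit 12))
    (@En.i (nat_lit 3655) (nat_lit 10) (nat_lit 3))
    (@En.n l699 (nat_lit 2521) (nat_lit 12) (nat_lit 11))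
    (@En.n l50 (nat_lit 3656) (nat_lit 15) (nat_lit 2))))
  (@Cl.mk (nat_lit 0x2000b0003000c000a000a00050004000c000c0006000600040004000e000d) (nat_lit 0x1056500a3000068) (nat_lit 16) Lb.e (@T16.mk En
    (@En.n l5764 (nat_lit 3653) (nat_lit 2) (nat_lit 13))
    (@En.n l5765 (nat_lit 12685) (nat_lit 1) (nat_lit 14))
    (@En.n l5766 (nat_lit 3620) (nat_lit 12) (nat_lit 4))
    (@En.n l5760 (nat_lit 4573) (nat_lit 3) (nat_lit 4))
    (@En.n l5767 (nat_lit 3549) (nat_lit 10) (nat_lit 6))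
    (@En.n l936 (nat_lit 4584) (nat_lit 5) (nat_lit 6))
    (@En.n l55 (nat_lit 3656) (nat_lit 7) (nat_lit 12))
    (@En.n l698 (nat_lit 7250) (nat_lit 8) (nat_lit 12))
    (@En.i (nat_lit 3560) (nat_lit 8) (nat_lit 4))
    (@En.n l5768 (nat_lit 8674) (nat_lit 9) (nat_lit 5))
    (@En.n l5769 (nat_lit 3621) (nat_lit 6) (nat_lit 10))
    (@En.n l5770 (nat_lit 4607) (nat_lit 12) (nat_lit 10))
    (@En.n l17 (nat_lit 3380) (nat_lit 13) (nat_lit 12))
    (@En.n l5768 (nat_lit 3653) (nat_lit 14) (nat_lit 3))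
    (@En.n l699 (nat_lit 2526) (nat_lit 0) (nat_lit 11))
    (@En.n l50 (nat_lit 3657) (nat_lit 15) (nat_lit 2))))
  (@Cl.mk (nat_lit 0x30003000b000a0008000b00070005000d0006000500030008000d000d0009) (nat_lit 0x17030030004682) (nat_lit 16) Lb.e (@T16.mk En
    (@En.i (nat_lit 4567) (nat_lit 0) (nat_lit 9))
    (@En.n l2691 (nat_lit 3661) (nat_lit 3) (nat_lit 13))
    (@En.n l1096 (nat_lit 11831) (nat_lit 2) (nat_lit 13))
    (@En.n l27579 (nat_lit 4580) (nat_lit 3) (nat_lit 8))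
    (@En.n l19348 (nat_lit 3662) (nat_lit 4) (nat_lit 3))
    (@En.n l19461 (nat_lit 1847) (nat_lit 0) (nat_lit 5))
    (@En.n l25684 (nat_lit 2107) (nat_lit 6) (nat_lit 6))
    (@En.n l27580 (nat_lit 5538) (nat_lit 8) (nat_lit 13))
    (@En.n l11973 (nat_lit 4382) (nat_lit 8) (nat_lit 5))
    (@En.i (nat_lit 8731) (nat_lit 4) (nat_lit 7))
    (@En.n l18772 (nat_lit 3655) (nat_lit 7) (nat_lit 11))
    (@En.n l19342 (nat_lit 4572) (nat_lit 12) (nat_lit 8))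
    (@En.n l14328 (nat_lit 7285) (nat_lit 13) (nat_lit 10))
    (@En.n l10008 (nat_lit 2828) (nat_lit 9) (nat_lit 11))
    (@En.n l27581 (nat_lit 4584) (nat_lit 13) (nat_lit 3))
    (@En.n l5870 (nat_lit 3661) (nat_lit 0) (nat_lit 3))))
  (@Cl.mk (nat_lit 0x30003000c0009000c00060004000c0004000d000700040003000d000d000a) (nat_lit 0x56700004000794) (nat_lit 16) Lb.e (@T16.mk En
    (@En.n l17192 (nat_lit 4566) (nat_lit 0) (nat_lit 10))
    (@En.n l17193 (nat_lit 3660) (nat_lit 3) (nat_lit 13))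
    (@En.i (nat_lit 11795) (nat_lit 2) (nat_lit 13))
    (@En.n l72 (nat_lit 4570) (nat_lit 3) (nat_lit 3))
    (@En.n l27578 (nat_lit 3655) (nat_lit 0) (nat_lit 4))
    (@En.i (nat_lit 3662) (nat_lit 5) (nat_lit 7))
    (@En.n l61 (nat_lit 3263) (nat_lit 1) (nat_lit 13))
    (@En.n l4121 (nat_lit 4578) (nat_lit 7) (nat_lit 4))
    (@En.n l11228 (nat_lit 5562) (nat_lit 9) (nat_lit 12))
    (@En.n l28 (nat_lit 4412) (nat_lit 9) (nat_lit 4))
    (@En.n l13902 (nat_lit 10231) (nat_lit 0) (nat_lit 6))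
    (@En.i (nat_lit 4042) (nat_lit 6) (nat_lit 12))
    (@En.n l11141 (nat_lit 7366) (nat_lit 13) (nat_lit 9))
    (@En.n l3519 (nat_lit 4239) (nat_lit 14) (nat_lit 12))
    (@En.n l17199 (nat_lit 4573) (nat_lit 13) (nat_lit 3))
    (@En.n l12849 (nat_lit 3660) (nat_lit 0) (nat_lit 3))))
  (@Cl.mk (nat_lit 0x2000c0009000c00070004000c0004000d000700040003000d0009000e0003) (nat_lit 0x5640000400080c0) (nat_lit 16) Lb.e (@T16.mk En
    (@En.n l11319 (nat_lit 3659) (nat_lit 15) (nat_lit 3))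
    (@En.n l3 (nat_lit 13313) (nat_lit 0) (nat_lit 14))
    (@En.n l19814 (nat_lit 4355) (nat_lit 2) (nat_lit 9))
    (@En.n l4589 (nat_lit 11797) (nat_lit 2) (nat_lit 13))
    (@En.n l7 (nat_lit 4586) (nat_lit 4) (nat_lit 3))
    (@En.n l19815 (nat_lit 3654) (nat_lit 5) (nat_lit 4))
    (@En.i (nat_lit 3663) (nat_lit 6) (nat_lit 7))
    (@En.n l19816 (nat_lit 3261) (nat_lit 8) (nat_lit 13))
    (@En.n l19817 (nat_lit 4577) (nat_lit 8) (nat_lit 4))
    (@En.n l4851 (nat_lit 5563) (nat_lit 10) (nat_lit 12))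
    (@En.i (nat_lit 4411) (nat_lit 10) (nat_lit 4))
    (@En.n l19818 (nat_lit 7541) (nat_lit 12) (nat_lit 7))
    (@En.n l19819 (nat_lit 4049) (nat_lit 6) (nat_lit 12))
    (@En.n l3 (nat_lit 7373) (nat_lit 14) (nat_lit 9))
    (@En.n l19820 (nat_lit 4238) (nat_lit 14) (nat_lit 12))
    (@En.n l17 (nat_lit 3660) (nat_lit 15) (nat_lit 2))))
  (@Cl.mk (nat_lit 0x2000b000a0008000b00080005000d0006000500030008000d0008000e0003) (nat_lit 0x1703403000470c0) (nat_lit 16) Lb.e (@T16.mk En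
    (@En.n l1992 (nat_lit 3658) (nat_lit 15) (nat_lit 3))
    (@En.n l619 (nat_lit 13316) (nat_lit 0) (nat_lit 14))
    (@En.n l2576 (nat_lit 4360) (nat_lit 2) (nat_lit 8))
    (@En.n l2125 (nat_lit 11830) (nat_lit 4) (nat_lit 13))
    (@En.n l18945 (nat_lit 4579) (nat_lit 4) (nat_lit 8))
    (@En.n l18946 (nat_lit 3663) (nat_lit 5) (nat_lit 3))
    (@En.n l18947 (nat_lit 1849) (nat_lit 0) (nat_lit 5))
    (@En.n l4263 (nat_lit 2431) (nat_lit 7) (nat_lit 6))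
    (@En.n l18948 (nat_lit 7080) (nat_lit 9) (nat_lit 13))
    (@En.n l18949 (nat_lit 4417) (nat_lit 9) (nat_lit 5))
    (@En.i (nat_lit 9390) (nat_lit 11) (nat_lit 8))
    (@En.i (nat_lit 3654) (nat_lit 12) (nat_lit 11))
    (@En.n l18949 (nat_lit 4574) (nat_lit 13) (nat_lit 8))
    (@En.n l644 (nat_lit 7286) (nat_lit 14) (nat_lit 10))
    (@En.i (nat_lit 2825) (nat_lit 9) (nat_lit 11))
    (@En.n l11 (nat_lit 3661) (nat_lit 15) (nat_lit 2))))
  (@Cl.mk (nat_lit 0x30003000b00090008000c00070005000d0004000700030008000d000d0009) (nat_lit 0x37080030004682) (nat_lit 16) Lb.e (@T16.mk En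
    (@En.n l17192 (nat_lit 3151) (nat_lit 0) (nat_lit 9))
    (@En.n l17193 (nat_lit 3663) (nat_lit 3) (nat_lit 13))
    (@En.n l28656 (nat_lit 11796) (nat_lit 2) (nat_lit 13))
    (@En.n l40353 (nat_lit 4483) (nat_lit 3) (nat_lit 8))
    (@En.n l26586 (nat_lit 3658) (nat_lit 4) (nat_lit 3))
    (@En.n l40354 (nat_lit 2075) (nat_lit 0) (nat_lit 7))
    (@En.n l28 (nat_lit 4580) (nat_lit 6) (nat_lit 4))
    (@En.n l17196 (nat_lit 5534) (nat_lit 8) (nat_lit 13))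
    (@En.n l28 (nat_lit 4388) (nat_lit 8) (nat_lit 5))
    (@En.n l15557 (nat_lit 9392) (nat_lit 4) (nat_lit 7))
    (@En.n l17 (nat_lit 3659) (nat_lit 11) (nat_lit 12))
    (@En.i (nat_lit 4570) (nat_lit 12) (nat_lit 8))
    (@En.n l28656 (nat_lit 7201) (nat_lit 13) (nat_lit 9))
    (@En.n l3519 (nat_lit 3409) (nat_lit 9) (nat_lit 11))
    (@En.n l17199 (nat_lit 4585) (nat_lit 13) (nat_lit 3))
    (@En.n l12849 (nat_lit 3663) (nat_lit 0) (nat_lit 3))))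
  (@Cl.mk (nat_lit 0x2000b00090008000c00080005000d0004000700030008000d0008000e0003) (nat_lit 0x1705303000471c0) (nat_lit 16) Lb.e (@T16.mk En
    (@En.n l11319 (nat_lit 3662) (nat_lit 15) (nat_lit 3))
    (@En.n l3 (nat_lit 13314) (nat_lit 0) (nat_lit 14))
    (@En.i (nat_lit 3156) (nat_lit 2) (nat_lit 8))
    (@En.n l4592 (nat_lit 11826) (nat_lit 4) (nat_lit 13))
    (@En.n l34717 (nat_lit 4487) (nat_lit 4) (nat_lit 8))
    (@En.n l34718 (nat_lit 3661) (nat_lit 5) (nat_lit 3))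
    (@En.n l1604 (nat_lit 2077) (nat_lit 0) (nat_lit 7))
    (@En.n l1895 (nat_lit 4579) (nat_lit 7) (nat_lit 4))
    (@En.n l11028 (nat_lit 5537) (nat_lit 9) (nat_lit 13))
    (@En.i (nat_lit 4414) (nat_lit 9) (nat_lit 5))
    (@En.n l34719 (nat_lit 9391) (nat_lit 11) (nat_lit 8))
    (@En.n l8 (nat_lit 3660) (nat_lit 12) (nat_lit 12))
    (@En.i (nat_lit 4586) (nat_lit 13) (nat_lit 8))
    (@En.n l4592 (nat_lit 7205) (nat_lit 14) (nat_lit 9))
    (@En.n l3851 (nat_lit 2827) (nat_lit 9) (nat_lit 11))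
    (@En.n l17 (nat_lit 3663) (nat_lit 15) (nat_lit 2))))
noncomputable def a229 : T16 Cl := @T16.mk Cl
  (@Cl.mk (nat_lit 0x200080008000400090009000e000a000200080008000700070006000e000c) (nat_lit 0x520611205600031) (nat_lit 16) Lb.e (@T16.mk En
    (@En.n l700 (nat_lit 2037) (nat_lit 9) (nat_lit 12))
    (@En.n l763 (nat_lit 4908) (nat_lit 10) (nat_lit 14))
    (@En.n l3948 (nat_lit 3241) (nat_lit 2) (nat_lit 6))
    (@En.n l55 (nat_lit 4143) (nat_lit 3) (nat_lit 7))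
    (@En.i (nat_lit 6997) (nat_lit 4) (nat_lit 7))
    (@En.n l3949 (nat_lit 3023) (nat_lit 8) (nat_lit 8))
    (@En.n l3950 (nat_lit 7651) (nat_lit 6) (nat_lit 8))
    (@En.n l50 (nat_lit 3664) (nat_lit 7) (nat_lit 2))
    (@En.n l217 (nat_lit 2917) (nat_lit 9) (nat_lit 10))
    (@En.n l1546 (nat_lit 2163) (nat_lit 10) (nat_lit 14))
    (@En.n l3951 (nat_lit 3024) (nat_lit 2) (nat_lit 9))
    (@En.n l2339 (nat_lit 5715) (nat_lit 3) (nat_lit 9))
    (@En.n l117 (nat_lit 3955) (nat_lit 4) (nat_lit 4))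
    (@En.n l3952 (nat_lit 2036) (nat_lit 14) (nat_lit 8))
    (@En.i (nat_lit 3953) (nat_lit 6) (nat_lit 8))
    (@En.n l3 (nat_lit 3664) (nat_lit 15) (nat_lit 2))))
  (@Cl.mk (nat_lit 0x20008000e000d0002000900030008000e00080002000e00070002000e0008) (nat_lit 0x4560206a2090011) (nat_lit 16) Lb.e (@T16.mk En
    (@En.i (nat_lit 2036) (nat_lit 4) (nat_lit 8))
    (@En.i (nat_lit 2451) (nat_lit 1) (nat_lit 14))
    (@En.n l17 (nat_lit 3665) (nat_lit 2) (nat_lit 2))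
    (@En.n l4138 (nat_lit 3024) (nat_lit 14) (nat_lit 7))
    (@En.n l1266 (nat_lit 1268) (nat_lit 1) (nat_lit 14))
    (@En.n l50 (nat_lit 3665) (nat_lit 5) (nat_lit 2))
    (@En.n l1267 (nat_lit 1899) (nat_lit 6) (nat_lit 8))
    (@En.n l4139 (nat_lit 3393) (nat_lit 12) (nat_lit 14))
    (@En.i (nat_lit 5950) (nat_lit 13) (nat_lit 8))
    (@En.n l3268 (nat_lit 3666) (nat_lit 9) (nat_lit 3))
    (@En.i (nat_lit 1872) (nat_lit 0) (nat_lit 9))
    (@En.n l11 (nat_lit 3665) (nat_lit 11) (nat_lit 2))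
    (@En.n l3262 (nat_lit 3666) (nat_lit 13) (nat_lit 13))
    (@En.i (nat_lit 4909) (nat_lit 1) (nat_lit 14))
    (@En.n l770 (nat_lit 3492) (nat_lit 12) (nat_lit 8))
    (@En.n l3 (nat_lit 3665) (nat_lit 15) (nat_lit 2))))
  (@Cl.mk (nat_lit 0x20008000d000d0008000300030008000e00080002000e00080002000e0008) (nat_lit 0x457200682045016) (nat_lit 16) Lb.e (@T16.mk En
    (@En.n l2593 (nat_lit 2030) (nat_lit 14) (nat_lit 8))
    (@En.n l8316 (nat_lit 2131) (nat_lit 1) (nat_lit 14))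
    (@En.n l3 (nat_lit 3666) (nat_lit 2) (nat_lit 2))
    (@En.n l387 (nat_lit 3025) (nat_lit 3) (nat_lit 8))
    (@En.n l8317 (nat_lit 1269) (nat_lit 1) (nat_lit 14))
    (@En.n l18 (nat_lit 3666) (nat_lit 5) (nat_lit 2))
    (@En.n l4638 (nat_lit 1893) (nat_lit 6) (nat_lit 8))
    (@En.n l8316 (nat_lit 3381) (nat_lit 8) (nat_lit 14))
    (@En.n l8089 (nat_lit 9924) (nat_lit 5) (nat_lit 8))
    (@En.n l973 (nat_lit 3665) (nat_lit 9) (nat_lit 3))
    (@En.n l11 (nat_lit 3667) (nat_lit 10) (nat_lit 3))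
    (@En.n l8200 (nat_lit 1651) (nat_lit 0) (nat_lit 8))
    (@En.n l55 (nat_lit 3667) (nat_lit 13) (nat_lit 13))
    (@En.n l8200 (nat_lit 12613) (nat_lit 14) (nat_lit 13))
    (@En.i (nat_lit 3491) (nat_lit 12) (nat_lit 8))
    (@En.n l8 (nat_lit 3666) (nat_lit 15) (nat_lit 2))))
  (@Cl.mk (nat_lit 0x20008000d0007000e000300020008000e00080002000e00090002000e0008) (nat_lit 0x460700632066016) (nat_lit 16) Lb.e (@T16.mk En
    (@En.n l2593 (nat_lit 2033) (nat_lit 14) (nat_lit 8))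
    (@En.i (nat_lit 2450) (nat_lit 1) (nat_lit 14))
    (@En.n l3 (nat_lit 3667) (nat_lit 2) (nat_lit 2))
    (@En.n l387 (nat_lit 2984) (nat_lit 3) (nat_lit 9))
    (@En.i (nat_lit 1350) (nat_lit 1) (nat_lit 14))
    (@En.n l18 (nat_lit 3667) (nat_lit 5) (nat_lit 2))
    (@En.i (nat_lit 1892) (nat_lit 6) (nat_lit 8))
    (@En.n l564 (nat_lit 3391) (nat_lit 8) (nat_lit 14))
    (@En.n l15969 (nat_lit 9926) (nat_lit 5) (nat_lit 8))
    (@En.n l28 (nat_lit 3667) (nat_lit 9) (nat_lit 2))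
    (@En.i (nat_lit 3666) (nat_lit 10) (nat_lit 3))
    (@En.n l15969 (nat_lit 12994) (nat_lit 0) (nat_lit 14))
    (@En.i (nat_lit 1652) (nat_lit 2) (nat_lit 7))
    (@En.n l15969 (nat_lit 12614) (nat_lit 14) (nat_lit 13))
    (@En.i (nat_lit 3498) (nat_lit 12) (nat_lit 8))
    (@En.n l8 (nat_lit 3667) (nat_lit 15) (nat_lit 2))))
  (@Cl.mk (nat_lit 0x20007000d000d0008000300030008000b000e0009000200080005000e0008) (nat_lit 0x572005093050b6) (nat_lit 16) Lb.e (@T16.mk En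
    (@En.n l20431 (nat_lit 3671) (nat_lit 12) (nat_lit 8))
    (@En.n l24155 (nat_lit 3100) (nat_lit 1) (nat_lit 14))
    (@En.n l17 (nat_lit 3677) (nat_lit 14) (nat_lit 5))
    (@En.i (nat_lit 6804) (nat_lit 3) (nat_lit 8))
    (@En.n l3 (nat_lit 3668) (nat_lit 4) (nat_lit 2))
    (@En.n l25819 (nat_lit 4155) (nat_lit 5) (nat_lit 9))
    (@En.n l3384 (nat_lit 3666) (nat_lit 7) (nat_lit 14))
    (@En.i (nat_lit 13693) (nat_lit 7) (nat_lit 11))
    (@En.i (nat_lit 11416) (nat_lit 3) (nat_lit 8))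
    (@En.n l2593 (nat_lit 3670) (nat_lit 4) (nat_lit 3))
    (@En.n l8769 (nat_lit 3672) (nat_lit 10) (nat_lit 3))
    (@En.n l617 (nat_lit 1861) (nat_lit 6) (nat_lit 8))
    (@En.n l25683 (nat_lit 3672) (nat_lit 13) (nat_lit 13))
    (@En.n l8769 (nat_lit 5345) (nat_lit 9) (nat_lit 13))
    (@En.n l13103 (nat_lit 7232) (nat_lit 3) (nat_lit 7))
    (@En.n l28 (nat_lit 3668) (nat_lit 15) (nat_lit 2))))
  (@Cl.mk (nat_lit 0x20008000300080008000b000e000a000200080005000800080006000e000d) (nat_lit 0x40560a3060040b6) (nat_lit 16) Lb.e (@T16.mk En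
    (@En.n l5226 (nat_lit 3671) (nat_lit 9) (nat_lit 13))
    (@En.n l2544 (nat_lit 4910) (nat_lit 10) (nat_lit 14))
    (@En.n l5227 (nat_lit 2949) (nat_lit 2) (nat_lit 6))
    (@En.n l5228 (nat_lit 4165) (nat_lit 3) (nat_lit 8))
    (@En.n l5227 (nat_lit 3722) (nat_lit 4) (nat_lit 8))
    (@En.n l725 (nat_lit 5379) (nat_lit 14) (nat_lit 5))
    (@En.i (nat_lit 2543) (nat_lit 6) (nat_lit 8))
    (@En.n l3 (nat_lit 3669) (nat_lit 7) (nat_lit 2))
    (@En.n l5229 (nat_lit 4154) (nat_lit 9) (nat_lit 10))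
    (@En.n l862 (nat_lit 2036) (nat_lit 10) (nat_lit 14))
    (@En.n l11 (nat_lit 3670) (nat_lit 2) (nat_lit 11))
    (@En.n l55 (nat_lit 3670) (nat_lit 3) (nat_lit 8))
    (@En.i (nat_lit 10743) (nat_lit 4) (nat_lit 8))
    (@En.n l5230 (nat_lit 3671) (nat_lit 5) (nat_lit 3))
    (@En.n l5231 (nat_lit 1777) (nat_lit 0) (nat_lit 8))
    (@En.n l50 (nat_lit 3669) (nat_lit 15) (nat_lit 2))))
  (@Cl.mk (nat_lit 0x200070005000e000800020007000e000d0002000900030008000b000e0009) (nat_lit 0xa1003604059b3) (nat_lit 16) Lb.e (@T16.mk En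
    (@En.n l7432 (nat_lit 4159) (nat_lit 5) (nat_lit 9))
    (@En.n l862 (nat_lit 3665) (nat_lit 7) (nat_lit 14))
    (@En.i (nat_lit 13695) (nat_lit 7) (nat_lit 11))
    (@En.i (nat_lit 10742) (nat_lit 3) (nat_lit 8))
    (@En.n l1353 (nat_lit 3668) (nat_lit 9) (nat_lit 3))
    (@En.i (nat_lit 1782) (nat_lit 5) (nat_lit 9))
    (@En.n l50 (nat_lit 3670) (nat_lit 6) (nat_lit 2))
    (@En.n l564 (nat_lit 3668) (nat_lit 13) (nat_lit 13))
    (@En.n l2544 (nat_lit 4912) (nat_lit 9) (nat_lit 14))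
    (@En.i (nat_lit 7234) (nat_lit 2) (nat_lit 7))
    (@En.n l28 (nat_lit 3670) (nat_lit 10) (nat_lit 2))
    (@En.i (nat_lit 3669) (nat_lit 4) (nat_lit 8))
    (@En.n l1578 (nat_lit 3101) (nat_lit 13) (nat_lit 14))
    (@En.n l725 (nat_lit 5381) (nat_lit 14) (nat_lit 5))
    (@En.i (nat_lit 2542) (nat_lit 3) (nat_lit 7))
    (@En.n l3 (nat_lit 3670) (nat_lit 15) (nat_lit 2))))
  (@Cl.mk (nat_lit 0x200090005000800080006000d000d00070003000300080008000b000e000a) (nat_lit 0x6055056000561a3) (nat_lit 16) Lb.e (@T16.mk En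
    (@En.n l5404 (nat_lit 3676) (nat_lit 10) (nat_lit 10))
    (@En.n l242 (nat_lit 2030) (nat_lit 4) (nat_lit 14))
    (@En.n l12138 (nat_lit 3668) (nat_lit 7) (nat_lit 11))
    (@En.n l12139 (nat_lit 3668) (nat_lit 8) (nat_lit 8))
    (@En.n l12140 (nat_lit 11418) (nat_lit 4) (nat_lit 8))
    (@En.n l12141 (nat_lit 3669) (nat_lit 13) (nat_lit 3))
    (@En.n l238 (nat_lit 3673) (nat_lit 0) (nat_lit 3))
    (@En.n l55 (nat_lit 1859) (nat_lit 0) (nat_lit 7))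
    (@En.n l239 (nat_lit 3673) (nat_lit 3) (nat_lit 13))
    (@En.n l12142 (nat_lit 1926) (nat_lit 10) (nat_lit 13))
    (@En.n l1218 (nat_lit 2945) (nat_lit 3) (nat_lit 6))
    (@En.n l217 (nat_lit 3674) (nat_lit 12) (nat_lit 8))
    (@En.i (nat_lit 3720) (nat_lit 13) (nat_lit 8))
    (@En.n l8511 (nat_lit 3675) (nat_lit 14) (nat_lit 5))
    (@En.n l12140 (nat_lit 6784) (nat_lit 8) (nat_lit 9))
    (@En.n l3 (nat_lit 3671) (nat_lit 15) (nat_lit 2))))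
  (@Cl.mk (nat_lit 0x20007000d0007000e000300020008000b000e0009000200090005000e0008) (nat_lit 0x60a005043060b0) (nat_lit 16) Lb.e (@T16.mk En
    (@En.n l7277 (nat_lit 3673) (nat_lit 6) (nat_lit 8))
    (@En.n l24855 (nat_lit 3976) (nat_lit 1) (nat_lit 14))
    (@En.n l890 (nat_lit 5378) (nat_lit 14) (nat_lit 5))
    (@En.n l24856 (nat_lit 6870) (nat_lit 3) (nat_lit 9))
    (@En.n l11 (nat_lit 3672) (nat_lit 4) (nat_lit 2))
    (@En.n l13259 (nat_lit 4158) (nat_lit 5) (nat_lit 9))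
    (@En.n l7275 (nat_lit 3667) (nat_lit 7) (nat_lit 14))
    (@En.i (nat_lit 13694) (nat_lit 7) (nat_lit 11))
    (@En.n l6103 (nat_lit 11486) (nat_lit 3) (nat_lit 8))
    (@En.n l3 (nat_lit 3672) (nat_lit 9) (nat_lit 2))
    (@En.n l13260 (nat_lit 3668) (nat_lit 10) (nat_lit 3))
    (@En.n l3486 (nat_lit 12917) (nat_lit 0) (nat_lit 14))
    (@En.i (nat_lit 4632) (nat_lit 2) (nat_lit 7))
    (@En.n l3486 (nat_lit 6646) (nat_lit 9) (nat_lit 13))
    (@En.n l7275 (nat_lit 7238) (nat_lit 4) (nat_lit 7))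
    (@En.n l18 (nat_lit 3672) (nat_lit 15) (nat_lit 2))))
  (@Cl.mk (nat_lit 0x200080008000b000e000a0002000a0005000800080006000d0006000e0003) (nat_lit 0x561530706405090) (nat_lit 16) Lb.e (@T16.mk En
    (@En.n l58 (nat_lit 3671) (nat_lit 6) (nat_lit 3))
    (@En.n l1267 (nat_lit 12913) (nat_lit 0) (nat_lit 14))
    (@En.n l771 (nat_lit 4631) (nat_lit 2) (nat_lit 6))
    (@En.n l12051 (nat_lit 1924) (nat_lit 10) (nat_lit 13))
    (@En.n l217 (nat_lit 2946) (nat_lit 4) (nat_lit 6))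
    (@En.n l644 (nat_lit 4164) (nat_lit 12) (nat_lit 8))
    (@En.n l3426 (nat_lit 3721) (nat_lit 6) (nat_lit 8))
    (@En.i (nat_lit 5375) (nat_lit 14) (nat_lit 5))
    (@En.n l13213 (nat_lit 6859) (nat_lit 9) (nat_lit 10))
    (@En.n l17 (nat_lit 3673) (nat_lit 9) (nat_lit 2))
    (@En.n l13206 (nat_lit 4156) (nat_lit 11) (nat_lit 10))
    (@En.i (nat_lit 2033) (nat_lit 4) (nat_lit 14))
    (@En.n l16051 (nat_lit 3672) (nat_lit 7) (nat_lit 11))
    (@En.n l16052 (nat_lit 3672) (nat_lit 8) (nat_lit 8))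
    (@En.n l3506 (nat_lit 11484) (nat_lit 4) (nat_lit 8))
    (@En.n l28 (nat_lit 3673) (nat_lit 15) (nat_lit 2))))
  (@Cl.mk (nat_lit 0x2000a000500080005000d000d000600030003000e00080002000b000e000b) (nat_lit 0x704035000a60254) (nat_lit 16) Lb.e (@T16.mk En
    (@En.i (nat_lit 4157) (nat_lit 13) (nat_lit 11))
    (@En.n l242 (nat_lit 2028) (nat_lit 4) (nat_lit 14))
    (@En.n l1738 (nat_lit 3671) (nat_lit 2) (nat_lit 11))
    (@En.n l18 (nat_lit 3674) (nat_lit 3) (nat_lit 2))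
    (@En.i (nat_lit 3671) (nat_lit 4) (nat_lit 8))
    (@En.n l564 (nat_lit 12297) (nat_lit 1) (nat_lit 14))
    (@En.n l237 (nat_lit 4165) (nat_lit 13) (nat_lit 3))
    (@En.n l238 (nat_lit 4164) (nat_lit 7) (nat_lit 3))
    (@En.n l55 (nat_lit 1864) (nat_lit 0) (nat_lit 6))
    (@En.n l239 (nat_lit 4164) (nat_lit 10) (nat_lit 13))
    (@En.n l242 (nat_lit 5344) (nat_lit 11) (nat_lit 13))
    (@En.n l916 (nat_lit 7337) (nat_lit 7) (nat_lit 5))
    (@En.i (nat_lit 3284) (nat_lit 13) (nat_lit 8))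
    (@En.i (nat_lit 5376) (nat_lit 14) (nat_lit 5))
    (@En.n l1442 (nat_lit 6783) (nat_lit 11) (nat_lit 10))
    (@En.n l3 (nat_lit 3674) (nat_lit 15) (nat_lit 2))))
  (@Cl.mk (nat_lit 0x20005000800080005000d000d000a0003000300080008000b0006000e000b) (nat_lit 0x40453005600b4) (nat_lit 16) Lb.e (@T16.mk En
    (@En.n l20430 (nat_lit 5139) (nat_lit 9) (nat_lit 11))
    (@En.n l20431 (nat_lit 3671) (nat_lit 1) (nat_lit 14))
    (@En.n l20081 (nat_lit 8935) (nat_lit 2) (nat_lit 6))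
    (@En.n l11 (nat_lit 3677) (nat_lit 3) (nat_lit 11))
    (@En.n l55 (nat_lit 3677) (nat_lit 4) (nat_lit 8))
    (@En.i (nat_lit 11415) (nat_lit 5) (nat_lit 8))
    (@En.n l2593 (nat_lit 5379) (nat_lit 6) (nat_lit 3))
    (@En.n l964 (nat_lit 5375) (nat_lit 7) (nat_lit 3))
    (@En.n l2348 (nat_lit 5382) (nat_lit 9) (nat_lit 10))
    (@En.n l20432 (nat_lit 5375) (nat_lit 10) (nat_lit 13))
    (@En.n l2544 (nat_lit 1920) (nat_lit 11) (nat_lit 13))
    (@En.n l2611 (nat_lit 7229) (nat_lit 3) (nat_lit 5))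
    (@En.n l20433 (nat_lit 5376) (nat_lit 13) (nat_lit 8))
    (@En.n l20434 (nat_lit 4127) (nat_lit 10) (nat_lit 8))
    (@En.n l781 (nat_lit 1263) (nat_lit 13) (nat_lit 5))
    (@En.n l3 (nat_lit 3675) (nat_lit 15) (nat_lit 2))))
  (@Cl.mk (nat_lit 0x3000300090009000c000a000a000800040007000700060006000d000d0008) (nat_lit 0x66024100000574) (nat_lit 16) Lb.e (@T16.mk En
    (@En.n l13608 (nat_lit 1862) (nat_lit 0) (nat_lit 8))
    (@En.n l61 (nat_lit 4156) (nat_lit 3) (nat_lit 13))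
    (@En.n l13609 (nat_lit 5049) (nat_lit 2) (nat_lit 13))
    (@En.n l13610 (nat_lit 3671) (nat_lit 10) (nat_lit 6))
    (@En.n l13611 (nat_lit 1603) (nat_lit 4) (nat_lit 6))
    (@En.n l13612 (nat_lit 4157) (nat_lit 9) (nat_lit 7))
    (@En.n l13613 (nat_lit 3270) (nat_lit 11) (nat_lit 7))
    (@En.n l13613 (nat_lit 5139) (nat_lit 7) (nat_lit 4))
    (@En.n l13614 (nat_lit 300) (nat_lit 0) (nat_lit 8))
    (@En.n l13615 (nat_lit 4147) (nat_lit 6) (nat_lit 10))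
    (@En.n l13616 (nat_lit 337) (nat_lit 11) (nat_lit 10))
    (@En.n l13617 (nat_lit 4155) (nat_lit 6) (nat_lit 12))
    (@En.n l13618 (nat_lit 4155) (nat_lit 7) (nat_lit 9))
    (@En.n l13619 (nat_lit 10518) (nat_lit 14) (nat_lit 9))
    (@En.n l3519 (nat_lit 4154) (nat_lit 13) (nat_lit 3))
    (@En.n l18 (nat_lit 4156) (nat_lit 0) (nat_lit 3))))
  (@Cl.mk (nat_lit 0x20005000e000800020006000d000d000b000300030008000b0005000e000a) (nat_lit 0xb10052300590a3) (nat_lit 16) Lb.e (@T16.mk En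
    (@En.n l6108 (nat_lit 5142) (nat_lit 4) (nat_lit 10))
    (@En.i (nat_lit 3668) (nat_lit 6) (nat_lit 14))
    (@En.i (nat_lit 8939) (nat_lit 6) (nat_lit 5))
    (@En.i (nat_lit 13696) (nat_lit 7) (nat_lit 11))
    (@En.i (nat_lit 11412) (nat_lit 4) (nat_lit 8))
    (@En.n l2593 (nat_lit 5381) (nat_lit 5) (nat_lit 3))
    (@En.n l2039 (nat_lit 5378) (nat_lit 6) (nat_lit 3))
    (@En.n l2348 (nat_lit 5384) (nat_lit 8) (nat_lit 11))
    (@En.n l18530 (nat_lit 5378) (nat_lit 9) (nat_lit 13))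
    (@En.n l2544 (nat_lit 1923) (nat_lit 10) (nat_lit 13))
    (@En.i (nat_lit 7225) (nat_lit 3) (nat_lit 6))
    (@En.n l28 (nat_lit 3677) (nat_lit 11) (nat_lit 2))
    (@En.i (nat_lit 3675) (nat_lit 13) (nat_lit 8))
    (@En.n l17759 (nat_lit 5814) (nat_lit 1) (nat_lit 14))
    (@En.n l781 (nat_lit 1264) (nat_lit 2) (nat_lit 5))
    (@En.n l3 (nat_lit 3677) (nat_lit 15) (nat_lit 2))))
  (@Cl.mk (nat_lit 0x2000d0007000600030006000d000d000c0003000300090004000a000e000a) (nat_lit 0x200009a20040741) (nat_lit 16) Lb.e (@T16.mk En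
    (@En.n l9649 (nat_lit 2402) (nat_lit 10) (nat_lit 10))
    (@En.i (nat_lit 4718) (nat_lit 1) (nat_lit 14))
    (@En.n l8820 (nat_lit 2454) (nat_lit 2) (nat_lit 10))
    (@En.n l403 (nat_lit 2238) (nat_lit 3) (nat_lit 4))
    (@En.n l7406 (nat_lit 4448) (nat_lit 4) (nat_lit 9))
    (@En.n l18 (nat_lit 3679) (nat_lit 13) (nat_lit 3))
    (@En.n l9650 (nat_lit 2426) (nat_lit 0) (nat_lit 3))
    (@En.n l6444 (nat_lit 3680) (nat_lit 0) (nat_lit 12))
    (@En.n l9651 (nat_lit 2426) (nat_lit 3) (nat_lit 13))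
    (@En.n l8820 (nat_lit 12328) (nat_lit 10) (nat_lit 13))
    (@En.n l810 (nat_lit 3685) (nat_lit 12) (nat_lit 6))
    (@En.n l28 (nat_lit 2203) (nat_lit 11) (nat_lit 3))
    (@En.n l9652 (nat_lit 3565) (nat_lit 0) (nat_lit 6))
    (@En.n l2682 (nat_lit 4609) (nat_lit 14) (nat_lit 7))
    (@En.n l9653 (nat_lit 2402) (nat_lit 8) (nat_lit 13))
    (@En.n l3 (nat_lit 3678) (nat_lit 15) (nat_lit 2))))
  (@Cl.mk (nat_lit 0x2000d000300090003000a000e000a0002000d0007000600030006000e000d) (nat_lit 0x2030741020000aa) (nat_lit 16) Lb.e (@T16.mk En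
    (@En.n l396 (nat_lit 3678) (nat_lit 9) (nat_lit 13))
    (@En.n l5976 (nat_lit 12631) (nat_lit 1) (nat_lit 14))
    (@En.n l810 (nat_lit 3684) (nat_lit 12) (nat_lit 6))
    (@En.n l28 (nat_lit 2200) (nat_lit 3) (nat_lit 3))
    (@En.n l590 (nat_lit 3618) (nat_lit 0) (nat_lit 6))
    (@En.n l2682 (nat_lit 4613) (nat_lit 14) (nat_lit 7))
    (@En.n l5013 (nat_lit 2397) (nat_lit 7) (nat_lit 13))
    (@En.n l3 (nat_lit 3679) (nat_lit 7) (nat_lit 2))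
    (@En.n l5977 (nat_lit 2397) (nat_lit 9) (nat_lit 10))
    (@En.i (nat_lit 4720) (nat_lit 10) (nat_lit 14))
    (@En.i (nat_lit 2455) (nat_lit 11) (nat_lit 10))
    (@En.n l2364 (nat_lit 3680) (nat_lit 11) (nat_lit 3))
    (@En.i (nat_lit 5220) (nat_lit 0) (nat_lit 9))
    (@En.i (nat_lit 3678) (nat_lit 5) (nat_lit 3))
    (@En.n l1391 (nat_lit 578) (nat_lit 0) (nat_lit 13))
    (@En.n l50 (nat_lit 3679) (nat_lit 15) (nat_lit 2))))
noncomputable def a230 : T16 Cl := @T16.mk Cl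
  (@Cl.mk (nat_lit 0x2000d000800040003000a000e000a0002000d0008000600030006000e000c) (nat_lit 0x1400751014000c1) (nat_lit 16) Lb.e (@T16.mk En
    (@En.n l217 (nat_lit 2238) (nat_lit 9) (nat_lit 12))
    (@En.n l2045 (nat_lit 12632) (nat_lit 1) (nat_lit 14))
    (@En.n l810 (nat_lit 3688) (nat_lit 12) (nat_lit 6))
    (@En.n l28 (nat_lit 2205) (nat_lit 11) (nat_lit 3))
    (@En.n l2046 (nat_lit 3619) (nat_lit 0) (nat_lit 6))
    (@En.n l2047 (nat_lit 7644) (nat_lit 14) (nat_lit 8))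
    (@En.n l2048 (nat_lit 2248) (nat_lit 7) (nat_lit 13))
    (@En.n l3 (nat_lit 3680) (nat_lit 7) (nat_lit 2))
    (@En.n l2049 (nat_lit 2248) (nat_lit 9) (nat_lit 10))
    (@En.i (nat_lit 4723) (nat_lit 10) (nat_lit 14))
    (@En.n l2050 (nat_lit 6759) (nat_lit 11) (nat_lit 10))
    (@En.n l763 (nat_lit 3679) (nat_lit 11) (nat_lit 3))
    (@En.i (nat_lit 2244) (nat_lit 0) (nat_lit 4))
    (@En.n l1545 (nat_lit 2449) (nat_lit 14) (nat_lit 8))
    (@En.n l102 (nat_lit 572) (nat_lit 7) (nat_lit 13))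
    (@En.n l50 (nat_lit 3680) (nat_lit 15) (nat_lit 2))))
  (@Cl.mk (nat_lit 0x20007000600060005000e000d0002000d000300090003000a000a000e000b) (nat_lit 0xa9020500051) (nat_lit 16) Lb.e (@T16.mk En
    (@En.n l2213 (nat_lit 2651) (nat_lit 8) (nat_lit 11))
    (@En.n l1718 (nat_lit 3679) (nat_lit 9) (nat_lit 14))
    (@En.n l1353 (nat_lit 4771) (nat_lit 2) (nat_lit 10))
    (@En.n l6392 (nat_lit 4815) (nat_lit 11) (nat_lit 10))
    (@En.i (nat_lit 3683) (nat_lit 4) (nat_lit 3))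
    (@En.n l6393 (nat_lit 4776) (nat_lit 5) (nat_lit 9))
    (@En.n l2572 (nat_lit 3682) (nat_lit 6) (nat_lit 3))
    (@En.i (nat_lit 626) (nat_lit 0) (nat_lit 13))
    (@En.n l28 (nat_lit 3681) (nat_lit 8) (nat_lit 2))
    (@En.n l2573 (nat_lit 3682) (nat_lit 10) (nat_lit 13))
    (@En.n l6394 (nat_lit 11633) (nat_lit 11) (nat_lit 14))
    (@En.n l2221 (nat_lit 3686) (nat_lit 2) (nat_lit 5))
    (@En.n l6395 (nat_lit 3725) (nat_lit 13) (nat_lit 6))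
    (@En.i (nat_lit 4016) (nat_lit 14) (nat_lit 6))
    (@En.n l6396 (nat_lit 7365) (nat_lit 5) (nat_lit 7))
    (@En.n l3 (nat_lit 3681) (nat_lit 15) (nat_lit 2))))
  (@Cl.mk (nat_lit 0x20007000600060005000d000d000c0003000300090004000a000a000e000b) (nat_lit 0x85500507151) (nat_lit 16) Lb.e (@T16.mk En
    (@En.n l11132 (nat_lit 2645) (nat_lit 9) (nat_lit 11))
    (@En.n l11133 (nat_lit 3678) (nat_lit 1) (nat_lit 14))
    (@En.n l11134 (nat_lit 2647) (nat_lit 6) (nat_lit 10))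
    (@En.n l11135 (nat_lit 4816) (nat_lit 3) (nat_lit 10))
    (@En.n l11136 (nat_lit 3692) (nat_lit 4) (nat_lit 4))
    (@En.n l3519 (nat_lit 3956) (nat_lit 5) (nat_lit 9))
    (@En.n l7663 (nat_lit 3681) (nat_lit 6) (nat_lit 3))
    (@En.n l11137 (nat_lit 3958) (nat_lit 7) (nat_lit 3))
    (@En.n l7665 (nat_lit 3683) (nat_lit 9) (nat_lit 12))
    (@En.n l11138 (nat_lit 3958) (nat_lit 10) (nat_lit 13))
    (@En.n l11139 (nat_lit 8058) (nat_lit 11) (nat_lit 13))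
    (@En.n l72 (nat_lit 3687) (nat_lit 3) (nat_lit 5))
    (@En.n l11140 (nat_lit 3705) (nat_lit 13) (nat_lit 6))
    (@En.i (nat_lit 3588) (nat_lit 14) (nat_lit 6))
    (@En.n l11141 (nat_lit 7366) (nat_lit 6) (nat_lit 7))
    (@En.n l17 (nat_lit 3682) (nat_lit 15) (nat_lit 2))))
  (@Cl.mk (nat_lit 0x20008000600060005000e000c0002000d000800040003000a000a000e000b) (nat_lit 0x5000c4014000061) (nat_lit 16) Lb.e (@T16.mk En
    (@En.n l2213 (nat_lit 2652) (nat_lit 8) (nat_lit 11))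
    (@En.n l2214 (nat_lit 3680) (nat_lit 9) (nat_lit 14))
    (@En.n l1353 (nat_lit 4770) (nat_lit 6) (nat_lit 10))
    (@En.n l2215 (nat_lit 6761) (nat_lit 11) (nat_lit 10))
    (@En.n l50 (nat_lit 3681) (nat_lit 4) (nat_lit 3))
    (@En.n l2216 (nat_lit 3693) (nat_lit 5) (nat_lit 4))
    (@En.n l2217 (nat_lit 3723) (nat_lit 14) (nat_lit 8))
    (@En.n l2218 (nat_lit 441) (nat_lit 8) (nat_lit 13))
    (@En.n l28 (nat_lit 3683) (nat_lit 8) (nat_lit 2))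
    (@En.n l2219 (nat_lit 3692) (nat_lit 10) (nat_lit 12))
    (@En.n l2220 (nat_lit 11632) (nat_lit 11) (nat_lit 14))
    (@En.n l2221 (nat_lit 3689) (nat_lit 2) (nat_lit 5))
    (@En.n l2222 (nat_lit 3726) (nat_lit 13) (nat_lit 6))
    (@En.i (nat_lit 4017) (nat_lit 14) (nat_lit 6))
    (@En.n l2223 (nat_lit 6363) (nat_lit 5) (nat_lit 8))
    (@En.n l3 (nat_lit 3683) (nat_lit 15) (nat_lit 2))))
  (@Cl.mk (nat_lit 0x2000800070006000e000d0002000d0003000800030009000d000a000e0003) (nat_lit 0x2002050001c0) (nat_lit 16) Lb.e (@T16.mk En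
    (@En.n l14741 (nat_lit 3686) (nat_lit 6) (nat_lit 3))
    (@En.n l2038 (nat_lit 13143) (nat_lit 0) (nat_lit 14))
    (@En.n l2673 (nat_lit 3681) (nat_lit 2) (nat_lit 10))
    (@En.i (nat_lit 4281) (nat_lit 10) (nat_lit 13))
    (@En.i (nat_lit 4686) (nat_lit 11) (nat_lit 9))
    (@En.n l2364 (nat_lit 3688) (nat_lit 5) (nat_lit 3))
    (@En.i (nat_lit 3999) (nat_lit 6) (nat_lit 8))
    (@En.i (nat_lit 3685) (nat_lit 7) (nat_lit 3))
    (@En.n l476 (nat_lit 571) (nat_lit 0) (nat_lit 13))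
    (@En.n l50 (nat_lit 3684) (nat_lit 9) (nat_lit 2))
    (@En.n l396 (nat_lit 3685) (nat_lit 11) (nat_lit 13))
    (@En.n l476 (nat_lit 6909) (nat_lit 12) (nat_lit 14))
    (@En.n l1769 (nat_lit 3805) (nat_lit 13) (nat_lit 6))
    (@En.n l14742 (nat_lit 4015) (nat_lit 14) (nat_lit 7))
    (@En.n l5891 (nat_lit 6993) (nat_lit 4) (nat_lit 8))
    (@En.n l11 (nat_lit 3684) (nat_lit 15) (nat_lit 2))))
  (@Cl.mk (nat_lit 0x2000800070006000d000d000c00030003000800040009000d000a000e0003) (nat_lit 0xb440050002c0) (nat_lit 16) Lb.e (@T16.mk En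
    (@En.n l18841 (nat_lit 3687) (nat_lit 7) (nat_lit 3))
    (@En.n l2038 (nat_lit 13144) (nat_lit 0) (nat_lit 14))
    (@En.n l22215 (nat_lit 3682) (nat_lit 2) (nat_lit 10))
    (@En.i (nat_lit 4280) (nat_lit 11) (nat_lit 13))
    (@En.n l11434 (nat_lit 4681) (nat_lit 4) (nat_lit 9))
    (@En.n l403 (nat_lit 3690) (nat_lit 5) (nat_lit 4))
    (@En.n l1353 (nat_lit 4354) (nat_lit 6) (nat_lit 8))
    (@En.n l18 (nat_lit 3684) (nat_lit 7) (nat_lit 3))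
    (@En.n l22216 (nat_lit 3959) (nat_lit 0) (nat_lit 3))
    (@En.n l6444 (nat_lit 3688) (nat_lit 10) (nat_lit 12))
    (@En.n l21494 (nat_lit 3959) (nat_lit 3) (nat_lit 13))
    (@En.n l11434 (nat_lit 5521) (nat_lit 12) (nat_lit 13))
    (@En.n l1769 (nat_lit 3648) (nat_lit 13) (nat_lit 6))
    (@En.n l18844 (nat_lit 3070) (nat_lit 14) (nat_lit 7))
    (@En.n l5891 (nat_lit 6991) (nat_lit 5) (nat_lit 8))
    (@En.n l11 (nat_lit 3685) (nat_lit 15) (nat_lit 2))))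
  (@Cl.mk (nat_lit 0x2000d0003000800030009000d000d000b00030003000800070005000e000d) (nat_lit 0x204000110050024) (nat_lit 16) Lb.e (@T16.mk En
    (@En.i (nat_lit 3687) (nat_lit 2) (nat_lit 13))
    (@En.n l3749 (nat_lit 6911) (nat_lit 1) (nat_lit 14))
    (@En.n l3219 (nat_lit 3806) (nat_lit 2) (nat_lit 5))
    (@En.i (nat_lit 3813) (nat_lit 3) (nat_lit 7))
    (@En.n l6446 (nat_lit 6986) (nat_lit 4) (nat_lit 8))
    (@En.n l18 (nat_lit 4001) (nat_lit 13) (nat_lit 3))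
    (@En.n l8171 (nat_lit 3684) (nat_lit 0) (nat_lit 3))
    (@En.n l6444 (nat_lit 1378) (nat_lit 0) (nat_lit 11))
    (@En.n l15790 (nat_lit 3684) (nat_lit 3) (nat_lit 13))
    (@En.n l6446 (nat_lit 4284) (nat_lit 10) (nat_lit 13))
    (@En.n l2650 (nat_lit 4680) (nat_lit 11) (nat_lit 9))
    (@En.i (nat_lit 3689) (nat_lit 11) (nat_lit 3))
    (@En.n l3219 (nat_lit 3992) (nat_lit 0) (nat_lit 8))
    (@En.n l117 (nat_lit 3687) (nat_lit 14) (nat_lit 3))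
    (@En.i (nat_lit 557) (nat_lit 0) (nat_lit 13))
    (@En.n l3 (nat_lit 3686) (nat_lit 15) (nat_lit 2))))
  (@Cl.mk (nat_lit 0x30003000800040009000d000d000b00030003000800070005000d000d000c) (nat_lit 0x50001300600344) (nat_lit 16) Lb.e (@T16.mk En
    (@En.n l619 (nat_lit 3689) (nat_lit 0) (nat_lit 12))
    (@En.n l17986 (nat_lit 3960) (nat_lit 3) (nat_lit 13))
    (@En.i (nat_lit 5516) (nat_lit 11) (nat_lit 13))
    (@En.n l12842 (nat_lit 3074) (nat_lit 3) (nat_lit 5))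
    (@En.i (nat_lit 3071) (nat_lit 13) (nat_lit 7))
    (@En.n l24739 (nat_lit 6985) (nat_lit 5) (nat_lit 8))
    (@En.n l18 (nat_lit 3965) (nat_lit 13) (nat_lit 3))
    (@En.n l19557 (nat_lit 3685) (nat_lit 0) (nat_lit 3))
    (@En.n l6444 (nat_lit 1376) (nat_lit 0) (nat_lit 11))
    (@En.n l24740 (nat_lit 3685) (nat_lit 3) (nat_lit 13))
    (@En.n l4316 (nat_lit 4279) (nat_lit 11) (nat_lit 13))
    (@En.n l18989 (nat_lit 4679) (nat_lit 3) (nat_lit 9))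
    (@En.i (nat_lit 3691) (nat_lit 4) (nat_lit 4))
    (@En.n l24741 (nat_lit 3971) (nat_lit 5) (nat_lit 8))
    (@En.n l152 (nat_lit 3686) (nat_lit 13) (nat_lit 3))
    (@En.n l6822 (nat_lit 3960) (nat_lit 0) (nat_lit 3))))
  (@Cl.mk (nat_lit 0x2000900070006000e000c0002000d0007000400030009000d000a000e0003) (nat_lit 0x6002301000001c0) (nat_lit 16) Lb.e (@T16.mk En
    (@En.n l5967 (nat_lit 3689) (nat_lit 6) (nat_lit 3))
    (@En.n l2038 (nat_lit 13142) (nat_lit 0) (nat_lit 14))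
    (@En.n l5968 (nat_lit 3683) (nat_lit 2) (nat_lit 10))
    (@En.i (nat_lit 3870) (nat_lit 10) (nat_lit 13))
    (@En.n l5969 (nat_lit 4010) (nat_lit 11) (nat_lit 9))
    (@En.n l763 (nat_lit 3684) (nat_lit 5) (nat_lit 3))
    (@En.i (nat_lit 3771) (nat_lit 0) (nat_lit 4))
    (@En.n l1545 (nat_lit 3914) (nat_lit 14) (nat_lit 7))
    (@En.n l2026 (nat_lit 539) (nat_lit 9) (nat_lit 13))
    (@En.n l50 (nat_lit 3688) (nat_lit 9) (nat_lit 2))
    (@En.n l217 (nat_lit 3690) (nat_lit 11) (nat_lit 12))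
    (@En.n l476 (nat_lit 6910) (nat_lit 12) (nat_lit 14))
    (@En.n l1769 (nat_lit 3804) (nat_lit 13) (nat_lit 6))
    (@En.n l5970 (nat_lit 4014) (nat_lit 14) (nat_lit 7))
    (@En.n l2533 (nat_lit 6357) (nat_lit 4) (nat_lit 9))
    (@En.n l11 (nat_lit 3688) (nat_lit 15) (nat_lit 2))))
  (@Cl.mk (nat_lit 0x2000d0007000400030009000d000d000b00030003000900070005000e000c) (nat_lit 0x100000110060023) (nat_lit 16) Lb.e (@T16.mk En
    (@En.i (nat_lit 3691) (nat_lit 10) (nat_lit 12))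
    (@En.n l6441 (nat_lit 7018) (nat_lit 1) (nat_lit 14))
    (@En.n l6442 (nat_lit 3807) (nat_lit 2) (nat_lit 5))
    (@En.i (nat_lit 3810) (nat_lit 3) (nat_lit 7))
    (@En.n l6443 (nat_lit 6358) (nat_lit 4) (nat_lit 9))
    (@En.n l18 (nat_lit 4000) (nat_lit 13) (nat_lit 3))
    (@En.n l2808 (nat_lit 3688) (nat_lit 0) (nat_lit 3))
    (@En.n l6444 (nat_lit 1377) (nat_lit 0) (nat_lit 11))
    (@En.n l6445 (nat_lit 3688) (nat_lit 3) (nat_lit 13))
    (@En.n l6446 (nat_lit 3869) (nat_lit 10) (nat_lit 13))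
    (@En.n l287 (nat_lit 4007) (nat_lit 11) (nat_lit 9))
    (@En.n l11 (nat_lit 3686) (nat_lit 11) (nat_lit 3))
    (@En.n l6442 (nat_lit 3762) (nat_lit 0) (nat_lit 4))
    (@En.i (nat_lit 3912) (nat_lit 14) (nat_lit 7))
    (@En.n l615 (nat_lit 555) (nat_lit 1) (nat_lit 13))
    (@En.n l3 (nat_lit 3689) (nat_lit 15) (nat_lit 2))))
  (@Cl.mk (nat_lit 0x2000a00070006000c000c000c00060004000400040009000d000a000e0003) (nat_lit 0x6002440000002c0) (nat_lit 16) Lb.e (@T16.mk En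
    (@En.n l14696 (nat_lit 3691) (nat_lit 15) (nat_lit 3))
    (@En.n l2038 (nat_lit 12986) (nat_lit 0) (nat_lit 14))
    (@En.n l2576 (nat_lit 3692) (nat_lit 2) (nat_lit 10))
    (@En.i (nat_lit 3872) (nat_lit 6) (nat_lit 13))
    (@En.n l5801 (nat_lit 7205) (nat_lit 4) (nat_lit 9))
    (@En.n l11407 (nat_lit 3962) (nat_lit 12) (nat_lit 4))
    (@En.n l2172 (nat_lit 3688) (nat_lit 6) (nat_lit 4))
    (@En.i (nat_lit 3768) (nat_lit 7) (nat_lit 4))
    (@En.n l5912 (nat_lit 3913) (nat_lit 8) (nat_lit 6))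
    (@En.n l742 (nat_lit 3771) (nat_lit 4) (nat_lit 12))
    (@En.n l14697 (nat_lit 3961) (nat_lit 4) (nat_lit 12))
    (@En.n l5801 (nat_lit 7037) (nat_lit 12) (nat_lit 12))
    (@En.n l1769 (nat_lit 3646) (nat_lit 13) (nat_lit 6))
    (@En.n l14698 (nat_lit 3068) (nat_lit 14) (nat_lit 7))
    (@En.i (nat_lit 6354) (nat_lit 14) (nat_lit 10))
    (@En.n l11 (nat_lit 3690) (nat_lit 15) (nat_lit 2))))
  (@Cl.mk (nat_lit 0x30003000a00070005000c000c000c00060004000400040009000d000d000b) (nat_lit 0x60024700000513) (nat_lit 16) Lb.e (@T16.mk En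
    (@En.n l15887 (nat_lit 1373) (nat_lit 0) (nat_lit 11))
    (@En.n l15888 (nat_lit 3690) (nat_lit 3) (nat_lit 13))
    (@En.n l15889 (nat_lit 3859) (nat_lit 6) (nat_lit 13))
    (@En.n l15890 (nat_lit 7201) (nat_lit 3) (nat_lit 9))
    (@En.n l11 (nat_lit 3963) (nat_lit 12) (nat_lit 4))
    (@En.n l152 (nat_lit 3689) (nat_lit 12) (nat_lit 4))
    (@En.n l15046 (nat_lit 3764) (nat_lit 0) (nat_lit 4))
    (@En.i (nat_lit 2081) (nat_lit 0) (nat_lit 6))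
    (@En.n l15891 (nat_lit 3762) (nat_lit 4) (nat_lit 12))
    (@En.n l15892 (nat_lit 3775) (nat_lit 4) (nat_lit 12))
    (@En.n l15472 (nat_lit 7052) (nat_lit 11) (nat_lit 12))
    (@En.n l15046 (nat_lit 3818) (nat_lit 11) (nat_lit 5))
    (@En.i (nat_lit 3074) (nat_lit 13) (nat_lit 7))
    (@En.n l6443 (nat_lit 6355) (nat_lit 14) (nat_lit 10))
    (@En.n l18 (nat_lit 3774) (nat_lit 13) (nat_lit 3))
    (@En.n l8191 (nat_lit 3690) (nat_lit 0) (nat_lit 3))))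
  (@Cl.mk (nat_lit 0x20009000600060005000c000c000c0007000400040004000a000a000e000b) (nat_lit 0x60003a500007111) (nat_lit 16) Lb.e (@T16.mk En
    (@En.n l3279 (nat_lit 1381) (nat_lit 10) (nat_lit 11))
    (@En.n l2051 (nat_lit 2238) (nat_lit 1) (nat_lit 14))
    (@En.n l6419 (nat_lit 3031) (nat_lit 6) (nat_lit 10))
    (@En.n l6420 (nat_lit 6575) (nat_lit 3) (nat_lit 10))
    (@En.n l6421 (nat_lit 3033) (nat_lit 12) (nat_lit 4))
    (@En.n l6422 (nat_lit 3683) (nat_lit 5) (nat_lit 4))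
    (@En.i (nat_lit 3694) (nat_lit 6) (nat_lit 4))
    (@En.n l6423 (nat_lit 2078) (nat_lit 7) (nat_lit 7))
    (@En.n l742 (nat_lit 3693) (nat_lit 9) (nat_lit 12))
    (@En.n l6424 (nat_lit 3702) (nat_lit 4) (nat_lit 12))
    (@En.n l6425 (nat_lit 12257) (nat_lit 11) (nat_lit 12))
    (@En.n l6426 (nat_lit 3691) (nat_lit 11) (nat_lit 5))
    (@En.n l152 (nat_lit 3700) (nat_lit 13) (nat_lit 6))
    (@En.n l6427 (nat_lit 3585) (nat_lit 14) (nat_lit 6))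
    (@En.n l6428 (nat_lit 5883) (nat_lit 2) (nat_lit 9))
    (@En.n l11 (nat_lit 3692) (nat_lit 15) (nat_lit 2))))
  (@Cl.mk (nat_lit 0x2000a000600060005000d000c00060003000e00040002000a000a000e000b) (nat_lit 0x5000b4001000013) (nat_lit 16) Lb.e (@T16.mk En
    (@En.n l3279 (nat_lit 2670) (nat_lit 12) (nat_lit 11))
    (@En.n l2051 (nat_lit 2244) (nat_lit 13) (nat_lit 14))
    (@En.n l5870 (nat_lit 4772) (nat_lit 6) (nat_lit 10))
    (@En.i (nat_lit 6573) (nat_lit 3) (nat_lit 10))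
    (@En.n l17 (nat_lit 3693) (nat_lit 4) (nat_lit 2))
    (@En.n l50 (nat_lit 3692) (nat_lit 5) (nat_lit 4))
    (@En.n l5 (nat_lit 627) (nat_lit 1) (nat_lit 14))
    (@En.n l50 (nat_lit 3695) (nat_lit 2) (nat_lit 3))
    (@En.n l685 (nat_lit 2112) (nat_lit 3) (nat_lit 6))
    (@En.n l217 (nat_lit 3694) (nat_lit 10) (nat_lit 12))
    (@En.i (nat_lit 12254) (nat_lit 6) (nat_lit 13))
    (@En.i (nat_lit 3762) (nat_lit 6) (nat_lit 5))
    (@En.n l152 (nat_lit 3699) (nat_lit 13) (nat_lit 6))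
    (@En.n l2225 (nat_lit 3640) (nat_lit 14) (nat_lit 6))
    (@En.n l5621 (nat_lit 5885) (nat_lit 10) (nat_lit 10))
    (@En.n l11 (nat_lit 3693) (nat_lit 15) (nat_lit 2))))
  (@Cl.mk (nat_lit 0x2000b000600060005000c0005000d000d000400030003000a000a000e000b) (nat_lit 0x5000306b0007113) (nat_lit 16) Lb.e (@T16.mk En
    (@En.n l3279 (nat_lit 1166) (nat_lit 11) (nat_lit 11))
    (@En.n l2051 (nat_lit 2272) (nat_lit 1) (nat_lit 14))
    (@En.n l5870 (nat_lit 1167) (nat_lit 6) (nat_lit 10))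
    (@En.n l6420 (nat_lit 6574) (nat_lit 3) (nat_lit 10))
    (@En.n l953 (nat_lit 3696) (nat_lit 13) (nat_lit 3))
    (@En.n l18 (nat_lit 3695) (nat_lit 0) (nat_lit 3))
    (@En.n l4049 (nat_lit 3702) (nat_lit 0) (nat_lit 4))
    (@En.n l61 (nat_lit 3695) (nat_lit 3) (nat_lit 13))
    (@En.n l4040 (nat_lit 3682) (nat_lit 9) (nat_lit 13))
    (@En.n l137 (nat_lit 3092) (nat_lit 9) (nat_lit 5))
    (@En.n l15793 (nat_lit 12256) (nat_lit 11) (nat_lit 12))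
    (@En.i (nat_lit 3764) (nat_lit 5) (nat_lit 5))
    (@En.n l152 (nat_lit 3697) (nat_lit 13) (nat_lit 6))
    (@En.n l15794 (nat_lit 3592) (nat_lit 14) (nat_lit 6))
    (@En.n l9825 (nat_lit 4083) (nat_lit 9) (nat_lit 11))
    (@En.n l11 (nat_lit 3694) (nat_lit 15) (nat_lit 2))))
  (@Cl.mk (nat_lit 0x2000a000a000e000b0002000b000600060005000d0005000d0003000e0003) (nat_lit 0x1304000a0a030) (nat_lit 16) Lb.e (@T16.mk En
    (@En.i (nat_lit 3694) (nat_lit 5) (nat_lit 3))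
    (@En.i (nat_lit 13721) (nat_lit 0) (nat_lit 14))
    (@En.i (nat_lit 3693) (nat_lit 7) (nat_lit 3))
    (@En.n l2225 (nat_lit 3681) (nat_lit 9) (nat_lit 13))
    (@En.i (nat_lit 3098) (nat_lit 4) (nat_lit 5))
    (@En.i (nat_lit 12252) (nat_lit 6) (nat_lit 13))
    (@En.i (nat_lit 3763) (nat_lit 6) (nat_lit 5))
    (@En.n l152 (nat_lit 3698) (nat_lit 13) (nat_lit 6))
    (@En.n l2225 (nat_lit 3916) (nat_lit 14) (nat_lit 6))
    (@En.n l9825 (nat_lit 6318) (nat_lit 10) (nat_lit 11))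
    (@En.n l11 (nat_lit 3695) (nat_lit 10) (nat_lit 2))
    (@En.n l3279 (nat_lit 2671) (nat_lit 12) (nat_lit 11))
    (@En.n l2051 (nat_lit 2370) (nat_lit 13) (nat_lit 14))
    (@En.n l5870 (nat_lit 4773) (nat_lit 6) (nat_lit 10))
    (@En.i (nat_lit 6572) (nat_lit 3) (nat_lit 10))
    (@En.n l17 (nat_lit 3695) (nat_lit 15) (nat_lit 2))))
noncomputable def a231 : T16 Cl := @T16.mk Cl
  (@Cl.mk (nat_lit 0x200050003000a000a000e000b0002000b000600060005000b0005000e000d) (nat_lit 0x7112040003047) (nat_lit 16) Lb.e (@T16.mk En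
    (@En.n l12872 (nat_lit 3694) (nat_lit 8) (nat_lit 13))
    (@En.i (nat_lit 3033) (nat_lit 1) (nat_lit 14))
    (@En.n l5959 (nat_lit 3097) (nat_lit 2) (nat_lit 5))
    (@En.i (nat_lit 12258) (nat_lit 3) (nat_lit 11))
    (@En.n l12473 (nat_lit 3769) (nat_lit 4) (nat_lit 5))
    (@En.n l3189 (nat_lit 3701) (nat_lit 5) (nat_lit 6))
    (@En.n l12473 (nat_lit 3586) (nat_lit 6) (nat_lit 6))
    (@En.i (nat_lit 6339) (nat_lit 8) (nat_lit 11))
    (@En.n l7 (nat_lit 3696) (nat_lit 8) (nat_lit 2))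
    (@En.n l3192 (nat_lit 3706) (nat_lit 10) (nat_lit 11))
    (@En.n l9397 (nat_lit 2270) (nat_lit 11) (nat_lit 14))
    (@En.n l1316 (nat_lit 3030) (nat_lit 12) (nat_lit 10))
    (@En.n l9397 (nat_lit 7011) (nat_lit 13) (nat_lit 10))
    (@En.n l11126 (nat_lit 3694) (nat_lit 4) (nat_lit 3))
    (@En.i (nat_lit 2977) (nat_lit 5) (nat_lit 5))
    (@En.n l3 (nat_lit 3696) (nat_lit 15) (nat_lit 2))))
  (@Cl.mk (nat_lit 0x2000c00060004000c0004000d000d000400030003000e000a0002000e000c) (nat_lit 0x4003045000c8014) (nat_lit 16) Lb.e (@T16.mk En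
    (@En.n l55 (nat_lit 2679) (nat_lit 14) (nat_lit 12))
    (@En.i (nat_lit 2231) (nat_lit 1) (nat_lit 14))
    (@En.n l3 (nat_lit 3697) (nat_lit 2) (nat_lit 2))
    (@En.i (nat_lit 3694) (nat_lit 3) (nat_lit 10))
    (@En.i (nat_lit 8999) (nat_lit 1) (nat_lit 14))
    (@En.i (nat_lit 3701) (nat_lit 13) (nat_lit 3))
    (@En.n l18 (nat_lit 3698) (nat_lit 6) (nat_lit 3))
    (@En.i (nat_lit 3703) (nat_lit 0) (nat_lit 4))
    (@En.n l61 (nat_lit 3698) (nat_lit 9) (nat_lit 13))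
    (@En.i (nat_lit 3705) (nat_lit 10) (nat_lit 13))
    (@En.i (nat_lit 3943) (nat_lit 10) (nat_lit 4))
    (@En.i (nat_lit 12525) (nat_lit 12) (nat_lit 12))
    (@En.i (nat_lit 3829) (nat_lit 9) (nat_lit 4))
    (@En.n l6458 (nat_lit 3789) (nat_lit 14) (nat_lit 6))
    (@En.n l2228 (nat_lit 6315) (nat_lit 12) (nat_lit 12))
    (@En.n l11 (nat_lit 3697) (nat_lit 15) (nat_lit 2))))
  (@Cl.mk (nat_lit 0x2000c00060004000d0004000d0003000e00030002000e000a0002000e000c) (nat_lit 0x500a040300c1014) (nat_lit 16) Lb.e (@T16.mk En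
    (@En.n l55 (nat_lit 2678) (nat_lit 14) (nat_lit 12))
    (@En.i (nat_lit 2233) (nat_lit 1) (nat_lit 14))
    (@En.n l3 (nat_lit 3698) (nat_lit 2) (nat_lit 2))
    (@En.i (nat_lit 3695) (nat_lit 14) (nat_lit 10))
    (@En.i (nat_lit 9000) (nat_lit 1) (nat_lit 14))
    (@En.n l17 (nat_lit 3698) (nat_lit 5) (nat_lit 2))
    (@En.i (nat_lit 3697) (nat_lit 6) (nat_lit 3))
    (@En.i (nat_lit 13724) (nat_lit 0) (nat_lit 14))
    (@En.i (nat_lit 3699) (nat_lit 8) (nat_lit 3))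
    (@En.i (nat_lit 3725) (nat_lit 10) (nat_lit 13))
    (@En.i (nat_lit 3944) (nat_lit 10) (nat_lit 4))
    (@En.i (nat_lit 12614) (nat_lit 12) (nat_lit 13))
    (@En.i (nat_lit 3830) (nat_lit 9) (nat_lit 4))
    (@En.i (nat_lit 3787) (nat_lit 14) (nat_lit 6))
    (@En.n l2228 (nat_lit 6313) (nat_lit 12) (nat_lit 12))
    (@En.n l11 (nat_lit 3698) (nat_lit 15) (nat_lit 2))))
  (@Cl.mk (nat_lit 0x2000b00060004000d000c00050003000e00040002000e000a0002000e000c) (nat_lit 0x500b400100b1014) (nat_lit 16) Lb.e (@T16.mk En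
    (@En.n l55 (nat_lit 2680) (nat_lit 14) (nat_lit 12))
    (@En.i (nat_lit 2234) (nat_lit 1) (nat_lit 14))
    (@En.n l3 (nat_lit 3699) (nat_lit 2) (nat_lit 2))
    (@En.i (nat_lit 3693) (nat_lit 3) (nat_lit 10))
    (@En.i (nat_lit 9001) (nat_lit 1) (nat_lit 14))
    (@En.n l17 (nat_lit 3699) (nat_lit 5) (nat_lit 2))
    (@En.n l50 (nat_lit 3700) (nat_lit 6) (nat_lit 4))
    (@En.n l5 (nat_lit 837) (nat_lit 1) (nat_lit 14))
    (@En.n l50 (nat_lit 3698) (nat_lit 8) (nat_lit 3))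
    (@En.i (nat_lit 1612) (nat_lit 9) (nat_lit 5))
    (@En.n l217 (nat_lit 3697) (nat_lit 11) (nat_lit 12))
    (@En.i (nat_lit 12615) (nat_lit 12) (nat_lit 13))
    (@En.i (nat_lit 3831) (nat_lit 9) (nat_lit 4))
    (@En.n l2229 (nat_lit 3643) (nat_lit 14) (nat_lit 6))
    (@En.n l2228 (nat_lit 7977) (nat_lit 12) (nat_lit 11))
    (@En.n l11 (nat_lit 3699) (nat_lit 15) (nat_lit 2))))
  (@Cl.mk (nat_lit 0x2000a00060004000c000c000c0006000400040004000e000a0002000e000c) (nat_lit 0x6003450000b8012) (nat_lit 16) Lb.e (@T16.mk En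
    (@En.n l55 (nat_lit 2683) (nat_lit 14) (nat_lit 12))
    (@En.n l2242 (nat_lit 2235) (nat_lit 1) (nat_lit 14))
    (@En.n l3 (nat_lit 3700) (nat_lit 2) (nat_lit 2))
    (@En.i (nat_lit 3692) (nat_lit 3) (nat_lit 10))
    (@En.n l2243 (nat_lit 8938) (nat_lit 1) (nat_lit 14))
    (@En.n l2244 (nat_lit 3704) (nat_lit 12) (nat_lit 4))
    (@En.n l2245 (nat_lit 3726) (nat_lit 6) (nat_lit 4))
    (@En.i (nat_lit 3697) (nat_lit 7) (nat_lit 4))
    (@En.n l2054 (nat_lit 3720) (nat_lit 8) (nat_lit 6))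
    (@En.n l742 (nat_lit 3699) (nat_lit 10) (nat_lit 12))
    (@En.n l396 (nat_lit 3703) (nat_lit 4) (nat_lit 12))
    (@En.i (nat_lit 12523) (nat_lit 12) (nat_lit 12))
    (@En.i (nat_lit 3816) (nat_lit 9) (nat_lit 4))
    (@En.n l2242 (nat_lit 3823) (nat_lit 14) (nat_lit 6))
    (@En.n l2246 (nat_lit 6764) (nat_lit 12) (nat_lit 10))
    (@En.n l11 (nat_lit 3700) (nat_lit 15) (nat_lit 2))))
  (@Cl.mk (nat_lit 0x200050003000e000a0002000e000c0002000c00060004000b0004000e000d) (nat_lit 0xb801304002045) (nat_lit 16) Lb.e (@T16.mk En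
    (@En.n l61 (nat_lit 3697) (nat_lit 9) (nat_lit 13))
    (@En.n l4926 (nat_lit 3704) (nat_lit 1) (nat_lit 14))
    (@En.n l1777 (nat_lit 3945) (nat_lit 2) (nat_lit 4))
    (@En.n l4927 (nat_lit 12559) (nat_lit 3) (nat_lit 11))
    (@En.i (nat_lit 4019) (nat_lit 4) (nat_lit 4))
    (@En.n l4928 (nat_lit 3838) (nat_lit 5) (nat_lit 6))
    (@En.n l951 (nat_lit 6320) (nat_lit 7) (nat_lit 12))
    (@En.n l11 (nat_lit 3701) (nat_lit 7) (nat_lit 2))
    (@En.n l1780 (nat_lit 4084) (nat_lit 9) (nat_lit 12))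
    (@En.n l4929 (nat_lit 2265) (nat_lit 10) (nat_lit 14))
    (@En.n l3 (nat_lit 3701) (nat_lit 10) (nat_lit 2))
    (@En.n l953 (nat_lit 3696) (nat_lit 12) (nat_lit 10))
    (@En.n l951 (nat_lit 5786) (nat_lit 13) (nat_lit 14))
    (@En.n l72 (nat_lit 3697) (nat_lit 5) (nat_lit 3))
    (@En.n l666 (nat_lit 4144) (nat_lit 6) (nat_lit 5))
    (@En.n l17 (nat_lit 3701) (nat_lit 15) (nat_lit 2))))
  (@Cl.mk (nat_lit 0x20005000a000a000e000b0002000a000600060005000c000b0006000e0004) (nat_lit 0x71820500094090) (nat_lit 16) Lb.e (@T16.mk En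
    (@En.n l11122 (nat_lit 3692) (nat_lit 6) (nat_lit 4))
    (@En.n l11123 (nat_lit 3958) (nat_lit 8) (nat_lit 14))
    (@En.n l11124 (nat_lit 2079) (nat_lit 2) (nat_lit 6))
    (@En.i (nat_lit 3696) (nat_lit 3) (nat_lit 11))
    (@En.n l11125 (nat_lit 8055) (nat_lit 11) (nat_lit 12))
    (@En.n l11126 (nat_lit 3775) (nat_lit 5) (nat_lit 5))
    (@En.n l4294 (nat_lit 3703) (nat_lit 6) (nat_lit 6))
    (@En.n l11127 (nat_lit 3591) (nat_lit 7) (nat_lit 6))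
    (@En.n l11128 (nat_lit 6340) (nat_lit 9) (nat_lit 10))
    (@En.n l7 (nat_lit 3702) (nat_lit 9) (nat_lit 2))
    (@En.n l11129 (nat_lit 2974) (nat_lit 11) (nat_lit 11))
    (@En.n l9397 (nat_lit 2429) (nat_lit 12) (nat_lit 14))
    (@En.n l11130 (nat_lit 3028) (nat_lit 13) (nat_lit 10))
    (@En.n l11131 (nat_lit 7460) (nat_lit 3) (nat_lit 10))
    (@En.n l107 (nat_lit 2971) (nat_lit 13) (nat_lit 5))
    (@En.n l3 (nat_lit 3702) (nat_lit 15) (nat_lit 2))))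
  (@Cl.mk (nat_lit 0x20005000e000a0002000e000c0002000b00060004000c000b0005000e0004) (nat_lit 0xc8012070033060) (nat_lit 16) Lb.e (@T16.mk En
    (@En.n l50 (nat_lit 3700) (nat_lit 7) (nat_lit 4))
    (@En.n l2236 (nat_lit 4126) (nat_lit 1) (nat_lit 14))
    (@En.n l404 (nat_lit 3721) (nat_lit 2) (nat_lit 5))
    (@En.n l2863 (nat_lit 3701) (nat_lit 3) (nat_lit 11))
    (@En.n l3972 (nat_lit 12518) (nat_lit 12) (nat_lit 12))
    (@En.i (nat_lit 3856) (nat_lit 5) (nat_lit 4))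
    (@En.n l2054 (nat_lit 3840) (nat_lit 6) (nat_lit 6))
    (@En.n l2228 (nat_lit 6769) (nat_lit 8) (nat_lit 11))
    (@En.n l11 (nat_lit 3703) (nat_lit 8) (nat_lit 2))
    (@En.n l55 (nat_lit 4087) (nat_lit 10) (nat_lit 12))
    (@En.n l3444 (nat_lit 770) (nat_lit 1) (nat_lit 14))
    (@En.n l3 (nat_lit 3703) (nat_lit 11) (nat_lit 2))
    (@En.n l4049 (nat_lit 3702) (nat_lit 13) (nat_lit 10))
    (@En.n l2243 (nat_lit 8998) (nat_lit 1) (nat_lit 14))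
    (@En.i (nat_lit 4141) (nat_lit 13) (nat_lit 5))
    (@En.n l18 (nat_lit 3703) (nat_lit 15) (nat_lit 2))))
  (@Cl.mk (nat_lit 0x2000700050004000e000a0002000e000c0002000900060004000b000e000c) (nat_lit 0xc10120600335) (nat_lit 16) Lb.e (@T16.mk En
    (@En.n l3205 (nat_lit 3700) (nat_lit 10) (nat_lit 12))
    (@En.n l134 (nat_lit 4142) (nat_lit 4) (nat_lit 14))
    (@En.n l3206 (nat_lit 12557) (nat_lit 2) (nat_lit 11))
    (@En.n l3207 (nat_lit 4017) (nat_lit 3) (nat_lit 4))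
    (@En.n l1347 (nat_lit 3835) (nat_lit 14) (nat_lit 6))
    (@En.n l1219 (nat_lit 6760) (nat_lit 12) (nat_lit 9))
    (@En.n l3 (nat_lit 3704) (nat_lit 6) (nat_lit 2))
    (@En.n l3208 (nat_lit 4085) (nat_lit 8) (nat_lit 12))
    (@En.n l1042 (nat_lit 882) (nat_lit 1) (nat_lit 14))
    (@En.n l17 (nat_lit 3704) (nat_lit 9) (nat_lit 2))
    (@En.n l3209 (nat_lit 3033) (nat_lit 11) (nat_lit 10))
    (@En.i (nat_lit 5787) (nat_lit 12) (nat_lit 14))
    (@En.n l1218 (nat_lit 3705) (nat_lit 5) (nat_lit 4))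
    (@En.n l3210 (nat_lit 3701) (nat_lit 14) (nat_lit 5))
    (@En.n l3211 (nat_lit 3949) (nat_lit 7) (nat_lit 7))
    (@En.n l7 (nat_lit 3704) (nat_lit 15) (nat_lit 2))))
  (@Cl.mk (nat_lit 0x2000800060004000d000d000c0003000300080004000e000a0002000e000c) (nat_lit 0x3002350040c8062) (nat_lit 16) Lb.e (@T16.mk En
    (@En.n l4039 (nat_lit 3727) (nat_lit 14) (nat_lit 12))
    (@En.n l615 (nat_lit 2150) (nat_lit 1) (nat_lit 14))
    (@En.n l3 (nat_lit 3705) (nat_lit 2) (nat_lit 2))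
    (@En.n l4040 (nat_lit 3682) (nat_lit 3) (nat_lit 10))
    (@En.i (nat_lit 4127) (nat_lit 1) (nat_lit 14))
    (@En.n l403 (nat_lit 3700) (nat_lit 5) (nat_lit 4))
    (@En.n l1353 (nat_lit 3948) (nat_lit 6) (nat_lit 8))
    (@En.n l18 (nat_lit 3725) (nat_lit 7) (nat_lit 3))
    (@En.n l2236 (nat_lit 4126) (nat_lit 0) (nat_lit 3))
    (@En.n l4041 (nat_lit 3726) (nat_lit 10) (nat_lit 12))
    (@En.n l2230 (nat_lit 4126) (nat_lit 3) (nat_lit 13))
    (@En.i (nat_lit 12517) (nat_lit 12) (nat_lit 13))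
    (@En.i (nat_lit 3810) (nat_lit 9) (nat_lit 4))
    (@En.n l4042 (nat_lit 4024) (nat_lit 14) (nat_lit 6))
    (@En.n l2228 (nat_lit 4005) (nat_lit 12) (nat_lit 8))
    (@En.n l11 (nat_lit 3705) (nat_lit 15) (nat_lit 2))))
  (@Cl.mk (nat_lit 0x200050003000b000b000b000b000a0005000500050005000b0006000e000d) (nat_lit 0x3117600005071) (nat_lit 16) Lb.e (@T16.mk En
    (@En.n l61 (nat_lit 1166) (nat_lit 2) (nat_lit 13))
    (@En.n l13551 (nat_lit 1380) (nat_lit 1) (nat_lit 14))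
    (@En.n l21964 (nat_lit 3090) (nat_lit 2) (nat_lit 6))
    (@En.n l5332 (nat_lit 7476) (nat_lit 3) (nat_lit 11))
    (@En.n l9367 (nat_lit 3696) (nat_lit 4) (nat_lit 5))
    (@En.n l21965 (nat_lit 1369) (nat_lit 5) (nat_lit 5))
    (@En.n l21966 (nat_lit 4084) (nat_lit 6) (nat_lit 5))
    (@En.n l4906 (nat_lit 3714) (nat_lit 7) (nat_lit 5))
    (@En.n l21967 (nat_lit 3823) (nat_lit 9) (nat_lit 10))
    (@En.n l55 (nat_lit 3708) (nat_lit 10) (nat_lit 11))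
    (@En.n l9370 (nat_lit 2662) (nat_lit 11) (nat_lit 11))
    (@En.n l21968 (nat_lit 1165) (nat_lit 12) (nat_lit 11))
    (@En.i (nat_lit 5315) (nat_lit 13) (nat_lit 11))
    (@En.n l72 (nat_lit 1166) (nat_lit 14) (nat_lit 3))
    (@En.n l2890 (nat_lit 2968) (nat_lit 0) (nat_lit 5))
    (@En.n l17 (nat_lit 3706) (nat_lit 15) (nat_lit 2))))
  (@Cl.mk (nat_lit 0x2000a00050004000c000c000b000600040004000e00050002000b000e000c) (nat_lit 0x800796000600951) (nat_lit 16) Lb.e (@T16.mk En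
    (@En.n l68 (nat_lit 2654) (nat_lit 13) (nat_lit 12))
    (@En.n l12850 (nat_lit 2902) (nat_lit 4) (nat_lit 14))
    (@En.i (nat_lit 8197) (nat_lit 2) (nat_lit 11))
    (@En.n l17 (nat_lit 3707) (nat_lit 3) (nat_lit 2))
    (@En.n l50 (nat_lit 1380) (nat_lit 4) (nat_lit 5))
    (@En.n l3786 (nat_lit 3735) (nat_lit 1) (nat_lit 14))
    (@En.n l3787 (nat_lit 4086) (nat_lit 6) (nat_lit 4))
    (@En.i (nat_lit 3712) (nat_lit 3) (nat_lit 4))
    (@En.n l13032 (nat_lit 4659) (nat_lit 8) (nat_lit 6))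
    (@En.n l2337 (nat_lit 3825) (nat_lit 10) (nat_lit 11))
    (@En.n l601 (nat_lit 3710) (nat_lit 11) (nat_lit 12))
    (@En.n l17777 (nat_lit 5609) (nat_lit 12) (nat_lit 12))
    (@En.i (nat_lit 2650) (nat_lit 8) (nat_lit 4))
    (@En.n l29476 (nat_lit 3708) (nat_lit 14) (nat_lit 5))
    (@En.i (nat_lit 4471) (nat_lit 11) (nat_lit 10))
    (@En.n l67 (nat_lit 3707) (nat_lit 15) (nat_lit 2))))
  (@Cl.mk (nat_lit 0x200050003000c000c000b000900040004000e00050002000b0007000e000d) (nat_lit 0xa96500b006063) (nat_lit 16) Lb.e (@T16.mk En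
    (@En.n l61 (nat_lit 2674) (nat_lit 12) (nat_lit 13))
    (@En.n l11557 (nat_lit 3707) (nat_lit 1) (nat_lit 14))
    (@En.n l1777 (nat_lit 3274) (nat_lit 14) (nat_lit 7))
    (@En.n l3180 (nat_lit 8550) (nat_lit 3) (nat_lit 11))
    (@En.n l28 (nat_lit 3708) (nat_lit 4) (nat_lit 2))
    (@En.i (nat_lit 3706) (nat_lit 5) (nat_lit 5))
    (@En.n l3519 (nat_lit 3734) (nat_lit 7) (nat_lit 14))
    (@En.n l11229 (nat_lit 2682) (nat_lit 7) (nat_lit 4))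
    (@En.n l14016 (nat_lit 3711) (nat_lit 8) (nat_lit 4))
    (@En.n l16029 (nat_lit 3282) (nat_lit 10) (nat_lit 9))
    (@En.n l16515 (nat_lit 3836) (nat_lit 11) (nat_lit 11))
    (@En.n l4299 (nat_lit 3709) (nat_lit 12) (nat_lit 12))
    (@En.n l16516 (nat_lit 6436) (nat_lit 13) (nat_lit 12))
    (@En.n l72 (nat_lit 2674) (nat_lit 8) (nat_lit 3))
    (@En.n l666 (nat_lit 2988) (nat_lit 9) (nat_lit 5))
    (@En.n l17 (nat_lit 3708) (nat_lit 15) (nat_lit 2))))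
  (@Cl.mk (nat_lit 0x200050003000c000a0008000e00040002000e00060002000b0008000e000d) (nat_lit 0x884c001000281) (nat_lit 16) Lb.e (@T16.mk En
    (@En.n l10216 (nat_lit 1168) (nat_lit 12) (nat_lit 13))
    (@En.n l8952 (nat_lit 3710) (nat_lit 1) (nat_lit 14))
    (@En.n l1574 (nat_lit 3287) (nat_lit 14) (nat_lit 8))
    (@En.n l10217 (nat_lit 8193) (nat_lit 3) (nat_lit 11))
    (@En.n l3 (nat_lit 3709) (nat_lit 4) (nat_lit 2))
    (@En.n l10218 (nat_lit 1165) (nat_lit 5) (nat_lit 6))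
    (@En.n l10219 (nat_lit 1004) (nat_lit 7) (nat_lit 14))
    (@En.n l17 (nat_lit 3709) (nat_lit 7) (nat_lit 2))
    (@En.n l4085 (nat_lit 3708) (nat_lit 8) (nat_lit 4))
    (@En.n l10220 (nat_lit 2726) (nat_lit 10) (nat_lit 14))
    (@En.i (nat_lit 4109) (nat_lit 11) (nat_lit 8))
    (@En.n l686 (nat_lit 3803) (nat_lit 12) (nat_lit 10))
    (@En.i (nat_lit 8041) (nat_lit 13) (nat_lit 12))
    (@En.n l8952 (nat_lit 1168) (nat_lit 8) (nat_lit 3))
    (@En.n l143 (nat_lit 2986) (nat_lit 9) (nat_lit 5))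
    (@En.n l28 (nat_lit 3709) (nat_lit 15) (nat_lit 2))))
  (@Cl.mk (nat_lit 0x2000b00050004000c000a0005000e00040002000e00060002000b000e000c) (nat_lit 0x300880b00200070) (nat_lit 16) Lb.e (@T16.mk En
    (@En.n l68 (nat_lit 3748) (nat_lit 13) (nat_lit 12))
    (@En.n l8452 (nat_lit 2905) (nat_lit 4) (nat_lit 14))
    (@En.i (nat_lit 8191) (nat_lit 12) (nat_lit 11))
    (@En.n l17 (nat_lit 3710) (nat_lit 3) (nat_lit 2))
    (@En.i (nat_lit 3032) (nat_lit 14) (nat_lit 6))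
    (@En.n l5 (nat_lit 1002) (nat_lit 1) (nat_lit 14))
    (@En.n l50 (nat_lit 3710) (nat_lit 6) (nat_lit 2))
    (@En.n l7 (nat_lit 3707) (nat_lit 7) (nat_lit 4))
    (@En.i (nat_lit 2716) (nat_lit 9) (nat_lit 14))
    (@En.n l1422 (nat_lit 4658) (nat_lit 5) (nat_lit 5))
    (@En.i (nat_lit 3893) (nat_lit 11) (nat_lit 10))
    (@En.n l645 (nat_lit 8040) (nat_lit 8) (nat_lit 12))
    (@En.i (nat_lit 2644) (nat_lit 8) (nat_lit 4))
    (@En.n l1422 (nat_lit 3709) (nat_lit 14) (nat_lit 5))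
    (@En.n l575 (nat_lit 2991) (nat_lit 11) (nat_lit 11))
    (@En.n l67 (nat_lit 3710) (nat_lit 15) (nat_lit 2))))
  (@Cl.mk (nat_lit 0x200050003000c0007000d000c00040003000e00040002000b0009000e000d) (nat_lit 0x70b3001008060) (nat_lit 16) Lb.e (@T16.mk En
    (@En.n l1144 (nat_lit 3713) (nat_lit 12) (nat_lit 13))
    (@En.n l11 (nat_lit 3712) (nat_lit 13) (nat_lit 14))
    (@En.n l1483 (nat_lit 3770) (nat_lit 14) (nat_lit 9))
    (@En.i (nat_lit 8156) (nat_lit 3) (nat_lit 11))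
    (@En.n l17 (nat_lit 3711) (nat_lit 4) (nat_lit 2))
    (@En.n l17579 (nat_lit 3714) (nat_lit 5) (nat_lit 4))
    (@En.n l5 (nat_lit 551) (nat_lit 7) (nat_lit 14))
    (@En.n l50 (nat_lit 3715) (nat_lit 7) (nat_lit 3))
    (@En.n l17580 (nat_lit 3709) (nat_lit 8) (nat_lit 4))
    (@En.n l12426 (nat_lit 3717) (nat_lit 10) (nat_lit 12))
    (@En.i (nat_lit 975) (nat_lit 11) (nat_lit 13))
    (@En.n l14185 (nat_lit 3908) (nat_lit 12) (nat_lit 7))
    (@En.n l2262 (nat_lit 5599) (nat_lit 13) (nat_lit 12))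
    (@En.n l11 (nat_lit 3713) (nat_lit 8) (nat_lit 3))
    (@En.n l6634 (nat_lit 2998) (nat_lit 9) (nat_lit 5))
    (@En.n l1157 (nat_lit 3711) (nat_lit 15) (nat_lit 2))))
noncomputable def a232 : T16 Cl := @T16.mk Cl
  (@Cl.mk (nat_lit 0x2000b000e000c0002000c00050004000c0004000d000c00040003000e0004) (nat_lit 0x759040070b30010) (nat_lit 16) Lb.e (@T16.mk En
    (@En.n l50 (nat_lit 3587) (nat_lit 4) (nat_lit 4))
    (@En.n l5 (nat_lit 548) (nat_lit 1) (nat_lit 14))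
    (@En.n l50 (nat_lit 3833) (nat_lit 2) (nat_lit 3))
    (@En.i (nat_lit 3710) (nat_lit 7) (nat_lit 4))
    (@En.n l217 (nat_lit 3832) (nat_lit 9) (nat_lit 12))
    (@En.i (nat_lit 2714) (nat_lit 10) (nat_lit 13))
    (@En.i (nat_lit 1372) (nat_lit 6) (nat_lit 4))
    (@En.n l645 (nat_lit 5598) (nat_lit 8) (nat_lit 12))
    (@En.i (nat_lit 3755) (nat_lit 8) (nat_lit 4))
    (@En.n l3015 (nat_lit 3711) (nat_lit 14) (nat_lit 5))
    (@En.n l8015 (nat_lit 2999) (nat_lit 11) (nat_lit 12))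
    (@En.n l67 (nat_lit 3712) (nat_lit 11) (nat_lit 2))
    (@En.n l68 (nat_lit 3756) (nat_lit 13) (nat_lit 12))
    (@En.n l645 (nat_lit 2896) (nat_lit 4) (nat_lit 14))
    (@En.i (nat_lit 8714) (nat_lit 2) (nat_lit 11))
    (@En.n l17 (nat_lit 3712) (nat_lit 15) (nat_lit 2))))
  (@Cl.mk (nat_lit 0x2000c0009000d000d000400030003000c0007000d000c00040003000e0004) (nat_lit 0x87b000070b20050) (nat_lit 16) Lb.e (@T16.mk En
    (@En.n l50 (nat_lit 3790) (nat_lit 6) (nat_lit 4))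
    (@En.n l5 (nat_lit 540) (nat_lit 1) (nat_lit 14))
    (@En.n l50 (nat_lit 3718) (nat_lit 2) (nat_lit 3))
    (@En.i (nat_lit 1168) (nat_lit 3) (nat_lit 4))
    (@En.n l217 (nat_lit 3719) (nat_lit 4) (nat_lit 12))
    (@En.i (nat_lit 695) (nat_lit 6) (nat_lit 13))
    (@En.i (nat_lit 664) (nat_lit 6) (nat_lit 7))
    (@En.i (nat_lit 6396) (nat_lit 8) (nat_lit 12))
    (@En.i (nat_lit 3711) (nat_lit 13) (nat_lit 3))
    (@En.n l152 (nat_lit 3779) (nat_lit 0) (nat_lit 3))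
    (@En.n l1992 (nat_lit 3752) (nat_lit 0) (nat_lit 4))
    (@En.n l619 (nat_lit 3779) (nat_lit 3) (nat_lit 13))
    (@En.i (nat_lit 3755) (nat_lit 13) (nat_lit 13))
    (@En.n l1769 (nat_lit 3762) (nat_lit 14) (nat_lit 9))
    (@En.i (nat_lit 8149) (nat_lit 12) (nat_lit 12))
    (@En.n l17 (nat_lit 3713) (nat_lit 15) (nat_lit 2))))
  (@Cl.mk (nat_lit 0x200050003000b0007000c000c000c0005000400040004000b0009000e000d) (nat_lit 0x401a400008056) (nat_lit 16) Lb.e (@T16.mk En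
    (@En.n l3013 (nat_lit 3790) (nat_lit 2) (nat_lit 13))
    (@En.n l936 (nat_lit 3587) (nat_lit 1) (nat_lit 14))
    (@En.n l6426 (nat_lit 3774) (nat_lit 2) (nat_lit 9))
    (@En.n l25382 (nat_lit 8705) (nat_lit 3) (nat_lit 11))
    (@En.n l25383 (nat_lit 3586) (nat_lit 4) (nat_lit 4))
    (@En.n l25384 (nat_lit 3803) (nat_lit 5) (nat_lit 4))
    (@En.i (nat_lit 3717) (nat_lit 6) (nat_lit 4))
    (@En.n l25382 (nat_lit 3906) (nat_lit 7) (nat_lit 5))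
    (@En.n l25385 (nat_lit 3711) (nat_lit 9) (nat_lit 12))
    (@En.n l25386 (nat_lit 3793) (nat_lit 10) (nat_lit 12))
    (@En.n l25382 (nat_lit 2720) (nat_lit 11) (nat_lit 12))
    (@En.n l6426 (nat_lit 3898) (nat_lit 12) (nat_lit 7))
    (@En.n l11546 (nat_lit 5605) (nat_lit 13) (nat_lit 11))
    (@En.n l936 (nat_lit 3790) (nat_lit 14) (nat_lit 3))
    (@En.n l25382 (nat_lit 2764) (nat_lit 0) (nat_lit 5))
    (@En.n l67 (nat_lit 3714) (nat_lit 15) (nat_lit 2))))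
  (@Cl.mk (nat_lit 0x200050003000d0007000d0003000d0003000e00030002000b0009000e000d) (nat_lit 0x90a0305007090) (nat_lit 16) Lb.e (@T16.mk En
    (@En.n l1144 (nat_lit 3718) (nat_lit 12) (nat_lit 13))
    (@En.n l11 (nat_lit 3833) (nat_lit 13) (nat_lit 14))
    (@En.n l1483 (nat_lit 3765) (nat_lit 14) (nat_lit 9))
    (@En.i (nat_lit 8157) (nat_lit 3) (nat_lit 11))
    (@En.n l17 (nat_lit 3715) (nat_lit 4) (nat_lit 2))
    (@En.n l1483 (nat_lit 3717) (nat_lit 5) (nat_lit 3))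
    (@En.n l1483 (nat_lit 13672) (nat_lit 0) (nat_lit 14))
    (@En.i (nat_lit 3711) (nat_lit 7) (nat_lit 3))
    (@En.n l2261 (nat_lit 3894) (nat_lit 9) (nat_lit 13))
    (@En.n l1483 (nat_lit 3716) (nat_lit 9) (nat_lit 3))
    (@En.i (nat_lit 2719) (nat_lit 11) (nat_lit 13))
    (@En.n l2261 (nat_lit 3909) (nat_lit 12) (nat_lit 7))
    (@En.n l2262 (nat_lit 5574) (nat_lit 13) (nat_lit 13))
    (@En.n l11 (nat_lit 3718) (nat_lit 8) (nat_lit 3))
    (@En.n l6634 (nat_lit 2733) (nat_lit 9) (nat_lit 5))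
    (@En.n l1157 (nat_lit 3715) (nat_lit 15) (nat_lit 2))))
  (@Cl.mk (nat_lit 0x200050003000d000c00080003000d0004000e00030002000b0008000e000d) (nat_lit 0x860106006170) (nat_lit 16) Lb.e (@T16.mk En
    (@En.n l3013 (nat_lit 3784) (nat_lit 12) (nat_lit 13))
    (@En.n l936 (nat_lit 3834) (nat_lit 1) (nat_lit 14))
    (@En.i (nat_lit 3264) (nat_lit 14) (nat_lit 8))
    (@En.n l4624 (nat_lit 10976) (nat_lit 3) (nat_lit 11))
    (@En.n l17 (nat_lit 3716) (nat_lit 4) (nat_lit 2))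
    (@En.i (nat_lit 3836) (nat_lit 5) (nat_lit 3))
    (@En.i (nat_lit 13673) (nat_lit 0) (nat_lit 14))
    (@En.n l17575 (nat_lit 3708) (nat_lit 7) (nat_lit 4))
    (@En.n l4003 (nat_lit 2331) (nat_lit 9) (nat_lit 13))
    (@En.n l16503 (nat_lit 3715) (nat_lit 9) (nat_lit 3))
    (@En.n l17576 (nat_lit 3938) (nat_lit 11) (nat_lit 8))
    (@En.n l16505 (nat_lit 3711) (nat_lit 12) (nat_lit 12))
    (@En.n l645 (nat_lit 5577) (nat_lit 13) (nat_lit 13))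
    (@En.n l936 (nat_lit 3784) (nat_lit 8) (nat_lit 3))
    (@En.n l17577 (nat_lit 4168) (nat_lit 9) (nat_lit 5))
    (@En.n l67 (nat_lit 3716) (nat_lit 15) (nat_lit 2))))
  (@Cl.mk (nat_lit 0x200050003000d0007000c0003000d000d000400030003000b0009000e000d) (nat_lit 0xb02024000807b) (nat_lit 16) Lb.e (@T16.mk En
    (@En.n l3013 (nat_lit 3719) (nat_lit 11) (nat_lit 13))
    (@En.n l936 (nat_lit 3832) (nat_lit 1) (nat_lit 14))
    (@En.i (nat_lit 3767) (nat_lit 2) (nat_lit 9))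
    (@En.n l2316 (nat_lit 8709) (nat_lit 3) (nat_lit 11))
    (@En.n l4253 (nat_lit 3837) (nat_lit 13) (nat_lit 3))
    (@En.n l11683 (nat_lit 3715) (nat_lit 5) (nat_lit 3))
    (@En.n l2316 (nat_lit 3793) (nat_lit 6) (nat_lit 4))
    (@En.n l11684 (nat_lit 3715) (nat_lit 8) (nat_lit 13))
    (@En.n l11396 (nat_lit 3798) (nat_lit 9) (nat_lit 13))
    (@En.i (nat_lit 3836) (nat_lit 9) (nat_lit 3))
    (@En.n l2316 (nat_lit 2721) (nat_lit 11) (nat_lit 12))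
    (@En.n l11396 (nat_lit 3907) (nat_lit 12) (nat_lit 7))
    (@En.n l645 (nat_lit 5573) (nat_lit 13) (nat_lit 13))
    (@En.n l936 (nat_lit 3719) (nat_lit 7) (nat_lit 3))
    (@En.n l17577 (nat_lit 2730) (nat_lit 0) (nat_lit 5))
    (@En.n l67 (nat_lit 3717) (nat_lit 15) (nat_lit 2))))
  (@Cl.mk (nat_lit 0x2000c0009000d000d000400030003000d0007000d0003000d0003000e0003) (nat_lit 0x70b000000a00050) (nat_lit 16) Lb.e (@T16.mk En
    (@En.i (nat_lit 3719) (nat_lit 15) (nat_lit 3))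
    (@En.i (nat_lit 13680) (nat_lit 0) (nat_lit 14))
    (@En.i (nat_lit 3713) (nat_lit 2) (nat_lit 3))
    (@En.i (nat_lit 3799) (nat_lit 0) (nat_lit 13))
    (@En.i (nat_lit 3784) (nat_lit 4) (nat_lit 3))
    (@En.i (nat_lit 963) (nat_lit 0) (nat_lit 13))
    (@En.i (nat_lit 665) (nat_lit 6) (nat_lit 7))
    (@En.i (nat_lit 6229) (nat_lit 8) (nat_lit 13))
    (@En.i (nat_lit 3715) (nat_lit 13) (nat_lit 3))
    (@En.n l152 (nat_lit 3778) (nat_lit 0) (nat_lit 3))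
    (@En.n l1992 (nat_lit 4070) (nat_lit 0) (nat_lit 4))
    (@En.n l619 (nat_lit 3778) (nat_lit 3) (nat_lit 13))
    (@En.i (nat_lit 4050) (nat_lit 13) (nat_lit 13))
    (@En.n l1769 (nat_lit 3763) (nat_lit 14) (nat_lit 9))
    (@En.i (nat_lit 8154) (nat_lit 12) (nat_lit 12))
    (@En.n l17 (nat_lit 3718) (nat_lit 15) (nat_lit 2))))
  (@Cl.mk (nat_lit 0x30003000c0009000d000d000400030003000d0007000c0003000d000d0004) (nat_lit 0x80ab0006010010) (nat_lit 16) Lb.e (@T16.mk En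
    (@En.i (nat_lit 3792) (nat_lit 0) (nat_lit 4))
    (@En.n l61 (nat_lit 3718) (nat_lit 3) (nat_lit 13))
    (@En.i (nat_lit 3796) (nat_lit 1) (nat_lit 13))
    (@En.i (nat_lit 3785) (nat_lit 3) (nat_lit 3))
    (@En.i (nat_lit 2722) (nat_lit 0) (nat_lit 12))
    (@En.i (nat_lit 667) (nat_lit 13) (nat_lit 7))
    (@En.i (nat_lit 6085) (nat_lit 7) (nat_lit 13))
    (@En.n l1483 (nat_lit 3717) (nat_lit 13) (nat_lit 3))
    (@En.n l152 (nat_lit 3780) (nat_lit 0) (nat_lit 3))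
    (@En.n l1992 (nat_lit 3841) (nat_lit 0) (nat_lit 4))
    (@En.n l619 (nat_lit 3780) (nat_lit 3) (nat_lit 13))
    (@En.i (nat_lit 4027) (nat_lit 1) (nat_lit 13))
    (@En.n l1769 (nat_lit 3764) (nat_lit 13) (nat_lit 9))
    (@En.i (nat_lit 8701) (nat_lit 14) (nat_lit 12))
    (@En.n l3519 (nat_lit 3839) (nat_lit 13) (nat_lit 3))
    (@En.n l18 (nat_lit 3718) (nat_lit 0) (nat_lit 3))))
  (@Cl.mk (nat_lit 0x2000a000800070005000d000d0006000300030008000e00090002000e000b) (nat_lit 0x7400230005b7054) (nat_lit 16) Lb.e (@T16.mk En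
    (@En.n l3208 (nat_lit 3270) (nat_lit 14) (nat_lit 11))
    (@En.n l2854 (nat_lit 2145) (nat_lit 1) (nat_lit 14))
    (@En.n l17 (nat_lit 3720) (nat_lit 2) (nat_lit 2))
    (@En.n l409 (nat_lit 2078) (nat_lit 3) (nat_lit 9))
    (@En.n l5 (nat_lit 3674) (nat_lit 5) (nat_lit 14))
    (@En.n l1040 (nat_lit 2122) (nat_lit 5) (nat_lit 8))
    (@En.n l6462 (nat_lit 3722) (nat_lit 13) (nat_lit 3))
    (@En.n l4112 (nat_lit 3721) (nat_lit 0) (nat_lit 3))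
    (@En.n l55 (nat_lit 2110) (nat_lit 0) (nat_lit 6))
    (@En.n l6463 (nat_lit 3721) (nat_lit 3) (nat_lit 13))
    (@En.n l11 (nat_lit 6467) (nat_lit 11) (nat_lit 13))
    (@En.n l1218 (nat_lit 3088) (nat_lit 8) (nat_lit 5))
    (@En.n l6464 (nat_lit 3280) (nat_lit 13) (nat_lit 7))
    (@En.n l1218 (nat_lit 3705) (nat_lit 14) (nat_lit 8))
    (@En.i (nat_lit 7006) (nat_lit 12) (nat_lit 10))
    (@En.n l3 (nat_lit 3720) (nat_lit 15) (nat_lit 2))))
  (@Cl.mk (nat_lit 0x20008000e00090002000e000b0002000b000800070005000d0005000e0003) (nat_lit 0x5b7054065002070) (nat_lit 16) Lb.e (@T16.mk En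
    (@En.n l5161 (nat_lit 3720) (nat_lit 7) (nat_lit 3))
    (@En.i (nat_lit 12907) (nat_lit 0) (nat_lit 14))
    (@En.n l5162 (nat_lit 1943) (nat_lit 2) (nat_lit 5))
    (@En.n l473 (nat_lit 6466) (nat_lit 11) (nat_lit 13))
    (@En.i (nat_lit 3089) (nat_lit 4) (nat_lit 5))
    (@En.i (nat_lit 3285) (nat_lit 13) (nat_lit 7))
    (@En.n l146 (nat_lit 4126) (nat_lit 6) (nat_lit 8))
    (@En.n l3424 (nat_lit 7005) (nat_lit 12) (nat_lit 11))
    (@En.n l28 (nat_lit 3721) (nat_lit 8) (nat_lit 2))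
    (@En.n l77 (nat_lit 3271) (nat_lit 10) (nat_lit 11))
    (@En.n l5163 (nat_lit 2144) (nat_lit 1) (nat_lit 14))
    (@En.n l67 (nat_lit 3721) (nat_lit 11) (nat_lit 2))
    (@En.n l477 (nat_lit 2079) (nat_lit 13) (nat_lit 9))
    (@En.n l5164 (nat_lit 4164) (nat_lit 5) (nat_lit 14))
    (@En.n l473 (nat_lit 3951) (nat_lit 5) (nat_lit 8))
    (@En.n l17 (nat_lit 3721) (nat_lit 15) (nat_lit 2))))
  (@Cl.mk (nat_lit 0x2000700030008000e00090002000e000b00020009000800070005000e000d) (nat_lit 0x2b20140760033) (nat_lit 16) Lb.e (@T16.mk En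
    (@En.n l2230 (nat_lit 3720) (nat_lit 10) (nat_lit 13))
    (@En.i (nat_lit 5734) (nat_lit 1) (nat_lit 14))
    (@En.i (nat_lit 3910) (nat_lit 2) (nat_lit 5))
    (@En.n l2231 (nat_lit 3282) (nat_lit 3) (nat_lit 7))
    (@En.i (nat_lit 3725) (nat_lit 14) (nat_lit 8))
    (@En.n l2232 (nat_lit 7668) (nat_lit 12) (nat_lit 9))
    (@En.n l11 (nat_lit 3722) (nat_lit 6) (nat_lit 2))
    (@En.n l2224 (nat_lit 3724) (nat_lit 8) (nat_lit 11))
    (@En.n l2233 (nat_lit 2195) (nat_lit 1) (nat_lit 14))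
    (@En.n l3 (nat_lit 3722) (nat_lit 9) (nat_lit 2))
    (@En.n l2234 (nat_lit 3723) (nat_lit 11) (nat_lit 9))
    (@En.n l2235 (nat_lit 4165) (nat_lit 12) (nat_lit 14))
    (@En.n l17 (nat_lit 4905) (nat_lit 5) (nat_lit 8))
    (@En.n l2236 (nat_lit 3720) (nat_lit 6) (nat_lit 3))
    (@En.n l699 (nat_lit 2098) (nat_lit 0) (nat_lit 7))
    (@En.n l50 (nat_lit 3722) (nat_lit 15) (nat_lit 2))))
  (@Cl.mk (nat_lit 0x200080003000900090009000e000a000200080007000700070006000e000d) (nat_lit 0x302111106000045) (nat_lit 16) Lb.e (@T16.mk En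
    (@En.n l6397 (nat_lit 2078) (nat_lit 9) (nat_lit 13))
    (@En.n l2544 (nat_lit 5736) (nat_lit 10) (nat_lit 14))
    (@En.n l6398 (nat_lit 3912) (nat_lit 2) (nat_lit 6))
    (@En.n l6399 (nat_lit 3722) (nat_lit 3) (nat_lit 7))
    (@En.n l6400 (nat_lit 4660) (nat_lit 4) (nat_lit 7))
    (@En.n l6401 (nat_lit 3681) (nat_lit 14) (nat_lit 7))
    (@En.n l6402 (nat_lit 5856) (nat_lit 6) (nat_lit 8))
    (@En.n l3 (nat_lit 3723) (nat_lit 7) (nat_lit 2))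
    (@En.n l6403 (nat_lit 3090) (nat_lit 9) (nat_lit 10))
    (@En.n l6404 (nat_lit 2449) (nat_lit 10) (nat_lit 14))
    (@En.n l6405 (nat_lit 2074) (nat_lit 2) (nat_lit 9))
    (@En.n l575 (nat_lit 3101) (nat_lit 3) (nat_lit 9))
    (@En.n l6406 (nat_lit 4782) (nat_lit 4) (nat_lit 9))
    (@En.n l6407 (nat_lit 2078) (nat_lit 5) (nat_lit 3))
    (@En.i (nat_lit 1907) (nat_lit 0) (nat_lit 8))
    (@En.n l50 (nat_lit 3723) (nat_lit 15) (nat_lit 2))))
  (@Cl.mk (nat_lit 0x2000800030009000e000a0002000b000b00080007000600050005000e000d) (nat_lit 0x305710351000045) (nat_lit 16) Lb.e (@T16.mk En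
    (@En.i (nat_lit 3270) (nat_lit 7) (nat_lit 13))
    (@En.i (nat_lit 3221) (nat_lit 1) (nat_lit 14))
    (@En.n l6368 (nat_lit 3722) (nat_lit 2) (nat_lit 5))
    (@En.n l4019 (nat_lit 3268) (nat_lit 3) (nat_lit 5))
    (@En.i (nat_lit 3277) (nat_lit 4) (nat_lit 6))
    (@En.i (nat_lit 3728) (nat_lit 12) (nat_lit 7))
    (@En.n l404 (nat_lit 1374) (nat_lit 6) (nat_lit 8))
    (@En.n l61 (nat_lit 4476) (nat_lit 8) (nat_lit 11))
    (@En.n l6369 (nat_lit 3320) (nat_lit 9) (nat_lit 11))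
    (@En.n l7 (nat_lit 3724) (nat_lit 9) (nat_lit 2))
    (@En.i (nat_lit 3090) (nat_lit 11) (nat_lit 10))
    (@En.n l2207 (nat_lit 4161) (nat_lit 12) (nat_lit 14))
    (@En.n l6372 (nat_lit 4899) (nat_lit 13) (nat_lit 9))
    (@En.n l117 (nat_lit 3270) (nat_lit 3) (nat_lit 3))
    (@En.i (nat_lit 1992) (nat_lit 0) (nat_lit 8))
    (@En.n l3 (nat_lit 3724) (nat_lit 15) (nat_lit 2))))
  (@Cl.mk (nat_lit 0x2000800060004000e000d0002000d000300080003000e000a0002000e000c) (nat_lit 0x500a302040b1022) (nat_lit 16) Lb.e (@T16.mk En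
    (@En.n l2224 (nat_lit 3728) (nat_lit 14) (nat_lit 12))
    (@En.n l615 (nat_lit 2204) (nat_lit 1) (nat_lit 14))
    (@En.n l3 (nat_lit 3725) (nat_lit 2) (nat_lit 2))
    (@En.n l2225 (nat_lit 3681) (nat_lit 3) (nat_lit 10))
    (@En.i (nat_lit 4132) (nat_lit 1) (nat_lit 14))
    (@En.n l2226 (nat_lit 3726) (nat_lit 5) (nat_lit 3))
    (@En.i (nat_lit 4904) (nat_lit 6) (nat_lit 8))
    (@En.i (nat_lit 3705) (nat_lit 7) (nat_lit 3))
    (@En.i (nat_lit 836) (nat_lit 0) (nat_lit 13))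
    (@En.n l50 (nat_lit 3725) (nat_lit 9) (nat_lit 2))
    (@En.n l396 (nat_lit 3705) (nat_lit 11) (nat_lit 13))
    (@En.i (nat_lit 11635) (nat_lit 1) (nat_lit 14))
    (@En.i (nat_lit 3808) (nat_lit 2) (nat_lit 4))
    (@En.n l2227 (nat_lit 4023) (nat_lit 14) (nat_lit 6))
    (@En.n l2228 (nat_lit 4003) (nat_lit 12) (nat_lit 8))
    (@En.n l11 (nat_lit 3725) (nat_lit 15) (nat_lit 2))))
  (@Cl.mk (nat_lit 0x2000900060004000e000c0002000d000700040003000e000a0002000e000c) (nat_lit 0x700c401000b1022) (nat_lit 16) Lb.e (@T16.mk En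
    (@En.n l681 (nat_lit 3729) (nat_lit 14) (nat_lit 12))
    (@En.n l682 (nat_lit 2207) (nat_lit 1) (nat_lit 14))
    (@En.n l17 (nat_lit 3726) (nat_lit 2) (nat_lit 2))
    (@En.n l683 (nat_lit 3683) (nat_lit 3) (nat_lit 10))
    (@En.n l5 (nat_lit 8647) (nat_lit 1) (nat_lit 14))
    (@En.n l684 (nat_lit 3725) (nat_lit 5) (nat_lit 3))
    (@En.n l685 (nat_lit 3699) (nat_lit 6) (nat_lit 4))
    (@En.n l686 (nat_lit 3722) (nat_lit 14) (nat_lit 7))
    (@En.n l687 (nat_lit 629) (nat_lit 9) (nat_lit 13))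
    (@En.n l28 (nat_lit 3726) (nat_lit 9) (nat_lit 2))
    (@En.n l688 (nat_lit 3700) (nat_lit 11) (nat_lit 12))
    (@En.i (nat_lit 11637) (nat_lit 1) (nat_lit 14))
    (@En.n l685 (nat_lit 3809) (nat_lit 2) (nat_lit 4))
    (@En.n l689 (nat_lit 4025) (nat_lit 14) (nat_lit 6))
    (@En.n l690 (nat_lit 7586) (nat_lit 12) (nat_lit 9))
    (@En.n l3 (nat_lit 3726) (nat_lit 15) (nat_lit 2))))
  (@Cl.mk (nat_lit 0x2000c000c0007000500040004000d000d000c0003000300090004000e000b) (nat_lit 0x110000ab20050c1) (nat_lit 16) Lb.e (@T16.mk En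
    (@En.i (nat_lit 2645) (nat_lit 11) (nat_lit 11))
    (@En.i (nat_lit 4130) (nat_lit 1) (nat_lit 14))
    (@En.n l2210 (nat_lit 2683) (nat_lit 2) (nat_lit 4))
    (@En.n l10592 (nat_lit 4564) (nat_lit 3) (nat_lit 9))
    (@En.n l152 (nat_lit 3728) (nat_lit 4) (nat_lit 3))
    (@En.n l117 (nat_lit 4088) (nat_lit 0) (nat_lit 3))
    (@En.n l619 (nat_lit 3729) (nat_lit 7) (nat_lit 12))
    (@En.i (nat_lit 4088) (nat_lit 3) (nat_lit 13))
    (@En.i (nat_lit 7907) (nat_lit 9) (nat_lit 13))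
    (@En.n l11100 (nat_lit 3705) (nat_lit 12) (nat_lit 4))
    (@En.n l11101 (nat_lit 3880) (nat_lit 10) (nat_lit 4))
    (@En.i (nat_lit 3827) (nat_lit 5) (nat_lit 5))
    (@En.n l4476 (nat_lit 3689) (nat_lit 13) (nat_lit 7))
    (@En.n l61 (nat_lit 2655) (nat_lit 14) (nat_lit 12))
    (@En.n l396 (nat_lit 2214) (nat_lit 9) (nat_lit 12))
    (@En.n l7 (nat_lit 3727) (nat_lit 15) (nat_lit 2))))
noncomputable def a233 : T16 Cl := @T16.mk Cl
  (@Cl.mk (nat_lit 0x2000c000c0007000500040004000e000d0002000d000300090003000e000b) (nat_lit 0x160000ab02050c1) (nat_lit 16) Lb.e (@T16.mk En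
    (@En.i (nat_lit 2651) (nat_lit 10) (nat_lit 11))
    (@En.n l4019 (nat_lit 4131) (nat_lit 1) (nat_lit 14))
    (@En.i (nat_lit 3729) (nat_lit 2) (nat_lit 3))
    (@En.n l4019 (nat_lit 4902) (nat_lit 3) (nat_lit 9))
    (@En.n l117 (nat_lit 3727) (nat_lit 4) (nat_lit 3))
    (@En.i (nat_lit 850) (nat_lit 0) (nat_lit 13))
    (@En.n l3 (nat_lit 3728) (nat_lit 6) (nat_lit 2))
    (@En.i (nat_lit 3727) (nat_lit 8) (nat_lit 13))
    (@En.i (nat_lit 7918) (nat_lit 1) (nat_lit 14))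
    (@En.n l6368 (nat_lit 3725) (nat_lit 12) (nat_lit 4))
    (@En.n l4019 (nat_lit 3732) (nat_lit 10) (nat_lit 4))
    (@En.i (nat_lit 4026) (nat_lit 4) (nat_lit 5))
    (@En.n l1347 (nat_lit 4000) (nat_lit 5) (nat_lit 7))
    (@En.n l61 (nat_lit 3730) (nat_lit 14) (nat_lit 12))
    (@En.n l6369 (nat_lit 2213) (nat_lit 8) (nat_lit 12))
    (@En.n l7 (nat_lit 3728) (nat_lit 15) (nat_lit 2))))
  (@Cl.mk (nat_lit 0x2000c000c0008000500040004000e000c0002000d000800040003000e000b) (nat_lit 0x101000c101400c1) (nat_lit 16) Lb.e (@T16.mk En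
    (@En.i (nat_lit 2652) (nat_lit 10) (nat_lit 11))
    (@En.n l2207 (nat_lit 8643) (nat_lit 1) (nat_lit 14))
    (@En.n l11 (nat_lit 3728) (nat_lit 2) (nat_lit 3))
    (@En.n l2208 (nat_lit 2680) (nat_lit 3) (nat_lit 4))
    (@En.i (nat_lit 3724) (nat_lit 14) (nat_lit 8))
    (@En.n l2209 (nat_lit 439) (nat_lit 6) (nat_lit 13))
    (@En.n l3 (nat_lit 3729) (nat_lit 6) (nat_lit 2))
    (@En.n l2210 (nat_lit 2683) (nat_lit 8) (nat_lit 12))
    (@En.i (nat_lit 7919) (nat_lit 1) (nat_lit 14))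
    (@En.n l1777 (nat_lit 3726) (nat_lit 12) (nat_lit 4))
    (@En.n l2208 (nat_lit 3733) (nat_lit 10) (nat_lit 4))
    (@En.i (nat_lit 3824) (nat_lit 4) (nat_lit 5))
    (@En.n l2211 (nat_lit 1377) (nat_lit 5) (nat_lit 8))
    (@En.n l61 (nat_lit 3731) (nat_lit 14) (nat_lit 12))
    (@En.n l2212 (nat_lit 2209) (nat_lit 8) (nat_lit 12))
    (@En.n l7 (nat_lit 3729) (nat_lit 15) (nat_lit 2))))
  (@Cl.mk (nat_lit 0x2000c00060004000e00040002000e000d0002000d0003000a0003000e000c) (nat_lit 0x500600a10205001) (nat_lit 16) Lb.e (@T16.mk En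
    (@En.n l644 (nat_lit 2648) (nat_lit 10) (nat_lit 12))
    (@En.i (nat_lit 5833) (nat_lit 1) (nat_lit 14))
    (@En.i (nat_lit 3731) (nat_lit 2) (nat_lit 3))
    (@En.i (nat_lit 4900) (nat_lit 3) (nat_lit 10))
    (@En.n l117 (nat_lit 2655) (nat_lit 4) (nat_lit 3))
    (@En.i (nat_lit 864) (nat_lit 0) (nat_lit 13))
    (@En.n l3 (nat_lit 3730) (nat_lit 6) (nat_lit 2))
    (@En.i (nat_lit 2655) (nat_lit 8) (nat_lit 13))
    (@En.i (nat_lit 8523) (nat_lit 1) (nat_lit 14))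
    (@En.n l17 (nat_lit 3730) (nat_lit 9) (nat_lit 2))
    (@En.i (nat_lit 3728) (nat_lit 10) (nat_lit 4))
    (@En.i (nat_lit 4719) (nat_lit 1) (nat_lit 14))
    (@En.i (nat_lit 4054) (nat_lit 5) (nat_lit 4))
    (@En.n l1347 (nat_lit 3939) (nat_lit 14) (nat_lit 6))
    (@En.n l3699 (nat_lit 4405) (nat_lit 8) (nat_lit 12))
    (@En.n l7 (nat_lit 3730) (nat_lit 15) (nat_lit 2))))
  (@Cl.mk (nat_lit 0x2000c00070004000e00040002000e000c0002000d000900040003000e000c) (nat_lit 0xa00600ca0130001) (nat_lit 16) Lb.e (@T16.mk En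
    (@En.n l644 (nat_lit 2653) (nat_lit 10) (nat_lit 12))
    (@En.n l287 (nat_lit 8645) (nat_lit 1) (nat_lit 14))
    (@En.n l11 (nat_lit 3730) (nat_lit 2) (nat_lit 3))
    (@En.n l2211 (nat_lit 2676) (nat_lit 3) (nat_lit 4))
    (@En.i (nat_lit 4476) (nat_lit 14) (nat_lit 9))
    (@En.n l4314 (nat_lit 675) (nat_lit 12) (nat_lit 13))
    (@En.n l3 (nat_lit 3731) (nat_lit 6) (nat_lit 2))
    (@En.i (nat_lit 2681) (nat_lit 8) (nat_lit 12))
    (@En.i (nat_lit 8522) (nat_lit 1) (nat_lit 14))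
    (@En.n l17 (nat_lit 3731) (nat_lit 9) (nat_lit 2))
    (@En.i (nat_lit 3729) (nat_lit 10) (nat_lit 4))
    (@En.i (nat_lit 4724) (nat_lit 1) (nat_lit 14))
    (@En.i (nat_lit 3828) (nat_lit 5) (nat_lit 4))
    (@En.n l2211 (nat_lit 3945) (nat_lit 14) (nat_lit 7))
    (@En.n l3699 (nat_lit 4398) (nat_lit 8) (nat_lit 12))
    (@En.n l7 (nat_lit 3731) (nat_lit 15) (nat_lit 2))))
  (@Cl.mk (nat_lit 0x2000c0003000d000800040003000e000d0002000d000300080003000e000d) (nat_lit 0x107500a3020409a) (nat_lit 16) Lb.e (@T16.mk En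
    (@En.i (nat_lit 3877) (nat_lit 10) (nat_lit 13))
    (@En.i (nat_lit 6978) (nat_lit 1) (nat_lit 14))
    (@En.n l2364 (nat_lit 3733) (nat_lit 2) (nat_lit 3))
    (@En.i (nat_lit 5330) (nat_lit 3) (nat_lit 8))
    (@En.i (nat_lit 3880) (nat_lit 4) (nat_lit 3))
    (@En.i (nat_lit 517) (nat_lit 0) (nat_lit 13))
    (@En.n l50 (nat_lit 3732) (nat_lit 6) (nat_lit 2))
    (@En.n l396 (nat_lit 3880) (nat_lit 8) (nat_lit 13))
    (@En.n l4316 (nat_lit 6165) (nat_lit 1) (nat_lit 14))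
    (@En.n l28 (nat_lit 3811) (nat_lit 2) (nat_lit 3))
    (@En.n l1393 (nat_lit 3730) (nat_lit 10) (nat_lit 4))
    (@En.i (nat_lit 4001) (nat_lit 4) (nat_lit 8))
    (@En.i (nat_lit 4720) (nat_lit 6) (nat_lit 13))
    (@En.n l117 (nat_lit 3877) (nat_lit 6) (nat_lit 3))
    (@En.i (nat_lit 2211) (nat_lit 0) (nat_lit 12))
    (@En.n l3 (nat_lit 3732) (nat_lit 15) (nat_lit 2))))
  (@Cl.mk (nat_lit 0x2000c0003000d000900040003000e000c0002000d000700040003000e000d) (nat_lit 0x200100240100099) (nat_lit 16) Lb.e (@T16.mk En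
    (@En.i (nat_lit 3874) (nat_lit 10) (nat_lit 13))
    (@En.i (nat_lit 8637) (nat_lit 1) (nat_lit 14))
    (@En.n l763 (nat_lit 3732) (nat_lit 2) (nat_lit 3))
    (@En.i (nat_lit 4057) (nat_lit 3) (nat_lit 4))
    (@En.n l1545 (nat_lit 3268) (nat_lit 14) (nat_lit 7))
    (@En.n l765 (nat_lit 508) (nat_lit 6) (nat_lit 13))
    (@En.n l50 (nat_lit 3733) (nat_lit 6) (nat_lit 2))
    (@En.n l217 (nat_lit 3887) (nat_lit 8) (nat_lit 12))
    (@En.n l1546 (nat_lit 6160) (nat_lit 1) (nat_lit 14))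
    (@En.n l28 (nat_lit 3814) (nat_lit 9) (nat_lit 3))
    (@En.n l1573 (nat_lit 3731) (nat_lit 10) (nat_lit 4))
    (@En.i (nat_lit 1378) (nat_lit 4) (nat_lit 9))
    (@En.i (nat_lit 4723) (nat_lit 6) (nat_lit 13))
    (@En.n l117 (nat_lit 3874) (nat_lit 6) (nat_lit 3))
    (@En.i (nat_lit 2210) (nat_lit 0) (nat_lit 12))
    (@En.n l3 (nat_lit 3733) (nat_lit 15) (nat_lit 2))))
  (@Cl.mk (nat_lit 0x200050003000c0009000c00090004000e000400020007000b0007000e000d) (nat_lit 0xa1930a00060a2) (nat_lit 16) Lb.e (@T16.mk En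
    (@En.n l4542 (nat_lit 3326) (nat_lit 11) (nat_lit 13))
    (@En.n l1459 (nat_lit 3735) (nat_lit 12) (nat_lit 14))
    (@En.n l4343 (nat_lit 3321) (nat_lit 13) (nat_lit 7))
    (@En.i (nat_lit 8579) (nat_lit 3) (nat_lit 11))
    (@En.n l252 (nat_lit 3215) (nat_lit 4) (nat_lit 7))
    (@En.n l50 (nat_lit 3734) (nat_lit 5) (nat_lit 2))
    (@En.n l7 (nat_lit 3215) (nat_lit 6) (nat_lit 4))
    (@En.n l5559 (nat_lit 4686) (nat_lit 8) (nat_lit 14))
    (@En.n l2266 (nat_lit 551) (nat_lit 8) (nat_lit 4))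
    (@En.i (nat_lit 7404) (nat_lit 10) (nat_lit 9))
    (@En.n l4343 (nat_lit 3716) (nat_lit 11) (nat_lit 12))
    (@En.n l3967 (nat_lit 1005) (nat_lit 12) (nat_lit 9))
    (@En.i (nat_lit 5059) (nat_lit 13) (nat_lit 12))
    (@En.n l1459 (nat_lit 3326) (nat_lit 7) (nat_lit 3))
    (@En.i (nat_lit 3468) (nat_lit 8) (nat_lit 5))
    (@En.n l3 (nat_lit 3734) (nat_lit 15) (nat_lit 2))))
  (@Cl.mk (nat_lit 0x20007000b000e000c0002000a00050004000c0009000c00060004000e0004) (nat_lit 0x69708009490050) (nat_lit 16) Lb.e (@T16.mk En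
    (@En.n l7 (nat_lit 3213) (nat_lit 5) (nat_lit 4))
    (@En.n l396 (nat_lit 4758) (nat_lit 1) (nat_lit 14))
    (@En.n l7 (nat_lit 548) (nat_lit 2) (nat_lit 4))
    (@En.i (nat_lit 7150) (nat_lit 3) (nat_lit 6))
    (@En.i (nat_lit 3834) (nat_lit 10) (nat_lit 12))
    (@En.n l420 (nat_lit 1000) (nat_lit 5) (nat_lit 9))
    (@En.n l645 (nat_lit 7580) (nat_lit 7) (nat_lit 12))
    (@En.i (nat_lit 859) (nat_lit 7) (nat_lit 4))
    (@En.n l4624 (nat_lit 3734) (nat_lit 14) (nat_lit 5))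
    (@En.n l575 (nat_lit 3129) (nat_lit 10) (nat_lit 10))
    (@En.n l67 (nat_lit 3735) (nat_lit 10) (nat_lit 2))
    (@En.n l68 (nat_lit 3333) (nat_lit 12) (nat_lit 12))
    (@En.n l4003 (nat_lit 3201) (nat_lit 4) (nat_lit 14))
    (@En.n l9718 (nat_lit 8581) (nat_lit 2) (nat_lit 11))
    (@En.n l4600 (nat_lit 3213) (nat_lit 3) (nat_lit 7))
    (@En.n l18 (nat_lit 3735) (nat_lit 15) (nat_lit 2))))
  (@Cl.mk (nat_lit 0x20005000c0009000c00080004000e000400020007000c000b0008000e0004) (nat_lit 0x81930500057690) (nat_lit 16) Lb.e (@T16.mk En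
    (@En.n l152 (nat_lit 3333) (nat_lit 9) (nat_lit 4))
    (@En.n l5859 (nat_lit 3737) (nat_lit 11) (nat_lit 14))
    (@En.n l5411 (nat_lit 3117) (nat_lit 12) (nat_lit 8))
    (@En.n l19986 (nat_lit 3734) (nat_lit 3) (nat_lit 11))
    (@En.n l19987 (nat_lit 6402) (nat_lit 14) (nat_lit 12))
    (@En.n l19988 (nat_lit 3212) (nat_lit 5) (nat_lit 7))
    (@En.n l18 (nat_lit 3736) (nat_lit 6) (nat_lit 2))
    (@En.n l19989 (nat_lit 3212) (nat_lit 7) (nat_lit 4))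
    (@En.n l4003 (nat_lit 4675) (nat_lit 9) (nat_lit 14))
    (@En.n l7 (nat_lit 599) (nat_lit 9) (nat_lit 4))
    (@En.n l16851 (nat_lit 7049) (nat_lit 3) (nat_lit 8))
    (@En.i (nat_lit 4071) (nat_lit 12) (nat_lit 12))
    (@En.n l2873 (nat_lit 907) (nat_lit 13) (nat_lit 9))
    (@En.n l10008 (nat_lit 7509) (nat_lit 7) (nat_lit 12))
    (@En.n l4976 (nat_lit 3200) (nat_lit 13) (nat_lit 5))
    (@En.n l3 (nat_lit 3736) (nat_lit 15) (nat_lit 2))))
  (@Cl.mk (nat_lit 0x20007000d000b000e00030002000b0005000c0009000c00050004000e0004) (nat_lit 0xb78009083a0050) (nat_lit 16) Lb.e (@T16.mk En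
    (@En.n l7 (nat_lit 862) (nat_lit 6) (nat_lit 4))
    (@En.n l5369 (nat_lit 4756) (nat_lit 1) (nat_lit 14))
    (@En.n l7 (nat_lit 511) (nat_lit 2) (nat_lit 4))
    (@En.n l7805 (nat_lit 6133) (nat_lit 3) (nat_lit 5))
    (@En.i (nat_lit 4055) (nat_lit 11) (nat_lit 12))
    (@En.n l25349 (nat_lit 908) (nat_lit 5) (nat_lit 9))
    (@En.n l9956 (nat_lit 5931) (nat_lit 7) (nat_lit 12))
    (@En.n l117 (nat_lit 3736) (nat_lit 14) (nat_lit 5))
    (@En.n l7705 (nat_lit 3127) (nat_lit 9) (nat_lit 11))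
    (@En.n l67 (nat_lit 3737) (nat_lit 9) (nat_lit 2))
    (@En.n l107 (nat_lit 859) (nat_lit 10) (nat_lit 3))
    (@En.n l12094 (nat_lit 12831) (nat_lit 0) (nat_lit 14))
    (@En.i (nat_lit 3735) (nat_lit 13) (nat_lit 11))
    (@En.n l12094 (nat_lit 6399) (nat_lit 14) (nat_lit 13))
    (@En.n l4600 (nat_lit 862) (nat_lit 4) (nat_lit 7))
    (@En.n l18 (nat_lit 3737) (nat_lit 15) (nat_lit 2))))
  (@Cl.mk (nat_lit 0x200090005000d0009000c0003000d0007000400030007000d000b000e0003) (nat_lit 0xa020900004460) (nat_lit 16) Lb.e (@T16.mk En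
    (@En.n l107 (nat_lit 3741) (nat_lit 15) (nat_lit 3))
    (@En.n l12094 (nat_lit 12823) (nat_lit 0) (nat_lit 14))
    (@En.n l9718 (nat_lit 3740) (nat_lit 2) (nat_lit 11))
    (@En.n l7808 (nat_lit 4334) (nat_lit 4) (nat_lit 13))
    (@En.n l9721 (nat_lit 3745) (nat_lit 4) (nat_lit 7))
    (@En.n l9380 (nat_lit 3746) (nat_lit 5) (nat_lit 3))
    (@En.i (nat_lit 3737) (nat_lit 0) (nat_lit 4))
    (@En.n l9718 (nat_lit 6186) (nat_lit 7) (nat_lit 7))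
    (@En.n l32296 (nat_lit 4676) (nat_lit 9) (nat_lit 13))
    (@En.n l13382 (nat_lit 4273) (nat_lit 9) (nat_lit 3))
    (@En.i (nat_lit 4090) (nat_lit 11) (nat_lit 12))
    (@En.n l26316 (nat_lit 4270) (nat_lit 12) (nat_lit 9))
    (@En.n l9956 (nat_lit 3983) (nat_lit 13) (nat_lit 13))
    (@En.n l4624 (nat_lit 3739) (nat_lit 14) (nat_lit 5))
    (@En.n l9718 (nat_lit 4295) (nat_lit 14) (nat_lit 9))
    (@En.n l67 (nat_lit 3738) (nat_lit 15) (nat_lit 2))))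
  (@Cl.mk (nat_lit 0x20005000d0009000c0003000d000a000400030007000c000b0006000e0004) (nat_lit 0xa0900600005070) (nat_lit 16) Lb.e (@T16.mk En
    (@En.n l16861 (nat_lit 3742) (nat_lit 9) (nat_lit 4))
    (@En.n l1459 (nat_lit 3738) (nat_lit 1) (nat_lit 14))
    (@En.n l6670 (nat_lit 3259) (nat_lit 2) (nat_lit 6))
    (@En.i (nat_lit 3743) (nat_lit 3) (nat_lit 11))
    (@En.n l117 (nat_lit 4329) (nat_lit 5) (nat_lit 12))
    (@En.n l612 (nat_lit 3858) (nat_lit 5) (nat_lit 7))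
    (@En.n l50 (nat_lit 3857) (nat_lit 6) (nat_lit 3))
    (@En.n l16862 (nat_lit 3736) (nat_lit 7) (nat_lit 4))
    (@En.n l217 (nat_lit 6665) (nat_lit 9) (nat_lit 10))
    (@En.n l16863 (nat_lit 4674) (nat_lit 10) (nat_lit 13))
    (@En.i (nat_lit 4266) (nat_lit 10) (nat_lit 3))
    (@En.n l12871 (nat_lit 4089) (nat_lit 12) (nat_lit 12))
    (@En.n l16864 (nat_lit 4268) (nat_lit 13) (nat_lit 9))
    (@En.n l6670 (nat_lit 10875) (nat_lit 14) (nat_lit 13))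
    (@En.n l107 (nat_lit 1366) (nat_lit 13) (nat_lit 5))
    (@En.n l3 (nat_lit 3739) (nat_lit 15) (nat_lit 2))))
  (@Cl.mk (nat_lit 0x2000800050004000d0009000c0003000d0008000400030007000b000e000c) (nat_lit 0x300a19055000342) (nat_lit 16) Lb.e (@T16.mk En
    (@En.n l15182 (nat_lit 3742) (nat_lit 12) (nat_lit 12))
    (@En.i (nat_lit 2744) (nat_lit 4) (nat_lit 14))
    (@En.i (nat_lit 8333) (nat_lit 2) (nat_lit 11))
    (@En.n l612 (nat_lit 4252) (nat_lit 3) (nat_lit 7))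
    (@En.n l50 (nat_lit 4253) (nat_lit 4) (nat_lit 3))
    (@En.n l1459 (nat_lit 3735) (nat_lit 0) (nat_lit 4))
    (@En.i (nat_lit 6189) (nat_lit 6) (nat_lit 8))
    (@En.n l3327 (nat_lit 4734) (nat_lit 8) (nat_lit 13))
    (@En.n l2259 (nat_lit 1031) (nat_lit 8) (nat_lit 3))
    (@En.n l1459 (nat_lit 4086) (nat_lit 10) (nat_lit 12))
    (@En.n l6658 (nat_lit 1030) (nat_lit 11) (nat_lit 9))
    (@En.i (nat_lit 11486) (nat_lit 12) (nat_lit 13))
    (@En.n l1459 (nat_lit 3741) (nat_lit 12) (nat_lit 4))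
    (@En.n l17 (nat_lit 3743) (nat_lit 14) (nat_lit 5))
    (@En.i (nat_lit 4239) (nat_lit 5) (nat_lit 8))
    (@En.n l3 (nat_lit 3740) (nat_lit 15) (nat_lit 2))))
  (@Cl.mk (nat_lit 0x3000300090004000d0009000c0003000d0007000400030007000d000d000c) (nat_lit 0xa22080000455) (nat_lit 16) Lb.e (@T16.mk En
    (@En.n l619 (nat_lit 3868) (nat_lit 0) (nat_lit 12))
    (@En.n l97 (nat_lit 3738) (nat_lit 3) (nat_lit 13))
    (@En.n l10536 (nat_lit 8874) (nat_lit 2) (nat_lit 13))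
    (@En.n l28684 (nat_lit 3747) (nat_lit 3) (nat_lit 7))
    (@En.n l28685 (nat_lit 4280) (nat_lit 4) (nat_lit 3))
    (@En.i (nat_lit 859) (nat_lit 0) (nat_lit 4))
    (@En.n l14326 (nat_lit 6182) (nat_lit 6) (nat_lit 7))
    (@En.n l11391 (nat_lit 4685) (nat_lit 1) (nat_lit 13))
    (@En.n l13382 (nat_lit 4277) (nat_lit 8) (nat_lit 3))
    (@En.i (nat_lit 2655) (nat_lit 0) (nat_lit 12))
    (@En.n l7987 (nat_lit 4274) (nat_lit 11) (nat_lit 9))
    (@En.n l3528 (nat_lit 3984) (nat_lit 12) (nat_lit 13))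
    (@En.n l13379 (nat_lit 3742) (nat_lit 7) (nat_lit 4))
    (@En.n l14326 (nat_lit 4240) (nat_lit 14) (nat_lit 9))
    (@En.n l152 (nat_lit 4283) (nat_lit 13) (nat_lit 3))
    (@En.i (nat_lit 3738) (nat_lit 0) (nat_lit 3))))
  (@Cl.mk (nat_lit 0x30007000c000c000c0007000400040004000d0009000c0003000d00090004) (nat_lit 0x31500004020850) (nat_lit 16) Lb.e (@T16.mk En
    (@En.n l27080 (nat_lit 3333) (nat_lit 0) (nat_lit 4))
    (@En.i (nat_lit 6669) (nat_lit 14) (nat_lit 9))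
    (@En.n l11409 (nat_lit 4677) (nat_lit 1) (nat_lit 13))
    (@En.n l27081 (nat_lit 3860) (nat_lit 3) (nat_lit 3))
    (@En.n l27080 (nat_lit 2681) (nat_lit 0) (nat_lit 12))
    (@En.n l18264 (nat_lit 3861) (nat_lit 5) (nat_lit 9))
    (@En.n l5801 (nat_lit 10250) (nat_lit 7) (nat_lit 13))
    (@En.n l11407 (nat_lit 3740) (nat_lit 12) (nat_lit 4))
    (@En.n l27082 (nat_lit 3868) (nat_lit 12) (nat_lit 4))
    (@En.i (nat_lit 3744) (nat_lit 0) (nat_lit 4))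
    (@En.n l27080 (nat_lit 3019) (nat_lit 0) (nat_lit 7))
    (@En.n l742 (nat_lit 3331) (nat_lit 4) (nat_lit 12))
    (@En.n l14697 (nat_lit 3739) (nat_lit 4) (nat_lit 12))
    (@En.n l3517 (nat_lit 8330) (nat_lit 14) (nat_lit 12))
    (@En.i (nat_lit 3873) (nat_lit 12) (nat_lit 7))
    (@En.n l28 (nat_lit 3872) (nat_lit 15) (nat_lit 3))))
  (@Cl.mk (nat_lit 0x200050003000d0009000c0003000d000b000400030007000b0005000e000d) (nat_lit 0xa110370004057) (nat_lit 16) Lb.e (@T16.mk En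
    (@En.n l4130 (nat_lit 3744) (nat_lit 2) (nat_lit 13))
    (@En.i (nat_lit 3740) (nat_lit 1) (nat_lit 14))
    (@En.i (nat_lit 4196) (nat_lit 2) (nat_lit 5))
    (@En.i (nat_lit 8337) (nat_lit 3) (nat_lit 11))
    (@En.n l612 (nat_lit 4258) (nat_lit 4) (nat_lit 7))
    (@En.n l50 (nat_lit 4256) (nat_lit 5) (nat_lit 3))
    (@En.i (nat_lit 3734) (nat_lit 6) (nat_lit 4))
    (@En.n l217 (nat_lit 7329) (nat_lit 8) (nat_lit 11))
    (@En.i (nat_lit 4680) (nat_lit 9) (nat_lit 13))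
    (@En.i (nat_lit 4261) (nat_lit 9) (nat_lit 3))
    (@En.i (nat_lit 2682) (nat_lit 11) (nat_lit 12))
    (@En.i (nat_lit 1015) (nat_lit 12) (nat_lit 9))
    (@En.i (nat_lit 11419) (nat_lit 13) (nat_lit 13))
    (@En.n l2832 (nat_lit 3744) (nat_lit 14) (nat_lit 3))
    (@En.i (nat_lit 3469) (nat_lit 0) (nat_lit 5))
    (@En.n l3 (nat_lit 3743) (nat_lit 15) (nat_lit 2))))
noncomputable def a234 : T16 Cl := @T16.mk Cl
  (@Cl.mk (nat_lit 0x30003000d0009000c0003000d000b000400030007000c0005000d000d0004) (nat_lit 0x8020a800030670) (nat_lit 16) Lb.e (@T16.mk En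
    (@En.n l11245 (nat_lit 3739) (nat_lit 0) (nat_lit 4))
    (@En.n l61 (nat_lit 3002) (nat_lit 3) (nat_lit 13))
    (@En.n l8329 (nat_lit 3741) (nat_lit 1) (nat_lit 13))
    (@En.n l28 (nat_lit 3042) (nat_lit 3) (nat_lit 5))
    (@En.n l3517 (nat_lit 8310) (nat_lit 14) (nat_lit 12))
    (@En.i (nat_lit 3001) (nat_lit 5) (nat_lit 7))
    (@En.n l28 (nat_lit 3005) (nat_lit 6) (nat_lit 3))
    (@En.n l8329 (nat_lit 3326) (nat_lit 0) (nat_lit 4))
    (@En.i (nat_lit 7330) (nat_lit 9) (nat_lit 11))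
    (@En.i (nat_lit 4679) (nat_lit 1) (nat_lit 13))
    (@En.n l117 (nat_lit 4263) (nat_lit 10) (nat_lit 3))
    (@En.n l2038 (nat_lit 2677) (nat_lit 6) (nat_lit 12))
    (@En.i (nat_lit 4264) (nat_lit 13) (nat_lit 9))
    (@En.i (nat_lit 10884) (nat_lit 2) (nat_lit 13))
    (@En.n l3519 (nat_lit 3743) (nat_lit 13) (nat_lit 3))
    (@En.n l18 (nat_lit 3002) (nat_lit 0) (nat_lit 3))))
  (@Cl.mk (nat_lit 0x200080005000c0009000d000c00040003000800040007000d000b000e0003) (nat_lit 0x72b300600a3b0) (nat_lit 16) Lb.e (@T16.mk En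
    (@En.n l35365 (nat_lit 3747) (nat_lit 15) (nat_lit 3))
    (@En.n l2652 (nat_lit 12822) (nat_lit 0) (nat_lit 14))
    (@En.i (nat_lit 4252) (nat_lit 2) (nat_lit 11))
    (@En.n l117 (nat_lit 4333) (nat_lit 12) (nat_lit 13))
    (@En.n l4269 (nat_lit 3067) (nat_lit 11) (nat_lit 7))
    (@En.n l16088 (nat_lit 862) (nat_lit 5) (nat_lit 4))
    (@En.n l35366 (nat_lit 6188) (nat_lit 6) (nat_lit 8))
    (@En.n l7 (nat_lit 3746) (nat_lit 7) (nat_lit 3))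
    (@En.n l24486 (nat_lit 2756) (nat_lit 8) (nat_lit 4))
    (@En.n l7270 (nat_lit 3738) (nat_lit 10) (nat_lit 12))
    (@En.n l9450 (nat_lit 3881) (nat_lit 11) (nat_lit 13))
    (@En.n l22867 (nat_lit 4271) (nat_lit 12) (nat_lit 9))
    (@En.n l33437 (nat_lit 5431) (nat_lit 13) (nat_lit 12))
    (@En.n l17 (nat_lit 3858) (nat_lit 14) (nat_lit 5))
    (@En.n l22763 (nat_lit 4251) (nat_lit 14) (nat_lit 8))
    (@En.n l3 (nat_lit 3745) (nat_lit 15) (nat_lit 2))))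
  (@Cl.mk (nat_lit 0x200080005000d0009000d0003000d0003000800030007000d000b000e0003) (nat_lit 0xa0b0600a4b0) (nat_lit 16) Lb.e (@T16.mk En
    (@En.n l16861 (nat_lit 4280) (nat_lit 15) (nat_lit 3))
    (@En.n l2652 (nat_lit 12821) (nat_lit 0) (nat_lit 14))
    (@En.i (nat_lit 4253) (nat_lit 2) (nat_lit 11))
    (@En.n l117 (nat_lit 4331) (nat_lit 12) (nat_lit 13))
    (@En.n l22207 (nat_lit 3794) (nat_lit 4) (nat_lit 7))
    (@En.n l1459 (nat_lit 3738) (nat_lit 5) (nat_lit 3))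
    (@En.n l2644 (nat_lit 5552) (nat_lit 0) (nat_lit 8))
    (@En.i (nat_lit 3745) (nat_lit 7) (nat_lit 3))
    (@En.n l22208 (nat_lit 4737) (nat_lit 0) (nat_lit 13))
    (@En.n l21257 (nat_lit 4278) (nat_lit 9) (nat_lit 3))
    (@En.n l12871 (nat_lit 3883) (nat_lit 11) (nat_lit 13))
    (@En.n l22209 (nat_lit 4272) (nat_lit 12) (nat_lit 9))
    (@En.n l11131 (nat_lit 3982) (nat_lit 13) (nat_lit 13))
    (@En.n l17 (nat_lit 3857) (nat_lit 14) (nat_lit 5))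
    (@En.i (nat_lit 4250) (nat_lit 14) (nat_lit 8))
    (@En.n l3 (nat_lit 3746) (nat_lit 15) (nat_lit 2))))
  (@Cl.mk (nat_lit 0x3000300080004000c0009000d000c00040003000800040007000d000d000c) (nat_lit 0x72b300600ab5) (nat_lit 16) Lb.e (@T16.mk En
    (@En.n l24947 (nat_lit 3871) (nat_lit 0) (nat_lit 12))
    (@En.n l20387 (nat_lit 3745) (nat_lit 3) (nat_lit 13))
    (@En.n l8048 (nat_lit 8873) (nat_lit 12) (nat_lit 13))
    (@En.n l39732 (nat_lit 3798) (nat_lit 11) (nat_lit 7))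
    (@En.n l27893 (nat_lit 857) (nat_lit 4) (nat_lit 4))
    (@En.n l8047 (nat_lit 6181) (nat_lit 5) (nat_lit 8))
    (@En.n l39733 (nat_lit 4280) (nat_lit 6) (nat_lit 3))
    (@En.n l4172 (nat_lit 2758) (nat_lit 0) (nat_lit 4))
    (@En.n l4344 (nat_lit 3741) (nat_lit 9) (nat_lit 12))
    (@En.n l25357 (nat_lit 3875) (nat_lit 10) (nat_lit 13))
    (@En.n l7584 (nat_lit 4275) (nat_lit 11) (nat_lit 9))
    (@En.n l33660 (nat_lit 5429) (nat_lit 12) (nat_lit 12))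
    (@En.n l24743 (nat_lit 3873) (nat_lit 5) (nat_lit 4))
    (@En.n l39734 (nat_lit 4242) (nat_lit 14) (nat_lit 8))
    (@En.n l39735 (nat_lit 4282) (nat_lit 13) (nat_lit 3))
    (@En.n l3492 (nat_lit 3745) (nat_lit 0) (nat_lit 3))))
  (@Cl.mk (nat_lit 0x2000c000c000c000a000400040004000c000a0006000e00040002000e0006) (nat_lit 0xaa13000980c0020) (nat_lit 16) Lb.e (@T16.mk En
    (@En.i (nat_lit 1169) (nat_lit 14) (nat_lit 6))
    (@En.n l5 (nat_lit 325) (nat_lit 1) (nat_lit 14))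
    (@En.n l50 (nat_lit 3748) (nat_lit 2) (nat_lit 2))
    (@En.n l7 (nat_lit 2654) (nat_lit 3) (nat_lit 4))
    (@En.i (nat_lit 688) (nat_lit 1) (nat_lit 14))
    (@En.n l685 (nat_lit 1950) (nat_lit 5) (nat_lit 6))
    (@En.i (nat_lit 3807) (nat_lit 3) (nat_lit 10))
    (@En.i (nat_lit 7982) (nat_lit 8) (nat_lit 12))
    (@En.n l11 (nat_lit 3710) (nat_lit 12) (nat_lit 4))
    (@En.n l152 (nat_lit 678) (nat_lit 12) (nat_lit 4))
    (@En.n l936 (nat_lit 1168) (nat_lit 10) (nat_lit 4))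
    (@En.i (nat_lit 3940) (nat_lit 12) (nat_lit 10))
    (@En.n l619 (nat_lit 679) (nat_lit 4) (nat_lit 12))
    (@En.n l6045 (nat_lit 3750) (nat_lit 4) (nat_lit 12))
    (@En.i (nat_lit 8516) (nat_lit 12) (nat_lit 12))
    (@En.n l17 (nat_lit 3748) (nat_lit 15) (nat_lit 2))))
  (@Cl.mk (nat_lit 0x2000c0005000c000a0004000e00040002000e00060002000d000b000e0003) (nat_lit 0x70980c00100a190) (nat_lit 16) Lb.e (@T16.mk En
    (@En.n l107 (nat_lit 2644) (nat_lit 11) (nat_lit 3))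
    (@En.n l830 (nat_lit 12844) (nat_lit 0) (nat_lit 14))
    (@En.i (nat_lit 3710) (nat_lit 2) (nat_lit 11))
    (@En.i (nat_lit 9769) (nat_lit 12) (nat_lit 13))
    (@En.n l17 (nat_lit 3749) (nat_lit 4) (nat_lit 2))
    (@En.n l16714 (nat_lit 2646) (nat_lit 14) (nat_lit 6))
    (@En.n l5 (nat_lit 313) (nat_lit 1) (nat_lit 14))
    (@En.n l50 (nat_lit 3749) (nat_lit 7) (nat_lit 2))
    (@En.n l7 (nat_lit 2649) (nat_lit 8) (nat_lit 4))
    (@En.i (nat_lit 2755) (nat_lit 1) (nat_lit 14))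
    (@En.n l8880 (nat_lit 3937) (nat_lit 10) (nat_lit 4))
    (@En.n l2552 (nat_lit 3891) (nat_lit 12) (nat_lit 10))
    (@En.n l1865 (nat_lit 5343) (nat_lit 8) (nat_lit 12))
    (@En.n l1422 (nat_lit 3750) (nat_lit 14) (nat_lit 5))
    (@En.i (nat_lit 3139) (nat_lit 10) (nat_lit 12))
    (@En.n l67 (nat_lit 3749) (nat_lit 15) (nat_lit 2))))
  (@Cl.mk (nat_lit 0x20005000c000a0007000e00040002000e00060002000c000b0009000e0004) (nat_lit 0x880c00100914a0) (nat_lit 16) Lb.e (@T16.mk En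
    (@En.n l8951 (nat_lit 3748) (nat_lit 10) (nat_lit 4))
    (@En.n l8952 (nat_lit 3749) (nat_lit 1) (nat_lit 14))
    (@En.n l644 (nat_lit 3942) (nat_lit 2) (nat_lit 9))
    (@En.i (nat_lit 3709) (nat_lit 3) (nat_lit 11))
    (@En.i (nat_lit 9771) (nat_lit 12) (nat_lit 12))
    (@En.n l3 (nat_lit 3750) (nat_lit 5) (nat_lit 2))
    (@En.i (nat_lit 1170) (nat_lit 6) (nat_lit 6))
    (@En.n l3410 (nat_lit 906) (nat_lit 8) (nat_lit 14))
    (@En.n l17 (nat_lit 3750) (nat_lit 8) (nat_lit 2))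
    (@En.n l137 (nat_lit 3751) (nat_lit 9) (nat_lit 4))
    (@En.n l108 (nat_lit 2754) (nat_lit 11) (nat_lit 14))
    (@En.i (nat_lit 4182) (nat_lit 12) (nat_lit 7))
    (@En.n l8953 (nat_lit 3888) (nat_lit 13) (nat_lit 10))
    (@En.n l8954 (nat_lit 12796) (nat_lit 8) (nat_lit 12))
    (@En.n l8955 (nat_lit 2987) (nat_lit 13) (nat_lit 5))
    (@En.n l28 (nat_lit 3750) (nat_lit 15) (nat_lit 2))))
  (@Cl.mk (nat_lit 0x20005000c000c000b000800040004000e00050002000c000b0008000e0004) (nat_lit 0x799300600a7690) (nat_lit 16) Lb.e (@T16.mk En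
    (@En.n l19015 (nat_lit 2654) (nat_lit 10) (nat_lit 4))
    (@En.n l14016 (nat_lit 2649) (nat_lit 1) (nat_lit 14))
    (@En.n l6958 (nat_lit 1953) (nat_lit 2) (nat_lit 8))
    (@En.n l2863 (nat_lit 3708) (nat_lit 3) (nat_lit 11))
    (@En.n l4909 (nat_lit 9749) (nat_lit 5) (nat_lit 12))
    (@En.n l28 (nat_lit 3751) (nat_lit 5) (nat_lit 2))
    (@En.i (nat_lit 2974) (nat_lit 6) (nat_lit 5))
    (@En.n l21234 (nat_lit 3736) (nat_lit 8) (nat_lit 14))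
    (@En.n l152 (nat_lit 4089) (nat_lit 8) (nat_lit 4))
    (@En.n l21235 (nat_lit 3752) (nat_lit 9) (nat_lit 4))
    (@En.n l681 (nat_lit 3273) (nat_lit 11) (nat_lit 8))
    (@En.n l21236 (nat_lit 3826) (nat_lit 12) (nat_lit 11))
    (@En.n l148 (nat_lit 3750) (nat_lit 13) (nat_lit 12))
    (@En.n l17194 (nat_lit 5878) (nat_lit 8) (nat_lit 12))
    (@En.n l15574 (nat_lit 2903) (nat_lit 13) (nat_lit 5))
    (@En.n l18 (nat_lit 3751) (nat_lit 15) (nat_lit 2))))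
  (@Cl.mk (nat_lit 0x20005000c0006000d000c00040003000e00040002000c000b000a000e0004) (nat_lit 0x70b20050079280) (nat_lit 16) Lb.e (@T16.mk En
    (@En.n l152 (nat_lit 3756) (nat_lit 10) (nat_lit 4))
    (@En.n l5859 (nat_lit 3753) (nat_lit 1) (nat_lit 14))
    (@En.n l6000 (nat_lit 3754) (nat_lit 13) (nat_lit 10))
    (@En.n l2691 (nat_lit 3711) (nat_lit 3) (nat_lit 11))
    (@En.i (nat_lit 9761) (nat_lit 5) (nat_lit 12))
    (@En.n l17 (nat_lit 3752) (nat_lit 5) (nat_lit 2))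
    (@En.n l50 (nat_lit 3846) (nat_lit 6) (nat_lit 4))
    (@En.n l5 (nat_lit 599) (nat_lit 8) (nat_lit 14))
    (@En.n l50 (nat_lit 4070) (nat_lit 8) (nat_lit 3))
    (@En.n l6045 (nat_lit 3750) (nat_lit 9) (nat_lit 4))
    (@En.n l217 (nat_lit 3841) (nat_lit 11) (nat_lit 12))
    (@En.i (nat_lit 1154) (nat_lit 12) (nat_lit 13))
    (@En.i (nat_lit 1164) (nat_lit 13) (nat_lit 6))
    (@En.n l5579 (nat_lit 5877) (nat_lit 14) (nat_lit 12))
    (@En.n l4976 (nat_lit 2895) (nat_lit 13) (nat_lit 5))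
    (@En.n l3 (nat_lit 3752) (nat_lit 15) (nat_lit 2))))
  (@Cl.mk (nat_lit 0x2000d0005000c0003000d000c00040003000e00040002000d000b000e0003) (nat_lit 0x2080b2005009870) (nat_lit 16) Lb.e (@T16.mk En
    (@En.n l107 (nat_lit 3755) (nat_lit 11) (nat_lit 3))
    (@En.n l830 (nat_lit 13070) (nat_lit 0) (nat_lit 14))
    (@En.i (nat_lit 3712) (nat_lit 14) (nat_lit 11))
    (@En.i (nat_lit 10188) (nat_lit 2) (nat_lit 13))
    (@En.n l17 (nat_lit 3753) (nat_lit 4) (nat_lit 2))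
    (@En.n l7161 (nat_lit 3760) (nat_lit 5) (nat_lit 4))
    (@En.n l5 (nat_lit 511) (nat_lit 1) (nat_lit 14))
    (@En.n l50 (nat_lit 4052) (nat_lit 7) (nat_lit 3))
    (@En.i (nat_lit 3749) (nat_lit 8) (nat_lit 4))
    (@En.n l7162 (nat_lit 3845) (nat_lit 10) (nat_lit 12))
    (@En.i (nat_lit 1146) (nat_lit 11) (nat_lit 13))
    (@En.i (nat_lit 3754) (nat_lit 6) (nat_lit 3))
    (@En.n l1865 (nat_lit 5876) (nat_lit 0) (nat_lit 12))
    (@En.n l117 (nat_lit 3752) (nat_lit 14) (nat_lit 5))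
    (@En.i (nat_lit 3338) (nat_lit 10) (nat_lit 13))
    (@En.n l67 (nat_lit 3753) (nat_lit 15) (nat_lit 2))))
  (@Cl.mk (nat_lit 0x2000d000a000e00030002000d000b00060003000d000c00050003000e0004) (nat_lit 0x91a002700a40010) (nat_lit 16) Lb.e (@T16.mk En
    (@En.n l24358 (nat_lit 3759) (nat_lit 5) (nat_lit 4))
    (@En.n l5 (nat_lit 504) (nat_lit 1) (nat_lit 14))
    (@En.n l50 (nat_lit 4048) (nat_lit 2) (nat_lit 3))
    (@En.n l1422 (nat_lit 3942) (nat_lit 8) (nat_lit 5))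
    (@En.n l7162 (nat_lit 4045) (nat_lit 10) (nat_lit 12))
    (@En.n l1798 (nat_lit 4065) (nat_lit 11) (nat_lit 13))
    (@En.n l28 (nat_lit 3753) (nat_lit 11) (nat_lit 3))
    (@En.n l12617 (nat_lit 679) (nat_lit 7) (nat_lit 6))
    (@En.i (nat_lit 2649) (nat_lit 14) (nat_lit 11))
    (@En.i (nat_lit 3335) (nat_lit 10) (nat_lit 13))
    (@En.n l67 (nat_lit 3754) (nat_lit 10) (nat_lit 2))
    (@En.n l107 (nat_lit 3757) (nat_lit 11) (nat_lit 3))
    (@En.n l1798 (nat_lit 13068) (nat_lit 0) (nat_lit 14))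
    (@En.i (nat_lit 1372) (nat_lit 14) (nat_lit 10))
    (@En.n l14488 (nat_lit 10163) (nat_lit 2) (nat_lit 13))
    (@En.n l17 (nat_lit 3754) (nat_lit 15) (nat_lit 2))))
  (@Cl.mk (nat_lit 0x2000d000d000c00030003000d0004000c0003000d000c00040003000e0004) (nat_lit 0x9aa001080b20050) (nat_lit 16) Lb.e (@T16.mk En
    (@En.n l50 (nat_lit 3761) (nat_lit 4) (nat_lit 4))
    (@En.n l5 (nat_lit 513) (nat_lit 1) (nat_lit 14))
    (@En.n l50 (nat_lit 4050) (nat_lit 2) (nat_lit 3))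
    (@En.i (nat_lit 2644) (nat_lit 3) (nat_lit 4))
    (@En.n l217 (nat_lit 4027) (nat_lit 9) (nat_lit 12))
    (@En.i (nat_lit 691) (nat_lit 6) (nat_lit 13))
    (@En.i (nat_lit 3757) (nat_lit 6) (nat_lit 3))
    (@En.i (nat_lit 4517) (nat_lit 0) (nat_lit 12))
    (@En.i (nat_lit 3756) (nat_lit 8) (nat_lit 4))
    (@En.i (nat_lit 3339) (nat_lit 10) (nat_lit 13))
    (@En.n l152 (nat_lit 4056) (nat_lit 13) (nat_lit 3))
    (@En.i (nat_lit 3753) (nat_lit 0) (nat_lit 3))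
    (@En.n l619 (nat_lit 3831) (nat_lit 0) (nat_lit 12))
    (@En.n l97 (nat_lit 3753) (nat_lit 3) (nat_lit 13))
    (@En.i (nat_lit 10189) (nat_lit 2) (nat_lit 13))
    (@En.n l17 (nat_lit 3755) (nat_lit 15) (nat_lit 2))))
  (@Cl.mk (nat_lit 0x2000c000c000c000b000400040004000c0005000d000c00040003000e0004) (nat_lit 0x88a300080b20050) (nat_lit 16) Lb.e (@T16.mk En
    (@En.n l50 (nat_lit 3818) (nat_lit 5) (nat_lit 4))
    (@En.n l5 (nat_lit 544) (nat_lit 1) (nat_lit 14))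
    (@En.n l50 (nat_lit 3820) (nat_lit 2) (nat_lit 3))
    (@En.i (nat_lit 3748) (nat_lit 3) (nat_lit 4))
    (@En.n l217 (nat_lit 3819) (nat_lit 4) (nat_lit 12))
    (@En.i (nat_lit 692) (nat_lit 6) (nat_lit 13))
    (@En.i (nat_lit 2670) (nat_lit 6) (nat_lit 5))
    (@En.i (nat_lit 5887) (nat_lit 8) (nat_lit 12))
    (@En.n l11 (nat_lit 3712) (nat_lit 8) (nat_lit 4))
    (@En.n l152 (nat_lit 3831) (nat_lit 12) (nat_lit 4))
    (@En.n l936 (nat_lit 3713) (nat_lit 10) (nat_lit 4))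
    (@En.n l55 (nat_lit 3757) (nat_lit 12) (nat_lit 11))
    (@En.n l619 (nat_lit 3776) (nat_lit 4) (nat_lit 12))
    (@En.i (nat_lit 3752) (nat_lit 4) (nat_lit 12))
    (@En.i (nat_lit 8498) (nat_lit 12) (nat_lit 12))
    (@En.n l17 (nat_lit 3756) (nat_lit 15) (nat_lit 2))))
  (@Cl.mk (nat_lit 0x2000d000d000b00030003000d000b00050003000d000c00050003000e0004) (nat_lit 0x9a2008700b40010) (nat_lit 16) Lb.e (@T16.mk En
    (@En.n l50 (nat_lit 3758) (nat_lit 4) (nat_lit 4))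
    (@En.n l5 (nat_lit 506) (nat_lit 1) (nat_lit 14))
    (@En.n l50 (nat_lit 4044) (nat_lit 2) (nat_lit 3))
    (@En.n l28 (nat_lit 3940) (nat_lit 3) (nat_lit 5))
    (@En.n l217 (nat_lit 4046) (nat_lit 9) (nat_lit 12))
    (@En.n l601 (nat_lit 4063) (nat_lit 6) (nat_lit 13))
    (@En.n l28 (nat_lit 3755) (nat_lit 6) (nat_lit 3))
    (@En.i (nat_lit 2672) (nat_lit 7) (nat_lit 5))
    (@En.i (nat_lit 2650) (nat_lit 9) (nat_lit 11))
    (@En.i (nat_lit 3331) (nat_lit 10) (nat_lit 13))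
    (@En.n l152 (nat_lit 4057) (nat_lit 13) (nat_lit 3))
    (@En.i (nat_lit 3754) (nat_lit 11) (nat_lit 3))
    (@En.n l97 (nat_lit 2680) (nat_lit 0) (nat_lit 11))
    (@En.n l97 (nat_lit 3754) (nat_lit 14) (nat_lit 13))
    (@En.i (nat_lit 10165) (nat_lit 2) (nat_lit 13))
    (@En.n l17 (nat_lit 3757) (nat_lit 15) (nat_lit 2))))
  (@Cl.mk (nat_lit 0x30003000d000a00050003000c000c000c0006000400040004000d000d000b) (nat_lit 0x94002350000302) (nat_lit 16) Lb.e (@T16.mk En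
    (@En.n l97 (nat_lit 2683) (nat_lit 0) (nat_lit 11))
    (@En.n l11622 (nat_lit 3759) (nat_lit 3) (nat_lit 13))
    (@En.i (nat_lit 8642) (nat_lit 2) (nat_lit 13))
    (@En.n l2781 (nat_lit 3884) (nat_lit 12) (nat_lit 4))
    (@En.n l2172 (nat_lit 3874) (nat_lit 12) (nat_lit 4))
    (@En.i (nat_lit 4046) (nat_lit 5) (nat_lit 4))
    (@En.n l2781 (nat_lit 3263) (nat_lit 0) (nat_lit 6))
    (@En.n l742 (nat_lit 3757) (nat_lit 4) (nat_lit 12))
    (@En.n l396 (nat_lit 3853) (nat_lit 4) (nat_lit 12))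
    (@En.i (nat_lit 5998) (nat_lit 10) (nat_lit 12))
    (@En.n l28 (nat_lit 3761) (nat_lit 10) (nat_lit 3))
    (@En.n l15691 (nat_lit 2654) (nat_lit 0) (nat_lit 5))
    (@En.i (nat_lit 2645) (nat_lit 13) (nat_lit 10))
    (@En.i (nat_lit 3742) (nat_lit 2) (nat_lit 13))
    (@En.n l152 (nat_lit 3887) (nat_lit 13) (nat_lit 3))
    (@En.n l5161 (nat_lit 3759) (nat_lit 0) (nat_lit 3))))
  (@Cl.mk (nat_lit 0x2000d000a00060003000c000c000c0006000400040004000d000a000e0003) (nat_lit 0x74002350000b1a0) (nat_lit 16) Lb.e (@T16.mk En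
    (@En.n l2853 (nat_lit 3758) (nat_lit 15) (nat_lit 3))
    (@En.n l5171 (nat_lit 13454) (nat_lit 0) (nat_lit 14))
    (@En.n l6464 (nat_lit 1373) (nat_lit 2) (nat_lit 10))
    (@En.n l2224 (nat_lit 8738) (nat_lit 2) (nat_lit 13))
    (@En.n l237 (nat_lit 3885) (nat_lit 12) (nat_lit 4))
    (@En.n l10506 (nat_lit 3879) (nat_lit 12) (nat_lit 4))
    (@En.n l2855 (nat_lit 4045) (nat_lit 6) (nat_lit 4))
    (@En.n l2224 (nat_lit 3261) (nat_lit 7) (nat_lit 6))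
    (@En.n l19161 (nat_lit 3754) (nat_lit 4) (nat_lit 12))
    (@En.n l10412 (nat_lit 3852) (nat_lit 4) (nat_lit 12))
    (@En.n l19166 (nat_lit 6101) (nat_lit 11) (nat_lit 12))
    (@En.n l14709 (nat_lit 3760) (nat_lit 11) (nat_lit 3))
    (@En.n l2054 (nat_lit 3748) (nat_lit 0) (nat_lit 6))
    (@En.n l2855 (nat_lit 3076) (nat_lit 14) (nat_lit 10))
    (@En.n l2727 (nat_lit 3860) (nat_lit 2) (nat_lit 13))
    (@En.n l17 (nat_lit 3759) (nat_lit 15) (nat_lit 2))))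
noncomputable def a235 : T16 Cl := @T16.mk Cl
  (@Cl.mk (nat_lit 0x2000d0005000b0003000c000c000c0005000400040004000d000b000e0003) (nat_lit 0x90801a300003870) (nat_lit 16) Lb.e (@T16.mk En
    (@En.n l152 (nat_lit 3761) (nat_lit 15) (nat_lit 3))
    (@En.n l3471 (nat_lit 13455) (nat_lit 0) (nat_lit 14))
    (@En.n l97 (nat_lit 3587) (nat_lit 2) (nat_lit 11))
    (@En.i (nat_lit 8737) (nat_lit 2) (nat_lit 13))
    (@En.n l11542 (nat_lit 3589) (nat_lit 12) (nat_lit 4))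
    (@En.n l6088 (nat_lit 3891) (nat_lit 5) (nat_lit 4))
    (@En.i (nat_lit 3845) (nat_lit 6) (nat_lit 4))
    (@En.n l11091 (nat_lit 3082) (nat_lit 7) (nat_lit 5))
    (@En.n l7422 (nat_lit 3753) (nat_lit 9) (nat_lit 12))
    (@En.n l396 (nat_lit 3849) (nat_lit 4) (nat_lit 12))
    (@En.n l7 (nat_lit 1151) (nat_lit 11) (nat_lit 12))
    (@En.n l11622 (nat_lit 3759) (nat_lit 11) (nat_lit 3))
    (@En.n l11623 (nat_lit 4821) (nat_lit 0) (nat_lit 11))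
    (@En.i (nat_lit 3846) (nat_lit 14) (nat_lit 5))
    (@En.i (nat_lit 3859) (nat_lit 2) (nat_lit 13))
    (@En.n l3 (nat_lit 3760) (nat_lit 15) (nat_lit 2))))
  (@Cl.mk (nat_lit 0x30003000d0004000b0003000c000c000c0005000400040004000d000d000c) (nat_lit 0x80701a3000004a) (nat_lit 16) Lb.e (@T16.mk En
    (@En.n l619 (nat_lit 3816) (nat_lit 0) (nat_lit 12))
    (@En.i (nat_lit 3760) (nat_lit 3) (nat_lit 13))
    (@En.i (nat_lit 8640) (nat_lit 2) (nat_lit 13))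
    (@En.n l2781 (nat_lit 3588) (nat_lit 12) (nat_lit 4))
    (@En.n l2172 (nat_lit 3815) (nat_lit 12) (nat_lit 4))
    (@En.i (nat_lit 4027) (nat_lit 5) (nat_lit 4))
    (@En.n l2781 (nat_lit 3083) (nat_lit 0) (nat_lit 5))
    (@En.n l742 (nat_lit 3755) (nat_lit 4) (nat_lit 12))
    (@En.n l396 (nat_lit 3851) (nat_lit 4) (nat_lit 12))
    (@En.n l7 (nat_lit 1152) (nat_lit 10) (nat_lit 12))
    (@En.i (nat_lit 3758) (nat_lit 10) (nat_lit 3))
    (@En.i (nat_lit 4819) (nat_lit 0) (nat_lit 11))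
    (@En.i (nat_lit 3818) (nat_lit 13) (nat_lit 4))
    (@En.i (nat_lit 3872) (nat_lit 2) (nat_lit 13))
    (@En.n l152 (nat_lit 3817) (nat_lit 13) (nat_lit 3))
    (@En.n l117 (nat_lit 3760) (nat_lit 0) (nat_lit 3))))
  (@Cl.mk (nat_lit 0x20009000d000d000b00030003000b00070005000d000c00050003000e0004) (nat_lit 0x612300900b60060) (nat_lit 16) Lb.e (@T16.mk En
    (@En.n l15799 (nat_lit 3691) (nat_lit 5) (nat_lit 4))
    (@En.n l5 (nat_lit 556) (nat_lit 1) (nat_lit 14))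
    (@En.n l50 (nat_lit 3763) (nat_lit 2) (nat_lit 3))
    (@En.n l685 (nat_lit 3275) (nat_lit 3) (nat_lit 5))
    (@En.n l217 (nat_lit 3764) (nat_lit 4) (nat_lit 12))
    (@En.n l1596 (nat_lit 7032) (nat_lit 6) (nat_lit 13))
    (@En.i (nat_lit 3756) (nat_lit 6) (nat_lit 5))
    (@En.n l14174 (nat_lit 3648) (nat_lit 7) (nat_lit 7))
    (@En.n l5579 (nat_lit 6248) (nat_lit 9) (nat_lit 11))
    (@En.n l11 (nat_lit 3770) (nat_lit 9) (nat_lit 3))
    (@En.n l5870 (nat_lit 3771) (nat_lit 10) (nat_lit 3))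
    (@En.n l55 (nat_lit 1372) (nat_lit 12) (nat_lit 11))
    (@En.n l2691 (nat_lit 3771) (nat_lit 13) (nat_lit 13))
    (@En.n l5859 (nat_lit 3338) (nat_lit 14) (nat_lit 13))
    (@En.n l13031 (nat_lit 7285) (nat_lit 3) (nat_lit 9))
    (@En.n l17 (nat_lit 3762) (nat_lit 15) (nat_lit 2))))
  (@Cl.mk (nat_lit 0x20009000d000d000b00030003000c00070005000d0004000d0003000e0003) (nat_lit 0x712300700a05060) (nat_lit 16) Lb.e (@T16.mk En
    (@En.i (nat_lit 3764) (nat_lit 15) (nat_lit 3))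
    (@En.i (nat_lit 13656) (nat_lit 0) (nat_lit 14))
    (@En.i (nat_lit 3762) (nat_lit 2) (nat_lit 3))
    (@En.n l1448 (nat_lit 3686) (nat_lit 0) (nat_lit 13))
    (@En.i (nat_lit 3260) (nat_lit 4) (nat_lit 4))
    (@En.n l1596 (nat_lit 7030) (nat_lit 6) (nat_lit 13))
    (@En.i (nat_lit 3820) (nat_lit 6) (nat_lit 5))
    (@En.n l1448 (nat_lit 3797) (nat_lit 7) (nat_lit 7))
    (@En.n l5579 (nat_lit 4502) (nat_lit 9) (nat_lit 12))
    (@En.n l11 (nat_lit 3765) (nat_lit 9) (nat_lit 3))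
    (@En.n l5870 (nat_lit 3766) (nat_lit 10) (nat_lit 3))
    (@En.n l55 (nat_lit 1371) (nat_lit 12) (nat_lit 11))
    (@En.n l2691 (nat_lit 3766) (nat_lit 13) (nat_lit 13))
    (@En.n l5859 (nat_lit 3004) (nat_lit 14) (nat_lit 13))
    (@En.i (nat_lit 7290) (nat_lit 3) (nat_lit 9))
    (@En.n l17 (nat_lit 3763) (nat_lit 15) (nat_lit 2))))
  (@Cl.mk (nat_lit 0x300030009000d000d000b00030003000c00070005000c0004000d000d0004) (nat_lit 0x70230020050560) (nat_lit 16) Lb.e (@T16.mk En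
    (@En.i (nat_lit 3775) (nat_lit 0) (nat_lit 4))
    (@En.n l61 (nat_lit 3763) (nat_lit 3) (nat_lit 13))
    (@En.n l11396 (nat_lit 3687) (nat_lit 1) (nat_lit 13))
    (@En.n l19348 (nat_lit 3263) (nat_lit 3) (nat_lit 4))
    (@En.n l1596 (nat_lit 7035) (nat_lit 11) (nat_lit 12))
    (@En.i (nat_lit 3819) (nat_lit 5) (nat_lit 5))
    (@En.n l11396 (nat_lit 3796) (nat_lit 13) (nat_lit 7))
    (@En.n l5579 (nat_lit 4491) (nat_lit 8) (nat_lit 12))
    (@En.n l11 (nat_lit 3767) (nat_lit 13) (nat_lit 3))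
    (@En.n l5870 (nat_lit 3768) (nat_lit 0) (nat_lit 3))
    (@En.n l55 (nat_lit 1370) (nat_lit 0) (nat_lit 11))
    (@En.n l2691 (nat_lit 3768) (nat_lit 3) (nat_lit 13))
    (@En.n l936 (nat_lit 4260) (nat_lit 13) (nat_lit 13))
    (@En.i (nat_lit 7202) (nat_lit 3) (nat_lit 9))
    (@En.n l30518 (nat_lit 3769) (nat_lit 13) (nat_lit 3))
    (@En.n l18 (nat_lit 3763) (nat_lit 0) (nat_lit 3))))
  (@Cl.mk (nat_lit 0x20009000e000d0002000c0003000c00070004000d0004000d0003000e0003) (nat_lit 0x712040700a05030) (nat_lit 16) Lb.e (@T16.mk En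
    (@En.i (nat_lit 3767) (nat_lit 4) (nat_lit 3))
    (@En.i (nat_lit 13657) (nat_lit 0) (nat_lit 14))
    (@En.i (nat_lit 3770) (nat_lit 2) (nat_lit 3))
    (@En.n l1448 (nat_lit 4001) (nat_lit 8) (nat_lit 13))
    (@En.i (nat_lit 3264) (nat_lit 4) (nat_lit 4))
    (@En.n l1445 (nat_lit 7066) (nat_lit 10) (nat_lit 13))
    (@En.i (nat_lit 3833) (nat_lit 6) (nat_lit 4))
    (@En.n l1448 (nat_lit 3800) (nat_lit 7) (nat_lit 7))
    (@En.n l3638 (nat_lit 5596) (nat_lit 9) (nat_lit 12))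
    (@En.i (nat_lit 3763) (nat_lit 9) (nat_lit 3))
    (@En.n l8015 (nat_lit 3327) (nat_lit 11) (nat_lit 12))
    (@En.n l67 (nat_lit 3765) (nat_lit 11) (nat_lit 2))
    (@En.n l68 (nat_lit 3763) (nat_lit 13) (nat_lit 13))
    (@En.n l3638 (nat_lit 967) (nat_lit 1) (nat_lit 14))
    (@En.i (nat_lit 7217) (nat_lit 2) (nat_lit 9))
    (@En.n l17 (nat_lit 3765) (nat_lit 15) (nat_lit 2))))
  (@Cl.mk (nat_lit 0x20009000d000a000e00030002000c00070006000d0004000d0003000e0003) (nat_lit 0x11c00000a01060) (nat_lit 16) Lb.e (@T16.mk En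
    (@En.i (nat_lit 3768) (nat_lit 6) (nat_lit 3))
    (@En.n l476 (nat_lit 13686) (nat_lit 0) (nat_lit 14))
    (@En.i (nat_lit 3771) (nat_lit 2) (nat_lit 3))
    (@En.i (nat_lit 3684) (nat_lit 10) (nat_lit 13))
    (@En.i (nat_lit 3262) (nat_lit 4) (nat_lit 4))
    (@En.n l476 (nat_lit 7027) (nat_lit 6) (nat_lit 13))
    (@En.n l1769 (nat_lit 3777) (nat_lit 13) (nat_lit 6))
    (@En.i (nat_lit 3795) (nat_lit 14) (nat_lit 7))
    (@En.i (nat_lit 4501) (nat_lit 9) (nat_lit 12))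
    (@En.n l11 (nat_lit 3766) (nat_lit 9) (nat_lit 2))
    (@En.n l1992 (nat_lit 3763) (nat_lit 10) (nat_lit 3))
    (@En.n l2038 (nat_lit 12984) (nat_lit 0) (nat_lit 14))
    (@En.n l2576 (nat_lit 3695) (nat_lit 13) (nat_lit 10))
    (@En.i (nat_lit 3003) (nat_lit 14) (nat_lit 13))
    (@En.i (nat_lit 7291) (nat_lit 4) (nat_lit 9))
    (@En.n l17 (nat_lit 3766) (nat_lit 15) (nat_lit 2))))
  (@Cl.mk (nat_lit 0x2000c0003000c00070004000c0004000d000d0004000300030009000e000d) (nat_lit 0x406003046000761) (nat_lit 16) Lb.e (@T16.mk En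
    (@En.n l68 (nat_lit 3764) (nat_lit 12) (nat_lit 13))
    (@En.n l17060 (nat_lit 2722) (nat_lit 1) (nat_lit 14))
    (@En.n l18369 (nat_lit 7219) (nat_lit 2) (nat_lit 9))
    (@En.n l11548 (nat_lit 3773) (nat_lit 13) (nat_lit 3))
    (@En.n l18 (nat_lit 3765) (nat_lit 0) (nat_lit 3))
    (@En.n l25406 (nat_lit 3967) (nat_lit 0) (nat_lit 4))
    (@En.n l61 (nat_lit 3765) (nat_lit 3) (nat_lit 13))
    (@En.n l11396 (nat_lit 3965) (nat_lit 8) (nat_lit 13))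
    (@En.n l12112 (nat_lit 3265) (nat_lit 8) (nat_lit 4))
    (@En.i (nat_lit 7060) (nat_lit 10) (nat_lit 12))
    (@En.i (nat_lit 3832) (nat_lit 10) (nat_lit 4))
    (@En.n l11396 (nat_lit 3799) (nat_lit 12) (nat_lit 7))
    (@En.n l3638 (nat_lit 5581) (nat_lit 13) (nat_lit 12))
    (@En.i (nat_lit 3764) (nat_lit 8) (nat_lit 3))
    (@En.n l8015 (nat_lit 3324) (nat_lit 0) (nat_lit 12))
    (@En.n l67 (nat_lit 3767) (nat_lit 15) (nat_lit 2))))
  (@Cl.mk (nat_lit 0x2000c00070006000c0004000d000d0004000300030009000d000a000e0003) (nat_lit 0x7002052000012c0) (nat_lit 16) Lb.e (@T16.mk En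
    (@En.n l1992 (nat_lit 3764) (nat_lit 9) (nat_lit 3))
    (@En.n l2038 (nat_lit 12983) (nat_lit 0) (nat_lit 14))
    (@En.n l2576 (nat_lit 3694) (nat_lit 2) (nat_lit 10))
    (@En.i (nat_lit 3005) (nat_lit 13) (nat_lit 13))
    (@En.n l5801 (nat_lit 7292) (nat_lit 4) (nat_lit 9))
    (@En.n l3519 (nat_lit 3772) (nat_lit 13) (nat_lit 3))
    (@En.n l18 (nat_lit 3766) (nat_lit 0) (nat_lit 3))
    (@En.n l11245 (nat_lit 3961) (nat_lit 0) (nat_lit 4))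
    (@En.n l61 (nat_lit 3766) (nat_lit 3) (nat_lit 13))
    (@En.i (nat_lit 3685) (nat_lit 10) (nat_lit 13))
    (@En.i (nat_lit 3261) (nat_lit 10) (nat_lit 4))
    (@En.n l3517 (nat_lit 7033) (nat_lit 12) (nat_lit 12))
    (@En.n l1769 (nat_lit 3644) (nat_lit 13) (nat_lit 6))
    (@En.i (nat_lit 3794) (nat_lit 14) (nat_lit 7))
    (@En.i (nat_lit 4494) (nat_lit 8) (nat_lit 12))
    (@En.n l11 (nat_lit 3768) (nat_lit 15) (nat_lit 2))))
  (@Cl.mk (nat_lit 0x2000500030009000d000d000b00030003000c00070005000b0004000e000d) (nat_lit 0xab3003003046) (nat_lit 16) Lb.e (@T16.mk En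
    (@En.n l26694 (nat_lit 3764) (nat_lit 2) (nat_lit 13))
    (@En.n l15664 (nat_lit 3963) (nat_lit 1) (nat_lit 14))
    (@En.i (nat_lit 3266) (nat_lit 2) (nat_lit 4))
    (@En.n l6654 (nat_lit 7058) (nat_lit 3) (nat_lit 11))
    (@En.n l9458 (nat_lit 3593) (nat_lit 4) (nat_lit 5))
    (@En.i (nat_lit 3798) (nat_lit 5) (nat_lit 7))
    (@En.i (nat_lit 4492) (nat_lit 7) (nat_lit 12))
    (@En.n l152 (nat_lit 3773) (nat_lit 7) (nat_lit 3))
    (@En.n l6586 (nat_lit 3772) (nat_lit 8) (nat_lit 3))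
    (@En.n l619 (nat_lit 1369) (nat_lit 10) (nat_lit 11))
    (@En.n l12843 (nat_lit 3772) (nat_lit 11) (nat_lit 13))
    (@En.n l6654 (nat_lit 4257) (nat_lit 12) (nat_lit 13))
    (@En.n l25267 (nat_lit 7013) (nat_lit 13) (nat_lit 9))
    (@En.n l15557 (nat_lit 3764) (nat_lit 14) (nat_lit 3))
    (@En.n l6654 (nat_lit 3237) (nat_lit 0) (nat_lit 5))
    (@En.n l50 (nat_lit 3769) (nat_lit 15) (nat_lit 2))))
  (@Cl.mk (nat_lit 0x20009000e000d0002000c0003000b00070004000d000c00050003000e0004) (nat_lit 0x752040900b40010) (nat_lit 16) Lb.e (@T16.mk En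
    (@En.n l15799 (nat_lit 3774) (nat_lit 4) (nat_lit 4))
    (@En.n l5 (nat_lit 554) (nat_lit 1) (nat_lit 14))
    (@En.n l50 (nat_lit 3765) (nat_lit 2) (nat_lit 3))
    (@En.n l25406 (nat_lit 3287) (nat_lit 3) (nat_lit 5))
    (@En.n l217 (nat_lit 3767) (nat_lit 9) (nat_lit 12))
    (@En.n l1445 (nat_lit 7054) (nat_lit 10) (nat_lit 13))
    (@En.i (nat_lit 3712) (nat_lit 6) (nat_lit 4))
    (@En.n l14174 (nat_lit 3805) (nat_lit 7) (nat_lit 7))
    (@En.n l3638 (nat_lit 5597) (nat_lit 9) (nat_lit 11))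
    (@En.i (nat_lit 3762) (nat_lit 9) (nat_lit 3))
    (@En.n l8015 (nat_lit 3329) (nat_lit 0) (nat_lit 12))
    (@En.n l67 (nat_lit 3770) (nat_lit 11) (nat_lit 2))
    (@En.n l68 (nat_lit 3762) (nat_lit 13) (nat_lit 13))
    (@En.n l3638 (nat_lit 2898) (nat_lit 1) (nat_lit 14))
    (@En.n l13031 (nat_lit 7289) (nat_lit 2) (nat_lit 9))
    (@En.n l17 (nat_lit 3770) (nat_lit 15) (nat_lit 2))))
  (@Cl.mk (nat_lit 0x20009000d000a000e00030002000b00070006000d000c00050003000e0004) (nat_lit 0x11c00900b30060) (nat_lit 16) Lb.e (@T16.mk En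
    (@En.n l50 (nat_lit 3690) (nat_lit 6) (nat_lit 4))
    (@En.n l998 (nat_lit 570) (nat_lit 1) (nat_lit 14))
    (@En.n l50 (nat_lit 3766) (nat_lit 2) (nat_lit 3))
    (@En.i (nat_lit 3286) (nat_lit 3) (nat_lit 5))
    (@En.n l217 (nat_lit 3768) (nat_lit 11) (nat_lit 12))
    (@En.n l476 (nat_lit 7031) (nat_lit 6) (nat_lit 13))
    (@En.n l1769 (nat_lit 3776) (nat_lit 13) (nat_lit 6))
    (@En.i (nat_lit 3647) (nat_lit 14) (nat_lit 7))
    (@En.i (nat_lit 6250) (nat_lit 9) (nat_lit 11))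
    (@En.n l11 (nat_lit 3771) (nat_lit 9) (nat_lit 2))
    (@En.n l1992 (nat_lit 3762) (nat_lit 10) (nat_lit 3))
    (@En.n l2038 (nat_lit 12985) (nat_lit 0) (nat_lit 14))
    (@En.n l2576 (nat_lit 3693) (nat_lit 2) (nat_lit 10))
    (@En.i (nat_lit 3339) (nat_lit 14) (nat_lit 13))
    (@En.i (nat_lit 7286) (nat_lit 4) (nat_lit 9))
    (@En.n l17 (nat_lit 3771) (nat_lit 15) (nat_lit 2))))
  (@Cl.mk (nat_lit 0x2000500030009000d000a000e00030002000c00070006000b0004000e000d) (nat_lit 0xa2a000002046) (nat_lit 16) Lb.e (@T16.mk En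
    (@En.n l4130 (nat_lit 3768) (nat_lit 9) (nat_lit 13))
    (@En.i (nat_lit 3962) (nat_lit 1) (nat_lit 14))
    (@En.i (nat_lit 3267) (nat_lit 2) (nat_lit 4))
    (@En.i (nat_lit 7064) (nat_lit 3) (nat_lit 11))
    (@En.n l1722 (nat_lit 3642) (nat_lit 4) (nat_lit 6))
    (@En.n l245 (nat_lit 3067) (nat_lit 5) (nat_lit 7))
    (@En.i (nat_lit 4493) (nat_lit 7) (nat_lit 12))
    (@En.n l7 (nat_lit 3772) (nat_lit 7) (nat_lit 2))
    (@En.n l2265 (nat_lit 3769) (nat_lit 8) (nat_lit 3))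
    (@En.n l3337 (nat_lit 12987) (nat_lit 0) (nat_lit 14))
    (@En.i (nat_lit 3696) (nat_lit 11) (nat_lit 10))
    (@En.i (nat_lit 4256) (nat_lit 12) (nat_lit 13))
    (@En.n l3337 (nat_lit 7012) (nat_lit 13) (nat_lit 9))
    (@En.n l2832 (nat_lit 3768) (nat_lit 5) (nat_lit 3))
    (@En.i (nat_lit 3239) (nat_lit 0) (nat_lit 5))
    (@En.n l3 (nat_lit 3772) (nat_lit 15) (nat_lit 2))))
  (@Cl.mk (nat_lit 0x2000500030009000e000d0002000c0003000c00070004000b0004000e000d) (nat_lit 0x6b0106003045) (nat_lit 16) Lb.e (@T16.mk En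
    (@En.n l4277 (nat_lit 3767) (nat_lit 7) (nat_lit 13))
    (@En.n l6636 (nat_lit 3966) (nat_lit 1) (nat_lit 14))
    (@En.i (nat_lit 3268) (nat_lit 2) (nat_lit 4))
    (@En.n l698 (nat_lit 7059) (nat_lit 3) (nat_lit 11))
    (@En.n l4281 (nat_lit 3584) (nat_lit 4) (nat_lit 4))
    (@En.i (nat_lit 3894) (nat_lit 5) (nat_lit 7))
    (@En.i (nat_lit 5583) (nat_lit 7) (nat_lit 12))
    (@En.n l117 (nat_lit 3769) (nat_lit 7) (nat_lit 3))
    (@En.n l4282 (nat_lit 3214) (nat_lit 9) (nat_lit 12))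
    (@En.n l3 (nat_lit 3773) (nat_lit 9) (nat_lit 2))
    (@En.i (nat_lit 3769) (nat_lit 11) (nat_lit 13))
    (@En.n l693 (nat_lit 2721) (nat_lit 12) (nat_lit 14))
    (@En.n l698 (nat_lit 7014) (nat_lit 13) (nat_lit 9))
    (@En.n l4283 (nat_lit 3767) (nat_lit 3) (nat_lit 3))
    (@En.n l699 (nat_lit 3238) (nat_lit 0) (nat_lit 5))
    (@En.n l50 (nat_lit 3773) (nat_lit 15) (nat_lit 2))))
  (@Cl.mk (nat_lit 0x2000c0003000a00070004000c000c000c00060004000400040009000e000d) (nat_lit 0x206002450000716) (nat_lit 16) Lb.e (@T16.mk En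
    (@En.n l396 (nat_lit 3691) (nat_lit 2) (nat_lit 13))
    (@En.n l4316 (nat_lit 1157) (nat_lit 1) (nat_lit 14))
    (@En.n l287 (nat_lit 7204) (nat_lit 2) (nat_lit 9))
    (@En.n l11 (nat_lit 3966) (nat_lit 12) (nat_lit 4))
    (@En.n l152 (nat_lit 4000) (nat_lit 4) (nat_lit 4))
    (@En.n l15046 (nat_lit 3767) (nat_lit 5) (nat_lit 4))
    (@En.i (nat_lit 3915) (nat_lit 6) (nat_lit 6))
    (@En.n l15891 (nat_lit 3770) (nat_lit 4) (nat_lit 12))
    (@En.n l10815 (nat_lit 3967) (nat_lit 4) (nat_lit 12))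
    (@En.i (nat_lit 7053) (nat_lit 10) (nat_lit 12))
    (@En.n l15046 (nat_lit 3587) (nat_lit 10) (nat_lit 4))
    (@En.i (nat_lit 3806) (nat_lit 12) (nat_lit 7))
    (@En.n l4316 (nat_lit 5604) (nat_lit 13) (nat_lit 10))
    (@En.i (nat_lit 3691) (nat_lit 14) (nat_lit 3))
    (@En.i (nat_lit 863) (nat_lit 0) (nat_lit 12))
    (@En.n l50 (nat_lit 3774) (nat_lit 15) (nat_lit 2))))
  (@Cl.mk (nat_lit 0x200050009000d000d000b00030003000b00070005000c000b0005000e0004) (nat_lit 0x300600340c0) (nat_lit 16) Lb.e (@T16.mk En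
    (@En.n l15799 (nat_lit 3691) (nat_lit 6) (nat_lit 4))
    (@En.n l24742 (nat_lit 3960) (nat_lit 1) (nat_lit 14))
    (@En.n l24743 (nat_lit 2080) (nat_lit 2) (nat_lit 5))
    (@En.n l19348 (nat_lit 3769) (nat_lit 3) (nat_lit 11))
    (@En.n l11394 (nat_lit 5523) (nat_lit 11) (nat_lit 12))
    (@En.i (nat_lit 3847) (nat_lit 5) (nat_lit 5))
    (@En.n l16426 (nat_lit 3075) (nat_lit 6) (nat_lit 7))
    (@En.n l5579 (nat_lit 4430) (nat_lit 8) (nat_lit 11))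
    (@En.n l24744 (nat_lit 3967) (nat_lit 8) (nat_lit 3))
    (@En.n l4049 (nat_lit 3961) (nat_lit 9) (nat_lit 3))
    (@En.n l55 (nat_lit 1375) (nat_lit 11) (nat_lit 11))
    (@En.n l24745 (nat_lit 3961) (nat_lit 12) (nat_lit 13))
    (@En.n l7978 (nat_lit 3850) (nat_lit 13) (nat_lit 13))
    (@En.n l11394 (nat_lit 7197) (nat_lit 14) (nat_lit 9))
    (@En.n l3155 (nat_lit 3232) (nat_lit 13) (nat_lit 5))
    (@En.n l18 (nat_lit 3775) (nat_lit 15) (nat_lit 2))))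
noncomputable def a236 : T16 Cl := @T16.mk Cl
  (@Cl.mk (nat_lit 0x2000c0006000d000c00040003000e00040002000d000c000a0003000e0004) (nat_lit 0x70b200500b92010) (nat_lit 16) Lb.e (@T16.mk En
    (@En.n l117 (nat_lit 3756) (nat_lit 9) (nat_lit 4))
    (@En.n l2691 (nat_lit 590) (nat_lit 1) (nat_lit 14))
    (@En.n l936 (nat_lit 3779) (nat_lit 2) (nat_lit 3))
    (@En.i (nat_lit 3699) (nat_lit 3) (nat_lit 10))
    (@En.n l936 (nat_lit 3713) (nat_lit 14) (nat_lit 12))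
    (@En.i (nat_lit 8680) (nat_lit 6) (nat_lit 13))
    (@En.n l17 (nat_lit 3776) (nat_lit 6) (nat_lit 2))
    (@En.n l50 (nat_lit 3646) (nat_lit 7) (nat_lit 4))
    (@En.n l5 (nat_lit 533) (nat_lit 1) (nat_lit 14))
    (@En.n l50 (nat_lit 3777) (nat_lit 9) (nat_lit 3))
    (@En.i (nat_lit 679) (nat_lit 10) (nat_lit 4))
    (@En.n l217 (nat_lit 3644) (nat_lit 12) (nat_lit 12))
    (@En.i (nat_lit 693) (nat_lit 6) (nat_lit 13))
    (@En.i (nat_lit 2668) (nat_lit 14) (nat_lit 6))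
    (@En.n l614 (nat_lit 6397) (nat_lit 8) (nat_lit 12))
    (@En.n l11 (nat_lit 3776) (nat_lit 15) (nat_lit 2))))
  (@Cl.mk (nat_lit 0x2000d0006000d0003000d0003000e00030002000d000c000a0003000e0004) (nat_lit 0x90a040500b82010) (nat_lit 16) Lb.e (@T16.mk En
    (@En.n l117 (nat_lit 3820) (nat_lit 9) (nat_lit 4))
    (@En.n l2691 (nat_lit 596) (nat_lit 1) (nat_lit 14))
    (@En.n l936 (nat_lit 3778) (nat_lit 2) (nat_lit 3))
    (@En.i (nat_lit 3698) (nat_lit 3) (nat_lit 10))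
    (@En.n l936 (nat_lit 3718) (nat_lit 14) (nat_lit 12))
    (@En.i (nat_lit 8683) (nat_lit 6) (nat_lit 13))
    (@En.n l17 (nat_lit 3777) (nat_lit 6) (nat_lit 2))
    (@En.i (nat_lit 3644) (nat_lit 7) (nat_lit 3))
    (@En.i (nat_lit 13684) (nat_lit 0) (nat_lit 14))
    (@En.i (nat_lit 3776) (nat_lit 9) (nat_lit 3))
    (@En.i (nat_lit 3805) (nat_lit 11) (nat_lit 13))
    (@En.i (nat_lit 3782) (nat_lit 11) (nat_lit 3))
    (@En.i (nat_lit 965) (nat_lit 0) (nat_lit 13))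
    (@En.i (nat_lit 2669) (nat_lit 14) (nat_lit 6))
    (@En.n l614 (nat_lit 6237) (nat_lit 8) (nat_lit 13))
    (@En.n l11 (nat_lit 3777) (nat_lit 15) (nat_lit 2))))
  (@Cl.mk (nat_lit 0x2000d0007000d0003000d0003000e00030002000d0009000d0003000e0003) (nat_lit 0x80a040500a1b030) (nat_lit 16) Lb.e (@T16.mk En
    (@En.n l117 (nat_lit 3718) (nat_lit 9) (nat_lit 3))
    (@En.i (nat_lit 13742) (nat_lit 0) (nat_lit 14))
    (@En.n l2576 (nat_lit 3777) (nat_lit 2) (nat_lit 3))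
    (@En.i (nat_lit 4051) (nat_lit 0) (nat_lit 13))
    (@En.i (nat_lit 3766) (nat_lit 14) (nat_lit 9))
    (@En.i (nat_lit 8687) (nat_lit 6) (nat_lit 13))
    (@En.n l17 (nat_lit 3778) (nat_lit 6) (nat_lit 2))
    (@En.i (nat_lit 3780) (nat_lit 7) (nat_lit 3))
    (@En.i (nat_lit 13685) (nat_lit 0) (nat_lit 14))
    (@En.i (nat_lit 3779) (nat_lit 9) (nat_lit 3))
    (@En.i (nat_lit 3800) (nat_lit 11) (nat_lit 13))
    (@En.i (nat_lit 3781) (nat_lit 4) (nat_lit 3))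
    (@En.i (nat_lit 964) (nat_lit 0) (nat_lit 13))
    (@En.i (nat_lit 662) (nat_lit 14) (nat_lit 7))
    (@En.i (nat_lit 6230) (nat_lit 8) (nat_lit 13))
    (@En.n l11 (nat_lit 3778) (nat_lit 15) (nat_lit 2))))
  (@Cl.mk (nat_lit 0x2000c0007000d000c00040003000e00040002000d0009000d0003000e0003) (nat_lit 0x70b200500a1b030) (nat_lit 16) Lb.e (@T16.mk En
    (@En.n l117 (nat_lit 3713) (nat_lit 9) (nat_lit 3))
    (@En.i (nat_lit 13743) (nat_lit 0) (nat_lit 14))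
    (@En.n l2576 (nat_lit 3776) (nat_lit 2) (nat_lit 3))
    (@En.i (nat_lit 4056) (nat_lit 0) (nat_lit 13))
    (@En.i (nat_lit 3771) (nat_lit 14) (nat_lit 9))
    (@En.i (nat_lit 8681) (nat_lit 6) (nat_lit 13))
    (@En.n l17 (nat_lit 3779) (nat_lit 6) (nat_lit 2))
    (@En.n l50 (nat_lit 3786) (nat_lit 7) (nat_lit 4))
    (@En.n l998 (nat_lit 536) (nat_lit 1) (nat_lit 14))
    (@En.n l50 (nat_lit 3778) (nat_lit 9) (nat_lit 3))
    (@En.i (nat_lit 680) (nat_lit 10) (nat_lit 4))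
    (@En.n l217 (nat_lit 3780) (nat_lit 12) (nat_lit 12))
    (@En.i (nat_lit 962) (nat_lit 6) (nat_lit 13))
    (@En.i (nat_lit 663) (nat_lit 14) (nat_lit 7))
    (@En.i (nat_lit 6395) (nat_lit 8) (nat_lit 12))
    (@En.n l11 (nat_lit 3779) (nat_lit 15) (nat_lit 2))))
  (@Cl.mk (nat_lit 0x2000d0007000c0003000d000d000400030003000d0009000d0003000e0003) (nat_lit 0x801045000a1a030) (nat_lit 16) Lb.e (@T16.mk En
    (@En.n l117 (nat_lit 3719) (nat_lit 8) (nat_lit 3))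
    (@En.i (nat_lit 13741) (nat_lit 0) (nat_lit 14))
    (@En.n l2576 (nat_lit 3644) (nat_lit 2) (nat_lit 3))
    (@En.i (nat_lit 4021) (nat_lit 0) (nat_lit 13))
    (@En.i (nat_lit 3768) (nat_lit 4) (nat_lit 9))
    (@En.i (nat_lit 8688) (nat_lit 6) (nat_lit 13))
    (@En.n l5331 (nat_lit 3788) (nat_lit 13) (nat_lit 3))
    (@En.n l18 (nat_lit 3778) (nat_lit 7) (nat_lit 3))
    (@En.n l947 (nat_lit 3791) (nat_lit 0) (nat_lit 4))
    (@En.n l61 (nat_lit 3778) (nat_lit 10) (nat_lit 13))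
    (@En.i (nat_lit 3797) (nat_lit 11) (nat_lit 13))
    (@En.i (nat_lit 3783) (nat_lit 11) (nat_lit 3))
    (@En.n l2869 (nat_lit 967) (nat_lit 0) (nat_lit 12))
    (@En.i (nat_lit 666) (nat_lit 14) (nat_lit 7))
    (@En.i (nat_lit 6081) (nat_lit 7) (nat_lit 13))
    (@En.n l11 (nat_lit 3780) (nat_lit 15) (nat_lit 2))))
  (@Cl.mk (nat_lit 0x2000d0008000d0003000e00030002000d000c00080003000d0004000e0003) (nat_lit 0xa60030088004060) (nat_lit 16) Lb.e (@T16.mk En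
    (@En.i (nat_lit 3783) (nat_lit 7) (nat_lit 3))
    (@En.i (nat_lit 13687) (nat_lit 0) (nat_lit 14))
    (@En.n l4263 (nat_lit 2673) (nat_lit 9) (nat_lit 4))
    (@En.n l564 (nat_lit 4366) (nat_lit 11) (nat_lit 13))
    (@En.n l7 (nat_lit 3778) (nat_lit 11) (nat_lit 3))
    (@En.i (nat_lit 3937) (nat_lit 5) (nat_lit 8))
    (@En.n l644 (nat_lit 3779) (nat_lit 14) (nat_lit 12))
    (@En.i (nat_lit 6228) (nat_lit 8) (nat_lit 13))
    (@En.n l11 (nat_lit 3781) (nat_lit 8) (nat_lit 2))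
    (@En.n l117 (nat_lit 3784) (nat_lit 9) (nat_lit 3))
    (@En.i (nat_lit 13731) (nat_lit 0) (nat_lit 14))
    (@En.n l2576 (nat_lit 3782) (nat_lit 2) (nat_lit 3))
    (@En.i (nat_lit 4054) (nat_lit 0) (nat_lit 13))
    (@En.i (nat_lit 3262) (nat_lit 14) (nat_lit 8))
    (@En.i (nat_lit 8692) (nat_lit 6) (nat_lit 13))
    (@En.n l17 (nat_lit 3781) (nat_lit 15) (nat_lit 2))))
  (@Cl.mk (nat_lit 0x2000d000c00070003000d0004000e00030002000d000c00090003000e0004) (nat_lit 0x980040600b87010) (nat_lit 16) Lb.e (@T16.mk En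
    (@En.n l117 (nat_lit 3821) (nat_lit 9) (nat_lit 4))
    (@En.n l2691 (nat_lit 845) (nat_lit 1) (nat_lit 14))
    (@En.n l936 (nat_lit 3781) (nat_lit 11) (nat_lit 3))
    (@En.i (nat_lit 3944) (nat_lit 3) (nat_lit 9))
    (@En.n l936 (nat_lit 3784) (nat_lit 14) (nat_lit 12))
    (@En.i (nat_lit 8686) (nat_lit 6) (nat_lit 13))
    (@En.n l17 (nat_lit 3782) (nat_lit 6) (nat_lit 2))
    (@En.i (nat_lit 3645) (nat_lit 7) (nat_lit 3))
    (@En.i (nat_lit 13689) (nat_lit 0) (nat_lit 14))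
    (@En.n l7913 (nat_lit 2672) (nat_lit 9) (nat_lit 4))
    (@En.n l564 (nat_lit 4370) (nat_lit 11) (nat_lit 13))
    (@En.n l7 (nat_lit 3777) (nat_lit 11) (nat_lit 3))
    (@En.n l2211 (nat_lit 3942) (nat_lit 5) (nat_lit 7))
    (@En.n l644 (nat_lit 3776) (nat_lit 14) (nat_lit 12))
    (@En.n l614 (nat_lit 6236) (nat_lit 8) (nat_lit 13))
    (@En.n l11 (nat_lit 3782) (nat_lit 15) (nat_lit 2))))
  (@Cl.mk (nat_lit 0x2000d000b00080003000d000d000500030003000d0008000d0003000e0003) (nat_lit 0x882045000b60030) (nat_lit 16) Lb.e (@T16.mk En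
    (@En.n l117 (nat_lit 3785) (nat_lit 8) (nat_lit 3))
    (@En.i (nat_lit 13732) (nat_lit 0) (nat_lit 14))
    (@En.n l2576 (nat_lit 3645) (nat_lit 2) (nat_lit 3))
    (@En.i (nat_lit 4026) (nat_lit 0) (nat_lit 13))
    (@En.i (nat_lit 3261) (nat_lit 4) (nat_lit 8))
    (@En.i (nat_lit 8693) (nat_lit 6) (nat_lit 13))
    (@En.n l6368 (nat_lit 3787) (nat_lit 13) (nat_lit 3))
    (@En.n l18 (nat_lit 3781) (nat_lit 0) (nat_lit 3))
    (@En.n l1347 (nat_lit 2669) (nat_lit 0) (nat_lit 5))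
    (@En.n l61 (nat_lit 3781) (nat_lit 3) (nat_lit 13))
    (@En.n l21659 (nat_lit 4367) (nat_lit 11) (nat_lit 13))
    (@En.n l7 (nat_lit 3780) (nat_lit 11) (nat_lit 3))
    (@En.n l4019 (nat_lit 3931) (nat_lit 0) (nat_lit 8))
    (@En.i (nat_lit 3786) (nat_lit 14) (nat_lit 11))
    (@En.n l4019 (nat_lit 6079) (nat_lit 7) (nat_lit 13))
    (@En.n l11 (nat_lit 3783) (nat_lit 15) (nat_lit 2))))
  (@Cl.mk (nat_lit 0x2000c0008000d000d000400030003000d000c00080003000d0004000e0003) (nat_lit 0x76b100008603060) (nat_lit 16) Lb.e (@T16.mk En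
    (@En.i (nat_lit 3785) (nat_lit 15) (nat_lit 3))
    (@En.i (nat_lit 13688) (nat_lit 0) (nat_lit 14))
    (@En.n l14325 (nat_lit 2674) (nat_lit 2) (nat_lit 4))
    (@En.n l396 (nat_lit 4365) (nat_lit 10) (nat_lit 13))
    (@En.n l7 (nat_lit 3718) (nat_lit 4) (nat_lit 3))
    (@En.i (nat_lit 3935) (nat_lit 5) (nat_lit 8))
    (@En.n l644 (nat_lit 3713) (nat_lit 7) (nat_lit 12))
    (@En.n l3528 (nat_lit 6227) (nat_lit 8) (nat_lit 13))
    (@En.n l1483 (nat_lit 3716) (nat_lit 13) (nat_lit 3))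
    (@En.n l152 (nat_lit 3781) (nat_lit 9) (nat_lit 3))
    (@En.n l1992 (nat_lit 4071) (nat_lit 0) (nat_lit 4))
    (@En.n l619 (nat_lit 3781) (nat_lit 12) (nat_lit 13))
    (@En.i (nat_lit 4053) (nat_lit 13) (nat_lit 13))
    (@En.n l1769 (nat_lit 3260) (nat_lit 14) (nat_lit 8))
    (@En.i (nat_lit 8694) (nat_lit 14) (nat_lit 12))
    (@En.n l17 (nat_lit 3784) (nat_lit 15) (nat_lit 2))))
  (@Cl.mk (nat_lit 0x30003000c0008000d000d000400030003000d000b00080003000d000d0005) (nat_lit 0x7601000b820440) (nat_lit 16) Lb.e (@T16.mk En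
    (@En.n l4476 (nat_lit 2664) (nat_lit 0) (nat_lit 5))
    (@En.n l61 (nat_lit 3784) (nat_lit 3) (nat_lit 13))
    (@En.n l396 (nat_lit 4364) (nat_lit 10) (nat_lit 13))
    (@En.n l7 (nat_lit 3719) (nat_lit 3) (nat_lit 3))
    (@En.n l22901 (nat_lit 3934) (nat_lit 0) (nat_lit 8))
    (@En.i (nat_lit 3790) (nat_lit 13) (nat_lit 11))
    (@En.i (nat_lit 6226) (nat_lit 7) (nat_lit 13))
    (@En.n l1483 (nat_lit 3836) (nat_lit 13) (nat_lit 3))
    (@En.n l152 (nat_lit 3783) (nat_lit 0) (nat_lit 3))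
    (@En.n l1992 (nat_lit 3826) (nat_lit 0) (nat_lit 4))
    (@En.n l619 (nat_lit 3783) (nat_lit 3) (nat_lit 13))
    (@En.i (nat_lit 3827) (nat_lit 1) (nat_lit 13))
    (@En.n l14384 (nat_lit 3263) (nat_lit 13) (nat_lit 8))
    (@En.i (nat_lit 8695) (nat_lit 14) (nat_lit 12))
    (@En.n l3519 (nat_lit 3789) (nat_lit 13) (nat_lit 3))
    (@En.n l18 (nat_lit 3784) (nat_lit 0) (nat_lit 3))))
  (@Cl.mk (nat_lit 0x2000b0007000c000c000c0005000400040004000d0009000d0003000e0003) (nat_lit 0x702330000a12030) (nat_lit 16) Lb.e (@T16.mk En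
    (@En.n l117 (nat_lit 3790) (nat_lit 15) (nat_lit 3))
    (@En.i (nat_lit 13807) (nat_lit 0) (nat_lit 14))
    (@En.n l2576 (nat_lit 3646) (nat_lit 2) (nat_lit 3))
    (@En.i (nat_lit 3817) (nat_lit 0) (nat_lit 13))
    (@En.i (nat_lit 3690) (nat_lit 4) (nat_lit 9))
    (@En.n l5911 (nat_lit 7455) (nat_lit 6) (nat_lit 13))
    (@En.n l1778 (nat_lit 3916) (nat_lit 12) (nat_lit 4))
    (@En.n l2172 (nat_lit 3802) (nat_lit 7) (nat_lit 4))
    (@En.i (nat_lit 3780) (nat_lit 8) (nat_lit 4))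
    (@En.n l5912 (nat_lit 665) (nat_lit 9) (nat_lit 5))
    (@En.n l742 (nat_lit 3779) (nat_lit 11) (nat_lit 12))
    (@En.n l5913 (nat_lit 3791) (nat_lit 4) (nat_lit 12))
    (@En.n l5912 (nat_lit 2996) (nat_lit 13) (nat_lit 12))
    (@En.n l1347 (nat_lit 3903) (nat_lit 14) (nat_lit 7))
    (@En.i (nat_lit 6298) (nat_lit 12) (nat_lit 11))
    (@En.n l11 (nat_lit 3786) (nat_lit 15) (nat_lit 2))))
  (@Cl.mk (nat_lit 0x200060003000d0008000d0003000e00030002000d000a00080003000e000d) (nat_lit 0xa690300a84035) (nat_lit 16) Lb.e (@T16.mk En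
    (@En.n l2224 (nat_lit 3783) (nat_lit 10) (nat_lit 13))
    (@En.n l2056 (nat_lit 3604) (nat_lit 1) (nat_lit 14))
    (@En.n l13304 (nat_lit 3788) (nat_lit 2) (nat_lit 3))
    (@En.n l2054 (nat_lit 3933) (nat_lit 3) (nat_lit 8))
    (@En.n l2225 (nat_lit 3916) (nat_lit 4) (nat_lit 10))
    (@En.i (nat_lit 6078) (nat_lit 6) (nat_lit 13))
    (@En.n l17 (nat_lit 3787) (nat_lit 6) (nat_lit 2))
    (@En.n l6458 (nat_lit 3789) (nat_lit 7) (nat_lit 3))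
    (@En.i (nat_lit 13810) (nat_lit 0) (nat_lit 14))
    (@En.n l2229 (nat_lit 3643) (nat_lit 9) (nat_lit 3))
    (@En.n l2227 (nat_lit 4023) (nat_lit 11) (nat_lit 13))
    (@En.n l4002 (nat_lit 3267) (nat_lit 12) (nat_lit 8))
    (@En.i (nat_lit 12611) (nat_lit 13) (nat_lit 13))
    (@En.n l1393 (nat_lit 3783) (nat_lit 6) (nat_lit 3))
    (@En.n l13306 (nat_lit 2368) (nat_lit 7) (nat_lit 6))
    (@En.n l11 (nat_lit 3787) (nat_lit 15) (nat_lit 2))))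
  (@Cl.mk (nat_lit 0x200050003000d0009000d0003000e00030002000d0007000b0003000e000d) (nat_lit 0xa1a0300602025) (nat_lit 16) Lb.e (@T16.mk En
    (@En.n l649 (nat_lit 3780) (nat_lit 10) (nat_lit 13))
    (@En.i (nat_lit 3916) (nat_lit 1) (nat_lit 14))
    (@En.n l9807 (nat_lit 3787) (nat_lit 2) (nat_lit 3))
    (@En.i (nat_lit 2897) (nat_lit 3) (nat_lit 11))
    (@En.n l1353 (nat_lit 2663) (nat_lit 4) (nat_lit 7))
    (@En.i (nat_lit 6080) (nat_lit 6) (nat_lit 13))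
    (@En.n l50 (nat_lit 3788) (nat_lit 6) (nat_lit 2))
    (@En.n l564 (nat_lit 3839) (nat_lit 7) (nat_lit 3))
    (@En.i (nat_lit 13804) (nat_lit 0) (nat_lit 14))
    (@En.i (nat_lit 3642) (nat_lit 9) (nat_lit 3))
    (@En.n l2573 (nat_lit 4018) (nat_lit 11) (nat_lit 13))
    (@En.n l287 (nat_lit 3772) (nat_lit 12) (nat_lit 9))
    (@En.i (nat_lit 12343) (nat_lit 13) (nat_lit 13))
    (@En.n l2221 (nat_lit 3780) (nat_lit 6) (nat_lit 3))
    (@En.n l1643 (nat_lit 3606) (nat_lit 7) (nat_lit 5))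
    (@En.n l3 (nat_lit 3788) (nat_lit 15) (nat_lit 2))))
  (@Cl.mk (nat_lit 0x200060003000c0008000d000d000400030003000d000a00080003000e000d) (nat_lit 0x750a000a80035) (nat_lit 16) Lb.e (@T16.mk En
    (@En.n l4130 (nat_lit 3785) (nat_lit 2) (nat_lit 13))
    (@En.n l7822 (nat_lit 3600) (nat_lit 1) (nat_lit 14))
    (@En.n l18 (nat_lit 3839) (nat_lit 2) (nat_lit 3))
    (@En.n l5391 (nat_lit 3932) (nat_lit 3) (nat_lit 8))
    (@En.n l61 (nat_lit 3592) (nat_lit 4) (nat_lit 10))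
    (@En.n l4033 (nat_lit 6084) (nat_lit 6) (nat_lit 13))
    (@En.n l9453 (nat_lit 3838) (nat_lit 13) (nat_lit 3))
    (@En.n l13554 (nat_lit 3787) (nat_lit 7) (nat_lit 3))
    (@En.n l3509 (nat_lit 3840) (nat_lit 0) (nat_lit 4))
    (@En.n l13555 (nat_lit 3787) (nat_lit 10) (nat_lit 13))
    (@En.n l4365 (nat_lit 4024) (nat_lit 11) (nat_lit 13))
    (@En.n l11416 (nat_lit 3266) (nat_lit 12) (nat_lit 8))
    (@En.i (nat_lit 12610) (nat_lit 13) (nat_lit 12))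
    (@En.n l2832 (nat_lit 3785) (nat_lit 14) (nat_lit 3))
    (@En.n l2843 (nat_lit 2277) (nat_lit 0) (nat_lit 6))
    (@En.n l3 (nat_lit 3789) (nat_lit 15) (nat_lit 2))))
  (@Cl.mk (nat_lit 0x30003000b0007000c000c000c0005000400040004000c0009000d000d0004) (nat_lit 0x70433000081530) (nat_lit 16) Lb.e (@T16.mk En
    (@En.n l1992 (nat_lit 3846) (nat_lit 0) (nat_lit 4))
    (@En.n l619 (nat_lit 3786) (nat_lit 3) (nat_lit 13))
    (@En.i (nat_lit 3761) (nat_lit 1) (nat_lit 13))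
    (@En.n l18263 (nat_lit 3691) (nat_lit 3) (nat_lit 9))
    (@En.i (nat_lit 8704) (nat_lit 5) (nat_lit 12))
    (@En.n l11407 (nat_lit 3592) (nat_lit 12) (nat_lit 4))
    (@En.n l2172 (nat_lit 3801) (nat_lit 12) (nat_lit 4))
    (@En.i (nat_lit 3719) (nat_lit 0) (nat_lit 4))
    (@En.n l27667 (nat_lit 667) (nat_lit 0) (nat_lit 5))
    (@En.n l742 (nat_lit 3713) (nat_lit 4) (nat_lit 12))
    (@En.n l396 (nat_lit 3792) (nat_lit 4) (nat_lit 12))
    (@En.n l27668 (nat_lit 2723) (nat_lit 12) (nat_lit 12))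
    (@En.n l18263 (nat_lit 3902) (nat_lit 13) (nat_lit 7))
    (@En.i (nat_lit 6297) (nat_lit 14) (nat_lit 11))
    (@En.n l1483 (nat_lit 3714) (nat_lit 13) (nat_lit 3))
    (@En.n l152 (nat_lit 3786) (nat_lit 0) (nat_lit 3))))
  (@Cl.mk (nat_lit 0x20005000d0009000d0003000e00030002000c0007000c000b0004000e0004) (nat_lit 0xa0903008023050) (nat_lit 16) Lb.e (@T16.mk En
    (@En.n l3323 (nat_lit 3786) (nat_lit 8) (nat_lit 4))
    (@En.n l7611 (nat_lit 3795) (nat_lit 1) (nat_lit 14))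
    (@En.n l7882 (nat_lit 662) (nat_lit 2) (nat_lit 4))
    (@En.n l1253 (nat_lit 3788) (nat_lit 3) (nat_lit 11))
    (@En.n l2579 (nat_lit 3004) (nat_lit 13) (nat_lit 12))
    (@En.n l250 (nat_lit 3904) (nat_lit 5) (nat_lit 7))
    (@En.i (nat_lit 6302) (nat_lit 7) (nat_lit 12))
    (@En.n l7 (nat_lit 3791) (nat_lit 7) (nat_lit 2))
    (@En.n l3815 (nat_lit 3792) (nat_lit 8) (nat_lit 3))
    (@En.n l3337 (nat_lit 13806) (nat_lit 0) (nat_lit 14))
    (@En.i (nat_lit 3641) (nat_lit 10) (nat_lit 3))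
    (@En.n l2544 (nat_lit 3855) (nat_lit 12) (nat_lit 13))
    (@En.n l458 (nat_lit 3961) (nat_lit 13) (nat_lit 9))
    (@En.n l3337 (nat_lit 7449) (nat_lit 6) (nat_lit 13))
    (@En.i (nat_lit 3603) (nat_lit 13) (nat_lit 5))
    (@En.n l3 (nat_lit 3791) (nat_lit 15) (nat_lit 2))))
noncomputable def a237 : T16 Cl := @T16.mk Cl
  (@Cl.mk (nat_lit 0x20005000c0009000d000d000400030003000c0007000c000b0004000e0004) (nat_lit 0x710a0009023050) (nat_lit 16) Lb.e (@T16.mk En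
    (@En.n l50 (nat_lit 3790) (nat_lit 7) (nat_lit 4))
    (@En.n l19557 (nat_lit 3794) (nat_lit 1) (nat_lit 14))
    (@En.n l25357 (nat_lit 666) (nat_lit 2) (nat_lit 4))
    (@En.n l11245 (nat_lit 3839) (nat_lit 3) (nat_lit 11))
    (@En.n l8246 (nat_lit 4260) (nat_lit 12) (nat_lit 12))
    (@En.i (nat_lit 3897) (nat_lit 5) (nat_lit 7))
    (@En.i (nat_lit 6303) (nat_lit 7) (nat_lit 12))
    (@En.n l1154 (nat_lit 3793) (nat_lit 13) (nat_lit 3))
    (@En.n l6950 (nat_lit 3791) (nat_lit 8) (nat_lit 3))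
    (@En.n l1992 (nat_lit 3848) (nat_lit 0) (nat_lit 4))
    (@En.n l25052 (nat_lit 3791) (nat_lit 11) (nat_lit 13))
    (@En.i (nat_lit 3851) (nat_lit 12) (nat_lit 13))
    (@En.n l1769 (nat_lit 3775) (nat_lit 13) (nat_lit 9))
    (@En.n l3523 (nat_lit 7457) (nat_lit 14) (nat_lit 12))
    (@En.n l6140 (nat_lit 3595) (nat_lit 13) (nat_lit 5))
    (@En.n l18 (nat_lit 3792) (nat_lit 15) (nat_lit 2))))
  (@Cl.mk (nat_lit 0x200050003000c0007000c000b0004000e000400020005000b0009000e000d) (nat_lit 0x9093050008021) (nat_lit 16) Lb.e (@T16.mk En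
    (@En.n l965 (nat_lit 3792) (nat_lit 11) (nat_lit 13))
    (@En.n l1246 (nat_lit 3064) (nat_lit 12) (nat_lit 14))
    (@En.n l4446 (nat_lit 3967) (nat_lit 13) (nat_lit 9))
    (@En.i (nat_lit 8706) (nat_lit 3) (nat_lit 11))
    (@En.n l8573 (nat_lit 3598) (nat_lit 4) (nat_lit 5))
    (@En.n l50 (nat_lit 3793) (nat_lit 5) (nat_lit 2))
    (@En.n l11656 (nat_lit 3714) (nat_lit 6) (nat_lit 4))
    (@En.n l343 (nat_lit 3067) (nat_lit 8) (nat_lit 14))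
    (@En.n l28 (nat_lit 2663) (nat_lit 8) (nat_lit 4))
    (@En.n l11657 (nat_lit 3837) (nat_lit 3) (nat_lit 11))
    (@En.i (nat_lit 4257) (nat_lit 11) (nat_lit 12))
    (@En.n l8572 (nat_lit 3896) (nat_lit 5) (nat_lit 7))
    (@En.i (nat_lit 8062) (nat_lit 13) (nat_lit 12))
    (@En.n l1246 (nat_lit 3792) (nat_lit 7) (nat_lit 3))
    (@En.i (nat_lit 2761) (nat_lit 8) (nat_lit 5))
    (@En.n l3 (nat_lit 3793) (nat_lit 15) (nat_lit 2))))
  (@Cl.mk (nat_lit 0x200070005000c0009000d000d00040003000300090007000d000b000e0003) (nat_lit 0x90b300070a340) (nat_lit 16) Lb.e (@T16.mk En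
    (@En.n l18841 (nat_lit 3796) (nat_lit 15) (nat_lit 3))
    (@En.n l2038 (nat_lit 12853) (nat_lit 0) (nat_lit 14))
    (@En.n l18842 (nat_lit 3592) (nat_lit 2) (nat_lit 11))
    (@En.n l810 (nat_lit 4262) (nat_lit 12) (nat_lit 13))
    (@En.i (nat_lit 3082) (nat_lit 4) (nat_lit 7))
    (@En.n l18843 (nat_lit 7224) (nat_lit 5) (nat_lit 9))
    (@En.n l3180 (nat_lit 3067) (nat_lit 13) (nat_lit 3))
    (@En.n l18 (nat_lit 3795) (nat_lit 7) (nat_lit 3))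
    (@En.n l8170 (nat_lit 3073) (nat_lit 0) (nat_lit 4))
    (@En.n l61 (nat_lit 3795) (nat_lit 10) (nat_lit 13))
    (@En.n l18844 (nat_lit 3070) (nat_lit 11) (nat_lit 13))
    (@En.n l18845 (nat_lit 3960) (nat_lit 12) (nat_lit 9))
    (@En.n l3517 (nat_lit 7079) (nat_lit 13) (nat_lit 12))
    (@En.n l8252 (nat_lit 3792) (nat_lit 14) (nat_lit 5))
    (@En.n l18844 (nat_lit 4364) (nat_lit 6) (nat_lit 7))
    (@En.n l11 (nat_lit 3794) (nat_lit 15) (nat_lit 2))))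
  (@Cl.mk (nat_lit 0x200070005000d0009000d0003000e0003000200090007000d000b000e0003) (nat_lit 0xb020300702340) (nat_lit 16) Lb.e (@T16.mk En
    (@En.n l14741 (nat_lit 3797) (nat_lit 9) (nat_lit 3))
    (@En.n l2038 (nat_lit 13003) (nat_lit 0) (nat_lit 14))
    (@En.n l2673 (nat_lit 3916) (nat_lit 2) (nat_lit 11))
    (@En.n l810 (nat_lit 4337) (nat_lit 13) (nat_lit 13))
    (@En.i (nat_lit 3084) (nat_lit 14) (nat_lit 7))
    (@En.i (nat_lit 7227) (nat_lit 5) (nat_lit 9))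
    (@En.n l17 (nat_lit 3795) (nat_lit 6) (nat_lit 2))
    (@En.i (nat_lit 3794) (nat_lit 7) (nat_lit 3))
    (@En.n l1599 (nat_lit 13808) (nat_lit 0) (nat_lit 14))
    (@En.i (nat_lit 3647) (nat_lit 9) (nat_lit 3))
    (@En.n l14742 (nat_lit 4015) (nat_lit 11) (nat_lit 13))
    (@En.n l8907 (nat_lit 3959) (nat_lit 12) (nat_lit 9))
    (@En.n l476 (nat_lit 7074) (nat_lit 13) (nat_lit 13))
    (@En.n l2669 (nat_lit 3791) (nat_lit 14) (nat_lit 5))
    (@En.n l7836 (nat_lit 4367) (nat_lit 7) (nat_lit 7))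
    (@En.n l11 (nat_lit 3795) (nat_lit 15) (nat_lit 2))))
  (@Cl.mk (nat_lit 0x3000300070004000c0009000d000d00040003000300090007000d000d000c) (nat_lit 0x511300070ab6) (nat_lit 16) Lb.e (@T16.mk En
    (@En.n l6444 (nat_lit 3801) (nat_lit 0) (nat_lit 12))
    (@En.n l24740 (nat_lit 3794) (nat_lit 3) (nat_lit 13))
    (@En.i (nat_lit 4265) (nat_lit 12) (nat_lit 13))
    (@En.n l14455 (nat_lit 3083) (nat_lit 13) (nat_lit 7))
    (@En.n l649 (nat_lit 7222) (nat_lit 4) (nat_lit 9))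
    (@En.n l34638 (nat_lit 3798) (nat_lit 13) (nat_lit 3))
    (@En.n l152 (nat_lit 3797) (nat_lit 0) (nat_lit 3))
    (@En.n l14309 (nat_lit 3075) (nat_lit 0) (nat_lit 4))
    (@En.n l619 (nat_lit 3797) (nat_lit 3) (nat_lit 13))
    (@En.i (nat_lit 3071) (nat_lit 10) (nat_lit 13))
    (@En.n l14455 (nat_lit 3687) (nat_lit 11) (nat_lit 9))
    (@En.i (nat_lit 7073) (nat_lit 12) (nat_lit 12))
    (@En.n l403 (nat_lit 3790) (nat_lit 5) (nat_lit 4))
    (@En.i (nat_lit 4365) (nat_lit 6) (nat_lit 7))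
    (@En.n l18 (nat_lit 3799) (nat_lit 13) (nat_lit 3))
    (@En.n l19557 (nat_lit 3794) (nat_lit 0) (nat_lit 3))))
  (@Cl.mk (nat_lit 0x200090007000d000d000c0003000300070004000d0009000d0003000e0003) (nat_lit 0x702340000a12030) (nat_lit 16) Lb.e (@T16.mk En
    (@En.n l117 (nat_lit 3796) (nat_lit 6) (nat_lit 3))
    (@En.i (nat_lit 13809) (nat_lit 0) (nat_lit 14))
    (@En.n l2576 (nat_lit 3648) (nat_lit 2) (nat_lit 3))
    (@En.i (nat_lit 3813) (nat_lit 0) (nat_lit 13))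
    (@En.i (nat_lit 3685) (nat_lit 4) (nat_lit 9))
    (@En.n l3749 (nat_lit 7068) (nat_lit 6) (nat_lit 13))
    (@En.n l403 (nat_lit 3786) (nat_lit 6) (nat_lit 4))
    (@En.n l1353 (nat_lit 4366) (nat_lit 7) (nat_lit 7))
    (@En.n l18 (nat_lit 3800) (nat_lit 8) (nat_lit 3))
    (@En.n l8171 (nat_lit 3795) (nat_lit 0) (nat_lit 3))
    (@En.n l6444 (nat_lit 3802) (nat_lit 11) (nat_lit 12))
    (@En.n l15790 (nat_lit 3795) (nat_lit 3) (nat_lit 13))
    (@En.n l6636 (nat_lit 4336) (nat_lit 13) (nat_lit 13))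
    (@En.n l8252 (nat_lit 3081) (nat_lit 14) (nat_lit 7))
    (@En.n l1353 (nat_lit 7225) (nat_lit 4) (nat_lit 9))
    (@En.n l11 (nat_lit 3797) (nat_lit 15) (nat_lit 2))))
  (@Cl.mk (nat_lit 0x20005000300090007000d000d000c0003000300070004000b0009000e000d) (nat_lit 0x11300008022) (nat_lit 16) Lb.e (@T16.mk En
    (@En.n l28257 (nat_lit 3796) (nat_lit 9) (nat_lit 13))
    (@En.n l15664 (nat_lit 3066) (nat_lit 1) (nat_lit 14))
    (@En.i (nat_lit 3965) (nat_lit 2) (nat_lit 9))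
    (@En.n l6654 (nat_lit 7168) (nat_lit 3) (nat_lit 11))
    (@En.n l15046 (nat_lit 3714) (nat_lit 4) (nat_lit 4))
    (@En.n l3088 (nat_lit 2331) (nat_lit 5) (nat_lit 7))
    (@En.n l152 (nat_lit 3894) (nat_lit 6) (nat_lit 3))
    (@En.n l6641 (nat_lit 3067) (nat_lit 7) (nat_lit 3))
    (@En.n l619 (nat_lit 3803) (nat_lit 9) (nat_lit 12))
    (@En.n l25660 (nat_lit 3067) (nat_lit 10) (nat_lit 13))
    (@En.n l25391 (nat_lit 1016) (nat_lit 11) (nat_lit 13))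
    (@En.i (nat_lit 3087) (nat_lit 12) (nat_lit 7))
    (@En.n l21463 (nat_lit 6962) (nat_lit 13) (nat_lit 9))
    (@En.n l15664 (nat_lit 3796) (nat_lit 5) (nat_lit 3))
    (@En.n l699 (nat_lit 2762) (nat_lit 0) (nat_lit 5))
    (@En.n l50 (nat_lit 3798) (nat_lit 15) (nat_lit 2))))
  (@Cl.mk (nat_lit 0x2000d000300070003000c0009000d000d00040003000300090007000e000d) (nat_lit 0x20007100000001b) (nat_lit 16) Lb.e (@T16.mk En
    (@En.n l396 (nat_lit 3796) (nat_lit 2) (nat_lit 13))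
    (@En.i (nat_lit 356) (nat_lit 1) (nat_lit 14))
    (@En.n l8361 (nat_lit 3086) (nat_lit 2) (nat_lit 7))
    (@En.n l649 (nat_lit 7223) (nat_lit 3) (nat_lit 9))
    (@En.n l2261 (nat_lit 3894) (nat_lit 13) (nat_lit 3))
    (@En.n l152 (nat_lit 3800) (nat_lit 0) (nat_lit 3))
    (@En.n l14309 (nat_lit 3889) (nat_lit 0) (nat_lit 4))
    (@En.n l619 (nat_lit 3800) (nat_lit 3) (nat_lit 13))
    (@En.i (nat_lit 3812) (nat_lit 9) (nat_lit 13))
    (@En.n l8361 (nat_lit 3686) (nat_lit 10) (nat_lit 9))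
    (@En.i (nat_lit 7070) (nat_lit 11) (nat_lit 12))
    (@En.n l2364 (nat_lit 3801) (nat_lit 11) (nat_lit 3))
    (@En.i (nat_lit 4688) (nat_lit 0) (nat_lit 7))
    (@En.i (nat_lit 3796) (nat_lit 14) (nat_lit 3))
    (@En.i (nat_lit 541) (nat_lit 0) (nat_lit 13))
    (@En.n l50 (nat_lit 3799) (nat_lit 15) (nat_lit 2))))
  (@Cl.mk (nat_lit 0x200090007000e000d0002000d000300070003000d0009000d0003000e0003) (nat_lit 0x1302000a1b030) (nat_lit 16) Lb.e (@T16.mk En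
    (@En.n l117 (nat_lit 3799) (nat_lit 5) (nat_lit 3))
    (@En.i (nat_lit 13812) (nat_lit 0) (nat_lit 14))
    (@En.n l2576 (nat_lit 3805) (nat_lit 2) (nat_lit 3))
    (@En.i (nat_lit 3811) (nat_lit 9) (nat_lit 13))
    (@En.i (nat_lit 3684) (nat_lit 4) (nat_lit 9))
    (@En.i (nat_lit 7069) (nat_lit 11) (nat_lit 13))
    (@En.n l2364 (nat_lit 3802) (nat_lit 6) (nat_lit 3))
    (@En.i (nat_lit 4797) (nat_lit 7) (nat_lit 7))
    (@En.i (nat_lit 3797) (nat_lit 8) (nat_lit 3))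
    (@En.i (nat_lit 537) (nat_lit 0) (nat_lit 13))
    (@En.n l50 (nat_lit 3800) (nat_lit 10) (nat_lit 2))
    (@En.n l396 (nat_lit 3797) (nat_lit 12) (nat_lit 13))
    (@En.i (nat_lit 357) (nat_lit 13) (nat_lit 14))
    (@En.n l14576 (nat_lit 3085) (nat_lit 14) (nat_lit 7))
    (@En.i (nat_lit 7228) (nat_lit 3) (nat_lit 9))
    (@En.n l11 (nat_lit 3800) (nat_lit 15) (nat_lit 2))))
  (@Cl.mk (nat_lit 0x2000d000600040003000c0009000d000d000400030003000a0007000e000c) (nat_lit 0x100071000007015) (nat_lit 16) Lb.e (@T16.mk En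
    (@En.n l217 (nat_lit 3790) (nat_lit 11) (nat_lit 12))
    (@En.i (nat_lit 350) (nat_lit 1) (nat_lit 14))
    (@En.n l7525 (nat_lit 3088) (nat_lit 2) (nat_lit 7))
    (@En.n l4322 (nat_lit 7527) (nat_lit 3) (nat_lit 10))
    (@En.n l14185 (nat_lit 3803) (nat_lit 13) (nat_lit 3))
    (@En.n l152 (nat_lit 3802) (nat_lit 0) (nat_lit 3))
    (@En.n l14186 (nat_lit 3888) (nat_lit 0) (nat_lit 4))
    (@En.n l619 (nat_lit 3802) (nat_lit 3) (nat_lit 13))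
    (@En.i (nat_lit 3815) (nat_lit 9) (nat_lit 13))
    (@En.n l7525 (nat_lit 3689) (nat_lit 10) (nat_lit 9))
    (@En.i (nat_lit 8718) (nat_lit 11) (nat_lit 12))
    (@En.n l763 (nat_lit 3799) (nat_lit 11) (nat_lit 3))
    (@En.i (nat_lit 3713) (nat_lit 0) (nat_lit 4))
    (@En.n l1545 (nat_lit 3907) (nat_lit 14) (nat_lit 6))
    (@En.n l765 (nat_lit 538) (nat_lit 1) (nat_lit 13))
    (@En.n l50 (nat_lit 3801) (nat_lit 15) (nat_lit 2))))
  (@Cl.mk (nat_lit 0x2000a0007000e000c0002000d000600040003000d0009000d0003000e0003) (nat_lit 0x801301000a1b030) (nat_lit 16) Lb.e (@T16.mk En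
    (@En.n l117 (nat_lit 3801) (nat_lit 5) (nat_lit 3))
    (@En.i (nat_lit 13811) (nat_lit 0) (nat_lit 14))
    (@En.n l2576 (nat_lit 3804) (nat_lit 2) (nat_lit 3))
    (@En.i (nat_lit 3814) (nat_lit 0) (nat_lit 13))
    (@En.i (nat_lit 3688) (nat_lit 4) (nat_lit 9))
    (@En.i (nat_lit 8676) (nat_lit 11) (nat_lit 13))
    (@En.n l763 (nat_lit 3800) (nat_lit 6) (nat_lit 3))
    (@En.i (nat_lit 3779) (nat_lit 7) (nat_lit 4))
    (@En.n l1545 (nat_lit 3909) (nat_lit 14) (nat_lit 6))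
    (@En.n l2026 (nat_lit 535) (nat_lit 10) (nat_lit 13))
    (@En.n l50 (nat_lit 3802) (nat_lit 10) (nat_lit 2))
    (@En.n l217 (nat_lit 3786) (nat_lit 12) (nat_lit 12))
    (@En.n l2026 (nat_lit 349) (nat_lit 1) (nat_lit 14))
    (@En.n l2900 (nat_lit 3089) (nat_lit 14) (nat_lit 7))
    (@En.i (nat_lit 7526) (nat_lit 3) (nat_lit 10))
    (@En.n l11 (nat_lit 3802) (nat_lit 15) (nat_lit 2))))
  (@Cl.mk (nat_lit 0x200050003000a0007000e000c0002000d000600040003000b0009000e000d) (nat_lit 0x7012010007021) (nat_lit 16) Lb.e (@T16.mk En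
    (@En.n l14489 (nat_lit 3801) (nat_lit 8) (nat_lit 13))
    (@En.n l9455 (nat_lit 3893) (nat_lit 1) (nat_lit 14))
    (@En.i (nat_lit 4000) (nat_lit 2) (nat_lit 9))
    (@En.n l287 (nat_lit 8708) (nat_lit 3) (nat_lit 11))
    (@En.n l11 (nat_lit 3894) (nat_lit 4) (nat_lit 3))
    (@En.n l15044 (nat_lit 3711) (nat_lit 5) (nat_lit 4))
    (@En.n l982 (nat_lit 3900) (nat_lit 6) (nat_lit 6))
    (@En.n l15045 (nat_lit 549) (nat_lit 8) (nat_lit 13))
    (@En.n l3 (nat_lit 3803) (nat_lit 8) (nat_lit 2))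
    (@En.n l15046 (nat_lit 3714) (nat_lit 10) (nat_lit 12))
    (@En.n l6637 (nat_lit 355) (nat_lit 11) (nat_lit 14))
    (@En.i (nat_lit 3910) (nat_lit 12) (nat_lit 7))
    (@En.n l15047 (nat_lit 7253) (nat_lit 13) (nat_lit 10))
    (@En.n l9455 (nat_lit 3801) (nat_lit 4) (nat_lit 3))
    (@En.n l6643 (nat_lit 1227) (nat_lit 0) (nat_lit 5))
    (@En.n l50 (nat_lit 3803) (nat_lit 15) (nat_lit 2))))
  (@Cl.mk (nat_lit 0x2000a0006000e000c0002000d000600040003000d000c000a0003000e0004) (nat_lit 0x801301000b82020) (nat_lit 16) Lb.e (@T16.mk En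
    (@En.n l117 (nat_lit 3807) (nat_lit 5) (nat_lit 4))
    (@En.n l2691 (nat_lit 585) (nat_lit 1) (nat_lit 14))
    (@En.n l936 (nat_lit 3802) (nat_lit 2) (nat_lit 3))
    (@En.n l2054 (nat_lit 3726) (nat_lit 3) (nat_lit 10))
    (@En.n l936 (nat_lit 3801) (nat_lit 10) (nat_lit 12))
    (@En.i (nat_lit 8677) (nat_lit 11) (nat_lit 13))
    (@En.n l763 (nat_lit 3805) (nat_lit 6) (nat_lit 3))
    (@En.i (nat_lit 3776) (nat_lit 7) (nat_lit 4))
    (@En.n l1545 (nat_lit 3908) (nat_lit 14) (nat_lit 6))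
    (@En.n l5842 (nat_lit 532) (nat_lit 10) (nat_lit 13))
    (@En.n l50 (nat_lit 3804) (nat_lit 10) (nat_lit 2))
    (@En.n l217 (nat_lit 3646) (nat_lit 12) (nat_lit 12))
    (@En.n l5842 (nat_lit 351) (nat_lit 1) (nat_lit 14))
    (@En.n l5857 (nat_lit 3080) (nat_lit 14) (nat_lit 6))
    (@En.n l5858 (nat_lit 7584) (nat_lit 3) (nat_lit 10))
    (@En.n l11 (nat_lit 3804) (nat_lit 15) (nat_lit 2))))
  (@Cl.mk (nat_lit 0x200090006000e000d0002000d000300070003000d000c000a0003000e0004) (nat_lit 0x601302000b82020) (nat_lit 16) Lb.e (@T16.mk En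
    (@En.n l117 (nat_lit 3806) (nat_lit 5) (nat_lit 4))
    (@En.n l2691 (nat_lit 565) (nat_lit 1) (nat_lit 14))
    (@En.n l936 (nat_lit 3800) (nat_lit 2) (nat_lit 3))
    (@En.i (nat_lit 3725) (nat_lit 3) (nat_lit 10))
    (@En.n l936 (nat_lit 3799) (nat_lit 10) (nat_lit 12))
    (@En.i (nat_lit 7071) (nat_lit 11) (nat_lit 13))
    (@En.n l2364 (nat_lit 3804) (nat_lit 6) (nat_lit 3))
    (@En.i (nat_lit 4796) (nat_lit 7) (nat_lit 7))
    (@En.i (nat_lit 3648) (nat_lit 8) (nat_lit 3))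
    (@En.i (nat_lit 534) (nat_lit 0) (nat_lit 13))
    (@En.n l50 (nat_lit 3805) (nat_lit 10) (nat_lit 2))
    (@En.n l396 (nat_lit 3648) (nat_lit 12) (nat_lit 13))
    (@En.n l2004 (nat_lit 358) (nat_lit 1) (nat_lit 14))
    (@En.n l4473 (nat_lit 3079) (nat_lit 14) (nat_lit 6))
    (@En.n l614 (nat_lit 7265) (nat_lit 3) (nat_lit 9))
    (@En.n l11 (nat_lit 3805) (nat_lit 15) (nat_lit 2))))
  (@Cl.mk (nat_lit 0x2000d000300070003000c000c000c000b00040004000400090005000e000d) (nat_lit 0x200070930000011) (nat_lit 16) Lb.e (@T16.mk En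
    (@En.n l396 (nat_lit 3074) (nat_lit 2) (nat_lit 13))
    (@En.i (nat_lit 360) (nat_lit 1) (nat_lit 14))
    (@En.n l1393 (nat_lit 2651) (nat_lit 2) (nat_lit 5))
    (@En.n l287 (nat_lit 7266) (nat_lit 3) (nat_lit 9))
    (@En.n l11 (nat_lit 3892) (nat_lit 12) (nat_lit 4))
    (@En.n l152 (nat_lit 3808) (nat_lit 5) (nat_lit 4))
    (@En.n l936 (nat_lit 3799) (nat_lit 6) (nat_lit 4))
    (@En.n l55 (nat_lit 3877) (nat_lit 8) (nat_lit 11))
    (@En.n l619 (nat_lit 3805) (nat_lit 4) (nat_lit 12))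
    (@En.n l1867 (nat_lit 3889) (nat_lit 4) (nat_lit 12))
    (@En.i (nat_lit 7076) (nat_lit 11) (nat_lit 12))
    (@En.n l2364 (nat_lit 3807) (nat_lit 11) (nat_lit 3))
    (@En.i (nat_lit 4693) (nat_lit 0) (nat_lit 7))
    (@En.i (nat_lit 3074) (nat_lit 14) (nat_lit 3))
    (@En.i (nat_lit 543) (nat_lit 0) (nat_lit 13))
    (@En.n l50 (nat_lit 3806) (nat_lit 15) (nat_lit 2))))
  (@Cl.mk (nat_lit 0x2000d000600040003000c000c000c000b000400040004000a0005000e000c) (nat_lit 0x100070930007012) (nat_lit 16) Lb.e (@T16.mk En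
    (@En.n l217 (nat_lit 3818) (nat_lit 10) (nat_lit 12))
    (@En.i (nat_lit 354) (nat_lit 1) (nat_lit 14))
    (@En.n l1573 (nat_lit 2652) (nat_lit 2) (nat_lit 5))
    (@En.n l845 (nat_lit 6364) (nat_lit 3) (nat_lit 10))
    (@En.n l11 (nat_lit 3893) (nat_lit 12) (nat_lit 4))
    (@En.n l152 (nat_lit 3809) (nat_lit 5) (nat_lit 4))
    (@En.n l936 (nat_lit 3801) (nat_lit 6) (nat_lit 4))
    (@En.n l55 (nat_lit 3874) (nat_lit 8) (nat_lit 11))
    (@En.n l619 (nat_lit 3804) (nat_lit 4) (nat_lit 12))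
    (@En.n l5746 (nat_lit 3888) (nat_lit 4) (nat_lit 12))
    (@En.i (nat_lit 8679) (nat_lit 11) (nat_lit 12))
    (@En.n l763 (nat_lit 3806) (nat_lit 11) (nat_lit 3))
    (@En.i (nat_lit 3756) (nat_lit 0) (nat_lit 4))
    (@En.n l1545 (nat_lit 3898) (nat_lit 14) (nat_lit 6))
    (@En.n l765 (nat_lit 542) (nat_lit 1) (nat_lit 13))
    (@En.n l50 (nat_lit 3807) (nat_lit 15) (nat_lit 2))))
noncomputable def a238 : T16 Cl := @T16.mk Cl
  (@Cl.mk (nat_lit 0x2000d000300070003000e000c0002000d000c0004000300090004000e000d) (nat_lit 0x1000c8012006010) (nat_lit 16) Lb.e (@T16.mk En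
    (@En.n l396 (nat_lit 3810) (nat_lit 8) (nat_lit 13))
    (@En.i (nat_lit 375) (nat_lit 1) (nat_lit 14))
    (@En.n l1393 (nat_lit 3728) (nat_lit 9) (nat_lit 4))
    (@En.n l287 (nat_lit 4002) (nat_lit 11) (nat_lit 9))
    (@En.n l11 (nat_lit 3811) (nat_lit 4) (nat_lit 3))
    (@En.i (nat_lit 3805) (nat_lit 0) (nat_lit 4))
    (@En.n l55 (nat_lit 3732) (nat_lit 14) (nat_lit 12))
    (@En.n l615 (nat_lit 564) (nat_lit 8) (nat_lit 13))
    (@En.n l3 (nat_lit 3808) (nat_lit 8) (nat_lit 2))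
    (@En.i (nat_lit 3806) (nat_lit 10) (nat_lit 12))
    (@En.i (nat_lit 6979) (nat_lit 1) (nat_lit 14))
    (@En.n l2364 (nat_lit 3809) (nat_lit 11) (nat_lit 3))
    (@En.i (nat_lit 4749) (nat_lit 3) (nat_lit 7))
    (@En.i (nat_lit 3810) (nat_lit 4) (nat_lit 3))
    (@En.i (nat_lit 518) (nat_lit 0) (nat_lit 13))
    (@En.n l50 (nat_lit 3808) (nat_lit 15) (nat_lit 2))))
  (@Cl.mk (nat_lit 0x2000d000600040003000e000c0002000d000c00040003000a0004000e000c) (nat_lit 0x1000c8013008012) (nat_lit 16) Lb.e (@T16.mk En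
    (@En.n l217 (nat_lit 3816) (nat_lit 8) (nat_lit 12))
    (@En.i (nat_lit 378) (nat_lit 1) (nat_lit 14))
    (@En.n l1573 (nat_lit 3729) (nat_lit 9) (nat_lit 4))
    (@En.n l845 (nat_lit 7585) (nat_lit 11) (nat_lit 10))
    (@En.n l11 (nat_lit 3814) (nat_lit 11) (nat_lit 3))
    (@En.i (nat_lit 3804) (nat_lit 0) (nat_lit 4))
    (@En.n l55 (nat_lit 3733) (nat_lit 14) (nat_lit 12))
    (@En.n l1966 (nat_lit 567) (nat_lit 8) (nat_lit 13))
    (@En.n l3 (nat_lit 3809) (nat_lit 8) (nat_lit 2))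
    (@En.i (nat_lit 3807) (nat_lit 10) (nat_lit 12))
    (@En.i (nat_lit 8638) (nat_lit 1) (nat_lit 14))
    (@En.n l763 (nat_lit 3808) (nat_lit 11) (nat_lit 3))
    (@En.i (nat_lit 3831) (nat_lit 3) (nat_lit 4))
    (@En.n l1545 (nat_lit 3910) (nat_lit 14) (nat_lit 6))
    (@En.n l765 (nat_lit 519) (nat_lit 6) (nat_lit 13))
    (@En.n l50 (nat_lit 3809) (nat_lit 15) (nat_lit 2))))
  (@Cl.mk (nat_lit 0x2000d000c0004000300090004000d000d000c0003000300070004000e000c) (nat_lit 0x120060b030000c9) (nat_lit 16) Lb.e (@T16.mk En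
    (@En.i (nat_lit 3074) (nat_lit 11) (nat_lit 12))
    (@En.i (nat_lit 6974) (nat_lit 1) (nat_lit 14))
    (@En.n l403 (nat_lit 3816) (nat_lit 2) (nat_lit 4))
    (@En.n l1353 (nat_lit 4397) (nat_lit 3) (nat_lit 7))
    (@En.n l18 (nat_lit 3808) (nat_lit 13) (nat_lit 3))
    (@En.i (nat_lit 4014) (nat_lit 0) (nat_lit 3))
    (@En.n l6444 (nat_lit 3809) (nat_lit 0) (nat_lit 12))
    (@En.n l396 (nat_lit 4014) (nat_lit 3) (nat_lit 13))
    (@En.i (nat_lit 3865) (nat_lit 9) (nat_lit 13))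
    (@En.n l1392 (nat_lit 3727) (nat_lit 9) (nat_lit 4))
    (@En.n l287 (nat_lit 4004) (nat_lit 11) (nat_lit 9))
    (@En.n l11 (nat_lit 3813) (nat_lit 11) (nat_lit 3))
    (@En.i (nat_lit 3648) (nat_lit 0) (nat_lit 4))
    (@En.n l55 (nat_lit 3880) (nat_lit 14) (nat_lit 12))
    (@En.n l615 (nat_lit 558) (nat_lit 1) (nat_lit 13))
    (@En.n l3 (nat_lit 3810) (nat_lit 15) (nat_lit 2))))
  (@Cl.mk (nat_lit 0x2000d000300070003000e000d0002000d0003000d000300090003000e000d) (nat_lit 0x2000ba020606010) (nat_lit 16) Lb.e (@T16.mk En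
    (@En.n l396 (nat_lit 3813) (nat_lit 8) (nat_lit 13))
    (@En.i (nat_lit 374) (nat_lit 1) (nat_lit 14))
    (@En.i (nat_lit 3732) (nat_lit 9) (nat_lit 3))
    (@En.i (nat_lit 4730) (nat_lit 11) (nat_lit 9))
    (@En.i (nat_lit 3808) (nat_lit 4) (nat_lit 3))
    (@En.i (nat_lit 4722) (nat_lit 0) (nat_lit 13))
    (@En.n l117 (nat_lit 3812) (nat_lit 6) (nat_lit 3))
    (@En.i (nat_lit 566) (nat_lit 0) (nat_lit 13))
    (@En.n l3 (nat_lit 3811) (nat_lit 8) (nat_lit 2))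
    (@En.i (nat_lit 3812) (nat_lit 10) (nat_lit 13))
    (@En.i (nat_lit 6977) (nat_lit 1) (nat_lit 14))
    (@En.n l2364 (nat_lit 3814) (nat_lit 2) (nat_lit 3))
    (@En.i (nat_lit 4746) (nat_lit 3) (nat_lit 7))
    (@En.i (nat_lit 3813) (nat_lit 4) (nat_lit 3))
    (@En.i (nat_lit 516) (nat_lit 0) (nat_lit 13))
    (@En.n l50 (nat_lit 3811) (nat_lit 15) (nat_lit 2))))
  (@Cl.mk (nat_lit 0x2000d000300070003000d000d000c00030003000d000400090003000e000d) (nat_lit 0x20009b900606011) (nat_lit 16) Lb.e (@T16.mk En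
    (@En.n l396 (nat_lit 3071) (nat_lit 2) (nat_lit 13))
    (@En.i (nat_lit 365) (nat_lit 1) (nat_lit 14))
    (@En.i (nat_lit 3877) (nat_lit 2) (nat_lit 3))
    (@En.n l649 (nat_lit 4600) (nat_lit 3) (nat_lit 9))
    (@En.i (nat_lit 3806) (nat_lit 4) (nat_lit 4))
    (@En.i (nat_lit 4281) (nat_lit 6) (nat_lit 13))
    (@En.n l152 (nat_lit 3811) (nat_lit 6) (nat_lit 3))
    (@En.n l1865 (nat_lit 3890) (nat_lit 7) (nat_lit 3))
    (@En.n l619 (nat_lit 3808) (nat_lit 9) (nat_lit 12))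
    (@En.n l1867 (nat_lit 3890) (nat_lit 10) (nat_lit 13))
    (@En.i (nat_lit 5411) (nat_lit 11) (nat_lit 13))
    (@En.n l2364 (nat_lit 3815) (nat_lit 11) (nat_lit 3))
    (@En.i (nat_lit 4695) (nat_lit 0) (nat_lit 7))
    (@En.i (nat_lit 3071) (nat_lit 14) (nat_lit 3))
    (@En.i (nat_lit 514) (nat_lit 0) (nat_lit 13))
    (@En.n l50 (nat_lit 3812) (nat_lit 15) (nat_lit 2))))
  (@Cl.mk (nat_lit 0x2000d0003000d000300090003000d000d000c0003000300070004000e000d) (nat_lit 0x200060b030000b1) (nat_lit 16) Lb.e (@T16.mk En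
    (@En.i (nat_lit 3071) (nat_lit 11) (nat_lit 13))
    (@En.i (nat_lit 6973) (nat_lit 1) (nat_lit 14))
    (@En.n l403 (nat_lit 3817) (nat_lit 2) (nat_lit 4))
    (@En.n l1353 (nat_lit 4404) (nat_lit 3) (nat_lit 7))
    (@En.n l18 (nat_lit 3811) (nat_lit 13) (nat_lit 3))
    (@En.i (nat_lit 4015) (nat_lit 0) (nat_lit 3))
    (@En.n l6444 (nat_lit 3814) (nat_lit 7) (nat_lit 12))
    (@En.n l396 (nat_lit 4015) (nat_lit 3) (nat_lit 13))
    (@En.i (nat_lit 4288) (nat_lit 9) (nat_lit 13))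
    (@En.i (nat_lit 3880) (nat_lit 9) (nat_lit 3))
    (@En.n l1353 (nat_lit 4598) (nat_lit 11) (nat_lit 9))
    (@En.i (nat_lit 3810) (nat_lit 11) (nat_lit 3))
    (@En.i (nat_lit 4721) (nat_lit 0) (nat_lit 13))
    (@En.n l117 (nat_lit 3071) (nat_lit 7) (nat_lit 3))
    (@En.i (nat_lit 563) (nat_lit 0) (nat_lit 13))
    (@En.n l3 (nat_lit 3813) (nat_lit 15) (nat_lit 2))))
  (@Cl.mk (nat_lit 0x2000d0003000d0003000a0003000e000c0002000d000600040003000e000d) (nat_lit 0x2000801201000ba) (nat_lit 16) Lb.e (@T16.mk En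
    (@En.i (nat_lit 3815) (nat_lit 10) (nat_lit 13))
    (@En.i (nat_lit 8636) (nat_lit 1) (nat_lit 14))
    (@En.n l763 (nat_lit 3811) (nat_lit 11) (nat_lit 3))
    (@En.i (nat_lit 4056) (nat_lit 3) (nat_lit 4))
    (@En.n l1545 (nat_lit 3911) (nat_lit 14) (nat_lit 6))
    (@En.n l765 (nat_lit 515) (nat_lit 6) (nat_lit 13))
    (@En.n l50 (nat_lit 3814) (nat_lit 6) (nat_lit 2))
    (@En.n l217 (nat_lit 3817) (nat_lit 8) (nat_lit 12))
    (@En.i (nat_lit 376) (nat_lit 1) (nat_lit 14))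
    (@En.i (nat_lit 3733) (nat_lit 9) (nat_lit 3))
    (@En.i (nat_lit 4850) (nat_lit 11) (nat_lit 10))
    (@En.i (nat_lit 3809) (nat_lit 4) (nat_lit 3))
    (@En.i (nat_lit 4725) (nat_lit 0) (nat_lit 13))
    (@En.n l117 (nat_lit 3815) (nat_lit 6) (nat_lit 3))
    (@En.i (nat_lit 584) (nat_lit 0) (nat_lit 13))
    (@En.n l3 (nat_lit 3814) (nat_lit 15) (nat_lit 2))))
  (@Cl.mk (nat_lit 0x2000d000600040003000d000d000c00030003000d0004000a0003000e000c) (nat_lit 0x10009b900907012) (nat_lit 16) Lb.e (@T16.mk En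
    (@En.n l217 (nat_lit 3761) (nat_lit 9) (nat_lit 12))
    (@En.i (nat_lit 377) (nat_lit 1) (nat_lit 14))
    (@En.i (nat_lit 3874) (nat_lit 2) (nat_lit 3))
    (@En.n l4322 (nat_lit 4843) (nat_lit 3) (nat_lit 10))
    (@En.i (nat_lit 3807) (nat_lit 4) (nat_lit 4))
    (@En.i (nat_lit 3870) (nat_lit 6) (nat_lit 13))
    (@En.n l152 (nat_lit 3814) (nat_lit 13) (nat_lit 3))
    (@En.n l2552 (nat_lit 3891) (nat_lit 0) (nat_lit 3))
    (@En.n l619 (nat_lit 3809) (nat_lit 9) (nat_lit 12))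
    (@En.n l5746 (nat_lit 3891) (nat_lit 3) (nat_lit 13))
    (@En.i (nat_lit 8639) (nat_lit 11) (nat_lit 13))
    (@En.n l763 (nat_lit 3812) (nat_lit 11) (nat_lit 3))
    (@En.i (nat_lit 3755) (nat_lit 0) (nat_lit 4))
    (@En.n l1545 (nat_lit 3087) (nat_lit 14) (nat_lit 6))
    (@En.n l765 (nat_lit 509) (nat_lit 1) (nat_lit 13))
    (@En.n l50 (nat_lit 3815) (nat_lit 15) (nat_lit 2))))
  (@Cl.mk (nat_lit 0x2000d000c00040003000b0004000c000c000c0005000400040004000e000c) (nat_lit 0x1300501030000c9) (nat_lit 16) Lb.e (@T16.mk En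
    (@En.i (nat_lit 3818) (nat_lit 3) (nat_lit 12))
    (@En.i (nat_lit 7345) (nat_lit 1) (nat_lit 14))
    (@En.n l1778 (nat_lit 4017) (nat_lit 12) (nat_lit 4))
    (@En.n l2172 (nat_lit 3809) (nat_lit 12) (nat_lit 4))
    (@En.i (nat_lit 3829) (nat_lit 4) (nat_lit 4))
    (@En.n l2781 (nat_lit 3088) (nat_lit 5) (nat_lit 5))
    (@En.n l742 (nat_lit 3831) (nat_lit 7) (nat_lit 12))
    (@En.n l396 (nat_lit 3856) (nat_lit 4) (nat_lit 12))
    (@En.n l7 (nat_lit 1219) (nat_lit 9) (nat_lit 12))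
    (@En.n l11 (nat_lit 2683) (nat_lit 9) (nat_lit 4))
    (@En.n l5663 (nat_lit 6766) (nat_lit 11) (nat_lit 11))
    (@En.n l11 (nat_lit 3817) (nat_lit 11) (nat_lit 3))
    (@En.i (nat_lit 3646) (nat_lit 0) (nat_lit 4))
    (@En.n l55 (nat_lit 3887) (nat_lit 14) (nat_lit 12))
    (@En.i (nat_lit 586) (nat_lit 1) (nat_lit 13))
    (@En.n l3 (nat_lit 3816) (nat_lit 15) (nat_lit 2))))
  (@Cl.mk (nat_lit 0x2000d0003000d0003000b0003000c000c000c0005000400040004000e000d) (nat_lit 0x2080501030000b1) (nat_lit 16) Lb.e (@T16.mk En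
    (@En.i (nat_lit 3761) (nat_lit 2) (nat_lit 13))
    (@En.i (nat_lit 8634) (nat_lit 1) (nat_lit 14))
    (@En.n l1778 (nat_lit 4016) (nat_lit 12) (nat_lit 4))
    (@En.n l2172 (nat_lit 3814) (nat_lit 3) (nat_lit 4))
    (@En.i (nat_lit 4021) (nat_lit 4) (nat_lit 4))
    (@En.n l2781 (nat_lit 3086) (nat_lit 5) (nat_lit 5))
    (@En.n l742 (nat_lit 4056) (nat_lit 7) (nat_lit 12))
    (@En.n l396 (nat_lit 3855) (nat_lit 4) (nat_lit 12))
    (@En.n l7 (nat_lit 1218) (nat_lit 9) (nat_lit 12))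
    (@En.i (nat_lit 3887) (nat_lit 9) (nat_lit 3))
    (@En.i (nat_lit 4820) (nat_lit 11) (nat_lit 11))
    (@En.i (nat_lit 3816) (nat_lit 11) (nat_lit 3))
    (@En.i (nat_lit 4731) (nat_lit 0) (nat_lit 13))
    (@En.n l117 (nat_lit 3761) (nat_lit 14) (nat_lit 3))
    (@En.i (nat_lit 588) (nat_lit 0) (nat_lit 13))
    (@En.n l3 (nat_lit 3817) (nat_lit 15) (nat_lit 2))))
  (@Cl.mk (nat_lit 0x400040004000b0005000c000c000c0005000400040004000c000c000c000b) (nat_lit 0x701a300008aa3) (nat_lit 16) Lb.e (@T16.mk En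
    (@En.n l55 (nat_lit 3758) (nat_lit 0) (nat_lit 11))
    (@En.n l619 (nat_lit 3646) (nat_lit 4) (nat_lit 12))
    (@En.i (nat_lit 3846) (nat_lit 4) (nat_lit 12))
    (@En.i (nat_lit 8505) (nat_lit 13) (nat_lit 12))
    (@En.n l2781 (nat_lit 3585) (nat_lit 12) (nat_lit 4))
    (@En.n l2172 (nat_lit 3807) (nat_lit 12) (nat_lit 4))
    (@En.i (nat_lit 3819) (nat_lit 0) (nat_lit 4))
    (@En.n l2781 (nat_lit 3902) (nat_lit 0) (nat_lit 5))
    (@En.n l742 (nat_lit 3756) (nat_lit 4) (nat_lit 12))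
    (@En.n l396 (nat_lit 3847) (nat_lit 4) (nat_lit 12))
    (@En.n l7 (nat_lit 2724) (nat_lit 11) (nat_lit 12))
    (@En.i (nat_lit 1381) (nat_lit 4) (nat_lit 5))
    (@En.i (nat_lit 5888) (nat_lit 13) (nat_lit 11))
    (@En.n l11 (nat_lit 3587) (nat_lit 12) (nat_lit 4))
    (@En.n l152 (nat_lit 3816) (nat_lit 12) (nat_lit 4))
    (@En.n l936 (nat_lit 3790) (nat_lit 0) (nat_lit 4))))
  (@Cl.mk (nat_lit 0x30003000c000c000c000b000400040004000d0005000c0003000d000d0004) (nat_lit 0x89a30004010830) (nat_lit 16) Lb.e (@T16.mk En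
    (@En.i (nat_lit 3847) (nat_lit 0) (nat_lit 4))
    (@En.n l61 (nat_lit 3820) (nat_lit 3) (nat_lit 13))
    (@En.i (nat_lit 3074) (nat_lit 1) (nat_lit 13))
    (@En.i (nat_lit 3822) (nat_lit 3) (nat_lit 3))
    (@En.i (nat_lit 1157) (nat_lit 0) (nat_lit 12))
    (@En.i (nat_lit 1166) (nat_lit 5) (nat_lit 5))
    (@En.n l134 (nat_lit 4082) (nat_lit 7) (nat_lit 13))
    (@En.n l11 (nat_lit 3832) (nat_lit 12) (nat_lit 4))
    (@En.n l152 (nat_lit 3829) (nat_lit 12) (nat_lit 4))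
    (@En.n l936 (nat_lit 3719) (nat_lit 9) (nat_lit 4))
    (@En.n l55 (nat_lit 4046) (nat_lit 0) (nat_lit 11))
    (@En.n l619 (nat_lit 3644) (nat_lit 4) (nat_lit 12))
    (@En.i (nat_lit 3841) (nat_lit 4) (nat_lit 12))
    (@En.i (nat_lit 8503) (nat_lit 14) (nat_lit 12))
    (@En.i (nat_lit 3593) (nat_lit 13) (nat_lit 3))
    (@En.n l18 (nat_lit 3820) (nat_lit 0) (nat_lit 3))))
  (@Cl.mk (nat_lit 0x2000c000c000c000b000400040004000d0005000d0003000d0003000e0003) (nat_lit 0x809300020a02050) (nat_lit 16) Lb.e (@T16.mk En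
    (@En.i (nat_lit 3819) (nat_lit 15) (nat_lit 3))
    (@En.i (nat_lit 13679) (nat_lit 0) (nat_lit 14))
    (@En.i (nat_lit 3756) (nat_lit 2) (nat_lit 3))
    (@En.i (nat_lit 3806) (nat_lit 0) (nat_lit 13))
    (@En.i (nat_lit 3821) (nat_lit 4) (nat_lit 3))
    (@En.i (nat_lit 1156) (nat_lit 0) (nat_lit 13))
    (@En.i (nat_lit 2671) (nat_lit 6) (nat_lit 5))
    (@En.n l134 (nat_lit 6317) (nat_lit 8) (nat_lit 13))
    (@En.n l11 (nat_lit 3833) (nat_lit 8) (nat_lit 4))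
    (@En.n l152 (nat_lit 3830) (nat_lit 12) (nat_lit 4))
    (@En.n l936 (nat_lit 3718) (nat_lit 10) (nat_lit 4))
    (@En.n l55 (nat_lit 4044) (nat_lit 12) (nat_lit 11))
    (@En.n l619 (nat_lit 3777) (nat_lit 4) (nat_lit 12))
    (@En.i (nat_lit 4070) (nat_lit 4) (nat_lit 12))
    (@En.i (nat_lit 8500) (nat_lit 12) (nat_lit 12))
    (@En.n l17 (nat_lit 3820) (nat_lit 15) (nat_lit 2))))
  (@Cl.mk (nat_lit 0x2000c000c000c000a000400040004000d000c00060003000d0004000e0003) (nat_lit 0x609200049008040) (nat_lit 16) Lb.e (@T16.mk En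
    (@En.i (nat_lit 3822) (nat_lit 15) (nat_lit 3))
    (@En.i (nat_lit 13433) (nat_lit 0) (nat_lit 14))
    (@En.n l7 (nat_lit 2654) (nat_lit 2) (nat_lit 4))
    (@En.n l396 (nat_lit 4395) (nat_lit 2) (nat_lit 13))
    (@En.n l7 (nat_lit 3820) (nat_lit 4) (nat_lit 3))
    (@En.i (nat_lit 1953) (nat_lit 5) (nat_lit 6))
    (@En.n l644 (nat_lit 3756) (nat_lit 7) (nat_lit 12))
    (@En.n l134 (nat_lit 6310) (nat_lit 8) (nat_lit 13))
    (@En.n l11 (nat_lit 3834) (nat_lit 12) (nat_lit 4))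
    (@En.n l152 (nat_lit 3828) (nat_lit 12) (nat_lit 4))
    (@En.n l936 (nat_lit 3784) (nat_lit 10) (nat_lit 4))
    (@En.i (nat_lit 4098) (nat_lit 12) (nat_lit 10))
    (@En.n l619 (nat_lit 3782) (nat_lit 4) (nat_lit 12))
    (@En.i (nat_lit 4071) (nat_lit 4) (nat_lit 12))
    (@En.i (nat_lit 8502) (nat_lit 14) (nat_lit 12))
    (@En.n l17 (nat_lit 3821) (nat_lit 15) (nat_lit 2))))
  (@Cl.mk (nat_lit 0x30003000c000c000c000a000400040004000d000b00060003000d000d0005) (nat_lit 0x70950003800390) (nat_lit 16) Lb.e (@T16.mk En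
    (@En.n l7 (nat_lit 2667) (nat_lit 0) (nat_lit 5))
    (@En.n l61 (nat_lit 3821) (nat_lit 3) (nat_lit 13))
    (@En.n l396 (nat_lit 4394) (nat_lit 2) (nat_lit 13))
    (@En.n l7 (nat_lit 3819) (nat_lit 3) (nat_lit 3))
    (@En.n l137 (nat_lit 1945) (nat_lit 0) (nat_lit 6))
    (@En.i (nat_lit 3818) (nat_lit 12) (nat_lit 11))
    (@En.n l134 (nat_lit 4081) (nat_lit 7) (nat_lit 13))
    (@En.n l11 (nat_lit 3825) (nat_lit 12) (nat_lit 4))
    (@En.n l152 (nat_lit 3824) (nat_lit 12) (nat_lit 4))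
    (@En.n l936 (nat_lit 3785) (nat_lit 9) (nat_lit 4))
    (@En.i (nat_lit 3276) (nat_lit 0) (nat_lit 10))
    (@En.n l619 (nat_lit 3645) (nat_lit 4) (nat_lit 12))
    (@En.i (nat_lit 3826) (nat_lit 4) (nat_lit 12))
    (@En.i (nat_lit 8504) (nat_lit 14) (nat_lit 12))
    (@En.n l1777 (nat_lit 3823) (nat_lit 13) (nat_lit 3))
    (@En.n l18 (nat_lit 3821) (nat_lit 0) (nat_lit 3))))
  (@Cl.mk (nat_lit 0x200060003000c000c000c000a000400040004000d000a00060003000e000d) (nat_lit 0x6095000380034) (nat_lit 16) Lb.e (@T16.mk En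
    (@En.n l681 (nat_lit 3822) (nat_lit 2) (nat_lit 13))
    (@En.i (nat_lit 3563) (nat_lit 1) (nat_lit 14))
    (@En.n l5359 (nat_lit 3593) (nat_lit 2) (nat_lit 3))
    (@En.i (nat_lit 1952) (nat_lit 3) (nat_lit 6))
    (@En.n l5360 (nat_lit 3585) (nat_lit 4) (nat_lit 10))
    (@En.n l3786 (nat_lit 6338) (nat_lit 6) (nat_lit 13))
    (@En.n l5361 (nat_lit 3835) (nat_lit 6) (nat_lit 4))
    (@En.n l5362 (nat_lit 4025) (nat_lit 7) (nat_lit 4))
    (@En.n l5363 (nat_lit 3789) (nat_lit 8) (nat_lit 4))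
    (@En.n l2337 (nat_lit 3277) (nat_lit 10) (nat_lit 10))
    (@En.n l601 (nat_lit 3643) (nat_lit 11) (nat_lit 12))
    (@En.n l2281 (nat_lit 3840) (nat_lit 4) (nat_lit 12))
    (@En.n l11 (nat_lit 12605) (nat_lit 13) (nat_lit 12))
    (@En.n l1574 (nat_lit 3822) (nat_lit 14) (nat_lit 3))
    (@En.n l5364 (nat_lit 2240) (nat_lit 0) (nat_lit 6))
    (@En.n l3 (nat_lit 3823) (nat_lit 15) (nat_lit 2))))
noncomputable def a239 : T16 Cl := @T16.mk Cl
  (@Cl.mk (nat_lit 0x2000d000b00040003000d000b00050003000d000d000500030003000e000c) (nat_lit 0x2300460034000c8) (nat_lit 16) Lb.e (@T16.mk En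
    (@En.i (nat_lit 3822) (nat_lit 13) (nat_lit 12))
    (@En.i (nat_lit 8491) (nat_lit 1) (nat_lit 14))
    (@En.i (nat_lit 4025) (nat_lit 13) (nat_lit 3))
    (@En.n l18 (nat_lit 3828) (nat_lit 3) (nat_lit 3))
    (@En.n l7 (nat_lit 3080) (nat_lit 0) (nat_lit 5))
    (@En.n l61 (nat_lit 3828) (nat_lit 6) (nat_lit 13))
    (@En.n l564 (nat_lit 4399) (nat_lit 7) (nat_lit 13))
    (@En.n l7 (nat_lit 3829) (nat_lit 7) (nat_lit 3))
    (@En.n l137 (nat_lit 1948) (nat_lit 8) (nat_lit 5))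
    (@En.i (nat_lit 3816) (nat_lit 10) (nat_lit 11))
    (@En.n l287 (nat_lit 6311) (nat_lit 11) (nat_lit 13))
    (@En.n l11 (nat_lit 4026) (nat_lit 11) (nat_lit 3))
    (@En.i (nat_lit 3645) (nat_lit 0) (nat_lit 4))
    (@En.i (nat_lit 3278) (nat_lit 14) (nat_lit 11))
    (@En.i (nat_lit 842) (nat_lit 1) (nat_lit 13))
    (@En.n l3 (nat_lit 3824) (nat_lit 15) (nat_lit 2))))
  (@Cl.mk (nat_lit 0x2000b00050004000d000b00050003000d000d000500030003000b000e000c) (nat_lit 0x900750000000661) (nat_lit 16) Lb.e (@T16.mk En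
    (@En.n l68 (nat_lit 3822) (nat_lit 12) (nat_lit 12))
    (@En.n l4003 (nat_lit 2901) (nat_lit 4) (nat_lit 14))
    (@En.i (nat_lit 7482) (nat_lit 2) (nat_lit 11))
    (@En.n l11548 (nat_lit 3835) (nat_lit 13) (nat_lit 3))
    (@En.n l18 (nat_lit 3834) (nat_lit 4) (nat_lit 3))
    (@En.n l7 (nat_lit 2665) (nat_lit 0) (nat_lit 5))
    (@En.n l61 (nat_lit 3834) (nat_lit 7) (nat_lit 13))
    (@En.n l4003 (nat_lit 4434) (nat_lit 8) (nat_lit 13))
    (@En.n l7 (nat_lit 3832) (nat_lit 8) (nat_lit 3))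
    (@En.n l3503 (nat_lit 4092) (nat_lit 9) (nat_lit 5))
    (@En.i (nat_lit 3587) (nat_lit 11) (nat_lit 11))
    (@En.n l645 (nat_lit 4489) (nat_lit 12) (nat_lit 13))
    (@En.i (nat_lit 3827) (nat_lit 12) (nat_lit 4))
    (@En.i (nat_lit 3836) (nat_lit 14) (nat_lit 5))
    (@En.n l575 (nat_lit 3039) (nat_lit 10) (nat_lit 11))
    (@En.n l67 (nat_lit 3825) (nat_lit 15) (nat_lit 2))))
  (@Cl.mk (nat_lit 0x20005000d000b00070003000d000d000500030003000c000b0009000e0004) (nat_lit 0x680024000a87c0) (nat_lit 16) Lb.e (@T16.mk En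
    (@En.n l152 (nat_lit 3822) (nat_lit 9) (nat_lit 4))
    (@En.n l936 (nat_lit 3844) (nat_lit 1) (nat_lit 14))
    (@En.n l11338 (nat_lit 4099) (nat_lit 2) (nat_lit 9))
    (@En.n l97 (nat_lit 3836) (nat_lit 3) (nat_lit 11))
    (@En.n l11609 (nat_lit 9763) (nat_lit 5) (nat_lit 12))
    (@En.n l4005 (nat_lit 3840) (nat_lit 5) (nat_lit 3))
    (@En.n l18 (nat_lit 4071) (nat_lit 6) (nat_lit 3))
    (@En.n l5411 (nat_lit 2666) (nat_lit 7) (nat_lit 5))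
    (@En.n l61 (nat_lit 4071) (nat_lit 9) (nat_lit 13))
    (@En.n l4003 (nat_lit 4425) (nat_lit 10) (nat_lit 13))
    (@En.n l7 (nat_lit 3841) (nat_lit 10) (nat_lit 3))
    (@En.n l4297 (nat_lit 4505) (nat_lit 12) (nat_lit 7))
    (@En.i (nat_lit 3846) (nat_lit 13) (nat_lit 11))
    (@En.n l10008 (nat_lit 4075) (nat_lit 14) (nat_lit 13))
    (@En.n l4976 (nat_lit 2736) (nat_lit 13) (nat_lit 5))
    (@En.n l3 (nat_lit 3826) (nat_lit 15) (nat_lit 2))))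
  (@Cl.mk (nat_lit 0x30003000c0004000d000b00040003000d000d000500030003000d000d000c) (nat_lit 0x60780034000ab9) (nat_lit 16) Lb.e (@T16.mk En
    (@En.n l619 (nat_lit 3824) (nat_lit 0) (nat_lit 12))
    (@En.i (nat_lit 3844) (nat_lit 3) (nat_lit 13))
    (@En.i (nat_lit 10196) (nat_lit 2) (nat_lit 13))
    (@En.i (nat_lit 4024) (nat_lit 13) (nat_lit 3))
    (@En.n l18 (nat_lit 4053) (nat_lit 0) (nat_lit 3))
    (@En.n l7 (nat_lit 3077) (nat_lit 0) (nat_lit 5))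
    (@En.n l61 (nat_lit 4053) (nat_lit 3) (nat_lit 13))
    (@En.n l396 (nat_lit 4407) (nat_lit 8) (nat_lit 13))
    (@En.n l7 (nat_lit 4027) (nat_lit 8) (nat_lit 3))
    (@En.i (nat_lit 4096) (nat_lit 0) (nat_lit 4))
    (@En.i (nat_lit 3761) (nat_lit 11) (nat_lit 11))
    (@En.i (nat_lit 3572) (nat_lit 1) (nat_lit 13))
    (@En.i (nat_lit 3822) (nat_lit 7) (nat_lit 4))
    (@En.i (nat_lit 3043) (nat_lit 9) (nat_lit 12))
    (@En.n l152 (nat_lit 4026) (nat_lit 13) (nat_lit 3))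
    (@En.n l117 (nat_lit 3844) (nat_lit 0) (nat_lit 3))))
  (@Cl.mk (nat_lit 0x2000d000b00040003000d000c00050003000d0004000e00030002000e000c) (nat_lit 0x1300090030400c7) (nat_lit 16) Lb.e (@T16.mk En
    (@En.i (nat_lit 3821) (nat_lit 14) (nat_lit 12))
    (@En.i (nat_lit 8485) (nat_lit 1) (nat_lit 14))
    (@En.n l17 (nat_lit 3828) (nat_lit 2) (nat_lit 2))
    (@En.i (nat_lit 3824) (nat_lit 3) (nat_lit 3))
    (@En.i (nat_lit 13432) (nat_lit 0) (nat_lit 14))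
    (@En.n l7 (nat_lit 2653) (nat_lit 5) (nat_lit 4))
    (@En.n l564 (nat_lit 4397) (nat_lit 7) (nat_lit 13))
    (@En.n l7 (nat_lit 3830) (nat_lit 7) (nat_lit 3))
    (@En.n l11 (nat_lit 1947) (nat_lit 8) (nat_lit 5))
    (@En.n l644 (nat_lit 3831) (nat_lit 10) (nat_lit 12))
    (@En.n l287 (nat_lit 6312) (nat_lit 11) (nat_lit 13))
    (@En.n l11 (nat_lit 4054) (nat_lit 11) (nat_lit 3))
    (@En.i (nat_lit 3782) (nat_lit 0) (nat_lit 4))
    (@En.i (nat_lit 4101) (nat_lit 14) (nat_lit 11))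
    (@En.i (nat_lit 841) (nat_lit 12) (nat_lit 13))
    (@En.n l3 (nat_lit 3828) (nat_lit 15) (nat_lit 2))))
  (@Cl.mk (nat_lit 0x2000d000c00040003000d0004000c0003000d000d000400030003000e000c) (nat_lit 0x1300001012000c9) (nat_lit 16) Lb.e (@T16.mk En
    (@En.i (nat_lit 3819) (nat_lit 13) (nat_lit 12))
    (@En.i (nat_lit 8490) (nat_lit 1) (nat_lit 14))
    (@En.i (nat_lit 4019) (nat_lit 13) (nat_lit 3))
    (@En.n l18 (nat_lit 3830) (nat_lit 3) (nat_lit 3))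
    (@En.i (nat_lit 3856) (nat_lit 0) (nat_lit 4))
    (@En.n l61 (nat_lit 3830) (nat_lit 6) (nat_lit 13))
    (@En.i (nat_lit 3810) (nat_lit 7) (nat_lit 13))
    (@En.i (nat_lit 3824) (nat_lit 7) (nat_lit 3))
    (@En.i (nat_lit 1217) (nat_lit 0) (nat_lit 12))
    (@En.n l11 (nat_lit 2679) (nat_lit 9) (nat_lit 4))
    (@En.n l287 (nat_lit 6316) (nat_lit 11) (nat_lit 13))
    (@En.n l11 (nat_lit 4021) (nat_lit 11) (nat_lit 3))
    (@En.i (nat_lit 3644) (nat_lit 0) (nat_lit 4))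
    (@En.n l55 (nat_lit 4043) (nat_lit 14) (nat_lit 12))
    (@En.i (nat_lit 592) (nat_lit 1) (nat_lit 13))
    (@En.n l3 (nat_lit 3829) (nat_lit 15) (nat_lit 2))))
  (@Cl.mk (nat_lit 0x2000d000c00040003000d0004000d0003000d0003000e00030002000e000c) (nat_lit 0x130000a010500c9) (nat_lit 16) Lb.e (@T16.mk En
    (@En.i (nat_lit 3820) (nat_lit 14) (nat_lit 12))
    (@En.i (nat_lit 8486) (nat_lit 1) (nat_lit 14))
    (@En.n l17 (nat_lit 3830) (nat_lit 2) (nat_lit 2))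
    (@En.i (nat_lit 3829) (nat_lit 3) (nat_lit 3))
    (@En.i (nat_lit 13683) (nat_lit 0) (nat_lit 14))
    (@En.i (nat_lit 3831) (nat_lit 5) (nat_lit 3))
    (@En.i (nat_lit 3808) (nat_lit 0) (nat_lit 13))
    (@En.i (nat_lit 3828) (nat_lit 7) (nat_lit 3))
    (@En.i (nat_lit 1214) (nat_lit 0) (nat_lit 13))
    (@En.n l11 (nat_lit 2678) (nat_lit 9) (nat_lit 4))
    (@En.n l287 (nat_lit 6314) (nat_lit 11) (nat_lit 13))
    (@En.n l11 (nat_lit 4051) (nat_lit 11) (nat_lit 3))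
    (@En.i (nat_lit 3777) (nat_lit 0) (nat_lit 4))
    (@En.n l55 (nat_lit 4047) (nat_lit 14) (nat_lit 12))
    (@En.i (nat_lit 593) (nat_lit 12) (nat_lit 13))
    (@En.n l3 (nat_lit 3830) (nat_lit 15) (nat_lit 2))))
  (@Cl.mk (nat_lit 0x2000d000c00040003000c0004000d000c00040003000e00040002000e000c) (nat_lit 0x130080a200500c9) (nat_lit 16) Lb.e (@T16.mk En
    (@En.i (nat_lit 3756) (nat_lit 14) (nat_lit 12))
    (@En.i (nat_lit 8338) (nat_lit 1) (nat_lit 14))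
    (@En.n l17 (nat_lit 3831) (nat_lit 2) (nat_lit 2))
    (@En.n l50 (nat_lit 3816) (nat_lit 3) (nat_lit 4))
    (@En.n l5 (nat_lit 521) (nat_lit 1) (nat_lit 14))
    (@En.n l50 (nat_lit 3830) (nat_lit 5) (nat_lit 3))
    (@En.i (nat_lit 678) (nat_lit 6) (nat_lit 4))
    (@En.n l217 (nat_lit 3829) (nat_lit 8) (nat_lit 12))
    (@En.i (nat_lit 687) (nat_lit 9) (nat_lit 13))
    (@En.n l11 (nat_lit 2680) (nat_lit 9) (nat_lit 4))
    (@En.n l287 (nat_lit 7978) (nat_lit 11) (nat_lit 12))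
    (@En.n l11 (nat_lit 4056) (nat_lit 11) (nat_lit 3))
    (@En.i (nat_lit 3776) (nat_lit 0) (nat_lit 4))
    (@En.n l55 (nat_lit 4057) (nat_lit 14) (nat_lit 12))
    (@En.i (nat_lit 589) (nat_lit 12) (nat_lit 13))
    (@En.n l3 (nat_lit 3831) (nat_lit 15) (nat_lit 2))))
  (@Cl.mk (nat_lit 0x2000c00050004000d0004000c0003000d000d000400030003000b000e000c) (nat_lit 0x40010202400086a) (nat_lit 16) Lb.e (@T16.mk En
    (@En.n l68 (nat_lit 3819) (nat_lit 12) (nat_lit 12))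
    (@En.n l3471 (nat_lit 2735) (nat_lit 4) (nat_lit 14))
    (@En.i (nat_lit 8711) (nat_lit 2) (nat_lit 11))
    (@En.i (nat_lit 3584) (nat_lit 13) (nat_lit 3))
    (@En.n l18 (nat_lit 3833) (nat_lit 0) (nat_lit 3))
    (@En.i (nat_lit 3064) (nat_lit 0) (nat_lit 4))
    (@En.n l61 (nat_lit 3833) (nat_lit 3) (nat_lit 13))
    (@En.i (nat_lit 3066) (nat_lit 8) (nat_lit 13))
    (@En.i (nat_lit 3825) (nat_lit 8) (nat_lit 3))
    (@En.i (nat_lit 2718) (nat_lit 10) (nat_lit 12))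
    (@En.i (nat_lit 1370) (nat_lit 10) (nat_lit 4))
    (@En.n l645 (nat_lit 2958) (nat_lit 12) (nat_lit 13))
    (@En.i (nat_lit 4027) (nat_lit 12) (nat_lit 4))
    (@En.i (nat_lit 3717) (nat_lit 14) (nat_lit 5))
    (@En.n l8015 (nat_lit 3001) (nat_lit 10) (nat_lit 12))
    (@En.n l67 (nat_lit 3832) (nat_lit 15) (nat_lit 2))))
  (@Cl.mk (nat_lit 0x2000b000e000c0002000c00050004000d0004000d0003000d0003000e0003) (nat_lit 0x781040090a03030) (nat_lit 16) Lb.e (@T16.mk En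
    (@En.i (nat_lit 3832) (nat_lit 4) (nat_lit 3))
    (@En.i (nat_lit 13670) (nat_lit 0) (nat_lit 14))
    (@En.i (nat_lit 3712) (nat_lit 2) (nat_lit 3))
    (@En.i (nat_lit 3892) (nat_lit 8) (nat_lit 13))
    (@En.i (nat_lit 3834) (nat_lit 8) (nat_lit 3))
    (@En.i (nat_lit 2715) (nat_lit 10) (nat_lit 13))
    (@En.i (nat_lit 1371) (nat_lit 6) (nat_lit 4))
    (@En.n l645 (nat_lit 5579) (nat_lit 8) (nat_lit 13))
    (@En.i (nat_lit 4050) (nat_lit 8) (nat_lit 4))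
    (@En.n l3015 (nat_lit 3715) (nat_lit 14) (nat_lit 5))
    (@En.n l8015 (nat_lit 3000) (nat_lit 11) (nat_lit 12))
    (@En.n l67 (nat_lit 3833) (nat_lit 11) (nat_lit 2))
    (@En.n l68 (nat_lit 3820) (nat_lit 13) (nat_lit 12))
    (@En.n l645 (nat_lit 2897) (nat_lit 4) (nat_lit 14))
    (@En.i (nat_lit 8716) (nat_lit 2) (nat_lit 11))
    (@En.n l17 (nat_lit 3833) (nat_lit 15) (nat_lit 2))))
  (@Cl.mk (nat_lit 0x2000b00050004000d000c00050003000d0004000e00030002000b000e000c) (nat_lit 0x9007800b0600661) (nat_lit 16) Lb.e (@T16.mk En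
    (@En.n l68 (nat_lit 3821) (nat_lit 13) (nat_lit 12))
    (@En.n l4003 (nat_lit 2899) (nat_lit 4) (nat_lit 14))
    (@En.i (nat_lit 10972) (nat_lit 2) (nat_lit 11))
    (@En.n l17 (nat_lit 3834) (nat_lit 3) (nat_lit 2))
    (@En.i (nat_lit 3825) (nat_lit 4) (nat_lit 3))
    (@En.i (nat_lit 13671) (nat_lit 0) (nat_lit 14))
    (@En.n l7 (nat_lit 3707) (nat_lit 6) (nat_lit 4))
    (@En.n l4003 (nat_lit 4435) (nat_lit 8) (nat_lit 13))
    (@En.n l7 (nat_lit 3833) (nat_lit 4) (nat_lit 3))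
    (@En.i (nat_lit 4091) (nat_lit 5) (nat_lit 5))
    (@En.n l644 (nat_lit 3712) (nat_lit 7) (nat_lit 12))
    (@En.n l645 (nat_lit 5610) (nat_lit 8) (nat_lit 13))
    (@En.i (nat_lit 4053) (nat_lit 8) (nat_lit 4))
    (@En.i (nat_lit 3716) (nat_lit 14) (nat_lit 5))
    (@En.n l575 (nat_lit 3040) (nat_lit 11) (nat_lit 11))
    (@En.n l67 (nat_lit 3834) (nat_lit 15) (nat_lit 2))))
  (@Cl.mk (nat_lit 0x200060003000b000e000c0002000b00050004000d000a00050003000e000d) (nat_lit 0x6110900a80031) (nat_lit 16) Lb.e (@T16.mk En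
    (@En.n l4277 (nat_lit 3825) (nat_lit 7) (nat_lit 13))
    (@En.n l4278 (nat_lit 3608) (nat_lit 1) (nat_lit 14))
    (@En.n l4279 (nat_lit 3584) (nat_lit 2) (nat_lit 3))
    (@En.n l1393 (nat_lit 4476) (nat_lit 3) (nat_lit 5))
    (@En.n l4280 (nat_lit 3583) (nat_lit 4) (nat_lit 10))
    (@En.i (nat_lit 5582) (nat_lit 6) (nat_lit 13))
    (@En.n l4281 (nat_lit 4024) (nat_lit 6) (nat_lit 4))
    (@En.i (nat_lit 3838) (nat_lit 14) (nat_lit 5))
    (@En.n l4282 (nat_lit 3041) (nat_lit 9) (nat_lit 11))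
    (@En.n l3 (nat_lit 3835) (nat_lit 9) (nat_lit 2))
    (@En.n l2438 (nat_lit 3823) (nat_lit 11) (nat_lit 12))
    (@En.n l1307 (nat_lit 3050) (nat_lit 4) (nat_lit 14))
    (@En.n l2486 (nat_lit 12297) (nat_lit 13) (nat_lit 11))
    (@En.n l4283 (nat_lit 3825) (nat_lit 3) (nat_lit 3))
    (@En.n l4284 (nat_lit 2406) (nat_lit 4) (nat_lit 6))
    (@En.n l50 (nat_lit 3835) (nat_lit 15) (nat_lit 2))))
  (@Cl.mk (nat_lit 0x200050003000d000b00080003000d000d000500030003000b0008000e000d) (nat_lit 0xb560120007571) (nat_lit 16) Lb.e (@T16.mk En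
    (@En.n l3013 (nat_lit 3785) (nat_lit 11) (nat_lit 13))
    (@En.n l936 (nat_lit 3825) (nat_lit 1) (nat_lit 14))
    (@En.n l12112 (nat_lit 3265) (nat_lit 2) (nat_lit 8))
    (@En.n l9382 (nat_lit 7483) (nat_lit 3) (nat_lit 11))
    (@En.n l11548 (nat_lit 3838) (nat_lit 4) (nat_lit 3))
    (@En.n l18 (nat_lit 3716) (nat_lit 5) (nat_lit 3))
    (@En.n l2319 (nat_lit 2662) (nat_lit 6) (nat_lit 5))
    (@En.n l61 (nat_lit 3716) (nat_lit 8) (nat_lit 13))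
    (@En.n l25245 (nat_lit 2660) (nat_lit 9) (nat_lit 13))
    (@En.n l7 (nat_lit 3717) (nat_lit 9) (nat_lit 3))
    (@En.n l3503 (nat_lit 3936) (nat_lit 11) (nat_lit 8))
    (@En.i (nat_lit 3714) (nat_lit 12) (nat_lit 11))
    (@En.n l645 (nat_lit 5576) (nat_lit 13) (nat_lit 13))
    (@En.n l936 (nat_lit 3785) (nat_lit 7) (nat_lit 3))
    (@En.n l25246 (nat_lit 2737) (nat_lit 0) (nat_lit 5))
    (@En.n l67 (nat_lit 3836) (nat_lit 15) (nat_lit 2))))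
  (@Cl.mk (nat_lit 0x200050003000b0009000e000d000200050003000d0007000b0003000e000d) (nat_lit 0x719b000a02033) (nat_lit 16) Lb.e (@T16.mk En
    (@En.n l2838 (nat_lit 3717) (nat_lit 8) (nat_lit 13))
    (@En.n l11627 (nat_lit 3586) (nat_lit 9) (nat_lit 14))
    (@En.n l9453 (nat_lit 3838) (nat_lit 9) (nat_lit 3))
    (@En.i (nat_lit 3051) (nat_lit 11) (nat_lit 11))
    (@En.n l5415 (nat_lit 3900) (nat_lit 4) (nat_lit 7))
    (@En.n l10248 (nat_lit 5575) (nat_lit 13) (nat_lit 13))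
    (@En.n l7 (nat_lit 3839) (nat_lit 6) (nat_lit 3))
    (@En.n l1252 (nat_lit 2729) (nat_lit 7) (nat_lit 5))
    (@En.n l8 (nat_lit 3837) (nat_lit 8) (nat_lit 2))
    (@En.n l538 (nat_lit 3839) (nat_lit 10) (nat_lit 13))
    (@En.n l10246 (nat_lit 3584) (nat_lit 11) (nat_lit 14))
    (@En.n l9453 (nat_lit 3773) (nat_lit 12) (nat_lit 9))
    (@En.i (nat_lit 12296) (nat_lit 3) (nat_lit 11))
    (@En.n l11628 (nat_lit 3717) (nat_lit 4) (nat_lit 3))
    (@En.i (nat_lit 3596) (nat_lit 5) (nat_lit 5))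
    (@En.n l3 (nat_lit 3837) (nat_lit 15) (nat_lit 2))))
  (@Cl.mk (nat_lit 0x200050003000d000a00080003000e000d000200060003000b0008000e000d) (nat_lit 0xa860320006521) (nat_lit 16) Lb.e (@T16.mk En
    (@En.n l11575 (nat_lit 3789) (nat_lit 10) (nat_lit 13))
    (@En.n l754 (nat_lit 3835) (nat_lit 11) (nat_lit 14))
    (@En.i (nat_lit 3268) (nat_lit 12) (nat_lit 8))
    (@En.n l4225 (nat_lit 12298) (nat_lit 3) (nat_lit 11))
    (@En.n l4283 (nat_lit 3836) (nat_lit 4) (nat_lit 3))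
    (@En.n l11576 (nat_lit 2276) (nat_lit 5) (nat_lit 6))
    (@En.n l50 (nat_lit 3838) (nat_lit 6) (nat_lit 2))
    (@En.n l4277 (nat_lit 3836) (nat_lit 8) (nat_lit 13))
    (@En.n l11577 (nat_lit 3601) (nat_lit 9) (nat_lit 14))
    (@En.n l11578 (nat_lit 3837) (nat_lit 2) (nat_lit 3))
    (@En.i (nat_lit 3939) (nat_lit 11) (nat_lit 8))
    (@En.n l3219 (nat_lit 3586) (nat_lit 12) (nat_lit 10))
    (@En.n l11569 (nat_lit 5578) (nat_lit 13) (nat_lit 13))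
    (@En.n l697 (nat_lit 3789) (nat_lit 6) (nat_lit 3))
    (@En.i (nat_lit 2738) (nat_lit 7) (nat_lit 5))
    (@En.n l3 (nat_lit 3838) (nat_lit 15) (nat_lit 2))))
  (@Cl.mk (nat_lit 0x200050003000c0009000d000d000400030003000d0007000b0003000e000d) (nat_lit 0x91ab000a02031) (nat_lit 16) Lb.e (@T16.mk En
    (@En.n l4130 (nat_lit 3719) (nat_lit 2) (nat_lit 13))
    (@En.i (nat_lit 3592) (nat_lit 1) (nat_lit 14))
    (@En.i (nat_lit 3789) (nat_lit 2) (nat_lit 3))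
    (@En.i (nat_lit 2735) (nat_lit 3) (nat_lit 11))
    (@En.n l612 (nat_lit 3906) (nat_lit 4) (nat_lit 7))
    (@En.i (nat_lit 6083) (nat_lit 6) (nat_lit 13))
    (@En.i (nat_lit 3837) (nat_lit 6) (nat_lit 3))
    (@En.n l1722 (nat_lit 3788) (nat_lit 7) (nat_lit 3))
    (@En.i (nat_lit 3842) (nat_lit 8) (nat_lit 4))
    (@En.n l2593 (nat_lit 3788) (nat_lit 10) (nat_lit 13))
    (@En.n l4365 (nat_lit 4020) (nat_lit 11) (nat_lit 13))
    (@En.n l11416 (nat_lit 3769) (nat_lit 12) (nat_lit 9))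
    (@En.i (nat_lit 12601) (nat_lit 13) (nat_lit 12))
    (@En.n l2832 (nat_lit 3719) (nat_lit 14) (nat_lit 3))
    (@En.n l513 (nat_lit 2876) (nat_lit 0) (nat_lit 5))
    (@En.n l3 (nat_lit 3839) (nat_lit 15) (nat_lit 2))))
noncomputable def a240 : T16 Cl := @T16.mk Cl
  (@Cl.mk (nat_lit 0x20005000d000a00070003000e000d000200060003000c000b0009000e0004) (nat_lit 0xa800a3000a7770) (nat_lit 16) Lb.e (@T16.mk En
    (@En.n l4110 (nat_lit 3823) (nat_lit 8) (nat_lit 4))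
    (@En.n l335 (nat_lit 4112) (nat_lit 10) (nat_lit 14))
    (@En.n l4112 (nat_lit 4106) (nat_lit 11) (nat_lit 9))
    (@En.n l1347 (nat_lit 3838) (nat_lit 3) (nat_lit 11))
    (@En.i (nat_lit 12034) (nat_lit 13) (nat_lit 12))
    (@En.n l1348 (nat_lit 3826) (nat_lit 5) (nat_lit 3))
    (@En.n l1575 (nat_lit 2428) (nat_lit 6) (nat_lit 6))
    (@En.n l3 (nat_lit 3840) (nat_lit 7) (nat_lit 2))
    (@En.n l1220 (nat_lit 3826) (nat_lit 9) (nat_lit 13))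
    (@En.i (nat_lit 3609) (nat_lit 10) (nat_lit 14))
    (@En.n l4329 (nat_lit 3842) (nat_lit 2) (nat_lit 3))
    (@En.i (nat_lit 4506) (nat_lit 12) (nat_lit 7))
    (@En.n l4330 (nat_lit 3591) (nat_lit 13) (nat_lit 10))
    (@En.n l5 (nat_lit 4079) (nat_lit 6) (nat_lit 13))
    (@En.n l4331 (nat_lit 2739) (nat_lit 13) (nat_lit 5))
    (@En.n l7 (nat_lit 3840) (nat_lit 15) (nat_lit 2))))
  (@Cl.mk (nat_lit 0x20005000d0006000c0003000d000d000400030003000c000b000a000e0004) (nat_lit 0x801023000892b0) (nat_lit 16) Lb.e (@T16.mk En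
    (@En.n l152 (nat_lit 3819) (nat_lit 9) (nat_lit 4))
    (@En.n l936 (nat_lit 3845) (nat_lit 1) (nat_lit 14))
    (@En.n l55 (nat_lit 4045) (nat_lit 2) (nat_lit 10))
    (@En.n l97 (nat_lit 3717) (nat_lit 3) (nat_lit 11))
    (@En.i (nat_lit 9762) (nat_lit 5) (nat_lit 12))
    (@En.n l4188 (nat_lit 3842) (nat_lit 13) (nat_lit 3))
    (@En.n l18 (nat_lit 4070) (nat_lit 6) (nat_lit 3))
    (@En.i (nat_lit 3848) (nat_lit 7) (nat_lit 4))
    (@En.n l61 (nat_lit 4070) (nat_lit 9) (nat_lit 13))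
    (@En.n l1867 (nat_lit 3075) (nat_lit 10) (nat_lit 13))
    (@En.i (nat_lit 3826) (nat_lit 10) (nat_lit 3))
    (@En.i (nat_lit 1153) (nat_lit 12) (nat_lit 12))
    (@En.i (nat_lit 1163) (nat_lit 13) (nat_lit 6))
    (@En.n l5579 (nat_lit 4076) (nat_lit 14) (nat_lit 13))
    (@En.n l4976 (nat_lit 2731) (nat_lit 13) (nat_lit 5))
    (@En.n l3 (nat_lit 3841) (nat_lit 15) (nat_lit 2))))
  (@Cl.mk (nat_lit 0x200050003000c000b000a000e000400020005000d0006000b0003000e000d) (nat_lit 0x88270000020a3) (nat_lit 16) Lb.e (@T16.mk En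
    (@En.n l1325 (nat_lit 3841) (nat_lit 9) (nat_lit 13))
    (@En.i (nat_lit 3591) (nat_lit 10) (nat_lit 14))
    (@En.n l3509 (nat_lit 3840) (nat_lit 10) (nat_lit 3))
    (@En.i (nat_lit 3062) (nat_lit 3) (nat_lit 11))
    (@En.n l11631 (nat_lit 1165) (nat_lit 4) (nat_lit 6))
    (@En.n l1386 (nat_lit 4080) (nat_lit 6) (nat_lit 13))
    (@En.n l11632 (nat_lit 2732) (nat_lit 6) (nat_lit 5))
    (@En.n l172 (nat_lit 3842) (nat_lit 7) (nat_lit 2))
    (@En.n l11633 (nat_lit 3593) (nat_lit 8) (nat_lit 4))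
    (@En.n l1354 (nat_lit 3843) (nat_lit 10) (nat_lit 14))
    (@En.n l501 (nat_lit 4049) (nat_lit 11) (nat_lit 10))
    (@En.n l77 (nat_lit 3837) (nat_lit 12) (nat_lit 11))
    (@En.i (nat_lit 12030) (nat_lit 13) (nat_lit 12))
    (@En.n l7851 (nat_lit 3841) (nat_lit 5) (nat_lit 3))
    (@En.n l513 (nat_lit 2853) (nat_lit 6) (nat_lit 5))
    (@En.n l3 (nat_lit 3842) (nat_lit 15) (nat_lit 2))))
  (@Cl.mk (nat_lit 0x200050003000d000b000e00030002000d0005000d0003000b0003000e000d) (nat_lit 0x8160050002073) (nat_lit 16) Lb.e (@T16.mk En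
    (@En.n l61 (nat_lit 3845) (nat_lit 8) (nat_lit 13))
    (@En.n l3471 (nat_lit 3589) (nat_lit 1) (nat_lit 14))
    (@En.n l4005 (nat_lit 4112) (nat_lit 2) (nat_lit 3))
    (@En.n l4298 (nat_lit 3063) (nat_lit 3) (nat_lit 11))
    (@En.n l4299 (nat_lit 4049) (nat_lit 4) (nat_lit 3))
    (@En.n l4300 (nat_lit 4114) (nat_lit 6) (nat_lit 13))
    (@En.n l4188 (nat_lit 3842) (nat_lit 6) (nat_lit 5))
    (@En.n l4298 (nat_lit 4257) (nat_lit 8) (nat_lit 13))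
    (@En.n l3 (nat_lit 3843) (nat_lit 8) (nat_lit 2))
    (@En.n l152 (nat_lit 4020) (nat_lit 9) (nat_lit 3))
    (@En.n l3471 (nat_lit 13066) (nat_lit 0) (nat_lit 14))
    (@En.n l97 (nat_lit 3584) (nat_lit 12) (nat_lit 11))
    (@En.i (nat_lit 12240) (nat_lit 13) (nat_lit 13))
    (@En.n l72 (nat_lit 3845) (nat_lit 4) (nat_lit 3))
    (@En.n l4301 (nat_lit 2854) (nat_lit 5) (nat_lit 5))
    (@En.n l17 (nat_lit 3843) (nat_lit 15) (nat_lit 2))))
  (@Cl.mk (nat_lit 0x2000c0005000d000b00040003000d000d000500030003000d000b000e0003) (nat_lit 0x10790040000a7b0) (nat_lit 16) Lb.e (@T16.mk En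
    (@En.n l152 (nat_lit 3827) (nat_lit 15) (nat_lit 3))
    (@En.n l4003 (nat_lit 13069) (nat_lit 0) (nat_lit 14))
    (@En.n l97 (nat_lit 3825) (nat_lit 2) (nat_lit 11))
    (@En.i (nat_lit 9767) (nat_lit 2) (nat_lit 13))
    (@En.n l4005 (nat_lit 4112) (nat_lit 13) (nat_lit 3))
    (@En.n l4296 (nat_lit 4055) (nat_lit 5) (nat_lit 3))
    (@En.n l4004 (nat_lit 3078) (nat_lit 0) (nat_lit 5))
    (@En.n l4007 (nat_lit 4055) (nat_lit 8) (nat_lit 13))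
    (@En.n l4003 (nat_lit 4408) (nat_lit 9) (nat_lit 13))
    (@En.n l7 (nat_lit 3845) (nat_lit 9) (nat_lit 3))
    (@En.n l4297 (nat_lit 4094) (nat_lit 10) (nat_lit 4))
    (@En.i (nat_lit 3760) (nat_lit 12) (nat_lit 11))
    (@En.n l1140 (nat_lit 4115) (nat_lit 13) (nat_lit 13))
    (@En.i (nat_lit 3826) (nat_lit 14) (nat_lit 5))
    (@En.i (nat_lit 3044) (nat_lit 9) (nat_lit 12))
    (@En.n l3 (nat_lit 3844) (nat_lit 15) (nat_lit 2))))
  (@Cl.mk (nat_lit 0x2000d0005000d0003000c0003000d000d000400030003000d000b000e0003) (nat_lit 0x5050102300089a0) (nat_lit 16) Lb.e (@T16.mk En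
    (@En.n l152 (nat_lit 4027) (nat_lit 15) (nat_lit 3))
    (@En.n l3471 (nat_lit 13064) (nat_lit 0) (nat_lit 14))
    (@En.n l97 (nat_lit 3832) (nat_lit 2) (nat_lit 11))
    (@En.i (nat_lit 10198) (nat_lit 2) (nat_lit 13))
    (@En.i (nat_lit 3843) (nat_lit 13) (nat_lit 3))
    (@En.n l4296 (nat_lit 4052) (nat_lit 5) (nat_lit 3))
    (@En.i (nat_lit 3849) (nat_lit 0) (nat_lit 4))
    (@En.n l4007 (nat_lit 4052) (nat_lit 8) (nat_lit 13))
    (@En.n l1867 (nat_lit 3072) (nat_lit 9) (nat_lit 13))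
    (@En.i (nat_lit 3844) (nat_lit 9) (nat_lit 3))
    (@En.i (nat_lit 1148) (nat_lit 11) (nat_lit 12))
    (@En.i (nat_lit 4045) (nat_lit 11) (nat_lit 3))
    (@En.n l1867 (nat_lit 3575) (nat_lit 0) (nat_lit 13))
    (@En.i (nat_lit 3841) (nat_lit 14) (nat_lit 5))
    (@En.i (nat_lit 4260) (nat_lit 9) (nat_lit 13))
    (@En.n l3 (nat_lit 3845) (nat_lit 15) (nat_lit 2))))
  (@Cl.mk (nat_lit 0x20005000b0006000c000c000c0005000400040004000c000b000a000e0004) (nat_lit 0x701a3000099280) (nat_lit 16) Lb.e (@T16.mk En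
    (@En.n l152 (nat_lit 3818) (nat_lit 15) (nat_lit 4))
    (@En.n l936 (nat_lit 3760) (nat_lit 1) (nat_lit 14))
    (@En.n l6085 (nat_lit 3759) (nat_lit 2) (nat_lit 10))
    (@En.n l97 (nat_lit 3714) (nat_lit 3) (nat_lit 11))
    (@En.n l15058 (nat_lit 7429) (nat_lit 5) (nat_lit 12))
    (@En.n l15059 (nat_lit 3591) (nat_lit 5) (nat_lit 4))
    (@En.n l6088 (nat_lit 3888) (nat_lit 6) (nat_lit 4))
    (@En.i (nat_lit 3841) (nat_lit 7) (nat_lit 4))
    (@En.n l15060 (nat_lit 3897) (nat_lit 8) (nat_lit 5))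
    (@En.n l742 (nat_lit 3752) (nat_lit 10) (nat_lit 12))
    (@En.n l396 (nat_lit 3848) (nat_lit 11) (nat_lit 12))
    (@En.n l6086 (nat_lit 1155) (nat_lit 12) (nat_lit 12))
    (@En.n l6092 (nat_lit 1169) (nat_lit 13) (nat_lit 6))
    (@En.n l6093 (nat_lit 5880) (nat_lit 14) (nat_lit 11))
    (@En.n l4976 (nat_lit 2766) (nat_lit 13) (nat_lit 5))
    (@En.n l3 (nat_lit 3846) (nat_lit 15) (nat_lit 2))))
  (@Cl.mk (nat_lit 0x20005000c000c000c000b000400040004000c0005000c000b0004000e0004) (nat_lit 0x8a960008093050) (nat_lit 16) Lb.e (@T16.mk En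
    (@En.n l50 (nat_lit 3818) (nat_lit 6) (nat_lit 4))
    (@En.i (nat_lit 3068) (nat_lit 1) (nat_lit 14))
    (@En.n l6958 (nat_lit 3903) (nat_lit 2) (nat_lit 4))
    (@En.n l2863 (nat_lit 3593) (nat_lit 3) (nat_lit 11))
    (@En.n l4190 (nat_lit 3859) (nat_lit 5) (nat_lit 12))
    (@En.i (nat_lit 2974) (nat_lit 5) (nat_lit 5))
    (@En.i (nat_lit 6308) (nat_lit 7) (nat_lit 12))
    (@En.n l11 (nat_lit 3064) (nat_lit 7) (nat_lit 4))
    (@En.n l152 (nat_lit 3856) (nat_lit 8) (nat_lit 4))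
    (@En.n l936 (nat_lit 3792) (nat_lit 9) (nat_lit 4))
    (@En.n l55 (nat_lit 3853) (nat_lit 11) (nat_lit 11))
    (@En.n l6291 (nat_lit 3641) (nat_lit 12) (nat_lit 12))
    (@En.i (nat_lit 3848) (nat_lit 4) (nat_lit 12))
    (@En.i (nat_lit 8732) (nat_lit 14) (nat_lit 12))
    (@En.i (nat_lit 2864) (nat_lit 13) (nat_lit 5))
    (@En.n l18 (nat_lit 3847) (nat_lit 15) (nat_lit 2))))
  (@Cl.mk (nat_lit 0x20005000c0006000c000b0004000e000400020005000c000b000a000e0004) (nat_lit 0x930c00099290) (nat_lit 16) Lb.e (@T16.mk En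
    (@En.n l152 (nat_lit 3847) (nat_lit 9) (nat_lit 4))
    (@En.n l936 (nat_lit 3849) (nat_lit 11) (nat_lit 14))
    (@En.n l24866 (nat_lit 3852) (nat_lit 12) (nat_lit 10))
    (@En.n l9974 (nat_lit 3793) (nat_lit 3) (nat_lit 11))
    (@En.n l9975 (nat_lit 7428) (nat_lit 14) (nat_lit 12))
    (@En.n l6292 (nat_lit 2639) (nat_lit 13) (nat_lit 5))
    (@En.n l18 (nat_lit 3848) (nat_lit 6) (nat_lit 2))
    (@En.n l50 (nat_lit 3846) (nat_lit 7) (nat_lit 4))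
    (@En.n l8193 (nat_lit 3073) (nat_lit 9) (nat_lit 14))
    (@En.n l18891 (nat_lit 3904) (nat_lit 9) (nat_lit 4))
    (@En.n l7978 (nat_lit 3842) (nat_lit 3) (nat_lit 11))
    (@En.n l9974 (nat_lit 3850) (nat_lit 12) (nat_lit 12))
    (@En.n l148 (nat_lit 1170) (nat_lit 5) (nat_lit 6))
    (@En.n l5579 (nat_lit 7796) (nat_lit 7) (nat_lit 12))
    (@En.n l4976 (nat_lit 2767) (nat_lit 13) (nat_lit 5))
    (@En.n l3 (nat_lit 3848) (nat_lit 15) (nat_lit 2))))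
  (@Cl.mk (nat_lit 0x20005000d000b000e00030002000d0005000c0003000c000b0004000e0004) (nat_lit 0xa88000020930c0) (nat_lit 16) Lb.e (@T16.mk En
    (@En.n l50 (nat_lit 3760) (nat_lit 6) (nat_lit 4))
    (@En.n l1867 (nat_lit 3069) (nat_lit 1) (nat_lit 14))
    (@En.n l4004 (nat_lit 3084) (nat_lit 2) (nat_lit 4))
    (@En.n l2863 (nat_lit 3843) (nat_lit 3) (nat_lit 11))
    (@En.i (nat_lit 4278) (nat_lit 11) (nat_lit 12))
    (@En.n l4004 (nat_lit 3852) (nat_lit 5) (nat_lit 3))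
    (@En.n l1867 (nat_lit 5123) (nat_lit 7) (nat_lit 12))
    (@En.i (nat_lit 3848) (nat_lit 14) (nat_lit 5))
    (@En.n l5874 (nat_lit 3850) (nat_lit 9) (nat_lit 13))
    (@En.n l3 (nat_lit 3849) (nat_lit 9) (nat_lit 2))
    (@En.n l152 (nat_lit 3851) (nat_lit 10) (nat_lit 3))
    (@En.n l3471 (nat_lit 13459) (nat_lit 0) (nat_lit 14))
    (@En.n l97 (nat_lit 3064) (nat_lit 13) (nat_lit 11))
    (@En.n l4004 (nat_lit 7772) (nat_lit 14) (nat_lit 13))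
    (@En.i (nat_lit 2855) (nat_lit 13) (nat_lit 5))
    (@En.n l18 (nat_lit 3849) (nat_lit 15) (nat_lit 2))))
  (@Cl.mk (nat_lit 0x20005000d000c000a0003000d0004000b00030006000c000b0005000e0004) (nat_lit 0xb820b0000040c0) (nat_lit 16) Lb.e (@T16.mk En
    (@En.n l22791 (nat_lit 3859) (nat_lit 9) (nat_lit 4))
    (@En.n l21257 (nat_lit 4278) (nat_lit 1) (nat_lit 14))
    (@En.n l14496 (nat_lit 3012) (nat_lit 2) (nat_lit 5))
    (@En.i (nat_lit 4257) (nat_lit 3) (nat_lit 11))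
    (@En.n l117 (nat_lit 4323) (nat_lit 5) (nat_lit 12))
    (@En.n l7851 (nat_lit 3848) (nat_lit 12) (nat_lit 6))
    (@En.i (nat_lit 4266) (nat_lit 6) (nat_lit 3))
    (@En.n l1386 (nat_lit 8075) (nat_lit 0) (nat_lit 11))
    (@En.n l28 (nat_lit 1155) (nat_lit 8) (nat_lit 4))
    (@En.n l343 (nat_lit 4267) (nat_lit 10) (nat_lit 13))
    (@En.n l28 (nat_lit 3857) (nat_lit 10) (nat_lit 3))
    (@En.n l497 (nat_lit 1081) (nat_lit 12) (nat_lit 10))
    (@En.n l77 (nat_lit 3858) (nat_lit 13) (nat_lit 12))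
    (@En.n l11131 (nat_lit 10878) (nat_lit 14) (nat_lit 13))
    (@En.n l107 (nat_lit 1367) (nat_lit 13) (nat_lit 5))
    (@En.n l3 (nat_lit 3850) (nat_lit 15) (nat_lit 2))))
  (@Cl.mk (nat_lit 0x20005000d000d000c00030003000d0004000c0003000c000b0004000e0004) (nat_lit 0x7ba00b08093050) (nat_lit 16) Lb.e (@T16.mk En
    (@En.n l50 (nat_lit 3761) (nat_lit 5) (nat_lit 4))
    (@En.i (nat_lit 3070) (nat_lit 1) (nat_lit 14))
    (@En.i (nat_lit 3081) (nat_lit 2) (nat_lit 4))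
    (@En.n l2863 (nat_lit 4020) (nat_lit 3) (nat_lit 11))
    (@En.i (nat_lit 4279) (nat_lit 10) (nat_lit 12))
    (@En.i (nat_lit 3853) (nat_lit 5) (nat_lit 3))
    (@En.i (nat_lit 5122) (nat_lit 7) (nat_lit 12))
    (@En.i (nat_lit 3847) (nat_lit 7) (nat_lit 4))
    (@En.n l11245 (nat_lit 3857) (nat_lit 9) (nat_lit 13))
    (@En.n l152 (nat_lit 3855) (nat_lit 9) (nat_lit 3))
    (@En.n l117 (nat_lit 3849) (nat_lit 10) (nat_lit 3))
    (@En.n l619 (nat_lit 3856) (nat_lit 12) (nat_lit 12))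
    (@En.i (nat_lit 3849) (nat_lit 13) (nat_lit 13))
    (@En.i (nat_lit 7770) (nat_lit 14) (nat_lit 13))
    (@En.i (nat_lit 2860) (nat_lit 13) (nat_lit 5))
    (@En.n l18 (nat_lit 3851) (nat_lit 15) (nat_lit 2))))
  (@Cl.mk (nat_lit 0x20005000d000a000e00030002000d000b00060003000c000b0005000e0004) (nat_lit 0x1a000100240c0) (nat_lit 16) Lb.e (@T16.mk En
    (@En.n l3697 (nat_lit 3759) (nat_lit 6) (nat_lit 4))
    (@En.n l181 (nat_lit 3882) (nat_lit 1) (nat_lit 14))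
    (@En.i (nat_lit 3262) (nat_lit 2) (nat_lit 5))
    (@En.n l1347 (nat_lit 4049) (nat_lit 3) (nat_lit 11))
    (@En.n l564 (nat_lit 6188) (nat_lit 11) (nat_lit 12))
    (@En.n l10178 (nat_lit 3849) (nat_lit 5) (nat_lit 3))
    (@En.n l1347 (nat_lit 3750) (nat_lit 6) (nat_lit 6))
    (@En.n l644 (nat_lit 3078) (nat_lit 8) (nat_lit 11))
    (@En.n l10785 (nat_lit 4266) (nat_lit 9) (nat_lit 13))
    (@En.n l11 (nat_lit 3852) (nat_lit 9) (nat_lit 2))
    (@En.n l6564 (nat_lit 3853) (nat_lit 10) (nat_lit 3))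
    (@En.n l619 (nat_lit 13457) (nat_lit 0) (nat_lit 14))
    (@En.n l6565 (nat_lit 1375) (nat_lit 13) (nat_lit 10))
    (@En.i (nat_lit 7773) (nat_lit 14) (nat_lit 13))
    (@En.i (nat_lit 2862) (nat_lit 13) (nat_lit 5))
    (@En.n l17 (nat_lit 3852) (nat_lit 15) (nat_lit 2))))
  (@Cl.mk (nat_lit 0x20005000d000d000b00030003000d000b00050003000c000b0005000e0004) (nat_lit 0x15001100240c0) (nat_lit 16) Lb.e (@T16.mk En
    (@En.n l50 (nat_lit 3758) (nat_lit 5) (nat_lit 4))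
    (@En.i (nat_lit 3881) (nat_lit 1) (nat_lit 14))
    (@En.n l6958 (nat_lit 3260) (nat_lit 2) (nat_lit 5))
    (@En.n l2863 (nat_lit 4042) (nat_lit 3) (nat_lit 11))
    (@En.n l8047 (nat_lit 6181) (nat_lit 10) (nat_lit 12))
    (@En.n l28 (nat_lit 3851) (nat_lit 5) (nat_lit 3))
    (@En.i (nat_lit 3751) (nat_lit 6) (nat_lit 5))
    (@En.i (nat_lit 3077) (nat_lit 8) (nat_lit 11))
    (@En.n l11245 (nat_lit 3739) (nat_lit 9) (nat_lit 13))
    (@En.n l152 (nat_lit 3854) (nat_lit 9) (nat_lit 3))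
    (@En.n l15575 (nat_lit 3852) (nat_lit 10) (nat_lit 3))
    (@En.n l97 (nat_lit 4087) (nat_lit 12) (nat_lit 11))
    (@En.n l4004 (nat_lit 3852) (nat_lit 13) (nat_lit 13))
    (@En.i (nat_lit 7771) (nat_lit 14) (nat_lit 13))
    (@En.i (nat_lit 2863) (nat_lit 13) (nat_lit 5))
    (@En.n l18 (nat_lit 3853) (nat_lit 15) (nat_lit 2))))
  (@Cl.mk (nat_lit 0x20005000e000d0002000c0003000d000b00040003000c000b0005000e0004) (nat_lit 0x71020510024000) (nat_lit 16) Lb.e (@T16.mk En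
    (@En.n l50 (nat_lit 3887) (nat_lit 4) (nat_lit 4))
    (@En.i (nat_lit 3883) (nat_lit 1) (nat_lit 14))
    (@En.n l404 (nat_lit 3264) (nat_lit 2) (nat_lit 5))
    (@En.n l8170 (nat_lit 4022) (nat_lit 3) (nat_lit 11))
    (@En.n l4909 (nat_lit 6180) (nat_lit 9) (nat_lit 12))
    (@En.n l28 (nat_lit 3855) (nat_lit 5) (nat_lit 3))
    (@En.i (nat_lit 4089) (nat_lit 6) (nat_lit 4))
    (@En.i (nat_lit 3079) (nat_lit 8) (nat_lit 11))
    (@En.n l947 (nat_lit 4672) (nat_lit 9) (nat_lit 13))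
    (@En.n l117 (nat_lit 3853) (nat_lit 9) (nat_lit 3))
    (@En.i (nat_lit 777) (nat_lit 11) (nat_lit 12))
    (@En.n l3 (nat_lit 3854) (nat_lit 11) (nat_lit 2))
    (@En.i (nat_lit 3853) (nat_lit 13) (nat_lit 13))
    (@En.i (nat_lit 7779) (nat_lit 1) (nat_lit 14))
    (@En.i (nat_lit 3621) (nat_lit 13) (nat_lit 5))
    (@En.n l18 (nat_lit 3854) (nat_lit 15) (nat_lit 2))))
  (@Cl.mk (nat_lit 0x20005000e000d0002000d0003000d0003000c0003000c000b0004000e0004) (nat_lit 0xa80203020a2050) (nat_lit 16) Lb.e (@T16.mk En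
    (@En.n l50 (nat_lit 3817) (nat_lit 4) (nat_lit 4))
    (@En.i (nat_lit 4015) (nat_lit 1) (nat_lit 14))
    (@En.i (nat_lit 3085) (nat_lit 2) (nat_lit 4))
    (@En.n l2863 (nat_lit 4018) (nat_lit 3) (nat_lit 11))
    (@En.n l947 (nat_lit 4284) (nat_lit 9) (nat_lit 12))
    (@En.i (nat_lit 3854) (nat_lit 5) (nat_lit 3))
    (@En.i (nat_lit 5121) (nat_lit 7) (nat_lit 12))
    (@En.i (nat_lit 3856) (nat_lit 7) (nat_lit 3))
    (@En.n l947 (nat_lit 4728) (nat_lit 9) (nat_lit 13))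
    (@En.n l117 (nat_lit 3851) (nat_lit 9) (nat_lit 3))
    (@En.i (nat_lit 768) (nat_lit 11) (nat_lit 13))
    (@En.n l3 (nat_lit 3855) (nat_lit 11) (nat_lit 2))
    (@En.i (nat_lit 3851) (nat_lit 13) (nat_lit 13))
    (@En.i (nat_lit 7778) (nat_lit 1) (nat_lit 14))
    (@En.i (nat_lit 4029) (nat_lit 13) (nat_lit 5))
    (@En.n l18 (nat_lit 3855) (nat_lit 15) (nat_lit 2))))
noncomputable def a241 : T16 Cl := @T16.mk Cl
  (@Cl.mk (nat_lit 0x20005000e000c0002000d000c00040003000c0004000c000b0004000e0004) (nat_lit 0xc90130070a2050) (nat_lit 16) Lb.e (@T16.mk En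
    (@En.n l50 (nat_lit 3816) (nat_lit 4) (nat_lit 4))
    (@En.i (nat_lit 4014) (nat_lit 1) (nat_lit 14))
    (@En.n l404 (nat_lit 3089) (nat_lit 2) (nat_lit 4))
    (@En.n l2863 (nat_lit 4019) (nat_lit 3) (nat_lit 11))
    (@En.n l947 (nat_lit 3869) (nat_lit 9) (nat_lit 12))
    (@En.n l11 (nat_lit 4087) (nat_lit 5) (nat_lit 4))
    (@En.n l287 (nat_lit 6771) (nat_lit 7) (nat_lit 12))
    (@En.n l11 (nat_lit 3855) (nat_lit 7) (nat_lit 3))
    (@En.n l668 (nat_lit 3641) (nat_lit 8) (nat_lit 4))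
    (@En.n l55 (nat_lit 3854) (nat_lit 10) (nat_lit 12))
    (@En.i (nat_lit 766) (nat_lit 11) (nat_lit 13))
    (@En.n l3 (nat_lit 3856) (nat_lit 11) (nat_lit 2))
    (@En.i (nat_lit 3847) (nat_lit 13) (nat_lit 12))
    (@En.i (nat_lit 7342) (nat_lit 1) (nat_lit 14))
    (@En.i (nat_lit 4028) (nat_lit 13) (nat_lit 5))
    (@En.n l18 (nat_lit 3856) (nat_lit 15) (nat_lit 2))))
  (@Cl.mk (nat_lit 0x20005000d0009000d0003000d0003000b00030007000c000b0005000e0004) (nat_lit 0xa020a0000040c0) (nat_lit 16) Lb.e (@T16.mk En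
    (@En.n l16861 (nat_lit 3872) (nat_lit 9) (nat_lit 4))
    (@En.i (nat_lit 3746) (nat_lit 1) (nat_lit 14))
    (@En.n l22746 (nat_lit 3017) (nat_lit 2) (nat_lit 5))
    (@En.i (nat_lit 4256) (nat_lit 3) (nat_lit 11))
    (@En.n l117 (nat_lit 4325) (nat_lit 5) (nat_lit 12))
    (@En.n l2832 (nat_lit 3792) (nat_lit 5) (nat_lit 7))
    (@En.i (nat_lit 3739) (nat_lit 6) (nat_lit 3))
    (@En.i (nat_lit 8074) (nat_lit 0) (nat_lit 11))
    (@En.i (nat_lit 3858) (nat_lit 8) (nat_lit 3))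
    (@En.n l11131 (nat_lit 4673) (nat_lit 10) (nat_lit 13))
    (@En.i (nat_lit 3850) (nat_lit 10) (nat_lit 3))
    (@En.n l12871 (nat_lit 3854) (nat_lit 12) (nat_lit 13))
    (@En.i (nat_lit 4267) (nat_lit 13) (nat_lit 9))
    (@En.n l11131 (nat_lit 10876) (nat_lit 14) (nat_lit 13))
    (@En.n l107 (nat_lit 2745) (nat_lit 13) (nat_lit 5))
    (@En.n l3 (nat_lit 3857) (nat_lit 15) (nat_lit 2))))
  (@Cl.mk (nat_lit 0x20005000c0009000d000c00040003000b00040007000c000b0005000e0004) (nat_lit 0x702a00000040c0) (nat_lit 16) Lb.e (@T16.mk En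
    (@En.n l24880 (nat_lit 3873) (nat_lit 7) (nat_lit 4))
    (@En.i (nat_lit 3745) (nat_lit 1) (nat_lit 14))
    (@En.n l10247 (nat_lit 3018) (nat_lit 2) (nat_lit 5))
    (@En.i (nat_lit 4258) (nat_lit 3) (nat_lit 11))
    (@En.n l117 (nat_lit 4328) (nat_lit 5) (nat_lit 12))
    (@En.n l132 (nat_lit 3793) (nat_lit 11) (nat_lit 7))
    (@En.n l7 (nat_lit 3212) (nat_lit 6) (nat_lit 4))
    (@En.n l564 (nat_lit 6664) (nat_lit 8) (nat_lit 11))
    (@En.n l7 (nat_lit 3857) (nat_lit 8) (nat_lit 3))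
    (@En.n l10665 (nat_lit 2757) (nat_lit 9) (nat_lit 4))
    (@En.n l644 (nat_lit 3739) (nat_lit 11) (nat_lit 12))
    (@En.n l9450 (nat_lit 3853) (nat_lit 12) (nat_lit 13))
    (@En.i (nat_lit 4269) (nat_lit 13) (nat_lit 9))
    (@En.n l132 (nat_lit 10874) (nat_lit 14) (nat_lit 12))
    (@En.n l107 (nat_lit 2746) (nat_lit 13) (nat_lit 5))
    (@En.n l3 (nat_lit 3858) (nat_lit 15) (nat_lit 2))))
  (@Cl.mk (nat_lit 0x30006000c000c000c0006000400040004000d000c000a0003000d0004000a) (nat_lit 0x31400004820804) (nat_lit 16) Lb.e (@T16.mk En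
    (@En.n l11623 (nat_lit 8024) (nat_lit 0) (nat_lit 10))
    (@En.n l11330 (nat_lit 2724) (nat_lit 7) (nat_lit 4))
    (@En.i (nat_lit 3862) (nat_lit 2) (nat_lit 13))
    (@En.n l152 (nat_lit 3872) (nat_lit 3) (nat_lit 3))
    (@En.n l13614 (nat_lit 1087) (nat_lit 0) (nat_lit 10))
    (@En.n l5879 (nat_lit 3873) (nat_lit 4) (nat_lit 12))
    (@En.n l14469 (nat_lit 10252) (nat_lit 7) (nat_lit 13))
    (@En.n l25007 (nat_lit 4254) (nat_lit 12) (nat_lit 4))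
    (@En.n l6088 (nat_lit 3869) (nat_lit 12) (nat_lit 4))
    (@En.i (nat_lit 4260) (nat_lit 0) (nat_lit 4))
    (@En.n l13614 (nat_lit 3010) (nat_lit 0) (nat_lit 6))
    (@En.n l7422 (nat_lit 3338) (nat_lit 4) (nat_lit 12))
    (@En.n l25008 (nat_lit 3850) (nat_lit 4) (nat_lit 12))
    (@En.n l18296 (nat_lit 8598) (nat_lit 14) (nat_lit 12))
    (@En.n l1769 (nat_lit 3846) (nat_lit 12) (nat_lit 6))
    (@En.n l18297 (nat_lit 3860) (nat_lit 15) (nat_lit 3))))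
  (@Cl.mk (nat_lit 0x30006000c000c000c0007000400040004000d000b000a0003000d00090005) (nat_lit 0x3a50000a120670) (nat_lit 16) Lb.e (@T16.mk En
    (@En.n l1927 (nat_lit 325) (nat_lit 0) (nat_lit 5))
    (@En.n l13958 (nat_lit 2317) (nat_lit 14) (nat_lit 9))
    (@En.n l397 (nat_lit 3861) (nat_lit 2) (nat_lit 13))
    (@En.n l14049 (nat_lit 3742) (nat_lit 3) (nat_lit 3))
    (@En.n l61 (nat_lit 1085) (nat_lit 0) (nat_lit 10))
    (@En.n l6064 (nat_lit 861) (nat_lit 12) (nat_lit 11))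
    (@En.n l14045 (nat_lit 10253) (nat_lit 7) (nat_lit 13))
    (@En.n l11 (nat_lit 1031) (nat_lit 12) (nat_lit 4))
    (@En.n l152 (nat_lit 3867) (nat_lit 12) (nat_lit 4))
    (@En.n l14050 (nat_lit 4263) (nat_lit 0) (nat_lit 4))
    (@En.i (nat_lit 1322) (nat_lit 0) (nat_lit 7))
    (@En.n l14051 (nat_lit 3335) (nat_lit 4) (nat_lit 12))
    (@En.n l5862 (nat_lit 4266) (nat_lit 4) (nat_lit 12))
    (@En.n l14046 (nat_lit 8329) (nat_lit 14) (nat_lit 12))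
    (@En.n l14052 (nat_lit 2759) (nat_lit 12) (nat_lit 6))
    (@En.n l4190 (nat_lit 3859) (nat_lit 15) (nat_lit 3))))
  (@Cl.mk (nat_lit 0x300070006000c000c000c00080004000400040009000c000a000d00080004) (nat_lit 0x4a71000792560) (nat_lit 16) Lb.e (@T16.mk En
    (@En.n l7 (nat_lit 321) (nat_lit 0) (nat_lit 4))
    (@En.n l16093 (nat_lit 5313) (nat_lit 0) (nat_lit 8))
    (@En.i (nat_lit 4692) (nat_lit 5) (nat_lit 13))
    (@En.n l396 (nat_lit 293) (nat_lit 3) (nat_lit 10))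
    (@En.i (nat_lit 3333) (nat_lit 6) (nat_lit 12))
    (@En.n l11365 (nat_lit 12462) (nat_lit 5) (nat_lit 9))
    (@En.n l11 (nat_lit 1030) (nat_lit 12) (nat_lit 4))
    (@En.n l152 (nat_lit 3864) (nat_lit 12) (nat_lit 4))
    (@En.n l27962 (nat_lit 4264) (nat_lit 0) (nat_lit 4))
    (@En.i (nat_lit 1318) (nat_lit 0) (nat_lit 8))
    (@En.n l27963 (nat_lit 3334) (nat_lit 4) (nat_lit 12))
    (@En.n l10008 (nat_lit 4268) (nat_lit 4) (nat_lit 12))
    (@En.n l9890 (nat_lit 7636) (nat_lit 13) (nat_lit 12))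
    (@En.n l13384 (nat_lit 3860) (nat_lit 14) (nat_lit 6))
    (@En.n l6204 (nat_lit 3863) (nat_lit 12) (nat_lit 7))
    (@En.n l27964 (nat_lit 3862) (nat_lit 15) (nat_lit 3))))
  (@Cl.mk (nat_lit 0x300070006000c000c000c00070004000400040009000d000a000d00030009) (nat_lit 0x4070000052705) (nat_lit 16) Lb.e (@T16.mk En
    (@En.n l11623 (nat_lit 8025) (nat_lit 0) (nat_lit 9))
    (@En.n l11336 (nat_lit 3863) (nat_lit 15) (nat_lit 3))
    (@En.n l11406 (nat_lit 4786) (nat_lit 0) (nat_lit 13))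
    (@En.n l13614 (nat_lit 300) (nat_lit 3) (nat_lit 10))
    (@En.n l2038 (nat_lit 3742) (nat_lit 6) (nat_lit 13))
    (@En.n l18261 (nat_lit 12463) (nat_lit 5) (nat_lit 9))
    (@En.n l11407 (nat_lit 4255) (nat_lit 12) (nat_lit 4))
    (@En.n l2172 (nat_lit 3866) (nat_lit 12) (nat_lit 4))
    (@En.i (nat_lit 4262) (nat_lit 0) (nat_lit 4))
    (@En.n l18262 (nat_lit 1319) (nat_lit 0) (nat_lit 7))
    (@En.n l742 (nat_lit 3337) (nat_lit 4) (nat_lit 12))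
    (@En.n l14697 (nat_lit 4267) (nat_lit 4) (nat_lit 12))
    (@En.n l18261 (nat_lit 7637) (nat_lit 13) (nat_lit 12))
    (@En.n l3 (nat_lit 3859) (nat_lit 14) (nat_lit 6))
    (@En.n l18263 (nat_lit 3691) (nat_lit 12) (nat_lit 7))
    (@En.n l18264 (nat_lit 3861) (nat_lit 15) (nat_lit 3))))
  (@Cl.mk (nat_lit 0x30009000400070005000c000c000c00070004000400040009000d000c000b) (nat_lit 0x70003a500000ba3) (nat_lit 16) Lb.e (@T16.mk En
    (@En.n l6444 (nat_lit 354) (nat_lit 0) (nat_lit 11))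
    (@En.n l5838 (nat_lit 3861) (nat_lit 4) (nat_lit 12))
    (@En.n l601 (nat_lit 3860) (nat_lit 6) (nat_lit 13))
    (@En.n l19587 (nat_lit 12461) (nat_lit 3) (nat_lit 9))
    (@En.n l11 (nat_lit 1029) (nat_lit 12) (nat_lit 4))
    (@En.n l152 (nat_lit 3865) (nat_lit 12) (nat_lit 4))
    (@En.n l936 (nat_lit 4265) (nat_lit 0) (nat_lit 4))
    (@En.i (nat_lit 1315) (nat_lit 0) (nat_lit 7))
    (@En.n l25009 (nat_lit 3336) (nat_lit 4) (nat_lit 12))
    (@En.n l9977 (nat_lit 4269) (nat_lit 4) (nat_lit 12))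
    (@En.i (nat_lit 7635) (nat_lit 11) (nat_lit 12))
    (@En.n l11386 (nat_lit 2724) (nat_lit 4) (nat_lit 5))
    (@En.n l1723 (nat_lit 3774) (nat_lit 11) (nat_lit 7))
    (@En.n l6042 (nat_lit 322) (nat_lit 6) (nat_lit 4))
    (@En.i (nat_lit 7122) (nat_lit 0) (nat_lit 9))
    (@En.n l4190 (nat_lit 3862) (nat_lit 1) (nat_lit 3))))
  (@Cl.mk (nat_lit 0x2000d0009000400030009000c000a000d00070004000300070006000e000c) (nat_lit 0x1100012300000c5) (nat_lit 16) Lb.e (@T16.mk En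
    (@En.i (nat_lit 3861) (nat_lit 12) (nat_lit 12))
    (@En.i (nat_lit 12158) (nat_lit 1) (nat_lit 14))
    (@En.n l13384 (nat_lit 3867) (nat_lit 2) (nat_lit 6))
    (@En.n l6204 (nat_lit 3865) (nat_lit 3) (nat_lit 7))
    (@En.n l16092 (nat_lit 3866) (nat_lit 4) (nat_lit 3))
    (@En.n l7 (nat_lit 319) (nat_lit 0) (nat_lit 4))
    (@En.n l8513 (nat_lit 7162) (nat_lit 6) (nat_lit 7))
    (@En.i (nat_lit 4748) (nat_lit 8) (nat_lit 13))
    (@En.n l396 (nat_lit 297) (nat_lit 9) (nat_lit 10))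
    (@En.i (nat_lit 860) (nat_lit 6) (nat_lit 12))
    (@En.n l287 (nat_lit 12465) (nat_lit 11) (nat_lit 9))
    (@En.n l11 (nat_lit 4287) (nat_lit 11) (nat_lit 3))
    (@En.n l18430 (nat_lit 3334) (nat_lit 0) (nat_lit 4))
    (@En.i (nat_lit 1321) (nat_lit 14) (nat_lit 9))
    (@En.n l615 (nat_lit 477) (nat_lit 1) (nat_lit 13))
    (@En.n l3 (nat_lit 3864) (nat_lit 15) (nat_lit 2))))
  (@Cl.mk (nat_lit 0x2000d0008000400030009000d000c000b00030008000400070005000e000c) (nat_lit 0x11002a2305000c4) (nat_lit 16) Lb.e (@T16.mk En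
    (@En.i (nat_lit 3863) (nat_lit 10) (nat_lit 12))
    (@En.i (nat_lit 7597) (nat_lit 1) (nat_lit 14))
    (@En.n l11386 (nat_lit 1219) (nat_lit 2) (nat_lit 5))
    (@En.n l1723 (nat_lit 4000) (nat_lit 11) (nat_lit 7))
    (@En.n l6042 (nat_lit 320) (nat_lit 4) (nat_lit 4))
    (@En.n l2943 (nat_lit 7911) (nat_lit 5) (nat_lit 8))
    (@En.n l2806 (nat_lit 3866) (nat_lit 6) (nat_lit 3))
    (@En.n l6444 (nat_lit 378) (nat_lit 0) (nat_lit 11))
    (@En.n l5838 (nat_lit 3864) (nat_lit 9) (nat_lit 12))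
    (@En.n l601 (nat_lit 3867) (nat_lit 10) (nat_lit 13))
    (@En.n l287 (nat_lit 12464) (nat_lit 11) (nat_lit 9))
    (@En.n l11 (nat_lit 4288) (nat_lit 11) (nat_lit 3))
    (@En.n l9455 (nat_lit 3336) (nat_lit 0) (nat_lit 4))
    (@En.i (nat_lit 1317) (nat_lit 14) (nat_lit 8))
    (@En.n l615 (nat_lit 480) (nat_lit 1) (nat_lit 13))
    (@En.n l3 (nat_lit 3865) (nat_lit 15) (nat_lit 2))))
  (@Cl.mk (nat_lit 0x2000d0008000400030009000d000a000d00030008000300070006000e000c) (nat_lit 0x11000a2305000c5) (nat_lit 16) Lb.e (@T16.mk En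
    (@En.n l217 (nat_lit 3862) (nat_lit 12) (nat_lit 12))
    (@En.n l1770 (nat_lit 12157) (nat_lit 1) (nat_lit 14))
    (@En.n l2500 (nat_lit 3869) (nat_lit 2) (nat_lit 6))
    (@En.n l7525 (nat_lit 3689) (nat_lit 3) (nat_lit 7))
    (@En.n l7526 (nat_lit 3864) (nat_lit 4) (nat_lit 3))
    (@En.n l2503 (nat_lit 8029) (nat_lit 0) (nat_lit 8))
    (@En.n l7527 (nat_lit 3865) (nat_lit 6) (nat_lit 3))
    (@En.n l4320 (nat_lit 4751) (nat_lit 0) (nat_lit 13))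
    (@En.n l7528 (nat_lit 299) (nat_lit 9) (nat_lit 10))
    (@En.n l7526 (nat_lit 3868) (nat_lit 10) (nat_lit 13))
    (@En.n l7529 (nat_lit 12466) (nat_lit 11) (nat_lit 9))
    (@En.n l763 (nat_lit 4285) (nat_lit 11) (nat_lit 3))
    (@En.i (nat_lit 3337) (nat_lit 0) (nat_lit 4))
    (@En.n l1545 (nat_lit 1324) (nat_lit 14) (nat_lit 8))
    (@En.n l7530 (nat_lit 469) (nat_lit 1) (nat_lit 13))
    (@En.n l50 (nat_lit 3866) (nat_lit 15) (nat_lit 2))))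
  (@Cl.mk (nat_lit 0x2000d000800040003000d000b000a0003000d0008000500030006000e000c) (nat_lit 0x1100912045000c4) (nat_lit 16) Lb.e (@T16.mk En
    (@En.i (nat_lit 3860) (nat_lit 13) (nat_lit 12))
    (@En.n l2253 (nat_lit 8265) (nat_lit 1) (nat_lit 14))
    (@En.n l13301 (nat_lit 2992) (nat_lit 12) (nat_lit 6))
    (@En.n l947 (nat_lit 3869) (nat_lit 3) (nat_lit 3))
    (@En.n l1927 (nat_lit 311) (nat_lit 0) (nat_lit 5))
    (@En.n l13958 (nat_lit 7907) (nat_lit 5) (nat_lit 8))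
    (@En.n l397 (nat_lit 3864) (nat_lit 7) (nat_lit 13))
    (@En.n l1927 (nat_lit 3868) (nat_lit 7) (nat_lit 3))
    (@En.n l61 (nat_lit 1120) (nat_lit 0) (nat_lit 10))
    (@En.n l6064 (nat_lit 852) (nat_lit 10) (nat_lit 11))
    (@En.n l15189 (nat_lit 10248) (nat_lit 11) (nat_lit 13))
    (@En.n l11 (nat_lit 4286) (nat_lit 11) (nat_lit 3))
    (@En.n l7595 (nat_lit 3335) (nat_lit 0) (nat_lit 4))
    (@En.i (nat_lit 1325) (nat_lit 14) (nat_lit 8))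
    (@En.n l13303 (nat_lit 474) (nat_lit 1) (nat_lit 13))
    (@En.n l3 (nat_lit 3867) (nat_lit 15) (nat_lit 2))))
  (@Cl.mk (nat_lit 0x2000d000800040003000d0009000c0003000d0008000400030007000e000c) (nat_lit 0x1400912046000c4) (nat_lit 16) Lb.e (@T16.mk En
    (@En.n l13379 (nat_lit 3742) (nat_lit 13) (nat_lit 12))
    (@En.n l322 (nat_lit 8263) (nat_lit 1) (nat_lit 14))
    (@En.n l13380 (nat_lit 3871) (nat_lit 2) (nat_lit 7))
    (@En.n l13381 (nat_lit 3870) (nat_lit 3) (nat_lit 3))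
    (@En.i (nat_lit 860) (nat_lit 0) (nat_lit 4))
    (@En.n l13380 (nat_lit 7906) (nat_lit 5) (nat_lit 8))
    (@En.n l11391 (nat_lit 4741) (nat_lit 7) (nat_lit 13))
    (@En.n l13382 (nat_lit 3867) (nat_lit 7) (nat_lit 3))
    (@En.i (nat_lit 3731) (nat_lit 0) (nat_lit 12))
    (@En.n l7987 (nat_lit 3864) (nat_lit 10) (nat_lit 9))
    (@En.n l287 (nat_lit 10246) (nat_lit 11) (nat_lit 13))
    (@En.n l11 (nat_lit 4283) (nat_lit 11) (nat_lit 3))
    (@En.n l13380 (nat_lit 3331) (nat_lit 0) (nat_lit 4))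
    (@En.i (nat_lit 4490) (nat_lit 14) (nat_lit 8))
    (@En.n l10352 (nat_lit 464) (nat_lit 1) (nat_lit 13))
    (@En.n l3 (nat_lit 3868) (nat_lit 15) (nat_lit 2))))
  (@Cl.mk (nat_lit 0x2000d000700040003000d000c000a0003000d0004000900030006000e000c) (nat_lit 0x1000b92040600c4) (nat_lit 16) Lb.e (@T16.mk En
    (@En.n l2087 (nat_lit 3859) (nat_lit 13) (nat_lit 12))
    (@En.n l7510 (nat_lit 8266) (nat_lit 1) (nat_lit 14))
    (@En.n l253 (nat_lit 3888) (nat_lit 12) (nat_lit 6))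
    (@En.n l7511 (nat_lit 3867) (nat_lit 3) (nat_lit 3))
    (@En.n l7 (nat_lit 8027) (nat_lit 0) (nat_lit 9))
    (@En.n l7512 (nat_lit 1219) (nat_lit 5) (nat_lit 4))
    (@En.n l2085 (nat_lit 3866) (nat_lit 7) (nat_lit 13))
    (@En.n l3011 (nat_lit 3870) (nat_lit 7) (nat_lit 3))
    (@En.n l2544 (nat_lit 1122) (nat_lit 9) (nat_lit 10))
    (@En.n l15960 (nat_lit 3871) (nat_lit 10) (nat_lit 12))
    (@En.n l2083 (nat_lit 10247) (nat_lit 11) (nat_lit 13))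
    (@En.n l7 (nat_lit 4284) (nat_lit 11) (nat_lit 3))
    (@En.n l2547 (nat_lit 3338) (nat_lit 0) (nat_lit 4))
    (@En.i (nat_lit 3011) (nat_lit 14) (nat_lit 7))
    (@En.n l15961 (nat_lit 470) (nat_lit 1) (nat_lit 13))
    (@En.n l11 (nat_lit 3869) (nat_lit 15) (nat_lit 2))))
  (@Cl.mk (nat_lit 0x2000d000700040003000d0009000d0003000d0003000900030007000e000c) (nat_lit 0x1000b1a080700c5) (nat_lit 16) Lb.e (@T16.mk En
    (@En.n l217 (nat_lit 3872) (nat_lit 13) (nat_lit 12))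
    (@En.n l476 (nat_lit 8264) (nat_lit 1) (nat_lit 14))
    (@En.i (nat_lit 3801) (nat_lit 2) (nat_lit 7))
    (@En.n l12618 (nat_lit 3868) (nat_lit 3) (nat_lit 3))
    (@En.n l4322 (nat_lit 8028) (nat_lit 0) (nat_lit 9))
    (@En.n l10969 (nat_lit 3871) (nat_lit 5) (nat_lit 3))
    (@En.i (nat_lit 4739) (nat_lit 0) (nat_lit 13))
    (@En.n l2552 (nat_lit 3869) (nat_lit 7) (nat_lit 3))
    (@En.n l2038 (nat_lit 3733) (nat_lit 0) (nat_lit 13))
    (@En.i (nat_lit 3866) (nat_lit 10) (nat_lit 9))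
    (@En.i (nat_lit 10245) (nat_lit 11) (nat_lit 13))
    (@En.n l763 (nat_lit 4281) (nat_lit 11) (nat_lit 3))
    (@En.i (nat_lit 3339) (nat_lit 0) (nat_lit 4))
    (@En.n l1545 (nat_lit 3015) (nat_lit 14) (nat_lit 7))
    (@En.n l7530 (nat_lit 463) (nat_lit 1) (nat_lit 13))
    (@En.n l50 (nat_lit 3870) (nat_lit 15) (nat_lit 2))))
  (@Cl.mk (nat_lit 0x2000d000700040003000c0009000d000c00040003000900040007000e000c) (nat_lit 0x100083b300600c4) (nat_lit 16) Lb.e (@T16.mk En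
    (@En.n l217 (nat_lit 3873) (nat_lit 11) (nat_lit 12))
    (@En.n l1836 (nat_lit 8262) (nat_lit 1) (nat_lit 14))
    (@En.n l26204 (nat_lit 3803) (nat_lit 11) (nat_lit 7))
    (@En.n l12617 (nat_lit 852) (nat_lit 3) (nat_lit 4))
    (@En.n l10626 (nat_lit 7908) (nat_lit 4) (nat_lit 9))
    (@En.n l10862 (nat_lit 3870) (nat_lit 5) (nat_lit 3))
    (@En.n l26205 (nat_lit 2992) (nat_lit 0) (nat_lit 4))
    (@En.n l11666 (nat_lit 3868) (nat_lit 8) (nat_lit 12))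
    (@En.i (nat_lit 3874) (nat_lit 9) (nat_lit 13))
    (@En.n l7525 (nat_lit 3865) (nat_lit 10) (nat_lit 9))
    (@En.i (nat_lit 10249) (nat_lit 11) (nat_lit 12))
    (@En.n l763 (nat_lit 4282) (nat_lit 11) (nat_lit 3))
    (@En.i (nat_lit 2999) (nat_lit 0) (nat_lit 4))
    (@En.n l1545 (nat_lit 3016) (nat_lit 14) (nat_lit 7))
    (@En.n l26206 (nat_lit 460) (nat_lit 1) (nat_lit 13))
    (@En.n l50 (nat_lit 3871) (nat_lit 15) (nat_lit 2))))
noncomputable def a242 : T16 Cl := @T16.mk Cl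
  (@Cl.mk (nat_lit 0x30007000c000c000c0006000400040004000d0009000d0003000d0003000a) (nat_lit 0x4140000b150704) (nat_lit 16) Lb.e (@T16.mk En
    (@En.i (nat_lit 8026) (nat_lit 0) (nat_lit 10))
    (@En.n l10969 (nat_lit 3873) (nat_lit 15) (nat_lit 3))
    (@En.i (nat_lit 4735) (nat_lit 0) (nat_lit 13))
    (@En.n l117 (nat_lit 3859) (nat_lit 3) (nat_lit 3))
    (@En.n l2038 (nat_lit 3887) (nat_lit 0) (nat_lit 13))
    (@En.i (nat_lit 3862) (nat_lit 5) (nat_lit 9))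
    (@En.n l5801 (nat_lit 10251) (nat_lit 7) (nat_lit 13))
    (@En.n l11407 (nat_lit 4253) (nat_lit 12) (nat_lit 4))
    (@En.n l2172 (nat_lit 3870) (nat_lit 12) (nat_lit 4))
    (@En.i (nat_lit 3005) (nat_lit 0) (nat_lit 4))
    (@En.n l18262 (nat_lit 3013) (nat_lit 0) (nat_lit 6))
    (@En.n l742 (nat_lit 3339) (nat_lit 4) (nat_lit 12))
    (@En.n l14697 (nat_lit 3857) (nat_lit 4) (nat_lit 12))
    (@En.n l3517 (nat_lit 8599) (nat_lit 12) (nat_lit 12))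
    (@En.i (nat_lit 3790) (nat_lit 12) (nat_lit 7))
    (@En.i (nat_lit 3742) (nat_lit 15) (nat_lit 3))))
  (@Cl.mk (nat_lit 0x3000a00040007000c000c000c0006000400040004000c0009000d000c0004) (nat_lit 0x800314000071130) (nat_lit 16) Lb.e (@T16.mk En
    (@En.n l5161 (nat_lit 2759) (nat_lit 0) (nat_lit 4))
    (@En.n l22188 (nat_lit 3742) (nat_lit 4) (nat_lit 12))
    (@En.i (nat_lit 3758) (nat_lit 1) (nat_lit 13))
    (@En.n l18263 (nat_lit 3863) (nat_lit 3) (nat_lit 9))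
    (@En.n l22963 (nat_lit 8715) (nat_lit 13) (nat_lit 12))
    (@En.n l22390 (nat_lit 4252) (nat_lit 12) (nat_lit 4))
    (@En.n l2172 (nat_lit 3871) (nat_lit 12) (nat_lit 4))
    (@En.i (nat_lit 3001) (nat_lit 0) (nat_lit 4))
    (@En.n l32941 (nat_lit 3014) (nat_lit 0) (nat_lit 6))
    (@En.n l742 (nat_lit 2999) (nat_lit 4) (nat_lit 12))
    (@En.n l39600 (nat_lit 3858) (nat_lit 4) (nat_lit 12))
    (@En.n l8047 (nat_lit 8535) (nat_lit 12) (nat_lit 12))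
    (@En.n l22253 (nat_lit 3714) (nat_lit 11) (nat_lit 7))
    (@En.n l15691 (nat_lit 861) (nat_lit 5) (nat_lit 4))
    (@En.n l24676 (nat_lit 6667) (nat_lit 0) (nat_lit 10))
    (@En.n l10862 (nat_lit 3872) (nat_lit 1) (nat_lit 3))))
  (@Cl.mk (nat_lit 0x2000d000700040003000d000d000b00030003000d000900050003000e000c) (nat_lit 0x10008a2005100c3) (nat_lit 16) Lb.e (@T16.mk En
    (@En.n l217 (nat_lit 3758) (nat_lit 9) (nat_lit 12))
    (@En.n l1546 (nat_lit 6161) (nat_lit 1) (nat_lit 14))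
    (@En.n l28 (nat_lit 3815) (nat_lit 2) (nat_lit 3))
    (@En.n l12617 (nat_lit 2653) (nat_lit 3) (nat_lit 5))
    (@En.i (nat_lit 1376) (nat_lit 4) (nat_lit 9))
    (@En.n l12618 (nat_lit 3868) (nat_lit 6) (nat_lit 13))
    (@En.n l152 (nat_lit 3733) (nat_lit 13) (nat_lit 3))
    (@En.n l12617 (nat_lit 3879) (nat_lit 7) (nat_lit 3))
    (@En.n l11666 (nat_lit 3729) (nat_lit 0) (nat_lit 11))
    (@En.n l12619 (nat_lit 3879) (nat_lit 10) (nat_lit 13))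
    (@En.i (nat_lit 8641) (nat_lit 11) (nat_lit 13))
    (@En.n l763 (nat_lit 3877) (nat_lit 11) (nat_lit 3))
    (@En.i (nat_lit 3757) (nat_lit 0) (nat_lit 4))
    (@En.n l1545 (nat_lit 3266) (nat_lit 14) (nat_lit 7))
    (@En.n l765 (nat_lit 502) (nat_lit 1) (nat_lit 13))
    (@En.n l50 (nat_lit 3874) (nat_lit 15) (nat_lit 2))))
  (@Cl.mk (nat_lit 0x3000300080004000d000d000b00030003000d000800050003000d000d000c) (nat_lit 0x409a2009600234) (nat_lit 16) Lb.e (@T16.mk En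
    (@En.n l6444 (nat_lit 3874) (nat_lit 0) (nat_lit 12))
    (@En.n l396 (nat_lit 3881) (nat_lit 3) (nat_lit 13))
    (@En.n l4316 (nat_lit 6184) (nat_lit 10) (nat_lit 13))
    (@En.n l28 (nat_lit 3071) (nat_lit 3) (nat_lit 3))
    (@En.n l14016 (nat_lit 2650) (nat_lit 0) (nat_lit 5))
    (@En.i (nat_lit 3687) (nat_lit 13) (nat_lit 8))
    (@En.n l8329 (nat_lit 3741) (nat_lit 7) (nat_lit 13))
    (@En.n l152 (nat_lit 3880) (nat_lit 13) (nat_lit 3))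
    (@En.n l14016 (nat_lit 3878) (nat_lit 0) (nat_lit 3))
    (@En.n l14017 (nat_lit 3727) (nat_lit 0) (nat_lit 11))
    (@En.n l8260 (nat_lit 3878) (nat_lit 3) (nat_lit 13))
    (@En.i (nat_lit 5405) (nat_lit 12) (nat_lit 13))
    (@En.n l403 (nat_lit 3758) (nat_lit 3) (nat_lit 4))
    (@En.i (nat_lit 4570) (nat_lit 4) (nat_lit 8))
    (@En.n l18 (nat_lit 3877) (nat_lit 13) (nat_lit 3))
    (@En.i (nat_lit 3881) (nat_lit 0) (nat_lit 3))))
  (@Cl.mk (nat_lit 0x2000d000300080003000d000a000e00030002000d000800060003000e000d) (nat_lit 0x104091a007600a3) (nat_lit 16) Lb.e (@T16.mk En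
    (@En.i (nat_lit 3878) (nat_lit 10) (nat_lit 13))
    (@En.i (nat_lit 6168) (nat_lit 1) (nat_lit 14))
    (@En.n l14727 (nat_lit 3890) (nat_lit 2) (nat_lit 3))
    (@En.i (nat_lit 681) (nat_lit 3) (nat_lit 6))
    (@En.n l14727 (nat_lit 3964) (nat_lit 14) (nat_lit 8))
    (@En.n l14728 (nat_lit 4286) (nat_lit 6) (nat_lit 13))
    (@En.n l50 (nat_lit 3876) (nat_lit 6) (nat_lit 2))
    (@En.n l4263 (nat_lit 3877) (nat_lit 7) (nat_lit 3))
    (@En.n l25434 (nat_lit 13444) (nat_lit 0) (nat_lit 14))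
    (@En.i (nat_lit 1378) (nat_lit 2) (nat_lit 10))
    (@En.i (nat_lit 5403) (nat_lit 11) (nat_lit 13))
    (@En.i (nat_lit 3879) (nat_lit 11) (nat_lit 3))
    (@En.n l14727 (nat_lit 5329) (nat_lit 5) (nat_lit 8))
    (@En.n l117 (nat_lit 3878) (nat_lit 6) (nat_lit 3))
    (@En.i (nat_lit 503) (nat_lit 0) (nat_lit 13))
    (@En.n l3 (nat_lit 3876) (nat_lit 15) (nat_lit 2))))
  (@Cl.mk (nat_lit 0x2000d000300080003000d000d000b00030003000d000800050003000e000d) (nat_lit 0x20409a2008500a3) (nat_lit 16) Lb.e (@T16.mk En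
    (@En.n l396 (nat_lit 3875) (nat_lit 2) (nat_lit 13))
    (@En.n l4316 (nat_lit 6164) (nat_lit 1) (nat_lit 14))
    (@En.n l28 (nat_lit 3812) (nat_lit 2) (nat_lit 3))
    (@En.n l2438 (nat_lit 2648) (nat_lit 3) (nat_lit 5))
    (@En.i (nat_lit 3965) (nat_lit 4) (nat_lit 8))
    (@En.n l4108 (nat_lit 4283) (nat_lit 6) (nat_lit 13))
    (@En.n l152 (nat_lit 3732) (nat_lit 13) (nat_lit 3))
    (@En.n l2438 (nat_lit 3876) (nat_lit 7) (nat_lit 3))
    (@En.n l4684 (nat_lit 3728) (nat_lit 0) (nat_lit 11))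
    (@En.n l10815 (nat_lit 3876) (nat_lit 10) (nat_lit 13))
    (@En.i (nat_lit 5408) (nat_lit 11) (nat_lit 13))
    (@En.n l2364 (nat_lit 3874) (nat_lit 11) (nat_lit 3))
    (@En.i (nat_lit 5328) (nat_lit 0) (nat_lit 8))
    (@En.i (nat_lit 3875) (nat_lit 14) (nat_lit 3))
    (@En.i (nat_lit 507) (nat_lit 0) (nat_lit 13))
    (@En.n l50 (nat_lit 3877) (nat_lit 15) (nat_lit 2))))
  (@Cl.mk (nat_lit 0x2000d000800060003000d000d000c0003000300080004000d000a000e0003) (nat_lit 0x9600234004091a0) (nat_lit 16) Lb.e (@T16.mk En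
    (@En.n l14325 (nat_lit 3875) (nat_lit 8) (nat_lit 3))
    (@En.n l19012 (nat_lit 13442) (nat_lit 0) (nat_lit 14))
    (@En.i (nat_lit 1376) (nat_lit 2) (nat_lit 10))
    (@En.i (nat_lit 5402) (nat_lit 12) (nat_lit 13))
    (@En.n l685 (nat_lit 3759) (nat_lit 4) (nat_lit 4))
    (@En.n l12786 (nat_lit 4586) (nat_lit 5) (nat_lit 8))
    (@En.n l152 (nat_lit 3876) (nat_lit 13) (nat_lit 3))
    (@En.n l8880 (nat_lit 3882) (nat_lit 0) (nat_lit 3))
    (@En.n l619 (nat_lit 3879) (nat_lit 0) (nat_lit 12))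
    (@En.n l10582 (nat_lit 3882) (nat_lit 3) (nat_lit 13))
    (@En.i (nat_lit 6185) (nat_lit 11) (nat_lit 13))
    (@En.n l19013 (nat_lit 3072) (nat_lit 11) (nat_lit 3))
    (@En.i (nat_lit 2644) (nat_lit 0) (nat_lit 6))
    (@En.n l19013 (nat_lit 3960) (nat_lit 14) (nat_lit 8))
    (@En.n l14728 (nat_lit 4277) (nat_lit 7) (nat_lit 13))
    (@En.n l50 (nat_lit 3878) (nat_lit 15) (nat_lit 2))))
  (@Cl.mk (nat_lit 0x2000d000700040003000d000a000e00030002000d000900060003000e000c) (nat_lit 0x200091a005100c3) (nat_lit 16) Lb.e (@T16.mk En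
    (@En.n l685 (nat_lit 3759) (nat_lit 10) (nat_lit 12))
    (@En.i (nat_lit 6163) (nat_lit 1) (nat_lit 14))
    (@En.n l14727 (nat_lit 3891) (nat_lit 11) (nat_lit 3))
    (@En.i (nat_lit 678) (nat_lit 3) (nat_lit 6))
    (@En.n l14737 (nat_lit 1379) (nat_lit 14) (nat_lit 9))
    (@En.n l14728 (nat_lit 3867) (nat_lit 6) (nat_lit 13))
    (@En.n l50 (nat_lit 3879) (nat_lit 6) (nat_lit 2))
    (@En.n l7913 (nat_lit 3874) (nat_lit 7) (nat_lit 3))
    (@En.n l9758 (nat_lit 13448) (nat_lit 0) (nat_lit 14))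
    (@En.i (nat_lit 1377) (nat_lit 2) (nat_lit 10))
    (@En.n l5344 (nat_lit 8743) (nat_lit 11) (nat_lit 13))
    (@En.n l11 (nat_lit 3876) (nat_lit 11) (nat_lit 3))
    (@En.n l6385 (nat_lit 3754) (nat_lit 0) (nat_lit 4))
    (@En.n l5344 (nat_lit 3267) (nat_lit 14) (nat_lit 7))
    (@En.n l6386 (nat_lit 505) (nat_lit 8) (nat_lit 13))
    (@En.n l3 (nat_lit 3879) (nat_lit 15) (nat_lit 2))))
  (@Cl.mk (nat_lit 0x2000c0003000d000800040003000d000d000c0003000300080004000e000d) (nat_lit 0x10950023500409a) (nat_lit 16) Lb.e (@T16.mk En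
    (@En.i (nat_lit 3875) (nat_lit 11) (nat_lit 13))
    (@En.i (nat_lit 6976) (nat_lit 1) (nat_lit 14))
    (@En.n l403 (nat_lit 3887) (nat_lit 2) (nat_lit 4))
    (@En.n l7406 (nat_lit 4569) (nat_lit 3) (nat_lit 8))
    (@En.n l18 (nat_lit 3732) (nat_lit 4) (nat_lit 3))
    (@En.i (nat_lit 3883) (nat_lit 0) (nat_lit 3))
    (@En.n l6444 (nat_lit 3733) (nat_lit 7) (nat_lit 12))
    (@En.n l396 (nat_lit 3883) (nat_lit 3) (nat_lit 13))
    (@En.n l4909 (nat_lit 4293) (nat_lit 9) (nat_lit 13))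
    (@En.n l28 (nat_lit 3813) (nat_lit 9) (nat_lit 3))
    (@En.n l1392 (nat_lit 2655) (nat_lit 10) (nat_lit 4))
    (@En.i (nat_lit 3686) (nat_lit 12) (nat_lit 8))
    (@En.i (nat_lit 4718) (nat_lit 13) (nat_lit 13))
    (@En.n l117 (nat_lit 3875) (nat_lit 7) (nat_lit 3))
    (@En.i (nat_lit 2212) (nat_lit 0) (nat_lit 12))
    (@En.n l3 (nat_lit 3880) (nat_lit 15) (nat_lit 2))))
  (@Cl.mk (nat_lit 0x200080005000d000d000b00030003000d000800050003000d000b000e0003) (nat_lit 0x8a500a60024b0) (nat_lit 16) Lb.e (@T16.mk En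
    (@En.n l50 (nat_lit 3875) (nat_lit 15) (nat_lit 3))
    (@En.n l4344 (nat_lit 12857) (nat_lit 0) (nat_lit 14))
    (@En.n l2863 (nat_lit 3884) (nat_lit 2) (nat_lit 11))
    (@En.n l19557 (nat_lit 6182) (nat_lit 10) (nat_lit 13))
    (@En.n l28 (nat_lit 3070) (nat_lit 4) (nat_lit 3))
    (@En.n l14016 (nat_lit 2649) (nat_lit 5) (nat_lit 5))
    (@En.n l19557 (nat_lit 3685) (nat_lit 6) (nat_lit 8))
    (@En.n l8329 (nat_lit 3738) (nat_lit 8) (nat_lit 13))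
    (@En.n l152 (nat_lit 3883) (nat_lit 8) (nat_lit 3))
    (@En.n l19558 (nat_lit 3882) (nat_lit 9) (nat_lit 3))
    (@En.n l19559 (nat_lit 4088) (nat_lit 11) (nat_lit 11))
    (@En.n l13894 (nat_lit 3882) (nat_lit 12) (nat_lit 13))
    (@En.n l17194 (nat_lit 5407) (nat_lit 13) (nat_lit 13))
    (@En.n l403 (nat_lit 3853) (nat_lit 14) (nat_lit 5))
    (@En.i (nat_lit 4572) (nat_lit 4) (nat_lit 8))
    (@En.n l18 (nat_lit 3881) (nat_lit 15) (nat_lit 2))))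
  (@Cl.mk (nat_lit 0x200080005000d000a000e00030002000d000800060003000d000b000e0003) (nat_lit 0x91a00060024b0) (nat_lit 16) Lb.e (@T16.mk En
    (@En.n l20715 (nat_lit 3878) (nat_lit 7) (nat_lit 3))
    (@En.i (nat_lit 12858) (nat_lit 0) (nat_lit 14))
    (@En.n l1347 (nat_lit 3885) (nat_lit 2) (nat_lit 11))
    (@En.n l10298 (nat_lit 6186) (nat_lit 11) (nat_lit 13))
    (@En.n l23623 (nat_lit 3069) (nat_lit 4) (nat_lit 3))
    (@En.n l10293 (nat_lit 3749) (nat_lit 5) (nat_lit 6))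
    (@En.n l8907 (nat_lit 3959) (nat_lit 14) (nat_lit 8))
    (@En.n l22680 (nat_lit 4273) (nat_lit 8) (nat_lit 13))
    (@En.n l11 (nat_lit 3882) (nat_lit 8) (nat_lit 2))
    (@En.n l23624 (nat_lit 3881) (nat_lit 9) (nat_lit 3))
    (@En.n l619 (nat_lit 13445) (nat_lit 0) (nat_lit 14))
    (@En.n l8908 (nat_lit 1379) (nat_lit 12) (nat_lit 10))
    (@En.i (nat_lit 5404) (nat_lit 13) (nat_lit 13))
    (@En.i (nat_lit 3852) (nat_lit 14) (nat_lit 5))
    (@En.n l18949 (nat_lit 4574) (nat_lit 5) (nat_lit 8))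
    (@En.n l17 (nat_lit 3882) (nat_lit 15) (nat_lit 2))))
  (@Cl.mk (nat_lit 0x200080005000e000d0002000c0003000d000800040003000d000b000e0003) (nat_lit 0x99020560024c0) (nat_lit 16) Lb.e (@T16.mk En
    (@En.n l50 (nat_lit 3880) (nat_lit 5) (nat_lit 3))
    (@En.n l1352 (nat_lit 12861) (nat_lit 0) (nat_lit 14))
    (@En.n l8170 (nat_lit 3886) (nat_lit 2) (nat_lit 11))
    (@En.n l8171 (nat_lit 4292) (nat_lit 9) (nat_lit 13))
    (@En.n l28 (nat_lit 4015) (nat_lit 4) (nat_lit 3))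
    (@En.n l1392 (nat_lit 4090) (nat_lit 5) (nat_lit 4))
    (@En.n l8171 (nat_lit 3684) (nat_lit 6) (nat_lit 8))
    (@En.n l8172 (nat_lit 4715) (nat_lit 8) (nat_lit 13))
    (@En.n l117 (nat_lit 3881) (nat_lit 8) (nat_lit 3))
    (@En.n l1851 (nat_lit 2219) (nat_lit 10) (nat_lit 12))
    (@En.n l3 (nat_lit 3883) (nat_lit 10) (nat_lit 2))
    (@En.i (nat_lit 3881) (nat_lit 12) (nat_lit 13))
    (@En.n l2809 (nat_lit 6975) (nat_lit 1) (nat_lit 14))
    (@En.n l403 (nat_lit 3854) (nat_lit 14) (nat_lit 5))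
    (@En.n l7406 (nat_lit 4571) (nat_lit 3) (nat_lit 8))
    (@En.n l18 (nat_lit 3883) (nat_lit 15) (nat_lit 2))))
  (@Cl.mk (nat_lit 0x2000700050004000d000d000b00030003000d000900050003000b000e000c) (nat_lit 0x702006600364) (nat_lit 16) Lb.e (@T16.mk En
    (@En.n l11132 (nat_lit 3758) (nat_lit 8) (nat_lit 12))
    (@En.n l7660 (nat_lit 3613) (nat_lit 4) (nat_lit 14))
    (@En.n l11228 (nat_lit 5994) (nat_lit 2) (nat_lit 11))
    (@En.n l28 (nat_lit 3588) (nat_lit 3) (nat_lit 3))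
    (@En.n l11557 (nat_lit 3707) (nat_lit 4) (nat_lit 5))
    (@En.i (nat_lit 3682) (nat_lit 5) (nat_lit 9))
    (@En.n l3519 (nat_lit 3740) (nat_lit 7) (nat_lit 13))
    (@En.n l11229 (nat_lit 3886) (nat_lit 7) (nat_lit 3))
    (@En.n l22434 (nat_lit 3885) (nat_lit 8) (nat_lit 3))
    (@En.n l22435 (nat_lit 4085) (nat_lit 10) (nat_lit 11))
    (@En.n l22436 (nat_lit 3885) (nat_lit 11) (nat_lit 13))
    (@En.n l17870 (nat_lit 12234) (nat_lit 12) (nat_lit 13))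
    (@En.n l72 (nat_lit 3875) (nat_lit 12) (nat_lit 4))
    (@En.n l403 (nat_lit 4042) (nat_lit 14) (nat_lit 5))
    (@En.i (nat_lit 3659) (nat_lit 5) (nat_lit 7))
    (@En.n l17 (nat_lit 3884) (nat_lit 15) (nat_lit 2))))
  (@Cl.mk (nat_lit 0x2000700050004000d000a000e00030002000d000900060003000b000e000c) (nat_lit 0xb1a002600364) (nat_lit 16) Lb.e (@T16.mk En
    (@En.n l77 (nat_lit 3759) (nat_lit 9) (nat_lit 12))
    (@En.n l9781 (nat_lit 3614) (nat_lit 4) (nat_lit 14))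
    (@En.n l9729 (nat_lit 5995) (nat_lit 2) (nat_lit 11))
    (@En.n l9782 (nat_lit 3589) (nat_lit 3) (nat_lit 3))
    (@En.n l480 (nat_lit 3710) (nat_lit 4) (nat_lit 6))
    (@En.n l1574 (nat_lit 3958) (nat_lit 5) (nat_lit 9))
    (@En.n l1924 (nat_lit 1031) (nat_lit 7) (nat_lit 13))
    (@En.n l17 (nat_lit 3885) (nat_lit 7) (nat_lit 2))
    (@En.n l9783 (nat_lit 3884) (nat_lit 8) (nat_lit 3))
    (@En.n l1676 (nat_lit 13452) (nat_lit 0) (nat_lit 14))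
    (@En.n l480 (nat_lit 1374) (nat_lit 11) (nat_lit 10))
    (@En.i (nat_lit 12242) (nat_lit 12) (nat_lit 13))
    (@En.n l480 (nat_lit 3878) (nat_lit 4) (nat_lit 4))
    (@En.i (nat_lit 4049) (nat_lit 14) (nat_lit 5))
    (@En.n l9782 (nat_lit 3660) (nat_lit 6) (nat_lit 7))
    (@En.n l28 (nat_lit 3885) (nat_lit 15) (nat_lit 2))))
  (@Cl.mk (nat_lit 0x2000700050004000e000d0002000c0003000d000900040003000b000e000c) (nat_lit 0x780203600334) (nat_lit 16) Lb.e (@T16.mk En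
    (@En.n l6901 (nat_lit 3887) (nat_lit 7) (nat_lit 12))
    (@En.i (nat_lit 3617) (nat_lit 4) (nat_lit 14))
    (@En.i (nat_lit 5991) (nat_lit 2) (nat_lit 11))
    (@En.n l2593 (nat_lit 4016) (nat_lit 3) (nat_lit 3))
    (@En.n l1459 (nat_lit 4086) (nat_lit 4) (nat_lit 4))
    (@En.n l617 (nat_lit 3681) (nat_lit 5) (nat_lit 9))
    (@En.i (nat_lit 4732) (nat_lit 7) (nat_lit 13))
    (@En.n l13544 (nat_lit 3884) (nat_lit 7) (nat_lit 3))
    (@En.i (nat_lit 889) (nat_lit 9) (nat_lit 12))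
    (@En.n l28 (nat_lit 3886) (nat_lit 9) (nat_lit 2))
    (@En.n l8479 (nat_lit 3884) (nat_lit 11) (nat_lit 13))
    (@En.i (nat_lit 9220) (nat_lit 12) (nat_lit 14))
    (@En.n l12871 (nat_lit 3880) (nat_lit 2) (nat_lit 4))
    (@En.n l17 (nat_lit 4022) (nat_lit 14) (nat_lit 5))
    (@En.n l13550 (nat_lit 4573) (nat_lit 4) (nat_lit 7))
    (@En.n l3 (nat_lit 3886) (nat_lit 15) (nat_lit 2))))
  (@Cl.mk (nat_lit 0x2000c0003000d000a00040003000c000c000c0006000400040004000e000d) (nat_lit 0x208700335000094) (nat_lit 16) Lb.e (@T16.mk En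
    (@En.i (nat_lit 3758) (nat_lit 2) (nat_lit 13))
    (@En.i (nat_lit 8635) (nat_lit 1) (nat_lit 14))
    (@En.n l11056 (nat_lit 3886) (nat_lit 12) (nat_lit 4))
    (@En.n l2172 (nat_lit 3733) (nat_lit 3) (nat_lit 4))
    (@En.i (nat_lit 4043) (nat_lit 4) (nat_lit 4))
    (@En.n l2781 (nat_lit 3265) (nat_lit 5) (nat_lit 6))
    (@En.n l742 (nat_lit 4057) (nat_lit 7) (nat_lit 12))
    (@En.n l396 (nat_lit 3854) (nat_lit 4) (nat_lit 12))
    (@En.n l4909 (nat_lit 6000) (nat_lit 9) (nat_lit 12))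
    (@En.n l28 (nat_lit 3817) (nat_lit 9) (nat_lit 3))
    (@En.n l12620 (nat_lit 2681) (nat_lit 10) (nat_lit 4))
    (@En.i (nat_lit 2651) (nat_lit 12) (nat_lit 10))
    (@En.i (nat_lit 4599) (nat_lit 13) (nat_lit 13))
    (@En.n l117 (nat_lit 3758) (nat_lit 14) (nat_lit 3))
    (@En.i (nat_lit 2208) (nat_lit 0) (nat_lit 12))
    (@En.n l3 (nat_lit 3887) (nat_lit 15) (nat_lit 2))))
noncomputable def a243 : T16 Cl := @T16.mk Cl
  (@Cl.mk (nat_lit 0x20005000a0006000e000c0002000d000600040003000c000b000a000e0004) (nat_lit 0x70c201000a82c0) (nat_lit 16) Lb.e (@T16.mk En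
    (@En.n l3011 (nat_lit 3807) (nat_lit 6) (nat_lit 4))
    (@En.n l476 (nat_lit 3891) (nat_lit 1) (nat_lit 14))
    (@En.n l5994 (nat_lit 3879) (nat_lit 9) (nat_lit 10))
    (@En.n l6075 (nat_lit 3803) (nat_lit 3) (nat_lit 11))
    (@En.n l6076 (nat_lit 8744) (nat_lit 11) (nat_lit 12))
    (@En.n l7 (nat_lit 3889) (nat_lit 5) (nat_lit 3))
    (@En.n l2085 (nat_lit 3752) (nat_lit 6) (nat_lit 4))
    (@En.n l4869 (nat_lit 3896) (nat_lit 7) (nat_lit 6))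
    (@En.n l6077 (nat_lit 546) (nat_lit 9) (nat_lit 13))
    (@En.n l11 (nat_lit 3888) (nat_lit 9) (nat_lit 2))
    (@En.n l2087 (nat_lit 3846) (nat_lit 11) (nat_lit 12))
    (@En.n l897 (nat_lit 1083) (nat_lit 12) (nat_lit 14))
    (@En.n l6078 (nat_lit 2642) (nat_lit 13) (nat_lit 6))
    (@En.n l2090 (nat_lit 7501) (nat_lit 14) (nat_lit 10))
    (@En.n l899 (nat_lit 1223) (nat_lit 13) (nat_lit 5))
    (@En.n l17 (nat_lit 3888) (nat_lit 15) (nat_lit 2))))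
  (@Cl.mk (nat_lit 0x2000500090006000e000d0002000d000300070003000c000b000a000e0004) (nat_lit 0x1102000a82c0) (nat_lit 16) Lb.e (@T16.mk En
    (@En.n l2869 (nat_lit 3806) (nat_lit 6) (nat_lit 4))
    (@En.n l476 (nat_lit 3890) (nat_lit 8) (nat_lit 14))
    (@En.n l5994 (nat_lit 3876) (nat_lit 9) (nat_lit 10))
    (@En.n l6075 (nat_lit 3894) (nat_lit 3) (nat_lit 11))
    (@En.n l476 (nat_lit 5568) (nat_lit 11) (nat_lit 12))
    (@En.i (nat_lit 3888) (nat_lit 5) (nat_lit 3))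
    (@En.n l476 (nat_lit 4691) (nat_lit 6) (nat_lit 7))
    (@En.i (nat_lit 3075) (nat_lit 7) (nat_lit 3))
    (@En.i (nat_lit 598) (nat_lit 9) (nat_lit 13))
    (@En.n l11 (nat_lit 3889) (nat_lit 9) (nat_lit 2))
    (@En.n l1578 (nat_lit 3075) (nat_lit 11) (nat_lit 13))
    (@En.n l897 (nat_lit 362) (nat_lit 12) (nat_lit 14))
    (@En.n l6078 (nat_lit 2643) (nat_lit 13) (nat_lit 6))
    (@En.n l476 (nat_lit 7500) (nat_lit 14) (nat_lit 9))
    (@En.n l899 (nat_lit 1222) (nat_lit 13) (nat_lit 5))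
    (@En.n l17 (nat_lit 3889) (nat_lit 15) (nat_lit 2))))
  (@Cl.mk (nat_lit 0x2000d000300070003000d000b000e00030002000d000500090003000e000d) (nat_lit 0x2000a0b00600011) (nat_lit 16) Lb.e (@T16.mk En
    (@En.n l1578 (nat_lit 3072) (nat_lit 10) (nat_lit 13))
    (@En.i (nat_lit 363) (nat_lit 1) (nat_lit 14))
    (@En.n l6078 (nat_lit 3876) (nat_lit 2) (nat_lit 3))
    (@En.i (nat_lit 4841) (nat_lit 3) (nat_lit 9))
    (@En.i (nat_lit 3889) (nat_lit 14) (nat_lit 5))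
    (@En.i (nat_lit 4284) (nat_lit 6) (nat_lit 13))
    (@En.n l17 (nat_lit 3890) (nat_lit 6) (nat_lit 2))
    (@En.n l2869 (nat_lit 3812) (nat_lit 7) (nat_lit 3))
    (@En.i (nat_lit 13449) (nat_lit 0) (nat_lit 14))
    (@En.n l2579 (nat_lit 3892) (nat_lit 2) (nat_lit 11))
    (@En.i (nat_lit 5410) (nat_lit 11) (nat_lit 13))
    (@En.i (nat_lit 3891) (nat_lit 4) (nat_lit 3))
    (@En.i (nat_lit 4697) (nat_lit 5) (nat_lit 7))
    (@En.i (nat_lit 3072) (nat_lit 6) (nat_lit 3))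
    (@En.i (nat_lit 512) (nat_lit 0) (nat_lit 13))
    (@En.n l11 (nat_lit 3890) (nat_lit 15) (nat_lit 2))))
  (@Cl.mk (nat_lit 0x2000d0005000a0003000e000c0002000d000600040003000d000b000e0003) (nat_lit 0x5070c201000a0b0) (nat_lit 16) Lb.e (@T16.mk En
    (@En.n l3011 (nat_lit 3815) (nat_lit 7) (nat_lit 3))
    (@En.n l1559 (nat_lit 13461) (nat_lit 0) (nat_lit 14))
    (@En.n l2547 (nat_lit 3893) (nat_lit 2) (nat_lit 11))
    (@En.n l2083 (nat_lit 8742) (nat_lit 11) (nat_lit 13))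
    (@En.n l7 (nat_lit 3890) (nat_lit 11) (nat_lit 3))
    (@En.n l2547 (nat_lit 3753) (nat_lit 5) (nat_lit 4))
    (@En.n l4869 (nat_lit 3895) (nat_lit 14) (nat_lit 6))
    (@En.n l14602 (nat_lit 510) (nat_lit 8) (nat_lit 13))
    (@En.n l11 (nat_lit 3891) (nat_lit 8) (nat_lit 2))
    (@En.n l2087 (nat_lit 3760) (nat_lit 10) (nat_lit 12))
    (@En.i (nat_lit 1088) (nat_lit 1) (nat_lit 14))
    (@En.n l6078 (nat_lit 3879) (nat_lit 2) (nat_lit 3))
    (@En.n l7 (nat_lit 4842) (nat_lit 3) (nat_lit 10))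
    (@En.i (nat_lit 3888) (nat_lit 14) (nat_lit 5))
    (@En.i (nat_lit 3869) (nat_lit 6) (nat_lit 13))
    (@En.n l17 (nat_lit 3891) (nat_lit 15) (nat_lit 2))))
  (@Cl.mk (nat_lit 0x2000c0005000400090004000e000d0002000d000300070003000b000e000c) (nat_lit 0x40000a202000911) (nat_lit 16) Lb.e (@T16.mk En
    (@En.n l68 (nat_lit 3806) (nat_lit 9) (nat_lit 12))
    (@En.n l645 (nat_lit 1220) (nat_lit 4) (nat_lit 14))
    (@En.i (nat_lit 7169) (nat_lit 11) (nat_lit 11))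
    (@En.n l2364 (nat_lit 3893) (nat_lit 3) (nat_lit 3))
    (@En.i (nat_lit 4690) (nat_lit 4) (nat_lit 7))
    (@En.i (nat_lit 3066) (nat_lit 5) (nat_lit 3))
    (@En.i (nat_lit 547) (nat_lit 0) (nat_lit 13))
    (@En.n l50 (nat_lit 3892) (nat_lit 7) (nat_lit 2))
    (@En.n l396 (nat_lit 3066) (nat_lit 9) (nat_lit 13))
    (@En.i (nat_lit 1018) (nat_lit 1) (nat_lit 14))
    (@En.n l2438 (nat_lit 1378) (nat_lit 10) (nat_lit 4))
    (@En.n l645 (nat_lit 6966) (nat_lit 3) (nat_lit 9))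
    (@En.i (nat_lit 3812) (nat_lit 4) (nat_lit 4))
    (@En.n l1448 (nat_lit 3894) (nat_lit 14) (nat_lit 5))
    (@En.n l8015 (nat_lit 4282) (nat_lit 7) (nat_lit 12))
    (@En.n l67 (nat_lit 3892) (nat_lit 15) (nat_lit 2))))
  (@Cl.mk (nat_lit 0x2000c00050004000a0004000e000c0002000d000600040003000b000e000c) (nat_lit 0x40070c201000911) (nat_lit 16) Lb.e (@T16.mk En
    (@En.n l68 (nat_lit 3807) (nat_lit 9) (nat_lit 12))
    (@En.n l8452 (nat_lit 1221) (nat_lit 4) (nat_lit 14))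
    (@En.i (nat_lit 8713) (nat_lit 11) (nat_lit 11))
    (@En.n l763 (nat_lit 3892) (nat_lit 3) (nat_lit 3))
    (@En.i (nat_lit 3712) (nat_lit 0) (nat_lit 4))
    (@En.n l1545 (nat_lit 3899) (nat_lit 14) (nat_lit 6))
    (@En.n l765 (nat_lit 545) (nat_lit 7) (nat_lit 13))
    (@En.n l50 (nat_lit 3893) (nat_lit 7) (nat_lit 2))
    (@En.n l217 (nat_lit 3587) (nat_lit 9) (nat_lit 12))
    (@En.i (nat_lit 1019) (nat_lit 1) (nat_lit 14))
    (@En.n l12617 (nat_lit 1377) (nat_lit 10) (nat_lit 4))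
    (@En.n l8450 (nat_lit 7990) (nat_lit 3) (nat_lit 10))
    (@En.i (nat_lit 3815) (nat_lit 4) (nat_lit 4))
    (@En.n l14174 (nat_lit 3803) (nat_lit 14) (nat_lit 5))
    (@En.n l8015 (nat_lit 3871) (nat_lit 7) (nat_lit 12))
    (@En.n l67 (nat_lit 3893) (nat_lit 15) (nat_lit 2))))
  (@Cl.mk (nat_lit 0x20005000300090007000e000d0002000d000300070003000b0009000e000d) (nat_lit 0xa2020007021) (nat_lit 16) Lb.e (@T16.mk En
    (@En.n l6635 (nat_lit 3799) (nat_lit 8) (nat_lit 13))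
    (@En.n l6636 (nat_lit 3892) (nat_lit 1) (nat_lit 14))
    (@En.i (nat_lit 4001) (nat_lit 2) (nat_lit 9))
    (@En.n l698 (nat_lit 7170) (nat_lit 3) (nat_lit 11))
    (@En.i (nat_lit 3803) (nat_lit 4) (nat_lit 3))
    (@En.n l6638 (nat_lit 4689) (nat_lit 5) (nat_lit 7))
    (@En.n l117 (nat_lit 3798) (nat_lit 6) (nat_lit 3))
    (@En.n l698 (nat_lit 550) (nat_lit 8) (nat_lit 13))
    (@En.n l3 (nat_lit 3894) (nat_lit 8) (nat_lit 2))
    (@En.i (nat_lit 3798) (nat_lit 10) (nat_lit 13))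
    (@En.i (nat_lit 1008) (nat_lit 11) (nat_lit 14))
    (@En.i (nat_lit 3911) (nat_lit 12) (nat_lit 7))
    (@En.n l6642 (nat_lit 7251) (nat_lit 13) (nat_lit 9))
    (@En.n l6636 (nat_lit 3799) (nat_lit 4) (nat_lit 3))
    (@En.n l6643 (nat_lit 1226) (nat_lit 0) (nat_lit 5))
    (@En.n l50 (nat_lit 3894) (nat_lit 15) (nat_lit 2))))
  (@Cl.mk (nat_lit 0x2000600030007000d000b000e00030002000c0005000a00090004000e000d) (nat_lit 0xb7a002081031) (nat_lit 16) Lb.e (@T16.mk En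
    (@En.n l24861 (nat_lit 3082) (nat_lit 9) (nat_lit 13))
    (@En.n l253 (nat_lit 3211) (nat_lit 1) (nat_lit 14))
    (@En.n l11610 (nat_lit 3772) (nat_lit 2) (nat_lit 4))
    (@En.n l1504 (nat_lit 3890) (nat_lit 3) (nat_lit 9))
    (@En.n l253 (nat_lit 7065) (nat_lit 4) (nat_lit 10))
    (@En.i (nat_lit 3896) (nat_lit 14) (nat_lit 5))
    (@En.n l1504 (nat_lit 3011) (nat_lit 7) (nat_lit 12))
    (@En.n l17 (nat_lit 3895) (nat_lit 7) (nat_lit 2))
    (@En.n l5393 (nat_lit 3087) (nat_lit 8) (nat_lit 3))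
    (@En.i (nat_lit 12982) (nat_lit 0) (nat_lit 14))
    (@En.n l1786 (nat_lit 3899) (nat_lit 11) (nat_lit 11))
    (@En.n l2571 (nat_lit 7329) (nat_lit 12) (nat_lit 13))
    (@En.i (nat_lit 4756) (nat_lit 13) (nat_lit 7))
    (@En.n l2845 (nat_lit 3082) (nat_lit 5) (nat_lit 3))
    (@En.n l253 (nat_lit 1071) (nat_lit 0) (nat_lit 6))
    (@En.n l28 (nat_lit 3895) (nat_lit 15) (nat_lit 2))))
  (@Cl.mk (nat_lit 0x20005000a00090007000e000d0002000600030007000c000b0009000e0004) (nat_lit 0x810340000073b0) (nat_lit 16) Lb.e (@T16.mk En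
    (@En.n l5393 (nat_lit 3898) (nat_lit 7) (nat_lit 4))
    (@En.n l3 (nat_lit 3895) (nat_lit 9) (nat_lit 14))
    (@En.n l2571 (nat_lit 3267) (nat_lit 10) (nat_lit 9))
    (@En.n l15054 (nat_lit 3900) (nat_lit 3) (nat_lit 11))
    (@En.n l5032 (nat_lit 7425) (nat_lit 12) (nat_lit 12))
    (@En.i (nat_lit 4675) (nat_lit 5) (nat_lit 7))
    (@En.n l15055 (nat_lit 3897) (nat_lit 6) (nat_lit 3))
    (@En.n l11247 (nat_lit 1077) (nat_lit 7) (nat_lit 6))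
    (@En.n l28 (nat_lit 3896) (nat_lit 8) (nat_lit 2))
    (@En.n l15056 (nat_lit 3897) (nat_lit 10) (nat_lit 13))
    (@En.n l15057 (nat_lit 3210) (nat_lit 11) (nat_lit 14))
    (@En.n l3550 (nat_lit 2662) (nat_lit 2) (nat_lit 7))
    (@En.n l1504 (nat_lit 3889) (nat_lit 13) (nat_lit 9))
    (@En.n l11247 (nat_lit 8004) (nat_lit 4) (nat_lit 10))
    (@En.n l3106 (nat_lit 2820) (nat_lit 13) (nat_lit 5))
    (@En.n l17 (nat_lit 3896) (nat_lit 15) (nat_lit 2))))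
  (@Cl.mk (nat_lit 0x20005000b00090007000d000d0005000300030007000c000b0009000e0004) (nat_lit 0x910340000782b0) (nat_lit 16) Lb.e (@T16.mk En
    (@En.n l27875 (nat_lit 3902) (nat_lit 8) (nat_lit 4))
    (@En.n l19557 (nat_lit 3082) (nat_lit 1) (nat_lit 14))
    (@En.n l29628 (nat_lit 3261) (nat_lit 2) (nat_lit 9))
    (@En.n l15658 (nat_lit 3906) (nat_lit 3) (nat_lit 11))
    (@En.n l8047 (nat_lit 7417) (nat_lit 13) (nat_lit 12))
    (@En.n l29369 (nat_lit 4421) (nat_lit 5) (nat_lit 7))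
    (@En.n l29629 (nat_lit 3896) (nat_lit 6) (nat_lit 3))
    (@En.n l14015 (nat_lit 3904) (nat_lit 7) (nat_lit 3))
    (@En.n l15808 (nat_lit 1170) (nat_lit 8) (nat_lit 5))
    (@En.n l29630 (nat_lit 3904) (nat_lit 10) (nat_lit 13))
    (@En.n l15658 (nat_lit 3858) (nat_lit 11) (nat_lit 13))
    (@En.n l15813 (nat_lit 2664) (nat_lit 12) (nat_lit 7))
    (@En.n l29631 (nat_lit 3075) (nat_lit 13) (nat_lit 9))
    (@En.n l29632 (nat_lit 7800) (nat_lit 14) (nat_lit 11))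
    (@En.n l29633 (nat_lit 2816) (nat_lit 13) (nat_lit 5))
    (@En.n l18 (nat_lit 3897) (nat_lit 15) (nat_lit 2))))
  (@Cl.mk (nat_lit 0x2000600030007000c000c000c000a000400040004000a00090006000e000d) (nat_lit 0x918300081013) (nat_lit 16) Lb.e (@T16.mk En
    (@En.n l396 (nat_lit 3902) (nat_lit 2) (nat_lit 13))
    (@En.n l889 (nat_lit 863) (nat_lit 1) (nat_lit 14))
    (@En.n l9458 (nat_lit 3706) (nat_lit 2) (nat_lit 6))
    (@En.i (nat_lit 3806) (nat_lit 3) (nat_lit 9))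
    (@En.i (nat_lit 7674) (nat_lit 4) (nat_lit 10))
    (@En.n l11 (nat_lit 3899) (nat_lit 5) (nat_lit 4))
    (@En.n l152 (nat_lit 3910) (nat_lit 6) (nat_lit 4))
    (@En.n l936 (nat_lit 3907) (nat_lit 7) (nat_lit 4))
    (@En.n l55 (nat_lit 3266) (nat_lit 9) (nat_lit 10))
    (@En.n l619 (nat_lit 3908) (nat_lit 10) (nat_lit 12))
    (@En.n l14226 (nat_lit 3896) (nat_lit 4) (nat_lit 12))
    (@En.i (nat_lit 7210) (nat_lit 12) (nat_lit 12))
    (@En.n l17 (nat_lit 4757) (nat_lit 13) (nat_lit 7))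
    (@En.i (nat_lit 3902) (nat_lit 14) (nat_lit 3))
    (@En.n l699 (nat_lit 294) (nat_lit 0) (nat_lit 6))
    (@En.n l50 (nat_lit 3898) (nat_lit 15) (nat_lit 2))))
  (@Cl.mk (nat_lit 0x2000600030007000b000e000c0002000b00050004000a00090005000e000d) (nat_lit 0x612040071033) (nat_lit 16) Lb.e (@T16.mk En
    (@En.n l396 (nat_lit 3901) (nat_lit 8) (nat_lit 13))
    (@En.n l889 (nat_lit 3209) (nat_lit 9) (nat_lit 14))
    (@En.n l6586 (nat_lit 3696) (nat_lit 2) (nat_lit 5))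
    (@En.i (nat_lit 3892) (nat_lit 11) (nat_lit 9))
    (@En.n l14226 (nat_lit 11569) (nat_lit 4) (nat_lit 10))
    (@En.i (nat_lit 3087) (nat_lit 5) (nat_lit 4))
    (@En.n l10230 (nat_lit 3900) (nat_lit 14) (nat_lit 5))
    (@En.n l8015 (nat_lit 3016) (nat_lit 8) (nat_lit 11))
    (@En.n l67 (nat_lit 3899) (nat_lit 8) (nat_lit 2))
    (@En.n l68 (nat_lit 3898) (nat_lit 10) (nat_lit 12))
    (@En.n l14226 (nat_lit 2822) (nat_lit 4) (nat_lit 14))
    (@En.n l10233 (nat_lit 4861) (nat_lit 12) (nat_lit 11))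
    (@En.n l17 (nat_lit 4758) (nat_lit 13) (nat_lit 7))
    (@En.i (nat_lit 3901) (nat_lit 4) (nat_lit 3))
    (@En.n l699 (nat_lit 1028) (nat_lit 0) (nat_lit 6))
    (@En.n l50 (nat_lit 3899) (nat_lit 15) (nat_lit 2))))
  (@Cl.mk (nat_lit 0x200050003000a00090008000e000d0002000600030007000b0008000e000d) (nat_lit 0x8163b00006022) (nat_lit 16) Lb.e (@T16.mk En
    (@En.n l6676 (nat_lit 3907) (nat_lit 9) (nat_lit 13))
    (@En.n l6679 (nat_lit 3899) (nat_lit 10) (nat_lit 14))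
    (@En.n l7432 (nat_lit 3986) (nat_lit 11) (nat_lit 8))
    (@En.n l5011 (nat_lit 7206) (nat_lit 3) (nat_lit 11))
    (@En.i (nat_lit 4686) (nat_lit 4) (nat_lit 7))
    (@En.n l5011 (nat_lit 3906) (nat_lit 5) (nat_lit 3))
    (@En.n l649 (nat_lit 1017) (nat_lit 6) (nat_lit 6))
    (@En.n l11 (nat_lit 3900) (nat_lit 7) (nat_lit 2))
    (@En.n l7088 (nat_lit 3906) (nat_lit 9) (nat_lit 13))
    (@En.n l5011 (nat_lit 3214) (nat_lit 10) (nat_lit 14))
    (@En.n l3261 (nat_lit 3838) (nat_lit 2) (nat_lit 8))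
    (@En.n l7432 (nat_lit 3894) (nat_lit 12) (nat_lit 9))
    (@En.i (nat_lit 11570) (nat_lit 13) (nat_lit 10))
    (@En.n l6679 (nat_lit 3907) (nat_lit 5) (nat_lit 3))
    (@En.n l9641 (nat_lit 2819) (nat_lit 6) (nat_lit 5))
    (@En.n l50 (nat_lit 3900) (nat_lit 15) (nat_lit 2))))
  (@Cl.mk (nat_lit 0x2000b00050004000b00090005000d000d0005000300030007000b000e000c) (nat_lit 0x4008102b0000719) (nat_lit 16) Lb.e (@T16.mk En
    (@En.n l68 (nat_lit 3902) (nat_lit 11) (nat_lit 12))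
    (@En.n l14226 (nat_lit 2821) (nat_lit 4) (nat_lit 14))
    (@En.n l11468 (nat_lit 4856) (nat_lit 2) (nat_lit 11))
    (@En.n l3471 (nat_lit 2322) (nat_lit 3) (nat_lit 7))
    (@En.n l18 (nat_lit 3899) (nat_lit 13) (nat_lit 3))
    (@En.n l3475 (nat_lit 3905) (nat_lit 0) (nat_lit 3))
    (@En.n l2364 (nat_lit 3032) (nat_lit 0) (nat_lit 5))
    (@En.n l14943 (nat_lit 3905) (nat_lit 3) (nat_lit 13))
    (@En.n l11468 (nat_lit 4252) (nat_lit 9) (nat_lit 13))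
    (@En.n l15557 (nat_lit 3694) (nat_lit 9) (nat_lit 5))
    (@En.i (nat_lit 3066) (nat_lit 11) (nat_lit 9))
    (@En.n l14226 (nat_lit 8071) (nat_lit 12) (nat_lit 11))
    (@En.i (nat_lit 3083) (nat_lit 6) (nat_lit 4))
    (@En.n l11387 (nat_lit 3906) (nat_lit 14) (nat_lit 5))
    (@En.n l3476 (nat_lit 3014) (nat_lit 9) (nat_lit 11))
    (@En.n l67 (nat_lit 3901) (nat_lit 15) (nat_lit 2))))
  (@Cl.mk (nat_lit 0x300030007000c000c000c000a000400040004000b00090006000d000d0005) (nat_lit 0x4813000810270) (nat_lit 16) Lb.e (@T16.mk En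
    (@En.n l2364 (nat_lit 1169) (nat_lit 0) (nat_lit 5))
    (@En.n l15554 (nat_lit 3903) (nat_lit 3) (nat_lit 13))
    (@En.n l15889 (nat_lit 3873) (nat_lit 2) (nat_lit 13))
    (@En.n l15557 (nat_lit 1166) (nat_lit 3) (nat_lit 6))
    (@En.i (nat_lit 3074) (nat_lit 4) (nat_lit 9))
    (@En.n l15889 (nat_lit 7092) (nat_lit 6) (nat_lit 11))
    (@En.n l11 (nat_lit 3901) (nat_lit 12) (nat_lit 4))
    (@En.n l152 (nat_lit 3088) (nat_lit 12) (nat_lit 4))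
    (@En.n l15889 (nat_lit 667) (nat_lit 8) (nat_lit 4))
    (@En.n l55 (nat_lit 3263) (nat_lit 10) (nat_lit 10))
    (@En.n l25009 (nat_lit 664) (nat_lit 4) (nat_lit 12))
    (@En.n l27653 (nat_lit 3897) (nat_lit 4) (nat_lit 12))
    (@En.n l10226 (nat_lit 3536) (nat_lit 13) (nat_lit 12))
    (@En.i (nat_lit 4391) (nat_lit 12) (nat_lit 7))
    (@En.n l18 (nat_lit 3898) (nat_lit 13) (nat_lit 3))
    (@En.n l26586 (nat_lit 3903) (nat_lit 0) (nat_lit 3))))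
  (@Cl.mk (nat_lit 0x20007000c000c000c000a000400040004000c00090006000d0004000e0003) (nat_lit 0x98130009106040) (nat_lit 16) Lb.e (@T16.mk En
    (@En.n l19348 (nat_lit 3902) (nat_lit 15) (nat_lit 3))
    (@En.i (nat_lit 13007) (nat_lit 0) (nat_lit 14))
    (@En.n l25742 (nat_lit 2667) (nat_lit 2) (nat_lit 4))
    (@En.n l4509 (nat_lit 3872) (nat_lit 4) (nat_lit 13))
    (@En.i (nat_lit 2671) (nat_lit 4) (nat_lit 6))
    (@En.n l19342 (nat_lit 3068) (nat_lit 5) (nat_lit 9))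
    (@En.n l601 (nat_lit 7091) (nat_lit 7) (nat_lit 12))
    (@En.n l2309 (nat_lit 3905) (nat_lit 7) (nat_lit 4))
    (@En.n l11 (nat_lit 3089) (nat_lit 8) (nat_lit 4))
    (@En.n l1393 (nat_lit 666) (nat_lit 9) (nat_lit 4))
    (@En.n l77 (nat_lit 3260) (nat_lit 11) (nat_lit 10))
    (@En.n l8390 (nat_lit 663) (nat_lit 12) (nat_lit 12))
    (@En.n l25743 (nat_lit 3904) (nat_lit 4) (nat_lit 12))
    (@En.n l25744 (nat_lit 7426) (nat_lit 14) (nat_lit 12))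
    (@En.n l4509 (nat_lit 4380) (nat_lit 14) (nat_lit 7))
    (@En.n l17 (nat_lit 3903) (nat_lit 15) (nat_lit 2))))
noncomputable def a244 : T16 Cl := @T16.mk Cl
  (@Cl.mk (nat_lit 0x20005000c00090007000d0004000e000300020007000c000b0009000e0004) (nat_lit 0x910304000713b0) (nat_lit 16) Lb.e (@T16.mk En
    (@En.n l16857 (nat_lit 3903) (nat_lit 9) (nat_lit 4))
    (@En.n l2644 (nat_lit 3084) (nat_lit 11) (nat_lit 14))
    (@En.n l16859 (nat_lit 3262) (nat_lit 12) (nat_lit 9))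
    (@En.i (nat_lit 2663) (nat_lit 3) (nat_lit 11))
    (@En.n l117 (nat_lit 7418) (nat_lit 14) (nat_lit 12))
    (@En.n l2832 (nat_lit 4420) (nat_lit 5) (nat_lit 7))
    (@En.n l50 (nat_lit 3904) (nat_lit 6) (nat_lit 2))
    (@En.n l9450 (nat_lit 3897) (nat_lit 7) (nat_lit 3))
    (@En.n l12266 (nat_lit 13745) (nat_lit 0) (nat_lit 14))
    (@En.n l21194 (nat_lit 2666) (nat_lit 9) (nat_lit 4))
    (@En.i (nat_lit 3857) (nat_lit 11) (nat_lit 13))
    (@En.n l6393 (nat_lit 2669) (nat_lit 12) (nat_lit 7))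
    (@En.i (nat_lit 3073) (nat_lit 13) (nat_lit 9))
    (@En.n l12266 (nat_lit 7797) (nat_lit 7) (nat_lit 12))
    (@En.n l107 (nat_lit 2818) (nat_lit 13) (nat_lit 5))
    (@En.n l3 (nat_lit 3904) (nat_lit 15) (nat_lit 2))))
  (@Cl.mk (nat_lit 0x20007000b000e000c0002000b00050004000c00090005000d0004000e0003) (nat_lit 0x7c90400910a040) (nat_lit 16) Lb.e (@T16.mk En
    (@En.n l9452 (nat_lit 3901) (nat_lit 5) (nat_lit 3))
    (@En.i (nat_lit 13744) (nat_lit 0) (nat_lit 14))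
    (@En.n l1246 (nat_lit 2665) (nat_lit 2) (nat_lit 4))
    (@En.i (nat_lit 4253) (nat_lit 9) (nat_lit 13))
    (@En.n l6899 (nat_lit 3695) (nat_lit 4) (nat_lit 5))
    (@En.n l11999 (nat_lit 3065) (nat_lit 5) (nat_lit 9))
    (@En.i (nat_lit 8065) (nat_lit 7) (nat_lit 12))
    (@En.n l1241 (nat_lit 3081) (nat_lit 7) (nat_lit 4))
    (@En.n l17 (nat_lit 2663) (nat_lit 14) (nat_lit 5))
    (@En.i (nat_lit 3018) (nat_lit 10) (nat_lit 11))
    (@En.n l3 (nat_lit 3905) (nat_lit 10) (nat_lit 2))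
    (@En.n l12002 (nat_lit 3903) (nat_lit 12) (nat_lit 12))
    (@En.n l2789 (nat_lit 2823) (nat_lit 4) (nat_lit 14))
    (@En.i (nat_lit 4857) (nat_lit 2) (nat_lit 11))
    (@En.i (nat_lit 2321) (nat_lit 3) (nat_lit 7))
    (@En.n l50 (nat_lit 3905) (nat_lit 15) (nat_lit 2))))
  (@Cl.mk (nat_lit 0x200050003000b00090008000d000d0005000300030007000b0008000e000d) (nat_lit 0x916ab00007021) (nat_lit 16) Lb.e (@T16.mk En
    (@En.n l9448 (nat_lit 667) (nat_lit 10) (nat_lit 13))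
    (@En.n l9452 (nat_lit 3901) (nat_lit 1) (nat_lit 14))
    (@En.n l9454 (nat_lit 3915) (nat_lit 2) (nat_lit 8))
    (@En.i (nat_lit 4754) (nat_lit 3) (nat_lit 11))
    (@En.n l16585 (nat_lit 2325) (nat_lit 4) (nat_lit 7))
    (@En.n l3643 (nat_lit 3900) (nat_lit 5) (nat_lit 3))
    (@En.n l7 (nat_lit 2663) (nat_lit 6) (nat_lit 3))
    (@En.n l4739 (nat_lit 1165) (nat_lit 7) (nat_lit 5))
    (@En.n l644 (nat_lit 2663) (nat_lit 9) (nat_lit 13))
    (@En.i (nat_lit 4258) (nat_lit 10) (nat_lit 13))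
    (@En.n l7025 (nat_lit 3789) (nat_lit 11) (nat_lit 8))
    (@En.n l9454 (nat_lit 3798) (nat_lit 12) (nat_lit 9))
    (@En.i (nat_lit 8072) (nat_lit 13) (nat_lit 11))
    (@En.n l9450 (nat_lit 667) (nat_lit 6) (nat_lit 3))
    (@En.i (nat_lit 2815) (nat_lit 0) (nat_lit 5))
    (@En.n l3 (nat_lit 3906) (nat_lit 15) (nat_lit 2))))
  (@Cl.mk (nat_lit 0x2000600030007000c0008000d000d000400030003000a00090008000e000d) (nat_lit 0x621300081631) (nat_lit 16) Lb.e (@T16.mk En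
    (@En.n l28257 (nat_lit 667) (nat_lit 2) (nat_lit 13))
    (@En.n l15664 (nat_lit 3324) (nat_lit 1) (nat_lit 14))
    (@En.n l23420 (nat_lit 3836) (nat_lit 2) (nat_lit 8))
    (@En.i (nat_lit 3799) (nat_lit 3) (nat_lit 9))
    (@En.n l26659 (nat_lit 7675) (nat_lit 4) (nat_lit 10))
    (@En.n l13949 (nat_lit 3900) (nat_lit 13) (nat_lit 3))
    (@En.n l152 (nat_lit 3909) (nat_lit 6) (nat_lit 3))
    (@En.n l28258 (nat_lit 3896) (nat_lit 0) (nat_lit 4))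
    (@En.n l619 (nat_lit 3909) (nat_lit 9) (nat_lit 13))
    (@En.i (nat_lit 3087) (nat_lit 10) (nat_lit 13))
    (@En.n l8361 (nat_lit 3912) (nat_lit 11) (nat_lit 8))
    (@En.i (nat_lit 7208) (nat_lit 12) (nat_lit 12))
    (@En.n l17 (nat_lit 4681) (nat_lit 13) (nat_lit 7))
    (@En.n l15664 (nat_lit 667) (nat_lit 14) (nat_lit 3))
    (@En.n l699 (nat_lit 1161) (nat_lit 0) (nat_lit 6))
    (@En.n l50 (nat_lit 3907) (nat_lit 15) (nat_lit 2))))
  (@Cl.mk (nat_lit 0x2000600030007000d000c00090003000e00040002000a00090007000e000d) (nat_lit 0xb73020087031) (nat_lit 16) Lb.e (@T16.mk En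
    (@En.n l14489 (nat_lit 664) (nat_lit 11) (nat_lit 13))
    (@En.n l9455 (nat_lit 3329) (nat_lit 1) (nat_lit 14))
    (@En.n l4281 (nat_lit 3708) (nat_lit 2) (nat_lit 7))
    (@En.i (nat_lit 3805) (nat_lit 14) (nat_lit 9))
    (@En.n l614 (nat_lit 7672) (nat_lit 4) (nat_lit 10))
    (@En.n l11 (nat_lit 3908) (nat_lit 5) (nat_lit 2))
    (@En.n l117 (nat_lit 3898) (nat_lit 6) (nat_lit 4))
    (@En.n l14490 (nat_lit 641) (nat_lit 8) (nat_lit 14))
    (@En.n l936 (nat_lit 3909) (nat_lit 8) (nat_lit 3))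
    (@En.i (nat_lit 3722) (nat_lit 10) (nat_lit 9))
    (@En.n l936 (nat_lit 3907) (nat_lit 11) (nat_lit 12))
    (@En.n l1132 (nat_lit 3534) (nat_lit 12) (nat_lit 13))
    (@En.n l17 (nat_lit 4799) (nat_lit 13) (nat_lit 7))
    (@En.n l9455 (nat_lit 664) (nat_lit 7) (nat_lit 3))
    (@En.n l699 (nat_lit 301) (nat_lit 0) (nat_lit 6))
    (@En.n l50 (nat_lit 3908) (nat_lit 15) (nat_lit 2))))
  (@Cl.mk (nat_lit 0x2000600030007000d0008000d0003000e00030002000a00090008000e000d) (nat_lit 0xa02030081231) (nat_lit 16) Lb.e (@T16.mk En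
    (@En.n l6635 (nat_lit 665) (nat_lit 11) (nat_lit 13))
    (@En.n l6636 (nat_lit 3327) (nat_lit 12) (nat_lit 14))
    (@En.n l9493 (nat_lit 3716) (nat_lit 2) (nat_lit 8))
    (@En.i (nat_lit 3800) (nat_lit 14) (nat_lit 9))
    (@En.n l698 (nat_lit 7093) (nat_lit 4) (nat_lit 10))
    (@En.n l11 (nat_lit 3909) (nat_lit 5) (nat_lit 2))
    (@En.n l117 (nat_lit 3907) (nat_lit 6) (nat_lit 3))
    (@En.n l698 (nat_lit 13813) (nat_lit 0) (nat_lit 14))
    (@En.n l2576 (nat_lit 3908) (nat_lit 8) (nat_lit 3))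
    (@En.i (nat_lit 3911) (nat_lit 10) (nat_lit 13))
    (@En.i (nat_lit 3914) (nat_lit 11) (nat_lit 8))
    (@En.i (nat_lit 7209) (nat_lit 12) (nat_lit 13))
    (@En.n l17 (nat_lit 4798) (nat_lit 13) (nat_lit 7))
    (@En.n l6636 (nat_lit 665) (nat_lit 7) (nat_lit 3))
    (@En.n l699 (nat_lit 1159) (nat_lit 0) (nat_lit 6))
    (@En.n l50 (nat_lit 3909) (nat_lit 15) (nat_lit 2))))
  (@Cl.mk (nat_lit 0x2000600030007000e000c0002000d000b00040003000a00090005000e000d) (nat_lit 0xca0110087011) (nat_lit 16) Lb.e (@T16.mk En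
    (@En.n l396 (nat_lit 3088) (nat_lit 7) (nat_lit 13))
    (@En.n l889 (nat_lit 853) (nat_lit 1) (nat_lit 14))
    (@En.i (nat_lit 1369) (nat_lit 2) (nat_lit 5))
    (@En.i (nat_lit 3808) (nat_lit 3) (nat_lit 9))
    (@En.n l287 (nat_lit 7671) (nat_lit 4) (nat_lit 10))
    (@En.n l11 (nat_lit 3911) (nat_lit 5) (nat_lit 3))
    (@En.i (nat_lit 3908) (nat_lit 6) (nat_lit 4))
    (@En.n l55 (nat_lit 3268) (nat_lit 8) (nat_lit 11))
    (@En.n l2233 (nat_lit 569) (nat_lit 9) (nat_lit 13))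
    (@En.n l3 (nat_lit 3910) (nat_lit 9) (nat_lit 2))
    (@En.i (nat_lit 3898) (nat_lit 11) (nat_lit 12))
    (@En.i (nat_lit 7348) (nat_lit 12) (nat_lit 14))
    (@En.n l17 (nat_lit 4745) (nat_lit 13) (nat_lit 7))
    (@En.i (nat_lit 3088) (nat_lit 3) (nat_lit 3))
    (@En.n l699 (nat_lit 298) (nat_lit 0) (nat_lit 6))
    (@En.n l50 (nat_lit 3910) (nat_lit 15) (nat_lit 2))))
  (@Cl.mk (nat_lit 0x2000600030007000e000d0002000d0003000c0003000a00090004000e000d) (nat_lit 0xb10205087011) (nat_lit 16) Lb.e (@T16.mk En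
    (@En.n l396 (nat_lit 3086) (nat_lit 7) (nat_lit 13))
    (@En.n l889 (nat_lit 854) (nat_lit 1) (nat_lit 14))
    (@En.i (nat_lit 3773) (nat_lit 2) (nat_lit 4))
    (@En.i (nat_lit 3811) (nat_lit 3) (nat_lit 9))
    (@En.n l698 (nat_lit 7061) (nat_lit 11) (nat_lit 10))
    (@En.i (nat_lit 3910) (nat_lit 5) (nat_lit 3))
    (@En.i (nat_lit 5318) (nat_lit 7) (nat_lit 12))
    (@En.n l117 (nat_lit 3087) (nat_lit 7) (nat_lit 3))
    (@En.n l698 (nat_lit 640) (nat_lit 9) (nat_lit 13))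
    (@En.n l3 (nat_lit 3911) (nat_lit 9) (nat_lit 2))
    (@En.i (nat_lit 3087) (nat_lit 11) (nat_lit 13))
    (@En.i (nat_lit 7323) (nat_lit 12) (nat_lit 14))
    (@En.n l17 (nat_lit 4744) (nat_lit 13) (nat_lit 7))
    (@En.i (nat_lit 3086) (nat_lit 3) (nat_lit 3))
    (@En.n l699 (nat_lit 1069) (nat_lit 0) (nat_lit 6))
    (@En.n l50 (nat_lit 3911) (nat_lit 15) (nat_lit 2))))
  (@Cl.mk (nat_lit 0x20007000300080008000d000d000a000300030009000800080006000e000d) (nat_lit 0x41123007660a1) (nat_lit 16) Lb.e (@T16.mk En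
    (@En.i (nat_lit 2081) (nat_lit 2) (nat_lit 13))
    (@En.n l3749 (nat_lit 5319) (nat_lit 1) (nat_lit 14))
    (@En.n l3219 (nat_lit 3898) (nat_lit 2) (nat_lit 6))
    (@En.n l15824 (nat_lit 3936) (nat_lit 3) (nat_lit 8))
    (@En.i (nat_lit 3686) (nat_lit 4) (nat_lit 8))
    (@En.n l15825 (nat_lit 11219) (nat_lit 5) (nat_lit 9))
    (@En.n l18 (nat_lit 3986) (nat_lit 6) (nat_lit 3))
    (@En.n l8171 (nat_lit 3914) (nat_lit 7) (nat_lit 3))
    (@En.n l6444 (nat_lit 3097) (nat_lit 9) (nat_lit 10))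
    (@En.n l15790 (nat_lit 3914) (nat_lit 10) (nat_lit 13))
    (@En.n l6446 (nat_lit 3011) (nat_lit 11) (nat_lit 13))
    (@En.n l4494 (nat_lit 3103) (nat_lit 8) (nat_lit 8))
    (@En.n l15826 (nat_lit 3987) (nat_lit 13) (nat_lit 8))
    (@En.n l117 (nat_lit 2081) (nat_lit 14) (nat_lit 3))
    (@En.i (nat_lit 4155) (nat_lit 0) (nat_lit 7))
    (@En.n l3 (nat_lit 3912) (nat_lit 15) (nat_lit 2))))
  (@Cl.mk (nat_lit 0x2000a000800080007000d000d00060003000300080008000d0009000e0003) (nat_lit 0x71201200046b290) (nat_lit 16) Lb.e (@T16.mk En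
    (@En.n l14384 (nat_lit 2081) (nat_lit 8) (nat_lit 3))
    (@En.i (nat_lit 13148) (nat_lit 0) (nat_lit 14))
    (@En.i (nat_lit 2078) (nat_lit 2) (nat_lit 9))
    (@En.n l28911 (nat_lit 3013) (nat_lit 12) (nat_lit 13))
    (@En.n l15806 (nat_lit 3973) (nat_lit 8) (nat_lit 8))
    (@En.n l22253 (nat_lit 4194) (nat_lit 5) (nat_lit 8))
    (@En.n l2261 (nat_lit 3914) (nat_lit 13) (nat_lit 3))
    (@En.n l152 (nat_lit 3972) (nat_lit 0) (nat_lit 3))
    (@En.n l1992 (nat_lit 3099) (nat_lit 0) (nat_lit 6))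
    (@En.n l619 (nat_lit 3972) (nat_lit 3) (nat_lit 13))
    (@En.n l12632 (nat_lit 2962) (nat_lit 11) (nat_lit 13))
    (@En.n l644 (nat_lit 664) (nat_lit 12) (nat_lit 7))
    (@En.n l77 (nat_lit 3935) (nat_lit 13) (nat_lit 8))
    (@En.n l8361 (nat_lit 3685) (nat_lit 14) (nat_lit 8))
    (@En.i (nat_lit 7932) (nat_lit 14) (nat_lit 10))
    (@En.n l17 (nat_lit 3913) (nat_lit 15) (nat_lit 2))))
  (@Cl.mk (nat_lit 0x20007000300080008000d0009000e000300020009000800080007000e000d) (nat_lit 0x46129006120a2) (nat_lit 16) Lb.e (@T16.mk En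
    (@En.n l6635 (nat_lit 3913) (nat_lit 10) (nat_lit 13))
    (@En.n l476 (nat_lit 5320) (nat_lit 11) (nat_lit 14))
    (@En.n l1769 (nat_lit 3908) (nat_lit 2) (nat_lit 7))
    (@En.n l14743 (nat_lit 3938) (nat_lit 3) (nat_lit 8))
    (@En.i (nat_lit 3684) (nat_lit 14) (nat_lit 8))
    (@En.n l14744 (nat_lit 11220) (nat_lit 5) (nat_lit 9))
    (@En.n l11 (nat_lit 3914) (nat_lit 6) (nat_lit 2))
    (@En.n l14741 (nat_lit 3912) (nat_lit 7) (nat_lit 3))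
    (@En.n l2038 (nat_lit 13149) (nat_lit 0) (nat_lit 14))
    (@En.n l14745 (nat_lit 3723) (nat_lit 10) (nat_lit 9))
    (@En.i (nat_lit 3015) (nat_lit 11) (nat_lit 13))
    (@En.n l14554 (nat_lit 3977) (nat_lit 12) (nat_lit 8))
    (@En.n l17 (nat_lit 3989) (nat_lit 13) (nat_lit 8))
    (@En.n l6636 (nat_lit 3913) (nat_lit 6) (nat_lit 3))
    (@En.n l699 (nat_lit 4158) (nat_lit 0) (nat_lit 7))
    (@En.n l50 (nat_lit 3914) (nat_lit 15) (nat_lit 2))))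
  (@Cl.mk (nat_lit 0x2000b0003000a000800080005000d000d00060003000300080008000e000d) (nat_lit 0x208060120005671) (nat_lit 16) Lb.e (@T16.mk En
    (@En.n l396 (nat_lit 2081) (nat_lit 11) (nat_lit 13))
    (@En.n l4316 (nat_lit 3007) (nat_lit 1) (nat_lit 14))
    (@En.n l16106 (nat_lit 3978) (nat_lit 8) (nat_lit 8))
    (@En.n l25659 (nat_lit 4195) (nat_lit 3) (nat_lit 8))
    (@En.n l152 (nat_lit 3986) (nat_lit 13) (nat_lit 3))
    (@En.n l6641 (nat_lit 3930) (nat_lit 0) (nat_lit 3))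
    (@En.n l97 (nat_lit 3096) (nat_lit 0) (nat_lit 6))
    (@En.n l25660 (nat_lit 3930) (nat_lit 3) (nat_lit 13))
    (@En.i (nat_lit 2961) (nat_lit 9) (nat_lit 13))
    (@En.n l12842 (nat_lit 3901) (nat_lit 9) (nat_lit 5))
    (@En.n l8390 (nat_lit 3932) (nat_lit 11) (nat_lit 8))
    (@En.i (nat_lit 3965) (nat_lit 12) (nat_lit 8))
    (@En.i (nat_lit 8113) (nat_lit 13) (nat_lit 10))
    (@En.i (nat_lit 2081) (nat_lit 7) (nat_lit 3))
    (@En.i (nat_lit 877) (nat_lit 0) (nat_lit 11))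
    (@En.n l50 (nat_lit 3915) (nat_lit 15) (nat_lit 2))))
  (@Cl.mk (nat_lit 0x2000600050004000d0009000d0003000e00030002000a0007000b000e000c) (nat_lit 0xa09030070214) (nat_lit 16) Lb.e (@T16.mk En
    (@En.n l2213 (nat_lit 3786) (nat_lit 11) (nat_lit 12))
    (@En.i (nat_lit 3602) (nat_lit 4) (nat_lit 14))
    (@En.n l3340 (nat_lit 2734) (nat_lit 2) (nat_lit 11))
    (@En.n l1353 (nat_lit 3905) (nat_lit 14) (nat_lit 7))
    (@En.i (nat_lit 4447) (nat_lit 4) (nat_lit 10))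
    (@En.n l50 (nat_lit 3916) (nat_lit 5) (nat_lit 2))
    (@En.n l564 (nat_lit 3592) (nat_lit 6) (nat_lit 3))
    (@En.i (nat_lit 13805) (nat_lit 0) (nat_lit 14))
    (@En.i (nat_lit 3640) (nat_lit 8) (nat_lit 3))
    (@En.i (nat_lit 4016) (nat_lit 10) (nat_lit 13))
    (@En.n l287 (nat_lit 3962) (nat_lit 11) (nat_lit 9))
    (@En.i (nat_lit 10742) (nat_lit 12) (nat_lit 13))
    (@En.n l2221 (nat_lit 3797) (nat_lit 6) (nat_lit 4))
    (@En.n l725 (nat_lit 3788) (nat_lit 14) (nat_lit 5))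
    (@En.n l3340 (nat_lit 4369) (nat_lit 8) (nat_lit 6))
    (@En.n l3 (nat_lit 3916) (nat_lit 15) (nat_lit 2))))
  (@Cl.mk (nat_lit 0x3000300090007000a000d0007000c00030007000600040009000d000d0009) (nat_lit 0x30500006000) (nat_lit 16) Lb.e (@T16.mk En
    (@En.n l7826 (nat_lit 6580) (nat_lit 0) (nat_lit 9))
    (@En.n l2593 (nat_lit 3918) (nat_lit 3) (nat_lit 13))
    (@En.n l4365 (nat_lit 10168) (nat_lit 11) (nat_lit 13))
    (@En.n l19479 (nat_lit 5512) (nat_lit 3) (nat_lit 9))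
    (@En.n l2832 (nat_lit 7020) (nat_lit 4) (nat_lit 4))
    (@En.n l17 (nat_lit 3920) (nat_lit 5) (nat_lit 6))
    (@En.n l1329 (nat_lit 3984) (nat_lit 6) (nat_lit 7))
    (@En.n l5385 (nat_lit 5518) (nat_lit 7) (nat_lit 3))
    (@En.i (nat_lit 3592) (nat_lit 0) (nat_lit 12))
    (@En.n l15182 (nat_lit 10209) (nat_lit 10) (nat_lit 7))
    (@En.n l7826 (nat_lit 5504) (nat_lit 5) (nat_lit 13))
    (@En.n l1329 (nat_lit 4152) (nat_lit 8) (nat_lit 10))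
    (@En.n l7826 (nat_lit 5562) (nat_lit 13) (nat_lit 7))
    (@En.n l34136 (nat_lit 9542) (nat_lit 5) (nat_lit 9))
    (@En.n l7828 (nat_lit 3924) (nat_lit 13) (nat_lit 3))
    (@En.n l1722 (nat_lit 3918) (nat_lit 0) (nat_lit 3))))
  (@Cl.mk (nat_lit 0x200090007000a000d0008000c00030007000600040009000d0008000e0003) (nat_lit 0x30500005b000) (nat_lit 16) Lb.e (@T16.mk En
    (@En.n l564 (nat_lit 3917) (nat_lit 15) (nat_lit 3))
    (@En.n l2031 (nat_lit 13623) (nat_lit 0) (nat_lit 14))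
    (@En.i (nat_lit 6541) (nat_lit 2) (nat_lit 8))
    (@En.n l5891 (nat_lit 10197) (nat_lit 11) (nat_lit 13))
    (@En.n l13351 (nat_lit 5510) (nat_lit 4) (nat_lit 9))
    (@En.n l2221 (nat_lit 7024) (nat_lit 5) (nat_lit 4))
    (@En.n l725 (nat_lit 3919) (nat_lit 6) (nat_lit 6))
    (@En.n l3340 (nat_lit 3983) (nat_lit 7) (nat_lit 7))
    (@En.n l3596 (nat_lit 5522) (nat_lit 8) (nat_lit 3))
    (@En.i (nat_lit 3916) (nat_lit 0) (nat_lit 12))
    (@En.n l3333 (nat_lit 10736) (nat_lit 11) (nat_lit 8))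
    (@En.n l2645 (nat_lit 5502) (nat_lit 5) (nat_lit 13))
    (@En.n l3340 (nat_lit 4167) (nat_lit 13) (nat_lit 10))
    (@En.n l1353 (nat_lit 5563) (nat_lit 14) (nat_lit 7))
    (@En.i (nat_lit 9544) (nat_lit 5) (nat_lit 9))
    (@En.n l50 (nat_lit 3918) (nat_lit 15) (nat_lit 2))))
  (@Cl.mk (nat_lit 0x2000d0007000a0003000d0009000d0003000600030009000d0007000e0003) (nat_lit 0x800040600040000) (nat_lit 16) Lb.e (@T16.mk En
    (@En.n l564 (nat_lit 3920) (nat_lit 15) (nat_lit 3))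
    (@En.n l2031 (nat_lit 13625) (nat_lit 0) (nat_lit 14))
    (@En.i (nat_lit 6539) (nat_lit 2) (nat_lit 7))
    (@En.n l5891 (nat_lit 9764) (nat_lit 12) (nat_lit 13))
    (@En.n l2037 (nat_lit 5554) (nat_lit 4) (nat_lit 9))
    (@En.n l2221 (nat_lit 7025) (nat_lit 5) (nat_lit 3))
    (@En.n l1643 (nat_lit 5923) (nat_lit 0) (nat_lit 6))
    (@En.n l3596 (nat_lit 5530) (nat_lit 7) (nat_lit 3))
    (@En.i (nat_lit 3788) (nat_lit 0) (nat_lit 13))
    (@En.n l5891 (nat_lit 10875) (nat_lit 10) (nat_lit 9))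
    (@En.i (nat_lit 3918) (nat_lit 11) (nat_lit 13))
    (@En.n l9807 (nat_lit 3921) (nat_lit 11) (nat_lit 3))
    (@En.i (nat_lit 5134) (nat_lit 0) (nat_lit 10))
    (@En.n l1353 (nat_lit 5537) (nat_lit 14) (nat_lit 7))
    (@En.i (nat_lit 10549) (nat_lit 2) (nat_lit 13))
    (@En.n l50 (nat_lit 3919) (nat_lit 15) (nat_lit 2))))
noncomputable def a245 : T16 Cl := @T16.mk Cl
  (@Cl.mk (nat_lit 0x30003000d0007000a0003000d0008000d0003000600030009000d000d0008) (nat_lit 0x80004520004612) (nat_lit 16) Lb.e (@T16.mk En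
    (@En.i (nat_lit 6579) (nat_lit 0) (nat_lit 8))
    (@En.n l2593 (nat_lit 3919) (nat_lit 3) (nat_lit 13))
    (@En.n l4365 (nat_lit 10162) (nat_lit 12) (nat_lit 13))
    (@En.n l21137 (nat_lit 3928) (nat_lit 3) (nat_lit 9))
    (@En.n l2832 (nat_lit 3927) (nat_lit 4) (nat_lit 3))
    (@En.n l513 (nat_lit 5920) (nat_lit 0) (nat_lit 6))
    (@En.n l5385 (nat_lit 3926) (nat_lit 6) (nat_lit 3))
    (@En.i (nat_lit 3839) (nat_lit 0) (nat_lit 13))
    (@En.n l4130 (nat_lit 10250) (nat_lit 3) (nat_lit 8))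
    (@En.i (nat_lit 3917) (nat_lit 10) (nat_lit 13))
    (@En.n l11416 (nat_lit 3922) (nat_lit 10) (nat_lit 3))
    (@En.i (nat_lit 5135) (nat_lit 0) (nat_lit 10))
    (@En.n l14060 (nat_lit 5534) (nat_lit 13) (nat_lit 7))
    (@En.i (nat_lit 10546) (nat_lit 7) (nat_lit 13))
    (@En.n l1501 (nat_lit 3923) (nat_lit 13) (nat_lit 3))
    (@En.n l1722 (nat_lit 3919) (nat_lit 0) (nat_lit 3))))
  (@Cl.mk (nat_lit 0x2000d000900080003000d0009000d0003000700030008000d0007000e0003) (nat_lit 0x812040600010000) (nat_lit 16) Lb.e (@T16.mk En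
    (@En.n l25304 (nat_lit 3922) (nat_lit 15) (nat_lit 3))
    (@En.n l4484 (nat_lit 13634) (nat_lit 0) (nat_lit 14))
    (@En.i (nat_lit 6537) (nat_lit 2) (nat_lit 7))
    (@En.n l15989 (nat_lit 10198) (nat_lit 12) (nat_lit 13))
    (@En.n l25677 (nat_lit 2963) (nat_lit 4) (nat_lit 8))
    (@En.n l1393 (nat_lit 7026) (nat_lit 5) (nat_lit 3))
    (@En.n l13306 (nat_lit 6257) (nat_lit 0) (nat_lit 7))
    (@En.n l15990 (nat_lit 5529) (nat_lit 7) (nat_lit 3))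
    (@En.i (nat_lit 3787) (nat_lit 0) (nat_lit 13))
    (@En.n l4961 (nat_lit 10877) (nat_lit 10) (nat_lit 9))
    (@En.n l29165 (nat_lit 5506) (nat_lit 11) (nat_lit 13))
    (@En.n l13304 (nat_lit 3919) (nat_lit 11) (nat_lit 3))
    (@En.n l2054 (nat_lit 5648) (nat_lit 0) (nat_lit 8))
    (@En.n l2225 (nat_lit 3918) (nat_lit 14) (nat_lit 9))
    (@En.i (nat_lit 10368) (nat_lit 2) (nat_lit 13))
    (@En.n l17 (nat_lit 3921) (nat_lit 15) (nat_lit 2))))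
  (@Cl.mk (nat_lit 0x30003000d000900080003000d0008000d0003000700030008000d000d0008) (nat_lit 0x81204060001010) (nat_lit 16) Lb.e (@T16.mk En
    (@En.n l97 (nat_lit 6577) (nat_lit 0) (nat_lit 8))
    (@En.n l40426 (nat_lit 3921) (nat_lit 3) (nat_lit 13))
    (@En.n l40427 (nat_lit 10167) (nat_lit 12) (nat_lit 13))
    (@En.n l17 (nat_lit 2956) (nat_lit 3) (nat_lit 8))
    (@En.n l6657 (nat_lit 3929) (nat_lit 4) (nat_lit 3))
    (@En.n l12400 (nat_lit 6258) (nat_lit 0) (nat_lit 7))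
    (@En.n l40428 (nat_lit 5527) (nat_lit 6) (nat_lit 3))
    (@En.n l11575 (nat_lit 3789) (nat_lit 0) (nat_lit 13))
    (@En.n l6653 (nat_lit 10253) (nat_lit 3) (nat_lit 8))
    (@En.n l40429 (nat_lit 3252) (nat_lit 10) (nat_lit 13))
    (@En.n l40430 (nat_lit 3920) (nat_lit 10) (nat_lit 3))
    (@En.i (nat_lit 3630) (nat_lit 0) (nat_lit 8))
    (@En.n l16293 (nat_lit 3917) (nat_lit 13) (nat_lit 9))
    (@En.n l2440 (nat_lit 10551) (nat_lit 2) (nat_lit 13))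
    (@En.n l152 (nat_lit 3925) (nat_lit 13) (nat_lit 3))
    (@En.n l40431 (nat_lit 3921) (nat_lit 0) (nat_lit 3))))
  (@Cl.mk (nat_lit 0x200090003000d0007000a0003000d0007000d0003000600030009000e000d) (nat_lit 0x7000004000407) (nat_lit 16) Lb.e (@T16.mk En
    (@En.n l14503 (nat_lit 3920) (nat_lit 2) (nat_lit 13))
    (@En.i (nat_lit 10235) (nat_lit 1) (nat_lit 14))
    (@En.n l2487 (nat_lit 5555) (nat_lit 2) (nat_lit 9))
    (@En.n l11376 (nat_lit 7108) (nat_lit 3) (nat_lit 3))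
    (@En.n l167 (nat_lit 5921) (nat_lit 4) (nat_lit 6))
    (@En.n l339 (nat_lit 5526) (nat_lit 5) (nat_lit 3))
    (@En.n l170 (nat_lit 3837) (nat_lit 0) (nat_lit 13))
    (@En.n l803 (nat_lit 10246) (nat_lit 7) (nat_lit 7))
    (@En.n l11762 (nat_lit 3924) (nat_lit 9) (nat_lit 13))
    (@En.n l2446 (nat_lit 3925) (nat_lit 9) (nat_lit 3))
    (@En.n l167 (nat_lit 5136) (nat_lit 11) (nat_lit 10))
    (@En.n l1373 (nat_lit 5539) (nat_lit 12) (nat_lit 7))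
    (@En.n l4305 (nat_lit 11004) (nat_lit 13) (nat_lit 13))
    (@En.n l4073 (nat_lit 3920) (nat_lit 14) (nat_lit 3))
    (@En.n l4306 (nat_lit 6642) (nat_lit 0) (nat_lit 9))
    (@En.n l3 (nat_lit 3923) (nat_lit 15) (nat_lit 2))))
  (@Cl.mk (nat_lit 0x2000a000300090007000a000d0006000c00030007000600040009000e000d) (nat_lit 0xb010000501) (nat_lit 16) Lb.e (@T16.mk En
    (@En.n l16784 (nat_lit 3917) (nat_lit 2) (nat_lit 13))
    (@En.n l5577 (nat_lit 10238) (nat_lit 1) (nat_lit 14))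
    (@En.n l617 (nat_lit 5513) (nat_lit 2) (nat_lit 9))
    (@En.n l3480 (nat_lit 7022) (nat_lit 3) (nat_lit 4))
    (@En.n l25453 (nat_lit 3923) (nat_lit 4) (nat_lit 6))
    (@En.n l31423 (nat_lit 5428) (nat_lit 5) (nat_lit 7))
    (@En.n l6081 (nat_lit 5519) (nat_lit 6) (nat_lit 3))
    (@En.n l15068 (nat_lit 3586) (nat_lit 8) (nat_lit 12))
    (@En.n l16787 (nat_lit 10206) (nat_lit 8) (nat_lit 6))
    (@En.i (nat_lit 5667) (nat_lit 5) (nat_lit 13))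
    (@En.n l2520 (nat_lit 4153) (nat_lit 11) (nat_lit 10))
    (@En.i (nat_lit 5564) (nat_lit 12) (nat_lit 7))
    (@En.n l28475 (nat_lit 7799) (nat_lit 13) (nat_lit 9))
    (@En.n l18834 (nat_lit 3917) (nat_lit 14) (nat_lit 3))
    (@En.i (nat_lit 6561) (nat_lit 0) (nat_lit 10))
    (@En.n l28 (nat_lit 3924) (nat_lit 15) (nat_lit 2))))
  (@Cl.mk (nat_lit 0x200090003000d000900080003000d0007000d0003000700030008000e000d) (nat_lit 0x7120403000401) (nat_lit 16) Lb.e (@T16.mk En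
    (@En.i (nat_lit 3922) (nat_lit 2) (nat_lit 13))
    (@En.n l26937 (nat_lit 10234) (nat_lit 1) (nat_lit 14))
    (@En.n l17 (nat_lit 2960) (nat_lit 2) (nat_lit 8))
    (@En.n l5567 (nat_lit 7109) (nat_lit 3) (nat_lit 3))
    (@En.n l18799 (nat_lit 6260) (nat_lit 0) (nat_lit 7))
    (@En.n l26938 (nat_lit 5528) (nat_lit 5) (nat_lit 3))
    (@En.i (nat_lit 3838) (nat_lit 7) (nat_lit 13))
    (@En.n l683 (nat_lit 10248) (nat_lit 7) (nat_lit 7))
    (@En.n l11577 (nat_lit 5666) (nat_lit 9) (nat_lit 13))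
    (@En.n l26937 (nat_lit 3923) (nat_lit 9) (nat_lit 3))
    (@En.i (nat_lit 5649) (nat_lit 11) (nat_lit 8))
    (@En.n l18797 (nat_lit 3924) (nat_lit 12) (nat_lit 9))
    (@En.n l1395 (nat_lit 9034) (nat_lit 13) (nat_lit 13))
    (@En.n l117 (nat_lit 3922) (nat_lit 14) (nat_lit 3))
    (@En.i (nat_lit 6912) (nat_lit 0) (nat_lit 9))
    (@En.n l3 (nat_lit 3925) (nat_lit 15) (nat_lit 2))))
  (@Cl.mk (nat_lit 0x30003000d0007000a0003000d000c00090003000600040009000d000d0007) (nat_lit 0xa0002a00003000) (nat_lit 16) Lb.e (@T16.mk En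
    (@En.i (nat_lit 5171) (nat_lit 0) (nat_lit 7))
    (@En.n l77 (nat_lit 5530) (nat_lit 3) (nat_lit 13))
    (@En.i (nat_lit 10164) (nat_lit 12) (nat_lit 13))
    (@En.n l899 (nat_lit 5523) (nat_lit 3) (nat_lit 9))
    (@En.n l345 (nat_lit 7035) (nat_lit 4) (nat_lit 4))
    (@En.i (nat_lit 4075) (nat_lit 12) (nat_lit 6))
    (@En.n l1798 (nat_lit 3920) (nat_lit 6) (nat_lit 3))
    (@En.n l97 (nat_lit 8166) (nat_lit 0) (nat_lit 9))
    (@En.n l1236 (nat_lit 3927) (nat_lit 9) (nat_lit 12))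
    (@En.i (nat_lit 5518) (nat_lit 10) (nat_lit 13))
    (@En.i (nat_lit 5527) (nat_lit 10) (nat_lit 3))
    (@En.n l1792 (nat_lit 4148) (nat_lit 0) (nat_lit 10))
    (@En.i (nat_lit 5531) (nat_lit 13) (nat_lit 7))
    (@En.i (nat_lit 11765) (nat_lit 7) (nat_lit 13))
    (@En.n l142 (nat_lit 5526) (nat_lit 13) (nat_lit 3))
    (@En.n l28 (nat_lit 5530) (nat_lit 0) (nat_lit 3))))
  (@Cl.mk (nat_lit 0x30003000d0007000b0003000c0008000d0005000400030009000d000d0008) (nat_lit 0x90109020005670) (nat_lit 16) Lb.e (@T16.mk En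
    (@En.i (nat_lit 6578) (nat_lit 0) (nat_lit 8))
    (@En.n l619 (nat_lit 7025) (nat_lit 3) (nat_lit 13))
    (@En.i (nat_lit 10161) (nat_lit 6) (nat_lit 13))
    (@En.i (nat_lit 7115) (nat_lit 3) (nat_lit 9))
    (@En.n l3519 (nat_lit 3920) (nat_lit 4) (nat_lit 3))
    (@En.n l18 (nat_lit 7030) (nat_lit 0) (nat_lit 4))
    (@En.i (nat_lit 3928) (nat_lit 6) (nat_lit 5))
    (@En.i (nat_lit 3719) (nat_lit 1) (nat_lit 13))
    (@En.n l61 (nat_lit 10251) (nat_lit 3) (nat_lit 8))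
    (@En.i (nat_lit 7020) (nat_lit 10) (nat_lit 12))
    (@En.i (nat_lit 3929) (nat_lit 10) (nat_lit 3))
    (@En.i (nat_lit 3053) (nat_lit 0) (nat_lit 11))
    (@En.i (nat_lit 5538) (nat_lit 13) (nat_lit 7))
    (@En.i (nat_lit 10542) (nat_lit 2) (nat_lit 13))
    (@En.n l1483 (nat_lit 7108) (nat_lit 13) (nat_lit 3))
    (@En.n l152 (nat_lit 7025) (nat_lit 0) (nat_lit 3))))
  (@Cl.mk (nat_lit 0x30003000c0007000b000a0004000d00090005000300060009000d000d0007) (nat_lit 0x50510400003460) (nat_lit 16) Lb.e (@T16.mk En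
    (@En.i (nat_lit 6581) (nat_lit 0) (nat_lit 7))
    (@En.n l9879 (nat_lit 5554) (nat_lit 3) (nat_lit 13))
    (@En.i (nat_lit 4326) (nat_lit 13) (nat_lit 13))
    (@En.n l22467 (nat_lit 4755) (nat_lit 9) (nat_lit 9))
    (@En.n l9877 (nat_lit 5922) (nat_lit 12) (nat_lit 6))
    (@En.n l21425 (nat_lit 5523) (nat_lit 5) (nat_lit 3))
    (@En.i (nat_lit 7013) (nat_lit 0) (nat_lit 5))
    (@En.n l61 (nat_lit 8715) (nat_lit 8) (nat_lit 9))
    (@En.n l37007 (nat_lit 5512) (nat_lit 9) (nat_lit 13))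
    (@En.n l11361 (nat_lit 2956) (nat_lit 9) (nat_lit 4))
    (@En.n l11245 (nat_lit 3920) (nat_lit 11) (nat_lit 10))
    (@En.n l11361 (nat_lit 4203) (nat_lit 12) (nat_lit 11))
    (@En.n l37008 (nat_lit 5556) (nat_lit 13) (nat_lit 7))
    (@En.i (nat_lit 11945) (nat_lit 8) (nat_lit 12))
    (@En.n l1154 (nat_lit 5555) (nat_lit 13) (nat_lit 3))
    (@En.n l9876 (nat_lit 5554) (nat_lit 0) (nat_lit 3))))
  (@Cl.mk (nat_lit 0x30003000d000a00080003000c0008000d0006000400030008000d000d0008) (nat_lit 0x98209550002502) (nat_lit 16) Lb.e (@T16.mk En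
    (@En.n l23711 (nat_lit 6528) (nat_lit 0) (nat_lit 8))
    (@En.n l619 (nat_lit 7026) (nat_lit 3) (nat_lit 13))
    (@En.i (nat_lit 9399) (nat_lit 2) (nat_lit 13))
    (@En.n l15535 (nat_lit 4587) (nat_lit 3) (nat_lit 8))
    (@En.n l14389 (nat_lit 3922) (nat_lit 4) (nat_lit 3))
    (@En.n l18 (nat_lit 7029) (nat_lit 0) (nat_lit 4))
    (@En.n l24683 (nat_lit 5337) (nat_lit 6) (nat_lit 6))
    (@En.i (nat_lit 3785) (nat_lit 1) (nat_lit 13))
    (@En.n l61 (nat_lit 10252) (nat_lit 3) (nat_lit 8))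
    (@En.n l42163 (nat_lit 5626) (nat_lit 10) (nat_lit 12))
    (@En.n l7 (nat_lit 3927) (nat_lit 10) (nat_lit 3))
    (@En.n l14384 (nat_lit 4667) (nat_lit 0) (nat_lit 8))
    (@En.i (nat_lit 7015) (nat_lit 13) (nat_lit 10))
    (@En.i (nat_lit 10545) (nat_lit 2) (nat_lit 13))
    (@En.n l41495 (nat_lit 7109) (nat_lit 13) (nat_lit 3))
    (@En.n l152 (nat_lit 7026) (nat_lit 0) (nat_lit 3))))
  (@Cl.mk (nat_lit 0x200080008000e000d0002000b0003000b000800080005000d0005000e0003) (nat_lit 0x26a102070601030) (nat_lit 16) Lb.e (@T16.mk En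
    (@En.n l9454 (nat_lit 3915) (nat_lit 5) (nat_lit 3))
    (@En.n l1724 (nat_lit 12785) (nat_lit 0) (nat_lit 14))
    (@En.n l4446 (nat_lit 2072) (nat_lit 2) (nat_lit 5))
    (@En.i (nat_lit 2954) (nat_lit 9) (nat_lit 13))
    (@En.n l61 (nat_lit 3905) (nat_lit 4) (nat_lit 5))
    (@En.n l12569 (nat_lit 3933) (nat_lit 11) (nat_lit 8))
    (@En.n l9411 (nat_lit 3964) (nat_lit 6) (nat_lit 8))
    (@En.i (nat_lit 8070) (nat_lit 8) (nat_lit 11))
    (@En.n l12871 (nat_lit 2080) (nat_lit 8) (nat_lit 3))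
    (@En.n l17226 (nat_lit 3104) (nat_lit 10) (nat_lit 11))
    (@En.n l3 (nat_lit 3930) (nat_lit 10) (nat_lit 2))
    (@En.n l6108 (nat_lit 2080) (nat_lit 12) (nat_lit 13))
    (@En.n l2789 (nat_lit 3009) (nat_lit 13) (nat_lit 14))
    (@En.i (nat_lit 3979) (nat_lit 8) (nat_lit 8))
    (@En.n l17227 (nat_lit 2360) (nat_lit 3) (nat_lit 8))
    (@En.n l50 (nat_lit 3930) (nat_lit 15) (nat_lit 2))))
  (@Cl.mk (nat_lit 0x2000d000d000b00030003000c00080005000d0004000e00030002000e0008) (nat_lit 0x8a2009501040081) (nat_lit 16) Lb.e (@T16.mk En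
    (@En.n l4973 (nat_lit 2080) (nat_lit 14) (nat_lit 8))
    (@En.n l3423 (nat_lit 6132) (nat_lit 1) (nat_lit 14))
    (@En.n l17 (nat_lit 3931) (nat_lit 2) (nat_lit 2))
    (@En.n l25798 (nat_lit 3934) (nat_lit 3) (nat_lit 3))
    (@En.i (nat_lit 12788) (nat_lit 0) (nat_lit 14))
    (@En.n l8936 (nat_lit 3940) (nat_lit 5) (nat_lit 4))
    (@En.n l4973 (nat_lit 2957) (nat_lit 7) (nat_lit 13))
    (@En.i (nat_lit 2678) (nat_lit 7) (nat_lit 5))
    (@En.n l480 (nat_lit 3878) (nat_lit 5) (nat_lit 8))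
    (@En.n l6370 (nat_lit 7923) (nat_lit 10) (nat_lit 12))
    (@En.n l12117 (nat_lit 3933) (nat_lit 13) (nat_lit 3))
    (@En.n l1393 (nat_lit 3937) (nat_lit 0) (nat_lit 3))
    (@En.n l457 (nat_lit 3944) (nat_lit 0) (nat_lit 11))
    (@En.n l5987 (nat_lit 3937) (nat_lit 3) (nat_lit 13))
    (@En.n l107 (nat_lit 4503) (nat_lit 12) (nat_lit 13))
    (@En.n l3 (nat_lit 3931) (nat_lit 15) (nat_lit 2))))
  (@Cl.mk (nat_lit 0x2000c0003000b00080004000d000d000500030003000e00080002000e000d) (nat_lit 0x408500000086099) (nat_lit 16) Lb.e (@T16.mk En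
    (@En.i (nat_lit 3934) (nat_lit 14) (nat_lit 13))
    (@En.i (nat_lit 6412) (nat_lit 1) (nat_lit 14))
    (@En.n l17 (nat_lit 3932) (nat_lit 2) (nat_lit 2))
    (@En.n l2900 (nat_lit 3915) (nat_lit 3) (nat_lit 8))
    (@En.n l3786 (nat_lit 6137) (nat_lit 1) (nat_lit 14))
    (@En.n l5361 (nat_lit 3939) (nat_lit 13) (nat_lit 3))
    (@En.i (nat_lit 3933) (nat_lit 6) (nat_lit 3))
    (@En.n l77 (nat_lit 4506) (nat_lit 0) (nat_lit 5))
    (@En.n l601 (nat_lit 3933) (nat_lit 9) (nat_lit 13))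
    (@En.n l28 (nat_lit 4515) (nat_lit 10) (nat_lit 13))
    (@En.n l688 (nat_lit 3697) (nat_lit 10) (nat_lit 4))
    (@En.n l2900 (nat_lit 3877) (nat_lit 12) (nat_lit 8))
    (@En.i (nat_lit 12564) (nat_lit 13) (nat_lit 11))
    (@En.n l117 (nat_lit 3934) (nat_lit 10) (nat_lit 3))
    (@En.i (nat_lit 872) (nat_lit 12) (nat_lit 12))
    (@En.n l3 (nat_lit 3932) (nat_lit 15) (nat_lit 2))))
  (@Cl.mk (nat_lit 0x2000c0003000c00080004000d0004000e00030002000e00080002000e000d) (nat_lit 0x40950b040083099) (nat_lit 16) Lb.e (@T16.mk En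
    (@En.n l1422 (nat_lit 3931) (nat_lit 14) (nat_lit 13))
    (@En.i (nat_lit 6411) (nat_lit 1) (nat_lit 14))
    (@En.n l17 (nat_lit 3933) (nat_lit 2) (nat_lit 2))
    (@En.n l4798 (nat_lit 3930) (nat_lit 14) (nat_lit 8))
    (@En.n l5 (nat_lit 6135) (nat_lit 1) (nat_lit 14))
    (@En.n l50 (nat_lit 3933) (nat_lit 5) (nat_lit 2))
    (@En.n l7 (nat_lit 3932) (nat_lit 6) (nat_lit 3))
    (@En.n l685 (nat_lit 12863) (nat_lit 0) (nat_lit 14))
    (@En.n l28 (nat_lit 3941) (nat_lit 8) (nat_lit 4))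
    (@En.i (nat_lit 5401) (nat_lit 10) (nat_lit 13))
    (@En.n l685 (nat_lit 3698) (nat_lit 10) (nat_lit 4))
    (@En.i (nat_lit 3876) (nat_lit 12) (nat_lit 8))
    (@En.i (nat_lit 12613) (nat_lit 13) (nat_lit 12))
    (@En.n l7833 (nat_lit 3931) (nat_lit 10) (nat_lit 3))
    (@En.n l278 (nat_lit 874) (nat_lit 12) (nat_lit 12))
    (@En.n l3 (nat_lit 3933) (nat_lit 15) (nat_lit 2))))
  (@Cl.mk (nat_lit 0x2000d000d000b00030003000b00080005000d000d000500030003000e0008) (nat_lit 0x8a2007500200081) (nat_lit 16) Lb.e (@T16.mk En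
    (@En.n l12788 (nat_lit 2081) (nat_lit 13) (nat_lit 8))
    (@En.n l3786 (nat_lit 6134) (nat_lit 1) (nat_lit 14))
    (@En.n l3787 (nat_lit 3936) (nat_lit 13) (nat_lit 3))
    (@En.n l1422 (nat_lit 3931) (nat_lit 3) (nat_lit 3))
    (@En.n l77 (nat_lit 4505) (nat_lit 0) (nat_lit 5))
    (@En.n l25658 (nat_lit 3931) (nat_lit 6) (nat_lit 13))
    (@En.n l15947 (nat_lit 4513) (nat_lit 7) (nat_lit 13))
    (@En.n l13032 (nat_lit 2679) (nat_lit 7) (nat_lit 5))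
    (@En.n l12788 (nat_lit 3875) (nat_lit 13) (nat_lit 8))
    (@En.i (nat_lit 7927) (nat_lit 10) (nat_lit 11))
    (@En.n l152 (nat_lit 3932) (nat_lit 13) (nat_lit 3))
    (@En.n l16160 (nat_lit 3935) (nat_lit 0) (nat_lit 3))
    (@En.n l6491 (nat_lit 3943) (nat_lit 0) (nat_lit 11))
    (@En.n l15945 (nat_lit 3935) (nat_lit 3) (nat_lit 13))
    (@En.i (nat_lit 4497) (nat_lit 11) (nat_lit 13))
    (@En.n l17 (nat_lit 3934) (nat_lit 15) (nat_lit 2))))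
  (@Cl.mk (nat_lit 0x2000b00080006000d000d000500030003000e00080002000d000a000e0003) (nat_lit 0x7100000085092a0) (nat_lit 16) Lb.e (@T16.mk En
    (@En.n l22901 (nat_lit 3934) (nat_lit 11) (nat_lit 3))
    (@En.i (nat_lit 13207) (nat_lit 0) (nat_lit 14))
    (@En.n l4476 (nat_lit 4659) (nat_lit 2) (nat_lit 10))
    (@En.n l396 (nat_lit 4500) (nat_lit 11) (nat_lit 13))
    (@En.n l7 (nat_lit 3935) (nat_lit 4) (nat_lit 2))
    (@En.i (nat_lit 3913) (nat_lit 5) (nat_lit 8))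
    (@En.n l3528 (nat_lit 6133) (nat_lit 1) (nat_lit 14))
    (@En.n l35539 (nat_lit 3938) (nat_lit 13) (nat_lit 3))
    (@En.n l152 (nat_lit 3937) (nat_lit 8) (nat_lit 3))
    (@En.n l35540 (nat_lit 4504) (nat_lit 0) (nat_lit 5))
    (@En.n l619 (nat_lit 3937) (nat_lit 11) (nat_lit 13))
    (@En.i (nat_lit 4514) (nat_lit 12) (nat_lit 13))
    (@En.n l4476 (nat_lit 2677) (nat_lit 13) (nat_lit 6))
    (@En.n l15811 (nat_lit 3881) (nat_lit 14) (nat_lit 8))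
    (@En.i (nat_lit 7926) (nat_lit 10) (nat_lit 11))
    (@En.n l17 (nat_lit 3935) (nat_lit 15) (nat_lit 2))))
noncomputable def a246 : T16 Cl := @T16.mk Cl
  (@Cl.mk (nat_lit 0x200060003000e00080002000d000d000b00030003000a00080005000e000d) (nat_lit 0x5508a20065081) (nat_lit 16) Lb.e (@T16.mk En
    (@En.n l644 (nat_lit 3934) (nat_lit 6) (nat_lit 13))
    (@En.n l3528 (nat_lit 5322) (nat_lit 1) (nat_lit 14))
    (@En.n l4477 (nat_lit 4084) (nat_lit 2) (nat_lit 5))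
    (@En.n l4476 (nat_lit 3880) (nat_lit 3) (nat_lit 8))
    (@En.n l4477 (nat_lit 11221) (nat_lit 4) (nat_lit 10))
    (@En.n l4478 (nat_lit 3939) (nat_lit 5) (nat_lit 3))
    (@En.i (nat_lit 3938) (nat_lit 6) (nat_lit 3))
    (@En.n l4314 (nat_lit 3945) (nat_lit 8) (nat_lit 11))
    (@En.n l97 (nat_lit 3938) (nat_lit 9) (nat_lit 13))
    (@En.i (nat_lit 4498) (nat_lit 10) (nat_lit 13))
    (@En.n l17 (nat_lit 3936) (nat_lit 10) (nat_lit 2))
    (@En.n l4476 (nat_lit 3912) (nat_lit 12) (nat_lit 8))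
    (@En.i (nat_lit 5838) (nat_lit 1) (nat_lit 14))
    (@En.n l7 (nat_lit 3934) (nat_lit 2) (nat_lit 3))
    (@En.n l3230 (nat_lit 4150) (nat_lit 3) (nat_lit 6))
    (@En.n l7 (nat_lit 3936) (nat_lit 15) (nat_lit 2))))
  (@Cl.mk (nat_lit 0x2000c00080006000d0004000e00030002000e00080002000d000a000e0003) (nat_lit 0x910b040006092a0) (nat_lit 16) Lb.e (@T16.mk En
    (@En.n l4019 (nat_lit 3931) (nat_lit 11) (nat_lit 3))
    (@En.i (nat_lit 13211) (nat_lit 0) (nat_lit 14))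
    (@En.n l1347 (nat_lit 4658) (nat_lit 14) (nat_lit 10))
    (@En.n l564 (nat_lit 6244) (nat_lit 12) (nat_lit 13))
    (@En.n l7 (nat_lit 3937) (nat_lit 4) (nat_lit 2))
    (@En.i (nat_lit 3972) (nat_lit 14) (nat_lit 8))
    (@En.n l1347 (nat_lit 6131) (nat_lit 1) (nat_lit 14))
    (@En.n l11 (nat_lit 3937) (nat_lit 7) (nat_lit 2))
    (@En.n l117 (nat_lit 3935) (nat_lit 8) (nat_lit 3))
    (@En.n l1347 (nat_lit 12862) (nat_lit 0) (nat_lit 14))
    (@En.n l1347 (nat_lit 3942) (nat_lit 10) (nat_lit 4))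
    (@En.i (nat_lit 5400) (nat_lit 7) (nat_lit 13))
    (@En.n l1347 (nat_lit 2675) (nat_lit 7) (nat_lit 6))
    (@En.i (nat_lit 3882) (nat_lit 14) (nat_lit 8))
    (@En.i (nat_lit 7924) (nat_lit 10) (nat_lit 12))
    (@En.n l17 (nat_lit 3937) (nat_lit 15) (nat_lit 2))))
  (@Cl.mk (nat_lit 0x200060003000e00080002000d000a000e00030002000a00080006000e000d) (nat_lit 0x509250071081) (nat_lit 16) Lb.e (@T16.mk En
    (@En.n l24706 (nat_lit 3935) (nat_lit 11) (nat_lit 13))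
    (@En.n l9956 (nat_lit 5323) (nat_lit 1) (nat_lit 14))
    (@En.n l4477 (nat_lit 2682) (nat_lit 2) (nat_lit 6))
    (@En.n l4476 (nat_lit 3883) (nat_lit 14) (nat_lit 8))
    (@En.n l4477 (nat_lit 11222) (nat_lit 4) (nat_lit 10))
    (@En.n l67 (nat_lit 3938) (nat_lit 5) (nat_lit 2))
    (@En.n l107 (nat_lit 3936) (nat_lit 6) (nat_lit 3))
    (@En.n l11076 (nat_lit 13208) (nat_lit 0) (nat_lit 14))
    (@En.i (nat_lit 4660) (nat_lit 9) (nat_lit 10))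
    (@En.n l11077 (nat_lit 4499) (nat_lit 10) (nat_lit 13))
    (@En.n l17 (nat_lit 3938) (nat_lit 10) (nat_lit 2))
    (@En.n l11077 (nat_lit 3914) (nat_lit 12) (nat_lit 8))
    (@En.n l19550 (nat_lit 5840) (nat_lit 1) (nat_lit 14))
    (@En.n l24707 (nat_lit 3935) (nat_lit 7) (nat_lit 3))
    (@En.n l24708 (nat_lit 4162) (nat_lit 8) (nat_lit 6))
    (@En.n l7 (nat_lit 3938) (nat_lit 15) (nat_lit 2))))
  (@Cl.mk (nat_lit 0x200060003000e00080002000e000d0002000c0003000a00080004000e000d) (nat_lit 0x5509904075091) (nat_lit 16) Lb.e (@T16.mk En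
    (@En.n l2438 (nat_lit 3932) (nat_lit 9) (nat_lit 13))
    (@En.i (nat_lit 5324) (nat_lit 1) (nat_lit 14))
    (@En.n l4472 (nat_lit 3701) (nat_lit 2) (nat_lit 4))
    (@En.i (nat_lit 3732) (nat_lit 3) (nat_lit 8))
    (@En.i (nat_lit 12560) (nat_lit 4) (nat_lit 10))
    (@En.n l1392 (nat_lit 3936) (nat_lit 5) (nat_lit 3))
    (@En.i (nat_lit 873) (nat_lit 7) (nat_lit 12))
    (@En.n l50 (nat_lit 3939) (nat_lit 7) (nat_lit 2))
    (@En.n l1393 (nat_lit 3936) (nat_lit 9) (nat_lit 13))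
    (@En.n l1393 (nat_lit 6414) (nat_lit 1) (nat_lit 14))
    (@En.n l28 (nat_lit 3939) (nat_lit 10) (nat_lit 2))
    (@En.i (nat_lit 3986) (nat_lit 12) (nat_lit 8))
    (@En.i (nat_lit 5839) (nat_lit 13) (nat_lit 14))
    (@En.n l4473 (nat_lit 3932) (nat_lit 5) (nat_lit 3))
    (@En.i (nat_lit 4149) (nat_lit 6) (nat_lit 6))
    (@En.n l3 (nat_lit 3939) (nat_lit 15) (nat_lit 2))))
  (@Cl.mk (nat_lit 0x2000d000d000a00030003000c000b000900060004000e00050002000e0007) (nat_lit 0xab2009820010010) (nat_lit 16) Lb.e (@T16.mk En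
    (@En.i (nat_lit 2073) (nat_lit 14) (nat_lit 7))
    (@En.n l5342 (nat_lit 1135) (nat_lit 1) (nat_lit 14))
    (@En.n l50 (nat_lit 3940) (nat_lit 2) (nat_lit 2))
    (@En.n l7 (nat_lit 1945) (nat_lit 3) (nat_lit 5))
    (@En.n l19045 (nat_lit 816) (nat_lit 1) (nat_lit 14))
    (@En.i (nat_lit 2644) (nat_lit 5) (nat_lit 4))
    (@En.n l8195 (nat_lit 2680) (nat_lit 6) (nat_lit 6))
    (@En.n l55 (nat_lit 3874) (nat_lit 4) (nat_lit 9))
    (@En.n l55 (nat_lit 3934) (nat_lit 9) (nat_lit 11))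
    (@En.i (nat_lit 3144) (nat_lit 10) (nat_lit 12))
    (@En.n l152 (nat_lit 3941) (nat_lit 13) (nat_lit 3))
    (@En.n l8195 (nat_lit 3942) (nat_lit 0) (nat_lit 3))
    (@En.n l97 (nat_lit 1614) (nat_lit 0) (nat_lit 10))
    (@En.n l27229 (nat_lit 3942) (nat_lit 3) (nat_lit 13))
    (@En.i (nat_lit 6247) (nat_lit 12) (nat_lit 13))
    (@En.n l17 (nat_lit 3940) (nat_lit 15) (nat_lit 2))))
  (@Cl.mk (nat_lit 0x2000b0003000c000b000900050004000e00050002000e00070002000e000d) (nat_lit 0x90992001001006b) (nat_lit 16) Lb.e (@T16.mk En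
    (@En.i (nat_lit 3940) (nat_lit 14) (nat_lit 13))
    (@En.i (nat_lit 6418) (nat_lit 1) (nat_lit 14))
    (@En.n l17 (nat_lit 3941) (nat_lit 2) (nat_lit 2))
    (@En.i (nat_lit 2072) (nat_lit 14) (nat_lit 7))
    (@En.n l5342 (nat_lit 1137) (nat_lit 1) (nat_lit 14))
    (@En.n l50 (nat_lit 3941) (nat_lit 5) (nat_lit 2))
    (@En.n l7 (nat_lit 1952) (nat_lit 6) (nat_lit 5))
    (@En.n l532 (nat_lit 818) (nat_lit 1) (nat_lit 14))
    (@En.i (nat_lit 681) (nat_lit 8) (nat_lit 4))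
    (@En.n l6842 (nat_lit 3699) (nat_lit 9) (nat_lit 5))
    (@En.n l55 (nat_lit 3733) (nat_lit 11) (nat_lit 9))
    (@En.n l55 (nat_lit 3932) (nat_lit 12) (nat_lit 11))
    (@En.n l11 (nat_lit 4907) (nat_lit 13) (nat_lit 12))
    (@En.n l117 (nat_lit 3940) (nat_lit 10) (nat_lit 3))
    (@En.i (nat_lit 1930) (nat_lit 12) (nat_lit 11))
    (@En.n l3 (nat_lit 3941) (nat_lit 15) (nat_lit 2))))
  (@Cl.mk (nat_lit 0x2000c000b000900070004000e00050002000e00070002000d0009000e0003) (nat_lit 0xa8200100100a390) (nat_lit 16) Lb.e (@T16.mk En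
    (@En.n l21180 (nat_lit 3940) (nat_lit 11) (nat_lit 3))
    (@En.n l1573 (nat_lit 12845) (nat_lit 0) (nat_lit 14))
    (@En.i (nat_lit 1944) (nat_lit 14) (nat_lit 9))
    (@En.n l8137 (nat_lit 6246) (nat_lit 12) (nat_lit 13))
    (@En.n l3 (nat_lit 3942) (nat_lit 4) (nat_lit 2))
    (@En.n l1573 (nat_lit 2076) (nat_lit 14) (nat_lit 7))
    (@En.n l339 (nat_lit 1134) (nat_lit 1) (nat_lit 14))
    (@En.n l17 (nat_lit 3942) (nat_lit 7) (nat_lit 2))
    (@En.n l8934 (nat_lit 1953) (nat_lit 8) (nat_lit 5))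
    (@En.n l21181 (nat_lit 817) (nat_lit 1) (nat_lit 14))
    (@En.n l8936 (nat_lit 3749) (nat_lit 10) (nat_lit 4))
    (@En.i (nat_lit 2676) (nat_lit 6) (nat_lit 7))
    (@En.n l685 (nat_lit 3879) (nat_lit 4) (nat_lit 9))
    (@En.n l8938 (nat_lit 3935) (nat_lit 14) (nat_lit 11))
    (@En.n l1573 (nat_lit 3143) (nat_lit 10) (nat_lit 12))
    (@En.n l28 (nat_lit 3942) (nat_lit 15) (nat_lit 2))))
  (@Cl.mk (nat_lit 0x2000c000a000700050004000d000d000600030003000e00090002000e000b) (nat_lit 0x2700056000b60c1) (nat_lit 16) Lb.e (@T16.mk En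
    (@En.i (nat_lit 1946) (nat_lit 14) (nat_lit 11))
    (@En.n l2242 (nat_lit 2338) (nat_lit 1) (nat_lit 14))
    (@En.n l3 (nat_lit 3943) (nat_lit 2) (nat_lit 2))
    (@En.n l137 (nat_lit 3092) (nat_lit 3) (nat_lit 9))
    (@En.n l2243 (nat_lit 7157) (nat_lit 1) (nat_lit 14))
    (@En.n l1777 (nat_lit 3945) (nat_lit 13) (nat_lit 3))
    (@En.n l18 (nat_lit 3944) (nat_lit 6) (nat_lit 3))
    (@En.n l4001 (nat_lit 1943) (nat_lit 0) (nat_lit 6))
    (@En.n l61 (nat_lit 3944) (nat_lit 9) (nat_lit 13))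
    (@En.n l564 (nat_lit 3947) (nat_lit 10) (nat_lit 13))
    (@En.n l4904 (nat_lit 3932) (nat_lit 10) (nat_lit 4))
    (@En.i (nat_lit 3824) (nat_lit 8) (nat_lit 5))
    (@En.n l137 (nat_lit 3874) (nat_lit 13) (nat_lit 7))
    (@En.i (nat_lit 3700) (nat_lit 14) (nat_lit 10))
    (@En.n l4905 (nat_lit 869) (nat_lit 12) (nat_lit 12))
    (@En.n l11 (nat_lit 3943) (nat_lit 15) (nat_lit 2))))
  (@Cl.mk (nat_lit 0x2000c000b000700050004000d0005000e00030002000e00090002000e000b) (nat_lit 0x2600050600b60c1) (nat_lit 16) Lb.e (@T16.mk En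
    (@En.i (nat_lit 1950) (nat_lit 14) (nat_lit 11))
    (@En.i (nat_lit 2341) (nat_lit 1) (nat_lit 14))
    (@En.n l3 (nat_lit 3944) (nat_lit 2) (nat_lit 2))
    (@En.i (nat_lit 3098) (nat_lit 14) (nat_lit 9))
    (@En.i (nat_lit 7156) (nat_lit 1) (nat_lit 14))
    (@En.n l17 (nat_lit 3944) (nat_lit 5) (nat_lit 2))
    (@En.i (nat_lit 3943) (nat_lit 6) (nat_lit 3))
    (@En.i (nat_lit 13702) (nat_lit 0) (nat_lit 14))
    (@En.n l4030 (nat_lit 1614) (nat_lit 8) (nat_lit 5))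
    (@En.n l564 (nat_lit 3948) (nat_lit 10) (nat_lit 13))
    (@En.n l4001 (nat_lit 3933) (nat_lit 10) (nat_lit 4))
    (@En.i (nat_lit 3828) (nat_lit 8) (nat_lit 5))
    (@En.n l2054 (nat_lit 3879) (nat_lit 13) (nat_lit 7))
    (@En.n l644 (nat_lit 3699) (nat_lit 14) (nat_lit 11))
    (@En.n l287 (nat_lit 871) (nat_lit 12) (nat_lit 12))
    (@En.n l11 (nat_lit 3944) (nat_lit 15) (nat_lit 2))))
  (@Cl.mk (nat_lit 0x200070003000e00090002000e000b0002000c0009000700050004000e000d) (nat_lit 0xb60c106700046) (nat_lit 16) Lb.e (@T16.mk En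
    (@En.n l681 (nat_lit 3943) (nat_lit 9) (nat_lit 13))
    (@En.i (nat_lit 4143) (nat_lit 1) (nat_lit 14))
    (@En.n l763 (nat_lit 3939) (nat_lit 2) (nat_lit 4))
    (@En.n l689 (nat_lit 4025) (nat_lit 3) (nat_lit 5))
    (@En.i (nat_lit 3733) (nat_lit 4) (nat_lit 7))
    (@En.n l1573 (nat_lit 3704) (nat_lit 5) (nat_lit 9))
    (@En.n l765 (nat_lit 867) (nat_lit 7) (nat_lit 12))
    (@En.n l50 (nat_lit 3945) (nat_lit 7) (nat_lit 2))
    (@En.n l217 (nat_lit 1951) (nat_lit 9) (nat_lit 11))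
    (@En.n l1573 (nat_lit 2340) (nat_lit 1) (nat_lit 14))
    (@En.n l28 (nat_lit 3945) (nat_lit 10) (nat_lit 2))
    (@En.i (nat_lit 3097) (nat_lit 12) (nat_lit 9))
    (@En.i (nat_lit 5781) (nat_lit 1) (nat_lit 14))
    (@En.n l1574 (nat_lit 3943) (nat_lit 5) (nat_lit 3))
    (@En.n l1575 (nat_lit 1867) (nat_lit 6) (nat_lit 7))
    (@En.n l3 (nat_lit 3945) (nat_lit 15) (nat_lit 2))))
  (@Cl.mk (nat_lit 0x20008000c000b000800060004000d000500080003000e00080002000e000a) (nat_lit 0x393004010b0014) (nat_lit 16) Lb.e (@T16.mk En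
    (@En.i (nat_lit 3355) (nat_lit 14) (nat_lit 10))
    (@En.i (nat_lit 2470) (nat_lit 1) (nat_lit 14))
    (@En.n l3 (nat_lit 3946) (nat_lit 2) (nat_lit 2))
    (@En.n l322 (nat_lit 3954) (nat_lit 3) (nat_lit 8))
    (@En.n l3621 (nat_lit 9890) (nat_lit 1) (nat_lit 14))
    (@En.n l2243 (nat_lit 3950) (nat_lit 5) (nat_lit 3))
    (@En.n l10896 (nat_lit 2117) (nat_lit 6) (nat_lit 8))
    (@En.n l6511 (nat_lit 1931) (nat_lit 7) (nat_lit 5))
    (@En.n l7025 (nat_lit 2122) (nat_lit 9) (nat_lit 13))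
    (@En.n l6511 (nat_lit 7979) (nat_lit 9) (nat_lit 4))
    (@En.i (nat_lit 4398) (nat_lit 7) (nat_lit 6))
    (@En.n l562 (nat_lit 8265) (nat_lit 12) (nat_lit 8))
    (@En.n l644 (nat_lit 3947) (nat_lit 13) (nat_lit 11))
    (@En.n l617 (nat_lit 3943) (nat_lit 14) (nat_lit 12))
    (@En.n l780 (nat_lit 9524) (nat_lit 12) (nat_lit 8))
    (@En.n l11 (nat_lit 3946) (nat_lit 15) (nat_lit 2))))
  (@Cl.mk (nat_lit 0x20008000b00070005000d000c0005000300080004000e00090002000e000b) (nat_lit 0x800430020c7014) (nat_lit 16) Lb.e (@T16.mk En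
    (@En.i (nat_lit 4565) (nat_lit 14) (nat_lit 11))
    (@En.i (nat_lit 2466) (nat_lit 1) (nat_lit 14))
    (@En.n l3 (nat_lit 3947) (nat_lit 2) (nat_lit 2))
    (@En.n l339 (nat_lit 3955) (nat_lit 3) (nat_lit 9))
    (@En.n l3621 (nat_lit 9888) (nat_lit 1) (nat_lit 14))
    (@En.n l2351 (nat_lit 2032) (nat_lit 5) (nat_lit 4))
    (@En.n l612 (nat_lit 3946) (nat_lit 6) (nat_lit 8))
    (@En.n l50 (nat_lit 3948) (nat_lit 7) (nat_lit 3))
    (@En.n l2352 (nat_lit 1942) (nat_lit 0) (nat_lit 5))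
    (@En.n l2253 (nat_lit 3949) (nat_lit 10) (nat_lit 12))
    (@En.n l3953 (nat_lit 5717) (nat_lit 11) (nat_lit 13))
    (@En.i (nat_lit 4399) (nat_lit 8) (nat_lit 5))
    (@En.n l339 (nat_lit 8641) (nat_lit 13) (nat_lit 7))
    (@En.n l617 (nat_lit 3703) (nat_lit 7) (nat_lit 11))
    (@En.n l3954 (nat_lit 9498) (nat_lit 12) (nat_lit 8))
    (@En.n l11 (nat_lit 3947) (nat_lit 15) (nat_lit 2))))
  (@Cl.mk (nat_lit 0x20008000c00070005000d0004000d000300080003000e00090002000e000b) (nat_lit 0x6500404030c0014) (nat_lit 16) Lb.e (@T16.mk En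
    (@En.i (nat_lit 4564) (nat_lit 14) (nat_lit 11))
    (@En.i (nat_lit 2472) (nat_lit 1) (nat_lit 14))
    (@En.n l3 (nat_lit 3948) (nat_lit 2) (nat_lit 2))
    (@En.n l10966 (nat_lit 3956) (nat_lit 3) (nat_lit 9))
    (@En.i (nat_lit 9889) (nat_lit 1) (nat_lit 14))
    (@En.n l2351 (nat_lit 3949) (nat_lit 5) (nat_lit 3))
    (@En.n l387 (nat_lit 4906) (nat_lit 6) (nat_lit 8))
    (@En.i (nat_lit 3947) (nat_lit 7) (nat_lit 3))
    (@En.n l725 (nat_lit 3722) (nat_lit 0) (nat_lit 13))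
    (@En.i (nat_lit 3946) (nat_lit 9) (nat_lit 4))
    (@En.n l10967 (nat_lit 5721) (nat_lit 11) (nat_lit 13))
    (@En.i (nat_lit 4397) (nat_lit 8) (nat_lit 5))
    (@En.n l10968 (nat_lit 8743) (nat_lit 13) (nat_lit 7))
    (@En.n l617 (nat_lit 3697) (nat_lit 14) (nat_lit 12))
    (@En.n l3954 (nat_lit 9501) (nat_lit 12) (nat_lit 8))
    (@En.n l11 (nat_lit 3948) (nat_lit 15) (nat_lit 2))))
  (@Cl.mk (nat_lit 0x20009000c00070005000c0004000d000700040003000e00090002000e000b) (nat_lit 0x6500204000c0014) (nat_lit 16) Lb.e (@T16.mk En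
    (@En.n l6864 (nat_lit 4566) (nat_lit 14) (nat_lit 11))
    (@En.n l5 (nat_lit 2468) (nat_lit 1) (nat_lit 14))
    (@En.n l50 (nat_lit 3949) (nat_lit 2) (nat_lit 2))
    (@En.i (nat_lit 3957) (nat_lit 3) (nat_lit 9))
    (@En.n l2496 (nat_lit 5791) (nat_lit 1) (nat_lit 14))
    (@En.n l6569 (nat_lit 3948) (nat_lit 5) (nat_lit 3))
    (@En.i (nat_lit 2035) (nat_lit 6) (nat_lit 4))
    (@En.n l6864 (nat_lit 2122) (nat_lit 7) (nat_lit 7))
    (@En.n l8308 (nat_lit 3720) (nat_lit 9) (nat_lit 13))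
    (@En.n l773 (nat_lit 3950) (nat_lit 9) (nat_lit 4))
    (@En.i (nat_lit 11541) (nat_lit 11) (nat_lit 12))
    (@En.n l6864 (nat_lit 4400) (nat_lit 8) (nat_lit 5))
    (@En.n l8309 (nat_lit 8740) (nat_lit 13) (nat_lit 7))
    (@En.n l1967 (nat_lit 3701) (nat_lit 6) (nat_lit 12))
    (@En.n l6864 (nat_lit 9607) (nat_lit 12) (nat_lit 9))
    (@En.n l17 (nat_lit 3949) (nat_lit 15) (nat_lit 2))))
  (@Cl.mk (nat_lit 0x20009000c000a000800060004000d000700060003000e00080002000e000a) (nat_lit 0x6783004000c0014) (nat_lit 16) Lb.e (@T16.mk En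
    (@En.n l3912 (nat_lit 3354) (nat_lit 14) (nat_lit 10))
    (@En.n l2722 (nat_lit 2469) (nat_lit 1) (nat_lit 14))
    (@En.n l18 (nat_lit 3950) (nat_lit 2) (nat_lit 2))
    (@En.n l322 (nat_lit 3953) (nat_lit 3) (nat_lit 8))
    (@En.n l396 (nat_lit 5852) (nat_lit 1) (nat_lit 14))
    (@En.n l3917 (nat_lit 3946) (nat_lit 5) (nat_lit 3))
    (@En.n l238 (nat_lit 2026) (nat_lit 6) (nat_lit 6))
    (@En.n l1161 (nat_lit 3952) (nat_lit 7) (nat_lit 7))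
    (@En.n l3918 (nat_lit 3951) (nat_lit 9) (nat_lit 13))
    (@En.n l11 (nat_lit 7980) (nat_lit 9) (nat_lit 4))
    (@En.n l916 (nat_lit 4401) (nat_lit 7) (nat_lit 6))
    (@En.n l322 (nat_lit 8263) (nat_lit 12) (nat_lit 8))
    (@En.n l2842 (nat_lit 2032) (nat_lit 13) (nat_lit 10))
    (@En.n l322 (nat_lit 3945) (nat_lit 6) (nat_lit 12))
    (@En.i (nat_lit 9600) (nat_lit 12) (nat_lit 9))
    (@En.n l3 (nat_lit 3950) (nat_lit 15) (nat_lit 2))))
  (@Cl.mk (nat_lit 0x2000a0008000b00080006000d0006000500030008000e00080002000e000a) (nat_lit 0x8183030004b0014) (nat_lit 16) Lb.e (@T16.mk En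
    (@En.n l7864 (nat_lit 4567) (nat_lit 14) (nat_lit 10))
    (@En.n l5 (nat_lit 2467) (nat_lit 1) (nat_lit 14))
    (@En.n l50 (nat_lit 3951) (nat_lit 2) (nat_lit 2))
    (@En.i (nat_lit 4210) (nat_lit 3) (nat_lit 8))
    (@En.n l7865 (nat_lit 11318) (nat_lit 5) (nat_lit 14))
    (@En.n l7866 (nat_lit 3952) (nat_lit 5) (nat_lit 8))
    (@En.n l5744 (nat_lit 2122) (nat_lit 6) (nat_lit 3))
    (@En.n l152 (nat_lit 1530) (nat_lit 0) (nat_lit 5))
    (@En.n l4923 (nat_lit 1866) (nat_lit 8) (nat_lit 6))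
    (@En.i (nat_lit 11542) (nat_lit 10) (nat_lit 13))
    (@En.i (nat_lit 4381) (nat_lit 7) (nat_lit 6))
    (@En.n l7865 (nat_lit 10241) (nat_lit 12) (nat_lit 8))
    (@En.i (nat_lit 2035) (nat_lit 13) (nat_lit 11))
    (@En.n l2501 (nat_lit 3947) (nat_lit 14) (nat_lit 8))
    (@En.n l7867 (nat_lit 9603) (nat_lit 12) (nat_lit 10))
    (@En.n l17 (nat_lit 3951) (nat_lit 15) (nat_lit 2))))
noncomputable def a247 : T16 Cl := @T16.mk Cl
  (@Cl.mk (nat_lit 0x200090008000c000b000900070004000700050008000e00070002000e0009) (nat_lit 0x7189400003b0014) (nat_lit 16) Lb.e (@T16.mk En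
    (@En.n l10724 (nat_lit 4568) (nat_lit 14) (nat_lit 9))
    (@En.n l998 (nat_lit 2473) (nat_lit 1) (nat_lit 14))
    (@En.n l50 (nat_lit 3952) (nat_lit 2) (nat_lit 2))
    (@En.n l7 (nat_lit 4211) (nat_lit 3) (nat_lit 7))
    (@En.n l10725 (nat_lit 7441) (nat_lit 5) (nat_lit 14))
    (@En.n l117 (nat_lit 4895) (nat_lit 5) (nat_lit 8))
    (@En.i (nat_lit 1532) (nat_lit 6) (nat_lit 5))
    (@En.i (nat_lit 1868) (nat_lit 7) (nat_lit 7))
    (@En.n l7770 (nat_lit 7981) (nat_lit 8) (nat_lit 4))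
    (@En.n l3202 (nat_lit 4385) (nat_lit 6) (nat_lit 7))
    (@En.n l10726 (nat_lit 8260) (nat_lit 11) (nat_lit 9))
    (@En.n l10727 (nat_lit 3951) (nat_lit 12) (nat_lit 11))
    (@En.n l3262 (nat_lit 3950) (nat_lit 13) (nat_lit 12))
    (@En.n l3202 (nat_lit 3946) (nat_lit 14) (nat_lit 8))
    (@En.n l3408 (nat_lit 9599) (nat_lit 12) (nat_lit 9))
    (@En.n l17 (nat_lit 3952) (nat_lit 15) (nat_lit 2))))
  (@Cl.mk (nat_lit 0x20008000b00090008000800070005000d00080007000300080008000e0009) (nat_lit 0x667340064006093) (nat_lit 16) Lb.e (@T16.mk En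
    (@En.n l217 (nat_lit 3157) (nat_lit 12) (nat_lit 9))
    (@En.n l1546 (nat_lit 2843) (nat_lit 1) (nat_lit 14))
    (@En.n l4918 (nat_lit 4214) (nat_lit 2) (nat_lit 8))
    (@En.n l10868 (nat_lit 5859) (nat_lit 3) (nat_lit 8))
    (@En.n l1034 (nat_lit 3954) (nat_lit 4) (nat_lit 3))
    (@En.n l1575 (nat_lit 1535) (nat_lit 0) (nat_lit 7))
    (@En.n l10869 (nat_lit 4211) (nat_lit 6) (nat_lit 8))
    (@En.n l10870 (nat_lit 4210) (nat_lit 8) (nat_lit 13))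
    (@En.n l763 (nat_lit 7106) (nat_lit 8) (nat_lit 5))
    (@En.n l2900 (nat_lit 4187) (nat_lit 9) (nat_lit 7))
    (@En.n l2096 (nat_lit 3950) (nat_lit 11) (nat_lit 8))
    (@En.i (nat_lit 6488) (nat_lit 12) (nat_lit 8))
    (@En.n l10871 (nat_lit 2037) (nat_lit 13) (nat_lit 9))
    (@En.i (nat_lit 3097) (nat_lit 7) (nat_lit 11))
    (@En.n l765 (nat_lit 9591) (nat_lit 10) (nat_lit 8))
    (@En.n l50 (nat_lit 3953) (nat_lit 15) (nat_lit 2))))
  (@Cl.mk (nat_lit 0x20007000b000a0008000800070005000d00060009000300080008000e0009) (nat_lit 0x27040070306093) (nat_lit 16) Lb.e (@T16.mk En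
    (@En.n l24059 (nat_lit 3152) (nat_lit 12) (nat_lit 9))
    (@En.n l23729 (nat_lit 2845) (nat_lit 1) (nat_lit 14))
    (@En.n l24060 (nat_lit 4215) (nat_lit 2) (nat_lit 8))
    (@En.n l19706 (nat_lit 5291) (nat_lit 3) (nat_lit 8))
    (@En.n l23514 (nat_lit 3953) (nat_lit 4) (nat_lit 3))
    (@En.n l24061 (nat_lit 4890) (nat_lit 0) (nat_lit 9))
    (@En.n l24062 (nat_lit 1658) (nat_lit 6) (nat_lit 6))
    (@En.n l3459 (nat_lit 3150) (nat_lit 8) (nat_lit 13))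
    (@En.n l24063 (nat_lit 7985) (nat_lit 8) (nat_lit 5))
    (@En.n l12446 (nat_lit 4184) (nat_lit 9) (nat_lit 7))
    (@En.n l24064 (nat_lit 3946) (nat_lit 11) (nat_lit 8))
    (@En.n l4570 (nat_lit 6490) (nat_lit 12) (nat_lit 8))
    (@En.n l24065 (nat_lit 3955) (nat_lit 13) (nat_lit 10))
    (@En.n l4570 (nat_lit 3092) (nat_lit 14) (nat_lit 11))
    (@En.n l24066 (nat_lit 9494) (nat_lit 10) (nat_lit 7))
    (@En.n l17 (nat_lit 3954) (nat_lit 15) (nat_lit 2))))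
  (@Cl.mk (nat_lit 0x20007000a000700070006000d000c000600030009000400090009000e000a) (nat_lit 0x6000b5004060b3) (nat_lit 16) Lb.e (@T16.mk En
    (@En.n l10953 (nat_lit 3158) (nat_lit 10) (nat_lit 10))
    (@En.n l10954 (nat_lit 2849) (nat_lit 1) (nat_lit 14))
    (@En.n l10955 (nat_lit 4216) (nat_lit 2) (nat_lit 9))
    (@En.n l10956 (nat_lit 5290) (nat_lit 3) (nat_lit 9))
    (@En.n l700 (nat_lit 2037) (nat_lit 4) (nat_lit 4))
    (@En.n l6574 (nat_lit 3954) (nat_lit 5) (nat_lit 9))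
    (@En.n l10321 (nat_lit 3956) (nat_lit 6) (nat_lit 3))
    (@En.n l10957 (nat_lit 1656) (nat_lit 7) (nat_lit 6))
    (@En.n l10958 (nat_lit 3957) (nat_lit 9) (nat_lit 12))
    (@En.n l10959 (nat_lit 5720) (nat_lit 10) (nat_lit 13))
    (@En.n l6014 (nat_lit 3968) (nat_lit 10) (nat_lit 6))
    (@En.n l10960 (nat_lit 3947) (nat_lit 12) (nat_lit 7))
    (@En.i (nat_lit 6190) (nat_lit 13) (nat_lit 7))
    (@En.n l10961 (nat_lit 3702) (nat_lit 8) (nat_lit 10))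
    (@En.n l10962 (nat_lit 9492) (nat_lit 7) (nat_lit 7))
    (@En.n l50 (nat_lit 3955) (nat_lit 15) (nat_lit 2))))
  (@Cl.mk (nat_lit 0x20007000b000700070006000d0005000d00030009000300090009000e000a) (nat_lit 0x6000a0604070b3) (nat_lit 16) Lb.e (@T16.mk En
    (@En.n l24483 (nat_lit 3154) (nat_lit 10) (nat_lit 10))
    (@En.n l24484 (nat_lit 4448) (nat_lit 1) (nat_lit 14))
    (@En.n l5 (nat_lit 4218) (nat_lit 2) (nat_lit 9))
    (@En.n l24485 (nat_lit 5289) (nat_lit 3) (nat_lit 9))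
    (@En.n l24486 (nat_lit 3957) (nat_lit 4) (nat_lit 3))
    (@En.n l24487 (nat_lit 4891) (nat_lit 5) (nat_lit 9))
    (@En.n l24488 (nat_lit 3955) (nat_lit 6) (nat_lit 3))
    (@En.n l24489 (nat_lit 3723) (nat_lit 0) (nat_lit 13))
    (@En.n l24490 (nat_lit 3954) (nat_lit 8) (nat_lit 5))
    (@En.n l24491 (nat_lit 6590) (nat_lit 10) (nat_lit 13))
    (@En.n l24492 (nat_lit 3971) (nat_lit 10) (nat_lit 6))
    (@En.n l24493 (nat_lit 3948) (nat_lit 12) (nat_lit 7))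
    (@En.i (nat_lit 6189) (nat_lit 13) (nat_lit 7))
    (@En.n l24494 (nat_lit 3694) (nat_lit 14) (nat_lit 11))
    (@En.n l24495 (nat_lit 9495) (nat_lit 7) (nat_lit 7))
    (@En.n l3 (nat_lit 3956) (nat_lit 15) (nat_lit 2))))
  (@Cl.mk (nat_lit 0x20008000b000700070006000c0005000d00080004000300090009000e000a) (nat_lit 0x6500040750070b3) (nat_lit 16) Lb.e (@T16.mk En
    (@En.n l19723 (nat_lit 3148) (nat_lit 12) (nat_lit 10))
    (@En.n l19724 (nat_lit 2851) (nat_lit 1) (nat_lit 14))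
    (@En.n l19725 (nat_lit 4217) (nat_lit 2) (nat_lit 9))
    (@En.n l3506 (nat_lit 6535) (nat_lit 3) (nat_lit 9))
    (@En.n l19726 (nat_lit 3956) (nat_lit 4) (nat_lit 3))
    (@En.i (nat_lit 2038) (nat_lit 0) (nat_lit 4))
    (@En.n l3015 (nat_lit 3150) (nat_lit 6) (nat_lit 8))
    (@En.n l8015 (nat_lit 2078) (nat_lit 8) (nat_lit 13))
    (@En.n l19727 (nat_lit 3953) (nat_lit 8) (nat_lit 5))
    (@En.n l4003 (nat_lit 11549) (nat_lit 10) (nat_lit 12))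
    (@En.n l217 (nat_lit 4352) (nat_lit 10) (nat_lit 6))
    (@En.n l644 (nat_lit 3949) (nat_lit 12) (nat_lit 7))
    (@En.n l19728 (nat_lit 6191) (nat_lit 13) (nat_lit 7))
    (@En.n l4003 (nat_lit 3696) (nat_lit 7) (nat_lit 11))
    (@En.n l19729 (nat_lit 9457) (nat_lit 10) (nat_lit 8))
    (@En.n l17 (nat_lit 3957) (nat_lit 15) (nat_lit 2))))
  (@Cl.mk (nat_lit 0x20007000600060005000d000b000e0003000200090005000a000a000e000b) (nat_lit 0x44800507151) (nat_lit 16) Lb.e (@T16.mk En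
    (@En.n l1220 (nat_lit 3076) (nat_lit 10) (nat_lit 11))
    (@En.n l1037 (nat_lit 2426) (nat_lit 11) (nat_lit 14))
    (@En.n l4023 (nat_lit 3029) (nat_lit 6) (nat_lit 10))
    (@En.n l4024 (nat_lit 4818) (nat_lit 3) (nat_lit 10))
    (@En.n l4025 (nat_lit 3702) (nat_lit 14) (nat_lit 5))
    (@En.n l4026 (nat_lit 3955) (nat_lit 5) (nat_lit 9))
    (@En.n l7 (nat_lit 3958) (nat_lit 6) (nat_lit 2))
    (@En.n l4027 (nat_lit 3682) (nat_lit 7) (nat_lit 3))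
    (@En.n l333 (nat_lit 12993) (nat_lit 0) (nat_lit 14))
    (@En.n l3209 (nat_lit 3033) (nat_lit 2) (nat_lit 11))
    (@En.n l3789 (nat_lit 8052) (nat_lit 11) (nat_lit 13))
    (@En.n l4024 (nat_lit 3960) (nat_lit 4) (nat_lit 5))
    (@En.n l61 (nat_lit 4126) (nat_lit 5) (nat_lit 6))
    (@En.n l333 (nat_lit 3589) (nat_lit 14) (nat_lit 6))
    (@En.n l4028 (nat_lit 7373) (nat_lit 7) (nat_lit 7))
    (@En.n l3 (nat_lit 3958) (nat_lit 15) (nat_lit 2))))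
  (@Cl.mk (nat_lit 0x2000800050009000d000a000e00030002000800070006000d000b000e0003) (nat_lit 0x50712c0000033b0) (nat_lit 16) Lb.e (@T16.mk En
    (@En.n l9601 (nat_lit 3685) (nat_lit 8) (nat_lit 3))
    (@En.n l9602 (nat_lit 13044) (nat_lit 0) (nat_lit 14))
    (@En.n l9603 (nat_lit 3962) (nat_lit 2) (nat_lit 11))
    (@En.i (nat_lit 5520) (nat_lit 12) (nat_lit 13))
    (@En.n l9604 (nat_lit 3647) (nat_lit 4) (nat_lit 6))
    (@En.n l9605 (nat_lit 3069) (nat_lit 14) (nat_lit 7))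
    (@En.n l9606 (nat_lit 6995) (nat_lit 6) (nat_lit 8))
    (@En.n l50 (nat_lit 3959) (nat_lit 7) (nat_lit 2))
    (@En.n l3608 (nat_lit 3960) (nat_lit 8) (nat_lit 3))
    (@En.n l9607 (nat_lit 13145) (nat_lit 0) (nat_lit 14))
    (@En.n l9608 (nat_lit 3958) (nat_lit 2) (nat_lit 10))
    (@En.n l9603 (nat_lit 3746) (nat_lit 12) (nat_lit 13))
    (@En.i (nat_lit 4798) (nat_lit 4) (nat_lit 9))
    (@En.n l9609 (nat_lit 3961) (nat_lit 14) (nat_lit 5))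
    (@En.n l9610 (nat_lit 3970) (nat_lit 6) (nat_lit 8))
    (@En.n l11 (nat_lit 3959) (nat_lit 15) (nat_lit 2))))
  (@Cl.mk (nat_lit 0x2000800050009000d000d000b00030003000800070005000d000b000e0003) (nat_lit 0x5078210060033b0) (nat_lit 16) Lb.e (@T16.mk En
    (@En.n l8258 (nat_lit 3687) (nat_lit 15) (nat_lit 3))
    (@En.n l476 (nat_lit 12789) (nat_lit 0) (nat_lit 14))
    (@En.n l11107 (nat_lit 3963) (nat_lit 2) (nat_lit 11))
    (@En.n l11108 (nat_lit 5515) (nat_lit 11) (nat_lit 13))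
    (@En.n l11109 (nat_lit 3068) (nat_lit 4) (nat_lit 5))
    (@En.n l152 (nat_lit 3072) (nat_lit 5) (nat_lit 7))
    (@En.n l810 (nat_lit 6989) (nat_lit 6) (nat_lit 8))
    (@En.n l28 (nat_lit 3964) (nat_lit 7) (nat_lit 3))
    (@En.n l8158 (nat_lit 3959) (nat_lit 8) (nat_lit 3))
    (@En.i (nat_lit 1379) (nat_lit 10) (nat_lit 11))
    (@En.n l9905 (nat_lit 3959) (nat_lit 11) (nat_lit 13))
    (@En.n l11110 (nat_lit 4278) (nat_lit 12) (nat_lit 13))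
    (@En.i (nat_lit 4683) (nat_lit 13) (nat_lit 9))
    (@En.n l11111 (nat_lit 3775) (nat_lit 14) (nat_lit 5))
    (@En.n l899 (nat_lit 3968) (nat_lit 5) (nat_lit 8))
    (@En.n l17 (nat_lit 3960) (nat_lit 15) (nat_lit 2))))
  (@Cl.mk (nat_lit 0x200050009000d000a000e00030002000b00070006000c000b0005000e0004) (nat_lit 0x7b2a00600330c0) (nat_lit 16) Lb.e (@T16.mk En
    (@En.n l16861 (nat_lit 3690) (nat_lit 7) (nat_lit 4))
    (@En.n l22218 (nat_lit 3959) (nat_lit 1) (nat_lit 14))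
    (@En.n l22219 (nat_lit 3972) (nat_lit 2) (nat_lit 5))
    (@En.i (nat_lit 3772) (nat_lit 3) (nat_lit 11))
    (@En.n l11131 (nat_lit 5525) (nat_lit 12) (nat_lit 12))
    (@En.n l22220 (nat_lit 3641) (nat_lit 5) (nat_lit 6))
    (@En.n l245 (nat_lit 3073) (nat_lit 6) (nat_lit 7))
    (@En.n l11131 (nat_lit 4432) (nat_lit 8) (nat_lit 11))
    (@En.n l7 (nat_lit 3961) (nat_lit 8) (nat_lit 2))
    (@En.n l7851 (nat_lit 3775) (nat_lit 9) (nat_lit 3))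
    (@En.n l12871 (nat_lit 13147) (nat_lit 0) (nat_lit 14))
    (@En.i (nat_lit 3702) (nat_lit 12) (nat_lit 10))
    (@En.i (nat_lit 3857) (nat_lit 13) (nat_lit 13))
    (@En.n l11131 (nat_lit 7198) (nat_lit 14) (nat_lit 9))
    (@En.n l107 (nat_lit 3236) (nat_lit 13) (nat_lit 5))
    (@En.n l3 (nat_lit 3961) (nat_lit 15) (nat_lit 2))))
  (@Cl.mk (nat_lit 0x20007000500040009000d000a000e00030002000900070006000b000e000c) (nat_lit 0x792a00600235) (nat_lit 16) Lb.e (@T16.mk En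
    (@En.n l15182 (nat_lit 3690) (nat_lit 10) (nat_lit 12))
    (@En.i (nat_lit 3235) (nat_lit 4) (nat_lit 14))
    (@En.i (nat_lit 7057) (nat_lit 2) (nat_lit 11))
    (@En.n l1722 (nat_lit 3640) (nat_lit 3) (nat_lit 6))
    (@En.n l5595 (nat_lit 3065) (nat_lit 14) (nat_lit 7))
    (@En.i (nat_lit 4440) (nat_lit 5) (nat_lit 9))
    (@En.n l7 (nat_lit 3962) (nat_lit 6) (nat_lit 2))
    (@En.n l11295 (nat_lit 3963) (nat_lit 7) (nat_lit 3))
    (@En.n l9501 (nat_lit 13146) (nat_lit 0) (nat_lit 14))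
    (@En.i (nat_lit 3033) (nat_lit 10) (nat_lit 10))
    (@En.i (nat_lit 4253) (nat_lit 11) (nat_lit 13))
    (@En.n l8769 (nat_lit 5508) (nat_lit 12) (nat_lit 9))
    (@En.n l2832 (nat_lit 3685) (nat_lit 5) (nat_lit 4))
    (@En.n l17 (nat_lit 3772) (nat_lit 14) (nat_lit 5))
    (@En.n l1203 (nat_lit 4353) (nat_lit 7) (nat_lit 7))
    (@En.n l3 (nat_lit 3962) (nat_lit 15) (nat_lit 2))))
  (@Cl.mk (nat_lit 0x20007000500040009000d000d000b00030003000900070005000b000e000c) (nat_lit 0x78a100600235) (nat_lit 16) Lb.e (@T16.mk En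
    (@En.n l68 (nat_lit 3691) (nat_lit 9) (nat_lit 12))
    (@En.n l12850 (nat_lit 3233) (nat_lit 4) (nat_lit 14))
    (@En.n l11385 (nat_lit 7056) (nat_lit 2) (nat_lit 11))
    (@En.n l21907 (nat_lit 3585) (nat_lit 3) (nat_lit 5))
    (@En.i (nat_lit 3066) (nat_lit 4) (nat_lit 7))
    (@En.n l21908 (nat_lit 4439) (nat_lit 5) (nat_lit 9))
    (@En.n l18 (nat_lit 3966) (nat_lit 6) (nat_lit 3))
    (@En.n l21750 (nat_lit 3962) (nat_lit 7) (nat_lit 3))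
    (@En.n l6444 (nat_lit 1374) (nat_lit 9) (nat_lit 11))
    (@En.n l21909 (nat_lit 3962) (nat_lit 10) (nat_lit 13))
    (@En.n l11385 (nat_lit 4254) (nat_lit 11) (nat_lit 13))
    (@En.n l645 (nat_lit 5511) (nat_lit 12) (nat_lit 9))
    (@En.i (nat_lit 3687) (nat_lit 12) (nat_lit 4))
    (@En.n l11396 (nat_lit 3769) (nat_lit 14) (nat_lit 5))
    (@En.n l21910 (nat_lit 4352) (nat_lit 6) (nat_lit 7))
    (@En.n l67 (nat_lit 3963) (nat_lit 15) (nat_lit 2))))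
  (@Cl.mk (nat_lit 0x2000800050009000e000d0002000c0003000800070004000d000b000e0003) (nat_lit 0x5071902060024b0) (nat_lit 16) Lb.e (@T16.mk En
    (@En.n l8258 (nat_lit 3965) (nat_lit 6) (nat_lit 3))
    (@En.n l476 (nat_lit 12848) (nat_lit 0) (nat_lit 14))
    (@En.n l11107 (nat_lit 3966) (nat_lit 2) (nat_lit 11))
    (@En.i (nat_lit 5514) (nat_lit 10) (nat_lit 13))
    (@En.n l476 (nat_lit 3065) (nat_lit 4) (nat_lit 4))
    (@En.n l152 (nat_lit 3890) (nat_lit 12) (nat_lit 7))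
    (@En.n l476 (nat_lit 6963) (nat_lit 6) (nat_lit 8))
    (@En.i (nat_lit 3960) (nat_lit 7) (nat_lit 3))
    (@En.i (nat_lit 3211) (nat_lit 0) (nat_lit 12))
    (@En.n l11 (nat_lit 3964) (nat_lit 9) (nat_lit 2))
    (@En.n l1578 (nat_lit 3960) (nat_lit 11) (nat_lit 13))
    (@En.n l11110 (nat_lit 1148) (nat_lit 12) (nat_lit 14))
    (@En.i (nat_lit 4793) (nat_lit 13) (nat_lit 9))
    (@En.n l5994 (nat_lit 3967) (nat_lit 14) (nat_lit 5))
    (@En.n l899 (nat_lit 3969) (nat_lit 4) (nat_lit 8))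
    (@En.n l17 (nat_lit 3964) (nat_lit 15) (nat_lit 2))))
  (@Cl.mk (nat_lit 0x2000c0003000800070004000d000d000c00030003000800040009000e000d) (nat_lit 0x106003340040791) (nat_lit 16) Lb.e (@T16.mk En
    (@En.n l396 (nat_lit 3687) (nat_lit 10) (nat_lit 13))
    (@En.n l4316 (nat_lit 1150) (nat_lit 1) (nat_lit 14))
    (@En.n l18989 (nat_lit 4682) (nat_lit 2) (nat_lit 9))
    (@En.i (nat_lit 3774) (nat_lit 3) (nat_lit 4))
    (@En.i (nat_lit 4350) (nat_lit 4) (nat_lit 8))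
    (@En.n l152 (nat_lit 4001) (nat_lit 5) (nat_lit 3))
    (@En.n l6822 (nat_lit 3964) (nat_lit 0) (nat_lit 3))
    (@En.n l619 (nat_lit 4000) (nat_lit 8) (nat_lit 12))
    (@En.n l17986 (nat_lit 3964) (nat_lit 3) (nat_lit 13))
    (@En.i (nat_lit 5517) (nat_lit 10) (nat_lit 13))
    (@En.n l12842 (nat_lit 3066) (nat_lit 10) (nat_lit 4))
    (@En.i (nat_lit 3812) (nat_lit 12) (nat_lit 7))
    (@En.n l4316 (nat_lit 6964) (nat_lit 13) (nat_lit 8))
    (@En.i (nat_lit 3687) (nat_lit 6) (nat_lit 3))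
    (@En.i (nat_lit 856) (nat_lit 0) (nat_lit 12))
    (@En.n l50 (nat_lit 3965) (nat_lit 15) (nat_lit 2))))
  (@Cl.mk (nat_lit 0x20007000500040009000e000d0002000c0003000900070004000b000e000c) (nat_lit 0x719010600335) (nat_lit 16) Lb.e (@T16.mk En
    (@En.n l68 (nat_lit 3774) (nat_lit 8) (nat_lit 12))
    (@En.n l12850 (nat_lit 3231) (nat_lit 4) (nat_lit 14))
    (@En.n l3087 (nat_lit 7055) (nat_lit 10) (nat_lit 11))
    (@En.n l21907 (nat_lit 3583) (nat_lit 3) (nat_lit 4))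
    (@En.i (nat_lit 3892) (nat_lit 4) (nat_lit 7))
    (@En.n l12850 (nat_lit 6965) (nat_lit 5) (nat_lit 9))
    (@En.i (nat_lit 3963) (nat_lit 6) (nat_lit 3))
    (@En.i (nat_lit 3209) (nat_lit 8) (nat_lit 12))
    (@En.n l50 (nat_lit 3966) (nat_lit 8) (nat_lit 2))
    (@En.n l396 (nat_lit 3963) (nat_lit 10) (nat_lit 13))
    (@En.n l4316 (nat_lit 2718) (nat_lit 11) (nat_lit 14))
    (@En.n l645 (nat_lit 7021) (nat_lit 12) (nat_lit 9))
    (@En.i (nat_lit 3965) (nat_lit 3) (nat_lit 4))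
    (@En.n l1448 (nat_lit 3773) (nat_lit 14) (nat_lit 5))
    (@En.n l8361 (nat_lit 4351) (nat_lit 5) (nat_lit 7))
    (@En.n l67 (nat_lit 3966) (nat_lit 15) (nat_lit 2))))
  (@Cl.mk (nat_lit 0x200050009000e000d0002000c0003000b00070004000c000b0005000e0004) (nat_lit 0x711010600340c0) (nat_lit 16) Lb.e (@T16.mk En
    (@En.n l4263 (nat_lit 3774) (nat_lit 5) (nat_lit 4))
    (@En.n l4797 (nat_lit 3964) (nat_lit 1) (nat_lit 14))
    (@En.n l4798 (nat_lit 3930) (nat_lit 2) (nat_lit 5))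
    (@En.n l1545 (nat_lit 3773) (nat_lit 3) (nat_lit 11))
    (@En.n l12552 (nat_lit 5524) (nat_lit 10) (nat_lit 12))
    (@En.n l404 (nat_lit 3064) (nat_lit 5) (nat_lit 4))
    (@En.n l4801 (nat_lit 3889) (nat_lit 6) (nat_lit 7))
    (@En.n l4802 (nat_lit 8060) (nat_lit 8) (nat_lit 11))
    (@En.n l404 (nat_lit 3775) (nat_lit 8) (nat_lit 3))
    (@En.n l12553 (nat_lit 3210) (nat_lit 10) (nat_lit 12))
    (@En.n l3 (nat_lit 3967) (nat_lit 10) (nat_lit 2))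
    (@En.n l6958 (nat_lit 3775) (nat_lit 12) (nat_lit 13))
    (@En.n l12554 (nat_lit 1153) (nat_lit 13) (nat_lit 14))
    (@En.n l4797 (nat_lit 7199) (nat_lit 14) (nat_lit 9))
    (@En.n l4795 (nat_lit 3234) (nat_lit 13) (nat_lit 5))
    (@En.n l50 (nat_lit 3967) (nat_lit 15) (nat_lit 2))))
noncomputable def a248 : T16 Cl := @T16.mk Cl
  (@Cl.mk (nat_lit 0x300030008000b00080006000d000c00050003000800040008000d000d000a) (nat_lit 0x7001400403793) (nat_lit 16) Lb.e (@T16.mk En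
    (@En.i (nat_lit 4357) (nat_lit 0) (nat_lit 10))
    (@En.n l17956 (nat_lit 3970) (nat_lit 3) (nat_lit 13))
    (@En.n l17957 (nat_lit 4322) (nat_lit 12) (nat_lit 13))
    (@En.n l1003 (nat_lit 5534) (nat_lit 3) (nat_lit 8))
    (@En.n l17958 (nat_lit 3240) (nat_lit 4) (nat_lit 4))
    (@En.n l617 (nat_lit 4184) (nat_lit 5) (nat_lit 8))
    (@En.n l13782 (nat_lit 3971) (nat_lit 6) (nat_lit 3))
    (@En.n l17959 (nat_lit 2068) (nat_lit 0) (nat_lit 5))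
    (@En.n l17960 (nat_lit 4352) (nat_lit 9) (nat_lit 12))
    (@En.n l388 (nat_lit 3014) (nat_lit 10) (nat_lit 13))
    (@En.n l17961 (nat_lit 4394) (nat_lit 3) (nat_lit 6))
    (@En.n l17962 (nat_lit 6184) (nat_lit 12) (nat_lit 8))
    (@En.n l17961 (nat_lit 3775) (nat_lit 7) (nat_lit 11))
    (@En.n l17963 (nat_lit 9962) (nat_lit 14) (nat_lit 8))
    (@En.n l7 (nat_lit 3969) (nat_lit 13) (nat_lit 3))
    (@En.n l17964 (nat_lit 3970) (nat_lit 0) (nat_lit 3))))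
  (@Cl.mk (nat_lit 0x2000b00030008000b00080005000d000c00050003000800040008000e000d) (nat_lit 0x106730140040618) (nat_lit 16) Lb.e (@T16.mk En
    (@En.n l134 (nat_lit 3968) (nat_lit 2) (nat_lit 13))
    (@En.n l9182 (nat_lit 2779) (nat_lit 1) (nat_lit 14))
    (@En.n l1003 (nat_lit 5539) (nat_lit 2) (nat_lit 8))
    (@En.n l117 (nat_lit 3243) (nat_lit 3) (nat_lit 4))
    (@En.n l617 (nat_lit 4185) (nat_lit 4) (nat_lit 8))
    (@En.n l17017 (nat_lit 4350) (nat_lit 5) (nat_lit 3))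
    (@En.n l2642 (nat_lit 2070) (nat_lit 0) (nat_lit 5))
    (@En.n l22814 (nat_lit 4351) (nat_lit 8) (nat_lit 12))
    (@En.n l22815 (nat_lit 3016) (nat_lit 9) (nat_lit 13))
    (@En.n l13633 (nat_lit 4434) (nat_lit 9) (nat_lit 5))
    (@En.i (nat_lit 4293) (nat_lit 11) (nat_lit 8))
    (@En.n l2519 (nat_lit 3967) (nat_lit 7) (nat_lit 11))
    (@En.i (nat_lit 7297) (nat_lit 13) (nat_lit 8))
    (@En.i (nat_lit 3968) (nat_lit 14) (nat_lit 3))
    (@En.n l5646 (nat_lit 3123) (nat_lit 0) (nat_lit 11))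
    (@En.n l28 (nat_lit 3969) (nat_lit 15) (nat_lit 2))))
  (@Cl.mk (nat_lit 0x20008000b00080007000d000c00050003000800040008000d0009000e0003) (nat_lit 0x70014004038190) (nat_lit 16) Lb.e (@T16.mk En
    (@En.n l22128 (nat_lit 3968) (nat_lit 15) (nat_lit 3))
    (@En.n l4980 (nat_lit 13972) (nat_lit 0) (nat_lit 14))
    (@En.n l8305 (nat_lit 3955) (nat_lit 2) (nat_lit 9))
    (@En.n l22129 (nat_lit 4250) (nat_lit 12) (nat_lit 13))
    (@En.n l22130 (nat_lit 5537) (nat_lit 4) (nat_lit 8))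
    (@En.i (nat_lit 3242) (nat_lit 5) (nat_lit 4))
    (@En.n l219 (nat_lit 4186) (nat_lit 6) (nat_lit 8))
    (@En.n l5760 (nat_lit 4354) (nat_lit 7) (nat_lit 3))
    (@En.n l5870 (nat_lit 1969) (nat_lit 0) (nat_lit 5))
    (@En.n l55 (nat_lit 4353) (nat_lit 10) (nat_lit 12))
    (@En.n l22130 (nat_lit 3018) (nat_lit 11) (nat_lit 13))
    (@En.n l644 (nat_lit 3649) (nat_lit 12) (nat_lit 7))
    (@En.n l8305 (nat_lit 6185) (nat_lit 13) (nat_lit 8))
    (@En.n l22129 (nat_lit 3961) (nat_lit 7) (nat_lit 11))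
    (@En.n l3082 (nat_lit 9963) (nat_lit 6) (nat_lit 8))
    (@En.n l17 (nat_lit 3970) (nat_lit 15) (nat_lit 2))))
  (@Cl.mk (nat_lit 0x300030008000c00080006000d0004000d0003000800030008000d000d000a) (nat_lit 0x3001020404793) (nat_lit 16) Lb.e (@T16.mk En
    (@En.n l27100 (nat_lit 4356) (nat_lit 0) (nat_lit 10))
    (@En.n l33755 (nat_lit 4354) (nat_lit 3) (nat_lit 13))
    (@En.i (nat_lit 4245) (nat_lit 12) (nat_lit 13))
    (@En.n l33756 (nat_lit 5538) (nat_lit 3) (nat_lit 8))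
    (@En.n l33757 (nat_lit 4352) (nat_lit 4) (nat_lit 3))
    (@En.n l33758 (nat_lit 3996) (nat_lit 0) (nat_lit 8))
    (@En.n l19198 (nat_lit 3968) (nat_lit 6) (nat_lit 3))
    (@En.n l33759 (nat_lit 3912) (nat_lit 0) (nat_lit 13))
    (@En.n l18752 (nat_lit 4184) (nat_lit 8) (nat_lit 4))
    (@En.n l2125 (nat_lit 3013) (nat_lit 10) (nat_lit 13))
    (@En.n l33760 (nat_lit 4395) (nat_lit 3) (nat_lit 6))
    (@En.n l22860 (nat_lit 6182) (nat_lit 12) (nat_lit 8))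
    (@En.n l33760 (nat_lit 3764) (nat_lit 7) (nat_lit 12))
    (@En.n l253 (nat_lit 9960) (nat_lit 6) (nat_lit 8))
    (@En.n l33761 (nat_lit 4350) (nat_lit 13) (nat_lit 3))
    (@En.n l3098 (nat_lit 4354) (nat_lit 0) (nat_lit 3))))
  (@Cl.mk (nat_lit 0x200080008000d0009000e00030002000b000800080007000d0005000e0003) (nat_lit 0x56b290071201060) (nat_lit 16) Lb.e (@T16.mk En
    (@En.n l117 (nat_lit 3913) (nat_lit 7) (nat_lit 3))
    (@En.n l12450 (nat_lit 12786) (nat_lit 0) (nat_lit 14))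
    (@En.n l2576 (nat_lit 2076) (nat_lit 2) (nat_lit 5))
    (@En.n l8907 (nat_lit 2953) (nat_lit 11) (nat_lit 13))
    (@En.n l644 (nat_lit 663) (nat_lit 4) (nat_lit 7))
    (@En.n l77 (nat_lit 3937) (nat_lit 13) (nat_lit 8))
    (@En.n l8907 (nat_lit 3959) (nat_lit 6) (nat_lit 8))
    (@En.i (nat_lit 7929) (nat_lit 8) (nat_lit 11))
    (@En.n l17 (nat_lit 3972) (nat_lit 8) (nat_lit 2))
    (@En.i (nat_lit 2080) (nat_lit 9) (nat_lit 3))
    (@En.n l1599 (nat_lit 13150) (nat_lit 0) (nat_lit 14))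
    (@En.n l1347 (nat_lit 2079) (nat_lit 12) (nat_lit 9))
    (@En.n l7843 (nat_lit 3017) (nat_lit 13) (nat_lit 13))
    (@En.n l17235 (nat_lit 3975) (nat_lit 8) (nat_lit 8))
    (@En.n l810 (nat_lit 4192) (nat_lit 5) (nat_lit 8))
    (@En.n l11 (nat_lit 3972) (nat_lit 15) (nat_lit 2))))
  (@Cl.mk (nat_lit 0x20008000d000d0007000300030008000d0008000e000300020009000e0008) (nat_lit 0x3460005b1a00722) (nat_lit 16) Lb.e (@T16.mk En
    (@En.n l22255 (nat_lit 3913) (nat_lit 13) (nat_lit 8))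
    (@En.i (nat_lit 4688) (nat_lit 1) (nat_lit 14))
    (@En.n l3531 (nat_lit 11226) (nat_lit 2) (nat_lit 9))
    (@En.n l50 (nat_lit 3973) (nat_lit 3) (nat_lit 2))
    (@En.i (nat_lit 3102) (nat_lit 4) (nat_lit 3))
    (@En.n l3531 (nat_lit 13259) (nat_lit 0) (nat_lit 14))
    (@En.i (nat_lit 3100) (nat_lit 6) (nat_lit 8))
    (@En.i (nat_lit 7030) (nat_lit 8) (nat_lit 13))
    (@En.n l1897 (nat_lit 3982) (nat_lit 4) (nat_lit 8))
    (@En.n l7126 (nat_lit 3977) (nat_lit 13) (nat_lit 3))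
    (@En.n l152 (nat_lit 3975) (nat_lit 10) (nat_lit 3))
    (@En.n l5588 (nat_lit 3976) (nat_lit 0) (nat_lit 7))
    (@En.n l619 (nat_lit 3975) (nat_lit 13) (nat_lit 13))
    (@En.i (nat_lit 5596) (nat_lit 10) (nat_lit 13))
    (@En.n l4661 (nat_lit 3526) (nat_lit 11) (nat_lit 8))
    (@En.n l17 (nat_lit 3973) (nat_lit 15) (nat_lit 2))))
  (@Cl.mk (nat_lit 0x20007000d0006000e000300020008000d000d000900030003000a000e0008) (nat_lit 0x10600500100721) (nat_lit 16) Lb.e (@T16.mk En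
    (@En.n l7257 (nat_lit 2080) (nat_lit 6) (nat_lit 8))
    (@En.i (nat_lit 4791) (nat_lit 8) (nat_lit 14))
    (@En.n l1251 (nat_lit 11233) (nat_lit 2) (nat_lit 10))
    (@En.n l17850 (nat_lit 3979) (nat_lit 3) (nat_lit 3))
    (@En.n l7 (nat_lit 3975) (nat_lit 4) (nat_lit 3))
    (@En.n l10299 (nat_lit 3094) (nat_lit 5) (nat_lit 9))
    (@En.n l644 (nat_lit 3975) (nat_lit 7) (nat_lit 13))
    (@En.i (nat_lit 7028) (nat_lit 8) (nat_lit 13))
    (@En.n l3340 (nat_lit 3984) (nat_lit 3) (nat_lit 8))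
    (@En.n l11 (nat_lit 3974) (nat_lit 9) (nat_lit 2))
    (@En.n l117 (nat_lit 3102) (nat_lit 10) (nat_lit 3))
    (@En.n l781 (nat_lit 12782) (nat_lit 0) (nat_lit 14))
    (@En.i (nat_lit 2075) (nat_lit 2) (nat_lit 6))
    (@En.i (nat_lit 2958) (nat_lit 14) (nat_lit 13))
    (@En.n l7260 (nat_lit 7221) (nat_lit 4) (nat_lit 7))
    (@En.n l17 (nat_lit 3974) (nat_lit 15) (nat_lit 2))))
  (@Cl.mk (nat_lit 0x20008000d0006000e000300020008000d0008000e00030002000a000e0008) (nat_lit 0x3506005b0a00722) (nat_lit 16) Lb.e (@T16.mk En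
    (@En.n l7257 (nat_lit 3972) (nat_lit 6) (nat_lit 8))
    (@En.i (nat_lit 4797) (nat_lit 8) (nat_lit 14))
    (@En.n l253 (nat_lit 11232) (nat_lit 2) (nat_lit 10))
    (@En.n l50 (nat_lit 3975) (nat_lit 3) (nat_lit 2))
    (@En.i (nat_lit 3974) (nat_lit 4) (nat_lit 3))
    (@En.n l12585 (nat_lit 13354) (nat_lit 0) (nat_lit 14))
    (@En.i (nat_lit 3976) (nat_lit 6) (nat_lit 8))
    (@En.i (nat_lit 7027) (nat_lit 8) (nat_lit 13))
    (@En.n l3340 (nat_lit 3983) (nat_lit 4) (nat_lit 8))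
    (@En.n l11 (nat_lit 3975) (nat_lit 9) (nat_lit 2))
    (@En.n l117 (nat_lit 3973) (nat_lit 10) (nat_lit 3))
    (@En.n l781 (nat_lit 12781) (nat_lit 0) (nat_lit 14))
    (@En.i (nat_lit 2077) (nat_lit 2) (nat_lit 6))
    (@En.i (nat_lit 5579) (nat_lit 10) (nat_lit 13))
    (@En.n l12585 (nat_lit 3527) (nat_lit 4) (nat_lit 8))
    (@En.n l17 (nat_lit 3975) (nat_lit 15) (nat_lit 2))))
  (@Cl.mk (nat_lit 0x200080007000d0007000e0003000200090008000e000900020009000e0007) (nat_lit 0x5060900564107a0) (nat_lit 16) Lb.e (@T16.mk En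
    (@En.n l6102 (nat_lit 2079) (nat_lit 7) (nat_lit 7))
    (@En.i (nat_lit 5809) (nat_lit 9) (nat_lit 14))
    (@En.n l13144 (nat_lit 6871) (nat_lit 2) (nat_lit 9))
    (@En.n l50 (nat_lit 3976) (nat_lit 3) (nat_lit 2))
    (@En.n l13139 (nat_lit 3099) (nat_lit 4) (nat_lit 9))
    (@En.n l13140 (nat_lit 2450) (nat_lit 6) (nat_lit 14))
    (@En.n l6105 (nat_lit 3977) (nat_lit 6) (nat_lit 8))
    (@En.n l3340 (nat_lit 5439) (nat_lit 3) (nat_lit 9))
    (@En.n l11 (nat_lit 3976) (nat_lit 8) (nat_lit 2))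
    (@En.n l117 (nat_lit 3100) (nat_lit 9) (nat_lit 3))
    (@En.n l781 (nat_lit 12960) (nat_lit 0) (nat_lit 14))
    (@En.n l6105 (nat_lit 1863) (nat_lit 2) (nat_lit 7))
    (@En.n l3213 (nat_lit 6471) (nat_lit 13) (nat_lit 13))
    (@En.n l77 (nat_lit 3974) (nat_lit 14) (nat_lit 7))
    (@En.n l12585 (nat_lit 3673) (nat_lit 5) (nat_lit 8))
    (@En.n l17 (nat_lit 3976) (nat_lit 15) (nat_lit 2))))
  (@Cl.mk (nat_lit 0x2000800030008000d0008000e000300020008000e000800020008000e000d) (nat_lit 0x105b1a005320525) (nat_lit 16) Lb.e (@T16.mk En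
    (@En.n l4270 (nat_lit 3973) (nat_lit 13) (nat_lit 13))
    (@En.n l7490 (nat_lit 5317) (nat_lit 10) (nat_lit 14))
    (@En.n l2650 (nat_lit 3528) (nat_lit 2) (nat_lit 8))
    (@En.n l11 (nat_lit 3977) (nat_lit 3) (nat_lit 2))
    (@En.n l21191 (nat_lit 3914) (nat_lit 4) (nat_lit 8))
    (@En.n l8566 (nat_lit 4689) (nat_lit 6) (nat_lit 14))
    (@En.i (nat_lit 11228) (nat_lit 2) (nat_lit 8))
    (@En.n l3 (nat_lit 3977) (nat_lit 7) (nat_lit 2))
    (@En.n l16824 (nat_lit 3103) (nat_lit 4) (nat_lit 3))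
    (@En.n l3219 (nat_lit 13256) (nat_lit 0) (nat_lit 14))
    (@En.i (nat_lit 3101) (nat_lit 2) (nat_lit 8))
    (@En.n l8566 (nat_lit 7066) (nat_lit 12) (nat_lit 13))
    (@En.n l7490 (nat_lit 7074) (nat_lit 4) (nat_lit 8))
    (@En.n l3749 (nat_lit 3973) (nat_lit 9) (nat_lit 3))
    (@En.i (nat_lit 3672) (nat_lit 0) (nat_lit 8))
    (@En.n l50 (nat_lit 3977) (nat_lit 15) (nat_lit 2))))
  (@Cl.mk (nat_lit 0x20006000d000d0007000300030008000e000d0002000a00030009000e0008) (nat_lit 0x46000571010721) (nat_lit 16) Lb.e (@T16.mk En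
    (@En.n l7562 (nat_lit 3915) (nat_lit 11) (nat_lit 8))
    (@En.n l4193 (nat_lit 4787) (nat_lit 12) (nat_lit 14))
    (@En.i (nat_lit 8112) (nat_lit 2) (nat_lit 9))
    (@En.n l8820 (nat_lit 3102) (nat_lit 3) (nat_lit 3))
    (@En.i (nat_lit 3105) (nat_lit 4) (nat_lit 10))
    (@En.n l50 (nat_lit 3978) (nat_lit 5) (nat_lit 2))
    (@En.n l7560 (nat_lit 3102) (nat_lit 7) (nat_lit 13))
    (@En.n l3815 (nat_lit 5122) (nat_lit 8) (nat_lit 14))
    (@En.n l810 (nat_lit 3985) (nat_lit 2) (nat_lit 8))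
    (@En.n l28 (nat_lit 3980) (nat_lit 9) (nat_lit 3))
    (@En.n l3706 (nat_lit 3979) (nat_lit 10) (nat_lit 3))
    (@En.i (nat_lit 3101) (nat_lit 12) (nat_lit 7))
    (@En.n l11105 (nat_lit 3979) (nat_lit 13) (nat_lit 13))
    (@En.n l725 (nat_lit 5583) (nat_lit 8) (nat_lit 13))
    (@En.n l11106 (nat_lit 4859) (nat_lit 8) (nat_lit 6))
    (@En.n l3 (nat_lit 3978) (nat_lit 15) (nat_lit 2))))
  (@Cl.mk (nat_lit 0x20006000d0006000e000300020008000e000d0002000a0003000a000e0008) (nat_lit 0x50000571020731) (nat_lit 16) Lb.e (@T16.mk En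
    (@En.n l7244 (nat_lit 3930) (nat_lit 6) (nat_lit 8))
    (@En.n l7235 (nat_lit 4789) (nat_lit 8) (nat_lit 14))
    (@En.n l7245 (nat_lit 12250) (nat_lit 2) (nat_lit 10))
    (@En.n l7246 (nat_lit 3974) (nat_lit 3) (nat_lit 3))
    (@En.i (nat_lit 3107) (nat_lit 4) (nat_lit 10))
    (@En.n l3 (nat_lit 3979) (nat_lit 5) (nat_lit 2))
    (@En.n l7247 (nat_lit 3974) (nat_lit 7) (nat_lit 13))
    (@En.n l7235 (nat_lit 5123) (nat_lit 8) (nat_lit 14))
    (@En.n l7233 (nat_lit 5428) (nat_lit 2) (nat_lit 8))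
    (@En.n l50 (nat_lit 3979) (nat_lit 9) (nat_lit 2))
    (@En.n l7234 (nat_lit 3978) (nat_lit 10) (nat_lit 3))
    (@En.n l7233 (nat_lit 12783) (nat_lit 0) (nat_lit 14))
    (@En.n l7248 (nat_lit 2074) (nat_lit 13) (nat_lit 6))
    (@En.n l7249 (nat_lit 5580) (nat_lit 8) (nat_lit 13))
    (@En.i (nat_lit 4858) (nat_lit 4) (nat_lit 6))
    (@En.n l2196 (nat_lit 3979) (nat_lit 15) (nat_lit 2))))
  (@Cl.mk (nat_lit 0x20006000e000d0002000800030008000e000d0002000a00030008000e0008) (nat_lit 0x250205710206b0) (nat_lit 16) Lb.e (@T16.mk En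
    (@En.n l7432 (nat_lit 3986) (nat_lit 4) (nat_lit 8))
    (@En.i (nat_lit 4788) (nat_lit 6) (nat_lit 14))
    (@En.i (nat_lit 8114) (nat_lit 2) (nat_lit 8))
    (@En.i (nat_lit 3103) (nat_lit 3) (nat_lit 3))
    (@En.i (nat_lit 3111) (nat_lit 4) (nat_lit 10))
    (@En.n l50 (nat_lit 3980) (nat_lit 5) (nat_lit 2))
    (@En.n l396 (nat_lit 3103) (nat_lit 7) (nat_lit 13))
    (@En.n l2544 (nat_lit 5121) (nat_lit 8) (nat_lit 14))
    (@En.i (nat_lit 7069) (nat_lit 2) (nat_lit 8))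
    (@En.i (nat_lit 3978) (nat_lit 9) (nat_lit 3))
    (@En.i (nat_lit 3670) (nat_lit 11) (nat_lit 8))
    (@En.n l11 (nat_lit 3980) (nat_lit 11) (nat_lit 2))
    (@En.n l1578 (nat_lit 3978) (nat_lit 13) (nat_lit 13))
    (@En.n l725 (nat_lit 5318) (nat_lit 8) (nat_lit 14))
    (@En.i (nat_lit 4860) (nat_lit 2) (nat_lit 6))
    (@En.n l3 (nat_lit 3980) (nat_lit 15) (nat_lit 2))))
  (@Cl.mk (nat_lit 0x300030008000d0008000c00030008000d0004000800030008000d000d0008) (nat_lit 0x6a200030204000) (nat_lit 16) Lb.e (@T16.mk En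
    (@En.i (nat_lit 5434) (nat_lit 0) (nat_lit 8))
    (@En.n l11408 (nat_lit 3982) (nat_lit 3) (nat_lit 13))
    (@En.n l11434 (nat_lit 10822) (nat_lit 9) (nat_lit 13))
    (@En.i (nat_lit 7073) (nat_lit 3) (nat_lit 8))
    (@En.n l20647 (nat_lit 3984) (nat_lit 4) (nat_lit 3))
    (@En.n l11792 (nat_lit 3102) (nat_lit 0) (nat_lit 8))
    (@En.n l23369 (nat_lit 5429) (nat_lit 6) (nat_lit 4))
    (@En.n l11434 (nat_lit 4365) (nat_lit 8) (nat_lit 13))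
    (@En.i (nat_lit 12151) (nat_lit 1) (nat_lit 8))
    (@En.n l25258 (nat_lit 5629) (nat_lit 9) (nat_lit 3))
    (@En.n l2038 (nat_lit 6976) (nat_lit 0) (nat_lit 12))
    (@En.n l32411 (nat_lit 4193) (nat_lit 12) (nat_lit 8))
    (@En.n l11434 (nat_lit 3927) (nat_lit 13) (nat_lit 13))
    (@En.i (nat_lit 10602) (nat_lit 3) (nat_lit 8))
    (@En.n l18 (nat_lit 3985) (nat_lit 13) (nat_lit 3))
    (@En.n l17134 (nat_lit 3982) (nat_lit 0) (nat_lit 3))))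
  (@Cl.mk (nat_lit 0x20008000d0008000c00030009000d0004000800030008000d0007000e0003) (nat_lit 0x6b000030204b000) (nat_lit 16) Lb.e (@T16.mk En
    (@En.n l16304 (nat_lit 3981) (nat_lit 15) (nat_lit 3))
    (@En.i (nat_lit 13137) (nat_lit 0) (nat_lit 14))
    (@En.n l16307 (nat_lit 5440) (nat_lit 2) (nat_lit 7))
    (@En.i (nat_lit 10820) (nat_lit 4) (nat_lit 13))
    (@En.n l27441 (nat_lit 7079) (nat_lit 4) (nat_lit 8))
    (@En.n l3348 (nat_lit 3983) (nat_lit 5) (nat_lit 3))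
    (@En.n l387 (nat_lit 3974) (nat_lit 0) (nat_lit 8))
    (@En.n l27442 (nat_lit 5431) (nat_lit 7) (nat_lit 4))
    (@En.i (nat_lit 4366) (nat_lit 9) (nat_lit 13))
    (@En.n l7507 (nat_lit 12128) (nat_lit 10) (nat_lit 9))
    (@En.n l1501 (nat_lit 5631) (nat_lit 10) (nat_lit 3))
    (@En.n l3348 (nat_lit 6975) (nat_lit 0) (nat_lit 12))
    (@En.n l12271 (nat_lit 4194) (nat_lit 13) (nat_lit 8))
    (@En.n l617 (nat_lit 7025) (nat_lit 14) (nat_lit 13))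
    (@En.i (nat_lit 10601) (nat_lit 3) (nat_lit 8))
    (@En.n l11 (nat_lit 3982) (nat_lit 15) (nat_lit 2))))
  (@Cl.mk (nat_lit 0x20009000d0008000b00030009000d0007000500030008000d0007000e0003) (nat_lit 0x92000300040000) (nat_lit 16) Lb.e (@T16.mk En
    (@En.i (nat_lit 3984) (nat_lit 15) (nat_lit 3))
    (@En.n l2916 (nat_lit 13632) (nat_lit 0) (nat_lit 14))
    (@En.i (nat_lit 5439) (nat_lit 2) (nat_lit 7))
    (@En.n l28715 (nat_lit 10823) (nat_lit 4) (nat_lit 13))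
    (@En.n l22493 (nat_lit 5431) (nat_lit 4) (nat_lit 8))
    (@En.n l5200 (nat_lit 3982) (nat_lit 5) (nat_lit 3))
    (@En.i (nat_lit 5931) (nat_lit 0) (nat_lit 5))
    (@En.n l24909 (nat_lit 1323) (nat_lit 7) (nat_lit 7))
    (@En.i (nat_lit 4369) (nat_lit 9) (nat_lit 13))
    (@En.n l197 (nat_lit 12156) (nat_lit 10) (nat_lit 9))
    (@En.n l8400 (nat_lit 5633) (nat_lit 10) (nat_lit 3))
    (@En.i (nat_lit 5832) (nat_lit 0) (nat_lit 11))
    (@En.n l17884 (nat_lit 4192) (nat_lit 13) (nat_lit 8))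
    (@En.n l645 (nat_lit 3919) (nat_lit 14) (nat_lit 13))
    (@En.n l9874 (nat_lit 10030) (nat_lit 3) (nat_lit 9))
    (@En.n l17 (nat_lit 3983) (nat_lit 15) (nat_lit 2))))
noncomputable def a249 : T16 Cl := @T16.mk Cl
  (@Cl.mk (nat_lit 0x300030009000d0008000b00030008000d0007000500030008000d000d0008) (nat_lit 0x9200030004010) (nat_lit 16) Lb.e (@T16.mk En
    (@En.n l11383 (nat_lit 5433) (nat_lit 0) (nat_lit 8))
    (@En.n l61 (nat_lit 3983) (nat_lit 3) (nat_lit 13))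
    (@En.n l17060 (nat_lit 10827) (nat_lit 9) (nat_lit 13))
    (@En.n l22493 (nat_lit 5429) (nat_lit 3) (nat_lit 8))
    (@En.n l33625 (nat_lit 3981) (nat_lit 4) (nat_lit 3))
    (@En.i (nat_lit 5875) (nat_lit 0) (nat_lit 5))
    (@En.n l33626 (nat_lit 1319) (nat_lit 6) (nat_lit 7))
    (@En.i (nat_lit 2332) (nat_lit 8) (nat_lit 13))
    (@En.n l3522 (nat_lit 12152) (nat_lit 3) (nat_lit 8))
    (@En.n l33627 (nat_lit 5632) (nat_lit 9) (nat_lit 3))
    (@En.i (nat_lit 5829) (nat_lit 0) (nat_lit 11))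
    (@En.n l17884 (nat_lit 4191) (nat_lit 12) (nat_lit 8))
    (@En.n l3471 (nat_lit 3920) (nat_lit 13) (nat_lit 13))
    (@En.n l28472 (nat_lit 10033) (nat_lit 3) (nat_lit 9))
    (@En.n l11382 (nat_lit 5428) (nat_lit 13) (nat_lit 3))
    (@En.n l18 (nat_lit 3983) (nat_lit 0) (nat_lit 3))))
  (@Cl.mk (nat_lit 0x2000900030008000d0008000c00030007000d0004000800030008000e000d) (nat_lit 0x206a00001010401) (nat_lit 16) Lb.e (@T16.mk En
    (@En.n l396 (nat_lit 3981) (nat_lit 2) (nat_lit 13))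
    (@En.n l476 (nat_lit 10329) (nat_lit 1) (nat_lit 14))
    (@En.i (nat_lit 7070) (nat_lit 2) (nat_lit 8))
    (@En.n l4108 (nat_lit 5428) (nat_lit 3) (nat_lit 3))
    (@En.n l649 (nat_lit 3103) (nat_lit 0) (nat_lit 8))
    (@En.n l10969 (nat_lit 5430) (nat_lit 5) (nat_lit 4))
    (@En.n l2125 (nat_lit 2331) (nat_lit 7) (nat_lit 13))
    (@En.i (nat_lit 4289) (nat_lit 7) (nat_lit 7))
    (@En.n l1865 (nat_lit 5630) (nat_lit 8) (nat_lit 3))
    (@En.n l2038 (nat_lit 6978) (nat_lit 0) (nat_lit 12))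
    (@En.i (nat_lit 4195) (nat_lit 11) (nat_lit 8))
    (@En.n l3593 (nat_lit 7108) (nat_lit 12) (nat_lit 13))
    (@En.i (nat_lit 8099) (nat_lit 13) (nat_lit 8))
    (@En.i (nat_lit 3981) (nat_lit 14) (nat_lit 3))
    (@En.i (nat_lit 5358) (nat_lit 0) (nat_lit 9))
    (@En.n l50 (nat_lit 3985) (nat_lit 15) (nat_lit 2))))
  (@Cl.mk (nat_lit 0x20007000300080008000e000d0002000b00030009000800080005000e000d) (nat_lit 0x46720306660a2) (nat_lit 16) Lb.e (@T16.mk En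
    (@En.i (nat_lit 3915) (nat_lit 8) (nat_lit 13))
    (@En.i (nat_lit 5321) (nat_lit 9) (nat_lit 14))
    (@En.n l3219 (nat_lit 3899) (nat_lit 2) (nat_lit 5))
    (@En.n l55 (nat_lit 3939) (nat_lit 3) (nat_lit 8))
    (@En.i (nat_lit 4001) (nat_lit 12) (nat_lit 8))
    (@En.n l982 (nat_lit 8115) (nat_lit 5) (nat_lit 9))
    (@En.i (nat_lit 3912) (nat_lit 6) (nat_lit 3))
    (@En.i (nat_lit 3118) (nat_lit 8) (nat_lit 11))
    (@En.n l50 (nat_lit 3986) (nat_lit 8) (nat_lit 2))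
    (@En.n l396 (nat_lit 3912) (nat_lit 10) (nat_lit 13))
    (@En.n l4316 (nat_lit 3008) (nat_lit 11) (nat_lit 14))
    (@En.n l4494 (nat_lit 3980) (nat_lit 8) (nat_lit 8))
    (@En.n l982 (nat_lit 3988) (nat_lit 13) (nat_lit 8))
    (@En.n l117 (nat_lit 3915) (nat_lit 4) (nat_lit 3))
    (@En.i (nat_lit 4159) (nat_lit 0) (nat_lit 7))
    (@En.n l3 (nat_lit 3986) (nat_lit 15) (nat_lit 2))))
  (@Cl.mk (nat_lit 0x2000800080007000d000d00090003000300080008000c00090007000e0004) (nat_lit 0x2300010000470a0) (nat_lit 16) Lb.e (@T16.mk En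
    (@En.n l22691 (nat_lit 3990) (nat_lit 7) (nat_lit 4))
    (@En.n l5583 (nat_lit 3913) (nat_lit 1) (nat_lit 14))
    (@En.i (nat_lit 4757) (nat_lit 2) (nat_lit 7))
    (@En.n l1448 (nat_lit 4134) (nat_lit 3) (nat_lit 9))
    (@En.n l30600 (nat_lit 3971) (nat_lit 12) (nat_lit 12))
    (@En.n l61 (nat_lit 3992) (nat_lit 8) (nat_lit 8))
    (@En.n l5579 (nat_lit 10880) (nat_lit 6) (nat_lit 8))
    (@En.n l8088 (nat_lit 3988) (nat_lit 7) (nat_lit 3))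
    (@En.n l5870 (nat_lit 3989) (nat_lit 8) (nat_lit 3))
    (@En.n l55 (nat_lit 3173) (nat_lit 10) (nat_lit 9))
    (@En.n l2691 (nat_lit 3989) (nat_lit 11) (nat_lit 13))
    (@En.n l5579 (nat_lit 4518) (nat_lit 12) (nat_lit 13))
    (@En.n l30601 (nat_lit 7072) (nat_lit 13) (nat_lit 7))
    (@En.n l30602 (nat_lit 3991) (nat_lit 14) (nat_lit 8))
    (@En.n l6301 (nat_lit 1604) (nat_lit 5) (nat_lit 8))
    (@En.n l50 (nat_lit 3987) (nat_lit 15) (nat_lit 2))))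
  (@Cl.mk (nat_lit 0x2000800080007000e000d0002000a000300080008000c00090006000e0004) (nat_lit 0x2303100000870a0) (nat_lit 16) Lb.e (@T16.mk En
    (@En.n l1992 (nat_lit 3995) (nat_lit 6) (nat_lit 4))
    (@En.n l725 (nat_lit 3914) (nat_lit 8) (nat_lit 14))
    (@En.n l3593 (nat_lit 4758) (nat_lit 2) (nat_lit 6))
    (@En.n l25671 (nat_lit 4136) (nat_lit 3) (nat_lit 9))
    (@En.n l6914 (nat_lit 4350) (nat_lit 11) (nat_lit 12))
    (@En.n l7432 (nat_lit 3993) (nat_lit 8) (nat_lit 8))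
    (@En.n l4817 (nat_lit 8729) (nat_lit 6) (nat_lit 8))
    (@En.n l3593 (nat_lit 3987) (nat_lit 7) (nat_lit 3))
    (@En.i (nat_lit 4834) (nat_lit 0) (nat_lit 10))
    (@En.n l50 (nat_lit 3988) (nat_lit 9) (nat_lit 2))
    (@En.n l3584 (nat_lit 3987) (nat_lit 11) (nat_lit 13))
    (@En.n l4817 (nat_lit 3394) (nat_lit 12) (nat_lit 14))
    (@En.n l1769 (nat_lit 7071) (nat_lit 2) (nat_lit 7))
    (@En.n l14576 (nat_lit 4826) (nat_lit 14) (nat_lit 8))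
    (@En.n l5891 (nat_lit 1601) (nat_lit 4) (nat_lit 8))
    (@En.n l11 (nat_lit 3988) (nat_lit 15) (nat_lit 2))))
  (@Cl.mk (nat_lit 0x2000800080007000d0008000e0003000200080008000c00090008000e0004) (nat_lit 0x330b090000904a0) (nat_lit 16) Lb.e (@T16.mk En
    (@En.n l3525 (nat_lit 3998) (nat_lit 8) (nat_lit 4))
    (@En.n l29030 (nat_lit 3972) (nat_lit 10) (nat_lit 14))
    (@En.n l1769 (nat_lit 4799) (nat_lit 2) (nat_lit 8))
    (@En.n l22226 (nat_lit 4135) (nat_lit 3) (nat_lit 9))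
    (@En.n l1353 (nat_lit 4354) (nat_lit 13) (nat_lit 12))
    (@En.n l61 (nat_lit 3999) (nat_lit 14) (nat_lit 8))
    (@En.n l5891 (nat_lit 10879) (nat_lit 6) (nat_lit 8))
    (@En.n l11 (nat_lit 3989) (nat_lit 7) (nat_lit 2))
    (@En.n l1992 (nat_lit 3987) (nat_lit 8) (nat_lit 3))
    (@En.n l2038 (nat_lit 13958) (nat_lit 0) (nat_lit 14))
    (@En.n l2576 (nat_lit 4782) (nat_lit 2) (nat_lit 8))
    (@En.i (nat_lit 4519) (nat_lit 12) (nat_lit 13))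
    (@En.n l29031 (nat_lit 7078) (nat_lit 4) (nat_lit 7))
    (@En.n l29032 (nat_lit 4804) (nat_lit 14) (nat_lit 8))
    (@En.n l22484 (nat_lit 4464) (nat_lit 6) (nat_lit 8))
    (@En.n l50 (nat_lit 3989) (nat_lit 15) (nat_lit 2))))
  (@Cl.mk (nat_lit 0x3000300080008000c000c000a000800040004000800080006000d000d0008) (nat_lit 0x357500250502) (nat_lit 16) Lb.e (@T16.mk En
    (@En.n l25043 (nat_lit 3167) (nat_lit 0) (nat_lit 8))
    (@En.n l61 (nat_lit 3998) (nat_lit 3) (nat_lit 13))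
    (@En.n l38297 (nat_lit 4521) (nat_lit 2) (nat_lit 13))
    (@En.n l25043 (nat_lit 7077) (nat_lit 3) (nat_lit 6))
    (@En.n l152 (nat_lit 4593) (nat_lit 8) (nat_lit 8))
    (@En.n l117 (nat_lit 4199) (nat_lit 5) (nat_lit 8))
    (@En.n l575 (nat_lit 4882) (nat_lit 12) (nat_lit 4))
    (@En.n l38298 (nat_lit 3627) (nat_lit 7) (nat_lit 4))
    (@En.n l11405 (nat_lit 4677) (nat_lit 0) (nat_lit 8))
    (@En.n l17285 (nat_lit 3257) (nat_lit 10) (nat_lit 10))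
    (@En.n l38299 (nat_lit 3987) (nat_lit 4) (nat_lit 12))
    (@En.n l33766 (nat_lit 4184) (nat_lit 12) (nat_lit 12))
    (@En.n l38300 (nat_lit 3996) (nat_lit 8) (nat_lit 8))
    (@En.n l38297 (nat_lit 9165) (nat_lit 14) (nat_lit 8))
    (@En.n l38301 (nat_lit 3995) (nat_lit 13) (nat_lit 3))
    (@En.n l18 (nat_lit 3998) (nat_lit 0) (nat_lit 3))))
  (@Cl.mk (nat_lit 0x200080006000d000d000800030003000e00080002000c000a0008000e0004) (nat_lit 0x2018200c10675b0) (nat_lit 16) Lb.e (@T16.mk En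
    (@En.n l38818 (nat_lit 4593) (nat_lit 10) (nat_lit 4))
    (@En.n l11706 (nat_lit 3935) (nat_lit 1) (nat_lit 14))
    (@En.n l34389 (nat_lit 4727) (nat_lit 2) (nat_lit 8))
    (@En.n l2863 (nat_lit 4661) (nat_lit 3) (nat_lit 10))
    (@En.n l38819 (nat_lit 4193) (nat_lit 11) (nat_lit 12))
    (@En.n l28 (nat_lit 3991) (nat_lit 5) (nat_lit 2))
    (@En.n l32597 (nat_lit 3987) (nat_lit 6) (nat_lit 8))
    (@En.n l11245 (nat_lit 11131) (nat_lit 1) (nat_lit 14))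
    (@En.n l152 (nat_lit 4826) (nat_lit 8) (nat_lit 3))
    (@En.n l38820 (nat_lit 4804) (nat_lit 9) (nat_lit 3))
    (@En.n l97 (nat_lit 4827) (nat_lit 11) (nat_lit 8))
    (@En.n l38821 (nat_lit 4804) (nat_lit 12) (nat_lit 13))
    (@En.n l11706 (nat_lit 3400) (nat_lit 13) (nat_lit 13))
    (@En.i (nat_lit 5122) (nat_lit 14) (nat_lit 6))
    (@En.n l38822 (nat_lit 3042) (nat_lit 4) (nat_lit 8))
    (@En.n l18 (nat_lit 3991) (nat_lit 15) (nat_lit 2))))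
  (@Cl.mk (nat_lit 0x20008000d000d000a000300030008000c00080006000e00040002000e0008) (nat_lit 0x4120006860b0053) (nat_lit 16) Lb.e (@T16.mk En
    (@En.i (nat_lit 3987) (nat_lit 14) (nat_lit 8))
    (@En.i (nat_lit 1053) (nat_lit 1) (nat_lit 14))
    (@En.n l50 (nat_lit 3992) (nat_lit 2) (nat_lit 2))
    (@En.i (nat_lit 3996) (nat_lit 3) (nat_lit 4))
    (@En.n l1596 (nat_lit 3973) (nat_lit 5) (nat_lit 14))
    (@En.i (nat_lit 4693) (nat_lit 5) (nat_lit 6))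
    (@En.n l1448 (nat_lit 5814) (nat_lit 6) (nat_lit 8))
    (@En.i (nat_lit 3763) (nat_lit 8) (nat_lit 12))
    (@En.n l5579 (nat_lit 10876) (nat_lit 5) (nat_lit 8))
    (@En.n l6303 (nat_lit 3993) (nat_lit 9) (nat_lit 3))
    (@En.n l5870 (nat_lit 3999) (nat_lit 0) (nat_lit 3))
    (@En.n l55 (nat_lit 5251) (nat_lit 12) (nat_lit 10))
    (@En.n l2691 (nat_lit 3999) (nat_lit 3) (nat_lit 13))
    (@En.n l5579 (nat_lit 3417) (nat_lit 14) (nat_lit 13))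
    (@En.i (nat_lit 3530) (nat_lit 12) (nat_lit 8))
    (@En.n l17 (nat_lit 3992) (nat_lit 15) (nat_lit 2))))
  (@Cl.mk (nat_lit 0x20008000e000d0002000b00030008000c00080005000e00040002000e0008) (nat_lit 0x4420006860b00a3) (nat_lit 16) Lb.e (@T16.mk En
    (@En.n l31335 (nat_lit 3988) (nat_lit 14) (nat_lit 8))
    (@En.i (nat_lit 1058) (nat_lit 1) (nat_lit 14))
    (@En.n l3 (nat_lit 3993) (nat_lit 2) (nat_lit 2))
    (@En.n l16824 (nat_lit 3994) (nat_lit 3) (nat_lit 4))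
    (@En.i (nat_lit 3977) (nat_lit 9) (nat_lit 14))
    (@En.n l3219 (nat_lit 4690) (nat_lit 9) (nat_lit 5))
    (@En.i (nat_lit 5816) (nat_lit 6) (nat_lit 8))
    (@En.n l3219 (nat_lit 3765) (nat_lit 8) (nat_lit 12))
    (@En.n l3213 (nat_lit 7449) (nat_lit 13) (nat_lit 8))
    (@En.n l3219 (nat_lit 3992) (nat_lit 9) (nat_lit 3))
    (@En.i (nat_lit 5231) (nat_lit 0) (nat_lit 11))
    (@En.n l50 (nat_lit 3993) (nat_lit 11) (nat_lit 2))
    (@En.n l3212 (nat_lit 3992) (nat_lit 13) (nat_lit 13))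
    (@En.n l3213 (nat_lit 3440) (nat_lit 1) (nat_lit 14))
    (@En.n l2650 (nat_lit 7696) (nat_lit 12) (nat_lit 8))
    (@En.n l11 (nat_lit 3993) (nat_lit 15) (nat_lit 2))))
  (@Cl.mk (nat_lit 0x20007000e000d0002000a00030008000c000c0009000600040004000e0008) (nat_lit 0x200000997000a2) (nat_lit 16) Lb.e (@T16.mk En
    (@En.n l6080 (nat_lit 3995) (nat_lit 4) (nat_lit 8))
    (@En.n l18627 (nat_lit 4159) (nat_lit 1) (nat_lit 14))
    (@En.n l2172 (nat_lit 4886) (nat_lit 2) (nat_lit 4))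
    (@En.i (nat_lit 5547) (nat_lit 3) (nat_lit 4))
    (@En.n l3541 (nat_lit 4694) (nat_lit 8) (nat_lit 6))
    (@En.n l742 (nat_lit 5543) (nat_lit 5) (nat_lit 9))
    (@En.n l25107 (nat_lit 3993) (nat_lit 7) (nat_lit 12))
    (@En.n l3541 (nat_lit 3264) (nat_lit 8) (nat_lit 12))
    (@En.n l5911 (nat_lit 7455) (nat_lit 13) (nat_lit 8))
    (@En.n l3541 (nat_lit 3996) (nat_lit 9) (nat_lit 3))
    (@En.i (nat_lit 5228) (nat_lit 0) (nat_lit 10))
    (@En.n l11 (nat_lit 3994) (nat_lit 11) (nat_lit 2))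
    (@En.n l25108 (nat_lit 3996) (nat_lit 13) (nat_lit 13))
    (@En.n l5911 (nat_lit 3441) (nat_lit 1) (nat_lit 14))
    (@En.i (nat_lit 7118) (nat_lit 2) (nat_lit 7))
    (@En.n l3 (nat_lit 3994) (nat_lit 15) (nat_lit 2))))
  (@Cl.mk (nat_lit 0x20009000300080008000c000c000a000700040004000800080006000e000d) (nat_lit 0x1290000130a6) (nat_lit 16) Lb.e (@T16.mk En
    (@En.n l27258 (nat_lit 3990) (nat_lit 2) (nat_lit 13))
    (@En.n l5582 (nat_lit 3370) (nat_lit 1) (nat_lit 14))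
    (@En.i (nat_lit 7076) (nat_lit 2) (nat_lit 6))
    (@En.n l27259 (nat_lit 4594) (nat_lit 3) (nat_lit 8))
    (@En.n l26670 (nat_lit 1605) (nat_lit 4) (nat_lit 8))
    (@En.n l5760 (nat_lit 4883) (nat_lit 5) (nat_lit 4))
    (@En.n l18752 (nat_lit 3635) (nat_lit 6) (nat_lit 4))
    (@En.n l936 (nat_lit 4734) (nat_lit 7) (nat_lit 7))
    (@En.n l19122 (nat_lit 5640) (nat_lit 9) (nat_lit 10))
    (@En.n l2691 (nat_lit 3988) (nat_lit 4) (nat_lit 12))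
    (@En.n l2824 (nat_lit 4185) (nat_lit 11) (nat_lit 12))
    (@En.n l14256 (nat_lit 3994) (nat_lit 8) (nat_lit 8))
    (@En.i (nat_lit 8722) (nat_lit 13) (nat_lit 8))
    (@En.n l27260 (nat_lit 3990) (nat_lit 14) (nat_lit 3))
    (@En.i (nat_lit 4836) (nat_lit 0) (nat_lit 9))
    (@En.n l50 (nat_lit 3995) (nat_lit 15) (nat_lit 2))))
  (@Cl.mk (nat_lit 0x20007000d000d0009000300030008000c000c0009000700040004000e0008) (nat_lit 0xb02006897000b3) (nat_lit 16) Lb.e (@T16.mk En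
    (@En.n l22691 (nat_lit 3990) (nat_lit 5) (nat_lit 8))
    (@En.n l1592 (nat_lit 4155) (nat_lit 1) (nat_lit 14))
    (@En.n l22692 (nat_lit 4885) (nat_lit 2) (nat_lit 4))
    (@En.n l16501 (nat_lit 5548) (nat_lit 3) (nat_lit 4))
    (@En.i (nat_lit 4692) (nat_lit 4) (nat_lit 7))
    (@En.n l16504 (nat_lit 5544) (nat_lit 5) (nat_lit 9))
    (@En.n l644 (nat_lit 3992) (nat_lit 7) (nat_lit 12))
    (@En.i (nat_lit 3260) (nat_lit 8) (nat_lit 12))
    (@En.n l10008 (nat_lit 10251) (nat_lit 14) (nat_lit 8))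
    (@En.n l22693 (nat_lit 3994) (nat_lit 9) (nat_lit 3))
    (@En.n l5870 (nat_lit 3997) (nat_lit 10) (nat_lit 3))
    (@En.i (nat_lit 3170) (nat_lit 12) (nat_lit 9))
    (@En.n l2691 (nat_lit 3997) (nat_lit 13) (nat_lit 13))
    (@En.n l10008 (nat_lit 4700) (nat_lit 14) (nat_lit 13))
    (@En.n l16501 (nat_lit 7119) (nat_lit 3) (nat_lit 7))
    (@En.n l17 (nat_lit 3996) (nat_lit 15) (nat_lit 2))))
  (@Cl.mk (nat_lit 0x20007000d0008000e000300020008000c000c0009000800040004000e0008) (nat_lit 0xb09000320400b3) (nat_lit 16) Lb.e (@T16.mk En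
    (@En.n l3525 (nat_lit 3998) (nat_lit 6) (nat_lit 8))
    (@En.i (nat_lit 4158) (nat_lit 1) (nat_lit 14))
    (@En.n l9880 (nat_lit 4887) (nat_lit 2) (nat_lit 4))
    (@En.n l7 (nat_lit 5552) (nat_lit 3) (nat_lit 4))
    (@En.n l1769 (nat_lit 4792) (nat_lit 11) (nat_lit 8))
    (@En.i (nat_lit 5549) (nat_lit 5) (nat_lit 9))
    (@En.n l644 (nat_lit 3999) (nat_lit 13) (nat_lit 12))
    (@En.i (nat_lit 3262) (nat_lit 8) (nat_lit 12))
    (@En.n l3528 (nat_lit 10250) (nat_lit 14) (nat_lit 8))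
    (@En.n l11 (nat_lit 3997) (nat_lit 9) (nat_lit 2))
    (@En.n l1992 (nat_lit 3996) (nat_lit 10) (nat_lit 3))
    (@En.n l619 (nat_lit 13939) (nat_lit 0) (nat_lit 14))
    (@En.n l2576 (nat_lit 4891) (nat_lit 2) (nat_lit 8))
    (@En.i (nat_lit 4701) (nat_lit 14) (nat_lit 13))
    (@En.n l7260 (nat_lit 7121) (nat_lit 4) (nat_lit 7))
    (@En.n l17 (nat_lit 3997) (nat_lit 15) (nat_lit 2))))
  (@Cl.mk (nat_lit 0x200080008000c000c000a000900040004000800080006000d0007000e0003) (nat_lit 0x14a7500220b080) (nat_lit 16) Lb.e (@T16.mk En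
    (@En.i (nat_lit 3990) (nat_lit 15) (nat_lit 3))
    (@En.i (nat_lit 13335) (nat_lit 0) (nat_lit 14))
    (@En.n l7 (nat_lit 4892) (nat_lit 2) (nat_lit 7))
    (@En.n l9927 (nat_lit 4520) (nat_lit 4) (nat_lit 13))
    (@En.n l7 (nat_lit 7164) (nat_lit 4) (nat_lit 6))
    (@En.n l152 (nat_lit 4595) (nat_lit 8) (nat_lit 8))
    (@En.n l117 (nat_lit 4462) (nat_lit 6) (nat_lit 8))
    (@En.n l575 (nat_lit 4884) (nat_lit 7) (nat_lit 4))
    (@En.n l17089 (nat_lit 3633) (nat_lit 8) (nat_lit 4))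
    (@En.n l11881 (nat_lit 4795) (nat_lit 10) (nat_lit 9))
    (@En.n l1578 (nat_lit 5638) (nat_lit 11) (nat_lit 10))
    (@En.n l9957 (nat_lit 3989) (nat_lit 4) (nat_lit 12))
    (@En.n l22688 (nat_lit 4186) (nat_lit 13) (nat_lit 12))
    (@En.n l3692 (nat_lit 3997) (nat_lit 8) (nat_lit 8))
    (@En.i (nat_lit 9164) (nat_lit 14) (nat_lit 8))
    (@En.n l17 (nat_lit 3998) (nat_lit 15) (nat_lit 2))))
  (@Cl.mk (nat_lit 0x20008000c00080007000e00040002000e000800020008000d0009000e0003) (nat_lit 0x6130b0054041000) (nat_lit 16) Lb.e (@T16.mk En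
    (@En.n l1992 (nat_lit 3992) (nat_lit 10) (nat_lit 3))
    (@En.n l2038 (nat_lit 13968) (nat_lit 0) (nat_lit 14))
    (@En.n l2576 (nat_lit 4776) (nat_lit 2) (nat_lit 9))
    (@En.i (nat_lit 3416) (nat_lit 14) (nat_lit 13))
    (@En.n l12585 (nat_lit 3537) (nat_lit 12) (nat_lit 8))
    (@En.n l17 (nat_lit 3999) (nat_lit 5) (nat_lit 2))
    (@En.i (nat_lit 3989) (nat_lit 14) (nat_lit 8))
    (@En.n l476 (nat_lit 1056) (nat_lit 1) (nat_lit 14))
    (@En.n l50 (nat_lit 3999) (nat_lit 8) (nat_lit 2))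
    (@En.i (nat_lit 3997) (nat_lit 3) (nat_lit 4))
    (@En.n l476 (nat_lit 3975) (nat_lit 5) (nat_lit 14))
    (@En.n l1769 (nat_lit 4796) (nat_lit 12) (nat_lit 7))
    (@En.i (nat_lit 5815) (nat_lit 6) (nat_lit 8))
    (@En.i (nat_lit 3766) (nat_lit 8) (nat_lit 12))
    (@En.n l5891 (nat_lit 10875) (nat_lit 5) (nat_lit 8))
    (@En.n l11 (nat_lit 3999) (nat_lit 15) (nat_lit 2))))
noncomputable def a250 : T16 Cl := @T16.mk Cl
  (@Cl.mk (nat_lit 0x2000c0003000900070004000e000c0002000d0007000400030009000e000d) (nat_lit 0x40600c301000791) (nat_lit 16) Lb.e (@T16.mk En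
    (@En.n l396 (nat_lit 3689) (nat_lit 9) (nat_lit 13))
    (@En.n l4316 (nat_lit 1217) (nat_lit 1) (nat_lit 14))
    (@En.n l287 (nat_lit 4006) (nat_lit 11) (nat_lit 9))
    (@En.n l11 (nat_lit 4001) (nat_lit 3) (nat_lit 3))
    (@En.n l6442 (nat_lit 3770) (nat_lit 0) (nat_lit 4))
    (@En.i (nat_lit 3986) (nat_lit 14) (nat_lit 7))
    (@En.n l615 (nat_lit 552) (nat_lit 7) (nat_lit 13))
    (@En.n l3 (nat_lit 4000) (nat_lit 7) (nat_lit 2))
    (@En.i (nat_lit 3774) (nat_lit 9) (nat_lit 12))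
    (@En.i (nat_lit 7019) (nat_lit 1) (nat_lit 14))
    (@En.n l6442 (nat_lit 3893) (nat_lit 10) (nat_lit 4))
    (@En.i (nat_lit 3808) (nat_lit 12) (nat_lit 7))
    (@En.n l10459 (nat_lit 7991) (nat_lit 4) (nat_lit 9))
    (@En.i (nat_lit 3689) (nat_lit 5) (nat_lit 3))
    (@En.i (nat_lit 853) (nat_lit 0) (nat_lit 12))
    (@En.n l50 (nat_lit 4000) (nat_lit 15) (nat_lit 2))))
  (@Cl.mk (nat_lit 0x2000c0003000800070004000e000d0002000d0003000800030009000e000d) (nat_lit 0x40500a402040791) (nat_lit 16) Lb.e (@T16.mk En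
    (@En.n l396 (nat_lit 3686) (nat_lit 9) (nat_lit 13))
    (@En.n l4316 (nat_lit 1216) (nat_lit 1) (nat_lit 14))
    (@En.n l2650 (nat_lit 4736) (nat_lit 11) (nat_lit 9))
    (@En.i (nat_lit 4000) (nat_lit 3) (nat_lit 3))
    (@En.i (nat_lit 3993) (nat_lit 0) (nat_lit 8))
    (@En.n l117 (nat_lit 3965) (nat_lit 5) (nat_lit 3))
    (@En.i (nat_lit 553) (nat_lit 0) (nat_lit 13))
    (@En.n l3 (nat_lit 4001) (nat_lit 7) (nat_lit 2))
    (@En.i (nat_lit 3965) (nat_lit 9) (nat_lit 13))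
    (@En.i (nat_lit 7023) (nat_lit 1) (nat_lit 14))
    (@En.n l3219 (nat_lit 3892) (nat_lit 10) (nat_lit 4))
    (@En.i (nat_lit 3811) (nat_lit 12) (nat_lit 7))
    (@En.n l3213 (nat_lit 6967) (nat_lit 4) (nat_lit 8))
    (@En.i (nat_lit 3686) (nat_lit 5) (nat_lit 3))
    (@En.i (nat_lit 854) (nat_lit 0) (nat_lit 12))
    (@En.n l50 (nat_lit 4001) (nat_lit 15) (nat_lit 2))))
  (@Cl.mk (nat_lit 0x20005000d000400090003000e000d0002000c00030007000b0004000e000c) (nat_lit 0x30500000006092) (nat_lit 16) Lb.e (@T16.mk En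
    (@En.i (nat_lit 7266) (nat_lit 9) (nat_lit 12))
    (@En.i (nat_lit 7270) (nat_lit 1) (nat_lit 14))
    (@En.i (nat_lit 8845) (nat_lit 2) (nat_lit 4))
    (@En.i (nat_lit 3550) (nat_lit 3) (nat_lit 11))
    (@En.i (nat_lit 7064) (nat_lit 4) (nat_lit 7))
    (@En.i (nat_lit 4004) (nat_lit 5) (nat_lit 3))
    (@En.i (nat_lit 7592) (nat_lit 0) (nat_lit 12))
    (@En.n l7 (nat_lit 4002) (nat_lit 7) (nat_lit 2))
    (@En.n l601 (nat_lit 4004) (nat_lit 9) (nat_lit 13))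
    (@En.i (nat_lit 5983) (nat_lit 10) (nat_lit 14))
    (@En.i (nat_lit 4003) (nat_lit 10) (nat_lit 3))
    (@En.i (nat_lit 4728) (nat_lit 12) (nat_lit 9))
    (@En.n l117 (nat_lit 7265) (nat_lit 4) (nat_lit 4))
    (@En.n l1722 (nat_lit 4001) (nat_lit 6) (nat_lit 13))
    (@En.i (nat_lit 2774) (nat_lit 6) (nat_lit 5))
    (@En.n l3 (nat_lit 4002) (nat_lit 15) (nat_lit 2))))
  (@Cl.mk (nat_lit 0x20005000d000800050003000e000d0002000c00030008000b0004000e000b) (nat_lit 0x24000000066070) (nat_lit 16) Lb.e (@T16.mk En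
    (@En.i (nat_lit 7365) (nat_lit 9) (nat_lit 11))
    (@En.i (nat_lit 4013) (nat_lit 1) (nat_lit 14))
    (@En.i (nat_lit 8844) (nat_lit 2) (nat_lit 4))
    (@En.i (nat_lit 3554) (nat_lit 3) (nat_lit 11))
    (@En.i (nat_lit 10986) (nat_lit 4) (nat_lit 8))
    (@En.i (nat_lit 4005) (nat_lit 5) (nat_lit 3))
    (@En.i (nat_lit 7588) (nat_lit 7) (nat_lit 12))
    (@En.n l7 (nat_lit 4003) (nat_lit 7) (nat_lit 2))
    (@En.n l601 (nat_lit 4005) (nat_lit 9) (nat_lit 13))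
    (@En.n l287 (nat_lit 8553) (nat_lit 10) (nat_lit 14))
    (@En.n l11 (nat_lit 4002) (nat_lit 10) (nat_lit 3))
    (@En.i (nat_lit 4616) (nat_lit 3) (nat_lit 5))
    (@En.i (nat_lit 4006) (nat_lit 13) (nat_lit 8))
    (@En.n l1722 (nat_lit 4000) (nat_lit 6) (nat_lit 13))
    (@En.i (nat_lit 2772) (nat_lit 6) (nat_lit 5))
    (@En.n l3 (nat_lit 4003) (nat_lit 15) (nat_lit 2))))
  (@Cl.mk (nat_lit 0x20005000d000400090003000d000d000b000300030007000b0005000e000c) (nat_lit 0x3050b000006072) (nat_lit 16) Lb.e (@T16.mk En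
    (@En.n l4172 (nat_lit 7267) (nat_lit 10) (nat_lit 12))
    (@En.i (nat_lit 7271) (nat_lit 1) (nat_lit 14))
    (@En.n l3348 (nat_lit 8846) (nat_lit 2) (nat_lit 5))
    (@En.i (nat_lit 3547) (nat_lit 3) (nat_lit 11))
    (@En.i (nat_lit 7634) (nat_lit 4) (nat_lit 7))
    (@En.n l50 (nat_lit 4002) (nat_lit 5) (nat_lit 3))
    (@En.i (nat_lit 4009) (nat_lit 6) (nat_lit 3))
    (@En.i (nat_lit 7585) (nat_lit 8) (nat_lit 11))
    (@En.n l601 (nat_lit 4009) (nat_lit 9) (nat_lit 13))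
    (@En.i (nat_lit 12464) (nat_lit 10) (nat_lit 13))
    (@En.i (nat_lit 4005) (nat_lit 10) (nat_lit 3))
    (@En.i (nat_lit 4672) (nat_lit 12) (nat_lit 9))
    (@En.n l117 (nat_lit 7230) (nat_lit 5) (nat_lit 4))
    (@En.n l1722 (nat_lit 3686) (nat_lit 14) (nat_lit 13))
    (@En.i (nat_lit 2776) (nat_lit 13) (nat_lit 5))
    (@En.n l3 (nat_lit 4004) (nat_lit 15) (nat_lit 2))))
  (@Cl.mk (nat_lit 0x20005000d000800050003000d000d000b000300030008000b0005000e000b) (nat_lit 0x2200b0000560b0) (nat_lit 16) Lb.e (@T16.mk En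
    (@En.n l4172 (nat_lit 7366) (nat_lit 10) (nat_lit 11))
    (@En.i (nat_lit 4011) (nat_lit 1) (nat_lit 14))
    (@En.n l2351 (nat_lit 8267) (nat_lit 2) (nat_lit 5))
    (@En.i (nat_lit 3555) (nat_lit 3) (nat_lit 11))
    (@En.i (nat_lit 9501) (nat_lit 4) (nat_lit 8))
    (@En.n l50 (nat_lit 4003) (nat_lit 5) (nat_lit 3))
    (@En.i (nat_lit 4008) (nat_lit 6) (nat_lit 3))
    (@En.i (nat_lit 7586) (nat_lit 8) (nat_lit 11))
    (@En.n l601 (nat_lit 4008) (nat_lit 9) (nat_lit 13))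
    (@En.n l287 (nat_lit 10975) (nat_lit 10) (nat_lit 13))
    (@En.n l11 (nat_lit 4004) (nat_lit 10) (nat_lit 3))
    (@En.n l2351 (nat_lit 3437) (nat_lit 0) (nat_lit 5))
    (@En.i (nat_lit 4007) (nat_lit 13) (nat_lit 8))
    (@En.n l1722 (nat_lit 3689) (nat_lit 14) (nat_lit 13))
    (@En.i (nat_lit 1829) (nat_lit 13) (nat_lit 5))
    (@En.n l3 (nat_lit 4005) (nat_lit 15) (nat_lit 2))))
  (@Cl.mk (nat_lit 0x20005000800040009000e000d0002000b000300080007000b0005000e000c) (nat_lit 0x30600000607070) (nat_lit 16) Lb.e (@T16.mk En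
    (@En.i (nat_lit 7204) (nat_lit 8) (nat_lit 12))
    (@En.i (nat_lit 7388) (nat_lit 9) (nat_lit 14))
    (@En.i (nat_lit 9152) (nat_lit 2) (nat_lit 5))
    (@En.n l207 (nat_lit 4003) (nat_lit 3) (nat_lit 11))
    (@En.i (nat_lit 4002) (nat_lit 4) (nat_lit 7))
    (@En.n l532 (nat_lit 10989) (nat_lit 5) (nat_lit 8))
    (@En.i (nat_lit 4007) (nat_lit 6) (nat_lit 3))
    (@En.i (nat_lit 7590) (nat_lit 8) (nat_lit 11))
    (@En.n l7 (nat_lit 4006) (nat_lit 8) (nat_lit 2))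
    (@En.n l601 (nat_lit 4007) (nat_lit 10) (nat_lit 13))
    (@En.n l532 (nat_lit 8551) (nat_lit 11) (nat_lit 14))
    (@En.n l1776 (nat_lit 4673) (nat_lit 12) (nat_lit 9))
    (@En.n l117 (nat_lit 7289) (nat_lit 3) (nat_lit 4))
    (@En.n l1776 (nat_lit 3980) (nat_lit 10) (nat_lit 8))
    (@En.i (nat_lit 2769) (nat_lit 5) (nat_lit 5))
    (@En.n l3 (nat_lit 4006) (nat_lit 15) (nat_lit 2))))
  (@Cl.mk (nat_lit 0x20005000800040009000d000d000a0003000300080007000b0006000e000c) (nat_lit 0x107b0000607090) (nat_lit 16) Lb.e (@T16.mk En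
    (@En.n l15753 (nat_lit 7201) (nat_lit 9) (nat_lit 12))
    (@En.n l15754 (nat_lit 4012) (nat_lit 1) (nat_lit 14))
    (@En.n l3348 (nat_lit 8720) (nat_lit 2) (nat_lit 6))
    (@En.n l207 (nat_lit 4005) (nat_lit 3) (nat_lit 11))
    (@En.i (nat_lit 4004) (nat_lit 4) (nat_lit 7))
    (@En.n l12225 (nat_lit 9497) (nat_lit 5) (nat_lit 8))
    (@En.n l50 (nat_lit 4006) (nat_lit 6) (nat_lit 3))
    (@En.n l3969 (nat_lit 4010) (nat_lit 7) (nat_lit 3))
    (@En.i (nat_lit 7587) (nat_lit 9) (nat_lit 10))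
    (@En.n l15755 (nat_lit 4010) (nat_lit 10) (nat_lit 13))
    (@En.n l532 (nat_lit 10976) (nat_lit 11) (nat_lit 13))
    (@En.n l15756 (nat_lit 4674) (nat_lit 12) (nat_lit 9))
    (@En.n l117 (nat_lit 7285) (nat_lit 4) (nat_lit 4))
    (@En.n l1776 (nat_lit 3103) (nat_lit 10) (nat_lit 8))
    (@En.i (nat_lit 1824) (nat_lit 13) (nat_lit 5))
    (@En.n l3 (nat_lit 4007) (nat_lit 15) (nat_lit 2))))
  (@Cl.mk (nat_lit 0x20005000d000800050003000d000a000e000300020008000b0006000e000b) (nat_lit 0x2300b0000660b0) (nat_lit 16) Lb.e (@T16.mk En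
    (@En.n l3965 (nat_lit 7373) (nat_lit 11) (nat_lit 11))
    (@En.n l3966 (nat_lit 7390) (nat_lit 12) (nat_lit 14))
    (@En.n l2354 (nat_lit 8915) (nat_lit 13) (nat_lit 6))
    (@En.n l877 (nat_lit 2569) (nat_lit 3) (nat_lit 11))
    (@En.i (nat_lit 9498) (nat_lit 4) (nat_lit 8))
    (@En.n l50 (nat_lit 4008) (nat_lit 5) (nat_lit 2))
    (@En.n l7 (nat_lit 4005) (nat_lit 6) (nat_lit 3))
    (@En.n l828 (nat_lit 13847) (nat_lit 0) (nat_lit 14))
    (@En.i (nat_lit 6760) (nat_lit 9) (nat_lit 10))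
    (@En.n l3967 (nat_lit 8155) (nat_lit 10) (nat_lit 13))
    (@En.n l11 (nat_lit 4009) (nat_lit 10) (nat_lit 3))
    (@En.n l3968 (nat_lit 4602) (nat_lit 5) (nat_lit 5))
    (@En.n l3969 (nat_lit 4010) (nat_lit 13) (nat_lit 8))
    (@En.n l3968 (nat_lit 3688) (nat_lit 8) (nat_lit 13))
    (@En.i (nat_lit 1828) (nat_lit 8) (nat_lit 5))
    (@En.n l3 (nat_lit 4008) (nat_lit 15) (nat_lit 2))))
  (@Cl.mk (nat_lit 0x20005000d000400090003000d000a000e000300020007000b0006000e000c) (nat_lit 0x3050b000006092) (nat_lit 16) Lb.e (@T16.mk En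
    (@En.n l8151 (nat_lit 7274) (nat_lit 11) (nat_lit 12))
    (@En.n l7678 (nat_lit 7273) (nat_lit 12) (nat_lit 14))
    (@En.n l4356 (nat_lit 8914) (nat_lit 13) (nat_lit 6))
    (@En.i (nat_lit 2570) (nat_lit 3) (nat_lit 11))
    (@En.i (nat_lit 7632) (nat_lit 4) (nat_lit 7))
    (@En.n l50 (nat_lit 4009) (nat_lit 5) (nat_lit 2))
    (@En.n l7 (nat_lit 4004) (nat_lit 6) (nat_lit 3))
    (@En.n l4361 (nat_lit 13848) (nat_lit 0) (nat_lit 14))
    (@En.i (nat_lit 6762) (nat_lit 2) (nat_lit 10))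
    (@En.n l5559 (nat_lit 12466) (nat_lit 10) (nat_lit 13))
    (@En.i (nat_lit 4008) (nat_lit 10) (nat_lit 3))
    (@En.n l5559 (nat_lit 4714) (nat_lit 12) (nat_lit 9))
    (@En.n l117 (nat_lit 7276) (nat_lit 6) (nat_lit 4))
    (@En.n l5559 (nat_lit 3684) (nat_lit 8) (nat_lit 13))
    (@En.i (nat_lit 2783) (nat_lit 8) (nat_lit 5))
    (@En.n l3 (nat_lit 4009) (nat_lit 15) (nat_lit 2))))
  (@Cl.mk (nat_lit 0x20005000800040009000d0009000e0003000200080007000b0007000e000c) (nat_lit 0x207b0000607090) (nat_lit 16) Lb.e (@T16.mk En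
    (@En.n l1144 (nat_lit 7205) (nat_lit 10) (nat_lit 12))
    (@En.n l11 (nat_lit 7389) (nat_lit 11) (nat_lit 14))
    (@En.n l1483 (nat_lit 8721) (nat_lit 12) (nat_lit 7))
    (@En.n l11020 (nat_lit 4008) (nat_lit 3) (nat_lit 11))
    (@En.n l11021 (nat_lit 4009) (nat_lit 4) (nat_lit 7))
    (@En.n l7126 (nat_lit 9493) (nat_lit 5) (nat_lit 8))
    (@En.n l50 (nat_lit 4010) (nat_lit 6) (nat_lit 2))
    (@En.n l11022 (nat_lit 4007) (nat_lit 7) (nat_lit 3))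
    (@En.n l1154 (nat_lit 13849) (nat_lit 0) (nat_lit 14))
    (@En.n l11021 (nat_lit 6761) (nat_lit 10) (nat_lit 9))
    (@En.i (nat_lit 8157) (nat_lit 11) (nat_lit 13))
    (@En.n l2262 (nat_lit 4675) (nat_lit 12) (nat_lit 9))
    (@En.n l10617 (nat_lit 7286) (nat_lit 5) (nat_lit 4))
    (@En.n l7126 (nat_lit 3977) (nat_lit 14) (nat_lit 8))
    (@En.n l1489 (nat_lit 1825) (nat_lit 7) (nat_lit 5))
    (@En.n l1157 (nat_lit 4010) (nat_lit 15) (nat_lit 2))))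
  (@Cl.mk (nat_lit 0x200080005000d000800060003000d000d0008000300030008000b000e000a) (nat_lit 0x35000000056a8) (nat_lit 16) Lb.e (@T16.mk En
    (@En.n l7290 (nat_lit 7361) (nat_lit 11) (nat_lit 10))
    (@En.n l2073 (nat_lit 1233) (nat_lit 4) (nat_lit 14))
    (@En.n l1284 (nat_lit 2571) (nat_lit 7) (nat_lit 11))
    (@En.i (nat_lit 9894) (nat_lit 3) (nat_lit 8))
    (@En.n l50 (nat_lit 4013) (nat_lit 4) (nat_lit 3))
    (@En.n l3966 (nat_lit 7390) (nat_lit 0) (nat_lit 3))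
    (@En.i (nat_lit 6504) (nat_lit 6) (nat_lit 8))
    (@En.n l17787 (nat_lit 7390) (nat_lit 3) (nat_lit 13))
    (@En.n l6658 (nat_lit 10973) (nat_lit 9) (nat_lit 13))
    (@En.n l11 (nat_lit 7271) (nat_lit 9) (nat_lit 3))
    (@En.n l7291 (nat_lit 3430) (nat_lit 0) (nat_lit 6))
    (@En.n l15754 (nat_lit 4012) (nat_lit 12) (nat_lit 8))
    (@En.n l6268 (nat_lit 7018) (nat_lit 13) (nat_lit 13))
    (@En.n l17 (nat_lit 4005) (nat_lit 14) (nat_lit 5))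
    (@En.i (nat_lit 7395) (nat_lit 4) (nat_lit 8))
    (@En.n l3 (nat_lit 4011) (nat_lit 15) (nat_lit 2))))
  (@Cl.mk (nat_lit 0x200090005000800050009000d000d00070003000300080007000b000e000b) (nat_lit 0x4030000060789) (nat_lit 16) Lb.e (@T16.mk En
    (@En.n l68 (nat_lit 7203) (nat_lit 10) (nat_lit 11))
    (@En.n l3866 (nat_lit 2010) (nat_lit 4) (nat_lit 14))
    (@En.n l11014 (nat_lit 4011) (nat_lit 2) (nat_lit 11))
    (@En.n l28495 (nat_lit 7271) (nat_lit 3) (nat_lit 7))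
    (@En.n l19867 (nat_lit 9529) (nat_lit 4) (nat_lit 8))
    (@En.n l28496 (nat_lit 7388) (nat_lit 13) (nat_lit 3))
    (@En.n l7 (nat_lit 7389) (nat_lit 0) (nat_lit 3))
    (@En.n l28495 (nat_lit 6505) (nat_lit 0) (nat_lit 7))
    (@En.n l644 (nat_lit 7389) (nat_lit 3) (nat_lit 13))
    (@En.i (nat_lit 10972) (nat_lit 10) (nat_lit 13))
    (@En.n l15604 (nat_lit 4676) (nat_lit 11) (nat_lit 9))
    (@En.n l16865 (nat_lit 4347) (nat_lit 4) (nat_lit 5))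
    (@En.n l15604 (nat_lit 5316) (nat_lit 13) (nat_lit 8))
    (@En.n l16502 (nat_lit 4007) (nat_lit 14) (nat_lit 5))
    (@En.n l28495 (nat_lit 7394) (nat_lit 8) (nat_lit 9))
    (@En.n l67 (nat_lit 4012) (nat_lit 15) (nat_lit 2))))
  (@Cl.mk (nat_lit 0x200070005000d000800060003000e000d0002000900030008000b000e000a) (nat_lit 0x3000010005668) (nat_lit 16) Lb.e (@T16.mk En
    (@En.n l7290 (nat_lit 7362) (nat_lit 10) (nat_lit 10))
    (@En.i (nat_lit 1816) (nat_lit 11) (nat_lit 14))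
    (@En.n l710 (nat_lit 3556) (nat_lit 2) (nat_lit 11))
    (@En.i (nat_lit 10987) (nat_lit 3) (nat_lit 8))
    (@En.i (nat_lit 4011) (nat_lit 4) (nat_lit 3))
    (@En.i (nat_lit 5027) (nat_lit 5) (nat_lit 9))
    (@En.n l7 (nat_lit 4013) (nat_lit 6) (nat_lit 2))
    (@En.n l601 (nat_lit 4011) (nat_lit 8) (nat_lit 13))
    (@En.n l780 (nat_lit 8555) (nat_lit 1) (nat_lit 14))
    (@En.n l11 (nat_lit 7270) (nat_lit 9) (nat_lit 3))
    (@En.n l7291 (nat_lit 3435) (nat_lit 3) (nat_lit 6))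
    (@En.i (nat_lit 7388) (nat_lit 4) (nat_lit 8))
    (@En.n l1722 (nat_lit 7019) (nat_lit 13) (nat_lit 13))
    (@En.n l17 (nat_lit 4003) (nat_lit 14) (nat_lit 5))
    (@En.i (nat_lit 9578) (nat_lit 7) (nat_lit 7))
    (@En.n l3 (nat_lit 4013) (nat_lit 15) (nat_lit 2))))
  (@Cl.mk (nat_lit 0x200070005000e000c0002000d000c0004000300090004000d000b000e0003) (nat_lit 0xc90230060b240) (nat_lit 16) Lb.e (@T16.mk En
    (@En.n l50 (nat_lit 3810) (nat_lit 5) (nat_lit 3))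
    (@En.i (nat_lit 12860) (nat_lit 0) (nat_lit 14))
    (@En.n l2805 (nat_lit 4017) (nat_lit 2) (nat_lit 11))
    (@En.n l2806 (nat_lit 3866) (nat_lit 9) (nat_lit 13))
    (@En.n l2807 (nat_lit 4088) (nat_lit 4) (nat_lit 4))
    (@En.n l287 (nat_lit 4009) (nat_lit 11) (nat_lit 9))
    (@En.n l11 (nat_lit 4015) (nat_lit 6) (nat_lit 3))
    (@En.n l2808 (nat_lit 3647) (nat_lit 7) (nat_lit 4))
    (@En.n l55 (nat_lit 3883) (nat_lit 9) (nat_lit 12))
    (@En.n l615 (nat_lit 561) (nat_lit 10) (nat_lit 13))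
    (@En.n l3 (nat_lit 4014) (nat_lit 10) (nat_lit 2))
    (@En.i (nat_lit 3068) (nat_lit 12) (nat_lit 12))
    (@En.n l2809 (nat_lit 6972) (nat_lit 13) (nat_lit 14))
    (@En.n l403 (nat_lit 3856) (nat_lit 14) (nat_lit 5))
    (@En.n l1353 (nat_lit 4399) (nat_lit 3) (nat_lit 7))
    (@En.n l18 (nat_lit 4014) (nat_lit 15) (nat_lit 2))))
  (@Cl.mk (nat_lit 0x200070005000e000d0002000d0003000d000300090003000d000b000e0003) (nat_lit 0xb10108060b240) (nat_lit 16) Lb.e (@T16.mk En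
    (@En.n l50 (nat_lit 3813) (nat_lit 5) (nat_lit 3))
    (@En.i (nat_lit 12859) (nat_lit 0) (nat_lit 14))
    (@En.n l2805 (nat_lit 4016) (nat_lit 2) (nat_lit 11))
    (@En.n l7667 (nat_lit 4285) (nat_lit 9) (nat_lit 13))
    (@En.i (nat_lit 3883) (nat_lit 4) (nat_lit 3))
    (@En.n l1353 (nat_lit 4812) (nat_lit 11) (nat_lit 9))
    (@En.i (nat_lit 4014) (nat_lit 6) (nat_lit 3))
    (@En.n l947 (nat_lit 4726) (nat_lit 0) (nat_lit 13))
    (@En.n l117 (nat_lit 3070) (nat_lit 8) (nat_lit 3))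
    (@En.i (nat_lit 560) (nat_lit 10) (nat_lit 13))
    (@En.n l3 (nat_lit 4015) (nat_lit 10) (nat_lit 2))
    (@En.i (nat_lit 3070) (nat_lit 12) (nat_lit 13))
    (@En.i (nat_lit 6971) (nat_lit 13) (nat_lit 14))
    (@En.n l403 (nat_lit 3855) (nat_lit 14) (nat_lit 5))
    (@En.n l1353 (nat_lit 4406) (nat_lit 3) (nat_lit 7))
    (@En.n l18 (nat_lit 4015) (nat_lit 15) (nat_lit 2))))
noncomputable def a251 : T16 Cl := @T16.mk Cl
  (@Cl.mk (nat_lit 0x2000600050004000e000d0002000d0003000d0003000a0003000b000e000c) (nat_lit 0xa80203070171) (nat_lit 16) Lb.e (@T16.mk En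
    (@En.n l2213 (nat_lit 3817) (nat_lit 7) (nat_lit 12))
    (@En.i (nat_lit 3618) (nat_lit 4) (nat_lit 14))
    (@En.i (nat_lit 1222) (nat_lit 2) (nat_lit 11))
    (@En.n l1353 (nat_lit 3886) (nat_lit 3) (nat_lit 3))
    (@En.n l2571 (nat_lit 4813) (nat_lit 11) (nat_lit 10))
    (@En.i (nat_lit 4017) (nat_lit 5) (nat_lit 3))
    (@En.i (nat_lit 4729) (nat_lit 7) (nat_lit 13))
    (@En.n l2572 (nat_lit 3588) (nat_lit 7) (nat_lit 3))
    (@En.i (nat_lit 880) (nat_lit 9) (nat_lit 13))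
    (@En.n l28 (nat_lit 4016) (nat_lit 9) (nat_lit 2))
    (@En.n l2573 (nat_lit 3588) (nat_lit 11) (nat_lit 13))
    (@En.i (nat_lit 12751) (nat_lit 12) (nat_lit 14))
    (@En.n l2221 (nat_lit 3813) (nat_lit 2) (nat_lit 4))
    (@En.n l5335 (nat_lit 4018) (nat_lit 14) (nat_lit 5))
    (@En.n l2571 (nat_lit 4418) (nat_lit 4) (nat_lit 6))
    (@En.n l3 (nat_lit 4016) (nat_lit 15) (nat_lit 2))))
  (@Cl.mk (nat_lit 0x2000600050004000e000c0002000d000c00040003000a0004000b000e000c) (nat_lit 0xc90130070151) (nat_lit 16) Lb.e (@T16.mk En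
    (@En.n l2213 (nat_lit 3816) (nat_lit 7) (nat_lit 12))
    (@En.i (nat_lit 3619) (nat_lit 4) (nat_lit 14))
    (@En.i (nat_lit 1223) (nat_lit 2) (nat_lit 11))
    (@En.n l4352 (nat_lit 4085) (nat_lit 3) (nat_lit 4))
    (@En.n l2215 (nat_lit 6762) (nat_lit 4) (nat_lit 10))
    (@En.n l50 (nat_lit 4016) (nat_lit 5) (nat_lit 3))
    (@En.n l858 (nat_lit 3640) (nat_lit 6) (nat_lit 4))
    (@En.n l859 (nat_lit 3886) (nat_lit 8) (nat_lit 12))
    (@En.n l5334 (nat_lit 878) (nat_lit 9) (nat_lit 13))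
    (@En.n l28 (nat_lit 4017) (nat_lit 9) (nat_lit 2))
    (@En.n l2573 (nat_lit 3585) (nat_lit 11) (nat_lit 12))
    (@En.n l2220 (nat_lit 12752) (nat_lit 12) (nat_lit 14))
    (@En.n l2221 (nat_lit 3810) (nat_lit 2) (nat_lit 4))
    (@En.n l5335 (nat_lit 4019) (nat_lit 14) (nat_lit 5))
    (@En.n l2571 (nat_lit 4400) (nat_lit 4) (nat_lit 6))
    (@En.n l3 (nat_lit 4017) (nat_lit 15) (nat_lit 2))))
  (@Cl.mk (nat_lit 0x200050003000e000d0002000d0003000d0003000d0003000b0003000e000d) (nat_lit 0xa902030201082) (nat_lit 16) Lb.e (@T16.mk En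
    (@En.n l61 (nat_lit 4021) (nat_lit 6) (nat_lit 13))
    (@En.n l5331 (nat_lit 4016) (nat_lit 1) (nat_lit 14))
    (@En.i (nat_lit 4023) (nat_lit 2) (nat_lit 3))
    (@En.n l5331 (nat_lit 1220) (nat_lit 3) (nat_lit 11))
    (@En.n l3180 (nat_lit 4022) (nat_lit 4) (nat_lit 3))
    (@En.i (nat_lit 5124) (nat_lit 6) (nat_lit 13))
    (@En.i (nat_lit 4019) (nat_lit 6) (nat_lit 3))
    (@En.n l5331 (nat_lit 4730) (nat_lit 8) (nat_lit 13))
    (@En.n l117 (nat_lit 4020) (nat_lit 8) (nat_lit 3))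
    (@En.i (nat_lit 849) (nat_lit 10) (nat_lit 13))
    (@En.n l3 (nat_lit 4018) (nat_lit 10) (nat_lit 2))
    (@En.i (nat_lit 4020) (nat_lit 12) (nat_lit 13))
    (@En.i (nat_lit 9221) (nat_lit 13) (nat_lit 14))
    (@En.n l72 (nat_lit 4021) (nat_lit 2) (nat_lit 3))
    (@En.n l666 (nat_lit 4030) (nat_lit 3) (nat_lit 5))
    (@En.n l17 (nat_lit 4018) (nat_lit 15) (nat_lit 2))))
  (@Cl.mk (nat_lit 0x200050003000e000c0002000d000c00040003000d0004000b0003000e000d) (nat_lit 0xc901300701062) (nat_lit 16) Lb.e (@T16.mk En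
    (@En.n l61 (nat_lit 3829) (nat_lit 6) (nat_lit 13))
    (@En.n l5331 (nat_lit 4017) (nat_lit 1) (nat_lit 14))
    (@En.i (nat_lit 4025) (nat_lit 2) (nat_lit 3))
    (@En.n l5331 (nat_lit 1221) (nat_lit 3) (nat_lit 11))
    (@En.n l5332 (nat_lit 4084) (nat_lit 4) (nat_lit 4))
    (@En.n l797 (nat_lit 6319) (nat_lit 6) (nat_lit 13))
    (@En.n l11 (nat_lit 4018) (nat_lit 6) (nat_lit 3))
    (@En.n l5333 (nat_lit 3642) (nat_lit 7) (nat_lit 4))
    (@En.n l1780 (nat_lit 4022) (nat_lit 9) (nat_lit 12))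
    (@En.n l669 (nat_lit 847) (nat_lit 10) (nat_lit 13))
    (@En.n l3 (nat_lit 4019) (nat_lit 10) (nat_lit 2))
    (@En.i (nat_lit 3593) (nat_lit 12) (nat_lit 12))
    (@En.n l797 (nat_lit 12753) (nat_lit 13) (nat_lit 14))
    (@En.n l72 (nat_lit 3829) (nat_lit 2) (nat_lit 3))
    (@En.n l666 (nat_lit 4031) (nat_lit 3) (nat_lit 5))
    (@En.n l17 (nat_lit 4019) (nat_lit 15) (nat_lit 2))))
  (@Cl.mk (nat_lit 0x200050003000d000d000c00030003000d0004000d0003000b0003000e000d) (nat_lit 0x89a0040402073) (nat_lit 16) Lb.e (@T16.mk En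
    (@En.n l61 (nat_lit 4027) (nat_lit 7) (nat_lit 13))
    (@En.i (nat_lit 3588) (nat_lit 1) (nat_lit 14))
    (@En.i (nat_lit 4024) (nat_lit 2) (nat_lit 3))
    (@En.n l3519 (nat_lit 1225) (nat_lit 3) (nat_lit 11))
    (@En.i (nat_lit 4042) (nat_lit 4) (nat_lit 3))
    (@En.i (nat_lit 3573) (nat_lit 6) (nat_lit 13))
    (@En.i (nat_lit 3593) (nat_lit 6) (nat_lit 4))
    (@En.n l3519 (nat_lit 4256) (nat_lit 8) (nat_lit 13))
    (@En.n l152 (nat_lit 4018) (nat_lit 8) (nat_lit 3))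
    (@En.n l117 (nat_lit 3843) (nat_lit 9) (nat_lit 3))
    (@En.n l619 (nat_lit 4019) (nat_lit 11) (nat_lit 12))
    (@En.i (nat_lit 3843) (nat_lit 12) (nat_lit 13))
    (@En.i (nat_lit 12237) (nat_lit 13) (nat_lit 13))
    (@En.n l72 (nat_lit 4027) (nat_lit 3) (nat_lit 3))
    (@En.n l6142 (nat_lit 2856) (nat_lit 0) (nat_lit 5))
    (@En.n l17 (nat_lit 4020) (nat_lit 15) (nat_lit 2))))
  (@Cl.mk (nat_lit 0x2000d0003000d0003000d0003000c0003000d000d000400030003000e000d) (nat_lit 0x2030301012000a9) (nat_lit 16) Lb.e (@T16.mk En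
    (@En.i (nat_lit 4027) (nat_lit 2) (nat_lit 13))
    (@En.i (nat_lit 8594) (nat_lit 1) (nat_lit 14))
    (@En.i (nat_lit 4018) (nat_lit 13) (nat_lit 3))
    (@En.n l18 (nat_lit 4051) (nat_lit 3) (nat_lit 3))
    (@En.i (nat_lit 3855) (nat_lit 0) (nat_lit 4))
    (@En.n l61 (nat_lit 4051) (nat_lit 6) (nat_lit 13))
    (@En.i (nat_lit 3813) (nat_lit 7) (nat_lit 13))
    (@En.i (nat_lit 4026) (nat_lit 7) (nat_lit 3))
    (@En.i (nat_lit 1216) (nat_lit 0) (nat_lit 12))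
    (@En.i (nat_lit 4043) (nat_lit 9) (nat_lit 3))
    (@En.i (nat_lit 3569) (nat_lit 11) (nat_lit 13))
    (@En.i (nat_lit 3829) (nat_lit 11) (nat_lit 3))
    (@En.i (nat_lit 4600) (nat_lit 0) (nat_lit 13))
    (@En.n l117 (nat_lit 4027) (nat_lit 14) (nat_lit 3))
    (@En.i (nat_lit 595) (nat_lit 0) (nat_lit 13))
    (@En.n l3 (nat_lit 4021) (nat_lit 15) (nat_lit 2))))
  (@Cl.mk (nat_lit 0x200050003000e000d0002000c0003000d000c00040003000b0004000e000d) (nat_lit 0x7802034003045) (nat_lit 16) Lb.e (@T16.mk En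
    (@En.n l6108 (nat_lit 4043) (nat_lit 6) (nat_lit 13))
    (@En.i (nat_lit 3886) (nat_lit 1) (nat_lit 14))
    (@En.i (nat_lit 3279) (nat_lit 2) (nat_lit 4))
    (@En.i (nat_lit 5992) (nat_lit 3) (nat_lit 11))
    (@En.n l5348 (nat_lit 4018) (nat_lit 4) (nat_lit 3))
    (@En.i (nat_lit 2682) (nat_lit 5) (nat_lit 4))
    (@En.n l5335 (nat_lit 4023) (nat_lit 7) (nat_lit 12))
    (@En.i (nat_lit 4598) (nat_lit 8) (nat_lit 13))
    (@En.n l13544 (nat_lit 4042) (nat_lit 8) (nat_lit 3))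
    (@En.i (nat_lit 2661) (nat_lit 10) (nat_lit 12))
    (@En.n l28 (nat_lit 4022) (nat_lit 10) (nat_lit 2))
    (@En.n l8479 (nat_lit 4042) (nat_lit 12) (nat_lit 13))
    (@En.i (nat_lit 9217) (nat_lit 13) (nat_lit 14))
    (@En.n l12871 (nat_lit 4043) (nat_lit 2) (nat_lit 3))
    (@En.n l781 (nat_lit 4032) (nat_lit 3) (nat_lit 5))
    (@En.n l3 (nat_lit 4022) (nat_lit 15) (nat_lit 2))))
  (@Cl.mk (nat_lit 0x200060003000e000d0002000d0003000c0003000d000a00040003000e000d) (nat_lit 0xa802030180074) (nat_lit 16) Lb.e (@T16.mk En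
    (@En.n l61 (nat_lit 4026) (nat_lit 6) (nat_lit 13))
    (@En.n l5336 (nat_lit 3557) (nat_lit 1) (nat_lit 14))
    (@En.n l7 (nat_lit 4018) (nat_lit 2) (nat_lit 3))
    (@En.n l1777 (nat_lit 4108) (nat_lit 3) (nat_lit 4))
    (@En.n l1778 (nat_lit 4016) (nat_lit 4) (nat_lit 10))
    (@En.i (nat_lit 3574) (nat_lit 6) (nat_lit 13))
    (@En.i (nat_lit 4025) (nat_lit 6) (nat_lit 3))
    (@En.n l5331 (nat_lit 4888) (nat_lit 8) (nat_lit 12))
    (@En.n l117 (nat_lit 4024) (nat_lit 8) (nat_lit 3))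
    (@En.i (nat_lit 844) (nat_lit 10) (nat_lit 13))
    (@En.n l3 (nat_lit 4023) (nat_lit 10) (nat_lit 2))
    (@En.i (nat_lit 4024) (nat_lit 12) (nat_lit 13))
    (@En.n l5337 (nat_lit 12755) (nat_lit 1) (nat_lit 14))
    (@En.n l72 (nat_lit 4026) (nat_lit 2) (nat_lit 3))
    (@En.n l1781 (nat_lit 2395) (nat_lit 3) (nat_lit 6))
    (@En.n l17 (nat_lit 4023) (nat_lit 15) (nat_lit 2))))
  (@Cl.mk (nat_lit 0x200060003000d000d000c00030003000c0004000d000a00040003000e000d) (nat_lit 0x7b80050780074) (nat_lit 16) Lb.e (@T16.mk En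
    (@En.n l61 (nat_lit 3827) (nat_lit 7) (nat_lit 13))
    (@En.i (nat_lit 3559) (nat_lit 1) (nat_lit 14))
    (@En.n l7 (nat_lit 4020) (nat_lit 2) (nat_lit 3))
    (@En.n l4121 (nat_lit 4104) (nat_lit 3) (nat_lit 4))
    (@En.n l2781 (nat_lit 3588) (nat_lit 4) (nat_lit 10))
    (@En.i (nat_lit 4113) (nat_lit 6) (nat_lit 13))
    (@En.n l1777 (nat_lit 3823) (nat_lit 6) (nat_lit 4))
    (@En.n l3519 (nat_lit 4197) (nat_lit 8) (nat_lit 12))
    (@En.n l152 (nat_lit 4023) (nat_lit 8) (nat_lit 3))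
    (@En.n l4121 (nat_lit 4112) (nat_lit 9) (nat_lit 3))
    (@En.n l619 (nat_lit 4025) (nat_lit 11) (nat_lit 12))
    (@En.n l4005 (nat_lit 4112) (nat_lit 12) (nat_lit 13))
    (@En.i (nat_lit 12238) (nat_lit 13) (nat_lit 13))
    (@En.n l72 (nat_lit 3827) (nat_lit 3) (nat_lit 3))
    (@En.n l4332 (nat_lit 2396) (nat_lit 0) (nat_lit 6))
    (@En.n l17 (nat_lit 4024) (nat_lit 15) (nat_lit 2))))
  (@Cl.mk (nat_lit 0x200060003000e000c0002000d000b00040003000d000a00050003000e000d) (nat_lit 0xc701300780084) (nat_lit 16) Lb.e (@T16.mk En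
    (@En.n l61 (nat_lit 3824) (nat_lit 6) (nat_lit 13))
    (@En.n l1777 (nat_lit 3558) (nat_lit 1) (nat_lit 14))
    (@En.n l7 (nat_lit 4019) (nat_lit 2) (nat_lit 3))
    (@En.n l1777 (nat_lit 1949) (nat_lit 3) (nat_lit 5))
    (@En.n l1778 (nat_lit 4017) (nat_lit 4) (nat_lit 10))
    (@En.n l797 (nat_lit 6321) (nat_lit 6) (nat_lit 13))
    (@En.n l11 (nat_lit 4023) (nat_lit 6) (nat_lit 3))
    (@En.n l1779 (nat_lit 3643) (nat_lit 7) (nat_lit 4))
    (@En.n l1780 (nat_lit 3279) (nat_lit 9) (nat_lit 11))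
    (@En.n l669 (nat_lit 838) (nat_lit 10) (nat_lit 13))
    (@En.n l3 (nat_lit 4025) (nat_lit 10) (nat_lit 2))
    (@En.n l1777 (nat_lit 3823) (nat_lit 12) (nat_lit 12))
    (@En.n l797 (nat_lit 12754) (nat_lit 1) (nat_lit 14))
    (@En.n l72 (nat_lit 3824) (nat_lit 2) (nat_lit 3))
    (@En.n l1781 (nat_lit 2249) (nat_lit 3) (nat_lit 6))
    (@En.n l17 (nat_lit 4025) (nat_lit 15) (nat_lit 2))))
  (@Cl.mk (nat_lit 0x2000d0003000c0003000d000b00040003000d000d000500030003000e000d) (nat_lit 0x1030160034000ab) (nat_lit 16) Lb.e (@T16.mk En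
    (@En.i (nat_lit 3827) (nat_lit 2) (nat_lit 13))
    (@En.i (nat_lit 8530) (nat_lit 1) (nat_lit 14))
    (@En.i (nat_lit 4023) (nat_lit 13) (nat_lit 3))
    (@En.n l18 (nat_lit 4054) (nat_lit 3) (nat_lit 3))
    (@En.n l7 (nat_lit 3079) (nat_lit 0) (nat_lit 5))
    (@En.n l61 (nat_lit 4054) (nat_lit 6) (nat_lit 13))
    (@En.n l564 (nat_lit 4406) (nat_lit 7) (nat_lit 13))
    (@En.n l7 (nat_lit 4021) (nat_lit 7) (nat_lit 3))
    (@En.i (nat_lit 4103) (nat_lit 8) (nat_lit 4))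
    (@En.i (nat_lit 3817) (nat_lit 10) (nat_lit 11))
    (@En.i (nat_lit 3577) (nat_lit 11) (nat_lit 13))
    (@En.i (nat_lit 3824) (nat_lit 11) (nat_lit 3))
    (@En.i (nat_lit 4596) (nat_lit 0) (nat_lit 12))
    (@En.n l117 (nat_lit 3827) (nat_lit 14) (nat_lit 3))
    (@En.i (nat_lit 840) (nat_lit 0) (nat_lit 13))
    (@En.n l3 (nat_lit 4026) (nat_lit 15) (nat_lit 2))))
  (@Cl.mk (nat_lit 0x30003000d0004000d0003000c0003000d000d000400030003000d000d000c) (nat_lit 0x4040102300089a) (nat_lit 16) Lb.e (@T16.mk En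
    (@En.n l619 (nat_lit 3829) (nat_lit 0) (nat_lit 12))
    (@En.i (nat_lit 3845) (nat_lit 3) (nat_lit 13))
    (@En.i (nat_lit 10193) (nat_lit 2) (nat_lit 13))
    (@En.i (nat_lit 4020) (nat_lit 13) (nat_lit 3))
    (@En.n l18 (nat_lit 4050) (nat_lit 0) (nat_lit 3))
    (@En.i (nat_lit 3851) (nat_lit 0) (nat_lit 4))
    (@En.n l61 (nat_lit 4050) (nat_lit 3) (nat_lit 13))
    (@En.i (nat_lit 3071) (nat_lit 1) (nat_lit 13))
    (@En.i (nat_lit 3827) (nat_lit 8) (nat_lit 3))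
    (@En.i (nat_lit 1150) (nat_lit 0) (nat_lit 12))
    (@En.i (nat_lit 4046) (nat_lit 10) (nat_lit 3))
    (@En.i (nat_lit 3576) (nat_lit 0) (nat_lit 13))
    (@En.i (nat_lit 3819) (nat_lit 7) (nat_lit 4))
    (@En.i (nat_lit 3005) (nat_lit 9) (nat_lit 13))
    (@En.n l152 (nat_lit 4021) (nat_lit 13) (nat_lit 3))
    (@En.n l117 (nat_lit 3845) (nat_lit 0) (nat_lit 3))))
  (@Cl.mk (nat_lit 0x200050005000e000c0002000d000c00040003000b0004000b000b000e0005) (nat_lit 0xc9017007092c0) (nat_lit 16) Lb.e (@T16.mk En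
    (@En.n l946 (nat_lit 3562) (nat_lit 5) (nat_lit 5))
    (@En.n l947 (nat_lit 4031) (nat_lit 7) (nat_lit 14))
    (@En.n l948 (nat_lit 4031) (nat_lit 8) (nat_lit 11))
    (@En.n l666 (nat_lit 3888) (nat_lit 3) (nat_lit 11))
    (@En.n l11 (nat_lit 2970) (nat_lit 4) (nat_lit 4))
    (@En.n l797 (nat_lit 6749) (nat_lit 11) (nat_lit 11))
    (@En.n l11 (nat_lit 4029) (nat_lit 6) (nat_lit 3))
    (@En.n l668 (nat_lit 3607) (nat_lit 7) (nat_lit 4))
    (@En.n l55 (nat_lit 3621) (nat_lit 9) (nat_lit 12))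
    (@En.n l669 (nat_lit 741) (nat_lit 10) (nat_lit 13))
    (@En.n l3 (nat_lit 4028) (nat_lit 10) (nat_lit 2))
    (@En.i (nat_lit 2864) (nat_lit 12) (nat_lit 12))
    (@En.n l671 (nat_lit 4038) (nat_lit 13) (nat_lit 14))
    (@En.n l2177 (nat_lit 3619) (nat_lit 14) (nat_lit 5))
    (@En.n l2178 (nat_lit 4017) (nat_lit 13) (nat_lit 5))
    (@En.n l403 (nat_lit 4028) (nat_lit 15) (nat_lit 2))))
  (@Cl.mk (nat_lit 0x200050005000e000d0002000d0003000d0003000b0003000b000b000e0005) (nat_lit 0xa5020807092c0) (nat_lit 16) Lb.e (@T16.mk En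
    (@En.n l6137 (nat_lit 3560) (nat_lit 5) (nat_lit 5))
    (@En.n l947 (nat_lit 4030) (nat_lit 7) (nat_lit 14))
    (@En.n l948 (nat_lit 4030) (nat_lit 8) (nat_lit 11))
    (@En.n l666 (nat_lit 3889) (nat_lit 3) (nat_lit 11))
    (@En.i (nat_lit 3621) (nat_lit 4) (nat_lit 3))
    (@En.i (nat_lit 4825) (nat_lit 11) (nat_lit 11))
    (@En.i (nat_lit 4028) (nat_lit 6) (nat_lit 3))
    (@En.n l666 (nat_lit 3378) (nat_lit 8) (nat_lit 13))
    (@En.n l117 (nat_lit 2860) (nat_lit 8) (nat_lit 3))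
    (@En.i (nat_lit 746) (nat_lit 10) (nat_lit 13))
    (@En.n l3 (nat_lit 4029) (nat_lit 10) (nat_lit 2))
    (@En.i (nat_lit 2860) (nat_lit 12) (nat_lit 13))
    (@En.n l671 (nat_lit 4037) (nat_lit 13) (nat_lit 14))
    (@En.n l2177 (nat_lit 3618) (nat_lit 14) (nat_lit 5))
    (@En.n l2178 (nat_lit 4016) (nat_lit 13) (nat_lit 5))
    (@En.n l403 (nat_lit 4029) (nat_lit 15) (nat_lit 2))))
  (@Cl.mk (nat_lit 0x2000d0003000d0003000c0003000b000e00040002000e00050002000e000d) (nat_lit 0x10a0701b00600a6) (nat_lit 16) Lb.e (@T16.mk En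
    (@En.n l1578 (nat_lit 2856) (nat_lit 14) (nat_lit 13))
    (@En.i (nat_lit 4035) (nat_lit 1) (nat_lit 14))
    (@En.n l3 (nat_lit 4030) (nat_lit 2) (nat_lit 2))
    (@En.n l3010 (nat_lit 4029) (nat_lit 14) (nat_lit 5))
    (@En.n l2544 (nat_lit 3855) (nat_lit 1) (nat_lit 14))
    (@En.n l17 (nat_lit 4030) (nat_lit 5) (nat_lit 2))
    (@En.n l2869 (nat_lit 4033) (nat_lit 6) (nat_lit 4))
    (@En.n l1638 (nat_lit 13067) (nat_lit 4) (nat_lit 14))
    (@En.i (nat_lit 3890) (nat_lit 9) (nat_lit 11))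
    (@En.i (nat_lit 4032) (nat_lit 9) (nat_lit 3))
    (@En.i (nat_lit 5120) (nat_lit 11) (nat_lit 12))
    (@En.i (nat_lit 4031) (nat_lit 11) (nat_lit 3))
    (@En.i (nat_lit 3396) (nat_lit 0) (nat_lit 13))
    (@En.i (nat_lit 2856) (nat_lit 10) (nat_lit 3))
    (@En.n l2036 (nat_lit 743) (nat_lit 12) (nat_lit 13))
    (@En.n l11 (nat_lit 4030) (nat_lit 15) (nat_lit 2))))
  (@Cl.mk (nat_lit 0x2000d000c00040003000c0004000b000e00040002000e00050002000e000c) (nat_lit 0x2800701b00600c9) (nat_lit 16) Lb.e (@T16.mk En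
    (@En.n l1578 (nat_lit 2865) (nat_lit 14) (nat_lit 12))
    (@En.n l5916 (nat_lit 4036) (nat_lit 1) (nat_lit 14))
    (@En.n l3 (nat_lit 4031) (nat_lit 2) (nat_lit 2))
    (@En.n l3010 (nat_lit 4028) (nat_lit 14) (nat_lit 5))
    (@En.n l2544 (nat_lit 3856) (nat_lit 1) (nat_lit 14))
    (@En.n l17 (nat_lit 4031) (nat_lit 5) (nat_lit 2))
    (@En.n l3011 (nat_lit 4034) (nat_lit 6) (nat_lit 4))
    (@En.n l5916 (nat_lit 13071) (nat_lit 4) (nat_lit 14))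
    (@En.i (nat_lit 3891) (nat_lit 2) (nat_lit 11))
    (@En.n l7 (nat_lit 2976) (nat_lit 9) (nat_lit 4))
    (@En.n l5916 (nat_lit 6750) (nat_lit 11) (nat_lit 12))
    (@En.n l7 (nat_lit 4030) (nat_lit 11) (nat_lit 3))
    (@En.n l5950 (nat_lit 3637) (nat_lit 0) (nat_lit 4))
    (@En.n l644 (nat_lit 4032) (nat_lit 14) (nat_lit 12))
    (@En.n l5951 (nat_lit 744) (nat_lit 12) (nat_lit 13))
    (@En.n l11 (nat_lit 4031) (nat_lit 15) (nat_lit 2))))
noncomputable def a252 : T16 Cl := @T16.mk Cl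
  (@Cl.mk (nat_lit 0x2000c0003000d000b00040003000b000e00050002000e00050002000e000d) (nat_lit 0x7091009b0010076) (nat_lit 16) Lb.e (@T16.mk En
    (@En.n l1578 (nat_lit 2861) (nat_lit 14) (nat_lit 13))
    (@En.i (nat_lit 4039) (nat_lit 1) (nat_lit 14))
    (@En.n l3 (nat_lit 4032) (nat_lit 2) (nat_lit 2))
    (@En.n l3010 (nat_lit 3621) (nat_lit 14) (nat_lit 5))
    (@En.n l2544 (nat_lit 3854) (nat_lit 1) (nat_lit 14))
    (@En.n l17 (nat_lit 4032) (nat_lit 5) (nat_lit 2))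
    (@En.n l14677 (nat_lit 3656) (nat_lit 6) (nat_lit 5))
    (@En.n l998 (nat_lit 13070) (nat_lit 4) (nat_lit 14))
    (@En.n l998 (nat_lit 6966) (nat_lit 9) (nat_lit 11))
    (@En.n l50 (nat_lit 4030) (nat_lit 9) (nat_lit 3))
    (@En.i (nat_lit 4169) (nat_lit 0) (nat_lit 4))
    (@En.i (nat_lit 2395) (nat_lit 12) (nat_lit 11))
    (@En.i (nat_lit 3377) (nat_lit 13) (nat_lit 13))
    (@En.i (nat_lit 2861) (nat_lit 10) (nat_lit 3))
    (@En.n l2036 (nat_lit 2520) (nat_lit 12) (nat_lit 12))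
    (@En.n l11 (nat_lit 4032) (nat_lit 15) (nat_lit 2))))
  (@Cl.mk (nat_lit 0x2000d0003000c0003000c000c0004000c00040004000e00040002000e000d) (nat_lit 0x2030980a00500a7) (nat_lit 16) Lb.e (@T16.mk En
    (@En.n l396 (nat_lit 2869) (nat_lit 14) (nat_lit 13))
    (@En.i (nat_lit 12647) (nat_lit 1) (nat_lit 14))
    (@En.n l28 (nat_lit 4033) (nat_lit 2) (nat_lit 2))
    (@En.i (nat_lit 3560) (nat_lit 3) (nat_lit 4))
    (@En.n l11727 (nat_lit 3085) (nat_lit 1) (nat_lit 14))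
    (@En.n l152 (nat_lit 3548) (nat_lit 12) (nat_lit 4))
    (@En.n l1865 (nat_lit 2395) (nat_lit 6) (nat_lit 4))
    (@En.i (nat_lit 3812) (nat_lit 8) (nat_lit 12))
    (@En.n l1643 (nat_lit 3439) (nat_lit 8) (nat_lit 4))
    (@En.n l1867 (nat_lit 4030) (nat_lit 10) (nat_lit 12))
    (@En.i (nat_lit 3434) (nat_lit 11) (nat_lit 12))
    (@En.n l2364 (nat_lit 4034) (nat_lit 11) (nat_lit 3))
    (@En.i (nat_lit 3440) (nat_lit 0) (nat_lit 12))
    (@En.i (nat_lit 2869) (nat_lit 10) (nat_lit 3))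
    (@En.i (nat_lit 751) (nat_lit 12) (nat_lit 13))
    (@En.n l50 (nat_lit 4033) (nat_lit 15) (nat_lit 2))))
  (@Cl.mk (nat_lit 0x2000d000b00040003000c000c0005000c00040004000e00040002000e000c) (nat_lit 0x1200880a00500c7) (nat_lit 16) Lb.e (@T16.mk En
    (@En.n l217 (nat_lit 2870) (nat_lit 14) (nat_lit 12))
    (@En.i (nat_lit 12645) (nat_lit 1) (nat_lit 14))
    (@En.n l28 (nat_lit 4034) (nat_lit 2) (nat_lit 2))
    (@En.i (nat_lit 3562) (nat_lit 3) (nat_lit 4))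
    (@En.n l1262 (nat_lit 3089) (nat_lit 1) (nat_lit 14))
    (@En.n l152 (nat_lit 3551) (nat_lit 12) (nat_lit 4))
    (@En.n l2552 (nat_lit 2249) (nat_lit 6) (nat_lit 4))
    (@En.i (nat_lit 3815) (nat_lit 8) (nat_lit 12))
    (@En.n l1262 (nat_lit 4618) (nat_lit 8) (nat_lit 5))
    (@En.n l5746 (nat_lit 4031) (nat_lit 10) (nat_lit 12))
    (@En.n l4925 (nat_lit 8214) (nat_lit 11) (nat_lit 12))
    (@En.n l763 (nat_lit 4033) (nat_lit 11) (nat_lit 3))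
    (@En.i (nat_lit 2874) (nat_lit 0) (nat_lit 4))
    (@En.n l1545 (nat_lit 3656) (nat_lit 14) (nat_lit 11))
    (@En.n l765 (nat_lit 740) (nat_lit 12) (nat_lit 13))
    (@En.n l50 (nat_lit 4034) (nat_lit 15) (nat_lit 2))))
  (@Cl.mk (nat_lit 0x20005000d0004000d0003000c0003000b000e00040002000b0005000e000c) (nat_lit 0x10900014004090) (nat_lit 16) Lb.e (@T16.mk En
    (@En.n l1889 (nat_lit 12660) (nat_lit 12) (nat_lit 12))
    (@En.n l180 (nat_lit 4041) (nat_lit 1) (nat_lit 14))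
    (@En.n l2088 (nat_lit 4037) (nat_lit 14) (nat_lit 5))
    (@En.n l2544 (nat_lit 12356) (nat_lit 3) (nat_lit 11))
    (@En.n l17 (nat_lit 4035) (nat_lit 4) (nat_lit 2))
    (@En.n l2869 (nat_lit 12647) (nat_lit 5) (nat_lit 4))
    (@En.n l1889 (nat_lit 2897) (nat_lit 7) (nat_lit 14))
    (@En.i (nat_lit 363) (nat_lit 8) (nat_lit 11))
    (@En.i (nat_lit 4039) (nat_lit 8) (nat_lit 3))
    (@En.n l1889 (nat_lit 9228) (nat_lit 10) (nat_lit 12))
    (@En.n l5916 (nat_lit 4036) (nat_lit 10) (nat_lit 3))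
    (@En.i (nat_lit 1262) (nat_lit 12) (nat_lit 13))
    (@En.i (nat_lit 12362) (nat_lit 7) (nat_lit 4))
    (@En.n l1889 (nat_lit 318) (nat_lit 9) (nat_lit 13))
    (@En.n l1638 (nat_lit 12497) (nat_lit 9) (nat_lit 5))
    (@En.n l11 (nat_lit 4035) (nat_lit 15) (nat_lit 2))))
  (@Cl.mk (nat_lit 0x20005000d000c00050003000c0004000b000e00040002000b0005000e000b) (nat_lit 0x100000270040b0) (nat_lit 16) Lb.e (@T16.mk En
    (@En.n l766 (nat_lit 12728) (nat_lit 12) (nat_lit 11))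
    (@En.n l14669 (nat_lit 12619) (nat_lit 1) (nat_lit 14))
    (@En.n l1724 (nat_lit 4038) (nat_lit 14) (nat_lit 5))
    (@En.n l622 (nat_lit 12357) (nat_lit 3) (nat_lit 11))
    (@En.n l7 (nat_lit 4036) (nat_lit 4) (nat_lit 2))
    (@En.n l6193 (nat_lit 12645) (nat_lit 5) (nat_lit 4))
    (@En.i (nat_lit 2899) (nat_lit 7) (nat_lit 14))
    (@En.n l2041 (nat_lit 1088) (nat_lit 8) (nat_lit 11))
    (@En.i (nat_lit 11340) (nat_lit 8) (nat_lit 4))
    (@En.i (nat_lit 11972) (nat_lit 10) (nat_lit 12))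
    (@En.n l2042 (nat_lit 4035) (nat_lit 10) (nat_lit 3))
    (@En.n l2043 (nat_lit 12726) (nat_lit 6) (nat_lit 5))
    (@En.n l2044 (nat_lit 4039) (nat_lit 13) (nat_lit 12))
    (@En.n l766 (nat_lit 319) (nat_lit 9) (nat_lit 13))
    (@En.n l1326 (nat_lit 12770) (nat_lit 9) (nat_lit 5))
    (@En.n l3 (nat_lit 4036) (nat_lit 15) (nat_lit 2))))
  (@Cl.mk (nat_lit 0x20005000e000c00020008000d0004000d0003000b0003000b0008000e0005) (nat_lit 0x90001080001050) (nat_lit 16) Lb.e (@T16.mk En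
    (@En.n l5784 (nat_lit 12651) (nat_lit 4) (nat_lit 5))
    (@En.n l14438 (nat_lit 4035) (nat_lit 6) (nat_lit 14))
    (@En.n l6146 (nat_lit 4041) (nat_lit 6) (nat_lit 8))
    (@En.n l2568 (nat_lit 362) (nat_lit 3) (nat_lit 11))
    (@En.i (nat_lit 4040) (nat_lit 4) (nat_lit 3))
    (@En.n l644 (nat_lit 9229) (nat_lit 10) (nat_lit 11))
    (@En.i (nat_lit 4038) (nat_lit 6) (nat_lit 3))
    (@En.n l6146 (nat_lit 1268) (nat_lit 8) (nat_lit 13))
    (@En.i (nat_lit 12043) (nat_lit 8) (nat_lit 4))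
    (@En.i (nat_lit 309) (nat_lit 10) (nat_lit 13))
    (@En.n l6296 (nat_lit 10941) (nat_lit 11) (nat_lit 8))
    (@En.n l3 (nat_lit 4037) (nat_lit 11) (nat_lit 2))
    (@En.i (nat_lit 12659) (nat_lit 13) (nat_lit 12))
    (@En.i (nat_lit 12616) (nat_lit 1) (nat_lit 14))
    (@En.n l14444 (nat_lit 12751) (nat_lit 13) (nat_lit 5))
    (@En.n l18 (nat_lit 4037) (nat_lit 15) (nat_lit 2))))
  (@Cl.mk (nat_lit 0x20005000e000b00020008000d000c00050003000b0004000b0008000e0005) (nat_lit 0xb0001700002080) (nat_lit 16) Lb.e (@T16.mk En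
    (@En.n l5784 (nat_lit 12650) (nat_lit 4) (nat_lit 5))
    (@En.n l972 (nat_lit 4036) (nat_lit 6) (nat_lit 14))
    (@En.n l6146 (nat_lit 12619) (nat_lit 6) (nat_lit 8))
    (@En.n l2568 (nat_lit 1083) (nat_lit 3) (nat_lit 11))
    (@En.n l916 (nat_lit 12550) (nat_lit 4) (nat_lit 4))
    (@En.n l6295 (nat_lit 11975) (nat_lit 10) (nat_lit 11))
    (@En.n l11 (nat_lit 4037) (nat_lit 6) (nat_lit 3))
    (@En.n l2238 (nat_lit 12727) (nat_lit 7) (nat_lit 5))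
    (@En.n l55 (nat_lit 4040) (nat_lit 9) (nat_lit 12))
    (@En.i (nat_lit 311) (nat_lit 10) (nat_lit 13))
    (@En.n l6296 (nat_lit 11135) (nat_lit 11) (nat_lit 8))
    (@En.n l3 (nat_lit 4038) (nat_lit 11) (nat_lit 2))
    (@En.i (nat_lit 12729) (nat_lit 13) (nat_lit 11))
    (@En.i (nat_lit 12617) (nat_lit 1) (nat_lit 14))
    (@En.n l2193 (nat_lit 12752) (nat_lit 13) (nat_lit 5))
    (@En.n l18 (nat_lit 4038) (nat_lit 15) (nat_lit 2))))
  (@Cl.mk (nat_lit 0x20005000c0004000d000b00040003000b000e00050002000b0005000e000c) (nat_lit 0xa0a00072004060) (nat_lit 16) Lb.e (@T16.mk En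
    (@En.n l1889 (nat_lit 12656) (nat_lit 12) (nat_lit 12))
    (@En.n l180 (nat_lit 12620) (nat_lit 1) (nat_lit 14))
    (@En.n l2088 (nat_lit 4040) (nat_lit 14) (nat_lit 5))
    (@En.n l2544 (nat_lit 12597) (nat_lit 3) (nat_lit 11))
    (@En.n l17 (nat_lit 4039) (nat_lit 4) (nat_lit 2))
    (@En.n l14677 (nat_lit 12683) (nat_lit 5) (nat_lit 5))
    (@En.n l1889 (nat_lit 2896) (nat_lit 7) (nat_lit 14))
    (@En.n l998 (nat_lit 7502) (nat_lit 8) (nat_lit 11))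
    (@En.n l50 (nat_lit 4035) (nat_lit 8) (nat_lit 3))
    (@En.n l9401 (nat_lit 12835) (nat_lit 9) (nat_lit 4))
    (@En.n l7090 (nat_lit 12593) (nat_lit 11) (nat_lit 11))
    (@En.i (nat_lit 1264) (nat_lit 12) (nat_lit 13))
    (@En.i (nat_lit 12364) (nat_lit 7) (nat_lit 4))
    (@En.n l1889 (nat_lit 6136) (nat_lit 9) (nat_lit 12))
    (@En.n l1638 (nat_lit 12773) (nat_lit 9) (nat_lit 5))
    (@En.n l11 (nat_lit 4039) (nat_lit 15) (nat_lit 2))))
  (@Cl.mk (nat_lit 0x20005000e000c00020008000c0004000d000a00040003000b0008000e0006) (nat_lit 0x60006090007030) (nat_lit 16) Lb.e (@T16.mk En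
    (@En.n l7910 (nat_lit 12685) (nat_lit 4) (nat_lit 6))
    (@En.n l14438 (nat_lit 4039) (nat_lit 6) (nat_lit 14))
    (@En.n l6146 (nat_lit 12620) (nat_lit 6) (nat_lit 8))
    (@En.n l15578 (nat_lit 7504) (nat_lit 3) (nat_lit 11))
    (@En.n l28 (nat_lit 4037) (nat_lit 4) (nat_lit 3))
    (@En.n l916 (nat_lit 11367) (nat_lit 5) (nat_lit 4))
    (@En.n l7912 (nat_lit 12592) (nat_lit 11) (nat_lit 10))
    (@En.n l6146 (nat_lit 1269) (nat_lit 8) (nat_lit 13))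
    (@En.n l916 (nat_lit 12366) (nat_lit 8) (nat_lit 4))
    (@En.i (nat_lit 6135) (nat_lit 10) (nat_lit 12))
    (@En.n l6296 (nat_lit 10942) (nat_lit 11) (nat_lit 8))
    (@En.n l3 (nat_lit 4040) (nat_lit 11) (nat_lit 2))
    (@En.i (nat_lit 12654) (nat_lit 13) (nat_lit 12))
    (@En.i (nat_lit 12618) (nat_lit 1) (nat_lit 14))
    (@En.n l15579 (nat_lit 9220) (nat_lit 13) (nat_lit 5))
    (@En.n l18 (nat_lit 4040) (nat_lit 15) (nat_lit 2))))
  (@Cl.mk (nat_lit 0x200080005000d0005000d0003000c00030008000e00040002000b000e000b) (nat_lit 0x4090006400380) (nat_lit 16) Lb.e (@T16.mk En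
    (@En.n l5706 (nat_lit 12665) (nat_lit 13) (nat_lit 11))
    (@En.n l619 (nat_lit 12614) (nat_lit 4) (nat_lit 14))
    (@En.i (nat_lit 12270) (nat_lit 2) (nat_lit 11))
    (@En.n l17 (nat_lit 4041) (nat_lit 3) (nat_lit 2))
    (@En.i (nat_lit 12623) (nat_lit 4) (nat_lit 4))
    (@En.n l6050 (nat_lit 2734) (nat_lit 6) (nat_lit 14))
    (@En.i (nat_lit 6063) (nat_lit 6) (nat_lit 8))
    (@En.i (nat_lit 12620) (nat_lit 7) (nat_lit 3))
    (@En.n l5599 (nat_lit 9231) (nat_lit 0) (nat_lit 12))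
    (@En.i (nat_lit 12619) (nat_lit 9) (nat_lit 3))
    (@En.i (nat_lit 1261) (nat_lit 11) (nat_lit 13))
    (@En.n l3457 (nat_lit 12363) (nat_lit 7) (nat_lit 5))
    (@En.n l5599 (nat_lit 7595) (nat_lit 9) (nat_lit 13))
    (@En.n l159 (nat_lit 4035) (nat_lit 14) (nat_lit 5))
    (@En.n l6050 (nat_lit 12637) (nat_lit 11) (nat_lit 8))
    (@En.n l107 (nat_lit 4041) (nat_lit 15) (nat_lit 2))))
  (@Cl.mk (nat_lit 0x200050003000d000d000b00030003000d000c00050003000b0004000e000d) (nat_lit 0x7850046003075) (nat_lit 16) Lb.e (@T16.mk En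
    (@En.n l61 (nat_lit 4046) (nat_lit 7) (nat_lit 13))
    (@En.i (nat_lit 3884) (nat_lit 1) (nat_lit 14))
    (@En.n l4121 (nat_lit 3277) (nat_lit 2) (nat_lit 4))
    (@En.n l11228 (nat_lit 5993) (nat_lit 3) (nat_lit 11))
    (@En.n l28 (nat_lit 4020) (nat_lit 4) (nat_lit 3))
    (@En.i (nat_lit 3708) (nat_lit 5) (nat_lit 5))
    (@En.n l77 (nat_lit 4024) (nat_lit 7) (nat_lit 12))
    (@En.n l3519 (nat_lit 3743) (nat_lit 8) (nat_lit 13))
    (@En.n l11229 (nat_lit 4022) (nat_lit 8) (nat_lit 3))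
    (@En.n l11230 (nat_lit 4049) (nat_lit 9) (nat_lit 3))
    (@En.n l11228 (nat_lit 4084) (nat_lit 11) (nat_lit 11))
    (@En.n l4299 (nat_lit 4049) (nat_lit 12) (nat_lit 13))
    (@En.i (nat_lit 12235) (nat_lit 13) (nat_lit 13))
    (@En.n l72 (nat_lit 4046) (nat_lit 3) (nat_lit 3))
    (@En.n l6142 (nat_lit 2861) (nat_lit 0) (nat_lit 5))
    (@En.n l17 (nat_lit 4042) (nat_lit 15) (nat_lit 2))))
  (@Cl.mk (nat_lit 0x2000c0003000d000c00040003000c0004000d000d000400030003000e000d) (nat_lit 0x20340030450009a) (nat_lit 16) Lb.e (@T16.mk En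
    (@En.i (nat_lit 4046) (nat_lit 2) (nat_lit 13))
    (@En.i (nat_lit 8593) (nat_lit 1) (nat_lit 14))
    (@En.n l3180 (nat_lit 4022) (nat_lit 13) (nat_lit 3))
    (@En.n l18 (nat_lit 4047) (nat_lit 3) (nat_lit 3))
    (@En.i (nat_lit 3854) (nat_lit 0) (nat_lit 4))
    (@En.n l61 (nat_lit 4047) (nat_lit 6) (nat_lit 13))
    (@En.i (nat_lit 3880) (nat_lit 7) (nat_lit 13))
    (@En.n l28 (nat_lit 3278) (nat_lit 7) (nat_lit 4))
    (@En.n l4909 (nat_lit 4069) (nat_lit 9) (nat_lit 12))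
    (@En.n l28 (nat_lit 4021) (nat_lit 9) (nat_lit 3))
    (@En.i (nat_lit 2677) (nat_lit 0) (nat_lit 4))
    (@En.n l77 (nat_lit 4026) (nat_lit 12) (nat_lit 12))
    (@En.i (nat_lit 4597) (nat_lit 13) (nat_lit 13))
    (@En.n l117 (nat_lit 4046) (nat_lit 14) (nat_lit 3))
    (@En.i (nat_lit 833) (nat_lit 0) (nat_lit 12))
    (@En.n l3 (nat_lit 4043) (nat_lit 15) (nat_lit 2))))
  (@Cl.mk (nat_lit 0x2000d000d000b00030003000d000c00050003000d0004000d0003000e0003) (nat_lit 0x9a2001800a04030) (nat_lit 16) Lb.e (@T16.mk En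
    (@En.i (nat_lit 4046) (nat_lit 4) (nat_lit 3))
    (@En.i (nat_lit 13434) (nat_lit 0) (nat_lit 14))
    (@En.i (nat_lit 3757) (nat_lit 2) (nat_lit 3))
    (@En.i (nat_lit 3877) (nat_lit 0) (nat_lit 13))
    (@En.n l28 (nat_lit 4098) (nat_lit 4) (nat_lit 4))
    (@En.n l601 (nat_lit 4061) (nat_lit 6) (nat_lit 13))
    (@En.n l28 (nat_lit 4050) (nat_lit 6) (nat_lit 3))
    (@En.i (nat_lit 2673) (nat_lit 7) (nat_lit 5))
    (@En.n l77 (nat_lit 4053) (nat_lit 9) (nat_lit 12))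
    (@En.i (nat_lit 3002) (nat_lit 10) (nat_lit 13))
    (@En.n l152 (nat_lit 4047) (nat_lit 13) (nat_lit 3))
    (@En.i (nat_lit 4048) (nat_lit 11) (nat_lit 3))
    (@En.n l97 (nat_lit 2678) (nat_lit 0) (nat_lit 11))
    (@En.n l97 (nat_lit 4048) (nat_lit 14) (nat_lit 13))
    (@En.i (nat_lit 10164) (nat_lit 2) (nat_lit 13))
    (@En.n l17 (nat_lit 4044) (nat_lit 15) (nat_lit 2))))
  (@Cl.mk (nat_lit 0x2000d000c00060003000c0004000d000d000400030003000d000a000e0003) (nat_lit 0x5200304500091a0) (nat_lit 16) Lb.e (@T16.mk En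
    (@En.n l152 (nat_lit 4046) (nat_lit 15) (nat_lit 3))
    (@En.n l3471 (nat_lit 13062) (nat_lit 0) (nat_lit 14))
    (@En.n l97 (nat_lit 1370) (nat_lit 2) (nat_lit 10))
    (@En.i (nat_lit 10167) (nat_lit 2) (nat_lit 13))
    (@En.n l4299 (nat_lit 4049) (nat_lit 13) (nat_lit 3))
    (@En.n l4296 (nat_lit 4048) (nat_lit 0) (nat_lit 3))
    (@En.n l4004 (nat_lit 3852) (nat_lit 0) (nat_lit 4))
    (@En.n l4007 (nat_lit 4048) (nat_lit 3) (nat_lit 13))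
    (@En.n l8260 (nat_lit 3878) (nat_lit 9) (nat_lit 13))
    (@En.n l5876 (nat_lit 4099) (nat_lit 9) (nat_lit 4))
    (@En.n l1589 (nat_lit 6100) (nat_lit 11) (nat_lit 12))
    (@En.n l28 (nat_lit 3845) (nat_lit 11) (nat_lit 3))
    (@En.n l8260 (nat_lit 1168) (nat_lit 0) (nat_lit 6))
    (@En.n l77 (nat_lit 3844) (nat_lit 14) (nat_lit 12))
    (@En.i (nat_lit 4263) (nat_lit 9) (nat_lit 13))
    (@En.n l3 (nat_lit 4045) (nat_lit 15) (nat_lit 2))))
  (@Cl.mk (nat_lit 0x30003000d000c00050003000c0004000d000d000400030003000d000d000b) (nat_lit 0xb70030450009a2) (nat_lit 16) Lb.e (@T16.mk En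
    (@En.n l97 (nat_lit 2679) (nat_lit 0) (nat_lit 11))
    (@En.i (nat_lit 4045) (nat_lit 3) (nat_lit 13))
    (@En.i (nat_lit 10166) (nat_lit 2) (nat_lit 13))
    (@En.i (nat_lit 4042) (nat_lit 13) (nat_lit 3))
    (@En.n l18 (nat_lit 4044) (nat_lit 0) (nat_lit 3))
    (@En.i (nat_lit 3853) (nat_lit 0) (nat_lit 4))
    (@En.n l61 (nat_lit 4044) (nat_lit 3) (nat_lit 13))
    (@En.i (nat_lit 3875) (nat_lit 1) (nat_lit 13))
    (@En.n l28 (nat_lit 3276) (nat_lit 8) (nat_lit 4))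
    (@En.i (nat_lit 4067) (nat_lit 10) (nat_lit 12))
    (@En.n l28 (nat_lit 4027) (nat_lit 10) (nat_lit 3))
    (@En.i (nat_lit 2674) (nat_lit 0) (nat_lit 5))
    (@En.n l77 (nat_lit 3827) (nat_lit 13) (nat_lit 12))
    (@En.i (nat_lit 3744) (nat_lit 9) (nat_lit 13))
    (@En.n l152 (nat_lit 4043) (nat_lit 13) (nat_lit 3))
    (@En.n l117 (nat_lit 4045) (nat_lit 0) (nat_lit 3))))
  (@Cl.mk (nat_lit 0x2000c0003000d000c00040003000d0004000d0003000e00030002000e000d) (nat_lit 0x20b800a0406009a) (nat_lit 16) Lb.e (@T16.mk En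
    (@En.i (nat_lit 4044) (nat_lit 14) (nat_lit 13))
    (@En.i (nat_lit 8592) (nat_lit 1) (nat_lit 14))
    (@En.n l17 (nat_lit 4047) (nat_lit 2) (nat_lit 2))
    (@En.i (nat_lit 4043) (nat_lit 3) (nat_lit 3))
    (@En.i (nat_lit 13682) (nat_lit 0) (nat_lit 14))
    (@En.i (nat_lit 4057) (nat_lit 5) (nat_lit 3))
    (@En.i (nat_lit 3732) (nat_lit 7) (nat_lit 13))
    (@En.n l28 (nat_lit 4101) (nat_lit 7) (nat_lit 4))
    (@En.n l601 (nat_lit 4058) (nat_lit 9) (nat_lit 13))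
    (@En.n l28 (nat_lit 4051) (nat_lit 9) (nat_lit 3))
    (@En.i (nat_lit 2675) (nat_lit 10) (nat_lit 4))
    (@En.n l77 (nat_lit 4054) (nat_lit 12) (nat_lit 12))
    (@En.i (nat_lit 4601) (nat_lit 13) (nat_lit 13))
    (@En.n l117 (nat_lit 4044) (nat_lit 10) (nat_lit 3))
    (@En.i (nat_lit 832) (nat_lit 12) (nat_lit 12))
    (@En.n l3 (nat_lit 4047) (nat_lit 15) (nat_lit 2))))
noncomputable def a253 : T16 Cl := @T16.mk Cl
  (@Cl.mk (nat_lit 0x2000d000a000e00030002000d000c00060003000d0004000d0003000e0003) (nat_lit 0x91a001800b04030) (nat_lit 16) Lb.e (@T16.mk En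
    (@En.n l117 (nat_lit 4045) (nat_lit 5) (nat_lit 3))
    (@En.i (nat_lit 13677) (nat_lit 0) (nat_lit 14))
    (@En.i (nat_lit 3754) (nat_lit 2) (nat_lit 3))
    (@En.n l2438 (nat_lit 3876) (nat_lit 0) (nat_lit 13))
    (@En.n l14485 (nat_lit 4097) (nat_lit 9) (nat_lit 4))
    (@En.n l1798 (nat_lit 4066) (nat_lit 11) (nat_lit 13))
    (@En.n l28 (nat_lit 4052) (nat_lit 11) (nat_lit 3))
    (@En.n l2438 (nat_lit 680) (nat_lit 7) (nat_lit 6))
    (@En.n l77 (nat_lit 4055) (nat_lit 14) (nat_lit 12))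
    (@En.i (nat_lit 3340) (nat_lit 10) (nat_lit 13))
    (@En.n l67 (nat_lit 4048) (nat_lit 10) (nat_lit 2))
    (@En.n l107 (nat_lit 4044) (nat_lit 11) (nat_lit 3))
    (@En.n l1798 (nat_lit 13063) (nat_lit 0) (nat_lit 14))
    (@En.i (nat_lit 1371) (nat_lit 14) (nat_lit 10))
    (@En.n l14488 (nat_lit 10162) (nat_lit 2) (nat_lit 13))
    (@En.n l17 (nat_lit 4048) (nat_lit 15) (nat_lit 2))))
  (@Cl.mk (nat_lit 0x200050003000d000a000e00030002000d000c00060003000b0004000e000d) (nat_lit 0x71a0023003075) (nat_lit 16) Lb.e (@T16.mk En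
    (@En.n l4082 (nat_lit 4045) (nat_lit 8) (nat_lit 13))
    (@En.n l110 (nat_lit 3885) (nat_lit 1) (nat_lit 14))
    (@En.n l117 (nat_lit 4106) (nat_lit 2) (nat_lit 4))
    (@En.n l4083 (nat_lit 5996) (nat_lit 3) (nat_lit 11))
    (@En.n l4084 (nat_lit 3843) (nat_lit 4) (nat_lit 3))
    (@En.i (nat_lit 3709) (nat_lit 5) (nat_lit 6))
    (@En.n l146 (nat_lit 4112) (nat_lit 7) (nat_lit 12))
    (@En.n l79 (nat_lit 4261) (nat_lit 8) (nat_lit 13))
    (@En.n l17 (nat_lit 4049) (nat_lit 8) (nat_lit 2))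
    (@En.n l4085 (nat_lit 4042) (nat_lit 9) (nat_lit 3))
    (@En.n l114 (nat_lit 13060) (nat_lit 0) (nat_lit 14))
    (@En.n l686 (nat_lit 1369) (nat_lit 12) (nat_lit 10))
    (@En.i (nat_lit 12239) (nat_lit 13) (nat_lit 13))
    (@En.n l4086 (nat_lit 4045) (nat_lit 4) (nat_lit 3))
    (@En.n l4087 (nat_lit 2857) (nat_lit 0) (nat_lit 5))
    (@En.n l28 (nat_lit 4049) (nat_lit 15) (nat_lit 2))))
  (@Cl.mk (nat_lit 0x2000d000d000c00030003000d0004000d0003000d0003000d0003000e0003) (nat_lit 0x9aa001040a02050) (nat_lit 16) Lb.e (@T16.mk En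
    (@En.i (nat_lit 4027) (nat_lit 4) (nat_lit 3))
    (@En.i (nat_lit 13435) (nat_lit 0) (nat_lit 14))
    (@En.i (nat_lit 3755) (nat_lit 2) (nat_lit 3))
    (@En.i (nat_lit 3812) (nat_lit 0) (nat_lit 13))
    (@En.i (nat_lit 4053) (nat_lit 4) (nat_lit 3))
    (@En.i (nat_lit 1147) (nat_lit 0) (nat_lit 13))
    (@En.i (nat_lit 4044) (nat_lit 6) (nat_lit 3))
    (@En.i (nat_lit 3570) (nat_lit 0) (nat_lit 13))
    (@En.i (nat_lit 3820) (nat_lit 8) (nat_lit 4))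
    (@En.i (nat_lit 3003) (nat_lit 10) (nat_lit 13))
    (@En.n l152 (nat_lit 4051) (nat_lit 13) (nat_lit 3))
    (@En.i (nat_lit 4052) (nat_lit 0) (nat_lit 3))
    (@En.n l619 (nat_lit 3830) (nat_lit 0) (nat_lit 12))
    (@En.n l97 (nat_lit 4052) (nat_lit 3) (nat_lit 13))
    (@En.i (nat_lit 10190) (nat_lit 2) (nat_lit 13))
    (@En.n l17 (nat_lit 4050) (nat_lit 15) (nat_lit 2))))
  (@Cl.mk (nat_lit 0x2000d0003000d0003000d0003000d0003000d0003000e00030002000e000d) (nat_lit 0x203020a010500aa) (nat_lit 16) Lb.e (@T16.mk En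
    (@En.i (nat_lit 4050) (nat_lit 14) (nat_lit 13))
    (@En.i (nat_lit 8311) (nat_lit 1) (nat_lit 14))
    (@En.n l17 (nat_lit 4051) (nat_lit 2) (nat_lit 2))
    (@En.i (nat_lit 4021) (nat_lit 3) (nat_lit 3))
    (@En.i (nat_lit 13681) (nat_lit 0) (nat_lit 14))
    (@En.i (nat_lit 4056) (nat_lit 5) (nat_lit 3))
    (@En.i (nat_lit 3811) (nat_lit 0) (nat_lit 13))
    (@En.i (nat_lit 4054) (nat_lit 7) (nat_lit 3))
    (@En.i (nat_lit 1215) (nat_lit 0) (nat_lit 13))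
    (@En.i (nat_lit 4047) (nat_lit 9) (nat_lit 3))
    (@En.i (nat_lit 3578) (nat_lit 11) (nat_lit 13))
    (@En.i (nat_lit 3830) (nat_lit 11) (nat_lit 3))
    (@En.i (nat_lit 4841) (nat_lit 0) (nat_lit 13))
    (@En.n l117 (nat_lit 4050) (nat_lit 10) (nat_lit 3))
    (@En.i (nat_lit 597) (nat_lit 12) (nat_lit 13))
    (@En.n l3 (nat_lit 4051) (nat_lit 15) (nat_lit 2))))
  (@Cl.mk (nat_lit 0x2000d0005000d0003000d0003000d0003000e00030002000d000b000e0003) (nat_lit 0x1070a02030098b0) (nat_lit 16) Lb.e (@T16.mk En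
    (@En.n l107 (nat_lit 4050) (nat_lit 11) (nat_lit 3))
    (@En.i (nat_lit 13067) (nat_lit 0) (nat_lit 14))
    (@En.i (nat_lit 3833) (nat_lit 14) (nat_lit 11))
    (@En.i (nat_lit 9764) (nat_lit 2) (nat_lit 13))
    (@En.n l17 (nat_lit 4052) (nat_lit 4) (nat_lit 2))
    (@En.n l117 (nat_lit 3845) (nat_lit 5) (nat_lit 3))
    (@En.i (nat_lit 13678) (nat_lit 0) (nat_lit 14))
    (@En.i (nat_lit 3753) (nat_lit 7) (nat_lit 3))
    (@En.n l1865 (nat_lit 3890) (nat_lit 0) (nat_lit 13))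
    (@En.i (nat_lit 4055) (nat_lit 9) (nat_lit 3))
    (@En.i (nat_lit 1145) (nat_lit 11) (nat_lit 13))
    (@En.i (nat_lit 4048) (nat_lit 6) (nat_lit 3))
    (@En.n l1865 (nat_lit 4123) (nat_lit 0) (nat_lit 13))
    (@En.n l117 (nat_lit 4070) (nat_lit 14) (nat_lit 5))
    (@En.i (nat_lit 3004) (nat_lit 10) (nat_lit 13))
    (@En.n l67 (nat_lit 4052) (nat_lit 15) (nat_lit 2))))
  (@Cl.mk (nat_lit 0x2000d000d000c00030003000c0004000d000c00040003000d0004000e0003) (nat_lit 0xaa8007079003040) (nat_lit 16) Lb.e (@T16.mk En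
    (@En.i (nat_lit 3827) (nat_lit 4) (nat_lit 3))
    (@En.i (nat_lit 13429) (nat_lit 0) (nat_lit 14))
    (@En.n l7 (nat_lit 2650) (nat_lit 2) (nat_lit 4))
    (@En.n l396 (nat_lit 4402) (nat_lit 8) (nat_lit 13))
    (@En.n l7 (nat_lit 4050) (nat_lit 4) (nat_lit 3))
    (@En.i (nat_lit 4095) (nat_lit 0) (nat_lit 4))
    (@En.n l644 (nat_lit 3755) (nat_lit 7) (nat_lit 12))
    (@En.n l3528 (nat_lit 3579) (nat_lit 8) (nat_lit 13))
    (@En.i (nat_lit 3821) (nat_lit 8) (nat_lit 4))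
    (@En.i (nat_lit 3045) (nat_lit 10) (nat_lit 12))
    (@En.n l152 (nat_lit 4054) (nat_lit 13) (nat_lit 3))
    (@En.i (nat_lit 4055) (nat_lit 0) (nat_lit 3))
    (@En.n l619 (nat_lit 3828) (nat_lit 0) (nat_lit 12))
    (@En.n l97 (nat_lit 4055) (nat_lit 3) (nat_lit 13))
    (@En.i (nat_lit 10194) (nat_lit 2) (nat_lit 13))
    (@En.n l17 (nat_lit 4053) (nat_lit 15) (nat_lit 2))))
  (@Cl.mk (nat_lit 0x2000d0003000c0003000d000c00040003000d0004000e00030002000e000d) (nat_lit 0x2070190030400ab) (nat_lit 16) Lb.e (@T16.mk En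
    (@En.i (nat_lit 4053) (nat_lit 14) (nat_lit 13))
    (@En.i (nat_lit 8529) (nat_lit 1) (nat_lit 14))
    (@En.n l17 (nat_lit 4054) (nat_lit 2) (nat_lit 2))
    (@En.i (nat_lit 4026) (nat_lit 3) (nat_lit 3))
    (@En.i (nat_lit 13430) (nat_lit 0) (nat_lit 14))
    (@En.n l7 (nat_lit 2648) (nat_lit 5) (nat_lit 4))
    (@En.n l564 (nat_lit 4404) (nat_lit 7) (nat_lit 13))
    (@En.n l7 (nat_lit 4051) (nat_lit 7) (nat_lit 3))
    (@En.i (nat_lit 4105) (nat_lit 8) (nat_lit 4))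
    (@En.n l644 (nat_lit 4056) (nat_lit 10) (nat_lit 12))
    (@En.i (nat_lit 3571) (nat_lit 11) (nat_lit 13))
    (@En.i (nat_lit 3828) (nat_lit 11) (nat_lit 3))
    (@En.i (nat_lit 4845) (nat_lit 0) (nat_lit 12))
    (@En.n l117 (nat_lit 4053) (nat_lit 10) (nat_lit 3))
    (@En.i (nat_lit 846) (nat_lit 12) (nat_lit 13))
    (@En.n l3 (nat_lit 4054) (nat_lit 15) (nat_lit 2))))
  (@Cl.mk (nat_lit 0x2000c0005000d000c00040003000d0004000e00030002000d000b000e0003) (nat_lit 0x707900b06009790) (nat_lit 16) Lb.e (@T16.mk En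
    (@En.n l107 (nat_lit 4053) (nat_lit 11) (nat_lit 3))
    (@En.n l5369 (nat_lit 13071) (nat_lit 0) (nat_lit 14))
    (@En.i (nat_lit 3834) (nat_lit 2) (nat_lit 11))
    (@En.n l9956 (nat_lit 9753) (nat_lit 2) (nat_lit 13))
    (@En.n l17 (nat_lit 4055) (nat_lit 4) (nat_lit 2))
    (@En.n l117 (nat_lit 3844) (nat_lit 5) (nat_lit 3))
    (@En.i (nat_lit 13431) (nat_lit 0) (nat_lit 14))
    (@En.n l7 (nat_lit 2649) (nat_lit 7) (nat_lit 4))
    (@En.n l5369 (nat_lit 4409) (nat_lit 9) (nat_lit 13))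
    (@En.n l7 (nat_lit 4052) (nat_lit 9) (nat_lit 3))
    (@En.i (nat_lit 4093) (nat_lit 10) (nat_lit 4))
    (@En.n l644 (nat_lit 3753) (nat_lit 12) (nat_lit 12))
    (@En.n l9956 (nat_lit 4121) (nat_lit 8) (nat_lit 13))
    (@En.n l117 (nat_lit 4071) (nat_lit 14) (nat_lit 5))
    (@En.i (nat_lit 3046) (nat_lit 10) (nat_lit 12))
    (@En.n l67 (nat_lit 4055) (nat_lit 15) (nat_lit 2))))
  (@Cl.mk (nat_lit 0x2000d0003000d0003000c0003000d000c00040003000e00040002000e000d) (nat_lit 0x205080b200500aa) (nat_lit 16) Lb.e (@T16.mk En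
    (@En.i (nat_lit 3755) (nat_lit 14) (nat_lit 13))
    (@En.i (nat_lit 8337) (nat_lit 1) (nat_lit 14))
    (@En.n l17 (nat_lit 4056) (nat_lit 2) (nat_lit 2))
    (@En.n l50 (nat_lit 3817) (nat_lit 3) (nat_lit 4))
    (@En.n l5 (nat_lit 520) (nat_lit 1) (nat_lit 14))
    (@En.n l50 (nat_lit 4051) (nat_lit 5) (nat_lit 3))
    (@En.i (nat_lit 681) (nat_lit 6) (nat_lit 4))
    (@En.n l217 (nat_lit 4021) (nat_lit 8) (nat_lit 12))
    (@En.i (nat_lit 690) (nat_lit 9) (nat_lit 13))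
    (@En.i (nat_lit 4057) (nat_lit 9) (nat_lit 3))
    (@En.i (nat_lit 5863) (nat_lit 11) (nat_lit 12))
    (@En.i (nat_lit 3831) (nat_lit 11) (nat_lit 3))
    (@En.i (nat_lit 4840) (nat_lit 0) (nat_lit 13))
    (@En.n l117 (nat_lit 3755) (nat_lit 10) (nat_lit 3))
    (@En.i (nat_lit 591) (nat_lit 12) (nat_lit 13))
    (@En.n l3 (nat_lit 4056) (nat_lit 15) (nat_lit 2))))
  (@Cl.mk (nat_lit 0x2000c0003000d000b00040003000d000c00050003000e00040002000e000d) (nat_lit 0x205100b4001009a) (nat_lit 16) Lb.e (@T16.mk En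
    (@En.i (nat_lit 3757) (nat_lit 14) (nat_lit 13))
    (@En.i (nat_lit 8335) (nat_lit 1) (nat_lit 14))
    (@En.n l17 (nat_lit 4057) (nat_lit 2) (nat_lit 2))
    (@En.n l50 (nat_lit 3887) (nat_lit 3) (nat_lit 4))
    (@En.n l5 (nat_lit 522) (nat_lit 1) (nat_lit 14))
    (@En.n l50 (nat_lit 4047) (nat_lit 5) (nat_lit 3))
    (@En.n l28 (nat_lit 3941) (nat_lit 6) (nat_lit 5))
    (@En.n l217 (nat_lit 4043) (nat_lit 8) (nat_lit 12))
    (@En.n l601 (nat_lit 4059) (nat_lit 9) (nat_lit 13))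
    (@En.n l28 (nat_lit 4056) (nat_lit 9) (nat_lit 3))
    (@En.i (nat_lit 2676) (nat_lit 10) (nat_lit 4))
    (@En.i (nat_lit 2648) (nat_lit 12) (nat_lit 11))
    (@En.i (nat_lit 4803) (nat_lit 13) (nat_lit 13))
    (@En.n l117 (nat_lit 3757) (nat_lit 10) (nat_lit 3))
    (@En.i (nat_lit 834) (nat_lit 12) (nat_lit 12))
    (@En.n l3 (nat_lit 4057) (nat_lit 15) (nat_lit 2))))
  (@Cl.mk (nat_lit 0x2000c00030009000d0004000d0003000c00030007000e00040002000e000d) (nat_lit 0x7609000020009) (nat_lit 16) Lb.e (@T16.mk En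
    (@En.i (nat_lit 4061) (nat_lit 14) (nat_lit 13))
    (@En.i (nat_lit 7634) (nat_lit 1) (nat_lit 14))
    (@En.n l17 (nat_lit 4058) (nat_lit 2) (nat_lit 2))
    (@En.n l13375 (nat_lit 4069) (nat_lit 3) (nat_lit 4))
    (@En.n l998 (nat_lit 597) (nat_lit 1) (nat_lit 14))
    (@En.n l4172 (nat_lit 3575) (nat_lit 5) (nat_lit 7))
    (@En.i (nat_lit 4059) (nat_lit 6) (nat_lit 3))
    (@En.n l217 (nat_lit 6165) (nat_lit 0) (nat_lit 12))
    (@En.i (nat_lit 4060) (nat_lit 8) (nat_lit 3))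
    (@En.n l5592 (nat_lit 1209) (nat_lit 10) (nat_lit 13))
    (@En.i (nat_lit 8297) (nat_lit 10) (nat_lit 4))
    (@En.i (nat_lit 4056) (nat_lit 12) (nat_lit 13))
    (@En.n l998 (nat_lit 3471) (nat_lit 13) (nat_lit 9))
    (@En.n l117 (nat_lit 4061) (nat_lit 10) (nat_lit 3))
    (@En.i (nat_lit 7876) (nat_lit 0) (nat_lit 12))
    (@En.n l3 (nat_lit 4058) (nat_lit 15) (nat_lit 2))))
  (@Cl.mk (nat_lit 0x2000c00030009000c0004000d000b000400030007000e00050002000e000d) (nat_lit 0x710a000060009) (nat_lit 16) Lb.e (@T16.mk En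
    (@En.i (nat_lit 4063) (nat_lit 14) (nat_lit 13))
    (@En.i (nat_lit 7632) (nat_lit 1) (nat_lit 14))
    (@En.n l17 (nat_lit 4059) (nat_lit 2) (nat_lit 2))
    (@En.n l12329 (nat_lit 6000) (nat_lit 3) (nat_lit 5))
    (@En.n l998 (nat_lit 591) (nat_lit 1) (nat_lit 14))
    (@En.n l4172 (nat_lit 4060) (nat_lit 5) (nat_lit 7))
    (@En.n l7 (nat_lit 4058) (nat_lit 6) (nat_lit 3))
    (@En.i (nat_lit 818) (nat_lit 0) (nat_lit 4))
    (@En.n l2026 (nat_lit 6157) (nat_lit 9) (nat_lit 11))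
    (@En.n l5592 (nat_lit 1208) (nat_lit 10) (nat_lit 13))
    (@En.i (nat_lit 8293) (nat_lit 10) (nat_lit 4))
    (@En.i (nat_lit 681) (nat_lit 12) (nat_lit 12))
    (@En.n l998 (nat_lit 3469) (nat_lit 13) (nat_lit 9))
    (@En.n l117 (nat_lit 4063) (nat_lit 10) (nat_lit 3))
    (@En.i (nat_lit 7885) (nat_lit 0) (nat_lit 12))
    (@En.n l3 (nat_lit 4059) (nat_lit 15) (nat_lit 2))))
  (@Cl.mk (nat_lit 0x2000b00030009000d000c00050003000c00040007000e00040002000e000d) (nat_lit 0x6620000020008) (nat_lit 16) Lb.e (@T16.mk En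
    (@En.i (nat_lit 4062) (nat_lit 14) (nat_lit 13))
    (@En.i (nat_lit 7631) (nat_lit 1) (nat_lit 14))
    (@En.n l17 (nat_lit 4060) (nat_lit 2) (nat_lit 2))
    (@En.n l13375 (nat_lit 5999) (nat_lit 3) (nat_lit 4))
    (@En.n l998 (nat_lit 846) (nat_lit 1) (nat_lit 14))
    (@En.n l11297 (nat_lit 4114) (nat_lit 11) (nat_lit 7))
    (@En.n l28 (nat_lit 815) (nat_lit 6) (nat_lit 4))
    (@En.n l9726 (nat_lit 6113) (nat_lit 8) (nat_lit 12))
    (@En.n l28 (nat_lit 4058) (nat_lit 8) (nat_lit 3))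
    (@En.i (nat_lit 8284) (nat_lit 9) (nat_lit 5))
    (@En.n l77 (nat_lit 4059) (nat_lit 11) (nat_lit 12))
    (@En.i (nat_lit 4057) (nat_lit 12) (nat_lit 13))
    (@En.n l998 (nat_lit 3470) (nat_lit 13) (nat_lit 9))
    (@En.n l117 (nat_lit 4062) (nat_lit 10) (nat_lit 3))
    (@En.i (nat_lit 7886) (nat_lit 0) (nat_lit 11))
    (@En.n l3 (nat_lit 4060) (nat_lit 15) (nat_lit 2))))
  (@Cl.mk (nat_lit 0x2000d000d000b000300030009000d0005000d0003000c00030007000e0004) (nat_lit 0x8a0007209000020) (nat_lit 16) Lb.e (@T16.mk En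
    (@En.n l4172 (nat_lit 4067) (nat_lit 4) (nat_lit 4))
    (@En.n l2698 (nat_lit 593) (nat_lit 1) (nat_lit 14))
    (@En.n l4172 (nat_lit 4115) (nat_lit 2) (nat_lit 7))
    (@En.i (nat_lit 4063) (nat_lit 3) (nat_lit 3))
    (@En.n l217 (nat_lit 6164) (nat_lit 0) (nat_lit 12))
    (@En.i (nat_lit 4062) (nat_lit 5) (nat_lit 3))
    (@En.n l5592 (nat_lit 1203) (nat_lit 0) (nat_lit 13))
    (@En.i (nat_lit 8510) (nat_lit 7) (nat_lit 5))
    (@En.i (nat_lit 3755) (nat_lit 9) (nat_lit 13))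
    (@En.n l476 (nat_lit 8358) (nat_lit 10) (nat_lit 9))
    (@En.n l152 (nat_lit 4058) (nat_lit 13) (nat_lit 3))
    (@En.n l830 (nat_lit 4066) (nat_lit 0) (nat_lit 3))
    (@En.n l619 (nat_lit 7922) (nat_lit 0) (nat_lit 11))
    (@En.n l831 (nat_lit 4066) (nat_lit 3) (nat_lit 13))
    (@En.i (nat_lit 7621) (nat_lit 2) (nat_lit 13))
    (@En.n l17 (nat_lit 4061) (nat_lit 15) (nat_lit 2))))
  (@Cl.mk (nat_lit 0x2000d000d000a000300030009000d000c00060003000c00040007000e0004) (nat_lit 0x790007990000020) (nat_lit 16) Lb.e (@T16.mk En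
    (@En.n l4172 (nat_lit 4068) (nat_lit 4) (nat_lit 4))
    (@En.n l2698 (nat_lit 841) (nat_lit 1) (nat_lit 14))
    (@En.n l4172 (nat_lit 4117) (nat_lit 11) (nat_lit 7))
    (@En.n l28 (nat_lit 813) (nat_lit 3) (nat_lit 4))
    (@En.n l13266 (nat_lit 6105) (nat_lit 9) (nat_lit 12))
    (@En.n l28 (nat_lit 4061) (nat_lit 5) (nat_lit 3))
    (@En.i (nat_lit 7536) (nat_lit 0) (nat_lit 6))
    (@En.n l77 (nat_lit 4063) (nat_lit 8) (nat_lit 12))
    (@En.i (nat_lit 3757) (nat_lit 9) (nat_lit 13))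
    (@En.n l476 (nat_lit 8355) (nat_lit 10) (nat_lit 9))
    (@En.n l152 (nat_lit 4060) (nat_lit 13) (nat_lit 3))
    (@En.n l17269 (nat_lit 4064) (nat_lit 0) (nat_lit 3))
    (@En.n l97 (nat_lit 7920) (nat_lit 0) (nat_lit 10))
    (@En.n l17264 (nat_lit 4064) (nat_lit 3) (nat_lit 13))
    (@En.i (nat_lit 7619) (nat_lit 2) (nat_lit 13))
    (@En.n l17 (nat_lit 4062) (nat_lit 15) (nat_lit 2))))
  (@Cl.mk (nat_lit 0x2000d000d000b000300030009000c0005000d000b000400030007000e0005) (nat_lit 0x8a000780a000060) (nat_lit 16) Lb.e (@T16.mk En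
    (@En.n l9750 (nat_lit 5998) (nat_lit 4) (nat_lit 5))
    (@En.n l2698 (nat_lit 589) (nat_lit 1) (nat_lit 14))
    (@En.n l4172 (nat_lit 4062) (nat_lit 2) (nat_lit 7))
    (@En.n l7 (nat_lit 4061) (nat_lit 3) (nat_lit 3))
    (@En.n l1422 (nat_lit 816) (nat_lit 0) (nat_lit 4))
    (@En.i (nat_lit 6103) (nat_lit 10) (nat_lit 11))
    (@En.n l5592 (nat_lit 1205) (nat_lit 7) (nat_lit 13))
    (@En.i (nat_lit 8509) (nat_lit 7) (nat_lit 5))
    (@En.i (nat_lit 2644) (nat_lit 9) (nat_lit 12))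
    (@En.n l476 (nat_lit 8236) (nat_lit 10) (nat_lit 9))
    (@En.n l152 (nat_lit 4059) (nat_lit 13) (nat_lit 3))
    (@En.n l830 (nat_lit 4065) (nat_lit 0) (nat_lit 3))
    (@En.n l619 (nat_lit 7921) (nat_lit 0) (nat_lit 11))
    (@En.n l831 (nat_lit 4065) (nat_lit 3) (nat_lit 13))
    (@En.i (nat_lit 7620) (nat_lit 2) (nat_lit 13))
    (@En.n l17 (nat_lit 4063) (nat_lit 15) (nat_lit 2))))
noncomputable def a254 : T16 Cl := @T16.mk Cl
  (@Cl.mk (nat_lit 0x20009000d000c00070003000c00040007000e00040002000d0009000e0003) (nat_lit 0x739000005008050) (nat_lit 16) Lb.e (@T16.mk En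
    (@En.n l14921 (nat_lit 4062) (nat_lit 11) (nat_lit 3))
    (@En.n l561 (nat_lit 13395) (nat_lit 0) (nat_lit 14))
    (@En.n l13443 (nat_lit 7005) (nat_lit 2) (nat_lit 9))
    (@En.n l561 (nat_lit 7616) (nat_lit 2) (nat_lit 13))
    (@En.n l7 (nat_lit 4064) (nat_lit 4) (nat_lit 2))
    (@En.n l28 (nat_lit 6001) (nat_lit 5) (nat_lit 4))
    (@En.n l561 (nat_lit 845) (nat_lit 7) (nat_lit 14))
    (@En.i (nat_lit 4116) (nat_lit 11) (nat_lit 7))
    (@En.n l5732 (nat_lit 811) (nat_lit 8) (nat_lit 4))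
    (@En.n l4373 (nat_lit 6104) (nat_lit 10) (nat_lit 12))
    (@En.n l407 (nat_lit 4066) (nat_lit 10) (nat_lit 3))
    (@En.i (nat_lit 8270) (nat_lit 12) (nat_lit 7))
    (@En.n l4718 (nat_lit 4065) (nat_lit 13) (nat_lit 12))
    (@En.n l13443 (nat_lit 3754) (nat_lit 9) (nat_lit 13))
    (@En.n l23902 (nat_lit 8354) (nat_lit 10) (nat_lit 9))
    (@En.n l17 (nat_lit 4064) (nat_lit 15) (nat_lit 2))))
  (@Cl.mk (nat_lit 0x20009000c0006000d000b000400030007000e00050002000d000a000e0003) (nat_lit 0x780900006009080) (nat_lit 16) Lb.e (@T16.mk En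
    (@En.n l2604 (nat_lit 4063) (nat_lit 11) (nat_lit 3))
    (@En.i (nat_lit 13396) (nat_lit 0) (nat_lit 14))
    (@En.n l2605 (nat_lit 7002) (nat_lit 2) (nat_lit 10))
    (@En.i (nat_lit 7617) (nat_lit 2) (nat_lit 13))
    (@En.n l17 (nat_lit 4065) (nat_lit 4) (nat_lit 2))
    (@En.i (nat_lit 6101) (nat_lit 5) (nat_lit 5))
    (@En.i (nat_lit 590) (nat_lit 7) (nat_lit 14))
    (@En.n l4693 (nat_lit 4064) (nat_lit 7) (nat_lit 7))
    (@En.n l50 (nat_lit 4066) (nat_lit 8) (nat_lit 3))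
    (@En.n l4799 (nat_lit 817) (nat_lit 0) (nat_lit 4))
    (@En.n l217 (nat_lit 6102) (nat_lit 11) (nat_lit 11))
    (@En.n l5378 (nat_lit 1202) (nat_lit 12) (nat_lit 13))
    (@En.n l11826 (nat_lit 8511) (nat_lit 13) (nat_lit 6))
    (@En.n l2605 (nat_lit 3749) (nat_lit 14) (nat_lit 12))
    (@En.n l2611 (nat_lit 8238) (nat_lit 10) (nat_lit 9))
    (@En.n l107 (nat_lit 4065) (nat_lit 15) (nat_lit 2))))
  (@Cl.mk (nat_lit 0x20009000d0006000d0003000c00030007000e00040002000d000a000e0003) (nat_lit 0x730a00002009050) (nat_lit 16) Lb.e (@T16.mk En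
    (@En.n l2604 (nat_lit 4061) (nat_lit 11) (nat_lit 3))
    (@En.i (nat_lit 13397) (nat_lit 0) (nat_lit 14))
    (@En.n l2605 (nat_lit 7001) (nat_lit 2) (nat_lit 10))
    (@En.i (nat_lit 7618) (nat_lit 2) (nat_lit 13))
    (@En.n l17 (nat_lit 4066) (nat_lit 4) (nat_lit 2))
    (@En.i (nat_lit 6100) (nat_lit 5) (nat_lit 4))
    (@En.i (nat_lit 596) (nat_lit 7) (nat_lit 14))
    (@En.n l5384 (nat_lit 4119) (nat_lit 7) (nat_lit 7))
    (@En.i (nat_lit 4065) (nat_lit 8) (nat_lit 3))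
    (@En.n l1357 (nat_lit 6168) (nat_lit 0) (nat_lit 12))
    (@En.n l433 (nat_lit 4064) (nat_lit 10) (nat_lit 3))
    (@En.n l5378 (nat_lit 1204) (nat_lit 12) (nat_lit 13))
    (@En.n l1357 (nat_lit 8514) (nat_lit 13) (nat_lit 6))
    (@En.n l2605 (nat_lit 3753) (nat_lit 14) (nat_lit 13))
    (@En.n l2611 (nat_lit 8357) (nat_lit 10) (nat_lit 9))
    (@En.n l107 (nat_lit 4066) (nat_lit 15) (nat_lit 2))))
  (@Cl.mk (nat_lit 0x300030008000d0005000c0003000c000c0004000800040004000d000d000b) (nat_lit 0x49020010300030) (nat_lit 16) Lb.e (@T16.mk En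
    (@En.n l8047 (nat_lit 7484) (nat_lit 0) (nat_lit 11))
    (@En.n l1589 (nat_lit 6100) (nat_lit 3) (nat_lit 13))
    (@En.i (nat_lit 10433) (nat_lit 2) (nat_lit 13))
    (@En.n l11228 (nat_lit 5993) (nat_lit 12) (nat_lit 4))
    (@En.n l25054 (nat_lit 6103) (nat_lit 4) (nat_lit 4))
    (@En.n l3522 (nat_lit 3572) (nat_lit 5) (nat_lit 8))
    (@En.n l8047 (nat_lit 6181) (nat_lit 6) (nat_lit 4))
    (@En.n l5653 (nat_lit 4061) (nat_lit 4) (nat_lit 12))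
    (@En.n l4316 (nat_lit 6184) (nat_lit 9) (nat_lit 12))
    (@En.i (nat_lit 4068) (nat_lit 9) (nat_lit 3))
    (@En.n l28 (nat_lit 3007) (nat_lit 0) (nat_lit 12))
    (@En.i (nat_lit 8520) (nat_lit 12) (nat_lit 5))
    (@En.n l77 (nat_lit 3761) (nat_lit 13) (nat_lit 13))
    (@En.n l8047 (nat_lit 8362) (nat_lit 14) (nat_lit 8))
    (@En.n l27873 (nat_lit 4069) (nat_lit 13) (nat_lit 3))
    (@En.n l1798 (nat_lit 6100) (nat_lit 0) (nat_lit 3))))
  (@Cl.mk (nat_lit 0x300030008000d000b00060003000c000c0005000800040004000d000d000a) (nat_lit 0x2a200010400290) (nat_lit 16) Lb.e (@T16.mk En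
    (@En.n l8047 (nat_lit 7485) (nat_lit 0) (nat_lit 10))
    (@En.n l27138 (nat_lit 6001) (nat_lit 3) (nat_lit 13))
    (@En.n l30903 (nat_lit 10075) (nat_lit 2) (nat_lit 13))
    (@En.n l11228 (nat_lit 5990) (nat_lit 12) (nat_lit 4))
    (@En.n l25054 (nat_lit 6108) (nat_lit 4) (nat_lit 4))
    (@En.n l3522 (nat_lit 4113) (nat_lit 10) (nat_lit 8))
    (@En.n l8047 (nat_lit 4184) (nat_lit 6) (nat_lit 5))
    (@En.n l5653 (nat_lit 4062) (nat_lit 4) (nat_lit 12))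
    (@En.n l30566 (nat_lit 6179) (nat_lit 9) (nat_lit 12))
    (@En.n l142 (nat_lit 4067) (nat_lit 9) (nat_lit 3))
    (@En.n l30904 (nat_lit 4626) (nat_lit 0) (nat_lit 6))
    (@En.i (nat_lit 5998) (nat_lit 12) (nat_lit 11))
    (@En.n l77 (nat_lit 3758) (nat_lit 13) (nat_lit 13))
    (@En.n l8047 (nat_lit 8363) (nat_lit 14) (nat_lit 8))
    (@En.n l27873 (nat_lit 5999) (nat_lit 13) (nat_lit 3))
    (@En.n l25055 (nat_lit 6001) (nat_lit 0) (nat_lit 3))))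
  (@Cl.mk (nat_lit 0x2000c00030008000d0004000c0003000c000c0004000800040004000e000d) (nat_lit 0x1902001060001) (nat_lit 16) Lb.e (@T16.mk En
    (@En.n l6108 (nat_lit 4067) (nat_lit 2) (nat_lit 13))
    (@En.n l899 (nat_lit 9573) (nat_lit 1) (nat_lit 14))
    (@En.n l152 (nat_lit 5992) (nat_lit 12) (nat_lit 4))
    (@En.n l3851 (nat_lit 6157) (nat_lit 3) (nat_lit 4))
    (@En.n l617 (nat_lit 3576) (nat_lit 4) (nat_lit 8))
    (@En.i (nat_lit 6180) (nat_lit 5) (nat_lit 4))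
    (@En.n l13561 (nat_lit 4058) (nat_lit 7) (nat_lit 12))
    (@En.i (nat_lit 4293) (nat_lit 8) (nat_lit 12))
    (@En.i (nat_lit 5999) (nat_lit 8) (nat_lit 3))
    (@En.n l5347 (nat_lit 3008) (nat_lit 10) (nat_lit 12))
    (@En.i (nat_lit 8554) (nat_lit 10) (nat_lit 4))
    (@En.n l2213 (nat_lit 3817) (nat_lit 12) (nat_lit 13))
    (@En.i (nat_lit 3473) (nat_lit 13) (nat_lit 8))
    (@En.n l9448 (nat_lit 4067) (nat_lit 14) (nat_lit 3))
    (@En.i (nat_lit 7873) (nat_lit 0) (nat_lit 12))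
    (@En.n l28 (nat_lit 4069) (nat_lit 15) (nat_lit 2))))
  (@Cl.mk (nat_lit 0x20005000d0006000d0003000d0003000e00030002000c000b000a000e0004) (nat_lit 0x70a020300a82c0) (nat_lit 16) Lb.e (@T16.mk En
    (@En.n l152 (nat_lit 3820) (nat_lit 10) (nat_lit 4))
    (@En.n l5859 (nat_lit 4052) (nat_lit 1) (nat_lit 14))
    (@En.n l6000 (nat_lit 4048) (nat_lit 13) (nat_lit 10))
    (@En.n l2691 (nat_lit 3715) (nat_lit 3) (nat_lit 11))
    (@En.i (nat_lit 9760) (nat_lit 5) (nat_lit 12))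
    (@En.n l17 (nat_lit 4070) (nat_lit 5) (nat_lit 2))
    (@En.i (nat_lit 3841) (nat_lit 6) (nat_lit 3))
    (@En.i (nat_lit 13668) (nat_lit 0) (nat_lit 14))
    (@En.i (nat_lit 3752) (nat_lit 8) (nat_lit 3))
    (@En.n l1867 (nat_lit 3889) (nat_lit 10) (nat_lit 13))
    (@En.i (nat_lit 4071) (nat_lit 10) (nat_lit 3))
    (@En.i (nat_lit 1149) (nat_lit 12) (nat_lit 13))
    (@En.i (nat_lit 1162) (nat_lit 13) (nat_lit 6))
    (@En.n l5579 (nat_lit 4072) (nat_lit 8) (nat_lit 13))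
    (@En.n l4976 (nat_lit 2734) (nat_lit 13) (nat_lit 5))
    (@En.n l3 (nat_lit 4070) (nat_lit 15) (nat_lit 2))))
  (@Cl.mk (nat_lit 0x20005000d000c00070003000d0004000e00030002000c000b0009000e0004) (nat_lit 0x780030600a77a0) (nat_lit 16) Lb.e (@T16.mk En
    (@En.n l152 (nat_lit 3821) (nat_lit 10) (nat_lit 4))
    (@En.n l5859 (nat_lit 4055) (nat_lit 1) (nat_lit 14))
    (@En.n l5411 (nat_lit 4097) (nat_lit 2) (nat_lit 9))
    (@En.n l97 (nat_lit 3716) (nat_lit 3) (nat_lit 11))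
    (@En.n l10008 (nat_lit 9757) (nat_lit 5) (nat_lit 12))
    (@En.n l17 (nat_lit 4071) (nat_lit 5) (nat_lit 2))
    (@En.i (nat_lit 3826) (nat_lit 6) (nat_lit 3))
    (@En.n l12483 (nat_lit 13669) (nat_lit 0) (nat_lit 14))
    (@En.n l25351 (nat_lit 3751) (nat_lit 8) (nat_lit 4))
    (@En.n l4003 (nat_lit 4424) (nat_lit 10) (nat_lit 13))
    (@En.n l7 (nat_lit 4070) (nat_lit 10) (nat_lit 3))
    (@En.n l25352 (nat_lit 4504) (nat_lit 12) (nat_lit 7))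
    (@En.n l644 (nat_lit 3752) (nat_lit 13) (nat_lit 12))
    (@En.n l10008 (nat_lit 4073) (nat_lit 8) (nat_lit 13))
    (@En.n l4976 (nat_lit 2900) (nat_lit 13) (nat_lit 5))
    (@En.n l3 (nat_lit 4071) (nat_lit 15) (nat_lit 2))))
  (@Cl.mk (nat_lit 0x2000c0007000b000e00040002000d0005000c00030009000d0004000e0003) (nat_lit 0x8700600060000) (nat_lit 16) Lb.e (@T16.mk En
    (@En.i (nat_lit 4076) (nat_lit 6) (nat_lit 3))
    (@En.i (nat_lit 13833) (nat_lit 0) (nat_lit 14))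
    (@En.i (nat_lit 5877) (nat_lit 8) (nat_lit 4))
    (@En.i (nat_lit 8299) (nat_lit 10) (nat_lit 13))
    (@En.i (nat_lit 3603) (nat_lit 11) (nat_lit 9))
    (@En.n l117 (nat_lit 4073) (nat_lit 5) (nat_lit 3))
    (@En.n l781 (nat_lit 12809) (nat_lit 0) (nat_lit 12))
    (@En.i (nat_lit 4074) (nat_lit 14) (nat_lit 5))
    (@En.n l2125 (nat_lit 5525) (nat_lit 9) (nat_lit 13))
    (@En.n l17 (nat_lit 4072) (nat_lit 9) (nat_lit 2))
    (@En.n l3187 (nat_lit 6317) (nat_lit 10) (nat_lit 4))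
    (@En.i (nat_lit 4123) (nat_lit 4) (nat_lit 14))
    (@En.n l1326 (nat_lit 4055) (nat_lit 2) (nat_lit 11))
    (@En.i (nat_lit 6006) (nat_lit 14) (nat_lit 7))
    (@En.i (nat_lit 6122) (nat_lit 9) (nat_lit 12))
    (@En.n l7 (nat_lit 4072) (nat_lit 15) (nat_lit 2))))
  (@Cl.mk (nat_lit 0x2000c0007000a000e00040002000d000b000600030009000d0005000e0003) (nat_lit 0x700600050000) (nat_lit 16) Lb.e (@T16.mk En
    (@En.i (nat_lit 4075) (nat_lit 6) (nat_lit 3))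
    (@En.n l1897 (nat_lit 13832) (nat_lit 0) (nat_lit 14))
    (@En.i (nat_lit 5878) (nat_lit 2) (nat_lit 5))
    (@En.i (nat_lit 8303) (nat_lit 10) (nat_lit 13))
    (@En.n l1690 (nat_lit 4074) (nat_lit 11) (nat_lit 9))
    (@En.n l152 (nat_lit 4072) (nat_lit 5) (nat_lit 3))
    (@En.i (nat_lit 3113) (nat_lit 0) (nat_lit 6))
    (@En.n l619 (nat_lit 8901) (nat_lit 14) (nat_lit 11))
    (@En.i (nat_lit 5554) (nat_lit 9) (nat_lit 13))
    (@En.n l17 (nat_lit 4073) (nat_lit 9) (nat_lit 2))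
    (@En.n l1073 (nat_lit 6310) (nat_lit 10) (nat_lit 4))
    (@En.i (nat_lit 4121) (nat_lit 12) (nat_lit 14))
    (@En.n l11612 (nat_lit 4093) (nat_lit 2) (nat_lit 10))
    (@En.i (nat_lit 6005) (nat_lit 14) (nat_lit 7))
    (@En.i (nat_lit 6121) (nat_lit 9) (nat_lit 12))
    (@En.n l7 (nat_lit 4073) (nat_lit 15) (nat_lit 2))))
  (@Cl.mk (nat_lit 0x20005000c00060009000d0004000e00030002000b0007000b000a000e0005) (nat_lit 0x400000008180) (nat_lit 16) Lb.e (@T16.mk En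
    (@En.n l3187 (nat_lit 6318) (nat_lit 9) (nat_lit 5))
    (@En.n l3 (nat_lit 4072) (nat_lit 11) (nat_lit 14))
    (@En.n l3 (nat_lit 4073) (nat_lit 12) (nat_lit 10))
    (@En.n l1203 (nat_lit 4071) (nat_lit 3) (nat_lit 11))
    (@En.n l10027 (nat_lit 6004) (nat_lit 4) (nat_lit 7))
    (@En.i (nat_lit 6124) (nat_lit 6) (nat_lit 11))
    (@En.n l7 (nat_lit 4074) (nat_lit 6) (nat_lit 2))
    (@En.i (nat_lit 4077) (nat_lit 7) (nat_lit 3))
    (@En.i (nat_lit 13834) (nat_lit 0) (nat_lit 14))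
    (@En.i (nat_lit 5879) (nat_lit 9) (nat_lit 4))
    (@En.i (nat_lit 7454) (nat_lit 11) (nat_lit 13))
    (@En.n l5033 (nat_lit 3602) (nat_lit 12) (nat_lit 9))
    (@En.i (nat_lit 3106) (nat_lit 13) (nat_lit 6))
    (@En.n l3105 (nat_lit 8902) (nat_lit 7) (nat_lit 12))
    (@En.n l3106 (nat_lit 7057) (nat_lit 13) (nat_lit 5))
    (@En.n l17 (nat_lit 4074) (nat_lit 15) (nat_lit 2))))
  (@Cl.mk (nat_lit 0x2000d000a000600030009000d000d000600030003000c0007000a000e0004) (nat_lit 0x500060100060760) (nat_lit 16) Lb.e (@T16.mk En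
    (@En.n l1073 (nat_lit 4081) (nat_lit 9) (nat_lit 4))
    (@En.i (nat_lit 4115) (nat_lit 1) (nat_lit 14))
    (@En.n l1792 (nat_lit 4094) (nat_lit 2) (nat_lit 10))
    (@En.i (nat_lit 5452) (nat_lit 3) (nat_lit 7))
    (@En.i (nat_lit 6145) (nat_lit 9) (nat_lit 12))
    (@En.n l1788 (nat_lit 4079) (nat_lit 13) (nat_lit 3))
    (@En.n l28 (nat_lit 4073) (nat_lit 0) (nat_lit 3))
    (@En.n l473 (nat_lit 7794) (nat_lit 0) (nat_lit 6))
    (@En.n l77 (nat_lit 4073) (nat_lit 3) (nat_lit 13))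
    (@En.i (nat_lit 8340) (nat_lit 10) (nat_lit 13))
    (@En.n l1690 (nat_lit 4077) (nat_lit 11) (nat_lit 9))
    (@En.n l152 (nat_lit 4076) (nat_lit 11) (nat_lit 3))
    (@En.n l1792 (nat_lit 3109) (nat_lit 0) (nat_lit 6))
    (@En.n l97 (nat_lit 8903) (nat_lit 14) (nat_lit 10))
    (@En.n l1236 (nat_lit 3928) (nat_lit 8) (nat_lit 13))
    (@En.n l17 (nat_lit 4075) (nat_lit 15) (nat_lit 2))))
  (@Cl.mk (nat_lit 0x2000d0005000b00030009000d000d000500030003000c0007000b000e0004) (nat_lit 0x700050100060870) (nat_lit 16) Lb.e (@T16.mk En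
    (@En.n l3187 (nat_lit 4082) (nat_lit 9) (nat_lit 4))
    (@En.i (nat_lit 3575) (nat_lit 4) (nat_lit 14))
    (@En.n l1203 (nat_lit 3844) (nat_lit 2) (nat_lit 11))
    (@En.i (nat_lit 5453) (nat_lit 3) (nat_lit 7))
    (@En.i (nat_lit 6146) (nat_lit 9) (nat_lit 12))
    (@En.n l142 (nat_lit 4080) (nat_lit 13) (nat_lit 3))
    (@En.n l28 (nat_lit 4072) (nat_lit 0) (nat_lit 3))
    (@En.i (nat_lit 7796) (nat_lit 0) (nat_lit 5))
    (@En.n l77 (nat_lit 4072) (nat_lit 3) (nat_lit 13))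
    (@En.i (nat_lit 8302) (nat_lit 10) (nat_lit 13))
    (@En.i (nat_lit 3595) (nat_lit 11) (nat_lit 9))
    (@En.n l117 (nat_lit 4075) (nat_lit 11) (nat_lit 3))
    (@En.n l781 (nat_lit 8951) (nat_lit 0) (nat_lit 11))
    (@En.i (nat_lit 4077) (nat_lit 14) (nat_lit 5))
    (@En.n l2125 (nat_lit 5523) (nat_lit 8) (nat_lit 13))
    (@En.n l17 (nat_lit 4076) (nat_lit 15) (nat_lit 2))))
  (@Cl.mk (nat_lit 0x20005000b00060009000d000d000500030003000b0007000b000a000e0005) (nat_lit 0x501000009880) (nat_lit 16) Lb.e (@T16.mk En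
    (@En.n l3187 (nat_lit 4083) (nat_lit 8) (nat_lit 5))
    (@En.n l3 (nat_lit 4076) (nat_lit 1) (nat_lit 14))
    (@En.n l3 (nat_lit 4075) (nat_lit 2) (nat_lit 10))
    (@En.n l1203 (nat_lit 3826) (nat_lit 3) (nat_lit 11))
    (@En.n l21905 (nat_lit 6003) (nat_lit 4) (nat_lit 7))
    (@En.i (nat_lit 6147) (nat_lit 6) (nat_lit 11))
    (@En.n l21906 (nat_lit 4078) (nat_lit 6) (nat_lit 3))
    (@En.n l28 (nat_lit 4074) (nat_lit 7) (nat_lit 3))
    (@En.i (nat_lit 7795) (nat_lit 8) (nat_lit 5))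
    (@En.n l77 (nat_lit 4074) (nat_lit 10) (nat_lit 13))
    (@En.i (nat_lit 8341) (nat_lit 11) (nat_lit 13))
    (@En.n l15291 (nat_lit 3599) (nat_lit 12) (nat_lit 9))
    (@En.n l1328 (nat_lit 3108) (nat_lit 13) (nat_lit 6))
    (@En.n l3105 (nat_lit 8904) (nat_lit 14) (nat_lit 11))
    (@En.n l3106 (nat_lit 7056) (nat_lit 13) (nat_lit 5))
    (@En.n l17 (nat_lit 4077) (nat_lit 15) (nat_lit 2))))
  (@Cl.mk (nat_lit 0x20005000a00060009000e000d000200060003000b0007000b000a000e0005) (nat_lit 0x451000008580) (nat_lit 16) Lb.e (@T16.mk En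
    (@En.n l7645 (nat_lit 6339) (nat_lit 7) (nat_lit 5))
    (@En.n l8846 (nat_lit 4080) (nat_lit 9) (nat_lit 14))
    (@En.n l20174 (nat_lit 4079) (nat_lit 10) (nat_lit 10))
    (@En.n l4240 (nat_lit 3840) (nat_lit 3) (nat_lit 11))
    (@En.n l1253 (nat_lit 6002) (nat_lit 4) (nat_lit 7))
    (@En.i (nat_lit 11010) (nat_lit 13) (nat_lit 11))
    (@En.n l6203 (nat_lit 4077) (nat_lit 6) (nat_lit 3))
    (@En.n l7507 (nat_lit 3458) (nat_lit 7) (nat_lit 6))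
    (@En.n l11 (nat_lit 4078) (nat_lit 8) (nat_lit 2))
    (@En.n l25387 (nat_lit 4077) (nat_lit 10) (nat_lit 13))
    (@En.n l6203 (nat_lit 8322) (nat_lit 11) (nat_lit 14))
    (@En.n l1253 (nat_lit 3597) (nat_lit 2) (nat_lit 9))
    (@En.n l4240 (nat_lit 3110) (nat_lit 13) (nat_lit 6))
    (@En.i (nat_lit 8943) (nat_lit 4) (nat_lit 10))
    (@En.n l7507 (nat_lit 7055) (nat_lit 5) (nat_lit 5))
    (@En.n l3 (nat_lit 4078) (nat_lit 15) (nat_lit 2))))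
  (@Cl.mk (nat_lit 0x200070003000c0007000a000e00040002000d0009000600030009000e000d) (nat_lit 0x6047009000561) (nat_lit 16) Lb.e (@T16.mk En
    (@En.n l541 (nat_lit 4075) (nat_lit 9) (nat_lit 13))
    (@En.n l539 (nat_lit 8323) (nat_lit 1) (nat_lit 14))
    (@En.n l11154 (nat_lit 4078) (nat_lit 11) (nat_lit 9))
    (@En.n l11679 (nat_lit 4080) (nat_lit 3) (nat_lit 3))
    (@En.i (nat_lit 3112) (nat_lit 0) (nat_lit 6))
    (@En.i (nat_lit 8942) (nat_lit 5) (nat_lit 9))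
    (@En.n l564 (nat_lit 5555) (nat_lit 7) (nat_lit 13))
    (@En.n l7 (nat_lit 4079) (nat_lit 7) (nat_lit 2))
    (@En.n l28 (nat_lit 6338) (nat_lit 8) (nat_lit 4))
    (@En.n l8521 (nat_lit 4117) (nat_lit 10) (nat_lit 14))
    (@En.i (nat_lit 4107) (nat_lit 11) (nat_lit 10))
    (@En.n l1529 (nat_lit 5454) (nat_lit 12) (nat_lit 7))
    (@En.i (nat_lit 11008) (nat_lit 13) (nat_lit 12))
    (@En.n l539 (nat_lit 4075) (nat_lit 5) (nat_lit 3))
    (@En.i (nat_lit 3459) (nat_lit 0) (nat_lit 7))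
    (@En.n l3 (nat_lit 4079) (nat_lit 15) (nat_lit 2))))
noncomputable def a255 : T16 Cl := @T16.mk Cl
  (@Cl.mk (nat_lit 0x200060003000c0007000b000e00040002000d0005000a00030009000e000d) (nat_lit 0x8700b000661) (nat_lit 16) Lb.e (@T16.mk En
    (@En.n l143 (nat_lit 4076) (nat_lit 9) (nat_lit 13))
    (@En.i (nat_lit 8321) (nat_lit 1) (nat_lit 14))
    (@En.n l11658 (nat_lit 3598) (nat_lit 2) (nat_lit 9))
    (@En.n l291 (nat_lit 4079) (nat_lit 3) (nat_lit 3))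
    (@En.n l8798 (nat_lit 8950) (nat_lit 4) (nat_lit 10))
    (@En.n l8478 (nat_lit 4078) (nat_lit 14) (nat_lit 5))
    (@En.n l2125 (nat_lit 5524) (nat_lit 7) (nat_lit 13))
    (@En.n l17 (nat_lit 4080) (nat_lit 7) (nat_lit 2))
    (@En.n l11659 (nat_lit 6323) (nat_lit 8) (nat_lit 4))
    (@En.i (nat_lit 4114) (nat_lit 10) (nat_lit 14))
    (@En.n l291 (nat_lit 4112) (nat_lit 11) (nat_lit 11))
    (@En.n l11658 (nat_lit 5455) (nat_lit 12) (nat_lit 7))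
    (@En.n l453 (nat_lit 11009) (nat_lit 13) (nat_lit 12))
    (@En.i (nat_lit 4076) (nat_lit 5) (nat_lit 3))
    (@En.n l27 (nat_lit 3456) (nat_lit 6) (nat_lit 6))
    (@En.n l28 (nat_lit 4080) (nat_lit 15) (nat_lit 2))))
  (@Cl.mk (nat_lit 0x30003000c000c0008000b00040004000d000a000500030008000d000d0006) (nat_lit 0x75300200030a0) (nat_lit 16) Lb.e (@T16.mk En
    (@En.n l13353 (nat_lit 6341) (nat_lit 0) (nat_lit 6))
    (@En.n l61 (nat_lit 6310) (nat_lit 3) (nat_lit 13))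
    (@En.n l3505 (nat_lit 8339) (nat_lit 2) (nat_lit 13))
    (@En.n l3506 (nat_lit 4083) (nat_lit 3) (nat_lit 8))
    (@En.n l28 (nat_lit 4082) (nat_lit 4) (nat_lit 3))
    (@En.n l3503 (nat_lit 3114) (nat_lit 0) (nat_lit 5))
    (@En.i (nat_lit 8871) (nat_lit 13) (nat_lit 10))
    (@En.n l13354 (nat_lit 2956) (nat_lit 8) (nat_lit 13))
    (@En.n l3498 (nat_lit 6311) (nat_lit 12) (nat_lit 4))
    (@En.n l13355 (nat_lit 6226) (nat_lit 9) (nat_lit 4))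
    (@En.i (nat_lit 4096) (nat_lit 7) (nat_lit 11))
    (@En.n l13356 (nat_lit 6326) (nat_lit 12) (nat_lit 8))
    (@En.n l3501 (nat_lit 4075) (nat_lit 4) (nat_lit 12))
    (@En.n l10889 (nat_lit 6848) (nat_lit 9) (nat_lit 12))
    (@En.n l4121 (nat_lit 6338) (nat_lit 13) (nat_lit 3))
    (@En.n l18 (nat_lit 6310) (nat_lit 0) (nat_lit 3))))
  (@Cl.mk (nat_lit 0x30003000c000c0008000c00040004000d0004000b00030008000d000d0005) (nat_lit 0x73a0030004900) (nat_lit 16) Lb.e (@T16.mk En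
    (@En.n l3506 (nat_lit 6308) (nat_lit 0) (nat_lit 5))
    (@En.n l61 (nat_lit 6317) (nat_lit 3) (nat_lit 13))
    (@En.n l564 (nat_lit 8310) (nat_lit 2) (nat_lit 13))
    (@En.n l3506 (nat_lit 2875) (nat_lit 3) (nat_lit 8))
    (@En.i (nat_lit 4081) (nat_lit 4) (nat_lit 3))
    (@En.i (nat_lit 8954) (nat_lit 0) (nat_lit 11))
    (@En.i (nat_lit 4083) (nat_lit 6) (nat_lit 4))
    (@En.n l9882 (nat_lit 2952) (nat_lit 8) (nat_lit 13))
    (@En.n l3498 (nat_lit 6316) (nat_lit 12) (nat_lit 4))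
    (@En.n l13355 (nat_lit 6085) (nat_lit 9) (nat_lit 4))
    (@En.i (nat_lit 3827) (nat_lit 0) (nat_lit 12))
    (@En.n l564 (nat_lit 6325) (nat_lit 12) (nat_lit 8))
    (@En.n l4003 (nat_lit 4076) (nat_lit 4) (nat_lit 12))
    (@En.i (nat_lit 6851) (nat_lit 9) (nat_lit 12))
    (@En.n l5337 (nat_lit 6323) (nat_lit 13) (nat_lit 3))
    (@En.n l18 (nat_lit 6317) (nat_lit 0) (nat_lit 3))))
  (@Cl.mk (nat_lit 0x30003000b000b0008000c000b000500050004000b00050008000d000d0005) (nat_lit 0x14a4000002000) (nat_lit 16) Lb.e (@T16.mk En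
    (@En.n l3506 (nat_lit 6340) (nat_lit 0) (nat_lit 5))
    (@En.n l61 (nat_lit 6318) (nat_lit 3) (nat_lit 13))
    (@En.n l564 (nat_lit 8493) (nat_lit 2) (nat_lit 13))
    (@En.n l3506 (nat_lit 3600) (nat_lit 10) (nat_lit 8))
    (@En.n l137 (nat_lit 875) (nat_lit 4) (nat_lit 5))
    (@En.i (nat_lit 8905) (nat_lit 6) (nat_lit 11))
    (@En.n l17159 (nat_lit 4491) (nat_lit 6) (nat_lit 4))
    (@En.n l3498 (nat_lit 6315) (nat_lit 11) (nat_lit 5))
    (@En.n l936 (nat_lit 6242) (nat_lit 8) (nat_lit 5))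
    (@En.n l55 (nat_lit 4081) (nat_lit 10) (nat_lit 11))
    (@En.i (nat_lit 3822) (nat_lit 11) (nat_lit 12))
    (@En.n l26189 (nat_lit 6329) (nat_lit 12) (nat_lit 8))
    (@En.n l4003 (nat_lit 4077) (nat_lit 5) (nat_lit 11))
    (@En.i (nat_lit 6846) (nat_lit 14) (nat_lit 11))
    (@En.n l26190 (nat_lit 6339) (nat_lit 13) (nat_lit 3))
    (@En.n l18 (nat_lit 6318) (nat_lit 0) (nat_lit 3))))
  (@Cl.mk (nat_lit 0x200050003000e000b0002000c000c000b000500040004000b0005000e000d) (nat_lit 0xc402240004051) (nat_lit 16) Lb.e (@T16.mk En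
    (@En.n l6108 (nat_lit 2679) (nat_lit 6) (nat_lit 13))
    (@En.n l7270 (nat_lit 4085) (nat_lit 1) (nat_lit 14))
    (@En.n l5349 (nat_lit 1951) (nat_lit 2) (nat_lit 5))
    (@En.i (nat_lit 7478) (nat_lit 3) (nat_lit 11))
    (@En.n l12865 (nat_lit 3701) (nat_lit 4) (nat_lit 4))
    (@En.i (nat_lit 4022) (nat_lit 5) (nat_lit 4))
    (@En.n l12866 (nat_lit 3836) (nat_lit 6) (nat_lit 5))
    (@En.n l12867 (nat_lit 4025) (nat_lit 8) (nat_lit 11))
    (@En.n l1363 (nat_lit 2682) (nat_lit 9) (nat_lit 12))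
    (@En.n l12868 (nat_lit 2659) (nat_lit 10) (nat_lit 12))
    (@En.n l28 (nat_lit 4084) (nat_lit 10) (nat_lit 2))
    (@En.n l12869 (nat_lit 3706) (nat_lit 12) (nat_lit 11))
    (@En.n l12870 (nat_lit 5789) (nat_lit 13) (nat_lit 14))
    (@En.n l12871 (nat_lit 2679) (nat_lit 2) (nat_lit 3))
    (@En.n l781 (nat_lit 2976) (nat_lit 3) (nat_lit 5))
    (@En.n l3 (nat_lit 4084) (nat_lit 15) (nat_lit 2))))
  (@Cl.mk (nat_lit 0x2000800050004000e000b0002000c000c0008000500040004000b000e000c) (nat_lit 0x400c10145000341) (nat_lit 16) Lb.e (@T16.mk En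
    (@En.n l9379 (nat_lit 2683) (nat_lit 7) (nat_lit 12))
    (@En.n l4003 (nat_lit 4140) (nat_lit 4) (nat_lit 14))
    (@En.n l9380 (nat_lit 7479) (nat_lit 2) (nat_lit 11))
    (@En.n l4121 (nat_lit 3704) (nat_lit 3) (nat_lit 4))
    (@En.n l9380 (nat_lit 3886) (nat_lit 4) (nat_lit 4))
    (@En.i (nat_lit 3825) (nat_lit 5) (nat_lit 5))
    (@En.n l9381 (nat_lit 3683) (nat_lit 6) (nat_lit 8))
    (@En.n l61 (nat_lit 4086) (nat_lit 8) (nat_lit 12))
    (@En.n l4003 (nat_lit 888) (nat_lit 9) (nat_lit 12))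
    (@En.n l7 (nat_lit 4085) (nat_lit 9) (nat_lit 2))
    (@En.i (nat_lit 1380) (nat_lit 11) (nat_lit 11))
    (@En.n l645 (nat_lit 5788) (nat_lit 1) (nat_lit 14))
    (@En.i (nat_lit 3727) (nat_lit 2) (nat_lit 4))
    (@En.n l9382 (nat_lit 4084) (nat_lit 14) (nat_lit 5))
    (@En.n l9383 (nat_lit 4566) (nat_lit 4) (nat_lit 8))
    (@En.n l67 (nat_lit 4085) (nat_lit 15) (nat_lit 2))))
  (@Cl.mk (nat_lit 0x2000900050004000e000c0002000c00070004000e00040002000b000e000c) (nat_lit 0x500780300600451) (nat_lit 16) Lb.e (@T16.mk En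
    (@En.n l68 (nat_lit 2681) (nat_lit 7) (nat_lit 12))
    (@En.n l7201 (nat_lit 2906) (nat_lit 4) (nat_lit 14))
    (@En.n l9718 (nat_lit 8552) (nat_lit 2) (nat_lit 11))
    (@En.n l17 (nat_lit 4086) (nat_lit 3) (nat_lit 2))
    (@En.i (nat_lit 4085) (nat_lit 4) (nat_lit 4))
    (@En.i (nat_lit 4759) (nat_lit 1) (nat_lit 14))
    (@En.i (nat_lit 3834) (nat_lit 6) (nat_lit 4))
    (@En.i (nat_lit 4660) (nat_lit 14) (nat_lit 7))
    (@En.n l7201 (nat_lit 4436) (nat_lit 9) (nat_lit 12))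
    (@En.n l7 (nat_lit 4086) (nat_lit 9) (nat_lit 2))
    (@En.n l644 (nat_lit 3707) (nat_lit 11) (nat_lit 12))
    (@En.n l645 (nat_lit 5620) (nat_lit 1) (nat_lit 14))
    (@En.i (nat_lit 2655) (nat_lit 2) (nat_lit 4))
    (@En.n l4624 (nat_lit 2682) (nat_lit 14) (nat_lit 5))
    (@En.n l575 (nat_lit 4561) (nat_lit 4) (nat_lit 9))
    (@En.n l67 (nat_lit 4086) (nat_lit 15) (nat_lit 2))))
  (@Cl.mk (nat_lit 0x20005000e000b0002000c000c000a000500040004000c000b0006000e0004) (nat_lit 0xc40145000a5080) (nat_lit 16) Lb.e (@T16.mk En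
    (@En.n l50 (nat_lit 2683) (nat_lit 4) (nat_lit 4))
    (@En.n l11102 (nat_lit 4088) (nat_lit 1) (nat_lit 14))
    (@En.n l404 (nat_lit 3271) (nat_lit 2) (nat_lit 6))
    (@En.n l8170 (nat_lit 4084) (nat_lit 3) (nat_lit 11))
    (@En.n l4909 (nat_lit 7908) (nat_lit 9) (nat_lit 12))
    (@En.n l1577 (nat_lit 3703) (nat_lit 5) (nat_lit 4))
    (@En.i (nat_lit 3854) (nat_lit 6) (nat_lit 4))
    (@En.n l11103 (nat_lit 3826) (nat_lit 7) (nat_lit 5))
    (@En.n l575 (nat_lit 3080) (nat_lit 9) (nat_lit 10))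
    (@En.n l1578 (nat_lit 4089) (nat_lit 10) (nat_lit 12))
    (@En.n l107 (nat_lit 776) (nat_lit 11) (nat_lit 12))
    (@En.n l3 (nat_lit 4087) (nat_lit 11) (nat_lit 2))
    (@En.n l575 (nat_lit 2974) (nat_lit 13) (nat_lit 11))
    (@En.n l3423 (nat_lit 8970) (nat_lit 1) (nat_lit 14))
    (@En.i (nat_lit 2970) (nat_lit 13) (nat_lit 5))
    (@En.n l18 (nat_lit 4087) (nat_lit 15) (nat_lit 2))))
  (@Cl.mk (nat_lit 0x200090005000e000b0002000c000c0007000500040004000d000b000e0003) (nat_lit 0x50c40160000a470) (nat_lit 16) Lb.e (@T16.mk En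
    (@En.n l152 (nat_lit 3727) (nat_lit 5) (nat_lit 3))
    (@En.n l4003 (nat_lit 13101) (nat_lit 0) (nat_lit 14))
    (@En.n l97 (nat_lit 4085) (nat_lit 2) (nat_lit 11))
    (@En.n l4004 (nat_lit 7906) (nat_lit 9) (nat_lit 13))
    (@En.n l4005 (nat_lit 4126) (nat_lit 4) (nat_lit 4))
    (@En.n l4006 (nat_lit 3883) (nat_lit 5) (nat_lit 4))
    (@En.i (nat_lit 3844) (nat_lit 6) (nat_lit 5))
    (@En.n l4004 (nat_lit 3688) (nat_lit 7) (nat_lit 7))
    (@En.n l4007 (nat_lit 4090) (nat_lit 9) (nat_lit 12))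
    (@En.n l4003 (nat_lit 2218) (nat_lit 10) (nat_lit 12))
    (@En.n l7 (nat_lit 4088) (nat_lit 10) (nat_lit 2))
    (@En.i (nat_lit 3076) (nat_lit 12) (nat_lit 11))
    (@En.n l1140 (nat_lit 4129) (nat_lit 1) (nat_lit 14))
    (@En.n l4008 (nat_lit 4087) (nat_lit 14) (nat_lit 5))
    (@En.n l4009 (nat_lit 4565) (nat_lit 3) (nat_lit 9))
    (@En.n l3 (nat_lit 4088) (nat_lit 15) (nat_lit 2))))
  (@Cl.mk (nat_lit 0x20005000e000c0002000c00090004000e00040002000c000b0007000e0004) (nat_lit 0x780330600a1080) (nat_lit 16) Lb.e (@T16.mk En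
    (@En.n l8934 (nat_lit 2681) (nat_lit 4) (nat_lit 4))
    (@En.n l1392 (nat_lit 4090) (nat_lit 1) (nat_lit 14))
    (@En.n l404 (nat_lit 4091) (nat_lit 2) (nat_lit 7))
    (@En.n l8170 (nat_lit 2682) (nat_lit 3) (nat_lit 11))
    (@En.n l4909 (nat_lit 9744) (nat_lit 9) (nat_lit 12))
    (@En.n l28 (nat_lit 4089) (nat_lit 5) (nat_lit 2))
    (@En.n l11 (nat_lit 4087) (nat_lit 6) (nat_lit 4))
    (@En.n l5224 (nat_lit 4714) (nat_lit 8) (nat_lit 14))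
    (@En.n l23554 (nat_lit 4071) (nat_lit 8) (nat_lit 4))
    (@En.i (nat_lit 4183) (nat_lit 10) (nat_lit 9))
    (@En.n l10866 (nat_lit 4423) (nat_lit 11) (nat_lit 12))
    (@En.n l3 (nat_lit 4089) (nat_lit 11) (nat_lit 2))
    (@En.i (nat_lit 3751) (nat_lit 13) (nat_lit 12))
    (@En.n l2809 (nat_lit 8971) (nat_lit 1) (nat_lit 14))
    (@En.n l6284 (nat_lit 2921) (nat_lit 13) (nat_lit 5))
    (@En.n l18 (nat_lit 4089) (nat_lit 15) (nat_lit 2))))
  (@Cl.mk (nat_lit 0x2000a0005000e000c0002000c00060004000e00040002000d000b000e0003) (nat_lit 0x307105006005570) (nat_lit 16) Lb.e (@T16.mk En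
    (@En.n l107 (nat_lit 2655) (nat_lit 5) (nat_lit 3))
    (@En.n l11076 (nat_lit 13102) (nat_lit 0) (nat_lit 14))
    (@En.i (nat_lit 4086) (nat_lit 2) (nat_lit 11))
    (@En.n l11077 (nat_lit 9741) (nat_lit 9) (nat_lit 13))
    (@En.n l17 (nat_lit 4090) (nat_lit 4) (nat_lit 2))
    (@En.n l117 (nat_lit 4088) (nat_lit 5) (nat_lit 4))
    (@En.n l11078 (nat_lit 4717) (nat_lit 1) (nat_lit 14))
    (@En.i (nat_lit 4055) (nat_lit 7) (nat_lit 4))
    (@En.i (nat_lit 3938) (nat_lit 14) (nat_lit 6))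
    (@En.n l11076 (nat_lit 4410) (nat_lit 10) (nat_lit 12))
    (@En.n l7 (nat_lit 4090) (nat_lit 10) (nat_lit 2))
    (@En.n l644 (nat_lit 2649) (nat_lit 12) (nat_lit 12))
    (@En.n l9956 (nat_lit 5832) (nat_lit 1) (nat_lit 14))
    (@En.n l6366 (nat_lit 4089) (nat_lit 14) (nat_lit 5))
    (@En.i (nat_lit 4563) (nat_lit 3) (nat_lit 10))
    (@En.n l67 (nat_lit 4090) (nat_lit 15) (nat_lit 2))))
  (@Cl.mk (nat_lit 0x2000a000e000b0002000b000900060005000e00050002000d0007000e0003) (nat_lit 0x761046005005070) (nat_lit 16) Lb.e (@T16.mk En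
    (@En.n l3503 (nat_lit 4092) (nat_lit 4) (nat_lit 3))
    (@En.n l1362 (nat_lit 13103) (nat_lit 0) (nat_lit 14))
    (@En.i (nat_lit 1910) (nat_lit 14) (nat_lit 7))
    (@En.n l3501 (nat_lit 4437) (nat_lit 8) (nat_lit 13))
    (@En.n l7 (nat_lit 4091) (nat_lit 4) (nat_lit 2))
    (@En.n l28 (nat_lit 3271) (nat_lit 5) (nat_lit 5))
    (@En.n l645 (nat_lit 4481) (nat_lit 1) (nat_lit 14))
    (@En.i (nat_lit 4095) (nat_lit 2) (nat_lit 5))
    (@En.n l17576 (nat_lit 4090) (nat_lit 8) (nat_lit 6))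
    (@En.i (nat_lit 4086) (nat_lit 14) (nat_lit 9))
    (@En.n l11695 (nat_lit 4576) (nat_lit 11) (nat_lit 11))
    (@En.n l67 (nat_lit 4091) (nat_lit 11) (nat_lit 2))
    (@En.n l68 (nat_lit 1953) (nat_lit 13) (nat_lit 11))
    (@En.n l3501 (nat_lit 4163) (nat_lit 9) (nat_lit 14))
    (@En.i (nat_lit 4560) (nat_lit 2) (nat_lit 10))
    (@En.n l17 (nat_lit 4091) (nat_lit 15) (nat_lit 2))))
  (@Cl.mk (nat_lit 0x2000b000800060005000e00050002000d000d000800030003000a000e000b) (nat_lit 0x450070056200561) (nat_lit 16) Lb.e (@T16.mk En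
    (@En.n l644 (nat_lit 1945) (nat_lit 8) (nat_lit 11))
    (@En.n l134 (nat_lit 4148) (nat_lit 1) (nat_lit 14))
    (@En.i (nat_lit 2120) (nat_lit 2) (nat_lit 10))
    (@En.n l152 (nat_lit 4476) (nat_lit 13) (nat_lit 3))
    (@En.n l11616 (nat_lit 4091) (nat_lit 0) (nat_lit 3))
    (@En.n l97 (nat_lit 2112) (nat_lit 0) (nat_lit 8))
    (@En.n l5411 (nat_lit 4091) (nat_lit 3) (nat_lit 13))
    (@En.i (nat_lit 4438) (nat_lit 8) (nat_lit 13))
    (@En.n l17 (nat_lit 4092) (nat_lit 8) (nat_lit 2))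
    (@En.i (nat_lit 3270) (nat_lit 9) (nat_lit 5))
    (@En.i (nat_lit 4477) (nat_lit 1) (nat_lit 14))
    (@En.n l3208 (nat_lit 4096) (nat_lit 2) (nat_lit 5))
    (@En.i (nat_lit 2655) (nat_lit 13) (nat_lit 6))
    (@En.n l3208 (nat_lit 4085) (nat_lit 14) (nat_lit 8))
    (@En.n l11391 (nat_lit 4575) (nat_lit 10) (nat_lit 11))
    (@En.n l7 (nat_lit 4092) (nat_lit 15) (nat_lit 2))))
  (@Cl.mk (nat_lit 0x2000c000a0006000e00040002000d0006000e00030002000d000a000e0003) (nat_lit 0x740600507009850) (nat_lit 16) Lb.e (@T16.mk En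
    (@En.n l107 (nat_lit 4095) (nat_lit 6) (nat_lit 3))
    (@En.n l25350 (nat_lit 13074) (nat_lit 0) (nat_lit 14))
    (@En.i (nat_lit 4091) (nat_lit 14) (nat_lit 10))
    (@En.n l4288 (nat_lit 8927) (nat_lit 10) (nat_lit 13))
    (@En.n l17 (nat_lit 4093) (nat_lit 4) (nat_lit 2))
    (@En.n l3503 (nat_lit 4094) (nat_lit 5) (nat_lit 3))
    (@En.n l1362 (nat_lit 13427) (nat_lit 0) (nat_lit 14))
    (@En.i (nat_lit 4504) (nat_lit 14) (nat_lit 6))
    (@En.n l25350 (nat_lit 6988) (nat_lit 9) (nat_lit 13))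
    (@En.n l7 (nat_lit 4093) (nat_lit 9) (nat_lit 2))
    (@En.n l14485 (nat_lit 4097) (nat_lit 10) (nat_lit 4))
    (@En.n l9956 (nat_lit 4120) (nat_lit 1) (nat_lit 14))
    (@En.n l17576 (nat_lit 4093) (nat_lit 7) (nat_lit 6))
    (@En.i (nat_lit 4090) (nat_lit 14) (nat_lit 10))
    (@En.n l23060 (nat_lit 4206) (nat_lit 10) (nat_lit 12))
    (@En.n l67 (nat_lit 4093) (nat_lit 15) (nat_lit 2))))
  (@Cl.mk (nat_lit 0x2000c00090006000e00040002000d000d000700030003000d000a000e0003) (nat_lit 0x660700460009660) (nat_lit 16) Lb.e (@T16.mk En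
    (@En.n l11615 (nat_lit 4096) (nat_lit 6) (nat_lit 3))
    (@En.n l541 (nat_lit 13073) (nat_lit 0) (nat_lit 14))
    (@En.i (nat_lit 4092) (nat_lit 2) (nat_lit 10))
    (@En.n l4147 (nat_lit 10224) (nat_lit 10) (nat_lit 13))
    (@En.n l152 (nat_lit 4107) (nat_lit 13) (nat_lit 3))
    (@En.n l11616 (nat_lit 4093) (nat_lit 5) (nat_lit 3))
    (@En.n l360 (nat_lit 3286) (nat_lit 0) (nat_lit 7))
    (@En.n l5411 (nat_lit 4093) (nat_lit 8) (nat_lit 13))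
    (@En.n l541 (nat_lit 6994) (nat_lit 9) (nat_lit 13))
    (@En.n l17 (nat_lit 4094) (nat_lit 9) (nat_lit 2))
    (@En.n l3503 (nat_lit 4099) (nat_lit 10) (nat_lit 4))
    (@En.n l11617 (nat_lit 4119) (nat_lit 1) (nat_lit 14))
    (@En.i (nat_lit 4095) (nat_lit 13) (nat_lit 6))
    (@En.n l1220 (nat_lit 4088) (nat_lit 14) (nat_lit 9))
    (@En.n l396 (nat_lit 4203) (nat_lit 9) (nat_lit 12))
    (@En.n l7 (nat_lit 4094) (nat_lit 15) (nat_lit 2))))
  (@Cl.mk (nat_lit 0x2000d0006000e00030002000d000d000b00030003000c000a0005000e0004) (nat_lit 0x507008a10071070) (nat_lit 16) Lb.e (@T16.mk En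
    (@En.n l28 (nat_lit 4098) (nat_lit 5) (nat_lit 4))
    (@En.n l11259 (nat_lit 4122) (nat_lit 1) (nat_lit 14))
    (@En.i (nat_lit 4097) (nat_lit 7) (nat_lit 5))
    (@En.i (nat_lit 2655) (nat_lit 3) (nat_lit 10))
    (@En.i (nat_lit 4208) (nat_lit 10) (nat_lit 12))
    (@En.n l152 (nat_lit 4105) (nat_lit 13) (nat_lit 3))
    (@En.i (nat_lit 4093) (nat_lit 0) (nat_lit 3))
    (@En.n l97 (nat_lit 1947) (nat_lit 0) (nat_lit 11))
    (@En.n l97 (nat_lit 4093) (nat_lit 3) (nat_lit 13))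
    (@En.i (nat_lit 10221) (nat_lit 10) (nat_lit 13))
    (@En.n l17 (nat_lit 4095) (nat_lit 10) (nat_lit 2))
    (@En.i (nat_lit 4096) (nat_lit 11) (nat_lit 3))
    (@En.i (nat_lit 13424) (nat_lit 0) (nat_lit 14))
    (@En.i (nat_lit 4505) (nat_lit 14) (nat_lit 6))
    (@En.n l396 (nat_lit 6984) (nat_lit 8) (nat_lit 13))
    (@En.n l7 (nat_lit 4095) (nat_lit 15) (nat_lit 2))))
noncomputable def a256 : T16 Cl := @T16.mk Cl
  (@Cl.mk (nat_lit 0x2000d000d000700030003000d000d000b00030003000c00090005000e0004) (nat_lit 0x46000aa20066070) (nat_lit 16) Lb.e (@T16.mk En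
    (@En.n l28 (nat_lit 3276) (nat_lit 9) (nat_lit 4))
    (@En.n l11259 (nat_lit 4118) (nat_lit 1) (nat_lit 14))
    (@En.n l3503 (nat_lit 4098) (nat_lit 2) (nat_lit 5))
    (@En.i (nat_lit 3727) (nat_lit 3) (nat_lit 9))
    (@En.i (nat_lit 4201) (nat_lit 9) (nat_lit 12))
    (@En.n l152 (nat_lit 4103) (nat_lit 13) (nat_lit 3))
    (@En.n l3503 (nat_lit 4094) (nat_lit 0) (nat_lit 3))
    (@En.n l14921 (nat_lit 1948) (nat_lit 0) (nat_lit 11))
    (@En.n l4297 (nat_lit 4094) (nat_lit 3) (nat_lit 13))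
    (@En.i (nat_lit 10220) (nat_lit 10) (nat_lit 13))
    (@En.n l4121 (nat_lit 4104) (nat_lit 13) (nat_lit 3))
    (@En.n l18 (nat_lit 4095) (nat_lit 11) (nat_lit 3))
    (@En.n l13353 (nat_lit 3275) (nat_lit 0) (nat_lit 7))
    (@En.n l61 (nat_lit 4095) (nat_lit 14) (nat_lit 13))
    (@En.n l396 (nat_lit 6990) (nat_lit 8) (nat_lit 13))
    (@En.n l7 (nat_lit 4096) (nat_lit 15) (nat_lit 2))))
  (@Cl.mk (nat_lit 0x2000c000c000b000700040004000d0005000e00030002000d0009000e0003) (nat_lit 0x588000407009660) (nat_lit 16) Lb.e (@T16.mk En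
    (@En.n l3503 (nat_lit 4098) (nat_lit 11) (nat_lit 3))
    (@En.n l551 (nat_lit 13072) (nat_lit 0) (nat_lit 14))
    (@En.n l17576 (nat_lit 3271) (nat_lit 14) (nat_lit 9))
    (@En.n l12447 (nat_lit 10228) (nat_lit 2) (nat_lit 13))
    (@En.n l7 (nat_lit 4097) (nat_lit 4) (nat_lit 2))
    (@En.n l28 (nat_lit 4099) (nat_lit 5) (nat_lit 3))
    (@En.n l5132 (nat_lit 13428) (nat_lit 0) (nat_lit 14))
    (@En.i (nat_lit 1953) (nat_lit 7) (nat_lit 5))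
    (@En.n l4147 (nat_lit 4586) (nat_lit 9) (nat_lit 13))
    (@En.n l152 (nat_lit 4100) (nat_lit 12) (nat_lit 4))
    (@En.n l17576 (nat_lit 4055) (nat_lit 10) (nat_lit 4))
    (@En.i (nat_lit 4094) (nat_lit 6) (nat_lit 7))
    (@En.n l13443 (nat_lit 3754) (nat_lit 8) (nat_lit 11))
    (@En.n l25352 (nat_lit 4093) (nat_lit 14) (nat_lit 12))
    (@En.i (nat_lit 4465) (nat_lit 10) (nat_lit 12))
    (@En.n l17 (nat_lit 4097) (nat_lit 15) (nat_lit 2))))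
  (@Cl.mk (nat_lit 0x2000d000d000a00030003000c000c000b000600040004000d0005000e0003) (nat_lit 0x9a1001880004050) (nat_lit 16) Lb.e (@T16.mk En
    (@En.i (nat_lit 3276) (nat_lit 4) (nat_lit 3))
    (@En.i (nat_lit 13426) (nat_lit 0) (nat_lit 14))
    (@En.n l7 (nat_lit 1945) (nat_lit 2) (nat_lit 5))
    (@En.n l2724 (nat_lit 4570) (nat_lit 8) (nat_lit 13))
    (@En.n l237 (nat_lit 3285) (nat_lit 12) (nat_lit 4))
    (@En.i (nat_lit 4053) (nat_lit 5) (nat_lit 4))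
    (@En.i (nat_lit 4099) (nat_lit 6) (nat_lit 6))
    (@En.n l4380 (nat_lit 3757) (nat_lit 8) (nat_lit 11))
    (@En.n l134 (nat_lit 4095) (nat_lit 4) (nat_lit 12))
    (@En.i (nat_lit 3047) (nat_lit 10) (nat_lit 12))
    (@En.n l152 (nat_lit 4101) (nat_lit 13) (nat_lit 3))
    (@En.n l11616 (nat_lit 4097) (nat_lit 0) (nat_lit 3))
    (@En.n l97 (nat_lit 1950) (nat_lit 0) (nat_lit 10))
    (@En.n l5411 (nat_lit 4097) (nat_lit 3) (nat_lit 13))
    (@En.i (nat_lit 10226) (nat_lit 2) (nat_lit 13))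
    (@En.n l17 (nat_lit 4098) (nat_lit 15) (nat_lit 2))))
  (@Cl.mk (nat_lit 0x2000c000c000a000700040004000d000d000600030003000d0009000e0003) (nat_lit 0x175000350008660) (nat_lit 16) Lb.e (@T16.mk En
    (@En.n l13034 (nat_lit 3276) (nat_lit 15) (nat_lit 3))
    (@En.i (nat_lit 13035) (nat_lit 0) (nat_lit 14))
    (@En.n l3208 (nat_lit 3270) (nat_lit 2) (nat_lit 9))
    (@En.n l2724 (nat_lit 10227) (nat_lit 2) (nat_lit 13))
    (@En.n l237 (nat_lit 4106) (nat_lit 13) (nat_lit 3))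
    (@En.i (nat_lit 4097) (nat_lit 5) (nat_lit 3))
    (@En.n l55 (nat_lit 3272) (nat_lit 0) (nat_lit 6))
    (@En.n l134 (nat_lit 4097) (nat_lit 8) (nat_lit 13))
    (@En.n l1593 (nat_lit 4574) (nat_lit 9) (nat_lit 13))
    (@En.n l152 (nat_lit 3284) (nat_lit 12) (nat_lit 4))
    (@En.n l13035 (nat_lit 3844) (nat_lit 10) (nat_lit 4))
    (@En.n l3208 (nat_lit 4096) (nat_lit 12) (nat_lit 7))
    (@En.n l97 (nat_lit 3759) (nat_lit 13) (nat_lit 10))
    (@En.n l5411 (nat_lit 4094) (nat_lit 14) (nat_lit 12))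
    (@En.i (nat_lit 1602) (nat_lit 9) (nat_lit 12))
    (@En.n l17 (nat_lit 4099) (nat_lit 15) (nat_lit 2))))
  (@Cl.mk (nat_lit 0x2000c00080004000d0004000e00030002000d0008000e00030002000e000c) (nat_lit 0xa20b0400b660076) (nat_lit 16) Lb.e (@T16.mk En
    (@En.i (nat_lit 4097) (nat_lit 14) (nat_lit 12))
    (@En.i (nat_lit 7409) (nat_lit 1) (nat_lit 14))
    (@En.n l17 (nat_lit 4100) (nat_lit 2) (nat_lit 2))
    (@En.n l137 (nat_lit 3285) (nat_lit 3) (nat_lit 3))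
    (@En.i (nat_lit 13036) (nat_lit 0) (nat_lit 14))
    (@En.n l4112 (nat_lit 3721) (nat_lit 14) (nat_lit 8))
    (@En.n l564 (nat_lit 10235) (nat_lit 7) (nat_lit 13))
    (@En.n l7 (nat_lit 4100) (nat_lit 7) (nat_lit 2))
    (@En.n l28 (nat_lit 3284) (nat_lit 8) (nat_lit 3))
    (@En.i (nat_lit 14028) (nat_lit 0) (nat_lit 14))
    (@En.n l11 (nat_lit 1947) (nat_lit 10) (nat_lit 4))
    (@En.n l2530 (nat_lit 5648) (nat_lit 12) (nat_lit 13))
    (@En.n l4112 (nat_lit 4048) (nat_lit 4) (nat_lit 4))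
    (@En.i (nat_lit 4107) (nat_lit 14) (nat_lit 8))
    (@En.i (nat_lit 4064) (nat_lit 12) (nat_lit 12))
    (@En.n l3 (nat_lit 4100) (nat_lit 15) (nat_lit 2))))
  (@Cl.mk (nat_lit 0x2000b0003000c000c000b000500040004000d0005000e00030002000e000d) (nat_lit 0x20582000507008a) (nat_lit 16) Lb.e (@T16.mk En
    (@En.i (nat_lit 4098) (nat_lit 14) (nat_lit 13))
    (@En.i (nat_lit 8665) (nat_lit 1) (nat_lit 14))
    (@En.n l17 (nat_lit 4101) (nat_lit 2) (nat_lit 2))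
    (@En.i (nat_lit 3278) (nat_lit 3) (nat_lit 3))
    (@En.i (nat_lit 13425) (nat_lit 0) (nat_lit 14))
    (@En.n l7 (nat_lit 1952) (nat_lit 5) (nat_lit 5))
    (@En.n l564 (nat_lit 4569) (nat_lit 7) (nat_lit 13))
    (@En.n l237 (nat_lit 4102) (nat_lit 7) (nat_lit 4))
    (@En.i (nat_lit 4054) (nat_lit 8) (nat_lit 4))
    (@En.i (nat_lit 3284) (nat_lit 9) (nat_lit 5))
    (@En.n l4380 (nat_lit 4057) (nat_lit 11) (nat_lit 11))
    (@En.n l134 (nat_lit 4105) (nat_lit 12) (nat_lit 12))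
    (@En.n l11 (nat_lit 4595) (nat_lit 13) (nat_lit 12))
    (@En.n l117 (nat_lit 4098) (nat_lit 10) (nat_lit 3))
    (@En.i (nat_lit 1968) (nat_lit 12) (nat_lit 11))
    (@En.n l3 (nat_lit 4101) (nat_lit 15) (nat_lit 2))))
  (@Cl.mk (nat_lit 0x2000a0003000e000c0002000c00060004000d0004000e00030002000e000d) (nat_lit 0x20760300b040071) (nat_lit 16) Lb.e (@T16.mk En
    (@En.i (nat_lit 3285) (nat_lit 6) (nat_lit 13))
    (@En.i (nat_lit 8668) (nat_lit 1) (nat_lit 14))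
    (@En.n l17 (nat_lit 4102) (nat_lit 2) (nat_lit 2))
    (@En.i (nat_lit 3281) (nat_lit 3) (nat_lit 3))
    (@En.i (nat_lit 14029) (nat_lit 0) (nat_lit 14))
    (@En.i (nat_lit 1949) (nat_lit 5) (nat_lit 4))
    (@En.i (nat_lit 5649) (nat_lit 7) (nat_lit 13))
    (@En.i (nat_lit 4047) (nat_lit 7) (nat_lit 4))
    (@En.i (nat_lit 4109) (nat_lit 14) (nat_lit 6))
    (@En.n l3424 (nat_lit 4060) (nat_lit 10) (nat_lit 12))
    (@En.n l28 (nat_lit 4102) (nat_lit 10) (nat_lit 2))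
    (@En.n l77 (nat_lit 4101) (nat_lit 12) (nat_lit 12))
    (@En.i (nat_lit 4817) (nat_lit 1) (nat_lit 14))
    (@En.n l117 (nat_lit 3285) (nat_lit 2) (nat_lit 3))
    (@En.i (nat_lit 1960) (nat_lit 12) (nat_lit 10))
    (@En.n l3 (nat_lit 4102) (nat_lit 15) (nat_lit 2))))
  (@Cl.mk (nat_lit 0x2000c0003000c00090004000e00040002000d000d000700030003000e000d) (nat_lit 0x10660600460009b) (nat_lit 16) Lb.e (@T16.mk En
    (@En.i (nat_lit 4096) (nat_lit 9) (nat_lit 13))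
    (@En.i (nat_lit 7413) (nat_lit 1) (nat_lit 14))
    (@En.n l1777 (nat_lit 4108) (nat_lit 13) (nat_lit 3))
    (@En.n l18 (nat_lit 4105) (nat_lit 3) (nat_lit 3))
    (@En.i (nat_lit 3287) (nat_lit 0) (nat_lit 7))
    (@En.n l61 (nat_lit 4105) (nat_lit 6) (nat_lit 13))
    (@En.n l564 (nat_lit 6992) (nat_lit 7) (nat_lit 13))
    (@En.n l7 (nat_lit 4103) (nat_lit 7) (nat_lit 2))
    (@En.n l28 (nat_lit 3278) (nat_lit 8) (nat_lit 4))
    (@En.i (nat_lit 4111) (nat_lit 1) (nat_lit 14))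
    (@En.n l137 (nat_lit 3285) (nat_lit 10) (nat_lit 4))
    (@En.i (nat_lit 3728) (nat_lit 3) (nat_lit 9))
    (@En.i (nat_lit 5644) (nat_lit 13) (nat_lit 12))
    (@En.n l117 (nat_lit 4096) (nat_lit 5) (nat_lit 3))
    (@En.i (nat_lit 810) (nat_lit 0) (nat_lit 12))
    (@En.n l3 (nat_lit 4103) (nat_lit 15) (nat_lit 2))))
  (@Cl.mk (nat_lit 0x200080003000d000d000b00030003000c00080005000e00040002000e000d) (nat_lit 0x208a10055070075) (nat_lit 16) Lb.e (@T16.mk En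
    (@En.n l3208 (nat_lit 4096) (nat_lit 14) (nat_lit 13))
    (@En.i (nat_lit 7383) (nat_lit 1) (nat_lit 14))
    (@En.n l17 (nat_lit 4104) (nat_lit 2) (nat_lit 2))
    (@En.i (nat_lit 3277) (nat_lit 3) (nat_lit 4))
    (@En.n l12 (nat_lit 4110) (nat_lit 5) (nat_lit 14))
    (@En.i (nat_lit 4101) (nat_lit 5) (nat_lit 5))
    (@En.n l1218 (nat_lit 3705) (nat_lit 6) (nat_lit 8))
    (@En.n l564 (nat_lit 4200) (nat_lit 8) (nat_lit 12))
    (@En.n l237 (nat_lit 4108) (nat_lit 8) (nat_lit 3))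
    (@En.i (nat_lit 4107) (nat_lit 9) (nat_lit 3))
    (@En.n l4380 (nat_lit 1949) (nat_lit 11) (nat_lit 11))
    (@En.n l134 (nat_lit 4107) (nat_lit 12) (nat_lit 13))
    (@En.n l11 (nat_lit 12504) (nat_lit 13) (nat_lit 13))
    (@En.n l5240 (nat_lit 4096) (nat_lit 10) (nat_lit 3))
    (@En.i (nat_lit 2127) (nat_lit 12) (nat_lit 8))
    (@En.n l3 (nat_lit 4104) (nat_lit 15) (nat_lit 2))))
  (@Cl.mk (nat_lit 0x2000c0003000c000a0004000e00040002000d0006000e00030002000e000d) (nat_lit 0x207606005070099) (nat_lit 16) Lb.e (@T16.mk En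
    (@En.i (nat_lit 4095) (nat_lit 9) (nat_lit 13))
    (@En.i (nat_lit 8662) (nat_lit 1) (nat_lit 14))
    (@En.n l17 (nat_lit 4105) (nat_lit 2) (nat_lit 2))
    (@En.i (nat_lit 4103) (nat_lit 3) (nat_lit 3))
    (@En.i (nat_lit 13423) (nat_lit 0) (nat_lit 14))
    (@En.i (nat_lit 4506) (nat_lit 14) (nat_lit 6))
    (@En.n l564 (nat_lit 6987) (nat_lit 7) (nat_lit 13))
    (@En.n l7 (nat_lit 4105) (nat_lit 7) (nat_lit 2))
    (@En.n l28 (nat_lit 4101) (nat_lit 8) (nat_lit 4))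
    (@En.i (nat_lit 4125) (nat_lit 1) (nat_lit 14))
    (@En.i (nat_lit 4100) (nat_lit 10) (nat_lit 4))
    (@En.i (nat_lit 3730) (nat_lit 3) (nat_lit 10))
    (@En.i (nat_lit 5643) (nat_lit 13) (nat_lit 12))
    (@En.n l117 (nat_lit 4095) (nat_lit 5) (nat_lit 3))
    (@En.i (nat_lit 812) (nat_lit 12) (nat_lit 12))
    (@En.n l3 (nat_lit 4105) (nat_lit 15) (nat_lit 2))))
  (@Cl.mk (nat_lit 0x200070003000d0009000e00030002000c000c0009000700040004000e000d) (nat_lit 0x9650016700084) (nat_lit 16) Lb.e (@T16.mk En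
    (@En.n l77 (nat_lit 4099) (nat_lit 8) (nat_lit 13))
    (@En.i (nat_lit 3616) (nat_lit 1) (nat_lit 14))
    (@En.n l152 (nat_lit 4109) (nat_lit 2) (nat_lit 4))
    (@En.n l146 (nat_lit 4112) (nat_lit 3) (nat_lit 4))
    (@En.n l681 (nat_lit 4103) (nat_lit 4) (nat_lit 7))
    (@En.n l97 (nat_lit 3885) (nat_lit 5) (nat_lit 9))
    (@En.n l148 (nat_lit 4107) (nat_lit 7) (nat_lit 12))
    (@En.n l5165 (nat_lit 1599) (nat_lit 8) (nat_lit 12))
    (@En.n l17 (nat_lit 4106) (nat_lit 8) (nat_lit 2))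
    (@En.n l1658 (nat_lit 3277) (nat_lit 9) (nat_lit 3))
    (@En.i (nat_lit 13034) (nat_lit 0) (nat_lit 14))
    (@En.n l681 (nat_lit 3724) (nat_lit 12) (nat_lit 9))
    (@En.i (nat_lit 12501) (nat_lit 13) (nat_lit 13))
    (@En.n l28 (nat_lit 4099) (nat_lit 4) (nat_lit 3))
    (@En.n l143 (nat_lit 2446) (nat_lit 5) (nat_lit 7))
    (@En.n l28 (nat_lit 4106) (nat_lit 15) (nat_lit 2))))
  (@Cl.mk (nat_lit 0x200080003000d000a000e00030002000c00080006000e00040002000e000d) (nat_lit 0x109350054070085) (nat_lit 16) Lb.e (@T16.mk En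
    (@En.i (nat_lit 4094) (nat_lit 8) (nat_lit 13))
    (@En.i (nat_lit 7387) (nat_lit 1) (nat_lit 14))
    (@En.n l17 (nat_lit 4107) (nat_lit 2) (nat_lit 2))
    (@En.n l137 (nat_lit 4106) (nat_lit 3) (nat_lit 4))
    (@En.n l12 (nat_lit 4116) (nat_lit 5) (nat_lit 14))
    (@En.i (nat_lit 4105) (nat_lit 5) (nat_lit 6))
    (@En.i (nat_lit 4126) (nat_lit 14) (nat_lit 8))
    (@En.n l564 (nat_lit 4202) (nat_lit 8) (nat_lit 12))
    (@En.n l7 (nat_lit 4107) (nat_lit 8) (nat_lit 2))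
    (@En.n l28 (nat_lit 4104) (nat_lit 9) (nat_lit 3))
    (@En.i (nat_lit 13078) (nat_lit 0) (nat_lit 14))
    (@En.i (nat_lit 4476) (nat_lit 12) (nat_lit 10))
    (@En.i (nat_lit 12502) (nat_lit 13) (nat_lit 13))
    (@En.n l117 (nat_lit 4094) (nat_lit 4) (nat_lit 3))
    (@En.i (nat_lit 2125) (nat_lit 12) (nat_lit 8))
    (@En.n l3 (nat_lit 4107) (nat_lit 15) (nat_lit 2))))
  (@Cl.mk (nat_lit 0x200080003000e000d0002000c0003000c00080004000e00040002000e000d) (nat_lit 0x1099010a5060055) (nat_lit 16) Lb.e (@T16.mk En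
    (@En.n l681 (nat_lit 4103) (nat_lit 6) (nat_lit 13))
    (@En.i (nat_lit 7386) (nat_lit 1) (nat_lit 14))
    (@En.n l17 (nat_lit 4108) (nat_lit 2) (nat_lit 2))
    (@En.n l4907 (nat_lit 3279) (nat_lit 3) (nat_lit 4))
    (@En.n l12 (nat_lit 4124) (nat_lit 1) (nat_lit 14))
    (@En.i (nat_lit 4102) (nat_lit 5) (nat_lit 4))
    (@En.n l686 (nat_lit 3725) (nat_lit 6) (nat_lit 8))
    (@En.n l5233 (nat_lit 5646) (nat_lit 8) (nat_lit 12))
    (@En.n l28 (nat_lit 4104) (nat_lit 8) (nat_lit 3))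
    (@En.n l3424 (nat_lit 814) (nat_lit 10) (nat_lit 12))
    (@En.n l28 (nat_lit 4108) (nat_lit 10) (nat_lit 2))
    (@En.n l77 (nat_lit 4104) (nat_lit 12) (nat_lit 13))
    (@En.i (nat_lit 8950) (nat_lit 1) (nat_lit 14))
    (@En.n l1574 (nat_lit 4103) (nat_lit 2) (nat_lit 3))
    (@En.n l356 (nat_lit 2129) (nat_lit 12) (nat_lit 8))
    (@En.n l3 (nat_lit 4108) (nat_lit 15) (nat_lit 2))))
  (@Cl.mk (nat_lit 0x200060003000d0008000e00030002000e000c0002000a00080004000e000d) (nat_lit 0xb350072062071) (nat_lit 16) Lb.e (@T16.mk En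
    (@En.n l77 (nat_lit 3284) (nat_lit 11) (nat_lit 13))
    (@En.i (nat_lit 4663) (nat_lit 1) (nat_lit 14))
    (@En.i (nat_lit 4049) (nat_lit 2) (nat_lit 4))
    (@En.i (nat_lit 4108) (nat_lit 14) (nat_lit 8))
    (@En.i (nat_lit 5997) (nat_lit 4) (nat_lit 10))
    (@En.n l3 (nat_lit 4109) (nat_lit 5) (nat_lit 2))
    (@En.i (nat_lit 4106) (nat_lit 7) (nat_lit 12))
    (@En.i (nat_lit 7402) (nat_lit 1) (nat_lit 14))
    (@En.n l17 (nat_lit 4109) (nat_lit 8) (nat_lit 2))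
    (@En.i (nat_lit 3282) (nat_lit 9) (nat_lit 3))
    (@En.i (nat_lit 13032) (nat_lit 0) (nat_lit 14))
    (@En.n l686 (nat_lit 3722) (nat_lit 12) (nat_lit 8))
    (@En.i (nat_lit 12505) (nat_lit 13) (nat_lit 13))
    (@En.n l28 (nat_lit 3284) (nat_lit 7) (nat_lit 3))
    (@En.n l143 (nat_lit 2101) (nat_lit 8) (nat_lit 6))
    (@En.n l28 (nat_lit 4109) (nat_lit 15) (nat_lit 2))))
  (@Cl.mk (nat_lit 0x200080003000d000d000800030003000d0008000e000300020008000e000d) (nat_lit 0x205740056600377) (nat_lit 16) Lb.e (@T16.mk En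
    (@En.n l13425 (nat_lit 4118) (nat_lit 13) (nat_lit 13))
    (@En.i (nat_lit 3284) (nat_lit 1) (nat_lit 14))
    (@En.n l13 (nat_lit 6338) (nat_lit 2) (nat_lit 8))
    (@En.n l17 (nat_lit 4110) (nat_lit 3) (nat_lit 2))
    (@En.n l13426 (nat_lit 4113) (nat_lit 4) (nat_lit 3))
    (@En.n l13 (nat_lit 13037) (nat_lit 0) (nat_lit 14))
    (@En.n l13427 (nat_lit 4127) (nat_lit 2) (nat_lit 8))
    (@En.n l236 (nat_lit 3925) (nat_lit 8) (nat_lit 13))
    (@En.n l237 (nat_lit 4124) (nat_lit 4) (nat_lit 3))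
    (@En.i (nat_lit 4116) (nat_lit 9) (nat_lit 3))
    (@En.n l236 (nat_lit 5498) (nat_lit 6) (nat_lit 8))
    (@En.n l134 (nat_lit 4116) (nat_lit 12) (nat_lit 13))
    (@En.n l13428 (nat_lit 6062) (nat_lit 13) (nat_lit 13))
    (@En.n l2855 (nat_lit 4118) (nat_lit 9) (nat_lit 3))
    (@En.i (nat_lit 2133) (nat_lit 11) (nat_lit 8))
    (@En.n l3 (nat_lit 4110) (nat_lit 15) (nat_lit 2))))
  (@Cl.mk (nat_lit 0x20007000d000d000700030003000e000d000200090003000d0009000e0003) (nat_lit 0x3700086010b650) (nat_lit 16) Lb.e (@T16.mk En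
    (@En.n l28 (nat_lit 3577) (nat_lit 9) (nat_lit 3))
    (@En.n l137 (nat_lit 13039) (nat_lit 0) (nat_lit 14))
    (@En.n l4019 (nat_lit 4131) (nat_lit 2) (nat_lit 9))
    (@En.n l13431 (nat_lit 5650) (nat_lit 13) (nat_lit 13))
    (@En.n l11258 (nat_lit 4118) (nat_lit 4) (nat_lit 3))
    (@En.n l13432 (nat_lit 698) (nat_lit 5) (nat_lit 9))
    (@En.n l3 (nat_lit 4111) (nat_lit 6) (nat_lit 2))
    (@En.n l11259 (nat_lit 4118) (nat_lit 8) (nat_lit 13))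
    (@En.n l1547 (nat_lit 5997) (nat_lit 1) (nat_lit 14))
    (@En.n l5446 (nat_lit 4124) (nat_lit 9) (nat_lit 3))
    (@En.n l18 (nat_lit 4125) (nat_lit 10) (nat_lit 3))
    (@En.n l1347 (nat_lit 3289) (nat_lit 4) (nat_lit 7))
    (@En.n l61 (nat_lit 4125) (nat_lit 13) (nat_lit 13))
    (@En.n l13433 (nat_lit 4049) (nat_lit 7) (nat_lit 13))
    (@En.n l564 (nat_lit 6311) (nat_lit 7) (nat_lit 7))
    (@En.n l7 (nat_lit 4111) (nat_lit 15) (nat_lit 2))))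
noncomputable def a257 : T16 Cl := @T16.mk Cl
  (@Cl.mk (nat_lit 0x200060003000d000b000e00030002000c0005000d000a00040003000e000d) (nat_lit 0xa760020380075) (nat_lit 16) Lb.e (@T16.mk En
    (@En.n l1220 (nat_lit 3844) (nat_lit 8) (nat_lit 13))
    (@En.n l332 (nat_lit 3564) (nat_lit 1) (nat_lit 14))
    (@En.n l1344 (nat_lit 3843) (nat_lit 2) (nat_lit 3))
    (@En.i (nat_lit 4107) (nat_lit 3) (nat_lit 4))
    (@En.n l333 (nat_lit 3589) (nat_lit 4) (nat_lit 10))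
    (@En.n l1221 (nat_lit 4117) (nat_lit 6) (nat_lit 13))
    (@En.i (nat_lit 3840) (nat_lit 14) (nat_lit 5))
    (@En.n l1345 (nat_lit 4198) (nat_lit 8) (nat_lit 12))
    (@En.n l7 (nat_lit 4112) (nat_lit 8) (nat_lit 2))
    (@En.n l1346 (nat_lit 4024) (nat_lit 9) (nat_lit 3))
    (@En.n l329 (nat_lit 13086) (nat_lit 0) (nat_lit 14))
    (@En.n l1347 (nat_lit 3835) (nat_lit 12) (nat_lit 11))
    (@En.i (nat_lit 12243) (nat_lit 13) (nat_lit 13))
    (@En.n l1348 (nat_lit 3844) (nat_lit 4) (nat_lit 3))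
    (@En.n l333 (nat_lit 2423) (nat_lit 5) (nat_lit 6))
    (@En.n l3 (nat_lit 4112) (nat_lit 15) (nat_lit 2))))
  (@Cl.mk (nat_lit 0x200070003000d000d000800030003000d000d0009000300030008000e000d) (nat_lit 0xb630026700571) (nat_lit 16) Lb.e (@T16.mk En
    (@En.n l61 (nat_lit 3572) (nat_lit 12) (nat_lit 13))
    (@En.n l4122 (nat_lit 3280) (nat_lit 1) (nat_lit 14))
    (@En.n l5337 (nat_lit 6323) (nat_lit 2) (nat_lit 8))
    (@En.n l7 (nat_lit 3573) (nat_lit 3) (nat_lit 3))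
    (@En.n l11668 (nat_lit 4110) (nat_lit 4) (nat_lit 3))
    (@En.i (nat_lit 4661) (nat_lit 5) (nat_lit 9))
    (@En.n l11669 (nat_lit 4110) (nat_lit 7) (nat_lit 13))
    (@En.n l3519 (nat_lit 5528) (nat_lit 8) (nat_lit 13))
    (@En.n l152 (nat_lit 3574) (nat_lit 8) (nat_lit 3))
    (@En.n l9956 (nat_lit 4117) (nat_lit 9) (nat_lit 3))
    (@En.n l97 (nat_lit 5130) (nat_lit 11) (nat_lit 8))
    (@En.n l1140 (nat_lit 4117) (nat_lit 12) (nat_lit 13))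
    (@En.n l7576 (nat_lit 6064) (nat_lit 13) (nat_lit 13))
    (@En.n l72 (nat_lit 3572) (nat_lit 8) (nat_lit 3))
    (@En.n l5337 (nat_lit 2403) (nat_lit 0) (nat_lit 7))
    (@En.n l17 (nat_lit 4113) (nat_lit 15) (nat_lit 2))))
  (@Cl.mk (nat_lit 0x200060003000d0007000e00030002000e000d0002000a00030009000e000d) (nat_lit 0xb06005b000681) (nat_lit 16) Lb.e (@T16.mk En
    (@En.n l143 (nat_lit 3575) (nat_lit 11) (nat_lit 13))
    (@En.i (nat_lit 4102) (nat_lit 12) (nat_lit 14))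
    (@En.n l175 (nat_lit 3596) (nat_lit 2) (nat_lit 9))
    (@En.n l11629 (nat_lit 4117) (nat_lit 3) (nat_lit 3))
    (@En.n l548 (nat_lit 6058) (nat_lit 4) (nat_lit 10))
    (@En.n l3 (nat_lit 4114) (nat_lit 5) (nat_lit 2))
    (@En.n l548 (nat_lit 4117) (nat_lit 7) (nat_lit 13))
    (@En.n l1544 (nat_lit 7059) (nat_lit 1) (nat_lit 14))
    (@En.n l17 (nat_lit 4114) (nat_lit 8) (nat_lit 2))
    (@En.n l11630 (nat_lit 3573) (nat_lit 9) (nat_lit 3))
    (@En.n l175 (nat_lit 13087) (nat_lit 0) (nat_lit 14))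
    (@En.i (nat_lit 5451) (nat_lit 12) (nat_lit 7))
    (@En.n l453 (nat_lit 6068) (nat_lit 13) (nat_lit 13))
    (@En.i (nat_lit 3575) (nat_lit 7) (nat_lit 3))
    (@En.n l27 (nat_lit 3455) (nat_lit 8) (nat_lit 6))
    (@En.n l28 (nat_lit 4114) (nat_lit 15) (nat_lit 2))))
  (@Cl.mk (nat_lit 0x2000d000d000a000300030009000d000d000600030003000d0007000e0003) (nat_lit 0x36700623000b050) (nat_lit 16) Lb.e (@T16.mk En
    (@En.n l3522 (nat_lit 3572) (nat_lit 4) (nat_lit 3))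
    (@En.i (nat_lit 13082) (nat_lit 0) (nat_lit 14))
    (@En.i (nat_lit 5447) (nat_lit 2) (nat_lit 7))
    (@En.i (nat_lit 6142) (nat_lit 8) (nat_lit 13))
    (@En.i (nat_lit 4117) (nat_lit 13) (nat_lit 3))
    (@En.n l28 (nat_lit 4121) (nat_lit 0) (nat_lit 3))
    (@En.i (nat_lit 3293) (nat_lit 0) (nat_lit 6))
    (@En.n l77 (nat_lit 4121) (nat_lit 3) (nat_lit 13))
    (@En.i (nat_lit 4044) (nat_lit 9) (nat_lit 13))
    (@En.n l476 (nat_lit 4076) (nat_lit 10) (nat_lit 9))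
    (@En.n l152 (nat_lit 3575) (nat_lit 13) (nat_lit 3))
    (@En.i (nat_lit 4119) (nat_lit 0) (nat_lit 3))
    (@En.n l97 (nat_lit 4666) (nat_lit 0) (nat_lit 10))
    (@En.n l97 (nat_lit 4119) (nat_lit 3) (nat_lit 13))
    (@En.i (nat_lit 3926) (nat_lit 9) (nat_lit 13))
    (@En.n l17 (nat_lit 4115) (nat_lit 15) (nat_lit 2))))
  (@Cl.mk (nat_lit 0x200080003000d0007000e00030002000d0008000e000300020009000e000d) (nat_lit 0x106060016600683) (nat_lit 16) Lb.e (@T16.mk En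
    (@En.n l11638 (nat_lit 4119) (nat_lit 13) (nat_lit 13))
    (@En.i (nat_lit 4100) (nat_lit 1) (nat_lit 14))
    (@En.n l13 (nat_lit 4079) (nat_lit 2) (nat_lit 9))
    (@En.n l17 (nat_lit 4116) (nat_lit 3) (nat_lit 2))
    (@En.n l11639 (nat_lit 4117) (nat_lit 4) (nat_lit 3))
    (@En.n l13 (nat_lit 13041) (nat_lit 0) (nat_lit 14))
    (@En.n l11640 (nat_lit 4128) (nat_lit 6) (nat_lit 8))
    (@En.n l564 (nat_lit 3923) (nat_lit 8) (nat_lit 13))
    (@En.n l7 (nat_lit 4116) (nat_lit 8) (nat_lit 2))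
    (@En.n l28 (nat_lit 4110) (nat_lit 9) (nat_lit 3))
    (@En.n l561 (nat_lit 13083) (nat_lit 0) (nat_lit 14))
    (@En.n l159 (nat_lit 5449) (nat_lit 12) (nat_lit 7))
    (@En.n l11641 (nat_lit 6065) (nat_lit 13) (nat_lit 13))
    (@En.n l4112 (nat_lit 4119) (nat_lit 9) (nat_lit 3))
    (@En.n l360 (nat_lit 2134) (nat_lit 11) (nat_lit 8))
    (@En.n l3 (nat_lit 4116) (nat_lit 15) (nat_lit 2))))
  (@Cl.mk (nat_lit 0x200070003000d0007000e00030002000d000d0009000300030009000e000d) (nat_lit 0x50600a2700783) (nat_lit 16) Lb.e (@T16.mk En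
    (@En.n l77 (nat_lit 4115) (nat_lit 8) (nat_lit 13))
    (@En.n l142 (nat_lit 3285) (nat_lit 1) (nat_lit 14))
    (@En.n l4323 (nat_lit 4080) (nat_lit 2) (nat_lit 9))
    (@En.n l4324 (nat_lit 4114) (nat_lit 3) (nat_lit 3))
    (@En.n l4325 (nat_lit 4116) (nat_lit 4) (nat_lit 3))
    (@En.n l4326 (nat_lit 4663) (nat_lit 5) (nat_lit 9))
    (@En.n l4327 (nat_lit 4116) (nat_lit 7) (nat_lit 13))
    (@En.n l142 (nat_lit 5526) (nat_lit 8) (nat_lit 13))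
    (@En.n l17 (nat_lit 4117) (nat_lit 8) (nat_lit 2))
    (@En.n l3522 (nat_lit 4113) (nat_lit 9) (nat_lit 3))
    (@En.n l142 (nat_lit 13084) (nat_lit 0) (nat_lit 14))
    (@En.i (nat_lit 5446) (nat_lit 12) (nat_lit 7))
    (@En.n l4328 (nat_lit 6066) (nat_lit 13) (nat_lit 13))
    (@En.n l142 (nat_lit 4115) (nat_lit 4) (nat_lit 3))
    (@En.n l77 (nat_lit 3454) (nat_lit 5) (nat_lit 7))
    (@En.n l7 (nat_lit 4117) (nat_lit 15) (nat_lit 2))))
  (@Cl.mk (nat_lit 0x20008000d000d000700030003000d000d000800030003000d0009000e0003) (nat_lit 0x467000565005660) (nat_lit 16) Lb.e (@T16.mk En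
    (@En.n l27136 (nat_lit 3572) (nat_lit 15) (nat_lit 3))
    (@En.n l1589 (nat_lit 13040) (nat_lit 0) (nat_lit 14))
    (@En.n l22658 (nat_lit 4130) (nat_lit 2) (nat_lit 9))
    (@En.n l27137 (nat_lit 3922) (nat_lit 9) (nat_lit 13))
    (@En.n l22656 (nat_lit 4111) (nat_lit 4) (nat_lit 3))
    (@En.n l4296 (nat_lit 4119) (nat_lit 5) (nat_lit 3))
    (@En.n l27137 (nat_lit 5499) (nat_lit 6) (nat_lit 8))
    (@En.n l4007 (nat_lit 4119) (nat_lit 8) (nat_lit 13))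
    (@En.n l17965 (nat_lit 5662) (nat_lit 9) (nat_lit 13))
    (@En.n l27138 (nat_lit 4110) (nat_lit 13) (nat_lit 3))
    (@En.n l28 (nat_lit 4122) (nat_lit 10) (nat_lit 3))
    (@En.n l8260 (nat_lit 3288) (nat_lit 0) (nat_lit 7))
    (@En.n l77 (nat_lit 4122) (nat_lit 13) (nat_lit 13))
    (@En.i (nat_lit 4045) (nat_lit 14) (nat_lit 13))
    (@En.n l22658 (nat_lit 4081) (nat_lit 3) (nat_lit 8))
    (@En.n l3 (nat_lit 4118) (nat_lit 15) (nat_lit 2))))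
  (@Cl.mk (nat_lit 0x20009000d000d000700030003000d0007000e00030002000d0009000e0003) (nat_lit 0x723000506005660) (nat_lit 16) Lb.e (@T16.mk En
    (@En.n l107 (nat_lit 4115) (nat_lit 11) (nat_lit 3))
    (@En.n l1798 (nat_lit 13042) (nat_lit 0) (nat_lit 14))
    (@En.i (nat_lit 4129) (nat_lit 2) (nat_lit 9))
    (@En.n l1798 (nat_lit 3920) (nat_lit 9) (nat_lit 13))
    (@En.n l17 (nat_lit 4119) (nat_lit 4) (nat_lit 2))
    (@En.n l117 (nat_lit 4118) (nat_lit 5) (nat_lit 3))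
    (@En.n l1798 (nat_lit 13079) (nat_lit 0) (nat_lit 14))
    (@En.i (nat_lit 5444) (nat_lit 7) (nat_lit 7))
    (@En.n l2438 (nat_lit 6144) (nat_lit 9) (nat_lit 13))
    (@En.n l4325 (nat_lit 4116) (nat_lit 13) (nat_lit 3))
    (@En.n l28 (nat_lit 4120) (nat_lit 10) (nat_lit 3))
    (@En.n l2438 (nat_lit 3290) (nat_lit 0) (nat_lit 7))
    (@En.n l77 (nat_lit 4120) (nat_lit 13) (nat_lit 13))
    (@En.i (nat_lit 4048) (nat_lit 9) (nat_lit 13))
    (@En.n l7705 (nat_lit 4075) (nat_lit 10) (nat_lit 9))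
    (@En.n l67 (nat_lit 4119) (nat_lit 15) (nat_lit 2))))
  (@Cl.mk (nat_lit 0x20009000d0006000e00030002000d0007000e00030002000d000a000e0003) (nat_lit 0x620800006005050) (nat_lit 16) Lb.e (@T16.mk En
    (@En.n l107 (nat_lit 4121) (nat_lit 6) (nat_lit 3))
    (@En.n l1106 (nat_lit 13075) (nat_lit 0) (nat_lit 14))
    (@En.i (nat_lit 5832) (nat_lit 2) (nat_lit 10))
    (@En.n l1106 (nat_lit 3919) (nat_lit 10) (nat_lit 13))
    (@En.n l17 (nat_lit 4120) (nat_lit 4) (nat_lit 2))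
    (@En.n l117 (nat_lit 4122) (nat_lit 5) (nat_lit 3))
    (@En.i (nat_lit 13081) (nat_lit 0) (nat_lit 14))
    (@En.i (nat_lit 5450) (nat_lit 14) (nat_lit 7))
    (@En.n l1865 (nat_lit 6117) (nat_lit 9) (nat_lit 13))
    (@En.n l7 (nat_lit 4120) (nat_lit 9) (nat_lit 2))
    (@En.i (nat_lit 4119) (nat_lit 10) (nat_lit 3))
    (@En.n l1865 (nat_lit 13269) (nat_lit 0) (nat_lit 14))
    (@En.i (nat_lit 4508) (nat_lit 13) (nat_lit 6))
    (@En.i (nat_lit 4052) (nat_lit 14) (nat_lit 13))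
    (@En.n l7705 (nat_lit 4073) (nat_lit 4) (nat_lit 9))
    (@En.n l67 (nat_lit 4120) (nat_lit 15) (nat_lit 2))))
  (@Cl.mk (nat_lit 0x2000d0007000e00030002000d000d000b000300030009000d0005000e0003) (nat_lit 0xb06005600072030) (nat_lit 16) Lb.e (@T16.mk En
    (@En.i (nat_lit 4115) (nat_lit 5) (nat_lit 3))
    (@En.i (nat_lit 13271) (nat_lit 0) (nat_lit 14))
    (@En.i (nat_lit 4511) (nat_lit 7) (nat_lit 5))
    (@En.i (nat_lit 4050) (nat_lit 9) (nat_lit 13))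
    (@En.n l476 (nat_lit 4072) (nat_lit 4) (nat_lit 9))
    (@En.n l152 (nat_lit 4123) (nat_lit 13) (nat_lit 3))
    (@En.i (nat_lit 4120) (nat_lit 0) (nat_lit 3))
    (@En.n l619 (nat_lit 5891) (nat_lit 0) (nat_lit 11))
    (@En.n l97 (nat_lit 4120) (nat_lit 3) (nat_lit 13))
    (@En.i (nat_lit 5530) (nat_lit 10) (nat_lit 13))
    (@En.n l17 (nat_lit 4121) (nat_lit 10) (nat_lit 2))
    (@En.i (nat_lit 3579) (nat_lit 11) (nat_lit 3))
    (@En.i (nat_lit 13080) (nat_lit 0) (nat_lit 14))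
    (@En.i (nat_lit 5443) (nat_lit 14) (nat_lit 7))
    (@En.i (nat_lit 5663) (nat_lit 8) (nat_lit 13))
    (@En.n l7 (nat_lit 4121) (nat_lit 15) (nat_lit 2))))
  (@Cl.mk (nat_lit 0x20008000d0006000e00030002000d000d000800030003000d000a000e0003) (nat_lit 0x560300612005060) (nat_lit 16) Lb.e (@T16.mk En
    (@En.n l152 (nat_lit 3579) (nat_lit 6) (nat_lit 3))
    (@En.n l13491 (nat_lit 13076) (nat_lit 0) (nat_lit 14))
    (@En.n l97 (nat_lit 5829) (nat_lit 2) (nat_lit 10))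
    (@En.n l22466 (nat_lit 3921) (nat_lit 10) (nat_lit 13))
    (@En.n l22656 (nat_lit 4125) (nat_lit 4) (nat_lit 3))
    (@En.n l4296 (nat_lit 4120) (nat_lit 5) (nat_lit 3))
    (@En.n l22657 (nat_lit 5500) (nat_lit 6) (nat_lit 8))
    (@En.n l4007 (nat_lit 4120) (nat_lit 8) (nat_lit 13))
    (@En.n l1867 (nat_lit 5660) (nat_lit 9) (nat_lit 13))
    (@En.n l7 (nat_lit 4122) (nat_lit 9) (nat_lit 2))
    (@En.i (nat_lit 4118) (nat_lit 10) (nat_lit 3))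
    (@En.n l1867 (nat_lit 13272) (nat_lit 0) (nat_lit 14))
    (@En.i (nat_lit 4507) (nat_lit 13) (nat_lit 6))
    (@En.i (nat_lit 3845) (nat_lit 14) (nat_lit 13))
    (@En.n l22658 (nat_lit 6310) (nat_lit 4) (nat_lit 8))
    (@En.n l3 (nat_lit 4122) (nat_lit 15) (nat_lit 2))))
  (@Cl.mk (nat_lit 0x2000c00030009000d0004000e00030002000d0007000e00030002000e000d) (nat_lit 0x640300b060056) (nat_lit 16) Lb.e (@T16.mk En
    (@En.i (nat_lit 4121) (nat_lit 9) (nat_lit 13))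
    (@En.i (nat_lit 7064) (nat_lit 1) (nat_lit 14))
    (@En.n l17 (nat_lit 4123) (nat_lit 2) (nat_lit 2))
    (@En.n l2869 (nat_lit 3570) (nat_lit 3) (nat_lit 3))
    (@En.i (nat_lit 13170) (nat_lit 0) (nat_lit 14))
    (@En.i (nat_lit 5448) (nat_lit 14) (nat_lit 7))
    (@En.i (nat_lit 5665) (nat_lit 7) (nat_lit 13))
    (@En.n l7 (nat_lit 4123) (nat_lit 7) (nat_lit 2))
    (@En.i (nat_lit 3575) (nat_lit 8) (nat_lit 3))
    (@En.i (nat_lit 13273) (nat_lit 0) (nat_lit 14))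
    (@En.i (nat_lit 5876) (nat_lit 10) (nat_lit 4))
    (@En.i (nat_lit 4051) (nat_lit 12) (nat_lit 13))
    (@En.i (nat_lit 3606) (nat_lit 4) (nat_lit 9))
    (@En.n l117 (nat_lit 4121) (nat_lit 5) (nat_lit 3))
    (@En.i (nat_lit 5893) (nat_lit 0) (nat_lit 12))
    (@En.n l3 (nat_lit 4123) (nat_lit 15) (nat_lit 2))))
  (@Cl.mk (nat_lit 0x20007000e000d000200080003000e000d000200090003000d0008000e0003) (nat_lit 0x8402076020b650) (nat_lit 16) Lb.e (@T16.mk En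
    (@En.n l5258 (nat_lit 3574) (nat_lit 4) (nat_lit 3))
    (@En.n l13 (nat_lit 13038) (nat_lit 0) (nat_lit 14))
    (@En.n l5259 (nat_lit 4132) (nat_lit 2) (nat_lit 8))
    (@En.n l3129 (nat_lit 5651) (nat_lit 8) (nat_lit 13))
    (@En.n l28 (nat_lit 4110) (nat_lit 8) (nat_lit 3))
    (@En.n l5260 (nat_lit 920) (nat_lit 5) (nat_lit 9))
    (@En.n l28 (nat_lit 4124) (nat_lit 6) (nat_lit 2))
    (@En.n l77 (nat_lit 4110) (nat_lit 12) (nat_lit 13))
    (@En.n l5261 (nat_lit 6058) (nat_lit 1) (nat_lit 14))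
    (@En.n l5262 (nat_lit 4111) (nat_lit 9) (nat_lit 3))
    (@En.n l5263 (nat_lit 2137) (nat_lit 3) (nat_lit 8))
    (@En.n l3 (nat_lit 4124) (nat_lit 11) (nat_lit 2))
    (@En.n l5264 (nat_lit 4111) (nat_lit 13) (nat_lit 13))
    (@En.i (nat_lit 4109) (nat_lit 7) (nat_lit 14))
    (@En.n l1374 (nat_lit 6321) (nat_lit 2) (nat_lit 7))
    (@En.n l17 (nat_lit 4124) (nat_lit 15) (nat_lit 2))))
  (@Cl.mk (nat_lit 0x20007000d0006000e00030002000e000d000200090003000d000a000e0003) (nat_lit 0x6080077020b050) (nat_lit 16) Lb.e (@T16.mk En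
    (@En.n l28 (nat_lit 3571) (nat_lit 9) (nat_lit 3))
    (@En.i (nat_lit 13077) (nat_lit 0) (nat_lit 14))
    (@En.i (nat_lit 5833) (nat_lit 2) (nat_lit 10))
    (@En.i (nat_lit 6366) (nat_lit 13) (nat_lit 13))
    (@En.n l11258 (nat_lit 4122) (nat_lit 4) (nat_lit 3))
    (@En.i (nat_lit 922) (nat_lit 12) (nat_lit 9))
    (@En.n l3 (nat_lit 4125) (nat_lit 6) (nat_lit 2))
    (@En.n l11259 (nat_lit 4122) (nat_lit 8) (nat_lit 13))
    (@En.i (nat_lit 5996) (nat_lit 1) (nat_lit 14))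
    (@En.n l17 (nat_lit 4125) (nat_lit 9) (nat_lit 2))
    (@En.i (nat_lit 4111) (nat_lit 10) (nat_lit 3))
    (@En.i (nat_lit 13277) (nat_lit 0) (nat_lit 14))
    (@En.n l4414 (nat_lit 4509) (nat_lit 5) (nat_lit 6))
    (@En.n l11260 (nat_lit 3843) (nat_lit 7) (nat_lit 13))
    (@En.n l564 (nat_lit 6312) (nat_lit 7) (nat_lit 7))
    (@En.n l7 (nat_lit 4125) (nat_lit 15) (nat_lit 2))))
  (@Cl.mk (nat_lit 0x200080005000e000a0002000e000c0002000800060004000d000b000e0003) (nat_lit 0x30c807204002450) (nat_lit 16) Lb.e (@T16.mk En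
    (@En.n l686 (nat_lit 3705) (nat_lit 8) (nat_lit 3))
    (@En.n l543 (nat_lit 13100) (nat_lit 0) (nat_lit 14))
    (@En.i (nat_lit 3704) (nat_lit 2) (nat_lit 11))
    (@En.i (nat_lit 12516) (nat_lit 12) (nat_lit 13))
    (@En.n l1218 (nat_lit 4014) (nat_lit 4) (nat_lit 4))
    (@En.i (nat_lit 4112) (nat_lit 14) (nat_lit 6))
    (@En.n l1219 (nat_lit 4008) (nat_lit 12) (nat_lit 8))
    (@En.n l3 (nat_lit 4126) (nat_lit 7) (nat_lit 2))
    (@En.n l1220 (nat_lit 4088) (nat_lit 9) (nat_lit 12))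
    (@En.i (nat_lit 2149) (nat_lit 1) (nat_lit 14))
    (@En.n l17 (nat_lit 4126) (nat_lit 10) (nat_lit 2))
    (@En.i (nat_lit 3958) (nat_lit 3) (nat_lit 10))
    (@En.n l1221 (nat_lit 4128) (nat_lit 5) (nat_lit 14))
    (@En.n l685 (nat_lit 3703) (nat_lit 14) (nat_lit 5))
    (@En.n l1040 (nat_lit 3947) (nat_lit 6) (nat_lit 8))
    (@En.n l7 (nat_lit 4126) (nat_lit 15) (nat_lit 2))))
  (@Cl.mk (nat_lit 0x20007000e000c0002000800070004000d000d0009000300030008000e0009) (nat_lit 0x620600005005b0) (nat_lit 16) Lb.e (@T16.mk En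
    (@En.n l2435 (nat_lit 4134) (nat_lit 4) (nat_lit 9))
    (@En.n l3632 (nat_lit 5376) (nat_lit 6) (nat_lit 14))
    (@En.n l1353 (nat_lit 9889) (nat_lit 2) (nat_lit 8))
    (@En.n l18 (nat_lit 4132) (nat_lit 3) (nat_lit 3))
    (@En.n l7203 (nat_lit 4128) (nat_lit 8) (nat_lit 3))
    (@En.i (nat_lit 5782) (nat_lit 5) (nat_lit 9))
    (@En.n l7204 (nat_lit 4128) (nat_lit 11) (nat_lit 13))
    (@En.n l7205 (nat_lit 6478) (nat_lit 12) (nat_lit 13))
    (@En.i (nat_lit 6974) (nat_lit 8) (nat_lit 4))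
    (@En.n l4042 (nat_lit 4113) (nat_lit 14) (nat_lit 7))
    (@En.n l2228 (nat_lit 4011) (nat_lit 11) (nat_lit 8))
    (@En.n l11 (nat_lit 4127) (nat_lit 11) (nat_lit 2))
    (@En.n l4039 (nat_lit 4130) (nat_lit 13) (nat_lit 12))
    (@En.n l7206 (nat_lit 3720) (nat_lit 1) (nat_lit 14))
    (@En.i (nat_lit 8937) (nat_lit 2) (nat_lit 7))
    (@En.n l3 (nat_lit 4127) (nat_lit 15) (nat_lit 2))))
noncomputable def a258 : T16 Cl := @T16.mk Cl
  (@Cl.mk (nat_lit 0x2000800070004000d0008000e000300020008000e000900020008000e000c) (nat_lit 0xb35005b00062) (nat_lit 16) Lb.e (@T16.mk En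
    (@En.n l77 (nat_lit 4129) (nat_lit 13) (nat_lit 12))
    (@En.n l142 (nat_lit 3721) (nat_lit 10) (nat_lit 14))
    (@En.n l4043 (nat_lit 8942) (nat_lit 2) (nat_lit 8))
    (@En.n l67 (nat_lit 4128) (nat_lit 3) (nat_lit 2))
    (@En.n l68 (nat_lit 4135) (nat_lit 4) (nat_lit 9))
    (@En.n l4044 (nat_lit 5377) (nat_lit 6) (nat_lit 14))
    (@En.n l4045 (nat_lit 9888) (nat_lit 2) (nat_lit 8))
    (@En.n l17 (nat_lit 4128) (nat_lit 7) (nat_lit 2))
    (@En.n l4046 (nat_lit 4127) (nat_lit 4) (nat_lit 3))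
    (@En.n l142 (nat_lit 13096) (nat_lit 0) (nat_lit 14))
    (@En.n l4047 (nat_lit 5732) (nat_lit 2) (nat_lit 8))
    (@En.n l4048 (nat_lit 6479) (nat_lit 12) (nat_lit 13))
    (@En.n l142 (nat_lit 6972) (nat_lit 4) (nat_lit 4))
    (@En.i (nat_lit 4117) (nat_lit 14) (nat_lit 7))
    (@En.n l4048 (nat_lit 7390) (nat_lit 6) (nat_lit 8))
    (@En.n l7 (nat_lit 4128) (nat_lit 15) (nat_lit 2))))
  (@Cl.mk (nat_lit 0x20008000c000c0007000600040004000d0008000e000300020009000e000a) (nat_lit 0x160000047005b0) (nat_lit 16) Lb.e (@T16.mk En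
    (@En.n l68 (nat_lit 4138) (nat_lit 13) (nat_lit 10))
    (@En.n l1589 (nat_lit 4166) (nat_lit 1) (nat_lit 14))
    (@En.i (nat_lit 9886) (nat_lit 2) (nat_lit 9))
    (@En.n l17 (nat_lit 4129) (nat_lit 3) (nat_lit 2))
    (@En.n l3522 (nat_lit 4130) (nat_lit 4) (nat_lit 3))
    (@En.i (nat_lit 13097) (nat_lit 0) (nat_lit 14))
    (@En.i (nat_lit 5731) (nat_lit 6) (nat_lit 8))
    (@En.n l2438 (nat_lit 6488) (nat_lit 8) (nat_lit 13))
    (@En.i (nat_lit 4128) (nat_lit 12) (nat_lit 4))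
    (@En.n l28 (nat_lit 6975) (nat_lit 9) (nat_lit 4))
    (@En.i (nat_lit 4115) (nat_lit 6) (nat_lit 6))
    (@En.n l2438 (nat_lit 6910) (nat_lit 7) (nat_lit 7))
    (@En.n l77 (nat_lit 5832) (nat_lit 13) (nat_lit 12))
    (@En.i (nat_lit 1371) (nat_lit 10) (nat_lit 12))
    (@En.n l476 (nat_lit 8903) (nat_lit 11) (nat_lit 8))
    (@En.n l67 (nat_lit 4129) (nat_lit 15) (nat_lit 2))))
  (@Cl.mk (nat_lit 0x20007000c000c0007000600040004000d000d0009000300030009000e000a) (nat_lit 0x160000015005b0) (nat_lit 16) Lb.e (@T16.mk En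
    (@En.n l28 (nat_lit 4133) (nat_lit 12) (nat_lit 10))
    (@En.n l17788 (nat_lit 5137) (nat_lit 1) (nat_lit 14))
    (@En.n l10592 (nat_lit 9885) (nat_lit 2) (nat_lit 9))
    (@En.n l17789 (nat_lit 4131) (nat_lit 3) (nat_lit 3))
    (@En.n l9956 (nat_lit 4129) (nat_lit 4) (nat_lit 3))
    (@En.n l11101 (nat_lit 5707) (nat_lit 5) (nat_lit 9))
    (@En.n l1140 (nat_lit 4129) (nat_lit 7) (nat_lit 13))
    (@En.n l17790 (nat_lit 6490) (nat_lit 8) (nat_lit 13))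
    (@En.n l11100 (nat_lit 4127) (nat_lit 8) (nat_lit 4))
    (@En.n l11101 (nat_lit 6976) (nat_lit 9) (nat_lit 4))
    (@En.i (nat_lit 3572) (nat_lit 10) (nat_lit 6))
    (@En.n l17790 (nat_lit 7018) (nat_lit 12) (nat_lit 7))
    (@En.n l17791 (nat_lit 5829) (nat_lit 13) (nat_lit 12))
    (@En.n l3528 (nat_lit 1370) (nat_lit 14) (nat_lit 12))
    (@En.i (nat_lit 8871) (nat_lit 10) (nat_lit 7))
    (@En.n l7 (nat_lit 4130) (nat_lit 15) (nat_lit 2))))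
  (@Cl.mk (nat_lit 0x20006000c000c0007000600040004000e000d0002000a00030009000e000a) (nat_lit 0x150000a10705b0) (nat_lit 16) Lb.e (@T16.mk En
    (@En.n l7292 (nat_lit 4137) (nat_lit 11) (nat_lit 10))
    (@En.i (nat_lit 5138) (nat_lit 12) (nat_lit 14))
    (@En.i (nat_lit 7660) (nat_lit 2) (nat_lit 9))
    (@En.n l7293 (nat_lit 4130) (nat_lit 3) (nat_lit 3))
    (@En.i (nat_lit 5764) (nat_lit 4) (nat_lit 10))
    (@En.n l50 (nat_lit 4131) (nat_lit 5) (nat_lit 2))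
    (@En.n l4973 (nat_lit 4130) (nat_lit 7) (nat_lit 13))
    (@En.n l4973 (nat_lit 7668) (nat_lit 8) (nat_lit 14))
    (@En.n l1577 (nat_lit 4132) (nat_lit 8) (nat_lit 4))
    (@En.i (nat_lit 6978) (nat_lit 9) (nat_lit 4))
    (@En.n l4973 (nat_lit 3577) (nat_lit 4) (nat_lit 6))
    (@En.n l575 (nat_lit 7019) (nat_lit 12) (nat_lit 7))
    (@En.n l5987 (nat_lit 5833) (nat_lit 13) (nat_lit 12))
    (@En.n l7294 (nat_lit 1369) (nat_lit 8) (nat_lit 12))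
    (@En.n l4943 (nat_lit 8865) (nat_lit 8) (nat_lit 6))
    (@En.n l3 (nat_lit 4131) (nat_lit 15) (nat_lit 2))))
  (@Cl.mk (nat_lit 0x20006000e000c0002000800070004000e000d0002000a00030008000e0009) (nat_lit 0x220100a10505a0) (nat_lit 16) Lb.e (@T16.mk En
    (@En.n l2435 (nat_lit 4136) (nat_lit 4) (nat_lit 9))
    (@En.i (nat_lit 5380) (nat_lit 6) (nat_lit 14))
    (@En.i (nat_lit 11367) (nat_lit 2) (nat_lit 8))
    (@En.i (nat_lit 4127) (nat_lit 3) (nat_lit 3))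
    (@En.i (nat_lit 5766) (nat_lit 4) (nat_lit 10))
    (@En.n l50 (nat_lit 4132) (nat_lit 5) (nat_lit 2))
    (@En.n l396 (nat_lit 4127) (nat_lit 7) (nat_lit 13))
    (@En.n l2436 (nat_lit 4767) (nat_lit 8) (nat_lit 14))
    (@En.i (nat_lit 6979) (nat_lit 8) (nat_lit 4))
    (@En.n l2227 (nat_lit 3574) (nat_lit 14) (nat_lit 7))
    (@En.n l2228 (nat_lit 4013) (nat_lit 11) (nat_lit 8))
    (@En.n l11 (nat_lit 4132) (nat_lit 11) (nat_lit 2))
    (@En.n l55 (nat_lit 4131) (nat_lit 13) (nat_lit 12))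
    (@En.n l725 (nat_lit 3722) (nat_lit 8) (nat_lit 14))
    (@En.n l2436 (nat_lit 8869) (nat_lit 2) (nat_lit 6))
    (@En.n l3 (nat_lit 4132) (nat_lit 15) (nat_lit 2))))
  (@Cl.mk (nat_lit 0x30003000a000a000a0006000b000b00060006000600050005000d000d000a) (nat_lit 0x58501500000827) (nat_lit 16) Lb.e (@T16.mk En
    (@En.n l97 (nat_lit 5700) (nat_lit 0) (nat_lit 10))
    (@En.n l21885 (nat_lit 4138) (nat_lit 3) (nat_lit 13))
    (@En.n l24726 (nat_lit 5855) (nat_lit 2) (nat_lit 13))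
    (@En.n l16046 (nat_lit 4134) (nat_lit 11) (nat_lit 5))
    (@En.n l32662 (nat_lit 5553) (nat_lit 4) (nat_lit 5))
    (@En.n l134 (nat_lit 4130) (nat_lit 10) (nat_lit 6))
    (@En.n l55 (nat_lit 4664) (nat_lit 10) (nat_lit 6))
    (@En.n l24726 (nat_lit 7015) (nat_lit 7) (nat_lit 6))
    (@En.n l32663 (nat_lit 5825) (nat_lit 5) (nat_lit 11))
    (@En.n l8631 (nat_lit 1166) (nat_lit 10) (nat_lit 11))
    (@En.n l55 (nat_lit 8952) (nat_lit 11) (nat_lit 6))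
    (@En.n l1415 (nat_lit 5836) (nat_lit 6) (nat_lit 10))
    (@En.n l11087 (nat_lit 4139) (nat_lit 6) (nat_lit 10))
    (@En.n l8631 (nat_lit 8184) (nat_lit 14) (nat_lit 10))
    (@En.n l152 (nat_lit 4137) (nat_lit 13) (nat_lit 3))
    (@En.n l20805 (nat_lit 4138) (nat_lit 0) (nat_lit 3))))
  (@Cl.mk (nat_lit 0x20007000700070005000d000d000a000300030009000900090006000e000b) (nat_lit 0x600576052) (nat_lit 16) Lb.e (@T16.mk En
    (@En.n l17117 (nat_lit 4133) (nat_lit 9) (nat_lit 11))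
    (@En.n l6407 (nat_lit 2078) (nat_lit 1) (nat_lit 14))
    (@En.n l17118 (nat_lit 5310) (nat_lit 2) (nat_lit 6))
    (@En.n l17119 (nat_lit 5838) (nat_lit 7) (nat_lit 9))
    (@En.n l575 (nat_lit 5814) (nat_lit 7) (nat_lit 9))
    (@En.n l17120 (nat_lit 8180) (nat_lit 5) (nat_lit 9))
    (@En.n l18 (nat_lit 4136) (nat_lit 6) (nat_lit 3))
    (@En.n l17121 (nat_lit 4135) (nat_lit 7) (nat_lit 3))
    (@En.n l6444 (nat_lit 5779) (nat_lit 9) (nat_lit 10))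
    (@En.n l17122 (nat_lit 4135) (nat_lit 10) (nat_lit 13))
    (@En.n l17123 (nat_lit 6036) (nat_lit 11) (nat_lit 13))
    (@En.n l2669 (nat_lit 3627) (nat_lit 3) (nat_lit 5))
    (@En.n l6872 (nat_lit 4127) (nat_lit 9) (nat_lit 7))
    (@En.n l17124 (nat_lit 4661) (nat_lit 14) (nat_lit 7))
    (@En.n l6874 (nat_lit 7361) (nat_lit 6) (nat_lit 7))
    (@En.n l3 (nat_lit 4134) (nat_lit 15) (nat_lit 2))))
  (@Cl.mk (nat_lit 0x20007000700070005000d0009000e000300020009000900090007000e000b) (nat_lit 0xb5800577062) (nat_lit 16) Lb.e (@T16.mk En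
    (@En.n l77 (nat_lit 4138) (nat_lit 10) (nat_lit 11))
    (@En.n l4968 (nat_lit 2079) (nat_lit 11) (nat_lit 14))
    (@En.n l11161 (nat_lit 8947) (nat_lit 2) (nat_lit 7))
    (@En.n l619 (nat_lit 5840) (nat_lit 7) (nat_lit 9))
    (@En.n l11162 (nat_lit 5815) (nat_lit 7) (nat_lit 9))
    (@En.i (nat_lit 8179) (nat_lit 5) (nat_lit 9))
    (@En.n l17 (nat_lit 4135) (nat_lit 6) (nat_lit 2))
    (@En.n l11163 (nat_lit 4134) (nat_lit 7) (nat_lit 3))
    (@En.n l4974 (nat_lit 13094) (nat_lit 0) (nat_lit 14))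
    (@En.n l11164 (nat_lit 5729) (nat_lit 10) (nat_lit 9))
    (@En.n l11165 (nat_lit 6035) (nat_lit 11) (nat_lit 13))
    (@En.n l11166 (nat_lit 3633) (nat_lit 4) (nat_lit 5))
    (@En.n l11 (nat_lit 4128) (nat_lit 13) (nat_lit 7))
    (@En.n l11167 (nat_lit 4663) (nat_lit 14) (nat_lit 7))
    (@En.n l4048 (nat_lit 7372) (nat_lit 7) (nat_lit 7))
    (@En.n l7 (nat_lit 4135) (nat_lit 15) (nat_lit 2))))
  (@Cl.mk (nat_lit 0x20007000700070005000e000d0002000b00030009000900090005000e000b) (nat_lit 0x11010576029) (nat_lit 16) Lb.e (@T16.mk En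
    (@En.n l6870 (nat_lit 4137) (nat_lit 8) (nat_lit 11))
    (@En.i (nat_lit 3723) (nat_lit 9) (nat_lit 14))
    (@En.n l5981 (nat_lit 9211) (nat_lit 2) (nat_lit 5))
    (@En.n l1578 (nat_lit 5839) (nat_lit 3) (nat_lit 9))
    (@En.n l575 (nat_lit 5816) (nat_lit 7) (nat_lit 9))
    (@En.n l3213 (nat_lit 11365) (nat_lit 5) (nat_lit 9))
    (@En.i (nat_lit 4134) (nat_lit 6) (nat_lit 3))
    (@En.i (nat_lit 32) (nat_lit 0) (nat_lit 11))
    (@En.n l50 (nat_lit 4136) (nat_lit 8) (nat_lit 2))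
    (@En.n l396 (nat_lit 4134) (nat_lit 10) (nat_lit 13))
    (@En.n l6871 (nat_lit 1645) (nat_lit 11) (nat_lit 14))
    (@En.n l2669 (nat_lit 3635) (nat_lit 2) (nat_lit 5))
    (@En.n l6872 (nat_lit 4132) (nat_lit 9) (nat_lit 7))
    (@En.n l6873 (nat_lit 4662) (nat_lit 14) (nat_lit 7))
    (@En.n l6874 (nat_lit 7362) (nat_lit 5) (nat_lit 7))
    (@En.n l3 (nat_lit 4136) (nat_lit 15) (nat_lit 2))))
  (@Cl.mk (nat_lit 0x2000b0003000a000a000a0005000b000b00060006000600050005000e000d) (nat_lit 0x2058708800000a9) (nat_lit 16) Lb.e (@T16.mk En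
    (@En.i (nat_lit 4133) (nat_lit 2) (nat_lit 13))
    (@En.i (nat_lit 5856) (nat_lit 1) (nat_lit 14))
    (@En.n l13640 (nat_lit 4136) (nat_lit 11) (nat_lit 5))
    (@En.n l8116 (nat_lit 5653) (nat_lit 3) (nat_lit 5))
    (@En.n l17109 (nat_lit 4131) (nat_lit 10) (nat_lit 6))
    (@En.n l55 (nat_lit 4665) (nat_lit 5) (nat_lit 6))
    (@En.n l17110 (nat_lit 7017) (nat_lit 6) (nat_lit 6))
    (@En.n l61 (nat_lit 5827) (nat_lit 8) (nat_lit 11))
    (@En.n l11620 (nat_lit 3706) (nat_lit 9) (nat_lit 11))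
    (@En.n l564 (nat_lit 9213) (nat_lit 9) (nat_lit 5))
    (@En.n l1415 (nat_lit 5837) (nat_lit 6) (nat_lit 10))
    (@En.n l17111 (nat_lit 5822) (nat_lit 6) (nat_lit 10))
    (@En.n l8116 (nat_lit 11364) (nat_lit 13) (nat_lit 10))
    (@En.n l117 (nat_lit 4133) (nat_lit 14) (nat_lit 3))
    (@En.i (nat_lit 5758) (nat_lit 0) (nat_lit 11))
    (@En.n l3 (nat_lit 4137) (nat_lit 15) (nat_lit 2))))
  (@Cl.mk (nat_lit 0x2000a000a000a0007000b000b00060006000600050005000d0009000e0003) (nat_lit 0x585015000001680) (nat_lit 16) Lb.e (@T16.mk En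
    (@En.n l2943 (nat_lit 4133) (nat_lit 15) (nat_lit 3))
    (@En.i (nat_lit 13095) (nat_lit 0) (nat_lit 14))
    (@En.i (nat_lit 5726) (nat_lit 2) (nat_lit 9))
    (@En.n l1393 (nat_lit 2598) (nat_lit 2) (nat_lit 13))
    (@En.i (nat_lit 4135) (nat_lit 11) (nat_lit 5))
    (@En.n l218 (nat_lit 5652) (nat_lit 5) (nat_lit 5))
    (@En.n l11 (nat_lit 4129) (nat_lit 10) (nat_lit 6))
    (@En.n l4976 (nat_lit 4666) (nat_lit 10) (nat_lit 6))
    (@En.n l1393 (nat_lit 7016) (nat_lit 8) (nat_lit 6))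
    (@En.n l77 (nat_lit 5826) (nat_lit 10) (nat_lit 11))
    (@En.i (nat_lit 2671) (nat_lit 11) (nat_lit 11))
    (@En.n l532 (nat_lit 8949) (nat_lit 12) (nat_lit 7))
    (@En.n l619 (nat_lit 5835) (nat_lit 6) (nat_lit 10))
    (@En.i (nat_lit 5820) (nat_lit 6) (nat_lit 10))
    (@En.i (nat_lit 8183) (nat_lit 14) (nat_lit 10))
    (@En.n l17 (nat_lit 4138) (nat_lit 15) (nat_lit 2))))
  (@Cl.mk (nat_lit 0x2000700060006000d000d000b00030003000a00090005000a000a000e0006) (nat_lit 0x128007501490) (nat_lit 16) Lb.e (@T16.mk En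
    (@En.n l9902 (nat_lit 4133) (nat_lit 7) (nat_lit 6))
    (@En.i (nat_lit 7305) (nat_lit 1) (nat_lit 14))
    (@En.n l61 (nat_lit 5821) (nat_lit 2) (nat_lit 10))
    (@En.n l9903 (nat_lit 1163) (nat_lit 3) (nat_lit 10))
    (@En.n l3503 (nat_lit 5818) (nat_lit 4) (nat_lit 5))
    (@En.n l21159 (nat_lit 4738) (nat_lit 5) (nat_lit 9))
    (@En.n l9897 (nat_lit 10955) (nat_lit 7) (nat_lit 10))
    (@En.n l38566 (nat_lit 5822) (nat_lit 7) (nat_lit 3))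
    (@En.n l22938 (nat_lit 5820) (nat_lit 8) (nat_lit 3))
    (@En.n l36947 (nat_lit 5706) (nat_lit 10) (nat_lit 11))
    (@En.n l20301 (nat_lit 5820) (nat_lit 11) (nat_lit 13))
    (@En.n l31236 (nat_lit 2599) (nat_lit 12) (nat_lit 13))
    (@En.n l35457 (nat_lit 5814) (nat_lit 13) (nat_lit 6))
    (@En.n l36947 (nat_lit 5545) (nat_lit 14) (nat_lit 6))
    (@En.n l8270 (nat_lit 5139) (nat_lit 5) (nat_lit 7))
    (@En.n l7 (nat_lit 4139) (nat_lit 15) (nat_lit 2))))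
  (@Cl.mk (nat_lit 0x20005000e000b0002000c000c0008000500040004000e000b0002000e0008) (nat_lit 0x84031500035014) (nat_lit 16) Lb.e (@T16.mk En
    (@En.n l1197 (nat_lit 2916) (nat_lit 14) (nat_lit 8))
    (@En.n l1198 (nat_lit 2970) (nat_lit 1) (nat_lit 14))
    (@En.n l18 (nat_lit 4140) (nat_lit 2) (nat_lit 2))
    (@En.n l1199 (nat_lit 2970) (nat_lit 3) (nat_lit 11))
    (@En.n l454 (nat_lit 5781) (nat_lit 5) (nat_lit 14))
    (@En.n l1200 (nat_lit 4142) (nat_lit 5) (nat_lit 4))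
    (@En.n l1201 (nat_lit 3617) (nat_lit 6) (nat_lit 4))
    (@En.i (nat_lit 2901) (nat_lit 7) (nat_lit 5))
    (@En.n l454 (nat_lit 3680) (nat_lit 13) (nat_lit 8))
    (@En.n l457 (nat_lit 2906) (nat_lit 10) (nat_lit 12))
    (@En.i (nat_lit 3357) (nat_lit 11) (nat_lit 12))
    (@En.n l458 (nat_lit 4140) (nat_lit 11) (nat_lit 2))
    (@En.n l1202 (nat_lit 2969) (nat_lit 13) (nat_lit 11))
    (@En.n l766 (nat_lit 4906) (nat_lit 1) (nat_lit 14))
    (@En.n l1203 (nat_lit 4088) (nat_lit 13) (nat_lit 5))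
    (@En.n l3 (nat_lit 4140) (nat_lit 15) (nat_lit 2))))
  (@Cl.mk (nat_lit 0x200050005000e000a0002000e000c0002000a00060004000b000b000e0006) (nat_lit 0xb104206003400) (nat_lit 16) Lb.e (@T16.mk En
    (@En.n l946 (nat_lit 2032) (nat_lit 8) (nat_lit 6))
    (@En.n l947 (nat_lit 4144) (nat_lit 10) (nat_lit 14))
    (@En.n l948 (nat_lit 4144) (nat_lit 11) (nat_lit 11))
    (@En.n l949 (nat_lit 12558) (nat_lit 3) (nat_lit 11))
    (@En.i (nat_lit 4028) (nat_lit 4) (nat_lit 4))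
    (@En.n l950 (nat_lit 2739) (nat_lit 5) (nat_lit 6))
    (@En.n l951 (nat_lit 6349) (nat_lit 12) (nat_lit 10))
    (@En.n l11 (nat_lit 4141) (nat_lit 7) (nat_lit 2))
    (@En.n l55 (nat_lit 2970) (nat_lit 9) (nat_lit 12))
    (@En.n l952 (nat_lit 2464) (nat_lit 10) (nat_lit 14))
    (@En.n l3 (nat_lit 4141) (nat_lit 10) (nat_lit 2))
    (@En.n l953 (nat_lit 2971) (nat_lit 12) (nat_lit 10))
    (@En.n l954 (nat_lit 12548) (nat_lit 13) (nat_lit 14))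
    (@En.n l955 (nat_lit 4142) (nat_lit 14) (nat_lit 5))
    (@En.n l956 (nat_lit 3704) (nat_lit 13) (nat_lit 5))
    (@En.n l403 (nat_lit 4141) (nat_lit 15) (nat_lit 2))))
  (@Cl.mk (nat_lit 0x20005000e000a0002000e000c0002000900060004000e000b0002000e0007) (nat_lit 0xb1054050024010) (nat_lit 16) Lb.e (@T16.mk En
    (@En.n l324 (nat_lit 4143) (nat_lit 14) (nat_lit 7))
    (@En.n l325 (nat_lit 4141) (nat_lit 1) (nat_lit 14))
    (@En.n l28 (nat_lit 4142) (nat_lit 2) (nat_lit 2))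
    (@En.n l326 (nat_lit 4141) (nat_lit 3) (nat_lit 11))
    (@En.n l327 (nat_lit 2115) (nat_lit 5) (nat_lit 14))
    (@En.n l328 (nat_lit 3619) (nat_lit 5) (nat_lit 4))
    (@En.n l329 (nat_lit 3050) (nat_lit 6) (nat_lit 6))
    (@En.n l330 (nat_lit 6758) (nat_lit 12) (nat_lit 9))
    (@En.n l3 (nat_lit 4142) (nat_lit 8) (nat_lit 2))
    (@En.n l331 (nat_lit 4140) (nat_lit 10) (nat_lit 12))
    (@En.n l332 (nat_lit 2478) (nat_lit 1) (nat_lit 14))
    (@En.n l17 (nat_lit 4142) (nat_lit 11) (nat_lit 2))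
    (@En.n l333 (nat_lit 3023) (nat_lit 13) (nat_lit 10))
    (@En.n l334 (nat_lit 2117) (nat_lit 1) (nat_lit 14))
    (@En.i (nat_lit 4126) (nat_lit 13) (nat_lit 5))
    (@En.n l335 (nat_lit 4142) (nat_lit 15) (nat_lit 2))))
  (@Cl.mk (nat_lit 0x2000700070004000e00090002000e000b00020009000900070005000e000c) (nat_lit 0xc70210660034) (nat_lit 16) Lb.e (@T16.mk En
    (@En.n l700 (nat_lit 2032) (nat_lit 10) (nat_lit 12))
    (@En.n l763 (nat_lit 5042) (nat_lit 1) (nat_lit 14))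
    (@En.i (nat_lit 3558) (nat_lit 2) (nat_lit 5))
    (@En.i (nat_lit 8637) (nat_lit 3) (nat_lit 7))
    (@En.n l1190 (nat_lit 4142) (nat_lit 7) (nat_lit 9))
    (@En.n l1030 (nat_lit 7652) (nat_lit 12) (nat_lit 9))
    (@En.n l50 (nat_lit 4143) (nat_lit 6) (nat_lit 2))
    (@En.n l217 (nat_lit 2916) (nat_lit 8) (nat_lit 11))
    (@En.n l705 (nat_lit 2465) (nat_lit 1) (nat_lit 14))
    (@En.n l28 (nat_lit 4143) (nat_lit 9) (nat_lit 2))
    (@En.i (nat_lit 3664) (nat_lit 11) (nat_lit 9))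
    (@En.n l1191 (nat_lit 4890) (nat_lit 12) (nat_lit 14))
    (@En.n l290 (nat_lit 3947) (nat_lit 5) (nat_lit 4))
    (@En.n l1030 (nat_lit 2029) (nat_lit 14) (nat_lit 7))
    (@En.n l1166 (nat_lit 3950) (nat_lit 7) (nat_lit 7))
    (@En.n l3 (nat_lit 4143) (nat_lit 15) (nat_lit 2))))
noncomputable def a259 : T16 Cl := @T16.mk Cl
  (@Cl.mk (nat_lit 0x2000b00060004000b000e00050002000e00050002000e000a0002000e000c) (nat_lit 0x6003c0070071052) (nat_lit 16) Lb.e (@T16.mk En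
    (@En.n l644 (nat_lit 2976) (nat_lit 14) (nat_lit 12))
    (@En.n l3007 (nat_lit 2530) (nat_lit 1) (nat_lit 14))
    (@En.n l11 (nat_lit 4144) (nat_lit 2) (nat_lit 2))
    (@En.n l3008 (nat_lit 2977) (nat_lit 3) (nat_lit 10))
    (@En.n l3009 (nat_lit 12547) (nat_lit 1) (nat_lit 14))
    (@En.n l3 (nat_lit 4144) (nat_lit 5) (nat_lit 2))
    (@En.n l3010 (nat_lit 4141) (nat_lit 14) (nat_lit 5))
    (@En.n l2544 (nat_lit 3703) (nat_lit 1) (nat_lit 14))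
    (@En.n l17 (nat_lit 4144) (nat_lit 8) (nat_lit 2))
    (@En.n l3011 (nat_lit 2035) (nat_lit 9) (nat_lit 5))
    (@En.n l3009 (nat_lit 13102) (nat_lit 4) (nat_lit 14))
    (@En.n l7 (nat_lit 11063) (nat_lit 12) (nat_lit 11))
    (@En.i (nat_lit 4031) (nat_lit 9) (nat_lit 4))
    (@En.n l3012 (nat_lit 2738) (nat_lit 14) (nat_lit 6))
    (@En.n l3009 (nat_lit 6351) (nat_lit 12) (nat_lit 11))
    (@En.n l7 (nat_lit 4144) (nat_lit 15) (nat_lit 2))))
  (@Cl.mk (nat_lit 0x200090003000e000a0002000d000b000700030006000e00050002000e000d) (nat_lit 0x606000400020047) (nat_lit 16) Lb.e (@T16.mk En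
    (@En.i (nat_lit 4148) (nat_lit 6) (nat_lit 13))
    (@En.n l539 (nat_lit 6778) (nat_lit 1) (nat_lit 14))
    (@En.n l17 (nat_lit 4145) (nat_lit 2) (nat_lit 2))
    (@En.n l137 (nat_lit 4161) (nat_lit 3) (nat_lit 5))
    (@En.n l1331 (nat_lit 4790) (nat_lit 5) (nat_lit 14))
    (@En.i (nat_lit 4107) (nat_lit 5) (nat_lit 6))
    (@En.i (nat_lit 5136) (nat_lit 6) (nat_lit 3))
    (@En.i (nat_lit 4142) (nat_lit 0) (nat_lit 7))
    (@En.n l1332 (nat_lit 3052) (nat_lit 9) (nat_lit 11))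
    (@En.n l1333 (nat_lit 4146) (nat_lit 10) (nat_lit 13))
    (@En.n l28 (nat_lit 4145) (nat_lit 10) (nat_lit 2))
    (@En.n l1334 (nat_lit 4146) (nat_lit 12) (nat_lit 10))
    (@En.n l1332 (nat_lit 12384) (nat_lit 1) (nat_lit 14))
    (@En.n l117 (nat_lit 4148) (nat_lit 2) (nat_lit 3))
    (@En.i (nat_lit 1810) (nat_lit 12) (nat_lit 9))
    (@En.n l3 (nat_lit 4145) (nat_lit 15) (nat_lit 2))))
  (@Cl.mk (nat_lit 0x2000a0003000a000a000d000a0006000300060006000e00060002000e000d) (nat_lit 0x6080b3000030048) (nat_lit 16) Lb.e (@T16.mk En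
    (@En.i (nat_lit 4147) (nat_lit 14) (nat_lit 13))
    (@En.i (nat_lit 2537) (nat_lit 1) (nat_lit 14))
    (@En.n l17 (nat_lit 4146) (nat_lit 2) (nat_lit 2))
    (@En.n l4261 (nat_lit 4154) (nat_lit 3) (nat_lit 6))
    (@En.n l2967 (nat_lit 7196) (nat_lit 1) (nat_lit 14))
    (@En.n l4262 (nat_lit 4145) (nat_lit 5) (nat_lit 6))
    (@En.n l3226 (nat_lit 4476) (nat_lit 6) (nat_lit 6))
    (@En.n l335 (nat_lit 4153) (nat_lit 7) (nat_lit 3))
    (@En.n l685 (nat_lit 4141) (nat_lit 0) (nat_lit 6))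
    (@En.n l3229 (nat_lit 7318) (nat_lit 10) (nat_lit 10))
    (@En.n l4263 (nat_lit 4149) (nat_lit 11) (nat_lit 13))
    (@En.n l1347 (nat_lit 4149) (nat_lit 12) (nat_lit 10))
    (@En.i (nat_lit 12341) (nat_lit 13) (nat_lit 10))
    (@En.n l117 (nat_lit 4147) (nat_lit 10) (nat_lit 3))
    (@En.i (nat_lit 1808) (nat_lit 12) (nat_lit 10))
    (@En.n l3 (nat_lit 4146) (nat_lit 15) (nat_lit 2))))
  (@Cl.mk (nat_lit 0x2000d000d000900030003000a000a000d000a0007000300060006000e0006) (nat_lit 0x785007003000030) (nat_lit 16) Lb.e (@T16.mk En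
    (@En.n l11532 (nat_lit 3676) (nat_lit 4) (nat_lit 6))
    (@En.n l11533 (nat_lit 7194) (nat_lit 1) (nat_lit 14))
    (@En.n l4262 (nat_lit 4148) (nat_lit 10) (nat_lit 6))
    (@En.n l3226 (nat_lit 4092) (nat_lit 12) (nat_lit 6))
    (@En.n l11534 (nat_lit 4152) (nat_lit 4) (nat_lit 3))
    (@En.n l1422 (nat_lit 2970) (nat_lit 0) (nat_lit 7))
    (@En.n l396 (nat_lit 3056) (nat_lit 11) (nat_lit 10))
    (@En.i (nat_lit 4150) (nat_lit 8) (nat_lit 13))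
    (@En.n l3230 (nat_lit 4150) (nat_lit 9) (nat_lit 10))
    (@En.n l11535 (nat_lit 11455) (nat_lit 10) (nat_lit 10))
    (@En.n l152 (nat_lit 4146) (nat_lit 13) (nat_lit 3))
    (@En.n l11536 (nat_lit 4151) (nat_lit 0) (nat_lit 3))
    (@En.n l97 (nat_lit 1866) (nat_lit 0) (nat_lit 9))
    (@En.n l11537 (nat_lit 4151) (nat_lit 3) (nat_lit 13))
    (@En.n l11538 (nat_lit 5394) (nat_lit 2) (nat_lit 13))
    (@En.n l17 (nat_lit 4147) (nat_lit 15) (nat_lit 2))))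
  (@Cl.mk (nat_lit 0x2000d000b000800030006000e00050002000d000d000800030003000e000a) (nat_lit 0x145002006710058) (nat_lit 16) Lb.e (@T16.mk En
    (@En.n l1334 (nat_lit 4147) (nat_lit 9) (nat_lit 10))
    (@En.n l3497 (nat_lit 12609) (nat_lit 1) (nat_lit 14))
    (@En.n l152 (nat_lit 4145) (nat_lit 13) (nat_lit 3))
    (@En.n l4288 (nat_lit 4163) (nat_lit 11) (nat_lit 3))
    (@En.n l3497 (nat_lit 1868) (nat_lit 0) (nat_lit 8))
    (@En.n l4289 (nat_lit 4163) (nat_lit 14) (nat_lit 13))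
    (@En.n l541 (nat_lit 5397) (nat_lit 7) (nat_lit 13))
    (@En.n l17 (nat_lit 4148) (nat_lit 7) (nat_lit 2))
    (@En.n l3503 (nat_lit 4157) (nat_lit 8) (nat_lit 5))
    (@En.n l4290 (nat_lit 4792) (nat_lit 1) (nat_lit 14))
    (@En.i (nat_lit 4094) (nat_lit 12) (nat_lit 6))
    (@En.n l4096 (nat_lit 5135) (nat_lit 11) (nat_lit 3))
    (@En.n l331 (nat_lit 4140) (nat_lit 0) (nat_lit 8))
    (@En.n l3502 (nat_lit 3053) (nat_lit 14) (nat_lit 11))
    (@En.n l1333 (nat_lit 4147) (nat_lit 7) (nat_lit 13))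
    (@En.n l28 (nat_lit 4148) (nat_lit 15) (nat_lit 2))))
  (@Cl.mk (nat_lit 0x2000b0003000a000d000900050003000e00060002000e00070002000e000d) (nat_lit 0x608a20080040058) (nat_lit 16) Lb.e (@T16.mk En
    (@En.n l4228 (nat_lit 4150) (nat_lit 14) (nat_lit 13))
    (@En.n l4228 (nat_lit 2535) (nat_lit 1) (nat_lit 14))
    (@En.n l28 (nat_lit 4149) (nat_lit 2) (nat_lit 2))
    (@En.i (nat_lit 4159) (nat_lit 14) (nat_lit 7))
    (@En.n l8108 (nat_lit 7364) (nat_lit 1) (nat_lit 14))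
    (@En.n l107 (nat_lit 4149) (nat_lit 5) (nat_lit 2))
    (@En.n l5430 (nat_lit 4146) (nat_lit 6) (nat_lit 6))
    (@En.n l4228 (nat_lit 4506) (nat_lit 1) (nat_lit 14))
    (@En.n l11456 (nat_lit 5146) (nat_lit 8) (nat_lit 3))
    (@En.n l11457 (nat_lit 4144) (nat_lit 9) (nat_lit 5))
    (@En.n l170 (nat_lit 7312) (nat_lit 11) (nat_lit 9))
    (@En.i (nat_lit 12861) (nat_lit 5) (nat_lit 13))
    (@En.n l7540 (nat_lit 11069) (nat_lit 13) (nat_lit 10))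
    (@En.n l11375 (nat_lit 4150) (nat_lit 10) (nat_lit 3))
    (@En.i (nat_lit 1787) (nat_lit 12) (nat_lit 11))
    (@En.n l50 (nat_lit 4149) (nat_lit 15) (nat_lit 2))))
  (@Cl.mk (nat_lit 0x2000d000d000a00030003000a000d000900060003000e00060002000e0007) (nat_lit 0x791008b20090040) (nat_lit 16) Lb.e (@T16.mk En
    (@En.n l14325 (nat_lit 4155) (nat_lit 14) (nat_lit 7))
    (@En.n l24305 (nat_lit 4810) (nat_lit 1) (nat_lit 14))
    (@En.n l7 (nat_lit 4150) (nat_lit 2) (nat_lit 2))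
    (@En.n l50 (nat_lit 4147) (nat_lit 3) (nat_lit 6))
    (@En.i (nat_lit 4505) (nat_lit 1) (nat_lit 14))
    (@En.n l335 (nat_lit 5145) (nat_lit 5) (nat_lit 3))
    (@En.n l24844 (nat_lit 2976) (nat_lit 6) (nat_lit 6))
    (@En.n l217 (nat_lit 7305) (nat_lit 4) (nat_lit 9))
    (@En.n l6979 (nat_lit 12857) (nat_lit 5) (nat_lit 13))
    (@En.n l16421 (nat_lit 11460) (nat_lit 10) (nat_lit 10))
    (@En.n l25148 (nat_lit 4149) (nat_lit 13) (nat_lit 3))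
    (@En.n l24844 (nat_lit 4162) (nat_lit 0) (nat_lit 3))
    (@En.n l25149 (nat_lit 1867) (nat_lit 0) (nat_lit 10))
    (@En.n l25150 (nat_lit 4162) (nat_lit 3) (nat_lit 13))
    (@En.n l24107 (nat_lit 5399) (nat_lit 12) (nat_lit 13))
    (@En.n l17 (nat_lit 4150) (nat_lit 15) (nat_lit 2))))
  (@Cl.mk (nat_lit 0x2000a000a000d000a0008000300060006000e00060002000d0008000e0003) (nat_lit 0x340003007190) (nat_lit 16) Lb.e (@T16.mk En
    (@En.n l4251 (nat_lit 4147) (nat_lit 11) (nat_lit 3))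
    (@En.n l12901 (nat_lit 13186) (nat_lit 0) (nat_lit 14))
    (@En.n l25243 (nat_lit 1911) (nat_lit 14) (nat_lit 8))
    (@En.n l3501 (nat_lit 6680) (nat_lit 2) (nat_lit 13))
    (@En.n l7 (nat_lit 4151) (nat_lit 4) (nat_lit 2))
    (@En.n l6325 (nat_lit 4156) (nat_lit 5) (nat_lit 6))
    (@En.n l645 (nat_lit 7195) (nat_lit 1) (nat_lit 14))
    (@En.n l3505 (nat_lit 4163) (nat_lit 2) (nat_lit 6))
    (@En.i (nat_lit 4091) (nat_lit 8) (nat_lit 6))
    (@En.n l20302 (nat_lit 4167) (nat_lit 9) (nat_lit 3))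
    (@En.i (nat_lit 2921) (nat_lit 0) (nat_lit 8))
    (@En.n l12901 (nat_lit 7304) (nat_lit 12) (nat_lit 10))
    (@En.n l7196 (nat_lit 4162) (nat_lit 13) (nat_lit 13))
    (@En.n l7197 (nat_lit 4162) (nat_lit 14) (nat_lit 10))
    (@En.n l7198 (nat_lit 11452) (nat_lit 10) (nat_lit 10))
    (@En.n l17 (nat_lit 4151) (nat_lit 15) (nat_lit 2))))
  (@Cl.mk (nat_lit 0x2000d000d000a00030003000a000a000d0006000b000300060006000e0005) (nat_lit 0x7007800200050) (nat_lit 16) Lb.e (@T16.mk En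
    (@En.n l3522 (nat_lit 5139) (nat_lit 4) (nat_lit 5))
    (@En.n l645 (nat_lit 7197) (nat_lit 1) (nat_lit 14))
    (@En.n l4256 (nat_lit 5135) (nat_lit 10) (nat_lit 6))
    (@En.i (nat_lit 5829) (nat_lit 12) (nat_lit 6))
    (@En.n l19290 (nat_lit 4147) (nat_lit 4) (nat_lit 3))
    (@En.i (nat_lit 2731) (nat_lit 0) (nat_lit 11))
    (@En.n l3522 (nat_lit 8973) (nat_lit 6) (nat_lit 6))
    (@En.n l19290 (nat_lit 5145) (nat_lit 8) (nat_lit 13))
    (@En.n l19291 (nat_lit 5145) (nat_lit 9) (nat_lit 10))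
    (@En.n l16541 (nat_lit 11454) (nat_lit 10) (nat_lit 10))
    (@En.n l19292 (nat_lit 4153) (nat_lit 13) (nat_lit 3))
    (@En.n l18 (nat_lit 4167) (nat_lit 0) (nat_lit 3))
    (@En.n l19293 (nat_lit 7139) (nat_lit 0) (nat_lit 10))
    (@En.n l61 (nat_lit 4167) (nat_lit 3) (nat_lit 13))
    (@En.n l3471 (nat_lit 5971) (nat_lit 2) (nat_lit 13))
    (@En.n l7 (nat_lit 4152) (nat_lit 15) (nat_lit 2))))
  (@Cl.mk (nat_lit 0x2000b0003000a000a000d0005000b000300060006000e00050002000e000d) (nat_lit 0x807800200050041) (nat_lit 16) Lb.e (@T16.mk En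
    (@En.n l8267 (nat_lit 4152) (nat_lit 14) (nat_lit 13))
    (@En.n l3224 (nat_lit 2541) (nat_lit 1) (nat_lit 14))
    (@En.n l17 (nat_lit 4153) (nat_lit 2) (nat_lit 2))
    (@En.n l8268 (nat_lit 5140) (nat_lit 3) (nat_lit 5))
    (@En.n l2967 (nat_lit 7199) (nat_lit 1) (nat_lit 14))
    (@En.n l8269 (nat_lit 5136) (nat_lit 5) (nat_lit 6))
    (@En.n l8270 (nat_lit 5833) (nat_lit 12) (nat_lit 6))
    (@En.i (nat_lit 4146) (nat_lit 7) (nat_lit 3))
    (@En.n l8271 (nat_lit 2732) (nat_lit 9) (nat_lit 11))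
    (@En.n l8272 (nat_lit 8984) (nat_lit 9) (nat_lit 5))
    (@En.n l8273 (nat_lit 5146) (nat_lit 11) (nat_lit 13))
    (@En.n l8274 (nat_lit 5146) (nat_lit 12) (nat_lit 10))
    (@En.n l2967 (nat_lit 12339) (nat_lit 13) (nat_lit 10))
    (@En.n l8275 (nat_lit 4152) (nat_lit 10) (nat_lit 3))
    (@En.n l8276 (nat_lit 5777) (nat_lit 12) (nat_lit 11))
    (@En.n l3 (nat_lit 4153) (nat_lit 15) (nat_lit 2))))
  (@Cl.mk (nat_lit 0x20009000300090009000c000a000a000700040007000700060006000e000d) (nat_lit 0x500702400000036) (nat_lit 16) Lb.e (@T16.mk En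
    (@En.n l4130 (nat_lit 3676) (nat_lit 2) (nat_lit 13))
    (@En.n l5480 (nat_lit 1278) (nat_lit 1) (nat_lit 14))
    (@En.n l5223 (nat_lit 3669) (nat_lit 2) (nat_lit 6))
    (@En.n l2272 (nat_lit 1600) (nat_lit 3) (nat_lit 6))
    (@En.n l5481 (nat_lit 4161) (nat_lit 4) (nat_lit 7))
    (@En.n l5482 (nat_lit 3724) (nat_lit 5) (nat_lit 7))
    (@En.n l4572 (nat_lit 5140) (nat_lit 6) (nat_lit 4))
    (@En.n l61 (nat_lit 1025) (nat_lit 7) (nat_lit 7))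
    (@En.n l1322 (nat_lit 4146) (nat_lit 9) (nat_lit 10))
    (@En.n l5483 (nat_lit 345) (nat_lit 10) (nat_lit 10))
    (@En.n l5484 (nat_lit 4159) (nat_lit 6) (nat_lit 12))
    (@En.n l5485 (nat_lit 4159) (nat_lit 7) (nat_lit 9))
    (@En.n l5486 (nat_lit 10737) (nat_lit 13) (nat_lit 9))
    (@En.n l2832 (nat_lit 3676) (nat_lit 14) (nat_lit 3))
    (@En.n l3098 (nat_lit 1776) (nat_lit 0) (nat_lit 9))
    (@En.n l3 (nat_lit 4154) (nat_lit 15) (nat_lit 2))))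
  (@Cl.mk (nat_lit 0x200070007000d000d0009000300030009000c0009000900070004000e0007) (nat_lit 0x684005a2300a0) (nat_lit 16) Lb.e (@T16.mk En
    (@En.n l27289 (nat_lit 3676) (nat_lit 6) (nat_lit 7))
    (@En.n l11375 (nat_lit 3091) (nat_lit 1) (nat_lit 14))
    (@En.n l11456 (nat_lit 5142) (nat_lit 2) (nat_lit 4))
    (@En.n l4492 (nat_lit 294) (nat_lit 3) (nat_lit 7))
    (@En.n l27290 (nat_lit 4150) (nat_lit 7) (nat_lit 9))
    (@En.i (nat_lit 1051) (nat_lit 5) (nat_lit 9))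
    (@En.n l4492 (nat_lit 13691) (nat_lit 6) (nat_lit 12))
    (@En.n l15825 (nat_lit 10516) (nat_lit 8) (nat_lit 9))
    (@En.n l18 (nat_lit 4159) (nat_lit 8) (nat_lit 3))
    (@En.n l27291 (nat_lit 4158) (nat_lit 9) (nat_lit 3))
    (@En.n l7540 (nat_lit 1860) (nat_lit 11) (nat_lit 9))
    (@En.n l27292 (nat_lit 4158) (nat_lit 12) (nat_lit 13))
    (@En.n l1407 (nat_lit 5048) (nat_lit 13) (nat_lit 13))
    (@En.n l27293 (nat_lit 3668) (nat_lit 14) (nat_lit 7))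
    (@En.n l27294 (nat_lit 1604) (nat_lit 4) (nat_lit 7))
    (@En.n l107 (nat_lit 4155) (nat_lit 15) (nat_lit 2))))
  (@Cl.mk (nat_lit 0x200090009000c000a000a000900040007000700060006000d0007000e0003) (nat_lit 0x600241000006080) (nat_lit 16) Lb.e (@T16.mk En
    (@En.i (nat_lit 3676) (nat_lit 15) (nat_lit 3))
    (@En.n l476 (nat_lit 12915) (nat_lit 0) (nat_lit 14))
    (@En.n l7 (nat_lit 1906) (nat_lit 2) (nat_lit 7))
    (@En.n l4003 (nat_lit 5047) (nat_lit 4) (nat_lit 13))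
    (@En.n l22283 (nat_lit 3673) (nat_lit 4) (nat_lit 6))
    (@En.n l575 (nat_lit 4463) (nat_lit 5) (nat_lit 6))
    (@En.n l27274 (nat_lit 4160) (nat_lit 9) (nat_lit 7))
    (@En.n l1769 (nat_lit 3271) (nat_lit 7) (nat_lit 7))
    (@En.n l20304 (nat_lit 5141) (nat_lit 8) (nat_lit 4))
    (@En.n l22561 (nat_lit 302) (nat_lit 10) (nat_lit 9))
    (@En.n l27275 (nat_lit 4151) (nat_lit 11) (nat_lit 10))
    (@En.n l22284 (nat_lit 344) (nat_lit 12) (nat_lit 10))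
    (@En.n l3692 (nat_lit 4158) (nat_lit 6) (nat_lit 12))
    (@En.n l27276 (nat_lit 4158) (nat_lit 7) (nat_lit 9))
    (@En.n l3866 (nat_lit 10520) (nat_lit 14) (nat_lit 9))
    (@En.n l17 (nat_lit 4156) (nat_lit 15) (nat_lit 2))))
  (@Cl.mk (nat_lit 0x2000c000b000b00090004000700050005000d000d000700030003000e0009) (nat_lit 0x135100005600067) (nat_lit 16) Lb.e (@T16.mk En
    (@En.n l5404 (nat_lit 3676) (nat_lit 13) (nat_lit 9))
    (@En.n l5405 (nat_lit 12605) (nat_lit 1) (nat_lit 14))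
    (@En.n l237 (nat_lit 4161) (nat_lit 13) (nat_lit 3))
    (@En.n l5406 (nat_lit 4160) (nat_lit 3) (nat_lit 3))
    (@En.n l55 (nat_lit 1865) (nat_lit 0) (nat_lit 7))
    (@En.n l5407 (nat_lit 4160) (nat_lit 6) (nat_lit 13))
    (@En.n l5408 (nat_lit 5093) (nat_lit 7) (nat_lit 13))
    (@En.n l152 (nat_lit 3674) (nat_lit 11) (nat_lit 5))
    (@En.n l5409 (nat_lit 3048) (nat_lit 8) (nat_lit 5))
    (@En.i (nat_lit 4099) (nat_lit 11) (nat_lit 7))
    (@En.n l5410 (nat_lit 5137) (nat_lit 10) (nat_lit 4))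
    (@En.n l5409 (nat_lit 1087) (nat_lit 12) (nat_lit 9))
    (@En.n l5411 (nat_lit 4148) (nat_lit 13) (nat_lit 11))
    (@En.n l2816 (nat_lit 1107) (nat_lit 14) (nat_lit 11))
    (@En.n l5412 (nat_lit 3676) (nat_lit 11) (nat_lit 12))
    (@En.n l18 (nat_lit 4157) (nat_lit 15) (nat_lit 2))))
  (@Cl.mk (nat_lit 0x200070007000d0008000e000300020009000c0009000900080004000e0007) (nat_lit 0x729007a2310a0) (nat_lit 16) Lb.e (@T16.mk En
    (@En.n l22484 (nat_lit 4156) (nat_lit 7) (nat_lit 7))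
    (@En.n l22485 (nat_lit 3099) (nat_lit 1) (nat_lit 14))
    (@En.n l476 (nat_lit 5144) (nat_lit 2) (nat_lit 4))
    (@En.n l1769 (nat_lit 301) (nat_lit 3) (nat_lit 8))
    (@En.n l10290 (nat_lit 4162) (nat_lit 12) (nat_lit 9))
    (@En.n l15198 (nat_lit 1052) (nat_lit 5) (nat_lit 9))
    (@En.i (nat_lit 13690) (nat_lit 6) (nat_lit 12))
    (@En.n l22486 (nat_lit 10519) (nat_lit 8) (nat_lit 9))
    (@En.n l11 (nat_lit 4158) (nat_lit 8) (nat_lit 2))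
    (@En.n l22487 (nat_lit 4155) (nat_lit 9) (nat_lit 3))
    (@En.n l619 (nat_lit 13196) (nat_lit 0) (nat_lit 14))
    (@En.n l22488 (nat_lit 1907) (nat_lit 12) (nat_lit 8))
    (@En.n l476 (nat_lit 5046) (nat_lit 13) (nat_lit 13))
    (@En.n l3526 (nat_lit 3672) (nat_lit 14) (nat_lit 7))
    (@En.n l9880 (nat_lit 4464) (nat_lit 5) (nat_lit 7))
    (@En.n l17 (nat_lit 4158) (nat_lit 15) (nat_lit 2))))
  (@Cl.mk (nat_lit 0x200070007000e000d0002000a00030009000c0009000900060004000e0007) (nat_lit 0x170506a230090) (nat_lit 16) Lb.e (@T16.mk En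
    (@En.n l13687 (nat_lit 4154) (nat_lit 5) (nat_lit 7))
    (@En.n l97 (nat_lit 3096) (nat_lit 1) (nat_lit 14))
    (@En.n l11456 (nat_lit 5143) (nat_lit 2) (nat_lit 4))
    (@En.n l4492 (nat_lit 1028) (nat_lit 3) (nat_lit 6))
    (@En.n l55 (nat_lit 4149) (nat_lit 10) (nat_lit 9))
    (@En.i (nat_lit 1054) (nat_lit 5) (nat_lit 9))
    (@En.i (nat_lit 13692) (nat_lit 6) (nat_lit 12))
    (@En.n l1883 (nat_lit 10738) (nat_lit 13) (nat_lit 9))
    (@En.i (nat_lit 4155) (nat_lit 8) (nat_lit 3))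
    (@En.i (nat_lit 1778) (nat_lit 10) (nat_lit 10))
    (@En.n l50 (nat_lit 4159) (nat_lit 10) (nat_lit 2))
    (@En.n l396 (nat_lit 4155) (nat_lit 12) (nat_lit 13))
    (@En.n l4316 (nat_lit 1277) (nat_lit 13) (nat_lit 14))
    (@En.n l4494 (nat_lit 3670) (nat_lit 9) (nat_lit 7))
    (@En.n l13688 (nat_lit 1601) (nat_lit 3) (nat_lit 7))
    (@En.n l107 (nat_lit 4159) (nat_lit 15) (nat_lit 2))))
noncomputable def a260 : T16 Cl := @T16.mk Cl
  (@Cl.mk (nat_lit 0x2000c000b000b000a0004000700050005000d0006000e00030002000e0009) (nat_lit 0x135100005080067) (nat_lit 16) Lb.e (@T16.mk En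
    (@En.n l13577 (nat_lit 4156) (nat_lit 14) (nat_lit 9))
    (@En.n l7682 (nat_lit 12603) (nat_lit 1) (nat_lit 14))
    (@En.n l50 (nat_lit 4160) (nat_lit 2) (nat_lit 2))
    (@En.n l13578 (nat_lit 4157) (nat_lit 3) (nat_lit 3))
    (@En.n l7683 (nat_lit 12916) (nat_lit 0) (nat_lit 14))
    (@En.n l13579 (nat_lit 1908) (nat_lit 5) (nat_lit 6))
    (@En.n l614 (nat_lit 5094) (nat_lit 7) (nat_lit 13))
    (@En.n l13580 (nat_lit 4164) (nat_lit 11) (nat_lit 5))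
    (@En.n l117 (nat_lit 2904) (nat_lit 8) (nat_lit 5))
    (@En.n l13579 (nat_lit 4097) (nat_lit 11) (nat_lit 7))
    (@En.n l13581 (nat_lit 4166) (nat_lit 10) (nat_lit 4))
    (@En.n l55 (nat_lit 1115) (nat_lit 12) (nat_lit 10))
    (@En.n l13582 (nat_lit 4163) (nat_lit 5) (nat_lit 11))
    (@En.n l1865 (nat_lit 1106) (nat_lit 14) (nat_lit 11))
    (@En.n l13583 (nat_lit 4156) (nat_lit 12) (nat_lit 12))
    (@En.n l17 (nat_lit 4160) (nat_lit 15) (nat_lit 2))))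
  (@Cl.mk (nat_lit 0x200080003000e00090002000c000b000b00080004000700050005000e000d) (nat_lit 0x506101351000096) (nat_lit 16) Lb.e (@T16.mk En
    (@En.n l77 (nat_lit 4157) (nat_lit 6) (nat_lit 13))
    (@En.n l1842 (nat_lit 1281) (nat_lit 1) (nat_lit 14))
    (@En.n l152 (nat_lit 4165) (nat_lit 2) (nat_lit 5))
    (@En.n l1822 (nat_lit 3049) (nat_lit 3) (nat_lit 5))
    (@En.i (nat_lit 4106) (nat_lit 4) (nat_lit 7))
    (@En.n l1822 (nat_lit 5138) (nat_lit 5) (nat_lit 4))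
    (@En.n l1843 (nat_lit 1024) (nat_lit 6) (nat_lit 8))
    (@En.n l148 (nat_lit 4145) (nat_lit 8) (nat_lit 11))
    (@En.n l1844 (nat_lit 1593) (nat_lit 9) (nat_lit 11))
    (@En.n l1845 (nat_lit 4154) (nat_lit 10) (nat_lit 12))
    (@En.n l18 (nat_lit 4161) (nat_lit 10) (nat_lit 2))
    (@En.n l1846 (nat_lit 4154) (nat_lit 12) (nat_lit 9))
    (@En.n l1844 (nat_lit 12379) (nat_lit 1) (nat_lit 14))
    (@En.n l28 (nat_lit 4157) (nat_lit 2) (nat_lit 3))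
    (@En.n l550 (nat_lit 1775) (nat_lit 3) (nat_lit 8))
    (@En.n l28 (nat_lit 4161) (nat_lit 15) (nat_lit 2))))
  (@Cl.mk (nat_lit 0x2000a000d000900070003000e00060002000e00070002000d0009000e0003) (nat_lit 0x8b20080040081a0) (nat_lit 16) Lb.e (@T16.mk En
    (@En.n l23614 (nat_lit 4150) (nat_lit 11) (nat_lit 3))
    (@En.n l23615 (nat_lit 13193) (nat_lit 0) (nat_lit 14))
    (@En.n l2026 (nat_lit 1913) (nat_lit 2) (nat_lit 9))
    (@En.n l23616 (nat_lit 6679) (nat_lit 12) (nat_lit 13))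
    (@En.n l11 (nat_lit 4162) (nat_lit 4) (nat_lit 2))
    (@En.n l9814 (nat_lit 4158) (nat_lit 14) (nat_lit 7))
    (@En.n l23617 (nat_lit 4811) (nat_lit 1) (nat_lit 14))
    (@En.n l3 (nat_lit 4162) (nat_lit 7) (nat_lit 2))
    (@En.n l17707 (nat_lit 4151) (nat_lit 8) (nat_lit 6))
    (@En.n l11453 (nat_lit 4504) (nat_lit 1) (nat_lit 14))
    (@En.n l23618 (nat_lit 5147) (nat_lit 10) (nat_lit 3))
    (@En.i (nat_lit 4169) (nat_lit 12) (nat_lit 7))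
    (@En.n l23615 (nat_lit 7306) (nat_lit 13) (nat_lit 9))
    (@En.n l23619 (nat_lit 12858) (nat_lit 5) (nat_lit 13))
    (@En.n l998 (nat_lit 11457) (nat_lit 10) (nat_lit 10))
    (@En.n l50 (nat_lit 4162) (nat_lit 15) (nat_lit 2))))
  (@Cl.mk (nat_lit 0x2000d0007000e00030002000e000a0002000d000b000900030006000e0005) (nat_lit 0x608005101450020) (nat_lit 16) Lb.e (@T16.mk En
    (@En.n l2009 (nat_lit 4160) (nat_lit 8) (nat_lit 5))
    (@En.n l2009 (nat_lit 4796) (nat_lit 1) (nat_lit 14))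
    (@En.n l11612 (nat_lit 4093) (nat_lit 12) (nat_lit 6))
    (@En.n l1106 (nat_lit 5134) (nat_lit 11) (nat_lit 3))
    (@En.n l619 (nat_lit 2906) (nat_lit 0) (nat_lit 9))
    (@En.n l1106 (nat_lit 3054) (nat_lit 14) (nat_lit 11))
    (@En.n l6788 (nat_lit 4151) (nat_lit 12) (nat_lit 13))
    (@En.n l18 (nat_lit 4163) (nat_lit 7) (nat_lit 2))
    (@En.n l11612 (nat_lit 4151) (nat_lit 14) (nat_lit 10))
    (@En.n l5372 (nat_lit 12602) (nat_lit 1) (nat_lit 14))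
    (@En.n l7 (nat_lit 4163) (nat_lit 10) (nat_lit 2))
    (@En.n l1792 (nat_lit 4148) (nat_lit 3) (nat_lit 3))
    (@En.n l1897 (nat_lit 13187) (nat_lit 0) (nat_lit 14))
    (@En.i (nat_lit 1912) (nat_lit 14) (nat_lit 7))
    (@En.i (nat_lit 6688) (nat_lit 7) (nat_lit 13))
    (@En.n l476 (nat_lit 4163) (nat_lit 15) (nat_lit 2))))
  (@Cl.mk (nat_lit 0x2000b000500080005000d0005000e00030002000e00080002000b000e000b) (nat_lit 0x803040800a60264) (nat_lit 16) Lb.e (@T16.mk En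
    (@En.n l11741 (nat_lit 4160) (nat_lit 13) (nat_lit 11))
    (@En.i (nat_lit 2027) (nat_lit 4) (nat_lit 14))
    (@En.n l612 (nat_lit 3673) (nat_lit 12) (nat_lit 11))
    (@En.n l50 (nat_lit 4164) (nat_lit 3) (nat_lit 2))
    (@En.i (nat_lit 3673) (nat_lit 14) (nat_lit 8))
    (@En.n l1364 (nat_lit 12295) (nat_lit 1) (nat_lit 14))
    (@En.n l28 (nat_lit 4164) (nat_lit 6) (nat_lit 2))
    (@En.n l58 (nat_lit 3674) (nat_lit 7) (nat_lit 3))
    (@En.n l1369 (nat_lit 12914) (nat_lit 0) (nat_lit 14))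
    (@En.n l771 (nat_lit 4630) (nat_lit 5) (nat_lit 5))
    (@En.i (nat_lit 1927) (nat_lit 7) (nat_lit 13))
    (@En.i (nat_lit 7336) (nat_lit 7) (nat_lit 5))
    (@En.n l872 (nat_lit 4100) (nat_lit 13) (nat_lit 8))
    (@En.n l872 (nat_lit 5377) (nat_lit 14) (nat_lit 5))
    (@En.n l1369 (nat_lit 6858) (nat_lit 11) (nat_lit 11))
    (@En.n l17 (nat_lit 4164) (nat_lit 15) (nat_lit 2))))
  (@Cl.mk (nat_lit 0x200070003000e00080002000b000e000b00020009000500080005000e000d) (nat_lit 0xa601340703094) (nat_lit 16) Lb.e (@T16.mk En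
    (@En.n l77 (nat_lit 3674) (nat_lit 10) (nat_lit 13))
    (@En.n l174 (nat_lit 4914) (nat_lit 1) (nat_lit 14))
    (@En.n l491 (nat_lit 7348) (nat_lit 2) (nat_lit 5))
    (@En.i (nat_lit 4109) (nat_lit 3) (nat_lit 8))
    (@En.n l491 (nat_lit 5380) (nat_lit 14) (nat_lit 5))
    (@En.n l1705 (nat_lit 6782) (nat_lit 5) (nat_lit 9))
    (@En.n l3 (nat_lit 4165) (nat_lit 6) (nat_lit 2))
    (@En.i (nat_lit 4161) (nat_lit 8) (nat_lit 11))
    (@En.i (nat_lit 2029) (nat_lit 9) (nat_lit 14))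
    (@En.n l1706 (nat_lit 3669) (nat_lit 10) (nat_lit 11))
    (@En.n l18 (nat_lit 4165) (nat_lit 10) (nat_lit 2))
    (@En.n l1707 (nat_lit 3669) (nat_lit 12) (nat_lit 8))
    (@En.i (nat_lit 12378) (nat_lit 1) (nat_lit 14))
    (@En.n l28 (nat_lit 3674) (nat_lit 6) (nat_lit 3))
    (@En.n l175 (nat_lit 1783) (nat_lit 7) (nat_lit 7))
    (@En.n l28 (nat_lit 4165) (nat_lit 15) (nat_lit 2))))
  (@Cl.mk (nat_lit 0x2000c0008000c000c0004000700040004000d0008000e00030002000e0009) (nat_lit 0x533000005700a0) (nat_lit 16) Lb.e (@T16.mk En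
    (@En.n l5384 (nat_lit 5141) (nat_lit 14) (nat_lit 9))
    (@En.i (nat_lit 12601) (nat_lit 1) (nat_lit 14))
    (@En.n l17 (nat_lit 4166) (nat_lit 2) (nat_lit 2))
    (@En.n l4366 (nat_lit 5137) (nat_lit 3) (nat_lit 3))
    (@En.i (nat_lit 13189) (nat_lit 0) (nat_lit 14))
    (@En.n l612 (nat_lit 5013) (nat_lit 5) (nat_lit 8))
    (@En.n l4367 (nat_lit 6799) (nat_lit 7) (nat_lit 13))
    (@En.n l1497 (nat_lit 5377) (nat_lit 12) (nat_lit 4))
    (@En.n l16837 (nat_lit 3054) (nat_lit 8) (nat_lit 4))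
    (@En.n l5384 (nat_lit 4119) (nat_lit 11) (nat_lit 7))
    (@En.n l4363 (nat_lit 1111) (nat_lit 10) (nat_lit 4))
    (@En.n l20377 (nat_lit 5134) (nat_lit 12) (nat_lit 12))
    (@En.n l4371 (nat_lit 1113) (nat_lit 13) (nat_lit 12))
    (@En.n l11740 (nat_lit 8970) (nat_lit 14) (nat_lit 8))
    (@En.n l15655 (nat_lit 5141) (nat_lit 12) (nat_lit 12))
    (@En.n l3 (nat_lit 4166) (nat_lit 15) (nat_lit 2))))
  (@Cl.mk (nat_lit 0x2000a000a000d0007000b000300060006000e00050002000d0009000e0003) (nat_lit 0x78006000500b640) (nat_lit 16) Lb.e (@T16.mk En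
    (@En.i (nat_lit 4152) (nat_lit 11) (nat_lit 3))
    (@En.n l31611 (nat_lit 13182) (nat_lit 0) (nat_lit 14))
    (@En.i (nat_lit 5010) (nat_lit 2) (nat_lit 9))
    (@En.n l645 (nat_lit 5969) (nat_lit 2) (nat_lit 13))
    (@En.n l7 (nat_lit 4167) (nat_lit 4) (nat_lit 2))
    (@En.i (nat_lit 5141) (nat_lit 5) (nat_lit 5))
    (@En.n l645 (nat_lit 7198) (nat_lit 1) (nat_lit 14))
    (@En.n l7041 (nat_lit 5134) (nat_lit 10) (nat_lit 6))
    (@En.i (nat_lit 5832) (nat_lit 12) (nat_lit 6))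
    (@En.n l7630 (nat_lit 4151) (nat_lit 9) (nat_lit 3))
    (@En.i (nat_lit 2734) (nat_lit 0) (nat_lit 11))
    (@En.n l3824 (nat_lit 8972) (nat_lit 12) (nat_lit 7))
    (@En.n l4245 (nat_lit 5147) (nat_lit 13) (nat_lit 13))
    (@En.n l68 (nat_lit 5147) (nat_lit 14) (nat_lit 10))
    (@En.n l12290 (nat_lit 11450) (nat_lit 10) (nat_lit 10))
    (@En.n l17 (nat_lit 4167) (nat_lit 15) (nat_lit 2))))
  (@Cl.mk (nat_lit 0x2000b000e00090002000e00050002000d000c00070003000d0004000e0003) (nat_lit 0x9b70b004800b060) (nat_lit 16) Lb.e (@T16.mk En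
    (@En.n l14833 (nat_lit 2737) (nat_lit 7) (nat_lit 3))
    (@En.n l6002 (nat_lit 13662) (nat_lit 0) (nat_lit 14))
    (@En.n l21162 (nat_lit 2988) (nat_lit 2) (nat_lit 4))
    (@En.n l21163 (nat_lit 2790) (nat_lit 11) (nat_lit 13))
    (@En.n l7 (nat_lit 2733) (nat_lit 4) (nat_lit 3))
    (@En.n l21164 (nat_lit 4162) (nat_lit 5) (nat_lit 7))
    (@En.n l644 (nat_lit 2998) (nat_lit 7) (nat_lit 12))
    (@En.n l16001 (nat_lit 4864) (nat_lit 12) (nat_lit 13))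
    (@En.n l3 (nat_lit 4168) (nat_lit 8) (nat_lit 2))
    (@En.n l16002 (nat_lit 2900) (nat_lit 14) (nat_lit 5))
    (@En.i (nat_lit 4071) (nat_lit 1) (nat_lit 14))
    (@En.n l936 (nat_lit 4168) (nat_lit 11) (nat_lit 2))
    (@En.n l5411 (nat_lit 3036) (nat_lit 13) (nat_lit 9))
    (@En.n l21165 (nat_lit 13211) (nat_lit 4) (nat_lit 14))
    (@En.n l19987 (nat_lit 4170) (nat_lit 2) (nat_lit 11))
    (@En.n l17 (nat_lit 4168) (nat_lit 15) (nat_lit 2))))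
  (@Cl.mk (nat_lit 0x2000b000e00070002000e00050002000e000c0002000c00090004000e0004) (nat_lit 0x9b0090058084060) (nat_lit 16) Lb.e (@T16.mk En
    (@En.n l7 (nat_lit 2976) (nat_lit 10) (nat_lit 4))
    (@En.i (nat_lit 3385) (nat_lit 1) (nat_lit 14))
    (@En.n l9647 (nat_lit 4168) (nat_lit 2) (nat_lit 4))
    (@En.n l2026 (nat_lit 4869) (nat_lit 14) (nat_lit 9))
    (@En.n l3201 (nat_lit 2795) (nat_lit 12) (nat_lit 12))
    (@En.n l11 (nat_lit 4169) (nat_lit 5) (nat_lit 2))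
    (@En.i (nat_lit 2988) (nat_lit 7) (nat_lit 12))
    (@En.n l9401 (nat_lit 12835) (nat_lit 1) (nat_lit 14))
    (@En.n l3 (nat_lit 4169) (nat_lit 8) (nat_lit 2))
    (@En.n l17707 (nat_lit 2921) (nat_lit 14) (nat_lit 5))
    (@En.n l2544 (nat_lit 4089) (nat_lit 1) (nat_lit 14))
    (@En.n l17 (nat_lit 4169) (nat_lit 11) (nat_lit 2))
    (@En.n l4353 (nat_lit 2920) (nat_lit 6) (nat_lit 7))
    (@En.n l998 (nat_lit 12844) (nat_lit 4) (nat_lit 14))
    (@En.n l998 (nat_lit 11565) (nat_lit 9) (nat_lit 11))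
    (@En.n l50 (nat_lit 4169) (nat_lit 15) (nat_lit 2))))
  (@Cl.mk (nat_lit 0x2000d000500080003000d000c00080003000d000400080003000b000e0008) (nat_lit 0x500050003020880) (nat_lit 16) Lb.e (@T16.mk En
    (@En.n l17184 (nat_lit 4176) (nat_lit 13) (nat_lit 8))
    (@En.i (nat_lit 5862) (nat_lit 4) (nat_lit 14))
    (@En.n l5 (nat_lit 4175) (nat_lit 2) (nat_lit 11))
    (@En.n l50 (nat_lit 4172) (nat_lit 3) (nat_lit 3))
    (@En.i (nat_lit 1927) (nat_lit 0) (nat_lit 8))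
    (@En.n l3506 (nat_lit 4178) (nat_lit 5) (nat_lit 4))
    (@En.n l17578 (nat_lit 12483) (nat_lit 7) (nat_lit 13))
    (@En.n l278 (nat_lit 4173) (nat_lit 7) (nat_lit 3))
    (@En.i (nat_lit 11457) (nat_lit 0) (nat_lit 8))
    (@En.n l7111 (nat_lit 4177) (nat_lit 10) (nat_lit 12))
    (@En.n l3201 (nat_lit 12177) (nat_lit 11) (nat_lit 13))
    (@En.n l117 (nat_lit 4174) (nat_lit 11) (nat_lit 3))
    (@En.n l781 (nat_lit 12613) (nat_lit 0) (nat_lit 8))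
    (@En.n l7112 (nat_lit 4171) (nat_lit 14) (nat_lit 5))
    (@En.n l10994 (nat_lit 9757) (nat_lit 2) (nat_lit 13))
    (@En.n l17 (nat_lit 4170) (nat_lit 15) (nat_lit 2))))
  (@Cl.mk (nat_lit 0x2000500080006000d000c00070003000d000400080003000b000a000e0009) (nat_lit 0x400030208090) (nat_lit 16) Lb.e (@T16.mk En
    (@En.n l17241 (nat_lit 11935) (nat_lit 12) (nat_lit 9))
    (@En.n l17600 (nat_lit 4170) (nat_lit 1) (nat_lit 14))
    (@En.n l17600 (nat_lit 4174) (nat_lit 2) (nat_lit 10))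
    (@En.n l23277 (nat_lit 11931) (nat_lit 3) (nat_lit 11))
    (@En.n l4248 (nat_lit 11933) (nat_lit 4) (nat_lit 3))
    (@En.n l7198 (nat_lit 1916) (nat_lit 5) (nat_lit 8))
    (@En.n l25223 (nat_lit 8073) (nat_lit 6) (nat_lit 4))
    (@En.n l4003 (nat_lit 12482) (nat_lit 8) (nat_lit 13))
    (@En.n l7 (nat_lit 4181) (nat_lit 8) (nat_lit 3))
    (@En.n l7198 (nat_lit 11452) (nat_lit 0) (nat_lit 7))
    (@En.n l644 (nat_lit 11929) (nat_lit 11) (nat_lit 12))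
    (@En.n l645 (nat_lit 12180) (nat_lit 12) (nat_lit 13))
    (@En.n l3866 (nat_lit 12397) (nat_lit 13) (nat_lit 6))
    (@En.n l2098 (nat_lit 12619) (nat_lit 14) (nat_lit 8))
    (@En.i (nat_lit 10972) (nat_lit 13) (nat_lit 5))
    (@En.n l936 (nat_lit 4171) (nat_lit 15) (nat_lit 2))))
  (@Cl.mk (nat_lit 0x2000d000500090003000d000b00080003000d000700050003000b000e0008) (nat_lit 0x700055003000880) (nat_lit 16) Lb.e (@T16.mk En
    (@En.i (nat_lit 12064) (nat_lit 13) (nat_lit 8))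
    (@En.i (nat_lit 5333) (nat_lit 4) (nat_lit 14))
    (@En.i (nat_lit 12105) (nat_lit 2) (nat_lit 11))
    (@En.i (nat_lit 4170) (nat_lit 3) (nat_lit 3))
    (@En.n l7081 (nat_lit 5598) (nat_lit 0) (nat_lit 5))
    (@En.n l564 (nat_lit 4175) (nat_lit 5) (nat_lit 7))
    (@En.n l1415 (nat_lit 12076) (nat_lit 7) (nat_lit 13))
    (@En.n l7081 (nat_lit 4179) (nat_lit 7) (nat_lit 3))
    (@En.i (nat_lit 11460) (nat_lit 0) (nat_lit 8))
    (@En.n l11084 (nat_lit 5587) (nat_lit 10) (nat_lit 11))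
    (@En.i (nat_lit 12178) (nat_lit 11) (nat_lit 13))
    (@En.n l117 (nat_lit 12066) (nat_lit 11) (nat_lit 3))
    (@En.n l781 (nat_lit 12570) (nat_lit 0) (nat_lit 9))
    (@En.i (nat_lit 11933) (nat_lit 14) (nat_lit 5))
    (@En.i (nat_lit 9763) (nat_lit 2) (nat_lit 13))
    (@En.n l17 (nat_lit 4172) (nat_lit 15) (nat_lit 2))))
  (@Cl.mk (nat_lit 0x2000d000500080003000d0007000d0003000d000300080003000b000e0009) (nat_lit 0x500060000020960) (nat_lit 16) Lb.e (@T16.mk En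
    (@En.n l37295 (nat_lit 11022) (nat_lit 11) (nat_lit 9))
    (@En.n l86 (nat_lit 5401) (nat_lit 4) (nat_lit 14))
    (@En.n l37296 (nat_lit 4180) (nat_lit 2) (nat_lit 11))
    (@En.n l199 (nat_lit 4179) (nat_lit 3) (nat_lit 3))
    (@En.i (nat_lit 5960) (nat_lit 0) (nat_lit 8))
    (@En.n l1001 (nat_lit 4177) (nat_lit 5) (nat_lit 3))
    (@En.n l1014 (nat_lit 5455) (nat_lit 0) (nat_lit 13))
    (@En.n l996 (nat_lit 4170) (nat_lit 7) (nat_lit 3))
    (@En.n l1001 (nat_lit 7311) (nat_lit 0) (nat_lit 13))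
    (@En.n l2436 (nat_lit 10546) (nat_lit 3) (nat_lit 7))
    (@En.n l1014 (nat_lit 11969) (nat_lit 11) (nat_lit 13))
    (@En.n l37297 (nat_lit 11016) (nat_lit 11) (nat_lit 3))
    (@En.i (nat_lit 12614) (nat_lit 0) (nat_lit 8))
    (@En.n l6651 (nat_lit 4181) (nat_lit 14) (nat_lit 5))
    (@En.n l2055 (nat_lit 9760) (nat_lit 2) (nat_lit 13))
    (@En.n l3 (nat_lit 4173) (nat_lit 15) (nat_lit 2))))
  (@Cl.mk (nat_lit 0x2000d000700060003000d000c00080003000d000400090003000a000e0008) (nat_lit 0x500050003000880) (nat_lit 16) Lb.e (@T16.mk En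
    (@En.n l16733 (nat_lit 11025) (nat_lit 13) (nat_lit 8))
    (@En.i (nat_lit 4516) (nat_lit 1) (nat_lit 14))
    (@En.n l1897 (nat_lit 11751) (nat_lit 2) (nat_lit 10))
    (@En.n l50 (nat_lit 12066) (nat_lit 3) (nat_lit 3))
    (@En.i (nat_lit 11014) (nat_lit 0) (nat_lit 9))
    (@En.n l3528 (nat_lit 11561) (nat_lit 5) (nat_lit 4))
    (@En.n l17578 (nat_lit 12075) (nat_lit 7) (nat_lit 13))
    (@En.n l10263 (nat_lit 11016) (nat_lit 7) (nat_lit 3))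
    (@En.i (nat_lit 11464) (nat_lit 0) (nat_lit 8))
    (@En.n l39827 (nat_lit 11017) (nat_lit 10) (nat_lit 12))
    (@En.i (nat_lit 11041) (nat_lit 11) (nat_lit 13))
    (@En.n l152 (nat_lit 4170) (nat_lit 11) (nat_lit 3))
    (@En.n l10264 (nat_lit 12395) (nat_lit 0) (nat_lit 6))
    (@En.n l97 (nat_lit 12272) (nat_lit 14) (nat_lit 7))
    (@En.n l33699 (nat_lit 9756) (nat_lit 2) (nat_lit 13))
    (@En.n l17 (nat_lit 4174) (nat_lit 15) (nat_lit 2))))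
  (@Cl.mk (nat_lit 0x2000c0005000900080004000d000c00090003000700040008000b000e0007) (nat_lit 0x400106000001770) (nat_lit 16) Lb.e (@T16.mk En
    (@En.n l37277 (nat_lit 11940) (nat_lit 10) (nat_lit 7))
    (@En.i (nat_lit 12807) (nat_lit 4) (nat_lit 14))
    (@En.n l7271 (nat_lit 11693) (nat_lit 7) (nat_lit 11))
    (@En.n l25432 (nat_lit 1924) (nat_lit 3) (nat_lit 8))
    (@En.i (nat_lit 8071) (nat_lit 4) (nat_lit 4))
    (@En.n l766 (nat_lit 11965) (nat_lit 5) (nat_lit 7))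
    (@En.n l19017 (nat_lit 4180) (nat_lit 6) (nat_lit 3))
    (@En.i (nat_lit 11459) (nat_lit 0) (nat_lit 9))
    (@En.n l19680 (nat_lit 11932) (nat_lit 9) (nat_lit 12))
    (@En.n l1253 (nat_lit 12181) (nat_lit 10) (nat_lit 13))
    (@En.n l16785 (nat_lit 11751) (nat_lit 10) (nat_lit 4))
    (@En.n l2593 (nat_lit 4170) (nat_lit 12) (nat_lit 8))
    (@En.n l15166 (nat_lit 11625) (nat_lit 13) (nat_lit 9))
    (@En.n l2642 (nat_lit 11931) (nat_lit 14) (nat_lit 5))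
    (@En.n l37278 (nat_lit 9766) (nat_lit 8) (nat_lit 12))
    (@En.n l18 (nat_lit 4175) (nat_lit 15) (nat_lit 2))))
noncomputable def a261 : T16 Cl := @T16.mk Cl
  (@Cl.mk (nat_lit 0x3000c00080008000d000400070003000c000b000800080004000d00050009) (nat_lit 0x960b00090010100) (nat_lit 16) Lb.e (@T16.mk En
    (@En.n l2642 (nat_lit 5110) (nat_lit 0) (nat_lit 9))
    (@En.n l41669 (nat_lit 11543) (nat_lit 8) (nat_lit 5))
    (@En.n l20421 (nat_lit 75) (nat_lit 2) (nat_lit 13))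
    (@En.n l13633 (nat_lit 11788) (nat_lit 10) (nat_lit 4))
    (@En.n l18153 (nat_lit 4170) (nat_lit 8) (nat_lit 8))
    (@En.n l2642 (nat_lit 11470) (nat_lit 5) (nat_lit 8))
    (@En.n l41670 (nat_lit 11024) (nat_lit 5) (nat_lit 11))
    (@En.n l5646 (nat_lit 12174) (nat_lit 8) (nat_lit 12))
    (@En.n l31407 (nat_lit 11025) (nat_lit 8) (nat_lit 3))
    (@En.n l41671 (nat_lit 8070) (nat_lit 11) (nat_lit 7))
    (@En.n l41672 (nat_lit 11935) (nat_lit 10) (nat_lit 4))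
    (@En.n l41672 (nat_lit 10228) (nat_lit 0) (nat_lit 13))
    (@En.n l1003 (nat_lit 12070) (nat_lit 8) (nat_lit 8))
    (@En.n l26935 (nat_lit 10066) (nat_lit 14) (nat_lit 8))
    (@En.n l41673 (nat_lit 11940) (nat_lit 11) (nat_lit 12))
    (@En.n l32790 (nat_lit 12064) (nat_lit 15) (nat_lit 3))))
  (@Cl.mk (nat_lit 0x2000d000500080003000c0007000d000c0004000300080004000b000e0009) (nat_lit 0x8000a0000030830) (nat_lit 16) Lb.e (@T16.mk En
    (@En.n l30885 (nat_lit 11024) (nat_lit 11) (nat_lit 9))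
    (@En.n l30886 (nat_lit 4515) (nat_lit 4) (nat_lit 14))
    (@En.n l14866 (nat_lit 11932) (nat_lit 2) (nat_lit 11))
    (@En.n l3306 (nat_lit 5587) (nat_lit 3) (nat_lit 4))
    (@En.n l1353 (nat_lit 6273) (nat_lit 4) (nat_lit 8))
    (@En.n l6502 (nat_lit 4173) (nat_lit 5) (nat_lit 3))
    (@En.n l30887 (nat_lit 8067) (nat_lit 0) (nat_lit 4))
    (@En.n l19835 (nat_lit 4179) (nat_lit 8) (nat_lit 12))
    (@En.n l3306 (nat_lit 7308) (nat_lit 9) (nat_lit 13))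
    (@En.n l6504 (nat_lit 11765) (nat_lit 3) (nat_lit 7))
    (@En.n l11302 (nat_lit 12080) (nat_lit 11) (nat_lit 12))
    (@En.n l4306 (nat_lit 11017) (nat_lit 11) (nat_lit 3))
    (@En.n l3303 (nat_lit 12615) (nat_lit 0) (nat_lit 8))
    (@En.n l6496 (nat_lit 11929) (nat_lit 14) (nat_lit 5))
    (@En.n l6497 (nat_lit 9761) (nat_lit 2) (nat_lit 13))
    (@En.n l107 (nat_lit 4177) (nat_lit 15) (nat_lit 2))))
  (@Cl.mk (nat_lit 0x2000d000500080003000c000c000b00090004000400080005000b000e0007) (nat_lit 0x400000600020880) (nat_lit 16) Lb.e (@T16.mk En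
    (@En.n l3147 (nat_lit 11543) (nat_lit 4) (nat_lit 7))
    (@En.i (nat_lit 4512) (nat_lit 4) (nat_lit 14))
    (@En.n l9760 (nat_lit 8071) (nat_lit 2) (nat_lit 11))
    (@En.n l50 (nat_lit 5603) (nat_lit 3) (nat_lit 5))
    (@En.n l287 (nat_lit 9447) (nat_lit 4) (nat_lit 8))
    (@En.n l55 (nat_lit 11565) (nat_lit 12) (nat_lit 4))
    (@En.n l7111 (nat_lit 4177) (nat_lit 6) (nat_lit 4))
    (@En.n l9762 (nat_lit 5559) (nat_lit 0) (nat_lit 9))
    (@En.n l134 (nat_lit 4172) (nat_lit 9) (nat_lit 11))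
    (@En.i (nat_lit 8067) (nat_lit 4) (nat_lit 12))
    (@En.i (nat_lit 11483) (nat_lit 11) (nat_lit 12))
    (@En.n l2221 (nat_lit 11561) (nat_lit 11) (nat_lit 3))
    (@En.n l781 (nat_lit 4907) (nat_lit 0) (nat_lit 8))
    (@En.i (nat_lit 8073) (nat_lit 14) (nat_lit 5))
    (@En.i (nat_lit 9749) (nat_lit 2) (nat_lit 13))
    (@En.n l17 (nat_lit 4178) (nat_lit 15) (nat_lit 2))))
  (@Cl.mk (nat_lit 0x2000d000500090003000d0007000c0003000d000700040003000b000e0009) (nat_lit 0x700060a00000960) (nat_lit 16) Lb.e (@T16.mk En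
    (@En.i (nat_lit 11023) (nat_lit 4) (nat_lit 9))
    (@En.i (nat_lit 5331) (nat_lit 4) (nat_lit 14))
    (@En.i (nat_lit 11671) (nat_lit 2) (nat_lit 11))
    (@En.n l690 (nat_lit 4173) (nat_lit 3) (nat_lit 3))
    (@En.i (nat_lit 5611) (nat_lit 0) (nat_lit 4))
    (@En.i (nat_lit 4180) (nat_lit 5) (nat_lit 7))
    (@En.n l3424 (nat_lit 5453) (nat_lit 7) (nat_lit 13))
    (@En.n l10307 (nat_lit 4172) (nat_lit 7) (nat_lit 3))
    (@En.i (nat_lit 8321) (nat_lit 0) (nat_lit 12))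
    (@En.n l9051 (nat_lit 10542) (nat_lit 14) (nat_lit 7))
    (@En.n l8891 (nat_lit 11971) (nat_lit 11) (nat_lit 13))
    (@En.n l117 (nat_lit 11018) (nat_lit 11) (nat_lit 3))
    (@En.n l690 (nat_lit 12571) (nat_lit 0) (nat_lit 9))
    (@En.n l9236 (nat_lit 11930) (nat_lit 14) (nat_lit 5))
    (@En.n l10384 (nat_lit 9762) (nat_lit 2) (nat_lit 13))
    (@En.n l17 (nat_lit 4179) (nat_lit 15) (nat_lit 2))))
  (@Cl.mk (nat_lit 0x2000c0005000900080004000d0008000d0003000700030008000b000e0008) (nat_lit 0x400107000001850) (nat_lit 16) Lb.e (@T16.mk En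
    (@En.n l18451 (nat_lit 11939) (nat_lit 12) (nat_lit 8))
    (@En.i (nat_lit 12805) (nat_lit 4) (nat_lit 14))
    (@En.n l10382 (nat_lit 11692) (nat_lit 7) (nat_lit 11))
    (@En.n l690 (nat_lit 1925) (nat_lit 3) (nat_lit 8))
    (@En.n l28 (nat_lit 11932) (nat_lit 4) (nat_lit 3))
    (@En.n l21449 (nat_lit 10784) (nat_lit 0) (nat_lit 7))
    (@En.n l9050 (nat_lit 4175) (nat_lit 6) (nat_lit 3))
    (@En.i (nat_lit 7322) (nat_lit 0) (nat_lit 13))
    (@En.n l9051 (nat_lit 11945) (nat_lit 3) (nat_lit 8))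
    (@En.n l10679 (nat_lit 11970) (nat_lit 10) (nat_lit 13))
    (@En.n l21450 (nat_lit 11377) (nat_lit 10) (nat_lit 4))
    (@En.n l356 (nat_lit 4173) (nat_lit 12) (nat_lit 8))
    (@En.n l448 (nat_lit 11623) (nat_lit 13) (nat_lit 9))
    (@En.n l15671 (nat_lit 11927) (nat_lit 14) (nat_lit 5))
    (@En.n l21451 (nat_lit 9765) (nat_lit 8) (nat_lit 12))
    (@En.n l17 (nat_lit 4180) (nat_lit 15) (nat_lit 2))))
  (@Cl.mk (nat_lit 0x2000500080006000d0006000d0003000d000300080003000b000a000e000a) (nat_lit 0x10500000109070) (nat_lit 16) Lb.e (@T16.mk En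
    (@En.n l17241 (nat_lit 11920) (nat_lit 10) (nat_lit 10))
    (@En.n l16492 (nat_lit 4173) (nat_lit 1) (nat_lit 14))
    (@En.n l22465 (nat_lit 11016) (nat_lit 2) (nat_lit 10))
    (@En.i (nat_lit 11927) (nat_lit 3) (nat_lit 11))
    (@En.i (nat_lit 11930) (nat_lit 4) (nat_lit 3))
    (@En.n l638 (nat_lit 1917) (nat_lit 5) (nat_lit 8))
    (@En.i (nat_lit 11929) (nat_lit 6) (nat_lit 3))
    (@En.n l645 (nat_lit 6002) (nat_lit 8) (nat_lit 13))
    (@En.i (nat_lit 4171) (nat_lit 8) (nat_lit 3))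
    (@En.n l638 (nat_lit 7313) (nat_lit 10) (nat_lit 13))
    (@En.n l1236 (nat_lit 10547) (nat_lit 11) (nat_lit 6))
    (@En.n l645 (nat_lit 11972) (nat_lit 12) (nat_lit 13))
    (@En.n l3866 (nat_lit 12484) (nat_lit 13) (nat_lit 6))
    (@En.n l2098 (nat_lit 4041) (nat_lit 14) (nat_lit 8))
    (@En.i (nat_lit 8716) (nat_lit 13) (nat_lit 5))
    (@En.n l936 (nat_lit 4181) (nat_lit 15) (nat_lit 2))))
  (@Cl.mk (nat_lit 0x20006000d0007000e00030002000e000b0002000b000a00090005000e0005) (nat_lit 0x509006609760c0) (nat_lit 16) Lb.e (@T16.mk En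
    (@En.n l394 (nat_lit 1950) (nat_lit 9) (nat_lit 5))
    (@En.n l4412 (nat_lit 4804) (nat_lit 1) (nat_lit 14))
    (@En.n l1393 (nat_lit 3852) (nat_lit 2) (nat_lit 5))
    (@En.n l644 (nat_lit 2676) (nat_lit 13) (nat_lit 9))
    (@En.i (nat_lit 4109) (nat_lit 4) (nat_lit 10))
    (@En.i (nat_lit 4186) (nat_lit 12) (nat_lit 11))
    (@En.n l3 (nat_lit 4182) (nat_lit 6) (nat_lit 2))
    (@En.i (nat_lit 3272) (nat_lit 8) (nat_lit 11))
    (@En.i (nat_lit 7048) (nat_lit 1) (nat_lit 14))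
    (@En.n l17 (nat_lit 4182) (nat_lit 9) (nat_lit 2))
    (@En.i (nat_lit 3273) (nat_lit 10) (nat_lit 3))
    (@En.i (nat_lit 13031) (nat_lit 0) (nat_lit 14))
    (@En.i (nat_lit 2110) (nat_lit 13) (nat_lit 7))
    (@En.n l1393 (nat_lit 4562) (nat_lit 7) (nat_lit 13))
    (@En.i (nat_lit 2099) (nat_lit 7) (nat_lit 6))
    (@En.n l28 (nat_lit 4182) (nat_lit 15) (nat_lit 2))))
  (@Cl.mk (nat_lit 0x20006000e000d000200090003000e000b0002000b000a00070005000e0005) (nat_lit 0x97020660910070) (nat_lit 16) Lb.e (@T16.mk En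
    (@En.n l50 (nat_lit 1951) (nat_lit 4) (nat_lit 5))
    (@En.n l5567 (nat_lit 4826) (nat_lit 1) (nat_lit 14))
    (@En.i (nat_lit 3854) (nat_lit 2) (nat_lit 5))
    (@En.n l404 (nat_lit 4086) (nat_lit 7) (nat_lit 7))
    (@En.n l12802 (nat_lit 3283) (nat_lit 4) (nat_lit 10))
    (@En.n l12144 (nat_lit 4185) (nat_lit 10) (nat_lit 11))
    (@En.n l28 (nat_lit 4183) (nat_lit 6) (nat_lit 2))
    (@En.i (nat_lit 3274) (nat_lit 8) (nat_lit 11))
    (@En.n l12802 (nat_lit 4822) (nat_lit 1) (nat_lit 14))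
    (@En.n l1574 (nat_lit 3273) (nat_lit 9) (nat_lit 3))
    (@En.n l1878 (nat_lit 1977) (nat_lit 11) (nat_lit 9))
    (@En.n l3 (nat_lit 4183) (nat_lit 11) (nat_lit 2))
    (@En.n l681 (nat_lit 3273) (nat_lit 13) (nat_lit 13))
    (@En.n l2809 (nat_lit 2912) (nat_lit 1) (nat_lit 14))
    (@En.n l12803 (nat_lit 2105) (nat_lit 2) (nat_lit 6))
    (@En.n l18 (nat_lit 4183) (nat_lit 15) (nat_lit 2))))
  (@Cl.mk (nat_lit 0x300030008000c000b000900070004000d0005000800030007000d000d0009) (nat_lit 0x62850040300073) (nat_lit 16) Lb.e (@T16.mk En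
    (@En.i (nat_lit 4358) (nat_lit 0) (nat_lit 9))
    (@En.n l14723 (nat_lit 4186) (nat_lit 3) (nat_lit 13))
    (@En.n l6080 (nat_lit 4302) (nat_lit 2) (nat_lit 13))
    (@En.n l152 (nat_lit 5556) (nat_lit 3) (nat_lit 7))
    (@En.n l9956 (nat_lit 4187) (nat_lit 4) (nat_lit 3))
    (@En.n l2921 (nat_lit 4885) (nat_lit 0) (nat_lit 8))
    (@En.n l33752 (nat_lit 1965) (nat_lit 6) (nat_lit 5))
    (@En.n l33753 (nat_lit 4193) (nat_lit 8) (nat_lit 13))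
    (@En.n l18 (nat_lit 6181) (nat_lit 8) (nat_lit 4))
    (@En.n l33754 (nat_lit 4393) (nat_lit 4) (nat_lit 7))
    (@En.i (nat_lit 5659) (nat_lit 11) (nat_lit 9))
    (@En.n l61 (nat_lit 3968) (nat_lit 12) (nat_lit 11))
    (@En.n l3528 (nat_lit 3263) (nat_lit 7) (nat_lit 12))
    (@En.n l19270 (nat_lit 10300) (nat_lit 14) (nat_lit 8))
    (@En.n l7 (nat_lit 4185) (nat_lit 13) (nat_lit 3))
    (@En.n l10889 (nat_lit 4186) (nat_lit 0) (nat_lit 3))))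
  (@Cl.mk (nat_lit 0x2000a00030008000c000b000900060004000d0005000800030007000e000d) (nat_lit 0x106184004030011) (nat_lit 16) Lb.e (@T16.mk En
    (@En.n l134 (nat_lit 4184) (nat_lit 2) (nat_lit 13))
    (@En.n l6080 (nat_lit 2780) (nat_lit 1) (nat_lit 14))
    (@En.n l152 (nat_lit 5558) (nat_lit 2) (nat_lit 7))
    (@En.n l1865 (nat_lit 4188) (nat_lit 3) (nat_lit 3))
    (@En.n l2921 (nat_lit 4886) (nat_lit 0) (nat_lit 8))
    (@En.n l26600 (nat_lit 2069) (nat_lit 5) (nat_lit 5))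
    (@En.n l6081 (nat_lit 4195) (nat_lit 7) (nat_lit 13))
    (@En.n l18 (nat_lit 6180) (nat_lit 7) (nat_lit 4))
    (@En.n l26601 (nat_lit 4436) (nat_lit 8) (nat_lit 6))
    (@En.i (nat_lit 5658) (nat_lit 10) (nat_lit 9))
    (@En.n l61 (nat_lit 3969) (nat_lit 11) (nat_lit 11))
    (@En.n l649 (nat_lit 3265) (nat_lit 12) (nat_lit 12))
    (@En.i (nat_lit 7298) (nat_lit 13) (nat_lit 8))
    (@En.i (nat_lit 4184) (nat_lit 14) (nat_lit 3))
    (@En.i (nat_lit 3125) (nat_lit 0) (nat_lit 10))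
    (@En.n l28 (nat_lit 4185) (nat_lit 15) (nat_lit 2))))
  (@Cl.mk (nat_lit 0x20008000c000b000900080004000d0005000800030007000d0008000e0003) (nat_lit 0x38060303006180) (nat_lit 16) Lb.e (@T16.mk En
    (@En.n l12442 (nat_lit 4184) (nat_lit 15) (nat_lit 3))
    (@En.n l1385 (nat_lit 13973) (nat_lit 0) (nat_lit 14))
    (@En.i (nat_lit 3954) (nat_lit 2) (nat_lit 8))
    (@En.n l4684 (nat_lit 4300) (nat_lit 4) (nat_lit 13))
    (@En.n l19706 (nat_lit 5557) (nat_lit 4) (nat_lit 7))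
    (@En.n l28 (nat_lit 4189) (nat_lit 5) (nat_lit 3))
    (@En.n l4305 (nat_lit 4887) (nat_lit 0) (nat_lit 8))
    (@En.n l23766 (nat_lit 1966) (nat_lit 7) (nat_lit 5))
    (@En.n l5267 (nat_lit 4194) (nat_lit 9) (nat_lit 13))
    (@En.n l4073 (nat_lit 6188) (nat_lit 9) (nat_lit 4))
    (@En.n l644 (nat_lit 4371) (nat_lit 11) (nat_lit 8))
    (@En.i (nat_lit 5662) (nat_lit 12) (nat_lit 9))
    (@En.n l11778 (nat_lit 3970) (nat_lit 13) (nat_lit 11))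
    (@En.n l4684 (nat_lit 3261) (nat_lit 14) (nat_lit 12))
    (@En.n l170 (nat_lit 10301) (nat_lit 14) (nat_lit 8))
    (@En.n l17 (nat_lit 4186) (nat_lit 15) (nat_lit 2))))
  (@Cl.mk (nat_lit 0x300030009000c000a000900070004000d0007000600030007000d000d0009) (nat_lit 0x7a750040000673) (nat_lit 16) Lb.e (@T16.mk En
    (@En.n l4684 (nat_lit 4359) (nat_lit 0) (nat_lit 9))
    (@En.n l17965 (nat_lit 4189) (nat_lit 3) (nat_lit 13))
    (@En.n l13564 (nat_lit 4303) (nat_lit 2) (nat_lit 13))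
    (@En.n l17 (nat_lit 6012) (nat_lit 3) (nat_lit 7))
    (@En.n l3522 (nat_lit 4184) (nat_lit 4) (nat_lit 3))
    (@En.n l12400 (nat_lit 2303) (nat_lit 0) (nat_lit 6))
    (@En.n l17966 (nat_lit 2361) (nat_lit 6) (nat_lit 7))
    (@En.n l17967 (nat_lit 4191) (nat_lit 8) (nat_lit 13))
    (@En.n l28 (nat_lit 6178) (nat_lit 8) (nat_lit 4))
    (@En.n l17968 (nat_lit 4392) (nat_lit 4) (nat_lit 7))
    (@En.i (nat_lit 6142) (nat_lit 11) (nat_lit 9))
    (@En.n l17969 (nat_lit 3240) (nat_lit 12) (nat_lit 10))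
    (@En.i (nat_lit 3266) (nat_lit 6) (nat_lit 12))
    (@En.n l476 (nat_lit 10391) (nat_lit 14) (nat_lit 9))
    (@En.n l152 (nat_lit 4188) (nat_lit 13) (nat_lit 3))
    (@En.n l17970 (nat_lit 4189) (nat_lit 0) (nat_lit 3))))
  (@Cl.mk (nat_lit 0x2000a00030009000c000a000900060004000d0007000600030007000e000d) (nat_lit 0x206a76001000017) (nat_lit 16) Lb.e (@T16.mk En
    (@En.i (nat_lit 4187) (nat_lit 2) (nat_lit 13))
    (@En.n l9947 (nat_lit 2552) (nat_lit 1) (nat_lit 14))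
    (@En.n l17 (nat_lit 6096) (nat_lit 2) (nat_lit 7))
    (@En.n l2869 (nat_lit 4185) (nat_lit 3) (nat_lit 3))
    (@En.n l22816 (nat_lit 2351) (nat_lit 0) (nat_lit 6))
    (@En.n l22817 (nat_lit 2359) (nat_lit 5) (nat_lit 7))
    (@En.n l22818 (nat_lit 2360) (nat_lit 7) (nat_lit 13))
    (@En.n l28 (nat_lit 6176) (nat_lit 7) (nat_lit 4))
    (@En.n l1307 (nat_lit 891) (nat_lit 8) (nat_lit 6))
    (@En.i (nat_lit 6143) (nat_lit 10) (nat_lit 9))
    (@En.n l22819 (nat_lit 3243) (nat_lit 11) (nat_lit 10))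
    (@En.i (nat_lit 3268) (nat_lit 6) (nat_lit 12))
    (@En.n l14619 (nat_lit 9419) (nat_lit 13) (nat_lit 9))
    (@En.n l117 (nat_lit 4187) (nat_lit 14) (nat_lit 3))
    (@En.i (nat_lit 4362) (nat_lit 0) (nat_lit 10))
    (@En.n l3 (nat_lit 4188) (nat_lit 15) (nat_lit 2))))
  (@Cl.mk (nat_lit 0x20009000c000a000900080004000d0007000600030007000d0008000e0003) (nat_lit 0x637060400006180) (nat_lit 16) Lb.e (@T16.mk En
    (@En.n l6504 (nat_lit 4187) (nat_lit 15) (nat_lit 3))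
    (@En.n l111 (nat_lit 13975) (nat_lit 0) (nat_lit 14))
    (@En.n l2094 (nat_lit 3953) (nat_lit 2) (nat_lit 8))
    (@En.n l22131 (nat_lit 4301) (nat_lit 4) (nat_lit 13))
    (@En.n l22132 (nat_lit 6011) (nat_lit 4) (nat_lit 7))
    (@En.i (nat_lit 4186) (nat_lit 5) (nat_lit 3))
    (@En.n l3457 (nat_lit 2302) (nat_lit 0) (nat_lit 6))
    (@En.n l22133 (nat_lit 4190) (nat_lit 7) (nat_lit 7))
    (@En.n l3459 (nat_lit 4192) (nat_lit 9) (nat_lit 13))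
    (@En.n l12391 (nat_lit 6183) (nat_lit 9) (nat_lit 4))
    (@En.n l644 (nat_lit 4376) (nat_lit 11) (nat_lit 8))
    (@En.n l2094 (nat_lit 6144) (nat_lit 12) (nat_lit 9))
    (@En.n l3462 (nat_lit 3242) (nat_lit 13) (nat_lit 10))
    (@En.n l22131 (nat_lit 3267) (nat_lit 6) (nat_lit 12))
    (@En.i (nat_lit 10389) (nat_lit 14) (nat_lit 9))
    (@En.n l17 (nat_lit 4189) (nat_lit 15) (nat_lit 2))))
  (@Cl.mk (nat_lit 0x200090008000c000b000a000900040007000500080006000d0007000e0003) (nat_lit 0x714807000305070) (nat_lit 16) Lb.e (@T16.mk En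
    (@En.i (nat_lit 2361) (nat_lit 15) (nat_lit 3))
    (@En.i (nat_lit 13547) (nat_lit 0) (nat_lit 14))
    (@En.n l7 (nat_lit 4211) (nat_lit 2) (nat_lit 7))
    (@En.n l36006 (nat_lit 4304) (nat_lit 4) (nat_lit 13))
    (@En.n l7 (nat_lit 5637) (nat_lit 4) (nat_lit 6))
    (@En.n l117 (nat_lit 4884) (nat_lit 5) (nat_lit 8))
    (@En.i (nat_lit 2299) (nat_lit 6) (nat_lit 5))
    (@En.i (nat_lit 2366) (nat_lit 7) (nat_lit 7))
    (@En.n l117 (nat_lit 6195) (nat_lit 8) (nat_lit 4))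
    (@En.n l11881 (nat_lit 4377) (nat_lit 10) (nat_lit 9))
    (@En.n l1578 (nat_lit 6099) (nat_lit 11) (nat_lit 10))
    (@En.n l10727 (nat_lit 4192) (nat_lit 12) (nat_lit 11))
    (@En.n l37711 (nat_lit 4189) (nat_lit 13) (nat_lit 12))
    (@En.n l22688 (nat_lit 4186) (nat_lit 14) (nat_lit 8))
    (@En.i (nat_lit 10392) (nat_lit 14) (nat_lit 9))
    (@En.n l17 (nat_lit 4190) (nat_lit 15) (nat_lit 2))))
  (@Cl.mk (nat_lit 0x30003000a0008000b00090007000d00060005000300080007000d000d0009) (nat_lit 0x81750300060673) (nat_lit 16) Lb.e (@T16.mk En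
    (@En.n l13092 (nat_lit 4360) (nat_lit 0) (nat_lit 9))
    (@En.n l61 (nat_lit 4192) (nat_lit 3) (nat_lit 13))
    (@En.n l564 (nat_lit 4309) (nat_lit 13) (nat_lit 13))
    (@En.n l19971 (nat_lit 5632) (nat_lit 3) (nat_lit 7))
    (@En.n l7866 (nat_lit 2361) (nat_lit 4) (nat_lit 8))
    (@En.n l28571 (nat_lit 4193) (nat_lit 5) (nat_lit 3))
    (@En.n l152 (nat_lit 2298) (nat_lit 0) (nat_lit 5))
    (@En.n l28572 (nat_lit 2347) (nat_lit 7) (nat_lit 6))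
    (@En.i (nat_lit 6242) (nat_lit 9) (nat_lit 13))
    (@En.i (nat_lit 4380) (nat_lit 3) (nat_lit 7))
    (@En.n l28573 (nat_lit 6138) (nat_lit 11) (nat_lit 9))
    (@En.i (nat_lit 2878) (nat_lit 7) (nat_lit 11))
    (@En.n l28574 (nat_lit 3968) (nat_lit 13) (nat_lit 8))
    (@En.i (nat_lit 10379) (nat_lit 14) (nat_lit 10))
    (@En.n l28575 (nat_lit 2360) (nat_lit 13) (nat_lit 3))
    (@En.n l18 (nat_lit 4192) (nat_lit 0) (nat_lit 3))))
noncomputable def a262 : T16 Cl := @T16.mk Cl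
  (@Cl.mk (nat_lit 0x2000a0008000b00090008000d00060005000300080007000d0008000e0003) (nat_lit 0x817563000406080) (nat_lit 16) Lb.e (@T16.mk En
    (@En.i (nat_lit 4191) (nat_lit 15) (nat_lit 3))
    (@En.i (nat_lit 13974) (nat_lit 0) (nat_lit 14))
    (@En.i (nat_lit 4210) (nat_lit 2) (nat_lit 8))
    (@En.n l564 (nat_lit 4307) (nat_lit 13) (nat_lit 13))
    (@En.n l16485 (nat_lit 5633) (nat_lit 4) (nat_lit 7))
    (@En.n l7866 (nat_lit 4190) (nat_lit 5) (nat_lit 8))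
    (@En.n l1483 (nat_lit 4194) (nat_lit 6) (nat_lit 3))
    (@En.n l152 (nat_lit 2296) (nat_lit 0) (nat_lit 5))
    (@En.n l1769 (nat_lit 2362) (nat_lit 8) (nat_lit 6))
    (@En.i (nat_lit 6243) (nat_lit 10) (nat_lit 13))
    (@En.n l644 (nat_lit 4379) (nat_lit 11) (nat_lit 8))
    (@En.n l2038 (nat_lit 6140) (nat_lit 12) (nat_lit 9))
    (@En.i (nat_lit 3245) (nat_lit 7) (nat_lit 11))
    (@En.n l1769 (nat_lit 3970) (nat_lit 14) (nat_lit 8))
    (@En.i (nat_lit 10377) (nat_lit 14) (nat_lit 10))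
    (@En.n l17 (nat_lit 4192) (nat_lit 15) (nat_lit 2))))
  (@Cl.mk (nat_lit 0x3000300090008000c00090007000d00040007000300080007000d000d0009) (nat_lit 0x61530300060682) (nat_lit 16) Lb.e (@T16.mk En
    (@En.n l27100 (nat_lit 3156) (nat_lit 0) (nat_lit 9))
    (@En.n l40956 (nat_lit 4194) (nat_lit 3) (nat_lit 13))
    (@En.i (nat_lit 4249) (nat_lit 13) (nat_lit 13))
    (@En.n l40957 (nat_lit 5629) (nat_lit 3) (nat_lit 7))
    (@En.n l40958 (nat_lit 3990) (nat_lit 4) (nat_lit 8))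
    (@En.n l40959 (nat_lit 4191) (nat_lit 5) (nat_lit 3))
    (@En.n l10941 (nat_lit 3095) (nat_lit 0) (nat_lit 7))
    (@En.n l40960 (nat_lit 2361) (nat_lit 7) (nat_lit 4))
    (@En.n l33756 (nat_lit 4500) (nat_lit 9) (nat_lit 13))
    (@En.n l33760 (nat_lit 4391) (nat_lit 1) (nat_lit 7))
    (@En.n l40961 (nat_lit 6139) (nat_lit 11) (nat_lit 9))
    (@En.n l40959 (nat_lit 4352) (nat_lit 12) (nat_lit 12))
    (@En.i (nat_lit 3971) (nat_lit 13) (nat_lit 8))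
    (@En.n l40962 (nat_lit 9953) (nat_lit 14) (nat_lit 9))
    (@En.n l40963 (nat_lit 4195) (nat_lit 13) (nat_lit 3))
    (@En.n l40964 (nat_lit 4194) (nat_lit 0) (nat_lit 3))))
  (@Cl.mk (nat_lit 0x200090008000c00090008000d00040007000300080007000d0008000e0003) (nat_lit 0x762362000307280) (nat_lit 16) Lb.e (@T16.mk En
    (@En.n l18630 (nat_lit 4193) (nat_lit 15) (nat_lit 3))
    (@En.n l4984 (nat_lit 13971) (nat_lit 0) (nat_lit 14))
    (@En.n l3015 (nat_lit 3150) (nat_lit 2) (nat_lit 8))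
    (@En.n l4003 (nat_lit 4247) (nat_lit 13) (nat_lit 13))
    (@En.n l27038 (nat_lit 5631) (nat_lit 4) (nat_lit 7))
    (@En.n l38816 (nat_lit 3998) (nat_lit 5) (nat_lit 8))
    (@En.n l936 (nat_lit 4192) (nat_lit 6) (nat_lit 3))
    (@En.n l24751 (nat_lit 3094) (nat_lit 0) (nat_lit 7))
    (@En.n l9254 (nat_lit 4190) (nat_lit 8) (nat_lit 4))
    (@En.n l38817 (nat_lit 6244) (nat_lit 10) (nat_lit 13))
    (@En.n l644 (nat_lit 4375) (nat_lit 11) (nat_lit 8))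
    (@En.n l24753 (nat_lit 6141) (nat_lit 12) (nat_lit 9))
    (@En.n l936 (nat_lit 4353) (nat_lit 13) (nat_lit 12))
    (@En.n l3082 (nat_lit 4354) (nat_lit 14) (nat_lit 8))
    (@En.n l38817 (nat_lit 9954) (nat_lit 14) (nat_lit 9))
    (@En.n l17 (nat_lit 4194) (nat_lit 15) (nat_lit 2))))
  (@Cl.mk (nat_lit 0x2000a000300090008000c00090006000d00040007000300080007000e000d) (nat_lit 0x207686030004017) (nat_lit 16) Lb.e (@T16.mk En
    (@En.n l39979 (nat_lit 4193) (nat_lit 2) (nat_lit 13))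
    (@En.n l32411 (nat_lit 2781) (nat_lit 1) (nat_lit 14))
    (@En.n l649 (nat_lit 5630) (nat_lit 2) (nat_lit 7))
    (@En.n l1769 (nat_lit 3995) (nat_lit 3) (nat_lit 8))
    (@En.n l39980 (nat_lit 2360) (nat_lit 4) (nat_lit 3))
    (@En.n l649 (nat_lit 3093) (nat_lit 0) (nat_lit 7))
    (@En.n l7076 (nat_lit 2359) (nat_lit 6) (nat_lit 4))
    (@En.n l6914 (nat_lit 4499) (nat_lit 8) (nat_lit 13))
    (@En.n l17556 (nat_lit 2322) (nat_lit 8) (nat_lit 6))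
    (@En.n l39981 (nat_lit 6173) (nat_lit 10) (nat_lit 9))
    (@En.n l39982 (nat_lit 4351) (nat_lit 11) (nat_lit 12))
    (@En.n l39983 (nat_lit 4350) (nat_lit 12) (nat_lit 8))
    (@En.i (nat_lit 9461) (nat_lit 13) (nat_lit 9))
    (@En.n l32411 (nat_lit 4193) (nat_lit 14) (nat_lit 3))
    (@En.n l16926 (nat_lit 1996) (nat_lit 0) (nat_lit 10))
    (@En.n l50 (nat_lit 4195) (nat_lit 15) (nat_lit 2))))
  (@Cl.mk (nat_lit 0x200080003000d0008000b0003000c000b00080005000400080005000e000d) (nat_lit 0x40b170a86001011) (nat_lit 16) Lb.e (@T16.mk En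
    (@En.n l16315 (nat_lit 3042) (nat_lit 2) (nat_lit 13))
    (@En.i (nat_lit 2752) (nat_lit 1) (nat_lit 14))
    (@En.n l50 (nat_lit 7405) (nat_lit 2) (nat_lit 5))
    (@En.n l612 (nat_lit 3041) (nat_lit 3) (nat_lit 8))
    (@En.n l50 (nat_lit 4197) (nat_lit 4) (nat_lit 4))
    (@En.n l429 (nat_lit 4571) (nat_lit 5) (nat_lit 5))
    (@En.n l61 (nat_lit 3740) (nat_lit 6) (nat_lit 8))
    (@En.n l217 (nat_lit 7110) (nat_lit 8) (nat_lit 11))
    (@En.n l3348 (nat_lit 3995) (nat_lit 9) (nat_lit 12))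
    (@En.n l2265 (nat_lit 1599) (nat_lit 9) (nat_lit 3))
    (@En.n l5349 (nat_lit 4183) (nat_lit 7) (nat_lit 11))
    (@En.n l4133 (nat_lit 1601) (nat_lit 12) (nat_lit 8))
    (@En.i (nat_lit 10345) (nat_lit 13) (nat_lit 13))
    (@En.n l16316 (nat_lit 3042) (nat_lit 14) (nat_lit 3))
    (@En.n l3147 (nat_lit 2884) (nat_lit 0) (nat_lit 8))
    (@En.n l3 (nat_lit 4196) (nat_lit 15) (nat_lit 2))))
  (@Cl.mk (nat_lit 0x200070003000d0008000d0003000c0003000c0009000400080004000e000d) (nat_lit 0x91b0407701011) (nat_lit 16) Lb.e (@T16.mk En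
    (@En.n l4130 (nat_lit 3043) (nat_lit 2) (nat_lit 13))
    (@En.i (nat_lit 2747) (nat_lit 1) (nat_lit 14))
    (@En.i (nat_lit 7329) (nat_lit 2) (nat_lit 4))
    (@En.i (nat_lit 3789) (nat_lit 3) (nat_lit 8))
    (@En.n l429 (nat_lit 4200) (nat_lit 4) (nat_lit 4))
    (@En.n l61 (nat_lit 4253) (nat_lit 5) (nat_lit 9))
    (@En.i (nat_lit 5528) (nat_lit 7) (nat_lit 12))
    (@En.i (nat_lit 3041) (nat_lit 7) (nat_lit 3))
    (@En.i (nat_lit 4883) (nat_lit 9) (nat_lit 12))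
    (@En.i (nat_lit 4198) (nat_lit 9) (nat_lit 3))
    (@En.i (nat_lit 3279) (nat_lit 11) (nat_lit 13))
    (@En.i (nat_lit 1605) (nat_lit 12) (nat_lit 8))
    (@En.i (nat_lit 11408) (nat_lit 13) (nat_lit 13))
    (@En.n l2832 (nat_lit 3043) (nat_lit 14) (nat_lit 3))
    (@En.n l3098 (nat_lit 2883) (nat_lit 0) (nat_lit 7))
    (@En.n l3 (nat_lit 4197) (nat_lit 15) (nat_lit 2))))
  (@Cl.mk (nat_lit 0x200070003000d000c00090003000c0004000c0009000400070004000e000d) (nat_lit 0x9120107700011) (nat_lit 16) Lb.e (@T16.mk En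
    (@En.n l2264 (nat_lit 3044) (nat_lit 2) (nat_lit 13))
    (@En.i (nat_lit 2749) (nat_lit 1) (nat_lit 14))
    (@En.n l4204 (nat_lit 7325) (nat_lit 2) (nat_lit 4))
    (@En.n l3509 (nat_lit 3840) (nat_lit 11) (nat_lit 7))
    (@En.n l429 (nat_lit 4202) (nat_lit 4) (nat_lit 4))
    (@En.n l61 (nat_lit 4254) (nat_lit 5) (nat_lit 9))
    (@En.n l3510 (nat_lit 5526) (nat_lit 7) (nat_lit 12))
    (@En.n l4205 (nat_lit 1598) (nat_lit 7) (nat_lit 4))
    (@En.n l343 (nat_lit 1605) (nat_lit 9) (nat_lit 12))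
    (@En.n l28 (nat_lit 4197) (nat_lit 9) (nat_lit 3))
    (@En.n l166 (nat_lit 4161) (nat_lit 11) (nat_lit 9))
    (@En.n l77 (nat_lit 3041) (nat_lit 12) (nat_lit 12))
    (@En.i (nat_lit 11012) (nat_lit 13) (nat_lit 13))
    (@En.n l2267 (nat_lit 3044) (nat_lit 14) (nat_lit 3))
    (@En.n l3098 (nat_lit 2885) (nat_lit 0) (nat_lit 7))
    (@En.n l3 (nat_lit 4198) (nat_lit 15) (nat_lit 2))))
  (@Cl.mk (nat_lit 0x300030008000d0009000c0003000b00090004000800070005000d000d0007) (nat_lit 0x617a0060100b60) (nat_lit 16) Lb.e (@T16.mk En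
    (@En.n l11245 (nat_lit 3163) (nat_lit 0) (nat_lit 7))
    (@En.n l61 (nat_lit 4462) (nat_lit 3) (nat_lit 13))
    (@En.n l14697 (nat_lit 4236) (nat_lit 9) (nat_lit 13))
    (@En.n l25015 (nat_lit 2943) (nat_lit 3) (nat_lit 5))
    (@En.n l3 (nat_lit 3044) (nat_lit 4) (nat_lit 7))
    (@En.n l14384 (nat_lit 3263) (nat_lit 5) (nat_lit 8))
    (@En.n l3693 (nat_lit 4205) (nat_lit 6) (nat_lit 4))
    (@En.i (nat_lit 3862) (nat_lit 0) (nat_lit 9))
    (@En.n l1140 (nat_lit 5518) (nat_lit 9) (nat_lit 11))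
    (@En.n l24954 (nat_lit 1603) (nat_lit 9) (nat_lit 3))
    (@En.n l3693 (nat_lit 4885) (nat_lit 6) (nat_lit 12))
    (@En.i (nat_lit 3676) (nat_lit 12) (nat_lit 9))
    (@En.n l619 (nat_lit 3042) (nat_lit 13) (nat_lit 13))
    (@En.n l18261 (nat_lit 10706) (nat_lit 14) (nat_lit 8))
    (@En.n l3519 (nat_lit 1605) (nat_lit 13) (nat_lit 3))
    (@En.n l18 (nat_lit 4462) (nat_lit 0) (nat_lit 3))))
  (@Cl.mk (nat_lit 0x200090003000d0008000c0003000c00070004000d000400080003000e000d) (nat_lit 0x70a0400402006) (nat_lit 16) Lb.e (@T16.mk En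
    (@En.n l25038 (nat_lit 4201) (nat_lit 2) (nat_lit 13))
    (@En.i (nat_lit 10611) (nat_lit 1) (nat_lit 14))
    (@En.n l4217 (nat_lit 7110) (nat_lit 2) (nat_lit 3))
    (@En.n l11075 (nat_lit 4515) (nat_lit 3) (nat_lit 8))
    (@En.n l4217 (nat_lit 4196) (nat_lit 4) (nat_lit 4))
    (@En.n l3713 (nat_lit 3925) (nat_lit 6) (nat_lit 13))
    (@En.i (nat_lit 4569) (nat_lit 6) (nat_lit 4))
    (@En.n l4217 (nat_lit 8743) (nat_lit 7) (nat_lit 7))
    (@En.n l11849 (nat_lit 3634) (nat_lit 9) (nat_lit 12))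
    (@En.i (nat_lit 4202) (nat_lit 9) (nat_lit 3))
    (@En.n l6904 (nat_lit 3281) (nat_lit 11) (nat_lit 12))
    (@En.n l5498 (nat_lit 4204) (nat_lit 12) (nat_lit 8))
    (@En.n l25039 (nat_lit 11588) (nat_lit 13) (nat_lit 13))
    (@En.n l25040 (nat_lit 4201) (nat_lit 14) (nat_lit 3))
    (@En.i (nat_lit 6914) (nat_lit 0) (nat_lit 9))
    (@En.n l3 (nat_lit 4200) (nat_lit 15) (nat_lit 2))))
  (@Cl.mk (nat_lit 0x30003000d0008000c0003000c00080004000d000400080003000d000d0008) (nat_lit 0x70905007020570) (nat_lit 16) Lb.e (@T16.mk En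
    (@En.n l39672 (nat_lit 7725) (nat_lit 0) (nat_lit 8))
    (@En.n l61 (nat_lit 4208) (nat_lit 3) (nat_lit 13))
    (@En.n l14697 (nat_lit 10452) (nat_lit 2) (nat_lit 13))
    (@En.n l7 (nat_lit 4209) (nat_lit 3) (nat_lit 3))
    (@En.i (nat_lit 4513) (nat_lit 0) (nat_lit 8))
    (@En.n l28 (nat_lit 3042) (nat_lit 5) (nat_lit 4))
    (@En.n l13356 (nat_lit 3922) (nat_lit 7) (nat_lit 13))
    (@En.n l13354 (nat_lit 4570) (nat_lit 7) (nat_lit 4))
    (@En.i (nat_lit 8738) (nat_lit 14) (nat_lit 8))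
    (@En.n l18120 (nat_lit 3628) (nat_lit 10) (nat_lit 12))
    (@En.n l24952 (nat_lit 4203) (nat_lit 10) (nat_lit 3))
    (@En.n l13354 (nat_lit 3280) (nat_lit 0) (nat_lit 12))
    (@En.n l3693 (nat_lit 4205) (nat_lit 13) (nat_lit 8))
    (@En.n l10832 (nat_lit 11626) (nat_lit 2) (nat_lit 13))
    (@En.n l39673 (nat_lit 4200) (nat_lit 13) (nat_lit 3))
    (@En.n l18 (nat_lit 4208) (nat_lit 0) (nat_lit 3))))
  (@Cl.mk (nat_lit 0x200090003000d000b00090003000c00070005000d000400070003000e000d) (nat_lit 0x7300400500007) (nat_lit 16) Lb.e (@T16.mk En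
    (@En.n l617 (nat_lit 4203) (nat_lit 2) (nat_lit 13))
    (@En.i (nat_lit 10612) (nat_lit 1) (nat_lit 14))
    (@En.n l9962 (nat_lit 7112) (nat_lit 2) (nat_lit 3))
    (@En.n l4407 (nat_lit 4509) (nat_lit 3) (nat_lit 7))
    (@En.n l9964 (nat_lit 1599) (nat_lit 4) (nat_lit 4))
    (@En.n l754 (nat_lit 3923) (nat_lit 6) (nat_lit 13))
    (@En.i (nat_lit 6987) (nat_lit 6) (nat_lit 5))
    (@En.n l11380 (nat_lit 8641) (nat_lit 7) (nat_lit 7))
    (@En.n l4408 (nat_lit 4204) (nat_lit 9) (nat_lit 12))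
    (@En.n l28 (nat_lit 4200) (nat_lit 9) (nat_lit 3))
    (@En.n l1544 (nat_lit 5138) (nat_lit 11) (nat_lit 9))
    (@En.n l77 (nat_lit 4583) (nat_lit 12) (nat_lit 11))
    (@En.n l9964 (nat_lit 11013) (nat_lit 13) (nat_lit 13))
    (@En.n l6680 (nat_lit 4203) (nat_lit 14) (nat_lit 3))
    (@En.i (nat_lit 6918) (nat_lit 0) (nat_lit 9))
    (@En.n l3 (nat_lit 4202) (nat_lit 15) (nat_lit 2))))
  (@Cl.mk (nat_lit 0x30003000d000b00090003000c00080005000d000400070003000d000d0008) (nat_lit 0x74005003000670) (nat_lit 16) Lb.e (@T16.mk En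
    (@En.n l10734 (nat_lit 7726) (nat_lit 0) (nat_lit 8))
    (@En.n l12851 (nat_lit 4206) (nat_lit 3) (nat_lit 13))
    (@En.n l20138 (nat_lit 10453) (nat_lit 2) (nat_lit 13))
    (@En.n l24995 (nat_lit 7113) (nat_lit 3) (nat_lit 3))
    (@En.n l24996 (nat_lit 4507) (nat_lit 11) (nat_lit 7))
    (@En.n l17197 (nat_lit 1602) (nat_lit 5) (nat_lit 4))
    (@En.n l24997 (nat_lit 3920) (nat_lit 7) (nat_lit 13))
    (@En.i (nat_lit 6984) (nat_lit 7) (nat_lit 5))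
    (@En.n l24998 (nat_lit 8642) (nat_lit 14) (nat_lit 8))
    (@En.n l24999 (nat_lit 4205) (nat_lit 10) (nat_lit 12))
    (@En.n l25000 (nat_lit 4201) (nat_lit 10) (nat_lit 3))
    (@En.n l25001 (nat_lit 5137) (nat_lit 0) (nat_lit 9))
    (@En.n l77 (nat_lit 4575) (nat_lit 13) (nat_lit 11))
    (@En.n l25002 (nat_lit 11627) (nat_lit 2) (nat_lit 13))
    (@En.n l6962 (nat_lit 4202) (nat_lit 13) (nat_lit 3))
    (@En.n l14014 (nat_lit 4206) (nat_lit 0) (nat_lit 3))))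
  (@Cl.mk (nat_lit 0x2000a00030008000c0009000c00060004000c0004000800070004000e000d) (nat_lit 0x6303002030000) (nat_lit 16) Lb.e (@T16.mk En
    (@En.n l1578 (nat_lit 4205) (nat_lit 2) (nat_lit 13))
    (@En.i (nat_lit 10613) (nat_lit 1) (nat_lit 14))
    (@En.n l10995 (nat_lit 7268) (nat_lit 2) (nat_lit 4))
    (@En.n l11840 (nat_lit 4202) (nat_lit 3) (nat_lit 7))
    (@En.n l19493 (nat_lit 5408) (nat_lit 4) (nat_lit 8))
    (@En.n l25037 (nat_lit 1601) (nat_lit 5) (nat_lit 4))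
    (@En.n l250 (nat_lit 3924) (nat_lit 7) (nat_lit 12))
    (@En.n l50 (nat_lit 6986) (nat_lit 7) (nat_lit 4))
    (@En.n l19493 (nat_lit 10203) (nat_lit 8) (nat_lit 6))
    (@En.i (nat_lit 5541) (nat_lit 6) (nat_lit 12))
    (@En.i (nat_lit 5140) (nat_lit 11) (nat_lit 9))
    (@En.n l11845 (nat_lit 4571) (nat_lit 12) (nat_lit 12))
    (@En.i (nat_lit 7807) (nat_lit 13) (nat_lit 8))
    (@En.i (nat_lit 4205) (nat_lit 14) (nat_lit 3))
    (@En.i (nat_lit 6921) (nat_lit 0) (nat_lit 10))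
    (@En.n l11 (nat_lit 4204) (nat_lit 15) (nat_lit 2))))
  (@Cl.mk (nat_lit 0x300030008000c0009000c00070004000c0004000800070004000d000d0009) (nat_lit 0x60040060300b00) (nat_lit 16) Lb.e (@T16.mk En
    (@En.i (nat_lit 7727) (nat_lit 0) (nat_lit 9))
    (@En.n l10366 (nat_lit 4207) (nat_lit 3) (nat_lit 13))
    (@En.n l22614 (nat_lit 10622) (nat_lit 2) (nat_lit 13))
    (@En.n l10995 (nat_lit 7269) (nat_lit 3) (nat_lit 4))
    (@En.n l39110 (nat_lit 4203) (nat_lit 4) (nat_lit 7))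
    (@En.n l19493 (nat_lit 5405) (nat_lit 5) (nat_lit 8))
    (@En.n l39111 (nat_lit 1604) (nat_lit 6) (nat_lit 4))
    (@En.n l39112 (nat_lit 3917) (nat_lit 8) (nat_lit 12))
    (@En.n l50 (nat_lit 6985) (nat_lit 8) (nat_lit 4))
    (@En.n l39113 (nat_lit 10179) (nat_lit 0) (nat_lit 7))
    (@En.i (nat_lit 5540) (nat_lit 6) (nat_lit 12))
    (@En.n l13638 (nat_lit 5139) (nat_lit 12) (nat_lit 9))
    (@En.n l3815 (nat_lit 4572) (nat_lit 13) (nat_lit 12))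
    (@En.n l810 (nat_lit 10307) (nat_lit 14) (nat_lit 8))
    (@En.n l28 (nat_lit 4204) (nat_lit 13) (nat_lit 3))
    (@En.n l1033 (nat_lit 4207) (nat_lit 0) (nat_lit 3))))
  (@Cl.mk (nat_lit 0x2000d000b00090003000c00090005000d000400070003000d0007000e0003) (nat_lit 0x621066070006070) (nat_lit 16) Lb.e (@T16.mk En
    (@En.n l11217 (nat_lit 4203) (nat_lit 15) (nat_lit 3))
    (@En.i (nat_lit 13306) (nat_lit 0) (nat_lit 14))
    (@En.i (nat_lit 7435) (nat_lit 2) (nat_lit 7))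
    (@En.n l9874 (nat_lit 10449) (nat_lit 2) (nat_lit 13))
    (@En.n l2817 (nat_lit 7431) (nat_lit 4) (nat_lit 3))
    (@En.n l38696 (nat_lit 4508) (nat_lit 11) (nat_lit 7))
    (@En.n l1792 (nat_lit 4465) (nat_lit 6) (nat_lit 4))
    (@En.n l5515 (nat_lit 3919) (nat_lit 8) (nat_lit 13))
    (@En.i (nat_lit 6988) (nat_lit 8) (nat_lit 5))
    (@En.n l25983 (nat_lit 7771) (nat_lit 10) (nat_lit 9))
    (@En.n l16847 (nat_lit 4207) (nat_lit 11) (nat_lit 12))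
    (@En.n l4939 (nat_lit 4208) (nat_lit 11) (nat_lit 3))
    (@En.n l4660 (nat_lit 4166) (nat_lit 0) (nat_lit 9))
    (@En.n l619 (nat_lit 4576) (nat_lit 14) (nat_lit 11))
    (@En.n l12290 (nat_lit 11991) (nat_lit 2) (nat_lit 13))
    (@En.n l17 (nat_lit 4206) (nat_lit 15) (nat_lit 2))))
  (@Cl.mk (nat_lit 0x20008000c0009000c00080004000c0004000800070004000d0008000e0003) (nat_lit 0x6055060300b000) (nat_lit 16) Lb.e (@T16.mk En
    (@En.n l3693 (nat_lit 4205) (nat_lit 15) (nat_lit 3))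
    (@En.n l551 (nat_lit 14012) (nat_lit 0) (nat_lit 14))
    (@En.i (nat_lit 7188) (nat_lit 2) (nat_lit 8))
    (@En.n l3501 (nat_lit 10451) (nat_lit 2) (nat_lit 13))
    (@En.n l9882 (nat_lit 7272) (nat_lit 4) (nat_lit 4))
    (@En.n l551 (nat_lit 4206) (nat_lit 5) (nat_lit 7))
    (@En.n l20299 (nat_lit 5407) (nat_lit 6) (nat_lit 8))
    (@En.n l28 (nat_lit 4464) (nat_lit 7) (nat_lit 4))
    (@En.n l23641 (nat_lit 3918) (nat_lit 9) (nat_lit 12))
    (@En.n l20302 (nat_lit 6989) (nat_lit 9) (nat_lit 4))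
    (@En.i (nat_lit 10217) (nat_lit 11) (nat_lit 8))
    (@En.n l3691 (nat_lit 5507) (nat_lit 6) (nat_lit 12))
    (@En.n l20304 (nat_lit 5141) (nat_lit 13) (nat_lit 9))
    (@En.n l20305 (nat_lit 4574) (nat_lit 14) (nat_lit 12))
    (@En.n l23642 (nat_lit 10306) (nat_lit 14) (nat_lit 8))
    (@En.n l17 (nat_lit 4207) (nat_lit 15) (nat_lit 2))))
noncomputable def a263 : T16 Cl := @T16.mk Cl
  (@Cl.mk (nat_lit 0x2000d0008000c0003000c00090004000d000400080003000d0007000e0003) (nat_lit 0x713066070206000) (nat_lit 16) Lb.e (@T16.mk En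
    (@En.i (nat_lit 4201) (nat_lit 15) (nat_lit 3))
    (@En.n l551 (nat_lit 13303) (nat_lit 0) (nat_lit 14))
    (@En.i (nat_lit 7434) (nat_lit 2) (nat_lit 7))
    (@En.n l396 (nat_lit 10446) (nat_lit 2) (nat_lit 13))
    (@En.n l7 (nat_lit 7430) (nat_lit 4) (nat_lit 3))
    (@En.i (nat_lit 4514) (nat_lit 5) (nat_lit 8))
    (@En.n l28 (nat_lit 3047) (nat_lit 6) (nat_lit 4))
    (@En.n l19538 (nat_lit 3921) (nat_lit 8) (nat_lit 13))
    (@En.n l4147 (nat_lit 4586) (nat_lit 8) (nat_lit 4))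
    (@En.i (nat_lit 7773) (nat_lit 10) (nat_lit 9))
    (@En.i (nat_lit 3632) (nat_lit 11) (nat_lit 12))
    (@En.n l23060 (nat_lit 4206) (nat_lit 11) (nat_lit 3))
    (@En.n l619 (nat_lit 3284) (nat_lit 0) (nat_lit 12))
    (@En.i (nat_lit 4207) (nat_lit 14) (nat_lit 8))
    (@En.i (nat_lit 11628) (nat_lit 2) (nat_lit 13))
    (@En.n l17 (nat_lit 4208) (nat_lit 15) (nat_lit 2))))
  (@Cl.mk (nat_lit 0x30003000d0009000c0003000b00080004000d000700050003000d000d0008) (nat_lit 0x97209006000000) (nat_lit 16) Lb.e (@T16.mk En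
    (@En.n l24301 (nat_lit 6533) (nat_lit 0) (nat_lit 8))
    (@En.n l61 (nat_lit 7430) (nat_lit 3) (nat_lit 13))
    (@En.n l11008 (nat_lit 10137) (nat_lit 2) (nat_lit 13))
    (@En.i (nat_lit 4201) (nat_lit 3) (nat_lit 3))
    (@En.n l22633 (nat_lit 3432) (nat_lit 0) (nat_lit 5))
    (@En.n l11010 (nat_lit 4587) (nat_lit 5) (nat_lit 7))
    (@En.n l30929 (nat_lit 3929) (nat_lit 7) (nat_lit 13))
    (@En.n l30930 (nat_lit 3659) (nat_lit 7) (nat_lit 4))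
    (@En.n l24673 (nat_lit 8737) (nat_lit 14) (nat_lit 8))
    (@En.n l22633 (nat_lit 5536) (nat_lit 10) (nat_lit 11))
    (@En.n l19681 (nat_lit 7113) (nat_lit 10) (nat_lit 3))
    (@En.n l2038 (nat_lit 3282) (nat_lit 6) (nat_lit 12))
    (@En.n l19682 (nat_lit 7361) (nat_lit 13) (nat_lit 9))
    (@En.n l11005 (nat_lit 12008) (nat_lit 2) (nat_lit 13))
    (@En.n l19419 (nat_lit 7110) (nat_lit 13) (nat_lit 3))
    (@En.n l18 (nat_lit 7430) (nat_lit 0) (nat_lit 3))))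
  (@Cl.mk (nat_lit 0x200090007000a000800080007000d000700060003000900080008000e0009) (nat_lit 0x7073405000766a3) (nat_lit 16) Lb.e (@T16.mk En
    (@En.n l18567 (nat_lit 3149) (nat_lit 11) (nat_lit 9))
    (@En.n l5 (nat_lit 2839) (nat_lit 1) (nat_lit 14))
    (@En.n l18921 (nat_lit 4212) (nat_lit 2) (nat_lit 8))
    (@En.n l16485 (nat_lit 6385) (nat_lit 3) (nat_lit 8))
    (@En.n l18922 (nat_lit 4211) (nat_lit 4) (nat_lit 9))
    (@En.i (nat_lit 3150) (nat_lit 5) (nat_lit 3))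
    (@En.n l152 (nat_lit 1528) (nat_lit 0) (nat_lit 6))
    (@En.n l18923 (nat_lit 1862) (nat_lit 7) (nat_lit 7))
    (@En.n l18853 (nat_lit 11560) (nat_lit 9) (nat_lit 13))
    (@En.n l217 (nat_lit 4191) (nat_lit 9) (nat_lit 7))
    (@En.n l644 (nat_lit 3951) (nat_lit 11) (nat_lit 8))
    (@En.n l7865 (nat_lit 6481) (nat_lit 12) (nat_lit 8))
    (@En.i (nat_lit 2038) (nat_lit 8) (nat_lit 10))
    (@En.n l18924 (nat_lit 3955) (nat_lit 14) (nat_lit 7))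
    (@En.n l18925 (nat_lit 9590) (nat_lit 9) (nat_lit 9))
    (@En.n l17 (nat_lit 4210) (nat_lit 15) (nat_lit 2))))
  (@Cl.mk (nat_lit 0x200080007000b000a000900090008000500080006000900070007000e0008) (nat_lit 0x607845103060083) (nat_lit 16) Lb.e (@T16.mk En
    (@En.n l24190 (nat_lit 3153) (nat_lit 9) (nat_lit 8))
    (@En.n l3786 (nat_lit 2841) (nat_lit 1) (nat_lit 14))
    (@En.n l3787 (nat_lit 4213) (nat_lit 2) (nat_lit 7))
    (@En.i (nat_lit 6010) (nat_lit 3) (nat_lit 7))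
    (@En.n l117 (nat_lit 4889) (nat_lit 4) (nat_lit 9))
    (@En.i (nat_lit 1531) (nat_lit 5) (nat_lit 6))
    (@En.n l24191 (nat_lit 1865) (nat_lit 6) (nat_lit 8))
    (@En.n l24192 (nat_lit 7986) (nat_lit 7) (nat_lit 5))
    (@En.n l2337 (nat_lit 2361) (nat_lit 8) (nat_lit 8))
    (@En.n l601 (nat_lit 3952) (nat_lit 10) (nat_lit 9))
    (@En.n l24193 (nat_lit 6485) (nat_lit 11) (nat_lit 9))
    (@En.n l24194 (nat_lit 4210) (nat_lit 12) (nat_lit 10))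
    (@En.n l24195 (nat_lit 3953) (nat_lit 13) (nat_lit 11))
    (@En.n l23013 (nat_lit 3954) (nat_lit 14) (nat_lit 7))
    (@En.i (nat_lit 9589) (nat_lit 6) (nat_lit 8))
    (@En.n l17 (nat_lit 4211) (nat_lit 15) (nat_lit 2))))
  (@Cl.mk (nat_lit 0x2000800060009000e000800020008000d000800070003000a0008000e0008) (nat_lit 0x506340671007592) (nat_lit 16) Lb.e (@T16.mk En
    (@En.n l32718 (nat_lit 2990) (nat_lit 6) (nat_lit 8))
    (@En.n l32719 (nat_lit 3403) (nat_lit 8) (nat_lit 14))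
    (@En.n l1769 (nat_lit 11235) (nat_lit 2) (nat_lit 8))
    (@En.n l32720 (nat_lit 4213) (nat_lit 3) (nat_lit 10))
    (@En.n l32721 (nat_lit 2121) (nat_lit 4) (nat_lit 3))
    (@En.n l32722 (nat_lit 1650) (nat_lit 12) (nat_lit 7))
    (@En.n l32723 (nat_lit 1859) (nat_lit 6) (nat_lit 8))
    (@En.n l476 (nat_lit 8069) (nat_lit 8) (nat_lit 13))
    (@En.n l32724 (nat_lit 4220) (nat_lit 9) (nat_lit 8))
    (@En.n l11 (nat_lit 4212) (nat_lit 9) (nat_lit 2))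
    (@En.n l32725 (nat_lit 4210) (nat_lit 11) (nat_lit 8))
    (@En.n l32265 (nat_lit 6384) (nat_lit 12) (nat_lit 14))
    (@En.n l32726 (nat_lit 2984) (nat_lit 2) (nat_lit 9))
    (@En.n l476 (nat_lit 4216) (nat_lit 14) (nat_lit 6))
    (@En.n l4817 (nat_lit 9594) (nat_lit 4) (nat_lit 8))
    (@En.n l17 (nat_lit 4212) (nat_lit 15) (nat_lit 2))))
  (@Cl.mk (nat_lit 0x200070006000a0009000e000900020009000600090007000a0007000e0007) (nat_lit 0x2755030106070) (nat_lit 16) Lb.e (@T16.mk En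
    (@En.n l23866 (nat_lit 3145) (nat_lit 7) (nat_lit 7))
    (@En.n l17899 (nat_lit 3402) (nat_lit 9) (nat_lit 14))
    (@En.i (nat_lit 11381) (nat_lit 2) (nat_lit 7))
    (@En.n l117 (nat_lit 4894) (nat_lit 3) (nat_lit 10))
    (@En.n l1347 (nat_lit 1191) (nat_lit 12) (nat_lit 7))
    (@En.n l23867 (nat_lit 1864) (nat_lit 5) (nat_lit 9))
    (@En.n l10426 (nat_lit 11029) (nat_lit 14) (nat_lit 6))
    (@En.n l23868 (nat_lit 4221) (nat_lit 8) (nat_lit 9))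
    (@En.n l7 (nat_lit 4213) (nat_lit 8) (nat_lit 2))
    (@En.n l644 (nat_lit 4211) (nat_lit 10) (nat_lit 9))
    (@En.n l23869 (nat_lit 9863) (nat_lit 11) (nat_lit 14))
    (@En.n l23870 (nat_lit 4212) (nat_lit 12) (nat_lit 9))
    (@En.n l23871 (nat_lit 4214) (nat_lit 13) (nat_lit 10))
    (@En.n l10084 (nat_lit 4215) (nat_lit 14) (nat_lit 6))
    (@En.n l17899 (nat_lit 9592) (nat_lit 5) (nat_lit 7))
    (@En.n l17 (nat_lit 4213) (nat_lit 15) (nat_lit 2))))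
  (@Cl.mk (nat_lit 0x20007000a0008000e0008000200080006000d0009000800030008000e0008) (nat_lit 0x16440308230682) (nat_lit 16) Lb.e (@T16.mk En
    (@En.n l24067 (nat_lit 3134) (nat_lit 6) (nat_lit 8))
    (@En.n l2544 (nat_lit 3399) (nat_lit 8) (nat_lit 14))
    (@En.i (nat_lit 11379) (nat_lit 2) (nat_lit 8))
    (@En.n l4034 (nat_lit 4215) (nat_lit 3) (nat_lit 3))
    (@En.n l24068 (nat_lit 1652) (nat_lit 0) (nat_lit 8))
    (@En.n l24069 (nat_lit 4213) (nat_lit 5) (nat_lit 9))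
    (@En.n l16855 (nat_lit 4212) (nat_lit 7) (nat_lit 13))
    (@En.i (nat_lit 11028) (nat_lit 14) (nat_lit 6))
    (@En.n l4990 (nat_lit 4222) (nat_lit 4) (nat_lit 8))
    (@En.n l3 (nat_lit 4214) (nat_lit 9) (nat_lit 2))
    (@En.n l12844 (nat_lit 3953) (nat_lit 11) (nat_lit 8))
    (@En.n l22760 (nat_lit 9860) (nat_lit 12) (nat_lit 14))
    (@En.n l24070 (nat_lit 3025) (nat_lit 2) (nat_lit 8))
    (@En.i (nat_lit 3093) (nat_lit 3) (nat_lit 10))
    (@En.n l1784 (nat_lit 8992) (nat_lit 4) (nat_lit 7))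
    (@En.n l50 (nat_lit 4214) (nat_lit 15) (nat_lit 2))))
  (@Cl.mk (nat_lit 0x20006000a0009000e0008000200080006000d0007000a00030008000e0008) (nat_lit 0x563106010106a2) (nat_lit 16) Lb.e (@T16.mk En
    (@En.n l10608 (nat_lit 3136) (nat_lit 6) (nat_lit 8))
    (@En.n l3870 (nat_lit 3401) (nat_lit 8) (nat_lit 14))
    (@En.n l10609 (nat_lit 10982) (nat_lit 2) (nat_lit 8))
    (@En.n l10610 (nat_lit 4214) (nat_lit 3) (nat_lit 3))
    (@En.n l10611 (nat_lit 2115) (nat_lit 4) (nat_lit 10))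
    (@En.n l10612 (nat_lit 1654) (nat_lit 5) (nat_lit 7))
    (@En.n l127 (nat_lit 2121) (nat_lit 7) (nat_lit 13))
    (@En.n l10613 (nat_lit 11011) (nat_lit 7) (nat_lit 6))
    (@En.n l7501 (nat_lit 4223) (nat_lit 9) (nat_lit 8))
    (@En.n l17 (nat_lit 4215) (nat_lit 9) (nat_lit 2))
    (@En.n l10614 (nat_lit 3954) (nat_lit 11) (nat_lit 8))
    (@En.n l7503 (nat_lit 9864) (nat_lit 12) (nat_lit 14))
    (@En.n l10615 (nat_lit 4216) (nat_lit 13) (nat_lit 9))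
    (@En.n l10613 (nat_lit 3095) (nat_lit 3) (nat_lit 10))
    (@En.n l10616 (nat_lit 7469) (nat_lit 4) (nat_lit 6))
    (@En.n l3 (nat_lit 4215) (nat_lit 15) (nat_lit 2))))
  (@Cl.mk (nat_lit 0x200060009000e000700020007000d000c00070003000a00040009000e0009) (nat_lit 0x52000a600207b2) (nat_lit 16) Lb.e (@T16.mk En
    (@En.n l24071 (nat_lit 3135) (nat_lit 5) (nat_lit 9))
    (@En.n l9870 (nat_lit 3400) (nat_lit 7) (nat_lit 14))
    (@En.i (nat_lit 10984) (nat_lit 2) (nat_lit 9))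
    (@En.n l24072 (nat_lit 3025) (nat_lit 8) (nat_lit 4))
    (@En.n l24073 (nat_lit 4215) (nat_lit 4) (nat_lit 10))
    (@En.n l18248 (nat_lit 4218) (nat_lit 5) (nat_lit 3))
    (@En.n l24074 (nat_lit 1653) (nat_lit 6) (nat_lit 7))
    (@En.n l6101 (nat_lit 4217) (nat_lit 8) (nat_lit 12))
    (@En.i (nat_lit 8060) (nat_lit 9) (nat_lit 13))
    (@En.n l24075 (nat_lit 4236) (nat_lit 10) (nat_lit 7))
    (@En.n l11 (nat_lit 4216) (nat_lit 10) (nat_lit 2))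
    (@En.n l24076 (nat_lit 3955) (nat_lit 12) (nat_lit 7))
    (@En.n l9870 (nat_lit 9114) (nat_lit 13) (nat_lit 14))
    (@En.n l11247 (nat_lit 3028) (nat_lit 9) (nat_lit 9))
    (@En.n l3106 (nat_lit 7466) (nat_lit 3) (nat_lit 6))
    (@En.n l17 (nat_lit 4216) (nat_lit 15) (nat_lit 2))))
  (@Cl.mk (nat_lit 0x20007000a000e000700020007000c0006000d0009000400030009000e0009) (nat_lit 0x720005013007b1) (nat_lit 16) Lb.e (@T16.mk En
    (@En.n l8557 (nat_lit 2989) (nat_lit 5) (nat_lit 9))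
    (@En.n l3328 (nat_lit 3405) (nat_lit 7) (nat_lit 14))
    (@En.i (nat_lit 11246) (nat_lit 2) (nat_lit 9))
    (@En.n l17867 (nat_lit 4218) (nat_lit 3) (nat_lit 3))
    (@En.n l31464 (nat_lit 2984) (nat_lit 9) (nat_lit 4))
    (@En.n l19774 (nat_lit 2121) (nat_lit 5) (nat_lit 9))
    (@En.n l12681 (nat_lit 2075) (nat_lit 12) (nat_lit 13))
    (@En.n l17 (nat_lit 4214) (nat_lit 7) (nat_lit 6))
    (@En.i (nat_lit 8065) (nat_lit 9) (nat_lit 12))
    (@En.n l7507 (nat_lit 4235) (nat_lit 10) (nat_lit 7))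
    (@En.n l3 (nat_lit 4217) (nat_lit 10) (nat_lit 2))
    (@En.n l31465 (nat_lit 3957) (nat_lit 12) (nat_lit 7))
    (@En.n l19774 (nat_lit 9115) (nat_lit 13) (nat_lit 14))
    (@En.i (nat_lit 3030) (nat_lit 8) (nat_lit 10))
    (@En.n l6203 (nat_lit 7470) (nat_lit 3) (nat_lit 7))
    (@En.n l50 (nat_lit 4217) (nat_lit 15) (nat_lit 2))))
  (@Cl.mk (nat_lit 0x20006000a000e000700020007000d0006000d0003000a00030009000e0009) (nat_lit 0x12000b010807b2) (nat_lit 16) Lb.e (@T16.mk En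
    (@En.n l10608 (nat_lit 3141) (nat_lit 5) (nat_lit 9))
    (@En.n l3870 (nat_lit 3406) (nat_lit 7) (nat_lit 14))
    (@En.n l2789 (nat_lit 12206) (nat_lit 2) (nat_lit 9))
    (@En.n l14646 (nat_lit 4217) (nat_lit 3) (nat_lit 3))
    (@En.n l766 (nat_lit 4778) (nat_lit 4) (nat_lit 10))
    (@En.n l22473 (nat_lit 4216) (nat_lit 5) (nat_lit 3))
    (@En.n l2593 (nat_lit 2074) (nat_lit 7) (nat_lit 13))
    (@En.i (nat_lit 4215) (nat_lit 7) (nat_lit 6))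
    (@En.n l3870 (nat_lit 8061) (nat_lit 9) (nat_lit 13))
    (@En.n l7501 (nat_lit 4234) (nat_lit 10) (nat_lit 7))
    (@En.n l17 (nat_lit 4218) (nat_lit 10) (nat_lit 2))
    (@En.n l18 (nat_lit 3956) (nat_lit 12) (nat_lit 7))
    (@En.i (nat_lit 9113) (nat_lit 13) (nat_lit 14))
    (@En.n l7825 (nat_lit 1167) (nat_lit 2) (nat_lit 10))
    (@En.n l10616 (nat_lit 7462) (nat_lit 3) (nat_lit 6))
    (@En.n l3 (nat_lit 4218) (nat_lit 15) (nat_lit 2))))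
  (@Cl.mk (nat_lit 0x300080007000b000500090008000d00050008000300090007000d0008000b) (nat_lit 0x509046302070103) (nat_lit 16) Lb.e (@T16.mk En
    (@En.n l23201 (nat_lit 4550) (nat_lit 0) (nat_lit 11))
    (@En.n l17012 (nat_lit 5084) (nat_lit 12) (nat_lit 8))
    (@En.n l780 (nat_lit 3409) (nat_lit 13) (nat_lit 13))
    (@En.n l39261 (nat_lit 10032) (nat_lit 3) (nat_lit 7))
    (@En.n l22766 (nat_lit 4523) (nat_lit 4) (nat_lit 9))
    (@En.n l21124 (nat_lit 4220) (nat_lit 5) (nat_lit 3))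
    (@En.n l31693 (nat_lit 4215) (nat_lit 10) (nat_lit 8))
    (@En.n l22752 (nat_lit 4221) (nat_lit 7) (nat_lit 5))
    (@En.n l780 (nat_lit 9820) (nat_lit 9) (nat_lit 13))
    (@En.n l12516 (nat_lit 4249) (nat_lit 3) (nat_lit 8))
    (@En.n l17012 (nat_lit 4193) (nat_lit 10) (nat_lit 9))
    (@En.n l28542 (nat_lit 10949) (nat_lit 5) (nat_lit 5))
    (@En.n l3 (nat_lit 4235) (nat_lit 13) (nat_lit 11))
    (@En.n l17012 (nat_lit 4234) (nat_lit 14) (nat_lit 7))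
    (@En.n l39262 (nat_lit 11109) (nat_lit 2) (nat_lit 8))
    (@En.n l511 (nat_lit 4233) (nat_lit 15) (nat_lit 3))))
  (@Cl.mk (nat_lit 0x300090007000a000500090008000d00070006000300090007000d0008000b) (nat_lit 0x502065300070102) (nat_lit 16) Lb.e (@T16.mk En
    (@En.n l12274 (nat_lit 4554) (nat_lit 0) (nat_lit 11))
    (@En.n l21781 (nat_lit 5083) (nat_lit 12) (nat_lit 8))
    (@En.n l18235 (nat_lit 2828) (nat_lit 13) (nat_lit 13))
    (@En.n l26873 (nat_lit 10562) (nat_lit 14) (nat_lit 7))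
    (@En.i (nat_lit 4221) (nat_lit 4) (nat_lit 9))
    (@En.n l22650 (nat_lit 4219) (nat_lit 5) (nat_lit 3))
    (@En.n l152 (nat_lit 2582) (nat_lit 0) (nat_lit 6))
    (@En.n l1769 (nat_lit 2846) (nat_lit 7) (nat_lit 7))
    (@En.n l25470 (nat_lit 9815) (nat_lit 9) (nat_lit 13))
    (@En.n l644 (nat_lit 4309) (nat_lit 3) (nat_lit 8))
    (@En.n l617 (nat_lit 4191) (nat_lit 10) (nat_lit 9))
    (@En.n l12274 (nat_lit 10944) (nat_lit 5) (nat_lit 5))
    (@En.i (nat_lit 3477) (nat_lit 8) (nat_lit 10))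
    (@En.n l34578 (nat_lit 4236) (nat_lit 14) (nat_lit 7))
    (@En.i (nat_lit 4312) (nat_lit 2) (nat_lit 9))
    (@En.n l29919 (nat_lit 2830) (nat_lit 15) (nat_lit 3))))
  (@Cl.mk (nat_lit 0x300080007000b000a0006000a000900050008000600090006000d0007000a) (nat_lit 0x602301204060500) (nat_lit 16) Lb.e (@T16.mk En
    (@En.n l12274 (nat_lit 4555) (nat_lit 8) (nat_lit 10))
    (@En.n l38353 (nat_lit 5081) (nat_lit 10) (nat_lit 7))
    (@En.n l18235 (nat_lit 2834) (nat_lit 2) (nat_lit 13))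
    (@En.n l38354 (nat_lit 10724) (nat_lit 3) (nat_lit 6))
    (@En.n l13673 (nat_lit 4551) (nat_lit 9) (nat_lit 9))
    (@En.n l38170 (nat_lit 1755) (nat_lit 5) (nat_lit 6))
    (@En.n l38171 (nat_lit 2845) (nat_lit 10) (nat_lit 8))
    (@En.n l27089 (nat_lit 10494) (nat_lit 7) (nat_lit 5))
    (@En.n l38355 (nat_lit 4306) (nat_lit 7) (nat_lit 9))
    (@En.n l38356 (nat_lit 2361) (nat_lit 9) (nat_lit 10))
    (@En.n l38357 (nat_lit 10842) (nat_lit 2) (nat_lit 6))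
    (@En.n l28 (nat_lit 4220) (nat_lit 12) (nat_lit 10))
    (@En.n l38174 (nat_lit 4222) (nat_lit 8) (nat_lit 11))
    (@En.n l38358 (nat_lit 4223) (nat_lit 14) (nat_lit 7))
    (@En.n l38359 (nat_lit 4314) (nat_lit 12) (nat_lit 8))
    (@En.n l38360 (nat_lit 2833) (nat_lit 15) (nat_lit 3))))
  (@Cl.mk (nat_lit 0x30007000d0008000b00030008000b00090005000900080005000d00080007) (nat_lit 0x60206120620450) (nat_lit 16) Lb.e (@T16.mk En
    (@En.n l3098 (nat_lit 2603) (nat_lit 0) (nat_lit 7))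
    (@En.n l22752 (nat_lit 4221) (nat_lit 6) (nat_lit 8))
    (@En.n l22753 (nat_lit 4220) (nat_lit 8) (nat_lit 13))
    (@En.n l11415 (nat_lit 10493) (nat_lit 3) (nat_lit 5))
    (@En.n l22754 (nat_lit 4303) (nat_lit 8) (nat_lit 8))
    (@En.n l11416 (nat_lit 4187) (nat_lit 10) (nat_lit 9))
    (@En.n l4572 (nat_lit 10617) (nat_lit 6) (nat_lit 5))
    (@En.n l12517 (nat_lit 3481) (nat_lit 13) (nat_lit 9))
    (@En.i (nat_lit 1605) (nat_lit 7) (nat_lit 11))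
    (@En.n l718 (nat_lit 4318) (nat_lit 10) (nat_lit 8))
    (@En.n l9453 (nat_lit 4224) (nat_lit 10) (nat_lit 3))
    (@En.n l4572 (nat_lit 4556) (nat_lit 7) (nat_lit 11))
    (@En.i (nat_lit 5078) (nat_lit 13) (nat_lit 8))
    (@En.n l22755 (nat_lit 4298) (nat_lit 2) (nat_lit 13))
    (@En.n l22756 (nat_lit 10730) (nat_lit 3) (nat_lit 7))
    (@En.n l12520 (nat_lit 4223) (nat_lit 4) (nat_lit 3))))
  (@Cl.mk (nat_lit 0x30007000b000a0005000900080005000d0006000900030007000d0008000b) (nat_lit 0x17065040300002) (nat_lit 16) Lb.e (@T16.mk En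
    (@En.n l8766 (nat_lit 4557) (nat_lit 0) (nat_lit 11))
    (@En.i (nat_lit 5044) (nat_lit 13) (nat_lit 8))
    (@En.n l24054 (nat_lit 4296) (nat_lit 2) (nat_lit 13))
    (@En.n l17017 (nat_lit 6224) (nat_lit 3) (nat_lit 7))
    (@En.n l4774 (nat_lit 4222) (nat_lit 15) (nat_lit 3))
    (@En.n l24055 (nat_lit 4557) (nat_lit 9) (nat_lit 9))
    (@En.n l24056 (nat_lit 3312) (nat_lit 6) (nat_lit 6))
    (@En.n l24057 (nat_lit 4219) (nat_lit 8) (nat_lit 13))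
    (@En.n l3535 (nat_lit 10495) (nat_lit 3) (nat_lit 5))
    (@En.n l17 (nat_lit 4302) (nat_lit 8) (nat_lit 8))
    (@En.n l18752 (nat_lit 4184) (nat_lit 10) (nat_lit 9))
    (@En.n l936 (nat_lit 11474) (nat_lit 6) (nat_lit 5))
    (@En.n l24058 (nat_lit 4236) (nat_lit 13) (nat_lit 10))
    (@En.n l1329 (nat_lit 4199) (nat_lit 8) (nat_lit 11))
    (@En.n l4750 (nat_lit 10893) (nat_lit 12) (nat_lit 7))
    (@En.n l19001 (nat_lit 4225) (nat_lit 15) (nat_lit 3))))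
noncomputable def a264 : T16 Cl := @T16.mk Cl
  (@Cl.mk (nat_lit 0x30007000d000a000900030008000b00090006000900070005000d00080007) (nat_lit 0x18206120700450) (nat_lit 16) Lb.e (@T16.mk En
    (@En.n l9946 (nat_lit 2605) (nat_lit 0) (nat_lit 7))
    (@En.n l9947 (nat_lit 2833) (nat_lit 6) (nat_lit 8))
    (@En.n l4191 (nat_lit 2830) (nat_lit 8) (nat_lit 13))
    (@En.n l28 (nat_lit 10506) (nat_lit 3) (nat_lit 5))
    (@En.n l9948 (nat_lit 2800) (nat_lit 4) (nat_lit 7))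
    (@En.i (nat_lit 4188) (nat_lit 9) (nat_lit 9))
    (@En.i (nat_lit 10567) (nat_lit 6) (nat_lit 6))
    (@En.n l9949 (nat_lit 3483) (nat_lit 13) (nat_lit 9))
    (@En.i (nat_lit 1600) (nat_lit 7) (nat_lit 11))
    (@En.n l4206 (nat_lit 9423) (nat_lit 10) (nat_lit 8))
    (@En.n l697 (nat_lit 4222) (nat_lit 10) (nat_lit 3))
    (@En.n l9950 (nat_lit 1094) (nat_lit 0) (nat_lit 9))
    (@En.n l4209 (nat_lit 2836) (nat_lit 13) (nat_lit 10))
    (@En.n l4207 (nat_lit 2835) (nat_lit 2) (nat_lit 13))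
    (@En.n l2485 (nat_lit 10725) (nat_lit 3) (nat_lit 7))
    (@En.n l9951 (nat_lit 4225) (nat_lit 4) (nat_lit 3))))
  (@Cl.mk (nat_lit 0x30007000b000a0006000900070005000d0006000900030007000d000a0009) (nat_lit 0x17050040300132) (nat_lit 16) Lb.e (@T16.mk En
    (@En.n l18153 (nat_lit 1091) (nat_lit 0) (nat_lit 9))
    (@En.n l22858 (nat_lit 4226) (nat_lit 13) (nat_lit 10))
    (@En.n l20548 (nat_lit 2837) (nat_lit 2) (nat_lit 13))
    (@En.n l14256 (nat_lit 10380) (nat_lit 3) (nat_lit 7))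
    (@En.n l384 (nat_lit 4224) (nat_lit 15) (nat_lit 3))
    (@En.n l709 (nat_lit 4556) (nat_lit 0) (nat_lit 9))
    (@En.n l9966 (nat_lit 3342) (nat_lit 6) (nat_lit 6))
    (@En.n l127 (nat_lit 4233) (nat_lit 8) (nat_lit 13))
    (@En.n l3535 (nat_lit 10505) (nat_lit 3) (nat_lit 5))
    (@En.n l1738 (nat_lit 2801) (nat_lit 4) (nat_lit 7))
    (@En.n l18752 (nat_lit 4185) (nat_lit 9) (nat_lit 9))
    (@En.n l936 (nat_lit 8840) (nat_lit 6) (nat_lit 6))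
    (@En.n l870 (nat_lit 4227) (nat_lit 13) (nat_lit 10))
    (@En.n l22859 (nat_lit 1603) (nat_lit 8) (nat_lit 11))
    (@En.n l387 (nat_lit 6844) (nat_lit 12) (nat_lit 7))
    (@En.i (nat_lit 4223) (nat_lit 15) (nat_lit 3))))
  (@Cl.mk (nat_lit 0x30007000a0008000b0006000a000900060005000900080006000d0007000a) (nat_lit 0x22901000620603) (nat_lit 16) Lb.e (@T16.mk En
    (@En.n l22572 (nat_lit 4555) (nat_lit 0) (nat_lit 10))
    (@En.i (nat_lit 3183) (nat_lit 2) (nat_lit 7))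
    (@En.n l619 (nat_lit 2832) (nat_lit 2) (nat_lit 13))
    (@En.n l38458 (nat_lit 10507) (nat_lit 3) (nat_lit 6))
    (@En.n l38459 (nat_lit 2837) (nat_lit 8) (nat_lit 8))
    (@En.n l23263 (nat_lit 4225) (nat_lit 10) (nat_lit 9))
    (@En.n l38460 (nat_lit 4223) (nat_lit 11) (nat_lit 5))
    (@En.n l9882 (nat_lit 10570) (nat_lit 7) (nat_lit 6))
    (@En.n l3528 (nat_lit 4228) (nat_lit 7) (nat_lit 9))
    (@En.n l38461 (nat_lit 1604) (nat_lit 9) (nat_lit 10))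
    (@En.n l8204 (nat_lit 6843) (nat_lit 11) (nat_lit 6))
    (@En.i (nat_lit 3422) (nat_lit 7) (nat_lit 11))
    (@En.n l34744 (nat_lit 1041) (nat_lit 13) (nat_lit 8))
    (@En.i (nat_lit 3130) (nat_lit 8) (nat_lit 10))
    (@En.n l1140 (nat_lit 10373) (nat_lit 12) (nat_lit 7))
    (@En.n l38462 (nat_lit 2836) (nat_lit 15) (nat_lit 3))))
  (@Cl.mk (nat_lit 0x30007000a000500080006000d000c00060003000900040008000d000b000a) (nat_lit 0x6040a600400893) (nat_lit 16) Lb.e (@T16.mk En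
    (@En.n l6444 (nat_lit 1089) (nat_lit 0) (nat_lit 10))
    (@En.n l9942 (nat_lit 4228) (nat_lit 11) (nat_lit 11))
    (@En.n l601 (nat_lit 4294) (nat_lit 12) (nat_lit 13))
    (@En.n l1897 (nat_lit 10381) (nat_lit 3) (nat_lit 8))
    (@En.n l2753 (nat_lit 3483) (nat_lit 4) (nat_lit 4))
    (@En.n l3529 (nat_lit 4225) (nat_lit 5) (nat_lit 9))
    (@En.n l2710 (nat_lit 4229) (nat_lit 6) (nat_lit 3))
    (@En.n l1075 (nat_lit 3343) (nat_lit 0) (nat_lit 6))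
    (@En.n l2749 (nat_lit 4231) (nat_lit 9) (nat_lit 12))
    (@En.n l3530 (nat_lit 10583) (nat_lit 10) (nat_lit 13))
    (@En.n l2364 (nat_lit 2789) (nat_lit 3) (nat_lit 6))
    (@En.n l9943 (nat_lit 3969) (nat_lit 10) (nat_lit 8))
    (@En.i (nat_lit 8836) (nat_lit 5) (nat_lit 5))
    (@En.n l9944 (nat_lit 4269) (nat_lit 8) (nat_lit 10))
    (@En.i (nat_lit 6845) (nat_lit 7) (nat_lit 7))
    (@En.n l9945 (nat_lit 4236) (nat_lit 15) (nat_lit 3))))
  (@Cl.mk (nat_lit 0x3000a00040008000b0009000c000600090005000400080007000d000c0007) (nat_lit 0x400823070050a70) (nat_lit 16) Lb.e (@T16.mk En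
    (@En.n l639 (nat_lit 3300) (nat_lit 0) (nat_lit 7))
    (@En.n l22833 (nat_lit 4232) (nat_lit 4) (nat_lit 12))
    (@En.n l5839 (nat_lit 10581) (nat_lit 2) (nat_lit 13))
    (@En.n l22834 (nat_lit 4294) (nat_lit 3) (nat_lit 7))
    (@En.n l22835 (nat_lit 4227) (nat_lit 11) (nat_lit 8))
    (@En.n l22836 (nat_lit 4236) (nat_lit 12) (nat_lit 4))
    (@En.n l9960 (nat_lit 9554) (nat_lit 0) (nat_lit 5))
    (@En.i (nat_lit 4268) (nat_lit 9) (nat_lit 9))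
    (@En.n l22837 (nat_lit 6847) (nat_lit 8) (nat_lit 6))
    (@En.i (nat_lit 4700) (nat_lit 6) (nat_lit 12))
    (@En.n l12565 (nat_lit 1042) (nat_lit 11) (nat_lit 9))
    (@En.n l9960 (nat_lit 3127) (nat_lit 7) (nat_lit 11))
    (@En.i (nat_lit 10375) (nat_lit 11) (nat_lit 8))
    (@En.n l19334 (nat_lit 3482) (nat_lit 14) (nat_lit 4))
    (@En.n l13800 (nat_lit 4226) (nat_lit 0) (nat_lit 10))
    (@En.n l3522 (nat_lit 4230) (nat_lit 1) (nat_lit 3))))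
  (@Cl.mk (nat_lit 0x30007000b000500080006000d0005000d0003000900030008000d000b000a) (nat_lit 0x9040a020100893) (nat_lit 16) Lb.e (@T16.mk En
    (@En.n l18153 (nat_lit 1090) (nat_lit 0) (nat_lit 10))
    (@En.n l22858 (nat_lit 4230) (nat_lit 13) (nat_lit 11))
    (@En.n l20548 (nat_lit 4237) (nat_lit 12) (nat_lit 13))
    (@En.n l1003 (nat_lit 10395) (nat_lit 3) (nat_lit 8))
    (@En.i (nat_lit 4231) (nat_lit 4) (nat_lit 3))
    (@En.n l766 (nat_lit 3424) (nat_lit 0) (nat_lit 9))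
    (@En.n l345 (nat_lit 4227) (nat_lit 6) (nat_lit 3))
    (@En.n l5347 (nat_lit 1317) (nat_lit 0) (nat_lit 13))
    (@En.i (nat_lit 4225) (nat_lit 8) (nat_lit 5))
    (@En.n l9967 (nat_lit 10584) (nat_lit 10) (nat_lit 13))
    (@En.n l1738 (nat_lit 2788) (nat_lit 3) (nat_lit 6))
    (@En.n l22860 (nat_lit 4350) (nat_lit 10) (nat_lit 8))
    (@En.n l3851 (nat_lit 8835) (nat_lit 5) (nat_lit 5))
    (@En.n l4130 (nat_lit 4265) (nat_lit 8) (nat_lit 11))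
    (@En.n l387 (nat_lit 6849) (nat_lit 7) (nat_lit 7))
    (@En.i (nat_lit 4234) (nat_lit 15) (nat_lit 3))))
  (@Cl.mk (nat_lit 0x30008000b0009000c0006000a0005000400080007000d0006000d0003000a) (nat_lit 0x823060050a0204) (nat_lit 16) Lb.e (@T16.mk En
    (@En.i (nat_lit 4535) (nat_lit 0) (nat_lit 10))
    (@En.n l9956 (nat_lit 4228) (nat_lit 15) (nat_lit 3))
    (@En.n l619 (nat_lit 1321) (nat_lit 0) (nat_lit 13))
    (@En.i (nat_lit 4226) (nat_lit 3) (nat_lit 6))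
    (@En.n l8145 (nat_lit 10582) (nat_lit 2) (nat_lit 13))
    (@En.n l38459 (nat_lit 4237) (nat_lit 3) (nat_lit 7))
    (@En.n l23263 (nat_lit 4229) (nat_lit 11) (nat_lit 8))
    (@En.n l38460 (nat_lit 4234) (nat_lit 12) (nat_lit 4))
    (@En.n l476 (nat_lit 8842) (nat_lit 0) (nat_lit 5))
    (@En.n l14682 (nat_lit 4264) (nat_lit 9) (nat_lit 10))
    (@En.n l8204 (nat_lit 6850) (nat_lit 8) (nat_lit 6))
    (@En.i (nat_lit 4701) (nat_lit 6) (nat_lit 12))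
    (@En.n l34744 (nat_lit 1039) (nat_lit 13) (nat_lit 9))
    (@En.i (nat_lit 3128) (nat_lit 7) (nat_lit 11))
    (@En.n l3528 (nat_lit 10376) (nat_lit 13) (nat_lit 8))
    (@En.n l6689 (nat_lit 4232) (nat_lit 15) (nat_lit 3))))
  (@Cl.mk (nat_lit 0x30008000b000500080006000c0005000d0008000400030008000d000b000a) (nat_lit 0x510505016000892) (nat_lit 16) Lb.e (@T16.mk En
    (@En.n l18153 (nat_lit 1092) (nat_lit 0) (nat_lit 10))
    (@En.n l19242 (nat_lit 4232) (nat_lit 13) (nat_lit 11))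
    (@En.n l15461 (nat_lit 4238) (nat_lit 2) (nat_lit 13))
    (@En.n l18225 (nat_lit 10027) (nat_lit 3) (nat_lit 8))
    (@En.n l7 (nat_lit 4229) (nat_lit 4) (nat_lit 3))
    (@En.n l7641 (nat_lit 3478) (nat_lit 0) (nat_lit 4))
    (@En.i (nat_lit 4233) (nat_lit 6) (nat_lit 8))
    (@En.n l3850 (nat_lit 1315) (nat_lit 1) (nat_lit 13))
    (@En.n l384 (nat_lit 4224) (nat_lit 3) (nat_lit 5))
    (@En.n l15461 (nat_lit 10088) (nat_lit 10) (nat_lit 12))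
    (@En.n l1738 (nat_lit 2796) (nat_lit 5) (nat_lit 6))
    (@En.n l384 (nat_lit 4351) (nat_lit 10) (nat_lit 8))
    (@En.n l3851 (nat_lit 8834) (nat_lit 7) (nat_lit 5))
    (@En.n l388 (nat_lit 1016) (nat_lit 7) (nat_lit 11))
    (@En.n l1208 (nat_lit 8883) (nat_lit 1) (nat_lit 8))
    (@En.n l4774 (nat_lit 4235) (nat_lit 15) (nat_lit 3))))
  (@Cl.mk (nat_lit 0x30008000b0009000c0007000a0005000400080007000c0006000d00090004) (nat_lit 0x82301006060170) (nat_lit 16) Lb.e (@T16.mk En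
    (@En.n l15186 (nat_lit 3479) (nat_lit 0) (nat_lit 4))
    (@En.n l2275 (nat_lit 2832) (nat_lit 0) (nat_lit 9))
    (@En.n l7515 (nat_lit 1318) (nat_lit 1) (nat_lit 13))
    (@En.n l4133 (nat_lit 2836) (nat_lit 3) (nat_lit 6))
    (@En.n l780 (nat_lit 10089) (nat_lit 5) (nat_lit 12))
    (@En.n l55 (nat_lit 4238) (nat_lit 9) (nat_lit 7))
    (@En.n l29382 (nat_lit 4231) (nat_lit 11) (nat_lit 8))
    (@En.n l50 (nat_lit 4235) (nat_lit 12) (nat_lit 4))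
    (@En.n l29383 (nat_lit 8843) (nat_lit 0) (nat_lit 5))
    (@En.i (nat_lit 1015) (nat_lit 8) (nat_lit 10))
    (@En.n l29358 (nat_lit 8882) (nat_lit 1) (nat_lit 7))
    (@En.n l2275 (nat_lit 4702) (nat_lit 6) (nat_lit 12))
    (@En.n l29384 (nat_lit 1034) (nat_lit 13) (nat_lit 9))
    (@En.n l2275 (nat_lit 3129) (nat_lit 7) (nat_lit 11))
    (@En.n l17182 (nat_lit 10024) (nat_lit 14) (nat_lit 8))
    (@En.n l6658 (nat_lit 4230) (nat_lit 15) (nat_lit 3))))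
  (@Cl.mk (nat_lit 0x300080007000b000600090007000d00050008000300090007000d000a0009) (nat_lit 0x502070305070182) (nat_lit 16) Lb.e (@T16.mk En
    (@En.n l18153 (nat_lit 1093) (nat_lit 0) (nat_lit 9))
    (@En.n l22858 (nat_lit 2832) (nat_lit 12) (nat_lit 10))
    (@En.n l20548 (nat_lit 2827) (nat_lit 13) (nat_lit 13))
    (@En.n l34554 (nat_lit 10028) (nat_lit 3) (nat_lit 7))
    (@En.n l34555 (nat_lit 4527) (nat_lit 4) (nat_lit 9))
    (@En.n l345 (nat_lit 2830) (nat_lit 5) (nat_lit 3))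
    (@En.n l10941 (nat_lit 4214) (nat_lit 10) (nat_lit 8))
    (@En.i (nat_lit 2833) (nat_lit 7) (nat_lit 5))
    (@En.n l12272 (nat_lit 9819) (nat_lit 9) (nat_lit 13))
    (@En.n l1738 (nat_lit 2797) (nat_lit 3) (nat_lit 7))
    (@En.n l34556 (nat_lit 4195) (nat_lit 9) (nat_lit 9))
    (@En.n l3851 (nat_lit 8837) (nat_lit 5) (nat_lit 6))
    (@En.n l8 (nat_lit 4231) (nat_lit 13) (nat_lit 11))
    (@En.i (nat_lit 4229) (nat_lit 14) (nat_lit 7))
    (@En.n l766 (nat_lit 9728) (nat_lit 9) (nat_lit 8))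
    (@En.n l4774 (nat_lit 4219) (nat_lit 15) (nat_lit 3))))
  (@Cl.mk (nat_lit 0x30007000b000400080007000d0005000d0003000900030008000d0009000c) (nat_lit 0x90104020100803) (nat_lit 16) Lb.e (@T16.mk En
    (@En.n l8766 (nat_lit 4704) (nat_lit 0) (nat_lit 12))
    (@En.i (nat_lit 5047) (nat_lit 13) (nat_lit 9))
    (@En.n l38352 (nat_lit 4240) (nat_lit 12) (nat_lit 13))
    (@En.n l17017 (nat_lit 10427) (nat_lit 3) (nat_lit 8))
    (@En.n l4774 (nat_lit 4235) (nat_lit 4) (nat_lit 3))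
    (@En.n l1203 (nat_lit 3422) (nat_lit 0) (nat_lit 9))
    (@En.n l9909 (nat_lit 4236) (nat_lit 6) (nat_lit 3))
    (@En.n l15068 (nat_lit 1324) (nat_lit 0) (nat_lit 13))
    (@En.i (nat_lit 4223) (nat_lit 8) (nat_lit 5))
    (@En.n l2125 (nat_lit 10587) (nat_lit 10) (nat_lit 13))
    (@En.n l17 (nat_lit 4245) (nat_lit 3) (nat_lit 7))
    (@En.i (nat_lit 3971) (nat_lit 11) (nat_lit 8))
    (@En.n l117 (nat_lit 10451) (nat_lit 5) (nat_lit 4))
    (@En.n l1329 (nat_lit 4262) (nat_lit 8) (nat_lit 11))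
    (@En.n l253 (nat_lit 10892) (nat_lit 1) (nat_lit 7))
    (@En.n l19001 (nat_lit 4229) (nat_lit 15) (nat_lit 3))))
  (@Cl.mk (nat_lit 0x30008000b000400080007000c0005000d0008000400030008000d0009000c) (nat_lit 0x580300013000803) (nat_lit 16) Lb.e (@T16.mk En
    (@En.n l23201 (nat_lit 4558) (nat_lit 0) (nat_lit 12))
    (@En.i (nat_lit 5090) (nat_lit 13) (nat_lit 9))
    (@En.n l780 (nat_lit 4239) (nat_lit 2) (nat_lit 13))
    (@En.i (nat_lit 10561) (nat_lit 3) (nat_lit 8))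
    (@En.n l12520 (nat_lit 4234) (nat_lit 4) (nat_lit 3))
    (@En.n l3480 (nat_lit 3477) (nat_lit 0) (nat_lit 4))
    (@En.i (nat_lit 4219) (nat_lit 6) (nat_lit 8))
    (@En.i (nat_lit 1319) (nat_lit 1) (nat_lit 13))
    (@En.i (nat_lit 4222) (nat_lit 3) (nat_lit 5))
    (@En.n l780 (nat_lit 9585) (nat_lit 10) (nat_lit 12))
    (@En.n l55 (nat_lit 4246) (nat_lit 9) (nat_lit 7))
    (@En.n l1329 (nat_lit 4352) (nat_lit 11) (nat_lit 8))
    (@En.i (nat_lit 10450) (nat_lit 7) (nat_lit 4))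
    (@En.i (nat_lit 4259) (nat_lit 7) (nat_lit 11))
    (@En.n l17881 (nat_lit 11105) (nat_lit 1) (nat_lit 8))
    (@En.n l511 (nat_lit 4231) (nat_lit 15) (nat_lit 3))))
  (@Cl.mk (nat_lit 0x30007000a000400080007000d000c00060003000900040008000d0009000c) (nat_lit 0x6010a100400003) (nat_lit 16) Lb.e (@T16.mk En
    (@En.n l22741 (nat_lit 4559) (nat_lit 0) (nat_lit 12))
    (@En.n l22742 (nat_lit 5049) (nat_lit 11) (nat_lit 9))
    (@En.n l780 (nat_lit 4295) (nat_lit 12) (nat_lit 13))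
    (@En.n l9173 (nat_lit 10428) (nat_lit 3) (nat_lit 8))
    (@En.n l22743 (nat_lit 3481) (nat_lit 4) (nat_lit 4))
    (@En.n l22744 (nat_lit 4223) (nat_lit 5) (nat_lit 9))
    (@En.n l22745 (nat_lit 4234) (nat_lit 6) (nat_lit 3))
    (@En.n l22746 (nat_lit 3313) (nat_lit 0) (nat_lit 6))
    (@En.i (nat_lit 4235) (nat_lit 9) (nat_lit 12))
    (@En.n l22747 (nat_lit 10586) (nat_lit 10) (nat_lit 13))
    (@En.n l22748 (nat_lit 4322) (nat_lit 3) (nat_lit 7))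
    (@En.n l22749 (nat_lit 3968) (nat_lit 11) (nat_lit 8))
    (@En.n l22750 (nat_lit 10622) (nat_lit 5) (nat_lit 4))
    (@En.i (nat_lit 4267) (nat_lit 8) (nat_lit 10))
    (@En.n l17881 (nat_lit 10891) (nat_lit 1) (nat_lit 7))
    (@En.n l22751 (nat_lit 4227) (nat_lit 15) (nat_lit 3))))
  (@Cl.mk (nat_lit 0x300090003000d000a00090003000c0007000b000600040007000d0005000d) (nat_lit 0x107820407000a02) (nat_lit 16) Lb.e (@T16.mk En
    (@En.n l625 (nat_lit 1325) (nat_lit 0) (nat_lit 13))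
    (@En.i (nat_lit 2837) (nat_lit 7) (nat_lit 5))
    (@En.n l22071 (nat_lit 10291) (nat_lit 2) (nat_lit 13))
    (@En.n l3098 (nat_lit 2784) (nat_lit 11) (nat_lit 7))
    (@En.n l3098 (nat_lit 4245) (nat_lit 4) (nat_lit 4))
    (@En.i (nat_lit 9550) (nat_lit 0) (nat_lit 6))
    (@En.n l28671 (nat_lit 4263) (nat_lit 8) (nat_lit 11))
    (@En.n l28672 (nat_lit 8877) (nat_lit 14) (nat_lit 7))
    (@En.n l28673 (nat_lit 4230) (nat_lit 11) (nat_lit 12))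
    (@En.n l28674 (nat_lit 4240) (nat_lit 9) (nat_lit 3))
    (@En.n l61 (nat_lit 1185) (nat_lit 0) (nat_lit 9))
    (@En.n l20605 (nat_lit 3119) (nat_lit 12) (nat_lit 10))
    (@En.n l3098 (nat_lit 10732) (nat_lit 2) (nat_lit 13))
    (@En.n l6117 (nat_lit 4238) (nat_lit 3) (nat_lit 3))
    (@En.n l28675 (nat_lit 3425) (nat_lit 0) (nat_lit 9))
    (@En.n l117 (nat_lit 4294) (nat_lit 15) (nat_lit 3))))
  (@Cl.mk (nat_lit 0x3000c0008000b000600040007000c0005000d000800040003000d000a0009) (nat_lit 0x459000301600782) (nat_lit 16) Lb.e (@T16.mk En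
    (@En.n l15183 (nat_lit 1183) (nat_lit 0) (nat_lit 9))
    (@En.i (nat_lit 3122) (nat_lit 14) (nat_lit 10))
    (@En.n l15184 (nat_lit 11474) (nat_lit 2) (nat_lit 13))
    (@En.n l15185 (nat_lit 4237) (nat_lit 13) (nat_lit 3))
    (@En.n l15186 (nat_lit 1339) (nat_lit 0) (nat_lit 4))
    (@En.n l14771 (nat_lit 2827) (nat_lit 0) (nat_lit 8))
    (@En.n l2258 (nat_lit 1322) (nat_lit 1) (nat_lit 13))
    (@En.n l2265 (nat_lit 2835) (nat_lit 7) (nat_lit 5))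
    (@En.i (nat_lit 8336) (nat_lit 9) (nat_lit 12))
    (@En.n l612 (nat_lit 2787) (nat_lit 11) (nat_lit 7))
    (@En.n l50 (nat_lit 4246) (nat_lit 10) (nat_lit 4))
    (@En.n l14771 (nat_lit 9540) (nat_lit 0) (nat_lit 6))
    (@En.i (nat_lit 4261) (nat_lit 7) (nat_lit 11))
    (@En.n l15187 (nat_lit 8878) (nat_lit 14) (nat_lit 8))
    (@En.n l343 (nat_lit 4232) (nat_lit 11) (nat_lit 12))
    (@En.n l28 (nat_lit 4239) (nat_lit 15) (nat_lit 3))))
  (@Cl.mk (nat_lit 0x3000c0008000b000500040008000c0005000d000800040003000d0008000b) (nat_lit 0x458002301200718) (nat_lit 16) Lb.e (@T16.mk En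
    (@En.n l1807 (nat_lit 4561) (nat_lit 0) (nat_lit 11))
    (@En.i (nat_lit 4232) (nat_lit 14) (nat_lit 8))
    (@En.i (nat_lit 10617) (nat_lit 2) (nat_lit 13))
    (@En.n l2832 (nat_lit 4240) (nat_lit 13) (nat_lit 3))
    (@En.n l15186 (nat_lit 3475) (nat_lit 0) (nat_lit 4))
    (@En.i (nat_lit 3409) (nat_lit 0) (nat_lit 8))
    (@En.n l4542 (nat_lit 3019) (nat_lit 1) (nat_lit 13))
    (@En.n l17184 (nat_lit 4298) (nat_lit 7) (nat_lit 5))
    (@En.i (nat_lit 10287) (nat_lit 7) (nat_lit 12))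
    (@En.n l612 (nat_lit 4241) (nat_lit 11) (nat_lit 8))
    (@En.n l50 (nat_lit 4243) (nat_lit 12) (nat_lit 4))
    (@En.i (nat_lit 10444) (nat_lit 0) (nat_lit 5))
    (@En.i (nat_lit 3743) (nat_lit 7) (nat_lit 11))
    (@En.i (nat_lit 8884) (nat_lit 14) (nat_lit 8))
    (@En.i (nat_lit 4522) (nat_lit 11) (nat_lit 12))
    (@En.i (nat_lit 4238) (nat_lit 15) (nat_lit 3))))
noncomputable def a265 : T16 Cl := @T16.mk Cl
  (@Cl.mk (nat_lit 0x300090003000d0008000b0003000c0007000b000500040008000d0005000d) (nat_lit 0x707100409002a02) (nat_lit 16) Lb.e (@T16.mk En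
    (@En.n l39588 (nat_lit 4490) (nat_lit 0) (nat_lit 13))
    (@En.n l28 (nat_lit 4296) (nat_lit 7) (nat_lit 5))
    (@En.n l39589 (nat_lit 9205) (nat_lit 9) (nat_lit 13))
    (@En.n l29439 (nat_lit 4242) (nat_lit 3) (nat_lit 8))
    (@En.n l28 (nat_lit 4244) (nat_lit 4) (nat_lit 4))
    (@En.n l8329 (nat_lit 10443) (nat_lit 5) (nat_lit 5))
    (@En.i (nat_lit 3744) (nat_lit 8) (nat_lit 11))
    (@En.n l35355 (nat_lit 9794) (nat_lit 14) (nat_lit 7))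
    (@En.n l22019 (nat_lit 4520) (nat_lit 11) (nat_lit 12))
    (@En.n l39590 (nat_lit 4237) (nat_lit 9) (nat_lit 3))
    (@En.n l8329 (nat_lit 4562) (nat_lit 0) (nat_lit 11))
    (@En.n l14454 (nat_lit 4230) (nat_lit 14) (nat_lit 8))
    (@En.i (nat_lit 10033) (nat_lit 2) (nat_lit 13))
    (@En.n l3519 (nat_lit 4239) (nat_lit 3) (nat_lit 3))
    (@En.n l7409 (nat_lit 4703) (nat_lit 0) (nat_lit 9))
    (@En.n l11245 (nat_lit 4295) (nat_lit 15) (nat_lit 3))))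
  (@Cl.mk (nat_lit 0x30009000c00050008000c0004000d000700040003000c0008000d000b0004) (nat_lit 0x690120100081a90) (nat_lit 16) Lb.e (@T16.mk En
    (@En.i (nat_lit 2787) (nat_lit 0) (nat_lit 4))
    (@En.n l644 (nat_lit 4239) (nat_lit 0) (nat_lit 11))
    (@En.n l13544 (nat_lit 3659) (nat_lit 1) (nat_lit 13))
    (@En.n l511 (nat_lit 4231) (nat_lit 3) (nat_lit 8))
    (@En.i (nat_lit 11942) (nat_lit 3) (nat_lit 12))
    (@En.n l22763 (nat_lit 4242) (nat_lit 13) (nat_lit 3))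
    (@En.n l3480 (nat_lit 3474) (nat_lit 0) (nat_lit 4))
    (@En.n l511 (nat_lit 4248) (nat_lit 0) (nat_lit 7))
    (@En.i (nat_lit 3014) (nat_lit 1) (nat_lit 13))
    (@En.n l3098 (nat_lit 4299) (nat_lit 9) (nat_lit 4))
    (@En.i (nat_lit 9085) (nat_lit 11) (nat_lit 12))
    (@En.n l1329 (nat_lit 2327) (nat_lit 10) (nat_lit 8))
    (@En.i (nat_lit 10442) (nat_lit 6) (nat_lit 5))
    (@En.i (nat_lit 4258) (nat_lit 6) (nat_lit 12))
    (@En.n l511 (nat_lit 9788) (nat_lit 1) (nat_lit 9))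
    (@En.n l7 (nat_lit 4243) (nat_lit 15) (nat_lit 3))))
  (@Cl.mk (nat_lit 0x300080003000c0008000d000b000400030008000c00050008000d0004000d) (nat_lit 0x6081a1000101a02) (nat_lit 16) Lb.e (@T16.mk En
    (@En.n l22815 (nat_lit 3016) (nat_lit 0) (nat_lit 13))
    (@En.i (nat_lit 4297) (nat_lit 9) (nat_lit 4))
    (@En.n l9182 (nat_lit 9140) (nat_lit 11) (nat_lit 13))
    (@En.n l152 (nat_lit 2331) (nat_lit 10) (nat_lit 8))
    (@En.n l117 (nat_lit 10441) (nat_lit 4) (nat_lit 5))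
    (@En.n l20423 (nat_lit 3001) (nat_lit 7) (nat_lit 12))
    (@En.i (nat_lit 9791) (nat_lit 6) (nat_lit 8))
    (@En.n l1329 (nat_lit 4244) (nat_lit 7) (nat_lit 3))
    (@En.n l20421 (nat_lit 2784) (nat_lit 0) (nat_lit 4))
    (@En.n l36414 (nat_lit 4240) (nat_lit 10) (nat_lit 11))
    (@En.n l20423 (nat_lit 4570) (nat_lit 1) (nat_lit 13))
    (@En.i (nat_lit 4229) (nat_lit 3) (nat_lit 8))
    (@En.i (nat_lit 10604) (nat_lit 13) (nat_lit 12))
    (@En.n l388 (nat_lit 4241) (nat_lit 5) (nat_lit 3))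
    (@En.n l36415 (nat_lit 4702) (nat_lit 0) (nat_lit 8))
    (@En.i (nat_lit 4251) (nat_lit 15) (nat_lit 3))))
  (@Cl.mk (nat_lit 0x30009000c00040008000c0004000d000700040003000d0008000d0003000c) (nat_lit 0x690100100071904) (nat_lit 16) Lb.e (@T16.mk En
    (@En.i (nat_lit 4549) (nat_lit 0) (nat_lit 12))
    (@En.i (nat_lit 4246) (nat_lit 15) (nat_lit 3))
    (@En.n l13550 (nat_lit 4573) (nat_lit 0) (nat_lit 13))
    (@En.i (nat_lit 4235) (nat_lit 3) (nat_lit 8))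
    (@En.i (nat_lit 10572) (nat_lit 2) (nat_lit 13))
    (@En.n l2832 (nat_lit 4244) (nat_lit 13) (nat_lit 3))
    (@En.n l3480 (nat_lit 3473) (nat_lit 0) (nat_lit 4))
    (@En.i (nat_lit 4247) (nat_lit 0) (nat_lit 7))
    (@En.i (nat_lit 3013) (nat_lit 1) (nat_lit 13))
    (@En.i (nat_lit 4301) (nat_lit 9) (nat_lit 4))
    (@En.i (nat_lit 8600) (nat_lit 11) (nat_lit 12))
    (@En.n l1329 (nat_lit 2332) (nat_lit 11) (nat_lit 8))
    (@En.i (nat_lit 10447) (nat_lit 10) (nat_lit 4))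
    (@En.i (nat_lit 4256) (nat_lit 6) (nat_lit 12))
    (@En.i (nat_lit 11106) (nat_lit 1) (nat_lit 9))
    (@En.i (nat_lit 4241) (nat_lit 15) (nat_lit 3))))
  (@Cl.mk (nat_lit 0x300080003000d0008000d0003000c00030008000c00040008000d0004000d) (nat_lit 0x407190400103a02) (nat_lit 16) Lb.e (@T16.mk En
    (@En.n l61 (nat_lit 3015) (nat_lit 0) (nat_lit 13))
    (@En.i (nat_lit 4300) (nat_lit 9) (nat_lit 4))
    (@En.n l33000 (nat_lit 4335) (nat_lit 11) (nat_lit 13))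
    (@En.i (nat_lit 4365) (nat_lit 11) (nat_lit 8))
    (@En.i (nat_lit 10446) (nat_lit 4) (nat_lit 4))
    (@En.i (nat_lit 3005) (nat_lit 7) (nat_lit 12))
    (@En.n l11244 (nat_lit 10883) (nat_lit 1) (nat_lit 8))
    (@En.n l6961 (nat_lit 4242) (nat_lit 7) (nat_lit 3))
    (@En.n l1353 (nat_lit 4531) (nat_lit 0) (nat_lit 12))
    (@En.n l5368 (nat_lit 4245) (nat_lit 9) (nat_lit 3))
    (@En.n l10858 (nat_lit 4569) (nat_lit 0) (nat_lit 13))
    (@En.n l3471 (nat_lit 4234) (nat_lit 3) (nat_lit 8))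
    (@En.i (nat_lit 10602) (nat_lit 2) (nat_lit 13))
    (@En.n l3519 (nat_lit 4243) (nat_lit 5) (nat_lit 3))
    (@En.n l6042 (nat_lit 4701) (nat_lit 0) (nat_lit 8))
    (@En.n l11245 (nat_lit 4250) (nat_lit 15) (nat_lit 3))))
  (@Cl.mk (nat_lit 0x300080003000d000c00090003000c00040008000c00040007000d0004000d) (nat_lit 0x406900400600a02) (nat_lit 16) Lb.e (@T16.mk En
    (@En.n l1504 (nat_lit 3011) (nat_lit 0) (nat_lit 13))
    (@En.i (nat_lit 4302) (nat_lit 7) (nat_lit 4))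
    (@En.n l2125 (nat_lit 8602) (nat_lit 2) (nat_lit 13))
    (@En.n l152 (nat_lit 4424) (nat_lit 11) (nat_lit 7))
    (@En.n l117 (nat_lit 10449) (nat_lit 4) (nat_lit 4))
    (@En.n l1329 (nat_lit 4260) (nat_lit 7) (nat_lit 12))
    (@En.n l253 (nat_lit 10889) (nat_lit 1) (nat_lit 8))
    (@En.n l22796 (nat_lit 2788) (nat_lit 7) (nat_lit 4))
    (@En.i (nat_lit 4234) (nat_lit 0) (nat_lit 12))
    (@En.n l2843 (nat_lit 4244) (nat_lit 9) (nat_lit 3))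
    (@En.i (nat_lit 5094) (nat_lit 0) (nat_lit 9))
    (@En.n l5 (nat_lit 4242) (nat_lit 12) (nat_lit 12))
    (@En.i (nat_lit 10599) (nat_lit 2) (nat_lit 13))
    (@En.n l133 (nat_lit 4246) (nat_lit 3) (nat_lit 3))
    (@En.n l253 (nat_lit 4700) (nat_lit 0) (nat_lit 8))
    (@En.i (nat_lit 4322) (nat_lit 15) (nat_lit 3))))
  (@Cl.mk (nat_lit 0x3000c00040009000c00040007000c0004000d000700040003000d000c0009) (nat_lit 0x406900001000690) (nat_lit 16) Lb.e (@T16.mk En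
    (@En.n l499 (nat_lit 5095) (nat_lit 0) (nat_lit 9))
    (@En.n l77 (nat_lit 4241) (nat_lit 4) (nat_lit 12))
    (@En.i (nat_lit 10573) (nat_lit 2) (nat_lit 13))
    (@En.n l19239 (nat_lit 4245) (nat_lit 13) (nat_lit 3))
    (@En.n l3480 (nat_lit 3476) (nat_lit 0) (nat_lit 4))
    (@En.n l499 (nat_lit 4249) (nat_lit 0) (nat_lit 7))
    (@En.n l965 (nat_lit 3010) (nat_lit 1) (nat_lit 13))
    (@En.n l3098 (nat_lit 4303) (nat_lit 7) (nat_lit 4))
    (@En.i (nat_lit 8601) (nat_lit 9) (nat_lit 12))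
    (@En.n l168 (nat_lit 4422) (nat_lit 11) (nat_lit 7))
    (@En.n l19240 (nat_lit 10448) (nat_lit 10) (nat_lit 4))
    (@En.i (nat_lit 4257) (nat_lit 6) (nat_lit 12))
    (@En.n l6622 (nat_lit 11104) (nat_lit 1) (nat_lit 9))
    (@En.n l19241 (nat_lit 2796) (nat_lit 9) (nat_lit 4))
    (@En.n l343 (nat_lit 4235) (nat_lit 0) (nat_lit 12))
    (@En.n l28 (nat_lit 4243) (nat_lit 1) (nat_lit 3))))
  (@Cl.mk (nat_lit 0x30008000d0007000d0003000b000300090008000c00050009000d00040007) (nat_lit 0x660804071a01200) (nat_lit 16) Lb.e (@T16.mk En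
    (@En.n l31693 (nat_lit 4218) (nat_lit 11) (nat_lit 7))
    (@En.n l22752 (nat_lit 4304) (nat_lit 8) (nat_lit 4))
    (@En.i (nat_lit 9090) (nat_lit 0) (nat_lit 13))
    (@En.n l4365 (nat_lit 2326) (nat_lit 10) (nat_lit 9))
    (@En.i (nat_lit 10948) (nat_lit 4) (nat_lit 5))
    (@En.n l3 (nat_lit 4243) (nat_lit 13) (nat_lit 12))
    (@En.n l4365 (nat_lit 4244) (nat_lit 6) (nat_lit 8))
    (@En.n l2642 (nat_lit 11108) (nat_lit 13) (nat_lit 9))
    (@En.n l511 (nat_lit 4248) (nat_lit 8) (nat_lit 3))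
    (@En.i (nat_lit 4548) (nat_lit 0) (nat_lit 11))
    (@En.n l499 (nat_lit 4249) (nat_lit 10) (nat_lit 3))
    (@En.n l13550 (nat_lit 4585) (nat_lit 0) (nat_lit 13))
    (@En.i (nat_lit 4219) (nat_lit 3) (nat_lit 7))
    (@En.n l15957 (nat_lit 10574) (nat_lit 2) (nat_lit 13))
    (@En.n l22766 (nat_lit 4520) (nat_lit 5) (nat_lit 8))
    (@En.n l21124 (nat_lit 4307) (nat_lit 15) (nat_lit 3))))
  (@Cl.mk (nat_lit 0x30008000c0007000d000a0004000300090008000c00060009000d00040007) (nat_lit 0x470920061a01200) (nat_lit 16) Lb.e (@T16.mk En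
    (@En.n l7189 (nat_lit 4217) (nat_lit 11) (nat_lit 7))
    (@En.n l1023 (nat_lit 4305) (nat_lit 8) (nat_lit 4))
    (@En.n l388 (nat_lit 9089) (nat_lit 0) (nat_lit 13))
    (@En.n l34556 (nat_lit 2325) (nat_lit 9) (nat_lit 9))
    (@En.n l117 (nat_lit 10402) (nat_lit 4) (nat_lit 6))
    (@En.n l20418 (nat_lit 4241) (nat_lit 13) (nat_lit 12))
    (@En.i (nat_lit 4242) (nat_lit 6) (nat_lit 8))
    (@En.n l17957 (nat_lit 9786) (nat_lit 5) (nat_lit 9))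
    (@En.n l4774 (nat_lit 4247) (nat_lit 8) (nat_lit 3))
    (@En.n l42058 (nat_lit 2808) (nat_lit 0) (nat_lit 4))
    (@En.n l19242 (nat_lit 3409) (nat_lit 11) (nat_lit 10))
    (@En.n l20423 (nat_lit 3662) (nat_lit 1) (nat_lit 13))
    (@En.i (nat_lit 4233) (nat_lit 3) (nat_lit 7))
    (@En.n l42059 (nat_lit 11788) (nat_lit 14) (nat_lit 12))
    (@En.n l9628 (nat_lit 4522) (nat_lit 5) (nat_lit 8))
    (@En.n l42060 (nat_lit 4308) (nat_lit 15) (nat_lit 3))))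
  (@Cl.mk (nat_lit 0x30008000d000c00080003000b000400090008000c00050008000d00040007) (nat_lit 0x658004061a05200) (nat_lit 16) Lb.e (@T16.mk En
    (@En.n l1604 (nat_lit 4216) (nat_lit 11) (nat_lit 7))
    (@En.i (nat_lit 4306) (nat_lit 6) (nat_lit 4))
    (@En.n l133 (nat_lit 8605) (nat_lit 0) (nat_lit 13))
    (@En.n l152 (nat_lit 4421) (nat_lit 10) (nat_lit 8))
    (@En.n l117 (nat_lit 10947) (nat_lit 4) (nat_lit 5))
    (@En.n l34553 (nat_lit 4246) (nat_lit 11) (nat_lit 12))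
    (@En.i (nat_lit 4245) (nat_lit 6) (nat_lit 8))
    (@En.n l4592 (nat_lit 11107) (nat_lit 13) (nat_lit 9))
    (@En.n l22796 (nat_lit 2797) (nat_lit 8) (nat_lit 4))
    (@En.n l4774 (nat_lit 4219) (nat_lit 0) (nat_lit 11))
    (@En.n l12332 (nat_lit 4247) (nat_lit 10) (nat_lit 3))
    (@En.i (nat_lit 5088) (nat_lit 0) (nat_lit 8))
    (@En.n l5 (nat_lit 4248) (nat_lit 13) (nat_lit 12))
    (@En.n l420 (nat_lit 10576) (nat_lit 2) (nat_lit 13))
    (@En.n l2738 (nat_lit 4521) (nat_lit 3) (nat_lit 8))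
    (@En.n l7863 (nat_lit 4309) (nat_lit 15) (nat_lit 3))))
  (@Cl.mk (nat_lit 0x300080004000d0008000d0003000c00030008000b00040008000d000c0005) (nat_lit 0x607190400103b10) (nat_lit 16) Lb.e (@T16.mk En
    (@En.n l22746 (nat_lit 3309) (nat_lit 0) (nat_lit 5))
    (@En.i (nat_lit 4243) (nat_lit 10) (nat_lit 12))
    (@En.n l117 (nat_lit 4332) (nat_lit 11) (nat_lit 13))
    (@En.n l2832 (nat_lit 4364) (nat_lit 11) (nat_lit 8))
    (@En.i (nat_lit 10452) (nat_lit 4) (nat_lit 4))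
    (@En.i (nat_lit 3857) (nat_lit 7) (nat_lit 11))
    (@En.n l22762 (nat_lit 10884) (nat_lit 1) (nat_lit 8))
    (@En.n l22763 (nat_lit 4251) (nat_lit 7) (nat_lit 3))
    (@En.n l22764 (nat_lit 4552) (nat_lit 0) (nat_lit 12))
    (@En.n l19239 (nat_lit 4322) (nat_lit 9) (nat_lit 3))
    (@En.n l22765 (nat_lit 4571) (nat_lit 0) (nat_lit 13))
    (@En.i (nat_lit 4236) (nat_lit 3) (nat_lit 8))
    (@En.n l11131 (nat_lit 10601) (nat_lit 2) (nat_lit 13))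
    (@En.n l22743 (nat_lit 2750) (nat_lit 5) (nat_lit 4))
    (@En.n l22766 (nat_lit 4300) (nat_lit 6) (nat_lit 8))
    (@En.n l16861 (nat_lit 4244) (nat_lit 15) (nat_lit 3))))
  (@Cl.mk (nat_lit 0x300080004000c0008000d000b000400030008000b00050008000d000c0005) (nat_lit 0x6081a0000101b30) (nat_lit 16) Lb.e (@T16.mk En
    (@En.n l20416 (nat_lit 3305) (nat_lit 0) (nat_lit 5))
    (@En.n l20417 (nat_lit 4241) (nat_lit 10) (nat_lit 12))
    (@En.n l20418 (nat_lit 9139) (nat_lit 11) (nat_lit 13))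
    (@En.n l20419 (nat_lit 2660) (nat_lit 10) (nat_lit 8))
    (@En.n l20420 (nat_lit 10440) (nat_lit 4) (nat_lit 5))
    (@En.n l20417 (nat_lit 3858) (nat_lit 7) (nat_lit 11))
    (@En.i (nat_lit 9790) (nat_lit 6) (nat_lit 8))
    (@En.n l9909 (nat_lit 4250) (nat_lit 7) (nat_lit 3))
    (@En.n l20421 (nat_lit 2785) (nat_lit 0) (nat_lit 4))
    (@En.n l20422 (nat_lit 4295) (nat_lit 10) (nat_lit 11))
    (@En.n l20423 (nat_lit 4572) (nat_lit 1) (nat_lit 13))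
    (@En.n l345 (nat_lit 4227) (nat_lit 3) (nat_lit 8))
    (@En.n l3496 (nat_lit 10029) (nat_lit 13) (nat_lit 12))
    (@En.n l7641 (nat_lit 2751) (nat_lit 5) (nat_lit 4))
    (@En.n l343 (nat_lit 4297) (nat_lit 6) (nat_lit 8))
    (@En.n l28 (nat_lit 4242) (nat_lit 15) (nat_lit 3))))
  (@Cl.mk (nat_lit 0x2000700050004000c0009000d000c00040003000900040007000b000e000c) (nat_lit 0x911a00700212) (nat_lit 16) Lb.e (@T16.mk En
    (@En.n l16087 (nat_lit 3873) (nat_lit 10) (nat_lit 12))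
    (@En.i (nat_lit 2743) (nat_lit 4) (nat_lit 14))
    (@En.i (nat_lit 8528) (nat_lit 2) (nat_lit 11))
    (@En.n l11627 (nat_lit 3586) (nat_lit 11) (nat_lit 7))
    (@En.n l16088 (nat_lit 3213) (nat_lit 4) (nat_lit 4))
    (@En.i (nat_lit 6192) (nat_lit 5) (nat_lit 9))
    (@En.n l7 (nat_lit 4253) (nat_lit 6) (nat_lit 3))
    (@En.i (nat_lit 2725) (nat_lit 7) (nat_lit 4))
    (@En.n l644 (nat_lit 3740) (nat_lit 9) (nat_lit 12))
    (@En.n l13544 (nat_lit 3884) (nat_lit 10) (nat_lit 13))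
    (@En.n l9452 (nat_lit 1029) (nat_lit 11) (nat_lit 9))
    (@En.i (nat_lit 11485) (nat_lit 12) (nat_lit 12))
    (@En.n l8556 (nat_lit 3747) (nat_lit 12) (nat_lit 4))
    (@En.n l17 (nat_lit 4258) (nat_lit 14) (nat_lit 5))
    (@En.i (nat_lit 4241) (nat_lit 7) (nat_lit 7))
    (@En.n l3 (nat_lit 4252) (nat_lit 15) (nat_lit 2))))
  (@Cl.mk (nat_lit 0x2000700050004000d0009000d0003000d0003000900030007000b000e000c) (nat_lit 0x8090b0600312) (nat_lit 16) Lb.e (@T16.mk En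
    (@En.n l15182 (nat_lit 3872) (nat_lit 12) (nat_lit 12))
    (@En.i (nat_lit 2742) (nat_lit 4) (nat_lit 14))
    (@En.i (nat_lit 8597) (nat_lit 2) (nat_lit 11))
    (@En.i (nat_lit 3592) (nat_lit 3) (nat_lit 7))
    (@En.i (nat_lit 3740) (nat_lit 4) (nat_lit 3))
    (@En.i (nat_lit 8158) (nat_lit 0) (nat_lit 9))
    (@En.i (nat_lit 4252) (nat_lit 6) (nat_lit 3))
    (@En.i (nat_lit 4733) (nat_lit 0) (nat_lit 13))
    (@En.i (nat_lit 4254) (nat_lit 8) (nat_lit 3))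
    (@En.i (nat_lit 3886) (nat_lit 10) (nat_lit 13))
    (@En.i (nat_lit 4255) (nat_lit 11) (nat_lit 9))
    (@En.i (nat_lit 11416) (nat_lit 12) (nat_lit 13))
    (@En.n l2832 (nat_lit 4280) (nat_lit 12) (nat_lit 4))
    (@En.n l17 (nat_lit 4256) (nat_lit 14) (nat_lit 5))
    (@En.i (nat_lit 4243) (nat_lit 7) (nat_lit 7))
    (@En.n l3 (nat_lit 4253) (nat_lit 15) (nat_lit 2))))
  (@Cl.mk (nat_lit 0x2000700050004000d000c000a0003000d0004000900030006000b000e000c) (nat_lit 0x7a10b0600312) (nat_lit 16) Lb.e (@T16.mk En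
    (@En.n l11384 (nat_lit 3859) (nat_lit 12) (nat_lit 12))
    (@En.i (nat_lit 2741) (nat_lit 4) (nat_lit 14))
    (@En.i (nat_lit 8596) (nat_lit 2) (nat_lit 11))
    (@En.i (nat_lit 3591) (nat_lit 12) (nat_lit 6))
    (@En.n l2259 (nat_lit 1031) (nat_lit 4) (nat_lit 3))
    (@En.n l1386 (nat_lit 8159) (nat_lit 0) (nat_lit 9))
    (@En.n l9754 (nat_lit 2717) (nat_lit 6) (nat_lit 4))
    (@En.n l343 (nat_lit 4255) (nat_lit 8) (nat_lit 13))
    (@En.n l28 (nat_lit 4253) (nat_lit 8) (nat_lit 3))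
    (@En.n l1246 (nat_lit 1024) (nat_lit 10) (nat_lit 10))
    (@En.n l77 (nat_lit 4252) (nat_lit 11) (nat_lit 12))
    (@En.i (nat_lit 11417) (nat_lit 12) (nat_lit 13))
    (@En.n l1246 (nat_lit 4279) (nat_lit 12) (nat_lit 4))
    (@En.n l17 (nat_lit 4257) (nat_lit 14) (nat_lit 5))
    (@En.i (nat_lit 4246) (nat_lit 5) (nat_lit 7))
    (@En.n l3 (nat_lit 4254) (nat_lit 15) (nat_lit 2))))
  (@Cl.mk (nat_lit 0x20008000500040009000d000a000d00030008000300070006000b000e000c) (nat_lit 0x4007b1a06000311) (nat_lit 16) Lb.e (@T16.mk En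
    (@En.n l15182 (nat_lit 3862) (nat_lit 11) (nat_lit 12))
    (@En.i (nat_lit 1365) (nat_lit 4) (nat_lit 14))
    (@En.n l780 (nat_lit 7633) (nat_lit 2) (nat_lit 11))
    (@En.n l55 (nat_lit 4254) (nat_lit 3) (nat_lit 6))
    (@En.n l11649 (nat_lit 3963) (nat_lit 4) (nat_lit 7))
    (@En.n l6658 (nat_lit 1030) (nat_lit 5) (nat_lit 3))
    (@En.i (nat_lit 8160) (nat_lit 0) (nat_lit 8))
    (@En.n l9452 (nat_lit 1029) (nat_lit 7) (nat_lit 3))
    (@En.n l16555 (nat_lit 4699) (nat_lit 0) (nat_lit 13))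
    (@En.i (nat_lit 1025) (nat_lit 10) (nat_lit 10))
    (@En.n l780 (nat_lit 3740) (nat_lit 11) (nat_lit 13))
    (@En.i (nat_lit 12128) (nat_lit 12) (nat_lit 9))
    (@En.n l8455 (nat_lit 4276) (nat_lit 12) (nat_lit 4))
    (@En.n l17 (nat_lit 4259) (nat_lit 14) (nat_lit 5))
    (@En.i (nat_lit 4235) (nat_lit 6) (nat_lit 8))
    (@En.n l3 (nat_lit 4255) (nat_lit 15) (nat_lit 2))))
noncomputable def a266 : T16 Cl := @T16.mk Cl
  (@Cl.mk (nat_lit 0x200050003000d0009000d0003000d0003000c00030007000b0004000e000d) (nat_lit 0x9090308003021) (nat_lit 16) Lb.e (@T16.mk En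
    (@En.n l4130 (nat_lit 3005) (nat_lit 2) (nat_lit 13))
    (@En.i (nat_lit 4253) (nat_lit 1) (nat_lit 14))
    (@En.i (nat_lit 4197) (nat_lit 2) (nat_lit 4))
    (@En.i (nat_lit 8311) (nat_lit 3) (nat_lit 11))
    (@En.i (nat_lit 3839) (nat_lit 4) (nat_lit 7))
    (@En.i (nat_lit 3743) (nat_lit 5) (nat_lit 3))
    (@En.i (nat_lit 7061) (nat_lit 7) (nat_lit 12))
    (@En.i (nat_lit 4258) (nat_lit 7) (nat_lit 3))
    (@En.i (nat_lit 4736) (nat_lit 9) (nat_lit 13))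
    (@En.i (nat_lit 4257) (nat_lit 9) (nat_lit 3))
    (@En.i (nat_lit 4022) (nat_lit 11) (nat_lit 13))
    (@En.i (nat_lit 4259) (nat_lit 12) (nat_lit 9))
    (@En.i (nat_lit 11412) (nat_lit 13) (nat_lit 13))
    (@En.n l2832 (nat_lit 3005) (nat_lit 14) (nat_lit 3))
    (@En.i (nat_lit 3471) (nat_lit 0) (nat_lit 5))
    (@En.n l3 (nat_lit 4256) (nat_lit 15) (nat_lit 2))))
  (@Cl.mk (nat_lit 0x200050003000d000c000a0003000d0004000c00030006000b0004000e000d) (nat_lit 0x9820408003025) (nat_lit 16) Lb.e (@T16.mk En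
    (@En.n l2264 (nat_lit 4260) (nat_lit 2) (nat_lit 13))
    (@En.i (nat_lit 4254) (nat_lit 1) (nat_lit 14))
    (@En.i (nat_lit 4198) (nat_lit 2) (nat_lit 4))
    (@En.i (nat_lit 8592) (nat_lit 3) (nat_lit 11))
    (@En.i (nat_lit 3842) (nat_lit 4) (nat_lit 6))
    (@En.i (nat_lit 4261) (nat_lit 5) (nat_lit 3))
    (@En.i (nat_lit 7059) (nat_lit 0) (nat_lit 12))
    (@En.n l28 (nat_lit 2720) (nat_lit 7) (nat_lit 4))
    (@En.n l343 (nat_lit 4259) (nat_lit 9) (nat_lit 13))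
    (@En.n l28 (nat_lit 4256) (nat_lit 9) (nat_lit 3))
    (@En.i (nat_lit 1368) (nat_lit 11) (nat_lit 10))
    (@En.n l77 (nat_lit 4258) (nat_lit 12) (nat_lit 12))
    (@En.i (nat_lit 11413) (nat_lit 13) (nat_lit 13))
    (@En.n l2267 (nat_lit 4260) (nat_lit 14) (nat_lit 3))
    (@En.i (nat_lit 3472) (nat_lit 0) (nat_lit 5))
    (@En.n l3 (nat_lit 4257) (nat_lit 15) (nat_lit 2))))
  (@Cl.mk (nat_lit 0x200050003000c0009000d000c00040003000c00040007000b0004000e000d) (nat_lit 0x7192008003021) (nat_lit 16) Lb.e (@T16.mk En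
    (@En.n l9448 (nat_lit 3001) (nat_lit 2) (nat_lit 13))
    (@En.i (nat_lit 4252) (nat_lit 1) (nat_lit 14))
    (@En.i (nat_lit 3041) (nat_lit 2) (nat_lit 4))
    (@En.i (nat_lit 8529) (nat_lit 3) (nat_lit 11))
    (@En.i (nat_lit 3837) (nat_lit 4) (nat_lit 7))
    (@En.n l7 (nat_lit 3215) (nat_lit 5) (nat_lit 4))
    (@En.n l564 (nat_lit 7425) (nat_lit 7) (nat_lit 12))
    (@En.n l7 (nat_lit 4256) (nat_lit 7) (nat_lit 3))
    (@En.i (nat_lit 2728) (nat_lit 8) (nat_lit 4))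
    (@En.n l644 (nat_lit 3743) (nat_lit 10) (nat_lit 12))
    (@En.n l13544 (nat_lit 4042) (nat_lit 11) (nat_lit 13))
    (@En.i (nat_lit 1016) (nat_lit 12) (nat_lit 9))
    (@En.i (nat_lit 11482) (nat_lit 13) (nat_lit 12))
    (@En.n l9450 (nat_lit 3001) (nat_lit 14) (nat_lit 3))
    (@En.i (nat_lit 3470) (nat_lit 0) (nat_lit 5))
    (@En.n l3 (nat_lit 4258) (nat_lit 15) (nat_lit 2))))
  (@Cl.mk (nat_lit 0x2000500030009000d000a000d0003000b000300070006000b0005000e000d) (nat_lit 0x7b13070004026) (nat_lit 16) Lb.e (@T16.mk En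
    (@En.n l4130 (nat_lit 4262) (nat_lit 2) (nat_lit 13))
    (@En.i (nat_lit 4255) (nat_lit 1) (nat_lit 14))
    (@En.i (nat_lit 1605) (nat_lit 2) (nat_lit 5))
    (@En.n l780 (nat_lit 7634) (nat_lit 3) (nat_lit 11))
    (@En.n l55 (nat_lit 4257) (nat_lit 4) (nat_lit 6))
    (@En.n l11416 (nat_lit 3769) (nat_lit 5) (nat_lit 7))
    (@En.i (nat_lit 1015) (nat_lit 6) (nat_lit 3))
    (@En.i (nat_lit 7055) (nat_lit 8) (nat_lit 11))
    (@En.i (nat_lit 1016) (nat_lit 8) (nat_lit 3))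
    (@En.n l1316 (nat_lit 4788) (nat_lit 10) (nat_lit 13))
    (@En.i (nat_lit 1014) (nat_lit 11) (nat_lit 10))
    (@En.n l780 (nat_lit 3743) (nat_lit 12) (nat_lit 13))
    (@En.i (nat_lit 12127) (nat_lit 13) (nat_lit 9))
    (@En.n l2832 (nat_lit 4262) (nat_lit 14) (nat_lit 3))
    (@En.i (nat_lit 1361) (nat_lit 0) (nat_lit 5))
    (@En.n l3 (nat_lit 4259) (nat_lit 15) (nat_lit 2))))
  (@Cl.mk (nat_lit 0x30003000d000c000a0003000d0004000c00030006000c0004000d000d0004) (nat_lit 0xb1104050020410) (nat_lit 16) Lb.e (@T16.mk En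
    (@En.n l5874 (nat_lit 3850) (nat_lit 0) (nat_lit 4))
    (@En.n l4007 (nat_lit 3004) (nat_lit 3) (nat_lit 13))
    (@En.n l14514 (nat_lit 4279) (nat_lit 1) (nat_lit 13))
    (@En.i (nat_lit 3044) (nat_lit 3) (nat_lit 4))
    (@En.n l1770 (nat_lit 8309) (nat_lit 14) (nat_lit 12))
    (@En.n l1769 (nat_lit 3841) (nat_lit 12) (nat_lit 6))
    (@En.i (nat_lit 4263) (nat_lit 6) (nat_lit 3))
    (@En.n l1867 (nat_lit 7058) (nat_lit 0) (nat_lit 12))
    (@En.i (nat_lit 2723) (nat_lit 8) (nat_lit 4))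
    (@En.i (nat_lit 4262) (nat_lit 10) (nat_lit 13))
    (@En.n l152 (nat_lit 3005) (nat_lit 10) (nat_lit 3))
    (@En.n l14515 (nat_lit 1114) (nat_lit 0) (nat_lit 10))
    (@En.n l5879 (nat_lit 3001) (nat_lit 13) (nat_lit 12))
    (@En.i (nat_lit 10885) (nat_lit 7) (nat_lit 13))
    (@En.n l4298 (nat_lit 4257) (nat_lit 13) (nat_lit 3))
    (@En.n l4296 (nat_lit 3004) (nat_lit 0) (nat_lit 3))))
  (@Cl.mk (nat_lit 0x200050003000d000b000a0003000d000b000500030006000b0005000e000d) (nat_lit 0xb920180004017) (nat_lit 16) Lb.e (@T16.mk En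
    (@En.n l2264 (nat_lit 4263) (nat_lit 2) (nat_lit 13))
    (@En.n l2259 (nat_lit 1031) (nat_lit 1) (nat_lit 14))
    (@En.n l2265 (nat_lit 1599) (nat_lit 2) (nat_lit 5))
    (@En.i (nat_lit 8335) (nat_lit 3) (nat_lit 11))
    (@En.n l612 (nat_lit 2728) (nat_lit 4) (nat_lit 6))
    (@En.n l50 (nat_lit 4257) (nat_lit 5) (nat_lit 3))
    (@En.n l2266 (nat_lit 1004) (nat_lit 6) (nat_lit 5))
    (@En.n l2265 (nat_lit 7325) (nat_lit 8) (nat_lit 11))
    (@En.n l343 (nat_lit 1015) (nat_lit 9) (nat_lit 13))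
    (@En.n l28 (nat_lit 3743) (nat_lit 9) (nat_lit 3))
    (@En.i (nat_lit 1013) (nat_lit 11) (nat_lit 10))
    (@En.i (nat_lit 3215) (nat_lit 12) (nat_lit 11))
    (@En.i (nat_lit 11487) (nat_lit 13) (nat_lit 13))
    (@En.n l2267 (nat_lit 4263) (nat_lit 14) (nat_lit 3))
    (@En.i (nat_lit 1338) (nat_lit 0) (nat_lit 5))
    (@En.n l3 (nat_lit 4261) (nat_lit 15) (nat_lit 2))))
  (@Cl.mk (nat_lit 0x300030009000d000a000d0003000b000300070006000c0005000d000d0004) (nat_lit 0x79130800050570) (nat_lit 16) Lb.e (@T16.mk En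
    (@En.n l11245 (nat_lit 4267) (nat_lit 0) (nat_lit 4))
    (@En.n l61 (nat_lit 4337) (nat_lit 3) (nat_lit 13))
    (@En.n l14514 (nat_lit 4276) (nat_lit 1) (nat_lit 13))
    (@En.i (nat_lit 4199) (nat_lit 3) (nat_lit 5))
    (@En.n l1770 (nat_lit 8088) (nat_lit 13) (nat_lit 12))
    (@En.n l3 (nat_lit 4260) (nat_lit 5) (nat_lit 6))
    (@En.n l1769 (nat_lit 3764) (nat_lit 6) (nat_lit 7))
    (@En.i (nat_lit 4264) (nat_lit 7) (nat_lit 3))
    (@En.n l1867 (nat_lit 7056) (nat_lit 0) (nat_lit 11))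
    (@En.n l19671 (nat_lit 4265) (nat_lit 9) (nat_lit 3))
    (@En.n l3062 (nat_lit 4787) (nat_lit 0) (nat_lit 13))
    (@En.n l5386 (nat_lit 1158) (nat_lit 12) (nat_lit 10))
    (@En.n l2038 (nat_lit 3744) (nat_lit 13) (nat_lit 13))
    (@En.i (nat_lit 10327) (nat_lit 5) (nat_lit 9))
    (@En.n l3519 (nat_lit 4259) (nat_lit 13) (nat_lit 3))
    (@En.n l18 (nat_lit 4337) (nat_lit 0) (nat_lit 3))))
  (@Cl.mk (nat_lit 0x30003000d000b000a0003000d000b000500030006000c0005000d000d0004) (nat_lit 0x89204600030670) (nat_lit 16) Lb.e (@T16.mk En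
    (@En.n l5874 (nat_lit 4266) (nat_lit 0) (nat_lit 4))
    (@En.n l4007 (nat_lit 3340) (nat_lit 3) (nat_lit 13))
    (@En.n l5875 (nat_lit 4277) (nat_lit 1) (nat_lit 13))
    (@En.n l5876 (nat_lit 1602) (nat_lit 3) (nat_lit 5))
    (@En.n l1770 (nat_lit 8339) (nat_lit 14) (nat_lit 12))
    (@En.i (nat_lit 2727) (nat_lit 12) (nat_lit 6))
    (@En.n l28 (nat_lit 4260) (nat_lit 6) (nat_lit 3))
    (@En.n l5877 (nat_lit 332) (nat_lit 0) (nat_lit 5))
    (@En.i (nat_lit 7328) (nat_lit 9) (nat_lit 11))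
    (@En.i (nat_lit 4264) (nat_lit 10) (nat_lit 13))
    (@En.n l152 (nat_lit 3744) (nat_lit 10) (nat_lit 3))
    (@En.n l5878 (nat_lit 1109) (nat_lit 0) (nat_lit 10))
    (@En.n l5879 (nat_lit 3323) (nat_lit 13) (nat_lit 11))
    (@En.i (nat_lit 10886) (nat_lit 7) (nat_lit 13))
    (@En.n l4298 (nat_lit 4261) (nat_lit 13) (nat_lit 3))
    (@En.n l4296 (nat_lit 3340) (nat_lit 0) (nat_lit 3))))
  (@Cl.mk (nat_lit 0x300030009000c000a000d000a0004000300070006000c0006000d000d0004) (nat_lit 0x79235000050b80) (nat_lit 16) Lb.e (@T16.mk En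
    (@En.n l14453 (nat_lit 4268) (nat_lit 0) (nat_lit 4))
    (@En.n l61 (nat_lit 3341) (nat_lit 3) (nat_lit 13))
    (@En.n l14454 (nat_lit 4274) (nat_lit 1) (nat_lit 13))
    (@En.n l28 (nat_lit 1604) (nat_lit 3) (nat_lit 6))
    (@En.n l1770 (nat_lit 7639) (nat_lit 13) (nat_lit 12))
    (@En.n l3 (nat_lit 4263) (nat_lit 5) (nat_lit 6))
    (@En.n l14455 (nat_lit 4265) (nat_lit 6) (nat_lit 7))
    (@En.n l28 (nat_lit 4262) (nat_lit 7) (nat_lit 3))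
    (@En.n l8330 (nat_lit 327) (nat_lit 0) (nat_lit 4))
    (@En.i (nat_lit 4341) (nat_lit 10) (nat_lit 10))
    (@En.n l14454 (nat_lit 4684) (nat_lit 5) (nat_lit 13))
    (@En.n l14456 (nat_lit 216) (nat_lit 12) (nat_lit 10))
    (@En.n l14454 (nat_lit 3326) (nat_lit 6) (nat_lit 12))
    (@En.n l14457 (nat_lit 10538) (nat_lit 5) (nat_lit 9))
    (@En.n l3519 (nat_lit 1015) (nat_lit 13) (nat_lit 3))
    (@En.n l18 (nat_lit 3341) (nat_lit 0) (nat_lit 3))))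
  (@Cl.mk (nat_lit 0x300030009000d000c000b0003000b000400070005000c0005000d000d0004) (nat_lit 0x79a30800030b70) (nat_lit 16) Lb.e (@T16.mk En
    (@En.n l11468 (nat_lit 4269) (nat_lit 0) (nat_lit 4))
    (@En.n l15660 (nat_lit 4336) (nat_lit 3) (nat_lit 13))
    (@En.i (nat_lit 4275) (nat_lit 1) (nat_lit 13))
    (@En.n l15661 (nat_lit 1603) (nat_lit 3) (nat_lit 5))
    (@En.n l15662 (nat_lit 7638) (nat_lit 11) (nat_lit 12))
    (@En.n l15663 (nat_lit 2723) (nat_lit 5) (nat_lit 5))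
    (@En.n l13793 (nat_lit 3767) (nat_lit 11) (nat_lit 7))
    (@En.n l6042 (nat_lit 330) (nat_lit 7) (nat_lit 4))
    (@En.n l3522 (nat_lit 4340) (nat_lit 9) (nat_lit 11))
    (@En.n l8246 (nat_lit 4262) (nat_lit 9) (nat_lit 3))
    (@En.n l6444 (nat_lit 350) (nat_lit 0) (nat_lit 11))
    (@En.n l5835 (nat_lit 4264) (nat_lit 12) (nat_lit 12))
    (@En.n l15664 (nat_lit 4263) (nat_lit 13) (nat_lit 13))
    (@En.n l649 (nat_lit 10539) (nat_lit 14) (nat_lit 9))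
    (@En.n l15665 (nat_lit 1016) (nat_lit 13) (nat_lit 3))
    (@En.n l15666 (nat_lit 4336) (nat_lit 0) (nat_lit 3))))
  (@Cl.mk (nat_lit 0x20005000d000b000a0003000d000a000500030006000c000b0006000e0004) (nat_lit 0xa920b1000950c0) (nat_lit 16) Lb.e (@T16.mk En
    (@En.n l14495 (nat_lit 3860) (nat_lit 9) (nat_lit 4))
    (@En.n l2259 (nat_lit 4273) (nat_lit 1) (nat_lit 14))
    (@En.n l14496 (nat_lit 3258) (nat_lit 2) (nat_lit 6))
    (@En.i (nat_lit 4261) (nat_lit 3) (nat_lit 11))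
    (@En.n l117 (nat_lit 4327) (nat_lit 5) (nat_lit 12))
    (@En.n l14497 (nat_lit 2757) (nat_lit 5) (nat_lit 6))
    (@En.n l50 (nat_lit 3850) (nat_lit 6) (nat_lit 3))
    (@En.n l14498 (nat_lit 906) (nat_lit 7) (nat_lit 5))
    (@En.n l14499 (nat_lit 2315) (nat_lit 9) (nat_lit 10))
    (@En.n l14500 (nat_lit 4268) (nat_lit 10) (nat_lit 13))
    (@En.n l28 (nat_lit 3739) (nat_lit 10) (nat_lit 3))
    (@En.n l14501 (nat_lit 1080) (nat_lit 12) (nat_lit 10))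
    (@En.i (nat_lit 3212) (nat_lit 13) (nat_lit 11))
    (@En.n l6670 (nat_lit 10877) (nat_lit 14) (nat_lit 13))
    (@En.n l107 (nat_lit 1334) (nat_lit 13) (nat_lit 5))
    (@En.n l3 (nat_lit 4266) (nat_lit 15) (nat_lit 2))))
  (@Cl.mk (nat_lit 0x200050009000d000a000d0003000a000300070006000c000b0006000e0004) (nat_lit 0x7b2a05000a50c0) (nat_lit 16) Lb.e (@T16.mk En
    (@En.n l16861 (nat_lit 3862) (nat_lit 8) (nat_lit 4))
    (@En.n l22209 (nat_lit 4272) (nat_lit 1) (nat_lit 14))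
    (@En.n l34040 (nat_lit 1323) (nat_lit 2) (nat_lit 6))
    (@En.i (nat_lit 4259) (nat_lit 3) (nat_lit 11))
    (@En.n l22747 (nat_lit 7625) (nat_lit 5) (nat_lit 12))
    (@En.n l55 (nat_lit 3850) (nat_lit 5) (nat_lit 6))
    (@En.n l4294 (nat_lit 3775) (nat_lit 6) (nat_lit 7))
    (@En.n l16864 (nat_lit 4268) (nat_lit 7) (nat_lit 3))
    (@En.n l1320 (nat_lit 8076) (nat_lit 0) (nat_lit 10))
    (@En.i (nat_lit 4269) (nat_lit 9) (nat_lit 3))
    (@En.n l30595 (nat_lit 4785) (nat_lit 11) (nat_lit 13))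
    (@En.i (nat_lit 1078) (nat_lit 12) (nat_lit 10))
    (@En.n l780 (nat_lit 3739) (nat_lit 13) (nat_lit 13))
    (@En.n l22747 (nat_lit 12125) (nat_lit 14) (nat_lit 9))
    (@En.n l107 (nat_lit 1362) (nat_lit 13) (nat_lit 5))
    (@En.n l3 (nat_lit 4267) (nat_lit 15) (nat_lit 2))))
  (@Cl.mk (nat_lit 0x200050009000c000a000d00090004000300070006000c000b0007000e0004) (nat_lit 0x792a60000910c0) (nat_lit 16) Lb.e (@T16.mk En
    (@En.n l22683 (nat_lit 3861) (nat_lit 8) (nat_lit 4))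
    (@En.i (nat_lit 4270) (nat_lit 1) (nat_lit 14))
    (@En.n l3531 (nat_lit 1320) (nat_lit 2) (nat_lit 7))
    (@En.n l22833 (nat_lit 1015) (nat_lit 3) (nat_lit 11))
    (@En.n l4790 (nat_lit 8242) (nat_lit 5) (nat_lit 12))
    (@En.n l27473 (nat_lit 4266) (nat_lit 5) (nat_lit 6))
    (@En.n l27474 (nat_lit 4269) (nat_lit 6) (nat_lit 7))
    (@En.n l22836 (nat_lit 4267) (nat_lit 7) (nat_lit 3))
    (@En.n l26461 (nat_lit 907) (nat_lit 8) (nat_lit 4))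
    (@En.n l27475 (nat_lit 7046) (nat_lit 10) (nat_lit 9))
    (@En.n l9591 (nat_lit 4678) (nat_lit 11) (nat_lit 13))
    (@En.n l2038 (nat_lit 1076) (nat_lit 12) (nat_lit 10))
    (@En.n l27476 (nat_lit 3736) (nat_lit 13) (nat_lit 12))
    (@En.i (nat_lit 7890) (nat_lit 14) (nat_lit 9))
    (@En.n l1899 (nat_lit 1359) (nat_lit 13) (nat_lit 5))
    (@En.n l17 (nat_lit 4268) (nat_lit 15) (nat_lit 2))))
  (@Cl.mk (nat_lit 0x200050009000d000c000b0003000a000400070005000c000b0006000e0004) (nat_lit 0x7ba305000910c0) (nat_lit 16) Lb.e (@T16.mk En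
    (@En.n l22866 (nat_lit 3863) (nat_lit 6) (nat_lit 4))
    (@En.n l22867 (nat_lit 4271) (nat_lit 1) (nat_lit 14))
    (@En.n l10247 (nat_lit 1316) (nat_lit 2) (nat_lit 6))
    (@En.i (nat_lit 1016) (nat_lit 3) (nat_lit 11))
    (@En.n l22747 (nat_lit 8243) (nat_lit 5) (nat_lit 12))
    (@En.i (nat_lit 1155) (nat_lit 5) (nat_lit 5))
    (@En.n l22868 (nat_lit 3967) (nat_lit 6) (nat_lit 7))
    (@En.n l22869 (nat_lit 361) (nat_lit 7) (nat_lit 4))
    (@En.n l20533 (nat_lit 7045) (nat_lit 9) (nat_lit 10))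
    (@En.n l7 (nat_lit 4267) (nat_lit 9) (nat_lit 3))
    (@En.n l3239 (nat_lit 1083) (nat_lit 11) (nat_lit 11))
    (@En.n l22741 (nat_lit 4268) (nat_lit 12) (nat_lit 12))
    (@En.n l780 (nat_lit 4266) (nat_lit 13) (nat_lit 13))
    (@En.n l21676 (nat_lit 7891) (nat_lit 14) (nat_lit 9))
    (@En.n l22870 (nat_lit 1360) (nat_lit 13) (nat_lit 5))
    (@En.n l3 (nat_lit 4269) (nat_lit 15) (nat_lit 2))))
  (@Cl.mk (nat_lit 0x2000a00050009000c000a000d00060004000300070006000d000b000e0003) (nat_lit 0x50792a0000091b0) (nat_lit 16) Lb.e (@T16.mk En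
    (@En.n l3522 (nat_lit 4274) (nat_lit 15) (nat_lit 3))
    (@En.n l476 (nat_lit 12827) (nat_lit 0) (nat_lit 14))
    (@En.n l10970 (nat_lit 1030) (nat_lit 2) (nat_lit 11))
    (@En.n l5839 (nat_lit 8244) (nat_lit 13) (nat_lit 13))
    (@En.n l19972 (nat_lit 4273) (nat_lit 4) (nat_lit 6))
    (@En.n l13671 (nat_lit 4271) (nat_lit 5) (nat_lit 7))
    (@En.n l1483 (nat_lit 4272) (nat_lit 6) (nat_lit 3))
    (@En.n l152 (nat_lit 908) (nat_lit 0) (nat_lit 4))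
    (@En.n l1769 (nat_lit 5661) (nat_lit 8) (nat_lit 6))
    (@En.i (nat_lit 4696) (nat_lit 10) (nat_lit 13))
    (@En.n l2038 (nat_lit 1062) (nat_lit 11) (nat_lit 10))
    (@En.n l10970 (nat_lit 3737) (nat_lit 6) (nat_lit 12))
    (@En.i (nat_lit 4378) (nat_lit 13) (nat_lit 9))
    (@En.n l1770 (nat_lit 4268) (nat_lit 14) (nat_lit 5))
    (@En.i (nat_lit 4228) (nat_lit 14) (nat_lit 10))
    (@En.n l17 (nat_lit 4270) (nat_lit 15) (nat_lit 2))))
  (@Cl.mk (nat_lit 0x2000900050009000d000c000b00030007000400070005000d000b000e0003) (nat_lit 0x501ba20000091b0) (nat_lit 16) Lb.e (@T16.mk En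
    (@En.n l2869 (nat_lit 4275) (nat_lit 15) (nat_lit 3))
    (@En.n l1599 (nat_lit 12828) (nat_lit 0) (nat_lit 14))
    (@En.n l2579 (nat_lit 1029) (nat_lit 2) (nat_lit 11))
    (@En.n l5011 (nat_lit 8245) (nat_lit 11) (nat_lit 13))
    (@En.n l22663 (nat_lit 1151) (nat_lit 4) (nat_lit 5))
    (@En.n l810 (nat_lit 3964) (nat_lit 5) (nat_lit 7))
    (@En.n l2678 (nat_lit 364) (nat_lit 6) (nat_lit 4))
    (@En.i (nat_lit 5660) (nat_lit 7) (nat_lit 7))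
    (@En.n l5267 (nat_lit 4272) (nat_lit 8) (nat_lit 3))
    (@En.n l77 (nat_lit 1088) (nat_lit 0) (nat_lit 11))
    (@En.n l8351 (nat_lit 4270) (nat_lit 11) (nat_lit 12))
    (@En.n l22664 (nat_lit 4273) (nat_lit 12) (nat_lit 13))
    (@En.i (nat_lit 2375) (nat_lit 13) (nat_lit 9))
    (@En.n l22665 (nat_lit 4269) (nat_lit 14) (nat_lit 5))
    (@En.n l3337 (nat_lit 4227) (nat_lit 5) (nat_lit 9))
    (@En.n l17 (nat_lit 4271) (nat_lit 15) (nat_lit 2))))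
noncomputable def a267 : T16 Cl := @T16.mk Cl
  (@Cl.mk (nat_lit 0x2000900050009000d000a000d00030007000300070006000d000b000e0003) (nat_lit 0x507b2a0000034b0) (nat_lit 16) Lb.e (@T16.mk En
    (@En.n l24746 (nat_lit 4276) (nat_lit 15) (nat_lit 3))
    (@En.n l24747 (nat_lit 12826) (nat_lit 0) (nat_lit 14))
    (@En.n l24748 (nat_lit 4255) (nat_lit 2) (nat_lit 11))
    (@En.n l3082 (nat_lit 8246) (nat_lit 11) (nat_lit 13))
    (@En.n l24749 (nat_lit 4278) (nat_lit 4) (nat_lit 6))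
    (@En.n l24750 (nat_lit 3960) (nat_lit 5) (nat_lit 7))
    (@En.n l936 (nat_lit 4270) (nat_lit 6) (nat_lit 3))
    (@En.n l24751 (nat_lit 5551) (nat_lit 0) (nat_lit 7))
    (@En.n l24752 (nat_lit 4271) (nat_lit 8) (nat_lit 3))
    (@En.n l3015 (nat_lit 4784) (nat_lit 0) (nat_lit 13))
    (@En.n l24753 (nat_lit 1072) (nat_lit 11) (nat_lit 10))
    (@En.n l24754 (nat_lit 3738) (nat_lit 12) (nat_lit 13))
    (@En.i (nat_lit 4373) (nat_lit 13) (nat_lit 9))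
    (@En.n l18276 (nat_lit 4267) (nat_lit 14) (nat_lit 5))
    (@En.n l24748 (nat_lit 4236) (nat_lit 5) (nat_lit 9))
    (@En.n l17 (nat_lit 4272) (nat_lit 15) (nat_lit 2))))
  (@Cl.mk (nat_lit 0x200090005000d000b000a0003000d0007000500030006000d000b000e0003) (nat_lit 0x20a120b000041b0) (nat_lit 16) Lb.e (@T16.mk En
    (@En.n l107 (nat_lit 4277) (nat_lit 15) (nat_lit 3))
    (@En.n l2016 (nat_lit 12825) (nat_lit 0) (nat_lit 14))
    (@En.i (nat_lit 1031) (nat_lit 2) (nat_lit 11))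
    (@En.n l2016 (nat_lit 10146) (nat_lit 4) (nat_lit 13))
    (@En.n l27166 (nat_lit 2756) (nat_lit 4) (nat_lit 6))
    (@En.n l117 (nat_lit 4278) (nat_lit 5) (nat_lit 3))
    (@En.n l1927 (nat_lit 313) (nat_lit 0) (nat_lit 5))
    (@En.n l6113 (nat_lit 6185) (nat_lit 7) (nat_lit 7))
    (@En.n l4347 (nat_lit 4270) (nat_lit 9) (nat_lit 13))
    (@En.n l1927 (nat_lit 3738) (nat_lit 9) (nat_lit 3))
    (@En.n l61 (nat_lit 1084) (nat_lit 11) (nat_lit 10))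
    (@En.n l6064 (nat_lit 862) (nat_lit 12) (nat_lit 11))
    (@En.n l1865 (nat_lit 5633) (nat_lit 13) (nat_lit 13))
    (@En.n l5973 (nat_lit 4266) (nat_lit 14) (nat_lit 5))
    (@En.n l7705 (nat_lit 4294) (nat_lit 14) (nat_lit 9))
    (@En.n l67 (nat_lit 4273) (nat_lit 15) (nat_lit 2))))
  (@Cl.mk (nat_lit 0x30003000a00040009000c000a000d00060004000300070006000d000d000c) (nat_lit 0x501117000005a6) (nat_lit 16) Lb.e (@T16.mk En
    (@En.n l619 (nat_lit 3864) (nat_lit 0) (nat_lit 12))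
    (@En.n l1140 (nat_lit 4270) (nat_lit 3) (nat_lit 13))
    (@En.i (nat_lit 8251) (nat_lit 13) (nat_lit 13))
    (@En.n l13384 (nat_lit 4277) (nat_lit 3) (nat_lit 6))
    (@En.n l6204 (nat_lit 4275) (nat_lit 4) (nat_lit 7))
    (@En.n l26191 (nat_lit 4276) (nat_lit 5) (nat_lit 3))
    (@En.n l7 (nat_lit 316) (nat_lit 0) (nat_lit 4))
    (@En.n l7910 (nat_lit 5654) (nat_lit 7) (nat_lit 6))
    (@En.i (nat_lit 4698) (nat_lit 5) (nat_lit 13))
    (@En.n l396 (nat_lit 1060) (nat_lit 10) (nat_lit 10))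
    (@En.i (nat_lit 859) (nat_lit 6) (nat_lit 12))
    (@En.n l3528 (nat_lit 2262) (nat_lit 12) (nat_lit 9))
    (@En.i (nat_lit 3861) (nat_lit 6) (nat_lit 4))
    (@En.i (nat_lit 4230) (nat_lit 0) (nat_lit 10))
    (@En.n l152 (nat_lit 4287) (nat_lit 13) (nat_lit 3))
    (@En.n l9956 (nat_lit 4270) (nat_lit 0) (nat_lit 3))))
  (@Cl.mk (nat_lit 0x30003000900040009000d000c000b00030007000400070005000d000d000c) (nat_lit 0x201b22000004a5) (nat_lit 16) Lb.e (@T16.mk En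
    (@En.n l619 (nat_lit 3865) (nat_lit 0) (nat_lit 12))
    (@En.n l1867 (nat_lit 4271) (nat_lit 3) (nat_lit 13))
    (@En.i (nat_lit 8250) (nat_lit 11) (nat_lit 13))
    (@En.n l11386 (nat_lit 1152) (nat_lit 3) (nat_lit 5))
    (@En.n l1723 (nat_lit 3965) (nat_lit 11) (nat_lit 7))
    (@En.n l6042 (nat_lit 315) (nat_lit 5) (nat_lit 4))
    (@En.i (nat_lit 5655) (nat_lit 6) (nat_lit 7))
    (@En.i (nat_lit 4276) (nat_lit 7) (nat_lit 3))
    (@En.n l6444 (nat_lit 377) (nat_lit 0) (nat_lit 11))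
    (@En.n l5838 (nat_lit 4274) (nat_lit 10) (nat_lit 12))
    (@En.n l601 (nat_lit 4277) (nat_lit 11) (nat_lit 13))
    (@En.n l649 (nat_lit 2263) (nat_lit 12) (nat_lit 9))
    (@En.i (nat_lit 3863) (nat_lit 4) (nat_lit 4))
    (@En.n l3517 (nat_lit 4229) (nat_lit 5) (nat_lit 9))
    (@En.n l152 (nat_lit 4288) (nat_lit 13) (nat_lit 3))
    (@En.n l1865 (nat_lit 4271) (nat_lit 0) (nat_lit 3))))
  (@Cl.mk (nat_lit 0x30003000900040009000d000a000d00030007000300070006000d000d000c) (nat_lit 0x201b1a00000446) (nat_lit 16) Lb.e (@T16.mk En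
    (@En.n l33225 (nat_lit 3866) (nat_lit 0) (nat_lit 12))
    (@En.n l22661 (nat_lit 4272) (nat_lit 3) (nat_lit 13))
    (@En.n l15414 (nat_lit 8252) (nat_lit 11) (nat_lit 13))
    (@En.n l403 (nat_lit 4279) (nat_lit 3) (nat_lit 6))
    (@En.n l1723 (nat_lit 3687) (nat_lit 4) (nat_lit 7))
    (@En.n l4344 (nat_lit 4274) (nat_lit 5) (nat_lit 3))
    (@En.n l6140 (nat_lit 5545) (nat_lit 0) (nat_lit 7))
    (@En.n l50 (nat_lit 4275) (nat_lit 7) (nat_lit 3))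
    (@En.n l397 (nat_lit 4752) (nat_lit 0) (nat_lit 13))
    (@En.i (nat_lit 1067) (nat_lit 10) (nat_lit 10))
    (@En.n l4344 (nat_lit 3741) (nat_lit 11) (nat_lit 13))
    (@En.n l15414 (nat_lit 2326) (nat_lit 12) (nat_lit 9))
    (@En.n l4190 (nat_lit 3862) (nat_lit 6) (nat_lit 4))
    (@En.n l3517 (nat_lit 4234) (nat_lit 5) (nat_lit 9))
    (@En.n l33226 (nat_lit 4285) (nat_lit 13) (nat_lit 3))
    (@En.n l33227 (nat_lit 4272) (nat_lit 0) (nat_lit 3))))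
  (@Cl.mk (nat_lit 0x3000300090004000d000b000a0003000d0007000500030006000d000d000c) (nat_lit 0x20a12080000455) (nat_lit 16) Lb.e (@T16.mk En
    (@En.n l619 (nat_lit 3867) (nat_lit 0) (nat_lit 12))
    (@En.n l97 (nat_lit 4273) (nat_lit 3) (nat_lit 13))
    (@En.n l5748 (nat_lit 8857) (nat_lit 2) (nat_lit 13))
    (@En.n l13301 (nat_lit 2758) (nat_lit 12) (nat_lit 6))
    (@En.i (nat_lit 4279) (nat_lit 4) (nat_lit 3))
    (@En.n l1927 (nat_lit 310) (nat_lit 0) (nat_lit 5))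
    (@En.n l217 (nat_lit 6184) (nat_lit 6) (nat_lit 7))
    (@En.n l397 (nat_lit 4274) (nat_lit 8) (nat_lit 13))
    (@En.n l1927 (nat_lit 3741) (nat_lit 8) (nat_lit 3))
    (@En.n l61 (nat_lit 1066) (nat_lit 0) (nat_lit 10))
    (@En.n l6064 (nat_lit 857) (nat_lit 11) (nat_lit 11))
    (@En.i (nat_lit 5632) (nat_lit 12) (nat_lit 13))
    (@En.i (nat_lit 3860) (nat_lit 7) (nat_lit 4))
    (@En.n l476 (nat_lit 4237) (nat_lit 14) (nat_lit 9))
    (@En.n l152 (nat_lit 4286) (nat_lit 13) (nat_lit 3))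
    (@En.i (nat_lit 4273) (nat_lit 0) (nat_lit 3))))
  (@Cl.mk (nat_lit 0x200080005000d000c000a0003000d0004000800030006000d000b000e0003) (nat_lit 0x507820b060024b0) (nat_lit 16) Lb.e (@T16.mk En
    (@En.n l152 (nat_lit 4279) (nat_lit 15) (nat_lit 3))
    (@En.n l3471 (nat_lit 12824) (nat_lit 0) (nat_lit 14))
    (@En.n l22659 (nat_lit 4254) (nat_lit 2) (nat_lit 11))
    (@En.n l22660 (nat_lit 4324) (nat_lit 4) (nat_lit 13))
    (@En.n l8279 (nat_lit 3073) (nat_lit 12) (nat_lit 6))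
    (@En.n l4296 (nat_lit 4273) (nat_lit 5) (nat_lit 3))
    (@En.n l8277 (nat_lit 5550) (nat_lit 0) (nat_lit 8))
    (@En.n l4172 (nat_lit 1151) (nat_lit 7) (nat_lit 4))
    (@En.n l22661 (nat_lit 4272) (nat_lit 9) (nat_lit 13))
    (@En.n l22662 (nat_lit 3746) (nat_lit 9) (nat_lit 3))
    (@En.i (nat_lit 1086) (nat_lit 11) (nat_lit 10))
    (@En.n l20387 (nat_lit 3745) (nat_lit 12) (nat_lit 12))
    (@En.n l1867 (nat_lit 5631) (nat_lit 13) (nat_lit 13))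
    (@En.n l9974 (nat_lit 3850) (nat_lit 14) (nat_lit 5))
    (@En.n l6991 (nat_lit 4322) (nat_lit 14) (nat_lit 8))
    (@En.n l3 (nat_lit 4278) (nat_lit 15) (nat_lit 2))))
  (@Cl.mk (nat_lit 0x3000300080004000d000c000a0003000d0004000800030006000d000d000c) (nat_lit 0x50b820b0600a35) (nat_lit 16) Lb.e (@T16.mk En
    (@En.n l25052 (nat_lit 3869) (nat_lit 0) (nat_lit 12))
    (@En.i (nat_lit 4278) (nat_lit 3) (nat_lit 13))
    (@En.n l3523 (nat_lit 8851) (nat_lit 2) (nat_lit 13))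
    (@En.n l6142 (nat_lit 3075) (nat_lit 12) (nat_lit 6))
    (@En.n l18 (nat_lit 4277) (nat_lit 4) (nat_lit 3))
    (@En.n l6140 (nat_lit 3629) (nat_lit 0) (nat_lit 8))
    (@En.n l4172 (nat_lit 1152) (nat_lit 6) (nat_lit 4))
    (@En.i (nat_lit 4276) (nat_lit 8) (nat_lit 13))
    (@En.n l11705 (nat_lit 4280) (nat_lit 8) (nat_lit 3))
    (@En.i (nat_lit 1073) (nat_lit 0) (nat_lit 10))
    (@En.i (nat_lit 3747) (nat_lit 11) (nat_lit 12))
    (@En.i (nat_lit 5629) (nat_lit 12) (nat_lit 13))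
    (@En.n l4190 (nat_lit 3859) (nat_lit 7) (nat_lit 4))
    (@En.n l3517 (nat_lit 4245) (nat_lit 14) (nat_lit 8))
    (@En.n l6950 (nat_lit 4284) (nat_lit 13) (nat_lit 3))
    (@En.n l117 (nat_lit 4278) (nat_lit 0) (nat_lit 3))))
  (@Cl.mk (nat_lit 0x3000300080004000d0009000d0003000d0003000800030007000d000d000c) (nat_lit 0x50b2b0b0600ab6) (nat_lit 16) Lb.e (@T16.mk En
    (@En.n l6444 (nat_lit 3870) (nat_lit 0) (nat_lit 12))
    (@En.n l14697 (nat_lit 3746) (nat_lit 3) (nat_lit 13))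
    (@En.n l3517 (nat_lit 8872) (nat_lit 12) (nat_lit 13))
    (@En.i (nat_lit 3796) (nat_lit 3) (nat_lit 7))
    (@En.n l8329 (nat_lit 3741) (nat_lit 4) (nat_lit 3))
    (@En.n l649 (nat_lit 5548) (nat_lit 0) (nat_lit 8))
    (@En.n l37743 (nat_lit 3747) (nat_lit 6) (nat_lit 3))
    (@En.i (nat_lit 4738) (nat_lit 0) (nat_lit 13))
    (@En.n l25258 (nat_lit 4279) (nat_lit 8) (nat_lit 3))
    (@En.n l2038 (nat_lit 3880) (nat_lit 0) (nat_lit 13))
    (@En.n l14514 (nat_lit 4276) (nat_lit 11) (nat_lit 9))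
    (@En.i (nat_lit 3981) (nat_lit 12) (nat_lit 13))
    (@En.n l403 (nat_lit 3872) (nat_lit 7) (nat_lit 4))
    (@En.i (nat_lit 4244) (nat_lit 14) (nat_lit 8))
    (@En.n l18 (nat_lit 4281) (nat_lit 13) (nat_lit 3))
    (@En.n l11245 (nat_lit 3746) (nat_lit 0) (nat_lit 3))))
  (@Cl.mk (nat_lit 0x2000d000300080003000d0009000d0003000d0003000800030007000e000d) (nat_lit 0x2010b2b0506002b) (nat_lit 16) Lb.e (@T16.mk En
    (@En.n l396 (nat_lit 4280) (nat_lit 2) (nat_lit 13))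
    (@En.n l476 (nat_lit 8861) (nat_lit 1) (nat_lit 14))
    (@En.i (nat_lit 3799) (nat_lit 2) (nat_lit 7))
    (@En.n l4108 (nat_lit 4283) (nat_lit 3) (nat_lit 3))
    (@En.n l649 (nat_lit 5547) (nat_lit 0) (nat_lit 8))
    (@En.n l10969 (nat_lit 4282) (nat_lit 5) (nat_lit 3))
    (@En.i (nat_lit 4740) (nat_lit 0) (nat_lit 13))
    (@En.n l1865 (nat_lit 4284) (nat_lit 7) (nat_lit 3))
    (@En.n l2038 (nat_lit 3732) (nat_lit 0) (nat_lit 13))
    (@En.i (nat_lit 4285) (nat_lit 10) (nat_lit 9))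
    (@En.i (nat_lit 3985) (nat_lit 11) (nat_lit 13))
    (@En.n l2364 (nat_lit 3870) (nat_lit 11) (nat_lit 3))
    (@En.i (nat_lit 3416) (nat_lit 0) (nat_lit 8))
    (@En.i (nat_lit 4280) (nat_lit 14) (nat_lit 3))
    (@En.n l476 (nat_lit 468) (nat_lit 0) (nat_lit 13))
    (@En.n l50 (nat_lit 4281) (nat_lit 15) (nat_lit 2))))
  (@Cl.mk (nat_lit 0x2000d000300080003000c0009000d000c00040003000800040007000e000d) (nat_lit 0x202082b3006002b) (nat_lit 16) Lb.e (@T16.mk En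
    (@En.n l14576 (nat_lit 3747) (nat_lit 2) (nat_lit 13))
    (@En.n l1836 (nat_lit 8863) (nat_lit 1) (nat_lit 14))
    (@En.n l39385 (nat_lit 3894) (nat_lit 11) (nat_lit 7))
    (@En.n l2438 (nat_lit 855) (nat_lit 3) (nat_lit 4))
    (@En.n l11010 (nat_lit 6180) (nat_lit 4) (nat_lit 8))
    (@En.n l10862 (nat_lit 4281) (nat_lit 5) (nat_lit 3))
    (@En.n l18616 (nat_lit 2993) (nat_lit 0) (nat_lit 4))
    (@En.n l4684 (nat_lit 4283) (nat_lit 8) (nat_lit 12))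
    (@En.i (nat_lit 3877) (nat_lit 9) (nat_lit 13))
    (@En.n l8361 (nat_lit 4288) (nat_lit 10) (nat_lit 9))
    (@En.i (nat_lit 5430) (nat_lit 11) (nat_lit 12))
    (@En.n l2364 (nat_lit 3871) (nat_lit 11) (nat_lit 3))
    (@En.i (nat_lit 3414) (nat_lit 0) (nat_lit 8))
    (@En.n l8252 (nat_lit 3747) (nat_lit 14) (nat_lit 3))
    (@En.n l1836 (nat_lit 462) (nat_lit 0) (nat_lit 13))
    (@En.n l50 (nat_lit 4282) (nat_lit 15) (nat_lit 2))))
  (@Cl.mk (nat_lit 0x2000d000300090003000d0009000c0003000d0007000400030007000e000d) (nat_lit 0x2030922070000a5) (nat_lit 16) Lb.e (@T16.mk En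
    (@En.i (nat_lit 3741) (nat_lit 2) (nat_lit 13))
    (@En.n l1501 (nat_lit 8859) (nat_lit 1) (nat_lit 14))
    (@En.n l13399 (nat_lit 4282) (nat_lit 2) (nat_lit 7))
    (@En.n l8097 (nat_lit 4281) (nat_lit 3) (nat_lit 3))
    (@En.i (nat_lit 858) (nat_lit 0) (nat_lit 4))
    (@En.n l13399 (nat_lit 4292) (nat_lit 5) (nat_lit 7))
    (@En.n l11391 (nat_lit 4742) (nat_lit 7) (nat_lit 13))
    (@En.n l13382 (nat_lit 4286) (nat_lit 7) (nat_lit 3))
    (@En.i (nat_lit 3730) (nat_lit 0) (nat_lit 12))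
    (@En.n l7987 (nat_lit 4287) (nat_lit 10) (nat_lit 9))
    (@En.i (nat_lit 5428) (nat_lit 11) (nat_lit 13))
    (@En.i (nat_lit 3868) (nat_lit 11) (nat_lit 3))
    (@En.n l13399 (nat_lit 3415) (nat_lit 0) (nat_lit 9))
    (@En.n l117 (nat_lit 3741) (nat_lit 14) (nat_lit 3))
    (@En.n l1501 (nat_lit 466) (nat_lit 0) (nat_lit 13))
    (@En.n l3 (nat_lit 4283) (nat_lit 15) (nat_lit 2))))
  (@Cl.mk (nat_lit 0x2000d000300080003000d000c000a0003000d0004000800030006000e000d) (nat_lit 0x2010b920506002b) (nat_lit 16) Lb.e (@T16.mk En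
    (@En.n l2544 (nat_lit 4279) (nat_lit 2) (nat_lit 13))
    (@En.n l3337 (nat_lit 8850) (nat_lit 1) (nat_lit 14))
    (@En.n l253 (nat_lit 3889) (nat_lit 12) (nat_lit 6))
    (@En.n l7511 (nat_lit 4286) (nat_lit 3) (nat_lit 3))
    (@En.i (nat_lit 5542) (nat_lit 0) (nat_lit 8))
    (@En.n l7512 (nat_lit 1218) (nat_lit 5) (nat_lit 4))
    (@En.n l14619 (nat_lit 4285) (nat_lit 7) (nat_lit 13))
    (@En.n l2869 (nat_lit 4281) (nat_lit 7) (nat_lit 3))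
    (@En.n l2544 (nat_lit 1121) (nat_lit 9) (nat_lit 10))
    (@En.n l7882 (nat_lit 4282) (nat_lit 10) (nat_lit 12))
    (@En.i (nat_lit 5630) (nat_lit 11) (nat_lit 13))
    (@En.i (nat_lit 3869) (nat_lit 11) (nat_lit 3))
    (@En.i (nat_lit 3417) (nat_lit 0) (nat_lit 8))
    (@En.n l3815 (nat_lit 4279) (nat_lit 14) (nat_lit 3))
    (@En.n l3337 (nat_lit 473) (nat_lit 0) (nat_lit 13))
    (@En.n l11 (nat_lit 4284) (nat_lit 15) (nat_lit 2))))
  (@Cl.mk (nat_lit 0x2000d0003000900030009000d000a000d00030007000300070006000e000d) (nat_lit 0x20101a240000035) (nat_lit 16) Lb.e (@T16.mk En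
    (@En.n l17508 (nat_lit 4276) (nat_lit 2) (nat_lit 13))
    (@En.n l1770 (nat_lit 4289) (nat_lit 1) (nat_lit 14))
    (@En.n l649 (nat_lit 4284) (nat_lit 2) (nat_lit 6))
    (@En.n l8361 (nat_lit 3686) (nat_lit 3) (nat_lit 7))
    (@En.n l5014 (nat_lit 4287) (nat_lit 4) (nat_lit 3))
    (@En.n l1867 (nat_lit 5546) (nat_lit 0) (nat_lit 7))
    (@En.n l17509 (nat_lit 4288) (nat_lit 6) (nat_lit 3))
    (@En.n l9928 (nat_lit 4750) (nat_lit 0) (nat_lit 13))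
    (@En.n l17510 (nat_lit 1070) (nat_lit 9) (nat_lit 10))
    (@En.n l5014 (nat_lit 4283) (nat_lit 10) (nat_lit 13))
    (@En.i (nat_lit 2325) (nat_lit 11) (nat_lit 9))
    (@En.n l2364 (nat_lit 3866) (nat_lit 11) (nat_lit 3))
    (@En.i (nat_lit 3418) (nat_lit 0) (nat_lit 9))
    (@En.n l14514 (nat_lit 4276) (nat_lit 14) (nat_lit 3))
    (@En.n l476 (nat_lit 483) (nat_lit 0) (nat_lit 13))
    (@En.n l50 (nat_lit 4285) (nat_lit 15) (nat_lit 2))))
  (@Cl.mk (nat_lit 0x2000d000300090003000d000b000a0003000d0007000500030006000e000d) (nat_lit 0x2050912060000a5) (nat_lit 16) Lb.e (@T16.mk En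
    (@En.i (nat_lit 4277) (nat_lit 2) (nat_lit 13))
    (@En.n l5854 (nat_lit 8858) (nat_lit 1) (nat_lit 14))
    (@En.n l13301 (nat_lit 2993) (nat_lit 12) (nat_lit 6))
    (@En.n l947 (nat_lit 4284) (nat_lit 3) (nat_lit 3))
    (@En.n l1927 (nat_lit 309) (nat_lit 0) (nat_lit 5))
    (@En.n l13375 (nat_lit 4293) (nat_lit 5) (nat_lit 7))
    (@En.n l397 (nat_lit 4287) (nat_lit 7) (nat_lit 13))
    (@En.n l1927 (nat_lit 4283) (nat_lit 7) (nat_lit 3))
    (@En.n l61 (nat_lit 1119) (nat_lit 9) (nat_lit 10))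
    (@En.n l6064 (nat_lit 855) (nat_lit 10) (nat_lit 11))
    (@En.i (nat_lit 5634) (nat_lit 11) (nat_lit 13))
    (@En.i (nat_lit 3867) (nat_lit 11) (nat_lit 3))
    (@En.n l947 (nat_lit 3413) (nat_lit 0) (nat_lit 9))
    (@En.n l117 (nat_lit 4277) (nat_lit 14) (nat_lit 3))
    (@En.i (nat_lit 476) (nat_lit 0) (nat_lit 13))
    (@En.n l3 (nat_lit 4286) (nat_lit 15) (nat_lit 2))))
  (@Cl.mk (nat_lit 0x2000d0003000a00030009000c000a000d00060004000300070006000e000d) (nat_lit 0x2050112500000a6) (nat_lit 16) Lb.e (@T16.mk En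
    (@En.i (nat_lit 4274) (nat_lit 2) (nat_lit 13))
    (@En.i (nat_lit 4290) (nat_lit 1) (nat_lit 14))
    (@En.n l13384 (nat_lit 4286) (nat_lit 2) (nat_lit 6))
    (@En.n l6204 (nat_lit 4288) (nat_lit 3) (nat_lit 7))
    (@En.n l9880 (nat_lit 4285) (nat_lit 4) (nat_lit 3))
    (@En.n l7 (nat_lit 318) (nat_lit 0) (nat_lit 4))
    (@En.n l8523 (nat_lit 5657) (nat_lit 6) (nat_lit 6))
    (@En.i (nat_lit 4747) (nat_lit 8) (nat_lit 13))
    (@En.n l396 (nat_lit 1065) (nat_lit 9) (nat_lit 10))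
    (@En.i (nat_lit 858) (nat_lit 6) (nat_lit 12))
    (@En.n l564 (nat_lit 2323) (nat_lit 11) (nat_lit 9))
    (@En.i (nat_lit 3864) (nat_lit 11) (nat_lit 3))
    (@En.i (nat_lit 3420) (nat_lit 0) (nat_lit 10))
    (@En.n l117 (nat_lit 4274) (nat_lit 14) (nat_lit 3))
    (@En.i (nat_lit 479) (nat_lit 0) (nat_lit 13))
    (@En.n l3 (nat_lit 4287) (nat_lit 15) (nat_lit 2))))
noncomputable def a268 : T16 Cl := @T16.mk Cl
  (@Cl.mk (nat_lit 0x2000d0003000900030009000d000c000b00030007000400070005000e000d) (nat_lit 0x20301a2200000a5) (nat_lit 16) Lb.e (@T16.mk En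
    (@En.i (nat_lit 4275) (nat_lit 2) (nat_lit 13))
    (@En.i (nat_lit 4291) (nat_lit 1) (nat_lit 14))
    (@En.n l11386 (nat_lit 1218) (nat_lit 2) (nat_lit 5))
    (@En.n l1723 (nat_lit 4001) (nat_lit 11) (nat_lit 7))
    (@En.n l6042 (nat_lit 317) (nat_lit 4) (nat_lit 4))
    (@En.n l2869 (nat_lit 5656) (nat_lit 5) (nat_lit 7))
    (@En.n l7667 (nat_lit 4285) (nat_lit 6) (nat_lit 3))
    (@En.n l6444 (nat_lit 376) (nat_lit 0) (nat_lit 11))
    (@En.n l5838 (nat_lit 4287) (nat_lit 9) (nat_lit 12))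
    (@En.n l601 (nat_lit 4286) (nat_lit 10) (nat_lit 13))
    (@En.n l1353 (nat_lit 2324) (nat_lit 11) (nat_lit 9))
    (@En.i (nat_lit 3865) (nat_lit 11) (nat_lit 3))
    (@En.n l2869 (nat_lit 3419) (nat_lit 0) (nat_lit 9))
    (@En.n l117 (nat_lit 4275) (nat_lit 14) (nat_lit 3))
    (@En.i (nat_lit 482) (nat_lit 0) (nat_lit 13))
    (@En.n l3 (nat_lit 4288) (nat_lit 15) (nat_lit 2))))
  (@Cl.mk (nat_lit 0x20009000d0004000900030009000d0007000d0003000700030007000e000c) (nat_lit 0x30001600000025) (nat_lit 16) Lb.e (@T16.mk En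
    (@En.n l396 (nat_lit 12151) (nat_lit 11) (nat_lit 12))
    (@En.n l1690 (nat_lit 8862) (nat_lit 1) (nat_lit 14))
    (@En.i (nat_lit 6911) (nat_lit 2) (nat_lit 7))
    (@En.n l5011 (nat_lit 4290) (nat_lit 3) (nat_lit 3))
    (@En.n l1897 (nat_lit 11230) (nat_lit 0) (nat_lit 7))
    (@En.n l5760 (nat_lit 4291) (nat_lit 5) (nat_lit 3))
    (@En.n l5011 (nat_lit 7206) (nat_lit 7) (nat_lit 13))
    (@En.i (nat_lit 11979) (nat_lit 7) (nat_lit 7))
    (@En.n l2038 (nat_lit 8859) (nat_lit 9) (nat_lit 13))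
    (@En.n l17556 (nat_lit 2322) (nat_lit 10) (nat_lit 9))
    (@En.n l2364 (nat_lit 12157) (nat_lit 10) (nat_lit 3))
    (@En.i (nat_lit 11034) (nat_lit 0) (nat_lit 9))
    (@En.n l32472 (nat_lit 8252) (nat_lit 6) (nat_lit 4))
    (@En.i (nat_lit 4281) (nat_lit 14) (nat_lit 13))
    (@En.n l9591 (nat_lit 9549) (nat_lit 1) (nat_lit 9))
    (@En.n l50 (nat_lit 4289) (nat_lit 15) (nat_lit 2))))
  (@Cl.mk (nat_lit 0x20009000d0004000a00030009000c0007000d0006000400030007000e000c) (nat_lit 0x30001000000090) (nat_lit 16) Lb.e (@T16.mk En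
    (@En.n l1208 (nat_lit 12152) (nat_lit 13) (nat_lit 12))
    (@En.n l9771 (nat_lit 8860) (nat_lit 1) (nat_lit 14))
    (@En.n l6204 (nat_lit 4291) (nat_lit 2) (nat_lit 7))
    (@En.n l3643 (nat_lit 4289) (nat_lit 3) (nat_lit 3))
    (@En.n l7 (nat_lit 7595) (nat_lit 0) (nat_lit 4))
    (@En.n l5572 (nat_lit 11211) (nat_lit 5) (nat_lit 6))
    (@En.i (nat_lit 4754) (nat_lit 7) (nat_lit 13))
    (@En.n l396 (nat_lit 11975) (nat_lit 7) (nat_lit 7))
    (@En.i (nat_lit 8867) (nat_lit 9) (nat_lit 12))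
    (@En.n l564 (nat_lit 2321) (nat_lit 10) (nat_lit 9))
    (@En.i (nat_lit 12158) (nat_lit 10) (nat_lit 3))
    (@En.n l5572 (nat_lit 11033) (nat_lit 0) (nat_lit 10))
    (@En.n l117 (nat_lit 8251) (nat_lit 8) (nat_lit 4))
    (@En.n l1208 (nat_lit 4283) (nat_lit 14) (nat_lit 13))
    (@En.i (nat_lit 8842) (nat_lit 11) (nat_lit 9))
    (@En.n l3 (nat_lit 4290) (nat_lit 15) (nat_lit 2))))
  (@Cl.mk (nat_lit 0x20008000d0004000900030009000d000c00080003000700040007000e000c) (nat_lit 0x30001510000090) (nat_lit 16) Lb.e (@T16.mk En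
    (@En.n l6042 (nat_lit 12153) (nat_lit 11) (nat_lit 12))
    (@En.n l723 (nat_lit 8864) (nat_lit 1) (nat_lit 14))
    (@En.n l1723 (nat_lit 7023) (nat_lit 2) (nat_lit 7))
    (@En.n l6042 (nat_lit 7593) (nat_lit 3) (nat_lit 4))
    (@En.n l2869 (nat_lit 11212) (nat_lit 4) (nat_lit 7))
    (@En.n l3348 (nat_lit 4289) (nat_lit 5) (nat_lit 3))
    (@En.i (nat_lit 11631) (nat_lit 0) (nat_lit 8))
    (@En.n l5838 (nat_lit 4290) (nat_lit 8) (nat_lit 12))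
    (@En.n l3749 (nat_lit 8858) (nat_lit 9) (nat_lit 13))
    (@En.n l1353 (nat_lit 890) (nat_lit 10) (nat_lit 9))
    (@En.i (nat_lit 7597) (nat_lit 10) (nat_lit 3))
    (@En.n l7882 (nat_lit 11032) (nat_lit 0) (nat_lit 9))
    (@En.n l117 (nat_lit 8250) (nat_lit 6) (nat_lit 4))
    (@En.n l3749 (nat_lit 4282) (nat_lit 14) (nat_lit 13))
    (@En.i (nat_lit 8835) (nat_lit 1) (nat_lit 8))
    (@En.n l3 (nat_lit 4291) (nat_lit 15) (nat_lit 2))))
  (@Cl.mk (nat_lit 0x2000c0003000900080004000d000a000d00030007000300080006000e000d) (nat_lit 0x600201220005000) (nat_lit 16) Lb.e (@T16.mk En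
    (@En.n l396 (nat_lit 6182) (nat_lit 2) (nat_lit 13))
    (@En.n l476 (nat_lit 7099) (nat_lit 1) (nat_lit 14))
    (@En.n l11010 (nat_lit 6180) (nat_lit 2) (nat_lit 6))
    (@En.n l18989 (nat_lit 3635) (nat_lit 3) (nat_lit 8))
    (@En.n l19553 (nat_lit 6174) (nat_lit 4) (nat_lit 3))
    (@En.n l8874 (nat_lit 5543) (nat_lit 0) (nat_lit 7))
    (@En.n l8013 (nat_lit 4293) (nat_lit 6) (nat_lit 3))
    (@En.n l2038 (nat_lit 3939) (nat_lit 0) (nat_lit 13))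
    (@En.n l11008 (nat_lit 5657) (nat_lit 9) (nat_lit 10))
    (@En.n l17747 (nat_lit 1324) (nat_lit 10) (nat_lit 13))
    (@En.i (nat_lit 9741) (nat_lit 10) (nat_lit 4))
    (@En.i (nat_lit 4281) (nat_lit 12) (nat_lit 8))
    (@En.n l11008 (nat_lit 10010) (nat_lit 13) (nat_lit 9))
    (@En.i (nat_lit 6182) (nat_lit 14) (nat_lit 3))
    (@En.n l476 (nat_lit 7861) (nat_lit 0) (nat_lit 12))
    (@En.n l50 (nat_lit 4292) (nat_lit 15) (nat_lit 2))))
  (@Cl.mk (nat_lit 0x2000c0003000900080004000d000c000b00030007000400080005000e000d) (nat_lit 0x600201a00004000) (nat_lit 16) Lb.e (@T16.mk En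
    (@En.n l855 (nat_lit 6184) (nat_lit 2) (nat_lit 13))
    (@En.n l23116 (nat_lit 7100) (nat_lit 1) (nat_lit 14))
    (@En.n l17 (nat_lit 6000) (nat_lit 2) (nat_lit 5))
    (@En.n l1003 (nat_lit 3626) (nat_lit 3) (nat_lit 8))
    (@En.n l3851 (nat_lit 6167) (nat_lit 4) (nat_lit 4))
    (@En.n l617 (nat_lit 5658) (nat_lit 5) (nat_lit 7))
    (@En.n l17017 (nat_lit 4292) (nat_lit 6) (nat_lit 3))
    (@En.n l855 (nat_lit 6160) (nat_lit 0) (nat_lit 11))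
    (@En.n l35357 (nat_lit 6174) (nat_lit 9) (nat_lit 12))
    (@En.n l5347 (nat_lit 1317) (nat_lit 10) (nat_lit 13))
    (@En.n l4542 (nat_lit 9740) (nat_lit 10) (nat_lit 4))
    (@En.n l2643 (nat_lit 4284) (nat_lit 12) (nat_lit 8))
    (@En.i (nat_lit 8212) (nat_lit 13) (nat_lit 9))
    (@En.n l17962 (nat_lit 6184) (nat_lit 14) (nat_lit 3))
    (@En.n l23116 (nat_lit 7761) (nat_lit 0) (nat_lit 12))
    (@En.n l28 (nat_lit 4293) (nat_lit 15) (nat_lit 2))))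
  (@Cl.mk (nat_lit 0x300090004000d000a00090003000c0007000a000600040007000d000c0006) (nat_lit 0x107220402000a40) (nat_lit 16) Lb.e (@T16.mk En
    (@En.n l20453 (nat_lit 3301) (nat_lit 0) (nat_lit 6))
    (@En.n l20454 (nat_lit 4238) (nat_lit 8) (nat_lit 12))
    (@En.n l20455 (nat_lit 10293) (nat_lit 2) (nat_lit 13))
    (@En.n l3532 (nat_lit 2785) (nat_lit 11) (nat_lit 7))
    (@En.n l3532 (nat_lit 4322) (nat_lit 4) (nat_lit 4))
    (@En.i (nat_lit 9552) (nat_lit 0) (nat_lit 6))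
    (@En.n l20454 (nat_lit 4266) (nat_lit 8) (nat_lit 10))
    (@En.n l217 (nat_lit 10132) (nat_lit 14) (nat_lit 7))
    (@En.n l20456 (nat_lit 4228) (nat_lit 9) (nat_lit 12))
    (@En.n l20457 (nat_lit 4295) (nat_lit 9) (nat_lit 3))
    (@En.n l61 (nat_lit 1184) (nat_lit 0) (nat_lit 9))
    (@En.n l8134 (nat_lit 3124) (nat_lit 12) (nat_lit 10))
    (@En.n l1897 (nat_lit 10731) (nat_lit 2) (nat_lit 13))
    (@En.i (nat_lit 1336) (nat_lit 3) (nat_lit 4))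
    (@En.n l1690 (nat_lit 2837) (nat_lit 4) (nat_lit 9))
    (@En.n l152 (nat_lit 4237) (nat_lit 15) (nat_lit 3))))
  (@Cl.mk (nat_lit 0x300090004000d0008000b0003000c0007000a000500040008000d000c0006) (nat_lit 0x70b190907002b40) (nat_lit 16) Lb.e (@T16.mk En
    (@En.n l6670 (nat_lit 3303) (nat_lit 0) (nat_lit 6))
    (@En.i (nat_lit 4239) (nat_lit 8) (nat_lit 12))
    (@En.n l117 (nat_lit 10294) (nat_lit 9) (nat_lit 13))
    (@En.n l32780 (nat_lit 4251) (nat_lit 3) (nat_lit 8))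
    (@En.n l50 (nat_lit 4250) (nat_lit 4) (nat_lit 4))
    (@En.n l32781 (nat_lit 9557) (nat_lit 5) (nat_lit 5))
    (@En.i (nat_lit 3739) (nat_lit 8) (nat_lit 10))
    (@En.n l32782 (nat_lit 9792) (nat_lit 14) (nat_lit 7))
    (@En.n l20765 (nat_lit 4521) (nat_lit 9) (nat_lit 12))
    (@En.n l32783 (nat_lit 4294) (nat_lit 9) (nat_lit 3))
    (@En.n l1459 (nat_lit 4563) (nat_lit 0) (nat_lit 11))
    (@En.n l16864 (nat_lit 4228) (nat_lit 12) (nat_lit 8))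
    (@En.n l6670 (nat_lit 10030) (nat_lit 2) (nat_lit 13))
    (@En.n l32784 (nat_lit 2753) (nat_lit 3) (nat_lit 4))
    (@En.n l32785 (nat_lit 4296) (nat_lit 4) (nat_lit 9))
    (@En.n l16861 (nat_lit 4240) (nat_lit 15) (nat_lit 3))))
  (@Cl.mk (nat_lit 0x3000b0007000b000a0006000500090005000d000600090003000d0007000a) (nat_lit 0x201800504060b00) (nat_lit 16) Lb.e (@T16.mk En
    (@En.n l39263 (nat_lit 4474) (nat_lit 8) (nat_lit 10))
    (@En.n l24832 (nat_lit 4226) (nat_lit 14) (nat_lit 7))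
    (@En.n l28688 (nat_lit 10025) (nat_lit 2) (nat_lit 13))
    (@En.n l39264 (nat_lit 4298) (nat_lit 3) (nat_lit 3))
    (@En.n l35448 (nat_lit 4550) (nat_lit 9) (nat_lit 9))
    (@En.n l28688 (nat_lit 3304) (nat_lit 5) (nat_lit 6))
    (@En.n l28689 (nat_lit 3409) (nat_lit 2) (nat_lit 13))
    (@En.n l7 (nat_lit 12056) (nat_lit 7) (nat_lit 5))
    (@En.n l39265 (nat_lit 4297) (nat_lit 10) (nat_lit 9))
    (@En.i (nat_lit 4300) (nat_lit 11) (nat_lit 5))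
    (@En.n l38826 (nat_lit 10917) (nat_lit 6) (nat_lit 6))
    (@En.n l39266 (nat_lit 4295) (nat_lit 6) (nat_lit 10))
    (@En.i (nat_lit 3042) (nat_lit 8) (nat_lit 11))
    (@En.n l39267 (nat_lit 9793) (nat_lit 14) (nat_lit 7))
    (@En.n l39268 (nat_lit 4523) (nat_lit 11) (nat_lit 11))
    (@En.n l39269 (nat_lit 2837) (nat_lit 15) (nat_lit 3))))
  (@Cl.mk (nat_lit 0x30008000c000b000600090004000d000500080003000c0007000d000a0004) (nat_lit 0x12040305060910) (nat_lit 16) Lb.e (@T16.mk En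
    (@En.n l20421 (nat_lit 2786) (nat_lit 0) (nat_lit 4))
    (@En.n l17176 (nat_lit 4296) (nat_lit 0) (nat_lit 10))
    (@En.n l9463 (nat_lit 4575) (nat_lit 1) (nat_lit 13))
    (@En.i (nat_lit 4225) (nat_lit 3) (nat_lit 7))
    (@En.n l3633 (nat_lit 10026) (nat_lit 3) (nat_lit 12))
    (@En.n l9310 (nat_lit 4299) (nat_lit 5) (nat_lit 3))
    (@En.n l36413 (nat_lit 4558) (nat_lit 10) (nat_lit 8))
    (@En.n l27426 (nat_lit 3306) (nat_lit 7) (nat_lit 5))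
    (@En.n l127 (nat_lit 4248) (nat_lit 2) (nat_lit 13))
    (@En.n l11 (nat_lit 10437) (nat_lit 9) (nat_lit 4))
    (@En.n l152 (nat_lit 2328) (nat_lit 9) (nat_lit 9))
    (@En.n l11072 (nat_lit 10916) (nat_lit 5) (nat_lit 6))
    (@En.n l55 (nat_lit 4251) (nat_lit 5) (nat_lit 11))
    (@En.n l17176 (nat_lit 3039) (nat_lit 7) (nat_lit 12))
    (@En.i (nat_lit 9789) (nat_lit 14) (nat_lit 8))
    (@En.n l1329 (nat_lit 4300) (nat_lit 15) (nat_lit 3))))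
  (@Cl.mk (nat_lit 0x3000b0008000b00090006000500090005000d000800070003000d0007000a) (nat_lit 0x259200504500507) (nat_lit 16) Lb.e (@T16.mk En
    (@En.n l32786 (nat_lit 4473) (nat_lit 8) (nat_lit 10))
    (@En.n l23610 (nat_lit 2836) (nat_lit 14) (nat_lit 7))
    (@En.i (nat_lit 10625) (nat_lit 2) (nat_lit 13))
    (@En.n l32787 (nat_lit 4296) (nat_lit 3) (nat_lit 3))
    (@En.i (nat_lit 2601) (nat_lit 0) (nat_lit 7))
    (@En.n l32788 (nat_lit 2834) (nat_lit 5) (nat_lit 8))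
    (@En.n l32789 (nat_lit 2828) (nat_lit 2) (nat_lit 13))
    (@En.n l117 (nat_lit 12054) (nat_lit 7) (nat_lit 5))
    (@En.n l617 (nat_lit 4299) (nat_lit 10) (nat_lit 9))
    (@En.n l32790 (nat_lit 4301) (nat_lit 11) (nat_lit 5))
    (@En.n l15016 (nat_lit 10615) (nat_lit 6) (nat_lit 6))
    (@En.n l32791 (nat_lit 2753) (nat_lit 12) (nat_lit 9))
    (@En.n l26935 (nat_lit 4196) (nat_lit 7) (nat_lit 11))
    (@En.n l32792 (nat_lit 9655) (nat_lit 14) (nat_lit 8))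
    (@En.n l30473 (nat_lit 4527) (nat_lit 11) (nat_lit 11))
    (@En.n l32793 (nat_lit 2835) (nat_lit 15) (nat_lit 3))))
  (@Cl.mk (nat_lit 0x30009000c000a000600090004000d000700060003000c0007000d000a0004) (nat_lit 0x717040300050980) (nat_lit 16) Lb.e (@T16.mk En
    (@En.n l20424 (nat_lit 2807) (nat_lit 0) (nat_lit 4))
    (@En.n l61 (nat_lit 4298) (nat_lit 0) (nat_lit 10))
    (@En.n l20295 (nat_lit 4578) (nat_lit 1) (nat_lit 13))
    (@En.n l20425 (nat_lit 4224) (nat_lit 14) (nat_lit 7))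
    (@En.i (nat_lit 10630) (nat_lit 3) (nat_lit 12))
    (@En.n l20426 (nat_lit 4297) (nat_lit 5) (nat_lit 3))
    (@En.i (nat_lit 2389) (nat_lit 0) (nat_lit 6))
    (@En.n l20427 (nat_lit 4305) (nat_lit 7) (nat_lit 7))
    (@En.n l9914 (nat_lit 4308) (nat_lit 2) (nat_lit 13))
    (@En.n l117 (nat_lit 10438) (nat_lit 9) (nat_lit 4))
    (@En.n l20428 (nat_lit 2329) (nat_lit 9) (nat_lit 9))
    (@En.n l9916 (nat_lit 10616) (nat_lit 5) (nat_lit 6))
    (@En.n l4245 (nat_lit 2751) (nat_lit 13) (nat_lit 10))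
    (@En.n l3851 (nat_lit 3041) (nat_lit 6) (nat_lit 12))
    (@En.i (nat_lit 9785) (nat_lit 14) (nat_lit 9))
    (@En.n l20429 (nat_lit 4301) (nat_lit 15) (nat_lit 3))))
  (@Cl.mk (nat_lit 0x30008000c000b000500090004000d000500080003000d0007000d0003000b) (nat_lit 0x12040305050804) (nat_lit 16) Lb.e (@T16.mk En
    (@En.n l1353 (nat_lit 4551) (nat_lit 0) (nat_lit 11))
    (@En.n l5368 (nat_lit 4302) (nat_lit 15) (nat_lit 3))
    (@En.n l10858 (nat_lit 4583) (nat_lit 0) (nat_lit 13))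
    (@En.n l3471 (nat_lit 4223) (nat_lit 3) (nat_lit 7))
    (@En.n l11408 (nat_lit 10603) (nat_lit 2) (nat_lit 13))
    (@En.n l3519 (nat_lit 4301) (nat_lit 5) (nat_lit 3))
    (@En.n l35448 (nat_lit 4704) (nat_lit 10) (nat_lit 8))
    (@En.n l38374 (nat_lit 3308) (nat_lit 7) (nat_lit 5))
    (@En.n l14697 (nat_lit 4247) (nat_lit 2) (nat_lit 13))
    (@En.n l7 (nat_lit 10436) (nat_lit 9) (nat_lit 4))
    (@En.n l32613 (nat_lit 2333) (nat_lit 10) (nat_lit 9))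
    (@En.n l35448 (nat_lit 11469) (nat_lit 9) (nat_lit 5))
    (@En.n l38375 (nat_lit 4250) (nat_lit 5) (nat_lit 11))
    (@En.i (nat_lit 3043) (nat_lit 7) (nat_lit 12))
    (@En.n l3528 (nat_lit 10887) (nat_lit 13) (nat_lit 8))
    (@En.n l6961 (nat_lit 4297) (nat_lit 15) (nat_lit 3))))
  (@Cl.mk (nat_lit 0x30009000c000a000500090004000d000700060003000d0007000d0003000b) (nat_lit 0x786040000050804) (nat_lit 16) Lb.e (@T16.mk En
    (@En.n l3098 (nat_lit 4553) (nat_lit 0) (nat_lit 11))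
    (@En.n l3098 (nat_lit 4303) (nat_lit 15) (nat_lit 3))
    (@En.n l18910 (nat_lit 4581) (nat_lit 0) (nat_lit 13))
    (@En.i (nat_lit 4222) (nat_lit 14) (nat_lit 7))
    (@En.n l3098 (nat_lit 10633) (nat_lit 2) (nat_lit 13))
    (@En.n l2832 (nat_lit 4300) (nat_lit 5) (nat_lit 3))
    (@En.n l3098 (nat_lit 2388) (nat_lit 0) (nat_lit 6))
    (@En.n l22752 (nat_lit 4304) (nat_lit 7) (nat_lit 7))
    (@En.n l22753 (nat_lit 4307) (nat_lit 2) (nat_lit 13))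
    (@En.n l6081 (nat_lit 10484) (nat_lit 9) (nat_lit 4))
    (@En.n l22767 (nat_lit 2330) (nat_lit 10) (nat_lit 9))
    (@En.n l429 (nat_lit 10619) (nat_lit 9) (nat_lit 5))
    (@En.n l12517 (nat_lit 2750) (nat_lit 13) (nat_lit 10))
    (@En.i (nat_lit 4197) (nat_lit 6) (nat_lit 12))
    (@En.i (nat_lit 4317) (nat_lit 13) (nat_lit 9))
    (@En.n l3098 (nat_lit 4299) (nat_lit 15) (nat_lit 3))))
  (@Cl.mk (nat_lit 0x3000b00040008000c000b000500080004000d000500080003000d000c0008) (nat_lit 0x300120403030b70) (nat_lit 16) Lb.e (@T16.mk En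
    (@En.i (nat_lit 5092) (nat_lit 0) (nat_lit 8))
    (@En.n l5 (nat_lit 4297) (nat_lit 4) (nat_lit 12))
    (@En.i (nat_lit 10600) (nat_lit 2) (nat_lit 13))
    (@En.n l2813 (nat_lit 4303) (nat_lit 3) (nat_lit 3))
    (@En.n l253 (nat_lit 4559) (nat_lit 10) (nat_lit 8))
    (@En.n l11 (nat_lit 3311) (nat_lit 5) (nat_lit 5))
    (@En.n l127 (nat_lit 4249) (nat_lit 2) (nat_lit 13))
    (@En.n l3535 (nat_lit 10482) (nat_lit 7) (nat_lit 4))
    (@En.n l152 (nat_lit 4423) (nat_lit 10) (nat_lit 8))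
    (@En.n l936 (nat_lit 11470) (nat_lit 9) (nat_lit 5))
    (@En.n l55 (nat_lit 4322) (nat_lit 5) (nat_lit 11))
    (@En.n l1329 (nat_lit 3044) (nat_lit 7) (nat_lit 12))
    (@En.n l4750 (nat_lit 10890) (nat_lit 11) (nat_lit 8))
    (@En.n l22796 (nat_lit 2801) (nat_lit 9) (nat_lit 4))
    (@En.i (nat_lit 4223) (nat_lit 0) (nat_lit 11))
    (@En.n l2843 (nat_lit 4300) (nat_lit 1) (nat_lit 3))))
  (@Cl.mk (nat_lit 0x3000b00040009000c000a000500080004000d000700060003000d000c0008) (nat_lit 0x307820100000560) (nat_lit 16) Lb.e (@T16.mk En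
    (@En.n l7670 (nat_lit 5089) (nat_lit 0) (nat_lit 8))
    (@En.n l217 (nat_lit 4299) (nat_lit 4) (nat_lit 12))
    (@En.n l9912 (nat_lit 10635) (nat_lit 2) (nat_lit 13))
    (@En.n l9913 (nat_lit 4302) (nat_lit 3) (nat_lit 3))
    (@En.i (nat_lit 2600) (nat_lit 0) (nat_lit 6))
    (@En.n l7670 (nat_lit 4306) (nat_lit 5) (nat_lit 7))
    (@En.n l9914 (nat_lit 4309) (nat_lit 2) (nat_lit 13))
    (@En.n l117 (nat_lit 10483) (nat_lit 7) (nat_lit 4))
    (@En.n l9915 (nat_lit 779) (nat_lit 10) (nat_lit 8))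
    (@En.n l9916 (nat_lit 10618) (nat_lit 9) (nat_lit 5))
    (@En.n l4245 (nat_lit 3480) (nat_lit 11) (nat_lit 10))
    (@En.n l3851 (nat_lit 4198) (nat_lit 6) (nat_lit 12))
    (@En.n l9917 (nat_lit 4316) (nat_lit 13) (nat_lit 9))
    (@En.n l9918 (nat_lit 2800) (nat_lit 9) (nat_lit 4))
    (@En.n l9919 (nat_lit 4222) (nat_lit 11) (nat_lit 11))
    (@En.n l9920 (nat_lit 4301) (nat_lit 1) (nat_lit 3))))
noncomputable def a269 : T16 Cl := @T16.mk Cl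
  (@Cl.mk (nat_lit 0x300090008000c000b0006000a0004000700050008000d0006000d0003000a) (nat_lit 0x719905000540704) (nat_lit 16) Lb.e (@T16.mk En
    (@En.n l38167 (nat_lit 4534) (nat_lit 0) (nat_lit 10))
    (@En.n l18755 (nat_lit 4306) (nat_lit 15) (nat_lit 3))
    (@En.n l38168 (nat_lit 4582) (nat_lit 0) (nat_lit 13))
    (@En.i (nat_lit 4221) (nat_lit 3) (nat_lit 6))
    (@En.n l38169 (nat_lit 10632) (nat_lit 2) (nat_lit 13))
    (@En.n l13673 (nat_lit 4531) (nat_lit 10) (nat_lit 8))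
    (@En.n l38170 (nat_lit 2573) (nat_lit 4) (nat_lit 5))
    (@En.n l38171 (nat_lit 4448) (nat_lit 11) (nat_lit 7))
    (@En.n l10862 (nat_lit 10486) (nat_lit 6) (nat_lit 4))
    (@En.n l38172 (nat_lit 2263) (nat_lit 9) (nat_lit 10))
    (@En.n l38173 (nat_lit 10838) (nat_lit 1) (nat_lit 6))
    (@En.n l28 (nat_lit 4307) (nat_lit 5) (nat_lit 11))
    (@En.n l38174 (nat_lit 4301) (nat_lit 13) (nat_lit 12))
    (@En.n l38175 (nat_lit 4300) (nat_lit 14) (nat_lit 8))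
    (@En.n l38176 (nat_lit 4315) (nat_lit 13) (nat_lit 9))
    (@En.n l29920 (nat_lit 4305) (nat_lit 15) (nat_lit 3))))
  (@Cl.mk (nat_lit 0x300090008000c000b0007000a0004000700050008000c0006000d00090004) (nat_lit 0x712905000540870) (nat_lit 16) Lb.e (@T16.mk En
    (@En.n l1203 (nat_lit 2804) (nat_lit 0) (nat_lit 4))
    (@En.n l36416 (nat_lit 2834) (nat_lit 0) (nat_lit 9))
    (@En.n l36417 (nat_lit 4580) (nat_lit 1) (nat_lit 13))
    (@En.n l3382 (nat_lit 2833) (nat_lit 3) (nat_lit 6))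
    (@En.i (nat_lit 10629) (nat_lit 7) (nat_lit 12))
    (@En.i (nat_lit 4549) (nat_lit 10) (nat_lit 8))
    (@En.n l36418 (nat_lit 2572) (nat_lit 6) (nat_lit 5))
    (@En.n l3337 (nat_lit 2851) (nat_lit 11) (nat_lit 7))
    (@En.n l36419 (nat_lit 10439) (nat_lit 8) (nat_lit 4))
    (@En.i (nat_lit 2324) (nat_lit 8) (nat_lit 10))
    (@En.n l6900 (nat_lit 10834) (nat_lit 1) (nat_lit 7))
    (@En.n l36420 (nat_lit 4308) (nat_lit 5) (nat_lit 11))
    (@En.n l36418 (nat_lit 4299) (nat_lit 13) (nat_lit 12))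
    (@En.n l3382 (nat_lit 4297) (nat_lit 14) (nat_lit 8))
    (@En.n l3337 (nat_lit 9784) (nat_lit 5) (nat_lit 9))
    (@En.n l36421 (nat_lit 4304) (nat_lit 15) (nat_lit 3))))
  (@Cl.mk (nat_lit 0x3000a000400090008000c000b000600090004000700050008000d000c0007) (nat_lit 0x107199010005450) (nat_lit 16) Lb.e (@T16.mk En
    (@En.i (nat_lit 5086) (nat_lit 0) (nat_lit 7))
    (@En.n l10709 (nat_lit 4305) (nat_lit 4) (nat_lit 12))
    (@En.n l591 (nat_lit 10634) (nat_lit 2) (nat_lit 13))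
    (@En.n l22797 (nat_lit 4552) (nat_lit 10) (nat_lit 8))
    (@En.n l2612 (nat_lit 2577) (nat_lit 4) (nat_lit 5))
    (@En.n l22798 (nat_lit 2849) (nat_lit 11) (nat_lit 7))
    (@En.n l3535 (nat_lit 10485) (nat_lit 6) (nat_lit 4))
    (@En.n l3283 (nat_lit 778) (nat_lit 9) (nat_lit 9))
    (@En.n l22799 (nat_lit 10840) (nat_lit 1) (nat_lit 6))
    (@En.n l22800 (nat_lit 4309) (nat_lit 5) (nat_lit 11))
    (@En.n l2612 (nat_lit 4303) (nat_lit 11) (nat_lit 12))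
    (@En.i (nat_lit 4302) (nat_lit 12) (nat_lit 8))
    (@En.n l591 (nat_lit 4313) (nat_lit 13) (nat_lit 9))
    (@En.n l22801 (nat_lit 2799) (nat_lit 14) (nat_lit 4))
    (@En.n l22802 (nat_lit 4221) (nat_lit 0) (nat_lit 10))
    (@En.n l22803 (nat_lit 4304) (nat_lit 1) (nat_lit 3))))
  (@Cl.mk (nat_lit 0x30008000d0007000d0003000b0003000a0008000b00050009000d00060005) (nat_lit 0x650804071804b00) (nat_lit 16) Lb.e (@T16.mk En
    (@En.n l152 (nat_lit 2578) (nat_lit 0) (nat_lit 5))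
    (@En.n l1769 (nat_lit 2882) (nat_lit 6) (nat_lit 6))
    (@En.i (nat_lit 8700) (nat_lit 8) (nat_lit 13))
    (@En.n l617 (nat_lit 2262) (nat_lit 10) (nat_lit 9))
    (@En.i (nat_lit 10946) (nat_lit 4) (nat_lit 5))
    (@En.i (nat_lit 3473) (nat_lit 7) (nat_lit 11))
    (@En.n l34578 (nat_lit 4250) (nat_lit 6) (nat_lit 8))
    (@En.i (nat_lit 4310) (nat_lit 13) (nat_lit 10))
    (@En.i (nat_lit 4308) (nat_lit 8) (nat_lit 3))
    (@En.n l387 (nat_lit 4547) (nat_lit 0) (nat_lit 11))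
    (@En.i (nat_lit 4309) (nat_lit 10) (nat_lit 3))
    (@En.n l725 (nat_lit 4584) (nat_lit 0) (nat_lit 13))
    (@En.i (nat_lit 4220) (nat_lit 3) (nat_lit 7))
    (@En.n l34579 (nat_lit 10578) (nat_lit 2) (nat_lit 13))
    (@En.i (nat_lit 4304) (nat_lit 5) (nat_lit 8))
    (@En.n l22650 (nat_lit 4247) (nat_lit 15) (nat_lit 3))))
  (@Cl.mk (nat_lit 0x30008000c0007000d000a00040003000a0008000b00060009000d00060005) (nat_lit 0x650980081804200) (nat_lit 16) Lb.e (@T16.mk En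
    (@En.n l152 (nat_lit 2579) (nat_lit 0) (nat_lit 5))
    (@En.n l29917 (nat_lit 2880) (nat_lit 8) (nat_lit 6))
    (@En.i (nat_lit 8699) (nat_lit 10) (nat_lit 13))
    (@En.n l17133 (nat_lit 2323) (nat_lit 9) (nat_lit 9))
    (@En.i (nat_lit 10401) (nat_lit 4) (nat_lit 6))
    (@En.i (nat_lit 3474) (nat_lit 7) (nat_lit 11))
    (@En.n l29918 (nat_lit 4251) (nat_lit 6) (nat_lit 8))
    (@En.n l20960 (nat_lit 9654) (nat_lit 8) (nat_lit 10))
    (@En.n l18 (nat_lit 4307) (nat_lit 8) (nat_lit 3))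
    (@En.n l3523 (nat_lit 2824) (nat_lit 0) (nat_lit 4))
    (@En.n l899 (nat_lit 2828) (nat_lit 11) (nat_lit 10))
    (@En.n l4991 (nat_lit 3658) (nat_lit 1) (nat_lit 13))
    (@En.n l29919 (nat_lit 2830) (nat_lit 3) (nat_lit 7))
    (@En.n l3523 (nat_lit 11786) (nat_lit 7) (nat_lit 12))
    (@En.n l29920 (nat_lit 4305) (nat_lit 5) (nat_lit 8))
    (@En.n l29921 (nat_lit 4248) (nat_lit 15) (nat_lit 3))))
  (@Cl.mk (nat_lit 0x30008000d000c00080003000b0004000a0008000b00050008000d00060005) (nat_lit 0x656003080804b00) (nat_lit 16) Lb.e (@T16.mk En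
    (@En.n l152 (nat_lit 2580) (nat_lit 0) (nat_lit 5))
    (@En.n l18753 (nat_lit 2850) (nat_lit 6) (nat_lit 6))
    (@En.i (nat_lit 8702) (nat_lit 8) (nat_lit 13))
    (@En.n l617 (nat_lit 4420) (nat_lit 10) (nat_lit 8))
    (@En.n l10773 (nat_lit 10945) (nat_lit 4) (nat_lit 5))
    (@En.i (nat_lit 3476) (nat_lit 7) (nat_lit 11))
    (@En.n l18753 (nat_lit 4322) (nat_lit 6) (nat_lit 8))
    (@En.n l18754 (nat_lit 4311) (nat_lit 13) (nat_lit 10))
    (@En.n l3523 (nat_lit 2798) (nat_lit 8) (nat_lit 4))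
    (@En.n l612 (nat_lit 4220) (nat_lit 0) (nat_lit 11))
    (@En.n l50 (nat_lit 4307) (nat_lit 10) (nat_lit 3))
    (@En.n l2894 (nat_lit 5087) (nat_lit 0) (nat_lit 8))
    (@En.n l217 (nat_lit 4308) (nat_lit 13) (nat_lit 12))
    (@En.n l18754 (nat_lit 10579) (nat_lit 2) (nat_lit 13))
    (@En.n l18755 (nat_lit 4306) (nat_lit 3) (nat_lit 8))
    (@En.n l18756 (nat_lit 4249) (nat_lit 15) (nat_lit 3))))
  (@Cl.mk (nat_lit 0x3000c000a0007000a00040008000c0006000a000600040009000d00080006) (nat_lit 0x260005900000020) (nat_lit 16) Lb.e (@T16.mk En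
    (@En.n l34579 (nat_lit 10871) (nat_lit 0) (nat_lit 6))
    (@En.i (nat_lit 4312) (nat_lit 6) (nat_lit 8))
    (@En.n l34579 (nat_lit 10483) (nat_lit 6) (nat_lit 13))
    (@En.n l38176 (nat_lit 4315) (nat_lit 3) (nat_lit 9))
    (@En.n l28285 (nat_lit 11108) (nat_lit 4) (nat_lit 4))
    (@En.n l5646 (nat_lit 2828) (nat_lit 0) (nat_lit 6))
    (@En.n l1003 (nat_lit 9961) (nat_lit 9) (nat_lit 10))
    (@En.i (nat_lit 2893) (nat_lit 7) (nat_lit 6))
    (@En.i (nat_lit 12456) (nat_lit 7) (nat_lit 12))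
    (@En.n l617 (nat_lit 10376) (nat_lit 11) (nat_lit 8))
    (@En.n l13127 (nat_lit 10951) (nat_lit 10) (nat_lit 4))
    (@En.i (nat_lit 8212) (nat_lit 8) (nat_lit 10))
    (@En.n l43272 (nat_lit 10960) (nat_lit 1) (nat_lit 7))
    (@En.n l43273 (nat_lit 9649) (nat_lit 14) (nat_lit 10))
    (@En.n l387 (nat_lit 4538) (nat_lit 3) (nat_lit 12))
    (@En.n l18754 (nat_lit 4311) (nat_lit 15) (nat_lit 3))))
  (@Cl.mk (nat_lit 0x3000c000a0007000a00040007000c0006000b000600040009000d00050009) (nat_lit 0x70400000000000) (nat_lit 16) Lb.e (@T16.mk En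
    (@En.n l3328 (nat_lit 6821) (nat_lit 0) (nat_lit 9))
    (@En.n l34573 (nat_lit 4320) (nat_lit 6) (nat_lit 5))
    (@En.i (nat_lit 10482) (nat_lit 6) (nat_lit 13))
    (@En.n l18910 (nat_lit 4313) (nat_lit 3) (nat_lit 9))
    (@En.n l3480 (nat_lit 11107) (nat_lit 4) (nat_lit 4))
    (@En.n l2642 (nat_lit 2825) (nat_lit 0) (nat_lit 6))
    (@En.n l13633 (nat_lit 9790) (nat_lit 1) (nat_lit 11))
    (@En.n l3348 (nat_lit 5106) (nat_lit 7) (nat_lit 6))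
    (@En.n l34573 (nat_lit 12458) (nat_lit 9) (nat_lit 12))
    (@En.n l34574 (nat_lit 8116) (nat_lit 11) (nat_lit 7))
    (@En.i (nat_lit 10950) (nat_lit 10) (nat_lit 4))
    (@En.n l34575 (nat_lit 8213) (nat_lit 8) (nat_lit 10))
    (@En.n l13716 (nat_lit 10410) (nat_lit 1) (nat_lit 7))
    (@En.i (nat_lit 9648) (nat_lit 14) (nat_lit 10))
    (@En.n l34576 (nat_lit 4312) (nat_lit 3) (nat_lit 12))
    (@En.n l34577 (nat_lit 4310) (nat_lit 15) (nat_lit 3))))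
  (@Cl.mk (nat_lit 0x400080007000c0007000b00070004000a000800050009000c000900060009) (nat_lit 0x60000000100a405) (nat_lit 16) Lb.e (@T16.mk En
    (@En.i (nat_lit 10020) (nat_lit 9) (nat_lit 9))
    (@En.n l43344 (nat_lit 10407) (nat_lit 1) (nat_lit 6))
    (@En.n l43345 (nat_lit 9480) (nat_lit 0) (nat_lit 9))
    (@En.n l43346 (nat_lit 4545) (nat_lit 6) (nat_lit 12))
    (@En.n l41755 (nat_lit 6818) (nat_lit 10) (nat_lit 9))
    (@En.n l43346 (nat_lit 9846) (nat_lit 5) (nat_lit 5))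
    (@En.n l43347 (nat_lit 79) (nat_lit 6) (nat_lit 8))
    (@En.n l38359 (nat_lit 4314) (nat_lit 1) (nat_lit 10))
    (@En.n l43348 (nat_lit 11109) (nat_lit 8) (nat_lit 4))
    (@En.n l43349 (nat_lit 2829) (nat_lit 0) (nat_lit 7))
    (@En.n l43346 (nat_lit 9792) (nat_lit 8) (nat_lit 11))
    (@En.n l39933 (nat_lit 5101) (nat_lit 5) (nat_lit 7))
    (@En.n l36378 (nat_lit 9816) (nat_lit 13) (nat_lit 12))
    (@En.n l27678 (nat_lit 4311) (nat_lit 9) (nat_lit 7))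
    (@En.n l617 (nat_lit 10379) (nat_lit 11) (nat_lit 8))
    (@En.n l43350 (nat_lit 10952) (nat_lit 15) (nat_lit 4))))
  (@Cl.mk (nat_lit 0x3000b00090007000c000a0005000800040007000c00060009000d00040008) (nat_lit 0x60050000007000) (nat_lit 16) Lb.e (@T16.mk En
    (@En.n l1897 (nat_lit 6820) (nat_lit 0) (nat_lit 8))
    (@En.n l7393 (nat_lit 4319) (nat_lit 9) (nat_lit 4))
    (@En.i (nat_lit 10449) (nat_lit 0) (nat_lit 13))
    (@En.n l1897 (nat_lit 7093) (nat_lit 9) (nat_lit 9))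
    (@En.i (nat_lit 2826) (nat_lit 4) (nat_lit 6))
    (@En.n l3530 (nat_lit 9789) (nat_lit 8) (nat_lit 12))
    (@En.i (nat_lit 5105) (nat_lit 11) (nat_lit 7))
    (@En.n l3536 (nat_lit 10477) (nat_lit 7) (nat_lit 4))
    (@En.n l1897 (nat_lit 8101) (nat_lit 10) (nat_lit 8))
    (@En.n l12290 (nat_lit 10844) (nat_lit 1) (nat_lit 5))
    (@En.n l22465 (nat_lit 4311) (nat_lit 11) (nat_lit 10))
    (@En.n l20336 (nat_lit 4316) (nat_lit 12) (nat_lit 12))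
    (@En.n l12291 (nat_lit 10958) (nat_lit 13) (nat_lit 7))
    (@En.n l3866 (nat_lit 9652) (nat_lit 14) (nat_lit 9))
    (@En.i (nat_lit 4314) (nat_lit 13) (nat_lit 11))
    (@En.n l2817 (nat_lit 4315) (nat_lit 15) (nat_lit 3))))
  (@Cl.mk (nat_lit 0x40008000b00080006000b000900050009000800050008000c0007000a0007) (nat_lit 0x95006001000080) (nat_lit 16) Lb.e (@T16.mk En
    (@En.n l5 (nat_lit 10031) (nat_lit 0) (nat_lit 7))
    (@En.n l1897 (nat_lit 7676) (nat_lit 8) (nat_lit 10))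
    (@En.n l36462 (nat_lit 2831) (nat_lit 13) (nat_lit 7))
    (@En.n l43470 (nat_lit 9793) (nat_lit 7) (nat_lit 12))
    (@En.n l22177 (nat_lit 5100) (nat_lit 10) (nat_lit 8))
    (@En.n l30410 (nat_lit 9809) (nat_lit 5) (nat_lit 5))
    (@En.n l50 (nat_lit 4313) (nat_lit 8) (nat_lit 8))
    (@En.n l36051 (nat_lit 10394) (nat_lit 10) (nat_lit 9))
    (@En.n l36052 (nat_lit 11943) (nat_lit 2) (nat_lit 5))
    (@En.n l43471 (nat_lit 4312) (nat_lit 0) (nat_lit 9))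
    (@En.n l43472 (nat_lit 4318) (nat_lit 9) (nat_lit 11))
    (@En.n l12291 (nat_lit 10411) (nat_lit 10) (nat_lit 6))
    (@En.n l14891 (nat_lit 9422) (nat_lit 13) (nat_lit 8))
    (@En.n l23473 (nat_lit 4542) (nat_lit 7) (nat_lit 11))
    (@En.n l43473 (nat_lit 6816) (nat_lit 11) (nat_lit 8))
    (@En.n l43470 (nat_lit 9844) (nat_lit 15) (nat_lit 4))))
  (@Cl.mk (nat_lit 0x3000b00090007000c000a0005000900040007000b00060009000d00070005) (nat_lit 0x860010000007000) (nat_lit 16) Lb.e (@T16.mk En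
    (@En.n l18 (nat_lit 10870) (nat_lit 0) (nat_lit 5))
    (@En.n l39724 (nat_lit 4314) (nat_lit 0) (nat_lit 7))
    (@En.n l8240 (nat_lit 10448) (nat_lit 6) (nat_lit 13))
    (@En.i (nat_lit 7675) (nat_lit 9) (nat_lit 9))
    (@En.n l41945 (nat_lit 2834) (nat_lit 4) (nat_lit 6))
    (@En.n l41946 (nat_lit 10304) (nat_lit 8) (nat_lit 11))
    (@En.n l2038 (nat_lit 5288) (nat_lit 11) (nat_lit 7))
    (@En.n l41946 (nat_lit 10479) (nat_lit 7) (nat_lit 4))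
    (@En.n l3517 (nat_lit 10395) (nat_lit 0) (nat_lit 9))
    (@En.n l152 (nat_lit 10843) (nat_lit 1) (nat_lit 5))
    (@En.n l41947 (nat_lit 4310) (nat_lit 11) (nat_lit 10))
    (@En.n l41948 (nat_lit 4317) (nat_lit 12) (nat_lit 12))
    (@En.n l9970 (nat_lit 10959) (nat_lit 13) (nat_lit 7))
    (@En.n l4758 (nat_lit 9653) (nat_lit 14) (nat_lit 9))
    (@En.n l37398 (nat_lit 4537) (nat_lit 7) (nat_lit 11))
    (@En.n l16981 (nat_lit 4313) (nat_lit 15) (nat_lit 3))))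
  (@Cl.mk (nat_lit 0x3000c0009000c0009000400070004000c0007000c00070004000d00040009) (nat_lit 0x6a400010000000) (nat_lit 16) Lb.e (@T16.mk En
    (@En.n l475 (nat_lit 6779) (nat_lit 0) (nat_lit 9))
    (@En.i (nat_lit 4321) (nat_lit 6) (nat_lit 4))
    (@En.n l9526 (nat_lit 10451) (nat_lit 0) (nat_lit 13))
    (@En.i (nat_lit 10890) (nat_lit 1) (nat_lit 4))
    (@En.n l5165 (nat_lit 2835) (nat_lit 4) (nat_lit 7))
    (@En.n l475 (nat_lit 9176) (nat_lit 1) (nat_lit 12))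
    (@En.n l10861 (nat_lit 4313) (nat_lit 6) (nat_lit 7))
    (@En.n l8017 (nat_lit 4311) (nat_lit 8) (nat_lit 12))
    (@En.n l10862 (nat_lit 10474) (nat_lit 8) (nat_lit 4))
    (@En.i (nat_lit 8100) (nat_lit 11) (nat_lit 7))
    (@En.n l1235 (nat_lit 11788) (nat_lit 1) (nat_lit 4))
    (@En.n l9530 (nat_lit 10013) (nat_lit 0) (nat_lit 9))
    (@En.i (nat_lit 10237) (nat_lit 6) (nat_lit 12))
    (@En.n l1236 (nat_lit 9671) (nat_lit 14) (nat_lit 9))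
    (@En.n l965 (nat_lit 4318) (nat_lit 11) (nat_lit 12))
    (@En.n l11412 (nat_lit 4317) (nat_lit 15) (nat_lit 3))))
  (@Cl.mk (nat_lit 0x3000c0009000c0009000400080004000c0007000b00070004000d00080005) (nat_lit 0x16a0000a0000000) (nat_lit 16) Lb.e (@T16.mk En
    (@En.n l6900 (nat_lit 10865) (nat_lit 0) (nat_lit 5))
    (@En.n l718 (nat_lit 4318) (nat_lit 14) (nat_lit 8))
    (@En.n l7507 (nat_lit 10450) (nat_lit 2) (nat_lit 13))
    (@En.n l25092 (nat_lit 10887) (nat_lit 3) (nat_lit 4))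
    (@En.n l3098 (nat_lit 4298) (nat_lit 4) (nat_lit 7))
    (@En.n l6900 (nat_lit 9196) (nat_lit 1) (nat_lit 11))
    (@En.n l34160 (nat_lit 4315) (nat_lit 6) (nat_lit 7))
    (@En.n l22753 (nat_lit 4310) (nat_lit 8) (nat_lit 12))
    (@En.n l6081 (nat_lit 10475) (nat_lit 8) (nat_lit 4))
    (@En.n l22767 (nat_lit 10387) (nat_lit 11) (nat_lit 8))
    (@En.n l11772 (nat_lit 10621) (nat_lit 1) (nat_lit 4))
    (@En.n l6900 (nat_lit 10009) (nat_lit 0) (nat_lit 9))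
    (@En.n l25092 (nat_lit 10236) (nat_lit 6) (nat_lit 12))
    (@En.i (nat_lit 9871) (nat_lit 14) (nat_lit 9))
    (@En.n l34161 (nat_lit 60) (nat_lit 3) (nat_lit 12))
    (@En.n l3510 (nat_lit 4316) (nat_lit 15) (nat_lit 3))))
  (@Cl.mk (nat_lit 0x4000800040009000c0008000b00080004000800070005000c0008000c0008) (nat_lit 0x600a59600001104) (nat_lit 16) Lb.e (@T16.mk En
    (@En.n l61 (nat_lit 2836) (nat_lit 0) (nat_lit 8))
    (@En.n l38328 (nat_lit 10137) (nat_lit 1) (nat_lit 12))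
    (@En.n l38329 (nat_lit 4314) (nat_lit 4) (nat_lit 8))
    (@En.n l38330 (nat_lit 4312) (nat_lit 12) (nat_lit 12))
    (@En.i (nat_lit 9875) (nat_lit 4) (nat_lit 5))
    (@En.n l18185 (nat_lit 4316) (nat_lit 9) (nat_lit 7))
    (@En.n l4819 (nat_lit 10391) (nat_lit 11) (nat_lit 8))
    (@En.n l3536 (nat_lit 11942) (nat_lit 7) (nat_lit 4))
    (@En.n l2320 (nat_lit 10018) (nat_lit 0) (nat_lit 8))
    (@En.i (nat_lit 10239) (nat_lit 7) (nat_lit 11))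
    (@En.n l34491 (nat_lit 9424) (nat_lit 13) (nat_lit 8))
    (@En.n l3866 (nat_lit 10342) (nat_lit 6) (nat_lit 12))
    (@En.n l21653 (nat_lit 6814) (nat_lit 4) (nat_lit 9))
    (@En.n l36713 (nat_lit 9845) (nat_lit 15) (nat_lit 4))
    (@En.n l16539 (nat_lit 10731) (nat_lit 0) (nat_lit 8))
    (@En.n l10179 (nat_lit 10893) (nat_lit 1) (nat_lit 4))))
  (@Cl.mk (nat_lit 0x40007000c000b0007000a000400080005000b00090006000c000900050008) (nat_lit 0x1000400500300) (nat_lit 16) Lb.e (@T16.mk En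
    (@En.n l16897 (nat_lit 9625) (nat_lit 10) (nat_lit 8))
    (@En.n l12285 (nat_lit 11772) (nat_lit 1) (nat_lit 5))
    (@En.n l39468 (nat_lit 4320) (nat_lit 0) (nat_lit 9))
    (@En.n l27891 (nat_lit 4321) (nat_lit 1) (nat_lit 12))
    (@En.n l7010 (nat_lit 10961) (nat_lit 2) (nat_lit 6))
    (@En.i (nat_lit 9875) (nat_lit 5) (nat_lit 9))
    (@En.n l42669 (nat_lit 9844) (nat_lit 13) (nat_lit 11))
    (@En.n l766 (nat_lit 7554) (nat_lit 7) (nat_lit 5))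
    (@En.i (nat_lit 9688) (nat_lit 11) (nat_lit 8))
    (@En.n l36713 (nat_lit 10564) (nat_lit 9) (nat_lit 4))
    (@En.i (nat_lit 7672) (nat_lit 8) (nat_lit 10))
    (@En.n l26292 (nat_lit 4645) (nat_lit 1) (nat_lit 7))
    (@En.n l16894 (nat_lit 4315) (nat_lit 5) (nat_lit 11))
    (@En.n l42281 (nat_lit 9783) (nat_lit 8) (nat_lit 12))
    (@En.n l18 (nat_lit 5283) (nat_lit 11) (nat_lit 7))
    (@En.n l3523 (nat_lit 10481) (nat_lit 15) (nat_lit 4))))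
noncomputable def a270 : T16 Cl := @T16.mk Cl
  (@Cl.mk (nat_lit 0x40007000b0006000b000a00070005000a000500090006000c000a00060009) (nat_lit 0x10010504602) (nat_lit 16) Lb.e (@T16.mk En
    (@En.i (nat_lit 9904) (nat_lit 9) (nat_lit 9))
    (@En.n l41751 (nat_lit 10962) (nat_lit 1) (nat_lit 6))
    (@En.n l41752 (nat_lit 9809) (nat_lit 6) (nat_lit 10))
    (@En.n l41753 (nat_lit 9846) (nat_lit 3) (nat_lit 12))
    (@En.n l41754 (nat_lit 7555) (nat_lit 4) (nat_lit 6))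
    (@En.n l41755 (nat_lit 9687) (nat_lit 10) (nat_lit 9))
    (@En.n l41756 (nat_lit 10553) (nat_lit 6) (nat_lit 5))
    (@En.n l41757 (nat_lit 4319) (nat_lit 10) (nat_lit 10))
    (@En.n l41758 (nat_lit 11095) (nat_lit 8) (nat_lit 5))
    (@En.n l8768 (nat_lit 4650) (nat_lit 2) (nat_lit 7))
    (@En.i (nat_lit 4310) (nat_lit 6) (nat_lit 10))
    (@En.n l33121 (nat_lit 9782) (nat_lit 9) (nat_lit 11))
    (@En.n l41759 (nat_lit 4936) (nat_lit 13) (nat_lit 6))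
    (@En.i (nat_lit 11816) (nat_lit 8) (nat_lit 11))
    (@En.n l617 (nat_lit 9624) (nat_lit 11) (nat_lit 7))
    (@En.n l38061 (nat_lit 11084) (nat_lit 15) (nat_lit 4))))
  (@Cl.mk (nat_lit 0x400070004000b0007000c000b00080005000400090005000c0009000c0008) (nat_lit 0x10014004005a2) (nat_lit 16) Lb.e (@T16.mk En
    (@En.n l9530 (nat_lit 7190) (nat_lit 0) (nat_lit 8))
    (@En.i (nat_lit 6359) (nat_lit 6) (nat_lit 12))
    (@En.n l31062 (nat_lit 9872) (nat_lit 12) (nat_lit 9))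
    (@En.n l31564 (nat_lit 9845) (nat_lit 13) (nat_lit 12))
    (@En.n l31565 (nat_lit 10860) (nat_lit 4) (nat_lit 5))
    (@En.n l31566 (nat_lit 9693) (nat_lit 5) (nat_lit 9))
    (@En.n l6628 (nat_lit 10569) (nat_lit 12) (nat_lit 4))
    (@En.i (nat_lit 10897) (nat_lit 0) (nat_lit 5))
    (@En.n l6629 (nat_lit 4648) (nat_lit 1) (nat_lit 8))
    (@En.n l11410 (nat_lit 4317) (nat_lit 5) (nat_lit 11))
    (@En.n l1836 (nat_lit 9059) (nat_lit 2) (nat_lit 12))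
    (@En.n l31567 (nat_lit 4319) (nat_lit 14) (nat_lit 7))
    (@En.n l31568 (nat_lit 4320) (nat_lit 13) (nat_lit 11))
    (@En.n l10862 (nat_lit 10480) (nat_lit 6) (nat_lit 4))
    (@En.i (nat_lit 9619) (nat_lit 11) (nat_lit 7))
    (@En.n l1651 (nat_lit 11774) (nat_lit 1) (nat_lit 4))))
  (@Cl.mk (nat_lit 0x300080004000d000c00090003000c00040008000b00040007000d000c0005) (nat_lit 0x406900406100b10) (nat_lit 16) Lb.e (@T16.mk En
    (@En.n l2612 (nat_lit 3310) (nat_lit 0) (nat_lit 5))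
    (@En.n l9908 (nat_lit 4246) (nat_lit 8) (nat_lit 12))
    (@En.n l2125 (nat_lit 9138) (nat_lit 2) (nat_lit 13))
    (@En.n l152 (nat_lit 4425) (nat_lit 11) (nat_lit 7))
    (@En.n l345 (nat_lit 10453) (nat_lit 4) (nat_lit 4))
    (@En.n l9908 (nat_lit 3850) (nat_lit 7) (nat_lit 11))
    (@En.n l253 (nat_lit 10888) (nat_lit 1) (nat_lit 8))
    (@En.n l345 (nat_lit 2789) (nat_lit 7) (nat_lit 4))
    (@En.n l9909 (nat_lit 4236) (nat_lit 0) (nat_lit 12))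
    (@En.n l9910 (nat_lit 4250) (nat_lit 9) (nat_lit 3))
    (@En.n l517 (nat_lit 5093) (nat_lit 0) (nat_lit 9))
    (@En.n l5 (nat_lit 4251) (nat_lit 12) (nat_lit 12))
    (@En.n l9911 (nat_lit 10598) (nat_lit 2) (nat_lit 13))
    (@En.n l3852 (nat_lit 3480) (nat_lit 3) (nat_lit 4))
    (@En.n l343 (nat_lit 4302) (nat_lit 4) (nat_lit 8))
    (@En.n l28 (nat_lit 4245) (nat_lit 15) (nat_lit 3))))
  (@Cl.mk (nat_lit 0x30006000d000c00050003000d0004000c0003000c000a0004000d0004000b) (nat_lit 0xa00000) (nat_lit 16) Lb.e (@T16.mk En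
    (@En.n l781 (nat_lit 8077) (nat_lit 0) (nat_lit 11))
    (@En.n l345 (nat_lit 8598) (nat_lit 10) (nat_lit 4))
    (@En.i (nat_lit 4324) (nat_lit 2) (nat_lit 13))
    (@En.n l6631 (nat_lit 9194) (nat_lit 3) (nat_lit 4))
    (@En.i (nat_lit 10164) (nat_lit 4) (nat_lit 10))
    (@En.i (nat_lit 4322) (nat_lit 11) (nat_lit 12))
    (@En.i (nat_lit 4327) (nat_lit 6) (nat_lit 3))
    (@En.i (nat_lit 10330) (nat_lit 0) (nat_lit 12))
    (@En.n l28 (nat_lit 9166) (nat_lit 8) (nat_lit 4))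
    (@En.n l7877 (nat_lit 7625) (nat_lit 10) (nat_lit 13))
    (@En.n l28 (nat_lit 4325) (nat_lit 10) (nat_lit 3))
    (@En.i (nat_lit 9043) (nat_lit 0) (nat_lit 5))
    (@En.n l77 (nat_lit 4328) (nat_lit 13) (nat_lit 12))
    (@En.n l2125 (nat_lit 9085) (nat_lit 2) (nat_lit 13))
    (@En.n l152 (nat_lit 8341) (nat_lit 12) (nat_lit 6))
    (@En.n l345 (nat_lit 4326) (nat_lit 15) (nat_lit 3))))
  (@Cl.mk (nat_lit 0x300080006000d000c00060003000d000400080003000d000a000d0003000a) (nat_lit 0x500000002010b00) (nat_lit 16) Lb.e (@T16.mk En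
    (@En.n l781 (nat_lit 8078) (nat_lit 0) (nat_lit 10))
    (@En.n l37942 (nat_lit 8851) (nat_lit 15) (nat_lit 3))
    (@En.n l37943 (nat_lit 5646) (nat_lit 0) (nat_lit 13))
    (@En.i (nat_lit 10169) (nat_lit 3) (nat_lit 10))
    (@En.n l9909 (nat_lit 4236) (nat_lit 2) (nat_lit 13))
    (@En.n l16721 (nat_lit 10146) (nat_lit 5) (nat_lit 3))
    (@En.n l16317 (nat_lit 4711) (nat_lit 0) (nat_lit 8))
    (@En.n l14769 (nat_lit 8854) (nat_lit 7) (nat_lit 4))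
    (@En.n l37944 (nat_lit 8246) (nat_lit 0) (nat_lit 13))
    (@En.n l28 (nat_lit 4331) (nat_lit 1) (nat_lit 3))
    (@En.n l22589 (nat_lit 9045) (nat_lit 0) (nat_lit 6))
    (@En.n l77 (nat_lit 4333) (nat_lit 4) (nat_lit 12))
    (@En.n l2125 (nat_lit 10818) (nat_lit 13) (nat_lit 13))
    (@En.n l17 (nat_lit 4323) (nat_lit 14) (nat_lit 6))
    (@En.n l19198 (nat_lit 9138) (nat_lit 13) (nat_lit 8))
    (@En.n l345 (nat_lit 8856) (nat_lit 15) (nat_lit 3))))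
  (@Cl.mk (nat_lit 0x30006000d0004000d0003000d0003000c0003000c000a0004000d0004000c) (nat_lit 0xa00300) (nat_lit 16) Lb.e (@T16.mk En
    (@En.n l781 (nat_lit 7634) (nat_lit 0) (nat_lit 12))
    (@En.n l19001 (nat_lit 8599) (nat_lit 8) (nat_lit 4))
    (@En.i (nat_lit 4331) (nat_lit 10) (nat_lit 13))
    (@En.n l3098 (nat_lit 4335) (nat_lit 3) (nat_lit 4))
    (@En.i (nat_lit 10190) (nat_lit 4) (nat_lit 10))
    (@En.i (nat_lit 4245) (nat_lit 11) (nat_lit 12))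
    (@En.i (nat_lit 4329) (nat_lit 6) (nat_lit 3))
    (@En.i (nat_lit 10329) (nat_lit 0) (nat_lit 12))
    (@En.i (nat_lit 4328) (nat_lit 8) (nat_lit 3))
    (@En.n l2125 (nat_lit 7264) (nat_lit 0) (nat_lit 13))
    (@En.i (nat_lit 4323) (nat_lit 10) (nat_lit 3))
    (@En.i (nat_lit 6180) (nat_lit 0) (nat_lit 13))
    (@En.i (nat_lit 9178) (nat_lit 3) (nat_lit 4))
    (@En.n l2125 (nat_lit 8600) (nat_lit 2) (nat_lit 13))
    (@En.n l152 (nat_lit 7454) (nat_lit 12) (nat_lit 6))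
    (@En.n l117 (nat_lit 4330) (nat_lit 15) (nat_lit 3))))
  (@Cl.mk (nat_lit 0x30006000d000c00060003000d0004000c0003000b000a0004000d000a0005) (nat_lit 0x30000000000000) (nat_lit 16) Lb.e (@T16.mk En
    (@En.i (nat_lit 9975) (nat_lit 0) (nat_lit 5))
    (@En.n l61 (nat_lit 9174) (nat_lit 11) (nat_lit 10))
    (@En.i (nat_lit 8856) (nat_lit 2) (nat_lit 13))
    (@En.n l13906 (nat_lit 9150) (nat_lit 3) (nat_lit 4))
    (@En.n l2863 (nat_lit 10162) (nat_lit 4) (nat_lit 10))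
    (@En.i (nat_lit 10453) (nat_lit 11) (nat_lit 11))
    (@En.i (nat_lit 10149) (nat_lit 6) (nat_lit 3))
    (@En.i (nat_lit 10332) (nat_lit 0) (nat_lit 12))
    (@En.i (nat_lit 9167) (nat_lit 8) (nat_lit 4))
    (@En.n l10577 (nat_lit 7624) (nat_lit 10) (nat_lit 13))
    (@En.n l9876 (nat_lit 4330) (nat_lit 10) (nat_lit 3))
    (@En.i (nat_lit 11585) (nat_lit 0) (nat_lit 6))
    (@En.n l9879 (nat_lit 9168) (nat_lit 13) (nat_lit 12))
    (@En.n l22467 (nat_lit 9094) (nat_lit 2) (nat_lit 13))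
    (@En.n l9877 (nat_lit 12490) (nat_lit 12) (nat_lit 6))
    (@En.n l25864 (nat_lit 4323) (nat_lit 15) (nat_lit 3))))
  (@Cl.mk (nat_lit 0x30006000d000b00050003000d000b00050003000c000a0005000d0004000b) (nat_lit 0x800000) (nat_lit 16) Lb.e (@T16.mk En
    (@En.n l781 (nat_lit 9499) (nat_lit 0) (nat_lit 11))
    (@En.n l345 (nat_lit 8329) (nat_lit 10) (nat_lit 4))
    (@En.n l16721 (nat_lit 10146) (nat_lit 2) (nat_lit 13))
    (@En.n l3928 (nat_lit 10173) (nat_lit 3) (nat_lit 5))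
    (@En.i (nat_lit 10165) (nat_lit 4) (nat_lit 10))
    (@En.n l5 (nat_lit 9790) (nat_lit 11) (nat_lit 12))
    (@En.n l50 (nat_lit 4323) (nat_lit 6) (nat_lit 3))
    (@En.n l28259 (nat_lit 6394) (nat_lit 0) (nat_lit 5))
    (@En.n l217 (nat_lit 9398) (nat_lit 9) (nat_lit 11))
    (@En.n l7877 (nat_lit 8242) (nat_lit 10) (nat_lit 13))
    (@En.n l28 (nat_lit 4329) (nat_lit 10) (nat_lit 3))
    (@En.i (nat_lit 9044) (nat_lit 0) (nat_lit 5))
    (@En.i (nat_lit 6406) (nat_lit 13) (nat_lit 11))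
    (@En.n l3928 (nat_lit 9083) (nat_lit 2) (nat_lit 13))
    (@En.n l152 (nat_lit 8327) (nat_lit 12) (nat_lit 6))
    (@En.n l345 (nat_lit 10149) (nat_lit 15) (nat_lit 3))))
  (@Cl.mk (nat_lit 0x30006000c0004000d000c00040003000c0004000c000a0004000d0004000c) (nat_lit 0xa0000000a00000) (nat_lit 16) Lb.e (@T16.mk En
    (@En.n l781 (nat_lit 7631) (nat_lit 0) (nat_lit 12))
    (@En.n l19001 (nat_lit 8535) (nat_lit 8) (nat_lit 4))
    (@En.i (nat_lit 4333) (nat_lit 10) (nat_lit 13))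
    (@En.n l6080 (nat_lit 4332) (nat_lit 3) (nat_lit 4))
    (@En.i (nat_lit 10194) (nat_lit 4) (nat_lit 10))
    (@En.n l133 (nat_lit 4246) (nat_lit 1) (nat_lit 12))
    (@En.n l7 (nat_lit 6406) (nat_lit 6) (nat_lit 4))
    (@En.n l564 (nat_lit 10587) (nat_lit 8) (nat_lit 12))
    (@En.n l7 (nat_lit 4325) (nat_lit 8) (nat_lit 3))
    (@En.n l10832 (nat_lit 8926) (nat_lit 0) (nat_lit 4))
    (@En.n l644 (nat_lit 4329) (nat_lit 11) (nat_lit 12))
    (@En.i (nat_lit 6181) (nat_lit 1) (nat_lit 13))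
    (@En.i (nat_lit 9176) (nat_lit 3) (nat_lit 4))
    (@En.n l2125 (nat_lit 9170) (nat_lit 14) (nat_lit 12))
    (@En.n l152 (nat_lit 8343) (nat_lit 12) (nat_lit 6))
    (@En.n l117 (nat_lit 9168) (nat_lit 15) (nat_lit 3))))
  (@Cl.mk (nat_lit 0x30006000d0004000c0003000d000b00040003000c000a0005000d0004000c) (nat_lit 0xa00000a00000) (nat_lit 16) Lb.e (@T16.mk En
    (@En.n l781 (nat_lit 7632) (nat_lit 0) (nat_lit 12))
    (@En.n l19001 (nat_lit 8330) (nat_lit 10) (nat_lit 4))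
    (@En.n l10995 (nat_lit 4334) (nat_lit 2) (nat_lit 13))
    (@En.n l3928 (nat_lit 10174) (nat_lit 3) (nat_lit 5))
    (@En.i (nat_lit 10189) (nat_lit 4) (nat_lit 10))
    (@En.n l5 (nat_lit 9791) (nat_lit 11) (nat_lit 12))
    (@En.n l50 (nat_lit 4325) (nat_lit 6) (nat_lit 3))
    (@En.i (nat_lit 6402) (nat_lit 0) (nat_lit 4))
    (@En.n l217 (nat_lit 9397) (nat_lit 9) (nat_lit 11))
    (@En.n l2125 (nat_lit 7263) (nat_lit 1) (nat_lit 13))
    (@En.i (nat_lit 4327) (nat_lit 10) (nat_lit 3))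
    (@En.i (nat_lit 9744) (nat_lit 0) (nat_lit 12))
    (@En.i (nat_lit 9177) (nat_lit 5) (nat_lit 4))
    (@En.n l3928 (nat_lit 9087) (nat_lit 2) (nat_lit 13))
    (@En.n l152 (nat_lit 8240) (nat_lit 12) (nat_lit 6))
    (@En.n l117 (nat_lit 10150) (nat_lit 15) (nat_lit 3))))
  (@Cl.mk (nat_lit 0x30006000d0005000d0003000d0003000c0003000b000a0004000d000b0005) (nat_lit 0x40000080000200) (nat_lit 16) Lb.e (@T16.mk En
    (@En.n l3866 (nat_lit 9972) (nat_lit 0) (nat_lit 5))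
    (@En.n l22465 (nat_lit 9170) (nat_lit 9) (nat_lit 11))
    (@En.i (nat_lit 10151) (nat_lit 10) (nat_lit 13))
    (@En.i (nat_lit 9140) (nat_lit 3) (nat_lit 4))
    (@En.n l97 (nat_lit 9764) (nat_lit 4) (nat_lit 10))
    (@En.i (nat_lit 10449) (nat_lit 11) (nat_lit 11))
    (@En.i (nat_lit 10150) (nat_lit 6) (nat_lit 3))
    (@En.i (nat_lit 10331) (nat_lit 0) (nat_lit 12))
    (@En.i (nat_lit 9168) (nat_lit 8) (nat_lit 3))
    (@En.i (nat_lit 7262) (nat_lit 0) (nat_lit 13))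
    (@En.n l1236 (nat_lit 4326) (nat_lit 10) (nat_lit 3))
    (@En.n l1867 (nat_lit 6176) (nat_lit 0) (nat_lit 13))
    (@En.i (nat_lit 10143) (nat_lit 5) (nat_lit 5))
    (@En.n l3530 (nat_lit 9095) (nat_lit 2) (nat_lit 13))
    (@En.i (nat_lit 12488) (nat_lit 12) (nat_lit 6))
    (@En.n l152 (nat_lit 4325) (nat_lit 15) (nat_lit 3))))
  (@Cl.mk (nat_lit 0x300080003000d000a000d0003000b000300080006000d0005000d0003000d) (nat_lit 0x9020000000102) (nat_lit 16) Lb.e (@T16.mk En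
    (@En.n l18356 (nat_lit 2944) (nat_lit 0) (nat_lit 13))
    (@En.i (nat_lit 4324) (nat_lit 9) (nat_lit 3))
    (@En.n l17017 (nat_lit 4292) (nat_lit 0) (nat_lit 13))
    (@En.i (nat_lit 10138) (nat_lit 3) (nat_lit 5))
    (@En.n l2125 (nat_lit 10820) (nat_lit 13) (nat_lit 13))
    (@En.n l17 (nat_lit 4325) (nat_lit 14) (nat_lit 6))
    (@En.i (nat_lit 4332) (nat_lit 6) (nat_lit 8))
    (@En.n l117 (nat_lit 10151) (nat_lit 7) (nat_lit 3))
    (@En.n l781 (nat_lit 7633) (nat_lit 0) (nat_lit 11))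
    (@En.n l19001 (nat_lit 8872) (nat_lit 9) (nat_lit 3))
    (@En.n l8766 (nat_lit 5649) (nat_lit 0) (nat_lit 13))
    (@En.i (nat_lit 10192) (nat_lit 3) (nat_lit 10))
    (@En.i (nat_lit 4234) (nat_lit 2) (nat_lit 13))
    (@En.n l10995 (nat_lit 4334) (nat_lit 5) (nat_lit 3))
    (@En.n l17017 (nat_lit 4708) (nat_lit 0) (nat_lit 8))
    (@En.i (nat_lit 4333) (nat_lit 15) (nat_lit 3))))
  (@Cl.mk (nat_lit 0x30008000c0004000d000b00040003000c00080005000d0004000d0003000c) (nat_lit 0x10a000060a0200) (nat_lit 16) Lb.e (@T16.mk En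
    (@En.n l2125 (nat_lit 9572) (nat_lit 0) (nat_lit 12))
    (@En.n l19198 (nat_lit 9138) (nat_lit 8) (nat_lit 3))
    (@En.n l1003 (nat_lit 3635) (nat_lit 0) (nat_lit 13))
    (@En.n l18752 (nat_lit 9394) (nat_lit 3) (nat_lit 4))
    (@En.n l2125 (nat_lit 4243) (nat_lit 2) (nat_lit 13))
    (@En.n l5254 (nat_lit 8488) (nat_lit 5) (nat_lit 5))
    (@En.n l14194 (nat_lit 4333) (nat_lit 14) (nat_lit 8))
    (@En.n l781 (nat_lit 9585) (nat_lit 8) (nat_lit 12))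
    (@En.n l36172 (nat_lit 4335) (nat_lit 8) (nat_lit 3))
    (@En.n l3098 (nat_lit 8728) (nat_lit 0) (nat_lit 4))
    (@En.i (nat_lit 10174) (nat_lit 11) (nat_lit 11))
    (@En.i (nat_lit 3971) (nat_lit 1) (nat_lit 13))
    (@En.n l5254 (nat_lit 9196) (nat_lit 3) (nat_lit 4))
    (@En.i (nat_lit 4325) (nat_lit 7) (nat_lit 12))
    (@En.n l1003 (nat_lit 8699) (nat_lit 5) (nat_lit 8))
    (@En.i (nat_lit 9139) (nat_lit 15) (nat_lit 3))))
  (@Cl.mk (nat_lit 0x300080004000d000a000d0003000b000300080006000c0005000d000c0004) (nat_lit 0x5090b00000a0000) (nat_lit 16) Lb.e (@T16.mk En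
    (@En.n l22232 (nat_lit 8920) (nat_lit 0) (nat_lit 4))
    (@En.n l13782 (nat_lit 4334) (nat_lit 10) (nat_lit 12))
    (@En.n l17017 (nat_lit 6182) (nat_lit 1) (nat_lit 13))
    (@En.i (nat_lit 10137) (nat_lit 3) (nat_lit 5))
    (@En.n l18945 (nat_lit 10156) (nat_lit 13) (nat_lit 12))
    (@En.n l17 (nat_lit 4328) (nat_lit 14) (nat_lit 6))
    (@En.i (nat_lit 9139) (nat_lit 6) (nat_lit 8))
    (@En.n l117 (nat_lit 10152) (nat_lit 7) (nat_lit 3))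
    (@En.n l781 (nat_lit 7629) (nat_lit 0) (nat_lit 11))
    (@En.n l19001 (nat_lit 8873) (nat_lit 9) (nat_lit 3))
    (@En.n l8766 (nat_lit 4668) (nat_lit 0) (nat_lit 13))
    (@En.i (nat_lit 10195) (nat_lit 3) (nat_lit 10))
    (@En.n l4774 (nat_lit 4235) (nat_lit 2) (nat_lit 13))
    (@En.n l16721 (nat_lit 6404) (nat_lit 5) (nat_lit 4))
    (@En.n l17017 (nat_lit 10436) (nat_lit 6) (nat_lit 8))
    (@En.n l7 (nat_lit 4331) (nat_lit 15) (nat_lit 3))))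
  (@Cl.mk (nat_lit 0x300090006000d0005000c0003000d000700040003000d000a000d0003000b) (nat_lit 0xa0100037b00) (nat_lit 16) Lb.e (@T16.mk En
    (@En.i (nat_lit 7630) (nat_lit 0) (nat_lit 11))
    (@En.n l16294 (nat_lit 8874) (nat_lit 15) (nat_lit 3))
    (@En.n l9878 (nat_lit 5647) (nat_lit 0) (nat_lit 13))
    (@En.n l8906 (nat_lit 10191) (nat_lit 3) (nat_lit 10))
    (@En.i (nat_lit 9794) (nat_lit 2) (nat_lit 13))
    (@En.n l14194 (nat_lit 4331) (nat_lit 13) (nat_lit 3))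
    (@En.n l9878 (nat_lit 6399) (nat_lit 0) (nat_lit 4))
    (@En.n l97 (nat_lit 10459) (nat_lit 14) (nat_lit 7))
    (@En.n l3866 (nat_lit 2938) (nat_lit 1) (nat_lit 13))
    (@En.n l9878 (nat_lit 10146) (nat_lit 9) (nat_lit 3))
    (@En.n l37652 (nat_lit 9741) (nat_lit 0) (nat_lit 12))
    (@En.n l20731 (nat_lit 10139) (nat_lit 9) (nat_lit 5))
    (@En.i (nat_lit 10823) (nat_lit 13) (nat_lit 13))
    (@En.n l9715 (nat_lit 4329) (nat_lit 14) (nat_lit 6))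
    (@En.n l8906 (nat_lit 10294) (nat_lit 4) (nat_lit 9))
    (@En.n l28538 (nat_lit 10148) (nat_lit 15) (nat_lit 3))))
  (@Cl.mk (nat_lit 0x30008000d0004000d0003000c0003000c00080004000d0004000d0003000c) (nat_lit 0xa09000010a0200) (nat_lit 16) Lb.e (@T16.mk En
    (@En.n l899 (nat_lit 9573) (nat_lit 0) (nat_lit 12))
    (@En.n l3535 (nat_lit 8602) (nat_lit 8) (nat_lit 3))
    (@En.i (nat_lit 3626) (nat_lit 0) (nat_lit 13))
    (@En.n l3851 (nat_lit 9397) (nat_lit 3) (nat_lit 4))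
    (@En.n l617 (nat_lit 4244) (nat_lit 10) (nat_lit 13))
    (@En.n l2125 (nat_lit 8600) (nat_lit 5) (nat_lit 4))
    (@En.n l3536 (nat_lit 4331) (nat_lit 14) (nat_lit 8))
    (@En.n l9182 (nat_lit 10822) (nat_lit 8) (nat_lit 12))
    (@En.n l899 (nat_lit 4332) (nat_lit 8) (nat_lit 3))
    (@En.n l9967 (nat_lit 9144) (nat_lit 0) (nat_lit 12))
    (@En.n l3928 (nat_lit 9194) (nat_lit 10) (nat_lit 3))
    (@En.n l6914 (nat_lit 4350) (nat_lit 0) (nat_lit 13))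
    (@En.i (nat_lit 9195) (nat_lit 3) (nat_lit 4))
    (@En.n l899 (nat_lit 8304) (nat_lit 0) (nat_lit 13))
    (@En.i (nat_lit 8700) (nat_lit 3) (nat_lit 8))
    (@En.n l345 (nat_lit 9140) (nat_lit 15) (nat_lit 3))))
noncomputable def a271 : T16 Cl := @T16.mk Cl
  (@Cl.mk (nat_lit 0x20009000d000c000b0003000b000400070005000d0005000d0003000e0003) (nat_lit 0x71a306000a06030) (nat_lit 16) Lb.e (@T16.mk En
    (@En.n l14455 (nat_lit 4265) (nat_lit 15) (nat_lit 3))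
    (@En.n l21291 (nat_lit 13658) (nat_lit 0) (nat_lit 14))
    (@En.i (nat_lit 3336) (nat_lit 2) (nat_lit 3))
    (@En.n l8361 (nat_lit 4288) (nat_lit 0) (nat_lit 13))
    (@En.n l9530 (nat_lit 4463) (nat_lit 4) (nat_lit 5))
    (@En.n l1770 (nat_lit 8090) (nat_lit 6) (nat_lit 13))
    (@En.i (nat_lit 2996) (nat_lit 6) (nat_lit 5))
    (@En.n l22253 (nat_lit 3765) (nat_lit 7) (nat_lit 7))
    (@En.n l18994 (nat_lit 328) (nat_lit 8) (nat_lit 4))
    (@En.n l11010 (nat_lit 4339) (nat_lit 10) (nat_lit 11))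
    (@En.n l10862 (nat_lit 4337) (nat_lit 10) (nat_lit 3))
    (@En.n l15520 (nat_lit 349) (nat_lit 0) (nat_lit 11))
    (@En.n l22188 (nat_lit 3341) (nat_lit 13) (nat_lit 12))
    (@En.n l97 (nat_lit 3340) (nat_lit 14) (nat_lit 13))
    (@En.n l29865 (nat_lit 10325) (nat_lit 12) (nat_lit 9))
    (@En.n l17 (nat_lit 4336) (nat_lit 15) (nat_lit 2))))
  (@Cl.mk (nat_lit 0x20009000d000a000d0003000b000300070006000d0005000d0003000e0003) (nat_lit 0x712b06000a06030) (nat_lit 16) Lb.e (@T16.mk En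
    (@En.i (nat_lit 4262) (nat_lit 15) (nat_lit 3))
    (@En.n l476 (nat_lit 13056) (nat_lit 0) (nat_lit 14))
    (@En.i (nat_lit 3337) (nat_lit 2) (nat_lit 3))
    (@En.i (nat_lit 4285) (nat_lit 0) (nat_lit 13))
    (@En.i (nat_lit 4462) (nat_lit 4) (nat_lit 5))
    (@En.n l1770 (nat_lit 8089) (nat_lit 6) (nat_lit 13))
    (@En.n l527 (nat_lit 3004) (nat_lit 6) (nat_lit 6))
    (@En.n l1769 (nat_lit 3763) (nat_lit 7) (nat_lit 7))
    (@En.i (nat_lit 3341) (nat_lit 8) (nat_lit 3))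
    (@En.n l1867 (nat_lit 7057) (nat_lit 0) (nat_lit 11))
    (@En.n l10969 (nat_lit 4336) (nat_lit 10) (nat_lit 3))
    (@En.n l3062 (nat_lit 4789) (nat_lit 12) (nat_lit 13))
    (@En.n l5386 (nat_lit 1160) (nat_lit 13) (nat_lit 10))
    (@En.n l2038 (nat_lit 3002) (nat_lit 14) (nat_lit 13))
    (@En.i (nat_lit 10324) (nat_lit 12) (nat_lit 9))
    (@En.n l17 (nat_lit 4337) (nat_lit 15) (nat_lit 2))))
  (@Cl.mk (nat_lit 0x2000a000d000b000a0003000b00060005000c00060005000d0004000e0003) (nat_lit 0x668404000000080) (nat_lit 16) Lb.e (@T16.mk En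
    (@En.i (nat_lit 4341) (nat_lit 15) (nat_lit 3))
    (@En.n l8012 (nat_lit 14033) (nat_lit 0) (nat_lit 14))
    (@En.i (nat_lit 7125) (nat_lit 2) (nat_lit 4))
    (@En.n l11008 (nat_lit 10192) (nat_lit 9) (nat_lit 13))
    (@En.i (nat_lit 4337) (nat_lit 4) (nat_lit 5))
    (@En.n l11008 (nat_lit 7372) (nat_lit 5) (nat_lit 6))
    (@En.n l1770 (nat_lit 8098) (nat_lit 7) (nat_lit 12))
    (@En.n l22196 (nat_lit 7341) (nat_lit 7) (nat_lit 5))
    (@En.n l11010 (nat_lit 4339) (nat_lit 8) (nat_lit 6))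
    (@En.n l11008 (nat_lit 7037) (nat_lit 10) (nat_lit 11))
    (@En.n l24535 (nat_lit 4342) (nat_lit 10) (nat_lit 3))
    (@En.n l8689 (nat_lit 4864) (nat_lit 0) (nat_lit 10))
    (@En.n l15520 (nat_lit 7333) (nat_lit 13) (nat_lit 11))
    (@En.n l2038 (nat_lit 7408) (nat_lit 5) (nat_lit 13))
    (@En.i (nat_lit 8777) (nat_lit 3) (nat_lit 10))
    (@En.n l17 (nat_lit 4338) (nat_lit 15) (nat_lit 2))))
  (@Cl.mk (nat_lit 0x2000a0007000d000c000b000300060004000c00050009000d0004000e0003) (nat_lit 0x607950000020000) (nat_lit 16) Lb.e (@T16.mk En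
    (@En.i (nat_lit 4340) (nat_lit 15) (nat_lit 3))
    (@En.i (nat_lit 14036) (nat_lit 0) (nat_lit 14))
    (@En.i (nat_lit 7123) (nat_lit 2) (nat_lit 4))
    (@En.i (nat_lit 10190) (nat_lit 10) (nat_lit 13))
    (@En.n l649 (nat_lit 3797) (nat_lit 4) (nat_lit 9))
    (@En.i (nat_lit 7391) (nat_lit 5) (nat_lit 5))
    (@En.i (nat_lit 8099) (nat_lit 7) (nat_lit 12))
    (@En.i (nat_lit 7303) (nat_lit 7) (nat_lit 4))
    (@En.i (nat_lit 5596) (nat_lit 8) (nat_lit 6))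
    (@En.n l1865 (nat_lit 4344) (nat_lit 9) (nat_lit 3))
    (@En.n l619 (nat_lit 7192) (nat_lit 0) (nat_lit 11))
    (@En.n l3866 (nat_lit 4348) (nat_lit 12) (nat_lit 12))
    (@En.n l17017 (nat_lit 4338) (nat_lit 13) (nat_lit 13))
    (@En.i (nat_lit 2942) (nat_lit 14) (nat_lit 7))
    (@En.i (nat_lit 8781) (nat_lit 4) (nat_lit 10))
    (@En.n l50 (nat_lit 4339) (nat_lit 15) (nat_lit 2))))
  (@Cl.mk (nat_lit 0x30003000a0007000d000c000b000300060004000b00050009000d000d0005) (nat_lit 0x60797000002010) (nat_lit 16) Lb.e (@T16.mk En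
    (@En.i (nat_lit 7045) (nat_lit 0) (nat_lit 5))
    (@En.n l644 (nat_lit 4339) (nat_lit 3) (nat_lit 13))
    (@En.i (nat_lit 10194) (nat_lit 10) (nat_lit 13))
    (@En.n l3528 (nat_lit 3796) (nat_lit 10) (nat_lit 9))
    (@En.i (nat_lit 7203) (nat_lit 4) (nat_lit 5))
    (@En.i (nat_lit 8119) (nat_lit 13) (nat_lit 11))
    (@En.i (nat_lit 7207) (nat_lit 6) (nat_lit 4))
    (@En.i (nat_lit 5581) (nat_lit 12) (nat_lit 6))
    (@En.n l9956 (nat_lit 4345) (nat_lit 8) (nat_lit 3))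
    (@En.n l619 (nat_lit 4755) (nat_lit 0) (nat_lit 11))
    (@En.n l3866 (nat_lit 4349) (nat_lit 11) (nat_lit 12))
    (@En.n l17017 (nat_lit 4341) (nat_lit 12) (nat_lit 13))
    (@En.n l17334 (nat_lit 2943) (nat_lit 13) (nat_lit 7))
    (@En.i (nat_lit 8785) (nat_lit 4) (nat_lit 10))
    (@En.n l4200 (nat_lit 7212) (nat_lit 13) (nat_lit 3))
    (@En.n l7 (nat_lit 4339) (nat_lit 0) (nat_lit 3))))
  (@Cl.mk (nat_lit 0x30003000a000d000b000a0003000b00060005000b00060005000d000d0005) (nat_lit 0x66840400000010) (nat_lit 16) Lb.e (@T16.mk En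
    (@En.n l24301 (nat_lit 7046) (nat_lit 0) (nat_lit 5))
    (@En.n l61 (nat_lit 4338) (nat_lit 3) (nat_lit 13))
    (@En.n l11008 (nat_lit 10195) (nat_lit 9) (nat_lit 13))
    (@En.i (nat_lit 4262) (nat_lit 3) (nat_lit 5))
    (@En.n l19682 (nat_lit 7361) (nat_lit 4) (nat_lit 6))
    (@En.n l1770 (nat_lit 8121) (nat_lit 12) (nat_lit 11))
    (@En.n l3 (nat_lit 7328) (nat_lit 6) (nat_lit 5))
    (@En.n l11010 (nat_lit 4340) (nat_lit 7) (nat_lit 6))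
    (@En.n l28593 (nat_lit 7052) (nat_lit 9) (nat_lit 11))
    (@En.n l28594 (nat_lit 4343) (nat_lit 9) (nat_lit 3))
    (@En.n l8689 (nat_lit 4862) (nat_lit 0) (nat_lit 10))
    (@En.n l15520 (nat_lit 7332) (nat_lit 12) (nat_lit 11))
    (@En.n l2038 (nat_lit 7403) (nat_lit 5) (nat_lit 13))
    (@En.i (nat_lit 8786) (nat_lit 3) (nat_lit 10))
    (@En.n l19419 (nat_lit 7360) (nat_lit 13) (nat_lit 3))
    (@En.n l18 (nat_lit 4338) (nat_lit 0) (nat_lit 3))))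
  (@Cl.mk (nat_lit 0x2000a000d0009000c0003000b00060004000c00070005000d0004000e0003) (nat_lit 0x567904000000000) (nat_lit 16) Lb.e (@T16.mk En
    (@En.n l117 (nat_lit 4343) (nat_lit 15) (nat_lit 3))
    (@En.n l1998 (nat_lit 14031) (nat_lit 0) (nat_lit 14))
    (@En.n l24378 (nat_lit 7126) (nat_lit 2) (nat_lit 4))
    (@En.n l2579 (nat_lit 10197) (nat_lit 9) (nat_lit 13))
    (@En.n l6635 (nat_lit 4336) (nat_lit 4) (nat_lit 5))
    (@En.n l24379 (nat_lit 7281) (nat_lit 5) (nat_lit 7))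
    (@En.n l4270 (nat_lit 8100) (nat_lit 7) (nat_lit 12))
    (@En.n l24380 (nat_lit 7340) (nat_lit 7) (nat_lit 4))
    (@En.n l7 (nat_lit 4344) (nat_lit 8) (nat_lit 6))
    (@En.n l24381 (nat_lit 4346) (nat_lit 10) (nat_lit 11))
    (@En.n l24382 (nat_lit 4338) (nat_lit 10) (nat_lit 3))
    (@En.n l15198 (nat_lit 3580) (nat_lit 6) (nat_lit 12))
    (@En.n l24383 (nat_lit 4605) (nat_lit 13) (nat_lit 9))
    (@En.n l24379 (nat_lit 7409) (nat_lit 5) (nat_lit 13))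
    (@En.n l1998 (nat_lit 8437) (nat_lit 3) (nat_lit 10))
    (@En.n l11 (nat_lit 4342) (nat_lit 15) (nat_lit 2))))
  (@Cl.mk (nat_lit 0x30003000a000d0009000c0003000b00060004000b00070005000d000d0005) (nat_lit 0x56790400000010) (nat_lit 16) Lb.e (@T16.mk En
    (@En.n l14415 (nat_lit 7043) (nat_lit 0) (nat_lit 5))
    (@En.n l619 (nat_lit 4342) (nat_lit 3) (nat_lit 13))
    (@En.i (nat_lit 10200) (nat_lit 9) (nat_lit 13))
    (@En.n l396 (nat_lit 4265) (nat_lit 3) (nat_lit 5))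
    (@En.n l14416 (nat_lit 7282) (nat_lit 4) (nat_lit 7))
    (@En.i (nat_lit 8120) (nat_lit 12) (nat_lit 11))
    (@En.n l14417 (nat_lit 7321) (nat_lit 6) (nat_lit 4))
    (@En.n l7 (nat_lit 4345) (nat_lit 7) (nat_lit 6))
    (@En.n l14418 (nat_lit 4347) (nat_lit 9) (nat_lit 11))
    (@En.n l5835 (nat_lit 4341) (nat_lit 9) (nat_lit 3))
    (@En.n l6214 (nat_lit 3523) (nat_lit 6) (nat_lit 12))
    (@En.n l14419 (nat_lit 4606) (nat_lit 12) (nat_lit 9))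
    (@En.n l14420 (nat_lit 4615) (nat_lit 5) (nat_lit 13))
    (@En.n l649 (nat_lit 9071) (nat_lit 3) (nat_lit 10))
    (@En.n l14421 (nat_lit 7331) (nat_lit 13) (nat_lit 3))
    (@En.n l152 (nat_lit 4342) (nat_lit 0) (nat_lit 3))))
  (@Cl.mk (nat_lit 0x2000a0007000d000a000d000300060003000c00060009000d0004000e0003) (nat_lit 0x607890000020000) (nat_lit 16) Lb.e (@T16.mk En
    (@En.n l117 (nat_lit 4345) (nat_lit 15) (nat_lit 3))
    (@En.n l1998 (nat_lit 14037) (nat_lit 0) (nat_lit 14))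
    (@En.n l2576 (nat_lit 7124) (nat_lit 2) (nat_lit 4))
    (@En.n l2579 (nat_lit 9764) (nat_lit 10) (nat_lit 13))
    (@En.i (nat_lit 3800) (nat_lit 4) (nat_lit 9))
    (@En.n l476 (nat_lit 7283) (nat_lit 5) (nat_lit 6))
    (@En.i (nat_lit 8101) (nat_lit 7) (nat_lit 12))
    (@En.n l3291 (nat_lit 4348) (nat_lit 7) (nat_lit 3))
    (@En.i (nat_lit 2458) (nat_lit 8) (nat_lit 6))
    (@En.n l2869 (nat_lit 4339) (nat_lit 9) (nat_lit 3))
    (@En.n l2100 (nat_lit 3568) (nat_lit 0) (nat_lit 13))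
    (@En.n l2579 (nat_lit 4346) (nat_lit 12) (nat_lit 10))
    (@En.i (nat_lit 4342) (nat_lit 13) (nat_lit 13))
    (@En.n l14576 (nat_lit 2939) (nat_lit 14) (nat_lit 7))
    (@En.i (nat_lit 8433) (nat_lit 4) (nat_lit 10))
    (@En.n l11 (nat_lit 4344) (nat_lit 15) (nat_lit 2))))
  (@Cl.mk (nat_lit 0x30003000a0007000d000a000d000300060003000b00060009000d000d0005) (nat_lit 0x60789000002910) (nat_lit 16) Lb.e (@T16.mk En
    (@En.n l14309 (nat_lit 7044) (nat_lit 0) (nat_lit 5))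
    (@En.n l619 (nat_lit 4344) (nat_lit 3) (nat_lit 13))
    (@En.i (nat_lit 9753) (nat_lit 10) (nat_lit 13))
    (@En.i (nat_lit 3799) (nat_lit 9) (nat_lit 9))
    (@En.i (nat_lit 7284) (nat_lit 4) (nat_lit 6))
    (@En.i (nat_lit 8118) (nat_lit 13) (nat_lit 11))
    (@En.n l2705 (nat_lit 4349) (nat_lit 6) (nat_lit 3))
    (@En.i (nat_lit 2452) (nat_lit 0) (nat_lit 6))
    (@En.n l3522 (nat_lit 4340) (nat_lit 8) (nat_lit 3))
    (@En.n l2135 (nat_lit 3514) (nat_lit 0) (nat_lit 13))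
    (@En.n l28090 (nat_lit 4347) (nat_lit 11) (nat_lit 10))
    (@En.i (nat_lit 4343) (nat_lit 12) (nat_lit 13))
    (@En.n l8361 (nat_lit 2938) (nat_lit 13) (nat_lit 7))
    (@En.n l649 (nat_lit 9072) (nat_lit 4) (nat_lit 10))
    (@En.n l2261 (nat_lit 7214) (nat_lit 13) (nat_lit 3))
    (@En.n l152 (nat_lit 4344) (nat_lit 0) (nat_lit 3))))
  (@Cl.mk (nat_lit 0x2000b0007000a000d000b00050003000b000600050009000d0005000e0003) (nat_lit 0x607a30000030000) (nat_lit 16) Lb.e (@T16.mk En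
    (@En.n l16865 (nat_lit 4347) (nat_lit 15) (nat_lit 3))
    (@En.i (nat_lit 13980) (nat_lit 0) (nat_lit 14))
    (@En.i (nat_lit 7127) (nat_lit 2) (nat_lit 5))
    (@En.i (nat_lit 9087) (nat_lit 6) (nat_lit 13))
    (@En.n l16834 (nat_lit 4344) (nat_lit 4) (nat_lit 9))
    (@En.i (nat_lit 4339) (nat_lit 5) (nat_lit 5))
    (@En.n l9715 (nat_lit 7286) (nat_lit 6) (nat_lit 6))
    (@En.i (nat_lit 8116) (nat_lit 8) (nat_lit 11))
    (@En.n l3536 (nat_lit 7295) (nat_lit 8) (nat_lit 3))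
    (@En.n l5588 (nat_lit 2135) (nat_lit 0) (nat_lit 5))
    (@En.n l68 (nat_lit 7444) (nat_lit 11) (nat_lit 11))
    (@En.n l3866 (nat_lit 3503) (nat_lit 5) (nat_lit 13))
    (@En.n l9715 (nat_lit 3429) (nat_lit 13) (nat_lit 10))
    (@En.i (nat_lit 2940) (nat_lit 14) (nat_lit 7))
    (@En.i (nat_lit 8430) (nat_lit 14) (nat_lit 11))
    (@En.n l50 (nat_lit 4346) (nat_lit 15) (nat_lit 2))))
  (@Cl.mk (nat_lit 0x30003000b0007000a000d000b00050003000a000600050009000d000d0006) (nat_lit 0x607a3000003010) (nat_lit 16) Lb.e (@T16.mk En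
    (@En.n l21326 (nat_lit 7042) (nat_lit 0) (nat_lit 6))
    (@En.n l15031 (nat_lit 4346) (nat_lit 3) (nat_lit 13))
    (@En.n l8638 (nat_lit 8549) (nat_lit 6) (nat_lit 13))
    (@En.n l28579 (nat_lit 4345) (nat_lit 3) (nat_lit 9))
    (@En.n l8638 (nat_lit 4340) (nat_lit 4) (nat_lit 5))
    (@En.n l13924 (nat_lit 7285) (nat_lit 5) (nat_lit 6))
    (@En.n l28580 (nat_lit 8117) (nat_lit 7) (nat_lit 10))
    (@En.n l50 (nat_lit 7216) (nat_lit 7) (nat_lit 3))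
    (@En.n l28581 (nat_lit 2132) (nat_lit 0) (nat_lit 5))
    (@En.n l217 (nat_lit 7115) (nat_lit 10) (nat_lit 11))
    (@En.n l3530 (nat_lit 3506) (nat_lit 5) (nat_lit 13))
    (@En.n l1769 (nat_lit 3430) (nat_lit 8) (nat_lit 10))
    (@En.n l13923 (nat_lit 2941) (nat_lit 13) (nat_lit 7))
    (@En.n l22927 (nat_lit 9075) (nat_lit 14) (nat_lit 11))
    (@En.n l7102 (nat_lit 7215) (nat_lit 13) (nat_lit 3))
    (@En.n l3203 (nat_lit 4346) (nat_lit 0) (nat_lit 3))))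
  (@Cl.mk (nat_lit 0x2000b0007000c000a000d000500040003000c00060009000d0004000e0003) (nat_lit 0x908890000020000) (nat_lit 16) Lb.e (@T16.mk En
    (@En.i (nat_lit 4349) (nat_lit 15) (nat_lit 3))
    (@En.i (nat_lit 14040) (nat_lit 0) (nat_lit 14))
    (@En.i (nat_lit 7128) (nat_lit 2) (nat_lit 4))
    (@En.i (nat_lit 9403) (nat_lit 4) (nat_lit 13))
    (@En.n l2921 (nat_lit 3802) (nat_lit 4) (nat_lit 9))
    (@En.i (nat_lit 7293) (nat_lit 5) (nat_lit 6))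
    (@En.i (nat_lit 7298) (nat_lit 7) (nat_lit 12))
    (@En.n l2101 (nat_lit 4344) (nat_lit 7) (nat_lit 3))
    (@En.n l18 (nat_lit 7448) (nat_lit 0) (nat_lit 4))
    (@En.n l6081 (nat_lit 7419) (nat_lit 9) (nat_lit 5))
    (@En.i (nat_lit 2877) (nat_lit 5) (nat_lit 13))
    (@En.n l61 (nat_lit 7295) (nat_lit 12) (nat_lit 10))
    (@En.n l1353 (nat_lit 7340) (nat_lit 13) (nat_lit 12))
    (@En.i (nat_lit 2946) (nat_lit 14) (nat_lit 7))
    (@En.i (nat_lit 10655) (nat_lit 14) (nat_lit 11))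
    (@En.n l28 (nat_lit 4348) (nat_lit 15) (nat_lit 2))))
  (@Cl.mk (nat_lit 0x30003000b0007000c000a000d000500040003000b00060009000d000d0005) (nat_lit 0x90889000002010) (nat_lit 16) Lb.e (@T16.mk En
    (@En.i (nat_lit 6879) (nat_lit 0) (nat_lit 5))
    (@En.n l55 (nat_lit 4348) (nat_lit 3) (nat_lit 13))
    (@En.i (nat_lit 9754) (nat_lit 12) (nat_lit 13))
    (@En.n l2202 (nat_lit 3801) (nat_lit 9) (nat_lit 9))
    (@En.n l15523 (nat_lit 7294) (nat_lit 4) (nat_lit 6))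
    (@En.i (nat_lit 7300) (nat_lit 6) (nat_lit 11))
    (@En.n l669 (nat_lit 4345) (nat_lit 6) (nat_lit 3))
    (@En.n l18 (nat_lit 3532) (nat_lit 0) (nat_lit 4))
    (@En.n l882 (nat_lit 7420) (nat_lit 8) (nat_lit 5))
    (@En.i (nat_lit 3515) (nat_lit 5) (nat_lit 13))
    (@En.n l6277 (nat_lit 7216) (nat_lit 11) (nat_lit 10))
    (@En.n l10328 (nat_lit 7321) (nat_lit 12) (nat_lit 12))
    (@En.n l2774 (nat_lit 2945) (nat_lit 13) (nat_lit 7))
    (@En.i (nat_lit 10673) (nat_lit 14) (nat_lit 11))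
    (@En.i (nat_lit 7211) (nat_lit 13) (nat_lit 3))
    (@En.n l11 (nat_lit 4348) (nat_lit 0) (nat_lit 3))))
  (@Cl.mk (nat_lit 0x2000b00030008000c00080005000d0004000d0003000800030008000e000d) (nat_lit 0x205730103030618) (nat_lit 16) Lb.e (@T16.mk En
    (@En.n l38432 (nat_lit 3971) (nat_lit 2) (nat_lit 13))
    (@En.n l24741 (nat_lit 2778) (nat_lit 1) (nat_lit 14))
    (@En.n l38433 (nat_lit 7075) (nat_lit 2) (nat_lit 8))
    (@En.n l2261 (nat_lit 4351) (nat_lit 3) (nat_lit 3))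
    (@En.n l16824 (nat_lit 3994) (nat_lit 0) (nat_lit 8))
    (@En.n l8013 (nat_lit 3969) (nat_lit 5) (nat_lit 3))
    (@En.n l619 (nat_lit 3986) (nat_lit 0) (nat_lit 13))
    (@En.n l11010 (nat_lit 4185) (nat_lit 7) (nat_lit 4))
    (@En.n l17747 (nat_lit 3015) (nat_lit 9) (nat_lit 13))
    (@En.n l3088 (nat_lit 4435) (nat_lit 9) (nat_lit 5))
    (@En.i (nat_lit 4292) (nat_lit 11) (nat_lit 8))
    (@En.n l12842 (nat_lit 3767) (nat_lit 12) (nat_lit 12))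
    (@En.n l6362 (nat_lit 7301) (nat_lit 13) (nat_lit 8))
    (@En.n l24741 (nat_lit 3971) (nat_lit 14) (nat_lit 3))
    (@En.n l12362 (nat_lit 3120) (nat_lit 0) (nat_lit 11))
    (@En.n l50 (nat_lit 4350) (nat_lit 15) (nat_lit 2))))
  (@Cl.mk (nat_lit 0x2000b00030009000c00080005000c0004000d0007000400030008000e000d) (nat_lit 0x405740303000618) (nat_lit 16) Lb.e (@T16.mk En
    (@En.n l33767 (nat_lit 4352) (nat_lit 2) (nat_lit 13))
    (@En.n l9947 (nat_lit 2554) (nat_lit 1) (nat_lit 14))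
    (@En.n l3213 (nat_lit 5627) (nat_lit 2) (nat_lit 8))
    (@En.n l6636 (nat_lit 4350) (nat_lit 3) (nat_lit 3))
    (@En.n l889 (nat_lit 3244) (nat_lit 0) (nat_lit 4))
    (@En.n l34978 (nat_lit 4195) (nat_lit 5) (nat_lit 7))
    (@En.n l6635 (nat_lit 3915) (nat_lit 7) (nat_lit 13))
    (@En.i (nat_lit 4188) (nat_lit 7) (nat_lit 4))
    (@En.n l34979 (nat_lit 4492) (nat_lit 9) (nat_lit 12))
    (@En.n l1307 (nat_lit 3582) (nat_lit 9) (nat_lit 5))
    (@En.n l31908 (nat_lit 6174) (nat_lit 11) (nat_lit 8))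
    (@En.i (nat_lit 3773) (nat_lit 6) (nat_lit 12))
    (@En.n l6672 (nat_lit 9462) (nat_lit 13) (nat_lit 9))
    (@En.n l34980 (nat_lit 4352) (nat_lit 14) (nat_lit 3))
    (@En.n l4282 (nat_lit 3121) (nat_lit 0) (nat_lit 11))
    (@En.n l3 (nat_lit 4351) (nat_lit 15) (nat_lit 2))))
noncomputable def a272 : T16 Cl := @T16.mk Cl
  (@Cl.mk (nat_lit 0x300030009000c00080006000c0004000d0007000400030008000d000d000a) (nat_lit 0x54203020006793) (nat_lit 16) Lb.e (@T16.mk En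
    (@En.n l28565 (nat_lit 4355) (nat_lit 0) (nat_lit 10))
    (@En.n l61 (nat_lit 4353) (nat_lit 3) (nat_lit 13))
    (@En.n l4003 (nat_lit 4246) (nat_lit 2) (nat_lit 13))
    (@En.n l28566 (nat_lit 5626) (nat_lit 3) (nat_lit 8))
    (@En.n l28328 (nat_lit 3971) (nat_lit 4) (nat_lit 3))
    (@En.i (nat_lit 2878) (nat_lit 0) (nat_lit 4))
    (@En.n l18630 (nat_lit 4193) (nat_lit 6) (nat_lit 7))
    (@En.n l28567 (nat_lit 2081) (nat_lit 1) (nat_lit 13))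
    (@En.n l28568 (nat_lit 4187) (nat_lit 8) (nat_lit 4))
    (@En.n l4003 (nat_lit 4491) (nat_lit 10) (nat_lit 12))
    (@En.n l5644 (nat_lit 4396) (nat_lit 5) (nat_lit 6))
    (@En.n l28569 (nat_lit 6177) (nat_lit 12) (nat_lit 8))
    (@En.n l28568 (nat_lit 3769) (nat_lit 6) (nat_lit 12))
    (@En.n l25241 (nat_lit 9951) (nat_lit 14) (nat_lit 9))
    (@En.n l28570 (nat_lit 4351) (nat_lit 13) (nat_lit 3))
    (@En.n l18 (nat_lit 4353) (nat_lit 0) (nat_lit 3))))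
  (@Cl.mk (nat_lit 0x20009000c00080007000c0004000d0007000400030008000d0009000e0003) (nat_lit 0x512030300048190) (nat_lit 16) Lb.e (@T16.mk En
    (@En.i (nat_lit 4352) (nat_lit 15) (nat_lit 3))
    (@En.n l4980 (nat_lit 13970) (nat_lit 0) (nat_lit 14))
    (@En.i (nat_lit 3957) (nat_lit 2) (nat_lit 9))
    (@En.n l4003 (nat_lit 4243) (nat_lit 4) (nat_lit 13))
    (@En.n l3506 (nat_lit 5628) (nat_lit 4) (nat_lit 8))
    (@En.n l5200 (nat_lit 4354) (nat_lit 5) (nat_lit 3))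
    (@En.i (nat_lit 3245) (nat_lit 0) (nat_lit 4))
    (@En.i (nat_lit 4194) (nat_lit 7) (nat_lit 7))
    (@En.n l8015 (nat_lit 3913) (nat_lit 9) (nat_lit 13))
    (@En.n l8400 (nat_lit 4189) (nat_lit 9) (nat_lit 4))
    (@En.n l4003 (nat_lit 4502) (nat_lit 11) (nat_lit 12))
    (@En.n l644 (nat_lit 4372) (nat_lit 12) (nat_lit 7))
    (@En.n l17884 (nat_lit 6187) (nat_lit 13) (nat_lit 8))
    (@En.n l4003 (nat_lit 3772) (nat_lit 6) (nat_lit 12))
    (@En.i (nat_lit 9952) (nat_lit 14) (nat_lit 9))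
    (@En.n l17 (nat_lit 4353) (nat_lit 15) (nat_lit 2))))
  (@Cl.mk (nat_lit 0x20008000c00080007000d0004000d0003000800030008000d0009000e0003) (nat_lit 0x582010304048190) (nat_lit 16) Lb.e (@T16.mk En
    (@En.n l10393 (nat_lit 3971) (nat_lit 15) (nat_lit 3))
    (@En.n l619 (nat_lit 13969) (nat_lit 0) (nat_lit 14))
    (@En.n l37004 (nat_lit 3956) (nat_lit 2) (nat_lit 9))
    (@En.n l617 (nat_lit 4244) (nat_lit 12) (nat_lit 13))
    (@En.n l37710 (nat_lit 7080) (nat_lit 4) (nat_lit 8))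
    (@En.n l3348 (nat_lit 4353) (nat_lit 5) (nat_lit 3))
    (@En.n l387 (nat_lit 3997) (nat_lit 0) (nat_lit 8))
    (@En.n l3348 (nat_lit 3970) (nat_lit 7) (nat_lit 3))
    (@En.n l725 (nat_lit 3914) (nat_lit 0) (nat_lit 13))
    (@En.n l1501 (nat_lit 4186) (nat_lit 9) (nat_lit 4))
    (@En.n l899 (nat_lit 3017) (nat_lit 11) (nat_lit 13))
    (@En.n l1769 (nat_lit 4370) (nat_lit 12) (nat_lit 7))
    (@En.n l37004 (nat_lit 6186) (nat_lit 13) (nat_lit 8))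
    (@En.n l617 (nat_lit 3768) (nat_lit 14) (nat_lit 12))
    (@En.i (nat_lit 9961) (nat_lit 6) (nat_lit 8))
    (@En.n l11 (nat_lit 4354) (nat_lit 15) (nat_lit 2))))
  (@Cl.mk (nat_lit 0x2000b0008000b000700060005000c0005000d0008000400030009000e000a) (nat_lit 0x4510003016007a2) (nat_lit 16) Lb.e (@T16.mk En
    (@En.n l9458 (nat_lit 3148) (nat_lit 13) (nat_lit 10))
    (@En.n l30327 (nat_lit 5095) (nat_lit 1) (nat_lit 14))
    (@En.n l10459 (nat_lit 6525) (nat_lit 2) (nat_lit 9))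
    (@En.n l30328 (nat_lit 4356) (nat_lit 3) (nat_lit 3))
    (@En.n l30329 (nat_lit 3222) (nat_lit 0) (nat_lit 4))
    (@En.n l30330 (nat_lit 3156) (nat_lit 5) (nat_lit 8))
    (@En.n l14489 (nat_lit 3092) (nat_lit 7) (nat_lit 13))
    (@En.n l1393 (nat_lit 4359) (nat_lit 7) (nat_lit 5))
    (@En.n l9456 (nat_lit 5292) (nat_lit 9) (nat_lit 12))
    (@En.n l11 (nat_lit 4351) (nat_lit 9) (nat_lit 5))
    (@En.n l4281 (nat_lit 3659) (nat_lit 10) (nat_lit 6))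
    (@En.n l28639 (nat_lit 7163) (nat_lit 12) (nat_lit 7))
    (@En.i (nat_lit 1369) (nat_lit 7) (nat_lit 11))
    (@En.n l30327 (nat_lit 6763) (nat_lit 14) (nat_lit 8))
    (@En.n l9457 (nat_lit 3122) (nat_lit 11) (nat_lit 11))
    (@En.n l3 (nat_lit 4355) (nat_lit 15) (nat_lit 2))))
  (@Cl.mk (nat_lit 0x2000b0007000b000700060005000d0005000d0003000900030009000e000a) (nat_lit 0x3010003020700a2) (nat_lit 16) Lb.e (@T16.mk En
    (@En.n l26675 (nat_lit 3154) (nat_lit 11) (nat_lit 10))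
    (@En.n l26573 (nat_lit 5094) (nat_lit 1) (nat_lit 14))
    (@En.n l15054 (nat_lit 6583) (nat_lit 2) (nat_lit 9))
    (@En.n l19814 (nat_lit 4355) (nat_lit 3) (nat_lit 3))
    (@En.n l1326 (nat_lit 3170) (nat_lit 0) (nat_lit 9))
    (@En.n l11320 (nat_lit 4357) (nat_lit 5) (nat_lit 3))
    (@En.n l25331 (nat_lit 3097) (nat_lit 0) (nat_lit 13))
    (@En.n l24434 (nat_lit 4358) (nat_lit 7) (nat_lit 5))
    (@En.n l26676 (nat_lit 5297) (nat_lit 9) (nat_lit 13))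
    (@En.n l26677 (nat_lit 4350) (nat_lit 9) (nat_lit 5))
    (@En.n l26577 (nat_lit 4570) (nat_lit 10) (nat_lit 6))
    (@En.n l25329 (nat_lit 7906) (nat_lit 12) (nat_lit 7))
    (@En.n l26577 (nat_lit 1370) (nat_lit 13) (nat_lit 11))
    (@En.n l253 (nat_lit 4439) (nat_lit 14) (nat_lit 7))
    (@En.n l26580 (nat_lit 3119) (nat_lit 9) (nat_lit 11))
    (@En.n l17 (nat_lit 4356) (nat_lit 15) (nat_lit 2))))
  (@Cl.mk (nat_lit 0x2000b0007000a000700060005000d000c00060003000900040009000e000a) (nat_lit 0x3010003400700a2) (nat_lit 16) Lb.e (@T16.mk En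
    (@En.n l24917 (nat_lit 3158) (nat_lit 11) (nat_lit 10))
    (@En.n l5646 (nat_lit 5093) (nat_lit 1) (nat_lit 14))
    (@En.n l1003 (nat_lit 6582) (nat_lit 2) (nat_lit 9))
    (@En.n l17958 (nat_lit 3220) (nat_lit 3) (nat_lit 4))
    (@En.n l617 (nat_lit 4358) (nat_lit 4) (nat_lit 9))
    (@En.n l24918 (nat_lit 4356) (nat_lit 5) (nat_lit 3))
    (@En.n l24919 (nat_lit 1975) (nat_lit 0) (nat_lit 6))
    (@En.n l24920 (nat_lit 4355) (nat_lit 8) (nat_lit 12))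
    (@En.n l7189 (nat_lit 5299) (nat_lit 9) (nat_lit 13))
    (@En.i (nat_lit 3969) (nat_lit 9) (nat_lit 5))
    (@En.n l24921 (nat_lit 4572) (nat_lit 10) (nat_lit 6))
    (@En.n l17023 (nat_lit 7907) (nat_lit 12) (nat_lit 7))
    (@En.n l24921 (nat_lit 1375) (nat_lit 8) (nat_lit 10))
    (@En.n l7082 (nat_lit 4440) (nat_lit 14) (nat_lit 7))
    (@En.n l24922 (nat_lit 3124) (nat_lit 9) (nat_lit 11))
    (@En.n l28 (nat_lit 4357) (nat_lit 15) (nat_lit 2))))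
  (@Cl.mk (nat_lit 0x2000a0007000b000a0008000700060005000d0006000900030008000e0009) (nat_lit 0x106240004060092) (nat_lit 16) Lb.e (@T16.mk En
    (@En.n l30609 (nat_lit 3152) (nat_lit 13) (nat_lit 9))
    (@En.n l6080 (nat_lit 5092) (nat_lit 1) (nat_lit 14))
    (@En.n l152 (nat_lit 6584) (nat_lit 2) (nat_lit 8))
    (@En.n l30339 (nat_lit 4359) (nat_lit 3) (nat_lit 3))
    (@En.n l34332 (nat_lit 3168) (nat_lit 0) (nat_lit 9))
    (@En.n l39412 (nat_lit 1973) (nat_lit 5) (nat_lit 6))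
    (@En.n l39413 (nat_lit 3156) (nat_lit 7) (nat_lit 13))
    (@En.n l26595 (nat_lit 7434) (nat_lit 7) (nat_lit 5))
    (@En.i (nat_lit 4185) (nat_lit 8) (nat_lit 6))
    (@En.n l33754 (nat_lit 4575) (nat_lit 9) (nat_lit 7))
    (@En.i (nat_lit 7813) (nat_lit 11) (nat_lit 8))
    (@En.n l61 (nat_lit 4357) (nat_lit 12) (nat_lit 10))
    (@En.n l24726 (nat_lit 3270) (nat_lit 13) (nat_lit 11))
    (@En.n l39414 (nat_lit 4441) (nat_lit 14) (nat_lit 7))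
    (@En.n l39415 (nat_lit 3126) (nat_lit 11) (nat_lit 10))
    (@En.n l28 (nat_lit 4358) (nat_lit 15) (nat_lit 2))))
  (@Cl.mk (nat_lit 0x2000a0008000b00090008000700060005000d0008000700030008000e0009) (nat_lit 0x156740004400592) (nat_lit 16) Lb.e (@T16.mk En
    (@En.i (nat_lit 3157) (nat_lit 13) (nat_lit 9))
    (@En.n l24427 (nat_lit 5089) (nat_lit 1) (nat_lit 14))
    (@En.n l6372 (nat_lit 6522) (nat_lit 2) (nat_lit 8))
    (@En.n l24428 (nat_lit 4358) (nat_lit 3) (nat_lit 3))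
    (@En.n l22997 (nat_lit 1761) (nat_lit 0) (nat_lit 7))
    (@En.n l24429 (nat_lit 4361) (nat_lit 5) (nat_lit 8))
    (@En.n l9775 (nat_lit 4360) (nat_lit 7) (nat_lit 13))
    (@En.n l15740 (nat_lit 7433) (nat_lit 7) (nat_lit 5))
    (@En.n l4019 (nat_lit 4188) (nat_lit 8) (nat_lit 6))
    (@En.i (nat_lit 4578) (nat_lit 9) (nat_lit 7))
    (@En.i (nat_lit 7814) (nat_lit 11) (nat_lit 8))
    (@En.n l10019 (nat_lit 3220) (nat_lit 12) (nat_lit 9))
    (@En.i (nat_lit 3724) (nat_lit 7) (nat_lit 11))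
    (@En.n l61 (nat_lit 6570) (nat_lit 14) (nat_lit 8))
    (@En.n l6369 (nat_lit 3131) (nat_lit 11) (nat_lit 10))
    (@En.n l7 (nat_lit 4359) (nat_lit 15) (nat_lit 2))))
  (@Cl.mk (nat_lit 0x2000a00090007000a000800070006000d00070006000300090008000e0009) (nat_lit 0x160740030004692) (nat_lit 16) Lb.e (@T16.mk En
    (@En.n l3279 (nat_lit 3149) (nat_lit 12) (nat_lit 9))
    (@En.n l1572 (nat_lit 5087) (nat_lit 1) (nat_lit 14))
    (@En.n l34712 (nat_lit 6523) (nat_lit 2) (nat_lit 8))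
    (@En.n l34713 (nat_lit 4361) (nat_lit 3) (nat_lit 9))
    (@En.n l34714 (nat_lit 3156) (nat_lit 4) (nat_lit 3))
    (@En.n l15145 (nat_lit 1517) (nat_lit 0) (nat_lit 6))
    (@En.n l7913 (nat_lit 1657) (nat_lit 6) (nat_lit 7))
    (@En.n l34715 (nat_lit 5289) (nat_lit 8) (nat_lit 13))
    (@En.n l34716 (nat_lit 2360) (nat_lit 8) (nat_lit 6))
    (@En.i (nat_lit 3658) (nat_lit 9) (nat_lit 7))
    (@En.i (nat_lit 7158) (nat_lit 11) (nat_lit 8))
    (@En.n l29862 (nat_lit 3222) (nat_lit 8) (nat_lit 10))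
    (@En.n l34716 (nat_lit 4357) (nat_lit 13) (nat_lit 7))
    (@En.n l644 (nat_lit 6573) (nat_lit 14) (nat_lit 9))
    (@En.n l9825 (nat_lit 1993) (nat_lit 10) (nat_lit 10))
    (@En.n l11 (nat_lit 4360) (nat_lit 15) (nat_lit 2))))
  (@Cl.mk (nat_lit 0x2000900080007000b000a00090008000700050008000600090007000e0008) (nat_lit 0x160785600303086) (nat_lit 16) Lb.e (@T16.mk En
    (@En.n l22984 (nat_lit 3153) (nat_lit 10) (nat_lit 8))
    (@En.n l39317 (nat_lit 5086) (nat_lit 1) (nat_lit 14))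
    (@En.n l39318 (nat_lit 6521) (nat_lit 2) (nat_lit 7))
    (@En.n l7221 (nat_lit 3171) (nat_lit 3) (nat_lit 9))
    (@En.n l8547 (nat_lit 1518) (nat_lit 4) (nat_lit 6))
    (@En.n l22373 (nat_lit 1655) (nat_lit 5) (nat_lit 8))
    (@En.n l152 (nat_lit 7436) (nat_lit 6) (nat_lit 5))
    (@En.n l7221 (nat_lit 2359) (nat_lit 7) (nat_lit 7))
    (@En.n l39319 (nat_lit 4580) (nat_lit 8) (nat_lit 8))
    (@En.n l39320 (nat_lit 7816) (nat_lit 10) (nat_lit 9))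
    (@En.n l39321 (nat_lit 4360) (nat_lit 11) (nat_lit 10))
    (@En.n l36309 (nat_lit 4359) (nat_lit 12) (nat_lit 11))
    (@En.n l39322 (nat_lit 4358) (nat_lit 13) (nat_lit 7))
    (@En.n l5579 (nat_lit 6571) (nat_lit 14) (nat_lit 8))
    (@En.n l36459 (nat_lit 1997) (nat_lit 8) (nat_lit 9))
    (@En.n l50 (nat_lit 4361) (nat_lit 15) (nat_lit 2))))
  (@Cl.mk (nat_lit 0x20008000b00090008000600090005000d00080007000300080007000e000a) (nat_lit 0x5653070140060a1) (nat_lit 16) Lb.e (@T16.mk En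
    (@En.n l1643 (nat_lit 3131) (nat_lit 12) (nat_lit 10))
    (@En.n l4684 (nat_lit 4359) (nat_lit 1) (nat_lit 14))
    (@En.n l9950 (nat_lit 1101) (nat_lit 2) (nat_lit 7))
    (@En.n l3213 (nat_lit 6517) (nat_lit 3) (nat_lit 8))
    (@En.n l2869 (nat_lit 3125) (nat_lit 4) (nat_lit 3))
    (@En.n l36466 (nat_lit 1769) (nat_lit 0) (nat_lit 7))
    (@En.n l36467 (nat_lit 4363) (nat_lit 6) (nat_lit 8))
    (@En.n l36468 (nat_lit 1995) (nat_lit 8) (nat_lit 13))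
    (@En.n l2486 (nat_lit 11208) (nat_lit 8) (nat_lit 5))
    (@En.n l1391 (nat_lit 13224) (nat_lit 9) (nat_lit 9))
    (@En.n l36466 (nat_lit 4299) (nat_lit 11) (nat_lit 6))
    (@En.i (nat_lit 7812) (nat_lit 12) (nat_lit 8))
    (@En.n l2366 (nat_lit 3198) (nat_lit 13) (nat_lit 9))
    (@En.i (nat_lit 3322) (nat_lit 7) (nat_lit 11))
    (@En.n l14619 (nat_lit 9422) (nat_lit 10) (nat_lit 8))
    (@En.n l107 (nat_lit 4362) (nat_lit 15) (nat_lit 2))))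
  (@Cl.mk (nat_lit 0x200080007000b000a00090007000a000500080006000900070006000e0009) (nat_lit 0x507640803050091) (nat_lit 16) Lb.e (@T16.mk En
    (@En.n l34299 (nat_lit 1997) (nat_lit 9) (nat_lit 9))
    (@En.n l5601 (nat_lit 4361) (nat_lit 1) (nat_lit 14))
    (@En.n l34300 (nat_lit 1304) (nat_lit 2) (nat_lit 6))
    (@En.n l34301 (nat_lit 6516) (nat_lit 3) (nat_lit 7))
    (@En.i (nat_lit 5222) (nat_lit 4) (nat_lit 9))
    (@En.n l396 (nat_lit 1464) (nat_lit 5) (nat_lit 6))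
    (@En.i (nat_lit 1989) (nat_lit 6) (nat_lit 8))
    (@En.n l34302 (nat_lit 11280) (nat_lit 7) (nat_lit 5))
    (@En.n l28318 (nat_lit 13221) (nat_lit 8) (nat_lit 10))
    (@En.n l4003 (nat_lit 4305) (nat_lit 10) (nat_lit 7))
    (@En.n l34303 (nat_lit 4657) (nat_lit 11) (nat_lit 9))
    (@En.n l34304 (nat_lit 1995) (nat_lit 12) (nat_lit 10))
    (@En.n l34305 (nat_lit 4362) (nat_lit 13) (nat_lit 11))
    (@En.n l34306 (nat_lit 3125) (nat_lit 14) (nat_lit 7))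
    (@En.n l34307 (nat_lit 8402) (nat_lit 6) (nat_lit 8))
    (@En.n l28 (nat_lit 4363) (nat_lit 15) (nat_lit 2))))
  (@Cl.mk (nat_lit 0x300030009000c0008000d000c0004000300070004000c0008000d000d0004) (nat_lit 0x7a231000064b90) (nat_lit 16) Lb.e (@T16.mk En
    (@En.n l17070 (nat_lit 4425) (nat_lit 0) (nat_lit 4))
    (@En.n l17071 (nat_lit 4367) (nat_lit 3) (nat_lit 13))
    (@En.i (nat_lit 4407) (nat_lit 1) (nat_lit 13))
    (@En.n l17072 (nat_lit 3968) (nat_lit 3) (nat_lit 8))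
    (@En.n l3523 (nat_lit 12462) (nat_lit 13) (nat_lit 12))
    (@En.n l13793 (nat_lit 2875) (nat_lit 5) (nat_lit 4))
    (@En.n l17073 (nat_lit 2333) (nat_lit 6) (nat_lit 7))
    (@En.n l50 (nat_lit 4365) (nat_lit 7) (nat_lit 3))
    (@En.n l11705 (nat_lit 830) (nat_lit 0) (nat_lit 4))
    (@En.n l17074 (nat_lit 2332) (nat_lit 10) (nat_lit 12))
    (@En.n l13793 (nat_lit 3764) (nat_lit 11) (nat_lit 13))
    (@En.n l17075 (nat_lit 4497) (nat_lit 12) (nat_lit 8))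
    (@En.i (nat_lit 3792) (nat_lit 6) (nat_lit 12))
    (@En.n l11244 (nat_lit 7614) (nat_lit 5) (nat_lit 9))
    (@En.n l17076 (nat_lit 2660) (nat_lit 13) (nat_lit 3))
    (@En.n l17077 (nat_lit 4367) (nat_lit 0) (nat_lit 3))))
  (@Cl.mk (nat_lit 0x300030009000d0008000d0003000d000300070003000c0008000d000d0004) (nat_lit 0x77220200055b90) (nat_lit 16) Lb.e (@T16.mk En
    (@En.n l17070 (nat_lit 4424) (nat_lit 0) (nat_lit 4))
    (@En.n l10858 (nat_lit 4366) (nat_lit 3) (nat_lit 13))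
    (@En.i (nat_lit 4402) (nat_lit 1) (nat_lit 13))
    (@En.n l3471 (nat_lit 3971) (nat_lit 3) (nat_lit 8))
    (@En.i (nat_lit 12463) (nat_lit 13) (nat_lit 12))
    (@En.n l13793 (nat_lit 2332) (nat_lit 5) (nat_lit 3))
    (@En.n l6042 (nat_lit 4684) (nat_lit 0) (nat_lit 7))
    (@En.i (nat_lit 4364) (nat_lit 7) (nat_lit 3))
    (@En.n l61 (nat_lit 3907) (nat_lit 0) (nat_lit 13))
    (@En.n l32613 (nat_lit 2333) (nat_lit 9) (nat_lit 3))
    (@En.n l13793 (nat_lit 3767) (nat_lit 0) (nat_lit 13))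
    (@En.i (nat_lit 4500) (nat_lit 12) (nat_lit 8))
    (@En.i (nat_lit 3719) (nat_lit 6) (nat_lit 13))
    (@En.n l11244 (nat_lit 7615) (nat_lit 5) (nat_lit 9))
    (@En.n l32614 (nat_lit 2331) (nat_lit 13) (nat_lit 3))
    (@En.n l6962 (nat_lit 4366) (nat_lit 0) (nat_lit 3))))
  (@Cl.mk (nat_lit 0x20009000d0008000d0003000d000300070003000d0008000d0003000e0003) (nat_lit 0x592302000a58030) (nat_lit 16) Lb.e (@T16.mk En
    (@En.n l6680 (nat_lit 4365) (nat_lit 15) (nat_lit 3))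
    (@En.i (nat_lit 13734) (nat_lit 0) (nat_lit 14))
    (@En.n l2576 (nat_lit 4370) (nat_lit 2) (nat_lit 3))
    (@En.i (nat_lit 4404) (nat_lit 0) (nat_lit 13))
    (@En.i (nat_lit 4354) (nat_lit 4) (nat_lit 8))
    (@En.i (nat_lit 12125) (nat_lit 6) (nat_lit 13))
    (@En.n l3348 (nat_lit 4369) (nat_lit 6) (nat_lit 3))
    (@En.n l387 (nat_lit 4791) (nat_lit 7) (nat_lit 7))
    (@En.n l3348 (nat_lit 4367) (nat_lit 8) (nat_lit 3))
    (@En.n l725 (nat_lit 3909) (nat_lit 0) (nat_lit 13))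
    (@En.n l1501 (nat_lit 4368) (nat_lit 10) (nat_lit 3))
    (@En.n l3348 (nat_lit 3765) (nat_lit 12) (nat_lit 13))
    (@En.i (nat_lit 6244) (nat_lit 13) (nat_lit 8))
    (@En.n l617 (nat_lit 3780) (nat_lit 14) (nat_lit 13))
    (@En.i (nat_lit 7618) (nat_lit 12) (nat_lit 9))
    (@En.n l11 (nat_lit 4366) (nat_lit 15) (nat_lit 2))))
  (@Cl.mk (nat_lit 0x20009000c0008000d000c0004000300070004000d0008000d0003000e0003) (nat_lit 0x592330000a48030) (nat_lit 16) Lb.e (@T16.mk En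
    (@En.n l17060 (nat_lit 4364) (nat_lit 15) (nat_lit 3))
    (@En.n l3082 (nat_lit 13735) (nat_lit 0) (nat_lit 14))
    (@En.i (nat_lit 3649) (nat_lit 2) (nat_lit 3))
    (@En.n l3082 (nat_lit 4406) (nat_lit 0) (nat_lit 13))
    (@En.i (nat_lit 3970) (nat_lit 4) (nat_lit 8))
    (@En.n l1596 (nat_lit 7890) (nat_lit 6) (nat_lit 13))
    (@En.i (nat_lit 3605) (nat_lit 6) (nat_lit 4))
    (@En.n l219 (nat_lit 4368) (nat_lit 7) (nat_lit 7))
    (@En.n l5760 (nat_lit 4366) (nat_lit 8) (nat_lit 3))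
    (@En.n l5870 (nat_lit 828) (nat_lit 0) (nat_lit 4))
    (@En.n l55 (nat_lit 4369) (nat_lit 11) (nat_lit 12))
    (@En.i (nat_lit 3763) (nat_lit 12) (nat_lit 13))
    (@En.n l17061 (nat_lit 4503) (nat_lit 13) (nat_lit 8))
    (@En.n l5579 (nat_lit 3791) (nat_lit 6) (nat_lit 12))
    (@En.n l3082 (nat_lit 7617) (nat_lit 12) (nat_lit 9))
    (@En.n l17 (nat_lit 4367) (nat_lit 15) (nat_lit 2))))
noncomputable def a273 : T16 Cl := @T16.mk Cl
  (@Cl.mk (nat_lit 0x20009000d000c00090003000d000400070003000d0007000d0003000e0003) (nat_lit 0x79a302000a0b030) (nat_lit 16) Lb.e (@T16.mk En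
    (@En.i (nat_lit 2333) (nat_lit 15) (nat_lit 3))
    (@En.i (nat_lit 13733) (nat_lit 0) (nat_lit 14))
    (@En.i (nat_lit 4371) (nat_lit 2) (nat_lit 3))
    (@En.n l170 (nat_lit 4405) (nat_lit 0) (nat_lit 13))
    (@En.i (nat_lit 4186) (nat_lit 4) (nat_lit 7))
    (@En.n l601 (nat_lit 7891) (nat_lit 6) (nat_lit 13))
    (@En.n l28 (nat_lit 4374) (nat_lit 6) (nat_lit 3))
    (@En.i (nat_lit 4789) (nat_lit 7) (nat_lit 7))
    (@En.n l5732 (nat_lit 829) (nat_lit 8) (nat_lit 4))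
    (@En.n l5267 (nat_lit 4373) (nat_lit 10) (nat_lit 13))
    (@En.n l4073 (nat_lit 4366) (nat_lit 10) (nat_lit 3))
    (@En.i (nat_lit 6282) (nat_lit 12) (nat_lit 9))
    (@En.n l11778 (nat_lit 4367) (nat_lit 13) (nat_lit 12))
    (@En.n l4684 (nat_lit 3783) (nat_lit 14) (nat_lit 13))
    (@En.n l170 (nat_lit 7616) (nat_lit 12) (nat_lit 9))
    (@En.n l17 (nat_lit 4368) (nat_lit 15) (nat_lit 2))))
  (@Cl.mk (nat_lit 0x2000a000d0008000c0003000d000600040003000d0008000d0003000e0003) (nat_lit 0x872202000a5b030) (nat_lit 16) Lb.e (@T16.mk En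
    (@En.i (nat_lit 2332) (nat_lit 15) (nat_lit 3))
    (@En.i (nat_lit 13739) (nat_lit 0) (nat_lit 14))
    (@En.i (nat_lit 4372) (nat_lit 2) (nat_lit 3))
    (@En.n l3082 (nat_lit 4418) (nat_lit 0) (nat_lit 13))
    (@En.i (nat_lit 4353) (nat_lit 4) (nat_lit 8))
    (@En.i (nat_lit 12370) (nat_lit 6) (nat_lit 13))
    (@En.n l5200 (nat_lit 4366) (nat_lit 6) (nat_lit 3))
    (@En.i (nat_lit 2873) (nat_lit 7) (nat_lit 4))
    (@En.i (nat_lit 4373) (nat_lit 8) (nat_lit 6))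
    (@En.n l8015 (nat_lit 665) (nat_lit 10) (nat_lit 13))
    (@En.n l8400 (nat_lit 4374) (nat_lit 10) (nat_lit 3))
    (@En.i (nat_lit 3833) (nat_lit 12) (nat_lit 12))
    (@En.n l17884 (nat_lit 6243) (nat_lit 13) (nat_lit 8))
    (@En.n l645 (nat_lit 3788) (nat_lit 5) (nat_lit 13))
    (@En.i (nat_lit 6225) (nat_lit 12) (nat_lit 10))
    (@En.n l17 (nat_lit 4369) (nat_lit 15) (nat_lit 2))))
  (@Cl.mk (nat_lit 0x20009000d0007000d0003000d000300070003000d000c00090003000e0004) (nat_lit 0x440302000b61010) (nat_lit 16) Lb.e (@T16.mk En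
    (@En.n l6680 (nat_lit 4395) (nat_lit 7) (nat_lit 4))
    (@En.n l2691 (nat_lit 643) (nat_lit 1) (nat_lit 14))
    (@En.n l936 (nat_lit 4366) (nat_lit 2) (nat_lit 3))
    (@En.i (nat_lit 3948) (nat_lit 3) (nat_lit 9))
    (@En.n l17108 (nat_lit 4365) (nat_lit 4) (nat_lit 12))
    (@En.i (nat_lit 12126) (nat_lit 6) (nat_lit 13))
    (@En.n l2351 (nat_lit 4372) (nat_lit 6) (nat_lit 3))
    (@En.n l387 (nat_lit 4792) (nat_lit 7) (nat_lit 7))
    (@En.n l2351 (nat_lit 3649) (nat_lit 8) (nat_lit 3))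
    (@En.n l725 (nat_lit 3908) (nat_lit 0) (nat_lit 13))
    (@En.n l322 (nat_lit 4371) (nat_lit 10) (nat_lit 3))
    (@En.n l2351 (nat_lit 3770) (nat_lit 12) (nat_lit 13))
    (@En.i (nat_lit 6246) (nat_lit 13) (nat_lit 7))
    (@En.n l617 (nat_lit 3644) (nat_lit 14) (nat_lit 13))
    (@En.n l15991 (nat_lit 7621) (nat_lit 12) (nat_lit 9))
    (@En.n l11 (nat_lit 4370) (nat_lit 15) (nat_lit 2))))
  (@Cl.mk (nat_lit 0x20009000d000c00080003000d000400070003000d000c00080003000e0004) (nat_lit 0x59a502000b11010) (nat_lit 16) Lb.e (@T16.mk En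
    (@En.n l17107 (nat_lit 4393) (nat_lit 9) (nat_lit 4))
    (@En.n l10238 (nat_lit 653) (nat_lit 1) (nat_lit 14))
    (@En.n l50 (nat_lit 4368) (nat_lit 2) (nat_lit 3))
    (@En.n l1166 (nat_lit 3946) (nat_lit 3) (nat_lit 8))
    (@En.n l217 (nat_lit 2333) (nat_lit 4) (nat_lit 12))
    (@En.n l601 (nat_lit 7889) (nat_lit 6) (nat_lit 13))
    (@En.n l28 (nat_lit 4376) (nat_lit 6) (nat_lit 3))
    (@En.i (nat_lit 4790) (nat_lit 11) (nat_lit 7))
    (@En.n l5732 (nat_lit 827) (nat_lit 8) (nat_lit 4))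
    (@En.n l5267 (nat_lit 4375) (nat_lit 10) (nat_lit 13))
    (@En.n l8137 (nat_lit 4370) (nat_lit 10) (nat_lit 3))
    (@En.i (nat_lit 6283) (nat_lit 12) (nat_lit 8))
    (@En.n l11778 (nat_lit 3649) (nat_lit 13) (nat_lit 12))
    (@En.n l11666 (nat_lit 3645) (nat_lit 14) (nat_lit 13))
    (@En.n l13296 (nat_lit 7619) (nat_lit 12) (nat_lit 9))
    (@En.n l17 (nat_lit 4371) (nat_lit 15) (nat_lit 2))))
  (@Cl.mk (nat_lit 0x2000a000d0007000c0003000d000600040003000d000c00090003000e0004) (nat_lit 0x710a02000b11010) (nat_lit 16) Lb.e (@T16.mk En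
    (@En.n l6862 (nat_lit 4396) (nat_lit 9) (nat_lit 4))
    (@En.n l5 (nat_lit 651) (nat_lit 1) (nat_lit 14))
    (@En.n l50 (nat_lit 4369) (nat_lit 2) (nat_lit 3))
    (@En.i (nat_lit 3949) (nat_lit 3) (nat_lit 9))
    (@En.n l217 (nat_lit 2332) (nat_lit 4) (nat_lit 12))
    (@En.i (nat_lit 12369) (nat_lit 6) (nat_lit 13))
    (@En.n l6569 (nat_lit 4370) (nat_lit 6) (nat_lit 3))
    (@En.i (nat_lit 2874) (nat_lit 7) (nat_lit 4))
    (@En.i (nat_lit 4375) (nat_lit 8) (nat_lit 6))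
    (@En.n l8015 (nat_lit 664) (nat_lit 10) (nat_lit 13))
    (@En.n l8400 (nat_lit 4376) (nat_lit 10) (nat_lit 3))
    (@En.i (nat_lit 3712) (nat_lit 12) (nat_lit 12))
    (@En.n l8309 (nat_lit 6245) (nat_lit 13) (nat_lit 7))
    (@En.n l645 (nat_lit 3642) (nat_lit 5) (nat_lit 13))
    (@En.n l14182 (nat_lit 6222) (nat_lit 12) (nat_lit 10))
    (@En.n l17 (nat_lit 4372) (nat_lit 15) (nat_lit 2))))
  (@Cl.mk (nat_lit 0x2000a0009000d0009000d0003000600030007000d0007000d0003000e0003) (nat_lit 0x868410000a0b030) (nat_lit 16) Lb.e (@T16.mk En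
    (@En.n l17060 (nat_lit 2326) (nat_lit 15) (nat_lit 3))
    (@En.n l1101 (nat_lit 13737) (nat_lit 0) (nat_lit 14))
    (@En.i (nat_lit 4375) (nat_lit 2) (nat_lit 3))
    (@En.n l3082 (nat_lit 4387) (nat_lit 0) (nat_lit 13))
    (@En.i (nat_lit 4194) (nat_lit 4) (nat_lit 7))
    (@En.n l3015 (nat_lit 12044) (nat_lit 6) (nat_lit 13))
    (@En.n l24750 (nat_lit 4683) (nat_lit 6) (nat_lit 7))
    (@En.n l936 (nat_lit 4378) (nat_lit 7) (nat_lit 3))
    (@En.n l24751 (nat_lit 4773) (nat_lit 0) (nat_lit 6))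
    (@En.n l24752 (nat_lit 2375) (nat_lit 9) (nat_lit 3))
    (@En.n l3015 (nat_lit 3715) (nat_lit 0) (nat_lit 13))
    (@En.n l24753 (nat_lit 6231) (nat_lit 12) (nat_lit 9))
    (@En.n l936 (nat_lit 4369) (nat_lit 13) (nat_lit 13))
    (@En.n l3082 (nat_lit 4366) (nat_lit 14) (nat_lit 9))
    (@En.n l24753 (nat_lit 10428) (nat_lit 4) (nat_lit 10))
    (@En.n l17 (nat_lit 4373) (nat_lit 15) (nat_lit 2))))
  (@Cl.mk (nat_lit 0x2000a000d000b00090003000d000600050003000d0007000d0003000e0003) (nat_lit 0x7b9302000a0b030) (nat_lit 16) Lb.e (@T16.mk En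
    (@En.i (nat_lit 2330) (nat_lit 15) (nat_lit 3))
    (@En.i (nat_lit 13736) (nat_lit 0) (nat_lit 14))
    (@En.i (nat_lit 4376) (nat_lit 2) (nat_lit 3))
    (@En.n l5995 (nat_lit 4419) (nat_lit 0) (nat_lit 13))
    (@En.i (nat_lit 4189) (nat_lit 4) (nat_lit 7))
    (@En.n l3457 (nat_lit 12363) (nat_lit 6) (nat_lit 13))
    (@En.i (nat_lit 4368) (nat_lit 6) (nat_lit 3))
    (@En.n l3457 (nat_lit 2374) (nat_lit 0) (nat_lit 5))
    (@En.n l159 (nat_lit 2375) (nat_lit 8) (nat_lit 6))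
    (@En.n l3459 (nat_lit 4378) (nat_lit 10) (nat_lit 13))
    (@En.n l6868 (nat_lit 4369) (nat_lit 10) (nat_lit 3))
    (@En.i (nat_lit 5942) (nat_lit 12) (nat_lit 9))
    (@En.n l3462 (nat_lit 3605) (nat_lit 13) (nat_lit 11))
    (@En.n l619 (nat_lit 3787) (nat_lit 5) (nat_lit 13))
    (@En.i (nat_lit 10385) (nat_lit 12) (nat_lit 10))
    (@En.n l17 (nat_lit 4374) (nat_lit 15) (nat_lit 2))))
  (@Cl.mk (nat_lit 0x2000a0009000d0008000d0003000600030007000d000c00080003000e0004) (nat_lit 0x852510000b11010) (nat_lit 16) Lb.e (@T16.mk En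
    (@En.n l6862 (nat_lit 4391) (nat_lit 6) (nat_lit 4))
    (@En.n l27974 (nat_lit 649) (nat_lit 1) (nat_lit 14))
    (@En.n l50 (nat_lit 4373) (nat_lit 2) (nat_lit 3))
    (@En.n l6864 (nat_lit 2122) (nat_lit 3) (nat_lit 8))
    (@En.n l6865 (nat_lit 2326) (nat_lit 4) (nat_lit 12))
    (@En.n l3015 (nat_lit 12367) (nat_lit 6) (nat_lit 13))
    (@En.n l24750 (nat_lit 4795) (nat_lit 6) (nat_lit 7))
    (@En.n l936 (nat_lit 4379) (nat_lit 7) (nat_lit 3))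
    (@En.n l24751 (nat_lit 4772) (nat_lit 0) (nat_lit 6))
    (@En.n l24752 (nat_lit 4377) (nat_lit 9) (nat_lit 3))
    (@En.n l3015 (nat_lit 3711) (nat_lit 0) (nat_lit 13))
    (@En.n l24753 (nat_lit 6249) (nat_lit 12) (nat_lit 8))
    (@En.n l936 (nat_lit 4372) (nat_lit 13) (nat_lit 13))
    (@En.n l6864 (nat_lit 4370) (nat_lit 14) (nat_lit 9))
    (@En.n l14100 (nat_lit 6221) (nat_lit 4) (nat_lit 10))
    (@En.n l17 (nat_lit 4375) (nat_lit 15) (nat_lit 2))))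
  (@Cl.mk (nat_lit 0x2000a000d000b00080003000d000600050003000d000c00080003000e0004) (nat_lit 0x719502000b11010) (nat_lit 16) Lb.e (@T16.mk En
    (@En.n l50 (nat_lit 4392) (nat_lit 9) (nat_lit 4))
    (@En.n l5 (nat_lit 733) (nat_lit 1) (nat_lit 14))
    (@En.n l50 (nat_lit 4374) (nat_lit 2) (nat_lit 3))
    (@En.n l3298 (nat_lit 3950) (nat_lit 3) (nat_lit 8))
    (@En.n l217 (nat_lit 2330) (nat_lit 4) (nat_lit 12))
    (@En.n l3457 (nat_lit 12365) (nat_lit 6) (nat_lit 13))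
    (@En.i (nat_lit 4371) (nat_lit 6) (nat_lit 3))
    (@En.n l3457 (nat_lit 2376) (nat_lit 0) (nat_lit 5))
    (@En.n l159 (nat_lit 4377) (nat_lit 8) (nat_lit 6))
    (@En.n l3459 (nat_lit 4379) (nat_lit 10) (nat_lit 13))
    (@En.n l6868 (nat_lit 4372) (nat_lit 10) (nat_lit 3))
    (@En.n l6869 (nat_lit 6284) (nat_lit 12) (nat_lit 8))
    (@En.n l3462 (nat_lit 3636) (nat_lit 13) (nat_lit 11))
    (@En.n l6869 (nat_lit 3643) (nat_lit 5) (nat_lit 13))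
    (@En.i (nat_lit 10384) (nat_lit 12) (nat_lit 10))
    (@En.n l17 (nat_lit 4376) (nat_lit 15) (nat_lit 2))))
  (@Cl.mk (nat_lit 0x2000a0009000d000c00090003000600040007000d000c00070003000e0004) (nat_lit 0x862a60000b10010) (nat_lit 16) Lb.e (@T16.mk En
    (@En.n l50 (nat_lit 4390) (nat_lit 6) (nat_lit 4))
    (@En.n l998 (nat_lit 730) (nat_lit 1) (nat_lit 14))
    (@En.n l50 (nat_lit 2375) (nat_lit 2) (nat_lit 3))
    (@En.n l2678 (nat_lit 3952) (nat_lit 3) (nat_lit 7))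
    (@En.n l217 (nat_lit 2263) (nat_lit 4) (nat_lit 12))
    (@En.i (nat_lit 12364) (nat_lit 6) (nat_lit 13))
    (@En.n l810 (nat_lit 4794) (nat_lit 6) (nat_lit 7))
    (@En.n l2678 (nat_lit 2192) (nat_lit 7) (nat_lit 4))
    (@En.i (nat_lit 2244) (nat_lit 8) (nat_lit 6))
    (@En.n l5267 (nat_lit 4375) (nat_lit 9) (nat_lit 3))
    (@En.i (nat_lit 6285) (nat_lit 0) (nat_lit 9))
    (@En.n l8351 (nat_lit 4379) (nat_lit 12) (nat_lit 12))
    (@En.n l180 (nat_lit 4376) (nat_lit 13) (nat_lit 13))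
    (@En.n l2038 (nat_lit 4371) (nat_lit 14) (nat_lit 9))
    (@En.i (nat_lit 10382) (nat_lit 4) (nat_lit 10))
    (@En.n l17 (nat_lit 4377) (nat_lit 15) (nat_lit 2))))
  (@Cl.mk (nat_lit 0x2000b0009000c0009000d0005000400030007000d0007000d0003000e0003) (nat_lit 0x869410000a0b030) (nat_lit 16) Lb.e (@T16.mk En
    (@En.i (nat_lit 2262) (nat_lit 15) (nat_lit 3))
    (@En.i (nat_lit 13740) (nat_lit 0) (nat_lit 14))
    (@En.i (nat_lit 4379) (nat_lit 2) (nat_lit 3))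
    (@En.i (nat_lit 4383) (nat_lit 0) (nat_lit 13))
    (@En.i (nat_lit 4192) (nat_lit 4) (nat_lit 7))
    (@En.i (nat_lit 12047) (nat_lit 6) (nat_lit 13))
    (@En.n l13671 (nat_lit 2375) (nat_lit 6) (nat_lit 7))
    (@En.n l1483 (nat_lit 4373) (nat_lit 7) (nat_lit 3))
    (@En.n l152 (nat_lit 2254) (nat_lit 0) (nat_lit 4))
    (@En.n l1769 (nat_lit 2369) (nat_lit 9) (nat_lit 5))
    (@En.i (nat_lit 3718) (nat_lit 11) (nat_lit 13))
    (@En.n l2038 (nat_lit 6232) (nat_lit 12) (nat_lit 9))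
    (@En.i (nat_lit 2873) (nat_lit 13) (nat_lit 12))
    (@En.n l1769 (nat_lit 4367) (nat_lit 14) (nat_lit 9))
    (@En.i (nat_lit 10375) (nat_lit 12) (nat_lit 11))
    (@En.n l17 (nat_lit 4378) (nat_lit 15) (nat_lit 2))))
  (@Cl.mk (nat_lit 0x2000b0009000c0008000d0005000400030007000d000c00080003000e0004) (nat_lit 0x869510000b61010) (nat_lit 16) Lb.e (@T16.mk En
    (@En.n l50 (nat_lit 4380) (nat_lit 8) (nat_lit 4))
    (@En.n l5 (nat_lit 727) (nat_lit 1) (nat_lit 14))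
    (@En.n l50 (nat_lit 4378) (nat_lit 2) (nat_lit 3))
    (@En.i (nat_lit 3951) (nat_lit 3) (nat_lit 8))
    (@En.n l217 (nat_lit 2262) (nat_lit 4) (nat_lit 12))
    (@En.i (nat_lit 12368) (nat_lit 6) (nat_lit 13))
    (@En.n l13671 (nat_lit 4377) (nat_lit 6) (nat_lit 7))
    (@En.n l1483 (nat_lit 4375) (nat_lit 7) (nat_lit 3))
    (@En.n l152 (nat_lit 2252) (nat_lit 0) (nat_lit 4))
    (@En.n l1769 (nat_lit 2242) (nat_lit 9) (nat_lit 5))
    (@En.i (nat_lit 3713) (nat_lit 11) (nat_lit 13))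
    (@En.n l2038 (nat_lit 6394) (nat_lit 12) (nat_lit 8))
    (@En.i (nat_lit 2874) (nat_lit 13) (nat_lit 12))
    (@En.n l1769 (nat_lit 3649) (nat_lit 14) (nat_lit 9))
    (@En.i (nat_lit 10374) (nat_lit 12) (nat_lit 11))
    (@En.n l17 (nat_lit 4379) (nat_lit 15) (nat_lit 2))))
  (@Cl.mk (nat_lit 0x30007000c000c000c0009000400040004000b0009000c0007000d00050004) (nat_lit 0x5a730008450400) (nat_lit 16) Lb.e (@T16.mk En
    (@En.n l152 (nat_lit 2251) (nat_lit 0) (nat_lit 4))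
    (@En.n l7427 (nat_lit 2239) (nat_lit 0) (nat_lit 5))
    (@En.i (nat_lit 3790) (nat_lit 1) (nat_lit 13))
    (@En.n l5643 (nat_lit 6292) (nat_lit 3) (nat_lit 7))
    (@En.i (nat_lit 2870) (nat_lit 6) (nat_lit 12))
    (@En.n l13614 (nat_lit 4394) (nat_lit 5) (nat_lit 9))
    (@En.i (nat_lit 8117) (nat_lit 13) (nat_lit 11))
    (@En.n l11407 (nat_lit 2321) (nat_lit 12) (nat_lit 4))
    (@En.n l2172 (nat_lit 4381) (nat_lit 12) (nat_lit 4))
    (@En.i (nat_lit 2262) (nat_lit 0) (nat_lit 4))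
    (@En.n l13092 (nat_lit 3658) (nat_lit 0) (nat_lit 9))
    (@En.n l742 (nat_lit 4379) (nat_lit 4) (nat_lit 12))
    (@En.n l396 (nat_lit 4420) (nat_lit 4) (nat_lit 12))
    (@En.n l13904 (nat_lit 11809) (nat_lit 14) (nat_lit 12))
    (@En.n l13671 (nat_lit 4390) (nat_lit 12) (nat_lit 7))
    (@En.n l11336 (nat_lit 4391) (nat_lit 13) (nat_lit 3))))
  (@Cl.mk (nat_lit 0x2000d000a00040003000b0009000c0006000d0005000400030007000e000c) (nat_lit 0x1400739010000c6) (nat_lit 16) Lb.e (@T16.mk En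
    (@En.n l217 (nat_lit 4380) (nat_lit 13) (nat_lit 12))
    (@En.n l5742 (nat_lit 11165) (nat_lit 1) (nat_lit 14))
    (@En.n l5743 (nat_lit 4385) (nat_lit 2) (nat_lit 7))
    (@En.n l5744 (nat_lit 4389) (nat_lit 3) (nat_lit 3))
    (@En.n l152 (nat_lit 2250) (nat_lit 0) (nat_lit 4))
    (@En.n l2501 (nat_lit 2248) (nat_lit 5) (nat_lit 5))
    (@En.i (nat_lit 3801) (nat_lit 7) (nat_lit 13))
    (@En.n l1262 (nat_lit 7525) (nat_lit 7) (nat_lit 6))
    (@En.i (nat_lit 4034) (nat_lit 9) (nat_lit 12))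
    (@En.n l2501 (nat_lit 4399) (nat_lit 10) (nat_lit 9))
    (@En.n l5745 (nat_lit 8124) (nat_lit 11) (nat_lit 11))
    (@En.n l763 (nat_lit 4383) (nat_lit 11) (nat_lit 3))
    (@En.i (nat_lit 4379) (nat_lit 0) (nat_lit 4))
    (@En.n l1545 (nat_lit 4584) (nat_lit 14) (nat_lit 10))
    (@En.n l765 (nat_lit 726) (nat_lit 1) (nat_lit 13))
    (@En.n l50 (nat_lit 4381) (nat_lit 15) (nat_lit 2))))
  (@Cl.mk (nat_lit 0x30003000b0004000b0009000c0005000d0005000400030007000d000d000c) (nat_lit 0x508230400009b7) (nat_lit 16) Lb.e (@T16.mk En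
    (@En.n l18905 (nat_lit 4381) (nat_lit 0) (nat_lit 12))
    (@En.n l11542 (nat_lit 4417) (nat_lit 3) (nat_lit 13))
    (@En.n l18906 (nat_lit 12408) (nat_lit 2) (nat_lit 13))
    (@En.n l15214 (nat_lit 4386) (nat_lit 3) (nat_lit 7))
    (@En.n l1545 (nat_lit 4388) (nat_lit 4) (nat_lit 3))
    (@En.n l11710 (nat_lit 1853) (nat_lit 0) (nat_lit 4))
    (@En.n l7 (nat_lit 2402) (nat_lit 6) (nat_lit 5))
    (@En.n l11705 (nat_lit 3796) (nat_lit 8) (nat_lit 13))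
    (@En.n l6958 (nat_lit 7231) (nat_lit 8) (nat_lit 5))
    (@En.n l11705 (nat_lit 2869) (nat_lit 6) (nat_lit 12))
    (@En.n l2781 (nat_lit 4407) (nat_lit 11) (nat_lit 9))
    (@En.n l11706 (nat_lit 7422) (nat_lit 12) (nat_lit 11))
    (@En.n l18907 (nat_lit 4380) (nat_lit 7) (nat_lit 4))
    (@En.n l11707 (nat_lit 4307) (nat_lit 9) (nat_lit 11))
    (@En.n l18908 (nat_lit 4383) (nat_lit 13) (nat_lit 3))
    (@En.n l18909 (nat_lit 4417) (nat_lit 0) (nat_lit 3))))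
  (@Cl.mk (nat_lit 0x2000d0003000b0003000b0009000c0005000d0005000400030007000e000d) (nat_lit 0x2050739010000aa) (nat_lit 16) Lb.e (@T16.mk En
    (@En.n l11727 (nat_lit 4382) (nat_lit 2) (nat_lit 13))
    (@En.n l5839 (nat_lit 12426) (nat_lit 1) (nat_lit 14))
    (@En.n l14198 (nat_lit 4384) (nat_lit 2) (nat_lit 7))
    (@En.n l7076 (nat_lit 4387) (nat_lit 3) (nat_lit 3))
    (@En.n l152 (nat_lit 1854) (nat_lit 0) (nat_lit 4))
    (@En.n l7075 (nat_lit 2397) (nat_lit 5) (nat_lit 5))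
    (@En.i (nat_lit 3799) (nat_lit 7) (nat_lit 13))
    (@En.n l2038 (nat_lit 7233) (nat_lit 7) (nat_lit 5))
    (@En.i (nat_lit 4033) (nat_lit 9) (nat_lit 12))
    (@En.n l7075 (nat_lit 4406) (nat_lit 10) (nat_lit 9))
    (@En.i (nat_lit 7424) (nat_lit 11) (nat_lit 11))
    (@En.n l2364 (nat_lit 4381) (nat_lit 11) (nat_lit 3))
    (@En.i (nat_lit 3448) (nat_lit 0) (nat_lit 11))
    (@En.n l11794 (nat_lit 4382) (nat_lit 14) (nat_lit 3))
    (@En.n l4790 (nat_lit 728) (nat_lit 0) (nat_lit 13))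
    (@En.n l50 (nat_lit 4383) (nat_lit 15) (nat_lit 2))))
noncomputable def a274 : T16 Cl := @T16.mk Cl
  (@Cl.mk (nat_lit 0x2000d0003000a0003000a0009000d000c00060003000600040007000e000d) (nat_lit 0x2050733a00000aa) (nat_lit 16) Lb.e (@T16.mk En
    (@En.n l617 (nat_lit 4386) (nat_lit 2) (nat_lit 13))
    (@En.n l5694 (nat_lit 12419) (nat_lit 1) (nat_lit 14))
    (@En.n l16585 (nat_lit 4740) (nat_lit 11) (nat_lit 7))
    (@En.n l5694 (nat_lit 1855) (nat_lit 3) (nat_lit 4))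
    (@En.n l5572 (nat_lit 3679) (nat_lit 4) (nat_lit 6))
    (@En.n l7 (nat_lit 4387) (nat_lit 5) (nat_lit 3))
    (@En.n l5572 (nat_lit 7313) (nat_lit 0) (nat_lit 6))
    (@En.n l10142 (nat_lit 4383) (nat_lit 8) (nat_lit 12))
    (@En.n l2196 (nat_lit 4419) (nat_lit 9) (nat_lit 13))
    (@En.i (nat_lit 4405) (nat_lit 10) (nat_lit 9))
    (@En.n l61 (nat_lit 7423) (nat_lit 11) (nat_lit 10))
    (@En.i (nat_lit 4385) (nat_lit 11) (nat_lit 3))
    (@En.n l5572 (nat_lit 3452) (nat_lit 0) (nat_lit 10))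
    (@En.n l6680 (nat_lit 4386) (nat_lit 14) (nat_lit 3))
    (@En.n l61 (nat_lit 731) (nat_lit 0) (nat_lit 13))
    (@En.n l3 (nat_lit 4384) (nat_lit 15) (nat_lit 2))))
  (@Cl.mk (nat_lit 0x2000d000900040003000a0009000d000c00070003000600040007000e000c) (nat_lit 0x1400739a00000c6) (nat_lit 16) Lb.e (@T16.mk En
    (@En.n l7026 (nat_lit 4390) (nat_lit 11) (nat_lit 12))
    (@En.n l5694 (nat_lit 11161) (nat_lit 1) (nat_lit 14))
    (@En.n l5697 (nat_lit 4739) (nat_lit 11) (nat_lit 7))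
    (@En.n l5694 (nat_lit 2185) (nat_lit 3) (nat_lit 4))
    (@En.n l7027 (nat_lit 3680) (nat_lit 4) (nat_lit 6))
    (@En.n l7 (nat_lit 4389) (nat_lit 5) (nat_lit 3))
    (@En.n l2356 (nat_lit 6294) (nat_lit 0) (nat_lit 7))
    (@En.n l7028 (nat_lit 4381) (nat_lit 8) (nat_lit 12))
    (@En.n l2196 (nat_lit 4401) (nat_lit 9) (nat_lit 13))
    (@En.i (nat_lit 4398) (nat_lit 10) (nat_lit 9))
    (@En.n l6830 (nat_lit 8123) (nat_lit 11) (nat_lit 10))
    (@En.n l11 (nat_lit 4384) (nat_lit 11) (nat_lit 3))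
    (@En.n l7027 (nat_lit 4377) (nat_lit 0) (nat_lit 4))
    (@En.n l6830 (nat_lit 4582) (nat_lit 14) (nat_lit 9))
    (@En.n l6942 (nat_lit 729) (nat_lit 1) (nat_lit 13))
    (@En.n l3 (nat_lit 4385) (nat_lit 15) (nat_lit 2))))
  (@Cl.mk (nat_lit 0x30003000a0004000a0009000d000c00060003000600040007000d000d000c) (nat_lit 0x508294000009b7) (nat_lit 16) Lb.e (@T16.mk En
    (@En.n l10858 (nat_lit 4385) (nat_lit 0) (nat_lit 12))
    (@En.n l3471 (nat_lit 4416) (nat_lit 3) (nat_lit 13))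
    (@En.n l23819 (nat_lit 12407) (nat_lit 12) (nat_lit 13))
    (@En.n l24171 (nat_lit 4738) (nat_lit 11) (nat_lit 7))
    (@En.n l11707 (nat_lit 1852) (nat_lit 4) (nat_lit 4))
    (@En.n l21159 (nat_lit 3678) (nat_lit 12) (nat_lit 6))
    (@En.n l7 (nat_lit 4388) (nat_lit 6) (nat_lit 3))
    (@En.n l21159 (nat_lit 7310) (nat_lit 0) (nat_lit 6))
    (@En.n l2364 (nat_lit 4382) (nat_lit 9) (nat_lit 12))
    (@En.n l17 (nat_lit 4415) (nat_lit 10) (nat_lit 13))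
    (@En.i (nat_lit 4403) (nat_lit 11) (nat_lit 9))
    (@En.n l24172 (nat_lit 7420) (nat_lit 12) (nat_lit 10))
    (@En.n l21184 (nat_lit 4390) (nat_lit 5) (nat_lit 4))
    (@En.n l24173 (nat_lit 4304) (nat_lit 0) (nat_lit 10))
    (@En.n l6962 (nat_lit 4384) (nat_lit 13) (nat_lit 3))
    (@En.n l5368 (nat_lit 4416) (nat_lit 0) (nat_lit 3))))
  (@Cl.mk (nat_lit 0x2000d0003000b0003000a0009000d0005000d0003000600030007000e000d) (nat_lit 0x2030824020000aa) (nat_lit 16) Lb.e (@T16.mk En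
    (@En.n l617 (nat_lit 4388) (nat_lit 2) (nat_lit 13))
    (@En.i (nat_lit 12422) (nat_lit 1) (nat_lit 14))
    (@En.n l14056 (nat_lit 4742) (nat_lit 2) (nat_lit 7))
    (@En.n l2586 (nat_lit 4383) (nat_lit 3) (nat_lit 3))
    (@En.n l14058 (nat_lit 4771) (nat_lit 12) (nat_lit 6))
    (@En.i (nat_lit 4384) (nat_lit 5) (nat_lit 3))
    (@En.n l1722 (nat_lit 3894) (nat_lit 0) (nat_lit 13))
    (@En.i (nat_lit 7374) (nat_lit 7) (nat_lit 5))
    (@En.n l2196 (nat_lit 4418) (nat_lit 9) (nat_lit 13))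
    (@En.i (nat_lit 4404) (nat_lit 10) (nat_lit 9))
    (@En.n l61 (nat_lit 7425) (nat_lit 11) (nat_lit 10))
    (@En.i (nat_lit 4389) (nat_lit 11) (nat_lit 3))
    (@En.i (nat_lit 3450) (nat_lit 0) (nat_lit 11))
    (@En.n l6680 (nat_lit 4388) (nat_lit 14) (nat_lit 3))
    (@En.n l61 (nat_lit 650) (nat_lit 0) (nat_lit 13))
    (@En.n l3 (nat_lit 4387) (nat_lit 15) (nat_lit 2))))
  (@Cl.mk (nat_lit 0x30003000b0004000a0009000d0005000d0003000600030007000d000d000c) (nat_lit 0x508260300009a6) (nat_lit 16) Lb.e (@T16.mk En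
    (@En.n l10858 (nat_lit 4389) (nat_lit 0) (nat_lit 12))
    (@En.n l3471 (nat_lit 4414) (nat_lit 3) (nat_lit 13))
    (@En.n l31886 (nat_lit 12404) (nat_lit 12) (nat_lit 13))
    (@En.n l27563 (nat_lit 4685) (nat_lit 12) (nat_lit 7))
    (@En.n l403 (nat_lit 4382) (nat_lit 4) (nat_lit 3))
    (@En.i (nat_lit 2647) (nat_lit 0) (nat_lit 6))
    (@En.i (nat_lit 4386) (nat_lit 6) (nat_lit 3))
    (@En.n l1723 (nat_lit 3798) (nat_lit 0) (nat_lit 13))
    (@En.i (nat_lit 7226) (nat_lit 8) (nat_lit 5))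
    (@En.n l17 (nat_lit 4412) (nat_lit 10) (nat_lit 13))
    (@En.i (nat_lit 4402) (nat_lit 11) (nat_lit 9))
    (@En.n l7444 (nat_lit 7417) (nat_lit 12) (nat_lit 10))
    (@En.i (nat_lit 4391) (nat_lit 5) (nat_lit 4))
    (@En.n l3519 (nat_lit 4247) (nat_lit 9) (nat_lit 11))
    (@En.n l6962 (nat_lit 4387) (nat_lit 13) (nat_lit 3))
    (@En.n l5368 (nat_lit 4414) (nat_lit 0) (nat_lit 3))))
  (@Cl.mk (nat_lit 0x2000d000a00040003000a0009000d0006000d0003000600030007000e000c) (nat_lit 0x1400839020000c5) (nat_lit 16) Lb.e (@T16.mk En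
    (@En.n l617 (nat_lit 4391) (nat_lit 11) (nat_lit 12))
    (@En.i (nat_lit 11163) (nat_lit 1) (nat_lit 14))
    (@En.n l14056 (nat_lit 4741) (nat_lit 2) (nat_lit 7))
    (@En.n l14057 (nat_lit 4381) (nat_lit 3) (nat_lit 3))
    (@En.n l14058 (nat_lit 4770) (nat_lit 0) (nat_lit 6))
    (@En.i (nat_lit 4385) (nat_lit 5) (nat_lit 3))
    (@En.n l1722 (nat_lit 3803) (nat_lit 0) (nat_lit 13))
    (@En.n l11 (nat_lit 7524) (nat_lit 7) (nat_lit 6))
    (@En.n l2196 (nat_lit 4400) (nat_lit 9) (nat_lit 13))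
    (@En.i (nat_lit 4397) (nat_lit 10) (nat_lit 9))
    (@En.n l14059 (nat_lit 8126) (nat_lit 11) (nat_lit 10))
    (@En.n l11 (nat_lit 4387) (nat_lit 11) (nat_lit 3))
    (@En.n l2351 (nat_lit 4375) (nat_lit 0) (nat_lit 4))
    (@En.i (nat_lit 4585) (nat_lit 14) (nat_lit 10))
    (@En.n l61 (nat_lit 646) (nat_lit 1) (nat_lit 13))
    (@En.n l3 (nat_lit 4389) (nat_lit 15) (nat_lit 2))))
  (@Cl.mk (nat_lit 0x3000600040007000c000c000c0008000400040004000a0009000d000c0008) (nat_lit 0x512300075566) (nat_lit 16) Lb.e (@T16.mk En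
    (@En.i (nat_lit 6288) (nat_lit 0) (nat_lit 8))
    (@En.n l8351 (nat_lit 4380) (nat_lit 4) (nat_lit 12))
    (@En.n l180 (nat_lit 4392) (nat_lit 6) (nat_lit 13))
    (@En.n l11409 (nat_lit 4393) (nat_lit 7) (nat_lit 9))
    (@En.n l3540 (nat_lit 8118) (nat_lit 4) (nat_lit 10))
    (@En.n l11056 (nat_lit 890) (nat_lit 12) (nat_lit 4))
    (@En.n l17335 (nat_lit 4385) (nat_lit 12) (nat_lit 4))
    (@En.i (nat_lit 2263) (nat_lit 0) (nat_lit 4))
    (@En.n l11409 (nat_lit 4580) (nat_lit 0) (nat_lit 8))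
    (@En.n l742 (nat_lit 4377) (nat_lit 4) (nat_lit 12))
    (@En.n l5913 (nat_lit 778) (nat_lit 4) (nat_lit 12))
    (@En.n l2869 (nat_lit 11804) (nat_lit 12) (nat_lit 12))
    (@En.n l810 (nat_lit 4735) (nat_lit 11) (nat_lit 7))
    (@En.n l2678 (nat_lit 2189) (nat_lit 5) (nat_lit 4))
    (@En.i (nat_lit 2238) (nat_lit 12) (nat_lit 6))
    (@En.n l11055 (nat_lit 4391) (nat_lit 15) (nat_lit 3))))
  (@Cl.mk (nat_lit 0x3000600030007000c000c000c0009000400040004000a0009000d0007000d) (nat_lit 0x4a2300075507) (nat_lit 16) Lb.e (@T16.mk En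
    (@En.n l6289 (nat_lit 3714) (nat_lit 0) (nat_lit 13))
    (@En.n l15557 (nat_lit 6296) (nat_lit 3) (nat_lit 7))
    (@En.n l17 (nat_lit 4396) (nat_lit 6) (nat_lit 13))
    (@En.i (nat_lit 4395) (nat_lit 5) (nat_lit 9))
    (@En.n l7444 (nat_lit 8119) (nat_lit 4) (nat_lit 10))
    (@En.n l6961 (nat_lit 2322) (nat_lit 12) (nat_lit 4))
    (@En.n l6962 (nat_lit 4389) (nat_lit 12) (nat_lit 4))
    (@En.n l936 (nat_lit 2326) (nat_lit 0) (nat_lit 4))
    (@En.n l55 (nat_lit 3662) (nat_lit 0) (nat_lit 9))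
    (@En.n l6963 (nat_lit 4375) (nat_lit 4) (nat_lit 12))
    (@En.n l3471 (nat_lit 4421) (nat_lit 4) (nat_lit 12))
    (@En.n l7444 (nat_lit 11808) (nat_lit 12) (nat_lit 12))
    (@En.n l27563 (nat_lit 4677) (nat_lit 12) (nat_lit 7))
    (@En.n l4190 (nat_lit 4380) (nat_lit 15) (nat_lit 3))
    (@En.i (nat_lit 3031) (nat_lit 0) (nat_lit 6))
    (@En.n l21184 (nat_lit 4390) (nat_lit 15) (nat_lit 3))))
  (@Cl.mk (nat_lit 0x3000c000c000c0009000400040004000a000d000b00070003000d00060005) (nat_lit 0x612700074900500) (nat_lit 16) Lb.e (@T16.mk En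
    (@En.n l3457 (nat_lit 2378) (nat_lit 0) (nat_lit 5))
    (@En.n l159 (nat_lit 4390) (nat_lit 14) (nat_lit 6))
    (@En.n l3459 (nat_lit 4380) (nat_lit 2) (nat_lit 13))
    (@En.n l6964 (nat_lit 4396) (nat_lit 3) (nat_lit 3))
    (@En.n l6965 (nat_lit 6286) (nat_lit 0) (nat_lit 7))
    (@En.n l3462 (nat_lit 2879) (nat_lit 11) (nat_lit 11))
    (@En.n l6965 (nat_lit 3823) (nat_lit 5) (nat_lit 13))
    (@En.n l6966 (nat_lit 8120) (nat_lit 3) (nat_lit 10))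
    (@En.n l6967 (nat_lit 891) (nat_lit 12) (nat_lit 4))
    (@En.n l6968 (nat_lit 4401) (nat_lit 12) (nat_lit 4))
    (@En.i (nat_lit 2330) (nat_lit 0) (nat_lit 4))
    (@En.n l6969 (nat_lit 4578) (nat_lit 0) (nat_lit 9))
    (@En.n l742 (nat_lit 4376) (nat_lit 4) (nat_lit 12))
    (@En.n l396 (nat_lit 779) (nat_lit 4) (nat_lit 12))
    (@En.n l6970 (nat_lit 11806) (nat_lit 11) (nat_lit 12))
    (@En.n l6971 (nat_lit 4393) (nat_lit 15) (nat_lit 3))))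
  (@Cl.mk (nat_lit 0x3000c000c000c00090004000400040009000d000c00070003000d00040007) (nat_lit 0x672300044a00800) (nat_lit 16) Lb.e (@T16.mk En
    (@En.n l6042 (nat_lit 4786) (nat_lit 11) (nat_lit 7))
    (@En.n l17330 (nat_lit 835) (nat_lit 6) (nat_lit 4))
    (@En.n l17331 (nat_lit 4391) (nat_lit 0) (nat_lit 13))
    (@En.n l7 (nat_lit 4395) (nat_lit 1) (nat_lit 3))
    (@En.n l137 (nat_lit 6287) (nat_lit 0) (nat_lit 7))
    (@En.n l644 (nat_lit 4394) (nat_lit 4) (nat_lit 12))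
    (@En.i (nat_lit 3822) (nat_lit 6) (nat_lit 13))
    (@En.n l11365 (nat_lit 7638) (nat_lit 3) (nat_lit 9))
    (@En.n l6961 (nat_lit 4436) (nat_lit 12) (nat_lit 4))
    (@En.n l6962 (nat_lit 4398) (nat_lit 12) (nat_lit 4))
    (@En.n l17332 (nat_lit 2333) (nat_lit 0) (nat_lit 4))
    (@En.i (nat_lit 4575) (nat_lit 0) (nat_lit 9))
    (@En.n l17333 (nat_lit 4371) (nat_lit 4) (nat_lit 12))
    (@En.n l3471 (nat_lit 4423) (nat_lit 4) (nat_lit 12))
    (@En.n l17334 (nat_lit 12471) (nat_lit 11) (nat_lit 12))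
    (@En.n l10860 (nat_lit 4392) (nat_lit 15) (nat_lit 3))))
  (@Cl.mk (nat_lit 0x300070004000c000c000c000a0004000400040009000c0006000d000c0004) (nat_lit 0x7883000390220) (nat_lit 16) Lb.e (@T16.mk En
    (@En.n l6958 (nat_lit 2221) (nat_lit 0) (nat_lit 4))
    (@En.n l2863 (nat_lit 4396) (nat_lit 4) (nat_lit 12))
    (@En.n l1723 (nat_lit 3691) (nat_lit 1) (nat_lit 13))
    (@En.n l6959 (nat_lit 4433) (nat_lit 3) (nat_lit 6))
    (@En.i (nat_lit 3847) (nat_lit 6) (nat_lit 12))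
    (@En.n l6960 (nat_lit 7639) (nat_lit 5) (nat_lit 9))
    (@En.n l6961 (nat_lit 4434) (nat_lit 12) (nat_lit 4))
    (@En.n l6962 (nat_lit 4399) (nat_lit 12) (nat_lit 4))
    (@En.n l936 (nat_lit 4364) (nat_lit 0) (nat_lit 4))
    (@En.n l55 (nat_lit 4572) (nat_lit 0) (nat_lit 10))
    (@En.n l6963 (nat_lit 3649) (nat_lit 4) (nat_lit 12))
    (@En.n l3471 (nat_lit 4425) (nat_lit 4) (nat_lit 12))
    (@En.i (nat_lit 12470) (nat_lit 13) (nat_lit 12))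
    (@En.n l6289 (nat_lit 2879) (nat_lit 4) (nat_lit 4))
    (@En.n l6042 (nat_lit 4393) (nat_lit 0) (nat_lit 7))
    (@En.n l50 (nat_lit 4395) (nat_lit 15) (nat_lit 3))))
  (@Cl.mk (nat_lit 0x300070003000c000c000c000a0004000400040009000d0006000d0003000d) (nat_lit 0x6875000450704) (nat_lit 16) Lb.e (@T16.mk En
    (@En.n l61 (nat_lit 3898) (nat_lit 0) (nat_lit 13))
    (@En.i (nat_lit 4393) (nat_lit 3) (nat_lit 3))
    (@En.n l1723 (nat_lit 3774) (nat_lit 0) (nat_lit 13))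
    (@En.i (nat_lit 4431) (nat_lit 3) (nat_lit 6))
    (@En.i (nat_lit 3819) (nat_lit 6) (nat_lit 13))
    (@En.n l6960 (nat_lit 8088) (nat_lit 5) (nat_lit 9))
    (@En.n l6961 (nat_lit 4435) (nat_lit 12) (nat_lit 4))
    (@En.n l6962 (nat_lit 4397) (nat_lit 12) (nat_lit 4))
    (@En.n l936 (nat_lit 4365) (nat_lit 0) (nat_lit 4))
    (@En.n l55 (nat_lit 4570) (nat_lit 0) (nat_lit 10))
    (@En.n l10858 (nat_lit 4370) (nat_lit 4) (nat_lit 12))
    (@En.n l3471 (nat_lit 4424) (nat_lit 4) (nat_lit 12))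
    (@En.i (nat_lit 12472) (nat_lit 13) (nat_lit 12))
    (@En.i (nat_lit 4396) (nat_lit 15) (nat_lit 3))
    (@En.n l6042 (nat_lit 4692) (nat_lit 0) (nat_lit 7))
    (@En.i (nat_lit 4394) (nat_lit 15) (nat_lit 3))))
  (@Cl.mk (nat_lit 0x3000c000c000c000a000400040004000a000d0006000c0003000d00060004) (nat_lit 0x6a2500074010800) (nat_lit 16) Lb.e (@T16.mk En
    (@En.n l6289 (nat_lit 2870) (nat_lit 0) (nat_lit 4))
    (@En.i (nat_lit 4391) (nat_lit 14) (nat_lit 6))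
    (@En.n l61 (nat_lit 3902) (nat_lit 1) (nat_lit 13))
    (@En.n l10860 (nat_lit 4392) (nat_lit 3) (nat_lit 3))
    (@En.n l6289 (nat_lit 3587) (nat_lit 0) (nat_lit 12))
    (@En.n l13902 (nat_lit 2417) (nat_lit 5) (nat_lit 6))
    (@En.i (nat_lit 3593) (nat_lit 5) (nat_lit 13))
    (@En.n l13903 (nat_lit 8121) (nat_lit 3) (nat_lit 10))
    (@En.n l6961 (nat_lit 3582) (nat_lit 12) (nat_lit 4))
    (@En.n l6962 (nat_lit 4400) (nat_lit 12) (nat_lit 4))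
    (@En.n l6289 (nat_lit 2332) (nat_lit 0) (nat_lit 4))
    (@En.n l55 (nat_lit 3659) (nat_lit 0) (nat_lit 10))
    (@En.n l6963 (nat_lit 4372) (nat_lit 4) (nat_lit 12))
    (@En.n l3471 (nat_lit 4422) (nat_lit 4) (nat_lit 12))
    (@En.i (nat_lit 11807) (nat_lit 11) (nat_lit 12))
    (@En.n l72 (nat_lit 4395) (nat_lit 13) (nat_lit 3))))
  (@Cl.mk (nat_lit 0x2000d000b000400030009000d0005000d0003000d000300070003000e000c) (nat_lit 0x1400210202000c7) (nat_lit 16) Lb.e (@T16.mk En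
    (@En.n l617 (nat_lit 4395) (nat_lit 12) (nat_lit 12))
    (@En.i (nat_lit 8624) (nat_lit 1) (nat_lit 14))
    (@En.i (nat_lit 4400) (nat_lit 2) (nat_lit 3))
    (@En.n l387 (nat_lit 4748) (nat_lit 3) (nat_lit 7))
    (@En.i (nat_lit 4399) (nat_lit 4) (nat_lit 3))
    (@En.n l725 (nat_lit 3910) (nat_lit 0) (nat_lit 13))
    (@En.i (nat_lit 4398) (nat_lit 6) (nat_lit 3))
    (@En.n l1722 (nat_lit 4000) (nat_lit 0) (nat_lit 13))
    (@En.n l11 (nat_lit 6360) (nat_lit 8) (nat_lit 5))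
    (@En.n l617 (nat_lit 3829) (nat_lit 10) (nat_lit 13))
    (@En.n l780 (nat_lit 7634) (nat_lit 11) (nat_lit 9))
    (@En.n l11 (nat_lit 4404) (nat_lit 11) (nat_lit 3))
    (@En.i (nat_lit 4370) (nat_lit 0) (nat_lit 4))
    (@En.i (nat_lit 4569) (nat_lit 14) (nat_lit 11))
    (@En.i (nat_lit 642) (nat_lit 1) (nat_lit 13))
    (@En.n l3 (nat_lit 4397) (nat_lit 15) (nat_lit 2))))
  (@Cl.mk (nat_lit 0x2000d000a000400030009000d000c00060003000d000400070003000e000c) (nat_lit 0x1400259003000c7) (nat_lit 16) Lb.e (@T16.mk En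
    (@En.n l617 (nat_lit 4393) (nat_lit 14) (nat_lit 12))
    (@En.i (nat_lit 8625) (nat_lit 1) (nat_lit 14))
    (@En.i (nat_lit 4401) (nat_lit 2) (nat_lit 3))
    (@En.n l387 (nat_lit 4751) (nat_lit 11) (nat_lit 7))
    (@En.n l7024 (nat_lit 2209) (nat_lit 4) (nat_lit 4))
    (@En.n l7025 (nat_lit 4389) (nat_lit 6) (nat_lit 13))
    (@En.n l7 (nat_lit 4397) (nat_lit 6) (nat_lit 3))
    (@En.n l562 (nat_lit 6295) (nat_lit 7) (nat_lit 6))
    (@En.n l644 (nat_lit 4399) (nat_lit 9) (nat_lit 12))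
    (@En.n l617 (nat_lit 3824) (nat_lit 10) (nat_lit 13))
    (@En.n l780 (nat_lit 7631) (nat_lit 11) (nat_lit 9))
    (@En.n l11 (nat_lit 4405) (nat_lit 11) (nat_lit 3))
    (@En.n l322 (nat_lit 4371) (nat_lit 0) (nat_lit 4))
    (@En.i (nat_lit 4583) (nat_lit 14) (nat_lit 10))
    (@En.i (nat_lit 645) (nat_lit 1) (nat_lit 13))
    (@En.n l3 (nat_lit 4398) (nat_lit 15) (nat_lit 2))))
  (@Cl.mk (nat_lit 0x2000d000b000400030009000c0005000d000c0004000300070004000e000c) (nat_lit 0x1400280230000c8) (nat_lit 16) Lb.e (@T16.mk En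
    (@En.n l617 (nat_lit 4394) (nat_lit 12) (nat_lit 12))
    (@En.i (nat_lit 8626) (nat_lit 1) (nat_lit 14))
    (@En.n l2351 (nat_lit 3562) (nat_lit 2) (nat_lit 4))
    (@En.n l612 (nat_lit 4398) (nat_lit 3) (nat_lit 7))
    (@En.n l50 (nat_lit 4397) (nat_lit 4) (nat_lit 3))
    (@En.n l2352 (nat_lit 2217) (nat_lit 0) (nat_lit 4))
    (@En.n l217 (nat_lit 4400) (nat_lit 7) (nat_lit 12))
    (@En.n l1722 (nat_lit 3689) (nat_lit 8) (nat_lit 13))
    (@En.n l339 (nat_lit 6359) (nat_lit 8) (nat_lit 5))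
    (@En.n l617 (nat_lit 3856) (nat_lit 6) (nat_lit 12))
    (@En.n l780 (nat_lit 7632) (nat_lit 11) (nat_lit 9))
    (@En.n l11 (nat_lit 4406) (nat_lit 11) (nat_lit 3))
    (@En.n l2351 (nat_lit 3649) (nat_lit 0) (nat_lit 4))
    (@En.i (nat_lit 4571) (nat_lit 14) (nat_lit 11))
    (@En.i (nat_lit 648) (nat_lit 1) (nat_lit 13))
    (@En.n l3 (nat_lit 4399) (nat_lit 15) (nat_lit 2))))
noncomputable def a275 : T16 Cl := @T16.mk Cl
  (@Cl.mk (nat_lit 0x2000d000b00040003000a000d0005000c0003000d000600040003000e000c) (nat_lit 0x1400780201000c7) (nat_lit 16) Lb.e (@T16.mk En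
    (@En.n l617 (nat_lit 4396) (nat_lit 14) (nat_lit 12))
    (@En.i (nat_lit 11166) (nat_lit 1) (nat_lit 14))
    (@En.n l18 (nat_lit 4397) (nat_lit 2) (nat_lit 3))
    (@En.n l2351 (nat_lit 4034) (nat_lit 3) (nat_lit 4))
    (@En.i (nat_lit 4389) (nat_lit 4) (nat_lit 6))
    (@En.n l725 (nat_lit 3088) (nat_lit 6) (nat_lit 13))
    (@En.i (nat_lit 4401) (nat_lit 6) (nat_lit 3))
    (@En.n l2351 (nat_lit 3893) (nat_lit 0) (nat_lit 12))
    (@En.n l4315 (nat_lit 6362) (nat_lit 8) (nat_lit 5))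
    (@En.n l617 (nat_lit 4019) (nat_lit 5) (nat_lit 13))
    (@En.i (nat_lit 8127) (nat_lit 11) (nat_lit 10))
    (@En.n l11 (nat_lit 4418) (nat_lit 11) (nat_lit 3))
    (@En.n l2351 (nat_lit 4372) (nat_lit 0) (nat_lit 4))
    (@En.i (nat_lit 4573) (nat_lit 14) (nat_lit 11))
    (@En.i (nat_lit 647) (nat_lit 1) (nat_lit 13))
    (@En.n l3 (nat_lit 4400) (nat_lit 15) (nat_lit 2))))
  (@Cl.mk (nat_lit 0x2000d000a00040003000a000d000b00060003000d000600050003000e000c) (nat_lit 0x1400789002000c7) (nat_lit 16) Lb.e (@T16.mk En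
    (@En.n l2353 (nat_lit 4392) (nat_lit 14) (nat_lit 12))
    (@En.i (nat_lit 11167) (nat_lit 1) (nat_lit 14))
    (@En.n l18 (nat_lit 4398) (nat_lit 2) (nat_lit 3))
    (@En.n l2354 (nat_lit 2384) (nat_lit 3) (nat_lit 5))
    (@En.i (nat_lit 4385) (nat_lit 4) (nat_lit 6))
    (@En.n l2355 (nat_lit 4381) (nat_lit 6) (nat_lit 13))
    (@En.n l7 (nat_lit 4400) (nat_lit 6) (nat_lit 3))
    (@En.n l2356 (nat_lit 6293) (nat_lit 7) (nat_lit 6))
    (@En.n l2175 (nat_lit 3562) (nat_lit 9) (nat_lit 11))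
    (@En.n l617 (nat_lit 4025) (nat_lit 5) (nat_lit 13))
    (@En.i (nat_lit 8125) (nat_lit 11) (nat_lit 10))
    (@En.n l11 (nat_lit 4419) (nat_lit 11) (nat_lit 3))
    (@En.n l2357 (nat_lit 4376) (nat_lit 0) (nat_lit 4))
    (@En.n l2358 (nat_lit 4581) (nat_lit 14) (nat_lit 10))
    (@En.i (nat_lit 732) (nat_lit 1) (nat_lit 13))
    (@En.n l3 (nat_lit 4401) (nat_lit 15) (nat_lit 2))))
  (@Cl.mk (nat_lit 0x30003000c00040009000d0004000d0003000d000300070003000d000d000c) (nat_lit 0x501502020006a8) (nat_lit 16) Lb.e (@T16.mk En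
    (@En.n l10858 (nat_lit 4397) (nat_lit 0) (nat_lit 12))
    (@En.n l3471 (nat_lit 4409) (nat_lit 3) (nat_lit 13))
    (@En.i (nat_lit 8613) (nat_lit 2) (nat_lit 13))
    (@En.i (nat_lit 4412) (nat_lit 3) (nat_lit 3))
    (@En.n l6042 (nat_lit 4698) (nat_lit 0) (nat_lit 7))
    (@En.i (nat_lit 4407) (nat_lit 5) (nat_lit 3))
    (@En.n l61 (nat_lit 3087) (nat_lit 0) (nat_lit 13))
    (@En.i (nat_lit 4403) (nat_lit 7) (nat_lit 3))
    (@En.n l1723 (nat_lit 3965) (nat_lit 0) (nat_lit 13))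
    (@En.i (nat_lit 6984) (nat_lit 9) (nat_lit 4))
    (@En.i (nat_lit 4027) (nat_lit 11) (nat_lit 13))
    (@En.n l11244 (nat_lit 3005) (nat_lit 12) (nat_lit 9))
    (@En.i (nat_lit 4395) (nat_lit 6) (nat_lit 4))
    (@En.i (nat_lit 4244) (nat_lit 8) (nat_lit 12))
    (@En.n l6962 (nat_lit 4404) (nat_lit 13) (nat_lit 3))
    (@En.n l5368 (nat_lit 4409) (nat_lit 0) (nat_lit 3))))
  (@Cl.mk (nat_lit 0x30003000b00040009000d000c00050003000d000400070003000d000d000c) (nat_lit 0x5018a0040009a8) (nat_lit 16) Lb.e (@T16.mk En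
    (@En.n l10858 (nat_lit 4398) (nat_lit 0) (nat_lit 12))
    (@En.n l3471 (nat_lit 4410) (nat_lit 3) (nat_lit 13))
    (@En.i (nat_lit 8614) (nat_lit 2) (nat_lit 13))
    (@En.i (nat_lit 4415) (nat_lit 3) (nat_lit 3))
    (@En.n l6042 (nat_lit 4752) (nat_lit 11) (nat_lit 7))
    (@En.n l7 (nat_lit 2214) (nat_lit 5) (nat_lit 4))
    (@En.n l17331 (nat_lit 4388) (nat_lit 7) (nat_lit 13))
    (@En.n l7 (nat_lit 4402) (nat_lit 7) (nat_lit 3))
    (@En.i (nat_lit 7305) (nat_lit 0) (nat_lit 5))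
    (@En.n l644 (nat_lit 4407) (nat_lit 10) (nat_lit 12))
    (@En.i (nat_lit 3827) (nat_lit 11) (nat_lit 13))
    (@En.n l3528 (nat_lit 3001) (nat_lit 12) (nat_lit 9))
    (@En.i (nat_lit 4393) (nat_lit 8) (nat_lit 4))
    (@En.i (nat_lit 4300) (nat_lit 0) (nat_lit 11))
    (@En.n l6962 (nat_lit 4405) (nat_lit 13) (nat_lit 3))
    (@En.n l5368 (nat_lit 4410) (nat_lit 0) (nat_lit 3))))
  (@Cl.mk (nat_lit 0x2000d0003000c00030009000d0004000d0003000d000300070003000e000d) (nat_lit 0x2010140202000a7) (nat_lit 16) Lb.e (@T16.mk En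
    (@En.n l617 (nat_lit 4402) (nat_lit 2) (nat_lit 13))
    (@En.i (nat_lit 8611) (nat_lit 1) (nat_lit 14))
    (@En.i (nat_lit 4418) (nat_lit 2) (nat_lit 3))
    (@En.n l387 (nat_lit 4747) (nat_lit 3) (nat_lit 7))
    (@En.i (nat_lit 4406) (nat_lit 4) (nat_lit 3))
    (@En.n l725 (nat_lit 3911) (nat_lit 0) (nat_lit 13))
    (@En.i (nat_lit 4405) (nat_lit 6) (nat_lit 3))
    (@En.n l1722 (nat_lit 4001) (nat_lit 0) (nat_lit 13))
    (@En.i (nat_lit 6987) (nat_lit 8) (nat_lit 4))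
    (@En.n l617 (nat_lit 4021) (nat_lit 10) (nat_lit 13))
    (@En.i (nat_lit 4256) (nat_lit 11) (nat_lit 9))
    (@En.i (nat_lit 4397) (nat_lit 11) (nat_lit 3))
    (@En.i (nat_lit 3453) (nat_lit 0) (nat_lit 12))
    (@En.n l6680 (nat_lit 4402) (nat_lit 14) (nat_lit 3))
    (@En.i (nat_lit 644) (nat_lit 0) (nat_lit 13))
    (@En.n l3 (nat_lit 4404) (nat_lit 15) (nat_lit 2))))
  (@Cl.mk (nat_lit 0x2000d0003000b00030009000d000c00050003000d000400070003000e000d) (nat_lit 0x2050224003000aa) (nat_lit 16) Lb.e (@T16.mk En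
    (@En.n l617 (nat_lit 4403) (nat_lit 2) (nat_lit 13))
    (@En.i (nat_lit 8531) (nat_lit 1) (nat_lit 14))
    (@En.i (nat_lit 4419) (nat_lit 2) (nat_lit 3))
    (@En.n l387 (nat_lit 4750) (nat_lit 11) (nat_lit 7))
    (@En.n l11728 (nat_lit 2213) (nat_lit 4) (nat_lit 4))
    (@En.n l7025 (nat_lit 4387) (nat_lit 6) (nat_lit 13))
    (@En.n l7 (nat_lit 4404) (nat_lit 6) (nat_lit 3))
    (@En.i (nat_lit 7312) (nat_lit 7) (nat_lit 5))
    (@En.n l644 (nat_lit 4406) (nat_lit 9) (nat_lit 12))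
    (@En.n l617 (nat_lit 4026) (nat_lit 10) (nat_lit 13))
    (@En.i (nat_lit 4258) (nat_lit 11) (nat_lit 9))
    (@En.i (nat_lit 4398) (nat_lit 11) (nat_lit 3))
    (@En.i (nat_lit 3451) (nat_lit 0) (nat_lit 11))
    (@En.n l6680 (nat_lit 4403) (nat_lit 14) (nat_lit 3))
    (@En.i (nat_lit 735) (nat_lit 0) (nat_lit 13))
    (@En.n l3 (nat_lit 4405) (nat_lit 15) (nat_lit 2))))
  (@Cl.mk (nat_lit 0x2000d0003000c00030009000c0004000d000c0004000300070004000e000d) (nat_lit 0x2010230230000a7) (nat_lit 16) Lb.e (@T16.mk En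
    (@En.n l617 (nat_lit 4407) (nat_lit 2) (nat_lit 13))
    (@En.i (nat_lit 8610) (nat_lit 1) (nat_lit 14))
    (@En.n l3348 (nat_lit 3560) (nat_lit 2) (nat_lit 4))
    (@En.n l612 (nat_lit 4405) (nat_lit 3) (nat_lit 7))
    (@En.n l50 (nat_lit 4404) (nat_lit 4) (nat_lit 3))
    (@En.i (nat_lit 2215) (nat_lit 0) (nat_lit 4))
    (@En.n l217 (nat_lit 4418) (nat_lit 7) (nat_lit 12))
    (@En.n l1722 (nat_lit 3686) (nat_lit 8) (nat_lit 13))
    (@En.i (nat_lit 6992) (nat_lit 8) (nat_lit 4))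
    (@En.n l617 (nat_lit 3855) (nat_lit 6) (nat_lit 12))
    (@En.i (nat_lit 3743) (nat_lit 11) (nat_lit 9))
    (@En.i (nat_lit 4399) (nat_lit 11) (nat_lit 3))
    (@En.i (nat_lit 3447) (nat_lit 0) (nat_lit 12))
    (@En.n l6680 (nat_lit 4407) (nat_lit 14) (nat_lit 3))
    (@En.i (nat_lit 725) (nat_lit 0) (nat_lit 13))
    (@En.n l3 (nat_lit 4406) (nat_lit 15) (nat_lit 2))))
  (@Cl.mk (nat_lit 0x30003000c00040009000c0004000d000c0004000300070004000d000d000c) (nat_lit 0x501902200006a9) (nat_lit 16) Lb.e (@T16.mk En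
    (@En.n l10858 (nat_lit 4399) (nat_lit 0) (nat_lit 12))
    (@En.n l3471 (nat_lit 4408) (nat_lit 3) (nat_lit 13))
    (@En.i (nat_lit 8612) (nat_lit 13) (nat_lit 13))
    (@En.n l50 (nat_lit 3561) (nat_lit 3) (nat_lit 4))
    (@En.n l6042 (nat_lit 4403) (nat_lit 4) (nat_lit 7))
    (@En.n l50 (nat_lit 4402) (nat_lit 5) (nat_lit 3))
    (@En.i (nat_lit 2216) (nat_lit 0) (nat_lit 4))
    (@En.n l2863 (nat_lit 4412) (nat_lit 8) (nat_lit 12))
    (@En.n l1723 (nat_lit 3687) (nat_lit 9) (nat_lit 13))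
    (@En.i (nat_lit 6990) (nat_lit 9) (nat_lit 4))
    (@En.i (nat_lit 3851) (nat_lit 6) (nat_lit 12))
    (@En.n l11244 (nat_lit 3744) (nat_lit 12) (nat_lit 9))
    (@En.i (nat_lit 4394) (nat_lit 6) (nat_lit 4))
    (@En.n l11245 (nat_lit 4250) (nat_lit 8) (nat_lit 12))
    (@En.n l6962 (nat_lit 4406) (nat_lit 13) (nat_lit 3))
    (@En.n l5368 (nat_lit 4408) (nat_lit 0) (nat_lit 3))))
  (@Cl.mk (nat_lit 0x2000c00050009000c0004000d000c0004000300070004000d000b000e0003) (nat_lit 0x5013032000097b0) (nat_lit 16) Lb.e (@T16.mk En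
    (@En.n l2843 (nat_lit 4407) (nat_lit 15) (nat_lit 3))
    (@En.i (nat_lit 13107) (nat_lit 0) (nat_lit 14))
    (@En.n l5 (nat_lit 4434) (nat_lit 2) (nat_lit 11))
    (@En.i (nat_lit 8619) (nat_lit 13) (nat_lit 13))
    (@En.n l28 (nat_lit 3651) (nat_lit 4) (nat_lit 4))
    (@En.n l343 (nat_lit 4410) (nat_lit 5) (nat_lit 7))
    (@En.n l28 (nat_lit 4409) (nat_lit 6) (nat_lit 3))
    (@En.n l170 (nat_lit 2220) (nat_lit 0) (nat_lit 4))
    (@En.n l77 (nat_lit 4411) (nat_lit 9) (nat_lit 12))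
    (@En.n l253 (nat_lit 3960) (nat_lit 10) (nat_lit 13))
    (@En.n l117 (nat_lit 6994) (nat_lit 10) (nat_lit 4))
    (@En.n l1329 (nat_lit 3849) (nat_lit 6) (nat_lit 12))
    (@En.n l253 (nat_lit 3002) (nat_lit 13) (nat_lit 9))
    (@En.i (nat_lit 4425) (nat_lit 14) (nat_lit 5))
    (@En.i (nat_lit 4322) (nat_lit 8) (nat_lit 12))
    (@En.n l17 (nat_lit 4408) (nat_lit 15) (nat_lit 2))))
  (@Cl.mk (nat_lit 0x2000c00050009000d0004000d0003000d000300070003000d000b000e0003) (nat_lit 0x50160a0200097b0) (nat_lit 16) Lb.e (@T16.mk En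
    (@En.n l2843 (nat_lit 4402) (nat_lit 15) (nat_lit 3))
    (@En.i (nat_lit 13109) (nat_lit 0) (nat_lit 14))
    (@En.n l5 (nat_lit 4435) (nat_lit 2) (nat_lit 11))
    (@En.i (nat_lit 8618) (nat_lit 2) (nat_lit 13))
    (@En.i (nat_lit 4411) (nat_lit 4) (nat_lit 3))
    (@En.n l253 (nat_lit 4696) (nat_lit 5) (nat_lit 7))
    (@En.i (nat_lit 4408) (nat_lit 6) (nat_lit 3))
    (@En.i (nat_lit 3895) (nat_lit 0) (nat_lit 13))
    (@En.i (nat_lit 4410) (nat_lit 8) (nat_lit 3))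
    (@En.n l253 (nat_lit 3964) (nat_lit 10) (nat_lit 13))
    (@En.n l117 (nat_lit 6988) (nat_lit 10) (nat_lit 4))
    (@En.n l1329 (nat_lit 3845) (nat_lit 12) (nat_lit 13))
    (@En.n l253 (nat_lit 3003) (nat_lit 13) (nat_lit 9))
    (@En.i (nat_lit 4424) (nat_lit 14) (nat_lit 5))
    (@En.i (nat_lit 4245) (nat_lit 8) (nat_lit 12))
    (@En.n l17 (nat_lit 4409) (nat_lit 15) (nat_lit 2))))
  (@Cl.mk (nat_lit 0x2000b00050009000d000c00050003000d000400070003000d000b000e0003) (nat_lit 0x4018400200097b0) (nat_lit 16) Lb.e (@T16.mk En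
    (@En.n l2843 (nat_lit 4403) (nat_lit 15) (nat_lit 3))
    (@En.i (nat_lit 13106) (nat_lit 0) (nat_lit 14))
    (@En.n l5 (nat_lit 4436) (nat_lit 2) (nat_lit 11))
    (@En.i (nat_lit 10314) (nat_lit 2) (nat_lit 13))
    (@En.i (nat_lit 4413) (nat_lit 4) (nat_lit 3))
    (@En.n l253 (nat_lit 4784) (nat_lit 11) (nat_lit 7))
    (@En.n l11 (nat_lit 2218) (nat_lit 6) (nat_lit 4))
    (@En.n l127 (nat_lit 4414) (nat_lit 8) (nat_lit 13))
    (@En.n l11 (nat_lit 4409) (nat_lit 8) (nat_lit 3))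
    (@En.i (nat_lit 7306) (nat_lit 9) (nat_lit 5))
    (@En.n l55 (nat_lit 4408) (nat_lit 11) (nat_lit 12))
    (@En.n l1329 (nat_lit 3844) (nat_lit 12) (nat_lit 13))
    (@En.n l4750 (nat_lit 3000) (nat_lit 13) (nat_lit 9))
    (@En.i (nat_lit 4423) (nat_lit 14) (nat_lit 5))
    (@En.i (nat_lit 4302) (nat_lit 14) (nat_lit 11))
    (@En.n l17 (nat_lit 4410) (nat_lit 15) (nat_lit 2))))
  (@Cl.mk (nat_lit 0x2000c0005000a000d0004000c0003000d000600040003000d000b000e0003) (nat_lit 0x5081010100097b0) (nat_lit 16) Lb.e (@T16.mk En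
    (@En.n l2843 (nat_lit 4412) (nat_lit 15) (nat_lit 3))
    (@En.i (nat_lit 13112) (nat_lit 0) (nat_lit 14))
    (@En.n l5 (nat_lit 3582) (nat_lit 2) (nat_lit 11))
    (@En.n l564 (nat_lit 12406) (nat_lit 2) (nat_lit 13))
    (@En.n l7 (nat_lit 4409) (nat_lit 4) (nat_lit 3))
    (@En.i (nat_lit 2858) (nat_lit 5) (nat_lit 4))
    (@En.i (nat_lit 4414) (nat_lit 6) (nat_lit 6))
    (@En.n l2845 (nat_lit 3082) (nat_lit 8) (nat_lit 13))
    (@En.i (nat_lit 4413) (nat_lit 8) (nat_lit 3))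
    (@En.i (nat_lit 3065) (nat_lit 10) (nat_lit 12))
    (@En.n l117 (nat_lit 7378) (nat_lit 10) (nat_lit 4))
    (@En.n l1329 (nat_lit 3843) (nat_lit 5) (nat_lit 13))
    (@En.n l2738 (nat_lit 7416) (nat_lit 13) (nat_lit 10))
    (@En.i (nat_lit 4422) (nat_lit 14) (nat_lit 5))
    (@En.n l133 (nat_lit 4246) (nat_lit 14) (nat_lit 12))
    (@En.n l17 (nat_lit 4411) (nat_lit 15) (nat_lit 2))))
  (@Cl.mk (nat_lit 0x30003000c0004000a000d0004000c0003000d000600040003000d000d000c) (nat_lit 0x508501020009a8) (nat_lit 16) Lb.e (@T16.mk En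
    (@En.n l10858 (nat_lit 4400) (nat_lit 0) (nat_lit 12))
    (@En.n l3471 (nat_lit 4411) (nat_lit 3) (nat_lit 13))
    (@En.i (nat_lit 12411) (nat_lit 2) (nat_lit 13))
    (@En.n l72 (nat_lit 4402) (nat_lit 3) (nat_lit 3))
    (@En.n l13793 (nat_lit 2869) (nat_lit 0) (nat_lit 4))
    (@En.i (nat_lit 4388) (nat_lit 5) (nat_lit 6))
    (@En.n l61 (nat_lit 3083) (nat_lit 1) (nat_lit 13))
    (@En.i (nat_lit 4415) (nat_lit 7) (nat_lit 3))
    (@En.n l13793 (nat_lit 3066) (nat_lit 0) (nat_lit 12))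
    (@En.i (nat_lit 7376) (nat_lit 9) (nat_lit 4))
    (@En.i (nat_lit 4020) (nat_lit 5) (nat_lit 13))
    (@En.n l8297 (nat_lit 7330) (nat_lit 12) (nat_lit 10))
    (@En.i (nat_lit 4396) (nat_lit 8) (nat_lit 4))
    (@En.n l3519 (nat_lit 4243) (nat_lit 0) (nat_lit 12))
    (@En.n l6962 (nat_lit 4418) (nat_lit 13) (nat_lit 3))
    (@En.n l5368 (nat_lit 4411) (nat_lit 0) (nat_lit 3))))
  (@Cl.mk (nat_lit 0x2000b0005000a000d000b00050003000d000600050003000d000b000e0003) (nat_lit 0x4074300500091c0) (nat_lit 16) Lb.e (@T16.mk En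
    (@En.n l2843 (nat_lit 4415) (nat_lit 15) (nat_lit 3))
    (@En.i (nat_lit 13108) (nat_lit 0) (nat_lit 14))
    (@En.n l5 (nat_lit 891) (nat_lit 2) (nat_lit 11))
    (@En.n l3904 (nat_lit 12413) (nat_lit 2) (nat_lit 13))
    (@En.n l7 (nat_lit 4410) (nat_lit 4) (nat_lit 3))
    (@En.n l323 (nat_lit 2383) (nat_lit 5) (nat_lit 5))
    (@En.i (nat_lit 4416) (nat_lit 6) (nat_lit 6))
    (@En.n l127 (nat_lit 4417) (nat_lit 8) (nat_lit 13))
    (@En.n l11 (nat_lit 4411) (nat_lit 8) (nat_lit 3))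
    (@En.n l128 (nat_lit 7307) (nat_lit 9) (nat_lit 5))
    (@En.i (nat_lit 3651) (nat_lit 11) (nat_lit 11))
    (@En.n l128 (nat_lit 4112) (nat_lit 5) (nat_lit 13))
    (@En.n l129 (nat_lit 7410) (nat_lit 13) (nat_lit 10))
    (@En.n l2739 (nat_lit 779) (nat_lit 14) (nat_lit 5))
    (@En.n l2813 (nat_lit 4303) (nat_lit 14) (nat_lit 11))
    (@En.n l17 (nat_lit 4413) (nat_lit 15) (nat_lit 2))))
  (@Cl.mk (nat_lit 0x2000b0005000a0009000d0005000d0003000600030007000d000b000e0003) (nat_lit 0x508220100009680) (nat_lit 16) Lb.e (@T16.mk En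
    (@En.n l2843 (nat_lit 4388) (nat_lit 15) (nat_lit 3))
    (@En.i (nat_lit 13111) (nat_lit 0) (nat_lit 14))
    (@En.n l5 (nat_lit 2322) (nat_lit 2) (nat_lit 11))
    (@En.n l420 (nat_lit 12401) (nat_lit 12) (nat_lit 13))
    (@En.n l2738 (nat_lit 4676) (nat_lit 4) (nat_lit 7))
    (@En.i (nat_lit 4417) (nat_lit 5) (nat_lit 3))
    (@En.n l1604 (nat_lit 3029) (nat_lit 0) (nat_lit 6))
    (@En.i (nat_lit 4416) (nat_lit 7) (nat_lit 3))
    (@En.n l11028 (nat_lit 3067) (nat_lit 0) (nat_lit 13))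
    (@En.n l117 (nat_lit 7375) (nat_lit 9) (nat_lit 5))
    (@En.n l8 (nat_lit 4411) (nat_lit 11) (nat_lit 13))
    (@En.i (nat_lit 4409) (nat_lit 12) (nat_lit 9))
    (@En.n l4592 (nat_lit 7418) (nat_lit 13) (nat_lit 10))
    (@En.i (nat_lit 4421) (nat_lit 14) (nat_lit 5))
    (@En.i (nat_lit 4249) (nat_lit 9) (nat_lit 11))
    (@En.n l17 (nat_lit 4414) (nat_lit 15) (nat_lit 2))))
  (@Cl.mk (nat_lit 0x30003000b0004000a000d000b00050003000d000600050003000d000d000c) (nat_lit 0x507830050009a8) (nat_lit 16) Lb.e (@T16.mk En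
    (@En.n l10858 (nat_lit 4401) (nat_lit 0) (nat_lit 12))
    (@En.n l3471 (nat_lit 4413) (nat_lit 3) (nat_lit 13))
    (@En.i (nat_lit 12414) (nat_lit 2) (nat_lit 13))
    (@En.n l72 (nat_lit 4403) (nat_lit 3) (nat_lit 3))
    (@En.n l10859 (nat_lit 2382) (nat_lit 0) (nat_lit 5))
    (@En.i (nat_lit 4386) (nat_lit 5) (nat_lit 6))
    (@En.n l7658 (nat_lit 4382) (nat_lit 7) (nat_lit 13))
    (@En.n l7 (nat_lit 4412) (nat_lit 7) (nat_lit 3))
    (@En.n l4121 (nat_lit 7308) (nat_lit 0) (nat_lit 5))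
    (@En.i (nat_lit 3561) (nat_lit 10) (nat_lit 11))
    (@En.i (nat_lit 4024) (nat_lit 5) (nat_lit 13))
    (@En.n l4122 (nat_lit 7327) (nat_lit 12) (nat_lit 10))
    (@En.n l10860 (nat_lit 4392) (nat_lit 8) (nat_lit 4))
    (@En.n l3519 (nat_lit 4301) (nat_lit 0) (nat_lit 11))
    (@En.n l6962 (nat_lit 4419) (nat_lit 13) (nat_lit 3))
    (@En.n l5368 (nat_lit 4413) (nat_lit 0) (nat_lit 3))))
noncomputable def a276 : T16 Cl := @T16.mk Cl
  (@Cl.mk (nat_lit 0x2000a0005000a0009000d000c00060003000600040007000d000b000e0003) (nat_lit 0x20825a00000a1c0) (nat_lit 16) Lb.e (@T16.mk En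
    (@En.n l2843 (nat_lit 4386) (nat_lit 15) (nat_lit 3))
    (@En.i (nat_lit 13110) (nat_lit 0) (nat_lit 14))
    (@En.n l10709 (nat_lit 890) (nat_lit 2) (nat_lit 11))
    (@En.n l591 (nat_lit 12402) (nat_lit 12) (nat_lit 13))
    (@En.n l10710 (nat_lit 4737) (nat_lit 11) (nat_lit 7))
    (@En.n l11 (nat_lit 1856) (nat_lit 5) (nat_lit 4))
    (@En.n l591 (nat_lit 2426) (nat_lit 6) (nat_lit 6))
    (@En.n l11 (nat_lit 4414) (nat_lit 7) (nat_lit 3))
    (@En.n l10695 (nat_lit 7309) (nat_lit 0) (nat_lit 6))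
    (@En.n l55 (nat_lit 4417) (nat_lit 10) (nat_lit 12))
    (@En.n l8 (nat_lit 4413) (nat_lit 11) (nat_lit 13))
    (@En.i (nat_lit 4410) (nat_lit 12) (nat_lit 9))
    (@En.n l591 (nat_lit 7419) (nat_lit 13) (nat_lit 10))
    (@En.n l10711 (nat_lit 778) (nat_lit 14) (nat_lit 5))
    (@En.i (nat_lit 4306) (nat_lit 14) (nat_lit 10))
    (@En.n l17 (nat_lit 4416) (nat_lit 15) (nat_lit 2))))
  (@Cl.mk (nat_lit 0x2000b0005000b0009000c0005000d0005000400030007000d000b000e0003) (nat_lit 0x40829040000a6b0) (nat_lit 16) Lb.e (@T16.mk En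
    (@En.n l7859 (nat_lit 4382) (nat_lit 15) (nat_lit 3))
    (@En.i (nat_lit 13113) (nat_lit 0) (nat_lit 14))
    (@En.n l7860 (nat_lit 2321) (nat_lit 2) (nat_lit 11))
    (@En.n l420 (nat_lit 12403) (nat_lit 2) (nat_lit 13))
    (@En.n l343 (nat_lit 4416) (nat_lit 4) (nat_lit 7))
    (@En.n l28 (nat_lit 4414) (nat_lit 5) (nat_lit 3))
    (@En.n l2618 (nat_lit 1857) (nat_lit 0) (nat_lit 4))
    (@En.i (nat_lit 2424) (nat_lit 7) (nat_lit 5))
    (@En.n l7861 (nat_lit 3794) (nat_lit 9) (nat_lit 13))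
    (@En.n l7779 (nat_lit 7239) (nat_lit 9) (nat_lit 5))
    (@En.n l8 (nat_lit 2858) (nat_lit 11) (nat_lit 12))
    (@En.i (nat_lit 4408) (nat_lit 12) (nat_lit 9))
    (@En.n l7780 (nat_lit 7421) (nat_lit 13) (nat_lit 11))
    (@En.n l7862 (nat_lit 4420) (nat_lit 14) (nat_lit 5))
    (@En.n l7863 (nat_lit 4309) (nat_lit 9) (nat_lit 11))
    (@En.n l17 (nat_lit 4417) (nat_lit 15) (nat_lit 2))))
  (@Cl.mk (nat_lit 0x2000d0003000c0003000a000d0004000c0003000d000600040003000e000d) (nat_lit 0x2050830202000aa) (nat_lit 16) Lb.e (@T16.mk En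
    (@En.n l617 (nat_lit 4412) (nat_lit 2) (nat_lit 13))
    (@En.i (nat_lit 12421) (nat_lit 1) (nat_lit 14))
    (@En.n l18 (nat_lit 4404) (nat_lit 2) (nat_lit 3))
    (@En.n l3348 (nat_lit 4033) (nat_lit 3) (nat_lit 4))
    (@En.i (nat_lit 4387) (nat_lit 4) (nat_lit 6))
    (@En.n l725 (nat_lit 3086) (nat_lit 6) (nat_lit 13))
    (@En.i (nat_lit 4419) (nat_lit 6) (nat_lit 3))
    (@En.n l3348 (nat_lit 3892) (nat_lit 0) (nat_lit 12))
    (@En.n l9962 (nat_lit 7377) (nat_lit 8) (nat_lit 4))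
    (@En.n l617 (nat_lit 4018) (nat_lit 5) (nat_lit 13))
    (@En.i (nat_lit 7329) (nat_lit 11) (nat_lit 10))
    (@En.i (nat_lit 4400) (nat_lit 11) (nat_lit 3))
    (@En.n l2199 (nat_lit 3449) (nat_lit 0) (nat_lit 12))
    (@En.n l6680 (nat_lit 4412) (nat_lit 14) (nat_lit 3))
    (@En.i (nat_lit 652) (nat_lit 0) (nat_lit 13))
    (@En.n l3 (nat_lit 4418) (nat_lit 15) (nat_lit 2))))
  (@Cl.mk (nat_lit 0x2000d0003000b0003000a000d000b00050003000d000600050003000e000d) (nat_lit 0x2050729002000aa) (nat_lit 16) Lb.e (@T16.mk En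
    (@En.n l617 (nat_lit 4415) (nat_lit 2) (nat_lit 13))
    (@En.i (nat_lit 12417) (nat_lit 1) (nat_lit 14))
    (@En.n l18 (nat_lit 4405) (nat_lit 2) (nat_lit 3))
    (@En.n l4356 (nat_lit 2385) (nat_lit 3) (nat_lit 5))
    (@En.i (nat_lit 4384) (nat_lit 4) (nat_lit 6))
    (@En.n l6840 (nat_lit 4383) (nat_lit 6) (nat_lit 13))
    (@En.n l7 (nat_lit 4418) (nat_lit 6) (nat_lit 3))
    (@En.n l4806 (nat_lit 7311) (nat_lit 7) (nat_lit 5))
    (@En.n l5911 (nat_lit 3560) (nat_lit 9) (nat_lit 11))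
    (@En.n l617 (nat_lit 4023) (nat_lit 5) (nat_lit 13))
    (@En.i (nat_lit 7326) (nat_lit 11) (nat_lit 10))
    (@En.i (nat_lit 4401) (nat_lit 11) (nat_lit 3))
    (@En.n l2199 (nat_lit 3446) (nat_lit 0) (nat_lit 11))
    (@En.n l6680 (nat_lit 4415) (nat_lit 14) (nat_lit 3))
    (@En.i (nat_lit 734) (nat_lit 0) (nat_lit 13))
    (@En.n l3 (nat_lit 4419) (nat_lit 15) (nat_lit 2))))
  (@Cl.mk (nat_lit 0x20005000b0009000c0008000d0005000400030007000c000b0008000e0004) (nat_lit 0x7693b0000971c0) (nat_lit 16) Lb.e (@T16.mk En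
    (@En.n l50 (nat_lit 4380) (nat_lit 9) (nat_lit 4))
    (@En.n l18914 (nat_lit 4417) (nat_lit 1) (nat_lit 14))
    (@En.n l7694 (nat_lit 3661) (nat_lit 2) (nat_lit 8))
    (@En.n l11245 (nat_lit 2323) (nat_lit 3) (nat_lit 11))
    (@En.n l8246 (nat_lit 11822) (nat_lit 5) (nat_lit 12))
    (@En.n l18915 (nat_lit 778) (nat_lit 5) (nat_lit 7))
    (@En.n l18916 (nat_lit 4421) (nat_lit 6) (nat_lit 3))
    (@En.n l6950 (nat_lit 2278) (nat_lit 7) (nat_lit 4))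
    (@En.n l18917 (nat_lit 2427) (nat_lit 8) (nat_lit 5))
    (@En.i (nat_lit 3792) (nat_lit 10) (nat_lit 13))
    (@En.n l18918 (nat_lit 6307) (nat_lit 11) (nat_lit 8))
    (@En.i (nat_lit 2868) (nat_lit 12) (nat_lit 12))
    (@En.n l18917 (nat_lit 4425) (nat_lit 13) (nat_lit 9))
    (@En.n l16484 (nat_lit 8116) (nat_lit 14) (nat_lit 11))
    (@En.n l18919 (nat_lit 2067) (nat_lit 13) (nat_lit 5))
    (@En.n l18 (nat_lit 4420) (nat_lit 15) (nat_lit 2))))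
  (@Cl.mk (nat_lit 0x20005000a0009000d0008000d0003000600030007000c000b0008000e0004) (nat_lit 0x86242000097290) (nat_lit 16) Lb.e (@T16.mk En
    (@En.n l2843 (nat_lit 4391) (nat_lit 7) (nat_lit 4))
    (@En.n l3 (nat_lit 4414) (nat_lit 1) (nat_lit 14))
    (@En.i (nat_lit 3663) (nat_lit 2) (nat_lit 8))
    (@En.n l22315 (nat_lit 2325) (nat_lit 3) (nat_lit 11))
    (@En.n l4592 (nat_lit 11824) (nat_lit 12) (nat_lit 12))
    (@En.n l2738 (nat_lit 4674) (nat_lit 5) (nat_lit 7))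
    (@En.n l7862 (nat_lit 4420) (nat_lit 6) (nat_lit 3))
    (@En.n l4592 (nat_lit 3028) (nat_lit 7) (nat_lit 6))
    (@En.n l10711 (nat_lit 778) (nat_lit 8) (nat_lit 3))
    (@En.n l33387 (nat_lit 3793) (nat_lit 0) (nat_lit 13))
    (@En.i (nat_lit 4429) (nat_lit 11) (nat_lit 8))
    (@En.n l8 (nat_lit 4422) (nat_lit 12) (nat_lit 13))
    (@En.i (nat_lit 4424) (nat_lit 13) (nat_lit 9))
    (@En.n l4592 (nat_lit 8099) (nat_lit 14) (nat_lit 10))
    (@En.n l3106 (nat_lit 2805) (nat_lit 13) (nat_lit 5))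
    (@En.n l17 (nat_lit 4421) (nat_lit 15) (nat_lit 2))))
  (@Cl.mk (nat_lit 0x20005000a000d0007000c0003000d000600040003000c000b0009000e0004) (nat_lit 0x710105000911c0) (nat_lit 16) Lb.e (@T16.mk En
    (@En.n l2843 (nat_lit 4396) (nat_lit 10) (nat_lit 4))
    (@En.n l3 (nat_lit 4411) (nat_lit 1) (nat_lit 14))
    (@En.i (nat_lit 3660) (nat_lit 2) (nat_lit 9))
    (@En.n l19688 (nat_lit 2327) (nat_lit 3) (nat_lit 11))
    (@En.n l4589 (nat_lit 12428) (nat_lit 5) (nat_lit 12))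
    (@En.n l7 (nat_lit 4424) (nat_lit 5) (nat_lit 3))
    (@En.n l3763 (nat_lit 2868) (nat_lit 6) (nat_lit 4))
    (@En.i (nat_lit 4421) (nat_lit 7) (nat_lit 6))
    (@En.n l15055 (nat_lit 3897) (nat_lit 9) (nat_lit 13))
    (@En.n l2739 (nat_lit 779) (nat_lit 9) (nat_lit 3))
    (@En.n l3763 (nat_lit 3064) (nat_lit 11) (nat_lit 12))
    (@En.n l19689 (nat_lit 4427) (nat_lit 12) (nat_lit 7))
    (@En.n l4313 (nat_lit 3842) (nat_lit 5) (nat_lit 13))
    (@En.n l19690 (nat_lit 8098) (nat_lit 14) (nat_lit 10))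
    (@En.n l3106 (nat_lit 2812) (nat_lit 13) (nat_lit 5))
    (@En.n l17 (nat_lit 4422) (nat_lit 15) (nat_lit 2))))
  (@Cl.mk (nat_lit 0x200050009000d000c00080003000d000400070003000c000b0008000e0004) (nat_lit 0x772303000672c0) (nat_lit 16) Lb.e (@T16.mk En
    (@En.n l2843 (nat_lit 4393) (nat_lit 10) (nat_lit 4))
    (@En.n l3 (nat_lit 4410) (nat_lit 1) (nat_lit 14))
    (@En.i (nat_lit 4576) (nat_lit 2) (nat_lit 8))
    (@En.n l5 (nat_lit 2328) (nat_lit 3) (nat_lit 11))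
    (@En.n l3651 (nat_lit 12474) (nat_lit 5) (nat_lit 12))
    (@En.n l2739 (nat_lit 779) (nat_lit 5) (nat_lit 3))
    (@En.n l919 (nat_lit 4785) (nat_lit 6) (nat_lit 7))
    (@En.n l24376 (nat_lit 776) (nat_lit 7) (nat_lit 4))
    (@En.n l127 (nat_lit 4421) (nat_lit 9) (nat_lit 13))
    (@En.n l11 (nat_lit 4424) (nat_lit 9) (nat_lit 3))
    (@En.n l10833 (nat_lit 6290) (nat_lit 11) (nat_lit 8))
    (@En.n l55 (nat_lit 4425) (nat_lit 12) (nat_lit 12))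
    (@En.n l1329 (nat_lit 3826) (nat_lit 13) (nat_lit 13))
    (@En.n l21406 (nat_lit 8090) (nat_lit 14) (nat_lit 9))
    (@En.n l3106 (nat_lit 2794) (nat_lit 13) (nat_lit 5))
    (@En.n l17 (nat_lit 4423) (nat_lit 15) (nat_lit 2))))
  (@Cl.mk (nat_lit 0x200050009000d0007000d0003000d000300070003000c000b0009000e0004) (nat_lit 0x590205000712c0) (nat_lit 16) Lb.e (@T16.mk En
    (@En.n l2843 (nat_lit 4395) (nat_lit 8) (nat_lit 4))
    (@En.n l3 (nat_lit 4409) (nat_lit 1) (nat_lit 14))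
    (@En.i (nat_lit 4586) (nat_lit 2) (nat_lit 9))
    (@En.n l5 (nat_lit 2331) (nat_lit 3) (nat_lit 11))
    (@En.i (nat_lit 12473) (nat_lit 5) (nat_lit 12))
    (@En.i (nat_lit 4422) (nat_lit 5) (nat_lit 3))
    (@En.n l253 (nat_lit 4678) (nat_lit 6) (nat_lit 7))
    (@En.i (nat_lit 4425) (nat_lit 7) (nat_lit 3))
    (@En.i (nat_lit 3896) (nat_lit 9) (nat_lit 13))
    (@En.i (nat_lit 4423) (nat_lit 9) (nat_lit 3))
    (@En.n l16483 (nat_lit 3967) (nat_lit 11) (nat_lit 13))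
    (@En.i (nat_lit 4426) (nat_lit 12) (nat_lit 7))
    (@En.n l1329 (nat_lit 3841) (nat_lit 13) (nat_lit 13))
    (@En.n l11247 (nat_lit 8089) (nat_lit 14) (nat_lit 9))
    (@En.n l3106 (nat_lit 2792) (nat_lit 13) (nat_lit 5))
    (@En.n l17 (nat_lit 4424) (nat_lit 15) (nat_lit 2))))
  (@Cl.mk (nat_lit 0x200050009000c0007000d000c0004000300070004000c000b0009000e0004) (nat_lit 0x510120000782c0) (nat_lit 16) Lb.e (@T16.mk En
    (@En.n l2843 (nat_lit 4394) (nat_lit 8) (nat_lit 4))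
    (@En.n l3 (nat_lit 4408) (nat_lit 1) (nat_lit 14))
    (@En.i (nat_lit 4574) (nat_lit 2) (nat_lit 9))
    (@En.n l11246 (nat_lit 2660) (nat_lit 3) (nat_lit 11))
    (@En.n l5236 (nat_lit 12475) (nat_lit 5) (nat_lit 12))
    (@En.n l3763 (nat_lit 3650) (nat_lit 5) (nat_lit 4))
    (@En.n l343 (nat_lit 4423) (nat_lit 6) (nat_lit 7))
    (@En.n l28 (nat_lit 4424) (nat_lit 7) (nat_lit 3))
    (@En.n l5288 (nat_lit 2656) (nat_lit 8) (nat_lit 4))
    (@En.n l77 (nat_lit 4422) (nat_lit 10) (nat_lit 12))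
    (@En.n l3763 (nat_lit 3775) (nat_lit 11) (nat_lit 13))
    (@En.n l1328 (nat_lit 4428) (nat_lit 12) (nat_lit 7))
    (@En.n l1329 (nat_lit 3848) (nat_lit 13) (nat_lit 12))
    (@En.n l11247 (nat_lit 8091) (nat_lit 14) (nat_lit 9))
    (@En.n l3106 (nat_lit 2793) (nat_lit 13) (nat_lit 5))
    (@En.n l17 (nat_lit 4425) (nat_lit 15) (nat_lit 2))))
  (@Cl.mk (nat_lit 0x20006000a0007000d0008000d000300060003000b000a00090008000e0005) (nat_lit 0x60001000600300) (nat_lit 16) Lb.e (@T16.mk En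
    (@En.n l2843 (nat_lit 4431) (nat_lit 7) (nat_lit 5))
    (@En.n l3548 (nat_lit 12718) (nat_lit 1) (nat_lit 14))
    (@En.n l575 (nat_lit 4423) (nat_lit 2) (nat_lit 8))
    (@En.i (nat_lit 10224) (nat_lit 3) (nat_lit 9))
    (@En.n l26677 (nat_lit 4499) (nat_lit 4) (nat_lit 10))
    (@En.i (nat_lit 11950) (nat_lit 13) (nat_lit 11))
    (@En.n l19689 (nat_lit 4427) (nat_lit 6) (nat_lit 3))
    (@En.n l3549 (nat_lit 5712) (nat_lit 7) (nat_lit 6))
    (@En.n l1328 (nat_lit 4428) (nat_lit 8) (nat_lit 3))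
    (@En.n l3550 (nat_lit 2662) (nat_lit 0) (nat_lit 13))
    (@En.i (nat_lit 5914) (nat_lit 11) (nat_lit 8))
    (@En.n l38700 (nat_lit 4430) (nat_lit 12) (nat_lit 13))
    (@En.n l36624 (nat_lit 3141) (nat_lit 13) (nat_lit 7))
    (@En.n l11247 (nat_lit 7464) (nat_lit 14) (nat_lit 10))
    (@En.n l2947 (nat_lit 6680) (nat_lit 5) (nat_lit 6))
    (@En.n l17 (nat_lit 4426) (nat_lit 15) (nat_lit 2))))
  (@Cl.mk (nat_lit 0x20006000b0007000c0008000d000500040003000b000a00090008000e0005) (nat_lit 0x1000800100) (nat_lit 16) Lb.e (@T16.mk En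
    (@En.n l117 (nat_lit 2417) (nat_lit 9) (nat_lit 5))
    (@En.n l35458 (nat_lit 8521) (nat_lit 1) (nat_lit 14))
    (@En.n l35459 (nat_lit 779) (nat_lit 2) (nat_lit 8))
    (@En.n l35460 (nat_lit 7541) (nat_lit 3) (nat_lit 9))
    (@En.n l6458 (nat_lit 6241) (nat_lit 4) (nat_lit 10))
    (@En.n l936 (nat_lit 10416) (nat_lit 6) (nat_lit 11))
    (@En.n l35461 (nat_lit 4426) (nat_lit 6) (nat_lit 3))
    (@En.n l18 (nat_lit 7532) (nat_lit 7) (nat_lit 4))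
    (@En.n l35462 (nat_lit 4429) (nat_lit 8) (nat_lit 5))
    (@En.i (nat_lit 2664) (nat_lit 10) (nat_lit 13))
    (@En.n l61 (nat_lit 5913) (nat_lit 11) (nat_lit 8))
    (@En.n l35315 (nat_lit 6308) (nat_lit 12) (nat_lit 12))
    (@En.n l35463 (nat_lit 2989) (nat_lit 13) (nat_lit 7))
    (@En.n l35464 (nat_lit 9460) (nat_lit 14) (nat_lit 11))
    (@En.n l35465 (nat_lit 6654) (nat_lit 13) (nat_lit 6))
    (@En.n l11 (nat_lit 4427) (nat_lit 15) (nat_lit 2))))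
  (@Cl.mk (nat_lit 0x20006000a0007000d000c0009000300060004000b000a00090007000e0005) (nat_lit 0x60012000000000) (nat_lit 16) Lb.e (@T16.mk En
    (@En.n l4110 (nat_lit 4433) (nat_lit 7) (nat_lit 5))
    (@En.n l23078 (nat_lit 12717) (nat_lit 1) (nat_lit 14))
    (@En.n l22147 (nat_lit 776) (nat_lit 2) (nat_lit 7))
    (@En.n l217 (nat_lit 10220) (nat_lit 3) (nat_lit 9))
    (@En.i (nat_lit 4498) (nat_lit 4) (nat_lit 10))
    (@En.n l19537 (nat_lit 11768) (nat_lit 13) (nat_lit 11))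
    (@En.i (nat_lit 6309) (nat_lit 6) (nat_lit 4))
    (@En.i (nat_lit 6290) (nat_lit 7) (nat_lit 6))
    (@En.n l1035 (nat_lit 4426) (nat_lit 8) (nat_lit 3))
    (@En.n l97 (nat_lit 1762) (nat_lit 0) (nat_lit 9))
    (@En.n l3866 (nat_lit 4427) (nat_lit 11) (nat_lit 12))
    (@En.n l24868 (nat_lit 4432) (nat_lit 12) (nat_lit 13))
    (@En.n l24684 (nat_lit 3135) (nat_lit 13) (nat_lit 7))
    (@En.n l24869 (nat_lit 7467) (nat_lit 14) (nat_lit 10))
    (@En.n l11538 (nat_lit 5394) (nat_lit 5) (nat_lit 6))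
    (@En.n l7 (nat_lit 4428) (nat_lit 15) (nat_lit 2))))
  (@Cl.mk (nat_lit 0x20006000b000a0008000d0009000500030006000b000a00080007000e0005) (nat_lit 0x7300000000000) (nat_lit 16) Lb.e (@T16.mk En
    (@En.n l41794 (nat_lit 6296) (nat_lit 8) (nat_lit 5))
    (@En.n l3548 (nat_lit 9770) (nat_lit 1) (nat_lit 14))
    (@En.n l41795 (nat_lit 778) (nat_lit 2) (nat_lit 7))
    (@En.n l34719 (nat_lit 9391) (nat_lit 3) (nat_lit 8))
    (@En.n l41796 (nat_lit 6240) (nat_lit 4) (nat_lit 10))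
    (@En.n l4592 (nat_lit 11819) (nat_lit 6) (nat_lit 11))
    (@En.n l41797 (nat_lit 5250) (nat_lit 6) (nat_lit 6))
    (@En.n l41798 (nat_lit 6307) (nat_lit 7) (nat_lit 3))
    (@En.n l41799 (nat_lit 7795) (nat_lit 0) (nat_lit 5))
    (@En.n l41800 (nat_lit 5912) (nat_lit 10) (nat_lit 9))
    (@En.n l41801 (nat_lit 6303) (nat_lit 11) (nat_lit 13))
    (@En.n l41802 (nat_lit 7496) (nat_lit 12) (nat_lit 8))
    (@En.i (nat_lit 4426) (nat_lit 13) (nat_lit 10))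
    (@En.n l4592 (nat_lit 9461) (nat_lit 14) (nat_lit 11))
    (@En.n l2947 (nat_lit 6684) (nat_lit 13) (nat_lit 6))
    (@En.n l17 (nat_lit 4429) (nat_lit 15) (nat_lit 2))))
  (@Cl.mk (nat_lit 0x20006000a000d0007000c0003000b00060004000b000a00050009000e0005) (nat_lit 0x6b010500000300) (nat_lit 16) Lb.e (@T16.mk En
    (@En.n l5246 (nat_lit 6355) (nat_lit 6) (nat_lit 5))
    (@En.i (nat_lit 12716) (nat_lit 1) (nat_lit 14))
    (@En.n l39536 (nat_lit 4425) (nat_lit 2) (nat_lit 9))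
    (@En.n l39537 (nat_lit 7930) (nat_lit 3) (nat_lit 5))
    (@En.n l39538 (nat_lit 4492) (nat_lit 4) (nat_lit 10))
    (@En.n l11515 (nat_lit 11769) (nat_lit 6) (nat_lit 11))
    (@En.n l2117 (nat_lit 6308) (nat_lit 6) (nat_lit 4))
    (@En.n l39539 (nat_lit 4426) (nat_lit 7) (nat_lit 6))
    (@En.n l39540 (nat_lit 5720) (nat_lit 9) (nat_lit 11))
    (@En.n l8143 (nat_lit 4432) (nat_lit 9) (nat_lit 3))
    (@En.n l9385 (nat_lit 2665) (nat_lit 11) (nat_lit 12))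
    (@En.n l39541 (nat_lit 6352) (nat_lit 12) (nat_lit 7))
    (@En.i (nat_lit 8075) (nat_lit 5) (nat_lit 13))
    (@En.n l10203 (nat_lit 7463) (nat_lit 14) (nat_lit 10))
    (@En.n l39542 (nat_lit 5395) (nat_lit 13) (nat_lit 6))
    (@En.n l28 (nat_lit 4430) (nat_lit 15) (nat_lit 2))))
  (@Cl.mk (nat_lit 0x300060003000b000b000b000a0009000500050005000a0006000d0007000d) (nat_lit 0x700400050a02) (nat_lit 16) Lb.e (@T16.mk En
    (@En.n l24654 (nat_lit 3706) (nat_lit 0) (nat_lit 13))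
    (@En.n l14009 (nat_lit 5916) (nat_lit 3) (nat_lit 7))
    (@En.n l31517 (nat_lit 6355) (nat_lit 2) (nat_lit 13))
    (@En.i (nat_lit 3154) (nat_lit 3) (nat_lit 6))
    (@En.n l6960 (nat_lit 9496) (nat_lit 4) (nat_lit 10))
    (@En.n l31518 (nat_lit 4437) (nat_lit 11) (nat_lit 5))
    (@En.n l31519 (nat_lit 6360) (nat_lit 11) (nat_lit 5))
    (@En.n l31520 (nat_lit 9743) (nat_lit 7) (nat_lit 5))
    (@En.n l77 (nat_lit 4393) (nat_lit 11) (nat_lit 9))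
    (@En.n l55 (nat_lit 10227) (nat_lit 10) (nat_lit 10))
    (@En.n l10858 (nat_lit 6246) (nat_lit 5) (nat_lit 11))
    (@En.n l3471 (nat_lit 4426) (nat_lit 5) (nat_lit 11))
    (@En.i (nat_lit 10964) (nat_lit 13) (nat_lit 11))
    (@En.n l13902 (nat_lit 2417) (nat_lit 15) (nat_lit 3))
    (@En.n l6042 (nat_lit 5722) (nat_lit 12) (nat_lit 6))
    (@En.n l6959 (nat_lit 4433) (nat_lit 15) (nat_lit 3))))
noncomputable def a277 : T16 Cl := @T16.mk Cl
  (@Cl.mk (nat_lit 0x20006000a000d000b00080003000b00060005000b000a00050008000e0005) (nat_lit 0x6b020500000300) (nat_lit 16) Lb.e (@T16.mk En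
    (@En.n l16304 (nat_lit 6354) (nat_lit 6) (nat_lit 5))
    (@En.n l37754 (nat_lit 12715) (nat_lit 1) (nat_lit 14))
    (@En.n l2568 (nat_lit 2656) (nat_lit 2) (nat_lit 8))
    (@En.n l29024 (nat_lit 7929) (nat_lit 3) (nat_lit 5))
    (@En.n l16307 (nat_lit 4493) (nat_lit 4) (nat_lit 10))
    (@En.i (nat_lit 11766) (nat_lit 6) (nat_lit 11))
    (@En.n l37473 (nat_lit 6305) (nat_lit 6) (nat_lit 5))
    (@En.n l29228 (nat_lit 4428) (nat_lit 7) (nat_lit 6))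
    (@En.n l37755 (nat_lit 6352) (nat_lit 9) (nat_lit 11))
    (@En.n l4241 (nat_lit 4430) (nat_lit 9) (nat_lit 3))
    (@En.n l23552 (nat_lit 1764) (nat_lit 11) (nat_lit 8))
    (@En.n l37756 (nat_lit 6340) (nat_lit 12) (nat_lit 11))
    (@En.n l16307 (nat_lit 8074) (nat_lit 5) (nat_lit 13))
    (@En.i (nat_lit 7465) (nat_lit 14) (nat_lit 10))
    (@En.n l1081 (nat_lit 5391) (nat_lit 13) (nat_lit 6))
    (@En.n l11 (nat_lit 4432) (nat_lit 15) (nat_lit 2))))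
  (@Cl.mk (nat_lit 0x300060004000b000b000b000a0008000500050005000a0006000d000c0008) (nat_lit 0x103100050b12) (nat_lit 16) Lb.e (@T16.mk En
    (@En.n l16413 (nat_lit 1571) (nat_lit 0) (nat_lit 8))
    (@En.n l15627 (nat_lit 2417) (nat_lit 4) (nat_lit 12))
    (@En.n l16414 (nat_lit 6354) (nat_lit 2) (nat_lit 13))
    (@En.n l16415 (nat_lit 3158) (nat_lit 3) (nat_lit 6))
    (@En.i (nat_lit 9488) (nat_lit 4) (nat_lit 10))
    (@En.n l3787 (nat_lit 4438) (nat_lit 11) (nat_lit 5))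
    (@En.n l55 (nat_lit 6359) (nat_lit 11) (nat_lit 5))
    (@En.i (nat_lit 8590) (nat_lit 7) (nat_lit 5))
    (@En.n l16416 (nat_lit 835) (nat_lit 0) (nat_lit 8))
    (@En.n l2337 (nat_lit 10225) (nat_lit 10) (nat_lit 10))
    (@En.n l601 (nat_lit 6247) (nat_lit 5) (nat_lit 11))
    (@En.n l2281 (nat_lit 4428) (nat_lit 5) (nat_lit 11))
    (@En.i (nat_lit 10962) (nat_lit 13) (nat_lit 11))
    (@En.n l6618 (nat_lit 2415) (nat_lit 14) (nat_lit 4))
    (@En.i (nat_lit 6287) (nat_lit 12) (nat_lit 6))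
    (@En.n l16417 (nat_lit 4431) (nat_lit 15) (nat_lit 3))))
  (@Cl.mk (nat_lit 0x2000b000500040009000c0005000d000c0004000300070004000b000e000c) (nat_lit 0x100710b100006c9) (nat_lit 16) Lb.e (@T16.mk En
    (@En.n l9463 (nat_lit 4394) (nat_lit 11) (nat_lit 12))
    (@En.i (nat_lit 3360) (nat_lit 4) (nat_lit 14))
    (@En.n l6622 (nat_lit 12468) (nat_lit 2) (nat_lit 11))
    (@En.n l28 (nat_lit 3581) (nat_lit 3) (nat_lit 4))
    (@En.n l343 (nat_lit 4436) (nat_lit 4) (nat_lit 7))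
    (@En.n l28 (nat_lit 4435) (nat_lit 5) (nat_lit 3))
    (@En.n l4011 (nat_lit 2657) (nat_lit 0) (nat_lit 4))
    (@En.n l77 (nat_lit 3582) (nat_lit 8) (nat_lit 12))
    (@En.n l9385 (nat_lit 3963) (nat_lit 9) (nat_lit 13))
    (@En.n l9464 (nat_lit 4438) (nat_lit 9) (nat_lit 5))
    (@En.n l1329 (nat_lit 3064) (nat_lit 6) (nat_lit 12))
    (@En.i (nat_lit 7904) (nat_lit 12) (nat_lit 9))
    (@En.n l1329 (nat_lit 4407) (nat_lit 12) (nat_lit 4))
    (@En.n l9465 (nat_lit 2660) (nat_lit 14) (nat_lit 5))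
    (@En.i (nat_lit 4251) (nat_lit 9) (nat_lit 11))
    (@En.n l18 (nat_lit 4434) (nat_lit 15) (nat_lit 2))))
  (@Cl.mk (nat_lit 0x2000b000500040009000d0005000d0003000d000300070003000b000e000c) (nat_lit 0x200720a040006c9) (nat_lit 16) Lb.e (@T16.mk En
    (@En.n l9463 (nat_lit 4395) (nat_lit 11) (nat_lit 12))
    (@En.i (nat_lit 3362) (nat_lit 4) (nat_lit 14))
    (@En.i (nat_lit 12469) (nat_lit 2) (nat_lit 11))
    (@En.i (nat_lit 3582) (nat_lit 3) (nat_lit 3))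
    (@En.n l1203 (nat_lit 4694) (nat_lit 4) (nat_lit 7))
    (@En.i (nat_lit 4434) (nat_lit 5) (nat_lit 3))
    (@En.n l15068 (nat_lit 3899) (nat_lit 0) (nat_lit 13))
    (@En.i (nat_lit 4436) (nat_lit 7) (nat_lit 3))
    (@En.n l9385 (nat_lit 3966) (nat_lit 9) (nat_lit 13))
    (@En.n l117 (nat_lit 4437) (nat_lit 9) (nat_lit 5))
    (@En.n l1329 (nat_lit 3832) (nat_lit 11) (nat_lit 13))
    (@En.i (nat_lit 8620) (nat_lit 12) (nat_lit 9))
    (@En.n l1329 (nat_lit 4402) (nat_lit 12) (nat_lit 4))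
    (@En.i (nat_lit 2331) (nat_lit 14) (nat_lit 5))
    (@En.i (nat_lit 4242) (nat_lit 9) (nat_lit 11))
    (@En.n l18 (nat_lit 4435) (nat_lit 15) (nat_lit 2))))
  (@Cl.mk (nat_lit 0x2000a000500040009000d000c00060003000d000400070003000b000e000c) (nat_lit 0x2007820010006c8) (nat_lit 16) Lb.e (@T16.mk En
    (@En.n l9463 (nat_lit 4393) (nat_lit 13) (nat_lit 12))
    (@En.i (nat_lit 3359) (nat_lit 4) (nat_lit 14))
    (@En.n l1080 (nat_lit 12467) (nat_lit 2) (nat_lit 11))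
    (@En.i (nat_lit 891) (nat_lit 3) (nat_lit 3))
    (@En.n l710 (nat_lit 4699) (nat_lit 11) (nat_lit 7))
    (@En.n l11 (nat_lit 888) (nat_lit 5) (nat_lit 4))
    (@En.n l127 (nat_lit 2322) (nat_lit 7) (nat_lit 13))
    (@En.n l11 (nat_lit 4435) (nat_lit 7) (nat_lit 3))
    (@En.n l21793 (nat_lit 4443) (nat_lit 8) (nat_lit 6))
    (@En.n l55 (nat_lit 4434) (nat_lit 10) (nat_lit 12))
    (@En.n l1329 (nat_lit 3825) (nat_lit 11) (nat_lit 13))
    (@En.i (nat_lit 7903) (nat_lit 12) (nat_lit 9))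
    (@En.n l1329 (nat_lit 4403) (nat_lit 12) (nat_lit 4))
    (@En.i (nat_lit 2328) (nat_lit 14) (nat_lit 5))
    (@En.i (nat_lit 4297) (nat_lit 1) (nat_lit 10))
    (@En.n l18 (nat_lit 4436) (nat_lit 15) (nat_lit 2))))
  (@Cl.mk (nat_lit 0x2000b000a00060005000a0005000d0006000d000300060003000a000e000b) (nat_lit 0x30040408000008) (nat_lit 16) Lb.e (@T16.mk En
    (@En.n l37369 (nat_lit 4431) (nat_lit 11) (nat_lit 11))
    (@En.i (nat_lit 6688) (nat_lit 1) (nat_lit 14))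
    (@En.i (nat_lit 11499) (nat_lit 2) (nat_lit 10))
    (@En.i (nat_lit 2416) (nat_lit 3) (nat_lit 3))
    (@En.n l6788 (nat_lit 5725) (nat_lit 12) (nat_lit 6))
    (@En.n l6785 (nat_lit 4438) (nat_lit 5) (nat_lit 3))
    (@En.n l18041 (nat_lit 3696) (nat_lit 0) (nat_lit 13))
    (@En.i (nat_lit 4442) (nat_lit 7) (nat_lit 6))
    (@En.n l21838 (nat_lit 4439) (nat_lit 9) (nat_lit 13))
    (@En.n l27100 (nat_lit 4356) (nat_lit 9) (nat_lit 5))
    (@En.n l1738 (nat_lit 9535) (nat_lit 11) (nat_lit 10))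
    (@En.n l20615 (nat_lit 6984) (nat_lit 11) (nat_lit 5))
    (@En.n l37652 (nat_lit 9741) (nat_lit 13) (nat_lit 6))
    (@En.n l619 (nat_lit 4436) (nat_lit 14) (nat_lit 10))
    (@En.i (nat_lit 10441) (nat_lit 9) (nat_lit 11))
    (@En.n l18 (nat_lit 4437) (nat_lit 15) (nat_lit 2))))
  (@Cl.mk (nat_lit 0x2000b000900060005000a0005000d000c0007000300060004000a000e000b) (nat_lit 0x10040410000002) (nat_lit 16) Lb.e (@T16.mk En
    (@En.n l644 (nat_lit 4433) (nat_lit 11) (nat_lit 11))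
    (@En.n l8237 (nat_lit 5397) (nat_lit 1) (nat_lit 14))
    (@En.n l21947 (nat_lit 10965) (nat_lit 2) (nat_lit 10))
    (@En.i (nat_lit 2414) (nat_lit 3) (nat_lit 4))
    (@En.i (nat_lit 4443) (nat_lit 4) (nat_lit 6))
    (@En.n l7808 (nat_lit 4437) (nat_lit 5) (nat_lit 3))
    (@En.n l97 (nat_lit 1701) (nat_lit 0) (nat_lit 7))
    (@En.n l16851 (nat_lit 2416) (nat_lit 8) (nat_lit 12))
    (@En.n l21948 (nat_lit 4440) (nat_lit 9) (nat_lit 13))
    (@En.n l15710 (nat_lit 4357) (nat_lit 9) (nat_lit 5))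
    (@En.n l541 (nat_lit 9533) (nat_lit 11) (nat_lit 10))
    (@En.n l14511 (nat_lit 6990) (nat_lit 11) (nat_lit 5))
    (@En.i (nat_lit 9740) (nat_lit 13) (nat_lit 6))
    (@En.n l21949 (nat_lit 888) (nat_lit 14) (nat_lit 9))
    (@En.n l11391 (nat_lit 10440) (nat_lit 9) (nat_lit 11))
    (@En.n l7 (nat_lit 4438) (nat_lit 15) (nat_lit 2))))
  (@Cl.mk (nat_lit 0x20007000b00060005000a000d0005000c0003000900060004000a000e000b) (nat_lit 0x20043010500082) (nat_lit 16) Lb.e (@T16.mk En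
    (@En.n l17634 (nat_lit 6355) (nat_lit 10) (nat_lit 11))
    (@En.n l31862 (nat_lit 5398) (nat_lit 1) (nat_lit 14))
    (@En.n l31863 (nat_lit 11497) (nat_lit 2) (nat_lit 10))
    (@En.n l31864 (nat_lit 6767) (nat_lit 3) (nat_lit 4))
    (@En.n l31865 (nat_lit 4437) (nat_lit 4) (nat_lit 6))
    (@En.n l1769 (nat_lit 5300) (nat_lit 5) (nat_lit 9))
    (@En.n l22193 (nat_lit 4440) (nat_lit 6) (nat_lit 3))
    (@En.n l1867 (nat_lit 3033) (nat_lit 0) (nat_lit 12))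
    (@En.n l31866 (nat_lit 4441) (nat_lit 8) (nat_lit 5))
    (@En.n l2498 (nat_lit 8159) (nat_lit 5) (nat_lit 13))
    (@En.n l31865 (nat_lit 9534) (nat_lit 11) (nat_lit 10))
    (@En.n l2498 (nat_lit 6985) (nat_lit 11) (nat_lit 5))
    (@En.n l31867 (nat_lit 9745) (nat_lit 13) (nat_lit 6))
    (@En.n l31868 (nat_lit 4434) (nat_lit 14) (nat_lit 11))
    (@En.n l17666 (nat_lit 9951) (nat_lit 7) (nat_lit 7))
    (@En.n l17 (nat_lit 4439) (nat_lit 15) (nat_lit 2))))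
  (@Cl.mk (nat_lit 0x20007000a00060005000a000d000b00060003000900060005000a000e000b) (nat_lit 0x40043700500222) (nat_lit 16) Lb.e (@T16.mk En
    (@En.n l15182 (nat_lit 6354) (nat_lit 10) (nat_lit 11))
    (@En.n l3361 (nat_lit 5390) (nat_lit 1) (nat_lit 14))
    (@En.i (nat_lit 11496) (nat_lit 2) (nat_lit 10))
    (@En.n l35714 (nat_lit 6768) (nat_lit 3) (nat_lit 5))
    (@En.n l21568 (nat_lit 4438) (nat_lit 4) (nat_lit 6))
    (@En.n l35715 (nat_lit 4441) (nat_lit 5) (nat_lit 9))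
    (@En.n l22648 (nat_lit 4439) (nat_lit 6) (nat_lit 3))
    (@En.n l6899 (nat_lit 1702) (nat_lit 7) (nat_lit 6))
    (@En.n l9395 (nat_lit 6763) (nat_lit 9) (nat_lit 11))
    (@En.i (nat_lit 8158) (nat_lit 5) (nat_lit 13))
    (@En.n l35716 (nat_lit 9532) (nat_lit 11) (nat_lit 10))
    (@En.n l35714 (nat_lit 6991) (nat_lit 11) (nat_lit 5))
    (@En.n l35717 (nat_lit 9737) (nat_lit 13) (nat_lit 6))
    (@En.i (nat_lit 2657) (nat_lit 8) (nat_lit 10))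
    (@En.n l1203 (nat_lit 9952) (nat_lit 7) (nat_lit 7))
    (@En.n l3 (nat_lit 4440) (nat_lit 15) (nat_lit 2))))
  (@Cl.mk (nat_lit 0x20007000b000a00070006000b0005000c00060009000500040009000e000a) (nat_lit 0x15005080400070) (nat_lit 16) Lb.e (@T16.mk En
    (@En.n l32093 (nat_lit 6353) (nat_lit 13) (nat_lit 10))
    (@En.n l23336 (nat_lit 5389) (nat_lit 1) (nat_lit 14))
    (@En.n l41898 (nat_lit 11495) (nat_lit 2) (nat_lit 9))
    (@En.n l50 (nat_lit 6568) (nat_lit 3) (nat_lit 4))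
    (@En.n l42164 (nat_lit 4442) (nat_lit 4) (nat_lit 5))
    (@En.n l27195 (nat_lit 6980) (nat_lit 5) (nat_lit 9))
    (@En.n l20731 (nat_lit 1694) (nat_lit 6) (nat_lit 6))
    (@En.n l3273 (nat_lit 6575) (nat_lit 8) (nat_lit 12))
    (@En.n l42165 (nat_lit 7188) (nat_lit 8) (nat_lit 5))
    (@En.n l42166 (nat_lit 6863) (nat_lit 10) (nat_lit 11))
    (@En.n l3866 (nat_lit 7279) (nat_lit 10) (nat_lit 6))
    (@En.n l23331 (nat_lit 9736) (nat_lit 12) (nat_lit 7))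
    (@En.n l29057 (nat_lit 4440) (nat_lit 13) (nat_lit 10))
    (@En.n l23331 (nat_lit 4438) (nat_lit 14) (nat_lit 11))
    (@En.i (nat_lit 9955) (nat_lit 13) (nat_lit 7))
    (@En.n l67 (nat_lit 4441) (nat_lit 15) (nat_lit 2))))
  (@Cl.mk (nat_lit 0x2000a000a000900070006000b00060006000d0007000500030009000e000a) (nat_lit 0x2005000000000) (nat_lit 16) Lb.e (@T16.mk En
    (@En.n l20609 (nat_lit 5916) (nat_lit 13) (nat_lit 10))
    (@En.i (nat_lit 6690) (nat_lit 1) (nat_lit 14))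
    (@En.n l14256 (nat_lit 11192) (nat_lit 2) (nat_lit 9))
    (@En.n l30271 (nat_lit 6565) (nat_lit 3) (nat_lit 3))
    (@En.n l26227 (nat_lit 5010) (nat_lit 4) (nat_lit 5))
    (@En.i (nat_lit 1691) (nat_lit 5) (nat_lit 7))
    (@En.n l41280 (nat_lit 6574) (nat_lit 7) (nat_lit 13))
    (@En.n l41281 (nat_lit 6562) (nat_lit 10) (nat_lit 6))
    (@En.n l18752 (nat_lit 4358) (nat_lit 8) (nat_lit 6))
    (@En.n l1738 (nat_lit 6861) (nat_lit 10) (nat_lit 11))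
    (@En.n l20615 (nat_lit 3056) (nat_lit 10) (nat_lit 6))
    (@En.n l18752 (nat_lit 9107) (nat_lit 12) (nat_lit 7))
    (@En.n l17005 (nat_lit 4438) (nat_lit 13) (nat_lit 9))
    (@En.n l41282 (nat_lit 4443) (nat_lit 14) (nat_lit 10))
    (@En.i (nat_lit 10720) (nat_lit 11) (nat_lit 10))
    (@En.n l18 (nat_lit 4442) (nat_lit 15) (nat_lit 2))))
  (@Cl.mk (nat_lit 0x2000a000800060005000a000e00060002000d000800060003000a000e000b) (nat_lit 0x810048000200000) (nat_lit 16) Lb.e (@T16.mk En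
    (@En.n l644 (nat_lit 6287) (nat_lit 9) (nat_lit 11))
    (@En.n l37553 (nat_lit 6694) (nat_lit 10) (nat_lit 14))
    (@En.n l37554 (nat_lit 11190) (nat_lit 11) (nat_lit 10))
    (@En.n l152 (nat_lit 7682) (nat_lit 3) (nat_lit 3))
    (@En.n l21920 (nat_lit 5009) (nat_lit 4) (nat_lit 6))
    (@En.n l97 (nat_lit 1562) (nat_lit 14) (nat_lit 8))
    (@En.n l16851 (nat_lit 4444) (nat_lit 7) (nat_lit 13))
    (@En.n l17 (nat_lit 4443) (nat_lit 7) (nat_lit 2))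
    (@En.n l37555 (nat_lit 4442) (nat_lit 8) (nat_lit 6))
    (@En.i (nat_lit 4092) (nat_lit 10) (nat_lit 14))
    (@En.n l37556 (nat_lit 7948) (nat_lit 11) (nat_lit 10))
    (@En.n l3208 (nat_lit 7305) (nat_lit 3) (nat_lit 5))
    (@En.i (nat_lit 7688) (nat_lit 13) (nat_lit 6))
    (@En.n l37554 (nat_lit 889) (nat_lit 14) (nat_lit 8))
    (@En.n l37557 (nat_lit 10916) (nat_lit 11) (nat_lit 10))
    (@En.n l7 (nat_lit 4443) (nat_lit 15) (nat_lit 2))))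
  (@Cl.mk (nat_lit 0x2000a000900060005000b000a0006000d0007000500030006000a000e000b) (nat_lit 0x100950b0000032) (nat_lit 16) Lb.e (@T16.mk En
    (@En.n l41069 (nat_lit 6296) (nat_lit 12) (nat_lit 11))
    (@En.i (nat_lit 6773) (nat_lit 1) (nat_lit 14))
    (@En.n l35142 (nat_lit 11037) (nat_lit 2) (nat_lit 10))
    (@En.n l41070 (nat_lit 5724) (nat_lit 12) (nat_lit 6))
    (@En.n l41071 (nat_lit 4445) (nat_lit 4) (nat_lit 3))
    (@En.n l41072 (nat_lit 7459) (nat_lit 0) (nat_lit 5))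
    (@En.i (nat_lit 6566) (nat_lit 6) (nat_lit 7))
    (@En.n l41073 (nat_lit 4446) (nat_lit 8) (nat_lit 13))
    (@En.n l9339 (nat_lit 6574) (nat_lit 8) (nat_lit 6))
    (@En.i (nat_lit 4437) (nat_lit 10) (nat_lit 10))
    (@En.n l24522 (nat_lit 7471) (nat_lit 11) (nat_lit 11))
    (@En.n l20615 (nat_lit 7226) (nat_lit 11) (nat_lit 5))
    (@En.n l41074 (nat_lit 10527) (nat_lit 13) (nat_lit 6))
    (@En.n l41070 (nat_lit 890) (nat_lit 14) (nat_lit 9))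
    (@En.i (nat_lit 10402) (nat_lit 10) (nat_lit 10))
    (@En.n l18 (nat_lit 4444) (nat_lit 15) (nat_lit 2))))
  (@Cl.mk (nat_lit 0x2000a000800060005000c000a0006000d0004000800030006000a000e000b) (nat_lit 0x10095000100000) (nat_lit 16) Lb.e (@T16.mk En
    (@En.n l19951 (nat_lit 6292) (nat_lit 12) (nat_lit 11))
    (@En.n l18648 (nat_lit 6772) (nat_lit 1) (nat_lit 14))
    (@En.n l29621 (nat_lit 11040) (nat_lit 2) (nat_lit 10))
    (@En.n l9072 (nat_lit 7683) (nat_lit 12) (nat_lit 6))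
    (@En.n l29622 (nat_lit 4444) (nat_lit 4) (nat_lit 3))
    (@En.n l1724 (nat_lit 417) (nat_lit 0) (nat_lit 8))
    (@En.n l6193 (nat_lit 2408) (nat_lit 6) (nat_lit 4))
    (@En.n l18 (nat_lit 4447) (nat_lit 8) (nat_lit 13))
    (@En.n l6393 (nat_lit 6572) (nat_lit 8) (nat_lit 6))
    (@En.n l29623 (nat_lit 4438) (nat_lit 10) (nat_lit 10))
    (@En.n l12295 (nat_lit 9300) (nat_lit 11) (nat_lit 12))
    (@En.n l6393 (nat_lit 7231) (nat_lit 11) (nat_lit 5))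
    (@En.n l29623 (nat_lit 10526) (nat_lit 13) (nat_lit 6))
    (@En.n l2179 (nat_lit 886) (nat_lit 14) (nat_lit 8))
    (@En.n l21151 (nat_lit 10401) (nat_lit 10) (nat_lit 10))
    (@En.n l3 (nat_lit 4445) (nat_lit 15) (nat_lit 2))))
  (@Cl.mk (nat_lit 0x20006000a00060005000c000a000d000600040003000a0006000a000e000b) (nat_lit 0x10095a00060050) (nat_lit 16) Lb.e (@T16.mk En
    (@En.n l15182 (nat_lit 6297) (nat_lit 11) (nat_lit 11))
    (@En.n l7827 (nat_lit 6740) (nat_lit 1) (nat_lit 14))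
    (@En.n l1329 (nat_lit 11930) (nat_lit 2) (nat_lit 10))
    (@En.n l31490 (nat_lit 4444) (nat_lit 3) (nat_lit 6))
    (@En.n l30897 (nat_lit 5296) (nat_lit 4) (nat_lit 10))
    (@En.n l1722 (nat_lit 4447) (nat_lit 5) (nat_lit 3))
    (@En.n l1386 (nat_lit 7461) (nat_lit 6) (nat_lit 4))
    (@En.n l2593 (nat_lit 6567) (nat_lit 7) (nat_lit 6))
    (@En.n l10505 (nat_lit 4814) (nat_lit 9) (nat_lit 13))
    (@En.n l17883 (nat_lit 4439) (nat_lit 10) (nat_lit 10))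
    (@En.n l6203 (nat_lit 7470) (nat_lit 11) (nat_lit 12))
    (@En.n l10505 (nat_lit 7222) (nat_lit 11) (nat_lit 5))
    (@En.n l2369 (nat_lit 10525) (nat_lit 13) (nat_lit 6))
    (@En.i (nat_lit 2321) (nat_lit 14) (nat_lit 10))
    (@En.n l22762 (nat_lit 10426) (nat_lit 8) (nat_lit 6))
    (@En.n l3 (nat_lit 4446) (nat_lit 15) (nat_lit 2))))
  (@Cl.mk (nat_lit 0x20006000900060005000d000a000d000300070003000a0006000a000e000b) (nat_lit 0x50095b00060100) (nat_lit 16) Lb.e (@T16.mk En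
    (@En.n l2213 (nat_lit 6298) (nat_lit 9) (nat_lit 11))
    (@En.i (nat_lit 6738) (nat_lit 1) (nat_lit 14))
    (@En.n l3340 (nat_lit 4181) (nat_lit 2) (nat_lit 10))
    (@En.i (nat_lit 4445) (nat_lit 3) (nat_lit 6))
    (@En.i (nat_lit 6567) (nat_lit 4) (nat_lit 10))
    (@En.n l564 (nat_lit 4446) (nat_lit 5) (nat_lit 3))
    (@En.i (nat_lit 418) (nat_lit 6) (nat_lit 7))
    (@En.n l6193 (nat_lit 6768) (nat_lit 7) (nat_lit 3))
    (@En.n l2571 (nat_lit 4813) (nat_lit 0) (nat_lit 13))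
    (@En.n l287 (nat_lit 4440) (nat_lit 10) (nat_lit 10))
    (@En.i (nat_lit 8824) (nat_lit 11) (nat_lit 13))
    (@En.n l11610 (nat_lit 7225) (nat_lit 11) (nat_lit 5))
    (@En.n l3178 (nat_lit 10524) (nat_lit 13) (nat_lit 6))
    (@En.i (nat_lit 2320) (nat_lit 9) (nat_lit 9))
    (@En.n l3340 (nat_lit 6225) (nat_lit 6) (nat_lit 6))
    (@En.n l3 (nat_lit 4447) (nat_lit 15) (nat_lit 2))))
noncomputable def a278 : T16 Cl := @T16.mk Cl
  (@Cl.mk (nat_lit 0x2000c0007000b000700040007000d0005000d0003000900030009000e0009) (nat_lit 0x105000a020306a1) (nat_lit 16) Lb.e (@T16.mk En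
    (@En.n l10338 (nat_lit 2882) (nat_lit 11) (nat_lit 9))
    (@En.n l11 (nat_lit 4591) (nat_lit 1) (nat_lit 14))
    (@En.n l11810 (nat_lit 5288) (nat_lit 2) (nat_lit 9))
    (@En.n l11698 (nat_lit 2851) (nat_lit 3) (nat_lit 3))
    (@En.n l22183 (nat_lit 5223) (nat_lit 0) (nat_lit 9))
    (@En.i (nat_lit 2849) (nat_lit 5) (nat_lit 3))
    (@En.n l3713 (nat_lit 2449) (nat_lit 0) (nat_lit 13))
    (@En.i (nat_lit 2845) (nat_lit 7) (nat_lit 5))
    (@En.n l1638 (nat_lit 11890) (nat_lit 9) (nat_lit 13))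
    (@En.n l159 (nat_lit 4354) (nat_lit 11) (nat_lit 7))
    (@En.i (nat_lit 2615) (nat_lit 10) (nat_lit 4))
    (@En.n l13205 (nat_lit 4450) (nat_lit 12) (nat_lit 7))
    (@En.n l6904 (nat_lit 2272) (nat_lit 13) (nat_lit 11))
    (@En.n l2611 (nat_lit 9081) (nat_lit 14) (nat_lit 7))
    (@En.n l10206 (nat_lit 2882) (nat_lit 9) (nat_lit 12))
    (@En.n l3 (nat_lit 4448) (nat_lit 15) (nat_lit 2))))
  (@Cl.mk (nat_lit 0x300060006000d000a000d000300090003000a0006000a000a000d00070006) (nat_lit 0x8520703000600) (nat_lit 16) Lb.e (@T16.mk En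
    (@En.n l18 (nat_lit 2745) (nat_lit 0) (nat_lit 6))
    (@En.n l6081 (nat_lit 9656) (nat_lit 7) (nat_lit 7))
    (@En.n l3 (nat_lit 6735) (nat_lit 5) (nat_lit 13))
    (@En.n l527 (nat_lit 6735) (nat_lit 6) (nat_lit 10))
    (@En.i (nat_lit 9755) (nat_lit 4) (nat_lit 10))
    (@En.n l61 (nat_lit 4451) (nat_lit 5) (nat_lit 6))
    (@En.i (nat_lit 5111) (nat_lit 13) (nat_lit 10))
    (@En.i (nat_lit 4455) (nat_lit 7) (nat_lit 3))
    (@En.i (nat_lit 7180) (nat_lit 0) (nat_lit 9))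
    (@En.i (nat_lit 6734) (nat_lit 9) (nat_lit 3))
    (@En.n l14555 (nat_lit 2105) (nat_lit 0) (nat_lit 13))
    (@En.i (nat_lit 5396) (nat_lit 12) (nat_lit 10))
    (@En.n l23504 (nat_lit 9076) (nat_lit 13) (nat_lit 13))
    (@En.n l37662 (nat_lit 4450) (nat_lit 10) (nat_lit 6))
    (@En.n l20187 (nat_lit 6189) (nat_lit 12) (nat_lit 6))
    (@En.n l13686 (nat_lit 6729) (nat_lit 15) (nat_lit 3))))
  (@Cl.mk (nat_lit 0x2000d0008000700030006000d000a000d00030008000300090006000e000a) (nat_lit 0x75000a320300001) (nat_lit 16) Lb.e (@T16.mk En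
    (@En.n l24873 (nat_lit 4449) (nat_lit 4) (nat_lit 10))
    (@En.i (nat_lit 9034) (nat_lit 1) (nat_lit 14))
    (@En.n l7826 (nat_lit 4452) (nat_lit 2) (nat_lit 6))
    (@En.n l24874 (nat_lit 5115) (nat_lit 3) (nat_lit 9))
    (@En.n l19563 (nat_lit 4453) (nat_lit 4) (nat_lit 3))
    (@En.n l14716 (nat_lit 7182) (nat_lit 0) (nat_lit 8))
    (@En.n l24875 (nat_lit 6736) (nat_lit 6) (nat_lit 3))
    (@En.n l2790 (nat_lit 4868) (nat_lit 0) (nat_lit 13))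
    (@En.n l3380 (nat_lit 5972) (nat_lit 9) (nat_lit 10))
    (@En.n l24876 (nat_lit 9045) (nat_lit 10) (nat_lit 13))
    (@En.n l9595 (nat_lit 6186) (nat_lit 12) (nat_lit 6))
    (@En.n l13712 (nat_lit 6738) (nat_lit 11) (nat_lit 3))
    (@En.i (nat_lit 2742) (nat_lit 0) (nat_lit 7))
    (@En.n l17180 (nat_lit 9867) (nat_lit 14) (nat_lit 8))
    (@En.n l24877 (nat_lit 4449) (nat_lit 2) (nat_lit 13))
    (@En.n l3 (nat_lit 4450) (nat_lit 15) (nat_lit 2))))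
  (@Cl.mk (nat_lit 0x300060006000c000a0006000d0004000a00030006000a000a000d0006000a) (nat_lit 0x9403040000504) (nat_lit 16) Lb.e (@T16.mk En
    (@En.n l23515 (nat_lit 2816) (nat_lit 0) (nat_lit 10))
    (@En.n l29960 (nat_lit 9381) (nat_lit 11) (nat_lit 6))
    (@En.n l3 (nat_lit 4460) (nat_lit 5) (nat_lit 13))
    (@En.n l527 (nat_lit 4460) (nat_lit 6) (nat_lit 10))
    (@En.i (nat_lit 10821) (nat_lit 4) (nat_lit 10))
    (@En.n l28503 (nat_lit 6606) (nat_lit 12) (nat_lit 6))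
    (@En.n l29961 (nat_lit 4456) (nat_lit 6) (nat_lit 3))
    (@En.n l1722 (nat_lit 7179) (nat_lit 0) (nat_lit 10))
    (@En.n l23515 (nat_lit 6714) (nat_lit 8) (nat_lit 4))
    (@En.n l617 (nat_lit 4449) (nat_lit 10) (nat_lit 13))
    (@En.n l3480 (nat_lit 2882) (nat_lit 1) (nat_lit 6))
    (@En.n l28503 (nat_lit 5971) (nat_lit 4) (nat_lit 10))
    (@En.n l15957 (nat_lit 9074) (nat_lit 13) (nat_lit 12))
    (@En.n l29962 (nat_lit 4452) (nat_lit 10) (nat_lit 6))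
    (@En.n l29703 (nat_lit 6192) (nat_lit 12) (nat_lit 6))
    (@En.n l29963 (nat_lit 6617) (nat_lit 15) (nat_lit 3))))
  (@Cl.mk (nat_lit 0x2000d0007000b00030006000c000a0005000d0004000900030006000e000a) (nat_lit 0x603008403070001) (nat_lit 16) Lb.e (@T16.mk En
    (@En.n l18878 (nat_lit 4451) (nat_lit 4) (nat_lit 10))
    (@En.n l18879 (nat_lit 11588) (nat_lit 1) (nat_lit 14))
    (@En.n l538 (nat_lit 6955) (nat_lit 12) (nat_lit 6))
    (@En.n l7 (nat_lit 4454) (nat_lit 3) (nat_lit 3))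
    (@En.n l18880 (nat_lit 7183) (nat_lit 0) (nat_lit 9))
    (@En.i (nat_lit 6775) (nat_lit 5) (nat_lit 4))
    (@En.n l9311 (nat_lit 4450) (nat_lit 7) (nat_lit 13))
    (@En.n l4730 (nat_lit 4448) (nat_lit 7) (nat_lit 5))
    (@En.n l538 (nat_lit 5970) (nat_lit 9) (nat_lit 10))
    (@En.n l1501 (nat_lit 9043) (nat_lit 10) (nat_lit 12))
    (@En.n l18881 (nat_lit 6188) (nat_lit 12) (nat_lit 6))
    (@En.n l12597 (nat_lit 6772) (nat_lit 11) (nat_lit 3))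
    (@En.i (nat_lit 2821) (nat_lit 0) (nat_lit 11))
    (@En.n l3850 (nat_lit 9385) (nat_lit 14) (nat_lit 7))
    (@En.n l18882 (nat_lit 4451) (nat_lit 2) (nat_lit 13))
    (@En.n l18 (nat_lit 4452) (nat_lit 15) (nat_lit 2))))
  (@Cl.mk (nat_lit 0x2000d0009000700030006000c000a000d00070004000300090006000e000a) (nat_lit 0x70000320000040) (nat_lit 16) Lb.e (@T16.mk En
    (@En.n l32231 (nat_lit 4455) (nat_lit 4) (nat_lit 10))
    (@En.n l31930 (nat_lit 9038) (nat_lit 1) (nat_lit 14))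
    (@En.n l11 (nat_lit 4454) (nat_lit 2) (nat_lit 6))
    (@En.n l55 (nat_lit 4457) (nat_lit 3) (nat_lit 9))
    (@En.n l9311 (nat_lit 4450) (nat_lit 4) (nat_lit 3))
    (@En.n l32232 (nat_lit 6788) (nat_lit 0) (nat_lit 4))
    (@En.n l32233 (nat_lit 6809) (nat_lit 6) (nat_lit 7))
    (@En.n l29354 (nat_lit 2104) (nat_lit 8) (nat_lit 13))
    (@En.n l2593 (nat_lit 5966) (nat_lit 9) (nat_lit 10))
    (@En.n l2568 (nat_lit 9061) (nat_lit 10) (nat_lit 12))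
    (@En.n l29354 (nat_lit 6187) (nat_lit 12) (nat_lit 6))
    (@En.n l12597 (nat_lit 6740) (nat_lit 11) (nat_lit 3))
    (@En.n l32234 (nat_lit 2743) (nat_lit 0) (nat_lit 7))
    (@En.n l32235 (nat_lit 9506) (nat_lit 14) (nat_lit 9))
    (@En.n l31925 (nat_lit 4455) (nat_lit 2) (nat_lit 13))
    (@En.n l18 (nat_lit 4453) (nat_lit 15) (nat_lit 2))))
  (@Cl.mk (nat_lit 0x2000d0008000b00030006000b000a0005000d0008000500030006000e000a) (nat_lit 0x53000303200030) (nat_lit 16) Lb.e (@T16.mk En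
    (@En.n l5 (nat_lit 4456) (nat_lit 4) (nat_lit 10))
    (@En.n l5891 (nat_lit 11589) (nat_lit 1) (nat_lit 14))
    (@En.i (nat_lit 4976) (nat_lit 12) (nat_lit 6))
    (@En.i (nat_lit 4452) (nat_lit 3) (nat_lit 3))
    (@En.n l1253 (nat_lit 6787) (nat_lit 0) (nat_lit 5))
    (@En.i (nat_lit 4457) (nat_lit 5) (nat_lit 8))
    (@En.i (nat_lit 4453) (nat_lit 7) (nat_lit 13))
    (@En.n l117 (nat_lit 2851) (nat_lit 7) (nat_lit 5))
    (@En.n l2593 (nat_lit 5968) (nat_lit 9) (nat_lit 10))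
    (@En.n l2568 (nat_lit 9060) (nat_lit 10) (nat_lit 11))
    (@En.i (nat_lit 6183) (nat_lit 12) (nat_lit 6))
    (@En.n l12597 (nat_lit 6773) (nat_lit 11) (nat_lit 3))
    (@En.i (nat_lit 2822) (nat_lit 0) (nat_lit 11))
    (@En.n l5377 (nat_lit 9507) (nat_lit 14) (nat_lit 8))
    (@En.i (nat_lit 4456) (nat_lit 2) (nat_lit 13))
    (@En.n l18 (nat_lit 4454) (nat_lit 15) (nat_lit 2))))
  (@Cl.mk (nat_lit 0x300060006000c000a000d000800040003000a0006000a000a000d00080006) (nat_lit 0x8423000080b60) (nat_lit 16) Lb.e (@T16.mk En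
    (@En.n l18 (nat_lit 2746) (nat_lit 0) (nat_lit 6))
    (@En.n l6081 (nat_lit 9421) (nat_lit 10) (nat_lit 8))
    (@En.n l3 (nat_lit 4461) (nat_lit 5) (nat_lit 13))
    (@En.n l527 (nat_lit 4461) (nat_lit 6) (nat_lit 10))
    (@En.i (nat_lit 9402) (nat_lit 4) (nat_lit 10))
    (@En.n l28399 (nat_lit 4456) (nat_lit 5) (nat_lit 6))
    (@En.n l32269 (nat_lit 4458) (nat_lit 7) (nat_lit 10))
    (@En.n l7 (nat_lit 4449) (nat_lit 7) (nat_lit 3))
    (@En.n l10891 (nat_lit 3466) (nat_lit 0) (nat_lit 4))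
    (@En.i (nat_lit 6805) (nat_lit 0) (nat_lit 8))
    (@En.n l14724 (nat_lit 2100) (nat_lit 5) (nat_lit 13))
    (@En.n l16610 (nat_lit 5967) (nat_lit 12) (nat_lit 10))
    (@En.n l17524 (nat_lit 9066) (nat_lit 13) (nat_lit 12))
    (@En.n l32270 (nat_lit 4453) (nat_lit 10) (nat_lit 6))
    (@En.n l20187 (nat_lit 6191) (nat_lit 12) (nat_lit 6))
    (@En.n l13686 (nat_lit 6686) (nat_lit 15) (nat_lit 3))))
  (@Cl.mk (nat_lit 0x300060006000b000a0006000d0009000500030006000a000a000d0007000a) (nat_lit 0x8503200080b03) (nat_lit 16) Lb.e (@T16.mk En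
    (@En.i (nat_lit 2820) (nat_lit 0) (nat_lit 10))
    (@En.n l37488 (nat_lit 9420) (nat_lit 11) (nat_lit 7))
    (@En.n l31604 (nat_lit 4459) (nat_lit 5) (nat_lit 13))
    (@En.n l42074 (nat_lit 4459) (nat_lit 6) (nat_lit 10))
    (@En.n l33229 (nat_lit 10819) (nat_lit 4) (nat_lit 10))
    (@En.i (nat_lit 4972) (nat_lit 12) (nat_lit 6))
    (@En.n l18882 (nat_lit 4451) (nat_lit 6) (nat_lit 3))
    (@En.n l1253 (nat_lit 3465) (nat_lit 0) (nat_lit 5))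
    (@En.i (nat_lit 4458) (nat_lit 9) (nat_lit 9))
    (@En.n l31925 (nat_lit 4455) (nat_lit 10) (nat_lit 13))
    (@En.n l117 (nat_lit 2880) (nat_lit 3) (nat_lit 6))
    (@En.n l2593 (nat_lit 5969) (nat_lit 4) (nat_lit 10))
    (@En.n l2568 (nat_lit 9065) (nat_lit 13) (nat_lit 11))
    (@En.n l17 (nat_lit 4454) (nat_lit 10) (nat_lit 6))
    (@En.n l15068 (nat_lit 6193) (nat_lit 12) (nat_lit 6))
    (@En.n l12597 (nat_lit 6684) (nat_lit 15) (nat_lit 3))))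
  (@Cl.mk (nat_lit 0x2000c00080007000b00040007000c000b00050008000400090005000e0009) (nat_lit 0x50400060107030) (nat_lit 16) Lb.e (@T16.mk En
    (@En.n l5 (nat_lit 4458) (nat_lit 5) (nat_lit 9))
    (@En.n l2068 (nat_lit 11590) (nat_lit 1) (nat_lit 14))
    (@En.n l2678 (nat_lit 4921) (nat_lit 2) (nat_lit 5))
    (@En.n l14831 (nat_lit 5354) (nat_lit 3) (nat_lit 9))
    (@En.n l25448 (nat_lit 6789) (nat_lit 4) (nat_lit 4))
    (@En.n l25745 (nat_lit 1919) (nat_lit 10) (nat_lit 8))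
    (@En.n l25746 (nat_lit 2847) (nat_lit 6) (nat_lit 5))
    (@En.n l2593 (nat_lit 5963) (nat_lit 8) (nat_lit 11))
    (@En.n l2568 (nat_lit 9064) (nat_lit 9) (nat_lit 12))
    (@En.n l14831 (nat_lit 6195) (nat_lit 11) (nat_lit 7))
    (@En.n l12597 (nat_lit 6696) (nat_lit 10) (nat_lit 4))
    (@En.n l28 (nat_lit 4454) (nat_lit 12) (nat_lit 11))
    (@En.n l77 (nat_lit 4452) (nat_lit 13) (nat_lit 7))
    (@En.n l25747 (nat_lit 9508) (nat_lit 14) (nat_lit 8))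
    (@En.i (nat_lit 4458) (nat_lit 3) (nat_lit 12))
    (@En.n l18 (nat_lit 4457) (nat_lit 15) (nat_lit 2))))
  (@Cl.mk (nat_lit 0x400070007000c000b000600090004000a000500090009000c00070006000a) (nat_lit 0x970108070a004) (nat_lit 16) Lb.e (@T16.mk En
    (@En.n l28 (nat_lit 4456) (nat_lit 0) (nat_lit 10))
    (@En.n l33229 (nat_lit 4451) (nat_lit 1) (nat_lit 6))
    (@En.n l40009 (nat_lit 9319) (nat_lit 0) (nat_lit 7))
    (@En.n l40010 (nat_lit 6660) (nat_lit 6) (nat_lit 12))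
    (@En.n l40011 (nat_lit 6660) (nat_lit 7) (nat_lit 9))
    (@En.n l40012 (nat_lit 10832) (nat_lit 10) (nat_lit 9))
    (@En.n l2678 (nat_lit 4919) (nat_lit 6) (nat_lit 5))
    (@En.n l40013 (nat_lit 5353) (nat_lit 0) (nat_lit 10))
    (@En.n l40014 (nat_lit 6790) (nat_lit 8) (nat_lit 4))
    (@En.n l40015 (nat_lit 1920) (nat_lit 9) (nat_lit 9))
    (@En.n l31607 (nat_lit 2848) (nat_lit 1) (nat_lit 6))
    (@En.n l2593 (nat_lit 5964) (nat_lit 5) (nat_lit 11))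
    (@En.n l2568 (nat_lit 9783) (nat_lit 13) (nat_lit 12))
    (@En.n l17 (nat_lit 4457) (nat_lit 9) (nat_lit 7))
    (@En.n l15068 (nat_lit 6194) (nat_lit 11) (nat_lit 7))
    (@En.n l12597 (nat_lit 6611) (nat_lit 15) (nat_lit 4))))
  (@Cl.mk (nat_lit 0x2000b000a0007000d000a000500030006000a000d000600090003000e0006) (nat_lit 0x850320008a01000) (nat_lit 16) Lb.e (@T16.mk En
    (@En.n l29961 (nat_lit 4456) (nat_lit 14) (nat_lit 6))
    (@En.n l36190 (nat_lit 6662) (nat_lit 1) (nat_lit 14))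
    (@En.n l13700 (nat_lit 6683) (nat_lit 2) (nat_lit 3))
    (@En.n l32444 (nat_lit 2819) (nat_lit 9) (nat_lit 9))
    (@En.n l31875 (nat_lit 9418) (nat_lit 4) (nat_lit 6))
    (@En.i (nat_lit 13998) (nat_lit 5) (nat_lit 13))
    (@En.i (nat_lit 10818) (nat_lit 9) (nat_lit 10))
    (@En.n l36191 (nat_lit 4969) (nat_lit 7) (nat_lit 6))
    (@En.n l7 (nat_lit 4460) (nat_lit 8) (nat_lit 3))
    (@En.n l36192 (nat_lit 6884) (nat_lit 0) (nat_lit 5))
    (@En.n l644 (nat_lit 6660) (nat_lit 11) (nat_lit 10))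
    (@En.n l617 (nat_lit 4461) (nat_lit 12) (nat_lit 13))
    (@En.n l3480 (nat_lit 2881) (nat_lit 13) (nat_lit 7))
    (@En.n l36193 (nat_lit 5973) (nat_lit 14) (nat_lit 10))
    (@En.n l33689 (nat_lit 9651) (nat_lit 12) (nat_lit 11))
    (@En.n l107 (nat_lit 4459) (nat_lit 15) (nat_lit 2))))
  (@Cl.mk (nat_lit 0x2000c000a0007000d0004000b00030006000a000d000500090003000e0006) (nat_lit 0x960305008403060) (nat_lit 16) Lb.e (@T16.mk En
    (@En.i (nat_lit 4451) (nat_lit 14) (nat_lit 6))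
    (@En.n l97 (nat_lit 6664) (nat_lit 1) (nat_lit 14))
    (@En.n l6131 (nat_lit 6687) (nat_lit 2) (nat_lit 3))
    (@En.n l387 (nat_lit 2815) (nat_lit 3) (nat_lit 9))
    (@En.n l31875 (nat_lit 9382) (nat_lit 4) (nat_lit 5))
    (@En.i (nat_lit 13999) (nat_lit 5) (nat_lit 13))
    (@En.i (nat_lit 10820) (nat_lit 9) (nat_lit 10))
    (@En.i (nat_lit 6607) (nat_lit 12) (nat_lit 6))
    (@En.i (nat_lit 4459) (nat_lit 8) (nat_lit 3))
    (@En.n l1722 (nat_lit 7178) (nat_lit 0) (nat_lit 11))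
    (@En.i (nat_lit 6713) (nat_lit 10) (nat_lit 4))
    (@En.n l617 (nat_lit 6735) (nat_lit 12) (nat_lit 13))
    (@En.n l3480 (nat_lit 2883) (nat_lit 13) (nat_lit 7))
    (@En.i (nat_lit 6677) (nat_lit 14) (nat_lit 10))
    (@En.i (nat_lit 9070) (nat_lit 12) (nat_lit 12))
    (@En.n l107 (nat_lit 4460) (nat_lit 15) (nat_lit 2))))
  (@Cl.mk (nat_lit 0x2000c000a000d000900040003000b0006000a000d000700050003000e0006) (nat_lit 0x872300008a00000) (nat_lit 16) Lb.e (@T16.mk En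
    (@En.i (nat_lit 4455) (nat_lit 14) (nat_lit 6))
    (@En.n l97 (nat_lit 6663) (nat_lit 1) (nat_lit 14))
    (@En.n l2101 (nat_lit 6685) (nat_lit 2) (nat_lit 3))
    (@En.n l18 (nat_lit 3470) (nat_lit 3) (nat_lit 5))
    (@En.n l6081 (nat_lit 9419) (nat_lit 4) (nat_lit 7))
    (@En.i (nat_lit 14000) (nat_lit 5) (nat_lit 13))
    (@En.i (nat_lit 9400) (nat_lit 7) (nat_lit 10))
    (@En.n l61 (nat_lit 4459) (nat_lit 7) (nat_lit 6))
    (@En.n l564 (nat_lit 6660) (nat_lit 9) (nat_lit 11))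
    (@En.n l7 (nat_lit 6735) (nat_lit 9) (nat_lit 3))
    (@En.i (nat_lit 3467) (nat_lit 0) (nat_lit 4))
    (@En.i (nat_lit 6806) (nat_lit 12) (nat_lit 9))
    (@En.i (nat_lit 2102) (nat_lit 5) (nat_lit 13))
    (@En.i (nat_lit 6675) (nat_lit 14) (nat_lit 10))
    (@En.i (nat_lit 9653) (nat_lit 12) (nat_lit 12))
    (@En.n l107 (nat_lit 4461) (nat_lit 15) (nat_lit 2))))
  (@Cl.mk (nat_lit 0x20008000d0009000c0003000b000a0004000800070005000d0006000e0003) (nat_lit 0x611509701005030) (nat_lit 16) Lb.e (@T16.mk En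
    (@En.i (nat_lit 4199) (nat_lit 15) (nat_lit 3))
    (@En.n l476 (nat_lit 14015) (nat_lit 0) (nat_lit 14))
    (@En.n l7 (nat_lit 4469) (nat_lit 2) (nat_lit 6))
    (@En.n l4003 (nat_lit 4234) (nat_lit 9) (nat_lit 13))
    (@En.n l9882 (nat_lit 2942) (nat_lit 4) (nat_lit 5))
    (@En.n l527 (nat_lit 3046) (nat_lit 5) (nat_lit 7))
    (@En.n l1769 (nat_lit 3260) (nat_lit 6) (nat_lit 8))
    (@En.i (nat_lit 4207) (nat_lit 7) (nat_lit 4))
    (@En.n l644 (nat_lit 3337) (nat_lit 9) (nat_lit 10))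
    (@En.n l1140 (nat_lit 5522) (nat_lit 10) (nat_lit 11))
    (@En.i (nat_lit 4463) (nat_lit 10) (nat_lit 3))
    (@En.i (nat_lit 4887) (nat_lit 6) (nat_lit 12))
    (@En.i (nat_lit 4156) (nat_lit 13) (nat_lit 9))
    (@En.n l619 (nat_lit 3047) (nat_lit 14) (nat_lit 13))
    (@En.i (nat_lit 10313) (nat_lit 14) (nat_lit 8))
    (@En.n l17 (nat_lit 4462) (nat_lit 15) (nat_lit 2))))
  (@Cl.mk (nat_lit 0x20008000d000b000a0003000b000a0005000800060005000d0006000e0003) (nat_lit 0x69720970100b030) (nat_lit 16) Lb.e (@T16.mk En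
    (@En.n l24954 (nat_lit 1603) (nat_lit 15) (nat_lit 3))
    (@En.n l24987 (nat_lit 14014) (nat_lit 0) (nat_lit 14))
    (@En.n l24988 (nat_lit 4466) (nat_lit 2) (nat_lit 6))
    (@En.n l17159 (nat_lit 4229) (nat_lit 9) (nat_lit 13))
    (@En.n l24989 (nat_lit 2939) (nat_lit 4) (nat_lit 5))
    (@En.i (nat_lit 3035) (nat_lit 5) (nat_lit 6))
    (@En.n l1483 (nat_lit 3264) (nat_lit 6) (nat_lit 8))
    (@En.n l24990 (nat_lit 7278) (nat_lit 7) (nat_lit 5))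
    (@En.n l24939 (nat_lit 3336) (nat_lit 9) (nat_lit 10))
    (@En.n l9938 (nat_lit 7391) (nat_lit 10) (nat_lit 11))
    (@En.n l11 (nat_lit 4462) (nat_lit 10) (nat_lit 3))
    (@En.n l24991 (nat_lit 352) (nat_lit 12) (nat_lit 10))
    (@En.i (nat_lit 4464) (nat_lit 13) (nat_lit 11))
    (@En.n l24942 (nat_lit 4465) (nat_lit 14) (nat_lit 13))
    (@En.n l24992 (nat_lit 10311) (nat_lit 14) (nat_lit 8))
    (@En.n l17 (nat_lit 4463) (nat_lit 15) (nat_lit 2))))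
noncomputable def a279 : T16 Cl := @T16.mk Cl
  (@Cl.mk (nat_lit 0x20008000b0009000c000a000900050004000800070006000d0007000e0003) (nat_lit 0x66236600200b030) (nat_lit 16) Lb.e (@T16.mk En
    (@En.i (nat_lit 1604) (nat_lit 15) (nat_lit 3))
    (@En.n l4989 (nat_lit 14013) (nat_lit 0) (nat_lit 14))
    (@En.n l7 (nat_lit 4467) (nat_lit 2) (nat_lit 7))
    (@En.n l9928 (nat_lit 4230) (nat_lit 4) (nat_lit 13))
    (@En.n l9882 (nat_lit 2940) (nat_lit 4) (nat_lit 6))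
    (@En.n l3208 (nat_lit 4465) (nat_lit 5) (nat_lit 7))
    (@En.n l1157 (nat_lit 4463) (nat_lit 6) (nat_lit 8))
    (@En.i (nat_lit 4462) (nat_lit 7) (nat_lit 4))
    (@En.n l37965 (nat_lit 6995) (nat_lit 8) (nat_lit 5))
    (@En.n l4380 (nat_lit 3334) (nat_lit 10) (nat_lit 9))
    (@En.n l9938 (nat_lit 7372) (nat_lit 11) (nat_lit 10))
    (@En.n l9928 (nat_lit 3997) (nat_lit 6) (nat_lit 12))
    (@En.n l22283 (nat_lit 1057) (nat_lit 13) (nat_lit 9))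
    (@En.n l9928 (nat_lit 3316) (nat_lit 7) (nat_lit 11))
    (@En.n l21556 (nat_lit 10309) (nat_lit 14) (nat_lit 8))
    (@En.n l17 (nat_lit 4464) (nat_lit 15) (nat_lit 2))))
  (@Cl.mk (nat_lit 0x2000d000a00090003000c000b000a0006000400070005000d0006000e0003) (nat_lit 0x86204970000b030) (nat_lit 16) Lb.e (@T16.mk En
    (@En.n l28 (nat_lit 1602) (nat_lit 15) (nat_lit 3))
    (@En.n l541 (nat_lit 14016) (nat_lit 0) (nat_lit 14))
    (@En.i (nat_lit 4468) (nat_lit 2) (nat_lit 6))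
    (@En.n l4879 (nat_lit 4237) (nat_lit 2) (nat_lit 13))
    (@En.n l4061 (nat_lit 7384) (nat_lit 4) (nat_lit 5))
    (@En.i (nat_lit 3036) (nat_lit 5) (nat_lit 7))
    (@En.n l17576 (nat_lit 3046) (nat_lit 6) (nat_lit 4))
    (@En.n l541 (nat_lit 6994) (nat_lit 7) (nat_lit 6))
    (@En.n l13443 (nat_lit 3335) (nat_lit 9) (nat_lit 10))
    (@En.n l19535 (nat_lit 7431) (nat_lit 10) (nat_lit 11))
    (@En.n l17081 (nat_lit 4464) (nat_lit 11) (nat_lit 12))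
    (@En.n l3503 (nat_lit 3047) (nat_lit 11) (nat_lit 3))
    (@En.n l2813 (nat_lit 1111) (nat_lit 0) (nat_lit 9))
    (@En.n l17576 (nat_lit 3317) (nat_lit 14) (nat_lit 10))
    (@En.n l3502 (nat_lit 12023) (nat_lit 2) (nat_lit 13))
    (@En.n l7 (nat_lit 4465) (nat_lit 15) (nat_lit 2))))
  (@Cl.mk (nat_lit 0x20007000d000a00090003000a000a000900060009000700060006000e0007) (nat_lit 0x56305810100080) (nat_lit 16) Lb.e (@T16.mk En
    (@En.n l50 (nat_lit 3157) (nat_lit 5) (nat_lit 7))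
    (@En.n l38600 (nat_lit 3191) (nat_lit 1) (nat_lit 14))
    (@En.n l55 (nat_lit 4473) (nat_lit 2) (nat_lit 6))
    (@En.i (nat_lit 7244) (nat_lit 3) (nat_lit 6))
    (@En.n l38601 (nat_lit 2914) (nat_lit 4) (nat_lit 7))
    (@En.i (nat_lit 3274) (nat_lit 5) (nat_lit 9))
    (@En.n l23747 (nat_lit 8292) (nat_lit 6) (nat_lit 6))
    (@En.n l18508 (nat_lit 1603) (nat_lit 7) (nat_lit 9))
    (@En.n l10484 (nat_lit 3138) (nat_lit 9) (nat_lit 10))
    (@En.n l10486 (nat_lit 6952) (nat_lit 10) (nat_lit 10))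
    (@En.n l38602 (nat_lit 4469) (nat_lit 10) (nat_lit 3))
    (@En.n l1878 (nat_lit 1692) (nat_lit 12) (nat_lit 9))
    (@En.n l38603 (nat_lit 4467) (nat_lit 13) (nat_lit 10))
    (@En.n l16116 (nat_lit 4468) (nat_lit 14) (nat_lit 13))
    (@En.n l23747 (nat_lit 12218) (nat_lit 3) (nat_lit 7))
    (@En.n l18 (nat_lit 4466) (nat_lit 15) (nat_lit 2))))
  (@Cl.mk (nat_lit 0x20007000a0008000b000900090008000600050009000800070007000e0008) (nat_lit 0x52747100260081) (nat_lit 16) Lb.e (@T16.mk En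
    (@En.n l148 (nat_lit 3153) (nat_lit 1) (nat_lit 8))
    (@En.n l3786 (nat_lit 3190) (nat_lit 1) (nat_lit 14))
    (@En.n l11281 (nat_lit 4475) (nat_lit 2) (nat_lit 7))
    (@En.n l23960 (nat_lit 7243) (nat_lit 3) (nat_lit 7))
    (@En.n l681 (nat_lit 4468) (nat_lit 4) (nat_lit 8))
    (@En.n l23959 (nat_lit 4466) (nat_lit 5) (nat_lit 9))
    (@En.i (nat_lit 4469) (nat_lit 6) (nat_lit 5))
    (@En.n l30614 (nat_lit 8296) (nat_lit 7) (nat_lit 6))
    (@En.n l2337 (nat_lit 1604) (nat_lit 8) (nat_lit 8))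
    (@En.n l30615 (nat_lit 3142) (nat_lit 10) (nat_lit 9))
    (@En.n l30616 (nat_lit 6951) (nat_lit 11) (nat_lit 9))
    (@En.n l30617 (nat_lit 4891) (nat_lit 12) (nat_lit 11))
    (@En.n l8017 (nat_lit 1558) (nat_lit 13) (nat_lit 8))
    (@En.n l30617 (nat_lit 1975) (nat_lit 8) (nat_lit 10))
    (@En.n l30618 (nat_lit 11609) (nat_lit 13) (nat_lit 7))
    (@En.n l17 (nat_lit 4467) (nat_lit 15) (nat_lit 2))))
  (@Cl.mk (nat_lit 0x2000d000900080003000b000a000a000900070005000800060006000e0007) (nat_lit 0x452085810050070) (nat_lit 16) Lb.e (@T16.mk En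
    (@En.i (nat_lit 3149) (nat_lit 4) (nat_lit 7))
    (@En.n l9890 (nat_lit 3189) (nat_lit 1) (nat_lit 14))
    (@En.n l11 (nat_lit 4560) (nat_lit 10) (nat_lit 6))
    (@En.i (nat_lit 6037) (nat_lit 3) (nat_lit 6))
    (@En.i (nat_lit 2979) (nat_lit 10) (nat_lit 8))
    (@En.n l4112 (nat_lit 4470) (nat_lit 5) (nat_lit 5))
    (@En.i (nat_lit 8294) (nat_lit 6) (nat_lit 7))
    (@En.i (nat_lit 1602) (nat_lit 7) (nat_lit 9))
    (@En.n l619 (nat_lit 3143) (nat_lit 9) (nat_lit 10))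
    (@En.n l34557 (nat_lit 7432) (nat_lit 10) (nat_lit 10))
    (@En.n l4086 (nat_lit 4467) (nat_lit 11) (nat_lit 11))
    (@En.n l137 (nat_lit 3147) (nat_lit 11) (nat_lit 3))
    (@En.i (nat_lit 1696) (nat_lit 0) (nat_lit 8))
    (@En.n l4112 (nat_lit 1973) (nat_lit 14) (nat_lit 9))
    (@En.n l396 (nat_lit 10964) (nat_lit 2) (nat_lit 13))
    (@En.n l7 (nat_lit 4468) (nat_lit 15) (nat_lit 2))))
  (@Cl.mk (nat_lit 0x20007000d0008000b0003000a000a000900050009000800060006000e0007) (nat_lit 0x11407770150080) (nat_lit 16) Lb.e (@T16.mk En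
    (@En.n l12788 (nat_lit 3152) (nat_lit 5) (nat_lit 7))
    (@En.n l3786 (nat_lit 3130) (nat_lit 1) (nat_lit 14))
    (@En.n l3787 (nat_lit 4474) (nat_lit 2) (nat_lit 6))
    (@En.n l23959 (nat_lit 7245) (nat_lit 3) (nat_lit 6))
    (@En.n l527 (nat_lit 4470) (nat_lit 4) (nat_lit 8))
    (@En.n l23959 (nat_lit 3269) (nat_lit 5) (nat_lit 9))
    (@En.i (nat_lit 7928) (nat_lit 6) (nat_lit 5))
    (@En.n l2337 (nat_lit 4199) (nat_lit 7) (nat_lit 9))
    (@En.n l601 (nat_lit 3137) (nat_lit 9) (nat_lit 10))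
    (@En.n l17986 (nat_lit 6545) (nat_lit 10) (nat_lit 10))
    (@En.n l23960 (nat_lit 4466) (nat_lit 10) (nat_lit 3))
    (@En.i (nat_lit 4890) (nat_lit 7) (nat_lit 11))
    (@En.i (nat_lit 1906) (nat_lit 13) (nat_lit 8))
    (@En.n l619 (nat_lit 3147) (nat_lit 14) (nat_lit 13))
    (@En.i (nat_lit 12217) (nat_lit 3) (nat_lit 7))
    (@En.n l17 (nat_lit 4469) (nat_lit 15) (nat_lit 2))))
  (@Cl.mk (nat_lit 0x2000d000c00080003000b0004000b000b000a0005000800050005000e0006) (nat_lit 0x562050786040070) (nat_lit 16) Lb.e (@T16.mk En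
    (@En.n l7161 (nat_lit 3158) (nat_lit 4) (nat_lit 6))
    (@En.n l38599 (nat_lit 3127) (nat_lit 1) (nat_lit 14))
    (@En.n l3787 (nat_lit 4563) (nat_lit 11) (nat_lit 5))
    (@En.n l10786 (nat_lit 7768) (nat_lit 3) (nat_lit 5))
    (@En.n l12788 (nat_lit 3751) (nat_lit 10) (nat_lit 8))
    (@En.n l16160 (nat_lit 7926) (nat_lit 5) (nat_lit 5))
    (@En.n l21047 (nat_lit 3044) (nat_lit 6) (nat_lit 10))
    (@En.n l601 (nat_lit 3139) (nat_lit 8) (nat_lit 11))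
    (@En.n l6822 (nat_lit 6544) (nat_lit 9) (nat_lit 11))
    (@En.i (nat_lit 2914) (nat_lit 9) (nat_lit 4))
    (@En.n l117 (nat_lit 4469) (nat_lit 11) (nat_lit 11))
    (@En.n l107 (nat_lit 4472) (nat_lit 11) (nat_lit 3))
    (@En.n l15808 (nat_lit 1908) (nat_lit 0) (nat_lit 8))
    (@En.i (nat_lit 4471) (nat_lit 14) (nat_lit 12))
    (@En.i (nat_lit 11154) (nat_lit 2) (nat_lit 13))
    (@En.n l17 (nat_lit 4470) (nat_lit 15) (nat_lit 2))))
  (@Cl.mk (nat_lit 0x2000c0007000d000a00040003000b000b000a0006000900050005000e0006) (nat_lit 0x501700611060070) (nat_lit 16) Lb.e (@T16.mk En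
    (@En.n l15713 (nat_lit 3148) (nat_lit 6) (nat_lit 6))
    (@En.n l41862 (nat_lit 3129) (nat_lit 1) (nat_lit 14))
    (@En.n l41863 (nat_lit 4561) (nat_lit 11) (nat_lit 5))
    (@En.n l8015 (nat_lit 7135) (nat_lit 3) (nat_lit 5))
    (@En.n l15713 (nat_lit 3708) (nat_lit 9) (nat_lit 9))
    (@En.n l41864 (nat_lit 7485) (nat_lit 5) (nat_lit 6))
    (@En.n l41865 (nat_lit 3039) (nat_lit 6) (nat_lit 10))
    (@En.n l6370 (nat_lit 2991) (nat_lit 8) (nat_lit 11))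
    (@En.n l17777 (nat_lit 7436) (nat_lit 9) (nat_lit 11))
    (@En.i (nat_lit 4472) (nat_lit 9) (nat_lit 3))
    (@En.n l31086 (nat_lit 2979) (nat_lit 0) (nat_lit 4))
    (@En.n l575 (nat_lit 3147) (nat_lit 12) (nat_lit 10))
    (@En.n l68 (nat_lit 1945) (nat_lit 13) (nat_lit 13))
    (@En.n l30622 (nat_lit 4466) (nat_lit 14) (nat_lit 7))
    (@En.n l31283 (nat_lit 10961) (nat_lit 3) (nat_lit 12))
    (@En.n l17 (nat_lit 4471) (nat_lit 15) (nat_lit 2))))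
  (@Cl.mk (nat_lit 0x2000d0007000d0003000b0003000b000b000a0005000900050005000e0006) (nat_lit 0x602050896040070) (nat_lit 16) Lb.e (@T16.mk En
    (@En.n l12788 (nat_lit 3154) (nat_lit 4) (nat_lit 6))
    (@En.n l3786 (nat_lit 3128) (nat_lit 1) (nat_lit 14))
    (@En.n l3787 (nat_lit 4562) (nat_lit 11) (nat_lit 5))
    (@En.i (nat_lit 7769) (nat_lit 3) (nat_lit 5))
    (@En.n l12788 (nat_lit 2674) (nat_lit 4) (nat_lit 9))
    (@En.i (nat_lit 7927) (nat_lit 5) (nat_lit 5))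
    (@En.n l2337 (nat_lit 3043) (nat_lit 6) (nat_lit 10))
    (@En.n l601 (nat_lit 3140) (nat_lit 8) (nat_lit 11))
    (@En.n l18989 (nat_lit 6546) (nat_lit 9) (nat_lit 11))
    (@En.n l11 (nat_lit 4471) (nat_lit 9) (nat_lit 3))
    (@En.i (nat_lit 4889) (nat_lit 11) (nat_lit 11))
    (@En.i (nat_lit 4470) (nat_lit 11) (nat_lit 3))
    (@En.n l619 (nat_lit 1952) (nat_lit 0) (nat_lit 13))
    (@En.i (nat_lit 4469) (nat_lit 14) (nat_lit 7))
    (@En.i (nat_lit 10967) (nat_lit 2) (nat_lit 13))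
    (@En.n l17 (nat_lit 4472) (nat_lit 15) (nat_lit 2))))
  (@Cl.mk (nat_lit 0x20006000d000900080003000e000a0002000a0007000a00080006000e0006) (nat_lit 0x52105608026070) (nat_lit 16) Lb.e (@T16.mk En
    (@En.n l50 (nat_lit 3354) (nat_lit 8) (nat_lit 6))
    (@En.n l5567 (nat_lit 3399) (nat_lit 1) (nat_lit 14))
    (@En.i (nat_lit 8910) (nat_lit 2) (nat_lit 6))
    (@En.n l1851 (nat_lit 2913) (nat_lit 12) (nat_lit 8))
    (@En.i (nat_lit 4183) (nat_lit 4) (nat_lit 10))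
    (@En.n l22974 (nat_lit 8556) (nat_lit 5) (nat_lit 7))
    (@En.n l22975 (nat_lit 4225) (nat_lit 12) (nat_lit 10))
    (@En.n l28 (nat_lit 4473) (nat_lit 7) (nat_lit 2))
    (@En.i (nat_lit 4466) (nat_lit 9) (nat_lit 10))
    (@En.n l4353 (nat_lit 7486) (nat_lit 1) (nat_lit 14))
    (@En.n l22976 (nat_lit 4474) (nat_lit 10) (nat_lit 3))
    (@En.n l22977 (nat_lit 1697) (nat_lit 12) (nat_lit 8))
    (@En.n l10016 (nat_lit 4475) (nat_lit 13) (nat_lit 9))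
    (@En.n l6631 (nat_lit 4560) (nat_lit 6) (nat_lit 13))
    (@En.n l6132 (nat_lit 12220) (nat_lit 6) (nat_lit 6))
    (@En.n l18 (nat_lit 4473) (nat_lit 15) (nat_lit 2))))
  (@Cl.mk (nat_lit 0x20006000d0007000a0003000e000a0002000a0006000a00090006000e0006) (nat_lit 0x60105808055060) (nat_lit 16) Lb.e (@T16.mk En
    (@En.n l10592 (nat_lit 3355) (nat_lit 8) (nat_lit 6))
    (@En.n l181 (nat_lit 3401) (nat_lit 1) (nat_lit 14))
    (@En.n l10593 (nat_lit 8912) (nat_lit 2) (nat_lit 6))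
    (@En.n l527 (nat_lit 4563) (nat_lit 12) (nat_lit 9))
    (@En.n l4476 (nat_lit 3273) (nat_lit 4) (nat_lit 10))
    (@En.n l10594 (nat_lit 12509) (nat_lit 14) (nat_lit 6))
    (@En.n l7201 (nat_lit 4223) (nat_lit 12) (nat_lit 10))
    (@En.n l7 (nat_lit 4474) (nat_lit 7) (nat_lit 2))
    (@En.n l644 (nat_lit 4469) (nat_lit 9) (nat_lit 10))
    (@En.n l1140 (nat_lit 11506) (nat_lit 1) (nat_lit 14))
    (@En.n l10595 (nat_lit 4473) (nat_lit 10) (nat_lit 3))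
    (@En.i (nat_lit 2115) (nat_lit 12) (nat_lit 10))
    (@En.n l10596 (nat_lit 1901) (nat_lit 13) (nat_lit 7))
    (@En.n l619 (nat_lit 2120) (nat_lit 6) (nat_lit 13))
    (@En.n l10597 (nat_lit 12222) (nat_lit 6) (nat_lit 6))
    (@En.n l17 (nat_lit 4474) (nat_lit 15) (nat_lit 2))))
  (@Cl.mk (nat_lit 0x2000600090007000a000e00090002000900070006000a00090007000e0007) (nat_lit 0x10545010037080) (nat_lit 16) Lb.e (@T16.mk En
    (@En.n l28 (nat_lit 4568) (nat_lit 7) (nat_lit 7))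
    (@En.n l23271 (nat_lit 3402) (nat_lit 1) (nat_lit 14))
    (@En.n l14187 (nat_lit 8911) (nat_lit 2) (nat_lit 7))
    (@En.n l17 (nat_lit 4560) (nat_lit 11) (nat_lit 9))
    (@En.n l14190 (nat_lit 4473) (nat_lit 4) (nat_lit 10))
    (@En.n l17081 (nat_lit 4474) (nat_lit 5) (nat_lit 6))
    (@En.n l9718 (nat_lit 8555) (nat_lit 6) (nat_lit 7))
    (@En.n l23272 (nat_lit 4226) (nat_lit 8) (nat_lit 9))
    (@En.n l67 (nat_lit 4475) (nat_lit 8) (nat_lit 2))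
    (@En.n l23273 (nat_lit 4467) (nat_lit 10) (nat_lit 9))
    (@En.n l23274 (nat_lit 7442) (nat_lit 11) (nat_lit 14))
    (@En.n l23275 (nat_lit 4778) (nat_lit 12) (nat_lit 10))
    (@En.n l23276 (nat_lit 1560) (nat_lit 13) (nat_lit 7))
    (@En.n l23277 (nat_lit 1978) (nat_lit 4) (nat_lit 9))
    (@En.n l23278 (nat_lit 12221) (nat_lit 5) (nat_lit 6))
    (@En.n l7 (nat_lit 4475) (nat_lit 15) (nat_lit 2))))
  (@Cl.mk (nat_lit 0x200090003000a000e000b0002000b000700060005000e00050002000e000d) (nat_lit 0x202710400070066) (nat_lit 16) Lb.e (@T16.mk En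
    (@En.i (nat_lit 4092) (nat_lit 7) (nat_lit 13))
    (@En.i (nat_lit 7647) (nat_lit 1) (nat_lit 14))
    (@En.n l17 (nat_lit 4476) (nat_lit 2) (nat_lit 2))
    (@En.i (nat_lit 3724) (nat_lit 3) (nat_lit 5))
    (@En.i (nat_lit 4478) (nat_lit 1) (nat_lit 14))
    (@En.i (nat_lit 4104) (nat_lit 5) (nat_lit 5))
    (@En.i (nat_lit 3730) (nat_lit 13) (nat_lit 6))
    (@En.i (nat_lit 3704) (nat_lit 14) (nat_lit 7))
    (@En.n l3699 (nat_lit 4583) (nat_lit 9) (nat_lit 11))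
    (@En.n l7 (nat_lit 4476) (nat_lit 9) (nat_lit 2))
    (@En.n l644 (nat_lit 1952) (nat_lit 11) (nat_lit 11))
    (@En.n l134 (nat_lit 4145) (nat_lit 12) (nat_lit 14))
    (@En.n l11 (nat_lit 4897) (nat_lit 2) (nat_lit 10))
    (@En.n l117 (nat_lit 4092) (nat_lit 3) (nat_lit 3))
    (@En.i (nat_lit 2124) (nat_lit 12) (nat_lit 9))
    (@En.n l3 (nat_lit 4476) (nat_lit 15) (nat_lit 2))))
  (@Cl.mk (nat_lit 0x20008000d000d000800030003000a000e00080002000c00080006000e0004) (nat_lit 0x24b200220095060) (nat_lit 16) Lb.e (@T16.mk En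
    (@En.n l34026 (nat_lit 4480) (nat_lit 10) (nat_lit 4))
    (@En.n l11617 (nat_lit 5444) (nat_lit 1) (nat_lit 14))
    (@En.i (nat_lit 4716) (nat_lit 2) (nat_lit 6))
    (@En.n l7323 (nat_lit 5788) (nat_lit 3) (nat_lit 8))
    (@En.n l7318 (nat_lit 3662) (nat_lit 10) (nat_lit 12))
    (@En.n l7 (nat_lit 4477) (nat_lit 5) (nat_lit 2))
    (@En.n l7318 (nat_lit 4484) (nat_lit 6) (nat_lit 8))
    (@En.n l7323 (nat_lit 4792) (nat_lit 8) (nat_lit 14))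
    (@En.n l181 (nat_lit 3404) (nat_lit 9) (nat_lit 10))
    (@En.n l152 (nat_lit 4478) (nat_lit 9) (nat_lit 3))
    (@En.n l34027 (nat_lit 4481) (nat_lit 10) (nat_lit 3))
    (@En.n l97 (nat_lit 2119) (nat_lit 0) (nat_lit 8))
    (@En.n l34028 (nat_lit 4481) (nat_lit 13) (nat_lit 13))
    (@En.n l7323 (nat_lit 7535) (nat_lit 8) (nat_lit 13))
    (@En.i (nat_lit 3019) (nat_lit 3) (nat_lit 8))
    (@En.n l17 (nat_lit 4477) (nat_lit 15) (nat_lit 2))))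
  (@Cl.mk (nat_lit 0x20008000e000d000200090003000a000e00080002000c00070006000e0004) (nat_lit 0x2050202c0070060) (nat_lit 16) Lb.e (@T16.mk En
    (@En.n l4019 (nat_lit 4479) (nat_lit 4) (nat_lit 4))
    (@En.n l1847 (nat_lit 5449) (nat_lit 6) (nat_lit 14))
    (@En.i (nat_lit 4719) (nat_lit 2) (nat_lit 6))
    (@En.i (nat_lit 5787) (nat_lit 14) (nat_lit 7))
    (@En.n l7557 (nat_lit 4585) (nat_lit 9) (nat_lit 12))
    (@En.n l7 (nat_lit 4478) (nat_lit 5) (nat_lit 2))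
    (@En.n l7318 (nat_lit 4486) (nat_lit 6) (nat_lit 8))
    (@En.n l9291 (nat_lit 4790) (nat_lit 12) (nat_lit 14))
    (@En.n l1847 (nat_lit 12556) (nat_lit 9) (nat_lit 10))
    (@En.n l117 (nat_lit 4477) (nat_lit 9) (nat_lit 3))
    (@En.i (nat_lit 5024) (nat_lit 11) (nat_lit 9))
    (@En.n l3 (nat_lit 4478) (nat_lit 11) (nat_lit 2))
    (@En.i (nat_lit 4477) (nat_lit 13) (nat_lit 13))
    (@En.n l9291 (nat_lit 8284) (nat_lit 1) (nat_lit 14))
    (@En.i (nat_lit 4490) (nat_lit 2) (nat_lit 8))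
    (@En.n l17 (nat_lit 4478) (nat_lit 15) (nat_lit 2))))
  (@Cl.mk (nat_lit 0x2000800030009000e00080002000c000c00080007000400040008000e000d) (nat_lit 0x303c00380000144) (nat_lit 16) Lb.e (@T16.mk En
    (@En.n l6671 (nat_lit 4480) (nat_lit 7) (nat_lit 13))
    (@En.n l6672 (nat_lit 7694) (nat_lit 1) (nat_lit 14))
    (@En.n l810 (nat_lit 3015) (nat_lit 2) (nat_lit 8))
    (@En.n l28 (nat_lit 5318) (nat_lit 3) (nat_lit 4))
    (@En.i (nat_lit 5582) (nat_lit 4) (nat_lit 4))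
    (@En.i (nat_lit 4720) (nat_lit 5) (nat_lit 7))
    (@En.n l14773 (nat_lit 5585) (nat_lit 6) (nat_lit 8))
    (@En.n l5987 (nat_lit 4478) (nat_lit 4) (nat_lit 12))
    (@En.n l4208 (nat_lit 4582) (nat_lit 9) (nat_lit 12))
    (@En.n l3 (nat_lit 4479) (nat_lit 9) (nat_lit 2))
    (@En.n l11108 (nat_lit 4485) (nat_lit 11) (nat_lit 8))
    (@En.n l1309 (nat_lit 4786) (nat_lit 12) (nat_lit 14))
    (@En.n l17 (nat_lit 12536) (nat_lit 13) (nat_lit 9))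
    (@En.n l6672 (nat_lit 4480) (nat_lit 3) (nat_lit 3))
    (@En.n l14774 (nat_lit 3179) (nat_lit 0) (nat_lit 8))
    (@En.n l50 (nat_lit 4479) (nat_lit 15) (nat_lit 2))))
noncomputable def a280 : T16 Cl := @T16.mk Cl
  (@Cl.mk (nat_lit 0x2000c000c00090007000400040008000d000d0007000300030009000e0008) (nat_lit 0x9a7000230000120) (nat_lit 16) Lb.e (@T16.mk En
    (@En.n l24219 (nat_lit 4483) (nat_lit 12) (nat_lit 8))
    (@En.i (nat_lit 4692) (nat_lit 1) (nat_lit 14))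
    (@En.n l28288 (nat_lit 3408) (nat_lit 2) (nat_lit 9))
    (@En.n l14354 (nat_lit 4479) (nat_lit 13) (nat_lit 3))
    (@En.n l7 (nat_lit 4482) (nat_lit 0) (nat_lit 3))
    (@En.n l28902 (nat_lit 4781) (nat_lit 0) (nat_lit 7))
    (@En.n l644 (nat_lit 4482) (nat_lit 3) (nat_lit 13))
    (@En.i (nat_lit 4624) (nat_lit 8) (nat_lit 13))
    (@En.n l12396 (nat_lit 3013) (nat_lit 3) (nat_lit 8))
    (@En.n l18244 (nat_lit 5316) (nat_lit 12) (nat_lit 4))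
    (@En.n l152 (nat_lit 4489) (nat_lit 10) (nat_lit 4))
    (@En.n l3016 (nat_lit 4718) (nat_lit 12) (nat_lit 7))
    (@En.i (nat_lit 5588) (nat_lit 13) (nat_lit 9))
    (@En.n l28903 (nat_lit 4477) (nat_lit 4) (nat_lit 12))
    (@En.n l24219 (nat_lit 4580) (nat_lit 10) (nat_lit 12))
    (@En.n l17 (nat_lit 4480) (nat_lit 15) (nat_lit 2))))
  (@Cl.mk (nat_lit 0x20008000d0007000e00030002000a000e00080002000c00090006000e0004) (nat_lit 0x3a0a00220064040) (nat_lit 16) Lb.e (@T16.mk En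
    (@En.n l117 (nat_lit 4482) (nat_lit 6) (nat_lit 4))
    (@En.n l3447 (nat_lit 5450) (nat_lit 8) (nat_lit 14))
    (@En.n l35340 (nat_lit 4717) (nat_lit 2) (nat_lit 6))
    (@En.i (nat_lit 5620) (nat_lit 3) (nat_lit 9))
    (@En.n l5043 (nat_lit 3663) (nat_lit 11) (nat_lit 12))
    (@En.n l17 (nat_lit 4481) (nat_lit 5) (nat_lit 2))
    (@En.n l5043 (nat_lit 4488) (nat_lit 6) (nat_lit 8))
    (@En.i (nat_lit 4796) (nat_lit 8) (nat_lit 14))
    (@En.i (nat_lit 3403) (nat_lit 9) (nat_lit 10))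
    (@En.n l50 (nat_lit 4481) (nat_lit 9) (nat_lit 2))
    (@En.n l25244 (nat_lit 4477) (nat_lit 10) (nat_lit 3))
    (@En.n l12575 (nat_lit 13238) (nat_lit 0) (nat_lit 14))
    (@En.n l8429 (nat_lit 4827) (nat_lit 13) (nat_lit 7))
    (@En.i (nat_lit 7534) (nat_lit 8) (nat_lit 13))
    (@En.n l614 (nat_lit 3259) (nat_lit 4) (nat_lit 8))
    (@En.n l11 (nat_lit 4481) (nat_lit 15) (nat_lit 2))))
  (@Cl.mk (nat_lit 0x20009000e00080002000c000c000a0007000400040008000d0006000e0003) (nat_lit 0x3009700002b0a0) (nat_lit 16) Lb.e (@T16.mk En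
    (@En.i (nat_lit 4480) (nat_lit 4) (nat_lit 3))
    (@En.i (nat_lit 13237) (nat_lit 0) (nat_lit 14))
    (@En.i (nat_lit 3172) (nat_lit 2) (nat_lit 6))
    (@En.i (nat_lit 4623) (nat_lit 8) (nat_lit 13))
    (@En.n l2747 (nat_lit 3017) (nat_lit 4) (nat_lit 8))
    (@En.n l22384 (nat_lit 5317) (nat_lit 5) (nat_lit 4))
    (@En.n l152 (nat_lit 5610) (nat_lit 6) (nat_lit 4))
    (@En.i (nat_lit 4715) (nat_lit 7) (nat_lit 7))
    (@En.n l55 (nat_lit 5612) (nat_lit 9) (nat_lit 10))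
    (@En.n l619 (nat_lit 4481) (nat_lit 4) (nat_lit 12))
    (@En.i (nat_lit 4579) (nat_lit 11) (nat_lit 12))
    (@En.n l17 (nat_lit 4482) (nat_lit 11) (nat_lit 2))
    (@En.i (nat_lit 4487) (nat_lit 13) (nat_lit 8))
    (@En.i (nat_lit 4693) (nat_lit 1) (nat_lit 14))
    (@En.i (nat_lit 4546) (nat_lit 2) (nat_lit 9))
    (@En.n l50 (nat_lit 4482) (nat_lit 15) (nat_lit 2))))
  (@Cl.mk (nat_lit 0x30003000a00080008000c000c000800060004000400080008000d000d0008) (nat_lit 0x2609a500013502) (nat_lit 16) Lb.e (@T16.mk En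
    (@En.n l97 (nat_lit 4783) (nat_lit 0) (nat_lit 8))
    (@En.n l32825 (nat_lit 4487) (nat_lit 3) (nat_lit 13))
    (@En.n l17334 (nat_lit 9146) (nat_lit 2) (nat_lit 13))
    (@En.n l39682 (nat_lit 4480) (nat_lit 8) (nat_lit 8))
    (@En.n l39683 (nat_lit 1319) (nat_lit 4) (nat_lit 8))
    (@En.n l4200 (nat_lit 5319) (nat_lit 12) (nat_lit 4))
    (@En.n l237 (nat_lit 2956) (nat_lit 6) (nat_lit 4))
    (@En.i (nat_lit 4685) (nat_lit 0) (nat_lit 6))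
    (@En.n l13034 (nat_lit 5593) (nat_lit 1) (nat_lit 8))
    (@En.n l4380 (nat_lit 4484) (nat_lit 4) (nat_lit 12))
    (@En.i (nat_lit 4575) (nat_lit 11) (nat_lit 12))
    (@En.n l61 (nat_lit 5325) (nat_lit 8) (nat_lit 8))
    (@En.n l17334 (nat_lit 7020) (nat_lit 13) (nat_lit 8))
    (@En.i (nat_lit 4524) (nat_lit 14) (nat_lit 10))
    (@En.n l152 (nat_lit 4485) (nat_lit 13) (nat_lit 3))
    (@En.n l32834 (nat_lit 4487) (nat_lit 0) (nat_lit 3))))
  (@Cl.mk (nat_lit 0x200080008000d000d000900030003000b00080008000c00070005000e0004) (nat_lit 0x236b500160900b0) (nat_lit 16) Lb.e (@T16.mk En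
    (@En.n l28 (nat_lit 4483) (nat_lit 6) (nat_lit 4))
    (@En.n l601 (nat_lit 3631) (nat_lit 1) (nat_lit 14))
    (@En.n l28 (nat_lit 4743) (nat_lit 2) (nat_lit 5))
    (@En.i (nat_lit 5309) (nat_lit 3) (nat_lit 7))
    (@En.i (nat_lit 4570) (nat_lit 11) (nat_lit 12))
    (@En.n l61 (nat_lit 5328) (nat_lit 8) (nat_lit 8))
    (@En.n l19785 (nat_lit 5511) (nat_lit 6) (nat_lit 8))
    (@En.i (nat_lit 3407) (nat_lit 8) (nat_lit 11))
    (@En.n l152 (nat_lit 4486) (nat_lit 8) (nat_lit 3))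
    (@En.n l12849 (nat_lit 4488) (nat_lit 9) (nat_lit 3))
    (@En.n l97 (nat_lit 4899) (nat_lit 11) (nat_lit 9))
    (@En.n l17193 (nat_lit 4488) (nat_lit 12) (nat_lit 13))
    (@En.n l20138 (nat_lit 9149) (nat_lit 13) (nat_lit 13))
    (@En.n l8518 (nat_lit 4477) (nat_lit 14) (nat_lit 8))
    (@En.n l7409 (nat_lit 1318) (nat_lit 4) (nat_lit 8))
    (@En.n l50 (nat_lit 4484) (nat_lit 15) (nat_lit 2))))
  (@Cl.mk (nat_lit 0x200090003000a00080008000c000c000700060004000400080008000e000d) (nat_lit 0x302609700001256) (nat_lit 16) Lb.e (@T16.mk En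
    (@En.i (nat_lit 4483) (nat_lit 2) (nat_lit 13))
    (@En.n l16813 (nat_lit 8712) (nat_lit 1) (nat_lit 14))
    (@En.n l22667 (nat_lit 4479) (nat_lit 2) (nat_lit 8))
    (@En.n l22484 (nat_lit 1324) (nat_lit 3) (nat_lit 8))
    (@En.n l1338 (nat_lit 5321) (nat_lit 4) (nat_lit 4))
    (@En.n l237 (nat_lit 2960) (nat_lit 5) (nat_lit 4))
    (@En.i (nat_lit 4742) (nat_lit 6) (nat_lit 6))
    (@En.n l22570 (nat_lit 5591) (nat_lit 7) (nat_lit 7))
    (@En.n l4380 (nat_lit 4486) (nat_lit 4) (nat_lit 12))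
    (@En.n l1353 (nat_lit 4583) (nat_lit 10) (nat_lit 12))
    (@En.n l61 (nat_lit 5327) (nat_lit 11) (nat_lit 8))
    (@En.n l22570 (nat_lit 7022) (nat_lit 12) (nat_lit 8))
    (@En.n l11 (nat_lit 4529) (nat_lit 13) (nat_lit 10))
    (@En.n l117 (nat_lit 4483) (nat_lit 14) (nat_lit 3))
    (@En.i (nat_lit 4964) (nat_lit 0) (nat_lit 9))
    (@En.n l3 (nat_lit 4485) (nat_lit 15) (nat_lit 2))))
  (@Cl.mk (nat_lit 0x200080008000e000d0002000a0003000b00080008000c00060005000e0004) (nat_lit 0x2367030360600b0) (nat_lit 16) Lb.e (@T16.mk En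
    (@En.n l28 (nat_lit 4485) (nat_lit 5) (nat_lit 4))
    (@En.n l8515 (nat_lit 5442) (nat_lit 1) (nat_lit 14))
    (@En.n l28 (nat_lit 4744) (nat_lit 2) (nat_lit 5))
    (@En.i (nat_lit 12388) (nat_lit 3) (nat_lit 6))
    (@En.n l7406 (nat_lit 4569) (nat_lit 10) (nat_lit 12))
    (@En.n l61 (nat_lit 5330) (nat_lit 11) (nat_lit 8))
    (@En.n l8516 (nat_lit 7021) (nat_lit 6) (nat_lit 8))
    (@En.i (nat_lit 12536) (nat_lit 8) (nat_lit 11))
    (@En.n l117 (nat_lit 4484) (nat_lit 8) (nat_lit 3))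
    (@En.i (nat_lit 4959) (nat_lit 10) (nat_lit 10))
    (@En.n l3 (nat_lit 4486) (nat_lit 10) (nat_lit 2))
    (@En.i (nat_lit 4484) (nat_lit 12) (nat_lit 13))
    (@En.i (nat_lit 10748) (nat_lit 13) (nat_lit 14))
    (@En.n l8518 (nat_lit 4478) (nat_lit 14) (nat_lit 8))
    (@En.n l7409 (nat_lit 1321) (nat_lit 3) (nat_lit 8))
    (@En.n l50 (nat_lit 4486) (nat_lit 15) (nat_lit 2))))
  (@Cl.mk (nat_lit 0x2000a00080008000c000c000900060004000400080008000d0007000e0003) (nat_lit 0x76095600013b040) (nat_lit 16) Lb.e (@T16.mk En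
    (@En.n l24219 (nat_lit 4483) (nat_lit 15) (nat_lit 3))
    (@En.n l4658 (nat_lit 13236) (nat_lit 0) (nat_lit 14))
    (@En.n l34288 (nat_lit 3167) (nat_lit 2) (nat_lit 7))
    (@En.n l14278 (nat_lit 9142) (nat_lit 4) (nat_lit 13))
    (@En.n l61 (nat_lit 4482) (nat_lit 4) (nat_lit 8))
    (@En.n l14278 (nat_lit 1323) (nat_lit 5) (nat_lit 8))
    (@En.n l8088 (nat_lit 5320) (nat_lit 6) (nat_lit 4))
    (@En.n l152 (nat_lit 2963) (nat_lit 7) (nat_lit 4))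
    (@En.n l9634 (nat_lit 4676) (nat_lit 8) (nat_lit 6))
    (@En.n l55 (nat_lit 5615) (nat_lit 10) (nat_lit 9))
    (@En.n l37854 (nat_lit 4488) (nat_lit 4) (nat_lit 12))
    (@En.n l5585 (nat_lit 4576) (nat_lit 12) (nat_lit 12))
    (@En.n l37855 (nat_lit 5326) (nat_lit 13) (nat_lit 8))
    (@En.n l9885 (nat_lit 7024) (nat_lit 14) (nat_lit 8))
    (@En.n l28286 (nat_lit 4526) (nat_lit 14) (nat_lit 10))
    (@En.n l50 (nat_lit 4487) (nat_lit 15) (nat_lit 2))))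
  (@Cl.mk (nat_lit 0x200080008000d0008000e00030002000b00080008000c00080005000e0004) (nat_lit 0x24a1c0016045010) (nat_lit 16) Lb.e (@T16.mk En
    (@En.n l1895 (nat_lit 4487) (nat_lit 7) (nat_lit 4))
    (@En.n l37970 (nat_lit 36) (nat_lit 1) (nat_lit 14))
    (@En.i (nat_lit 4756) (nat_lit 2) (nat_lit 5))
    (@En.n l15764 (nat_lit 12612) (nat_lit 3) (nat_lit 8))
    (@En.i (nat_lit 4586) (nat_lit 12) (nat_lit 12))
    (@En.n l1504 (nat_lit 5329) (nat_lit 13) (nat_lit 8))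
    (@En.n l5251 (nat_lit 5508) (nat_lit 6) (nat_lit 8))
    (@En.n l513 (nat_lit 3410) (nat_lit 8) (nat_lit 11))
    (@En.n l17 (nat_lit 4488) (nat_lit 8) (nat_lit 2))
    (@En.n l11319 (nat_lit 4484) (nat_lit 9) (nat_lit 3))
    (@En.n l3 (nat_lit 13239) (nat_lit 0) (nat_lit 14))
    (@En.n l26577 (nat_lit 3173) (nat_lit 12) (nat_lit 8))
    (@En.n l2383 (nat_lit 9147) (nat_lit 13) (nat_lit 13))
    (@En.n l37971 (nat_lit 4481) (nat_lit 14) (nat_lit 8))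
    (@En.n l3549 (nat_lit 1320) (nat_lit 5) (nat_lit 8))
    (@En.n l28 (nat_lit 4488) (nat_lit 15) (nat_lit 2))))
  (@Cl.mk (nat_lit 0x2000c0005000d000a000400030008000d000d000600030003000b000e0008) (nat_lit 0x406000600000721) (nat_lit 16) Lb.e (@T16.mk En
    (@En.n l18000 (nat_lit 2956) (nat_lit 12) (nat_lit 8))
    (@En.i (nat_lit 4748) (nat_lit 4) (nat_lit 14))
    (@En.i (nat_lit 12204) (nat_lit 2) (nat_lit 11))
    (@En.n l17853 (nat_lit 5582) (nat_lit 13) (nat_lit 3))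
    (@En.n l7 (nat_lit 5610) (nat_lit 0) (nat_lit 3))
    (@En.n l11 (nat_lit 8063) (nat_lit 0) (nat_lit 6))
    (@En.n l644 (nat_lit 5610) (nat_lit 3) (nat_lit 13))
    (@En.i (nat_lit 8306) (nat_lit 8) (nat_lit 13))
    (@En.n l287 (nat_lit 4491) (nat_lit 3) (nat_lit 8))
    (@En.n l11 (nat_lit 2958) (nat_lit 9) (nat_lit 3))
    (@En.n l25244 (nat_lit 4477) (nat_lit 0) (nat_lit 4))
    (@En.i (nat_lit 5587) (nat_lit 12) (nat_lit 10))
    (@En.n l3447 (nat_lit 5447) (nat_lit 13) (nat_lit 13))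
    (@En.i (nat_lit 5576) (nat_lit 14) (nat_lit 5))
    (@En.i (nat_lit 4587) (nat_lit 10) (nat_lit 12))
    (@En.n l17 (nat_lit 4489) (nat_lit 15) (nat_lit 2))))
  (@Cl.mk (nat_lit 0x2000800030009000d0008000b0003000c00080007000500040008000e000d) (nat_lit 0x305b12085000131) (nat_lit 16) Lb.e (@T16.mk En
    (@En.i (nat_lit 3019) (nat_lit 2) (nat_lit 13))
    (@En.n l1501 (nat_lit 10202) (nat_lit 1) (nat_lit 14))
    (@En.n l13399 (nat_lit 3016) (nat_lit 2) (nat_lit 8))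
    (@En.n l8097 (nat_lit 3015) (nat_lit 3) (nat_lit 4))
    (@En.i (nat_lit 6338) (nat_lit 4) (nat_lit 5))
    (@En.i (nat_lit 4283) (nat_lit 5) (nat_lit 7))
    (@En.n l7325 (nat_lit 9745) (nat_lit 6) (nat_lit 8))
    (@En.n l11391 (nat_lit 4485) (nat_lit 8) (nat_lit 12))
    (@En.n l13382 (nat_lit 1325) (nat_lit 8) (nat_lit 3))
    (@En.i (nat_lit 4476) (nat_lit 10) (nat_lit 11))
    (@En.n l7987 (nat_lit 1321) (nat_lit 11) (nat_lit 8))
    (@En.n l9079 (nat_lit 5526) (nat_lit 12) (nat_lit 13))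
    (@En.n l13400 (nat_lit 3407) (nat_lit 13) (nat_lit 9))
    (@En.n l117 (nat_lit 3019) (nat_lit 14) (nat_lit 3))
    (@En.n l1660 (nat_lit 5085) (nat_lit 0) (nat_lit 8))
    (@En.n l3 (nat_lit 4490) (nat_lit 15) (nat_lit 2))))
  (@Cl.mk (nat_lit 0x30003000a000d0008000c0003000c00060004000b00040008000d000d0005) (nat_lit 0x67020100005000) (nat_lit 16) Lb.e (@T16.mk En
    (@En.i (nat_lit 4430) (nat_lit 0) (nat_lit 5))
    (@En.n l77 (nat_lit 4502) (nat_lit 3) (nat_lit 13))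
    (@En.i (nat_lit 8601) (nat_lit 2) (nat_lit 13))
    (@En.n l3815 (nat_lit 4364) (nat_lit 3) (nat_lit 8))
    (@En.n l9464 (nat_lit 3019) (nat_lit 4) (nat_lit 4))
    (@En.n l3337 (nat_lit 11152) (nat_lit 0) (nat_lit 11))
    (@En.n l1203 (nat_lit 4082) (nat_lit 6) (nat_lit 4))
    (@En.n l33186 (nat_lit 4500) (nat_lit 7) (nat_lit 6))
    (@En.n l9182 (nat_lit 2955) (nat_lit 9) (nat_lit 12))
    (@En.n l2869 (nat_lit 4494) (nat_lit 9) (nat_lit 3))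
    (@En.n l1203 (nat_lit 3825) (nat_lit 0) (nat_lit 12))
    (@En.i (nat_lit 4496) (nat_lit 12) (nat_lit 8))
    (@En.i (nat_lit 7058) (nat_lit 5) (nat_lit 13))
    (@En.i (nat_lit 10665) (nat_lit 14) (nat_lit 10))
    (@En.n l39838 (nat_lit 4492) (nat_lit 13) (nat_lit 3))
    (@En.n l28 (nat_lit 4502) (nat_lit 0) (nat_lit 3))))
  (@Cl.mk (nat_lit 0x200060003000a000d0008000c0003000c00060004000a00040008000e000d) (nat_lit 0x77020200801a1) (nat_lit 16) Lb.e (@T16.mk En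
    (@En.n l25263 (nat_lit 4491) (nat_lit 2) (nat_lit 13))
    (@En.n l25264 (nat_lit 8649) (nat_lit 1) (nat_lit 14))
    (@En.i (nat_lit 2660) (nat_lit 2) (nat_lit 8))
    (@En.n l4108 (nat_lit 4490) (nat_lit 3) (nat_lit 4))
    (@En.n l6654 (nat_lit 11216) (nat_lit 4) (nat_lit 10))
    (@En.n l25265 (nat_lit 6323) (nat_lit 5) (nat_lit 4))
    (@En.i (nat_lit 4499) (nat_lit 6) (nat_lit 6))
    (@En.n l25266 (nat_lit 2961) (nat_lit 8) (nat_lit 12))
    (@En.n l6586 (nat_lit 4493) (nat_lit 8) (nat_lit 3))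
    (@En.n l2038 (nat_lit 3835) (nat_lit 10) (nat_lit 12))
    (@En.n l12843 (nat_lit 4495) (nat_lit 11) (nat_lit 8))
    (@En.n l6654 (nat_lit 7059) (nat_lit 5) (nat_lit 13))
    (@En.n l25267 (nat_lit 9901) (nat_lit 13) (nat_lit 10))
    (@En.n l25264 (nat_lit 4491) (nat_lit 14) (nat_lit 3))
    (@En.n l25268 (nat_lit 6678) (nat_lit 0) (nat_lit 6))
    (@En.n l50 (nat_lit 4492) (nat_lit 15) (nat_lit 2))))
  (@Cl.mk (nat_lit 0x200060003000a000d000b00090003000c00060005000a00040007000e000d) (nat_lit 0x76210a008004a) (nat_lit 16) Lb.e (@T16.mk En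
    (@En.n l4130 (nat_lit 4494) (nat_lit 2) (nat_lit 13))
    (@En.n l35714 (nat_lit 8650) (nat_lit 1) (nat_lit 14))
    (@En.i (nat_lit 2658) (nat_lit 2) (nat_lit 7))
    (@En.n l5960 (nat_lit 1325) (nat_lit 3) (nat_lit 4))
    (@En.i (nat_lit 11214) (nat_lit 4) (nat_lit 10))
    (@En.n l1388 (nat_lit 6333) (nat_lit 5) (nat_lit 5))
    (@En.n l28080 (nat_lit 4498) (nat_lit 6) (nat_lit 6))
    (@En.i (nat_lit 4495) (nat_lit 8) (nat_lit 12))
    (@En.n l2265 (nat_lit 4492) (nat_lit 8) (nat_lit 3))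
    (@En.n l725 (nat_lit 2337) (nat_lit 10) (nat_lit 9))
    (@En.i (nat_lit 6339) (nat_lit 11) (nat_lit 11))
    (@En.i (nat_lit 7061) (nat_lit 12) (nat_lit 13))
    (@En.n l3337 (nat_lit 9903) (nat_lit 13) (nat_lit 10))
    (@En.n l2832 (nat_lit 4494) (nat_lit 14) (nat_lit 3))
    (@En.i (nat_lit 5393) (nat_lit 0) (nat_lit 6))
    (@En.n l3 (nat_lit 4493) (nat_lit 15) (nat_lit 2))))
  (@Cl.mk (nat_lit 0x30003000a000d000b00090003000c00060005000b00040007000d000d0005) (nat_lit 0x662206000009a0) (nat_lit 16) Lb.e (@T16.mk En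
    (@En.n l17134 (nat_lit 4432) (nat_lit 0) (nat_lit 5))
    (@En.n l61 (nat_lit 4501) (nat_lit 3) (nat_lit 13))
    (@En.n l5891 (nat_lit 8604) (nat_lit 2) (nat_lit 13))
    (@En.i (nat_lit 830) (nat_lit 11) (nat_lit 7))
    (@En.n l22679 (nat_lit 1322) (nat_lit 4) (nat_lit 4))
    (@En.n l3517 (nat_lit 11149) (nat_lit 0) (nat_lit 11))
    (@En.n l5891 (nat_lit 6322) (nat_lit 6) (nat_lit 5))
    (@En.n l14950 (nat_lit 4497) (nat_lit 7) (nat_lit 6))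
    (@En.n l9921 (nat_lit 4496) (nat_lit 9) (nat_lit 12))
    (@En.n l1865 (nat_lit 4491) (nat_lit 9) (nat_lit 3))
    (@En.n l4758 (nat_lit 2336) (nat_lit 0) (nat_lit 9))
    (@En.n l22681 (nat_lit 4083) (nat_lit 12) (nat_lit 11))
    (@En.i (nat_lit 7062) (nat_lit 5) (nat_lit 13))
    (@En.n l5801 (nat_lit 10660) (nat_lit 14) (nat_lit 10))
    (@En.n l3519 (nat_lit 4493) (nat_lit 13) (nat_lit 3))
    (@En.n l18 (nat_lit 4501) (nat_lit 0) (nat_lit 3))))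
  (@Cl.mk (nat_lit 0x200070003000b0008000c0009000c000500040009000400080007000e000d) (nat_lit 0x76819000060aa) (nat_lit 16) Lb.e (@T16.mk En
    (@En.n l26507 (nat_lit 4496) (nat_lit 2) (nat_lit 13))
    (@En.n l23413 (nat_lit 10254) (nat_lit 1) (nat_lit 14))
    (@En.n l7 (nat_lit 4493) (nat_lit 2) (nat_lit 7))
    (@En.n l10385 (nat_lit 4498) (nat_lit 3) (nat_lit 8))
    (@En.n l12475 (nat_lit 1321) (nat_lit 4) (nat_lit 4))
    (@En.i (nat_lit 11213) (nat_lit 5) (nat_lit 9))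
    (@En.n l11953 (nat_lit 6327) (nat_lit 6) (nat_lit 4))
    (@En.n l26508 (nat_lit 6259) (nat_lit 7) (nat_lit 5))
    (@En.n l5779 (nat_lit 4515) (nat_lit 9) (nat_lit 12))
    (@En.n l26509 (nat_lit 2339) (nat_lit 10) (nat_lit 9))
    (@En.n l12475 (nat_lit 6338) (nat_lit 11) (nat_lit 12))
    (@En.n l4270 (nat_lit 5430) (nat_lit 12) (nat_lit 8))
    (@En.n l26508 (nat_lit 9905) (nat_lit 13) (nat_lit 11))
    (@En.n l26510 (nat_lit 4496) (nat_lit 14) (nat_lit 3))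
    (@En.n l11953 (nat_lit 5392) (nat_lit 0) (nat_lit 7))
    (@En.n l3 (nat_lit 4495) (nat_lit 15) (nat_lit 2))))
noncomputable def a281 : T16 Cl := @T16.mk Cl
  (@Cl.mk (nat_lit 0x30003000b0008000c0009000c00050004000a000400080007000d000d0006) (nat_lit 0x768250000609a0) (nat_lit 16) Lb.e (@T16.mk En
    (@En.n l39541 (nat_lit 6352) (nat_lit 0) (nat_lit 6))
    (@En.n l77 (nat_lit 6254) (nat_lit 3) (nat_lit 13))
    (@En.n l34574 (nat_lit 10473) (nat_lit 2) (nat_lit 13))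
    (@En.n l2579 (nat_lit 4494) (nat_lit 3) (nat_lit 7))
    (@En.n l40316 (nat_lit 4497) (nat_lit 4) (nat_lit 8))
    (@En.n l40317 (nat_lit 1318) (nat_lit 5) (nat_lit 4))
    (@En.n l38158 (nat_lit 11150) (nat_lit 0) (nat_lit 10))
    (@En.n l3480 (nat_lit 6325) (nat_lit 7) (nat_lit 4))
    (@En.n l26868 (nat_lit 6256) (nat_lit 8) (nat_lit 5))
    (@En.n l26869 (nat_lit 4513) (nat_lit 6) (nat_lit 12))
    (@En.n l2912 (nat_lit 2334) (nat_lit 11) (nat_lit 9))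
    (@En.n l26869 (nat_lit 4081) (nat_lit 12) (nat_lit 12))
    (@En.i (nat_lit 5429) (nat_lit 13) (nat_lit 8))
    (@En.n l38219 (nat_lit 10659) (nat_lit 14) (nat_lit 11))
    (@En.n l40318 (nat_lit 4495) (nat_lit 13) (nat_lit 3))
    (@En.n l28 (nat_lit 6254) (nat_lit 0) (nat_lit 3))))
  (@Cl.mk (nat_lit 0x30003000a0008000d000c000a000300060004000b00080006000d000d0005) (nat_lit 0x71793000850890) (nat_lit 16) Lb.e (@T16.mk En
    (@En.n l77 (nat_lit 4428) (nat_lit 0) (nat_lit 5))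
    (@En.n l29342 (nat_lit 4503) (nat_lit 3) (nat_lit 13))
    (@En.n l29343 (nat_lit 9091) (nat_lit 10) (nat_lit 13))
    (@En.n l16416 (nat_lit 831) (nat_lit 3) (nat_lit 6))
    (@En.n l14914 (nat_lit 6184) (nat_lit 4) (nat_lit 8))
    (@En.n l16161 (nat_lit 11151) (nat_lit 13) (nat_lit 11))
    (@En.n l2331 (nat_lit 6336) (nat_lit 6) (nat_lit 4))
    (@En.n l10765 (nat_lit 5943) (nat_lit 12) (nat_lit 6))
    (@En.n l29344 (nat_lit 4500) (nat_lit 8) (nat_lit 3))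
    (@En.n l619 (nat_lit 2338) (nat_lit 0) (nat_lit 10))
    (@En.n l29345 (nat_lit 6242) (nat_lit 11) (nat_lit 12))
    (@En.n l16414 (nat_lit 4494) (nat_lit 12) (nat_lit 13))
    (@En.n l14914 (nat_lit 3010) (nat_lit 13) (nat_lit 8))
    (@En.n l29346 (nat_lit 10664) (nat_lit 4) (nat_lit 10))
    (@En.n l3787 (nat_lit 4498) (nat_lit 13) (nat_lit 3))
    (@En.n l22147 (nat_lit 4503) (nat_lit 0) (nat_lit 3))))
  (@Cl.mk (nat_lit 0x200060003000a0008000d000c000a000300060004000a00080006000e000d) (nat_lit 0x7673100085029) (nat_lit 16) Lb.e (@T16.mk En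
    (@En.n l644 (nat_lit 4497) (nat_lit 2) (nat_lit 13))
    (@En.n l24259 (nat_lit 8652) (nat_lit 1) (nat_lit 14))
    (@En.n l25661 (nat_lit 2659) (nat_lit 2) (nat_lit 6))
    (@En.n l10536 (nat_lit 4293) (nat_lit 3) (nat_lit 8))
    (@En.n l22906 (nat_lit 11217) (nat_lit 4) (nat_lit 10))
    (@En.n l4163 (nat_lit 6337) (nat_lit 5) (nat_lit 4))
    (@En.n l17308 (nat_lit 5945) (nat_lit 6) (nat_lit 6))
    (@En.n l11077 (nat_lit 4499) (nat_lit 7) (nat_lit 3))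
    (@En.n l619 (nat_lit 2340) (nat_lit 0) (nat_lit 10))
    (@En.n l25662 (nat_lit 6241) (nat_lit 10) (nat_lit 12))
    (@En.n l3696 (nat_lit 4493) (nat_lit 11) (nat_lit 13))
    (@En.n l24684 (nat_lit 3011) (nat_lit 12) (nat_lit 8))
    (@En.n l10536 (nat_lit 9904) (nat_lit 13) (nat_lit 10))
    (@En.n l7 (nat_lit 4497) (nat_lit 14) (nat_lit 3))
    (@En.n l22906 (nat_lit 5399) (nat_lit 0) (nat_lit 6))
    (@En.n l7 (nat_lit 4498) (nat_lit 15) (nat_lit 2))))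
  (@Cl.mk (nat_lit 0x200060003000a0008000d0009000d000300060003000a00080007000e000d) (nat_lit 0x7680200086020) (nat_lit 16) Lb.e (@T16.mk En
    (@En.n l28257 (nat_lit 4500) (nat_lit 2) (nat_lit 13))
    (@En.n l476 (nat_lit 8651) (nat_lit 1) (nat_lit 14))
    (@En.n l21981 (nat_lit 2328) (nat_lit 2) (nat_lit 7))
    (@En.i (nat_lit 4292) (nat_lit 3) (nat_lit 8))
    (@En.n l14744 (nat_lit 11218) (nat_lit 4) (nat_lit 10))
    (@En.n l39523 (nat_lit 6241) (nat_lit 5) (nat_lit 3))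
    (@En.n l8874 (nat_lit 4853) (nat_lit 6) (nat_lit 6))
    (@En.n l24701 (nat_lit 4498) (nat_lit 7) (nat_lit 3))
    (@En.n l2038 (nat_lit 3838) (nat_lit 0) (nat_lit 13))
    (@En.n l11008 (nat_lit 6259) (nat_lit 10) (nat_lit 9))
    (@En.n l10882 (nat_lit 4492) (nat_lit 11) (nat_lit 13))
    (@En.i (nat_lit 3015) (nat_lit 12) (nat_lit 8))
    (@En.n l3088 (nat_lit 9902) (nat_lit 13) (nat_lit 10))
    (@En.n l15664 (nat_lit 4500) (nat_lit 14) (nat_lit 3))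
    (@En.n l39524 (nat_lit 6679) (nat_lit 0) (nat_lit 6))
    (@En.n l50 (nat_lit 4499) (nat_lit 15) (nat_lit 2))))
  (@Cl.mk (nat_lit 0x30003000a0008000d0009000d000300060003000b00080007000d000d0005) (nat_lit 0x71832000860b00) (nat_lit 16) Lb.e (@T16.mk En
    (@En.n l17070 (nat_lit 4426) (nat_lit 0) (nat_lit 5))
    (@En.n l10858 (nat_lit 6244) (nat_lit 3) (nat_lit 13))
    (@En.n l24739 (nat_lit 8605) (nat_lit 10) (nat_lit 13))
    (@En.n l14011 (nat_lit 2333) (nat_lit 3) (nat_lit 7))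
    (@En.n l14455 (nat_lit 6182) (nat_lit 4) (nat_lit 8))
    (@En.i (nat_lit 11153) (nat_lit 13) (nat_lit 11))
    (@En.n l41785 (nat_lit 6242) (nat_lit 6) (nat_lit 3))
    (@En.n l6042 (nat_lit 4851) (nat_lit 12) (nat_lit 6))
    (@En.n l17075 (nat_lit 4497) (nat_lit 8) (nat_lit 3))
    (@En.n l41786 (nat_lit 3836) (nat_lit 0) (nat_lit 13))
    (@En.n l32613 (nat_lit 6256) (nat_lit 11) (nat_lit 9))
    (@En.n l17196 (nat_lit 4491) (nat_lit 12) (nat_lit 13))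
    (@En.n l29439 (nat_lit 3013) (nat_lit 13) (nat_lit 8))
    (@En.n l11244 (nat_lit 10666) (nat_lit 4) (nat_lit 10))
    (@En.n l34638 (nat_lit 4499) (nat_lit 13) (nat_lit 3))
    (@En.n l6962 (nat_lit 6244) (nat_lit 0) (nat_lit 3))))
  (@Cl.mk (nat_lit 0x2000a000d000b00090003000c00060005000c00040007000d0004000e0003) (nat_lit 0x76220a000009000) (nat_lit 16) Lb.e (@T16.mk En
    (@En.i (nat_lit 4494) (nat_lit 15) (nat_lit 3))
    (@En.n l476 (nat_lit 13790) (nat_lit 0) (nat_lit 14))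
    (@En.i (nat_lit 6250) (nat_lit 2) (nat_lit 4))
    (@En.n l5891 (nat_lit 9087) (nat_lit 4) (nat_lit 13))
    (@En.i (nat_lit 828) (nat_lit 11) (nat_lit 7))
    (@En.i (nat_lit 3258) (nat_lit 5) (nat_lit 4))
    (@En.n l476 (nat_lit 11143) (nat_lit 7) (nat_lit 12))
    (@En.n l5891 (nat_lit 6237) (nat_lit 7) (nat_lit 5))
    (@En.n l11833 (nat_lit 4503) (nat_lit 8) (nat_lit 6))
    (@En.n l9921 (nat_lit 6254) (nat_lit 10) (nat_lit 12))
    (@En.n l1865 (nat_lit 4502) (nat_lit 10) (nat_lit 3))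
    (@En.n l4758 (nat_lit 2335) (nat_lit 12) (nat_lit 9))
    (@En.n l22681 (nat_lit 6318) (nat_lit 13) (nat_lit 11))
    (@En.i (nat_lit 7065) (nat_lit 5) (nat_lit 13))
    (@En.i (nat_lit 10656) (nat_lit 14) (nat_lit 10))
    (@En.n l17 (nat_lit 4501) (nat_lit 15) (nat_lit 2))))
  (@Cl.mk (nat_lit 0x2000a000d0008000c0003000c00060004000c00040008000d0004000e0003) (nat_lit 0x77020600005b000) (nat_lit 16) Lb.e (@T16.mk En
    (@En.i (nat_lit 4491) (nat_lit 15) (nat_lit 3))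
    (@En.i (nat_lit 13791) (nat_lit 0) (nat_lit 14))
    (@En.i (nat_lit 6248) (nat_lit 2) (nat_lit 4))
    (@En.i (nat_lit 8600) (nat_lit 4) (nat_lit 13))
    (@En.n l2117 (nat_lit 4367) (nat_lit 4) (nat_lit 8))
    (@En.n l117 (nat_lit 3259) (nat_lit 5) (nat_lit 4))
    (@En.n l3337 (nat_lit 11141) (nat_lit 7) (nat_lit 12))
    (@En.n l1203 (nat_lit 6317) (nat_lit 7) (nat_lit 4))
    (@En.n l15957 (nat_lit 6244) (nat_lit 8) (nat_lit 6))
    (@En.n l9182 (nat_lit 2962) (nat_lit 10) (nat_lit 12))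
    (@En.n l2869 (nat_lit 4501) (nat_lit 10) (nat_lit 3))
    (@En.n l1203 (nat_lit 3834) (nat_lit 0) (nat_lit 12))
    (@En.i (nat_lit 6254) (nat_lit 13) (nat_lit 8))
    (@En.i (nat_lit 7064) (nat_lit 5) (nat_lit 13))
    (@En.i (nat_lit 10662) (nat_lit 14) (nat_lit 10))
    (@En.n l7 (nat_lit 4502) (nat_lit 15) (nat_lit 2))))
  (@Cl.mk (nat_lit 0x2000a0008000d000c000a000300060004000c00080006000d0004000e0003) (nat_lit 0x717330000508000) (nat_lit 16) Lb.e (@T16.mk En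
    (@En.n l12817 (nat_lit 4497) (nat_lit 15) (nat_lit 3))
    (@En.i (nat_lit 12870) (nat_lit 0) (nat_lit 14))
    (@En.n l32587 (nat_lit 6247) (nat_lit 2) (nat_lit 4))
    (@En.n l32588 (nat_lit 9088) (nat_lit 10) (nat_lit 13))
    (@En.i (nat_lit 829) (nat_lit 4) (nat_lit 6))
    (@En.n l24065 (nat_lit 6185) (nat_lit 5) (nat_lit 8))
    (@En.n l11777 (nat_lit 11144) (nat_lit 7) (nat_lit 12))
    (@En.n l11778 (nat_lit 6415) (nat_lit 7) (nat_lit 4))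
    (@En.n l3 (nat_lit 6282) (nat_lit 8) (nat_lit 6))
    (@En.n l170 (nat_lit 6244) (nat_lit 9) (nat_lit 3))
    (@En.n l11780 (nat_lit 2341) (nat_lit 0) (nat_lit 10))
    (@En.n l11781 (nat_lit 6243) (nat_lit 12) (nat_lit 12))
    (@En.n l14532 (nat_lit 4501) (nat_lit 13) (nat_lit 13))
    (@En.n l32589 (nat_lit 3012) (nat_lit 14) (nat_lit 8))
    (@En.n l13079 (nat_lit 10661) (nat_lit 4) (nat_lit 10))
    (@En.n l17 (nat_lit 4503) (nat_lit 15) (nat_lit 2))))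
  (@Cl.mk (nat_lit 0x20006000e00070002000d0009000e00030002000b000a00090007000e0005) (nat_lit 0x10011a00987070) (nat_lit 16) Lb.e (@T16.mk En
    (@En.n l14485 (nat_lit 1953) (nat_lit 9) (nat_lit 5))
    (@En.n l9956 (nat_lit 4508) (nat_lit 1) (nat_lit 14))
    (@En.n l1422 (nat_lit 4089) (nat_lit 2) (nat_lit 7))
    (@En.n l17576 (nat_lit 4094) (nat_lit 13) (nat_lit 9))
    (@En.i (nat_lit 3938) (nat_lit 4) (nat_lit 10))
    (@En.n l23060 (nat_lit 7435) (nat_lit 10) (nat_lit 11))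
    (@En.n l67 (nat_lit 4504) (nat_lit 6) (nat_lit 2))
    (@En.n l107 (nat_lit 4505) (nat_lit 7) (nat_lit 3))
    (@En.n l23061 (nat_lit 13198) (nat_lit 0) (nat_lit 14))
    (@En.i (nat_lit 1910) (nat_lit 10) (nat_lit 9))
    (@En.n l1035 (nat_lit 4426) (nat_lit 11) (nat_lit 13))
    (@En.n l17 (nat_lit 4504) (nat_lit 11) (nat_lit 2))
    (@En.n l23062 (nat_lit 3099) (nat_lit 13) (nat_lit 7))
    (@En.n l23063 (nat_lit 3113) (nat_lit 1) (nat_lit 14))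
    (@En.n l11536 (nat_lit 4151) (nat_lit 7) (nat_lit 6))
    (@En.n l7 (nat_lit 4504) (nat_lit 15) (nat_lit 2))))
  (@Cl.mk (nat_lit 0x20006000e00070002000d000d000a00030003000b000a00090006000e0005) (nat_lit 0x10012200977080) (nat_lit 16) Lb.e (@T16.mk En
    (@En.n l4110 (nat_lit 1945) (nat_lit 4) (nat_lit 5))
    (@En.n l11259 (nat_lit 4507) (nat_lit 1) (nat_lit 14))
    (@En.n l1422 (nat_lit 4087) (nat_lit 2) (nat_lit 6))
    (@En.n l217 (nat_lit 4096) (nat_lit 3) (nat_lit 9))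
    (@En.i (nat_lit 3936) (nat_lit 4) (nat_lit 10))
    (@En.i (nat_lit 7434) (nat_lit 10) (nat_lit 11))
    (@En.n l152 (nat_lit 4506) (nat_lit 6) (nat_lit 3))
    (@En.i (nat_lit 4504) (nat_lit 7) (nat_lit 3))
    (@En.n l97 (nat_lit 1943) (nat_lit 9) (nat_lit 10))
    (@En.n l97 (nat_lit 4504) (nat_lit 10) (nat_lit 13))
    (@En.i (nat_lit 4428) (nat_lit 11) (nat_lit 13))
    (@En.n l17 (nat_lit 4505) (nat_lit 11) (nat_lit 2))
    (@En.i (nat_lit 3091) (nat_lit 13) (nat_lit 7))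
    (@En.n l5 (nat_lit 3109) (nat_lit 1) (nat_lit 14))
    (@En.i (nat_lit 4147) (nat_lit 2) (nat_lit 6))
    (@En.n l7 (nat_lit 4505) (nat_lit 15) (nat_lit 2))))
  (@Cl.mk (nat_lit 0x20006000e00070002000e000d0002000b0003000b000a00090005000e0005) (nat_lit 0x10052020987070) (nat_lit 16) Lb.e (@T16.mk En
    (@En.n l4110 (nat_lit 1952) (nat_lit 7) (nat_lit 5))
    (@En.n l4414 (nat_lit 4509) (nat_lit 9) (nat_lit 14))
    (@En.n l685 (nat_lit 3703) (nat_lit 2) (nat_lit 5))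
    (@En.n l217 (nat_lit 4103) (nat_lit 11) (nat_lit 9))
    (@En.n l1347 (nat_lit 3939) (nat_lit 4) (nat_lit 10))
    (@En.i (nat_lit 7722) (nat_lit 13) (nat_lit 11))
    (@En.n l117 (nat_lit 4505) (nat_lit 6) (nat_lit 3))
    (@En.i (nat_lit 1815) (nat_lit 8) (nat_lit 11))
    (@En.n l3 (nat_lit 4506) (nat_lit 8) (nat_lit 2))
    (@En.i (nat_lit 4505) (nat_lit 10) (nat_lit 13))
    (@En.i (nat_lit 6420) (nat_lit 1) (nat_lit 14))
    (@En.n l17 (nat_lit 4506) (nat_lit 11) (nat_lit 2))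
    (@En.n l1347 (nat_lit 3096) (nat_lit 13) (nat_lit 7))
    (@En.n l5 (nat_lit 3112) (nat_lit 1) (nat_lit 14))
    (@En.i (nat_lit 4146) (nat_lit 5) (nat_lit 6))
    (@En.n l7 (nat_lit 4506) (nat_lit 15) (nat_lit 2))))
  (@Cl.mk (nat_lit 0x200090006000e00070002000d000d000700030003000c000a0009000e0004) (nat_lit 0x308000000093770) (nat_lit 16) Lb.e (@T16.mk En
    (@En.n l152 (nat_lit 4510) (nat_lit 5) (nat_lit 4))
    (@En.n l9976 (nat_lit 4094) (nat_lit 1) (nat_lit 14))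
    (@En.n l55 (nat_lit 4118) (nat_lit 2) (nat_lit 9))
    (@En.n l97 (nat_lit 5322) (nat_lit 3) (nat_lit 10))
    (@En.n l22466 (nat_lit 6537) (nat_lit 10) (nat_lit 12))
    (@En.n l5331 (nat_lit 4509) (nat_lit 13) (nat_lit 3))
    (@En.n l4296 (nat_lit 4508) (nat_lit 6) (nat_lit 3))
    (@En.n l24908 (nat_lit 5711) (nat_lit 0) (nat_lit 7))
    (@En.n l4007 (nat_lit 4508) (nat_lit 9) (nat_lit 13))
    (@En.n l24909 (nat_lit 12717) (nat_lit 10) (nat_lit 13))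
    (@En.n l7 (nat_lit 4507) (nat_lit 10) (nat_lit 2))
    (@En.n l24910 (nat_lit 3292) (nat_lit 12) (nat_lit 7))
    (@En.n l9940 (nat_lit 5920) (nat_lit 1) (nat_lit 14))
    (@En.n l9976 (nat_lit 5821) (nat_lit 14) (nat_lit 6))
    (@En.n l8258 (nat_lit 5886) (nat_lit 3) (nat_lit 9))
    (@En.n l3 (nat_lit 4507) (nat_lit 15) (nat_lit 2))))
  (@Cl.mk (nat_lit 0x2000a0006000e00070002000d0006000e00030002000c000a0009000e0004) (nat_lit 0x50800b0a0090760) (nat_lit 16) Lb.e (@T16.mk En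
    (@En.n l107 (nat_lit 4511) (nat_lit 10) (nat_lit 4))
    (@En.n l7630 (nat_lit 4093) (nat_lit 1) (nat_lit 14))
    (@En.n l55 (nat_lit 4119) (nat_lit 2) (nat_lit 9))
    (@En.i (nat_lit 5323) (nat_lit 3) (nat_lit 10))
    (@En.n l1106 (nat_lit 6539) (nat_lit 10) (nat_lit 12))
    (@En.n l17 (nat_lit 4508) (nat_lit 5) (nat_lit 2))
    (@En.n l117 (nat_lit 4507) (nat_lit 6) (nat_lit 3))
    (@En.n l7632 (nat_lit 12971) (nat_lit 0) (nat_lit 14))
    (@En.i (nat_lit 5806) (nat_lit 14) (nat_lit 6))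
    (@En.n l26883 (nat_lit 12718) (nat_lit 10) (nat_lit 13))
    (@En.n l7 (nat_lit 4508) (nat_lit 10) (nat_lit 2))
    (@En.n l26884 (nat_lit 3294) (nat_lit 12) (nat_lit 7))
    (@En.n l13146 (nat_lit 5923) (nat_lit 1) (nat_lit 14))
    (@En.n l117 (nat_lit 5824) (nat_lit 14) (nat_lit 6))
    (@En.n l7705 (nat_lit 5878) (nat_lit 3) (nat_lit 10))
    (@En.n l67 (nat_lit 4508) (nat_lit 15) (nat_lit 2))))
  (@Cl.mk (nat_lit 0x200080003000c000a0009000e0004000200080006000e00070002000e000d) (nat_lit 0x9376004080071) (nat_lit 16) Lb.e (@T16.mk En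
    (@En.n l649 (nat_lit 4507) (nat_lit 9) (nat_lit 13))
    (@En.i (nat_lit 8193) (nat_lit 1) (nat_lit 14))
    (@En.n l17 (nat_lit 4509) (nat_lit 2) (nat_lit 2))
    (@En.n l8320 (nat_lit 3297) (nat_lit 3) (nat_lit 7))
    (@En.n l8321 (nat_lit 5921) (nat_lit 5) (nat_lit 14))
    (@En.n l8322 (nat_lit 5823) (nat_lit 14) (nat_lit 6))
    (@En.n l9193 (nat_lit 7976) (nat_lit 6) (nat_lit 8))
    (@En.n l28 (nat_lit 4509) (nat_lit 7) (nat_lit 2))
    (@En.n l55 (nat_lit 4512) (nat_lit 8) (nat_lit 4))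
    (@En.n l8322 (nat_lit 4107) (nat_lit 10) (nat_lit 14))
    (@En.n l11310 (nat_lit 4111) (nat_lit 2) (nat_lit 9))
    (@En.n l9195 (nat_lit 5324) (nat_lit 3) (nat_lit 10))
    (@En.i (nat_lit 7713) (nat_lit 13) (nat_lit 12))
    (@En.n l2221 (nat_lit 4507) (nat_lit 5) (nat_lit 3))
    (@En.i (nat_lit 5001) (nat_lit 12) (nat_lit 8))
    (@En.n l3 (nat_lit 4509) (nat_lit 15) (nat_lit 2))))
  (@Cl.mk (nat_lit 0x2000d000d000700030003000c000c000b000a0004000400090005000e0006) (nat_lit 0x560006a08003030) (nat_lit 16) Lb.e (@T16.mk En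
    (@En.i (nat_lit 3296) (nat_lit 4) (nat_lit 6))
    (@En.n l134 (nat_lit 5875) (nat_lit 1) (nat_lit 14))
    (@En.i (nat_lit 5825) (nat_lit 2) (nat_lit 5))
    (@En.n l2869 (nat_lit 5887) (nat_lit 3) (nat_lit 9))
    (@En.n l8258 (nat_lit 4517) (nat_lit 12) (nat_lit 4))
    (@En.n l7630 (nat_lit 4513) (nat_lit 5) (nat_lit 4))
    (@En.n l39603 (nat_lit 3572) (nat_lit 0) (nat_lit 10))
    (@En.n l3522 (nat_lit 5334) (nat_lit 8) (nat_lit 11))
    (@En.i (nat_lit 4507) (nat_lit 4) (nat_lit 12))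
    (@En.i (nat_lit 6546) (nat_lit 10) (nat_lit 12))
    (@En.n l5331 (nat_lit 4512) (nat_lit 13) (nat_lit 3))
    (@En.n l18 (nat_lit 4511) (nat_lit 0) (nat_lit 3))
    (@En.n l2805 (nat_lit 5713) (nat_lit 0) (nat_lit 7))
    (@En.n l61 (nat_lit 4511) (nat_lit 3) (nat_lit 13))
    (@En.i (nat_lit 8543) (nat_lit 2) (nat_lit 13))
    (@En.n l7 (nat_lit 4510) (nat_lit 15) (nat_lit 2))))
  (@Cl.mk (nat_lit 0x2000c000c000b000a00040004000a0005000e00060002000d0006000e0003) (nat_lit 0x6a3800403005040) (nat_lit 16) Lb.e (@T16.mk En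
    (@En.i (nat_lit 4510) (nat_lit 11) (nat_lit 3))
    (@En.i (nat_lit 12968) (nat_lit 0) (nat_lit 14))
    (@En.i (nat_lit 5793) (nat_lit 14) (nat_lit 6))
    (@En.i (nat_lit 8542) (nat_lit 2) (nat_lit 13))
    (@En.n l7 (nat_lit 4511) (nat_lit 4) (nat_lit 2))
    (@En.i (nat_lit 3295) (nat_lit 5) (nat_lit 6))
    (@En.n l134 (nat_lit 5931) (nat_lit 1) (nat_lit 14))
    (@En.i (nat_lit 5826) (nat_lit 7) (nat_lit 5))
    (@En.n l476 (nat_lit 5877) (nat_lit 9) (nat_lit 10))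
    (@En.n l152 (nat_lit 5876) (nat_lit 12) (nat_lit 4))
    (@En.n l7630 (nat_lit 4514) (nat_lit 10) (nat_lit 4))
    (@En.n l55 (nat_lit 4115) (nat_lit 12) (nat_lit 10))
    (@En.n l619 (nat_lit 5335) (nat_lit 8) (nat_lit 11))
    (@En.n l97 (nat_lit 4508) (nat_lit 4) (nat_lit 12))
    (@En.i (nat_lit 6544) (nat_lit 10) (nat_lit 12))
    (@En.n l17 (nat_lit 4511) (nat_lit 15) (nat_lit 2))))
noncomputable def a282 : T16 Cl := @T16.mk Cl
  (@Cl.mk (nat_lit 0x200080003000c000c000b000a0004000400080005000e00060002000e000d) (nat_lit 0x6a08003070066) (nat_lit 16) Lb.e (@T16.mk En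
    (@En.n l649 (nat_lit 4510) (nat_lit 14) (nat_lit 13))
    (@En.i (nat_lit 8550) (nat_lit 1) (nat_lit 14))
    (@En.n l17 (nat_lit 4512) (nat_lit 2) (nat_lit 2))
    (@En.n l50 (nat_lit 3299) (nat_lit 3) (nat_lit 6))
    (@En.n l9760 (nat_lit 5918) (nat_lit 5) (nat_lit 14))
    (@En.n l50 (nat_lit 5827) (nat_lit 5) (nat_lit 5))
    (@En.n l287 (nat_lit 7978) (nat_lit 6) (nat_lit 8))
    (@En.n l55 (nat_lit 5863) (nat_lit 7) (nat_lit 4))
    (@En.i (nat_lit 4515) (nat_lit 8) (nat_lit 4))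
    (@En.n l9762 (nat_lit 3577) (nat_lit 10) (nat_lit 10))
    (@En.n l134 (nat_lit 5333) (nat_lit 11) (nat_lit 11))
    (@En.i (nat_lit 4509) (nat_lit 12) (nat_lit 12))
    (@En.i (nat_lit 7718) (nat_lit 13) (nat_lit 12))
    (@En.n l2221 (nat_lit 4510) (nat_lit 10) (nat_lit 3))
    (@En.i (nat_lit 5002) (nat_lit 12) (nat_lit 8))
    (@En.n l3 (nat_lit 4512) (nat_lit 15) (nat_lit 2))))
  (@Cl.mk (nat_lit 0x2000d000d000700030003000c0008000d000c0004000300090004000e0008) (nat_lit 0x66b4000041) (nat_lit 16) Lb.e (@T16.mk En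
    (@En.n l12632 (nat_lit 2955) (nat_lit 4) (nat_lit 8))
    (@En.n l1819 (nat_lit 6258) (nat_lit 1) (nat_lit 14))
    (@En.n l3503 (nat_lit 5325) (nat_lit 2) (nat_lit 4))
    (@En.n l20715 (nat_lit 7982) (nat_lit 3) (nat_lit 9))
    (@En.n l152 (nat_lit 2957) (nat_lit 4) (nat_lit 3))
    (@En.n l24618 (nat_lit 4507) (nat_lit 0) (nat_lit 4))
    (@En.n l14921 (nat_lit 5332) (nat_lit 7) (nat_lit 12))
    (@En.i (nat_lit 4096) (nat_lit 8) (nat_lit 13))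
    (@En.n l14384 (nat_lit 5405) (nat_lit 13) (nat_lit 8))
    (@En.i (nat_lit 11619) (nat_lit 10) (nat_lit 12))
    (@En.n l25073 (nat_lit 4515) (nat_lit 13) (nat_lit 3))
    (@En.n l18 (nat_lit 4514) (nat_lit 0) (nat_lit 3))
    (@En.n l25074 (nat_lit 5717) (nat_lit 0) (nat_lit 7))
    (@En.n l61 (nat_lit 4514) (nat_lit 3) (nat_lit 13))
    (@En.n l25075 (nat_lit 9091) (nat_lit 2) (nat_lit 13))
    (@En.n l7 (nat_lit 4513) (nat_lit 15) (nat_lit 2))))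
  (@Cl.mk (nat_lit 0x2000c0008000d000c00040003000a0004000e00080002000d0006000e0003) (nat_lit 0x76b80000410b030) (nat_lit 16) Lb.e (@T16.mk En
    (@En.i (nat_lit 4513) (nat_lit 11) (nat_lit 3))
    (@En.i (nat_lit 13300) (nat_lit 0) (nat_lit 14))
    (@En.i (nat_lit 5798) (nat_lit 14) (nat_lit 6))
    (@En.n l24839 (nat_lit 8605) (nat_lit 2) (nat_lit 13))
    (@En.n l7 (nat_lit 4514) (nat_lit 4) (nat_lit 2))
    (@En.n l12632 (nat_lit 2962) (nat_lit 5) (nat_lit 8))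
    (@En.n l1819 (nat_lit 6257) (nat_lit 1) (nat_lit 14))
    (@En.n l20299 (nat_lit 5326) (nat_lit 7) (nat_lit 4))
    (@En.n l10596 (nat_lit 12796) (nat_lit 3) (nat_lit 10))
    (@En.n l152 (nat_lit 5400) (nat_lit 4) (nat_lit 3))
    (@En.n l20299 (nat_lit 4508) (nat_lit 0) (nat_lit 4))
    (@En.n l619 (nat_lit 5336) (nat_lit 7) (nat_lit 12))
    (@En.i (nat_lit 4095) (nat_lit 8) (nat_lit 13))
    (@En.n l20299 (nat_lit 5407) (nat_lit 14) (nat_lit 8))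
    (@En.i (nat_lit 11618) (nat_lit 10) (nat_lit 12))
    (@En.n l17 (nat_lit 4514) (nat_lit 15) (nat_lit 2))))
  (@Cl.mk (nat_lit 0x200080003000c0008000d000c0004000300080004000e00080002000e000d) (nat_lit 0x96b8000021001) (nat_lit 16) Lb.e (@T16.mk En
    (@En.n l11662 (nat_lit 4513) (nat_lit 14) (nat_lit 13))
    (@En.n l11663 (nat_lit 8156) (nat_lit 1) (nat_lit 14))
    (@En.n l17 (nat_lit 4515) (nat_lit 2) (nat_lit 2))
    (@En.n l6981 (nat_lit 2961) (nat_lit 3) (nat_lit 8))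
    (@En.n l9760 (nat_lit 6260) (nat_lit 1) (nat_lit 14))
    (@En.n l10534 (nat_lit 5327) (nat_lit 5) (nat_lit 4))
    (@En.n l287 (nat_lit 7979) (nat_lit 6) (nat_lit 8))
    (@En.n l55 (nat_lit 5401) (nat_lit 7) (nat_lit 3))
    (@En.n l3506 (nat_lit 4509) (nat_lit 8) (nat_lit 4))
    (@En.n l828 (nat_lit 5331) (nat_lit 10) (nat_lit 12))
    (@En.n l10534 (nat_lit 4104) (nat_lit 11) (nat_lit 13))
    (@En.n l6981 (nat_lit 5408) (nat_lit 12) (nat_lit 8))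
    (@En.i (nat_lit 7720) (nat_lit 13) (nat_lit 12))
    (@En.n l11664 (nat_lit 4513) (nat_lit 10) (nat_lit 3))
    (@En.n l11665 (nat_lit 5005) (nat_lit 12) (nat_lit 8))
    (@En.n l3 (nat_lit 4515) (nat_lit 15) (nat_lit 2))))
  (@Cl.mk (nat_lit 0x2000d000d000700030003000d000c00090003000d000400090003000e0007) (nat_lit 0x6720500070) (nat_lit 16) Lb.e (@T16.mk En
    (@En.n l32572 (nat_lit 5570) (nat_lit 4) (nat_lit 7))
    (@En.n l5 (nat_lit 6264) (nat_lit 1) (nat_lit 14))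
    (@En.n l50 (nat_lit 5334) (nat_lit 2) (nat_lit 3))
    (@En.i (nat_lit 11060) (nat_lit 3) (nat_lit 9))
    (@En.n l3528 (nat_lit 4510) (nat_lit 4) (nat_lit 4))
    (@En.i (nat_lit 6087) (nat_lit 6) (nat_lit 13))
    (@En.n l11662 (nat_lit 2957) (nat_lit 6) (nat_lit 3))
    (@En.i (nat_lit 5639) (nat_lit 0) (nat_lit 9))
    (@En.n l11662 (nat_lit 4513) (nat_lit 9) (nat_lit 12))
    (@En.i (nat_lit 11625) (nat_lit 10) (nat_lit 13))
    (@En.n l152 (nat_lit 5862) (nat_lit 13) (nat_lit 3))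
    (@En.n l1865 (nat_lit 5343) (nat_lit 11) (nat_lit 3))
    (@En.n l97 (nat_lit 5718) (nat_lit 0) (nat_lit 7))
    (@En.n l1867 (nat_lit 5343) (nat_lit 14) (nat_lit 13))
    (@En.i (nat_lit 8548) (nat_lit 2) (nat_lit 13))
    (@En.n l17 (nat_lit 4516) (nat_lit 15) (nat_lit 2))))
  (@Cl.mk (nat_lit 0x2000c000b000400090004000e00050002000d000d000700030003000e000c) (nat_lit 0x410207004600067) (nat_lit 16) Lb.e (@T16.mk En
    (@En.n l649 (nat_lit 4510) (nat_lit 9) (nat_lit 12))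
    (@En.i (nat_lit 8022) (nat_lit 1) (nat_lit 14))
    (@En.n l152 (nat_lit 5863) (nat_lit 13) (nat_lit 3))
    (@En.n l1865 (nat_lit 5876) (nat_lit 3) (nat_lit 3))
    (@En.n l97 (nat_lit 5716) (nat_lit 0) (nat_lit 7))
    (@En.n l1867 (nat_lit 5876) (nat_lit 6) (nat_lit 13))
    (@En.i (nat_lit 8540) (nat_lit 7) (nat_lit 13))
    (@En.n l17 (nat_lit 4517) (nat_lit 7) (nat_lit 2))
    (@En.n l50 (nat_lit 4819) (nat_lit 8) (nat_lit 5))
    (@En.n l5 (nat_lit 5867) (nat_lit 1) (nat_lit 14))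
    (@En.n l50 (nat_lit 4671) (nat_lit 10) (nat_lit 4))
    (@En.i (nat_lit 2874) (nat_lit 3) (nat_lit 9))
    (@En.i (nat_lit 4516) (nat_lit 4) (nat_lit 4))
    (@En.n l217 (nat_lit 3576) (nat_lit 14) (nat_lit 11))
    (@En.i (nat_lit 6091) (nat_lit 7) (nat_lit 12))
    (@En.n l28 (nat_lit 4517) (nat_lit 15) (nat_lit 2))))
  (@Cl.mk (nat_lit 0x200080008000d000c00080003000b000400080008000c00050008000e0004) (nat_lit 0x64b120106170650) (nat_lit 16) Lb.e (@T16.mk En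
    (@En.n l117 (nat_lit 4521) (nat_lit 6) (nat_lit 4))
    (@En.n l3337 (nat_lit 2962) (nat_lit 1) (nat_lit 14))
    (@En.n l11828 (nat_lit 4675) (nat_lit 10) (nat_lit 8))
    (@En.n l2576 (nat_lit 8181) (nat_lit 3) (nat_lit 5))
    (@En.n l1599 (nat_lit 4245) (nat_lit 5) (nat_lit 12))
    (@En.n l77 (nat_lit 3417) (nat_lit 8) (nat_lit 8))
    (@En.i (nat_lit 7083) (nat_lit 6) (nat_lit 8))
    (@En.n l9182 (nat_lit 3373) (nat_lit 7) (nat_lit 4))
    (@En.n l14619 (nat_lit 3421) (nat_lit 9) (nat_lit 11))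
    (@En.n l2869 (nat_lit 4519) (nat_lit 9) (nat_lit 3))
    (@En.n l1599 (nat_lit 3178) (nat_lit 11) (nat_lit 8))
    (@En.n l7882 (nat_lit 3411) (nat_lit 12) (nat_lit 12))
    (@En.n l34768 (nat_lit 8096) (nat_lit 13) (nat_lit 13))
    (@En.n l42328 (nat_lit 3400) (nat_lit 14) (nat_lit 8))
    (@En.n l810 (nat_lit 4228) (nat_lit 4) (nat_lit 8))
    (@En.n l11 (nat_lit 4518) (nat_lit 15) (nat_lit 2))))
  (@Cl.mk (nat_lit 0x200080008000d0007000d0003000b000300080008000c00050009000e0004) (nat_lit 0x64a080006120550) (nat_lit 16) Lb.e (@T16.mk En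
    (@En.i (nat_lit 4520) (nat_lit 8) (nat_lit 4))
    (@En.n l476 (nat_lit 2953) (nat_lit 1) (nat_lit 14))
    (@En.i (nat_lit 4681) (nat_lit 2) (nat_lit 9))
    (@En.i (nat_lit 8182) (nat_lit 3) (nat_lit 5))
    (@En.i (nat_lit 4244) (nat_lit 5) (nat_lit 12))
    (@En.n l61 (nat_lit 3416) (nat_lit 8) (nat_lit 8))
    (@En.n l649 (nat_lit 7082) (nat_lit 6) (nat_lit 8))
    (@En.n l10969 (nat_lit 3411) (nat_lit 7) (nat_lit 3))
    (@En.i (nat_lit 12534) (nat_lit 0) (nat_lit 11))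
    (@En.n l1865 (nat_lit 4518) (nat_lit 9) (nat_lit 3))
    (@En.n l2038 (nat_lit 4486) (nat_lit 11) (nat_lit 13))
    (@En.i (nat_lit 3421) (nat_lit 12) (nat_lit 7))
    (@En.n l10971 (nat_lit 8095) (nat_lit 13) (nat_lit 13))
    (@En.n l22811 (nat_lit 3406) (nat_lit 14) (nat_lit 8))
    (@En.n l6042 (nat_lit 4230) (nat_lit 6) (nat_lit 8))
    (@En.n l50 (nat_lit 4519) (nat_lit 15) (nat_lit 2))))
  (@Cl.mk (nat_lit 0x300080008000c000c0006000a0004000400080008000d0006000d0003000a) (nat_lit 0x23070025a0702) (nat_lit 16) Lb.e (@T16.mk En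
    (@En.n l3525 (nat_lit 4530) (nat_lit 0) (nat_lit 10))
    (@En.n l9956 (nat_lit 4521) (nat_lit 15) (nat_lit 3))
    (@En.n l619 (nat_lit 4485) (nat_lit 0) (nat_lit 13))
    (@En.i (nat_lit 4523) (nat_lit 3) (nat_lit 6))
    (@En.n l10971 (nat_lit 9575) (nat_lit 2) (nat_lit 13))
    (@En.n l23262 (nat_lit 4591) (nat_lit 8) (nat_lit 8))
    (@En.n l23263 (nat_lit 4234) (nat_lit 11) (nat_lit 8))
    (@En.n l23264 (nat_lit 4531) (nat_lit 12) (nat_lit 4))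
    (@En.n l7 (nat_lit 10455) (nat_lit 8) (nat_lit 4))
    (@En.n l21159 (nat_lit 4679) (nat_lit 0) (nat_lit 10))
    (@En.n l9897 (nat_lit 10955) (nat_lit 1) (nat_lit 6))
    (@En.n l644 (nat_lit 4519) (nat_lit 4) (nat_lit 12))
    (@En.i (nat_lit 4300) (nat_lit 13) (nat_lit 12))
    (@En.n l61 (nat_lit 4701) (nat_lit 8) (nat_lit 8))
    (@En.n l3528 (nat_lit 7081) (nat_lit 13) (nat_lit 8))
    (@En.n l11022 (nat_lit 4522) (nat_lit 15) (nat_lit 3))))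
  (@Cl.mk (nat_lit 0x3000a000400080008000c000c000600090004000400080008000d000c0007) (nat_lit 0x200028000025400) (nat_lit 16) Lb.e (@T16.mk En
    (@En.n l1836 (nat_lit 3186) (nat_lit 0) (nat_lit 7))
    (@En.n l32740 (nat_lit 4522) (nat_lit 4) (nat_lit 12))
    (@En.n l6825 (nat_lit 8129) (nat_lit 2) (nat_lit 13))
    (@En.n l20882 (nat_lit 4590) (nat_lit 8) (nat_lit 8))
    (@En.n l21991 (nat_lit 4236) (nat_lit 11) (nat_lit 8))
    (@En.n l10623 (nat_lit 4552) (nat_lit 12) (nat_lit 4))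
    (@En.n l899 (nat_lit 4525) (nat_lit 0) (nat_lit 4))
    (@En.n l9591 (nat_lit 4674) (nat_lit 9) (nat_lit 9))
    (@En.n l32741 (nat_lit 10953) (nat_lit 1) (nat_lit 6))
    (@En.n l619 (nat_lit 4518) (nat_lit 4) (nat_lit 12))
    (@En.n l1836 (nat_lit 4302) (nat_lit 11) (nat_lit 12))
    (@En.n l77 (nat_lit 4700) (nat_lit 8) (nat_lit 8))
    (@En.i (nat_lit 7084) (nat_lit 11) (nat_lit 8))
    (@En.n l32742 (nat_lit 51) (nat_lit 6) (nat_lit 4))
    (@En.n l13800 (nat_lit 4523) (nat_lit 0) (nat_lit 10))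
    (@En.n l3522 (nat_lit 4520) (nat_lit 1) (nat_lit 3))))
  (@Cl.mk (nat_lit 0x300080008000c000c0007000a0004000400080008000c0006000d00090004) (nat_lit 0x23070043a0100) (nat_lit 16) Lb.e (@T16.mk En
    (@En.n l41158 (nat_lit 3373) (nat_lit 0) (nat_lit 4))
    (@En.n l36583 (nat_lit 4524) (nat_lit 0) (nat_lit 9))
    (@En.n l15753 (nat_lit 4483) (nat_lit 1) (nat_lit 13))
    (@En.n l3348 (nat_lit 4527) (nat_lit 3) (nat_lit 6))
    (@En.i (nat_lit 7397) (nat_lit 7) (nat_lit 12))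
    (@En.n l252 (nat_lit 4592) (nat_lit 8) (nat_lit 8))
    (@En.n l245 (nat_lit 4235) (nat_lit 11) (nat_lit 8))
    (@En.n l50 (nat_lit 4549) (nat_lit 12) (nat_lit 4))
    (@En.n l31255 (nat_lit 71) (nat_lit 0) (nat_lit 4))
    (@En.i (nat_lit 4680) (nat_lit 8) (nat_lit 10))
    (@En.n l28978 (nat_lit 10906) (nat_lit 1) (nat_lit 7))
    (@En.n l36582 (nat_lit 3411) (nat_lit 4) (nat_lit 12))
    (@En.n l2790 (nat_lit 4297) (nat_lit 13) (nat_lit 12))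
    (@En.n l2275 (nat_lit 4702) (nat_lit 8) (nat_lit 8))
    (@En.n l10159 (nat_lit 6869) (nat_lit 5) (nat_lit 8))
    (@En.n l15754 (nat_lit 4520) (nat_lit 15) (nat_lit 3))))
  (@Cl.mk (nat_lit 0x300070007000b000b0006000a000900050005000900090006000d0007000a) (nat_lit 0x2108100760901) (nat_lit 16) Lb.e (@T16.mk En
    (@En.n l3066 (nat_lit 14) (nat_lit 0) (nat_lit 10))
    (@En.n l22557 (nat_lit 3180) (nat_lit 2) (nat_lit 7))
    (@En.n l619 (nat_lit 4524) (nat_lit 2) (nat_lit 13))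
    (@En.n l23235 (nat_lit 9627) (nat_lit 3) (nat_lit 6))
    (@En.n l23262 (nat_lit 4589) (nat_lit 7) (nat_lit 9))
    (@En.n l23263 (nat_lit 4223) (nat_lit 10) (nat_lit 9))
    (@En.n l23264 (nat_lit 4551) (nat_lit 11) (nat_lit 5))
    (@En.n l23265 (nat_lit 11402) (nat_lit 7) (nat_lit 5))
    (@En.n l3528 (nat_lit 4521) (nat_lit 7) (nat_lit 9))
    (@En.n l23266 (nat_lit 3990) (nat_lit 9) (nat_lit 10))
    (@En.n l20296 (nat_lit 10954) (nat_lit 11) (nat_lit 6))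
    (@En.n l644 (nat_lit 3421) (nat_lit 5) (nat_lit 11))
    (@En.n l3471 (nat_lit 4223) (nat_lit 13) (nat_lit 11))
    (@En.n l61 (nat_lit 3422) (nat_lit 9) (nat_lit 7))
    (@En.n l1140 (nat_lit 7088) (nat_lit 12) (nat_lit 7))
    (@En.n l23267 (nat_lit 4527) (nat_lit 15) (nat_lit 3))))
  (@Cl.mk (nat_lit 0x3000a00070007000b000b00070006000a0005000500090009000d00060009) (nat_lit 0x100210080053807) (nat_lit 16) Lb.e (@T16.mk En
    (@En.n l23218 (nat_lit 4896) (nat_lit 9) (nat_lit 9))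
    (@En.n l9928 (nat_lit 4528) (nat_lit 11) (nat_lit 6))
    (@En.n l11022 (nat_lit 9583) (nat_lit 6) (nat_lit 13))
    (@En.n l23262 (nat_lit 3408) (nat_lit 7) (nat_lit 9))
    (@En.n l38824 (nat_lit 4219) (nat_lit 10) (nat_lit 9))
    (@En.n l38825 (nat_lit 4548) (nat_lit 11) (nat_lit 5))
    (@En.n l7 (nat_lit 10909) (nat_lit 6) (nat_lit 5))
    (@En.n l12541 (nat_lit 4522) (nat_lit 9) (nat_lit 10))
    (@En.i (nat_lit 4520) (nat_lit 10) (nat_lit 6))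
    (@En.n l38826 (nat_lit 10904) (nat_lit 2) (nat_lit 7))
    (@En.n l4380 (nat_lit 3407) (nat_lit 5) (nat_lit 11))
    (@En.i (nat_lit 4296) (nat_lit 12) (nat_lit 11))
    (@En.n l61 (nat_lit 4703) (nat_lit 9) (nat_lit 7))
    (@En.n l38827 (nat_lit 10012) (nat_lit 14) (nat_lit 7))
    (@En.n l38828 (nat_lit 37) (nat_lit 0) (nat_lit 10))
    (@En.n l21562 (nat_lit 4526) (nat_lit 15) (nat_lit 3))))
  (@Cl.mk (nat_lit 0x300080008000d000c000900030009000400080008000c0007000d00070004) (nat_lit 0xb1000023a0100) (nat_lit 16) Lb.e (@T16.mk En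
    (@En.n l2643 (nat_lit 4518) (nat_lit 0) (nat_lit 4))
    (@En.n l14256 (nat_lit 10956) (nat_lit 0) (nat_lit 7))
    (@En.n l4817 (nat_lit 2955) (nat_lit 1) (nat_lit 13))
    (@En.n l20340 (nat_lit 10346) (nat_lit 3) (nat_lit 7))
    (@En.n l18225 (nat_lit 10482) (nat_lit 11) (nat_lit 12))
    (@En.n l644 (nat_lit 4709) (nat_lit 8) (nat_lit 8))
    (@En.n l1003 (nat_lit 10461) (nat_lit 6) (nat_lit 8))
    (@En.n l18225 (nat_lit 4522) (nat_lit 7) (nat_lit 4))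
    (@En.n l2176 (nat_lit 11402) (nat_lit 0) (nat_lit 9))
    (@En.n l17017 (nat_lit 10455) (nat_lit 1) (nat_lit 3))
    (@En.n l18225 (nat_lit 9856) (nat_lit 0) (nat_lit 9))
    (@En.n l8766 (nat_lit 71) (nat_lit 4) (nat_lit 12))
    (@En.n l42629 (nat_lit 10431) (nat_lit 13) (nat_lit 13))
    (@En.n l42630 (nat_lit 4706) (nat_lit 8) (nat_lit 8))
    (@En.n l38746 (nat_lit 10622) (nat_lit 4) (nat_lit 8))
    (@En.n l4037 (nat_lit 10454) (nat_lit 13) (nat_lit 3))))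
  (@Cl.mk (nat_lit 0x3000a00070007000b000b0008000600090005000500090009000d00080007) (nat_lit 0x600291010076860) (nat_lit 16) Lb.e (@T16.mk En
    (@En.n l19908 (nat_lit 4972) (nat_lit 0) (nat_lit 7))
    (@En.n l28431 (nat_lit 4835) (nat_lit 11) (nat_lit 8))
    (@En.n l30876 (nat_lit 9411) (nat_lit 6) (nat_lit 13))
    (@En.n l4966 (nat_lit 4546) (nat_lit 7) (nat_lit 9))
    (@En.n l41199 (nat_lit 4220) (nat_lit 10) (nat_lit 9))
    (@En.n l41200 (nat_lit 4547) (nat_lit 11) (nat_lit 5))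
    (@En.n l29008 (nat_lit 10906) (nat_lit 6) (nat_lit 5))
    (@En.n l28434 (nat_lit 3373) (nat_lit 9) (nat_lit 9))
    (@En.n l936 (nat_lit 4521) (nat_lit 8) (nat_lit 6))
    (@En.n l41201 (nat_lit 70) (nat_lit 2) (nat_lit 8))
    (@En.n l2691 (nat_lit 3410) (nat_lit 5) (nat_lit 11))
    (@En.n l41202 (nat_lit 2837) (nat_lit 12) (nat_lit 11))
    (@En.n l77 (nat_lit 3425) (nat_lit 9) (nat_lit 7))
    (@En.i (nat_lit 10018) (nat_lit 14) (nat_lit 7))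
    (@En.n l20621 (nat_lit 4528) (nat_lit 8) (nat_lit 10))
    (@En.n l4189 (nat_lit 4524) (nat_lit 15) (nat_lit 3))))
  (@Cl.mk (nat_lit 0x300070007000b000b0007000a000800050005000900090006000d00090008) (nat_lit 0x2101100760966) (nat_lit 16) Lb.e (@T16.mk En
    (@En.n l32743 (nat_lit 4873) (nat_lit 0) (nat_lit 8))
    (@En.n l32744 (nat_lit 4528) (nat_lit 10) (nat_lit 9))
    (@En.n l32745 (nat_lit 4526) (nat_lit 2) (nat_lit 13))
    (@En.i (nat_lit 9623) (nat_lit 3) (nat_lit 6))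
    (@En.n l27259 (nat_lit 4588) (nat_lit 7) (nat_lit 9))
    (@En.n l26670 (nat_lit 4222) (nat_lit 5) (nat_lit 9))
    (@En.n l32746 (nat_lit 4553) (nat_lit 11) (nat_lit 5))
    (@En.n l18752 (nat_lit 11399) (nat_lit 7) (nat_lit 5))
    (@En.n l32747 (nat_lit 51) (nat_lit 0) (nat_lit 8))
    (@En.i (nat_lit 3995) (nat_lit 8) (nat_lit 10))
    (@En.n l25717 (nat_lit 4538) (nat_lit 11) (nat_lit 7))
    (@En.n l5581 (nat_lit 3423) (nat_lit 5) (nat_lit 11))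
    (@En.n l26668 (nat_lit 4225) (nat_lit 13) (nat_lit 11))
    (@En.n l32748 (nat_lit 3424) (nat_lit 9) (nat_lit 7))
    (@En.n l5582 (nat_lit 8143) (nat_lit 12) (nat_lit 7))
    (@En.n l32749 (nat_lit 4523) (nat_lit 15) (nat_lit 3))))
noncomputable def a283 : T16 Cl := @T16.mk Cl
  (@Cl.mk (nat_lit 0x60006000a000a000600090007000a00060006000a000a00070006000a0009) (nat_lit 0x27050500280022) (nat_lit 16) Lb.e (@T16.mk En
    (@En.n l17346 (nat_lit 4526) (nat_lit 7) (nat_lit 9))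
    (@En.n l38081 (nat_lit 4527) (nat_lit 9) (nat_lit 10))
    (@En.n l9880 (nat_lit 4523) (nat_lit 10) (nat_lit 6))
    (@En.n l476 (nat_lit 4536) (nat_lit 9) (nat_lit 7))
    (@En.n l152 (nat_lit 4532) (nat_lit 6) (nat_lit 10))
    (@En.n l117 (nat_lit 4226) (nat_lit 9) (nat_lit 10))
    (@En.n l575 (nat_lit 4535) (nat_lit 10) (nat_lit 6))
    (@En.n l8523 (nat_lit 9335) (nat_lit 0) (nat_lit 6))
    (@En.i (nat_lit 4530) (nat_lit 8) (nat_lit 10))
    (@En.n l38082 (nat_lit 4919) (nat_lit 9) (nat_lit 7))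
    (@En.i (nat_lit 4837) (nat_lit 9) (nat_lit 9))
    (@En.n l38083 (nat_lit 9622) (nat_lit 3) (nat_lit 6))
    (@En.n l11799 (nat_lit 4533) (nat_lit 6) (nat_lit 10))
    (@En.n l38084 (nat_lit 4221) (nat_lit 9) (nat_lit 10))
    (@En.n l5141 (nat_lit 4534) (nat_lit 10) (nat_lit 6))
    (@En.n l22573 (nat_lit 11398) (nat_lit 3) (nat_lit 6))))
  (@Cl.mk (nat_lit 0x2000a000a00070007000b000b00060006000a0005000500090009000e0006) (nat_lit 0x310089008001730) (nat_lit 16) Lb.e (@T16.mk En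
    (@En.n l3525 (nat_lit 37) (nat_lit 3) (nat_lit 6))
    (@En.n l7234 (nat_lit 10995) (nat_lit 1) (nat_lit 14))
    (@En.n l22667 (nat_lit 12536) (nat_lit 2) (nat_lit 9))
    (@En.n l22484 (nat_lit 3421) (nat_lit 3) (nat_lit 9))
    (@En.n l3644 (nat_lit 12534) (nat_lit 11) (nat_lit 5))
    (@En.n l7 (nat_lit 10115) (nat_lit 5) (nat_lit 5))
    (@En.n l117 (nat_lit 4520) (nat_lit 9) (nat_lit 10))
    (@En.n l575 (nat_lit 12532) (nat_lit 10) (nat_lit 6))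
    (@En.n l8268 (nat_lit 8014) (nat_lit 8) (nat_lit 6))
    (@En.n l11881 (nat_lit 12536) (nat_lit 5) (nat_lit 11))
    (@En.n l1353 (nat_lit 4589) (nat_lit 11) (nat_lit 11))
    (@En.n l61 (nat_lit 12535) (nat_lit 12) (nat_lit 7))
    (@En.n l4018 (nat_lit 8006) (nat_lit 13) (nat_lit 7))
    (@En.n l38250 (nat_lit 38) (nat_lit 6) (nat_lit 10))
    (@En.n l13015 (nat_lit 4528) (nat_lit 1) (nat_lit 10))
    (@En.n l3 (nat_lit 4529) (nat_lit 15) (nat_lit 2))))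
  (@Cl.mk (nat_lit 0x200070007000b000b0006000a000a000500050009000900060006000e000a) (nat_lit 0x46084001500b1) (nat_lit 16) Lb.e (@T16.mk En
    (@En.i (nat_lit 37) (nat_lit 1) (nat_lit 10))
    (@En.n l9952 (nat_lit 4964) (nat_lit 1) (nat_lit 14))
    (@En.n l9953 (nat_lit 14) (nat_lit 2) (nat_lit 6))
    (@En.n l9954 (nat_lit 8007) (nat_lit 3) (nat_lit 6))
    (@En.n l152 (nat_lit 12535) (nat_lit 7) (nat_lit 9))
    (@En.n l117 (nat_lit 3422) (nat_lit 5) (nat_lit 9))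
    (@En.n l575 (nat_lit 12528) (nat_lit 6) (nat_lit 5))
    (@En.n l9905 (nat_lit 8015) (nat_lit 7) (nat_lit 5))
    (@En.n l9955 (nat_lit 12532) (nat_lit 9) (nat_lit 10))
    (@En.i (nat_lit 3998) (nat_lit 10) (nat_lit 10))
    (@En.n l9956 (nat_lit 9934) (nat_lit 11) (nat_lit 6))
    (@En.n l9957 (nat_lit 12534) (nat_lit 12) (nat_lit 11))
    (@En.n l7088 (nat_lit 4551) (nat_lit 13) (nat_lit 11))
    (@En.n l3692 (nat_lit 12528) (nat_lit 9) (nat_lit 7))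
    (@En.n l9958 (nat_lit 11548) (nat_lit 13) (nat_lit 7))
    (@En.n l17 (nat_lit 4530) (nat_lit 15) (nat_lit 2))))
  (@Cl.mk (nat_lit 0x20007000b000400080008000d0005000d00030009000300080008000e000c) (nat_lit 0x40343000306093) (nat_lit 16) Lb.e (@T16.mk En
    (@En.n l10413 (nat_lit 4520) (nat_lit 12) (nat_lit 12))
    (@En.n l619 (nat_lit 3350) (nat_lit 1) (nat_lit 14))
    (@En.n l3261 (nat_lit 4704) (nat_lit 2) (nat_lit 8))
    (@En.n l9182 (nat_lit 7675) (nat_lit 3) (nat_lit 8))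
    (@En.n l17133 (nat_lit 4549) (nat_lit 4) (nat_lit 3))
    (@En.n l387 (nat_lit 12528) (nat_lit 0) (nat_lit 9))
    (@En.i (nat_lit 4552) (nat_lit 6) (nat_lit 3))
    (@En.n l7432 (nat_lit 5321) (nat_lit 0) (nat_lit 13))
    (@En.i (nat_lit 4551) (nat_lit 8) (nat_lit 5))
    (@En.n l22887 (nat_lit 9573) (nat_lit 10) (nat_lit 13))
    (@En.n l152 (nat_lit 3453) (nat_lit 11) (nat_lit 8))
    (@En.i (nat_lit 4354) (nat_lit 12) (nat_lit 8))
    (@En.i (nat_lit 10454) (nat_lit 5) (nat_lit 4))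
    (@En.n l617 (nat_lit 4682) (nat_lit 14) (nat_lit 11))
    (@En.i (nat_lit 11410) (nat_lit 1) (nat_lit 7))
    (@En.n l11 (nat_lit 4531) (nat_lit 15) (nat_lit 2))))
  (@Cl.mk (nat_lit 0x2000a000a0007000a0008000b00060006000a0006000500090008000e0006) (nat_lit 0x380659007001260) (nat_lit 16) Lb.e (@T16.mk En
    (@En.i (nat_lit 4528) (nat_lit 15) (nat_lit 6))
    (@En.n l8182 (nat_lit 7805) (nat_lit 1) (nat_lit 14))
    (@En.n l37934 (nat_lit 3410) (nat_lit 2) (nat_lit 8))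
    (@En.n l20142 (nat_lit 3423) (nat_lit 3) (nat_lit 9))
    (@En.n l9880 (nat_lit 3421) (nat_lit 4) (nat_lit 5))
    (@En.n l10348 (nat_lit 5262) (nat_lit 5) (nat_lit 6))
    (@En.n l117 (nat_lit 4230) (nat_lit 9) (nat_lit 10))
    (@En.n l575 (nat_lit 3420) (nat_lit 10) (nat_lit 6))
    (@En.n l8523 (nat_lit 8211) (nat_lit 8) (nat_lit 6))
    (@En.i (nat_lit 12535) (nat_lit 10) (nat_lit 11))
    (@En.n l8524 (nat_lit 4923) (nat_lit 11) (nat_lit 8))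
    (@En.i (nat_lit 4838) (nat_lit 8) (nat_lit 10))
    (@En.n l4018 (nat_lit 9624) (nat_lit 13) (nat_lit 7))
    (@En.n l40487 (nat_lit 3402) (nat_lit 14) (nat_lit 10))
    (@En.i (nat_lit 2831) (nat_lit 1) (nat_lit 10))
    (@En.n l3 (nat_lit 4532) (nat_lit 15) (nat_lit 2))))
  (@Cl.mk (nat_lit 0x2000a000a00080007000b000a00060006000a0005000800060009000e0006) (nat_lit 0x346003006040660) (nat_lit 16) Lb.e (@T16.mk En
    (@En.n l12625 (nat_lit 4528) (nat_lit 7) (nat_lit 6))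
    (@En.n l32767 (nat_lit 8994) (nat_lit 1) (nat_lit 14))
    (@En.n l810 (nat_lit 12534) (nat_lit 9) (nat_lit 9))
    (@En.n l32768 (nat_lit 4946) (nat_lit 3) (nat_lit 6))
    (@En.i (nat_lit 4839) (nat_lit 4) (nat_lit 8))
    (@En.n l16657 (nat_lit 11192) (nat_lit 5) (nat_lit 5))
    (@En.n l32769 (nat_lit 4304) (nat_lit 9) (nat_lit 10))
    (@En.n l61 (nat_lit 3452) (nat_lit 10) (nat_lit 6))
    (@En.n l3213 (nat_lit 11394) (nat_lit 8) (nat_lit 6))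
    (@En.n l32767 (nat_lit 4546) (nat_lit 10) (nat_lit 10))
    (@En.n l27456 (nat_lit 4588) (nat_lit 11) (nat_lit 11))
    (@En.n l5011 (nat_lit 4589) (nat_lit 12) (nat_lit 7))
    (@En.n l7408 (nat_lit 4539) (nat_lit 13) (nat_lit 8))
    (@En.n l32770 (nat_lit 3402) (nat_lit 6) (nat_lit 10))
    (@En.n l25085 (nat_lit 2831) (nat_lit 5) (nat_lit 10))
    (@En.n l50 (nat_lit 4533) (nat_lit 15) (nat_lit 2))))
  (@Cl.mk (nat_lit 0x200080007000b000a0006000a000a000500080006000900060006000e000a) (nat_lit 0x204501605050073) (nat_lit 16) Lb.e (@T16.mk En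
    (@En.n l13015 (nat_lit 4528) (nat_lit 5) (nat_lit 10))
    (@En.n l22908 (nat_lit 3345) (nat_lit 1) (nat_lit 14))
    (@En.n l22909 (nat_lit 4555) (nat_lit 10) (nat_lit 6))
    (@En.n l7 (nat_lit 9343) (nat_lit 3) (nat_lit 6))
    (@En.n l117 (nat_lit 12528) (nat_lit 4) (nat_lit 9))
    (@En.n l22666 (nat_lit 4921) (nat_lit 5) (nat_lit 6))
    (@En.i (nat_lit 5223) (nat_lit 6) (nat_lit 8))
    (@En.n l22910 (nat_lit 9854) (nat_lit 7) (nat_lit 5))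
    (@En.n l11881 (nat_lit 3452) (nat_lit 9) (nat_lit 10))
    (@En.i (nat_lit 4190) (nat_lit 10) (nat_lit 10))
    (@En.n l4018 (nat_lit 11477) (nat_lit 11) (nat_lit 6))
    (@En.n l10727 (nat_lit 4547) (nat_lit 12) (nat_lit 10))
    (@En.n l22666 (nat_lit 4553) (nat_lit 13) (nat_lit 11))
    (@En.n l7088 (nat_lit 4551) (nat_lit 14) (nat_lit 7))
    (@En.i (nat_lit 4537) (nat_lit 6) (nat_lit 8))
    (@En.n l17 (nat_lit 4534) (nat_lit 15) (nat_lit 2))))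
  (@Cl.mk (nat_lit 0x20007000a0008000b0006000a000a000600050009000800060006000e000a) (nat_lit 0x30907700130063) (nat_lit 16) Lb.e (@T16.mk En
    (@En.i (nat_lit 4528) (nat_lit 13) (nat_lit 10))
    (@En.n l619 (nat_lit 5080) (nat_lit 1) (nat_lit 14))
    (@En.n l22572 (nat_lit 4555) (nat_lit 2) (nat_lit 6))
    (@En.n l22573 (nat_lit 11492) (nat_lit 3) (nat_lit 6))
    (@En.n l17346 (nat_lit 3425) (nat_lit 4) (nat_lit 8))
    (@En.n l20142 (nat_lit 3424) (nat_lit 5) (nat_lit 9))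
    (@En.n l9880 (nat_lit 3422) (nat_lit 6) (nat_lit 5))
    (@En.n l476 (nat_lit 4540) (nat_lit 7) (nat_lit 6))
    (@En.n l152 (nat_lit 3420) (nat_lit 9) (nat_lit 10))
    (@En.n l9880 (nat_lit 4464) (nat_lit 10) (nat_lit 10))
    (@En.n l8523 (nat_lit 8139) (nat_lit 11) (nat_lit 6))
    (@En.i (nat_lit 12528) (nat_lit 7) (nat_lit 11))
    (@En.n l396 (nat_lit 4876) (nat_lit 13) (nat_lit 8))
    (@En.i (nat_lit 5229) (nat_lit 8) (nat_lit 10))
    (@En.n l3528 (nat_lit 9129) (nat_lit 13) (nat_lit 7))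
    (@En.n l11 (nat_lit 4535) (nat_lit 15) (nat_lit 2))))
  (@Cl.mk (nat_lit 0x50008000b00070007000b00070005000a00080005000b0009000900060009) (nat_lit 0x690060001011202) (nat_lit 16) Lb.e (@T16.mk En
    (@En.i (nat_lit 5241) (nat_lit 9) (nat_lit 9))
    (@En.n l12145 (nat_lit 4320) (nat_lit 1) (nat_lit 6))
    (@En.n l39341 (nat_lit 4539) (nat_lit 7) (nat_lit 9))
    (@En.n l39342 (nat_lit 4314) (nat_lit 7) (nat_lit 9))
    (@En.n l11028 (nat_lit 74) (nat_lit 2) (nat_lit 11))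
    (@En.n l39343 (nat_lit 11400) (nat_lit 3) (nat_lit 5))
    (@En.n l39344 (nat_lit 70) (nat_lit 0) (nat_lit 8))
    (@En.n l20142 (nat_lit 4538) (nat_lit 10) (nat_lit 10))
    (@En.n l39345 (nat_lit 11444) (nat_lit 11) (nat_lit 5))
    (@En.n l4503 (nat_lit 5245) (nat_lit 0) (nat_lit 7))
    (@En.n l39346 (nat_lit 10570) (nat_lit 8) (nat_lit 11))
    (@En.n l575 (nat_lit 4540) (nat_lit 9) (nat_lit 7))
    (@En.n l8523 (nat_lit 10378) (nat_lit 6) (nat_lit 7))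
    (@En.n l39346 (nat_lit 8007) (nat_lit 7) (nat_lit 11))
    (@En.i (nat_lit 4532) (nat_lit 10) (nat_lit 8))
    (@En.n l39347 (nat_lit 11443) (nat_lit 15) (nat_lit 5))))
  (@Cl.mk (nat_lit 0x50008000b0007000a000700070005000b00080006000b0009000500090009) (nat_lit 0x690000071012000) (nat_lit 16) Lb.e (@T16.mk En
    (@En.n l11881 (nat_lit 4543) (nat_lit 7) (nat_lit 9))
    (@En.i (nat_lit 10392) (nat_lit 10) (nat_lit 9))
    (@En.n l38465 (nat_lit 11478) (nat_lit 2) (nat_lit 5))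
    (@En.n l10727 (nat_lit 4538) (nat_lit 0) (nat_lit 9))
    (@En.n l38539 (nat_lit 60) (nat_lit 1) (nat_lit 11))
    (@En.n l22908 (nat_lit 10344) (nat_lit 2) (nat_lit 6))
    (@En.n l13022 (nat_lit 74) (nat_lit 6) (nat_lit 8))
    (@En.n l38540 (nat_lit 4536) (nat_lit 10) (nat_lit 11))
    (@En.n l38541 (nat_lit 9844) (nat_lit 11) (nat_lit 5))
    (@En.n l38542 (nat_lit 4542) (nat_lit 9) (nat_lit 7))
    (@En.n l38543 (nat_lit 10390) (nat_lit 1) (nat_lit 7))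
    (@En.n l117 (nat_lit 11500) (nat_lit 8) (nat_lit 10))
    (@En.n l38544 (nat_lit 4528) (nat_lit 9) (nat_lit 7))
    (@En.n l17889 (nat_lit 11223) (nat_lit 7) (nat_lit 11))
    (@En.n l13022 (nat_lit 5274) (nat_lit 10) (nat_lit 8))
    (@En.n l38545 (nat_lit 9842) (nat_lit 15) (nat_lit 5))))
  (@Cl.mk (nat_lit 0x400080008000c0007000a00070004000a000800080006000c000900060009) (nat_lit 0xa080011201301) (nat_lit 16) Lb.e (@T16.mk En
    (@En.i (nat_lit 3423) (nat_lit 9) (nat_lit 9))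
    (@En.n l25764 (nat_lit 10346) (nat_lit 1) (nat_lit 6))
    (@En.n l1112 (nat_lit 4536) (nat_lit 0) (nat_lit 9))
    (@En.n l4813 (nat_lit 70) (nat_lit 3) (nat_lit 12))
    (@En.n l35689 (nat_lit 4319) (nat_lit 4) (nat_lit 6))
    (@En.n l43025 (nat_lit 4545) (nat_lit 8) (nat_lit 8))
    (@En.n l35689 (nat_lit 4318) (nat_lit 6) (nat_lit 8))
    (@En.n l7866 (nat_lit 4537) (nat_lit 11) (nat_lit 10))
    (@En.n l16564 (nat_lit 11401) (nat_lit 8) (nat_lit 4))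
    (@En.n l43026 (nat_lit 4526) (nat_lit 0) (nat_lit 7))
    (@En.n l43027 (nat_lit 11220) (nat_lit 8) (nat_lit 10))
    (@En.n l43028 (nat_lit 5260) (nat_lit 12) (nat_lit 7))
    (@En.n l564 (nat_lit 8840) (nat_lit 7) (nat_lit 12))
    (@En.n l644 (nat_lit 4544) (nat_lit 8) (nat_lit 8))
    (@En.i (nat_lit 10377) (nat_lit 11) (nat_lit 8))
    (@En.n l32717 (nat_lit 10954) (nat_lit 15) (nat_lit 4))))
  (@Cl.mk (nat_lit 0x2000b00080006000b00090005000c00090005000800040007000a000e0007) (nat_lit 0x50020010000040) (nat_lit 16) Lb.e (@T16.mk En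
    (@En.n l39815 (nat_lit 4536) (nat_lit 12) (nat_lit 7))
    (@En.i (nat_lit 9595) (nat_lit 1) (nat_lit 14))
    (@En.i (nat_lit 8005) (nat_lit 8) (nat_lit 10))
    (@En.n l39816 (nat_lit 3402) (nat_lit 11) (nat_lit 7))
    (@En.n l31561 (nat_lit 11440) (nat_lit 4) (nat_lit 4))
    (@En.n l2038 (nat_lit 5211) (nat_lit 10) (nat_lit 8))
    (@En.n l17578 (nat_lit 10965) (nat_lit 6) (nat_lit 5))
    (@En.n l217 (nat_lit 4315) (nat_lit 8) (nat_lit 9))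
    (@En.n l23223 (nat_lit 4541) (nat_lit 9) (nat_lit 12))
    (@En.n l152 (nat_lit 11393) (nat_lit 9) (nat_lit 5))
    (@En.n l23574 (nat_lit 10902) (nat_lit 11) (nat_lit 9))
    (@En.n l39817 (nat_lit 4545) (nat_lit 12) (nat_lit 11))
    (@En.n l5588 (nat_lit 11620) (nat_lit 13) (nat_lit 6))
    (@En.n l2038 (nat_lit 4643) (nat_lit 14) (nat_lit 8))
    (@En.n l39818 (nat_lit 10565) (nat_lit 10) (nat_lit 11))
    (@En.n l17 (nat_lit 4539) (nat_lit 15) (nat_lit 2))))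
  (@Cl.mk (nat_lit 0x20007000a00060009000c0007000b00060004000900070005000a000e0009) (nat_lit 0x70100700000002) (nat_lit 16) Lb.e (@T16.mk En
    (@En.i (nat_lit 4536) (nat_lit 3) (nat_lit 9))
    (@En.n l13056 (nat_lit 6817) (nat_lit 1) (nat_lit 14))
    (@En.n l4851 (nat_lit 4541) (nat_lit 2) (nat_lit 10))
    (@En.n l3258 (nat_lit 11494) (nat_lit 3) (nat_lit 5))
    (@En.n l13056 (nat_lit 10902) (nat_lit 4) (nat_lit 7))
    (@En.n l20142 (nat_lit 4544) (nat_lit 5) (nat_lit 9))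
    (@En.n l9880 (nat_lit 11439) (nat_lit 6) (nat_lit 4))
    (@En.n l14798 (nat_lit 5208) (nat_lit 7) (nat_lit 6))
    (@En.n l28782 (nat_lit 6995) (nat_lit 9) (nat_lit 11))
    (@En.n l8523 (nat_lit 10373) (nat_lit 10) (nat_lit 7))
    (@En.n l2738 (nat_lit 12526) (nat_lit 6) (nat_lit 12))
    (@En.i (nat_lit 3420) (nat_lit 12) (nat_lit 9))
    (@En.n l37923 (nat_lit 11621) (nat_lit 13) (nat_lit 6))
    (@En.i (nat_lit 5233) (nat_lit 8) (nat_lit 10))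
    (@En.n l37924 (nat_lit 9654) (nat_lit 7) (nat_lit 7))
    (@En.n l11 (nat_lit 4540) (nat_lit 15) (nat_lit 2))))
  (@Cl.mk (nat_lit 0x2000600090006000c0009000c0008000400070004000a0007000a000e0008) (nat_lit 0x5002a600000851) (nat_lit 16) Lb.e (@T16.mk En
    (@En.n l17 (nat_lit 74) (nat_lit 1) (nat_lit 8))
    (@En.n l10072 (nat_lit 9593) (nat_lit 1) (nat_lit 14))
    (@En.n l9213 (nat_lit 11567) (nat_lit 2) (nat_lit 10))
    (@En.n l10072 (nat_lit 4539) (nat_lit 3) (nat_lit 7))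
    (@En.n l33624 (nat_lit 4543) (nat_lit 4) (nat_lit 10))
    (@En.n l31682 (nat_lit 11445) (nat_lit 5) (nat_lit 4))
    (@En.n l9213 (nat_lit 5207) (nat_lit 6) (nat_lit 7))
    (@En.n l11 (nat_lit 11496) (nat_lit 7) (nat_lit 4))
    (@En.n l28771 (nat_lit 10380) (nat_lit 0) (nat_lit 8))
    (@En.i (nat_lit 12382) (nat_lit 10) (nat_lit 12))
    (@En.n l12687 (nat_lit 4540) (nat_lit 11) (nat_lit 9))
    (@En.n l15973 (nat_lit 4542) (nat_lit 12) (nat_lit 12))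
    (@En.n l17 (nat_lit 11622) (nat_lit 13) (nat_lit 6))
    (@En.i (nat_lit 5276) (nat_lit 9) (nat_lit 9))
    (@En.n l1080 (nat_lit 9650) (nat_lit 13) (nat_lit 6))
    (@En.n l3 (nat_lit 4541) (nat_lit 15) (nat_lit 2))))
  (@Cl.mk (nat_lit 0x200060009000c0008000b00070004000b00070005000a00080005000e0009) (nat_lit 0x4a100080002001) (nat_lit 16) Lb.e (@T16.mk En
    (@En.n l20520 (nat_lit 4537) (nat_lit 1) (nat_lit 9))
    (@En.n l4659 (nat_lit 9592) (nat_lit 1) (nat_lit 14))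
    (@En.n l18413 (nat_lit 11481) (nat_lit 2) (nat_lit 5))
    (@En.n l22925 (nat_lit 4545) (nat_lit 3) (nat_lit 8))
    (@En.n l23885 (nat_lit 10342) (nat_lit 4) (nat_lit 10))
    (@En.n l23886 (nat_lit 10347) (nat_lit 5) (nat_lit 5))
    (@En.n l21885 (nat_lit 4541) (nat_lit 6) (nat_lit 7))
    (@En.n l23887 (nat_lit 4540) (nat_lit 8) (nat_lit 11))
    (@En.i (nat_lit 8561) (nat_lit 8) (nat_lit 4))
    (@En.n l18414 (nat_lit 10386) (nat_lit 10) (nat_lit 7))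
    (@En.n l18434 (nat_lit 11503) (nat_lit 11) (nat_lit 11))
    (@En.n l17552 (nat_lit 4535) (nat_lit 12) (nat_lit 8))
    (@En.n l1899 (nat_lit 12509) (nat_lit 6) (nat_lit 12))
    (@En.n l8631 (nat_lit 4641) (nat_lit 9) (nat_lit 9))
    (@En.i (nat_lit 9649) (nat_lit 13) (nat_lit 6))
    (@En.n l28 (nat_lit 4542) (nat_lit 15) (nat_lit 2))))
  (@Cl.mk (nat_lit 0x20006000b00090007000c000a0005000900040007000a00060009000e0007) (nat_lit 0x16002070080040) (nat_lit 16) Lb.e (@T16.mk En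
    (@En.n l2678 (nat_lit 4537) (nat_lit 10) (nat_lit 7))
    (@En.n l3815 (nat_lit 8993) (nat_lit 1) (nat_lit 14))
    (@En.n l810 (nat_lit 11570) (nat_lit 2) (nat_lit 9))
    (@En.n l617 (nat_lit 4533) (nat_lit 3) (nat_lit 6))
    (@En.n l5234 (nat_lit 11227) (nat_lit 4) (nat_lit 10))
    (@En.i (nat_lit 5206) (nat_lit 5) (nat_lit 7))
    (@En.n l36188 (nat_lit 11495) (nat_lit 6) (nat_lit 4))
    (@En.i (nat_lit 10381) (nat_lit 0) (nat_lit 9))
    (@En.n l8572 (nat_lit 11451) (nat_lit 8) (nat_lit 5))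
    (@En.n l8351 (nat_lit 4544) (nat_lit 10) (nat_lit 10))
    (@En.n l11106 (nat_lit 10342) (nat_lit 11) (nat_lit 12))
    (@En.n l5011 (nat_lit 10343) (nat_lit 12) (nat_lit 7))
    (@En.n l36189 (nat_lit 4541) (nat_lit 13) (nat_lit 9))
    (@En.n l7408 (nat_lit 4539) (nat_lit 14) (nat_lit 11))
    (@En.n l10039 (nat_lit 9651) (nat_lit 13) (nat_lit 6))
    (@En.n l50 (nat_lit 4543) (nat_lit 15) (nat_lit 2))))
noncomputable def a284 : T16 Cl := @T16.mk Cl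
  (@Cl.mk (nat_lit 0x20007000c000a0007000a00040008000c00060009000600040009000e0008) (nat_lit 0x8010680700102) (nat_lit 16) Lb.e (@T16.mk En
    (@En.i (nat_lit 4538) (nat_lit 6) (nat_lit 8))
    (@En.n l3333 (nat_lit 6815) (nat_lit 1) (nat_lit 14))
    (@En.n l13671 (nat_lit 4543) (nat_lit 2) (nat_lit 9))
    (@En.n l3072 (nat_lit 11493) (nat_lit 3) (nat_lit 4))
    (@En.n l3333 (nat_lit 4546) (nat_lit 4) (nat_lit 6))
    (@En.n l5588 (nat_lit 11228) (nat_lit 5) (nat_lit 9))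
    (@En.n l14529 (nat_lit 5205) (nat_lit 6) (nat_lit 6))
    (@En.n l10089 (nat_lit 7278) (nat_lit 8) (nat_lit 12))
    (@En.i (nat_lit 10375) (nat_lit 9) (nat_lit 8))
    (@En.n l38890 (nat_lit 11425) (nat_lit 9) (nat_lit 4))
    (@En.i (nat_lit 3419) (nat_lit 11) (nat_lit 10))
    (@En.n l7075 (nat_lit 10345) (nat_lit 12) (nat_lit 7))
    (@En.n l1112 (nat_lit 4540) (nat_lit 13) (nat_lit 10))
    (@En.n l4813 (nat_lit 10902) (nat_lit 14) (nat_lit 12))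
    (@En.i (nat_lit 9784) (nat_lit 4) (nat_lit 7))
    (@En.n l50 (nat_lit 4544) (nat_lit 15) (nat_lit 2))))
  (@Cl.mk (nat_lit 0x2000c0008000b00080004000b00080005000c0008000500080004000e0008) (nat_lit 0x59101109101001) (nat_lit 16) Lb.e (@T16.mk En
    (@En.n l29026 (nat_lit 4538) (nat_lit 14) (nat_lit 8))
    (@En.n l32727 (nat_lit 9594) (nat_lit 1) (nat_lit 14))
    (@En.n l32728 (nat_lit 11317) (nat_lit 2) (nat_lit 4))
    (@En.n l617 (nat_lit 3399) (nat_lit 10) (nat_lit 8))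
    (@En.n l9325 (nat_lit 10348) (nat_lit 4) (nat_lit 5))
    (@En.n l32729 (nat_lit 4539) (nat_lit 5) (nat_lit 8))
    (@En.n l29828 (nat_lit 10902) (nat_lit 7) (nat_lit 12))
    (@En.i (nat_lit 8560) (nat_lit 7) (nat_lit 5))
    (@En.n l764 (nat_lit 4317) (nat_lit 9) (nat_lit 8))
    (@En.n l5649 (nat_lit 4542) (nat_lit 10) (nat_lit 11))
    (@En.n l50 (nat_lit 11396) (nat_lit 10) (nat_lit 4))
    (@En.n l4132 (nat_lit 3425) (nat_lit 12) (nat_lit 8))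
    (@En.i (nat_lit 11222) (nat_lit 7) (nat_lit 11))
    (@En.i (nat_lit 4639) (nat_lit 14) (nat_lit 8))
    (@En.n l31224 (nat_lit 10566) (nat_lit 3) (nat_lit 12))
    (@En.n l28 (nat_lit 4545) (nat_lit 15) (nat_lit 2))))
  (@Cl.mk (nat_lit 0x2000b000b00090007000a000500050009000d0007000600030009000e0007) (nat_lit 0x320020057000780) (nat_lit 16) Lb.e (@T16.mk En
    (@En.n l28286 (nat_lit 4526) (nat_lit 13) (nat_lit 7))
    (@En.i (nat_lit 6712) (nat_lit 1) (nat_lit 14))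
    (@En.n l28287 (nat_lit 4533) (nat_lit 2) (nat_lit 9))
    (@En.n l28288 (nat_lit 3408) (nat_lit 3) (nat_lit 3))
    (@En.n l2040 (nat_lit 4950) (nat_lit 0) (nat_lit 6))
    (@En.n l28289 (nat_lit 4831) (nat_lit 5) (nat_lit 7))
    (@En.i (nat_lit 7304) (nat_lit 7) (nat_lit 13))
    (@En.n l2747 (nat_lit 4307) (nat_lit 3) (nat_lit 9))
    (@En.n l5584 (nat_lit 3448) (nat_lit 11) (nat_lit 5))
    (@En.n l152 (nat_lit 10905) (nat_lit 9) (nat_lit 5))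
    (@En.n l28290 (nat_lit 3390) (nat_lit 11) (nat_lit 10))
    (@En.n l1101 (nat_lit 4590) (nat_lit 12) (nat_lit 7))
    (@En.n l55 (nat_lit 10902) (nat_lit 13) (nat_lit 9))
    (@En.n l619 (nat_lit 3403) (nat_lit 5) (nat_lit 11))
    (@En.i (nat_lit 2826) (nat_lit 11) (nat_lit 11))
    (@En.n l17 (nat_lit 4546) (nat_lit 15) (nat_lit 2))))
  (@Cl.mk (nat_lit 0x200090007000a000500090009000d000700060003000900070007000e000b) (nat_lit 0x404066200060073) (nat_lit 16) Lb.e (@T16.mk En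
    (@En.n l32714 (nat_lit 4526) (nat_lit 11) (nat_lit 11))
    (@En.i (nat_lit 3347) (nat_lit 1) (nat_lit 14))
    (@En.n l32715 (nat_lit 4554) (nat_lit 2) (nat_lit 7))
    (@En.n l13093 (nat_lit 10019) (nat_lit 3) (nat_lit 7))
    (@En.n l7866 (nat_lit 4534) (nat_lit 4) (nat_lit 9))
    (@En.n l32716 (nat_lit 4548) (nat_lit 5) (nat_lit 3))
    (@En.n l3498 (nat_lit 4976) (nat_lit 0) (nat_lit 6))
    (@En.n l14529 (nat_lit 5221) (nat_lit 7) (nat_lit 7))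
    (@En.n l564 (nat_lit 9417) (nat_lit 9) (nat_lit 13))
    (@En.n l644 (nat_lit 3448) (nat_lit 10) (nat_lit 9))
    (@En.i (nat_lit 4192) (nat_lit 11) (nat_lit 9))
    (@En.n l32717 (nat_lit 10953) (nat_lit 5) (nat_lit 5))
    (@En.i (nat_lit 3394) (nat_lit 8) (nat_lit 10))
    (@En.n l7075 (nat_lit 4552) (nat_lit 14) (nat_lit 7))
    (@En.i (nat_lit 4538) (nat_lit 2) (nat_lit 9))
    (@En.n l17 (nat_lit 4547) (nat_lit 15) (nat_lit 2))))
  (@Cl.mk (nat_lit 0x200080007000b000500090009000d000500080003000900070007000e000b) (nat_lit 0x5046200060023) (nat_lit 16) Lb.e (@T16.mk En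
    (@En.n l23200 (nat_lit 4524) (nat_lit 11) (nat_lit 11))
    (@En.n l13550 (nat_lit 3307) (nat_lit 1) (nat_lit 14))
    (@En.n l23201 (nat_lit 4550) (nat_lit 2) (nat_lit 7))
    (@En.n l21122 (nat_lit 10614) (nat_lit 3) (nat_lit 7))
    (@En.n l23202 (nat_lit 4530) (nat_lit 4) (nat_lit 9))
    (@En.n l23203 (nat_lit 4547) (nat_lit 5) (nat_lit 3))
    (@En.n l23204 (nat_lit 4778) (nat_lit 10) (nat_lit 8))
    (@En.n l23205 (nat_lit 4534) (nat_lit 7) (nat_lit 5))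
    (@En.i (nat_lit 9579) (nat_lit 9) (nat_lit 13))
    (@En.n l23206 (nat_lit 3450) (nat_lit 10) (nat_lit 9))
    (@En.n l1203 (nat_lit 4194) (nat_lit 11) (nat_lit 9))
    (@En.n l23207 (nat_lit 10956) (nat_lit 5) (nat_lit 5))
    (@En.n l3 (nat_lit 4549) (nat_lit 13) (nat_lit 11))
    (@En.n l12001 (nat_lit 4531) (nat_lit 14) (nat_lit 7))
    (@En.n l2642 (nat_lit 11401) (nat_lit 2) (nat_lit 8))
    (@En.n l7 (nat_lit 4548) (nat_lit 15) (nat_lit 2))))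
  (@Cl.mk (nat_lit 0x20008000b000400080008000c0005000d00080004000300080008000e000c) (nat_lit 0x40342001006093) (nat_lit 16) Lb.e (@T16.mk En
    (@En.n l601 (nat_lit 4522) (nat_lit 12) (nat_lit 12))
    (@En.n l13550 (nat_lit 3348) (nat_lit 1) (nat_lit 14))
    (@En.n l23201 (nat_lit 4558) (nat_lit 2) (nat_lit 8))
    (@En.n l3328 (nat_lit 10613) (nat_lit 3) (nat_lit 8))
    (@En.n l22764 (nat_lit 4531) (nat_lit 4) (nat_lit 3))
    (@En.n l1203 (nat_lit 3394) (nat_lit 0) (nat_lit 4))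
    (@En.i (nat_lit 4548) (nat_lit 6) (nat_lit 8))
    (@En.n l5646 (nat_lit 5319) (nat_lit 8) (nat_lit 13))
    (@En.n l3098 (nat_lit 4553) (nat_lit 8) (nat_lit 5))
    (@En.i (nat_lit 9577) (nat_lit 10) (nat_lit 12))
    (@En.n l1722 (nat_lit 3449) (nat_lit 11) (nat_lit 8))
    (@En.n l1203 (nat_lit 4353) (nat_lit 12) (nat_lit 8))
    (@En.n l18289 (nat_lit 4525) (nat_lit 7) (nat_lit 4))
    (@En.i (nat_lit 4736) (nat_lit 7) (nat_lit 11))
    (@En.n l12001 (nat_lit 11399) (nat_lit 1) (nat_lit 8))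
    (@En.n l7 (nat_lit 4549) (nat_lit 15) (nat_lit 2))))
  (@Cl.mk (nat_lit 0x200070006000a0005000e00090002000d000600090003000a0007000e000b) (nat_lit 0x8015030101012) (nat_lit 16) Lb.e (@T16.mk En
    (@En.n l1119 (nat_lit 4703) (nat_lit 8) (nat_lit 11))
    (@En.n l1116 (nat_lit 2120) (nat_lit 1) (nat_lit 14))
    (@En.n l10551 (nat_lit 10011) (nat_lit 2) (nat_lit 7))
    (@En.n l18 (nat_lit 14) (nat_lit 3) (nat_lit 10))
    (@En.n l10552 (nat_lit 4554) (nat_lit 4) (nat_lit 3))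
    (@En.n l10553 (nat_lit 2115) (nat_lit 9) (nat_lit 9))
    (@En.n l10554 (nat_lit 4555) (nat_lit 14) (nat_lit 6))
    (@En.n l10555 (nat_lit 9582) (nat_lit 8) (nat_lit 13))
    (@En.n l28 (nat_lit 4550) (nat_lit 8) (nat_lit 2))
    (@En.n l10556 (nat_lit 4548) (nat_lit 10) (nat_lit 9))
    (@En.n l1395 (nat_lit 2121) (nat_lit 11) (nat_lit 14))
    (@En.n l3538 (nat_lit 11587) (nat_lit 2) (nat_lit 5))
    (@En.n l4038 (nat_lit 4558) (nat_lit 13) (nat_lit 10))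
    (@En.i (nat_lit 4704) (nat_lit 14) (nat_lit 6))
    (@En.n l10557 (nat_lit 11396) (nat_lit 5) (nat_lit 7))
    (@En.n l3 (nat_lit 4550) (nat_lit 15) (nat_lit 2))))
  (@Cl.mk (nat_lit 0x20007000b000a0005000900090005000d00060009000300070007000e000b) (nat_lit 0x30015030300083) (nat_lit 16) Lb.e (@T16.mk En
    (@En.n l10413 (nat_lit 4523) (nat_lit 12) (nat_lit 11))
    (@En.n l619 (nat_lit 3346) (nat_lit 1) (nat_lit 14))
    (@En.n l3261 (nat_lit 4557) (nat_lit 2) (nat_lit 7))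
    (@En.n l10414 (nat_lit 7676) (nat_lit 3) (nat_lit 7))
    (@En.n l10415 (nat_lit 4553) (nat_lit 4) (nat_lit 3))
    (@En.n l133 (nat_lit 12527) (nat_lit 0) (nat_lit 9))
    (@En.n l10416 (nat_lit 4962) (nat_lit 6) (nat_lit 6))
    (@En.n l10417 (nat_lit 4548) (nat_lit 8) (nat_lit 13))
    (@En.n l10418 (nat_lit 9855) (nat_lit 8) (nat_lit 5))
    (@En.n l152 (nat_lit 3451) (nat_lit 10) (nat_lit 9))
    (@En.n l1501 (nat_lit 4186) (nat_lit 11) (nat_lit 9))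
    (@En.n l10419 (nat_lit 11466) (nat_lit 6) (nat_lit 5))
    (@En.n l644 (nat_lit 4552) (nat_lit 13) (nat_lit 10))
    (@En.n l617 (nat_lit 4882) (nat_lit 14) (nat_lit 11))
    (@En.i (nat_lit 11479) (nat_lit 10) (nat_lit 7))
    (@En.n l11 (nat_lit 4551) (nat_lit 15) (nat_lit 2))))
  (@Cl.mk (nat_lit 0x20007000a000400080008000d000c000600030009000400080008000e000c) (nat_lit 0x80143300406093) (nat_lit 16) Lb.e (@T16.mk En
    (@En.n l23861 (nat_lit 4521) (nat_lit 10) (nat_lit 12))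
    (@En.n l619 (nat_lit 3349) (nat_lit 1) (nat_lit 14))
    (@En.n l23862 (nat_lit 4559) (nat_lit 2) (nat_lit 8))
    (@En.n l23863 (nat_lit 7093) (nat_lit 3) (nat_lit 8))
    (@En.n l3348 (nat_lit 3370) (nat_lit 4) (nat_lit 4))
    (@En.n l612 (nat_lit 4551) (nat_lit 5) (nat_lit 9))
    (@En.n l50 (nat_lit 4531) (nat_lit 6) (nat_lit 3))
    (@En.n l14732 (nat_lit 5050) (nat_lit 7) (nat_lit 6))
    (@En.n l23864 (nat_lit 4549) (nat_lit 9) (nat_lit 12))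
    (@En.n l23863 (nat_lit 9572) (nat_lit 10) (nat_lit 13))
    (@En.n l152 (nat_lit 3447) (nat_lit 11) (nat_lit 8))
    (@En.n l3348 (nat_lit 3970) (nat_lit 12) (nat_lit 8))
    (@En.n l23865 (nat_lit 61) (nat_lit 5) (nat_lit 4))
    (@En.n l23863 (nat_lit 4673) (nat_lit 8) (nat_lit 10))
    (@En.i (nat_lit 11476) (nat_lit 1) (nat_lit 7))
    (@En.n l11 (nat_lit 4552) (nat_lit 15) (nat_lit 2))))
  (@Cl.mk (nat_lit 0x20008000b00090005000900090005000d00080007000300070007000e000b) (nat_lit 0x134015036000083) (nat_lit 16) Lb.e (@T16.mk En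
    (@En.n l23853 (nat_lit 4527) (nat_lit 12) (nat_lit 11))
    (@En.n l19992 (nat_lit 3344) (nat_lit 1) (nat_lit 14))
    (@En.n l23392 (nat_lit 4556) (nat_lit 9) (nat_lit 7))
    (@En.n l14301 (nat_lit 8142) (nat_lit 3) (nat_lit 7))
    (@En.n l23854 (nat_lit 4551) (nat_lit 4) (nat_lit 3))
    (@En.i (nat_lit 4940) (nat_lit 0) (nat_lit 7))
    (@En.n l23855 (nat_lit 4534) (nat_lit 6) (nat_lit 8))
    (@En.n l23856 (nat_lit 4547) (nat_lit 8) (nat_lit 13))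
    (@En.n l22098 (nat_lit 9853) (nat_lit 8) (nat_lit 5))
    (@En.n l23857 (nat_lit 3446) (nat_lit 10) (nat_lit 9))
    (@En.n l23858 (nat_lit 4189) (nat_lit 11) (nat_lit 9))
    (@En.n l11267 (nat_lit 11476) (nat_lit 6) (nat_lit 5))
    (@En.n l23859 (nat_lit 3370) (nat_lit 13) (nat_lit 9))
    (@En.n l3851 (nat_lit 4883) (nat_lit 7) (nat_lit 11))
    (@En.n l23860 (nat_lit 60) (nat_lit 2) (nat_lit 8))
    (@En.n l18 (nat_lit 4553) (nat_lit 15) (nat_lit 2))))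
  (@Cl.mk (nat_lit 0x20008000600090005000e00090002000d000800070003000a0007000e000b) (nat_lit 0x204047035007061) (nat_lit 16) Lb.e (@T16.mk En
    (@En.n l68 (nat_lit 3425) (nat_lit 8) (nat_lit 11))
    (@En.n l7630 (nat_lit 4560) (nat_lit 1) (nat_lit 14))
    (@En.i (nat_lit 10016) (nat_lit 2) (nat_lit 7))
    (@En.i (nat_lit 4555) (nat_lit 11) (nat_lit 10))
    (@En.n l2316 (nat_lit 4550) (nat_lit 4) (nat_lit 3))
    (@En.n l17150 (nat_lit 4977) (nat_lit 0) (nat_lit 7))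
    (@En.i (nat_lit 5224) (nat_lit 14) (nat_lit 8))
    (@En.n l7628 (nat_lit 9415) (nat_lit 8) (nat_lit 13))
    (@En.n l7 (nat_lit 4554) (nat_lit 8) (nat_lit 2))
    (@En.n l17151 (nat_lit 4547) (nat_lit 10) (nat_lit 9))
    (@En.n l255 (nat_lit 4212) (nat_lit 11) (nat_lit 14))
    (@En.i (nat_lit 10957) (nat_lit 2) (nat_lit 5))
    (@En.i (nat_lit 3398) (nat_lit 9) (nat_lit 9))
    (@En.n l3015 (nat_lit 4559) (nat_lit 14) (nat_lit 6))
    (@En.n l13224 (nat_lit 4545) (nat_lit 5) (nat_lit 8))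
    (@En.n l67 (nat_lit 4554) (nat_lit 15) (nat_lit 2))))
  (@Cl.mk (nat_lit 0x2000600090007000a0006000e000a000200070006000a00090006000e000a) (nat_lit 0x60605800005062) (nat_lit 16) Lb.e (@T16.mk En
    (@En.n l10443 (nat_lit 4534) (nat_lit 9) (nat_lit 10))
    (@En.n l10444 (nat_lit 4213) (nat_lit 10) (nat_lit 14))
    (@En.n l932 (nat_lit 11480) (nat_lit 2) (nat_lit 6))
    (@En.n l17 (nat_lit 4554) (nat_lit 12) (nat_lit 9))
    (@En.n l6787 (nat_lit 4556) (nat_lit 4) (nat_lit 10))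
    (@En.n l267 (nat_lit 4557) (nat_lit 14) (nat_lit 6))
    (@En.n l10445 (nat_lit 4542) (nat_lit 6) (nat_lit 7))
    (@En.n l67 (nat_lit 4555) (nat_lit 7) (nat_lit 2))
    (@En.n l10446 (nat_lit 4535) (nat_lit 9) (nat_lit 10))
    (@En.n l7630 (nat_lit 4475) (nat_lit 10) (nat_lit 14))
    (@En.n l10447 (nat_lit 8136) (nat_lit 2) (nat_lit 6))
    (@En.n l932 (nat_lit 12527) (nat_lit 3) (nat_lit 10))
    (@En.n l10448 (nat_lit 4880) (nat_lit 13) (nat_lit 7))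
    (@En.n l926 (nat_lit 5226) (nat_lit 5) (nat_lit 9))
    (@En.n l10449 (nat_lit 11530) (nat_lit 6) (nat_lit 6))
    (@En.n l7 (nat_lit 4555) (nat_lit 15) (nat_lit 2))))
  (@Cl.mk (nat_lit 0x20006000d0009000800030007000e000b00020007000a00080005000e0009) (nat_lit 0x47000610083052) (nat_lit 16) Lb.e (@T16.mk En
    (@En.n l10619 (nat_lit 4553) (nat_lit 10) (nat_lit 9))
    (@En.n l763 (nat_lit 4214) (nat_lit 11) (nat_lit 14))
    (@En.i (nat_lit 11419) (nat_lit 2) (nat_lit 5))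
    (@En.n l10620 (nat_lit 3395) (nat_lit 13) (nat_lit 8))
    (@En.i (nat_lit 4886) (nat_lit 4) (nat_lit 10))
    (@En.n l847 (nat_lit 10342) (nat_lit 5) (nat_lit 7))
    (@En.n l50 (nat_lit 4556) (nat_lit 6) (nat_lit 2))
    (@En.n l2301 (nat_lit 3424) (nat_lit 8) (nat_lit 11))
    (@En.n l2544 (nat_lit 4473) (nat_lit 9) (nat_lit 14))
    (@En.n l3311 (nat_lit 8135) (nat_lit 2) (nat_lit 7))
    (@En.n l1565 (nat_lit 4557) (nat_lit 3) (nat_lit 3))
    (@En.n l10619 (nat_lit 4872) (nat_lit 0) (nat_lit 8))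
    (@En.n l4133 (nat_lit 4555) (nat_lit 13) (nat_lit 9))
    (@En.n l6670 (nat_lit 4554) (nat_lit 7) (nat_lit 13))
    (@En.i (nat_lit 8633) (nat_lit 7) (nat_lit 6))
    (@En.n l3 (nat_lit 4556) (nat_lit 15) (nat_lit 2))))
  (@Cl.mk (nat_lit 0x20006000a00090005000e000900020006000d0007000a00030007000e000b) (nat_lit 0x87042004010061) (nat_lit 16) Lb.e (@T16.mk En
    (@En.n l1119 (nat_lit 3422) (nat_lit 8) (nat_lit 11))
    (@En.n l1116 (nat_lit 4474) (nat_lit 9) (nat_lit 14))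
    (@En.n l3701 (nat_lit 8155) (nat_lit 2) (nat_lit 7))
    (@En.n l451 (nat_lit 4556) (nat_lit 10) (nat_lit 3))
    (@En.i (nat_lit 4) (nat_lit 0) (nat_lit 10))
    (@En.n l682 (nat_lit 5040) (nat_lit 5) (nat_lit 7))
    (@En.n l3777 (nat_lit 4550) (nat_lit 7) (nat_lit 13))
    (@En.n l3778 (nat_lit 8630) (nat_lit 7) (nat_lit 6))
    (@En.n l28 (nat_lit 4557) (nat_lit 8) (nat_lit 2))
    (@En.n l982 (nat_lit 4551) (nat_lit 10) (nat_lit 9))
    (@En.n l1395 (nat_lit 4215) (nat_lit 11) (nat_lit 14))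
    (@En.n l79 (nat_lit 11487) (nat_lit 2) (nat_lit 5))
    (@En.n l1243 (nat_lit 4559) (nat_lit 13) (nat_lit 9))
    (@En.n l79 (nat_lit 4885) (nat_lit 4) (nat_lit 10))
    (@En.i (nat_lit 11458) (nat_lit 5) (nat_lit 6))
    (@En.n l3 (nat_lit 4557) (nat_lit 15) (nat_lit 2))))
  (@Cl.mk (nat_lit 0x20007000a0004000e00080002000c0006000d0009000400030008000e000c) (nat_lit 0x70340000200672) (nat_lit 16) Lb.e (@T16.mk En
    (@En.n l1119 (nat_lit 4702) (nat_lit 7) (nat_lit 12))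
    (@En.n l1116 (nat_lit 4561) (nat_lit 1) (nat_lit 14))
    (@En.n l7406 (nat_lit 10611) (nat_lit 2) (nat_lit 8))
    (@En.n l18 (nat_lit 4704) (nat_lit 3) (nat_lit 3))
    (@En.n l2809 (nat_lit 3398) (nat_lit 0) (nat_lit 4))
    (@En.i (nat_lit 4550) (nat_lit 5) (nat_lit 9))
    (@En.n l4315 (nat_lit 5322) (nat_lit 7) (nat_lit 13))
    (@En.n l451 (nat_lit 4556) (nat_lit 14) (nat_lit 6))
    (@En.n l10556 (nat_lit 9580) (nat_lit 9) (nat_lit 12))
    (@En.n l28 (nat_lit 4558) (nat_lit 9) (nat_lit 2))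
    (@En.n l10556 (nat_lit 4549) (nat_lit 11) (nat_lit 8))
    (@En.n l1543 (nat_lit 4217) (nat_lit 12) (nat_lit 14))
    (@En.n l117 (nat_lit 4706) (nat_lit 2) (nat_lit 4))
    (@En.n l1543 (nat_lit 4788) (nat_lit 8) (nat_lit 10))
    (@En.i (nat_lit 11395) (nat_lit 4) (nat_lit 7))
    (@En.n l3 (nat_lit 4558) (nat_lit 15) (nat_lit 2))))
  (@Cl.mk (nat_lit 0x2000600090004000e00080002000d000c00070003000a00040008000e000c) (nat_lit 0x60320010020672) (nat_lit 16) Lb.e (@T16.mk En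
    (@En.n l1144 (nat_lit 4700) (nat_lit 7) (nat_lit 12))
    (@En.n l6633 (nat_lit 4563) (nat_lit 1) (nat_lit 14))
    (@En.i (nat_lit 8157) (nat_lit 2) (nat_lit 8))
    (@En.n l10621 (nat_lit 3395) (nat_lit 3) (nat_lit 4))
    (@En.n l1150 (nat_lit 4557) (nat_lit 4) (nat_lit 10))
    (@En.n l1154 (nat_lit 4704) (nat_lit 5) (nat_lit 3))
    (@En.n l4489 (nat_lit 5041) (nat_lit 6) (nat_lit 7))
    (@En.n l10622 (nat_lit 4558) (nat_lit 8) (nat_lit 12))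
    (@En.n l7126 (nat_lit 8123) (nat_lit 9) (nat_lit 13))
    (@En.n l7 (nat_lit 4559) (nat_lit 9) (nat_lit 2))
    (@En.n l10623 (nat_lit 4552) (nat_lit 11) (nat_lit 8))
    (@En.n l2262 (nat_lit 4216) (nat_lit 12) (nat_lit 14))
    (@En.n l11 (nat_lit 4707) (nat_lit 2) (nat_lit 4))
    (@En.n l4489 (nat_lit 4785) (nat_lit 9) (nat_lit 9))
    (@En.n l10624 (nat_lit 11456) (nat_lit 4) (nat_lit 6))
    (@En.n l1157 (nat_lit 4559) (nat_lit 15) (nat_lit 2))))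
noncomputable def a285 : T16 Cl := @T16.mk Cl
  (@Cl.mk (nat_lit 0x2000a0008000600090006000e00060002000d000800070003000a000e000a) (nat_lit 0x460607004100656) (nat_lit 16) Lb.e (@T16.mk En
    (@En.n l68 (nat_lit 4468) (nat_lit 9) (nat_lit 10))
    (@En.n l22592 (nat_lit 7940) (nat_lit 10) (nat_lit 14))
    (@En.i (nat_lit 4475) (nat_lit 11) (nat_lit 10))
    (@En.n l3503 (nat_lit 2120) (nat_lit 3) (nat_lit 3))
    (@En.n l24337 (nat_lit 1700) (nat_lit 4) (nat_lit 7))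
    (@En.n l9718 (nat_lit 1976) (nat_lit 14) (nat_lit 8))
    (@En.n l3501 (nat_lit 11499) (nat_lit 7) (nat_lit 13))
    (@En.n l7 (nat_lit 4560) (nat_lit 7) (nat_lit 2))
    (@En.n l28 (nat_lit 4567) (nat_lit 8) (nat_lit 6))
    (@En.n l645 (nat_lit 3403) (nat_lit 1) (nat_lit 14))
    (@En.i (nat_lit 10223) (nat_lit 2) (nat_lit 6))
    (@En.i (nat_lit 2920) (nat_lit 12) (nat_lit 9))
    (@En.n l17576 (nat_lit 4563) (nat_lit 13) (nat_lit 6))
    (@En.n l9718 (nat_lit 8552) (nat_lit 14) (nat_lit 8))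
    (@En.n l32708 (nat_lit 2837) (nat_lit 11) (nat_lit 10))
    (@En.n l67 (nat_lit 4560) (nat_lit 15) (nat_lit 2))))
  (@Cl.mk (nat_lit 0x2000b0007000a0005000e00050002000c0006000d000900040003000e000b) (nat_lit 0x304050040740067) (nat_lit 16) Lb.e (@T16.mk En
    (@En.n l31461 (nat_lit 4471) (nat_lit 8) (nat_lit 11))
    (@En.n l9938 (nat_lit 7939) (nat_lit 1) (nat_lit 14))
    (@En.n l11 (nat_lit 4562) (nat_lit 2) (nat_lit 3))
    (@En.n l31462 (nat_lit 2920) (nat_lit 3) (nat_lit 4))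
    (@En.i (nat_lit 2120) (nat_lit 4) (nat_lit 9))
    (@En.n l1144 (nat_lit 4092) (nat_lit 6) (nat_lit 13))
    (@En.n l10595 (nat_lit 4473) (nat_lit 14) (nat_lit 6))
    (@En.n l2385 (nat_lit 8560) (nat_lit 8) (nat_lit 12))
    (@En.n l17 (nat_lit 4561) (nat_lit 8) (nat_lit 2))
    (@En.n l10592 (nat_lit 4566) (nat_lit 9) (nat_lit 5))
    (@En.n l2385 (nat_lit 3405) (nat_lit 1) (nat_lit 14))
    (@En.n l31463 (nat_lit 7774) (nat_lit 2) (nat_lit 5))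
    (@En.n l2385 (nat_lit 2682) (nat_lit 8) (nat_lit 10))
    (@En.n l4477 (nat_lit 7480) (nat_lit 14) (nat_lit 7))
    (@En.n l9888 (nat_lit 4297) (nat_lit 12) (nat_lit 11))
    (@En.n l7 (nat_lit 4561) (nat_lit 15) (nat_lit 2))))
  (@Cl.mk (nat_lit 0x2000b0006000a0005000e00050002000d0006000d0003000a0003000e000b) (nat_lit 0x303050040708069) (nat_lit 16) Lb.e (@T16.mk En
    (@En.n l644 (nat_lit 4472) (nat_lit 8) (nat_lit 11))
    (@En.n l3528 (nat_lit 11505) (nat_lit 1) (nat_lit 14))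
    (@En.i (nat_lit 4561) (nat_lit 2) (nat_lit 3))
    (@En.i (nat_lit 4894) (nat_lit 11) (nat_lit 10))
    (@En.i (nat_lit 4563) (nat_lit 4) (nat_lit 3))
    (@En.n l619 (nat_lit 4476) (nat_lit 0) (nat_lit 13))
    (@En.i (nat_lit 4474) (nat_lit 14) (nat_lit 6))
    (@En.i (nat_lit 11155) (nat_lit 8) (nat_lit 13))
    (@En.n l17 (nat_lit 4562) (nat_lit 8) (nat_lit 2))
    (@En.n l10592 (nat_lit 4564) (nat_lit 9) (nat_lit 5))
    (@En.n l181 (nat_lit 3406) (nat_lit 1) (nat_lit 14))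
    (@En.i (nat_lit 7773) (nat_lit 2) (nat_lit 5))
    (@En.n l4476 (nat_lit 2677) (nat_lit 3) (nat_lit 10))
    (@En.n l4477 (nat_lit 11221) (nat_lit 14) (nat_lit 6))
    (@En.n l11391 (nat_lit 4300) (nat_lit 12) (nat_lit 11))
    (@En.n l7 (nat_lit 4562) (nat_lit 15) (nat_lit 2))))
  (@Cl.mk (nat_lit 0x2000b000600090005000e00050002000d000c00070003000a0004000e000b) (nat_lit 0x304050055002068) (nat_lit 16) Lb.e (@T16.mk En
    (@En.n l644 (nat_lit 4470) (nat_lit 8) (nat_lit 11))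
    (@En.n l9956 (nat_lit 11504) (nat_lit 1) (nat_lit 14))
    (@En.n l19790 (nat_lit 2913) (nat_lit 2) (nat_lit 4))
    (@En.n l117 (nat_lit 4474) (nat_lit 11) (nat_lit 10))
    (@En.n l107 (nat_lit 4562) (nat_lit 4) (nat_lit 3))
    (@En.n l13608 (nat_lit 1905) (nat_lit 5) (nat_lit 7))
    (@En.n l575 (nat_lit 4561) (nat_lit 7) (nat_lit 12))
    (@En.n l10536 (nat_lit 11156) (nat_lit 8) (nat_lit 13))
    (@En.n l17 (nat_lit 4563) (nat_lit 8) (nat_lit 2))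
    (@En.n l10592 (nat_lit 4565) (nat_lit 9) (nat_lit 5))
    (@En.n l22973 (nat_lit 3400) (nat_lit 1) (nat_lit 14))
    (@En.n l6564 (nat_lit 7771) (nat_lit 2) (nat_lit 5))
    (@En.n l4476 (nat_lit 4089) (nat_lit 9) (nat_lit 9))
    (@En.n l4477 (nat_lit 11222) (nat_lit 14) (nat_lit 6))
    (@En.n l11076 (nat_lit 4302) (nat_lit 10) (nat_lit 11))
    (@En.n l7 (nat_lit 4563) (nat_lit 15) (nat_lit 2))))
  (@Cl.mk (nat_lit 0x2000b000b0007000b000600050005000d0005000d000300090003000e000a) (nat_lit 0x3405000a0604073) (nat_lit 16) Lb.e (@T16.mk En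
    (@En.n l19349 (nat_lit 3154) (nat_lit 12) (nat_lit 10))
    (@En.i (nat_lit 9885) (nat_lit 1) (nat_lit 14))
    (@En.i (nat_lit 4566) (nat_lit 2) (nat_lit 3))
    (@En.n l387 (nat_lit 4901) (nat_lit 3) (nat_lit 9))
    (@En.i (nat_lit 4565) (nat_lit 4) (nat_lit 3))
    (@En.n l23019 (nat_lit 3724) (nat_lit 0) (nat_lit 13))
    (@En.i (nat_lit 3355) (nat_lit 6) (nat_lit 5))
    (@En.n l1776 (nat_lit 6589) (nat_lit 8) (nat_lit 13))
    (@En.n l575 (nat_lit 3948) (nat_lit 11) (nat_lit 5))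
    (@En.i (nat_lit 4569) (nat_lit 9) (nat_lit 5))
    (@En.n l23020 (nat_lit 8738) (nat_lit 5) (nat_lit 6))
    (@En.n l6904 (nat_lit 2679) (nat_lit 12) (nat_lit 11))
    (@En.n l1316 (nat_lit 6358) (nat_lit 13) (nat_lit 7))
    (@En.n l10011 (nat_lit 4562) (nat_lit 14) (nat_lit 11))
    (@En.n l107 (nat_lit 3308) (nat_lit 12) (nat_lit 11))
    (@En.n l3 (nat_lit 4564) (nat_lit 15) (nat_lit 2))))
  (@Cl.mk (nat_lit 0x2000b000b0007000a000600050005000d000c0006000300090004000e000a) (nat_lit 0x3406000b5004071) (nat_lit 16) Lb.e (@T16.mk En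
    (@En.n l10009 (nat_lit 3158) (nat_lit 12) (nat_lit 10))
    (@En.n l10010 (nat_lit 9886) (nat_lit 1) (nat_lit 14))
    (@En.n l2351 (nat_lit 2915) (nat_lit 2) (nat_lit 4))
    (@En.n l612 (nat_lit 3355) (nat_lit 3) (nat_lit 9))
    (@En.n l50 (nat_lit 4564) (nat_lit 4) (nat_lit 3))
    (@En.n l6906 (nat_lit 1909) (nat_lit 0) (nat_lit 6))
    (@En.n l217 (nat_lit 4566) (nat_lit 7) (nat_lit 12))
    (@En.n l1776 (nat_lit 7737) (nat_lit 8) (nat_lit 13))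
    (@En.n l575 (nat_lit 3947) (nat_lit 11) (nat_lit 5))
    (@En.i (nat_lit 4571) (nat_lit 9) (nat_lit 5))
    (@En.n l6907 (nat_lit 8642) (nat_lit 5) (nat_lit 6))
    (@En.n l6904 (nat_lit 4087) (nat_lit 8) (nat_lit 10))
    (@En.n l4133 (nat_lit 6357) (nat_lit 13) (nat_lit 7))
    (@En.n l10011 (nat_lit 4563) (nat_lit 14) (nat_lit 11))
    (@En.n l10012 (nat_lit 3311) (nat_lit 10) (nat_lit 11))
    (@En.n l3 (nat_lit 4565) (nat_lit 15) (nat_lit 2))))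
  (@Cl.mk (nat_lit 0x2000b000b0008000b000600050005000c0005000d000800040003000e000a) (nat_lit 0x345500040630073) (nat_lit 16) Lb.e (@T16.mk En
    (@En.n l19349 (nat_lit 3148) (nat_lit 14) (nat_lit 10))
    (@En.n l3621 (nat_lit 11336) (nat_lit 1) (nat_lit 14))
    (@En.n l18 (nat_lit 4564) (nat_lit 2) (nat_lit 3))
    (@En.n l2351 (nat_lit 2039) (nat_lit 3) (nat_lit 4))
    (@En.i (nat_lit 3151) (nat_lit 4) (nat_lit 8))
    (@En.n l19350 (nat_lit 3270) (nat_lit 6) (nat_lit 13))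
    (@En.n l19351 (nat_lit 3354) (nat_lit 6) (nat_lit 5))
    (@En.n l14183 (nat_lit 6585) (nat_lit 8) (nat_lit 12))
    (@En.n l19352 (nat_lit 3949) (nat_lit 11) (nat_lit 5))
    (@En.i (nat_lit 4573) (nat_lit 9) (nat_lit 5))
    (@En.n l14184 (nat_lit 8736) (nat_lit 11) (nat_lit 6))
    (@En.n l14183 (nat_lit 4084) (nat_lit 7) (nat_lit 11))
    (@En.n l4861 (nat_lit 6363) (nat_lit 13) (nat_lit 8))
    (@En.n l10011 (nat_lit 4561) (nat_lit 14) (nat_lit 11))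
    (@En.n l19353 (nat_lit 3306) (nat_lit 12) (nat_lit 11))
    (@En.n l3 (nat_lit 4566) (nat_lit 15) (nat_lit 2))))
  (@Cl.mk (nat_lit 0x2000a000a00090007000a000700060006000d0007000600030009000e0009) (nat_lit 0x355070004000451) (nat_lit 16) Lb.e (@T16.mk En
    (@En.n l1595 (nat_lit 3149) (nat_lit 13) (nat_lit 9))
    (@En.n l2824 (nat_lit 11311) (nat_lit 1) (nat_lit 14))
    (@En.i (nat_lit 4568) (nat_lit 2) (nat_lit 9))
    (@En.n l18770 (nat_lit 3151) (nat_lit 3) (nat_lit 3))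
    (@En.n l1597 (nat_lit 1844) (nat_lit 4) (nat_lit 6))
    (@En.n l7 (nat_lit 1869) (nat_lit 5) (nat_lit 7))
    (@En.n l4538 (nat_lit 6583) (nat_lit 7) (nat_lit 13))
    (@En.n l18771 (nat_lit 3951) (nat_lit 10) (nat_lit 6))
    (@En.n l18772 (nat_lit 4584) (nat_lit 8) (nat_lit 6))
    (@En.n l2824 (nat_lit 8757) (nat_lit 5) (nat_lit 7))
    (@En.n l18561 (nat_lit 2039) (nat_lit 11) (nat_lit 10))
    (@En.n l18773 (nat_lit 4565) (nat_lit 12) (nat_lit 7))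
    (@En.n l4380 (nat_lit 7517) (nat_lit 13) (nat_lit 9))
    (@En.n l134 (nat_lit 4560) (nat_lit 14) (nat_lit 10))
    (@En.i (nat_lit 3302) (nat_lit 11) (nat_lit 10))
    (@En.n l67 (nat_lit 4567) (nat_lit 15) (nat_lit 2))))
  (@Cl.mk (nat_lit 0x20009000900080007000b000a0008000700070005000800060009000e0008) (nat_lit 0x325038400010351) (nat_lit 16) Lb.e (@T16.mk En
    (@En.n l1595 (nat_lit 3153) (nat_lit 11) (nat_lit 8))
    (@En.n l20501 (nat_lit 7437) (nat_lit 1) (nat_lit 14))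
    (@En.n l18368 (nat_lit 4908) (nat_lit 2) (nat_lit 9))
    (@En.n l23021 (nat_lit 1559) (nat_lit 3) (nat_lit 6))
    (@En.n l23022 (nat_lit 1871) (nat_lit 4) (nat_lit 8))
    (@En.n l23023 (nat_lit 7724) (nat_lit 5) (nat_lit 5))
    (@En.n l23024 (nat_lit 3952) (nat_lit 9) (nat_lit 7))
    (@En.n l18368 (nat_lit 4582) (nat_lit 7) (nat_lit 7))
    (@En.n l14187 (nat_lit 9966) (nat_lit 9) (nat_lit 8))
    (@En.n l17 (nat_lit 4567) (nat_lit 10) (nat_lit 10))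
    (@En.n l14190 (nat_lit 3354) (nat_lit 11) (nat_lit 11))
    (@En.n l23025 (nat_lit 3355) (nat_lit 12) (nat_lit 7))
    (@En.n l18368 (nat_lit 7519) (nat_lit 13) (nat_lit 8))
    (@En.n l134 (nat_lit 4475) (nat_lit 7) (nat_lit 9))
    (@En.n l23026 (nat_lit 3183) (nat_lit 9) (nat_lit 9))
    (@En.n l67 (nat_lit 4568) (nat_lit 15) (nat_lit 2))))
  (@Cl.mk (nat_lit 0x2000b0003000c0008000c00050004000d0004000d000300080003000e000d) (nat_lit 0x302050040403068) (nat_lit 16) Lb.e (@T16.mk En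
    (@En.n l6904 (nat_lit 4570) (nat_lit 2) (nat_lit 13))
    (@En.i (nat_lit 10610) (nat_lit 1) (nat_lit 14))
    (@En.i (nat_lit 4573) (nat_lit 2) (nat_lit 3))
    (@En.n l387 (nat_lit 5327) (nat_lit 3) (nat_lit 8))
    (@En.i (nat_lit 4571) (nat_lit 4) (nat_lit 3))
    (@En.n l3713 (nat_lit 3268) (nat_lit 0) (nat_lit 13))
    (@En.i (nat_lit 4583) (nat_lit 6) (nat_lit 4))
    (@En.n l1776 (nat_lit 3626) (nat_lit 8) (nat_lit 13))
    (@En.i (nat_lit 4404) (nat_lit 8) (nat_lit 4))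
    (@En.i (nat_lit 10234) (nat_lit 9) (nat_lit 5))
    (@En.n l6904 (nat_lit 4043) (nat_lit 11) (nat_lit 12))
    (@En.n l1316 (nat_lit 6986) (nat_lit 12) (nat_lit 8))
    (@En.n l11 (nat_lit 4591) (nat_lit 13) (nat_lit 12))
    (@En.n l6909 (nat_lit 4570) (nat_lit 14) (nat_lit 3))
    (@En.i (nat_lit 3350) (nat_lit 0) (nat_lit 11))
    (@En.n l3 (nat_lit 4569) (nat_lit 15) (nat_lit 2))))
  (@Cl.mk (nat_lit 0x30003000c0008000c00060004000d0004000d000300080003000d000d000a) (nat_lit 0x56800304030794) (nat_lit 16) Lb.e (@T16.mk En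
    (@En.n l17192 (nat_lit 4564) (nat_lit 0) (nat_lit 10))
    (@En.n l17193 (nat_lit 4586) (nat_lit 3) (nat_lit 13))
    (@En.i (nat_lit 9555) (nat_lit 2) (nat_lit 13))
    (@En.i (nat_lit 3659) (nat_lit 3) (nat_lit 3))
    (@En.n l7409 (nat_lit 5325) (nat_lit 0) (nat_lit 8))
    (@En.i (nat_lit 4572) (nat_lit 5) (nat_lit 3))
    (@En.n l61 (nat_lit 3266) (nat_lit 0) (nat_lit 13))
    (@En.n l28 (nat_lit 4575) (nat_lit 7) (nat_lit 4))
    (@En.n l17196 (nat_lit 3624) (nat_lit 9) (nat_lit 13))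
    (@En.n l28 (nat_lit 4402) (nat_lit 9) (nat_lit 4))
    (@En.i (nat_lit 10227) (nat_lit 4) (nat_lit 6))
    (@En.i (nat_lit 4046) (nat_lit 12) (nat_lit 12))
    (@En.n l24739 (nat_lit 6985) (nat_lit 13) (nat_lit 8))
    (@En.i (nat_lit 4240) (nat_lit 8) (nat_lit 12))
    (@En.n l17199 (nat_lit 4569) (nat_lit 13) (nat_lit 3))
    (@En.n l12849 (nat_lit 4586) (nat_lit 0) (nat_lit 3))))
  (@Cl.mk (nat_lit 0x2000b0003000c0008000b00050004000d000c0005000300080004000e000d) (nat_lit 0x302020045006068) (nat_lit 16) Lb.e (@T16.mk En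
    (@En.n l6904 (nat_lit 4572) (nat_lit 2) (nat_lit 13))
    (@En.n l6905 (nat_lit 10608) (nat_lit 1) (nat_lit 14))
    (@En.n l3348 (nat_lit 3657) (nat_lit 2) (nat_lit 4))
    (@En.n l612 (nat_lit 4583) (nat_lit 3) (nat_lit 8))
    (@En.n l50 (nat_lit 4569) (nat_lit 4) (nat_lit 3))
    (@En.n l6906 (nat_lit 3321) (nat_lit 0) (nat_lit 5))
    (@En.n l217 (nat_lit 4573) (nat_lit 7) (nat_lit 12))
    (@En.n l1776 (nat_lit 3635) (nat_lit 8) (nat_lit 13))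
    (@En.i (nat_lit 4406) (nat_lit 8) (nat_lit 4))
    (@En.n l6907 (nat_lit 10236) (nat_lit 9) (nat_lit 5))
    (@En.n l6904 (nat_lit 3854) (nat_lit 7) (nat_lit 11))
    (@En.n l4133 (nat_lit 6993) (nat_lit 12) (nat_lit 8))
    (@En.n l6908 (nat_lit 4590) (nat_lit 13) (nat_lit 12))
    (@En.n l6909 (nat_lit 4572) (nat_lit 14) (nat_lit 3))
    (@En.i (nat_lit 3349) (nat_lit 0) (nat_lit 11))
    (@En.n l3 (nat_lit 4571) (nat_lit 15) (nat_lit 2))))
  (@Cl.mk (nat_lit 0x30003000c0008000b00060004000d000c0005000300080004000d000d000a) (nat_lit 0xa6200210060792) (nat_lit 16) Lb.e (@T16.mk En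
    (@En.n l17192 (nat_lit 4565) (nat_lit 0) (nat_lit 10))
    (@En.n l17193 (nat_lit 4574) (nat_lit 3) (nat_lit 13))
    (@En.n l17194 (nat_lit 9557) (nat_lit 2) (nat_lit 13))
    (@En.n l17195 (nat_lit 3653) (nat_lit 3) (nat_lit 4))
    (@En.n l7409 (nat_lit 4575) (nat_lit 4) (nat_lit 8))
    (@En.n l50 (nat_lit 4570) (nat_lit 5) (nat_lit 3))
    (@En.n l6958 (nat_lit 3319) (nat_lit 0) (nat_lit 5))
    (@En.n l2863 (nat_lit 3659) (nat_lit 8) (nat_lit 12))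
    (@En.n l17196 (nat_lit 3627) (nat_lit 9) (nat_lit 13))
    (@En.n l28 (nat_lit 4407) (nat_lit 9) (nat_lit 4))
    (@En.n l17197 (nat_lit 10225) (nat_lit 4) (nat_lit 6))
    (@En.i (nat_lit 3853) (nat_lit 7) (nat_lit 11))
    (@En.n l17198 (nat_lit 6991) (nat_lit 13) (nat_lit 8))
    (@En.n l11245 (nat_lit 4295) (nat_lit 8) (nat_lit 12))
    (@En.n l17199 (nat_lit 4571) (nat_lit 13) (nat_lit 3))
    (@En.n l12849 (nat_lit 4574) (nat_lit 0) (nat_lit 3))))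
  (@Cl.mk (nat_lit 0x2000b0003000c0009000c00050004000c0004000d000700040003000e000d) (nat_lit 0x302750040400068) (nat_lit 16) Lb.e (@T16.mk En
    (@En.n l6904 (nat_lit 3659) (nat_lit 2) (nat_lit 13))
    (@En.i (nat_lit 9187) (nat_lit 1) (nat_lit 14))
    (@En.n l18 (nat_lit 4569) (nat_lit 2) (nat_lit 3))
    (@En.n l3348 (nat_lit 3656) (nat_lit 3) (nat_lit 4))
    (@En.i (nat_lit 4585) (nat_lit 4) (nat_lit 7))
    (@En.n l3713 (nat_lit 3265) (nat_lit 6) (nat_lit 13))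
    (@En.n l2358 (nat_lit 4581) (nat_lit 6) (nat_lit 4))
    (@En.n l14183 (nat_lit 5564) (nat_lit 8) (nat_lit 12))
    (@En.i (nat_lit 4418) (nat_lit 8) (nat_lit 4))
    (@En.n l14184 (nat_lit 10232) (nat_lit 9) (nat_lit 5))
    (@En.n l14183 (nat_lit 4022) (nat_lit 6) (nat_lit 12))
    (@En.n l4861 (nat_lit 7365) (nat_lit 12) (nat_lit 9))
    (@En.n l14183 (nat_lit 4592) (nat_lit 13) (nat_lit 12))
    (@En.n l6909 (nat_lit 3659) (nat_lit 14) (nat_lit 3))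
    (@En.i (nat_lit 3348) (nat_lit 0) (nat_lit 11))
    (@En.n l3 (nat_lit 4573) (nat_lit 15) (nat_lit 2))))
  (@Cl.mk (nat_lit 0x2000c0008000b00070004000d000c0005000300080004000d0009000e0003) (nat_lit 0x5620021006081c0) (nat_lit 16) Lb.e (@T16.mk En
    (@En.n l11319 (nat_lit 4572) (nat_lit 15) (nat_lit 3))
    (@En.n l3 (nat_lit 13312) (nat_lit 0) (nat_lit 14))
    (@En.n l11320 (nat_lit 4357) (nat_lit 2) (nat_lit 9))
    (@En.n l11321 (nat_lit 10443) (nat_lit 2) (nat_lit 13))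
    (@En.n l11322 (nat_lit 3652) (nat_lit 4) (nat_lit 4))
    (@En.n l343 (nat_lit 4576) (nat_lit 5) (nat_lit 8))
    (@En.n l28 (nat_lit 4586) (nat_lit 6) (nat_lit 3))
    (@En.n l11321 (nat_lit 3316) (nat_lit 0) (nat_lit 5))
    (@En.n l77 (nat_lit 3660) (nat_lit 9) (nat_lit 12))
    (@En.n l7861 (nat_lit 3633) (nat_lit 10) (nat_lit 13))
    (@En.i (nat_lit 4408) (nat_lit 10) (nat_lit 4))
    (@En.n l11323 (nat_lit 10220) (nat_lit 12) (nat_lit 7))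
    (@En.n l11321 (nat_lit 3852) (nat_lit 7) (nat_lit 11))
    (@En.n l253 (nat_lit 6995) (nat_lit 14) (nat_lit 8))
    (@En.n l345 (nat_lit 4294) (nat_lit 8) (nat_lit 12))
    (@En.n l17 (nat_lit 4574) (nat_lit 15) (nat_lit 2))))
  (@Cl.mk (nat_lit 0x30003000b0008000c000b000700050004000d000500080003000d000d0009) (nat_lit 0x30830004050682) (nat_lit 16) Lb.e (@T16.mk En
    (@En.n l10734 (nat_lit 3355) (nat_lit 0) (nat_lit 9))
    (@En.n l3471 (nat_lit 4576) (nat_lit 3) (nat_lit 13))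
    (@En.i (nat_lit 10440) (nat_lit 2) (nat_lit 13))
    (@En.n l26975 (nat_lit 4578) (nat_lit 3) (nat_lit 3))
    (@En.n l32820 (nat_lit 5322) (nat_lit 10) (nat_lit 8))
    (@En.n l7 (nat_lit 3314) (nat_lit 5) (nat_lit 5))
    (@En.n l32821 (nat_lit 3662) (nat_lit 7) (nat_lit 13))
    (@En.n l32822 (nat_lit 4201) (nat_lit 7) (nat_lit 4))
    (@En.i (nat_lit 4403) (nat_lit 8) (nat_lit 5))
    (@En.n l13034 (nat_lit 8736) (nat_lit 5) (nat_lit 7))
    (@En.n l4380 (nat_lit 4572) (nat_lit 11) (nat_lit 11))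
    (@En.i (nat_lit 3276) (nat_lit 12) (nat_lit 12))
    (@En.n l32823 (nat_lit 7279) (nat_lit 13) (nat_lit 8))
    (@En.i (nat_lit 4296) (nat_lit 14) (nat_lit 11))
    (@En.n l6962 (nat_lit 4583) (nat_lit 13) (nat_lit 3))
    (@En.n l5368 (nat_lit 4576) (nat_lit 0) (nat_lit 3))))
noncomputable def a286 : T16 Cl := @T16.mk Cl
  (@Cl.mk (nat_lit 0x2000b0008000c000b000800050004000d000500080003000d0008000e0003) (nat_lit 0x1083400405071c0) (nat_lit 16) Lb.e (@T16.mk En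
    (@En.n l2843 (nat_lit 4575) (nat_lit 15) (nat_lit 3))
    (@En.n l3 (nat_lit 13310) (nat_lit 0) (nat_lit 14))
    (@En.n l24434 (nat_lit 4358) (nat_lit 2) (nat_lit 8))
    (@En.n l22673 (nat_lit 10441) (nat_lit 2) (nat_lit 13))
    (@En.n l19817 (nat_lit 4577) (nat_lit 4) (nat_lit 3))
    (@En.n l919 (nat_lit 5323) (nat_lit 10) (nat_lit 8))
    (@En.n l24435 (nat_lit 3317) (nat_lit 6) (nat_lit 5))
    (@En.n l127 (nat_lit 3663) (nat_lit 8) (nat_lit 13))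
    (@En.n l24436 (nat_lit 4208) (nat_lit 8) (nat_lit 4))
    (@En.i (nat_lit 4410) (nat_lit 9) (nat_lit 5))
    (@En.n l24437 (nat_lit 7774) (nat_lit 11) (nat_lit 8))
    (@En.n l55 (nat_lit 4574) (nat_lit 12) (nat_lit 11))
    (@En.n l24438 (nat_lit 4099) (nat_lit 13) (nat_lit 12))
    (@En.n l4750 (nat_lit 7278) (nat_lit 14) (nat_lit 8))
    (@En.n l3851 (nat_lit 2837) (nat_lit 14) (nat_lit 11))
    (@En.n l17 (nat_lit 4576) (nat_lit 15) (nat_lit 2))))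
  (@Cl.mk (nat_lit 0x2000b0009000c000a000800050004000d000700060003000d0008000e0003) (nat_lit 0x1773400400076c0) (nat_lit 16) Lb.e (@T16.mk En
    (@En.n l1658 (nat_lit 4578) (nat_lit 15) (nat_lit 3))
    (@En.n l10906 (nat_lit 13315) (nat_lit 0) (nat_lit 14))
    (@En.n l681 (nat_lit 4359) (nat_lit 2) (nat_lit 8))
    (@En.n l9526 (nat_lit 10141) (nat_lit 2) (nat_lit 13))
    (@En.n l10907 (nat_lit 4576) (nat_lit 4) (nat_lit 3))
    (@En.n l10908 (nat_lit 2432) (nat_lit 5) (nat_lit 6))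
    (@En.n l10861 (nat_lit 4579) (nat_lit 6) (nat_lit 7))
    (@En.n l8340 (nat_lit 3661) (nat_lit 8) (nat_lit 13))
    (@En.n l10862 (nat_lit 7430) (nat_lit 8) (nat_lit 4))
    (@En.n l552 (nat_lit 4413) (nat_lit 9) (nat_lit 5))
    (@En.n l681 (nat_lit 7775) (nat_lit 11) (nat_lit 8))
    (@En.n l9530 (nat_lit 3652) (nat_lit 12) (nat_lit 10))
    (@En.i (nat_lit 4106) (nat_lit 6) (nat_lit 12))
    (@En.n l148 (nat_lit 7281) (nat_lit 14) (nat_lit 9))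
    (@En.n l5165 (nat_lit 2835) (nat_lit 14) (nat_lit 11))
    (@En.n l17 (nat_lit 4577) (nat_lit 15) (nat_lit 2))))
  (@Cl.mk (nat_lit 0x30003000b0009000c000a000700050004000d000700060003000d000d0009) (nat_lit 0x36730004000686) (nat_lit 16) Lb.e (@T16.mk En
    (@En.n l55 (nat_lit 3354) (nat_lit 0) (nat_lit 9))
    (@En.n l2207 (nat_lit 4577) (nat_lit 3) (nat_lit 13))
    (@En.n l17200 (nat_lit 10140) (nat_lit 2) (nat_lit 13))
    (@En.n l13270 (nat_lit 4575) (nat_lit 3) (nat_lit 3))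
    (@En.n l17201 (nat_lit 2386) (nat_lit 0) (nat_lit 6))
    (@En.n l6884 (nat_lit 4580) (nat_lit 5) (nat_lit 7))
    (@En.n l9775 (nat_lit 3658) (nat_lit 7) (nat_lit 13))
    (@En.n l17202 (nat_lit 4209) (nat_lit 7) (nat_lit 4))
    (@En.n l6884 (nat_lit 4415) (nat_lit 8) (nat_lit 5))
    (@En.i (nat_lit 8735) (nat_lit 5) (nat_lit 7))
    (@En.n l17203 (nat_lit 3653) (nat_lit 11) (nat_lit 10))
    (@En.i (nat_lit 3277) (nat_lit 6) (nat_lit 12))
    (@En.n l17204 (nat_lit 7282) (nat_lit 13) (nat_lit 9))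
    (@En.n l16575 (nat_lit 4298) (nat_lit 14) (nat_lit 11))
    (@En.n l17205 (nat_lit 4581) (nat_lit 13) (nat_lit 3))
    (@En.n l137 (nat_lit 4577) (nat_lit 0) (nat_lit 3))))
  (@Cl.mk (nat_lit 0x2000a00090008000c000b000900060004000700050008000d0007000e0003) (nat_lit 0x1718440000360c0) (nat_lit 16) Lb.e (@T16.mk En
    (@En.n l24219 (nat_lit 4580) (nat_lit 15) (nat_lit 3))
    (@En.n l4658 (nat_lit 13317) (nat_lit 0) (nat_lit 14))
    (@En.i (nat_lit 4361) (nat_lit 2) (nat_lit 7))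
    (@En.i (nat_lit 10143) (nat_lit 4) (nat_lit 13))
    (@En.n l5579 (nat_lit 5320) (nat_lit 4) (nat_lit 8))
    (@En.n l8547 (nat_lit 1850) (nat_lit 5) (nat_lit 5))
    (@En.n l9654 (nat_lit 2447) (nat_lit 6) (nat_lit 7))
    (@En.n l152 (nat_lit 7427) (nat_lit 7) (nat_lit 4))
    (@En.n l5585 (nat_lit 4416) (nat_lit 8) (nat_lit 6))
    (@En.n l2824 (nat_lit 8733) (nat_lit 10) (nat_lit 9))
    (@En.n l24220 (nat_lit 3661) (nat_lit 11) (nat_lit 11))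
    (@En.n l20336 (nat_lit 4577) (nat_lit 12) (nat_lit 12))
    (@En.n l5585 (nat_lit 4576) (nat_lit 13) (nat_lit 8))
    (@En.n l5579 (nat_lit 7283) (nat_lit 14) (nat_lit 9))
    (@En.i (nat_lit 2826) (nat_lit 14) (nat_lit 10))
    (@En.n l50 (nat_lit 4579) (nat_lit 15) (nat_lit 2))))
  (@Cl.mk (nat_lit 0x30003000a00090008000c000b000800060004000700050008000d000d0008) (nat_lit 0x16184500003572) (nat_lit 16) Lb.e (@T16.mk En
    (@En.n l32824 (nat_lit 4568) (nat_lit 0) (nat_lit 8))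
    (@En.n l32825 (nat_lit 4579) (nat_lit 3) (nat_lit 13))
    (@En.n l32826 (nat_lit 10144) (nat_lit 2) (nat_lit 13))
    (@En.n l24172 (nat_lit 5319) (nat_lit 10) (nat_lit 8))
    (@En.n l32827 (nat_lit 1846) (nat_lit 4) (nat_lit 5))
    (@En.n l32828 (nat_lit 2448) (nat_lit 11) (nat_lit 7))
    (@En.n l32829 (nat_lit 4587) (nat_lit 6) (nat_lit 4))
    (@En.i (nat_lit 4386) (nat_lit 7) (nat_lit 6))
    (@En.n l26975 (nat_lit 8734) (nat_lit 1) (nat_lit 8))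
    (@En.n l32830 (nat_lit 3658) (nat_lit 10) (nat_lit 11))
    (@En.n l13034 (nat_lit 4578) (nat_lit 11) (nat_lit 12))
    (@En.i (nat_lit 4575) (nat_lit 12) (nat_lit 8))
    (@En.n l32831 (nat_lit 7284) (nat_lit 13) (nat_lit 9))
    (@En.n l32832 (nat_lit 2834) (nat_lit 14) (nat_lit 10))
    (@En.n l32833 (nat_lit 4582) (nat_lit 13) (nat_lit 3))
    (@En.n l32834 (nat_lit 4579) (nat_lit 0) (nat_lit 3))))
  (@Cl.mk (nat_lit 0x2000a0003000b0009000c000a000600050004000d000700060003000e000d) (nat_lit 0x305616000600057) (nat_lit 16) Lb.e (@T16.mk En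
    (@En.n l6910 (nat_lit 4578) (nat_lit 2) (nat_lit 13))
    (@En.i (nat_lit 9189) (nat_lit 1) (nat_lit 14))
    (@En.n l6911 (nat_lit 4583) (nat_lit 2) (nat_lit 3))
    (@En.n l6912 (nat_lit 2394) (nat_lit 3) (nat_lit 6))
    (@En.n l6913 (nat_lit 4582) (nat_lit 4) (nat_lit 7))
    (@En.n l6914 (nat_lit 4584) (nat_lit 6) (nat_lit 13))
    (@En.n l3586 (nat_lit 7110) (nat_lit 6) (nat_lit 4))
    (@En.n l6915 (nat_lit 4419) (nat_lit 7) (nat_lit 5))
    (@En.n l6916 (nat_lit 8739) (nat_lit 8) (nat_lit 6))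
    (@En.n l6917 (nat_lit 3657) (nat_lit 10) (nat_lit 10))
    (@En.n l6918 (nat_lit 3279) (nat_lit 6) (nat_lit 12))
    (@En.n l6913 (nat_lit 7287) (nat_lit 12) (nat_lit 9))
    (@En.n l6918 (nat_lit 4588) (nat_lit 13) (nat_lit 11))
    (@En.n l6919 (nat_lit 4578) (nat_lit 14) (nat_lit 3))
    (@En.n l2704 (nat_lit 3344) (nat_lit 0) (nat_lit 10))
    (@En.n l50 (nat_lit 4581) (nat_lit 15) (nat_lit 2))))
  (@Cl.mk (nat_lit 0x200090003000a00090008000c000b000700060004000700050008000e000d) (nat_lit 0x305602400000546) (nat_lit 16) Lb.e (@T16.mk En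
    (@En.n l17255 (nat_lit 4580) (nat_lit 2) (nat_lit 13))
    (@En.n l17256 (nat_lit 9190) (nat_lit 1) (nat_lit 14))
    (@En.i (nat_lit 5321) (nat_lit 2) (nat_lit 8))
    (@En.n l17257 (nat_lit 1848) (nat_lit 3) (nat_lit 5))
    (@En.n l9418 (nat_lit 2449) (nat_lit 4) (nat_lit 7))
    (@En.n l17258 (nat_lit 7111) (nat_lit 5) (nat_lit 4))
    (@En.n l1323 (nat_lit 4384) (nat_lit 6) (nat_lit 6))
    (@En.n l17259 (nat_lit 8741) (nat_lit 7) (nat_lit 7))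
    (@En.n l17260 (nat_lit 4584) (nat_lit 9) (nat_lit 11))
    (@En.n l17261 (nat_lit 4581) (nat_lit 10) (nat_lit 12))
    (@En.n l1323 (nat_lit 4583) (nat_lit 11) (nat_lit 8))
    (@En.i (nat_lit 7288) (nat_lit 12) (nat_lit 9))
    (@En.n l9421 (nat_lit 4533) (nat_lit 13) (nat_lit 10))
    (@En.n l17262 (nat_lit 4580) (nat_lit 14) (nat_lit 3))
    (@En.i (nat_lit 3345) (nat_lit 0) (nat_lit 9))
    (@En.n l50 (nat_lit 4582) (nat_lit 15) (nat_lit 2))))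
  (@Cl.mk (nat_lit 0x2000a0003000b0008000c000b000600050004000d000500080003000e000d) (nat_lit 0x302683000505057) (nat_lit 16) Lb.e (@T16.mk En
    (@En.n l617 (nat_lit 4575) (nat_lit 2) (nat_lit 13))
    (@En.i (nat_lit 10609) (nat_lit 1) (nat_lit 14))
    (@En.n l2358 (nat_lit 4581) (nat_lit 2) (nat_lit 3))
    (@En.n l386 (nat_lit 5324) (nat_lit 10) (nat_lit 8))
    (@En.n l11728 (nat_lit 3320) (nat_lit 4) (nat_lit 5))
    (@En.n l7025 (nat_lit 4585) (nat_lit 6) (nat_lit 13))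
    (@En.n l7 (nat_lit 4200) (nat_lit 6) (nat_lit 4))
    (@En.i (nat_lit 4405) (nat_lit 7) (nat_lit 5))
    (@En.n l2856 (nat_lit 8740) (nat_lit 8) (nat_lit 6))
    (@En.n l644 (nat_lit 4571) (nat_lit 10) (nat_lit 11))
    (@En.n l617 (nat_lit 3278) (nat_lit 11) (nat_lit 12))
    (@En.n l386 (nat_lit 7280) (nat_lit 12) (nat_lit 8))
    (@En.n l11 (nat_lit 4589) (nat_lit 13) (nat_lit 11))
    (@En.n l6680 (nat_lit 4575) (nat_lit 14) (nat_lit 3))
    (@En.i (nat_lit 3346) (nat_lit 0) (nat_lit 10))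
    (@En.n l3 (nat_lit 4583) (nat_lit 15) (nat_lit 2))))
  (@Cl.mk (nat_lit 0x2000a0003000b000a0008000b00060005000d0006000500030008000e000d) (nat_lit 0x303713005000657) (nat_lit 16) Lb.e (@T16.mk En
    (@En.n l14199 (nat_lit 3658) (nat_lit 2) (nat_lit 13))
    (@En.n l14200 (nat_lit 9191) (nat_lit 1) (nat_lit 14))
    (@En.n l14201 (nat_lit 4582) (nat_lit 2) (nat_lit 8))
    (@En.n l7076 (nat_lit 4585) (nat_lit 3) (nat_lit 3))
    (@En.n l14202 (nat_lit 1845) (nat_lit 0) (nat_lit 5))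
    (@En.n l14203 (nat_lit 2401) (nat_lit 5) (nat_lit 6))
    (@En.n l698 (nat_lit 7075) (nat_lit 7) (nat_lit 13))
    (@En.i (nat_lit 4383) (nat_lit 7) (nat_lit 5))
    (@En.n l14204 (nat_lit 9156) (nat_lit 8) (nat_lit 6))
    (@En.i (nat_lit 3656) (nat_lit 10) (nat_lit 11))
    (@En.n l7075 (nat_lit 4571) (nat_lit 11) (nat_lit 8))
    (@En.n l14205 (nat_lit 7289) (nat_lit 12) (nat_lit 10))
    (@En.n l14206 (nat_lit 4546) (nat_lit 13) (nat_lit 11))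
    (@En.n l14204 (nat_lit 3658) (nat_lit 14) (nat_lit 3))
    (@En.n l699 (nat_lit 3347) (nat_lit 0) (nat_lit 10))
    (@En.n l50 (nat_lit 4584) (nat_lit 15) (nat_lit 2))))
  (@Cl.mk (nat_lit 0x2000a0003000b00090008000c00060005000d0004000700030008000e000d) (nat_lit 0x302716004000357) (nat_lit 16) Lb.e (@T16.mk En
    (@En.n l6904 (nat_lit 3662) (nat_lit 2) (nat_lit 13))
    (@En.n l18475 (nat_lit 9188) (nat_lit 1) (nat_lit 14))
    (@En.n l14056 (nat_lit 4485) (nat_lit 2) (nat_lit 8))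
    (@En.n l2586 (nat_lit 4584) (nat_lit 3) (nat_lit 3))
    (@En.n l14058 (nat_lit 2074) (nat_lit 11) (nat_lit 7))
    (@En.n l6830 (nat_lit 4582) (nat_lit 5) (nat_lit 4))
    (@En.n l1776 (nat_lit 5539) (nat_lit 7) (nat_lit 13))
    (@En.i (nat_lit 4387) (nat_lit 7) (nat_lit 5))
    (@En.n l27975 (nat_lit 9157) (nat_lit 8) (nat_lit 6))
    (@En.n l2196 (nat_lit 4573) (nat_lit 10) (nat_lit 12))
    (@En.i (nat_lit 4569) (nat_lit 11) (nat_lit 8))
    (@En.n l4861 (nat_lit 7204) (nat_lit 12) (nat_lit 9))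
    (@En.n l11 (nat_lit 3408) (nat_lit 13) (nat_lit 11))
    (@En.n l6909 (nat_lit 3662) (nat_lit 14) (nat_lit 3))
    (@En.i (nat_lit 3307) (nat_lit 0) (nat_lit 10))
    (@En.n l3 (nat_lit 4585) (nat_lit 15) (nat_lit 2))))
  (@Cl.mk (nat_lit 0x2000c0008000c00070004000d0004000d000300080003000d0009000e0003) (nat_lit 0x5630030403081c0) (nat_lit 16) Lb.e (@T16.mk En
    (@En.n l11319 (nat_lit 4570) (nat_lit 15) (nat_lit 3))
    (@En.n l3 (nat_lit 13311) (nat_lit 0) (nat_lit 14))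
    (@En.i (nat_lit 4356) (nat_lit 2) (nat_lit 9))
    (@En.i (nat_lit 9556) (nat_lit 2) (nat_lit 13))
    (@En.i (nat_lit 3660) (nat_lit 4) (nat_lit 3))
    (@En.n l3549 (nat_lit 5326) (nat_lit 5) (nat_lit 8))
    (@En.i (nat_lit 4574) (nat_lit 6) (nat_lit 3))
    (@En.n l2571 (nat_lit 3267) (nat_lit 0) (nat_lit 13))
    (@En.i (nat_lit 4576) (nat_lit 8) (nat_lit 4))
    (@En.i (nat_lit 3625) (nat_lit 10) (nat_lit 13))
    (@En.i (nat_lit 4409) (nat_lit 10) (nat_lit 4))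
    (@En.i (nat_lit 10224) (nat_lit 12) (nat_lit 7))
    (@En.n l24928 (nat_lit 4045) (nat_lit 13) (nat_lit 12))
    (@En.n l253 (nat_lit 6989) (nat_lit 14) (nat_lit 8))
    (@En.n l3851 (nat_lit 4237) (nat_lit 8) (nat_lit 12))
    (@En.n l17 (nat_lit 4586) (nat_lit 15) (nat_lit 2))))
  (@Cl.mk (nat_lit 0x30003000c00090008000c0004000c00090004000700040008000d000d0007) (nat_lit 0x76130a00001000) (nat_lit 16) Lb.e (@T16.mk En
    (@En.n l6524 (nat_lit 7724) (nat_lit 0) (nat_lit 7))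
    (@En.n l644 (nat_lit 7427) (nat_lit 3) (nat_lit 13))
    (@En.i (nat_lit 9176) (nat_lit 2) (nat_lit 13))
    (@En.n l21561 (nat_lit 2955) (nat_lit 3) (nat_lit 8))
    (@En.n l39629 (nat_lit 7422) (nat_lit 4) (nat_lit 4))
    (@En.n l152 (nat_lit 5576) (nat_lit 11) (nat_lit 7))
    (@En.n l18000 (nat_lit 3662) (nat_lit 6) (nat_lit 4))
    (@En.i (nat_lit 7429) (nat_lit 0) (nat_lit 9))
    (@En.n l3447 (nat_lit 5531) (nat_lit 9) (nat_lit 12))
    (@En.n l39630 (nat_lit 7117) (nat_lit 9) (nat_lit 4))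
    (@En.n l17017 (nat_lit 4209) (nat_lit 11) (nat_lit 12))
    (@En.n l7231 (nat_lit 4201) (nat_lit 12) (nat_lit 8))
    (@En.i (nat_lit 7203) (nat_lit 13) (nat_lit 9))
    (@En.n l16798 (nat_lit 11615) (nat_lit 14) (nat_lit 12))
    (@En.n l7258 (nat_lit 7111) (nat_lit 13) (nat_lit 3))
    (@En.n l7 (nat_lit 7427) (nat_lit 0) (nat_lit 3))))
  (@Cl.mk (nat_lit 0x2000b000b0008000b00090005000500090005000d000800070003000e0007) (nat_lit 0x346910050850070) (nat_lit 16) Lb.e (@T16.mk En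
    (@En.n l13557 (nat_lit 4527) (nat_lit 14) (nat_lit 7))
    (@En.n l3098 (nat_lit 8991) (nat_lit 1) (nat_lit 14))
    (@En.n l17173 (nat_lit 4589) (nat_lit 2) (nat_lit 3))
    (@En.n l3098 (nat_lit 4939) (nat_lit 3) (nat_lit 7))
    (@En.n l17174 (nat_lit 4533) (nat_lit 4) (nat_lit 8))
    (@En.n l17175 (nat_lit 4546) (nat_lit 6) (nat_lit 13))
    (@En.n l775 (nat_lit 11193) (nat_lit 6) (nat_lit 5))
    (@En.i (nat_lit 4301) (nat_lit 10) (nat_lit 9))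
    (@En.n l2593 (nat_lit 3446) (nat_lit 11) (nat_lit 5))
    (@En.n l5349 (nat_lit 11395) (nat_lit 9) (nat_lit 5))
    (@En.n l17176 (nat_lit 3380) (nat_lit 11) (nat_lit 9))
    (@En.i (nat_lit 4594) (nat_lit 7) (nat_lit 11))
    (@En.n l2348 (nat_lit 4545) (nat_lit 13) (nat_lit 8))
    (@En.n l5396 (nat_lit 3399) (nat_lit 5) (nat_lit 11))
    (@En.n l3382 (nat_lit 2833) (nat_lit 12) (nat_lit 11))
    (@En.n l28 (nat_lit 4588) (nat_lit 15) (nat_lit 2))))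
  (@Cl.mk (nat_lit 0x2000b000b0007000b000a0005000500090005000d000600090003000e0007) (nat_lit 0x310700050803070) (nat_lit 16) Lb.e (@T16.mk En
    (@En.n l10413 (nat_lit 4523) (nat_lit 14) (nat_lit 7))
    (@En.n l3408 (nat_lit 11225) (nat_lit 1) (nat_lit 14))
    (@En.n l32761 (nat_lit 4588) (nat_lit 2) (nat_lit 3))
    (@En.n l132 (nat_lit 12555) (nat_lit 9) (nat_lit 9))
    (@En.n l8812 (nat_lit 4960) (nat_lit 4) (nat_lit 6))
    (@En.n l7025 (nat_lit 3408) (nat_lit 6) (nat_lit 13))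
    (@En.n l32762 (nat_lit 11194) (nat_lit 6) (nat_lit 5))
    (@En.n l6680 (nat_lit 4300) (nat_lit 10) (nat_lit 9))
    (@En.n l575 (nat_lit 3451) (nat_lit 11) (nat_lit 5))
    (@En.n l32763 (nat_lit 11397) (nat_lit 9) (nat_lit 5))
    (@En.n l32764 (nat_lit 4590) (nat_lit 11) (nat_lit 10))
    (@En.n l617 (nat_lit 4593) (nat_lit 12) (nat_lit 11))
    (@En.i (nat_lit 11317) (nat_lit 13) (nat_lit 7))
    (@En.n l32765 (nat_lit 3401) (nat_lit 5) (nat_lit 11))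
    (@En.n l23387 (nat_lit 4221) (nat_lit 12) (nat_lit 11))
    (@En.n l3 (nat_lit 4589) (nat_lit 15) (nat_lit 2))))
  (@Cl.mk (nat_lit 0x2000c000c0007000a000400040008000d000c0006000300090004000e0008) (nat_lit 0xa10800430004091) (nat_lit 16) Lb.e (@T16.mk En
    (@En.n l17166 (nat_lit 4521) (nat_lit 12) (nat_lit 8))
    (@En.n l3348 (nat_lit 11226) (nat_lit 1) (nat_lit 14))
    (@En.n l17167 (nat_lit 3380) (nat_lit 2) (nat_lit 4))
    (@En.n l17168 (nat_lit 4589) (nat_lit 3) (nat_lit 9))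
    (@En.n l17169 (nat_lit 4591) (nat_lit 4) (nat_lit 3))
    (@En.n l3348 (nat_lit 4965) (nat_lit 0) (nat_lit 6))
    (@En.n l250 (nat_lit 4592) (nat_lit 7) (nat_lit 12))
    (@En.n l17170 (nat_lit 7777) (nat_lit 8) (nat_lit 13))
    (@En.n l250 (nat_lit 4250) (nat_lit 3) (nat_lit 8))
    (@En.n l11845 (nat_lit 3447) (nat_lit 12) (nat_lit 4))
    (@En.n l11002 (nat_lit 4706) (nat_lit 10) (nat_lit 4))
    (@En.i (nat_lit 4672) (nat_lit 8) (nat_lit 10))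
    (@En.n l17171 (nat_lit 10957) (nat_lit 13) (nat_lit 7))
    (@En.n l17172 (nat_lit 3400) (nat_lit 4) (nat_lit 12))
    (@En.n l8091 (nat_lit 4306) (nat_lit 10) (nat_lit 12))
    (@En.n l11 (nat_lit 4590) (nat_lit 15) (nat_lit 2))))
  (@Cl.mk (nat_lit 0x2000c000c0007000b000400040008000d0005000d000300090003000e0008) (nat_lit 0xa10700440503091) (nat_lit 16) Lb.e (@T16.mk En
    (@En.n l10413 (nat_lit 4520) (nat_lit 14) (nat_lit 8))
    (@En.i (nat_lit 11229) (nat_lit 1) (nat_lit 14))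
    (@En.n l32761 (nat_lit 4592) (nat_lit 2) (nat_lit 3))
    (@En.n l387 (nat_lit 12535) (nat_lit 3) (nat_lit 9))
    (@En.n l17014 (nat_lit 4590) (nat_lit 4) (nat_lit 3))
    (@En.n l32766 (nat_lit 4479) (nat_lit 0) (nat_lit 13))
    (@En.i (nat_lit 4589) (nat_lit 6) (nat_lit 5))
    (@En.n l2544 (nat_lit 7776) (nat_lit 8) (nat_lit 13))
    (@En.n l6680 (nat_lit 4244) (nat_lit 3) (nat_lit 8))
    (@En.n l575 (nat_lit 3453) (nat_lit 12) (nat_lit 4))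
    (@En.i (nat_lit 4712) (nat_lit 10) (nat_lit 4))
    (@En.n l17759 (nat_lit 4597) (nat_lit 12) (nat_lit 11))
    (@En.i (nat_lit 11316) (nat_lit 13) (nat_lit 7))
    (@En.n l32765 (nat_lit 3406) (nat_lit 4) (nat_lit 12))
    (@En.n l23387 (nat_lit 4304) (nat_lit 12) (nat_lit 12))
    (@En.n l3 (nat_lit 4591) (nat_lit 15) (nat_lit 2))))
noncomputable def a287 : T16 Cl := @T16.mk Cl
  (@Cl.mk (nat_lit 0x2000c000c0008000b000400040008000c0005000d000800040003000e0008) (nat_lit 0x3109002a0110091) (nat_lit 16) Lb.e (@T16.mk En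
    (@En.n l780 (nat_lit 4522) (nat_lit 14) (nat_lit 8))
    (@En.i (nat_lit 6804) (nat_lit 1) (nat_lit 14))
    (@En.n l17173 (nat_lit 4591) (nat_lit 2) (nat_lit 3))
    (@En.n l1329 (nat_lit 3390) (nat_lit 3) (nat_lit 4))
    (@En.n l28252 (nat_lit 3408) (nat_lit 4) (nat_lit 8))
    (@En.n l25682 (nat_lit 4480) (nat_lit 6) (nat_lit 13))
    (@En.i (nat_lit 4588) (nat_lit 6) (nat_lit 5))
    (@En.i (nat_lit 7340) (nat_lit 8) (nat_lit 12))
    (@En.i (nat_lit 4243) (nat_lit 11) (nat_lit 8))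
    (@En.n l2593 (nat_lit 3449) (nat_lit 12) (nat_lit 4))
    (@En.n l18290 (nat_lit 4710) (nat_lit 10) (nat_lit 4))
    (@En.i (nat_lit 4598) (nat_lit 7) (nat_lit 11))
    (@En.n l6900 (nat_lit 10908) (nat_lit 13) (nat_lit 8))
    (@En.n l1363 (nat_lit 3405) (nat_lit 4) (nat_lit 12))
    (@En.i (nat_lit 4305) (nat_lit 12) (nat_lit 12))
    (@En.n l28 (nat_lit 4592) (nat_lit 15) (nat_lit 2))))
  (@Cl.mk (nat_lit 0x2000c000c000b00090004000400080005000d000d000700030003000e0008) (nat_lit 0x1760004046000a1) (nat_lit 16) Lb.e (@T16.mk En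
    (@En.i (nat_lit 3990) (nat_lit 13) (nat_lit 8))
    (@En.n l8965 (nat_lit 11126) (nat_lit 1) (nat_lit 14))
    (@En.n l27230 (nat_lit 4594) (nat_lit 13) (nat_lit 3))
    (@En.n l18 (nat_lit 4595) (nat_lit 3) (nat_lit 3))
    (@En.n l8965 (nat_lit 3172) (nat_lit 0) (nat_lit 7))
    (@En.n l61 (nat_lit 4595) (nat_lit 6) (nat_lit 13))
    (@En.n l27231 (nat_lit 4590) (nat_lit 7) (nat_lit 13))
    (@En.n l18132 (nat_lit 4819) (nat_lit 7) (nat_lit 5))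
    (@En.n l117 (nat_lit 3043) (nat_lit 4) (nat_lit 8))
    (@En.n l575 (nat_lit 4596) (nat_lit 12) (nat_lit 4))
    (@En.n l18122 (nat_lit 4667) (nat_lit 10) (nat_lit 4))
    (@En.n l1578 (nat_lit 4599) (nat_lit 12) (nat_lit 9))
    (@En.n l17285 (nat_lit 5639) (nat_lit 13) (nat_lit 11))
    (@En.n l23199 (nat_lit 3991) (nat_lit 4) (nat_lit 12))
    (@En.i (nat_lit 2361) (nat_lit 11) (nat_lit 12))
    (@En.n l3 (nat_lit 4593) (nat_lit 15) (nat_lit 2))))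
  (@Cl.mk (nat_lit 0x200080003000e00080002000c000c000b00080004000400080005000e000d) (nat_lit 0xc101a860020a5) (nat_lit 16) Lb.e (@T16.mk En
    (@En.n l13556 (nat_lit 4593) (nat_lit 6) (nat_lit 13))
    (@En.i (nat_lit 3395) (nat_lit 1) (nat_lit 14))
    (@En.n l775 (nat_lit 4820) (nat_lit 2) (nat_lit 5))
    (@En.i (nat_lit 4197) (nat_lit 3) (nat_lit 8))
    (@En.n l2593 (nat_lit 4888) (nat_lit 4) (nat_lit 4))
    (@En.n l5349 (nat_lit 4668) (nat_lit 5) (nat_lit 4))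
    (@En.n l61 (nat_lit 4732) (nat_lit 6) (nat_lit 8))
    (@En.n l2348 (nat_lit 5645) (nat_lit 8) (nat_lit 11))
    (@En.n l5396 (nat_lit 4826) (nat_lit 4) (nat_lit 12))
    (@En.i (nat_lit 2359) (nat_lit 10) (nat_lit 12))
    (@En.n l28 (nat_lit 4594) (nat_lit 10) (nat_lit 2))
    (@En.n l13557 (nat_lit 3995) (nat_lit 12) (nat_lit 8))
    (@En.i (nat_lit 8939) (nat_lit 1) (nat_lit 14))
    (@En.n l13558 (nat_lit 4593) (nat_lit 2) (nat_lit 3))
    (@En.n l2843 (nat_lit 4830) (nat_lit 3) (nat_lit 8))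
    (@En.n l3 (nat_lit 4594) (nat_lit 15) (nat_lit 2))))
  (@Cl.mk (nat_lit 0x2000c000c000b000a0004000400080005000d0006000e00030002000e0008) (nat_lit 0x5476001050700c1) (nat_lit 16) Lb.e (@T16.mk En
    (@En.i (nat_lit 3998) (nat_lit 14) (nat_lit 8))
    (@En.i (nat_lit 11127) (nat_lit 1) (nat_lit 14))
    (@En.n l17 (nat_lit 4595) (nat_lit 2) (nat_lit 2))
    (@En.i (nat_lit 4593) (nat_lit 3) (nat_lit 3))
    (@En.i (nat_lit 13960) (nat_lit 0) (nat_lit 14))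
    (@En.n l7 (nat_lit 4898) (nat_lit 5) (nat_lit 6))
    (@En.n l564 (nat_lit 4591) (nat_lit 7) (nat_lit 13))
    (@En.n l7 (nat_lit 4821) (nat_lit 7) (nat_lit 5))
    (@En.n l117 (nat_lit 3045) (nat_lit 5) (nat_lit 8))
    (@En.n l575 (nat_lit 4845) (nat_lit 12) (nat_lit 4))
    (@En.i (nat_lit 4669) (nat_lit 10) (nat_lit 4))
    (@En.n l11881 (nat_lit 4803) (nat_lit 12) (nat_lit 10))
    (@En.n l1578 (nat_lit 5641) (nat_lit 13) (nat_lit 11))
    (@En.i (nat_lit 4804) (nat_lit 4) (nat_lit 12))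
    (@En.i (nat_lit 4190) (nat_lit 12) (nat_lit 12))
    (@En.n l3 (nat_lit 4595) (nat_lit 15) (nat_lit 2))))
  (@Cl.mk (nat_lit 0x2000c000a000400080004000d000d000600030003000e00080002000e000c) (nat_lit 0x200305600090012) (nat_lit 16) Lb.e (@T16.mk En
    (@En.i (nat_lit 4593) (nat_lit 14) (nat_lit 12))
    (@En.i (nat_lit 2354) (nat_lit 1) (nat_lit 14))
    (@En.n l3 (nat_lit 4596) (nat_lit 2) (nat_lit 2))
    (@En.i (nat_lit 4882) (nat_lit 3) (nat_lit 8))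
    (@En.i (nat_lit 10341) (nat_lit 1) (nat_lit 14))
    (@En.n l5331 (nat_lit 4888) (nat_lit 13) (nat_lit 3))
    (@En.n l18 (nat_lit 4845) (nat_lit 6) (nat_lit 3))
    (@En.n l7 (nat_lit 5246) (nat_lit 0) (nat_lit 6))
    (@En.n l61 (nat_lit 4845) (nat_lit 9) (nat_lit 13))
    (@En.n l564 (nat_lit 3447) (nat_lit 10) (nat_lit 13))
    (@En.n l7 (nat_lit 4843) (nat_lit 10) (nat_lit 4))
    (@En.i (nat_lit 3783) (nat_lit 12) (nat_lit 8))
    (@En.i (nat_lit 5644) (nat_lit 9) (nat_lit 4))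
    (@En.i (nat_lit 4731) (nat_lit 14) (nat_lit 10))
    (@En.i (nat_lit 3255) (nat_lit 12) (nat_lit 12))
    (@En.n l11 (nat_lit 4596) (nat_lit 15) (nat_lit 2))))
  (@Cl.mk (nat_lit 0x2000d000d000b000300030007000c0005000d000d000400030003000e0009) (nat_lit 0x1260005067000c5) (nat_lit 16) Lb.e (@T16.mk En
    (@En.i (nat_lit 4679) (nat_lit 4) (nat_lit 9))
    (@En.i (nat_lit 5548) (nat_lit 1) (nat_lit 14))
    (@En.n l3180 (nat_lit 4598) (nat_lit 13) (nat_lit 3))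
    (@En.n l18 (nat_lit 4601) (nat_lit 3) (nat_lit 3))
    (@En.n l947 (nat_lit 4672) (nat_lit 0) (nat_lit 4))
    (@En.n l61 (nat_lit 4601) (nat_lit 6) (nat_lit 13))
    (@En.i (nat_lit 4718) (nat_lit 7) (nat_lit 13))
    (@En.n l2678 (nat_lit 4593) (nat_lit 7) (nat_lit 5))
    (@En.n l2869 (nat_lit 2869) (nat_lit 9) (nat_lit 12))
    (@En.n l810 (nat_lit 3005) (nat_lit 5) (nat_lit 7))
    (@En.n l28 (nat_lit 4600) (nat_lit 13) (nat_lit 3))
    (@En.i (nat_lit 4801) (nat_lit 0) (nat_lit 3))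
    (@En.i (nat_lit 4843) (nat_lit 0) (nat_lit 11))
    (@En.n l1578 (nat_lit 4801) (nat_lit 3) (nat_lit 13))
    (@En.i (nat_lit 2263) (nat_lit 11) (nat_lit 13))
    (@En.n l3 (nat_lit 4597) (nat_lit 15) (nat_lit 2))))
  (@Cl.mk (nat_lit 0x200050003000e00090002000d000d000b000300030007000b0005000e000d) (nat_lit 0xc5012800060a7) (nat_lit 16) Lb.e (@T16.mk En
    (@En.n l6108 (nat_lit 4597) (nat_lit 6) (nat_lit 13))
    (@En.i (nat_lit 4732) (nat_lit 1) (nat_lit 14))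
    (@En.i (nat_lit 4594) (nat_lit 2) (nat_lit 5))
    (@En.i (nat_lit 3543) (nat_lit 3) (nat_lit 11))
    (@En.i (nat_lit 4256) (nat_lit 4) (nat_lit 7))
    (@En.n l2593 (nat_lit 4730) (nat_lit 5) (nat_lit 3))
    (@En.i (nat_lit 4812) (nat_lit 6) (nat_lit 3))
    (@En.n l2348 (nat_lit 4850) (nat_lit 8) (nat_lit 11))
    (@En.n l1363 (nat_lit 4812) (nat_lit 9) (nat_lit 13))
    (@En.i (nat_lit 2324) (nat_lit 10) (nat_lit 13))
    (@En.n l28 (nat_lit 4598) (nat_lit 10) (nat_lit 2))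
    (@En.n l780 (nat_lit 4680) (nat_lit 12) (nat_lit 9))
    (@En.i (nat_lit 3677) (nat_lit 13) (nat_lit 14))
    (@En.n l12871 (nat_lit 4597) (nat_lit 2) (nat_lit 3))
    (@En.n l781 (nat_lit 3377) (nat_lit 3) (nat_lit 5))
    (@En.n l3 (nat_lit 4598) (nat_lit 15) (nat_lit 2))))
  (@Cl.mk (nat_lit 0x2000d000d0009000300030007000c000c000c0007000400040004000e0009) (nat_lit 0x6770004570000c5) (nat_lit 16) Lb.e (@T16.mk En
    (@En.n l11409 (nat_lit 4677) (nat_lit 4) (nat_lit 9))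
    (@En.n l3541 (nat_lit 3996) (nat_lit 1) (nat_lit 14))
    (@En.n l11056 (nat_lit 4732) (nat_lit 12) (nat_lit 4))
    (@En.n l2172 (nat_lit 4723) (nat_lit 12) (nat_lit 4))
    (@En.i (nat_lit 4597) (nat_lit 4) (nat_lit 4))
    (@En.n l3541 (nat_lit 4480) (nat_lit 5) (nat_lit 7))
    (@En.n l742 (nat_lit 4803) (nat_lit 7) (nat_lit 12))
    (@En.n l5913 (nat_lit 4672) (nat_lit 4) (nat_lit 12))
    (@En.n l2869 (nat_lit 3655) (nat_lit 9) (nat_lit 12))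
    (@En.n l810 (nat_lit 3872) (nat_lit 14) (nat_lit 7))
    (@En.n l28 (nat_lit 4731) (nat_lit 13) (nat_lit 3))
    (@En.n l12620 (nat_lit 4727) (nat_lit 0) (nat_lit 3))
    (@En.i (nat_lit 5248) (nat_lit 0) (nat_lit 9))
    (@En.n l6380 (nat_lit 4727) (nat_lit 3) (nat_lit 13))
    (@En.i (nat_lit 4390) (nat_lit 2) (nat_lit 13))
    (@En.n l3 (nat_lit 4599) (nat_lit 15) (nat_lit 2))))
  (@Cl.mk (nat_lit 0x2000c00030007000c0004000d000d000400030003000e00090002000e000d) (nat_lit 0x7004056000b5022) (nat_lit 16) Lb.e (@T16.mk En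
    (@En.n l1578 (nat_lit 4597) (nat_lit 14) (nat_lit 13))
    (@En.i (nat_lit 2259) (nat_lit 1) (nat_lit 14))
    (@En.n l3 (nat_lit 4600) (nat_lit 2) (nat_lit 2))
    (@En.i (nat_lit 4682) (nat_lit 3) (nat_lit 9))
    (@En.i (nat_lit 5547) (nat_lit 1) (nat_lit 14))
    (@En.n l5331 (nat_lit 4730) (nat_lit 13) (nat_lit 3))
    (@En.n l18 (nat_lit 4841) (nat_lit 6) (nat_lit 3))
    (@En.n l947 (nat_lit 4728) (nat_lit 0) (nat_lit 4))
    (@En.n l61 (nat_lit 4841) (nat_lit 9) (nat_lit 13))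
    (@En.i (nat_lit 4721) (nat_lit 10) (nat_lit 13))
    (@En.i (nat_lit 4596) (nat_lit 10) (nat_lit 4))
    (@En.n l2869 (nat_lit 4033) (nat_lit 12) (nat_lit 12))
    (@En.i (nat_lit 3780) (nat_lit 13) (nat_lit 7))
    (@En.i (nat_lit 4597) (nat_lit 10) (nat_lit 3))
    (@En.i (nat_lit 5869) (nat_lit 0) (nat_lit 12))
    (@En.n l11 (nat_lit 4600) (nat_lit 15) (nat_lit 2))))
  (@Cl.mk (nat_lit 0x2000d000d000b000300030007000d0005000d0003000e00030002000e0009) (nat_lit 0x1a6000a060300c7) (nat_lit 16) Lb.e (@T16.mk En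
    (@En.i (nat_lit 4683) (nat_lit 14) (nat_lit 9))
    (@En.i (nat_lit 3629) (nat_lit 1) (nat_lit 14))
    (@En.n l17 (nat_lit 4601) (nat_lit 2) (nat_lit 2))
    (@En.i (nat_lit 4597) (nat_lit 3) (nat_lit 3))
    (@En.i (nat_lit 13048) (nat_lit 0) (nat_lit 14))
    (@En.i (nat_lit 4803) (nat_lit 5) (nat_lit 3))
    (@En.i (nat_lit 4720) (nat_lit 0) (nat_lit 13))
    (@En.n l2678 (nat_lit 4595) (nat_lit 7) (nat_lit 5))
    (@En.i (nat_lit 2856) (nat_lit 9) (nat_lit 13))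
    (@En.n l810 (nat_lit 3003) (nat_lit 6) (nat_lit 7))
    (@En.n l28 (nat_lit 4841) (nat_lit 13) (nat_lit 3))
    (@En.i (nat_lit 4800) (nat_lit 0) (nat_lit 3))
    (@En.i (nat_lit 4842) (nat_lit 0) (nat_lit 11))
    (@En.n l1578 (nat_lit 4800) (nat_lit 3) (nat_lit 13))
    (@En.i (nat_lit 2375) (nat_lit 12) (nat_lit 13))
    (@En.n l3 (nat_lit 4601) (nat_lit 15) (nat_lit 2))))
  (@Cl.mk (nat_lit 0x2000b000a0006000d000b000500030006000e00050002000d000a000e0003) (nat_lit 0x760a0000700b140) (nat_lit 16) Lb.e (@T16.mk En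
    (@En.n l1992 (nat_lit 3437) (nat_lit 11) (nat_lit 3))
    (@En.n l2038 (nat_lit 13399) (nat_lit 0) (nat_lit 14))
    (@En.n l1184 (nat_lit 2409) (nat_lit 2) (nat_lit 10))
    (@En.i (nat_lit 12431) (nat_lit 2) (nat_lit 13))
    (@En.n l17 (nat_lit 4602) (nat_lit 4) (nat_lit 2))
    (@En.n l10793 (nat_lit 4604) (nat_lit 5) (nat_lit 5))
    (@En.i (nat_lit 3771) (nat_lit 1) (nat_lit 14))
    (@En.i (nat_lit 2700) (nat_lit 7) (nat_lit 6))
    (@En.n l50 (nat_lit 3438) (nat_lit 8) (nat_lit 3))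
    (@En.n l3199 (nat_lit 2125) (nat_lit 0) (nat_lit 5))
    (@En.n l10793 (nat_lit 7378) (nat_lit 11) (nat_lit 11))
    (@En.n l476 (nat_lit 3429) (nat_lit 12) (nat_lit 13))
    (@En.n l1769 (nat_lit 7533) (nat_lit 13) (nat_lit 6))
    (@En.i (nat_lit 2420) (nat_lit 14) (nat_lit 10))
    (@En.i (nat_lit 9595) (nat_lit 10) (nat_lit 11))
    (@En.n l11 (nat_lit 4602) (nat_lit 15) (nat_lit 2))))
  (@Cl.mk (nat_lit 0x30003000a00090005000c000b000b00060004000700050005000d000d000b) (nat_lit 0x56093100000002) (nat_lit 16) Lb.e (@T16.mk En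
    (@En.i (nat_lit 7523) (nat_lit 0) (nat_lit 11))
    (@En.n l19322 (nat_lit 4604) (nat_lit 3) (nat_lit 13))
    (@En.n l532 (nat_lit 9734) (nat_lit 2) (nat_lit 13))
    (@En.n l11 (nat_lit 4609) (nat_lit 11) (nat_lit 5))
    (@En.n l4172 (nat_lit 7366) (nat_lit 4) (nat_lit 5))
    (@En.i (nat_lit 1842) (nat_lit 11) (nat_lit 7))
    (@En.n l936 (nat_lit 7379) (nat_lit 6) (nat_lit 4))
    (@En.i (nat_lit 7285) (nat_lit 7) (nat_lit 6))
    (@En.n l2940 (nat_lit 3437) (nat_lit 5) (nat_lit 11))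
    (@En.n l8550 (nat_lit 7226) (nat_lit 10) (nat_lit 11))
    (@En.n l8682 (nat_lit 4606) (nat_lit 11) (nat_lit 12))
    (@En.n l2944 (nat_lit 8670) (nat_lit 12) (nat_lit 5))
    (@En.n l7891 (nat_lit 2201) (nat_lit 13) (nat_lit 9))
    (@En.i (nat_lit 9079) (nat_lit 14) (nat_lit 10))
    (@En.n l50 (nat_lit 4607) (nat_lit 13) (nat_lit 3))
    (@En.n l7973 (nat_lit 4604) (nat_lit 0) (nat_lit 3))))
  (@Cl.mk (nat_lit 0x2000a00090006000c000b000b00060004000700050005000d000a000e0003) (nat_lit 0x56093100000b140) (nat_lit 16) Lb.e (@T16.mk En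
    (@En.n l19145 (nat_lit 4603) (nat_lit 15) (nat_lit 3))
    (@En.i (nat_lit 14006) (nat_lit 0) (nat_lit 14))
    (@En.n l19146 (nat_lit 2408) (nat_lit 2) (nat_lit 10))
    (@En.n l16327 (nat_lit 11842) (nat_lit 2) (nat_lit 13))
    (@En.n l19147 (nat_lit 4611) (nat_lit 11) (nat_lit 5))
    (@En.n l4527 (nat_lit 7373) (nat_lit 5) (nat_lit 5))
    (@En.n l4596 (nat_lit 2698) (nat_lit 6) (nat_lit 7))
    (@En.n l19148 (nat_lit 7381) (nat_lit 7) (nat_lit 4))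
    (@En.n l7839 (nat_lit 7286) (nat_lit 8) (nat_lit 6))
    (@En.n l19149 (nat_lit 4602) (nat_lit 10) (nat_lit 11))
    (@En.i (nat_lit 7375) (nat_lit 11) (nat_lit 11))
    (@En.n l19150 (nat_lit 4605) (nat_lit 12) (nat_lit 12))
    (@En.n l19151 (nat_lit 7537) (nat_lit 13) (nat_lit 6))
    (@En.n l619 (nat_lit 2419) (nat_lit 14) (nat_lit 9))
    (@En.n l19146 (nat_lit 9588) (nat_lit 14) (nat_lit 10))
    (@En.n l17 (nat_lit 4604) (nat_lit 15) (nat_lit 2))))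
  (@Cl.mk (nat_lit 0x2000b0009000c000a000a00050004000b000700060006000d0005000e0003) (nat_lit 0x568010000000030) (nat_lit 16) Lb.e (@T16.mk En
    (@En.i (nat_lit 4606) (nat_lit 15) (nat_lit 3))
    (@En.n l8012 (nat_lit 14020) (nat_lit 0) (nat_lit 14))
    (@En.i (nat_lit 6041) (nat_lit 2) (nat_lit 5))
    (@En.n l11008 (nat_lit 11841) (nat_lit 2) (nat_lit 13))
    (@En.n l19446 (nat_lit 4612) (nat_lit 10) (nat_lit 6))
    (@En.i (nat_lit 4338) (nat_lit 5) (nat_lit 6))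
    (@En.n l8344 (nat_lit 4604) (nat_lit 6) (nat_lit 7))
    (@En.n l1770 (nat_lit 8201) (nat_lit 8) (nat_lit 11))
    (@En.n l12363 (nat_lit 7384) (nat_lit 8) (nat_lit 4))
    (@En.n l11010 (nat_lit 4346) (nat_lit 9) (nat_lit 5))
    (@En.n l19707 (nat_lit 3429) (nat_lit 11) (nat_lit 10))
    (@En.n l8344 (nat_lit 7120) (nat_lit 12) (nat_lit 10))
    (@En.n l15520 (nat_lit 3508) (nat_lit 6) (nat_lit 12))
    (@En.n l4109 (nat_lit 2422) (nat_lit 14) (nat_lit 9))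
    (@En.n l19708 (nat_lit 9587) (nat_lit 14) (nat_lit 11))
    (@En.n l17 (nat_lit 4605) (nat_lit 15) (nat_lit 2))))
  (@Cl.mk (nat_lit 0x30003000b0009000c000a000a00050004000a000700060006000d000d0006) (nat_lit 0x56823000000010) (nat_lit 16) Lb.e (@T16.mk En
    (@En.n l15512 (nat_lit 7041) (nat_lit 0) (nat_lit 6))
    (@En.n l61 (nat_lit 4605) (nat_lit 3) (nat_lit 13))
    (@En.n l11008 (nat_lit 9733) (nat_lit 2) (nat_lit 13))
    (@En.n l15513 (nat_lit 4610) (nat_lit 10) (nat_lit 6))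
    (@En.i (nat_lit 4341) (nat_lit 4) (nat_lit 6))
    (@En.n l15514 (nat_lit 4603) (nat_lit 5) (nat_lit 7))
    (@En.n l15515 (nat_lit 8122) (nat_lit 7) (nat_lit 10))
    (@En.n l15516 (nat_lit 7382) (nat_lit 7) (nat_lit 4))
    (@En.n l15517 (nat_lit 4347) (nat_lit 8) (nat_lit 5))
    (@En.n l15518 (nat_lit 3430) (nat_lit 6) (nat_lit 10))
    (@En.n l15519 (nat_lit 7117) (nat_lit 11) (nat_lit 10))
    (@En.n l15520 (nat_lit 1843) (nat_lit 6) (nat_lit 12))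
    (@En.n l8330 (nat_lit 2199) (nat_lit 13) (nat_lit 9))
    (@En.n l15521 (nat_lit 9080) (nat_lit 14) (nat_lit 11))
    (@En.n l15522 (nat_lit 4608) (nat_lit 13) (nat_lit 3))
    (@En.n l18 (nat_lit 4605) (nat_lit 0) (nat_lit 3))))
  (@Cl.mk (nat_lit 0x2000c0003000a00090004000c000b000b00060004000700050005000e000d) (nat_lit 0x205608300000091) (nat_lit 16) Lb.e (@T16.mk En
    (@En.n l601 (nat_lit 4603) (nat_lit 2) (nat_lit 13))
    (@En.n l532 (nat_lit 9732) (nat_lit 1) (nat_lit 14))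
    (@En.n l11 (nat_lit 4613) (nat_lit 11) (nat_lit 5))
    (@En.i (nat_lit 7365) (nat_lit 3) (nat_lit 5))
    (@En.i (nat_lit 2556) (nat_lit 4) (nat_lit 7))
    (@En.n l936 (nat_lit 7380) (nat_lit 5) (nat_lit 4))
    (@En.i (nat_lit 7289) (nat_lit 6) (nat_lit 6))
    (@En.n l619 (nat_lit 4616) (nat_lit 8) (nat_lit 11))
    (@En.n l5705 (nat_lit 7374) (nat_lit 9) (nat_lit 11))
    (@En.i (nat_lit 4608) (nat_lit 10) (nat_lit 12))
    (@En.i (nat_lit 8675) (nat_lit 10) (nat_lit 4))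
    (@En.n l5781 (nat_lit 2202) (nat_lit 12) (nat_lit 9))
    (@En.i (nat_lit 10873) (nat_lit 13) (nat_lit 10))
    (@En.i (nat_lit 4603) (nat_lit 14) (nat_lit 3))
    (@En.i (nat_lit 904) (nat_lit 0) (nat_lit 12))
    (@En.n l7 (nat_lit 4607) (nat_lit 15) (nat_lit 2))))
noncomputable def a288 : T16 Cl := @T16.mk Cl
  (@Cl.mk (nat_lit 0x200070003000b0009000c000a000a000500040009000700060006000e000d) (nat_lit 0x5570100000001) (nat_lit 16) Lb.e (@T16.mk En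
    (@En.n l8680 (nat_lit 4606) (nat_lit 2) (nat_lit 13))
    (@En.n l1113 (nat_lit 9731) (nat_lit 1) (nat_lit 14))
    (@En.n l11 (nat_lit 4614) (nat_lit 2) (nat_lit 6))
    (@En.n l2711 (nat_lit 7360) (nat_lit 3) (nat_lit 6))
    (@En.n l17 (nat_lit 4607) (nat_lit 4) (nat_lit 7))
    (@En.i (nat_lit 8128) (nat_lit 5) (nat_lit 9))
    (@En.n l7290 (nat_lit 7385) (nat_lit 6) (nat_lit 4))
    (@En.i (nat_lit 7215) (nat_lit 7) (nat_lit 5))
    (@En.n l7765 (nat_lit 3435) (nat_lit 9) (nat_lit 10))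
    (@En.n l8681 (nat_lit 7116) (nat_lit 10) (nat_lit 10))
    (@En.n l1113 (nat_lit 2563) (nat_lit 11) (nat_lit 12))
    (@En.n l5781 (nat_lit 2197) (nat_lit 12) (nat_lit 9))
    (@En.i (nat_lit 10872) (nat_lit 13) (nat_lit 11))
    (@En.n l8682 (nat_lit 4606) (nat_lit 14) (nat_lit 3))
    (@En.n l2711 (nat_lit 6674) (nat_lit 0) (nat_lit 7))
    (@En.n l7 (nat_lit 4608) (nat_lit 15) (nat_lit 2))))
  (@Cl.mk (nat_lit 0x20007000500080005000d000d000b00030003000900080005000b000e000b) (nat_lit 0x3000000560854) (nat_lit 16) Lb.e (@T16.mk En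
    (@En.n l68 (nat_lit 4603) (nat_lit 9) (nat_lit 11))
    (@En.n l638 (nat_lit 5814) (nat_lit 4) (nat_lit 14))
    (@En.n l3273 (nat_lit 4610) (nat_lit 2) (nat_lit 11))
    (@En.n l3451 (nat_lit 8664) (nat_lit 3) (nat_lit 5))
    (@En.n l638 (nat_lit 2203) (nat_lit 4) (nat_lit 8))
    (@En.i (nat_lit 9081) (nat_lit 5) (nat_lit 9))
    (@En.n l50 (nat_lit 4613) (nat_lit 6) (nat_lit 3))
    (@En.n l3451 (nat_lit 4611) (nat_lit 7) (nat_lit 3))
    (@En.i (nat_lit 7644) (nat_lit 9) (nat_lit 11))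
    (@En.n l3492 (nat_lit 4611) (nat_lit 10) (nat_lit 13))
    (@En.n l255 (nat_lit 11138) (nat_lit 11) (nat_lit 13))
    (@En.i (nat_lit 6991) (nat_lit 3) (nat_lit 5))
    (@En.i (nat_lit 2712) (nat_lit 13) (nat_lit 8))
    (@En.n l2319 (nat_lit 7383) (nat_lit 14) (nat_lit 5))
    (@En.n l4819 (nat_lit 7282) (nat_lit 6) (nat_lit 7))
    (@En.n l67 (nat_lit 4609) (nat_lit 15) (nat_lit 2))))
  (@Cl.mk (nat_lit 0x200060005000b00080006000d000d000500030003000a0008000b000e000a) (nat_lit 0x409a00056743) (nat_lit 16) Lb.e (@T16.mk En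
    (@En.n l6358 (nat_lit 4606) (nat_lit 10) (nat_lit 10))
    (@En.i (nat_lit 5810) (nat_lit 4) (nat_lit 14))
    (@En.n l6359 (nat_lit 2494) (nat_lit 2) (nat_lit 11))
    (@En.i (nat_lit 2198) (nat_lit 3) (nat_lit 8))
    (@En.n l649 (nat_lit 9604) (nat_lit 4) (nat_lit 10))
    (@En.n l6360 (nat_lit 4614) (nat_lit 13) (nat_lit 3))
    (@En.n l731 (nat_lit 4612) (nat_lit 6) (nat_lit 3))
    (@En.n l6361 (nat_lit 7047) (nat_lit 7) (nat_lit 5))
    (@En.n l2013 (nat_lit 4612) (nat_lit 9) (nat_lit 13))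
    (@En.n l6362 (nat_lit 11135) (nat_lit 10) (nat_lit 13))
    (@En.n l6358 (nat_lit 4264) (nat_lit 3) (nat_lit 6))
    (@En.n l6363 (nat_lit 4609) (nat_lit 12) (nat_lit 8))
    (@En.n l6364 (nat_lit 8131) (nat_lit 13) (nat_lit 11))
    (@En.n l6365 (nat_lit 4615) (nat_lit 14) (nat_lit 5))
    (@En.n l2179 (nat_lit 4343) (nat_lit 7) (nat_lit 6))
    (@En.n l50 (nat_lit 4610) (nat_lit 15) (nat_lit 2))))
  (@Cl.mk (nat_lit 0x20007000500080005000d000a000e00030002000900080006000b000e000b) (nat_lit 0x30b0700560264) (nat_lit 16) Lb.e (@T16.mk En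
    (@En.n l9615 (nat_lit 4604) (nat_lit 10) (nat_lit 11))
    (@En.n l9616 (nat_lit 5815) (nat_lit 4) (nat_lit 14))
    (@En.n l7688 (nat_lit 4612) (nat_lit 2) (nat_lit 11))
    (@En.i (nat_lit 8663) (nat_lit 3) (nat_lit 6))
    (@En.n l1036 (nat_lit 2425) (nat_lit 14) (nat_lit 8))
    (@En.n l1241 (nat_lit 9602) (nat_lit 5) (nat_lit 9))
    (@En.n l7 (nat_lit 4611) (nat_lit 6) (nat_lit 2))
    (@En.n l1246 (nat_lit 4609) (nat_lit 7) (nat_lit 3))
    (@En.n l9617 (nat_lit 14024) (nat_lit 0) (nat_lit 14))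
    (@En.i (nat_lit 7646) (nat_lit 10) (nat_lit 10))
    (@En.n l9618 (nat_lit 12063) (nat_lit 11) (nat_lit 13))
    (@En.n l9619 (nat_lit 6995) (nat_lit 4) (nat_lit 5))
    (@En.n l4062 (nat_lit 2693) (nat_lit 13) (nat_lit 8))
    (@En.n l17 (nat_lit 7387) (nat_lit 14) (nat_lit 5))
    (@En.i (nat_lit 7281) (nat_lit 7) (nat_lit 7))
    (@En.n l3 (nat_lit 4611) (nat_lit 15) (nat_lit 2))))
  (@Cl.mk (nat_lit 0x200060005000c00080006000d0004000e00030002000a0008000b000e000a) (nat_lit 0x409080056151) (nat_lit 16) Lb.e (@T16.mk En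
    (@En.n l6262 (nat_lit 4605) (nat_lit 11) (nat_lit 10))
    (@En.n l1643 (nat_lit 5809) (nat_lit 12) (nat_lit 14))
    (@En.n l6126 (nat_lit 2492) (nat_lit 2) (nat_lit 11))
    (@En.i (nat_lit 2430) (nat_lit 14) (nat_lit 8))
    (@En.n l1998 (nat_lit 9598) (nat_lit 4) (nat_lit 10))
    (@En.n l28 (nat_lit 4612) (nat_lit 5) (nat_lit 2))
    (@En.n l615 (nat_lit 4610) (nat_lit 6) (nat_lit 3))
    (@En.n l11277 (nat_lit 14022) (nat_lit 0) (nat_lit 14))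
    (@En.n l9302 (nat_lit 7738) (nat_lit 8) (nat_lit 4))
    (@En.n l6296 (nat_lit 10941) (nat_lit 10) (nat_lit 13))
    (@En.n l6262 (nat_lit 3341) (nat_lit 4) (nat_lit 6))
    (@En.n l5619 (nat_lit 4611) (nat_lit 12) (nat_lit 8))
    (@En.n l8368 (nat_lit 8200) (nat_lit 13) (nat_lit 12))
    (@En.n l11278 (nat_lit 7409) (nat_lit 14) (nat_lit 5))
    (@En.n l11279 (nat_lit 4342) (nat_lit 8) (nat_lit 6))
    (@En.n l18 (nat_lit 4612) (nat_lit 15) (nat_lit 2))))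
  (@Cl.mk (nat_lit 0x20007000500080005000e000d0002000c0003000900080004000b000e000b) (nat_lit 0x2001000560834) (nat_lit 16) Lb.e (@T16.mk En
    (@En.n l68 (nat_lit 4607) (nat_lit 8) (nat_lit 11))
    (@En.n l638 (nat_lit 5816) (nat_lit 4) (nat_lit 14))
    (@En.i (nat_lit 4614) (nat_lit 10) (nat_lit 11))
    (@En.n l265 (nat_lit 8669) (nat_lit 3) (nat_lit 4))
    (@En.n l638 (nat_lit 2200) (nat_lit 12) (nat_lit 8))
    (@En.i (nat_lit 11504) (nat_lit 5) (nat_lit 9))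
    (@En.i (nat_lit 4609) (nat_lit 6) (nat_lit 3))
    (@En.i (nat_lit 7627) (nat_lit 8) (nat_lit 12))
    (@En.n l7 (nat_lit 4613) (nat_lit 8) (nat_lit 2))
    (@En.n l601 (nat_lit 4609) (nat_lit 10) (nat_lit 13))
    (@En.n l255 (nat_lit 8163) (nat_lit 11) (nat_lit 14))
    (@En.i (nat_lit 6993) (nat_lit 2) (nat_lit 5))
    (@En.i (nat_lit 2713) (nat_lit 13) (nat_lit 8))
    (@En.n l2316 (nat_lit 7386) (nat_lit 14) (nat_lit 5))
    (@En.n l4819 (nat_lit 7287) (nat_lit 5) (nat_lit 7))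
    (@En.n l67 (nat_lit 4613) (nat_lit 15) (nat_lit 2))))
  (@Cl.mk (nat_lit 0x200060003000a0008000b000e000a000200060005000a00080006000e000d) (nat_lit 0x557510000300a) (nat_lit 16) Lb.e (@T16.mk En
    (@En.n l3270 (nat_lit 4610) (nat_lit 9) (nat_lit 13))
    (@En.n l3271 (nat_lit 8164) (nat_lit 10) (nat_lit 14))
    (@En.n l264 (nat_lit 1015) (nat_lit 2) (nat_lit 6))
    (@En.n l17 (nat_lit 4613) (nat_lit 12) (nat_lit 8))
    (@En.i (nat_lit 8130) (nat_lit 13) (nat_lit 10))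
    (@En.n l267 (nat_lit 7402) (nat_lit 14) (nat_lit 5))
    (@En.n l3272 (nat_lit 7331) (nat_lit 6) (nat_lit 6))
    (@En.n l67 (nat_lit 4614) (nat_lit 7) (nat_lit 2))
    (@En.n l68 (nat_lit 4608) (nat_lit 9) (nat_lit 10))
    (@En.n l2057 (nat_lit 5811) (nat_lit 10) (nat_lit 14))
    (@En.i (nat_lit 2501) (nat_lit 2) (nat_lit 11))
    (@En.n l638 (nat_lit 2196) (nat_lit 12) (nat_lit 8))
    (@En.i (nat_lit 11506) (nat_lit 4) (nat_lit 10))
    (@En.n l3273 (nat_lit 4610) (nat_lit 5) (nat_lit 3))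
    (@En.n l264 (nat_lit 6620) (nat_lit 6) (nat_lit 6))
    (@En.n l7 (nat_lit 4614) (nat_lit 15) (nat_lit 2))))
  (@Cl.mk (nat_lit 0x20005000b00080005000d000d000500030003000d0008000b0003000e000b) (nat_lit 0x2000000568052) (nat_lit 16) Lb.e (@T16.mk En
    (@En.n l870 (nat_lit 7382) (nat_lit 9) (nat_lit 11))
    (@En.n l2852 (nat_lit 4610) (nat_lit 1) (nat_lit 14))
    (@En.n l2853 (nat_lit 7403) (nat_lit 2) (nat_lit 3))
    (@En.i (nat_lit 2500) (nat_lit 3) (nat_lit 11))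
    (@En.n l2854 (nat_lit 2145) (nat_lit 4) (nat_lit 8))
    (@En.n l564 (nat_lit 10011) (nat_lit 6) (nat_lit 13))
    (@En.n l237 (nat_lit 7402) (nat_lit 6) (nat_lit 3))
    (@En.i (nat_lit 7409) (nat_lit 7) (nat_lit 3))
    (@En.n l55 (nat_lit 7048) (nat_lit 8) (nat_lit 5))
    (@En.n l134 (nat_lit 7409) (nat_lit 10) (nat_lit 13))
    (@En.n l2854 (nat_lit 10940) (nat_lit 11) (nat_lit 13))
    (@En.n l2855 (nat_lit 4263) (nat_lit 3) (nat_lit 5))
    (@En.i (nat_lit 7383) (nat_lit 13) (nat_lit 8))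
    (@En.n l2856 (nat_lit 8325) (nat_lit 14) (nat_lit 11))
    (@En.i (nat_lit 7316) (nat_lit 13) (nat_lit 5))
    (@En.n l3 (nat_lit 4615) (nat_lit 15) (nat_lit 2))))
  (@Cl.mk (nat_lit 0x2000c0003000b000a0004000d000b000500030006000e00050002000e000d) (nat_lit 0x207509900020091) (nat_lit 16) Lb.e (@T16.mk En
    (@En.n l9934 (nat_lit 3437) (nat_lit 14) (nat_lit 13))
    (@En.n l15991 (nat_lit 12697) (nat_lit 1) (nat_lit 14))
    (@En.n l11 (nat_lit 4616) (nat_lit 2) (nat_lit 2))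
    (@En.n l117 (nat_lit 4607) (nat_lit 3) (nat_lit 5))
    (@En.n l2351 (nat_lit 3770) (nat_lit 1) (nat_lit 14))
    (@En.i (nat_lit 2705) (nat_lit 5) (nat_lit 6))
    (@En.n l936 (nat_lit 3439) (nat_lit 6) (nat_lit 3))
    (@En.i (nat_lit 2129) (nat_lit 0) (nat_lit 5))
    (@En.n l3647 (nat_lit 7377) (nat_lit 9) (nat_lit 11))
    (@En.n l7291 (nat_lit 3435) (nat_lit 10) (nat_lit 13))
    (@En.n l2351 (nat_lit 4619) (nat_lit 10) (nat_lit 4))
    (@En.n l712 (nat_lit 2391) (nat_lit 12) (nat_lit 10))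
    (@En.i (nat_lit 12816) (nat_lit 13) (nat_lit 11))
    (@En.n l2351 (nat_lit 3437) (nat_lit 10) (nat_lit 3))
    (@En.i (nat_lit 899) (nat_lit 12) (nat_lit 12))
    (@En.n l7 (nat_lit 4616) (nat_lit 15) (nat_lit 2))))
  (@Cl.mk (nat_lit 0x2000c000a000900050004000d000b000600030007000e00050002000e000b) (nat_lit 0x15500a4000200c1) (nat_lit 16) Lb.e (@T16.mk En
    (@En.n l68 (nat_lit 2411) (nat_lit 14) (nat_lit 11))
    (@En.n l1236 (nat_lit 12792) (nat_lit 1) (nat_lit 14))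
    (@En.n l17 (nat_lit 4617) (nat_lit 2) (nat_lit 2))
    (@En.n l6572 (nat_lit 7523) (nat_lit 3) (nat_lit 5))
    (@En.i (nat_lit 1372) (nat_lit 1) (nat_lit 14))
    (@En.n l6573 (nat_lit 623) (nat_lit 5) (nat_lit 7))
    (@En.n l50 (nat_lit 4618) (nat_lit 6) (nat_lit 3))
    (@En.n l6574 (nat_lit 1957) (nat_lit 0) (nat_lit 6))
    (@En.n l217 (nat_lit 6362) (nat_lit 9) (nat_lit 11))
    (@En.n l6575 (nat_lit 8216) (nat_lit 10) (nat_lit 13))
    (@En.n l6569 (nat_lit 4616) (nat_lit 10) (nat_lit 4))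
    (@En.i (nat_lit 8328) (nat_lit 8) (nat_lit 5))
    (@En.n l6576 (nat_lit 2390) (nat_lit 13) (nat_lit 9))
    (@En.i (nat_lit 4625) (nat_lit 14) (nat_lit 10))
    (@En.n l6577 (nat_lit 897) (nat_lit 12) (nat_lit 12))
    (@En.n l67 (nat_lit 4617) (nat_lit 15) (nat_lit 2))))
  (@Cl.mk (nat_lit 0x2000c000b000900050004000d0005000c00030007000e00040002000e000b) (nat_lit 0x1650090500400c1) (nat_lit 16) Lb.e (@T16.mk En
    (@En.n l68 (nat_lit 2413) (nat_lit 14) (nat_lit 11))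
    (@En.n l1236 (nat_lit 12794) (nat_lit 1) (nat_lit 14))
    (@En.n l17 (nat_lit 4618) (nat_lit 2) (nat_lit 2))
    (@En.n l9884 (nat_lit 7641) (nat_lit 3) (nat_lit 4))
    (@En.i (nat_lit 1371) (nat_lit 1) (nat_lit 14))
    (@En.n l14219 (nat_lit 1106) (nat_lit 5) (nat_lit 7))
    (@En.i (nat_lit 4617) (nat_lit 6) (nat_lit 3))
    (@En.n l5200 (nat_lit 7585) (nat_lit 0) (nat_lit 12))
    (@En.n l14220 (nat_lit 2039) (nat_lit 8) (nat_lit 5))
    (@En.n l1789 (nat_lit 8215) (nat_lit 10) (nat_lit 13))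
    (@En.n l5200 (nat_lit 3439) (nat_lit 10) (nat_lit 4))
    (@En.i (nat_lit 8340) (nat_lit 8) (nat_lit 5))
    (@En.n l6576 (nat_lit 2384) (nat_lit 13) (nat_lit 9))
    (@En.n l77 (nat_lit 4621) (nat_lit 14) (nat_lit 11))
    (@En.n l14221 (nat_lit 900) (nat_lit 12) (nat_lit 12))
    (@En.n l67 (nat_lit 4618) (nat_lit 15) (nat_lit 2))))
  (@Cl.mk (nat_lit 0x2000c00080004000c0004000d000b000400030008000e00050002000e000c) (nat_lit 0x3000a000020000) (nat_lit 16) Lb.e (@T16.mk En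
    (@En.n l68 (nat_lit 4622) (nat_lit 14) (nat_lit 12))
    (@En.i (nat_lit 12704) (nat_lit 1) (nat_lit 14))
    (@En.n l17 (nat_lit 4619) (nat_lit 2) (nat_lit 2))
    (@En.n l8605 (nat_lit 8675) (nat_lit 3) (nat_lit 5))
    (@En.i (nat_lit 3712) (nat_lit 1) (nat_lit 14))
    (@En.n l1068 (nat_lit 6860) (nat_lit 5) (nat_lit 8))
    (@En.n l50 (nat_lit 4620) (nat_lit 6) (nat_lit 3))
    (@En.n l6574 (nat_lit 4627) (nat_lit 0) (nat_lit 4))
    (@En.n l217 (nat_lit 10233) (nat_lit 9) (nat_lit 11))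
    (@En.i (nat_lit 2712) (nat_lit 10) (nat_lit 13))
    (@En.i (nat_lit 4617) (nat_lit 10) (nat_lit 4))
    (@En.n l255 (nat_lit 12815) (nat_lit 12) (nat_lit 12))
    (@En.i (nat_lit 4629) (nat_lit 9) (nat_lit 4))
    (@En.i (nat_lit 3435) (nat_lit 14) (nat_lit 8))
    (@En.n l8015 (nat_lit 8093) (nat_lit 12) (nat_lit 12))
    (@En.n l67 (nat_lit 4619) (nat_lit 15) (nat_lit 2))))
  (@Cl.mk (nat_lit 0x2000c00080004000d0004000d0003000c00030008000e00040002000e000c) (nat_lit 0x30109000140040) (nat_lit 16) Lb.e (@T16.mk En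
    (@En.n l68 (nat_lit 4623) (nat_lit 14) (nat_lit 12))
    (@En.i (nat_lit 12699) (nat_lit 1) (nat_lit 14))
    (@En.n l17 (nat_lit 4620) (nat_lit 2) (nat_lit 2))
    (@En.i (nat_lit 8673) (nat_lit 3) (nat_lit 4))
    (@En.i (nat_lit 3833) (nat_lit 1) (nat_lit 14))
    (@En.n l255 (nat_lit 3054) (nat_lit 5) (nat_lit 8))
    (@En.i (nat_lit 4619) (nat_lit 6) (nat_lit 3))
    (@En.n l3082 (nat_lit 8845) (nat_lit 0) (nat_lit 12))
    (@En.i (nat_lit 4621) (nat_lit 8) (nat_lit 3))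
    (@En.i (nat_lit 2713) (nat_lit 10) (nat_lit 13))
    (@En.i (nat_lit 4618) (nat_lit 10) (nat_lit 4))
    (@En.n l255 (nat_lit 3416) (nat_lit 12) (nat_lit 13))
    (@En.i (nat_lit 8303) (nat_lit 9) (nat_lit 4))
    (@En.i (nat_lit 3433) (nat_lit 14) (nat_lit 8))
    (@En.n l8015 (nat_lit 8090) (nat_lit 12) (nat_lit 12))
    (@En.n l67 (nat_lit 4620) (nat_lit 15) (nat_lit 2))))
  (@Cl.mk (nat_lit 0x2000b00080004000d000c00050003000c00040008000e00040002000e000c) (nat_lit 0x530110000170060) (nat_lit 16) Lb.e (@T16.mk En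
    (@En.n l68 (nat_lit 4624) (nat_lit 14) (nat_lit 12))
    (@En.i (nat_lit 10536) (nat_lit 1) (nat_lit 14))
    (@En.n l17 (nat_lit 4621) (nat_lit 2) (nat_lit 2))
    (@En.n l9883 (nat_lit 8674) (nat_lit 3) (nat_lit 4))
    (@En.i (nat_lit 3834) (nat_lit 5) (nat_lit 14))
    (@En.n l11696 (nat_lit 3059) (nat_lit 5) (nat_lit 8))
    (@En.n l7 (nat_lit 4625) (nat_lit 6) (nat_lit 4))
    (@En.n l4538 (nat_lit 10329) (nat_lit 8) (nat_lit 12))
    (@En.n l7 (nat_lit 4620) (nat_lit 8) (nat_lit 3))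
    (@En.i (nat_lit 2920) (nat_lit 9) (nat_lit 5))
    (@En.n l644 (nat_lit 4619) (nat_lit 11) (nat_lit 12))
    (@En.n l15604 (nat_lit 3414) (nat_lit 12) (nat_lit 13))
    (@En.i (nat_lit 8305) (nat_lit 9) (nat_lit 4))
    (@En.n l4538 (nat_lit 3434) (nat_lit 14) (nat_lit 8))
    (@En.n l575 (nat_lit 8096) (nat_lit 12) (nat_lit 11))
    (@En.n l67 (nat_lit 4621) (nat_lit 15) (nat_lit 2))))
  (@Cl.mk (nat_lit 0x2000c000c000b000700040004000c0005000d000b000400030009000e0005) (nat_lit 0xa0000000a000060) (nat_lit 16) Lb.e (@T16.mk En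
    (@En.i (nat_lit 8670) (nat_lit 5) (nat_lit 5))
    (@En.i (nat_lit 3756) (nat_lit 1) (nat_lit 14))
    (@En.i (nat_lit 6861) (nat_lit 2) (nat_lit 9))
    (@En.n l50 (nat_lit 4623) (nat_lit 3) (nat_lit 3))
    (@En.n l15450 (nat_lit 4628) (nat_lit 0) (nat_lit 4))
    (@En.n l217 (nat_lit 10230) (nat_lit 0) (nat_lit 11))
    (@En.i (nat_lit 1842) (nat_lit 7) (nat_lit 13))
    (@En.i (nat_lit 2411) (nat_lit 7) (nat_lit 5))
    (@En.i (nat_lit 9450) (nat_lit 9) (nat_lit 12))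
    (@En.n l11 (nat_lit 4619) (nat_lit 12) (nat_lit 4))
    (@En.n l152 (nat_lit 8241) (nat_lit 10) (nat_lit 4))
    (@En.i (nat_lit 3430) (nat_lit 12) (nat_lit 7))
    (@En.n l55 (nat_lit 8328) (nat_lit 13) (nat_lit 11))
    (@En.n l619 (nat_lit 7533) (nat_lit 4) (nat_lit 12))
    (@En.i (nat_lit 10145) (nat_lit 11) (nat_lit 12))
    (@En.n l17 (nat_lit 4622) (nat_lit 15) (nat_lit 2))))
  (@Cl.mk (nat_lit 0x2000c000c000b000700040004000d0005000d0003000c00030009000e0004) (nat_lit 0xa00000a09000260) (nat_lit 16) Lb.e (@T16.mk En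
    (@En.i (nat_lit 8667) (nat_lit 10) (nat_lit 4))
    (@En.i (nat_lit 3820) (nat_lit 1) (nat_lit 14))
    (@En.i (nat_lit 7304) (nat_lit 2) (nat_lit 9))
    (@En.i (nat_lit 4622) (nat_lit 3) (nat_lit 3))
    (@En.i (nat_lit 8846) (nat_lit 0) (nat_lit 12))
    (@En.i (nat_lit 4624) (nat_lit 5) (nat_lit 3))
    (@En.i (nat_lit 2556) (nat_lit 0) (nat_lit 13))
    (@En.i (nat_lit 2413) (nat_lit 7) (nat_lit 5))
    (@En.n l134 (nat_lit 7301) (nat_lit 9) (nat_lit 13))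
    (@En.n l11 (nat_lit 4620) (nat_lit 12) (nat_lit 4))
    (@En.n l152 (nat_lit 8301) (nat_lit 10) (nat_lit 4))
    (@En.i (nat_lit 3427) (nat_lit 12) (nat_lit 7))
    (@En.n l55 (nat_lit 8340) (nat_lit 13) (nat_lit 11))
    (@En.n l619 (nat_lit 7534) (nat_lit 14) (nat_lit 12))
    (@En.i (nat_lit 10143) (nat_lit 11) (nat_lit 12))
    (@En.n l17 (nat_lit 4623) (nat_lit 15) (nat_lit 2))))
noncomputable def a289 : T16 Cl := @T16.mk Cl
  (@Cl.mk (nat_lit 0x2000c000c000a000700040004000d000c00060003000c00040009000e0004) (nat_lit 0xa08000210000050) (nat_lit 16) Lb.e (@T16.mk En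
    (@En.i (nat_lit 8672) (nat_lit 10) (nat_lit 4))
    (@En.i (nat_lit 3821) (nat_lit 1) (nat_lit 14))
    (@En.n l10821 (nat_lit 7296) (nat_lit 2) (nat_lit 9))
    (@En.n l7 (nat_lit 4626) (nat_lit 3) (nat_lit 4))
    (@En.n l4538 (nat_lit 8814) (nat_lit 0) (nat_lit 12))
    (@En.n l7 (nat_lit 4623) (nat_lit 5) (nat_lit 3))
    (@En.i (nat_lit 2979) (nat_lit 6) (nat_lit 6))
    (@En.n l644 (nat_lit 4622) (nat_lit 8) (nat_lit 12))
    (@En.n l12396 (nat_lit 7297) (nat_lit 9) (nat_lit 13))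
    (@En.n l11 (nat_lit 4621) (nat_lit 12) (nat_lit 4))
    (@En.n l152 (nat_lit 8306) (nat_lit 10) (nat_lit 4))
    (@En.n l4538 (nat_lit 3432) (nat_lit 12) (nat_lit 7))
    (@En.i (nat_lit 8316) (nat_lit 13) (nat_lit 10))
    (@En.n l619 (nat_lit 7535) (nat_lit 14) (nat_lit 12))
    (@En.i (nat_lit 10144) (nat_lit 9) (nat_lit 12))
    (@En.n l17 (nat_lit 4624) (nat_lit 15) (nat_lit 2))))
  (@Cl.mk (nat_lit 0x2000a00080004000c000c000a0006000400040008000e00060002000e000c) (nat_lit 0x410000000470050) (nat_lit 16) Lb.e (@T16.mk En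
    (@En.n l68 (nat_lit 4626) (nat_lit 14) (nat_lit 12))
    (@En.n l16299 (nat_lit 9234) (nat_lit 1) (nat_lit 14))
    (@En.n l17 (nat_lit 4625) (nat_lit 2) (nat_lit 2))
    (@En.n l16300 (nat_lit 8957) (nat_lit 3) (nat_lit 6))
    (@En.i (nat_lit 3707) (nat_lit 5) (nat_lit 14))
    (@En.n l6573 (nat_lit 9292) (nat_lit 5) (nat_lit 8))
    (@En.n l16301 (nat_lit 8956) (nat_lit 6) (nat_lit 4))
    (@En.i (nat_lit 4619) (nat_lit 7) (nat_lit 4))
    (@En.n l10765 (nat_lit 1959) (nat_lit 8) (nat_lit 6))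
    (@En.n l2337 (nat_lit 10232) (nat_lit 10) (nat_lit 10))
    (@En.n l6567 (nat_lit 4627) (nat_lit 4) (nat_lit 12))
    (@En.n l16302 (nat_lit 12818) (nat_lit 12) (nat_lit 12))
    (@En.i (nat_lit 7693) (nat_lit 9) (nat_lit 4))
    (@En.n l6573 (nat_lit 2399) (nat_lit 14) (nat_lit 8))
    (@En.n l16303 (nat_lit 11187) (nat_lit 12) (nat_lit 10))
    (@En.n l67 (nat_lit 4625) (nat_lit 15) (nat_lit 2))))
  (@Cl.mk (nat_lit 0x2000c000c0009000700040004000c000c000a0007000400040009000e0006) (nat_lit 0xa02000000000470) (nat_lit 16) Lb.e (@T16.mk En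
    (@En.n l31109 (nat_lit 8277) (nat_lit 5) (nat_lit 6))
    (@En.i (nat_lit 2654) (nat_lit 1) (nat_lit 14))
    (@En.n l7220 (nat_lit 9277) (nat_lit 2) (nat_lit 9))
    (@En.n l3787 (nat_lit 7694) (nat_lit 12) (nat_lit 4))
    (@En.i (nat_lit 4622) (nat_lit 4) (nat_lit 4))
    (@En.n l31110 (nat_lit 1967) (nat_lit 5) (nat_lit 7))
    (@En.n l2337 (nat_lit 10231) (nat_lit 1) (nat_lit 10))
    (@En.n l15451 (nat_lit 4628) (nat_lit 4) (nat_lit 12))
    (@En.n l8087 (nat_lit 9456) (nat_lit 9) (nat_lit 12))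
    (@En.n l11 (nat_lit 4625) (nat_lit 12) (nat_lit 4))
    (@En.n l152 (nat_lit 7691) (nat_lit 10) (nat_lit 4))
    (@En.n l7220 (nat_lit 2403) (nat_lit 12) (nat_lit 7))
    (@En.i (nat_lit 6287) (nat_lit 13) (nat_lit 9))
    (@En.n l6386 (nat_lit 7536) (nat_lit 14) (nat_lit 12))
    (@En.n l7227 (nat_lit 11045) (nat_lit 10) (nat_lit 12))
    (@En.n l17 (nat_lit 4626) (nat_lit 15) (nat_lit 2))))
  (@Cl.mk (nat_lit 0x20008000e00070002000e000c0002000b00080004000c00090005000e0004) (nat_lit 0x5300600510a00b0) (nat_lit 16) Lb.e (@T16.mk En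
    (@En.n l11194 (nat_lit 4625) (nat_lit 7) (nat_lit 4))
    (@En.i (nat_lit 2693) (nat_lit 9) (nat_lit 14))
    (@En.i (nat_lit 1960) (nat_lit 2) (nat_lit 5))
    (@En.n l356 (nat_lit 8844) (nat_lit 3) (nat_lit 9))
    (@En.n l8110 (nat_lit 12820) (nat_lit 12) (nat_lit 12))
    (@En.n l4570 (nat_lit 8235) (nat_lit 5) (nat_lit 4))
    (@En.n l5263 (nat_lit 2137) (nat_lit 14) (nat_lit 8))
    (@En.n l3424 (nat_lit 11184) (nat_lit 12) (nat_lit 11))
    (@En.n l28 (nat_lit 4627) (nat_lit 8) (nat_lit 2))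
    (@En.n l77 (nat_lit 4628) (nat_lit 10) (nat_lit 12))
    (@En.i (nat_lit 5679) (nat_lit 1) (nat_lit 14))
    (@En.n l107 (nat_lit 4627) (nat_lit 11) (nat_lit 2))
    (@En.n l356 (nat_lit 8194) (nat_lit 13) (nat_lit 7))
    (@En.n l4570 (nat_lit 3710) (nat_lit 5) (nat_lit 14))
    (@En.n l356 (nat_lit 9294) (nat_lit 5) (nat_lit 8))
    (@En.n l17 (nat_lit 4627) (nat_lit 15) (nat_lit 2))))
  (@Cl.mk (nat_lit 0x20009000e00070002000c000c000a000700040004000c00090006000e0004) (nat_lit 0x5300a04000a00b0) (nat_lit 16) Lb.e (@T16.mk En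
    (@En.n l18190 (nat_lit 4626) (nat_lit 4) (nat_lit 4))
    (@En.i (nat_lit 2698) (nat_lit 1) (nat_lit 14))
    (@En.i (nat_lit 1968) (nat_lit 2) (nat_lit 6))
    (@En.n l12787 (nat_lit 8267) (nat_lit 3) (nat_lit 9))
    (@En.n l564 (nat_lit 10051) (nat_lit 9) (nat_lit 12))
    (@En.n l237 (nat_lit 4627) (nat_lit 5) (nat_lit 4))
    (@En.n l2094 (nat_lit 8233) (nat_lit 6) (nat_lit 4))
    (@En.i (nat_lit 2133) (nat_lit 7) (nat_lit 7))
    (@En.n l4380 (nat_lit 6283) (nat_lit 9) (nat_lit 10))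
    (@En.n l134 (nat_lit 8270) (nat_lit 10) (nat_lit 12))
    (@En.n l11 (nat_lit 11048) (nat_lit 11) (nat_lit 12))
    (@En.n l107 (nat_lit 4628) (nat_lit 11) (nat_lit 2))
    (@En.i (nat_lit 8272) (nat_lit 13) (nat_lit 7))
    (@En.n l12787 (nat_lit 3748) (nat_lit 1) (nat_lit 14))
    (@En.i (nat_lit 9296) (nat_lit 2) (nat_lit 9))
    (@En.n l17 (nat_lit 4628) (nat_lit 15) (nat_lit 2))))
  (@Cl.mk (nat_lit 0x2000d000c00060003000d0004000c0003000d000b00040003000a000e0005) (nat_lit 0xa000360) (nat_lit 16) Lb.e (@T16.mk En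
    (@En.i (nat_lit 8598) (nat_lit 8) (nat_lit 5))
    (@En.i (nat_lit 3755) (nat_lit 1) (nat_lit 14))
    (@En.i (nat_lit 9535) (nat_lit 2) (nat_lit 10))
    (@En.n l50 (nat_lit 8303) (nat_lit 3) (nat_lit 3))
    (@En.i (nat_lit 8235) (nat_lit 0) (nat_lit 4))
    (@En.n l217 (nat_lit 10161) (nat_lit 14) (nat_lit 11))
    (@En.i (nat_lit 2777) (nat_lit 7) (nat_lit 13))
    (@En.i (nat_lit 8328) (nat_lit 7) (nat_lit 3))
    (@En.i (nat_lit 11564) (nat_lit 0) (nat_lit 12))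
    (@En.i (nat_lit 4622) (nat_lit 9) (nat_lit 4))
    (@En.i (nat_lit 8092) (nat_lit 11) (nat_lit 13))
    (@En.n l152 (nat_lit 8298) (nat_lit 11) (nat_lit 3))
    (@En.i (nat_lit 10034) (nat_lit 0) (nat_lit 6))
    (@En.n l619 (nat_lit 8241) (nat_lit 14) (nat_lit 12))
    (@En.i (nat_lit 10150) (nat_lit 2) (nat_lit 13))
    (@En.n l17 (nat_lit 4629) (nat_lit 15) (nat_lit 2))))
  (@Cl.mk (nat_lit 0x2000a000e000a0002000b000a0006000900060005000e00060002000e0007) (nat_lit 0xc50780500600a0) (nat_lit 16) Lb.e (@T16.mk En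
    (@En.i (nat_lit 4631) (nat_lit 14) (nat_lit 7))
    (@En.n l564 (nat_lit 7655) (nat_lit 1) (nat_lit 14))
    (@En.n l7 (nat_lit 4630) (nat_lit 2) (nat_lit 2))
    (@En.n l28 (nat_lit 1813) (nat_lit 3) (nat_lit 6))
    (@En.n l4021 (nat_lit 1940) (nat_lit 9) (nat_lit 14))
    (@En.i (nat_lit 3112) (nat_lit 5) (nat_lit 5))
    (@En.n l916 (nat_lit 7344) (nat_lit 6) (nat_lit 6))
    (@En.i (nat_lit 1947) (nat_lit 12) (nat_lit 9))
    (@En.n l1529 (nat_lit 4635) (nat_lit 8) (nat_lit 6))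
    (@En.n l575 (nat_lit 3674) (nat_lit 14) (nat_lit 10))
    (@En.n l1511 (nat_lit 1785) (nat_lit 11) (nat_lit 11))
    (@En.n l3 (nat_lit 4630) (nat_lit 11) (nat_lit 2))
    (@En.n l575 (nat_lit 1908) (nat_lit 13) (nat_lit 10))
    (@En.n l1173 (nat_lit 2026) (nat_lit 1) (nat_lit 14))
    (@En.n l1738 (nat_lit 4631) (nat_lit 12) (nat_lit 10))
    (@En.n l18 (nat_lit 4630) (nat_lit 15) (nat_lit 2))))
  (@Cl.mk (nat_lit 0x200070007000a000e00090002000a000900060009000900070006000e0007) (nat_lit 0x8a40670160070) (nat_lit 16) Lb.e (@T16.mk En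
    (@En.n l4110 (nat_lit 1814) (nat_lit 6) (nat_lit 7))
    (@En.n l10150 (nat_lit 1937) (nat_lit 8) (nat_lit 14))
    (@En.i (nat_lit 3110) (nat_lit 2) (nat_lit 6))
    (@En.n l685 (nat_lit 7242) (nat_lit 3) (nat_lit 7))
    (@En.n l217 (nat_lit 4630) (nat_lit 7) (nat_lit 9))
    (@En.i (nat_lit 1943) (nat_lit 5) (nat_lit 9))
    (@En.n l1529 (nat_lit 4633) (nat_lit 6) (nat_lit 6))
    (@En.n l575 (nat_lit 3671) (nat_lit 14) (nat_lit 9))
    (@En.n l12791 (nat_lit 1780) (nat_lit 9) (nat_lit 10))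
    (@En.n l3 (nat_lit 4631) (nat_lit 9) (nat_lit 2))
    (@En.n l26165 (nat_lit 1906) (nat_lit 11) (nat_lit 9))
    (@En.n l1173 (nat_lit 1535) (nat_lit 12) (nat_lit 14))
    (@En.n l22537 (nat_lit 4632) (nat_lit 13) (nat_lit 10))
    (@En.n l22538 (nat_lit 4632) (nat_lit 14) (nat_lit 7))
    (@En.n l22539 (nat_lit 5165) (nat_lit 4) (nat_lit 7))
    (@En.n l7 (nat_lit 4631) (nat_lit 15) (nat_lit 2))))
  (@Cl.mk (nat_lit 0x20007000a000e00080002000900080006000e0009000200080007000e0008) (nat_lit 0x78305609204083) (nat_lit 16) Lb.e (@T16.mk En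
    (@En.n l7432 (nat_lit 1858) (nat_lit 5) (nat_lit 8))
    (@En.i (nat_lit 4644) (nat_lit 7) (nat_lit 14))
    (@En.i (nat_lit 3111) (nat_lit 2) (nat_lit 7))
    (@En.n l7275 (nat_lit 7241) (nat_lit 3) (nat_lit 8))
    (@En.n l18 (nat_lit 4632) (nat_lit 4) (nat_lit 2))
    (@En.n l22476 (nat_lit 4631) (nat_lit 5) (nat_lit 9))
    (@En.n l396 (nat_lit 1863) (nat_lit 7) (nat_lit 14))
    (@En.n l1253 (nat_lit 4634) (nat_lit 2) (nat_lit 6))
    (@En.n l6103 (nat_lit 3668) (nat_lit 3) (nat_lit 8))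
    (@En.n l4889 (nat_lit 1777) (nat_lit 4) (nat_lit 9))
    (@En.n l11 (nat_lit 4632) (nat_lit 10) (nat_lit 2))
    (@En.i (nat_lit 1907) (nat_lit 6) (nat_lit 8))
    (@En.n l7275 (nat_lit 1652) (nat_lit 13) (nat_lit 14))
    (@En.n l1253 (nat_lit 13704) (nat_lit 8) (nat_lit 10))
    (@En.n l6103 (nat_lit 5164) (nat_lit 3) (nat_lit 7))
    (@En.n l3 (nat_lit 4632) (nat_lit 15) (nat_lit 2))))
  (@Cl.mk (nat_lit 0x200070007000a0005000e000a0002000b00060009000900060005000e000b) (nat_lit 0xb5060050083) (nat_lit 16) Lb.e (@T16.mk En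
    (@En.n l22807 (nat_lit 4636) (nat_lit 8) (nat_lit 11))
    (@En.n l24634 (nat_lit 5224) (nat_lit 9) (nat_lit 14))
    (@En.i (nat_lit 5846) (nat_lit 2) (nat_lit 5))
    (@En.n l15827 (nat_lit 9183) (nat_lit 3) (nat_lit 6))
    (@En.n l61 (nat_lit 4635) (nat_lit 7) (nat_lit 9))
    (@En.n l24635 (nat_lit 5781) (nat_lit 9) (nat_lit 9))
    (@En.n l18573 (nat_lit 5373) (nat_lit 14) (nat_lit 6))
    (@En.n l12438 (nat_lit 5769) (nat_lit 8) (nat_lit 11))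
    (@En.n l28 (nat_lit 4633) (nat_lit 8) (nat_lit 2))
    (@En.n l12439 (nat_lit 1640) (nat_lit 10) (nat_lit 10))
    (@En.i (nat_lit 1777) (nat_lit 11) (nat_lit 14))
    (@En.n l11045 (nat_lit 7161) (nat_lit 2) (nat_lit 5))
    (@En.n l12529 (nat_lit 4634) (nat_lit 8) (nat_lit 10))
    (@En.n l6147 (nat_lit 4634) (nat_lit 9) (nat_lit 7))
    (@En.n l6081 (nat_lit 6531) (nat_lit 5) (nat_lit 7))
    (@En.n l3 (nat_lit 4633) (nat_lit 15) (nat_lit 2))))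
  (@Cl.mk (nat_lit 0x200070006000e000c00020007000a0004000e00090002000a0006000e0009) (nat_lit 0x230080b4050b1) (nat_lit 16) Lb.e (@T16.mk En
    (@En.n l10916 (nat_lit 4633) (nat_lit 5) (nat_lit 9))
    (@En.n l25368 (nat_lit 5778) (nat_lit 7) (nat_lit 14))
    (@En.n l564 (nat_lit 5372) (nat_lit 2) (nat_lit 6))
    (@En.n l25369 (nat_lit 6044) (nat_lit 3) (nat_lit 10))
    (@En.n l28 (nat_lit 4634) (nat_lit 4) (nat_lit 2))
    (@En.i (nat_lit 1645) (nat_lit 5) (nat_lit 9))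
    (@En.n l8122 (nat_lit 1782) (nat_lit 1) (nat_lit 14))
    (@En.n l2221 (nat_lit 8173) (nat_lit 7) (nat_lit 4))
    (@En.i (nat_lit 12791) (nat_lit 8) (nat_lit 10))
    (@En.n l1643 (nat_lit 6530) (nat_lit 4) (nat_lit 7))
    (@En.n l3 (nat_lit 4634) (nat_lit 10) (nat_lit 2))
    (@En.n l649 (nat_lit 4637) (nat_lit 12) (nat_lit 12))
    (@En.n l2511 (nat_lit 5225) (nat_lit 8) (nat_lit 14))
    (@En.i (nat_lit 6047) (nat_lit 2) (nat_lit 6))
    (@En.n l6126 (nat_lit 9184) (nat_lit 3) (nat_lit 7))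
    (@En.n l17 (nat_lit 4634) (nat_lit 15) (nat_lit 2))))
  (@Cl.mk (nat_lit 0x2000a0006000e000b0002000c0006000900050004000e000a0002000e0007) (nat_lit 0x10b606040025090) (nat_lit 16) Lb.e (@T16.mk En
    (@En.i (nat_lit 4633) (nat_lit 14) (nat_lit 7))
    (@En.n l1531 (nat_lit 7253) (nat_lit 1) (nat_lit 14))
    (@En.n l3 (nat_lit 4635) (nat_lit 2) (nat_lit 2))
    (@En.n l11042 (nat_lit 4638) (nat_lit 3) (nat_lit 10))
    (@En.n l11043 (nat_lit 5226) (nat_lit 1) (nat_lit 14))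
    (@En.i (nat_lit 5845) (nat_lit 5) (nat_lit 4))
    (@En.n l11044 (nat_lit 7835) (nat_lit 6) (nat_lit 5))
    (@En.n l11045 (nat_lit 4724) (nat_lit 9) (nat_lit 9))
    (@En.n l11045 (nat_lit 5374) (nat_lit 14) (nat_lit 6))
    (@En.n l11046 (nat_lit 5772) (nat_lit 10) (nat_lit 12))
    (@En.n l28 (nat_lit 4635) (nat_lit 10) (nat_lit 2))
    (@En.n l11045 (nat_lit 1644) (nat_lit 12) (nat_lit 11))
    (@En.n l3858 (nat_lit 1783) (nat_lit 1) (nat_lit 14))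
    (@En.n l11045 (nat_lit 7157) (nat_lit 14) (nat_lit 6))
    (@En.n l617 (nat_lit 4633) (nat_lit 12) (nat_lit 10))
    (@En.n l17 (nat_lit 4635) (nat_lit 15) (nat_lit 2))))
  (@Cl.mk (nat_lit 0x2000b0007000a000a00060005000b000b00060006000900050005000e000a) (nat_lit 0x7006002300000a6) (nat_lit 16) Lb.e (@T16.mk En
    (@En.n l23155 (nat_lit 1643) (nat_lit 13) (nat_lit 10))
    (@En.n l18714 (nat_lit 4639) (nat_lit 1) (nat_lit 14))
    (@En.n l27168 (nat_lit 4633) (nat_lit 11) (nat_lit 5))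
    (@En.n l39488 (nat_lit 7159) (nat_lit 3) (nat_lit 5))
    (@En.n l28 (nat_lit 4637) (nat_lit 9) (nat_lit 9))
    (@En.n l77 (nat_lit 4637) (nat_lit 10) (nat_lit 6))
    (@En.n l27170 (nat_lit 6525) (nat_lit 6) (nat_lit 6))
    (@En.n l61 (nat_lit 5201) (nat_lit 8) (nat_lit 11))
    (@En.n l4021 (nat_lit 5236) (nat_lit 9) (nat_lit 11))
    (@En.i (nat_lit 5902) (nat_lit 9) (nat_lit 5))
    (@En.n l117 (nat_lit 9056) (nat_lit 11) (nat_lit 6))
    (@En.n l29467 (nat_lit 4638) (nat_lit 6) (nat_lit 10))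
    (@En.n l23155 (nat_lit 5306) (nat_lit 8) (nat_lit 10))
    (@En.n l5577 (nat_lit 5256) (nat_lit 14) (nat_lit 7))
    (@En.n l39489 (nat_lit 5773) (nat_lit 11) (nat_lit 11))
    (@En.n l3 (nat_lit 4636) (nat_lit 15) (nat_lit 2))))
  (@Cl.mk (nat_lit 0x200070006000c000c0006000900040004000e00090002000a0007000e000a) (nat_lit 0x230700b505061) (nat_lit 16) Lb.e (@T16.mk En
    (@En.i (nat_lit 4636) (nat_lit 12) (nat_lit 10))
    (@En.n l134 (nat_lit 5696) (nat_lit 1) (nat_lit 14))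
    (@En.n l5577 (nat_lit 5257) (nat_lit 2) (nat_lit 7))
    (@En.n l107 (nat_lit 6025) (nat_lit 3) (nat_lit 10))
    (@En.n l3 (nat_lit 4637) (nat_lit 4) (nat_lit 2))
    (@En.i (nat_lit 1646) (nat_lit 5) (nat_lit 9))
    (@En.i (nat_lit 4640) (nat_lit 1) (nat_lit 14))
    (@En.n l5331 (nat_lit 4634) (nat_lit 7) (nat_lit 4))
    (@En.n l18 (nat_lit 8174) (nat_lit 8) (nat_lit 4))
    (@En.n l2869 (nat_lit 12787) (nat_lit 9) (nat_lit 9))
    (@En.n l947 (nat_lit 6524) (nat_lit 5) (nat_lit 6))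
    (@En.n l61 (nat_lit 6017) (nat_lit 12) (nat_lit 12))
    (@En.n l4021 (nat_lit 5237) (nat_lit 8) (nat_lit 12))
    (@En.i (nat_lit 5975) (nat_lit 14) (nat_lit 6))
    (@En.n l117 (nat_lit 9058) (nat_lit 10) (nat_lit 7))
    (@En.n l7 (nat_lit 4637) (nat_lit 15) (nat_lit 2))))
  (@Cl.mk (nat_lit 0x2000900060006000e000b0002000c0007000a00050004000a000a000e0006) (nat_lit 0x100b70805004380) (nat_lit 16) Lb.e (@T16.mk En
    (@En.n l24636 (nat_lit 4636) (nat_lit 6) (nat_lit 6))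
    (@En.n l2943 (nat_lit 7991) (nat_lit 8) (nat_lit 14))
    (@En.n l61 (nat_lit 6016) (nat_lit 2) (nat_lit 10))
    (@En.n l287 (nat_lit 5235) (nat_lit 10) (nat_lit 10))
    (@En.n l11 (nat_lit 5974) (nat_lit 4) (nat_lit 4))
    (@En.n l2154 (nat_lit 7834) (nat_lit 5) (nat_lit 5))
    (@En.i (nat_lit 4745) (nat_lit 8) (nat_lit 10))
    (@En.n l1916 (nat_lit 5259) (nat_lit 14) (nat_lit 7))
    (@En.n l615 (nat_lit 5770) (nat_lit 9) (nat_lit 12))
    (@En.n l3 (nat_lit 4638) (nat_lit 9) (nat_lit 2))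
    (@En.i (nat_lit 1647) (nat_lit 11) (nat_lit 11))
    (@En.i (nat_lit 4641) (nat_lit 12) (nat_lit 14))
    (@En.n l24637 (nat_lit 4635) (nat_lit 13) (nat_lit 6))
    (@En.n l1723 (nat_lit 7155) (nat_lit 14) (nat_lit 6))
    (@En.n l24638 (nat_lit 4636) (nat_lit 4) (nat_lit 9))
    (@En.n l7 (nat_lit 4638) (nat_lit 15) (nat_lit 2))))
  (@Cl.mk (nat_lit 0x20008000b0007000a000a00070005000b00080006000600090005000e0009) (nat_lit 0x470000063000095) (nat_lit 16) Lb.e (@T16.mk En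
    (@En.n l26950 (nat_lit 5260) (nat_lit 14) (nat_lit 9))
    (@En.n l26951 (nat_lit 1780) (nat_lit 1) (nat_lit 14))
    (@En.n l26952 (nat_lit 8178) (nat_lit 2) (nat_lit 5))
    (@En.n l25825 (nat_lit 4640) (nat_lit 3) (nat_lit 9))
    (@En.n l14711 (nat_lit 4640) (nat_lit 4) (nat_lit 6))
    (@En.i (nat_lit 11602) (nat_lit 5) (nat_lit 6))
    (@En.n l26953 (nat_lit 4643) (nat_lit 6) (nat_lit 8))
    (@En.n l26954 (nat_lit 5234) (nat_lit 8) (nat_lit 11))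
    (@En.i (nat_lit 5976) (nat_lit 8) (nat_lit 5))
    (@En.n l764 (nat_lit 9871) (nat_lit 10) (nat_lit 7))
    (@En.n l26955 (nat_lit 4641) (nat_lit 6) (nat_lit 10))
    (@En.n l26956 (nat_lit 5852) (nat_lit 8) (nat_lit 10))
    (@En.n l26957 (nat_lit 5227) (nat_lit 13) (nat_lit 7))
    (@En.n l217 (nat_lit 4633) (nat_lit 7) (nat_lit 11))
    (@En.n l15053 (nat_lit 6555) (nat_lit 13) (nat_lit 8))
    (@En.n l28 (nat_lit 4639) (nat_lit 15) (nat_lit 2))))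
noncomputable def a290 : T16 Cl := @T16.mk Cl
  (@Cl.mk (nat_lit 0x20007000a0007000e000a000200080006000c0009000600090004000e0008) (nat_lit 0x600100023070a4) (nat_lit 16) Lb.e (@T16.mk En
    (@En.n l27324 (nat_lit 5261) (nat_lit 6) (nat_lit 8))
    (@En.n l2520 (nat_lit 1781) (nat_lit 1) (nat_lit 14))
    (@En.n l18 (nat_lit 8175) (nat_lit 2) (nat_lit 4))
    (@En.n l2199 (nat_lit 13780) (nat_lit 9) (nat_lit 9))
    (@En.n l3348 (nat_lit 11387) (nat_lit 4) (nat_lit 6))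
    (@En.n l61 (nat_lit 5267) (nat_lit 5) (nat_lit 9))
    (@En.n l4021 (nat_lit 5238) (nat_lit 7) (nat_lit 12))
    (@En.i (nat_lit 5977) (nat_lit 14) (nat_lit 6))
    (@En.n l117 (nat_lit 9655) (nat_lit 9) (nat_lit 8))
    (@En.n l7 (nat_lit 4640) (nat_lit 9) (nat_lit 2))
    (@En.n l18714 (nat_lit 4639) (nat_lit 11) (nat_lit 10))
    (@En.n l134 (nat_lit 5848) (nat_lit 12) (nat_lit 14))
    (@En.n l5577 (nat_lit 5228) (nat_lit 2) (nat_lit 7))
    (@En.n l2199 (nat_lit 4634) (nat_lit 3) (nat_lit 10))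
    (@En.i (nat_lit 6558) (nat_lit 4) (nat_lit 7))
    (@En.n l3 (nat_lit 4640) (nat_lit 15) (nat_lit 2))))
  (@Cl.mk (nat_lit 0x200090006000e000a00020009000c0007000a00060004000a0007000e0006) (nat_lit 0x10a6037080020a0) (nat_lit 16) Lb.e (@T16.mk En
    (@En.n l13248 (nat_lit 4639) (nat_lit 5) (nat_lit 6))
    (@En.n l2943 (nat_lit 7999) (nat_lit 7) (nat_lit 14))
    (@En.n l61 (nat_lit 5276) (nat_lit 2) (nat_lit 7))
    (@En.n l13249 (nat_lit 5233) (nat_lit 3) (nat_lit 10))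
    (@En.n l11 (nat_lit 5978) (nat_lit 4) (nat_lit 4))
    (@En.n l13250 (nat_lit 8629) (nat_lit 5) (nat_lit 6))
    (@En.i (nat_lit 4867) (nat_lit 8) (nat_lit 10))
    (@En.n l7245 (nat_lit 5229) (nat_lit 7) (nat_lit 7))
    (@En.n l13251 (nat_lit 4635) (nat_lit 9) (nat_lit 12))
    (@En.i (nat_lit 6557) (nat_lit 10) (nat_lit 9))
    (@En.n l3 (nat_lit 4641) (nat_lit 10) (nat_lit 2))
    (@En.i (nat_lit 5274) (nat_lit 12) (nat_lit 10))
    (@En.n l13252 (nat_lit 1784) (nat_lit 1) (nat_lit 14))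
    (@En.n l1723 (nat_lit 9890) (nat_lit 14) (nat_lit 6))
    (@En.n l13253 (nat_lit 4639) (nat_lit 3) (nat_lit 9))
    (@En.n l7 (nat_lit 4641) (nat_lit 15) (nat_lit 2))))
  (@Cl.mk (nat_lit 0x20005000b0008000b000b00070005000b000500050008000b0005000e0009) (nat_lit 0x84000020003096) (nat_lit 16) Lb.e (@T16.mk En
    (@En.n l248 (nat_lit 5265) (nat_lit 1) (nat_lit 9))
    (@En.n l33693 (nat_lit 4643) (nat_lit 1) (nat_lit 14))
    (@En.n l18714 (nat_lit 4639) (nat_lit 2) (nat_lit 5))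
    (@En.n l248 (nat_lit 11343) (nat_lit 3) (nat_lit 11))
    (@En.n l28 (nat_lit 5266) (nat_lit 4) (nat_lit 8))
    (@En.n l77 (nat_lit 5266) (nat_lit 5) (nat_lit 5))
    (@En.n l3039 (nat_lit 11607) (nat_lit 6) (nat_lit 5))
    (@En.n l4021 (nat_lit 7786) (nat_lit 8) (nat_lit 11))
    (@En.i (nat_lit 5980) (nat_lit 8) (nat_lit 5))
    (@En.n l14299 (nat_lit 9066) (nat_lit 10) (nat_lit 7))
    (@En.n l29467 (nat_lit 5277) (nat_lit 11) (nat_lit 11))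
    (@En.n l23155 (nat_lit 7443) (nat_lit 12) (nat_lit 11))
    (@En.n l3339 (nat_lit 5236) (nat_lit 13) (nat_lit 8))
    (@En.n l617 (nat_lit 4636) (nat_lit 14) (nat_lit 11))
    (@En.i (nat_lit 7576) (nat_lit 13) (nat_lit 5))
    (@En.n l3 (nat_lit 4642) (nat_lit 15) (nat_lit 2))))
  (@Cl.mk (nat_lit 0x200080005000b0008000b000b000800050008000500050008000b000e0008) (nat_lit 0x408500502000385) (nat_lit 16) Lb.e (@T16.mk En
    (@En.n l2900 (nat_lit 5245) (nat_lit 2) (nat_lit 8))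
    (@En.i (nat_lit 1785) (nat_lit 4) (nat_lit 14))
    (@En.i (nat_lit 11348) (nat_lit 2) (nat_lit 11))
    (@En.n l31707 (nat_lit 5267) (nat_lit 3) (nat_lit 8))
    (@En.n l31708 (nat_lit 5267) (nat_lit 4) (nat_lit 5))
    (@En.i (nat_lit 11603) (nat_lit 5) (nat_lit 5))
    (@En.n l2900 (nat_lit 5753) (nat_lit 6) (nat_lit 8))
    (@En.n l31709 (nat_lit 5979) (nat_lit 7) (nat_lit 5))
    (@En.n l2337 (nat_lit 9653) (nat_lit 9) (nat_lit 8))
    (@En.n l31710 (nat_lit 5276) (nat_lit 5) (nat_lit 11))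
    (@En.n l31711 (nat_lit 7441) (nat_lit 11) (nat_lit 11))
    (@En.n l31712 (nat_lit 5234) (nat_lit 12) (nat_lit 8))
    (@En.n l31713 (nat_lit 4639) (nat_lit 13) (nat_lit 11))
    (@En.n l31499 (nat_lit 4642) (nat_lit 14) (nat_lit 5))
    (@En.n l16180 (nat_lit 6559) (nat_lit 0) (nat_lit 8))
    (@En.n l17 (nat_lit 4643) (nat_lit 15) (nat_lit 2))))
  (@Cl.mk (nat_lit 0x2000600090006000e000900020008000e00070002000a0007000a000e0008) (nat_lit 0x70610470010883) (nat_lit 16) Lb.e (@T16.mk En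
    (@En.n l15841 (nat_lit 3176) (nat_lit 6) (nat_lit 8))
    (@En.n l21680 (nat_lit 1650) (nat_lit 8) (nat_lit 14))
    (@En.n l6761 (nat_lit 13707) (nat_lit 8) (nat_lit 10))
    (@En.n l6608 (nat_lit 9860) (nat_lit 14) (nat_lit 7))
    (@En.n l7645 (nat_lit 1938) (nat_lit 4) (nat_lit 10))
    (@En.n l3 (nat_lit 4644) (nat_lit 5) (nat_lit 2))
    (@En.n l24399 (nat_lit 1938) (nat_lit 6) (nat_lit 7))
    (@En.n l6608 (nat_lit 5948) (nat_lit 8) (nat_lit 14))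
    (@En.n l21680 (nat_lit 4646) (nat_lit 2) (nat_lit 8))
    (@En.n l18 (nat_lit 4644) (nat_lit 9) (nat_lit 2))
    (@En.n l24400 (nat_lit 1937) (nat_lit 11) (nat_lit 9))
    (@En.n l24401 (nat_lit 1661) (nat_lit 12) (nat_lit 14))
    (@En.n l6761 (nat_lit 5225) (nat_lit 13) (nat_lit 6))
    (@En.n l24402 (nat_lit 3672) (nat_lit 3) (nat_lit 9))
    (@En.n l24403 (nat_lit 1496) (nat_lit 4) (nat_lit 6))
    (@En.n l11 (nat_lit 4644) (nat_lit 15) (nat_lit 2))))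
  (@Cl.mk (nat_lit 0x30007000a000a00080006000b000900060006000900050008000d0007000a) (nat_lit 0x402300004602) (nat_lit 16) Lb.e (@T16.mk En
    (@En.n l5066 (nat_lit 4764) (nat_lit 0) (nat_lit 10))
    (@En.n l27992 (nat_lit 1997) (nat_lit 13) (nat_lit 7))
    (@En.n l41367 (nat_lit 1755) (nat_lit 2) (nat_lit 13))
    (@En.n l5066 (nat_lit 1514) (nat_lit 10) (nat_lit 8))
    (@En.n l20148 (nat_lit 11276) (nat_lit 4) (nat_lit 5))
    (@En.n l22137 (nat_lit 4651) (nat_lit 9) (nat_lit 9))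
    (@En.n l41368 (nat_lit 4651) (nat_lit 10) (nat_lit 6))
    (@En.n l4780 (nat_lit 10715) (nat_lit 7) (nat_lit 6))
    (@En.n l41369 (nat_lit 4650) (nat_lit 9) (nat_lit 9))
    (@En.n l26941 (nat_lit 4648) (nat_lit 10) (nat_lit 11))
    (@En.n l41370 (nat_lit 5986) (nat_lit 10) (nat_lit 6))
    (@En.n l38762 (nat_lit 9655) (nat_lit 12) (nat_lit 8))
    (@En.n l41371 (nat_lit 4646) (nat_lit 6) (nat_lit 10))
    (@En.n l41367 (nat_lit 7241) (nat_lit 8) (nat_lit 10))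
    (@En.n l2436 (nat_lit 1306) (nat_lit 12) (nat_lit 7))
    (@En.n l41372 (nat_lit 4654) (nat_lit 15) (nat_lit 3))))
  (@Cl.mk (nat_lit 0x2000900060009000d0008000b00030007000a00070005000a0008000e0006) (nat_lit 0x105532008002300) (nat_lit 16) Lb.e (@T16.mk En
    (@En.n l28603 (nat_lit 4645) (nat_lit 7) (nat_lit 6))
    (@En.n l21632 (nat_lit 7799) (nat_lit 1) (nat_lit 14))
    (@En.n l644 (nat_lit 4649) (nat_lit 2) (nat_lit 8))
    (@En.n l617 (nat_lit 4647) (nat_lit 3) (nat_lit 10))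
    (@En.n l3480 (nat_lit 5987) (nat_lit 4) (nat_lit 5))
    (@En.n l39397 (nat_lit 9867) (nat_lit 5) (nat_lit 7))
    (@En.i (nat_lit 7238) (nat_lit 8) (nat_lit 10))
    (@En.n l17957 (nat_lit 1309) (nat_lit 7) (nat_lit 7))
    (@En.n l18566 (nat_lit 4656) (nat_lit 8) (nat_lit 3))
    (@En.n l39397 (nat_lit 4763) (nat_lit 0) (nat_lit 11))
    (@En.n l13716 (nat_lit 3190) (nat_lit 11) (nat_lit 8))
    (@En.i (nat_lit 2582) (nat_lit 12) (nat_lit 13))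
    (@En.n l39397 (nat_lit 1515) (nat_lit 9) (nat_lit 9))
    (@En.n l7471 (nat_lit 11270) (nat_lit 14) (nat_lit 6))
    (@En.n l39398 (nat_lit 4645) (nat_lit 5) (nat_lit 9))
    (@En.n l11 (nat_lit 4646) (nat_lit 15) (nat_lit 2))))
  (@Cl.mk (nat_lit 0x200080006000c0009000d0009000400030008000b0007000a0007000e0005) (nat_lit 0x654003101000) (nat_lit 16) Lb.e (@T16.mk En
    (@En.n l14311 (nat_lit 4648) (nat_lit 8) (nat_lit 5))
    (@En.n l5928 (nat_lit 7798) (nat_lit 1) (nat_lit 14))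
    (@En.i (nat_lit 7892) (nat_lit 2) (nat_lit 7))
    (@En.n l6272 (nat_lit 2217) (nat_lit 3) (nat_lit 10))
    (@En.n l15152 (nat_lit 9868) (nat_lit 4) (nat_lit 7))
    (@En.i (nat_lit 2946) (nat_lit 7) (nat_lit 11))
    (@En.n l25781 (nat_lit 5471) (nat_lit 6) (nat_lit 8))
    (@En.n l25782 (nat_lit 7808) (nat_lit 7) (nat_lit 3))
    (@En.n l18 (nat_lit 7883) (nat_lit 8) (nat_lit 4))
    (@En.n l13206 (nat_lit 3191) (nat_lit 10) (nat_lit 9))
    (@En.i (nat_lit 2298) (nat_lit 11) (nat_lit 13))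
    (@En.n l61 (nat_lit 4646) (nat_lit 12) (nat_lit 9))
    (@En.n l564 (nat_lit 4649) (nat_lit 13) (nat_lit 12))
    (@En.n l892 (nat_lit 11269) (nat_lit 14) (nat_lit 6))
    (@En.n l2065 (nat_lit 4648) (nat_lit 6) (nat_lit 8))
    (@En.n l11 (nat_lit 4647) (nat_lit 15) (nat_lit 2))))
  (@Cl.mk (nat_lit 0x30008000b000b0008000b00080005000500080005000c0008000d00080004) (nat_lit 0x302412006005830) (nat_lit 16) Lb.e (@T16.mk En
    (@En.n l5899 (nat_lit 7884) (nat_lit 0) (nat_lit 4))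
    (@En.n l217 (nat_lit 3131) (nat_lit 0) (nat_lit 8))
    (@En.n l14430 (nat_lit 2300) (nat_lit 1) (nat_lit 13))
    (@En.n l28608 (nat_lit 4645) (nat_lit 3) (nat_lit 8))
    (@En.n l27789 (nat_lit 4650) (nat_lit 5) (nat_lit 12))
    (@En.i (nat_lit 11204) (nat_lit 5) (nat_lit 5))
    (@En.n l14432 (nat_lit 4653) (nat_lit 10) (nat_lit 8))
    (@En.n l14433 (nat_lit 4653) (nat_lit 11) (nat_lit 5))
    (@En.n l1053 (nat_lit 10717) (nat_lit 8) (nat_lit 5))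
    (@En.n l14128 (nat_lit 7893) (nat_lit 0) (nat_lit 8))
    (@En.i (nat_lit 2209) (nat_lit 7) (nat_lit 11))
    (@En.n l28609 (nat_lit 9871) (nat_lit 12) (nat_lit 8))
    (@En.n l14435 (nat_lit 4647) (nat_lit 5) (nat_lit 11))
    (@En.n l5898 (nat_lit 7242) (nat_lit 7) (nat_lit 11))
    (@En.n l28610 (nat_lit 1311) (nat_lit 14) (nat_lit 8))
    (@En.i (nat_lit 4655) (nat_lit 15) (nat_lit 3))))
  (@Cl.mk (nat_lit 0x20008000c0008000c00080004000b00040008000b000800050008000e0005) (nat_lit 0xa5630304030200) (nat_lit 16) Lb.e (@T16.mk En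
    (@En.n l25521 (nat_lit 4650) (nat_lit 8) (nat_lit 5))
    (@En.i (nat_lit 7807) (nat_lit 1) (nat_lit 14))
    (@En.n l3327 (nat_lit 7897) (nat_lit 10) (nat_lit 8))
    (@En.n l7647 (nat_lit 7887) (nat_lit 3) (nat_lit 5))
    (@En.n l13713 (nat_lit 9385) (nat_lit 4) (nat_lit 8))
    (@En.i (nat_lit 7237) (nat_lit 7) (nat_lit 11))
    (@En.n l19493 (nat_lit 5184) (nat_lit 6) (nat_lit 8))
    (@En.n l11842 (nat_lit 7837) (nat_lit 7) (nat_lit 4))
    (@En.n l612 (nat_lit 4646) (nat_lit 9) (nat_lit 11))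
    (@En.n l50 (nat_lit 7842) (nat_lit 9) (nat_lit 4))
    (@En.n l13713 (nat_lit 3189) (nat_lit 11) (nat_lit 8))
    (@En.i (nat_lit 2580) (nat_lit 12) (nat_lit 12))
    (@En.i (nat_lit 1512) (nat_lit 13) (nat_lit 8))
    (@En.n l3327 (nat_lit 11891) (nat_lit 14) (nat_lit 12))
    (@En.n l25522 (nat_lit 4650) (nat_lit 6) (nat_lit 8))
    (@En.n l11 (nat_lit 4649) (nat_lit 15) (nat_lit 2))))
  (@Cl.mk (nat_lit 0x40008000b000b000900060009000500050008000c0007000c00070004000a) (nat_lit 0x401402006a04003) (nat_lit 16) Lb.e (@T16.mk En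
    (@En.n l39944 (nat_lit 4645) (nat_lit 0) (nat_lit 10))
    (@En.n l39945 (nat_lit 7843) (nat_lit 1) (nat_lit 4))
    (@En.n l39946 (nat_lit 1993) (nat_lit 0) (nat_lit 7))
    (@En.n l39947 (nat_lit 2577) (nat_lit 1) (nat_lit 12))
    (@En.n l39948 (nat_lit 1197) (nat_lit 4) (nat_lit 7))
    (@En.i (nat_lit 11887) (nat_lit 7) (nat_lit 12))
    (@En.n l730 (nat_lit 4652) (nat_lit 10) (nat_lit 8))
    (@En.n l731 (nat_lit 4652) (nat_lit 11) (nat_lit 5))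
    (@En.n l39949 (nat_lit 10711) (nat_lit 8) (nat_lit 5))
    (@En.i (nat_lit 7895) (nat_lit 9) (nat_lit 9))
    (@En.n l39950 (nat_lit 5985) (nat_lit 1) (nat_lit 6))
    (@En.n l6243 (nat_lit 9785) (nat_lit 12) (nat_lit 9))
    (@En.n l39951 (nat_lit 4649) (nat_lit 5) (nat_lit 11))
    (@En.n l39947 (nat_lit 7240) (nat_lit 7) (nat_lit 11))
    (@En.n l39952 (nat_lit 1308) (nat_lit 11) (nat_lit 8))
    (@En.n l29681 (nat_lit 7744) (nat_lit 15) (nat_lit 4))))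
  (@Cl.mk (nat_lit 0x200090007000c000a0006000900040007000d0006000900030007000e000a) (nat_lit 0x5023070050200a1) (nat_lit 16) Lb.e (@T16.mk En
    (@En.n l10350 (nat_lit 4645) (nat_lit 13) (nat_lit 10))
    (@En.n l180 (nat_lit 7817) (nat_lit 1) (nat_lit 14))
    (@En.n l4774 (nat_lit 1307) (nat_lit 2) (nat_lit 7))
    (@En.n l13700 (nat_lit 4657) (nat_lit 3) (nat_lit 3))
    (@En.n l4774 (nat_lit 4767) (nat_lit 0) (nat_lit 9))
    (@En.n l33688 (nat_lit 4363) (nat_lit 5) (nat_lit 6))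
    (@En.i (nat_lit 1753) (nat_lit 7) (nat_lit 13))
    (@En.n l26836 (nat_lit 1407) (nat_lit 7) (nat_lit 7))
    (@En.n l7 (nat_lit 11282) (nat_lit 8) (nat_lit 4))
    (@En.n l13786 (nat_lit 13138) (nat_lit 9) (nat_lit 9))
    (@En.n l10350 (nat_lit 10714) (nat_lit 1) (nat_lit 6))
    (@En.n l26837 (nat_lit 4652) (nat_lit 12) (nat_lit 10))
    (@En.n l617 (nat_lit 4653) (nat_lit 13) (nat_lit 12))
    (@En.n l3480 (nat_lit 7877) (nat_lit 14) (nat_lit 7))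
    (@En.n l33689 (nat_lit 9651) (nat_lit 11) (nat_lit 9))
    (@En.n l11 (nat_lit 4651) (nat_lit 15) (nat_lit 2))))
  (@Cl.mk (nat_lit 0x2000a0007000a00050008000c0006000c00060004000900040008000e000b) (nat_lit 0x6020500500304b1) (nat_lit 16) Lb.e (@T16.mk En
    (@En.n l1643 (nat_lit 4650) (nat_lit 13) (nat_lit 11))
    (@En.n l619 (nat_lit 7818) (nat_lit 1) (nat_lit 14))
    (@En.n l28280 (nat_lit 5179) (nat_lit 2) (nat_lit 8))
    (@En.n l25648 (nat_lit 7748) (nat_lit 3) (nat_lit 4))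
    (@En.n l28275 (nat_lit 4651) (nat_lit 4) (nat_lit 9))
    (@En.n l28276 (nat_lit 7871) (nat_lit 5) (nat_lit 4))
    (@En.n l37896 (nat_lit 1995) (nat_lit 6) (nat_lit 6))
    (@En.n l31030 (nat_lit 2576) (nat_lit 8) (nat_lit 12))
    (@En.n l217 (nat_lit 1194) (nat_lit 8) (nat_lit 6))
    (@En.n l1643 (nat_lit 11888) (nat_lit 10) (nat_lit 12))
    (@En.n l9025 (nat_lit 13139) (nat_lit 10) (nat_lit 8))
    (@En.n l31033 (nat_lit 10709) (nat_lit 12) (nat_lit 5))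
    (@En.i (nat_lit 7896) (nat_lit 8) (nat_lit 10))
    (@En.n l28280 (nat_lit 7874) (nat_lit 14) (nat_lit 7))
    (@En.n l9025 (nat_lit 9784) (nat_lit 2) (nat_lit 10))
    (@En.n l107 (nat_lit 4652) (nat_lit 15) (nat_lit 2))))
  (@Cl.mk (nat_lit 0x20009000c0009000500080004000c0007000d0007000400030008000e000b) (nat_lit 0x512050107000381) (nat_lit 16) Lb.e (@T16.mk En
    (@En.n l25666 (nat_lit 4648) (nat_lit 13) (nat_lit 11))
    (@En.n l37677 (nat_lit 7815) (nat_lit 1) (nat_lit 14))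
    (@En.n l12332 (nat_lit 5470) (nat_lit 2) (nat_lit 8))
    (@En.n l2101 (nat_lit 7812) (nat_lit 3) (nat_lit 3))
    (@En.n l2921 (nat_lit 7886) (nat_lit 4) (nat_lit 4))
    (@En.n l1290 (nat_lit 4362) (nat_lit 5) (nat_lit 7))
    (@En.i (nat_lit 2354) (nat_lit 7) (nat_lit 13))
    (@En.n l61 (nat_lit 4651) (nat_lit 7) (nat_lit 7))
    (@En.n l12827 (nat_lit 4652) (nat_lit 9) (nat_lit 12))
    (@En.n l7 (nat_lit 11203) (nat_lit 9) (nat_lit 4))
    (@En.i (nat_lit 13136) (nat_lit 10) (nat_lit 8))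
    (@En.n l16043 (nat_lit 10716) (nat_lit 7) (nat_lit 5))
    (@En.n l23118 (nat_lit 7894) (nat_lit 13) (nat_lit 9))
    (@En.n l2921 (nat_lit 2210) (nat_lit 14) (nat_lit 12))
    (@En.i (nat_lit 9653) (nat_lit 11) (nat_lit 9))
    (@En.n l11 (nat_lit 4653) (nat_lit 15) (nat_lit 2))))
  (@Cl.mk (nat_lit 0x30007000a000a00080007000b000800060006000900050008000d00090008) (nat_lit 0x2402300004600) (nat_lit 16) Lb.e (@T16.mk En
    (@En.n l25841 (nat_lit 6509) (nat_lit 0) (nat_lit 8))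
    (@En.i (nat_lit 5260) (nat_lit 13) (nat_lit 9))
    (@En.n l39920 (nat_lit 1751) (nat_lit 2) (nat_lit 13))
    (@En.n l39921 (nat_lit 1516) (nat_lit 10) (nat_lit 8))
    (@En.i (nat_lit 11275) (nat_lit 4) (nat_lit 5))
    (@En.n l39922 (nat_lit 4657) (nat_lit 9) (nat_lit 9))
    (@En.n l39923 (nat_lit 4657) (nat_lit 10) (nat_lit 6))
    (@En.n l728 (nat_lit 10832) (nat_lit 7) (nat_lit 6))
    (@En.i (nat_lit 7744) (nat_lit 9) (nat_lit 8))
    (@En.n l7 (nat_lit 4655) (nat_lit 10) (nat_lit 11))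
    (@En.n l6125 (nat_lit 7809) (nat_lit 9) (nat_lit 7))
    (@En.n l26274 (nat_lit 9670) (nat_lit 12) (nat_lit 8))
    (@En.n l39924 (nat_lit 4656) (nat_lit 6) (nat_lit 10))
    (@En.n l14522 (nat_lit 7243) (nat_lit 8) (nat_lit 10))
    (@En.n l17563 (nat_lit 1994) (nat_lit 12) (nat_lit 7))
    (@En.n l39925 (nat_lit 4645) (nat_lit 15) (nat_lit 3))))
  (@Cl.mk (nat_lit 0x30008000b000b0008000b00070005000500080005000d0008000d00030009) (nat_lit 0x202410000075800) (nat_lit 16) Lb.e (@T16.mk En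
    (@En.n l2568 (nat_lit 6506) (nat_lit 0) (nat_lit 9))
    (@En.n l613 (nat_lit 7809) (nat_lit 15) (nat_lit 3))
    (@En.n l5702 (nat_lit 2350) (nat_lit 0) (nat_lit 13))
    (@En.i (nat_lit 4654) (nat_lit 3) (nat_lit 8))
    (@En.n l40922 (nat_lit 7751) (nat_lit 2) (nat_lit 13))
    (@En.i (nat_lit 11206) (nat_lit 3) (nat_lit 5))
    (@En.n l730 (nat_lit 7812) (nat_lit 10) (nat_lit 8))
    (@En.n l731 (nat_lit 7812) (nat_lit 11) (nat_lit 5))
    (@En.n l728 (nat_lit 10816) (nat_lit 8) (nat_lit 5))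
    (@En.n l55 (nat_lit 7747) (nat_lit 7) (nat_lit 7))
    (@En.i (nat_lit 2213) (nat_lit 7) (nat_lit 11))
    (@En.n l27817 (nat_lit 9671) (nat_lit 12) (nat_lit 8))
    (@En.n l14524 (nat_lit 7808) (nat_lit 5) (nat_lit 11))
    (@En.n l14522 (nat_lit 7244) (nat_lit 7) (nat_lit 11))
    (@En.n l728 (nat_lit 3122) (nat_lit 13) (nat_lit 8))
    (@En.n l18 (nat_lit 4648) (nat_lit 15) (nat_lit 3))))
noncomputable def a291 : T16 Cl := @T16.mk Cl
  (@Cl.mk (nat_lit 0x2000900060009000d000a000900030007000a00070006000a0007000e0006) (nat_lit 0x105940001002000) (nat_lit 16) Lb.e (@T16.mk En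
    (@En.n l25481 (nat_lit 4654) (nat_lit 7) (nat_lit 6))
    (@En.n l12397 (nat_lit 7803) (nat_lit 1) (nat_lit 14))
    (@En.n l1690 (nat_lit 7837) (nat_lit 2) (nat_lit 7))
    (@En.n l10536 (nat_lit 7808) (nat_lit 3) (nat_lit 10))
    (@En.i (nat_lit 7810) (nat_lit 4) (nat_lit 6))
    (@En.n l5408 (nat_lit 9866) (nat_lit 5) (nat_lit 7))
    (@En.n l18240 (nat_lit 2940) (nat_lit 8) (nat_lit 10))
    (@En.i (nat_lit 3188) (nat_lit 7) (nat_lit 7))
    (@En.n l25482 (nat_lit 4646) (nat_lit 8) (nat_lit 3))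
    (@En.n l55 (nat_lit 6512) (nat_lit 0) (nat_lit 9))
    (@En.n l25483 (nat_lit 5274) (nat_lit 11) (nat_lit 10))
    (@En.n l12096 (nat_lit 2584) (nat_lit 12) (nat_lit 13))
    (@En.n l13405 (nat_lit 1391) (nat_lit 9) (nat_lit 9))
    (@En.n l25484 (nat_lit 11272) (nat_lit 14) (nat_lit 6))
    (@En.n l25485 (nat_lit 4654) (nat_lit 5) (nat_lit 9))
    (@En.n l18 (nat_lit 4656) (nat_lit 15) (nat_lit 2))))
  (@Cl.mk (nat_lit 0x200090008000c00090006000900040007000d0008000700030007000e000a) (nat_lit 0x502307005000071) (nat_lit 16) Lb.e (@T16.mk En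
    (@En.n l25516 (nat_lit 4654) (nat_lit 13) (nat_lit 10))
    (@En.n l32947 (nat_lit 7816) (nat_lit 1) (nat_lit 14))
    (@En.n l37982 (nat_lit 1996) (nat_lit 2) (nat_lit 7))
    (@En.n l13051 (nat_lit 4651) (nat_lit 3) (nat_lit 3))
    (@En.i (nat_lit 6508) (nat_lit 0) (nat_lit 7))
    (@En.n l37983 (nat_lit 5261) (nat_lit 5) (nat_lit 8))
    (@En.n l2566 (nat_lit 1750) (nat_lit 7) (nat_lit 13))
    (@En.n l5592 (nat_lit 1401) (nat_lit 7) (nat_lit 7))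
    (@En.n l31227 (nat_lit 11281) (nat_lit 8) (nat_lit 4))
    (@En.n l13065 (nat_lit 13633) (nat_lit 9) (nat_lit 9))
    (@En.n l33493 (nat_lit 10819) (nat_lit 1) (nat_lit 6))
    (@En.n l7479 (nat_lit 7748) (nat_lit 12) (nat_lit 9))
    (@En.n l3039 (nat_lit 7812) (nat_lit 13) (nat_lit 12))
    (@En.n l7477 (nat_lit 7811) (nat_lit 14) (nat_lit 8))
    (@En.n l37984 (nat_lit 8404) (nat_lit 11) (nat_lit 9))
    (@En.n l107 (nat_lit 4657) (nat_lit 15) (nat_lit 2))))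
  (@Cl.mk (nat_lit 0x2000a000e000b0002000b000700060005000d0005000e00030002000e0009) (nat_lit 0x1510300050700c1) (nat_lit 16) Lb.e (@T16.mk En
    (@En.i (nat_lit 2079) (nat_lit 14) (nat_lit 9))
    (@En.i (nat_lit 7151) (nat_lit 1) (nat_lit 14))
    (@En.n l17 (nat_lit 4658) (nat_lit 2) (nat_lit 2))
    (@En.i (nat_lit 4659) (nat_lit 7) (nat_lit 3))
    (@En.i (nat_lit 13463) (nat_lit 0) (nat_lit 14))
    (@En.i (nat_lit 1944) (nat_lit 5) (nat_lit 5))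
    (@En.i (nat_lit 8034) (nat_lit 7) (nat_lit 13))
    (@En.i (nat_lit 3931) (nat_lit 7) (nat_lit 5))
    (@En.i (nat_lit 4102) (nat_lit 8) (nat_lit 6))
    (@En.i (nat_lit 3885) (nat_lit 14) (nat_lit 7))
    (@En.n l3424 (nat_lit 7920) (nat_lit 11) (nat_lit 11))
    (@En.n l28 (nat_lit 4658) (nat_lit 11) (nat_lit 2))
    (@En.n l77 (nat_lit 1950) (nat_lit 13) (nat_lit 11))
    (@En.n l5987 (nat_lit 2103) (nat_lit 1) (nat_lit 14))
    (@En.n l107 (nat_lit 1958) (nat_lit 12) (nat_lit 10))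
    (@En.n l3 (nat_lit 4658) (nat_lit 15) (nat_lit 2))))
  (@Cl.mk (nat_lit 0x2000a000700060005000d000d000600030003000e00090002000a000e000b) (nat_lit 0x700056000c10151) (nat_lit 16) Lb.e (@T16.mk En
    (@En.n l77 (nat_lit 1946) (nat_lit 13) (nat_lit 11))
    (@En.n l17119 (nat_lit 2104) (nat_lit 1) (nat_lit 14))
    (@En.n l26563 (nat_lit 1961) (nat_lit 2) (nat_lit 10))
    (@En.n l3 (nat_lit 4659) (nat_lit 3) (nat_lit 2))
    (@En.n l1392 (nat_lit 2078) (nat_lit 4) (nat_lit 9))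
    (@En.n l3423 (nat_lit 7150) (nat_lit 1) (nat_lit 14))
    (@En.n l26564 (nat_lit 4660) (nat_lit 13) (nat_lit 3))
    (@En.n l18 (nat_lit 4658) (nat_lit 3) (nat_lit 3))
    (@En.n l480 (nat_lit 1910) (nat_lit 0) (nat_lit 6))
    (@En.n l61 (nat_lit 4658) (nat_lit 6) (nat_lit 13))
    (@En.i (nat_lit 8035) (nat_lit 7) (nat_lit 13))
    (@En.n l25798 (nat_lit 3934) (nat_lit 7) (nat_lit 5))
    (@En.i (nat_lit 3281) (nat_lit 8) (nat_lit 6))
    (@En.n l9783 (nat_lit 3884) (nat_lit 14) (nat_lit 7))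
    (@En.n l12144 (nat_lit 7485) (nat_lit 11) (nat_lit 10))
    (@En.n l28 (nat_lit 4659) (nat_lit 15) (nat_lit 2))))
  (@Cl.mk (nat_lit 0x200070003000e00090002000a000e000b00020009000700060005000e000d) (nat_lit 0x6301610600096) (nat_lit 16) Lb.e (@T16.mk En
    (@En.n l12798 (nat_lit 4659) (nat_lit 10) (nat_lit 13))
    (@En.n l12799 (nat_lit 5778) (nat_lit 1) (nat_lit 14))
    (@En.i (nat_lit 3936) (nat_lit 2) (nat_lit 5))
    (@En.n l3698 (nat_lit 3283) (nat_lit 3) (nat_lit 6))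
    (@En.n l9718 (nat_lit 3886) (nat_lit 14) (nat_lit 7))
    (@En.n l3698 (nat_lit 7480) (nat_lit 5) (nat_lit 9))
    (@En.n l67 (nat_lit 4660) (nat_lit 6) (nat_lit 2))
    (@En.n l12800 (nat_lit 1951) (nat_lit 8) (nat_lit 11))
    (@En.n l7201 (nat_lit 4868) (nat_lit 9) (nat_lit 14))
    (@En.n l9718 (nat_lit 1964) (nat_lit 10) (nat_lit 10))
    (@En.n l17 (nat_lit 4660) (nat_lit 10) (nat_lit 2))
    (@En.n l12801 (nat_lit 3723) (nat_lit 12) (nat_lit 9))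
    (@En.n l9718 (nat_lit 4765) (nat_lit 1) (nat_lit 14))
    (@En.n l1422 (nat_lit 4659) (nat_lit 6) (nat_lit 3))
    (@En.n l3698 (nat_lit 1913) (nat_lit 7) (nat_lit 7))
    (@En.n l7 (nat_lit 4660) (nat_lit 15) (nat_lit 2))))
  (@Cl.mk (nat_lit 0x2000700060004000d000d000900030003000e00090002000a0007000e000c) (nat_lit 0x40400b606064) (nat_lit 16) Lb.e (@T16.mk En
    (@En.n l61 (nat_lit 4664) (nat_lit 12) (nat_lit 12))
    (@En.n l11654 (nat_lit 4659) (nat_lit 1) (nat_lit 14))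
    (@En.n l4249 (nat_lit 8953) (nat_lit 2) (nat_lit 7))
    (@En.n l16045 (nat_lit 5842) (nat_lit 3) (nat_lit 10))
    (@En.n l28 (nat_lit 4661) (nat_lit 4) (nat_lit 2))
    (@En.n l16046 (nat_lit 4134) (nat_lit 5) (nat_lit 9))
    (@En.n l3519 (nat_lit 8165) (nat_lit 1) (nat_lit 14))
    (@En.n l152 (nat_lit 4662) (nat_lit 7) (nat_lit 3))
    (@En.n l16047 (nat_lit 4663) (nat_lit 8) (nat_lit 3))
    (@En.n l97 (nat_lit 5778) (nat_lit 10) (nat_lit 9))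
    (@En.n l16048 (nat_lit 4663) (nat_lit 11) (nat_lit 13))
    (@En.n l16049 (nat_lit 8173) (nat_lit 12) (nat_lit 13))
    (@En.n l13046 (nat_lit 4667) (nat_lit 7) (nat_lit 4))
    (@En.i (nat_lit 3573) (nat_lit 14) (nat_lit 6))
    (@En.n l16050 (nat_lit 4209) (nat_lit 5) (nat_lit 7))
    (@En.n l17 (nat_lit 4661) (nat_lit 15) (nat_lit 2))))
  (@Cl.mk (nat_lit 0x2000700060004000e000d0002000a0003000e00090002000a0006000e000c) (nat_lit 0x35010b607074) (nat_lit 16) Lb.e (@T16.mk En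
    (@En.n l61 (nat_lit 4665) (nat_lit 7) (nat_lit 12))
    (@En.n l13639 (nat_lit 4660) (nat_lit 8) (nat_lit 14))
    (@En.n l5337 (nat_lit 9212) (nat_lit 2) (nat_lit 6))
    (@En.n l13044 (nat_lit 5846) (nat_lit 3) (nat_lit 10))
    (@En.n l28 (nat_lit 4662) (nat_lit 4) (nat_lit 2))
    (@En.n l13640 (nat_lit 4136) (nat_lit 5) (nat_lit 9))
    (@En.n l5331 (nat_lit 9320) (nat_lit 1) (nat_lit 14))
    (@En.n l117 (nat_lit 4661) (nat_lit 7) (nat_lit 3))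
    (@En.n l2101 (nat_lit 932) (nat_lit 9) (nat_lit 10))
    (@En.n l3 (nat_lit 4662) (nat_lit 9) (nat_lit 2))
    (@En.i (nat_lit 4661) (nat_lit 11) (nat_lit 13))
    (@En.n l6147 (nat_lit 4634) (nat_lit 12) (nat_lit 14))
    (@En.n l13046 (nat_lit 4668) (nat_lit 2) (nat_lit 4))
    (@En.i (nat_lit 5124) (nat_lit 14) (nat_lit 6))
    (@En.n l1935 (nat_lit 7110) (nat_lit 4) (nat_lit 7))
    (@En.n l17 (nat_lit 4662) (nat_lit 15) (nat_lit 2))))
  (@Cl.mk (nat_lit 0x2000700060004000d0008000e00030002000e00090002000a0008000e000c) (nat_lit 0xb4300b606063) (nat_lit 16) Lb.e (@T16.mk En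
    (@En.n l11667 (nat_lit 4666) (nat_lit 12) (nat_lit 12))
    (@En.n l110 (nat_lit 4658) (nat_lit 13) (nat_lit 14))
    (@En.i (nat_lit 8950) (nat_lit 2) (nat_lit 8))
    (@En.i (nat_lit 5844) (nat_lit 3) (nat_lit 10))
    (@En.n l3 (nat_lit 4663) (nat_lit 4) (nat_lit 2))
    (@En.n l4146 (nat_lit 4135) (nat_lit 5) (nat_lit 9))
    (@En.n l447 (nat_lit 8162) (nat_lit 1) (nat_lit 14))
    (@En.n l17 (nat_lit 4663) (nat_lit 7) (nat_lit 2))
    (@En.n l6476 (nat_lit 4661) (nat_lit 8) (nat_lit 3))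
    (@En.n l174 (nat_lit 13088) (nat_lit 0) (nat_lit 14))
    (@En.n l686 (nat_lit 5734) (nat_lit 11) (nat_lit 8))
    (@En.n l1395 (nat_lit 8172) (nat_lit 12) (nat_lit 13))
    (@En.n l2678 (nat_lit 4669) (nat_lit 7) (nat_lit 4))
    (@En.n l110 (nat_lit 4114) (nat_lit 14) (nat_lit 6))
    (@En.n l810 (nat_lit 7430) (nat_lit 6) (nat_lit 7))
    (@En.n l28 (nat_lit 4663) (nat_lit 15) (nat_lit 2))))
  (@Cl.mk (nat_lit 0x2000b0007000c000c0006000500040004000d000d000900030003000e000a) (nat_lit 0x403500006860066) (nat_lit 16) Lb.e (@T16.mk En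
    (@En.i (nat_lit 4133) (nat_lit 13) (nat_lit 10))
    (@En.i (nat_lit 8170) (nat_lit 1) (nat_lit 14))
    (@En.n l152 (nat_lit 4665) (nat_lit 13) (nat_lit 3))
    (@En.n l1865 (nat_lit 4666) (nat_lit 3) (nat_lit 3))
    (@En.n l97 (nat_lit 5696) (nat_lit 4) (nat_lit 9))
    (@En.n l1867 (nat_lit 4666) (nat_lit 6) (nat_lit 13))
    (@En.i (nat_lit 7813) (nat_lit 7) (nat_lit 13))
    (@En.i (nat_lit 4661) (nat_lit 12) (nat_lit 4))
    (@En.n l18 (nat_lit 4670) (nat_lit 8) (nat_lit 4))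
    (@En.i (nat_lit 3576) (nat_lit 9) (nat_lit 5))
    (@En.n l24726 (nat_lit 3929) (nat_lit 6) (nat_lit 6))
    (@En.n l61 (nat_lit 4671) (nat_lit 12) (nat_lit 12))
    (@En.n l649 (nat_lit 2679) (nat_lit 13) (nat_lit 12))
    (@En.i (nat_lit 8954) (nat_lit 14) (nat_lit 7))
    (@En.n l7 (nat_lit 5901) (nat_lit 11) (nat_lit 11))
    (@En.n l28 (nat_lit 4664) (nat_lit 15) (nat_lit 2))))
  (@Cl.mk (nat_lit 0x2000a0003000e000a0002000b0006000c000c0006000500040004000e000d) (nat_lit 0x1066060350000a7) (nat_lit 16) Lb.e (@T16.mk En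
    (@En.i (nat_lit 4664) (nat_lit 6) (nat_lit 13))
    (@En.i (nat_lit 7480) (nat_lit 1) (nat_lit 14))
    (@En.i (nat_lit 4662) (nat_lit 12) (nat_lit 4))
    (@En.n l18 (nat_lit 5647) (nat_lit 3) (nat_lit 4))
    (@En.i (nat_lit 3569) (nat_lit 4) (nat_lit 5))
    (@En.i (nat_lit 7109) (nat_lit 5) (nat_lit 6))
    (@En.n l61 (nat_lit 5890) (nat_lit 7) (nat_lit 12))
    (@En.n l1353 (nat_lit 4084) (nat_lit 8) (nat_lit 12))
    (@En.n l564 (nat_lit 8558) (nat_lit 14) (nat_lit 6))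
    (@En.n l7 (nat_lit 5902) (nat_lit 10) (nat_lit 11))
    (@En.n l28 (nat_lit 4665) (nat_lit 10) (nat_lit 2))
    (@En.i (nat_lit 4137) (nat_lit 12) (nat_lit 10))
    (@En.i (nat_lit 9035) (nat_lit 1) (nat_lit 14))
    (@En.n l117 (nat_lit 4664) (nat_lit 2) (nat_lit 3))
    (@En.i (nat_lit 931) (nat_lit 3) (nat_lit 10))
    (@En.n l3 (nat_lit 4665) (nat_lit 15) (nat_lit 2))))
  (@Cl.mk (nat_lit 0x2000b0008000c000c0006000500040004000d0008000e00030002000e000a) (nat_lit 0x5025000075400b6) (nat_lit 16) Lb.e (@T16.mk En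
    (@En.n l575 (nat_lit 4138) (nat_lit 14) (nat_lit 10))
    (@En.i (nat_lit 8166) (nat_lit 1) (nat_lit 14))
    (@En.n l17 (nat_lit 4666) (nat_lit 2) (nat_lit 2))
    (@En.n l2869 (nat_lit 4664) (nat_lit 3) (nat_lit 3))
    (@En.i (nat_lit 13092) (nat_lit 0) (nat_lit 14))
    (@En.i (nat_lit 5733) (nat_lit 5) (nat_lit 8))
    (@En.n l4973 (nat_lit 7814) (nat_lit 7) (nat_lit 13))
    (@En.n l25361 (nat_lit 4663) (nat_lit 12) (nat_lit 4))
    (@En.n l1577 (nat_lit 5642) (nat_lit 8) (nat_lit 4))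
    (@En.i (nat_lit 3575) (nat_lit 9) (nat_lit 5))
    (@En.n l4973 (nat_lit 7026) (nat_lit 7) (nat_lit 6))
    (@En.n l457 (nat_lit 5891) (nat_lit 12) (nat_lit 12))
    (@En.i (nat_lit 2678) (nat_lit 13) (nat_lit 12))
    (@En.n l3339 (nat_lit 8951) (nat_lit 14) (nat_lit 8))
    (@En.n l107 (nat_lit 6059) (nat_lit 12) (nat_lit 11))
    (@En.n l3 (nat_lit 4666) (nat_lit 15) (nat_lit 2))))
  (@Cl.mk (nat_lit 0x2000c0007000d000c0004000300080004000d000d000900030003000e0008) (nat_lit 0x40b600309000091) (nat_lit 16) Lb.e (@T16.mk En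
    (@En.n l17971 (nat_lit 3627) (nat_lit 13) (nat_lit 8))
    (@En.n l2440 (nat_lit 10936) (nat_lit 1) (nat_lit 14))
    (@En.n l152 (nat_lit 4668) (nat_lit 13) (nat_lit 3))
    (@En.n l30901 (nat_lit 4669) (nat_lit 3) (nat_lit 3))
    (@En.n l97 (nat_lit 8035) (nat_lit 0) (nat_lit 9))
    (@En.n l30902 (nat_lit 4669) (nat_lit 6) (nat_lit 13))
    (@En.i (nat_lit 4706) (nat_lit 7) (nat_lit 13))
    (@En.n l5567 (nat_lit 4664) (nat_lit 7) (nat_lit 4))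
    (@En.n l25000 (nat_lit 4201) (nat_lit 4) (nat_lit 8))
    (@En.n l18 (nat_lit 3630) (nat_lit 9) (nat_lit 3))
    (@En.n l5567 (nat_lit 3991) (nat_lit 0) (nat_lit 4))
    (@En.n l10557 (nat_lit 4670) (nat_lit 12) (nat_lit 12))
    (@En.n l14016 (nat_lit 3934) (nat_lit 13) (nat_lit 13))
    (@En.n l7401 (nat_lit 12503) (nat_lit 14) (nat_lit 7))
    (@En.n l10555 (nat_lit 6179) (nat_lit 11) (nat_lit 12))
    (@En.n l28 (nat_lit 4667) (nat_lit 15) (nat_lit 2))))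
  (@Cl.mk (nat_lit 0x2000a0003000e00080002000c0006000d000c0004000300080004000e000d) (nat_lit 0x91080b500308a) (nat_lit 16) Lb.e (@T16.mk En
    (@En.i (nat_lit 4667) (nat_lit 6) (nat_lit 13))
    (@En.i (nat_lit 4558) (nat_lit 1) (nat_lit 14))
    (@En.n l5567 (nat_lit 4665) (nat_lit 2) (nat_lit 4))
    (@En.n l7406 (nat_lit 4200) (nat_lit 3) (nat_lit 8))
    (@En.n l18 (nat_lit 5649) (nat_lit 4) (nat_lit 3))
    (@En.n l5567 (nat_lit 4826) (nat_lit 0) (nat_lit 4))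
    (@En.n l10557 (nat_lit 5647) (nat_lit 7) (nat_lit 12))
    (@En.n l1392 (nat_lit 3936) (nat_lit 8) (nat_lit 13))
    (@En.n l3129 (nat_lit 12507) (nat_lit 14) (nat_lit 6))
    (@En.n l10555 (nat_lit 6175) (nat_lit 10) (nat_lit 12))
    (@En.n l28 (nat_lit 4668) (nat_lit 10) (nat_lit 2))
    (@En.n l982 (nat_lit 3635) (nat_lit 12) (nat_lit 8))
    (@En.n l1395 (nat_lit 9030) (nat_lit 1) (nat_lit 14))
    (@En.n l117 (nat_lit 4667) (nat_lit 2) (nat_lit 3))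
    (@En.i (nat_lit 5682) (nat_lit 3) (nat_lit 10))
    (@En.n l3 (nat_lit 4668) (nat_lit 15) (nat_lit 2))))
  (@Cl.mk (nat_lit 0x2000c0008000d000c0004000300080004000d0008000e00030002000e0008) (nat_lit 0x55b60030b0000b1) (nat_lit 16) Lb.e (@T16.mk En
    (@En.n l17089 (nat_lit 3633) (nat_lit 14) (nat_lit 8))
    (@En.n l9740 (nat_lit 10940) (nat_lit 1) (nat_lit 14))
    (@En.n l17 (nat_lit 4669) (nat_lit 2) (nat_lit 2))
    (@En.n l18122 (nat_lit 4667) (nat_lit 3) (nat_lit 3))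
    (@En.i (nat_lit 13961) (nat_lit 0) (nat_lit 14))
    (@En.i (nat_lit 6467) (nat_lit 5) (nat_lit 8))
    (@En.n l564 (nat_lit 4712) (nat_lit 7) (nat_lit 13))
    (@En.n l4517 (nat_lit 4666) (nat_lit 7) (nat_lit 4))
    (@En.n l117 (nat_lit 4208) (nat_lit 5) (nat_lit 8))
    (@En.n l25394 (nat_lit 5648) (nat_lit 9) (nat_lit 3))
    (@En.n l2678 (nat_lit 4804) (nat_lit 0) (nat_lit 4))
    (@En.n l4520 (nat_lit 5642) (nat_lit 12) (nat_lit 12))
    (@En.n l4517 (nat_lit 3931) (nat_lit 13) (nat_lit 13))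
    (@En.i (nat_lit 12504) (nat_lit 14) (nat_lit 8))
    (@En.n l117 (nat_lit 6195) (nat_lit 12) (nat_lit 12))
    (@En.n l3 (nat_lit 4669) (nat_lit 15) (nat_lit 2))))
  (@Cl.mk (nat_lit 0x2000d0007000c0003000d000700040003000d000d000900030003000e0009) (nat_lit 0x9050500099000a0) (nat_lit 16) Lb.e (@T16.mk En
    (@En.n l28577 (nat_lit 5553) (nat_lit 13) (nat_lit 9))
    (@En.n l8628 (nat_lit 10932) (nat_lit 1) (nat_lit 14))
    (@En.n l152 (nat_lit 5647) (nat_lit 13) (nat_lit 3))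
    (@En.n l20805 (nat_lit 5642) (nat_lit 3) (nat_lit 3))
    (@En.n l97 (nat_lit 8033) (nat_lit 0) (nat_lit 9))
    (@En.n l21885 (nat_lit 5642) (nat_lit 6) (nat_lit 13))
    (@En.n l6725 (nat_lit 11251) (nat_lit 7) (nat_lit 13))
    (@En.n l11960 (nat_lit 3630) (nat_lit 7) (nat_lit 3))
    (@En.i (nat_lit 4671) (nat_lit 8) (nat_lit 4))
    (@En.n l25672 (nat_lit 3922) (nat_lit 5) (nat_lit 7))
    (@En.n l28578 (nat_lit 3226) (nat_lit 11) (nat_lit 13))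
    (@En.i (nat_lit 5639) (nat_lit 11) (nat_lit 3))
    (@En.n l8631 (nat_lit 3697) (nat_lit 0) (nat_lit 12))
    (@En.n l644 (nat_lit 12499) (nat_lit 14) (nat_lit 7))
    (@En.n l7479 (nat_lit 6114) (nat_lit 11) (nat_lit 13))
    (@En.n l28 (nat_lit 4670) (nat_lit 15) (nat_lit 2))))
  (@Cl.mk (nat_lit 0x2000c0007000c00050004000e00040002000d000d000900030003000e000b) (nat_lit 0xa04006006870069) (nat_lit 16) Lb.e (@T16.mk En
    (@En.n l8631 (nat_lit 5825) (nat_lit 9) (nat_lit 11))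
    (@En.i (nat_lit 10931) (nat_lit 1) (nat_lit 14))
    (@En.n l152 (nat_lit 5890) (nat_lit 13) (nat_lit 3))
    (@En.n l20805 (nat_lit 5891) (nat_lit 3) (nat_lit 3))
    (@En.n l97 (nat_lit 5695) (nat_lit 0) (nat_lit 9))
    (@En.n l21885 (nat_lit 5891) (nat_lit 6) (nat_lit 13))
    (@En.i (nat_lit 7911) (nat_lit 7) (nat_lit 13))
    (@En.n l17 (nat_lit 4671) (nat_lit 7) (nat_lit 2))
    (@En.i (nat_lit 4664) (nat_lit 8) (nat_lit 4))
    (@En.n l5022 (nat_lit 3228) (nat_lit 1) (nat_lit 14))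
    (@En.i (nat_lit 3570) (nat_lit 10) (nat_lit 4))
    (@En.i (nat_lit 5334) (nat_lit 3) (nat_lit 5))
    (@En.n l8631 (nat_lit 3829) (nat_lit 13) (nat_lit 12))
    (@En.n l644 (nat_lit 12511) (nat_lit 14) (nat_lit 7))
    (@En.n l7 (nat_lit 5892) (nat_lit 7) (nat_lit 12))
    (@En.n l28 (nat_lit 4671) (nat_lit 15) (nat_lit 2))))
noncomputable def a292 : T16 Cl := @T16.mk Cl
  (@Cl.mk (nat_lit 0x20005000e00090002000d000d000a000300030007000c000b0006000e0004) (nat_lit 0x640147000470b0) (nat_lit 16) Lb.e (@T16.mk En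
    (@En.n l3323 (nat_lit 4599) (nat_lit 4) (nat_lit 4))
    (@En.n l3325 (nat_lit 4715) (nat_lit 1) (nat_lit 14))
    (@En.n l3348 (nat_lit 4482) (nat_lit 2) (nat_lit 6))
    (@En.n l250 (nat_lit 4598) (nat_lit 3) (nat_lit 11))
    (@En.n l3348 (nat_lit 3436) (nat_lit 9) (nat_lit 12))
    (@En.n l250 (nat_lit 3857) (nat_lit 5) (nat_lit 7))
    (@En.n l50 (nat_lit 4728) (nat_lit 6) (nat_lit 3))
    (@En.n l5559 (nat_lit 4714) (nat_lit 7) (nat_lit 3))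
    (@En.i (nat_lit 5249) (nat_lit 9) (nat_lit 10))
    (@En.n l16513 (nat_lit 4714) (nat_lit 10) (nat_lit 13))
    (@En.i (nat_lit 778) (nat_lit 11) (nat_lit 13))
    (@En.n l11 (nat_lit 4672) (nat_lit 11) (nat_lit 2))
    (@En.n l22256 (nat_lit 4674) (nat_lit 13) (nat_lit 9))
    (@En.n l3348 (nat_lit 3992) (nat_lit 1) (nat_lit 14))
    (@En.n l253 (nat_lit 3384) (nat_lit 13) (nat_lit 5))
    (@En.n l3 (nat_lit 4672) (nat_lit 15) (nat_lit 2))))
  (@Cl.mk (nat_lit 0x2000500090009000e000d0002000a000300070007000c000b0006000e0004) (nat_lit 0x351907000080b0) (nat_lit 16) Lb.e (@T16.mk En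
    (@En.n l16304 (nat_lit 4735) (nat_lit 6) (nat_lit 4))
    (@En.n l725 (nat_lit 4737) (nat_lit 8) (nat_lit 14))
    (@En.i (nat_lit 5320) (nat_lit 2) (nat_lit 6))
    (@En.n l16307 (nat_lit 4736) (nat_lit 3) (nat_lit 11))
    (@En.i (nat_lit 7264) (nat_lit 11) (nat_lit 12))
    (@En.n l7645 (nat_lit 4728) (nat_lit 5) (nat_lit 7))
    (@En.n l16307 (nat_lit 3961) (nat_lit 6) (nat_lit 7))
    (@En.n l6636 (nat_lit 4674) (nat_lit 7) (nat_lit 3))
    (@En.i (nat_lit 5258) (nat_lit 0) (nat_lit 10))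
    (@En.n l50 (nat_lit 4673) (nat_lit 9) (nat_lit 2))
    (@En.n l6635 (nat_lit 4674) (nat_lit 11) (nat_lit 13))
    (@En.n l23552 (nat_lit 777) (nat_lit 12) (nat_lit 14))
    (@En.n l9493 (nat_lit 4785) (nat_lit 13) (nat_lit 9))
    (@En.i (nat_lit 7069) (nat_lit 3) (nat_lit 9))
    (@En.n l16311 (nat_lit 3369) (nat_lit 13) (nat_lit 5))
    (@En.n l11 (nat_lit 4673) (nat_lit 15) (nat_lit 2))))
  (@Cl.mk (nat_lit 0x2000500090009000d000d00090003000300070007000c000b0007000e0004) (nat_lit 0x368b7000048070) (nat_lit 16) Lb.e (@T16.mk En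
    (@En.n l3522 (nat_lit 4677) (nat_lit 7) (nat_lit 4))
    (@En.n l1770 (nat_lit 4676) (nat_lit 1) (nat_lit 14))
    (@En.n l30435 (nat_lit 4487) (nat_lit 2) (nat_lit 7))
    (@En.n l13795 (nat_lit 4680) (nat_lit 3) (nat_lit 11))
    (@En.n l8361 (nat_lit 7263) (nat_lit 12) (nat_lit 12))
    (@En.n l13796 (nat_lit 4672) (nat_lit 5) (nat_lit 7))
    (@En.n l21994 (nat_lit 4267) (nat_lit 6) (nat_lit 7))
    (@En.n l2261 (nat_lit 4673) (nat_lit 7) (nat_lit 3))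
    (@En.n l1834 (nat_lit 4675) (nat_lit 8) (nat_lit 3))
    (@En.n l8361 (nat_lit 5250) (nat_lit 10) (nat_lit 9))
    (@En.n l12631 (nat_lit 4675) (nat_lit 11) (nat_lit 13))
    (@En.n l1836 (nat_lit 4423) (nat_lit 12) (nat_lit 13))
    (@En.n l77 (nat_lit 4678) (nat_lit 13) (nat_lit 9))
    (@En.n l1770 (nat_lit 7068) (nat_lit 14) (nat_lit 9))
    (@En.n l19442 (nat_lit 3371) (nat_lit 13) (nat_lit 5))
    (@En.n l17 (nat_lit 4674) (nat_lit 15) (nat_lit 2))))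
  (@Cl.mk (nat_lit 0x2000500090009000d0008000e0003000200070007000c000b0008000e0004) (nat_lit 0x36a540000582a0) (nat_lit 16) Lb.e (@T16.mk En
    (@En.n l2843 (nat_lit 4757) (nat_lit 8) (nat_lit 4))
    (@En.n l3 (nat_lit 4756) (nat_lit 10) (nat_lit 14))
    (@En.i (nat_lit 4488) (nat_lit 11) (nat_lit 8))
    (@En.n l15054 (nat_lit 4686) (nat_lit 3) (nat_lit 11))
    (@En.n l8824 (nat_lit 7275) (nat_lit 13) (nat_lit 12))
    (@En.n l4589 (nat_lit 4714) (nat_lit 5) (nat_lit 7))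
    (@En.n l11247 (nat_lit 4268) (nat_lit 6) (nat_lit 7))
    (@En.n l28 (nat_lit 4675) (nat_lit 7) (nat_lit 2))
    (@En.n l4750 (nat_lit 4674) (nat_lit 8) (nat_lit 3))
    (@En.n l16483 (nat_lit 13282) (nat_lit 0) (nat_lit 14))
    (@En.i (nat_lit 5307) (nat_lit 2) (nat_lit 8))
    (@En.i (nat_lit 4424) (nat_lit 12) (nat_lit 13))
    (@En.n l11034 (nat_lit 4691) (nat_lit 13) (nat_lit 9))
    (@En.n l5251 (nat_lit 7074) (nat_lit 5) (nat_lit 9))
    (@En.n l3106 (nat_lit 3387) (nat_lit 13) (nat_lit 5))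
    (@En.n l17 (nat_lit 4675) (nat_lit 15) (nat_lit 2))))
  (@Cl.mk (nat_lit 0x2000a000500090009000d000d00060003000300070007000d000b000e0003) (nat_lit 0x301298000001860) (nat_lit 16) Lb.e (@T16.mk En
    (@En.n l3522 (nat_lit 4685) (nat_lit 8) (nat_lit 3))
    (@En.n l1836 (nat_lit 13231) (nat_lit 0) (nat_lit 14))
    (@En.n l5669 (nat_lit 4734) (nat_lit 2) (nat_lit 11))
    (@En.n l8361 (nat_lit 2938) (nat_lit 12) (nat_lit 13))
    (@En.n l22252 (nat_lit 4715) (nat_lit 4) (nat_lit 7))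
    (@En.n l22253 (nat_lit 4272) (nat_lit 5) (nat_lit 7))
    (@En.n l2261 (nat_lit 4737) (nat_lit 13) (nat_lit 3))
    (@En.n l1834 (nat_lit 4756) (nat_lit 0) (nat_lit 3))
    (@En.n l1992 (nat_lit 5820) (nat_lit 0) (nat_lit 6))
    (@En.n l12631 (nat_lit 4756) (nat_lit 3) (nat_lit 13))
    (@En.n l1836 (nat_lit 4410) (nat_lit 11) (nat_lit 13))
    (@En.n l77 (nat_lit 4696) (nat_lit 12) (nat_lit 9))
    (@En.i (nat_lit 665) (nat_lit 13) (nat_lit 9))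
    (@En.i (nat_lit 4674) (nat_lit 14) (nat_lit 5))
    (@En.i (nat_lit 4521) (nat_lit 14) (nat_lit 10))
    (@En.n l17 (nat_lit 4676) (nat_lit 15) (nat_lit 2))))
  (@Cl.mk (nat_lit 0x3000300070007000c000c000c000800040004000400090009000d000d0008) (nat_lit 0x457300045574) (nat_lit 16) Lb.e (@T16.mk En
    (@En.n l21184 (nat_lit 5723) (nat_lit 0) (nat_lit 8))
    (@En.n l644 (nat_lit 4757) (nat_lit 3) (nat_lit 13))
    (@En.i (nat_lit 4393) (nat_lit 6) (nat_lit 13))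
    (@En.n l61 (nat_lit 4692) (nat_lit 7) (nat_lit 9))
    (@En.n l17334 (nat_lit 7073) (nat_lit 4) (nat_lit 9))
    (@En.n l25010 (nat_lit 4734) (nat_lit 12) (nat_lit 4))
    (@En.n l152 (nat_lit 4741) (nat_lit 12) (nat_lit 4))
    (@En.n l21184 (nat_lit 4679) (nat_lit 7) (nat_lit 4))
    (@En.i (nat_lit 4483) (nat_lit 0) (nat_lit 8))
    (@En.n l25011 (nat_lit 4795) (nat_lit 4) (nat_lit 12))
    (@En.n l1140 (nat_lit 4674) (nat_lit 4) (nat_lit 12))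
    (@En.n l17334 (nat_lit 7269) (nat_lit 12) (nat_lit 12))
    (@En.n l25012 (nat_lit 4599) (nat_lit 9) (nat_lit 7))
    (@En.n l6301 (nat_lit 3862) (nat_lit 14) (nat_lit 7))
    (@En.n l4201 (nat_lit 4735) (nat_lit 13) (nat_lit 3))
    (@En.n l7 (nat_lit 4757) (nat_lit 0) (nat_lit 3))))
  (@Cl.mk (nat_lit 0x200050009000d000d000800030003000e00070002000c000b0008000e0004) (nat_lit 0x58950010089260) (nat_lit 16) Lb.e (@T16.mk En
    (@En.n l3522 (nat_lit 4692) (nat_lit 10) (nat_lit 4))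
    (@En.n l1770 (nat_lit 4696) (nat_lit 1) (nat_lit 14))
    (@En.n l1769 (nat_lit 5326) (nat_lit 2) (nat_lit 8))
    (@En.n l10970 (nat_lit 4687) (nat_lit 3) (nat_lit 11))
    (@En.i (nat_lit 7284) (nat_lit 11) (nat_lit 12))
    (@En.n l7 (nat_lit 4678) (nat_lit 5) (nat_lit 2))
    (@En.i (nat_lit 4674) (nat_lit 6) (nat_lit 7))
    (@En.n l1770 (nat_lit 1077) (nat_lit 8) (nat_lit 14))
    (@En.n l1483 (nat_lit 4785) (nat_lit 8) (nat_lit 3))
    (@En.n l19440 (nat_lit 4691) (nat_lit 9) (nat_lit 3))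
    (@En.n l1769 (nat_lit 5712) (nat_lit 11) (nat_lit 8))
    (@En.n l19441 (nat_lit 4691) (nat_lit 12) (nat_lit 13))
    (@En.n l13800 (nat_lit 4071) (nat_lit 13) (nat_lit 13))
    (@En.n l1770 (nat_lit 7030) (nat_lit 14) (nat_lit 9))
    (@En.n l19442 (nat_lit 3392) (nat_lit 13) (nat_lit 5))
    (@En.n l17 (nat_lit 4678) (nat_lit 15) (nat_lit 2))))
  (@Cl.mk (nat_lit 0x3000300070007000c0006000d000d00040003000300090009000d000d000a) (nat_lit 0x503400047196) (nat_lit 16) Lb.e (@T16.mk En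
    (@En.i (nat_lit 4847) (nat_lit 0) (nat_lit 10))
    (@En.n l28692 (nat_lit 4681) (nat_lit 3) (nat_lit 13))
    (@En.n l2038 (nat_lit 2333) (nat_lit 12) (nat_lit 13))
    (@En.n l14454 (nat_lit 4684) (nat_lit 7) (nat_lit 9))
    (@En.n l28693 (nat_lit 5538) (nat_lit 4) (nat_lit 9))
    (@En.n l3519 (nat_lit 4680) (nat_lit 13) (nat_lit 3))
    (@En.n l18 (nat_lit 4683) (nat_lit 0) (nat_lit 3))
    (@En.n l28694 (nat_lit 4674) (nat_lit 0) (nat_lit 4))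
    (@En.n l61 (nat_lit 4683) (nat_lit 3) (nat_lit 13))
    (@En.n l22019 (nat_lit 4685) (nat_lit 10) (nat_lit 13))
    (@En.n l2678 (nat_lit 3990) (nat_lit 3) (nat_lit 6))
    (@En.n l28695 (nat_lit 7267) (nat_lit 12) (nat_lit 12))
    (@En.n l152 (nat_lit 4597) (nat_lit 9) (nat_lit 7))
    (@En.n l810 (nat_lit 4262) (nat_lit 6) (nat_lit 7))
    (@En.n l28 (nat_lit 4682) (nat_lit 13) (nat_lit 3))
    (@En.n l8328 (nat_lit 4681) (nat_lit 0) (nat_lit 3))))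
  (@Cl.mk (nat_lit 0x20005000300090009000d000d000a0003000300070007000b0006000e000d) (nat_lit 0x4712600007074) (nat_lit 16) Lb.e (@T16.mk En
    (@En.n l4130 (nat_lit 4679) (nat_lit 9) (nat_lit 13))
    (@En.n l3327 (nat_lit 4734) (nat_lit 1) (nat_lit 14))
    (@En.n l3348 (nat_lit 3995) (nat_lit 2) (nat_lit 6))
    (@En.i (nat_lit 4004) (nat_lit 3) (nat_lit 11))
    (@En.n l252 (nat_lit 4598) (nat_lit 4) (nat_lit 7))
    (@En.n l245 (nat_lit 4259) (nat_lit 5) (nat_lit 7))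
    (@En.n l50 (nat_lit 4736) (nat_lit 6) (nat_lit 3))
    (@En.n l5559 (nat_lit 4686) (nat_lit 7) (nat_lit 3))
    (@En.i (nat_lit 4849) (nat_lit 9) (nat_lit 10))
    (@En.n l16513 (nat_lit 4686) (nat_lit 10) (nat_lit 13))
    (@En.n l16514 (nat_lit 2328) (nat_lit 11) (nat_lit 13))
    (@En.n l6659 (nat_lit 4687) (nat_lit 12) (nat_lit 9))
    (@En.n l3348 (nat_lit 3530) (nat_lit 13) (nat_lit 9))
    (@En.n l2832 (nat_lit 4679) (nat_lit 5) (nat_lit 3))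
    (@En.n l10280 (nat_lit 3386) (nat_lit 0) (nat_lit 5))
    (@En.n l3 (nat_lit 4680) (nat_lit 15) (nat_lit 2))))
  (@Cl.mk (nat_lit 0x200070007000c0007000d000d00040003000300090009000d0009000e0003) (nat_lit 0x7034000478490) (nat_lit 16) Lb.e (@T16.mk En
    (@En.n l21159 (nat_lit 4679) (nat_lit 15) (nat_lit 3))
    (@En.n l13793 (nat_lit 13151) (nat_lit 0) (nat_lit 14))
    (@En.i (nat_lit 4816) (nat_lit 2) (nat_lit 9))
    (@En.i (nat_lit 4365) (nat_lit 12) (nat_lit 13))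
    (@En.n l61 (nat_lit 4688) (nat_lit 7) (nat_lit 9))
    (@En.n l649 (nat_lit 7080) (nat_lit 5) (nat_lit 9))
    (@En.n l16563 (nat_lit 4686) (nat_lit 13) (nat_lit 3))
    (@En.n l152 (nat_lit 4798) (nat_lit 7) (nat_lit 3))
    (@En.n l17070 (nat_lit 4675) (nat_lit 0) (nat_lit 4))
    (@En.n l619 (nat_lit 4798) (nat_lit 10) (nat_lit 13))
    (@En.i (nat_lit 4743) (nat_lit 11) (nat_lit 13))
    (@En.n l1769 (nat_lit 3987) (nat_lit 12) (nat_lit 7))
    (@En.n l10971 (nat_lit 7274) (nat_lit 13) (nat_lit 12))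
    (@En.n l19786 (nat_lit 4801) (nat_lit 14) (nat_lit 7))
    (@En.n l19787 (nat_lit 4264) (nat_lit 6) (nat_lit 7))
    (@En.n l50 (nat_lit 4681) (nat_lit 15) (nat_lit 2))))
  (@Cl.mk (nat_lit 0x2000b000300070007000c0005000d000d00040003000300090009000e000d) (nat_lit 0x3000703400046a2) (nat_lit 16) Lb.e (@T16.mk En
    (@En.n l1578 (nat_lit 4679) (nat_lit 2) (nat_lit 13))
    (@En.n l2038 (nat_lit 833) (nat_lit 1) (nat_lit 14))
    (@En.n l3062 (nat_lit 4787) (nat_lit 2) (nat_lit 9))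
    (@En.n l5801 (nat_lit 7075) (nat_lit 3) (nat_lit 9))
    (@En.n l3519 (nat_lit 4736) (nat_lit 13) (nat_lit 3))
    (@En.n l18 (nat_lit 4793) (nat_lit 0) (nat_lit 3))
    (@En.n l17134 (nat_lit 4673) (nat_lit 0) (nat_lit 4))
    (@En.n l61 (nat_lit 4793) (nat_lit 3) (nat_lit 13))
    (@En.i (nat_lit 4738) (nat_lit 9) (nat_lit 13))
    (@En.i (nat_lit 4882) (nat_lit 9) (nat_lit 5))
    (@En.n l3517 (nat_lit 7266) (nat_lit 11) (nat_lit 12))
    (@En.n l152 (nat_lit 4600) (nat_lit 12) (nat_lit 7))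
    (@En.i (nat_lit 3768) (nat_lit 13) (nat_lit 7))
    (@En.i (nat_lit 4679) (nat_lit 14) (nat_lit 3))
    (@En.i (nat_lit 5929) (nat_lit 0) (nat_lit 11))
    (@En.n l11 (nat_lit 4682) (nat_lit 15) (nat_lit 2))))
  (@Cl.mk (nat_lit 0x200090009000d000d000a0003000300070007000d0006000d0003000e0003) (nat_lit 0x66ab20000a03030) (nat_lit 16) Lb.e (@T16.mk En
    (@En.i (nat_lit 4679) (nat_lit 6) (nat_lit 3))
    (@En.i (nat_lit 13046) (nat_lit 0) (nat_lit 14))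
    (@En.i (nat_lit 4795) (nat_lit 2) (nat_lit 3))
    (@En.n l11108 (nat_lit 4742) (nat_lit 0) (nat_lit 13))
    (@En.n l2678 (nat_lit 3998) (nat_lit 4) (nat_lit 6))
    (@En.n l476 (nat_lit 4808) (nat_lit 6) (nat_lit 13))
    (@En.n l152 (nat_lit 4601) (nat_lit 9) (nat_lit 7))
    (@En.n l810 (nat_lit 4337) (nat_lit 7) (nat_lit 7))
    (@En.n l28 (nat_lit 4793) (nat_lit 8) (nat_lit 3))
    (@En.n l8158 (nat_lit 4798) (nat_lit 0) (nat_lit 3))
    (@En.i (nat_lit 4846) (nat_lit 11) (nat_lit 10))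
    (@En.n l9905 (nat_lit 4798) (nat_lit 3) (nat_lit 13))
    (@En.n l2038 (nat_lit 4368) (nat_lit 13) (nat_lit 13))
    (@En.n l5014 (nat_lit 4791) (nat_lit 14) (nat_lit 9))
    (@En.i (nat_lit 5534) (nat_lit 4) (nat_lit 9))
    (@En.n l17 (nat_lit 4683) (nat_lit 15) (nat_lit 2))))
  (@Cl.mk (nat_lit 0x2000c0007000d000d0004000300030009000d000d000900030003000e0007) (nat_lit 0x50ab00061220010) (nat_lit 16) Lb.e (@T16.mk En
    (@En.n l21159 (nat_lit 4679) (nat_lit 13) (nat_lit 7))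
    (@En.i (nat_lit 1161) (nat_lit 1) (nat_lit 14))
    (@En.n l24993 (nat_lit 4787) (nat_lit 13) (nat_lit 3))
    (@En.n l7 (nat_lit 4688) (nat_lit 3) (nat_lit 3))
    (@En.i (nat_lit 4851) (nat_lit 0) (nat_lit 9))
    (@En.n l644 (nat_lit 4688) (nat_lit 6) (nat_lit 13))
    (@En.i (nat_lit 3784) (nat_lit 7) (nat_lit 13))
    (@En.n l3528 (nat_lit 3927) (nat_lit 3) (nat_lit 9))
    (@En.n l1483 (nat_lit 4687) (nat_lit 13) (nat_lit 3))
    (@En.n l152 (nat_lit 4791) (nat_lit 0) (nat_lit 3))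
    (@En.n l24994 (nat_lit 4678) (nat_lit 0) (nat_lit 4))
    (@En.n l619 (nat_lit 4791) (nat_lit 3) (nat_lit 13))
    (@En.i (nat_lit 4698) (nat_lit 13) (nat_lit 13))
    (@En.n l1769 (nat_lit 3996) (nat_lit 14) (nat_lit 7))
    (@En.i (nat_lit 7201) (nat_lit 11) (nat_lit 12))
    (@En.n l17 (nat_lit 4684) (nat_lit 15) (nat_lit 2))))
  (@Cl.mk (nat_lit 0x3000300070007000d000d000c00030003000a000400090009000d000d0006) (nat_lit 0x126003012970) (nat_lit 16) Lb.e (@T16.mk En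
    (@En.i (nat_lit 4139) (nat_lit 0) (nat_lit 6))
    (@En.n l644 (nat_lit 4743) (nat_lit 3) (nat_lit 13))
    (@En.i (nat_lit 4403) (nat_lit 10) (nat_lit 13))
    (@En.n l61 (nat_lit 4698) (nat_lit 7) (nat_lit 9))
    (@En.n l3528 (nat_lit 667) (nat_lit 4) (nat_lit 9))
    (@En.i (nat_lit 4677) (nat_lit 5) (nat_lit 4))
    (@En.i (nat_lit 4520) (nat_lit 0) (nat_lit 10))
    (@En.n l152 (nat_lit 4742) (nat_lit 13) (nat_lit 3))
    (@En.n l9956 (nat_lit 4676) (nat_lit 0) (nat_lit 3))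
    (@En.n l619 (nat_lit 4741) (nat_lit 0) (nat_lit 12))
    (@En.n l1140 (nat_lit 4676) (nat_lit 3) (nat_lit 13))
    (@En.n l17334 (nat_lit 2943) (nat_lit 12) (nat_lit 13))
    (@En.n l35457 (nat_lit 4718) (nat_lit 9) (nat_lit 7))
    (@En.n l6204 (nat_lit 4276) (nat_lit 4) (nat_lit 7))
    (@En.n l11227 (nat_lit 4738) (nat_lit 13) (nat_lit 3))
    (@En.n l7 (nat_lit 4743) (nat_lit 0) (nat_lit 3))))
  (@Cl.mk (nat_lit 0x20005000300090009000d0009000e0003000200070007000b0007000e000d) (nat_lit 0x47169000070a4) (nat_lit 16) Lb.e (@T16.mk En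
    (@En.n l11428 (nat_lit 4681) (nat_lit 10) (nat_lit 13))
    (@En.n l11434 (nat_lit 4758) (nat_lit 11) (nat_lit 14))
    (@En.i (nat_lit 3988) (nat_lit 12) (nat_lit 7))
    (@En.n l3902 (nat_lit 4009) (nat_lit 3) (nat_lit 11))
    (@En.n l7741 (nat_lit 4812) (nat_lit 4) (nat_lit 7))
    (@En.n l17572 (nat_lit 1015) (nat_lit 5) (nat_lit 7))
    (@En.n l11 (nat_lit 4686) (nat_lit 6) (nat_lit 2))
    (@En.n l17573 (nat_lit 4680) (nat_lit 7) (nat_lit 3))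
    (@En.n l2038 (nat_lit 13153) (nat_lit 0) (nat_lit 14))
    (@En.n l17574 (nat_lit 4815) (nat_lit 10) (nat_lit 9))
    (@En.n l2125 (nat_lit 2331) (nat_lit 11) (nat_lit 13))
    (@En.n l6677 (nat_lit 4689) (nat_lit 12) (nat_lit 9))
    (@En.n l12585 (nat_lit 3537) (nat_lit 13) (nat_lit 9))
    (@En.n l11434 (nat_lit 4681) (nat_lit 6) (nat_lit 3))
    (@En.n l9641 (nat_lit 3374) (nat_lit 7) (nat_lit 5))
    (@En.n l50 (nat_lit 4686) (nat_lit 15) (nat_lit 2))))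
  (@Cl.mk (nat_lit 0x2000500030009000d000d000900030003000e00070002000b0007000e000d) (nat_lit 0x61b200100803b) (nat_lit 16) Lb.e (@T16.mk En
    (@En.n l3013 (nat_lit 4684) (nat_lit 12) (nat_lit 13))
    (@En.n l936 (nat_lit 4694) (nat_lit 1) (nat_lit 14))
    (@En.n l16501 (nat_lit 3994) (nat_lit 14) (nat_lit 7))
    (@En.n l16502 (nat_lit 4007) (nat_lit 3) (nat_lit 11))
    (@En.n l17 (nat_lit 4687) (nat_lit 4) (nat_lit 2))
    (@En.n l16502 (nat_lit 4680) (nat_lit 5) (nat_lit 7))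
    (@En.n l3016 (nat_lit 1017) (nat_lit 7) (nat_lit 14))
    (@En.n l14354 (nat_lit 4788) (nat_lit 7) (nat_lit 3))
    (@En.n l16503 (nat_lit 4689) (nat_lit 8) (nat_lit 3))
    (@En.n l16504 (nat_lit 4853) (nat_lit 10) (nat_lit 9))
    (@En.n l16505 (nat_lit 4689) (nat_lit 11) (nat_lit 13))
    (@En.i (nat_lit 3716) (nat_lit 12) (nat_lit 13))
    (@En.n l645 (nat_lit 7445) (nat_lit 13) (nat_lit 9))
    (@En.n l936 (nat_lit 4684) (nat_lit 8) (nat_lit 3))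
    (@En.n l16506 (nat_lit 3381) (nat_lit 0) (nat_lit 5))
    (@En.n l67 (nat_lit 4687) (nat_lit 15) (nat_lit 2))))
noncomputable def a293 : T16 Cl := @T16.mk Cl
  (@Cl.mk (nat_lit 0x2000c0008000d000d0004000300030009000d0008000e00030002000e0007) (nat_lit 0x45ab000616c0010) (nat_lit 16) Lb.e (@T16.mk En
    (@En.i (nat_lit 4681) (nat_lit 14) (nat_lit 7))
    (@En.i (nat_lit 215) (nat_lit 1) (nat_lit 14))
    (@En.n l50 (nat_lit 4688) (nat_lit 2) (nat_lit 2))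
    (@En.i (nat_lit 4684) (nat_lit 3) (nat_lit 3))
    (@En.i (nat_lit 13258) (nat_lit 0) (nat_lit 14))
    (@En.i (nat_lit 5810) (nat_lit 5) (nat_lit 8))
    (@En.i (nat_lit 3718) (nat_lit 7) (nat_lit 13))
    (@En.n l649 (nat_lit 7025) (nat_lit 4) (nat_lit 9))
    (@En.i (nat_lit 4689) (nat_lit 13) (nat_lit 3))
    (@En.n l152 (nat_lit 4797) (nat_lit 0) (nat_lit 3))
    (@En.n l1865 (nat_lit 4691) (nat_lit 0) (nat_lit 4))
    (@En.n l619 (nat_lit 4797) (nat_lit 3) (nat_lit 13))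
    (@En.i (nat_lit 4695) (nat_lit 13) (nat_lit 13))
    (@En.n l1769 (nat_lit 3992) (nat_lit 14) (nat_lit 8))
    (@En.i (nat_lit 7205) (nat_lit 12) (nat_lit 12))
    (@En.n l17 (nat_lit 4688) (nat_lit 15) (nat_lit 2))))
  (@Cl.mk (nat_lit 0x2000500030009000d0008000e00030002000e00070002000b0008000e000d) (nat_lit 0x6a6b0020085ab) (nat_lit 16) Lb.e (@T16.mk En
    (@En.n l1144 (nat_lit 4688) (nat_lit 12) (nat_lit 13))
    (@En.n l11 (nat_lit 4690) (nat_lit 1) (nat_lit 14))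
    (@En.n l2261 (nat_lit 3993) (nat_lit 14) (nat_lit 8))
    (@En.i (nat_lit 4010) (nat_lit 3) (nat_lit 11))
    (@En.n l17 (nat_lit 4689) (nat_lit 4) (nat_lit 2))
    (@En.n l16563 (nat_lit 4686) (nat_lit 5) (nat_lit 7))
    (@En.n l1483 (nat_lit 1012) (nat_lit 7) (nat_lit 14))
    (@En.n l50 (nat_lit 4689) (nat_lit 7) (nat_lit 2))
    (@En.n l1483 (nat_lit 4687) (nat_lit 8) (nat_lit 3))
    (@En.i (nat_lit 13257) (nat_lit 0) (nat_lit 14))
    (@En.n l2261 (nat_lit 5811) (nat_lit 11) (nat_lit 8))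
    (@En.i (nat_lit 3715) (nat_lit 12) (nat_lit 13))
    (@En.n l2262 (nat_lit 7446) (nat_lit 13) (nat_lit 9))
    (@En.n l11 (nat_lit 4688) (nat_lit 8) (nat_lit 3))
    (@En.n l1489 (nat_lit 3391) (nat_lit 0) (nat_lit 5))
    (@En.n l1157 (nat_lit 4689) (nat_lit 15) (nat_lit 2))))
  (@Cl.mk (nat_lit 0x2000b000500040009000d0005000e00030002000e00070002000b000e000c) (nat_lit 0x1003a0c00100898) (nat_lit 16) Lb.e (@T16.mk En
    (@En.n l68 (nat_lit 4693) (nat_lit 13) (nat_lit 12))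
    (@En.n l645 (nat_lit 3397) (nat_lit 4) (nat_lit 14))
    (@En.i (nat_lit 7389) (nat_lit 12) (nat_lit 11))
    (@En.n l17 (nat_lit 4690) (nat_lit 3) (nat_lit 2))
    (@En.i (nat_lit 4758) (nat_lit 14) (nat_lit 7))
    (@En.i (nat_lit 1026) (nat_lit 1) (nat_lit 14))
    (@En.n l50 (nat_lit 4690) (nat_lit 6) (nat_lit 2))
    (@En.i (nat_lit 4694) (nat_lit 7) (nat_lit 3))
    (@En.i (nat_lit 13255) (nat_lit 0) (nat_lit 14))
    (@En.i (nat_lit 5834) (nat_lit 5) (nat_lit 5))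
    (@En.i (nat_lit 3833) (nat_lit 7) (nat_lit 13))
    (@En.n l645 (nat_lit 7448) (nat_lit 12) (nat_lit 9))
    (@En.i (nat_lit 4695) (nat_lit 8) (nat_lit 4))
    (@En.n l3015 (nat_lit 4689) (nat_lit 14) (nat_lit 5))
    (@En.n l8015 (nat_lit 3414) (nat_lit 11) (nat_lit 11))
    (@En.n l67 (nat_lit 4690) (nat_lit 15) (nat_lit 2))))
  (@Cl.mk (nat_lit 0x200050009000d0007000e00030002000e00070002000c000b0009000e0004) (nat_lit 0x580b0020069060) (nat_lit 16) Lb.e (@T16.mk En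
    (@En.n l2116 (nat_lit 4693) (nat_lit 10) (nat_lit 4))
    (@En.i (nat_lit 4697) (nat_lit 1) (nat_lit 14))
    (@En.n l253 (nat_lit 5329) (nat_lit 2) (nat_lit 9))
    (@En.n l23585 (nat_lit 4689) (nat_lit 3) (nat_lit 11))
    (@En.i (nat_lit 7283) (nat_lit 12) (nat_lit 12))
    (@En.n l7 (nat_lit 4691) (nat_lit 5) (nat_lit 2))
    (@En.n l11828 (nat_lit 4675) (nat_lit 6) (nat_lit 7))
    (@En.i (nat_lit 1075) (nat_lit 8) (nat_lit 14))
    (@En.n l11 (nat_lit 4691) (nat_lit 8) (nat_lit 2))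
    (@En.n l29114 (nat_lit 4678) (nat_lit 9) (nat_lit 3))
    (@En.n l781 (nat_lit 13261) (nat_lit 0) (nat_lit 14))
    (@En.i (nat_lit 5199) (nat_lit 12) (nat_lit 7))
    (@En.n l2117 (nat_lit 4070) (nat_lit 13) (nat_lit 13))
    (@En.i (nat_lit 7027) (nat_lit 14) (nat_lit 9))
    (@En.n l2125 (nat_lit 3382) (nat_lit 13) (nat_lit 5))
    (@En.n l17 (nat_lit 4691) (nat_lit 15) (nat_lit 2))))
  (@Cl.mk (nat_lit 0x2000c000c000c00090004000400040009000d000d000700030003000e0007) (nat_lit 0x897300045400010) (nat_lit 16) Lb.e (@T16.mk En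
    (@En.i (nat_lit 4677) (nat_lit 13) (nat_lit 7))
    (@En.i (nat_lit 294) (nat_lit 1) (nat_lit 14))
    (@En.i (nat_lit 4786) (nat_lit 13) (nat_lit 3))
    (@En.n l7 (nat_lit 4693) (nat_lit 3) (nat_lit 3))
    (@En.i (nat_lit 5722) (nat_lit 0) (nat_lit 7))
    (@En.n l644 (nat_lit 4693) (nat_lit 6) (nat_lit 13))
    (@En.i (nat_lit 3821) (nat_lit 7) (nat_lit 13))
    (@En.n l11365 (nat_lit 7035) (nat_lit 3) (nat_lit 9))
    (@En.n l11 (nat_lit 4694) (nat_lit 12) (nat_lit 4))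
    (@En.n l152 (nat_lit 4748) (nat_lit 12) (nat_lit 4))
    (@En.n l936 (nat_lit 4684) (nat_lit 10) (nat_lit 4))
    (@En.i (nat_lit 5325) (nat_lit 12) (nat_lit 9))
    (@En.n l619 (nat_lit 4792) (nat_lit 4) (nat_lit 12))
    (@En.n l1140 (nat_lit 4678) (nat_lit 4) (nat_lit 12))
    (@En.i (nat_lit 7203) (nat_lit 11) (nat_lit 12))
    (@En.n l17 (nat_lit 4692) (nat_lit 15) (nat_lit 2))))
  (@Cl.mk (nat_lit 0x2000c000c000c000a0004000400040009000d0006000e00030002000e0007) (nat_lit 0x8760000430c0020) (nat_lit 16) Lb.e (@T16.mk En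
    (@En.i (nat_lit 4757) (nat_lit 14) (nat_lit 7))
    (@En.i (nat_lit 292) (nat_lit 1) (nat_lit 14))
    (@En.n l50 (nat_lit 4693) (nat_lit 2) (nat_lit 2))
    (@En.i (nat_lit 4692) (nat_lit 3) (nat_lit 3))
    (@En.i (nat_lit 13260) (nat_lit 0) (nat_lit 14))
    (@En.i (nat_lit 5202) (nat_lit 5) (nat_lit 6))
    (@En.i (nat_lit 3820) (nat_lit 7) (nat_lit 13))
    (@En.n l287 (nat_lit 7033) (nat_lit 4) (nat_lit 9))
    (@En.n l11 (nat_lit 4690) (nat_lit 12) (nat_lit 4))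
    (@En.n l152 (nat_lit 4749) (nat_lit 12) (nat_lit 4))
    (@En.n l936 (nat_lit 4688) (nat_lit 10) (nat_lit 4))
    (@En.n l55 (nat_lit 5328) (nat_lit 12) (nat_lit 10))
    (@En.n l619 (nat_lit 4796) (nat_lit 4) (nat_lit 12))
    (@En.n l5579 (nat_lit 4691) (nat_lit 4) (nat_lit 12))
    (@En.i (nat_lit 7391) (nat_lit 12) (nat_lit 12))
    (@En.n l17 (nat_lit 4693) (nat_lit 15) (nat_lit 2))))
  (@Cl.mk (nat_lit 0x2000a000500040009000d000d000600030003000e00070002000b000e000c) (nat_lit 0x18b00010082a) (nat_lit 16) Lb.e (@T16.mk En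
    (@En.n l68 (nat_lit 4692) (nat_lit 13) (nat_lit 12))
    (@En.n l4003 (nat_lit 3442) (nat_lit 4) (nat_lit 14))
    (@En.i (nat_lit 4012) (nat_lit 2) (nat_lit 11))
    (@En.n l17 (nat_lit 4694) (nat_lit 3) (nat_lit 2))
    (@En.n l9883 (nat_lit 4734) (nat_lit 4) (nat_lit 7))
    (@En.i (nat_lit 1028) (nat_lit 1) (nat_lit 14))
    (@En.n l14354 (nat_lit 4699) (nat_lit 13) (nat_lit 3))
    (@En.n l7 (nat_lit 4690) (nat_lit 7) (nat_lit 3))
    (@En.i (nat_lit 5725) (nat_lit 0) (nat_lit 6))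
    (@En.n l644 (nat_lit 4690) (nat_lit 10) (nat_lit 13))
    (@En.i (nat_lit 3834) (nat_lit 11) (nat_lit 13))
    (@En.n l645 (nat_lit 3532) (nat_lit 12) (nat_lit 9))
    (@En.i (nat_lit 4698) (nat_lit 8) (nat_lit 4))
    (@En.i (nat_lit 4687) (nat_lit 14) (nat_lit 5))
    (@En.n l575 (nat_lit 4702) (nat_lit 11) (nat_lit 10))
    (@En.n l67 (nat_lit 4694) (nat_lit 15) (nat_lit 2))))
  (@Cl.mk (nat_lit 0x2000d000d000c00030003000c00040009000d0004000e00030002000e0007) (nat_lit 0x89a0070250b0020) (nat_lit 16) Lb.e (@T16.mk En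
    (@En.i (nat_lit 4743) (nat_lit 14) (nat_lit 7))
    (@En.i (nat_lit 1063) (nat_lit 1) (nat_lit 14))
    (@En.n l50 (nat_lit 4695) (nat_lit 2) (nat_lit 2))
    (@En.i (nat_lit 4698) (nat_lit 3) (nat_lit 3))
    (@En.i (nat_lit 13262) (nat_lit 0) (nat_lit 14))
    (@En.i (nat_lit 5828) (nat_lit 5) (nat_lit 4))
    (@En.i (nat_lit 4050) (nat_lit 7) (nat_lit 13))
    (@En.n l649 (nat_lit 3780) (nat_lit 4) (nat_lit 9))
    (@En.i (nat_lit 4693) (nat_lit 8) (nat_lit 4))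
    (@En.i (nat_lit 3416) (nat_lit 10) (nat_lit 12))
    (@En.n l152 (nat_lit 4746) (nat_lit 13) (nat_lit 3))
    (@En.n l1865 (nat_lit 4697) (nat_lit 0) (nat_lit 3))
    (@En.n l619 (nat_lit 4749) (nat_lit 0) (nat_lit 12))
    (@En.n l1867 (nat_lit 4697) (nat_lit 3) (nat_lit 13))
    (@En.i (nat_lit 4339) (nat_lit 12) (nat_lit 13))
    (@En.n l17 (nat_lit 4695) (nat_lit 15) (nat_lit 2))))
  (@Cl.mk (nat_lit 0x2000b00050009000d000d000500030003000e00070002000d000b000e0003) (nat_lit 0x701890001008950) (nat_lit 16) Lb.e (@T16.mk En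
    (@En.n l3522 (nat_lit 4698) (nat_lit 11) (nat_lit 3))
    (@En.n l476 (nat_lit 13235) (nat_lit 0) (nat_lit 14))
    (@En.n l10970 (nat_lit 4694) (nat_lit 2) (nat_lit 11))
    (@En.i (nat_lit 4345) (nat_lit 11) (nat_lit 13))
    (@En.n l7 (nat_lit 4696) (nat_lit 4) (nat_lit 2))
    (@En.i (nat_lit 4676) (nat_lit 5) (nat_lit 7))
    (@En.i (nat_lit 1071) (nat_lit 1) (nat_lit 14))
    (@En.i (nat_lit 4784) (nat_lit 13) (nat_lit 3))
    (@En.n l152 (nat_lit 4697) (nat_lit 8) (nat_lit 3))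
    (@En.n l1992 (nat_lit 5824) (nat_lit 0) (nat_lit 5))
    (@En.n l619 (nat_lit 4697) (nat_lit 11) (nat_lit 13))
    (@En.n l10970 (nat_lit 4055) (nat_lit 12) (nat_lit 13))
    (@En.i (nat_lit 3718) (nat_lit 13) (nat_lit 9))
    (@En.i (nat_lit 4678) (nat_lit 14) (nat_lit 5))
    (@En.i (nat_lit 4700) (nat_lit 10) (nat_lit 11))
    (@En.n l17 (nat_lit 4696) (nat_lit 15) (nat_lit 2))))
  (@Cl.mk (nat_lit 0x2000c00050009000d0004000e00030002000e00070002000d000b000e0003) (nat_lit 0x10280b002008950) (nat_lit 16) Lb.e (@T16.mk En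
    (@En.n l2869 (nat_lit 4695) (nat_lit 11) (nat_lit 3))
    (@En.i (nat_lit 13242) (nat_lit 0) (nat_lit 14))
    (@En.n l2579 (nat_lit 4690) (nat_lit 2) (nat_lit 11))
    (@En.i (nat_lit 4344) (nat_lit 12) (nat_lit 13))
    (@En.n l7 (nat_lit 4697) (nat_lit 4) (nat_lit 2))
    (@En.n l1599 (nat_lit 4756) (nat_lit 14) (nat_lit 7))
    (@En.i (nat_lit 1061) (nat_lit 1) (nat_lit 14))
    (@En.n l11 (nat_lit 4697) (nat_lit 7) (nat_lit 2))
    (@En.n l117 (nat_lit 4696) (nat_lit 8) (nat_lit 3))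
    (@En.i (nat_lit 13263) (nat_lit 0) (nat_lit 14))
    (@En.n l2576 (nat_lit 5830) (nat_lit 10) (nat_lit 4))
    (@En.n l2579 (nat_lit 4052) (nat_lit 12) (nat_lit 13))
    (@En.i (nat_lit 3778) (nat_lit 4) (nat_lit 9))
    (@En.n l476 (nat_lit 4691) (nat_lit 14) (nat_lit 5))
    (@En.i (nat_lit 3417) (nat_lit 10) (nat_lit 12))
    (@En.n l17 (nat_lit 4697) (nat_lit 15) (nat_lit 2))))
  (@Cl.mk (nat_lit 0x2000d000d000c00030003000b00040009000d000d000500030003000e0007) (nat_lit 0x89a007018600010) (nat_lit 16) Lb.e (@T16.mk En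
    (@En.i (nat_lit 4685) (nat_lit 13) (nat_lit 7))
    (@En.i (nat_lit 1068) (nat_lit 1) (nat_lit 14))
    (@En.i (nat_lit 4752) (nat_lit 13) (nat_lit 3))
    (@En.n l7 (nat_lit 4695) (nat_lit 3) (nat_lit 3))
    (@En.i (nat_lit 5821) (nat_lit 0) (nat_lit 5))
    (@En.n l644 (nat_lit 4695) (nat_lit 6) (nat_lit 13))
    (@En.i (nat_lit 4053) (nat_lit 7) (nat_lit 13))
    (@En.n l3528 (nat_lit 3719) (nat_lit 12) (nat_lit 9))
    (@En.i (nat_lit 4692) (nat_lit 8) (nat_lit 4))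
    (@En.i (nat_lit 4701) (nat_lit 10) (nat_lit 11))
    (@En.n l152 (nat_lit 4747) (nat_lit 13) (nat_lit 3))
    (@En.n l9956 (nat_lit 4696) (nat_lit 0) (nat_lit 3))
    (@En.n l619 (nat_lit 4748) (nat_lit 0) (nat_lit 12))
    (@En.n l1140 (nat_lit 4696) (nat_lit 3) (nat_lit 13))
    (@En.i (nat_lit 4340) (nat_lit 11) (nat_lit 13))
    (@En.n l17 (nat_lit 4698) (nat_lit 15) (nat_lit 2))))
  (@Cl.mk (nat_lit 0x200070003000e00070002000b000e000c00020009000500040009000e000d) (nat_lit 0xa008670300289) (nat_lit 16) Lb.e (@T16.mk En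
    (@En.n l6671 (nat_lit 4694) (nat_lit 10) (nat_lit 13))
    (@En.n l6672 (nat_lit 4086) (nat_lit 11) (nat_lit 14))
    (@En.i (nat_lit 7209) (nat_lit 2) (nat_lit 9))
    (@En.n l1309 (nat_lit 4752) (nat_lit 3) (nat_lit 4))
    (@En.i (nat_lit 4788) (nat_lit 14) (nat_lit 5))
    (@En.n l2268 (nat_lit 4558) (nat_lit 5) (nat_lit 9))
    (@En.n l11 (nat_lit 4699) (nat_lit 6) (nat_lit 2))
    (@En.n l6673 (nat_lit 4786) (nat_lit 8) (nat_lit 12))
    (@En.n l719 (nat_lit 3444) (nat_lit 4) (nat_lit 14))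
    (@En.n l6674 (nat_lit 7388) (nat_lit 10) (nat_lit 11))
    (@En.n l3 (nat_lit 4699) (nat_lit 10) (nat_lit 2))
    (@En.n l6674 (nat_lit 4733) (nat_lit 12) (nat_lit 7))
    (@En.n l698 (nat_lit 3027) (nat_lit 1) (nat_lit 14))
    (@En.n l6672 (nat_lit 4694) (nat_lit 6) (nat_lit 3))
    (@En.n l699 (nat_lit 5009) (nat_lit 7) (nat_lit 7))
    (@En.n l50 (nat_lit 4699) (nat_lit 15) (nat_lit 2))))
  (@Cl.mk (nat_lit 0x2000d000c00080003000b00040008000c000c0005000800040004000e0008) (nat_lit 0xa81060612060043) (nat_lit 16) Lb.e (@T16.mk En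
    (@En.i (nat_lit 4521) (nat_lit 4) (nat_lit 8))
    (@En.n l9960 (nat_lit 5048) (nat_lit 1) (nat_lit 14))
    (@En.i (nat_lit 4559) (nat_lit 12) (nat_lit 4))
    (@En.n l899 (nat_lit 4709) (nat_lit 3) (nat_lit 4))
    (@En.n l9591 (nat_lit 4678) (nat_lit 10) (nat_lit 8))
    (@En.n l1992 (nat_lit 11424) (nat_lit 5) (nat_lit 5))
    (@En.n l619 (nat_lit 3417) (nat_lit 7) (nat_lit 12))
    (@En.n l10970 (nat_lit 3046) (nat_lit 8) (nat_lit 12))
    (@En.i (nat_lit 8154) (nat_lit 11) (nat_lit 8))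
    (@En.n l19334 (nat_lit 3380) (nat_lit 9) (nat_lit 4))
    (@En.n l13800 (nat_lit 3422) (nat_lit 11) (nat_lit 11))
    (@En.n l3522 (nat_lit 4701) (nat_lit 11) (nat_lit 3))
    (@En.n l639 (nat_lit 3187) (nat_lit 0) (nat_lit 8))
    (@En.n l23288 (nat_lit 4702) (nat_lit 14) (nat_lit 12))
    (@En.i (nat_lit 8118) (nat_lit 2) (nat_lit 13))
    (@En.n l7 (nat_lit 4700) (nat_lit 15) (nat_lit 2))))
  (@Cl.mk (nat_lit 0x2000d0007000d0003000b00030008000c000c0005000900040004000e0008) (nat_lit 0xa07060612030043) (nat_lit 16) Lb.e (@T16.mk En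
    (@En.i (nat_lit 4520) (nat_lit 6) (nat_lit 8))
    (@En.n l476 (nat_lit 5046) (nat_lit 1) (nat_lit 14))
    (@En.n l3527 (nat_lit 4704) (nat_lit 12) (nat_lit 4))
    (@En.n l7 (nat_lit 4708) (nat_lit 3) (nat_lit 4))
    (@En.i (nat_lit 4684) (nat_lit 4) (nat_lit 9))
    (@En.i (nat_lit 11423) (nat_lit 5) (nat_lit 5))
    (@En.n l644 (nat_lit 3416) (nat_lit 7) (nat_lit 12))
    (@En.i (nat_lit 3045) (nat_lit 8) (nat_lit 12))
    (@En.n l3528 (nat_lit 8701) (nat_lit 13) (nat_lit 8))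
    (@En.i (nat_lit 4702) (nat_lit 9) (nat_lit 3))
    (@En.i (nat_lit 12528) (nat_lit 11) (nat_lit 11))
    (@En.n l9956 (nat_lit 4700) (nat_lit 11) (nat_lit 3))
    (@En.n l619 (nat_lit 5327) (nat_lit 0) (nat_lit 13))
    (@En.i (nat_lit 3422) (nat_lit 14) (nat_lit 7))
    (@En.i (nat_lit 8119) (nat_lit 2) (nat_lit 13))
    (@En.n l17 (nat_lit 4701) (nat_lit 15) (nat_lit 2))))
  (@Cl.mk (nat_lit 0x2000c0007000d000a000400030008000c000c0006000900040004000e0008) (nat_lit 0x707800612030045) (nat_lit 16) Lb.e (@T16.mk En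
    (@En.n l11022 (nat_lit 4522) (nat_lit 6) (nat_lit 8))
    (@En.n l476 (nat_lit 5091) (nat_lit 1) (nat_lit 14))
    (@En.n l3527 (nat_lit 4558) (nat_lit 12) (nat_lit 4))
    (@En.n l24951 (nat_lit 4710) (nat_lit 3) (nat_lit 4))
    (@En.n l1483 (nat_lit 4687) (nat_lit 9) (nat_lit 9))
    (@En.n l4147 (nat_lit 10905) (nat_lit 5) (nat_lit 6))
    (@En.n l24939 (nat_lit 3414) (nat_lit 7) (nat_lit 12))
    (@En.i (nat_lit 3040) (nat_lit 8) (nat_lit 12))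
    (@En.n l9938 (nat_lit 10006) (nat_lit 9) (nat_lit 8))
    (@En.n l11 (nat_lit 4701) (nat_lit 9) (nat_lit 3))
    (@En.n l28360 (nat_lit 3389) (nat_lit 0) (nat_lit 4))
    (@En.i (nat_lit 4703) (nat_lit 12) (nat_lit 10))
    (@En.n l1144 (nat_lit 5325) (nat_lit 13) (nat_lit 13))
    (@En.n l9938 (nat_lit 3424) (nat_lit 14) (nat_lit 7))
    (@En.n l11022 (nat_lit 7394) (nat_lit 11) (nat_lit 12))
    (@En.n l17 (nat_lit 4702) (nat_lit 15) (nat_lit 2))))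
  (@Cl.mk (nat_lit 0x2000d0007000a0003000b0007000b000b00060005000900050005000e0009) (nat_lit 0x907070180040056) (nat_lit 16) Lb.e (@T16.mk En
    (@En.i (nat_lit 4524) (nat_lit 4) (nat_lit 9))
    (@En.n l4989 (nat_lit 5085) (nat_lit 1) (nat_lit 14))
    (@En.n l3527 (nat_lit 4550) (nat_lit 11) (nat_lit 5))
    (@En.n l7 (nat_lit 10912) (nat_lit 3) (nat_lit 5))
    (@En.n l1157 (nat_lit 4702) (nat_lit 4) (nat_lit 9))
    (@En.i (nat_lit 4701) (nat_lit 5) (nat_lit 5))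
    (@En.n l1593 (nat_lit 10903) (nat_lit 6) (nat_lit 6))
    (@En.n l4380 (nat_lit 3415) (nat_lit 8) (nat_lit 11))
    (@En.i (nat_lit 3047) (nat_lit 9) (nat_lit 11))
    (@En.n l9938 (nat_lit 10007) (nat_lit 14) (nat_lit 7))
    (@En.n l11 (nat_lit 4530) (nat_lit 11) (nat_lit 11))
    (@En.n l21562 (nat_lit 3425) (nat_lit 11) (nat_lit 3))
    (@En.n l23218 (nat_lit 4894) (nat_lit 8) (nat_lit 10))
    (@En.n l9928 (nat_lit 4535) (nat_lit 14) (nat_lit 7))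
    (@En.i (nat_lit 9414) (nat_lit 2) (nat_lit 13))
    (@En.n l17 (nat_lit 4703) (nat_lit 15) (nat_lit 2))))
noncomputable def a294 : T16 Cl := @T16.mk Cl
  (@Cl.mk (nat_lit 0x20006000a0004000e00080002000d0006000d0003000a00030008000e000c) (nat_lit 0x70340606020672) (nat_lit 16) Lb.e (@T16.mk En
    (@En.n l1119 (nat_lit 4701) (nat_lit 7) (nat_lit 12))
    (@En.n l1116 (nat_lit 4562) (nat_lit 1) (nat_lit 14))
    (@En.i (nat_lit 8709) (nat_lit 2) (nat_lit 8))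
    (@En.i (nat_lit 4558) (nat_lit 3) (nat_lit 3))
    (@En.i (nat_lit 12527) (nat_lit 11) (nat_lit 10))
    (@En.n l10370 (nat_lit 4559) (nat_lit 5) (nat_lit 3))
    (@En.i (nat_lit 5324) (nat_lit 7) (nat_lit 13))
    (@En.i (nat_lit 4557) (nat_lit 7) (nat_lit 6))
    (@En.n l3130 (nat_lit 8126) (nat_lit 9) (nat_lit 13))
    (@En.n l28 (nat_lit 4704) (nat_lit 9) (nat_lit 2))
    (@En.n l982 (nat_lit 4531) (nat_lit 11) (nat_lit 8))
    (@En.n l1395 (nat_lit 4218) (nat_lit 12) (nat_lit 14))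
    (@En.n l1116 (nat_lit 4705) (nat_lit 2) (nat_lit 4))
    (@En.n l2399 (nat_lit 4787) (nat_lit 14) (nat_lit 10))
    (@En.i (nat_lit 11461) (nat_lit 4) (nat_lit 6))
    (@En.n l3 (nat_lit 4704) (nat_lit 15) (nat_lit 2))))
  (@Cl.mk (nat_lit 0x2000d0008000d0003000900030008000d000c0008000300070004000e0008) (nat_lit 0x20000b5000033) (nat_lit 16) Lb.e (@T16.mk En
    (@En.n l23433 (nat_lit 10454) (nat_lit 4) (nat_lit 8))
    (@En.n l3609 (nat_lit 11238) (nat_lit 1) (nat_lit 14))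
    (@En.i (nat_lit 4701) (nat_lit 2) (nat_lit 4))
    (@En.n l23434 (nat_lit 11462) (nat_lit 3) (nat_lit 7))
    (@En.n l7 (nat_lit 4711) (nat_lit 4) (nat_lit 3))
    (@En.n l23435 (nat_lit 9864) (nat_lit 0) (nat_lit 8))
    (@En.n l644 (nat_lit 4708) (nat_lit 7) (nat_lit 12))
    (@En.i (nat_lit 7773) (nat_lit 8) (nat_lit 13))
    (@En.n l3528 (nat_lit 9086) (nat_lit 3) (nat_lit 8))
    (@En.n l23436 (nat_lit 4706) (nat_lit 9) (nat_lit 3))
    (@En.i (nat_lit 11334) (nat_lit 11) (nat_lit 9))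
    (@En.n l9956 (nat_lit 4707) (nat_lit 11) (nat_lit 3))
    (@En.n l23437 (nat_lit 4515) (nat_lit 0) (nat_lit 13))
    (@En.n l20303 (nat_lit 10351) (nat_lit 14) (nat_lit 8))
    (@En.n l23438 (nat_lit 6221) (nat_lit 2) (nat_lit 13))
    (@En.n l17 (nat_lit 4705) (nat_lit 15) (nat_lit 2))))
  (@Cl.mk (nat_lit 0x2000c0008000d0008000400030008000d000c0008000300080004000e0008) (nat_lit 0x1000680000033) (nat_lit 16) Lb.e (@T16.mk En
    (@En.n l31466 (nat_lit 4525) (nat_lit 6) (nat_lit 8))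
    (@En.n l31467 (nat_lit 11235) (nat_lit 1) (nat_lit 14))
    (@En.n l1119 (nat_lit 4702) (nat_lit 2) (nat_lit 4))
    (@En.i (nat_lit 11397) (nat_lit 3) (nat_lit 8))
    (@En.n l31468 (nat_lit 4712) (nat_lit 4) (nat_lit 3))
    (@En.n l31467 (nat_lit 9860) (nat_lit 0) (nat_lit 8))
    (@En.n l31469 (nat_lit 4710) (nat_lit 7) (nat_lit 12))
    (@En.n l6657 (nat_lit 7774) (nat_lit 8) (nat_lit 13))
    (@En.n l31470 (nat_lit 10452) (nat_lit 3) (nat_lit 8))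
    (@En.n l31471 (nat_lit 4705) (nat_lit 9) (nat_lit 3))
    (@En.n l30563 (nat_lit 3400) (nat_lit 0) (nat_lit 4))
    (@En.n l7492 (nat_lit 11587) (nat_lit 12) (nat_lit 8))
    (@En.n l6657 (nat_lit 4513) (nat_lit 13) (nat_lit 13))
    (@En.n l16387 (nat_lit 10345) (nat_lit 14) (nat_lit 8))
    (@En.n l31472 (nat_lit 10485) (nat_lit 10) (nat_lit 12))
    (@En.n l28 (nat_lit 4706) (nat_lit 15) (nat_lit 2))))
  (@Cl.mk (nat_lit 0x2000d000c00090003000900040008000d000c0007000300070004000e0008) (nat_lit 0x10000680000031) (nat_lit 16) Lb.e (@T16.mk En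
    (@En.i (nat_lit 61) (nat_lit 4) (nat_lit 8))
    (@En.n l24083 (nat_lit 11234) (nat_lit 1) (nat_lit 14))
    (@En.i (nat_lit 4700) (nat_lit 2) (nat_lit 4))
    (@En.n l24084 (nat_lit 11465) (nat_lit 3) (nat_lit 7))
    (@En.n l4814 (nat_lit 4713) (nat_lit 4) (nat_lit 3))
    (@En.n l24083 (nat_lit 10092) (nat_lit 0) (nat_lit 7))
    (@En.n l24085 (nat_lit 4709) (nat_lit 7) (nat_lit 12))
    (@En.n l18362 (nat_lit 7771) (nat_lit 8) (nat_lit 13))
    (@En.i (nat_lit 9088) (nat_lit 3) (nat_lit 8))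
    (@En.n l24086 (nat_lit 4590) (nat_lit 9) (nat_lit 4))
    (@En.n l24087 (nat_lit 11487) (nat_lit 11) (nat_lit 9))
    (@En.n l3522 (nat_lit 4705) (nat_lit 11) (nat_lit 3))
    (@En.n l24087 (nat_lit 6457) (nat_lit 0) (nat_lit 9))
    (@En.n l24088 (nat_lit 4706) (nat_lit 14) (nat_lit 12))
    (@En.n l24087 (nat_lit 10382) (nat_lit 2) (nat_lit 13))
    (@En.n l7 (nat_lit 4707) (nat_lit 15) (nat_lit 2))))
  (@Cl.mk (nat_lit 0x2000d0009000d0003000a00030008000c0007000d000600040003000e0008) (nat_lit 0x40100026) (nat_lit 16) Lb.e (@T16.mk En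
    (@En.i (nat_lit 10455) (nat_lit 6) (nat_lit 8))
    (@En.n l8012 (nat_lit 6800) (nat_lit 1) (nat_lit 14))
    (@En.n l50 (nat_lit 4711) (nat_lit 2) (nat_lit 3))
    (@En.i (nat_lit 3416) (nat_lit 3) (nat_lit 4))
    (@En.i (nat_lit 11421) (nat_lit 4) (nat_lit 6))
    (@En.n l8012 (nat_lit 2958) (nat_lit 6) (nat_lit 13))
    (@En.n l11010 (nat_lit 11386) (nat_lit 6) (nat_lit 7))
    (@En.i (nat_lit 7416) (nat_lit 8) (nat_lit 12))
    (@En.n l18989 (nat_lit 8699) (nat_lit 13) (nat_lit 8))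
    (@En.n l10969 (nat_lit 4710) (nat_lit 9) (nat_lit 3))
    (@En.i (nat_lit 12526) (nat_lit 11) (nat_lit 10))
    (@En.n l8013 (nat_lit 4709) (nat_lit 11) (nat_lit 3))
    (@En.n l2038 (nat_lit 5331) (nat_lit 0) (nat_lit 13))
    (@En.n l11008 (nat_lit 11591) (nat_lit 14) (nat_lit 9))
    (@En.i (nat_lit 10427) (nat_lit 2) (nat_lit 13))
    (@En.n l17 (nat_lit 4708) (nat_lit 15) (nat_lit 2))))
  (@Cl.mk (nat_lit 0x2000d000c000a0003000a00040008000c0006000d000600040003000e0008) (nat_lit 0x2a0000021) (nat_lit 16) Lb.e (@T16.mk En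
    (@En.i (nat_lit 4525) (nat_lit 14) (nat_lit 8))
    (@En.n l4817 (nat_lit 6801) (nat_lit 1) (nat_lit 14))
    (@En.n l4037 (nat_lit 4713) (nat_lit 2) (nat_lit 3))
    (@En.n l2643 (nat_lit 3417) (nat_lit 3) (nat_lit 4))
    (@En.n l14256 (nat_lit 11422) (nat_lit 4) (nat_lit 6))
    (@En.n l4817 (nat_lit 5581) (nat_lit 6) (nat_lit 13))
    (@En.n l1003 (nat_lit 10348) (nat_lit 6) (nat_lit 6))
    (@En.n l4817 (nat_lit 7341) (nat_lit 8) (nat_lit 12))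
    (@En.n l1003 (nat_lit 8700) (nat_lit 11) (nat_lit 8))
    (@En.n l18156 (nat_lit 4592) (nat_lit 9) (nat_lit 4))
    (@En.n l617 (nat_lit 11490) (nat_lit 11) (nat_lit 10))
    (@En.n l17017 (nat_lit 4708) (nat_lit 11) (nat_lit 3))
    (@En.n l18153 (nat_lit 6459) (nat_lit 0) (nat_lit 10))
    (@En.n l8766 (nat_lit 4710) (nat_lit 14) (nat_lit 12))
    (@En.n l1003 (nat_lit 10395) (nat_lit 2) (nat_lit 13))
    (@En.n l50 (nat_lit 4709) (nat_lit 15) (nat_lit 2))))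
  (@Cl.mk (nat_lit 0x2000c0009000d0009000400030008000c0007000d000700040003000e0008) (nat_lit 0xa000006a0100021) (nat_lit 16) Lb.e (@T16.mk En
    (@En.i (nat_lit 71) (nat_lit 6) (nat_lit 8))
    (@En.n l475 (nat_lit 6797) (nat_lit 1) (nat_lit 14))
    (@En.n l39147 (nat_lit 4712) (nat_lit 2) (nat_lit 3))
    (@En.i (nat_lit 3414) (nat_lit 3) (nat_lit 4))
    (@En.n l20841 (nat_lit 10910) (nat_lit 4) (nat_lit 7))
    (@En.n l475 (nat_lit 4489) (nat_lit 6) (nat_lit 13))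
    (@En.n l10861 (nat_lit 11387) (nat_lit 6) (nat_lit 7))
    (@En.i (nat_lit 7410) (nat_lit 8) (nat_lit 12))
    (@En.n l8017 (nat_lit 10447) (nat_lit 9) (nat_lit 8))
    (@En.n l10862 (nat_lit 4708) (nat_lit 9) (nat_lit 3))
    (@En.n l8017 (nat_lit 3405) (nat_lit 0) (nat_lit 4))
    (@En.n l9530 (nat_lit 10912) (nat_lit 12) (nat_lit 9))
    (@En.i (nat_lit 5332) (nat_lit 13) (nat_lit 13))
    (@En.n l39148 (nat_lit 11589) (nat_lit 14) (nat_lit 9))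
    (@En.n l7492 (nat_lit 10439) (nat_lit 12) (nat_lit 12))
    (@En.n l17 (nat_lit 4710) (nat_lit 15) (nat_lit 2))))
  (@Cl.mk (nat_lit 0x2000d0009000d0003000900030008000d0007000d000300070003000e0008) (nat_lit 0xa020006a02000a1) (nat_lit 16) Lb.e (@T16.mk En
    (@En.n l37744 (nat_lit 77) (nat_lit 4) (nat_lit 8))
    (@En.n l12364 (nat_lit 11239) (nat_lit 1) (nat_lit 14))
    (@En.i (nat_lit 4708) (nat_lit 2) (nat_lit 3))
    (@En.n l37745 (nat_lit 9924) (nat_lit 3) (nat_lit 7))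
    (@En.i (nat_lit 4705) (nat_lit 4) (nat_lit 3))
    (@En.n l37746 (nat_lit 5580) (nat_lit 0) (nat_lit 13))
    (@En.n l37747 (nat_lit 11384) (nat_lit 6) (nat_lit 7))
    (@En.i (nat_lit 7772) (nat_lit 8) (nat_lit 13))
    (@En.n l37748 (nat_lit 9089) (nat_lit 3) (nat_lit 8))
    (@En.n l37749 (nat_lit 4712) (nat_lit 9) (nat_lit 3))
    (@En.n l3611 (nat_lit 11330) (nat_lit 11) (nat_lit 9))
    (@En.n l22606 (nat_lit 4713) (nat_lit 11) (nat_lit 3))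
    (@En.n l37750 (nat_lit 5401) (nat_lit 0) (nat_lit 13))
    (@En.n l20303 (nat_lit 11013) (nat_lit 14) (nat_lit 9))
    (@En.n l30683 (nat_lit 10428) (nat_lit 2) (nat_lit 13))
    (@En.n l17 (nat_lit 4711) (nat_lit 15) (nat_lit 2))))
  (@Cl.mk (nat_lit 0x2000c0009000d0008000400030008000d0007000d000300080003000e0008) (nat_lit 0x6010000a02000b0) (nat_lit 16) Lb.e (@T16.mk En
    (@En.n l38386 (nat_lit 10455) (nat_lit 14) (nat_lit 8))
    (@En.n l34048 (nat_lit 11237) (nat_lit 1) (nat_lit 14))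
    (@En.n l39824 (nat_lit 4710) (nat_lit 2) (nat_lit 3))
    (@En.n l387 (nat_lit 9923) (nat_lit 3) (nat_lit 8))
    (@En.n l39825 (nat_lit 4706) (nat_lit 4) (nat_lit 3))
    (@En.n l32766 (nat_lit 5582) (nat_lit 0) (nat_lit 13))
    (@En.n l32762 (nat_lit 11385) (nat_lit 6) (nat_lit 7))
    (@En.n l25039 (nat_lit 7775) (nat_lit 8) (nat_lit 13))
    (@En.n l6680 (nat_lit 10446) (nat_lit 3) (nat_lit 8))
    (@En.n l39826 (nat_lit 4711) (nat_lit 9) (nat_lit 3))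
    (@En.n l25218 (nat_lit 3406) (nat_lit 0) (nat_lit 4))
    (@En.n l11131 (nat_lit 11586) (nat_lit 12) (nat_lit 8))
    (@En.n l25039 (nat_lit 2957) (nat_lit 13) (nat_lit 13))
    (@En.n l32765 (nat_lit 11588) (nat_lit 14) (nat_lit 9))
    (@En.n l8351 (nat_lit 10486) (nat_lit 10) (nat_lit 12))
    (@En.n l3 (nat_lit 4712) (nat_lit 15) (nat_lit 2))))
  (@Cl.mk (nat_lit 0x2000d000c000a0003000900040008000d0006000d000300070003000e0008) (nat_lit 0xb70000280000000) (nat_lit 16) Lb.e (@T16.mk En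
    (@En.i (nat_lit 10454) (nat_lit 12) (nat_lit 8))
    (@En.i (nat_lit 11236) (nat_lit 1) (nat_lit 14))
    (@En.n l9962 (nat_lit 4709) (nat_lit 2) (nat_lit 3))
    (@En.n l387 (nat_lit 9927) (nat_lit 3) (nat_lit 7))
    (@En.n l3939 (nat_lit 4707) (nat_lit 4) (nat_lit 3))
    (@En.n l725 (nat_lit 5583) (nat_lit 0) (nat_lit 13))
    (@En.n l2678 (nat_lit 10350) (nat_lit 6) (nat_lit 6))
    (@En.n l3815 (nat_lit 7770) (nat_lit 8) (nat_lit 13))
    (@En.n l30818 (nat_lit 9090) (nat_lit 3) (nat_lit 8))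
    (@En.n l2678 (nat_lit 4591) (nat_lit 9) (nat_lit 4))
    (@En.i (nat_lit 11413) (nat_lit 11) (nat_lit 9))
    (@En.n l5224 (nat_lit 4711) (nat_lit 11) (nat_lit 3))
    (@En.i (nat_lit 6460) (nat_lit 0) (nat_lit 10))
    (@En.i (nat_lit 4712) (nat_lit 14) (nat_lit 12))
    (@En.i (nat_lit 10381) (nat_lit 2) (nat_lit 13))
    (@En.n l3 (nat_lit 4713) (nat_lit 15) (nat_lit 2))))
  (@Cl.mk (nat_lit 0x20005000e00090002000d0009000e000300020007000c000b0007000e0004) (nat_lit 0x64035500047070) (nat_lit 16) Lb.e (@T16.mk En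
    (@En.n l19540 (nat_lit 4727) (nat_lit 9) (nat_lit 4))
    (@En.n l4817 (nat_lit 4717) (nat_lit 11) (nat_lit 14))
    (@En.n l1769 (nat_lit 4481) (nat_lit 12) (nat_lit 7))
    (@En.n l1189 (nat_lit 4812) (nat_lit 3) (nat_lit 11))
    (@En.i (nat_lit 3438) (nat_lit 14) (nat_lit 12))
    (@En.n l1189 (nat_lit 3739) (nat_lit 5) (nat_lit 7))
    (@En.n l11 (nat_lit 4714) (nat_lit 6) (nat_lit 2))
    (@En.n l17573 (nat_lit 4672) (nat_lit 7) (nat_lit 3))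
    (@En.n l2038 (nat_lit 13200) (nat_lit 0) (nat_lit 14))
    (@En.n l3899 (nat_lit 4822) (nat_lit 2) (nat_lit 9))
    (@En.n l13116 (nat_lit 4421) (nat_lit 11) (nat_lit 13))
    (@En.n l17 (nat_lit 4714) (nat_lit 11) (nat_lit 2))
    (@En.n l13116 (nat_lit 4675) (nat_lit 13) (nat_lit 9))
    (@En.i (nat_lit 3999) (nat_lit 7) (nat_lit 14))
    (@En.n l8229 (nat_lit 3376) (nat_lit 13) (nat_lit 5))
    (@En.n l50 (nat_lit 4714) (nat_lit 15) (nat_lit 2))))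
  (@Cl.mk (nat_lit 0x200090005000e00090002000d000d0007000300030007000d000b000e0003) (nat_lit 0x5032064000047a0) (nat_lit 16) Lb.e (@T16.mk En
    (@En.n l3016 (nat_lit 4718) (nat_lit 5) (nat_lit 3))
    (@En.n l5585 (nat_lit 13229) (nat_lit 0) (nat_lit 14))
    (@En.n l7225 (nat_lit 4732) (nat_lit 2) (nat_lit 11))
    (@En.i (nat_lit 3427) (nat_lit 9) (nat_lit 13))
    (@En.n l7225 (nat_lit 3746) (nat_lit 4) (nat_lit 7))
    (@En.n l9631 (nat_lit 4726) (nat_lit 13) (nat_lit 3))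
    (@En.n l9632 (nat_lit 4717) (nat_lit 0) (nat_lit 3))
    (@En.n l5588 (nat_lit 5815) (nat_lit 0) (nat_lit 7))
    (@En.n l9633 (nat_lit 4717) (nat_lit 3) (nat_lit 13))
    (@En.n l5585 (nat_lit 4416) (nat_lit 10) (nat_lit 13))
    (@En.n l17 (nat_lit 4715) (nat_lit 10) (nat_lit 2))
    (@En.n l9634 (nat_lit 4676) (nat_lit 12) (nat_lit 9))
    (@En.n l936 (nat_lit 3973) (nat_lit 1) (nat_lit 14))
    (@En.n l3082 (nat_lit 4672) (nat_lit 14) (nat_lit 5))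
    (@En.n l1101 (nat_lit 4590) (nat_lit 3) (nat_lit 9))
    (@En.n l50 (nat_lit 4715) (nat_lit 15) (nat_lit 2))))
  (@Cl.mk (nat_lit 0x20007000d000d000c00030003000a0004000e00090002000d0006000e0003) (nat_lit 0x45400303207050) (nat_lit 16) Lb.e (@T16.mk En
    (@En.n l11101 (nat_lit 4718) (nat_lit 11) (nat_lit 3))
    (@En.i (nat_lit 13203) (nat_lit 0) (nat_lit 14))
    (@En.i (nat_lit 5838) (nat_lit 2) (nat_lit 6))
    (@En.n l2140 (nat_lit 4388) (nat_lit 9) (nat_lit 13))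
    (@En.n l7 (nat_lit 4716) (nat_lit 4) (nat_lit 2))
    (@En.n l2140 (nat_lit 4743) (nat_lit 5) (nat_lit 9))
    (@En.n l18237 (nat_lit 3974) (nat_lit 1) (nat_lit 14))
    (@En.i (nat_lit 4727) (nat_lit 7) (nat_lit 4))
    (@En.n l181 (nat_lit 3406) (nat_lit 9) (nat_lit 10))
    (@En.n l152 (nat_lit 4719) (nat_lit 9) (nat_lit 3))
    (@En.n l11078 (nat_lit 4717) (nat_lit 10) (nat_lit 3))
    (@En.n l619 (nat_lit 4724) (nat_lit 12) (nat_lit 12))
    (@En.n l33220 (nat_lit 4717) (nat_lit 13) (nat_lit 13))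
    (@En.n l181 (nat_lit 3431) (nat_lit 9) (nat_lit 13))
    (@En.i (nat_lit 3741) (nat_lit 3) (nat_lit 7))
    (@En.n l17 (nat_lit 4716) (nat_lit 15) (nat_lit 2))))
  (@Cl.mk (nat_lit 0x20007000d000b000e00030002000a0005000e00090002000d0006000e0003) (nat_lit 0x47600303203050) (nat_lit 16) Lb.e (@T16.mk En
    (@En.n l19425 (nat_lit 4715) (nat_lit 6) (nat_lit 3))
    (@En.n l4851 (nat_lit 13202) (nat_lit 0) (nat_lit 14))
    (@En.n l12978 (nat_lit 5840) (nat_lit 2) (nat_lit 6))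
    (@En.n l538 (nat_lit 4414) (nat_lit 10) (nat_lit 13))
    (@En.n l8 (nat_lit 4717) (nat_lit 4) (nat_lit 2))
    (@En.n l538 (nat_lit 4756) (nat_lit 5) (nat_lit 9))
    (@En.n l4589 (nat_lit 3975) (nat_lit 1) (nat_lit 14))
    (@En.n l4589 (nat_lit 4714) (nat_lit 14) (nat_lit 5))
    (@En.n l22249 (nat_lit 3400) (nat_lit 9) (nat_lit 10))
    (@En.n l17 (nat_lit 4717) (nat_lit 9) (nat_lit 2))
    (@En.n l22250 (nat_lit 4716) (nat_lit 10) (nat_lit 3))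
    (@En.n l538 (nat_lit 13230) (nat_lit 0) (nat_lit 14))
    (@En.n l22251 (nat_lit 4759) (nat_lit 13) (nat_lit 11))
    (@En.n l4589 (nat_lit 3428) (nat_lit 9) (nat_lit 13))
    (@En.n l22251 (nat_lit 3738) (nat_lit 4) (nat_lit 7))
    (@En.n l28 (nat_lit 4717) (nat_lit 15) (nat_lit 2))))
  (@Cl.mk (nat_lit 0x2000d000d0007000300030007000d000d000c0003000300090004000e0009) (nat_lit 0xa80000456004032) (nat_lit 16) Lb.e (@T16.mk En
    (@En.n l22019 (nat_lit 4685) (nat_lit 4) (nat_lit 9))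
    (@En.n l8820 (nat_lit 3102) (nat_lit 1) (nat_lit 14))
    (@En.n l403 (nat_lit 4599) (nat_lit 2) (nat_lit 4))
    (@En.n l17120 (nat_lit 4591) (nat_lit 3) (nat_lit 9))
    (@En.n l18 (nat_lit 4720) (nat_lit 13) (nat_lit 3))
    (@En.n l8172 (nat_lit 4715) (nat_lit 0) (nat_lit 3))
    (@En.n l6444 (nat_lit 4723) (nat_lit 0) (nat_lit 12))
    (@En.n l22254 (nat_lit 4715) (nat_lit 3) (nat_lit 13))
    (@En.n l2869 (nat_lit 3432) (nat_lit 9) (nat_lit 13))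
    (@En.n l810 (nat_lit 4280) (nat_lit 3) (nat_lit 7))
    (@En.n l28 (nat_lit 4721) (nat_lit 13) (nat_lit 3))
    (@En.n l1392 (nat_lit 4716) (nat_lit 0) (nat_lit 3))
    (@En.i (nat_lit 5814) (nat_lit 0) (nat_lit 7))
    (@En.n l17119 (nat_lit 4716) (nat_lit 3) (nat_lit 13))
    (@En.n l22019 (nat_lit 4386) (nat_lit 9) (nat_lit 13))
    (@En.n l3 (nat_lit 4718) (nat_lit 15) (nat_lit 2))))
  (@Cl.mk (nat_lit 0x20007000e000d0002000d0003000a0003000e00090002000d0006000e0003) (nat_lit 0xa5020404205050) (nat_lit 16) Lb.e (@T16.mk En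
    (@En.n l4019 (nat_lit 4720) (nat_lit 4) (nat_lit 3))
    (@En.i (nat_lit 13290) (nat_lit 0) (nat_lit 14))
    (@En.n l1347 (nat_lit 5839) (nat_lit 14) (nat_lit 6))
    (@En.n l7557 (nat_lit 4387) (nat_lit 8) (nat_lit 13))
    (@En.n l7 (nat_lit 4719) (nat_lit 4) (nat_lit 2))
    (@En.n l2140 (nat_lit 4744) (nat_lit 5) (nat_lit 9))
    (@En.n l4311 (nat_lit 3979) (nat_lit 1) (nat_lit 14))
    (@En.i (nat_lit 4724) (nat_lit 7) (nat_lit 3))
    (@En.i (nat_lit 12539) (nat_lit 9) (nat_lit 10))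
    (@En.n l117 (nat_lit 4716) (nat_lit 9) (nat_lit 3))
    (@En.i (nat_lit 920) (nat_lit 11) (nat_lit 13))
    (@En.n l3 (nat_lit 4719) (nat_lit 11) (nat_lit 2))
    (@En.i (nat_lit 4716) (nat_lit 13) (nat_lit 13))
    (@En.i (nat_lit 3455) (nat_lit 1) (nat_lit 14))
    (@En.i (nat_lit 4283) (nat_lit 2) (nat_lit 7))
    (@En.n l17 (nat_lit 4719) (nat_lit 15) (nat_lit 2))))
noncomputable def a295 : T16 Cl := @T16.mk Cl
  (@Cl.mk (nat_lit 0x2000d000300090003000e00090002000d000d0007000300030007000e000d) (nat_lit 0x2040330460000a5) (nat_lit 16) Lb.e (@T16.mk En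
    (@En.n l396 (nat_lit 4718) (nat_lit 8) (nat_lit 13))
    (@En.i (nat_lit 2109) (nat_lit 1) (nat_lit 14))
    (@En.n l810 (nat_lit 4281) (nat_lit 2) (nat_lit 7))
    (@En.n l28 (nat_lit 4722) (nat_lit 13) (nat_lit 3))
    (@En.n l1393 (nat_lit 4719) (nat_lit 0) (nat_lit 3))
    (@En.i (nat_lit 5816) (nat_lit 0) (nat_lit 7))
    (@En.n l5987 (nat_lit 4719) (nat_lit 3) (nat_lit 13))
    (@En.n l5011 (nat_lit 4384) (nat_lit 8) (nat_lit 13))
    (@En.n l3 (nat_lit 4720) (nat_lit 8) (nat_lit 2))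
    (@En.n l11108 (nat_lit 4742) (nat_lit 10) (nat_lit 9))
    (@En.i (nat_lit 3978) (nat_lit 1) (nat_lit 14))
    (@En.n l2364 (nat_lit 4723) (nat_lit 11) (nat_lit 3))
    (@En.i (nat_lit 12537) (nat_lit 3) (nat_lit 9))
    (@En.i (nat_lit 4718) (nat_lit 4) (nat_lit 3))
    (@En.i (nat_lit 928) (nat_lit 0) (nat_lit 13))
    (@En.n l50 (nat_lit 4720) (nat_lit 15) (nat_lit 2))))
  (@Cl.mk (nat_lit 0x2000800030007000d000d000c0003000300080004000e00090002000e000d) (nat_lit 0x20034800403302b) (nat_lit 16) Lb.e (@T16.mk En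
    (@En.n l1578 (nat_lit 4718) (nat_lit 14) (nat_lit 13))
    (@En.i (nat_lit 2181) (nat_lit 1) (nat_lit 14))
    (@En.n l3 (nat_lit 4721) (nat_lit 2) (nat_lit 2))
    (@En.i (nat_lit 4738) (nat_lit 3) (nat_lit 9))
    (@En.i (nat_lit 3103) (nat_lit 1) (nat_lit 14))
    (@En.n l403 (nat_lit 4731) (nat_lit 5) (nat_lit 4))
    (@En.n l1353 (nat_lit 3453) (nat_lit 6) (nat_lit 8))
    (@En.n l18 (nat_lit 4722) (nat_lit 7) (nat_lit 3))
    (@En.n l947 (nat_lit 4726) (nat_lit 8) (nat_lit 3))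
    (@En.n l6444 (nat_lit 4725) (nat_lit 10) (nat_lit 12))
    (@En.n l5913 (nat_lit 4726) (nat_lit 11) (nat_lit 13))
    (@En.n l2869 (nat_lit 3434) (nat_lit 12) (nat_lit 13))
    (@En.i (nat_lit 3797) (nat_lit 13) (nat_lit 7))
    (@En.i (nat_lit 4718) (nat_lit 10) (nat_lit 3))
    (@En.n l1353 (nat_lit 3677) (nat_lit 12) (nat_lit 8))
    (@En.n l11 (nat_lit 4721) (nat_lit 15) (nat_lit 2))))
  (@Cl.mk (nat_lit 0x2000800030007000e000d0002000d000300080003000e00090002000e000d) (nat_lit 0x400a401040c3015) (nat_lit 16) Lb.e (@T16.mk En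
    (@En.n l1578 (nat_lit 4720) (nat_lit 7) (nat_lit 13))
    (@En.i (nat_lit 2182) (nat_lit 1) (nat_lit 14))
    (@En.n l3 (nat_lit 4722) (nat_lit 2) (nat_lit 2))
    (@En.i (nat_lit 4740) (nat_lit 3) (nat_lit 9))
    (@En.i (nat_lit 3980) (nat_lit 1) (nat_lit 14))
    (@En.n l2364 (nat_lit 4725) (nat_lit 5) (nat_lit 3))
    (@En.i (nat_lit 12533) (nat_lit 6) (nat_lit 8))
    (@En.i (nat_lit 4721) (nat_lit 7) (nat_lit 3))
    (@En.i (nat_lit 924) (nat_lit 0) (nat_lit 13))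
    (@En.n l50 (nat_lit 4722) (nat_lit 9) (nat_lit 2))
    (@En.n l396 (nat_lit 4721) (nat_lit 11) (nat_lit 13))
    (@En.i (nat_lit 5120) (nat_lit 12) (nat_lit 14))
    (@En.i (nat_lit 3800) (nat_lit 13) (nat_lit 7))
    (@En.i (nat_lit 4720) (nat_lit 3) (nat_lit 3))
    (@En.i (nat_lit 5381) (nat_lit 12) (nat_lit 8))
    (@En.n l11 (nat_lit 4722) (nat_lit 15) (nat_lit 2))))
  (@Cl.mk (nat_lit 0x2000d000800040003000e00090002000d000d0008000300030007000e000c) (nat_lit 0x1400440ab0000c5) (nat_lit 16) Lb.e (@T16.mk En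
    (@En.n l217 (nat_lit 4599) (nat_lit 8) (nat_lit 12))
    (@En.n l2026 (nat_lit 2102) (nat_lit 1) (nat_lit 14))
    (@En.n l810 (nat_lit 3870) (nat_lit 2) (nat_lit 7))
    (@En.n l28 (nat_lit 4725) (nat_lit 13) (nat_lit 3))
    (@En.n l1573 (nat_lit 4724) (nat_lit 0) (nat_lit 3))
    (@En.i (nat_lit 5780) (nat_lit 0) (nat_lit 8))
    (@En.n l5974 (nat_lit 4724) (nat_lit 3) (nat_lit 13))
    (@En.n l5975 (nat_lit 4385) (nat_lit 8) (nat_lit 13))
    (@En.n l3 (nat_lit 4723) (nat_lit 8) (nat_lit 2))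
    (@En.n l4321 (nat_lit 4741) (nat_lit 10) (nat_lit 9))
    (@En.i (nat_lit 4885) (nat_lit 1) (nat_lit 14))
    (@En.n l763 (nat_lit 4720) (nat_lit 11) (nat_lit 3))
    (@En.i (nat_lit 4803) (nat_lit 3) (nat_lit 4))
    (@En.n l1545 (nat_lit 4479) (nat_lit 14) (nat_lit 8))
    (@En.n l2026 (nat_lit 921) (nat_lit 6) (nat_lit 13))
    (@En.n l50 (nat_lit 4723) (nat_lit 15) (nat_lit 2))))
  (@Cl.mk (nat_lit 0x20007000e000c0002000d000900040003000e00090002000d0007000e0003) (nat_lit 0xc301300240a050) (nat_lit 16) Lb.e (@T16.mk En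
    (@En.n l2208 (nat_lit 4723) (nat_lit 4) (nat_lit 3))
    (@En.i (nat_lit 13291) (nat_lit 0) (nat_lit 14))
    (@En.n l2211 (nat_lit 5781) (nat_lit 2) (nat_lit 7))
    (@En.n l7557 (nat_lit 4389) (nat_lit 8) (nat_lit 13))
    (@En.n l7 (nat_lit 4724) (nat_lit 4) (nat_lit 2))
    (@En.n l2140 (nat_lit 4745) (nat_lit 5) (nat_lit 9))
    (@En.n l7558 (nat_lit 4887) (nat_lit 1) (nat_lit 14))
    (@En.n l11 (nat_lit 4719) (nat_lit 7) (nat_lit 3))
    (@En.n l2211 (nat_lit 4802) (nat_lit 8) (nat_lit 4))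
    (@En.i (nat_lit 4478) (nat_lit 10) (nat_lit 9))
    (@En.n l7559 (nat_lit 698) (nat_lit 11) (nat_lit 13))
    (@En.n l3 (nat_lit 4724) (nat_lit 11) (nat_lit 2))
    (@En.i (nat_lit 4727) (nat_lit 13) (nat_lit 12))
    (@En.n l95 (nat_lit 2101) (nat_lit 1) (nat_lit 14))
    (@En.i (nat_lit 3868) (nat_lit 2) (nat_lit 7))
    (@En.n l17 (nat_lit 4724) (nat_lit 15) (nat_lit 2))))
  (@Cl.mk (nat_lit 0x2000900030007000e000c0002000d000700040003000e00090002000e000d) (nat_lit 0xc702000c401b) (nat_lit 16) Lb.e (@T16.mk En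
    (@En.n l1578 (nat_lit 4723) (nat_lit 7) (nat_lit 13))
    (@En.i (nat_lit 2183) (nat_lit 1) (nat_lit 14))
    (@En.n l3 (nat_lit 4725) (nat_lit 2) (nat_lit 2))
    (@En.i (nat_lit 4739) (nat_lit 3) (nat_lit 9))
    (@En.i (nat_lit 4886) (nat_lit 1) (nat_lit 14))
    (@En.n l763 (nat_lit 4722) (nat_lit 5) (nat_lit 3))
    (@En.i (nat_lit 4840) (nat_lit 6) (nat_lit 4))
    (@En.n l1545 (nat_lit 5318) (nat_lit 14) (nat_lit 7))
    (@En.n l2026 (nat_lit 926) (nat_lit 9) (nat_lit 13))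
    (@En.n l50 (nat_lit 4725) (nat_lit 9) (nat_lit 2))
    (@En.n l217 (nat_lit 4731) (nat_lit 11) (nat_lit 12))
    (@En.n l2026 (nat_lit 4869) (nat_lit 12) (nat_lit 14))
    (@En.i (nat_lit 3802) (nat_lit 13) (nat_lit 7))
    (@En.i (nat_lit 4723) (nat_lit 3) (nat_lit 3))
    (@En.i (nat_lit 5384) (nat_lit 12) (nat_lit 9))
    (@En.n l11 (nat_lit 4725) (nat_lit 15) (nat_lit 2))))
  (@Cl.mk (nat_lit 0x2000800030007000d000b000e0003000200080005000e00090002000e000d) (nat_lit 0x300359001043027) (nat_lit 16) Lb.e (@T16.mk En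
    (@En.n l9543 (nat_lit 4715) (nat_lit 9) (nat_lit 13))
    (@En.i (nat_lit 2180) (nat_lit 1) (nat_lit 14))
    (@En.n l11 (nat_lit 4726) (nat_lit 2) (nat_lit 2))
    (@En.n l9544 (nat_lit 4737) (nat_lit 3) (nat_lit 9))
    (@En.n l1722 (nat_lit 3977) (nat_lit 5) (nat_lit 14))
    (@En.n l17 (nat_lit 4728) (nat_lit 14) (nat_lit 5))
    (@En.n l3328 (nat_lit 3447) (nat_lit 6) (nat_lit 8))
    (@En.n l3 (nat_lit 4726) (nat_lit 7) (nat_lit 2))
    (@En.n l3323 (nat_lit 4721) (nat_lit 8) (nat_lit 3))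
    (@En.n l3324 (nat_lit 13234) (nat_lit 0) (nat_lit 14))
    (@En.n l1253 (nat_lit 4729) (nat_lit 2) (nat_lit 11))
    (@En.n l3325 (nat_lit 3433) (nat_lit 12) (nat_lit 13))
    (@En.n l7611 (nat_lit 3795) (nat_lit 4) (nat_lit 7))
    (@En.n l3325 (nat_lit 4715) (nat_lit 5) (nat_lit 3))
    (@En.i (nat_lit 5378) (nat_lit 12) (nat_lit 8))
    (@En.n l7 (nat_lit 4726) (nat_lit 15) (nat_lit 2))))
  (@Cl.mk (nat_lit 0x20007000c000c000c0008000400040004000e00090002000d0008000e0003) (nat_lit 0x2533000c506480) (nat_lit 16) Lb.e (@T16.mk En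
    (@En.n l2210 (nat_lit 4599) (nat_lit 11) (nat_lit 3))
    (@En.i (nat_lit 13201) (nat_lit 0) (nat_lit 14))
    (@En.n l6366 (nat_lit 5302) (nat_lit 2) (nat_lit 8))
    (@En.n l2140 (nat_lit 4391) (nat_lit 2) (nat_lit 13))
    (@En.n l7 (nat_lit 4727) (nat_lit 4) (nat_lit 2))
    (@En.n l2140 (nat_lit 4757) (nat_lit 5) (nat_lit 9))
    (@En.n l18237 (nat_lit 3997) (nat_lit 1) (nat_lit 14))
    (@En.n l11 (nat_lit 4759) (nat_lit 7) (nat_lit 4))
    (@En.n l152 (nat_lit 4724) (nat_lit 8) (nat_lit 4))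
    (@En.n l6366 (nat_lit 4801) (nat_lit 9) (nat_lit 4))
    (@En.i (nat_lit 4477) (nat_lit 11) (nat_lit 8))
    (@En.n l4314 (nat_lit 4802) (nat_lit 12) (nat_lit 12))
    (@En.n l18238 (nat_lit 4714) (nat_lit 4) (nat_lit 12))
    (@En.n l18237 (nat_lit 3654) (nat_lit 14) (nat_lit 12))
    (@En.n l13379 (nat_lit 3742) (nat_lit 14) (nat_lit 7))
    (@En.n l17 (nat_lit 4727) (nat_lit 15) (nat_lit 2))))
  (@Cl.mk (nat_lit 0x20005000e00090002000e000d0002000b00030007000c000b0005000e0004) (nat_lit 0xb40220900370a0) (nat_lit 16) Lb.e (@T16.mk En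
    (@En.n l3323 (nat_lit 4731) (nat_lit 7) (nat_lit 4))
    (@En.i (nat_lit 4726) (nat_lit 9) (nat_lit 14))
    (@En.n l7882 (nat_lit 5317) (nat_lit 2) (nat_lit 5))
    (@En.n l1253 (nat_lit 4730) (nat_lit 3) (nat_lit 11))
    (@En.i (nat_lit 3439) (nat_lit 12) (nat_lit 12))
    (@En.i (nat_lit 3791) (nat_lit 5) (nat_lit 7))
    (@En.i (nat_lit 4672) (nat_lit 6) (nat_lit 3))
    (@En.i (nat_lit 5255) (nat_lit 0) (nat_lit 11))
    (@En.n l7 (nat_lit 4728) (nat_lit 8) (nat_lit 2))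
    (@En.n l601 (nat_lit 4672) (nat_lit 10) (nat_lit 13))
    (@En.i (nat_lit 771) (nat_lit 1) (nat_lit 14))
    (@En.n l11 (nat_lit 4728) (nat_lit 11) (nat_lit 2))
    (@En.n l2977 (nat_lit 4673) (nat_lit 13) (nat_lit 9))
    (@En.n l1722 (nat_lit 3993) (nat_lit 1) (nat_lit 14))
    (@En.n l253 (nat_lit 3378) (nat_lit 13) (nat_lit 5))
    (@En.n l3 (nat_lit 4728) (nat_lit 15) (nat_lit 2))))
  (@Cl.mk (nat_lit 0x2000700050004000e00090002000e000d0002000900030007000b000e000c) (nat_lit 0xb20220000495) (nat_lit 16) Lb.e (@T16.mk En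
    (@En.n l2213 (nat_lit 4731) (nat_lit 10) (nat_lit 12))
    (@En.i (nat_lit 3445) (nat_lit 4) (nat_lit 14))
    (@En.i (nat_lit 3546) (nat_lit 2) (nat_lit 11))
    (@En.i (nat_lit 3916) (nat_lit 3) (nat_lit 7))
    (@En.n l1353 (nat_lit 4732) (nat_lit 4) (nat_lit 3))
    (@En.i (nat_lit 5372) (nat_lit 0) (nat_lit 9))
    (@En.n l50 (nat_lit 4729) (nat_lit 6) (nat_lit 2))
    (@En.n l564 (nat_lit 4732) (nat_lit 8) (nat_lit 13))
    (@En.i (nat_lit 883) (nat_lit 1) (nat_lit 14))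
    (@En.n l28 (nat_lit 4729) (nat_lit 9) (nat_lit 2))
    (@En.n l287 (nat_lit 4733) (nat_lit 3) (nat_lit 9))
    (@En.i (nat_lit 3670) (nat_lit 12) (nat_lit 14))
    (@En.n l2221 (nat_lit 4721) (nat_lit 5) (nat_lit 4))
    (@En.n l725 (nat_lit 4730) (nat_lit 14) (nat_lit 5))
    (@En.i (nat_lit 3449) (nat_lit 7) (nat_lit 7))
    (@En.n l3 (nat_lit 4729) (nat_lit 15) (nat_lit 2))))
  (@Cl.mk (nat_lit 0x200050003000e00090002000e000d0002000c00030007000b0004000e000d) (nat_lit 0xb50120a0060a6) (nat_lit 16) Lb.e (@T16.mk En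
    (@En.n l649 (nat_lit 4600) (nat_lit 9) (nat_lit 13))
    (@En.i (nat_lit 4729) (nat_lit 1) (nat_lit 14))
    (@En.i (nat_lit 4888) (nat_lit 2) (nat_lit 4))
    (@En.i (nat_lit 3548) (nat_lit 3) (nat_lit 11))
    (@En.i (nat_lit 3788) (nat_lit 4) (nat_lit 7))
    (@En.n l1353 (nat_lit 4598) (nat_lit 5) (nat_lit 3))
    (@En.i (nat_lit 5868) (nat_lit 7) (nat_lit 12))
    (@En.n l50 (nat_lit 4730) (nat_lit 7) (nat_lit 2))
    (@En.n l564 (nat_lit 4598) (nat_lit 9) (nat_lit 13))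
    (@En.i (nat_lit 2261) (nat_lit 10) (nat_lit 14))
    (@En.n l28 (nat_lit 4730) (nat_lit 10) (nat_lit 2))
    (@En.n l287 (nat_lit 4736) (nat_lit 12) (nat_lit 9))
    (@En.i (nat_lit 5381) (nat_lit 13) (nat_lit 14))
    (@En.n l2221 (nat_lit 4600) (nat_lit 5) (nat_lit 3))
    (@En.n l1643 (nat_lit 3396) (nat_lit 6) (nat_lit 5))
    (@En.n l3 (nat_lit 4730) (nat_lit 15) (nat_lit 2))))
  (@Cl.mk (nat_lit 0x2000a00030007000c000c000c0006000400040004000e00090002000e000d) (nat_lit 0x8006460000b5017) (nat_lit 16) Lb.e (@T16.mk En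
    (@En.n l1578 (nat_lit 4599) (nat_lit 14) (nat_lit 13))
    (@En.i (nat_lit 2184) (nat_lit 1) (nat_lit 14))
    (@En.n l3 (nat_lit 4731) (nat_lit 2) (nat_lit 2))
    (@En.i (nat_lit 4735) (nat_lit 3) (nat_lit 9))
    (@En.i (nat_lit 3994) (nat_lit 1) (nat_lit 14))
    (@En.n l1778 (nat_lit 4729) (nat_lit 12) (nat_lit 4))
    (@En.n l2172 (nat_lit 4725) (nat_lit 6) (nat_lit 4))
    (@En.i (nat_lit 4600) (nat_lit 7) (nat_lit 4))
    (@En.n l5912 (nat_lit 5316) (nat_lit 8) (nat_lit 6))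
    (@En.n l742 (nat_lit 4840) (nat_lit 10) (nat_lit 12))
    (@En.n l5913 (nat_lit 4728) (nat_lit 4) (nat_lit 12))
    (@En.n l2869 (nat_lit 3656) (nat_lit 12) (nat_lit 12))
    (@En.i (nat_lit 3786) (nat_lit 13) (nat_lit 7))
    (@En.i (nat_lit 4599) (nat_lit 10) (nat_lit 3))
    (@En.i (nat_lit 5257) (nat_lit 0) (nat_lit 10))
    (@En.n l11 (nat_lit 4731) (nat_lit 15) (nat_lit 2))))
  (@Cl.mk (nat_lit 0x2000800050004000e00090002000d000d0008000300030007000b000e000c) (nat_lit 0x200c30125000696) (nat_lit 16) Lb.e (@T16.mk En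
    (@En.n l6901 (nat_lit 4599) (nat_lit 7) (nat_lit 12))
    (@En.i (nat_lit 3379) (nat_lit 4) (nat_lit 14))
    (@En.i (nat_lit 3542) (nat_lit 2) (nat_lit 11))
    (@En.i (nat_lit 4253) (nat_lit 3) (nat_lit 7))
    (@En.n l2593 (nat_lit 4729) (nat_lit 4) (nat_lit 3))
    (@En.n l1459 (nat_lit 4759) (nat_lit 0) (nat_lit 3))
    (@En.n l617 (nat_lit 5728) (nat_lit 6) (nat_lit 8))
    (@En.n l20056 (nat_lit 4759) (nat_lit 3) (nat_lit 13))
    (@En.i (nat_lit 890) (nat_lit 9) (nat_lit 13))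
    (@En.n l28 (nat_lit 4732) (nat_lit 9) (nat_lit 2))
    (@En.n l20057 (nat_lit 4734) (nat_lit 11) (nat_lit 9))
    (@En.i (nat_lit 3668) (nat_lit 1) (nat_lit 14))
    (@En.n l12871 (nat_lit 4718) (nat_lit 2) (nat_lit 4))
    (@En.n l17 (nat_lit 4598) (nat_lit 14) (nat_lit 5))
    (@En.i (nat_lit 4592) (nat_lit 4) (nat_lit 8))
    (@En.n l3 (nat_lit 4732) (nat_lit 15) (nat_lit 2))))
  (@Cl.mk (nat_lit 0x20008000300070007000b000e000c000200080005000400090009000e000d) (nat_lit 0x50007920200131a) (nat_lit 16) Lb.e (@T16.mk En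
    (@En.n l16554 (nat_lit 4734) (nat_lit 9) (nat_lit 13))
    (@En.i (nat_lit 889) (nat_lit 10) (nat_lit 14))
    (@En.n l16555 (nat_lit 4699) (nat_lit 2) (nat_lit 9))
    (@En.i (nat_lit 3528) (nat_lit 3) (nat_lit 9))
    (@En.n l2832 (nat_lit 4738) (nat_lit 4) (nat_lit 4))
    (@En.n l17 (nat_lit 4736) (nat_lit 14) (nat_lit 5))
    (@En.i (nat_lit 4549) (nat_lit 6) (nat_lit 8))
    (@En.n l3 (nat_lit 4733) (nat_lit 7) (nat_lit 2))
    (@En.n l15182 (nat_lit 4735) (nat_lit 9) (nat_lit 12))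
    (@En.i (nat_lit 3368) (nat_lit 4) (nat_lit 14))
    (@En.i (nat_lit 7270) (nat_lit 2) (nat_lit 11))
    (@En.n l1722 (nat_lit 4729) (nat_lit 3) (nat_lit 7))
    (@En.i (nat_lit 3962) (nat_lit 4) (nat_lit 7))
    (@En.n l3327 (nat_lit 4734) (nat_lit 5) (nat_lit 3))
    (@En.i (nat_lit 5011) (nat_lit 0) (nat_lit 8))
    (@En.n l7 (nat_lit 4733) (nat_lit 15) (nat_lit 2))))
  (@Cl.mk (nat_lit 0x200090005000400090009000d000d00070003000300070007000b000e000c) (nat_lit 0x100229400000766) (nat_lit 16) Lb.e (@T16.mk En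
    (@En.n l14228 (nat_lit 4677) (nat_lit 10) (nat_lit 12))
    (@En.n l9859 (nat_lit 3367) (nat_lit 4) (nat_lit 14))
    (@En.n l4790 (nat_lit 7271) (nat_lit 2) (nat_lit 11))
    (@En.n l12583 (nat_lit 4732) (nat_lit 3) (nat_lit 7))
    (@En.n l28500 (nat_lit 4255) (nat_lit 4) (nat_lit 7))
    (@En.n l3072 (nat_lit 4733) (nat_lit 13) (nat_lit 3))
    (@En.n l14233 (nat_lit 4758) (nat_lit 0) (nat_lit 3))
    (@En.n l4790 (nat_lit 5724) (nat_lit 0) (nat_lit 7))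
    (@En.n l28501 (nat_lit 4758) (nat_lit 3) (nat_lit 13))
    (@En.n l3530 (nat_lit 4436) (nat_lit 10) (nat_lit 13))
    (@En.n l14231 (nat_lit 4694) (nat_lit 11) (nat_lit 9))
    (@En.n l4661 (nat_lit 3526) (nat_lit 12) (nat_lit 9))
    (@En.n l13889 (nat_lit 4685) (nat_lit 5) (nat_lit 4))
    (@En.n l7075 (nat_lit 4680) (nat_lit 14) (nat_lit 5))
    (@En.n l4790 (nat_lit 4522) (nat_lit 1) (nat_lit 9))
    (@En.n l50 (nat_lit 4734) (nat_lit 15) (nat_lit 2))))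
  (@Cl.mk (nat_lit 0x20009000300070007000c000c000c000700040004000400090009000e000d) (nat_lit 0x500071900004416) (nat_lit 16) Lb.e (@T16.mk En
    (@En.n l11405 (nat_lit 4677) (nat_lit 2) (nat_lit 13))
    (@En.n l2038 (nat_lit 2208) (nat_lit 1) (nat_lit 14))
    (@En.n l11406 (nat_lit 4786) (nat_lit 2) (nat_lit 9))
    (@En.n l5801 (nat_lit 7070) (nat_lit 3) (nat_lit 9))
    (@En.n l11407 (nat_lit 4733) (nat_lit 4) (nat_lit 4))
    (@En.n l2172 (nat_lit 4739) (nat_lit 5) (nat_lit 4))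
    (@En.i (nat_lit 4682) (nat_lit 6) (nat_lit 4))
    (@En.n l5801 (nat_lit 5319) (nat_lit 7) (nat_lit 7))
    (@En.n l742 (nat_lit 4794) (nat_lit 4) (nat_lit 12))
    (@En.n l11408 (nat_lit 4673) (nat_lit 4) (nat_lit 12))
    (@En.n l5801 (nat_lit 7268) (nat_lit 11) (nat_lit 12))
    (@En.n l152 (nat_lit 4731) (nat_lit 12) (nat_lit 7))
    (@En.i (nat_lit 3690) (nat_lit 13) (nat_lit 7))
    (@En.n l11409 (nat_lit 4677) (nat_lit 14) (nat_lit 3))
    (@En.i (nat_lit 5020) (nat_lit 0) (nat_lit 9))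
    (@En.n l11 (nat_lit 4735) (nat_lit 15) (nat_lit 2))))
noncomputable def a296 : T16 Cl := @T16.mk Cl
  (@Cl.mk (nat_lit 0x20005000300090009000e000d0002000b000300070007000b0005000e000d) (nat_lit 0x46120300070a4) (nat_lit 16) Lb.e (@T16.mk En
    (@En.n l4130 (nat_lit 4682) (nat_lit 8) (nat_lit 13))
    (@En.i (nat_lit 4733) (nat_lit 9) (nat_lit 14))
    (@En.i (nat_lit 4883) (nat_lit 2) (nat_lit 5))
    (@En.i (nat_lit 4002) (nat_lit 3) (nat_lit 11))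
    (@En.n l1722 (nat_lit 4730) (nat_lit 4) (nat_lit 7))
    (@En.i (nat_lit 3772) (nat_lit 5) (nat_lit 7))
    (@En.i (nat_lit 4680) (nat_lit 6) (nat_lit 3))
    (@En.i (nat_lit 5932) (nat_lit 8) (nat_lit 11))
    (@En.n l7 (nat_lit 4736) (nat_lit 8) (nat_lit 2))
    (@En.n l601 (nat_lit 4680) (nat_lit 10) (nat_lit 13))
    (@En.i (nat_lit 2661) (nat_lit 11) (nat_lit 14))
    (@En.n l1316 (nat_lit 4788) (nat_lit 12) (nat_lit 9))
    (@En.i (nat_lit 7696) (nat_lit 13) (nat_lit 9))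
    (@En.n l2832 (nat_lit 4682) (nat_lit 4) (nat_lit 3))
    (@En.n l10280 (nat_lit 3375) (nat_lit 0) (nat_lit 5))
    (@En.n l3 (nat_lit 4736) (nat_lit 15) (nat_lit 2))))
  (@Cl.mk (nat_lit 0x20007000300070007000d000b000e000300020009000500090009000e000d) (nat_lit 0x18a0050221a) (nat_lit 16) Lb.e (@T16.mk En
    (@En.n l6635 (nat_lit 4676) (nat_lit 10) (nat_lit 13))
    (@En.n l723 (nat_lit 2219) (nat_lit 11) (nat_lit 14))
    (@En.n l16469 (nat_lit 4784) (nat_lit 2) (nat_lit 9))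
    (@En.i (nat_lit 3909) (nat_lit 3) (nat_lit 9))
    (@En.i (nat_lit 4673) (nat_lit 14) (nat_lit 5))
    (@En.n l16470 (nat_lit 4552) (nat_lit 5) (nat_lit 9))
    (@En.n l11 (nat_lit 4737) (nat_lit 6) (nat_lit 2))
    (@En.n l16471 (nat_lit 4738) (nat_lit 7) (nat_lit 3))
    (@En.n l3590 (nat_lit 13233) (nat_lit 0) (nat_lit 14))
    (@En.n l16472 (nat_lit 4733) (nat_lit 10) (nat_lit 11))
    (@En.i (nat_lit 2944) (nat_lit 11) (nat_lit 13))
    (@En.n l6674 (nat_lit 4726) (nat_lit 12) (nat_lit 7))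
    (@En.n l17 (nat_lit 3959) (nat_lit 5) (nat_lit 7))
    (@En.n l6636 (nat_lit 4676) (nat_lit 6) (nat_lit 3))
    (@En.n l699 (nat_lit 5144) (nat_lit 0) (nat_lit 7))
    (@En.n l50 (nat_lit 4737) (nat_lit 15) (nat_lit 2))))
  (@Cl.mk (nat_lit 0x20007000300070007000d000d000c000300030009000400090009000e000d) (nat_lit 0x1290040221a) (nat_lit 16) Lb.e (@T16.mk En
    (@En.n l24831 (nat_lit 4685) (nat_lit 2) (nat_lit 13))
    (@En.n l2038 (nat_lit 2212) (nat_lit 1) (nat_lit 14))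
    (@En.n l24832 (nat_lit 4752) (nat_lit 2) (nat_lit 9))
    (@En.n l6679 (nat_lit 3907) (nat_lit 3) (nat_lit 9))
    (@En.n l403 (nat_lit 4735) (nat_lit 4) (nat_lit 4))
    (@En.n l1353 (nat_lit 4531) (nat_lit 5) (nat_lit 9))
    (@En.n l18 (nat_lit 4740) (nat_lit 6) (nat_lit 3))
    (@En.n l24833 (nat_lit 4737) (nat_lit 7) (nat_lit 3))
    (@En.n l6444 (nat_lit 4739) (nat_lit 9) (nat_lit 12))
    (@En.n l24834 (nat_lit 4737) (nat_lit 10) (nat_lit 13))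
    (@En.n l6679 (nat_lit 2947) (nat_lit 11) (nat_lit 13))
    (@En.n l152 (nat_lit 4721) (nat_lit 12) (nat_lit 7))
    (@En.i (nat_lit 3685) (nat_lit 13) (nat_lit 7))
    (@En.n l22019 (nat_lit 4685) (nat_lit 14) (nat_lit 3))
    (@En.n l649 (nat_lit 5142) (nat_lit 0) (nat_lit 7))
    (@En.n l11 (nat_lit 4738) (nat_lit 15) (nat_lit 2))))
  (@Cl.mk (nat_lit 0x20008000300070007000e000c0002000d00080004000300090009000e000d) (nat_lit 0xc8014003317) (nat_lit 16) Lb.e (@T16.mk En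
    (@En.n l4319 (nat_lit 4741) (nat_lit 8) (nat_lit 13))
    (@En.n l2038 (nat_lit 2210) (nat_lit 1) (nat_lit 14))
    (@En.n l4320 (nat_lit 4751) (nat_lit 2) (nat_lit 9))
    (@En.n l3200 (nat_lit 7170) (nat_lit 11) (nat_lit 9))
    (@En.n l763 (nat_lit 4740) (nat_lit 4) (nat_lit 3))
    (@En.i (nat_lit 4794) (nat_lit 0) (nat_lit 4))
    (@En.n l3200 (nat_lit 5321) (nat_lit 14) (nat_lit 8))
    (@En.n l2026 (nat_lit 925) (nat_lit 8) (nat_lit 13))
    (@En.n l50 (nat_lit 4739) (nat_lit 8) (nat_lit 2))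
    (@En.n l217 (nat_lit 4735) (nat_lit 10) (nat_lit 12))
    (@En.n l476 (nat_lit 4866) (nat_lit 11) (nat_lit 14))
    (@En.n l152 (nat_lit 4725) (nat_lit 12) (nat_lit 7))
    (@En.i (nat_lit 3688) (nat_lit 13) (nat_lit 7))
    (@En.n l4321 (nat_lit 4741) (nat_lit 4) (nat_lit 3))
    (@En.n l4322 (nat_lit 7136) (nat_lit 0) (nat_lit 8))
    (@En.n l11 (nat_lit 4739) (nat_lit 15) (nat_lit 2))))
  (@Cl.mk (nat_lit 0x20007000300070007000e000d0002000d00030009000300090009000e000d) (nat_lit 0xa2020402314) (nat_lit 16) Lb.e (@T16.mk En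
    (@En.n l9927 (nat_lit 4742) (nat_lit 8) (nat_lit 13))
    (@En.n l2038 (nat_lit 2211) (nat_lit 1) (nat_lit 14))
    (@En.n l9928 (nat_lit 4750) (nat_lit 2) (nat_lit 9))
    (@En.i (nat_lit 3900) (nat_lit 11) (nat_lit 9))
    (@En.n l2364 (nat_lit 4739) (nat_lit 4) (nat_lit 3))
    (@En.i (nat_lit 12530) (nat_lit 5) (nat_lit 9))
    (@En.i (nat_lit 4738) (nat_lit 6) (nat_lit 3))
    (@En.i (nat_lit 930) (nat_lit 0) (nat_lit 13))
    (@En.n l50 (nat_lit 4740) (nat_lit 8) (nat_lit 2))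
    (@En.n l396 (nat_lit 4738) (nat_lit 10) (nat_lit 13))
    (@En.n l476 (nat_lit 4860) (nat_lit 11) (nat_lit 14))
    (@En.n l152 (nat_lit 4722) (nat_lit 12) (nat_lit 7))
    (@En.i (nat_lit 3684) (nat_lit 13) (nat_lit 7))
    (@En.n l11108 (nat_lit 4742) (nat_lit 4) (nat_lit 3))
    (@En.n l649 (nat_lit 5143) (nat_lit 0) (nat_lit 7))
    (@En.n l11 (nat_lit 4740) (nat_lit 15) (nat_lit 2))))
  (@Cl.mk (nat_lit 0x2000d00090004000300090009000d000d00070003000300070007000e000c) (nat_lit 0x1400346300000c5) (nat_lit 16) Lb.e (@T16.mk En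
    (@En.i (nat_lit 4677) (nat_lit 11) (nat_lit 12))
    (@En.i (nat_lit 4863) (nat_lit 1) (nat_lit 14))
    (@En.n l11624 (nat_lit 4723) (nat_lit 2) (nat_lit 7))
    (@En.n l11625 (nat_lit 3866) (nat_lit 3) (nat_lit 7))
    (@En.n l1341 (nat_lit 4739) (nat_lit 13) (nat_lit 3))
    (@En.n l7 (nat_lit 4745) (nat_lit 0) (nat_lit 3))
    (@En.n l11626 (nat_lit 5706) (nat_lit 0) (nat_lit 7))
    (@En.n l644 (nat_lit 4745) (nat_lit 3) (nat_lit 13))
    (@En.n l1353 (nat_lit 4398) (nat_lit 9) (nat_lit 13))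
    (@En.n l61 (nat_lit 4748) (nat_lit 10) (nat_lit 9))
    (@En.n l287 (nat_lit 7168) (nat_lit 11) (nat_lit 9))
    (@En.n l11 (nat_lit 4742) (nat_lit 11) (nat_lit 3))
    (@En.n l11614 (nat_lit 4795) (nat_lit 0) (nat_lit 4))
    (@En.i (nat_lit 4485) (nat_lit 14) (nat_lit 9))
    (@En.n l615 (nat_lit 701) (nat_lit 1) (nat_lit 13))
    (@En.n l3 (nat_lit 4741) (nat_lit 15) (nat_lit 2))))
  (@Cl.mk (nat_lit 0x2000d0003000a000300090009000d000d00060003000300070007000e000d) (nat_lit 0x2050233600000a2) (nat_lit 16) Lb.e (@T16.mk En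
    (@En.i (nat_lit 4685) (nat_lit 11) (nat_lit 13))
    (@En.i (nat_lit 4859) (nat_lit 1) (nat_lit 14))
    (@En.n l22667 (nat_lit 4720) (nat_lit 2) (nat_lit 7))
    (@En.n l22484 (nat_lit 4285) (nat_lit 3) (nat_lit 7))
    (@En.n l3644 (nat_lit 4740) (nat_lit 13) (nat_lit 3))
    (@En.n l7 (nat_lit 4744) (nat_lit 0) (nat_lit 3))
    (@En.n l8268 (nat_lit 5822) (nat_lit 0) (nat_lit 6))
    (@En.n l644 (nat_lit 4744) (nat_lit 3) (nat_lit 13))
    (@En.n l1353 (nat_lit 4405) (nat_lit 9) (nat_lit 13))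
    (@En.n l61 (nat_lit 4747) (nat_lit 10) (nat_lit 9))
    (@En.n l1353 (nat_lit 3906) (nat_lit 11) (nat_lit 9))
    (@En.i (nat_lit 4741) (nat_lit 11) (nat_lit 3))
    (@En.i (nat_lit 12532) (nat_lit 0) (nat_lit 10))
    (@En.n l117 (nat_lit 4685) (nat_lit 7) (nat_lit 3))
    (@En.n l1353 (nat_lit 709) (nat_lit 0) (nat_lit 13))
    (@En.n l3 (nat_lit 4742) (nat_lit 15) (nat_lit 2))))
  (@Cl.mk (nat_lit 0x200070007000d000d000c00030003000b000400090009000d0005000e0003) (nat_lit 0x12500101360c0) (nat_lit 16) Lb.e (@T16.mk En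
    (@En.i (nat_lit 4685) (nat_lit 15) (nat_lit 3))
    (@En.n l5553 (nat_lit 13284) (nat_lit 0) (nat_lit 14))
    (@En.i (nat_lit 5836) (nat_lit 2) (nat_lit 5))
    (@En.i (nat_lit 4402) (nat_lit 10) (nat_lit 13))
    (@En.n l61 (nat_lit 4695) (nat_lit 7) (nat_lit 9))
    (@En.n l649 (nat_lit 666) (nat_lit 5) (nat_lit 9))
    (@En.i (nat_lit 4757) (nat_lit 6) (nat_lit 4))
    (@En.i (nat_lit 4519) (nat_lit 8) (nat_lit 11))
    (@En.n l152 (nat_lit 4744) (nat_lit 8) (nat_lit 3))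
    (@En.n l5368 (nat_lit 4756) (nat_lit 9) (nat_lit 3))
    (@En.n l619 (nat_lit 4745) (nat_lit 11) (nat_lit 12))
    (@En.n l3471 (nat_lit 4756) (nat_lit 12) (nat_lit 13))
    (@En.i (nat_lit 2942) (nat_lit 13) (nat_lit 13))
    (@En.n l14508 (nat_lit 4716) (nat_lit 14) (nat_lit 7))
    (@En.n l6042 (nat_lit 4274) (nat_lit 4) (nat_lit 7))
    (@En.n l50 (nat_lit 4743) (nat_lit 15) (nat_lit 2))))
  (@Cl.mk (nat_lit 0x200070007000e000d0002000d0003000b000300090009000d0005000e0003) (nat_lit 0xa2010301350c0) (nat_lit 16) Lb.e (@T16.mk En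
    (@En.i (nat_lit 4742) (nat_lit 5) (nat_lit 3))
    (@En.n l5553 (nat_lit 13286) (nat_lit 0) (nat_lit 14))
    (@En.i (nat_lit 5837) (nat_lit 2) (nat_lit 5))
    (@En.n l1353 (nat_lit 4404) (nat_lit 9) (nat_lit 13))
    (@En.n l61 (nat_lit 4746) (nat_lit 10) (nat_lit 9))
    (@En.n l1353 (nat_lit 2663) (nat_lit 11) (nat_lit 9))
    (@En.i (nat_lit 4745) (nat_lit 6) (nat_lit 3))
    (@En.i (nat_lit 12538) (nat_lit 0) (nat_lit 11))
    (@En.n l117 (nat_lit 4743) (nat_lit 8) (nat_lit 3))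
    (@En.n l1353 (nat_lit 700) (nat_lit 10) (nat_lit 13))
    (@En.n l3 (nat_lit 4744) (nat_lit 10) (nat_lit 2))
    (@En.i (nat_lit 4743) (nat_lit 12) (nat_lit 13))
    (@En.i (nat_lit 4858) (nat_lit 13) (nat_lit 14))
    (@En.n l14508 (nat_lit 4719) (nat_lit 14) (nat_lit 7))
    (@En.n l6042 (nat_lit 4287) (nat_lit 3) (nat_lit 7))
    (@En.n l50 (nat_lit 4744) (nat_lit 15) (nat_lit 2))))
  (@Cl.mk (nat_lit 0x200070007000e000c0002000d000a0004000300090009000d0006000e0003) (nat_lit 0xc4024003320c0) (nat_lit 16) Lb.e (@T16.mk En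
    (@En.i (nat_lit 4741) (nat_lit 5) (nat_lit 3))
    (@En.n l5553 (nat_lit 13287) (nat_lit 0) (nat_lit 14))
    (@En.i (nat_lit 5306) (nat_lit 2) (nat_lit 6))
    (@En.n l1353 (nat_lit 4397) (nat_lit 9) (nat_lit 13))
    (@En.n l61 (nat_lit 4749) (nat_lit 10) (nat_lit 9))
    (@En.n l287 (nat_lit 7167) (nat_lit 11) (nat_lit 9))
    (@En.n l11 (nat_lit 4744) (nat_lit 6) (nat_lit 3))
    (@En.i (nat_lit 4799) (nat_lit 7) (nat_lit 4))
    (@En.n l55 (nat_lit 4486) (nat_lit 9) (nat_lit 10))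
    (@En.n l615 (nat_lit 703) (nat_lit 10) (nat_lit 13))
    (@En.n l3 (nat_lit 4745) (nat_lit 10) (nat_lit 2))
    (@En.i (nat_lit 4757) (nat_lit 12) (nat_lit 12))
    (@En.i (nat_lit 4867) (nat_lit 13) (nat_lit 14))
    (@En.n l14508 (nat_lit 4724) (nat_lit 14) (nat_lit 7))
    (@En.n l6042 (nat_lit 3864) (nat_lit 3) (nat_lit 7))
    (@En.n l50 (nat_lit 4745) (nat_lit 15) (nat_lit 2))))
  (@Cl.mk (nat_lit 0x2000d0003000c00030009000d0004000e00030002000e00070002000e000d) (nat_lit 0x2040230b00200a9) (nat_lit 16) Lb.e (@T16.mk En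
    (@En.i (nat_lit 4695) (nat_lit 14) (nat_lit 13))
    (@En.i (nat_lit 4753) (nat_lit 1) (nat_lit 14))
    (@En.n l17 (nat_lit 4746) (nat_lit 2) (nat_lit 2))
    (@En.i (nat_lit 4744) (nat_lit 14) (nat_lit 7))
    (@En.i (nat_lit 1064) (nat_lit 1) (nat_lit 14))
    (@En.n l50 (nat_lit 4746) (nat_lit 5) (nat_lit 2))
    (@En.i (nat_lit 4747) (nat_lit 6) (nat_lit 3))
    (@En.i (nat_lit 13288) (nat_lit 0) (nat_lit 14))
    (@En.i (nat_lit 5831) (nat_lit 8) (nat_lit 4))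
    (@En.i (nat_lit 4051) (nat_lit 10) (nat_lit 13))
    (@En.i (nat_lit 3788) (nat_lit 11) (nat_lit 9))
    (@En.i (nat_lit 4749) (nat_lit 11) (nat_lit 3))
    (@En.i (nat_lit 12533) (nat_lit 0) (nat_lit 12))
    (@En.n l117 (nat_lit 4695) (nat_lit 10) (nat_lit 3))
    (@En.i (nat_lit 710) (nat_lit 12) (nat_lit 13))
    (@En.n l3 (nat_lit 4746) (nat_lit 15) (nat_lit 2))))
  (@Cl.mk (nat_lit 0x2000d0003000b00030009000d000d000500030003000e00070002000e000d) (nat_lit 0x1070224000100a9) (nat_lit 16) Lb.e (@T16.mk En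
    (@En.i (nat_lit 4698) (nat_lit 14) (nat_lit 13))
    (@En.i (nat_lit 4754) (nat_lit 1) (nat_lit 14))
    (@En.n l17 (nat_lit 4747) (nat_lit 2) (nat_lit 2))
    (@En.i (nat_lit 4742) (nat_lit 3) (nat_lit 7))
    (@En.i (nat_lit 1069) (nat_lit 1) (nat_lit 14))
    (@En.i (nat_lit 4750) (nat_lit 13) (nat_lit 3))
    (@En.n l7 (nat_lit 4746) (nat_lit 6) (nat_lit 3))
    (@En.i (nat_lit 5823) (nat_lit 0) (nat_lit 5))
    (@En.n l644 (nat_lit 4746) (nat_lit 9) (nat_lit 13))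
    (@En.i (nat_lit 4054) (nat_lit 10) (nat_lit 13))
    (@En.n l564 (nat_lit 3839) (nat_lit 11) (nat_lit 9))
    (@En.i (nat_lit 4748) (nat_lit 11) (nat_lit 3))
    (@En.i (nat_lit 12531) (nat_lit 0) (nat_lit 11))
    (@En.n l117 (nat_lit 4698) (nat_lit 10) (nat_lit 3))
    (@En.i (nat_lit 705) (nat_lit 0) (nat_lit 13))
    (@En.n l3 (nat_lit 4747) (nat_lit 15) (nat_lit 2))))
  (@Cl.mk (nat_lit 0x2000d000a000400030009000d000d000600030003000e00070002000e000c) (nat_lit 0x2400312000100c9) (nat_lit 16) Lb.e (@T16.mk En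
    (@En.i (nat_lit 4692) (nat_lit 14) (nat_lit 12))
    (@En.i (nat_lit 4755) (nat_lit 1) (nat_lit 14))
    (@En.n l17 (nat_lit 4748) (nat_lit 2) (nat_lit 2))
    (@En.i (nat_lit 4741) (nat_lit 3) (nat_lit 7))
    (@En.i (nat_lit 298) (nat_lit 1) (nat_lit 14))
    (@En.i (nat_lit 4751) (nat_lit 13) (nat_lit 3))
    (@En.n l7 (nat_lit 4749) (nat_lit 6) (nat_lit 3))
    (@En.n l11 (nat_lit 5704) (nat_lit 0) (nat_lit 6))
    (@En.n l644 (nat_lit 4749) (nat_lit 9) (nat_lit 13))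
    (@En.i (nat_lit 3828) (nat_lit 10) (nat_lit 13))
    (@En.n l287 (nat_lit 7058) (nat_lit 11) (nat_lit 9))
    (@En.n l11 (nat_lit 4747) (nat_lit 11) (nat_lit 3))
    (@En.i (nat_lit 4792) (nat_lit 0) (nat_lit 4))
    (@En.i (nat_lit 5327) (nat_lit 14) (nat_lit 10))
    (@En.n l615 (nat_lit 707) (nat_lit 12) (nat_lit 13))
    (@En.n l3 (nat_lit 4748) (nat_lit 15) (nat_lit 2))))
  (@Cl.mk (nat_lit 0x2000d000b000400030009000d0005000e00030002000e00070002000e000c) (nat_lit 0x1000210b00100c9) (nat_lit 16) Lb.e (@T16.mk En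
    (@En.i (nat_lit 4693) (nat_lit 14) (nat_lit 12))
    (@En.i (nat_lit 7192) (nat_lit 1) (nat_lit 14))
    (@En.n l17 (nat_lit 4749) (nat_lit 2) (nat_lit 2))
    (@En.i (nat_lit 4745) (nat_lit 14) (nat_lit 7))
    (@En.i (nat_lit 295) (nat_lit 1) (nat_lit 14))
    (@En.n l50 (nat_lit 4749) (nat_lit 5) (nat_lit 2))
    (@En.i (nat_lit 4748) (nat_lit 6) (nat_lit 3))
    (@En.i (nat_lit 13289) (nat_lit 0) (nat_lit 14))
    (@En.i (nat_lit 5703) (nat_lit 8) (nat_lit 5))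
    (@En.i (nat_lit 3830) (nat_lit 10) (nat_lit 13))
    (@En.n l287 (nat_lit 7064) (nat_lit 11) (nat_lit 9))
    (@En.n l11 (nat_lit 4746) (nat_lit 11) (nat_lit 3))
    (@En.i (nat_lit 4796) (nat_lit 0) (nat_lit 4))
    (@En.n l55 (nat_lit 5330) (nat_lit 14) (nat_lit 11))
    (@En.n l615 (nat_lit 702) (nat_lit 12) (nat_lit 13))
    (@En.n l3 (nat_lit 4749) (nat_lit 15) (nat_lit 2))))
  (@Cl.mk (nat_lit 0x200060003000e00070002000e000d0002000d0003000a00030009000e000d) (nat_lit 0x200a902030213) (nat_lit 16) Lb.e (@T16.mk En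
    (@En.n l644 (nat_lit 4747) (nat_lit 9) (nat_lit 13))
    (@En.n l1337 (nat_lit 3730) (nat_lit 1) (nat_lit 14))
    (@En.n l564 (nat_lit 3837) (nat_lit 11) (nat_lit 9))
    (@En.i (nat_lit 4751) (nat_lit 3) (nat_lit 3))
    (@En.i (nat_lit 12529) (nat_lit 4) (nat_lit 10))
    (@En.n l117 (nat_lit 4752) (nat_lit 5) (nat_lit 3))
    (@En.n l564 (nat_lit 934) (nat_lit 7) (nat_lit 13))
    (@En.n l3 (nat_lit 4750) (nat_lit 7) (nat_lit 2))
    (@En.i (nat_lit 4752) (nat_lit 9) (nat_lit 13))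
    (@En.n l1337 (nat_lit 7206) (nat_lit 1) (nat_lit 14))
    (@En.n l17 (nat_lit 4750) (nat_lit 10) (nat_lit 2))
    (@En.n l3644 (nat_lit 4740) (nat_lit 12) (nat_lit 7))
    (@En.n l1342 (nat_lit 4771) (nat_lit 13) (nat_lit 14))
    (@En.n l1337 (nat_lit 4747) (nat_lit 5) (nat_lit 3))
    (@En.n l3645 (nat_lit 5146) (nat_lit 6) (nat_lit 6))
    (@En.n l50 (nat_lit 4750) (nat_lit 15) (nat_lit 2))))
  (@Cl.mk (nat_lit 0x200070003000e00070002000e000c0002000d0009000400030009000e000d) (nat_lit 0x200c801400212) (nat_lit 16) Lb.e (@T16.mk En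
    (@En.n l644 (nat_lit 4748) (nat_lit 9) (nat_lit 13))
    (@En.n l1337 (nat_lit 3731) (nat_lit 1) (nat_lit 14))
    (@En.n l1338 (nat_lit 7059) (nat_lit 11) (nat_lit 9))
    (@En.n l11 (nat_lit 4750) (nat_lit 3) (nat_lit 3))
    (@En.n l1339 (nat_lit 4790) (nat_lit 4) (nat_lit 4))
    (@En.n l1338 (nat_lit 5324) (nat_lit 5) (nat_lit 9))
    (@En.n l615 (nat_lit 706) (nat_lit 7) (nat_lit 13))
    (@En.n l3 (nat_lit 4751) (nat_lit 7) (nat_lit 2))
    (@En.i (nat_lit 4786) (nat_lit 9) (nat_lit 12))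
    (@En.n l1340 (nat_lit 7193) (nat_lit 1) (nat_lit 14))
    (@En.n l17 (nat_lit 4751) (nat_lit 10) (nat_lit 2))
    (@En.n l1341 (nat_lit 4739) (nat_lit 12) (nat_lit 7))
    (@En.n l1342 (nat_lit 4770) (nat_lit 1) (nat_lit 14))
    (@En.n l1337 (nat_lit 4748) (nat_lit 5) (nat_lit 3))
    (@En.n l1343 (nat_lit 7141) (nat_lit 6) (nat_lit 7))
    (@En.n l50 (nat_lit 4751) (nat_lit 15) (nat_lit 2))))
noncomputable def a297 : T16 Cl := @T16.mk Cl
  (@Cl.mk (nat_lit 0x200060003000e00070002000d000d000c00030003000a00040009000e000d) (nat_lit 0xb008990030119) (nat_lit 16) Lb.e (@T16.mk En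
    (@En.n l644 (nat_lit 4698) (nat_lit 6) (nat_lit 13))
    (@En.n l1337 (nat_lit 2655) (nat_lit 1) (nat_lit 14))
    (@En.n l4195 (nat_lit 3717) (nat_lit 2) (nat_lit 9))
    (@En.i (nat_lit 4786) (nat_lit 3) (nat_lit 4))
    (@En.n l3527 (nat_lit 4704) (nat_lit 4) (nat_lit 10))
    (@En.n l152 (nat_lit 4750) (nat_lit 5) (nat_lit 3))
    (@En.n l9956 (nat_lit 4784) (nat_lit 6) (nat_lit 3))
    (@En.n l619 (nat_lit 4751) (nat_lit 8) (nat_lit 12))
    (@En.n l1140 (nat_lit 4784) (nat_lit 9) (nat_lit 13))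
    (@En.n l4200 (nat_lit 7212) (nat_lit 10) (nat_lit 13))
    (@En.n l17 (nat_lit 4752) (nat_lit 10) (nat_lit 2))
    (@En.n l11227 (nat_lit 4738) (nat_lit 12) (nat_lit 7))
    (@En.n l4202 (nat_lit 2647) (nat_lit 1) (nat_lit 14))
    (@En.n l1337 (nat_lit 4698) (nat_lit 2) (nat_lit 3))
    (@En.n l644 (nat_lit 5145) (nat_lit 3) (nat_lit 6))
    (@En.n l50 (nat_lit 4752) (nat_lit 15) (nat_lit 2))))
  (@Cl.mk (nat_lit 0x20005000d0004000c00030009000d0004000e00030002000b0007000e000c) (nat_lit 0x20401a03009094) (nat_lit 16) Lb.e (@T16.mk En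
    (@En.i (nat_lit 7303) (nat_lit 12) (nat_lit 12))
    (@En.i (nat_lit 4857) (nat_lit 1) (nat_lit 14))
    (@En.i (nat_lit 4858) (nat_lit 14) (nat_lit 7))
    (@En.i (nat_lit 11972) (nat_lit 3) (nat_lit 11))
    (@En.n l50 (nat_lit 4753) (nat_lit 4) (nat_lit 2))
    (@En.i (nat_lit 4754) (nat_lit 5) (nat_lit 3))
    (@En.i (nat_lit 13292) (nat_lit 0) (nat_lit 14))
    (@En.i (nat_lit 7474) (nat_lit 7) (nat_lit 4))
    (@En.i (nat_lit 8311) (nat_lit 9) (nat_lit 13))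
    (@En.i (nat_lit 3916) (nat_lit 10) (nat_lit 9))
    (@En.i (nat_lit 7192) (nat_lit 10) (nat_lit 3))
    (@En.i (nat_lit 8114) (nat_lit 12) (nat_lit 12))
    (@En.n l117 (nat_lit 4339) (nat_lit 7) (nat_lit 4))
    (@En.n l617 (nat_lit 4744) (nat_lit 9) (nat_lit 13))
    (@En.i (nat_lit 5579) (nat_lit 9) (nat_lit 5))
    (@En.n l3 (nat_lit 4753) (nat_lit 15) (nat_lit 2))))
  (@Cl.mk (nat_lit 0x20005000d0004000b00030009000d000d000500030003000b0007000e000c) (nat_lit 0x30501ab0006095) (nat_lit 16) Lb.e (@T16.mk En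
    (@En.i (nat_lit 7207) (nat_lit 11) (nat_lit 12))
    (@En.i (nat_lit 4856) (nat_lit 1) (nat_lit 14))
    (@En.i (nat_lit 4859) (nat_lit 2) (nat_lit 7))
    (@En.i (nat_lit 11974) (nat_lit 3) (nat_lit 11))
    (@En.n l1337 (nat_lit 7206) (nat_lit 4) (nat_lit 3))
    (@En.n l7 (nat_lit 4753) (nat_lit 5) (nat_lit 3))
    (@En.i (nat_lit 8186) (nat_lit 6) (nat_lit 5))
    (@En.n l644 (nat_lit 4753) (nat_lit 8) (nat_lit 13))
    (@En.i (nat_lit 8529) (nat_lit 9) (nat_lit 13))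
    (@En.n l564 (nat_lit 3592) (nat_lit 10) (nat_lit 9))
    (@En.i (nat_lit 4755) (nat_lit 10) (nat_lit 3))
    (@En.i (nat_lit 12090) (nat_lit 12) (nat_lit 11))
    (@En.n l117 (nat_lit 4340) (nat_lit 6) (nat_lit 4))
    (@En.n l617 (nat_lit 4742) (nat_lit 14) (nat_lit 13))
    (@En.i (nat_lit 2958) (nat_lit 13) (nat_lit 5))
    (@En.n l3 (nat_lit 4754) (nat_lit 15) (nat_lit 2))))
  (@Cl.mk (nat_lit 0x20005000d000a000500030009000d000d000600030003000b0007000e000b) (nat_lit 0x200020000060b6) (nat_lit 16) Lb.e (@T16.mk En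
    (@En.n l11547 (nat_lit 7115) (nat_lit 11) (nat_lit 11))
    (@En.i (nat_lit 4862) (nat_lit 1) (nat_lit 14))
    (@En.i (nat_lit 4863) (nat_lit 2) (nat_lit 7))
    (@En.i (nat_lit 12179) (nat_lit 3) (nat_lit 11))
    (@En.n l1340 (nat_lit 7193) (nat_lit 4) (nat_lit 3))
    (@En.n l7 (nat_lit 7192) (nat_lit 5) (nat_lit 3))
    (@En.n l11 (nat_lit 7709) (nat_lit 6) (nat_lit 6))
    (@En.n l644 (nat_lit 7192) (nat_lit 8) (nat_lit 13))
    (@En.i (nat_lit 8485) (nat_lit 9) (nat_lit 13))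
    (@En.n l287 (nat_lit 7056) (nat_lit 10) (nat_lit 9))
    (@En.n l11 (nat_lit 4754) (nat_lit 10) (nat_lit 3))
    (@En.i (nat_lit 7194) (nat_lit 0) (nat_lit 5))
    (@En.i (nat_lit 8705) (nat_lit 13) (nat_lit 10))
    (@En.n l617 (nat_lit 4741) (nat_lit 14) (nat_lit 13))
    (@En.i (nat_lit 4489) (nat_lit 13) (nat_lit 5))
    (@En.n l3 (nat_lit 4755) (nat_lit 15) (nat_lit 2))))
  (@Cl.mk (nat_lit 0x200070007000d000b000e00030002000b000500090009000d0005000e0003) (nat_lit 0x1890020137040) (nat_lit 16) Lb.e (@T16.mk En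
    (@En.n l4750 (nat_lit 4676) (nat_lit 7) (nat_lit 3))
    (@En.n l253 (nat_lit 13283) (nat_lit 0) (nat_lit 14))
    (@En.n l12978 (nat_lit 5835) (nat_lit 2) (nat_lit 5))
    (@En.i (nat_lit 4409) (nat_lit 11) (nat_lit 13))
    (@En.n l1504 (nat_lit 4697) (nat_lit 12) (nat_lit 9))
    (@En.n l513 (nat_lit 662) (nat_lit 5) (nat_lit 9))
    (@En.i (nat_lit 4675) (nat_lit 14) (nat_lit 5))
    (@En.n l513 (nat_lit 4518) (nat_lit 8) (nat_lit 11))
    (@En.n l17 (nat_lit 4756) (nat_lit 8) (nat_lit 2))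
    (@En.n l2843 (nat_lit 4743) (nat_lit 9) (nat_lit 3))
    (@En.i (nat_lit 13232) (nat_lit 0) (nat_lit 14))
    (@En.n l1330 (nat_lit 4758) (nat_lit 12) (nat_lit 11))
    (@En.n l2383 (nat_lit 2939) (nat_lit 13) (nat_lit 13))
    (@En.i (nat_lit 4717) (nat_lit 14) (nat_lit 7))
    (@En.n l253 (nat_lit 4270) (nat_lit 5) (nat_lit 7))
    (@En.n l28 (nat_lit 4756) (nat_lit 15) (nat_lit 2))))
  (@Cl.mk (nat_lit 0x200070007000c000c000c000900040004000400090009000d0007000e0003) (nat_lit 0x3696000456040) (nat_lit 16) Lb.e (@T16.mk En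
    (@En.i (nat_lit 4677) (nat_lit 15) (nat_lit 3))
    (@En.n l5553 (nat_lit 13155) (nat_lit 0) (nat_lit 14))
    (@En.i (nat_lit 5304) (nat_lit 2) (nat_lit 7))
    (@En.i (nat_lit 4395) (nat_lit 4) (nat_lit 13))
    (@En.n l61 (nat_lit 4693) (nat_lit 7) (nat_lit 9))
    (@En.n l287 (nat_lit 7079) (nat_lit 5) (nat_lit 9))
    (@En.n l11 (nat_lit 4758) (nat_lit 6) (nat_lit 4))
    (@En.n l152 (nat_lit 4745) (nat_lit 7) (nat_lit 4))
    (@En.n l936 (nat_lit 4681) (nat_lit 8) (nat_lit 4))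
    (@En.n l55 (nat_lit 4484) (nat_lit 10) (nat_lit 9))
    (@En.n l619 (nat_lit 4799) (nat_lit 11) (nat_lit 12))
    (@En.n l3471 (nat_lit 4675) (nat_lit 4) (nat_lit 12))
    (@En.i (nat_lit 7272) (nat_lit 13) (nat_lit 12))
    (@En.n l14508 (nat_lit 4727) (nat_lit 14) (nat_lit 7))
    (@En.n l6042 (nat_lit 3861) (nat_lit 14) (nat_lit 7))
    (@En.n l50 (nat_lit 4757) (nat_lit 15) (nat_lit 2))))
  (@Cl.mk (nat_lit 0x200070007000b000e000c0002000a0005000400090009000d0006000e0003) (nat_lit 0x7970200243040) (nat_lit 16) Lb.e (@T16.mk En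
    (@En.n l9883 (nat_lit 4734) (nat_lit 6) (nat_lit 3))
    (@En.n l5553 (nat_lit 13285) (nat_lit 0) (nat_lit 14))
    (@En.i (nat_lit 4760) (nat_lit 2) (nat_lit 6))
    (@En.n l3471 (nat_lit 4435) (nat_lit 10) (nat_lit 13))
    (@En.n l61 (nat_lit 4690) (nat_lit 11) (nat_lit 9))
    (@En.n l645 (nat_lit 3527) (nat_lit 5) (nat_lit 9))
    (@En.i (nat_lit 4743) (nat_lit 6) (nat_lit 4))
    (@En.n l9885 (nat_lit 4686) (nat_lit 14) (nat_lit 5))
    (@En.n l8015 (nat_lit 3411) (nat_lit 9) (nat_lit 10))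
    (@En.n l67 (nat_lit 4758) (nat_lit 9) (nat_lit 2))
    (@En.n l68 (nat_lit 4757) (nat_lit 11) (nat_lit 12))
    (@En.n l3471 (nat_lit 3372) (nat_lit 4) (nat_lit 14))
    (@En.n l9885 (nat_lit 7273) (nat_lit 13) (nat_lit 11))
    (@En.n l14508 (nat_lit 4759) (nat_lit 14) (nat_lit 7))
    (@En.n l6042 (nat_lit 1030) (nat_lit 4) (nat_lit 7))
    (@En.n l50 (nat_lit 4758) (nat_lit 15) (nat_lit 2))))
  (@Cl.mk (nat_lit 0x20007000b000e000c0002000900050004000e00090002000d0007000e0003) (nat_lit 0x6660300c301050) (nat_lit 16) Lb.e (@T16.mk En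
    (@En.n l9380 (nat_lit 4732) (nat_lit 5) (nat_lit 3))
    (@En.i (nat_lit 13204) (nat_lit 0) (nat_lit 14))
    (@En.n l9718 (nat_lit 4765) (nat_lit 2) (nat_lit 7))
    (@En.n l7200 (nat_lit 2322) (nat_lit 9) (nat_lit 13))
    (@En.n l7 (nat_lit 4759) (nat_lit 4) (nat_lit 2))
    (@En.n l2140 (nat_lit 4758) (nat_lit 5) (nat_lit 9))
    (@En.n l4483 (nat_lit 3672) (nat_lit 1) (nat_lit 14))
    (@En.i (nat_lit 4716) (nat_lit 7) (nat_lit 4))
    (@En.n l4624 (nat_lit 4812) (nat_lit 14) (nat_lit 5))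
    (@En.n l9718 (nat_lit 3405) (nat_lit 10) (nat_lit 9))
    (@En.n l67 (nat_lit 4759) (nat_lit 10) (nat_lit 2))
    (@En.n l68 (nat_lit 4727) (nat_lit 12) (nat_lit 12))
    (@En.n l7200 (nat_lit 3388) (nat_lit 4) (nat_lit 14))
    (@En.n l31820 (nat_lit 3540) (nat_lit 2) (nat_lit 11))
    (@En.n l9718 (nat_lit 3740) (nat_lit 3) (nat_lit 7))
    (@En.n l17 (nat_lit 4759) (nat_lit 15) (nat_lit 2))))
  (@Cl.mk (nat_lit 0x200060006000a000e000b0002000a000900060005000a000a0006000e0007) (nat_lit 0x67400200250a0) (nat_lit 16) Lb.e (@T16.mk En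
    (@En.n l20066 (nat_lit 5726) (nat_lit 6) (nat_lit 7))
    (@En.n l601 (nat_lit 4761) (nat_lit 8) (nat_lit 14))
    (@En.n l12851 (nat_lit 7011) (nat_lit 2) (nat_lit 6))
    (@En.n l61 (nat_lit 5834) (nat_lit 6) (nat_lit 10))
    (@En.n l645 (nat_lit 7936) (nat_lit 4) (nat_lit 10))
    (@En.i (nat_lit 5836) (nat_lit 5) (nat_lit 5))
    (@En.n l8498 (nat_lit 9211) (nat_lit 6) (nat_lit 6))
    (@En.n l22341 (nat_lit 4734) (nat_lit 14) (nat_lit 9))
    (@En.n l8015 (nat_lit 9327) (nat_lit 9) (nat_lit 10))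
    (@En.n l67 (nat_lit 4760) (nat_lit 9) (nat_lit 2))
    (@En.n l68 (nat_lit 5304) (nat_lit 11) (nat_lit 11))
    (@En.n l3471 (nat_lit 4940) (nat_lit 12) (nat_lit 14))
    (@En.n l22342 (nat_lit 6502) (nat_lit 13) (nat_lit 10))
    (@En.n l22343 (nat_lit 4765) (nat_lit 14) (nat_lit 6))
    (@En.n l8421 (nat_lit 7009) (nat_lit 4) (nat_lit 6))
    (@En.n l50 (nat_lit 4760) (nat_lit 15) (nat_lit 2))))
  (@Cl.mk (nat_lit 0x20007000a00060005000a000a000e00060002000900060006000a000e000b) (nat_lit 0x30023900000671) (nat_lit 16) Lb.e (@T16.mk En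
    (@En.n l68 (nat_lit 1647) (nat_lit 10) (nat_lit 11))
    (@En.n l3471 (nat_lit 4976) (nat_lit 11) (nat_lit 14))
    (@En.n l12598 (nat_lit 6513) (nat_lit 2) (nat_lit 10))
    (@En.n l26402 (nat_lit 4763) (nat_lit 3) (nat_lit 6))
    (@En.n l1723 (nat_lit 7152) (nat_lit 14) (nat_lit 6))
    (@En.n l26403 (nat_lit 4762) (nat_lit 5) (nat_lit 9))
    (@En.n l7 (nat_lit 4761) (nat_lit 6) (nat_lit 2))
    (@En.n l26404 (nat_lit 4762) (nat_lit 7) (nat_lit 6))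
    (@En.n l3471 (nat_lit 6965) (nat_lit 9) (nat_lit 14))
    (@En.n l61 (nat_lit 4769) (nat_lit 10) (nat_lit 10))
    (@En.n l645 (nat_lit 7883) (nat_lit 3) (nat_lit 10))
    (@En.i (nat_lit 5847) (nat_lit 4) (nat_lit 5))
    (@En.n l2131 (nat_lit 9209) (nat_lit 13) (nat_lit 6))
    (@En.i (nat_lit 4758) (nat_lit 8) (nat_lit 10))
    (@En.n l197 (nat_lit 7568) (nat_lit 7) (nat_lit 7))
    (@En.n l67 (nat_lit 4761) (nat_lit 15) (nat_lit 2))))
  (@Cl.mk (nat_lit 0x20007000a000a00070006000b000b000600060009000500050009000e000a) (nat_lit 0x14002300700561) (nat_lit 16) Lb.e (@T16.mk En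
    (@En.n l30914 (nat_lit 1643) (nat_lit 12) (nat_lit 10))
    (@En.n l30915 (nat_lit 4921) (nat_lit 1) (nat_lit 14))
    (@En.n l21905 (nat_lit 6511) (nat_lit 2) (nat_lit 9))
    (@En.n l30916 (nat_lit 4764) (nat_lit 3) (nat_lit 5))
    (@En.n l28 (nat_lit 6482) (nat_lit 4) (nat_lit 5))
    (@En.n l3 (nat_lit 4766) (nat_lit 5) (nat_lit 9))
    (@En.n l527 (nat_lit 4766) (nat_lit 6) (nat_lit 6))
    (@En.n l11778 (nat_lit 6535) (nat_lit 7) (nat_lit 6))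
    (@En.n l11780 (nat_lit 4768) (nat_lit 9) (nat_lit 11))
    (@En.i (nat_lit 7884) (nat_lit 10) (nat_lit 11))
    (@En.n l2579 (nat_lit 5901) (nat_lit 10) (nat_lit 6))
    (@En.n l17786 (nat_lit 8199) (nat_lit 12) (nat_lit 7))
    (@En.n l30917 (nat_lit 4761) (nat_lit 13) (nat_lit 10))
    (@En.n l30918 (nat_lit 4760) (nat_lit 8) (nat_lit 10))
    (@En.n l9964 (nat_lit 7569) (nat_lit 13) (nat_lit 7))
    (@En.n l17 (nat_lit 4762) (nat_lit 15) (nat_lit 2))))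
  (@Cl.mk (nat_lit 0x20006000900060005000e000a0002000e00070002000a0006000a000e000b) (nat_lit 0x40073040000571) (nat_lit 16) Lb.e (@T16.mk En
    (@En.n l25412 (nat_lit 1644) (nat_lit 11) (nat_lit 11))
    (@En.n l1461 (nat_lit 4977) (nat_lit 12) (nat_lit 14))
    (@En.i (nat_lit 1351) (nat_lit 2) (nat_lit 10))
    (@En.n l25413 (nat_lit 7150) (nat_lit 14) (nat_lit 6))
    (@En.n l612 (nat_lit 4764) (nat_lit 4) (nat_lit 10))
    (@En.n l50 (nat_lit 4763) (nat_lit 5) (nat_lit 2))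
    (@En.i (nat_lit 4764) (nat_lit 6) (nat_lit 7))
    (@En.n l1461 (nat_lit 6957) (nat_lit 1) (nat_lit 14))
    (@En.n l28 (nat_lit 4763) (nat_lit 8) (nat_lit 2))
    (@En.n l25414 (nat_lit 4761) (nat_lit 10) (nat_lit 10))
    (@En.n l10873 (nat_lit 4644) (nat_lit 11) (nat_lit 14))
    (@En.n l25413 (nat_lit 5841) (nat_lit 5) (nat_lit 5))
    (@En.i (nat_lit 9208) (nat_lit 13) (nat_lit 6))
    (@En.n l25413 (nat_lit 4759) (nat_lit 9) (nat_lit 9))
    (@En.i (nat_lit 6454) (nat_lit 8) (nat_lit 6))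
    (@En.n l3 (nat_lit 4763) (nat_lit 15) (nat_lit 2))))
  (@Cl.mk (nat_lit 0x200060009000900070006000e000b000200070007000a00050009000e000a) (nat_lit 0x5008300080471) (nat_lit 16) Lb.e (@T16.mk En
    (@En.i (nat_lit 1640) (nat_lit 9) (nat_lit 10))
    (@En.n l1461 (nat_lit 4880) (nat_lit 10) (nat_lit 14))
    (@En.i (nat_lit 1349) (nat_lit 2) (nat_lit 9))
    (@En.n l211 (nat_lit 6196) (nat_lit 3) (nat_lit 5))
    (@En.n l16051 (nat_lit 4767) (nat_lit 4) (nat_lit 10))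
    (@En.n l16052 (nat_lit 4767) (nat_lit 5) (nat_lit 7))
    (@En.n l15986 (nat_lit 7543) (nat_lit 6) (nat_lit 7))
    (@En.n l28 (nat_lit 4764) (nat_lit 7) (nat_lit 2))
    (@En.n l16053 (nat_lit 4762) (nat_lit 9) (nat_lit 11))
    (@En.n l1267 (nat_lit 1938) (nat_lit 10) (nat_lit 14))
    (@En.n l10848 (nat_lit 5842) (nat_lit 2) (nat_lit 6))
    (@En.n l15983 (nat_lit 8556) (nat_lit 3) (nat_lit 7))
    (@En.n l644 (nat_lit 4763) (nat_lit 13) (nat_lit 9))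
    (@En.n l211 (nat_lit 4765) (nat_lit 9) (nat_lit 9))
    (@En.n l16054 (nat_lit 5035) (nat_lit 6) (nat_lit 6))
    (@En.n l3 (nat_lit 4764) (nat_lit 15) (nat_lit 2))))
  (@Cl.mk (nat_lit 0x20006000a000e000b00020009000800060005000e000a00020007000e0008) (nat_lit 0x57307300a30050) (nat_lit 16) Lb.e (@T16.mk En
    (@En.n l24661 (nat_lit 5729) (nat_lit 13) (nat_lit 8))
    (@En.n l24662 (nat_lit 4763) (nat_lit 7) (nat_lit 14))
    (@En.n l8769 (nat_lit 6948) (nat_lit 2) (nat_lit 7))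
    (@En.n l28 (nat_lit 4765) (nat_lit 3) (nat_lit 2))
    (@En.n l958 (nat_lit 4760) (nat_lit 4) (nat_lit 10))
    (@En.n l8769 (nat_lit 4632) (nat_lit 6) (nat_lit 14))
    (@En.n l1459 (nat_lit 5838) (nat_lit 6) (nat_lit 5))
    (@En.n l13712 (nat_lit 9212) (nat_lit 7) (nat_lit 6))
    (@En.i (nat_lit 4732) (nat_lit 14) (nat_lit 8))
    (@En.n l14711 (nat_lit 9321) (nat_lit 5) (nat_lit 9))
    (@En.n l3 (nat_lit 4765) (nat_lit 10) (nat_lit 2))
    (@En.n l6901 (nat_lit 5302) (nat_lit 12) (nat_lit 11))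
    (@En.n l3380 (nat_lit 4872) (nat_lit 13) (nat_lit 14))
    (@En.n l2585 (nat_lit 3219) (nat_lit 2) (nat_lit 10))
    (@En.i (nat_lit 6189) (nat_lit 3) (nat_lit 6))
    (@En.n l776 (nat_lit 4765) (nat_lit 15) (nat_lit 2))))
  (@Cl.mk (nat_lit 0x20007000e000a000200080007000c000c00060009000400040008000e0009) (nat_lit 0xb2040230600451) (nat_lit 16) Lb.e (@T16.mk En
    (@En.n l2805 (nat_lit 1646) (nat_lit 4) (nat_lit 9))
    (@En.n l998 (nat_lit 4920) (nat_lit 6) (nat_lit 14))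
    (@En.n l13081 (nat_lit 6510) (nat_lit 2) (nat_lit 8))
    (@En.n l9965 (nat_lit 4767) (nat_lit 3) (nat_lit 4))
    (@En.n l28 (nat_lit 6480) (nat_lit 8) (nat_lit 4))
    (@En.i (nat_lit 12782) (nat_lit 9) (nat_lit 9))
    (@En.i (nat_lit 6534) (nat_lit 6) (nat_lit 6))
    (@En.n l77 (nat_lit 4957) (nat_lit 12) (nat_lit 12))
    (@En.i (nat_lit 7886) (nat_lit 13) (nat_lit 12))
    (@En.n l2579 (nat_lit 5903) (nat_lit 14) (nat_lit 7))
    (@En.n l998 (nat_lit 8196) (nat_lit 11) (nat_lit 8))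
    (@En.n l107 (nat_lit 4766) (nat_lit 11) (nat_lit 2))
    (@En.i (nat_lit 4762) (nat_lit 13) (nat_lit 10))
    (@En.n l97 (nat_lit 5733) (nat_lit 1) (nat_lit 14))
    (@En.n l9964 (nat_lit 7573) (nat_lit 2) (nat_lit 7))
    (@En.n l17 (nat_lit 4766) (nat_lit 15) (nat_lit 2))))
  (@Cl.mk (nat_lit 0x20006000e0009000200080007000e000c00020007000a00040008000e0009) (nat_lit 0xb1000930070361) (nat_lit 16) Lb.e (@T16.mk En
    (@En.n l7273 (nat_lit 1645) (nat_lit 4) (nat_lit 9))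
    (@En.n l7274 (nat_lit 4924) (nat_lit 6) (nat_lit 14))
    (@En.n l7275 (nat_lit 1350) (nat_lit 2) (nat_lit 8))
    (@En.n l1386 (nat_lit 6478) (nat_lit 7) (nat_lit 4))
    (@En.n l387 (nat_lit 12783) (nat_lit 8) (nat_lit 10))
    (@En.n l3486 (nat_lit 5804) (nat_lit 5) (nat_lit 7))
    (@En.n l3 (nat_lit 4767) (nat_lit 6) (nat_lit 2))
    (@En.n l4037 (nat_lit 4766) (nat_lit 8) (nat_lit 12))
    (@En.n l3486 (nat_lit 1982) (nat_lit 9) (nat_lit 14))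
    (@En.i (nat_lit 6048) (nat_lit 2) (nat_lit 7))
    (@En.n l7276 (nat_lit 8555) (nat_lit 3) (nat_lit 8))
    (@En.n l18 (nat_lit 4767) (nat_lit 11) (nat_lit 2))
    (@En.n l7277 (nat_lit 4764) (nat_lit 13) (nat_lit 9))
    (@En.n l7278 (nat_lit 5734) (nat_lit 7) (nat_lit 14))
    (@En.i (nat_lit 5034) (nat_lit 2) (nat_lit 6))
    (@En.n l172 (nat_lit 4767) (nat_lit 15) (nat_lit 2))))
noncomputable def a298 : T16 Cl := @T16.mk Cl
  (@Cl.mk (nat_lit 0x20008000b000b00070006000b000500050008000e000500020009000e000a) (nat_lit 0x603002000300675) (nat_lit 16) Lb.e (@T16.mk En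
    (@En.n l6953 (nat_lit 5196) (nat_lit 13) (nat_lit 10))
    (@En.n l5 (nat_lit 4952) (nat_lit 1) (nat_lit 14))
    (@En.n l16633 (nat_lit 6506) (nat_lit 2) (nat_lit 9))
    (@En.n l7 (nat_lit 4768) (nat_lit 3) (nat_lit 2))
    (@En.n l5732 (nat_lit 4762) (nat_lit 4) (nat_lit 5))
    (@En.n l615 (nat_lit 2463) (nat_lit 6) (nat_lit 14))
    (@En.n l159 (nat_lit 4957) (nat_lit 10) (nat_lit 8))
    (@En.n l11 (nat_lit 4957) (nat_lit 11) (nat_lit 5))
    (@En.n l21442 (nat_lit 6492) (nat_lit 8) (nat_lit 5))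
    (@En.i (nat_lit 7879) (nat_lit 10) (nat_lit 11))
    (@En.n l35557 (nat_lit 5892) (nat_lit 6) (nat_lit 6))
    (@En.n l26237 (nat_lit 8190) (nat_lit 7) (nat_lit 7))
    (@En.n l35558 (nat_lit 4769) (nat_lit 13) (nat_lit 11))
    (@En.n l21442 (nat_lit 5834) (nat_lit 10) (nat_lit 11))
    (@En.n l27465 (nat_lit 7576) (nat_lit 11) (nat_lit 8))
    (@En.n l17 (nat_lit 4768) (nat_lit 15) (nat_lit 2))))
  (@Cl.mk (nat_lit 0x20008000b00060005000a000e000500020008000e00060002000a000e000b) (nat_lit 0x320028001200720) (nat_lit 16) Lb.e (@T16.mk En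
    (@En.n l68 (nat_lit 5197) (nat_lit 9) (nat_lit 11))
    (@En.n l645 (nat_lit 4948) (nat_lit 10) (nat_lit 14))
    (@En.i (nat_lit 5286) (nat_lit 2) (nat_lit 10))
    (@En.n l17 (nat_lit 4769) (nat_lit 3) (nat_lit 2))
    (@En.i (nat_lit 4761) (nat_lit 4) (nat_lit 6))
    (@En.n l888 (nat_lit 2530) (nat_lit 6) (nat_lit 14))
    (@En.n l19849 (nat_lit 4768) (nat_lit 6) (nat_lit 8))
    (@En.n l7 (nat_lit 4769) (nat_lit 7) (nat_lit 2))
    (@En.n l19850 (nat_lit 4768) (nat_lit 8) (nat_lit 5))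
    (@En.i (nat_lit 5832) (nat_lit 10) (nat_lit 14))
    (@En.n l645 (nat_lit 7880) (nat_lit 2) (nat_lit 10))
    (@En.i (nat_lit 5898) (nat_lit 3) (nat_lit 5))
    (@En.i (nat_lit 9210) (nat_lit 4) (nat_lit 6))
    (@En.i (nat_lit 4690) (nat_lit 14) (nat_lit 11))
    (@En.n l197 (nat_lit 7580) (nat_lit 6) (nat_lit 8))
    (@En.n l67 (nat_lit 4769) (nat_lit 15) (nat_lit 2))))
  (@Cl.mk (nat_lit 0x20006000e000c0002000d000900040003000a000e000a00020007000e0006) (nat_lit 0xca013008310010) (nat_lit 16) Lb.e (@T16.mk En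
    (@En.n l17 (nat_lit 3683) (nat_lit 13) (nat_lit 6))
    (@En.i (nat_lit 1227) (nat_lit 1) (nat_lit 14))
    (@En.n l2518 (nat_lit 5889) (nat_lit 2) (nat_lit 7))
    (@En.n l3 (nat_lit 4770) (nat_lit 3) (nat_lit 2))
    (@En.n l2519 (nat_lit 2642) (nat_lit 4) (nat_lit 10))
    (@En.n l2520 (nat_lit 4724) (nat_lit 6) (nat_lit 14))
    (@En.n l2521 (nat_lit 11011) (nat_lit 11) (nat_lit 10))
    (@En.n l50 (nat_lit 4771) (nat_lit 3) (nat_lit 3))
    (@En.n l2522 (nat_lit 4772) (nat_lit 8) (nat_lit 4))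
    (@En.i (nat_lit 2074) (nat_lit 5) (nat_lit 9))
    (@En.n l2523 (nat_lit 628) (nat_lit 11) (nat_lit 13))
    (@En.n l28 (nat_lit 4770) (nat_lit 11) (nat_lit 2))
    (@En.n l2524 (nat_lit 3031) (nat_lit 13) (nat_lit 12))
    (@En.n l862 (nat_lit 11639) (nat_lit 10) (nat_lit 14))
    (@En.n l2522 (nat_lit 3866) (nat_lit 2) (nat_lit 6))
    (@En.n l725 (nat_lit 4770) (nat_lit 15) (nat_lit 2))))
  (@Cl.mk (nat_lit 0x20006000e000600020006000e000d0002000d0003000a0003000a000e000a) (nat_lit 0x1000aa02060851) (nat_lit 16) Lb.e (@T16.mk En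
    (@En.n l2519 (nat_lit 2643) (nat_lit 4) (nat_lit 10))
    (@En.n l2520 (nat_lit 4719) (nat_lit 6) (nat_lit 14))
    (@En.i (nat_lit 5575) (nat_lit 2) (nat_lit 10))
    (@En.i (nat_lit 4770) (nat_lit 7) (nat_lit 3))
    (@En.i (nat_lit 4774) (nat_lit 4) (nat_lit 10))
    (@En.n l7057 (nat_lit 2647) (nat_lit 9) (nat_lit 3))
    (@En.n l7058 (nat_lit 696) (nat_lit 11) (nat_lit 13))
    (@En.n l28 (nat_lit 4771) (nat_lit 7) (nat_lit 2))
    (@En.n l2524 (nat_lit 2647) (nat_lit 13) (nat_lit 13))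
    (@En.n l862 (nat_lit 11636) (nat_lit 10) (nat_lit 14))
    (@En.n l2644 (nat_lit 4285) (nat_lit 2) (nat_lit 6))
    (@En.n l725 (nat_lit 4771) (nat_lit 11) (nat_lit 2))
    (@En.n l17 (nat_lit 3681) (nat_lit 13) (nat_lit 6))
    (@En.i (nat_lit 1226) (nat_lit 1) (nat_lit 14))
    (@En.n l1081 (nat_lit 7367) (nat_lit 2) (nat_lit 6))
    (@En.n l3 (nat_lit 4771) (nat_lit 15) (nat_lit 2))))
  (@Cl.mk (nat_lit 0x20006000d000c00070003000e00040002000a000e000a00020009000e0006) (nat_lit 0xb1001008c104a0) (nat_lit 16) Lb.e (@T16.mk En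
    (@En.n l1769 (nat_lit 3693) (nat_lit 13) (nat_lit 6))
    (@En.n l7141 (nat_lit 2998) (nat_lit 10) (nat_lit 14))
    (@En.n l7142 (nat_lit 5879) (nat_lit 2) (nat_lit 9))
    (@En.n l11 (nat_lit 4772) (nat_lit 3) (nat_lit 2))
    (@En.n l7143 (nat_lit 1164) (nat_lit 4) (nat_lit 10))
    (@En.n l3062 (nat_lit 4802) (nat_lit 6) (nat_lit 14))
    (@En.i (nat_lit 11005) (nat_lit 2) (nat_lit 10))
    (@En.n l17 (nat_lit 4772) (nat_lit 7) (nat_lit 2))
    (@En.n l7144 (nat_lit 3031) (nat_lit 8) (nat_lit 4))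
    (@En.n l7145 (nat_lit 697) (nat_lit 10) (nat_lit 14))
    (@En.n l50 (nat_lit 4773) (nat_lit 10) (nat_lit 3))
    (@En.n l2667 (nat_lit 2113) (nat_lit 12) (nat_lit 7))
    (@En.n l217 (nat_lit 1167) (nat_lit 13) (nat_lit 12))
    (@En.i (nat_lit 12249) (nat_lit 6) (nat_lit 13))
    (@En.i (nat_lit 3337) (nat_lit 6) (nat_lit 6))
    (@En.n l3 (nat_lit 4772) (nat_lit 15) (nat_lit 2))))
  (@Cl.mk (nat_lit 0x20006000d0006000d0003000e00030002000a000e000a0002000a000e0006) (nat_lit 0xa0b03008c10210) (nat_lit 16) Lb.e (@T16.mk En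
    (@En.n l1769 (nat_lit 3695) (nat_lit 8) (nat_lit 6))
    (@En.n l7141 (nat_lit 2733) (nat_lit 10) (nat_lit 14))
    (@En.n l7142 (nat_lit 4074) (nat_lit 2) (nat_lit 10))
    (@En.n l11 (nat_lit 4773) (nat_lit 3) (nat_lit 2))
    (@En.n l7143 (nat_lit 1162) (nat_lit 4) (nat_lit 10))
    (@En.n l3062 (nat_lit 4800) (nat_lit 6) (nat_lit 14))
    (@En.i (nat_lit 11004) (nat_lit 2) (nat_lit 10))
    (@En.n l17 (nat_lit 4773) (nat_lit 7) (nat_lit 2))
    (@En.i (nat_lit 1167) (nat_lit 8) (nat_lit 3))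
    (@En.n l476 (nat_lit 13597) (nat_lit 0) (nat_lit 14))
    (@En.i (nat_lit 4772) (nat_lit 10) (nat_lit 3))
    (@En.n l17614 (nat_lit 4771) (nat_lit 8) (nat_lit 13))
    (@En.i (nat_lit 3094) (nat_lit 13) (nat_lit 6))
    (@En.i (nat_lit 12248) (nat_lit 6) (nat_lit 13))
    (@En.i (nat_lit 4337) (nat_lit 6) (nat_lit 6))
    (@En.n l3 (nat_lit 4773) (nat_lit 15) (nat_lit 2))))
  (@Cl.mk (nat_lit 0x20006000a000e000700020007000e00060002000e000a00020009000e0009) (nat_lit 0x39000b00150660) (nat_lit 16) Lb.e (@T16.mk En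
    (@En.n l2519 (nat_lit 4775) (nat_lit 5) (nat_lit 9))
    (@En.n l2520 (nat_lit 12539) (nat_lit 7) (nat_lit 14))
    (@En.i (nat_lit 10782) (nat_lit 2) (nat_lit 9))
    (@En.n l50 (nat_lit 4774) (nat_lit 3) (nat_lit 2))
    (@En.i (nat_lit 4777) (nat_lit 4) (nat_lit 10))
    (@En.i (nat_lit 1561) (nat_lit 1) (nat_lit 14))
    (@En.n l28 (nat_lit 4774) (nat_lit 6) (nat_lit 2))
    (@En.i (nat_lit 4778) (nat_lit 7) (nat_lit 6))
    (@En.n l7507 (nat_lit 3026) (nat_lit 9) (nat_lit 14))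
    (@En.n l2644 (nat_lit 3418) (nat_lit 5) (nat_lit 7))
    (@En.n l725 (nat_lit 4774) (nat_lit 10) (nat_lit 2))
    (@En.n l3564 (nat_lit 4776) (nat_lit 12) (nat_lit 7))
    (@En.i (nat_lit 3426) (nat_lit 13) (nat_lit 14))
    (@En.n l2644 (nat_lit 4773) (nat_lit 2) (nat_lit 10))
    (@En.n l1081 (nat_lit 8048) (nat_lit 3) (nat_lit 6))
    (@En.n l3 (nat_lit 4774) (nat_lit 15) (nat_lit 2))))
  (@Cl.mk (nat_lit 0x200070007000e00070002000e000b0002000a0009000900050009000e0006) (nat_lit 0xc001506720180) (nat_lit 16) Lb.e (@T16.mk En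
    (@En.n l4263 (nat_lit 4779) (nat_lit 8) (nat_lit 6))
    (@En.n l4353 (nat_lit 2920) (nat_lit 10) (nat_lit 14))
    (@En.n l7708 (nat_lit 1162) (nat_lit 2) (nat_lit 9))
    (@En.n l4802 (nat_lit 8060) (nat_lit 3) (nat_lit 5))
    (@En.n l61 (nat_lit 4909) (nat_lit 13) (nat_lit 9))
    (@En.n l1545 (nat_lit 5318) (nat_lit 5) (nat_lit 9))
    (@En.i (nat_lit 10110) (nat_lit 12) (nat_lit 10))
    (@En.n l11 (nat_lit 4775) (nat_lit 7) (nat_lit 2))
    (@En.i (nat_lit 4781) (nat_lit 9) (nat_lit 11))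
    (@En.i (nat_lit 1554) (nat_lit 1) (nat_lit 14))
    (@En.n l3 (nat_lit 4775) (nat_lit 10) (nat_lit 2))
    (@En.n l3200 (nat_lit 4908) (nat_lit 12) (nat_lit 7))
    (@En.n l4353 (nat_lit 5725) (nat_lit 13) (nat_lit 14))
    (@En.n l6983 (nat_lit 4774) (nat_lit 9) (nat_lit 7))
    (@En.n l22077 (nat_lit 3182) (nat_lit 6) (nat_lit 7))
    (@En.n l50 (nat_lit 4775) (nat_lit 15) (nat_lit 2))))
  (@Cl.mk (nat_lit 0x20007000b000700070006000e00050002000e0009000200090009000e000a) (nat_lit 0x5000b009400770) (nat_lit 16) Lb.e (@T16.mk En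
    (@En.n l3279 (nat_lit 4779) (nat_lit 12) (nat_lit 10))
    (@En.n l2051 (nat_lit 5220) (nat_lit 13) (nat_lit 14))
    (@En.n l10002 (nat_lit 4774) (nat_lit 2) (nat_lit 9))
    (@En.i (nat_lit 7486) (nat_lit 3) (nat_lit 9))
    (@En.n l17 (nat_lit 4776) (nat_lit 4) (nat_lit 2))
    (@En.i (nat_lit 4782) (nat_lit 5) (nat_lit 9))
    (@En.i (nat_lit 1555) (nat_lit 1) (nat_lit 14))
    (@En.n l50 (nat_lit 4776) (nat_lit 7) (nat_lit 2))
    (@En.i (nat_lit 4891) (nat_lit 8) (nat_lit 5))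
    (@En.n l15776 (nat_lit 2984) (nat_lit 10) (nat_lit 14))
    (@En.i (nat_lit 3992) (nat_lit 5) (nat_lit 6))
    (@En.n l152 (nat_lit 4904) (nat_lit 12) (nat_lit 7))
    (@En.n l2225 (nat_lit 5728) (nat_lit 13) (nat_lit 7))
    (@En.i (nat_lit 3695) (nat_lit 9) (nat_lit 11))
    (@En.n l2228 (nat_lit 8053) (nat_lit 6) (nat_lit 7))
    (@En.n l11 (nat_lit 4776) (nat_lit 15) (nat_lit 2))))
  (@Cl.mk (nat_lit 0x200060006000a000e000800020008000e00060002000a000a0008000e0008) (nat_lit 0x2160120047552) (nat_lit 16) Lb.e (@T16.mk En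
    (@En.n l2519 (nat_lit 4781) (nat_lit 6) (nat_lit 8))
    (@En.n l3858 (nat_lit 12556) (nat_lit 8) (nat_lit 14))
    (@En.n l7271 (nat_lit 8108) (nat_lit 2) (nat_lit 8))
    (@En.n l18493 (nat_lit 2114) (nat_lit 10) (nat_lit 10))
    (@En.n l17797 (nat_lit 4475) (nat_lit 4) (nat_lit 10))
    (@En.n l28 (nat_lit 4777) (nat_lit 5) (nat_lit 2))
    (@En.n l3560 (nat_lit 4896) (nat_lit 6) (nat_lit 6))
    (@En.n l3858 (nat_lit 2983) (nat_lit 8) (nat_lit 14))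
    (@En.n l2644 (nat_lit 3421) (nat_lit 2) (nat_lit 8))
    (@En.n l725 (nat_lit 4777) (nat_lit 9) (nat_lit 2))
    (@En.n l3564 (nat_lit 4782) (nat_lit 11) (nat_lit 8))
    (@En.i (nat_lit 1895) (nat_lit 12) (nat_lit 14))
    (@En.n l564 (nat_lit 4218) (nat_lit 13) (nat_lit 10))
    (@En.n l644 (nat_lit 4774) (nat_lit 14) (nat_lit 6))
    (@En.n l1081 (nat_lit 11370) (nat_lit 4) (nat_lit 6))
    (@En.n l3 (nat_lit 4777) (nat_lit 15) (nat_lit 2))))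
  (@Cl.mk (nat_lit 0x20006000a000a000e00080002000800060006000e000a00020008000e0008) (nat_lit 0x84a60100170550) (nat_lit 16) Lb.e (@T16.mk En
    (@En.n l3558 (nat_lit 4908) (nat_lit 6) (nat_lit 8))
    (@En.n l3559 (nat_lit 12554) (nat_lit 8) (nat_lit 14))
    (@En.i (nat_lit 10780) (nat_lit 2) (nat_lit 8))
    (@En.n l50 (nat_lit 4778) (nat_lit 3) (nat_lit 2))
    (@En.n l3560 (nat_lit 4896) (nat_lit 4) (nat_lit 10))
    (@En.n l3561 (nat_lit 1902) (nat_lit 6) (nat_lit 14))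
    (@En.n l3562 (nat_lit 2115) (nat_lit 6) (nat_lit 6))
    (@En.n l3563 (nat_lit 12566) (nat_lit 14) (nat_lit 6))
    (@En.n l2644 (nat_lit 3422) (nat_lit 4) (nat_lit 8))
    (@En.n l725 (nat_lit 4778) (nat_lit 9) (nat_lit 2))
    (@En.n l3564 (nat_lit 4891) (nat_lit 11) (nat_lit 8))
    (@En.n l1080 (nat_lit 11657) (nat_lit 12) (nat_lit 14))
    (@En.n l55 (nat_lit 4774) (nat_lit 13) (nat_lit 10))
    (@En.n l2644 (nat_lit 3094) (nat_lit 3) (nat_lit 10))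
    (@En.n l1081 (nat_lit 8052) (nat_lit 4) (nat_lit 6))
    (@En.n l3 (nat_lit 4778) (nat_lit 15) (nat_lit 2))))
  (@Cl.mk (nat_lit 0x2000a000a000a000a0006000a0006000600060006000e00060002000e000a) (nat_lit 0x6782040000b0025) (nat_lit 16) Lb.e (@T16.mk En
    (@En.i (nat_lit 4780) (nat_lit 14) (nat_lit 10))
    (@En.i (nat_lit 1551) (nat_lit 1) (nat_lit 14))
    (@En.n l50 (nat_lit 4779) (nat_lit 2) (nat_lit 2))
    (@En.i (nat_lit 3169) (nat_lit 3) (nat_lit 6))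
    (@En.n l601 (nat_lit 5727) (nat_lit 1) (nat_lit 14))
    (@En.n l218 (nat_lit 4776) (nat_lit 10) (nat_lit 6))
    (@En.n l11 (nat_lit 5251) (nat_lit 6) (nat_lit 6))
    (@En.n l4976 (nat_lit 4902) (nat_lit 10) (nat_lit 6))
    (@En.n l1393 (nat_lit 5248) (nat_lit 8) (nat_lit 6))
    (@En.i (nat_lit 2671) (nat_lit 10) (nat_lit 10))
    (@En.n l4316 (nat_lit 5604) (nat_lit 7) (nat_lit 6))
    (@En.n l8390 (nat_lit 4893) (nat_lit 12) (nat_lit 10))
    (@En.n l22068 (nat_lit 5246) (nat_lit 6) (nat_lit 10))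
    (@En.n l10815 (nat_lit 4775) (nat_lit 6) (nat_lit 10))
    (@En.i (nat_lit 5253) (nat_lit 12) (nat_lit 10))
    (@En.n l17 (nat_lit 4779) (nat_lit 15) (nat_lit 2))))
  (@Cl.mk (nat_lit 0x2000a000a000900090009000900060006000a0007000700070007000e0006) (nat_lit 0x4137120080000a0) (nat_lit 16) Lb.e (@T16.mk En
    (@En.i (nat_lit 58) (nat_lit 7) (nat_lit 6))
    (@En.n l26616 (nat_lit 5701) (nat_lit 1) (nat_lit 14))
    (@En.n l218 (nat_lit 4782) (nat_lit 9) (nat_lit 7))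
    (@En.n l11 (nat_lit 3173) (nat_lit 3) (nat_lit 7))
    (@En.n l4976 (nat_lit 4899) (nat_lit 4) (nat_lit 7))
    (@En.n l1393 (nat_lit 5730) (nat_lit 5) (nat_lit 7))
    (@En.i (nat_lit 3154) (nat_lit 7) (nat_lit 10))
    (@En.n l61 (nat_lit 4779) (nat_lit 10) (nat_lit 6))
    (@En.n l26617 (nat_lit 6445) (nat_lit 8) (nat_lit 6))
    (@En.n l8390 (nat_lit 4898) (nat_lit 10) (nat_lit 9))
    (@En.n l26618 (nat_lit 3172) (nat_lit 7) (nat_lit 9))
    (@En.n l10815 (nat_lit 4781) (nat_lit 7) (nat_lit 9))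
    (@En.n l26619 (nat_lit 8103) (nat_lit 13) (nat_lit 9))
    (@En.i (nat_lit 62) (nat_lit 6) (nat_lit 10))
    (@En.n l26620 (nat_lit 3153) (nat_lit 5) (nat_lit 10))
    (@En.n l50 (nat_lit 4780) (nat_lit 15) (nat_lit 2))))
  (@Cl.mk (nat_lit 0x200080008000e00070002000b000b000900080008000500050009000e0007) (nat_lit 0x12a004861200230) (nat_lit 16) Lb.e (@T16.mk En
    (@En.n l4263 (nat_lit 4780) (nat_lit 5) (nat_lit 7))
    (@En.n l8965 (nat_lit 2979) (nat_lit 7) (nat_lit 14))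
    (@En.n l117 (nat_lit 3141) (nat_lit 2) (nat_lit 9))
    (@En.n l575 (nat_lit 4775) (nat_lit 3) (nat_lit 5))
    (@En.n l22278 (nat_lit 8063) (nat_lit 4) (nat_lit 5))
    (@En.n l61 (nat_lit 4907) (nat_lit 11) (nat_lit 8))
    (@En.n l22279 (nat_lit 4479) (nat_lit 6) (nat_lit 8))
    (@En.n l1578 (nat_lit 8111) (nat_lit 13) (nat_lit 9))
    (@En.n l22280 (nat_lit 2119) (nat_lit 9) (nat_lit 11))
    (@En.n l10724 (nat_lit 4568) (nat_lit 10) (nat_lit 11))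
    (@En.n l3 (nat_lit 4781) (nat_lit 10) (nat_lit 2))
    (@En.n l4319 (nat_lit 4783) (nat_lit 12) (nat_lit 7))
    (@En.n l8965 (nat_lit 5722) (nat_lit 13) (nat_lit 14))
    (@En.n l6983 (nat_lit 4777) (nat_lit 8) (nat_lit 8))
    (@En.n l22077 (nat_lit 3177) (nat_lit 3) (nat_lit 8))
    (@En.n l50 (nat_lit 4781) (nat_lit 15) (nat_lit 2))))
  (@Cl.mk (nat_lit 0x200070007000b000800080007000e000500020009000900080008000e0009) (nat_lit 0x7540b00313662) (nat_lit 16) Lb.e (@T16.mk En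
    (@En.n l3279 (nat_lit 4780) (nat_lit 10) (nat_lit 9))
    (@En.n l2051 (nat_lit 4839) (nat_lit 11) (nat_lit 14))
    (@En.n l10002 (nat_lit 4777) (nat_lit 2) (nat_lit 8))
    (@En.n l15832 (nat_lit 8104) (nat_lit 3) (nat_lit 8))
    (@En.n l15833 (nat_lit 2118) (nat_lit 14) (nat_lit 9))
    (@En.n l15834 (nat_lit 4467) (nat_lit 5) (nat_lit 9))
    (@En.n l50 (nat_lit 4782) (nat_lit 6) (nat_lit 2))
    (@En.n l10004 (nat_lit 4892) (nat_lit 7) (nat_lit 5))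
    (@En.n l15835 (nat_lit 2981) (nat_lit 9) (nat_lit 14))
    (@En.i (nat_lit 3987) (nat_lit 2) (nat_lit 7))
    (@En.n l152 (nat_lit 4905) (nat_lit 11) (nat_lit 8))
    (@En.n l2225 (nat_lit 5729) (nat_lit 4) (nat_lit 8))
    (@En.n l15794 (nat_lit 3956) (nat_lit 13) (nat_lit 11))
    (@En.n l61 (nat_lit 4776) (nat_lit 14) (nat_lit 7))
    (@En.n l2228 (nat_lit 10882) (nat_lit 7) (nat_lit 7))
    (@En.n l11 (nat_lit 4782) (nat_lit 15) (nat_lit 2))))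
  (@Cl.mk (nat_lit 0x20009000900070007000b000b0008000700070005000500090009000e0008) (nat_lit 0x130077600002391) (nat_lit 16) Lb.e (@T16.mk En
    (@En.n l3279 (nat_lit 58) (nat_lit 3) (nat_lit 8))
    (@En.n l9076 (nat_lit 10802) (nat_lit 1) (nat_lit 14))
    (@En.n l23191 (nat_lit 4781) (nat_lit 2) (nat_lit 9))
    (@En.n l11625 (nat_lit 3136) (nat_lit 3) (nat_lit 9))
    (@En.n l1338 (nat_lit 4908) (nat_lit 4) (nat_lit 5))
    (@En.n l237 (nat_lit 6447) (nat_lit 5) (nat_lit 5))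
    (@En.n l23192 (nat_lit 4903) (nat_lit 9) (nat_lit 7))
    (@En.i (nat_lit 4485) (nat_lit 7) (nat_lit 7))
    (@En.n l2853 (nat_lit 11703) (nat_lit 9) (nat_lit 8))
    (@En.n l4380 (nat_lit 4899) (nat_lit 5) (nat_lit 11))
    (@En.n l1353 (nat_lit 3355) (nat_lit 11) (nat_lit 11))
    (@En.n l61 (nat_lit 4901) (nat_lit 12) (nat_lit 7))
    (@En.n l22570 (nat_lit 6448) (nat_lit 13) (nat_lit 7))
    (@En.n l10412 (nat_lit 4896) (nat_lit 7) (nat_lit 9))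
    (@En.n l107 (nat_lit 3180) (nat_lit 9) (nat_lit 9))
    (@En.n l3 (nat_lit 4783) (nat_lit 15) (nat_lit 2))))
noncomputable def a299 : T16 Cl := @T16.mk Cl
  (@Cl.mk (nat_lit 0x200060003000e00070002000d000b000e00030002000a00050009000e000d) (nat_lit 0x2008960030189) (nat_lit 16) Lb.e (@T16.mk En
    (@En.n l1144 (nat_lit 4696) (nat_lit 11) (nat_lit 13))
    (@En.n l6633 (nat_lit 4090) (nat_lit 12) (nat_lit 14))
    (@En.i (nat_lit 3715) (nat_lit 2) (nat_lit 9))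
    (@En.n l1483 (nat_lit 4785) (nat_lit 14) (nat_lit 5))
    (@En.i (nat_lit 4559) (nat_lit 4) (nat_lit 10))
    (@En.n l17 (nat_lit 4784) (nat_lit 5) (nat_lit 2))
    (@En.n l3522 (nat_lit 4752) (nat_lit 6) (nat_lit 3))
    (@En.n l476 (nat_lit 13240) (nat_lit 0) (nat_lit 14))
    (@En.n l1991 (nat_lit 4699) (nat_lit 9) (nat_lit 11))
    (@En.n l2261 (nat_lit 7214) (nat_lit 10) (nat_lit 13))
    (@En.n l7 (nat_lit 4784) (nat_lit 10) (nat_lit 2))
    (@En.n l2261 (nat_lit 4737) (nat_lit 12) (nat_lit 7))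
    (@En.n l2262 (nat_lit 3029) (nat_lit 1) (nat_lit 14))
    (@En.n l11 (nat_lit 4696) (nat_lit 7) (nat_lit 3))
    (@En.n l6634 (nat_lit 5147) (nat_lit 8) (nat_lit 6))
    (@En.n l1157 (nat_lit 4784) (nat_lit 15) (nat_lit 2))))
  (@Cl.mk (nat_lit 0x200050009000e000d000200090003000e00070002000c000b0007000e0004) (nat_lit 0x489050c0059070) (nat_lit 16) Lb.e (@T16.mk En
    (@En.n l10240 (nat_lit 4786) (nat_lit 5) (nat_lit 4))
    (@En.n l1445 (nat_lit 4784) (nat_lit 7) (nat_lit 14))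
    (@En.i (nat_lit 5323) (nat_lit 7) (nat_lit 7))
    (@En.n l2092 (nat_lit 4788) (nat_lit 3) (nat_lit 11))
    (@En.n l1448 (nat_lit 7288) (nat_lit 10) (nat_lit 12))
    (@En.n l7 (nat_lit 4785) (nat_lit 5) (nat_lit 2))
    (@En.n l1448 (nat_lit 4673) (nat_lit 6) (nat_lit 7))
    (@En.n l3638 (nat_lit 3028) (nat_lit 8) (nat_lit 14))
    (@En.n l936 (nat_lit 4678) (nat_lit 8) (nat_lit 3))
    (@En.n l197 (nat_lit 5948) (nat_lit 10) (nat_lit 9))
    (@En.n l67 (nat_lit 4785) (nat_lit 10) (nat_lit 2))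
    (@En.n l3013 (nat_lit 4678) (nat_lit 12) (nat_lit 13))
    (@En.n l1446 (nat_lit 4089) (nat_lit 13) (nat_lit 14))
    (@En.n l1445 (nat_lit 7066) (nat_lit 2) (nat_lit 9))
    (@En.n l10241 (nat_lit 3383) (nat_lit 13) (nat_lit 5))
    (@En.n l17 (nat_lit 4785) (nat_lit 15) (nat_lit 2))))
  (@Cl.mk (nat_lit 0x200080003000e00070002000c000c000c00080004000400040009000e000d) (nat_lit 0x40b007693000316) (nat_lit 16) Lb.e (@T16.mk En
    (@En.n l644 (nat_lit 4692) (nat_lit 6) (nat_lit 13))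
    (@En.n l1337 (nat_lit 2681) (nat_lit 1) (nat_lit 14))
    (@En.n l4195 (nat_lit 7060) (nat_lit 2) (nat_lit 9))
    (@En.n l4196 (nat_lit 4699) (nat_lit 3) (nat_lit 4))
    (@En.n l152 (nat_lit 4751) (nat_lit 4) (nat_lit 4))
    (@En.n l4197 (nat_lit 4787) (nat_lit 5) (nat_lit 4))
    (@En.n l4195 (nat_lit 5322) (nat_lit 6) (nat_lit 8))
    (@En.n l4198 (nat_lit 4790) (nat_lit 8) (nat_lit 12))
    (@En.n l4199 (nat_lit 4785) (nat_lit 4) (nat_lit 12))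
    (@En.n l4200 (nat_lit 7363) (nat_lit 10) (nat_lit 12))
    (@En.n l17 (nat_lit 4786) (nat_lit 10) (nat_lit 2))
    (@En.n l4201 (nat_lit 4735) (nat_lit 12) (nat_lit 7))
    (@En.n l4202 (nat_lit 3031) (nat_lit 1) (nat_lit 14))
    (@En.n l1337 (nat_lit 4692) (nat_lit 2) (nat_lit 3))
    (@En.n l4203 (nat_lit 5017) (nat_lit 3) (nat_lit 8))
    (@En.n l50 (nat_lit 4786) (nat_lit 15) (nat_lit 2))))
  (@Cl.mk (nat_lit 0x2000a0003000e00070002000c0006000d000d0004000300030009000e000d) (nat_lit 0x6010070ab000512) (nat_lit 16) Lb.e (@T16.mk En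
    (@En.n l11375 (nat_lit 4684) (nat_lit 6) (nat_lit 13))
    (@En.i (nat_lit 2677) (nat_lit 7) (nat_lit 14))
    (@En.n l11376 (nat_lit 7108) (nat_lit 2) (nat_lit 9))
    (@En.n l11377 (nat_lit 4788) (nat_lit 13) (nat_lit 3))
    (@En.n l18 (nat_lit 4789) (nat_lit 0) (nat_lit 3))
    (@En.n l4496 (nat_lit 4785) (nat_lit 0) (nat_lit 4))
    (@En.n l61 (nat_lit 4789) (nat_lit 3) (nat_lit 13))
    (@En.n l11378 (nat_lit 4752) (nat_lit 8) (nat_lit 13))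
    (@En.n l11379 (nat_lit 4885) (nat_lit 14) (nat_lit 6))
    (@En.n l4393 (nat_lit 7204) (nat_lit 10) (nat_lit 12))
    (@En.n l28 (nat_lit 4787) (nat_lit 10) (nat_lit 2))
    (@En.n l1373 (nat_lit 4682) (nat_lit 12) (nat_lit 7))
    (@En.n l4305 (nat_lit 1167) (nat_lit 1) (nat_lit 14))
    (@En.n l1392 (nat_lit 4684) (nat_lit 2) (nat_lit 3))
    (@En.n l4306 (nat_lit 5925) (nat_lit 3) (nat_lit 10))
    (@En.n l3 (nat_lit 4787) (nat_lit 15) (nat_lit 2))))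
  (@Cl.mk (nat_lit 0x2000500030009000e000d0002000a0003000e00070002000b0006000e000d) (nat_lit 0x512060a00807b) (nat_lit 16) Lb.e (@T16.mk En
    (@En.n l16331 (nat_lit 4787) (nat_lit 7) (nat_lit 13))
    (@En.n l725 (nat_lit 4699) (nat_lit 8) (nat_lit 14))
    (@En.n l2364 (nat_lit 4886) (nat_lit 14) (nat_lit 6))
    (@En.n l7645 (nat_lit 4006) (nat_lit 3) (nat_lit 11))
    (@En.n l3 (nat_lit 4788) (nat_lit 4) (nat_lit 2))
    (@En.n l7645 (nat_lit 4736) (nat_lit 5) (nat_lit 7))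
    (@En.i (nat_lit 3030) (nat_lit 7) (nat_lit 14))
    (@En.n l6672 (nat_lit 4687) (nat_lit 7) (nat_lit 3))
    (@En.n l16332 (nat_lit 5926) (nat_lit 9) (nat_lit 10))
    (@En.n l50 (nat_lit 4788) (nat_lit 9) (nat_lit 2))
    (@En.n l6671 (nat_lit 4687) (nat_lit 11) (nat_lit 13))
    (@En.n l3328 (nat_lit 2682) (nat_lit 12) (nat_lit 14))
    (@En.i (nat_lit 7698) (nat_lit 13) (nat_lit 9))
    (@En.n l4193 (nat_lit 4787) (nat_lit 3) (nat_lit 3))
    (@En.n l3547 (nat_lit 3393) (nat_lit 4) (nat_lit 5))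
    (@En.n l11 (nat_lit 4788) (nat_lit 15) (nat_lit 2))))
  (@Cl.mk (nat_lit 0x20009000e000d0002000a0003000e00070002000d0006000d0003000e0003) (nat_lit 0x51a030200a0a030) (nat_lit 16) Lb.e (@T16.mk En
    (@En.i (nat_lit 4787) (nat_lit 4) (nat_lit 3))
    (@En.i (nat_lit 13052) (nat_lit 0) (nat_lit 14))
    (@En.i (nat_lit 4790) (nat_lit 6) (nat_lit 3))
    (@En.n l5430 (nat_lit 4750) (nat_lit 8) (nat_lit 13))
    (@En.n l4305 (nat_lit 4887) (nat_lit 14) (nat_lit 6))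
    (@En.n l4304 (nat_lit 7199) (nat_lit 6) (nat_lit 13))
    (@En.n l28 (nat_lit 4789) (nat_lit 6) (nat_lit 2))
    (@En.n l1373 (nat_lit 4793) (nat_lit 7) (nat_lit 7))
    (@En.n l4305 (nat_lit 4773) (nat_lit 1) (nat_lit 14))
    (@En.n l1393 (nat_lit 4791) (nat_lit 9) (nat_lit 3))
    (@En.n l4306 (nat_lit 5927) (nat_lit 11) (nat_lit 10))
    (@En.n l3 (nat_lit 4789) (nat_lit 11) (nat_lit 2))
    (@En.n l4228 (nat_lit 4791) (nat_lit 13) (nat_lit 13))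
    (@En.i (nat_lit 2675) (nat_lit 1) (nat_lit 14))
    (@En.i (nat_lit 3923) (nat_lit 2) (nat_lit 9))
    (@En.n l17 (nat_lit 4789) (nat_lit 15) (nat_lit 2))))
  (@Cl.mk (nat_lit 0x200090003000e00070002000d000c00070003000e000400020009000e000d) (nat_lit 0x40b00b80010041b) (nat_lit 16) Lb.e (@T16.mk En
    (@En.n l4302 (nat_lit 4792) (nat_lit 13) (nat_lit 13))
    (@En.i (nat_lit 2676) (nat_lit 1) (nat_lit 14))
    (@En.n l339 (nat_lit 5526) (nat_lit 2) (nat_lit 9))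
    (@En.n l17 (nat_lit 4790) (nat_lit 3) (nat_lit 2))
    (@En.n l4303 (nat_lit 4786) (nat_lit 4) (nat_lit 4))
    (@En.n l5 (nat_lit 935) (nat_lit 1) (nat_lit 14))
    (@En.n l50 (nat_lit 4789) (nat_lit 2) (nat_lit 3))
    (@En.n l685 (nat_lit 2117) (nat_lit 3) (nat_lit 7))
    (@En.n l217 (nat_lit 4787) (nat_lit 9) (nat_lit 12))
    (@En.n l4304 (nat_lit 7196) (nat_lit 6) (nat_lit 13))
    (@En.n l28 (nat_lit 4790) (nat_lit 10) (nat_lit 2))
    (@En.n l1373 (nat_lit 4794) (nat_lit 7) (nat_lit 7))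
    (@En.n l4305 (nat_lit 4772) (nat_lit 1) (nat_lit 14))
    (@En.n l1573 (nat_lit 4792) (nat_lit 9) (nat_lit 3))
    (@En.n l4306 (nat_lit 5071) (nat_lit 11) (nat_lit 9))
    (@En.n l3 (nat_lit 4790) (nat_lit 15) (nat_lit 2))))
  (@Cl.mk (nat_lit 0x20009000d000d000900030003000e00070002000d0007000d0003000e0003) (nat_lit 0x59a200100b0a030) (nat_lit 16) Lb.e (@T16.mk En
    (@En.n l117 (nat_lit 4684) (nat_lit 9) (nat_lit 3))
    (@En.i (nat_lit 13050) (nat_lit 0) (nat_lit 14))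
    (@En.n l2576 (nat_lit 4792) (nat_lit 2) (nat_lit 3))
    (@En.i (nat_lit 4747) (nat_lit 0) (nat_lit 13))
    (@En.i (nat_lit 3997) (nat_lit 14) (nat_lit 7))
    (@En.i (nat_lit 7197) (nat_lit 6) (nat_lit 13))
    (@En.n l17 (nat_lit 4791) (nat_lit 6) (nat_lit 2))
    (@En.n l3608 (nat_lit 4683) (nat_lit 7) (nat_lit 7))
    (@En.i (nat_lit 1159) (nat_lit 1) (nat_lit 14))
    (@En.n l3642 (nat_lit 4789) (nat_lit 9) (nat_lit 3))
    (@En.n l7 (nat_lit 4797) (nat_lit 10) (nat_lit 3))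
    (@En.i (nat_lit 4852) (nat_lit 0) (nat_lit 9))
    (@En.n l644 (nat_lit 4797) (nat_lit 13) (nat_lit 13))
    (@En.i (nat_lit 3781) (nat_lit 7) (nat_lit 13))
    (@En.n l564 (nat_lit 3920) (nat_lit 3) (nat_lit 9))
    (@En.n l11 (nat_lit 4791) (nat_lit 15) (nat_lit 2))))
  (@Cl.mk (nat_lit 0x20009000d000d000800030003000e00070002000d000c00080003000e0004) (nat_lit 0x4ab300100a60010) (nat_lit 16) Lb.e (@T16.mk En
    (@En.n l117 (nat_lit 4692) (nat_lit 9) (nat_lit 4))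
    (@En.n l2691 (nat_lit 704) (nat_lit 1) (nat_lit 14))
    (@En.n l936 (nat_lit 4791) (nat_lit 2) (nat_lit 3))
    (@En.i (nat_lit 4906) (nat_lit 3) (nat_lit 8))
    (@En.n l936 (nat_lit 4684) (nat_lit 14) (nat_lit 12))
    (@En.i (nat_lit 7194) (nat_lit 6) (nat_lit 13))
    (@En.n l17 (nat_lit 4792) (nat_lit 6) (nat_lit 2))
    (@En.n l11614 (nat_lit 4795) (nat_lit 7) (nat_lit 7))
    (@En.i (nat_lit 301) (nat_lit 1) (nat_lit 14))
    (@En.n l1339 (nat_lit 4790) (nat_lit 13) (nat_lit 3))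
    (@En.n l7 (nat_lit 4796) (nat_lit 10) (nat_lit 3))
    (@En.n l2211 (nat_lit 5750) (nat_lit 0) (nat_lit 8))
    (@En.n l644 (nat_lit 4796) (nat_lit 13) (nat_lit 13))
    (@En.i (nat_lit 3782) (nat_lit 14) (nat_lit 13))
    (@En.n l614 (nat_lit 3926) (nat_lit 3) (nat_lit 9))
    (@En.n l11 (nat_lit 4792) (nat_lit 15) (nat_lit 2))))
  (@Cl.mk (nat_lit 0x200090009000e000d0002000b000300070007000d0005000d0003000e0003) (nat_lit 0x66ab06000a03030) (nat_lit 16) Lb.e (@T16.mk En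
    (@En.i (nat_lit 4682) (nat_lit 5) (nat_lit 3))
    (@En.i (nat_lit 13051) (nat_lit 0) (nat_lit 14))
    (@En.i (nat_lit 4794) (nat_lit 2) (nat_lit 3))
    (@En.i (nat_lit 4740) (nat_lit 9) (nat_lit 13))
    (@En.i (nat_lit 4884) (nat_lit 4) (nat_lit 5))
    (@En.n l476 (nat_lit 7500) (nat_lit 6) (nat_lit 13))
    (@En.n l152 (nat_lit 4841) (nat_lit 12) (nat_lit 7))
    (@En.i (nat_lit 3766) (nat_lit 7) (nat_lit 7))
    (@En.i (nat_lit 4683) (nat_lit 8) (nat_lit 3))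
    (@En.i (nat_lit 5930) (nat_lit 0) (nat_lit 11))
    (@En.n l11 (nat_lit 4793) (nat_lit 10) (nat_lit 2))
    (@En.n l1578 (nat_lit 4683) (nat_lit 12) (nat_lit 13))
    (@En.n l2038 (nat_lit 832) (nat_lit 13) (nat_lit 14))
    (@En.n l3062 (nat_lit 4789) (nat_lit 14) (nat_lit 9))
    (@En.i (nat_lit 5539) (nat_lit 3) (nat_lit 9))
    (@En.n l17 (nat_lit 4793) (nat_lit 15) (nat_lit 2))))
  (@Cl.mk (nat_lit 0x200090009000e000d0002000a000300070007000d000c00060003000e0004) (nat_lit 0x55ab05000b80010) (nat_lit 16) Lb.e (@T16.mk En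
    (@En.n l50 (nat_lit 4735) (nat_lit 5) (nat_lit 4))
    (@En.n l998 (nat_lit 929) (nat_lit 1) (nat_lit 14))
    (@En.n l50 (nat_lit 4793) (nat_lit 2) (nat_lit 3))
    (@En.i (nat_lit 4895) (nat_lit 3) (nat_lit 6))
    (@En.n l217 (nat_lit 4682) (nat_lit 10) (nat_lit 12))
    (@En.n l476 (nat_lit 4809) (nat_lit 6) (nat_lit 13))
    (@En.n l152 (nat_lit 4840) (nat_lit 12) (nat_lit 7))
    (@En.i (nat_lit 3771) (nat_lit 7) (nat_lit 7))
    (@En.i (nat_lit 4795) (nat_lit 8) (nat_lit 3))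
    (@En.i (nat_lit 5070) (nat_lit 0) (nat_lit 10))
    (@En.n l11 (nat_lit 4794) (nat_lit 10) (nat_lit 2))
    (@En.n l1578 (nat_lit 4795) (nat_lit 12) (nat_lit 13))
    (@En.n l2038 (nat_lit 834) (nat_lit 13) (nat_lit 14))
    (@En.n l3062 (nat_lit 4790) (nat_lit 2) (nat_lit 9))
    (@En.i (nat_lit 5533) (nat_lit 3) (nat_lit 9))
    (@En.n l17 (nat_lit 4794) (nat_lit 15) (nat_lit 2))))
  (@Cl.mk (nat_lit 0x200090009000d000d00090003000300070007000d000c00070003000e0004) (nat_lit 0x55a640000b60010) (nat_lit 16) Lb.e (@T16.mk En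
    (@En.n l25353 (nat_lit 4677) (nat_lit 6) (nat_lit 4))
    (@En.n l998 (nat_lit 708) (nat_lit 1) (nat_lit 14))
    (@En.n l50 (nat_lit 4683) (nat_lit 2) (nat_lit 3))
    (@En.n l2678 (nat_lit 4903) (nat_lit 3) (nat_lit 7))
    (@En.n l217 (nat_lit 4679) (nat_lit 11) (nat_lit 12))
    (@En.n l476 (nat_lit 4807) (nat_lit 6) (nat_lit 13))
    (@En.n l152 (nat_lit 4803) (nat_lit 9) (nat_lit 7))
    (@En.n l810 (nat_lit 3337) (nat_lit 7) (nat_lit 7))
    (@En.n l28 (nat_lit 4794) (nat_lit 8) (nat_lit 3))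
    (@En.n l3985 (nat_lit 4799) (nat_lit 0) (nat_lit 3))
    (@En.i (nat_lit 4848) (nat_lit 0) (nat_lit 9))
    (@En.n l11592 (nat_lit 4799) (nat_lit 3) (nat_lit 13))
    (@En.n l2038 (nat_lit 4371) (nat_lit 13) (nat_lit 13))
    (@En.n l7526 (nat_lit 4792) (nat_lit 14) (nat_lit 9))
    (@En.n l25094 (nat_lit 5531) (nat_lit 4) (nat_lit 9))
    (@En.n l17 (nat_lit 4795) (nat_lit 15) (nat_lit 2))))
  (@Cl.mk (nat_lit 0x20009000d0007000e00030002000e00070002000d000c00090003000e0004) (nat_lit 0x4a0c00100b52010) (nat_lit 16) Lb.e (@T16.mk En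
    (@En.n l117 (nat_lit 4693) (nat_lit 9) (nat_lit 4))
    (@En.n l2691 (nat_lit 711) (nat_lit 1) (nat_lit 14))
    (@En.n l936 (nat_lit 4797) (nat_lit 2) (nat_lit 3))
    (@En.i (nat_lit 4904) (nat_lit 3) (nat_lit 9))
    (@En.n l936 (nat_lit 4688) (nat_lit 14) (nat_lit 12))
    (@En.i (nat_lit 7195) (nat_lit 6) (nat_lit 13))
    (@En.n l17 (nat_lit 4796) (nat_lit 6) (nat_lit 2))
    (@En.i (nat_lit 4799) (nat_lit 14) (nat_lit 7))
    (@En.i (nat_lit 218) (nat_lit 1) (nat_lit 14))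
    (@En.n l50 (nat_lit 4796) (nat_lit 9) (nat_lit 2))
    (@En.i (nat_lit 4792) (nat_lit 10) (nat_lit 3))
    (@En.i (nat_lit 13352) (nat_lit 0) (nat_lit 14))
    (@En.i (nat_lit 5808) (nat_lit 13) (nat_lit 7))
    (@En.i (nat_lit 3777) (nat_lit 14) (nat_lit 13))
    (@En.n l614 (nat_lit 5530) (nat_lit 4) (nat_lit 9))
    (@En.n l11 (nat_lit 4796) (nat_lit 15) (nat_lit 2))))
  (@Cl.mk (nat_lit 0x20009000d0008000e00030002000e00070002000d0008000d0003000e0003) (nat_lit 0x593c00100a5a030) (nat_lit 16) Lb.e (@T16.mk En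
    (@En.n l117 (nat_lit 4688) (nat_lit 9) (nat_lit 3))
    (@En.i (nat_lit 13049) (nat_lit 0) (nat_lit 14))
    (@En.n l2576 (nat_lit 4796) (nat_lit 2) (nat_lit 3))
    (@En.i (nat_lit 4746) (nat_lit 0) (nat_lit 13))
    (@En.i (nat_lit 3999) (nat_lit 4) (nat_lit 8))
    (@En.i (nat_lit 7198) (nat_lit 6) (nat_lit 13))
    (@En.n l17 (nat_lit 4797) (nat_lit 6) (nat_lit 2))
    (@En.i (nat_lit 4798) (nat_lit 14) (nat_lit 7))
    (@En.i (nat_lit 213) (nat_lit 1) (nat_lit 14))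
    (@En.n l50 (nat_lit 4797) (nat_lit 9) (nat_lit 2))
    (@En.i (nat_lit 4791) (nat_lit 10) (nat_lit 3))
    (@En.i (nat_lit 13353) (nat_lit 0) (nat_lit 14))
    (@En.i (nat_lit 5809) (nat_lit 13) (nat_lit 8))
    (@En.i (nat_lit 3778) (nat_lit 14) (nat_lit 13))
    (@En.i (nat_lit 3919) (nat_lit 4) (nat_lit 9))
    (@En.n l11 (nat_lit 4797) (nat_lit 15) (nat_lit 2))))
  (@Cl.mk (nat_lit 0x200070007000d0007000d0003000e0003000200090009000d0009000e0003) (nat_lit 0xb03030066a340) (nat_lit 16) Lb.e (@T16.mk En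
    (@En.n l3608 (nat_lit 4683) (nat_lit 9) (nat_lit 3))
    (@En.n l9607 (nat_lit 13152) (nat_lit 0) (nat_lit 14))
    (@En.n l22217 (nat_lit 4818) (nat_lit 2) (nat_lit 9))
    (@En.n l1353 (nat_lit 4366) (nat_lit 13) (nat_lit 13))
    (@En.n l61 (nat_lit 4797) (nat_lit 14) (nat_lit 9))
    (@En.n l1353 (nat_lit 5537) (nat_lit 5) (nat_lit 9))
    (@En.n l11 (nat_lit 4798) (nat_lit 6) (nat_lit 2))
    (@En.n l117 (nat_lit 4681) (nat_lit 7) (nat_lit 3))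
    (@En.n l1353 (nat_lit 13047) (nat_lit 0) (nat_lit 14))
    (@En.n l2576 (nat_lit 4799) (nat_lit 9) (nat_lit 3))
    (@En.i (nat_lit 4744) (nat_lit 11) (nat_lit 13))
    (@En.i (nat_lit 3989) (nat_lit 12) (nat_lit 7))
    (@En.i (nat_lit 4806) (nat_lit 13) (nat_lit 13))
    (@En.n l9605 (nat_lit 4800) (nat_lit 14) (nat_lit 7))
    (@En.n l9606 (nat_lit 3341) (nat_lit 7) (nat_lit 7))
    (@En.n l50 (nat_lit 4798) (nat_lit 15) (nat_lit 2))))
  (@Cl.mk (nat_lit 0x200070007000d000c00080003000e0004000200090009000d0008000e0003) (nat_lit 0xa850100555380) (nat_lit 16) Lb.e (@T16.mk En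
    (@En.n l11614 (nat_lit 4795) (nat_lit 9) (nat_lit 3))
    (@En.n l26700 (nat_lit 13154) (nat_lit 0) (nat_lit 14))
    (@En.n l28669 (nat_lit 5305) (nat_lit 2) (nat_lit 8))
    (@En.n l1353 (nat_lit 4370) (nat_lit 13) (nat_lit 13))
    (@En.n l61 (nat_lit 4796) (nat_lit 14) (nat_lit 9))
    (@En.n l614 (nat_lit 5532) (nat_lit 5) (nat_lit 9))
    (@En.n l11 (nat_lit 4799) (nat_lit 6) (nat_lit 2))
    (@En.n l117 (nat_lit 4757) (nat_lit 7) (nat_lit 4))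
    (@En.n l2691 (nat_lit 699) (nat_lit 1) (nat_lit 14))
    (@En.n l936 (nat_lit 4798) (nat_lit 9) (nat_lit 3))
    (@En.i (nat_lit 4905) (nat_lit 3) (nat_lit 8))
    (@En.n l936 (nat_lit 4681) (nat_lit 12) (nat_lit 12))
    (@En.i (nat_lit 4805) (nat_lit 13) (nat_lit 13))
    (@En.n l11053 (nat_lit 4802) (nat_lit 14) (nat_lit 7))
    (@En.n l28670 (nat_lit 3334) (nat_lit 7) (nat_lit 7))
    (@En.n l50 (nat_lit 4799) (nat_lit 15) (nat_lit 2))))
noncomputable def a300 : T16 Cl := @T16.mk Cl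
  (@Cl.mk (nat_lit 0x20007000d0006000d0003000e00030002000e00090002000d000a000e0003) (nat_lit 0xa060300b7096c0) (nat_lit 16) Lb.e (@T16.mk En
    (@En.n l11 (nat_lit 4601) (nat_lit 11) (nat_lit 3))
    (@En.n l3459 (nat_lit 13209) (nat_lit 0) (nat_lit 14))
    (@En.i (nat_lit 4817) (nat_lit 2) (nat_lit 10))
    (@En.n l5267 (nat_lit 4373) (nat_lit 12) (nat_lit 13))
    (@En.n l3 (nat_lit 4800) (nat_lit 4) (nat_lit 2))
    (@En.n l8158 (nat_lit 4798) (nat_lit 5) (nat_lit 9))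
    (@En.i (nat_lit 5550) (nat_lit 1) (nat_lit 14))
    (@En.n l17 (nat_lit 4800) (nat_lit 7) (nat_lit 2))
    (@En.i (nat_lit 4801) (nat_lit 8) (nat_lit 3))
    (@En.i (nat_lit 13045) (nat_lit 0) (nat_lit 14))
    (@En.i (nat_lit 4802) (nat_lit 10) (nat_lit 3))
    (@En.n l1393 (nat_lit 4719) (nat_lit 12) (nat_lit 13))
    (@En.n l4412 (nat_lit 4804) (nat_lit 13) (nat_lit 6))
    (@En.i (nat_lit 2854) (nat_lit 14) (nat_lit 13))
    (@En.n l810 (nat_lit 3002) (nat_lit 6) (nat_lit 7))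
    (@En.n l28 (nat_lit 4800) (nat_lit 15) (nat_lit 2))))
  (@Cl.mk (nat_lit 0x20007000c0006000d000d000400030003000e00090002000d000a000e0003) (nat_lit 0x1067000c5016a0) (nat_lit 16) Lb.e (@T16.mk En
    (@En.n l11 (nat_lit 4597) (nat_lit 11) (nat_lit 3))
    (@En.n l5267 (nat_lit 13205) (nat_lit 0) (nat_lit 14))
    (@En.i (nat_lit 4814) (nat_lit 2) (nat_lit 10))
    (@En.n l8328 (nat_lit 2326) (nat_lit 11) (nat_lit 13))
    (@En.n l3 (nat_lit 4801) (nat_lit 4) (nat_lit 2))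
    (@En.n l8328 (nat_lit 4681) (nat_lit 5) (nat_lit 9))
    (@En.n l5224 (nat_lit 5552) (nat_lit 1) (nat_lit 14))
    (@En.n l3180 (nat_lit 4812) (nat_lit 13) (nat_lit 3))
    (@En.n l18 (nat_lit 4800) (nat_lit 8) (nat_lit 3))
    (@En.n l5224 (nat_lit 4714) (nat_lit 0) (nat_lit 4))
    (@En.n l61 (nat_lit 4800) (nat_lit 11) (nat_lit 13))
    (@En.n l1392 (nat_lit 4716) (nat_lit 12) (nat_lit 13))
    (@En.n l11059 (nat_lit 3991) (nat_lit 13) (nat_lit 6))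
    (@En.n l10791 (nat_lit 2858) (nat_lit 14) (nat_lit 12))
    (@En.n l810 (nat_lit 3744) (nat_lit 5) (nat_lit 7))
    (@En.n l28 (nat_lit 4801) (nat_lit 15) (nat_lit 2))))
  (@Cl.mk (nat_lit 0x20007000d000c00070003000e00040002000e00090002000d0009000e0003) (nat_lit 0xb200100b603090) (nat_lit 16) Lb.e (@T16.mk En
    (@En.n l11 (nat_lit 4803) (nat_lit 11) (nat_lit 3))
    (@En.n l3459 (nat_lit 13210) (nat_lit 0) (nat_lit 14))
    (@En.i (nat_lit 4823) (nat_lit 2) (nat_lit 9))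
    (@En.n l5267 (nat_lit 4375) (nat_lit 12) (nat_lit 13))
    (@En.n l3 (nat_lit 4802) (nat_lit 4) (nat_lit 2))
    (@En.n l3985 (nat_lit 4799) (nat_lit 5) (nat_lit 9))
    (@En.i (nat_lit 5507) (nat_lit 1) (nat_lit 14))
    (@En.n l17 (nat_lit 4802) (nat_lit 7) (nat_lit 2))
    (@En.n l8934 (nat_lit 4727) (nat_lit 8) (nat_lit 4))
    (@En.n l998 (nat_lit 922) (nat_lit 1) (nat_lit 14))
    (@En.n l50 (nat_lit 4800) (nat_lit 10) (nat_lit 3))
    (@En.n l685 (nat_lit 2116) (nat_lit 12) (nat_lit 7))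
    (@En.n l217 (nat_lit 4801) (nat_lit 13) (nat_lit 12))
    (@En.i (nat_lit 2857) (nat_lit 9) (nat_lit 13))
    (@En.n l810 (nat_lit 3331) (nat_lit 6) (nat_lit 7))
    (@En.n l28 (nat_lit 4802) (nat_lit 15) (nat_lit 2))))
  (@Cl.mk (nat_lit 0x2000d000d000a000300030007000d000c00060003000e00040002000e0009) (nat_lit 0x345000b600100c6) (nat_lit 16) Lb.e (@T16.mk En
    (@En.i (nat_lit 4795) (nat_lit 14) (nat_lit 9))
    (@En.i (nat_lit 5540) (nat_lit 1) (nat_lit 14))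
    (@En.n l17 (nat_lit 4803) (nat_lit 2) (nat_lit 2))
    (@En.n l50 (nat_lit 4599) (nat_lit 3) (nat_lit 4))
    (@En.n l998 (nat_lit 927) (nat_lit 1) (nat_lit 14))
    (@En.n l50 (nat_lit 4601) (nat_lit 5) (nat_lit 3))
    (@En.n l2678 (nat_lit 4907) (nat_lit 6) (nat_lit 6))
    (@En.n l217 (nat_lit 4597) (nat_lit 8) (nat_lit 12))
    (@En.i (nat_lit 2861) (nat_lit 9) (nat_lit 13))
    (@En.n l810 (nat_lit 3339) (nat_lit 6) (nat_lit 7))
    (@En.n l28 (nat_lit 4840) (nat_lit 13) (nat_lit 3))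
    (@En.i (nat_lit 4802) (nat_lit 0) (nat_lit 3))
    (@En.i (nat_lit 4844) (nat_lit 0) (nat_lit 10))
    (@En.n l1578 (nat_lit 4802) (nat_lit 3) (nat_lit 13))
    (@En.i (nat_lit 4377) (nat_lit 12) (nat_lit 13))
    (@En.n l3 (nat_lit 4803) (nat_lit 15) (nat_lit 2))))
  (@Cl.mk (nat_lit 0x200080006000d0007000e00030002000e00080002000c000a0009000e0004) (nat_lit 0x2070300c10371b0) (nat_lit 16) Lb.e (@T16.mk En
    (@En.n l575 (nat_lit 4595) (nat_lit 10) (nat_lit 4))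
    (@En.n l17372 (nat_lit 3937) (nat_lit 1) (nat_lit 14))
    (@En.n l18848 (nat_lit 4802) (nat_lit 2) (nat_lit 9))
    (@En.n l23198 (nat_lit 4663) (nat_lit 3) (nat_lit 10))
    (@En.n l12772 (nat_lit 4194) (nat_lit 12) (nat_lit 12))
    (@En.n l3 (nat_lit 4804) (nat_lit 5) (nat_lit 2))
    (@En.n l9957 (nat_lit 3989) (nat_lit 6) (nat_lit 8))
    (@En.i (nat_lit 11129) (nat_lit 1) (nat_lit 14))
    (@En.n l17 (nat_lit 4804) (nat_lit 8) (nat_lit 2))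
    (@En.n l23199 (nat_lit 3991) (nat_lit 9) (nat_lit 3))
    (@En.i (nat_lit 13959) (nat_lit 0) (nat_lit 14))
    (@En.n l7 (nat_lit 2118) (nat_lit 12) (nat_lit 7))
    (@En.n l17372 (nat_lit 3406) (nat_lit 13) (nat_lit 13))
    (@En.n l11796 (nat_lit 5123) (nat_lit 14) (nat_lit 6))
    (@En.n l8947 (nat_lit 3047) (nat_lit 5) (nat_lit 8))
    (@En.n l11 (nat_lit 4804) (nat_lit 15) (nat_lit 2))))
  (@Cl.mk (nat_lit 0x20007000d000b00070003000b000e0005000200090005000d0009000e0003) (nat_lit 0x96005200506040) (nat_lit 16) Lb.e (@T16.mk En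
    (@En.n l23439 (nat_lit 4807) (nat_lit 9) (nat_lit 3))
    (@En.n l10329 (nat_lit 13361) (nat_lit 0) (nat_lit 14))
    (@En.n l10581 (nat_lit 6949) (nat_lit 2) (nat_lit 9))
    (@En.n l1353 (nat_lit 12126) (nat_lit 13) (nat_lit 13))
    (@En.n l13131 (nat_lit 4811) (nat_lit 14) (nat_lit 5))
    (@En.n l8991 (nat_lit 5625) (nat_lit 5) (nat_lit 9))
    (@En.n l11 (nat_lit 4805) (nat_lit 6) (nat_lit 2))
    (@En.n l117 (nat_lit 7272) (nat_lit 7) (nat_lit 5))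
    (@En.n l10581 (nat_lit 4802) (nat_lit 9) (nat_lit 14))
    (@En.n l10329 (nat_lit 5508) (nat_lit 2) (nat_lit 11))
    (@En.n l936 (nat_lit 4806) (nat_lit 10) (nat_lit 3))
    (@En.i (nat_lit 12836) (nat_lit 4) (nat_lit 7))
    (@En.n l22697 (nat_lit 7224) (nat_lit 13) (nat_lit 11))
    (@En.n l7246 (nat_lit 2862) (nat_lit 7) (nat_lit 13))
    (@En.n l9345 (nat_lit 8094) (nat_lit 7) (nat_lit 7))
    (@En.n l50 (nat_lit 4805) (nat_lit 15) (nat_lit 2))))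
  (@Cl.mk (nat_lit 0x20007000d0006000c0003000b000e0004000200090005000d000a000e0003) (nat_lit 0xa0404400709580) (nat_lit 16) Lb.e (@T16.mk En
    (@En.n l7234 (nat_lit 4808) (nat_lit 9) (nat_lit 3))
    (@En.n l2099 (nat_lit 13360) (nat_lit 0) (nat_lit 14))
    (@En.n l5570 (nat_lit 7461) (nat_lit 2) (nat_lit 10))
    (@En.n l1353 (nat_lit 12125) (nat_lit 13) (nat_lit 13))
    (@En.n l61 (nat_lit 7458) (nat_lit 14) (nat_lit 5))
    (@En.n l1353 (nat_lit 5563) (nat_lit 5) (nat_lit 9))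
    (@En.n l11 (nat_lit 4806) (nat_lit 6) (nat_lit 2))
    (@En.n l26973 (nat_lit 7274) (nat_lit 7) (nat_lit 4))
    (@En.n l5570 (nat_lit 4800) (nat_lit 9) (nat_lit 14))
    (@En.i (nat_lit 3959) (nat_lit 2) (nat_lit 11))
    (@En.n l2576 (nat_lit 4805) (nat_lit 10) (nat_lit 3))
    (@En.i (nat_lit 4858) (nat_lit 12) (nat_lit 12))
    (@En.n l4817 (nat_lit 8923) (nat_lit 5) (nat_lit 6))
    (@En.n l4103 (nat_lit 2855) (nat_lit 7) (nat_lit 13))
    (@En.n l14148 (nat_lit 8091) (nat_lit 7) (nat_lit 7))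
    (@En.n l50 (nat_lit 4806) (nat_lit 15) (nat_lit 2))))
  (@Cl.mk (nat_lit 0x200090005000d000d000a000300030007000d000b00060003000b000e0005) (nat_lit 0x60670000a700520) (nat_lit 16) Lb.e (@T16.mk En
    (@En.n l3928 (nat_lit 7269) (nat_lit 6) (nat_lit 5))
    (@En.i (nat_lit 4803) (nat_lit 4) (nat_lit 14))
    (@En.n l250 (nat_lit 5511) (nat_lit 2) (nat_lit 11))
    (@En.n l50 (nat_lit 4808) (nat_lit 3) (nat_lit 3))
    (@En.n l2678 (nat_lit 11346) (nat_lit 4) (nat_lit 6))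
    (@En.n l217 (nat_lit 7222) (nat_lit 12) (nat_lit 11))
    (@En.n l3815 (nat_lit 2863) (nat_lit 7) (nat_lit 13))
    (@En.n l810 (nat_lit 8092) (nat_lit 7) (nat_lit 7))
    (@En.n l28 (nat_lit 4809) (nat_lit 8) (nat_lit 3))
    (@En.n l10172 (nat_lit 4805) (nat_lit 0) (nat_lit 3))
    (@En.i (nat_lit 5154) (nat_lit 11) (nat_lit 10))
    (@En.n l31459 (nat_lit 4805) (nat_lit 3) (nat_lit 13))
    (@En.n l781 (nat_lit 7889) (nat_lit 13) (nat_lit 13))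
    (@En.i (nat_lit 4810) (nat_lit 14) (nat_lit 5))
    (@En.n l3928 (nat_lit 5536) (nat_lit 4) (nat_lit 9))
    (@En.n l17 (nat_lit 4807) (nat_lit 15) (nat_lit 2))))
  (@Cl.mk (nat_lit 0x200090005000d000d000b000300030007000d0005000c0003000b000e0004) (nat_lit 0x709a50009060440) (nat_lit 16) Lb.e (@T16.mk En
    (@En.n l24756 (nat_lit 7267) (nat_lit 6) (nat_lit 4))
    (@En.i (nat_lit 4601) (nat_lit 4) (nat_lit 14))
    (@En.n l253 (nat_lit 3960) (nat_lit 2) (nat_lit 11))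
    (@En.i (nat_lit 4807) (nat_lit 3) (nat_lit 3))
    (@En.n l11106 (nat_lit 4859) (nat_lit 0) (nat_lit 12))
    (@En.n l2678 (nat_lit 10749) (nat_lit 5) (nat_lit 5))
    (@En.n l3815 (nat_lit 2860) (nat_lit 7) (nat_lit 13))
    (@En.n l810 (nat_lit 8089) (nat_lit 7) (nat_lit 7))
    (@En.n l28 (nat_lit 7500) (nat_lit 8) (nat_lit 3))
    (@En.n l3706 (nat_lit 4806) (nat_lit 0) (nat_lit 3))
    (@En.i (nat_lit 7501) (nat_lit 11) (nat_lit 11))
    (@En.n l11105 (nat_lit 4806) (nat_lit 3) (nat_lit 13))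
    (@En.n l781 (nat_lit 7891) (nat_lit 13) (nat_lit 13))
    (@En.i (nat_lit 7200) (nat_lit 14) (nat_lit 5))
    (@En.n l2125 (nat_lit 5562) (nat_lit 4) (nat_lit 9))
    (@En.n l17 (nat_lit 4808) (nat_lit 15) (nat_lit 2))))
  (@Cl.mk (nat_lit 0x200090005000e000d0002000b00030007000d000b00050003000b000e0005) (nat_lit 0x60a70000a700520) (nat_lit 16) Lb.e (@T16.mk En
    (@En.n l3928 (nat_lit 7268) (nat_lit 5) (nat_lit 5))
    (@En.i (nat_lit 4840) (nat_lit 7) (nat_lit 14))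
    (@En.n l250 (nat_lit 7021) (nat_lit 2) (nat_lit 11))
    (@En.n l50 (nat_lit 7500) (nat_lit 3) (nat_lit 3))
    (@En.i (nat_lit 11349) (nat_lit 4) (nat_lit 5))
    (@En.n l217 (nat_lit 7223) (nat_lit 11) (nat_lit 11))
    (@En.n l2544 (nat_lit 3621) (nat_lit 7) (nat_lit 13))
    (@En.i (nat_lit 7031) (nat_lit 7) (nat_lit 7))
    (@En.i (nat_lit 4807) (nat_lit 8) (nat_lit 3))
    (@En.i (nat_lit 5077) (nat_lit 0) (nat_lit 11))
    (@En.n l11 (nat_lit 4809) (nat_lit 10) (nat_lit 2))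
    (@En.n l1578 (nat_lit 4807) (nat_lit 12) (nat_lit 13))
    (@En.n l781 (nat_lit 7885) (nat_lit 1) (nat_lit 14))
    (@En.i (nat_lit 7364) (nat_lit 14) (nat_lit 5))
    (@En.n l3928 (nat_lit 5624) (nat_lit 3) (nat_lit 9))
    (@En.n l17 (nat_lit 4809) (nat_lit 15) (nat_lit 2))))
  (@Cl.mk (nat_lit 0x20005000d000d000a00030003000a000d000a00060003000b0006000e0006) (nat_lit 0x7000587005030) (nat_lit 16) Lb.e (@T16.mk En
    (@En.n l11560 (nat_lit 7361) (nat_lit 5) (nat_lit 6))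
    (@En.n l3 (nat_lit 4807) (nat_lit 1) (nat_lit 14))
    (@En.n l10368 (nat_lit 7194) (nat_lit 2) (nat_lit 6))
    (@En.n l24201 (nat_lit 7013) (nat_lit 3) (nat_lit 11))
    (@En.n l50 (nat_lit 7200) (nat_lit 4) (nat_lit 3))
    (@En.n l35348 (nat_lit 11340) (nat_lit 5) (nat_lit 6))
    (@En.n l35349 (nat_lit 7226) (nat_lit 12) (nat_lit 10))
    (@En.n l16443 (nat_lit 3613) (nat_lit 8) (nat_lit 13))
    (@En.i (nat_lit 9898) (nat_lit 9) (nat_lit 10))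
    (@En.n l28 (nat_lit 7364) (nat_lit 9) (nat_lit 3))
    (@En.n l35350 (nat_lit 4811) (nat_lit 10) (nat_lit 3))
    (@En.i (nat_lit 5152) (nat_lit 12) (nat_lit 10))
    (@En.n l35351 (nat_lit 4811) (nat_lit 13) (nat_lit 13))
    (@En.n l24198 (nat_lit 8690) (nat_lit 14) (nat_lit 13))
    (@En.n l3106 (nat_lit 5544) (nat_lit 13) (nat_lit 5))
    (@En.n l17 (nat_lit 4810) (nat_lit 15) (nat_lit 2))))
  (@Cl.mk (nat_lit 0x20005000d0009000e00030002000a000d000a00070003000b0006000e0006) (nat_lit 0x60800594005030) (nat_lit 16) Lb.e (@T16.mk En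
    (@En.n l4770 (nat_lit 7372) (nat_lit 6) (nat_lit 6))
    (@En.n l25731 (nat_lit 4805) (nat_lit 8) (nat_lit 14))
    (@En.n l5098 (nat_lit 7195) (nat_lit 2) (nat_lit 6))
    (@En.i (nat_lit 7012) (nat_lit 3) (nat_lit 11))
    (@En.n l10976 (nat_lit 7458) (nat_lit 4) (nat_lit 3))
    (@En.n l12876 (nat_lit 12835) (nat_lit 5) (nat_lit 7))
    (@En.i (nat_lit 7375) (nat_lit 13) (nat_lit 10))
    (@En.n l20170 (nat_lit 3614) (nat_lit 8) (nat_lit 13))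
    (@En.n l38976 (nat_lit 9020) (nat_lit 9) (nat_lit 10))
    (@En.n l17 (nat_lit 4811) (nat_lit 9) (nat_lit 2))
    (@En.n l38977 (nat_lit 4810) (nat_lit 10) (nat_lit 3))
    (@En.i (nat_lit 13359) (nat_lit 0) (nat_lit 14))
    (@En.n l20170 (nat_lit 6948) (nat_lit 13) (nat_lit 9))
    (@En.n l12876 (nat_lit 8685) (nat_lit 14) (nat_lit 13))
    (@En.n l35374 (nat_lit 5549) (nat_lit 13) (nat_lit 5))
    (@En.n l28 (nat_lit 4811) (nat_lit 15) (nat_lit 2))))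
  (@Cl.mk (nat_lit 0x200050003000e00090002000d000a000e000300020007000b0006000e000d) (nat_lit 0xc5016c0006077) (nat_lit 16) Lb.e (@T16.mk En
    (@En.n l6108 (nat_lit 4801) (nat_lit 11) (nat_lit 13))
    (@En.n l1459 (nat_lit 4759) (nat_lit 12) (nat_lit 14))
    (@En.n l775 (nat_lit 4826) (nat_lit 13) (nat_lit 6))
    (@En.i (nat_lit 3541) (nat_lit 3) (nat_lit 11))
    (@En.i (nat_lit 3743) (nat_lit 4) (nat_lit 7))
    (@En.n l776 (nat_lit 4812) (nat_lit 5) (nat_lit 2))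
    (@En.n l50 (nat_lit 4598) (nat_lit 6) (nat_lit 3))
    (@En.i (nat_lit 13206) (nat_lit 0) (nat_lit 14))
    (@En.n l217 (nat_lit 4813) (nat_lit 9) (nat_lit 10))
    (@En.n l2586 (nat_lit 2325) (nat_lit 10) (nat_lit 13))
    (@En.n l28 (nat_lit 4812) (nat_lit 10) (nat_lit 2))
    (@En.n l18600 (nat_lit 4686) (nat_lit 12) (nat_lit 9))
    (@En.n l2039 (nat_lit 5378) (nat_lit 13) (nat_lit 14))
    (@En.n l12871 (nat_lit 4801) (nat_lit 7) (nat_lit 3))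
    (@En.n l781 (nat_lit 3385) (nat_lit 8) (nat_lit 5))
    (@En.n l3 (nat_lit 4812) (nat_lit 15) (nat_lit 2))))
  (@Cl.mk (nat_lit 0x200060003000e000a0002000a000e000b00020006000a00060005000e000d) (nat_lit 0xc60560005009a) (nat_lit 16) Lb.e (@T16.mk En
    (@En.n l13393 (nat_lit 4814) (nat_lit 10) (nat_lit 13))
    (@En.n l6147 (nat_lit 9320) (nat_lit 11) (nat_lit 14))
    (@En.n l18 (nat_lit 4598) (nat_lit 2) (nat_lit 5))
    (@En.n l775 (nat_lit 4662) (nat_lit 13) (nat_lit 6))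
    (@En.i (nat_lit 3580) (nat_lit 4) (nat_lit 10))
    (@En.i (nat_lit 7329) (nat_lit 5) (nat_lit 6))
    (@En.n l2196 (nat_lit 4813) (nat_lit 6) (nat_lit 2))
    (@En.n l2197 (nat_lit 4820) (nat_lit 8) (nat_lit 11))
    (@En.i (nat_lit 4855) (nat_lit 9) (nat_lit 14))
    (@En.n l2199 (nat_lit 6002) (nat_lit 2) (nat_lit 10))
    (@En.n l28 (nat_lit 4813) (nat_lit 10) (nat_lit 2))
    (@En.i (nat_lit 4815) (nat_lit 12) (nat_lit 10))
    (@En.n l2199 (nat_lit 5372) (nat_lit 1) (nat_lit 14))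
    (@En.n l13397 (nat_lit 4814) (nat_lit 6) (nat_lit 3))
    (@En.i (nat_lit 4871) (nat_lit 7) (nat_lit 6))
    (@En.n l3 (nat_lit 4813) (nat_lit 15) (nat_lit 2))))
  (@Cl.mk (nat_lit 0x20006000b00060005000d000d000500030003000e000a0002000a000e000b) (nat_lit 0x10099000c60550) (nat_lit 16) Lb.e (@T16.mk En
    (@En.n l19679 (nat_lit 4819) (nat_lit 13) (nat_lit 11))
    (@En.n l1395 (nat_lit 4824) (nat_lit 1) (nat_lit 14))
    (@En.n l1543 (nat_lit 6003) (nat_lit 2) (nat_lit 10))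
    (@En.n l3 (nat_lit 4814) (nat_lit 3) (nat_lit 2))
    (@En.n l8328 (nat_lit 4816) (nat_lit 4) (nat_lit 10))
    (@En.n l1543 (nat_lit 8158) (nat_lit 1) (nat_lit 14))
    (@En.n l12143 (nat_lit 4813) (nat_lit 13) (nat_lit 3))
    (@En.n l18 (nat_lit 4817) (nat_lit 7) (nat_lit 3))
    (@En.n l12802 (nat_lit 4822) (nat_lit 8) (nat_lit 5))
    (@En.n l61 (nat_lit 4817) (nat_lit 10) (nat_lit 13))
    (@En.n l1395 (nat_lit 9030) (nat_lit 11) (nat_lit 13))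
    (@En.i (nat_lit 4597) (nat_lit 7) (nat_lit 5))
    (@En.n l6476 (nat_lit 4661) (nat_lit 13) (nat_lit 6))
    (@En.n l11630 (nat_lit 2867) (nat_lit 14) (nat_lit 11))
    (@En.n l810 (nat_lit 7330) (nat_lit 6) (nat_lit 6))
    (@En.n l28 (nat_lit 4814) (nat_lit 15) (nat_lit 2))))
  (@Cl.mk (nat_lit 0x200060003000a000a0009000e000a000200060006000a00070006000e000d) (nat_lit 0x5851200060090) (nat_lit 16) Lb.e (@T16.mk En
    (@En.n l11289 (nat_lit 4816) (nat_lit 9) (nat_lit 13))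
    (@En.n l797 (nat_lit 8963) (nat_lit 10) (nat_lit 14))
    (@En.n l2195 (nat_lit 4680) (nat_lit 2) (nat_lit 6))
    (@En.n l11290 (nat_lit 4136) (nat_lit 12) (nat_lit 7))
    (@En.n l2195 (nat_lit 6762) (nat_lit 13) (nat_lit 10))
    (@En.n l55 (nat_lit 4813) (nat_lit 5) (nat_lit 6))
    (@En.i (nat_lit 7360) (nat_lit 6) (nat_lit 6))
    (@En.n l2196 (nat_lit 4815) (nat_lit 7) (nat_lit 2))
    (@En.n l2197 (nat_lit 3299) (nat_lit 9) (nat_lit 10))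
    (@En.n l7655 (nat_lit 2455) (nat_lit 10) (nat_lit 14))
    (@En.n l2199 (nat_lit 5578) (nat_lit 2) (nat_lit 9))
    (@En.n l11291 (nat_lit 5811) (nat_lit 12) (nat_lit 10))
    (@En.n l11292 (nat_lit 7486) (nat_lit 4) (nat_lit 10))
    (@En.n l11293 (nat_lit 4816) (nat_lit 5) (nat_lit 3))
    (@En.i (nat_lit 4938) (nat_lit 6) (nat_lit 6))
    (@En.n l3 (nat_lit 4815) (nat_lit 15) (nat_lit 2))))
noncomputable def a301 : T16 Cl := @T16.mk Cl
  (@Cl.mk (nat_lit 0x200060006000b00070006000d000d000500030003000a000a0009000e000a) (nat_lit 0x300ba00056342) (nat_lit 16) Lb.e (@T16.mk En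
    (@En.n l19779 (nat_lit 3296) (nat_lit 10) (nat_lit 10))
    (@En.n l19780 (nat_lit 2454) (nat_lit 1) (nat_lit 14))
    (@En.n l19781 (nat_lit 5576) (nat_lit 2) (nat_lit 9))
    (@En.n l61 (nat_lit 5810) (nat_lit 6) (nat_lit 10))
    (@En.n l649 (nat_lit 5289) (nat_lit 4) (nat_lit 10))
    (@En.n l19782 (nat_lit 4815) (nat_lit 13) (nat_lit 3))
    (@En.n l19783 (nat_lit 4818) (nat_lit 6) (nat_lit 3))
    (@En.n l17070 (nat_lit 5307) (nat_lit 7) (nat_lit 5))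
    (@En.n l19784 (nat_lit 4818) (nat_lit 9) (nat_lit 13))
    (@En.n l19785 (nat_lit 8980) (nat_lit 10) (nat_lit 13))
    (@En.n l15558 (nat_lit 4679) (nat_lit 10) (nat_lit 6))
    (@En.n l8361 (nat_lit 4134) (nat_lit 12) (nat_lit 7))
    (@En.n l15744 (nat_lit 6767) (nat_lit 13) (nat_lit 11))
    (@En.n l19786 (nat_lit 4814) (nat_lit 14) (nat_lit 6))
    (@En.n l19787 (nat_lit 4341) (nat_lit 7) (nat_lit 6))
    (@En.n l50 (nat_lit 4816) (nat_lit 15) (nat_lit 2))))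
  (@Cl.mk (nat_lit 0x20006000c00060005000d0004000e00030002000e000a0002000a000e000b) (nat_lit 0x10080700a60560) (nat_lit 16) Lb.e (@T16.mk En
    (@En.n l11 (nat_lit 4821) (nat_lit 13) (nat_lit 11))
    (@En.n l1395 (nat_lit 4854) (nat_lit 1) (nat_lit 14))
    (@En.i (nat_lit 6004) (nat_lit 2) (nat_lit 10))
    (@En.n l3 (nat_lit 4817) (nat_lit 3) (nat_lit 2))
    (@En.i (nat_lit 4818) (nat_lit 4) (nat_lit 10))
    (@En.i (nat_lit 8159) (nat_lit 1) (nat_lit 14))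
    (@En.n l17 (nat_lit 4817) (nat_lit 6) (nat_lit 2))
    (@En.i (nat_lit 4814) (nat_lit 7) (nat_lit 3))
    (@En.n l175 (nat_lit 12963) (nat_lit 0) (nat_lit 14))
    (@En.i (nat_lit 4823) (nat_lit 9) (nat_lit 4))
    (@En.n l1395 (nat_lit 9029) (nat_lit 11) (nat_lit 13))
    (@En.i (nat_lit 4601) (nat_lit 7) (nat_lit 5))
    (@En.i (nat_lit 4663) (nat_lit 13) (nat_lit 6))
    (@En.n l175 (nat_lit 2859) (nat_lit 10) (nat_lit 12))
    (@En.n l810 (nat_lit 7416) (nat_lit 7) (nat_lit 6))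
    (@En.n l28 (nat_lit 4817) (nat_lit 15) (nat_lit 2))))
  (@Cl.mk (nat_lit 0x200060006000c00070006000d0004000e00030002000a000a0009000e000a) (nat_lit 0x4009080056252) (nat_lit 16) Lb.e (@T16.mk En
    (@En.n l8342 (nat_lit 3295) (nat_lit 11) (nat_lit 10))
    (@En.n l11119 (nat_lit 2453) (nat_lit 12) (nat_lit 14))
    (@En.n l11120 (nat_lit 5577) (nat_lit 2) (nat_lit 9))
    (@En.n l11121 (nat_lit 5809) (nat_lit 14) (nat_lit 10))
    (@En.n l5012 (nat_lit 5290) (nat_lit 4) (nat_lit 10))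
    (@En.n l17 (nat_lit 4818) (nat_lit 5) (nat_lit 2))
    (@En.n l8328 (nat_lit 4816) (nat_lit 6) (nat_lit 3))
    (@En.n l175 (nat_lit 12962) (nat_lit 0) (nat_lit 14))
    (@En.i (nat_lit 5305) (nat_lit 8) (nat_lit 4))
    (@En.n l7687 (nat_lit 9027) (nat_lit 10) (nat_lit 13))
    (@En.i (nat_lit 4683) (nat_lit 4) (nat_lit 6))
    (@En.n l4146 (nat_lit 4135) (nat_lit 12) (nat_lit 7))
    (@En.n l476 (nat_lit 7461) (nat_lit 13) (nat_lit 12))
    (@En.n l152 (nat_lit 4817) (nat_lit 14) (nat_lit 6))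
    (@En.n l810 (nat_lit 4338) (nat_lit 8) (nat_lit 6))
    (@En.n l28 (nat_lit 4818) (nat_lit 15) (nat_lit 2))))
  (@Cl.mk (nat_lit 0x2000b000b000b0005000a000500050005000d000d000600030003000e000b) (nat_lit 0x492030003500056) (nat_lit 16) Lb.e (@T16.mk En
    (@En.n l8631 (nat_lit 3296) (nat_lit 13) (nat_lit 11))
    (@En.i (nat_lit 8026) (nat_lit 1) (nat_lit 14))
    (@En.n l152 (nat_lit 4820) (nat_lit 13) (nat_lit 3))
    (@En.n l28939 (nat_lit 4821) (nat_lit 3) (nat_lit 3))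
    (@En.n l97 (nat_lit 5247) (nat_lit 0) (nat_lit 6))
    (@En.n l11623 (nat_lit 4821) (nat_lit 6) (nat_lit 13))
    (@En.i (nat_lit 9107) (nat_lit 7) (nat_lit 13))
    (@En.n l34950 (nat_lit 4814) (nat_lit 11) (nat_lit 5))
    (@En.n l24250 (nat_lit 4843) (nat_lit 11) (nat_lit 5))
    (@En.i (nat_lit 4664) (nat_lit 9) (nat_lit 5))
    (@En.i (nat_lit 2870) (nat_lit 11) (nat_lit 10))
    (@En.n l2781 (nat_lit 7036) (nat_lit 7) (nat_lit 5))
    (@En.n l742 (nat_lit 4517) (nat_lit 13) (nat_lit 11))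
    (@En.n l396 (nat_lit 5122) (nat_lit 5) (nat_lit 11))
    (@En.n l7 (nat_lit 5635) (nat_lit 11) (nat_lit 11))
    (@En.n l28 (nat_lit 4819) (nat_lit 15) (nat_lit 2))))
  (@Cl.mk (nat_lit 0x200070003000e000b0002000b000b000b00050009000500050005000e000d) (nat_lit 0x54069204000a4) (nat_lit 16) Lb.e (@T16.mk En
    (@En.i (nat_lit 4819) (nat_lit 6) (nat_lit 13))
    (@En.i (nat_lit 8557) (nat_lit 1) (nat_lit 14))
    (@En.n l1935 (nat_lit 4813) (nat_lit 2) (nat_lit 5))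
    (@En.n l2172 (nat_lit 4850) (nat_lit 3) (nat_lit 5))
    (@En.i (nat_lit 4665) (nat_lit 4) (nat_lit 5))
    (@En.i (nat_lit 3544) (nat_lit 5) (nat_lit 9))
    (@En.n l5802 (nat_lit 7063) (nat_lit 6) (nat_lit 5))
    (@En.n l742 (nat_lit 5863) (nat_lit 8) (nat_lit 11))
    (@En.n l396 (nat_lit 5121) (nat_lit 5) (nat_lit 11))
    (@En.n l7 (nat_lit 5636) (nat_lit 10) (nat_lit 11))
    (@En.n l28 (nat_lit 4820) (nat_lit 10) (nat_lit 2))
    (@En.i (nat_lit 3299) (nat_lit 12) (nat_lit 11))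
    (@En.i (nat_lit 5257) (nat_lit 1) (nat_lit 14))
    (@En.n l117 (nat_lit 4819) (nat_lit 2) (nat_lit 3))
    (@En.i (nat_lit 4980) (nat_lit 3) (nat_lit 7))
    (@En.n l3 (nat_lit 4820) (nat_lit 15) (nat_lit 2))))
  (@Cl.mk (nat_lit 0x2000b000b000b0005000b000500050005000d0005000e00030002000e000b) (nat_lit 0x492020004050087) (nat_lit 16) Lb.e (@T16.mk En
    (@En.n l5403 (nat_lit 3295) (nat_lit 14) (nat_lit 11))
    (@En.i (nat_lit 8024) (nat_lit 1) (nat_lit 14))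
    (@En.n l17 (nat_lit 4821) (nat_lit 2) (nat_lit 2))
    (@En.n l10798 (nat_lit 4819) (nat_lit 3) (nat_lit 3))
    (@En.i (nat_lit 12966) (nat_lit 0) (nat_lit 14))
    (@En.i (nat_lit 5739) (nat_lit 5) (nat_lit 5))
    (@En.n l2669 (nat_lit 7695) (nat_lit 7) (nat_lit 13))
    (@En.n l1578 (nat_lit 4817) (nat_lit 11) (nat_lit 5))
    (@En.n l575 (nat_lit 4842) (nat_lit 11) (nat_lit 5))
    (@En.n l5399 (nat_lit 4666) (nat_lit 9) (nat_lit 5))
    (@En.n l16411 (nat_lit 2865) (nat_lit 11) (nat_lit 11))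
    (@En.n l810 (nat_lit 7034) (nat_lit 8) (nat_lit 5))
    (@En.n l565 (nat_lit 5876) (nat_lit 13) (nat_lit 11))
    (@En.n l5402 (nat_lit 5123) (nat_lit 5) (nat_lit 11))
    (@En.i (nat_lit 5637) (nat_lit 12) (nat_lit 11))
    (@En.n l3 (nat_lit 4821) (nat_lit 15) (nat_lit 2))))
  (@Cl.mk (nat_lit 0x20006000b000a00070006000e000500020006000e000a00020009000e000a) (nat_lit 0x1600a000a50450) (nat_lit 16) Lb.e (@T16.mk En
    (@En.n l2197 (nat_lit 5247) (nat_lit 9) (nat_lit 10))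
    (@En.n l24663 (nat_lit 5204) (nat_lit 10) (nat_lit 14))
    (@En.n l2199 (nat_lit 5748) (nat_lit 2) (nat_lit 9))
    (@En.n l28 (nat_lit 4822) (nat_lit 3) (nat_lit 2))
    (@En.n l24664 (nat_lit 5307) (nat_lit 4) (nat_lit 10))
    (@En.n l24665 (nat_lit 4776) (nat_lit 6) (nat_lit 14))
    (@En.n l107 (nat_lit 4870) (nat_lit 6) (nat_lit 6))
    (@En.n l3 (nat_lit 4822) (nat_lit 7) (nat_lit 2))
    (@En.n l24666 (nat_lit 5302) (nat_lit 8) (nat_lit 5))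
    (@En.n l5004 (nat_lit 9306) (nat_lit 10) (nat_lit 14))
    (@En.n l20255 (nat_lit 4672) (nat_lit 2) (nat_lit 6))
    (@En.n l24667 (nat_lit 5620) (nat_lit 12) (nat_lit 7))
    (@En.i (nat_lit 4813) (nat_lit 4) (nat_lit 10))
    (@En.n l24665 (nat_lit 2410) (nat_lit 10) (nat_lit 11))
    (@En.i (nat_lit 6665) (nat_lit 6) (nat_lit 6))
    (@En.n l2196 (nat_lit 4822) (nat_lit 15) (nat_lit 2))))
  (@Cl.mk (nat_lit 0x20006000c000b000700060004000e00050002000e000a00020009000e000a) (nat_lit 0x120006004507b0) (nat_lit 16) Lb.e (@T16.mk En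
    (@En.n l11 (nat_lit 5739) (nat_lit 13) (nat_lit 10))
    (@En.n l1395 (nat_lit 1637) (nat_lit 1) (nat_lit 14))
    (@En.i (nat_lit 6007) (nat_lit 2) (nat_lit 9))
    (@En.n l3 (nat_lit 4823) (nat_lit 3) (nat_lit 2))
    (@En.i (nat_lit 5305) (nat_lit 4) (nat_lit 10))
    (@En.n l1544 (nat_lit 7185) (nat_lit 1) (nat_lit 14))
    (@En.n l17 (nat_lit 4823) (nat_lit 6) (nat_lit 2))
    (@En.n l50 (nat_lit 5302) (nat_lit 7) (nat_lit 5))
    (@En.n l998 (nat_lit 5761) (nat_lit 9) (nat_lit 14))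
    (@En.n l50 (nat_lit 8950) (nat_lit 9) (nat_lit 4))
    (@En.i (nat_lit 4803) (nat_lit 6) (nat_lit 6))
    (@En.i (nat_lit 11637) (nat_lit 12) (nat_lit 7))
    (@En.n l217 (nat_lit 4814) (nat_lit 13) (nat_lit 11))
    (@En.n l10778 (nat_lit 2975) (nat_lit 10) (nat_lit 12))
    (@En.n l810 (nat_lit 7769) (nat_lit 7) (nat_lit 6))
    (@En.n l28 (nat_lit 4823) (nat_lit 15) (nat_lit 2))))
  (@Cl.mk (nat_lit 0x2000d0006000b00030006000d000d000500030003000e000a0002000e000a) (nat_lit 0x109000000076041) (nat_lit 16) Lb.e (@T16.mk En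
    (@En.n l9246 (nat_lit 2106) (nat_lit 14) (nat_lit 10))
    (@En.n l1531 (nat_lit 5573) (nat_lit 1) (nat_lit 14))
    (@En.n l3 (nat_lit 4824) (nat_lit 2) (nat_lit 2))
    (@En.n l1532 (nat_lit 2454) (nat_lit 3) (nat_lit 10))
    (@En.n l14646 (nat_lit 6631) (nat_lit 1) (nat_lit 14))
    (@En.n l18597 (nat_lit 4855) (nat_lit 13) (nat_lit 3))
    (@En.n l7 (nat_lit 4854) (nat_lit 6) (nat_lit 3))
    (@En.n l1036 (nat_lit 5204) (nat_lit 0) (nat_lit 5))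
    (@En.n l644 (nat_lit 4854) (nat_lit 9) (nat_lit 13))
    (@En.i (nat_lit 12486) (nat_lit 10) (nat_lit 13))
    (@En.n l1718 (nat_lit 4801) (nat_lit 12) (nat_lit 6))
    (@En.n l18598 (nat_lit 2104) (nat_lit 11) (nat_lit 3))
    (@En.n l3858 (nat_lit 2866) (nat_lit 0) (nat_lit 11))
    (@En.n l2652 (nat_lit 7403) (nat_lit 14) (nat_lit 6))
    (@En.n l18599 (nat_lit 2106) (nat_lit 12) (nat_lit 13))
    (@En.n l17 (nat_lit 4824) (nat_lit 15) (nat_lit 2))))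
  (@Cl.mk (nat_lit 0x200070003000e000b0002000a000a000d00050009000300060006000e000d) (nat_lit 0x86000004000a1) (nat_lit 16) Lb.e (@T16.mk En
    (@En.i (nat_lit 2106) (nat_lit 6) (nat_lit 13))
    (@En.n l12529 (nat_lit 9229) (nat_lit 1) (nat_lit 14))
    (@En.n l13665 (nat_lit 4855) (nat_lit 2) (nat_lit 6))
    (@En.n l663 (nat_lit 4813) (nat_lit 3) (nat_lit 6))
    (@En.n l13666 (nat_lit 2105) (nat_lit 4) (nat_lit 3))
    (@En.i (nat_lit 2492) (nat_lit 0) (nat_lit 9))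
    (@En.n l663 (nat_lit 7405) (nat_lit 6) (nat_lit 5))
    (@En.n l947 (nat_lit 5120) (nat_lit 8) (nat_lit 13))
    (@En.n l948 (nat_lit 5120) (nat_lit 9) (nat_lit 10))
    (@En.n l947 (nat_lit 5568) (nat_lit 10) (nat_lit 10))
    (@En.n l28 (nat_lit 4825) (nat_lit 10) (nat_lit 2))
    (@En.n l3354 (nat_lit 2459) (nat_lit 12) (nat_lit 11))
    (@En.n l666 (nat_lit 4874) (nat_lit 1) (nat_lit 14))
    (@En.n l117 (nat_lit 2106) (nat_lit 2) (nat_lit 3))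
    (@En.n l2101 (nat_lit 4878) (nat_lit 3) (nat_lit 7))
    (@En.n l3 (nat_lit 4825) (nat_lit 15) (nat_lit 2))))
  (@Cl.mk (nat_lit 0x200080006000e000d000200090003000e00080002000c000a0007000e0004) (nat_lit 0x2052040c1098060) (nat_lit 16) Lb.e (@T16.mk En
    (@En.n l663 (nat_lit 4594) (nat_lit 5) (nat_lit 4))
    (@En.n l26596 (nat_lit 3938) (nat_lit 7) (nat_lit 14))
    (@En.n l26597 (nat_lit 4759) (nat_lit 2) (nat_lit 7))
    (@En.n l2863 (nat_lit 4662) (nat_lit 3) (nat_lit 10))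
    (@En.n l4357 (nat_lit 4195) (nat_lit 10) (nat_lit 12))
    (@En.n l28 (nat_lit 4826) (nat_lit 5) (nat_lit 2))
    (@En.n l26598 (nat_lit 3988) (nat_lit 6) (nat_lit 8))
    (@En.n l947 (nat_lit 9306) (nat_lit 1) (nat_lit 14))
    (@En.n l117 (nat_lit 3991) (nat_lit 8) (nat_lit 3))
    (@En.i (nat_lit 4828) (nat_lit 10) (nat_lit 9))
    (@En.n l3 (nat_lit 4826) (nat_lit 10) (nat_lit 2))
    (@En.i (nat_lit 3991) (nat_lit 12) (nat_lit 13))
    (@En.n l26599 (nat_lit 3398) (nat_lit 13) (nat_lit 14))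
    (@En.i (nat_lit 5121) (nat_lit 14) (nat_lit 6))
    (@En.n l1935 (nat_lit 4196) (nat_lit 3) (nat_lit 8))
    (@En.n l18 (nat_lit 4826) (nat_lit 15) (nat_lit 2))))
  (@Cl.mk (nat_lit 0x200090007000e000800020009000e00070002000b000900080007000e0005) (nat_lit 0x3081047003760c0) (nat_lit 16) Lb.e (@T16.mk En
    (@En.n l1175 (nat_lit 3172) (nat_lit 5) (nat_lit 5))
    (@En.n l26678 (nat_lit 5806) (nat_lit 7) (nat_lit 14))
    (@En.i (nat_lit 4826) (nat_lit 2) (nat_lit 7))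
    (@En.n l26597 (nat_lit 4477) (nat_lit 3) (nat_lit 8))
    (@En.n l2863 (nat_lit 5778) (nat_lit 4) (nat_lit 9))
    (@En.n l26679 (nat_lit 3156) (nat_lit 11) (nat_lit 11))
    (@En.n l28 (nat_lit 4827) (nat_lit 6) (nat_lit 2))
    (@En.n l26680 (nat_lit 3173) (nat_lit 7) (nat_lit 7))
    (@En.n l15816 (nat_lit 5808) (nat_lit 9) (nat_lit 14))
    (@En.n l26681 (nat_lit 4829) (nat_lit 10) (nat_lit 9))
    (@En.n l3 (nat_lit 4827) (nat_lit 10) (nat_lit 2))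
    (@En.n l26682 (nat_lit 62) (nat_lit 4) (nat_lit 8))
    (@En.n l23694 (nat_lit 5064) (nat_lit 13) (nat_lit 14))
    (@En.i (nat_lit 5125) (nat_lit 14) (nat_lit 7))
    (@En.n l15569 (nat_lit 3155) (nat_lit 3) (nat_lit 9))
    (@En.n l18 (nat_lit 4827) (nat_lit 15) (nat_lit 2))))
  (@Cl.mk (nat_lit 0x2000900070006000e00090002000e00070002000b00090007000a000e0005) (nat_lit 0x5009304001400c0) (nat_lit 16) Lb.e (@T16.mk En
    (@En.n l34295 (nat_lit 4830) (nat_lit 9) (nat_lit 5))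
    (@En.n l1643 (nat_lit 12622) (nat_lit 11) (nat_lit 14))
    (@En.i (nat_lit 13758) (nat_lit 8) (nat_lit 10))
    (@En.n l2588 (nat_lit 3405) (nat_lit 3) (nat_lit 7))
    (@En.n l1290 (nat_lit 932) (nat_lit 4) (nat_lit 9))
    (@En.n l34296 (nat_lit 1996) (nat_lit 12) (nat_lit 11))
    (@En.n l28 (nat_lit 4828) (nat_lit 6) (nat_lit 2))
    (@En.n l26598 (nat_lit 4834) (nat_lit 14) (nat_lit 7))
    (@En.n l12921 (nat_lit 9303) (nat_lit 1) (nat_lit 14))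
    (@En.n l107 (nat_lit 4828) (nat_lit 9) (nat_lit 2))
    (@En.n l34297 (nat_lit 4829) (nat_lit 11) (nat_lit 9))
    (@En.n l97 (nat_lit 4827) (nat_lit 12) (nat_lit 14))
    (@En.n l1295 (nat_lit 1875) (nat_lit 13) (nat_lit 6))
    (@En.i (nat_lit 4912) (nat_lit 14) (nat_lit 7))
    (@En.n l34298 (nat_lit 2884) (nat_lit 4) (nat_lit 9))
    (@En.n l18 (nat_lit 4828) (nat_lit 15) (nat_lit 2))))
  (@Cl.mk (nat_lit 0x2000a0008000600090009000e00060002000a000800070007000a000e0006) (nat_lit 0x6402330014001c0) (nat_lit 16) Lb.e (@T16.mk En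
    (@En.n l36610 (nat_lit 4831) (nat_lit 8) (nat_lit 6))
    (@En.n l36611 (nat_lit 5954) (nat_lit 10) (nat_lit 14))
    (@En.n l36612 (nat_lit 4828) (nat_lit 2) (nat_lit 10))
    (@En.n l36613 (nat_lit 4828) (nat_lit 3) (nat_lit 7))
    (@En.n l36614 (nat_lit 3404) (nat_lit 4) (nat_lit 7))
    (@En.i (nat_lit 5757) (nat_lit 14) (nat_lit 8))
    (@En.n l36615 (nat_lit 1994) (nat_lit 7) (nat_lit 10))
    (@En.n l3 (nat_lit 4829) (nat_lit 7) (nat_lit 2))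
    (@En.n l36616 (nat_lit 4833) (nat_lit 8) (nat_lit 6))
    (@En.n l3859 (nat_lit 9302) (nat_lit 10) (nat_lit 14))
    (@En.n l12560 (nat_lit 4832) (nat_lit 2) (nat_lit 9))
    (@En.n l36617 (nat_lit 2118) (nat_lit 3) (nat_lit 9))
    (@En.n l7471 (nat_lit 1873) (nat_lit 4) (nat_lit 6))
    (@En.n l36618 (nat_lit 4910) (nat_lit 14) (nat_lit 8))
    (@En.n l27862 (nat_lit 2848) (nat_lit 7) (nat_lit 10))
    (@En.n l28 (nat_lit 4829) (nat_lit 15) (nat_lit 2))))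
  (@Cl.mk (nat_lit 0x2000b000b000a0008000b00050005000900060005000e00080002000e0007) (nat_lit 0x8251000400160a0) (nat_lit 16) Lb.e (@T16.mk En
    (@En.n l18510 (nat_lit 4836) (nat_lit 14) (nat_lit 7))
    (@En.n l5551 (nat_lit 6896) (nat_lit 1) (nat_lit 14))
    (@En.n l28 (nat_lit 4830) (nat_lit 2) (nat_lit 2))
    (@En.n l2683 (nat_lit 4831) (nat_lit 3) (nat_lit 8))
    (@En.n l5551 (nat_lit 3172) (nat_lit 1) (nat_lit 14))
    (@En.n l6962 (nat_lit 1874) (nat_lit 5) (nat_lit 5))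
    (@En.n l18511 (nat_lit 4980) (nat_lit 6) (nat_lit 6))
    (@En.n l1353 (nat_lit 2883) (nat_lit 4) (nat_lit 9))
    (@En.n l61 (nat_lit 5219) (nat_lit 11) (nat_lit 5))
    (@En.n l18512 (nat_lit 12818) (nat_lit 9) (nat_lit 5))
    (@En.n l4256 (nat_lit 12829) (nat_lit 7) (nat_lit 11))
    (@En.n l3471 (nat_lit 4592) (nat_lit 12) (nat_lit 8))
    (@En.n l17940 (nat_lit 5216) (nat_lit 13) (nat_lit 10))
    (@En.n l18513 (nat_lit 4828) (nat_lit 5) (nat_lit 11))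
    (@En.n l6042 (nat_lit 4363) (nat_lit 12) (nat_lit 11))
    (@En.n l50 (nat_lit 4830) (nat_lit 15) (nat_lit 2))))
  (@Cl.mk (nat_lit 0x2000a000a000900080008000b00060006000a0007000500080008000e0006) (nat_lit 0x1251210050056a0) (nat_lit 16) Lb.e (@T16.mk En
    (@En.n l26787 (nat_lit 4835) (nat_lit 7) (nat_lit 6))
    (@En.n l27981 (nat_lit 8275) (nat_lit 1) (nat_lit 14))
    (@En.n l16928 (nat_lit 4839) (nat_lit 2) (nat_lit 8))
    (@En.n l713 (nat_lit 4782) (nat_lit 10) (nat_lit 8))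
    (@En.n l27982 (nat_lit 1876) (nat_lit 4) (nat_lit 5))
    (@En.n l27983 (nat_lit 4875) (nat_lit 5) (nat_lit 7))
    (@En.n l8011 (nat_lit 2882) (nat_lit 7) (nat_lit 10))
    (@En.n l217 (nat_lit 5218) (nat_lit 10) (nat_lit 6))
    (@En.i (nat_lit 11509) (nat_lit 8) (nat_lit 6))
    (@En.n l5709 (nat_lit 4830) (nat_lit 10) (nat_lit 11))
    (@En.n l1952 (nat_lit 4830) (nat_lit 11) (nat_lit 8))
    (@En.n l5705 (nat_lit 3408) (nat_lit 12) (nat_lit 8))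
    (@En.n l27984 (nat_lit 5212) (nat_lit 13) (nat_lit 9))
    (@En.n l27985 (nat_lit 4829) (nat_lit 6) (nat_lit 10))
    (@En.n l27986 (nat_lit 1997) (nat_lit 5) (nat_lit 10))
    (@En.n l7 (nat_lit 4831) (nat_lit 15) (nat_lit 2))))
noncomputable def a302 : T16 Cl := @T16.mk Cl
  (@Cl.mk (nat_lit 0x200090007000e00070002000a000e00070002000b000900060009000e0005) (nat_lit 0x60c002c00740220) (nat_lit 16) Lb.e (@T16.mk En
    (@En.n l21685 (nat_lit 4838) (nat_lit 5) (nat_lit 5))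
    (@En.i (nat_lit 8270) (nat_lit 7) (nat_lit 14))
    (@En.n l21686 (nat_lit 4804) (nat_lit 2) (nat_lit 9))
    (@En.n l563 (nat_lit 1877) (nat_lit 3) (nat_lit 6))
    (@En.n l3699 (nat_lit 4914) (nat_lit 4) (nat_lit 9))
    (@En.n l21687 (nat_lit 2847) (nat_lit 11) (nat_lit 11))
    (@En.n l107 (nat_lit 4832) (nat_lit 6) (nat_lit 2))
    (@En.n l21688 (nat_lit 4839) (nat_lit 7) (nat_lit 7))
    (@En.n l2094 (nat_lit 5957) (nat_lit 9) (nat_lit 14))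
    (@En.n l1252 (nat_lit 4829) (nat_lit 2) (nat_lit 10))
    (@En.n l17 (nat_lit 4832) (nat_lit 10) (nat_lit 2))
    (@En.n l8268 (nat_lit 4829) (nat_lit 4) (nat_lit 7))
    (@En.n l561 (nat_lit 12556) (nat_lit 13) (nat_lit 14))
    (@En.i (nat_lit 5755) (nat_lit 14) (nat_lit 7))
    (@En.n l21689 (nat_lit 3188) (nat_lit 3) (nat_lit 9))
    (@En.n l7 (nat_lit 4832) (nat_lit 15) (nat_lit 2))))
  (@Cl.mk (nat_lit 0x2000a000a00090007000a000a00060006000a0007000600060009000e0006) (nat_lit 0x6760780050000b0) (nat_lit 16) Lb.e (@T16.mk En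
    (@En.i (nat_lit 4835) (nat_lit 15) (nat_lit 6))
    (@En.n l8283 (nat_lit 5618) (nat_lit 1) (nat_lit 14))
    (@En.n l26589 (nat_lit 4834) (nat_lit 9) (nat_lit 9))
    (@En.n l26590 (nat_lit 4834) (nat_lit 10) (nat_lit 6))
    (@En.n l26591 (nat_lit 3407) (nat_lit 4) (nat_lit 6))
    (@En.n l2568 (nat_lit 5758) (nat_lit 5) (nat_lit 7))
    (@En.n l117 (nat_lit 3119) (nat_lit 7) (nat_lit 10))
    (@En.n l575 (nat_lit 5230) (nat_lit 10) (nat_lit 6))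
    (@En.n l26592 (nat_lit 9484) (nat_lit 8) (nat_lit 6))
    (@En.n l2337 (nat_lit 4838) (nat_lit 6) (nat_lit 10))
    (@En.i (nat_lit 4898) (nat_lit 11) (nat_lit 10))
    (@En.n l1599 (nat_lit 1881) (nat_lit 12) (nat_lit 7))
    (@En.n l16411 (nat_lit 5349) (nat_lit 13) (nat_lit 9))
    (@En.n l26593 (nat_lit 4829) (nat_lit 14) (nat_lit 10))
    (@En.i (nat_lit 2842) (nat_lit 5) (nat_lit 10))
    (@En.n l3 (nat_lit 4833) (nat_lit 15) (nat_lit 2))))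
  (@Cl.mk (nat_lit 0x200070007000b000800060009000e000500020009000900080007000e000a) (nat_lit 0x6107b00566018) (nat_lit 16) Lb.e (@T16.mk En
    (@En.n l37613 (nat_lit 4833) (nat_lit 10) (nat_lit 10))
    (@En.n l33756 (nat_lit 3173) (nat_lit 11) (nat_lit 14))
    (@En.n l37950 (nat_lit 1885) (nat_lit 2) (nat_lit 7))
    (@En.n l1769 (nat_lit 5351) (nat_lit 3) (nat_lit 8))
    (@En.n l14576 (nat_lit 4828) (nat_lit 14) (nat_lit 9))
    (@En.n l5891 (nat_lit 2889) (nat_lit 5) (nat_lit 9))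
    (@En.n l11 (nat_lit 4834) (nat_lit 6) (nat_lit 2))
    (@En.n l1992 (nat_lit 4836) (nat_lit 7) (nat_lit 5))
    (@En.n l37951 (nat_lit 12612) (nat_lit 9) (nat_lit 14))
    (@En.n l2568 (nat_lit 13756) (nat_lit 9) (nat_lit 9))
    (@En.n l33756 (nat_lit 3411) (nat_lit 3) (nat_lit 6))
    (@En.n l37952 (nat_lit 32) (nat_lit 4) (nat_lit 8))
    (@En.n l9967 (nat_lit 3120) (nat_lit 13) (nat_lit 11))
    (@En.n l7432 (nat_lit 5231) (nat_lit 14) (nat_lit 7))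
    (@En.n l4817 (nat_lit 9482) (nat_lit 7) (nat_lit 7))
    (@En.n l18 (nat_lit 4834) (nat_lit 15) (nat_lit 2))))
  (@Cl.mk (nat_lit 0x60006000a000a000800060009000900060006000a000a000800070007000a) (nat_lit 0x56506700662000) (nat_lit 16) Lb.e (@T16.mk En
    (@En.n l40357 (nat_lit 4836) (nat_lit 8) (nat_lit 10))
    (@En.n l40358 (nat_lit 4836) (nat_lit 9) (nat_lit 7))
    (@En.n l26962 (nat_lit 4524) (nat_lit 9) (nat_lit 7))
    (@En.n l40359 (nat_lit 5240) (nat_lit 8) (nat_lit 8))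
    (@En.n l152 (nat_lit 4833) (nat_lit 6) (nat_lit 10))
    (@En.n l117 (nat_lit 3126) (nat_lit 9) (nat_lit 10))
    (@En.n l575 (nat_lit 5227) (nat_lit 10) (nat_lit 6))
    (@En.n l40360 (nat_lit 9481) (nat_lit 0) (nat_lit 6))
    (@En.n l2337 (nat_lit 4837) (nat_lit 7) (nat_lit 9))
    (@En.i (nat_lit 4892) (nat_lit 9) (nat_lit 9))
    (@En.n l1599 (nat_lit 1880) (nat_lit 10) (nat_lit 6))
    (@En.n l40361 (nat_lit 5352) (nat_lit 8) (nat_lit 8))
    (@En.n l40362 (nat_lit 4831) (nat_lit 6) (nat_lit 10))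
    (@En.n l34837 (nat_lit 2846) (nat_lit 9) (nat_lit 10))
    (@En.n l40363 (nat_lit 5221) (nat_lit 10) (nat_lit 6))
    (@En.n l40364 (nat_lit 9330) (nat_lit 0) (nat_lit 6))))
  (@Cl.mk (nat_lit 0x200070007000b000b00090007000a000500050009000900070006000e0009) (nat_lit 0x7740800450017) (nat_lit 16) Lb.e (@T16.mk En
    (@En.n l34289 (nat_lit 4835) (nat_lit 9) (nat_lit 9))
    (@En.n l396 (nat_lit 3167) (nat_lit 1) (nat_lit 14))
    (@En.n l34290 (nat_lit 1884) (nat_lit 2) (nat_lit 6))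
    (@En.i (nat_lit 5357) (nat_lit 3) (nat_lit 7))
    (@En.n l34291 (nat_lit 4830) (nat_lit 7) (nat_lit 9))
    (@En.n l34292 (nat_lit 2886) (nat_lit 5) (nat_lit 9))
    (@En.n l34293 (nat_lit 5222) (nat_lit 6) (nat_lit 5))
    (@En.n l34294 (nat_lit 9327) (nat_lit 7) (nat_lit 5))
    (@En.n l3082 (nat_lit 13751) (nat_lit 8) (nat_lit 10))
    (@En.n l1101 (nat_lit 4522) (nat_lit 10) (nat_lit 7))
    (@En.n l19122 (nat_lit 5242) (nat_lit 11) (nat_lit 9))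
    (@En.n l2691 (nat_lit 4834) (nat_lit 12) (nat_lit 11))
    (@En.n l2824 (nat_lit 3125) (nat_lit 13) (nat_lit 11))
    (@En.n l14256 (nat_lit 5228) (nat_lit 14) (nat_lit 7))
    (@En.i (nat_lit 9479) (nat_lit 13) (nat_lit 7))
    (@En.n l18 (nat_lit 4836) (nat_lit 15) (nat_lit 2))))
  (@Cl.mk (nat_lit 0x2000a00070007000b000b00090006000900050005000900090007000e0007) (nat_lit 0x100674060015040) (nat_lit 16) Lb.e (@T16.mk En
    (@En.n l7 (nat_lit 4835) (nat_lit 2) (nat_lit 7))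
    (@En.n l26813 (nat_lit 4529) (nat_lit 1) (nat_lit 14))
    (@En.n l476 (nat_lit 5241) (nat_lit 2) (nat_lit 7))
    (@En.n l152 (nat_lit 4838) (nat_lit 3) (nat_lit 9))
    (@En.n l117 (nat_lit 3130) (nat_lit 4) (nat_lit 9))
    (@En.n l575 (nat_lit 5229) (nat_lit 5) (nat_lit 5))
    (@En.n l8529 (nat_lit 9505) (nat_lit 6) (nat_lit 5))
    (@En.i (nat_lit 3998) (nat_lit 9) (nat_lit 9))
    (@En.n l4896 (nat_lit 1882) (nat_lit 8) (nat_lit 6))
    (@En.n l1578 (nat_lit 5356) (nat_lit 10) (nat_lit 9))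
    (@En.n l11799 (nat_lit 4839) (nat_lit 5) (nat_lit 11))
    (@En.n l13077 (nat_lit 2845) (nat_lit 12) (nat_lit 11))
    (@En.n l5141 (nat_lit 5223) (nat_lit 9) (nat_lit 7))
    (@En.n l26814 (nat_lit 9891) (nat_lit 14) (nat_lit 7))
    (@En.n l4600 (nat_lit 4835) (nat_lit 0) (nat_lit 10))
    (@En.n l18 (nat_lit 4837) (nat_lit 15) (nat_lit 2))))
  (@Cl.mk (nat_lit 0x20009000e00070002000b000b000a0007000a0005000500090006000e0006) (nat_lit 0x1c0078507004090) (nat_lit 16) Lb.e (@T16.mk En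
    (@En.n l7 (nat_lit 4833) (nat_lit 4) (nat_lit 6))
    (@En.n l8524 (nat_lit 12536) (nat_lit 1) (nat_lit 14))
    (@En.n l10348 (nat_lit 5756) (nat_lit 2) (nat_lit 6))
    (@En.n l117 (nat_lit 3128) (nat_lit 3) (nat_lit 9))
    (@En.n l575 (nat_lit 5232) (nat_lit 4) (nat_lit 5))
    (@En.i (nat_lit 9514) (nat_lit 5) (nat_lit 5))
    (@En.i (nat_lit 4595) (nat_lit 11) (nat_lit 10))
    (@En.n l4896 (nat_lit 1883) (nat_lit 7) (nat_lit 7))
    (@En.n l1578 (nat_lit 5350) (nat_lit 9) (nat_lit 10))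
    (@En.n l11801 (nat_lit 4832) (nat_lit 5) (nat_lit 11))
    (@En.i (nat_lit 2841) (nat_lit 11) (nat_lit 11))
    (@En.n l3 (nat_lit 4838) (nat_lit 11) (nat_lit 2))
    (@En.i (nat_lit 4837) (nat_lit 13) (nat_lit 7))
    (@En.i (nat_lit 12342) (nat_lit 1) (nat_lit 14))
    (@En.n l4600 (nat_lit 4833) (nat_lit 2) (nat_lit 9))
    (@En.n l18 (nat_lit 4838) (nat_lit 15) (nat_lit 2))))
  (@Cl.mk (nat_lit 0x2000900090008000e00080002000b00070007000b000800050008000e0005) (nat_lit 0x1755202006305c0) (nat_lit 16) Lb.e (@T16.mk En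
    (@En.n l12625 (nat_lit 4837) (nat_lit 6) (nat_lit 5))
    (@En.n l14783 (nat_lit 8271) (nat_lit 8) (nat_lit 14))
    (@En.n l810 (nat_lit 3989) (nat_lit 2) (nat_lit 8))
    (@En.n l7406 (nat_lit 1878) (nat_lit 3) (nat_lit 5))
    (@En.n l1632 (nat_lit 4991) (nat_lit 4) (nat_lit 8))
    (@En.n l7406 (nat_lit 4448) (nat_lit 12) (nat_lit 11))
    (@En.n l61 (nat_lit 5220) (nat_lit 9) (nat_lit 7))
    (@En.n l2682 (nat_lit 11507) (nat_lit 14) (nat_lit 7))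
    (@En.n l14776 (nat_lit 4831) (nat_lit 9) (nat_lit 11))
    (@En.n l3 (nat_lit 4839) (nat_lit 9) (nat_lit 2))
    (@En.n l14493 (nat_lit 4831) (nat_lit 11) (nat_lit 8))
    (@En.i (nat_lit 12536) (nat_lit 12) (nat_lit 14))
    (@En.n l14784 (nat_lit 5211) (nat_lit 2) (nat_lit 8))
    (@En.n l14785 (nat_lit 4832) (nat_lit 14) (nat_lit 9))
    (@En.n l14786 (nat_lit 3190) (nat_lit 4) (nat_lit 9))
    (@En.n l50 (nat_lit 4839) (nat_lit 15) (nat_lit 2))))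
  (@Cl.mk (nat_lit 0x2000b00030007000d000c00050003000e00040002000e00090002000e000d) (nat_lit 0xa500100b6014) (nat_lit 16) Lb.e (@T16.mk En
    (@En.n l1578 (nat_lit 4803) (nat_lit 14) (nat_lit 13))
    (@En.i (nat_lit 2191) (nat_lit 1) (nat_lit 14))
    (@En.n l3 (nat_lit 4840) (nat_lit 2) (nat_lit 2))
    (@En.i (nat_lit 4794) (nat_lit 14) (nat_lit 9))
    (@En.i (nat_lit 5541) (nat_lit 1) (nat_lit 14))
    (@En.n l17 (nat_lit 4840) (nat_lit 5) (nat_lit 2))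
    (@En.n l50 (nat_lit 4731) (nat_lit 6) (nat_lit 4))
    (@En.n l998 (nat_lit 923) (nat_lit 1) (nat_lit 14))
    (@En.n l50 (nat_lit 4841) (nat_lit 8) (nat_lit 3))
    (@En.i (nat_lit 4909) (nat_lit 9) (nat_lit 5))
    (@En.n l217 (nat_lit 4600) (nat_lit 11) (nat_lit 12))
    (@En.i (nat_lit 4032) (nat_lit 12) (nat_lit 13))
    (@En.i (nat_lit 3779) (nat_lit 13) (nat_lit 7))
    (@En.i (nat_lit 4803) (nat_lit 10) (nat_lit 3))
    (@En.i (nat_lit 5074) (nat_lit 0) (nat_lit 11))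
    (@En.n l11 (nat_lit 4840) (nat_lit 15) (nat_lit 2))))
  (@Cl.mk (nat_lit 0x2000c00030007000d0004000d0003000e00030002000e00090002000e000d) (nat_lit 0x700b050300b7022) (nat_lit 16) Lb.e (@T16.mk En
    (@En.n l1578 (nat_lit 4601) (nat_lit 14) (nat_lit 13))
    (@En.i (nat_lit 2260) (nat_lit 1) (nat_lit 14))
    (@En.n l3 (nat_lit 4841) (nat_lit 2) (nat_lit 2))
    (@En.i (nat_lit 4793) (nat_lit 14) (nat_lit 9))
    (@En.i (nat_lit 5542) (nat_lit 1) (nat_lit 14))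
    (@En.n l17 (nat_lit 4841) (nat_lit 5) (nat_lit 2))
    (@En.i (nat_lit 4600) (nat_lit 6) (nat_lit 3))
    (@En.i (nat_lit 13053) (nat_lit 0) (nat_lit 14))
    (@En.i (nat_lit 4840) (nat_lit 8) (nat_lit 3))
    (@En.i (nat_lit 4722) (nat_lit 10) (nat_lit 13))
    (@En.i (nat_lit 4845) (nat_lit 10) (nat_lit 4))
    (@En.i (nat_lit 4030) (nat_lit 12) (nat_lit 13))
    (@En.i (nat_lit 3778) (nat_lit 13) (nat_lit 7))
    (@En.i (nat_lit 4601) (nat_lit 10) (nat_lit 3))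
    (@En.i (nat_lit 5871) (nat_lit 0) (nat_lit 12))
    (@En.n l11 (nat_lit 4841) (nat_lit 15) (nat_lit 2))))
  (@Cl.mk (nat_lit 0x2000c0006000c00050004000d0004000e00030002000e000a0002000e000b) (nat_lit 0x3090000400660b5) (nat_lit 16) Lb.e (@T16.mk En
    (@En.i (nat_lit 4821) (nat_lit 14) (nat_lit 11))
    (@En.i (nat_lit 5937) (nat_lit 1) (nat_lit 14))
    (@En.n l3 (nat_lit 4842) (nat_lit 2) (nat_lit 2))
    (@En.i (nat_lit 4846) (nat_lit 14) (nat_lit 10))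
    (@En.i (nat_lit 8027) (nat_lit 1) (nat_lit 14))
    (@En.n l17 (nat_lit 4842) (nat_lit 5) (nat_lit 2))
    (@En.i (nat_lit 4843) (nat_lit 6) (nat_lit 3))
    (@En.i (nat_lit 14067) (nat_lit 0) (nat_lit 14))
    (@En.i (nat_lit 4844) (nat_lit 8) (nat_lit 4))
    (@En.n l2669 (nat_lit 9102) (nat_lit 10) (nat_lit 13))
    (@En.i (nat_lit 4841) (nat_lit 10) (nat_lit 4))
    (@En.i (nat_lit 5641) (nat_lit 8) (nat_lit 5))
    (@En.n l77 (nat_lit 4031) (nat_lit 13) (nat_lit 12))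
    (@En.n l810 (nat_lit 7065) (nat_lit 14) (nat_lit 6))
    (@En.n l28 (nat_lit 5870) (nat_lit 12) (nat_lit 12))
    (@En.n l11 (nat_lit 4842) (nat_lit 15) (nat_lit 2))))
  (@Cl.mk (nat_lit 0x2000c0006000b00050004000d000d000500030003000e000a0002000e000b) (nat_lit 0x3030001000660b5) (nat_lit 16) Lb.e (@T16.mk En
    (@En.n l10798 (nat_lit 4819) (nat_lit 14) (nat_lit 11))
    (@En.i (nat_lit 5933) (nat_lit 1) (nat_lit 14))
    (@En.n l3 (nat_lit 4843) (nat_lit 2) (nat_lit 2))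
    (@En.i (nat_lit 4847) (nat_lit 3) (nat_lit 10))
    (@En.i (nat_lit 8028) (nat_lit 1) (nat_lit 14))
    (@En.n l10800 (nat_lit 4850) (nat_lit 13) (nat_lit 3))
    (@En.n l18 (nat_lit 4842) (nat_lit 6) (nat_lit 3))
    (@En.n l947 (nat_lit 5249) (nat_lit 0) (nat_lit 5))
    (@En.n l61 (nat_lit 4842) (nat_lit 9) (nat_lit 13))
    (@En.n l2669 (nat_lit 9099) (nat_lit 10) (nat_lit 13))
    (@En.i (nat_lit 4600) (nat_lit 10) (nat_lit 4))
    (@En.n l8806 (nat_lit 5639) (nat_lit 8) (nat_lit 5))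
    (@En.n l8806 (nat_lit 4034) (nat_lit 13) (nat_lit 11))
    (@En.n l810 (nat_lit 7062) (nat_lit 14) (nat_lit 6))
    (@En.n l28256 (nat_lit 5865) (nat_lit 12) (nat_lit 12))
    (@En.n l11 (nat_lit 4843) (nat_lit 15) (nat_lit 2))))
  (@Cl.mk (nat_lit 0x2000b0006000c000b000600050004000e00050002000e000a0002000e000a) (nat_lit 0x50a400080035044) (nat_lit 16) Lb.e (@T16.mk En
    (@En.i (nat_lit 5739) (nat_lit 14) (nat_lit 10))
    (@En.i (nat_lit 6285) (nat_lit 1) (nat_lit 14))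
    (@En.n l3 (nat_lit 4844) (nat_lit 2) (nat_lit 2))
    (@En.i (nat_lit 4848) (nat_lit 3) (nat_lit 10))
    (@En.i (nat_lit 7733) (nat_lit 1) (nat_lit 14))
    (@En.n l17 (nat_lit 4844) (nat_lit 5) (nat_lit 2))
    (@En.n l50 (nat_lit 5248) (nat_lit 6) (nat_lit 5))
    (@En.n l998 (nat_lit 5759) (nat_lit 1) (nat_lit 14))
    (@En.n l50 (nat_lit 10119) (nat_lit 8) (nat_lit 4))
    (@En.i (nat_lit 4840) (nat_lit 9) (nat_lit 5))
    (@En.i (nat_lit 12570) (nat_lit 7) (nat_lit 6))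
    (@En.n l217 (nat_lit 4843) (nat_lit 12) (nat_lit 11))
    (@En.i (nat_lit 2976) (nat_lit 13) (nat_lit 12))
    (@En.n l810 (nat_lit 8022) (nat_lit 14) (nat_lit 6))
    (@En.n l28 (nat_lit 5072) (nat_lit 12) (nat_lit 11))
    (@En.n l11 (nat_lit 4844) (nat_lit 15) (nat_lit 2))))
  (@Cl.mk (nat_lit 0x2000c000b000400080004000d0005000e00030002000e00080002000e000c) (nat_lit 0x710105000090016) (nat_lit 16) Lb.e (@T16.mk En
    (@En.i (nat_lit 4595) (nat_lit 14) (nat_lit 12))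
    (@En.i (nat_lit 2356) (nat_lit 1) (nat_lit 14))
    (@En.n l3 (nat_lit 4845) (nat_lit 2) (nat_lit 2))
    (@En.i (nat_lit 4884) (nat_lit 14) (nat_lit 8))
    (@En.i (nat_lit 10339) (nat_lit 1) (nat_lit 14))
    (@En.n l17 (nat_lit 4845) (nat_lit 5) (nat_lit 2))
    (@En.i (nat_lit 4596) (nat_lit 6) (nat_lit 3))
    (@En.i (nat_lit 14066) (nat_lit 0) (nat_lit 14))
    (@En.n l7 (nat_lit 4893) (nat_lit 8) (nat_lit 5))
    (@En.n l564 (nat_lit 3453) (nat_lit 10) (nat_lit 13))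
    (@En.n l7 (nat_lit 4842) (nat_lit 10) (nat_lit 4))
    (@En.i (nat_lit 3781) (nat_lit 5) (nat_lit 8))
    (@En.i (nat_lit 5643) (nat_lit 9) (nat_lit 4))
    (@En.n l644 (nat_lit 4840) (nat_lit 14) (nat_lit 11))
    (@En.i (nat_lit 6368) (nat_lit 12) (nat_lit 12))
    (@En.n l11 (nat_lit 4845) (nat_lit 15) (nat_lit 2))))
  (@Cl.mk (nat_lit 0x2000a000a000e000a0002000b00060006000c00060005000d0004000e0003) (nat_lit 0x58a103009004070) (nat_lit 16) Lb.e (@T16.mk En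
    (@En.i (nat_lit 4847) (nat_lit 5) (nat_lit 3))
    (@En.i (nat_lit 12967) (nat_lit 0) (nat_lit 14))
    (@En.i (nat_lit 4848) (nat_lit 7) (nat_lit 4))
    (@En.n l8874 (nat_lit 9100) (nat_lit 9) (nat_lit 13))
    (@En.i (nat_lit 4793) (nat_lit 4) (nat_lit 5))
    (@En.i (nat_lit 5638) (nat_lit 5) (nat_lit 6))
    (@En.n l476 (nat_lit 7501) (nat_lit 7) (nat_lit 12))
    (@En.n l152 (nat_lit 4842) (nat_lit 13) (nat_lit 6))
    (@En.n l8874 (nat_lit 7057) (nat_lit 14) (nat_lit 6))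
    (@En.n l565 (nat_lit 5928) (nat_lit 10) (nat_lit 11))
    (@En.n l11 (nat_lit 4846) (nat_lit 10) (nat_lit 2))
    (@En.n l5403 (nat_lit 3295) (nat_lit 12) (nat_lit 10))
    (@En.n l2038 (nat_lit 6282) (nat_lit 13) (nat_lit 14))
    (@En.n l5014 (nat_lit 4852) (nat_lit 2) (nat_lit 10))
    (@En.i (nat_lit 6582) (nat_lit 3) (nat_lit 10))
    (@En.n l17 (nat_lit 4846) (nat_lit 15) (nat_lit 2))))
  (@Cl.mk (nat_lit 0x2000b00060006000b00060005000d000d000500030003000a000a000e000a) (nat_lit 0x3004004500058a5) (nat_lit 16) Lb.e (@T16.mk En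
    (@En.n l5403 (nat_lit 3296) (nat_lit 11) (nat_lit 10))
    (@En.n l2038 (nat_lit 5943) (nat_lit 1) (nat_lit 14))
    (@En.n l14454 (nat_lit 4851) (nat_lit 2) (nat_lit 10))
    (@En.n l5801 (nat_lit 6583) (nat_lit 3) (nat_lit 10))
    (@En.n l3519 (nat_lit 4849) (nat_lit 13) (nat_lit 3))
    (@En.n l18 (nat_lit 4846) (nat_lit 0) (nat_lit 3))
    (@En.n l17134 (nat_lit 5250) (nat_lit 0) (nat_lit 5))
    (@En.n l61 (nat_lit 4846) (nat_lit 3) (nat_lit 13))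
    (@En.n l8874 (nat_lit 9098) (nat_lit 9) (nat_lit 13))
    (@En.i (nat_lit 4682) (nat_lit 9) (nat_lit 5))
    (@En.n l8806 (nat_lit 3257) (nat_lit 4) (nat_lit 6))
    (@En.n l3517 (nat_lit 6364) (nat_lit 12) (nat_lit 11))
    (@En.n l152 (nat_lit 4843) (nat_lit 13) (nat_lit 6))
    (@En.n l8874 (nat_lit 7056) (nat_lit 14) (nat_lit 6))
    (@En.n l565 (nat_lit 5873) (nat_lit 9) (nat_lit 11))
    (@En.n l11 (nat_lit 4847) (nat_lit 15) (nat_lit 2))))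
noncomputable def a303 : T16 Cl := @T16.mk Cl
  (@Cl.mk (nat_lit 0x2000a00060006000c000b000700060004000e00050002000a000a000e0009) (nat_lit 0xa50009004733) (nat_lit 16) Lb.e (@T16.mk En
    (@En.n l5403 (nat_lit 5740) (nat_lit 12) (nat_lit 9))
    (@En.n l2038 (nat_lit 6283) (nat_lit 13) (nat_lit 14))
    (@En.n l3062 (nat_lit 5750) (nat_lit 2) (nat_lit 10))
    (@En.i (nat_lit 5749) (nat_lit 3) (nat_lit 10))
    (@En.n l17 (nat_lit 4848) (nat_lit 4) (nat_lit 2))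
    (@En.n l50 (nat_lit 5723) (nat_lit 5) (nat_lit 5))
    (@En.n l998 (nat_lit 5754) (nat_lit 1) (nat_lit 14))
    (@En.n l50 (nat_lit 10121) (nat_lit 2) (nat_lit 4))
    (@En.i (nat_lit 4794) (nat_lit 3) (nat_lit 6))
    (@En.i (nat_lit 11709) (nat_lit 4) (nat_lit 7))
    (@En.n l217 (nat_lit 4847) (nat_lit 11) (nat_lit 11))
    (@En.n l476 (nat_lit 5154) (nat_lit 7) (nat_lit 12))
    (@En.n l152 (nat_lit 4844) (nat_lit 13) (nat_lit 6))
    (@En.n l8874 (nat_lit 8023) (nat_lit 14) (nat_lit 6))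
    (@En.n l565 (nat_lit 5069) (nat_lit 10) (nat_lit 10))
    (@En.n l11 (nat_lit 4848) (nat_lit 15) (nat_lit 2))))
  (@Cl.mk (nat_lit 0x200060003000a000a000e000a0002000b00060006000a00060005000e000d) (nat_lit 0x6875030060095) (nat_lit 16) Lb.e (@T16.mk En
    (@En.n l4130 (nat_lit 4847) (nat_lit 8) (nat_lit 13))
    (@En.n l14713 (nat_lit 9209) (nat_lit 1) (nat_lit 14))
    (@En.i (nat_lit 4736) (nat_lit 2) (nat_lit 5))
    (@En.n l8133 (nat_lit 5640) (nat_lit 3) (nat_lit 6))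
    (@En.i (nat_lit 7585) (nat_lit 4) (nat_lit 10))
    (@En.n l2255 (nat_lit 4850) (nat_lit 5) (nat_lit 6))
    (@En.n l245 (nat_lit 7055) (nat_lit 6) (nat_lit 6))
    (@En.n l6452 (nat_lit 5874) (nat_lit 8) (nat_lit 11))
    (@En.n l7 (nat_lit 4849) (nat_lit 8) (nat_lit 2))
    (@En.n l6517 (nat_lit 3299) (nat_lit 10) (nat_lit 10))
    (@En.n l5351 (nat_lit 5945) (nat_lit 11) (nat_lit 14))
    (@En.n l26394 (nat_lit 4853) (nat_lit 12) (nat_lit 10))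
    (@En.n l5854 (nat_lit 5252) (nat_lit 13) (nat_lit 10))
    (@En.n l2832 (nat_lit 4847) (nat_lit 4) (nat_lit 3))
    (@En.n l10280 (nat_lit 4968) (nat_lit 5) (nat_lit 6))
    (@En.n l3 (nat_lit 4849) (nat_lit 15) (nat_lit 2))))
  (@Cl.mk (nat_lit 0x200060003000e000a0002000e000b0002000c0006000a00050004000e000d) (nat_lit 0x6708703050091) (nat_lit 16) Lb.e (@T16.mk En
    (@En.n l4322 (nat_lit 4843) (nat_lit 9) (nat_lit 13))
    (@En.i (nat_lit 9208) (nat_lit 1) (nat_lit 14))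
    (@En.n l763 (nat_lit 4730) (nat_lit 2) (nat_lit 4))
    (@En.i (nat_lit 5645) (nat_lit 3) (nat_lit 5))
    (@En.i (nat_lit 3551) (nat_lit 4) (nat_lit 10))
    (@En.n l764 (nat_lit 7061) (nat_lit 5) (nat_lit 6))
    (@En.n l765 (nat_lit 5866) (nat_lit 7) (nat_lit 12))
    (@En.n l50 (nat_lit 4850) (nat_lit 7) (nat_lit 2))
    (@En.n l217 (nat_lit 4820) (nat_lit 9) (nat_lit 11))
    (@En.i (nat_lit 5934) (nat_lit 1) (nat_lit 14))
    (@En.n l28 (nat_lit 4850) (nat_lit 10) (nat_lit 2))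
    (@En.n l845 (nat_lit 4849) (nat_lit 12) (nat_lit 10))
    (@En.i (nat_lit 5384) (nat_lit 13) (nat_lit 14))
    (@En.n l13054 (nat_lit 4843) (nat_lit 5) (nat_lit 3))
    (@En.n l1982 (nat_lit 4971) (nat_lit 6) (nat_lit 6))
    (@En.n l3 (nat_lit 4850) (nat_lit 15) (nat_lit 2))))
  (@Cl.mk (nat_lit 0x2000a000e00060002000b00070006000d000d000500030003000a000e0009) (nat_lit 0x310070000000791) (nat_lit 16) Lb.e (@T16.mk En
    (@En.i (nat_lit 3292) (nat_lit 4) (nat_lit 9))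
    (@En.i (nat_lit 3935) (nat_lit 6) (nat_lit 14))
    (@En.n l3528 (nat_lit 6578) (nat_lit 2) (nat_lit 10))
    (@En.n l21156 (nat_lit 4853) (nat_lit 13) (nat_lit 3))
    (@En.n l152 (nat_lit 4852) (nat_lit 4) (nat_lit 3))
    (@En.n l21157 (nat_lit 5712) (nat_lit 0) (nat_lit 5))
    (@En.n l619 (nat_lit 4852) (nat_lit 7) (nat_lit 13))
    (@En.i (nat_lit 9114) (nat_lit 8) (nat_lit 13))
    (@En.n l4476 (nat_lit 4787) (nat_lit 8) (nat_lit 6))
    (@En.n l21158 (nat_lit 5544) (nat_lit 14) (nat_lit 7))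
    (@En.n l12541 (nat_lit 6365) (nat_lit 11) (nat_lit 11))
    (@En.n l17 (nat_lit 4851) (nat_lit 11) (nat_lit 2))
    (@En.n l21159 (nat_lit 4847) (nat_lit 13) (nat_lit 6))
    (@En.n l14679 (nat_lit 2737) (nat_lit 1) (nat_lit 14))
    (@En.n l21160 (nat_lit 5922) (nat_lit 2) (nat_lit 10))
    (@En.n l7 (nat_lit 4851) (nat_lit 15) (nat_lit 2))))
  (@Cl.mk (nat_lit 0x2000a000e00060002000c00070006000d0004000e00030002000a000e0009) (nat_lit 0x3c00700b0800711) (nat_lit 16) Lb.e (@T16.mk En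
    (@En.i (nat_lit 3294) (nat_lit 4) (nat_lit 9))
    (@En.i (nat_lit 3937) (nat_lit 6) (nat_lit 14))
    (@En.n l564 (nat_lit 6579) (nat_lit 2) (nat_lit 10))
    (@En.n l11 (nat_lit 4852) (nat_lit 3) (nat_lit 2))
    (@En.n l117 (nat_lit 4851) (nat_lit 4) (nat_lit 3))
    (@En.n l1347 (nat_lit 12973) (nat_lit 0) (nat_lit 14))
    (@En.n l1347 (nat_lit 5750) (nat_lit 6) (nat_lit 4))
    (@En.n l8273 (nat_lit 9113) (nat_lit 8) (nat_lit 13))
    (@En.n l1347 (nat_lit 4789) (nat_lit 4) (nat_lit 6))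
    (@En.i (nat_lit 5549) (nat_lit 14) (nat_lit 7))
    (@En.n l5572 (nat_lit 7514) (nat_lit 7) (nat_lit 12))
    (@En.n l17 (nat_lit 4852) (nat_lit 11) (nat_lit 2))
    (@En.n l3608 (nat_lit 4846) (nat_lit 8) (nat_lit 6))
    (@En.n l8933 (nat_lit 4168) (nat_lit 10) (nat_lit 14))
    (@En.n l2967 (nat_lit 5924) (nat_lit 2) (nat_lit 10))
    (@En.n l7 (nat_lit 4852) (nat_lit 15) (nat_lit 2))))
  (@Cl.mk (nat_lit 0x200060003000a000e00090002000a000e00060002000a00070006000e000d) (nat_lit 0x7110390070041) (nat_lit 16) Lb.e (@T16.mk En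
    (@En.n l22010 (nat_lit 4851) (nat_lit 7) (nat_lit 13))
    (@En.n l5556 (nat_lit 9210) (nat_lit 8) (nat_lit 14))
    (@En.n l763 (nat_lit 4788) (nat_lit 2) (nat_lit 6))
    (@En.i (nat_lit 5543) (nat_lit 14) (nat_lit 7))
    (@En.n l10997 (nat_lit 7587) (nat_lit 4) (nat_lit 10))
    (@En.n l3 (nat_lit 4853) (nat_lit 5) (nat_lit 2))
    (@En.n l10997 (nat_lit 4849) (nat_lit 6) (nat_lit 6))
    (@En.n l3324 (nat_lit 2738) (nat_lit 8) (nat_lit 14))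
    (@En.n l250 (nat_lit 5919) (nat_lit 9) (nat_lit 10))
    (@En.n l50 (nat_lit 4853) (nat_lit 9) (nat_lit 2))
    (@En.i (nat_lit 3297) (nat_lit 11) (nat_lit 9))
    (@En.n l11000 (nat_lit 3938) (nat_lit 12) (nat_lit 14))
    (@En.i (nat_lit 7700) (nat_lit 13) (nat_lit 10))
    (@En.n l9682 (nat_lit 4851) (nat_lit 3) (nat_lit 3))
    (@En.n l25161 (nat_lit 4966) (nat_lit 4) (nat_lit 6))
    (@En.n l11 (nat_lit 4853) (nat_lit 15) (nat_lit 2))))
  (@Cl.mk (nat_lit 0x2000d0006000c00030006000d0004000e00030002000e000a0002000e000a) (nat_lit 0x10300b030076051) (nat_lit 16) Lb.e (@T16.mk En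
    (@En.i (nat_lit 2108) (nat_lit 14) (nat_lit 10))
    (@En.n l1531 (nat_lit 5574) (nat_lit 1) (nat_lit 14))
    (@En.n l3 (nat_lit 4854) (nat_lit 2) (nat_lit 2))
    (@En.n l1532 (nat_lit 2453) (nat_lit 14) (nat_lit 10))
    (@En.n l11275 (nat_lit 6629) (nat_lit 1) (nat_lit 14))
    (@En.n l50 (nat_lit 4854) (nat_lit 5) (nat_lit 2))
    (@En.i (nat_lit 4824) (nat_lit 6) (nat_lit 3))
    (@En.i (nat_lit 12881) (nat_lit 0) (nat_lit 14))
    (@En.i (nat_lit 1637) (nat_lit 8) (nat_lit 4))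
    (@En.i (nat_lit 12399) (nat_lit 10) (nat_lit 13))
    (@En.n l1718 (nat_lit 4800) (nat_lit 12) (nat_lit 6))
    (@En.n l3559 (nat_lit 2103) (nat_lit 11) (nat_lit 3))
    (@En.i (nat_lit 2710) (nat_lit 0) (nat_lit 12))
    (@En.n l2652 (nat_lit 7408) (nat_lit 14) (nat_lit 6))
    (@En.n l617 (nat_lit 2108) (nat_lit 12) (nat_lit 13))
    (@En.n l17 (nat_lit 4854) (nat_lit 15) (nat_lit 2))))
  (@Cl.mk (nat_lit 0x200060003000e000a0002000e000a0002000d0006000a00030006000e000d) (nat_lit 0x7605101050091) (nat_lit 16) Lb.e (@T16.mk En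
    (@En.n l7652 (nat_lit 4824) (nat_lit 9) (nat_lit 13))
    (@En.n l6134 (nat_lit 12287) (nat_lit 1) (nat_lit 14))
    (@En.n l5539 (nat_lit 4812) (nat_lit 2) (nat_lit 6))
    (@En.n l7653 (nat_lit 4868) (nat_lit 3) (nat_lit 3))
    (@En.n l6134 (nat_lit 2499) (nat_lit 0) (nat_lit 10))
    (@En.n l5539 (nat_lit 7404) (nat_lit 5) (nat_lit 6))
    (@En.n l5454 (nat_lit 4825) (nat_lit 7) (nat_lit 13))
    (@En.n l2196 (nat_lit 4855) (nat_lit 7) (nat_lit 2))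
    (@En.n l7654 (nat_lit 4825) (nat_lit 9) (nat_lit 10))
    (@En.n l2199 (nat_lit 5575) (nat_lit 1) (nat_lit 14))
    (@En.n l28 (nat_lit 4855) (nat_lit 10) (nat_lit 2))
    (@En.n l7655 (nat_lit 2455) (nat_lit 12) (nat_lit 10))
    (@En.n l2199 (nat_lit 4992) (nat_lit 13) (nat_lit 14))
    (@En.n l7656 (nat_lit 4824) (nat_lit 5) (nat_lit 3))
    (@En.n l7657 (nat_lit 4879) (nat_lit 6) (nat_lit 6))
    (@En.n l3 (nat_lit 4855) (nat_lit 15) (nat_lit 2))))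
  (@Cl.mk (nat_lit 0x2000a0005000d0005000b00030006000d000d000500030003000b000e000b) (nat_lit 0x204050000000681) (nat_lit 16) Lb.e (@T16.mk En
    (@En.n l17 (nat_lit 3536) (nat_lit 12) (nat_lit 11))
    (@En.i (nat_lit 4824) (nat_lit 4) (nat_lit 14))
    (@En.i (nat_lit 11971) (nat_lit 2) (nat_lit 11))
    (@En.n l13385 (nat_lit 4861) (nat_lit 13) (nat_lit 3))
    (@En.n l7 (nat_lit 4857) (nat_lit 4) (nat_lit 3))
    (@En.i (nat_lit 8187) (nat_lit 0) (nat_lit 5))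
    (@En.n l644 (nat_lit 4857) (nat_lit 7) (nat_lit 13))
    (@En.i (nat_lit 8528) (nat_lit 8) (nat_lit 13))
    (@En.n l2644 (nat_lit 1167) (nat_lit 12) (nat_lit 6))
    (@En.i (nat_lit 4862) (nat_lit 9) (nat_lit 3))
    (@En.i (nat_lit 12085) (nat_lit 0) (nat_lit 11))
    (@En.n l2644 (nat_lit 4341) (nat_lit 6) (nat_lit 5))
    (@En.n l617 (nat_lit 4859) (nat_lit 13) (nat_lit 13))
    (@En.n l17 (nat_lit 4754) (nat_lit 14) (nat_lit 5))
    (@En.i (nat_lit 5523) (nat_lit 10) (nat_lit 10))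
    (@En.n l3 (nat_lit 4856) (nat_lit 15) (nat_lit 2))))
  (@Cl.mk (nat_lit 0x2000a0005000d0005000c00030006000d0004000e00030002000b000e000b) (nat_lit 0x4040500b0000683) (nat_lit 16) Lb.e (@T16.mk En
    (@En.n l17 (nat_lit 7426) (nat_lit 13) (nat_lit 11))
    (@En.i (nat_lit 4854) (nat_lit 4) (nat_lit 14))
    (@En.i (nat_lit 11969) (nat_lit 2) (nat_lit 11))
    (@En.n l50 (nat_lit 4857) (nat_lit 3) (nat_lit 2))
    (@En.i (nat_lit 4856) (nat_lit 4) (nat_lit 3))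
    (@En.i (nat_lit 13327) (nat_lit 0) (nat_lit 14))
    (@En.i (nat_lit 7473) (nat_lit 6) (nat_lit 4))
    (@En.i (nat_lit 8597) (nat_lit 8) (nat_lit 13))
    (@En.n l2644 (nat_lit 4773) (nat_lit 12) (nat_lit 6))
    (@En.i (nat_lit 4864) (nat_lit 9) (nat_lit 3))
    (@En.i (nat_lit 12091) (nat_lit 0) (nat_lit 12))
    (@En.n l2644 (nat_lit 4338) (nat_lit 7) (nat_lit 5))
    (@En.n l617 (nat_lit 4858) (nat_lit 9) (nat_lit 13))
    (@En.n l17 (nat_lit 4753) (nat_lit 14) (nat_lit 5))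
    (@En.i (nat_lit 5525) (nat_lit 11) (nat_lit 10))
    (@En.n l3 (nat_lit 4857) (nat_lit 15) (nat_lit 2))))
  (@Cl.mk (nat_lit 0x20007000e000c0002000a000d0004000b000300090006000d0005000e0003) (nat_lit 0x93033040200000) (nat_lit 16) Lb.e (@T16.mk En
    (@En.i (nat_lit 4859) (nat_lit 4) (nat_lit 3))
    (@En.n l1723 (nat_lit 13294) (nat_lit 0) (nat_lit 14))
    (@En.i (nat_lit 7472) (nat_lit 2) (nat_lit 5))
    (@En.n l1353 (nat_lit 8611) (nat_lit 8) (nat_lit 13))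
    (@En.n l61 (nat_lit 4857) (nat_lit 8) (nat_lit 6))
    (@En.n l1353 (nat_lit 3905) (nat_lit 5) (nat_lit 9))
    (@En.i (nat_lit 4867) (nat_lit 6) (nat_lit 3))
    (@En.i (nat_lit 12780) (nat_lit 0) (nat_lit 11))
    (@En.n l117 (nat_lit 2942) (nat_lit 8) (nat_lit 4))
    (@En.n l7233 (nat_lit 4719) (nat_lit 10) (nat_lit 13))
    (@En.i (nat_lit 5520) (nat_lit 11) (nat_lit 10))
    (@En.n l3 (nat_lit 4858) (nat_lit 11) (nat_lit 2))
    (@En.i (nat_lit 7221) (nat_lit 13) (nat_lit 12))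
    (@En.i (nat_lit 2108) (nat_lit 1) (nat_lit 14))
    (@En.n l6042 (nat_lit 4290) (nat_lit 2) (nat_lit 7))
    (@En.n l50 (nat_lit 4858) (nat_lit 15) (nat_lit 2))))
  (@Cl.mk (nat_lit 0x2000a000d0004000a000300090006000d000d0006000300030007000e000c) (nat_lit 0x330402001000095) (nat_lit 16) Lb.e (@T16.mk En
    (@En.i (nat_lit 3531) (nat_lit 12) (nat_lit 12))
    (@En.n l9246 (nat_lit 2106) (nat_lit 1) (nat_lit 14))
    (@En.n l15564 (nat_lit 4289) (nat_lit 2) (nat_lit 7))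
    (@En.n l31882 (nat_lit 4860) (nat_lit 13) (nat_lit 3))
    (@En.n l7 (nat_lit 4858) (nat_lit 0) (nat_lit 3))
    (@En.n l7234 (nat_lit 8188) (nat_lit 0) (nat_lit 6))
    (@En.n l644 (nat_lit 4858) (nat_lit 3) (nat_lit 13))
    (@En.n l1353 (nat_lit 8531) (nat_lit 8) (nat_lit 13))
    (@En.n l61 (nat_lit 4856) (nat_lit 8) (nat_lit 6))
    (@En.n l9076 (nat_lit 3901) (nat_lit 10) (nat_lit 9))
    (@En.i (nat_lit 4863) (nat_lit 10) (nat_lit 3))
    (@En.n l7234 (nat_lit 12089) (nat_lit 0) (nat_lit 10))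
    (@En.n l9076 (nat_lit 2943) (nat_lit 7) (nat_lit 4))
    (@En.n l7234 (nat_lit 4720) (nat_lit 14) (nat_lit 13))
    (@En.i (nat_lit 5515) (nat_lit 10) (nat_lit 10))
    (@En.n l3 (nat_lit 4859) (nat_lit 15) (nat_lit 2))))
  (@Cl.mk (nat_lit 0x2000700030007000e000c0002000a000d00040009000300090006000e000d) (nat_lit 0x930320402001) (nat_lit 16) Lb.e (@T16.mk En
    (@En.n l23260 (nat_lit 4859) (nat_lit 7) (nat_lit 13))
    (@En.n l10357 (nat_lit 7759) (nat_lit 8) (nat_lit 14))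
    (@En.i (nat_lit 4861) (nat_lit 2) (nat_lit 6))
    (@En.n l3588 (nat_lit 3899) (nat_lit 3) (nat_lit 9))
    (@En.n l2364 (nat_lit 4866) (nat_lit 4) (nat_lit 3))
    (@En.i (nat_lit 12779) (nat_lit 5) (nat_lit 9))
    (@En.n l3588 (nat_lit 2947) (nat_lit 6) (nat_lit 4))
    (@En.i (nat_lit 4722) (nat_lit 8) (nat_lit 13))
    (@En.n l253 (nat_lit 5514) (nat_lit 9) (nat_lit 10))
    (@En.n l50 (nat_lit 4860) (nat_lit 9) (nat_lit 2))
    (@En.n l396 (nat_lit 7220) (nat_lit 11) (nat_lit 12))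
    (@En.n l2544 (nat_lit 4825) (nat_lit 12) (nat_lit 14))
    (@En.i (nat_lit 6909) (nat_lit 13) (nat_lit 7))
    (@En.n l11106 (nat_lit 4859) (nat_lit 3) (nat_lit 3))
    (@En.i (nat_lit 2542) (nat_lit 0) (nat_lit 7))
    (@En.n l11 (nat_lit 4860) (nat_lit 15) (nat_lit 2))))
  (@Cl.mk (nat_lit 0x200060003000b000e000b0002000a0005000d0005000a00030006000e000d) (nat_lit 0x58403030500a1) (nat_lit 16) Lb.e (@T16.mk En
    (@En.n l6650 (nat_lit 4856) (nat_lit 7) (nat_lit 13))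
    (@En.n l5236 (nat_lit 8524) (nat_lit 8) (nat_lit 14))
    (@En.n l3106 (nat_lit 3030) (nat_lit 2) (nat_lit 6))
    (@En.n l23258 (nat_lit 4865) (nat_lit 3) (nat_lit 3))
    (@En.i (nat_lit 12088) (nat_lit 0) (nat_lit 10))
    (@En.n l4990 (nat_lit 7360) (nat_lit 5) (nat_lit 5))
    (@En.n l3 (nat_lit 4860) (nat_lit 7) (nat_lit 13))
    (@En.n l11106 (nat_lit 7206) (nat_lit 14) (nat_lit 5))
    (@En.n l5236 (nat_lit 5524) (nat_lit 9) (nat_lit 10))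
    (@En.n l50 (nat_lit 4861) (nat_lit 9) (nat_lit 2))
    (@En.n l23549 (nat_lit 7210) (nat_lit 11) (nat_lit 11))
    (@En.n l23550 (nat_lit 4855) (nat_lit 12) (nat_lit 14))
    (@En.i (nat_lit 11432) (nat_lit 13) (nat_lit 11))
    (@En.n l5236 (nat_lit 4856) (nat_lit 3) (nat_lit 3))
    (@En.n l2571 (nat_lit 2538) (nat_lit 4) (nat_lit 6))
    (@En.n l11 (nat_lit 4861) (nat_lit 15) (nat_lit 2))))
  (@Cl.mk (nat_lit 0x2000a0005000d000a000600030006000d000d000600030003000b000e000a) (nat_lit 0x2030000350006a3) (nat_lit 16) Lb.e (@T16.mk En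
    (@En.n l9451 (nat_lit 7117) (nat_lit 12) (nat_lit 10))
    (@En.n l18598 (nat_lit 2104) (nat_lit 4) (nat_lit 14))
    (@En.n l10435 (nat_lit 12178) (nat_lit 2) (nat_lit 11))
    (@En.n l22350 (nat_lit 4865) (nat_lit 13) (nat_lit 3))
    (@En.n l7 (nat_lit 4864) (nat_lit 4) (nat_lit 3))
    (@En.n l25151 (nat_lit 7708) (nat_lit 0) (nat_lit 6))
    (@En.n l644 (nat_lit 4864) (nat_lit 7) (nat_lit 13))
    (@En.i (nat_lit 8483) (nat_lit 8) (nat_lit 13))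
    (@En.n l18598 (nat_lit 4851) (nat_lit 8) (nat_lit 6))
    (@En.n l11 (nat_lit 4856) (nat_lit 9) (nat_lit 3))
    (@En.n l16131 (nat_lit 4810) (nat_lit 0) (nat_lit 6))
    (@En.n l8555 (nat_lit 8707) (nat_lit 12) (nat_lit 10))
    (@En.n l617 (nat_lit 4863) (nat_lit 13) (nat_lit 13))
    (@En.n l17 (nat_lit 4755) (nat_lit 14) (nat_lit 5))
    (@En.n l9309 (nat_lit 3928) (nat_lit 10) (nat_lit 10))
    (@En.n l3 (nat_lit 4862) (nat_lit 15) (nat_lit 2))))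
  (@Cl.mk (nat_lit 0x2000a000d00090005000300090006000d000d0007000300030007000e000b) (nat_lit 0x2240030460000b3) (nat_lit 16) Lb.e (@T16.mk En
    (@En.n l22696 (nat_lit 7119) (nat_lit 12) (nat_lit 11))
    (@En.n l7235 (nat_lit 2100) (nat_lit 1) (nat_lit 14))
    (@En.n l9344 (nat_lit 12157) (nat_lit 2) (nat_lit 7))
    (@En.n l23787 (nat_lit 4866) (nat_lit 13) (nat_lit 3))
    (@En.n l7 (nat_lit 4867) (nat_lit 0) (nat_lit 3))
    (@En.n l23439 (nat_lit 5851) (nat_lit 0) (nat_lit 7))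
    (@En.n l644 (nat_lit 4867) (nat_lit 3) (nat_lit 13))
    (@En.n l1353 (nat_lit 8625) (nat_lit 8) (nat_lit 13))
    (@En.n l61 (nat_lit 4862) (nat_lit 8) (nat_lit 6))
    (@En.n l9076 (nat_lit 7165) (nat_lit 10) (nat_lit 9))
    (@En.n l11 (nat_lit 4859) (nat_lit 10) (nat_lit 3))
    (@En.n l23439 (nat_lit 4807) (nat_lit 0) (nat_lit 5))
    (@En.n l16813 (nat_lit 8712) (nat_lit 13) (nat_lit 9))
    (@En.n l23439 (nat_lit 4723) (nat_lit 14) (nat_lit 13))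
    (@En.n l10327 (nat_lit 5512) (nat_lit 10) (nat_lit 10))
    (@En.n l3 (nat_lit 4863) (nat_lit 15) (nat_lit 2))))
noncomputable def a304 : T16 Cl := @T16.mk Cl
  (@Cl.mk (nat_lit 0x2000a0005000d000b000600030006000d0005000e00030002000b000e000a) (nat_lit 0x2038000403006a3) (nat_lit 16) Lb.e (@T16.mk En
    (@En.n l12686 (nat_lit 7120) (nat_lit 13) (nat_lit 10))
    (@En.n l3559 (nat_lit 2103) (nat_lit 4) (nat_lit 14))
    (@En.i (nat_lit 12177) (nat_lit 2) (nat_lit 11))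
    (@En.n l50 (nat_lit 4864) (nat_lit 3) (nat_lit 2))
    (@En.i (nat_lit 4862) (nat_lit 4) (nat_lit 3))
    (@En.i (nat_lit 13326) (nat_lit 0) (nat_lit 14))
    (@En.i (nat_lit 7441) (nat_lit 6) (nat_lit 5))
    (@En.i (nat_lit 8484) (nat_lit 8) (nat_lit 13))
    (@En.n l3559 (nat_lit 4852) (nat_lit 8) (nat_lit 6))
    (@En.n l11 (nat_lit 4857) (nat_lit 9) (nat_lit 3))
    (@En.n l12686 (nat_lit 4811) (nat_lit 0) (nat_lit 6))
    (@En.n l55 (nat_lit 8710) (nat_lit 12) (nat_lit 11))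
    (@En.n l617 (nat_lit 4867) (nat_lit 9) (nat_lit 13))
    (@En.n l17 (nat_lit 7192) (nat_lit 14) (nat_lit 5))
    (@En.n l1080 (nat_lit 5554) (nat_lit 11) (nat_lit 10))
    (@En.n l3 (nat_lit 4864) (nat_lit 15) (nat_lit 2))))
  (@Cl.mk (nat_lit 0x200070003000b000e000a0002000a0005000d0009000600030006000e000d) (nat_lit 0x7a70204300004) (nat_lit 16) Lb.e (@T16.mk En
    (@En.n l11467 (nat_lit 4862) (nat_lit 7) (nat_lit 13))
    (@En.n l11468 (nat_lit 8525) (nat_lit 8) (nat_lit 14))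
    (@En.n l11469 (nat_lit 4853) (nat_lit 2) (nat_lit 6))
    (@En.n l11470 (nat_lit 4861) (nat_lit 3) (nat_lit 3))
    (@En.n l6784 (nat_lit 7364) (nat_lit 0) (nat_lit 6))
    (@En.n l2364 (nat_lit 8713) (nat_lit 5) (nat_lit 9))
    (@En.n l9715 (nat_lit 4866) (nat_lit 7) (nat_lit 13))
    (@En.n l3017 (nat_lit 7193) (nat_lit 14) (nat_lit 5))
    (@En.n l11471 (nat_lit 5555) (nat_lit 9) (nat_lit 10))
    (@En.n l67 (nat_lit 4865) (nat_lit 9) (nat_lit 2))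
    (@En.n l68 (nat_lit 7116) (nat_lit 11) (nat_lit 10))
    (@En.n l11472 (nat_lit 4868) (nat_lit 12) (nat_lit 14))
    (@En.i (nat_lit 11430) (nat_lit 13) (nat_lit 11))
    (@En.n l11468 (nat_lit 4862) (nat_lit 3) (nat_lit 3))
    (@En.n l3082 (nat_lit 6933) (nat_lit 4) (nat_lit 7))
    (@En.n l50 (nat_lit 4865) (nat_lit 15) (nat_lit 2))))
  (@Cl.mk (nat_lit 0x2000800030007000e000b0002000a000d00080005000300090006000e000d) (nat_lit 0xb50230003005) (nat_lit 16) Lb.e (@T16.mk En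
    (@En.n l11559 (nat_lit 4863) (nat_lit 7) (nat_lit 13))
    (@En.n l6838 (nat_lit 7764) (nat_lit 8) (nat_lit 14))
    (@En.n l11560 (nat_lit 4865) (nat_lit 2) (nat_lit 6))
    (@En.n l3928 (nat_lit 7169) (nat_lit 3) (nat_lit 9))
    (@En.n l763 (nat_lit 4860) (nat_lit 4) (nat_lit 3))
    (@En.i (nat_lit 4809) (nat_lit 0) (nat_lit 5))
    (@En.n l3266 (nat_lit 9152) (nat_lit 6) (nat_lit 8))
    (@En.i (nat_lit 4725) (nat_lit 8) (nat_lit 13))
    (@En.n l9435 (nat_lit 5513) (nat_lit 9) (nat_lit 10))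
    (@En.n l50 (nat_lit 4866) (nat_lit 9) (nat_lit 2))
    (@En.n l217 (nat_lit 7118) (nat_lit 11) (nat_lit 11))
    (@En.n l11561 (nat_lit 2105) (nat_lit 12) (nat_lit 14))
    (@En.i (nat_lit 6910) (nat_lit 13) (nat_lit 7))
    (@En.n l10368 (nat_lit 4863) (nat_lit 3) (nat_lit 3))
    (@En.n l3266 (nat_lit 6934) (nat_lit 0) (nat_lit 8))
    (@En.n l11 (nat_lit 4866) (nat_lit 15) (nat_lit 2))))
  (@Cl.mk (nat_lit 0x20007000e000b0002000a000d000a0005000300090006000d0006000e0003) (nat_lit 0xb3022700305060) (nat_lit 16) Lb.e (@T16.mk En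
    (@En.i (nat_lit 4863) (nat_lit 4) (nat_lit 3))
    (@En.n l1723 (nat_lit 13295) (nat_lit 0) (nat_lit 14))
    (@En.i (nat_lit 5852) (nat_lit 2) (nat_lit 6))
    (@En.n l1353 (nat_lit 8624) (nat_lit 8) (nat_lit 13))
    (@En.n l61 (nat_lit 4864) (nat_lit 8) (nat_lit 6))
    (@En.n l8991 (nat_lit 7166) (nat_lit 5) (nat_lit 9))
    (@En.n l11 (nat_lit 4858) (nat_lit 6) (nat_lit 3))
    (@En.i (nat_lit 4805) (nat_lit 7) (nat_lit 5))
    (@En.n l55 (nat_lit 10748) (nat_lit 9) (nat_lit 10))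
    (@En.n l7233 (nat_lit 4724) (nat_lit 10) (nat_lit 13))
    (@En.i (nat_lit 5510) (nat_lit 11) (nat_lit 10))
    (@En.n l3 (nat_lit 4867) (nat_lit 11) (nat_lit 2))
    (@En.i (nat_lit 7121) (nat_lit 13) (nat_lit 11))
    (@En.n l7235 (nat_lit 2099) (nat_lit 1) (nat_lit 14))
    (@En.n l6042 (nat_lit 12158) (nat_lit 2) (nat_lit 7))
    (@En.n l50 (nat_lit 4867) (nat_lit 15) (nat_lit 2))))
  (@Cl.mk (nat_lit 0x200070003000e00090002000e000a0002000d0009000700030006000e000d) (nat_lit 0x9105101700091) (nat_lit 16) Lb.e (@T16.mk En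
    (@En.n l4933 (nat_lit 2104) (nat_lit 9) (nat_lit 13))
    (@En.n l11071 (nat_lit 12512) (nat_lit 1) (nat_lit 14))
    (@En.n l3988 (nat_lit 3938) (nat_lit 2) (nat_lit 6))
    (@En.n l11072 (nat_lit 4855) (nat_lit 3) (nat_lit 3))
    (@En.n l3633 (nat_lit 3617) (nat_lit 0) (nat_lit 7))
    (@En.n l4934 (nat_lit 9208) (nat_lit 5) (nat_lit 9))
    (@En.n l11072 (nat_lit 2105) (nat_lit 7) (nat_lit 13))
    (@En.n l18 (nat_lit 4868) (nat_lit 7) (nat_lit 2))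
    (@En.n l11073 (nat_lit 2105) (nat_lit 9) (nat_lit 10))
    (@En.n l11068 (nat_lit 5578) (nat_lit 1) (nat_lit 14))
    (@En.n l7 (nat_lit 4868) (nat_lit 10) (nat_lit 2))
    (@En.n l4484 (nat_lit 2449) (nat_lit 12) (nat_lit 9))
    (@En.n l127 (nat_lit 4872) (nat_lit 1) (nat_lit 14))
    (@En.n l4932 (nat_lit 2104) (nat_lit 5) (nat_lit 3))
    (@En.n l2238 (nat_lit 2090) (nat_lit 6) (nat_lit 7))
    (@En.n l207 (nat_lit 4868) (nat_lit 15) (nat_lit 2))))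
  (@Cl.mk (nat_lit 0x200090003000e000b0002000a000d000700050003000e00060002000e000d) (nat_lit 0x30b408b000800a1) (nat_lit 16) Lb.e (@T16.mk En
    (@En.n l134 (nat_lit 2102) (nat_lit 6) (nat_lit 13))
    (@En.n l5395 (nat_lit 9232) (nat_lit 1) (nat_lit 14))
    (@En.n l107 (nat_lit 4869) (nat_lit 2) (nat_lit 2))
    (@En.n l14555 (nat_lit 2105) (nat_lit 3) (nat_lit 6))
    (@En.n l13393 (nat_lit 4183) (nat_lit 1) (nat_lit 14))
    (@En.n l2101 (nat_lit 5120) (nat_lit 5) (nat_lit 3))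
    (@En.n l2921 (nat_lit 4032) (nat_lit 6) (nat_lit 5))
    (@En.n l14556 (nat_lit 8956) (nat_lit 7) (nat_lit 7))
    (@En.i (nat_lit 13461) (nat_lit 5) (nat_lit 13))
    (@En.i (nat_lit 5560) (nat_lit 10) (nat_lit 10))
    (@En.n l2196 (nat_lit 4869) (nat_lit 10) (nat_lit 2))
    (@En.n l2921 (nat_lit 2398) (nat_lit 12) (nat_lit 11))
    (@En.i (nat_lit 4871) (nat_lit 1) (nat_lit 14))
    (@En.i (nat_lit 2102) (nat_lit 2) (nat_lit 3))
    (@En.n l5205 (nat_lit 1983) (nat_lit 12) (nat_lit 9))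
    (@En.n l28 (nat_lit 4869) (nat_lit 15) (nat_lit 2))))
  (@Cl.mk (nat_lit 0x20006000a000a000d00080007000300060006000e000a00020008000e0009) (nat_lit 0x12540000a70393) (nat_lit 16) Lb.e (@T16.mk En
    (@En.n l2197 (nat_lit 4875) (nat_lit 13) (nat_lit 9))
    (@En.n l7657 (nat_lit 4877) (nat_lit 1) (nat_lit 14))
    (@En.n l21995 (nat_lit 6941) (nat_lit 2) (nat_lit 8))
    (@En.n l28 (nat_lit 4870) (nat_lit 3) (nat_lit 2))
    (@En.n l21996 (nat_lit 4873) (nat_lit 4) (nat_lit 10))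
    (@En.n l21997 (nat_lit 1427) (nat_lit 6) (nat_lit 14))
    (@En.n l21998 (nat_lit 4872) (nat_lit 6) (nat_lit 6))
    (@En.n l20187 (nat_lit 4765) (nat_lit 7) (nat_lit 6))
    (@En.n l2101 (nat_lit 4874) (nat_lit 8) (nat_lit 3))
    (@En.n l2921 (nat_lit 3384) (nat_lit 0) (nat_lit 7))
    (@En.n l14555 (nat_lit 5228) (nat_lit 11) (nat_lit 8))
    (@En.n l3 (nat_lit 4871) (nat_lit 12) (nat_lit 13))
    (@En.n l527 (nat_lit 4871) (nat_lit 13) (nat_lit 10))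
    (@En.n l15228 (nat_lit 352) (nat_lit 10) (nat_lit 10))
    (@En.i (nat_lit 4449) (nat_lit 5) (nat_lit 6))
    (@En.n l2196 (nat_lit 4870) (nat_lit 15) (nat_lit 2))))
  (@Cl.mk (nat_lit 0x20006000a000d000700060003000e00060002000e000a00020009000e000a) (nat_lit 0x14000b00a807a8) (nat_lit 16) Lb.e (@T16.mk En
    (@En.n l2197 (nat_lit 4980) (nat_lit 13) (nat_lit 10))
    (@En.n l7657 (nat_lit 4879) (nat_lit 1) (nat_lit 14))
    (@En.n l2199 (nat_lit 6942) (nat_lit 2) (nat_lit 9))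
    (@En.n l28 (nat_lit 4871) (nat_lit 3) (nat_lit 2))
    (@En.i (nat_lit 4938) (nat_lit 4) (nat_lit 10))
    (@En.n l2199 (nat_lit 1425) (nat_lit 1) (nat_lit 14))
    (@En.n l107 (nat_lit 4871) (nat_lit 6) (nat_lit 2))
    (@En.i (nat_lit 4870) (nat_lit 7) (nat_lit 6))
    (@En.n l97 (nat_lit 4822) (nat_lit 9) (nat_lit 14))
    (@En.n l2101 (nat_lit 4987) (nat_lit 9) (nat_lit 3))
    (@En.n l2921 (nat_lit 3377) (nat_lit 6) (nat_lit 6))
    (@En.n l2922 (nat_lit 5231) (nat_lit 12) (nat_lit 7))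
    (@En.i (nat_lit 13771) (nat_lit 5) (nat_lit 13))
    (@En.i (nat_lit 349) (nat_lit 14) (nat_lit 10))
    (@En.i (nat_lit 6735) (nat_lit 7) (nat_lit 6))
    (@En.n l2196 (nat_lit 4871) (nat_lit 15) (nat_lit 2))))
  (@Cl.mk (nat_lit 0x20006000e000a0002000d0009000800030006000e000a00020007000e0008) (nat_lit 0x62065100b30086) (nat_lit 16) Lb.e (@T16.mk En
    (@En.n l11264 (nat_lit 4991) (nat_lit 13) (nat_lit 8))
    (@En.n l1578 (nat_lit 4977) (nat_lit 1) (nat_lit 14))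
    (@En.n l117 (nat_lit 6946) (nat_lit 2) (nat_lit 7))
    (@En.n l8 (nat_lit 4872) (nat_lit 3) (nat_lit 2))
    (@En.i (nat_lit 4940) (nat_lit 4) (nat_lit 10))
    (@En.n l8 (nat_lit 1652) (nat_lit 6) (nat_lit 14))
    (@En.n l11265 (nat_lit 5840) (nat_lit 6) (nat_lit 6))
    (@En.n l11266 (nat_lit 4992) (nat_lit 3) (nat_lit 3))
    (@En.n l9628 (nat_lit 3379) (nat_lit 0) (nat_lit 8))
    (@En.n l11267 (nat_lit 5225) (nat_lit 5) (nat_lit 9))
    (@En.n l11268 (nat_lit 4870) (nat_lit 11) (nat_lit 13))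
    (@En.n l18 (nat_lit 4872) (nat_lit 11) (nat_lit 2))
    (@En.n l11269 (nat_lit 4870) (nat_lit 13) (nat_lit 10))
    (@En.n l420 (nat_lit 1697) (nat_lit 10) (nat_lit 14))
    (@En.n l9628 (nat_lit 4450) (nat_lit 2) (nat_lit 6))
    (@En.n l28 (nat_lit 4872) (nat_lit 15) (nat_lit 2))))
  (@Cl.mk (nat_lit 0x200060006000a000a000d00090008000300060006000a000a0007000e0008) (nat_lit 0x2375200066085) (nat_lit 16) Lb.e (@T16.mk En
    (@En.n l27521 (nat_lit 4917) (nat_lit 9) (nat_lit 8))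
    (@En.n l1578 (nat_lit 4972) (nat_lit 1) (nat_lit 14))
    (@En.n l117 (nat_lit 6834) (nat_lit 2) (nat_lit 7))
    (@En.n l2593 (nat_lit 4939) (nat_lit 6) (nat_lit 10))
    (@En.n l387 (nat_lit 2603) (nat_lit 4) (nat_lit 10))
    (@En.n l17 (nat_lit 4940) (nat_lit 5) (nat_lit 6))
    (@En.n l1329 (nat_lit 4760) (nat_lit 6) (nat_lit 6))
    (@En.n l17477 (nat_lit 1884) (nat_lit 7) (nat_lit 3))
    (@En.n l1439 (nat_lit 3371) (nat_lit 0) (nat_lit 8))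
    (@En.n l30473 (nat_lit 4836) (nat_lit 10) (nat_lit 9))
    (@En.n l30474 (nat_lit 4938) (nat_lit 11) (nat_lit 13))
    (@En.n l30475 (nat_lit 4938) (nat_lit 12) (nat_lit 10))
    (@En.n l8853 (nat_lit 1091) (nat_lit 13) (nat_lit 10))
    (@En.n l20353 (nat_lit 4870) (nat_lit 14) (nat_lit 6))
    (@En.n l11268 (nat_lit 5396) (nat_lit 6) (nat_lit 6))
    (@En.n l28 (nat_lit 4873) (nat_lit 15) (nat_lit 2))))
  (@Cl.mk (nat_lit 0x20006000a000a000d00060009000300060006000e000a00020007000e000a) (nat_lit 0x12300000a70078) (nat_lit 16) Lb.e (@T16.mk En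
    (@En.n l10283 (nat_lit 4986) (nat_lit 13) (nat_lit 10))
    (@En.n l601 (nat_lit 4973) (nat_lit 1) (nat_lit 14))
    (@En.n l649 (nat_lit 1404) (nat_lit 2) (nat_lit 7))
    (@En.n l11 (nat_lit 4874) (nat_lit 3) (nat_lit 2))
    (@En.i (nat_lit 1884) (nat_lit 4) (nat_lit 10))
    (@En.n l619 (nat_lit 1431) (nat_lit 6) (nat_lit 14))
    (@En.n l2870 (nat_lit 4992) (nat_lit 2) (nat_lit 6))
    (@En.n l899 (nat_lit 5372) (nat_lit 7) (nat_lit 6))
    (@En.n l3291 (nat_lit 4870) (nat_lit 8) (nat_lit 3))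
    (@En.i (nat_lit 13749) (nat_lit 9) (nat_lit 9))
    (@En.n l2869 (nat_lit 3424) (nat_lit 6) (nat_lit 6))
    (@En.n l476 (nat_lit 4987) (nat_lit 12) (nat_lit 13))
    (@En.n l152 (nat_lit 4987) (nat_lit 13) (nat_lit 10))
    (@En.i (nat_lit 359) (nat_lit 10) (nat_lit 10))
    (@En.n l476 (nat_lit 6729) (nat_lit 5) (nat_lit 6))
    (@En.n l50 (nat_lit 4874) (nat_lit 15) (nat_lit 2))))
  (@Cl.mk (nat_lit 0x2000900090009000500090009000c000700070007000400070007000e000b) (nat_lit 0x522012300000018) (nat_lit 16) Lb.e (@T16.mk En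
    (@En.n l13230 (nat_lit 4917) (nat_lit 12) (nat_lit 11))
    (@En.n l13231 (nat_lit 1199) (nat_lit 1) (nat_lit 14))
    (@En.n l13232 (nat_lit 4991) (nat_lit 2) (nat_lit 7))
    (@En.n l13233 (nat_lit 5729) (nat_lit 3) (nat_lit 7))
    (@En.n l2163 (nat_lit 4876) (nat_lit 4) (nat_lit 4))
    (@En.n l1935 (nat_lit 4870) (nat_lit 9) (nat_lit 7))
    (@En.n l13234 (nat_lit 4973) (nat_lit 9) (nat_lit 7))
    (@En.n l1643 (nat_lit 5227) (nat_lit 7) (nat_lit 7))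
    (@En.n l3 (nat_lit 4980) (nat_lit 9) (nat_lit 12))
    (@En.n l527 (nat_lit 4980) (nat_lit 10) (nat_lit 9))
    (@En.n l13235 (nat_lit 344) (nat_lit 11) (nat_lit 9))
    (@En.n l5802 (nat_lit 5111) (nat_lit 12) (nat_lit 5))
    (@En.n l742 (nat_lit 4981) (nat_lit 7) (nat_lit 9))
    (@En.n l396 (nat_lit 4910) (nat_lit 7) (nat_lit 9))
    (@En.n l7 (nat_lit 6514) (nat_lit 2) (nat_lit 9))
    (@En.n l28 (nat_lit 4875) (nat_lit 15) (nat_lit 2))))
  (@Cl.mk (nat_lit 0x200080008000b000500090009000c000500080008000400070007000e000b) (nat_lit 0x560012605200026) (nat_lit 16) Lb.e (@T16.mk En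
    (@En.n l26909 (nat_lit 4919) (nat_lit 12) (nat_lit 11))
    (@En.n l2038 (nat_lit 1194) (nat_lit 1) (nat_lit 14))
    (@En.n l26910 (nat_lit 4880) (nat_lit 2) (nat_lit 7))
    (@En.n l6138 (nat_lit 4764) (nat_lit 11) (nat_lit 7))
    (@En.n l26911 (nat_lit 4986) (nat_lit 4) (nat_lit 4))
    (@En.n l2139 (nat_lit 4877) (nat_lit 8) (nat_lit 8))
    (@En.n l900 (nat_lit 4870) (nat_lit 10) (nat_lit 8))
    (@En.n l22484 (nat_lit 5036) (nat_lit 7) (nat_lit 5))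
    (@En.n l476 (nat_lit 4878) (nat_lit 9) (nat_lit 12))
    (@En.n l152 (nat_lit 4878) (nat_lit 10) (nat_lit 9))
    (@En.n l6138 (nat_lit 1057) (nat_lit 11) (nat_lit 9))
    (@En.n l900 (nat_lit 6805) (nat_lit 12) (nat_lit 5))
    (@En.n l18 (nat_lit 4881) (nat_lit 7) (nat_lit 11))
    (@En.n l61 (nat_lit 4881) (nat_lit 8) (nat_lit 8))
    (@En.n l649 (nat_lit 4929) (nat_lit 2) (nat_lit 8))
    (@En.n l11 (nat_lit 4876) (nat_lit 15) (nat_lit 2))))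
  (@Cl.mk (nat_lit 0x2000b0006000a000a000d00050008000300060006000e000a0002000e0008) (nat_lit 0x101250100015086) (nat_lit 16) Lb.e (@T16.mk En
    (@En.n l817 (nat_lit 4876) (nat_lit 14) (nat_lit 8))
    (@En.n l8446 (nat_lit 6606) (nat_lit 1) (nat_lit 14))
    (@En.n l11 (nat_lit 4877) (nat_lit 2) (nat_lit 2))
    (@En.n l8446 (nat_lit 4972) (nat_lit 3) (nat_lit 10))
    (@En.n l619 (nat_lit 1407) (nat_lit 1) (nat_lit 14))
    (@En.n l18999 (nat_lit 4977) (nat_lit 5) (nat_lit 6))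
    (@En.n l2577 (nat_lit 4763) (nat_lit 12) (nat_lit 6))
    (@En.n l17 (nat_lit 4973) (nat_lit 7) (nat_lit 3))
    (@En.n l8446 (nat_lit 3376) (nat_lit 0) (nat_lit 8))
    (@En.n l14619 (nat_lit 3187) (nat_lit 9) (nat_lit 5))
    (@En.n l476 (nat_lit 4879) (nat_lit 11) (nat_lit 13))
    (@En.n l152 (nat_lit 4879) (nat_lit 12) (nat_lit 10))
    (@En.n l2577 (nat_lit 1111) (nat_lit 13) (nat_lit 10))
    (@En.n l2581 (nat_lit 6624) (nat_lit 14) (nat_lit 6))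
    (@En.n l816 (nat_lit 4876) (nat_lit 12) (nat_lit 11))
    (@En.n l7 (nat_lit 4877) (nat_lit 15) (nat_lit 2))))
  (@Cl.mk (nat_lit 0x200090009000c00050009000c0004000700070004000e00070002000e000b) (nat_lit 0x670015000070016) (nat_lit 16) Lb.e (@T16.mk En
    (@En.n l1578 (nat_lit 4923) (nat_lit 14) (nat_lit 11))
    (@En.n l10916 (nat_lit 1404) (nat_lit 1) (nat_lit 14))
    (@En.n l3 (nat_lit 4878) (nat_lit 2) (nat_lit 2))
    (@En.i (nat_lit 4876) (nat_lit 3) (nat_lit 7))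
    (@En.n l1598 (nat_lit 5127) (nat_lit 1) (nat_lit 14))
    (@En.n l26911 (nat_lit 4984) (nat_lit 5) (nat_lit 4))
    (@En.n l2139 (nat_lit 4879) (nat_lit 9) (nat_lit 7))
    (@En.n l900 (nat_lit 4871) (nat_lit 11) (nat_lit 7))
    (@En.n l6139 (nat_lit 3182) (nat_lit 8) (nat_lit 4))
    (@En.n l2100 (nat_lit 14050) (nat_lit 6) (nat_lit 12))
    (@En.i (nat_lit 212) (nat_lit 11) (nat_lit 9))
    (@En.n l900 (nat_lit 6806) (nat_lit 8) (nat_lit 5))
    (@En.n l18 (nat_lit 4925) (nat_lit 6) (nat_lit 12))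
    (@En.n l61 (nat_lit 4925) (nat_lit 7) (nat_lit 9))
    (@En.n l2036 (nat_lit 4928) (nat_lit 12) (nat_lit 9))
    (@En.n l11 (nat_lit 4878) (nat_lit 15) (nat_lit 2))))
  (@Cl.mk (nat_lit 0x2000c0006000a000d000400070003000e00060002000e000a0002000e0009) (nat_lit 0x1014000c0027097) (nat_lit 16) Lb.e (@T16.mk En
    (@En.n l817 (nat_lit 4878) (nat_lit 14) (nat_lit 9))
    (@En.n l14370 (nat_lit 6607) (nat_lit 1) (nat_lit 14))
    (@En.n l11 (nat_lit 4879) (nat_lit 2) (nat_lit 2))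
    (@En.i (nat_lit 4969) (nat_lit 14) (nat_lit 10))
    (@En.i (nat_lit 1402) (nat_lit 1) (nat_lit 14))
    (@En.n l3 (nat_lit 4879) (nat_lit 5) (nat_lit 2))
    (@En.i (nat_lit 4877) (nat_lit 6) (nat_lit 6))
    (@En.i (nat_lit 5204) (nat_lit 1) (nat_lit 14))
    (@En.n l17 (nat_lit 4971) (nat_lit 8) (nat_lit 3))
    (@En.n l826 (nat_lit 3385) (nat_lit 11) (nat_lit 7))
    (@En.n l14619 (nat_lit 5043) (nat_lit 10) (nat_lit 4))
    (@En.n l18545 (nat_lit 14054) (nat_lit 5) (nat_lit 13))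
    (@En.i (nat_lit 1108) (nat_lit 13) (nat_lit 10))
    (@En.n l2581 (nat_lit 6628) (nat_lit 14) (nat_lit 6))
    (@En.n l816 (nat_lit 4878) (nat_lit 12) (nat_lit 12))
    (@En.n l7 (nat_lit 4879) (nat_lit 15) (nat_lit 2))))
noncomputable def a305 : T16 Cl := @T16.mk Cl
  (@Cl.mk (nat_lit 0x200070007000a0005000e00090002000c00060009000900040007000e000b) (nat_lit 0x62070620074) (nat_lit 16) Lb.e (@T16.mk En
    (@En.i (nat_lit 4921) (nat_lit 8) (nat_lit 11))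
    (@En.n l13172 (nat_lit 1191) (nat_lit 1) (nat_lit 14))
    (@En.n l13173 (nat_lit 5844) (nat_lit 2) (nat_lit 7))
    (@En.n l13174 (nat_lit 4989) (nat_lit 3) (nat_lit 4))
    (@En.n l575 (nat_lit 4977) (nat_lit 7) (nat_lit 9))
    (@En.i (nat_lit 4872) (nat_lit 9) (nat_lit 9))
    (@En.n l9627 (nat_lit 5040) (nat_lit 14) (nat_lit 6))
    (@En.n l13175 (nat_lit 4876) (nat_lit 8) (nat_lit 12))
    (@En.n l18 (nat_lit 4880) (nat_lit 8) (nat_lit 2))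
    (@En.n l13176 (nat_lit 4876) (nat_lit 10) (nat_lit 9))
    (@En.n l13177 (nat_lit 1560) (nat_lit 11) (nat_lit 14))
    (@En.n l13178 (nat_lit 6809) (nat_lit 2) (nat_lit 5))
    (@En.n l13179 (nat_lit 4924) (nat_lit 8) (nat_lit 10))
    (@En.n l13180 (nat_lit 4924) (nat_lit 9) (nat_lit 7))
    (@En.n l13181 (nat_lit 5417) (nat_lit 5) (nat_lit 7))
    (@En.n l8 (nat_lit 4880) (nat_lit 15) (nat_lit 2))))
  (@Cl.mk (nat_lit 0x2000500080008000e000c00020008000b000400080008000b0005000e0008) (nat_lit 0x102605901250a6) (nat_lit 16) Lb.e (@T16.mk En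
    (@En.i (nat_lit 4876) (nat_lit 6) (nat_lit 8))
    (@En.n l1012 (nat_lit 4910) (nat_lit 1) (nat_lit 14))
    (@En.n l3526 (nat_lit 5037) (nat_lit 2) (nat_lit 5))
    (@En.n l476 (nat_lit 4925) (nat_lit 3) (nat_lit 11))
    (@En.n l152 (nat_lit 4925) (nat_lit 4) (nat_lit 8))
    (@En.n l476 (nat_lit 1056) (nat_lit 5) (nat_lit 8))
    (@En.n l1013 (nat_lit 1920) (nat_lit 6) (nat_lit 4))
    (@En.i (nat_lit 13051) (nat_lit 7) (nat_lit 11))
    (@En.n l649 (nat_lit 4926) (nat_lit 9) (nat_lit 8))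
    (@En.n l11 (nat_lit 4881) (nat_lit 9) (nat_lit 2))
    (@En.n l1578 (nat_lit 4916) (nat_lit 11) (nat_lit 12))
    (@En.n l2038 (nat_lit 1193) (nat_lit 12) (nat_lit 14))
    (@En.n l3062 (nat_lit 4924) (nat_lit 13) (nat_lit 8))
    (@En.n l3526 (nat_lit 4767) (nat_lit 10) (nat_lit 8))
    (@En.n l2568 (nat_lit 4985) (nat_lit 4) (nat_lit 5))
    (@En.n l17 (nat_lit 4881) (nat_lit 15) (nat_lit 2))))
  (@Cl.mk (nat_lit 0x2000b00090004000800080005000d000d00070003000300080008000e000c) (nat_lit 0x260140450006054) (nat_lit 16) Lb.e (@T16.mk En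
    (@En.i (nat_lit 3990) (nat_lit 11) (nat_lit 12))
    (@En.n l619 (nat_lit 1967) (nat_lit 1) (nat_lit 14))
    (@En.n l3693 (nat_lit 4885) (nat_lit 8) (nat_lit 8))
    (@En.n l5801 (nat_lit 9160) (nat_lit 3) (nat_lit 8))
    (@En.n l3519 (nat_lit 4883) (nat_lit 13) (nat_lit 3))
    (@En.n l18 (nat_lit 4884) (nat_lit 0) (nat_lit 3))
    (@En.n l11245 (nat_lit 3171) (nat_lit 0) (nat_lit 7))
    (@En.n l61 (nat_lit 4884) (nat_lit 3) (nat_lit 13))
    (@En.n l564 (nat_lit 4552) (nat_lit 9) (nat_lit 13))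
    (@En.n l22886 (nat_lit 7165) (nat_lit 9) (nat_lit 5))
    (@En.n l152 (nat_lit 4596) (nat_lit 11) (nat_lit 8))
    (@En.i (nat_lit 3261) (nat_lit 12) (nat_lit 8))
    (@En.n l18120 (nat_lit 3628) (nat_lit 6) (nat_lit 4))
    (@En.i (nat_lit 4735) (nat_lit 14) (nat_lit 9))
    (@En.i (nat_lit 3249) (nat_lit 9) (nat_lit 11))
    (@En.n l11 (nat_lit 4882) (nat_lit 15) (nat_lit 2))))
  (@Cl.mk (nat_lit 0x20008000300080008000e000c0002000b00080004000800080005000e000d) (nat_lit 0xc3026016015) (nat_lit 16) Lb.e (@T16.mk En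
    (@En.n l4130 (nat_lit 4882) (nat_lit 8) (nat_lit 13))
    (@En.i (nat_lit 31) (nat_lit 1) (nat_lit 14))
    (@En.n l3348 (nat_lit 7169) (nat_lit 2) (nat_lit 5))
    (@En.n l1722 (nat_lit 4888) (nat_lit 3) (nat_lit 8))
    (@En.i (nat_lit 3267) (nat_lit 4) (nat_lit 8))
    (@En.n l5965 (nat_lit 3634) (nat_lit 5) (nat_lit 4))
    (@En.n l61 (nat_lit 4733) (nat_lit 14) (nat_lit 8))
    (@En.n l15747 (nat_lit 3253) (nat_lit 8) (nat_lit 11))
    (@En.n l7 (nat_lit 4883) (nat_lit 8) (nat_lit 2))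
    (@En.n l9926 (nat_lit 3995) (nat_lit 10) (nat_lit 12))
    (@En.n l5351 (nat_lit 2358) (nat_lit 11) (nat_lit 14))
    (@En.n l4572 (nat_lit 4886) (nat_lit 8) (nat_lit 8))
    (@En.n l3348 (nat_lit 8721) (nat_lit 13) (nat_lit 8))
    (@En.n l2832 (nat_lit 4882) (nat_lit 4) (nat_lit 3))
    (@En.n l3187 (nat_lit 5222) (nat_lit 0) (nat_lit 8))
    (@En.n l3 (nat_lit 4883) (nat_lit 15) (nat_lit 2))))
  (@Cl.mk (nat_lit 0x200080008000e000c0002000b000a0004000800080005000d0006000e0003) (nat_lit 0x602502601204070) (nat_lit 16) Lb.e (@T16.mk En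
    (@En.i (nat_lit 4882) (nat_lit 5) (nat_lit 3))
    (@En.i (nat_lit 13336) (nat_lit 0) (nat_lit 14))
    (@En.n l7 (nat_lit 4889) (nat_lit 2) (nat_lit 6))
    (@En.n l564 (nat_lit 4531) (nat_lit 9) (nat_lit 13))
    (@En.n l7 (nat_lit 7166) (nat_lit 4) (nat_lit 5))
    (@En.n l152 (nat_lit 4845) (nat_lit 11) (nat_lit 8))
    (@En.i (nat_lit 3262) (nat_lit 6) (nat_lit 8))
    (@En.i (nat_lit 3632) (nat_lit 7) (nat_lit 4))
    (@En.n l644 (nat_lit 4794) (nat_lit 9) (nat_lit 10))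
    (@En.i (nat_lit 3254) (nat_lit 10) (nat_lit 11))
    (@En.n l11 (nat_lit 4884) (nat_lit 10) (nat_lit 2))
    (@En.i (nat_lit 3998) (nat_lit 12) (nat_lit 12))
    (@En.n l619 (nat_lit 1968) (nat_lit 13) (nat_lit 14))
    (@En.i (nat_lit 4887) (nat_lit 8) (nat_lit 8))
    (@En.i (nat_lit 9162) (nat_lit 3) (nat_lit 8))
    (@En.n l17 (nat_lit 4884) (nat_lit 15) (nat_lit 2))))
  (@Cl.mk (nat_lit 0x20006000d000d0008000300030008000e000c0002000a00080004000e0008) (nat_lit 0x18200679075032) (nat_lit 16) Lb.e (@T16.mk En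
    (@En.n l10362 (nat_lit 4882) (nat_lit 11) (nat_lit 8))
    (@En.n l763 (nat_lit 3095) (nat_lit 1) (nat_lit 14))
    (@En.i (nat_lit 5540) (nat_lit 2) (nat_lit 4))
    (@En.n l10363 (nat_lit 4786) (nat_lit 14) (nat_lit 8))
    (@En.n l9435 (nat_lit 3256) (nat_lit 4) (nat_lit 10))
    (@En.n l50 (nat_lit 4885) (nat_lit 5) (nat_lit 2))
    (@En.n l10364 (nat_lit 3996) (nat_lit 7) (nat_lit 12))
    (@En.n l10365 (nat_lit 3273) (nat_lit 8) (nat_lit 14))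
    (@En.n l810 (nat_lit 10245) (nat_lit 2) (nat_lit 8))
    (@En.n l28 (nat_lit 4886) (nat_lit 9) (nat_lit 3))
    (@En.n l1033 (nat_lit 4887) (nat_lit 10) (nat_lit 3))
    (@En.n l6029 (nat_lit 3168) (nat_lit 12) (nat_lit 8))
    (@En.n l10366 (nat_lit 4887) (nat_lit 13) (nat_lit 13))
    (@En.n l10367 (nat_lit 4559) (nat_lit 8) (nat_lit 13))
    (@En.n l10368 (nat_lit 4863) (nat_lit 8) (nat_lit 6))
    (@En.n l3 (nat_lit 4885) (nat_lit 15) (nat_lit 2))))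
  (@Cl.mk (nat_lit 0x20006000e000d0002000900030008000e000c0002000a00070004000e0008) (nat_lit 0x3204067a0700b2) (nat_lit 16) Lb.e (@T16.mk En
    (@En.n l3266 (nat_lit 4883) (nat_lit 4) (nat_lit 8))
    (@En.n l763 (nat_lit 3093) (nat_lit 1) (nat_lit 14))
    (@En.i (nat_lit 5541) (nat_lit 2) (nat_lit 4))
    (@En.n l1545 (nat_lit 4699) (nat_lit 14) (nat_lit 7))
    (@En.n l9435 (nat_lit 5668) (nat_lit 4) (nat_lit 10))
    (@En.n l50 (nat_lit 4886) (nat_lit 5) (nat_lit 2))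
    (@En.n l217 (nat_lit 3994) (nat_lit 7) (nat_lit 12))
    (@En.n l2544 (nat_lit 4183) (nat_lit 8) (nat_lit 14))
    (@En.i (nat_lit 8676) (nat_lit 2) (nat_lit 8))
    (@En.i (nat_lit 4885) (nat_lit 9) (nat_lit 3))
    (@En.i (nat_lit 5225) (nat_lit 11) (nat_lit 9))
    (@En.n l11 (nat_lit 4886) (nat_lit 11) (nat_lit 2))
    (@En.n l1578 (nat_lit 4885) (nat_lit 13) (nat_lit 13))
    (@En.n l2304 (nat_lit 3443) (nat_lit 8) (nat_lit 14))
    (@En.i (nat_lit 4866) (nat_lit 2) (nat_lit 6))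
    (@En.n l3 (nat_lit 4886) (nat_lit 15) (nat_lit 2))))
  (@Cl.mk (nat_lit 0x20006000d0007000e000300020008000e000c0002000a00090004000e0008) (nat_lit 0x70800674075012) (nat_lit 16) Lb.e (@T16.mk En
    (@En.n l152 (nat_lit 4884) (nat_lit 6) (nat_lit 8))
    (@En.i (nat_lit 3094) (nat_lit 1) (nat_lit 14))
    (@En.n l3691 (nat_lit 5507) (nat_lit 2) (nat_lit 4))
    (@En.n l3059 (nat_lit 4790) (nat_lit 14) (nat_lit 9))
    (@En.n l1140 (nat_lit 5503) (nat_lit 4) (nat_lit 10))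
    (@En.n l11 (nat_lit 4887) (nat_lit 5) (nat_lit 2))
    (@En.n l3692 (nat_lit 3997) (nat_lit 7) (nat_lit 12))
    (@En.n l3062 (nat_lit 4182) (nat_lit 8) (nat_lit 14))
    (@En.n l3066 (nat_lit 10246) (nat_lit 2) (nat_lit 8))
    (@En.n l17 (nat_lit 4887) (nat_lit 9) (nat_lit 2))
    (@En.n l3693 (nat_lit 4885) (nat_lit 10) (nat_lit 3))
    (@En.n l3066 (nat_lit 14018) (nat_lit 0) (nat_lit 14))
    (@En.n l7 (nat_lit 4890) (nat_lit 13) (nat_lit 7))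
    (@En.n l3066 (nat_lit 4704) (nat_lit 8) (nat_lit 13))
    (@En.n l3067 (nat_lit 4867) (nat_lit 4) (nat_lit 6))
    (@En.n l3 (nat_lit 4887) (nat_lit 15) (nat_lit 2))))
  (@Cl.mk (nat_lit 0x200070003000e00080002000e000c0002000c0009000400080004000e000d) (nat_lit 0x910120a1050a6) (nat_lit 16) Lb.e (@T16.mk En
    (@En.n l649 (nat_lit 4596) (nat_lit 9) (nat_lit 13))
    (@En.i (nat_lit 3443) (nat_lit 1) (nat_lit 14))
    (@En.n l2364 (nat_lit 4850) (nat_lit 2) (nat_lit 4))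
    (@En.n l9807 (nat_lit 3787) (nat_lit 3) (nat_lit 8))
    (@En.n l6444 (nat_lit 5646) (nat_lit 4) (nat_lit 4))
    (@En.n l698 (nat_lit 4729) (nat_lit 5) (nat_lit 9))
    (@En.i (nat_lit 6072) (nat_lit 7) (nat_lit 12))
    (@En.n l50 (nat_lit 4888) (nat_lit 7) (nat_lit 2))
    (@En.n l564 (nat_lit 4594) (nat_lit 9) (nat_lit 12))
    (@En.i (nat_lit 2352) (nat_lit 1) (nat_lit 14))
    (@En.n l28 (nat_lit 4888) (nat_lit 10) (nat_lit 2))
    (@En.n l287 (nat_lit 4883) (nat_lit 12) (nat_lit 8))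
    (@En.i (nat_lit 8990) (nat_lit 1) (nat_lit 14))
    (@En.n l2221 (nat_lit 4596) (nat_lit 5) (nat_lit 3))
    (@En.n l9806 (nat_lit 5219) (nat_lit 6) (nat_lit 7))
    (@En.n l3 (nat_lit 4888) (nat_lit 15) (nat_lit 2))))
  (@Cl.mk (nat_lit 0x200070007000e000b0002000a000a000900050009000900060006000e0007) (nat_lit 0x3405670150090) (nat_lit 16) Lb.e (@T16.mk En
    (@En.n l2900 (nat_lit 3169) (nat_lit 5) (nat_lit 7))
    (@En.n l3786 (nat_lit 5229) (nat_lit 1) (nat_lit 14))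
    (@En.n l3787 (nat_lit 4894) (nat_lit 2) (nat_lit 6))
    (@En.i (nat_lit 7171) (nat_lit 3) (nat_lit 6))
    (@En.n l152 (nat_lit 4893) (nat_lit 10) (nat_lit 9))
    (@En.n l2900 (nat_lit 3272) (nat_lit 5) (nat_lit 9))
    (@En.i (nat_lit 11559) (nat_lit 6) (nat_lit 5))
    (@En.n l2337 (nat_lit 4882) (nat_lit 13) (nat_lit 9))
    (@En.n l601 (nat_lit 4895) (nat_lit 9) (nat_lit 10))
    (@En.n l28 (nat_lit 7715) (nat_lit 10) (nat_lit 10))
    (@En.n l11 (nat_lit 4889) (nat_lit 10) (nat_lit 2))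
    (@En.i (nat_lit 4892) (nat_lit 12) (nat_lit 11))
    (@En.n l619 (nat_lit 1932) (nat_lit 13) (nat_lit 14))
    (@En.i (nat_lit 4890) (nat_lit 9) (nat_lit 7))
    (@En.i (nat_lit 11746) (nat_lit 3) (nat_lit 7))
    (@En.n l17 (nat_lit 4889) (nat_lit 15) (nat_lit 2))))
  (@Cl.mk (nat_lit 0x200070007000e000800020007000e000b00020009000900080005000e0009) (nat_lit 0xb100330716012) (nat_lit 16) Lb.e (@T16.mk En
    (@En.n l152 (nat_lit 4889) (nat_lit 5) (nat_lit 9))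
    (@En.i (nat_lit 2111) (nat_lit 1) (nat_lit 14))
    (@En.n l3779 (nat_lit 12758) (nat_lit 2) (nat_lit 5))
    (@En.n l3780 (nat_lit 4885) (nat_lit 3) (nat_lit 8))
    (@En.n l3781 (nat_lit 2117) (nat_lit 10) (nat_lit 9))
    (@En.n l3782 (nat_lit 5853) (nat_lit 5) (nat_lit 9))
    (@En.n l11 (nat_lit 4890) (nat_lit 6) (nat_lit 2))
    (@En.n l3783 (nat_lit 4891) (nat_lit 13) (nat_lit 11))
    (@En.n l3784 (nat_lit 2110) (nat_lit 9) (nat_lit 14))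
    (@En.n l3785 (nat_lit 12514) (nat_lit 2) (nat_lit 7))
    (@En.n l17 (nat_lit 4890) (nat_lit 10) (nat_lit 2))
    (@En.n l2900 (nat_lit 19) (nat_lit 4) (nat_lit 8))
    (@En.n l3786 (nat_lit 5226) (nat_lit 13) (nat_lit 14))
    (@En.n l3787 (nat_lit 2115) (nat_lit 2) (nat_lit 7))
    (@En.n l3788 (nat_lit 5852) (nat_lit 3) (nat_lit 7))
    (@En.n l3 (nat_lit 4890) (nat_lit 15) (nat_lit 2))))
  (@Cl.mk (nat_lit 0x20007000b000b00080008000700050005000e0009000200080008000e0009) (nat_lit 0x265400033056a1) (nat_lit 16) Lb.e (@T16.mk En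
    (@En.n l3279 (nat_lit 3169) (nat_lit 12) (nat_lit 9))
    (@En.n l1572 (nat_lit 5223) (nat_lit 13) (nat_lit 14))
    (@En.n l10002 (nat_lit 4778) (nat_lit 2) (nat_lit 8))
    (@En.n l10003 (nat_lit 7439) (nat_lit 3) (nat_lit 8))
    (@En.n l17 (nat_lit 4891) (nat_lit 4) (nat_lit 2))
    (@En.n l10004 (nat_lit 4892) (nat_lit 5) (nat_lit 9))
    (@En.n l6487 (nat_lit 1907) (nat_lit 1) (nat_lit 14))
    (@En.n l10005 (nat_lit 4890) (nat_lit 2) (nat_lit 5))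
    (@En.n l10006 (nat_lit 8171) (nat_lit 3) (nat_lit 5))
    (@En.i (nat_lit 3996) (nat_lit 4) (nat_lit 7))
    (@En.n l152 (nat_lit 4906) (nat_lit 11) (nat_lit 8))
    (@En.n l10007 (nat_lit 7184) (nat_lit 6) (nat_lit 8))
    (@En.n l644 (nat_lit 4776) (nat_lit 13) (nat_lit 11))
    (@En.i (nat_lit 3098) (nat_lit 9) (nat_lit 11))
    (@En.n l10008 (nat_lit 8059) (nat_lit 10) (nat_lit 7))
    (@En.n l11 (nat_lit 4891) (nat_lit 15) (nat_lit 2))))
  (@Cl.mk (nat_lit 0x200070007000b000b000900090008000500050009000900070007000e0008) (nat_lit 0x3855600260051) (nat_lit 16) Lb.e (@T16.mk En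
    (@En.n l23011 (nat_lit 58) (nat_lit 1) (nat_lit 8))
    (@En.n l3786 (nat_lit 4837) (nat_lit 1) (nat_lit 14))
    (@En.n l3787 (nat_lit 4896) (nat_lit 2) (nat_lit 7))
    (@En.n l18149 (nat_lit 7177) (nat_lit 3) (nat_lit 7))
    (@En.n l152 (nat_lit 4898) (nat_lit 7) (nat_lit 9))
    (@En.n l117 (nat_lit 4469) (nat_lit 5) (nat_lit 9))
    (@En.n l575 (nat_lit 4889) (nat_lit 6) (nat_lit 5))
    (@En.n l6976 (nat_lit 12524) (nat_lit 7) (nat_lit 5))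
    (@En.n l2337 (nat_lit 3990) (nat_lit 8) (nat_lit 8))
    (@En.n l601 (nat_lit 4903) (nat_lit 10) (nat_lit 9))
    (@En.n l16411 (nat_lit 7186) (nat_lit 11) (nat_lit 9))
    (@En.n l23012 (nat_lit 4782) (nat_lit 12) (nat_lit 11))
    (@En.n l23013 (nat_lit 3954) (nat_lit 13) (nat_lit 11))
    (@En.n l3783 (nat_lit 4891) (nat_lit 14) (nat_lit 7))
    (@En.n l14878 (nat_lit 11744) (nat_lit 13) (nat_lit 7))
    (@En.n l17 (nat_lit 4892) (nat_lit 15) (nat_lit 2))))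
  (@Cl.mk (nat_lit 0x2000b000b000a0005000900050005000e00060002000e00070002000e000b) (nat_lit 0x7710400a00b0019) (nat_lit 16) Lb.e (@T16.mk En
    (@En.i (nat_lit 4898) (nat_lit 14) (nat_lit 11))
    (@En.i (nat_lit 1553) (nat_lit 1) (nat_lit 14))
    (@En.n l3 (nat_lit 4893) (nat_lit 2) (nat_lit 2))
    (@En.i (nat_lit 4889) (nat_lit 14) (nat_lit 7))
    (@En.i (nat_lit 12275) (nat_lit 1) (nat_lit 14))
    (@En.n l17 (nat_lit 4893) (nat_lit 5) (nat_lit 2))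
    (@En.n l2900 (nat_lit 4779) (nat_lit 6) (nat_lit 6))
    (@En.n l3786 (nat_lit 5232) (nat_lit 1) (nat_lit 14))
    (@En.n l3787 (nat_lit 4900) (nat_lit 11) (nat_lit 5))
    (@En.i (nat_lit 4844) (nat_lit 9) (nat_lit 5))
    (@En.n l2900 (nat_lit 2673) (nat_lit 11) (nat_lit 9))
    (@En.i (nat_lit 12564) (nat_lit 8) (nat_lit 5))
    (@En.n l2337 (nat_lit 4596) (nat_lit 13) (nat_lit 10))
    (@En.n l601 (nat_lit 4909) (nat_lit 14) (nat_lit 11))
    (@En.n l28 (nat_lit 7718) (nat_lit 12) (nat_lit 11))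
    (@En.n l11 (nat_lit 4893) (nat_lit 15) (nat_lit 2))))
  (@Cl.mk (nat_lit 0x200060006000e000a0002000e000a0002000a0006000a000a0006000e0006) (nat_lit 0x3704601085090) (nat_lit 16) Lb.e (@T16.mk En
    (@En.n l3697 (nat_lit 4901) (nat_lit 8) (nat_lit 6))
    (@En.n l181 (nat_lit 12554) (nat_lit 1) (nat_lit 14))
    (@En.i (nat_lit 7666) (nat_lit 2) (nat_lit 6))
    (@En.n l152 (nat_lit 4900) (nat_lit 12) (nat_lit 10))
    (@En.n l1347 (nat_lit 4182) (nat_lit 4) (nat_lit 10))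
    (@En.n l3698 (nat_lit 12562) (nat_lit 5) (nat_lit 6))
    (@En.n l3699 (nat_lit 4551) (nat_lit 12) (nat_lit 10))
    (@En.n l7 (nat_lit 4894) (nat_lit 7) (nat_lit 2))
    (@En.n l644 (nat_lit 4889) (nat_lit 9) (nat_lit 10))
    (@En.n l1347 (nat_lit 11652) (nat_lit 1) (nat_lit 14))
    (@En.n l11 (nat_lit 4894) (nat_lit 10) (nat_lit 2))
    (@En.i (nat_lit 4896) (nat_lit 12) (nat_lit 10))
    (@En.n l619 (nat_lit 2124) (nat_lit 13) (nat_lit 14))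
    (@En.i (nat_lit 2115) (nat_lit 14) (nat_lit 6))
    (@En.n l3700 (nat_lit 11750) (nat_lit 6) (nat_lit 6))
    (@En.n l17 (nat_lit 4894) (nat_lit 15) (nat_lit 2))))
  (@Cl.mk (nat_lit 0x200080008000e000c0002000a0008000400080008000e00060002000e0008) (nat_lit 0x13505106280093) (nat_lit 16) Lb.e (@T16.mk En
    (@En.n l3200 (nat_lit 4908) (nat_lit 14) (nat_lit 8))
    (@En.n l998 (nat_lit 4981) (nat_lit 1) (nat_lit 14))
    (@En.n l50 (nat_lit 4895) (nat_lit 2) (nat_lit 2))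
    (@En.n l7 (nat_lit 4889) (nat_lit 3) (nat_lit 6))
    (@En.n l476 (nat_lit 11349) (nat_lit 5) (nat_lit 14))
    (@En.n l152 (nat_lit 4909) (nat_lit 11) (nat_lit 8))
    (@En.i (nat_lit 3286) (nat_lit 6) (nat_lit 8))
    (@En.n l2563 (nat_lit 12617) (nat_lit 7) (nat_lit 4))
    (@En.i (nat_lit 4739) (nat_lit 14) (nat_lit 8))
    (@En.i (nat_lit 7972) (nat_lit 10) (nat_lit 10))
    (@En.n l11 (nat_lit 4895) (nat_lit 10) (nat_lit 2))
    (@En.i (nat_lit 4903) (nat_lit 12) (nat_lit 12))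
    (@En.n l619 (nat_lit 1930) (nat_lit 13) (nat_lit 14))
    (@En.n l4029 (nat_lit 2117) (nat_lit 14) (nat_lit 8))
    (@En.n l3200 (nat_lit 11753) (nat_lit 12) (nat_lit 8))
    (@En.n l17 (nat_lit 4895) (nat_lit 15) (nat_lit 2))))
noncomputable def a306 : T16 Cl := @T16.mk Cl
  (@Cl.mk (nat_lit 0x200060006000a000a000e00090002000900060006000a000a0007000e0007) (nat_lit 0x63c6020065010) (nat_lit 16) Lb.e (@T16.mk En
    (@En.n l3697 (nat_lit 4783) (nat_lit 7) (nat_lit 7))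
    (@En.n l10080 (nat_lit 38) (nat_lit 1) (nat_lit 14))
    (@En.n l6564 (nat_lit 11701) (nat_lit 2) (nat_lit 7))
    (@En.n l152 (nat_lit 4897) (nat_lit 11) (nat_lit 10))
    (@En.n l117 (nat_lit 4474) (nat_lit 4) (nat_lit 10))
    (@En.n l575 (nat_lit 4894) (nat_lit 5) (nat_lit 6))
    (@En.n l10081 (nat_lit 12561) (nat_lit 14) (nat_lit 6))
    (@En.n l10082 (nat_lit 4523) (nat_lit 8) (nat_lit 9))
    (@En.n l7 (nat_lit 4896) (nat_lit 8) (nat_lit 2))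
    (@En.n l644 (nat_lit 4892) (nat_lit 10) (nat_lit 9))
    (@En.n l9956 (nat_lit 11651) (nat_lit 11) (nat_lit 14))
    (@En.n l10083 (nat_lit 4777) (nat_lit 12) (nat_lit 10))
    (@En.n l10084 (nat_lit 4215) (nat_lit 13) (nat_lit 10))
    (@En.n l1141 (nat_lit 4778) (nat_lit 14) (nat_lit 6))
    (@En.n l10085 (nat_lit 11376) (nat_lit 5) (nat_lit 6))
    (@En.n l17 (nat_lit 4896) (nat_lit 15) (nat_lit 2))))
  (@Cl.mk (nat_lit 0x2000a00060006000a0006000e00060002000e00060002000a000a000e000a) (nat_lit 0x100403009003148) (nat_lit 16) Lb.e (@T16.mk En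
    (@En.n l644 (nat_lit 4898) (nat_lit 12) (nat_lit 10))
    (@En.n l1347 (nat_lit 11648) (nat_lit 13) (nat_lit 14))
    (@En.i (nat_lit 2114) (nat_lit 2) (nat_lit 10))
    (@En.i (nat_lit 4213) (nat_lit 12) (nat_lit 10))
    (@En.n l3 (nat_lit 4897) (nat_lit 4) (nat_lit 2))
    (@En.i (nat_lit 4896) (nat_lit 14) (nat_lit 6))
    (@En.i (nat_lit 12840) (nat_lit 1) (nat_lit 14))
    (@En.n l17 (nat_lit 4897) (nat_lit 7) (nat_lit 2))
    (@En.n l4019 (nat_lit 4899) (nat_lit 3) (nat_lit 6))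
    (@En.n l4691 (nat_lit 12556) (nat_lit 1) (nat_lit 14))
    (@En.i (nat_lit 10129) (nat_lit 5) (nat_lit 6))
    (@En.n l117 (nat_lit 4562) (nat_lit 12) (nat_lit 10))
    (@En.n l575 (nat_lit 4900) (nat_lit 13) (nat_lit 6))
    (@En.n l23261 (nat_lit 12557) (nat_lit 14) (nat_lit 6))
    (@En.n l3699 (nat_lit 4589) (nat_lit 10) (nat_lit 10))
    (@En.n l7 (nat_lit 4897) (nat_lit 15) (nat_lit 2))))
  (@Cl.mk (nat_lit 0x2000b000b000a000a000900050005000900060006000e00070002000e0007) (nat_lit 0x8876100500a00b0) (nat_lit 16) Lb.e (@T16.mk En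
    (@En.i (nat_lit 4892) (nat_lit 14) (nat_lit 7))
    (@En.i (nat_lit 10097) (nat_lit 1) (nat_lit 14))
    (@En.n l17 (nat_lit 4898) (nat_lit 2) (nat_lit 2))
    (@En.n l2900 (nat_lit 4780) (nat_lit 3) (nat_lit 7))
    (@En.n l3786 (nat_lit 4838) (nat_lit 1) (nat_lit 14))
    (@En.n l3787 (nat_lit 4897) (nat_lit 10) (nat_lit 6))
    (@En.i (nat_lit 5739) (nat_lit 6) (nat_lit 6))
    (@En.n l117 (nat_lit 4472) (nat_lit 4) (nat_lit 9))
    (@En.n l575 (nat_lit 4893) (nat_lit 11) (nat_lit 5))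
    (@En.n l17347 (nat_lit 12523) (nat_lit 9) (nat_lit 5))
    (@En.n l2337 (nat_lit 4593) (nat_lit 11) (nat_lit 9))
    (@En.n l601 (nat_lit 4907) (nat_lit 12) (nat_lit 10))
    (@En.n l16411 (nat_lit 7721) (nat_lit 13) (nat_lit 10))
    (@En.i (nat_lit 2118) (nat_lit 5) (nat_lit 11))
    (@En.i (nat_lit 4211) (nat_lit 12) (nat_lit 11))
    (@En.n l3 (nat_lit 4898) (nat_lit 15) (nat_lit 2))))
  (@Cl.mk (nat_lit 0x200090009000e00090002000a000a00070007000b000700060006000e0005) (nat_lit 0x3434032006000a0) (nat_lit 16) Lb.e (@T16.mk En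
    (@En.n l28 (nat_lit 4783) (nat_lit 5) (nat_lit 5))
    (@En.n l8515 (nat_lit 5697) (nat_lit 1) (nat_lit 14))
    (@En.n l1577 (nat_lit 4905) (nat_lit 10) (nat_lit 6))
    (@En.i (nat_lit 4486) (nat_lit 3) (nat_lit 6))
    (@En.n l4973 (nat_lit 10130) (nat_lit 4) (nat_lit 7))
    (@En.n l7406 (nat_lit 4564) (nat_lit 11) (nat_lit 11))
    (@En.n l61 (nat_lit 4902) (nat_lit 12) (nat_lit 7))
    (@En.n l8516 (nat_lit 7656) (nat_lit 7) (nat_lit 7))
    (@En.n l5987 (nat_lit 4897) (nat_lit 14) (nat_lit 10))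
    (@En.n l107 (nat_lit 4960) (nat_lit 10) (nat_lit 10))
    (@En.n l3 (nat_lit 4899) (nat_lit 10) (nat_lit 2))
    (@En.n l575 (nat_lit 4780) (nat_lit 12) (nat_lit 9))
    (@En.i (nat_lit 10801) (nat_lit 13) (nat_lit 14))
    (@En.n l8518 (nat_lit 2119) (nat_lit 2) (nat_lit 9))
    (@En.n l7409 (nat_lit 3145) (nat_lit 3) (nat_lit 9))
    (@En.n l50 (nat_lit 4899) (nat_lit 15) (nat_lit 2))))
  (@Cl.mk (nat_lit 0x2000b0006000a0005000e00050002000e00060002000e000a0002000e000b) (nat_lit 0x2040200b0014048) (nat_lit 16) Lb.e (@T16.mk En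
    (@En.n l644 (nat_lit 4893) (nat_lit 14) (nat_lit 11))
    (@En.n l1347 (nat_lit 11649) (nat_lit 1) (nat_lit 14))
    (@En.n l11 (nat_lit 4900) (nat_lit 2) (nat_lit 2))
    (@En.i (nat_lit 4897) (nat_lit 3) (nat_lit 10))
    (@En.n l1347 (nat_lit 1190) (nat_lit 1) (nat_lit 14))
    (@En.n l3 (nat_lit 4900) (nat_lit 5) (nat_lit 2))
    (@En.i (nat_lit 4894) (nat_lit 14) (nat_lit 6))
    (@En.i (nat_lit 12276) (nat_lit 1) (nat_lit 14))
    (@En.n l17 (nat_lit 4900) (nat_lit 8) (nat_lit 2))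
    (@En.n l4019 (nat_lit 4902) (nat_lit 9) (nat_lit 5))
    (@En.i (nat_lit 12539) (nat_lit 1) (nat_lit 14))
    (@En.i (nat_lit 10123) (nat_lit 8) (nat_lit 5))
    (@En.n l1347 (nat_lit 2675) (nat_lit 13) (nat_lit 10))
    (@En.n l1347 (nat_lit 12560) (nat_lit 14) (nat_lit 6))
    (@En.n l3699 (nat_lit 3451) (nat_lit 12) (nat_lit 11))
    (@En.n l7 (nat_lit 4900) (nat_lit 15) (nat_lit 2))))
  (@Cl.mk (nat_lit 0x2000a000a0007000b000b00070006000600050005000e00090002000e0009) (nat_lit 0x202600000230a1) (nat_lit 16) Lb.e (@T16.mk En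
    (@En.n l3279 (nat_lit 3169) (nat_lit 14) (nat_lit 9))
    (@En.i (nat_lit 11654) (nat_lit 1) (nat_lit 14))
    (@En.n l17 (nat_lit 4901) (nat_lit 2) (nat_lit 2))
    (@En.i (nat_lit 4783) (nat_lit 3) (nat_lit 9))
    (@En.n l5171 (nat_lit 1992) (nat_lit 1) (nat_lit 14))
    (@En.n l1338 (nat_lit 5042) (nat_lit 11) (nat_lit 5))
    (@En.n l237 (nat_lit 6905) (nat_lit 6) (nat_lit 5))
    (@En.n l575 (nat_lit 4906) (nat_lit 10) (nat_lit 6))
    (@En.i (nat_lit 5327) (nat_lit 8) (nat_lit 6))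
    (@En.i (nat_lit 12633) (nat_lit 6) (nat_lit 7))
    (@En.n l4380 (nat_lit 4902) (nat_lit 11) (nat_lit 11))
    (@En.i (nat_lit 1950) (nat_lit 12) (nat_lit 11))
    (@En.n l1913 (nat_lit 7993) (nat_lit 13) (nat_lit 7))
    (@En.n l10412 (nat_lit 4894) (nat_lit 6) (nat_lit 10))
    (@En.n l107 (nat_lit 4962) (nat_lit 12) (nat_lit 10))
    (@En.n l3 (nat_lit 4901) (nat_lit 15) (nat_lit 2))))
  (@Cl.mk (nat_lit 0x2000b000b0007000b000600050005000e00050002000e00090002000e000a) (nat_lit 0x30500080014057) (nat_lit 16) Lb.e (@T16.mk En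
    (@En.n l575 (nat_lit 4779) (nat_lit 14) (nat_lit 10))
    (@En.i (nat_lit 7660) (nat_lit 1) (nat_lit 14))
    (@En.n l17 (nat_lit 4902) (nat_lit 2) (nat_lit 2))
    (@En.i (nat_lit 4899) (nat_lit 14) (nat_lit 9))
    (@En.i (nat_lit 1187) (nat_lit 1) (nat_lit 14))
    (@En.n l50 (nat_lit 4902) (nat_lit 5) (nat_lit 2))
    (@En.n l28 (nat_lit 4901) (nat_lit 6) (nat_lit 5))
    (@En.n l6370 (nat_lit 6464) (nat_lit 1) (nat_lit 14))
    (@En.n l1577 (nat_lit 4904) (nat_lit 11) (nat_lit 5))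
    (@En.i (nat_lit 5330) (nat_lit 9) (nat_lit 5))
    (@En.n l4973 (nat_lit 10103) (nat_lit 7) (nat_lit 6))
    (@En.i (nat_lit 2678) (nat_lit 12) (nat_lit 11))
    (@En.n l3213 (nat_lit 7991) (nat_lit 13) (nat_lit 7))
    (@En.n l5987 (nat_lit 4900) (nat_lit 14) (nat_lit 11))
    (@En.n l107 (nat_lit 4958) (nat_lit 12) (nat_lit 11))
    (@En.n l3 (nat_lit 4902) (nat_lit 15) (nat_lit 2))))
  (@Cl.mk (nat_lit 0x200080008000c000c000900070004000400080008000e00070002000e0009) (nat_lit 0x504740001380022) (nat_lit 16) Lb.e (@T16.mk En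
    (@En.n l4319 (nat_lit 4783) (nat_lit 14) (nat_lit 9))
    (@En.n l998 (nat_lit 4997) (nat_lit 1) (nat_lit 14))
    (@En.n l50 (nat_lit 4903) (nat_lit 2) (nat_lit 2))
    (@En.n l7 (nat_lit 4892) (nat_lit 3) (nat_lit 7))
    (@En.n l476 (nat_lit 11346) (nat_lit 5) (nat_lit 14))
    (@En.n l152 (nat_lit 4907) (nat_lit 8) (nat_lit 8))
    (@En.n l117 (nat_lit 3137) (nat_lit 6) (nat_lit 8))
    (@En.n l575 (nat_lit 4895) (nat_lit 7) (nat_lit 4))
    (@En.n l3836 (nat_lit 12618) (nat_lit 8) (nat_lit 4))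
    (@En.n l4319 (nat_lit 4741) (nat_lit 6) (nat_lit 7))
    (@En.n l1578 (nat_lit 11709) (nat_lit 11) (nat_lit 9))
    (@En.n l11097 (nat_lit 4905) (nat_lit 12) (nat_lit 12))
    (@En.n l3202 (nat_lit 3946) (nat_lit 13) (nat_lit 12))
    (@En.n l11098 (nat_lit 4906) (nat_lit 14) (nat_lit 8))
    (@En.n l11099 (nat_lit 12624) (nat_lit 12) (nat_lit 8))
    (@En.n l17 (nat_lit 4903) (nat_lit 15) (nat_lit 2))))
  (@Cl.mk (nat_lit 0x20008000c00070005000e00040002000e00080002000e00090002000e000b) (nat_lit 0x60080033051061) (nat_lit 16) Lb.e (@T16.mk En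
    (@En.n l55 (nat_lit 4902) (nat_lit 14) (nat_lit 11))
    (@En.n l615 (nat_lit 4998) (nat_lit 1) (nat_lit 14))
    (@En.n l3 (nat_lit 4904) (nat_lit 2) (nat_lit 2))
    (@En.i (nat_lit 4776) (nat_lit 3) (nat_lit 9))
    (@En.i (nat_lit 11367) (nat_lit 1) (nat_lit 14))
    (@En.n l17 (nat_lit 4904) (nat_lit 5) (nat_lit 2))
    (@En.i (nat_lit 4905) (nat_lit 6) (nat_lit 8))
    (@En.i (nat_lit 1634) (nat_lit 1) (nat_lit 14))
    (@En.n l50 (nat_lit 4904) (nat_lit 8) (nat_lit 2))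
    (@En.i (nat_lit 4906) (nat_lit 9) (nat_lit 4))
    (@En.n l6453 (nat_lit 3667) (nat_lit 11) (nat_lit 14))
    (@En.i (nat_lit 4749) (nat_lit 8) (nat_lit 5))
    (@En.n l6454 (nat_lit 12512) (nat_lit 13) (nat_lit 7))
    (@En.i (nat_lit 3698) (nat_lit 14) (nat_lit 12))
    (@En.n l2228 (nat_lit 10986) (nat_lit 12) (nat_lit 8))
    (@En.n l11 (nat_lit 4904) (nat_lit 15) (nat_lit 2))))
  (@Cl.mk (nat_lit 0x200080008000c00080006000e0004000200080008000e00080002000e000a) (nat_lit 0x616309002134024) (nat_lit 16) Lb.e (@T16.mk En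
    (@En.n l55 (nat_lit 4899) (nat_lit 9) (nat_lit 10))
    (@En.n l615 (nat_lit 4999) (nat_lit 1) (nat_lit 14))
    (@En.n l3 (nat_lit 4905) (nat_lit 2) (nat_lit 2))
    (@En.i (nat_lit 4782) (nat_lit 3) (nat_lit 8))
    (@En.i (nat_lit 12836) (nat_lit 5) (nat_lit 14))
    (@En.n l6484 (nat_lit 2116) (nat_lit 14) (nat_lit 8))
    (@En.n l6042 (nat_lit 3142) (nat_lit 6) (nat_lit 8))
    (@En.n l50 (nat_lit 4905) (nat_lit 7) (nat_lit 2))
    (@En.n l3999 (nat_lit 4903) (nat_lit 8) (nat_lit 4))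
    (@En.n l6453 (nat_lit 1892) (nat_lit 10) (nat_lit 14))
    (@En.i (nat_lit 4745) (nat_lit 2) (nat_lit 6))
    (@En.n l6454 (nat_lit 12508) (nat_lit 3) (nat_lit 8))
    (@En.n l1353 (nat_lit 3948) (nat_lit 13) (nat_lit 12))
    (@En.n l61 (nat_lit 4904) (nat_lit 14) (nat_lit 8))
    (@En.n l2228 (nat_lit 7659) (nat_lit 12) (nat_lit 8))
    (@En.n l11 (nat_lit 4905) (nat_lit 15) (nat_lit 2))))
  (@Cl.mk (nat_lit 0x20008000c000c0008000600040004000e00080002000e00080002000e000a) (nat_lit 0x637300012096071) (nat_lit 16) Lb.e (@T16.mk En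
    (@En.i (nat_lit 4901) (nat_lit 14) (nat_lit 10))
    (@En.n l615 (nat_lit 4996) (nat_lit 1) (nat_lit 14))
    (@En.n l3 (nat_lit 4906) (nat_lit 2) (nat_lit 2))
    (@En.i (nat_lit 4891) (nat_lit 3) (nat_lit 8))
    (@En.i (nat_lit 12550) (nat_lit 1) (nat_lit 14))
    (@En.n l17 (nat_lit 4906) (nat_lit 5) (nat_lit 2))
    (@En.n l3999 (nat_lit 4903) (nat_lit 6) (nat_lit 8))
    (@En.i (nat_lit 2098) (nat_lit 1) (nat_lit 14))
    (@En.n l4000 (nat_lit 2117) (nat_lit 8) (nat_lit 4))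
    (@En.n l4001 (nat_lit 11061) (nat_lit 9) (nat_lit 4))
    (@En.i (nat_lit 4748) (nat_lit 7) (nat_lit 6))
    (@En.n l4002 (nat_lit 12632) (nat_lit 12) (nat_lit 8))
    (@En.n l644 (nat_lit 4904) (nat_lit 13) (nat_lit 12))
    (@En.i (nat_lit 3944) (nat_lit 14) (nat_lit 12))
    (@En.n l287 (nat_lit 8166) (nat_lit 12) (nat_lit 8))
    (@En.n l11 (nat_lit 4906) (nat_lit 15) (nat_lit 2))))
  (@Cl.mk (nat_lit 0x2000c000c000a0008000400040008000e00060002000e00080002000e0008) (nat_lit 0x9851002700220c6) (nat_lit 16) Lb.e (@T16.mk En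
    (@En.i (nat_lit 4903) (nat_lit 14) (nat_lit 8))
    (@En.i (nat_lit 10095) (nat_lit 1) (nat_lit 14))
    (@En.n l17 (nat_lit 4907) (nat_lit 2) (nat_lit 2))
    (@En.i (nat_lit 4781) (nat_lit 14) (nat_lit 8))
    (@En.n l998 (nat_lit 5002) (nat_lit 1) (nat_lit 14))
    (@En.n l50 (nat_lit 4907) (nat_lit 5) (nat_lit 2))
    (@En.n l7 (nat_lit 4898) (nat_lit 6) (nat_lit 6))
    (@En.i (nat_lit 2988) (nat_lit 1) (nat_lit 14))
    (@En.n l117 (nat_lit 3140) (nat_lit 5) (nat_lit 8))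
    (@En.n l575 (nat_lit 4909) (nat_lit 12) (nat_lit 4))
    (@En.n l9648 (nat_lit 12615) (nat_lit 10) (nat_lit 4))
    (@En.n l1578 (nat_lit 4723) (nat_lit 5) (nat_lit 8))
    (@En.n l1578 (nat_lit 12570) (nat_lit 13) (nat_lit 10))
    (@En.n l9684 (nat_lit 2116) (nat_lit 4) (nat_lit 12))
    (@En.i (nat_lit 3952) (nat_lit 12) (nat_lit 12))
    (@En.n l3 (nat_lit 4907) (nat_lit 15) (nat_lit 2))))
  (@Cl.mk (nat_lit 0x20008000800070007000e000b0002000900080008000500090009000e0007) (nat_lit 0x220028076201290) (nat_lit 16) Lb.e (@T16.mk En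
    (@En.n l10058 (nat_lit 3169) (nat_lit 7) (nat_lit 7))
    (@En.n l3749 (nat_lit 7975) (nat_lit 9) (nat_lit 14))
    (@En.n l4271 (nat_lit 4775) (nat_lit 2) (nat_lit 9))
    (@En.n l10059 (nat_lit 3099) (nat_lit 3) (nat_lit 9))
    (@En.n l10060 (nat_lit 5720) (nat_lit 4) (nat_lit 5))
    (@En.n l10061 (nat_lit 4895) (nat_lit 8) (nat_lit 8))
    (@En.i (nat_lit 5321) (nat_lit 6) (nat_lit 8))
    (@En.n l3098 (nat_lit 10790) (nat_lit 8) (nat_lit 9))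
    (@En.n l3 (nat_lit 4908) (nat_lit 8) (nat_lit 2))
    (@En.n l3707 (nat_lit 4783) (nat_lit 10) (nat_lit 11))
    (@En.n l6025 (nat_lit 1903) (nat_lit 11) (nat_lit 14))
    (@En.n l55 (nat_lit 5042) (nat_lit 2) (nat_lit 7))
    (@En.i (nat_lit 7963) (nat_lit 3) (nat_lit 7))
    (@En.n l10062 (nat_lit 4778) (nat_lit 8) (nat_lit 8))
    (@En.n l10063 (nat_lit 5036) (nat_lit 5) (nat_lit 8))
    (@En.n l50 (nat_lit 4908) (nat_lit 15) (nat_lit 2))))
  (@Cl.mk (nat_lit 0x2000b000900040008000e00050002000e00070002000e00080002000e000c) (nat_lit 0x6101700400a104a) (nat_lit 16) Lb.e (@T16.mk En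
    (@En.i (nat_lit 4907) (nat_lit 14) (nat_lit 12))
    (@En.i (nat_lit 1929) (nat_lit 1) (nat_lit 14))
    (@En.n l3 (nat_lit 4909) (nat_lit 2) (nat_lit 2))
    (@En.i (nat_lit 4895) (nat_lit 14) (nat_lit 8))
    (@En.i (nat_lit 10099) (nat_lit 1) (nat_lit 14))
    (@En.n l17 (nat_lit 4909) (nat_lit 5) (nat_lit 2))
    (@En.i (nat_lit 4775) (nat_lit 14) (nat_lit 7))
    (@En.n l998 (nat_lit 4982) (nat_lit 1) (nat_lit 14))
    (@En.n l50 (nat_lit 4909) (nat_lit 8) (nat_lit 2))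
    (@En.n l7 (nat_lit 4893) (nat_lit 9) (nat_lit 5))
    (@En.i (nat_lit 4169) (nat_lit 1) (nat_lit 14))
    (@En.i (nat_lit 680) (nat_lit 12) (nat_lit 8))
    (@En.i (nat_lit 12613) (nat_lit 9) (nat_lit 4))
    (@En.i (nat_lit 4725) (nat_lit 14) (nat_lit 9))
    (@En.i (nat_lit 10108) (nat_lit 12) (nat_lit 11))
    (@En.n l11 (nat_lit 4909) (nat_lit 15) (nat_lit 2))))
  (@Cl.mk (nat_lit 0x20008000500080008000e000c000200090008000400080008000b000e0007) (nat_lit 0x3002a9011012590) (nat_lit 16) Lb.e (@T16.mk En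
    (@En.n l50 (nat_lit 4875) (nat_lit 7) (nat_lit 7))
    (@En.n l1643 (nat_lit 4895) (nat_lit 4) (nat_lit 14))
    (@En.n l3 (nat_lit 4912) (nat_lit 2) (nat_lit 11))
    (@En.n l527 (nat_lit 4912) (nat_lit 3) (nat_lit 8))
    (@En.i (nat_lit 1052) (nat_lit 4) (nat_lit 8))
    (@En.n l13182 (nat_lit 1926) (nat_lit 5) (nat_lit 4))
    (@En.n l1290 (nat_lit 930) (nat_lit 6) (nat_lit 8))
    (@En.n l12375 (nat_lit 1738) (nat_lit 1) (nat_lit 9))
    (@En.n l28 (nat_lit 4910) (nat_lit 8) (nat_lit 2))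
    (@En.n l13183 (nat_lit 4913) (nat_lit 10) (nat_lit 12))
    (@En.n l13184 (nat_lit 1196) (nat_lit 11) (nat_lit 14))
    (@En.n l13185 (nat_lit 4914) (nat_lit 2) (nat_lit 8))
    (@En.n l13186 (nat_lit 5734) (nat_lit 3) (nat_lit 8))
    (@En.n l1295 (nat_lit 4881) (nat_lit 14) (nat_lit 5))
    (@En.n l2101 (nat_lit 4876) (nat_lit 5) (nat_lit 8))
    (@En.n l18 (nat_lit 4910) (nat_lit 15) (nat_lit 2))))
  (@Cl.mk (nat_lit 0x200080005000e00080002000c000c00090008000400040008000b000e0007) (nat_lit 0x409609953002380) (nat_lit 16) Lb.e (@T16.mk En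
    (@En.n l50 (nat_lit 4970) (nat_lit 5) (nat_lit 7))
    (@En.n l1643 (nat_lit 4907) (nat_lit 7) (nat_lit 14))
    (@En.i (nat_lit 13474) (nat_lit 7) (nat_lit 11))
    (@En.n l665 (nat_lit 1047) (nat_lit 3) (nat_lit 8))
    (@En.n l55 (nat_lit 4912) (nat_lit 4) (nat_lit 4))
    (@En.n l29093 (nat_lit 5025) (nat_lit 5) (nat_lit 4))
    (@En.n l29094 (nat_lit 928) (nat_lit 6) (nat_lit 8))
    (@En.n l134 (nat_lit 6913) (nat_lit 13) (nat_lit 9))
    (@En.n l29095 (nat_lit 5022) (nat_lit 4) (nat_lit 12))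
    (@En.n l29096 (nat_lit 1756) (nat_lit 10) (nat_lit 12))
    (@En.n l107 (nat_lit 4911) (nat_lit 10) (nat_lit 2))
    (@En.n l13183 (nat_lit 4913) (nat_lit 12) (nat_lit 8))
    (@En.n l97 (nat_lit 5132) (nat_lit 1) (nat_lit 14))
    (@En.n l29097 (nat_lit 4922) (nat_lit 14) (nat_lit 5))
    (@En.n l29098 (nat_lit 4923) (nat_lit 3) (nat_lit 8))
    (@En.n l18 (nat_lit 4911) (nat_lit 15) (nat_lit 2))))
noncomputable def a307 : T16 Cl := @T16.mk Cl
  (@Cl.mk (nat_lit 0x200070005000e00080002000e000c0002000a000900040008000b000e0006) (nat_lit 0x8102a06101480) (nat_lit 16) Lb.e (@T16.mk En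
    (@En.n l50 (nat_lit 4980) (nat_lit 8) (nat_lit 6))
    (@En.n l1643 (nat_lit 4909) (nat_lit 10) (nat_lit 14))
    (@En.i (nat_lit 14097) (nat_lit 7) (nat_lit 11))
    (@En.i (nat_lit 214) (nat_lit 3) (nat_lit 8))
    (@En.n l5909 (nat_lit 5345) (nat_lit 4) (nat_lit 4))
    (@En.n l1290 (nat_lit 924) (nat_lit 5) (nat_lit 9))
    (@En.n l947 (nat_lit 4930) (nat_lit 12) (nat_lit 10))
    (@En.n l28 (nat_lit 4912) (nat_lit 7) (nat_lit 2))
    (@En.i (nat_lit 4911) (nat_lit 9) (nat_lit 12))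
    (@En.n l947 (nat_lit 1439) (nat_lit 1) (nat_lit 14))
    (@En.n l107 (nat_lit 4912) (nat_lit 10) (nat_lit 2))
    (@En.i (nat_lit 4910) (nat_lit 12) (nat_lit 8))
    (@En.n l97 (nat_lit 5125) (nat_lit 13) (nat_lit 14))
    (@En.n l1295 (nat_lit 4925) (nat_lit 14) (nat_lit 5))
    (@En.n l2101 (nat_lit 4878) (nat_lit 6) (nat_lit 7))
    (@En.n l18 (nat_lit 4912) (nat_lit 15) (nat_lit 2))))
  (@Cl.mk (nat_lit 0x20009000500080008000c000c000800070004000400080008000b000e0008) (nat_lit 0x405288300013494) (nat_lit 16) Lb.e (@T16.mk En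
    (@En.n l6031 (nat_lit 4917) (nat_lit 2) (nat_lit 8))
    (@En.n l26775 (nat_lit 4903) (nat_lit 4) (nat_lit 14))
    (@En.n l26776 (nat_lit 4911) (nat_lit 2) (nat_lit 11))
    (@En.n l26777 (nat_lit 4911) (nat_lit 3) (nat_lit 8))
    (@En.n l13057 (nat_lit 1046) (nat_lit 4) (nat_lit 8))
    (@En.n l26778 (nat_lit 4910) (nat_lit 5) (nat_lit 4))
    (@En.n l26779 (nat_lit 1925) (nat_lit 6) (nat_lit 4))
    (@En.i (nat_lit 709) (nat_lit 7) (nat_lit 7))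
    (@En.n l26780 (nat_lit 5425) (nat_lit 9) (nat_lit 8))
    (@En.n l26781 (nat_lit 4918) (nat_lit 4) (nat_lit 12))
    (@En.i (nat_lit 1757) (nat_lit 11) (nat_lit 12))
    (@En.n l725 (nat_lit 4915) (nat_lit 12) (nat_lit 8))
    (@En.n l781 (nat_lit 5733) (nat_lit 13) (nat_lit 8))
    (@En.n l26782 (nat_lit 4916) (nat_lit 14) (nat_lit 5))
    (@En.n l12970 (nat_lit 4919) (nat_lit 0) (nat_lit 9))
    (@En.n l107 (nat_lit 4913) (nat_lit 15) (nat_lit 2))))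
  (@Cl.mk (nat_lit 0x2000800070004000e00080002000b000e00080002000900050008000e000c) (nat_lit 0x400520616030188) (nat_lit 16) Lb.e (@T16.mk En
    (@En.n l2593 (nat_lit 4915) (nat_lit 11) (nat_lit 12))
    (@En.n l1208 (nat_lit 1192) (nat_lit 12) (nat_lit 14))
    (@En.n l5084 (nat_lit 4663) (nat_lit 2) (nat_lit 8))
    (@En.n l1660 (nat_lit 4924) (nat_lit 14) (nat_lit 5))
    (@En.n l5085 (nat_lit 4880) (nat_lit 4) (nat_lit 9))
    (@En.n l107 (nat_lit 4914) (nat_lit 5) (nat_lit 2))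
    (@En.n l5086 (nat_lit 4991) (nat_lit 6) (nat_lit 8))
    (@En.n l5087 (nat_lit 2117) (nat_lit 4) (nat_lit 14))
    (@En.n l5088 (nat_lit 4910) (nat_lit 2) (nat_lit 11))
    (@En.n l18 (nat_lit 4914) (nat_lit 9) (nat_lit 2))
    (@En.n l5089 (nat_lit 4910) (nat_lit 4) (nat_lit 8))
    (@En.n l564 (nat_lit 1900) (nat_lit 1) (nat_lit 14))
    (@En.n l5087 (nat_lit 5344) (nat_lit 6) (nat_lit 4))
    (@En.i (nat_lit 934) (nat_lit 14) (nat_lit 7))
    (@En.n l5090 (nat_lit 5282) (nat_lit 4) (nat_lit 8))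
    (@En.n l8 (nat_lit 4914) (nat_lit 15) (nat_lit 2))))
  (@Cl.mk (nat_lit 0x2000a00050008000c000c0007000600040004000e00080002000b000e0009) (nat_lit 0x3017700001205a7) (nat_lit 16) Lb.e (@T16.mk En
    (@En.n l3303 (nat_lit 4978) (nat_lit 13) (nat_lit 9))
    (@En.n l619 (nat_lit 4906) (nat_lit 4) (nat_lit 14))
    (@En.i (nat_lit 4913) (nat_lit 2) (nat_lit 11))
    (@En.n l17 (nat_lit 4915) (nat_lit 3) (nat_lit 2))
    (@En.n l1353 (nat_lit 4913) (nat_lit 4) (nat_lit 8))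
    (@En.n l1442 (nat_lit 498) (nat_lit 1) (nat_lit 14))
    (@En.n l564 (nat_lit 4914) (nat_lit 12) (nat_lit 4))
    (@En.n l12968 (nat_lit 5960) (nat_lit 3) (nat_lit 4))
    (@En.i (nat_lit 705) (nat_lit 8) (nat_lit 6))
    (@En.n l1442 (nat_lit 5424) (nat_lit 5) (nat_lit 7))
    (@En.n l12969 (nat_lit 4955) (nat_lit 11) (nat_lit 12))
    (@En.i (nat_lit 2357) (nat_lit 12) (nat_lit 12))
    (@En.n l1643 (nat_lit 4666) (nat_lit 13) (nat_lit 8))
    (@En.n l159 (nat_lit 4920) (nat_lit 14) (nat_lit 5))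
    (@En.n l12970 (nat_lit 4921) (nat_lit 11) (nat_lit 10))
    (@En.n l107 (nat_lit 4915) (nat_lit 15) (nat_lit 2))))
  (@Cl.mk (nat_lit 0x2000500080008000c000c0007000a0004000400080008000b0006000e0009) (nat_lit 0x505400001340a7) (nat_lit 16) Lb.e (@T16.mk En
    (@En.n l23095 (nat_lit 4919) (nat_lit 1) (nat_lit 9))
    (@En.n l23096 (nat_lit 4913) (nat_lit 1) (nat_lit 14))
    (@En.n l23097 (nat_lit 4964) (nat_lit 2) (nat_lit 6))
    (@En.n l476 (nat_lit 4922) (nat_lit 3) (nat_lit 11))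
    (@En.n l152 (nat_lit 4922) (nat_lit 4) (nat_lit 8))
    (@En.n l1599 (nat_lit 1040) (nat_lit 5) (nat_lit 8))
    (@En.n l28 (nat_lit 4881) (nat_lit 6) (nat_lit 4))
    (@En.n l5012 (nat_lit 1918) (nat_lit 7) (nat_lit 4))
    (@En.i (nat_lit 13046) (nat_lit 8) (nat_lit 10))
    (@En.n l8874 (nat_lit 5421) (nat_lit 10) (nat_lit 7))
    (@En.n l5013 (nat_lit 4953) (nat_lit 11) (nat_lit 12))
    (@En.n l5011 (nat_lit 1753) (nat_lit 12) (nat_lit 12))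
    (@En.n l5014 (nat_lit 4920) (nat_lit 13) (nat_lit 8))
    (@En.n l5015 (nat_lit 4766) (nat_lit 10) (nat_lit 8))
    (@En.n l2568 (nat_lit 1882) (nat_lit 13) (nat_lit 5))
    (@En.n l17 (nat_lit 4916) (nat_lit 15) (nat_lit 2))))
  (@Cl.mk (nat_lit 0x400070007000b000b0008000800080005000500090009000c000800080008) (nat_lit 0x7744400235333) (nat_lit 16) Lb.e (@T16.mk En
    (@En.n l26785 (nat_lit 4873) (nat_lit 8) (nat_lit 8))
    (@En.n l26786 (nat_lit 4967) (nat_lit 8) (nat_lit 8))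
    (@En.n l26787 (nat_lit 4835) (nat_lit 3) (nat_lit 8))
    (@En.n l20583 (nat_lit 4970) (nat_lit 6) (nat_lit 12))
    (@En.n l26788 (nat_lit 4970) (nat_lit 7) (nat_lit 9))
    (@En.n l26789 (nat_lit 981) (nat_lit 10) (nat_lit 9))
    (@En.n l5111 (nat_lit 4875) (nat_lit 11) (nat_lit 5))
    (@En.n l26790 (nat_lit 5113) (nat_lit 7) (nat_lit 5))
    (@En.n l26791 (nat_lit 4997) (nat_lit 8) (nat_lit 8))
    (@En.n l26792 (nat_lit 4913) (nat_lit 8) (nat_lit 8))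
    (@En.n l26793 (nat_lit 6831) (nat_lit 2) (nat_lit 8))
    (@En.n l77 (nat_lit 4943) (nat_lit 5) (nat_lit 11))
    (@En.n l8011 (nat_lit 2506) (nat_lit 8) (nat_lit 11))
    (@En.n l217 (nat_lit 4978) (nat_lit 9) (nat_lit 7))
    (@En.i (nat_lit 5726) (nat_lit 11) (nat_lit 7))
    (@En.n l26794 (nat_lit 4919) (nat_lit 15) (nat_lit 4))))
  (@Cl.mk (nat_lit 0x200080008000b000e00090002000a000500080008000c00070006000e0004) (nat_lit 0x225470805070020) (nat_lit 16) Lb.e (@T16.mk En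
    (@En.n l6749 (nat_lit 4913) (nat_lit 6) (nat_lit 4))
    (@En.n l134 (nat_lit 1799) (nat_lit 8) (nat_lit 14))
    (@En.n l6749 (nat_lit 700) (nat_lit 2) (nat_lit 6))
    (@En.i (nat_lit 5028) (nat_lit 3) (nat_lit 7))
    (@En.n l6749 (nat_lit 2512) (nat_lit 11) (nat_lit 12))
    (@En.n l217 (nat_lit 4955) (nat_lit 12) (nat_lit 8))
    (@En.i (nat_lit 6464) (nat_lit 6) (nat_lit 8))
    (@En.n l4395 (nat_lit 4953) (nat_lit 14) (nat_lit 5))
    (@En.n l8009 (nat_lit 4946) (nat_lit 9) (nat_lit 10))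
    (@En.n l3 (nat_lit 4918) (nat_lit 9) (nat_lit 2))
    (@En.i (nat_lit 4943) (nat_lit 11) (nat_lit 9))
    (@En.n l713 (nat_lit 4905) (nat_lit 4) (nat_lit 14))
    (@En.n l14847 (nat_lit 5022) (nat_lit 13) (nat_lit 11))
    (@En.n l14848 (nat_lit 5022) (nat_lit 14) (nat_lit 8))
    (@En.n l14849 (nat_lit 986) (nat_lit 4) (nat_lit 8))
    (@En.n l7 (nat_lit 4918) (nat_lit 15) (nat_lit 2))))
  (@Cl.mk (nat_lit 0x400070007000b000b00070007000a0005000500090009000c000600090009) (nat_lit 0x5400100134063) (nat_lit 16) Lb.e (@T16.mk En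
    (@En.n l575 (nat_lit 4972) (nat_lit 7) (nat_lit 9))
    (@En.i (nat_lit 4873) (nat_lit 9) (nat_lit 9))
    (@En.n l35760 (nat_lit 3180) (nat_lit 11) (nat_lit 6))
    (@En.n l35753 (nat_lit 4923) (nat_lit 6) (nat_lit 12))
    (@En.n l35761 (nat_lit 4923) (nat_lit 7) (nat_lit 9))
    (@En.n l35762 (nat_lit 1041) (nat_lit 10) (nat_lit 9))
    (@En.n l34435 (nat_lit 4876) (nat_lit 11) (nat_lit 5))
    (@En.n l26769 (nat_lit 5965) (nat_lit 7) (nat_lit 5))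
    (@En.n l35763 (nat_lit 4916) (nat_lit 8) (nat_lit 10))
    (@En.n l35764 (nat_lit 4916) (nat_lit 9) (nat_lit 7))
    (@En.n l117 (nat_lit 5420) (nat_lit 2) (nat_lit 7))
    (@En.n l2593 (nat_lit 4946) (nat_lit 5) (nat_lit 11))
    (@En.n l387 (nat_lit 1755) (nat_lit 8) (nat_lit 11))
    (@En.n l17 (nat_lit 4921) (nat_lit 9) (nat_lit 7))
    (@En.n l28600 (nat_lit 4762) (nat_lit 11) (nat_lit 7))
    (@En.n l35765 (nat_lit 1880) (nat_lit 15) (nat_lit 4))))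
  (@Cl.mk (nat_lit 0x200050008000c000c0006000900040004000e00080002000b0007000e000a) (nat_lit 0x643000042050b8) (nat_lit 16) Lb.e (@T16.mk En
    (@En.n l22666 (nat_lit 4921) (nat_lit 12) (nat_lit 10))
    (@En.n l180 (nat_lit 4915) (nat_lit 1) (nat_lit 14))
    (@En.n l619 (nat_lit 4963) (nat_lit 14) (nat_lit 7))
    (@En.n l5572 (nat_lit 4916) (nat_lit 3) (nat_lit 11))
    (@En.n l17 (nat_lit 4920) (nat_lit 4) (nat_lit 2))
    (@En.n l3608 (nat_lit 4916) (nat_lit 5) (nat_lit 8))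
    (@En.i (nat_lit 1587) (nat_lit 7) (nat_lit 14))
    (@En.n l3642 (nat_lit 4924) (nat_lit 7) (nat_lit 4))
    (@En.n l7 (nat_lit 1917) (nat_lit 8) (nat_lit 4))
    (@En.i (nat_lit 13050) (nat_lit 9) (nat_lit 9))
    (@En.i (nat_lit 5418) (nat_lit 5) (nat_lit 6))
    (@En.n l644 (nat_lit 4954) (nat_lit 12) (nat_lit 12))
    (@En.i (nat_lit 2356) (nat_lit 13) (nat_lit 12))
    (@En.n l1643 (nat_lit 6060) (nat_lit 14) (nat_lit 8))
    (@En.i (nat_lit 4995) (nat_lit 13) (nat_lit 5))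
    (@En.n l11 (nat_lit 4920) (nat_lit 15) (nat_lit 2))))
  (@Cl.mk (nat_lit 0x2000c0007000a000a00040007000b000b00060006000900050005000e0009) (nat_lit 0x507200330010052) (nat_lit 16) Lb.e (@T16.mk En
    (@En.n l5 (nat_lit 4919) (nat_lit 5) (nat_lit 9))
    (@En.n l14028 (nat_lit 1584) (nat_lit 1) (nat_lit 14))
    (@En.n l538 (nat_lit 4880) (nat_lit 11) (nat_lit 5))
    (@En.n l26769 (nat_lit 5962) (nat_lit 3) (nat_lit 5))
    (@En.n l26770 (nat_lit 4920) (nat_lit 9) (nat_lit 9))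
    (@En.n l26771 (nat_lit 4920) (nat_lit 10) (nat_lit 6))
    (@En.n l117 (nat_lit 5419) (nat_lit 6) (nat_lit 6))
    (@En.n l26772 (nat_lit 4952) (nat_lit 8) (nat_lit 11))
    (@En.n l26773 (nat_lit 2299) (nat_lit 9) (nat_lit 11))
    (@En.n l13758 (nat_lit 6059) (nat_lit 11) (nat_lit 7))
    (@En.n l26774 (nat_lit 4993) (nat_lit 10) (nat_lit 4))
    (@En.n l575 (nat_lit 4976) (nat_lit 6) (nat_lit 10))
    (@En.i (nat_lit 4940) (nat_lit 8) (nat_lit 10))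
    (@En.n l25964 (nat_lit 4962) (nat_lit 14) (nat_lit 7))
    (@En.i (nat_lit 4919) (nat_lit 3) (nat_lit 12))
    (@En.n l18 (nat_lit 4921) (nat_lit 15) (nat_lit 2))))
  (@Cl.mk (nat_lit 0x20005000e00080002000c000c0008000b000400040008000b0005000e0008) (nat_lit 0x96065300023094) (nat_lit 16) Lb.e (@T16.mk En
    (@En.i (nat_lit 4923) (nat_lit 4) (nat_lit 8))
    (@En.n l17836 (nat_lit 4911) (nat_lit 1) (nat_lit 14))
    (@En.n l2678 (nat_lit 3179) (nat_lit 2) (nat_lit 5))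
    (@En.n l1599 (nat_lit 14095) (nat_lit 7) (nat_lit 11))
    (@En.n l1599 (nat_lit 1035) (nat_lit 4) (nat_lit 8))
    (@En.n l28 (nat_lit 4925) (nat_lit 5) (nat_lit 4))
    (@En.n l17837 (nat_lit 1922) (nat_lit 6) (nat_lit 4))
    (@En.i (nat_lit 13048) (nat_lit 7) (nat_lit 11))
    (@En.n l3213 (nat_lit 6915) (nat_lit 13) (nat_lit 8))
    (@En.n l1578 (nat_lit 5023) (nat_lit 10) (nat_lit 12))
    (@En.i (nat_lit 1752) (nat_lit 11) (nat_lit 12))
    (@En.n l3 (nat_lit 4922) (nat_lit 11) (nat_lit 2))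
    (@En.i (nat_lit 4916) (nat_lit 13) (nat_lit 8))
    (@En.i (nat_lit 5133) (nat_lit 1) (nat_lit 14))
    (@En.n l2568 (nat_lit 1883) (nat_lit 13) (nat_lit 5))
    (@En.n l17 (nat_lit 4922) (nat_lit 15) (nat_lit 2))))
  (@Cl.mk (nat_lit 0x2000b000b00080008000b000500050009000c0005000800080004000e0007) (nat_lit 0x554410023033080) (nat_lit 16) Lb.e (@T16.mk En
    (@En.n l23095 (nat_lit 4919) (nat_lit 14) (nat_lit 7))
    (@En.n l3724 (nat_lit 5194) (nat_lit 1) (nat_lit 14))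
    (@En.n l33606 (nat_lit 1881) (nat_lit 2) (nat_lit 4))
    (@En.n l33607 (nat_lit 4969) (nat_lit 3) (nat_lit 8))
    (@En.n l28405 (nat_lit 4938) (nat_lit 10) (nat_lit 8))
    (@En.n l33608 (nat_lit 3177) (nat_lit 5) (nat_lit 5))
    (@En.n l20051 (nat_lit 13714) (nat_lit 6) (nat_lit 12))
    (@En.n l1599 (nat_lit 1039) (nat_lit 10) (nat_lit 9))
    (@En.n l28 (nat_lit 4878) (nat_lit 11) (nat_lit 5))
    (@En.n l28405 (nat_lit 6674) (nat_lit 9) (nat_lit 5))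
    (@En.n l18 (nat_lit 4922) (nat_lit 7) (nat_lit 11))
    (@En.n l61 (nat_lit 4922) (nat_lit 8) (nat_lit 8))
    (@En.n l33609 (nat_lit 6916) (nat_lit 13) (nat_lit 8))
    (@En.n l33610 (nat_lit 4951) (nat_lit 5) (nat_lit 11))
    (@En.n l33611 (nat_lit 1754) (nat_lit 12) (nat_lit 11))
    (@En.n l3 (nat_lit 4923) (nat_lit 15) (nat_lit 2))))
  (@Cl.mk (nat_lit 0x200050008000e000c00020007000a0004000e00080002000b0006000e0009) (nat_lit 0x68500805206027) (nat_lit 16) Lb.e (@T16.mk En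
    (@En.n l10237 (nat_lit 4880) (nat_lit 5) (nat_lit 9))
    (@En.n l10238 (nat_lit 4914) (nat_lit 7) (nat_lit 14))
    (@En.n l803 (nat_lit 5039) (nat_lit 14) (nat_lit 6))
    (@En.n l4304 (nat_lit 4881) (nat_lit 3) (nat_lit 11))
    (@En.n l28 (nat_lit 4924) (nat_lit 4) (nat_lit 2))
    (@En.n l1373 (nat_lit 4881) (nat_lit 5) (nat_lit 8))
    (@En.n l590 (nat_lit 1561) (nat_lit 7) (nat_lit 14))
    (@En.n l1393 (nat_lit 1919) (nat_lit 7) (nat_lit 4))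
    (@En.i (nat_lit 13052) (nat_lit 8) (nat_lit 10))
    (@En.n l4306 (nat_lit 5415) (nat_lit 4) (nat_lit 7))
    (@En.n l3 (nat_lit 4924) (nat_lit 10) (nat_lit 2))
    (@En.n l4228 (nat_lit 4920) (nat_lit 12) (nat_lit 12))
    (@En.i (nat_lit 1190) (nat_lit 13) (nat_lit 14))
    (@En.n l10239 (nat_lit 6058) (nat_lit 2) (nat_lit 8))
    (@En.n l5430 (nat_lit 4988) (nat_lit 3) (nat_lit 5))
    (@En.n l17 (nat_lit 4924) (nat_lit 15) (nat_lit 2))))
  (@Cl.mk (nat_lit 0x20005000e00080002000e000c00020009000c00040008000b0004000e0007) (nat_lit 0x8201706a014090) (nat_lit 16) Lb.e (@T16.mk En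
    (@En.i (nat_lit 4878) (nat_lit 7) (nat_lit 7))
    (@En.n l1012 (nat_lit 4912) (nat_lit 1) (nat_lit 14))
    (@En.i (nat_lit 5038) (nat_lit 2) (nat_lit 4))
    (@En.n l2036 (nat_lit 14096) (nat_lit 7) (nat_lit 11))
    (@En.i (nat_lit 213) (nat_lit 4) (nat_lit 8))
    (@En.n l1013 (nat_lit 1923) (nat_lit 5) (nat_lit 4))
    (@En.i (nat_lit 13053) (nat_lit 6) (nat_lit 12))
    (@En.n l2036 (nat_lit 4927) (nat_lit 12) (nat_lit 9))
    (@En.n l11 (nat_lit 4925) (nat_lit 8) (nat_lit 2))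
    (@En.n l1578 (nat_lit 4922) (nat_lit 10) (nat_lit 12))
    (@En.i (nat_lit 1441) (nat_lit 1) (nat_lit 14))
    (@En.n l3 (nat_lit 4925) (nat_lit 11) (nat_lit 2))
    (@En.i (nat_lit 4881) (nat_lit 13) (nat_lit 8))
    (@En.i (nat_lit 5126) (nat_lit 1) (nat_lit 14))
    (@En.n l2568 (nat_lit 4983) (nat_lit 13) (nat_lit 5))
    (@En.n l17 (nat_lit 4925) (nat_lit 15) (nat_lit 2))))
  (@Cl.mk (nat_lit 0x30006000900090005000d0008000b000300070007000a0005000d0008000b) (nat_lit 0x84400000106) (nat_lit 16) Lb.e (@T16.mk En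
    (@En.n l5910 (nat_lit 5379) (nat_lit 0) (nat_lit 11))
    (@En.i (nat_lit 4929) (nat_lit 10) (nat_lit 8))
    (@En.n l23551 (nat_lit 1738) (nat_lit 11) (nat_lit 13))
    (@En.n l1721 (nat_lit 9914) (nat_lit 3) (nat_lit 5))
    (@En.n l12529 (nat_lit 4927) (nat_lit 8) (nat_lit 10))
    (@En.n l6147 (nat_lit 4927) (nat_lit 9) (nat_lit 7))
    (@En.n l6081 (nat_lit 11756) (nat_lit 6) (nat_lit 7))
    (@En.n l26971 (nat_lit 5359) (nat_lit 7) (nat_lit 3))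
    (@En.i (nat_lit 5846) (nat_lit 0) (nat_lit 11))
    (@En.n l38431 (nat_lit 4935) (nat_lit 10) (nat_lit 8))
    (@En.n l18 (nat_lit 5421) (nat_lit 11) (nat_lit 13))
    (@En.n l3348 (nat_lit 8816) (nat_lit 3) (nat_lit 5))
    (@En.n l61 (nat_lit 5415) (nat_lit 7) (nat_lit 9))
    (@En.n l15779 (nat_lit 5804) (nat_lit 9) (nat_lit 9))
    (@En.i (nat_lit 1447) (nat_lit 12) (nat_lit 6))
    (@En.n l34384 (nat_lit 1737) (nat_lit 15) (nat_lit 3))))
  (@Cl.mk (nat_lit 0x20006000d0009000c00030007000a0004000d0007000a00030006000e0009) (nat_lit 0xa5500803050001) (nat_lit 16) Lb.e (@T16.mk En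
    (@En.n l10916 (nat_lit 4926) (nat_lit 13) (nat_lit 9))
    (@En.n l5889 (nat_lit 6530) (nat_lit 1) (nat_lit 14))
    (@En.i (nat_lit 1445) (nat_lit 2) (nat_lit 6))
    (@En.n l564 (nat_lit 4931) (nat_lit 3) (nat_lit 3))
    (@En.n l2031 (nat_lit 5381) (nat_lit 0) (nat_lit 10))
    (@En.i (nat_lit 4928) (nat_lit 5) (nat_lit 7))
    (@En.n l2031 (nat_lit 4930) (nat_lit 7) (nat_lit 13))
    (@En.n l7684 (nat_lit 9912) (nat_lit 7) (nat_lit 4))
    (@En.i (nat_lit 13792) (nat_lit 8) (nat_lit 10))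
    (@En.n l2034 (nat_lit 10549) (nat_lit 5) (nat_lit 7))
    (@En.n l3596 (nat_lit 4932) (nat_lit 10) (nat_lit 3))
    (@En.i (nat_lit 6047) (nat_lit 0) (nat_lit 12))
    (@En.n l5891 (nat_lit 4933) (nat_lit 13) (nat_lit 9))
    (@En.n l5381 (nat_lit 6915) (nat_lit 14) (nat_lit 13))
    (@En.n l2031 (nat_lit 8433) (nat_lit 3) (nat_lit 6))
    (@En.n l17 (nat_lit 4927) (nat_lit 15) (nat_lit 2))))
noncomputable def a308 : T16 Cl := @T16.mk Cl
  (@Cl.mk (nat_lit 0x20006000c00090008000c00040008000b00040007000a00080005000e0008) (nat_lit 0x85060000045000) (nat_lit 16) Lb.e (@T16.mk En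
    (@En.n l10916 (nat_lit 4929) (nat_lit 6) (nat_lit 8))
    (@En.n l41637 (nat_lit 6529) (nat_lit 1) (nat_lit 14))
    (@En.n l2903 (nat_lit 1442) (nat_lit 2) (nat_lit 5))
    (@En.n l19879 (nat_lit 6605) (nat_lit 3) (nat_lit 8))
    (@En.n l5534 (nat_lit 2542) (nat_lit 4) (nat_lit 10))
    (@En.n l41638 (nat_lit 6942) (nat_lit 11) (nat_lit 7))
    (@En.n l41639 (nat_lit 9909) (nat_lit 6) (nat_lit 4))
    (@En.i (nat_lit 12871) (nat_lit 7) (nat_lit 11))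
    (@En.n l2903 (nat_lit 10548) (nat_lit 1) (nat_lit 8))
    (@En.n l3596 (nat_lit 5357) (nat_lit 9) (nat_lit 4))
    (@En.n l28 (nat_lit 4927) (nat_lit 11) (nat_lit 12))
    (@En.n l2650 (nat_lit 4931) (nat_lit 12) (nat_lit 8))
    (@En.n l8243 (nat_lit 4934) (nat_lit 13) (nat_lit 9))
    (@En.n l25448 (nat_lit 6916) (nat_lit 14) (nat_lit 12))
    (@En.n l5534 (nat_lit 8407) (nat_lit 13) (nat_lit 6))
    (@En.n l17 (nat_lit 4928) (nat_lit 15) (nat_lit 2))))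
  (@Cl.mk (nat_lit 0x400080008000b00050008000b00090005000800080005000c00080007000b) (nat_lit 0x11065706007405) (nat_lit 16) Lb.e (@T16.mk En
    (@En.n l28 (nat_lit 4926) (nat_lit 8) (nat_lit 11))
    (@En.n l40142 (nat_lit 1737) (nat_lit 9) (nat_lit 7))
    (@En.n l40143 (nat_lit 4936) (nat_lit 6) (nat_lit 8))
    (@En.n l30040 (nat_lit 5420) (nat_lit 3) (nat_lit 12))
    (@En.n l29373 (nat_lit 8390) (nat_lit 4) (nat_lit 5))
    (@En.n l40144 (nat_lit 5417) (nat_lit 8) (nat_lit 8))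
    (@En.n l40142 (nat_lit 7543) (nat_lit 10) (nat_lit 8))
    (@En.n l2070 (nat_lit 1408) (nat_lit 7) (nat_lit 5))
    (@En.n l30040 (nat_lit 6598) (nat_lit 0) (nat_lit 9))
    (@En.n l40145 (nat_lit 2543) (nat_lit 7) (nat_lit 11))
    (@En.n l30040 (nat_lit 6941) (nat_lit 10) (nat_lit 8))
    (@En.n l40146 (nat_lit 9911) (nat_lit 15) (nat_lit 5))
    (@En.n l12529 (nat_lit 4928) (nat_lit 7) (nat_lit 11))
    (@En.n l6147 (nat_lit 4928) (nat_lit 8) (nat_lit 8))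
    (@En.n l6081 (nat_lit 11757) (nat_lit 11) (nat_lit 8))
    (@En.n l26971 (nat_lit 5352) (nat_lit 15) (nat_lit 4))))
  (@Cl.mk (nat_lit 0x20007000d000a000800030007000a000d00060009000300080006000e0009) (nat_lit 0xa5000820406001) (nat_lit 16) Lb.e (@T16.mk En
    (@En.n l39436 (nat_lit 1738) (nat_lit 5) (nat_lit 9))
    (@En.n l1578 (nat_lit 6524) (nat_lit 1) (nat_lit 14))
    (@En.n l20997 (nat_lit 4927) (nat_lit 2) (nat_lit 6))
    (@En.n l6150 (nat_lit 4928) (nat_lit 3) (nat_lit 8))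
    (@En.n l7511 (nat_lit 1735) (nat_lit 4) (nat_lit 3))
    (@En.i (nat_lit 3670) (nat_lit 0) (nat_lit 9))
    (@En.n l7512 (nat_lit 6516) (nat_lit 6) (nat_lit 6))
    (@En.n l862 (nat_lit 10108) (nat_lit 8) (nat_lit 13))
    (@En.n l1997 (nat_lit 13793) (nat_lit 8) (nat_lit 10))
    (@En.i (nat_lit 10550) (nat_lit 4) (nat_lit 7))
    (@En.n l2869 (nat_lit 5358) (nat_lit 10) (nat_lit 3))
    (@En.n l1783 (nat_lit 6050) (nat_lit 0) (nat_lit 8))
    (@En.n l39437 (nat_lit 4937) (nat_lit 13) (nat_lit 10))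
    (@En.n l39438 (nat_lit 6913) (nat_lit 14) (nat_lit 13))
    (@En.i (nat_lit 8408) (nat_lit 3) (nat_lit 7))
    (@En.n l28 (nat_lit 4930) (nat_lit 15) (nat_lit 2))))
  (@Cl.mk (nat_lit 0x20007000d0008000c00030007000a0004000d0009000800030006000e0009) (nat_lit 0x86300801400001) (nat_lit 16) Lb.e (@T16.mk En
    (@En.n l24822 (nat_lit 1737) (nat_lit 13) (nat_lit 9))
    (@En.n l1825 (nat_lit 7729) (nat_lit 1) (nat_lit 14))
    (@En.i (nat_lit 5347) (nat_lit 2) (nat_lit 6))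
    (@En.n l1722 (nat_lit 4927) (nat_lit 3) (nat_lit 3))
    (@En.n l1357 (nat_lit 6720) (nat_lit 0) (nat_lit 8))
    (@En.n l1823 (nat_lit 5102) (nat_lit 5) (nat_lit 9))
    (@En.n l4466 (nat_lit 1735) (nat_lit 7) (nat_lit 13))
    (@En.n l8486 (nat_lit 9913) (nat_lit 7) (nat_lit 4))
    (@En.n l387 (nat_lit 13796) (nat_lit 8) (nat_lit 10))
    (@En.n l3486 (nat_lit 10368) (nat_lit 5) (nat_lit 7))
    (@En.n l5385 (nat_lit 5360) (nat_lit 10) (nat_lit 3))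
    (@En.i (nat_lit 6048) (nat_lit 0) (nat_lit 12))
    (@En.n l24823 (nat_lit 5242) (nat_lit 13) (nat_lit 8))
    (@En.n l24824 (nat_lit 6914) (nat_lit 14) (nat_lit 13))
    (@En.n l5381 (nat_lit 9686) (nat_lit 3) (nat_lit 7))
    (@En.n l18 (nat_lit 4931) (nat_lit 15) (nat_lit 2))))
  (@Cl.mk (nat_lit 0x20006000d000b000a00030007000a0005000d0006000a00030006000e0009) (nat_lit 0xa28000030400b0) (nat_lit 16) Lb.e (@T16.mk En
    (@En.i (nat_lit 5359) (nat_lit 13) (nat_lit 9))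
    (@En.n l396 (nat_lit 7730) (nat_lit 1) (nat_lit 14))
    (@En.i (nat_lit 1448) (nat_lit 2) (nat_lit 6))
    (@En.i (nat_lit 5360) (nat_lit 3) (nat_lit 3))
    (@En.n l1897 (nat_lit 3677) (nat_lit 0) (nat_lit 10))
    (@En.i (nat_lit 5357) (nat_lit 5) (nat_lit 6))
    (@En.i (nat_lit 5358) (nat_lit 7) (nat_lit 13))
    (@En.i (nat_lit 9800) (nat_lit 7) (nat_lit 5))
    (@En.n l699 (nat_lit 13795) (nat_lit 8) (nat_lit 10))
    (@En.i (nat_lit 9548) (nat_lit 5) (nat_lit 7))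
    (@En.n l1106 (nat_lit 4927) (nat_lit 10) (nat_lit 3))
    (@En.n l619 (nat_lit 5363) (nat_lit 0) (nat_lit 10))
    (@En.n l3866 (nat_lit 6554) (nat_lit 13) (nat_lit 11))
    (@En.n l699 (nat_lit 6917) (nat_lit 14) (nat_lit 13))
    (@En.i (nat_lit 8781) (nat_lit 3) (nat_lit 6))
    (@En.n l18 (nat_lit 4932) (nat_lit 15) (nat_lit 2))))
  (@Cl.mk (nat_lit 0x200060009000c000a000600090004000c00070006000a00040007000e000a) (nat_lit 0x42300030060040) (nat_lit 16) Lb.e (@T16.mk En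
    (@En.i (nat_lit 4935) (nat_lit 13) (nat_lit 10))
    (@En.n l396 (nat_lit 6531) (nat_lit 1) (nat_lit 14))
    (@En.n l16911 (nat_lit 1450) (nat_lit 2) (nat_lit 7))
    (@En.n l8501 (nat_lit 5242) (nat_lit 3) (nat_lit 4))
    (@En.n l16911 (nat_lit 4927) (nat_lit 4) (nat_lit 10))
    (@En.i (nat_lit 4932) (nat_lit 5) (nat_lit 6))
    (@En.n l9715 (nat_lit 4934) (nat_lit 6) (nat_lit 7))
    (@En.n l32935 (nat_lit 4937) (nat_lit 8) (nat_lit 12))
    (@En.n l3536 (nat_lit 9915) (nat_lit 8) (nat_lit 4))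
    (@En.n l16911 (nat_lit 13790) (nat_lit 9) (nat_lit 9))
    (@En.n l12290 (nat_lit 11946) (nat_lit 11) (nat_lit 6))
    (@En.n l68 (nat_lit 7254) (nat_lit 12) (nat_lit 10))
    (@En.n l3866 (nat_lit 5977) (nat_lit 13) (nat_lit 12))
    (@En.n l11472 (nat_lit 5062) (nat_lit 9) (nat_lit 9))
    (@En.i (nat_lit 8430) (nat_lit 13) (nat_lit 6))
    (@En.n l18 (nat_lit 4933) (nat_lit 15) (nat_lit 2))))
  (@Cl.mk (nat_lit 0x2000600090007000c000b0007000a000400070005000a00090006000e0009) (nat_lit 0x40340000055000) (nat_lit 16) Lb.e (@T16.mk En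
    (@En.n l6698 (nat_lit 4936) (nat_lit 9) (nat_lit 9))
    (@En.n l1578 (nat_lit 5749) (nat_lit 1) (nat_lit 14))
    (@En.n l4403 (nat_lit 1195) (nat_lit 2) (nat_lit 6))
    (@En.n l10988 (nat_lit 2890) (nat_lit 3) (nat_lit 9))
    (@En.n l11821 (nat_lit 4928) (nat_lit 4) (nat_lit 10))
    (@En.n l3819 (nat_lit 5355) (nat_lit 5) (nat_lit 5))
    (@En.n l25488 (nat_lit 6940) (nat_lit 6) (nat_lit 7))
    (@En.n l50 (nat_lit 9910) (nat_lit 7) (nat_lit 4))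
    (@En.n l4403 (nat_lit 12870) (nat_lit 8) (nat_lit 10))
    (@En.n l10994 (nat_lit 11948) (nat_lit 1) (nat_lit 7))
    (@En.n l10625 (nat_lit 6635) (nat_lit 11) (nat_lit 11))
    (@En.n l3819 (nat_lit 4933) (nat_lit 12) (nat_lit 12))
    (@En.i (nat_lit 5243) (nat_lit 13) (nat_lit 7))
    (@En.i (nat_lit 5148) (nat_lit 14) (nat_lit 9))
    (@En.i (nat_lit 8426) (nat_lit 13) (nat_lit 6))
    (@En.n l28 (nat_lit 4934) (nat_lit 15) (nat_lit 2))))
  (@Cl.mk (nat_lit 0x40007000a000a00050008000b00090006000600090005000c00080007000b) (nat_lit 0x80032300108307) (nat_lit 16) Lb.e (@T16.mk En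
    (@En.n l39991 (nat_lit 4926) (nat_lit 0) (nat_lit 11))
    (@En.i (nat_lit 5359) (nat_lit 1) (nat_lit 7))
    (@En.n l39992 (nat_lit 4936) (nat_lit 14) (nat_lit 8))
    (@En.n l39993 (nat_lit 5280) (nat_lit 3) (nat_lit 12))
    (@En.n l39994 (nat_lit 9917) (nat_lit 4) (nat_lit 5))
    (@En.n l50 (nat_lit 4933) (nat_lit 9) (nat_lit 9))
    (@En.n l217 (nat_lit 4933) (nat_lit 10) (nat_lit 6))
    (@En.n l39995 (nat_lit 9849) (nat_lit 7) (nat_lit 6))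
    (@En.n l39996 (nat_lit 7256) (nat_lit 7) (nat_lit 9))
    (@En.n l38399 (nat_lit 5976) (nat_lit 7) (nat_lit 11))
    (@En.n l39995 (nat_lit 5057) (nat_lit 10) (nat_lit 8))
    (@En.n l8364 (nat_lit 8432) (nat_lit 12) (nat_lit 5))
    (@En.n l39997 (nat_lit 5281) (nat_lit 6) (nat_lit 10))
    (@En.n l39998 (nat_lit 7542) (nat_lit 8) (nat_lit 10))
    (@En.n l38399 (nat_lit 1512) (nat_lit 11) (nat_lit 7))
    (@En.n l8501 (nat_lit 5240) (nat_lit 15) (nat_lit 4))))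
  (@Cl.mk (nat_lit 0x500080006000b000a000600090009000500080006000b000a00070007000a) (nat_lit 0x206507003034001) (nat_lit 16) Lb.e (@T16.mk En
    (@En.n l2491 (nat_lit 4934) (nat_lit 8) (nat_lit 10))
    (@En.n l7129 (nat_lit 4934) (nat_lit 9) (nat_lit 7))
    (@En.n l31337 (nat_lit 9850) (nat_lit 2) (nat_lit 7))
    (@En.n l217 (nat_lit 6632) (nat_lit 6) (nat_lit 10))
    (@En.n l34798 (nat_lit 4935) (nat_lit 9) (nat_lit 11))
    (@En.i (nat_lit 5239) (nat_lit 10) (nat_lit 6))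
    (@En.i (nat_lit 5063) (nat_lit 10) (nat_lit 8))
    (@En.n l26714 (nat_lit 8393) (nat_lit 15) (nat_lit 5))
    (@En.n l55 (nat_lit 5283) (nat_lit 7) (nat_lit 9))
    (@En.i (nat_lit 7544) (nat_lit 9) (nat_lit 9))
    (@En.n l4758 (nat_lit 1197) (nat_lit 2) (nat_lit 6))
    (@En.n l43376 (nat_lit 2893) (nat_lit 6) (nat_lit 10))
    (@En.n l28273 (nat_lit 4929) (nat_lit 9) (nat_lit 11))
    (@En.n l34798 (nat_lit 5353) (nat_lit 10) (nat_lit 6))
    (@En.n l37371 (nat_lit 6830) (nat_lit 10) (nat_lit 8))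
    (@En.n l25946 (nat_lit 9916) (nat_lit 15) (nat_lit 5))))
  (@Cl.mk (nat_lit 0x20007000a0007000b00060009000c000600050009000400090007000e000a) (nat_lit 0x40300200506000) (nat_lit 16) Lb.e (@T16.mk En
    (@En.n l29470 (nat_lit 5280) (nat_lit 12) (nat_lit 10))
    (@En.n l134 (nat_lit 6525) (nat_lit 1) (nat_lit 14))
    (@En.n l38089 (nat_lit 4933) (nat_lit 2) (nat_lit 7))
    (@En.n l20132 (nat_lit 4934) (nat_lit 3) (nat_lit 9))
    (@En.n l27323 (nat_lit 5262) (nat_lit 4) (nat_lit 4))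
    (@En.n l38090 (nat_lit 4930) (nat_lit 5) (nat_lit 9))
    (@En.n l38091 (nat_lit 5358) (nat_lit 6) (nat_lit 5))
    (@En.i (nat_lit 6517) (nat_lit 7) (nat_lit 6))
    (@En.n l35895 (nat_lit 10109) (nat_lit 9) (nat_lit 12))
    (@En.n l13104 (nat_lit 13789) (nat_lit 9) (nat_lit 9))
    (@En.n l35896 (nat_lit 11944) (nat_lit 11) (nat_lit 6))
    (@En.n l38092 (nat_lit 7563) (nat_lit 12) (nat_lit 11))
    (@En.n l2125 (nat_lit 7868) (nat_lit 13) (nat_lit 7))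
    (@En.n l38092 (nat_lit 5061) (nat_lit 8) (nat_lit 10))
    (@En.n l36756 (nat_lit 8431) (nat_lit 13) (nat_lit 7))
    (@En.n l7 (nat_lit 4937) (nat_lit 15) (nat_lit 2))))
  (@Cl.mk (nat_lit 0x200060006000a000d000800070003000e00060002000a000a0008000e0009) (nat_lit 0x26200b0078597) (nat_lit 16) Lb.e (@T16.mk En
    (@En.n l2197 (nat_lit 4970) (nat_lit 11) (nat_lit 9))
    (@En.n l7657 (nat_lit 4969) (nat_lit 12) (nat_lit 14))
    (@En.n l24415 (nat_lit 6833) (nat_lit 2) (nat_lit 8))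
    (@En.n l8587 (nat_lit 4941) (nat_lit 14) (nat_lit 10))
    (@En.n l8588 (nat_lit 2604) (nat_lit 4) (nat_lit 10))
    (@En.n l107 (nat_lit 4938) (nat_lit 5) (nat_lit 2))
    (@En.n l21996 (nat_lit 4873) (nat_lit 6) (nat_lit 6))
    (@En.n l24416 (nat_lit 5307) (nat_lit 8) (nat_lit 14))
    (@En.n l2101 (nat_lit 1885) (nat_lit 8) (nat_lit 3))
    (@En.n l2921 (nat_lit 3386) (nat_lit 3) (nat_lit 7))
    (@En.n l22088 (nat_lit 4834) (nat_lit 11) (nat_lit 8))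
    (@En.i (nat_lit 13769) (nat_lit 5) (nat_lit 13))
    (@En.n l2195 (nat_lit 1090) (nat_lit 13) (nat_lit 10))
    (@En.n l55 (nat_lit 4871) (nat_lit 14) (nat_lit 6))
    (@En.i (nat_lit 6676) (nat_lit 8) (nat_lit 6))
    (@En.n l2196 (nat_lit 4938) (nat_lit 15) (nat_lit 2))))
  (@Cl.mk (nat_lit 0x2000a000a000d000a0009000300060006000a0006000e00070002000e0006) (nat_lit 0x245660005070070) (nat_lit 16) Lb.e (@T16.mk En
    (@En.n l564 (nat_lit 4873) (nat_lit 14) (nat_lit 6))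
    (@En.i (nat_lit 3465) (nat_lit 1) (nat_lit 14))
    (@En.n l28 (nat_lit 4939) (nat_lit 2) (nat_lit 2))
    (@En.n l7948 (nat_lit 4943) (nat_lit 3) (nat_lit 7))
    (@En.n l1578 (nat_lit 4950) (nat_lit 1) (nat_lit 14))
    (@En.n l3340 (nat_lit 3182) (nat_lit 5) (nat_lit 6))
    (@En.i (nat_lit 2388) (nat_lit 3) (nat_lit 10))
    (@En.n l725 (nat_lit 4942) (nat_lit 10) (nat_lit 6))
    (@En.n l3340 (nat_lit 5834) (nat_lit 8) (nat_lit 6))
    (@En.i (nat_lit 1874) (nat_lit 9) (nat_lit 3))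
    (@En.n l4021 (nat_lit 3392) (nat_lit 0) (nat_lit 9))
    (@En.n l617 (nat_lit 4830) (nat_lit 12) (nat_lit 10))
    (@En.i (nat_lit 4941) (nat_lit 5) (nat_lit 13))
    (@En.n l1353 (nat_lit 4941) (nat_lit 6) (nat_lit 10))
    (@En.i (nat_lit 1095) (nat_lit 12) (nat_lit 10))
    (@En.n l50 (nat_lit 4939) (nat_lit 15) (nat_lit 2))))
  (@Cl.mk (nat_lit 0x200060006000e000a0002000d000a000900030006000a000a0006000e0007) (nat_lit 0x6308610023070) (nat_lit 16) Lb.e (@T16.mk En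
    (@En.n l12976 (nat_lit 4978) (nat_lit 5) (nat_lit 7))
    (@En.n l1578 (nat_lit 4976) (nat_lit 1) (nat_lit 14))
    (@En.n l117 (nat_lit 6832) (nat_lit 2) (nat_lit 6))
    (@En.n l2593 (nat_lit 4942) (nat_lit 9) (nat_lit 10))
    (@En.n l387 (nat_lit 2302) (nat_lit 4) (nat_lit 10))
    (@En.n l12978 (nat_lit 5835) (nat_lit 5) (nat_lit 6))
    (@En.i (nat_lit 4994) (nat_lit 6) (nat_lit 3))
    (@En.n l1439 (nat_lit 3367) (nat_lit 0) (nat_lit 9))
    (@En.n l387 (nat_lit 5222) (nat_lit 9) (nat_lit 10))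
    (@En.i (nat_lit 4873) (nat_lit 10) (nat_lit 13))
    (@En.n l18 (nat_lit 4940) (nat_lit 10) (nat_lit 2))
    (@En.n l5 (nat_lit 4873) (nat_lit 12) (nat_lit 10))
    (@En.i (nat_lit 1733) (nat_lit 13) (nat_lit 14))
    (@En.n l538 (nat_lit 4872) (nat_lit 14) (nat_lit 6))
    (@En.i (nat_lit 5972) (nat_lit 3) (nat_lit 6))
    (@En.n l28 (nat_lit 4940) (nat_lit 15) (nat_lit 2))))
  (@Cl.mk (nat_lit 0x2000a0007000e00080002000e00060002000a000d000900080003000e0006) (nat_lit 0x7086060034550c0) (nat_lit 16) Lb.e (@T16.mk En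
    (@En.n l17 (nat_lit 4939) (nat_lit 8) (nat_lit 6))
    (@En.n l2642 (nat_lit 5199) (nat_lit 1) (nat_lit 14))
    (@En.n l7192 (nat_lit 1875) (nat_lit 2) (nat_lit 3))
    (@En.n l21828 (nat_lit 3381) (nat_lit 3) (nat_lit 8))
    (@En.n l21829 (nat_lit 4828) (nat_lit 4) (nat_lit 9))
    (@En.n l2520 (nat_lit 13712) (nat_lit 5) (nat_lit 13))
    (@En.n l21830 (nat_lit 1093) (nat_lit 12) (nat_lit 10))
    (@En.n l50 (nat_lit 4941) (nat_lit 7) (nat_lit 2))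
    (@En.n l20321 (nat_lit 4938) (nat_lit 14) (nat_lit 6))
    (@En.i (nat_lit 6884) (nat_lit 1) (nat_lit 14))
    (@En.n l28 (nat_lit 4941) (nat_lit 10) (nat_lit 2))
    (@En.n l7948 (nat_lit 4944) (nat_lit 3) (nat_lit 8))
    (@En.n l1578 (nat_lit 4949) (nat_lit 5) (nat_lit 14))
    (@En.n l2520 (nat_lit 5038) (nat_lit 14) (nat_lit 7))
    (@En.i (nat_lit 2601) (nat_lit 3) (nat_lit 10))
    (@En.n l725 (nat_lit 4941) (nat_lit 15) (nat_lit 2))))
  (@Cl.mk (nat_lit 0x2000d000b000a00030006000a0005000e00060002000e00060002000e000a) (nat_lit 0x677002060080013) (nat_lit 16) Lb.e (@T16.mk En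
    (@En.n l1353 (nat_lit 4939) (nat_lit 14) (nat_lit 10))
    (@En.i (nat_lit 1449) (nat_lit 1) (nat_lit 14))
    (@En.n l50 (nat_lit 4942) (nat_lit 2) (nat_lit 2))
    (@En.n l564 (nat_lit 4940) (nat_lit 14) (nat_lit 6))
    (@En.i (nat_lit 6787) (nat_lit 1) (nat_lit 14))
    (@En.n l28 (nat_lit 4942) (nat_lit 5) (nat_lit 2))
    (@En.n l2683 (nat_lit 4945) (nat_lit 6) (nat_lit 6))
    (@En.n l1578 (nat_lit 4948) (nat_lit 1) (nat_lit 14))
    (@En.n l117 (nat_lit 5043) (nat_lit 8) (nat_lit 5))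
    (@En.i (nat_lit 2374) (nat_lit 3) (nat_lit 10))
    (@En.n l2381 (nat_lit 5830) (nat_lit 12) (nat_lit 6))
    (@En.i (nat_lit 5008) (nat_lit 11) (nat_lit 3))
    (@En.n l4021 (nat_lit 3442) (nat_lit 0) (nat_lit 10))
    (@En.i (nat_lit 5219) (nat_lit 14) (nat_lit 11))
    (@En.i (nat_lit 4939) (nat_lit 12) (nat_lit 13))
    (@En.n l17 (nat_lit 4942) (nat_lit 15) (nat_lit 2))))
  (@Cl.mk (nat_lit 0x200090009000c000900090009000400070007000b000700070007000e0005) (nat_lit 0x335627000600050) (nat_lit 16) Lb.e (@T16.mk En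
    (@En.i (nat_lit 4917) (nat_lit 7) (nat_lit 5))
    (@En.n l134 (nat_lit 2167) (nat_lit 1) (nat_lit 14))
    (@En.n l11 (nat_lit 4999) (nat_lit 9) (nat_lit 7))
    (@En.n l152 (nat_lit 4918) (nat_lit 3) (nat_lit 7))
    (@En.n l14087 (nat_lit 5036) (nat_lit 4) (nat_lit 7))
    (@En.n l8011 (nat_lit 2228) (nat_lit 6) (nat_lit 11))
    (@En.n l217 (nat_lit 4945) (nat_lit 9) (nat_lit 7))
    (@En.i (nat_lit 5727) (nat_lit 7) (nat_lit 7))
    (@En.n l8008 (nat_lit 4946) (nat_lit 8) (nat_lit 4))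
    (@En.n l8009 (nat_lit 4939) (nat_lit 10) (nat_lit 9))
    (@En.n l14088 (nat_lit 4947) (nat_lit 7) (nat_lit 9))
    (@En.i (nat_lit 4831) (nat_lit 12) (nat_lit 9))
    (@En.i (nat_lit 4944) (nat_lit 13) (nat_lit 12))
    (@En.n l5 (nat_lit 4944) (nat_lit 14) (nat_lit 9))
    (@En.n l4172 (nat_lit 980) (nat_lit 5) (nat_lit 9))
    (@En.n l7 (nat_lit 4943) (nat_lit 15) (nat_lit 2))))
noncomputable def a309 : T16 Cl := @T16.mk Cl
  (@Cl.mk (nat_lit 0x20009000c0008000800080004000e00070002000b000800080008000e0005) (nat_lit 0x245260800755250) (nat_lit 16) Lb.e (@T16.mk En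
    (@En.n l20583 (nat_lit 4970) (nat_lit 9) (nat_lit 5))
    (@En.n l20584 (nat_lit 2169) (nat_lit 1) (nat_lit 14))
    (@En.n l20585 (nat_lit 5001) (nat_lit 8) (nat_lit 8))
    (@En.n l20586 (nat_lit 5022) (nat_lit 3) (nat_lit 8))
    (@En.n l20587 (nat_lit 5037) (nat_lit 14) (nat_lit 8))
    (@En.n l8011 (nat_lit 2503) (nat_lit 6) (nat_lit 11))
    (@En.n l827 (nat_lit 4944) (nat_lit 6) (nat_lit 2))
    (@En.n l17 (nat_lit 4943) (nat_lit 7) (nat_lit 7))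
    (@En.n l20588 (nat_lit 5710) (nat_lit 1) (nat_lit 14))
    (@En.n l20589 (nat_lit 4951) (nat_lit 9) (nat_lit 4))
    (@En.n l8009 (nat_lit 4941) (nat_lit 3) (nat_lit 8))
    (@En.n l20590 (nat_lit 4966) (nat_lit 8) (nat_lit 8))
    (@En.n l7942 (nat_lit 4829) (nat_lit 5) (nat_lit 8))
    (@En.n l20591 (nat_lit 13713) (nat_lit 6) (nat_lit 12))
    (@En.n l20592 (nat_lit 984) (nat_lit 8) (nat_lit 9))
    (@En.n l7 (nat_lit 4944) (nat_lit 15) (nat_lit 2))))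
  (@Cl.mk (nat_lit 0x2000c000a000a000a00040007000b000600060006000e00050002000e0009) (nat_lit 0x6728005000c0064) (nat_lit 16) Lb.e (@T16.mk En
    (@En.i (nat_lit 4943) (nat_lit 14) (nat_lit 9))
    (@En.i (nat_lit 1444) (nat_lit 1) (nat_lit 14))
    (@En.n l7 (nat_lit 4945) (nat_lit 2) (nat_lit 2))
    (@En.i (nat_lit 4978) (nat_lit 3) (nat_lit 5))
    (@En.n l134 (nat_lit 2533) (nat_lit 1) (nat_lit 14))
    (@En.n l11 (nat_lit 4998) (nat_lit 10) (nat_lit 6))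
    (@En.n l152 (nat_lit 4955) (nat_lit 10) (nat_lit 6))
    (@En.n l5704 (nat_lit 3187) (nat_lit 7) (nat_lit 6))
    (@En.n l1001 (nat_lit 2227) (nat_lit 9) (nat_lit 11))
    (@En.i (nat_lit 5826) (nat_lit 11) (nat_lit 7))
    (@En.n l7966 (nat_lit 4952) (nat_lit 10) (nat_lit 4))
    (@En.n l1952 (nat_lit 4942) (nat_lit 12) (nat_lit 10))
    (@En.n l1596 (nat_lit 4979) (nat_lit 6) (nat_lit 10))
    (@En.i (nat_lit 5218) (nat_lit 14) (nat_lit 10))
    (@En.n l1738 (nat_lit 4943) (nat_lit 12) (nat_lit 12))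
    (@En.n l18 (nat_lit 4945) (nat_lit 15) (nat_lit 2))))
  (@Cl.mk (nat_lit 0x200090009000c0007000a000a000400070007000b000600060009000e0005) (nat_lit 0x245077000300050) (nat_lit 16) Lb.e (@T16.mk En
    (@En.n l564 (nat_lit 4919) (nat_lit 7) (nat_lit 5))
    (@En.n l19960 (nat_lit 2435) (nat_lit 1) (nat_lit 14))
    (@En.n l14025 (nat_lit 4953) (nat_lit 9) (nat_lit 9))
    (@En.n l14026 (nat_lit 4953) (nat_lit 10) (nat_lit 6))
    (@En.n l3340 (nat_lit 5031) (nat_lit 4) (nat_lit 6))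
    (@En.i (nat_lit 2573) (nat_lit 6) (nat_lit 11))
    (@En.n l27920 (nat_lit 4952) (nat_lit 9) (nat_lit 7))
    (@En.n l18677 (nat_lit 4768) (nat_lit 11) (nat_lit 7))
    (@En.n l5152 (nat_lit 1876) (nat_lit 8) (nat_lit 4))
    (@En.n l575 (nat_lit 4950) (nat_lit 6) (nat_lit 10))
    (@En.i (nat_lit 4939) (nat_lit 11) (nat_lit 10))
    (@En.n l27921 (nat_lit 4960) (nat_lit 12) (nat_lit 7))
    (@En.n l21029 (nat_lit 4951) (nat_lit 13) (nat_lit 12))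
    (@En.n l27922 (nat_lit 4951) (nat_lit 14) (nat_lit 9))
    (@En.i (nat_lit 1177) (nat_lit 5) (nat_lit 9))
    (@En.n l50 (nat_lit 4946) (nat_lit 15) (nat_lit 2))))
  (@Cl.mk (nat_lit 0x20008000e00060002000a000a000d00090008000300060006000a000e0007) (nat_lit 0x370024511000540) (nat_lit 16) Lb.e (@T16.mk En
    (@En.n l14349 (nat_lit 4943) (nat_lit 4) (nat_lit 7))
    (@En.n l6788 (nat_lit 4151) (nat_lit 6) (nat_lit 14))
    (@En.n l2009 (nat_lit 2289) (nat_lit 2) (nat_lit 10))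
    (@En.n l17 (nat_lit 4979) (nat_lit 3) (nat_lit 6))
    (@En.n l6788 (nat_lit 5725) (nat_lit 4) (nat_lit 6))
    (@En.n l1106 (nat_lit 4950) (nat_lit 5) (nat_lit 3))
    (@En.n l619 (nat_lit 3383) (nat_lit 0) (nat_lit 8))
    (@En.n l11419 (nat_lit 4546) (nat_lit 12) (nat_lit 9))
    (@En.n l14350 (nat_lit 4966) (nat_lit 9) (nat_lit 13))
    (@En.n l14351 (nat_lit 4966) (nat_lit 10) (nat_lit 10))
    (@En.n l14352 (nat_lit 1543) (nat_lit 11) (nat_lit 10))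
    (@En.n l7 (nat_lit 4947) (nat_lit 11) (nat_lit 2))
    (@En.n l14353 (nat_lit 4967) (nat_lit 13) (nat_lit 6))
    (@En.n l226 (nat_lit 2172) (nat_lit 1) (nat_lit 14))
    (@En.n l5781 (nat_lit 1876) (nat_lit 2) (nat_lit 8))
    (@En.n l476 (nat_lit 4947) (nat_lit 15) (nat_lit 2))))
  (@Cl.mk (nat_lit 0x20008000e00060002000e000a0002000d0008000b00030006000a000e0005) (nat_lit 0x20012065700250) (nat_lit 16) Lb.e (@T16.mk En
    (@En.n l14525 (nat_lit 4952) (nat_lit 7) (nat_lit 5))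
    (@En.i (nat_lit 5134) (nat_lit 9) (nat_lit 14))
    (@En.i (nat_lit 2254) (nat_lit 2) (nat_lit 10))
    (@En.n l1643 (nat_lit 5900) (nat_lit 3) (nat_lit 6))
    (@En.n l3596 (nat_lit 4979) (nat_lit 4) (nat_lit 3))
    (@En.i (nat_lit 3397) (nat_lit 0) (nat_lit 11))
    (@En.i (nat_lit 4961) (nat_lit 6) (nat_lit 8))
    (@En.i (nat_lit 4950) (nat_lit 8) (nat_lit 13))
    (@En.n l17 (nat_lit 4948) (nat_lit 8) (nat_lit 2))
    (@En.n l1353 (nat_lit 4950) (nat_lit 10) (nat_lit 10))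
    (@En.i (nat_lit 1445) (nat_lit 1) (nat_lit 14))
    (@En.n l50 (nat_lit 4948) (nat_lit 11) (nat_lit 2))
    (@En.n l564 (nat_lit 4976) (nat_lit 13) (nat_lit 6))
    (@En.n l1998 (nat_lit 2531) (nat_lit 1) (nat_lit 14))
    (@En.n l2067 (nat_lit 4952) (nat_lit 5) (nat_lit 8))
    (@En.n l11 (nat_lit 4948) (nat_lit 15) (nat_lit 2))))
  (@Cl.mk (nat_lit 0x2000a000d000600090003000e00060002000a000e00070002000a000e0006) (nat_lit 0x34050c004700060) (nat_lit 16) Lb.e (@T16.mk En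
    (@En.n l21027 (nat_lit 4969) (nat_lit 8) (nat_lit 6))
    (@En.n l1998 (nat_lit 2177) (nat_lit 10) (nat_lit 14))
    (@En.n l21028 (nat_lit 4951) (nat_lit 2) (nat_lit 10))
    (@En.n l11 (nat_lit 4949) (nat_lit 3) (nat_lit 2))
    (@En.n l21029 (nat_lit 4951) (nat_lit 4) (nat_lit 7))
    (@En.n l21030 (nat_lit 5147) (nat_lit 6) (nat_lit 14))
    (@En.i (nat_lit 2581) (nat_lit 2) (nat_lit 10))
    (@En.n l725 (nat_lit 4949) (nat_lit 7) (nat_lit 2))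
    (@En.n l17 (nat_lit 4950) (nat_lit 4) (nat_lit 6))
    (@En.n l2642 (nat_lit 5191) (nat_lit 1) (nat_lit 14))
    (@En.n l21031 (nat_lit 4966) (nat_lit 6) (nat_lit 3))
    (@En.i (nat_lit 3391) (nat_lit 3) (nat_lit 9))
    (@En.n l8827 (nat_lit 5064) (nat_lit 4) (nat_lit 6))
    (@En.n l3806 (nat_lit 13708) (nat_lit 5) (nat_lit 13))
    (@En.n l21032 (nat_lit 1180) (nat_lit 11) (nat_lit 10))
    (@En.n l50 (nat_lit 4949) (nat_lit 15) (nat_lit 2))))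
  (@Cl.mk (nat_lit 0x20009000e00060002000a000a000d0007000a000300060006000a000e0006) (nat_lit 0x120014506000360) (nat_lit 16) Lb.e (@T16.mk En
    (@En.i (nat_lit 4946) (nat_lit 4) (nat_lit 6))
    (@En.n l3340 (nat_lit 4167) (nat_lit 6) (nat_lit 14))
    (@En.i (nat_lit 2578) (nat_lit 2) (nat_lit 10))
    (@En.n l725 (nat_lit 4948) (nat_lit 3) (nat_lit 6))
    (@En.n l3340 (nat_lit 4769) (nat_lit 12) (nat_lit 6))
    (@En.n l3596 (nat_lit 4947) (nat_lit 5) (nat_lit 3))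
    (@En.i (nat_lit 3382) (nat_lit 0) (nat_lit 10))
    (@En.n l3333 (nat_lit 4965) (nat_lit 7) (nat_lit 7))
    (@En.i (nat_lit 4949) (nat_lit 13) (nat_lit 13))
    (@En.n l1353 (nat_lit 4949) (nat_lit 14) (nat_lit 10))
    (@En.i (nat_lit 1179) (nat_lit 11) (nat_lit 10))
    (@En.n l50 (nat_lit 4950) (nat_lit 11) (nat_lit 2))
    (@En.n l564 (nat_lit 4972) (nat_lit 13) (nat_lit 6))
    (@En.n l1998 (nat_lit 2175) (nat_lit 1) (nat_lit 14))
    (@En.n l2678 (nat_lit 4946) (nat_lit 2) (nat_lit 9))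
    (@En.n l11 (nat_lit 4950) (nat_lit 15) (nat_lit 2))))
  (@Cl.mk (nat_lit 0x20009000c0006000900090004000e00070002000b00070007000a000e0005) (nat_lit 0x340660800400850) (nat_lit 16) Lb.e (@T16.mk En
    (@En.n l33803 (nat_lit 4923) (nat_lit 9) (nat_lit 5))
    (@En.n l33804 (nat_lit 2434) (nat_lit 11) (nat_lit 14))
    (@En.n l9802 (nat_lit 5023) (nat_lit 8) (nat_lit 10))
    (@En.n l33805 (nat_lit 5023) (nat_lit 9) (nat_lit 7))
    (@En.i (nat_lit 5030) (nat_lit 14) (nat_lit 7))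
    (@En.n l21879 (nat_lit 2514) (nat_lit 6) (nat_lit 11))
    (@En.n l50 (nat_lit 4951) (nat_lit 6) (nat_lit 2))
    (@En.n l33806 (nat_lit 4946) (nat_lit 7) (nat_lit 7))
    (@En.n l33807 (nat_lit 5192) (nat_lit 1) (nat_lit 14))
    (@En.n l532 (nat_lit 1873) (nat_lit 9) (nat_lit 4))
    (@En.n l33808 (nat_lit 4949) (nat_lit 11) (nat_lit 9))
    (@En.n l21879 (nat_lit 4941) (nat_lit 4) (nat_lit 9))
    (@En.n l33809 (nat_lit 3181) (nat_lit 13) (nat_lit 6))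
    (@En.n l12687 (nat_lit 13709) (nat_lit 6) (nat_lit 12))
    (@En.n l1803 (nat_lit 1043) (nat_lit 8) (nat_lit 9))
    (@En.n l3 (nat_lit 4951) (nat_lit 15) (nat_lit 2))))
  (@Cl.mk (nat_lit 0x2000c0008000b000b00040007000b000500050008000e00050002000e0009) (nat_lit 0x668800200650063) (nat_lit 16) Lb.e (@T16.mk En
    (@En.n l8009 (nat_lit 4946) (nat_lit 14) (nat_lit 9))
    (@En.n l615 (nat_lit 1442) (nat_lit 1) (nat_lit 14))
    (@En.n l7 (nat_lit 4952) (nat_lit 2) (nat_lit 2))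
    (@En.n l4977 (nat_lit 4921) (nat_lit 3) (nat_lit 5))
    (@En.n l615 (nat_lit 2532) (nat_lit 1) (nat_lit 14))
    (@En.n l6052 (nat_lit 4954) (nat_lit 10) (nat_lit 8))
    (@En.n l1001 (nat_lit 4954) (nat_lit 11) (nat_lit 5))
    (@En.n l27916 (nat_lit 6453) (nat_lit 7) (nat_lit 5))
    (@En.n l27917 (nat_lit 2255) (nat_lit 9) (nat_lit 11))
    (@En.i (nat_lit 5895) (nat_lit 11) (nat_lit 7))
    (@En.n l27917 (nat_lit 1879) (nat_lit 10) (nat_lit 4))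
    (@En.n l5906 (nat_lit 4948) (nat_lit 5) (nat_lit 11))
    (@En.n l1952 (nat_lit 4942) (nat_lit 13) (nat_lit 11))
    (@En.n l27918 (nat_lit 4958) (nat_lit 14) (nat_lit 8))
    (@En.n l1952 (nat_lit 4946) (nat_lit 12) (nat_lit 12))
    (@En.n l18 (nat_lit 4952) (nat_lit 15) (nat_lit 2))))
  (@Cl.mk (nat_lit 0x2000500080008000c00060009000e0004000200080008000b0007000e000a) (nat_lit 0x50307800246058) (nat_lit 16) Lb.e (@T16.mk En
    (@En.n l3839 (nat_lit 4946) (nat_lit 10) (nat_lit 10))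
    (@En.n l19554 (nat_lit 4918) (nat_lit 11) (nat_lit 14))
    (@En.n l5568 (nat_lit 4959) (nat_lit 12) (nat_lit 7))
    (@En.n l5569 (nat_lit 5023) (nat_lit 3) (nat_lit 11))
    (@En.n l5570 (nat_lit 5023) (nat_lit 4) (nat_lit 8))
    (@En.n l5571 (nat_lit 1045) (nat_lit 5) (nat_lit 8))
    (@En.n l50 (nat_lit 4953) (nat_lit 6) (nat_lit 2))
    (@En.n l5572 (nat_lit 4916) (nat_lit 7) (nat_lit 4))
    (@En.n l1889 (nat_lit 1794) (nat_lit 9) (nat_lit 14))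
    (@En.i (nat_lit 13047) (nat_lit 9) (nat_lit 9))
    (@En.n l8572 (nat_lit 5029) (nat_lit 3) (nat_lit 6))
    (@En.i (nat_lit 2574) (nat_lit 12) (nat_lit 12))
    (@En.n l725 (nat_lit 4954) (nat_lit 13) (nat_lit 8))
    (@En.n l781 (nat_lit 4957) (nat_lit 14) (nat_lit 8))
    (@En.i (nat_lit 1878) (nat_lit 7) (nat_lit 5))
    (@En.n l11 (nat_lit 4953) (nat_lit 15) (nat_lit 2))))
  (@Cl.mk (nat_lit 0x200050008000c00050008000e00040002000e00080002000b0008000e000b) (nat_lit 0x62057002307679) (nat_lit 16) Lb.e (@T16.mk En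
    (@En.n l14023 (nat_lit 4952) (nat_lit 12) (nat_lit 11))
    (@En.n l7745 (nat_lit 4955) (nat_lit 1) (nat_lit 14))
    (@En.n l2038 (nat_lit 4956) (nat_lit 14) (nat_lit 8))
    (@En.i (nat_lit 4953) (nat_lit 3) (nat_lit 11))
    (@En.n l17 (nat_lit 4954) (nat_lit 4) (nat_lit 2))
    (@En.n l1353 (nat_lit 4953) (nat_lit 5) (nat_lit 8))
    (@En.i (nat_lit 1441) (nat_lit 7) (nat_lit 14))
    (@En.n l50 (nat_lit 4954) (nat_lit 7) (nat_lit 2))
    (@En.i (nat_lit 4920) (nat_lit 8) (nat_lit 4))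
    (@En.n l1889 (nat_lit 1791) (nat_lit 10) (nat_lit 14))
    (@En.i (nat_lit 13049) (nat_lit 10) (nat_lit 8))
    (@En.i (nat_lit 6451) (nat_lit 6) (nat_lit 5))
    (@En.i (nat_lit 2260) (nat_lit 13) (nat_lit 12))
    (@En.n l1643 (nat_lit 5893) (nat_lit 14) (nat_lit 8))
    (@En.i (nat_lit 5000) (nat_lit 9) (nat_lit 5))
    (@En.n l11 (nat_lit 4954) (nat_lit 15) (nat_lit 2))))
  (@Cl.mk (nat_lit 0x2000b00050008000c00060005000e00040002000e00080002000b000e000a) (nat_lit 0x906600200230668) (nat_lit 16) Lb.e (@T16.mk En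
    (@En.i (nat_lit 4945) (nat_lit 13) (nat_lit 10))
    (@En.n l713 (nat_lit 4904) (nat_lit 4) (nat_lit 14))
    (@En.n l1738 (nat_lit 4918) (nat_lit 12) (nat_lit 11))
    (@En.n l18 (nat_lit 4955) (nat_lit 3) (nat_lit 2))
    (@En.i (nat_lit 4918) (nat_lit 14) (nat_lit 8))
    (@En.n l1001 (nat_lit 1443) (nat_lit 1) (nat_lit 14))
    (@En.n l7 (nat_lit 4955) (nat_lit 6) (nat_lit 2))
    (@En.n l1001 (nat_lit 4915) (nat_lit 7) (nat_lit 4))
    (@En.n l134 (nat_lit 1795) (nat_lit 9) (nat_lit 14))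
    (@En.n l1001 (nat_lit 710) (nat_lit 5) (nat_lit 5))
    (@En.i (nat_lit 6450) (nat_lit 6) (nat_lit 6))
    (@En.n l1001 (nat_lit 2232) (nat_lit 8) (nat_lit 12))
    (@En.i (nat_lit 5891) (nat_lit 13) (nat_lit 8))
    (@En.n l2621 (nat_lit 4954) (nat_lit 14) (nat_lit 5))
    (@En.i (nat_lit 4952) (nat_lit 11) (nat_lit 11))
    (@En.n l3 (nat_lit 4955) (nat_lit 15) (nat_lit 2))))
  (@Cl.mk (nat_lit 0x20008000e000b0002000b0007000b000500080005000e00050002000e0009) (nat_lit 0x568040100050017) (nat_lit 16) Lb.e (@T16.mk En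
    (@En.i (nat_lit 4959) (nat_lit 14) (nat_lit 9))
    (@En.i (nat_lit 1193) (nat_lit 1) (nat_lit 14))
    (@En.n l50 (nat_lit 4956) (nat_lit 2) (nat_lit 2))
    (@En.n l28 (nat_lit 4963) (nat_lit 3) (nat_lit 5))
    (@En.n l601 (nat_lit 4957) (nat_lit 9) (nat_lit 14))
    (@En.n l1643 (nat_lit 4955) (nat_lit 9) (nat_lit 5))
    (@En.i (nat_lit 13968) (nat_lit 10) (nat_lit 8))
    (@En.i (nat_lit 6455) (nat_lit 7) (nat_lit 5))
    (@En.i (nat_lit 832) (nat_lit 9) (nat_lit 11))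
    (@En.n l2650 (nat_lit 7259) (nat_lit 14) (nat_lit 7))
    (@En.i (nat_lit 3452) (nat_lit 11) (nat_lit 11))
    (@En.n l107 (nat_lit 4956) (nat_lit 11) (nat_lit 2))
    (@En.i (nat_lit 4958) (nat_lit 13) (nat_lit 11))
    (@En.n l97 (nat_lit 4902) (nat_lit 1) (nat_lit 14))
    (@En.i (nat_lit 5061) (nat_lit 12) (nat_lit 8))
    (@En.n l17 (nat_lit 4956) (nat_lit 15) (nat_lit 2))))
  (@Cl.mk (nat_lit 0x200080007000c00050008000e000400020008000e000900020008000e000b) (nat_lit 0x402064005350671) (nat_lit 16) Lb.e (@T16.mk En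
    (@En.n l180 (nat_lit 4768) (nat_lit 13) (nat_lit 11))
    (@En.n l619 (nat_lit 6464) (nat_lit 10) (nat_lit 14))
    (@En.n l12896 (nat_lit 7577) (nat_lit 2) (nat_lit 8))
    (@En.n l17 (nat_lit 4957) (nat_lit 3) (nat_lit 2))
    (@En.n l2805 (nat_lit 5198) (nat_lit 4) (nat_lit 9))
    (@En.n l998 (nat_lit 4954) (nat_lit 6) (nat_lit 14))
    (@En.n l4172 (nat_lit 6507) (nat_lit 2) (nat_lit 8))
    (@En.n l7 (nat_lit 4957) (nat_lit 7) (nat_lit 2))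
    (@En.i (nat_lit 4766) (nat_lit 4) (nat_lit 4))
    (@En.n l1643 (nat_lit 1792) (nat_lit 6) (nat_lit 14))
    (@En.i (nat_lit 12781) (nat_lit 10) (nat_lit 8))
    (@En.i (nat_lit 6493) (nat_lit 3) (nat_lit 5))
    (@En.i (nat_lit 7876) (nat_lit 13) (nat_lit 12))
    (@En.n l2579 (nat_lit 5894) (nat_lit 14) (nat_lit 7))
    (@En.n l998 (nat_lit 8189) (nat_lit 6) (nat_lit 8))
    (@En.n l107 (nat_lit 4957) (nat_lit 15) (nat_lit 2))))
  (@Cl.mk (nat_lit 0x20008000b000b000a0006000a0005000500080006000e00060002000e000a) (nat_lit 0x579301001040018) (nat_lit 16) Lb.e (@T16.mk En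
    (@En.i (nat_lit 4960) (nat_lit 14) (nat_lit 10))
    (@En.i (nat_lit 1195) (nat_lit 1) (nat_lit 14))
    (@En.n l50 (nat_lit 4958) (nat_lit 2) (nat_lit 2))
    (@En.n l28 (nat_lit 4962) (nat_lit 3) (nat_lit 6))
    (@En.n l14531 (nat_lit 4768) (nat_lit 5) (nat_lit 14))
    (@En.n l1643 (nat_lit 4945) (nat_lit 5) (nat_lit 6))
    (@En.n l3 (nat_lit 4956) (nat_lit 6) (nat_lit 8))
    (@En.n l527 (nat_lit 4956) (nat_lit 7) (nat_lit 5))
    (@En.n l13079 (nat_lit 6457) (nat_lit 8) (nat_lit 5))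
    (@En.i (nat_lit 829) (nat_lit 10) (nat_lit 10))
    (@En.n l27434 (nat_lit 7260) (nat_lit 7) (nat_lit 6))
    (@En.n l27435 (nat_lit 3446) (nat_lit 12) (nat_lit 10))
    (@En.n l14532 (nat_lit 4961) (nat_lit 5) (nat_lit 11))
    (@En.n l27408 (nat_lit 5246) (nat_lit 7) (nat_lit 11))
    (@En.n l13079 (nat_lit 5058) (nat_lit 12) (nat_lit 8))
    (@En.n l17 (nat_lit 4958) (nat_lit 15) (nat_lit 2))))
  (@Cl.mk (nat_lit 0x2000900090007000e000a0002000a00070007000b000600090006000e0005) (nat_lit 0x640420400200060) (nat_lit 16) Lb.e (@T16.mk En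
    (@En.n l28 (nat_lit 4964) (nat_lit 6) (nat_lit 5))
    (@En.n l8515 (nat_lit 5198) (nat_lit 8) (nat_lit 14))
    (@En.n l1643 (nat_lit 4918) (nat_lit 2) (nat_lit 6))
    (@En.i (nat_lit 13958) (nat_lit 9) (nat_lit 9))
    (@En.i (nat_lit 6461) (nat_lit 4) (nat_lit 6))
    (@En.n l7406 (nat_lit 3350) (nat_lit 12) (nat_lit 11))
    (@En.n l61 (nat_lit 4956) (nat_lit 9) (nat_lit 7))
    (@En.n l8516 (nat_lit 7577) (nat_lit 14) (nat_lit 7))
    (@En.i (nat_lit 4533) (nat_lit 9) (nat_lit 10))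
    (@En.n l107 (nat_lit 4959) (nat_lit 9) (nat_lit 2))
    (@En.i (nat_lit 4960) (nat_lit 11) (nat_lit 10))
    (@En.n l97 (nat_lit 4899) (nat_lit 12) (nat_lit 14))
    (@En.n l7408 (nat_lit 5148) (nat_lit 2) (nat_lit 7))
    (@En.n l8518 (nat_lit 5024) (nat_lit 14) (nat_lit 9))
    (@En.n l7409 (nat_lit 5080) (nat_lit 4) (nat_lit 9))
    (@En.n l50 (nat_lit 4959) (nat_lit 15) (nat_lit 2))))
noncomputable def a310 : T16 Cl := @T16.mk Cl
  (@Cl.mk (nat_lit 0x2000a000a0007000a000a000900060006000a0006000600090007000e0006) (nat_lit 0x740122002001090) (nat_lit 16) Lb.e (@T16.mk En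
    (@En.n l28 (nat_lit 3180) (nat_lit 15) (nat_lit 6))
    (@En.n l26376 (nat_lit 5196) (nat_lit 1) (nat_lit 14))
    (@En.n l1643 (nat_lit 4943) (nat_lit 2) (nat_lit 7))
    (@En.n l3 (nat_lit 4959) (nat_lit 3) (nat_lit 9))
    (@En.n l527 (nat_lit 4959) (nat_lit 4) (nat_lit 6))
    (@En.n l16650 (nat_lit 6462) (nat_lit 5) (nat_lit 6))
    (@En.n l7406 (nat_lit 3308) (nat_lit 9) (nat_lit 10))
    (@En.n l61 (nat_lit 4958) (nat_lit 10) (nat_lit 6))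
    (@En.n l8516 (nat_lit 7576) (nat_lit 8) (nat_lit 6))
    (@En.n l27456 (nat_lit 4588) (nat_lit 10) (nat_lit 9))
    (@En.n l27457 (nat_lit 4965) (nat_lit 6) (nat_lit 10))
    (@En.n l26376 (nat_lit 3172) (nat_lit 8) (nat_lit 10))
    (@En.n l27458 (nat_lit 5063) (nat_lit 13) (nat_lit 7))
    (@En.n l27459 (nat_lit 3181) (nat_lit 14) (nat_lit 10))
    (@En.n l7409 (nat_lit 5081) (nat_lit 5) (nat_lit 10))
    (@En.n l50 (nat_lit 4960) (nat_lit 15) (nat_lit 2))))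
  (@Cl.mk (nat_lit 0x200080007000e00070002000e000b00020008000b000900050009000e0005) (nat_lit 0x203008904810120) (nat_lit 16) Lb.e (@T16.mk En
    (@En.n l11830 (nat_lit 4958) (nat_lit 8) (nat_lit 5))
    (@En.n l5276 (nat_lit 8971) (nat_lit 10) (nat_lit 14))
    (@En.i (nat_lit 828) (nat_lit 2) (nat_lit 9))
    (@En.n l5276 (nat_lit 7566) (nat_lit 3) (nat_lit 5))
    (@En.n l13778 (nat_lit 3443) (nat_lit 4) (nat_lit 9))
    (@En.n l2038 (nat_lit 5317) (nat_lit 7) (nat_lit 11))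
    (@En.n l3902 (nat_lit 5059) (nat_lit 12) (nat_lit 8))
    (@En.n l17 (nat_lit 4961) (nat_lit 7) (nat_lit 2))
    (@En.n l5551 (nat_lit 4965) (nat_lit 9) (nat_lit 11))
    (@En.n l476 (nat_lit 1450) (nat_lit 1) (nat_lit 14))
    (@En.n l50 (nat_lit 4961) (nat_lit 10) (nat_lit 2))
    (@En.n l564 (nat_lit 5050) (nat_lit 3) (nat_lit 7))
    (@En.n l5276 (nat_lit 4769) (nat_lit 5) (nat_lit 14))
    (@En.n l5891 (nat_lit 4979) (nat_lit 14) (nat_lit 7))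
    (@En.n l11833 (nat_lit 4958) (nat_lit 6) (nat_lit 8))
    (@En.n l11 (nat_lit 4961) (nat_lit 15) (nat_lit 2))))
  (@Cl.mk (nat_lit 0x20007000a000a00090006000a000a000600060009000700060006000e000a) (nat_lit 0x18502200000067) (nat_lit 16) Lb.e (@T16.mk En
    (@En.i (nat_lit 3180) (nat_lit 13) (nat_lit 10))
    (@En.n l9779 (nat_lit 1986) (nat_lit 1) (nat_lit 14))
    (@En.n l22911 (nat_lit 5040) (nat_lit 2) (nat_lit 6))
    (@En.n l22912 (nat_lit 6899) (nat_lit 3) (nat_lit 6))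
    (@En.n l3303 (nat_lit 4978) (nat_lit 4) (nat_lit 7))
    (@En.n l3 (nat_lit 4963) (nat_lit 5) (nat_lit 9))
    (@En.n l527 (nat_lit 4963) (nat_lit 6) (nat_lit 6))
    (@En.n l22913 (nat_lit 9511) (nat_lit 7) (nat_lit 6))
    (@En.n l4380 (nat_lit 4958) (nat_lit 9) (nat_lit 10))
    (@En.i (nat_lit 1966) (nat_lit 10) (nat_lit 10))
    (@En.n l287 (nat_lit 7561) (nat_lit 11) (nat_lit 6))
    (@En.n l12970 (nat_lit 4553) (nat_lit 12) (nat_lit 9))
    (@En.n l22914 (nat_lit 5050) (nat_lit 13) (nat_lit 10))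
    (@En.n l22915 (nat_lit 3171) (nat_lit 8) (nat_lit 10))
    (@En.n l22916 (nat_lit 5052) (nat_lit 13) (nat_lit 7))
    (@En.n l17 (nat_lit 4962) (nat_lit 15) (nat_lit 2))))
  (@Cl.mk (nat_lit 0x20007000e000a0002000a0007000b000b00060009000600050005000e0009) (nat_lit 0xb2060220700056) (nat_lit 16) Lb.e (@T16.mk En
    (@En.i (nat_lit 4964) (nat_lit 4) (nat_lit 9))
    (@En.i (nat_lit 1990) (nat_lit 1) (nat_lit 14))
    (@En.n l1338 (nat_lit 5039) (nat_lit 2) (nat_lit 5))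
    (@En.n l237 (nat_lit 6900) (nat_lit 3) (nat_lit 5))
    (@En.i (nat_lit 4915) (nat_lit 8) (nat_lit 6))
    (@En.i (nat_lit 13939) (nat_lit 9) (nat_lit 9))
    (@En.n l563 (nat_lit 9513) (nat_lit 6) (nat_lit 6))
    (@En.n l4380 (nat_lit 4956) (nat_lit 8) (nat_lit 11))
    (@En.i (nat_lit 1968) (nat_lit 9) (nat_lit 11))
    (@En.n l287 (nat_lit 7563) (nat_lit 14) (nat_lit 7))
    (@En.n l11 (nat_lit 4534) (nat_lit 11) (nat_lit 10))
    (@En.n l107 (nat_lit 4963) (nat_lit 11) (nat_lit 2))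
    (@En.i (nat_lit 4962) (nat_lit 13) (nat_lit 10))
    (@En.n l97 (nat_lit 4901) (nat_lit 1) (nat_lit 14))
    (@En.i (nat_lit 5055) (nat_lit 2) (nat_lit 7))
    (@En.n l17 (nat_lit 4963) (nat_lit 15) (nat_lit 2))))
  (@Cl.mk (nat_lit 0x2000900070007000b000b0007000a000700050005000900090006000e0009) (nat_lit 0x3003308000530a2) (nat_lit 16) Lb.e (@T16.mk En
    (@En.i (nat_lit 3180) (nat_lit 10) (nat_lit 9))
    (@En.n l97 (nat_lit 4783) (nat_lit 1) (nat_lit 14))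
    (@En.n l22566 (nat_lit 5149) (nat_lit 2) (nat_lit 6))
    (@En.n l22567 (nat_lit 3179) (nat_lit 3) (nat_lit 9))
    (@En.n l12634 (nat_lit 5045) (nat_lit 4) (nat_lit 9))
    (@En.n l1338 (nat_lit 5037) (nat_lit 5) (nat_lit 5))
    (@En.n l237 (nat_lit 6898) (nat_lit 6) (nat_lit 5))
    (@En.n l1353 (nat_lit 4913) (nat_lit 7) (nat_lit 7))
    (@En.n l22568 (nat_lit 13335) (nat_lit 8) (nat_lit 10))
    (@En.n l22569 (nat_lit 10048) (nat_lit 10) (nat_lit 7))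
    (@En.n l4380 (nat_lit 4959) (nat_lit 5) (nat_lit 11))
    (@En.n l1353 (nat_lit 3346) (nat_lit 12) (nat_lit 11))
    (@En.n l61 (nat_lit 4963) (nat_lit 9) (nat_lit 7))
    (@En.n l22570 (nat_lit 7573) (nat_lit 14) (nat_lit 7))
    (@En.n l22568 (nat_lit 4528) (nat_lit 0) (nat_lit 9))
    (@En.n l107 (nat_lit 4964) (nat_lit 15) (nat_lit 2))))
  (@Cl.mk (nat_lit 0x200090008000e00070002000b000b0007000a0008000500050009000e0006) (nat_lit 0x2430084012002c0) (nat_lit 16) Lb.e (@T16.mk En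
    (@En.n l13801 (nat_lit 4960) (nat_lit 5) (nat_lit 6))
    (@En.i (nat_lit 8972) (nat_lit 7) (nat_lit 14))
    (@En.n l2747 (nat_lit 3309) (nat_lit 2) (nat_lit 9))
    (@En.n l5584 (nat_lit 4961) (nat_lit 3) (nat_lit 5))
    (@En.n l152 (nat_lit 7580) (nat_lit 4) (nat_lit 5))
    (@En.n l13802 (nat_lit 3395) (nat_lit 5) (nat_lit 8))
    (@En.i (nat_lit 4482) (nat_lit 8) (nat_lit 10))
    (@En.n l532 (nat_lit 5065) (nat_lit 7) (nat_lit 7))
    (@En.n l619 (nat_lit 5064) (nat_lit 5) (nat_lit 11))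
    (@En.n l4658 (nat_lit 5086) (nat_lit 10) (nat_lit 11))
    (@En.n l17 (nat_lit 4965) (nat_lit 10) (nat_lit 2))
    (@En.n l4658 (nat_lit 3186) (nat_lit 12) (nat_lit 7))
    (@En.i (nat_lit 5197) (nat_lit 13) (nat_lit 14))
    (@En.n l9941 (nat_lit 4947) (nat_lit 14) (nat_lit 8))
    (@En.n l13803 (nat_lit 4960) (nat_lit 3) (nat_lit 9))
    (@En.n l7 (nat_lit 4965) (nat_lit 15) (nat_lit 2))))
  (@Cl.mk (nat_lit 0x20009000e00060002000a000d000800070003000e00060002000a000e0008) (nat_lit 0x360034100c00656) (nat_lit 16) Lb.e (@T16.mk En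
    (@En.n l28481 (nat_lit 4944) (nat_lit 4) (nat_lit 8))
    (@En.n l7167 (nat_lit 4162) (nat_lit 6) (nat_lit 14))
    (@En.n l2973 (nat_lit 2291) (nat_lit 2) (nat_lit 10))
    (@En.n l3 (nat_lit 4966) (nat_lit 3) (nat_lit 2))
    (@En.n l28482 (nat_lit 4947) (nat_lit 4) (nat_lit 6))
    (@En.n l7170 (nat_lit 5712) (nat_lit 1) (nat_lit 14))
    (@En.n l22058 (nat_lit 4949) (nat_lit 10) (nat_lit 3))
    (@En.i (nat_lit 3393) (nat_lit 7) (nat_lit 7))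
    (@En.n l28483 (nat_lit 3403) (nat_lit 4) (nat_lit 8))
    (@En.n l28484 (nat_lit 13711) (nat_lit 5) (nat_lit 13))
    (@En.n l7171 (nat_lit 1545) (nat_lit 11) (nat_lit 10))
    (@En.n l11 (nat_lit 4966) (nat_lit 11) (nat_lit 2))
    (@En.n l575 (nat_lit 4968) (nat_lit 13) (nat_lit 6))
    (@En.n l28485 (nat_lit 2170) (nat_lit 10) (nat_lit 14))
    (@En.n l28486 (nat_lit 1873) (nat_lit 2) (nat_lit 9))
    (@En.n l7 (nat_lit 4966) (nat_lit 15) (nat_lit 2))))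
  (@Cl.mk (nat_lit 0x2000900060006000a000a000d00080007000300060006000a000a000e0008) (nat_lit 0x300235200003655) (nat_lit 16) Lb.e (@T16.mk En
    (@En.n l28498 (nat_lit 4917) (nat_lit 10) (nat_lit 8))
    (@En.n l7180 (nat_lit 6615) (nat_lit 1) (nat_lit 14))
    (@En.n l28482 (nat_lit 4947) (nat_lit 2) (nat_lit 10))
    (@En.n l12208 (nat_lit 2588) (nat_lit 3) (nat_lit 10))
    (@En.n l28499 (nat_lit 4974) (nat_lit 4) (nat_lit 6))
    (@En.n l5469 (nat_lit 5724) (nat_lit 5) (nat_lit 6))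
    (@En.n l8446 (nat_lit 4972) (nat_lit 6) (nat_lit 3))
    (@En.i (nat_lit 3369) (nat_lit 0) (nat_lit 7))
    (@En.n l8447 (nat_lit 4526) (nat_lit 9) (nat_lit 8))
    (@En.n l476 (nat_lit 4968) (nat_lit 10) (nat_lit 13))
    (@En.n l152 (nat_lit 4968) (nat_lit 11) (nat_lit 10))
    (@En.n l2032 (nat_lit 1547) (nat_lit 12) (nat_lit 10))
    (@En.n l575 (nat_lit 4973) (nat_lit 13) (nat_lit 6))
    (@En.n l998 (nat_lit 6619) (nat_lit 14) (nat_lit 6))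
    (@En.n l5900 (nat_lit 1880) (nat_lit 8) (nat_lit 9))
    (@En.n l7 (nat_lit 4967) (nat_lit 15) (nat_lit 2))))
  (@Cl.mk (nat_lit 0x2000a00060006000a000d000700060003000e00060002000a000a000e0009) (nat_lit 0x30024000b006766) (nat_lit 16) Lb.e (@T16.mk En
    (@En.n l5852 (nat_lit 4970) (nat_lit 12) (nat_lit 9))
    (@En.n l18808 (nat_lit 6616) (nat_lit 13) (nat_lit 14))
    (@En.i (nat_lit 4966) (nat_lit 2) (nat_lit 10))
    (@En.i (nat_lit 2587) (nat_lit 3) (nat_lit 10))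
    (@En.n l3 (nat_lit 4968) (nat_lit 4) (nat_lit 2))
    (@En.i (nat_lit 4967) (nat_lit 5) (nat_lit 6))
    (@En.n l2977 (nat_lit 5250) (nat_lit 1) (nat_lit 14))
    (@En.i (nat_lit 4969) (nat_lit 2) (nat_lit 3))
    (@En.i (nat_lit 3375) (nat_lit 3) (nat_lit 6))
    (@En.n l947 (nat_lit 3410) (nat_lit 4) (nat_lit 7))
    (@En.n l2032 (nat_lit 13768) (nat_lit 5) (nat_lit 13))
    (@En.n l2032 (nat_lit 1548) (nat_lit 12) (nat_lit 10))
    (@En.n l575 (nat_lit 4971) (nat_lit 13) (nat_lit 6))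
    (@En.n l998 (nat_lit 5119) (nat_lit 14) (nat_lit 6))
    (@En.n l5900 (nat_lit 1881) (nat_lit 10) (nat_lit 10))
    (@En.n l7 (nat_lit 4968) (nat_lit 15) (nat_lit 2))))
  (@Cl.mk (nat_lit 0x2000a000a000e00080002000b00060006000a000d000500080003000e0006) (nat_lit 0x6585020024020b0) (nat_lit 16) Lb.e (@T16.mk En
    (@En.n l8446 (nat_lit 4972) (nat_lit 5) (nat_lit 6))
    (@En.n l8157 (nat_lit 5193) (nat_lit 1) (nat_lit 14))
    (@En.n l17 (nat_lit 4968) (nat_lit 7) (nat_lit 3))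
    (@En.n l18055 (nat_lit 3374) (nat_lit 10) (nat_lit 8))
    (@En.n l22055 (nat_lit 3178) (nat_lit 4) (nat_lit 5))
    (@En.n l18808 (nat_lit 13710) (nat_lit 5) (nat_lit 13))
    (@En.n l2032 (nat_lit 1185) (nat_lit 12) (nat_lit 10))
    (@En.n l575 (nat_lit 4879) (nat_lit 13) (nat_lit 6))
    (@En.n l2581 (nat_lit 6620) (nat_lit 14) (nat_lit 6))
    (@En.n l22056 (nat_lit 4923) (nat_lit 10) (nat_lit 11))
    (@En.n l7 (nat_lit 4969) (nat_lit 10) (nat_lit 2))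
    (@En.n l22057 (nat_lit 4923) (nat_lit 12) (nat_lit 8))
    (@En.n l18055 (nat_lit 6602) (nat_lit 13) (nat_lit 14))
    (@En.n l22058 (nat_lit 4949) (nat_lit 6) (nat_lit 10))
    (@En.n l18810 (nat_lit 2585) (nat_lit 3) (nat_lit 10))
    (@En.n l3 (nat_lit 4969) (nat_lit 15) (nat_lit 2))))
  (@Cl.mk (nat_lit 0x2000b000b000900090009000500050009000c0007000700070004000e0007) (nat_lit 0x8856200240000c0) (nat_lit 16) Lb.e (@T16.mk En
    (@En.n l13230 (nat_lit 4917) (nat_lit 14) (nat_lit 7))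
    (@En.n l97 (nat_lit 5709) (nat_lit 1) (nat_lit 14))
    (@En.n l35612 (nat_lit 4923) (nat_lit 2) (nat_lit 4))
    (@En.n l1935 (nat_lit 4938) (nat_lit 9) (nat_lit 7))
    (@En.n l13234 (nat_lit 4968) (nat_lit 9) (nat_lit 7))
    (@En.n l1643 (nat_lit 4833) (nat_lit 5) (nat_lit 7))
    (@En.i (nat_lit 13715) (nat_lit 6) (nat_lit 12))
    (@En.n l5663 (nat_lit 1049) (nat_lit 10) (nat_lit 9))
    (@En.n l55 (nat_lit 4980) (nat_lit 11) (nat_lit 5))
    (@En.n l5802 (nat_lit 6618) (nat_lit 9) (nat_lit 5))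
    (@En.n l742 (nat_lit 5002) (nat_lit 7) (nat_lit 9))
    (@En.n l396 (nat_lit 4911) (nat_lit 7) (nat_lit 9))
    (@En.n l12756 (nat_lit 6836) (nat_lit 13) (nat_lit 9))
    (@En.n l35613 (nat_lit 4944) (nat_lit 5) (nat_lit 11))
    (@En.n l17110 (nat_lit 2507) (nat_lit 12) (nat_lit 11))
    (@En.n l107 (nat_lit 4970) (nat_lit 15) (nat_lit 2))))
  (@Cl.mk (nat_lit 0x2000b0006000a000d000600050003000e00060002000e000a0002000e000a) (nat_lit 0x3015000c0027078) (nat_lit 16) Lb.e (@T16.mk En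
    (@En.n l5852 (nat_lit 4980) (nat_lit 14) (nat_lit 10))
    (@En.i (nat_lit 6608) (nat_lit 1) (nat_lit 14))
    (@En.n l11 (nat_lit 4971) (nat_lit 2) (nat_lit 2))
    (@En.i (nat_lit 4968) (nat_lit 3) (nat_lit 10))
    (@En.i (nat_lit 1398) (nat_lit 1) (nat_lit 14))
    (@En.n l3 (nat_lit 4971) (nat_lit 5) (nat_lit 2))
    (@En.i (nat_lit 4973) (nat_lit 6) (nat_lit 6))
    (@En.i (nat_lit 5249) (nat_lit 1) (nat_lit 14))
    (@En.i (nat_lit 4879) (nat_lit 8) (nat_lit 3))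
    (@En.i (nat_lit 3396) (nat_lit 9) (nat_lit 5))
    (@En.n l947 (nat_lit 3413) (nat_lit 7) (nat_lit 6))
    (@En.n l5899 (nat_lit 14051) (nat_lit 5) (nat_lit 13))
    (@En.i (nat_lit 1105) (nat_lit 13) (nat_lit 10))
    (@En.n l998 (nat_lit 5118) (nat_lit 14) (nat_lit 6))
    (@En.n l5900 (nat_lit 4984) (nat_lit 12) (nat_lit 11))
    (@En.n l7 (nat_lit 4971) (nat_lit 15) (nat_lit 2))))
  (@Cl.mk (nat_lit 0x2000a00060006000a000a000d00060009000300060006000a000a000e0007) (nat_lit 0x200235020004470) (nat_lit 16) Lb.e (@T16.mk En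
    (@En.i (nat_lit 4919) (nat_lit 10) (nat_lit 7))
    (@En.i (nat_lit 6600) (nat_lit 1) (nat_lit 14))
    (@En.n l2593 (nat_lit 4950) (nat_lit 2) (nat_lit 10))
    (@En.n l387 (nat_lit 2582) (nat_lit 3) (nat_lit 10))
    (@En.n l17 (nat_lit 4976) (nat_lit 4) (nat_lit 6))
    (@En.n l1329 (nat_lit 4761) (nat_lit 12) (nat_lit 6))
    (@En.n l20014 (nat_lit 4967) (nat_lit 6) (nat_lit 3))
    (@En.i (nat_lit 3387) (nat_lit 0) (nat_lit 9))
    (@En.n l12559 (nat_lit 3186) (nat_lit 8) (nat_lit 6))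
    (@En.n l22439 (nat_lit 4969) (nat_lit 5) (nat_lit 13))
    (@En.n l22440 (nat_lit 4969) (nat_lit 6) (nat_lit 10))
    (@En.n l22441 (nat_lit 1182) (nat_lit 12) (nat_lit 10))
    (@En.n l22442 (nat_lit 4877) (nat_lit 13) (nat_lit 6))
    (@En.n l1253 (nat_lit 6621) (nat_lit 14) (nat_lit 6))
    (@En.n l2678 (nat_lit 4919) (nat_lit 8) (nat_lit 10))
    (@En.n l11 (nat_lit 4972) (nat_lit 15) (nat_lit 2))))
  (@Cl.mk (nat_lit 0x2000a0006000a000a000d00070006000300060006000e000a0002000e0009) (nat_lit 0x301260000014066) (nat_lit 16) Lb.e (@T16.mk En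
    (@En.n l5852 (nat_lit 4875) (nat_lit 14) (nat_lit 9))
    (@En.i (nat_lit 6609) (nat_lit 1) (nat_lit 14))
    (@En.n l11 (nat_lit 4973) (nat_lit 2) (nat_lit 2))
    (@En.i (nat_lit 4967) (nat_lit 3) (nat_lit 10))
    (@En.n l619 (nat_lit 1401) (nat_lit 1) (nat_lit 14))
    (@En.n l2870 (nat_lit 4975) (nat_lit 5) (nat_lit 6))
    (@En.n l899 (nat_lit 5728) (nat_lit 12) (nat_lit 6))
    (@En.i (nat_lit 4877) (nat_lit 7) (nat_lit 3))
    (@En.i (nat_lit 3378) (nat_lit 0) (nat_lit 6))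
    (@En.n l8447 (nat_lit 3425) (nat_lit 6) (nat_lit 7))
    (@En.n l476 (nat_lit 4971) (nat_lit 11) (nat_lit 13))
    (@En.n l152 (nat_lit 4971) (nat_lit 12) (nat_lit 10))
    (@En.i (nat_lit 1106) (nat_lit 13) (nat_lit 10))
    (@En.n l998 (nat_lit 5116) (nat_lit 14) (nat_lit 6))
    (@En.n l5900 (nat_lit 4986) (nat_lit 12) (nat_lit 10))
    (@En.n l7 (nat_lit 4973) (nat_lit 15) (nat_lit 2))))
  (@Cl.mk (nat_lit 0x2000800060006000e000a0002000d0009000800030006000a000a000e0007) (nat_lit 0x500630652004540) (nat_lit 16) Lb.e (@T16.mk En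
    (@En.n l187 (nat_lit 4978) (nat_lit 6) (nat_lit 7))
    (@En.n l1685 (nat_lit 6694) (nat_lit 1) (nat_lit 14))
    (@En.n l77 (nat_lit 4979) (nat_lit 2) (nat_lit 10))
    (@En.n l2009 (nat_lit 2294) (nat_lit 3) (nat_lit 10))
    (@En.n l3531 (nat_lit 5820) (nat_lit 4) (nat_lit 6))
    (@En.n l1798 (nat_lit 4976) (nat_lit 5) (nat_lit 3))
    (@En.n l22221 (nat_lit 3368) (nat_lit 0) (nat_lit 8))
    (@En.n l1106 (nat_lit 4547) (nat_lit 14) (nat_lit 9))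
    (@En.n l14353 (nat_lit 4967) (nat_lit 9) (nat_lit 13))
    (@En.n l18 (nat_lit 4974) (nat_lit 9) (nat_lit 2))
    (@En.n l22222 (nat_lit 4967) (nat_lit 11) (nat_lit 10))
    (@En.n l22223 (nat_lit 1714) (nat_lit 12) (nat_lit 14))
    (@En.n l22224 (nat_lit 4975) (nat_lit 13) (nat_lit 6))
    (@En.n l22225 (nat_lit 6630) (nat_lit 14) (nat_lit 6))
    (@En.n l7891 (nat_lit 4993) (nat_lit 4) (nat_lit 8))
    (@En.n l476 (nat_lit 4974) (nat_lit 15) (nat_lit 2))))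
  (@Cl.mk (nat_lit 0x200090006000e000a0002000d0008000700030006000e000a0002000e0008) (nat_lit 0x306207300015056) (nat_lit 16) Lb.e (@T16.mk En
    (@En.n l9611 (nat_lit 4991) (nat_lit 14) (nat_lit 8))
    (@En.n l1006 (nat_lit 6612) (nat_lit 1) (nat_lit 14))
    (@En.n l28 (nat_lit 4975) (nat_lit 2) (nat_lit 2))
    (@En.n l9612 (nat_lit 4974) (nat_lit 3) (nat_lit 10))
    (@En.n l862 (nat_lit 1651) (nat_lit 5) (nat_lit 14))
    (@En.n l2652 (nat_lit 5815) (nat_lit 5) (nat_lit 6))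
    (@En.n l9613 (nat_lit 4977) (nat_lit 6) (nat_lit 3))
    (@En.i (nat_lit 3445) (nat_lit 0) (nat_lit 7))
    (@En.n l9614 (nat_lit 4554) (nat_lit 14) (nat_lit 8))
    (@En.n l1003 (nat_lit 4973) (nat_lit 10) (nat_lit 13))
    (@En.n l3 (nat_lit 4975) (nat_lit 10) (nat_lit 2))
    (@En.n l1004 (nat_lit 4973) (nat_lit 12) (nat_lit 10))
    (@En.n l3037 (nat_lit 1698) (nat_lit 1) (nat_lit 14))
    (@En.n l1353 (nat_lit 6631) (nat_lit 14) (nat_lit 6))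
    (@En.n l18 (nat_lit 4989) (nat_lit 12) (nat_lit 9))
    (@En.n l50 (nat_lit 4975) (nat_lit 15) (nat_lit 2))))
noncomputable def a311 : T16 Cl := @T16.mk Cl
  (@Cl.mk (nat_lit 0x2000900060006000e000a0002000d0007000a00030006000a000a000e0006) (nat_lit 0x200630601003360) (nat_lit 16) Lb.e (@T16.mk En
    (@En.i (nat_lit 4921) (nat_lit 6) (nat_lit 6))
    (@En.i (nat_lit 6603) (nat_lit 8) (nat_lit 14))
    (@En.n l2593 (nat_lit 4948) (nat_lit 2) (nat_lit 10))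
    (@En.n l387 (nat_lit 2296) (nat_lit 3) (nat_lit 10))
    (@En.n l253 (nat_lit 6061) (nat_lit 4) (nat_lit 6))
    (@En.n l5385 (nat_lit 4974) (nat_lit 5) (nat_lit 3))
    (@En.i (nat_lit 3372) (nat_lit 0) (nat_lit 10))
    (@En.i (nat_lit 5050) (nat_lit 14) (nat_lit 7))
    (@En.i (nat_lit 4972) (nat_lit 9) (nat_lit 13))
    (@En.n l18 (nat_lit 4976) (nat_lit 9) (nat_lit 2))
    (@En.n l5 (nat_lit 4972) (nat_lit 11) (nat_lit 10))
    (@En.i (nat_lit 1583) (nat_lit 12) (nat_lit 14))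
    (@En.n l538 (nat_lit 4977) (nat_lit 13) (nat_lit 6))
    (@En.n l1253 (nat_lit 6622) (nat_lit 14) (nat_lit 6))
    (@En.n l2678 (nat_lit 4921) (nat_lit 4) (nat_lit 9))
    (@En.n l11 (nat_lit 4976) (nat_lit 15) (nat_lit 2))))
  (@Cl.mk (nat_lit 0x2000a0006000e000a0002000d0006000900030006000e000a0002000e0007) (nat_lit 0x106206010014070) (nat_lit 16) Lb.e (@T16.mk En
    (@En.i (nat_lit 4880) (nat_lit 14) (nat_lit 7))
    (@En.i (nat_lit 6955) (nat_lit 1) (nat_lit 14))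
    (@En.n l8 (nat_lit 4977) (nat_lit 2) (nat_lit 2))
    (@En.i (nat_lit 4976) (nat_lit 3) (nat_lit 10))
    (@En.n l8 (nat_lit 1650) (nat_lit 1) (nat_lit 14))
    (@En.n l22227 (nat_lit 5843) (nat_lit 12) (nat_lit 6))
    (@En.n l22228 (nat_lit 4975) (nat_lit 6) (nat_lit 3))
    (@En.i (nat_lit 3388) (nat_lit 0) (nat_lit 9))
    (@En.n l9627 (nat_lit 5041) (nat_lit 14) (nat_lit 6))
    (@En.n l20010 (nat_lit 4877) (nat_lit 10) (nat_lit 13))
    (@En.n l18 (nat_lit 4977) (nat_lit 10) (nat_lit 2))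
    (@En.n l22229 (nat_lit 4877) (nat_lit 12) (nat_lit 10))
    (@En.n l420 (nat_lit 1700) (nat_lit 1) (nat_lit 14))
    (@En.n l1603 (nat_lit 6627) (nat_lit 14) (nat_lit 6))
    (@En.n l2678 (nat_lit 4880) (nat_lit 12) (nat_lit 10))
    (@En.n l11 (nat_lit 4977) (nat_lit 15) (nat_lit 2))))
  (@Cl.mk (nat_lit 0x2000c00090009000900040007000b000b00070007000700050005000e0009) (nat_lit 0x666200660000053) (nat_lit 16) Lb.e (@T16.mk En
    (@En.i (nat_lit 4917) (nat_lit 5) (nat_lit 9))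
    (@En.n l1393 (nat_lit 1591) (nat_lit 1) (nat_lit 14))
    (@En.i (nat_lit 4991) (nat_lit 11) (nat_lit 5))
    (@En.n l4975 (nat_lit 5961) (nat_lit 3) (nat_lit 5))
    (@En.n l11 (nat_lit 4996) (nat_lit 9) (nat_lit 7))
    (@En.n l5703 (nat_lit 4915) (nat_lit 9) (nat_lit 7))
    (@En.n l4511 (nat_lit 6837) (nat_lit 6) (nat_lit 7))
    (@En.n l77 (nat_lit 4945) (nat_lit 8) (nat_lit 11))
    (@En.n l1001 (nat_lit 2297) (nat_lit 9) (nat_lit 11))
    (@En.i (nat_lit 4138) (nat_lit 11) (nat_lit 7))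
    (@En.n l12991 (nat_lit 4921) (nat_lit 10) (nat_lit 4))
    (@En.n l4977 (nat_lit 4940) (nat_lit 7) (nat_lit 9))
    (@En.n l1596 (nat_lit 4974) (nat_lit 7) (nat_lit 9))
    (@En.i (nat_lit 5221) (nat_lit 14) (nat_lit 9))
    (@En.n l1738 (nat_lit 4917) (nat_lit 3) (nat_lit 12))
    (@En.n l18 (nat_lit 4978) (nat_lit 15) (nat_lit 2))))
  (@Cl.mk (nat_lit 0x20007000e00060002000e000a0002000d000a000900030006000a000e0006) (nat_lit 0x60013061200430) (nat_lit 16) Lb.e (@T16.mk En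
    (@En.n l187 (nat_lit 4945) (nat_lit 7) (nat_lit 6))
    (@En.i (nat_lit 4163) (nat_lit 1) (nat_lit 14))
    (@En.n l2009 (nat_lit 2293) (nat_lit 2) (nat_lit 10))
    (@En.n l3531 (nat_lit 5824) (nat_lit 3) (nat_lit 6))
    (@En.n l1106 (nat_lit 4948) (nat_lit 4) (nat_lit 3))
    (@En.n l619 (nat_lit 3444) (nat_lit 0) (nat_lit 9))
    (@En.n l1106 (nat_lit 3448) (nat_lit 14) (nat_lit 10))
    (@En.i (nat_lit 4947) (nat_lit 8) (nat_lit 13))
    (@En.n l18 (nat_lit 4979) (nat_lit 8) (nat_lit 2))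
    (@En.n l5 (nat_lit 4947) (nat_lit 10) (nat_lit 10))
    (@En.i (nat_lit 1448) (nat_lit 1) (nat_lit 14))
    (@En.n l7 (nat_lit 4979) (nat_lit 11) (nat_lit 2))
    (@En.i (nat_lit 4974) (nat_lit 13) (nat_lit 6))
    (@En.n l226 (nat_lit 2174) (nat_lit 1) (nat_lit 14))
    (@En.n l5781 (nat_lit 1879) (nat_lit 5) (nat_lit 7))
    (@En.n l476 (nat_lit 4979) (nat_lit 15) (nat_lit 2))))
  (@Cl.mk (nat_lit 0x2000a000a000a00050009000c0006000600060004000e00070002000e000b) (nat_lit 0x7720120000c00c9) (nat_lit 16) Lb.e (@T16.mk En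
    (@En.i (nat_lit 4970) (nat_lit 14) (nat_lit 11))
    (@En.i (nat_lit 1403) (nat_lit 1) (nat_lit 14))
    (@En.n l107 (nat_lit 4980) (nat_lit 2) (nat_lit 2))
    (@En.i (nat_lit 4875) (nat_lit 3) (nat_lit 7))
    (@En.n l97 (nat_lit 5247) (nat_lit 1) (nat_lit 14))
    (@En.n l2163 (nat_lit 4878) (nat_lit 5) (nat_lit 4))
    (@En.n l1935 (nat_lit 4871) (nat_lit 10) (nat_lit 6))
    (@En.n l13234 (nat_lit 4971) (nat_lit 10) (nat_lit 6))
    (@En.n l1643 (nat_lit 5230) (nat_lit 8) (nat_lit 6))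
    (@En.i (nat_lit 14049) (nat_lit 6) (nat_lit 12))
    (@En.i (nat_lit 347) (nat_lit 11) (nat_lit 9))
    (@En.n l5802 (nat_lit 5114) (nat_lit 8) (nat_lit 5))
    (@En.n l742 (nat_lit 4982) (nat_lit 6) (nat_lit 10))
    (@En.n l396 (nat_lit 4912) (nat_lit 6) (nat_lit 10))
    (@En.n l7 (nat_lit 6516) (nat_lit 12) (nat_lit 10))
    (@En.n l28 (nat_lit 4980) (nat_lit 15) (nat_lit 2))))
  (@Cl.mk (nat_lit 0x2000500080008000e000c0002000a0009000400080008000b0006000e0007) (nat_lit 0x2a90610123080) (nat_lit 16) Lb.e (@T16.mk En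
    (@En.n l50 (nat_lit 4875) (nat_lit 6) (nat_lit 7))
    (@En.n l5 (nat_lit 4985) (nat_lit 8) (nat_lit 14))
    (@En.n l1643 (nat_lit 5229) (nat_lit 2) (nat_lit 6))
    (@En.n l3 (nat_lit 4982) (nat_lit 3) (nat_lit 11))
    (@En.n l527 (nat_lit 4982) (nat_lit 4) (nat_lit 8))
    (@En.i (nat_lit 333) (nat_lit 5) (nat_lit 8))
    (@En.i (nat_lit 6721) (nat_lit 6) (nat_lit 4))
    (@En.n l217 (nat_lit 925) (nat_lit 14) (nat_lit 9))
    (@En.i (nat_lit 6509) (nat_lit 9) (nat_lit 10))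
    (@En.n l28 (nat_lit 4981) (nat_lit 9) (nat_lit 2))
    (@En.i (nat_lit 4997) (nat_lit 11) (nat_lit 12))
    (@En.n l5144 (nat_lit 1475) (nat_lit 12) (nat_lit 14))
    (@En.i (nat_lit 4990) (nat_lit 13) (nat_lit 8))
    (@En.i (nat_lit 5732) (nat_lit 10) (nat_lit 8))
    (@En.n l617 (nat_lit 4910) (nat_lit 13) (nat_lit 5))
    (@En.n l17 (nat_lit 4981) (nat_lit 15) (nat_lit 2))))
  (@Cl.mk (nat_lit 0x20005000e00080002000e000c0002000b000a00040008000b0005000e0006) (nat_lit 0xa10ca071012030) (nat_lit 16) Lb.e (@T16.mk En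
    (@En.n l50 (nat_lit 4980) (nat_lit 7) (nat_lit 6))
    (@En.n l5 (nat_lit 4983) (nat_lit 1) (nat_lit 14))
    (@En.n l1643 (nat_lit 5232) (nat_lit 2) (nat_lit 5))
    (@En.i (nat_lit 14047) (nat_lit 7) (nat_lit 11))
    (@En.i (nat_lit 331) (nat_lit 4) (nat_lit 8))
    (@En.i (nat_lit 6720) (nat_lit 5) (nat_lit 4))
    (@En.n l217 (nat_lit 926) (nat_lit 14) (nat_lit 10))
    (@En.i (nat_lit 6508) (nat_lit 8) (nat_lit 11))
    (@En.n l28 (nat_lit 4982) (nat_lit 8) (nat_lit 2))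
    (@En.i (nat_lit 5002) (nat_lit 10) (nat_lit 12))
    (@En.i (nat_lit 1467) (nat_lit 11) (nat_lit 14))
    (@En.n l107 (nat_lit 4982) (nat_lit 11) (nat_lit 2))
    (@En.i (nat_lit 4981) (nat_lit 13) (nat_lit 8))
    (@En.n l97 (nat_lit 5716) (nat_lit 1) (nat_lit 14))
    (@En.n l617 (nat_lit 4912) (nat_lit 13) (nat_lit 5))
    (@En.n l17 (nat_lit 4982) (nat_lit 15) (nat_lit 2))))
  (@Cl.mk (nat_lit 0x200080005000e00080002000e000c00020008000b00040008000b000e0005) (nat_lit 0xa002a01101220) (nat_lit 16) Lb.e (@T16.mk En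
    (@En.i (nat_lit 4984) (nat_lit 8) (nat_lit 5))
    (@En.n l1643 (nat_lit 12533) (nat_lit 10) (nat_lit 14))
    (@En.i (nat_lit 14046) (nat_lit 7) (nat_lit 11))
    (@En.i (nat_lit 329) (nat_lit 3) (nat_lit 8))
    (@En.i (nat_lit 6718) (nat_lit 4) (nat_lit 4))
    (@En.i (nat_lit 923) (nat_lit 7) (nat_lit 11))
    (@En.n l2031 (nat_lit 1445) (nat_lit 12) (nat_lit 8))
    (@En.n l28 (nat_lit 4983) (nat_lit 7) (nat_lit 2))
    (@En.n l134 (nat_lit 1883) (nat_lit 9) (nat_lit 12))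
    (@En.n l2568 (nat_lit 1469) (nat_lit 1) (nat_lit 14))
    (@En.n l107 (nat_lit 4983) (nat_lit 10) (nat_lit 2))
    (@En.i (nat_lit 4985) (nat_lit 3) (nat_lit 8))
    (@En.n l97 (nat_lit 5904) (nat_lit 5) (nat_lit 14))
    (@En.n l2593 (nat_lit 4982) (nat_lit 14) (nat_lit 5))
    (@En.n l1738 (nat_lit 4984) (nat_lit 6) (nat_lit 8))
    (@En.n l18 (nat_lit 4983) (nat_lit 15) (nat_lit 2))))
  (@Cl.mk (nat_lit 0x20008000b000b00050009000c0005000500080004000e00070002000e000b) (nat_lit 0x2820120060c0029) (nat_lit 16) Lb.e (@T16.mk En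
    (@En.i (nat_lit 1881) (nat_lit 14) (nat_lit 11))
    (@En.n l613 (nat_lit 1435) (nat_lit 1) (nat_lit 14))
    (@En.n l107 (nat_lit 4984) (nat_lit 2) (nat_lit 2))
    (@En.i (nat_lit 4986) (nat_lit 3) (nat_lit 7))
    (@En.n l97 (nat_lit 5254) (nat_lit 1) (nat_lit 14))
    (@En.n l387 (nat_lit 4980) (nat_lit 5) (nat_lit 4))
    (@En.n l21928 (nat_lit 4987) (nat_lit 10) (nat_lit 8))
    (@En.n l21929 (nat_lit 4987) (nat_lit 11) (nat_lit 5))
    (@En.n l1643 (nat_lit 3420) (nat_lit 8) (nat_lit 5))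
    (@En.i (nat_lit 12833) (nat_lit 6) (nat_lit 12))
    (@En.n l613 (nat_lit 328) (nat_lit 11) (nat_lit 9))
    (@En.n l12797 (nat_lit 6722) (nat_lit 8) (nat_lit 5))
    (@En.n l217 (nat_lit 4983) (nat_lit 5) (nat_lit 11))
    (@En.i (nat_lit 4982) (nat_lit 7) (nat_lit 11))
    (@En.n l613 (nat_lit 1442) (nat_lit 12) (nat_lit 8))
    (@En.n l28 (nat_lit 4984) (nat_lit 15) (nat_lit 2))))
  (@Cl.mk (nat_lit 0x20007000a000400080008000b000e000600020009000500080008000e000c) (nat_lit 0x101237002060c9) (nat_lit 16) Lb.e (@T16.mk En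
    (@En.n l134 (nat_lit 1882) (nat_lit 10) (nat_lit 12))
    (@En.n l5144 (nat_lit 1473) (nat_lit 11) (nat_lit 14))
    (@En.n l13243 (nat_lit 4988) (nat_lit 2) (nat_lit 8))
    (@En.n l13244 (nat_lit 5374) (nat_lit 3) (nat_lit 8))
    (@En.n l2593 (nat_lit 4981) (nat_lit 14) (nat_lit 5))
    (@En.n l1738 (nat_lit 4986) (nat_lit 5) (nat_lit 9))
    (@En.n l18 (nat_lit 4985) (nat_lit 6) (nat_lit 2))
    (@En.i (nat_lit 4986) (nat_lit 7) (nat_lit 6))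
    (@En.n l1643 (nat_lit 12530) (nat_lit 9) (nat_lit 14))
    (@En.n l3 (nat_lit 4983) (nat_lit 2) (nat_lit 11))
    (@En.n l527 (nat_lit 4983) (nat_lit 3) (nat_lit 8))
    (@En.i (nat_lit 339) (nat_lit 4) (nat_lit 8))
    (@En.i (nat_lit 6700) (nat_lit 5) (nat_lit 4))
    (@En.i (nat_lit 929) (nat_lit 8) (nat_lit 10))
    (@En.n l6148 (nat_lit 1447) (nat_lit 7) (nat_lit 7))
    (@En.n l28 (nat_lit 4985) (nat_lit 15) (nat_lit 2))))
  (@Cl.mk (nat_lit 0x20007000a000a000500090009000c000600060009000400070007000e000b) (nat_lit 0x720123001000b8) (nat_lit 16) Lb.e (@T16.mk En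
    (@En.i (nat_lit 1880) (nat_lit 12) (nat_lit 11))
    (@En.n l21925 (nat_lit 1437) (nat_lit 1) (nat_lit 14))
    (@En.n l21926 (nat_lit 4989) (nat_lit 2) (nat_lit 7))
    (@En.n l21927 (nat_lit 5373) (nat_lit 3) (nat_lit 7))
    (@En.n l387 (nat_lit 4875) (nat_lit 4) (nat_lit 4))
    (@En.n l21928 (nat_lit 4874) (nat_lit 9) (nat_lit 9))
    (@En.n l21929 (nat_lit 4874) (nat_lit 10) (nat_lit 6))
    (@En.n l1643 (nat_lit 4535) (nat_lit 7) (nat_lit 6))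
    (@En.n l3 (nat_lit 4984) (nat_lit 9) (nat_lit 12))
    (@En.n l527 (nat_lit 4984) (nat_lit 10) (nat_lit 9))
    (@En.n l613 (nat_lit 340) (nat_lit 11) (nat_lit 9))
    (@En.n l21930 (nat_lit 6726) (nat_lit 12) (nat_lit 5))
    (@En.n l217 (nat_lit 4985) (nat_lit 13) (nat_lit 10))
    (@En.i (nat_lit 4981) (nat_lit 8) (nat_lit 10))
    (@En.n l613 (nat_lit 1408) (nat_lit 2) (nat_lit 7))
    (@En.n l28 (nat_lit 4986) (nat_lit 15) (nat_lit 2))))
  (@Cl.mk (nat_lit 0x20006000a000d000500080003000e00060002000e000a00020008000e000b) (nat_lit 0x12050c00280289) (nat_lit 16) Lb.e (@T16.mk En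
    (@En.n l10283 (nat_lit 4984) (nat_lit 13) (nat_lit 11))
    (@En.n l601 (nat_lit 4971) (nat_lit 1) (nat_lit 14))
    (@En.n l2036 (nat_lit 1441) (nat_lit 2) (nat_lit 8))
    (@En.n l11 (nat_lit 4987) (nat_lit 3) (nat_lit 2))
    (@En.i (nat_lit 1885) (nat_lit 4) (nat_lit 10))
    (@En.n l1998 (nat_lit 1429) (nat_lit 1) (nat_lit 14))
    (@En.n l3 (nat_lit 4987) (nat_lit 6) (nat_lit 2))
    (@En.i (nat_lit 4874) (nat_lit 7) (nat_lit 6))
    (@En.i (nat_lit 5255) (nat_lit 9) (nat_lit 14))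
    (@En.n l3291 (nat_lit 4871) (nat_lit 9) (nat_lit 3))
    (@En.i (nat_lit 13755) (nat_lit 10) (nat_lit 8))
    (@En.n l2869 (nat_lit 3419) (nat_lit 7) (nat_lit 5))
    (@En.n l2568 (nat_lit 14048) (nat_lit 5) (nat_lit 13))
    (@En.i (nat_lit 357) (nat_lit 10) (nat_lit 10))
    (@En.i (nat_lit 6730) (nat_lit 7) (nat_lit 6))
    (@En.n l50 (nat_lit 4987) (nat_lit 15) (nat_lit 2))))
  (@Cl.mk (nat_lit 0x2000600090004000e00080002000b000e00070002000a00050008000e000c) (nat_lit 0x10420480000685) (nat_lit 16) Lb.e (@T16.mk En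
    (@En.n l644 (nat_lit 4995) (nat_lit 11) (nat_lit 12))
    (@En.n l1337 (nat_lit 1611) (nat_lit 12) (nat_lit 14))
    (@En.n l5125 (nat_lit 5377) (nat_lit 2) (nat_lit 8))
    (@En.n l5126 (nat_lit 4990) (nat_lit 14) (nat_lit 5))
    (@En.n l5127 (nat_lit 4989) (nat_lit 4) (nat_lit 10))
    (@En.n l3 (nat_lit 4988) (nat_lit 5) (nat_lit 2))
    (@En.n l5128 (nat_lit 4989) (nat_lit 6) (nat_lit 7))
    (@En.i (nat_lit 12529) (nat_lit 8) (nat_lit 14))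
    (@En.n l5129 (nat_lit 4985) (nat_lit 9) (nat_lit 11))
    (@En.n l17 (nat_lit 4988) (nat_lit 9) (nat_lit 2))
    (@En.n l5130 (nat_lit 4985) (nat_lit 11) (nat_lit 8))
    (@En.n l1342 (nat_lit 1914) (nat_lit 12) (nat_lit 14))
    (@En.n l5131 (nat_lit 6701) (nat_lit 6) (nat_lit 4))
    (@En.n l3642 (nat_lit 935) (nat_lit 9) (nat_lit 9))
    (@En.n l3645 (nat_lit 1392) (nat_lit 8) (nat_lit 6))
    (@En.n l50 (nat_lit 4988) (nat_lit 15) (nat_lit 2))))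
  (@Cl.mk (nat_lit 0x20006000900090005000e00090002000c00070007000a00040007000e000b) (nat_lit 0x52052040080077) (nat_lit 16) Lb.e (@T16.mk En
    (@En.n l11180 (nat_lit 4993) (nat_lit 8) (nat_lit 11))
    (@En.n l11181 (nat_lit 1507) (nat_lit 1) (nat_lit 14))
    (@En.n l11182 (nat_lit 5375) (nat_lit 2) (nat_lit 7))
    (@En.n l11183 (nat_lit 4991) (nat_lit 3) (nat_lit 4))
    (@En.n l50 (nat_lit 4992) (nat_lit 4) (nat_lit 10))
    (@En.n l217 (nat_lit 4992) (nat_lit 5) (nat_lit 7))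
    (@En.n l11184 (nat_lit 4555) (nat_lit 6) (nat_lit 7))
    (@En.n l11185 (nat_lit 4986) (nat_lit 8) (nat_lit 12))
    (@En.n l3 (nat_lit 4989) (nat_lit 8) (nat_lit 2))
    (@En.n l11186 (nat_lit 4986) (nat_lit 10) (nat_lit 9))
    (@En.n l10022 (nat_lit 1688) (nat_lit 11) (nat_lit 14))
    (@En.n l11187 (nat_lit 6728) (nat_lit 2) (nat_lit 5))
    (@En.n l11188 (nat_lit 4988) (nat_lit 13) (nat_lit 9))
    (@En.n l11189 (nat_lit 4990) (nat_lit 9) (nat_lit 9))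
    (@En.n l11190 (nat_lit 1405) (nat_lit 5) (nat_lit 6))
    (@En.n l28 (nat_lit 4989) (nat_lit 15) (nat_lit 2))))
  (@Cl.mk (nat_lit 0x200050008000e000c0002000900080004000e00080002000b0007000e0008) (nat_lit 0x18804105204095) (nat_lit 16) Lb.e (@T16.mk En
    (@En.n l1641 (nat_lit 4991) (nat_lit 5) (nat_lit 8))
    (@En.n l1642 (nat_lit 4988) (nat_lit 7) (nat_lit 14))
    (@En.n l1643 (nat_lit 5226) (nat_lit 14) (nat_lit 7))
    (@En.n l526 (nat_lit 4981) (nat_lit 3) (nat_lit 11))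
    (@En.n l107 (nat_lit 4990) (nat_lit 4) (nat_lit 2))
    (@En.n l527 (nat_lit 4981) (nat_lit 5) (nat_lit 8))
    (@En.n l1644 (nat_lit 1703) (nat_lit 7) (nat_lit 14))
    (@En.n l1645 (nat_lit 6968) (nat_lit 7) (nat_lit 4))
    (@En.n l1646 (nat_lit 706) (nat_lit 14) (nat_lit 8))
    (@En.n l1647 (nat_lit 6512) (nat_lit 10) (nat_lit 9))
    (@En.n l28 (nat_lit 4990) (nat_lit 10) (nat_lit 2))
    (@En.n l1648 (nat_lit 4996) (nat_lit 12) (nat_lit 12))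
    (@En.n l1649 (nat_lit 1610) (nat_lit 13) (nat_lit 14))
    (@En.n l1646 (nat_lit 4128) (nat_lit 2) (nat_lit 8))
    (@En.n l1650 (nat_lit 4914) (nat_lit 3) (nat_lit 5))
    (@En.n l17 (nat_lit 4990) (nat_lit 15) (nat_lit 2))))
  (@Cl.mk (nat_lit 0x20008000800080005000e00090002000c00080008000800040007000e000b) (nat_lit 0x552062045420077) (nat_lit 16) Lb.e (@T16.mk En
    (@En.n l77 (nat_lit 4978) (nat_lit 8) (nat_lit 11))
    (@En.n l5105 (nat_lit 1609) (nat_lit 1) (nat_lit 14))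
    (@En.i (nat_lit 4135) (nat_lit 2) (nat_lit 7))
    (@En.n l5106 (nat_lit 4880) (nat_lit 3) (nat_lit 4))
    (@En.n l5107 (nat_lit 4872) (nat_lit 8) (nat_lit 8))
    (@En.n l5108 (nat_lit 4975) (nat_lit 8) (nat_lit 8))
    (@En.n l5109 (nat_lit 5224) (nat_lit 6) (nat_lit 8))
    (@En.n l5110 (nat_lit 4875) (nat_lit 8) (nat_lit 12))
    (@En.n l18 (nat_lit 4991) (nat_lit 8) (nat_lit 2))
    (@En.n l5111 (nat_lit 4875) (nat_lit 10) (nat_lit 9))
    (@En.n l5112 (nat_lit 1699) (nat_lit 11) (nat_lit 14))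
    (@En.n l5113 (nat_lit 5115) (nat_lit 2) (nat_lit 5))
    (@En.n l5114 (nat_lit 4990) (nat_lit 8) (nat_lit 8))
    (@En.n l5115 (nat_lit 4914) (nat_lit 14) (nat_lit 8))
    (@En.n l4048 (nat_lit 5287) (nat_lit 5) (nat_lit 8))
    (@En.n l7 (nat_lit 4991) (nat_lit 15) (nat_lit 2))))
noncomputable def a312 : T16 Cl := @T16.mk Cl
  (@Cl.mk (nat_lit 0x20006000e000900020006000e000a0002000d0007000a00030006000e000a) (nat_lit 0x660062040700a6) (nat_lit 16) Lb.e (@T16.mk En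
    (@En.n l9539 (nat_lit 4994) (nat_lit 4) (nat_lit 10))
    (@En.n l862 (nat_lit 1872) (nat_lit 6) (nat_lit 14))
    (@En.n l1011 (nat_lit 5378) (nat_lit 2) (nat_lit 6))
    (@En.n l9540 (nat_lit 4872) (nat_lit 7) (nat_lit 3))
    (@En.i (nat_lit 13754) (nat_lit 8) (nat_lit 10))
    (@En.n l1002 (nat_lit 4556) (nat_lit 5) (nat_lit 7))
    (@En.n l1003 (nat_lit 4874) (nat_lit 11) (nat_lit 13))
    (@En.n l3 (nat_lit 4992) (nat_lit 7) (nat_lit 2))
    (@En.n l1004 (nat_lit 4874) (nat_lit 13) (nat_lit 10))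
    (@En.i (nat_lit 1689) (nat_lit 10) (nat_lit 14))
    (@En.i (nat_lit 6738) (nat_lit 2) (nat_lit 6))
    (@En.n l18 (nat_lit 4992) (nat_lit 11) (nat_lit 2))
    (@En.i (nat_lit 4989) (nat_lit 13) (nat_lit 9))
    (@En.n l396 (nat_lit 4975) (nat_lit 1) (nat_lit 14))
    (@En.n l5796 (nat_lit 1402) (nat_lit 2) (nat_lit 6))
    (@En.n l28 (nat_lit 4992) (nat_lit 15) (nat_lit 2))))
  (@Cl.mk (nat_lit 0x2000c00080008000b00040007000b000b00050008000800050005000e0009) (nat_lit 0x833000660440053) (nat_lit 16) Lb.e (@T16.mk En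
    (@En.n l24798 (nat_lit 1880) (nat_lit 5) (nat_lit 9))
    (@En.n l4871 (nat_lit 1711) (nat_lit 1) (nat_lit 14))
    (@En.n l5128 (nat_lit 4989) (nat_lit 11) (nat_lit 5))
    (@En.n l24799 (nat_lit 5389) (nat_lit 3) (nat_lit 5))
    (@En.n l152 (nat_lit 4995) (nat_lit 8) (nat_lit 8))
    (@En.n l5891 (nat_lit 4996) (nat_lit 10) (nat_lit 8))
    (@En.n l14493 (nat_lit 1460) (nat_lit 6) (nat_lit 5))
    (@En.n l24800 (nat_lit 1879) (nat_lit 8) (nat_lit 11))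
    (@En.n l97 (nat_lit 2304) (nat_lit 9) (nat_lit 11))
    (@En.n l5891 (nat_lit 5141) (nat_lit 11) (nat_lit 7))
    (@En.n l10730 (nat_lit 4978) (nat_lit 10) (nat_lit 4))
    (@En.n l24801 (nat_lit 4994) (nat_lit 7) (nat_lit 11))
    (@En.n l24802 (nat_lit 4994) (nat_lit 8) (nat_lit 8))
    (@En.n l97 (nat_lit 4534) (nat_lit 14) (nat_lit 8))
    (@En.n l10333 (nat_lit 1880) (nat_lit 3) (nat_lit 12))
    (@En.n l17 (nat_lit 4993) (nat_lit 15) (nat_lit 2))))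
  (@Cl.mk (nat_lit 0x200060006000e000a0002000d0008000b00030006000a000a0005000e0008) (nat_lit 0x6308290055055) (nat_lit 16) Lb.e (@T16.mk En
    (@En.n l17475 (nat_lit 4993) (nat_lit 5) (nat_lit 8))
    (@En.n l17476 (nat_lit 4974) (nat_lit 1) (nat_lit 14))
    (@En.n l117 (nat_lit 1457) (nat_lit 2) (nat_lit 5))
    (@En.n l2593 (nat_lit 5008) (nat_lit 9) (nat_lit 10))
    (@En.n l387 (nat_lit 2367) (nat_lit 4) (nat_lit 10))
    (@En.n l2382 (nat_lit 5144) (nat_lit 5) (nat_lit 6))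
    (@En.n l3 (nat_lit 4940) (nat_lit 6) (nat_lit 3))
    (@En.n l3923 (nat_lit 13748) (nat_lit 7) (nat_lit 11))
    (@En.i (nat_lit 4553) (nat_lit 14) (nat_lit 8))
    (@En.n l17477 (nat_lit 1884) (nat_lit 10) (nat_lit 13))
    (@En.n l18 (nat_lit 4994) (nat_lit 10) (nat_lit 2))
    (@En.n l17478 (nat_lit 1884) (nat_lit 12) (nat_lit 10))
    (@En.n l2382 (nat_lit 1713) (nat_lit 13) (nat_lit 14))
    (@En.n l10154 (nat_lit 4992) (nat_lit 10) (nat_lit 6))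
    (@En.n l3927 (nat_lit 5390) (nat_lit 3) (nat_lit 6))
    (@En.n l28 (nat_lit 4994) (nat_lit 15) (nat_lit 2))))
  (@Cl.mk (nat_lit 0x2000b00050008000c000c0005000800040004000e00080002000b000e0008) (nat_lit 0x106470300430754) (nat_lit 16) Lb.e (@T16.mk En
    (@En.i (nat_lit 4993) (nat_lit 13) (nat_lit 8))
    (@En.i (nat_lit 12531) (nat_lit 4) (nat_lit 14))
    (@En.n l9538 (nat_lit 1882) (nat_lit 2) (nat_lit 11))
    (@En.n l17 (nat_lit 4995) (nat_lit 3) (nat_lit 2))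
    (@En.n l13004 (nat_lit 1882) (nat_lit 4) (nat_lit 8))
    (@En.n l1559 (nat_lit 1712) (nat_lit 1) (nat_lit 14))
    (@En.i (nat_lit 4988) (nat_lit 12) (nat_lit 4))
    (@En.n l4415 (nat_lit 5007) (nat_lit 7) (nat_lit 4))
    (@En.i (nat_lit 704) (nat_lit 10) (nat_lit 8))
    (@En.i (nat_lit 2001) (nat_lit 5) (nat_lit 5))
    (@En.n l644 (nat_lit 5000) (nat_lit 7) (nat_lit 12))
    (@En.i (nat_lit 2335) (nat_lit 8) (nat_lit 12))
    (@En.n l564 (nat_lit 4166) (nat_lit 13) (nat_lit 8))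
    (@En.n l2037 (nat_lit 4996) (nat_lit 14) (nat_lit 5))
    (@En.n l117 (nat_lit 4993) (nat_lit 11) (nat_lit 11))
    (@En.n l3 (nat_lit 4995) (nat_lit 15) (nat_lit 2))))
  (@Cl.mk (nat_lit 0x200050008000c000c0008000700040004000e00080002000b0008000e0009) (nat_lit 0x17430001307467) (nat_lit 16) Lb.e (@T16.mk En
    (@En.n l68 (nat_lit 4978) (nat_lit 12) (nat_lit 9))
    (@En.n l637 (nat_lit 4995) (nat_lit 1) (nat_lit 14))
    (@En.n l637 (nat_lit 5223) (nat_lit 14) (nat_lit 8))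
    (@En.n l4986 (nat_lit 4997) (nat_lit 3) (nat_lit 11))
    (@En.n l18 (nat_lit 4996) (nat_lit 4) (nat_lit 2))
    (@En.n l4987 (nat_lit 4997) (nat_lit 5) (nat_lit 8))
    (@En.n l2438 (nat_lit 499) (nat_lit 7) (nat_lit 14))
    (@En.n l4988 (nat_lit 4990) (nat_lit 7) (nat_lit 4))
    (@En.n l1587 (nat_lit 5004) (nat_lit 8) (nat_lit 4))
    (@En.i (nat_lit 707) (nat_lit 4) (nat_lit 7))
    (@En.n l2438 (nat_lit 6904) (nat_lit 11) (nat_lit 8))
    (@En.n l77 (nat_lit 4998) (nat_lit 12) (nat_lit 12))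
    (@En.n l639 (nat_lit 2341) (nat_lit 13) (nat_lit 12))
    (@En.i (nat_lit 4129) (nat_lit 14) (nat_lit 8))
    (@En.n l730 (nat_lit 4915) (nat_lit 13) (nat_lit 5))
    (@En.n l67 (nat_lit 4996) (nat_lit 15) (nat_lit 2))))
  (@Cl.mk (nat_lit 0x2000500080008000c000c000900080004000400080008000b0007000e0008) (nat_lit 0x52887300236014) (nat_lit 16) Lb.e (@T16.mk En
    (@En.n l13023 (nat_lit 4917) (nat_lit 1) (nat_lit 8))
    (@En.n l9760 (nat_lit 1882) (nat_lit 1) (nat_lit 14))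
    (@En.n l1643 (nat_lit 4837) (nat_lit 2) (nat_lit 7))
    (@En.n l3 (nat_lit 5002) (nat_lit 3) (nat_lit 11))
    (@En.n l527 (nat_lit 5002) (nat_lit 4) (nat_lit 8))
    (@En.n l287 (nat_lit 914) (nat_lit 5) (nat_lit 8))
    (@En.n l55 (nat_lit 4981) (nat_lit 6) (nat_lit 4))
    (@En.n l12101 (nat_lit 5003) (nat_lit 7) (nat_lit 4))
    (@En.n l11174 (nat_lit 701) (nat_lit 8) (nat_lit 8))
    (@En.n l134 (nat_lit 6902) (nat_lit 10) (nat_lit 9))
    (@En.n l9196 (nat_lit 4999) (nat_lit 11) (nat_lit 12))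
    (@En.n l9765 (nat_lit 2470) (nat_lit 12) (nat_lit 12))
    (@En.n l1648 (nat_lit 4996) (nat_lit 13) (nat_lit 8))
    (@En.n l11174 (nat_lit 5731) (nat_lit 14) (nat_lit 8))
    (@En.n l13024 (nat_lit 4913) (nat_lit 13) (nat_lit 5))
    (@En.n l17 (nat_lit 4997) (nat_lit 15) (nat_lit 2))))
  (@Cl.mk (nat_lit 0x200050008000c00070006000e00040002000e00080002000b0009000e000a) (nat_lit 0x3004002408753) (nat_lit 16) Lb.e (@T16.mk En
    (@En.n l68 (nat_lit 4945) (nat_lit 12) (nat_lit 10))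
    (@En.n l637 (nat_lit 5000) (nat_lit 13) (nat_lit 14))
    (@En.n l638 (nat_lit 5220) (nat_lit 14) (nat_lit 9))
    (@En.n l1738 (nat_lit 4999) (nat_lit 3) (nat_lit 11))
    (@En.n l18 (nat_lit 4998) (nat_lit 4) (nat_lit 2))
    (@En.i (nat_lit 4999) (nat_lit 5) (nat_lit 8))
    (@En.i (nat_lit 1453) (nat_lit 7) (nat_lit 14))
    (@En.n l7 (nat_lit 4998) (nat_lit 7) (nat_lit 2))
    (@En.i (nat_lit 4996) (nat_lit 8) (nat_lit 4))
    (@En.n l4940 (nat_lit 2450) (nat_lit 10) (nat_lit 14))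
    (@En.i (nat_lit 702) (nat_lit 5) (nat_lit 6))
    (@En.i (nat_lit 5041) (nat_lit 12) (nat_lit 7))
    (@En.n l639 (nat_lit 2233) (nat_lit 13) (nat_lit 12))
    (@En.i (nat_lit 5832) (nat_lit 14) (nat_lit 8))
    (@En.n l197 (nat_lit 4955) (nat_lit 13) (nat_lit 5))
    (@En.n l67 (nat_lit 4998) (nat_lit 15) (nat_lit 2))))
  (@Cl.mk (nat_lit 0x2000500080008000c00080007000e0004000200080008000b0008000e0009) (nat_lit 0x51750400337613) (nat_lit 16) Lb.e (@T16.mk En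
    (@En.n l68 (nat_lit 4943) (nat_lit 10) (nat_lit 9))
    (@En.n l831 (nat_lit 1878) (nat_lit 11) (nat_lit 14))
    (@En.n l638 (nat_lit 4839) (nat_lit 12) (nat_lit 8))
    (@En.n l6004 (nat_lit 5001) (nat_lit 3) (nat_lit 11))
    (@En.n l6005 (nat_lit 5001) (nat_lit 4) (nat_lit 8))
    (@En.n l6006 (nat_lit 985) (nat_lit 5) (nat_lit 8))
    (@En.n l7 (nat_lit 4999) (nat_lit 6) (nat_lit 2))
    (@En.n l4987 (nat_lit 4997) (nat_lit 7) (nat_lit 4))
    (@En.n l6007 (nat_lit 2128) (nat_lit 9) (nat_lit 14))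
    (@En.i (nat_lit 703) (nat_lit 2) (nat_lit 7))
    (@En.i (nat_lit 5040) (nat_lit 11) (nat_lit 8))
    (@En.n l2698 (nat_lit 2472) (nat_lit 12) (nat_lit 12))
    (@En.n l217 (nat_lit 4998) (nat_lit 13) (nat_lit 8))
    (@En.i (nat_lit 5735) (nat_lit 14) (nat_lit 8))
    (@En.n l197 (nat_lit 4918) (nat_lit 7) (nat_lit 5))
    (@En.n l67 (nat_lit 4999) (nat_lit 15) (nat_lit 2))))
  (@Cl.mk (nat_lit 0x2000b000e00090002000c00050008000c00040007000e00040002000e0008) (nat_lit 0x841010660040014) (nat_lit 16) Lb.e (@T16.mk En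
    (@En.n l1353 (nat_lit 1878) (nat_lit 14) (nat_lit 8))
    (@En.i (nat_lit 1454) (nat_lit 1) (nat_lit 14))
    (@En.n l50 (nat_lit 5000) (nat_lit 2) (nat_lit 2))
    (@En.i (nat_lit 4995) (nat_lit 7) (nat_lit 4))
    (@En.n l2036 (nat_lit 2458) (nat_lit 1) (nat_lit 14))
    (@En.i (nat_lit 711) (nat_lit 11) (nat_lit 7))
    (@En.i (nat_lit 2089) (nat_lit 6) (nat_lit 4))
    (@En.i (nat_lit 2373) (nat_lit 8) (nat_lit 12))
    (@En.n l2036 (nat_lit 5134) (nat_lit 13) (nat_lit 8))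
    (@En.n l2037 (nat_lit 4998) (nat_lit 14) (nat_lit 5))
    (@En.i (nat_lit 1879) (nat_lit 11) (nat_lit 12))
    (@En.n l3 (nat_lit 5000) (nat_lit 11) (nat_lit 2))
    (@En.n l97 (nat_lit 1879) (nat_lit 13) (nat_lit 9))
    (@En.i (nat_lit 12533) (nat_lit 4) (nat_lit 14))
    (@En.i (nat_lit 1878) (nat_lit 12) (nat_lit 11))
    (@En.n l17 (nat_lit 5000) (nat_lit 15) (nat_lit 2))))
  (@Cl.mk (nat_lit 0x20005000e00080002000c00090008000e000400020008000b0007000e0008) (nat_lit 0x96057160026013) (nat_lit 16) Lb.e (@T16.mk En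
    (@En.n l9192 (nat_lit 4944) (nat_lit 11) (nat_lit 8))
    (@En.n l8321 (nat_lit 1877) (nat_lit 12) (nat_lit 14))
    (@En.n l8322 (nat_lit 4832) (nat_lit 13) (nat_lit 7))
    (@En.i (nat_lit 13476) (nat_lit 7) (nat_lit 11))
    (@En.n l9193 (nat_lit 918) (nat_lit 4) (nat_lit 8))
    (@En.n l28 (nat_lit 5001) (nat_lit 5) (nat_lit 2))
    (@En.n l55 (nat_lit 5002) (nat_lit 6) (nat_lit 4))
    (@En.n l8322 (nat_lit 2125) (nat_lit 8) (nat_lit 14))
    (@En.n l9194 (nat_lit 698) (nat_lit 2) (nat_lit 8))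
    (@En.n l9195 (nat_lit 5039) (nat_lit 10) (nat_lit 9))
    (@En.n l8327 (nat_lit 2471) (nat_lit 11) (nat_lit 12))
    (@En.n l107 (nat_lit 5001) (nat_lit 11) (nat_lit 2))
    (@En.n l9196 (nat_lit 4999) (nat_lit 13) (nat_lit 8))
    (@En.n l9197 (nat_lit 5711) (nat_lit 1) (nat_lit 14))
    (@En.n l9198 (nat_lit 5022) (nat_lit 8) (nat_lit 5))
    (@En.n l17 (nat_lit 5001) (nat_lit 15) (nat_lit 2))))
  (@Cl.mk (nat_lit 0x20005000e00080002000c000c000a0009000400040008000b0006000e0007) (nat_lit 0xc6096810025010) (nat_lit 16) Lb.e (@T16.mk En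
    (@En.n l50 (nat_lit 4970) (nat_lit 4) (nat_lit 7))
    (@En.n l9760 (nat_lit 1883) (nat_lit 1) (nat_lit 14))
    (@En.n l1643 (nat_lit 4838) (nat_lit 2) (nat_lit 6))
    (@En.i (nat_lit 13475) (nat_lit 7) (nat_lit 11))
    (@En.n l287 (nat_lit 912) (nat_lit 4) (nat_lit 8))
    (@En.n l55 (nat_lit 4982) (nat_lit 5) (nat_lit 4))
    (@En.n l11665 (nat_lit 5005) (nat_lit 6) (nat_lit 4))
    (@En.n l9762 (nat_lit 921) (nat_lit 12) (nat_lit 9))
    (@En.n l134 (nat_lit 6901) (nat_lit 9) (nat_lit 10))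
    (@En.i (nat_lit 5001) (nat_lit 10) (nat_lit 12))
    (@En.i (nat_lit 2473) (nat_lit 11) (nat_lit 12))
    (@En.n l107 (nat_lit 5002) (nat_lit 11) (nat_lit 2))
    (@En.i (nat_lit 4997) (nat_lit 13) (nat_lit 8))
    (@En.n l97 (nat_lit 5713) (nat_lit 1) (nat_lit 14))
    (@En.n l617 (nat_lit 4911) (nat_lit 13) (nat_lit 5))
    (@En.n l17 (nat_lit 5002) (nat_lit 15) (nat_lit 2))))
  (@Cl.mk (nat_lit 0x2000500080008000c0006000d000a0004000300080008000b0006000e000a) (nat_lit 0x50408200000040) (nat_lit 16) Lb.e (@T16.mk En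
    (@En.n l1144 (nat_lit 6593) (nat_lit 10) (nat_lit 10))
    (@En.n l11 (nat_lit 5006) (nat_lit 1) (nat_lit 14))
    (@En.n l23481 (nat_lit 9505) (nat_lit 2) (nat_lit 6))
    (@En.n l23482 (nat_lit 5005) (nat_lit 3) (nat_lit 11))
    (@En.n l23483 (nat_lit 5005) (nat_lit 4) (nat_lit 8))
    (@En.n l23484 (nat_lit 11257) (nat_lit 5) (nat_lit 8))
    (@En.n l10618 (nat_lit 6596) (nat_lit 6) (nat_lit 3))
    (@En.n l23485 (nat_lit 4999) (nat_lit 7) (nat_lit 4))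
    (@En.n l7126 (nat_lit 6899) (nat_lit 9) (nat_lit 10))
    (@En.n l23486 (nat_lit 2126) (nat_lit 10) (nat_lit 13))
    (@En.n l23487 (nat_lit 1743) (nat_lit 11) (nat_lit 6))
    (@En.n l23488 (nat_lit 6416) (nat_lit 12) (nat_lit 12))
    (@En.n l17 (nat_lit 5004) (nat_lit 13) (nat_lit 8))
    (@En.n l23485 (nat_lit 6980) (nat_lit 10) (nat_lit 8))
    (@En.n l23489 (nat_lit 1925) (nat_lit 13) (nat_lit 5))
    (@En.n l1157 (nat_lit 5003) (nat_lit 15) (nat_lit 2))))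
  (@Cl.mk (nat_lit 0x200050008000c0005000d000900040003000e00080002000b0007000e000b) (nat_lit 0x64082008101050) (nat_lit 16) Lb.e (@T16.mk En
    (@En.n l1144 (nat_lit 6599) (nat_lit 12) (nat_lit 11))
    (@En.n l11 (nat_lit 5007) (nat_lit 1) (nat_lit 14))
    (@En.n l1483 (nat_lit 9504) (nat_lit 14) (nat_lit 7))
    (@En.i (nat_lit 5003) (nat_lit 3) (nat_lit 11))
    (@En.n l18 (nat_lit 5004) (nat_lit 4) (nat_lit 2))
    (@En.n l5 (nat_lit 5003) (nat_lit 5) (nat_lit 8))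
    (@En.n l7126 (nat_lit 7178) (nat_lit 7) (nat_lit 14))
    (@En.n l2385 (nat_lit 6969) (nat_lit 7) (nat_lit 3))
    (@En.n l4489 (nat_lit 4998) (nat_lit 8) (nat_lit 4))
    (@En.n l7126 (nat_lit 6903) (nat_lit 10) (nat_lit 9))
    (@En.n l11993 (nat_lit 2131) (nat_lit 11) (nat_lit 13))
    (@En.n l4489 (nat_lit 1745) (nat_lit 6) (nat_lit 5))
    (@En.n l5435 (nat_lit 6411) (nat_lit 13) (nat_lit 12))
    (@En.n l4489 (nat_lit 6975) (nat_lit 14) (nat_lit 8))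
    (@En.n l2263 (nat_lit 5960) (nat_lit 9) (nat_lit 5))
    (@En.n l1157 (nat_lit 5004) (nat_lit 15) (nat_lit 2))))
  (@Cl.mk (nat_lit 0x20005000e00080002000c0007000d000b000400030008000b0005000e0009) (nat_lit 0x6060a20069030) (nat_lit 16) Lb.e (@T16.mk En
    (@En.n l2240 (nat_lit 6594) (nat_lit 4) (nat_lit 9))
    (@En.n l8115 (nat_lit 6716) (nat_lit 1) (nat_lit 14))
    (@En.n l10191 (nat_lit 9514) (nat_lit 2) (nat_lit 5))
    (@En.n l10192 (nat_lit 13932) (nat_lit 7) (nat_lit 11))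
    (@En.n l3623 (nat_lit 11256) (nat_lit 4) (nat_lit 8))
    (@En.n l50 (nat_lit 6719) (nat_lit 5) (nat_lit 3))
    (@En.n l10193 (nat_lit 5001) (nat_lit 6) (nat_lit 4))
    (@En.n l10194 (nat_lit 6900) (nat_lit 8) (nat_lit 11))
    (@En.n l877 (nat_lit 2127) (nat_lit 9) (nat_lit 13))
    (@En.n l2240 (nat_lit 5360) (nat_lit 14) (nat_lit 7))
    (@En.n l6459 (nat_lit 8144) (nat_lit 11) (nat_lit 12))
    (@En.n l11 (nat_lit 5005) (nat_lit 11) (nat_lit 2))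
    (@En.n l10195 (nat_lit 5003) (nat_lit 13) (nat_lit 8))
    (@En.n l3953 (nat_lit 5717) (nat_lit 1) (nat_lit 14))
    (@En.i (nat_lit 5025) (nat_lit 13) (nat_lit 5))
    (@En.n l3 (nat_lit 5005) (nat_lit 15) (nat_lit 2))))
  (@Cl.mk (nat_lit 0x20009000500080008000c0007000d00070004000300080008000b000e0009) (nat_lit 0x600250100000030) (nat_lit 16) Lb.e (@T16.mk En
    (@En.n l68 (nat_lit 6692) (nat_lit 11) (nat_lit 9))
    (@En.n l35939 (nat_lit 11358) (nat_lit 4) (nat_lit 14))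
    (@En.n l35940 (nat_lit 6716) (nat_lit 2) (nat_lit 11))
    (@En.n l9203 (nat_lit 6716) (nat_lit 3) (nat_lit 8))
    (@En.n l25166 (nat_lit 11258) (nat_lit 4) (nat_lit 8))
    (@En.n l24336 (nat_lit 6698) (nat_lit 5) (nat_lit 3))
    (@En.n l638 (nat_lit 1878) (nat_lit 0) (nat_lit 4))
    (@En.n l4555 (nat_lit 1998) (nat_lit 7) (nat_lit 7))
    (@En.n l255 (nat_lit 2132) (nat_lit 9) (nat_lit 13))
    (@En.n l6781 (nat_lit 1739) (nat_lit 3) (nat_lit 7))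
    (@En.n l638 (nat_lit 2623) (nat_lit 11) (nat_lit 12))
    (@En.n l17 (nat_lit 5007) (nat_lit 12) (nat_lit 8))
    (@En.n l1065 (nat_lit 6562) (nat_lit 13) (nat_lit 8))
    (@En.n l3015 (nat_lit 5003) (nat_lit 14) (nat_lit 5))
    (@En.n l8015 (nat_lit 5388) (nat_lit 0) (nat_lit 9))
    (@En.n l67 (nat_lit 5006) (nat_lit 15) (nat_lit 2))))
  (@Cl.mk (nat_lit 0x2000a00050008000c0006000d000600040003000e00080002000b000e000a) (nat_lit 0x801401000010140) (nat_lit 16) Lb.e (@T16.mk En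
    (@En.n l68 (nat_lit 6690) (nat_lit 13) (nat_lit 10))
    (@En.n l638 (nat_lit 11363) (nat_lit 4) (nat_lit 14))
    (@En.i (nat_lit 5006) (nat_lit 2) (nat_lit 11))
    (@En.n l18 (nat_lit 5007) (nat_lit 3) (nat_lit 2))
    (@En.n l5 (nat_lit 5006) (nat_lit 4) (nat_lit 8))
    (@En.n l3082 (nat_lit 7181) (nat_lit 1) (nat_lit 14))
    (@En.i (nat_lit 6697) (nat_lit 6) (nat_lit 3))
    (@En.n l638 (nat_lit 5000) (nat_lit 3) (nat_lit 4))
    (@En.i (nat_lit 1999) (nat_lit 8) (nat_lit 6))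
    (@En.n l255 (nat_lit 2452) (nat_lit 10) (nat_lit 13))
    (@En.i (nat_lit 1740) (nat_lit 6) (nat_lit 6))
    (@En.n l638 (nat_lit 6410) (nat_lit 12) (nat_lit 12))
    (@En.n l255 (nat_lit 3054) (nat_lit 13) (nat_lit 8))
    (@En.n l3015 (nat_lit 5004) (nat_lit 14) (nat_lit 5))
    (@En.n l8015 (nat_lit 5389) (nat_lit 11) (nat_lit 10))
    (@En.n l67 (nat_lit 5007) (nat_lit 15) (nat_lit 2))))
noncomputable def a313 : T16 Cl := @T16.mk Cl
  (@Cl.mk (nat_lit 0x2000d0009000c00030006000a0004000e00070002000e00060002000e000a) (nat_lit 0xa7a004040060073) (nat_lit 16) Lb.e (@T16.mk En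
    (@En.n l1353 (nat_lit 1874) (nat_lit 14) (nat_lit 10))
    (@En.n l2469 (nat_lit 1747) (nat_lit 1) (nat_lit 14))
    (@En.n l50 (nat_lit 5008) (nat_lit 2) (nat_lit 2))
    (@En.n l564 (nat_lit 4994) (nat_lit 14) (nat_lit 6))
    (@En.n l755 (nat_lit 3462) (nat_lit 1) (nat_lit 14))
    (@En.n l28 (nat_lit 5008) (nat_lit 5) (nat_lit 2))
    (@En.n l1177 (nat_lit 1879) (nat_lit 6) (nat_lit 7))
    (@En.n l2379 (nat_lit 4979) (nat_lit 1) (nat_lit 14))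
    (@En.n l117 (nat_lit 2090) (nat_lit 8) (nat_lit 4))
    (@En.i (nat_lit 2372) (nat_lit 3) (nat_lit 10))
    (@En.n l7039 (nat_lit 5147) (nat_lit 12) (nat_lit 6))
    (@En.n l3 (nat_lit 4942) (nat_lit 11) (nat_lit 3))
    (@En.n l7040 (nat_lit 13753) (nat_lit 6) (nat_lit 12))
    (@En.n l7041 (nat_lit 3446) (nat_lit 14) (nat_lit 9))
    (@En.i (nat_lit 1874) (nat_lit 12) (nat_lit 13))
    (@En.n l17 (nat_lit 5008) (nat_lit 15) (nat_lit 2))))
  (@Cl.mk (nat_lit 0x20009000c00060005000a0004000e00070002000e00060002000a000e000b) (nat_lit 0x60700a00683) (nat_lit 16) Lb.e (@T16.mk En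
    (@En.n l16557 (nat_lit 5017) (nat_lit 13) (nat_lit 11))
    (@En.n l6681 (nat_lit 5008) (nat_lit 1) (nat_lit 14))
    (@En.n l3258 (nat_lit 5030) (nat_lit 12) (nat_lit 10))
    (@En.n l3 (nat_lit 5009) (nat_lit 3) (nat_lit 2))
    (@En.n l3258 (nat_lit 5011) (nat_lit 14) (nat_lit 6))
    (@En.n l1162 (nat_lit 7459) (nat_lit 1) (nat_lit 14))
    (@En.n l17 (nat_lit 5009) (nat_lit 6) (nat_lit 2))
    (@En.n l2291 (nat_lit 5010) (nat_lit 7) (nat_lit 7))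
    (@En.n l16558 (nat_lit 5725) (nat_lit 1) (nat_lit 14))
    (@En.n l1824 (nat_lit 1913) (nat_lit 9) (nat_lit 4))
    (@En.n l6681 (nat_lit 6705) (nat_lit 11) (nat_lit 10))
    (@En.n l16558 (nat_lit 5145) (nat_lit 7) (nat_lit 5))
    (@En.n l16559 (nat_lit 8960) (nat_lit 13) (nat_lit 6))
    (@En.i (nat_lit 12850) (nat_lit 6) (nat_lit 12))
    (@En.n l417 (nat_lit 11395) (nat_lit 11) (nat_lit 9))
    (@En.n l11 (nat_lit 5009) (nat_lit 15) (nat_lit 2))))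
  (@Cl.mk (nat_lit 0x200090009000c00070006000b000400070007000e000500020009000e000a) (nat_lit 0x11007000a00573) (nat_lit 16) Lb.e (@T16.mk En
    (@En.n l10951 (nat_lit 5016) (nat_lit 13) (nat_lit 10))
    (@En.n l831 (nat_lit 1879) (nat_lit 1) (nat_lit 14))
    (@En.n l4172 (nat_lit 5031) (nat_lit 2) (nat_lit 9))
    (@En.n l7 (nat_lit 5010) (nat_lit 3) (nat_lit 2))
    (@En.i (nat_lit 5012) (nat_lit 4) (nat_lit 5))
    (@En.n l645 (nat_lit 7460) (nat_lit 6) (nat_lit 14))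
    (@En.n l10703 (nat_lit 5014) (nat_lit 2) (nat_lit 7))
    (@En.i (nat_lit 5735) (nat_lit 11) (nat_lit 7))
    (@En.n l28372 (nat_lit 1911) (nat_lit 4) (nat_lit 4))
    (@En.n l831 (nat_lit 6657) (nat_lit 10) (nat_lit 11))
    (@En.n l217 (nat_lit 4152) (nat_lit 6) (nat_lit 6))
    (@En.n l3824 (nat_lit 8958) (nat_lit 7) (nat_lit 7))
    (@En.n l6762 (nat_lit 5009) (nat_lit 13) (nat_lit 12))
    (@En.n l6763 (nat_lit 5009) (nat_lit 14) (nat_lit 9))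
    (@En.n l12290 (nat_lit 11394) (nat_lit 11) (nat_lit 9))
    (@En.n l17 (nat_lit 5010) (nat_lit 15) (nat_lit 2))))
  (@Cl.mk (nat_lit 0x200060006000a000e000b00020008000b00060005000a000a0005000e0008) (nat_lit 0x37000000370a4) (nat_lit 16) Lb.e (@T16.mk En
    (@En.n l24854 (nat_lit 5012) (nat_lit 6) (nat_lit 8))
    (@En.n l601 (nat_lit 5724) (nat_lit 1) (nat_lit 14))
    (@En.n l6899 (nat_lit 1555) (nat_lit 2) (nat_lit 5))
    (@En.n l11999 (nat_lit 5009) (nat_lit 10) (nat_lit 10))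
    (@En.n l10160 (nat_lit 6870) (nat_lit 4) (nat_lit 10))
    (@En.n l10505 (nat_lit 5142) (nat_lit 5) (nat_lit 5))
    (@En.n l17 (nat_lit 8963) (nat_lit 6) (nat_lit 6))
    (@En.i (nat_lit 13744) (nat_lit 7) (nat_lit 11))
    (@En.n l12001 (nat_lit 11399) (nat_lit 9) (nat_lit 8))
    (@En.n l3 (nat_lit 5011) (nat_lit 9) (nat_lit 2))
    (@En.n l15182 (nat_lit 5020) (nat_lit 11) (nat_lit 11))
    (@En.n l7036 (nat_lit 4994) (nat_lit 12) (nat_lit 14))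
    (@En.i (nat_lit 5032) (nat_lit 13) (nat_lit 10))
    (@En.n l1722 (nat_lit 5372) (nat_lit 14) (nat_lit 6))
    (@En.i (nat_lit 4440) (nat_lit 4) (nat_lit 6))
    (@En.n l50 (nat_lit 5011) (nat_lit 15) (nat_lit 2))))
  (@Cl.mk (nat_lit 0x200080008000b00070006000b000b000500080008000500050009000e000a) (nat_lit 0x11002803000360) (nat_lit 16) Lb.e (@T16.mk En
    (@En.n l10949 (nat_lit 5015) (nat_lit 12) (nat_lit 10))
    (@En.n l830 (nat_lit 4993) (nat_lit 1) (nat_lit 14))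
    (@En.n l38443 (nat_lit 5033) (nat_lit 2) (nat_lit 9))
    (@En.n l38444 (nat_lit 5373) (nat_lit 11) (nat_lit 5))
    (@En.n l38445 (nat_lit 4441) (nat_lit 4) (nat_lit 5))
    (@En.n l10703 (nat_lit 5013) (nat_lit 8) (nat_lit 8))
    (@En.i (nat_lit 5731) (nat_lit 10) (nat_lit 8))
    (@En.n l38446 (nat_lit 1558) (nat_lit 7) (nat_lit 5))
    (@En.n l77 (nat_lit 5010) (nat_lit 9) (nat_lit 11))
    (@En.n l831 (nat_lit 6859) (nat_lit 10) (nat_lit 11))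
    (@En.n l10970 (nat_lit 5139) (nat_lit 10) (nat_lit 6))
    (@En.n l38447 (nat_lit 8962) (nat_lit 12) (nat_lit 7))
    (@En.n l38448 (nat_lit 5011) (nat_lit 7) (nat_lit 11))
    (@En.n l38449 (nat_lit 5011) (nat_lit 8) (nat_lit 8))
    (@En.n l38450 (nat_lit 11398) (nat_lit 6) (nat_lit 8))
    (@En.n l17 (nat_lit 5012) (nat_lit 15) (nat_lit 2))))
  (@Cl.mk (nat_lit 0x2000b00080007000c000c00050008000400040008000e00090002000e0008) (nat_lit 0x260590600450091) (nat_lit 16) Lb.e (@T16.mk En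
    (@En.n l2605 (nat_lit 5012) (nat_lit 14) (nat_lit 8))
    (@En.i (nat_lit 8072) (nat_lit 1) (nat_lit 14))
    (@En.n l17 (nat_lit 5013) (nat_lit 2) (nat_lit 2))
    (@En.n l9569 (nat_lit 5019) (nat_lit 3) (nat_lit 9))
    (@En.i (nat_lit 4995) (nat_lit 5) (nat_lit 14))
    (@En.n l23565 (nat_lit 6452) (nat_lit 5) (nat_lit 8))
    (@En.n l23566 (nat_lit 5374) (nat_lit 12) (nat_lit 4))
    (@En.n l23567 (nat_lit 6562) (nat_lit 7) (nat_lit 4))
    (@En.n l2605 (nat_lit 5444) (nat_lit 10) (nat_lit 8))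
    (@En.n l3879 (nat_lit 1696) (nat_lit 9) (nat_lit 5))
    (@En.n l644 (nat_lit 5014) (nat_lit 4) (nat_lit 12))
    (@En.i (nat_lit 6858) (nat_lit 12) (nat_lit 12))
    (@En.n l4370 (nat_lit 5137) (nat_lit 13) (nat_lit 7))
    (@En.n l23568 (nat_lit 8967) (nat_lit 14) (nat_lit 8))
    (@En.n l9541 (nat_lit 5012) (nat_lit 12) (nat_lit 11))
    (@En.n l3 (nat_lit 5013) (nat_lit 15) (nat_lit 2))))
  (@Cl.mk (nat_lit 0x20008000e00090002000e00090002000c00080007000c00040007000e0004) (nat_lit 0x5230410250800a0) (nat_lit 16) Lb.e (@T16.mk En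
    (@En.i (nat_lit 5013) (nat_lit 7) (nat_lit 4))
    (@En.n l3345 (nat_lit 5809) (nat_lit 1) (nat_lit 14))
    (@En.n l2605 (nat_lit 5450) (nat_lit 2) (nat_lit 7))
    (@En.n l13574 (nat_lit 1912) (nat_lit 3) (nat_lit 4))
    (@En.i (nat_lit 6857) (nat_lit 12) (nat_lit 12))
    (@En.n l4370 (nat_lit 5135) (nat_lit 13) (nat_lit 7))
    (@En.n l2611 (nat_lit 9096) (nat_lit 14) (nat_lit 8))
    (@En.n l9541 (nat_lit 5010) (nat_lit 12) (nat_lit 12))
    (@En.n l3 (nat_lit 5014) (nat_lit 8) (nat_lit 2))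
    (@En.n l2605 (nat_lit 5010) (nat_lit 14) (nat_lit 9))
    (@En.i (nat_lit 8066) (nat_lit 1) (nat_lit 14))
    (@En.n l17 (nat_lit 5014) (nat_lit 11) (nat_lit 2))
    (@En.i (nat_lit 5018) (nat_lit 13) (nat_lit 9))
    (@En.i (nat_lit 5000) (nat_lit 1) (nat_lit 14))
    (@En.n l16837 (nat_lit 6453) (nat_lit 5) (nat_lit 8))
    (@En.n l50 (nat_lit 5014) (nat_lit 15) (nat_lit 2))))
  (@Cl.mk (nat_lit 0x50005000a000a000a00070007000a000600060006000b000b000600090009) (nat_lit 0x28400000037032) (nat_lit 16) Lb.e (@T16.mk En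
    (@En.n l55 (nat_lit 5019) (nat_lit 7) (nat_lit 9))
    (@En.i (nat_lit 5714) (nat_lit 9) (nat_lit 9))
    (@En.n l34796 (nat_lit 1550) (nat_lit 2) (nat_lit 6))
    (@En.n l34797 (nat_lit 5016) (nat_lit 5) (nat_lit 11))
    (@En.n l34798 (nat_lit 5353) (nat_lit 9) (nat_lit 11))
    (@En.n l17954 (nat_lit 5012) (nat_lit 10) (nat_lit 6))
    (@En.n l34799 (nat_lit 7137) (nat_lit 10) (nat_lit 6))
    (@En.n l25946 (nat_lit 8964) (nat_lit 7) (nat_lit 6))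
    (@En.n l34800 (nat_lit 5020) (nat_lit 8) (nat_lit 10))
    (@En.n l34801 (nat_lit 5020) (nat_lit 9) (nat_lit 7))
    (@En.n l34802 (nat_lit 7988) (nat_lit 2) (nat_lit 7))
    (@En.n l61 (nat_lit 5069) (nat_lit 6) (nat_lit 10))
    (@En.n l23169 (nat_lit 5021) (nat_lit 6) (nat_lit 10))
    (@En.n l34798 (nat_lit 7571) (nat_lit 10) (nat_lit 10))
    (@En.n l34803 (nat_lit 5256) (nat_lit 11) (nat_lit 5))
    (@En.n l34804 (nat_lit 6353) (nat_lit 0) (nat_lit 5))))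
  (@Cl.mk (nat_lit 0x2000a000a000a00080008000b000600060006000b000500080008000e0005) (nat_lit 0x5255500006022a0) (nat_lit 16) Lb.e (@T16.mk En
    (@En.n l19048 (nat_lit 5015) (nat_lit 15) (nat_lit 5))
    (@En.n l19049 (nat_lit 5882) (nat_lit 1) (nat_lit 14))
    (@En.n l19050 (nat_lit 5018) (nat_lit 2) (nat_lit 8))
    (@En.n l19051 (nat_lit 5715) (nat_lit 10) (nat_lit 8))
    (@En.n l4112 (nat_lit 1869) (nat_lit 4) (nat_lit 5))
    (@En.n l19052 (nat_lit 5109) (nat_lit 6) (nat_lit 11))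
    (@En.n l10512 (nat_lit 5010) (nat_lit 10) (nat_lit 6))
    (@En.n l19053 (nat_lit 7139) (nat_lit 10) (nat_lit 6))
    (@En.n l4203 (nat_lit 8961) (nat_lit 8) (nat_lit 6))
    (@En.n l4112 (nat_lit 5017) (nat_lit 10) (nat_lit 11))
    (@En.n l19054 (nat_lit 5017) (nat_lit 11) (nat_lit 8))
    (@En.n l19055 (nat_lit 7984) (nat_lit 12) (nat_lit 8))
    (@En.n l19056 (nat_lit 5066) (nat_lit 6) (nat_lit 10))
    (@En.n l19057 (nat_lit 5947) (nat_lit 6) (nat_lit 10))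
    (@En.n l4200 (nat_lit 3184) (nat_lit 14) (nat_lit 10))
    (@En.n l17 (nat_lit 5016) (nat_lit 15) (nat_lit 2))))
  (@Cl.mk (nat_lit 0x2000b000b000b0008000b000500050005000a0005000e00080002000e0006) (nat_lit 0x625490005053080) (nat_lit 16) Lb.e (@T16.mk En
    (@En.n l10762 (nat_lit 5020) (nat_lit 14) (nat_lit 6))
    (@En.n l10763 (nat_lit 5881) (nat_lit 1) (nat_lit 14))
    (@En.n l17 (nat_lit 5017) (nat_lit 2) (nat_lit 2))
    (@En.n l10764 (nat_lit 5016) (nat_lit 3) (nat_lit 8))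
    (@En.n l146 (nat_lit 5722) (nat_lit 1) (nat_lit 14))
    (@En.n l10765 (nat_lit 1870) (nat_lit 5) (nat_lit 5))
    (@En.n l149 (nat_lit 5108) (nat_lit 3) (nat_lit 10))
    (@En.n l10766 (nat_lit 5009) (nat_lit 11) (nat_lit 5))
    (@En.n l10767 (nat_lit 7141) (nat_lit 11) (nat_lit 5))
    (@En.i (nat_lit 8959) (nat_lit 9) (nat_lit 5))
    (@En.n l10765 (nat_lit 12851) (nat_lit 7) (nat_lit 11))
    (@En.n l10768 (nat_lit 7983) (nat_lit 12) (nat_lit 8))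
    (@En.n l10769 (nat_lit 5071) (nat_lit 5) (nat_lit 11))
    (@En.n l10770 (nat_lit 5948) (nat_lit 5) (nat_lit 11))
    (@En.n l10771 (nat_lit 5149) (nat_lit 12) (nat_lit 11))
    (@En.n l67 (nat_lit 5017) (nat_lit 15) (nat_lit 2))))
  (@Cl.mk (nat_lit 0x2000900090009000e00080002000b000700070007000c00050008000e0004) (nat_lit 0x4259601000401a0) (nat_lit 16) Lb.e (@T16.mk En
    (@En.n l9569 (nat_lit 5019) (nat_lit 6) (nat_lit 4))
    (@En.n l3345 (nat_lit 3294) (nat_lit 8) (nat_lit 14))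
    (@En.n l9570 (nat_lit 36) (nat_lit 2) (nat_lit 8))
    (@En.n l9571 (nat_lit 1871) (nat_lit 3) (nat_lit 5))
    (@En.n l9572 (nat_lit 5110) (nat_lit 11) (nat_lit 12))
    (@En.n l61 (nat_lit 5014) (nat_lit 5) (nat_lit 7))
    (@En.n l4370 (nat_lit 7140) (nat_lit 9) (nat_lit 7))
    (@En.n l9573 (nat_lit 8969) (nat_lit 14) (nat_lit 7))
    (@En.n l9574 (nat_lit 5016) (nat_lit 9) (nat_lit 11))
    (@En.n l3 (nat_lit 5018) (nat_lit 9) (nat_lit 2))
    (@En.n l9575 (nat_lit 5016) (nat_lit 11) (nat_lit 8))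
    (@En.i (nat_lit 8070) (nat_lit 12) (nat_lit 14))
    (@En.n l9576 (nat_lit 5067) (nat_lit 2) (nat_lit 9))
    (@En.n l9577 (nat_lit 5946) (nat_lit 7) (nat_lit 9))
    (@En.n l9572 (nat_lit 3185) (nat_lit 4) (nat_lit 9))
    (@En.n l50 (nat_lit 5018) (nat_lit 15) (nat_lit 2))))
  (@Cl.mk (nat_lit 0x2000a000700070007000c000c0006000900040004000900090009000e0007) (nat_lit 0x100065010037480) (nat_lit 16) Lb.e (@T16.mk En
    (@En.i (nat_lit 5015) (nat_lit 10) (nat_lit 7))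
    (@En.n l22154 (nat_lit 8113) (nat_lit 1) (nat_lit 14))
    (@En.n l61 (nat_lit 5068) (nat_lit 2) (nat_lit 9))
    (@En.n l10952 (nat_lit 5905) (nat_lit 7) (nat_lit 9))
    (@En.n l22155 (nat_lit 7570) (nat_lit 4) (nat_lit 9))
    (@En.n l15355 (nat_lit 5259) (nat_lit 12) (nat_lit 4))
    (@En.n l22156 (nat_lit 5911) (nat_lit 6) (nat_lit 4))
    (@En.i (nat_lit 3631) (nat_lit 9) (nat_lit 9))
    (@En.n l4758 (nat_lit 1519) (nat_lit 8) (nat_lit 6))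
    (@En.n l22157 (nat_lit 5018) (nat_lit 4) (nat_lit 12))
    (@En.n l9155 (nat_lit 5354) (nat_lit 11) (nat_lit 12))
    (@En.n l22158 (nat_lit 5013) (nat_lit 12) (nat_lit 7))
    (@En.n l22159 (nat_lit 7138) (nat_lit 9) (nat_lit 7))
    (@En.n l5592 (nat_lit 9097) (nat_lit 14) (nat_lit 7))
    (@En.n l3506 (nat_lit 5015) (nat_lit 8) (nat_lit 10))
    (@En.n l28 (nat_lit 5019) (nat_lit 15) (nat_lit 2))))
  (@Cl.mk (nat_lit 0x200060006000b000b000b0007000a000500050005000a000a0006000e0009) (nat_lit 0x2940800046034) (nat_lit 16) Lb.e (@T16.mk En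
    (@En.n l24248 (nat_lit 5015) (nat_lit 1) (nat_lit 9))
    (@En.n l1578 (nat_lit 5723) (nat_lit 1) (nat_lit 14))
    (@En.n l5643 (nat_lit 1551) (nat_lit 2) (nat_lit 6))
    (@En.n l24249 (nat_lit 5017) (nat_lit 6) (nat_lit 10))
    (@En.n l5801 (nat_lit 5355) (nat_lit 4) (nat_lit 10))
    (@En.n l11407 (nat_lit 5011) (nat_lit 5) (nat_lit 5))
    (@En.n l24250 (nat_lit 7136) (nat_lit 6) (nat_lit 5))
    (@En.i (nat_lit 8965) (nat_lit 7) (nat_lit 5))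
    (@En.n l5643 (nat_lit 13007) (nat_lit 8) (nat_lit 10))
    (@En.n l22888 (nat_lit 7107) (nat_lit 10) (nat_lit 7))
    (@En.n l742 (nat_lit 5070) (nat_lit 11) (nat_lit 11))
    (@En.n l11408 (nat_lit 5258) (nat_lit 12) (nat_lit 11))
    (@En.n l5801 (nat_lit 7572) (nat_lit 13) (nat_lit 11))
    (@En.n l152 (nat_lit 5257) (nat_lit 14) (nat_lit 6))
    (@En.i (nat_lit 6354) (nat_lit 13) (nat_lit 6))
    (@En.n l28 (nat_lit 5020) (nat_lit 15) (nat_lit 2))))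
  (@Cl.mk (nat_lit 0x20007000b000b0007000a000a00050005000a0009000600060009000e0006) (nat_lit 0x480500073000b0) (nat_lit 16) Lb.e (@T16.mk En
    (@En.n l2221 (nat_lit 5015) (nat_lit 7) (nat_lit 6))
    (@En.n l31050 (nat_lit 5952) (nat_lit 1) (nat_lit 14))
    (@En.n l31051 (nat_lit 5258) (nat_lit 9) (nat_lit 9))
    (@En.n l31052 (nat_lit 5258) (nat_lit 10) (nat_lit 6))
    (@En.n l31053 (nat_lit 7805) (nat_lit 4) (nat_lit 6))
    (@En.i (nat_lit 5874) (nat_lit 5) (nat_lit 9))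
    (@En.n l31054 (nat_lit 5472) (nat_lit 7) (nat_lit 10))
    (@En.n l55 (nat_lit 5254) (nat_lit 7) (nat_lit 5))
    (@En.n l31055 (nat_lit 6352) (nat_lit 8) (nat_lit 5))
    (@En.n l9762 (nat_lit 5905) (nat_lit 10) (nat_lit 10))
    (@En.i (nat_lit 5713) (nat_lit 11) (nat_lit 10))
    (@En.n l31056 (nat_lit 1518) (nat_lit 12) (nat_lit 7))
    (@En.n l31057 (nat_lit 5947) (nat_lit 13) (nat_lit 11))
    (@En.n l31054 (nat_lit 5346) (nat_lit 14) (nat_lit 11))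
    (@En.n l107 (nat_lit 1880) (nat_lit 13) (nat_lit 7))
    (@En.n l3 (nat_lit 5021) (nat_lit 15) (nat_lit 2))))
  (@Cl.mk (nat_lit 0x20008000b000e0008000200090005000e00080002000c00080007000e0004) (nat_lit 0x1436070960840a0) (nat_lit 16) Lb.e (@T16.mk En
    (@En.n l18025 (nat_lit 4911) (nat_lit 5) (nat_lit 4))
    (@En.n l18026 (nat_lit 2166) (nat_lit 7) (nat_lit 14))
    (@En.i (nat_lit 920) (nat_lit 2) (nat_lit 7))
    (@En.n l7327 (nat_lit 5026) (nat_lit 3) (nat_lit 8))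
    (@En.n l13429 (nat_lit 2510) (nat_lit 10) (nat_lit 12))
    (@En.n l7 (nat_lit 5022) (nat_lit 5) (nat_lit 2))
    (@En.n l18027 (nat_lit 4918) (nat_lit 6) (nat_lit 8))
    (@En.n l1643 (nat_lit 5708) (nat_lit 1) (nat_lit 14))
    (@En.n l357 (nat_lit 5023) (nat_lit 14) (nat_lit 5))
    (@En.n l18028 (nat_lit 4951) (nat_lit 10) (nat_lit 9))
    (@En.n l107 (nat_lit 5022) (nat_lit 10) (nat_lit 2))
    (@En.n l13218 (nat_lit 4944) (nat_lit 12) (nat_lit 8))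
    (@En.n l2094 (nat_lit 2116) (nat_lit 13) (nat_lit 14))
    (@En.n l7327 (nat_lit 13477) (nat_lit 7) (nat_lit 11))
    (@En.n l1501 (nat_lit 987) (nat_lit 3) (nat_lit 8))
    (@En.n l17 (nat_lit 5022) (nat_lit 15) (nat_lit 2))))
  (@Cl.mk (nat_lit 0x20005000e00080002000c0007000a000e000400020008000b0006000e0009) (nat_lit 0xa6040790035047) (nat_lit 16) Lb.e (@T16.mk En
    (@En.n l1872 (nat_lit 4951) (nat_lit 11) (nat_lit 9))
    (@En.n l21181 (nat_lit 5022) (nat_lit 12) (nat_lit 14))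
    (@En.n l108 (nat_lit 5024) (nat_lit 13) (nat_lit 6))
    (@En.n l1599 (nat_lit 14094) (nat_lit 7) (nat_lit 11))
    (@En.n l1599 (nat_lit 1036) (nat_lit 4) (nat_lit 8))
    (@En.n l28 (nat_lit 5023) (nat_lit 5) (nat_lit 2))
    (@En.n l11 (nat_lit 4922) (nat_lit 6) (nat_lit 4))
    (@En.n l23559 (nat_lit 1730) (nat_lit 8) (nat_lit 14))
    (@En.i (nat_lit 13045) (nat_lit 8) (nat_lit 10))
    (@En.n l1872 (nat_lit 5027) (nat_lit 3) (nat_lit 7))
    (@En.n l5242 (nat_lit 2515) (nat_lit 11) (nat_lit 12))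
    (@En.n l3 (nat_lit 5023) (nat_lit 11) (nat_lit 2))
    (@En.n l5012 (nat_lit 4953) (nat_lit 13) (nat_lit 8))
    (@En.n l23560 (nat_lit 5195) (nat_lit 1) (nat_lit 14))
    (@En.n l2568 (nat_lit 1877) (nat_lit 8) (nat_lit 5))
    (@En.n l17 (nat_lit 5023) (nat_lit 15) (nat_lit 2))))
noncomputable def a314 : T16 Cl := @T16.mk Cl
  (@Cl.mk (nat_lit 0x200090006000e000900020009000e00070002000b0007000a0007000e0005) (nat_lit 0x303104800408050) (nat_lit 16) Lb.e (@T16.mk En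
    (@En.n l23213 (nat_lit 3179) (nat_lit 5) (nat_lit 5))
    (@En.n l23214 (nat_lit 6030) (nat_lit 7) (nat_lit 14))
    (@En.i (nat_lit 5022) (nat_lit 2) (nat_lit 7))
    (@En.n l23215 (nat_lit 13959) (nat_lit 8) (nat_lit 10))
    (@En.n l7322 (nat_lit 11630) (nat_lit 14) (nat_lit 7))
    (@En.n l7557 (nat_lit 3307) (nat_lit 11) (nat_lit 11))
    (@En.n l7 (nat_lit 5024) (nat_lit 6) (nat_lit 2))
    (@En.n l7318 (nat_lit 4959) (nat_lit 7) (nat_lit 7))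
    (@En.n l23216 (nat_lit 5071) (nat_lit 9) (nat_lit 14))
    (@En.n l21935 (nat_lit 3402) (nat_lit 2) (nat_lit 9))
    (@En.n l107 (nat_lit 5024) (nat_lit 10) (nat_lit 2))
    (@En.n l23217 (nat_lit 3181) (nat_lit 12) (nat_lit 9))
    (@En.n l97 (nat_lit 2119) (nat_lit 1) (nat_lit 14))
    (@En.n l7322 (nat_lit 1982) (nat_lit 14) (nat_lit 6))
    (@En.n l1660 (nat_lit 5085) (nat_lit 3) (nat_lit 9))
    (@En.n l17 (nat_lit 5024) (nat_lit 15) (nat_lit 2))))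
  (@Cl.mk (nat_lit 0x2000a0005000e00080002000c0006000d000a000400030008000b000e0006) (nat_lit 0x500108090006930) (nat_lit 16) Lb.e (@T16.mk En
    (@En.n l23490 (nat_lit 6618) (nat_lit 5) (nat_lit 6))
    (@En.i (nat_lit 12615) (nat_lit 7) (nat_lit 14))
    (@En.n l6115 (nat_lit 13361) (nat_lit 7) (nat_lit 11))
    (@En.n l23491 (nat_lit 6205) (nat_lit 3) (nat_lit 8))
    (@En.n l50 (nat_lit 6646) (nat_lit 4) (nat_lit 3))
    (@En.n l1034 (nat_lit 5022) (nat_lit 0) (nat_lit 4))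
    (@En.n l23492 (nat_lit 6640) (nat_lit 12) (nat_lit 10))
    (@En.i (nat_lit 2159) (nat_lit 8) (nat_lit 13))
    (@En.n l11017 (nat_lit 5351) (nat_lit 14) (nat_lit 6))
    (@En.n l23493 (nat_lit 6274) (nat_lit 10) (nat_lit 12))
    (@En.n l11 (nat_lit 5025) (nat_lit 10) (nat_lit 2))
    (@En.n l23494 (nat_lit 1925) (nat_lit 12) (nat_lit 8))
    (@En.n l23495 (nat_lit 6473) (nat_lit 1) (nat_lit 14))
    (@En.n l23496 (nat_lit 1922) (nat_lit 14) (nat_lit 5))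
    (@En.n l23497 (nat_lit 6649) (nat_lit 3) (nat_lit 10))
    (@En.n l17 (nat_lit 5025) (nat_lit 15) (nat_lit 2))))
  (@Cl.mk (nat_lit 0x20007000a000d000800060003000a0006000e0009000200080006000e000a) (nat_lit 0x430040a0030a3) (nat_lit 16) Lb.e (@T16.mk En
    (@En.n l4274 (nat_lit 5055) (nat_lit 12) (nat_lit 10))
    (@En.n l4273 (nat_lit 1727) (nat_lit 13) (nat_lit 14))
    (@En.i (nat_lit 5363) (nat_lit 2) (nat_lit 6))
    (@En.n l10459 (nat_lit 4542) (nat_lit 3) (nat_lit 8))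
    (@En.n l18 (nat_lit 5026) (nat_lit 4) (nat_lit 2))
    (@En.n l10460 (nat_lit 5028) (nat_lit 5) (nat_lit 9))
    (@En.n l396 (nat_lit 7962) (nat_lit 7) (nat_lit 14))
    (@En.n l890 (nat_lit 5027) (nat_lit 7) (nat_lit 6))
    (@En.n l287 (nat_lit 5030) (nat_lit 3) (nat_lit 10))
    (@En.n l11 (nat_lit 5034) (nat_lit 4) (nat_lit 3))
    (@En.n l3742 (nat_lit 5025) (nat_lit 0) (nat_lit 6))
    (@En.i (nat_lit 5037) (nat_lit 6) (nat_lit 8))
    (@En.n l313 (nat_lit 11637) (nat_lit 13) (nat_lit 13))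
    (@En.i (nat_lit 13295) (nat_lit 8) (nat_lit 10))
    (@En.n l4073 (nat_lit 10501) (nat_lit 4) (nat_lit 7))
    (@En.n l3 (nat_lit 5026) (nat_lit 15) (nat_lit 2))))
  (@Cl.mk (nat_lit 0x20007000a0006000d0009000700030006000e000900020007000a000e0009) (nat_lit 0x54000a700467) (nat_lit 16) Lb.e (@T16.mk En
    (@En.n l12686 (nat_lit 5056) (nat_lit 12) (nat_lit 9))
    (@En.i (nat_lit 1725) (nat_lit 13) (nat_lit 14))
    (@En.n l710 (nat_lit 2937) (nat_lit 2) (nat_lit 10))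
    (@En.i (nat_lit 4541) (nat_lit 3) (nat_lit 7))
    (@En.n l50 (nat_lit 5027) (nat_lit 4) (nat_lit 2))
    (@En.n l17847 (nat_lit 5029) (nat_lit 5) (nat_lit 9))
    (@En.n l601 (nat_lit 6504) (nat_lit 7) (nat_lit 14))
    (@En.n l17848 (nat_lit 2085) (nat_lit 2) (nat_lit 6))
    (@En.n l11 (nat_lit 5032) (nat_lit 3) (nat_lit 3))
    (@En.n l17849 (nat_lit 1922) (nat_lit 0) (nat_lit 7))
    (@En.i (nat_lit 5030) (nat_lit 5) (nat_lit 9))
    (@En.n l1722 (nat_lit 5026) (nat_lit 12) (nat_lit 13))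
    (@En.n l17 (nat_lit 11630) (nat_lit 7) (nat_lit 6))
    (@En.i (nat_lit 13326) (nat_lit 8) (nat_lit 10))
    (@En.n l710 (nat_lit 10506) (nat_lit 5) (nat_lit 7))
    (@En.n l3 (nat_lit 5027) (nat_lit 15) (nat_lit 2))))
  (@Cl.mk (nat_lit 0x200070007000a000d000900070003000b00060009000900070005000e0009) (nat_lit 0x1440090700093) (nat_lit 16) Lb.e (@T16.mk En
    (@En.n l21540 (nat_lit 5052) (nat_lit 8) (nat_lit 9))
    (@En.n l134 (nat_lit 1487) (nat_lit 1) (nat_lit 14))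
    (@En.n l21541 (nat_lit 5366) (nat_lit 2) (nat_lit 5))
    (@En.n l2254 (nat_lit 10342) (nat_lit 3) (nat_lit 7))
    (@En.n l217 (nat_lit 6450) (nat_lit 7) (nat_lit 9))
    (@En.i (nat_lit 6439) (nat_lit 5) (nat_lit 9))
    (@En.n l21542 (nat_lit 5029) (nat_lit 6) (nat_lit 6))
    (@En.n l21442 (nat_lit 5031) (nat_lit 8) (nat_lit 11))
    (@En.n l21543 (nat_lit 5035) (nat_lit 8) (nat_lit 3))
    (@En.i (nat_lit 1925) (nat_lit 0) (nat_lit 7))
    (@En.n l14087 (nat_lit 5036) (nat_lit 11) (nat_lit 9))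
    (@En.n l11071 (nat_lit 12508) (nat_lit 12) (nat_lit 13))
    (@En.n l20587 (nat_lit 5026) (nat_lit 13) (nat_lit 10))
    (@En.n l21544 (nat_lit 5026) (nat_lit 14) (nat_lit 7))
    (@En.n l21545 (nat_lit 10503) (nat_lit 5) (nat_lit 7))
    (@En.n l7 (nat_lit 5028) (nat_lit 15) (nat_lit 2))))
  (@Cl.mk (nat_lit 0x200070007000a0007000d000a0008000300060009000900060009000e0008) (nat_lit 0x1055100600396) (nat_lit 16) Lb.e (@T16.mk En
    (@En.n l2947 (nat_lit 5054) (nat_lit 9) (nat_lit 8))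
    (@En.n l23110 (nat_lit 1724) (nat_lit 1) (nat_lit 14))
    (@En.i (nat_lit 2932) (nat_lit 2) (nat_lit 9))
    (@En.n l3550 (nat_lit 4543) (nat_lit 3) (nat_lit 6))
    (@En.n l23111 (nat_lit 6451) (nat_lit 7) (nat_lit 9))
    (@En.n l15341 (nat_lit 6493) (nat_lit 5) (nat_lit 9))
    (@En.n l3550 (nat_lit 2083) (nat_lit 6) (nat_lit 6))
    (@En.n l8916 (nat_lit 5033) (nat_lit 7) (nat_lit 3))
    (@En.n l3550 (nat_lit 1918) (nat_lit 0) (nat_lit 8))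
    (@En.n l23112 (nat_lit 5031) (nat_lit 10) (nat_lit 10))
    (@En.n l23113 (nat_lit 5028) (nat_lit 11) (nat_lit 13))
    (@En.n l2956 (nat_lit 6461) (nat_lit 12) (nat_lit 7))
    (@En.n l20320 (nat_lit 5027) (nat_lit 13) (nat_lit 10))
    (@En.n l23114 (nat_lit 5027) (nat_lit 14) (nat_lit 7))
    (@En.n l2947 (nat_lit 10508) (nat_lit 6) (nat_lit 7))
    (@En.n l17 (nat_lit 5029) (nat_lit 15) (nat_lit 2))))
  (@Cl.mk (nat_lit 0x200070006000a000e000a00020008000b000600090006000a0005000e0008) (nat_lit 0x5700000303094) (nat_lit 16) Lb.e (@T16.mk En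
    (@En.n l22464 (nat_lit 5031) (nat_lit 6) (nat_lit 8))
    (@En.n l601 (nat_lit 6505) (nat_lit 1) (nat_lit 14))
    (@En.n l532 (nat_lit 2084) (nat_lit 2) (nat_lit 5))
    (@En.n l12687 (nat_lit 5144) (nat_lit 3) (nat_lit 10))
    (@En.n l117 (nat_lit 6649) (nat_lit 4) (nat_lit 6))
    (@En.n l12687 (nat_lit 5038) (nat_lit 5) (nat_lit 9))
    (@En.n l17 (nat_lit 11195) (nat_lit 6) (nat_lit 6))
    (@En.n l12687 (nat_lit 13325) (nat_lit 7) (nat_lit 11))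
    (@En.i (nat_lit 9920) (nat_lit 9) (nat_lit 8))
    (@En.n l3 (nat_lit 5030) (nat_lit 9) (nat_lit 2))
    (@En.n l5646 (nat_lit 5149) (nat_lit 11) (nat_lit 10))
    (@En.n l8734 (nat_lit 1768) (nat_lit 12) (nat_lit 14))
    (@En.n l207 (nat_lit 5027) (nat_lit 2) (nat_lit 10))
    (@En.i (nat_lit 5032) (nat_lit 14) (nat_lit 6))
    (@En.n l12687 (nat_lit 4540) (nat_lit 4) (nat_lit 7))
    (@En.n l50 (nat_lit 5030) (nat_lit 15) (nat_lit 2))))
  (@Cl.mk (nat_lit 0x200080008000b0007000a0007000b000500080008000600050009000e0009) (nat_lit 0x11040803000464) (nat_lit 16) Lb.e (@T16.mk En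
    (@En.n l36218 (nat_lit 3184) (nat_lit 13) (nat_lit 9))
    (@En.n l36219 (nat_lit 1766) (nat_lit 1) (nat_lit 14))
    (@En.n l36220 (nat_lit 5029) (nat_lit 2) (nat_lit 9))
    (@En.n l36221 (nat_lit 5033) (nat_lit 3) (nat_lit 5))
    (@En.n l12665 (nat_lit 4544) (nat_lit 4) (nat_lit 6))
    (@En.n l33517 (nat_lit 6453) (nat_lit 8) (nat_lit 8))
    (@En.i (nat_lit 6492) (nat_lit 10) (nat_lit 8))
    (@En.n l36222 (nat_lit 2086) (nat_lit 7) (nat_lit 5))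
    (@En.i (nat_lit 5141) (nat_lit 9) (nat_lit 11))
    (@En.n l31815 (nat_lit 5964) (nat_lit 10) (nat_lit 7))
    (@En.i (nat_lit 3182) (nat_lit 11) (nat_lit 10))
    (@En.n l36223 (nat_lit 6462) (nat_lit 12) (nat_lit 7))
    (@En.n l36224 (nat_lit 5030) (nat_lit 7) (nat_lit 11))
    (@En.n l36225 (nat_lit 5030) (nat_lit 8) (nat_lit 8))
    (@En.n l36226 (nat_lit 9919) (nat_lit 6) (nat_lit 8))
    (@En.n l17 (nat_lit 5031) (nat_lit 15) (nat_lit 2))))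
  (@Cl.mk (nat_lit 0x20006000a000e000a00020007000a0006000d0006000a00030006000e0009) (nat_lit 0x26800004040030) (nat_lit 16) Lb.e (@T16.mk En
    (@En.i (nat_lit 5033) (nat_lit 5) (nat_lit 9))
    (@En.n l601 (nat_lit 7964) (nat_lit 7) (nat_lit 14))
    (@En.i (nat_lit 1561) (nat_lit 2) (nat_lit 6))
    (@En.i (nat_lit 5027) (nat_lit 8) (nat_lit 3))
    (@En.i (nat_lit 5378) (nat_lit 0) (nat_lit 10))
    (@En.n l117 (nat_lit 1717) (nat_lit 5) (nat_lit 6))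
    (@En.n l1722 (nat_lit 5034) (nat_lit 7) (nat_lit 13))
    (@En.n l17 (nat_lit 11631) (nat_lit 7) (nat_lit 6))
    (@En.i (nat_lit 13327) (nat_lit 8) (nat_lit 10))
    (@En.i (nat_lit 10505) (nat_lit 5) (nat_lit 7))
    (@En.n l3 (nat_lit 5032) (nat_lit 10) (nat_lit 2))
    (@En.n l5646 (nat_lit 7572) (nat_lit 12) (nat_lit 10))
    (@En.i (nat_lit 1504) (nat_lit 13) (nat_lit 14))
    (@En.i (nat_lit 2933) (nat_lit 2) (nat_lit 10))
    (@En.i (nat_lit 11496) (nat_lit 3) (nat_lit 6))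
    (@En.n l50 (nat_lit 5032) (nat_lit 15) (nat_lit 2))))
  (@Cl.mk (nat_lit 0x200070007000a0007000d0007000b000300060009000900050009000e0009) (nat_lit 0x1060500700297) (nat_lit 16) Lb.e (@T16.mk En
    (@En.n l5646 (nat_lit 7571) (nat_lit 9) (nat_lit 9))
    (@En.i (nat_lit 1498) (nat_lit 1) (nat_lit 14))
    (@En.n l5790 (nat_lit 2928) (nat_lit 2) (nat_lit 9))
    (@En.i (nat_lit 11495) (nat_lit 3) (nat_lit 5))
    (@En.n l35204 (nat_lit 6452) (nat_lit 7) (nat_lit 9))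
    (@En.n l35205 (nat_lit 6494) (nat_lit 5) (nat_lit 9))
    (@En.i (nat_lit 1560) (nat_lit 6) (nat_lit 6))
    (@En.n l17847 (nat_lit 5029) (nat_lit 7) (nat_lit 3))
    (@En.n l22091 (nat_lit 5375) (nat_lit 0) (nat_lit 11))
    (@En.n l117 (nat_lit 1715) (nat_lit 10) (nat_lit 7))
    (@En.n l1722 (nat_lit 5035) (nat_lit 11) (nat_lit 13))
    (@En.n l35206 (nat_lit 6463) (nat_lit 12) (nat_lit 7))
    (@En.n l7 (nat_lit 5032) (nat_lit 8) (nat_lit 10))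
    (@En.n l644 (nat_lit 5032) (nat_lit 9) (nat_lit 7))
    (@En.i (nat_lit 10507) (nat_lit 6) (nat_lit 7))
    (@En.n l3 (nat_lit 5033) (nat_lit 15) (nat_lit 2))))
  (@Cl.mk (nat_lit 0x200070006000e000b00020007000a000d000500090003000a0006000e0009) (nat_lit 0x8000030408090) (nat_lit 16) Lb.e (@T16.mk En
    (@En.i (nat_lit 5035) (nat_lit 5) (nat_lit 9))
    (@En.n l396 (nat_lit 7963) (nat_lit 7) (nat_lit 14))
    (@En.n l890 (nat_lit 5032) (nat_lit 2) (nat_lit 6))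
    (@En.n l2650 (nat_lit 5011) (nat_lit 3) (nat_lit 10))
    (@En.i (nat_lit 5026) (nat_lit 9) (nat_lit 3))
    (@En.i (nat_lit 3672) (nat_lit 5) (nat_lit 9))
    (@En.n l117 (nat_lit 5162) (nat_lit 6) (nat_lit 5))
    (@En.n l3486 (nat_lit 11635) (nat_lit 13) (nat_lit 13))
    (@En.i (nat_lit 13294) (nat_lit 8) (nat_lit 10))
    (@En.i (nat_lit 10499) (nat_lit 10) (nat_lit 7))
    (@En.n l3 (nat_lit 5034) (nat_lit 10) (nat_lit 2))
    (@En.i (nat_lit 7573) (nat_lit 12) (nat_lit 11))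
    (@En.i (nat_lit 1495) (nat_lit 13) (nat_lit 14))
    (@En.i (nat_lit 5364) (nat_lit 2) (nat_lit 6))
    (@En.n l3213 (nat_lit 8561) (nat_lit 3) (nat_lit 7))
    (@En.n l18 (nat_lit 5034) (nat_lit 15) (nat_lit 2))))
  (@Cl.mk (nat_lit 0x200070007000a000d0006000a0003000b00060009000900060005000e000a) (nat_lit 0x1504090700078) (nat_lit 16) Lb.e (@T16.mk En
    (@En.i (nat_lit 7569) (nat_lit 8) (nat_lit 10))
    (@En.n l3486 (nat_lit 1497) (nat_lit 1) (nat_lit 14))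
    (@En.i (nat_lit 5367) (nat_lit 2) (nat_lit 5))
    (@En.n l16536 (nat_lit 8562) (nat_lit 3) (nat_lit 6))
    (@En.n l24847 (nat_lit 6454) (nat_lit 7) (nat_lit 9))
    (@En.n l24848 (nat_lit 6443) (nat_lit 5) (nat_lit 9))
    (@En.n l890 (nat_lit 5033) (nat_lit 6) (nat_lit 6))
    (@En.n l24849 (nat_lit 5012) (nat_lit 8) (nat_lit 11))
    (@En.n l10460 (nat_lit 5028) (nat_lit 8) (nat_lit 3))
    (@En.n l7277 (nat_lit 3673) (nat_lit 10) (nat_lit 10))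
    (@En.n l117 (nat_lit 5098) (nat_lit 11) (nat_lit 6))
    (@En.n l7277 (nat_lit 12286) (nat_lit 12) (nat_lit 13))
    (@En.n l50 (nat_lit 5034) (nat_lit 8) (nat_lit 10))
    (@En.n l217 (nat_lit 5034) (nat_lit 9) (nat_lit 7))
    (@En.i (nat_lit 10504) (nat_lit 5) (nat_lit 7))
    (@En.n l3 (nat_lit 5035) (nat_lit 15) (nat_lit 2))))
  (@Cl.mk (nat_lit 0x200080008000b00090006000a000a000500080008000700060006000e000a) (nat_lit 0x669305201100034) (nat_lit 16) Lb.e (@T16.mk En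
    (@En.n l22557 (nat_lit 3180) (nat_lit 5) (nat_lit 10))
    (@En.n l22558 (nat_lit 1985) (nat_lit 1) (nat_lit 14))
    (@En.n l22559 (nat_lit 5040) (nat_lit 10) (nat_lit 6))
    (@En.n l22560 (nat_lit 5035) (nat_lit 3) (nat_lit 6))
    (@En.n l645 (nat_lit 3424) (nat_lit 4) (nat_lit 7))
    (@En.n l7041 (nat_lit 3187) (nat_lit 8) (nat_lit 8))
    (@En.n l1769 (nat_lit 3170) (nat_lit 6) (nat_lit 8))
    (@En.n l20304 (nat_lit 5031) (nat_lit 7) (nat_lit 5))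
    (@En.n l22561 (nat_lit 3182) (nat_lit 9) (nat_lit 10))
    (@En.i (nat_lit 4156) (nat_lit 10) (nat_lit 10))
    (@En.n l1140 (nat_lit 6593) (nat_lit 11) (nat_lit 6))
    (@En.n l15520 (nat_lit 4875) (nat_lit 12) (nat_lit 9))
    (@En.n l22562 (nat_lit 5037) (nat_lit 7) (nat_lit 11))
    (@En.n l22563 (nat_lit 5037) (nat_lit 8) (nat_lit 8))
    (@En.n l22564 (nat_lit 9911) (nat_lit 6) (nat_lit 8))
    (@En.n l17 (nat_lit 5036) (nat_lit 15) (nat_lit 2))))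
  (@Cl.mk (nat_lit 0x2000800070007000e000b00020008000b00080005000900090005000e0008) (nat_lit 0x4003405820420a2) (nat_lit 16) Lb.e (@T16.mk En
    (@En.n l9829 (nat_lit 5036) (nat_lit 6) (nat_lit 8))
    (@En.n l396 (nat_lit 4908) (nat_lit 1) (nat_lit 14))
    (@En.n l890 (nat_lit 5030) (nat_lit 2) (nat_lit 5))
    (@En.n l9830 (nat_lit 5038) (nat_lit 3) (nat_lit 9))
    (@En.n l1115 (nat_lit 4158) (nat_lit 4) (nat_lit 9))
    (@En.n l117 (nat_lit 6594) (nat_lit 5) (nat_lit 5))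
    (@En.n l9831 (nat_lit 4910) (nat_lit 6) (nat_lit 8))
    (@En.n l1115 (nat_lit 13336) (nat_lit 7) (nat_lit 11))
    (@En.i (nat_lit 9914) (nat_lit 9) (nat_lit 8))
    (@En.n l3 (nat_lit 5037) (nat_lit 9) (nat_lit 2))
    (@En.n l3707 (nat_lit 4964) (nat_lit 11) (nat_lit 11))
    (@En.n l4583 (nat_lit 1990) (nat_lit 12) (nat_lit 14))
    (@En.n l55 (nat_lit 5039) (nat_lit 9) (nat_lit 7))
    (@En.i (nat_lit 5034) (nat_lit 14) (nat_lit 7))
    (@En.n l1115 (nat_lit 4535) (nat_lit 4) (nat_lit 8))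
    (@En.n l18 (nat_lit 5037) (nat_lit 15) (nat_lit 2))))
  (@Cl.mk (nat_lit 0x20007000e00070002000e000b00020009000c0009000500090004000e0007) (nat_lit 0xb002507a201090) (nat_lit 16) Lb.e (@T16.mk En
    (@En.n l6139 (nat_lit 3182) (nat_lit 7) (nat_lit 7))
    (@En.n l1708 (nat_lit 4775) (nat_lit 1) (nat_lit 14))
    (@En.n l7 (nat_lit 1983) (nat_lit 2) (nat_lit 4))
    (@En.i (nat_lit 1159) (nat_lit 3) (nat_lit 9))
    (@En.n l8273 (nat_lit 6602) (nat_lit 4) (nat_lit 5))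
    (@En.n l15198 (nat_lit 4912) (nat_lit 5) (nat_lit 9))
    (@En.i (nat_lit 14066) (nat_lit 6) (nat_lit 12))
    (@En.n l564 (nat_lit 9912) (nat_lit 12) (nat_lit 9))
    (@En.n l11 (nat_lit 5038) (nat_lit 8) (nat_lit 2))
    (@En.i (nat_lit 3179) (nat_lit 10) (nat_lit 11))
    (@En.i (nat_lit 1587) (nat_lit 1) (nat_lit 14))
    (@En.n l3 (nat_lit 5038) (nat_lit 11) (nat_lit 2))
    (@En.n l3526 (nat_lit 5037) (nat_lit 13) (nat_lit 7))
    (@En.i (nat_lit 5009) (nat_lit 5) (nat_lit 14))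
    (@En.i (nat_lit 3420) (nat_lit 5) (nat_lit 7))
    (@En.n l17 (nat_lit 5038) (nat_lit 15) (nat_lit 2))))
  (@Cl.mk (nat_lit 0x20006000e0009000200090007000e000b00020007000a00070005000e0009) (nat_lit 0xb2060730000065) (nat_lit 16) Lb.e (@T16.mk En
    (@En.i (nat_lit 5037) (nat_lit 4) (nat_lit 9))
    (@En.n l3706 (nat_lit 1902) (nat_lit 11) (nat_lit 14))
    (@En.n l311 (nat_lit 5005) (nat_lit 2) (nat_lit 5))
    (@En.n l502 (nat_lit 4914) (nat_lit 13) (nat_lit 7))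
    (@En.i (nat_lit 14018) (nat_lit 8) (nat_lit 10))
    (@En.n l170 (nat_lit 9611) (nat_lit 5) (nat_lit 7))
    (@En.n l3 (nat_lit 5039) (nat_lit 6) (nat_lit 2))
    (@En.n l3707 (nat_lit 4963) (nat_lit 8) (nat_lit 11))
    (@En.n l3708 (nat_lit 2124) (nat_lit 9) (nat_lit 14))
    (@En.i (nat_lit 5365) (nat_lit 2) (nat_lit 7))
    (@En.n l295 (nat_lit 4555) (nat_lit 3) (nat_lit 9))
    (@En.n l18 (nat_lit 5039) (nat_lit 11) (nat_lit 2))
    (@En.n l3709 (nat_lit 5040) (nat_lit 13) (nat_lit 9))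
    (@En.n l396 (nat_lit 5042) (nat_lit 7) (nat_lit 14))
    (@En.n l343 (nat_lit 5026) (nat_lit 7) (nat_lit 6))
    (@En.n l28 (nat_lit 5039) (nat_lit 15) (nat_lit 2))))
noncomputable def a315 : T16 Cl := @T16.mk Cl
  (@Cl.mk (nat_lit 0x200060009000900080006000e000a000200070007000a00080006000e000a) (nat_lit 0x16406300013076) (nat_lit 16) Lb.e (@T16.mk En
    (@En.n l10450 (nat_lit 5036) (nat_lit 9) (nat_lit 10))
    (@En.n l10451 (nat_lit 1901) (nat_lit 10) (nat_lit 14))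
    (@En.n l10452 (nat_lit 5003) (nat_lit 2) (nat_lit 6))
    (@En.n l10453 (nat_lit 4991) (nat_lit 12) (nat_lit 8))
    (@En.n l7352 (nat_lit 5039) (nat_lit 4) (nat_lit 10))
    (@En.n l10454 (nat_lit 5039) (nat_lit 5) (nat_lit 7))
    (@En.n l10455 (nat_lit 9609) (nat_lit 6) (nat_lit 7))
    (@En.n l7 (nat_lit 5040) (nat_lit 7) (nat_lit 2))
    (@En.n l10456 (nat_lit 4962) (nat_lit 9) (nat_lit 10))
    (@En.n l10457 (nat_lit 1654) (nat_lit 10) (nat_lit 14))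
    (@En.n l10458 (nat_lit 5362) (nat_lit 2) (nat_lit 6))
    (@En.n l1055 (nat_lit 4556) (nat_lit 3) (nat_lit 8))
    (@En.n l217 (nat_lit 5041) (nat_lit 13) (nat_lit 9))
    (@En.i (nat_lit 3168) (nat_lit 5) (nat_lit 9))
    (@En.n l197 (nat_lit 5028) (nat_lit 6) (nat_lit 6))
    (@En.n l67 (nat_lit 5040) (nat_lit 15) (nat_lit 2))))
  (@Cl.mk (nat_lit 0x20006000900070005000e00090002000e00070002000a00090007000e000b) (nat_lit 0x500930c0024077) (nat_lit 16) Lb.e (@T16.mk En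
    (@En.n l14799 (nat_lit 3187) (nat_lit 11) (nat_lit 11))
    (@En.n l7630 (nat_lit 1905) (nat_lit 1) (nat_lit 14))
    (@En.n l1445 (nat_lit 5004) (nat_lit 2) (nat_lit 7))
    (@En.n l14800 (nat_lit 4975) (nat_lit 14) (nat_lit 9))
    (@En.n l1738 (nat_lit 5040) (nat_lit 4) (nat_lit 10))
    (@En.n l18 (nat_lit 5041) (nat_lit 5) (nat_lit 2))
    (@En.i (nat_lit 5040) (nat_lit 6) (nat_lit 7))
    (@En.n l7628 (nat_lit 9383) (nat_lit 1) (nat_lit 14))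
    (@En.n l7 (nat_lit 5041) (nat_lit 8) (nat_lit 2))
    (@En.n l7628 (nat_lit 5050) (nat_lit 10) (nat_lit 9))
    (@En.n l4940 (nat_lit 1653) (nat_lit 11) (nat_lit 14))
    (@En.n l7630 (nat_lit 5370) (nat_lit 5) (nat_lit 5))
    (@En.n l14801 (nat_lit 3443) (nat_lit 13) (nat_lit 7))
    (@En.i (nat_lit 5323) (nat_lit 14) (nat_lit 9))
    (@En.n l197 (nat_lit 6450) (nat_lit 8) (nat_lit 6))
    (@En.n l67 (nat_lit 5041) (nat_lit 15) (nat_lit 2))))
  (@Cl.mk (nat_lit 0x20008000700070005000e00090002000e00080002000900090007000e000b) (nat_lit 0x6000520a1071023) (nat_lit 16) Lb.e (@T16.mk En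
    (@En.n l3707 (nat_lit 4901) (nat_lit 11) (nat_lit 11))
    (@En.n l3708 (nat_lit 2112) (nat_lit 12) (nat_lit 14))
    (@En.i (nat_lit 7995) (nat_lit 2) (nat_lit 7))
    (@En.n l3746 (nat_lit 2115) (nat_lit 7) (nat_lit 9))
    (@En.n l3747 (nat_lit 5040) (nat_lit 12) (nat_lit 9))
    (@En.n l50 (nat_lit 5042) (nat_lit 5) (nat_lit 2))
    (@En.n l3748 (nat_lit 19) (nat_lit 6) (nat_lit 8))
    (@En.n l3749 (nat_lit 12546) (nat_lit 1) (nat_lit 14))
    (@En.n l28 (nat_lit 5042) (nat_lit 8) (nat_lit 2))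
    (@En.i (nat_lit 4908) (nat_lit 3) (nat_lit 9))
    (@En.n l3750 (nat_lit 2111) (nat_lit 11) (nat_lit 14))
    (@En.n l3751 (nat_lit 5717) (nat_lit 5) (nat_lit 5))
    (@En.n l3752 (nat_lit 2117) (nat_lit 9) (nat_lit 7))
    (@En.i (nat_lit 5324) (nat_lit 14) (nat_lit 7))
    (@En.n l3727 (nat_lit 5857) (nat_lit 5) (nat_lit 8))
    (@En.n l3 (nat_lit 5042) (nat_lit 15) (nat_lit 2))))
  (@Cl.mk (nat_lit 0x2000c000b0007000b000400070005000e00050002000e00090002000e0009) (nat_lit 0x1401000b0025061) (nat_lit 16) Lb.e (@T16.mk En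
    (@En.n l32252 (nat_lit 3182) (nat_lit 14) (nat_lit 9))
    (@En.n l11611 (nat_lit 9376) (nat_lit 1) (nat_lit 14))
    (@En.n l50 (nat_lit 5043) (nat_lit 2) (nat_lit 2))
    (@En.n l564 (nat_lit 3178) (nat_lit 14) (nat_lit 9))
    (@En.n l5276 (nat_lit 1586) (nat_lit 1) (nat_lit 14))
    (@En.n l28 (nat_lit 5043) (nat_lit 5) (nat_lit 2))
    (@En.i (nat_lit 3187) (nat_lit 6) (nat_lit 5))
    (@En.n l28779 (nat_lit 5014) (nat_lit 1) (nat_lit 14))
    (@En.i (nat_lit 3440) (nat_lit 8) (nat_lit 5))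
    (@En.n l26415 (nat_lit 5329) (nat_lit 11) (nat_lit 7))
    (@En.i (nat_lit 2090) (nat_lit 10) (nat_lit 4))
    (@En.n l97 (nat_lit 1113) (nat_lit 12) (nat_lit 11))
    (@En.n l1643 (nat_lit 6603) (nat_lit 13) (nat_lit 7))
    (@En.n l1867 (nat_lit 4971) (nat_lit 14) (nat_lit 11))
    (@En.n l32255 (nat_lit 3182) (nat_lit 12) (nat_lit 12))
    (@En.n l17 (nat_lit 5043) (nat_lit 15) (nat_lit 2))))
  (@Cl.mk (nat_lit 0x300080008000b00090006000a000900050008000800070006000d0007000a) (nat_lit 0x560305205600604) (nat_lit 16) Lb.e (@T16.mk En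
    (@En.n l26227 (nat_lit 5040) (nat_lit 8) (nat_lit 10))
    (@En.n l20614 (nat_lit 1988) (nat_lit 6) (nat_lit 7))
    (@En.n l127 (nat_lit 5084) (nat_lit 2) (nat_lit 13))
    (@En.n l22176 (nat_lit 1742) (nat_lit 3) (nat_lit 6))
    (@En.i (nat_lit 4225) (nat_lit 9) (nat_lit 7))
    (@En.n l17 (nat_lit 5092) (nat_lit 8) (nat_lit 8))
    (@En.n l18752 (nat_lit 4358) (nat_lit 10) (nat_lit 8))
    (@En.n l26228 (nat_lit 5098) (nat_lit 7) (nat_lit 5))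
    (@En.n l26229 (nat_lit 5049) (nat_lit 7) (nat_lit 9))
    (@En.n l1329 (nat_lit 3676) (nat_lit 9) (nat_lit 10))
    (@En.n l4750 (nat_lit 5388) (nat_lit 2) (nat_lit 6))
    (@En.n l26230 (nat_lit 981) (nat_lit 12) (nat_lit 9))
    (@En.n l26231 (nat_lit 5045) (nat_lit 7) (nat_lit 11))
    (@En.n l26232 (nat_lit 5045) (nat_lit 8) (nat_lit 8))
    (@En.n l26233 (nat_lit 10512) (nat_lit 12) (nat_lit 8))
    (@En.n l4774 (nat_lit 5078) (nat_lit 15) (nat_lit 3))))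
  (@Cl.mk (nat_lit 0x200080007000d0008000b00030008000b00080005000900080005000e0008) (nat_lit 0x307140592042046) (nat_lit 16) Lb.e (@T16.mk En
    (@En.n l15357 (nat_lit 5044) (nat_lit 6) (nat_lit 8))
    (@En.n l23279 (nat_lit 3136) (nat_lit 1) (nat_lit 14))
    (@En.n l23280 (nat_lit 5162) (nat_lit 2) (nat_lit 5))
    (@En.n l3 (nat_lit 5048) (nat_lit 3) (nat_lit 8))
    (@En.n l13401 (nat_lit 4155) (nat_lit 4) (nat_lit 9))
    (@En.n l485 (nat_lit 5392) (nat_lit 5) (nat_lit 5))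
    (@En.n l420 (nat_lit 1046) (nat_lit 6) (nat_lit 8))
    (@En.i (nat_lit 14015) (nat_lit 7) (nat_lit 11))
    (@En.n l23281 (nat_lit 10511) (nat_lit 9) (nat_lit 8))
    (@En.n l12276 (nat_lit 5079) (nat_lit 9) (nat_lit 3))
    (@En.n l23282 (nat_lit 5039) (nat_lit 7) (nat_lit 11))
    (@En.n l23283 (nat_lit 1985) (nat_lit 12) (nat_lit 8))
    (@En.n l5251 (nat_lit 5085) (nat_lit 13) (nat_lit 13))
    (@En.n l11929 (nat_lit 5358) (nat_lit 14) (nat_lit 7))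
    (@En.n l253 (nat_lit 4226) (nat_lit 4) (nat_lit 8))
    (@En.n l17 (nat_lit 5045) (nat_lit 15) (nat_lit 2))))
  (@Cl.mk (nat_lit 0x20007000d0007000d0003000b00030009000c0009000500090004000e0007) (nat_lit 0x60205060201030) (nat_lit 16) Lb.e (@T16.mk En
    (@En.n l15357 (nat_lit 5047) (nat_lit 7) (nat_lit 7))
    (@En.n l23279 (nat_lit 3141) (nat_lit 1) (nat_lit 14))
    (@En.i (nat_lit 6800) (nat_lit 2) (nat_lit 4))
    (@En.n l253 (nat_lit 1161) (nat_lit 3) (nat_lit 9))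
    (@En.n l37964 (nat_lit 6678) (nat_lit 4) (nat_lit 5))
    (@En.n l420 (nat_lit 1047) (nat_lit 5) (nat_lit 9))
    (@En.i (nat_lit 13307) (nat_lit 6) (nat_lit 12))
    (@En.n l9226 (nat_lit 10053) (nat_lit 8) (nat_lit 9))
    (@En.i (nat_lit 5091) (nat_lit 8) (nat_lit 3))
    (@En.n l11934 (nat_lit 5037) (nat_lit 10) (nat_lit 11))
    (@En.n l117 (nat_lit 5048) (nat_lit 10) (nat_lit 3))
    (@En.n l625 (nat_lit 2365) (nat_lit 12) (nat_lit 13))
    (@En.i (nat_lit 5045) (nat_lit 13) (nat_lit 7))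
    (@En.n l23321 (nat_lit 5108) (nat_lit 14) (nat_lit 13))
    (@En.n l253 (nat_lit 4230) (nat_lit 5) (nat_lit 7))
    (@En.n l17 (nat_lit 5046) (nat_lit 15) (nat_lit 2))))
  (@Cl.mk (nat_lit 0x300090009000c000a0006000a0004000700070006000d0006000d0003000a) (nat_lit 0x671301000050105) (nat_lit 16) Lb.e (@T16.mk En
    (@En.n l1203 (nat_lit 5036) (nat_lit 0) (nat_lit 10))
    (@En.n l9442 (nat_lit 5049) (nat_lit 15) (nat_lit 3))
    (@En.n l27099 (nat_lit 2345) (nat_lit 0) (nat_lit 13))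
    (@En.i (nat_lit 5044) (nat_lit 3) (nat_lit 6))
    (@En.i (nat_lit 5109) (nat_lit 2) (nat_lit 13))
    (@En.i (nat_lit 4229) (nat_lit 10) (nat_lit 6))
    (@En.n l17 (nat_lit 5094) (nat_lit 9) (nat_lit 7))
    (@En.n l27100 (nat_lit 4356) (nat_lit 11) (nat_lit 7))
    (@En.n l1106 (nat_lit 6798) (nat_lit 6) (nat_lit 4))
    (@En.n l20615 (nat_lit 1158) (nat_lit 9) (nat_lit 10))
    (@En.n l253 (nat_lit 5395) (nat_lit 1) (nat_lit 6))
    (@En.n l26230 (nat_lit 1049) (nat_lit 12) (nat_lit 10))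
    (@En.n l26231 (nat_lit 5046) (nat_lit 6) (nat_lit 12))
    (@En.n l26232 (nat_lit 5046) (nat_lit 7) (nat_lit 9))
    (@En.n l27101 (nat_lit 10054) (nat_lit 13) (nat_lit 9))
    (@En.n l4774 (nat_lit 5090) (nat_lit 15) (nat_lit 3))))
  (@Cl.mk (nat_lit 0x20007000d000c00080003000b00040009000c0009000500080004000e0007) (nat_lit 0x58205060201030) (nat_lit 16) Lb.e (@T16.mk En
    (@En.i (nat_lit 5049) (nat_lit 5) (nat_lit 7))
    (@En.n l27133 (nat_lit 3135) (nat_lit 1) (nat_lit 14))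
    (@En.i (nat_lit 6801) (nat_lit 2) (nat_lit 4))
    (@En.n l12128 (nat_lit 1077) (nat_lit 10) (nat_lit 8))
    (@En.n l13280 (nat_lit 5393) (nat_lit 4) (nat_lit 5))
    (@En.n l420 (nat_lit 1048) (nat_lit 5) (nat_lit 9))
    (@En.i (nat_lit 13309) (nat_lit 6) (nat_lit 12))
    (@En.n l12128 (nat_lit 10513) (nat_lit 8) (nat_lit 9))
    (@En.n l27134 (nat_lit 1280) (nat_lit 8) (nat_lit 4))
    (@En.n l1690 (nat_lit 5045) (nat_lit 10) (nat_lit 11))
    (@En.n l152 (nat_lit 5046) (nat_lit 10) (nat_lit 3))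
    (@En.n l13418 (nat_lit 1989) (nat_lit 12) (nat_lit 8))
    (@En.n l619 (nat_lit 5091) (nat_lit 13) (nat_lit 12))
    (@En.n l12673 (nat_lit 5114) (nat_lit 14) (nat_lit 13))
    (@En.n l12128 (nat_lit 4228) (nat_lit 3) (nat_lit 7))
    (@En.n l17 (nat_lit 5048) (nat_lit 15) (nat_lit 2))))
  (@Cl.mk (nat_lit 0x3000a000400090009000c000a000600090004000700070006000d000c0007) (nat_lit 0x506713010000470) (nat_lit 16) Lb.e (@T16.mk En
    (@En.n l13418 (nat_lit 1984) (nat_lit 0) (nat_lit 7))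
    (@En.n l13419 (nat_lit 5090) (nat_lit 4) (nat_lit 12))
    (@En.n l12673 (nat_lit 5111) (nat_lit 2) (nat_lit 13))
    (@En.n l6204 (nat_lit 4227) (nat_lit 10) (nat_lit 6))
    (@En.n l2139 (nat_lit 5093) (nat_lit 9) (nat_lit 7))
    (@En.n l13420 (nat_lit 4357) (nat_lit 11) (nat_lit 7))
    (@En.n l6204 (nat_lit 6802) (nat_lit 6) (nat_lit 4))
    (@En.n l13419 (nat_lit 1078) (nat_lit 9) (nat_lit 9))
    (@En.n l13280 (nat_lit 5391) (nat_lit 1) (nat_lit 6))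
    (@En.n l13421 (nat_lit 1050) (nat_lit 10) (nat_lit 10))
    (@En.n l18 (nat_lit 5048) (nat_lit 6) (nat_lit 12))
    (@En.n l61 (nat_lit 5048) (nat_lit 7) (nat_lit 9))
    (@En.n l12128 (nat_lit 10515) (nat_lit 13) (nat_lit 9))
    (@En.n l13422 (nat_lit 1279) (nat_lit 14) (nat_lit 4))
    (@En.n l13423 (nat_lit 5044) (nat_lit 0) (nat_lit 10))
    (@En.n l13424 (nat_lit 5047) (nat_lit 1) (nat_lit 3))))
  (@Cl.mk (nat_lit 0x20007000a0008000500090009000e000600020009000800070007000e000b) (nat_lit 0x71022c00160078) (nat_lit 16) Lb.e (@T16.mk En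
    (@En.n l12273 (nat_lit 3186) (nat_lit 10) (nat_lit 11))
    (@En.n l25962 (nat_lit 1991) (nat_lit 11) (nat_lit 14))
    (@En.n l12274 (nat_lit 5041) (nat_lit 2) (nat_lit 7))
    (@En.n l9967 (nat_lit 6903) (nat_lit 3) (nat_lit 7))
    (@En.n l5384 (nat_lit 4974) (nat_lit 14) (nat_lit 8))
    (@En.n l25963 (nat_lit 4962) (nat_lit 5) (nat_lit 9))
    (@En.n l11 (nat_lit 5050) (nat_lit 6) (nat_lit 2))
    (@En.n l25964 (nat_lit 4962) (nat_lit 7) (nat_lit 6))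
    (@En.i (nat_lit 9502) (nat_lit 9) (nat_lit 14))
    (@En.n l2593 (nat_lit 4961) (nat_lit 2) (nat_lit 9))
    (@En.n l387 (nat_lit 1969) (nat_lit 3) (nat_lit 9))
    (@En.n l3494 (nat_lit 7562) (nat_lit 4) (nat_lit 5))
    (@En.n l22789 (nat_lit 31) (nat_lit 5) (nat_lit 8))
    (@En.n l9967 (nat_lit 5320) (nat_lit 8) (nat_lit 10))
    (@En.n l12272 (nat_lit 5051) (nat_lit 7) (nat_lit 7))
    (@En.n l18 (nat_lit 5050) (nat_lit 15) (nat_lit 2))))
  (@Cl.mk (nat_lit 0x20009000c0009000800080004000c0007000a0007000400080008000e0006) (nat_lit 0x85000600000300) (nat_lit 16) Lb.e (@T16.mk En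
    (@En.n l21540 (nat_lit 5052) (nat_lit 6) (nat_lit 6))
    (@En.n l15989 (nat_lit 9419) (nat_lit 1) (nat_lit 14))
    (@En.n l24780 (nat_lit 5059) (nat_lit 8) (nat_lit 8))
    (@En.n l12936 (nat_lit 7829) (nat_lit 3) (nat_lit 8))
    (@En.n l12937 (nat_lit 7564) (nat_lit 4) (nat_lit 4))
    (@En.n l7619 (nat_lit 4553) (nat_lit 5) (nat_lit 7))
    (@En.i (nat_lit 5341) (nat_lit 8) (nat_lit 10))
    (@En.n l26752 (nat_lit 5053) (nat_lit 7) (nat_lit 7))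
    (@En.n l4513 (nat_lit 3185) (nat_lit 9) (nat_lit 12))
    (@En.n l26753 (nat_lit 6560) (nat_lit 9) (nat_lit 4))
    (@En.n l77 (nat_lit 6450) (nat_lit 11) (nat_lit 8))
    (@En.n l86 (nat_lit 6638) (nat_lit 12) (nat_lit 8))
    (@En.n l4511 (nat_lit 3186) (nat_lit 13) (nat_lit 9))
    (@En.n l23328 (nat_lit 10101) (nat_lit 6) (nat_lit 12))
    (@En.n l26754 (nat_lit 5052) (nat_lit 4) (nat_lit 9))
    (@En.n l18 (nat_lit 5051) (nat_lit 15) (nat_lit 2))))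
  (@Cl.mk (nat_lit 0x4000b0007000a000a0008000500090009000600060009000c000800070007) (nat_lit 0x605110230077600) (nat_lit 16) Lb.e (@T16.mk En
    (@En.n l31696 (nat_lit 5028) (nat_lit 9) (nat_lit 7))
    (@En.n l31697 (nat_lit 6637) (nat_lit 9) (nat_lit 7))
    (@En.n l31698 (nat_lit 3180) (nat_lit 0) (nat_lit 8))
    (@En.i (nat_lit 12274) (nat_lit 6) (nat_lit 12))
    (@En.n l31699 (nat_lit 5055) (nat_lit 9) (nat_lit 9))
    (@En.n l31700 (nat_lit 5055) (nat_lit 10) (nat_lit 6))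
    (@En.n l31701 (nat_lit 10078) (nat_lit 6) (nat_lit 6))
    (@En.n l152 (nat_lit 5058) (nat_lit 7) (nat_lit 9))
    (@En.n l12311 (nat_lit 5189) (nat_lit 10) (nat_lit 9))
    (@En.n l29343 (nat_lit 7256) (nat_lit 9) (nat_lit 5))
    (@En.n l31702 (nat_lit 60) (nat_lit 0) (nat_lit 8))
    (@En.n l31703 (nat_lit 5051) (nat_lit 6) (nat_lit 10))
    (@En.n l31704 (nat_lit 6437) (nat_lit 8) (nat_lit 10))
    (@En.n l31705 (nat_lit 5054) (nat_lit 14) (nat_lit 7))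
    (@En.n l31706 (nat_lit 3184) (nat_lit 4) (nat_lit 11))
    (@En.n l16180 (nat_lit 6559) (nat_lit 15) (nat_lit 4))))
  (@Cl.mk (nat_lit 0x200090007000c000a0009000900040007000a0006000900070007000e0006) (nat_lit 0x9622000020000) (nat_lit 16) Lb.e (@T16.mk En
    (@En.n l8116 (nat_lit 5054) (nat_lit 7) (nat_lit 6))
    (@En.n l27284 (nat_lit 9418) (nat_lit 1) (nat_lit 14))
    (@En.n l8627 (nat_lit 5060) (nat_lit 9) (nat_lit 7))
    (@En.n l19999 (nat_lit 7822) (nat_lit 3) (nat_lit 7))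
    (@En.n l8629 (nat_lit 3353) (nat_lit 4) (nat_lit 9))
    (@En.n l8630 (nat_lit 4534) (nat_lit 5) (nat_lit 6))
    (@En.n l1643 (nat_lit 5637) (nat_lit 8) (nat_lit 10))
    (@En.i (nat_lit 3174) (nat_lit 7) (nat_lit 7))
    (@En.n l27285 (nat_lit 6924) (nat_lit 8) (nat_lit 4))
    (@En.n l1415 (nat_lit 6451) (nat_lit 10) (nat_lit 9))
    (@En.n l7084 (nat_lit 6925) (nat_lit 11) (nat_lit 9))
    (@En.n l27286 (nat_lit 3185) (nat_lit 12) (nat_lit 10))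
    (@En.n l27287 (nat_lit 5051) (nat_lit 13) (nat_lit 12))
    (@En.n l8635 (nat_lit 10091) (nat_lit 14) (nat_lit 7))
    (@En.n l27288 (nat_lit 5054) (nat_lit 5) (nat_lit 9))
    (@En.n l17 (nat_lit 5053) (nat_lit 15) (nat_lit 2))))
  (@Cl.mk (nat_lit 0x40007000a000a0007000a000800080006000600090006000c000900080008) (nat_lit 0x41035300708522) (nat_lit 16) Lb.e (@T16.mk En
    (@En.n l2717 (nat_lit 5029) (nat_lit 8) (nat_lit 8))
    (@En.n l31946 (nat_lit 6919) (nat_lit 1) (nat_lit 8))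
    (@En.n l31947 (nat_lit 3184) (nat_lit 7) (nat_lit 9))
    (@En.n l31948 (nat_lit 5052) (nat_lit 3) (nat_lit 12))
    (@En.n l2707 (nat_lit 10044) (nat_lit 4) (nat_lit 6))
    (@En.n l31949 (nat_lit 5056) (nat_lit 9) (nat_lit 9))
    (@En.n l31950 (nat_lit 5056) (nat_lit 10) (nat_lit 6))
    (@En.i (nat_lit 10077) (nat_lit 7) (nat_lit 6))
    (@En.n l3532 (nat_lit 5057) (nat_lit 8) (nat_lit 8))
    (@En.n l31951 (nat_lit 5460) (nat_lit 8) (nat_lit 8))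
    (@En.i (nat_lit 3352) (nat_lit 8) (nat_lit 10))
    (@En.n l31952 (nat_lit 4537) (nat_lit 12) (nat_lit 7))
    (@En.n l22675 (nat_lit 5053) (nat_lit 6) (nat_lit 10))
    (@En.n l31953 (nat_lit 6010) (nat_lit 8) (nat_lit 10))
    (@En.n l7898 (nat_lit 1941) (nat_lit 11) (nat_lit 7))
    (@En.n l31954 (nat_lit 6922) (nat_lit 15) (nat_lit 4))))
  (@Cl.mk (nat_lit 0x200090006000a000a00060009000c0007000600060004000a0007000e000a) (nat_lit 0x3023066000060b6) (nat_lit 16) Lb.e (@T16.mk En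
    (@En.n l22916 (nat_lit 5052) (nat_lit 12) (nat_lit 10))
    (@En.n l22917 (nat_lit 7654) (nat_lit 1) (nat_lit 14))
    (@En.n l22694 (nat_lit 5056) (nat_lit 2) (nat_lit 7))
    (@En.n l22566 (nat_lit 5149) (nat_lit 3) (nat_lit 10))
    (@En.n l6747 (nat_lit 6561) (nat_lit 4) (nat_lit 4))
    (@En.n l1340 (nat_lit 5026) (nat_lit 10) (nat_lit 6))
    (@En.n l22694 (nat_lit 6640) (nat_lit 6) (nat_lit 6))
    (@En.n l617 (nat_lit 4964) (nat_lit 7) (nat_lit 7))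
    (@En.n l5995 (nat_lit 11643) (nat_lit 9) (nat_lit 12))
    (@En.n l22694 (nat_lit 13331) (nat_lit 9) (nat_lit 9))
    (@En.n l22918 (nat_lit 10080) (nat_lit 11) (nat_lit 6))
    (@En.n l4380 (nat_lit 5061) (nat_lit 6) (nat_lit 10))
    (@En.i (nat_lit 5461) (nat_lit 13) (nat_lit 10))
    (@En.n l16818 (nat_lit 7254) (nat_lit 14) (nat_lit 6))
    (@En.n l11 (nat_lit 4537) (nat_lit 3) (nat_lit 9))
    (@En.n l107 (nat_lit 5055) (nat_lit 15) (nat_lit 2))))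
noncomputable def a316 : T16 Cl := @T16.mk Cl
  (@Cl.mk (nat_lit 0x20008000b00090009000600090005000c00080007000700040007000e000a) (nat_lit 0x1463060760000a5) (nat_lit 16) Lb.e (@T16.mk En
    (@En.n l32670 (nat_lit 5054) (nat_lit 13) (nat_lit 10))
    (@En.n l31285 (nat_lit 5153) (nat_lit 1) (nat_lit 14))
    (@En.n l32671 (nat_lit 2082) (nat_lit 2) (nat_lit 7))
    (@En.n l12023 (nat_lit 6921) (nat_lit 3) (nat_lit 4))
    (@En.n l12024 (nat_lit 5027) (nat_lit 9) (nat_lit 7))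
    (@En.i (nat_lit 6917) (nat_lit 5) (nat_lit 7))
    (@En.n l29457 (nat_lit 5149) (nat_lit 6) (nat_lit 8))
    (@En.n l32672 (nat_lit 5055) (nat_lit 8) (nat_lit 12))
    (@En.n l5098 (nat_lit 10043) (nat_lit 8) (nat_lit 5))
    (@En.i (nat_lit 13329) (nat_lit 9) (nat_lit 9))
    (@En.n l28352 (nat_lit 10079) (nat_lit 11) (nat_lit 6))
    (@En.n l32673 (nat_lit 5062) (nat_lit 7) (nat_lit 9))
    (@En.n l25479 (nat_lit 5459) (nat_lit 13) (nat_lit 9))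
    (@En.n l32674 (nat_lit 3351) (nat_lit 7) (nat_lit 11))
    (@En.n l5098 (nat_lit 74) (nat_lit 3) (nat_lit 8))
    (@En.n l17 (nat_lit 5056) (nat_lit 15) (nat_lit 2))))
  (@Cl.mk (nat_lit 0x200050008000b000b0008000b00080005000500080005000b0008000e0008) (nat_lit 0x330232000065b3) (nat_lit 16) Lb.e (@T16.mk En
    (@En.n l517 (nat_lit 5054) (nat_lit 1) (nat_lit 8))
    (@En.n l16616 (nat_lit 5075) (nat_lit 1) (nat_lit 14))
    (@En.n l16617 (nat_lit 5063) (nat_lit 2) (nat_lit 8))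
    (@En.n l10436 (nat_lit 5058) (nat_lit 3) (nat_lit 11))
    (@En.n l16618 (nat_lit 7583) (nat_lit 4) (nat_lit 5))
    (@En.n l343 (nat_lit 5062) (nat_lit 5) (nat_lit 8))
    (@En.n l1577 (nat_lit 5062) (nat_lit 6) (nat_lit 5))
    (@En.i (nat_lit 12185) (nat_lit 7) (nat_lit 5))
    (@En.n l16619 (nat_lit 5465) (nat_lit 9) (nat_lit 8))
    (@En.i (nat_lit 3357) (nat_lit 10) (nat_lit 11))
    (@En.n l3213 (nat_lit 4542) (nat_lit 11) (nat_lit 8))
    (@En.n l1578 (nat_lit 5060) (nat_lit 12) (nat_lit 11))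
    (@En.n l572 (nat_lit 6007) (nat_lit 13) (nat_lit 11))
    (@En.i (nat_lit 1935) (nat_lit 14) (nat_lit 8))
    (@En.n l4943 (nat_lit 5234) (nat_lit 13) (nat_lit 5))
    (@En.n l3 (nat_lit 5057) (nat_lit 15) (nat_lit 2))))
  (@Cl.mk (nat_lit 0x20005000b0008000b000b000900050009000500050008000b0007000e0007) (nat_lit 0x74406020005050) (nat_lit 16) Lb.e (@T16.mk En
    (@En.i (nat_lit 5052) (nat_lit 1) (nat_lit 7))
    (@En.n l16517 (nat_lit 7576) (nat_lit 1) (nat_lit 14))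
    (@En.n l16518 (nat_lit 4960) (nat_lit 2) (nat_lit 7))
    (@En.i (nat_lit 12275) (nat_lit 3) (nat_lit 11))
    (@En.n l13773 (nat_lit 5061) (nat_lit 4) (nat_lit 8))
    (@En.n l8283 (nat_lit 5061) (nat_lit 5) (nat_lit 5))
    (@En.n l6669 (nat_lit 12187) (nat_lit 6) (nat_lit 5))
    (@En.n l12316 (nat_lit 5468) (nat_lit 8) (nat_lit 9))
    (@En.n l16519 (nat_lit 7257) (nat_lit 8) (nat_lit 5))
    (@En.n l2337 (nat_lit 10342) (nat_lit 10) (nat_lit 9))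
    (@En.n l601 (nat_lit 5059) (nat_lit 11) (nat_lit 11))
    (@En.n l16520 (nat_lit 6436) (nat_lit 12) (nat_lit 11))
    (@En.n l430 (nat_lit 5057) (nat_lit 13) (nat_lit 8))
    (@En.n l16393 (nat_lit 5063) (nat_lit 14) (nat_lit 11))
    (@En.i (nat_lit 4643) (nat_lit 13) (nat_lit 5))
    (@En.n l3 (nat_lit 5058) (nat_lit 15) (nat_lit 2))))
  (@Cl.mk (nat_lit 0x20005000c0008000b000800040008000e000500020008000b0008000e0008) (nat_lit 0x93910220016541) (nat_lit 16) Lb.e (@T16.mk En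
    (@En.n l13132 (nat_lit 5051) (nat_lit 11) (nat_lit 8))
    (@En.n l11003 (nat_lit 7580) (nat_lit 12) (nat_lit 14))
    (@En.n l11003 (nat_lit 4965) (nat_lit 13) (nat_lit 8))
    (@En.i (nat_lit 10099) (nat_lit 3) (nat_lit 11))
    (@En.n l252 (nat_lit 5058) (nat_lit 4) (nat_lit 8))
    (@En.n l50 (nat_lit 5059) (nat_lit 5) (nat_lit 2))
    (@En.n l7 (nat_lit 5058) (nat_lit 6) (nat_lit 5))
    (@En.n l13133 (nat_lit 8898) (nat_lit 8) (nat_lit 14))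
    (@En.n l5559 (nat_lit 7603) (nat_lit 2) (nat_lit 8))
    (@En.n l6667 (nat_lit 7567) (nat_lit 9) (nat_lit 4))
    (@En.i (nat_lit 4556) (nat_lit 11) (nat_lit 8))
    (@En.n l13133 (nat_lit 5577) (nat_lit 12) (nat_lit 11))
    (@En.n l430 (nat_lit 5060) (nat_lit 13) (nat_lit 8))
    (@En.n l13134 (nat_lit 5065) (nat_lit 8) (nat_lit 12))
    (@En.n l3201 (nat_lit 5276) (nat_lit 8) (nat_lit 5))
    (@En.n l3 (nat_lit 5059) (nat_lit 15) (nat_lit 2))))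
  (@Cl.mk (nat_lit 0x200050008000b0007000a0007000e0005000200080006000b0009000e0009) (nat_lit 0x29020000107653) (nat_lit 16) Lb.e (@T16.mk En
    (@En.n l3107 (nat_lit 5053) (nat_lit 10) (nat_lit 9))
    (@En.n l2597 (nat_lit 5076) (nat_lit 11) (nat_lit 14))
    (@En.n l2597 (nat_lit 5065) (nat_lit 12) (nat_lit 9))
    (@En.n l10436 (nat_lit 5059) (nat_lit 3) (nat_lit 11))
    (@En.n l3109 (nat_lit 10093) (nat_lit 4) (nat_lit 6))
    (@En.n l536 (nat_lit 5057) (nat_lit 5) (nat_lit 8))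
    (@En.n l28 (nat_lit 5060) (nat_lit 6) (nat_lit 2))
    (@En.n l11 (nat_lit 5057) (nat_lit 7) (nat_lit 5))
    (@En.n l8424 (nat_lit 8896) (nat_lit 9) (nat_lit 14))
    (@En.n l13677 (nat_lit 7604) (nat_lit 2) (nat_lit 7))
    (@En.i (nat_lit 3356) (nat_lit 11) (nat_lit 10))
    (@En.n l295 (nat_lit 4555) (nat_lit 12) (nat_lit 7))
    (@En.n l313 (nat_lit 6004) (nat_lit 13) (nat_lit 11))
    (@En.i (nat_lit 1940) (nat_lit 14) (nat_lit 8))
    (@En.n l170 (nat_lit 5233) (nat_lit 7) (nat_lit 5))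
    (@En.n l3 (nat_lit 5060) (nat_lit 15) (nat_lit 2))))
  (@Cl.mk (nat_lit 0x20005000a0008000e000b0002000a0006000a00050008000b0006000e0006) (nat_lit 0x74550302065090) (nat_lit 16) Lb.e (@T16.mk En
    (@En.n l28 (nat_lit 5055) (nat_lit 6) (nat_lit 6))
    (@En.n l20166 (nat_lit 7577) (nat_lit 8) (nat_lit 14))
    (@En.n l617 (nat_lit 4959) (nat_lit 2) (nat_lit 6))
    (@En.n l170 (nat_lit 12276) (nat_lit 3) (nat_lit 11))
    (@En.i (nat_lit 13840) (nat_lit 10) (nat_lit 8))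
    (@En.n l10036 (nat_lit 12182) (nat_lit 5) (nat_lit 5))
    (@En.i (nat_lit 5469) (nat_lit 13) (nat_lit 10))
    (@En.n l8572 (nat_lit 7255) (nat_lit 7) (nat_lit 6))
    (@En.i (nat_lit 4543) (nat_lit 9) (nat_lit 10))
    (@En.n l107 (nat_lit 5061) (nat_lit 9) (nat_lit 2))
    (@En.n l13079 (nat_lit 5058) (nat_lit 11) (nat_lit 11))
    (@En.n l97 (nat_lit 7655) (nat_lit 12) (nat_lit 14))
    (@En.n l9166 (nat_lit 5062) (nat_lit 13) (nat_lit 8))
    (@En.n l7408 (nat_lit 5148) (nat_lit 3) (nat_lit 10))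
    (@En.n l8573 (nat_lit 5267) (nat_lit 13) (nat_lit 5))
    (@En.n l50 (nat_lit 5061) (nat_lit 15) (nat_lit 2))))
  (@Cl.mk (nat_lit 0x200050008000e000b00020009000c0009000500080004000b0007000e0007) (nat_lit 0x33403520606090) (nat_lit 16) Lb.e (@T16.mk En
    (@En.n l17845 (nat_lit 5056) (nat_lit 5) (nat_lit 7))
    (@En.n l3026 (nat_lit 5077) (nat_lit 7) (nat_lit 14))
    (@En.n l3026 (nat_lit 5148) (nat_lit 7) (nat_lit 7))
    (@En.n l7240 (nat_lit 5061) (nat_lit 3) (nat_lit 11))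
    (@En.n l9376 (nat_lit 10039) (nat_lit 4) (nat_lit 4))
    (@En.n l10192 (nat_lit 13841) (nat_lit 10) (nat_lit 8))
    (@En.i (nat_lit 12180) (nat_lit 6) (nat_lit 5))
    (@En.n l9376 (nat_lit 5464) (nat_lit 13) (nat_lit 9))
    (@En.i (nat_lit 3358) (nat_lit 9) (nat_lit 12))
    (@En.n l2228 (nat_lit 4541) (nat_lit 10) (nat_lit 9))
    (@En.n l11 (nat_lit 5062) (nat_lit 10) (nat_lit 2))
    (@En.n l55 (nat_lit 5057) (nat_lit 12) (nat_lit 11))
    (@En.n l17846 (nat_lit 5152) (nat_lit 13) (nat_lit 14))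
    (@En.i (nat_lit 1933) (nat_lit 2) (nat_lit 8))
    (@En.n l13365 (nat_lit 5238) (nat_lit 13) (nat_lit 5))
    (@En.n l3 (nat_lit 5062) (nat_lit 15) (nat_lit 2))))
  (@Cl.mk (nat_lit 0x2000b0007000a000a00080005000b000900060006000900050008000e0007) (nat_lit 0x6030204300004b0) (nat_lit 16) Lb.e (@T16.mk En
    (@En.n l31336 (nat_lit 3184) (nat_lit 6) (nat_lit 7))
    (@En.i (nat_lit 5069) (nat_lit 1) (nat_lit 14))
    (@En.n l16339 (nat_lit 3181) (nat_lit 2) (nat_lit 8))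
    (@En.n l25946 (nat_lit 10038) (nat_lit 3) (nat_lit 5))
    (@En.n l2491 (nat_lit 5148) (nat_lit 9) (nat_lit 9))
    (@En.n l7129 (nat_lit 5148) (nat_lit 10) (nat_lit 6))
    (@En.n l31337 (nat_lit 12189) (nat_lit 6) (nat_lit 6))
    (@En.n l26887 (nat_lit 5181) (nat_lit 8) (nat_lit 9))
    (@En.n l31338 (nat_lit 5057) (nat_lit 9) (nat_lit 11))
    (@En.n l16341 (nat_lit 5075) (nat_lit 9) (nat_lit 5))
    (@En.n l9991 (nat_lit 4545) (nat_lit 11) (nat_lit 8))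
    (@En.n l55 (nat_lit 5065) (nat_lit 6) (nat_lit 10))
    (@En.i (nat_lit 6009) (nat_lit 8) (nat_lit 10))
    (@En.n l31339 (nat_lit 1936) (nat_lit 14) (nat_lit 7))
    (@En.n l31336 (nat_lit 5101) (nat_lit 4) (nat_lit 11))
    (@En.n l17 (nat_lit 5063) (nat_lit 15) (nat_lit 2))))
  (@Cl.mk (nat_lit 0x20009000e00070002000a0009000e00070002000b000600090007000e0005) (nat_lit 0x4700148003050c0) (nat_lit 16) Lb.e (@T16.mk En
    (@En.n l117 (nat_lit 4965) (nat_lit 4) (nat_lit 5))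
    (@En.n l12575 (nat_lit 5067) (nat_lit 6) (nat_lit 14))
    (@En.n l26701 (nat_lit 3398) (nat_lit 2) (nat_lit 7))
    (@En.i (nat_lit 4481) (nat_lit 3) (nat_lit 9))
    (@En.n l12577 (nat_lit 4644) (nat_lit 14) (nat_lit 6))
    (@En.n l13131 (nat_lit 5088) (nat_lit 10) (nat_lit 11))
    (@En.n l17 (nat_lit 5064) (nat_lit 6) (nat_lit 2))
    (@En.n l13131 (nat_lit 3178) (nat_lit 7) (nat_lit 7))
    (@En.i (nat_lit 5203) (nat_lit 13) (nat_lit 14))
    (@En.n l26702 (nat_lit 4966) (nat_lit 14) (nat_lit 9))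
    (@En.n l26703 (nat_lit 3181) (nat_lit 3) (nat_lit 10))
    (@En.n l7 (nat_lit 5064) (nat_lit 11) (nat_lit 2))
    (@En.n l26704 (nat_lit 3181) (nat_lit 5) (nat_lit 7))
    (@En.i (nat_lit 8974) (nat_lit 7) (nat_lit 14))
    (@En.n l614 (nat_lit 3303) (nat_lit 2) (nat_lit 9))
    (@En.n l11 (nat_lit 5064) (nat_lit 15) (nat_lit 2))))
  (@Cl.mk (nat_lit 0x2000900060009000e00080002000c0007000a00070004000a0008000e0006) (nat_lit 0x105410808003300) (nat_lit 16) Lb.e (@T16.mk En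
    (@En.i (nat_lit 5063) (nat_lit 6) (nat_lit 6))
    (@En.i (nat_lit 8897) (nat_lit 1) (nat_lit 14))
    (@En.n l217 (nat_lit 5183) (nat_lit 2) (nat_lit 8))
    (@En.n l21004 (nat_lit 5060) (nat_lit 10) (nat_lit 10))
    (@En.n l152 (nat_lit 5076) (nat_lit 4) (nat_lit 4))
    (@En.n l9874 (nat_lit 4554) (nat_lit 5) (nat_lit 7))
    (@En.i (nat_lit 6005) (nat_lit 8) (nat_lit 10))
    (@En.n l4758 (nat_lit 1937) (nat_lit 14) (nat_lit 7))
    (@En.n l26882 (nat_lit 5100) (nat_lit 9) (nat_lit 12))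
    (@En.n l17 (nat_lit 5065) (nat_lit 9) (nat_lit 2))
    (@En.n l26882 (nat_lit 3185) (nat_lit 11) (nat_lit 8))
    (@En.i (nat_lit 5068) (nat_lit 12) (nat_lit 14))
    (@En.n l7889 (nat_lit 5064) (nat_lit 9) (nat_lit 9))
    (@En.n l5592 (nat_lit 10092) (nat_lit 14) (nat_lit 6))
    (@En.n l3506 (nat_lit 5063) (nat_lit 4) (nat_lit 9))
    (@En.n l28 (nat_lit 5065) (nat_lit 15) (nat_lit 2))))
  (@Cl.mk (nat_lit 0x2000b000600090009000e00050002000b000a00070007000a0005000e0006) (nat_lit 0x6020600540000a0) (nat_lit 16) Lb.e (@T16.mk En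
    (@En.n l21190 (nat_lit 5016) (nat_lit 7) (nat_lit 6))
    (@En.n l134 (nat_lit 6027) (nat_lit 1) (nat_lit 14))
    (@En.i (nat_lit 9122) (nat_lit 9) (nat_lit 5))
    (@En.n l1899 (nat_lit 5071) (nat_lit 3) (nat_lit 10))
    (@En.n l1900 (nat_lit 5071) (nat_lit 4) (nat_lit 7))
    (@En.n l13512 (nat_lit 7973) (nat_lit 5) (nat_lit 7))
    (@En.n l55 (nat_lit 5922) (nat_lit 14) (nat_lit 10))
    (@En.n l6596 (nat_lit 5063) (nat_lit 8) (nat_lit 11))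
    (@En.n l17 (nat_lit 5066) (nat_lit 8) (nat_lit 2))
    (@En.n l13489 (nat_lit 5069) (nat_lit 9) (nat_lit 5))
    (@En.i (nat_lit 5878) (nat_lit 11) (nat_lit 14))
    (@En.n l1904 (nat_lit 5067) (nat_lit 7) (nat_lit 9))
    (@En.n l13508 (nat_lit 5806) (nat_lit 9) (nat_lit 9))
    (@En.n l13513 (nat_lit 1956) (nat_lit 14) (nat_lit 6))
    (@En.i (nat_lit 5106) (nat_lit 6) (nat_lit 11))
    (@En.n l7 (nat_lit 5066) (nat_lit 15) (nat_lit 2))))
  (@Cl.mk (nat_lit 0x2000a0006000e00070002000c00060009000e00040002000a0009000e0007) (nat_lit 0x10b00607b004480) (nat_lit 16) Lb.e (@T16.mk En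
    (@En.n l4871 (nat_lit 5066) (nat_lit 5) (nat_lit 7))
    (@En.n l5931 (nat_lit 12810) (nat_lit 13) (nat_lit 14))
    (@En.n l55 (nat_lit 5920) (nat_lit 2) (nat_lit 9))
    (@En.n l3337 (nat_lit 5065) (nat_lit 3) (nat_lit 10))
    (@En.n l17 (nat_lit 5067) (nat_lit 4) (nat_lit 2))
    (@En.n l2869 (nat_lit 5068) (nat_lit 5) (nat_lit 4))
    (@En.n l1638 (nat_lit 4508) (nat_lit 7) (nat_lit 14))
    (@En.n l2579 (nat_lit 5450) (nat_lit 9) (nat_lit 9))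
    (@En.n l998 (nat_lit 1661) (nat_lit 14) (nat_lit 6))
    (@En.n l5933 (nat_lit 5105) (nat_lit 10) (nat_lit 12))
    (@En.n l7 (nat_lit 5067) (nat_lit 10) (nat_lit 2))
    (@En.n l12444 (nat_lit 5018) (nat_lit 6) (nat_lit 7))
    (@En.n l13815 (nat_lit 6029) (nat_lit 8) (nat_lit 14))
    (@En.n l159 (nat_lit 9121) (nat_lit 14) (nat_lit 6))
    (@En.n l1758 (nat_lit 5066) (nat_lit 3) (nat_lit 10))
    (@En.n l3 (nat_lit 5067) (nat_lit 15) (nat_lit 2))))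
  (@Cl.mk (nat_lit 0x200090006000e00070002000c000c0007000a00040004000a0009000e0006) (nat_lit 0x3008707002330) (nat_lit 16) Lb.e (@T16.mk En
    (@En.i (nat_lit 5069) (nat_lit 5) (nat_lit 6))
    (@En.i (nat_lit 8955) (nat_lit 1) (nat_lit 14))
    (@En.n l217 (nat_lit 5875) (nat_lit 2) (nat_lit 9))
    (@En.n l476 (nat_lit 5076) (nat_lit 3) (nat_lit 10))
    (@En.n l152 (nat_lit 5073) (nat_lit 4) (nat_lit 4))
    (@En.i (nat_lit 6384) (nat_lit 5) (nat_lit 4))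
    (@En.i (nat_lit 5443) (nat_lit 8) (nat_lit 10))
    (@En.n l4758 (nat_lit 1528) (nat_lit 7) (nat_lit 7))
    (@En.n l1867 (nat_lit 5067) (nat_lit 9) (nat_lit 12))
    (@En.i (nat_lit 5283) (nat_lit 10) (nat_lit 12))
    (@En.n l17 (nat_lit 5068) (nat_lit 10) (nat_lit 2))
    (@En.i (nat_lit 5019) (nat_lit 12) (nat_lit 7))
    (@En.n l5 (nat_lit 6019) (nat_lit 1) (nat_lit 14))
    (@En.n l5592 (nat_lit 9119) (nat_lit 14) (nat_lit 6))
    (@En.n l3506 (nat_lit 5069) (nat_lit 3) (nat_lit 9))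
    (@En.n l28 (nat_lit 5068) (nat_lit 15) (nat_lit 2))))
  (@Cl.mk (nat_lit 0x2000b000b0007000a000a00050005000b000a0006000600090005000e0006) (nat_lit 0x7703800430070a0) (nat_lit 16) Lb.e (@T16.mk En
    (@En.i (nat_lit 5015) (nat_lit 6) (nat_lit 6))
    (@En.n l5 (nat_lit 6020) (nat_lit 1) (nat_lit 14))
    (@En.n l25946 (nat_lit 9120) (nat_lit 2) (nat_lit 5))
    (@En.n l2491 (nat_lit 5070) (nat_lit 9) (nat_lit 9))
    (@En.n l7129 (nat_lit 5070) (nat_lit 10) (nat_lit 6))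
    (@En.n l1055 (nat_lit 7974) (nat_lit 5) (nat_lit 6))
    (@En.n l217 (nat_lit 5873) (nat_lit 6) (nat_lit 10))
    (@En.n l27178 (nat_lit 5075) (nat_lit 8) (nat_lit 11))
    (@En.n l16341 (nat_lit 5072) (nat_lit 11) (nat_lit 5))
    (@En.n l26714 (nat_lit 6251) (nat_lit 9) (nat_lit 5))
    (@En.n l55 (nat_lit 5068) (nat_lit 6) (nat_lit 10))
    (@En.i (nat_lit 5793) (nat_lit 8) (nat_lit 10))
    (@En.n l36859 (nat_lit 1531) (nat_lit 13) (nat_lit 7))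
    (@En.n l24909 (nat_lit 5066) (nat_lit 14) (nat_lit 11))
    (@En.i (nat_lit 4936) (nat_lit 12) (nat_lit 11))
    (@En.n l17 (nat_lit 5069) (nat_lit 15) (nat_lit 2))))
  (@Cl.mk (nat_lit 0x200060006000c000b000600090004000e00050002000a000a0007000e000a) (nat_lit 0x4306080064044) (nat_lit 16) Lb.e (@T16.mk En
    (@En.n l6698 (nat_lit 5069) (nat_lit 11) (nat_lit 10))
    (@En.n l1578 (nat_lit 4848) (nat_lit 1) (nat_lit 14))
    (@En.n l2038 (nat_lit 1553) (nat_lit 2) (nat_lit 7))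
    (@En.n l1867 (nat_lit 5071) (nat_lit 14) (nat_lit 10))
    (@En.i (nat_lit 4934) (nat_lit 4) (nat_lit 10))
    (@En.n l17 (nat_lit 5070) (nat_lit 5) (nat_lit 2))
    (@En.n l50 (nat_lit 5020) (nat_lit 6) (nat_lit 5))
    (@En.n l998 (nat_lit 6023) (nat_lit 8) (nat_lit 14))
    (@En.n l50 (nat_lit 10036) (nat_lit 8) (nat_lit 4))
    (@En.i (nat_lit 13006) (nat_lit 9) (nat_lit 9))
    (@En.i (nat_lit 7972) (nat_lit 4) (nat_lit 6))
    (@En.n l217 (nat_lit 5929) (nat_lit 12) (nat_lit 11))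
    (@En.n l476 (nat_lit 5077) (nat_lit 13) (nat_lit 12))
    (@En.n l152 (nat_lit 5074) (nat_lit 14) (nat_lit 6))
    (@En.i (nat_lit 6250) (nat_lit 8) (nat_lit 6))
    (@En.n l28 (nat_lit 5070) (nat_lit 15) (nat_lit 2))))
  (@Cl.mk (nat_lit 0x2000a0006000e00090002000e00060002000c000b0007000a0004000e0005) (nat_lit 0x3033070074080a0) (nat_lit 16) Lb.e (@T16.mk En
    (@En.n l11634 (nat_lit 5017) (nat_lit 8) (nat_lit 5))
    (@En.n l134 (nat_lit 6026) (nat_lit 1) (nat_lit 14))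
    (@En.n l3659 (nat_lit 10035) (nat_lit 2) (nat_lit 4))
    (@En.n l3324 (nat_lit 13002) (nat_lit 8) (nat_lit 10))
    (@En.n l11635 (nat_lit 7968) (nat_lit 4) (nat_lit 7))
    (@En.n l55 (nat_lit 5925) (nat_lit 14) (nat_lit 11))
    (@En.n l3337 (nat_lit 5148) (nat_lit 12) (nat_lit 12))
    (@En.n l17 (nat_lit 5071) (nat_lit 7) (nat_lit 2))
    (@En.n l2869 (nat_lit 5070) (nat_lit 14) (nat_lit 6))
    (@En.n l1531 (nat_lit 5879) (nat_lit 1) (nat_lit 14))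
    (@En.n l3 (nat_lit 5071) (nat_lit 10) (nat_lit 2))
    (@En.n l1532 (nat_lit 5066) (nat_lit 12) (nat_lit 9))
    (@En.n l11636 (nat_lit 5750) (nat_lit 1) (nat_lit 14))
    (@En.n l3324 (nat_lit 1957) (nat_lit 14) (nat_lit 6))
    (@En.n l11637 (nat_lit 2891) (nat_lit 3) (nat_lit 10))
    (@En.n l7 (nat_lit 5071) (nat_lit 15) (nat_lit 2))))
noncomputable def a317 : T16 Cl := @T16.mk Cl
  (@Cl.mk (nat_lit 0x20008000b000b0005000b000a0005000500080005000e00060002000e000b) (nat_lit 0x4840320000900b8) (nat_lit 16) Lb.e (@T16.mk En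
    (@En.n l6698 (nat_lit 5069) (nat_lit 14) (nat_lit 11))
    (@En.i (nat_lit 5236) (nat_lit 1) (nat_lit 14))
    (@En.n l17 (nat_lit 5072) (nat_lit 2) (nat_lit 2))
    (@En.n l50 (nat_lit 5256) (nat_lit 3) (nat_lit 6))
    (@En.n l998 (nat_lit 6018) (nat_lit 5) (nat_lit 14))
    (@En.n l29376 (nat_lit 6377) (nat_lit 5) (nat_lit 5))
    (@En.n l11 (nat_lit 5074) (nat_lit 10) (nat_lit 8))
    (@En.n l55 (nat_lit 5074) (nat_lit 11) (nat_lit 5))
    (@En.n l16810 (nat_lit 10109) (nat_lit 8) (nat_lit 5))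
    (@En.n l13825 (nat_lit 5865) (nat_lit 10) (nat_lit 10))
    (@En.n l2036 (nat_lit 2522) (nat_lit 11) (nat_lit 11))
    (@En.i (nat_lit 6386) (nat_lit 8) (nat_lit 5))
    (@En.n l6697 (nat_lit 5073) (nat_lit 5) (nat_lit 11))
    (@En.n l6698 (nat_lit 5794) (nat_lit 7) (nat_lit 11))
    (@En.i (nat_lit 1468) (nat_lit 12) (nat_lit 8))
    (@En.n l3 (nat_lit 5072) (nat_lit 15) (nat_lit 2))))
  (@Cl.mk (nat_lit 0x200080006000e00070002000e000c00020008000b0004000a0009000e0005) (nat_lit 0x10300c904301260) (nat_lit 16) Lb.e (@T16.mk En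
    (@En.n l5611 (nat_lit 5072) (nat_lit 8) (nat_lit 5))
    (@En.i (nat_lit 12809) (nat_lit 10) (nat_lit 14))
    (@En.n l2579 (nat_lit 5867) (nat_lit 2) (nat_lit 9))
    (@En.i (nat_lit 2528) (nat_lit 3) (nat_lit 10))
    (@En.i (nat_lit 6382) (nat_lit 4) (nat_lit 4))
    (@En.i (nat_lit 5448) (nat_lit 7) (nat_lit 11))
    (@En.i (nat_lit 1522) (nat_lit 12) (nat_lit 8))
    (@En.n l3 (nat_lit 5073) (nat_lit 7) (nat_lit 2))
    (@En.i (nat_lit 5068) (nat_lit 9) (nat_lit 12))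
    (@En.i (nat_lit 5235) (nat_lit 1) (nat_lit 14))
    (@En.n l17 (nat_lit 5073) (nat_lit 10) (nat_lit 2))
    (@En.n l2805 (nat_lit 5259) (nat_lit 3) (nat_lit 7))
    (@En.n l998 (nat_lit 6021) (nat_lit 5) (nat_lit 14))
    (@En.n l5592 (nat_lit 9123) (nat_lit 14) (nat_lit 6))
    (@En.n l3100 (nat_lit 5072) (nat_lit 6) (nat_lit 8))
    (@En.n l28 (nat_lit 5073) (nat_lit 15) (nat_lit 2))))
  (@Cl.mk (nat_lit 0x20006000c000b000500080004000e00050002000e000a00020008000e000b) (nat_lit 0x42060700c70459) (nat_lit 16) Lb.e (@T16.mk En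
    (@En.i (nat_lit 5072) (nat_lit 13) (nat_lit 11))
    (@En.n l1578 (nat_lit 4844) (nat_lit 1) (nat_lit 14))
    (@En.i (nat_lit 1467) (nat_lit 12) (nat_lit 8))
    (@En.n l3 (nat_lit 5074) (nat_lit 3) (nat_lit 2))
    (@En.i (nat_lit 5070) (nat_lit 4) (nat_lit 10))
    (@En.i (nat_lit 5237) (nat_lit 1) (nat_lit 14))
    (@En.n l17 (nat_lit 5074) (nat_lit 6) (nat_lit 2))
    (@En.n l50 (nat_lit 5257) (nat_lit 7) (nat_lit 5))
    (@En.n l998 (nat_lit 6022) (nat_lit 9) (nat_lit 14))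
    (@En.n l50 (nat_lit 10118) (nat_lit 9) (nat_lit 4))
    (@En.i (nat_lit 13011) (nat_lit 10) (nat_lit 8))
    (@En.i (nat_lit 10108) (nat_lit 7) (nat_lit 5))
    (@En.n l217 (nat_lit 5869) (nat_lit 13) (nat_lit 11))
    (@En.n l2036 (nat_lit 2520) (nat_lit 10) (nat_lit 12))
    (@En.i (nat_lit 6395) (nat_lit 7) (nat_lit 6))
    (@En.n l28 (nat_lit 5074) (nat_lit 15) (nat_lit 2))))
  (@Cl.mk (nat_lit 0x2000b00050008000b000b0005000b00090005000500080005000b000e0007) (nat_lit 0x8048003200006a0) (nat_lit 16) Lb.e (@T16.mk En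
    (@En.n l3928 (nat_lit 7571) (nat_lit 2) (nat_lit 7))
    (@En.i (nat_lit 5072) (nat_lit 4) (nat_lit 14))
    (@En.n l250 (nat_lit 7576) (nat_lit 2) (nat_lit 11))
    (@En.n l29376 (nat_lit 7579) (nat_lit 3) (nat_lit 5))
    (@En.n l11 (nat_lit 5077) (nat_lit 10) (nat_lit 8))
    (@En.n l55 (nat_lit 5077) (nat_lit 11) (nat_lit 5))
    (@En.n l29377 (nat_lit 12186) (nat_lit 6) (nat_lit 5))
    (@En.n l13825 (nat_lit 5486) (nat_lit 8) (nat_lit 9))
    (@En.n l29377 (nat_lit 2525) (nat_lit 9) (nat_lit 11))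
    (@En.i (nat_lit 10971) (nat_lit 9) (nat_lit 5))
    (@En.n l6697 (nat_lit 5076) (nat_lit 5) (nat_lit 11))
    (@En.n l6698 (nat_lit 6008) (nat_lit 7) (nat_lit 11))
    (@En.n l781 (nat_lit 1532) (nat_lit 13) (nat_lit 8))
    (@En.n l6693 (nat_lit 5057) (nat_lit 14) (nat_lit 5))
    (@En.n l3928 (nat_lit 4935) (nat_lit 0) (nat_lit 11))
    (@En.n l17 (nat_lit 5075) (nat_lit 15) (nat_lit 2))))
  (@Cl.mk (nat_lit 0x200080006000b000e00080002000c00050008000b0004000a0008000e0005) (nat_lit 0x107400901901220) (nat_lit 16) Lb.e (@T16.mk En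
    (@En.n l5611 (nat_lit 5075) (nat_lit 6) (nat_lit 5))
    (@En.i (nat_lit 8902) (nat_lit 1) (nat_lit 14))
    (@En.n l2579 (nat_lit 5494) (nat_lit 2) (nat_lit 8))
    (@En.n l6149 (nat_lit 2529) (nat_lit 10) (nat_lit 10))
    (@En.i (nat_lit 9863) (nat_lit 4) (nat_lit 4))
    (@En.i (nat_lit 6006) (nat_lit 7) (nat_lit 11))
    (@En.n l781 (nat_lit 1530) (nat_lit 6) (nat_lit 8))
    (@En.n l6154 (nat_lit 5060) (nat_lit 14) (nat_lit 5))
    (@En.n l2125 (nat_lit 5281) (nat_lit 9) (nat_lit 12))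
    (@En.n l17 (nat_lit 5076) (nat_lit 9) (nat_lit 2))
    (@En.n l26874 (nat_lit 7570) (nat_lit 11) (nat_lit 8))
    (@En.i (nat_lit 5073) (nat_lit 12) (nat_lit 14))
    (@En.n l245 (nat_lit 7580) (nat_lit 13) (nat_lit 11))
    (@En.n l5592 (nat_lit 7581) (nat_lit 14) (nat_lit 6))
    (@En.n l3100 (nat_lit 5075) (nat_lit 4) (nat_lit 8))
    (@En.n l28 (nat_lit 5076) (nat_lit 15) (nat_lit 2))))
  (@Cl.mk (nat_lit 0x20006000c000a000500080004000b000e00060002000a00050008000e000b) (nat_lit 0x32060580070459) (nat_lit 16) Lb.e (@T16.mk En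
    (@En.i (nat_lit 5075) (nat_lit 11) (nat_lit 11))
    (@En.n l1578 (nat_lit 5154) (nat_lit 12) (nat_lit 14))
    (@En.n l781 (nat_lit 1929) (nat_lit 2) (nat_lit 8))
    (@En.n l3264 (nat_lit 5062) (nat_lit 14) (nat_lit 5))
    (@En.n l3928 (nat_lit 4933) (nat_lit 4) (nat_lit 10))
    (@En.n l17 (nat_lit 5077) (nat_lit 5) (nat_lit 2))
    (@En.n l3928 (nat_lit 7572) (nat_lit 6) (nat_lit 6))
    (@En.i (nat_lit 5074) (nat_lit 8) (nat_lit 14))
    (@En.n l250 (nat_lit 7577) (nat_lit 9) (nat_lit 11))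
    (@En.n l50 (nat_lit 7578) (nat_lit 9) (nat_lit 4))
    (@En.i (nat_lit 13839) (nat_lit 10) (nat_lit 8))
    (@En.n l3201 (nat_lit 12177) (nat_lit 5) (nat_lit 5))
    (@En.n l217 (nat_lit 5485) (nat_lit 13) (nat_lit 10))
    (@En.n l3201 (nat_lit 2523) (nat_lit 8) (nat_lit 12))
    (@En.i (nat_lit 10970) (nat_lit 8) (nat_lit 6))
    (@En.n l28 (nat_lit 5077) (nat_lit 15) (nat_lit 2))))
  (@Cl.mk (nat_lit 0x300080008000b00090007000a000800050008000800070006000d00090008) (nat_lit 0x560305205600663) (nat_lit 16) Lb.e (@T16.mk En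
    (@En.n l3098 (nat_lit 1428) (nat_lit 0) (nat_lit 8))
    (@En.n l12513 (nat_lit 5081) (nat_lit 14) (nat_lit 9))
    (@En.n l12514 (nat_lit 5083) (nat_lit 2) (nat_lit 13))
    (@En.n l12515 (nat_lit 1738) (nat_lit 3) (nat_lit 6))
    (@En.n l2272 (nat_lit 4224) (nat_lit 4) (nat_lit 7))
    (@En.n l12516 (nat_lit 5089) (nat_lit 8) (nat_lit 8))
    (@En.n l5482 (nat_lit 4359) (nat_lit 10) (nat_lit 8))
    (@En.n l4572 (nat_lit 5099) (nat_lit 7) (nat_lit 5))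
    (@En.n l12517 (nat_lit 1279) (nat_lit 8) (nat_lit 8))
    (@En.i (nat_lit 4154) (nat_lit 8) (nat_lit 10))
    (@En.n l1322 (nat_lit 6814) (nat_lit 2) (nat_lit 7))
    (@En.n l5483 (nat_lit 978) (nat_lit 12) (nat_lit 9))
    (@En.n l12518 (nat_lit 5079) (nat_lit 7) (nat_lit 11))
    (@En.n l12519 (nat_lit 5079) (nat_lit 8) (nat_lit 8))
    (@En.n l6878 (nat_lit 11857) (nat_lit 12) (nat_lit 8))
    (@En.n l12520 (nat_lit 5044) (nat_lit 15) (nat_lit 3))))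
  (@Cl.mk (nat_lit 0x200080007000d000a000900030008000b00080006000900070005000e0008) (nat_lit 0x307730592040046) (nat_lit 16) Lb.e (@T16.mk En
    (@En.n l4783 (nat_lit 5078) (nat_lit 6) (nat_lit 8))
    (@En.n l97 (nat_lit 3134) (nat_lit 1) (nat_lit 14))
    (@En.n l24454 (nat_lit 5102) (nat_lit 2) (nat_lit 5))
    (@En.n l11386 (nat_lit 1280) (nat_lit 3) (nat_lit 7))
    (@En.n l1723 (nat_lit 4159) (nat_lit 4) (nat_lit 9))
    (@En.n l25703 (nat_lit 6815) (nat_lit 5) (nat_lit 6))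
    (@En.i (nat_lit 979) (nat_lit 6) (nat_lit 8))
    (@En.i (nat_lit 14014) (nat_lit 7) (nat_lit 11))
    (@En.n l5311 (nat_lit 11856) (nat_lit 9) (nat_lit 8))
    (@En.n l18540 (nat_lit 5045) (nat_lit 9) (nat_lit 3))
    (@En.n l6444 (nat_lit 1427) (nat_lit 0) (nat_lit 9))
    (@En.n l5838 (nat_lit 5080) (nat_lit 12) (nat_lit 10))
    (@En.n l25893 (nat_lit 5082) (nat_lit 13) (nat_lit 13))
    (@En.n l26270 (nat_lit 4930) (nat_lit 14) (nat_lit 7))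
    (@En.n l26271 (nat_lit 2836) (nat_lit 4) (nat_lit 8))
    (@En.n l107 (nat_lit 5079) (nat_lit 15) (nat_lit 2))))
  (@Cl.mk (nat_lit 0x200090007000a0008000b0007000a000700060005000900080006000e0009) (nat_lit 0x306230000053057) (nat_lit 16) Lb.e (@T16.mk En
    (@En.i (nat_lit 5081) (nat_lit 2) (nat_lit 9))
    (@En.n l97 (nat_lit 3145) (nat_lit 1) (nat_lit 14))
    (@En.n l16674 (nat_lit 2892) (nat_lit 2) (nat_lit 6))
    (@En.n l8536 (nat_lit 5082) (nat_lit 3) (nat_lit 8))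
    (@En.n l6204 (nat_lit 5079) (nat_lit 4) (nat_lit 9))
    (@En.n l27084 (nat_lit 5045) (nat_lit 5) (nat_lit 5))
    (@En.n l12635 (nat_lit 6817) (nat_lit 6) (nat_lit 6))
    (@En.i (nat_lit 986) (nat_lit 7) (nat_lit 7))
    (@En.n l12633 (nat_lit 14013) (nat_lit 8) (nat_lit 10))
    (@En.n l909 (nat_lit 11859) (nat_lit 10) (nat_lit 7))
    (@En.i (nat_lit 4963) (nat_lit 7) (nat_lit 11))
    (@En.n l2724 (nat_lit 1194) (nat_lit 12) (nat_lit 8))
    (@En.i (nat_lit 1807) (nat_lit 8) (nat_lit 10))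
    (@En.n l27108 (nat_lit 4937) (nat_lit 14) (nat_lit 7))
    (@En.n l11 (nat_lit 2831) (nat_lit 0) (nat_lit 9))
    (@En.n l107 (nat_lit 5080) (nat_lit 15) (nat_lit 2))))
  (@Cl.mk (nat_lit 0x600090007000a00070007000a000800070006000a00090006000900090008) (nat_lit 0x503001300630662) (nat_lit 16) Lb.e (@T16.mk En
    (@En.n l25988 (nat_lit 2833) (nat_lit 8) (nat_lit 8))
    (@En.n l25989 (nat_lit 5086) (nat_lit 7) (nat_lit 9))
    (@En.n l25990 (nat_lit 4361) (nat_lit 9) (nat_lit 9))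
    (@En.n l16674 (nat_lit 5101) (nat_lit 3) (nat_lit 6))
    (@En.n l25991 (nat_lit 5083) (nat_lit 7) (nat_lit 9))
    (@En.n l25992 (nat_lit 5078) (nat_lit 9) (nat_lit 10))
    (@En.n l25988 (nat_lit 5044) (nat_lit 10) (nat_lit 6))
    (@En.n l12635 (nat_lit 6816) (nat_lit 9) (nat_lit 7))
    (@En.n l3303 (nat_lit 980) (nat_lit 8) (nat_lit 8))
    (@En.n l3 (nat_lit 5080) (nat_lit 8) (nat_lit 10))
    (@En.n l527 (nat_lit 5080) (nat_lit 9) (nat_lit 7))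
    (@En.n l25993 (nat_lit 11858) (nat_lit 9) (nat_lit 7))
    (@En.i (nat_lit 4962) (nat_lit 8) (nat_lit 10))
    (@En.n l25994 (nat_lit 1197) (nat_lit 9) (nat_lit 7))
    (@En.i (nat_lit 1802) (nat_lit 9) (nat_lit 9))
    (@En.n l12176 (nat_lit 5280) (nat_lit 10) (nat_lit 6))))
  (@Cl.mk (nat_lit 0x20008000d000900080003000b0008000b00080007000500080005000e0008) (nat_lit 0x466204502002046) (nat_lit 16) Lb.e (@T16.mk En
    (@En.n l936 (nat_lit 5083) (nat_lit 5) (nat_lit 8))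
    (@En.n l7165 (nat_lit 2990) (nat_lit 1) (nat_lit 14))
    (@En.i (nat_lit 2886) (nat_lit 2) (nat_lit 5))
    (@En.i (nat_lit 1345) (nat_lit 3) (nat_lit 8))
    (@En.n l24270 (nat_lit 5048) (nat_lit 4) (nat_lit 5))
    (@En.n l2874 (nat_lit 6819) (nat_lit 5) (nat_lit 7))
    (@En.n l26498 (nat_lit 988) (nat_lit 6) (nat_lit 8))
    (@En.n l2874 (nat_lit 14016) (nat_lit 7) (nat_lit 11))
    (@En.i (nat_lit 10487) (nat_lit 14) (nat_lit 8))
    (@En.n l19733 (nat_lit 5080) (nat_lit 10) (nat_lit 11))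
    (@En.n l18565 (nat_lit 5085) (nat_lit 10) (nat_lit 3))
    (@En.n l29101 (nat_lit 1407) (nat_lit 12) (nat_lit 8))
    (@En.n l12385 (nat_lit 1779) (nat_lit 13) (nat_lit 9))
    (@En.n l564 (nat_lit 2890) (nat_lit 14) (nat_lit 13))
    (@En.n l3506 (nat_lit 2829) (nat_lit 3) (nat_lit 8))
    (@En.n l28 (nat_lit 5082) (nat_lit 15) (nat_lit 2))))
  (@Cl.mk (nat_lit 0x3000a00080008000b00090008000600090005000800080007000d00080007) (nat_lit 0x456134020560550) (nat_lit 16) Lb.e (@T16.mk En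
    (@En.n l25548 (nat_lit 1514) (nat_lit 0) (nat_lit 7))
    (@En.n l25549 (nat_lit 1490) (nat_lit 0) (nat_lit 8))
    (@En.n l564 (nat_lit 2893) (nat_lit 2) (nat_lit 13))
    (@En.n l25550 (nat_lit 2830) (nat_lit 9) (nat_lit 7))
    (@En.n l7866 (nat_lit 5087) (nat_lit 8) (nat_lit 8))
    (@En.n l25551 (nat_lit 4360) (nat_lit 10) (nat_lit 8))
    (@En.n l1769 (nat_lit 2846) (nat_lit 6) (nat_lit 5))
    (@En.n l25552 (nat_lit 1346) (nat_lit 9) (nat_lit 9))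
    (@En.n l25553 (nat_lit 5049) (nat_lit 8) (nat_lit 6))
    (@En.n l25554 (nat_lit 6818) (nat_lit 8) (nat_lit 8))
    (@En.n l25555 (nat_lit 983) (nat_lit 11) (nat_lit 9))
    (@En.i (nat_lit 5082) (nat_lit 7) (nat_lit 11))
    (@En.n l5386 (nat_lit 5082) (nat_lit 8) (nat_lit 8))
    (@En.n l25556 (nat_lit 10488) (nat_lit 14) (nat_lit 8))
    (@En.n l25557 (nat_lit 5081) (nat_lit 12) (nat_lit 10))
    (@En.n l25558 (nat_lit 5084) (nat_lit 15) (nat_lit 3))))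
  (@Cl.mk (nat_lit 0x3000a00080008000b000900070006000a0005000800080007000d00060009) (nat_lit 0x456030020150506) (nat_lit 16) Lb.e (@T16.mk En
    (@En.n l35745 (nat_lit 1654) (nat_lit 9) (nat_lit 9))
    (@En.n l12302 (nat_lit 5081) (nat_lit 15) (nat_lit 6))
    (@En.n l35746 (nat_lit 5106) (nat_lit 2) (nat_lit 13))
    (@En.i (nat_lit 4233) (nat_lit 9) (nat_lit 7))
    (@En.n l17 (nat_lit 5088) (nat_lit 8) (nat_lit 8))
    (@En.n l27100 (nat_lit 3156) (nat_lit 10) (nat_lit 8))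
    (@En.n l35747 (nat_lit 2844) (nat_lit 6) (nat_lit 5))
    (@En.n l35748 (nat_lit 5090) (nat_lit 9) (nat_lit 10))
    (@En.i (nat_lit 5047) (nat_lit 10) (nat_lit 6))
    (@En.n l9339 (nat_lit 6344) (nat_lit 9) (nat_lit 7))
    (@En.n l26230 (nat_lit 984) (nat_lit 11) (nat_lit 9))
    (@En.n l35749 (nat_lit 5085) (nat_lit 7) (nat_lit 11))
    (@En.n l35750 (nat_lit 5085) (nat_lit 8) (nat_lit 8))
    (@En.n l34554 (nat_lit 10491) (nat_lit 14) (nat_lit 8))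
    (@En.n l35751 (nat_lit 3180) (nat_lit 4) (nat_lit 10))
    (@En.n l35752 (nat_lit 5083) (nat_lit 15) (nat_lit 3))))
  (@Cl.mk (nat_lit 0x20008000d0007000a0003000b0008000b00080006000500090005000e0008) (nat_lit 0x360704592002042) (nat_lit 16) Lb.e (@T16.mk En
    (@En.n l20043 (nat_lit 5084) (nat_lit 5) (nat_lit 8))
    (@En.n l23729 (nat_lit 3146) (nat_lit 1) (nat_lit 14))
    (@En.n l28 (nat_lit 2887) (nat_lit 2) (nat_lit 5))
    (@En.n l343 (nat_lit 5091) (nat_lit 3) (nat_lit 9))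
    (@En.n l28 (nat_lit 5046) (nat_lit 4) (nat_lit 5))
    (@En.n l485 (nat_lit 6343) (nat_lit 5) (nat_lit 6))
    (@En.n l420 (nat_lit 987) (nat_lit 6) (nat_lit 8))
    (@En.i (nat_lit 14017) (nat_lit 7) (nat_lit 11))
    (@En.n l890 (nat_lit 10490) (nat_lit 14) (nat_lit 8))
    (@En.n l13386 (nat_lit 4964) (nat_lit 10) (nat_lit 11))
    (@En.n l23730 (nat_lit 5082) (nat_lit 10) (nat_lit 3))
    (@En.n l1385 (nat_lit 2124) (nat_lit 8) (nat_lit 10))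
    (@En.n l13388 (nat_lit 5080) (nat_lit 13) (nat_lit 7))
    (@En.n l20743 (nat_lit 2891) (nat_lit 14) (nat_lit 13))
    (@En.n l5249 (nat_lit 2832) (nat_lit 3) (nat_lit 8))
    (@En.n l17 (nat_lit 5085) (nat_lit 15) (nat_lit 2))))
  (@Cl.mk (nat_lit 0x2000a000900080007000b000a0006000900070005000800060009000e0007) (nat_lit 0x245073050050370) (nat_lit 16) Lb.e (@T16.mk En
    (@En.n l12298 (nat_lit 5081) (nat_lit 11) (nat_lit 7))
    (@En.n l1896 (nat_lit 11448) (nat_lit 1) (nat_lit 14))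
    (@En.n l4664 (nat_lit 5050) (nat_lit 9) (nat_lit 9))
    (@En.n l12299 (nat_lit 1512) (nat_lit 3) (nat_lit 6))
    (@En.n l12300 (nat_lit 1491) (nat_lit 4) (nat_lit 8))
    (@En.n l12301 (nat_lit 5279) (nat_lit 5) (nat_lit 5))
    (@En.i (nat_lit 2802) (nat_lit 6) (nat_lit 7))
    (@En.n l1896 (nat_lit 4579) (nat_lit 9) (nat_lit 9))
    (@En.n l936 (nat_lit 5100) (nat_lit 8) (nat_lit 6))
    (@En.n l4609 (nat_lit 5087) (nat_lit 10) (nat_lit 10))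
    (@En.n l8 (nat_lit 5089) (nat_lit 11) (nat_lit 11))
    (@En.i (nat_lit 5092) (nat_lit 12) (nat_lit 7))
    (@En.n l9624 (nat_lit 6820) (nat_lit 13) (nat_lit 8))
    (@En.n l3536 (nat_lit 1543) (nat_lit 14) (nat_lit 9))
    (@En.n l12302 (nat_lit 5081) (nat_lit 9) (nat_lit 10))
    (@En.n l18 (nat_lit 5086) (nat_lit 15) (nat_lit 2))))
  (@Cl.mk (nat_lit 0x2000b000a00090007000a000500080006000d0007000600030009000e0008) (nat_lit 0x247020504000486) (nat_lit 16) Lb.e (@T16.mk En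
    (@En.n l11874 (nat_lit 5083) (nat_lit 13) (nat_lit 8))
    (@En.i (nat_lit 10350) (nat_lit 1) (nat_lit 14))
    (@En.n l11875 (nat_lit 5086) (nat_lit 2) (nat_lit 9))
    (@En.n l11876 (nat_lit 5088) (nat_lit 3) (nat_lit 3))
    (@En.n l4900 (nat_lit 1515) (nat_lit 0) (nat_lit 6))
    (@En.n l3402 (nat_lit 1489) (nat_lit 5) (nat_lit 7))
    (@En.n l11877 (nat_lit 5288) (nat_lit 7) (nat_lit 13))
    (@En.n l11878 (nat_lit 2553) (nat_lit 7) (nat_lit 6))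
    (@En.n l117 (nat_lit 3661) (nat_lit 10) (nat_lit 8))
    (@En.n l575 (nat_lit 2845) (nat_lit 9) (nat_lit 5))
    (@En.n l11879 (nat_lit 1348) (nat_lit 11) (nat_lit 10))
    (@En.n l11880 (nat_lit 5093) (nat_lit 12) (nat_lit 7))
    (@En.n l11881 (nat_lit 6821) (nat_lit 13) (nat_lit 9))
    (@En.n l11880 (nat_lit 1544) (nat_lit 14) (nat_lit 10))
    (@En.n l10727 (nat_lit 5083) (nat_lit 11) (nat_lit 11))
    (@En.n l3 (nat_lit 5087) (nat_lit 15) (nat_lit 2))))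
noncomputable def a318 : T16 Cl := @T16.mk Cl
  (@Cl.mk (nat_lit 0x2000b000a00080007000b000500080006000d0005000800030009000e0008) (nat_lit 0x1460204040504b6) (nat_lit 16) Lb.e (@T16.mk En
    (@En.n l5 (nat_lit 5084) (nat_lit 13) (nat_lit 8))
    (@En.n l1553 (nat_lit 10348) (nat_lit 1) (nat_lit 14))
    (@En.n l4424 (nat_lit 3186) (nat_lit 2) (nat_lit 9))
    (@En.n l22437 (nat_lit 5087) (nat_lit 3) (nat_lit 3))
    (@En.n l5040 (nat_lit 1653) (nat_lit 10) (nat_lit 8))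
    (@En.i (nat_lit 5086) (nat_lit 5) (nat_lit 5))
    (@En.n l22438 (nat_lit 5105) (nat_lit 7) (nat_lit 13))
    (@En.i (nat_lit 2781) (nat_lit 7) (nat_lit 6))
    (@En.n l152 (nat_lit 3663) (nat_lit 10) (nat_lit 8))
    (@En.n l3851 (nat_lit 2843) (nat_lit 9) (nat_lit 5))
    (@En.n l8 (nat_lit 5095) (nat_lit 11) (nat_lit 11))
    (@En.i (nat_lit 5094) (nat_lit 12) (nat_lit 7))
    (@En.n l1553 (nat_lit 6346) (nat_lit 13) (nat_lit 8))
    (@En.n l3536 (nat_lit 1545) (nat_lit 14) (nat_lit 10))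
    (@En.i (nat_lit 5084) (nat_lit 11) (nat_lit 11))
    (@En.n l18 (nat_lit 5088) (nat_lit 15) (nat_lit 2))))
  (@Cl.mk (nat_lit 0x2000b000a0008000b00090005000800060005000d000800070003000e0008) (nat_lit 0x145620500560086) (nat_lit 16) Lb.e (@T16.mk En
    (@En.n l133 (nat_lit 5078) (nat_lit 14) (nat_lit 8))
    (@En.n l4770 (nat_lit 11449) (nat_lit 1) (nat_lit 14))
    (@En.n l7 (nat_lit 5092) (nat_lit 2) (nat_lit 3))
    (@En.n l2813 (nat_lit 1513) (nat_lit 3) (nat_lit 7))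
    (@En.i (nat_lit 5086) (nat_lit 4) (nat_lit 8))
    (@En.n l4771 (nat_lit 5087) (nat_lit 6) (nat_lit 13))
    (@En.n l4772 (nat_lit 5282) (nat_lit 6) (nat_lit 5))
    (@En.i (nat_lit 2552) (nat_lit 7) (nat_lit 6))
    (@En.n l130 (nat_lit 4577) (nat_lit 10) (nat_lit 8))
    (@En.n l936 (nat_lit 5097) (nat_lit 9) (nat_lit 5))
    (@En.i (nat_lit 1383) (nat_lit 11) (nat_lit 9))
    (@En.n l130 (nat_lit 4161) (nat_lit 7) (nat_lit 11))
    (@En.i (nat_lit 6779) (nat_lit 13) (nat_lit 8))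
    (@En.n l4773 (nat_lit 1542) (nat_lit 14) (nat_lit 10))
    (@En.n l4774 (nat_lit 5078) (nat_lit 12) (nat_lit 11))
    (@En.n l18 (nat_lit 5089) (nat_lit 15) (nat_lit 2))))
  (@Cl.mk (nat_lit 0x300090009000c000a0007000a0004000700070006000c0006000d00090004) (nat_lit 0x670301000060170) (nat_lit 16) Lb.e (@T16.mk En
    (@En.n l3480 (nat_lit 1346) (nat_lit 0) (nat_lit 4))
    (@En.n l17012 (nat_lit 5084) (nat_lit 0) (nat_lit 9))
    (@En.n l8453 (nat_lit 2347) (nat_lit 1) (nat_lit 13))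
    (@En.i (nat_lit 5078) (nat_lit 3) (nat_lit 6))
    (@En.n l780 (nat_lit 5103) (nat_lit 12) (nat_lit 12))
    (@En.n l17012 (nat_lit 4231) (nat_lit 10) (nat_lit 6))
    (@En.n l12516 (nat_lit 5095) (nat_lit 9) (nat_lit 7))
    (@En.n l3243 (nat_lit 4355) (nat_lit 11) (nat_lit 7))
    (@En.n l20037 (nat_lit 6794) (nat_lit 8) (nat_lit 4))
    (@En.i (nat_lit 1014) (nat_lit 8) (nat_lit 10))
    (@En.n l17012 (nat_lit 6345) (nat_lit 1) (nat_lit 7))
    (@En.n l20038 (nat_lit 982) (nat_lit 12) (nat_lit 10))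
    (@En.n l20039 (nat_lit 5091) (nat_lit 6) (nat_lit 12))
    (@En.n l20040 (nat_lit 5091) (nat_lit 7) (nat_lit 9))
    (@En.n l20041 (nat_lit 11952) (nat_lit 5) (nat_lit 9))
    (@En.n l12520 (nat_lit 5047) (nat_lit 15) (nat_lit 3))))
  (@Cl.mk (nat_lit 0x20007000c0007000d000a000400030009000c0009000600090004000e0007) (nat_lit 0x7018006a201030) (nat_lit 16) Lb.e (@T16.mk En
    (@En.n l8463 (nat_lit 5090) (nat_lit 7) (nat_lit 7))
    (@En.n l23279 (nat_lit 2989) (nat_lit 1) (nat_lit 14))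
    (@En.i (nat_lit 6797) (nat_lit 2) (nat_lit 4))
    (@En.n l35565 (nat_lit 1017) (nat_lit 9) (nat_lit 9))
    (@En.n l485 (nat_lit 6342) (nat_lit 4) (nat_lit 6))
    (@En.n l420 (nat_lit 1032) (nat_lit 5) (nat_lit 9))
    (@En.i (nat_lit 13308) (nat_lit 6) (nat_lit 12))
    (@En.n l287 (nat_lit 11953) (nat_lit 8) (nat_lit 9))
    (@En.n l11 (nat_lit 5046) (nat_lit 8) (nat_lit 3))
    (@En.n l20967 (nat_lit 1345) (nat_lit 9) (nat_lit 4))
    (@En.n l55 (nat_lit 5085) (nat_lit 11) (nat_lit 10))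
    (@En.n l35566 (nat_lit 2363) (nat_lit 12) (nat_lit 13))
    (@En.n l12276 (nat_lit 5079) (nat_lit 13) (nat_lit 7))
    (@En.n l23321 (nat_lit 5107) (nat_lit 14) (nat_lit 12))
    (@En.n l35567 (nat_lit 4232) (nat_lit 5) (nat_lit 7))
    (@En.n l17 (nat_lit 5091) (nat_lit 15) (nat_lit 2))))
  (@Cl.mk (nat_lit 0x2000b000a0007000b000a0005000800060005000d000600090003000e0008) (nat_lit 0x120620500504086) (nat_lit 16) Lb.e (@T16.mk En
    (@En.n l5 (nat_lit 5044) (nat_lit 14) (nat_lit 8))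
    (@En.i (nat_lit 9798) (nat_lit 1) (nat_lit 14))
    (@En.i (nat_lit 5089) (nat_lit 2) (nat_lit 3))
    (@En.n l282 (nat_lit 5041) (nat_lit 9) (nat_lit 9))
    (@En.n l12482 (nat_lit 1987) (nat_lit 4) (nat_lit 6))
    (@En.n l127 (nat_lit 5088) (nat_lit 6) (nat_lit 13))
    (@En.n l4935 (nat_lit 5361) (nat_lit 6) (nat_lit 5))
    (@En.i (nat_lit 2780) (nat_lit 7) (nat_lit 6))
    (@En.n l152 (nat_lit 4576) (nat_lit 10) (nat_lit 8))
    (@En.n l936 (nat_lit 5096) (nat_lit 9) (nat_lit 5))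
    (@En.n l833 (nat_lit 5093) (nat_lit 11) (nat_lit 10))
    (@En.n l4752 (nat_lit 4157) (nat_lit 12) (nat_lit 11))
    (@En.n l4750 (nat_lit 5389) (nat_lit 13) (nat_lit 7))
    (@En.n l3536 (nat_lit 1547) (nat_lit 14) (nat_lit 10))
    (@En.i (nat_lit 5044) (nat_lit 12) (nat_lit 11))
    (@En.n l18 (nat_lit 5092) (nat_lit 15) (nat_lit 2))))
  (@Cl.mk (nat_lit 0x2000c000b0007000a000400070005000d000c0006000300090004000e0009) (nat_lit 0x220100045005097) (nat_lit 16) Lb.e (@T16.mk En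
    (@En.n l817 (nat_lit 5049) (nat_lit 12) (nat_lit 9))
    (@En.n l5253 (nat_lit 9799) (nat_lit 1) (nat_lit 14))
    (@En.n l5254 (nat_lit 1383) (nat_lit 2) (nat_lit 4))
    (@En.n l5255 (nat_lit 5092) (nat_lit 3) (nat_lit 9))
    (@En.n l5254 (nat_lit 5094) (nat_lit 4) (nat_lit 3))
    (@En.n l5253 (nat_lit 1674) (nat_lit 0) (nat_lit 6))
    (@En.n l1739 (nat_lit 5095) (nat_lit 7) (nat_lit 12))
    (@En.i (nat_lit 5115) (nat_lit 8) (nat_lit 13))
    (@En.n l17 (nat_lit 2779) (nat_lit 8) (nat_lit 5))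
    (@En.n l3532 (nat_lit 4574) (nat_lit 11) (nat_lit 7))
    (@En.n l17 (nat_lit 6803) (nat_lit 10) (nat_lit 4))
    (@En.n l5256 (nat_lit 1081) (nat_lit 8) (nat_lit 10))
    (@En.n l5257 (nat_lit 5390) (nat_lit 13) (nat_lit 7))
    (@En.i (nat_lit 1549) (nat_lit 14) (nat_lit 11))
    (@En.n l816 (nat_lit 5049) (nat_lit 10) (nat_lit 12))
    (@En.n l7 (nat_lit 5093) (nat_lit 15) (nat_lit 2))))
  (@Cl.mk (nat_lit 0x2000c000b0007000b000400070005000d0005000d000300090003000e0009) (nat_lit 0x220100040205097) (nat_lit 16) Lb.e (@T16.mk En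
    (@En.n l5 (nat_lit 5047) (nat_lit 14) (nat_lit 9))
    (@En.i (nat_lit 9800) (nat_lit 1) (nat_lit 14))
    (@En.i (nat_lit 5095) (nat_lit 2) (nat_lit 3))
    (@En.n l766 (nat_lit 3187) (nat_lit 3) (nat_lit 9))
    (@En.n l517 (nat_lit 5093) (nat_lit 4) (nat_lit 3))
    (@En.n l5347 (nat_lit 2346) (nat_lit 0) (nat_lit 13))
    (@En.i (nat_lit 5092) (nat_lit 6) (nat_lit 5))
    (@En.i (nat_lit 5110) (nat_lit 8) (nat_lit 13))
    (@En.i (nat_lit 2778) (nat_lit 8) (nat_lit 5))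
    (@En.n l152 (nat_lit 4586) (nat_lit 11) (nat_lit 7))
    (@En.n l3851 (nat_lit 6799) (nat_lit 10) (nat_lit 4))
    (@En.n l97 (nat_lit 1114) (nat_lit 12) (nat_lit 11))
    (@En.n l253 (nat_lit 5398) (nat_lit 13) (nat_lit 7))
    (@En.n l3536 (nat_lit 1548) (nat_lit 14) (nat_lit 11))
    (@En.i (nat_lit 5047) (nat_lit 12) (nat_lit 12))
    (@En.n l18 (nat_lit 5094) (nat_lit 15) (nat_lit 2))))
  (@Cl.mk (nat_lit 0x2000c000b0008000b000400070005000c0005000d000800040003000e0009) (nat_lit 0x125100040160097) (nat_lit 16) Lb.e (@T16.mk En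
    (@En.n l133 (nat_lit 5090) (nat_lit 14) (nat_lit 9))
    (@En.n l420 (nat_lit 10347) (nat_lit 1) (nat_lit 14))
    (@En.n l7 (nat_lit 5094) (nat_lit 2) (nat_lit 3))
    (@En.n l3852 (nat_lit 1348) (nat_lit 3) (nat_lit 4))
    (@En.i (nat_lit 5088) (nat_lit 4) (nat_lit 8))
    (@En.n l3850 (nat_lit 2344) (nat_lit 6) (nat_lit 13))
    (@En.i (nat_lit 5089) (nat_lit 6) (nat_lit 5))
    (@En.n l133 (nat_lit 5104) (nat_lit 8) (nat_lit 12))
    (@En.i (nat_lit 2554) (nat_lit 8) (nat_lit 5))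
    (@En.n l152 (nat_lit 3660) (nat_lit 11) (nat_lit 7))
    (@En.n l1455 (nat_lit 6792) (nat_lit 10) (nat_lit 4))
    (@En.n l133 (nat_lit 1368) (nat_lit 7) (nat_lit 11))
    (@En.i (nat_lit 6347) (nat_lit 13) (nat_lit 8))
    (@En.n l3536 (nat_lit 1546) (nat_lit 14) (nat_lit 11))
    (@En.n l4774 (nat_lit 5090) (nat_lit 12) (nat_lit 12))
    (@En.n l18 (nat_lit 5095) (nat_lit 15) (nat_lit 2))))
  (@Cl.mk (nat_lit 0x2000b0007000b0008000c0005000800050004000d000900080003000e0008) (nat_lit 0x3540000752050) (nat_lit 16) Lb.e (@T16.mk En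
    (@En.n l22168 (nat_lit 5098) (nat_lit 14) (nat_lit 8))
    (@En.i (nat_lit 9802) (nat_lit 1) (nat_lit 14))
    (@En.i (nat_lit 5097) (nat_lit 2) (nat_lit 3))
    (@En.n l187 (nat_lit 6450) (nat_lit 3) (nat_lit 8))
    (@En.n l24512 (nat_lit 6557) (nat_lit 4) (nat_lit 9))
    (@En.n l5347 (nat_lit 2843) (nat_lit 6) (nat_lit 13))
    (@En.n l12414 (nat_lit 5414) (nat_lit 6) (nat_lit 4))
    (@En.i (nat_lit 9417) (nat_lit 7) (nat_lit 5))
    (@En.n l187 (nat_lit 5340) (nat_lit 10) (nat_lit 8))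
    (@En.n l21574 (nat_lit 1716) (nat_lit 9) (nat_lit 5))
    (@En.n l97 (nat_lit 5137) (nat_lit 11) (nat_lit 12))
    (@En.i (nat_lit 5961) (nat_lit 12) (nat_lit 8))
    (@En.i (nat_lit 5094) (nat_lit 13) (nat_lit 11))
    (@En.n l20558 (nat_lit 9357) (nat_lit 14) (nat_lit 7))
    (@En.n l22176 (nat_lit 5098) (nat_lit 12) (nat_lit 11))
    (@En.n l18 (nat_lit 5096) (nat_lit 15) (nat_lit 2))))
  (@Cl.mk (nat_lit 0x2000b0006000b0009000c0005000800050004000d0007000a0003000e0008) (nat_lit 0x3760000706050) (nat_lit 16) Lb.e (@T16.mk En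
    (@En.n l12427 (nat_lit 5099) (nat_lit 14) (nat_lit 8))
    (@En.n l12428 (nat_lit 11445) (nat_lit 1) (nat_lit 14))
    (@En.n l7 (nat_lit 5096) (nat_lit 2) (nat_lit 3))
    (@En.n l12429 (nat_lit 4635) (nat_lit 3) (nat_lit 10))
    (@En.i (nat_lit 5100) (nat_lit 4) (nat_lit 7))
    (@En.n l4530 (nat_lit 2845) (nat_lit 6) (nat_lit 13))
    (@En.n l12429 (nat_lit 5415) (nat_lit 6) (nat_lit 4))
    (@En.i (nat_lit 9416) (nat_lit 7) (nat_lit 5))
    (@En.n l12430 (nat_lit 5561) (nat_lit 10) (nat_lit 8))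
    (@En.n l12431 (nat_lit 6791) (nat_lit 9) (nat_lit 5))
    (@En.n l9866 (nat_lit 5138) (nat_lit 6) (nat_lit 12))
    (@En.n l12432 (nat_lit 5104) (nat_lit 12) (nat_lit 9))
    (@En.i (nat_lit 5095) (nat_lit 13) (nat_lit 11))
    (@En.n l11971 (nat_lit 9600) (nat_lit 14) (nat_lit 6))
    (@En.n l12433 (nat_lit 5099) (nat_lit 12) (nat_lit 11))
    (@En.n l18 (nat_lit 5097) (nat_lit 15) (nat_lit 2))))
  (@Cl.mk (nat_lit 0x300080008000b0006000a0007000b00050008000800060005000d000a0009) (nat_lit 0x609040400100864) (nat_lit 16) Lb.e (@T16.mk En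
    (@En.n l39572 (nat_lit 5028) (nat_lit 0) (nat_lit 9))
    (@En.n l3866 (nat_lit 6555) (nat_lit 6) (nat_lit 10))
    (@En.n l8362 (nat_lit 2844) (nat_lit 2) (nat_lit 13))
    (@En.i (nat_lit 5359) (nat_lit 11) (nat_lit 5))
    (@En.n l22510 (nat_lit 8840) (nat_lit 4) (nat_lit 6))
    (@En.n l34814 (nat_lit 5096) (nat_lit 8) (nat_lit 8))
    (@En.n l39572 (nat_lit 5294) (nat_lit 10) (nat_lit 8))
    (@En.n l890 (nat_lit 1715) (nat_lit 7) (nat_lit 5))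
    (@En.n l39573 (nat_lit 5139) (nat_lit 8) (nat_lit 11))
    (@En.n l22510 (nat_lit 5113) (nat_lit 1) (nat_lit 7))
    (@En.n l22510 (nat_lit 5047) (nat_lit 11) (nat_lit 10))
    (@En.n l27076 (nat_lit 9356) (nat_lit 12) (nat_lit 6))
    (@En.n l50 (nat_lit 5162) (nat_lit 7) (nat_lit 11))
    (@En.n l217 (nat_lit 5162) (nat_lit 8) (nat_lit 8))
    (@En.i (nat_lit 10498) (nat_lit 12) (nat_lit 8))
    (@En.n l39574 (nat_lit 5099) (nat_lit 15) (nat_lit 3))))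
  (@Cl.mk (nat_lit 0x300080008000b0005000a0008000b00050008000800060005000d0008000b) (nat_lit 0x609046400100824) (nat_lit 16) Lb.e (@T16.mk En
    (@En.n l14711 (nat_lit 4633) (nat_lit 0) (nat_lit 11))
    (@En.n l26152 (nat_lit 5101) (nat_lit 14) (nat_lit 8))
    (@En.n l26153 (nat_lit 2846) (nat_lit 2) (nat_lit 13))
    (@En.n l14711 (nat_lit 4926) (nat_lit 11) (nat_lit 5))
    (@En.n l13633 (nat_lit 10567) (nat_lit 4) (nat_lit 6))
    (@En.n l26154 (nat_lit 5097) (nat_lit 8) (nat_lit 8))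
    (@En.n l13633 (nat_lit 5293) (nat_lit 10) (nat_lit 8))
    (@En.n l26155 (nat_lit 6793) (nat_lit 7) (nat_lit 5))
    (@En.i (nat_lit 5140) (nat_lit 7) (nat_lit 11))
    (@En.n l26156 (nat_lit 5103) (nat_lit 1) (nat_lit 8))
    (@En.n l11844 (nat_lit 5090) (nat_lit 11) (nat_lit 10))
    (@En.n l13636 (nat_lit 9591) (nat_lit 12) (nat_lit 5))
    (@En.n l217 (nat_lit 5102) (nat_lit 7) (nat_lit 11))
    (@En.n l13637 (nat_lit 5102) (nat_lit 8) (nat_lit 8))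
    (@En.n l26157 (nat_lit 11611) (nat_lit 2) (nat_lit 8))
    (@En.n l26158 (nat_lit 5098) (nat_lit 15) (nat_lit 3))))
  (@Cl.mk (nat_lit 0x2000a0006000a00090008000c00060009000600040007000a0008000e0007) (nat_lit 0x205767000003440) (nat_lit 16) Lb.e (@T16.mk En
    (@En.n l22168 (nat_lit 5101) (nat_lit 11) (nat_lit 7))
    (@En.n l22438 (nat_lit 11440) (nat_lit 1) (nat_lit 14))
    (@En.n l12016 (nat_lit 5051) (nat_lit 2) (nat_lit 8))
    (@En.n l24512 (nat_lit 4641) (nat_lit 3) (nat_lit 10))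
    (@En.n l12018 (nat_lit 1803) (nat_lit 11) (nat_lit 7))
    (@En.n l25729 (nat_lit 5281) (nat_lit 5) (nat_lit 4))
    (@En.i (nat_lit 9415) (nat_lit 6) (nat_lit 6))
    (@En.n l22174 (nat_lit 5557) (nat_lit 9) (nat_lit 9))
    (@En.n l12020 (nat_lit 2841) (nat_lit 8) (nat_lit 6))
    (@En.n l8 (nat_lit 5097) (nat_lit 10) (nat_lit 12))
    (@En.i (nat_lit 5096) (nat_lit 11) (nat_lit 8))
    (@En.n l21575 (nat_lit 5105) (nat_lit 12) (nat_lit 9))
    (@En.i (nat_lit 5088) (nat_lit 13) (nat_lit 10))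
    (@En.n l12015 (nat_lit 9599) (nat_lit 14) (nat_lit 6))
    (@En.n l22176 (nat_lit 5101) (nat_lit 9) (nat_lit 10))
    (@En.n l18 (nat_lit 5100) (nat_lit 15) (nat_lit 2))))
  (@Cl.mk (nat_lit 0x50008000b000900070007000a0005000900080007000b0006000900090007) (nat_lit 0x174001046050710) (nat_lit 16) Lb.e (@T16.mk En
    (@En.n l22510 (nat_lit 10566) (nat_lit 0) (nat_lit 7))
    (@En.n l34814 (nat_lit 5100) (nat_lit 7) (nat_lit 9))
    (@En.n l39999 (nat_lit 5291) (nat_lit 9) (nat_lit 9))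
    (@En.n l40000 (nat_lit 2842) (nat_lit 2) (nat_lit 6))
    (@En.n l40001 (nat_lit 5099) (nat_lit 8) (nat_lit 11))
    (@En.i (nat_lit 5098) (nat_lit 9) (nat_lit 7))
    (@En.n l40002 (nat_lit 5106) (nat_lit 8) (nat_lit 8))
    (@En.n l22510 (nat_lit 5084) (nat_lit 10) (nat_lit 9))
    (@En.n l40003 (nat_lit 9589) (nat_lit 8) (nat_lit 5))
    (@En.n l50 (nat_lit 2892) (nat_lit 8) (nat_lit 10))
    (@En.n l217 (nat_lit 2892) (nat_lit 9) (nat_lit 7))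
    (@En.n l40004 (nat_lit 11613) (nat_lit 2) (nat_lit 7))
    (@En.n l40005 (nat_lit 5052) (nat_lit 7) (nat_lit 9))
    (@En.n l38399 (nat_lit 4639) (nat_lit 7) (nat_lit 11))
    (@En.n l40006 (nat_lit 1493) (nat_lit 10) (nat_lit 8))
    (@En.i (nat_lit 4935) (nat_lit 11) (nat_lit 5))))
  (@Cl.mk (nat_lit 0x200070006000d0009000c00030008000b000400090007000a0005000e0008) (nat_lit 0x9340680304001) (nat_lit 16) Lb.e (@T16.mk En
    (@En.n l10794 (nat_lit 5099) (nat_lit 6) (nat_lit 8))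
    (@En.n l18 (nat_lit 5164) (nat_lit 1) (nat_lit 14))
    (@En.n l4884 (nat_lit 6795) (nat_lit 2) (nat_lit 5))
    (@En.i (nat_lit 5143) (nat_lit 3) (nat_lit 10))
    (@En.n l18474 (nat_lit 5107) (nat_lit 4) (nat_lit 7))
    (@En.n l28153 (nat_lit 5091) (nat_lit 5) (nat_lit 9))
    (@En.i (nat_lit 8992) (nat_lit 6) (nat_lit 4))
    (@En.n l11949 (nat_lit 13882) (nat_lit 7) (nat_lit 11))
    (@En.n l3348 (nat_lit 12012) (nat_lit 1) (nat_lit 8))
    (@En.n l4830 (nat_lit 5162) (nat_lit 9) (nat_lit 3))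
    (@En.n l11949 (nat_lit 4634) (nat_lit 11) (nat_lit 12))
    (@En.n l4862 (nat_lit 2892) (nat_lit 12) (nat_lit 9))
    (@En.n l22758 (nat_lit 2886) (nat_lit 13) (nat_lit 13))
    (@En.n l11949 (nat_lit 4927) (nat_lit 14) (nat_lit 6))
    (@En.n l6081 (nat_lit 10568) (nat_lit 4) (nat_lit 7))
    (@En.n l3 (nat_lit 5102) (nat_lit 15) (nat_lit 2))))
  (@Cl.mk (nat_lit 0x400070007000c0005000c00080004000b000400090009000c00050008000b) (nat_lit 0x5072050000054) (nat_lit 16) Lb.e (@T16.mk En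
    (@En.i (nat_lit 2541) (nat_lit 7) (nat_lit 11))
    (@En.n l35720 (nat_lit 3460) (nat_lit 10) (nat_lit 8))
    (@En.n l35721 (nat_lit 9586) (nat_lit 9) (nat_lit 5))
    (@En.n l35722 (nat_lit 5107) (nat_lit 6) (nat_lit 12))
    (@En.n l35723 (nat_lit 5107) (nat_lit 7) (nat_lit 9))
    (@En.n l35724 (nat_lit 11612) (nat_lit 2) (nat_lit 9))
    (@En.n l35725 (nat_lit 5113) (nat_lit 6) (nat_lit 4))
    (@En.n l6908 (nat_lit 5099) (nat_lit 0) (nat_lit 11))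
    (@En.n l35726 (nat_lit 6592) (nat_lit 1) (nat_lit 4))
    (@En.n l35727 (nat_lit 5106) (nat_lit 0) (nat_lit 8))
    (@En.n l35728 (nat_lit 2850) (nat_lit 1) (nat_lit 12))
    (@En.n l35729 (nat_lit 4929) (nat_lit 4) (nat_lit 5))
    (@En.i (nat_lit 9701) (nat_lit 13) (nat_lit 12))
    (@En.n l252 (nat_lit 5104) (nat_lit 9) (nat_lit 7))
    (@En.n l4418 (nat_lit 5292) (nat_lit 11) (nat_lit 7))
    (@En.n l35730 (nat_lit 6790) (nat_lit 15) (nat_lit 4))))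
noncomputable def a319 : T16 Cl := @T16.mk Cl
  (@Cl.mk (nat_lit 0x2000c00060009000c00040007000c0004000c00070004000a0004000e0009) (nat_lit 0x106400301007001) (nat_lit 16) Lb.e (@T16.mk En
    (@En.n l780 (nat_lit 5103) (nat_lit 5) (nat_lit 9))
    (@En.n l745 (nat_lit 11439) (nat_lit 1) (nat_lit 14))
    (@En.n l22242 (nat_lit 5961) (nat_lit 2) (nat_lit 4))
    (@En.n l499 (nat_lit 5097) (nat_lit 3) (nat_lit 10))
    (@En.n l22243 (nat_lit 6595) (nat_lit 4) (nat_lit 4))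
    (@En.n l10171 (nat_lit 5105) (nat_lit 5) (nat_lit 7))
    (@En.n l22244 (nat_lit 2849) (nat_lit 7) (nat_lit 12))
    (@En.n l12515 (nat_lit 5417) (nat_lit 7) (nat_lit 4))
    (@En.i (nat_lit 12716) (nat_lit 9) (nat_lit 12))
    (@En.n l4011 (nat_lit 5563) (nat_lit 11) (nat_lit 7))
    (@En.n l22244 (nat_lit 6789) (nat_lit 10) (nat_lit 4))
    (@En.i (nat_lit 6781) (nat_lit 6) (nat_lit 12))
    (@En.n l745 (nat_lit 3462) (nat_lit 9) (nat_lit 9))
    (@En.n l22245 (nat_lit 9601) (nat_lit 14) (nat_lit 6))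
    (@En.n l601 (nat_lit 5103) (nat_lit 3) (nat_lit 12))
    (@En.n l28 (nat_lit 5104) (nat_lit 15) (nat_lit 2))))
  (@Cl.mk (nat_lit 0x2000b000600090007000c00050008000d000400070003000a0009000e0008) (nat_lit 0x206050030004500) (nat_lit 16) Lb.e (@T16.mk En
    (@En.n l13489 (nat_lit 5106) (nat_lit 12) (nat_lit 8))
    (@En.i (nat_lit 11437) (nat_lit 1) (nat_lit 14))
    (@En.n l4452 (nat_lit 6638) (nat_lit 2) (nat_lit 9))
    (@En.n l22177 (nat_lit 5100) (nat_lit 3) (nat_lit 10))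
    (@En.n l1554 (nat_lit 5288) (nat_lit 4) (nat_lit 3))
    (@En.n l22178 (nat_lit 1804) (nat_lit 11) (nat_lit 7))
    (@En.n l2129 (nat_lit 5283) (nat_lit 6) (nat_lit 4))
    (@En.i (nat_lit 12718) (nat_lit 8) (nat_lit 13))
    (@En.n l1897 (nat_lit 5537) (nat_lit 10) (nat_lit 8))
    (@En.n l9687 (nat_lit 2839) (nat_lit 9) (nat_lit 5))
    (@En.n l9642 (nat_lit 5104) (nat_lit 11) (nat_lit 12))
    (@En.n l22177 (nat_lit 5110) (nat_lit 12) (nat_lit 7))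
    (@En.n l1897 (nat_lit 3463) (nat_lit 9) (nat_lit 9))
    (@En.n l22179 (nat_lit 9598) (nat_lit 14) (nat_lit 6))
    (@En.n l6596 (nat_lit 5106) (nat_lit 10) (nat_lit 11))
    (@En.n l17 (nat_lit 5105) (nat_lit 15) (nat_lit 2))))
  (@Cl.mk (nat_lit 0x3000b000a00080008000b000500080006000b000500080008000d00050008) (nat_lit 0x856110505061401) (nat_lit 16) Lb.e (@T16.mk En
    (@En.i (nat_lit 1492) (nat_lit 10) (nat_lit 8))
    (@En.n l13489 (nat_lit 4936) (nat_lit 7) (nat_lit 5))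
    (@En.i (nat_lit 9704) (nat_lit 2) (nat_lit 13))
    (@En.n l24909 (nat_lit 5105) (nat_lit 8) (nat_lit 8))
    (@En.n l5374 (nat_lit 5290) (nat_lit 10) (nat_lit 8))
    (@En.n l25937 (nat_lit 2840) (nat_lit 5) (nat_lit 5))
    (@En.n l34823 (nat_lit 5103) (nat_lit 0) (nat_lit 11))
    (@En.n l34824 (nat_lit 5109) (nat_lit 7) (nat_lit 6))
    (@En.n l5374 (nat_lit 3461) (nat_lit 10) (nat_lit 8))
    (@En.i (nat_lit 9587) (nat_lit 9) (nat_lit 5))
    (@En.n l34825 (nat_lit 2891) (nat_lit 7) (nat_lit 11))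
    (@En.n l34826 (nat_lit 2891) (nat_lit 8) (nat_lit 8))
    (@En.n l9992 (nat_lit 11614) (nat_lit 13) (nat_lit 8))
    (@En.n l34827 (nat_lit 6637) (nat_lit 14) (nat_lit 10))
    (@En.n l31344 (nat_lit 5101) (nat_lit 13) (nat_lit 11))
    (@En.n l34828 (nat_lit 2893) (nat_lit 15) (nat_lit 3))))
  (@Cl.mk (nat_lit 0x2000c0006000c00090004000c00040009000c00040007000a0004000e0007) (nat_lit 0x60830507a001000) (nat_lit 16) Lb.e (@T16.mk En
    (@En.n l39334 (nat_lit 5103) (nat_lit 14) (nat_lit 7))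
    (@En.n l39335 (nat_lit 5166) (nat_lit 1) (nat_lit 14))
    (@En.n l39336 (nat_lit 6796) (nat_lit 2) (nat_lit 4))
    (@En.n l6524 (nat_lit 2539) (nat_lit 8) (nat_lit 10))
    (@En.n l39337 (nat_lit 3458) (nat_lit 11) (nat_lit 7))
    (@En.n l11238 (nat_lit 8993) (nat_lit 5) (nat_lit 4))
    (@En.n l39338 (nat_lit 13881) (nat_lit 6) (nat_lit 12))
    (@En.n l2738 (nat_lit 12011) (nat_lit 1) (nat_lit 9))
    (@En.n l39339 (nat_lit 6618) (nat_lit 8) (nat_lit 4))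
    (@En.n l25065 (nat_lit 5102) (nat_lit 10) (nat_lit 12))
    (@En.n l19064 (nat_lit 6591) (nat_lit 10) (nat_lit 4))
    (@En.i (nat_lit 2891) (nat_lit 12) (nat_lit 9))
    (@En.n l3852 (nat_lit 2885) (nat_lit 13) (nat_lit 12))
    (@En.n l39338 (nat_lit 4928) (nat_lit 14) (nat_lit 6))
    (@En.n l6524 (nat_lit 9700) (nat_lit 3) (nat_lit 12))
    (@En.n l7 (nat_lit 5107) (nat_lit 15) (nat_lit 2))))
  (@Cl.mk (nat_lit 0x2000d0006000c0003000b000b00040009000c00050005000a0004000e0007) (nat_lit 0x507042000004070) (nat_lit 16) Lb.e (@T16.mk En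
    (@En.n l15436 (nat_lit 5109) (nat_lit 4) (nat_lit 7))
    (@En.n l24251 (nat_lit 5175) (nat_lit 1) (nat_lit 14))
    (@En.n l3912 (nat_lit 6808) (nat_lit 2) (nat_lit 4))
    (@En.n l24252 (nat_lit 6656) (nat_lit 3) (nat_lit 10))
    (@En.n l152 (nat_lit 5117) (nat_lit 11) (nat_lit 5))
    (@En.n l3851 (nat_lit 9660) (nat_lit 5) (nat_lit 5))
    (@En.n l24253 (nat_lit 13885) (nat_lit 6) (nat_lit 12))
    (@En.n l9869 (nat_lit 8810) (nat_lit 12) (nat_lit 9))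
    (@En.i (nat_lit 5107) (nat_lit 8) (nat_lit 4))
    (@En.n l3536 (nat_lit 6646) (nat_lit 5) (nat_lit 11))
    (@En.n l4163 (nat_lit 5162) (nat_lit 11) (nat_lit 11))
    (@En.n l23536 (nat_lit 5114) (nat_lit 11) (nat_lit 3))
    (@En.i (nat_lit 2161) (nat_lit 0) (nat_lit 12))
    (@En.n l4163 (nat_lit 5355) (nat_lit 14) (nat_lit 6))
    (@En.n l24254 (nat_lit 9436) (nat_lit 2) (nat_lit 13))
    (@En.n l7 (nat_lit 5108) (nat_lit 15) (nat_lit 2))))
  (@Cl.mk (nat_lit 0x3000a000a000400090009000c00060006000b000400070007000d0005000c) (nat_lit 0x710611005000406) (nat_lit 16) Lb.e (@T16.mk En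
    (@En.n l8494 (nat_lit 2160) (nat_lit 0) (nat_lit 12))
    (@En.n l22176 (nat_lit 5353) (nat_lit 4) (nat_lit 5))
    (@En.n l34805 (nat_lit 9440) (nat_lit 2) (nat_lit 13))
    (@En.n l17 (nat_lit 5110) (nat_lit 9) (nat_lit 7))
    (@En.n l34806 (nat_lit 5297) (nat_lit 11) (nat_lit 7))
    (@En.n l34807 (nat_lit 6807) (nat_lit 5) (nat_lit 4))
    (@En.n l4559 (nat_lit 6655) (nat_lit 0) (nat_lit 11))
    (@En.n l26305 (nat_lit 5112) (nat_lit 10) (nat_lit 6))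
    (@En.n l34808 (nat_lit 9359) (nat_lit 8) (nat_lit 6))
    (@En.n l21836 (nat_lit 5108) (nat_lit 6) (nat_lit 12))
    (@En.n l21837 (nat_lit 5108) (nat_lit 7) (nat_lit 9))
    (@En.n l34809 (nat_lit 8809) (nat_lit 12) (nat_lit 9))
    (@En.n l34810 (nat_lit 5103) (nat_lit 6) (nat_lit 4))
    (@En.n l34811 (nat_lit 1924) (nat_lit 6) (nat_lit 10))
    (@En.n l22176 (nat_lit 5098) (nat_lit 1) (nat_lit 10))
    (@En.n l34812 (nat_lit 5111) (nat_lit 15) (nat_lit 3))))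
  (@Cl.mk (nat_lit 0x2000c00070007000c00040007000d0004000c0003000900090004000e0009) (nat_lit 0x200300301061007) (nat_lit 16) Lb.e (@T16.mk En
    (@En.n l5 (nat_lit 5109) (nat_lit 11) (nat_lit 9))
    (@En.n l4559 (nat_lit 10112) (nat_lit 1) (nat_lit 14))
    (@En.n l133 (nat_lit 5104) (nat_lit 2) (nat_lit 4))
    (@En.n l22160 (nat_lit 1927) (nat_lit 3) (nat_lit 9))
    (@En.i (nat_lit 5096) (nat_lit 4) (nat_lit 9))
    (@En.n l517 (nat_lit 5115) (nat_lit 5) (nat_lit 3))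
    (@En.n l5347 (nat_lit 2163) (nat_lit 0) (nat_lit 12))
    (@En.n l4935 (nat_lit 5354) (nat_lit 7) (nat_lit 4))
    (@En.n l2125 (nat_lit 9111) (nat_lit 9) (nat_lit 13))
    (@En.n l152 (nat_lit 3625) (nat_lit 11) (nat_lit 7))
    (@En.n l3851 (nat_lit 6810) (nat_lit 10) (nat_lit 4))
    (@En.n l4559 (nat_lit 6658) (nat_lit 12) (nat_lit 12))
    (@En.n l253 (nat_lit 6629) (nat_lit 9) (nat_lit 7))
    (@En.n l20558 (nat_lit 9869) (nat_lit 14) (nat_lit 7))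
    (@En.i (nat_lit 5109) (nat_lit 9) (nat_lit 12))
    (@En.n l18 (nat_lit 5110) (nat_lit 15) (nat_lit 2))))
  (@Cl.mk (nat_lit 0x3000a000a000500090009000c00060006000a000400070007000d000b0006) (nat_lit 0x220003005000360) (nat_lit 16) Lb.e (@T16.mk En
    (@En.n l26926 (nat_lit 4831) (nat_lit 0) (nat_lit 6))
    (@En.n l26927 (nat_lit 5113) (nat_lit 12) (nat_lit 11))
    (@En.n l23258 (nat_lit 9435) (nat_lit 2) (nat_lit 13))
    (@En.n l26928 (nat_lit 5115) (nat_lit 9) (nat_lit 7))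
    (@En.n l23500 (nat_lit 5299) (nat_lit 11) (nat_lit 7))
    (@En.n l403 (nat_lit 6805) (nat_lit 5) (nat_lit 4))
    (@En.n l1353 (nat_lit 4451) (nat_lit 0) (nat_lit 10))
    (@En.n l18 (nat_lit 5116) (nat_lit 10) (nat_lit 6))
    (@En.n l26926 (nat_lit 9389) (nat_lit 8) (nat_lit 6))
    (@En.n l3 (nat_lit 5114) (nat_lit 6) (nat_lit 12))
    (@En.n l527 (nat_lit 5114) (nat_lit 7) (nat_lit 9))
    (@En.i (nat_lit 8807) (nat_lit 10) (nat_lit 9))
    (@En.n l26927 (nat_lit 6598) (nat_lit 6) (nat_lit 5))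
    (@En.n l26929 (nat_lit 1926) (nat_lit 6) (nat_lit 10))
    (@En.i (nat_lit 1744) (nat_lit 1) (nat_lit 10))
    (@En.n l26930 (nat_lit 5109) (nat_lit 15) (nat_lit 3))))
  (@Cl.mk (nat_lit 0x20005000a000a000d0006000b000300060006000d0005000b0003000e000a) (nat_lit 0x2000402078) (nat_lit 16) Lb.e (@T16.mk En
    (@En.n l18582 (nat_lit 5109) (nat_lit 14) (nat_lit 10))
    (@En.n l19176 (nat_lit 6619) (nat_lit 1) (nat_lit 14))
    (@En.n l13385 (nat_lit 5116) (nat_lit 2) (nat_lit 3))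
    (@En.n l19177 (nat_lit 2484) (nat_lit 3) (nat_lit 11))
    (@En.n l9771 (nat_lit 7179) (nat_lit 4) (nat_lit 5))
    (@En.i (nat_lit 11528) (nat_lit 6) (nat_lit 13))
    (@En.n l7184 (nat_lit 6629) (nat_lit 6) (nat_lit 6))
    (@En.n l7271 (nat_lit 8159) (nat_lit 7) (nat_lit 6))
    (@En.n l1349 (nat_lit 6623) (nat_lit 8) (nat_lit 3))
    (@En.n l19178 (nat_lit 2767) (nat_lit 0) (nat_lit 11))
    (@En.n l19179 (nat_lit 10013) (nat_lit 11) (nat_lit 6))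
    (@En.n l1208 (nat_lit 5117) (nat_lit 12) (nat_lit 13))
    (@En.n l19180 (nat_lit 5117) (nat_lit 13) (nat_lit 10))
    (@En.n l9771 (nat_lit 8860) (nat_lit 14) (nat_lit 10))
    (@En.i (nat_lit 3457) (nat_lit 13) (nat_lit 5))
    (@En.n l3 (nat_lit 5112) (nat_lit 15) (nat_lit 2))))
  (@Cl.mk (nat_lit 0x400070007000b0005000c000900090005000400090009000c00070007000b) (nat_lit 0x5076100000005) (nat_lit 16) Lb.e (@T16.mk En
    (@En.n l619 (nat_lit 5971) (nat_lit 8) (nat_lit 11))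
    (@En.n l40376 (nat_lit 6619) (nat_lit 9) (nat_lit 7))
    (@En.n l40377 (nat_lit 9481) (nat_lit 12) (nat_lit 7))
    (@En.n l25766 (nat_lit 6618) (nat_lit 6) (nat_lit 12))
    (@En.n l25767 (nat_lit 6618) (nat_lit 7) (nat_lit 9))
    (@En.n l40378 (nat_lit 8804) (nat_lit 5) (nat_lit 9))
    (@En.n l181 (nat_lit 5109) (nat_lit 12) (nat_lit 4))
    (@En.i (nat_lit 6593) (nat_lit 0) (nat_lit 5))
    (@En.n l14349 (nat_lit 1925) (nat_lit 7) (nat_lit 9))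
    (@En.n l40379 (nat_lit 6643) (nat_lit 1) (nat_lit 9))
    (@En.n l40380 (nat_lit 2164) (nat_lit 2) (nat_lit 12))
    (@En.n l22176 (nat_lit 5352) (nat_lit 4) (nat_lit 5))
    (@En.n l5413 (nat_lit 6270) (nat_lit 8) (nat_lit 11))
    (@En.n l17 (nat_lit 5961) (nat_lit 9) (nat_lit 7))
    (@En.n l37580 (nat_lit 5298) (nat_lit 11) (nat_lit 7))
    (@En.n l10138 (nat_lit 5965) (nat_lit 15) (nat_lit 4))))
  (@Cl.mk (nat_lit 0x2000d000b00070003000b000b00050009000c0005000500090004000e0007) (nat_lit 0x470040072004070) (nat_lit 16) Lb.e (@T16.mk En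
    (@En.i (nat_lit 5111) (nat_lit 4) (nat_lit 7))
    (@En.n l97 (nat_lit 6476) (nat_lit 1) (nat_lit 14))
    (@En.n l403 (nat_lit 6806) (nat_lit 2) (nat_lit 4))
    (@En.n l1353 (nat_lit 4460) (nat_lit 3) (nat_lit 9))
    (@En.n l18 (nat_lit 5118) (nat_lit 11) (nat_lit 5))
    (@En.n l6081 (nat_lit 9658) (nat_lit 5) (nat_lit 5))
    (@En.i (nat_lit 13886) (nat_lit 6) (nat_lit 12))
    (@En.i (nat_lit 8808) (nat_lit 10) (nat_lit 9))
    (@En.i (nat_lit 6605) (nat_lit 8) (nat_lit 5))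
    (@En.n l10895 (nat_lit 5345) (nat_lit 5) (nat_lit 11))
    (@En.i (nat_lit 5387) (nat_lit 11) (nat_lit 11))
    (@En.n l3727 (nat_lit 5108) (nat_lit 11) (nat_lit 3))
    (@En.n l39340 (nat_lit 4830) (nat_lit 0) (nat_lit 7))
    (@En.i (nat_lit 6618) (nat_lit 14) (nat_lit 11))
    (@En.i (nat_lit 9433) (nat_lit 2) (nat_lit 13))
    (@En.n l107 (nat_lit 5114) (nat_lit 15) (nat_lit 2))))
  (@Cl.mk (nat_lit 0x2000c00070007000b00040007000d000b00050003000900090005000e0009) (nat_lit 0x400400350027041) (nat_lit 16) Lb.e (@T16.mk En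
    (@En.n l13191 (nat_lit 5111) (nat_lit 11) (nat_lit 9))
    (@En.n l13192 (nat_lit 10113) (nat_lit 1) (nat_lit 14))
    (@En.n l13193 (nat_lit 6954) (nat_lit 2) (nat_lit 5))
    (@En.n l13194 (nat_lit 5344) (nat_lit 7) (nat_lit 9))
    (@En.n l13195 (nat_lit 5386) (nat_lit 4) (nat_lit 9))
    (@En.n l5254 (nat_lit 5110) (nat_lit 5) (nat_lit 3))
    (@En.n l13192 (nat_lit 4839) (nat_lit 0) (nat_lit 5))
    (@En.n l13193 (nat_lit 5961) (nat_lit 8) (nat_lit 11))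
    (@En.n l13196 (nat_lit 9110) (nat_lit 9) (nat_lit 13))
    (@En.n l13197 (nat_lit 3633) (nat_lit 11) (nat_lit 7))
    (@En.n l17 (nat_lit 6809) (nat_lit 10) (nat_lit 4))
    (@En.n l13198 (nat_lit 4452) (nat_lit 12) (nat_lit 11))
    (@En.n l13199 (nat_lit 6631) (nat_lit 9) (nat_lit 7))
    (@En.i (nat_lit 9868) (nat_lit 14) (nat_lit 7))
    (@En.n l13200 (nat_lit 5111) (nat_lit 9) (nat_lit 12))
    (@En.n l7 (nat_lit 5115) (nat_lit 15) (nat_lit 2))))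
  (@Cl.mk (nat_lit 0x20006000a000a000d0006000a000300060006000d000a00060003000e000a) (nat_lit 0x304000450073) (nat_lit 16) Lb.e (@T16.mk En
    (@En.n l396 (nat_lit 5111) (nat_lit 14) (nat_lit 10))
    (@En.n l10280 (nat_lit 1884) (nat_lit 1) (nat_lit 14))
    (@En.n l5236 (nat_lit 5112) (nat_lit 2) (nat_lit 3))
    (@En.n l30073 (nat_lit 5218) (nat_lit 3) (nat_lit 6))
    (@En.i (nat_lit 6619) (nat_lit 4) (nat_lit 10))
    (@En.n l12226 (nat_lit 11526) (nat_lit 6) (nat_lit 13))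
    (@En.n l8480 (nat_lit 6631) (nat_lit 6) (nat_lit 6))
    (@En.n l3106 (nat_lit 8158) (nat_lit 7) (nat_lit 6))
    (@En.n l2364 (nat_lit 6624) (nat_lit 8) (nat_lit 3))
    (@En.i (nat_lit 2818) (nat_lit 0) (nat_lit 10))
    (@En.n l30073 (nat_lit 10009) (nat_lit 11) (nat_lit 6))
    (@En.n l3 (nat_lit 5118) (nat_lit 12) (nat_lit 13))
    (@En.n l527 (nat_lit 5118) (nat_lit 13) (nat_lit 10))
    (@En.i (nat_lit 8862) (nat_lit 14) (nat_lit 10))
    (@En.n l5251 (nat_lit 6686) (nat_lit 5) (nat_lit 6))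
    (@En.n l50 (nat_lit 5116) (nat_lit 15) (nat_lit 2))))
  (@Cl.mk (nat_lit 0x20005000a000d0005000a0003000e00060002000d0006000b0003000e000b) (nat_lit 0x8b020000502085) (nat_lit 16) Lb.e (@T16.mk En
    (@En.i (nat_lit 5108) (nat_lit 10) (nat_lit 11))
    (@En.n l3144 (nat_lit 5119) (nat_lit 1) (nat_lit 14))
    (@En.n l4806 (nat_lit 5118) (nat_lit 2) (nat_lit 3))
    (@En.i (nat_lit 2487) (nat_lit 3) (nat_lit 11))
    (@En.n l1501 (nat_lit 7178) (nat_lit 4) (nat_lit 6))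
    (@En.n l3699 (nat_lit 11525) (nat_lit 6) (nat_lit 13))
    (@En.n l7 (nat_lit 5117) (nat_lit 6) (nat_lit 2))
    (@En.n l7987 (nat_lit 5112) (nat_lit 7) (nat_lit 6))
    (@En.n l95 (nat_lit 8075) (nat_lit 9) (nat_lit 14))
    (@En.i (nat_lit 6626) (nat_lit 9) (nat_lit 3))
    (@En.n l1501 (nat_lit 2761) (nat_lit 11) (nat_lit 10))
    (@En.n l117 (nat_lit 8213) (nat_lit 4) (nat_lit 5))
    (@En.n l1501 (nat_lit 13848) (nat_lit 5) (nat_lit 13))
    (@En.n l1501 (nat_lit 8859) (nat_lit 14) (nat_lit 10))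
    (@En.i (nat_lit 3456) (nat_lit 13) (nat_lit 5))
    (@En.n l3 (nat_lit 5117) (nat_lit 15) (nat_lit 2))))
  (@Cl.mk (nat_lit 0x20006000a000d000500090003000e00060002000d000a00070003000e000b) (nat_lit 0x82050000470085) (nat_lit 16) Lb.e (@T16.mk En
    (@En.n l396 (nat_lit 5114) (nat_lit 10) (nat_lit 11))
    (@En.n l10280 (nat_lit 1885) (nat_lit 1) (nat_lit 14))
    (@En.n l170 (nat_lit 5117) (nat_lit 2) (nat_lit 3))
    (@En.n l3340 (nat_lit 5219) (nat_lit 3) (nat_lit 7))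
    (@En.i (nat_lit 5119) (nat_lit 4) (nat_lit 10))
    (@En.i (nat_lit 9438) (nat_lit 6) (nat_lit 13))
    (@En.n l107 (nat_lit 5118) (nat_lit 6) (nat_lit 2))
    (@En.i (nat_lit 5116) (nat_lit 7) (nat_lit 6))
    (@En.n l97 (nat_lit 8074) (nat_lit 9) (nat_lit 14))
    (@En.n l2364 (nat_lit 6628) (nat_lit 9) (nat_lit 3))
    (@En.i (nat_lit 2817) (nat_lit 11) (nat_lit 9))
    (@En.n l3098 (nat_lit 8212) (nat_lit 4) (nat_lit 5))
    (@En.i (nat_lit 13851) (nat_lit 5) (nat_lit 13))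
    (@En.i (nat_lit 8861) (nat_lit 14) (nat_lit 10))
    (@En.n l513 (nat_lit 6685) (nat_lit 7) (nat_lit 6))
    (@En.n l50 (nat_lit 5118) (nat_lit 15) (nat_lit 2))))
  (@Cl.mk (nat_lit 0x200060005000a000d0006000a0003000e00060002000a0006000b000e000a) (nat_lit 0x2000060278) (nat_lit 16) Lb.e (@T16.mk En
    (@En.n l396 (nat_lit 6618) (nat_lit 11) (nat_lit 10))
    (@En.n l4463 (nat_lit 1875) (nat_lit 12) (nat_lit 14))
    (@En.n l1318 (nat_lit 2173) (nat_lit 2) (nat_lit 11))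
    (@En.n l4276 (nat_lit 7181) (nat_lit 14) (nat_lit 6))
    (@En.n l5732 (nat_lit 12135) (nat_lit 4) (nat_lit 10))
    (@En.n l107 (nat_lit 5119) (nat_lit 5) (nat_lit 2))
    (@En.i (nat_lit 6619) (nat_lit 6) (nat_lit 6))
    (@En.n l9409 (nat_lit 8076) (nat_lit 8) (nat_lit 14))
    (@En.n l2364 (nat_lit 6620) (nat_lit 8) (nat_lit 3))
    (@En.i (nat_lit 2760) (nat_lit 10) (nat_lit 10))
    (@En.n l3098 (nat_lit 10020) (nat_lit 4) (nat_lit 6))
    (@En.i (nat_lit 13844) (nat_lit 5) (nat_lit 13))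
    (@En.n l4276 (nat_lit 7677) (nat_lit 13) (nat_lit 10))
    (@En.n l5995 (nat_lit 5117) (nat_lit 14) (nat_lit 5))
    (@En.n l1318 (nat_lit 6678) (nat_lit 8) (nat_lit 6))
    (@En.n l50 (nat_lit 5119) (nat_lit 15) (nat_lit 2))))
noncomputable def a320 : T16 Cl := @T16.mk Cl
  (@Cl.mk (nat_lit 0x200080003000e000c0002000a000d000400080003000e00060002000e000d) (nat_lit 0x309608b030200a1) (nat_lit 16) Lb.e (@T16.mk En
    (@En.n l1578 (nat_lit 2109) (nat_lit 6) (nat_lit 13))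
    (@En.n l1889 (nat_lit 9228) (nat_lit 1) (nat_lit 14))
    (@En.n l3 (nat_lit 5120) (nat_lit 2) (nat_lit 2))
    (@En.n l3010 (nat_lit 4825) (nat_lit 3) (nat_lit 6))
    (@En.n l2544 (nat_lit 5121) (nat_lit 1) (nat_lit 14))
    (@En.n l3291 (nat_lit 4869) (nat_lit 5) (nat_lit 3))
    (@En.i (nat_lit 2493) (nat_lit 6) (nat_lit 8))
    (@En.n l2869 (nat_lit 3434) (nat_lit 7) (nat_lit 4))
    (@En.n l2036 (nat_lit 13449) (nat_lit 5) (nat_lit 13))
    (@En.i (nat_lit 5410) (nat_lit 10) (nat_lit 10))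
    (@En.n l50 (nat_lit 5120) (nat_lit 10) (nat_lit 2))
    (@En.n l5916 (nat_lit 2399) (nat_lit 12) (nat_lit 12))
    (@En.i (nat_lit 4987) (nat_lit 1) (nat_lit 14))
    (@En.i (nat_lit 2109) (nat_lit 2) (nat_lit 3))
    (@En.n l2036 (nat_lit 4925) (nat_lit 12) (nat_lit 8))
    (@En.n l11 (nat_lit 5120) (nat_lit 15) (nat_lit 2))))
  (@Cl.mk (nat_lit 0x20006000e000d000200080003000e000c0002000b000a00040008000e0005) (nat_lit 0xa5020610800310) (nat_lit 16) Lb.e (@T16.mk En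
    (@En.n l50 (nat_lit 4820) (nat_lit 4) (nat_lit 5))
    (@En.n l1353 (nat_lit 2682) (nat_lit 6) (nat_lit 14))
    (@En.i (nat_lit 3539) (nat_lit 2) (nat_lit 8))
    (@En.n l5909 (nat_lit 7067) (nat_lit 7) (nat_lit 4))
    (@En.n l2863 (nat_lit 5124) (nat_lit 4) (nat_lit 10))
    (@En.n l947 (nat_lit 5630) (nat_lit 10) (nat_lit 11))
    (@En.n l28 (nat_lit 5121) (nat_lit 6) (nat_lit 2))
    (@En.i (nat_lit 3298) (nat_lit 8) (nat_lit 12))
    (@En.n l947 (nat_lit 5255) (nat_lit 1) (nat_lit 14))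
    (@En.n l117 (nat_lit 5122) (nat_lit 9) (nat_lit 3))
    (@En.i (nat_lit 4912) (nat_lit 11) (nat_lit 8))
    (@En.n l3 (nat_lit 5121) (nat_lit 11) (nat_lit 2))
    (@En.i (nat_lit 5122) (nat_lit 13) (nat_lit 13))
    (@En.i (nat_lit 8956) (nat_lit 1) (nat_lit 14))
    (@En.i (nat_lit 4825) (nat_lit 2) (nat_lit 6))
    (@En.n l18 (nat_lit 5121) (nat_lit 15) (nat_lit 2))))
  (@Cl.mk (nat_lit 0x20006000d000d000700030003000e000c0002000b000a00040009000e0005) (nat_lit 0x4a0006708101c0) (nat_lit 16) Lb.e (@T16.mk En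
    (@En.n l50 (nat_lit 4819) (nat_lit 9) (nat_lit 5))
    (@En.n l649 (nat_lit 2677) (nat_lit 1) (nat_lit 14))
    (@En.i (nat_lit 2868) (nat_lit 2) (nat_lit 9))
    (@En.n l11706 (nat_lit 7029) (nat_lit 3) (nat_lit 4))
    (@En.n l2863 (nat_lit 3573) (nat_lit 4) (nat_lit 10))
    (@En.i (nat_lit 5629) (nat_lit 11) (nat_lit 11))
    (@En.n l28 (nat_lit 5122) (nat_lit 6) (nat_lit 2))
    (@En.i (nat_lit 3291) (nat_lit 8) (nat_lit 12))
    (@En.n l11245 (nat_lit 8074) (nat_lit 1) (nat_lit 14))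
    (@En.n l152 (nat_lit 5121) (nat_lit 9) (nat_lit 3))
    (@En.n l1865 (nat_lit 5123) (nat_lit 10) (nat_lit 3))
    (@En.n l97 (nat_lit 5125) (nat_lit 12) (nat_lit 7))
    (@En.n l1867 (nat_lit 5123) (nat_lit 13) (nat_lit 13))
    (@En.n l11706 (nat_lit 7688) (nat_lit 7) (nat_lit 13))
    (@En.i (nat_lit 2106) (nat_lit 7) (nat_lit 6))
    (@En.n l18 (nat_lit 5122) (nat_lit 15) (nat_lit 2))))
  (@Cl.mk (nat_lit 0x20006000d0006000e00030002000e000c0002000b000a0004000a000e0005) (nat_lit 0x90300610810110) (nat_lit 16) Lb.e (@T16.mk En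
    (@En.n l5246 (nat_lit 4821) (nat_lit 9) (nat_lit 5))
    (@En.i (nat_lit 2675) (nat_lit 11) (nat_lit 14))
    (@En.i (nat_lit 2853) (nat_lit 2) (nat_lit 10))
    (@En.n l1393 (nat_lit 7028) (nat_lit 3) (nat_lit 4))
    (@En.i (nat_lit 4114) (nat_lit 4) (nat_lit 10))
    (@En.i (nat_lit 5631) (nat_lit 12) (nat_lit 11))
    (@En.n l3 (nat_lit 5123) (nat_lit 6) (nat_lit 2))
    (@En.i (nat_lit 3293) (nat_lit 8) (nat_lit 12))
    (@En.i (nat_lit 8075) (nat_lit 1) (nat_lit 14))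
    (@En.n l17 (nat_lit 5123) (nat_lit 9) (nat_lit 2))
    (@En.n l2869 (nat_lit 5122) (nat_lit 10) (nat_lit 3))
    (@En.i (nat_lit 13128) (nat_lit 0) (nat_lit 14))
    (@En.i (nat_lit 5738) (nat_lit 13) (nat_lit 6))
    (@En.n l1393 (nat_lit 7685) (nat_lit 7) (nat_lit 13))
    (@En.n l14161 (nat_lit 2108) (nat_lit 7) (nat_lit 6))
    (@En.n l28 (nat_lit 5123) (nat_lit 15) (nat_lit 2))))
  (@Cl.mk (nat_lit 0x200060003000e000d000200090003000e000d0002000a00030007000e000d) (nat_lit 0xa6010a1080085) (nat_lit 16) Lb.e (@T16.mk En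
    (@En.n l61 (nat_lit 3569) (nat_lit 6) (nat_lit 13))
    (@En.n l1353 (nat_lit 3283) (nat_lit 7) (nat_lit 14))
    (@En.i (nat_lit 3568) (nat_lit 2) (nat_lit 7))
    (@En.i (nat_lit 3574) (nat_lit 3) (nat_lit 3))
    (@En.n l5331 (nat_lit 6047) (nat_lit 4) (nat_lit 10))
    (@En.n l28 (nat_lit 5124) (nat_lit 5) (nat_lit 2))
    (@En.n l134 (nat_lit 3574) (nat_lit 7) (nat_lit 13))
    (@En.n l5331 (nat_lit 5868) (nat_lit 8) (nat_lit 14))
    (@En.n l117 (nat_lit 3573) (nat_lit 8) (nat_lit 3))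
    (@En.n l2101 (nat_lit 924) (nat_lit 10) (nat_lit 9))
    (@En.n l3 (nat_lit 5124) (nat_lit 10) (nat_lit 2))
    (@En.i (nat_lit 3573) (nat_lit 12) (nat_lit 13))
    (@En.n l6147 (nat_lit 6047) (nat_lit 1) (nat_lit 14))
    (@En.n l72 (nat_lit 3569) (nat_lit 2) (nat_lit 3))
    (@En.n l666 (nat_lit 5120) (nat_lit 3) (nat_lit 6))
    (@En.n l17 (nat_lit 5124) (nat_lit 15) (nat_lit 2))))
  (@Cl.mk (nat_lit 0x20007000e000700020008000e000c0002000a0009000400090008000e0006) (nat_lit 0x70032507300480) (nat_lit 16) Lb.e (@T16.mk En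
    (@En.n l50 (nat_lit 5247) (nat_lit 4) (nat_lit 6))
    (@En.n l4021 (nat_lit 10099) (nat_lit 6) (nat_lit 14))
    (@En.i (nat_lit 5121) (nat_lit 2) (nat_lit 8))
    (@En.n l15816 (nat_lit 7532) (nat_lit 3) (nat_lit 9))
    (@En.n l4352 (nat_lit 6472) (nat_lit 8) (nat_lit 4))
    (@En.n l2863 (nat_lit 5128) (nat_lit 5) (nat_lit 9))
    (@En.n l947 (nat_lit 6524) (nat_lit 11) (nat_lit 10))
    (@En.n l28 (nat_lit 5125) (nat_lit 7) (nat_lit 2))
    (@En.i (nat_lit 5132) (nat_lit 13) (nat_lit 12))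
    (@En.n l1578 (nat_lit 5246) (nat_lit 10) (nat_lit 14))
    (@En.n l107 (nat_lit 4910) (nat_lit 11) (nat_lit 8))
    (@En.n l3 (nat_lit 5125) (nat_lit 11) (nat_lit 2))
    (@En.i (nat_lit 5736) (nat_lit 13) (nat_lit 7))
    (@En.n l4352 (nat_lit 8960) (nat_lit 6) (nat_lit 14))
    (@En.i (nat_lit 5127) (nat_lit 2) (nat_lit 7))
    (@En.n l18 (nat_lit 5125) (nat_lit 15) (nat_lit 2))))
  (@Cl.mk (nat_lit 0x20008000e000c00020009000c0004000900080004000e00070002000e0007) (nat_lit 0x125000074090070) (nat_lit 16) Lb.e (@T16.mk En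
    (@En.n l5005 (nat_lit 1645) (nat_lit 14) (nat_lit 7))
    (@En.i (nat_lit 8945) (nat_lit 1) (nat_lit 14))
    (@En.n l17 (nat_lit 5126) (nat_lit 2) (nat_lit 2))
    (@En.n l1598 (nat_lit 5127) (nat_lit 3) (nat_lit 7))
    (@En.n l23325 (nat_lit 5125) (nat_lit 1) (nat_lit 14))
    (@En.i (nat_lit 5009) (nat_lit 9) (nat_lit 4))
    (@En.n l2042 (nat_lit 5120) (nat_lit 6) (nat_lit 8))
    (@En.n l5381 (nat_lit 6704) (nat_lit 12) (nat_lit 9))
    (@En.n l10479 (nat_lit 7038) (nat_lit 8) (nat_lit 4))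
    (@En.i (nat_lit 12848) (nat_lit 6) (nat_lit 12))
    (@En.n l2042 (nat_lit 6530) (nat_lit 11) (nat_lit 9))
    (@En.n l11 (nat_lit 5126) (nat_lit 11) (nat_lit 2))
    (@En.n l1578 (nat_lit 5133) (nat_lit 13) (nat_lit 12))
    (@En.n l5381 (nat_lit 5219) (nat_lit 1) (nat_lit 14))
    (@En.n l253 (nat_lit 4881) (nat_lit 12) (nat_lit 8))
    (@En.n l3 (nat_lit 5126) (nat_lit 15) (nat_lit 2))))
  (@Cl.mk (nat_lit 0x20007000e000b000200090009000c0005000a0009000400070007000e0006) (nat_lit 0x25001108500060) (nat_lit 16) Lb.e (@T16.mk En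
    (@En.n l15565 (nat_lit 1640) (nat_lit 4) (nat_lit 6))
    (@En.n l5004 (nat_lit 8946) (nat_lit 6) (nat_lit 14))
    (@En.n l15566 (nat_lit 5204) (nat_lit 2) (nat_lit 7))
    (@En.n l663 (nat_lit 4822) (nat_lit 11) (nat_lit 7))
    (@En.n l15567 (nat_lit 5010) (nat_lit 8) (nat_lit 4))
    (@En.i (nat_lit 4825) (nat_lit 5) (nat_lit 9))
    (@En.n l15568 (nat_lit 6703) (nat_lit 11) (nat_lit 10))
    (@En.n l15569 (nat_lit 6670) (nat_lit 7) (nat_lit 5))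
    (@En.n l15570 (nat_lit 5126) (nat_lit 9) (nat_lit 12))
    (@En.n l15571 (nat_lit 5126) (nat_lit 10) (nat_lit 9))
    (@En.n l947 (nat_lit 6529) (nat_lit 11) (nat_lit 9))
    (@En.n l28 (nat_lit 5127) (nat_lit 11) (nat_lit 2))
    (@En.n l15572 (nat_lit 5194) (nat_lit 13) (nat_lit 11))
    (@En.n l15569 (nat_lit 5218) (nat_lit 1) (nat_lit 14))
    (@En.n l13040 (nat_lit 4876) (nat_lit 2) (nat_lit 7))
    (@En.n l3 (nat_lit 5127) (nat_lit 15) (nat_lit 2))))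
  (@Cl.mk (nat_lit 0x200070003000e000800020009000e000d00020009000300080007000e000d) (nat_lit 0xb101250206088) (nat_lit 16) Lb.e (@T16.mk En
    (@En.n l61 (nat_lit 5129) (nat_lit 6) (nat_lit 13))
    (@En.n l4997 (nat_lit 4886) (nat_lit 7) (nat_lit 14))
    (@En.i (nat_lit 5124) (nat_lit 2) (nat_lit 7))
    (@En.n l5004 (nat_lit 6428) (nat_lit 3) (nat_lit 8))
    (@En.i (nat_lit 5130) (nat_lit 4) (nat_lit 3))
    (@En.n l5331 (nat_lit 4634) (nat_lit 0) (nat_lit 9))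
    (@En.n l28 (nat_lit 5128) (nat_lit 6) (nat_lit 2))
    (@En.n l134 (nat_lit 5130) (nat_lit 8) (nat_lit 13))
    (@En.n l13039 (nat_lit 4888) (nat_lit 9) (nat_lit 14))
    (@En.n l13040 (nat_lit 930) (nat_lit 10) (nat_lit 9))
    (@En.n l3 (nat_lit 5128) (nat_lit 10) (nat_lit 2))
    (@En.n l13041 (nat_lit 50) (nat_lit 4) (nat_lit 8))
    (@En.n l5004 (nat_lit 3111) (nat_lit 1) (nat_lit 14))
    (@En.n l72 (nat_lit 5129) (nat_lit 2) (nat_lit 3))
    (@En.n l5004 (nat_lit 5126) (nat_lit 3) (nat_lit 7))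
    (@En.n l17 (nat_lit 5128) (nat_lit 15) (nat_lit 2))))
  (@Cl.mk (nat_lit 0x20009000e000d0002000a000300080007000d000d000600030003000e0008) (nat_lit 0x22a0206076000b4) (nat_lit 16) Lb.e (@T16.mk En
    (@En.i (nat_lit 2959) (nat_lit 4) (nat_lit 8))
    (@En.i (nat_lit 5668) (nat_lit 1) (nat_lit 14))
    (@En.i (nat_lit 5128) (nat_lit 13) (nat_lit 3))
    (@En.n l18 (nat_lit 5694) (nat_lit 3) (nat_lit 3))
    (@En.i (nat_lit 5125) (nat_lit 0) (nat_lit 6))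
    (@En.n l61 (nat_lit 5694) (nat_lit 6) (nat_lit 13))
    (@En.n l4021 (nat_lit 5541) (nat_lit 7) (nat_lit 13))
    (@En.i (nat_lit 3569) (nat_lit 7) (nat_lit 7))
    (@En.n l117 (nat_lit 6425) (nat_lit 13) (nat_lit 8))
    (@En.i (nat_lit 5131) (nat_lit 9) (nat_lit 3))
    (@En.i (nat_lit 4637) (nat_lit 0) (nat_lit 10))
    (@En.n l28 (nat_lit 5129) (nat_lit 11) (nat_lit 2))
    (@En.n l134 (nat_lit 5131) (nat_lit 13) (nat_lit 13))
    (@En.n l5577 (nat_lit 4596) (nat_lit 1) (nat_lit 14))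
    (@En.n l107 (nat_lit 925) (nat_lit 2) (nat_lit 9))
    (@En.n l3 (nat_lit 5129) (nat_lit 15) (nat_lit 2))))
  (@Cl.mk (nat_lit 0x200080003000e000800020009000d000d00080003000300080007000e000d) (nat_lit 0xb202450006084) (nat_lit 16) Lb.e (@T16.mk En
    (@En.n l61 (nat_lit 5131) (nat_lit 6) (nat_lit 13))
    (@En.n l4997 (nat_lit 4885) (nat_lit 7) (nat_lit 14))
    (@En.i (nat_lit 3574) (nat_lit 2) (nat_lit 7))
    (@En.n l4998 (nat_lit 6327) (nat_lit 3) (nat_lit 8))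
    (@En.n l7 (nat_lit 5128) (nat_lit 4) (nat_lit 3))
    (@En.n l4999 (nat_lit 5498) (nat_lit 0) (nat_lit 3))
    (@En.i (nat_lit 5778) (nat_lit 6) (nat_lit 8))
    (@En.n l5000 (nat_lit 5498) (nat_lit 3) (nat_lit 13))
    (@En.n l5001 (nat_lit 5646) (nat_lit 9) (nat_lit 13))
    (@En.n l5002 (nat_lit 709) (nat_lit 10) (nat_lit 9))
    (@En.n l3 (nat_lit 5130) (nat_lit 10) (nat_lit 2))
    (@En.n l5003 (nat_lit 2959) (nat_lit 12) (nat_lit 8))
    (@En.n l5004 (nat_lit 3105) (nat_lit 1) (nat_lit 14))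
    (@En.n l72 (nat_lit 5131) (nat_lit 2) (nat_lit 3))
    (@En.n l5004 (nat_lit 5133) (nat_lit 3) (nat_lit 8))
    (@En.n l17 (nat_lit 5130) (nat_lit 15) (nat_lit 2))))
  (@Cl.mk (nat_lit 0x20009000d000d00090003000300080007000d000d000700030003000e0008) (nat_lit 0x1920006032000a1) (nat_lit 16) Lb.e (@T16.mk En
    (@En.n l4018 (nat_lit 49) (nat_lit 5) (nat_lit 8))
    (@En.i (nat_lit 3256) (nat_lit 1) (nat_lit 14))
    (@En.i (nat_lit 5130) (nat_lit 13) (nat_lit 3))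
    (@En.n l18 (nat_lit 5501) (nat_lit 3) (nat_lit 3))
    (@En.n l3506 (nat_lit 5132) (nat_lit 4) (nat_lit 7))
    (@En.n l61 (nat_lit 5501) (nat_lit 6) (nat_lit 13))
    (@En.n l4021 (nat_lit 5540) (nat_lit 7) (nat_lit 13))
    (@En.i (nat_lit 3577) (nat_lit 7) (nat_lit 7))
    (@En.n l9600 (nat_lit 6325) (nat_lit 4) (nat_lit 8))
    (@En.n l7 (nat_lit 5129) (nat_lit 9) (nat_lit 3))
    (@En.n l9598 (nat_lit 5499) (nat_lit 0) (nat_lit 3))
    (@En.i (nat_lit 5696) (nat_lit 0) (nat_lit 9))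
    (@En.n l13037 (nat_lit 5499) (nat_lit 3) (nat_lit 13))
    (@En.n l5577 (nat_lit 5644) (nat_lit 14) (nat_lit 13))
    (@En.n l13038 (nat_lit 701) (nat_lit 11) (nat_lit 9))
    (@En.n l3 (nat_lit 5131) (nat_lit 15) (nat_lit 2))))
  (@Cl.mk (nat_lit 0x20008000c000c000900080004000400090008000e000700020008000e0007) (nat_lit 0x348010003800580) (nat_lit 16) Lb.e (@T16.mk En
    (@En.n l15820 (nat_lit 5699) (nat_lit 13) (nat_lit 7))
    (@En.n l13533 (nat_lit 8959) (nat_lit 1) (nat_lit 14))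
    (@En.n l15572 (nat_lit 5194) (nat_lit 2) (nat_lit 8))
    (@En.n l18 (nat_lit 5132) (nat_lit 3) (nat_lit 2))
    (@En.n l50 (nat_lit 5709) (nat_lit 4) (nat_lit 7))
    (@En.n l4021 (nat_lit 10095) (nat_lit 6) (nat_lit 14))
    (@En.i (nat_lit 3298) (nat_lit 2) (nat_lit 8))
    (@En.n l23317 (nat_lit 6306) (nat_lit 3) (nat_lit 9))
    (@En.n l55 (nat_lit 5125) (nat_lit 4) (nat_lit 4))
    (@En.n l13533 (nat_lit 6473) (nat_lit 9) (nat_lit 4))
    (@En.n l17936 (nat_lit 5130) (nat_lit 6) (nat_lit 8))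
    (@En.n l134 (nat_lit 6528) (nat_lit 12) (nat_lit 9))
    (@En.n l23318 (nat_lit 5708) (nat_lit 13) (nat_lit 12))
    (@En.n l23319 (nat_lit 8037) (nat_lit 10) (nat_lit 12))
    (@En.n l23320 (nat_lit 4913) (nat_lit 11) (nat_lit 8))
    (@En.n l3 (nat_lit 5132) (nat_lit 15) (nat_lit 2))))
  (@Cl.mk (nat_lit 0x20008000c000c0008000b00040004000900080005000e00080002000e0007) (nat_lit 0x145000075096080) (nat_lit 16) Lb.e (@T16.mk En
    (@En.n l10112 (nat_lit 1646) (nat_lit 14) (nat_lit 7))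
    (@En.i (nat_lit 8899) (nat_lit 1) (nat_lit 14))
    (@En.n l17 (nat_lit 5133) (nat_lit 2) (nat_lit 2))
    (@En.n l3724 (nat_lit 5194) (nat_lit 3) (nat_lit 8))
    (@En.n l10113 (nat_lit 5132) (nat_lit 5) (nat_lit 14))
    (@En.n l1125 (nat_lit 5017) (nat_lit 5) (nat_lit 5))
    (@En.n l536 (nat_lit 2399) (nat_lit 6) (nat_lit 8))
    (@En.n l1599 (nat_lit 6725) (nat_lit 4) (nat_lit 9))
    (@En.n l28 (nat_lit 5126) (nat_lit 8) (nat_lit 4))
    (@En.n l1125 (nat_lit 7039) (nat_lit 9) (nat_lit 4))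
    (@En.i (nat_lit 12789) (nat_lit 7) (nat_lit 11))
    (@En.n l10114 (nat_lit 6533) (nat_lit 12) (nat_lit 8))
    (@En.n l10115 (nat_lit 5195) (nat_lit 13) (nat_lit 12))
    (@En.n l3724 (nat_lit 5680) (nat_lit 14) (nat_lit 12))
    (@En.n l253 (nat_lit 4916) (nat_lit 12) (nat_lit 8))
    (@En.n l3 (nat_lit 5133) (nat_lit 15) (nat_lit 2))))
  (@Cl.mk (nat_lit 0x2000d0008000c00030006000e00040002000d0008000e00030002000e000a) (nat_lit 0x152004000640058) (nat_lit 16) Lb.e (@T16.mk En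
    (@En.n l7681 (nat_lit 4167) (nat_lit 14) (nat_lit 10))
    (@En.n l2034 (nat_lit 12343) (nat_lit 1) (nat_lit 14))
    (@En.n l50 (nat_lit 5134) (nat_lit 2) (nat_lit 2))
    (@En.n l564 (nat_lit 5135) (nat_lit 3) (nat_lit 3))
    (@En.n l2866 (nat_lit 13185) (nat_lit 0) (nat_lit 14))
    (@En.n l5050 (nat_lit 5014) (nat_lit 14) (nat_lit 8))
    (@En.i (nat_lit 5968) (nat_lit 7) (nat_lit 13))
    (@En.n l11 (nat_lit 5134) (nat_lit 7) (nat_lit 2))
    (@En.n l7684 (nat_lit 4166) (nat_lit 8) (nat_lit 4))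
    (@En.i (nat_lit 4797) (nat_lit 1) (nat_lit 14))
    (@En.n l7681 (nat_lit 4120) (nat_lit 12) (nat_lit 6))
    (@En.n l3596 (nat_lit 4163) (nat_lit 3) (nat_lit 3))
    (@En.i (nat_lit 2897) (nat_lit 0) (nat_lit 12))
    (@En.n l5276 (nat_lit 8971) (nat_lit 14) (nat_lit 8))
    (@En.n l3340 (nat_lit 4167) (nat_lit 12) (nat_lit 13))
    (@En.n l17 (nat_lit 5134) (nat_lit 15) (nat_lit 2))))
  (@Cl.mk (nat_lit 0x2000d0007000c00030006000e00040002000d000d000900030003000e000a) (nat_lit 0x1020040001600b8) (nat_lit 16) Lb.e (@T16.mk En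
    (@En.n l1330 (nat_lit 4152) (nat_lit 9) (nat_lit 10))
    (@En.n l3486 (nat_lit 12611) (nat_lit 1) (nat_lit 14))
    (@En.n l1251 (nat_lit 5136) (nat_lit 13) (nat_lit 3))
    (@En.n l1722 (nat_lit 5134) (nat_lit 3) (nat_lit 3))
    (@En.i (nat_lit 7140) (nat_lit 0) (nat_lit 9))
    (@En.n l2593 (nat_lit 5134) (nat_lit 6) (nat_lit 13))
    (@En.i (nat_lit 5970) (nat_lit 7) (nat_lit 13))
    (@En.n l11 (nat_lit 5135) (nat_lit 7) (nat_lit 2))
    (@En.i (nat_lit 5137) (nat_lit 8) (nat_lit 4))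
    (@En.n l387 (nat_lit 4791) (nat_lit 1) (nat_lit 14))
    (@En.n l1329 (nat_lit 4122) (nat_lit 12) (nat_lit 6))
    (@En.n l9870 (nat_lit 4148) (nat_lit 11) (nat_lit 3))
    (@En.i (nat_lit 2735) (nat_lit 0) (nat_lit 12))
    (@En.n l9871 (nat_lit 8646) (nat_lit 14) (nat_lit 7))
    (@En.n l1329 (nat_lit 4152) (nat_lit 7) (nat_lit 13))
    (@En.n l18 (nat_lit 5135) (nat_lit 15) (nat_lit 2))))
noncomputable def a321 : T16 Cl := @T16.mk Cl
  (@Cl.mk (nat_lit 0x2000a0003000e000a0002000d0006000c00030006000e00040002000e000d) (nat_lit 0x70b801040040041) (nat_lit 16) Lb.e (@T16.mk En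
    (@En.n l4096 (nat_lit 5135) (nat_lit 6) (nat_lit 13))
    (@En.n l544 (nat_lit 6781) (nat_lit 1) (nat_lit 14))
    (@En.n l17 (nat_lit 5136) (nat_lit 2) (nat_lit 2))
    (@En.n l4097 (nat_lit 5138) (nat_lit 3) (nat_lit 4))
    (@En.n l544 (nat_lit 4789) (nat_lit 1) (nat_lit 14))
    (@En.i (nat_lit 4125) (nat_lit 12) (nat_lit 6))
    (@En.n l335 (nat_lit 4145) (nat_lit 6) (nat_lit 3))
    (@En.n l566 (nat_lit 3051) (nat_lit 8) (nat_lit 12))
    (@En.n l564 (nat_lit 8645) (nat_lit 14) (nat_lit 6))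
    (@En.n l4098 (nat_lit 4153) (nat_lit 10) (nat_lit 13))
    (@En.n l28 (nat_lit 5136) (nat_lit 10) (nat_lit 2))
    (@En.n l4099 (nat_lit 4153) (nat_lit 12) (nat_lit 10))
    (@En.n l565 (nat_lit 12380) (nat_lit 1) (nat_lit 14))
    (@En.n l4100 (nat_lit 5135) (nat_lit 2) (nat_lit 3))
    (@En.n l4101 (nat_lit 5774) (nat_lit 12) (nat_lit 10))
    (@En.n l3 (nat_lit 5136) (nat_lit 15) (nat_lit 2))))
  (@Cl.mk (nat_lit 0x2000c0007000c000c0004000700040004000d000d000900030003000e0009) (nat_lit 0x43000001500a7) (nat_lit 16) Lb.e (@T16.mk En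
    (@En.n l9871 (nat_lit 5139) (nat_lit 13) (nat_lit 9))
    (@En.n l1437 (nat_lit 12610) (nat_lit 1) (nat_lit 14))
    (@En.n l13585 (nat_lit 5138) (nat_lit 13) (nat_lit 3))
    (@En.n l1433 (nat_lit 4166) (nat_lit 3) (nat_lit 3))
    (@En.n l3386 (nat_lit 7138) (nat_lit 0) (nat_lit 9))
    (@En.n l1435 (nat_lit 4166) (nat_lit 6) (nat_lit 13))
    (@En.n l2832 (nat_lit 6803) (nat_lit 7) (nat_lit 13))
    (@En.n l13586 (nat_lit 5376) (nat_lit 12) (nat_lit 4))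
    (@En.n l2832 (nat_lit 3053) (nat_lit 8) (nat_lit 4))
    (@En.n l1329 (nat_lit 4118) (nat_lit 11) (nat_lit 7))
    (@En.n l13587 (nat_lit 1112) (nat_lit 10) (nat_lit 4))
    (@En.n l575 (nat_lit 5135) (nat_lit 12) (nat_lit 12))
    (@En.i (nat_lit 1114) (nat_lit 13) (nat_lit 12))
    (@En.n l13588 (nat_lit 8644) (nat_lit 14) (nat_lit 7))
    (@En.n l13589 (nat_lit 5139) (nat_lit 11) (nat_lit 12))
    (@En.n l18 (nat_lit 5137) (nat_lit 15) (nat_lit 2))))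
  (@Cl.mk (nat_lit 0x2000a0003000e00090002000c0006000c000c0004000700040004000e000d) (nat_lit 0x50a700055000091) (nat_lit 16) Lb.e (@T16.mk En
    (@En.n l5439 (nat_lit 5137) (nat_lit 6) (nat_lit 13))
    (@En.n l4193 (nat_lit 6782) (nat_lit 1) (nat_lit 14))
    (@En.n l1577 (nat_lit 5380) (nat_lit 12) (nat_lit 4))
    (@En.i (nat_lit 3052) (nat_lit 3) (nat_lit 4))
    (@En.n l5440 (nat_lit 4111) (nat_lit 11) (nat_lit 7))
    (@En.n l575 (nat_lit 1592) (nat_lit 5) (nat_lit 4))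
    (@En.n l5441 (nat_lit 5136) (nat_lit 7) (nat_lit 12))
    (@En.n l1386 (nat_lit 1368) (nat_lit 8) (nat_lit 12))
    (@En.n l5442 (nat_lit 8643) (nat_lit 14) (nat_lit 6))
    (@En.n l4427 (nat_lit 5140) (nat_lit 10) (nat_lit 12))
    (@En.n l3 (nat_lit 5138) (nat_lit 10) (nat_lit 2))
    (@En.n l5443 (nat_lit 5140) (nat_lit 12) (nat_lit 9))
    (@En.i (nat_lit 12377) (nat_lit 1) (nat_lit 14))
    (@En.n l5444 (nat_lit 5137) (nat_lit 2) (nat_lit 3))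
    (@En.n l1386 (nat_lit 5772) (nat_lit 3) (nat_lit 10))
    (@En.n l50 (nat_lit 5138) (nat_lit 15) (nat_lit 2))))
  (@Cl.mk (nat_lit 0x3000300090009000c0006000b000b00040007000700050005000d000d000a) (nat_lit 0x67a03300000004) (nat_lit 16) Lb.e (@T16.mk En
    (@En.n l27277 (nat_lit 7137) (nat_lit 0) (nat_lit 10))
    (@En.n l1140 (nat_lit 5141) (nat_lit 3) (nat_lit 13))
    (@En.n l27278 (nat_lit 6802) (nat_lit 2) (nat_lit 13))
    (@En.n l27279 (nat_lit 3675) (nat_lit 11) (nat_lit 5))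
    (@En.n l11101 (nat_lit 7279) (nat_lit 4) (nat_lit 5))
    (@En.n l12130 (nat_lit 5137) (nat_lit 9) (nat_lit 7))
    (@En.i (nat_lit 4130) (nat_lit 11) (nat_lit 7))
    (@En.n l19302 (nat_lit 1055) (nat_lit 7) (nat_lit 4))
    (@En.n l17791 (nat_lit 4152) (nat_lit 5) (nat_lit 11))
    (@En.n l3528 (nat_lit 1158) (nat_lit 10) (nat_lit 11))
    (@En.i (nat_lit 8940) (nat_lit 11) (nat_lit 6))
    (@En.n l27280 (nat_lit 5142) (nat_lit 6) (nat_lit 12))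
    (@En.n l27281 (nat_lit 5142) (nat_lit 7) (nat_lit 9))
    (@En.n l27282 (nat_lit 11414) (nat_lit 14) (nat_lit 9))
    (@En.n l27283 (nat_lit 5140) (nat_lit 13) (nat_lit 3))
    (@En.n l9956 (nat_lit 5141) (nat_lit 0) (nat_lit 3))))
  (@Cl.mk (nat_lit 0x2000b000300090009000c0005000b000b00040007000700050005000e000d) (nat_lit 0x7067a0430000041) (nat_lit 16) Lb.e (@T16.mk En
    (@En.n l13630 (nat_lit 5139) (nat_lit 2) (nat_lit 13))
    (@En.n l13631 (nat_lit 2543) (nat_lit 1) (nat_lit 14))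
    (@En.n l13632 (nat_lit 5379) (nat_lit 11) (nat_lit 5))
    (@En.n l13633 (nat_lit 7280) (nat_lit 3) (nat_lit 5))
    (@En.n l13634 (nat_lit 5138) (nat_lit 4) (nat_lit 7))
    (@En.n l13633 (nat_lit 4131) (nat_lit 11) (nat_lit 7))
    (@En.n l13635 (nat_lit 1059) (nat_lit 6) (nat_lit 4))
    (@En.n l12560 (nat_lit 4153) (nat_lit 8) (nat_lit 11))
    (@En.n l11844 (nat_lit 1014) (nat_lit 9) (nat_lit 11))
    (@En.n l13636 (nat_lit 7653) (nat_lit 9) (nat_lit 5))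
    (@En.n l217 (nat_lit 5143) (nat_lit 6) (nat_lit 12))
    (@En.n l13637 (nat_lit 5143) (nat_lit 7) (nat_lit 9))
    (@En.i (nat_lit 12338) (nat_lit 13) (nat_lit 9))
    (@En.n l13638 (nat_lit 5139) (nat_lit 14) (nat_lit 3))
    (@En.i (nat_lit 5769) (nat_lit 0) (nat_lit 11))
    (@En.n l11 (nat_lit 5140) (nat_lit 15) (nat_lit 2))))
  (@Cl.mk (nat_lit 0x200090009000c0007000b000b00040007000700050005000d0009000e0003) (nat_lit 0x77a03700000b480) (nat_lit 16) Lb.e (@T16.mk En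
    (@En.n l3522 (nat_lit 5139) (nat_lit 15) (nat_lit 3))
    (@En.n l36219 (nat_lit 13190) (nat_lit 0) (nat_lit 14))
    (@En.i (nat_lit 5012) (nat_lit 2) (nat_lit 9))
    (@En.n l645 (nat_lit 6798) (nat_lit 2) (nat_lit 13))
    (@En.n l39082 (nat_lit 5375) (nat_lit 11) (nat_lit 5))
    (@En.n l15230 (nat_lit 7278) (nat_lit 5) (nat_lit 5))
    (@En.n l27228 (nat_lit 4166) (nat_lit 9) (nat_lit 7))
    (@En.i (nat_lit 4129) (nat_lit 11) (nat_lit 7))
    (@En.n l38446 (nat_lit 1057) (nat_lit 8) (nat_lit 4))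
    (@En.n l77 (nat_lit 4167) (nat_lit 10) (nat_lit 11))
    (@En.i (nat_lit 1160) (nat_lit 11) (nat_lit 11))
    (@En.n l3824 (nat_lit 8968) (nat_lit 12) (nat_lit 7))
    (@En.n l15232 (nat_lit 5144) (nat_lit 6) (nat_lit 12))
    (@En.n l15233 (nat_lit 5144) (nat_lit 7) (nat_lit 9))
    (@En.n l1236 (nat_lit 11477) (nat_lit 14) (nat_lit 9))
    (@En.n l17 (nat_lit 5141) (nat_lit 15) (nat_lit 2))))
  (@Cl.mk (nat_lit 0x200060006000d000d000b000300030009000c0005000a000a0004000e0007) (nat_lit 0x400690230a0) (nat_lit 16) Lb.e (@T16.mk En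
    (@En.n l39366 (nat_lit 5139) (nat_lit 6) (nat_lit 7))
    (@En.n l8845 (nat_lit 4139) (nat_lit 1) (nat_lit 14))
    (@En.n l4353 (nat_lit 1053) (nat_lit 2) (nat_lit 4))
    (@En.n l39367 (nat_lit 5145) (nat_lit 6) (nat_lit 10))
    (@En.n l8820 (nat_lit 1161) (nat_lit 4) (nat_lit 10))
    (@En.n l39368 (nat_lit 8977) (nat_lit 5) (nat_lit 5))
    (@En.n l3815 (nat_lit 13698) (nat_lit 6) (nat_lit 12))
    (@En.n l4909 (nat_lit 11410) (nat_lit 8) (nat_lit 9))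
    (@En.n l28 (nat_lit 5143) (nat_lit 8) (nat_lit 3))
    (@En.n l22451 (nat_lit 5144) (nat_lit 9) (nat_lit 3))
    (@En.i (nat_lit 7136) (nat_lit 11) (nat_lit 11))
    (@En.n l39369 (nat_lit 5144) (nat_lit 12) (nat_lit 13))
    (@En.n l8820 (nat_lit 6801) (nat_lit 13) (nat_lit 13))
    (@En.n l3180 (nat_lit 3677) (nat_lit 10) (nat_lit 6))
    (@En.n l6081 (nat_lit 6991) (nat_lit 4) (nat_lit 6))
    (@En.n l3 (nat_lit 5142) (nat_lit 15) (nat_lit 2))))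
  (@Cl.mk (nat_lit 0x200060006000e000d0002000c00030009000c0004000a000a0004000e0007) (nat_lit 0x3107069033090) (nat_lit 16) Lb.e (@T16.mk En
    (@En.n l10794 (nat_lit 5140) (nat_lit 5) (nat_lit 7))
    (@En.n l18 (nat_lit 5822) (nat_lit 1) (nat_lit 14))
    (@En.n l7882 (nat_lit 1058) (nat_lit 2) (nat_lit 4))
    (@En.n l61 (nat_lit 5146) (nat_lit 9) (nat_lit 10))
    (@En.i (nat_lit 1017) (nat_lit 10) (nat_lit 10))
    (@En.i (nat_lit 8986) (nat_lit 5) (nat_lit 4))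
    (@En.n l2544 (nat_lit 13701) (nat_lit 6) (nat_lit 12))
    (@En.i (nat_lit 12336) (nat_lit 13) (nat_lit 9))
    (@En.i (nat_lit 5142) (nat_lit 8) (nat_lit 3))
    (@En.i (nat_lit 6044) (nat_lit 10) (nat_lit 12))
    (@En.n l11 (nat_lit 5143) (nat_lit 10) (nat_lit 2))
    (@En.n l1578 (nat_lit 5142) (nat_lit 12) (nat_lit 13))
    (@En.n l2199 (nat_lit 2542) (nat_lit 13) (nat_lit 14))
    (@En.n l5331 (nat_lit 5381) (nat_lit 10) (nat_lit 6))
    (@En.n l6081 (nat_lit 6993) (nat_lit 3) (nat_lit 6))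
    (@En.n l3 (nat_lit 5143) (nat_lit 15) (nat_lit 2))))
  (@Cl.mk (nat_lit 0x200060006000d000a000e000300020009000c0006000a000a0004000e0007) (nat_lit 0xb4800690220a0) (nat_lit 16) Lb.e (@T16.mk En
    (@En.n l6139 (nat_lit 5141) (nat_lit 7) (nat_lit 7))
    (@En.n l22485 (nat_lit 5820) (nat_lit 1) (nat_lit 14))
    (@En.n l7 (nat_lit 1056) (nat_lit 2) (nat_lit 4))
    (@En.n l8933 (nat_lit 5147) (nat_lit 11) (nat_lit 10))
    (@En.i (nat_lit 1159) (nat_lit 4) (nat_lit 10))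
    (@En.n l31609 (nat_lit 8976) (nat_lit 5) (nat_lit 6))
    (@En.i (nat_lit 13700) (nat_lit 6) (nat_lit 12))
    (@En.n l11237 (nat_lit 11476) (nat_lit 8) (nat_lit 9))
    (@En.n l11 (nat_lit 5144) (nat_lit 8) (nat_lit 2))
    (@En.n l31610 (nat_lit 5142) (nat_lit 9) (nat_lit 3))
    (@En.n l13056 (nat_lit 13195) (nat_lit 0) (nat_lit 14))
    (@En.n l11239 (nat_lit 5011) (nat_lit 12) (nat_lit 10))
    (@En.i (nat_lit 6800) (nat_lit 13) (nat_lit 13))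
    (@En.n l3258 (nat_lit 5378) (nat_lit 10) (nat_lit 6))
    (@En.n l28782 (nat_lit 6995) (nat_lit 5) (nat_lit 6))
    (@En.n l17 (nat_lit 5144) (nat_lit 15) (nat_lit 2))))
  (@Cl.mk (nat_lit 0x2000d000d000b00030003000a000d0005000a0003000e00060002000e0006) (nat_lit 0x8007b02090060) (nat_lit 16) Lb.e (@T16.mk En
    (@En.n l24304 (nat_lit 5142) (nat_lit 14) (nat_lit 6))
    (@En.n l24305 (nat_lit 7200) (nat_lit 1) (nat_lit 14))
    (@En.n l7 (nat_lit 5145) (nat_lit 2) (nat_lit 2))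
    (@En.n l24306 (nat_lit 4152) (nat_lit 3) (nat_lit 6))
    (@En.i (nat_lit 5821) (nat_lit 1) (nat_lit 14))
    (@En.i (nat_lit 4150) (nat_lit 5) (nat_lit 3))
    (@En.n l9903 (nat_lit 2730) (nat_lit 3) (nat_lit 10))
    (@En.n l17576 (nat_lit 8975) (nat_lit 7) (nat_lit 5))
    (@En.n l7910 (nat_lit 12855) (nat_lit 5) (nat_lit 13))
    (@En.n l23436 (nat_lit 11461) (nat_lit 10) (nat_lit 10))
    (@En.n l24307 (nat_lit 5146) (nat_lit 13) (nat_lit 3))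
    (@En.n l22938 (nat_lit 5147) (nat_lit 0) (nat_lit 3))
    (@En.n l24304 (nat_lit 7141) (nat_lit 0) (nat_lit 11))
    (@En.n l20301 (nat_lit 5147) (nat_lit 3) (nat_lit 13))
    (@En.n l24308 (nat_lit 6677) (nat_lit 12) (nat_lit 13))
    (@En.n l17 (nat_lit 5145) (nat_lit 15) (nat_lit 2))))
  (@Cl.mk (nat_lit 0x2000c0003000a000d0004000a0003000e00060002000e00060002000e000d) (nat_lit 0xa07b02080060051) (nat_lit 16) Lb.e (@T16.mk En
    (@En.n l3870 (nat_lit 5145) (nat_lit 14) (nat_lit 13))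
    (@En.i (nat_lit 2539) (nat_lit 1) (nat_lit 14))
    (@En.n l17 (nat_lit 5146) (nat_lit 2) (nat_lit 2))
    (@En.i (nat_lit 5143) (nat_lit 14) (nat_lit 6))
    (@En.n l1531 (nat_lit 7367) (nat_lit 1) (nat_lit 14))
    (@En.n l3 (nat_lit 5146) (nat_lit 5) (nat_lit 2))
    (@En.n l10789 (nat_lit 4153) (nat_lit 6) (nat_lit 6))
    (@En.n l3870 (nat_lit 5823) (nat_lit 1) (nat_lit 14))
    (@En.n l3324 (nat_lit 4149) (nat_lit 8) (nat_lit 3))
    (@En.i (nat_lit 2729) (nat_lit 10) (nat_lit 10))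
    (@En.n l3858 (nat_lit 8985) (nat_lit 10) (nat_lit 4))
    (@En.n l2544 (nat_lit 12859) (nat_lit 5) (nat_lit 13))
    (@En.i (nat_lit 12332) (nat_lit 13) (nat_lit 10))
    (@En.n l8845 (nat_lit 5145) (nat_lit 10) (nat_lit 3))
    (@En.i (nat_lit 6046) (nat_lit 0) (nat_lit 12))
    (@En.n l11 (nat_lit 5146) (nat_lit 15) (nat_lit 2))))
  (@Cl.mk (nat_lit 0x2000a000d0006000a0003000e00060002000e00060002000d000a000e0003) (nat_lit 0x7b010800600b790) (nat_lit 16) Lb.e (@T16.mk En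
    (@En.n l9976 (nat_lit 5145) (nat_lit 11) (nat_lit 3))
    (@En.n l1596 (nat_lit 13191) (nat_lit 0) (nat_lit 14))
    (@En.n l16473 (nat_lit 5009) (nat_lit 2) (nat_lit 10))
    (@En.n l16001 (nat_lit 5973) (nat_lit 12) (nat_lit 13))
    (@En.n l7 (nat_lit 5147) (nat_lit 4) (nat_lit 2))
    (@En.n l16474 (nat_lit 5144) (nat_lit 14) (nat_lit 6))
    (@En.n l16001 (nat_lit 7458) (nat_lit 1) (nat_lit 14))
    (@En.n l3 (nat_lit 5147) (nat_lit 7) (nat_lit 2))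
    (@En.n l16002 (nat_lit 4167) (nat_lit 8) (nat_lit 6))
    (@En.i (nat_lit 5824) (nat_lit 1) (nat_lit 14))
    (@En.n l16475 (nat_lit 4162) (nat_lit 10) (nat_lit 3))
    (@En.i (nat_lit 2733) (nat_lit 12) (nat_lit 10))
    (@En.n l16476 (nat_lit 8974) (nat_lit 13) (nat_lit 6))
    (@En.n l16003 (nat_lit 12856) (nat_lit 5) (nat_lit 13))
    (@En.n l16477 (nat_lit 11456) (nat_lit 10) (nat_lit 10))
    (@En.n l17 (nat_lit 5147) (nat_lit 15) (nat_lit 2))))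
  (@Cl.mk (nat_lit 0x200090006000c000a0006000900040007000e00060002000a0007000e000a) (nat_lit 0x306307009006034) (nat_lit 16) Lb.e (@T16.mk En
    (@En.n l6698 (nat_lit 5063) (nat_lit 12) (nat_lit 10))
    (@En.n l1578 (nat_lit 5151) (nat_lit 1) (nat_lit 14))
    (@En.n l11549 (nat_lit 1934) (nat_lit 14) (nat_lit 7))
    (@En.n l3203 (nat_lit 2892) (nat_lit 3) (nat_lit 10))
    (@En.n l17 (nat_lit 5148) (nat_lit 4) (nat_lit 2))
    (@En.n l3203 (nat_lit 5149) (nat_lit 5) (nat_lit 6))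
    (@En.i (nat_lit 5070) (nat_lit 7) (nat_lit 14))
    (@En.n l3204 (nat_lit 5024) (nat_lit 2) (nat_lit 7))
    (@En.n l25253 (nat_lit 10037) (nat_lit 8) (nat_lit 4))
    (@En.n l11549 (nat_lit 13954) (nat_lit 9) (nat_lit 9))
    (@En.n l3201 (nat_lit 12183) (nat_lit 5) (nat_lit 6))
    (@En.n l25254 (nat_lit 5180) (nat_lit 12) (nat_lit 10))
    (@En.n l3198 (nat_lit 5062) (nat_lit 8) (nat_lit 12))
    (@En.n l152 (nat_lit 5077) (nat_lit 14) (nat_lit 6))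
    (@En.i (nat_lit 4539) (nat_lit 10) (nat_lit 9))
    (@En.n l28 (nat_lit 5148) (nat_lit 15) (nat_lit 2))))
  (@Cl.mk (nat_lit 0x200080006000b000a000a0007000a0005000800060006000a0006000e0009) (nat_lit 0x205840805005091) (nat_lit 16) Lb.e (@T16.mk En
    (@En.i (nat_lit 3184) (nat_lit 2) (nat_lit 9))
    (@En.n l396 (nat_lit 5150) (nat_lit 1) (nat_lit 14))
    (@En.n l24260 (nat_lit 1979) (nat_lit 2) (nat_lit 6))
    (@En.i (nat_lit 5162) (nat_lit 3) (nat_lit 10))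
    (@En.n l11401 (nat_lit 5030) (nat_lit 4) (nat_lit 6))
    (@En.n l24261 (nat_lit 6938) (nat_lit 5) (nat_lit 6))
    (@En.n l24262 (nat_lit 3179) (nat_lit 6) (nat_lit 8))
    (@En.n l24263 (nat_lit 10040) (nat_lit 7) (nat_lit 5))
    (@En.n l24262 (nat_lit 13328) (nat_lit 8) (nat_lit 10))
    (@En.i (nat_lit 9823) (nat_lit 10) (nat_lit 7))
    (@En.n l3081 (nat_lit 5148) (nat_lit 11) (nat_lit 10))
    (@En.n l11403 (nat_lit 5176) (nat_lit 12) (nat_lit 10))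
    (@En.n l24261 (nat_lit 5056) (nat_lit 13) (nat_lit 11))
    (@En.i (nat_lit 7572) (nat_lit 14) (nat_lit 6))
    (@En.n l24262 (nat_lit 4536) (nat_lit 6) (nat_lit 8))
    (@En.n l18 (nat_lit 5149) (nat_lit 15) (nat_lit 2))))
  (@Cl.mk (nat_lit 0x2000900080006000b000a000a000800070005000800060006000a000e0008) (nat_lit 0x100678000300680) (nat_lit 16) Lb.e (@T16.mk En
    (@En.n l33924 (nat_lit 5159) (nat_lit 3) (nat_lit 8))
    (@En.n l11400 (nat_lit 4468) (nat_lit 1) (nat_lit 14))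
    (@En.i (nat_lit 5163) (nat_lit 2) (nat_lit 10))
    (@En.n l11401 (nat_lit 6505) (nat_lit 3) (nat_lit 6))
    (@En.n l33030 (nat_lit 7703) (nat_lit 4) (nat_lit 6))
    (@En.n l33925 (nat_lit 4781) (nat_lit 5) (nat_lit 8))
    (@En.n l33926 (nat_lit 10792) (nat_lit 6) (nat_lit 5))
    (@En.i (nat_lit 7363) (nat_lit 7) (nat_lit 7))
    (@En.n l33927 (nat_lit 11843) (nat_lit 9) (nat_lit 8))
    (@En.n l3081 (nat_lit 5151) (nat_lit 10) (nat_lit 10))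
    (@En.n l33928 (nat_lit 7518) (nat_lit 11) (nat_lit 10))
    (@En.n l32195 (nat_lit 5153) (nat_lit 12) (nat_lit 11))
    (@En.i (nat_lit 5155) (nat_lit 13) (nat_lit 6))
    (@En.n l33929 (nat_lit 11325) (nat_lit 14) (nat_lit 8))
    (@En.n l18 (nat_lit 3184) (nat_lit 1) (nat_lit 9))
    (@En.n l50 (nat_lit 5150) (nat_lit 15) (nat_lit 2))))
  (@Cl.mk (nat_lit 0x2000a00090006000c000a0007000600040007000e00060002000a000e0009) (nat_lit 0x150370000a00720) (nat_lit 16) Lb.e (@T16.mk En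
    (@En.n l18149 (nat_lit 5157) (nat_lit 13) (nat_lit 9))
    (@En.n l5975 (nat_lit 3143) (nat_lit 1) (nat_lit 14))
    (@En.n l3203 (nat_lit 5165) (nat_lit 2) (nat_lit 10))
    (@En.n l17 (nat_lit 5151) (nat_lit 3) (nat_lit 2))
    (@En.n l3203 (nat_lit 5150) (nat_lit 4) (nat_lit 6))
    (@En.i (nat_lit 4848) (nat_lit 6) (nat_lit 14))
    (@En.n l3204 (nat_lit 2119) (nat_lit 6) (nat_lit 7))
    (@En.n l50 (nat_lit 10796) (nat_lit 3) (nat_lit 4))
    (@En.i (nat_lit 7196) (nat_lit 4) (nat_lit 6))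
    (@En.n l6563 (nat_lit 12638) (nat_lit 5) (nat_lit 7))
    (@En.n l16069 (nat_lit 7515) (nat_lit 11) (nat_lit 10))
    (@En.n l1690 (nat_lit 5152) (nat_lit 8) (nat_lit 12))
    (@En.n l152 (nat_lit 5154) (nat_lit 8) (nat_lit 6))
    (@En.n l7457 (nat_lit 11320) (nat_lit 14) (nat_lit 9))
    (@En.n l565 (nat_lit 5063) (nat_lit 11) (nat_lit 10))
    (@En.n l11 (nat_lit 5151) (nat_lit 15) (nat_lit 2))))
noncomputable def a322 : T16 Cl := @T16.mk Cl
  (@Cl.mk (nat_lit 0x20005000e000a0002000b0009000c0009000600050004000b0007000e0007) (nat_lit 0x280152600060a0) (nat_lit 16) Lb.e (@T16.mk En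
    (@En.n l11047 (nat_lit 5153) (nat_lit 4) (nat_lit 7))
    (@En.n l3 (nat_lit 5154) (nat_lit 1) (nat_lit 14))
    (@En.n l3 (nat_lit 5151) (nat_lit 6) (nat_lit 7))
    (@En.n l6645 (nat_lit 7655) (nat_lit 3) (nat_lit 11))
    (@En.n l50 (nat_lit 10795) (nat_lit 4) (nat_lit 4))
    (@En.i (nat_lit 7364) (nat_lit 5) (nat_lit 5))
    (@En.n l11048 (nat_lit 12639) (nat_lit 6) (nat_lit 6))
    (@En.n l6645 (nat_lit 7524) (nat_lit 12) (nat_lit 9))
    (@En.n l11048 (nat_lit 4140) (nat_lit 9) (nat_lit 12))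
    (@En.n l6105 (nat_lit 5791) (nat_lit 10) (nat_lit 9))
    (@En.n l11048 (nat_lit 5057) (nat_lit 11) (nat_lit 11))
    (@En.n l11 (nat_lit 5152) (nat_lit 11) (nat_lit 2))
    (@En.n l11049 (nat_lit 5156) (nat_lit 13) (nat_lit 10))
    (@En.n l11050 (nat_lit 3142) (nat_lit 1) (nat_lit 14))
    (@En.n l3106 (nat_lit 7734) (nat_lit 13) (nat_lit 5))
    (@En.n l17 (nat_lit 5152) (nat_lit 15) (nat_lit 2))))
  (@Cl.mk (nat_lit 0x2000a0008000b00090009000700060005000c0008000700070004000e0009) (nat_lit 0x255670006400090) (nat_lit 16) Lb.e (@T16.mk En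
    (@En.n l22951 (nat_lit 5160) (nat_lit 14) (nat_lit 9))
    (@En.n l22952 (nat_lit 4467) (nat_lit 1) (nat_lit 14))
    (@En.n l22953 (nat_lit 7727) (nat_lit 2) (nat_lit 4))
    (@En.n l22954 (nat_lit 6504) (nat_lit 9) (nat_lit 7))
    (@En.i (nat_lit 7149) (nat_lit 4) (nat_lit 7))
    (@En.n l22955 (nat_lit 5150) (nat_lit 5) (nat_lit 8))
    (@En.n l22956 (nat_lit 7654) (nat_lit 7) (nat_lit 12))
    (@En.n l18766 (nat_lit 5857) (nat_lit 7) (nat_lit 5))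
    (@En.n l9885 (nat_lit 7362) (nat_lit 8) (nat_lit 6))
    (@En.n l22951 (nat_lit 11844) (nat_lit 10) (nat_lit 7))
    (@En.n l22957 (nat_lit 5152) (nat_lit 7) (nat_lit 9))
    (@En.n l22958 (nat_lit 7144) (nat_lit 12) (nat_lit 9))
    (@En.n l22959 (nat_lit 2916) (nat_lit 7) (nat_lit 11))
    (@En.n l22960 (nat_lit 11326) (nat_lit 14) (nat_lit 8))
    (@En.n l22961 (nat_lit 5054) (nat_lit 12) (nat_lit 10))
    (@En.n l67 (nat_lit 5153) (nat_lit 15) (nat_lit 2))))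
  (@Cl.mk (nat_lit 0x2000a0005000e000a0002000b0006000c000a000600050004000b000e0006) (nat_lit 0x504801096000690) (nat_lit 16) Lb.e (@T16.mk En
    (@En.n l3928 (nat_lit 5155) (nat_lit 5) (nat_lit 6))
    (@En.i (nat_lit 4844) (nat_lit 7) (nat_lit 14))
    (@En.n l250 (nat_lit 7656) (nat_lit 2) (nat_lit 11))
    (@En.n l50 (nat_lit 10797) (nat_lit 3) (nat_lit 4))
    (@En.i (nat_lit 4809) (nat_lit 4) (nat_lit 5))
    (@En.i (nat_lit 12572) (nat_lit 5) (nat_lit 6))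
    (@En.n l217 (nat_lit 7527) (nat_lit 12) (nat_lit 10))
    (@En.n l2544 (nat_lit 2970) (nat_lit 8) (nat_lit 12))
    (@En.n l810 (nat_lit 8005) (nat_lit 14) (nat_lit 6))
    (@En.n l28 (nat_lit 5075) (nat_lit 10) (nat_lit 11))
    (@En.n l11 (nat_lit 5154) (nat_lit 10) (nat_lit 2))
    (@En.i (nat_lit 5158) (nat_lit 12) (nat_lit 10))
    (@En.n l781 (nat_lit 11183) (nat_lit 1) (nat_lit 14))
    (@En.i (nat_lit 5152) (nat_lit 14) (nat_lit 5))
    (@En.n l3928 (nat_lit 6531) (nat_lit 3) (nat_lit 10))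
    (@En.n l17 (nat_lit 5154) (nat_lit 15) (nat_lit 2))))
  (@Cl.mk (nat_lit 0x2000a0006000b000a000a000700060005000c00060006000a0004000e0009) (nat_lit 0x50700060040a0) (nat_lit 16) Lb.e (@T16.mk En
    (@En.i (nat_lit 5161) (nat_lit 14) (nat_lit 9))
    (@En.n l33029 (nat_lit 11185) (nat_lit 1) (nat_lit 14))
    (@En.n l35185 (nat_lit 5153) (nat_lit 2) (nat_lit 4))
    (@En.i (nat_lit 7730) (nat_lit 3) (nat_lit 10))
    (@En.n l11401 (nat_lit 7964) (nat_lit 10) (nat_lit 6))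
    (@En.n l18752 (nat_lit 7702) (nat_lit 5) (nat_lit 6))
    (@En.n l16495 (nat_lit 6448) (nat_lit 7) (nat_lit 12))
    (@En.n l1003 (nat_lit 10794) (nat_lit 7) (nat_lit 5))
    (@En.i (nat_lit 7268) (nat_lit 8) (nat_lit 6))
    (@En.n l6444 (nat_lit 10187) (nat_lit 10) (nat_lit 7))
    (@En.n l8906 (nat_lit 5154) (nat_lit 6) (nat_lit 10))
    (@En.n l11403 (nat_lit 7147) (nat_lit 12) (nat_lit 10))
    (@En.n l13881 (nat_lit 2915) (nat_lit 13) (nat_lit 11))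
    (@En.i (nat_lit 8007) (nat_lit 14) (nat_lit 6))
    (@En.n l18 (nat_lit 7571) (nat_lit 12) (nat_lit 10))
    (@En.n l50 (nat_lit 5155) (nat_lit 15) (nat_lit 2))))
  (@Cl.mk (nat_lit 0x20005000a000a000a0008000b00080006000600060005000b0008000e0008) (nat_lit 0x70054500007290) (nat_lit 16) Lb.e (@T16.mk En
    (@En.n l24646 (nat_lit 5160) (nat_lit 1) (nat_lit 8))
    (@En.n l24647 (nat_lit 5158) (nat_lit 1) (nat_lit 14))
    (@En.n l24648 (nat_lit 5157) (nat_lit 2) (nat_lit 8))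
    (@En.n l24649 (nat_lit 5315) (nat_lit 3) (nat_lit 11))
    (@En.n l564 (nat_lit 10780) (nat_lit 4) (nat_lit 5))
    (@En.n l1602 (nat_lit 6948) (nat_lit 5) (nat_lit 6))
    (@En.n l24650 (nat_lit 5152) (nat_lit 6) (nat_lit 6))
    (@En.n l3995 (nat_lit 9238) (nat_lit 7) (nat_lit 6))
    (@En.n l24648 (nat_lit 6296) (nat_lit 9) (nat_lit 8))
    (@En.i (nat_lit 2969) (nat_lit 10) (nat_lit 11))
    (@En.n l24651 (nat_lit 11336) (nat_lit 11) (nat_lit 8))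
    (@En.n l576 (nat_lit 6007) (nat_lit 12) (nat_lit 10))
    (@En.n l55 (nat_lit 5748) (nat_lit 13) (nat_lit 10))
    (@En.n l3997 (nat_lit 5270) (nat_lit 14) (nat_lit 10))
    (@En.n l3998 (nat_lit 5854) (nat_lit 13) (nat_lit 5))
    (@En.n l3 (nat_lit 5156) (nat_lit 15) (nat_lit 2))))
  (@Cl.mk (nat_lit 0x2000b00090009000900080005000b000900070007000700050008000e0007) (nat_lit 0x170060520000140) (nat_lit 16) Lb.e (@T16.mk En
    (@En.n l61 (nat_lit 5159) (nat_lit 6) (nat_lit 7))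
    (@En.n l17194 (nat_lit 5740) (nat_lit 1) (nat_lit 14))
    (@En.n l33883 (nat_lit 62) (nat_lit 2) (nat_lit 8))
    (@En.n l33884 (nat_lit 10781) (nat_lit 3) (nat_lit 5))
    (@En.n l33885 (nat_lit 6950) (nat_lit 9) (nat_lit 7))
    (@En.n l8306 (nat_lit 5151) (nat_lit 9) (nat_lit 7))
    (@En.n l33886 (nat_lit 5673) (nat_lit 6) (nat_lit 7))
    (@En.i (nat_lit 7497) (nat_lit 8) (nat_lit 9))
    (@En.n l33271 (nat_lit 5156) (nat_lit 9) (nat_lit 11))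
    (@En.n l18389 (nat_lit 5158) (nat_lit 9) (nat_lit 5))
    (@En.n l33384 (nat_lit 7942) (nat_lit 11) (nat_lit 8))
    (@En.n l17326 (nat_lit 6009) (nat_lit 7) (nat_lit 9))
    (@En.n l2940 (nat_lit 5744) (nat_lit 7) (nat_lit 9))
    (@En.n l19739 (nat_lit 5269) (nat_lit 14) (nat_lit 9))
    (@En.n l33887 (nat_lit 3159) (nat_lit 4) (nat_lit 11))
    (@En.n l18 (nat_lit 5157) (nat_lit 15) (nat_lit 2))))
  (@Cl.mk (nat_lit 0x2000b0005000a000a000a0005000b00090006000600060005000b000e0007) (nat_lit 0x207000850000780) (nat_lit 16) Lb.e (@T16.mk En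
    (@En.n l3928 (nat_lit 5161) (nat_lit 2) (nat_lit 7))
    (@En.i (nat_lit 5739) (nat_lit 4) (nat_lit 14))
    (@En.n l250 (nat_lit 6445) (nat_lit 2) (nat_lit 11))
    (@En.n l24237 (nat_lit 10779) (nat_lit 3) (nat_lit 5))
    (@En.n l1578 (nat_lit 6949) (nat_lit 10) (nat_lit 6))
    (@En.n l575 (nat_lit 5154) (nat_lit 5) (nat_lit 6))
    (@En.n l9400 (nat_lit 9239) (nat_lit 6) (nat_lit 6))
    (@En.n l11350 (nat_lit 6297) (nat_lit 8) (nat_lit 9))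
    (@En.n l3872 (nat_lit 2967) (nat_lit 9) (nat_lit 11))
    (@En.n l31579 (nat_lit 8006) (nat_lit 9) (nat_lit 5))
    (@En.n l565 (nat_lit 6008) (nat_lit 6) (nat_lit 10))
    (@En.n l5402 (nat_lit 5742) (nat_lit 6) (nat_lit 10))
    (@En.n l31580 (nat_lit 11658) (nat_lit 13) (nat_lit 10))
    (@En.n l11049 (nat_lit 5156) (nat_lit 14) (nat_lit 5))
    (@En.n l3928 (nat_lit 6532) (nat_lit 0) (nat_lit 11))
    (@En.n l17 (nat_lit 5158) (nat_lit 15) (nat_lit 2))))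
  (@Cl.mk (nat_lit 0x5000a000900090008000800080006000900070007000b0008000800080007) (nat_lit 0x563010030076000) (nat_lit 16) Lb.e (@T16.mk En
    (@En.n l77 (nat_lit 11323) (nat_lit 9) (nat_lit 7))
    (@En.n l55 (nat_lit 5859) (nat_lit 8) (nat_lit 8))
    (@En.n l38617 (nat_lit 6522) (nat_lit 8) (nat_lit 8))
    (@En.n l38618 (nat_lit 5849) (nat_lit 8) (nat_lit 8))
    (@En.n l38619 (nat_lit 5168) (nat_lit 8) (nat_lit 11))
    (@En.n l23132 (nat_lit 6496) (nat_lit 9) (nat_lit 7))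
    (@En.n l38620 (nat_lit 7710) (nat_lit 9) (nat_lit 7))
    (@En.n l30012 (nat_lit 4780) (nat_lit 9) (nat_lit 9))
    (@En.n l30020 (nat_lit 10791) (nat_lit 10) (nat_lit 6))
    (@En.n l38621 (nat_lit 6952) (nat_lit 8) (nat_lit 8))
    (@En.n l38622 (nat_lit 5150) (nat_lit 8) (nat_lit 8))
    (@En.n l38623 (nat_lit 11286) (nat_lit 8) (nat_lit 8))
    (@En.n l2687 (nat_lit 5157) (nat_lit 7) (nat_lit 9))
    (@En.i (nat_lit 7493) (nat_lit 7) (nat_lit 9))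
    (@En.n l38624 (nat_lit 5160) (nat_lit 10) (nat_lit 10))
    (@En.n l38625 (nat_lit 5161) (nat_lit 11) (nat_lit 5))))
  (@Cl.mk (nat_lit 0x40009000900090007000a000800080007000700070006000c000900080008) (nat_lit 0x700045600007460) (nat_lit 16) Lb.e (@T16.mk En
    (@En.n l38588 (nat_lit 6495) (nat_lit 8) (nat_lit 8))
    (@En.i (nat_lit 5441) (nat_lit 1) (nat_lit 8))
    (@En.n l38589 (nat_lit 5159) (nat_lit 7) (nat_lit 9))
    (@En.n l38590 (nat_lit 6438) (nat_lit 3) (nat_lit 12))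
    (@En.i (nat_lit 10790) (nat_lit 10) (nat_lit 6))
    (@En.n l2687 (nat_lit 6951) (nat_lit 9) (nat_lit 7))
    (@En.n l38591 (nat_lit 5153) (nat_lit 9) (nat_lit 7))
    (@En.i (nat_lit 11289) (nat_lit 9) (nat_lit 7))
    (@En.n l38592 (nat_lit 5156) (nat_lit 8) (nat_lit 8))
    (@En.n l38589 (nat_lit 5917) (nat_lit 8) (nat_lit 8))
    (@En.n l10040 (nat_lit 2917) (nat_lit 8) (nat_lit 10))
    (@En.n l38593 (nat_lit 11324) (nat_lit 9) (nat_lit 7))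
    (@En.n l38594 (nat_lit 6010) (nat_lit 7) (nat_lit 9))
    (@En.n l30727 (nat_lit 6521) (nat_lit 7) (nat_lit 9))
    (@En.n l38595 (nat_lit 7440) (nat_lit 11) (nat_lit 9))
    (@En.n l38596 (nat_lit 5435) (nat_lit 15) (nat_lit 4))))
  (@Cl.mk (nat_lit 0x40009000900090005000a000900090007000700070006000c00070007000b) (nat_lit 0x700040600007004) (nat_lit 16) Lb.e (@T16.mk En
    (@En.i (nat_lit 5802) (nat_lit 0) (nat_lit 11))
    (@En.n l11401 (nat_lit 6497) (nat_lit 9) (nat_lit 7))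
    (@En.n l26667 (nat_lit 5849) (nat_lit 6) (nat_lit 7))
    (@En.n l16495 (nat_lit 6444) (nat_lit 3) (nat_lit 12))
    (@En.n l42686 (nat_lit 10793) (nat_lit 10) (nat_lit 6))
    (@En.n l396 (nat_lit 6953) (nat_lit 9) (nat_lit 7))
    (@En.n l644 (nat_lit 5155) (nat_lit 9) (nat_lit 7))
    (@En.n l7658 (nat_lit 9991) (nat_lit 7) (nat_lit 7))
    (@En.n l8906 (nat_lit 5158) (nat_lit 7) (nat_lit 9))
    (@En.n l42687 (nat_lit 6299) (nat_lit 7) (nat_lit 9))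
    (@En.n l26667 (nat_lit 2918) (nat_lit 10) (nat_lit 10))
    (@En.n l22639 (nat_lit 8008) (nat_lit 15) (nat_lit 5))
    (@En.n l42688 (nat_lit 6015) (nat_lit 7) (nat_lit 9))
    (@En.n l42689 (nat_lit 6520) (nat_lit 7) (nat_lit 9))
    (@En.n l42690 (nat_lit 11429) (nat_lit 11) (nat_lit 9))
    (@En.n l42691 (nat_lit 5160) (nat_lit 15) (nat_lit 4))))
  (@Cl.mk (nat_lit 0x200070006000d000b000a00030008000b000500090006000a0005000e0008) (nat_lit 0x93406803040a1) (nat_lit 16) Lb.e (@T16.mk En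
    (@En.i (nat_lit 5098) (nat_lit 6) (nat_lit 8))
    (@En.n l396 (nat_lit 5163) (nat_lit 1) (nat_lit 14))
    (@En.n l890 (nat_lit 1717) (nat_lit 2) (nat_lit 5))
    (@En.n l495 (nat_lit 5142) (nat_lit 3) (nat_lit 10))
    (@En.n l3087 (nat_lit 6618) (nat_lit 4) (nat_lit 6))
    (@En.n l20064 (nat_lit 5046) (nat_lit 5) (nat_lit 9))
    (@En.i (nat_lit 9797) (nat_lit 6) (nat_lit 5))
    (@En.n l20064 (nat_lit 13337) (nat_lit 7) (nat_lit 11))
    (@En.i (nat_lit 10497) (nat_lit 9) (nat_lit 8))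
    (@En.n l1686 (nat_lit 5102) (nat_lit 9) (nat_lit 3))
    (@En.n l619 (nat_lit 5026) (nat_lit 0) (nat_lit 10))
    (@En.n l3866 (nat_lit 6558) (nat_lit 12) (nat_lit 11))
    (@En.n l24830 (nat_lit 2887) (nat_lit 13) (nat_lit 13))
    (@En.i (nat_lit 4932) (nat_lit 14) (nat_lit 6))
    (@En.n l4316 (nat_lit 10570) (nat_lit 4) (nat_lit 7))
    (@En.n l18 (nat_lit 5162) (nat_lit 15) (nat_lit 2))))
  (@Cl.mk (nat_lit 0x2000800070006000d000b000a000300090008000500090006000a000e0007) (nat_lit 0x200778000020590) (nat_lit 16) Lb.e (@T16.mk En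
    (@En.n l29329 (nat_lit 5168) (nat_lit 7) (nat_lit 7))
    (@En.n l4316 (nat_lit 9047) (nat_lit 1) (nat_lit 14))
    (@En.n l25392 (nat_lit 4139) (nat_lit 2) (nat_lit 10))
    (@En.n l15472 (nat_lit 6477) (nat_lit 3) (nat_lit 6))
    (@En.n l10687 (nat_lit 3141) (nat_lit 4) (nat_lit 9))
    (@En.n l29330 (nat_lit 11170) (nat_lit 5) (nat_lit 5))
    (@En.i (nat_lit 5517) (nat_lit 6) (nat_lit 8))
    (@En.i (nat_lit 10425) (nat_lit 8) (nat_lit 9))
    (@En.n l29331 (nat_lit 5164) (nat_lit 8) (nat_lit 3))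
    (@En.n l619 (nat_lit 7962) (nat_lit 0) (nat_lit 10))
    (@En.n l3866 (nat_lit 5169) (nat_lit 11) (nat_lit 11))
    (@En.n l29332 (nat_lit 3160) (nat_lit 12) (nat_lit 13))
    (@En.i (nat_lit 7730) (nat_lit 13) (nat_lit 6))
    (@En.n l29333 (nat_lit 11417) (nat_lit 14) (nat_lit 7))
    (@En.n l18 (nat_lit 5098) (nat_lit 5) (nat_lit 8))
    (@En.n l50 (nat_lit 5163) (nat_lit 15) (nat_lit 2))))
  (@Cl.mk (nat_lit 0x2000800070006000d0009000c000300090008000400090007000a000e0007) (nat_lit 0x2007280000105c0) (nat_lit 16) Lb.e (@T16.mk En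
    (@En.n l22012 (nat_lit 5167) (nat_lit 7) (nat_lit 7))
    (@En.n l24876 (nat_lit 9045) (nat_lit 1) (nat_lit 14))
    (@En.i (nat_lit 5822) (nat_lit 2) (nat_lit 10))
    (@En.n l12560 (nat_lit 5166) (nat_lit 3) (nat_lit 7))
    (@En.n l32928 (nat_lit 2989) (nat_lit 4) (nat_lit 9))
    (@En.n l22353 (nat_lit 11180) (nat_lit 5) (nat_lit 4))
    (@En.n l7611 (nat_lit 5514) (nat_lit 6) (nat_lit 8))
    (@En.i (nat_lit 10361) (nat_lit 1) (nat_lit 9))
    (@En.n l36290 (nat_lit 5163) (nat_lit 8) (nat_lit 3))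
    (@En.n l33637 (nat_lit 5778) (nat_lit 0) (nat_lit 12))
    (@En.n l39533 (nat_lit 5165) (nat_lit 11) (nat_lit 9))
    (@En.n l24491 (nat_lit 3163) (nat_lit 12) (nat_lit 13))
    (@En.n l8744 (nat_lit 6530) (nat_lit 13) (nat_lit 6))
    (@En.i (nat_lit 11416) (nat_lit 14) (nat_lit 7))
    (@En.i (nat_lit 5099) (nat_lit 5) (nat_lit 8))
    (@En.n l3 (nat_lit 5164) (nat_lit 15) (nat_lit 2))))
  (@Cl.mk (nat_lit 0x20009000800060009000c000a000800070004000800070006000a000e0008) (nat_lit 0x2001986002006c1) (nat_lit 16) Lb.e (@T16.mk En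
    (@En.n l25090 (nat_lit 3159) (nat_lit 3) (nat_lit 8))
    (@En.n l25090 (nat_lit 6389) (nat_lit 1) (nat_lit 14))
    (@En.n l32018 (nat_lit 5164) (nat_lit 2) (nat_lit 10))
    (@En.i (nat_lit 5163) (nat_lit 3) (nat_lit 6))
    (@En.n l25087 (nat_lit 5171) (nat_lit 4) (nat_lit 7))
    (@En.n l25088 (nat_lit 3146) (nat_lit 5) (nat_lit 8))
    (@En.n l32019 (nat_lit 10971) (nat_lit 6) (nat_lit 4))
    (@En.i (nat_lit 5519) (nat_lit 7) (nat_lit 7))
    (@En.n l32020 (nat_lit 10363) (nat_lit 1) (nat_lit 8))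
    (@En.n l32021 (nat_lit 7654) (nat_lit 10) (nat_lit 10))
    (@En.n l3866 (nat_lit 5848) (nat_lit 6) (nat_lit 12))
    (@En.n l25089 (nat_lit 1866) (nat_lit 12) (nat_lit 9))
    (@En.i (nat_lit 6531) (nat_lit 13) (nat_lit 6))
    (@En.n l29331 (nat_lit 11418) (nat_lit 14) (nat_lit 8))
    (@En.n l18 (nat_lit 5101) (nat_lit 1) (nat_lit 9))
    (@En.n l50 (nat_lit 5165) (nat_lit 15) (nat_lit 2))))
  (@Cl.mk (nat_lit 0x20007000c0006000c00090004000c0004000a000900040007000a000e0006) (nat_lit 0x508309000004c0) (nat_lit 16) Lb.e (@T16.mk En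
    (@En.n l9902 (nat_lit 5170) (nat_lit 8) (nat_lit 6))
    (@En.n l2642 (nat_lit 9043) (nat_lit 1) (nat_lit 14))
    (@En.i (nat_lit 8186) (nat_lit 8) (nat_lit 10))
    (@En.n l1081 (nat_lit 7795) (nat_lit 11) (nat_lit 7))
    (@En.n l22237 (nat_lit 10969) (nat_lit 4) (nat_lit 4))
    (@En.i (nat_lit 5524) (nat_lit 5) (nat_lit 9))
    (@En.n l37046 (nat_lit 10362) (nat_lit 1) (nat_lit 10))
    (@En.n l9309 (nat_lit 6477) (nat_lit 7) (nat_lit 4))
    (@En.n l1252 (nat_lit 5164) (nat_lit 9) (nat_lit 12))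
    (@En.n l25065 (nat_lit 6590) (nat_lit 9) (nat_lit 4))
    (@En.n l2642 (nat_lit 5171) (nat_lit 11) (nat_lit 9))
    (@En.n l25066 (nat_lit 3164) (nat_lit 12) (nat_lit 12))
    (@En.n l7234 (nat_lit 6529) (nat_lit 13) (nat_lit 6))
    (@En.n l37046 (nat_lit 8071) (nat_lit 14) (nat_lit 12))
    (@En.n l3224 (nat_lit 5103) (nat_lit 13) (nat_lit 7))
    (@En.n l7 (nat_lit 5166) (nat_lit 15) (nat_lit 2))))
  (@Cl.mk (nat_lit 0x30009000900090005000a0008000b00070007000700060005000d0008000b) (nat_lit 0x510035900000724) (nat_lit 16) Lb.e (@T16.mk En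
    (@En.n l2921 (nat_lit 5779) (nat_lit 0) (nat_lit 11))
    (@En.n l30608 (nat_lit 3159) (nat_lit 14) (nat_lit 8))
    (@En.n l30609 (nat_lit 3152) (nat_lit 2) (nat_lit 13))
    (@En.n l2101 (nat_lit 52) (nat_lit 3) (nat_lit 5))
    (@En.n l8116 (nat_lit 10516) (nat_lit 4) (nat_lit 6))
    (@En.n l17109 (nat_lit 5293) (nat_lit 9) (nat_lit 7))
    (@En.n l55 (nat_lit 6586) (nat_lit 9) (nat_lit 7))
    (@En.n l30610 (nat_lit 10861) (nat_lit 7) (nat_lit 7))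
    (@En.i (nat_lit 4137) (nat_lit 7) (nat_lit 11))
    (@En.n l61 (nat_lit 5170) (nat_lit 10) (nat_lit 8))
    (@En.n l11620 (nat_lit 3148) (nat_lit 11) (nat_lit 10))
    (@En.n l30611 (nat_lit 9847) (nat_lit 12) (nat_lit 5))
    (@En.n l1415 (nat_lit 6548) (nat_lit 7) (nat_lit 9))
    (@En.n l17111 (nat_lit 5164) (nat_lit 7) (nat_lit 9))
    (@En.n l8116 (nat_lit 11609) (nat_lit 2) (nat_lit 9))
    (@En.n l117 (nat_lit 5168) (nat_lit 15) (nat_lit 3))))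
noncomputable def a323 : T16 Cl := @T16.mk Cl
  (@Cl.mk (nat_lit 0x30009000900090006000a0007000b00070007000700060005000d000a0009) (nat_lit 0x10080600000610) (nat_lit 16) Lb.e (@T16.mk En
    (@En.n l9970 (nat_lit 6440) (nat_lit 0) (nat_lit 9))
    (@En.n l41719 (nat_lit 59) (nat_lit 6) (nat_lit 10))
    (@En.n l38245 (nat_lit 3157) (nat_lit 2) (nat_lit 13))
    (@En.n l41720 (nat_lit 5802) (nat_lit 11) (nat_lit 5))
    (@En.n l32662 (nat_lit 10517) (nat_lit 4) (nat_lit 6))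
    (@En.n l41555 (nat_lit 5294) (nat_lit 9) (nat_lit 7))
    (@En.n l55 (nat_lit 6588) (nat_lit 9) (nat_lit 7))
    (@En.n l24726 (nat_lit 10862) (nat_lit 7) (nat_lit 7))
    (@En.i (nat_lit 4133) (nat_lit 8) (nat_lit 11))
    (@En.n l32663 (nat_lit 6475) (nat_lit 10) (nat_lit 7))
    (@En.n l8631 (nat_lit 3154) (nat_lit 9) (nat_lit 10))
    (@En.n l40201 (nat_lit 11179) (nat_lit 12) (nat_lit 6))
    (@En.n l1415 (nat_lit 6549) (nat_lit 7) (nat_lit 9))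
    (@En.n l41721 (nat_lit 5163) (nat_lit 7) (nat_lit 9))
    (@En.n l41722 (nat_lit 8012) (nat_lit 2) (nat_lit 9))
    (@En.n l152 (nat_lit 5167) (nat_lit 15) (nat_lit 3))))
  (@Cl.mk (nat_lit 0x2000900070006000b0009000c000800070005000400090007000a000e0008) (nat_lit 0x607600020601) (nat_lit 16) Lb.e (@T16.mk En
    (@En.n l39149 (nat_lit 59) (nat_lit 3) (nat_lit 8))
    (@En.n l5577 (nat_lit 9051) (nat_lit 1) (nat_lit 14))
    (@En.n l13043 (nat_lit 5706) (nat_lit 2) (nat_lit 10))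
    (@En.n l23698 (nat_lit 6581) (nat_lit 3) (nat_lit 7))
    (@En.n l25261 (nat_lit 5432) (nat_lit 4) (nat_lit 9))
    (@En.n l13043 (nat_lit 5164) (nat_lit 5) (nat_lit 4))
    (@En.n l18 (nat_lit 11175) (nat_lit 6) (nat_lit 5))
    (@En.i (nat_lit 5513) (nat_lit 7) (nat_lit 7))
    (@En.n l39150 (nat_lit 10920) (nat_lit 9) (nat_lit 8))
    (@En.i (nat_lit 5696) (nat_lit 10) (nat_lit 12))
    (@En.n l61 (nat_lit 6580) (nat_lit 11) (nat_lit 9))
    (@En.n l4021 (nat_lit 7727) (nat_lit 12) (nat_lit 11))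
    (@En.i (nat_lit 6586) (nat_lit 13) (nat_lit 6))
    (@En.n l13043 (nat_lit 12082) (nat_lit 14) (nat_lit 7))
    (@En.n l7 (nat_lit 6555) (nat_lit 9) (nat_lit 9))
    (@En.n l28 (nat_lit 5169) (nat_lit 15) (nat_lit 2))))
  (@Cl.mk (nat_lit 0x4000a000a000a00050008000b000600060006000c0005000c00080004000b) (nat_lit 0x10045000306305) (nat_lit 16) Lb.e (@T16.mk En
    (@En.n l617 (nat_lit 5167) (nat_lit 0) (nat_lit 11))
    (@En.n l3480 (nat_lit 5606) (nat_lit 1) (nat_lit 4))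
    (@En.n l41966 (nat_lit 5172) (nat_lit 0) (nat_lit 8))
    (@En.n l24917 (nat_lit 3158) (nat_lit 1) (nat_lit 12))
    (@En.n l6081 (nat_lit 6532) (nat_lit 4) (nat_lit 5))
    (@En.n l41967 (nat_lit 11552) (nat_lit 0) (nat_lit 12))
    (@En.n l134 (nat_lit 5292) (nat_lit 10) (nat_lit 6))
    (@En.n l55 (nat_lit 6585) (nat_lit 10) (nat_lit 6))
    (@En.n l41968 (nat_lit 10860) (nat_lit 6) (nat_lit 6))
    (@En.i (nat_lit 7476) (nat_lit 7) (nat_lit 11))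
    (@En.n l1081 (nat_lit 5881) (nat_lit 10) (nat_lit 8))
    (@En.n l41969 (nat_lit 8563) (nat_lit 9) (nat_lit 5))
    (@En.n l1415 (nat_lit 6547) (nat_lit 6) (nat_lit 10))
    (@En.n l11087 (nat_lit 5166) (nat_lit 6) (nat_lit 10))
    (@En.n l41533 (nat_lit 11610) (nat_lit 2) (nat_lit 10))
    (@En.n l11621 (nat_lit 6475) (nat_lit 15) (nat_lit 4))))
  (@Cl.mk (nat_lit 0x20008000d000600090003000c000b00090008000400070005000a000e0007) (nat_lit 0x25020a9000005c0) (nat_lit 16) Lb.e (@T16.mk En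
    (@En.i (nat_lit 5172) (nat_lit 5) (nat_lit 7))
    (@En.i (nat_lit 6391) (nat_lit 1) (nat_lit 14))
    (@En.n l899 (nat_lit 5166) (nat_lit 2) (nat_lit 10))
    (@En.n l345 (nat_lit 5175) (nat_lit 3) (nat_lit 5))
    (@En.n l473 (nat_lit 7794) (nat_lit 4) (nat_lit 7))
    (@En.n l2438 (nat_lit 10970) (nat_lit 5) (nat_lit 4))
    (@En.i (nat_lit 5526) (nat_lit 6) (nat_lit 8))
    (@En.n l97 (nat_lit 10364) (nat_lit 1) (nat_lit 9))
    (@En.n l1236 (nat_lit 6578) (nat_lit 9) (nat_lit 11))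
    (@En.n l11294 (nat_lit 5165) (nat_lit 10) (nat_lit 12))
    (@En.n l11412 (nat_lit 6576) (nat_lit 10) (nat_lit 3))
    (@En.n l21182 (nat_lit 1868) (nat_lit 12) (nat_lit 9))
    (@En.n l11413 (nat_lit 5749) (nat_lit 13) (nat_lit 6))
    (@En.n l8501 (nat_lit 4178) (nat_lit 14) (nat_lit 13))
    (@En.n l12240 (nat_lit 5106) (nat_lit 3) (nat_lit 8))
    (@En.n l28 (nat_lit 5171) (nat_lit 15) (nat_lit 2))))
  (@Cl.mk (nat_lit 0x3000b000a000900090009000500080006000b000700070007000d00050008) (nat_lit 0x580120506000402) (nat_lit 16) Lb.e (@T16.mk En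
    (@En.n l16847 (nat_lit 1871) (nat_lit 10) (nat_lit 8))
    (@En.i (nat_lit 76) (nat_lit 7) (nat_lit 5))
    (@En.n l31397 (nat_lit 11543) (nat_lit 2) (nat_lit 13))
    (@En.n l31398 (nat_lit 5290) (nat_lit 9) (nat_lit 7))
    (@En.n l4963 (nat_lit 6582) (nat_lit 9) (nat_lit 7))
    (@En.i (nat_lit 8183) (nat_lit 5) (nat_lit 7))
    (@En.n l37044 (nat_lit 5170) (nat_lit 9) (nat_lit 11))
    (@En.i (nat_lit 5174) (nat_lit 7) (nat_lit 6))
    (@En.i (nat_lit 5882) (nat_lit 10) (nat_lit 8))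
    (@En.n l4966 (nat_lit 10963) (nat_lit 9) (nat_lit 5))
    (@En.n l77 (nat_lit 6544) (nat_lit 7) (nat_lit 9))
    (@En.n l55 (nat_lit 5171) (nat_lit 7) (nat_lit 9))
    (@En.n l619 (nat_lit 12216) (nat_lit 7) (nat_lit 9))
    (@En.n l3866 (nat_lit 6449) (nat_lit 14) (nat_lit 10))
    (@En.i (nat_lit 3159) (nat_lit 13) (nat_lit 11))
    (@En.n l18738 (nat_lit 5301) (nat_lit 15) (nat_lit 3))))
  (@Cl.mk (nat_lit 0x4000b000900090009000700050008000b000700070007000c000500090008) (nat_lit 0x160200690003021) (nat_lit 16) Lb.e (@T16.mk En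
    (@En.n l637 (nat_lit 57) (nat_lit 0) (nat_lit 8))
    (@En.n l42608 (nat_lit 5436) (nat_lit 10) (nat_lit 9))
    (@En.n l30987 (nat_lit 3159) (nat_lit 8) (nat_lit 5))
    (@En.n l41405 (nat_lit 11940) (nat_lit 8) (nat_lit 12))
    (@En.n l31398 (nat_lit 6541) (nat_lit 9) (nat_lit 7))
    (@En.n l42609 (nat_lit 6580) (nat_lit 9) (nat_lit 7))
    (@En.i (nat_lit 11080) (nat_lit 6) (nat_lit 7))
    (@En.n l42610 (nat_lit 5705) (nat_lit 7) (nat_lit 11))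
    (@En.n l21190 (nat_lit 5016) (nat_lit 10) (nat_lit 8))
    (@En.n l42610 (nat_lit 5170) (nat_lit 11) (nat_lit 5))
    (@En.n l42611 (nat_lit 11088) (nat_lit 0) (nat_lit 7))
    (@En.n l77 (nat_lit 6540) (nat_lit 7) (nat_lit 9))
    (@En.n l2824 (nat_lit 6581) (nat_lit 7) (nat_lit 9))
    (@En.n l42608 (nat_lit 10954) (nat_lit 7) (nat_lit 9))
    (@En.n l42612 (nat_lit 59) (nat_lit 4) (nat_lit 11))
    (@En.n l42613 (nat_lit 6444) (nat_lit 15) (nat_lit 4))))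
  (@Cl.mk (nat_lit 0x3000a000a0004000a000a000a00060006000b000600060006000d0005000c) (nat_lit 0x280707005000908) (nat_lit 16) Lb.e (@T16.mk En
    (@En.n l38612 (nat_lit 2917) (nat_lit 0) (nat_lit 12))
    (@En.n l11294 (nat_lit 7736) (nat_lit 4) (nat_lit 5))
    (@En.n l31397 (nat_lit 5606) (nat_lit 2) (nat_lit 13))
    (@En.n l19188 (nat_lit 5297) (nat_lit 10) (nat_lit 6))
    (@En.n l4963 (nat_lit 6589) (nat_lit 10) (nat_lit 6))
    (@En.n l9966 (nat_lit 8059) (nat_lit 5) (nat_lit 6))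
    (@En.n l38613 (nat_lit 6877) (nat_lit 9) (nat_lit 11))
    (@En.n l4965 (nat_lit 8024) (nat_lit 10) (nat_lit 6))
    (@En.n l4961 (nat_lit 8002) (nat_lit 8) (nat_lit 6))
    (@En.n l77 (nat_lit 8019) (nat_lit 6) (nat_lit 10))
    (@En.n l870 (nat_lit 5175) (nat_lit 6) (nat_lit 10))
    (@En.n l38614 (nat_lit 11562) (nat_lit 12) (nat_lit 10))
    (@En.n l38615 (nat_lit 5170) (nat_lit 15) (nat_lit 4))
    (@En.n l3536 (nat_lit 6469) (nat_lit 6) (nat_lit 10))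
    (@En.n l38616 (nat_lit 5168) (nat_lit 1) (nat_lit 10))
    (@En.n l2943 (nat_lit 6474) (nat_lit 15) (nat_lit 3))))
  (@Cl.mk (nat_lit 0x20007000d0006000c0003000b000b0004000a000900050005000a000e0006) (nat_lit 0x50908908000460) (nat_lit 16) Lb.e (@T16.mk En
    (@En.n l3532 (nat_lit 5174) (nat_lit 5) (nat_lit 6))
    (@En.i (nat_lit 9041) (nat_lit 1) (nat_lit 14))
    (@En.n l15535 (nat_lit 6878) (nat_lit 2) (nat_lit 10))
    (@En.n l1071 (nat_lit 8075) (nat_lit 11) (nat_lit 5))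
    (@En.n l9970 (nat_lit 11169) (nat_lit 4) (nat_lit 5))
    (@En.n l3531 (nat_lit 7060) (nat_lit 5) (nat_lit 9))
    (@En.n l37047 (nat_lit 10268) (nat_lit 7) (nat_lit 10))
    (@En.n l22467 (nat_lit 5166) (nat_lit 7) (nat_lit 4))
    (@En.n l61 (nat_lit 6471) (nat_lit 9) (nat_lit 11))
    (@En.n l22708 (nat_lit 5163) (nat_lit 10) (nat_lit 11))
    (@En.n l22491 (nat_lit 6476) (nat_lit 10) (nat_lit 3))
    (@En.n l3531 (nat_lit 2319) (nat_lit 12) (nat_lit 12))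
    (@En.n l22708 (nat_lit 7707) (nat_lit 13) (nat_lit 6))
    (@En.n l9972 (nat_lit 5603) (nat_lit 14) (nat_lit 13))
    (@En.n l36603 (nat_lit 5109) (nat_lit 3) (nat_lit 7))
    (@En.n l67 (nat_lit 5175) (nat_lit 15) (nat_lit 2))))
  (@Cl.mk (nat_lit 0x200090006000a000900060009000d0007000600030007000a0007000e000a) (nat_lit 0x707307a00005031) (nat_lit 16) Lb.e (@T16.mk En
    (@En.n l36054 (nat_lit 1310) (nat_lit 11) (nat_lit 10))
    (@En.n l36055 (nat_lit 7518) (nat_lit 1) (nat_lit 14))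
    (@En.n l28597 (nat_lit 4362) (nat_lit 2) (nat_lit 7))
    (@En.n l3530 (nat_lit 5026) (nat_lit 8) (nat_lit 10))
    (@En.i (nat_lit 1767) (nat_lit 4) (nat_lit 7))
    (@En.n l4659 (nat_lit 1307) (nat_lit 5) (nat_lit 3))
    (@En.n l18775 (nat_lit 2021) (nat_lit 0) (nat_lit 6))
    (@En.n l3530 (nat_lit 3345) (nat_lit 7) (nat_lit 7))
    (@En.n l36056 (nat_lit 8574) (nat_lit 9) (nat_lit 13))
    (@En.n l36057 (nat_lit 13861) (nat_lit 9) (nat_lit 9))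
    (@En.n l18761 (nat_lit 9817) (nat_lit 11) (nat_lit 6))
    (@En.n l36058 (nat_lit 5178) (nat_lit 12) (nat_lit 9))
    (@En.n l20237 (nat_lit 5187) (nat_lit 13) (nat_lit 10))
    (@En.i (nat_lit 5475) (nat_lit 14) (nat_lit 6))
    (@En.n l20238 (nat_lit 4314) (nat_lit 9) (nat_lit 9))
    (@En.n l50 (nat_lit 5176) (nat_lit 15) (nat_lit 2))))
  (@Cl.mk (nat_lit 0x300080003000b0008000b000b000900050008000500050008000d0007000d) (nat_lit 0x101300502000905) (nat_lit 16) Lb.e (@T16.mk En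
    (@En.n l8501 (nat_lit 5874) (nat_lit 0) (nat_lit 13))
    (@En.n l18993 (nat_lit 3302) (nat_lit 3) (nat_lit 7))
    (@En.n l1834 (nat_lit 8572) (nat_lit 2) (nat_lit 13))
    (@En.n l10862 (nat_lit 5178) (nat_lit 10) (nat_lit 8))
    (@En.n l11 (nat_lit 5178) (nat_lit 11) (nat_lit 5))
    (@En.n l27870 (nat_lit 10469) (nat_lit 7) (nat_lit 5))
    (@En.n l473 (nat_lit 900) (nat_lit 10) (nat_lit 8))
    (@En.n l18618 (nat_lit 5477) (nat_lit 7) (nat_lit 5))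
    (@En.i (nat_lit 4316) (nat_lit 11) (nat_lit 9))
    (@En.n l4684 (nat_lit 5182) (nat_lit 5) (nat_lit 11))
    (@En.i (nat_lit 6391) (nat_lit 7) (nat_lit 11))
    (@En.n l18994 (nat_lit 4655) (nat_lit 14) (nat_lit 8))
    (@En.i (nat_lit 1310) (nat_lit 13) (nat_lit 11))
    (@En.i (nat_lit 5181) (nat_lit 15) (nat_lit 3))
    (@En.n l22186 (nat_lit 1669) (nat_lit 0) (nat_lit 8))
    (@En.i (nat_lit 1308) (nat_lit 15) (nat_lit 3))))
  (@Cl.mk (nat_lit 0x2000a0006000900050008000d0006000d000300070003000a0008000e000b) (nat_lit 0x602069040006301) (nat_lit 16) Lb.e (@T16.mk En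
    (@En.n l68 (nat_lit 5177) (nat_lit 10) (nat_lit 11))
    (@En.i (nat_lit 7516) (nat_lit 1) (nat_lit 14))
    (@En.n l29865 (nat_lit 7812) (nat_lit 2) (nat_lit 8))
    (@En.n l32840 (nat_lit 5176) (nat_lit 3) (nat_lit 10))
    (@En.n l15657 (nat_lit 5180) (nat_lit 4) (nat_lit 3))
    (@En.n l1414 (nat_lit 2012) (nat_lit 5) (nat_lit 7))
    (@En.n l28464 (nat_lit 5179) (nat_lit 6) (nat_lit 3))
    (@En.n l6825 (nat_lit 5932) (nat_lit 0) (nat_lit 13))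
    (@En.n l32841 (nat_lit 3347) (nat_lit 8) (nat_lit 6))
    (@En.n l1836 (nat_lit 8568) (nat_lit 10) (nat_lit 13))
    (@En.n l32842 (nat_lit 13862) (nat_lit 10) (nat_lit 8))
    (@En.n l1236 (nat_lit 10214) (nat_lit 6) (nat_lit 5))
    (@En.n l6825 (nat_lit 902) (nat_lit 9) (nat_lit 9))
    (@En.n l1449 (nat_lit 5484) (nat_lit 14) (nat_lit 6))
    (@En.n l28465 (nat_lit 4313) (nat_lit 10) (nat_lit 10))
    (@En.n l67 (nat_lit 5178) (nat_lit 15) (nat_lit 2))))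
  (@Cl.mk (nat_lit 0x200090006000900050008000d000c0007000300070004000a0008000e000b) (nat_lit 0x402067000001341) (nat_lit 16) Lb.e (@T16.mk En
    (@En.n l27942 (nat_lit 1308) (nat_lit 10) (nat_lit 11))
    (@En.n l14426 (nat_lit 7517) (nat_lit 1) (nat_lit 14))
    (@En.n l4780 (nat_lit 7811) (nat_lit 2) (nat_lit 8))
    (@En.n l899 (nat_lit 1307) (nat_lit 3) (nat_lit 10))
    (@En.i (nat_lit 7511) (nat_lit 4) (nat_lit 4))
    (@En.i (nat_lit 1303) (nat_lit 5) (nat_lit 7))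
    (@En.n l41077 (nat_lit 5178) (nat_lit 6) (nat_lit 3))
    (@En.n l97 (nat_lit 1938) (nat_lit 0) (nat_lit 7))
    (@En.n l8551 (nat_lit 5180) (nat_lit 9) (nat_lit 12))
    (@En.n l41078 (nat_lit 8567) (nat_lit 10) (nat_lit 13))
    (@En.i (nat_lit 13858) (nat_lit 10) (nat_lit 8))
    (@En.i (nat_lit 10210) (nat_lit 4) (nat_lit 5))
    (@En.n l7622 (nat_lit 899) (nat_lit 9) (nat_lit 9))
    (@En.i (nat_lit 5482) (nat_lit 14) (nat_lit 6))
    (@En.n l4780 (nat_lit 4319) (nat_lit 2) (nat_lit 9))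
    (@En.n l50 (nat_lit 5179) (nat_lit 15) (nat_lit 2))))
  (@Cl.mk (nat_lit 0x2000a0006000a00050008000c0006000d000600040003000a0008000e000b) (nat_lit 0x20200a050007400) (nat_lit 16) Lb.e (@T16.mk En
    (@En.n l29724 (nat_lit 5181) (nat_lit 12) (nat_lit 11))
    (@En.n l29725 (nat_lit 7515) (nat_lit 1) (nat_lit 14))
    (@En.n l11803 (nat_lit 4653) (nat_lit 2) (nat_lit 8))
    (@En.n l387 (nat_lit 5055) (nat_lit 3) (nat_lit 10))
    (@En.n l17216 (nat_lit 5178) (nat_lit 4) (nat_lit 3))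
    (@En.n l29726 (nat_lit 7506) (nat_lit 5) (nat_lit 4))
    (@En.n l8558 (nat_lit 5176) (nat_lit 6) (nat_lit 6))
    (@En.n l11802 (nat_lit 5929) (nat_lit 8) (nat_lit 13))
    (@En.n l17 (nat_lit 3307) (nat_lit 8) (nat_lit 6))
    (@En.n l18377 (nat_lit 11889) (nat_lit 10) (nat_lit 12))
    (@En.i (nat_lit 13865) (nat_lit 10) (nat_lit 8))
    (@En.n l29727 (nat_lit 10213) (nat_lit 6) (nat_lit 5))
    (@En.n l6904 (nat_lit 7612) (nat_lit 13) (nat_lit 10))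
    (@En.n l11809 (nat_lit 5485) (nat_lit 14) (nat_lit 6))
    (@En.n l11802 (nat_lit 4315) (nat_lit 10) (nat_lit 10))
    (@En.n l107 (nat_lit 5180) (nat_lit 15) (nat_lit 2))))
  (@Cl.mk (nat_lit 0x3000b0008000b000b000900050009000500050008000c0007000d00070004) (nat_lit 0x7490102001a0600) (nat_lit 16) Lb.e (@T16.mk En
    (@En.n l17194 (nat_lit 7507) (nat_lit 0) (nat_lit 4))
    (@En.n l61 (nat_lit 1310) (nat_lit 0) (nat_lit 7))
    (@En.n l9845 (nat_lit 5873) (nat_lit 1) (nat_lit 13))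
    (@En.n l27594 (nat_lit 3304) (nat_lit 3) (nat_lit 7))
    (@En.n l27867 (nat_lit 11886) (nat_lit 7) (nat_lit 12))
    (@En.n l27868 (nat_lit 5180) (nat_lit 10) (nat_lit 8))
    (@En.n l27869 (nat_lit 5180) (nat_lit 11) (nat_lit 5))
    (@En.n l27870 (nat_lit 10470) (nat_lit 7) (nat_lit 5))
    (@En.n l27871 (nat_lit 7602) (nat_lit 10) (nat_lit 9))
    (@En.n l14016 (nat_lit 5486) (nat_lit 9) (nat_lit 5))
    (@En.n l11412 (nat_lit 4317) (nat_lit 11) (nat_lit 9))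
    (@En.n l14869 (nat_lit 5183) (nat_lit 5) (nat_lit 11))
    (@En.i (nat_lit 6393) (nat_lit 7) (nat_lit 11))
    (@En.n l27872 (nat_lit 4648) (nat_lit 14) (nat_lit 8))
    (@En.n l27873 (nat_lit 5052) (nat_lit 14) (nat_lit 11))
    (@En.n l18 (nat_lit 5177) (nat_lit 13) (nat_lit 3))))
  (@Cl.mk (nat_lit 0x20008000d0008000d000300090003000c0008000b000800040007000e0005) (nat_lit 0x1957010739400a0) (nat_lit 16) Lb.e (@T16.mk En
    (@En.n l4263 (nat_lit 5177) (nat_lit 5) (nat_lit 5))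
    (@En.n l12890 (nat_lit 8659) (nat_lit 1) (nat_lit 14))
    (@En.n l5928 (nat_lit 901) (nat_lit 2) (nat_lit 7))
    (@En.n l10348 (nat_lit 5483) (nat_lit 3) (nat_lit 4))
    (@En.n l13399 (nat_lit 10017) (nat_lit 4) (nat_lit 8))
    (@En.i (nat_lit 6228) (nat_lit 7) (nat_lit 11))
    (@En.n l25426 (nat_lit 7808) (nat_lit 6) (nat_lit 8))
    (@En.i (nat_lit 5185) (nat_lit 8) (nat_lit 12))
    (@En.n l4018 (nat_lit 5183) (nat_lit 8) (nat_lit 3))
    (@En.i (nat_lit 1667) (nat_lit 10) (nat_lit 9))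
    (@En.n l3596 (nat_lit 5184) (nat_lit 10) (nat_lit 3))
    (@En.i (nat_lit 5918) (nat_lit 0) (nat_lit 13))
    (@En.i (nat_lit 3301) (nat_lit 13) (nat_lit 8))
    (@En.n l1501 (nat_lit 9043) (nat_lit 14) (nat_lit 13))
    (@En.n l13399 (nat_lit 5177) (nat_lit 3) (nat_lit 8))
    (@En.n l18 (nat_lit 5182) (nat_lit 15) (nat_lit 2))))
  (@Cl.mk (nat_lit 0x20008000c0008000d000800040003000c0008000b000800040008000e0005) (nat_lit 0x2057200749002a0) (nat_lit 16) Lb.e (@T16.mk En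
    (@En.n l18738 (nat_lit 5181) (nat_lit 7) (nat_lit 5))
    (@En.i (nat_lit 8746) (nat_lit 1) (nat_lit 14))
    (@En.n l3522 (nat_lit 7601) (nat_lit 2) (nat_lit 8))
    (@En.n l8258 (nat_lit 5494) (nat_lit 3) (nat_lit 4))
    (@En.n l23455 (nat_lit 10016) (nat_lit 4) (nat_lit 8))
    (@En.i (nat_lit 6227) (nat_lit 7) (nat_lit 11))
    (@En.n l4758 (nat_lit 4647) (nat_lit 6) (nat_lit 8))
    (@En.n l22466 (nat_lit 5051) (nat_lit 8) (nat_lit 12))
    (@En.n l11382 (nat_lit 5182) (nat_lit 8) (nat_lit 3))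
    (@En.n l18 (nat_lit 7509) (nat_lit 9) (nat_lit 4))
    (@En.n l22607 (nat_lit 5185) (nat_lit 11) (nat_lit 8))
    (@En.i (nat_lit 5875) (nat_lit 12) (nat_lit 13))
    (@En.n l61 (nat_lit 3303) (nat_lit 13) (nat_lit 8))
    (@En.n l23455 (nat_lit 11890) (nat_lit 14) (nat_lit 12))
    (@En.n l28472 (nat_lit 5181) (nat_lit 5) (nat_lit 8))
    (@En.n l28 (nat_lit 5183) (nat_lit 15) (nat_lit 2))))
noncomputable def a324 : T16 Cl := @T16.mk Cl
  (@Cl.mk (nat_lit 0x20008000d000c0009000300090004000c0008000b000700040007000e0005) (nat_lit 0x191602013900090) (nat_lit 16) Lb.e (@T16.mk En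
    (@En.n l5194 (nat_lit 1308) (nat_lit 5) (nat_lit 5))
    (@En.i (nat_lit 8660) (nat_lit 1) (nat_lit 14))
    (@En.n l11216 (nat_lit 898) (nat_lit 2) (nat_lit 7))
    (@En.n l28 (nat_lit 5481) (nat_lit 3) (nat_lit 4))
    (@En.n l13482 (nat_lit 9880) (nat_lit 4) (nat_lit 7))
    (@En.i (nat_lit 6236) (nat_lit 7) (nat_lit 11))
    (@En.n l33473 (nat_lit 7810) (nat_lit 6) (nat_lit 8))
    (@En.n l476 (nat_lit 1309) (nat_lit 8) (nat_lit 12))
    (@En.n l387 (nat_lit 7598) (nat_lit 8) (nat_lit 4))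
    (@En.i (nat_lit 1298) (nat_lit 10) (nat_lit 9))
    (@En.n l1106 (nat_lit 5182) (nat_lit 10) (nat_lit 3))
    (@En.n l97 (nat_lit 1935) (nat_lit 0) (nat_lit 9))
    (@En.n l1236 (nat_lit 5183) (nat_lit 13) (nat_lit 12))
    (@En.n l17974 (nat_lit 9044) (nat_lit 14) (nat_lit 13))
    (@En.n l13482 (nat_lit 1308) (nat_lit 3) (nat_lit 8))
    (@En.n l50 (nat_lit 5184) (nat_lit 15) (nat_lit 2))))
  (@Cl.mk (nat_lit 0x20009000d0009000800030009000c0007000a0007000400080007000e0006) (nat_lit 0x1a51016080060a0) (nat_lit 16) Lb.e (@T16.mk En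
    (@En.n l4263 (nat_lit 1310) (nat_lit 5) (nat_lit 6))
    (@En.n l12890 (nat_lit 9406) (nat_lit 1) (nat_lit 14))
    (@En.n l11 (nat_lit 5182) (nat_lit 2) (nat_lit 7))
    (@En.n l4698 (nat_lit 5188) (nat_lit 3) (nat_lit 8))
    (@En.n l10348 (nat_lit 5474) (nat_lit 4) (nat_lit 4))
    (@En.n l37559 (nat_lit 10019) (nat_lit 5) (nat_lit 7))
    (@En.i (nat_lit 6235) (nat_lit 8) (nat_lit 10))
    (@En.n l19892 (nat_lit 3191) (nat_lit 7) (nat_lit 7))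
    (@En.n l6698 (nat_lit 6450) (nat_lit 9) (nat_lit 12))
    (@En.n l12615 (nat_lit 1670) (nat_lit 10) (nat_lit 9))
    (@En.n l27031 (nat_lit 1309) (nat_lit 10) (nat_lit 3))
    (@En.n l134 (nat_lit 2015) (nat_lit 0) (nat_lit 8))
    (@En.n l36448 (nat_lit 3300) (nat_lit 13) (nat_lit 9))
    (@En.n l37559 (nat_lit 9045) (nat_lit 14) (nat_lit 13))
    (@En.n l13399 (nat_lit 1310) (nat_lit 3) (nat_lit 9))
    (@En.n l18 (nat_lit 5185) (nat_lit 15) (nat_lit 2))))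
  (@Cl.mk (nat_lit 0x30008000b000b000900090007000500050008000c00070007000d00040009) (nat_lit 0x200610000a00602) (nat_lit 16) Lb.e (@T16.mk En
    (@En.n l31501 (nat_lit 1694) (nat_lit 0) (nat_lit 9))
    (@En.n l31502 (nat_lit 5460) (nat_lit 15) (nat_lit 4))
    (@En.i (nat_lit 5177) (nat_lit 0) (nat_lit 13))
    (@En.n l31503 (nat_lit 7828) (nat_lit 9) (nat_lit 7))
    (@En.n l31504 (nat_lit 3342) (nat_lit 4) (nat_lit 7))
    (@En.n l31505 (nat_lit 9109) (nat_lit 7) (nat_lit 12))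
    (@En.n l31506 (nat_lit 5187) (nat_lit 10) (nat_lit 8))
    (@En.n l31507 (nat_lit 5187) (nat_lit 11) (nat_lit 5))
    (@En.n l31505 (nat_lit 8367) (nat_lit 8) (nat_lit 5))
    (@En.n l19199 (nat_lit 7608) (nat_lit 0) (nat_lit 7))
    (@En.n l19200 (nat_lit 820) (nat_lit 7) (nat_lit 9))
    (@En.n l19201 (nat_lit 10391) (nat_lit 12) (nat_lit 9))
    (@En.n l31508 (nat_lit 5188) (nat_lit 5) (nat_lit 11))
    (@En.i (nat_lit 6380) (nat_lit 7) (nat_lit 11))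
    (@En.n l31509 (nat_lit 3194) (nat_lit 12) (nat_lit 8))
    (@En.n l31510 (nat_lit 5189) (nat_lit 15) (nat_lit 3))))
  (@Cl.mk (nat_lit 0x2000a000a000800050008000c00060006000d0004000800030008000e000b) (nat_lit 0x76206a005020201) (nat_lit 16) Lb.e (@T16.mk En
    (@En.n l31321 (nat_lit 5186) (nat_lit 13) (nat_lit 11))
    (@En.n l31322 (nat_lit 7146) (nat_lit 1) (nat_lit 14))
    (@En.n l31323 (nat_lit 3198) (nat_lit 2) (nat_lit 8))
    (@En.n l1311 (nat_lit 5461) (nat_lit 3) (nat_lit 3))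
    (@En.n l1082 (nat_lit 1693) (nat_lit 0) (nat_lit 8))
    (@En.n l10503 (nat_lit 5459) (nat_lit 5) (nat_lit 4))
    (@En.n l31322 (nat_lit 5178) (nat_lit 7) (nat_lit 13))
    (@En.n l152 (nat_lit 7830) (nat_lit 10) (nat_lit 6))
    (@En.n l1060 (nat_lit 3344) (nat_lit 8) (nat_lit 6))
    (@En.n l2369 (nat_lit 8289) (nat_lit 10) (nat_lit 12))
    (@En.n l699 (nat_lit 13314) (nat_lit 10) (nat_lit 8))
    (@En.n l2369 (nat_lit 8363) (nat_lit 7) (nat_lit 5))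
    (@En.n l1003 (nat_lit 7640) (nat_lit 13) (nat_lit 8))
    (@En.n l6915 (nat_lit 5456) (nat_lit 14) (nat_lit 10))
    (@En.n l1003 (nat_lit 10394) (nat_lit 11) (nat_lit 10))
    (@En.n l18 (nat_lit 5187) (nat_lit 15) (nat_lit 2))))
  (@Cl.mk (nat_lit 0x20008000c00080008000d0004000a00030008000b000800080006000e0005) (nat_lit 0x1a5080202955010) (nat_lit 16) Lb.e (@T16.mk En
    (@En.n l26457 (nat_lit 5186) (nat_lit 8) (nat_lit 5))
    (@En.n l26458 (nat_lit 2808) (nat_lit 1) (nat_lit 14))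
    (@En.n l4462 (nat_lit 7606) (nat_lit 2) (nat_lit 6))
    (@En.n l516 (nat_lit 8228) (nat_lit 3) (nat_lit 8))
    (@En.n l253 (nat_lit 9344) (nat_lit 4) (nat_lit 8))
    (@En.n l12608 (nat_lit 6267) (nat_lit 7) (nat_lit 11))
    (@En.n l3549 (nat_lit 3192) (nat_lit 6) (nat_lit 8))
    (@En.n l1670 (nat_lit 7829) (nat_lit 7) (nat_lit 3))
    (@En.n l26459 (nat_lit 1702) (nat_lit 0) (nat_lit 10))
    (@En.n l26460 (nat_lit 7822) (nat_lit 9) (nat_lit 4))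
    (@En.n l12608 (nat_lit 5182) (nat_lit 11) (nat_lit 13))
    (@En.n l26461 (nat_lit 7826) (nat_lit 8) (nat_lit 8))
    (@En.n l26462 (nat_lit 3343) (nat_lit 13) (nat_lit 8))
    (@En.n l26463 (nat_lit 9110) (nat_lit 14) (nat_lit 12))
    (@En.n l26464 (nat_lit 5186) (nat_lit 6) (nat_lit 8))
    (@En.n l18 (nat_lit 5188) (nat_lit 15) (nat_lit 2))))
  (@Cl.mk (nat_lit 0x30008000b000b000900090008000500050008000b00070007000d00080005) (nat_lit 0x300512000600710) (nat_lit 16) Lb.e (@T16.mk En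
    (@En.n l5086 (nat_lit 5775) (nat_lit 0) (nat_lit 5))
    (@En.n l34938 (nat_lit 950) (nat_lit 0) (nat_lit 8))
    (@En.n l34939 (nat_lit 5181) (nat_lit 2) (nat_lit 13))
    (@En.n l237 (nat_lit 7827) (nat_lit 9) (nat_lit 7))
    (@En.i (nat_lit 3312) (nat_lit 4) (nat_lit 7))
    (@En.n l6031 (nat_lit 8273) (nat_lit 7) (nat_lit 11))
    (@En.n l3 (nat_lit 5461) (nat_lit 10) (nat_lit 8))
    (@En.n l527 (nat_lit 5461) (nat_lit 11) (nat_lit 5))
    (@En.n l19748 (nat_lit 8366) (nat_lit 8) (nat_lit 5))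
    (@En.n l4380 (nat_lit 5467) (nat_lit 8) (nat_lit 8))
    (@En.n l34940 (nat_lit 819) (nat_lit 7) (nat_lit 9))
    (@En.n l27445 (nat_lit 10389) (nat_lit 12) (nat_lit 9))
    (@En.n l34941 (nat_lit 7829) (nat_lit 5) (nat_lit 11))
    (@En.n l34938 (nat_lit 6252) (nat_lit 7) (nat_lit 11))
    (@En.n l20245 (nat_lit 5460) (nat_lit 12) (nat_lit 8))
    (@En.n l26570 (nat_lit 5186) (nat_lit 15) (nat_lit 3))))
  (@Cl.mk (nat_lit 0x200060003000a000e00080002000b000e00060002000a00050008000e000d) (nat_lit 0x53101c0070641) (nat_lit 16) Lb.e (@T16.mk En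
    (@En.n l1144 (nat_lit 2452) (nat_lit 11) (nat_lit 13))
    (@En.n l6633 (nat_lit 12280) (nat_lit 12) (nat_lit 14))
    (@En.i (nat_lit 4689) (nat_lit 2) (nat_lit 8))
    (@En.n l8860 (nat_lit 2451) (nat_lit 14) (nat_lit 5))
    (@En.n l8861 (nat_lit 6759) (nat_lit 4) (nat_lit 10))
    (@En.n l17 (nat_lit 5190) (nat_lit 5) (nat_lit 2))
    (@En.n l8862 (nat_lit 2455) (nat_lit 6) (nat_lit 6))
    (@En.n l476 (nat_lit 2562) (nat_lit 8) (nat_lit 14))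
    (@En.n l8863 (nat_lit 2136) (nat_lit 9) (nat_lit 11))
    (@En.n l7 (nat_lit 5190) (nat_lit 9) (nat_lit 2))
    (@En.n l8864 (nat_lit 2136) (nat_lit 11) (nat_lit 8))
    (@En.i (nat_lit 4784) (nat_lit 12) (nat_lit 14))
    (@En.n l2262 (nat_lit 5209) (nat_lit 13) (nat_lit 10))
    (@En.n l11 (nat_lit 2452) (nat_lit 7) (nat_lit 3))
    (@En.n l1489 (nat_lit 4949) (nat_lit 8) (nat_lit 6))
    (@En.n l1157 (nat_lit 5190) (nat_lit 15) (nat_lit 2))))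
  (@Cl.mk (nat_lit 0x20006000a000e00070002000a000e00060002000b000a00060009000e0005) (nat_lit 0x42000a008801b0) (nat_lit 16) Lb.e (@T16.mk En
    (@En.n l2116 (nat_lit 5197) (nat_lit 5) (nat_lit 5))
    (@En.i (nat_lit 12810) (nat_lit 7) (nat_lit 14))
    (@En.i (nat_lit 4691) (nat_lit 2) (nat_lit 9))
    (@En.n l625 (nat_lit 5067) (nat_lit 8) (nat_lit 6))
    (@En.n l23585 (nat_lit 5190) (nat_lit 4) (nat_lit 10))
    (@En.i (nat_lit 6820) (nat_lit 11) (nat_lit 11))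
    (@En.n l7 (nat_lit 5191) (nat_lit 6) (nat_lit 2))
    (@En.n l11828 (nat_lit 5193) (nat_lit 7) (nat_lit 6))
    (@En.n l5378 (nat_lit 2558) (nat_lit 9) (nat_lit 14))
    (@En.n l5732 (nat_lit 5192) (nat_lit 10) (nat_lit 10))
    (@En.n l107 (nat_lit 5191) (nat_lit 10) (nat_lit 2))
    (@En.i (nat_lit 5192) (nat_lit 12) (nat_lit 7))
    (@En.n l2117 (nat_lit 5824) (nat_lit 13) (nat_lit 14))
    (@En.i (nat_lit 5687) (nat_lit 2) (nat_lit 10))
    (@En.n l2125 (nat_lit 4950) (nat_lit 3) (nat_lit 6))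
    (@En.n l17 (nat_lit 5191) (nat_lit 15) (nat_lit 2))))
  (@Cl.mk (nat_lit 0x20007000b00070007000a000e00050002000a0009000600090009000e0006) (nat_lit 0x40089003700270) (nat_lit 16) Lb.e (@T16.mk En
    (@En.n l2116 (nat_lit 5196) (nat_lit 8) (nat_lit 6))
    (@En.n l2604 (nat_lit 8897) (nat_lit 10) (nat_lit 14))
    (@En.n l527 (nat_lit 5191) (nat_lit 2) (nat_lit 9))
    (@En.i (nat_lit 5199) (nat_lit 3) (nat_lit 9))
    (@En.n l20689 (nat_lit 5066) (nat_lit 13) (nat_lit 6))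
    (@En.n l20690 (nat_lit 2136) (nat_lit 5) (nat_lit 9))
    (@En.n l20691 (nat_lit 6816) (nat_lit 7) (nat_lit 10))
    (@En.n l7 (nat_lit 5192) (nat_lit 7) (nat_lit 2))
    (@En.n l13142 (nat_lit 5194) (nat_lit 8) (nat_lit 5))
    (@En.n l2604 (nat_lit 2559) (nat_lit 10) (nat_lit 14))
    (@En.n l20692 (nat_lit 5195) (nat_lit 11) (nat_lit 10))
    (@En.n l20693 (nat_lit 5195) (nat_lit 12) (nat_lit 7))
    (@En.n l20690 (nat_lit 6505) (nat_lit 13) (nat_lit 7))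
    (@En.i (nat_lit 5685) (nat_lit 14) (nat_lit 11))
    (@En.n l2125 (nat_lit 4946) (nat_lit 6) (nat_lit 7))
    (@En.n l17 (nat_lit 5192) (nat_lit 15) (nat_lit 2))))
  (@Cl.mk (nat_lit 0x20006000a000a000e00080002000b00060006000b000a00050008000e0005) (nat_lit 0x453302009703a0) (nat_lit 16) Lb.e (@T16.mk En
    (@En.n l2843 (nat_lit 1647) (nat_lit 6) (nat_lit 5))
    (@En.n l9870 (nat_lit 5819) (nat_lit 8) (nat_lit 14))
    (@En.i (nat_lit 4675) (nat_lit 2) (nat_lit 8))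
    (@En.n l11028 (nat_lit 5018) (nat_lit 3) (nat_lit 5))
    (@En.n l6645 (nat_lit 2455) (nat_lit 4) (nat_lit 10))
    (@En.n l11029 (nat_lit 6739) (nat_lit 12) (nat_lit 11))
    (@En.n l11030 (nat_lit 5204) (nat_lit 6) (nat_lit 6))
    (@En.n l11031 (nat_lit 7047) (nat_lit 14) (nat_lit 6))
    (@En.n l11032 (nat_lit 5194) (nat_lit 9) (nat_lit 11))
    (@En.n l11 (nat_lit 5193) (nat_lit 9) (nat_lit 2))
    (@En.n l11033 (nat_lit 5194) (nat_lit 11) (nat_lit 8))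
    (@En.i (nat_lit 8060) (nat_lit 12) (nat_lit 14))
    (@En.n l11034 (nat_lit 5191) (nat_lit 13) (nat_lit 10))
    (@En.n l5251 (nat_lit 5213) (nat_lit 3) (nat_lit 10))
    (@En.n l3106 (nat_lit 4972) (nat_lit 4) (nat_lit 6))
    (@En.n l17 (nat_lit 5193) (nat_lit 15) (nat_lit 2))))
  (@Cl.mk (nat_lit 0x20007000b000b00080008000b00050005000a0009000500080008000e0006) (nat_lit 0x45211008405470) (nat_lit 16) Lb.e (@T16.mk En
    (@En.n l21871 (nat_lit 1643) (nat_lit 7) (nat_lit 6))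
    (@En.n l10046 (nat_lit 8948) (nat_lit 1) (nat_lit 14))
    (@En.n l21872 (nat_lit 5193) (nat_lit 2) (nat_lit 8))
    (@En.n l20764 (nat_lit 5307) (nat_lit 10) (nat_lit 8))
    (@En.n l21873 (nat_lit 5016) (nat_lit 4) (nat_lit 5))
    (@En.n l21874 (nat_lit 2459) (nat_lit 5) (nat_lit 9))
    (@En.n l10192 (nat_lit 6727) (nat_lit 7) (nat_lit 10))
    (@En.n l21875 (nat_lit 5127) (nat_lit 7) (nat_lit 5))
    (@En.n l21876 (nat_lit 7041) (nat_lit 8) (nat_lit 5))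
    (@En.n l9361 (nat_lit 5133) (nat_lit 10) (nat_lit 11))
    (@En.n l9362 (nat_lit 5133) (nat_lit 11) (nat_lit 8))
    (@En.n l21877 (nat_lit 7724) (nat_lit 12) (nat_lit 8))
    (@En.n l21878 (nat_lit 5192) (nat_lit 13) (nat_lit 11))
    (@En.i (nat_lit 5214) (nat_lit 14) (nat_lit 11))
    (@En.n l21879 (nat_lit 4919) (nat_lit 13) (nat_lit 7))
    (@En.n l7 (nat_lit 5194) (nat_lit 15) (nat_lit 2))))
  (@Cl.mk (nat_lit 0x20008000c0007000a000e00040002000900080006000e00090002000e0007) (nat_lit 0x140790031041090) (nat_lit 16) Lb.e (@T16.mk En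
    (@En.n l152 (nat_lit 5198) (nat_lit 14) (nat_lit 7))
    (@En.n l12542 (nat_lit 8896) (nat_lit 1) (nat_lit 14))
    (@En.n l7 (nat_lit 5195) (nat_lit 2) (nat_lit 2))
    (@En.n l12543 (nat_lit 5192) (nat_lit 3) (nat_lit 9))
    (@En.n l12544 (nat_lit 5708) (nat_lit 5) (nat_lit 14))
    (@En.n l12545 (nat_lit 5071) (nat_lit 13) (nat_lit 6))
    (@En.n l12546 (nat_lit 2137) (nat_lit 6) (nat_lit 8))
    (@En.n l12547 (nat_lit 6817) (nat_lit 4) (nat_lit 9))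
    (@En.n l17 (nat_lit 5195) (nat_lit 8) (nat_lit 2))
    (@En.n l12548 (nat_lit 5133) (nat_lit 9) (nat_lit 4))
    (@En.n l12549 (nat_lit 2046) (nat_lit 11) (nat_lit 14))
    (@En.n l5574 (nat_lit 13044) (nat_lit 8) (nat_lit 10))
    (@En.n l12546 (nat_lit 6504) (nat_lit 3) (nat_lit 7))
    (@En.n l12550 (nat_lit 5683) (nat_lit 14) (nat_lit 12))
    (@En.n l12551 (nat_lit 4953) (nat_lit 12) (nat_lit 8))
    (@En.n l3 (nat_lit 5195) (nat_lit 15) (nat_lit 2))))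
  (@Cl.mk (nat_lit 0x2000a000a000a0007000a000a000600060006000b000600060009000e0005) (nat_lit 0x647002000300080) (nat_lit 16) Lb.e (@T16.mk En
    (@En.i (nat_lit 1643) (nat_lit 15) (nat_lit 5))
    (@En.n l2150 (nat_lit 2052) (nat_lit 1) (nat_lit 14))
    (@En.n l31021 (nat_lit 5198) (nat_lit 9) (nat_lit 9))
    (@En.n l36428 (nat_lit 5198) (nat_lit 10) (nat_lit 6))
    (@En.i (nat_lit 6496) (nat_lit 4) (nat_lit 6))
    (@En.n l287 (nat_lit 5691) (nat_lit 6) (nat_lit 11))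
    (@En.n l36429 (nat_lit 4768) (nat_lit 10) (nat_lit 6))
    (@En.n l36430 (nat_lit 5201) (nat_lit 10) (nat_lit 6))
    (@En.n l36104 (nat_lit 8519) (nat_lit 8) (nat_lit 6))
    (@En.n l77 (nat_lit 5197) (nat_lit 6) (nat_lit 10))
    (@En.i (nat_lit 5202) (nat_lit 11) (nat_lit 10))
    (@En.n l532 (nat_lit 5069) (nat_lit 12) (nat_lit 7))
    (@En.n l619 (nat_lit 5200) (nat_lit 6) (nat_lit 10))
    (@En.n l5579 (nat_lit 5192) (nat_lit 6) (nat_lit 10))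
    (@En.i (nat_lit 5285) (nat_lit 14) (nat_lit 10))
    (@En.n l17 (nat_lit 5196) (nat_lit 15) (nat_lit 2))))
  (@Cl.mk (nat_lit 0x20009000e00060002000b000b000b0007000a000500050005000a000e0006) (nat_lit 0x120079201000390) (nat_lit 16) Lb.e (@T16.mk En
    (@En.i (nat_lit 5196) (nat_lit 4) (nat_lit 6))
    (@En.i (nat_lit 5826) (nat_lit 6) (nat_lit 14))
    (@En.n l287 (nat_lit 7791) (nat_lit 2) (nat_lit 10))
    (@En.n l11 (nat_lit 4769) (nat_lit 11) (nat_lit 5))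
    (@En.n l152 (nat_lit 6016) (nat_lit 4) (nat_lit 5))
    (@En.i (nat_lit 8279) (nat_lit 5) (nat_lit 5))
    (@En.i (nat_lit 4693) (nat_lit 11) (nat_lit 10))
    (@En.n l532 (nat_lit 5068) (nat_lit 7) (nat_lit 7))
    (@En.n l619 (nat_lit 5203) (nat_lit 9) (nat_lit 11))
    (@En.n l5579 (nat_lit 5191) (nat_lit 5) (nat_lit 11))
    (@En.i (nat_lit 5284) (nat_lit 11) (nat_lit 11))
    (@En.n l17 (nat_lit 5197) (nat_lit 11) (nat_lit 2))
    (@En.i (nat_lit 1647) (nat_lit 13) (nat_lit 6))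
    (@En.i (nat_lit 2490) (nat_lit 1) (nat_lit 14))
    (@En.n l4172 (nat_lit 5196) (nat_lit 2) (nat_lit 9))
    (@En.n l7 (nat_lit 5197) (nat_lit 15) (nat_lit 2))))
  (@Cl.mk (nat_lit 0x2000700070007000c00060009000e000400020009000900090007000e000a) (nat_lit 0x307500542061) (nat_lit 16) Lb.e (@T16.mk En
    (@En.n l23155 (nat_lit 5196) (nat_lit 10) (nat_lit 10))
    (@En.n l134 (nat_lit 5697) (nat_lit 11) (nat_lit 14))
    (@En.n l3339 (nat_lit 5070) (nat_lit 2) (nat_lit 7))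
    (@En.n l5573 (nat_lit 6030) (nat_lit 3) (nat_lit 9))
    (@En.i (nat_lit 5195) (nat_lit 7) (nat_lit 9))
    (@En.i (nat_lit 6517) (nat_lit 5) (nat_lit 9))
    (@En.n l17 (nat_lit 5198) (nat_lit 6) (nat_lit 2))
    (@En.i (nat_lit 1646) (nat_lit 7) (nat_lit 4))
    (@En.n l248 (nat_lit 2041) (nat_lit 9) (nat_lit 14))
    (@En.i (nat_lit 12786) (nat_lit 9) (nat_lit 9))
    (@En.i (nat_lit 6495) (nat_lit 3) (nat_lit 6))
    (@En.n l4021 (nat_lit 7780) (nat_lit 12) (nat_lit 12))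
    (@En.n l1865 (nat_lit 4957) (nat_lit 13) (nat_lit 7))
    (@En.n l152 (nat_lit 6017) (nat_lit 14) (nat_lit 7))
    (@En.n l117 (nat_lit 8517) (nat_lit 7) (nat_lit 7))
    (@En.n l7 (nat_lit 5198) (nat_lit 15) (nat_lit 2))))
  (@Cl.mk (nat_lit 0x20006000a0007000e00080002000e00060002000b000a00090008000e0005) (nat_lit 0x60300c000873b0) (nat_lit 16) Lb.e (@T16.mk En
    (@En.n l2116 (nat_lit 5202) (nat_lit 9) (nat_lit 5))
    (@En.n l2576 (nat_lit 8974) (nat_lit 1) (nat_lit 14))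
    (@En.n l23033 (nat_lit 4678) (nat_lit 2) (nat_lit 8))
    (@En.n l16483 (nat_lit 12622) (nat_lit 13) (nat_lit 9))
    (@En.n l23034 (nat_lit 5811) (nat_lit 4) (nat_lit 10))
    (@En.i (nat_lit 6571) (nat_lit 12) (nat_lit 11))
    (@En.n l7 (nat_lit 5199) (nat_lit 6) (nat_lit 2))
    (@En.n l11828 (nat_lit 5307) (nat_lit 14) (nat_lit 6))
    (@En.n l14617 (nat_lit 6885) (nat_lit 1) (nat_lit 14))
    (@En.n l11 (nat_lit 5199) (nat_lit 9) (nat_lit 2))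
    (@En.n l23035 (nat_lit 5710) (nat_lit 11) (nat_lit 8))
    (@En.n l180 (nat_lit 5191) (nat_lit 12) (nat_lit 14))
    (@En.n l23036 (nat_lit 4775) (nat_lit 13) (nat_lit 7))
    (@En.i (nat_lit 8046) (nat_lit 14) (nat_lit 10))
    (@En.n l2125 (nat_lit 4939) (nat_lit 7) (nat_lit 6))
    (@En.n l17 (nat_lit 5199) (nat_lit 15) (nat_lit 2))))
noncomputable def a325 : T16 Cl := @T16.mk Cl
  (@Cl.mk (nat_lit 0x2000b00070007000a000e00050002000b000a0006000900090005000e0006) (nat_lit 0x4000500660040c0) (nat_lit 16) Lb.e (@T16.mk En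
    (@En.n l117 (nat_lit 5196) (nat_lit 7) (nat_lit 6))
    (@En.n l36996 (nat_lit 6027) (nat_lit 9) (nat_lit 14))
    (@En.n l36997 (nat_lit 8281) (nat_lit 2) (nat_lit 5))
    (@En.n l77 (nat_lit 5203) (nat_lit 7) (nat_lit 9))
    (@En.i (nat_lit 5808) (nat_lit 4) (nat_lit 9))
    (@En.n l36998 (nat_lit 1191) (nat_lit 5) (nat_lit 6))
    (@En.n l36999 (nat_lit 2132) (nat_lit 14) (nat_lit 10))
    (@En.n l37000 (nat_lit 6830) (nat_lit 8) (nat_lit 11))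
    (@En.n l17 (nat_lit 5200) (nat_lit 8) (nat_lit 2))
    (@En.n l37001 (nat_lit 1639) (nat_lit 9) (nat_lit 5))
    (@En.n l36996 (nat_lit 2433) (nat_lit 11) (nat_lit 14))
    (@En.n l37002 (nat_lit 6030) (nat_lit 8) (nat_lit 10))
    (@En.n l37003 (nat_lit 6030) (nat_lit 9) (nat_lit 7))
    (@En.n l33726 (nat_lit 6503) (nat_lit 14) (nat_lit 7))
    (@En.n l614 (nat_lit 2094) (nat_lit 6) (nat_lit 11))
    (@En.n l11 (nat_lit 5200) (nat_lit 15) (nat_lit 2))))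
  (@Cl.mk (nat_lit 0x2000b0008000b000b00060005000b000500050008000e00050002000e000a) (nat_lit 0x8502002000300a7) (nat_lit 16) Lb.e (@T16.mk En
    (@En.n l23155 (nat_lit 5196) (nat_lit 14) (nat_lit 10))
    (@En.i (nat_lit 4642) (nat_lit 1) (nat_lit 14))
    (@En.n l17 (nat_lit 5201) (nat_lit 2) (nat_lit 2))
    (@En.i (nat_lit 4636) (nat_lit 3) (nat_lit 5))
    (@En.n l2031 (nat_lit 2516) (nat_lit 5) (nat_lit 14))
    (@En.n l28 (nat_lit 6017) (nat_lit 10) (nat_lit 8))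
    (@En.n l77 (nat_lit 6017) (nat_lit 11) (nat_lit 5))
    (@En.n l3039 (nat_lit 6499) (nat_lit 7) (nat_lit 5))
    (@En.n l4021 (nat_lit 7781) (nat_lit 9) (nat_lit 11))
    (@En.i (nat_lit 5897) (nat_lit 9) (nat_lit 5))
    (@En.n l117 (nat_lit 9061) (nat_lit 7) (nat_lit 6))
    (@En.n l29467 (nat_lit 6016) (nat_lit 5) (nat_lit 11))
    (@En.n l23155 (nat_lit 5703) (nat_lit 13) (nat_lit 11))
    (@En.n l3339 (nat_lit 5072) (nat_lit 14) (nat_lit 8))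
    (@En.n l39489 (nat_lit 6020) (nat_lit 12) (nat_lit 11))
    (@En.n l3 (nat_lit 5201) (nat_lit 15) (nat_lit 2))))
  (@Cl.mk (nat_lit 0x2000b000b000b000a0009000500050005000a0006000e00070002000e0006) (nat_lit 0x7168400030a00a0) (nat_lit 16) Lb.e (@T16.mk En
    (@En.i (nat_lit 5304) (nat_lit 14) (nat_lit 6))
    (@En.i (nat_lit 6887) (nat_lit 1) (nat_lit 14))
    (@En.n l50 (nat_lit 5202) (nat_lit 2) (nat_lit 2))
    (@En.i (nat_lit 5701) (nat_lit 3) (nat_lit 7))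
    (@En.n l601 (nat_lit 5197) (nat_lit 1) (nat_lit 14))
    (@En.i (nat_lit 4779) (nat_lit 5) (nat_lit 6))
    (@En.n l287 (nat_lit 8019) (nat_lit 3) (nat_lit 10))
    (@En.n l11 (nat_lit 5834) (nat_lit 7) (nat_lit 5))
    (@En.n l152 (nat_lit 5703) (nat_lit 11) (nat_lit 5))
    (@En.i (nat_lit 5812) (nat_lit 9) (nat_lit 5))
    (@En.n l77 (nat_lit 4692) (nat_lit 11) (nat_lit 9))
    (@En.n l55 (nat_lit 12390) (nat_lit 12) (nat_lit 10))
    (@En.n l619 (nat_lit 5808) (nat_lit 5) (nat_lit 11))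
    (@En.n l5579 (nat_lit 5199) (nat_lit 5) (nat_lit 11))
    (@En.i (nat_lit 6952) (nat_lit 12) (nat_lit 11))
    (@En.n l17 (nat_lit 5202) (nat_lit 15) (nat_lit 2))))
  (@Cl.mk (nat_lit 0x2000a000e00060002000c000b000600090004000e00050002000a000e0007) (nat_lit 0x170071030c00480) (nat_lit 16) Lb.e (@T16.mk En
    (@En.i (nat_lit 5200) (nat_lit 13) (nat_lit 7))
    (@En.i (nat_lit 5830) (nat_lit 6) (nat_lit 14))
    (@En.n l614 (nat_lit 6634) (nat_lit 2) (nat_lit 10))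
    (@En.n l11 (nat_lit 5203) (nat_lit 3) (nat_lit 2))
    (@En.n l117 (nat_lit 5197) (nat_lit 4) (nat_lit 5))
    (@En.n l36962 (nat_lit 6029) (nat_lit 1) (nat_lit 14))
    (@En.n l936 (nat_lit 8274) (nat_lit 6) (nat_lit 4))
    (@En.i (nat_lit 4796) (nat_lit 3) (nat_lit 9))
    (@En.n l6453 (nat_lit 1650) (nat_lit 4) (nat_lit 6))
    (@En.n l936 (nat_lit 2452) (nat_lit 14) (nat_lit 11))
    (@En.n l12686 (nat_lit 6947) (nat_lit 7) (nat_lit 12))
    (@En.n l17 (nat_lit 5203) (nat_lit 11) (nat_lit 2))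
    (@En.n l4185 (nat_lit 1642) (nat_lit 8) (nat_lit 6))
    (@En.n l8851 (nat_lit 2489) (nat_lit 10) (nat_lit 14))
    (@En.n l4172 (nat_lit 5200) (nat_lit 11) (nat_lit 10))
    (@En.n l7 (nat_lit 5203) (nat_lit 15) (nat_lit 2))))
  (@Cl.mk (nat_lit 0x20006000e000a0002000e00090002000c0006000b000a00040007000e0005) (nat_lit 0x250410209600b0) (nat_lit 16) Lb.e (@T16.mk En
    (@En.n l8152 (nat_lit 1644) (nat_lit 7) (nat_lit 5))
    (@En.n l7611 (nat_lit 5813) (nat_lit 1) (nat_lit 14))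
    (@En.n l8153 (nat_lit 4714) (nat_lit 2) (nat_lit 7))
    (@En.n l8135 (nat_lit 5014) (nat_lit 3) (nat_lit 4))
    (@En.n l8154 (nat_lit 4855) (nat_lit 4) (nat_lit 10))
    (@En.n l2578 (nat_lit 6856) (nat_lit 13) (nat_lit 11))
    (@En.n l2785 (nat_lit 7049) (nat_lit 14) (nat_lit 6))
    (@En.n l8155 (nat_lit 5127) (nat_lit 8) (nat_lit 12))
    (@En.n l7 (nat_lit 5204) (nat_lit 8) (nat_lit 2))
    (@En.n l8156 (nat_lit 5127) (nat_lit 10) (nat_lit 9))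
    (@En.n l2578 (nat_lit 8062) (nat_lit 1) (nat_lit 14))
    (@En.n l11 (nat_lit 5204) (nat_lit 11) (nat_lit 2))
    (@En.n l8157 (nat_lit 5193) (nat_lit 13) (nat_lit 10))
    (@En.n l2578 (nat_lit 5220) (nat_lit 1) (nat_lit 14))
    (@En.n l253 (nat_lit 4877) (nat_lit 5) (nat_lit 6))
    (@En.n l3 (nat_lit 5204) (nat_lit 15) (nat_lit 2))))
  (@Cl.mk (nat_lit 0x20007000b000a00080008000b0005000900060009000500080008000e0007) (nat_lit 0x450000606002a0) (nat_lit 16) Lb.e (@T16.mk En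
    (@En.n l26802 (nat_lit 5260) (nat_lit 7) (nat_lit 7))
    (@En.n l134 (nat_lit 8385) (nat_lit 1) (nat_lit 14))
    (@En.n l16928 (nat_lit 5206) (nat_lit 2) (nat_lit 8))
    (@En.n l713 (nat_lit 7486) (nat_lit 10) (nat_lit 8))
    (@En.n l1738 (nat_lit 4831) (nat_lit 4) (nat_lit 5))
    (@En.n l33720 (nat_lit 5127) (nat_lit 5) (nat_lit 9))
    (@En.n l27984 (nat_lit 4986) (nat_lit 6) (nat_lit 6))
    (@En.n l5709 (nat_lit 6823) (nat_lit 8) (nat_lit 9))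
    (@En.i (nat_lit 10872) (nat_lit 8) (nat_lit 5))
    (@En.n l5709 (nat_lit 5263) (nat_lit 10) (nat_lit 11))
    (@En.n l1952 (nat_lit 5263) (nat_lit 11) (nat_lit 8))
    (@En.n l33721 (nat_lit 11590) (nat_lit 12) (nat_lit 8))
    (@En.n l20623 (nat_lit 5208) (nat_lit 13) (nat_lit 10))
    (@En.n l27984 (nat_lit 5212) (nat_lit 14) (nat_lit 11))
    (@En.n l33722 (nat_lit 1754) (nat_lit 13) (nat_lit 7))
    (@En.n l7 (nat_lit 5205) (nat_lit 15) (nat_lit 2))))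
  (@Cl.mk (nat_lit 0x20006000a0009000e00080002000b0006000a0007000a00050008000e0006) (nat_lit 0x453101020701a0) (nat_lit 16) Lb.e (@T16.mk En
    (@En.n l9164 (nat_lit 5274) (nat_lit 6) (nat_lit 6))
    (@En.n l7067 (nat_lit 8281) (nat_lit 1) (nat_lit 14))
    (@En.n l7070 (nat_lit 3537) (nat_lit 2) (nat_lit 8))
    (@En.n l617 (nat_lit 4839) (nat_lit 3) (nat_lit 5))
    (@En.n l1359 (nat_lit 5204) (nat_lit 4) (nat_lit 10))
    (@En.n l4317 (nat_lit 4989) (nat_lit 5) (nat_lit 7))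
    (@En.i (nat_lit 6827) (nat_lit 13) (nat_lit 10))
    (@En.n l2682 (nat_lit 11506) (nat_lit 14) (nat_lit 6))
    (@En.n l14776 (nat_lit 5205) (nat_lit 9) (nat_lit 11))
    (@En.n l3 (nat_lit 5206) (nat_lit 9) (nat_lit 2))
    (@En.n l14493 (nat_lit 5205) (nat_lit 11) (nat_lit 8))
    (@En.i (nat_lit 11000) (nat_lit 12) (nat_lit 14))
    (@En.n l2378 (nat_lit 5207) (nat_lit 13) (nat_lit 9))
    (@En.n l14784 (nat_lit 5211) (nat_lit 3) (nat_lit 10))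
    (@En.n l7072 (nat_lit 2585) (nat_lit 4) (nat_lit 6))
    (@En.n l50 (nat_lit 5206) (nat_lit 15) (nat_lit 2))))
  (@Cl.mk (nat_lit 0x200060009000e00070002000a000d000900070003000a00060009000e0007) (nat_lit 0x42000820080440) (nat_lit 16) Lb.e (@T16.mk En
    (@En.n l21153 (nat_lit 5275) (nat_lit 5) (nat_lit 7))
    (@En.n l3 (nat_lit 8512) (nat_lit 7) (nat_lit 14))
    (@En.i (nat_lit 7447) (nat_lit 2) (nat_lit 9))
    (@En.n l2676 (nat_lit 5211) (nat_lit 8) (nat_lit 6))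
    (@En.n l6645 (nat_lit 5206) (nat_lit 4) (nat_lit 10))
    (@En.n l50 (nat_lit 5209) (nat_lit 5) (nat_lit 3))
    (@En.n l21154 (nat_lit 4988) (nat_lit 6) (nat_lit 7))
    (@En.n l217 (nat_lit 6842) (nat_lit 13) (nat_lit 9))
    (@En.n l8918 (nat_lit 11657) (nat_lit 9) (nat_lit 13))
    (@En.n l21155 (nat_lit 5208) (nat_lit 10) (nat_lit 10))
    (@En.n l11 (nat_lit 5207) (nat_lit 10) (nat_lit 2))
    (@En.n l8073 (nat_lit 5208) (nat_lit 12) (nat_lit 7))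
    (@En.i (nat_lit 8049) (nat_lit 13) (nat_lit 14))
    (@En.n l3105 (nat_lit 5751) (nat_lit 9) (nat_lit 9))
    (@En.n l8918 (nat_lit 2583) (nat_lit 3) (nat_lit 6))
    (@En.n l17 (nat_lit 5207) (nat_lit 15) (nat_lit 2))))
  (@Cl.mk (nat_lit 0x20007000a00070007000a000d0008000600030009000600090009000e0008) (nat_lit 0x40087000700550) (nat_lit 16) Lb.e (@T16.mk En
    (@En.n l8768 (nat_lit 5245) (nat_lit 10) (nat_lit 8))
    (@En.n l3324 (nat_lit 8424) (nat_lit 1) (nat_lit 14))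
    (@En.n l36843 (nat_lit 5207) (nat_lit 2) (nat_lit 9))
    (@En.n l2757 (nat_lit 7442) (nat_lit 3) (nat_lit 9))
    (@En.n l36844 (nat_lit 5212) (nat_lit 4) (nat_lit 6))
    (@En.n l20510 (nat_lit 5205) (nat_lit 5) (nat_lit 9))
    (@En.n l8739 (nat_lit 5210) (nat_lit 6) (nat_lit 3))
    (@En.n l3326 (nat_lit 4985) (nat_lit 7) (nat_lit 6))
    (@En.n l29545 (nat_lit 6822) (nat_lit 9) (nat_lit 8))
    (@En.i (nat_lit 12540) (nat_lit 10) (nat_lit 13))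
    (@En.n l3332 (nat_lit 5215) (nat_lit 11) (nat_lit 10))
    (@En.n l26368 (nat_lit 5215) (nat_lit 12) (nat_lit 7))
    (@En.i (nat_lit 11596) (nat_lit 13) (nat_lit 7))
    (@En.n l3326 (nat_lit 5754) (nat_lit 8) (nat_lit 10))
    (@En.n l18713 (nat_lit 1759) (nat_lit 7) (nat_lit 7))
    (@En.n l3 (nat_lit 5208) (nat_lit 15) (nat_lit 2))))
  (@Cl.mk (nat_lit 0x20006000a000e00070002000a000d0006000a0003000a00060009000e0006) (nat_lit 0x42000700080060) (nat_lit 16) Lb.e (@T16.mk En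
    (@En.n l3098 (nat_lit 5278) (nat_lit 5) (nat_lit 6))
    (@En.n l3 (nat_lit 8513) (nat_lit 7) (nat_lit 14))
    (@En.i (nat_lit 7446) (nat_lit 2) (nat_lit 9))
    (@En.n l2676 (nat_lit 5213) (nat_lit 8) (nat_lit 6))
    (@En.i (nat_lit 5193) (nat_lit 4) (nat_lit 10))
    (@En.i (nat_lit 5207) (nat_lit 5) (nat_lit 3))
    (@En.n l11723 (nat_lit 6697) (nat_lit 0) (nat_lit 10))
    (@En.n l6646 (nat_lit 5206) (nat_lit 7) (nat_lit 6))
    (@En.n l5033 (nat_lit 11655) (nat_lit 9) (nat_lit 13))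
    (@En.n l2678 (nat_lit 5210) (nat_lit 10) (nat_lit 10))
    (@En.n l11 (nat_lit 5209) (nat_lit 10) (nat_lit 2))
    (@En.i (nat_lit 5210) (nat_lit 12) (nat_lit 7))
    (@En.i (nat_lit 8048) (nat_lit 13) (nat_lit 14))
    (@En.n l3105 (nat_lit 5688) (nat_lit 2) (nat_lit 10))
    (@En.n l3106 (nat_lit 2581) (nat_lit 3) (nat_lit 6))
    (@En.n l17 (nat_lit 5209) (nat_lit 15) (nat_lit 2))))
  (@Cl.mk (nat_lit 0x20007000b00070007000a000d0005000900030009000600090009000e0007) (nat_lit 0x40086000500170) (nat_lit 16) Lb.e (@T16.mk En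
    (@En.n l20317 (nat_lit 5265) (nat_lit 10) (nat_lit 7))
    (@En.n l3 (nat_lit 8411) (nat_lit 1) (nat_lit 14))
    (@En.n l575 (nat_lit 5209) (nat_lit 2) (nat_lit 9))
    (@En.i (nat_lit 7451) (nat_lit 3) (nat_lit 9))
    (@En.n l30183 (nat_lit 5214) (nat_lit 4) (nat_lit 6))
    (@En.n l11033 (nat_lit 5194) (nat_lit 5) (nat_lit 9))
    (@En.n l8073 (nat_lit 5208) (nat_lit 6) (nat_lit 3))
    (@En.n l2383 (nat_lit 6698) (nat_lit 0) (nat_lit 9))
    (@En.n l30184 (nat_lit 5205) (nat_lit 8) (nat_lit 5))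
    (@En.n l23114 (nat_lit 12541) (nat_lit 10) (nat_lit 13))
    (@En.n l30185 (nat_lit 5217) (nat_lit 11) (nat_lit 10))
    (@En.n l30186 (nat_lit 5217) (nat_lit 12) (nat_lit 7))
    (@En.n l10028 (nat_lit 12221) (nat_lit 13) (nat_lit 7))
    (@En.n l3105 (nat_lit 5686) (nat_lit 14) (nat_lit 11))
    (@En.n l3106 (nat_lit 2514) (nat_lit 7) (nat_lit 7))
    (@En.n l17 (nat_lit 5210) (nat_lit 15) (nat_lit 2))))
  (@Cl.mk (nat_lit 0x2000a0006000d000a0008000300060009000e00060002000a0008000e0007) (nat_lit 0x9360033003420) (nat_lit 16) Lb.e (@T16.mk En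
    (@En.n l11823 (nat_lit 5212) (nat_lit 12) (nat_lit 7))
    (@En.n l810 (nat_lit 8050) (nat_lit 13) (nat_lit 14))
    (@En.n l2900 (nat_lit 5753) (nat_lit 14) (nat_lit 8))
    (@En.n l11824 (nat_lit 4656) (nat_lit 3) (nat_lit 10))
    (@En.n l17 (nat_lit 5211) (nat_lit 4) (nat_lit 2))
    (@En.n l11825 (nat_lit 5241) (nat_lit 5) (nat_lit 6))
    (@En.n l11826 (nat_lit 8511) (nat_lit 7) (nat_lit 14))
    (@En.i (nat_lit 7078) (nat_lit 9) (nat_lit 9))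
    (@En.n l4693 (nat_lit 4832) (nat_lit 3) (nat_lit 6))
    (@En.n l50 (nat_lit 5213) (nat_lit 9) (nat_lit 3))
    (@En.n l11827 (nat_lit 4990) (nat_lit 0) (nat_lit 8))
    (@En.n l217 (nat_lit 5288) (nat_lit 12) (nat_lit 10))
    (@En.n l11828 (nat_lit 5207) (nat_lit 8) (nat_lit 13))
    (@En.n l2681 (nat_lit 11508) (nat_lit 14) (nat_lit 6))
    (@En.n l11829 (nat_lit 5212) (nat_lit 10) (nat_lit 10))
    (@En.n l107 (nat_lit 5211) (nat_lit 15) (nat_lit 2))))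
  (@Cl.mk (nat_lit 0x2000b000900070007000a0005000d000900070003000600090009000e0007) (nat_lit 0x340080810000440) (nat_lit 16) Lb.e (@T16.mk En
    (@En.i (nat_lit 5240) (nat_lit 11) (nat_lit 7))
    (@En.n l5144 (nat_lit 8380) (nat_lit 1) (nat_lit 14))
    (@En.n l25511 (nat_lit 5211) (nat_lit 7) (nat_lit 9))
    (@En.n l25512 (nat_lit 8104) (nat_lit 9) (nat_lit 9))
    (@En.n l25513 (nat_lit 4829) (nat_lit 12) (nat_lit 6))
    (@En.n l13055 (nat_lit 5214) (nat_lit 5) (nat_lit 3))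
    (@En.i (nat_lit 4981) (nat_lit 0) (nat_lit 7))
    (@En.n l25514 (nat_lit 2893) (nat_lit 8) (nat_lit 9))
    (@En.n l25515 (nat_lit 5208) (nat_lit 9) (nat_lit 13))
    (@En.n l1643 (nat_lit 11510) (nat_lit 9) (nat_lit 5))
    (@En.n l3 (nat_lit 5216) (nat_lit 11) (nat_lit 10))
    (@En.n l527 (nat_lit 5216) (nat_lit 12) (nat_lit 7))
    (@En.n l872 (nat_lit 11598) (nat_lit 13) (nat_lit 7))
    (@En.n l217 (nat_lit 933) (nat_lit 14) (nat_lit 9))
    (@En.n l25516 (nat_lit 4654) (nat_lit 9) (nat_lit 11))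
    (@En.n l28 (nat_lit 5212) (nat_lit 15) (nat_lit 2))))
  (@Cl.mk (nat_lit 0x2000a0006000d0007000b000300060009000e00050002000a0009000e0007) (nat_lit 0x8000005003420) (nat_lit 16) Lb.e (@T16.mk En
    (@En.n l13142 (nat_lit 5214) (nat_lit 12) (nat_lit 7))
    (@En.n l810 (nat_lit 8047) (nat_lit 13) (nat_lit 14))
    (@En.n l77 (nat_lit 5689) (nat_lit 2) (nat_lit 9))
    (@En.n l2125 (nat_lit 4646) (nat_lit 3) (nat_lit 10))
    (@En.n l17 (nat_lit 5213) (nat_lit 4) (nat_lit 2))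
    (@En.n l3098 (nat_lit 5244) (nat_lit 5) (nat_lit 5))
    (@En.n l1357 (nat_lit 8514) (nat_lit 7) (nat_lit 14))
    (@En.i (nat_lit 7074) (nat_lit 9) (nat_lit 9))
    (@En.n l1357 (nat_lit 5946) (nat_lit 12) (nat_lit 6))
    (@En.i (nat_lit 5211) (nat_lit 9) (nat_lit 3))
    (@En.n l1357 (nat_lit 6969) (nat_lit 0) (nat_lit 11))
    (@En.n l24629 (nat_lit 4839) (nat_lit 6) (nat_lit 7))
    (@En.n l11828 (nat_lit 5209) (nat_lit 8) (nat_lit 13))
    (@En.n l2681 (nat_lit 11511) (nat_lit 14) (nat_lit 6))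
    (@En.n l13141 (nat_lit 5214) (nat_lit 10) (nat_lit 10))
    (@En.n l107 (nat_lit 5213) (nat_lit 15) (nat_lit 2))))
  (@Cl.mk (nat_lit 0x2000b000a00070007000a0005000d0006000a0003000600090009000e0006) (nat_lit 0x340080700000160) (nat_lit 16) Lb.e (@T16.mk En
    (@En.n l34637 (nat_lit 5239) (nat_lit 11) (nat_lit 6))
    (@En.n l10046 (nat_lit 8353) (nat_lit 1) (nat_lit 14))
    (@En.n l26038 (nat_lit 5213) (nat_lit 7) (nat_lit 9))
    (@En.n l16261 (nat_lit 8105) (nat_lit 9) (nat_lit 9))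
    (@En.i (nat_lit 5947) (nat_lit 12) (nat_lit 6))
    (@En.n l23330 (nat_lit 5212) (nat_lit 5) (nat_lit 3))
    (@En.n l6459 (nat_lit 6596) (nat_lit 0) (nat_lit 10))
    (@En.n l10048 (nat_lit 4831) (nat_lit 7) (nat_lit 6))
    (@En.n l20764 (nat_lit 5210) (nat_lit 9) (nat_lit 13))
    (@En.n l27213 (nat_lit 11512) (nat_lit 9) (nat_lit 5))
    (@En.n l207 (nat_lit 5680) (nat_lit 11) (nat_lit 10))
    (@En.n l575 (nat_lit 5680) (nat_lit 12) (nat_lit 7))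
    (@En.n l532 (nat_lit 12223) (nat_lit 13) (nat_lit 7))
    (@En.n l21878 (nat_lit 5684) (nat_lit 14) (nat_lit 10))
    (@En.i (nat_lit 4645) (nat_lit 9) (nat_lit 11))
    (@En.n l7 (nat_lit 5214) (nat_lit 15) (nat_lit 2))))
  (@Cl.mk (nat_lit 0x20008000b0007000a000d00070005000300080006000e00090002000e0009) (nat_lit 0x140750006041060) (nat_lit 16) Lb.e (@T16.mk En
    (@En.i (nat_lit 5262) (nat_lit 14) (nat_lit 9))
    (@En.n l8122 (nat_lit 8396) (nat_lit 1) (nat_lit 14))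
    (@En.n l107 (nat_lit 5215) (nat_lit 2) (nat_lit 2))
    (@En.n l9555 (nat_lit 5208) (nat_lit 3) (nat_lit 9))
    (@En.n l97 (nat_lit 7490) (nat_lit 5) (nat_lit 14))
    (@En.n l2593 (nat_lit 5216) (nat_lit 5) (nat_lit 6))
    (@En.n l33735 (nat_lit 5263) (nat_lit 6) (nat_lit 8))
    (@En.i (nat_lit 5217) (nat_lit 7) (nat_lit 3))
    (@En.i (nat_lit 4983) (nat_lit 0) (nat_lit 5))
    (@En.n l23049 (nat_lit 6824) (nat_lit 6) (nat_lit 7))
    (@En.n l1643 (nat_lit 11363) (nat_lit 11) (nat_lit 13))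
    (@En.n l8122 (nat_lit 12827) (nat_lit 8) (nat_lit 10))
    (@En.n l6296 (nat_lit 11595) (nat_lit 13) (nat_lit 7))
    (@En.i (nat_lit 5759) (nat_lit 7) (nat_lit 11))
    (@En.n l12890 (nat_lit 1758) (nat_lit 12) (nat_lit 8))
    (@En.n l28 (nat_lit 5215) (nat_lit 15) (nat_lit 2))))
noncomputable def a326 : T16 Cl := @T16.mk Cl
  (@Cl.mk (nat_lit 0x2000c000a0007000a0004000d0008000600030006000e00090002000e0008) (nat_lit 0x340706100031050) (nat_lit 16) Lb.e (@T16.mk En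
    (@En.i (nat_lit 5242) (nat_lit 14) (nat_lit 8))
    (@En.i (nat_lit 8376) (nat_lit 1) (nat_lit 14))
    (@En.n l107 (nat_lit 5216) (nat_lit 2) (nat_lit 2))
    (@En.i (nat_lit 5212) (nat_lit 3) (nat_lit 9))
    (@En.n l97 (nat_lit 8038) (nat_lit 1) (nat_lit 14))
    (@En.n l617 (nat_lit 4828) (nat_lit 12) (nat_lit 6))
    (@En.n l13055 (nat_lit 5680) (nat_lit 6) (nat_lit 3))
    (@En.i (nat_lit 4982) (nat_lit 0) (nat_lit 6))
    (@En.n l27142 (nat_lit 2890) (nat_lit 5) (nat_lit 8))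
    (@En.n l5 (nat_lit 5215) (nat_lit 10) (nat_lit 13))
    (@En.n l1643 (nat_lit 12819) (nat_lit 10) (nat_lit 4))
    (@En.i (nat_lit 12825) (nat_lit 8) (nat_lit 10))
    (@En.n l872 (nat_lit 11597) (nat_lit 13) (nat_lit 7))
    (@En.n l217 (nat_lit 931) (nat_lit 14) (nat_lit 10))
    (@En.i (nat_lit 4657) (nat_lit 12) (nat_lit 12))
    (@En.n l28 (nat_lit 5216) (nat_lit 15) (nat_lit 2))))
  (@Cl.mk (nat_lit 0x20008000c0007000a000d00040008000300080006000e00090002000e0008) (nat_lit 0x140760006001080) (nat_lit 16) Lb.e (@T16.mk En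
    (@En.n l23044 (nat_lit 5264) (nat_lit 14) (nat_lit 8))
    (@En.n l8117 (nat_lit 8410) (nat_lit 1) (nat_lit 14))
    (@En.n l107 (nat_lit 5217) (nat_lit 2) (nat_lit 2))
    (@En.n l23045 (nat_lit 5210) (nat_lit 3) (nat_lit 9))
    (@En.n l4296 (nat_lit 7491) (nat_lit 5) (nat_lit 14))
    (@En.n l23046 (nat_lit 5680) (nat_lit 5) (nat_lit 6))
    (@En.n l23047 (nat_lit 5133) (nat_lit 6) (nat_lit 8))
    (@En.n l18 (nat_lit 5215) (nat_lit 7) (nat_lit 3))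
    (@En.n l23048 (nat_lit 6717) (nat_lit 0) (nat_lit 8))
    (@En.n l23049 (nat_lit 5263) (nat_lit 9) (nat_lit 4))
    (@En.n l1643 (nat_lit 11360) (nat_lit 11) (nat_lit 13))
    (@En.n l23047 (nat_lit 12826) (nat_lit 8) (nat_lit 10))
    (@En.n l23048 (nat_lit 12220) (nat_lit 13) (nat_lit 7))
    (@En.n l18 (nat_lit 5681) (nat_lit 14) (nat_lit 12))
    (@En.n l23050 (nat_lit 2515) (nat_lit 12) (nat_lit 8))
    (@En.n l28 (nat_lit 5217) (nat_lit 15) (nat_lit 2))))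
  (@Cl.mk (nat_lit 0x2000a00090009000c0006000a0006000400070007000e00060002000e000a) (nat_lit 0x6120040000c0012) (nat_lit 16) Lb.e (@T16.mk En
    (@En.i (nat_lit 4831) (nat_lit 14) (nat_lit 10))
    (@En.n l12593 (nat_lit 1459) (nat_lit 1) (nat_lit 14))
    (@En.n l7 (nat_lit 5218) (nat_lit 2) (nat_lit 2))
    (@En.i (nat_lit 5221) (nat_lit 3) (nat_lit 6))
    (@En.n l134 (nat_lit 8280) (nat_lit 5) (nat_lit 14))
    (@En.n l16928 (nat_lit 5220) (nat_lit 5) (nat_lit 7))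
    (@En.n l713 (nat_lit 4776) (nat_lit 11) (nat_lit 7))
    (@En.n l27976 (nat_lit 1879) (nat_lit 7) (nat_lit 4))
    (@En.n l27977 (nat_lit 4973) (nat_lit 8) (nat_lit 6))
    (@En.n l26800 (nat_lit 2369) (nat_lit 10) (nat_lit 10))
    (@En.i (nat_lit 10873) (nat_lit 7) (nat_lit 6))
    (@En.n l5709 (nat_lit 5219) (nat_lit 12) (nat_lit 12))
    (@En.n l1952 (nat_lit 5219) (nat_lit 13) (nat_lit 9))
    (@En.n l5705 (nat_lit 3450) (nat_lit 14) (nat_lit 9))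
    (@En.i (nat_lit 5205) (nat_lit 12) (nat_lit 10))
    (@En.n l18 (nat_lit 5218) (nat_lit 15) (nat_lit 2))))
  (@Cl.mk (nat_lit 0x2000b0009000c0005000900050004000e00070002000e00070002000e000b) (nat_lit 0x61a0300400c0019) (nat_lit 16) Lb.e (@T16.mk En
    (@En.i (nat_lit 4830) (nat_lit 14) (nat_lit 11))
    (@En.i (nat_lit 1463) (nat_lit 1) (nat_lit 14))
    (@En.n l50 (nat_lit 5219) (nat_lit 2) (nat_lit 2))
    (@En.i (nat_lit 5222) (nat_lit 14) (nat_lit 7))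
    (@En.i (nat_lit 9250) (nat_lit 1) (nat_lit 14))
    (@En.n l28 (nat_lit 5219) (nat_lit 5) (nat_lit 2))
    (@En.n l2683 (nat_lit 5218) (nat_lit 6) (nat_lit 7))
    (@En.n l17561 (nat_lit 5246) (nat_lit 1) (nat_lit 14))
    (@En.n l152 (nat_lit 5008) (nat_lit 8) (nat_lit 4))
    (@En.n l1865 (nat_lit 4971) (nat_lit 9) (nat_lit 5))
    (@En.i (nat_lit 2368) (nat_lit 11) (nat_lit 9))
    (@En.n l2381 (nat_lit 12816) (nat_lit 8) (nat_lit 5))
    (@En.n l5390 (nat_lit 14052) (nat_lit 6) (nat_lit 12))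
    (@En.n l645 (nat_lit 3449) (nat_lit 14) (nat_lit 9))
    (@En.i (nat_lit 5263) (nat_lit 12) (nat_lit 11))
    (@En.n l17 (nat_lit 5219) (nat_lit 15) (nat_lit 2))))
  (@Cl.mk (nat_lit 0x20009000e00090002000c0007000b000700040007000e00050002000e0009) (nat_lit 0x6620105000c0012) (nat_lit 16) Lb.e (@T16.mk En
    (@En.i (nat_lit 4839) (nat_lit 14) (nat_lit 9))
    (@En.n l9025 (nat_lit 1457) (nat_lit 1) (nat_lit 14))
    (@En.n l50 (nat_lit 5220) (nat_lit 2) (nat_lit 2))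
    (@En.n l2678 (nat_lit 5223) (nat_lit 3) (nat_lit 5))
    (@En.n l8796 (nat_lit 8274) (nat_lit 5) (nat_lit 14))
    (@En.n l810 (nat_lit 3999) (nat_lit 11) (nat_lit 7))
    (@En.n l28 (nat_lit 5000) (nat_lit 6) (nat_lit 4))
    (@En.n l590 (nat_lit 4975) (nat_lit 7) (nat_lit 7))
    (@En.i (nat_lit 2370) (nat_lit 9) (nat_lit 11))
    (@En.n l2682 (nat_lit 11504) (nat_lit 14) (nat_lit 7))
    (@En.n l14776 (nat_lit 5218) (nat_lit 11) (nat_lit 12))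
    (@En.n l3 (nat_lit 5220) (nat_lit 11) (nat_lit 2))
    (@En.n l14493 (nat_lit 5218) (nat_lit 13) (nat_lit 9))
    (@En.i (nat_lit 12537) (nat_lit 1) (nat_lit 14))
    (@En.i (nat_lit 5206) (nat_lit 12) (nat_lit 9))
    (@En.n l17 (nat_lit 5220) (nat_lit 15) (nat_lit 2))))
  (@Cl.mk (nat_lit 0x2000900080008000b0006000a000a000700050008000800060006000e000a) (nat_lit 0x512004500560077) (nat_lit 16) Lb.e (@T16.mk En
    (@En.n l26787 (nat_lit 4835) (nat_lit 5) (nat_lit 10))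
    (@En.n l26795 (nat_lit 1980) (nat_lit 1) (nat_lit 14))
    (@En.n l5109 (nat_lit 5224) (nat_lit 10) (nat_lit 6))
    (@En.n l26796 (nat_lit 9487) (nat_lit 3) (nat_lit 6))
    (@En.n l26797 (nat_lit 5223) (nat_lit 4) (nat_lit 8))
    (@En.n l713 (nat_lit 4891) (nat_lit 10) (nat_lit 8))
    (@En.n l26798 (nat_lit 4993) (nat_lit 6) (nat_lit 5))
    (@En.n l26799 (nat_lit 7180) (nat_lit 7) (nat_lit 7))
    (@En.n l77 (nat_lit 5218) (nat_lit 9) (nat_lit 10))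
    (@En.n l26800 (nat_lit 2362) (nat_lit 10) (nat_lit 10))
    (@En.i (nat_lit 8183) (nat_lit 11) (nat_lit 6))
    (@En.n l5709 (nat_lit 5222) (nat_lit 7) (nat_lit 11))
    (@En.n l1952 (nat_lit 5222) (nat_lit 8) (nat_lit 8))
    (@En.n l26801 (nat_lit 4548) (nat_lit 14) (nat_lit 8))
    (@En.n l26802 (nat_lit 5260) (nat_lit 3) (nat_lit 9))
    (@En.n l18 (nat_lit 5221) (nat_lit 15) (nat_lit 2))))
  (@Cl.mk (nat_lit 0x200070007000e000b0002000a0008000b00050009000900060005000e0008) (nat_lit 0xc805190340016) (nat_lit 16) Lb.e (@T16.mk En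
    (@En.n l2683 (nat_lit 5221) (nat_lit 5) (nat_lit 8))
    (@En.n l29102 (nat_lit 3171) (nat_lit 1) (nat_lit 14))
    (@En.n l3498 (nat_lit 4994) (nat_lit 2) (nat_lit 5))
    (@En.n l4252 (nat_lit 7181) (nat_lit 3) (nat_lit 6))
    (@En.n l644 (nat_lit 5219) (nat_lit 10) (nat_lit 9))
    (@En.i (nat_lit 2364) (nat_lit 5) (nat_lit 9))
    (@En.n l2381 (nat_lit 8181) (nat_lit 6) (nat_lit 5))
    (@En.n l4252 (nat_lit 13901) (nat_lit 7) (nat_lit 11))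
    (@En.n l4003 (nat_lit 4549) (nat_lit 14) (nat_lit 8))
    (@En.i (nat_lit 5261) (nat_lit 10) (nat_lit 10))
    (@En.n l17 (nat_lit 5222) (nat_lit 10) (nat_lit 2))
    (@En.n l18510 (nat_lit 4836) (nat_lit 12) (nat_lit 11))
    (@En.n l28318 (nat_lit 1981) (nat_lit 13) (nat_lit 14))
    (@En.n l29103 (nat_lit 5225) (nat_lit 9) (nat_lit 7))
    (@En.n l29104 (nat_lit 9486) (nat_lit 3) (nat_lit 7))
    (@En.n l28 (nat_lit 5222) (nat_lit 15) (nat_lit 2))))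
  (@Cl.mk (nat_lit 0x20008000e00080002000b0007000b000b00080005000800050005000e0009) (nat_lit 0x392010564050042) (nat_lit 16) Lb.e (@T16.mk En
    (@En.n l13015 (nat_lit 4837) (nat_lit 4) (nat_lit 9))
    (@En.n l13016 (nat_lit 3176) (nat_lit 1) (nat_lit 14))
    (@En.n l13017 (nat_lit 5226) (nat_lit 2) (nat_lit 5))
    (@En.n l13018 (nat_lit 9504) (nat_lit 3) (nat_lit 5))
    (@En.n l117 (nat_lit 3997) (nat_lit 4) (nat_lit 8))
    (@En.n l575 (nat_lit 4995) (nat_lit 9) (nat_lit 5))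
    (@En.n l13019 (nat_lit 7182) (nat_lit 6) (nat_lit 8))
    (@En.n l11881 (nat_lit 5220) (nat_lit 8) (nat_lit 11))
    (@En.i (nat_lit 2366) (nat_lit 9) (nat_lit 11))
    (@En.n l2068 (nat_lit 9886) (nat_lit 14) (nat_lit 7))
    (@En.n l13020 (nat_lit 5221) (nat_lit 11) (nat_lit 11))
    (@En.n l3 (nat_lit 5223) (nat_lit 11) (nat_lit 2))
    (@En.n l13021 (nat_lit 5221) (nat_lit 13) (nat_lit 8))
    (@En.i (nat_lit 12535) (nat_lit 1) (nat_lit 14))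
    (@En.n l13022 (nat_lit 5274) (nat_lit 2) (nat_lit 8))
    (@En.n l17 (nat_lit 5223) (nat_lit 15) (nat_lit 2))))
  (@Cl.mk (nat_lit 0x200080006000900090006000e000a0002000800070007000a0006000e000a) (nat_lit 0x4027076040000b5) (nat_lit 16) Lb.e (@T16.mk En
    (@En.n l13222 (nat_lit 5221) (nat_lit 9) (nat_lit 10))
    (@En.n l13223 (nat_lit 1859) (nat_lit 10) (nat_lit 14))
    (@En.n l10453 (nat_lit 8179) (nat_lit 2) (nat_lit 6))
    (@En.n l9991 (nat_lit 5225) (nat_lit 3) (nat_lit 10))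
    (@En.n l1055 (nat_lit 5225) (nat_lit 4) (nat_lit 7))
    (@En.n l5973 (nat_lit 4550) (nat_lit 14) (nat_lit 7))
    (@En.n l13224 (nat_lit 4639) (nat_lit 6) (nat_lit 8))
    (@En.n l67 (nat_lit 5224) (nat_lit 7) (nat_lit 2))
    (@En.n l13225 (nat_lit 5227) (nat_lit 9) (nat_lit 10))
    (@En.n l13224 (nat_lit 1976) (nat_lit 10) (nat_lit 14))
    (@En.n l13226 (nat_lit 9868) (nat_lit 2) (nat_lit 6))
    (@En.n l926 (nat_lit 5226) (nat_lit 3) (nat_lit 9))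
    (@En.n l13227 (nat_lit 4890) (nat_lit 4) (nat_lit 9))
    (@En.n l13228 (nat_lit 4989) (nat_lit 14) (nat_lit 6))
    (@En.n l13229 (nat_lit 6927) (nat_lit 6) (nat_lit 8))
    (@En.n l7 (nat_lit 5224) (nat_lit 15) (nat_lit 2))))
  (@Cl.mk (nat_lit 0x200070006000e000900020007000e000b000200090007000a0005000e0009) (nat_lit 0x1300170408094) (nat_lit 16) Lb.e (@T16.mk En
    (@En.n l24878 (nat_lit 5222) (nat_lit 5) (nat_lit 9))
    (@En.n l763 (nat_lit 1861) (nat_lit 1) (nat_lit 14))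
    (@En.i (nat_lit 8176) (nat_lit 2) (nat_lit 5))
    (@En.n l848 (nat_lit 13900) (nat_lit 8) (nat_lit 10))
    (@En.n l18587 (nat_lit 4558) (nat_lit 14) (nat_lit 7))
    (@En.n l9435 (nat_lit 4640) (nat_lit 5) (nat_lit 9))
    (@En.n l50 (nat_lit 5225) (nat_lit 6) (nat_lit 2))
    (@En.n l217 (nat_lit 5228) (nat_lit 13) (nat_lit 11))
    (@En.n l24879 (nat_lit 1977) (nat_lit 9) (nat_lit 14))
    (@En.i (nat_lit 9867) (nat_lit 2) (nat_lit 7))
    (@En.n l28 (nat_lit 5225) (nat_lit 10) (nat_lit 2))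
    (@En.n l13484 (nat_lit 5224) (nat_lit 12) (nat_lit 9))
    (@En.n l4749 (nat_lit 3168) (nat_lit 13) (nat_lit 14))
    (@En.n l2303 (nat_lit 4992) (nat_lit 14) (nat_lit 6))
    (@En.n l3266 (nat_lit 6934) (nat_lit 3) (nat_lit 7))
    (@En.n l3 (nat_lit 5225) (nat_lit 15) (nat_lit 2))))
  (@Cl.mk (nat_lit 0x20007000e00070002000a0007000e000b00020009000600090005000e0009) (nat_lit 0xa0010b60506015) (nat_lit 16) Lb.e (@T16.mk En
    (@En.n l152 (nat_lit 5229) (nat_lit 4) (nat_lit 9))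
    (@En.n l5137 (nat_lit 1978) (nat_lit 1) (nat_lit 14))
    (@En.n l5138 (nat_lit 11518) (nat_lit 2) (nat_lit 5))
    (@En.i (nat_lit 4887) (nat_lit 3) (nat_lit 9))
    (@En.n l5139 (nat_lit 4988) (nat_lit 14) (nat_lit 6))
    (@En.n l5140 (nat_lit 6928) (nat_lit 5) (nat_lit 9))
    (@En.n l11 (nat_lit 5226) (nat_lit 6) (nat_lit 2))
    (@En.n l5141 (nat_lit 5223) (nat_lit 8) (nat_lit 11))
    (@En.n l3062 (nat_lit 1864) (nat_lit 9) (nat_lit 14))
    (@En.n l3066 (nat_lit 9888) (nat_lit 14) (nat_lit 7))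
    (@En.n l5142 (nat_lit 5224) (nat_lit 3) (nat_lit 10))
    (@En.n l18 (nat_lit 5226) (nat_lit 11) (nat_lit 2))
    (@En.n l5143 (nat_lit 5224) (nat_lit 5) (nat_lit 7))
    (@En.n l3066 (nat_lit 12555) (nat_lit 7) (nat_lit 14))
    (@En.n l3067 (nat_lit 4641) (nat_lit 2) (nat_lit 7))
    (@En.n l3 (nat_lit 5226) (nat_lit 15) (nat_lit 2))))
  (@Cl.mk (nat_lit 0x200090007000a000a0006000a000a000700060006000900060006000e000a) (nat_lit 0x2078055000000a6) (nat_lit 16) Lb.e (@T16.mk En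
    (@En.i (nat_lit 4835) (nat_lit 13) (nat_lit 10))
    (@En.n l619 (nat_lit 1779) (nat_lit 1) (nat_lit 14))
    (@En.n l26958 (nat_lit 5224) (nat_lit 2) (nat_lit 6))
    (@En.n l26959 (nat_lit 9324) (nat_lit 3) (nat_lit 6))
    (@En.n l26960 (nat_lit 5228) (nat_lit 9) (nat_lit 9))
    (@En.n l26961 (nat_lit 5228) (nat_lit 10) (nat_lit 6))
    (@En.n l26962 (nat_lit 4703) (nat_lit 6) (nat_lit 6))
    (@En.n l476 (nat_lit 5234) (nat_lit 7) (nat_lit 7))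
    (@En.n l152 (nat_lit 5230) (nat_lit 9) (nat_lit 10))
    (@En.n l26962 (nat_lit 3317) (nat_lit 10) (nat_lit 10))
    (@En.n l26963 (nat_lit 9389) (nat_lit 11) (nat_lit 6))
    (@En.n l2337 (nat_lit 5229) (nat_lit 6) (nat_lit 10))
    (@En.i (nat_lit 4889) (nat_lit 8) (nat_lit 10))
    (@En.n l1599 (nat_lit 4986) (nat_lit 14) (nat_lit 7))
    (@En.n l26964 (nat_lit 2023) (nat_lit 3) (nat_lit 9))
    (@En.n l11 (nat_lit 5227) (nat_lit 15) (nat_lit 2))))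
  (@Cl.mk (nat_lit 0x20007000b000b00080006000900050005000e0009000200080007000e000a) (nat_lit 0x66307009502018) (nat_lit 16) Lb.e (@T16.mk En
    (@En.n l27173 (nat_lit 5227) (nat_lit 12) (nat_lit 10))
    (@En.n l25108 (nat_lit 3170) (nat_lit 13) (nat_lit 14))
    (@En.n l12156 (nat_lit 4874) (nat_lit 2) (nat_lit 7))
    (@En.i (nat_lit 6939) (nat_lit 3) (nat_lit 8))
    (@En.n l3 (nat_lit 5228) (nat_lit 4) (nat_lit 2))
    (@En.n l6080 (nat_lit 4836) (nat_lit 5) (nat_lit 9))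
    (@En.n l18627 (nat_lit 1778) (nat_lit 1) (nat_lit 14))
    (@En.n l2172 (nat_lit 5225) (nat_lit 2) (nat_lit 5))
    (@En.i (nat_lit 9321) (nat_lit 3) (nat_lit 5))
    (@En.i (nat_lit 13757) (nat_lit 9) (nat_lit 9))
    (@En.n l27174 (nat_lit 4702) (nat_lit 5) (nat_lit 6))
    (@En.n l742 (nat_lit 5238) (nat_lit 6) (nat_lit 8))
    (@En.n l25107 (nat_lit 5231) (nat_lit 13) (nat_lit 11))
    (@En.n l27174 (nat_lit 3315) (nat_lit 9) (nat_lit 11))
    (@En.n l5911 (nat_lit 9656) (nat_lit 10) (nat_lit 7))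
    (@En.n l28 (nat_lit 5228) (nat_lit 15) (nat_lit 2))))
  (@Cl.mk (nat_lit 0x2000900070007000e000b0002000a0007000a0005000900090006000e0006) (nat_lit 0x100570207044080) (nat_lit 16) Lb.e (@T16.mk En
    (@En.n l7 (nat_lit 5227) (nat_lit 6) (nat_lit 6))
    (@En.n l396 (nat_lit 12534) (nat_lit 8) (nat_lit 14))
    (@En.n l476 (nat_lit 5233) (nat_lit 2) (nat_lit 6))
    (@En.n l152 (nat_lit 5232) (nat_lit 3) (nat_lit 9))
    (@En.i (nat_lit 3316) (nat_lit 4) (nat_lit 9))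
    (@En.i (nat_lit 11521) (nat_lit 5) (nat_lit 5))
    (@En.i (nat_lit 4884) (nat_lit 8) (nat_lit 10))
    (@En.n l4869 (nat_lit 4985) (nat_lit 14) (nat_lit 7))
    (@En.i (nat_lit 6926) (nat_lit 9) (nat_lit 10))
    (@En.n l11 (nat_lit 5229) (nat_lit 9) (nat_lit 2))
    (@En.i (nat_lit 4837) (nat_lit 11) (nat_lit 11))
    (@En.n l619 (nat_lit 1807) (nat_lit 12) (nat_lit 14))
    (@En.i (nat_lit 5226) (nat_lit 9) (nat_lit 7))
    (@En.n l8932 (nat_lit 12843) (nat_lit 14) (nat_lit 7))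
    (@En.n l4600 (nat_lit 5227) (nat_lit 4) (nat_lit 9))
    (@En.n l18 (nat_lit 5229) (nat_lit 15) (nat_lit 2))))
  (@Cl.mk (nat_lit 0x2000a0008000b000b0006000a0006000500050008000e00060002000e000a) (nat_lit 0x2383040000c0087) (nat_lit 16) Lb.e (@T16.mk En
    (@En.i (nat_lit 4833) (nat_lit 14) (nat_lit 10))
    (@En.n l8283 (nat_lit 1480) (nat_lit 1) (nat_lit 14))
    (@En.n l3 (nat_lit 5230) (nat_lit 2) (nat_lit 2))
    (@En.i (nat_lit 5227) (nat_lit 3) (nat_lit 6))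
    (@En.n l8283 (nat_lit 5617) (nat_lit 5) (nat_lit 14))
    (@En.n l2114 (nat_lit 5231) (nat_lit 10) (nat_lit 8))
    (@En.n l1959 (nat_lit 5231) (nat_lit 11) (nat_lit 5))
    (@En.n l26591 (nat_lit 3415) (nat_lit 7) (nat_lit 5))
    (@En.n l2568 (nat_lit 931) (nat_lit 8) (nat_lit 6))
    (@En.n l2900 (nat_lit 3325) (nat_lit 10) (nat_lit 10))
    (@En.n l26592 (nat_lit 9658) (nat_lit 7) (nat_lit 6))
    (@En.n l2337 (nat_lit 5232) (nat_lit 5) (nat_lit 11))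
    (@En.i (nat_lit 4893) (nat_lit 13) (nat_lit 11))
    (@En.n l1599 (nat_lit 4984) (nat_lit 14) (nat_lit 8))
    (@En.n l28 (nat_lit 2018) (nat_lit 12) (nat_lit 10))
    (@En.n l11 (nat_lit 5230) (nat_lit 15) (nat_lit 2))))
  (@Cl.mk (nat_lit 0x20007000b000700050008000e00050002000e0009000200090008000e000b) (nat_lit 0x5006c002602389) (nat_lit 16) Lb.e (@T16.mk En
    (@En.n l1708 (nat_lit 5230) (nat_lit 12) (nat_lit 11))
    (@En.n l1527 (nat_lit 5251) (nat_lit 13) (nat_lit 14))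
    (@En.n l890 (nat_lit 4987) (nat_lit 2) (nat_lit 8))
    (@En.n l2650 (nat_lit 2020) (nat_lit 3) (nat_lit 9))
    (@En.n l11 (nat_lit 5231) (nat_lit 4) (nat_lit 2))
    (@En.n l31335 (nat_lit 4834) (nat_lit 5) (nat_lit 9))
    (@En.i (nat_lit 1433) (nat_lit 1) (nat_lit 14))
    (@En.n l3 (nat_lit 5231) (nat_lit 7) (nat_lit 2))
    (@En.n l16824 (nat_lit 5228) (nat_lit 8) (nat_lit 5))
    (@En.n l3486 (nat_lit 5620) (nat_lit 10) (nat_lit 14))
    (@En.n l699 (nat_lit 13772) (nat_lit 10) (nat_lit 8))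
    (@En.n l1527 (nat_lit 3414) (nat_lit 6) (nat_lit 5))
    (@En.i (nat_lit 932) (nat_lit 13) (nat_lit 7))
    (@En.n l1527 (nat_lit 3327) (nat_lit 9) (nat_lit 11))
    (@En.n l3213 (nat_lit 9657) (nat_lit 6) (nat_lit 7))
    (@En.n l18 (nat_lit 5231) (nat_lit 15) (nat_lit 2))))
noncomputable def a327 : T16 Cl := @T16.mk Cl
  (@Cl.mk (nat_lit 0x20008000e00070002000e000b0002000b0008000b000500090005000e0005) (nat_lit 0x1c0098022203090) (nat_lit 16) Lb.e (@T16.mk En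
    (@En.n l7 (nat_lit 5230) (nat_lit 7) (nat_lit 5))
    (@En.n l396 (nat_lit 12538) (nat_lit 9) (nat_lit 14))
    (@En.n l10348 (nat_lit 5759) (nat_lit 2) (nat_lit 5))
    (@En.i (nat_lit 3332) (nat_lit 3) (nat_lit 9))
    (@En.i (nat_lit 6723) (nat_lit 4) (nat_lit 5))
    (@En.i (nat_lit 4845) (nat_lit 13) (nat_lit 11))
    (@En.n l4869 (nat_lit 4983) (nat_lit 6) (nat_lit 8))
    (@En.i (nat_lit 2017) (nat_lit 12) (nat_lit 11))
    (@En.n l11 (nat_lit 5232) (nat_lit 8) (nat_lit 2))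
    (@En.i (nat_lit 4838) (nat_lit 10) (nat_lit 11))
    (@En.i (nat_lit 1471) (nat_lit 1) (nat_lit 14))
    (@En.n l3 (nat_lit 5232) (nat_lit 11) (nat_lit 2))
    (@En.i (nat_lit 5229) (nat_lit 13) (nat_lit 7))
    (@En.i (nat_lit 5622) (nat_lit 5) (nat_lit 14))
    (@En.n l4600 (nat_lit 5230) (nat_lit 5) (nat_lit 8))
    (@En.n l18 (nat_lit 5232) (nat_lit 15) (nat_lit 2))))
  (@Cl.mk (nat_lit 0x200080006000b000e000a0002000a00050008000b0006000a0006000e0005) (nat_lit 0x5a70603301080) (nat_lit 16) Lb.e (@T16.mk En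
    (@En.n l7 (nat_lit 5234) (nat_lit 6) (nat_lit 5))
    (@En.n l396 (nat_lit 10988) (nat_lit 8) (nat_lit 14))
    (@En.n l11236 (nat_lit 5754) (nat_lit 2) (nat_lit 6))
    (@En.i (nat_lit 2220) (nat_lit 3) (nat_lit 10))
    (@En.i (nat_lit 11530) (nat_lit 4) (nat_lit 6))
    (@En.n l2738 (nat_lit 7166) (nat_lit 7) (nat_lit 11))
    (@En.i (nat_lit 5232) (nat_lit 6) (nat_lit 8))
    (@En.n l12031 (nat_lit 5235) (nat_lit 14) (nat_lit 5))
    (@En.n l14798 (nat_lit 6924) (nat_lit 9) (nat_lit 10))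
    (@En.n l11 (nat_lit 5233) (nat_lit 9) (nat_lit 2))
    (@En.i (nat_lit 5241) (nat_lit 11) (nat_lit 10))
    (@En.n l158 (nat_lit 1805) (nat_lit 12) (nat_lit 14))
    (@En.n l4851 (nat_lit 5276) (nat_lit 13) (nat_lit 11))
    (@En.n l3258 (nat_lit 12841) (nat_lit 14) (nat_lit 6))
    (@En.n l4600 (nat_lit 5234) (nat_lit 4) (nat_lit 8))
    (@En.n l18 (nat_lit 5233) (nat_lit 15) (nat_lit 2))))
  (@Cl.mk (nat_lit 0x2000900050008000b000b0007000b00070005000500080005000b000e0009) (nat_lit 0x604040500060496) (nat_lit 16) Lb.e (@T16.mk En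
    (@En.n l31962 (nat_lit 5240) (nat_lit 2) (nat_lit 9))
    (@En.n l8283 (nat_lit 1806) (nat_lit 4) (nat_lit 14))
    (@En.n l26477 (nat_lit 4643) (nat_lit 2) (nat_lit 11))
    (@En.n l31963 (nat_lit 9325) (nat_lit 3) (nat_lit 5))
    (@En.n l31964 (nat_lit 5238) (nat_lit 4) (nat_lit 8))
    (@En.n l31965 (nat_lit 5238) (nat_lit 5) (nat_lit 5))
    (@En.n l8283 (nat_lit 11604) (nat_lit 6) (nat_lit 5))
    (@En.n l1735 (nat_lit 933) (nat_lit 7) (nat_lit 7))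
    (@En.n l8283 (nat_lit 2218) (nat_lit 9) (nat_lit 11))
    (@En.n l23838 (nat_lit 9649) (nat_lit 10) (nat_lit 7))
    (@En.n l2337 (nat_lit 5233) (nat_lit 5) (nat_lit 11))
    (@En.n l253 (nat_lit 7171) (nat_lit 7) (nat_lit 11))
    (@En.i (nat_lit 5230) (nat_lit 13) (nat_lit 8))
    (@En.n l31966 (nat_lit 5236) (nat_lit 14) (nat_lit 5))
    (@En.n l31967 (nat_lit 6922) (nat_lit 0) (nat_lit 9))
    (@En.n l11 (nat_lit 5234) (nat_lit 15) (nat_lit 2))))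
  (@Cl.mk (nat_lit 0x200050008000b0005000a0009000e0005000200080006000b0007000e000b) (nat_lit 0x200328000050b6) (nat_lit 16) Lb.e (@T16.mk En
    (@En.i (nat_lit 5244) (nat_lit 10) (nat_lit 11))
    (@En.n l5595 (nat_lit 5233) (nat_lit 11) (nat_lit 14))
    (@En.n l2912 (nat_lit 5229) (nat_lit 12) (nat_lit 7))
    (@En.n l245 (nat_lit 5277) (nat_lit 3) (nat_lit 11))
    (@En.n l5592 (nat_lit 12842) (nat_lit 4) (nat_lit 6))
    (@En.n l3100 (nat_lit 5236) (nat_lit 5) (nat_lit 8))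
    (@En.n l28 (nat_lit 5235) (nat_lit 6) (nat_lit 2))
    (@En.n l5611 (nat_lit 5236) (nat_lit 7) (nat_lit 5))
    (@En.i (nat_lit 10989) (nat_lit 9) (nat_lit 14))
    (@En.n l12896 (nat_lit 7788) (nat_lit 10) (nat_lit 9))
    (@En.n l3337 (nat_lit 2656) (nat_lit 11) (nat_lit 10))
    (@En.i (nat_lit 11529) (nat_lit 4) (nat_lit 5))
    (@En.i (nat_lit 7167) (nat_lit 13) (nat_lit 11))
    (@En.n l12896 (nat_lit 5904) (nat_lit 14) (nat_lit 8))
    (@En.i (nat_lit 5076) (nat_lit 7) (nat_lit 5))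
    (@En.n l3 (nat_lit 5235) (nat_lit 15) (nat_lit 2))))
  (@Cl.mk (nat_lit 0x200050008000b000b0006000b000a0005000500080005000b0006000e000a) (nat_lit 0x301012006040a7) (nat_lit 16) Lb.e (@T16.mk En
    (@En.n l6698 (nat_lit 5239) (nat_lit 1) (nat_lit 10))
    (@En.n l16636 (nat_lit 5234) (nat_lit 1) (nat_lit 14))
    (@En.n l40085 (nat_lit 5227) (nat_lit 2) (nat_lit 6))
    (@En.n l250 (nat_lit 4642) (nat_lit 3) (nat_lit 11))
    (@En.n l29376 (nat_lit 9326) (nat_lit 4) (nat_lit 5))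
    (@En.n l11 (nat_lit 5237) (nat_lit 5) (nat_lit 8))
    (@En.n l55 (nat_lit 5237) (nat_lit 6) (nat_lit 5))
    (@En.n l16808 (nat_lit 11608) (nat_lit 7) (nat_lit 5))
    (@En.n l26196 (nat_lit 7785) (nat_lit 9) (nat_lit 10))
    (@En.n l2544 (nat_lit 776) (nat_lit 10) (nat_lit 11))
    (@En.i (nat_lit 9647) (nat_lit 11) (nat_lit 6))
    (@En.n l6697 (nat_lit 5235) (nat_lit 12) (nat_lit 11))
    (@En.n l6698 (nat_lit 7172) (nat_lit 13) (nat_lit 11))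
    (@En.n l26196 (nat_lit 5254) (nat_lit 10) (nat_lit 8))
    (@En.i (nat_lit 5075) (nat_lit 13) (nat_lit 5))
    (@En.n l3 (nat_lit 5236) (nat_lit 15) (nat_lit 2))))
  (@Cl.mk (nat_lit 0x200050008000e000b00020007000c000b000500080004000b0005000e0009) (nat_lit 0x3b1001205030b6) (nat_lit 16) Lb.e (@T16.mk En
    (@En.i (nat_lit 5243) (nat_lit 5) (nat_lit 9))
    (@En.i (nat_lit 5238) (nat_lit 1) (nat_lit 14))
    (@En.n l50 (nat_lit 5228) (nat_lit 7) (nat_lit 5))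
    (@En.n l250 (nat_lit 5266) (nat_lit 3) (nat_lit 11))
    (@En.n l50 (nat_lit 9322) (nat_lit 4) (nat_lit 4))
    (@En.i (nat_lit 13776) (nat_lit 10) (nat_lit 8))
    (@En.i (nat_lit 10980) (nat_lit 6) (nat_lit 5))
    (@En.n l217 (nat_lit 7783) (nat_lit 8) (nat_lit 11))
    (@En.n l2544 (nat_lit 777) (nat_lit 9) (nat_lit 12))
    (@En.i (nat_lit 9645) (nat_lit 10) (nat_lit 7))
    (@En.n l28 (nat_lit 5237) (nat_lit 10) (nat_lit 2))
    (@En.i (nat_lit 5236) (nat_lit 12) (nat_lit 11))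
    (@En.n l1578 (nat_lit 7733) (nat_lit 13) (nat_lit 14))
    (@En.n l2039 (nat_lit 5255) (nat_lit 2) (nat_lit 8))
    (@En.i (nat_lit 5077) (nat_lit 3) (nat_lit 5))
    (@En.n l3 (nat_lit 5237) (nat_lit 15) (nat_lit 2))))
  (@Cl.mk (nat_lit 0x2000800050008000e000b00020008000c0008000500080004000b000e0008) (nat_lit 0x6040104120503a5) (nat_lit 16) Lb.e (@T16.mk En
    (@En.n l24652 (nat_lit 5242) (nat_lit 6) (nat_lit 8))
    (@En.n l3324 (nat_lit 1787) (nat_lit 4) (nat_lit 14))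
    (@En.n l250 (nat_lit 5267) (nat_lit 2) (nat_lit 11))
    (@En.n l50 (nat_lit 9323) (nat_lit 3) (nat_lit 4))
    (@En.i (nat_lit 13777) (nat_lit 10) (nat_lit 8))
    (@En.n l11003 (nat_lit 10978) (nat_lit 5) (nat_lit 5))
    (@En.i (nat_lit 5757) (nat_lit 6) (nat_lit 8))
    (@En.n l11003 (nat_lit 2219) (nat_lit 8) (nat_lit 12))
    (@En.n l3327 (nat_lit 9650) (nat_lit 9) (nat_lit 8))
    (@En.n l28 (nat_lit 5238) (nat_lit 9) (nat_lit 2))
    (@En.n l16636 (nat_lit 5234) (nat_lit 11) (nat_lit 11))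
    (@En.n l1578 (nat_lit 7734) (nat_lit 12) (nat_lit 14))
    (@En.n l8769 (nat_lit 5231) (nat_lit 2) (nat_lit 8))
    (@En.n l17 (nat_lit 5237) (nat_lit 14) (nat_lit 5))
    (@En.i (nat_lit 6921) (nat_lit 4) (nat_lit 8))
    (@En.n l3 (nat_lit 5238) (nat_lit 15) (nat_lit 2))))
  (@Cl.mk (nat_lit 0x40007000a000a00060006000b000a0006000600090005000c0006000a000a) (nat_lit 0x70002300005061) (nat_lit 16) Lb.e (@T16.mk En
    (@En.n l39926 (nat_lit 5214) (nat_lit 6) (nat_lit 10))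
    (@En.n l26178 (nat_lit 1737) (nat_lit 1) (nat_lit 10))
    (@En.n l7882 (nat_lit 4835) (nat_lit 14) (nat_lit 6))
    (@En.n l39927 (nat_lit 5265) (nat_lit 3) (nat_lit 12))
    (@En.n l25946 (nat_lit 9332) (nat_lit 4) (nat_lit 5))
    (@En.n l2491 (nat_lit 5243) (nat_lit 9) (nat_lit 9))
    (@En.n l7129 (nat_lit 5243) (nat_lit 10) (nat_lit 6))
    (@En.n l39928 (nat_lit 11610) (nat_lit 7) (nat_lit 6))
    (@En.n l12896 (nat_lit 5690) (nat_lit 6) (nat_lit 10))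
    (@En.n l39929 (nat_lit 5986) (nat_lit 9) (nat_lit 11))
    (@En.n l16341 (nat_lit 5236) (nat_lit 10) (nat_lit 6))
    (@En.n l5611 (nat_lit 9713) (nat_lit 12) (nat_lit 6))
    (@En.n l55 (nat_lit 5244) (nat_lit 6) (nat_lit 10))
    (@En.i (nat_lit 7176) (nat_lit 8) (nat_lit 10))
    (@En.n l12896 (nat_lit 5021) (nat_lit 11) (nat_lit 7))
    (@En.n l39930 (nat_lit 4935) (nat_lit 15) (nat_lit 4))))
  (@Cl.mk (nat_lit 0x40007000a000a00070007000b00080006000600090005000c000900090008) (nat_lit 0x4006100005526) (nat_lit 16) Lb.e (@T16.mk En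
    (@En.n l6981 (nat_lit 1743) (nat_lit 0) (nat_lit 8))
    (@En.n l55 (nat_lit 5212) (nat_lit 7) (nat_lit 9))
    (@En.n l6981 (nat_lit 5101) (nat_lit 7) (nat_lit 9))
    (@En.n l25734 (nat_lit 5245) (nat_lit 3) (nat_lit 12))
    (@En.n l1643 (nat_lit 9329) (nat_lit 4) (nat_lit 5))
    (@En.n l3 (nat_lit 5242) (nat_lit 9) (nat_lit 9))
    (@En.n l527 (nat_lit 5242) (nat_lit 10) (nat_lit 6))
    (@En.n l25735 (nat_lit 11605) (nat_lit 7) (nat_lit 6))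
    (@En.n l13087 (nat_lit 48) (nat_lit 0) (nat_lit 8))
    (@En.n l7477 (nat_lit 7809) (nat_lit 8) (nat_lit 11))
    (@En.n l25736 (nat_lit 5234) (nat_lit 9) (nat_lit 7))
    (@En.n l25737 (nat_lit 9480) (nat_lit 12) (nat_lit 7))
    (@En.n l25738 (nat_lit 5241) (nat_lit 6) (nat_lit 10))
    (@En.n l25739 (nat_lit 7177) (nat_lit 8) (nat_lit 10))
    (@En.n l25740 (nat_lit 4833) (nat_lit 11) (nat_lit 7))
    (@En.n l25741 (nat_lit 5239) (nat_lit 15) (nat_lit 4))))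
  (@Cl.mk (nat_lit 0x200090006000c000a000a000900040007000a00060006000a0007000e0006) (nat_lit 0x105641003002020) (nat_lit 16) Lb.e (@T16.mk En
    (@En.n l12030 (nat_lit 5240) (nat_lit 7) (nat_lit 6))
    (@En.n l8524 (nat_lit 10991) (nat_lit 1) (nat_lit 14))
    (@En.n l4503 (nat_lit 5752) (nat_lit 2) (nat_lit 7))
    (@En.n l117 (nat_lit 7810) (nat_lit 3) (nat_lit 10))
    (@En.n l575 (nat_lit 5233) (nat_lit 4) (nat_lit 6))
    (@En.n l8184 (nat_lit 9508) (nat_lit 5) (nat_lit 6))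
    (@En.n l2738 (nat_lit 7164) (nat_lit 8) (nat_lit 10))
    (@En.i (nat_lit 4838) (nat_lit 7) (nat_lit 7))
    (@En.n l12031 (nat_lit 5244) (nat_lit 8) (nat_lit 4))
    (@En.n l12032 (nat_lit 1745) (nat_lit 10) (nat_lit 9))
    (@En.n l12033 (nat_lit 5211) (nat_lit 11) (nat_lit 10))
    (@En.n l4507 (nat_lit 5100) (nat_lit 12) (nat_lit 10))
    (@En.n l4504 (nat_lit 5275) (nat_lit 13) (nat_lit 12))
    (@En.n l4508 (nat_lit 11513) (nat_lit 14) (nat_lit 6))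
    (@En.n l12034 (nat_lit 5240) (nat_lit 5) (nat_lit 9))
    (@En.n l18 (nat_lit 5241) (nat_lit 15) (nat_lit 2))))
  (@Cl.mk (nat_lit 0x200080008000c0009000600090004000c00080008000700040007000e000a) (nat_lit 0x657307044200031) (nat_lit 16) Lb.e (@T16.mk En
    (@En.i (nat_lit 5240) (nat_lit 13) (nat_lit 10))
    (@En.n l97 (nat_lit 7732) (nat_lit 1) (nat_lit 14))
    (@En.n l22481 (nat_lit 4834) (nat_lit 2) (nat_lit 7))
    (@En.n l13052 (nat_lit 5243) (nat_lit 3) (nat_lit 4))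
    (@En.n l6981 (nat_lit 5360) (nat_lit 4) (nat_lit 7))
    (@En.n l55 (nat_lit 5216) (nat_lit 8) (nat_lit 8))
    (@En.n l6981 (nat_lit 2892) (nat_lit 6) (nat_lit 8))
    (@En.n l5 (nat_lit 5262) (nat_lit 8) (nat_lit 12))
    (@En.n l1643 (nat_lit 9328) (nat_lit 8) (nat_lit 4))
    (@En.n l13066 (nat_lit 13782) (nat_lit 9) (nat_lit 9))
    (@En.n l22482 (nat_lit 12210) (nat_lit 11) (nat_lit 6))
    (@En.n l217 (nat_lit 5758) (nat_lit 12) (nat_lit 9))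
    (@En.n l7477 (nat_lit 7811) (nat_lit 13) (nat_lit 12))
    (@En.n l22483 (nat_lit 5238) (nat_lit 8) (nat_lit 8))
    (@En.n l7477 (nat_lit 9476) (nat_lit 5) (nat_lit 8))
    (@En.n l107 (nat_lit 5242) (nat_lit 15) (nat_lit 2))))
  (@Cl.mk (nat_lit 0x200070007000c000b000600090004000c00050009000900040007000e000a) (nat_lit 0x9307040500008) (nat_lit 16) Lb.e (@T16.mk En
    (@En.n l6698 (nat_lit 5239) (nat_lit 13) (nat_lit 10))
    (@En.n l1578 (nat_lit 7731) (nat_lit 1) (nat_lit 14))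
    (@En.n l23863 (nat_lit 5258) (nat_lit 2) (nat_lit 7))
    (@En.n l3928 (nat_lit 4933) (nat_lit 3) (nat_lit 4))
    (@En.n l37892 (nat_lit 5680) (nat_lit 7) (nat_lit 9))
    (@En.n l23863 (nat_lit 4931) (nat_lit 5) (nat_lit 9))
    (@En.n l3928 (nat_lit 4836) (nat_lit 6) (nat_lit 5))
    (@En.n l250 (nat_lit 5264) (nat_lit 8) (nat_lit 12))
    (@En.n l50 (nat_lit 9331) (nat_lit 8) (nat_lit 4))
    (@En.i (nat_lit 13786) (nat_lit 9) (nat_lit 9))
    (@En.n l13132 (nat_lit 12216) (nat_lit 11) (nat_lit 6))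
    (@En.n l217 (nat_lit 5693) (nat_lit 12) (nat_lit 11))
    (@En.n l899 (nat_lit 7877) (nat_lit 13) (nat_lit 12))
    (@En.n l152 (nat_lit 5237) (nat_lit 9) (nat_lit 7))
    (@En.i (nat_lit 9571) (nat_lit 5) (nat_lit 7))
    (@En.n l28 (nat_lit 5243) (nat_lit 15) (nat_lit 2))))
  (@Cl.mk (nat_lit 0x200090006000c0007000b000b00040007000a00050005000a0009000e0006) (nat_lit 0x106051008007330) (nat_lit 16) Lb.e (@T16.mk En
    (@En.i (nat_lit 5239) (nat_lit 7) (nat_lit 6))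
    (@En.n l6826 (nat_lit 8054) (nat_lit 1) (nat_lit 14))
    (@En.n l25493 (nat_lit 7793) (nat_lit 2) (nat_lit 9))
    (@En.n l899 (nat_lit 5987) (nat_lit 3) (nat_lit 10))
    (@En.n l152 (nat_lit 5235) (nat_lit 11) (nat_lit 5))
    (@En.n l25494 (nat_lit 9510) (nat_lit 5) (nat_lit 5))
    (@En.i (nat_lit 7079) (nat_lit 8) (nat_lit 10))
    (@En.n l25493 (nat_lit 5905) (nat_lit 11) (nat_lit 7))
    (@En.n l2125 (nat_lit 5281) (nat_lit 8) (nat_lit 4))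
    (@En.n l3536 (nat_lit 5213) (nat_lit 10) (nat_lit 11))
    (@En.n l25495 (nat_lit 5416) (nat_lit 11) (nat_lit 11))
    (@En.n l2912 (nat_lit 4837) (nat_lit 12) (nat_lit 7))
    (@En.n l245 (nat_lit 5278) (nat_lit 13) (nat_lit 12))
    (@En.n l5592 (nat_lit 11515) (nat_lit 14) (nat_lit 6))
    (@En.n l3506 (nat_lit 5239) (nat_lit 5) (nat_lit 9))
    (@En.n l28 (nat_lit 5244) (nat_lit 15) (nat_lit 2))))
  (@Cl.mk (nat_lit 0x4000a0007000a000a0008000800060009000600060009000c000800080007) (nat_lit 0x707566030004410) (nat_lit 16) Lb.e (@T16.mk En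
    (@En.n l11165 (nat_lit 1739) (nat_lit 9) (nat_lit 7))
    (@En.n l20812 (nat_lit 5208) (nat_lit 8) (nat_lit 8))
    (@En.n l1001 (nat_lit 5081) (nat_lit 8) (nat_lit 8))
    (@En.i (nat_lit 9346) (nat_lit 6) (nat_lit 12))
    (@En.n l12953 (nat_lit 5262) (nat_lit 9) (nat_lit 9))
    (@En.n l12954 (nat_lit 5262) (nat_lit 10) (nat_lit 6))
    (@En.n l4966 (nat_lit 11606) (nat_lit 6) (nat_lit 6))
    (@En.i (nat_lit 5752) (nat_lit 9) (nat_lit 9))
    (@En.n l77 (nat_lit 4650) (nat_lit 10) (nat_lit 6))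
    (@En.n l8390 (nat_lit 4643) (nat_lit 8) (nat_lit 8))
    (@En.n l20813 (nat_lit 9422) (nat_lit 8) (nat_lit 8))
    (@En.n l40007 (nat_lit 5275) (nat_lit 6) (nat_lit 10))
    (@En.n l36277 (nat_lit 7437) (nat_lit 8) (nat_lit 10))
    (@En.n l40008 (nat_lit 5240) (nat_lit 14) (nat_lit 7))
    (@En.n l32872 (nat_lit 5260) (nat_lit 11) (nat_lit 10))
    (@En.n l11512 (nat_lit 5265) (nat_lit 15) (nat_lit 4))))
  (@Cl.mk (nat_lit 0x20007000e00070002000e000b0002000b000a0009000500090005000e0006) (nat_lit 0xb0019067201030) (nat_lit 16) Lb.e (@T16.mk En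
    (@En.n l2900 (nat_lit 4779) (nat_lit 7) (nat_lit 6))
    (@En.n l8171 (nat_lit 4961) (nat_lit 1) (nat_lit 14))
    (@En.n l947 (nat_lit 5249) (nat_lit 2) (nat_lit 5))
    (@En.n l22112 (nat_lit 2669) (nat_lit 3) (nat_lit 9))
    (@En.n l10795 (nat_lit 5597) (nat_lit 4) (nat_lit 5))
    (@En.n l22113 (nat_lit 4888) (nat_lit 5) (nat_lit 9))
    (@En.n l5909 (nat_lit 5316) (nat_lit 14) (nat_lit 10))
    (@En.n l22112 (nat_lit 7489) (nat_lit 12) (nat_lit 11))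
    (@En.n l11 (nat_lit 5246) (nat_lit 8) (nat_lit 2))
    (@En.n l16407 (nat_lit 3172) (nat_lit 10) (nat_lit 11))
    (@En.i (nat_lit 1552) (nat_lit 1) (nat_lit 14))
    (@En.n l3 (nat_lit 5246) (nat_lit 11) (nat_lit 2))
    (@En.n l24301 (nat_lit 3171) (nat_lit 13) (nat_lit 7))
    (@En.n l10795 (nat_lit 5834) (nat_lit 1) (nat_lit 14))
    (@En.n l33294 (nat_lit 5218) (nat_lit 5) (nat_lit 7))
    (@En.n l18 (nat_lit 5246) (nat_lit 15) (nat_lit 2))))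
  (@Cl.mk (nat_lit 0x20007000e000b0002000a000a000a0005000a0009000600060006000e0006) (nat_lit 0x330584015000b0) (nat_lit 16) Lb.e (@T16.mk En
    (@En.n l27887 (nat_lit 5730) (nat_lit 4) (nat_lit 6))
    (@En.n l8794 (nat_lit 8958) (nat_lit 1) (nat_lit 14))
    (@En.n l1935 (nat_lit 4822) (nat_lit 10) (nat_lit 6))
    (@En.n l27888 (nat_lit 5249) (nat_lit 3) (nat_lit 6))
    (@En.n l23137 (nat_lit 5617) (nat_lit 8) (nat_lit 6))
    (@En.i (nat_lit 4820) (nat_lit 5) (nat_lit 9))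
    (@En.n l2479 (nat_lit 2413) (nat_lit 11) (nat_lit 10))
    (@En.n l5802 (nat_lit 6476) (nat_lit 7) (nat_lit 5))
    (@En.n l742 (nat_lit 5716) (nat_lit 9) (nat_lit 10))
    (@En.n l396 (nat_lit 5125) (nat_lit 6) (nat_lit 10))
    (@En.n l7 (nat_lit 6521) (nat_lit 11) (nat_lit 10))
    (@En.n l28 (nat_lit 5247) (nat_lit 11) (nat_lit 2))
    (@En.i (nat_lit 5709) (nat_lit 13) (nat_lit 11))
    (@En.n l2479 (nat_lit 4779) (nat_lit 1) (nat_lit 14))
    (@En.n l107 (nat_lit 4875) (nat_lit 2) (nat_lit 7))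
    (@En.n l3 (nat_lit 5247) (nat_lit 15) (nat_lit 2))))
noncomputable def a328 : T16 Cl := @T16.mk Cl
  (@Cl.mk (nat_lit 0x2000a0006000b000b000b00070006000500050005000e000a0002000e0009) (nat_lit 0x501850000034036) (nat_lit 16) Lb.e (@T16.mk En
    (@En.i (nat_lit 5730) (nat_lit 14) (nat_lit 9))
    (@En.i (nat_lit 6288) (nat_lit 1) (nat_lit 14))
    (@En.n l3 (nat_lit 5248) (nat_lit 2) (nat_lit 2))
    (@En.i (nat_lit 5723) (nat_lit 3) (nat_lit 10))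
    (@En.n l3541 (nat_lit 3170) (nat_lit 1) (nat_lit 14))
    (@En.n l1778 (nat_lit 5728) (nat_lit 11) (nat_lit 5))
    (@En.n l2172 (nat_lit 5780) (nat_lit 6) (nat_lit 5))
    (@En.i (nat_lit 10120) (nat_lit 7) (nat_lit 5))
    (@En.i (nat_lit 4731) (nat_lit 8) (nat_lit 6))
    (@En.n l3541 (nat_lit 5588) (nat_lit 6) (nat_lit 7))
    (@En.n l742 (nat_lit 4844) (nat_lit 11) (nat_lit 11))
    (@En.n l5913 (nat_lit 5249) (nat_lit 5) (nat_lit 11))
    (@En.n l3011 (nat_lit 2039) (nat_lit 13) (nat_lit 11))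
    (@En.n l810 (nat_lit 8026) (nat_lit 14) (nat_lit 6))
    (@En.n l28 (nat_lit 5256) (nat_lit 12) (nat_lit 10))
    (@En.n l11 (nat_lit 5248) (nat_lit 15) (nat_lit 2))))
  (@Cl.mk (nat_lit 0x20006000e000a0002000e000a0002000b0006000b000a00060005000e0005) (nat_lit 0x260460507600b0) (nat_lit 16) Lb.e (@T16.mk En
    (@En.n l3323 (nat_lit 5248) (nat_lit 7) (nat_lit 5))
    (@En.n l8136 (nat_lit 9096) (nat_lit 9) (nat_lit 14))
    (@En.i (nat_lit 4728) (nat_lit 2) (nat_lit 5))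
    (@En.n l5854 (nat_lit 5612) (nat_lit 3) (nat_lit 6))
    (@En.n l14506 (nat_lit 4850) (nat_lit 4) (nat_lit 10))
    (@En.n l5854 (nat_lit 4618) (nat_lit 13) (nat_lit 11))
    (@En.n l250 (nat_lit 8074) (nat_lit 14) (nat_lit 6))
    (@En.n l14507 (nat_lit 5254) (nat_lit 8) (nat_lit 11))
    (@En.n l7 (nat_lit 5249) (nat_lit 8) (nat_lit 2))
    (@En.n l14002 (nat_lit 5247) (nat_lit 10) (nat_lit 10))
    (@En.i (nat_lit 6291) (nat_lit 1) (nat_lit 14))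
    (@En.n l11 (nat_lit 5249) (nat_lit 11) (nat_lit 2))
    (@En.n l2977 (nat_lit 5250) (nat_lit 13) (nat_lit 10))
    (@En.n l5854 (nat_lit 5251) (nat_lit 1) (nat_lit 14))
    (@En.n l253 (nat_lit 4973) (nat_lit 5) (nat_lit 6))
    (@En.n l3 (nat_lit 5249) (nat_lit 15) (nat_lit 2))))
  (@Cl.mk (nat_lit 0x20006000a000a000e00090002000a00060006000b000a00070006000e0005) (nat_lit 0x573601006700a0) (nat_lit 16) Lb.e (@T16.mk En
    (@En.n l16304 (nat_lit 5723) (nat_lit 6) (nat_lit 5))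
    (@En.n l16305 (nat_lit 8969) (nat_lit 8) (nat_lit 14))
    (@En.i (nat_lit 4673) (nat_lit 2) (nat_lit 6))
    (@En.n l16306 (nat_lit 5615) (nat_lit 3) (nat_lit 7))
    (@En.n l16307 (nat_lit 4849) (nat_lit 4) (nat_lit 10))
    (@En.i (nat_lit 7148) (nat_lit 12) (nat_lit 11))
    (@En.n l7645 (nat_lit 5249) (nat_lit 6) (nat_lit 6))
    (@En.n l16305 (nat_lit 8076) (nat_lit 14) (nat_lit 6))
    (@En.n l16308 (nat_lit 5021) (nat_lit 9) (nat_lit 10))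
    (@En.n l50 (nat_lit 5250) (nat_lit 9) (nat_lit 2))
    (@En.n l16309 (nat_lit 5709) (nat_lit 11) (nat_lit 9))
    (@En.n l16310 (nat_lit 6290) (nat_lit 12) (nat_lit 14))
    (@En.n l9493 (nat_lit 5712) (nat_lit 13) (nat_lit 10))
    (@En.i (nat_lit 7705) (nat_lit 3) (nat_lit 10))
    (@En.n l16311 (nat_lit 4967) (nat_lit 4) (nat_lit 6))
    (@En.n l11 (nat_lit 5250) (nat_lit 15) (nat_lit 2))))
  (@Cl.mk (nat_lit 0x20009000e000a0002000b0007000b000700060005000e00050002000e0009) (nat_lit 0x6780401000b0017) (nat_lit 16) Lb.e (@T16.mk En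
    (@En.i (nat_lit 3173) (nat_lit 14) (nat_lit 9))
    (@En.i (nat_lit 1556) (nat_lit 1) (nat_lit 14))
    (@En.n l50 (nat_lit 5251) (nat_lit 2) (nat_lit 2))
    (@En.n l28 (nat_lit 3170) (nat_lit 3) (nat_lit 5))
    (@En.n l601 (nat_lit 5735) (nat_lit 9) (nat_lit 14))
    (@En.n l12662 (nat_lit 3993) (nat_lit 5) (nat_lit 5))
    (@En.i (nat_lit 5328) (nat_lit 6) (nat_lit 6))
    (@En.n l2438 (nat_lit 5780) (nat_lit 7) (nat_lit 7))
    (@En.i (nat_lit 1371) (nat_lit 9) (nat_lit 11))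
    (@En.n l12850 (nat_lit 6965) (nat_lit 14) (nat_lit 7))
    (@En.n l12664 (nat_lit 5230) (nat_lit 11) (nat_lit 11))
    (@En.n l67 (nat_lit 5251) (nat_lit 11) (nat_lit 2))
    (@En.n l68 (nat_lit 4779) (nat_lit 13) (nat_lit 10))
    (@En.n l12665 (nat_lit 5043) (nat_lit 1) (nat_lit 14))
    (@En.i (nat_lit 5252) (nat_lit 12) (nat_lit 9))
    (@En.n l17 (nat_lit 5251) (nat_lit 15) (nat_lit 2))))
  (@Cl.mk (nat_lit 0x20006000a0009000e00090002000a0006000a0007000a00070006000e0006) (nat_lit 0x55c702070700a0) (nat_lit 16) Lb.e (@T16.mk En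
    (@En.n l39970 (nat_lit 7702) (nat_lit 6) (nat_lit 6))
    (@En.n l601 (nat_lit 11507) (nat_lit 8) (nat_lit 14))
    (@En.n l5200 (nat_lit 7696) (nat_lit 2) (nat_lit 6))
    (@En.n l1236 (nat_lit 8747) (nat_lit 3) (nat_lit 7))
    (@En.n l5200 (nat_lit 5249) (nat_lit 4) (nat_lit 10))
    (@En.n l8501 (nat_lit 5382) (nat_lit 5) (nat_lit 7))
    (@En.i (nat_lit 7516) (nat_lit 13) (nat_lit 10))
    (@En.n l12850 (nat_lit 12134) (nat_lit 14) (nat_lit 6))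
    (@En.n l39971 (nat_lit 2018) (nat_lit 9) (nat_lit 10))
    (@En.n l67 (nat_lit 5252) (nat_lit 9) (nat_lit 2))
    (@En.n l68 (nat_lit 5253) (nat_lit 11) (nat_lit 9))
    (@En.n l1236 (nat_lit 9908) (nat_lit 12) (nat_lit 14))
    (@En.i (nat_lit 7699) (nat_lit 13) (nat_lit 9))
    (@En.n l12852 (nat_lit 7704) (nat_lit 3) (nat_lit 10))
    (@En.n l25784 (nat_lit 2587) (nat_lit 4) (nat_lit 6))
    (@En.n l50 (nat_lit 5252) (nat_lit 15) (nat_lit 2))))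
  (@Cl.mk (nat_lit 0x20007000b000a0009000900090005000900060009000700070007000e0007) (nat_lit 0x256020606000a0) (nat_lit 16) Lb.e (@T16.mk En
    (@En.i (nat_lit 5849) (nat_lit 7) (nat_lit 7))
    (@En.n l601 (nat_lit 11509) (nat_lit 1) (nat_lit 14))
    (@En.n l218 (nat_lit 7486) (nat_lit 9) (nat_lit 7))
    (@En.n l11 (nat_lit 5252) (nat_lit 3) (nat_lit 7))
    (@En.n l9966 (nat_lit 11364) (nat_lit 4) (nat_lit 7))
    (@En.n l16179 (nat_lit 5247) (nat_lit 5) (nat_lit 9))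
    (@En.n l3107 (nat_lit 5256) (nat_lit 6) (nat_lit 6))
    (@En.i (nat_lit 7494) (nat_lit 8) (nat_lit 9))
    (@En.n l4316 (nat_lit 11001) (nat_lit 8) (nat_lit 5))
    (@En.n l19122 (nat_lit 7718) (nat_lit 10) (nat_lit 9))
    (@En.n l619 (nat_lit 7489) (nat_lit 11) (nat_lit 9))
    (@En.n l3866 (nat_lit 10111) (nat_lit 12) (nat_lit 9))
    (@En.n l8767 (nat_lit 7487) (nat_lit 13) (nat_lit 10))
    (@En.n l26619 (nat_lit 8103) (nat_lit 14) (nat_lit 11))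
    (@En.i (nat_lit 2507) (nat_lit 13) (nat_lit 7))
    (@En.n l50 (nat_lit 5253) (nat_lit 15) (nat_lit 2))))
  (@Cl.mk (nat_lit 0x20007000e000b00020008000b000b0005000a0009000500050008000e0006) (nat_lit 0x950274012000b0) (nat_lit 16) Lb.e (@T16.mk En
    (@En.n l13506 (nat_lit 5256) (nat_lit 4) (nat_lit 6))
    (@En.i (nat_lit 5619) (nat_lit 6) (nat_lit 14))
    (@En.n l28620 (nat_lit 5255) (nat_lit 10) (nat_lit 8))
    (@En.n l28621 (nat_lit 5255) (nat_lit 11) (nat_lit 5))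
    (@En.n l28622 (nat_lit 11033) (nat_lit 8) (nat_lit 5))
    (@En.i (nat_lit 5866) (nat_lit 5) (nat_lit 9))
    (@En.n l117 (nat_lit 900) (nat_lit 11) (nat_lit 10))
    (@En.n l28623 (nat_lit 6304) (nat_lit 7) (nat_lit 5))
    (@En.n l217 (nat_lit 5904) (nat_lit 13) (nat_lit 11))
    (@En.i (nat_lit 5716) (nat_lit 10) (nat_lit 11))
    (@En.n l2568 (nat_lit 1440) (nat_lit 11) (nat_lit 8))
    (@En.n l28 (nat_lit 5254) (nat_lit 11) (nat_lit 2))
    (@En.i (nat_lit 5021) (nat_lit 13) (nat_lit 11))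
    (@En.n l1578 (nat_lit 5230) (nat_lit 1) (nat_lit 14))
    (@En.n l107 (nat_lit 4986) (nat_lit 2) (nat_lit 7))
    (@En.n l3 (nat_lit 5254) (nat_lit 15) (nat_lit 2))))
  (@Cl.mk (nat_lit 0x20006000b000a00050008000e000500020006000e000a00020008000e000b) (nat_lit 0x1206b000360258) (nat_lit 16) Lb.e (@T16.mk En
    (@En.n l14446 (nat_lit 5254) (nat_lit 9) (nat_lit 11))
    (@En.n l601 (nat_lit 5249) (nat_lit 10) (nat_lit 14))
    (@En.i (nat_lit 1439) (nat_lit 2) (nat_lit 8))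
    (@En.n l11 (nat_lit 5255) (nat_lit 3) (nat_lit 2))
    (@En.n l2977 (nat_lit 5258) (nat_lit 4) (nat_lit 10))
    (@En.n l1722 (nat_lit 5231) (nat_lit 6) (nat_lit 14))
    (@En.n l253 (nat_lit 4874) (nat_lit 6) (nat_lit 6))
    (@En.n l3 (nat_lit 5255) (nat_lit 7) (nat_lit 2))
    (@En.n l3323 (nat_lit 5257) (nat_lit 8) (nat_lit 5))
    (@En.n l3328 (nat_lit 9216) (nat_lit 6) (nat_lit 14))
    (@En.i (nat_lit 13014) (nat_lit 10) (nat_lit 8))
    (@En.n l7882 (nat_lit 11032) (nat_lit 7) (nat_lit 5))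
    (@En.n l1253 (nat_lit 5868) (nat_lit 4) (nat_lit 10))
    (@En.i (nat_lit 902) (nat_lit 10) (nat_lit 11))
    (@En.i (nat_lit 6302) (nat_lit 6) (nat_lit 6))
    (@En.n l50 (nat_lit 5255) (nat_lit 15) (nat_lit 2))))
  (@Cl.mk (nat_lit 0x20007000a000a0005000a000a000a000600060009000600060006000e000b) (nat_lit 0x640123000000b4) (nat_lit 16) Lb.e (@T16.mk En
    (@En.n l24248 (nat_lit 5015) (nat_lit 4) (nat_lit 11))
    (@En.n l27173 (nat_lit 5227) (nat_lit 1) (nat_lit 14))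
    (@En.n l1778 (nat_lit 5373) (nat_lit 2) (nat_lit 6))
    (@En.n l2172 (nat_lit 5382) (nat_lit 3) (nat_lit 6))
    (@En.n l19999 (nat_lit 9224) (nat_lit 4) (nat_lit 6))
    (@En.n l11 (nat_lit 5257) (nat_lit 9) (nat_lit 9))
    (@En.n l55 (nat_lit 5257) (nat_lit 10) (nat_lit 6))
    (@En.n l27174 (nat_lit 11031) (nat_lit 7) (nat_lit 6))
    (@En.n l742 (nat_lit 5072) (nat_lit 9) (nat_lit 10))
    (@En.n l27175 (nat_lit 5254) (nat_lit 6) (nat_lit 10))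
    (@En.n l13008 (nat_lit 2524) (nat_lit 11) (nat_lit 10))
    (@En.i (nat_lit 6299) (nat_lit 12) (nat_lit 5))
    (@En.n l27176 (nat_lit 5259) (nat_lit 13) (nat_lit 10))
    (@En.n l27177 (nat_lit 5792) (nat_lit 8) (nat_lit 10))
    (@En.n l14591 (nat_lit 1409) (nat_lit 2) (nat_lit 7))
    (@En.n l3 (nat_lit 5256) (nat_lit 15) (nat_lit 2))))
  (@Cl.mk (nat_lit 0x20006000b000b000b00060009000500050005000e000a00020007000e000a) (nat_lit 0x12307000a50047) (nat_lit 16) Lb.e (@T16.mk En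
    (@En.i (nat_lit 5256) (nat_lit 13) (nat_lit 10))
    (@En.n l1578 (nat_lit 5248) (nat_lit 1) (nat_lit 14))
    (@En.i (nat_lit 1403) (nat_lit 2) (nat_lit 7))
    (@En.n l3 (nat_lit 5257) (nat_lit 3) (nat_lit 2))
    (@En.i (nat_lit 5020) (nat_lit 4) (nat_lit 10))
    (@En.i (nat_lit 5228) (nat_lit 6) (nat_lit 14))
    (@En.n l1778 (nat_lit 5372) (nat_lit 6) (nat_lit 5))
    (@En.n l2172 (nat_lit 5384) (nat_lit 3) (nat_lit 5))
    (@En.i (nat_lit 9035) (nat_lit 8) (nat_lit 5))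
    (@En.i (nat_lit 13012) (nat_lit 9) (nat_lit 9))
    (@En.n l5912 (nat_lit 11030) (nat_lit 6) (nat_lit 6))
    (@En.n l742 (nat_lit 5074) (nat_lit 12) (nat_lit 11))
    (@En.n l5913 (nat_lit 5255) (nat_lit 13) (nat_lit 11))
    (@En.n l892 (nat_lit 2521) (nat_lit 10) (nat_lit 11))
    (@En.i (nat_lit 6298) (nat_lit 11) (nat_lit 6))
    (@En.n l28 (nat_lit 5257) (nat_lit 15) (nat_lit 2))))
  (@Cl.mk (nat_lit 0x200060006000b000a00060009000e000500020006000a000a0007000e000a) (nat_lit 0x8307a00057046) (nat_lit 16) Lb.e (@T16.mk En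
    (@En.n l39026 (nat_lit 5021) (nat_lit 10) (nat_lit 10))
    (@En.n l396 (nat_lit 5250) (nat_lit 11) (nat_lit 14))
    (@En.n l23552 (nat_lit 1552) (nat_lit 2) (nat_lit 7))
    (@En.n l25860 (nat_lit 5948) (nat_lit 13) (nat_lit 10))
    (@En.i (nat_lit 5347) (nat_lit 4) (nat_lit 10))
    (@En.n l16311 (nat_lit 1884) (nat_lit 5) (nat_lit 6))
    (@En.n l11 (nat_lit 5258) (nat_lit 6) (nat_lit 2))
    (@En.n l16304 (nat_lit 5020) (nat_lit 7) (nat_lit 5))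
    (@En.n l9090 (nat_lit 9215) (nat_lit 9) (nat_lit 14))
    (@En.n l2568 (nat_lit 13745) (nat_lit 9) (nat_lit 9))
    (@En.n l29024 (nat_lit 7804) (nat_lit 3) (nat_lit 6))
    (@En.n l16307 (nat_lit 5932) (nat_lit 4) (nat_lit 10))
    (@En.i (nat_lit 5479) (nat_lit 13) (nat_lit 11))
    (@En.n l7645 (nat_lit 5255) (nat_lit 14) (nat_lit 6))
    (@En.i (nat_lit 4432) (nat_lit 7) (nat_lit 6))
    (@En.n l18 (nat_lit 5258) (nat_lit 15) (nat_lit 2))))
  (@Cl.mk (nat_lit 0x20007000a0004000900090009000e000600020009000700070007000e000c) (nat_lit 0x30223700100067) (nat_lit 16) Lb.e (@T16.mk En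
    (@En.n l2221 (nat_lit 5019) (nat_lit 10) (nat_lit 12))
    (@En.n l5577 (nat_lit 5229) (nat_lit 11) (nat_lit 14))
    (@En.n l5519 (nat_lit 5374) (nat_lit 2) (nat_lit 7))
    (@En.n l5520 (nat_lit 5383) (nat_lit 3) (nat_lit 7))
    (@En.n l13504 (nat_lit 9223) (nat_lit 14) (nat_lit 7))
    (@En.n l13505 (nat_lit 5256) (nat_lit 5) (nat_lit 9))
    (@En.n l18 (nat_lit 5259) (nat_lit 6) (nat_lit 2))
    (@En.n l13506 (nat_lit 5256) (nat_lit 7) (nat_lit 6))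
    (@En.n l4021 (nat_lit 8115) (nat_lit 9) (nat_lit 14))
    (@En.n l1865 (nat_lit 5073) (nat_lit 2) (nat_lit 9))
    (@En.n l152 (nat_lit 5904) (nat_lit 11) (nat_lit 9))
    (@En.n l117 (nat_lit 2935) (nat_lit 4) (nat_lit 9))
    (@En.n l13507 (nat_lit 5909) (nat_lit 5) (nat_lit 4))
    (@En.i (nat_lit 5442) (nat_lit 8) (nat_lit 10))
    (@En.n l2568 (nat_lit 1394) (nat_lit 7) (nat_lit 7))
    (@En.n l28 (nat_lit 5259) (nat_lit 15) (nat_lit 2))))
  (@Cl.mk (nat_lit 0x5000900090007000a000600090009000700070006000b000900070007000a) (nat_lit 0x470606500074000) (nat_lit 16) Lb.e (@T16.mk En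
    (@En.n l40381 (nat_lit 5261) (nat_lit 8) (nat_lit 10))
    (@En.n l40382 (nat_lit 5261) (nat_lit 9) (nat_lit 7))
    (@En.n l728 (nat_lit 11592) (nat_lit 2) (nat_lit 7))
    (@En.n l7479 (nat_lit 5245) (nat_lit 7) (nat_lit 9))
    (@En.n l40383 (nat_lit 5240) (nat_lit 9) (nat_lit 11))
    (@En.n l28608 (nat_lit 4645) (nat_lit 10) (nat_lit 6))
    (@En.n l40384 (nat_lit 4639) (nat_lit 9) (nat_lit 7))
    (@En.n l40385 (nat_lit 9424) (nat_lit 9) (nat_lit 7))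
    (@En.n l6219 (nat_lit 5274) (nat_lit 7) (nat_lit 9))
    (@En.n l6220 (nat_lit 7439) (nat_lit 9) (nat_lit 9))
    (@En.n l5895 (nat_lit 4835) (nat_lit 10) (nat_lit 6))
    (@En.n l40386 (nat_lit 1640) (nat_lit 8) (nat_lit 10))
    (@En.n l40387 (nat_lit 1744) (nat_lit 9) (nat_lit 7))
    (@En.n l40388 (nat_lit 5205) (nat_lit 7) (nat_lit 9))
    (@En.n l40381 (nat_lit 5083) (nat_lit 10) (nat_lit 9))
    (@En.n l40337 (nat_lit 8185) (nat_lit 15) (nat_lit 5))))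
  (@Cl.mk (nat_lit 0x2000800080007000c000a0007000a000400080008000600090006000e0009) (nat_lit 0x10840803602037) (nat_lit 16) Lb.e (@T16.mk En
    (@En.n l33728 (nat_lit 5260) (nat_lit 9) (nat_lit 9))
    (@En.n l33729 (nat_lit 5269) (nat_lit 1) (nat_lit 14))
    (@En.n l33730 (nat_lit 4836) (nat_lit 2) (nat_lit 6))
    (@En.n l33731 (nat_lit 1645) (nat_lit 3) (nat_lit 9))
    (@En.n l4252 (nat_lit 5387) (nat_lit 4) (nat_lit 6))
    (@En.n l644 (nat_lit 5263) (nat_lit 8) (nat_lit 8))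
    (@En.i (nat_lit 5082) (nat_lit 6) (nat_lit 8))
    (@En.n l3340 (nat_lit 5268) (nat_lit 7) (nat_lit 4))
    (@En.n l33731 (nat_lit 13787) (nat_lit 8) (nat_lit 10))
    (@En.n l33732 (nat_lit 11391) (nat_lit 1) (nat_lit 7))
    (@En.n l10326 (nat_lit 5262) (nat_lit 11) (nat_lit 10))
    (@En.n l17940 (nat_lit 5242) (nat_lit 12) (nat_lit 12))
    (@En.n l33733 (nat_lit 4651) (nat_lit 13) (nat_lit 7))
    (@En.n l33734 (nat_lit 4640) (nat_lit 8) (nat_lit 8))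
    (@En.n l20048 (nat_lit 9425) (nat_lit 6) (nat_lit 8))
    (@En.n l28 (nat_lit 5261) (nat_lit 15) (nat_lit 2))))
  (@Cl.mk (nat_lit 0x2000900090007000a00060009000c000700070006000400090007000e000a) (nat_lit 0x770307300003048) (nat_lit 16) Lb.e (@T16.mk En
    (@En.n l13604 (nat_lit 5245) (nat_lit 12) (nat_lit 10))
    (@En.n l97 (nat_lit 5270) (nat_lit 1) (nat_lit 14))
    (@En.n l2593 (nat_lit 5242) (nat_lit 2) (nat_lit 7))
    (@En.n l33735 (nat_lit 5261) (nat_lit 3) (nat_lit 9))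
    (@En.n l23044 (nat_lit 5264) (nat_lit 4) (nat_lit 4))
    (@En.n l134 (nat_lit 1741) (nat_lit 5) (nat_lit 6))
    (@En.n l55 (nat_lit 5215) (nat_lit 9) (nat_lit 7))
    (@En.n l11084 (nat_lit 5080) (nat_lit 7) (nat_lit 7))
    (@En.n l1643 (nat_lit 9347) (nat_lit 9) (nat_lit 12))
    (@En.n l8122 (nat_lit 13788) (nat_lit 9) (nat_lit 9))
    (@En.n l34308 (nat_lit 12211) (nat_lit 11) (nat_lit 6))
    (@En.i (nat_lit 5756) (nat_lit 8) (nat_lit 10))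
    (@En.n l1415 (nat_lit 4652) (nat_lit 13) (nat_lit 7))
    (@En.n l34232 (nat_lit 5267) (nat_lit 7) (nat_lit 9))
    (@En.i (nat_lit 8402) (nat_lit 3) (nat_lit 9))
    (@En.n l107 (nat_lit 5262) (nat_lit 15) (nat_lit 2))))
  (@Cl.mk (nat_lit 0x20008000c000b0008000b00040008000500080005000e00080002000e0008) (nat_lit 0x1456905050510a1) (nat_lit 16) Lb.e (@T16.mk En
    (@En.i (nat_lit 5261) (nat_lit 14) (nat_lit 8))
    (@En.n l5390 (nat_lit 8384) (nat_lit 1) (nat_lit 14))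
    (@En.n l28 (nat_lit 5263) (nat_lit 2) (nat_lit 2))
    (@En.n l2683 (nat_lit 5205) (nat_lit 3) (nat_lit 8))
    (@En.n l7165 (nat_lit 7489) (nat_lit 5) (nat_lit 14))
    (@En.n l617 (nat_lit 4830) (nat_lit 5) (nat_lit 5))
    (@En.n l5390 (nat_lit 5126) (nat_lit 6) (nat_lit 8))
    (@En.n l17940 (nat_lit 4984) (nat_lit 7) (nat_lit 5))
    (@En.i (nat_lit 6825) (nat_lit 5) (nat_lit 8))
    (@En.n l3340 (nat_lit 12817) (nat_lit 9) (nat_lit 4))
    (@En.n l5390 (nat_lit 12828) (nat_lit 7) (nat_lit 11))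
    (@En.n l17941 (nat_lit 11589) (nat_lit 12) (nat_lit 8))
    (@En.n l10326 (nat_lit 5215) (nat_lit 13) (nat_lit 11))
    (@En.n l17940 (nat_lit 5216) (nat_lit 14) (nat_lit 12))
    (@En.n l5372 (nat_lit 1752) (nat_lit 12) (nat_lit 8))
    (@En.n l50 (nat_lit 5263) (nat_lit 15) (nat_lit 2))))
noncomputable def a329 : T16 Cl := @T16.mk Cl
  (@Cl.mk (nat_lit 0x2000800080007000c00060009000c000400080008000400090007000e000a) (nat_lit 0x600300304102000) (nat_lit 16) Lb.e (@T16.mk En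
    (@En.n l248 (nat_lit 5265) (nat_lit 12) (nat_lit 10))
    (@En.n l134 (nat_lit 5271) (nat_lit 1) (nat_lit 14))
    (@En.n l3339 (nat_lit 5243) (nat_lit 2) (nat_lit 7))
    (@En.n l617 (nat_lit 1646) (nat_lit 3) (nat_lit 9))
    (@En.i (nat_lit 4937) (nat_lit 4) (nat_lit 4))
    (@En.n l38679 (nat_lit 5217) (nat_lit 8) (nat_lit 8))
    (@En.n l26857 (nat_lit 1735) (nat_lit 6) (nat_lit 8))
    (@En.n l27324 (nat_lit 5261) (nat_lit 7) (nat_lit 4))
    (@En.n l248 (nat_lit 12543) (nat_lit 9) (nat_lit 12))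
    (@En.i (nat_lit 13785) (nat_lit 9) (nat_lit 9))
    (@En.n l27805 (nat_lit 12218) (nat_lit 11) (nat_lit 6))
    (@En.n l13109 (nat_lit 7790) (nat_lit 12) (nat_lit 12))
    (@En.n l3536 (nat_lit 7871) (nat_lit 13) (nat_lit 7))
    (@En.n l152 (nat_lit 5266) (nat_lit 8) (nat_lit 8))
    (@En.n l13109 (nat_lit 9427) (nat_lit 6) (nat_lit 8))
    (@En.n l7 (nat_lit 5264) (nat_lit 15) (nat_lit 2))))
  (@Cl.mk (nat_lit 0x4000a0007000a000a000700070006000b000600060009000c000500090009) (nat_lit 0x708000030014051) (nat_lit 16) Lb.e (@T16.mk En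
    (@En.n l36255 (nat_lit 5210) (nat_lit 7) (nat_lit 9))
    (@En.n l36258 (nat_lit 1734) (nat_lit 10) (nat_lit 9))
    (@En.i (nat_lit 5260) (nat_lit 15) (nat_lit 5))
    (@En.i (nat_lit 12542) (nat_lit 6) (nat_lit 12))
    (@En.n l42104 (nat_lit 5264) (nat_lit 9) (nat_lit 9))
    (@En.n l14217 (nat_lit 5264) (nat_lit 10) (nat_lit 6))
    (@En.n l20048 (nat_lit 11609) (nat_lit 6) (nat_lit 6))
    (@En.n l7 (nat_lit 5692) (nat_lit 9) (nat_lit 11))
    (@En.n l14431 (nat_lit 7843) (nat_lit 10) (nat_lit 6))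
    (@En.n l3021 (nat_lit 4642) (nat_lit 9) (nat_lit 7))
    (@En.n l14477 (nat_lit 9426) (nat_lit 7) (nat_lit 7))
    (@En.n l6219 (nat_lit 5278) (nat_lit 6) (nat_lit 10))
    (@En.n l6220 (nat_lit 7438) (nat_lit 8) (nat_lit 10))
    (@En.n l25546 (nat_lit 5239) (nat_lit 14) (nat_lit 7))
    (@En.n l42105 (nat_lit 1643) (nat_lit 11) (nat_lit 10))
    (@En.n l11883 (nat_lit 5280) (nat_lit 15) (nat_lit 4))))
  (@Cl.mk (nat_lit 0x20005000a0008000e000b000200080006000c00050008000b0004000e0008) (nat_lit 0x64b106020620a5) (nat_lit 16) Lb.e (@T16.mk En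
    (@En.i (nat_lit 5264) (nat_lit 6) (nat_lit 8))
    (@En.i (nat_lit 5267) (nat_lit 1) (nat_lit 14))
    (@En.i (nat_lit 4640) (nat_lit 2) (nat_lit 4))
    (@En.n l248 (nat_lit 12551) (nat_lit 3) (nat_lit 11))
    (@En.i (nat_lit 13778) (nat_lit 10) (nat_lit 8))
    (@En.i (nat_lit 10979) (nat_lit 5) (nat_lit 5))
    (@En.n l4021 (nat_lit 7784) (nat_lit 7) (nat_lit 12))
    (@En.i (nat_lit 5983) (nat_lit 7) (nat_lit 6))
    (@En.n l117 (nat_lit 9065) (nat_lit 9) (nat_lit 8))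
    (@En.n l7 (nat_lit 5266) (nat_lit 9) (nat_lit 2))
    (@En.i (nat_lit 4642) (nat_lit 11) (nat_lit 11))
    (@En.n l134 (nat_lit 5272) (nat_lit 12) (nat_lit 14))
    (@En.n l3339 (nat_lit 5237) (nat_lit 13) (nat_lit 8))
    (@En.n l617 (nat_lit 4637) (nat_lit 3) (nat_lit 10))
    (@En.i (nat_lit 7577) (nat_lit 4) (nat_lit 5))
    (@En.n l3 (nat_lit 5266) (nat_lit 15) (nat_lit 2))))
  (@Cl.mk (nat_lit 0x200070005000a0008000e000b000200090006000900050008000b000e0007) (nat_lit 0x75b1060206290) (nat_lit 16) Lb.e (@T16.mk En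
    (@En.n l33692 (nat_lit 5262) (nat_lit 7) (nat_lit 7))
    (@En.n l2520 (nat_lit 1786) (nat_lit 9) (nat_lit 14))
    (@En.n l5647 (nat_lit 12553) (nat_lit 2) (nat_lit 11))
    (@En.i (nat_lit 13779) (nat_lit 10) (nat_lit 8))
    (@En.n l5647 (nat_lit 10977) (nat_lit 4) (nat_lit 5))
    (@En.n l2520 (nat_lit 5755) (nat_lit 5) (nat_lit 9))
    (@En.i (nat_lit 5981) (nat_lit 14) (nat_lit 6))
    (@En.n l117 (nat_lit 9651) (nat_lit 8) (nat_lit 9))
    (@En.n l7 (nat_lit 5267) (nat_lit 8) (nat_lit 2))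
    (@En.n l33693 (nat_lit 4643) (nat_lit 10) (nat_lit 11))
    (@En.n l134 (nat_lit 5273) (nat_lit 11) (nat_lit 14))
    (@En.n l3339 (nat_lit 5238) (nat_lit 12) (nat_lit 8))
    (@En.n l617 (nat_lit 4640) (nat_lit 13) (nat_lit 10))
    (@En.n l17 (nat_lit 5266) (nat_lit 14) (nat_lit 5))
    (@En.i (nat_lit 6561) (nat_lit 5) (nat_lit 7))
    (@En.n l3 (nat_lit 5267) (nat_lit 15) (nat_lit 2))))
  (@Cl.mk (nat_lit 0x2000800080007000c0008000b0008000400080008000500090008000e0008) (nat_lit 0x415000003600) (nat_lit 16) Lb.e (@T16.mk En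
    (@En.n l20300 (nat_lit 8185) (nat_lit 9) (nat_lit 8))
    (@En.n l31161 (nat_lit 8016) (nat_lit 1) (nat_lit 14))
    (@En.n l13540 (nat_lit 8181) (nat_lit 2) (nat_lit 8))
    (@En.n l19785 (nat_lit 6036) (nat_lit 3) (nat_lit 9))
    (@En.n l31162 (nat_lit 9905) (nat_lit 4) (nat_lit 5))
    (@En.n l61 (nat_lit 12817) (nat_lit 8) (nat_lit 8))
    (@En.n l15358 (nat_lit 7492) (nat_lit 6) (nat_lit 8))
    (@En.n l31163 (nat_lit 5264) (nat_lit 7) (nat_lit 4))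
    (@En.n l11008 (nat_lit 11390) (nat_lit 0) (nat_lit 8))
    (@En.n l18315 (nat_lit 11356) (nat_lit 10) (nat_lit 11))
    (@En.n l31164 (nat_lit 1980) (nat_lit 11) (nat_lit 8))
    (@En.n l5014 (nat_lit 9328) (nat_lit 12) (nat_lit 12))
    (@En.n l31165 (nat_lit 11282) (nat_lit 13) (nat_lit 7))
    (@En.n l31166 (nat_lit 8175) (nat_lit 8) (nat_lit 8))
    (@En.n l31167 (nat_lit 6843) (nat_lit 6) (nat_lit 8))
    (@En.n l50 (nat_lit 5268) (nat_lit 15) (nat_lit 2))))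
  (@Cl.mk (nat_lit 0x20009000800080007000c000a0008000700040008000800060009000e0008) (nat_lit 0x600048000100426) (nat_lit 16) Lb.e (@T16.mk En
    (@En.n l38471 (nat_lit 5849) (nat_lit 10) (nat_lit 8))
    (@En.n l23694 (nat_lit 6437) (nat_lit 1) (nat_lit 14))
    (@En.n l38472 (nat_lit 5736) (nat_lit 2) (nat_lit 9))
    (@En.n l25261 (nat_lit 5432) (nat_lit 3) (nat_lit 6))
    (@En.n l38473 (nat_lit 7489) (nat_lit 8) (nat_lit 8))
    (@En.n l38474 (nat_lit 2990) (nat_lit 5) (nat_lit 8))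
    (@En.n l38475 (nat_lit 8016) (nat_lit 6) (nat_lit 4))
    (@En.i (nat_lit 3253) (nat_lit 7) (nat_lit 7))
    (@En.n l34195 (nat_lit 9997) (nat_lit 1) (nat_lit 8))
    (@En.n l27322 (nat_lit 5270) (nat_lit 10) (nat_lit 10))
    (@En.n l27323 (nat_lit 7732) (nat_lit 11) (nat_lit 12))
    (@En.n l3536 (nat_lit 7817) (nat_lit 12) (nat_lit 7))
    (@En.n l152 (nat_lit 5848) (nat_lit 8) (nat_lit 8))
    (@En.n l38476 (nat_lit 11575) (nat_lit 14) (nat_lit 8))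
    (@En.n l35547 (nat_lit 5260) (nat_lit 8) (nat_lit 9))
    (@En.n l28 (nat_lit 5269) (nat_lit 15) (nat_lit 2))))
  (@Cl.mk (nat_lit 0x2000a000900090007000a00070006000c00070007000600040009000e0009) (nat_lit 0x640070030000537) (nat_lit 16) Lb.e (@T16.mk En
    (@En.n l12122 (nat_lit 7440) (nat_lit 13) (nat_lit 9))
    (@En.n l6539 (nat_lit 11658) (nat_lit 1) (nat_lit 14))
    (@En.n l34231 (nat_lit 5269) (nat_lit 2) (nat_lit 9))
    (@En.n l23044 (nat_lit 5271) (nat_lit 3) (nat_lit 4))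
    (@En.n l134 (nat_lit 5433) (nat_lit 4) (nat_lit 6))
    (@En.n l55 (nat_lit 7490) (nat_lit 9) (nat_lit 7))
    (@En.n l11084 (nat_lit 3145) (nat_lit 6) (nat_lit 7))
    (@En.n l4021 (nat_lit 12094) (nat_lit 8) (nat_lit 12))
    (@En.i (nat_lit 3247) (nat_lit 8) (nat_lit 6))
    (@En.n l39499 (nat_lit 11896) (nat_lit 10) (nat_lit 7))
    (@En.i (nat_lit 5698) (nat_lit 11) (nat_lit 10))
    (@En.n l11086 (nat_lit 7818) (nat_lit 12) (nat_lit 7))
    (@En.n l34232 (nat_lit 5273) (nat_lit 7) (nat_lit 9))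
    (@En.n l11088 (nat_lit 11577) (nat_lit 14) (nat_lit 9))
    (@En.n l11089 (nat_lit 5245) (nat_lit 11) (nat_lit 10))
    (@En.n l3 (nat_lit 5270) (nat_lit 15) (nat_lit 2))))
  (@Cl.mk (nat_lit 0x2000a000800080007000c00070006000c00040008000800040009000e0009) (nat_lit 0x1000500202007c7) (nat_lit 16) Lb.e (@T16.mk En
    (@En.n l11621 (nat_lit 7710) (nat_lit 13) (nat_lit 9))
    (@En.n l5577 (nat_lit 8045) (nat_lit 1) (nat_lit 14))
    (@En.n l617 (nat_lit 5699) (nat_lit 2) (nat_lit 9))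
    (@En.i (nat_lit 6525) (nat_lit 3) (nat_lit 4))
    (@En.n l26856 (nat_lit 7491) (nat_lit 8) (nat_lit 8))
    (@En.n l26857 (nat_lit 6523) (nat_lit 5) (nat_lit 8))
    (@En.i (nat_lit 5269) (nat_lit 6) (nat_lit 4))
    (@En.n l2511 (nat_lit 12288) (nat_lit 8) (nat_lit 12))
    (@En.i (nat_lit 5666) (nat_lit 8) (nat_lit 6))
    (@En.i (nat_lit 10418) (nat_lit 10) (nat_lit 7))
    (@En.n l13109 (nat_lit 8032) (nat_lit 11) (nat_lit 12))
    (@En.n l3536 (nat_lit 7915) (nat_lit 12) (nat_lit 7))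
    (@En.n l152 (nat_lit 5272) (nat_lit 8) (nat_lit 8))
    (@En.n l25183 (nat_lit 11039) (nat_lit 14) (nat_lit 8))
    (@En.n l35547 (nat_lit 5265) (nat_lit 11) (nat_lit 10))
    (@En.n l28 (nat_lit 5271) (nat_lit 15) (nat_lit 2))))
  (@Cl.mk (nat_lit 0x20005000a000e000a0002000b00080006000c00060005000b0004000e0008) (nat_lit 0x2a001605003083) (nat_lit 16) Lb.e (@T16.mk En
    (@En.i (nat_lit 5271) (nat_lit 5) (nat_lit 8))
    (@En.i (nat_lit 5273) (nat_lit 1) (nat_lit 14))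
    (@En.i (nat_lit 5848) (nat_lit 2) (nat_lit 4))
    (@En.n l2511 (nat_lit 12103) (nat_lit 9) (nat_lit 11))
    (@En.i (nat_lit 5667) (nat_lit 4) (nat_lit 5))
    (@En.i (nat_lit 11899) (nat_lit 5) (nat_lit 6))
    (@En.n l4021 (nat_lit 8029) (nat_lit 7) (nat_lit 12))
    (@En.i (nat_lit 7478) (nat_lit 7) (nat_lit 6))
    (@En.i (nat_lit 12703) (nat_lit 14) (nat_lit 8))
    (@En.n l7 (nat_lit 4642) (nat_lit 10) (nat_lit 11))
    (@En.n l28 (nat_lit 5272) (nat_lit 10) (nat_lit 2))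
    (@En.i (nat_lit 5705) (nat_lit 12) (nat_lit 10))
    (@En.n l5577 (nat_lit 11662) (nat_lit 13) (nat_lit 14))
    (@En.n l617 (nat_lit 5696) (nat_lit 2) (nat_lit 10))
    (@En.i (nat_lit 7656) (nat_lit 13) (nat_lit 5))
    (@En.n l3 (nat_lit 5272) (nat_lit 15) (nat_lit 2))))
  (@Cl.mk (nat_lit 0x200070005000a000e000a0002000b00090006000900060005000b000e0007) (nat_lit 0x6a80170600270) (nat_lit 16) Lb.e (@T16.mk En
    (@En.n l33692 (nat_lit 5270) (nat_lit 6) (nat_lit 7))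
    (@En.n l2520 (nat_lit 4630) (nat_lit 4) (nat_lit 14))
    (@En.n l7269 (nat_lit 12102) (nat_lit 9) (nat_lit 11))
    (@En.i (nat_lit 5669) (nat_lit 3) (nat_lit 5))
    (@En.n l25199 (nat_lit 11898) (nat_lit 4) (nat_lit 6))
    (@En.n l2520 (nat_lit 5704) (nat_lit 5) (nat_lit 9))
    (@En.i (nat_lit 7479) (nat_lit 6) (nat_lit 6))
    (@En.n l11045 (nat_lit 12702) (nat_lit 14) (nat_lit 9))
    (@En.n l37264 (nat_lit 4643) (nat_lit 9) (nat_lit 11))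
    (@En.n l28 (nat_lit 5273) (nat_lit 9) (nat_lit 2))
    (@En.n l11045 (nat_lit 5850) (nat_lit 11) (nat_lit 10))
    (@En.n l5577 (nat_lit 11667) (nat_lit 12) (nat_lit 14))
    (@En.n l617 (nat_lit 5848) (nat_lit 13) (nat_lit 10))
    (@En.n l17 (nat_lit 5272) (nat_lit 14) (nat_lit 5))
    (@En.i (nat_lit 6580) (nat_lit 4) (nat_lit 7))
    (@En.n l3 (nat_lit 5273) (nat_lit 15) (nat_lit 2))))
  (@Cl.mk (nat_lit 0x2000a0006000a000a0008000b00060009000600060005000a0008000e0007) (nat_lit 0x105352040003240) (nat_lit 16) Lb.e (@T16.mk En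
    (@En.n l2150 (nat_lit 5260) (nat_lit 2) (nat_lit 7))
    (@En.n l17324 (nat_lit 10994) (nat_lit 1) (nat_lit 14))
    (@En.n l13131 (nat_lit 5275) (nat_lit 2) (nat_lit 8))
    (@En.n l13249 (nat_lit 5241) (nat_lit 3) (nat_lit 10))
    (@En.n l3535 (nat_lit 4646) (nat_lit 4) (nat_lit 5))
    (@En.n l152 (nat_lit 4641) (nat_lit 5) (nat_lit 6))
    (@En.n l26815 (nat_lit 9506) (nat_lit 6) (nat_lit 6))
    (@En.i (nat_lit 7121) (nat_lit 9) (nat_lit 9))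
    (@En.n l7245 (nat_lit 4837) (nat_lit 8) (nat_lit 6))
    (@En.n l7233 (nat_lit 1644) (nat_lit 10) (nat_lit 11))
    (@En.n l13131 (nat_lit 5386) (nat_lit 11) (nat_lit 8))
    (@En.n l21501 (nat_lit 5206) (nat_lit 6) (nat_lit 10))
    (@En.n l26816 (nat_lit 5087) (nat_lit 13) (nat_lit 10))
    (@En.n l7233 (nat_lit 9887) (nat_lit 14) (nat_lit 6))
    (@En.n l26817 (nat_lit 5260) (nat_lit 0) (nat_lit 10))
    (@En.n l7 (nat_lit 5274) (nat_lit 15) (nat_lit 2))))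
  (@Cl.mk (nat_lit 0x20009000c0009000900080004000b0007000a0007000700050008000e0006) (nat_lit 0x145360304000130) (nat_lit 16) Lb.e (@T16.mk En
    (@En.n l25730 (nat_lit 5245) (nat_lit 6) (nat_lit 6))
    (@En.n l5098 (nat_lit 10990) (nat_lit 1) (nat_lit 14))
    (@En.n l4627 (nat_lit 47) (nat_lit 2) (nat_lit 8))
    (@En.n l12023 (nat_lit 4649) (nat_lit 3) (nat_lit 5))
    (@En.n l12024 (nat_lit 5276) (nat_lit 4) (nat_lit 7))
    (@En.i (nat_lit 9507) (nat_lit 5) (nat_lit 7))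
    (@En.i (nat_lit 7120) (nat_lit 8) (nat_lit 10))
    (@En.n l12025 (nat_lit 5241) (nat_lit 7) (nat_lit 7))
    (@En.n l25731 (nat_lit 5274) (nat_lit 9) (nat_lit 11))
    (@En.n l5098 (nat_lit 5278) (nat_lit 9) (nat_lit 4))
    (@En.i (nat_lit 1740) (nat_lit 11) (nat_lit 8))
    (@En.n l25732 (nat_lit 5207) (nat_lit 7) (nat_lit 9))
    (@En.n l68 (nat_lit 5086) (nat_lit 13) (nat_lit 9))
    (@En.n l12290 (nat_lit 7975) (nat_lit 6) (nat_lit 12))
    (@En.n l25733 (nat_lit 5245) (nat_lit 4) (nat_lit 9))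
    (@En.n l18 (nat_lit 5275) (nat_lit 15) (nat_lit 2))))
  (@Cl.mk (nat_lit 0x20008000b000e0009000200090005000c0008000b000700040007000e0005) (nat_lit 0x149604084900090) (nat_lit 16) Lb.e (@T16.mk En
    (@En.n l26475 (nat_lit 4643) (nat_lit 5) (nat_lit 5))
    (@En.i (nat_lit 10987) (nat_lit 7) (nat_lit 14))
    (@En.n l3026 (nat_lit 5751) (nat_lit 2) (nat_lit 7))
    (@En.n l11 (nat_lit 5982) (nat_lit 3) (nat_lit 4))
    (@En.n l3026 (nat_lit 8633) (nat_lit 4) (nat_lit 7))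
    (@En.i (nat_lit 4864) (nat_lit 11) (nat_lit 11))
    (@En.n l12687 (nat_lit 5233) (nat_lit 6) (nat_lit 8))
    (@En.n l617 (nat_lit 4641) (nat_lit 8) (nat_lit 12))
    (@En.n l17 (nat_lit 5277) (nat_lit 14) (nat_lit 5))
    (@En.n l1080 (nat_lit 6560) (nat_lit 10) (nat_lit 9))
    (@En.n l3 (nat_lit 5276) (nat_lit 10) (nat_lit 2))
    (@En.n l12686 (nat_lit 5275) (nat_lit 12) (nat_lit 9))
    (@En.n l3026 (nat_lit 1809) (nat_lit 13) (nat_lit 14))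
    (@En.n l3026 (nat_lit 11349) (nat_lit 2) (nat_lit 11))
    (@En.n l26476 (nat_lit 4643) (nat_lit 3) (nat_lit 8))
    (@En.n l7 (nat_lit 5276) (nat_lit 15) (nat_lit 2))))
  (@Cl.mk (nat_lit 0x20005000c0008000b00060004000a000e000500020008000b0006000e000a) (nat_lit 0x939002800140a7) (nat_lit 16) Lb.e (@T16.mk En
    (@En.i (nat_lit 5278) (nat_lit 11) (nat_lit 10))
    (@En.i (nat_lit 5276) (nat_lit 12) (nat_lit 14))
    (@En.i (nat_lit 4641) (nat_lit 13) (nat_lit 6))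
    (@En.i (nat_lit 12547) (nat_lit 3) (nat_lit 11))
    (@En.n l24638 (nat_lit 4642) (nat_lit 4) (nat_lit 8))
    (@En.n l7 (nat_lit 5277) (nat_lit 5) (nat_lit 2))
    (@En.n l24636 (nat_lit 4642) (nat_lit 6) (nat_lit 5))
    (@En.i (nat_lit 10986) (nat_lit 8) (nat_lit 14))
    (@En.n l287 (nat_lit 7789) (nat_lit 9) (nat_lit 10))
    (@En.n l11 (nat_lit 5984) (nat_lit 9) (nat_lit 4))
    (@En.i (nat_lit 11531) (nat_lit 4) (nat_lit 6))
    (@En.i (nat_lit 7192) (nat_lit 12) (nat_lit 11))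
    (@En.n l532 (nat_lit 5235) (nat_lit 13) (nat_lit 8))
    (@En.n l617 (nat_lit 4638) (nat_lit 8) (nat_lit 12))
    (@En.i (nat_lit 7580) (nat_lit 8) (nat_lit 5))
    (@En.n l3 (nat_lit 5277) (nat_lit 15) (nat_lit 2))))
  (@Cl.mk (nat_lit 0x20009000c0006000a000a0004000b0007000a000600060005000a000e0006) (nat_lit 0x250610208000330) (nat_lit 16) Lb.e (@T16.mk En
    (@En.n l2150 (nat_lit 5265) (nat_lit 6) (nat_lit 6))
    (@En.i (nat_lit 8053) (nat_lit 1) (nat_lit 14))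
    (@En.n l14270 (nat_lit 7792) (nat_lit 2) (nat_lit 10))
    (@En.n l3535 (nat_lit 7842) (nat_lit 3) (nat_lit 5))
    (@En.n l152 (nat_lit 5277) (nat_lit 10) (nat_lit 6))
    (@En.n l19904 (nat_lit 9509) (nat_lit 5) (nat_lit 6))
    (@En.i (nat_lit 7444) (nat_lit 8) (nat_lit 10))
    (@En.n l532 (nat_lit 5244) (nat_lit 7) (nat_lit 7))
    (@En.n l617 (nat_lit 1647) (nat_lit 9) (nat_lit 11))
    (@En.i (nat_lit 5279) (nat_lit 9) (nat_lit 4))
    (@En.n l3536 (nat_lit 5209) (nat_lit 6) (nat_lit 10))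
    (@En.n l2711 (nat_lit 1736) (nat_lit 12) (nat_lit 10))
    (@En.i (nat_lit 5274) (nat_lit 13) (nat_lit 6))
    (@En.n l8799 (nat_lit 12545) (nat_lit 6) (nat_lit 12))
    (@En.n l26817 (nat_lit 5265) (nat_lit 4) (nat_lit 9))
    (@En.n l7 (nat_lit 5278) (nat_lit 15) (nat_lit 2))))
  (@Cl.mk (nat_lit 0x20009000c00080007000b0004000b0007000a0005000800050009000e0006) (nat_lit 0x280060600020300) (nat_lit 16) Lb.e (@T16.mk En
    (@En.n l25933 (nat_lit 5280) (nat_lit 6) (nat_lit 6))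
    (@En.i (nat_lit 10865) (nat_lit 1) (nat_lit 14))
    (@En.n l21561 (nat_lit 7562) (nat_lit 2) (nat_lit 9))
    (@En.n l2125 (nat_lit 7838) (nat_lit 3) (nat_lit 5))
    (@En.n l13365 (nat_lit 5059) (nat_lit 10) (nat_lit 8))
    (@En.n l21284 (nat_lit 9263) (nat_lit 5) (nat_lit 5))
    (@En.i (nat_lit 7427) (nat_lit 8) (nat_lit 10))
    (@En.n l25934 (nat_lit 5281) (nat_lit 7) (nat_lit 7))
    (@En.n l3447 (nat_lit 5283) (nat_lit 9) (nat_lit 11))
    (@En.n l25935 (nat_lit 5275) (nat_lit 9) (nat_lit 4))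
    (@En.n l17017 (nat_lit 5282) (nat_lit 11) (nat_lit 11))
    (@En.n l7231 (nat_lit 5361) (nat_lit 12) (nat_lit 7))
    (@En.i (nat_lit 5284) (nat_lit 13) (nat_lit 8))
    (@En.n l13365 (nat_lit 7973) (nat_lit 6) (nat_lit 12))
    (@En.n l25936 (nat_lit 5280) (nat_lit 4) (nat_lit 9))
    (@En.n l7 (nat_lit 5279) (nat_lit 15) (nat_lit 2))))
noncomputable def a330 : T16 Cl := @T16.mk Cl
  (@Cl.mk (nat_lit 0x4000a0007000a000a000600090006000a000600060009000c00070006000a) (nat_lit 0x608107030017005) (nat_lit 16) Lb.e (@T16.mk En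
    (@En.n l40087 (nat_lit 1738) (nat_lit 9) (nat_lit 10))
    (@En.n l40088 (nat_lit 1742) (nat_lit 10) (nat_lit 6))
    (@En.n l40089 (nat_lit 5285) (nat_lit 0) (nat_lit 7))
    (@En.i (nat_lit 7974) (nat_lit 6) (nat_lit 12))
    (@En.n l40090 (nat_lit 4937) (nat_lit 9) (nat_lit 9))
    (@En.n l40091 (nat_lit 4937) (nat_lit 10) (nat_lit 6))
    (@En.n l6669 (nat_lit 9848) (nat_lit 6) (nat_lit 6))
    (@En.n l12316 (nat_lit 7561) (nat_lit 9) (nat_lit 10))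
    (@En.n l40092 (nat_lit 7841) (nat_lit 8) (nat_lit 6))
    (@En.i (nat_lit 5058) (nat_lit 9) (nat_lit 9))
    (@En.n l40093 (nat_lit 8394) (nat_lit 1) (nat_lit 6))
    (@En.n l40094 (nat_lit 5279) (nat_lit 6) (nat_lit 10))
    (@En.n l40089 (nat_lit 7436) (nat_lit 8) (nat_lit 10))
    (@En.n l40095 (nat_lit 4935) (nat_lit 14) (nat_lit 7))
    (@En.n l16393 (nat_lit 4936) (nat_lit 11) (nat_lit 10))
    (@En.n l24561 (nat_lit 5245) (nat_lit 15) (nat_lit 4))))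
  (@Cl.mk (nat_lit 0x200090006000c00090008000c00040007000a00040007000a0008000e0006) (nat_lit 0x209008008006330) (nat_lit 16) Lb.e (@T16.mk En
    (@En.n l25718 (nat_lit 4935) (nat_lit 7) (nat_lit 6))
    (@En.n l2869 (nat_lit 10870) (nat_lit 1) (nat_lit 14))
    (@En.n l25719 (nat_lit 7564) (nat_lit 2) (nat_lit 8))
    (@En.i (nat_lit 5978) (nat_lit 3) (nat_lit 10))
    (@En.n l1005 (nat_lit 5060) (nat_lit 11) (nat_lit 7))
    (@En.n l25720 (nat_lit 8827) (nat_lit 5) (nat_lit 4))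
    (@En.i (nat_lit 5569) (nat_lit 8) (nat_lit 10))
    (@En.n l3328 (nat_lit 1515) (nat_lit 7) (nat_lit 7))
    (@En.n l25721 (nat_lit 5241) (nat_lit 8) (nat_lit 4))
    (@En.n l12149 (nat_lit 5415) (nat_lit 10) (nat_lit 12))
    (@En.n l5553 (nat_lit 5414) (nat_lit 11) (nat_lit 8))
    (@En.n l2642 (nat_lit 5283) (nat_lit 12) (nat_lit 9))
    (@En.n l25722 (nat_lit 5279) (nat_lit 13) (nat_lit 12))
    (@En.n l1723 (nat_lit 9612) (nat_lit 14) (nat_lit 6))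
    (@En.n l25723 (nat_lit 4935) (nat_lit 5) (nat_lit 9))
    (@En.n l7 (nat_lit 5281) (nat_lit 15) (nat_lit 2))))
  (@Cl.mk (nat_lit 0x2000a000d0008000b0003000a000600090005000d000800060003000e0007) (nat_lit 0x140505070830000) (nat_lit 16) Lb.e (@T16.mk En
    (@En.i (nat_lit 1738) (nat_lit 14) (nat_lit 7))
    (@En.n l12362 (nat_lit 10863) (nat_lit 1) (nat_lit 14))
    (@En.i (nat_lit 5361) (nat_lit 2) (nat_lit 3))
    (@En.n l8012 (nat_lit 6051) (nat_lit 3) (nat_lit 6))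
    (@En.n l11010 (nat_lit 5279) (nat_lit 4) (nat_lit 8))
    (@En.n l12363 (nat_lit 5424) (nat_lit 6) (nat_lit 13))
    (@En.n l4883 (nat_lit 9262) (nat_lit 6) (nat_lit 5))
    (@En.i (nat_lit 7430) (nat_lit 9) (nat_lit 9))
    (@En.n l12364 (nat_lit 5415) (nat_lit 8) (nat_lit 6))
    (@En.i (nat_lit 5417) (nat_lit 10) (nat_lit 10))
    (@En.n l12365 (nat_lit 1736) (nat_lit 10) (nat_lit 3))
    (@En.n l2038 (nat_lit 4165) (nat_lit 7) (nat_lit 11))
    (@En.n l11008 (nat_lit 5287) (nat_lit 13) (nat_lit 8))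
    (@En.n l4883 (nat_lit 7968) (nat_lit 5) (nat_lit 13))
    (@En.n l1738 (nat_lit 1738) (nat_lit 12) (nat_lit 10))
    (@En.n l18 (nat_lit 5282) (nat_lit 15) (nat_lit 2))))
  (@Cl.mk (nat_lit 0x2000a000600090007000c000b00060009000400070005000a0009000e0007) (nat_lit 0x207075070007440) (nat_lit 16) Lb.e (@T16.mk En
    (@En.i (nat_lit 4936) (nat_lit 2) (nat_lit 7))
    (@En.i (nat_lit 10871) (nat_lit 1) (nat_lit 14))
    (@En.n l217 (nat_lit 6633) (nat_lit 2) (nat_lit 9))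
    (@En.n l899 (nat_lit 5281) (nat_lit 3) (nat_lit 10))
    (@En.i (nat_lit 5244) (nat_lit 4) (nat_lit 5))
    (@En.i (nat_lit 5065) (nat_lit 5) (nat_lit 7))
    (@En.n l5389 (nat_lit 9628) (nat_lit 6) (nat_lit 4))
    (@En.i (nat_lit 5532) (nat_lit 9) (nat_lit 9))
    (@En.n l4758 (nat_lit 1514) (nat_lit 8) (nat_lit 6))
    (@En.n l3866 (nat_lit 5288) (nat_lit 10) (nat_lit 11))
    (@En.n l20448 (nat_lit 5417) (nat_lit 11) (nat_lit 12))
    (@En.n l9155 (nat_lit 5354) (nat_lit 12) (nat_lit 7))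
    (@En.n l37732 (nat_lit 6947) (nat_lit 9) (nat_lit 9))
    (@En.n l5592 (nat_lit 9610) (nat_lit 14) (nat_lit 6))
    (@En.n l3506 (nat_lit 4936) (nat_lit 0) (nat_lit 10))
    (@En.n l28 (nat_lit 5283) (nat_lit 15) (nat_lit 2))))
  (@Cl.mk (nat_lit 0x2000a00080006000b000a000a000600090005000800060006000a000e0007) (nat_lit 0x60605000300400) (nat_lit 16) Lb.e (@T16.mk En
    (@En.i (nat_lit 5285) (nat_lit 3) (nat_lit 7))
    (@En.i (nat_lit 10873) (nat_lit 1) (nat_lit 14))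
    (@En.n l21561 (nat_lit 6550) (nat_lit 2) (nat_lit 10))
    (@En.n l11 (nat_lit 5286) (nat_lit 10) (nat_lit 6))
    (@En.i (nat_lit 5278) (nat_lit 4) (nat_lit 6))
    (@En.i (nat_lit 4965) (nat_lit 5) (nat_lit 8))
    (@En.i (nat_lit 9253) (nat_lit 6) (nat_lit 5))
    (@En.i (nat_lit 7391) (nat_lit 9) (nat_lit 9))
    (@En.n l532 (nat_lit 5283) (nat_lit 8) (nat_lit 6))
    (@En.n l5581 (nat_lit 6947) (nat_lit 6) (nat_lit 10))
    (@En.n l3866 (nat_lit 6842) (nat_lit 11) (nat_lit 10))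
    (@En.i (nat_lit 5287) (nat_lit 12) (nat_lit 11))
    (@En.i (nat_lit 6519) (nat_lit 13) (nat_lit 6))
    (@En.i (nat_lit 6930) (nat_lit 14) (nat_lit 8))
    (@En.n l4172 (nat_lit 5285) (nat_lit 1) (nat_lit 10))
    (@En.n l7 (nat_lit 5284) (nat_lit 15) (nat_lit 2))))
  (@Cl.mk (nat_lit 0x5000a000900090006000900090006000900070007000b00070007000a0007) (nat_lit 0x565001030040080) (nat_lit 16) Lb.e (@T16.mk En
    (@En.n l28289 (nat_lit 2022) (nat_lit 0) (nat_lit 7))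
    (@En.n l31021 (nat_lit 6517) (nat_lit 8) (nat_lit 10))
    (@En.n l36428 (nat_lit 6517) (nat_lit 9) (nat_lit 7))
    (@En.i (nat_lit 11277) (nat_lit 7) (nat_lit 7))
    (@En.n l40289 (nat_lit 6551) (nat_lit 8) (nat_lit 11))
    (@En.n l40290 (nat_lit 6506) (nat_lit 9) (nat_lit 7))
    (@En.n l2150 (nat_lit 5265) (nat_lit 9) (nat_lit 7))
    (@En.n l13801 (nat_lit 4960) (nat_lit 9) (nat_lit 9))
    (@En.n l40291 (nat_lit 8388) (nat_lit 8) (nat_lit 6))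
    (@En.n l77 (nat_lit 5284) (nat_lit 7) (nat_lit 9))
    (@En.i (nat_lit 6952) (nat_lit 9) (nat_lit 9))
    (@En.n l532 (nat_lit 4936) (nat_lit 10) (nat_lit 6))
    (@En.n l40292 (nat_lit 6830) (nat_lit 7) (nat_lit 9))
    (@En.n l40293 (nat_lit 6822) (nat_lit 7) (nat_lit 9))
    (@En.n l12729 (nat_lit 6514) (nat_lit 10) (nat_lit 10))
    (@En.n l25625 (nat_lit 6515) (nat_lit 11) (nat_lit 5))))
  (@Cl.mk (nat_lit 0x20007000a000600090006000a000e00060002000900070006000a000e000a) (nat_lit 0x203000000671) (nat_lit 16) Lb.e (@T16.mk En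
    (@En.n l68 (nat_lit 5284) (nat_lit 10) (nat_lit 10))
    (@En.n l12290 (nat_lit 2002) (nat_lit 11) (nat_lit 14))
    (@En.n l11016 (nat_lit 6512) (nat_lit 2) (nat_lit 10))
    (@En.n l12598 (nat_lit 6513) (nat_lit 3) (nat_lit 6))
    (@En.n l9874 (nat_lit 6929) (nat_lit 14) (nat_lit 7))
    (@En.n l12599 (nat_lit 6506) (nat_lit 5) (nat_lit 9))
    (@En.n l7 (nat_lit 5286) (nat_lit 6) (nat_lit 2))
    (@En.n l12600 (nat_lit 6506) (nat_lit 7) (nat_lit 6))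
    (@En.i (nat_lit 11504) (nat_lit 9) (nat_lit 14))
    (@En.n l255 (nat_lit 6061) (nat_lit 2) (nat_lit 10))
    (@En.i (nat_lit 7839) (nat_lit 3) (nat_lit 6))
    (@En.n l255 (nat_lit 4961) (nat_lit 4) (nat_lit 9))
    (@En.n l12598 (nat_lit 9259) (nat_lit 13) (nat_lit 6))
    (@En.i (nat_lit 7389) (nat_lit 8) (nat_lit 10))
    (@En.n l197 (nat_lit 5279) (nat_lit 7) (nat_lit 7))
    (@En.n l67 (nat_lit 5286) (nat_lit 15) (nat_lit 2))))
  (@Cl.mk (nat_lit 0x2000b0008000b00090009000500080005000c0008000700070004000e0008) (nat_lit 0x65640006400000) (nat_lit 16) Lb.e (@T16.mk En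
    (@En.n l12729 (nat_lit 6514) (nat_lit 14) (nat_lit 8))
    (@En.i (nat_lit 10872) (nat_lit 1) (nat_lit 14))
    (@En.n l12730 (nat_lit 5386) (nat_lit 2) (nat_lit 4))
    (@En.n l12731 (nat_lit 6512) (nat_lit 9) (nat_lit 7))
    (@En.n l2711 (nat_lit 1736) (nat_lit 4) (nat_lit 7))
    (@En.n l17 (nat_lit 5284) (nat_lit 5) (nat_lit 8))
    (@En.n l5582 (nat_lit 6837) (nat_lit 7) (nat_lit 12))
    (@En.n l12686 (nat_lit 9252) (nat_lit 7) (nat_lit 5))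
    (@En.i (nat_lit 7372) (nat_lit 10) (nat_lit 8))
    (@En.n l12732 (nat_lit 5417) (nat_lit 9) (nat_lit 5))
    (@En.n l5581 (nat_lit 6946) (nat_lit 7) (nat_lit 9))
    (@En.n l5582 (nat_lit 6696) (nat_lit 12) (nat_lit 9))
    (@En.n l12733 (nat_lit 1281) (nat_lit 7) (nat_lit 11))
    (@En.n l12734 (nat_lit 6927) (nat_lit 14) (nat_lit 8))
    (@En.n l12735 (nat_lit 6514) (nat_lit 12) (nat_lit 11))
    (@En.n l7 (nat_lit 5287) (nat_lit 15) (nat_lit 2))))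
  (@Cl.mk (nat_lit 0x2000b0006000a0007000b00050008000d000600050003000a0009000e0008) (nat_lit 0x202040630004531) (nat_lit 16) Lb.e (@T16.mk En
    (@En.n l25504 (nat_lit 2893) (nat_lit 12) (nat_lit 8))
    (@En.n l810 (nat_lit 11438) (nat_lit 1) (nat_lit 14))
    (@En.n l77 (nat_lit 5424) (nat_lit 2) (nat_lit 9))
    (@En.n l6080 (nat_lit 5274) (nat_lit 3) (nat_lit 10))
    (@En.n l4830 (nat_lit 5105) (nat_lit 4) (nat_lit 3))
    (@En.n l18 (nat_lit 5213) (nat_lit 5) (nat_lit 5))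
    (@En.n l25505 (nat_lit 5100) (nat_lit 6) (nat_lit 6))
    (@En.n l1430 (nat_lit 8521) (nat_lit 8) (nat_lit 13))
    (@En.i (nat_lit 7080) (nat_lit 10) (nat_lit 8))
    (@En.n l15092 (nat_lit 2847) (nat_lit 9) (nat_lit 5))
    (@En.n l25506 (nat_lit 6595) (nat_lit 11) (nat_lit 11))
    (@En.n l25507 (nat_lit 5115) (nat_lit 12) (nat_lit 7))
    (@En.n l25506 (nat_lit 6829) (nat_lit 13) (nat_lit 10))
    (@En.n l2681 (nat_lit 9604) (nat_lit 14) (nat_lit 6))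
    (@En.n l25508 (nat_lit 2893) (nat_lit 10) (nat_lit 11))
    (@En.n l107 (nat_lit 5288) (nat_lit 15) (nat_lit 2))))
  (@Cl.mk (nat_lit 0x20006000a0007000b00080007000d000600050003000a00090008000e0009) (nat_lit 0x350200046040) (nat_lit 16) Lb.e (@T16.mk En
    (@En.n l35537 (nat_lit 5301) (nat_lit 11) (nat_lit 9))
    (@En.n l180 (nat_lit 5288) (nat_lit 1) (nat_lit 14))
    (@En.n l35538 (nat_lit 10985) (nat_lit 2) (nat_lit 8))
    (@En.n l77 (nat_lit 6536) (nat_lit 3) (nat_lit 9))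
    (@En.n l6080 (nat_lit 7439) (nat_lit 4) (nat_lit 10))
    (@En.n l3180 (nat_lit 5290) (nat_lit 5) (nat_lit 3))
    (@En.n l18 (nat_lit 8105) (nat_lit 6) (nat_lit 5))
    (@En.n l6081 (nat_lit 5291) (nat_lit 7) (nat_lit 6))
    (@En.n l2576 (nat_lit 4427) (nat_lit 9) (nat_lit 13))
    (@En.n l3 (nat_lit 5538) (nat_lit 9) (nat_lit 7))
    (@En.n l9609 (nat_lit 8180) (nat_lit 11) (nat_lit 8))
    (@En.n l30370 (nat_lit 5295) (nat_lit 12) (nat_lit 11))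
    (@En.n l24786 (nat_lit 5299) (nat_lit 13) (nat_lit 7))
    (@En.n l4909 (nat_lit 6574) (nat_lit 14) (nat_lit 10))
    (@En.n l24792 (nat_lit 8786) (nat_lit 13) (nat_lit 6))
    (@En.n l11 (nat_lit 5289) (nat_lit 15) (nat_lit 2))))
  (@Cl.mk (nat_lit 0x2000600090007000c00080007000d000400070003000a00090008000e0009) (nat_lit 0x60350200045012) (nat_lit 16) Lb.e (@T16.mk En
    (@En.n l21092 (nat_lit 5172) (nat_lit 11) (nat_lit 9))
    (@En.n l24479 (nat_lit 5105) (nat_lit 1) (nat_lit 14))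
    (@En.n l1357 (nat_lit 10980) (nat_lit 2) (nat_lit 8))
    (@En.n l6393 (nat_lit 6537) (nat_lit 3) (nat_lit 9))
    (@En.n l2611 (nat_lit 5291) (nat_lit 4) (nat_lit 10))
    (@En.n l12871 (nat_lit 5289) (nat_lit 5) (nat_lit 3))
    (@En.i (nat_lit 1661) (nat_lit 6) (nat_lit 7))
    (@En.n l2604 (nat_lit 7544) (nat_lit 7) (nat_lit 4))
    (@En.n l8572 (nat_lit 4426) (nat_lit 9) (nat_lit 13))
    (@En.n l24480 (nat_lit 5534) (nat_lit 9) (nat_lit 7))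
    (@En.n l24481 (nat_lit 8179) (nat_lit 11) (nat_lit 8))
    (@En.n l19421 (nat_lit 5292) (nat_lit 12) (nat_lit 12))
    (@En.n l24480 (nat_lit 5297) (nat_lit 13) (nat_lit 7))
    (@En.i (nat_lit 7460) (nat_lit 14) (nat_lit 9))
    (@En.n l24482 (nat_lit 8777) (nat_lit 13) (nat_lit 6))
    (@En.n l50 (nat_lit 5290) (nat_lit 15) (nat_lit 2))))
  (@Cl.mk (nat_lit 0x20006000a00090008000c00090008000600040007000a00080007000e0008) (nat_lit 0x27076600035051) (nat_lit 16) Lb.e (@T16.mk En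
    (@En.n l30987 (nat_lit 3159) (nat_lit 10) (nat_lit 8))
    (@En.n l30988 (nat_lit 5100) (nat_lit 1) (nat_lit 14))
    (@En.n l9991 (nat_lit 10979) (nat_lit 2) (nat_lit 7))
    (@En.n l14888 (nat_lit 6437) (nat_lit 3) (nat_lit 8))
    (@En.n l3530 (nat_lit 5852) (nat_lit 4) (nat_lit 10))
    (@En.n l13513 (nat_lit 1956) (nat_lit 5) (nat_lit 7))
    (@En.n l4659 (nat_lit 7542) (nat_lit 6) (nat_lit 4))
    (@En.n l9991 (nat_lit 11218) (nat_lit 7) (nat_lit 6))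
    (@En.n l30989 (nat_lit 5556) (nat_lit 8) (nat_lit 8))
    (@En.n l30990 (nat_lit 8178) (nat_lit 10) (nat_lit 9))
    (@En.n l30991 (nat_lit 5293) (nat_lit 11) (nat_lit 12))
    (@En.n l27130 (nat_lit 5294) (nat_lit 12) (nat_lit 8))
    (@En.n l831 (nat_lit 5290) (nat_lit 13) (nat_lit 9))
    (@En.n l25584 (nat_lit 3156) (nat_lit 14) (nat_lit 10))
    (@En.n l30992 (nat_lit 8784) (nat_lit 13) (nat_lit 6))
    (@En.n l7 (nat_lit 5291) (nat_lit 15) (nat_lit 2))))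
  (@Cl.mk (nat_lit 0x200060009000c00070006000c0004000c00070004000a00040009000e000a) (nat_lit 0x52002060050012) (nat_lit 16) Lb.e (@T16.mk En
    (@En.n l28 (nat_lit 5170) (nat_lit 13) (nat_lit 10))
    (@En.n l95 (nat_lit 5104) (nat_lit 1) (nat_lit 14))
    (@En.n l30993 (nat_lit 11608) (nat_lit 2) (nat_lit 9))
    (@En.n l30994 (nat_lit 5298) (nat_lit 3) (nat_lit 4))
    (@En.n l5473 (nat_lit 5293) (nat_lit 4) (nat_lit 10))
    (@En.n l30995 (nat_lit 5295) (nat_lit 5) (nat_lit 4))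
    (@En.n l22498 (nat_lit 5290) (nat_lit 6) (nat_lit 7))
    (@En.n l19709 (nat_lit 3955) (nat_lit 8) (nat_lit 12))
    (@En.n l6081 (nat_lit 7543) (nat_lit 8) (nat_lit 4))
    (@En.n l95 (nat_lit 4430) (nat_lit 10) (nat_lit 12))
    (@En.i (nat_lit 5562) (nat_lit 10) (nat_lit 6))
    (@En.n l26209 (nat_lit 7549) (nat_lit 12) (nat_lit 7))
    (@En.i (nat_lit 7670) (nat_lit 6) (nat_lit 12))
    (@En.n l11219 (nat_lit 7459) (nat_lit 9) (nat_lit 9))
    (@En.n l21632 (nat_lit 8775) (nat_lit 13) (nat_lit 6))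
    (@En.n l7 (nat_lit 5292) (nat_lit 15) (nat_lit 2))))
  (@Cl.mk (nat_lit 0x20006000b0009000c0008000700050004000d0007000a00030008000e0009) (nat_lit 0x56660008040062) (nat_lit 16) Lb.e (@T16.mk En
    (@En.n l7292 (nat_lit 5167) (nat_lit 13) (nat_lit 9))
    (@En.n l9102 (nat_lit 5097) (nat_lit 1) (nat_lit 14))
    (@En.i (nat_lit 11607) (nat_lit 2) (nat_lit 8))
    (@En.n l16083 (nat_lit 5294) (nat_lit 3) (nat_lit 3))
    (@En.n l454 (nat_lit 5781) (nat_lit 4) (nat_lit 10))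
    (@En.n l16084 (nat_lit 5291) (nat_lit 5) (nat_lit 7))
    (@En.n l16085 (nat_lit 3954) (nat_lit 7) (nat_lit 13))
    (@En.n l1577 (nat_lit 5804) (nat_lit 7) (nat_lit 4))
    (@En.i (nat_lit 11216) (nat_lit 8) (nat_lit 5))
    (@En.n l4973 (nat_lit 5559) (nat_lit 9) (nat_lit 7))
    (@En.n l457 (nat_lit 7550) (nat_lit 11) (nat_lit 8))
    (@En.i (nat_lit 4131) (nat_lit 12) (nat_lit 12))
    (@En.n l5987 (nat_lit 5292) (nat_lit 13) (nat_lit 9))
    (@En.n l7294 (nat_lit 4355) (nat_lit 14) (nat_lit 11))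
    (@En.n l4943 (nat_lit 8778) (nat_lit 13) (nat_lit 6))
    (@En.n l3 (nat_lit 5293) (nat_lit 15) (nat_lit 2))))
  (@Cl.mk (nat_lit 0x20007000b0008000c0008000700050004000d0009000800030008000e0009) (nat_lit 0x46760007300062) (nat_lit 16) Lb.e (@T16.mk En
    (@En.n l30972 (nat_lit 5168) (nat_lit 13) (nat_lit 9))
    (@En.n l30973 (nat_lit 5096) (nat_lit 1) (nat_lit 14))
    (@En.n l21784 (nat_lit 11378) (nat_lit 2) (nat_lit 8))
    (@En.n l30974 (nat_lit 5293) (nat_lit 3) (nat_lit 3))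
    (@En.i (nat_lit 6439) (nat_lit 0) (nat_lit 8))
    (@En.n l30975 (nat_lit 6542) (nat_lit 5) (nat_lit 9))
    (@En.n l30976 (nat_lit 3953) (nat_lit 7) (nat_lit 13))
    (@En.n l30977 (nat_lit 5800) (nat_lit 7) (nat_lit 4))
    (@En.n l21784 (nat_lit 11215) (nat_lit 8) (nat_lit 5))
    (@En.n l30978 (nat_lit 5338) (nat_lit 9) (nat_lit 7))
    (@En.n l30979 (nat_lit 11672) (nat_lit 11) (nat_lit 8))
    (@En.n l30978 (nat_lit 4130) (nat_lit 12) (nat_lit 12))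
    (@En.n l3 (nat_lit 5298) (nat_lit 13) (nat_lit 8))
    (@En.n l839 (nat_lit 4356) (nat_lit 14) (nat_lit 11))
    (@En.n l21784 (nat_lit 9472) (nat_lit 11) (nat_lit 7))
    (@En.n l17 (nat_lit 5294) (nat_lit 15) (nat_lit 2))))
  (@Cl.mk (nat_lit 0x20006000b000b00070006000c00050005000d0004000a00030009000e000a) (nat_lit 0x120040070500a0) (nat_lit 16) Lb.e (@T16.mk En
    (@En.n l39511 (nat_lit 5606) (nat_lit 13) (nat_lit 10))
    (@En.n l39512 (nat_lit 6595) (nat_lit 1) (nat_lit 14))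
    (@En.n l25107 (nat_lit 12094) (nat_lit 2) (nat_lit 9))
    (@En.n l27594 (nat_lit 5300) (nat_lit 3) (nat_lit 3))
    (@En.n l39513 (nat_lit 5302) (nat_lit 4) (nat_lit 10))
    (@En.n l27594 (nat_lit 5296) (nat_lit 5) (nat_lit 4))
    (@En.n l39514 (nat_lit 3956) (nat_lit 7) (nat_lit 13))
    (@En.n l20790 (nat_lit 6970) (nat_lit 7) (nat_lit 5))
    (@En.n l39515 (nat_lit 5293) (nat_lit 8) (nat_lit 5))
    (@En.n l39516 (nat_lit 6308) (nat_lit 10) (nat_lit 12))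
    (@En.i (nat_lit 5565) (nat_lit 10) (nat_lit 6))
    (@En.n l39517 (nat_lit 10854) (nat_lit 12) (nat_lit 7))
    (@En.n l27593 (nat_lit 6958) (nat_lit 13) (nat_lit 11))
    (@En.n l39512 (nat_lit 2416) (nat_lit 14) (nat_lit 11))
    (@En.i (nat_lit 9441) (nat_lit 13) (nat_lit 6))
    (@En.n l8292 (nat_lit 5295) (nat_lit 15) (nat_lit 2))))

end Pool.Agent.MP_61a8e3_al.G4.K
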