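import Pool.Agent.MP_61a8e3_al.G4.KL0
import Pool.Agent.MP_61a8e3_al.G4.KL1
import Pool.Agent.MP_61a8e3_al.G4.KL2
import Pool.Agent.MP_61a8e3_al.G4.KL3
import Pool.Agent.MP_61a8e3_al.G4.KL4
import Pool.Agent.MP_61a8e3_al.G4.KL5
import Pool.Agent.MP_61a8e3_al.G4.KL6
import Pool.Agent.MP_61a8e3_al.G4.KL7

/-! Part K: classes, part 3. -/

set_option autoImplicit false
set_option maxRecDepth 100000
set_option linter.all false

namespace Pool.Agent.MP_61a8e3_al.G4.K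

noncomputable def a331 : T16 Cl := @T16.mk Cl
  (@Cl.mk (nat_lit 0x20006000a000a00070006000c000b000600060004000a00050009000e000a) (nat_lit 0x15004600050000) (nat_lit 16) Lb.e (@T16.mk En
    (@En.n l35428 (nat_lit 5608) (nat_lit 11) (nat_lit 10))
    (@En.n l35429 (nat_lit 6954) (nat_lit 1) (nat_lit 14))
    (@En.n l35430 (nat_lit 12288) (nat_lit 2) (nat_lit 9))
    (@En.i (nat_lit 5726) (nat_lit 3) (nat_lit 5))
    (@En.n l35431 (nat_lit 6953) (nat_lit 4) (nat_lit 10))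
    (@En.n l35432 (nat_lit 5292) (nat_lit 5) (nat_lit 4))
    (@En.n l35433 (nat_lit 5805) (nat_lit 6) (nat_lit 6))
    (@En.n l1393 (nat_lit 5289) (nat_lit 7) (nat_lit 6))
    (@En.n l77 (nat_lit 5300) (nat_lit 9) (nat_lit 11))
    (@En.n l35434 (nat_lit 6340) (nat_lit 10) (nat_lit 12))
    (@En.n l26818 (nat_lit 7249) (nat_lit 10) (nat_lit 6))
    (@En.n l35435 (nat_lit 10530) (nat_lit 12) (nat_lit 7))
    (@En.n l35436 (nat_lit 6957) (nat_lit 6) (nat_lit 10))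
    (@En.n l35429 (nat_lit 4444) (nat_lit 14) (nat_lit 10))
    (@En.n l19626 (nat_lit 8628) (nat_lit 13) (nat_lit 6))
    (@En.n l17 (nat_lit 5296) (nat_lit 15) (nat_lit 2))))
  (@Cl.mk (nat_lit 0x200070007000c00070006000d0004000c00030009000900040009000e000a) (nat_lit 0x6002020400711) (nat_lit 16) Lb.e (@T16.mk En
    (@En.n l8342 (nat_lit 5174) (nat_lit 10) (nat_lit 10))
    (@En.n l11118 (nat_lit 5110) (nat_lit 1) (nat_lit 14))
    (@En.n l1544 (nat_lit 11537) (nat_lit 2) (nat_lit 9))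
    (@En.n l2125 (nat_lit 5292) (nat_lit 3) (nat_lit 4))
    (@En.n l17385 (nat_lit 6466) (nat_lit 7) (nat_lit 9))
    (@En.n l24474 (nat_lit 5294) (nat_lit 5) (nat_lit 9))
    (@En.n l1543 (nat_lit 5299) (nat_lit 6) (nat_lit 3))
    (@En.n l24475 (nat_lit 3664) (nat_lit 0) (nat_lit 12))
    (@En.n l10169 (nat_lit 7187) (nat_lit 8) (nat_lit 4))
    (@En.n l24476 (nat_lit 3141) (nat_lit 10) (nat_lit 13))
    (@En.i (nat_lit 3624) (nat_lit 10) (nat_lit 6))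
    (@En.n l24477 (nat_lit 12514) (nat_lit 12) (nat_lit 7))
    (@En.n l24478 (nat_lit 7003) (nat_lit 13) (nat_lit 12))
    (@En.n l152 (nat_lit 8159) (nat_lit 9) (nat_lit 7))
    (@En.n l810 (nat_lit 9983) (nat_lit 7) (nat_lit 7))
    (@En.n l28 (nat_lit 5297) (nat_lit 15) (nat_lit 2))))
  (@Cl.mk (nat_lit 0x200080008000c00070006000b0004000c00080008000500040009000e000a) (nat_lit 0x56005014000000) (nat_lit 16) Lb.e (@T16.mk En
    (@En.n l32887 (nat_lit 6475) (nat_lit 13) (nat_lit 10))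
    (@En.n l14088 (nat_lit 5961) (nat_lit 1) (nat_lit 14))
    (@En.n l32888 (nat_lit 8015) (nat_lit 2) (nat_lit 9))
    (@En.n l32889 (nat_lit 5297) (nat_lit 3) (nat_lit 4))
    (@En.i (nat_lit 5300) (nat_lit 4) (nat_lit 5))
    (@En.n l152 (nat_lit 6465) (nat_lit 8) (nat_lit 8))
    (@En.n l2225 (nat_lit 6541) (nat_lit 6) (nat_lit 8))
    (@En.n l9825 (nat_lit 2037) (nat_lit 8) (nat_lit 12))
    (@En.n l11987 (nat_lit 7186) (nat_lit 8) (nat_lit 4))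
    (@En.n l2254 (nat_lit 7930) (nat_lit 10) (nat_lit 11))
    (@En.n l32890 (nat_lit 5553) (nat_lit 10) (nat_lit 6))
    (@En.n l15797 (nat_lit 12521) (nat_lit 12) (nat_lit 7))
    (@En.n l32890 (nat_lit 7008) (nat_lit 13) (nat_lit 12))
    (@En.n l32891 (nat_lit 8160) (nat_lit 8) (nat_lit 8))
    (@En.n l17144 (nat_lit 9739) (nat_lit 5) (nat_lit 8))
    (@En.n l17 (nat_lit 5298) (nat_lit 15) (nat_lit 2))))
  (@Cl.mk (nat_lit 0x200070007000b00070006000d000b000500030009000900050009000e000a) (nat_lit 0x6002600400750) (nat_lit 16) Lb.e (@T16.mk En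
    (@En.n l15182 (nat_lit 6474) (nat_lit 10) (nat_lit 10))
    (@En.n l22190 (nat_lit 5115) (nat_lit 1) (nat_lit 14))
    (@En.i (nat_lit 11535) (nat_lit 2) (nat_lit 9))
    (@En.n l30897 (nat_lit 5296) (nat_lit 3) (nat_lit 5))
    (@En.n l16367 (nat_lit 6467) (nat_lit 7) (nat_lit 9))
    (@En.n l30898 (nat_lit 7188) (nat_lit 5) (nat_lit 9))
    (@En.n l1386 (nat_lit 5297) (nat_lit 6) (nat_lit 3))
    (@En.n l6899 (nat_lit 4782) (nat_lit 7) (nat_lit 5))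
    (@En.n l17880 (nat_lit 5298) (nat_lit 9) (nat_lit 11))
    (@En.n l8557 (nat_lit 2989) (nat_lit 10) (nat_lit 13))
    (@En.n l10505 (nat_lit 3627) (nat_lit 10) (nat_lit 6))
    (@En.n l17 (nat_lit 12513) (nat_lit 12) (nat_lit 7))
    (@En.i (nat_lit 6192) (nat_lit 13) (nat_lit 11))
    (@En.n l644 (nat_lit 8158) (nat_lit 9) (nat_lit 7))
    (@En.i (nat_lit 9980) (nat_lit 7) (nat_lit 7))
    (@En.n l3 (nat_lit 5299) (nat_lit 15) (nat_lit 2))))
  (@Cl.mk (nat_lit 0x20007000b000b00070006000b00050005000d0009000500030009000e000a) (nat_lit 0x140050084000a0) (nat_lit 16) Lb.e (@T16.mk En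
    (@En.n l42648 (nat_lit 5607) (nat_lit 13) (nat_lit 10))
    (@En.n l14088 (nat_lit 6599) (nat_lit 1) (nat_lit 14))
    (@En.n l32922 (nat_lit 8017) (nat_lit 2) (nat_lit 9))
    (@En.n l32814 (nat_lit 5295) (nat_lit 3) (nat_lit 3))
    (@En.i (nat_lit 5727) (nat_lit 0) (nat_lit 5))
    (@En.n l1448 (nat_lit 6446) (nat_lit 5) (nat_lit 9))
    (@En.n l134 (nat_lit 3957) (nat_lit 7) (nat_lit 13))
    (@En.n l11 (nat_lit 6980) (nat_lit 7) (nat_lit 5))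
    (@En.n l152 (nat_lit 5294) (nat_lit 8) (nat_lit 5))
    (@En.i (nat_lit 7091) (nat_lit 10) (nat_lit 11))
    (@En.n l217 (nat_lit 6981) (nat_lit 10) (nat_lit 6))
    (@En.n l42649 (nat_lit 10853) (nat_lit 12) (nat_lit 7))
    (@En.n l42650 (nat_lit 6965) (nat_lit 13) (nat_lit 11))
    (@En.n l14088 (nat_lit 4437) (nat_lit 14) (nat_lit 11))
    (@En.n l32922 (nat_lit 9464) (nat_lit 11) (nat_lit 7))
    (@En.n l17 (nat_lit 5300) (nat_lit 15) (nat_lit 2))))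
  (@Cl.mk (nat_lit 0x3000b000a000900090009000500090006000a000700070007000d00070006) (nat_lit 0x410700008000300) (nat_lit 16) Lb.e (@T16.mk En
    (@En.n l43310 (nat_lit 8102) (nat_lit 0) (nat_lit 6))
    (@En.n l27594 (nat_lit 3159) (nat_lit 0) (nat_lit 7))
    (@En.n l32563 (nat_lit 11562) (nat_lit 2) (nat_lit 13))
    (@En.n l43311 (nat_lit 5289) (nat_lit 9) (nat_lit 7))
    (@En.n l43312 (nat_lit 6583) (nat_lit 9) (nat_lit 7))
    (@En.n l9845 (nat_lit 8184) (nat_lit 5) (nat_lit 7))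
    (@En.n l37066 (nat_lit 5606) (nat_lit 9) (nat_lit 10))
    (@En.n l27654 (nat_lit 6474) (nat_lit 7) (nat_lit 6))
    (@En.i (nat_lit 7497) (nat_lit 10) (nat_lit 9))
    (@En.n l15472 (nat_lit 11498) (nat_lit 9) (nat_lit 5))
    (@En.n l36112 (nat_lit 6546) (nat_lit 7) (nat_lit 9))
    (@En.n l17078 (nat_lit 6576) (nat_lit 7) (nat_lit 9))
    (@En.n l11375 (nat_lit 12214) (nat_lit 7) (nat_lit 9))
    (@En.n l36512 (nat_lit 68) (nat_lit 6) (nat_lit 10))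
    (@En.n l6042 (nat_lit 5849) (nat_lit 4) (nat_lit 11))
    (@En.n l17194 (nat_lit 5172) (nat_lit 15) (nat_lit 3))))
  (@Cl.mk (nat_lit 0x20006000b000b000b00080007000500050005000e000a00020008000e0009) (nat_lit 0x52340000440390) (nat_lit 16) Lb.e (@T16.mk En
    (@En.n l11 (nat_lit 5730) (nat_lit 13) (nat_lit 9))
    (@En.n l6380 (nat_lit 1644) (nat_lit 1) (nat_lit 14))
    (@En.n l1585 (nat_lit 5156) (nat_lit 2) (nat_lit 8))
    (@En.n l3 (nat_lit 5302) (nat_lit 3) (nat_lit 2))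
    (@En.n l11055 (nat_lit 5304) (nat_lit 4) (nat_lit 10))
    (@En.n l3541 (nat_lit 4891) (nat_lit 6) (nat_lit 14))
    (@En.n l11056 (nat_lit 4765) (nat_lit 6) (nat_lit 5))
    (@En.n l2172 (nat_lit 5781) (nat_lit 7) (nat_lit 5))
    (@En.n l1582 (nat_lit 8953) (nat_lit 8) (nat_lit 5))
    (@En.i (nat_lit 4599) (nat_lit 5) (nat_lit 7))
    (@En.n l11057 (nat_lit 5788) (nat_lit 11) (nat_lit 8))
    (@En.n l742 (nat_lit 4823) (nat_lit 12) (nat_lit 11))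
    (@En.n l11058 (nat_lit 4822) (nat_lit 13) (nat_lit 11))
    (@En.n l11059 (nat_lit 3222) (nat_lit 10) (nat_lit 11))
    (@En.n l810 (nat_lit 6669) (nat_lit 11) (nat_lit 6))
    (@En.n l28 (nat_lit 5302) (nat_lit 15) (nat_lit 2))))
  (@Cl.mk (nat_lit 0x50005000a000a000a000800080008000600060006000b000b000800080008) (nat_lit 0x56455500037222) (nat_lit 16) Lb.e (@T16.mk En
    (@En.n l38567 (nat_lit 5714) (nat_lit 8) (nat_lit 8))
    (@En.n l35171 (nat_lit 5699) (nat_lit 8) (nat_lit 8))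
    (@En.n l38568 (nat_lit 6438) (nat_lit 2) (nat_lit 8))
    (@En.n l38569 (nat_lit 5701) (nat_lit 5) (nat_lit 11))
    (@En.n l38570 (nat_lit 7736) (nat_lit 9) (nat_lit 11))
    (@En.n l61 (nat_lit 5726) (nat_lit 10) (nat_lit 6))
    (@En.n l35173 (nat_lit 5700) (nat_lit 10) (nat_lit 6))
    (@En.n l38571 (nat_lit 10128) (nat_lit 10) (nat_lit 6))
    (@En.n l6953 (nat_lit 5304) (nat_lit 8) (nat_lit 8))
    (@En.n l38572 (nat_lit 5723) (nat_lit 8) (nat_lit 8))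
    (@En.n l33383 (nat_lit 10282) (nat_lit 8) (nat_lit 8))
    (@En.n l38573 (nat_lit 5740) (nat_lit 6) (nat_lit 10))
    (@En.n l38574 (nat_lit 5709) (nat_lit 6) (nat_lit 10))
    (@En.n l38570 (nat_lit 5161) (nat_lit 10) (nat_lit 10))
    (@En.n l38575 (nat_lit 5730) (nat_lit 11) (nat_lit 5))
    (@En.n l38576 (nat_lit 6475) (nat_lit 0) (nat_lit 5))))
  (@Cl.mk (nat_lit 0x200060006000b000b000b00090008000500050005000a000a0007000e0008) (nat_lit 0x6357400034013) (nat_lit 16) Lb.e (@T16.mk En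
    (@En.n l22980 (nat_lit 5303) (nat_lit 1) (nat_lit 8))
    (@En.n l601 (nat_lit 1647) (nat_lit 1) (nat_lit 14))
    (@En.n l24654 (nat_lit 5315) (nat_lit 2) (nat_lit 7))
    (@En.n l61 (nat_lit 5202) (nat_lit 6) (nat_lit 10))
    (@En.n l287 (nat_lit 7176) (nat_lit 4) (nat_lit 10))
    (@En.n l11 (nat_lit 4760) (nat_lit 5) (nat_lit 5))
    (@En.n l152 (nat_lit 5306) (nat_lit 6) (nat_lit 5))
    (@En.n l4155 (nat_lit 5310) (nat_lit 7) (nat_lit 5))
    (@En.n l77 (nat_lit 4677) (nat_lit 8) (nat_lit 8))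
    (@En.n l55 (nat_lit 5309) (nat_lit 10) (nat_lit 9))
    (@En.n l24655 (nat_lit 5305) (nat_lit 11) (nat_lit 11))
    (@En.n l3471 (nat_lit 5307) (nat_lit 12) (nat_lit 11))
    (@En.n l23006 (nat_lit 6953) (nat_lit 13) (nat_lit 11))
    (@En.n l24656 (nat_lit 5302) (nat_lit 14) (nat_lit 6))
    (@En.n l24657 (nat_lit 5313) (nat_lit 13) (nat_lit 6))
    (@En.n l50 (nat_lit 5304) (nat_lit 15) (nat_lit 2))))
  (@Cl.mk (nat_lit 0x200060006000c000b000800070004000e00050002000a000a0008000e0009) (nat_lit 0x64600700472a0) (nat_lit 16) Lb.e (@T16.mk En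
    (@En.n l8342 (nat_lit 5740) (nat_lit 11) (nat_lit 9))
    (@En.n l11119 (nat_lit 1642) (nat_lit 12) (nat_lit 14))
    (@En.n l11120 (nat_lit 6436) (nat_lit 2) (nat_lit 8))
    (@En.n l24281 (nat_lit 5808) (nat_lit 14) (nat_lit 10))
    (@En.n l24282 (nat_lit 7544) (nat_lit 4) (nat_lit 10))
    (@En.n l17 (nat_lit 5305) (nat_lit 5) (nat_lit 2))
    (@En.n l24283 (nat_lit 5304) (nat_lit 6) (nat_lit 5))
    (@En.n l998 (nat_lit 5763) (nat_lit 8) (nat_lit 14))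
    (@En.n l7402 (nat_lit 8947) (nat_lit 8) (nat_lit 4))
    (@En.i (nat_lit 4795) (nat_lit 3) (nat_lit 7))
    (@En.n l2249 (nat_lit 12508) (nat_lit 11) (nat_lit 8))
    (@En.n l24284 (nat_lit 4816) (nat_lit 12) (nat_lit 11))
    (@En.n l476 (nat_lit 6949) (nat_lit 13) (nat_lit 12))
    (@En.n l152 (nat_lit 4823) (nat_lit 14) (nat_lit 6))
    (@En.n l810 (nat_lit 7125) (nat_lit 8) (nat_lit 6))
    (@En.n l28 (nat_lit 5305) (nat_lit 15) (nat_lit 2))))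
  (@Cl.mk (nat_lit 0x200060006000e000b0002000c000a000900050004000a000a0006000e0007) (nat_lit 0x3707850023090) (nat_lit 16) Lb.e (@T16.mk En
    (@En.n l11051 (nat_lit 5700) (nat_lit 5) (nat_lit 7))
    (@En.n l601 (nat_lit 4638) (nat_lit 1) (nat_lit 14))
    (@En.n l11052 (nat_lit 7655) (nat_lit 2) (nat_lit 6))
    (@En.n l61 (nat_lit 5703) (nat_lit 9) (nat_lit 10))
    (@En.n l287 (nat_lit 7172) (nat_lit 10) (nat_lit 10))
    (@En.n l11 (nat_lit 5837) (nat_lit 5) (nat_lit 4))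
    (@En.n l4155 (nat_lit 5312) (nat_lit 6) (nat_lit 5))
    (@En.n l77 (nat_lit 4741) (nat_lit 13) (nat_lit 9))
    (@En.n l55 (nat_lit 12388) (nat_lit 9) (nat_lit 10))
    (@En.n l615 (nat_lit 5371) (nat_lit 10) (nat_lit 12))
    (@En.n l3 (nat_lit 5306) (nat_lit 10) (nat_lit 2))
    (@En.i (nat_lit 5304) (nat_lit 12) (nat_lit 11))
    (@En.i (nat_lit 5852) (nat_lit 13) (nat_lit 14))
    (@En.n l11053 (nat_lit 5781) (nat_lit 14) (nat_lit 6))
    (@En.n l11054 (nat_lit 7162) (nat_lit 3) (nat_lit 6))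
    (@En.n l50 (nat_lit 5306) (nat_lit 15) (nat_lit 2))))
  (@Cl.mk (nat_lit 0x200060006000b000a00080007000e000500020006000a000a0008000e0009) (nat_lit 0x2740a00047442) (nat_lit 16) Lb.e (@T16.mk En
    (@En.n l15762 (nat_lit 5709) (nat_lit 10) (nat_lit 9))
    (@En.n l1578 (nat_lit 5193) (nat_lit 11) (nat_lit 14))
    (@En.n l3550 (nat_lit 8064) (nat_lit 2) (nat_lit 8))
    (@En.n l11034 (nat_lit 5199) (nat_lit 13) (nat_lit 10))
    (@En.n l5251 (nat_lit 8105) (nat_lit 4) (nat_lit 10))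
    (@En.n l3106 (nat_lit 4873) (nat_lit 5) (nat_lit 6))
    (@En.n l17 (nat_lit 5307) (nat_lit 6) (nat_lit 2))
    (@En.n l2843 (nat_lit 5304) (nat_lit 7) (nat_lit 5))
    (@En.n l15763 (nat_lit 8976) (nat_lit 9) (nat_lit 14))
    (@En.n l4947 (nat_lit 4674) (nat_lit 2) (nat_lit 7))
    (@En.n l15764 (nat_lit 12612) (nat_lit 11) (nat_lit 8))
    (@En.n l15765 (nat_lit 4815) (nat_lit 4) (nat_lit 10))
    (@En.n l15766 (nat_lit 6568) (nat_lit 13) (nat_lit 11))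
    (@En.n l15767 (nat_lit 4822) (nat_lit 14) (nat_lit 6))
    (@En.n l15765 (nat_lit 7046) (nat_lit 7) (nat_lit 6))
    (@En.n l28 (nat_lit 5307) (nat_lit 15) (nat_lit 2))))
  (@Cl.mk (nat_lit 0x200060006000c000c000b000700040004000c0005000a000a0004000e0009) (nat_lit 0x70003000060) (nat_lit 16) Lb.e (@T16.mk En
    (@En.n l8898 (nat_lit 12000) (nat_lit 14) (nat_lit 9))
    (@En.n l601 (nat_lit 9097) (nat_lit 1) (nat_lit 14))
    (@En.n l24997 (nat_lit 12599) (nat_lit 2) (nat_lit 4))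
    (@En.n l61 (nat_lit 12392) (nat_lit 6) (nat_lit 10))
    (@En.n l33821 (nat_lit 12610) (nat_lit 4) (nat_lit 10))
    (@En.i (nat_lit 5304) (nat_lit 5) (nat_lit 5))
    (@En.n l19443 (nat_lit 9331) (nat_lit 7) (nat_lit 12))
    (@En.n l152 (nat_lit 12393) (nat_lit 7) (nat_lit 4))
    (@En.n l8498 (nat_lit 9214) (nat_lit 8) (nat_lit 4))
    (@En.n l5076 (nat_lit 5337) (nat_lit 0) (nat_lit 7))
    (@En.n l33822 (nat_lit 5312) (nat_lit 11) (nat_lit 11))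
    (@En.n l13481 (nat_lit 9215) (nat_lit 12) (nat_lit 12))
    (@En.n l31236 (nat_lit 11292) (nat_lit 13) (nat_lit 12))
    (@En.n l33823 (nat_lit 5789) (nat_lit 10) (nat_lit 6))
    (@En.n l33824 (nat_lit 8544) (nat_lit 13) (nat_lit 6))
    (@En.n l50 (nat_lit 5308) (nat_lit 15) (nat_lit 2))))
  (@Cl.mk (nat_lit 0x200070007000c000c0009000700040004000c0009000900070004000e0009) (nat_lit 0x78600030000a0) (nat_lit 16) Lb.e (@T16.mk En
    (@En.i (nat_lit 10282) (nat_lit 14) (nat_lit 9))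
    (@En.n l601 (nat_lit 5714) (nat_lit 1) (nat_lit 14))
    (@En.n l28 (nat_lit 5308) (nat_lit 2) (nat_lit 4))
    (@En.n l2438 (nat_lit 12605) (nat_lit 3) (nat_lit 7))
    (@En.n l61 (nat_lit 12390) (nat_lit 7) (nat_lit 9))
    (@En.n l8516 (nat_lit 10745) (nat_lit 5) (nat_lit 9))
    (@En.n l4108 (nat_lit 9328) (nat_lit 7) (nat_lit 12))
    (@En.n l152 (nat_lit 12388) (nat_lit 7) (nat_lit 4))
    (@En.n l13479 (nat_lit 12495) (nat_lit 8) (nat_lit 4))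
    (@En.i (nat_lit 2956) (nat_lit 0) (nat_lit 7))
    (@En.n l4684 (nat_lit 10130) (nat_lit 11) (nat_lit 9))
    (@En.n l10815 (nat_lit 12612) (nat_lit 12) (nat_lit 12))
    (@En.n l20138 (nat_lit 11291) (nat_lit 13) (nat_lit 12))
    (@En.n l17294 (nat_lit 5788) (nat_lit 14) (nat_lit 7))
    (@En.n l20139 (nat_lit 9729) (nat_lit 5) (nat_lit 7))
    (@En.n l50 (nat_lit 5309) (nat_lit 15) (nat_lit 2))))
  (@Cl.mk (nat_lit 0x200060006000b0005000c000c000a000500040004000a000a0006000e000b) (nat_lit 0x5000600000070) (nat_lit 16) Lb.e (@T16.mk En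
    (@En.n l25307 (nat_lit 8952) (nat_lit 10) (nat_lit 11))
    (@En.n l18 (nat_lit 8278) (nat_lit 1) (nat_lit 14))
    (@En.n l6888 (nat_lit 5790) (nat_lit 2) (nat_lit 6))
    (@En.n l11586 (nat_lit 5812) (nat_lit 6) (nat_lit 10))
    (@En.n l25308 (nat_lit 10859) (nat_lit 4) (nat_lit 10))
    (@En.n l237 (nat_lit 9211) (nat_lit 5) (nat_lit 4))
    (@En.i (nat_lit 12485) (nat_lit 6) (nat_lit 4))
    (@En.n l2852 (nat_lit 4816) (nat_lit 7) (nat_lit 5))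
    (@En.n l55 (nat_lit 12495) (nat_lit 9) (nat_lit 10))
    (@En.n l134 (nat_lit 8947) (nat_lit 10) (nat_lit 12))
    (@En.n l25309 (nat_lit 8977) (nat_lit 11) (nat_lit 12))
    (@En.n l117 (nat_lit 5311) (nat_lit 12) (nat_lit 5))
    (@En.n l4212 (nat_lit 8936) (nat_lit 13) (nat_lit 11))
    (@En.n l5337 (nat_lit 8953) (nat_lit 14) (nat_lit 6))
    (@En.n l6081 (nat_lit 8656) (nat_lit 13) (nat_lit 6))
    (@En.n l3 (nat_lit 5310) (nat_lit 15) (nat_lit 2))))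
  (@Cl.mk (nat_lit 0x3000700070005000c000c000a000800040004000900090006000d000b0008) (nat_lit 0x5300000604) (nat_lit 16) Lb.e (@T16.mk En
    (@En.n l8765 (nat_lit 5304) (nat_lit 0) (nat_lit 8))
    (@En.n l32977 (nat_lit 10337) (nat_lit 10) (nat_lit 11))
    (@En.n l32978 (nat_lit 7932) (nat_lit 2) (nat_lit 13))
    (@En.n l14171 (nat_lit 11154) (nat_lit 3) (nat_lit 6))
    (@En.n l27265 (nat_lit 11126) (nat_lit 7) (nat_lit 9))
    (@En.n l32979 (nat_lit 10701) (nat_lit 5) (nat_lit 9))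
    (@En.n l25114 (nat_lit 10336) (nat_lit 12) (nat_lit 4))
    (@En.i (nat_lit 12004) (nat_lit 7) (nat_lit 4))
    (@En.n l32980 (nat_lit 3990) (nat_lit 0) (nat_lit 8))
    (@En.n l55 (nat_lit 10928) (nat_lit 10) (nat_lit 10))
    (@En.n l32981 (nat_lit 11133) (nat_lit 4) (nat_lit 12))
    (@En.n l28688 (nat_lit 10346) (nat_lit 12) (nat_lit 12))
    (@En.n l32982 (nat_lit 10158) (nat_lit 4) (nat_lit 5))
    (@En.n l32983 (nat_lit 12503) (nat_lit 9) (nat_lit 7))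
    (@En.i (nat_lit 10179) (nat_lit 12) (nat_lit 7))
    (@En.n l30279 (nat_lit 10338) (nat_lit 15) (nat_lit 3))))
noncomputable def a332 : T16 Cl := @T16.mk Cl
  (@Cl.mk (nat_lit 0x200060006000d000b00060003000d000b00050003000a000a0005000e000a) (nat_lit 0x2600a500500a0) (nat_lit 16) Lb.e (@T16.mk En
    (@En.n l1532 (nat_lit 12111) (nat_lit 11) (nat_lit 10))
    (@En.n l18 (nat_lit 7834) (nat_lit 1) (nat_lit 14))
    (@En.n l11585 (nat_lit 12641) (nat_lit 2) (nat_lit 5))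
    (@En.n l11586 (nat_lit 12396) (nat_lit 6) (nat_lit 10))
    (@En.n l9375 (nat_lit 12263) (nat_lit 4) (nat_lit 10))
    (@En.n l7 (nat_lit 12397) (nat_lit 5) (nat_lit 3))
    (@En.n l137 (nat_lit 5305) (nat_lit 6) (nat_lit 5))
    (@En.i (nat_lit 12398) (nat_lit 8) (nat_lit 11))
    (@En.n l664 (nat_lit 5362) (nat_lit 9) (nat_lit 13))
    (@En.n l11 (nat_lit 12485) (nat_lit 9) (nat_lit 3))
    (@En.n l3621 (nat_lit 12337) (nat_lit 0) (nat_lit 6))
    (@En.i (nat_lit 5310) (nat_lit 12) (nat_lit 11))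
    (@En.i (nat_lit 11167) (nat_lit 13) (nat_lit 13))
    (@En.n l797 (nat_lit 12754) (nat_lit 14) (nat_lit 6))
    (@En.n l6081 (nat_lit 9084) (nat_lit 8) (nat_lit 6))
    (@En.n l3 (nat_lit 5312) (nat_lit 15) (nat_lit 2))))
  (@Cl.mk (nat_lit 0x3000900060005000b000b000b00080007000500050005000a000d000b0008) (nat_lit 0x2300003515) (nat_lit 16) Lb.e (@T16.mk En
    (@En.n l39500 (nat_lit 5850) (nat_lit 0) (nat_lit 8))
    (@En.n l39501 (nat_lit 2318) (nat_lit 5) (nat_lit 11))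
    (@En.n l39500 (nat_lit 5314) (nat_lit 5) (nat_lit 13))
    (@En.n l39502 (nat_lit 11716) (nat_lit 3) (nat_lit 10))
    (@En.n l39503 (nat_lit 7009) (nat_lit 11) (nat_lit 5))
    (@En.n l39504 (nat_lit 7162) (nat_lit 11) (nat_lit 5))
    (@En.i (nat_lit 8656) (nat_lit 6) (nat_lit 5))
    (@En.n l22964 (nat_lit 3862) (nat_lit 9) (nat_lit 7))
    (@En.n l39505 (nat_lit 9729) (nat_lit 1) (nat_lit 8))
    (@En.n l39506 (nat_lit 7125) (nat_lit 5) (nat_lit 11))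
    (@En.n l39507 (nat_lit 7046) (nat_lit 5) (nat_lit 11))
    (@En.n l39502 (nat_lit 9620) (nat_lit 12) (nat_lit 11))
    (@En.i (nat_lit 2317) (nat_lit 11) (nat_lit 5))
    (@En.n l39508 (nat_lit 7122) (nat_lit 14) (nat_lit 6))
    (@En.n l39509 (nat_lit 6475) (nat_lit 1) (nat_lit 9))
    (@En.n l39510 (nat_lit 7050) (nat_lit 15) (nat_lit 3))))
  (@Cl.mk (nat_lit 0x20006000b000b000b00090007000500050005000d000a00070003000e0009) (nat_lit 0x20070000440024) (nat_lit 16) Lb.e (@T16.mk En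
    (@En.n l13379 (nat_lit 6040) (nat_lit 14) (nat_lit 9))
    (@En.n l396 (nat_lit 5304) (nat_lit 1) (nat_lit 14))
    (@En.n l3917 (nat_lit 7153) (nat_lit 2) (nat_lit 3))
    (@En.i (nat_lit 1908) (nat_lit 3) (nat_lit 7))
    (@En.n l420 (nat_lit 7154) (nat_lit 4) (nat_lit 10))
    (@En.n l8237 (nat_lit 9886) (nat_lit 6) (nat_lit 13))
    (@En.n l11 (nat_lit 7150) (nat_lit 6) (nat_lit 5))
    (@En.n l152 (nat_lit 7157) (nat_lit 7) (nat_lit 5))
    (@En.n l916 (nat_lit 8666) (nat_lit 8) (nat_lit 5))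
    (@En.n l13379 (nat_lit 3742) (nat_lit 10) (nat_lit 7))
    (@En.i (nat_lit 8644) (nat_lit 11) (nat_lit 9))
    (@En.n l16850 (nat_lit 7411) (nat_lit 12) (nat_lit 11))
    (@En.n l16851 (nat_lit 7049) (nat_lit 13) (nat_lit 11))
    (@En.n l8237 (nat_lit 7146) (nat_lit 14) (nat_lit 11))
    (@En.n l916 (nat_lit 6197) (nat_lit 13) (nat_lit 6))
    (@En.n l18 (nat_lit 5314) (nat_lit 15) (nat_lit 2))))
  (@Cl.mk (nat_lit 0x20005000b000a000a000a000900050009000600060006000b0007000e0007) (nat_lit 0x230030500060b0) (nat_lit 16) Lb.e (@T16.mk En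
    (@En.n l61 (nat_lit 6438) (nat_lit 1) (nat_lit 7))
    (@En.n l27248 (nat_lit 6445) (nat_lit 1) (nat_lit 14))
    (@En.n l27657 (nat_lit 4780) (nat_lit 2) (nat_lit 7))
    (@En.n l5332 (nat_lit 7663) (nat_lit 3) (nat_lit 11))
    (@En.n l37459 (nat_lit 7011) (nat_lit 4) (nat_lit 6))
    (@En.n l37460 (nat_lit 7655) (nat_lit 5) (nat_lit 6))
    (@En.n l6147 (nat_lit 5790) (nat_lit 6) (nat_lit 6))
    (@En.n l27657 (nat_lit 4431) (nat_lit 8) (nat_lit 9))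
    (@En.n l37461 (nat_lit 5605) (nat_lit 8) (nat_lit 5))
    (@En.n l37462 (nat_lit 12605) (nat_lit 10) (nat_lit 9))
    (@En.n l37463 (nat_lit 6436) (nat_lit 11) (nat_lit 10))
    (@En.n l9370 (nat_lit 8064) (nat_lit 12) (nat_lit 10))
    (@En.n l37464 (nat_lit 11659) (nat_lit 13) (nat_lit 10))
    (@En.n l72 (nat_lit 5157) (nat_lit 14) (nat_lit 11))
    (@En.n l35456 (nat_lit 5850) (nat_lit 13) (nat_lit 5))
    (@En.n l17 (nat_lit 5315) (nat_lit 15) (nat_lit 2))))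
  (@Cl.mk (nat_lit 0x2000a000800040008000d000d0006000300030008000e00080002000e000c) (nat_lit 0x63012300042001a) (nat_lit 16) Lb.e (@T16.mk En
    (@En.n l28708 (nat_lit 4480) (nat_lit 14) (nat_lit 12))
    (@En.i (nat_lit 1851) (nat_lit 1) (nat_lit 14))
    (@En.n l50 (nat_lit 5316) (nat_lit 2) (nat_lit 2))
    (@En.n l15806 (nat_lit 5319) (nat_lit 3) (nat_lit 8))
    (@En.n l6362 (nat_lit 4694) (nat_lit 5) (nat_lit 14))
    (@En.n l19470 (nat_lit 3450) (nat_lit 5) (nat_lit 8))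
    (@En.n l2261 (nat_lit 5318) (nat_lit 13) (nat_lit 3))
    (@En.n l152 (nat_lit 5317) (nat_lit 0) (nat_lit 3))
    (@En.n l14558 (nat_lit 4775) (nat_lit 0) (nat_lit 6))
    (@En.n l619 (nat_lit 5317) (nat_lit 3) (nat_lit 13))
    (@En.n l6362 (nat_lit 4621) (nat_lit 11) (nat_lit 13))
    (@En.i (nat_lit 665) (nat_lit 12) (nat_lit 8))
    (@En.n l6362 (nat_lit 5581) (nat_lit 9) (nat_lit 4))
    (@En.n l8361 (nat_lit 4721) (nat_lit 14) (nat_lit 8))
    (@En.i (nat_lit 11030) (nat_lit 12) (nat_lit 10))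
    (@En.n l17 (nat_lit 5316) (nat_lit 15) (nat_lit 2))))
  (@Cl.mk (nat_lit 0x20008000e00080002000e000c0002000b000800040008000d0005000e0003) (nat_lit 0x12001a0740120b0) (nat_lit 16) Lb.e (@T16.mk En
    (@En.n l117 (nat_lit 5316) (nat_lit 7) (nat_lit 3))
    (@En.n l810 (nat_lit 13254) (nat_lit 0) (nat_lit 14))
    (@En.n l22114 (nat_lit 5246) (nat_lit 2) (nat_lit 5))
    (@En.n l3213 (nat_lit 4620) (nat_lit 11) (nat_lit 13))
    (@En.i (nat_lit 662) (nat_lit 4) (nat_lit 8))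
    (@En.n l3213 (nat_lit 5596) (nat_lit 5) (nat_lit 4))
    (@En.n l8874 (nat_lit 4726) (nat_lit 14) (nat_lit 8))
    (@En.i (nat_lit 11032) (nat_lit 12) (nat_lit 11))
    (@En.n l17 (nat_lit 5317) (nat_lit 8) (nat_lit 2))
    (@En.n l18380 (nat_lit 4482) (nat_lit 10) (nat_lit 12))
    (@En.n l1599 (nat_lit 2138) (nat_lit 1) (nat_lit 14))
    (@En.n l50 (nat_lit 5317) (nat_lit 11) (nat_lit 2))
    (@En.n l17235 (nat_lit 5320) (nat_lit 13) (nat_lit 8))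
    (@En.n l3213 (nat_lit 4690) (nat_lit 5) (nat_lit 14))
    (@En.n l810 (nat_lit 3448) (nat_lit 5) (nat_lit 8))
    (@En.n l11 (nat_lit 5317) (nat_lit 15) (nat_lit 2))))
  (@Cl.mk (nat_lit 0x2000700030008000e00080002000e000c00020009000800040008000e000d) (nat_lit 0x4b001406503a3) (nat_lit 16) Lb.e (@T16.mk En
    (@En.n l6635 (nat_lit 5316) (nat_lit 10) (nat_lit 13))
    (@En.n l14553 (nat_lit 8956) (nat_lit 11) (nat_lit 14))
    (@En.i (nat_lit 3909) (nat_lit 2) (nat_lit 8))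
    (@En.i (nat_lit 5583) (nat_lit 3) (nat_lit 4))
    (@En.i (nat_lit 4722) (nat_lit 14) (nat_lit 8))
    (@En.n l698 (nat_lit 11028) (nat_lit 12) (nat_lit 9))
    (@En.n l11 (nat_lit 5318) (nat_lit 6) (nat_lit 2))
    (@En.n l1578 (nat_lit 4479) (nat_lit 8) (nat_lit 12))
    (@En.n l698 (nat_lit 2188) (nat_lit 1) (nat_lit 14))
    (@En.n l3 (nat_lit 5318) (nat_lit 9) (nat_lit 2))
    (@En.n l14554 (nat_lit 5321) (nat_lit 11) (nat_lit 8))
    (@En.i (nat_lit 4699) (nat_lit 12) (nat_lit 14))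
    (@En.n l17 (nat_lit 12538) (nat_lit 5) (nat_lit 8))
    (@En.n l6636 (nat_lit 5316) (nat_lit 6) (nat_lit 3))
    (@En.n l699 (nat_lit 5038) (nat_lit 0) (nat_lit 7))
    (@En.n l50 (nat_lit 5318) (nat_lit 15) (nat_lit 2))))
  (@Cl.mk (nat_lit 0x200090007000400080008000d000d000700030003000900080008000e000c) (nat_lit 0x60032ab0007609a) (nat_lit 16) Lb.e (@T16.mk En
    (@En.n l11399 (nat_lit 4483) (nat_lit 10) (nat_lit 12))
    (@En.n l25070 (nat_lit 3318) (nat_lit 1) (nat_lit 14))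
    (@En.n l23420 (nat_lit 5322) (nat_lit 2) (nat_lit 8))
    (@En.i (nat_lit 6911) (nat_lit 3) (nat_lit 8))
    (@En.n l11401 (nat_lit 4548) (nat_lit 4) (nat_lit 9))
    (@En.n l7126 (nat_lit 5321) (nat_lit 13) (nat_lit 3))
    (@En.n l152 (nat_lit 5320) (nat_lit 0) (nat_lit 3))
    (@En.n l6825 (nat_lit 4908) (nat_lit 0) (nat_lit 7))
    (@En.n l619 (nat_lit 5320) (nat_lit 3) (nat_lit 13))
    (@En.i (nat_lit 9145) (nat_lit 10) (nat_lit 13))
    (@En.n l25071 (nat_lit 5316) (nat_lit 11) (nat_lit 8))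
    (@En.n l25072 (nat_lit 3913) (nat_lit 12) (nat_lit 8))
    (@En.n l13889 (nat_lit 2955) (nat_lit 5) (nat_lit 4))
    (@En.n l23422 (nat_lit 4738) (nat_lit 14) (nat_lit 7))
    (@En.n l6825 (nat_lit 7107) (nat_lit 1) (nat_lit 9))
    (@En.n l50 (nat_lit 5319) (nat_lit 15) (nat_lit 2))))
  (@Cl.mk (nat_lit 0x2000900080008000e000c0002000a0007000400080008000d0006000e0003) (nat_lit 0x7609a060032a040) (nat_lit 16) Lb.e (@T16.mk En
    (@En.n l117 (nat_lit 5319) (nat_lit 6) (nat_lit 3))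
    (@En.n l16383 (nat_lit 13251) (nat_lit 0) (nat_lit 14))
    (@En.n l16307 (nat_lit 3171) (nat_lit 2) (nat_lit 6))
    (@En.i (nat_lit 9144) (nat_lit 10) (nat_lit 13))
    (@En.n l29023 (nat_lit 5317) (nat_lit 4) (nat_lit 8))
    (@En.n l29024 (nat_lit 3972) (nat_lit 5) (nat_lit 8))
    (@En.n l3593 (nat_lit 2962) (nat_lit 6) (nat_lit 4))
    (@En.i (nat_lit 4737) (nat_lit 14) (nat_lit 7))
    (@En.n l29024 (nat_lit 7804) (nat_lit 9) (nat_lit 10))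
    (@En.n l50 (nat_lit 5320) (nat_lit 9) (nat_lit 2))
    (@En.n l3584 (nat_lit 4487) (nat_lit 11) (nat_lit 12))
    (@En.n l29025 (nat_lit 3315) (nat_lit 12) (nat_lit 14))
    (@En.n l9493 (nat_lit 5323) (nat_lit 2) (nat_lit 8))
    (@En.i (nat_lit 6909) (nat_lit 14) (nat_lit 8))
    (@En.n l3592 (nat_lit 4547) (nat_lit 4) (nat_lit 9))
    (@En.n l11 (nat_lit 5320) (nat_lit 15) (nat_lit 2))))
  (@Cl.mk (nat_lit 0x200080003000900080008000e000c000200080007000400080008000e000d) (nat_lit 0x307609a0500344b) (nat_lit 16) Lb.e (@T16.mk En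
    (@En.n l4270 (nat_lit 5319) (nat_lit 9) (nat_lit 13))
    (@En.n l4316 (nat_lit 9152) (nat_lit 10) (nat_lit 14))
    (@En.n l11660 (nat_lit 5318) (nat_lit 2) (nat_lit 8))
    (@En.n l11661 (nat_lit 3914) (nat_lit 3) (nat_lit 8))
    (@En.n l117 (nat_lit 2961) (nat_lit 4) (nat_lit 4))
    (@En.n l11661 (nat_lit 4740) (nat_lit 14) (nat_lit 7))
    (@En.i (nat_lit 7106) (nat_lit 6) (nat_lit 8))
    (@En.n l3 (nat_lit 5321) (nat_lit 7) (nat_lit 2))
    (@En.n l3707 (nat_lit 4485) (nat_lit 9) (nat_lit 12))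
    (@En.n l9418 (nat_lit 3322) (nat_lit 10) (nat_lit 14))
    (@En.n l55 (nat_lit 5324) (nat_lit 2) (nat_lit 8))
    (@En.i (nat_lit 7023) (nat_lit 3) (nat_lit 8))
    (@En.n l10250 (nat_lit 12534) (nat_lit 4) (nat_lit 9))
    (@En.n l3749 (nat_lit 5319) (nat_lit 5) (nat_lit 3))
    (@En.i (nat_lit 5037) (nat_lit 0) (nat_lit 8))
    (@En.n l50 (nat_lit 5321) (nat_lit 15) (nat_lit 2))))
  (@Cl.mk (nat_lit 0x2000800060004000e00080002000d000d000800030003000a0008000e000c) (nat_lit 0x5002404b200267a) (nat_lit 16) Lb.e (@T16.mk En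
    (@En.n l11398 (nat_lit 5325) (nat_lit 7) (nat_lit 12))
    (@En.n l4189 (nat_lit 4092) (nat_lit 1) (nat_lit 14))
    (@En.n l3490 (nat_lit 6976) (nat_lit 2) (nat_lit 8))
    (@En.n l2316 (nat_lit 4550) (nat_lit 3) (nat_lit 10))
    (@En.n l3489 (nat_lit 5324) (nat_lit 4) (nat_lit 3))
    (@En.n l18 (nat_lit 5323) (nat_lit 5) (nat_lit 3))
    (@En.n l3490 (nat_lit 5042) (nat_lit 6) (nat_lit 8))
    (@En.n l61 (nat_lit 5323) (nat_lit 8) (nat_lit 13))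
    (@En.n l11396 (nat_lit 8652) (nat_lit 9) (nat_lit 13))
    (@En.n l7 (nat_lit 5322) (nat_lit 9) (nat_lit 2))
    (@En.n l11396 (nat_lit 5319) (nat_lit 11) (nat_lit 8))
    (@En.n l645 (nat_lit 2075) (nat_lit 1) (nat_lit 14))
    (@En.n l7630 (nat_lit 4513) (nat_lit 2) (nat_lit 4))
    (@En.n l10240 (nat_lit 4752) (nat_lit 14) (nat_lit 6))
    (@En.n l3522 (nat_lit 7983) (nat_lit 4) (nat_lit 8))
    (@En.n l67 (nat_lit 5322) (nat_lit 15) (nat_lit 2))))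
  (@Cl.mk (nat_lit 0x2000900060004000e00080002000d0007000e00030002000a0008000e000c) (nat_lit 0x400240a0500867a) (nat_lit 16) Lb.e (@T16.mk En
    (@En.n l68 (nat_lit 5326) (nat_lit 12) (nat_lit 12))
    (@En.n l7630 (nat_lit 4091) (nat_lit 13) (nat_lit 14))
    (@En.i (nat_lit 6975) (nat_lit 2) (nat_lit 8))
    (@En.i (nat_lit 4554) (nat_lit 3) (nat_lit 10))
    (@En.n l17 (nat_lit 5323) (nat_lit 4) (nat_lit 2))
    (@En.i (nat_lit 5322) (nat_lit 5) (nat_lit 3))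
    (@En.i (nat_lit 13250) (nat_lit 0) (nat_lit 14))
    (@En.i (nat_lit 3168) (nat_lit 14) (nat_lit 7))
    (@En.n l1448 (nat_lit 8651) (nat_lit 9) (nat_lit 13))
    (@En.n l7 (nat_lit 5323) (nat_lit 9) (nat_lit 2))
    (@En.n l1448 (nat_lit 5320) (nat_lit 5) (nat_lit 8))
    (@En.n l645 (nat_lit 2077) (nat_lit 1) (nat_lit 14))
    (@En.n l7630 (nat_lit 4514) (nat_lit 7) (nat_lit 4))
    (@En.n l3015 (nat_lit 4784) (nat_lit 14) (nat_lit 6))
    (@En.n l197 (nat_lit 12797) (nat_lit 10) (nat_lit 9))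
    (@En.n l67 (nat_lit 5323) (nat_lit 15) (nat_lit 2))))
  (@Cl.mk (nat_lit 0x2000700060004000e00080002000e000d000200090003000a0008000e000c) (nat_lit 0x24055030268a) (nat_lit 16) Lb.e (@T16.mk En
    (@En.n l3707 (nat_lit 5327) (nat_lit 10) (nat_lit 12))
    (@En.n l3708 (nat_lit 4476) (nat_lit 11) (nat_lit 14))
    (@En.i (nat_lit 6978) (nat_lit 2) (nat_lit 8))
    (@En.i (nat_lit 12555) (nat_lit 3) (nat_lit 10))
    (@En.n l4315 (nat_lit 5322) (nat_lit 4) (nat_lit 3))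
    (@En.i (nat_lit 5039) (nat_lit 12) (nat_lit 9))
    (@En.n l50 (nat_lit 5324) (nat_lit 6) (nat_lit 2))
    (@En.n l3112 (nat_lit 5322) (nat_lit 8) (nat_lit 13))
    (@En.n l4316 (nat_lit 8708) (nat_lit 1) (nat_lit 14))
    (@En.n l28 (nat_lit 5324) (nat_lit 9) (nat_lit 2))
    (@En.i (nat_lit 5321) (nat_lit 3) (nat_lit 8))
    (@En.n l4317 (nat_lit 2074) (nat_lit 12) (nat_lit 14))
    (@En.n l3751 (nat_lit 4515) (nat_lit 5) (nat_lit 4))
    (@En.n l4318 (nat_lit 4750) (nat_lit 14) (nat_lit 6))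
    (@En.n l170 (nat_lit 7980) (nat_lit 7) (nat_lit 7))
    (@En.n l3 (nat_lit 5324) (nat_lit 15) (nat_lit 2))))
  (@Cl.mk (nat_lit 0x2000d000d000900030003000b0008000c000c0007000500040004000e0008) (nat_lit 0x56200869a000042) (nat_lit 16) Lb.e (@T16.mk En
    (@En.i (nat_lit 4483) (nat_lit 4) (nat_lit 8))
    (@En.n l20140 (nat_lit 2363) (nat_lit 1) (nat_lit 14))
    (@En.n l4195 (nat_lit 5322) (nat_lit 12) (nat_lit 4))
    (@En.n l237 (nat_lit 5332) (nat_lit 3) (nat_lit 4))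
    (@En.i (nat_lit 4698) (nat_lit 4) (nat_lit 5))
    (@En.i (nat_lit 12802) (nat_lit 5) (nat_lit 7))
    (@En.n l4380 (nat_lit 5328) (nat_lit 7) (nat_lit 12))
    (@En.i (nat_lit 4098) (nat_lit 8) (nat_lit 12))
    (@En.n l11356 (nat_lit 6981) (nat_lit 13) (nat_lit 8))
    (@En.i (nat_lit 4703) (nat_lit 10) (nat_lit 11))
    (@En.n l152 (nat_lit 5327) (nat_lit 13) (nat_lit 3))
    (@En.n l21562 (nat_lit 5326) (nat_lit 0) (nat_lit 3))
    (@En.n l97 (nat_lit 4901) (nat_lit 0) (nat_lit 9))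
    (@En.n l21183 (nat_lit 5326) (nat_lit 3) (nat_lit 13))
    (@En.i (nat_lit 8655) (nat_lit 2) (nat_lit 13))
    (@En.n l17 (nat_lit 5325) (nat_lit 15) (nat_lit 2))))
  (@Cl.mk (nat_lit 0x2000b0008000c000c0008000500040004000e00080002000d0008000e0003) (nat_lit 0x169a60003205150) (nat_lit 16) Lb.e (@T16.mk En
    (@En.n l4189 (nat_lit 5325) (nat_lit 11) (nat_lit 3))
    (@En.n l5939 (nat_lit 13241) (nat_lit 0) (nat_lit 14))
    (@En.n l24754 (nat_lit 3170) (nat_lit 14) (nat_lit 8))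
    (@En.i (nat_lit 8654) (nat_lit 2) (nat_lit 13))
    (@En.n l7 (nat_lit 5326) (nat_lit 4) (nat_lit 2))
    (@En.n l25677 (nat_lit 4487) (nat_lit 5) (nat_lit 8))
    (@En.n l134 (nat_lit 2364) (nat_lit 1) (nat_lit 14))
    (@En.n l11 (nat_lit 5323) (nat_lit 12) (nat_lit 4))
    (@En.n l35249 (nat_lit 5336) (nat_lit 3) (nat_lit 4))
    (@En.n l936 (nat_lit 4696) (nat_lit 9) (nat_lit 5))
    (@En.n l532 (nat_lit 12799) (nat_lit 5) (nat_lit 8))
    (@En.n l2691 (nat_lit 5329) (nat_lit 12) (nat_lit 12))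
    (@En.n l7630 (nat_lit 4097) (nat_lit 13) (nat_lit 12))
    (@En.i (nat_lit 6982) (nat_lit 14) (nat_lit 8))
    (@En.i (nat_lit 3425) (nat_lit 10) (nat_lit 11))
    (@En.n l17 (nat_lit 5326) (nat_lit 15) (nat_lit 2))))
  (@Cl.mk (nat_lit 0x2000a0003000b0008000c000c0006000500040004000e00080002000e000d) (nat_lit 0x30869a000032066) (nat_lit 16) Lb.e (@T16.mk En
    (@En.i (nat_lit 5325) (nat_lit 14) (nat_lit 13))
    (@En.i (nat_lit 8705) (nat_lit 1) (nat_lit 14))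
    (@En.n l17 (nat_lit 5327) (nat_lit 2) (nat_lit 2))
    (@En.i (nat_lit 4485) (nat_lit 3) (nat_lit 8))
    (@En.i (nat_lit 2365) (nat_lit 1) (nat_lit 14))
    (@En.n l1338 (nat_lit 5324) (nat_lit 12) (nat_lit 4))
    (@En.n l237 (nat_lit 5331) (nat_lit 6) (nat_lit 4))
    (@En.i (nat_lit 4747) (nat_lit 7) (nat_lit 5))
    (@En.i (nat_lit 12806) (nat_lit 8) (nat_lit 6))
    (@En.n l4380 (nat_lit 5330) (nat_lit 10) (nat_lit 12))
    (@En.i (nat_lit 4101) (nat_lit 11) (nat_lit 12))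
    (@En.n l1913 (nat_lit 6983) (nat_lit 12) (nat_lit 8))
    (@En.n l11 (nat_lit 12535) (nat_lit 13) (nat_lit 11))
    (@En.n l117 (nat_lit 5325) (nat_lit 10) (nat_lit 3))
    (@En.i (nat_lit 4963) (nat_lit 12) (nat_lit 10))
    (@En.n l3 (nat_lit 5327) (nat_lit 15) (nat_lit 2))))
noncomputable def a333 : T16 Cl := @T16.mk Cl
  (@Cl.mk (nat_lit 0x2000d000d000a00030003000c0008000c00060004000e00040002000e0008) (nat_lit 0xab80016900b0043) (nat_lit 16) Lb.e (@T16.mk En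
    (@En.i (nat_lit 4484) (nat_lit 14) (nat_lit 8))
    (@En.i (nat_lit 1172) (nat_lit 1) (nat_lit 14))
    (@En.n l50 (nat_lit 5328) (nat_lit 2) (nat_lit 2))
    (@En.n l28 (nat_lit 5325) (nat_lit 3) (nat_lit 4))
    (@En.n l601 (nat_lit 5443) (nat_lit 1) (nat_lit 14))
    (@En.n l28 (nat_lit 4695) (nat_lit 5) (nat_lit 4))
    (@En.i (nat_lit 12390) (nat_lit 6) (nat_lit 6))
    (@En.i (nat_lit 4044) (nat_lit 8) (nat_lit 12))
    (@En.n l4316 (nat_lit 6964) (nat_lit 5) (nat_lit 8))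
    (@En.i (nat_lit 3415) (nat_lit 10) (nat_lit 12))
    (@En.n l152 (nat_lit 5330) (nat_lit 13) (nat_lit 3))
    (@En.n l6822 (nat_lit 5329) (nat_lit 0) (nat_lit 3))
    (@En.n l97 (nat_lit 4902) (nat_lit 0) (nat_lit 10))
    (@En.n l17986 (nat_lit 5329) (nat_lit 3) (nat_lit 13))
    (@En.i (nat_lit 8660) (nat_lit 12) (nat_lit 13))
    (@En.n l17 (nat_lit 5328) (nat_lit 15) (nat_lit 2))))
  (@Cl.mk (nat_lit 0x2000c0008000c00070004000e00040002000e00080002000d0009000e0003) (nat_lit 0x16900b00430a750) (nat_lit 16) Lb.e (@T16.mk En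
    (@En.n l8258 (nat_lit 5328) (nat_lit 11) (nat_lit 3))
    (@En.n l476 (nat_lit 13243) (nat_lit 0) (nat_lit 14))
    (@En.n l11107 (nat_lit 5251) (nat_lit 14) (nat_lit 9))
    (@En.i (nat_lit 8659) (nat_lit 12) (nat_lit 13))
    (@En.n l7 (nat_lit 5329) (nat_lit 4) (nat_lit 2))
    (@En.n l1599 (nat_lit 4488) (nat_lit 14) (nat_lit 8))
    (@En.i (nat_lit 1174) (nat_lit 1) (nat_lit 14))
    (@En.n l11 (nat_lit 5329) (nat_lit 7) (nat_lit 2))
    (@En.n l1992 (nat_lit 5326) (nat_lit 8) (nat_lit 4))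
    (@En.n l25313 (nat_lit 5450) (nat_lit 1) (nat_lit 14))
    (@En.i (nat_lit 4697) (nat_lit 10) (nat_lit 4))
    (@En.n l5994 (nat_lit 12622) (nat_lit 6) (nat_lit 7))
    (@En.n l11107 (nat_lit 4048) (nat_lit 8) (nat_lit 12))
    (@En.n l476 (nat_lit 6963) (nat_lit 14) (nat_lit 8))
    (@En.i (nat_lit 3413) (nat_lit 10) (nat_lit 12))
    (@En.n l17 (nat_lit 5329) (nat_lit 15) (nat_lit 2))))
  (@Cl.mk (nat_lit 0x2000b0003000c0008000c00050004000e00040002000e00080002000e000d) (nat_lit 0x9046900b00430ab) (nat_lit 16) Lb.e (@T16.mk En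
    (@En.i (nat_lit 5328) (nat_lit 14) (nat_lit 13))
    (@En.i (nat_lit 8706) (nat_lit 1) (nat_lit 14))
    (@En.n l17 (nat_lit 5330) (nat_lit 2) (nat_lit 2))
    (@En.i (nat_lit 4486) (nat_lit 14) (nat_lit 8))
    (@En.i (nat_lit 1186) (nat_lit 1) (nat_lit 14))
    (@En.n l50 (nat_lit 5330) (nat_lit 5) (nat_lit 2))
    (@En.n l28 (nat_lit 5327) (nat_lit 6) (nat_lit 4))
    (@En.n l601 (nat_lit 5448) (nat_lit 1) (nat_lit 14))
    (@En.n l28 (nat_lit 4746) (nat_lit 8) (nat_lit 4))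
    (@En.i (nat_lit 12387) (nat_lit 9) (nat_lit 5))
    (@En.i (nat_lit 4047) (nat_lit 11) (nat_lit 12))
    (@En.n l3213 (nat_lit 6967) (nat_lit 12) (nat_lit 8))
    (@En.i (nat_lit 12537) (nat_lit 13) (nat_lit 12))
    (@En.n l117 (nat_lit 5328) (nat_lit 10) (nat_lit 3))
    (@En.i (nat_lit 4956) (nat_lit 12) (nat_lit 11))
    (@En.n l3 (nat_lit 5330) (nat_lit 15) (nat_lit 2))))
  (@Cl.mk (nat_lit 0x200090003000d0008000c0003000d000700040003000e00080002000e000d) (nat_lit 0x767090005107b) (nat_lit 16) Lb.e (@T16.mk En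
    (@En.i (nat_lit 5332) (nat_lit 14) (nat_lit 13))
    (@En.i (nat_lit 8709) (nat_lit 1) (nat_lit 14))
    (@En.n l17 (nat_lit 5331) (nat_lit 2) (nat_lit 2))
    (@En.i (nat_lit 2960) (nat_lit 3) (nat_lit 8))
    (@En.i (nat_lit 2343) (nat_lit 1) (nat_lit 14))
    (@En.n l5076 (nat_lit 5401) (nat_lit 5) (nat_lit 3))
    (@En.i (nat_lit 5330) (nat_lit 6) (nat_lit 4))
    (@En.i (nat_lit 12805) (nat_lit 7) (nat_lit 7))
    (@En.n l3424 (nat_lit 5445) (nat_lit 9) (nat_lit 13))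
    (@En.n l10307 (nat_lit 5333) (nat_lit 9) (nat_lit 3))
    (@En.i (nat_lit 4102) (nat_lit 11) (nat_lit 12))
    (@En.n l9051 (nat_lit 5339) (nat_lit 12) (nat_lit 8))
    (@En.i (nat_lit 10106) (nat_lit 13) (nat_lit 13))
    (@En.n l117 (nat_lit 5332) (nat_lit 10) (nat_lit 3))
    (@En.i (nat_lit 6900) (nat_lit 12) (nat_lit 9))
    (@En.n l3 (nat_lit 5331) (nat_lit 15) (nat_lit 2))))
  (@Cl.mk (nat_lit 0x2000d000d000800030003000d0008000c0003000d000800040003000e0008) (nat_lit 0xab0007630500051) (nat_lit 16) Lb.e (@T16.mk En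
    (@En.i (nat_lit 2956) (nat_lit 4) (nat_lit 8))
    (@En.i (nat_lit 2305) (nat_lit 1) (nat_lit 14))
    (@En.n l7402 (nat_lit 2957) (nat_lit 2) (nat_lit 3))
    (@En.i (nat_lit 5328) (nat_lit 3) (nat_lit 4))
    (@En.i (nat_lit 12803) (nat_lit 4) (nat_lit 8))
    (@En.n l3424 (nat_lit 5447) (nat_lit 6) (nat_lit 13))
    (@En.n l10307 (nat_lit 5334) (nat_lit 6) (nat_lit 3))
    (@En.i (nat_lit 3285) (nat_lit 0) (nat_lit 12))
    (@En.n l33768 (nat_lit 5338) (nat_lit 13) (nat_lit 8))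
    (@En.i (nat_lit 11601) (nat_lit 10) (nat_lit 13))
    (@En.n l152 (nat_lit 5331) (nat_lit 13) (nat_lit 3))
    (@En.n l146 (nat_lit 5336) (nat_lit 11) (nat_lit 3))
    (@En.n l97 (nat_lit 6905) (nat_lit 0) (nat_lit 8))
    (@En.n l148 (nat_lit 5336) (nat_lit 14) (nat_lit 13))
    (@En.n l965 (nat_lit 9086) (nat_lit 2) (nat_lit 13))
    (@En.n l17 (nat_lit 5332) (nat_lit 15) (nat_lit 2))))
  (@Cl.mk (nat_lit 0x200090003000d000b00090003000d000700050003000e00070002000e000d) (nat_lit 0x6900700070000) (nat_lit 16) Lb.e (@T16.mk En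
    (@En.i (nat_lit 5334) (nat_lit 14) (nat_lit 13))
    (@En.i (nat_lit 7483) (nat_lit 1) (nat_lit 14))
    (@En.n l17 (nat_lit 5333) (nat_lit 2) (nat_lit 2))
    (@En.i (nat_lit 5342) (nat_lit 3) (nat_lit 7))
    (@En.n l7081 (nat_lit 2351) (nat_lit 1) (nat_lit 14))
    (@En.i (nat_lit 5862) (nat_lit 5) (nat_lit 3))
    (@En.n l7081 (nat_lit 5831) (nat_lit 6) (nat_lit 5))
    (@En.n l564 (nat_lit 12807) (nat_lit 7) (nat_lit 7))
    (@En.n l1415 (nat_lit 6089) (nat_lit 9) (nat_lit 13))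
    (@En.n l7081 (nat_lit 5331) (nat_lit 9) (nat_lit 3))
    (@En.i (nat_lit 5647) (nat_lit 11) (nat_lit 9))
    (@En.n l11084 (nat_lit 5327) (nat_lit 12) (nat_lit 11))
    (@En.i (nat_lit 10105) (nat_lit 13) (nat_lit 13))
    (@En.n l117 (nat_lit 5334) (nat_lit 10) (nat_lit 3))
    (@En.i (nat_lit 6901) (nat_lit 12) (nat_lit 9))
    (@En.n l3 (nat_lit 5333) (nat_lit 15) (nat_lit 2))))
  (@Cl.mk (nat_lit 0x2000d000d000800030003000d000b00090003000d000800050003000e0007) (nat_lit 0xb00006910500070) (nat_lit 16) Lb.e (@T16.mk En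
    (@En.i (nat_lit 5337) (nat_lit 4) (nat_lit 7))
    (@En.n l5022 (nat_lit 2303) (nat_lit 1) (nat_lit 14))
    (@En.i (nat_lit 4516) (nat_lit 2) (nat_lit 3))
    (@En.n l7081 (nat_lit 5828) (nat_lit 3) (nat_lit 5))
    (@En.n l644 (nat_lit 12804) (nat_lit 4) (nat_lit 8))
    (@En.n l1415 (nat_lit 6092) (nat_lit 6) (nat_lit 13))
    (@En.n l7081 (nat_lit 5332) (nat_lit 6) (nat_lit 3))
    (@En.i (nat_lit 4670) (nat_lit 0) (nat_lit 9))
    (@En.n l11084 (nat_lit 5325) (nat_lit 9) (nat_lit 11))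
    (@En.i (nat_lit 12224) (nat_lit 10) (nat_lit 13))
    (@En.n l152 (nat_lit 5333) (nat_lit 13) (nat_lit 3))
    (@En.n l20805 (nat_lit 5335) (nat_lit 11) (nat_lit 3))
    (@En.n l97 (nat_lit 6906) (nat_lit 0) (nat_lit 8))
    (@En.n l21885 (nat_lit 5335) (nat_lit 14) (nat_lit 13))
    (@En.i (nat_lit 9092) (nat_lit 2) (nat_lit 13))
    (@En.n l17 (nat_lit 5334) (nat_lit 15) (nat_lit 2))))
  (@Cl.mk (nat_lit 0x2000d0007000e00030002000d000b00090003000d000900050003000e0007) (nat_lit 0xb04006200560070) (nat_lit 16) Lb.e (@T16.mk En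
    (@En.i (nat_lit 5341) (nat_lit 5) (nat_lit 7))
    (@En.n l134 (nat_lit 2302) (nat_lit 1) (nat_lit 14))
    (@En.n l11 (nat_lit 5343) (nat_lit 2) (nat_lit 3))
    (@En.i (nat_lit 5830) (nat_lit 8) (nat_lit 5))
    (@En.n l532 (nat_lit 12800) (nat_lit 4) (nat_lit 9))
    (@En.i (nat_lit 6094) (nat_lit 11) (nat_lit 13))
    (@En.n l7630 (nat_lit 5336) (nat_lit 6) (nat_lit 3))
    (@En.i (nat_lit 5642) (nat_lit 0) (nat_lit 9))
    (@En.i (nat_lit 5326) (nat_lit 14) (nat_lit 11))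
    (@En.i (nat_lit 12219) (nat_lit 10) (nat_lit 13))
    (@En.n l17 (nat_lit 5335) (nat_lit 10) (nat_lit 2))
    (@En.n l2943 (nat_lit 5334) (nat_lit 11) (nat_lit 3))
    (@En.i (nat_lit 13177) (nat_lit 0) (nat_lit 14))
    (@En.i (nat_lit 6439) (nat_lit 14) (nat_lit 7))
    (@En.i (nat_lit 9093) (nat_lit 2) (nat_lit 13))
    (@En.n l7 (nat_lit 5335) (nat_lit 15) (nat_lit 2))))
  (@Cl.mk (nat_lit 0x2000d0007000e00030002000d0008000c0003000d000900040003000e0008) (nat_lit 0xa03007670660051) (nat_lit 16) Lb.e (@T16.mk En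
    (@En.n l8907 (nat_lit 2963) (nat_lit 5) (nat_lit 8))
    (@En.n l1819 (nat_lit 2367) (nat_lit 1) (nat_lit 14))
    (@En.n l11 (nat_lit 5400) (nat_lit 2) (nat_lit 3))
    (@En.n l20302 (nat_lit 5329) (nat_lit 8) (nat_lit 4))
    (@En.i (nat_lit 12801) (nat_lit 4) (nat_lit 9))
    (@En.n l13443 (nat_lit 5444) (nat_lit 11) (nat_lit 13))
    (@En.n l18866 (nat_lit 5335) (nat_lit 6) (nat_lit 3))
    (@En.i (nat_lit 4100) (nat_lit 0) (nat_lit 12))
    (@En.n l20299 (nat_lit 5340) (nat_lit 14) (nat_lit 8))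
    (@En.i (nat_lit 11597) (nat_lit 10) (nat_lit 13))
    (@En.n l17 (nat_lit 5336) (nat_lit 10) (nat_lit 2))
    (@En.n l137 (nat_lit 5332) (nat_lit 11) (nat_lit 3))
    (@En.i (nat_lit 13301) (nat_lit 0) (nat_lit 14))
    (@En.n l4112 (nat_lit 6443) (nat_lit 14) (nat_lit 7))
    (@En.n l8910 (nat_lit 9089) (nat_lit 2) (nat_lit 13))
    (@En.n l7 (nat_lit 5336) (nat_lit 15) (nat_lit 2))))
  (@Cl.mk (nat_lit 0x30003000c000a000900090004000d00090006000300070007000d000d0007) (nat_lit 0x83220900000000) (nat_lit 16) Lb.e (@T16.mk En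
    (@En.n l97 (nat_lit 6587) (nat_lit 0) (nat_lit 7))
    (@En.n l21885 (nat_lit 5341) (nat_lit 3) (nat_lit 13))
    (@En.n l24726 (nat_lit 9396) (nat_lit 13) (nat_lit 13))
    (@En.n l40402 (nat_lit 5576) (nat_lit 9) (nat_lit 7))
    (@En.n l40403 (nat_lit 6256) (nat_lit 4) (nat_lit 7))
    (@En.n l32572 (nat_lit 5570) (nat_lit 5) (nat_lit 3))
    (@En.n l7081 (nat_lit 5836) (nat_lit 0) (nat_lit 6))
    (@En.n l17030 (nat_lit 5594) (nat_lit 8) (nat_lit 9))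
    (@En.n l1415 (nat_lit 6012) (nat_lit 9) (nat_lit 13))
    (@En.n l40404 (nat_lit 3928) (nat_lit 9) (nat_lit 4))
    (@En.n l61 (nat_lit 5334) (nat_lit 7) (nat_lit 9))
    (@En.n l25672 (nat_lit 3922) (nat_lit 12) (nat_lit 9))
    (@En.n l11084 (nat_lit 4483) (nat_lit 13) (nat_lit 10))
    (@En.i (nat_lit 12214) (nat_lit 8) (nat_lit 12))
    (@En.n l152 (nat_lit 5342) (nat_lit 13) (nat_lit 3))
    (@En.n l20805 (nat_lit 5341) (nat_lit 0) (nat_lit 3))))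
  (@Cl.mk (nat_lit 0x300030008000c0009000d000700040003000d000800070003000d000d0009) (nat_lit 0x56070005300002) (nat_lit 16) Lb.e (@T16.mk En
    (@En.i (nat_lit 6588) (nat_lit 0) (nat_lit 9))
    (@En.n l41555 (nat_lit 5340) (nat_lit 3) (nat_lit 13))
    (@En.n l3528 (nat_lit 10458) (nat_lit 2) (nat_lit 13))
    (@En.n l152 (nat_lit 5559) (nat_lit 3) (nat_lit 3))
    (@En.n l27810 (nat_lit 5334) (nat_lit 0) (nat_lit 7))
    (@En.n l97 (nat_lit 5512) (nat_lit 5) (nat_lit 8))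
    (@En.n l1140 (nat_lit 4187) (nat_lit 7) (nat_lit 13))
    (@En.n l27810 (nat_lit 5402) (nat_lit 7) (nat_lit 3))
    (@En.n l25360 (nat_lit 6964) (nat_lit 0) (nat_lit 4))
    (@En.n l9877 (nat_lit 10267) (nat_lit 0) (nat_lit 7))
    (@En.i (nat_lit 3572) (nat_lit 11) (nat_lit 13))
    (@En.n l17791 (nat_lit 5553) (nat_lit 12) (nat_lit 9))
    (@En.n l3528 (nat_lit 4570) (nat_lit 13) (nat_lit 12))
    (@En.i (nat_lit 10445) (nat_lit 14) (nat_lit 8))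
    (@En.n l7 (nat_lit 5339) (nat_lit 13) (nat_lit 3))
    (@En.n l39029 (nat_lit 5340) (nat_lit 0) (nat_lit 3))))
  (@Cl.mk (nat_lit 0x2000a00030008000c0009000d000600040003000d000800070003000e000d) (nat_lit 0x5306000230021) (nat_lit 16) Lb.e (@T16.mk En
    (@En.n l134 (nat_lit 5338) (nat_lit 2) (nat_lit 13))
    (@En.i (nat_lit 7675) (nat_lit 1) (nat_lit 14))
    (@En.n l152 (nat_lit 5560) (nat_lit 2) (nat_lit 3))
    (@En.n l9970 (nat_lit 5333) (nat_lit 3) (nat_lit 7))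
    (@En.n l97 (nat_lit 5513) (nat_lit 4) (nat_lit 8))
    (@En.n l1867 (nat_lit 4188) (nat_lit 6) (nat_lit 13))
    (@En.n l9970 (nat_lit 5403) (nat_lit 6) (nat_lit 3))
    (@En.n l18 (nat_lit 6967) (nat_lit 7) (nat_lit 4))
    (@En.i (nat_lit 10332) (nat_lit 8) (nat_lit 6))
    (@En.i (nat_lit 3576) (nat_lit 10) (nat_lit 13))
    (@En.n l61 (nat_lit 5653) (nat_lit 11) (nat_lit 9))
    (@En.n l21428 (nat_lit 4569) (nat_lit 12) (nat_lit 12))
    (@En.i (nat_lit 8746) (nat_lit 13) (nat_lit 8))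
    (@En.i (nat_lit 5338) (nat_lit 14) (nat_lit 3))
    (@En.i (nat_lit 6553) (nat_lit 0) (nat_lit 10))
    (@En.n l28 (nat_lit 5339) (nat_lit 15) (nat_lit 2))))
  (@Cl.mk (nat_lit 0x20008000c0009000d000800040003000d000800070003000d0008000e0003) (nat_lit 0x56086005300b150) (nat_lit 16) Lb.e (@T16.mk En
    (@En.n l30972 (nat_lit 5338) (nat_lit 15) (nat_lit 3))
    (@En.n l5939 (nat_lit 13305) (nat_lit 0) (nat_lit 14))
    (@En.i (nat_lit 5294) (nat_lit 2) (nat_lit 8))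
    (@En.n l39114 (nat_lit 10456) (nat_lit 2) (nat_lit 13))
    (@En.n l39115 (nat_lit 5561) (nat_lit 4) (nat_lit 3))
    (@En.i (nat_lit 5335) (nat_lit 0) (nat_lit 7))
    (@En.n l30975 (nat_lit 5510) (nat_lit 6) (nat_lit 8))
    (@En.n l39116 (nat_lit 4189) (nat_lit 8) (nat_lit 13))
    (@En.n l30977 (nat_lit 5404) (nat_lit 8) (nat_lit 3))
    (@En.n l839 (nat_lit 6963) (nat_lit 9) (nat_lit 4))
    (@En.n l34132 (nat_lit 10264) (nat_lit 11) (nat_lit 8))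
    (@En.n l39117 (nat_lit 4118) (nat_lit 12) (nat_lit 13))
    (@En.n l3 (nat_lit 5652) (nat_lit 13) (nat_lit 9))
    (@En.n l839 (nat_lit 4586) (nat_lit 14) (nat_lit 12))
    (@En.n l4934 (nat_lit 10444) (nat_lit 14) (nat_lit 8))
    (@En.n l17 (nat_lit 5340) (nat_lit 15) (nat_lit 2))))
  (@Cl.mk (nat_lit 0x2000c000a000900090004000d000a0006000300070007000d0006000e0003) (nat_lit 0x88210a80000b040) (nat_lit 16) Lb.e (@T16.mk En
    (@En.n l2943 (nat_lit 5337) (nat_lit 15) (nat_lit 3))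
    (@En.i (nat_lit 13224) (nat_lit 0) (nat_lit 14))
    (@En.i (nat_lit 6437) (nat_lit 2) (nat_lit 6))
    (@En.n l15989 (nat_lit 9395) (nat_lit 13) (nat_lit 13))
    (@En.n l12935 (nat_lit 5577) (nat_lit 9) (nat_lit 7))
    (@En.n l12936 (nat_lit 6255) (nat_lit 5) (nat_lit 7))
    (@En.n l12937 (nat_lit 5571) (nat_lit 6) (nat_lit 3))
    (@En.i (nat_lit 5835) (nat_lit 0) (nat_lit 6))
    (@En.n l21237 (nat_lit 5616) (nat_lit 9) (nat_lit 10))
    (@En.n l27120 (nat_lit 6011) (nat_lit 10) (nat_lit 13))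
    (@En.n l26753 (nat_lit 5554) (nat_lit 10) (nat_lit 4))
    (@En.n l77 (nat_lit 5335) (nat_lit 7) (nat_lit 9))
    (@En.i (nat_lit 3921) (nat_lit 13) (nat_lit 9))
    (@En.n l25677 (nat_lit 4487) (nat_lit 14) (nat_lit 10))
    (@En.i (nat_lit 12216) (nat_lit 8) (nat_lit 12))
    (@En.n l17 (nat_lit 5341) (nat_lit 15) (nat_lit 2))))
  (@Cl.mk (nat_lit 0x200080003000c000a000900090004000d00080006000300070007000e000d) (nat_lit 0x8321080000001) (nat_lit 16) Lb.e (@T16.mk En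
    (@En.i (nat_lit 5337) (nat_lit 2) (nat_lit 13))
    (@En.i (nat_lit 9157) (nat_lit 1) (nat_lit 14))
    (@En.n l26896 (nat_lit 5578) (nat_lit 9) (nat_lit 7))
    (@En.n l26897 (nat_lit 6259) (nat_lit 3) (nat_lit 7))
    (@En.i (nat_lit 5572) (nat_lit 4) (nat_lit 3))
    (@En.n l7081 (nat_lit 5837) (nat_lit 0) (nat_lit 6))
    (@En.n l26898 (nat_lit 5595) (nat_lit 6) (nat_lit 8))
    (@En.n l1415 (nat_lit 6096) (nat_lit 8) (nat_lit 13))
    (@En.n l12862 (nat_lit 5555) (nat_lit 8) (nat_lit 4))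
    (@En.n l61 (nat_lit 5333) (nat_lit 10) (nat_lit 9))
    (@En.n l25672 (nat_lit 3925) (nat_lit 11) (nat_lit 9))
    (@En.n l11084 (nat_lit 4485) (nat_lit 12) (nat_lit 10))
    (@En.n l16912 (nat_lit 10111) (nat_lit 13) (nat_lit 12))
    (@En.n l117 (nat_lit 5337) (nat_lit 14) (nat_lit 3))
    (@En.i (nat_lit 6836) (nat_lit 0) (nat_lit 8))
    (@En.n l3 (nat_lit 5342) (nat_lit 15) (nat_lit 2))))
  (@Cl.mk (nat_lit 0x2000d0006000e00030002000d000c00090003000d0004000a0003000e0007) (nat_lit 0xb03007800500070) (nat_lit 16) Lb.e (@T16.mk En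
    (@En.n l21237 (nat_lit 5571) (nat_lit 5) (nat_lit 7))
    (@En.n l134 (nat_lit 6265) (nat_lit 1) (nat_lit 14))
    (@En.i (nat_lit 5335) (nat_lit 2) (nat_lit 3))
    (@En.n l21052 (nat_lit 11063) (nat_lit 3) (nat_lit 10))
    (@En.n l117 (nat_lit 4511) (nat_lit 9) (nat_lit 4))
    (@En.i (nat_lit 6095) (nat_lit 11) (nat_lit 13))
    (@En.n l7630 (nat_lit 5400) (nat_lit 6) (nat_lit 3))
    (@En.n l21052 (nat_lit 5641) (nat_lit 0) (nat_lit 9))
    (@En.n l7630 (nat_lit 4514) (nat_lit 14) (nat_lit 12))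
    (@En.i (nat_lit 11624) (nat_lit 10) (nat_lit 13))
    (@En.n l17 (nat_lit 5343) (nat_lit 10) (nat_lit 2))
    (@En.n l2869 (nat_lit 4516) (nat_lit 11) (nat_lit 3))
    (@En.i (nat_lit 13181) (nat_lit 0) (nat_lit 14))
    (@En.i (nat_lit 5795) (nat_lit 14) (nat_lit 6))
    (@En.n l26068 (nat_lit 8547) (nat_lit 2) (nat_lit 13))
    (@En.n l7 (nat_lit 5343) (nat_lit 15) (nat_lit 2))))
noncomputable def a334 : T16 Cl := @T16.mk Cl
  (@Cl.mk (nat_lit 0x2000b00050008000d000c0005000300090004000e00080002000b000e0007) (nat_lit 0x5062700602104a0) (nat_lit 16) Lb.e (@T16.mk En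
    (@En.n l12049 (nat_lit 5115) (nat_lit 13) (nat_lit 7))
    (@En.i (nat_lit 12621) (nat_lit 4) (nat_lit 14))
    (@En.n l12050 (nat_lit 1926) (nat_lit 2) (nat_lit 11))
    (@En.n l50 (nat_lit 5344) (nat_lit 3) (nat_lit 2))
    (@En.n l12051 (nat_lit 1926) (nat_lit 4) (nat_lit 8))
    (@En.n l12052 (nat_lit 10784) (nat_lit 1) (nat_lit 14))
    (@En.n l1034 (nat_lit 4915) (nat_lit 6) (nat_lit 4))
    (@En.n l12053 (nat_lit 5361) (nat_lit 3) (nat_lit 9))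
    (@En.n l11 (nat_lit 1927) (nat_lit 4) (nat_lit 3))
    (@En.n l1034 (nat_lit 4832) (nat_lit 0) (nat_lit 5))
    (@En.n l3298 (nat_lit 5960) (nat_lit 7) (nat_lit 12))
    (@En.i (nat_lit 8233) (nat_lit 8) (nat_lit 13))
    (@En.n l12054 (nat_lit 4669) (nat_lit 13) (nat_lit 8))
    (@En.n l9774 (nat_lit 1919) (nat_lit 14) (nat_lit 5))
    (@En.n l12055 (nat_lit 4457) (nat_lit 11) (nat_lit 11))
    (@En.n l17 (nat_lit 5344) (nat_lit 15) (nat_lit 2))))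
  (@Cl.mk (nat_lit 0x200090005000e00080002000d000c00070003000b00040008000b000e0005) (nat_lit 0x305104900906280) (nat_lit 16) Lb.e (@T16.mk En
    (@En.n l23144 (nat_lit 5114) (nat_lit 5) (nat_lit 5))
    (@En.n l3392 (nat_lit 12613) (nat_lit 7) (nat_lit 14))
    (@En.n l2568 (nat_lit 13363) (nat_lit 7) (nat_lit 11))
    (@En.n l23382 (nat_lit 8815) (nat_lit 3) (nat_lit 8))
    (@En.n l33736 (nat_lit 4911) (nat_lit 4) (nat_lit 4))
    (@En.n l810 (nat_lit 5358) (nat_lit 11) (nat_lit 11))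
    (@En.n l3486 (nat_lit 6646) (nat_lit 6) (nat_lit 3))
    (@En.n l14576 (nat_lit 4828) (nat_lit 7) (nat_lit 7))
    (@En.n l6608 (nat_lit 5025) (nat_lit 9) (nat_lit 12))
    (@En.i (nat_lit 9437) (nat_lit 10) (nat_lit 13))
    (@En.n l18 (nat_lit 5345) (nat_lit 10) (nat_lit 2))
    (@En.n l34768 (nat_lit 1926) (nat_lit 12) (nat_lit 8))
    (@En.n l32002 (nat_lit 6472) (nat_lit 1) (nat_lit 14))
    (@En.n l35767 (nat_lit 1923) (nat_lit 14) (nat_lit 5))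
    (@En.n l8565 (nat_lit 6660) (nat_lit 3) (nat_lit 9))
    (@En.n l11 (nat_lit 5345) (nat_lit 15) (nat_lit 2))))
  (@Cl.mk (nat_lit 0x2000b000a0006000900090005000d0006000a000300070007000a000e0006) (nat_lit 0x360000606000070) (nat_lit 16) Lb.e (@T16.mk En
    (@En.n l117 (nat_lit 5353) (nat_lit 11) (nat_lit 6))
    (@En.n l5529 (nat_lit 12331) (nat_lit 1) (nat_lit 14))
    (@En.n l50 (nat_lit 5347) (nat_lit 8) (nat_lit 10))
    (@En.n l217 (nat_lit 5347) (nat_lit 9) (nat_lit 7))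
    (@En.i (nat_lit 7803) (nat_lit 4) (nat_lit 7))
    (@En.n l40356 (nat_lit 5349) (nat_lit 5) (nat_lit 3))
    (@En.i (nat_lit 5367) (nat_lit 0) (nat_lit 10))
    (@En.n l37613 (nat_lit 4833) (nat_lit 7) (nat_lit 6))
    (@En.n l9105 (nat_lit 2016) (nat_lit 9) (nat_lit 13))
    (@En.i (nat_lit 7468) (nat_lit 9) (nat_lit 5))
    (@En.n l24846 (nat_lit 5348) (nat_lit 7) (nat_lit 9))
    (@En.n l22476 (nat_lit 7722) (nat_lit 12) (nat_lit 9))
    (@En.n l23325 (nat_lit 1721) (nat_lit 13) (nat_lit 6))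
    (@En.n l34768 (nat_lit 1926) (nat_lit 14) (nat_lit 10))
    (@En.i (nat_lit 6793) (nat_lit 9) (nat_lit 11))
    (@En.n l11 (nat_lit 5346) (nat_lit 15) (nat_lit 2))))
  (@Cl.mk (nat_lit 0x20006000d0007000b00030007000a000e00050002000a00090006000e0009) (nat_lit 0x70700860044001) (nat_lit 16) Lb.e (@T16.mk En
    (@En.i (nat_lit 5346) (nat_lit 11) (nat_lit 9))
    (@En.n l396 (nat_lit 7705) (nat_lit 1) (nat_lit 14))
    (@En.n l1253 (nat_lit 1449) (nat_lit 2) (nat_lit 6))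
    (@En.i (nat_lit 5345) (nat_lit 14) (nat_lit 9))
    (@En.i (nat_lit 6795) (nat_lit 4) (nat_lit 10))
    (@En.n l11 (nat_lit 5347) (nat_lit 5) (nat_lit 2))
    (@En.n l117 (nat_lit 5355) (nat_lit 6) (nat_lit 5))
    (@En.n l3486 (nat_lit 12611) (nat_lit 8) (nat_lit 14))
    (@En.n l2568 (nat_lit 13908) (nat_lit 8) (nat_lit 10))
    (@En.i (nat_lit 7801) (nat_lit 3) (nat_lit 7))
    (@En.n l2576 (nat_lit 5351) (nat_lit 10) (nat_lit 3))
    (@En.i (nat_lit 5364) (nat_lit 0) (nat_lit 11))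
    (@En.i (nat_lit 4834) (nat_lit 13) (nat_lit 7))
    (@En.i (nat_lit 2021) (nat_lit 8) (nat_lit 13))
    (@En.i (nat_lit 7465) (nat_lit 8) (nat_lit 6))
    (@En.n l18 (nat_lit 5347) (nat_lit 15) (nat_lit 2))))
  (@Cl.mk (nat_lit 0x2000a000e00070002000c000b000600090004000d000500090003000e0007) (nat_lit 0x170066070505080) (nat_lit 16) Lb.e (@T16.mk En
    (@En.n l11156 (nat_lit 5346) (nat_lit 4) (nat_lit 7))
    (@En.n l564 (nat_lit 11000) (nat_lit 1) (nat_lit 14))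
    (@En.n l7 (nat_lit 5350) (nat_lit 2) (nat_lit 3))
    (@En.i (nat_lit 5368) (nat_lit 3) (nat_lit 9))
    (@En.n l2678 (nat_lit 4838) (nat_lit 4) (nat_lit 5))
    (@En.i (nat_lit 2015) (nat_lit 10) (nat_lit 13))
    (@En.n l1038 (nat_lit 11014) (nat_lit 6) (nat_lit 4))
    (@En.i (nat_lit 5643) (nat_lit 12) (nat_lit 9))
    (@En.n l1529 (nat_lit 1720) (nat_lit 8) (nat_lit 6))
    (@En.n l4524 (nat_lit 5344) (nat_lit 14) (nat_lit 11))
    (@En.i (nat_lit 6791) (nat_lit 11) (nat_lit 12))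
    (@En.n l3 (nat_lit 5348) (nat_lit 11) (nat_lit 2))
    (@En.i (nat_lit 5354) (nat_lit 13) (nat_lit 7))
    (@En.n l1173 (nat_lit 11068) (nat_lit 1) (nat_lit 14))
    (@En.n l8522 (nat_lit 5346) (nat_lit 2) (nat_lit 10))
    (@En.n l18 (nat_lit 5348) (nat_lit 15) (nat_lit 2))))
  (@Cl.mk (nat_lit 0x2000b00090006000900090005000d00090007000300070007000a000e0007) (nat_lit 0x450000630000030) (nat_lit 16) Lb.e (@T16.mk En
    (@En.n l34508 (nat_lit 5352) (nat_lit 11) (nat_lit 7))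
    (@En.n l8167 (nat_lit 12337) (nat_lit 1) (nat_lit 14))
    (@En.n l34509 (nat_lit 5351) (nat_lit 8) (nat_lit 10))
    (@En.n l34510 (nat_lit 5351) (nat_lit 9) (nat_lit 7))
    (@En.n l34511 (nat_lit 7954) (nat_lit 4) (nat_lit 7))
    (@En.n l11156 (nat_lit 5346) (nat_lit 5) (nat_lit 3))
    (@En.n l11449 (nat_lit 5765) (nat_lit 0) (nat_lit 7))
    (@En.n l25675 (nat_lit 6632) (nat_lit 8) (nat_lit 9))
    (@En.n l565 (nat_lit 2013) (nat_lit 9) (nat_lit 13))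
    (@En.n l11449 (nat_lit 9025) (nat_lit 9) (nat_lit 5))
    (@En.n l217 (nat_lit 5350) (nat_lit 7) (nat_lit 9))
    (@En.i (nat_lit 7721) (nat_lit 12) (nat_lit 9))
    (@En.n l17720 (nat_lit 1722) (nat_lit 13) (nat_lit 6))
    (@En.n l11454 (nat_lit 4913) (nat_lit 14) (nat_lit 9))
    (@En.n l34512 (nat_lit 1715) (nat_lit 9) (nat_lit 11))
    (@En.n l3 (nat_lit 5349) (nat_lit 15) (nat_lit 2))))
  (@Cl.mk (nat_lit 0x2000a000e00080002000c000a000600090004000d000800060003000e0007) (nat_lit 0x150054070520080) (nat_lit 16) Lb.e (@T16.mk En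
    (@En.i (nat_lit 5349) (nat_lit 4) (nat_lit 7))
    (@En.n l25675 (nat_lit 9908) (nat_lit 1) (nat_lit 14))
    (@En.i (nat_lit 5348) (nat_lit 2) (nat_lit 3))
    (@En.n l25637 (nat_lit 5760) (nat_lit 3) (nat_lit 6))
    (@En.n l25675 (nat_lit 6633) (nat_lit 4) (nat_lit 8))
    (@En.n l565 (nat_lit 2014) (nat_lit 10) (nat_lit 13))
    (@En.n l25637 (nat_lit 11015) (nat_lit 6) (nat_lit 4))
    (@En.i (nat_lit 5641) (nat_lit 12) (nat_lit 9))
    (@En.i (nat_lit 1296) (nat_lit 8) (nat_lit 6))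
    (@En.n l34522 (nat_lit 4915) (nat_lit 14) (nat_lit 10))
    (@En.n l34523 (nat_lit 1716) (nat_lit 11) (nat_lit 12))
    (@En.n l3 (nat_lit 5350) (nat_lit 11) (nat_lit 2))
    (@En.i (nat_lit 5356) (nat_lit 13) (nat_lit 8))
    (@En.n l8167 (nat_lit 12333) (nat_lit 1) (nat_lit 14))
    (@En.n l1738 (nat_lit 5349) (nat_lit 2) (nat_lit 10))
    (@En.n l18 (nat_lit 5350) (nat_lit 15) (nat_lit 2))))
  (@Cl.mk (nat_lit 0x20006000d000a000800030007000a000e00060002000a00080006000e0009) (nat_lit 0x742008200450b1) (nat_lit 16) Lb.e (@T16.mk En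
    (@En.n l19383 (nat_lit 5349) (nat_lit 11) (nat_lit 9))
    (@En.n l396 (nat_lit 7704) (nat_lit 1) (nat_lit 14))
    (@En.n l7030 (nat_lit 1747) (nat_lit 2) (nat_lit 6))
    (@En.n l3751 (nat_lit 4911) (nat_lit 14) (nat_lit 8))
    (@En.n l614 (nat_lit 1717) (nat_lit 4) (nat_lit 10))
    (@En.n l11 (nat_lit 5351) (nat_lit 5) (nat_lit 2))
    (@En.n l117 (nat_lit 5357) (nat_lit 6) (nat_lit 6))
    (@En.n l7849 (nat_lit 12609) (nat_lit 8) (nat_lit 14))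
    (@En.n l2238 (nat_lit 13907) (nat_lit 8) (nat_lit 10))
    (@En.n l12412 (nat_lit 7953) (nat_lit 3) (nat_lit 7))
    (@En.n l936 (nat_lit 5347) (nat_lit 10) (nat_lit 3))
    (@En.i (nat_lit 5766) (nat_lit 0) (nat_lit 8))
    (@En.n l936 (nat_lit 6635) (nat_lit 13) (nat_lit 10))
    (@En.n l3633 (nat_lit 2019) (nat_lit 8) (nat_lit 13))
    (@En.i (nat_lit 9022) (nat_lit 8) (nat_lit 6))
    (@En.n l18 (nat_lit 5351) (nat_lit 15) (nat_lit 2))))
  (@Cl.mk (nat_lit 0x400080008000b00070007000b00080005000800080005000c000900090008) (nat_lit 0x3400006543) (nat_lit 16) Lb.e (@T16.mk En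
    (@En.n l55 (nat_lit 1743) (nat_lit 8) (nat_lit 8))
    (@En.n l41269 (nat_lit 5349) (nat_lit 7) (nat_lit 9))
    (@En.n l41270 (nat_lit 2091) (nat_lit 7) (nat_lit 9))
    (@En.n l41271 (nat_lit 2022) (nat_lit 3) (nat_lit 12))
    (@En.n l37010 (nat_lit 9024) (nat_lit 4) (nat_lit 5))
    (@En.n l41272 (nat_lit 5356) (nat_lit 8) (nat_lit 8))
    (@En.n l41273 (nat_lit 7186) (nat_lit 10) (nat_lit 8))
    (@En.n l5728 (nat_lit 1293) (nat_lit 7) (nat_lit 5))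
    (@En.n l41274 (nat_lit 4917) (nat_lit 0) (nat_lit 8))
    (@En.n l37010 (nat_lit 6802) (nat_lit 8) (nat_lit 11))
    (@En.n l5760 (nat_lit 7180) (nat_lit 9) (nat_lit 7))
    (@En.n l26210 (nat_lit 9641) (nat_lit 12) (nat_lit 7))
    (@En.n l50 (nat_lit 5357) (nat_lit 7) (nat_lit 11))
    (@En.n l217 (nat_lit 5357) (nat_lit 8) (nat_lit 8))
    (@En.n l14808 (nat_lit 7957) (nat_lit 11) (nat_lit 8))
    (@En.n l936 (nat_lit 5353) (nat_lit 15) (nat_lit 4))))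
  (@Cl.mk (nat_lit 0x400080008000b00060006000b000a0005000800080005000c0006000a000a) (nat_lit 0x2600207027) (nat_lit 16) Lb.e (@T16.mk En
    (@En.n l619 (nat_lit 5346) (nat_lit 6) (nat_lit 10))
    (@En.i (nat_lit 5359) (nat_lit 9) (nat_lit 10))
    (@En.n l37808 (nat_lit 4835) (nat_lit 6) (nat_lit 6))
    (@En.n l37225 (nat_lit 6936) (nat_lit 3) (nat_lit 12))
    (@En.i (nat_lit 9491) (nat_lit 4) (nat_lit 5))
    (@En.n l37809 (nat_lit 5354) (nat_lit 8) (nat_lit 8))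
    (@En.n l37810 (nat_lit 7187) (nat_lit 10) (nat_lit 8))
    (@En.n l3531 (nat_lit 1297) (nat_lit 7) (nat_lit 5))
    (@En.n l6825 (nat_lit 5111) (nat_lit 6) (nat_lit 10))
    (@En.n l1897 (nat_lit 6784) (nat_lit 9) (nat_lit 11))
    (@En.n l7126 (nat_lit 7179) (nat_lit 10) (nat_lit 6))
    (@En.n l5529 (nat_lit 9873) (nat_lit 12) (nat_lit 6))
    (@En.n l50 (nat_lit 5355) (nat_lit 7) (nat_lit 11))
    (@En.n l217 (nat_lit 5355) (nat_lit 8) (nat_lit 8))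
    (@En.n l6825 (nat_lit 7104) (nat_lit 11) (nat_lit 8))
    (@En.n l37811 (nat_lit 4929) (nat_lit 15) (nat_lit 4))))
  (@Cl.mk (nat_lit 0x2000b00070007000c000b000500080004000c0005000900090004000e0008) (nat_lit 0x100550106056001) (nat_lit 16) Lb.e (@T16.mk En
    (@En.n l23079 (nat_lit 5353) (nat_lit 14) (nat_lit 8))
    (@En.n l9898 (nat_lit 10117) (nat_lit 1) (nat_lit 14))
    (@En.n l7 (nat_lit 5417) (nat_lit 2) (nat_lit 4))
    (@En.n l152 (nat_lit 5348) (nat_lit 3) (nat_lit 9))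
    (@En.n l11967 (nat_lit 5414) (nat_lit 4) (nat_lit 9))
    (@En.n l2678 (nat_lit 4837) (nat_lit 5) (nat_lit 5))
    (@En.n l15680 (nat_lit 6937) (nat_lit 7) (nat_lit 12))
    (@En.n l4879 (nat_lit 9351) (nat_lit 7) (nat_lit 4))
    (@En.i (nat_lit 3632) (nat_lit 10) (nat_lit 8))
    (@En.n l12651 (nat_lit 1295) (nat_lit 9) (nat_lit 5))
    (@En.n l31541 (nat_lit 5115) (nat_lit 11) (nat_lit 11))
    (@En.n l23752 (nat_lit 6783) (nat_lit 12) (nat_lit 12))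
    (@En.n l31542 (nat_lit 7183) (nat_lit 9) (nat_lit 7))
    (@En.n l4386 (nat_lit 9870) (nat_lit 14) (nat_lit 7))
    (@En.n l25624 (nat_lit 5353) (nat_lit 12) (nat_lit 11))
    (@En.n l18 (nat_lit 5354) (nat_lit 15) (nat_lit 2))))
  (@Cl.mk (nat_lit 0x20006000c0007000b000b00040008000b00050005000a00090005000e0008) (nat_lit 0x80380690035081) (nat_lit 16) Lb.e (@T16.mk En
    (@En.i (nat_lit 5353) (nat_lit 6) (nat_lit 8))
    (@En.n l396 (nat_lit 7707) (nat_lit 1) (nat_lit 14))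
    (@En.n l3531 (nat_lit 1444) (nat_lit 2) (nat_lit 5))
    (@En.n l6825 (nat_lit 5114) (nat_lit 3) (nat_lit 9))
    (@En.n l1897 (nat_lit 6804) (nat_lit 4) (nat_lit 10))
    (@En.n l7126 (nat_lit 7178) (nat_lit 11) (nat_lit 5))
    (@En.i (nat_lit 9802) (nat_lit 6) (nat_lit 5))
    (@En.n l639 (nat_lit 13904) (nat_lit 7) (nat_lit 11))
    (@En.n l6825 (nat_lit 7102) (nat_lit 9) (nat_lit 8))
    (@En.n l10138 (nat_lit 4928) (nat_lit 9) (nat_lit 4))
    (@En.n l619 (nat_lit 5347) (nat_lit 11) (nat_lit 11))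
    (@En.i (nat_lit 4932) (nat_lit 12) (nat_lit 11))
    (@En.n l1769 (nat_lit 4836) (nat_lit 13) (nat_lit 7))
    (@En.n l699 (nat_lit 6938) (nat_lit 14) (nat_lit 12))
    (@En.i (nat_lit 9489) (nat_lit 13) (nat_lit 6))
    (@En.n l18 (nat_lit 5355) (nat_lit 15) (nat_lit 2))))
  (@Cl.mk (nat_lit 0x2000b00080008000c0009000500080004000c0008000800070004000e0008) (nat_lit 0x165430605130091) (nat_lit 16) Lb.e (@T16.mk En
    (@En.n l34508 (nat_lit 5352) (nat_lit 14) (nat_lit 8))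
    (@En.n l9862 (nat_lit 9906) (nat_lit 1) (nat_lit 14))
    (@En.i (nat_lit 5354) (nat_lit 2) (nat_lit 4))
    (@En.n l8163 (nat_lit 1745) (nat_lit 3) (nat_lit 7))
    (@En.n l152 (nat_lit 5350) (nat_lit 4) (nat_lit 8))
    (@En.n l9862 (nat_lit 2092) (nat_lit 5) (nat_lit 8))
    (@En.n l565 (nat_lit 2024) (nat_lit 7) (nat_lit 12))
    (@En.n l26077 (nat_lit 9520) (nat_lit 7) (nat_lit 4))
    (@En.i (nat_lit 5638) (nat_lit 10) (nat_lit 8))
    (@En.n l25636 (nat_lit 1290) (nat_lit 9) (nat_lit 5))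
    (@En.n l5403 (nat_lit 4978) (nat_lit 11) (nat_lit 9))
    (@En.n l26077 (nat_lit 6803) (nat_lit 12) (nat_lit 12))
    (@En.n l26077 (nat_lit 7182) (nat_lit 8) (nat_lit 8))
    (@En.n l9184 (nat_lit 9637) (nat_lit 14) (nat_lit 8))
    (@En.n l40141 (nat_lit 5352) (nat_lit 12) (nat_lit 11))
    (@En.n l18 (nat_lit 5356) (nat_lit 15) (nat_lit 2))))
  (@Cl.mk (nat_lit 0x20006000c000a000a000900040008000b00060006000a00070005000e0008) (nat_lit 0x715006900300b1) (nat_lit 16) Lb.e (@T16.mk En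
    (@En.i (nat_lit 5352) (nat_lit 6) (nat_lit 8))
    (@En.n l396 (nat_lit 7706) (nat_lit 1) (nat_lit 14))
    (@En.n l5728 (nat_lit 1456) (nat_lit 2) (nat_lit 5))
    (@En.n l3107 (nat_lit 4970) (nat_lit 3) (nat_lit 7))
    (@En.n l26224 (nat_lit 6801) (nat_lit 4) (nat_lit 10))
    (@En.n l5760 (nat_lit 7181) (nat_lit 5) (nat_lit 6))
    (@En.i (nat_lit 9798) (nat_lit 6) (nat_lit 6))
    (@En.n l26224 (nat_lit 13905) (nat_lit 7) (nat_lit 11))
    (@En.n l14808 (nat_lit 7956) (nat_lit 9) (nat_lit 8))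
    (@En.n l936 (nat_lit 5355) (nat_lit 9) (nat_lit 4))
    (@En.n l55 (nat_lit 5360) (nat_lit 11) (nat_lit 9))
    (@En.n l619 (nat_lit 5351) (nat_lit 12) (nat_lit 10))
    (@En.n l3866 (nat_lit 2093) (nat_lit 13) (nat_lit 10))
    (@En.n l699 (nat_lit 2025) (nat_lit 14) (nat_lit 12))
    (@En.i (nat_lit 9021) (nat_lit 13) (nat_lit 6))
    (@En.n l18 (nat_lit 5357) (nat_lit 15) (nat_lit 2))))
  (@Cl.mk (nat_lit 0x20007000d0007000b00030007000a000d00050009000300090006000e0009) (nat_lit 0xa0800820406061) (nat_lit 16) Lb.e (@T16.mk En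
    (@En.i (nat_lit 1742) (nat_lit 5) (nat_lit 9))
    (@En.n l396 (nat_lit 5434) (nat_lit 1) (nat_lit 14))
    (@En.n l476 (nat_lit 4932) (nat_lit 2) (nat_lit 6))
    (@En.i (nat_lit 5355) (nat_lit 3) (nat_lit 9))
    (@En.n l4108 (nat_lit 1741) (nat_lit 4) (nat_lit 3))
    (@En.n l1897 (nat_lit 3668) (nat_lit 5) (nat_lit 9))
    (@En.n l5760 (nat_lit 5387) (nat_lit 6) (nat_lit 5))
    (@En.n l9641 (nat_lit 10107) (nat_lit 8) (nat_lit 13))
    (@En.n l18446 (nat_lit 13798) (nat_lit 8) (nat_lit 10))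
    (@En.n l9591 (nat_lit 9549) (nat_lit 10) (nat_lit 7))
    (@En.n l1865 (nat_lit 4930) (nat_lit 10) (nat_lit 3))
    (@En.n l2038 (nat_lit 5365) (nat_lit 0) (nat_lit 11))
    (@En.n l16926 (nat_lit 1996) (nat_lit 13) (nat_lit 7))
    (@En.n l18446 (nat_lit 6640) (nat_lit 14) (nat_lit 13))
    (@En.i (nat_lit 8776) (nat_lit 3) (nat_lit 7))
    (@En.n l18 (nat_lit 5358) (nat_lit 15) (nat_lit 2))))
  (@Cl.mk (nat_lit 0x30006000900090005000d000a0009000300070007000a0006000d0007000b) (nat_lit 0x70091700010105) (nat_lit 16) Lb.e (@T16.mk En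
    (@En.n l1897 (nat_lit 3675) (nat_lit 0) (nat_lit 11))
    (@En.i (nat_lit 5352) (nat_lit 10) (nat_lit 7))
    (@En.i (nat_lit 1742) (nat_lit 11) (nat_lit 13))
    (@En.n l5529 (nat_lit 9801) (nat_lit 3) (nat_lit 6))
    (@En.n l50 (nat_lit 4932) (nat_lit 8) (nat_lit 10))
    (@En.n l217 (nat_lit 4932) (nat_lit 9) (nat_lit 7))
    (@En.i (nat_lit 9547) (nat_lit 6) (nat_lit 7))
    (@En.n l27375 (nat_lit 4926) (nat_lit 7) (nat_lit 3))
    (@En.n l619 (nat_lit 5366) (nat_lit 0) (nat_lit 9))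
    (@En.n l3866 (nat_lit 2095) (nat_lit 10) (nat_lit 10))
    (@En.n l39575 (nat_lit 6919) (nat_lit 11) (nat_lit 13))
    (@En.i (nat_lit 8782) (nat_lit 3) (nat_lit 5))
    (@En.n l39576 (nat_lit 5414) (nat_lit 7) (nat_lit 9))
    (@En.n l37810 (nat_lit 5800) (nat_lit 9) (nat_lit 9))
    (@En.i (nat_lit 1536) (nat_lit 12) (nat_lit 6))
    (@En.i (nat_lit 1743) (nat_lit 15) (nat_lit 3))))
noncomputable def a335 : T16 Cl := @T16.mk Cl
  (@Cl.mk (nat_lit 0x20007000d000b000900030007000a0005000d0009000700030006000e0009) (nat_lit 0x827008014000b1) (nat_lit 16) Lb.e (@T16.mk En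
    (@En.i (nat_lit 1743) (nat_lit 13) (nat_lit 9))
    (@En.n l396 (nat_lit 7728) (nat_lit 1) (nat_lit 14))
    (@En.n l1685 (nat_lit 5351) (nat_lit 2) (nat_lit 6))
    (@En.n l28 (nat_lit 4932) (nat_lit 3) (nat_lit 3))
    (@En.n l8501 (nat_lit 5002) (nat_lit 0) (nat_lit 7))
    (@En.i (nat_lit 5162) (nat_lit 5) (nat_lit 9))
    (@En.n l4108 (nat_lit 1741) (nat_lit 7) (nat_lit 13))
    (@En.n l8500 (nat_lit 9799) (nat_lit 7) (nat_lit 5))
    (@En.n l699 (nat_lit 13799) (nat_lit 8) (nat_lit 10))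
    (@En.n l5200 (nat_lit 9550) (nat_lit 5) (nat_lit 7))
    (@En.n l1798 (nat_lit 4931) (nat_lit 10) (nat_lit 3))
    (@En.n l97 (nat_lit 5764) (nat_lit 0) (nat_lit 9))
    (@En.n l1236 (nat_lit 6553) (nat_lit 13) (nat_lit 11))
    (@En.n l4037 (nat_lit 6918) (nat_lit 14) (nat_lit 13))
    (@En.i (nat_lit 9689) (nat_lit 3) (nat_lit 7))
    (@En.n l18 (nat_lit 5360) (nat_lit 15) (nat_lit 2))))
  (@Cl.mk (nat_lit 0x2000a000d0007000b0003000b000600090005000d000500090003000e0007) (nat_lit 0x170506070805070) (nat_lit 16) Lb.e (@T16.mk En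
    (@En.n l23079 (nat_lit 1742) (nat_lit 14) (nat_lit 7))
    (@En.n l3502 (nat_lit 9901) (nat_lit 1) (nat_lit 14))
    (@En.n l7 (nat_lit 5282) (nat_lit 2) (nat_lit 3))
    (@En.i (nat_lit 5370) (nat_lit 3) (nat_lit 9))
    (@En.n l28 (nat_lit 3188) (nat_lit 4) (nat_lit 5))
    (@En.n l21007 (nat_lit 6638) (nat_lit 6) (nat_lit 13))
    (@En.n l4879 (nat_lit 9349) (nat_lit 6) (nat_lit 5))
    (@En.i (nat_lit 4208) (nat_lit 9) (nat_lit 9))
    (@En.n l476 (nat_lit 5414) (nat_lit 8) (nat_lit 6))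
    (@En.i (nat_lit 5354) (nat_lit 10) (nat_lit 11))
    (@En.n l23060 (nat_lit 1740) (nat_lit 10) (nat_lit 3))
    (@En.n l619 (nat_lit 3674) (nat_lit 0) (nat_lit 11))
    (@En.n l551 (nat_lit 5386) (nat_lit 13) (nat_lit 7))
    (@En.n l4879 (nat_lit 7967) (nat_lit 5) (nat_lit 13))
    (@En.n l25624 (nat_lit 1742) (nat_lit 12) (nat_lit 10))
    (@En.n l18 (nat_lit 5361) (nat_lit 15) (nat_lit 2))))
  (@Cl.mk (nat_lit 0x2000600060009000c0006000d000a000400030007000a000a0006000e000a) (nat_lit 0x609500002058) (nat_lit 16) Lb.e (@T16.mk En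
    (@En.n l4037 (nat_lit 7561) (nat_lit 10) (nat_lit 10))
    (@En.n l1386 (nat_lit 7827) (nat_lit 1) (nat_lit 14))
    (@En.i (nat_lit 12187) (nat_lit 2) (nat_lit 6))
    (@En.n l11231 (nat_lit 5370) (nat_lit 6) (nat_lit 10))
    (@En.n l11104 (nat_lit 5798) (nat_lit 4) (nat_lit 10))
    (@En.n l343 (nat_lit 5366) (nat_lit 5) (nat_lit 7))
    (@En.n l28 (nat_lit 5367) (nat_lit 6) (nat_lit 3))
    (@En.n l1393 (nat_lit 5763) (nat_lit 7) (nat_lit 4))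
    (@En.i (nat_lit 5035) (nat_lit 9) (nat_lit 10))
    (@En.n l11104 (nat_lit 3108) (nat_lit 10) (nat_lit 13))
    (@En.n l117 (nat_lit 1743) (nat_lit 3) (nat_lit 6))
    (@En.n l5529 (nat_lit 8947) (nat_lit 12) (nat_lit 12))
    (@En.n l50 (nat_lit 5365) (nat_lit 13) (nat_lit 9))
    (@En.n l217 (nat_lit 5365) (nat_lit 14) (nat_lit 6))
    (@En.i (nat_lit 10316) (nat_lit 7) (nat_lit 6))
    (@En.n l3 (nat_lit 5362) (nat_lit 15) (nat_lit 2))))
  (@Cl.mk (nat_lit 0x200060009000d000c00060003000a00040007000e000a00020006000e000a) (nat_lit 0x2700500a000b7) (nat_lit 16) Lb.e (@T16.mk En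
    (@En.i (nat_lit 7254) (nat_lit 13) (nat_lit 10))
    (@En.i (nat_lit 7832) (nat_lit 1) (nat_lit 14))
    (@En.i (nat_lit 12180) (nat_lit 2) (nat_lit 6))
    (@En.n l18 (nat_lit 5363) (nat_lit 3) (nat_lit 2))
    (@En.i (nat_lit 5366) (nat_lit 4) (nat_lit 10))
    (@En.n l396 (nat_lit 7996) (nat_lit 6) (nat_lit 14))
    (@En.i (nat_lit 757) (nat_lit 2) (nat_lit 7))
    (@En.n l11 (nat_lit 5764) (nat_lit 7) (nat_lit 4))
    (@En.n l287 (nat_lit 5032) (nat_lit 4) (nat_lit 10))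
    (@En.n l11 (nat_lit 5364) (nat_lit 9) (nat_lit 3))
    (@En.i (nat_lit 5351) (nat_lit 6) (nat_lit 6))
    (@En.n l55 (nat_lit 5365) (nat_lit 12) (nat_lit 12))
    (@En.n l164 (nat_lit 12754) (nat_lit 13) (nat_lit 13))
    (@En.i (nat_lit 13836) (nat_lit 9) (nat_lit 9))
    (@En.i (nat_lit 10314) (nat_lit 11) (nat_lit 6))
    (@En.n l3 (nat_lit 5363) (nat_lit 15) (nat_lit 2))))
  (@Cl.mk (nat_lit 0x200060009000d0005000d0003000a00030007000e000a00020006000e000b) (nat_lit 0x5080500a000b6) (nat_lit 16) Lb.e (@T16.mk En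
    (@En.i (nat_lit 7560) (nat_lit 13) (nat_lit 11))
    (@En.i (nat_lit 7830) (nat_lit 1) (nat_lit 14))
    (@En.i (nat_lit 11972) (nat_lit 2) (nat_lit 6))
    (@En.n l18 (nat_lit 5364) (nat_lit 3) (nat_lit 2))
    (@En.i (nat_lit 5367) (nat_lit 4) (nat_lit 10))
    (@En.n l396 (nat_lit 7994) (nat_lit 6) (nat_lit 14))
    (@En.i (nat_lit 762) (nat_lit 2) (nat_lit 7))
    (@En.i (nat_lit 5365) (nat_lit 7) (nat_lit 3))
    (@En.i (nat_lit 5372) (nat_lit 4) (nat_lit 10))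
    (@En.i (nat_lit 5363) (nat_lit 9) (nat_lit 3))
    (@En.i (nat_lit 3111) (nat_lit 11) (nat_lit 13))
    (@En.n l117 (nat_lit 4932) (nat_lit 7) (nat_lit 5))
    (@En.i (nat_lit 12755) (nat_lit 13) (nat_lit 13))
    (@En.i (nat_lit 13837) (nat_lit 9) (nat_lit 9))
    (@En.i (nat_lit 8618) (nat_lit 11) (nat_lit 6))
    (@En.n l3 (nat_lit 5364) (nat_lit 15) (nat_lit 2))))
  (@Cl.mk (nat_lit 0x200060009000c0005000d0009000400030007000e000a00020007000e000b) (nat_lit 0x76085000a10067) (nat_lit 16) Lb.e (@T16.mk En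
    (@En.n l4037 (nat_lit 7563) (nat_lit 13) (nat_lit 11))
    (@En.n l1386 (nat_lit 7831) (nat_lit 1) (nat_lit 14))
    (@En.i (nat_lit 12185) (nat_lit 2) (nat_lit 7))
    (@En.n l18 (nat_lit 5365) (nat_lit 3) (nat_lit 2))
    (@En.i (nat_lit 5362) (nat_lit 4) (nat_lit 10))
    (@En.n l396 (nat_lit 7995) (nat_lit 6) (nat_lit 14))
    (@En.n l343 (nat_lit 5363) (nat_lit 6) (nat_lit 7))
    (@En.n l28 (nat_lit 5364) (nat_lit 7) (nat_lit 3))
    (@En.n l1393 (nat_lit 5761) (nat_lit 8) (nat_lit 4))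
    (@En.i (nat_lit 5034) (nat_lit 5) (nat_lit 9))
    (@En.i (nat_lit 3105) (nat_lit 11) (nat_lit 13))
    (@En.n l117 (nat_lit 5360) (nat_lit 7) (nat_lit 5))
    (@En.n l313 (nat_lit 8950) (nat_lit 13) (nat_lit 12))
    (@En.i (nat_lit 13835) (nat_lit 9) (nat_lit 9))
    (@En.i (nat_lit 8619) (nat_lit 6) (nat_lit 6))
    (@En.n l3 (nat_lit 5365) (nat_lit 15) (nat_lit 2))))
  (@Cl.mk (nat_lit 0x2000600060009000d000c00070003000b00040007000a000a0005000e0009) (nat_lit 0x13700600820a6) (nat_lit 16) Lb.e (@T16.mk En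
    (@En.n l19379 (nat_lit 7256) (nat_lit 8) (nat_lit 9))
    (@En.n l10504 (nat_lit 7823) (nat_lit 1) (nat_lit 14))
    (@En.i (nat_lit 12182) (nat_lit 2) (nat_lit 5))
    (@En.n l19380 (nat_lit 5369) (nat_lit 6) (nat_lit 10))
    (@En.n l19381 (nat_lit 5795) (nat_lit 4) (nat_lit 10))
    (@En.n l3027 (nat_lit 763) (nat_lit 5) (nat_lit 7))
    (@En.n l19382 (nat_lit 5371) (nat_lit 6) (nat_lit 4))
    (@En.n l287 (nat_lit 5033) (nat_lit 8) (nat_lit 11))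
    (@En.n l11 (nat_lit 5367) (nat_lit 8) (nat_lit 3))
    (@En.n l19383 (nat_lit 5349) (nat_lit 0) (nat_lit 7))
    (@En.n l55 (nat_lit 5362) (nat_lit 11) (nat_lit 12))
    (@En.n l5529 (nat_lit 5312) (nat_lit 12) (nat_lit 13))
    (@En.n l50 (nat_lit 5363) (nat_lit 13) (nat_lit 9))
    (@En.n l217 (nat_lit 5363) (nat_lit 14) (nat_lit 6))
    (@En.i (nat_lit 10315) (nat_lit 5) (nat_lit 6))
    (@En.n l3 (nat_lit 5366) (nat_lit 15) (nat_lit 2))))
  (@Cl.mk (nat_lit 0x2000600060009000d0006000d0003000b00030007000a000a0005000e000a) (nat_lit 0x16090400800a5) (nat_lit 16) Lb.e (@T16.mk En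
    (@En.i (nat_lit 7558) (nat_lit 10) (nat_lit 10))
    (@En.n l16335 (nat_lit 7828) (nat_lit 1) (nat_lit 14))
    (@En.i (nat_lit 11973) (nat_lit 2) (nat_lit 5))
    (@En.n l24846 (nat_lit 5368) (nat_lit 6) (nat_lit 10))
    (@En.n l22476 (nat_lit 5797) (nat_lit 4) (nat_lit 10))
    (@En.n l622 (nat_lit 761) (nat_lit 5) (nat_lit 7))
    (@En.i (nat_lit 5362) (nat_lit 6) (nat_lit 3))
    (@En.i (nat_lit 5373) (nat_lit 0) (nat_lit 11))
    (@En.i (nat_lit 5366) (nat_lit 8) (nat_lit 3))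
    (@En.n l22476 (nat_lit 3110) (nat_lit 10) (nat_lit 13))
    (@En.n l117 (nat_lit 5359) (nat_lit 3) (nat_lit 6))
    (@En.n l5529 (nat_lit 12485) (nat_lit 12) (nat_lit 13))
    (@En.n l50 (nat_lit 5364) (nat_lit 13) (nat_lit 9))
    (@En.n l217 (nat_lit 5364) (nat_lit 14) (nat_lit 6))
    (@En.i (nat_lit 10317) (nat_lit 7) (nat_lit 6))
    (@En.n l3 (nat_lit 5367) (nat_lit 15) (nat_lit 2))))
  (@Cl.mk (nat_lit 0x20009000d0007000d0003000c00030007000a0004000e00090002000e0006) (nat_lit 0x260a07008094000) (nat_lit 16) Lb.e (@T16.mk En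
    (@En.n l11156 (nat_lit 5367) (nat_lit 14) (nat_lit 6))
    (@En.n l8910 (nat_lit 8621) (nat_lit 1) (nat_lit 14))
    (@En.n l7 (nat_lit 5368) (nat_lit 2) (nat_lit 2))
    (@En.n l8907 (nat_lit 7559) (nat_lit 3) (nat_lit 9))
    (@En.n l15684 (nat_lit 7826) (nat_lit 1) (nat_lit 14))
    (@En.n l8522 (nat_lit 6456) (nat_lit 5) (nat_lit 4))
    (@En.i (nat_lit 5400) (nat_lit 3) (nat_lit 10))
    (@En.n l7217 (nat_lit 2047) (nat_lit 7) (nat_lit 7))
    (@En.n l117 (nat_lit 5370) (nat_lit 8) (nat_lit 3))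
    (@En.n l182 (nat_lit 5374) (nat_lit 0) (nat_lit 12))
    (@En.n l39028 (nat_lit 5369) (nat_lit 10) (nat_lit 3))
    (@En.i (nat_lit 3112) (nat_lit 12) (nat_lit 13))
    (@En.n l11967 (nat_lit 5414) (nat_lit 13) (nat_lit 7))
    (@En.n l4739 (nat_lit 12486) (nat_lit 14) (nat_lit 13))
    (@En.n l8522 (nat_lit 5367) (nat_lit 12) (nat_lit 9))
    (@En.n l18 (nat_lit 5368) (nat_lit 15) (nat_lit 2))))
  (@Cl.mk (nat_lit 0x20009000d000c00080003000c00040007000a0004000e00080002000e0006) (nat_lit 0x258106001095000) (nat_lit 16) Lb.e (@T16.mk En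
    (@En.n l18024 (nat_lit 5366) (nat_lit 14) (nat_lit 6))
    (@En.n l17792 (nat_lit 7901) (nat_lit 1) (nat_lit 14))
    (@En.n l50 (nat_lit 5369) (nat_lit 2) (nat_lit 2))
    (@En.n l35197 (nat_lit 7564) (nat_lit 3) (nat_lit 8))
    (@En.n l601 (nat_lit 7824) (nat_lit 1) (nat_lit 14))
    (@En.i (nat_lit 6455) (nat_lit 5) (nat_lit 4))
    (@En.n l1643 (nat_lit 5343) (nat_lit 3) (nat_lit 10))
    (@En.i (nat_lit 2054) (nat_lit 11) (nat_lit 7))
    (@En.n l615 (nat_lit 5762) (nat_lit 8) (nat_lit 4))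
    (@En.i (nat_lit 6452) (nat_lit 10) (nat_lit 12))
    (@En.n l35198 (nat_lit 5368) (nat_lit 10) (nat_lit 3))
    (@En.n l17795 (nat_lit 5350) (nat_lit 12) (nat_lit 8))
    (@En.n l35198 (nat_lit 5370) (nat_lit 13) (nat_lit 12))
    (@En.n l619 (nat_lit 12396) (nat_lit 14) (nat_lit 13))
    (@En.n l10036 (nat_lit 5366) (nat_lit 12) (nat_lit 9))
    (@En.n l17 (nat_lit 5369) (nat_lit 15) (nat_lit 2))))
  (@Cl.mk (nat_lit 0x20009000c0007000d000b000400030007000a0005000e00090002000e0006) (nat_lit 0x170a60001044000) (nat_lit 16) Lb.e (@T16.mk En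
    (@En.n l24838 (nat_lit 5362) (nat_lit 14) (nat_lit 6))
    (@En.n l24839 (nat_lit 7902) (nat_lit 1) (nat_lit 14))
    (@En.n l7 (nat_lit 5370) (nat_lit 2) (nat_lit 2))
    (@En.n l12632 (nat_lit 7562) (nat_lit 3) (nat_lit 9))
    (@En.n l1819 (nat_lit 7825) (nat_lit 1) (nat_lit 14))
    (@En.n l24840 (nat_lit 6457) (nat_lit 5) (nat_lit 5))
    (@En.i (nat_lit 4514) (nat_lit 8) (nat_lit 10))
    (@En.n l24841 (nat_lit 5369) (nat_lit 7) (nat_lit 7))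
    (@En.n l152 (nat_lit 5368) (nat_lit 8) (nat_lit 3))
    (@En.n l24842 (nat_lit 5807) (nat_lit 0) (nat_lit 4))
    (@En.n l18732 (nat_lit 6454) (nat_lit 11) (nat_lit 11))
    (@En.i (nat_lit 3109) (nat_lit 12) (nat_lit 13))
    (@En.n l20299 (nat_lit 1745) (nat_lit 13) (nat_lit 7))
    (@En.n l24842 (nat_lit 5813) (nat_lit 6) (nat_lit 12))
    (@En.n l24843 (nat_lit 5362) (nat_lit 12) (nat_lit 9))
    (@En.n l18 (nat_lit 5370) (nat_lit 15) (nat_lit 2))))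
  (@Cl.mk (nat_lit 0x2000600060009000c000c00090008000400040007000a000a0007000e0008) (nat_lit 0x7656000560a1) (nat_lit 16) Lb.e (@T16.mk En
    (@En.i (nat_lit 48) (nat_lit 1) (nat_lit 8))
    (@En.n l134 (nat_lit 5770) (nat_lit 1) (nat_lit 14))
    (@En.n l1055 (nat_lit 5058) (nat_lit 2) (nat_lit 7))
    (@En.n l217 (nat_lit 5762) (nat_lit 6) (nat_lit 10))
    (@En.i (nat_lit 5793) (nat_lit 4) (nat_lit 10))
    (@En.n l13148 (nat_lit 5765) (nat_lit 5) (nat_lit 7))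
    (@En.n l13149 (nat_lit 5765) (nat_lit 6) (nat_lit 4))
    (@En.n l10458 (nat_lit 5362) (nat_lit 7) (nat_lit 4))
    (@En.n l55 (nat_lit 701) (nat_lit 0) (nat_lit 8))
    (@En.n l619 (nat_lit 5028) (nat_lit 10) (nat_lit 9))
    (@En.n l13150 (nat_lit 5763) (nat_lit 11) (nat_lit 12))
    (@En.n l13151 (nat_lit 5305) (nat_lit 12) (nat_lit 12))
    (@En.n l7352 (nat_lit 5764) (nat_lit 13) (nat_lit 9))
    (@En.n l10454 (nat_lit 5764) (nat_lit 14) (nat_lit 6))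
    (@En.n l13152 (nat_lit 7851) (nat_lit 13) (nat_lit 6))
    (@En.n l7 (nat_lit 5371) (nat_lit 15) (nat_lit 2))))
  (@Cl.mk (nat_lit 0x20006000a000e000b00020007000a00060005000e000a00020006000e0009) (nat_lit 0x27300000a400b7) (nat_lit 16) Lb.e (@T16.mk En
    (@En.i (nat_lit 5373) (nat_lit 13) (nat_lit 9))
    (@En.n l396 (nat_lit 5728) (nat_lit 7) (nat_lit 14))
    (@En.i (nat_lit 1425) (nat_lit 2) (nat_lit 6))
    (@En.n l28 (nat_lit 5372) (nat_lit 3) (nat_lit 2))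
    (@En.n l287 (nat_lit 5011) (nat_lit 4) (nat_lit 10))
    (@En.i (nat_lit 1782) (nat_lit 11) (nat_lit 14))
    (@En.n l11610 (nat_lit 3677) (nat_lit 2) (nat_lit 5))
    (@En.n l725 (nat_lit 9320) (nat_lit 7) (nat_lit 6))
    (@En.i (nat_lit 13015) (nat_lit 8) (nat_lit 10))
    (@En.n l2571 (nat_lit 11491) (nat_lit 5) (nat_lit 7))
    (@En.n l3 (nat_lit 5372) (nat_lit 10) (nat_lit 2))
    (@En.n l2213 (nat_lit 5257) (nat_lit 12) (nat_lit 11))
    (@En.i (nat_lit 4992) (nat_lit 9) (nat_lit 14))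
    (@En.i (nat_lit 2936) (nat_lit 2) (nat_lit 10))
    (@En.i (nat_lit 4447) (nat_lit 3) (nat_lit 6))
    (@En.n l18 (nat_lit 5372) (nat_lit 15) (nat_lit 2))))
  (@Cl.mk (nat_lit 0x200060009000900050009000e000a000200070007000a00070006000e000b) (nat_lit 0x640263000100c3) (nat_lit 16) Lb.e (@T16.mk En
    (@En.n l22827 (nat_lit 5012) (nat_lit 9) (nat_lit 11))
    (@En.n l22476 (nat_lit 1781) (nat_lit 10) (nat_lit 14))
    (@En.n l11610 (nat_lit 3675) (nat_lit 2) (nat_lit 6))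
    (@En.n l5529 (nat_lit 8966) (nat_lit 12) (nat_lit 7))
    (@En.n l50 (nat_lit 5372) (nat_lit 8) (nat_lit 10))
    (@En.n l217 (nat_lit 5372) (nat_lit 9) (nat_lit 7))
    (@En.n l2571 (nat_lit 11492) (nat_lit 6) (nat_lit 7))
    (@En.n l3 (nat_lit 5373) (nat_lit 7) (nat_lit 2))
    (@En.n l2213 (nat_lit 5256) (nat_lit 9) (nat_lit 10))
    (@En.i (nat_lit 4989) (nat_lit 10) (nat_lit 14))
    (@En.n l5529 (nat_lit 2930) (nat_lit 2) (nat_lit 9))
    (@En.i (nat_lit 6567) (nat_lit 3) (nat_lit 5))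
    (@En.n l22828 (nat_lit 5374) (nat_lit 13) (nat_lit 9))
    (@En.n l11185 (nat_lit 5732) (nat_lit 5) (nat_lit 9))
    (@En.n l22829 (nat_lit 1426) (nat_lit 6) (nat_lit 6))
    (@En.n l28 (nat_lit 5373) (nat_lit 15) (nat_lit 2))))
  (@Cl.mk (nat_lit 0x20006000900040008000e00090002000e00070002000a00080007000e000c) (nat_lit 0x30253090025016) (nat_lit 16) Lb.e (@T16.mk En
    (@En.n l10256 (nat_lit 5013) (nat_lit 11) (nat_lit 12))
    (@En.n l1847 (nat_lit 1786) (nat_lit 1) (nat_lit 14))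
    (@En.i (nat_lit 5376) (nat_lit 2) (nat_lit 7))
    (@En.n l1529 (nat_lit 9222) (nat_lit 14) (nat_lit 8))
    (@En.n l10257 (nat_lit 5373) (nat_lit 4) (nat_lit 10))
    (@En.n l18 (nat_lit 5374) (nat_lit 5) (nat_lit 2))
    (@En.n l10258 (nat_lit 5373) (nat_lit 6) (nat_lit 7))
    (@En.n l10259 (nat_lit 11570) (nat_lit 1) (nat_lit 14))
    (@En.n l7 (nat_lit 5374) (nat_lit 8) (nat_lit 2))
    (@En.n l4433 (nat_lit 5259) (nat_lit 10) (nat_lit 9))
    (@En.n l10260 (nat_lit 4988) (nat_lit 11) (nat_lit 14))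
    (@En.n l10261 (nat_lit 2929) (nat_lit 12) (nat_lit 8))
    (@En.n l916 (nat_lit 6564) (nat_lit 6) (nat_lit 4))
    (@En.n l1847 (nat_lit 5449) (nat_lit 14) (nat_lit 9))
    (@En.n l2981 (nat_lit 1539) (nat_lit 8) (nat_lit 6))
    (@En.n l3 (nat_lit 5374) (nat_lit 15) (nat_lit 2))))
  (@Cl.mk (nat_lit 0x20005000800080005000d0009000e0003000200080008000b0007000e000b) (nat_lit 0x13043800060064) (nat_lit 16) Lb.e (@T16.mk En
    (@En.n l24793 (nat_lit 5141) (nat_lit 10) (nat_lit 11))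
    (@En.n l3 (nat_lit 3673) (nat_lit 11) (nat_lit 14))
    (@En.n l3 (nat_lit 8941) (nat_lit 12) (nat_lit 7))
    (@En.n l24794 (nat_lit 5378) (nat_lit 3) (nat_lit 11))
    (@En.n l24795 (nat_lit 5378) (nat_lit 4) (nat_lit 8))
    (@En.n l3101 (nat_lit 11480) (nat_lit 5) (nat_lit 8))
    (@En.n l28 (nat_lit 5375) (nat_lit 6) (nat_lit 2))
    (@En.n l3103 (nat_lit 3675) (nat_lit 7) (nat_lit 3))
    (@En.n l6646 (nat_lit 13098) (nat_lit 0) (nat_lit 14))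
    (@En.n l24796 (nat_lit 5373) (nat_lit 10) (nat_lit 9))
    (@En.n l12051 (nat_lit 1915) (nat_lit 11) (nat_lit 13))
    (@En.n l217 (nat_lit 7277) (nat_lit 4) (nat_lit 5))
    (@En.n l7869 (nat_lit 5377) (nat_lit 13) (nat_lit 8))
    (@En.n l24797 (nat_lit 4128) (nat_lit 14) (nat_lit 8))
    (@En.n l3106 (nat_lit 1353) (nat_lit 7) (nat_lit 5))
    (@En.n l17 (nat_lit 5375) (nat_lit 15) (nat_lit 2))))
noncomputable def a336 : T16 Cl := @T16.mk Cl
  (@Cl.mk (nat_lit 0x2000500080004000d000d000900030003000e00080002000b0007000e000c) (nat_lit 0x3012400a601065) (nat_lit 16) Lb.e (@T16.mk En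
    (@En.n l5410 (nat_lit 5137) (nat_lit 12) (nat_lit 12))
    (@En.n l12 (nat_lit 3674) (nat_lit 1) (nat_lit 14))
    (@En.i (nat_lit 8938) (nat_lit 14) (nat_lit 7))
    (@En.n l8692 (nat_lit 3675) (nat_lit 3) (nat_lit 11))
    (@En.n l18 (nat_lit 5376) (nat_lit 4) (nat_lit 2))
    (@En.n l8511 (nat_lit 3675) (nat_lit 5) (nat_lit 8))
    (@En.n l8693 (nat_lit 12298) (nat_lit 7) (nat_lit 14))
    (@En.n l8694 (nat_lit 5380) (nat_lit 7) (nat_lit 3))
    (@En.i (nat_lit 5377) (nat_lit 8) (nat_lit 3))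
    (@En.n l55 (nat_lit 5383) (nat_lit 10) (nat_lit 9))
    (@En.n l134 (nat_lit 5377) (nat_lit 11) (nat_lit 13))
    (@En.n l8695 (nat_lit 1919) (nat_lit 12) (nat_lit 13))
    (@En.n l8696 (nat_lit 3058) (nat_lit 7) (nat_lit 4))
    (@En.n l12 (nat_lit 4110) (nat_lit 14) (nat_lit 8))
    (@En.n l1457 (nat_lit 1386) (nat_lit 9) (nat_lit 5))
    (@En.n l3 (nat_lit 5376) (nat_lit 15) (nat_lit 2))))
  (@Cl.mk (nat_lit 0x2000500080004000d0008000e00030002000e00080002000b0008000e000c) (nat_lit 0x2013500a101574) (nat_lit 16) Lb.e (@T16.mk En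
    (@En.n l1821 (nat_lit 4166) (nat_lit 12) (nat_lit 12))
    (@En.n l1038 (nat_lit 4164) (nat_lit 1) (nat_lit 14))
    (@En.i (nat_lit 8998) (nat_lit 14) (nat_lit 8))
    (@En.n l11168 (nat_lit 5375) (nat_lit 3) (nat_lit 11))
    (@En.n l18 (nat_lit 5377) (nat_lit 4) (nat_lit 2))
    (@En.n l238 (nat_lit 5375) (nat_lit 5) (nat_lit 8))
    (@En.n l542 (nat_lit 12296) (nat_lit 7) (nat_lit 14))
    (@En.n l7 (nat_lit 5377) (nat_lit 7) (nat_lit 2))
    (@En.n l28 (nat_lit 5376) (nat_lit 8) (nat_lit 3))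
    (@En.n l542 (nat_lit 13099) (nat_lit 0) (nat_lit 14))
    (@En.i (nat_lit 5374) (nat_lit 11) (nat_lit 8))
    (@En.n l238 (nat_lit 1916) (nat_lit 12) (nat_lit 13))
    (@En.n l11169 (nat_lit 7338) (nat_lit 7) (nat_lit 4))
    (@En.n l12 (nat_lit 4116) (nat_lit 14) (nat_lit 8))
    (@En.n l4384 (nat_lit 1830) (nat_lit 9) (nat_lit 5))
    (@En.n l3 (nat_lit 5377) (nat_lit 15) (nat_lit 2))))
  (@Cl.mk (nat_lit 0x20005000e000800020006000d000a000e000300020008000b0006000e000a) (nat_lit 0xb2001390059053) (nat_lit 16) Lb.e (@T16.mk En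
    (@En.n l7608 (nat_lit 5144) (nat_lit 4) (nat_lit 10))
    (@En.n l1722 (nat_lit 3672) (nat_lit 6) (nat_lit 14))
    (@En.n l17 (nat_lit 9306) (nat_lit 6) (nat_lit 6))
    (@En.i (nat_lit 13699) (nat_lit 7) (nat_lit 11))
    (@En.n l3328 (nat_lit 11419) (nat_lit 4) (nat_lit 8))
    (@En.n l3 (nat_lit 5378) (nat_lit 5) (nat_lit 2))
    (@En.n l7609 (nat_lit 3677) (nat_lit 6) (nat_lit 3))
    (@En.n l3324 (nat_lit 13226) (nat_lit 0) (nat_lit 14))
    (@En.n l1253 (nat_lit 5372) (nat_lit 13) (nat_lit 10))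
    (@En.n l3325 (nat_lit 1921) (nat_lit 10) (nat_lit 13))
    (@En.n l7611 (nat_lit 7227) (nat_lit 4) (nat_lit 6))
    (@En.n l50 (nat_lit 5378) (nat_lit 11) (nat_lit 2))
    (@En.n l22091 (nat_lit 5375) (nat_lit 13) (nat_lit 8))
    (@En.n l6606 (nat_lit 5815) (nat_lit 1) (nat_lit 14))
    (@En.n l7607 (nat_lit 1886) (nat_lit 2) (nat_lit 5))
    (@En.n l11 (nat_lit 5378) (nat_lit 15) (nat_lit 2))))
  (@Cl.mk (nat_lit 0x20005000800080005000e000d0002000b000300080008000b0005000e000b) (nat_lit 0x240350600000b5) (nat_lit 16) Lb.e (@T16.mk En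
    (@En.n l9921 (nat_lit 5140) (nat_lit 8) (nat_lit 11))
    (@En.i (nat_lit 3669) (nat_lit 9) (nat_lit 14))
    (@En.n l9805 (nat_lit 8934) (nat_lit 2) (nat_lit 5))
    (@En.n l11 (nat_lit 5381) (nat_lit 3) (nat_lit 11))
    (@En.n l55 (nat_lit 5381) (nat_lit 4) (nat_lit 8))
    (@En.i (nat_lit 12600) (nat_lit 5) (nat_lit 8))
    (@En.n l1353 (nat_lit 3675) (nat_lit 6) (nat_lit 3))
    (@En.n l9922 (nat_lit 5385) (nat_lit 8) (nat_lit 11))
    (@En.n l50 (nat_lit 5379) (nat_lit 8) (nat_lit 2))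
    (@En.n l564 (nat_lit 3675) (nat_lit 10) (nat_lit 13))
    (@En.n l2036 (nat_lit 4881) (nat_lit 11) (nat_lit 14))
    (@En.n l2037 (nat_lit 7262) (nat_lit 2) (nat_lit 5))
    (@En.n l9923 (nat_lit 5380) (nat_lit 13) (nat_lit 8))
    (@En.n l9924 (nat_lit 4132) (nat_lit 10) (nat_lit 8))
    (@En.n l1643 (nat_lit 1265) (nat_lit 5) (nat_lit 5))
    (@En.n l3 (nat_lit 5379) (nat_lit 15) (nat_lit 2))))
  (@Cl.mk (nat_lit 0x2000500080004000e000d0002000a0003000e00080002000b0006000e000c) (nat_lit 0x30920409101046) (nat_lit 16) Lb.e (@T16.mk En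
    (@En.n l55 (nat_lit 5138) (nat_lit 7) (nat_lit 12))
    (@En.n l3629 (nat_lit 4165) (nat_lit 8) (nat_lit 14))
    (@En.n l2235 (nat_lit 8647) (nat_lit 14) (nat_lit 6))
    (@En.n l3630 (nat_lit 5379) (nat_lit 3) (nat_lit 11))
    (@En.n l3 (nat_lit 5380) (nat_lit 4) (nat_lit 2))
    (@En.n l3631 (nat_lit 5379) (nat_lit 5) (nat_lit 8))
    (@En.i (nat_lit 12376) (nat_lit 7) (nat_lit 14))
    (@En.n l3632 (nat_lit 5376) (nat_lit 7) (nat_lit 3))
    (@En.n l3633 (nat_lit 5767) (nat_lit 9) (nat_lit 10))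
    (@En.n l50 (nat_lit 5380) (nat_lit 9) (nat_lit 2))
    (@En.n l3634 (nat_lit 5376) (nat_lit 11) (nat_lit 13))
    (@En.n l3635 (nat_lit 4924) (nat_lit 12) (nat_lit 14))
    (@En.i (nat_lit 7349) (nat_lit 2) (nat_lit 4))
    (@En.n l3629 (nat_lit 4124) (nat_lit 10) (nat_lit 8))
    (@En.n l3636 (nat_lit 1387) (nat_lit 4) (nat_lit 5))
    (@En.n l11 (nat_lit 5380) (nat_lit 15) (nat_lit 2))))
  (@Cl.mk (nat_lit 0x20005000e000800020006000e000d0002000c00030008000b0004000e000a) (nat_lit 0xa30026070690c4) (nat_lit 16) Lb.e (@T16.mk En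
    (@En.n l649 (nat_lit 5143) (nat_lit 4) (nat_lit 10))
    (@En.i (nat_lit 3670) (nat_lit 1) (nat_lit 14))
    (@En.i (nat_lit 8990) (nat_lit 6) (nat_lit 4))
    (@En.i (nat_lit 13697) (nat_lit 7) (nat_lit 11))
    (@En.i (nat_lit 12343) (nat_lit 4) (nat_lit 8))
    (@En.n l1353 (nat_lit 3677) (nat_lit 5) (nat_lit 3))
    (@En.i (nat_lit 6045) (nat_lit 11) (nat_lit 12))
    (@En.n l50 (nat_lit 5381) (nat_lit 7) (nat_lit 2))
    (@En.n l564 (nat_lit 3677) (nat_lit 9) (nat_lit 13))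
    (@En.n l2036 (nat_lit 4925) (nat_lit 10) (nat_lit 14))
    (@En.i (nat_lit 7228) (nat_lit 2) (nat_lit 6))
    (@En.n l28 (nat_lit 5381) (nat_lit 11) (nat_lit 2))
    (@En.i (nat_lit 5379) (nat_lit 13) (nat_lit 8))
    (@En.n l1578 (nat_lit 5816) (nat_lit 1) (nat_lit 14))
    (@En.n l1643 (nat_lit 1262) (nat_lit 2) (nat_lit 5))
    (@En.n l3 (nat_lit 5381) (nat_lit 15) (nat_lit 2))))
  (@Cl.mk (nat_lit 0x20006000900090005000e000a0002000b00070007000a00060005000e000b) (nat_lit 0x640320400000c6) (nat_lit 16) Lb.e (@T16.mk En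
    (@En.n l13483 (nat_lit 7137) (nat_lit 8) (nat_lit 11))
    (@En.n l13484 (nat_lit 5224) (nat_lit 1) (nat_lit 14))
    (@En.n l763 (nat_lit 5379) (nat_lit 2) (nat_lit 5))
    (@En.i (nat_lit 9008) (nat_lit 3) (nat_lit 6))
    (@En.n l11 (nat_lit 5384) (nat_lit 4) (nat_lit 10))
    (@En.n l55 (nat_lit 5384) (nat_lit 5) (nat_lit 7))
    (@En.n l764 (nat_lit 11029) (nat_lit 6) (nat_lit 7))
    (@En.n l2026 (nat_lit 5768) (nat_lit 8) (nat_lit 11))
    (@En.n l50 (nat_lit 5382) (nat_lit 8) (nat_lit 2))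
    (@En.n l217 (nat_lit 5256) (nat_lit 10) (nat_lit 10))
    (@En.n l13485 (nat_lit 2084) (nat_lit 11) (nat_lit 14))
    (@En.n l2029 (nat_lit 7147) (nat_lit 2) (nat_lit 5))
    (@En.n l13486 (nat_lit 5383) (nat_lit 13) (nat_lit 9))
    (@En.n l13487 (nat_lit 5782) (nat_lit 9) (nat_lit 9))
    (@En.n l1982 (nat_lit 1393) (nat_lit 5) (nat_lit 6))
    (@En.n l3 (nat_lit 5382) (nat_lit 15) (nat_lit 2))))
  (@Cl.mk (nat_lit 0x2000600090004000e00090002000a000e00070002000a00070006000e000c) (nat_lit 0x301304800100c5) (nat_lit 16) Lb.e (@T16.mk En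
    (@En.n l4413 (nat_lit 7138) (nat_lit 7) (nat_lit 12))
    (@En.n l5314 (nat_lit 5226) (nat_lit 8) (nat_lit 14))
    (@En.n l491 (nat_lit 5380) (nat_lit 2) (nat_lit 6))
    (@En.n l420 (nat_lit 9003) (nat_lit 14) (nat_lit 7))
    (@En.n l5315 (nat_lit 5382) (nat_lit 4) (nat_lit 10))
    (@En.n l18 (nat_lit 5383) (nat_lit 5) (nat_lit 2))
    (@En.n l5316 (nat_lit 5382) (nat_lit 6) (nat_lit 7))
    (@En.n l420 (nat_lit 12560) (nat_lit 8) (nat_lit 14))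
    (@En.n l5317 (nat_lit 5771) (nat_lit 9) (nat_lit 10))
    (@En.n l28 (nat_lit 5383) (nat_lit 9) (nat_lit 2))
    (@En.n l4433 (nat_lit 5259) (nat_lit 11) (nat_lit 9))
    (@En.n l5318 (nat_lit 2085) (nat_lit 12) (nat_lit 14))
    (@En.n l5319 (nat_lit 7143) (nat_lit 6) (nat_lit 4))
    (@En.n l420 (nat_lit 5498) (nat_lit 9) (nat_lit 9))
    (@En.n l4437 (nat_lit 1389) (nat_lit 4) (nat_lit 6))
    (@En.n l3 (nat_lit 5383) (nat_lit 15) (nat_lit 2))))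
  (@Cl.mk (nat_lit 0x20006000e000900020006000e000b0002000c0007000a00050004000e000a) (nat_lit 0x570042040800a5) (nat_lit 16) Lb.e (@T16.mk En
    (@En.n l4322 (nat_lit 7136) (nat_lit 4) (nat_lit 10))
    (@En.i (nat_lit 5225) (nat_lit 1) (nat_lit 14))
    (@En.n l763 (nat_lit 5381) (nat_lit 2) (nat_lit 4))
    (@En.i (nat_lit 9033) (nat_lit 7) (nat_lit 5))
    (@En.n l210 (nat_lit 13899) (nat_lit 8) (nat_lit 10))
    (@En.n l764 (nat_lit 11028) (nat_lit 5) (nat_lit 7))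
    (@En.n l2026 (nat_lit 6024) (nat_lit 11) (nat_lit 12))
    (@En.n l50 (nat_lit 5384) (nat_lit 7) (nat_lit 2))
    (@En.n l217 (nat_lit 5257) (nat_lit 13) (nat_lit 11))
    (@En.n l7593 (nat_lit 1983) (nat_lit 10) (nat_lit 14))
    (@En.i (nat_lit 7526) (nat_lit 2) (nat_lit 6))
    (@En.n l28 (nat_lit 5384) (nat_lit 11) (nat_lit 2))
    (@En.i (nat_lit 5382) (nat_lit 13) (nat_lit 9))
    (@En.n l1578 (nat_lit 5780) (nat_lit 1) (nat_lit 14))
    (@En.n l1982 (nat_lit 1398) (nat_lit 2) (nat_lit 6))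
    (@En.n l3 (nat_lit 5384) (nat_lit 15) (nat_lit 2))))
  (@Cl.mk (nat_lit 0x200060009000900050008000e000b000200070007000a00050008000e000b) (nat_lit 0x620045000700c6) (nat_lit 16) Lb.e (@T16.mk En
    (@En.n l18714 (nat_lit 5769) (nat_lit 9) (nat_lit 11))
    (@En.n l134 (nat_lit 4633) (nat_lit 10) (nat_lit 14))
    (@En.n l5929 (nat_lit 12924) (nat_lit 10) (nat_lit 8))
    (@En.n l1721 (nat_lit 7750) (nat_lit 3) (nat_lit 5))
    (@En.n l14040 (nat_lit 6045) (nat_lit 8) (nat_lit 10))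
    (@En.n l5205 (nat_lit 6045) (nat_lit 9) (nat_lit 7))
    (@En.n l6081 (nat_lit 4933) (nat_lit 6) (nat_lit 7))
    (@En.n l3 (nat_lit 5385) (nat_lit 7) (nat_lit 2))
    (@En.n l22807 (nat_lit 5768) (nat_lit 9) (nat_lit 11))
    (@En.n l22808 (nat_lit 5382) (nat_lit 10) (nat_lit 14))
    (@En.n l2869 (nat_lit 13558) (nat_lit 10) (nat_lit 8))
    (@En.n l3348 (nat_lit 5475) (nat_lit 3) (nat_lit 5))
    (@En.n l61 (nat_lit 5767) (nat_lit 13) (nat_lit 9))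
    (@En.n l15779 (nat_lit 5766) (nat_lit 9) (nat_lit 9))
    (@En.i (nat_lit 1430) (nat_lit 6) (nat_lit 6))
    (@En.n l7 (nat_lit 5385) (nat_lit 15) (nat_lit 2))))
  (@Cl.mk (nat_lit 0x2000b0007000b0008000b000500080005000c0005000900080004000e0008) (nat_lit 0x103450607013001) (nat_lit 16) Lb.e (@T16.mk En
    (@En.n l26511 (nat_lit 1744) (nat_lit 14) (nat_lit 8))
    (@En.n l26512 (nat_lit 9905) (nat_lit 1) (nat_lit 14))
    (@En.n l5098 (nat_lit 6519) (nat_lit 2) (nat_lit 4))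
    (@En.i (nat_lit 1740) (nat_lit 3) (nat_lit 8))
    (@En.n l187 (nat_lit 1745) (nat_lit 4) (nat_lit 9))
    (@En.n l460 (nat_lit 3190) (nat_lit 5) (nat_lit 5))
    (@En.n l5030 (nat_lit 6645) (nat_lit 7) (nat_lit 12))
    (@En.n l26513 (nat_lit 9521) (nat_lit 7) (nat_lit 5))
    (@En.n l4939 (nat_lit 4207) (nat_lit 10) (nat_lit 8))
    (@En.n l12721 (nat_lit 5356) (nat_lit 9) (nat_lit 5))
    (@En.n l26514 (nat_lit 7183) (nat_lit 7) (nat_lit 11))
    (@En.n l26515 (nat_lit 4993) (nat_lit 12) (nat_lit 8))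
    (@En.n l26516 (nat_lit 5093) (nat_lit 13) (nat_lit 11))
    (@En.n l26517 (nat_lit 9839) (nat_lit 14) (nat_lit 7))
    (@En.n l26518 (nat_lit 1744) (nat_lit 12) (nat_lit 11))
    (@En.n l18 (nat_lit 5386) (nat_lit 15) (nat_lit 2))))
  (@Cl.mk (nat_lit 0x20007000c0007000b000a00040008000b00050009000600090005000e0008) (nat_lit 0x90310690307051) (nat_lit 16) Lb.e (@T16.mk En
    (@En.i (nat_lit 1744) (nat_lit 6) (nat_lit 8))
    (@En.n l15662 (nat_lit 5432) (nat_lit 1) (nat_lit 14))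
    (@En.n l2362 (nat_lit 5357) (nat_lit 2) (nat_lit 5))
    (@En.n l1723 (nat_lit 7178) (nat_lit 9) (nat_lit 9))
    (@En.n l605 (nat_lit 1881) (nat_lit 4) (nat_lit 6))
    (@En.n l11935 (nat_lit 5048) (nat_lit 5) (nat_lit 9))
    (@En.n l33596 (nat_lit 9905) (nat_lit 6) (nat_lit 5))
    (@En.n l11935 (nat_lit 13906) (nat_lit 7) (nat_lit 11))
    (@En.i (nat_lit 8835) (nat_lit 9) (nat_lit 8))
    (@En.n l33597 (nat_lit 6518) (nat_lit 9) (nat_lit 4))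
    (@En.n l33598 (nat_lit 1741) (nat_lit 11) (nat_lit 10))
    (@En.n l3749 (nat_lit 5360) (nat_lit 12) (nat_lit 11))
    (@En.n l33599 (nat_lit 4363) (nat_lit 13) (nat_lit 7))
    (@En.n l21026 (nat_lit 6644) (nat_lit 14) (nat_lit 12))
    (@En.n l3749 (nat_lit 9694) (nat_lit 4) (nat_lit 7))
    (@En.n l107 (nat_lit 5387) (nat_lit 15) (nat_lit 2))))
  (@Cl.mk (nat_lit 0x400070007000b0006000c0007000a0005000400090009000c0006000a0009) (nat_lit 0x4020300000005) (nat_lit 16) Lb.e (@T16.mk En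
    (@En.n l35732 (nat_lit 5391) (nat_lit 0) (nat_lit 9))
    (@En.i (nat_lit 5394) (nat_lit 9) (nat_lit 10))
    (@En.n l35733 (nat_lit 9335) (nat_lit 12) (nat_lit 6))
    (@En.n l35734 (nat_lit 5392) (nat_lit 6) (nat_lit 12))
    (@En.n l35735 (nat_lit 5392) (nat_lit 7) (nat_lit 9))
    (@En.n l9441 (nat_lit 6127) (nat_lit 5) (nat_lit 9))
    (@En.n l35736 (nat_lit 6727) (nat_lit 12) (nat_lit 4))
    (@En.n l1836 (nat_lit 6692) (nat_lit 0) (nat_lit 5))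
    (@En.n l9530 (nat_lit 5003) (nat_lit 8) (nat_lit 10))
    (@En.n l15439 (nat_lit 1672) (nat_lit 1) (nat_lit 7))
    (@En.n l35737 (nat_lit 6344) (nat_lit 2) (nat_lit 12))
    (@En.n l34812 (nat_lit 1744) (nat_lit 4) (nat_lit 6))
    (@En.n l1836 (nat_lit 8465) (nat_lit 8) (nat_lit 11))
    (@En.n l17 (nat_lit 5389) (nat_lit 9) (nat_lit 7))
    (@En.n l32297 (nat_lit 4441) (nat_lit 11) (nat_lit 7))
    (@En.n l22187 (nat_lit 5113) (nat_lit 15) (nat_lit 4))))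
  (@Cl.mk (nat_lit 0x2000c0007000b000a00040007000b0005000c0006000900050004000e0009) (nat_lit 0x100700402030061) (nat_lit 16) Lb.e (@T16.mk En
    (@En.n l5 (nat_lit 5388) (nat_lit 5) (nat_lit 9))
    (@En.n l6825 (nat_lit 5387) (nat_lit 1) (nat_lit 14))
    (@En.n l22185 (nat_lit 6739) (nat_lit 2) (nat_lit 4))
    (@En.n l1836 (nat_lit 6690) (nat_lit 3) (nat_lit 5))
    (@En.n l9530 (nat_lit 5004) (nat_lit 9) (nat_lit 9))
    (@En.n l22186 (nat_lit 1669) (nat_lit 5) (nat_lit 6))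
    (@En.n l19713 (nat_lit 6346) (nat_lit 7) (nat_lit 12))
    (@En.n l1834 (nat_lit 5386) (nat_lit 7) (nat_lit 5))
    (@En.n l1836 (nat_lit 6331) (nat_lit 9) (nat_lit 11))
    (@En.n l9591 (nat_lit 7278) (nat_lit 11) (nat_lit 7))
    (@En.n l22187 (nat_lit 5961) (nat_lit 10) (nat_lit 4))
    (@En.n l22188 (nat_lit 5390) (nat_lit 12) (nat_lit 10))
    (@En.i (nat_lit 5397) (nat_lit 13) (nat_lit 11))
    (@En.n l22189 (nat_lit 9343) (nat_lit 14) (nat_lit 7))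
    (@En.i (nat_lit 5388) (nat_lit 3) (nat_lit 12))
    (@En.n l18 (nat_lit 5389) (nat_lit 15) (nat_lit 2))))
  (@Cl.mk (nat_lit 0x2000d0007000a00030006000a000d000b00060003000900060005000e000a) (nat_lit 0x6003420040010) (nat_lit 16) Lb.e (@T16.mk En
    (@En.n l9589 (nat_lit 5391) (nat_lit 4) (nat_lit 10))
    (@En.n l4108 (nat_lit 1741) (nat_lit 1) (nat_lit 14))
    (@En.n l1233 (nat_lit 6737) (nat_lit 2) (nat_lit 5))
    (@En.n l476 (nat_lit 5397) (nat_lit 3) (nat_lit 6))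
    (@En.i (nat_lit 5389) (nat_lit 4) (nat_lit 9))
    (@En.n l28 (nat_lit 5398) (nat_lit 5) (nat_lit 3))
    (@En.n l4108 (nat_lit 1667) (nat_lit 0) (nat_lit 6))
    (@En.n l8012 (nat_lit 6347) (nat_lit 8) (nat_lit 11))
    (@En.n l9590 (nat_lit 6631) (nat_lit 5) (nat_lit 13))
    (@En.n l476 (nat_lit 6239) (nat_lit 10) (nat_lit 10))
    (@En.n l9591 (nat_lit 6995) (nat_lit 12) (nat_lit 6))
    (@En.n l9592 (nat_lit 5972) (nat_lit 11) (nat_lit 3))
    (@En.n l2038 (nat_lit 3356) (nat_lit 0) (nat_lit 10))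
    (@En.n l1236 (nat_lit 8142) (nat_lit 14) (nat_lit 7))
    (@En.n l9441 (nat_lit 5391) (nat_lit 2) (nat_lit 13))
    (@En.n l18 (nat_lit 5390) (nat_lit 15) (nat_lit 2))))
  (@Cl.mk (nat_lit 0x300060006000a000d000b00070003000a00060005000a000a000d00060009) (nat_lit 0x4520040080b04) (nat_lit 16) Lb.e (@T16.mk En
    (@En.n l3188 (nat_lit 2529) (nat_lit 0) (nat_lit 9))
    (@En.n l3187 (nat_lit 8143) (nat_lit 8) (nat_lit 6))
    (@En.n l3 (nat_lit 5393) (nat_lit 5) (nat_lit 13))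
    (@En.n l527 (nat_lit 5393) (nat_lit 6) (nat_lit 10))
    (@En.i (nat_lit 6124) (nat_lit 4) (nat_lit 10))
    (@En.n l1388 (nat_lit 6731) (nat_lit 5) (nat_lit 5))
    (@En.n l20022 (nat_lit 5394) (nat_lit 14) (nat_lit 6))
    (@En.n l20023 (nat_lit 5388) (nat_lit 8) (nat_lit 10))
    (@En.n l20024 (nat_lit 5395) (nat_lit 8) (nat_lit 3))
    (@En.n l5032 (nat_lit 1670) (nat_lit 0) (nat_lit 7))
    (@En.n l3191 (nat_lit 6345) (nat_lit 11) (nat_lit 11))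
    (@En.i (nat_lit 5116) (nat_lit 5) (nat_lit 13))
    (@En.n l20022 (nat_lit 8462) (nat_lit 13) (nat_lit 10))
    (@En.n l20025 (nat_lit 5390) (nat_lit 10) (nat_lit 6))
    (@En.n l3106 (nat_lit 4440) (nat_lit 12) (nat_lit 6))
    (@En.n l992 (nat_lit 5396) (nat_lit 15) (nat_lit 3))))
noncomputable def a337 : T16 Cl := @T16.mk Cl
  (@Cl.mk (nat_lit 0x2000b0007000c0008000b000500040009000c0005000900080004000e0007) (nat_lit 0x50213007a004000) (nat_lit 16) Lb.e (@T16.mk En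
    (@En.n l35941 (nat_lit 5388) (nat_lit 14) (nat_lit 7))
    (@En.n l35942 (nat_lit 6352) (nat_lit 1) (nat_lit 14))
    (@En.n l4461 (nat_lit 6618) (nat_lit 2) (nat_lit 4))
    (@En.n l1791 (nat_lit 5393) (nat_lit 3) (nat_lit 8))
    (@En.n l25653 (nat_lit 5399) (nat_lit 4) (nat_lit 9))
    (@En.n l20744 (nat_lit 8211) (nat_lit 5) (nat_lit 5))
    (@En.i (nat_lit 14012) (nat_lit 6) (nat_lit 12))
    (@En.n l12720 (nat_lit 6126) (nat_lit 8) (nat_lit 9))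
    (@En.i (nat_lit 6725) (nat_lit 8) (nat_lit 4))
    (@En.n l35943 (nat_lit 6682) (nat_lit 9) (nat_lit 5))
    (@En.n l35944 (nat_lit 5005) (nat_lit 7) (nat_lit 11))
    (@En.n l117 (nat_lit 1766) (nat_lit 12) (nat_lit 8))
    (@En.n l4947 (nat_lit 6343) (nat_lit 13) (nat_lit 12))
    (@En.n l35945 (nat_lit 5387) (nat_lit 14) (nat_lit 7))
    (@En.i (nat_lit 8830) (nat_lit 12) (nat_lit 11))
    (@En.n l17 (nat_lit 5392) (nat_lit 15) (nat_lit 2))))
  (@Cl.mk (nat_lit 0x2000a000d000b00080003000b00060005000a000d000500080003000e0006) (nat_lit 0x552104008a03010) (nat_lit 16) Lb.e (@T16.mk En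
    (@En.i (nat_lit 5391) (nat_lit 14) (nat_lit 6))
    (@En.n l2125 (nat_lit 4432) (nat_lit 1) (nat_lit 14))
    (@En.n l992 (nat_lit 6676) (nat_lit 2) (nat_lit 3))
    (@En.n l781 (nat_lit 2528) (nat_lit 10) (nat_lit 8))
    (@En.n l3187 (nat_lit 8209) (nat_lit 4) (nat_lit 5))
    (@En.n l1388 (nat_lit 13306) (nat_lit 5) (nat_lit 13))
    (@En.i (nat_lit 6122) (nat_lit 7) (nat_lit 10))
    (@En.n l1388 (nat_lit 6732) (nat_lit 7) (nat_lit 5))
    (@En.i (nat_lit 5399) (nat_lit 8) (nat_lit 6))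
    (@En.n l11953 (nat_lit 5392) (nat_lit 10) (nat_lit 11))
    (@En.n l170 (nat_lit 6678) (nat_lit 10) (nat_lit 3))
    (@En.n l3340 (nat_lit 1675) (nat_lit 0) (nat_lit 8))
    (@En.n l4942 (nat_lit 6342) (nat_lit 13) (nat_lit 11))
    (@En.i (nat_lit 5118) (nat_lit 5) (nat_lit 13))
    (@En.i (nat_lit 8464) (nat_lit 12) (nat_lit 10))
    (@En.n l107 (nat_lit 5393) (nat_lit 15) (nat_lit 2))))
  (@Cl.mk (nat_lit 0x300060004000a000a000d000a0008000300060006000a0006000d000c0008) (nat_lit 0x6768400050632) (nat_lit 16) Lb.e (@T16.mk En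
    (@En.i (nat_lit 1671) (nat_lit 0) (nat_lit 8))
    (@En.n l77 (nat_lit 6654) (nat_lit 10) (nat_lit 12))
    (@En.n l9441 (nat_lit 5391) (nat_lit 11) (nat_lit 13))
    (@En.n l9442 (nat_lit 5049) (nat_lit 3) (nat_lit 6))
    (@En.n l1738 (nat_lit 8459) (nat_lit 13) (nat_lit 10))
    (@En.n l17 (nat_lit 5397) (nat_lit 10) (nat_lit 6))
    (@En.n l6785 (nat_lit 4438) (nat_lit 12) (nat_lit 6))
    (@En.n l1798 (nat_lit 5971) (nat_lit 7) (nat_lit 3))
    (@En.n l97 (nat_lit 2525) (nat_lit 0) (nat_lit 8))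
    (@En.n l9443 (nat_lit 7958) (nat_lit 10) (nat_lit 10))
    (@En.n l9444 (nat_lit 5399) (nat_lit 5) (nat_lit 13))
    (@En.n l9445 (nat_lit 5399) (nat_lit 6) (nat_lit 10))
    (@En.n l9446 (nat_lit 6123) (nat_lit 13) (nat_lit 10))
    (@En.n l9447 (nat_lit 6659) (nat_lit 5) (nat_lit 4))
    (@En.n l1685 (nat_lit 6615) (nat_lit 12) (nat_lit 6))
    (@En.n l28 (nat_lit 6680) (nat_lit 15) (nat_lit 3))))
  (@Cl.mk (nat_lit 0x300060006000a000d0006000c0003000a00060004000a000a000d0006000a) (nat_lit 0x4502040000005) (nat_lit 16) Lb.e (@T16.mk En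
    (@En.n l2038 (nat_lit 2793) (nat_lit 0) (nat_lit 10))
    (@En.n l21835 (nat_lit 9334) (nat_lit 8) (nat_lit 6))
    (@En.n l21836 (nat_lit 6678) (nat_lit 5) (nat_lit 13))
    (@En.n l21837 (nat_lit 6678) (nat_lit 6) (nat_lit 10))
    (@En.n l16439 (nat_lit 6147) (nat_lit 4) (nat_lit 10))
    (@En.n l2825 (nat_lit 6741) (nat_lit 5) (nat_lit 4))
    (@En.n l476 (nat_lit 6680) (nat_lit 14) (nat_lit 6))
    (@En.i (nat_lit 6593) (nat_lit 1) (nat_lit 10))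
    (@En.n l9441 (nat_lit 5391) (nat_lit 8) (nat_lit 3))
    (@En.n l8494 (nat_lit 2405) (nat_lit 0) (nat_lit 12))
    (@En.n l10969 (nat_lit 5388) (nat_lit 11) (nat_lit 6))
    (@En.n l9645 (nat_lit 5112) (nat_lit 5) (nat_lit 13))
    (@En.n l476 (nat_lit 8454) (nat_lit 13) (nat_lit 10))
    (@En.n l17 (nat_lit 5398) (nat_lit 10) (nat_lit 6))
    (@En.n l21838 (nat_lit 4439) (nat_lit 12) (nat_lit 6))
    (@En.n l1106 (nat_lit 5967) (nat_lit 15) (nat_lit 3))))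
  (@Cl.mk (nat_lit 0x300060006000a000d000b00080003000900060005000a000a000d00080007) (nat_lit 0x4a26020050050) (nat_lit 16) Lb.e (@T16.mk En
    (@En.n l18 (nat_lit 1362) (nat_lit 0) (nat_lit 7))
    (@En.n l21022 (nat_lit 9479) (nat_lit 9) (nat_lit 8))
    (@En.n l3 (nat_lit 6676) (nat_lit 5) (nat_lit 13))
    (@En.n l527 (nat_lit 6676) (nat_lit 6) (nat_lit 10))
    (@En.i (nat_lit 6218) (nat_lit 4) (nat_lit 10))
    (@En.n l55 (nat_lit 6734) (nat_lit 5) (nat_lit 5))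
    (@En.n l35718 (nat_lit 5971) (nat_lit 14) (nat_lit 6))
    (@En.n l26927 (nat_lit 5113) (nat_lit 8) (nat_lit 9))
    (@En.n l16610 (nat_lit 5967) (nat_lit 8) (nat_lit 3))
    (@En.n l21022 (nat_lit 6930) (nat_lit 0) (nat_lit 8))
    (@En.n l8585 (nat_lit 6755) (nat_lit 11) (nat_lit 11))
    (@En.n l2195 (nat_lit 6624) (nat_lit 5) (nat_lit 13))
    (@En.n l35719 (nat_lit 10359) (nat_lit 13) (nat_lit 10))
    (@En.n l21998 (nat_lit 5972) (nat_lit 10) (nat_lit 6))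
    (@En.n l20187 (nat_lit 7009) (nat_lit 12) (nat_lit 6))
    (@En.n l797 (nat_lit 5391) (nat_lit 15) (nat_lit 3))))
  (@Cl.mk (nat_lit 0x2000d000b000900030006000a0005000d000c0007000300060004000e000a) (nat_lit 0x7960030530000c7) (nat_lit 16) Lb.e (@T16.mk En
    (@En.n l5 (nat_lit 5394) (nat_lit 12) (nat_lit 10))
    (@En.i (nat_lit 5360) (nat_lit 1) (nat_lit 14))
    (@En.n l28 (nat_lit 6777) (nat_lit 2) (nat_lit 4))
    (@En.n l1685 (nat_lit 6694) (nat_lit 12) (nat_lit 6))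
    (@En.n l28 (nat_lit 6688) (nat_lit 4) (nat_lit 3))
    (@En.i (nat_lit 1668) (nat_lit 0) (nat_lit 7))
    (@En.n l77 (nat_lit 6689) (nat_lit 7) (nat_lit 12))
    (@En.i (nat_lit 5390) (nat_lit 8) (nat_lit 13))
    (@En.n l517 (nat_lit 5093) (nat_lit 8) (nat_lit 5))
    (@En.i (nat_lit 6236) (nat_lit 10) (nat_lit 10))
    (@En.i (nat_lit 6994) (nat_lit 12) (nat_lit 6))
    (@En.n l1798 (nat_lit 5970) (nat_lit 11) (nat_lit 3))
    (@En.n l97 (nat_lit 3357) (nat_lit 0) (nat_lit 9))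
    (@En.n l1236 (nat_lit 9824) (nat_lit 14) (nat_lit 11))
    (@En.i (nat_lit 5394) (nat_lit 10) (nat_lit 13))
    (@En.n l18 (nat_lit 5397) (nat_lit 15) (nat_lit 2))))
  (@Cl.mk (nat_lit 0x2000d0007000b00030006000a000d0005000c0003000900060004000e000a) (nat_lit 0x102002402040071) (nat_lit 16) Lb.e (@T16.mk En
    (@En.n l5 (nat_lit 5395) (nat_lit 4) (nat_lit 10))
    (@En.i (nat_lit 5358) (nat_lit 1) (nat_lit 14))
    (@En.i (nat_lit 6742) (nat_lit 2) (nat_lit 4))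
    (@En.n l476 (nat_lit 6688) (nat_lit 3) (nat_lit 6))
    (@En.i (nat_lit 6599) (nat_lit 4) (nat_lit 9))
    (@En.i (nat_lit 5390) (nat_lit 5) (nat_lit 3))
    (@En.i (nat_lit 2407) (nat_lit 0) (nat_lit 12))
    (@En.n l10969 (nat_lit 5389) (nat_lit 7) (nat_lit 5))
    (@En.i (nat_lit 6629) (nat_lit 5) (nat_lit 13))
    (@En.n l476 (nat_lit 6324) (nat_lit 10) (nat_lit 10))
    (@En.n l9591 (nat_lit 6989) (nat_lit 12) (nat_lit 6))
    (@En.n l1106 (nat_lit 5966) (nat_lit 11) (nat_lit 3))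
    (@En.n l2038 (nat_lit 3360) (nat_lit 0) (nat_lit 11))
    (@En.i (nat_lit 9344) (nat_lit 14) (nat_lit 7))
    (@En.i (nat_lit 5395) (nat_lit 2) (nat_lit 13))
    (@En.n l18 (nat_lit 5398) (nat_lit 15) (nat_lit 2))))
  (@Cl.mk (nat_lit 0x2000a0007000d000c0009000300060004000a000d000900070003000e0006) (nat_lit 0x506320006570010) (nat_lit 16) Lb.e (@T16.mk En
    (@En.n l20022 (nat_lit 5394) (nat_lit 6) (nat_lit 6))
    (@En.n l20938 (nat_lit 4428) (nat_lit 1) (nat_lit 14))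
    (@En.n l9100 (nat_lit 6677) (nat_lit 2) (nat_lit 3))
    (@En.n l20939 (nat_lit 2522) (nat_lit 3) (nat_lit 7))
    (@En.n l20940 (nat_lit 7952) (nat_lit 4) (nat_lit 9))
    (@En.n l20941 (nat_lit 13304) (nat_lit 5) (nat_lit 13))
    (@En.i (nat_lit 6120) (nat_lit 13) (nat_lit 10))
    (@En.n l20941 (nat_lit 6702) (nat_lit 7) (nat_lit 4))
    (@En.n l20942 (nat_lit 6616) (nat_lit 8) (nat_lit 6))
    (@En.n l20943 (nat_lit 6679) (nat_lit 9) (nat_lit 3))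
    (@En.n l2909 (nat_lit 1772) (nat_lit 0) (nat_lit 9))
    (@En.n l20944 (nat_lit 6681) (nat_lit 12) (nat_lit 12))
    (@En.n l50 (nat_lit 5393) (nat_lit 13) (nat_lit 13))
    (@En.n l20945 (nat_lit 5048) (nat_lit 14) (nat_lit 7))
    (@En.n l20946 (nat_lit 8461) (nat_lit 4) (nat_lit 10))
    (@En.n l107 (nat_lit 5399) (nat_lit 15) (nat_lit 2))))
  (@Cl.mk (nat_lit 0x2000d0006000e00030002000d0008000d0003000d0003000a0003000e0008) (nat_lit 0xb030066a0607051) (nat_lit 16) Lb.e (@T16.mk En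
    (@En.n l8907 (nat_lit 2953) (nat_lit 5) (nat_lit 8))
    (@En.i (nat_lit 6262) (nat_lit 1) (nat_lit 14))
    (@En.i (nat_lit 5336) (nat_lit 2) (nat_lit 3))
    (@En.i (nat_lit 11059) (nat_lit 3) (nat_lit 10))
    (@En.n l117 (nat_lit 4514) (nat_lit 9) (nat_lit 3))
    (@En.i (nat_lit 5449) (nat_lit 0) (nat_lit 13))
    (@En.n l18866 (nat_lit 5343) (nat_lit 6) (nat_lit 3))
    (@En.i (nat_lit 4105) (nat_lit 0) (nat_lit 13))
    (@En.i (nat_lit 5404) (nat_lit 14) (nat_lit 8))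
    (@En.i (nat_lit 11600) (nat_lit 10) (nat_lit 13))
    (@En.n l17 (nat_lit 5400) (nat_lit 10) (nat_lit 2))
    (@En.i (nat_lit 2957) (nat_lit 11) (nat_lit 3))
    (@En.i (nat_lit 13299) (nat_lit 0) (nat_lit 14))
    (@En.i (nat_lit 5797) (nat_lit 14) (nat_lit 6))
    (@En.n l8910 (nat_lit 9090) (nat_lit 2) (nat_lit 13))
    (@En.n l7 (nat_lit 5400) (nat_lit 15) (nat_lit 2))))
  (@Cl.mk (nat_lit 0x200080003000d0008000d0003000d000300080003000e00080002000e000d) (nat_lit 0x76a0900051071) (nat_lit 16) Lb.e (@T16.mk En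
    (@En.n l11662 (nat_lit 2957) (nat_lit 14) (nat_lit 13))
    (@En.n l2266 (nat_lit 8157) (nat_lit 1) (nat_lit 14))
    (@En.n l17 (nat_lit 5401) (nat_lit 2) (nat_lit 2))
    (@En.n l4798 (nat_lit 2954) (nat_lit 3) (nat_lit 8))
    (@En.n l5 (nat_lit 6263) (nat_lit 1) (nat_lit 14))
    (@En.n l858 (nat_lit 5331) (nat_lit 5) (nat_lit 3))
    (@En.i (nat_lit 11061) (nat_lit 6) (nat_lit 8))
    (@En.n l3506 (nat_lit 4515) (nat_lit 7) (nat_lit 3))
    (@En.n l828 (nat_lit 5451) (nat_lit 0) (nat_lit 13))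
    (@En.n l28 (nat_lit 5862) (nat_lit 9) (nat_lit 3))
    (@En.n l858 (nat_lit 4108) (nat_lit 11) (nat_lit 13))
    (@En.i (nat_lit 5403) (nat_lit 12) (nat_lit 8))
    (@En.n l5271 (nat_lit 10107) (nat_lit 13) (nat_lit 13))
    (@En.n l11664 (nat_lit 2957) (nat_lit 10) (nat_lit 3))
    (@En.n l278 (nat_lit 6719) (nat_lit 12) (nat_lit 8))
    (@En.n l3 (nat_lit 5401) (nat_lit 15) (nat_lit 2))))
  (@Cl.mk (nat_lit 0x300030008000d0009000d000300080003000d000800070003000d000d0008) (nat_lit 0x58120003200000) (nat_lit 16) Lb.e (@T16.mk En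
    (@En.n l28999 (nat_lit 7729) (nat_lit 0) (nat_lit 8))
    (@En.n l10582 (nat_lit 5404) (nat_lit 3) (nat_lit 13))
    (@En.n l19709 (nat_lit 10457) (nat_lit 2) (nat_lit 13))
    (@En.n l19013 (nat_lit 5406) (nat_lit 3) (nat_lit 3))
    (@En.i (nat_lit 4516) (nat_lit 0) (nat_lit 7))
    (@En.n l15929 (nat_lit 5515) (nat_lit 5) (nat_lit 8))
    (@En.n l14728 (nat_lit 5632) (nat_lit 7) (nat_lit 13))
    (@En.n l33862 (nat_lit 5338) (nat_lit 7) (nat_lit 3))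
    (@En.i (nat_lit 11067) (nat_lit 0) (nat_lit 8))
    (@En.n l14325 (nat_lit 5405) (nat_lit 9) (nat_lit 3))
    (@En.n l28106 (nat_lit 4113) (nat_lit 0) (nat_lit 13))
    (@En.n l28 (nat_lit 3257) (nat_lit 12) (nat_lit 9))
    (@En.n l11662 (nat_lit 4201) (nat_lit 13) (nat_lit 13))
    (@En.n l12786 (nat_lit 9556) (nat_lit 3) (nat_lit 8))
    (@En.n l152 (nat_lit 5403) (nat_lit 13) (nat_lit 3))
    (@En.n l8880 (nat_lit 5404) (nat_lit 0) (nat_lit 3))))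
  (@Cl.mk (nat_lit 0x2000900030008000d0009000d000300070003000d000800070003000e000d) (nat_lit 0x205806000320021) (nat_lit 16) Lb.e (@T16.mk En
    (@En.i (nat_lit 5402) (nat_lit 2) (nat_lit 13))
    (@En.n l4361 (nat_lit 7093) (nat_lit 1) (nat_lit 14))
    (@En.n l14727 (nat_lit 5410) (nat_lit 2) (nat_lit 3))
    (@En.i (nat_lit 5862) (nat_lit 3) (nat_lit 7))
    (@En.n l14727 (nat_lit 5514) (nat_lit 4) (nat_lit 8))
    (@En.n l14728 (nat_lit 5634) (nat_lit 6) (nat_lit 13))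
    (@En.n l34419 (nat_lit 5339) (nat_lit 6) (nat_lit 3))
    (@En.i (nat_lit 12631) (nat_lit 7) (nat_lit 7))
    (@En.n l4263 (nat_lit 5408) (nat_lit 8) (nat_lit 3))
    (@En.n l16914 (nat_lit 3573) (nat_lit 0) (nat_lit 13))
    (@En.n l28 (nat_lit 5640) (nat_lit 11) (nat_lit 9))
    (@En.n l11619 (nat_lit 4200) (nat_lit 12) (nat_lit 13))
    (@En.n l14727 (nat_lit 8659) (nat_lit 13) (nat_lit 8))
    (@En.n l117 (nat_lit 5402) (nat_lit 14) (nat_lit 3))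
    (@En.n l4361 (nat_lit 4931) (nat_lit 0) (nat_lit 9))
    (@En.n l3 (nat_lit 5403) (nat_lit 15) (nat_lit 2))))
  (@Cl.mk (nat_lit 0x20008000d0009000d000300090003000d000800070003000d0007000e0003) (nat_lit 0x58080604200b050) (nat_lit 16) Lb.e (@T16.mk En
    (@En.n l20715 (nat_lit 5402) (nat_lit 15) (nat_lit 3))
    (@En.n l11967 (nat_lit 13302) (nat_lit 0) (nat_lit 14))
    (@En.i (nat_lit 5800) (nat_lit 2) (nat_lit 7))
    (@En.n l8910 (nat_lit 10459) (nat_lit 2) (nat_lit 13))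
    (@En.n l11967 (nat_lit 5412) (nat_lit 4) (nat_lit 3))
    (@En.n l20299 (nat_lit 5343) (nat_lit 0) (nat_lit 7))
    (@En.n l8907 (nat_lit 5520) (nat_lit 6) (nat_lit 8))
    (@En.n l31545 (nat_lit 5633) (nat_lit 8) (nat_lit 13))
    (@En.n l20299 (nat_lit 5340) (nat_lit 8) (nat_lit 3))
    (@En.i (nat_lit 7667) (nat_lit 10) (nat_lit 9))
    (@En.n l24618 (nat_lit 5407) (nat_lit 10) (nat_lit 3))
    (@En.n l619 (nat_lit 4110) (nat_lit 0) (nat_lit 13))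
    (@En.n l8908 (nat_lit 5638) (nat_lit 13) (nat_lit 9))
    (@En.i (nat_lit 4208) (nat_lit 14) (nat_lit 13))
    (@En.n l4386 (nat_lit 10443) (nat_lit 3) (nat_lit 8))
    (@En.n l17 (nat_lit 5404) (nat_lit 15) (nat_lit 2))))
  (@Cl.mk (nat_lit 0x300030008000d000c000a000300080004000d000800060003000d000d0008) (nat_lit 0x58710504200502) (nat_lit 16) Lb.e (@T16.mk En
    (@En.i (nat_lit 7728) (nat_lit 0) (nat_lit 8))
    (@En.n l27594 (nat_lit 5407) (nat_lit 3) (nat_lit 13))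
    (@En.n l15662 (nat_lit 10463) (nat_lit 2) (nat_lit 13))
    (@En.n l28 (nat_lit 5409) (nat_lit 3) (nat_lit 3))
    (@En.n l9845 (nat_lit 4510) (nat_lit 0) (nat_lit 6))
    (@En.i (nat_lit 5516) (nat_lit 5) (nat_lit 8))
    (@En.n l20647 (nat_lit 3984) (nat_lit 7) (nat_lit 13))
    (@En.n l9845 (nat_lit 6981) (nat_lit 7) (nat_lit 4))
    (@En.i (nat_lit 8812) (nat_lit 4) (nat_lit 8))
    (@En.n l14016 (nat_lit 5402) (nat_lit 9) (nat_lit 3))
    (@En.n l14017 (nat_lit 4130) (nat_lit 0) (nat_lit 10))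
    (@En.n l1236 (nat_lit 5338) (nat_lit 12) (nat_lit 12))
    (@En.n l28559 (nat_lit 4203) (nat_lit 13) (nat_lit 13))
    (@En.i (nat_lit 9555) (nat_lit 3) (nat_lit 8))
    (@En.n l18 (nat_lit 5408) (nat_lit 13) (nat_lit 3))
    (@En.n l17194 (nat_lit 5407) (nat_lit 0) (nat_lit 3))))
  (@Cl.mk (nat_lit 0x300030007000d000a000d000300080003000d000600090003000d000d0008) (nat_lit 0xa770503040832) (nat_lit 16) Lb.e (@T16.mk En
    (@En.i (nat_lit 6530) (nat_lit 0) (nat_lit 8))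
    (@En.n l5987 (nat_lit 5412) (nat_lit 3) (nat_lit 13))
    (@En.n l5011 (nat_lit 8245) (nat_lit 2) (nat_lit 13))
    (@En.n l11647 (nat_lit 5402) (nat_lit 3) (nat_lit 3))
    (@En.i (nat_lit 4720) (nat_lit 9) (nat_lit 9))
    (@En.n l11108 (nat_lit 5535) (nat_lit 5) (nat_lit 6))
    (@En.n l3815 (nat_lit 5629) (nat_lit 7) (nat_lit 13))
    (@En.n l3291 (nat_lit 5559) (nat_lit 7) (nat_lit 3))
    (@En.i (nat_lit 12626) (nat_lit 0) (nat_lit 8))
    (@En.n l2869 (nat_lit 5409) (nat_lit 9) (nat_lit 3))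
    (@En.n l2100 (nat_lit 3574) (nat_lit 0) (nat_lit 13))
    (@En.n l2579 (nat_lit 5536) (nat_lit 12) (nat_lit 10))
    (@En.n l25370 (nat_lit 4209) (nat_lit 13) (nat_lit 13))
    (@En.n l1599 (nat_lit 8618) (nat_lit 3) (nat_lit 7))
    (@En.n l28 (nat_lit 5410) (nat_lit 13) (nat_lit 3))
    (@En.n l1393 (nat_lit 5412) (nat_lit 0) (nat_lit 3))))
  (@Cl.mk (nat_lit 0x20008000d000c000a000300090004000d000800060003000d0007000e0003) (nat_lit 0x57710604200b050) (nat_lit 16) Lb.e (@T16.mk En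
    (@En.n l18738 (nat_lit 5405) (nat_lit 15) (nat_lit 3))
    (@En.n l1596 (nat_lit 13304) (nat_lit 0) (nat_lit 14))
    (@En.i (nat_lit 5801) (nat_lit 2) (nat_lit 7))
    (@En.n l15987 (nat_lit 10462) (nat_lit 2) (nat_lit 13))
    (@En.n l32817 (nat_lit 5413) (nat_lit 4) (nat_lit 3))
    (@En.i (nat_lit 4511) (nat_lit 5) (nat_lit 6))
    (@En.n l25677 (nat_lit 5521) (nat_lit 6) (nat_lit 8))
    (@En.n l134 (nat_lit 3983) (nat_lit 8) (nat_lit 13))
    (@En.i (nat_lit 6982) (nat_lit 8) (nat_lit 4))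
    (@En.n l25678 (nat_lit 8908) (nat_lit 10) (nat_lit 9))
    (@En.n l35249 (nat_lit 5404) (nat_lit 10) (nat_lit 3))
    (@En.n l55 (nat_lit 4129) (nat_lit 0) (nat_lit 10))
    (@En.n l619 (nat_lit 5340) (nat_lit 13) (nat_lit 12))
    (@En.n l1596 (nat_lit 4206) (nat_lit 14) (nat_lit 13))
    (@En.i (nat_lit 9557) (nat_lit 3) (nat_lit 8))
    (@En.n l17 (nat_lit 5407) (nat_lit 15) (nat_lit 2))))
noncomputable def a338 : T16 Cl := @T16.mk Cl
  (@Cl.mk (nat_lit 0x2000900030008000d000c000a000300070004000d000800060003000e000d) (nat_lit 0x205841000220066) (nat_lit 16) Lb.e (@T16.mk En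
    (@En.n l396 (nat_lit 5405) (nat_lit 2) (nat_lit 13))
    (@En.n l4316 (nat_lit 7672) (nat_lit 1) (nat_lit 14))
    (@En.n l28 (nat_lit 5411) (nat_lit 2) (nat_lit 3))
    (@En.n l8501 (nat_lit 4512) (nat_lit 3) (nat_lit 6))
    (@En.i (nat_lit 5517) (nat_lit 4) (nat_lit 8))
    (@En.n l4108 (nat_lit 5428) (nat_lit 6) (nat_lit 13))
    (@En.n l345 (nat_lit 6983) (nat_lit 6) (nat_lit 4))
    (@En.i (nat_lit 8858) (nat_lit 7) (nat_lit 7))
    (@En.n l2438 (nat_lit 5403) (nat_lit 8) (nat_lit 3))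
    (@En.n l97 (nat_lit 4131) (nat_lit 0) (nat_lit 10))
    (@En.n l1236 (nat_lit 5339) (nat_lit 11) (nat_lit 12))
    (@En.n l4037 (nat_lit 4202) (nat_lit 12) (nat_lit 13))
    (@En.i (nat_lit 8660) (nat_lit 13) (nat_lit 8))
    (@En.i (nat_lit 5405) (nat_lit 14) (nat_lit 3))
    (@En.i (nat_lit 5360) (nat_lit 0) (nat_lit 9))
    (@En.n l50 (nat_lit 5408) (nat_lit 15) (nat_lit 2))))
  (@Cl.mk (nat_lit 0x300030007000d000c000b000300080004000d000500090003000d000d0008) (nat_lit 0xb790004030570) (nat_lit 16) Lb.e (@T16.mk En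
    (@En.i (nat_lit 7730) (nat_lit 0) (nat_lit 8))
    (@En.n l396 (nat_lit 5413) (nat_lit 3) (nat_lit 13))
    (@En.i (nat_lit 8250) (nat_lit 2) (nat_lit 13))
    (@En.i (nat_lit 5405) (nat_lit 3) (nat_lit 3))
    (@En.n l649 (nat_lit 4718) (nat_lit 0) (nat_lit 9))
    (@En.i (nat_lit 7077) (nat_lit 5) (nat_lit 5))
    (@En.i (nat_lit 3981) (nat_lit 7) (nat_lit 13))
    (@En.n l6042 (nat_lit 5565) (nat_lit 7) (nat_lit 4))
    (@En.i (nat_lit 8811) (nat_lit 4) (nat_lit 8))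
    (@En.n l1865 (nat_lit 5406) (nat_lit 9) (nat_lit 3))
    (@En.n l619 (nat_lit 6974) (nat_lit 0) (nat_lit 11))
    (@En.n l3866 (nat_lit 5559) (nat_lit 12) (nat_lit 12))
    (@En.i (nat_lit 7113) (nat_lit 13) (nat_lit 13))
    (@En.i (nat_lit 8613) (nat_lit 3) (nat_lit 7))
    (@En.n l18 (nat_lit 5411) (nat_lit 13) (nat_lit 3))
    (@En.i (nat_lit 5413) (nat_lit 0) (nat_lit 3))))
  (@Cl.mk (nat_lit 0x2000900030007000d000a000d000300070003000d000600090003000e000d) (nat_lit 0x200976000304009) (nat_lit 16) Lb.e (@T16.mk En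
    (@En.n l1578 (nat_lit 5406) (nat_lit 2) (nat_lit 13))
    (@En.n l1997 (nat_lit 5484) (nat_lit 1) (nat_lit 14))
    (@En.n l6078 (nat_lit 5403) (nat_lit 2) (nat_lit 3))
    (@En.i (nat_lit 4722) (nat_lit 3) (nat_lit 9))
    (@En.n l476 (nat_lit 5568) (nat_lit 4) (nat_lit 6))
    (@En.i (nat_lit 5630) (nat_lit 6) (nat_lit 13))
    (@En.n l3291 (nat_lit 5560) (nat_lit 6) (nat_lit 3))
    (@En.i (nat_lit 12628) (nat_lit 7) (nat_lit 7))
    (@En.n l2869 (nat_lit 5411) (nat_lit 8) (nat_lit 3))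
    (@En.n l2100 (nat_lit 5124) (nat_lit 0) (nat_lit 13))
    (@En.n l2579 (nat_lit 5624) (nat_lit 11) (nat_lit 10))
    (@En.n l2083 (nat_lit 7110) (nat_lit 12) (nat_lit 13))
    (@En.i (nat_lit 4344) (nat_lit 13) (nat_lit 7))
    (@En.i (nat_lit 5406) (nat_lit 14) (nat_lit 3))
    (@En.n l1997 (nat_lit 4927) (nat_lit 0) (nat_lit 9))
    (@En.n l11 (nat_lit 5410) (nat_lit 15) (nat_lit 2))))
  (@Cl.mk (nat_lit 0x2000900030007000d000c000b000300070004000d000500090003000e000d) (nat_lit 0x100849000204006) (nat_lit 16) Lb.e (@T16.mk En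
    (@En.n l396 (nat_lit 5409) (nat_lit 2) (nat_lit 13))
    (@En.i (nat_lit 5482) (nat_lit 1) (nat_lit 14))
    (@En.i (nat_lit 5408) (nat_lit 2) (nat_lit 3))
    (@En.n l649 (nat_lit 4721) (nat_lit 3) (nat_lit 9))
    (@En.i (nat_lit 7076) (nat_lit 4) (nat_lit 5))
    (@En.i (nat_lit 3985) (nat_lit 6) (nat_lit 13))
    (@En.i (nat_lit 5567) (nat_lit 6) (nat_lit 4))
    (@En.i (nat_lit 8850) (nat_lit 7) (nat_lit 7))
    (@En.n l1865 (nat_lit 5410) (nat_lit 8) (nat_lit 3))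
    (@En.n l619 (nat_lit 6979) (nat_lit 0) (nat_lit 11))
    (@En.n l3866 (nat_lit 5560) (nat_lit 11) (nat_lit 12))
    (@En.i (nat_lit 7112) (nat_lit 12) (nat_lit 13))
    (@En.i (nat_lit 4339) (nat_lit 13) (nat_lit 7))
    (@En.i (nat_lit 5409) (nat_lit 14) (nat_lit 3))
    (@En.i (nat_lit 4932) (nat_lit 0) (nat_lit 9))
    (@En.n l50 (nat_lit 5411) (nat_lit 15) (nat_lit 2))))
  (@Cl.mk (nat_lit 0x20007000d000a000d000300090003000d000600090003000d0007000e0003) (nat_lit 0x87506040302070) (nat_lit 16) Lb.e (@T16.mk En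
    (@En.n l4019 (nat_lit 5406) (nat_lit 15) (nat_lit 3))
    (@En.i (nat_lit 13859) (nat_lit 0) (nat_lit 14))
    (@En.n l7327 (nat_lit 5804) (nat_lit 2) (nat_lit 7))
    (@En.n l7557 (nat_lit 8246) (nat_lit 2) (nat_lit 13))
    (@En.n l24267 (nat_lit 5404) (nat_lit 4) (nat_lit 3))
    (@En.i (nat_lit 4719) (nat_lit 5) (nat_lit 9))
    (@En.n l2140 (nat_lit 5569) (nat_lit 6) (nat_lit 6))
    (@En.n l95 (nat_lit 5631) (nat_lit 8) (nat_lit 13))
    (@En.n l3916 (nat_lit 5561) (nat_lit 8) (nat_lit 3))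
    (@En.n l12343 (nat_lit 7664) (nat_lit 10) (nat_lit 9))
    (@En.n l11238 (nat_lit 5413) (nat_lit 10) (nat_lit 3))
    (@En.n l579 (nat_lit 4124) (nat_lit 12) (nat_lit 13))
    (@En.n l24872 (nat_lit 5625) (nat_lit 13) (nat_lit 10))
    (@En.n l24267 (nat_lit 7430) (nat_lit 14) (nat_lit 13))
    (@En.n l1501 (nat_lit 8619) (nat_lit 14) (nat_lit 7))
    (@En.n l17 (nat_lit 5412) (nat_lit 15) (nat_lit 2))))
  (@Cl.mk (nat_lit 0x20007000d000c000b000300090004000d000500090003000d0007000e0003) (nat_lit 0xb7906040306070) (nat_lit 16) Lb.e (@T16.mk En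
    (@En.n l50 (nat_lit 5409) (nat_lit 15) (nat_lit 3))
    (@En.n l4349 (nat_lit 13866) (nat_lit 0) (nat_lit 14))
    (@En.i (nat_lit 5803) (nat_lit 2) (nat_lit 7))
    (@En.n l15414 (nat_lit 8252) (nat_lit 2) (nat_lit 13))
    (@En.n l17194 (nat_lit 5407) (nat_lit 4) (nat_lit 3))
    (@En.n l11706 (nat_lit 4716) (nat_lit 5) (nat_lit 9))
    (@En.n l8194 (nat_lit 7164) (nat_lit 6) (nat_lit 5))
    (@En.n l17134 (nat_lit 3982) (nat_lit 8) (nat_lit 13))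
    (@En.n l2197 (nat_lit 5566) (nat_lit 8) (nat_lit 4))
    (@En.n l10571 (nat_lit 10751) (nat_lit 10) (nat_lit 9))
    (@En.n l11708 (nat_lit 5412) (nat_lit 10) (nat_lit 3))
    (@En.n l3307 (nat_lit 6972) (nat_lit 12) (nat_lit 11))
    (@En.n l3866 (nat_lit 5561) (nat_lit 13) (nat_lit 12))
    (@En.n l22216 (nat_lit 7431) (nat_lit 14) (nat_lit 13))
    (@En.i (nat_lit 8612) (nat_lit 14) (nat_lit 7))
    (@En.n l18 (nat_lit 5413) (nat_lit 15) (nat_lit 2))))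
  (@Cl.mk (nat_lit 0x2000a0007000d0008000c0003000600090004000d000900080003000e0007) (nat_lit 0x208660070846070) (nat_lit 16) Lb.e (@T16.mk En
    (@En.n l36725 (nat_lit 5359) (nat_lit 6) (nat_lit 7))
    (@En.n l36726 (nat_lit 9902) (nat_lit 1) (nat_lit 14))
    (@En.n l1529 (nat_lit 5415) (nat_lit 2) (nat_lit 3))
    (@En.n l36727 (nat_lit 5369) (nat_lit 3) (nat_lit 8))
    (@En.n l2140 (nat_lit 6552) (nat_lit 4) (nat_lit 9))
    (@En.n l13073 (nat_lit 6925) (nat_lit 6) (nat_lit 13))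
    (@En.n l10538 (nat_lit 9350) (nat_lit 6) (nat_lit 4))
    (@En.n l36728 (nat_lit 5404) (nat_lit 9) (nat_lit 9))
    (@En.n l36727 (nat_lit 1537) (nat_lit 12) (nat_lit 6))
    (@En.n l36729 (nat_lit 1745) (nat_lit 9) (nat_lit 3))
    (@En.n l625 (nat_lit 5376) (nat_lit 0) (nat_lit 12))
    (@En.n l3116 (nat_lit 5356) (nat_lit 12) (nat_lit 8))
    (@En.n l36728 (nat_lit 5361) (nat_lit 13) (nat_lit 13))
    (@En.n l253 (nat_lit 9638) (nat_lit 14) (nat_lit 7))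
    (@En.n l36730 (nat_lit 5359) (nat_lit 4) (nat_lit 10))
    (@En.n l18 (nat_lit 5414) (nat_lit 15) (nat_lit 2))))
  (@Cl.mk (nat_lit 0x2000a0006000d0009000c0003000600090004000d0007000a0003000e0007) (nat_lit 0x105070070803070) (nat_lit 16) Lb.e (@T16.mk En
    (@En.i (nat_lit 4926) (nat_lit 6) (nat_lit 7))
    (@En.n l1531 (nat_lit 10866) (nat_lit 1) (nat_lit 14))
    (@En.n l7192 (nat_lit 5414) (nat_lit 2) (nat_lit 3))
    (@En.i (nat_lit 5845) (nat_lit 3) (nat_lit 10))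
    (@En.n l2524 (nat_lit 5281) (nat_lit 4) (nat_lit 7))
    (@En.n l3870 (nat_lit 5418) (nat_lit 6) (nat_lit 13))
    (@En.n l2790 (nat_lit 8819) (nat_lit 6) (nat_lit 4))
    (@En.n l2520 (nat_lit 5412) (nat_lit 9) (nat_lit 9))
    (@En.i (nat_lit 1392) (nat_lit 12) (nat_lit 6))
    (@En.n l6482 (nat_lit 5416) (nat_lit 9) (nat_lit 3))
    (@En.n l2790 (nat_lit 5380) (nat_lit 0) (nat_lit 12))
    (@En.n l17798 (nat_lit 5417) (nat_lit 12) (nat_lit 9))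
    (@En.n l23551 (nat_lit 5282) (nat_lit 13) (nat_lit 13))
    (@En.n l2520 (nat_lit 9611) (nat_lit 14) (nat_lit 6))
    (@En.n l617 (nat_lit 4926) (nat_lit 4) (nat_lit 10))
    (@En.n l17 (nat_lit 5415) (nat_lit 15) (nat_lit 2))))
  (@Cl.mk (nat_lit 0x2000a0006000d000b000a0003000600090005000d0006000a0003000e0007) (nat_lit 0x101400070603090) (nat_lit 16) Lb.e (@T16.mk En
    (@En.n l25415 (nat_lit 1737) (nat_lit 6) (nat_lit 7))
    (@En.n l2494 (nat_lit 10867) (nat_lit 1) (nat_lit 14))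
    (@En.n l2352 (nat_lit 1745) (nat_lit 2) (nat_lit 3))
    (@En.n l25413 (nat_lit 5841) (nat_lit 3) (nat_lit 10))
    (@En.n l7831 (nat_lit 5241) (nat_lit 4) (nat_lit 6))
    (@En.n l25416 (nat_lit 5422) (nat_lit 6) (nat_lit 13))
    (@En.n l117 (nat_lit 9559) (nat_lit 6) (nat_lit 5))
    (@En.n l25415 (nat_lit 5413) (nat_lit 9) (nat_lit 9))
    (@En.n l771 (nat_lit 5348) (nat_lit 8) (nat_lit 6))
    (@En.n l1179 (nat_lit 5415) (nat_lit 9) (nat_lit 3))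
    (@En.n l575 (nat_lit 6968) (nat_lit 0) (nat_lit 10))
    (@En.n l4542 (nat_lit 5097) (nat_lit 12) (nat_lit 11))
    (@En.n l25417 (nat_lit 1736) (nat_lit 13) (nat_lit 13))
    (@En.n l25413 (nat_lit 9613) (nat_lit 14) (nat_lit 6))
    (@En.n l25418 (nat_lit 1737) (nat_lit 4) (nat_lit 10))
    (@En.n l50 (nat_lit 5416) (nat_lit 15) (nat_lit 2))))
  (@Cl.mk (nat_lit 0x2000b00060009000c000a000500080004000c00070006000a0004000e0008) (nat_lit 0x207640606004001) (nat_lit 16) Lb.e (@T16.mk En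
    (@En.n l26074 (nat_lit 4929) (nat_lit 14) (nat_lit 8))
    (@En.n l26075 (nat_lit 10869) (nat_lit 1) (nat_lit 14))
    (@En.i (nat_lit 5356) (nat_lit 2) (nat_lit 4))
    (@En.n l8686 (nat_lit 5415) (nat_lit 3) (nat_lit 10))
    (@En.n l26076 (nat_lit 5416) (nat_lit 4) (nat_lit 6))
    (@En.n l25675 (nat_lit 5283) (nat_lit 5) (nat_lit 7))
    (@En.n l19591 (nat_lit 5419) (nat_lit 7) (nat_lit 12))
    (@En.n l26077 (nat_lit 8829) (nat_lit 7) (nat_lit 4))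
    (@En.i (nat_lit 5625) (nat_lit 10) (nat_lit 8))
    (@En.n l12364 (nat_lit 1405) (nat_lit 9) (nat_lit 5))
    (@En.n l19591 (nat_lit 6954) (nat_lit 11) (nat_lit 10))
    (@En.n l26078 (nat_lit 6782) (nat_lit 6) (nat_lit 12))
    (@En.n l19591 (nat_lit 6946) (nat_lit 9) (nat_lit 9))
    (@En.n l26079 (nat_lit 9609) (nat_lit 14) (nat_lit 6))
    (@En.n l26080 (nat_lit 4929) (nat_lit 12) (nat_lit 11))
    (@En.n l18 (nat_lit 5417) (nat_lit 15) (nat_lit 2))))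
  (@Cl.mk (nat_lit 0x2000a0007000d000a0008000300060009000d0006000900030008000e0007) (nat_lit 0xa510007020410) (nat_lit 16) Lb.e (@T16.mk En
    (@En.n l8268 (nat_lit 5421) (nat_lit 6) (nat_lit 7))
    (@En.n l4519 (nat_lit 4459) (nat_lit 1) (nat_lit 14))
    (@En.n l8276 (nat_lit 5281) (nat_lit 2) (nat_lit 8))
    (@En.n l7 (nat_lit 6925) (nat_lit 3) (nat_lit 3))
    (@En.n l7843 (nat_lit 2071) (nat_lit 0) (nat_lit 9))
    (@En.n l9902 (nat_lit 5053) (nat_lit 5) (nat_lit 6))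
    (@En.i (nat_lit 6107) (nat_lit 7) (nat_lit 13))
    (@En.n l1643 (nat_lit 5631) (nat_lit 9) (nat_lit 9))
    (@En.i (nat_lit 2001) (nat_lit 8) (nat_lit 6))
    (@En.n l4373 (nat_lit 5422) (nat_lit 9) (nat_lit 3))
    (@En.i (nat_lit 1919) (nat_lit 0) (nat_lit 8))
    (@En.n l15293 (nat_lit 5419) (nat_lit 12) (nat_lit 10))
    (@En.n l4768 (nat_lit 5424) (nat_lit 13) (nat_lit 13))
    (@En.n l9906 (nat_lit 9513) (nat_lit 14) (nat_lit 7))
    (@En.n l1252 (nat_lit 5421) (nat_lit 4) (nat_lit 10))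
    (@En.n l17 (nat_lit 5418) (nat_lit 15) (nat_lit 2))))
  (@Cl.mk (nat_lit 0x2000b0007000a0007000b00050008000c00060005000900040009000e0008) (nat_lit 0x4040050030500) (nat_lit 16) Lb.e (@T16.mk En
    (@En.n l5 (nat_lit 5420) (nat_lit 13) (nat_lit 8))
    (@En.n l4790 (nat_lit 6660) (nat_lit 1) (nat_lit 14))
    (@En.n l22170 (nat_lit 5283) (nat_lit 2) (nat_lit 9))
    (@En.n l3531 (nat_lit 2024) (nat_lit 3) (nat_lit 4))
    (@En.n l27333 (nat_lit 5418) (nat_lit 4) (nat_lit 9))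
    (@En.n l3072 (nat_lit 5422) (nat_lit 5) (nat_lit 5))
    (@En.i (nat_lit 3185) (nat_lit 6) (nat_lit 6))
    (@En.n l639 (nat_lit 6110) (nat_lit 8) (nat_lit 12))
    (@En.n l3531 (nat_lit 5628) (nat_lit 10) (nat_lit 8))
    (@En.n l12944 (nat_lit 1460) (nat_lit 9) (nat_lit 5))
    (@En.i (nat_lit 6599) (nat_lit 11) (nat_lit 11))
    (@En.n l2038 (nat_lit 4457) (nat_lit 12) (nat_lit 7))
    (@En.i (nat_lit 6832) (nat_lit 8) (nat_lit 10))
    (@En.n l35581 (nat_lit 9511) (nat_lit 14) (nat_lit 7))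
    (@En.i (nat_lit 5420) (nat_lit 11) (nat_lit 11))
    (@En.n l18 (nat_lit 5419) (nat_lit 15) (nat_lit 2))))
  (@Cl.mk (nat_lit 0x4000a00080008000b000600090006000a000500080008000c00070006000a) (nat_lit 0x560902040016002) (nat_lit 16) Lb.e (@T16.mk En
    (@En.n l36655 (nat_lit 5421) (nat_lit 9) (nat_lit 10))
    (@En.n l42091 (nat_lit 5423) (nat_lit 10) (nat_lit 6))
    (@En.n l22176 (nat_lit 3184) (nat_lit 0) (nat_lit 7))
    (@En.n l17617 (nat_lit 10371) (nat_lit 7) (nat_lit 12))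
    (@En.n l17 (nat_lit 5419) (nat_lit 8) (nat_lit 8))
    (@En.n l37580 (nat_lit 6535) (nat_lit 10) (nat_lit 8))
    (@En.n l41919 (nat_lit 1462) (nat_lit 6) (nat_lit 5))
    (@En.i (nat_lit 6593) (nat_lit 9) (nat_lit 10))
    (@En.n l2038 (nat_lit 4458) (nat_lit 1) (nat_lit 6))
    (@En.i (nat_lit 6834) (nat_lit 9) (nat_lit 9))
    (@En.n l42092 (nat_lit 9515) (nat_lit 1) (nat_lit 6))
    (@En.n l42093 (nat_lit 6916) (nat_lit 7) (nat_lit 11))
    (@En.n l42094 (nat_lit 6916) (nat_lit 8) (nat_lit 8))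
    (@En.n l42095 (nat_lit 6281) (nat_lit 14) (nat_lit 8))
    (@En.n l39706 (nat_lit 4936) (nat_lit 3) (nat_lit 10))
    (@En.n l37580 (nat_lit 2022) (nat_lit 15) (nat_lit 4))))
  (@Cl.mk (nat_lit 0x3000600090009000d0007000a0003000900070007000a0006000d00090007) (nat_lit 0x1701040080930) (nat_lit 16) Lb.e (@T16.mk En
    (@En.n l33783 (nat_lit 1920) (nat_lit 0) (nat_lit 7))
    (@En.n l33084 (nat_lit 5420) (nat_lit 9) (nat_lit 9))
    (@En.i (nat_lit 5425) (nat_lit 2) (nat_lit 13))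
    (@En.n l117 (nat_lit 10048) (nat_lit 3) (nat_lit 6))
    (@En.n l3327 (nat_lit 6915) (nat_lit 8) (nat_lit 10))
    (@En.n l2575 (nat_lit 6915) (nat_lit 9) (nat_lit 7))
    (@En.i (nat_lit 9664) (nat_lit 6) (nat_lit 7))
    (@En.n l13717 (nat_lit 4935) (nat_lit 8) (nat_lit 9))
    (@En.n l34745 (nat_lit 6919) (nat_lit 8) (nat_lit 3))
    (@En.i (nat_lit 1964) (nat_lit 8) (nat_lit 10))
    (@En.n l5646 (nat_lit 5054) (nat_lit 11) (nat_lit 7))
    (@En.n l3859 (nat_lit 6155) (nat_lit 12) (nat_lit 13))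
    (@En.n l12560 (nat_lit 5418) (nat_lit 7) (nat_lit 9))
    (@En.n l7566 (nat_lit 6534) (nat_lit 9) (nat_lit 9))
    (@En.i (nat_lit 2000) (nat_lit 12) (nat_lit 6))
    (@En.i (nat_lit 5423) (nat_lit 15) (nat_lit 3))))
  (@Cl.mk (nat_lit 0x2000a0007000d0007000b000300060009000d0005000900030009000e0007) (nat_lit 0xa010015010470) (nat_lit 16) Lb.e (@T16.mk En
    (@En.n l23515 (nat_lit 5423) (nat_lit 6) (nat_lit 7))
    (@En.i (nat_lit 4460) (nat_lit 1) (nat_lit 14))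
    (@En.n l27441 (nat_lit 5244) (nat_lit 2) (nat_lit 9))
    (@En.n l3348 (nat_lit 6923) (nat_lit 3) (nat_lit 3))
    (@En.n l387 (nat_lit 1963) (nat_lit 0) (nat_lit 9))
    (@En.n l27442 (nat_lit 6924) (nat_lit 5) (nat_lit 5))
    (@En.i (nat_lit 6104) (nat_lit 7) (nat_lit 13))
    (@En.i (nat_lit 3982) (nat_lit 9) (nat_lit 9))
    (@En.n l27443 (nat_lit 2015) (nat_lit 12) (nat_lit 6))
    (@En.n l11714 (nat_lit 5418) (nat_lit 9) (nat_lit 3))
    (@En.n l1540 (nat_lit 5004) (nat_lit 0) (nat_lit 11))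
    (@En.n l13785 (nat_lit 2847) (nat_lit 12) (nat_lit 7))
    (@En.n l617 (nat_lit 5426) (nat_lit 13) (nat_lit 13))
    (@En.n l3480 (nat_lit 9512) (nat_lit 14) (nat_lit 7))
    (@En.n l27444 (nat_lit 5423) (nat_lit 4) (nat_lit 10))
    (@En.n l107 (nat_lit 5422) (nat_lit 15) (nat_lit 2))))
  (@Cl.mk (nat_lit 0x3000600090009000d0006000a0003000a00070007000a0006000d0006000a) (nat_lit 0x62601040080501) (nat_lit 16) Lb.e (@T16.mk En
    (@En.n l40607 (nat_lit 5003) (nat_lit 0) (nat_lit 10))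
    (@En.n l27862 (nat_lit 2848) (nat_lit 8) (nat_lit 6))
    (@En.n l31926 (nat_lit 5427) (nat_lit 2) (nat_lit 13))
    (@En.n l40608 (nat_lit 9375) (nat_lit 3) (nat_lit 6))
    (@En.n l40609 (nat_lit 6914) (nat_lit 8) (nat_lit 10))
    (@En.n l40610 (nat_lit 6914) (nat_lit 9) (nat_lit 7))
    (@En.i (nat_lit 10357) (nat_lit 6) (nat_lit 7))
    (@En.n l40611 (nat_lit 5239) (nat_lit 8) (nat_lit 10))
    (@En.n l40612 (nat_lit 6920) (nat_lit 8) (nat_lit 3))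
    (@En.i (nat_lit 1961) (nat_lit 0) (nat_lit 10))
    (@En.n l40613 (nat_lit 6922) (nat_lit 11) (nat_lit 6))
    (@En.n l40614 (nat_lit 6214) (nat_lit 12) (nat_lit 13))
    (@En.n l30063 (nat_lit 5422) (nat_lit 7) (nat_lit 9))
    (@En.n l40615 (nat_lit 5440) (nat_lit 9) (nat_lit 9))
    (@En.n l5928 (nat_lit 2016) (nat_lit 12) (nat_lit 6))
    (@En.n l7 (nat_lit 5421) (nat_lit 15) (nat_lit 3))))
noncomputable def a339 : T16 Cl := @T16.mk Cl
  (@Cl.mk (nat_lit 0x2000a000d000900070003000b00060009000d0007000500030009000e0007) (nat_lit 0x94005007000410) (nat_lit 16) Lb.e (@T16.mk En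
    (@En.n l26041 (nat_lit 5425) (nat_lit 5) (nat_lit 7))
    (@En.i (nat_lit 4461) (nat_lit 1) (nat_lit 14))
    (@En.n l6080 (nat_lit 5279) (nat_lit 2) (nat_lit 9))
    (@En.n l26042 (nat_lit 6638) (nat_lit 3) (nat_lit 3))
    (@En.n l18 (nat_lit 5689) (nat_lit 4) (nat_lit 5))
    (@En.n l1347 (nat_lit 5051) (nat_lit 5) (nat_lit 7))
    (@En.n l1496 (nat_lit 6106) (nat_lit 7) (nat_lit 13))
    (@En.i (nat_lit 7026) (nat_lit 9) (nat_lit 9))
    (@En.n l1549 (nat_lit 5418) (nat_lit 8) (nat_lit 6))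
    (@En.n l6840 (nat_lit 5419) (nat_lit 10) (nat_lit 11))
    (@En.n l7 (nat_lit 5426) (nat_lit 10) (nat_lit 3))
    (@En.n l26043 (nat_lit 5344) (nat_lit 0) (nat_lit 7))
    (@En.n l5911 (nat_lit 6837) (nat_lit 13) (nat_lit 9))
    (@En.n l24081 (nat_lit 12632) (nat_lit 5) (nat_lit 13))
    (@En.n l16613 (nat_lit 5425) (nat_lit 3) (nat_lit 10))
    (@En.n l107 (nat_lit 5424) (nat_lit 15) (nat_lit 2))))
  (@Cl.mk (nat_lit 0x3000a000600090009000d000800060003000a00070007000a000d00080006) (nat_lit 0x500182004008850) (nat_lit 16) Lb.e (@T16.mk En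
    (@En.n l40132 (nat_lit 1926) (nat_lit 0) (nat_lit 6))
    (@En.n l33084 (nat_lit 6831) (nat_lit 10) (nat_lit 8))
    (@En.n l40133 (nat_lit 11709) (nat_lit 5) (nat_lit 13))
    (@En.n l40134 (nat_lit 6913) (nat_lit 8) (nat_lit 10))
    (@En.n l25320 (nat_lit 6913) (nat_lit 9) (nat_lit 7))
    (@En.i (nat_lit 9669) (nat_lit 14) (nat_lit 7))
    (@En.n l40135 (nat_lit 5280) (nat_lit 7) (nat_lit 10))
    (@En.n l40136 (nat_lit 6637) (nat_lit 15) (nat_lit 3))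
    (@En.n l7565 (nat_lit 5684) (nat_lit 0) (nat_lit 6))
    (@En.n l40137 (nat_lit 5052) (nat_lit 10) (nat_lit 8))
    (@En.n l40138 (nat_lit 6151) (nat_lit 6) (nat_lit 13))
    (@En.n l40139 (nat_lit 5424) (nat_lit 7) (nat_lit 9))
    (@En.n l31925 (nat_lit 6536) (nat_lit 9) (nat_lit 9))
    (@En.n l11 (nat_lit 5421) (nat_lit 14) (nat_lit 6))
    (@En.n l40140 (nat_lit 5420) (nat_lit 7) (nat_lit 10))
    (@En.n l31926 (nat_lit 5427) (nat_lit 15) (nat_lit 3))))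
  (@Cl.mk (nat_lit 0x2000a000d0006000a0003000b00060009000d000600050003000a000e0007) (nat_lit 0x90105007000470) (nat_lit 16) Lb.e (@T16.mk En
    (@En.i (nat_lit 5427) (nat_lit 5) (nat_lit 7))
    (@En.i (nat_lit 6735) (nat_lit 1) (nat_lit 14))
    (@En.n l6080 (nat_lit 5278) (nat_lit 2) (nat_lit 10))
    (@En.n l2101 (nat_lit 6641) (nat_lit 3) (nat_lit 3))
    (@En.n l18 (nat_lit 5687) (nat_lit 4) (nat_lit 5))
    (@En.n l6081 (nat_lit 6560) (nat_lit 5) (nat_lit 6))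
    (@En.i (nat_lit 6102) (nat_lit 7) (nat_lit 13))
    (@En.i (nat_lit 7025) (nat_lit 9) (nat_lit 9))
    (@En.n l61 (nat_lit 5422) (nat_lit 8) (nat_lit 6))
    (@En.n l3749 (nat_lit 6841) (nat_lit 10) (nat_lit 11))
    (@En.i (nat_lit 5424) (nat_lit 10) (nat_lit 3))
    (@En.n l3348 (nat_lit 5007) (nat_lit 0) (nat_lit 10))
    (@En.i (nat_lit 5288) (nat_lit 13) (nat_lit 6))
    (@En.n l4837 (nat_lit 12629) (nat_lit 5) (nat_lit 13))
    (@En.n l5732 (nat_lit 5427) (nat_lit 3) (nat_lit 10))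
    (@En.n l107 (nat_lit 5426) (nat_lit 15) (nat_lit 2))))
  (@Cl.mk (nat_lit 0x3000a000600090009000d000700060003000b00070007000a000d00050009) (nat_lit 0x806180004008401) (nat_lit 16) Lb.e (@T16.mk En
    (@En.n l40197 (nat_lit 5006) (nat_lit 0) (nat_lit 9))
    (@En.n l25504 (nat_lit 2893) (nat_lit 9) (nat_lit 5))
    (@En.n l35449 (nat_lit 11710) (nat_lit 5) (nat_lit 13))
    (@En.n l40198 (nat_lit 6912) (nat_lit 8) (nat_lit 10))
    (@En.n l40199 (nat_lit 6912) (nat_lit 9) (nat_lit 7))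
    (@En.i (nat_lit 10358) (nat_lit 14) (nat_lit 7))
    (@En.n l28774 (nat_lit 5265) (nat_lit 7) (nat_lit 11))
    (@En.n l28775 (nat_lit 6639) (nat_lit 7) (nat_lit 3))
    (@En.n l18 (nat_lit 5685) (nat_lit 0) (nat_lit 6))
    (@En.n l40200 (nat_lit 6559) (nat_lit 10) (nat_lit 7))
    (@En.n l35449 (nat_lit 6217) (nat_lit 6) (nat_lit 13))
    (@En.n l527 (nat_lit 5426) (nat_lit 7) (nat_lit 9))
    (@En.i (nat_lit 6538) (nat_lit 9) (nat_lit 9))
    (@En.n l28373 (nat_lit 5423) (nat_lit 14) (nat_lit 6))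
    (@En.n l30367 (nat_lit 6840) (nat_lit 7) (nat_lit 10))
    (@En.n l26041 (nat_lit 5425) (nat_lit 15) (nat_lit 3))))
  (@Cl.mk (nat_lit 0x2000900030009000d0008000b00030007000d0007000500030008000e000d) (nat_lit 0x205810001000431) (nat_lit 16) Lb.e (@T16.mk En
    (@En.n l3528 (nat_lit 3984) (nat_lit 2) (nat_lit 13))
    (@En.n l1501 (nat_lit 10330) (nat_lit 1) (nat_lit 14))
    (@En.n l13399 (nat_lit 5430) (nat_lit 2) (nat_lit 8))
    (@En.n l8097 (nat_lit 3985) (nat_lit 3) (nat_lit 3))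
    (@En.i (nat_lit 5918) (nat_lit 4) (nat_lit 5))
    (@En.n l17851 (nat_lit 1324) (nat_lit 5) (nat_lit 7))
    (@En.n l2572 (nat_lit 2327) (nat_lit 7) (nat_lit 13))
    (@En.n l3699 (nat_lit 4290) (nat_lit 7) (nat_lit 7))
    (@En.n l13382 (nat_lit 5634) (nat_lit 8) (nat_lit 3))
    (@En.i (nat_lit 5833) (nat_lit 0) (nat_lit 11))
    (@En.n l17852 (nat_lit 2360) (nat_lit 11) (nat_lit 8))
    (@En.n l95 (nat_lit 3923) (nat_lit 12) (nat_lit 13))
    (@En.n l13399 (nat_lit 7399) (nat_lit 13) (nat_lit 9))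
    (@En.n l4018 (nat_lit 3984) (nat_lit 14) (nat_lit 3))
    (@En.i (nat_lit 1741) (nat_lit 0) (nat_lit 9))
    (@En.n l3 (nat_lit 5428) (nat_lit 15) (nat_lit 2))))
  (@Cl.mk (nat_lit 0x300030008000c0008000c000b000400090004000800050008000d000d0007) (nat_lit 0x56181000103450) (nat_lit 16) Lb.e (@T16.mk En
    (@En.n l38154 (nat_lit 5432) (nat_lit 0) (nat_lit 7))
    (@En.n l77 (nat_lit 5431) (nat_lit 3) (nat_lit 13))
    (@En.n l38155 (nat_lit 10157) (nat_lit 2) (nat_lit 13))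
    (@En.i (nat_lit 7168) (nat_lit 10) (nat_lit 8))
    (@En.n l21569 (nat_lit 5873) (nat_lit 4) (nat_lit 5))
    (@En.n l38156 (nat_lit 3010) (nat_lit 5) (nat_lit 8))
    (@En.n l38157 (nat_lit 5626) (nat_lit 6) (nat_lit 4))
    (@En.n l38158 (nat_lit 12153) (nat_lit 0) (nat_lit 9))
    (@En.n l13632 (nat_lit 6014) (nat_lit 8) (nat_lit 4))
    (@En.n l22623 (nat_lit 3984) (nat_lit 10) (nat_lit 11))
    (@En.n l38154 (nat_lit 5405) (nat_lit 11) (nat_lit 12))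
    (@En.n l22624 (nat_lit 2361) (nat_lit 12) (nat_lit 8))
    (@En.n l38155 (nat_lit 3928) (nat_lit 13) (nat_lit 12))
    (@En.n l38159 (nat_lit 10604) (nat_lit 14) (nat_lit 8))
    (@En.n l38160 (nat_lit 5430) (nat_lit 13) (nat_lit 3))
    (@En.n l28 (nat_lit 5431) (nat_lit 0) (nat_lit 3))))
  (@Cl.mk (nat_lit 0x2000800030008000c0008000c000b000400080004000800050008000e000d) (nat_lit 0x205715101010355) (nat_lit 16) Lb.e (@T16.mk En
    (@En.n l33630 (nat_lit 5429) (nat_lit 2) (nat_lit 13))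
    (@En.n l1836 (nat_lit 10328) (nat_lit 1) (nat_lit 14))
    (@En.n l24388 (nat_lit 7170) (nat_lit 10) (nat_lit 8))
    (@En.n l8501 (nat_lit 5874) (nat_lit 3) (nat_lit 5))
    (@En.n l16824 (nat_lit 3011) (nat_lit 4) (nat_lit 8))
    (@En.n l33631 (nat_lit 5627) (nat_lit 5) (nat_lit 4))
    (@En.n l6825 (nat_lit 4291) (nat_lit 6) (nat_lit 8))
    (@En.n l18616 (nat_lit 6086) (nat_lit 7) (nat_lit 4))
    (@En.n l4684 (nat_lit 5428) (nat_lit 9) (nat_lit 11))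
    (@En.i (nat_lit 5408) (nat_lit 10) (nat_lit 12))
    (@En.n l19470 (nat_lit 2359) (nat_lit 11) (nat_lit 8))
    (@En.n l4037 (nat_lit 5555) (nat_lit 12) (nat_lit 12))
    (@En.i (nat_lit 7392) (nat_lit 13) (nat_lit 8))
    (@En.n l33632 (nat_lit 5429) (nat_lit 14) (nat_lit 3))
    (@En.n l6825 (nat_lit 5387) (nat_lit 0) (nat_lit 8))
    (@En.n l50 (nat_lit 5430) (nat_lit 15) (nat_lit 2))))
  (@Cl.mk (nat_lit 0x20008000c0008000c000b0004000a0004000800050008000d0006000e0003) (nat_lit 0x562810001034000) (nat_lit 16) Lb.e (@T16.mk En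
    (@En.i (nat_lit 5429) (nat_lit 15) (nat_lit 3))
    (@En.n l5592 (nat_lit 13141) (nat_lit 0) (nat_lit 14))
    (@En.i (nat_lit 5438) (nat_lit 2) (nat_lit 6))
    (@En.n l5649 (nat_lit 10156) (nat_lit 4) (nat_lit 13))
    (@En.i (nat_lit 7167) (nat_lit 10) (nat_lit 8))
    (@En.n l21569 (nat_lit 5928) (nat_lit 5) (nat_lit 5))
    (@En.n l7611 (nat_lit 3012) (nat_lit 6) (nat_lit 8))
    (@En.n l21569 (nat_lit 5628) (nat_lit 7) (nat_lit 4))
    (@En.n l5595 (nat_lit 12133) (nat_lit 9) (nat_lit 10))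
    (@En.n l13632 (nat_lit 6013) (nat_lit 9) (nat_lit 4))
    (@En.n l22623 (nat_lit 3983) (nat_lit 11) (nat_lit 11))
    (@En.n l21569 (nat_lit 5407) (nat_lit 12) (nat_lit 12))
    (@En.n l22624 (nat_lit 4190) (nat_lit 13) (nat_lit 8))
    (@En.n l5649 (nat_lit 5554) (nat_lit 14) (nat_lit 12))
    (@En.n l4172 (nat_lit 10029) (nat_lit 14) (nat_lit 8))
    (@En.n l7 (nat_lit 5431) (nat_lit 15) (nat_lit 2))))
  (@Cl.mk (nat_lit 0x200080007000c0007000b000a0004000900080005000900060009000e0007) (nat_lit 0x106070002010640) (nat_lit 16) Lb.e (@T16.mk En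
    (@En.n l38846 (nat_lit 5435) (nat_lit 7) (nat_lit 7))
    (@En.n l1836 (nat_lit 11383) (nat_lit 1) (nat_lit 14))
    (@En.n l24388 (nat_lit 7174) (nat_lit 9) (nat_lit 9))
    (@En.n l8501 (nat_lit 5021) (nat_lit 3) (nat_lit 6))
    (@En.n l16824 (nat_lit 3135) (nat_lit 4) (nat_lit 9))
    (@En.n l38847 (nat_lit 9780) (nat_lit 5) (nat_lit 5))
    (@En.i (nat_lit 5430) (nat_lit 6) (nat_lit 8))
    (@En.n l22708 (nat_lit 10312) (nat_lit 8) (nat_lit 9))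
    (@En.n l38848 (nat_lit 6520) (nat_lit 8) (nat_lit 4))
    (@En.n l4684 (nat_lit 5433) (nat_lit 10) (nat_lit 10))
    (@En.i (nat_lit 7728) (nat_lit 11) (nat_lit 11))
    (@En.n l38849 (nat_lit 4361) (nat_lit 12) (nat_lit 7))
    (@En.n l38850 (nat_lit 6581) (nat_lit 13) (nat_lit 12))
    (@En.n l38851 (nat_lit 11003) (nat_lit 14) (nat_lit 7))
    (@En.n l38852 (nat_lit 1744) (nat_lit 5) (nat_lit 8))
    (@En.n l50 (nat_lit 5432) (nat_lit 15) (nat_lit 2))))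
  (@Cl.mk (nat_lit 0x200090008000d0007000a000300080007000d0008000600030009000e0008) (nat_lit 0x1470800071007c6) (nat_lit 16) Lb.e (@T16.mk En
    (@En.n l23250 (nat_lit 5436) (nat_lit 6) (nat_lit 8))
    (@En.n l18838 (nat_lit 11384) (nat_lit 1) (nat_lit 14))
    (@En.n l13399 (nat_lit 5432) (nat_lit 2) (nat_lit 9))
    (@En.n l8097 (nat_lit 5434) (nat_lit 3) (nat_lit 3))
    (@En.i (nat_lit 5905) (nat_lit 4) (nat_lit 6))
    (@En.n l23251 (nat_lit 3136) (nat_lit 5) (nat_lit 8))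
    (@En.n l4021 (nat_lit 12206) (nat_lit 7) (nat_lit 13))
    (@En.i (nat_lit 5428) (nat_lit 7) (nat_lit 7))
    (@En.n l4020 (nat_lit 10313) (nat_lit 4) (nat_lit 8))
    (@En.n l13382 (nat_lit 6523) (nat_lit 9) (nat_lit 3))
    (@En.i (nat_lit 5702) (nat_lit 0) (nat_lit 10))
    (@En.n l23252 (nat_lit 4360) (nat_lit 12) (nat_lit 7))
    (@En.n l4016 (nat_lit 6579) (nat_lit 13) (nat_lit 13))
    (@En.n l23253 (nat_lit 11005) (nat_lit 14) (nat_lit 8))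
    (@En.n l23254 (nat_lit 1739) (nat_lit 4) (nat_lit 9))
    (@En.n l3 (nat_lit 5433) (nat_lit 15) (nat_lit 2))))
  (@Cl.mk (nat_lit 0x200090007000d0007000b000300080007000d0005000900030009000e0008) (nat_lit 0x109000007020656) (nat_lit 16) Lb.e (@T16.mk En
    (@En.i (nat_lit 5437) (nat_lit 6) (nat_lit 8))
    (@En.n l476 (nat_lit 11386) (nat_lit 1) (nat_lit 14))
    (@En.i (nat_lit 7707) (nat_lit 2) (nat_lit 9))
    (@En.n l4108 (nat_lit 5433) (nat_lit 3) (nat_lit 3))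
    (@En.n l4813 (nat_lit 3100) (nat_lit 4) (nat_lit 9))
    (@En.n l10969 (nat_lit 5432) (nat_lit 5) (nat_lit 5))
    (@En.n l28322 (nat_lit 10984) (nat_lit 7) (nat_lit 13))
    (@En.i (nat_lit 3985) (nat_lit 7) (nat_lit 7))
    (@En.n l31653 (nat_lit 10706) (nat_lit 4) (nat_lit 8))
    (@En.n l1865 (nat_lit 6524) (nat_lit 9) (nat_lit 3))
    (@En.n l2038 (nat_lit 7995) (nat_lit 0) (nat_lit 11))
    (@En.n l38877 (nat_lit 3156) (nat_lit 12) (nat_lit 7))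
    (@En.n l11434 (nat_lit 6578) (nat_lit 13) (nat_lit 13))
    (@En.n l10971 (nat_lit 11007) (nat_lit 14) (nat_lit 7))
    (@En.n l18 (nat_lit 1742) (nat_lit 4) (nat_lit 9))
    (@En.n l50 (nat_lit 5434) (nat_lit 15) (nat_lit 2))))
  (@Cl.mk (nat_lit 0x40009000900090006000a0007000a0007000700070006000c0006000a0009) (nat_lit 0x612080600004010) (nat_lit 16) Lb.e (@T16.mk En
    (@En.n l41507 (nat_lit 5436) (nat_lit 0) (nat_lit 9))
    (@En.n l41508 (nat_lit 63) (nat_lit 1) (nat_lit 10))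
    (@En.n l35024 (nat_lit 3153) (nat_lit 6) (nat_lit 6))
    (@En.n l41509 (nat_lit 5173) (nat_lit 3) (nat_lit 12))
    (@En.n l16430 (nat_lit 10004) (nat_lit 10) (nat_lit 6))
    (@En.n l10366 (nat_lit 7188) (nat_lit 9) (nat_lit 7))
    (@En.n l575 (nat_lit 7727) (nat_lit 9) (nat_lit 7))
    (@En.n l11002 (nat_lit 11294) (nat_lit 7) (nat_lit 7))
    (@En.i (nat_lit 7175) (nat_lit 8) (nat_lit 10))
    (@En.n l19167 (nat_lit 5015) (nat_lit 9) (nat_lit 7))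
    (@En.n l16429 (nat_lit 3158) (nat_lit 9) (nat_lit 10))
    (@En.n l810 (nat_lit 8011) (nat_lit 10) (nat_lit 6))
    (@En.n l565 (nat_lit 5438) (nat_lit 7) (nat_lit 9))
    (@En.n l41510 (nat_lit 5432) (nat_lit 7) (nat_lit 9))
    (@En.n l41511 (nat_lit 10523) (nat_lit 11) (nat_lit 9))
    (@En.n l10995 (nat_lit 5161) (nat_lit 15) (nat_lit 4))))
  (@Cl.mk (nat_lit 0x3000800080008000d000900070003000a0008000800080007000d00060009) (nat_lit 0x512b10075020107) (nat_lit 16) Lb.e (@T16.mk En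
    (@En.n l24394 (nat_lit 5715) (nat_lit 0) (nat_lit 9))
    (@En.n l37758 (nat_lit 3149) (nat_lit 8) (nat_lit 6))
    (@En.n l37759 (nat_lit 57) (nat_lit 2) (nat_lit 13))
    (@En.n l37760 (nat_lit 10000) (nat_lit 3) (nat_lit 7))
    (@En.n l37761 (nat_lit 7435) (nat_lit 8) (nat_lit 8))
    (@En.n l37762 (nat_lit 7726) (nat_lit 8) (nat_lit 8))
    (@En.i (nat_lit 10466) (nat_lit 6) (nat_lit 8))
    (@En.n l37763 (nat_lit 5435) (nat_lit 8) (nat_lit 10))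
    (@En.n l37764 (nat_lit 5437) (nat_lit 8) (nat_lit 3))
    (@En.n l24394 (nat_lit 5019) (nat_lit 0) (nat_lit 7))
    (@En.n l37765 (nat_lit 3152) (nat_lit 11) (nat_lit 9))
    (@En.n l37766 (nat_lit 12213) (nat_lit 12) (nat_lit 13))
    (@En.n l37767 (nat_lit 5439) (nat_lit 8) (nat_lit 8))
    (@En.n l37768 (nat_lit 5433) (nat_lit 8) (nat_lit 8))
    (@En.n l37769 (nat_lit 10520) (nat_lit 5) (nat_lit 8))
    (@En.n l28 (nat_lit 5441) (nat_lit 15) (nat_lit 3))))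
  (@Cl.mk (nat_lit 0x3000800080008000d0006000a0003000a0008000800080006000d0006000a) (nat_lit 0x512702075020803) (nat_lit 16) Lb.e (@T16.mk En
    (@En.n l2038 (nat_lit 5719) (nat_lit 0) (nat_lit 10))
    (@En.n l40770 (nat_lit 2123) (nat_lit 8) (nat_lit 6))
    (@En.n l37590 (nat_lit 6449) (nat_lit 2) (nat_lit 13))
    (@En.n l31659 (nat_lit 7987) (nat_lit 3) (nat_lit 6))
    (@En.n l31532 (nat_lit 7434) (nat_lit 8) (nat_lit 8))
    (@En.n l42305 (nat_lit 7725) (nat_lit 8) (nat_lit 8))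
    (@En.n l42306 (nat_lit 11243) (nat_lit 6) (nat_lit 8))
    (@En.i (nat_lit 7736) (nat_lit 8) (nat_lit 10))
    (@En.n l42307 (nat_lit 5436) (nat_lit 8) (nat_lit 3))
    (@En.n l42308 (nat_lit 2078) (nat_lit 0) (nat_lit 10))
    (@En.n l31536 (nat_lit 5435) (nat_lit 11) (nat_lit 6))
    (@En.n l42309 (nat_lit 12215) (nat_lit 12) (nat_lit 13))
    (@En.n l14697 (nat_lit 5440) (nat_lit 8) (nat_lit 8))
    (@En.n l644 (nat_lit 5434) (nat_lit 8) (nat_lit 8))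
    (@En.n l42310 (nat_lit 10518) (nat_lit 5) (nat_lit 8))
    (@En.n l42311 (nat_lit 6526) (nat_lit 15) (nat_lit 3))))
  (@Cl.mk (nat_lit 0x20007000c0007000b000a0004000a000900050009000600090006000e0007) (nat_lit 0x70600610103070) (nat_lit 16) Lb.e (@T16.mk En
    (@En.n l5246 (nat_lit 5435) (nat_lit 6) (nat_lit 7))
    (@En.n l134 (nat_lit 6924) (nat_lit 1) (nat_lit 14))
    (@En.n l37427 (nat_lit 11295) (nat_lit 2) (nat_lit 6))
    (@En.i (nat_lit 7172) (nat_lit 9) (nat_lit 9))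
    (@En.n l21569 (nat_lit 5069) (nat_lit 4) (nat_lit 6))
    (@En.n l38161 (nat_lit 3164) (nat_lit 5) (nat_lit 9))
    (@En.n l38162 (nat_lit 11089) (nat_lit 6) (nat_lit 5))
    (@En.n l55 (nat_lit 5429) (nat_lit 7) (nat_lit 9))
    (@En.n l13631 (nat_lit 11483) (nat_lit 9) (nat_lit 10))
    (@En.n l13632 (nat_lit 6015) (nat_lit 9) (nat_lit 4))
    (@En.n l22623 (nat_lit 5439) (nat_lit 11) (nat_lit 10))
    (@En.n l21569 (nat_lit 5801) (nat_lit 12) (nat_lit 11))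
    (@En.n l13635 (nat_lit 4211) (nat_lit 13) (nat_lit 7))
    (@En.n l5649 (nat_lit 6540) (nat_lit 14) (nat_lit 12))
    (@En.n l3360 (nat_lit 10952) (nat_lit 13) (nat_lit 7))
    (@En.n l7 (nat_lit 5438) (nat_lit 15) (nat_lit 2))))
  (@Cl.mk (nat_lit 0x20008000d0007000a000300090008000d00080006000300090007000e0008) (nat_lit 0x80805142004081) (nat_lit 16) Lb.e (@T16.mk En
    (@En.n l10948 (nat_lit 5436) (nat_lit 5) (nat_lit 8))
    (@En.n l5 (nat_lit 6923) (nat_lit 1) (nat_lit 14))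
    (@En.n l5592 (nat_lit 11234) (nat_lit 2) (nat_lit 7))
    (@En.n l22493 (nat_lit 5438) (nat_lit 3) (nat_lit 9))
    (@En.n l40401 (nat_lit 5440) (nat_lit 4) (nat_lit 3))
    (@En.i (nat_lit 5068) (nat_lit 0) (nat_lit 6))
    (@En.n l18276 (nat_lit 3163) (nat_lit 6) (nat_lit 8))
    (@En.i (nat_lit 10265) (nat_lit 8) (nat_lit 13))
    (@En.n l217 (nat_lit 3984) (nat_lit 8) (nat_lit 8))
    (@En.n l197 (nat_lit 11484) (nat_lit 10) (nat_lit 9))
    (@En.n l8400 (nat_lit 6385) (nat_lit 10) (nat_lit 3))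
    (@En.i (nat_lit 5735) (nat_lit 0) (nat_lit 10))
    (@En.n l17884 (nat_lit 4210) (nat_lit 13) (nat_lit 7))
    (@En.n l645 (nat_lit 6539) (nat_lit 14) (nat_lit 13))
    (@En.n l9874 (nat_lit 10944) (nat_lit 3) (nat_lit 8))
    (@En.n l17 (nat_lit 5439) (nat_lit 15) (nat_lit 2))))
noncomputable def a340 : T16 Cl := @T16.mk Cl
  (@Cl.mk (nat_lit 0x20007000d0007000b000300090008000d00050009000300090007000e0008) (nat_lit 0x60305140204081) (nat_lit 16) Lb.e (@T16.mk En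
    (@En.n l16861 (nat_lit 5437) (nat_lit 5) (nat_lit 8))
    (@En.n l7256 (nat_lit 5422) (nat_lit 1) (nat_lit 14))
    (@En.n l1578 (nat_lit 11236) (nat_lit 2) (nat_lit 7))
    (@En.n l32053 (nat_lit 7176) (nat_lit 3) (nat_lit 9))
    (@En.n l13134 (nat_lit 5439) (nat_lit 4) (nat_lit 3))
    (@En.n l12681 (nat_lit 2075) (nat_lit 5) (nat_lit 9))
    (@En.n l33437 (nat_lit 5438) (nat_lit 6) (nat_lit 5))
    (@En.n l23053 (nat_lit 10262) (nat_lit 8) (nat_lit 13))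
    (@En.n l2832 (nat_lit 3981) (nat_lit 8) (nat_lit 8))
    (@En.n l575 (nat_lit 11418) (nat_lit 10) (nat_lit 9))
    (@En.n l17869 (nat_lit 6534) (nat_lit 10) (nat_lit 3))
    (@En.n l13134 (nat_lit 6980) (nat_lit 12) (nat_lit 11))
    (@En.n l22741 (nat_lit 3150) (nat_lit 13) (nat_lit 7))
    (@En.n l22218 (nat_lit 6538) (nat_lit 14) (nat_lit 13))
    (@En.i (nat_lit 10593) (nat_lit 3) (nat_lit 7))
    (@En.n l3 (nat_lit 5440) (nat_lit 15) (nat_lit 2))))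
  (@Cl.mk (nat_lit 0x3000800080008000d00090008000300090008000800080007000d00080007) (nat_lit 0x830070000750) (nat_lit 16) Lb.e (@T16.mk En
    (@En.n l24918 (nat_lit 6035) (nat_lit 0) (nat_lit 7))
    (@En.n l37758 (nat_lit 7440) (nat_lit 9) (nat_lit 8))
    (@En.n l41912 (nat_lit 6449) (nat_lit 10) (nat_lit 13))
    (@En.i (nat_lit 9039) (nat_lit 3) (nat_lit 7))
    (@En.n l2687 (nat_lit 7432) (nat_lit 8) (nat_lit 8))
    (@En.n l38591 (nat_lit 7149) (nat_lit 8) (nat_lit 8))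
    (@En.i (nat_lit 10465) (nat_lit 6) (nat_lit 8))
    (@En.n l763 (nat_lit 5161) (nat_lit 8) (nat_lit 9))
    (@En.n l30498 (nat_lit 6526) (nat_lit 8) (nat_lit 3))
    (@En.n l619 (nat_lit 5909) (nat_lit 0) (nat_lit 8))
    (@En.n l10040 (nat_lit 3157) (nat_lit 11) (nat_lit 9))
    (@En.n l16721 (nat_lit 12214) (nat_lit 12) (nat_lit 13))
    (@En.n l41913 (nat_lit 6385) (nat_lit 8) (nat_lit 8))
    (@En.n l39962 (nat_lit 6523) (nat_lit 8) (nat_lit 8))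
    (@En.n l40812 (nat_lit 11322) (nat_lit 5) (nat_lit 8))
    (@En.i (nat_lit 5436) (nat_lit 15) (nat_lit 3))))
  (@Cl.mk (nat_lit 0x2000800080008000e000d0002000a0003000800080008000d0006000e0003) (nat_lit 0x4053b020203b0a0) (nat_lit 16) Lb.e (@T16.mk En
    (@En.i (nat_lit 2959) (nat_lit 6) (nat_lit 3))
    (@En.i (nat_lit 12950) (nat_lit 0) (nat_lit 14))
    (@En.i (nat_lit 5792) (nat_lit 2) (nat_lit 6))
    (@En.n l4021 (nat_lit 3626) (nat_lit 10) (nat_lit 13))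
    (@En.n l1865 (nat_lit 5448) (nat_lit 4) (nat_lit 8))
    (@En.n l152 (nat_lit 5694) (nat_lit 8) (nat_lit 8))
    (@En.n l117 (nat_lit 2950) (nat_lit 6) (nat_lit 8))
    (@En.n l4018 (nat_lit 3631) (nat_lit 7) (nat_lit 3))
    (@En.i (nat_lit 5198) (nat_lit 0) (nat_lit 10))
    (@En.n l28 (nat_lit 5442) (nat_lit 9) (nat_lit 2))
    (@En.n l2221 (nat_lit 3631) (nat_lit 11) (nat_lit 13))
    (@En.n l5577 (nat_lit 4884) (nat_lit 12) (nat_lit 14))
    (@En.n l13728 (nat_lit 5449) (nat_lit 2) (nat_lit 8))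
    (@En.n l12550 (nat_lit 5498) (nat_lit 14) (nat_lit 8))
    (@En.n l13781 (nat_lit 6096) (nat_lit 4) (nat_lit 8))
    (@En.n l17 (nat_lit 5442) (nat_lit 15) (nat_lit 2))))
  (@Cl.mk (nat_lit 0x20007000e00080002000d000d000a0003000300090008000d0006000e0003) (nat_lit 0x310656006430a0) (nat_lit 16) Lb.e (@T16.mk En
    (@En.i (nat_lit 5447) (nat_lit 4) (nat_lit 3))
    (@En.n l5592 (nat_lit 12956) (nat_lit 0) (nat_lit 14))
    (@En.i (nat_lit 5793) (nat_lit 2) (nat_lit 6))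
    (@En.i (nat_lit 4061) (nat_lit 8) (nat_lit 13))
    (@En.n l217 (nat_lit 3579) (nat_lit 4) (nat_lit 8))
    (@En.n l476 (nat_lit 6006) (nat_lit 5) (nat_lit 9))
    (@En.n l152 (nat_lit 5448) (nat_lit 6) (nat_lit 3))
    (@En.i (nat_lit 5450) (nat_lit 7) (nat_lit 3))
    (@En.n l619 (nat_lit 6464) (nat_lit 9) (nat_lit 10))
    (@En.n l97 (nat_lit 5450) (nat_lit 10) (nat_lit 13))
    (@En.i (nat_lit 5532) (nat_lit 11) (nat_lit 13))
    (@En.n l17 (nat_lit 5443) (nat_lit 11) (nat_lit 2))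
    (@En.i (nat_lit 3631) (nat_lit 13) (nat_lit 8))
    (@En.n l5 (nat_lit 702) (nat_lit 1) (nat_lit 14))
    (@En.n l4172 (nat_lit 6092) (nat_lit 2) (nat_lit 7))
    (@En.n l7 (nat_lit 5443) (nat_lit 15) (nat_lit 2))))
  (@Cl.mk (nat_lit 0x200090008000d000d0008000300030007000e00080002000d0008000e0003) (nat_lit 0x754550002104050) (nat_lit 16) Lb.e (@T16.mk En
    (@En.n l107 (nat_lit 5447) (nat_lit 11) (nat_lit 3))
    (@En.n l830 (nat_lit 12954) (nat_lit 0) (nat_lit 14))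
    (@En.i (nat_lit 5731) (nat_lit 2) (nat_lit 8))
    (@En.n l26853 (nat_lit 5534) (nat_lit 10) (nat_lit 13))
    (@En.n l17 (nat_lit 5444) (nat_lit 4) (nat_lit 2))
    (@En.n l10949 (nat_lit 3631) (nat_lit 5) (nat_lit 8))
    (@En.n l830 (nat_lit 704) (nat_lit 7) (nat_lit 14))
    (@En.n l24732 (nat_lit 6095) (nat_lit 7) (nat_lit 7))
    (@En.n l11672 (nat_lit 5449) (nat_lit 13) (nat_lit 3))
    (@En.n l28 (nat_lit 5450) (nat_lit 0) (nat_lit 3))
    (@En.n l2438 (nat_lit 5743) (nat_lit 0) (nat_lit 8))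
    (@En.n l77 (nat_lit 5450) (nat_lit 3) (nat_lit 13))
    (@En.n l17269 (nat_lit 4064) (nat_lit 13) (nat_lit 13))
    (@En.n l7162 (nat_lit 4118) (nat_lit 14) (nat_lit 8))
    (@En.n l7705 (nat_lit 5452) (nat_lit 10) (nat_lit 9))
    (@En.n l67 (nat_lit 5444) (nat_lit 15) (nat_lit 2))))
  (@Cl.mk (nat_lit 0x2000a000300090008000d000d0006000300030007000e00080002000e000d) (nat_lit 0x30727800002103b) (nat_lit 16) Lb.e (@T16.mk En
    (@En.i (nat_lit 5447) (nat_lit 14) (nat_lit 13))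
    (@En.i (nat_lit 7168) (nat_lit 1) (nat_lit 14))
    (@En.n l17 (nat_lit 5445) (nat_lit 2) (nat_lit 2))
    (@En.n l2805 (nat_lit 2959) (nat_lit 3) (nat_lit 8))
    (@En.n l998 (nat_lit 705) (nat_lit 5) (nat_lit 14))
    (@En.n l11512 (nat_lit 6088) (nat_lit 5) (nat_lit 7))
    (@En.n l142 (nat_lit 5451) (nat_lit 13) (nat_lit 3))
    (@En.n l28 (nat_lit 5448) (nat_lit 0) (nat_lit 3))
    (@En.i (nat_lit 5738) (nat_lit 0) (nat_lit 6))
    (@En.n l77 (nat_lit 5448) (nat_lit 3) (nat_lit 13))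
    (@En.i (nat_lit 4060) (nat_lit 11) (nat_lit 13))
    (@En.n l2579 (nat_lit 3576) (nat_lit 12) (nat_lit 8))
    (@En.n l998 (nat_lit 2815) (nat_lit 13) (nat_lit 9))
    (@En.n l117 (nat_lit 5447) (nat_lit 10) (nat_lit 3))
    (@En.i (nat_lit 4766) (nat_lit 12) (nat_lit 10))
    (@En.n l3 (nat_lit 5445) (nat_lit 15) (nat_lit 2))))
  (@Cl.mk (nat_lit 0x2000800030007000e00080002000d000d00080003000300090008000e000d) (nat_lit 0x20051078000761b) (nat_lit 16) Lb.e (@T16.mk En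
    (@En.n l77 (nat_lit 5447) (nat_lit 7) (nat_lit 13))
    (@En.n l11670 (nat_lit 810) (nat_lit 1) (nat_lit 14))
    (@En.n l10970 (nat_lit 4113) (nat_lit 2) (nat_lit 8))
    (@En.n l11671 (nat_lit 5455) (nat_lit 3) (nat_lit 9))
    (@En.n l4324 (nat_lit 5451) (nat_lit 4) (nat_lit 3))
    (@En.n l11672 (nat_lit 5449) (nat_lit 5) (nat_lit 3))
    (@En.n l11673 (nat_lit 5734) (nat_lit 6) (nat_lit 8))
    (@En.n l11674 (nat_lit 5449) (nat_lit 8) (nat_lit 13))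
    (@En.n l11675 (nat_lit 5533) (nat_lit 9) (nat_lit 13))
    (@En.n l17 (nat_lit 5446) (nat_lit 9) (nat_lit 2))
    (@En.n l11676 (nat_lit 2959) (nat_lit 11) (nat_lit 8))
    (@En.n l5 (nat_lit 706) (nat_lit 12) (nat_lit 14))
    (@En.n l11677 (nat_lit 1207) (nat_lit 13) (nat_lit 7))
    (@En.n l142 (nat_lit 5447) (nat_lit 3) (nat_lit 3))
    (@En.n l11678 (nat_lit 1641) (nat_lit 0) (nat_lit 8))
    (@En.n l7 (nat_lit 5446) (nat_lit 15) (nat_lit 2))))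
  (@Cl.mk (nat_lit 0x2000d000d00090003000300090008000d000d0007000300030007000e0008) (nat_lit 0xa500076a4000031) (nat_lit 16) Lb.e (@T16.mk En
    (@En.i (nat_lit 49) (nat_lit 4) (nat_lit 8))
    (@En.n l5 (nat_lit 707) (nat_lit 1) (nat_lit 14))
    (@En.n l11512 (nat_lit 6087) (nat_lit 2) (nat_lit 7))
    (@En.i (nat_lit 5446) (nat_lit 13) (nat_lit 3))
    (@En.n l28 (nat_lit 5443) (nat_lit 0) (nat_lit 3))
    (@En.i (nat_lit 5737) (nat_lit 0) (nat_lit 7))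
    (@En.n l77 (nat_lit 5443) (nat_lit 3) (nat_lit 13))
    (@En.i (nat_lit 4062) (nat_lit 8) (nat_lit 13))
    (@En.n l10970 (nat_lit 3572) (nat_lit 13) (nat_lit 8))
    (@En.n l476 (nat_lit 5453) (nat_lit 10) (nat_lit 9))
    (@En.n l152 (nat_lit 5445) (nat_lit 13) (nat_lit 3))
    (@En.i (nat_lit 5444) (nat_lit 0) (nat_lit 3))
    (@En.n l97 (nat_lit 5733) (nat_lit 0) (nat_lit 9))
    (@En.n l97 (nat_lit 5444) (nat_lit 3) (nat_lit 13))
    (@En.i (nat_lit 5531) (nat_lit 10) (nat_lit 13))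
    (@En.n l17 (nat_lit 5447) (nat_lit 15) (nat_lit 2))))
  (@Cl.mk (nat_lit 0x20007000e00080002000e000d0002000b000300090008000d0005000e0003) (nat_lit 0x210370207270a0) (nat_lit 16) Lb.e (@T16.mk En
    (@En.i (nat_lit 5445) (nat_lit 7) (nat_lit 3))
    (@En.n l5592 (nat_lit 12959) (nat_lit 0) (nat_lit 14))
    (@En.i (nat_lit 5794) (nat_lit 2) (nat_lit 5))
    (@En.i (nat_lit 4058) (nat_lit 11) (nat_lit 13))
    (@En.n l2579 (nat_lit 3570) (nat_lit 12) (nat_lit 8))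
    (@En.n l998 (nat_lit 2817) (nat_lit 5) (nat_lit 9))
    (@En.n l117 (nat_lit 5443) (nat_lit 6) (nat_lit 3))
    (@En.i (nat_lit 4957) (nat_lit 0) (nat_lit 11))
    (@En.n l3 (nat_lit 5448) (nat_lit 8) (nat_lit 2))
    (@En.i (nat_lit 5443) (nat_lit 10) (nat_lit 13))
    (@En.i (nat_lit 7167) (nat_lit 1) (nat_lit 14))
    (@En.n l17 (nat_lit 5448) (nat_lit 11) (nat_lit 2))
    (@En.n l2805 (nat_lit 5442) (nat_lit 13) (nat_lit 8))
    (@En.n l998 (nat_lit 710) (nat_lit 1) (nat_lit 14))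
    (@En.n l4172 (nat_lit 6089) (nat_lit 5) (nat_lit 7))
    (@En.n l7 (nat_lit 5448) (nat_lit 15) (nat_lit 2))))
  (@Cl.mk (nat_lit 0x2000900030007000e00080002000d0007000e0003000200090008000e000d) (nat_lit 0x200510705006415) (nat_lit 16) Lb.e (@T16.mk En
    (@En.n l13441 (nat_lit 5444) (nat_lit 12) (nat_lit 13))
    (@En.i (nat_lit 812) (nat_lit 13) (nat_lit 14))
    (@En.n l619 (nat_lit 4110) (nat_lit 2) (nat_lit 8))
    (@En.n l1252 (nat_lit 5454) (nat_lit 3) (nat_lit 9))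
    (@En.n l17 (nat_lit 5449) (nat_lit 4) (nat_lit 2))
    (@En.n l13442 (nat_lit 5446) (nat_lit 5) (nat_lit 3))
    (@En.n l182 (nat_lit 13408) (nat_lit 0) (nat_lit 14))
    (@En.n l7844 (nat_lit 5732) (nat_lit 14) (nat_lit 7))
    (@En.n l7843 (nat_lit 5539) (nat_lit 9) (nat_lit 13))
    (@En.n l7 (nat_lit 5449) (nat_lit 9) (nat_lit 2))
    (@En.n l12450 (nat_lit 5442) (nat_lit 5) (nat_lit 8))
    (@En.n l1643 (nat_lit 935) (nat_lit 7) (nat_lit 14))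
    (@En.i (nat_lit 1206) (nat_lit 7) (nat_lit 7))
    (@En.n l13443 (nat_lit 5444) (nat_lit 8) (nat_lit 3))
    (@En.n l1347 (nat_lit 6030) (nat_lit 0) (nat_lit 9))
    (@En.n l107 (nat_lit 5449) (nat_lit 15) (nat_lit 2))))
  (@Cl.mk (nat_lit 0x20007000e00080002000d0009000e0003000200090008000d0007000e0003) (nat_lit 0x210463007640a0) (nat_lit 16) Lb.e (@T16.mk En
    (@En.i (nat_lit 5444) (nat_lit 9) (nat_lit 3))
    (@En.n l1865 (nat_lit 13268) (nat_lit 0) (nat_lit 14))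
    (@En.i (nat_lit 5806) (nat_lit 2) (nat_lit 7))
    (@En.n l830 (nat_lit 4066) (nat_lit 13) (nat_lit 13))
    (@En.n l7162 (nat_lit 4122) (nat_lit 14) (nat_lit 8))
    (@En.n l7705 (nat_lit 6005) (nat_lit 5) (nat_lit 9))
    (@En.n l67 (nat_lit 5450) (nat_lit 6) (nat_lit 2))
    (@En.n l107 (nat_lit 5443) (nat_lit 7) (nat_lit 3))
    (@En.n l830 (nat_lit 13199) (nat_lit 0) (nat_lit 14))
    (@En.i (nat_lit 5735) (nat_lit 2) (nat_lit 9))
    (@En.n l830 (nat_lit 5537) (nat_lit 11) (nat_lit 13))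
    (@En.n l17 (nat_lit 5450) (nat_lit 11) (nat_lit 2))
    (@En.i (nat_lit 36) (nat_lit 5) (nat_lit 8))
    (@En.n l830 (nat_lit 711) (nat_lit 7) (nat_lit 14))
    (@En.n l19849 (nat_lit 6094) (nat_lit 7) (nat_lit 7))
    (@En.n l7 (nat_lit 5450) (nat_lit 15) (nat_lit 2))))
  (@Cl.mk (nat_lit 0x2000700030007000e00080002000e000d00020009000300090008000e000d) (nat_lit 0x510a80206618) (nat_lit 16) Lb.e (@T16.mk En
    (@En.n l143 (nat_lit 5445) (nat_lit 10) (nat_lit 13))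
    (@En.i (nat_lit 814) (nat_lit 11) (nat_lit 14))
    (@En.n l16065 (nat_lit 3573) (nat_lit 2) (nat_lit 8))
    (@En.n l11658 (nat_lit 2819) (nat_lit 3) (nat_lit 9))
    (@En.n l11629 (nat_lit 5446) (nat_lit 4) (nat_lit 3))
    (@En.n l1544 (nat_lit 4767) (nat_lit 12) (nat_lit 9))
    (@En.n l3 (nat_lit 5451) (nat_lit 6) (nat_lit 2))
    (@En.n l548 (nat_lit 5446) (nat_lit 8) (nat_lit 13))
    (@En.n l1544 (nat_lit 7170) (nat_lit 1) (nat_lit 14))
    (@En.n l17 (nat_lit 5451) (nat_lit 9) (nat_lit 2))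
    (@En.n l16066 (nat_lit 50) (nat_lit 3) (nat_lit 8))
    (@En.n l13376 (nat_lit 934) (nat_lit 12) (nat_lit 14))
    (@En.n l11512 (nat_lit 1210) (nat_lit 5) (nat_lit 7))
    (@En.i (nat_lit 5445) (nat_lit 6) (nat_lit 3))
    (@En.n l452 (nat_lit 1638) (nat_lit 0) (nat_lit 7))
    (@En.n l28 (nat_lit 5451) (nat_lit 15) (nat_lit 2))))
  (@Cl.mk (nat_lit 0x2000d00090006000300090007000d000d0007000300030007000a000e0009) (nat_lit 0x960060030000342) (nat_lit 16) Lb.e (@T16.mk En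
    (@En.n l27125 (nat_lit 6012) (nat_lit 11) (nat_lit 9))
    (@En.i (nat_lit 5447) (nat_lit 1) (nat_lit 14))
    (@En.n l1792 (nat_lit 4477) (nat_lit 8) (nat_lit 10))
    (@En.n l39797 (nat_lit 12075) (nat_lit 3) (nat_lit 7))
    (@En.n l27209 (nat_lit 5454) (nat_lit 13) (nat_lit 3))
    (@En.n l28 (nat_lit 6005) (nat_lit 0) (nat_lit 3))
    (@En.n l473 (nat_lit 5744) (nat_lit 0) (nat_lit 7))
    (@En.n l77 (nat_lit 6005) (nat_lit 3) (nat_lit 13))
    (@En.i (nat_lit 8354) (nat_lit 9) (nat_lit 13))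
    (@En.n l10970 (nat_lit 6226) (nat_lit 3) (nat_lit 7))
    (@En.n l39839 (nat_lit 6003) (nat_lit 11) (nat_lit 9))
    (@En.n l152 (nat_lit 5453) (nat_lit 11) (nat_lit 3))
    (@En.n l1792 (nat_lit 5841) (nat_lit 0) (nat_lit 6))
    (@En.n l97 (nat_lit 12283) (nat_lit 14) (nat_lit 9))
    (@En.n l35371 (nat_lit 5556) (nat_lit 9) (nat_lit 13))
    (@En.n l17 (nat_lit 5452) (nat_lit 15) (nat_lit 2))))
  (@Cl.mk (nat_lit 0x2000d0005000a000300090007000d000d0006000300030007000b000e0009) (nat_lit 0x907060ab0000832) (nat_lit 16) Lb.e (@T16.mk En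
    (@En.n l32408 (nat_lit 6014) (nat_lit 11) (nat_lit 9))
    (@En.i (nat_lit 5445) (nat_lit 4) (nat_lit 14))
    (@En.n l245 (nat_lit 4489) (nat_lit 2) (nat_lit 11))
    (@En.n l39797 (nat_lit 12483) (nat_lit 3) (nat_lit 7))
    (@En.n l15290 (nat_lit 5455) (nat_lit 13) (nat_lit 3))
    (@En.n l28 (nat_lit 6006) (nat_lit 0) (nat_lit 3))
    (@En.i (nat_lit 5742) (nat_lit 0) (nat_lit 6))
    (@En.n l77 (nat_lit 6006) (nat_lit 3) (nat_lit 13))
    (@En.i (nat_lit 8355) (nat_lit 9) (nat_lit 13))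
    (@En.n l2579 (nat_lit 6085) (nat_lit 3) (nat_lit 7))
    (@En.n l11658 (nat_lit 2816) (nat_lit 11) (nat_lit 9))
    (@En.n l117 (nat_lit 5452) (nat_lit 11) (nat_lit 3))
    (@En.n l781 (nat_lit 11642) (nat_lit 0) (nat_lit 10))
    (@En.n l21905 (nat_lit 6003) (nat_lit 14) (nat_lit 5))
    (@En.n l2125 (nat_lit 5535) (nat_lit 9) (nat_lit 13))
    (@En.n l17 (nat_lit 5453) (nat_lit 15) (nat_lit 2))))
  (@Cl.mk (nat_lit 0x2000800030007000a000e00090002000d00080006000300090007000e000d) (nat_lit 0x360080005011) (nat_lit 16) Lb.e (@T16.mk En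
    (@En.n l25399 (nat_lit 5452) (nat_lit 8) (nat_lit 13))
    (@En.n l3859 (nat_lit 821) (nat_lit 1) (nat_lit 14))
    (@En.n l2520 (nat_lit 6084) (nat_lit 2) (nat_lit 7))
    (@En.n l13711 (nat_lit 6002) (nat_lit 11) (nat_lit 9))
    (@En.n l13712 (nat_lit 5455) (nat_lit 4) (nat_lit 3))
    (@En.i (nat_lit 5845) (nat_lit 0) (nat_lit 6))
    (@En.n l15048 (nat_lit 9227) (nat_lit 14) (nat_lit 8))
    (@En.n l24877 (nat_lit 5558) (nat_lit 8) (nat_lit 13))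
    (@En.n l3 (nat_lit 5454) (nat_lit 8) (nat_lit 2))
    (@En.n l25400 (nat_lit 6096) (nat_lit 10) (nat_lit 9))
    (@En.n l25401 (nat_lit 5446) (nat_lit 11) (nat_lit 14))
    (@En.n l2520 (nat_lit 4478) (nat_lit 8) (nat_lit 10))
    (@En.i (nat_lit 1826) (nat_lit 13) (nat_lit 7))
    (@En.n l25402 (nat_lit 5452) (nat_lit 4) (nat_lit 3))
    (@En.n l3324 (nat_lit 6940) (nat_lit 0) (nat_lit 8))
    (@En.n l28 (nat_lit 5454) (nat_lit 15) (nat_lit 2))))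
  (@Cl.mk (nat_lit 0x2000700030007000b000e00090002000d00050009000300090007000e000d) (nat_lit 0x86208000600b) (nat_lit 16) Lb.e (@T16.mk En
    (@En.n l25376 (nat_lit 5453) (nat_lit 8) (nat_lit 13))
    (@En.n l12294 (nat_lit 5456) (nat_lit 1) (nat_lit 14))
    (@En.n l23881 (nat_lit 6083) (nat_lit 2) (nat_lit 7))
    (@En.i (nat_lit 2820) (nat_lit 11) (nat_lit 9))
    (@En.n l18651 (nat_lit 5454) (nat_lit 4) (nat_lit 3))
    (@En.n l3334 (nat_lit 11635) (nat_lit 5) (nat_lit 9))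
    (@En.n l17 (nat_lit 6002) (nat_lit 14) (nat_lit 5))
    (@En.n l2642 (nat_lit 5568) (nat_lit 8) (nat_lit 13))
    (@En.n l3 (nat_lit 5455) (nat_lit 8) (nat_lit 2))
    (@En.n l6551 (nat_lit 6086) (nat_lit 10) (nat_lit 9))
    (@En.n l25377 (nat_lit 5451) (nat_lit 11) (nat_lit 14))
    (@En.n l24688 (nat_lit 5582) (nat_lit 12) (nat_lit 11))
    (@En.i (nat_lit 1825) (nat_lit 13) (nat_lit 7))
    (@En.n l25377 (nat_lit 5453) (nat_lit 4) (nat_lit 3))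
    (@En.n l16615 (nat_lit 6943) (nat_lit 0) (nat_lit 7))
    (@En.n l28 (nat_lit 5455) (nat_lit 15) (nat_lit 2))))
noncomputable def a341 : T16 Cl := @T16.mk Cl
  (@Cl.mk (nat_lit 0x2000a000700040007000b000e00060002000d0005000900030009000e000c) (nat_lit 0x5000870080305c1) (nat_lit 16) Lb.e (@T16.mk En
    (@En.n l24903 (nat_lit 820) (nat_lit 9) (nat_lit 12))
    (@En.n l24904 (nat_lit 6293) (nat_lit 1) (nat_lit 14))
    (@En.n l4807 (nat_lit 3203) (nat_lit 11) (nat_lit 9))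
    (@En.n l18 (nat_lit 821) (nat_lit 3) (nat_lit 3))
    (@En.n l4808 (nat_lit 1627) (nat_lit 0) (nat_lit 9))
    (@En.n l4809 (nat_lit 5457) (nat_lit 14) (nat_lit 5))
    (@En.n l4810 (nat_lit 5462) (nat_lit 7) (nat_lit 13))
    (@En.n l7 (nat_lit 5456) (nat_lit 7) (nat_lit 2))
    (@En.n l9962 (nat_lit 5187) (nat_lit 8) (nat_lit 6))
    (@En.n l24904 (nat_lit 814) (nat_lit 4) (nat_lit 14))
    (@En.n l16041 (nat_lit 7686) (nat_lit 11) (nat_lit 11))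
    (@En.i (nat_lit 13322) (nat_lit 11) (nat_lit 7))
    (@En.n l24904 (nat_lit 8355) (nat_lit 4) (nat_lit 4))
    (@En.n l4806 (nat_lit 800) (nat_lit 14) (nat_lit 7))
    (@En.n l22022 (nat_lit 6212) (nat_lit 1) (nat_lit 10))
    (@En.n l107 (nat_lit 5456) (nat_lit 15) (nat_lit 2))))
  (@Cl.mk (nat_lit 0x20005000900060009000e000c00020009000700040007000b000a000e0007) (nat_lit 0x10400040008180) (nat_lit 16) Lb.e (@T16.mk En
    (@En.n l36063 (nat_lit 5459) (nat_lit 7) (nat_lit 7))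
    (@En.n l12294 (nat_lit 5456) (nat_lit 9) (nat_lit 14))
    (@En.n l12295 (nat_lit 821) (nat_lit 10) (nat_lit 10))
    (@En.n l24693 (nat_lit 7687) (nat_lit 3) (nat_lit 11))
    (@En.i (nat_lit 13323) (nat_lit 11) (nat_lit 7))
    (@En.n l36064 (nat_lit 8356) (nat_lit 5) (nat_lit 4))
    (@En.n l15197 (nat_lit 804) (nat_lit 6) (nat_lit 7))
    (@En.i (nat_lit 6154) (nat_lit 8) (nat_lit 9))
    (@En.n l28 (nat_lit 5457) (nat_lit 8) (nat_lit 2))
    (@En.n l5231 (nat_lit 5458) (nat_lit 10) (nat_lit 12))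
    (@En.n l36064 (nat_lit 6294) (nat_lit 11) (nat_lit 14))
    (@En.i (nat_lit 3204) (nat_lit 12) (nat_lit 9))
    (@En.n l3178 (nat_lit 6044) (nat_lit 13) (nat_lit 6))
    (@En.n l3336 (nat_lit 957) (nat_lit 4) (nat_lit 9))
    (@En.n l3340 (nat_lit 7627) (nat_lit 13) (nat_lit 5))
    (@En.n l3 (nat_lit 5457) (nat_lit 15) (nat_lit 2))))
  (@Cl.mk (nat_lit 0x20005000a00060009000c000c00080006000400040007000b000a000e0008) (nat_lit 0x104a3300004146) (nat_lit 16) Lb.e (@T16.mk En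
    (@En.n l19999 (nat_lit 5460) (nat_lit 1) (nat_lit 8))
    (@En.n l31511 (nat_lit 820) (nat_lit 1) (nat_lit 14))
    (@En.n l5144 (nat_lit 819) (nat_lit 2) (nat_lit 10))
    (@En.n l4758 (nat_lit 7692) (nat_lit 3) (nat_lit 11))
    (@En.n l12441 (nat_lit 5457) (nat_lit 4) (nat_lit 7))
    (@En.n l5452 (nat_lit 5457) (nat_lit 5) (nat_lit 4))
    (@En.n l31512 (nat_lit 8237) (nat_lit 6) (nat_lit 4))
    (@En.i (nat_lit 785) (nat_lit 7) (nat_lit 6))
    (@En.n l5912 (nat_lit 6153) (nat_lit 9) (nat_lit 8))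
    (@En.n l61 (nat_lit 8230) (nat_lit 10) (nat_lit 12))
    (@En.n l1643 (nat_lit 6285) (nat_lit 11) (nat_lit 12))
    (@En.n l12913 (nat_lit 3202) (nat_lit 12) (nat_lit 9))
    (@En.n l11235 (nat_lit 6025) (nat_lit 13) (nat_lit 6))
    (@En.n l12639 (nat_lit 958) (nat_lit 14) (nat_lit 10))
    (@En.i (nat_lit 7626) (nat_lit 13) (nat_lit 5))
    (@En.n l28 (nat_lit 5458) (nat_lit 15) (nat_lit 2))))
  (@Cl.mk (nat_lit 0x200090009000800050008000c000b000700070004000800050008000e000b) (nat_lit 0x55200a500010230) (nat_lit 16) Lb.e (@T16.mk En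
    (@En.n l20245 (nat_lit 5460) (nat_lit 11) (nat_lit 11))
    (@En.n l20246 (nat_lit 7144) (nat_lit 1) (nat_lit 14))
    (@En.n l20247 (nat_lit 3205) (nat_lit 10) (nat_lit 8))
    (@En.n l20248 (nat_lit 5769) (nat_lit 3) (nat_lit 5))
    (@En.n l20249 (nat_lit 956) (nat_lit 4) (nat_lit 8))
    (@En.n l20250 (nat_lit 5470) (nat_lit 5) (nat_lit 4))
    (@En.n l20251 (nat_lit 7832) (nat_lit 9) (nat_lit 7))
    (@En.n l8558 (nat_lit 5176) (nat_lit 7) (nat_lit 7))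
    (@En.n l17 (nat_lit 5461) (nat_lit 9) (nat_lit 11))
    (@En.i (nat_lit 9180) (nat_lit 10) (nat_lit 12))
    (@En.n l4430 (nat_lit 13317) (nat_lit 10) (nat_lit 8))
    (@En.n l19750 (nat_lit 8365) (nat_lit 12) (nat_lit 5))
    (@En.n l20252 (nat_lit 5462) (nat_lit 13) (nat_lit 8))
    (@En.n l20253 (nat_lit 5457) (nat_lit 7) (nat_lit 9))
    (@En.n l8558 (nat_lit 10393) (nat_lit 2) (nat_lit 9))
    (@En.n l107 (nat_lit 5459) (nat_lit 15) (nat_lit 2))))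
  (@Cl.mk (nat_lit 0x4000900050008000b000b000800080007000500050008000c000b00080008) (nat_lit 0x10290440001a752) (nat_lit 16) Lb.e (@T16.mk En
    (@En.n l36082 (nat_lit 7823) (nat_lit 8) (nat_lit 8))
    (@En.n l36083 (nat_lit 1310) (nat_lit 1) (nat_lit 8))
    (@En.n l36084 (nat_lit 5189) (nat_lit 5) (nat_lit 11))
    (@En.n l36085 (nat_lit 9124) (nat_lit 7) (nat_lit 12))
    (@En.n l36086 (nat_lit 5459) (nat_lit 10) (nat_lit 8))
    (@En.n l36087 (nat_lit 5459) (nat_lit 11) (nat_lit 5))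
    (@En.n l35826 (nat_lit 8480) (nat_lit 0) (nat_lit 5))
    (@En.i (nat_lit 5463) (nat_lit 9) (nat_lit 7))
    (@En.n l2491 (nat_lit 5458) (nat_lit 8) (nat_lit 8))
    (@En.n l36088 (nat_lit 10390) (nat_lit 2) (nat_lit 8))
    (@En.n l61 (nat_lit 7822) (nat_lit 5) (nat_lit 11))
    (@En.n l1643 (nat_lit 6381) (nat_lit 7) (nat_lit 11))
    (@En.n l798 (nat_lit 3197) (nat_lit 10) (nat_lit 8))
    (@En.n l36089 (nat_lit 5773) (nat_lit 6) (nat_lit 5))
    (@En.n l25842 (nat_lit 955) (nat_lit 0) (nat_lit 9))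
    (@En.n l36090 (nat_lit 1311) (nat_lit 1) (nat_lit 4))))
  (@Cl.mk (nat_lit 0x2000a000a000900050008000b00060006000d0007000500030008000e000b) (nat_lit 0x612064006000341) (nat_lit 16) Lb.e (@T16.mk En
    (@En.i (nat_lit 5189) (nat_lit 13) (nat_lit 11))
    (@En.n l97 (nat_lit 6361) (nat_lit 1) (nat_lit 14))
    (@En.i (nat_lit 5459) (nat_lit 2) (nat_lit 8))
    (@En.n l4212 (nat_lit 5187) (nat_lit 3) (nat_lit 3))
    (@En.n l21754 (nat_lit 5777) (nat_lit 0) (nat_lit 5))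
    (@En.n l7 (nat_lit 951) (nat_lit 5) (nat_lit 7))
    (@En.n l564 (nat_lit 5180) (nat_lit 7) (nat_lit 13))
    (@En.n l237 (nat_lit 7831) (nat_lit 10) (nat_lit 6))
    (@En.i (nat_lit 3346) (nat_lit 8) (nat_lit 6))
    (@En.n l6031 (nat_lit 8285) (nat_lit 10) (nat_lit 11))
    (@En.i (nat_lit 13316) (nat_lit 10) (nat_lit 8))
    (@En.i (nat_lit 8361) (nat_lit 7) (nat_lit 5))
    (@En.n l4380 (nat_lit 5466) (nat_lit 13) (nat_lit 9))
    (@En.n l134 (nat_lit 821) (nat_lit 14) (nat_lit 10))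
    (@En.n l11 (nat_lit 10392) (nat_lit 11) (nat_lit 10))
    (@En.n l107 (nat_lit 5461) (nat_lit 15) (nat_lit 2))))
  (@Cl.mk (nat_lit 0x2000a000800040007000c000a0006000d00040008000300060009000e000c) (nat_lit 0x510095070100640) (nat_lit 16) Lb.e (@T16.mk En
    (@En.n l36061 (nat_lit 5463) (nat_lit 12) (nat_lit 12))
    (@En.n l36062 (nat_lit 7525) (nat_lit 1) (nat_lit 14))
    (@En.i (nat_lit 7759) (nat_lit 9) (nat_lit 9))
    (@En.n l12281 (nat_lit 5457) (nat_lit 12) (nat_lit 6))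
    (@En.n l12282 (nat_lit 5464) (nat_lit 4) (nat_lit 3))
    (@En.n l18 (nat_lit 423) (nat_lit 0) (nat_lit 8))
    (@En.n l12283 (nat_lit 904) (nat_lit 6) (nat_lit 4))
    (@En.n l14022 (nat_lit 5484) (nat_lit 8) (nat_lit 13))
    (@En.n l36062 (nat_lit 5178) (nat_lit 8) (nat_lit 6))
    (@En.n l12286 (nat_lit 5466) (nat_lit 10) (nat_lit 10))
    (@En.n l26632 (nat_lit 9182) (nat_lit 11) (nat_lit 12))
    (@En.i (nat_lit 14038) (nat_lit 11) (nat_lit 7))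
    (@En.n l9060 (nat_lit 8243) (nat_lit 7) (nat_lit 4))
    (@En.i (nat_lit 784) (nat_lit 14) (nat_lit 8))
    (@En.n l11911 (nat_lit 10383) (nat_lit 1) (nat_lit 10))
    (@En.n l107 (nat_lit 5462) (nat_lit 15) (nat_lit 2))))
  (@Cl.mk (nat_lit 0x300060009000c000c00090007000400040007000c000a0007000d00040009) (nat_lit 0x6a040000960b01) (nat_lit 16) Lb.e (@T16.mk En
    (@En.n l892 (nat_lit 427) (nat_lit 0) (nat_lit 9))
    (@En.n l28262 (nat_lit 903) (nat_lit 8) (nat_lit 4))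
    (@En.n l7 (nat_lit 5477) (nat_lit 0) (nat_lit 13))
    (@En.n l7917 (nat_lit 5177) (nat_lit 1) (nat_lit 7))
    (@En.n l26098 (nat_lit 5467) (nat_lit 4) (nat_lit 10))
    (@En.n l28263 (nat_lit 9059) (nat_lit 13) (nat_lit 12))
    (@En.n l28264 (nat_lit 5462) (nat_lit 11) (nat_lit 7))
    (@En.n l28265 (nat_lit 5462) (nat_lit 12) (nat_lit 4))
    (@En.n l12286 (nat_lit 8242) (nat_lit 8) (nat_lit 4))
    (@En.n l28266 (nat_lit 737) (nat_lit 0) (nat_lit 7))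
    (@En.n l28267 (nat_lit 10388) (nat_lit 11) (nat_lit 9))
    (@En.n l61 (nat_lit 7607) (nat_lit 4) (nat_lit 12))
    (@En.n l1643 (nat_lit 6394) (nat_lit 6) (nat_lit 12))
    (@En.n l798 (nat_lit 7758) (nat_lit 9) (nat_lit 9))
    (@En.n l8434 (nat_lit 5458) (nat_lit 12) (nat_lit 6))
    (@En.n l27183 (nat_lit 5465) (nat_lit 15) (nat_lit 3))))
  (@Cl.mk (nat_lit 0x2000a000900040007000b000a0006000d00070005000300060009000e000c) (nat_lit 0x5100950b0000450) (nat_lit 16) Lb.e (@T16.mk En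
    (@En.i (nat_lit 5465) (nat_lit 12) (nat_lit 12))
    (@En.n l33623 (nat_lit 7524) (nat_lit 1) (nat_lit 14))
    (@En.n l4803 (nat_lit 7764) (nat_lit 9) (nat_lit 9))
    (@En.n l25509 (nat_lit 5757) (nat_lit 12) (nat_lit 6))
    (@En.n l4803 (nat_lit 5462) (nat_lit 4) (nat_lit 3))
    (@En.n l2378 (nat_lit 7504) (nat_lit 0) (nat_lit 5))
    (@En.n l28 (nat_lit 5459) (nat_lit 6) (nat_lit 7))
    (@En.n l25510 (nat_lit 5485) (nat_lit 8) (nat_lit 13))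
    (@En.n l28 (nat_lit 5180) (nat_lit 8) (nat_lit 6))
    (@En.n l17 (nat_lit 5469) (nat_lit 10) (nat_lit 10))
    (@En.i (nat_lit 9188) (nat_lit 11) (nat_lit 11))
    (@En.i (nat_lit 14039) (nat_lit 11) (nat_lit 7))
    (@En.n l170 (nat_lit 7622) (nat_lit 7) (nat_lit 4))
    (@En.n l77 (nat_lit 731) (nat_lit 14) (nat_lit 9))
    (@En.n l18864 (nat_lit 10380) (nat_lit 1) (nat_lit 10))
    (@En.n l107 (nat_lit 5464) (nat_lit 15) (nat_lit 2))))
  (@Cl.mk (nat_lit 0x300060009000c000c00090008000400040007000b000a0007000d00080005) (nat_lit 0x4a041000960b30) (nat_lit 16) Lb.e (@T16.mk En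
    (@En.n l2378 (nat_lit 7505) (nat_lit 0) (nat_lit 5))
    (@En.n l31955 (nat_lit 5460) (nat_lit 0) (nat_lit 8))
    (@En.n l22930 (nat_lit 5486) (nat_lit 2) (nat_lit 13))
    (@En.n l31956 (nat_lit 5181) (nat_lit 3) (nat_lit 7))
    (@En.n l17 (nat_lit 5468) (nat_lit 4) (nat_lit 10))
    (@En.i (nat_lit 9192) (nat_lit 8) (nat_lit 11))
    (@En.n l3 (nat_lit 5464) (nat_lit 11) (nat_lit 7))
    (@En.n l527 (nat_lit 5464) (nat_lit 12) (nat_lit 4))
    (@En.n l13079 (nat_lit 7623) (nat_lit 8) (nat_lit 4))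
    (@En.n l31957 (nat_lit 729) (nat_lit 0) (nat_lit 8))
    (@En.n l180 (nat_lit 10386) (nat_lit 11) (nat_lit 9))
    (@En.n l31958 (nat_lit 7604) (nat_lit 4) (nat_lit 12))
    (@En.n l31959 (nat_lit 6249) (nat_lit 6) (nat_lit 12))
    (@En.n l31960 (nat_lit 7763) (nat_lit 9) (nat_lit 9))
    (@En.n l31961 (nat_lit 933) (nat_lit 12) (nat_lit 6))
    (@En.n l16397 (nat_lit 5463) (nat_lit 15) (nat_lit 3))))
  (@Cl.mk (nat_lit 0x2000b000900040007000a0005000d000c00070003000600040009000e000c) (nat_lit 0x710040b50000790) (nat_lit 16) Lb.e (@T16.mk En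
    (@En.i (nat_lit 5467) (nat_lit 11) (nat_lit 12))
    (@En.n l13296 (nat_lit 6359) (nat_lit 1) (nat_lit 14))
    (@En.n l4803 (nat_lit 5462) (nat_lit 2) (nat_lit 9))
    (@En.n l3939 (nat_lit 7640) (nat_lit 3) (nat_lit 4))
    (@En.n l612 (nat_lit 821) (nat_lit 4) (nat_lit 6))
    (@En.n l50 (nat_lit 5469) (nat_lit 5) (nat_lit 3))
    (@En.n l28 (nat_lit 948) (nat_lit 0) (nat_lit 7))
    (@En.n l217 (nat_lit 7612) (nat_lit 8) (nat_lit 12))
    (@En.n l3939 (nat_lit 5490) (nat_lit 9) (nat_lit 13))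
    (@En.n l28 (nat_lit 3349) (nat_lit 9) (nat_lit 5))
    (@En.n l781 (nat_lit 8293) (nat_lit 11) (nat_lit 10))
    (@En.i (nat_lit 13978) (nat_lit 11) (nat_lit 7))
    (@En.n l13296 (nat_lit 7619) (nat_lit 6) (nat_lit 4))
    (@En.i (nat_lit 807) (nat_lit 14) (nat_lit 9))
    (@En.i (nat_lit 10382) (nat_lit 1) (nat_lit 11))
    (@En.n l107 (nat_lit 5466) (nat_lit 15) (nat_lit 2))))
  (@Cl.mk (nat_lit 0x3000600040009000c000c000a0008000400040007000a0006000d000c0008) (nat_lit 0x7a25100050b61) (nat_lit 16) Lb.e (@T16.mk En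
    (@En.n l14530 (nat_lit 949) (nat_lit 0) (nat_lit 8))
    (@En.n l217 (nat_lit 7602) (nat_lit 4) (nat_lit 12))
    (@En.n l16394 (nat_lit 5489) (nat_lit 2) (nat_lit 13))
    (@En.n l16395 (nat_lit 3311) (nat_lit 3) (nat_lit 6))
    (@En.n l781 (nat_lit 8509) (nat_lit 8) (nat_lit 10))
    (@En.n l3 (nat_lit 5466) (nat_lit 11) (nat_lit 7))
    (@En.n l527 (nat_lit 5466) (nat_lit 12) (nat_lit 4))
    (@En.n l13724 (nat_lit 7620) (nat_lit 7) (nat_lit 4))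
    (@En.n l16396 (nat_lit 736) (nat_lit 0) (nat_lit 8))
    (@En.n l180 (nat_lit 10384) (nat_lit 10) (nat_lit 10))
    (@En.n l14532 (nat_lit 7605) (nat_lit 4) (nat_lit 12))
    (@En.n l13724 (nat_lit 6247) (nat_lit 6) (nat_lit 12))
    (@En.n l16397 (nat_lit 5463) (nat_lit 13) (nat_lit 9))
    (@En.n l16398 (nat_lit 7608) (nat_lit 5) (nat_lit 4))
    (@En.n l16399 (nat_lit 819) (nat_lit 12) (nat_lit 6))
    (@En.n l50 (nat_lit 5468) (nat_lit 15) (nat_lit 3))))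
  (@Cl.mk (nat_lit 0x3000600030009000c000c000a0009000400040007000a0006000d0007000d) (nat_lit 0x5006100050b03) (nat_lit 16) Lb.e (@T16.mk En
    (@En.n l13079 (nat_lit 3215) (nat_lit 0) (nat_lit 13))
    (@En.n l28 (nat_lit 5189) (nat_lit 3) (nat_lit 7))
    (@En.n l11835 (nat_lit 5488) (nat_lit 2) (nat_lit 13))
    (@En.n l28 (nat_lit 3308) (nat_lit 5) (nat_lit 6))
    (@En.n l781 (nat_lit 8510) (nat_lit 8) (nat_lit 10))
    (@En.n l3 (nat_lit 5469) (nat_lit 11) (nat_lit 7))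
    (@En.n l527 (nat_lit 5469) (nat_lit 12) (nat_lit 4))
    (@En.n l13079 (nat_lit 7617) (nat_lit 7) (nat_lit 4))
    (@En.n l11780 (nat_lit 645) (nat_lit 0) (nat_lit 9))
    (@En.n l180 (nat_lit 10385) (nat_lit 10) (nat_lit 10))
    (@En.n l14532 (nat_lit 7603) (nat_lit 4) (nat_lit 12))
    (@En.n l1142 (nat_lit 6246) (nat_lit 6) (nat_lit 12))
    (@En.i (nat_lit 5465) (nat_lit 13) (nat_lit 9))
    (@En.i (nat_lit 7602) (nat_lit 15) (nat_lit 3))
    (@En.n l513 (nat_lit 5753) (nat_lit 12) (nat_lit 6))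
    (@En.i (nat_lit 5467) (nat_lit 15) (nat_lit 3))))
  (@Cl.mk (nat_lit 0x2000b000a00040007000a0005000d0006000d0003000600030009000e000c) (nat_lit 0x510040a03000501) (nat_lit 16) Lb.e (@T16.mk En
    (@En.i (nat_lit 5468) (nat_lit 11) (nat_lit 12))
    (@En.n l97 (nat_lit 6360) (nat_lit 1) (nat_lit 14))
    (@En.i (nat_lit 5464) (nat_lit 2) (nat_lit 9))
    (@En.i (nat_lit 7612) (nat_lit 3) (nat_lit 3))
    (@En.n l387 (nat_lit 5755) (nat_lit 12) (nat_lit 6))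
    (@En.i (nat_lit 5466) (nat_lit 5) (nat_lit 3))
    (@En.n l170 (nat_lit 3214) (nat_lit 0) (nat_lit 13))
    (@En.n l28 (nat_lit 5461) (nat_lit 7) (nat_lit 6))
    (@En.n l11835 (nat_lit 5487) (nat_lit 9) (nat_lit 13))
    (@En.n l28 (nat_lit 3350) (nat_lit 9) (nat_lit 5))
    (@En.n l781 (nat_lit 8297) (nat_lit 11) (nat_lit 10))
    (@En.i (nat_lit 13976) (nat_lit 11) (nat_lit 7))
    (@En.n l170 (nat_lit 7616) (nat_lit 6) (nat_lit 4))
    (@En.n l77 (nat_lit 735) (nat_lit 14) (nat_lit 10))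
    (@En.i (nat_lit 10381) (nat_lit 1) (nat_lit 11))
    (@En.n l107 (nat_lit 5469) (nat_lit 15) (nat_lit 2))))
  (@Cl.mk (nat_lit 0x20008000b000800050008000c0005000c00080004000800040008000e000b) (nat_lit 0x495069015010231) (nat_lit 16) Lb.e (@T16.mk En
    (@En.i (nat_lit 1311) (nat_lit 13) (nat_lit 11))
    (@En.n l31332 (nat_lit 7520) (nat_lit 1) (nat_lit 14))
    (@En.n l4425 (nat_lit 3123) (nat_lit 2) (nat_lit 8))
    (@En.i (nat_lit 5491) (nat_lit 3) (nat_lit 4))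
    (@En.n l31333 (nat_lit 1101) (nat_lit 4) (nat_lit 8))
    (@En.n l6685 (nat_lit 5187) (nat_lit 5) (nat_lit 4))
    (@En.i (nat_lit 1307) (nat_lit 6) (nat_lit 8))
    (@En.n l4426 (nat_lit 5179) (nat_lit 8) (nat_lit 12))
    (@En.n l12235 (nat_lit 5056) (nat_lit 8) (nat_lit 5))
    (@En.n l31334 (nat_lit 7820) (nat_lit 10) (nat_lit 12))
    (@En.i (nat_lit 13856) (nat_lit 10) (nat_lit 8))
    (@En.n l31332 (nat_lit 10088) (nat_lit 12) (nat_lit 5))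
    (@En.n l2642 (nat_lit 904) (nat_lit 13) (nat_lit 8))
    (@En.n l31332 (nat_lit 7628) (nat_lit 7) (nat_lit 11))
    (@En.n l2642 (nat_lit 9843) (nat_lit 2) (nat_lit 8))
    (@En.n l18 (nat_lit 5470) (nat_lit 15) (nat_lit 2))))
  (@Cl.mk (nat_lit 0x20008000c0007000c000a0004000a00040008000b000600090006000e0005) (nat_lit 0x170270202907080) (nat_lit 16) Lb.e (@T16.mk En
    (@En.n l14767 (nat_lit 1311) (nat_lit 8) (nat_lit 5))
    (@En.n l16952 (nat_lit 7392) (nat_lit 1) (nat_lit 14))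
    (@En.n l37494 (nat_lit 905) (nat_lit 2) (nat_lit 6))
    (@En.n l37495 (nat_lit 7609) (nat_lit 9) (nat_lit 9))
    (@En.n l16914 (nat_lit 9839) (nat_lit 4) (nat_lit 6))
    (@En.n l37496 (nat_lit 6331) (nat_lit 7) (nat_lit 11))
    (@En.n l37494 (nat_lit 3127) (nat_lit 6) (nat_lit 8))
    (@En.n l27285 (nat_lit 5495) (nat_lit 7) (nat_lit 4))
    (@En.n l12890 (nat_lit 919) (nat_lit 9) (nat_lit 10))
    (@En.n l37497 (nat_lit 5188) (nat_lit 9) (nat_lit 4))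
    (@En.n l37498 (nat_lit 1309) (nat_lit 11) (nat_lit 10))
    (@En.n l16952 (nat_lit 5184) (nat_lit 12) (nat_lit 12))
    (@En.i (nat_lit 5053) (nat_lit 13) (nat_lit 7))
    (@En.n l37499 (nat_lit 8587) (nat_lit 14) (nat_lit 12))
    (@En.n l37500 (nat_lit 1311) (nat_lit 6) (nat_lit 8))
    (@En.n l17 (nat_lit 5471) (nat_lit 15) (nat_lit 2))))
noncomputable def a342 : T16 Cl := @T16.mk Cl
  (@Cl.mk (nat_lit 0x30008000b00040008000b000b0005000a0008000500050008000d0006000c) (nat_lit 0x150300062000908) (nat_lit 16) Lb.e (@T16.mk En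
    (@En.n l7645 (nat_lit 7591) (nat_lit 0) (nat_lit 12))
    (@En.n l117 (nat_lit 7571) (nat_lit 4) (nat_lit 6))
    (@En.n l41214 (nat_lit 9055) (nat_lit 2) (nat_lit 13))
    (@En.n l50 (nat_lit 5479) (nat_lit 10) (nat_lit 8))
    (@En.n l217 (nat_lit 5479) (nat_lit 11) (nat_lit 5))
    (@En.n l24852 (nat_lit 10582) (nat_lit 5) (nat_lit 5))
    (@En.n l2642 (nat_lit 5480) (nat_lit 6) (nat_lit 8))
    (@En.n l41215 (nat_lit 7608) (nat_lit 1) (nat_lit 10))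
    (@En.i (nat_lit 11947) (nat_lit 8) (nat_lit 5))
    (@En.n l41216 (nat_lit 5478) (nat_lit 5) (nat_lit 11))
    (@En.n l41217 (nat_lit 6387) (nat_lit 7) (nat_lit 11))
    (@En.n l11861 (nat_lit 1846) (nat_lit 11) (nat_lit 8))
    (@En.i (nat_lit 1311) (nat_lit 15) (nat_lit 4))
    (@En.i (nat_lit 5367) (nat_lit 7) (nat_lit 11))
    (@En.n l1081 (nat_lit 371) (nat_lit 1) (nat_lit 8))
    (@En.n l41218 (nat_lit 5476) (nat_lit 15) (nat_lit 3))))
  (@Cl.mk (nat_lit 0x40008000b000b0006000a0009000500050008000b0006000c0007000a0005) (nat_lit 0x400062000605060) (nat_lit 16) Lb.e (@T16.mk En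
    (@En.n l502 (nat_lit 5189) (nat_lit 0) (nat_lit 5))
    (@En.i (nat_lit 5362) (nat_lit 8) (nat_lit 10))
    (@En.n l37802 (nat_lit 1494) (nat_lit 1) (nat_lit 7))
    (@En.n l37803 (nat_lit 7510) (nat_lit 2) (nat_lit 12))
    (@En.n l4427 (nat_lit 6922) (nat_lit 4) (nat_lit 6))
    (@En.n l24837 (nat_lit 8282) (nat_lit 7) (nat_lit 11))
    (@En.n l50 (nat_lit 5491) (nat_lit 10) (nat_lit 8))
    (@En.n l217 (nat_lit 5491) (nat_lit 11) (nat_lit 5))
    (@En.n l25858 (nat_lit 10580) (nat_lit 0) (nat_lit 5))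
    (@En.n l37804 (nat_lit 5489) (nat_lit 7) (nat_lit 9))
    (@En.n l4429 (nat_lit 5467) (nat_lit 9) (nat_lit 10))
    (@En.i (nat_lit 9848) (nat_lit 2) (nat_lit 6))
    (@En.n l37805 (nat_lit 5495) (nat_lit 5) (nat_lit 11))
    (@En.n l37806 (nat_lit 6251) (nat_lit 7) (nat_lit 11))
    (@En.n l37807 (nat_lit 5476) (nat_lit 11) (nat_lit 8))
    (@En.n l28 (nat_lit 5472) (nat_lit 12) (nat_lit 4))))
  (@Cl.mk (nat_lit 0x20008000d000b000800030009000c00050008000b000400080007000e0005) (nat_lit 0xa6101703004090) (nat_lit 16) Lb.e (@T16.mk En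
    (@En.i (nat_lit 5476) (nat_lit 5) (nat_lit 5))
    (@En.n l1998 (nat_lit 8101) (nat_lit 1) (nat_lit 14))
    (@En.n l28 (nat_lit 5483) (nat_lit 2) (nat_lit 7))
    (@En.n l77 (nat_lit 7607) (nat_lit 3) (nat_lit 8))
    (@En.i (nat_lit 11273) (nat_lit 4) (nat_lit 4))
    (@En.n l1643 (nat_lit 6234) (nat_lit 7) (nat_lit 11))
    (@En.n l1998 (nat_lit 1845) (nat_lit 6) (nat_lit 8))
    (@En.n l28 (nat_lit 7822) (nat_lit 7) (nat_lit 5))
    (@En.n l3039 (nat_lit 5369) (nat_lit 9) (nat_lit 12))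
    (@En.n l2903 (nat_lit 1500) (nat_lit 10) (nat_lit 9))
    (@En.n l27732 (nat_lit 5478) (nat_lit 10) (nat_lit 3))
    (@En.n l26378 (nat_lit 2017) (nat_lit 0) (nat_lit 8))
    (@En.n l38419 (nat_lit 5495) (nat_lit 13) (nat_lit 11))
    (@En.i (nat_lit 9061) (nat_lit 14) (nat_lit 13))
    (@En.n l617 (nat_lit 5476) (nat_lit 3) (nat_lit 8))
    (@En.n l17 (nat_lit 5474) (nat_lit 15) (nat_lit 2))))
  (@Cl.mk (nat_lit 0x20006000a000900050008000d000b000600030007000a00050008000e000b) (nat_lit 0x6205a400060340) (nat_lit 16) Lb.e (@T16.mk En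
    (@En.n l5993 (nat_lit 5476) (nat_lit 10) (nat_lit 11))
    (@En.n l601 (nat_lit 7147) (nat_lit 1) (nat_lit 14))
    (@En.n l1897 (nat_lit 2188) (nat_lit 2) (nat_lit 8))
    (@En.n l8551 (nat_lit 5459) (nat_lit 3) (nat_lit 5))
    (@En.n l3530 (nat_lit 5363) (nat_lit 8) (nat_lit 10))
    (@En.i (nat_lit 422) (nat_lit 5) (nat_lit 7))
    (@En.n l4659 (nat_lit 5479) (nat_lit 6) (nat_lit 3))
    (@En.n l4660 (nat_lit 2020) (nat_lit 7) (nat_lit 6))
    (@En.n l1767 (nat_lit 5491) (nat_lit 9) (nat_lit 11))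
    (@En.n l13889 (nat_lit 9183) (nat_lit 10) (nat_lit 13))
    (@En.i (nat_lit 14035) (nat_lit 10) (nat_lit 8))
    (@En.n l3530 (nat_lit 10583) (nat_lit 12) (nat_lit 5))
    (@En.n l637 (nat_lit 5484) (nat_lit 13) (nat_lit 9))
    (@En.n l4663 (nat_lit 5462) (nat_lit 14) (nat_lit 10))
    (@En.i (nat_lit 11946) (nat_lit 7) (nat_lit 6))
    (@En.n l50 (nat_lit 5475) (nat_lit 15) (nat_lit 2))))
  (@Cl.mk (nat_lit 0x30008000b00050008000b000b000500090008000500050008000d000b0007) (nat_lit 0x170391052006a70) (nat_lit 16) Lb.e (@T16.mk En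
    (@En.n l1643 (nat_lit 2018) (nat_lit 0) (nat_lit 7))
    (@En.n l26099 (nat_lit 5473) (nat_lit 5) (nat_lit 11))
    (@En.i (nat_lit 9056) (nat_lit 2) (nat_lit 13))
    (@En.n l2064 (nat_lit 5475) (nat_lit 10) (nat_lit 8))
    (@En.n l2065 (nat_lit 5475) (nat_lit 11) (nat_lit 5))
    (@En.n l18 (nat_lit 10581) (nat_lit 5) (nat_lit 5))
    (@En.n l28 (nat_lit 5477) (nat_lit 6) (nat_lit 8))
    (@En.n l77 (nat_lit 5463) (nat_lit 10) (nat_lit 9))
    (@En.n l2070 (nat_lit 11944) (nat_lit 8) (nat_lit 5))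
    (@En.n l61 (nat_lit 5474) (nat_lit 5) (nat_lit 11))
    (@En.n l1643 (nat_lit 6386) (nat_lit 7) (nat_lit 11))
    (@En.n l1998 (nat_lit 1848) (nat_lit 10) (nat_lit 8))
    (@En.n l28 (nat_lit 5460) (nat_lit 13) (nat_lit 5))
    (@En.n l39169 (nat_lit 5366) (nat_lit 7) (nat_lit 11))
    (@En.n l2070 (nat_lit 426) (nat_lit 1) (nat_lit 8))
    (@En.n l39170 (nat_lit 5472) (nat_lit 15) (nat_lit 3))))
  (@Cl.mk (nat_lit 0x300080003000b00060009000c000c00050008000400040007000d000a000d) (nat_lit 0x108040001000a5a) (nat_lit 16) Lb.e (@T16.mk En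
    (@En.n l1643 (nat_lit 5866) (nat_lit 0) (nat_lit 13))
    (@En.i (nat_lit 5489) (nat_lit 3) (nat_lit 10))
    (@En.i (nat_lit 9058) (nat_lit 2) (nat_lit 13))
    (@En.n l1295 (nat_lit 5484) (nat_lit 11) (nat_lit 7))
    (@En.n l2101 (nat_lit 5484) (nat_lit 12) (nat_lit 4))
    (@En.n l18 (nat_lit 8244) (nat_lit 0) (nat_lit 4))
    (@En.n l2869 (nat_lit 782) (nat_lit 10) (nat_lit 8))
    (@En.n l947 (nat_lit 10550) (nat_lit 1) (nat_lit 5))
    (@En.n l61 (nat_lit 5483) (nat_lit 4) (nat_lit 12))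
    (@En.n l1643 (nat_lit 6395) (nat_lit 6) (nat_lit 12))
    (@En.i (nat_lit 1855) (nat_lit 9) (nat_lit 9))
    (@En.i (nat_lit 5463) (nat_lit 14) (nat_lit 6))
    (@En.i (nat_lit 5476) (nat_lit 13) (nat_lit 11))
    (@En.n l615 (nat_lit 5486) (nat_lit 15) (nat_lit 3))
    (@En.n l2869 (nat_lit 424) (nat_lit 0) (nat_lit 8))
    (@En.n l9790 (nat_lit 5480) (nat_lit 15) (nat_lit 3))))
  (@Cl.mk (nat_lit 0x20008000d0007000c00030009000c00040008000b000400090007000e0005) (nat_lit 0x190001803905000) (nat_lit 16) Lb.e (@T16.mk En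
    (@En.n l37570 (nat_lit 5472) (nat_lit 5) (nat_lit 5))
    (@En.n l253 (nat_lit 8099) (nat_lit 1) (nat_lit 14))
    (@En.i (nat_lit 5481) (nat_lit 2) (nat_lit 7))
    (@En.n l766 (nat_lit 7606) (nat_lit 3) (nat_lit 9))
    (@En.i (nat_lit 9893) (nat_lit 4) (nat_lit 4))
    (@En.i (nat_lit 6324) (nat_lit 7) (nat_lit 11))
    (@En.n l10089 (nat_lit 1847) (nat_lit 6) (nat_lit 8))
    (@En.n l29164 (nat_lit 5471) (nat_lit 7) (nat_lit 4))
    (@En.n l13416 (nat_lit 5368) (nat_lit 9) (nat_lit 12))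
    (@En.n l152 (nat_lit 913) (nat_lit 10) (nat_lit 9))
    (@En.n l37286 (nat_lit 5474) (nat_lit 10) (nat_lit 3))
    (@En.n l513 (nat_lit 7596) (nat_lit 0) (nat_lit 12))
    (@En.n l37571 (nat_lit 7570) (nat_lit 13) (nat_lit 7))
    (@En.n l17017 (nat_lit 9062) (nat_lit 14) (nat_lit 13))
    (@En.n l37285 (nat_lit 5472) (nat_lit 3) (nat_lit 8))
    (@En.n l50 (nat_lit 5478) (nat_lit 15) (nat_lit 2))))
  (@Cl.mk (nat_lit 0x20006000b000900050008000d0005000c00030007000a00040008000e000b) (nat_lit 0x720690700603b1) (nat_lit 16) Lb.e (@T16.mk En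
    (@En.i (nat_lit 5472) (nat_lit 10) (nat_lit 11))
    (@En.n l396 (nat_lit 7148) (nat_lit 1) (nat_lit 14))
    (@En.n l11861 (nat_lit 1851) (nat_lit 2) (nat_lit 8))
    (@En.i (nat_lit 5470) (nat_lit 3) (nat_lit 4))
    (@En.i (nat_lit 5364) (nat_lit 8) (nat_lit 10))
    (@En.n l1081 (nat_lit 370) (nat_lit 5) (nat_lit 7))
    (@En.n l1080 (nat_lit 5475) (nat_lit 6) (nat_lit 3))
    (@En.n l7645 (nat_lit 7590) (nat_lit 0) (nat_lit 12))
    (@En.n l117 (nat_lit 7572) (nat_lit 8) (nat_lit 5))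
    (@En.n l1329 (nat_lit 9185) (nat_lit 10) (nat_lit 13))
    (@En.i (nat_lit 14034) (nat_lit 10) (nat_lit 8))
    (@En.i (nat_lit 10584) (nat_lit 12) (nat_lit 5))
    (@En.n l2642 (nat_lit 5482) (nat_lit 13) (nat_lit 9))
    (@En.n l1003 (nat_lit 7640) (nat_lit 14) (nat_lit 11))
    (@En.i (nat_lit 11766) (nat_lit 7) (nat_lit 6))
    (@En.n l18 (nat_lit 5479) (nat_lit 15) (nat_lit 2))))
  (@Cl.mk (nat_lit 0x300080004000b00050009000c000c00050008000400040007000d000c000b) (nat_lit 0x106040001000b07) (nat_lit 16) Lb.e (@T16.mk En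
    (@En.n l619 (nat_lit 7589) (nat_lit 0) (nat_lit 11))
    (@En.n l28358 (nat_lit 5486) (nat_lit 4) (nat_lit 12))
    (@En.n l14431 (nat_lit 9057) (nat_lit 2) (nat_lit 13))
    (@En.n l7 (nat_lit 5482) (nat_lit 11) (nat_lit 7))
    (@En.n l644 (nat_lit 5482) (nat_lit 12) (nat_lit 4))
    (@En.n l5838 (nat_lit 8251) (nat_lit 0) (nat_lit 4))
    (@En.n l17942 (nat_lit 794) (nat_lit 10) (nat_lit 8))
    (@En.i (nat_lit 11763) (nat_lit 1) (nat_lit 5))
    (@En.n l5837 (nat_lit 5481) (nat_lit 4) (nat_lit 12))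
    (@En.n l5838 (nat_lit 6397) (nat_lit 6) (nat_lit 12))
    (@En.n l26027 (nat_lit 1852) (nat_lit 10) (nat_lit 9))
    (@En.n l14054 (nat_lit 903) (nat_lit 5) (nat_lit 5))
    (@En.n l899 (nat_lit 5472) (nat_lit 13) (nat_lit 11))
    (@En.n l5779 (nat_lit 5496) (nat_lit 7) (nat_lit 4))
    (@En.i (nat_lit 367) (nat_lit 0) (nat_lit 8))
    (@En.n l28359 (nat_lit 5477) (nat_lit 15) (nat_lit 3))))
  (@Cl.mk (nat_lit 0x20007000d000c000b000300090004000c00050009000c00040007000e0004) (nat_lit 0xb00010904a0010) (nat_lit 16) Lb.e (@T16.mk En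
    (@En.n l7910 (nat_lit 5480) (nat_lit 5) (nat_lit 4))
    (@En.i (nat_lit 4339) (nat_lit 1) (nat_lit 14))
    (@En.n l2009 (nat_lit 792) (nat_lit 11) (nat_lit 7))
    (@En.i (nat_lit 9892) (nat_lit 3) (nat_lit 4))
    (@En.i (nat_lit 6237) (nat_lit 6) (nat_lit 12))
    (@En.n l1897 (nat_lit 1853) (nat_lit 5) (nat_lit 9))
    (@En.n l26224 (nat_lit 905) (nat_lit 6) (nat_lit 5))
    (@En.n l476 (nat_lit 5478) (nat_lit 8) (nat_lit 12))
    (@En.n l387 (nat_lit 7600) (nat_lit 8) (nat_lit 4))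
    (@En.i (nat_lit 909) (nat_lit 10) (nat_lit 9))
    (@En.n l12587 (nat_lit 5483) (nat_lit 10) (nat_lit 3))
    (@En.n l619 (nat_lit 7594) (nat_lit 12) (nat_lit 11))
    (@En.n l1106 (nat_lit 5494) (nat_lit 13) (nat_lit 12))
    (@En.n l1738 (nat_lit 9063) (nat_lit 14) (nat_lit 13))
    (@En.n l2179 (nat_lit 5480) (nat_lit 3) (nat_lit 7))
    (@En.n l50 (nat_lit 5481) (nat_lit 15) (nat_lit 2))))
  (@Cl.mk (nat_lit 0x20006000900040007000d000c000b000300070004000a00050009000e000c) (nat_lit 0x100800000704c1) (nat_lit 16) Lb.e (@T16.mk En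
    (@En.i (nat_lit 5480) (nat_lit 9) (nat_lit 12))
    (@En.n l601 (nat_lit 7584) (nat_lit 1) (nat_lit 14))
    (@En.n l649 (nat_lit 2181) (nat_lit 2) (nat_lit 9))
    (@En.i (nat_lit 904) (nat_lit 3) (nat_lit 5))
    (@En.n l899 (nat_lit 5479) (nat_lit 4) (nat_lit 10))
    (@En.i (nat_lit 5497) (nat_lit 5) (nat_lit 4))
    (@En.i (nat_lit 366) (nat_lit 6) (nat_lit 7))
    (@En.n l1106 (nat_lit 5484) (nat_lit 7) (nat_lit 3))
    (@En.n l619 (nat_lit 7588) (nat_lit 0) (nat_lit 11))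
    (@En.n l3866 (nat_lit 5485) (nat_lit 10) (nat_lit 12))
    (@En.i (nat_lit 9186) (nat_lit 11) (nat_lit 13))
    (@En.i (nat_lit 14036) (nat_lit 11) (nat_lit 7))
    (@En.i (nat_lit 8250) (nat_lit 13) (nat_lit 4))
    (@En.n l226 (nat_lit 793) (nat_lit 9) (nat_lit 9))
    (@En.i (nat_lit 11761) (nat_lit 1) (nat_lit 6))
    (@En.n l50 (nat_lit 5482) (nat_lit 15) (nat_lit 2))))
  (@Cl.mk (nat_lit 0x20007000d000a000d000300090003000c00060009000c00040007000e0004) (nat_lit 0xa68020804a0010) (nat_lit 16) Lb.e (@T16.mk En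
    (@En.i (nat_lit 5477) (nat_lit 5) (nat_lit 4))
    (@En.n l1998 (nat_lit 4344) (nat_lit 1) (nat_lit 14))
    (@En.i (nat_lit 788) (nat_lit 2) (nat_lit 7))
    (@En.i (nat_lit 11271) (nat_lit 3) (nat_lit 4))
    (@En.n l1643 (nat_lit 6230) (nat_lit 6) (nat_lit 12))
    (@En.n l1998 (nat_lit 1854) (nat_lit 5) (nat_lit 9))
    (@En.i (nat_lit 7607) (nat_lit 6) (nat_lit 6))
    (@En.i (nat_lit 5474) (nat_lit 8) (nat_lit 12))
    (@En.n l615 (nat_lit 5494) (nat_lit 8) (nat_lit 3))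
    (@En.i (nat_lit 1664) (nat_lit 10) (nat_lit 9))
    (@En.n l12278 (nat_lit 5481) (nat_lit 10) (nat_lit 3))
    (@En.n l1643 (nat_lit 5864) (nat_lit 12) (nat_lit 13))
    (@En.i (nat_lit 5493) (nat_lit 13) (nat_lit 10))
    (@En.i (nat_lit 9060) (nat_lit 14) (nat_lit 13))
    (@En.n l617 (nat_lit 5477) (nat_lit 3) (nat_lit 7))
    (@En.n l17 (nat_lit 5483) (nat_lit 15) (nat_lit 2))))
  (@Cl.mk (nat_lit 0x20006000900040007000d000a000d000300070003000a00060009000e000c) (nat_lit 0x100946000704c1) (nat_lit 16) Lb.e (@T16.mk En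
    (@En.n l1012 (nat_lit 5477) (nat_lit 9) (nat_lit 12))
    (@En.n l1063 (nat_lit 7526) (nat_lit 1) (nat_lit 14))
    (@En.n l2031 (nat_lit 2182) (nat_lit 2) (nat_lit 9))
    (@En.n l14305 (nat_lit 5462) (nat_lit 3) (nat_lit 6))
    (@En.n l2037 (nat_lit 5475) (nat_lit 4) (nat_lit 10))
    (@En.n l2221 (nat_lit 5485) (nat_lit 5) (nat_lit 3))
    (@En.n l1643 (nat_lit 420) (nat_lit 6) (nat_lit 7))
    (@En.n l3596 (nat_lit 5482) (nat_lit 7) (nat_lit 3))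
    (@En.i (nat_lit 5868) (nat_lit 0) (nat_lit 13))
    (@En.n l5891 (nat_lit 5490) (nat_lit 10) (nat_lit 10))
    (@En.n l1823 (nat_lit 9184) (nat_lit 11) (nat_lit 13))
    (@En.n l2568 (nat_lit 14037) (nat_lit 11) (nat_lit 7))
    (@En.n l22480 (nat_lit 8245) (nat_lit 13) (nat_lit 4))
    (@En.n l1998 (nat_lit 787) (nat_lit 9) (nat_lit 9))
    (@En.i (nat_lit 10549) (nat_lit 1) (nat_lit 6))
    (@En.n l18 (nat_lit 5484) (nat_lit 15) (nat_lit 2))))
  (@Cl.mk (nat_lit 0x20006000a00040007000c000a000d000600040003000a00060009000e000c) (nat_lit 0x100a4a00070500) (nat_lit 16) Lb.e (@T16.mk En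
    (@En.n l14963 (nat_lit 5486) (nat_lit 11) (nat_lit 12))
    (@En.n l1578 (nat_lit 7527) (nat_lit 1) (nat_lit 14))
    (@En.n l2921 (nat_lit 2183) (nat_lit 2) (nat_lit 9))
    (@En.n l23501 (nat_lit 5464) (nat_lit 3) (nat_lit 6))
    (@En.n l6080 (nat_lit 7254) (nat_lit 4) (nat_lit 10))
    (@En.n l5331 (nat_lit 5484) (nat_lit 5) (nat_lit 3))
    (@En.n l18 (nat_lit 7502) (nat_lit 6) (nat_lit 4))
    (@En.n l6081 (nat_lit 5475) (nat_lit 7) (nat_lit 6))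
    (@En.i (nat_lit 5869) (nat_lit 9) (nat_lit 13))
    (@En.n l61 (nat_lit 5487) (nat_lit 10) (nat_lit 10))
    (@En.n l6392 (nat_lit 9187) (nat_lit 11) (nat_lit 12))
    (@En.i (nat_lit 14040) (nat_lit 11) (nat_lit 7))
    (@En.i (nat_lit 8253) (nat_lit 13) (nat_lit 4))
    (@En.n l25503 (nat_lit 728) (nat_lit 14) (nat_lit 10))
    (@En.i (nat_lit 10543) (nat_lit 1) (nat_lit 6))
    (@En.n l28 (nat_lit 5485) (nat_lit 15) (nat_lit 2))))
  (@Cl.mk (nat_lit 0x3000b00060009000c000c00050009000400040007000c000a000d00070004) (nat_lit 0x805a001000a5a00) (nat_lit 16) Lb.e (@T16.mk En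
    (@En.n l14037 (nat_lit 7503) (nat_lit 0) (nat_lit 4))
    (@En.n l2013 (nat_lit 5476) (nat_lit 0) (nat_lit 7))
    (@En.i (nat_lit 5865) (nat_lit 5) (nat_lit 13))
    (@En.n l14032 (nat_lit 5488) (nat_lit 3) (nat_lit 10))
    (@En.n l639 (nat_lit 9193) (nat_lit 13) (nat_lit 12))
    (@En.n l14033 (nat_lit 5485) (nat_lit 11) (nat_lit 7))
    (@En.n l14034 (nat_lit 5485) (nat_lit 12) (nat_lit 4))
    (@En.n l50 (nat_lit 8254) (nat_lit 0) (nat_lit 4))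
    (@En.i (nat_lit 726) (nat_lit 0) (nat_lit 9))
    (@En.n l27719 (nat_lit 10544) (nat_lit 1) (nat_lit 5))
    (@En.n l217 (nat_lit 5494) (nat_lit 4) (nat_lit 12))
    (@En.i (nat_lit 6396) (nat_lit 6) (nat_lit 12))
    (@En.n l639 (nat_lit 2185) (nat_lit 9) (nat_lit 9))
    (@En.n l27332 (nat_lit 5465) (nat_lit 14) (nat_lit 6))
    (@En.i (nat_lit 7256) (nat_lit 14) (nat_lit 11))
    (@En.n l731 (nat_lit 5477) (nat_lit 13) (nat_lit 3))))
  (@Cl.mk (nat_lit 0x20007000b00040007000a000d0005000c00030009000600040009000e000c) (nat_lit 0x10039020700690) (nat_lit 16) Lb.e (@T16.mk En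
    (@En.i (nat_lit 5488) (nat_lit 10) (nat_lit 12))
    (@En.n l1578 (nat_lit 6358) (nat_lit 1) (nat_lit 14))
    (@En.n l617 (nat_lit 5485) (nat_lit 2) (nat_lit 9))
    (@En.n l3480 (nat_lit 5497) (nat_lit 3) (nat_lit 4))
    (@En.n l15957 (nat_lit 5469) (nat_lit 4) (nat_lit 6))
    (@En.n l25520 (nat_lit 7563) (nat_lit 5) (nat_lit 9))
    (@En.n l6081 (nat_lit 5490) (nat_lit 6) (nat_lit 3))
    (@En.n l9385 (nat_lit 3209) (nat_lit 0) (nat_lit 12))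
    (@En.n l13633 (nat_lit 5491) (nat_lit 8) (nat_lit 5))
    (@En.i (nat_lit 7782) (nat_lit 5) (nat_lit 13))
    (@En.n l862 (nat_lit 8760) (nat_lit 11) (nat_lit 10))
    (@En.i (nat_lit 13979) (nat_lit 11) (nat_lit 7))
    (@En.n l3260 (nat_lit 12149) (nat_lit 13) (nat_lit 4))
    (@En.n l3328 (nat_lit 725) (nat_lit 14) (nat_lit 11))
    (@En.i (nat_lit 11758) (nat_lit 1) (nat_lit 7))
    (@En.n l28 (nat_lit 5487) (nat_lit 15) (nat_lit 2))))
noncomputable def a343 : T16 Cl := @T16.mk Cl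
  (@Cl.mk (nat_lit 0x3000a000600040009000c000c0006000a000400040007000a000d0006000c) (nat_lit 0x7006a2010004a02) (nat_lit 16) Lb.e (@T16.mk En
    (@En.n l30646 (nat_lit 3213) (nat_lit 0) (nat_lit 12))
    (@En.n l13633 (nat_lit 5473) (nat_lit 4) (nat_lit 6))
    (@En.i (nat_lit 7781) (nat_lit 5) (nat_lit 13))
    (@En.n l862 (nat_lit 8414) (nat_lit 8) (nat_lit 10))
    (@En.n l11 (nat_lit 5487) (nat_lit 11) (nat_lit 7))
    (@En.n l55 (nat_lit 5487) (nat_lit 12) (nat_lit 4))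
    (@En.n l30647 (nat_lit 12150) (nat_lit 0) (nat_lit 4))
    (@En.n l30648 (nat_lit 648) (nat_lit 0) (nat_lit 10))
    (@En.i (nat_lit 11760) (nat_lit 1) (nat_lit 6))
    (@En.n l6697 (nat_lit 5492) (nat_lit 4) (nat_lit 12))
    (@En.n l6698 (nat_lit 6248) (nat_lit 6) (nat_lit 12))
    (@En.n l27919 (nat_lit 5486) (nat_lit 12) (nat_lit 9))
    (@En.n l30649 (nat_lit 5496) (nat_lit 5) (nat_lit 4))
    (@En.n l15957 (nat_lit 5468) (nat_lit 14) (nat_lit 6))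
    (@En.n l25520 (nat_lit 7561) (nat_lit 1) (nat_lit 10))
    (@En.n l26055 (nat_lit 5489) (nat_lit 15) (nat_lit 3))))
  (@Cl.mk (nat_lit 0x3000a000600050009000c000c00060009000400040007000a000d000b0007) (nat_lit 0x700502010004a50) (nat_lit 16) Lb.e (@T16.mk En
    (@En.n l5144 (nat_lit 429) (nat_lit 0) (nat_lit 7))
    (@En.n l6418 (nat_lit 7513) (nat_lit 11) (nat_lit 11))
    (@En.n l1644 (nat_lit 7785) (nat_lit 5) (nat_lit 13))
    (@En.n l12371 (nat_lit 8508) (nat_lit 8) (nat_lit 10))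
    (@En.n l26095 (nat_lit 5490) (nat_lit 11) (nat_lit 7))
    (@En.n l26096 (nat_lit 5490) (nat_lit 12) (nat_lit 4))
    (@En.n l18 (nat_lit 8248) (nat_lit 0) (nat_lit 4))
    (@En.n l2869 (nat_lit 823) (nat_lit 9) (nat_lit 9))
    (@En.n l26097 (nat_lit 11279) (nat_lit 1) (nat_lit 6))
    (@En.n l61 (nat_lit 5493) (nat_lit 4) (nat_lit 12))
    (@En.n l1643 (nat_lit 6250) (nat_lit 6) (nat_lit 12))
    (@En.n l3 (nat_lit 5477) (nat_lit 10) (nat_lit 9))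
    (@En.n l26097 (nat_lit 5480) (nat_lit 11) (nat_lit 5))
    (@En.n l26098 (nat_lit 5467) (nat_lit 14) (nat_lit 6))
    (@En.n l26099 (nat_lit 5473) (nat_lit 1) (nat_lit 10))
    (@En.n l26100 (nat_lit 5488) (nat_lit 15) (nat_lit 3))))
  (@Cl.mk (nat_lit 0x20007000a00040007000a000d000b000600030009000600050009000e000c) (nat_lit 0x1003a400700591) (nat_lit 16) Lb.e (@T16.mk En
    (@En.n l28359 (nat_lit 5489) (nat_lit 10) (nat_lit 12))
    (@En.n l601 (nat_lit 6357) (nat_lit 1) (nat_lit 14))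
    (@En.n l16911 (nat_lit 5484) (nat_lit 2) (nat_lit 9))
    (@En.i (nat_lit 5482) (nat_lit 3) (nat_lit 5))
    (@En.n l11864 (nat_lit 5466) (nat_lit 4) (nat_lit 6))
    (@En.n l4819 (nat_lit 5491) (nat_lit 5) (nat_lit 9))
    (@En.n l3536 (nat_lit 5487) (nat_lit 6) (nat_lit 3))
    (@En.n l638 (nat_lit 425) (nat_lit 7) (nat_lit 6))
    (@En.n l68 (nat_lit 7512) (nat_lit 9) (nat_lit 11))
    (@En.n l3866 (nat_lit 7783) (nat_lit 5) (nat_lit 13))
    (@En.n l32371 (nat_lit 8295) (nat_lit 11) (nat_lit 10))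
    (@En.i (nat_lit 13980) (nat_lit 11) (nat_lit 7))
    (@En.i (nat_lit 8247) (nat_lit 13) (nat_lit 4))
    (@En.n l2299 (nat_lit 825) (nat_lit 8) (nat_lit 10))
    (@En.i (nat_lit 11756) (nat_lit 1) (nat_lit 7))
    (@En.n l50 (nat_lit 5490) (nat_lit 15) (nat_lit 2))))
  (@Cl.mk (nat_lit 0x20007000b000a00050008000b0005000c00060009000500040008000e000b) (nat_lit 0x82063040600451) (nat_lit 16) Lb.e (@T16.mk En
    (@En.i (nat_lit 5473) (nat_lit 13) (nat_lit 11))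
    (@En.n l396 (nat_lit 6356) (nat_lit 1) (nat_lit 14))
    (@En.n l4425 (nat_lit 5475) (nat_lit 2) (nat_lit 8))
    (@En.n l28 (nat_lit 5479) (nat_lit 3) (nat_lit 4))
    (@En.n l502 (nat_lit 5461) (nat_lit 4) (nat_lit 5))
    (@En.i (nat_lit 5365) (nat_lit 9) (nat_lit 9))
    (@En.n l2257 (nat_lit 428) (nat_lit 6) (nat_lit 6))
    (@En.n l4426 (nat_lit 7511) (nat_lit 8) (nat_lit 12))
    (@En.n l4427 (nat_lit 6921) (nat_lit 8) (nat_lit 5))
    (@En.n l24837 (nat_lit 8291) (nat_lit 10) (nat_lit 11))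
    (@En.i (nat_lit 13981) (nat_lit 10) (nat_lit 8))
    (@En.i (nat_lit 10585) (nat_lit 12) (nat_lit 5))
    (@En.n l4428 (nat_lit 5490) (nat_lit 13) (nat_lit 10))
    (@En.n l4429 (nat_lit 5466) (nat_lit 14) (nat_lit 11))
    (@En.i (nat_lit 9849) (nat_lit 2) (nat_lit 7))
    (@En.n l18 (nat_lit 5491) (nat_lit 15) (nat_lit 2))))
  (@Cl.mk (nat_lit 0x20007000a000d0007000c0003000b000600040009000c00050009000e0004) (nat_lit 0x59080800610100) (nat_lit 16) Lb.e (@T16.mk En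
    (@En.n l5611 (nat_lit 5488) (nat_lit 6) (nat_lit 4))
    (@En.i (nat_lit 7295) (nat_lit 1) (nat_lit 14))
    (@En.n l3328 (nat_lit 724) (nat_lit 2) (nat_lit 9))
    (@En.i (nat_lit 11270) (nat_lit 3) (nat_lit 5))
    (@En.i (nat_lit 4502) (nat_lit 6) (nat_lit 12))
    (@En.n l3337 (nat_lit 5494) (nat_lit 5) (nat_lit 9))
    (@En.n l1203 (nat_lit 7600) (nat_lit 6) (nat_lit 4))
    (@En.n l2642 (nat_lit 7603) (nat_lit 7) (nat_lit 6))
    (@En.n l9182 (nat_lit 7562) (nat_lit 9) (nat_lit 11))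
    (@En.n l12368 (nat_lit 5493) (nat_lit 9) (nat_lit 3))
    (@En.n l1203 (nat_lit 3735) (nat_lit 11) (nat_lit 12))
    (@En.i (nat_lit 5495) (nat_lit 12) (nat_lit 7))
    (@En.i (nat_lit 7787) (nat_lit 5) (nat_lit 13))
    (@En.n l2642 (nat_lit 8513) (nat_lit 14) (nat_lit 10))
    (@En.n l3100 (nat_lit 5488) (nat_lit 4) (nat_lit 7))
    (@En.n l28 (nat_lit 5492) (nat_lit 15) (nat_lit 2))))
  (@Cl.mk (nat_lit 0x20007000a000d000b00080003000b000600050009000c00050008000e0004) (nat_lit 0x5a820800510110) (nat_lit 16) Lb.e (@T16.mk En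
    (@En.i (nat_lit 5489) (nat_lit 6) (nat_lit 4))
    (@En.n l12279 (nat_lit 4346) (nat_lit 1) (nat_lit 14))
    (@En.n l5495 (nat_lit 824) (nat_lit 2) (nat_lit 8))
    (@En.i (nat_lit 11272) (nat_lit 3) (nat_lit 5))
    (@En.n l1643 (nat_lit 4501) (nat_lit 6) (nat_lit 12))
    (@En.n l3 (nat_lit 5483) (nat_lit 5) (nat_lit 9))
    (@En.n l12279 (nat_lit 5481) (nat_lit 6) (nat_lit 5))
    (@En.n l8972 (nat_lit 7605) (nat_lit 7) (nat_lit 6))
    (@En.n l38419 (nat_lit 5495) (nat_lit 9) (nat_lit 11))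
    (@En.n l1911 (nat_lit 5492) (nat_lit 9) (nat_lit 3))
    (@En.n l12752 (nat_lit 1503) (nat_lit 11) (nat_lit 8))
    (@En.n l26542 (nat_lit 7599) (nat_lit 12) (nat_lit 11))
    (@En.n l1644 (nat_lit 7788) (nat_lit 5) (nat_lit 13))
    (@En.n l8972 (nat_lit 8512) (nat_lit 14) (nat_lit 10))
    (@En.n l617 (nat_lit 5489) (nat_lit 4) (nat_lit 7))
    (@En.n l17 (nat_lit 5493) (nat_lit 15) (nat_lit 2))))
  (@Cl.mk (nat_lit 0x20007000c000a000d000800040003000c00060009000c00040008000e0004) (nat_lit 0xa68200905a0110) (nat_lit 16) Lb.e (@T16.mk En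
    (@En.i (nat_lit 5486) (nat_lit 7) (nat_lit 4))
    (@En.n l649 (nat_lit 4348) (nat_lit 1) (nat_lit 14))
    (@En.i (nat_lit 727) (nat_lit 2) (nat_lit 8))
    (@En.i (nat_lit 11269) (nat_lit 3) (nat_lit 4))
    (@En.i (nat_lit 6229) (nat_lit 6) (nat_lit 12))
    (@En.n l13792 (nat_lit 2250) (nat_lit 5) (nat_lit 9))
    (@En.i (nat_lit 7604) (nat_lit 6) (nat_lit 6))
    (@En.i (nat_lit 7564) (nat_lit 8) (nat_lit 12))
    (@En.n l731 (nat_lit 5483) (nat_lit 8) (nat_lit 3))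
    (@En.n l1865 (nat_lit 7508) (nat_lit 9) (nat_lit 4))
    (@En.n l2013 (nat_lit 5474) (nat_lit 11) (nat_lit 8))
    (@En.i (nat_lit 5867) (nat_lit 12) (nat_lit 13))
    (@En.n l1867 (nat_lit 5492) (nat_lit 13) (nat_lit 10))
    (@En.n l639 (nat_lit 12108) (nat_lit 14) (nat_lit 12))
    (@En.n l1738 (nat_lit 5486) (nat_lit 5) (nat_lit 7))
    (@En.n l18 (nat_lit 5494) (nat_lit 15) (nat_lit 2))))
  (@Cl.mk (nat_lit 0x20008000b0007000c0008000b000500040008000b000500090008000e0005) (nat_lit 0x1509270049052a0) (nat_lit 16) Lb.e (@T16.mk En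
    (@En.n l40392 (nat_lit 5473) (nat_lit 8) (nat_lit 5))
    (@En.n l34574 (nat_lit 8116) (nat_lit 1) (nat_lit 14))
    (@En.n l40393 (nat_lit 5493) (nat_lit 2) (nat_lit 8))
    (@En.n l39988 (nat_lit 7605) (nat_lit 3) (nat_lit 9))
    (@En.n l28476 (nat_lit 11274) (nat_lit 4) (nat_lit 5))
    (@En.i (nat_lit 6254) (nat_lit 7) (nat_lit 11))
    (@En.n l40394 (nat_lit 5474) (nat_lit 6) (nat_lit 8))
    (@En.n l3480 (nat_lit 5478) (nat_lit 7) (nat_lit 4))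
    (@En.n l26868 (nat_lit 7829) (nat_lit 8) (nat_lit 5))
    (@En.n l26869 (nat_lit 5370) (nat_lit 10) (nat_lit 11))
    (@En.n l22624 (nat_lit 1499) (nat_lit 11) (nat_lit 8))
    (@En.n l26869 (nat_lit 7598) (nat_lit 12) (nat_lit 12))
    (@En.i (nat_lit 6924) (nat_lit 13) (nat_lit 7))
    (@En.n l2642 (nat_lit 8281) (nat_lit 7) (nat_lit 11))
    (@En.n l40395 (nat_lit 5473) (nat_lit 6) (nat_lit 8))
    (@En.n l28 (nat_lit 5495) (nat_lit 15) (nat_lit 2))))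
  (@Cl.mk (nat_lit 0x400040007000c000c0006000c00040004000b00040009000c000c0005000a) (nat_lit 0x9402006060001) (nat_lit 16) Lb.e (@T16.mk En
    (@En.i (nat_lit 638) (nat_lit 0) (nat_lit 10))
    (@En.n l1974 (nat_lit 11150) (nat_lit 1) (nat_lit 5))
    (@En.n l9762 (nat_lit 7600) (nat_lit 4) (nat_lit 12))
    (@En.i (nat_lit 5887) (nat_lit 6) (nat_lit 12))
    (@En.n l5640 (nat_lit 2189) (nat_lit 11) (nat_lit 9))
    (@En.i (nat_lit 7513) (nat_lit 5) (nat_lit 4))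
    (@En.n l28339 (nat_lit 7558) (nat_lit 0) (nat_lit 11))
    (@En.n l15870 (nat_lit 7593) (nat_lit 12) (nat_lit 4))
    (@En.n l936 (nat_lit 5486) (nat_lit 0) (nat_lit 4))
    (@En.n l55 (nat_lit 857) (nat_lit 0) (nat_lit 12))
    (@En.n l15872 (nat_lit 5472) (nat_lit 1) (nat_lit 6))
    (@En.n l6047 (nat_lit 7503) (nat_lit 4) (nat_lit 12))
    (@En.n l5389 (nat_lit 12459) (nat_lit 13) (nat_lit 12))
    (@En.n l1972 (nat_lit 5497) (nat_lit 11) (nat_lit 7))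
    (@En.n l1973 (nat_lit 5497) (nat_lit 12) (nat_lit 4))
    (@En.n l15801 (nat_lit 12152) (nat_lit 0) (nat_lit 4))))
  (@Cl.mk (nat_lit 0x20006000b00040007000c000c0005000c00040004000a00040009000e000c) (nat_lit 0x10093020070601) (nat_lit 16) Lb.e (@T16.mk En
    (@En.n l5779 (nat_lit 5496) (nat_lit 3) (nat_lit 12))
    (@En.n l601 (nat_lit 6364) (nat_lit 1) (nat_lit 14))
    (@En.n l2213 (nat_lit 2184) (nat_lit 2) (nat_lit 9))
    (@En.i (nat_lit 7512) (nat_lit 3) (nat_lit 4))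
    (@En.n l899 (nat_lit 7560) (nat_lit 4) (nat_lit 10))
    (@En.n l152 (nat_lit 7592) (nat_lit 5) (nat_lit 4))
    (@En.n l3851 (nat_lit 5485) (nat_lit 6) (nat_lit 4))
    (@En.n l1722 (nat_lit 856) (nat_lit 8) (nat_lit 12))
    (@En.n l2125 (nat_lit 5479) (nat_lit 8) (nat_lit 5))
    (@En.n l3536 (nat_lit 7502) (nat_lit 10) (nat_lit 12))
    (@En.i (nat_lit 12460) (nat_lit 11) (nat_lit 12))
    (@En.i (nat_lit 13334) (nat_lit 11) (nat_lit 7))
    (@En.n l6042 (nat_lit 12153) (nat_lit 13) (nat_lit 4))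
    (@En.n l5777 (nat_lit 739) (nat_lit 14) (nat_lit 11))
    (@En.i (nat_lit 11149) (nat_lit 1) (nat_lit 6))
    (@En.n l50 (nat_lit 5497) (nat_lit 15) (nat_lit 2))))
  (@Cl.mk (nat_lit 0x200080007000e000d000200090003000e000800020009000d0007000e0003) (nat_lit 0x6083020b30140c0) (nat_lit 16) Lb.e (@T16.mk En
    (@En.n l5561 (nat_lit 5130) (nat_lit 5) (nat_lit 3))
    (@En.n l699 (nat_lit 12948) (nat_lit 0) (nat_lit 14))
    (@En.n l1128 (nat_lit 5782) (nat_lit 2) (nat_lit 7))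
    (@En.i (nat_lit 5649) (nat_lit 9) (nat_lit 13))
    (@En.n l3130 (nat_lit 700) (nat_lit 4) (nat_lit 9))
    (@En.n l28 (nat_lit 5498) (nat_lit 5) (nat_lit 2))
    (@En.n l5562 (nat_lit 5442) (nat_lit 6) (nat_lit 8))
    (@En.n l5563 (nat_lit 3107) (nat_lit 1) (nat_lit 14))
    (@En.n l117 (nat_lit 5499) (nat_lit 8) (nat_lit 3))
    (@En.n l5564 (nat_lit 5195) (nat_lit 3) (nat_lit 9))
    (@En.n l3 (nat_lit 5498) (nat_lit 10) (nat_lit 2))
    (@En.i (nat_lit 5499) (nat_lit 12) (nat_lit 13))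
    (@En.n l1118 (nat_lit 4887) (nat_lit 7) (nat_lit 14))
    (@En.n l968 (nat_lit 4124) (nat_lit 14) (nat_lit 7))
    (@En.i (nat_lit 6328) (nat_lit 3) (nat_lit 8))
    (@En.n l18 (nat_lit 5498) (nat_lit 15) (nat_lit 2))))
  (@Cl.mk (nat_lit 0x200080007000d000d000800030003000e000800020009000d0008000e0003) (nat_lit 0x6023000b40210c0) (nat_lit 16) Lb.e (@T16.mk En
    (@En.n l7307 (nat_lit 5131) (nat_lit 10) (nat_lit 3))
    (@En.n l2438 (nat_lit 12949) (nat_lit 0) (nat_lit 14))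
    (@En.n l3740 (nat_lit 5707) (nat_lit 2) (nat_lit 8))
    (@En.i (nat_lit 3630) (nat_lit 14) (nat_lit 13))
    (@En.n l7308 (nat_lit 703) (nat_lit 4) (nat_lit 9))
    (@En.n l28 (nat_lit 5499) (nat_lit 5) (nat_lit 2))
    (@En.n l7309 (nat_lit 3631) (nat_lit 6) (nat_lit 8))
    (@En.n l2440 (nat_lit 5503) (nat_lit 1) (nat_lit 14))
    (@En.n l152 (nat_lit 5498) (nat_lit 8) (nat_lit 3))
    (@En.n l7310 (nat_lit 5500) (nat_lit 9) (nat_lit 3))
    (@En.n l97 (nat_lit 5708) (nat_lit 4) (nat_lit 8))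
    (@En.n l7311 (nat_lit 5500) (nat_lit 12) (nat_lit 13))
    (@En.n l1234 (nat_lit 5507) (nat_lit 7) (nat_lit 13))
    (@En.n l7312 (nat_lit 4111) (nat_lit 14) (nat_lit 7))
    (@En.i (nat_lit 6326) (nat_lit 4) (nat_lit 8))
    (@En.n l18 (nat_lit 5499) (nat_lit 15) (nat_lit 2))))
  (@Cl.mk (nat_lit 0x200080007000d0007000e00030002000e000800020009000d0009000e0003) (nat_lit 0x6020a00b10190c0) (nat_lit 16) Lb.e (@T16.mk En
    (@En.n l28 (nat_lit 5501) (nat_lit 10) (nat_lit 3))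
    (@En.n l9596 (nat_lit 12952) (nat_lit 0) (nat_lit 14))
    (@En.i (nat_lit 5702) (nat_lit 2) (nat_lit 9))
    (@En.n l9596 (nat_lit 5648) (nat_lit 14) (nat_lit 13))
    (@En.n l9597 (nat_lit 699) (nat_lit 12) (nat_lit 9))
    (@En.n l3 (nat_lit 5500) (nat_lit 5) (nat_lit 2))
    (@En.n l4018 (nat_lit 36) (nat_lit 6) (nat_lit 8))
    (@En.i (nat_lit 5502) (nat_lit 1) (nat_lit 14))
    (@En.n l17 (nat_lit 5500) (nat_lit 8) (nat_lit 2))
    (@En.n l9598 (nat_lit 5499) (nat_lit 9) (nat_lit 3))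
    (@En.n l427 (nat_lit 12957) (nat_lit 0) (nat_lit 14))
    (@En.n l9599 (nat_lit 5711) (nat_lit 5) (nat_lit 7))
    (@En.n l4021 (nat_lit 5550) (nat_lit 7) (nat_lit 13))
    (@En.i (nat_lit 4125) (nat_lit 14) (nat_lit 7))
    (@En.n l9600 (nat_lit 6239) (nat_lit 5) (nat_lit 8))
    (@En.n l7 (nat_lit 5500) (nat_lit 15) (nat_lit 2))))
  (@Cl.mk (nat_lit 0x20009000d000d000a0003000300080007000d0006000e00030002000e0008) (nat_lit 0x29a7006010a00b5) (nat_lit 16) Lb.e (@T16.mk En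
    (@En.n l4018 (nat_lit 3631) (nat_lit 14) (nat_lit 8))
    (@En.i (nat_lit 5504) (nat_lit 1) (nat_lit 14))
    (@En.n l17 (nat_lit 5501) (nat_lit 2) (nat_lit 2))
    (@En.i (nat_lit 5131) (nat_lit 3) (nat_lit 3))
    (@En.i (nat_lit 12955) (nat_lit 0) (nat_lit 14))
    (@En.n l3506 (nat_lit 5713) (nat_lit 5) (nat_lit 6))
    (@En.n l4021 (nat_lit 3629) (nat_lit 7) (nat_lit 13))
    (@En.i (nat_lit 3571) (nat_lit 7) (nat_lit 7))
    (@En.n l9600 (nat_lit 6324) (nat_lit 5) (nat_lit 8))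
    (@En.n l7 (nat_lit 5694) (nat_lit 9) (nat_lit 3))
    (@En.i (nat_lit 5500) (nat_lit 0) (nat_lit 3))
    (@En.i (nat_lit 5695) (nat_lit 12) (nat_lit 10))
    (@En.n l134 (nat_lit 5500) (nat_lit 3) (nat_lit 13))
    (@En.n l5577 (nat_lit 5643) (nat_lit 14) (nat_lit 13))
    (@En.n l107 (nat_lit 708) (nat_lit 12) (nat_lit 9))
    (@En.n l3 (nat_lit 5501) (nat_lit 15) (nat_lit 2))))
  (@Cl.mk (nat_lit 0x200050009000d0009000e0003000200090007000d0007000b0003000e0007) (nat_lit 0x380600002010a0) (nat_lit 16) Lb.e (@T16.mk En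
    (@En.n l10144 (nat_lit 5506) (nat_lit 7) (nat_lit 7))
    (@En.n l9386 (nat_lit 5505) (nat_lit 1) (nat_lit 14))
    (@En.n l10145 (nat_lit 5503) (nat_lit 2) (nat_lit 3))
    (@En.n l10146 (nat_lit 3602) (nat_lit 3) (nat_lit 11))
    (@En.n l10147 (nat_lit 5509) (nat_lit 4) (nat_lit 7))
    (@En.n l10148 (nat_lit 5551) (nat_lit 6) (nat_lit 13))
    (@En.i (nat_lit 5996) (nat_lit 6) (nat_lit 7))
    (@En.n l9600 (nat_lit 8462) (nat_lit 8) (nat_lit 9))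
    (@En.n l7 (nat_lit 5502) (nat_lit 8) (nat_lit 2))
    (@En.n l28 (nat_lit 5504) (nat_lit 9) (nat_lit 3))
    (@En.n l10149 (nat_lit 13928) (nat_lit 0) (nat_lit 14))
    (@En.i (nat_lit 7712) (nat_lit 12) (nat_lit 9))
    (@En.n l10150 (nat_lit 10938) (nat_lit 13) (nat_lit 13))
    (@En.n l10151 (nat_lit 5499) (nat_lit 4) (nat_lit 9))
    (@En.n l4100 (nat_lit 5508) (nat_lit 13) (nat_lit 5))
    (@En.n l3 (nat_lit 5502) (nat_lit 15) (nat_lit 2))))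
  (@Cl.mk (nat_lit 0x200060009000d0008000e0003000200090007000d000a00080003000e0007) (nat_lit 0x2b0600702600a0) (nat_lit 16) Lb.e (@T16.mk En
    (@En.n l3522 (nat_lit 3254) (nat_lit 7) (nat_lit 7))
    (@En.n l1105 (nat_lit 3106) (nat_lit 1) (nat_lit 14))
    (@En.n l3666 (nat_lit 5502) (nat_lit 2) (nat_lit 3))
    (@En.n l3667 (nat_lit 10035) (nat_lit 11) (nat_lit 8))
    (@En.n l3668 (nat_lit 5505) (nat_lit 4) (nat_lit 10))
    (@En.n l3669 (nat_lit 5549) (nat_lit 6) (nat_lit 13))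
    (@En.n l3670 (nat_lit 5997) (nat_lit 6) (nat_lit 7))
    (@En.n l1110 (nat_lit 8463) (nat_lit 8) (nat_lit 9))
    (@En.n l7 (nat_lit 5503) (nat_lit 8) (nat_lit 2))
    (@En.n l3671 (nat_lit 3256) (nat_lit 9) (nat_lit 3))
    (@En.n l1112 (nat_lit 13930) (nat_lit 0) (nat_lit 14))
    (@En.n l3667 (nat_lit 5853) (nat_lit 12) (nat_lit 8))
    (@En.i (nat_lit 10935) (nat_lit 13) (nat_lit 13))
    (@En.n l1110 (nat_lit 5498) (nat_lit 4) (nat_lit 9))
    (@En.n l3672 (nat_lit 5510) (nat_lit 5) (nat_lit 6))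
    (@En.n l17 (nat_lit 5503) (nat_lit 15) (nat_lit 2))))
noncomputable def a344 : T16 Cl := @T16.mk Cl
  (@Cl.mk (nat_lit 0x200050009000d000d000a0003000300090007000d0006000b0003000e0007) (nat_lit 0x279100702020a0) (nat_lit 16) Lb.e (@T16.mk En
    (@En.n l4018 (nat_lit 3252) (nat_lit 6) (nat_lit 7))
    (@En.n l10309 (nat_lit 3251) (nat_lit 1) (nat_lit 14))
    (@En.i (nat_lit 3256) (nat_lit 2) (nat_lit 3))
    (@En.n l18834 (nat_lit 3599) (nat_lit 3) (nat_lit 11))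
    (@En.n l3506 (nat_lit 5674) (nat_lit 4) (nat_lit 6))
    (@En.n l4021 (nat_lit 5545) (nat_lit 6) (nat_lit 13))
    (@En.i (nat_lit 5993) (nat_lit 6) (nat_lit 7))
    (@En.n l9600 (nat_lit 8454) (nat_lit 8) (nat_lit 9))
    (@En.n l7 (nat_lit 5667) (nat_lit 8) (nat_lit 3))
    (@En.i (nat_lit 5502) (nat_lit 9) (nat_lit 3))
    (@En.i (nat_lit 5272) (nat_lit 11) (nat_lit 10))
    (@En.n l134 (nat_lit 5502) (nat_lit 12) (nat_lit 13))
    (@En.n l5577 (nat_lit 10939) (nat_lit 13) (nat_lit 13))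
    (@En.n l617 (nat_lit 5131) (nat_lit 14) (nat_lit 9))
    (@En.i (nat_lit 5511) (nat_lit 13) (nat_lit 5))
    (@En.n l3 (nat_lit 5504) (nat_lit 15) (nat_lit 2))))
  (@Cl.mk (nat_lit 0x2000600050009000d0009000e00030002000a0007000a0007000b000e0006) (nat_lit 0x3b07008050190) (nat_lit 16) Lb.e (@T16.mk En
    (@En.n l2116 (nat_lit 3248) (nat_lit 8) (nat_lit 6))
    (@En.n l1638 (nat_lit 3113) (nat_lit 4) (nat_lit 14))
    (@En.i (nat_lit 3603) (nat_lit 2) (nat_lit 11))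
    (@En.n l10280 (nat_lit 12202) (nat_lit 3) (nat_lit 7))
    (@En.n l2117 (nat_lit 5824) (nat_lit 4) (nat_lit 10))
    (@En.n l10281 (nat_lit 5995) (nat_lit 5) (nat_lit 7))
    (@En.i (nat_lit 8464) (nat_lit 7) (nat_lit 10))
    (@En.n l7 (nat_lit 5505) (nat_lit 7) (nat_lit 2))
    (@En.n l1490 (nat_lit 3251) (nat_lit 8) (nat_lit 3))
    (@En.n l3345 (nat_lit 13929) (nat_lit 0) (nat_lit 14))
    (@En.i (nat_lit 7716) (nat_lit 11) (nat_lit 9))
    (@En.n l1638 (nat_lit 10941) (nat_lit 12) (nat_lit 13))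
    (@En.n l10282 (nat_lit 5503) (nat_lit 13) (nat_lit 9))
    (@En.n l3195 (nat_lit 5502) (nat_lit 14) (nat_lit 5))
    (@En.n l2125 (nat_lit 3918) (nat_lit 6) (nat_lit 6))
    (@En.n l17 (nat_lit 5505) (nat_lit 15) (nat_lit 2))))
  (@Cl.mk (nat_lit 0x2000900090008000d0008000c00030007000700040008000d0008000e0003) (nat_lit 0x1530100006b000) (nat_lit 16) Lb.e (@T16.mk En
    (@En.n l14391 (nat_lit 3252) (nat_lit 15) (nat_lit 3))
    (@En.n l12588 (nat_lit 13637) (nat_lit 0) (nat_lit 14))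
    (@En.n l8307 (nat_lit 7711) (nat_lit 2) (nat_lit 8))
    (@En.n l22735 (nat_lit 12017) (nat_lit 11) (nat_lit 13))
    (@En.n l22736 (nat_lit 3631) (nat_lit 4) (nat_lit 8))
    (@En.n l22737 (nat_lit 5628) (nat_lit 5) (nat_lit 4))
    (@En.n l8758 (nat_lit 6366) (nat_lit 9) (nat_lit 7))
    (@En.n l22738 (nat_lit 5633) (nat_lit 7) (nat_lit 7))
    (@En.n l3100 (nat_lit 3254) (nat_lit 8) (nat_lit 3))
    (@En.n l3506 (nat_lit 3604) (nat_lit 0) (nat_lit 12))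
    (@En.i (nat_lit 9248) (nat_lit 11) (nat_lit 8))
    (@En.n l22737 (nat_lit 5652) (nat_lit 12) (nat_lit 13))
    (@En.n l12588 (nat_lit 6104) (nat_lit 13) (nat_lit 8))
    (@En.n l22739 (nat_lit 5502) (nat_lit 7) (nat_lit 9))
    (@En.n l22740 (nat_lit 10730) (nat_lit 5) (nat_lit 9))
    (@En.n l17 (nat_lit 5506) (nat_lit 15) (nat_lit 2))))
  (@Cl.mk (nat_lit 0x20005000d0009000e000300020008000d000c00070003000b0004000e0008) (nat_lit 0x103006140020a4) (nat_lit 16) Lb.e (@T16.mk En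
    (@En.n l10169 (nat_lit 3632) (nat_lit 6) (nat_lit 8))
    (@En.n l5293 (nat_lit 5549) (nat_lit 1) (nat_lit 14))
    (@En.n l5224 (nat_lit 3997) (nat_lit 2) (nat_lit 4))
    (@En.n l250 (nat_lit 5502) (nat_lit 3) (nat_lit 11))
    (@En.n l50 (nat_lit 5550) (nat_lit 4) (nat_lit 3))
    (@En.n l1033 (nat_lit 10100) (nat_lit 5) (nat_lit 7))
    (@En.n l10170 (nat_lit 5552) (nat_lit 7) (nat_lit 12))
    (@En.n l5224 (nat_lit 3852) (nat_lit 8) (nat_lit 13))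
    (@En.n l810 (nat_lit 10257) (nat_lit 9) (nat_lit 8))
    (@En.n l28 (nat_lit 5507) (nat_lit 9) (nat_lit 2))
    (@En.n l11 (nat_lit 5540) (nat_lit 10) (nat_lit 3))
    (@En.n l10171 (nat_lit 13932) (nat_lit 0) (nat_lit 14))
    (@En.n l1544 (nat_lit 7185) (nat_lit 13) (nat_lit 9))
    (@En.n l5224 (nat_lit 4705) (nat_lit 14) (nat_lit 13))
    (@En.n l10172 (nat_lit 4805) (nat_lit 4) (nat_lit 5))
    (@En.n l3 (nat_lit 5507) (nat_lit 15) (nat_lit 2))))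
  (@Cl.mk (nat_lit 0x2000800050009000d0009000e0003000200080007000c0007000b000e0004) (nat_lit 0x4068600050704b0) (nat_lit 16) Lb.e (@T16.mk En
    (@En.n l23144 (nat_lit 7024) (nat_lit 8) (nat_lit 4))
    (@En.n l3387 (nat_lit 5500) (nat_lit 10) (nat_lit 14))
    (@En.n l253 (nat_lit 3795) (nat_lit 2) (nat_lit 11))
    (@En.n l23379 (nat_lit 10743) (nat_lit 3) (nat_lit 7))
    (@En.n l23380 (nat_lit 6989) (nat_lit 13) (nat_lit 12))
    (@En.n l3387 (nat_lit 6960) (nat_lit 14) (nat_lit 7))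
    (@En.n l2125 (nat_lit 9532) (nat_lit 6) (nat_lit 8))
    (@En.n l17 (nat_lit 5508) (nat_lit 7) (nat_lit 2))
    (@En.n l23381 (nat_lit 5511) (nat_lit 8) (nat_lit 3))
    (@En.i (nat_lit 13619) (nat_lit 0) (nat_lit 14))
    (@En.n l5 (nat_lit 7010) (nat_lit 2) (nat_lit 9))
    (@En.n l23382 (nat_lit 8815) (nat_lit 12) (nat_lit 13))
    (@En.n l23383 (nat_lit 4799) (nat_lit 4) (nat_lit 9))
    (@En.n l1599 (nat_lit 7012) (nat_lit 14) (nat_lit 5))
    (@En.n l23384 (nat_lit 5628) (nat_lit 6) (nat_lit 8))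
    (@En.n l11 (nat_lit 5508) (nat_lit 15) (nat_lit 2))))
  (@Cl.mk (nat_lit 0x200050008000c00090008000e00040002000a00080007000b0008000e0006) (nat_lit 0x20011000602070) (nat_lit 16) Lb.e (@T16.mk En
    (@En.n l215 (nat_lit 9248) (nat_lit 8) (nat_lit 6))
    (@En.n l998 (nat_lit 12202) (nat_lit 1) (nat_lit 14))
    (@En.n l5324 (nat_lit 9122) (nat_lit 2) (nat_lit 8))
    (@En.n l3 (nat_lit 5955) (nat_lit 3) (nat_lit 11))
    (@En.n l527 (nat_lit 12727) (nat_lit 4) (nat_lit 7))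
    (@En.n l5325 (nat_lit 8193) (nat_lit 5) (nat_lit 8))
    (@En.n l5326 (nat_lit 8429) (nat_lit 7) (nat_lit 10))
    (@En.n l28 (nat_lit 5509) (nat_lit 7) (nat_lit 2))
    (@En.n l5327 (nat_lit 5674) (nat_lit 8) (nat_lit 4))
    (@En.i (nat_lit 333) (nat_lit 10) (nat_lit 14))
    (@En.n l5328 (nat_lit 5503) (nat_lit 11) (nat_lit 8))
    (@En.n l5329 (nat_lit 12546) (nat_lit 12) (nat_lit 9))
    (@En.n l1644 (nat_lit 12329) (nat_lit 13) (nat_lit 12))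
    (@En.n l5330 (nat_lit 5708) (nat_lit 14) (nat_lit 8))
    (@En.n l2039 (nat_lit 10743) (nat_lit 13) (nat_lit 5))
    (@En.n l17 (nat_lit 5509) (nat_lit 15) (nat_lit 2))))
  (@Cl.mk (nat_lit 0x200080007000c000a000d000900040003000800060009000d0007000e0003) (nat_lit 0x607145002040080) (nat_lit 16) Lb.e (@T16.mk En
    (@En.n l10327 (nat_lit 5512) (nat_lit 15) (nat_lit 3))
    (@En.n l5553 (nat_lit 13622) (nat_lit 0) (nat_lit 14))
    (@En.i (nat_lit 6542) (nat_lit 2) (nat_lit 7))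
    (@En.n l10328 (nat_lit 10151) (nat_lit 4) (nat_lit 13))
    (@En.i (nat_lit 4745) (nat_lit 4) (nat_lit 9))
    (@En.n l6277 (nat_lit 5554) (nat_lit 5) (nat_lit 6))
    (@En.n l287 (nat_lit 5431) (nat_lit 6) (nat_lit 8))
    (@En.n l11 (nat_lit 5520) (nat_lit 7) (nat_lit 3))
    (@En.n l10329 (nat_lit 5508) (nat_lit 0) (nat_lit 4))
    (@En.n l55 (nat_lit 10735) (nat_lit 10) (nat_lit 9))
    (@En.n l10330 (nat_lit 5499) (nat_lit 11) (nat_lit 13))
    (@En.n l10331 (nat_lit 3918) (nat_lit 12) (nat_lit 10))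
    (@En.n l7231 (nat_lit 4207) (nat_lit 13) (nat_lit 12))
    (@En.n l10332 (nat_lit 5561) (nat_lit 14) (nat_lit 7))
    (@En.n l6042 (nat_lit 8843) (nat_lit 14) (nat_lit 8))
    (@En.n l50 (nat_lit 5510) (nat_lit 15) (nat_lit 2))))
  (@Cl.mk (nat_lit 0x2000800050009000d000d000a0003000300080007000c0006000b000e0004) (nat_lit 0x4067960050704b0) (nat_lit 16) Lb.e (@T16.mk En
    (@En.n l23696 (nat_lit 7020) (nat_lit 7) (nat_lit 4))
    (@En.i (nat_lit 5501) (nat_lit 4) (nat_lit 14))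
    (@En.n l2845 (nat_lit 3794) (nat_lit 2) (nat_lit 11))
    (@En.n l3506 (nat_lit 10745) (nat_lit 3) (nat_lit 6))
    (@En.n l4021 (nat_lit 6985) (nat_lit 12) (nat_lit 12))
    (@En.i (nat_lit 6961) (nat_lit 5) (nat_lit 7))
    (@En.n l9600 (nat_lit 9534) (nat_lit 6) (nat_lit 8))
    (@En.n l7 (nat_lit 7021) (nat_lit 7) (nat_lit 3))
    (@En.n l4100 (nat_lit 5508) (nat_lit 8) (nat_lit 3))
    (@En.i (nat_lit 7656) (nat_lit 10) (nat_lit 10))
    (@En.n l4016 (nat_lit 5508) (nat_lit 11) (nat_lit 13))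
    (@En.n l5577 (nat_lit 10751) (nat_lit 12) (nat_lit 13))
    (@En.n l20132 (nat_lit 4795) (nat_lit 13) (nat_lit 9))
    (@En.n l15055 (nat_lit 7013) (nat_lit 14) (nat_lit 5))
    (@En.i (nat_lit 5626) (nat_lit 5) (nat_lit 8))
    (@En.n l17 (nat_lit 5511) (nat_lit 15) (nat_lit 2))))
  (@Cl.mk (nat_lit 0x3000300080007000c000a000d000800040003000800060009000d000d0008) (nat_lit 0x60113500205612) (nat_lit 16) Lb.e (@T16.mk En
    (@En.i (nat_lit 5169) (nat_lit 0) (nat_lit 8))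
    (@En.n l23695 (nat_lit 5510) (nat_lit 3) (nat_lit 13))
    (@En.n l23696 (nat_lit 8856) (nat_lit 12) (nat_lit 13))
    (@En.n l23697 (nat_lit 4741) (nat_lit 9) (nat_lit 9))
    (@En.n l23698 (nat_lit 3928) (nat_lit 4) (nat_lit 6))
    (@En.n l23699 (nat_lit 5429) (nat_lit 5) (nat_lit 8))
    (@En.n l23700 (nat_lit 5515) (nat_lit 6) (nat_lit 3))
    (@En.n l18 (nat_lit 5511) (nat_lit 0) (nat_lit 4))
    (@En.n l23697 (nat_lit 10207) (nat_lit 0) (nat_lit 8))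
    (@En.i (nat_lit 5131) (nat_lit 5) (nat_lit 13))
    (@En.n l23701 (nat_lit 3917) (nat_lit 11) (nat_lit 10))
    (@En.n l4021 (nat_lit 4205) (nat_lit 12) (nat_lit 12))
    (@En.i (nat_lit 5559) (nat_lit 13) (nat_lit 7))
    (@En.n l9600 (nat_lit 9538) (nat_lit 14) (nat_lit 8))
    (@En.n l7 (nat_lit 5513) (nat_lit 13) (nat_lit 3))
    (@En.n l23702 (nat_lit 5510) (nat_lit 0) (nat_lit 3))))
  (@Cl.mk (nat_lit 0x20009000300080007000c000a000d000700040003000800060009000e000d) (nat_lit 0x60417000204a7) (nat_lit 16) Lb.e (@T16.mk En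
    (@En.n l134 (nat_lit 5512) (nat_lit 2) (nat_lit 13))
    (@En.n l5577 (nat_lit 8853) (nat_lit 1) (nat_lit 14))
    (@En.n l14315 (nat_lit 4739) (nat_lit 2) (nat_lit 9))
    (@En.n l25260 (nat_lit 5555) (nat_lit 3) (nat_lit 6))
    (@En.n l25261 (nat_lit 5430) (nat_lit 4) (nat_lit 8))
    (@En.n l13040 (nat_lit 5514) (nat_lit 5) (nat_lit 3))
    (@En.n l18 (nat_lit 7021) (nat_lit 0) (nat_lit 4))
    (@En.n l6081 (nat_lit 10205) (nat_lit 7) (nat_lit 7))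
    (@En.i (nat_lit 5129) (nat_lit 5) (nat_lit 13))
    (@En.n l61 (nat_lit 3924) (nat_lit 10) (nat_lit 10))
    (@En.n l4021 (nat_lit 4204) (nat_lit 11) (nat_lit 12))
    (@En.i (nat_lit 5560) (nat_lit 12) (nat_lit 7))
    (@En.n l117 (nat_lit 7798) (nat_lit 13) (nat_lit 8))
    (@En.i (nat_lit 5512) (nat_lit 14) (nat_lit 3))
    (@En.i (nat_lit 6558) (nat_lit 0) (nat_lit 9))
    (@En.n l28 (nat_lit 5513) (nat_lit 15) (nat_lit 2))))
  (@Cl.mk (nat_lit 0x20008000300080007000d000a000d000300080003000800060009000e000d) (nat_lit 0x2060129060104a2) (nat_lit 16) Lb.e (@T16.mk En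
    (@En.n l9927 (nat_lit 5515) (nat_lit 2) (nat_lit 13))
    (@En.n l39531 (nat_lit 8852) (nat_lit 1) (nat_lit 14))
    (@En.i (nat_lit 4740) (nat_lit 2) (nat_lit 9))
    (@En.n l5014 (nat_lit 5524) (nat_lit 3) (nat_lit 6))
    (@En.n l39532 (nat_lit 3016) (nat_lit 4) (nat_lit 8))
    (@En.n l2702 (nat_lit 5513) (nat_lit 5) (nat_lit 3))
    (@En.i (nat_lit 8163) (nat_lit 0) (nat_lit 8))
    (@En.n l8258 (nat_lit 5517) (nat_lit 7) (nat_lit 3))
    (@En.n l2133 (nat_lit 5128) (nat_lit 0) (nat_lit 13))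
    (@En.n l11107 (nat_lit 5519) (nat_lit 10) (nat_lit 10))
    (@En.n l3067 (nat_lit 1605) (nat_lit 11) (nat_lit 13))
    (@En.n l152 (nat_lit 5410) (nat_lit 12) (nat_lit 7))
    (@En.n l476 (nat_lit 7801) (nat_lit 13) (nat_lit 8))
    (@En.n l11108 (nat_lit 5515) (nat_lit 14) (nat_lit 3))
    (@En.n l649 (nat_lit 5102) (nat_lit 0) (nat_lit 8))
    (@En.n l11 (nat_lit 5514) (nat_lit 15) (nat_lit 2))))
  (@Cl.mk (nat_lit 0x3000300080007000d000a000d000300090003000800060009000d000d0007) (nat_lit 0x60225060104120) (nat_lit 16) Lb.e (@T16.mk En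
    (@En.n l8268 (nat_lit 5164) (nat_lit 0) (nat_lit 7))
    (@En.n l644 (nat_lit 5520) (nat_lit 3) (nat_lit 13))
    (@En.n l16560 (nat_lit 4324) (nat_lit 12) (nat_lit 13))
    (@En.i (nat_lit 4742) (nat_lit 9) (nat_lit 9))
    (@En.n l61 (nat_lit 5523) (nat_lit 4) (nat_lit 6))
    (@En.n l24736 (nat_lit 3014) (nat_lit 5) (nat_lit 8))
    (@En.n l10327 (nat_lit 5512) (nat_lit 6) (nat_lit 3))
    (@En.i (nat_lit 8168) (nat_lit 0) (nat_lit 9))
    (@En.n l24737 (nat_lit 5516) (nat_lit 8) (nat_lit 3))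
    (@En.n l24738 (nat_lit 5130) (nat_lit 0) (nat_lit 13))
    (@En.n l16560 (nat_lit 5518) (nat_lit 11) (nat_lit 10))
    (@En.n l7231 (nat_lit 4199) (nat_lit 12) (nat_lit 13))
    (@En.n l22667 (nat_lit 5406) (nat_lit 13) (nat_lit 7))
    (@En.n l22484 (nat_lit 9549) (nat_lit 4) (nat_lit 8))
    (@En.n l3644 (nat_lit 5514) (nat_lit 13) (nat_lit 3))
    (@En.n l7 (nat_lit 5520) (nat_lit 0) (nat_lit 3))))
  (@Cl.mk (nat_lit 0x3000300080007000d000c000b000300090004000800050009000d000d0007) (nat_lit 0x60229060103460) (nat_lit 16) Lb.e (@T16.mk En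
    (@En.i (nat_lit 5163) (nat_lit 0) (nat_lit 7))
    (@En.n l39534 (nat_lit 5521) (nat_lit 3) (nat_lit 13))
    (@En.n l15662 (nat_lit 8851) (nat_lit 10) (nat_lit 13))
    (@En.n l25392 (nat_lit 4685) (nat_lit 3) (nat_lit 9))
    (@En.n l15472 (nat_lit 7052) (nat_lit 4) (nat_lit 5))
    (@En.n l34121 (nat_lit 3013) (nat_lit 5) (nat_lit 8))
    (@En.n l15662 (nat_lit 7020) (nat_lit 6) (nat_lit 4))
    (@En.i (nat_lit 7103) (nat_lit 0) (nat_lit 9))
    (@En.n l16990 (nat_lit 5515) (nat_lit 8) (nat_lit 3))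
    (@En.n l30753 (nat_lit 7018) (nat_lit 0) (nat_lit 11))
    (@En.n l3866 (nat_lit 5512) (nat_lit 11) (nat_lit 12))
    (@En.n l10882 (nat_lit 1603) (nat_lit 12) (nat_lit 13))
    (@En.i (nat_lit 5409) (nat_lit 13) (nat_lit 7))
    (@En.n l24739 (nat_lit 9553) (nat_lit 4) (nat_lit 8))
    (@En.n l18 (nat_lit 5517) (nat_lit 13) (nat_lit 3))
    (@En.n l39535 (nat_lit 5521) (nat_lit 0) (nat_lit 3))))
  (@Cl.mk (nat_lit 0x20008000300080007000d000c000b000300080004000800050009000e000d) (nat_lit 0x2060259060103a5) (nat_lit 16) Lb.e (@T16.mk En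
    (@En.n l396 (nat_lit 5516) (nat_lit 2) (nat_lit 13))
    (@En.n l4316 (nat_lit 8848) (nat_lit 1) (nat_lit 14))
    (@En.n l18989 (nat_lit 4738) (nat_lit 2) (nat_lit 9))
    (@En.i (nat_lit 7053) (nat_lit 3) (nat_lit 5))
    (@En.n l17747 (nat_lit 3015) (nat_lit 4) (nat_lit 8))
    (@En.i (nat_lit 7022) (nat_lit 5) (nat_lit 4))
    (@En.i (nat_lit 7100) (nat_lit 6) (nat_lit 8))
    (@En.n l6822 (nat_lit 5514) (nat_lit 7) (nat_lit 3))
    (@En.n l619 (nat_lit 7019) (nat_lit 0) (nat_lit 11))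
    (@En.n l3866 (nat_lit 5513) (nat_lit 10) (nat_lit 12))
    (@En.n l10882 (nat_lit 1600) (nat_lit 11) (nat_lit 13))
    (@En.i (nat_lit 5411) (nat_lit 12) (nat_lit 7))
    (@En.n l4316 (nat_lit 7802) (nat_lit 13) (nat_lit 8))
    (@En.i (nat_lit 5516) (nat_lit 14) (nat_lit 3))
    (@En.i (nat_lit 5162) (nat_lit 0) (nat_lit 8))
    (@En.n l50 (nat_lit 5517) (nat_lit 15) (nat_lit 2))))
  (@Cl.mk (nat_lit 0x3000300090007000a000d000b000800030007000600050009000d000d0008) (nat_lit 0x119500005002) (nat_lit 16) Lb.e (@T16.mk En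
    (@En.n l11294 (nat_lit 5165) (nat_lit 0) (nat_lit 8))
    (@En.n l77 (nat_lit 5522) (nat_lit 3) (nat_lit 13))
    (@En.i (nat_lit 10169) (nat_lit 11) (nat_lit 13))
    (@En.n l9182 (nat_lit 5515) (nat_lit 3) (nat_lit 9))
    (@En.n l11294 (nat_lit 5516) (nat_lit 4) (nat_lit 5))
    (@En.n l17 (nat_lit 3926) (nat_lit 5) (nat_lit 6))
    (@En.n l6785 (nat_lit 3019) (nat_lit 6) (nat_lit 7))
    (@En.n l1798 (nat_lit 3917) (nat_lit 7) (nat_lit 3))
    (@En.n l97 (nat_lit 8167) (nat_lit 0) (nat_lit 8))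
    (@En.n l17680 (nat_lit 7015) (nat_lit 10) (nat_lit 11))
    (@En.n l3671 (nat_lit 3256) (nat_lit 5) (nat_lit 13))
    (@En.n l38726 (nat_lit 4147) (nat_lit 8) (nat_lit 10))
    (@En.n l11294 (nat_lit 5536) (nat_lit 13) (nat_lit 7))
    (@En.n l38716 (nat_lit 9545) (nat_lit 5) (nat_lit 9))
    (@En.n l38727 (nat_lit 5519) (nat_lit 13) (nat_lit 3))
    (@En.n l28 (nat_lit 5522) (nat_lit 0) (nat_lit 3))))
  (@Cl.mk (nat_lit 0x20009000300090007000a000d000b000700030007000600050009000e000d) (nat_lit 0x1000189000005a1) (nat_lit 16) Lb.e (@T16.mk En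
    (@En.n l25086 (nat_lit 5518) (nat_lit 2) (nat_lit 13))
    (@En.n l4316 (nat_lit 10239) (nat_lit 1) (nat_lit 14))
    (@En.n l6824 (nat_lit 5514) (nat_lit 2) (nat_lit 9))
    (@En.i (nat_lit 5517) (nat_lit 3) (nat_lit 5))
    (@En.n l25087 (nat_lit 5526) (nat_lit 4) (nat_lit 6))
    (@En.n l25088 (nat_lit 4490) (nat_lit 5) (nat_lit 7))
    (@En.n l3536 (nat_lit 3924) (nat_lit 6) (nat_lit 3))
    (@En.n l3087 (nat_lit 8164) (nat_lit 0) (nat_lit 7))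
    (@En.n l68 (nat_lit 7017) (nat_lit 9) (nat_lit 11))
    (@En.n l3866 (nat_lit 5668) (nat_lit 5) (nat_lit 13))
    (@En.n l25089 (nat_lit 4146) (nat_lit 11) (nat_lit 10))
    (@En.i (nat_lit 5624) (nat_lit 12) (nat_lit 7))
    (@En.n l24709 (nat_lit 7803) (nat_lit 13) (nat_lit 9))
    (@En.n l25090 (nat_lit 5518) (nat_lit 14) (nat_lit 3))
    (@En.i (nat_lit 2892) (nat_lit 0) (nat_lit 9))
    (@En.n l50 (nat_lit 5519) (nat_lit 15) (nat_lit 2))))
noncomputable def a345 : T16 Cl := @T16.mk Cl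
  (@Cl.mk (nat_lit 0x200080007000d000a000d0003000a0003000800060009000d0006000e0003) (nat_lit 0x602240701041030) (nat_lit 16) Lb.e (@T16.mk En
    (@En.i (nat_lit 5515) (nat_lit 15) (nat_lit 3))
    (@En.n l5553 (nat_lit 13628) (nat_lit 0) (nat_lit 14))
    (@En.i (nat_lit 6548) (nat_lit 2) (nat_lit 6))
    (@En.n l16560 (nat_lit 4331) (nat_lit 4) (nat_lit 13))
    (@En.i (nat_lit 4744) (nat_lit 4) (nat_lit 9))
    (@En.n l61 (nat_lit 5525) (nat_lit 5) (nat_lit 6))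
    (@En.n l1353 (nat_lit 3018) (nat_lit 6) (nat_lit 8))
    (@En.i (nat_lit 5510) (nat_lit 7) (nat_lit 3))
    (@En.i (nat_lit 10988) (nat_lit 0) (nat_lit 10))
    (@En.n l117 (nat_lit 5521) (nat_lit 9) (nat_lit 3))
    (@En.n l16561 (nat_lit 5498) (nat_lit 11) (nat_lit 13))
    (@En.n l16560 (nat_lit 5522) (nat_lit 12) (nat_lit 10))
    (@En.n l7231 (nat_lit 4462) (nat_lit 13) (nat_lit 13))
    (@En.n l14508 (nat_lit 5412) (nat_lit 14) (nat_lit 7))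
    (@En.n l6042 (nat_lit 8842) (nat_lit 14) (nat_lit 8))
    (@En.n l50 (nat_lit 5520) (nat_lit 15) (nat_lit 2))))
  (@Cl.mk (nat_lit 0x200080007000d000c000b0003000a0004000800050009000d0006000e0003) (nat_lit 0x60a890001045030) (nat_lit 16) Lb.e (@T16.mk En
    (@En.n l18239 (nat_lit 5516) (nat_lit 15) (nat_lit 3))
    (@En.n l5553 (nat_lit 13629) (nat_lit 0) (nat_lit 14))
    (@En.i (nat_lit 6549) (nat_lit 2) (nat_lit 6))
    (@En.n l9943 (nat_lit 8872) (nat_lit 4) (nat_lit 13))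
    (@En.i (nat_lit 4743) (nat_lit 4) (nat_lit 9))
    (@En.n l61 (nat_lit 7037) (nat_lit 5) (nat_lit 5))
    (@En.n l13804 (nat_lit 3017) (nat_lit 6) (nat_lit 8))
    (@En.n l9885 (nat_lit 7024) (nat_lit 7) (nat_lit 4))
    (@En.n l31653 (nat_lit 7802) (nat_lit 9) (nat_lit 10))
    (@En.n l152 (nat_lit 5520) (nat_lit 9) (nat_lit 3))
    (@En.n l22951 (nat_lit 6910) (nat_lit 11) (nat_lit 11))
    (@En.n l619 (nat_lit 5510) (nat_lit 12) (nat_lit 12))
    (@En.n l12291 (nat_lit 4463) (nat_lit 13) (nat_lit 13))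
    (@En.n l31654 (nat_lit 5413) (nat_lit 14) (nat_lit 7))
    (@En.n l6042 (nat_lit 9554) (nat_lit 14) (nat_lit 8))
    (@En.n l50 (nat_lit 5521) (nat_lit 15) (nat_lit 2))))
  (@Cl.mk (nat_lit 0x200090007000a000d000b000900030007000600050009000d0007000e0003) (nat_lit 0x138600005b070) (nat_lit 16) Lb.e (@T16.mk En
    (@En.i (nat_lit 5518) (nat_lit 15) (nat_lit 3))
    (@En.i (nat_lit 13627) (nat_lit 0) (nat_lit 14))
    (@En.i (nat_lit 6545) (nat_lit 2) (nat_lit 7))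
    (@En.i (nat_lit 10192) (nat_lit 11) (nat_lit 13))
    (@En.n l9182 (nat_lit 5520) (nat_lit 4) (nat_lit 9))
    (@En.n l9182 (nat_lit 5521) (nat_lit 5) (nat_lit 5))
    (@En.n l17 (nat_lit 5530) (nat_lit 6) (nat_lit 6))
    (@En.i (nat_lit 3259) (nat_lit 7) (nat_lit 7))
    (@En.n l1106 (nat_lit 3918) (nat_lit 8) (nat_lit 3))
    (@En.n l619 (nat_lit 10987) (nat_lit 0) (nat_lit 9))
    (@En.n l10040 (nat_lit 7016) (nat_lit 11) (nat_lit 11))
    (@En.i (nat_lit 5503) (nat_lit 5) (nat_lit 13))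
    (@En.n l6788 (nat_lit 4151) (nat_lit 13) (nat_lit 10))
    (@En.n l20448 (nat_lit 5625) (nat_lit 14) (nat_lit 7))
    (@En.i (nat_lit 8841) (nat_lit 5) (nat_lit 9))
    (@En.n l7 (nat_lit 5522) (nat_lit 15) (nat_lit 2))))
  (@Cl.mk (nat_lit 0x30003000c0007000c000a0004000d0004000a000300060009000d000d0006) (nat_lit 0x90210607002120) (nat_lit 16) Lb.e (@T16.mk En
    (@En.i (nat_lit 5166) (nat_lit 0) (nat_lit 6))
    (@En.n l644 (nat_lit 5525) (nat_lit 3) (nat_lit 13))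
    (@En.n l2642 (nat_lit 4323) (nat_lit 13) (nat_lit 13))
    (@En.i (nat_lit 4754) (nat_lit 9) (nat_lit 9))
    (@En.n l1081 (nat_lit 4077) (nat_lit 12) (nat_lit 6))
    (@En.n l9309 (nat_lit 3928) (nat_lit 5) (nat_lit 3))
    (@En.n l3328 (nat_lit 8169) (nat_lit 0) (nat_lit 10))
    (@En.n l9309 (nat_lit 7052) (nat_lit 7) (nat_lit 4))
    (@En.n l617 (nat_lit 5515) (nat_lit 9) (nat_lit 13))
    (@En.n l17 (nat_lit 2952) (nat_lit 9) (nat_lit 4))
    (@En.n l2642 (nat_lit 3926) (nat_lit 11) (nat_lit 10))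
    (@En.n l24860 (nat_lit 3044) (nat_lit 12) (nat_lit 12))
    (@En.i (nat_lit 5535) (nat_lit 13) (nat_lit 7))
    (@En.i (nat_lit 11769) (nat_lit 8) (nat_lit 12))
    (@En.n l1337 (nat_lit 5524) (nat_lit 13) (nat_lit 3))
    (@En.n l7 (nat_lit 5525) (nat_lit 0) (nat_lit 3))))
  (@Cl.mk (nat_lit 0x200070003000c0007000c000a0004000d00040009000300060009000e000d) (nat_lit 0x90220a0700242) (nat_lit 16) Lb.e (@T16.mk En
    (@En.n l3230 (nat_lit 5523) (nat_lit 2) (nat_lit 13))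
    (@En.n l2642 (nat_lit 9158) (nat_lit 1) (nat_lit 14))
    (@En.i (nat_lit 7206) (nat_lit 9) (nat_lit 9))
    (@En.n l16089 (nat_lit 4078) (nat_lit 12) (nat_lit 6))
    (@En.n l25062 (nat_lit 5555) (nat_lit 4) (nat_lit 3))
    (@En.n l25063 (nat_lit 8161) (nat_lit 0) (nat_lit 9))
    (@En.n l25064 (nat_lit 7053) (nat_lit 6) (nat_lit 4))
    (@En.n l5572 (nat_lit 5514) (nat_lit 8) (nat_lit 13))
    (@En.n l25065 (nat_lit 2954) (nat_lit 8) (nat_lit 4))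
    (@En.n l2642 (nat_lit 5526) (nat_lit 10) (nat_lit 10))
    (@En.n l25066 (nat_lit 4198) (nat_lit 11) (nat_lit 12))
    (@En.n l7234 (nat_lit 5568) (nat_lit 12) (nat_lit 7))
    (@En.n l9771 (nat_lit 11003) (nat_lit 13) (nat_lit 12))
    (@En.i (nat_lit 5523) (nat_lit 14) (nat_lit 3))
    (@En.n l25067 (nat_lit 5107) (nat_lit 0) (nat_lit 7))
    (@En.n l7 (nat_lit 5524) (nat_lit 15) (nat_lit 2))))
  (@Cl.mk (nat_lit 0x2000c0007000c000a0004000d0004000b000300060009000d0005000e0003) (nat_lit 0x902305000021000) (nat_lit 16) Lb.e (@T16.mk En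
    (@En.i (nat_lit 5523) (nat_lit 15) (nat_lit 3))
    (@En.i (nat_lit 13631) (nat_lit 0) (nat_lit 14))
    (@En.i (nat_lit 6547) (nat_lit 2) (nat_lit 5))
    (@En.n l2642 (nat_lit 4325) (nat_lit 13) (nat_lit 13))
    (@En.i (nat_lit 4753) (nat_lit 9) (nat_lit 9))
    (@En.n l1081 (nat_lit 4074) (nat_lit 12) (nat_lit 6))
    (@En.n l1080 (nat_lit 5554) (nat_lit 6) (nat_lit 3))
    (@En.n l3328 (nat_lit 10989) (nat_lit 0) (nat_lit 11))
    (@En.n l117 (nat_lit 7037) (nat_lit 8) (nat_lit 4))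
    (@En.n l617 (nat_lit 5520) (nat_lit 10) (nat_lit 13))
    (@En.n l17 (nat_lit 2953) (nat_lit 10) (nat_lit 4))
    (@En.n l2642 (nat_lit 5530) (nat_lit 12) (nat_lit 10))
    (@En.n l25536 (nat_lit 3046) (nat_lit 13) (nat_lit 12))
    (@En.i (nat_lit 5569) (nat_lit 14) (nat_lit 7))
    (@En.i (nat_lit 11766) (nat_lit 8) (nat_lit 12))
    (@En.n l50 (nat_lit 5525) (nat_lit 15) (nat_lit 2))))
  (@Cl.mk (nat_lit 0x200080003000d0007000a0003000d000c00080003000600040009000e000d) (nat_lit 0x10a010966000351) (nat_lit 16) Lb.e (@T16.mk En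
    (@En.n l143 (nat_lit 3926) (nat_lit 2) (nat_lit 13))
    (@En.i (nat_lit 10237) (nat_lit 1) (nat_lit 14))
    (@En.n l899 (nat_lit 5524) (nat_lit 2) (nat_lit 9))
    (@En.n l1325 (nat_lit 7060) (nat_lit 3) (nat_lit 4))
    (@En.n l149 (nat_lit 4079) (nat_lit 4) (nat_lit 6))
    (@En.n l1235 (nat_lit 3923) (nat_lit 5) (nat_lit 3))
    (@En.n l11410 (nat_lit 8162) (nat_lit 0) (nat_lit 8))
    (@En.n l11411 (nat_lit 7108) (nat_lit 8) (nat_lit 12))
    (@En.n l11294 (nat_lit 5519) (nat_lit 9) (nat_lit 13))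
    (@En.n l11412 (nat_lit 5528) (nat_lit 9) (nat_lit 3))
    (@En.n l149 (nat_lit 4145) (nat_lit 11) (nat_lit 10))
    (@En.n l11413 (nat_lit 5533) (nat_lit 12) (nat_lit 7))
    (@En.n l11414 (nat_lit 11005) (nat_lit 13) (nat_lit 13))
    (@En.i (nat_lit 3926) (nat_lit 14) (nat_lit 3))
    (@En.n l27 (nat_lit 2891) (nat_lit 0) (nat_lit 8))
    (@En.n l28 (nat_lit 5526) (nat_lit 15) (nat_lit 2))))
  (@Cl.mk (nat_lit 0x30003000d000900080003000d000c00090003000700040008000d000d0007) (nat_lit 0xa1201a60003000) (nat_lit 16) Lb.e (@T16.mk En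
    (@En.n l11412 (nat_lit 6576) (nat_lit 0) (nat_lit 7))
    (@En.n l77 (nat_lit 5529) (nat_lit 3) (nat_lit 13))
    (@En.i (nat_lit 10166) (nat_lit 12) (nat_lit 13))
    (@En.n l31318 (nat_lit 2952) (nat_lit 3) (nat_lit 8))
    (@En.n l39695 (nat_lit 7036) (nat_lit 4) (nat_lit 4))
    (@En.n l3522 (nat_lit 6226) (nat_lit 5) (nat_lit 7))
    (@En.n l39696 (nat_lit 3922) (nat_lit 6) (nat_lit 3))
    (@En.n l3522 (nat_lit 8170) (nat_lit 0) (nat_lit 9))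
    (@En.n l1236 (nat_lit 3929) (nat_lit 9) (nat_lit 12))
    (@En.n l3522 (nat_lit 3249) (nat_lit 10) (nat_lit 13))
    (@En.n l18 (nat_lit 3926) (nat_lit 10) (nat_lit 3))
    (@En.n l9155 (nat_lit 5644) (nat_lit 0) (nat_lit 8))
    (@En.n l61 (nat_lit 5518) (nat_lit 13) (nat_lit 9))
    (@En.i (nat_lit 11770) (nat_lit 2) (nat_lit 13))
    (@En.n l30903 (nat_lit 5528) (nat_lit 13) (nat_lit 3))
    (@En.n l28 (nat_lit 5529) (nat_lit 0) (nat_lit 3))))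
  (@Cl.mk (nat_lit 0x200080003000d000900080003000d000c00080003000700040008000e000d) (nat_lit 0x10a120160000381) (nat_lit 16) Lb.e (@T16.mk En
    (@En.n l25091 (nat_lit 5527) (nat_lit 2) (nat_lit 13))
    (@En.n l25092 (nat_lit 10236) (nat_lit 1) (nat_lit 14))
    (@En.i (nat_lit 2954) (nat_lit 2) (nat_lit 8))
    (@En.i (nat_lit 7063) (nat_lit 3) (nat_lit 4))
    (@En.n l4033 (nat_lit 6084) (nat_lit 4) (nat_lit 7))
    (@En.n l5350 (nat_lit 3925) (nat_lit 5) (nat_lit 3))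
    (@En.i (nat_lit 8165) (nat_lit 0) (nat_lit 8))
    (@En.n l7654 (nat_lit 7109) (nat_lit 8) (nat_lit 12))
    (@En.n l15747 (nat_lit 3253) (nat_lit 9) (nat_lit 13))
    (@En.n l3510 (nat_lit 5526) (nat_lit 9) (nat_lit 3))
    (@En.n l2345 (nat_lit 5646) (nat_lit 11) (nat_lit 8))
    (@En.n l2346 (nat_lit 5519) (nat_lit 12) (nat_lit 9))
    (@En.i (nat_lit 9036) (nat_lit 13) (nat_lit 13))
    (@En.n l25092 (nat_lit 5527) (nat_lit 14) (nat_lit 3))
    (@En.n l3098 (nat_lit 2890) (nat_lit 0) (nat_lit 8))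
    (@En.n l3 (nat_lit 5528) (nat_lit 15) (nat_lit 2))))
  (@Cl.mk (nat_lit 0x2000d000900080003000d000c000a0003000700040008000d0006000e0003) (nat_lit 0xa1201a00001b000) (nat_lit 16) Lb.e (@T16.mk En
    (@En.i (nat_lit 5527) (nat_lit 15) (nat_lit 3))
    (@En.n l20665 (nat_lit 13635) (nat_lit 0) (nat_lit 14))
    (@En.i (nat_lit 6546) (nat_lit 2) (nat_lit 6))
    (@En.i (nat_lit 10193) (nat_lit 12) (nat_lit 13))
    (@En.n l31318 (nat_lit 2953) (nat_lit 4) (nat_lit 8))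
    (@En.n l2869 (nat_lit 7034) (nat_lit 5) (nat_lit 4))
    (@En.i (nat_lit 6227) (nat_lit 6) (nat_lit 7))
    (@En.n l12811 (nat_lit 3921) (nat_lit 7) (nat_lit 3))
    (@En.n l3522 (nat_lit 10931) (nat_lit 0) (nat_lit 10))
    (@En.n l3866 (nat_lit 7026) (nat_lit 10) (nat_lit 12))
    (@En.n l3522 (nat_lit 3254) (nat_lit 11) (nat_lit 13))
    (@En.n l18 (nat_lit 5530) (nat_lit 11) (nat_lit 3))
    (@En.n l9155 (nat_lit 5643) (nat_lit 0) (nat_lit 8))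
    (@En.n l61 (nat_lit 5522) (nat_lit 14) (nat_lit 9))
    (@En.i (nat_lit 11764) (nat_lit 2) (nat_lit 13))
    (@En.n l7 (nat_lit 5529) (nat_lit 15) (nat_lit 2))))
  (@Cl.mk (nat_lit 0x2000d0007000a0003000d000c000a0003000600040009000d0006000e0003) (nat_lit 0xa0204a70003b000) (nat_lit 16) Lb.e (@T16.mk En
    (@En.i (nat_lit 3926) (nat_lit 15) (nat_lit 3))
    (@En.i (nat_lit 13630) (nat_lit 0) (nat_lit 14))
    (@En.i (nat_lit 6544) (nat_lit 2) (nat_lit 6))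
    (@En.i (nat_lit 10190) (nat_lit 12) (nat_lit 13))
    (@En.n l899 (nat_lit 5525) (nat_lit 4) (nat_lit 9))
    (@En.i (nat_lit 7033) (nat_lit 5) (nat_lit 4))
    (@En.i (nat_lit 4073) (nat_lit 6) (nat_lit 6))
    (@En.n l1106 (nat_lit 3919) (nat_lit 7) (nat_lit 3))
    (@En.n l619 (nat_lit 10986) (nat_lit 0) (nat_lit 10))
    (@En.n l3866 (nat_lit 7025) (nat_lit 10) (nat_lit 12))
    (@En.i (nat_lit 5522) (nat_lit 11) (nat_lit 13))
    (@En.i (nat_lit 5529) (nat_lit 11) (nat_lit 3))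
    (@En.i (nat_lit 4163) (nat_lit 8) (nat_lit 10))
    (@En.i (nat_lit 5532) (nat_lit 14) (nat_lit 7))
    (@En.i (nat_lit 11761) (nat_lit 2) (nat_lit 13))
    (@En.n l7 (nat_lit 5530) (nat_lit 15) (nat_lit 2))))
  (@Cl.mk (nat_lit 0x300030007000a0008000d000c000800030006000400090008000d000d0008) (nat_lit 0x7199500044502) (nat_lit 16) Lb.e (@T16.mk En
    (@En.n l11413 (nat_lit 5749) (nat_lit 0) (nat_lit 8))
    (@En.n l77 (nat_lit 5532) (nat_lit 3) (nat_lit 13))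
    (@En.i (nat_lit 7619) (nat_lit 11) (nat_lit 13))
    (@En.n l217 (nat_lit 5527) (nat_lit 3) (nat_lit 8))
    (@En.n l899 (nat_lit 5535) (nat_lit 4) (nat_lit 9))
    (@En.n l11294 (nat_lit 7073) (nat_lit 5) (nat_lit 4))
    (@En.i (nat_lit 5452) (nat_lit 12) (nat_lit 6))
    (@En.n l26853 (nat_lit 5534) (nat_lit 7) (nat_lit 3))
    (@En.n l97 (nat_lit 12624) (nat_lit 0) (nat_lit 8))
    (@En.n l1236 (nat_lit 5538) (nat_lit 10) (nat_lit 12))
    (@En.n l11294 (nat_lit 5536) (nat_lit 11) (nat_lit 13))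
    (@En.n l11413 (nat_lit 3628) (nat_lit 12) (nat_lit 8))
    (@En.n l7889 (nat_lit 7194) (nat_lit 8) (nat_lit 10))
    (@En.n l39697 (nat_lit 10321) (nat_lit 5) (nat_lit 7))
    (@En.n l11675 (nat_lit 5533) (nat_lit 13) (nat_lit 3))
    (@En.n l28 (nat_lit 5532) (nat_lit 0) (nat_lit 3))))
  (@Cl.mk (nat_lit 0x20007000a0008000d000c000900030006000400090008000d0007000e0003) (nat_lit 0x7159600042b070) (nat_lit 16) Lb.e (@T16.mk En
    (@En.i (nat_lit 5531) (nat_lit 15) (nat_lit 3))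
    (@En.n l5592 (nat_lit 13858) (nat_lit 0) (nat_lit 14))
    (@En.i (nat_lit 7544) (nat_lit 2) (nat_lit 7))
    (@En.i (nat_lit 7621) (nat_lit 11) (nat_lit 13))
    (@En.n l217 (nat_lit 5529) (nat_lit 4) (nat_lit 8))
    (@En.n l899 (nat_lit 5569) (nat_lit 5) (nat_lit 9))
    (@En.i (nat_lit 7079) (nat_lit 6) (nat_lit 4))
    (@En.i (nat_lit 6005) (nat_lit 7) (nat_lit 6))
    (@En.n l830 (nat_lit 5537) (nat_lit 8) (nat_lit 3))
    (@En.n l619 (nat_lit 7659) (nat_lit 0) (nat_lit 9))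
    (@En.n l3866 (nat_lit 7080) (nat_lit 11) (nat_lit 12))
    (@En.n l20448 (nat_lit 5625) (nat_lit 12) (nat_lit 13))
    (@En.n l9155 (nat_lit 3632) (nat_lit 13) (nat_lit 8))
    (@En.n l7889 (nat_lit 7195) (nat_lit 8) (nat_lit 10))
    (@En.n l4172 (nat_lit 10320) (nat_lit 5) (nat_lit 7))
    (@En.n l7 (nat_lit 5532) (nat_lit 15) (nat_lit 2))))
  (@Cl.mk (nat_lit 0x2000900030007000a0008000d000c000700030006000400090008000e000d) (nat_lit 0x1007169000044a6) (nat_lit 16) Lb.e (@T16.mk En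
    (@En.n l25093 (nat_lit 5531) (nat_lit 2) (nat_lit 13))
    (@En.n l2038 (nat_lit 5466) (nat_lit 1) (nat_lit 14))
    (@En.n l3200 (nat_lit 5528) (nat_lit 2) (nat_lit 8))
    (@En.n l24611 (nat_lit 5568) (nat_lit 3) (nat_lit 9))
    (@En.n l3819 (nat_lit 7070) (nat_lit 4) (nat_lit 4))
    (@En.n l8931 (nat_lit 5454) (nat_lit 5) (nat_lit 6))
    (@En.n l50 (nat_lit 5539) (nat_lit 6) (nat_lit 3))
    (@En.n l3200 (nat_lit 11753) (nat_lit 0) (nat_lit 7))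
    (@En.n l10625 (nat_lit 7075) (nat_lit 9) (nat_lit 12))
    (@En.n l3819 (nat_lit 5624) (nat_lit 10) (nat_lit 13))
    (@En.i (nat_lit 3634) (nat_lit 11) (nat_lit 8))
    (@En.i (nat_lit 7196) (nat_lit 8) (nat_lit 10))
    (@En.i (nat_lit 7286) (nat_lit 13) (nat_lit 7))
    (@En.n l25094 (nat_lit 5531) (nat_lit 14) (nat_lit 3))
    (@En.i (nat_lit 4934) (nat_lit 0) (nat_lit 9))
    (@En.n l11 (nat_lit 5533) (nat_lit 15) (nat_lit 2))))
  (@Cl.mk (nat_lit 0x300030007000a0008000d0007000d00030006000300090008000d000d0009) (nat_lit 0x7130200052682) (nat_lit 16) Lb.e (@T16.mk En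
    (@En.i (nat_lit 6582) (nat_lit 0) (nat_lit 9))
    (@En.n l5013 (nat_lit 5537) (nat_lit 3) (nat_lit 13))
    (@En.n l5011 (nat_lit 7616) (nat_lit 11) (nat_lit 13))
    (@En.n l32698 (nat_lit 3922) (nat_lit 3) (nat_lit 8))
    (@En.n l24340 (nat_lit 5556) (nat_lit 4) (nat_lit 9))
    (@En.n l28693 (nat_lit 5538) (nat_lit 5) (nat_lit 3))
    (@En.n l5011 (nat_lit 1963) (nat_lit 12) (nat_lit 6))
    (@En.n l25094 (nat_lit 5531) (nat_lit 7) (nat_lit 3))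
    (@En.n l5011 (nat_lit 3906) (nat_lit 0) (nat_lit 13))
    (@En.n l2678 (nat_lit 9164) (nat_lit 3) (nat_lit 7))
    (@En.n l899 (nat_lit 5562) (nat_lit 11) (nat_lit 13))
    (@En.i (nat_lit 3624) (nat_lit 12) (nat_lit 8))
    (@En.n l5011 (nat_lit 7197) (nat_lit 8) (nat_lit 10))
    (@En.n l810 (nat_lit 10324) (nat_lit 5) (nat_lit 7))
    (@En.n l28 (nat_lit 5539) (nat_lit 13) (nat_lit 3))
    (@En.n l5012 (nat_lit 5537) (nat_lit 0) (nat_lit 3))))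
  (@Cl.mk (nat_lit 0x300030007000c000a0009000d000400090003000600090007000d000d0007) (nat_lit 0x8828000030230) (nat_lit 16) Lb.e (@T16.mk En
    (@En.n l7234 (nat_lit 6529) (nat_lit 0) (nat_lit 7))
    (@En.n l644 (nat_lit 5569) (nat_lit 3) (nat_lit 13))
    (@En.n l1353 (nat_lit 8243) (nat_lit 12) (nat_lit 13))
    (@En.n l25719 (nat_lit 5570) (nat_lit 3) (nat_lit 7))
    (@En.i (nat_lit 4859) (nat_lit 9) (nat_lit 9))
    (@En.n l39894 (nat_lit 6003) (nat_lit 12) (nat_lit 6))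
    (@En.n l39895 (nat_lit 5556) (nat_lit 6) (nat_lit 3))
    (@En.n l3608 (nat_lit 11755) (nat_lit 0) (nat_lit 9))
    (@En.n l25064 (nat_lit 7077) (nat_lit 8) (nat_lit 4))
    (@En.n l7234 (nat_lit 5406) (nat_lit 10) (nat_lit 13))
    (@En.n l39896 (nat_lit 5402) (nat_lit 11) (nat_lit 9))
    (@En.n l2642 (nat_lit 5531) (nat_lit 12) (nat_lit 10))
    (@En.n l25722 (nat_lit 4587) (nat_lit 13) (nat_lit 12))
    (@En.n l25953 (nat_lit 12473) (nat_lit 6) (nat_lit 7))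
    (@En.n l31882 (nat_lit 5568) (nat_lit 13) (nat_lit 3))
    (@En.n l7 (nat_lit 5569) (nat_lit 0) (nat_lit 3))))
noncomputable def a346 : T16 Cl := @T16.mk Cl
  (@Cl.mk (nat_lit 0x300030007000a000d000b00070003000c0006000500090004000d000d0009) (nat_lit 0x68800300509a0) (nat_lit 16) Lb.e (@T16.mk En
    (@En.i (nat_lit 6531) (nat_lit 0) (nat_lit 9))
    (@En.n l25241 (nat_lit 5625) (nat_lit 3) (nat_lit 13))
    (@En.i (nat_lit 8247) (nat_lit 2) (nat_lit 13))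
    (@En.n l28251 (nat_lit 3257) (nat_lit 3) (nat_lit 4))
    (@En.n l16834 (nat_lit 5406) (nat_lit 4) (nat_lit 9))
    (@En.i (nat_lit 5409) (nat_lit 5) (nat_lit 5))
    (@En.n l25087 (nat_lit 5531) (nat_lit 6) (nat_lit 6))
    (@En.n l32935 (nat_lit 5626) (nat_lit 8) (nat_lit 12))
    (@En.n l3536 (nat_lit 5562) (nat_lit 8) (nat_lit 3))
    (@En.n l1865 (nat_lit 12625) (nat_lit 0) (nat_lit 7))
    (@En.n l39893 (nat_lit 7249) (nat_lit 11) (nat_lit 11))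
    (@En.n l3866 (nat_lit 5990) (nat_lit 5) (nat_lit 13))
    (@En.n l6784 (nat_lit 4810) (nat_lit 8) (nat_lit 10))
    (@En.n l5368 (nat_lit 10317) (nat_lit 14) (nat_lit 7))
    (@En.n l18 (nat_lit 5624) (nat_lit 13) (nat_lit 3))
    (@En.n l16425 (nat_lit 5625) (nat_lit 0) (nat_lit 3))))
  (@Cl.mk (nat_lit 0x20007000a0008000d0008000d00030006000300090008000d0008000e0003) (nat_lit 0x71362000527180) (nat_lit 16) Lb.e (@T16.mk En
    (@En.n l5572 (nat_lit 5534) (nat_lit 15) (nat_lit 3))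
    (@En.n l5378 (nat_lit 13862) (nat_lit 0) (nat_lit 14))
    (@En.i (nat_lit 5290) (nat_lit 2) (nat_lit 8))
    (@En.i (nat_lit 7618) (nat_lit 11) (nat_lit 13))
    (@En.n l6393 (nat_lit 3921) (nat_lit 4) (nat_lit 8))
    (@En.n l2611 (nat_lit 5557) (nat_lit 5) (nat_lit 9))
    (@En.n l12871 (nat_lit 7080) (nat_lit 6) (nat_lit 3))
    (@En.i (nat_lit 1962) (nat_lit 7) (nat_lit 6))
    (@En.n l2604 (nat_lit 5532) (nat_lit 8) (nat_lit 3))
    (@En.i (nat_lit 2663) (nat_lit 0) (nat_lit 13))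
    (@En.n l2605 (nat_lit 10879) (nat_lit 11) (nat_lit 8))
    (@En.i (nat_lit 5563) (nat_lit 12) (nat_lit 13))
    (@En.n l22162 (nat_lit 3625) (nat_lit 13) (nat_lit 8))
    (@En.i (nat_lit 7198) (nat_lit 8) (nat_lit 10))
    (@En.n l5381 (nat_lit 10326) (nat_lit 5) (nat_lit 7))
    (@En.n l50 (nat_lit 5537) (nat_lit 15) (nat_lit 2))))
  (@Cl.mk (nat_lit 0x300030007000b0008000c0007000d00050004000300090008000d000d0009) (nat_lit 0x180200033682) (nat_lit 16) Lb.e (@T16.mk En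
    (@En.n l22708 (nat_lit 6583) (nat_lit 0) (nat_lit 9))
    (@En.n l619 (nat_lit 7080) (nat_lit 3) (nat_lit 13))
    (@En.i (nat_lit 7613) (nat_lit 13) (nat_lit 13))
    (@En.n l77 (nat_lit 3929) (nat_lit 3) (nat_lit 8))
    (@En.n l24950 (nat_lit 7119) (nat_lit 4) (nat_lit 9))
    (@En.n l40694 (nat_lit 5534) (nat_lit 5) (nat_lit 3))
    (@En.n l18 (nat_lit 7068) (nat_lit 0) (nat_lit 4))
    (@En.n l37008 (nat_lit 5556) (nat_lit 7) (nat_lit 5))
    (@En.i (nat_lit 667) (nat_lit 9) (nat_lit 13))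
    (@En.n l61 (nat_lit 9165) (nat_lit 3) (nat_lit 7))
    (@En.n l24385 (nat_lit 5565) (nat_lit 11) (nat_lit 12))
    (@En.n l30671 (nat_lit 3627) (nat_lit 12) (nat_lit 8))
    (@En.n l33042 (nat_lit 7202) (nat_lit 13) (nat_lit 11))
    (@En.n l40695 (nat_lit 10327) (nat_lit 14) (nat_lit 7))
    (@En.n l40286 (nat_lit 7075) (nat_lit 13) (nat_lit 3))
    (@En.n l152 (nat_lit 7080) (nat_lit 0) (nat_lit 3))))
  (@Cl.mk (nat_lit 0x2000a00030007000a0008000d0006000d00030006000300090008000e000d) (nat_lit 0x200716030005517) (nat_lit 16) Lb.e (@T16.mk En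
    (@En.n l1578 (nat_lit 5534) (nat_lit 2) (nat_lit 13))
    (@En.n l2038 (nat_lit 5469) (nat_lit 1) (nat_lit 14))
    (@En.n l3261 (nat_lit 3925) (nat_lit 2) (nat_lit 8))
    (@En.n l24340 (nat_lit 5558) (nat_lit 3) (nat_lit 9))
    (@En.n l5801 (nat_lit 7075) (nat_lit 4) (nat_lit 3))
    (@En.i (nat_lit 2071) (nat_lit 12) (nat_lit 6))
    (@En.i (nat_lit 5533) (nat_lit 6) (nat_lit 3))
    (@En.i (nat_lit 3900) (nat_lit 0) (nat_lit 13))
    (@En.i (nat_lit 9162) (nat_lit 8) (nat_lit 6))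
    (@En.n l899 (nat_lit 5564) (nat_lit 10) (nat_lit 13))
    (@En.i (nat_lit 3626) (nat_lit 11) (nat_lit 8))
    (@En.i (nat_lit 7199) (nat_lit 8) (nat_lit 10))
    (@En.i (nat_lit 7291) (nat_lit 13) (nat_lit 7))
    (@En.i (nat_lit 5534) (nat_lit 14) (nat_lit 3))
    (@En.i (nat_lit 6636) (nat_lit 0) (nat_lit 10))
    (@En.n l11 (nat_lit 5539) (nat_lit 15) (nat_lit 2))))
  (@Cl.mk (nat_lit 0x20005000d000d000a000300030008000d000c00060003000b0004000e0008) (nat_lit 0x120006230030b4) (nat_lit 16) Lb.e (@T16.mk En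
    (@En.i (nat_lit 3628) (nat_lit 5) (nat_lit 8))
    (@En.i (nat_lit 5544) (nat_lit 1) (nat_lit 14))
    (@En.n l4353 (nat_lit 3996) (nat_lit 2) (nat_lit 4))
    (@En.n l250 (nat_lit 5504) (nat_lit 3) (nat_lit 11))
    (@En.n l50 (nat_lit 3629) (nat_lit 4) (nat_lit 3))
    (@En.n l2678 (nat_lit 10095) (nat_lit 5) (nat_lit 6))
    (@En.n l217 (nat_lit 5548) (nat_lit 7) (nat_lit 12))
    (@En.n l3815 (nat_lit 3853) (nat_lit 8) (nat_lit 13))
    (@En.n l810 (nat_lit 10256) (nat_lit 9) (nat_lit 8))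
    (@En.n l28 (nat_lit 5541) (nat_lit 9) (nat_lit 3))
    (@En.i (nat_lit 5507) (nat_lit 10) (nat_lit 3))
    (@En.i (nat_lit 7733) (nat_lit 12) (nat_lit 10))
    (@En.n l1578 (nat_lit 5507) (nat_lit 13) (nat_lit 13))
    (@En.n l3939 (nat_lit 4707) (nat_lit 14) (nat_lit 13))
    (@En.i (nat_lit 4807) (nat_lit 13) (nat_lit 5))
    (@En.n l3 (nat_lit 5540) (nat_lit 15) (nat_lit 2))))
  (@Cl.mk (nat_lit 0x20005000e000d0002000b00030008000d000c00050003000b0004000e0008) (nat_lit 0x320206620020a4) (nat_lit 16) Lb.e (@T16.mk En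
    (@En.i (nat_lit 3634) (nat_lit 4) (nat_lit 8))
    (@En.i (nat_lit 5543) (nat_lit 1) (nat_lit 14))
    (@En.n l50 (nat_lit 3994) (nat_lit 2) (nat_lit 4))
    (@En.n l250 (nat_lit 5667) (nat_lit 3) (nat_lit 11))
    (@En.n l50 (nat_lit 5542) (nat_lit 4) (nat_lit 3))
    (@En.i (nat_lit 10099) (nat_lit 5) (nat_lit 5))
    (@En.n l217 (nat_lit 5547) (nat_lit 7) (nat_lit 12))
    (@En.n l2544 (nat_lit 3854) (nat_lit 8) (nat_lit 13))
    (@En.i (nat_lit 8681) (nat_lit 13) (nat_lit 8))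
    (@En.i (nat_lit 5540) (nat_lit 9) (nat_lit 3))
    (@En.i (nat_lit 5237) (nat_lit 11) (nat_lit 11))
    (@En.n l11 (nat_lit 5541) (nat_lit 11) (nat_lit 2))
    (@En.n l1578 (nat_lit 5540) (nat_lit 13) (nat_lit 13))
    (@En.i (nat_lit 3447) (nat_lit 1) (nat_lit 14))
    (@En.i (nat_lit 4809) (nat_lit 13) (nat_lit 5))
    (@En.n l3 (nat_lit 5541) (nat_lit 15) (nat_lit 2))))
  (@Cl.mk (nat_lit 0x20005000e000d0002000c00030008000d0004000d0003000b0003000e0008) (nat_lit 0x310006402010a5) (nat_lit 16) Lb.e (@T16.mk En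
    (@En.i (nat_lit 3626) (nat_lit 4) (nat_lit 8))
    (@En.i (nat_lit 5546) (nat_lit 1) (nat_lit 14))
    (@En.i (nat_lit 5547) (nat_lit 2) (nat_lit 3))
    (@En.i (nat_lit 3231) (nat_lit 3) (nat_lit 11))
    (@En.i (nat_lit 5541) (nat_lit 4) (nat_lit 3))
    (@En.i (nat_lit 3980) (nat_lit 6) (nat_lit 13))
    (@En.i (nat_lit 10339) (nat_lit 6) (nat_lit 4))
    (@En.n l2544 (nat_lit 3855) (nat_lit 8) (nat_lit 13))
    (@En.i (nat_lit 8687) (nat_lit 13) (nat_lit 8))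
    (@En.i (nat_lit 3629) (nat_lit 9) (nat_lit 3))
    (@En.i (nat_lit 7782) (nat_lit 11) (nat_lit 12))
    (@En.n l11 (nat_lit 5542) (nat_lit 11) (nat_lit 2))
    (@En.n l1578 (nat_lit 3629) (nat_lit 13) (nat_lit 13))
    (@En.i (nat_lit 3453) (nat_lit 1) (nat_lit 14))
    (@En.i (nat_lit 7500) (nat_lit 13) (nat_lit 5))
    (@En.n l3 (nat_lit 5542) (nat_lit 15) (nat_lit 2))))
  (@Cl.mk (nat_lit 0x200070005000e000d0002000b00030009000d000900050003000b000e0007) (nat_lit 0x3002066600590) (nat_lit 16) Lb.e (@T16.mk En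
    (@En.n l24652 (nat_lit 5640) (nat_lit 5) (nat_lit 7))
    (@En.n l3324 (nat_lit 4149) (nat_lit 7) (nat_lit 14))
    (@En.n l250 (nat_lit 5669) (nat_lit 2) (nat_lit 11))
    (@En.n l50 (nat_lit 5546) (nat_lit 3) (nat_lit 3))
    (@En.n l11000 (nat_lit 12280) (nat_lit 4) (nat_lit 5))
    (@En.i (nat_lit 5822) (nat_lit 5) (nat_lit 9))
    (@En.n l2544 (nat_lit 3883) (nat_lit 7) (nat_lit 13))
    (@En.i (nat_lit 8152) (nat_lit 13) (nat_lit 9))
    (@En.i (nat_lit 5544) (nat_lit 8) (nat_lit 3))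
    (@En.i (nat_lit 5238) (nat_lit 10) (nat_lit 11))
    (@En.n l11 (nat_lit 5543) (nat_lit 10) (nat_lit 2))
    (@En.n l1578 (nat_lit 5544) (nat_lit 12) (nat_lit 13))
    (@En.n l8769 (nat_lit 11228) (nat_lit 13) (nat_lit 14))
    (@En.n l17 (nat_lit 5541) (nat_lit 14) (nat_lit 5))
    (@En.i (nat_lit 4204) (nat_lit 3) (nat_lit 7))
    (@En.n l3 (nat_lit 5543) (nat_lit 15) (nat_lit 2))))
  (@Cl.mk (nat_lit 0x200070005000d000d000a000300030009000d000900060003000b000e0007) (nat_lit 0xb00007b6003a0) (nat_lit 16) Lb.e (@T16.mk En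
    (@En.n l23630 (nat_lit 3257) (nat_lit 6) (nat_lit 7))
    (@En.n l8845 (nat_lit 4150) (nat_lit 4) (nat_lit 14))
    (@En.n l20983 (nat_lit 3251) (nat_lit 2) (nat_lit 11))
    (@En.n l50 (nat_lit 5545) (nat_lit 3) (nat_lit 3))
    (@En.n l23631 (nat_lit 10098) (nat_lit 4) (nat_lit 6))
    (@En.n l23632 (nat_lit 4139) (nat_lit 5) (nat_lit 9))
    (@En.n l3815 (nat_lit 3881) (nat_lit 7) (nat_lit 13))
    (@En.n l810 (nat_lit 10895) (nat_lit 8) (nat_lit 9))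
    (@En.n l28 (nat_lit 5543) (nat_lit 8) (nat_lit 3))
    (@En.n l5293 (nat_lit 5549) (nat_lit 9) (nat_lit 3))
    (@En.i (nat_lit 7734) (nat_lit 11) (nat_lit 10))
    (@En.n l23633 (nat_lit 5549) (nat_lit 12) (nat_lit 13))
    (@En.n l5556 (nat_lit 11234) (nat_lit 13) (nat_lit 13))
    (@En.n l17 (nat_lit 5540) (nat_lit 14) (nat_lit 5))
    (@En.i (nat_lit 4205) (nat_lit 4) (nat_lit 7))
    (@En.n l3 (nat_lit 5544) (nat_lit 15) (nat_lit 2))))
  (@Cl.mk (nat_lit 0x200060005000d000d000b000300030009000d0005000a0003000b000e0007) (nat_lit 0x500610201a0) (nat_lit 16) Lb.e (@T16.mk En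
    (@En.n l10746 (nat_lit 5553) (nat_lit 6) (nat_lit 7))
    (@En.n l8845 (nat_lit 5145) (nat_lit 4) (nat_lit 14))
    (@En.i (nat_lit 3232) (nat_lit 2) (nat_lit 11))
    (@En.i (nat_lit 5544) (nat_lit 3) (nat_lit 3))
    (@En.n l7136 (nat_lit 1167) (nat_lit 4) (nat_lit 10))
    (@En.n l2678 (nat_lit 11128) (nat_lit 5) (nat_lit 5))
    (@En.n l3815 (nat_lit 3070) (nat_lit 7) (nat_lit 13))
    (@En.n l810 (nat_lit 10892) (nat_lit 8) (nat_lit 9))
    (@En.n l28 (nat_lit 5546) (nat_lit 8) (nat_lit 3))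
    (@En.n l745 (nat_lit 5551) (nat_lit 9) (nat_lit 3))
    (@En.i (nat_lit 8029) (nat_lit 11) (nat_lit 11))
    (@En.n l30701 (nat_lit 5551) (nat_lit 12) (nat_lit 13))
    (@En.i (nat_lit 11236) (nat_lit 13) (nat_lit 13))
    (@En.n l17 (nat_lit 3629) (nat_lit 14) (nat_lit 5))
    (@En.i (nat_lit 6985) (nat_lit 4) (nat_lit 6))
    (@En.n l3 (nat_lit 5545) (nat_lit 15) (nat_lit 2))))
  (@Cl.mk (nat_lit 0x200060005000e000d0002000c00030009000d0004000a0003000b000e0007) (nat_lit 0x5100069020190) (nat_lit 16) Lb.e (@T16.mk En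
    (@En.n l5646 (nat_lit 5653) (nat_lit 5) (nat_lit 7))
    (@En.i (nat_lit 5146) (nat_lit 7) (nat_lit 14))
    (@En.i (nat_lit 3234) (nat_lit 2) (nat_lit 11))
    (@En.i (nat_lit 5543) (nat_lit 3) (nat_lit 3))
    (@En.i (nat_lit 3030) (nat_lit 10) (nat_lit 10))
    (@En.i (nat_lit 10340) (nat_lit 5) (nat_lit 4))
    (@En.n l2544 (nat_lit 4015) (nat_lit 7) (nat_lit 13))
    (@En.i (nat_lit 8689) (nat_lit 13) (nat_lit 9))
    (@En.i (nat_lit 5545) (nat_lit 8) (nat_lit 3))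
    (@En.i (nat_lit 7784) (nat_lit 10) (nat_lit 12))
    (@En.n l11 (nat_lit 5546) (nat_lit 10) (nat_lit 2))
    (@En.n l1578 (nat_lit 5545) (nat_lit 12) (nat_lit 13))
    (@En.i (nat_lit 11230) (nat_lit 13) (nat_lit 14))
    (@En.n l17 (nat_lit 5542) (nat_lit 14) (nat_lit 5))
    (@En.i (nat_lit 6986) (nat_lit 3) (nat_lit 6))
    (@En.n l3 (nat_lit 5546) (nat_lit 15) (nat_lit 2))))
  (@Cl.mk (nat_lit 0x20006000e000d0002000c00030008000c0004000d000a00040003000e0008) (nat_lit 0x320006101300a5) (nat_lit 16) Lb.e (@T16.mk En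
    (@En.i (nat_lit 3635) (nat_lit 4) (nat_lit 8))
    (@En.i (nat_lit 5143) (nat_lit 1) (nat_lit 14))
    (@En.n l18 (nat_lit 5542) (nat_lit 2) (nat_lit 3))
    (@En.n l7882 (nat_lit 3993) (nat_lit 3) (nat_lit 4))
    (@En.n l61 (nat_lit 5546) (nat_lit 4) (nat_lit 10))
    (@En.i (nat_lit 3103) (nat_lit 6) (nat_lit 13))
    (@En.i (nat_lit 10341) (nat_lit 6) (nat_lit 4))
    (@En.n l2544 (nat_lit 3085) (nat_lit 8) (nat_lit 12))
    (@En.i (nat_lit 8688) (nat_lit 13) (nat_lit 8))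
    (@En.i (nat_lit 5548) (nat_lit 9) (nat_lit 3))
    (@En.i (nat_lit 7783) (nat_lit 11) (nat_lit 12))
    (@En.n l11 (nat_lit 5547) (nat_lit 11) (nat_lit 2))
    (@En.n l1578 (nat_lit 5548) (nat_lit 13) (nat_lit 13))
    (@En.n l2199 (nat_lit 3449) (nat_lit 1) (nat_lit 14))
    (@En.i (nat_lit 7223) (nat_lit 2) (nat_lit 6))
    (@En.n l3 (nat_lit 5547) (nat_lit 15) (nat_lit 2))))
  (@Cl.mk (nat_lit 0x20006000d000d000b000300030008000c0005000d000a00040003000e0008) (nat_lit 0x120006201300b5) (nat_lit 16) Lb.e (@T16.mk En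
    (@En.i (nat_lit 3627) (nat_lit 5) (nat_lit 8))
    (@En.i (nat_lit 5142) (nat_lit 1) (nat_lit 14))
    (@En.n l18 (nat_lit 3629) (nat_lit 2) (nat_lit 3))
    (@En.n l4353 (nat_lit 3992) (nat_lit 3) (nat_lit 4))
    (@En.n l61 (nat_lit 5545) (nat_lit 4) (nat_lit 10))
    (@En.n l8820 (nat_lit 3102) (nat_lit 6) (nat_lit 13))
    (@En.n l4353 (nat_lit 11126) (nat_lit 6) (nat_lit 5))
    (@En.n l3815 (nat_lit 3081) (nat_lit 8) (nat_lit 12))
    (@En.n l810 (nat_lit 10883) (nat_lit 9) (nat_lit 8))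
    (@En.n l28 (nat_lit 5547) (nat_lit 9) (nat_lit 3))
    (@En.n l5224 (nat_lit 5552) (nat_lit 10) (nat_lit 3))
    (@En.i (nat_lit 8028) (nat_lit 12) (nat_lit 11))
    (@En.n l31453 (nat_lit 5552) (nat_lit 13) (nat_lit 13))
    (@En.n l9962 (nat_lit 4709) (nat_lit 14) (nat_lit 13))
    (@En.i (nat_lit 7222) (nat_lit 3) (nat_lit 6))
    (@En.n l3 (nat_lit 5548) (nat_lit 15) (nat_lit 2))))
  (@Cl.mk (nat_lit 0x200070005000d0009000e000300020009000d000900070003000b000e0007) (nat_lit 0xb080061700290) (nat_lit 16) Lb.e (@T16.mk En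
    (@En.n l3608 (nat_lit 5638) (nat_lit 7) (nat_lit 7))
    (@En.n l10290 (nat_lit 4162) (nat_lit 9) (nat_lit 14))
    (@En.n l10291 (nat_lit 5505) (nat_lit 2) (nat_lit 11))
    (@En.n l10292 (nat_lit 5551) (nat_lit 3) (nat_lit 3))
    (@En.n l10293 (nat_lit 12834) (nat_lit 12) (nat_lit 7))
    (@En.n l10294 (nat_lit 5820) (nat_lit 5) (nat_lit 9))
    (@En.i (nat_lit 3882) (nat_lit 7) (nat_lit 13))
    (@En.n l10295 (nat_lit 10894) (nat_lit 8) (nat_lit 9))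
    (@En.n l11 (nat_lit 5549) (nat_lit 8) (nat_lit 2))
    (@En.n l10296 (nat_lit 5544) (nat_lit 9) (nat_lit 3))
    (@En.n l10297 (nat_lit 13931) (nat_lit 0) (nat_lit 14))
    (@En.n l10298 (nat_lit 7184) (nat_lit 12) (nat_lit 9))
    (@En.n l9901 (nat_lit 11238) (nat_lit 13) (nat_lit 13))
    (@En.n l3611 (nat_lit 5507) (nat_lit 14) (nat_lit 5))
    (@En.n l10299 (nat_lit 4207) (nat_lit 5) (nat_lit 7))
    (@En.n l17 (nat_lit 5549) (nat_lit 15) (nat_lit 2))))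
  (@Cl.mk (nat_lit 0x20005000d000a000e000300020008000d0006000d0003000b0003000e0008) (nat_lit 0xb0a006102010a5) (nat_lit 16) Lb.e (@T16.mk En
    (@En.n l22214 (nat_lit 3625) (nat_lit 6) (nat_lit 8))
    (@En.n l745 (nat_lit 5551) (nat_lit 1) (nat_lit 14))
    (@En.n l5224 (nat_lit 5552) (nat_lit 2) (nat_lit 3))
    (@En.n l4011 (nat_lit 3235) (nat_lit 3) (nat_lit 11))
    (@En.i (nat_lit 5507) (nat_lit 4) (nat_lit 3))
    (@En.n l3706 (nat_lit 3979) (nat_lit 6) (nat_lit 13))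
    (@En.n l4412 (nat_lit 11129) (nat_lit 6) (nat_lit 6))
    (@En.n l10162 (nat_lit 3849) (nat_lit 8) (nat_lit 13))
    (@En.n l810 (nat_lit 10888) (nat_lit 9) (nat_lit 8))
    (@En.n l28 (nat_lit 5550) (nat_lit 9) (nat_lit 2))
    (@En.n l11 (nat_lit 3629) (nat_lit 10) (nat_lit 3))
    (@En.n l10171 (nat_lit 13934) (nat_lit 0) (nat_lit 14))
    (@En.i (nat_lit 8159) (nat_lit 13) (nat_lit 10))
    (@En.n l5224 (nat_lit 4711) (nat_lit 14) (nat_lit 13))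
    (@En.n l3706 (nat_lit 4806) (nat_lit 4) (nat_lit 5))
    (@En.n l3 (nat_lit 5550) (nat_lit 15) (nat_lit 2))))
  (@Cl.mk (nat_lit 0x200060005000d000a000e000300020009000d0006000a0003000b000e0007) (nat_lit 0xb0a0061020190) (nat_lit 16) Lb.e (@T16.mk En
    (@En.n l1769 (nat_lit 5652) (nat_lit 7) (nat_lit 7))
    (@En.n l7141 (nat_lit 5147) (nat_lit 9) (nat_lit 14))
    (@En.n l7142 (nat_lit 3236) (nat_lit 2) (nat_lit 11))
    (@En.n l23372 (nat_lit 5549) (nat_lit 3) (nat_lit 3))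
    (@En.i (nat_lit 4773) (nat_lit 4) (nat_lit 10))
    (@En.n l23373 (nat_lit 11130) (nat_lit 5) (nat_lit 6))
    (@En.n l3062 (nat_lit 3069) (nat_lit 7) (nat_lit 13))
    (@En.n l17666 (nat_lit 10891) (nat_lit 8) (nat_lit 9))
    (@En.n l17 (nat_lit 5551) (nat_lit 8) (nat_lit 2))
    (@En.n l17634 (nat_lit 5545) (nat_lit 9) (nat_lit 3))
    (@En.n l21433 (nat_lit 13933) (nat_lit 0) (nat_lit 14))
    (@En.n l23374 (nat_lit 8160) (nat_lit 12) (nat_lit 10))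
    (@En.n l17614 (nat_lit 11239) (nat_lit 13) (nat_lit 13))
    (@En.n l23375 (nat_lit 5550) (nat_lit 14) (nat_lit 5))
    (@En.i (nat_lit 6989) (nat_lit 5) (nat_lit 6))
    (@En.n l3 (nat_lit 5551) (nat_lit 15) (nat_lit 2))))
noncomputable def a347 : T16 Cl := @T16.mk Cl
  (@Cl.mk (nat_lit 0x20006000d000a000e000300020008000c0006000d000a00040003000e0008) (nat_lit 0x10a006301300b5) (nat_lit 16) Lb.e (@T16.mk En
    (@En.n l22604 (nat_lit 3633) (nat_lit 6) (nat_lit 8))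
    (@En.n l8012 (nat_lit 5144) (nat_lit 1) (nat_lit 14))
    (@En.n l9861 (nat_lit 5550) (nat_lit 2) (nat_lit 3))
    (@En.i (nat_lit 3999) (nat_lit 9) (nat_lit 4))
    (@En.n l22605 (nat_lit 5551) (nat_lit 4) (nat_lit 10))
    (@En.n l8012 (nat_lit 3974) (nat_lit 6) (nat_lit 13))
    (@En.n l18623 (nat_lit 11131) (nat_lit 6) (nat_lit 6))
    (@En.i (nat_lit 3084) (nat_lit 8) (nat_lit 12))
    (@En.n l8688 (nat_lit 10884) (nat_lit 9) (nat_lit 8))
    (@En.n l11 (nat_lit 5552) (nat_lit 9) (nat_lit 2))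
    (@En.n l22606 (nat_lit 5548) (nat_lit 10) (nat_lit 3))
    (@En.n l2038 (nat_lit 13937) (nat_lit 0) (nat_lit 14))
    (@En.n l17614 (nat_lit 8158) (nat_lit 13) (nat_lit 10))
    (@En.i (nat_lit 4708) (nat_lit 14) (nat_lit 13))
    (@En.n l22605 (nat_lit 7224) (nat_lit 4) (nat_lit 6))
    (@En.n l17 (nat_lit 5552) (nat_lit 15) (nat_lit 2))))
  (@Cl.mk (nat_lit 0x3000300090009000d0006000b0003000c0007000700050004000d000d000a) (nat_lit 0x77204020000000) (nat_lit 16) Lb.e (@T16.mk En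
    (@En.n l3522 (nat_lit 8032) (nat_lit 0) (nat_lit 10))
    (@En.n l41351 (nat_lit 5652) (nat_lit 3) (nat_lit 13))
    (@En.i (nat_lit 11243) (nat_lit 2) (nat_lit 13))
    (@En.n l32867 (nat_lit 3624) (nat_lit 3) (nat_lit 4))
    (@En.n l41352 (nat_lit 6981) (nat_lit 4) (nat_lit 5))
    (@En.n l32869 (nat_lit 4670) (nat_lit 9) (nat_lit 7))
    (@En.n l32870 (nat_lit 3917) (nat_lit 6) (nat_lit 7))
    (@En.n l27648 (nat_lit 3240) (nat_lit 8) (nat_lit 12))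
    (@En.n l32872 (nat_lit 3257) (nat_lit 8) (nat_lit 3))
    (@En.n l41352 (nat_lit 3694) (nat_lit 0) (nat_lit 11))
    (@En.i (nat_lit 10337) (nat_lit 11) (nat_lit 6))
    (@En.i (nat_lit 5655) (nat_lit 12) (nat_lit 13))
    (@En.n l7423 (nat_lit 5545) (nat_lit 7) (nat_lit 9))
    (@En.n l3522 (nat_lit 6854) (nat_lit 14) (nat_lit 9))
    (@En.n l8258 (nat_lit 5653) (nat_lit 13) (nat_lit 3))
    (@En.n l41353 (nat_lit 5652) (nat_lit 0) (nat_lit 3))))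
  (@Cl.mk (nat_lit 0x2000c0007000b000a0004000d000a0005000300060009000d0006000e0003) (nat_lit 0x503105000035000) (nat_lit 16) Lb.e (@T16.mk En
    (@En.n l1236 (nat_lit 3928) (nat_lit 15) (nat_lit 3))
    (@En.n l1897 (nat_lit 13624) (nat_lit 0) (nat_lit 14))
    (@En.i (nat_lit 6540) (nat_lit 2) (nat_lit 6))
    (@En.i (nat_lit 4330) (nat_lit 13) (nat_lit 13))
    (@En.n l3530 (nat_lit 7192) (nat_lit 9) (nat_lit 9))
    (@En.i (nat_lit 5924) (nat_lit 12) (nat_lit 6))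
    (@En.n l4659 (nat_lit 5525) (nat_lit 6) (nat_lit 3))
    (@En.n l12290 (nat_lit 7012) (nat_lit 0) (nat_lit 5))
    (@En.n l1767 (nat_lit 10874) (nat_lit 9) (nat_lit 10))
    (@En.n l13941 (nat_lit 5510) (nat_lit 10) (nat_lit 13))
    (@En.n l21855 (nat_lit 2963) (nat_lit 10) (nat_lit 4))
    (@En.n l637 (nat_lit 3919) (nat_lit 12) (nat_lit 10))
    (@En.n l12290 (nat_lit 4206) (nat_lit 13) (nat_lit 11))
    (@En.i (nat_lit 5557) (nat_lit 14) (nat_lit 7))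
    (@En.i (nat_lit 11946) (nat_lit 8) (nat_lit 12))
    (@En.n l7 (nat_lit 5554) (nat_lit 15) (nat_lit 2))))
  (@Cl.mk (nat_lit 0x200080003000c0007000b000a0004000d00080005000300060009000e000d) (nat_lit 0x6041080000305) (nat_lit 16) Lb.e (@T16.mk En
    (@En.n l965 (nat_lit 3928) (nat_lit 2) (nat_lit 13))
    (@En.n l1246 (nat_lit 9159) (nat_lit 1) (nat_lit 14))
    (@En.n l25162 (nat_lit 7193) (nat_lit 9) (nat_lit 9))
    (@En.n l8573 (nat_lit 5919) (nat_lit 3) (nat_lit 6))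
    (@En.n l25163 (nat_lit 5524) (nat_lit 4) (nat_lit 3))
    (@En.i (nat_lit 7014) (nat_lit 0) (nat_lit 5))
    (@En.n l11380 (nat_lit 10249) (nat_lit 6) (nat_lit 8))
    (@En.n l25164 (nat_lit 5513) (nat_lit 8) (nat_lit 13))
    (@En.n l617 (nat_lit 2960) (nat_lit 8) (nat_lit 4))
    (@En.n l2399 (nat_lit 3923) (nat_lit 10) (nat_lit 10))
    (@En.i (nat_lit 4202) (nat_lit 11) (nat_lit 11))
    (@En.n l25165 (nat_lit 5558) (nat_lit 12) (nat_lit 7))
    (@En.n l9964 (nat_lit 11002) (nat_lit 13) (nat_lit 12))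
    (@En.n l1246 (nat_lit 3928) (nat_lit 14) (nat_lit 3))
    (@En.n l11456 (nat_lit 6644) (nat_lit 0) (nat_lit 8))
    (@En.n l3 (nat_lit 5555) (nat_lit 15) (nat_lit 2))))
  (@Cl.mk (nat_lit 0x300030007000b000a0009000d000800050003000600090007000d000d0008) (nat_lit 0x4818500040572) (nat_lit 16) Lb.e (@T16.mk En
    (@En.i (nat_lit 6584) (nat_lit 0) (nat_lit 8))
    (@En.n l40557 (nat_lit 5557) (nat_lit 3) (nat_lit 13))
    (@En.n l33174 (nat_lit 7622) (nat_lit 12) (nat_lit 13))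
    (@En.n l40558 (nat_lit 5337) (nat_lit 3) (nat_lit 7))
    (@En.n l40559 (nat_lit 4863) (nat_lit 9) (nat_lit 9))
    (@En.n l20187 (nat_lit 1961) (nat_lit 12) (nat_lit 6))
    (@En.n l40560 (nat_lit 5535) (nat_lit 6) (nat_lit 3))
    (@En.n l18 (nat_lit 6962) (nat_lit 0) (nat_lit 5))
    (@En.n l6081 (nat_lit 9163) (nat_lit 9) (nat_lit 8))
    (@En.n l3 (nat_lit 5559) (nat_lit 10) (nat_lit 13))
    (@En.n l3 (nat_lit 5338) (nat_lit 11) (nat_lit 9))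
    (@En.n l7642 (nat_lit 5534) (nat_lit 12) (nat_lit 10))
    (@En.n l2572 (nat_lit 3662) (nat_lit 13) (nat_lit 11))
    (@En.n l34372 (nat_lit 12476) (nat_lit 6) (nat_lit 7))
    (@En.n l7 (nat_lit 5558) (nat_lit 13) (nat_lit 3))
    (@En.n l23649 (nat_lit 5557) (nat_lit 0) (nat_lit 3))))
  (@Cl.mk (nat_lit 0x20007000b000a0009000d000900050003000600090007000d0007000e0003) (nat_lit 0x28197000406070) (nat_lit 16) Lb.e (@T16.mk En
    (@En.n l35371 (nat_lit 5556) (nat_lit 15) (nat_lit 3))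
    (@En.n l26882 (nat_lit 13861) (nat_lit 0) (nat_lit 14))
    (@En.i (nat_lit 5291) (nat_lit 2) (nat_lit 7))
    (@En.n l8604 (nat_lit 7624) (nat_lit 12) (nat_lit 13))
    (@En.n l14888 (nat_lit 5341) (nat_lit 4) (nat_lit 7))
    (@En.n l3530 (nat_lit 4867) (nat_lit 5) (nat_lit 9))
    (@En.n l13509 (nat_lit 1958) (nat_lit 6) (nat_lit 6))
    (@En.n l4659 (nat_lit 5569) (nat_lit 7) (nat_lit 3))
    (@En.n l25584 (nat_lit 6959) (nat_lit 0) (nat_lit 5))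
    (@En.n l1767 (nat_lit 10752) (nat_lit 10) (nat_lit 9))
    (@En.n l35372 (nat_lit 5561) (nat_lit 11) (nat_lit 13))
    (@En.n l27130 (nat_lit 5340) (nat_lit 12) (nat_lit 9))
    (@En.n l831 (nat_lit 5537) (nat_lit 13) (nat_lit 10))
    (@En.n l25584 (nat_lit 3663) (nat_lit 14) (nat_lit 11))
    (@En.n l16898 (nat_lit 12478) (nat_lit 6) (nat_lit 7))
    (@En.n l7 (nat_lit 5557) (nat_lit 15) (nat_lit 2))))
  (@Cl.mk (nat_lit 0x2000900030007000b000a0009000d000700050003000600090007000e000d) (nat_lit 0x200381700004066) (nat_lit 16) Lb.e (@T16.mk En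
    (@En.n l134 (nat_lit 5556) (nat_lit 2) (nat_lit 13))
    (@En.n l23501 (nat_lit 5464) (nat_lit 1) (nat_lit 14))
    (@En.n l27329 (nat_lit 5342) (nat_lit 2) (nat_lit 7))
    (@En.n l27330 (nat_lit 4866) (nat_lit 3) (nat_lit 9))
    (@En.n l20187 (nat_lit 1964) (nat_lit 4) (nat_lit 6))
    (@En.n l13686 (nat_lit 5568) (nat_lit 5) (nat_lit 3))
    (@En.n l18 (nat_lit 7251) (nat_lit 0) (nat_lit 5))
    (@En.n l6081 (nat_lit 9161) (nat_lit 7) (nat_lit 7))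
    (@En.n l3 (nat_lit 5560) (nat_lit 9) (nat_lit 13))
    (@En.n l3 (nat_lit 5339) (nat_lit 10) (nat_lit 9))
    (@En.n l7642 (nat_lit 5539) (nat_lit 11) (nat_lit 10))
    (@En.n l6392 (nat_lit 4585) (nat_lit 12) (nat_lit 11))
    (@En.i (nat_lit 7293) (nat_lit 13) (nat_lit 7))
    (@En.i (nat_lit 5556) (nat_lit 14) (nat_lit 3))
    (@En.i (nat_lit 2093) (nat_lit 0) (nat_lit 9))
    (@En.n l28 (nat_lit 5558) (nat_lit 15) (nat_lit 2))))
  (@Cl.mk (nat_lit 0x300030007000c000a000d000700040003000d000600090003000d000d0009) (nat_lit 0x6770005050897) (nat_lit 16) Lb.e (@T16.mk En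
    (@En.i (nat_lit 6586) (nat_lit 0) (nat_lit 9))
    (@En.n l134 (nat_lit 5561) (nat_lit 3) (nat_lit 13))
    (@En.i (nat_lit 8253) (nat_lit 2) (nat_lit 13))
    (@En.n l117 (nat_lit 5338) (nat_lit 3) (nat_lit 3))
    (@En.n l2921 (nat_lit 4723) (nat_lit 9) (nat_lit 9))
    (@En.i (nat_lit 5556) (nat_lit 5) (nat_lit 6))
    (@En.i (nat_lit 4184) (nat_lit 7) (nat_lit 13))
    (@En.n l2101 (nat_lit 5406) (nat_lit 7) (nat_lit 3))
    (@En.n l18 (nat_lit 6961) (nat_lit 0) (nat_lit 4))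
    (@En.n l6081 (nat_lit 10266) (nat_lit 0) (nat_lit 7))
    (@En.i (nat_lit 3577) (nat_lit 5) (nat_lit 13))
    (@En.n l61 (nat_lit 5562) (nat_lit 12) (nat_lit 10))
    (@En.n l2572 (nat_lit 3659) (nat_lit 13) (nat_lit 12))
    (@En.n l564 (nat_lit 8616) (nat_lit 14) (nat_lit 7))
    (@En.n l7 (nat_lit 5560) (nat_lit 13) (nat_lit 3))
    (@En.i (nat_lit 5561) (nat_lit 0) (nat_lit 3))))
  (@Cl.mk (nat_lit 0x2000a00030007000c000a000d000600040003000d000600090003000e000d) (nat_lit 0x200376000505019) (nat_lit 16) Lb.e (@T16.mk En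
    (@En.n l134 (nat_lit 5559) (nat_lit 2) (nat_lit 13))
    (@En.i (nat_lit 5485) (nat_lit 1) (nat_lit 14))
    (@En.n l117 (nat_lit 5339) (nat_lit 2) (nat_lit 3))
    (@En.n l2921 (nat_lit 4725) (nat_lit 3) (nat_lit 9))
    (@En.i (nat_lit 5558) (nat_lit 4) (nat_lit 6))
    (@En.i (nat_lit 4185) (nat_lit 6) (nat_lit 13))
    (@En.n l2101 (nat_lit 5410) (nat_lit 6) (nat_lit 3))
    (@En.n l18 (nat_lit 6966) (nat_lit 7) (nat_lit 4))
    (@En.n l6081 (nat_lit 10331) (nat_lit 8) (nat_lit 6))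
    (@En.i (nat_lit 3569) (nat_lit 5) (nat_lit 13))
    (@En.n l61 (nat_lit 5564) (nat_lit 11) (nat_lit 10))
    (@En.n l6392 (nat_lit 4573) (nat_lit 12) (nat_lit 12))
    (@En.i (nat_lit 4348) (nat_lit 13) (nat_lit 7))
    (@En.i (nat_lit 5559) (nat_lit 14) (nat_lit 3))
    (@En.i (nat_lit 6554) (nat_lit 0) (nat_lit 10))
    (@En.n l28 (nat_lit 5560) (nat_lit 15) (nat_lit 2))))
  (@Cl.mk (nat_lit 0x20007000c000a000d000800040003000d000600090003000d0008000e0003) (nat_lit 0x67860040508180) (nat_lit 16) Lb.e (@T16.mk En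
    (@En.n l28 (nat_lit 5559) (nat_lit 15) (nat_lit 3))
    (@En.n l16041 (nat_lit 13863) (nat_lit 0) (nat_lit 14))
    (@En.n l4019 (nat_lit 5293) (nat_lit 2) (nat_lit 8))
    (@En.n l23647 (nat_lit 8255) (nat_lit 2) (nat_lit 13))
    (@En.n l23648 (nat_lit 5340) (nat_lit 4) (nat_lit 3))
    (@En.n l16041 (nat_lit 4724) (nat_lit 5) (nat_lit 9))
    (@En.n l23649 (nat_lit 5557) (nat_lit 6) (nat_lit 6))
    (@En.n l10889 (nat_lit 4186) (nat_lit 8) (nat_lit 13))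
    (@En.n l10892 (nat_lit 5412) (nat_lit 8) (nat_lit 3))
    (@En.n l18 (nat_lit 6960) (nat_lit 9) (nat_lit 4))
    (@En.n l10893 (nat_lit 10261) (nat_lit 11) (nat_lit 8))
    (@En.i (nat_lit 4111) (nat_lit 12) (nat_lit 13))
    (@En.n l23650 (nat_lit 5563) (nat_lit 13) (nat_lit 10))
    (@En.n l23651 (nat_lit 3660) (nat_lit 14) (nat_lit 12))
    (@En.n l564 (nat_lit 8615) (nat_lit 14) (nat_lit 7))
    (@En.n l7 (nat_lit 5561) (nat_lit 15) (nat_lit 2))))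
  (@Cl.mk (nat_lit 0x300030007000a000d0006000c0003000c0006000400090004000d000d000a) (nat_lit 0x620a0500609a2) (nat_lit 16) Lb.e (@T16.mk En
    (@En.i (nat_lit 6585) (nat_lit 0) (nat_lit 10))
    (@En.n l9311 (nat_lit 5563) (nat_lit 3) (nat_lit 13))
    (@En.n l3260 (nat_lit 12149) (nat_lit 2) (nat_lit 13))
    (@En.n l4018 (nat_lit 5553) (nat_lit 3) (nat_lit 4))
    (@En.n l617 (nat_lit 5559) (nat_lit 4) (nat_lit 9))
    (@En.n l30995 (nat_lit 5565) (nat_lit 5) (nat_lit 4))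
    (@En.n l2642 (nat_lit 5534) (nat_lit 6) (nat_lit 6))
    (@En.i (nat_lit 3968) (nat_lit 8) (nat_lit 12))
    (@En.n l6081 (nat_lit 5536) (nat_lit 8) (nat_lit 3))
    (@En.n l15068 (nat_lit 3901) (nat_lit 0) (nat_lit 12))
    (@En.i (nat_lit 10269) (nat_lit 11) (nat_lit 6))
    (@En.i (nat_lit 5993) (nat_lit 5) (nat_lit 13))
    (@En.n l1081 (nat_lit 7200) (nat_lit 8) (nat_lit 10))
    (@En.n l21632 (nat_lit 10323) (nat_lit 14) (nat_lit 7))
    (@En.n l7 (nat_lit 5564) (nat_lit 13) (nat_lit 3))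
    (@En.n l11219 (nat_lit 5563) (nat_lit 0) (nat_lit 3))))
  (@Cl.mk (nat_lit 0x20007000a000d0007000c0003000c0006000400090004000d0009000e0003) (nat_lit 0x620a0500609190) (nat_lit 16) Lb.e (@T16.mk En
    (@En.n l7264 (nat_lit 5562) (nat_lit 15) (nat_lit 3))
    (@En.n l12687 (nat_lit 13864) (nat_lit 0) (nat_lit 14))
    (@En.n l19421 (nat_lit 5292) (nat_lit 2) (nat_lit 9))
    (@En.i (nat_lit 12148) (nat_lit 4) (nat_lit 13))
    (@En.n l6899 (nat_lit 5652) (nat_lit 4) (nat_lit 4))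
    (@En.n l31232 (nat_lit 5561) (nat_lit 5) (nat_lit 9))
    (@En.n l1241 (nat_lit 5566) (nat_lit 6) (nat_lit 4))
    (@En.n l17 (nat_lit 5537) (nat_lit 7) (nat_lit 6))
    (@En.n l31478 (nat_lit 3970) (nat_lit 9) (nat_lit 12))
    (@En.n l35437 (nat_lit 5625) (nat_lit 9) (nat_lit 3))
    (@En.i (nat_lit 3905) (nat_lit 11) (nat_lit 12))
    (@En.n l34135 (nat_lit 10263) (nat_lit 12) (nat_lit 7))
    (@En.n l19421 (nat_lit 5996) (nat_lit 5) (nat_lit 13))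
    (@En.i (nat_lit 7458) (nat_lit 8) (nat_lit 10))
    (@En.n l13102 (nat_lit 10322) (nat_lit 14) (nat_lit 7))
    (@En.n l50 (nat_lit 5563) (nat_lit 15) (nat_lit 2))))
  (@Cl.mk (nat_lit 0x2000b00030007000a000d0005000c0003000c0006000400090004000e000d) (nat_lit 0x6503050060aa) (nat_lit 16) Lb.e (@T16.mk En
    (@En.n l134 (nat_lit 5562) (nat_lit 2) (nat_lit 13))
    (@En.i (nat_lit 5487) (nat_lit 1) (nat_lit 14))
    (@En.n l117 (nat_lit 5653) (nat_lit 2) (nat_lit 4))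
    (@En.n l617 (nat_lit 5560) (nat_lit 3) (nat_lit 9))
    (@En.n l3480 (nat_lit 5567) (nat_lit 4) (nat_lit 4))
    (@En.n l2642 (nat_lit 5539) (nat_lit 5) (nat_lit 6))
    (@En.i (nat_lit 3969) (nat_lit 7) (nat_lit 12))
    (@En.n l6081 (nat_lit 5624) (nat_lit 7) (nat_lit 3))
    (@En.n l15068 (nat_lit 3899) (nat_lit 9) (nat_lit 12))
    (@En.i (nat_lit 10333) (nat_lit 9) (nat_lit 5))
    (@En.i (nat_lit 5992) (nat_lit 5) (nat_lit 13))
    (@En.n l1081 (nat_lit 7367) (nat_lit 8) (nat_lit 10))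
    (@En.i (nat_lit 7295) (nat_lit 13) (nat_lit 7))
    (@En.i (nat_lit 5562) (nat_lit 14) (nat_lit 3))
    (@En.i (nat_lit 7557) (nat_lit 0) (nat_lit 11))
    (@En.n l28 (nat_lit 5564) (nat_lit 15) (nat_lit 2))))
  (@Cl.mk (nat_lit 0x300030007000c000c0006000c00040004000d000400090003000d000d000a) (nat_lit 0x4707003060774) (nat_lit 16) Lb.e (@T16.mk En
    (@En.n l396 (nat_lit 7992) (nat_lit 0) (nat_lit 10))
    (@En.n l40699 (nat_lit 5566) (nat_lit 3) (nat_lit 13))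
    (@En.i (nat_lit 12153) (nat_lit 2) (nat_lit 13))
    (@En.n l28687 (nat_lit 6981) (nat_lit 3) (nat_lit 3))
    (@En.n l39513 (nat_lit 4599) (nat_lit 0) (nat_lit 9))
    (@En.i (nat_lit 7249) (nat_lit 5) (nat_lit 4))
    (@En.n l21571 (nat_lit 3971) (nat_lit 7) (nat_lit 13))
    (@En.n l20790 (nat_lit 6973) (nat_lit 12) (nat_lit 4))
    (@En.n l39738 (nat_lit 5559) (nat_lit 8) (nat_lit 4))
    (@En.n l27592 (nat_lit 3083) (nat_lit 10) (nat_lit 12))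
    (@En.n l396 (nat_lit 8814) (nat_lit 1) (nat_lit 6))
    (@En.n l27593 (nat_lit 6961) (nat_lit 4) (nat_lit 12))
    (@En.n l23367 (nat_lit 7376) (nat_lit 13) (nat_lit 12))
    (@En.i (nat_lit 8607) (nat_lit 14) (nat_lit 7))
    (@En.n l644 (nat_lit 5567) (nat_lit 13) (nat_lit 3))
    (@En.n l7654 (nat_lit 5566) (nat_lit 0) (nat_lit 3))))
  (@Cl.mk (nat_lit 0x20007000c000c0007000c00040004000d000400090003000d0009000e0003) (nat_lit 0x47010040606100) (nat_lit 16) Lb.e (@T16.mk En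
    (@En.n l34387 (nat_lit 5565) (nat_lit 15) (nat_lit 3))
    (@En.n l34388 (nat_lit 13867) (nat_lit 0) (nat_lit 14))
    (@En.n l24668 (nat_lit 5295) (nat_lit 2) (nat_lit 9))
    (@En.n l11705 (nat_lit 12151) (nat_lit 2) (nat_lit 13))
    (@En.n l6958 (nat_lit 6982) (nat_lit 4) (nat_lit 3))
    (@En.n l34389 (nat_lit 4727) (nat_lit 5) (nat_lit 9))
    (@En.n l6958 (nat_lit 7248) (nat_lit 6) (nat_lit 4))
    (@En.n l34390 (nat_lit 4354) (nat_lit 8) (nat_lit 13))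
    (@En.n l34391 (nat_lit 6971) (nat_lit 8) (nat_lit 4))
    (@En.n l34392 (nat_lit 5561) (nat_lit 9) (nat_lit 4))
    (@En.i (nat_lit 3081) (nat_lit 11) (nat_lit 12))
    (@En.n l34393 (nat_lit 10262) (nat_lit 12) (nat_lit 7))
    (@En.n l11544 (nat_lit 6960) (nat_lit 13) (nat_lit 12))
    (@En.n l11706 (nat_lit 7378) (nat_lit 14) (nat_lit 12))
    (@En.n l24668 (nat_lit 8609) (nat_lit 14) (nat_lit 7))
    (@En.n l18 (nat_lit 5566) (nat_lit 15) (nat_lit 2))))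
  (@Cl.mk (nat_lit 0x2000b00030007000c000c0005000c00040004000d000400090003000e000d) (nat_lit 0x270100406018) (nat_lit 16) Lb.e (@T16.mk En
    (@En.i (nat_lit 5565) (nat_lit 2) (nat_lit 13))
    (@En.i (nat_lit 5497) (nat_lit 1) (nat_lit 14))
    (@En.n l345 (nat_lit 6983) (nat_lit 2) (nat_lit 3))
    (@En.n l2213 (nat_lit 4731) (nat_lit 3) (nat_lit 9))
    (@En.i (nat_lit 7250) (nat_lit 4) (nat_lit 4))
    (@En.n l6914 (nat_lit 4350) (nat_lit 6) (nat_lit 13))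
    (@En.n l152 (nat_lit 6977) (nat_lit 12) (nat_lit 4))
    (@En.n l3851 (nat_lit 5560) (nat_lit 7) (nat_lit 4))
    (@En.n l725 (nat_lit 3087) (nat_lit 9) (nat_lit 12))
    (@En.i (nat_lit 10329) (nat_lit 9) (nat_lit 5))
    (@En.n l3536 (nat_lit 6966) (nat_lit 11) (nat_lit 12))
    (@En.i (nat_lit 7377) (nat_lit 12) (nat_lit 12))
    (@En.i (nat_lit 7303) (nat_lit 13) (nat_lit 7))
    (@En.n l6042 (nat_lit 5565) (nat_lit 14) (nat_lit 3))
    (@En.i (nat_lit 7560) (nat_lit 0) (nat_lit 11))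
    (@En.n l50 (nat_lit 5567) (nat_lit 15) (nat_lit 2))))
noncomputable def a348 : T16 Cl := @T16.mk Cl
  (@Cl.mk (nat_lit 0x2000800030007000c000a0009000d000400080003000600090007000e000d) (nat_lit 0x100981700003053) (nat_lit 16) Lb.e (@T16.mk En
    (@En.n l23260 (nat_lit 5535) (nat_lit 2) (nat_lit 13))
    (@En.n l10357 (nat_lit 5462) (nat_lit 1) (nat_lit 14))
    (@En.n l23036 (nat_lit 5572) (nat_lit 2) (nat_lit 7))
    (@En.i (nat_lit 4860) (nat_lit 3) (nat_lit 9))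
    (@En.n l2125 (nat_lit 6002) (nat_lit 12) (nat_lit 6))
    (@En.n l22246 (nat_lit 5558) (nat_lit 5) (nat_lit 3))
    (@En.n l253 (nat_lit 11752) (nat_lit 0) (nat_lit 8))
    (@En.n l2116 (nat_lit 7076) (nat_lit 7) (nat_lit 4))
    (@En.i (nat_lit 5410) (nat_lit 9) (nat_lit 13))
    (@En.n l16483 (nat_lit 5403) (nat_lit 10) (nat_lit 9))
    (@En.n l29134 (nat_lit 5533) (nat_lit 11) (nat_lit 10))
    (@En.n l14798 (nat_lit 7111) (nat_lit 12) (nat_lit 12))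
    (@En.i (nat_lit 7283) (nat_lit 13) (nat_lit 7))
    (@En.n l11106 (nat_lit 5535) (nat_lit 14) (nat_lit 3))
    (@En.n l6150 (nat_lit 4928) (nat_lit 0) (nat_lit 8))
    (@En.n l11 (nat_lit 5568) (nat_lit 15) (nat_lit 2))))
  (@Cl.mk (nat_lit 0x20007000c000a0009000d0004000a0003000600090007000d0006000e0003) (nat_lit 0x881607003020a0) (nat_lit 16) Lb.e (@T16.mk En
    (@En.i (nat_lit 5535) (nat_lit 15) (nat_lit 3))
    (@En.n l1723 (nat_lit 13857) (nat_lit 0) (nat_lit 14))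
    (@En.i (nat_lit 7542) (nat_lit 2) (nat_lit 6))
    (@En.n l1353 (nat_lit 7625) (nat_lit 12) (nat_lit 13))
    (@En.n l25719 (nat_lit 5571) (nat_lit 4) (nat_lit 7))
    (@En.i (nat_lit 4858) (nat_lit 5) (nat_lit 9))
    (@En.n l1718 (nat_lit 6004) (nat_lit 12) (nat_lit 6))
    (@En.n l1080 (nat_lit 5557) (nat_lit 7) (nat_lit 3))
    (@En.n l3328 (nat_lit 7658) (nat_lit 0) (nat_lit 10))
    (@En.n l35367 (nat_lit 7164) (nat_lit 9) (nat_lit 4))
    (@En.n l7233 (nat_lit 5412) (nat_lit 11) (nat_lit 13))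
    (@En.n l7257 (nat_lit 5404) (nat_lit 12) (nat_lit 9))
    (@En.n l2642 (nat_lit 5532) (nat_lit 13) (nat_lit 10))
    (@En.n l25722 (nat_lit 7427) (nat_lit 14) (nat_lit 12))
    (@En.n l6042 (nat_lit 12475) (nat_lit 6) (nat_lit 7))
    (@En.n l50 (nat_lit 5569) (nat_lit 15) (nat_lit 2))))
  (@Cl.mk (nat_lit 0x30003000c000b000900090004000d0005000a000300070007000d000d0006) (nat_lit 0xa9230400000000) (nat_lit 16) Lb.e (@T16.mk En
    (@En.n l39888 (nat_lit 6604) (nat_lit 0) (nat_lit 6))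
    (@En.n l61 (nat_lit 5571) (nat_lit 3) (nat_lit 13))
    (@En.n l649 (nat_lit 9398) (nat_lit 13) (nat_lit 13))
    (@En.n l2262 (nat_lit 5573) (nat_lit 9) (nat_lit 7))
    (@En.n l55 (nat_lit 6233) (nat_lit 4) (nat_lit 7))
    (@En.n l27007 (nat_lit 5337) (nat_lit 5) (nat_lit 3))
    (@En.n l18501 (nat_lit 11066) (nat_lit 0) (nat_lit 10))
    (@En.n l12924 (nat_lit 3296) (nat_lit 7) (nat_lit 5))
    (@En.n l152 (nat_lit 6014) (nat_lit 9) (nat_lit 13))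
    (@En.n l12925 (nat_lit 5523) (nat_lit 9) (nat_lit 4))
    (@En.n l41874 (nat_lit 4516) (nat_lit 7) (nat_lit 9))
    (@En.n l649 (nat_lit 5527) (nat_lit 12) (nat_lit 9))
    (@En.n l12927 (nat_lit 2955) (nat_lit 13) (nat_lit 11))
    (@En.i (nat_lit 12213) (nat_lit 8) (nat_lit 12))
    (@En.n l42110 (nat_lit 5572) (nat_lit 13) (nat_lit 3))
    (@En.n l18 (nat_lit 5571) (nat_lit 0) (nat_lit 3))))
  (@Cl.mk (nat_lit 0x2000c000b000900090004000d0005000b000300070007000d0005000e0003) (nat_lit 0xa7210a00000b040) (nat_lit 16) Lb.e (@T16.mk En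
    (@En.i (nat_lit 5570) (nat_lit 15) (nat_lit 3))
    (@En.i (nat_lit 13225) (nat_lit 0) (nat_lit 14))
    (@En.i (nat_lit 5602) (nat_lit 2) (nat_lit 5))
    (@En.n l649 (nat_lit 9397) (nat_lit 13) (nat_lit 13))
    (@En.n l2262 (nat_lit 5574) (nat_lit 9) (nat_lit 7))
    (@En.n l55 (nat_lit 6231) (nat_lit 5) (nat_lit 7))
    (@En.n l12923 (nat_lit 5341) (nat_lit 6) (nat_lit 3))
    (@En.n l5845 (nat_lit 12763) (nat_lit 0) (nat_lit 11))
    (@En.n l12924 (nat_lit 3295) (nat_lit 8) (nat_lit 5))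
    (@En.n l152 (nat_lit 6013) (nat_lit 10) (nat_lit 13))
    (@En.n l12925 (nat_lit 5525) (nat_lit 10) (nat_lit 4))
    (@En.n l12926 (nat_lit 5343) (nat_lit 7) (nat_lit 9))
    (@En.n l649 (nat_lit 5529) (nat_lit 13) (nat_lit 9))
    (@En.n l12927 (nat_lit 2962) (nat_lit 14) (nat_lit 11))
    (@En.i (nat_lit 12215) (nat_lit 8) (nat_lit 12))
    (@En.n l17 (nat_lit 5571) (nat_lit 15) (nat_lit 2))))
  (@Cl.mk (nat_lit 0x200070003000c000b000900090004000d00050009000300070007000e000d) (nat_lit 0xa720080000031) (nat_lit 16) Lb.e (@T16.mk En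
    (@En.n l32572 (nat_lit 5570) (nat_lit 2) (nat_lit 13))
    (@En.n l4343 (nat_lit 9156) (nat_lit 1) (nat_lit 14))
    (@En.n l6983 (nat_lit 5575) (nat_lit 9) (nat_lit 7))
    (@En.n l6984 (nat_lit 6240) (nat_lit 3) (nat_lit 7))
    (@En.n l50 (nat_lit 5342) (nat_lit 4) (nat_lit 3))
    (@En.n l764 (nat_lit 12757) (nat_lit 0) (nat_lit 9))
    (@En.n l32573 (nat_lit 3299) (nat_lit 6) (nat_lit 5))
    (@En.n l6980 (nat_lit 6086) (nat_lit 8) (nat_lit 13))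
    (@En.n l12552 (nat_lit 5524) (nat_lit 8) (nat_lit 4))
    (@En.n l61 (nat_lit 5862) (nat_lit 10) (nat_lit 9))
    (@En.n l764 (nat_lit 5528) (nat_lit 11) (nat_lit 9))
    (@En.n l6981 (nat_lit 2961) (nat_lit 12) (nat_lit 11))
    (@En.i (nat_lit 10110) (nat_lit 13) (nat_lit 12))
    (@En.n l32574 (nat_lit 5570) (nat_lit 14) (nat_lit 3))
    (@En.n l764 (nat_lit 6605) (nat_lit 0) (nat_lit 7))
    (@En.n l3 (nat_lit 5572) (nat_lit 15) (nat_lit 2))))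
  (@Cl.mk (nat_lit 0x20005000d0006000b00030007000d000d000500030003000b000a000e0009) (nat_lit 0xa0500000009833) (nat_lit 16) Lb.e (@T16.mk En
    (@En.n l5036 (nat_lit 5570) (nat_lit 11) (nat_lit 9))
    (@En.n l3 (nat_lit 2958) (nat_lit 1) (nat_lit 14))
    (@En.n l3 (nat_lit 5581) (nat_lit 2) (nat_lit 10))
    (@En.n l7213 (nat_lit 12206) (nat_lit 3) (nat_lit 11))
    (@En.n l17856 (nat_lit 5575) (nat_lit 4) (nat_lit 3))
    (@En.n l7 (nat_lit 5574) (nat_lit 5) (nat_lit 3))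
    (@En.n l7213 (nat_lit 8062) (nat_lit 6) (nat_lit 5))
    (@En.n l644 (nat_lit 5574) (nat_lit 8) (nat_lit 13))
    (@En.i (nat_lit 8343) (nat_lit 9) (nat_lit 13))
    (@En.n l2572 (nat_lit 2326) (nat_lit 3) (nat_lit 7))
    (@En.i (nat_lit 5576) (nat_lit 10) (nat_lit 3))
    (@En.n l6646 (nat_lit 12086) (nat_lit 12) (nat_lit 11))
    (@En.n l23301 (nat_lit 4816) (nat_lit 13) (nat_lit 6))
    (@En.n l3105 (nat_lit 5453) (nat_lit 14) (nat_lit 13))
    (@En.n l3106 (nat_lit 4856) (nat_lit 13) (nat_lit 5))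
    (@En.n l17 (nat_lit 5573) (nat_lit 15) (nat_lit 2))))
  (@Cl.mk (nat_lit 0x20005000d0006000c00030007000d0004000e00030002000b000a000e0009) (nat_lit 0x80000b0a009843) (nat_lit 16) Lb.e (@T16.mk En
    (@En.n l5036 (nat_lit 5571) (nat_lit 12) (nat_lit 9))
    (@En.n l3 (nat_lit 5579) (nat_lit 13) (nat_lit 14))
    (@En.n l3 (nat_lit 5596) (nat_lit 14) (nat_lit 10))
    (@En.i (nat_lit 10984) (nat_lit 3) (nat_lit 11))
    (@En.n l50 (nat_lit 5574) (nat_lit 4) (nat_lit 2))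
    (@En.i (nat_lit 5573) (nat_lit 5) (nat_lit 3))
    (@En.i (nat_lit 13267) (nat_lit 0) (nat_lit 14))
    (@En.i (nat_lit 5599) (nat_lit 7) (nat_lit 4))
    (@En.i (nat_lit 7454) (nat_lit 9) (nat_lit 13))
    (@En.n l3340 (nat_lit 4373) (nat_lit 4) (nat_lit 7))
    (@En.i (nat_lit 5577) (nat_lit 10) (nat_lit 3))
    (@En.i (nat_lit 12088) (nat_lit 12) (nat_lit 12))
    (@En.n l10031 (nat_lit 4818) (nat_lit 13) (nat_lit 6))
    (@En.n l3105 (nat_lit 6006) (nat_lit 9) (nat_lit 13))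
    (@En.n l3106 (nat_lit 4857) (nat_lit 13) (nat_lit 5))
    (@En.n l17 (nat_lit 5574) (nat_lit 15) (nat_lit 2))))
  (@Cl.mk (nat_lit 0x20005000d0006000a00030007000e000d000200060003000b000a000e0009) (nat_lit 0x90000510009743) (nat_lit 16) Lb.e (@T16.mk En
    (@En.n l2519 (nat_lit 5572) (nat_lit 10) (nat_lit 9))
    (@En.n l16280 (nat_lit 5580) (nat_lit 11) (nat_lit 14))
    (@En.n l17499 (nat_lit 5583) (nat_lit 12) (nat_lit 10))
    (@En.i (nat_lit 10782) (nat_lit 3) (nat_lit 11))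
    (@En.n l7563 (nat_lit 5573) (nat_lit 4) (nat_lit 3))
    (@En.n l7058 (nat_lit 6607) (nat_lit 5) (nat_lit 6))
    (@En.n l28 (nat_lit 5575) (nat_lit 6) (nat_lit 2))
    (@En.n l7565 (nat_lit 5573) (nat_lit 8) (nat_lit 13))
    (@En.n l7563 (nat_lit 7684) (nat_lit 9) (nat_lit 14))
    (@En.n l2644 (nat_lit 2325) (nat_lit 2) (nat_lit 7))
    (@En.n l2593 (nat_lit 5578) (nat_lit 10) (nat_lit 3))
    (@En.n l7058 (nat_lit 12567) (nat_lit 12) (nat_lit 10))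
    (@En.n l17500 (nat_lit 4815) (nat_lit 5) (nat_lit 6))
    (@En.i (nat_lit 5455) (nat_lit 7) (nat_lit 13))
    (@En.n l1081 (nat_lit 4861) (nat_lit 7) (nat_lit 5))
    (@En.n l3 (nat_lit 5575) (nat_lit 15) (nat_lit 2))))
  (@Cl.mk (nat_lit 0x20005000d000a000700030007000d000d000600030003000b0009000e0009) (nat_lit 0xa7000000008233) (nat_lit 16) Lb.e (@T16.mk En
    (@En.n l35535 (nat_lit 5337) (nat_lit 11) (nat_lit 9))
    (@En.n l3 (nat_lit 4489) (nat_lit 1) (nat_lit 14))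
    (@En.n l3 (nat_lit 4480) (nat_lit 2) (nat_lit 9))
    (@En.n l23809 (nat_lit 10985) (nat_lit 3) (nat_lit 11))
    (@En.n l35536 (nat_lit 5578) (nat_lit 4) (nat_lit 3))
    (@En.n l7 (nat_lit 5577) (nat_lit 5) (nat_lit 3))
    (@En.n l25237 (nat_lit 8064) (nat_lit 6) (nat_lit 6))
    (@En.n l644 (nat_lit 5577) (nat_lit 8) (nat_lit 13))
    (@En.i (nat_lit 8344) (nat_lit 9) (nat_lit 13))
    (@En.n l25238 (nat_lit 4500) (nat_lit 3) (nat_lit 7))
    (@En.n l11 (nat_lit 5573) (nat_lit 10) (nat_lit 3))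
    (@En.n l25244 (nat_lit 5838) (nat_lit 0) (nat_lit 7))
    (@En.i (nat_lit 5589) (nat_lit 13) (nat_lit 10))
    (@En.n l19439 (nat_lit 5452) (nat_lit 14) (nat_lit 13))
    (@En.n l3106 (nat_lit 4862) (nat_lit 13) (nat_lit 5))
    (@En.n l17 (nat_lit 5576) (nat_lit 15) (nat_lit 2))))
  (@Cl.mk (nat_lit 0x20005000d000b000700030007000d0005000e00030002000b0009000e0009) (nat_lit 0xb8000b0a008133) (nat_lit 16) Lb.e (@T16.mk En
    (@En.n l5046 (nat_lit 5341) (nat_lit 12) (nat_lit 9))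
    (@En.n l3 (nat_lit 5610) (nat_lit 13) (nat_lit 14))
    (@En.n l3 (nat_lit 4482) (nat_lit 14) (nat_lit 9))
    (@En.n l5047 (nat_lit 10980) (nat_lit 3) (nat_lit 11))
    (@En.n l50 (nat_lit 5577) (nat_lit 4) (nat_lit 2))
    (@En.i (nat_lit 5576) (nat_lit 5) (nat_lit 3))
    (@En.i (nat_lit 13222) (nat_lit 0) (nat_lit 14))
    (@En.i (nat_lit 6436) (nat_lit 7) (nat_lit 5))
    (@En.i (nat_lit 8342) (nat_lit 9) (nat_lit 13))
    (@En.n l24757 (nat_lit 6244) (nat_lit 4) (nat_lit 7))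
    (@En.n l11 (nat_lit 5574) (nat_lit 10) (nat_lit 3))
    (@En.n l24758 (nat_lit 5840) (nat_lit 0) (nat_lit 7))
    (@En.n l55 (nat_lit 5613) (nat_lit 13) (nat_lit 11))
    (@En.n l19439 (nat_lit 6005) (nat_lit 9) (nat_lit 13))
    (@En.n l3106 (nat_lit 4864) (nat_lit 13) (nat_lit 5))
    (@En.n l17 (nat_lit 5577) (nat_lit 15) (nat_lit 2))))
  (@Cl.mk (nat_lit 0x20005000d0009000700030007000e000d000200070003000b0009000e0009) (nat_lit 0x90000510007443) (nat_lit 16) Lb.e (@T16.mk En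
    (@En.n l24687 (nat_lit 5342) (nat_lit 10) (nat_lit 9))
    (@En.n l24688 (nat_lit 5582) (nat_lit 11) (nat_lit 14))
    (@En.n l24689 (nat_lit 4479) (nat_lit 12) (nat_lit 9))
    (@En.n l3340 (nat_lit 10785) (nat_lit 3) (nat_lit 11))
    (@En.n l24690 (nat_lit 5576) (nat_lit 4) (nat_lit 3))
    (@En.n l24691 (nat_lit 6833) (nat_lit 5) (nat_lit 7))
    (@En.n l28 (nat_lit 5578) (nat_lit 6) (nat_lit 2))
    (@En.n l24692 (nat_lit 5576) (nat_lit 8) (nat_lit 13))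
    (@En.n l24693 (nat_lit 7687) (nat_lit 9) (nat_lit 14))
    (@En.n l24694 (nat_lit 4499) (nat_lit 2) (nat_lit 7))
    (@En.n l5 (nat_lit 5575) (nat_lit 10) (nat_lit 3))
    (@En.n l24689 (nat_lit 5839) (nat_lit 12) (nat_lit 7))
    (@En.n l2215 (nat_lit 5586) (nat_lit 13) (nat_lit 9))
    (@En.n l22414 (nat_lit 5454) (nat_lit 7) (nat_lit 13))
    (@En.n l3340 (nat_lit 4865) (nat_lit 7) (nat_lit 5))
    (@En.n l3 (nat_lit 5578) (nat_lit 15) (nat_lit 2))))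
  (@Cl.mk (nat_lit 0x2000b000e00080002000d0005000d0003000c00030008000d0004000e0003) (nat_lit 0x93104080006b0b0) (nat_lit 16) Lb.e (@T16.mk En
    (@En.i (nat_lit 2958) (nat_lit 4) (nat_lit 3))
    (@En.i (nat_lit 13265) (nat_lit 0) (nat_lit 14))
    (@En.i (nat_lit 5598) (nat_lit 2) (nat_lit 4))
    (@En.i (nat_lit 8299) (nat_lit 8) (nat_lit 13))
    (@En.n l3340 (nat_lit 4369) (nat_lit 4) (nat_lit 8))
    (@En.i (nat_lit 5610) (nat_lit 5) (nat_lit 3))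
    (@En.i (nat_lit 12779) (nat_lit 0) (nat_lit 12))
    (@En.n l117 (nat_lit 5596) (nat_lit 7) (nat_lit 3))
    (@En.n l781 (nat_lit 5448) (nat_lit 9) (nat_lit 13))
    (@En.i (nat_lit 5574) (nat_lit 14) (nat_lit 5))
    (@En.i (nat_lit 7418) (nat_lit 11) (nat_lit 13))
    (@En.n l17 (nat_lit 5579) (nat_lit 11) (nat_lit 2))
    (@En.i (nat_lit 2953) (nat_lit 13) (nat_lit 8))
    (@En.i (nat_lit 4746) (nat_lit 4) (nat_lit 14))
    (@En.i (nat_lit 10983) (nat_lit 2) (nat_lit 11))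
    (@En.n l50 (nat_lit 5579) (nat_lit 15) (nat_lit 2))))
  (@Cl.mk (nat_lit 0x200060003000b000e00080002000d0005000d0003000a00030008000e000d) (nat_lit 0x9310409000101) (nat_lit 16) Lb.e (@T16.mk En
    (@En.n l644 (nat_lit 2958) (nat_lit 7) (nat_lit 13))
    (@En.n l1337 (nat_lit 7685) (nat_lit 1) (nat_lit 14))
    (@En.n l3340 (nat_lit 2327) (nat_lit 2) (nat_lit 8))
    (@En.n l17853 (nat_lit 5582) (nat_lit 3) (nat_lit 3))
    (@En.n l7258 (nat_lit 12566) (nat_lit 11) (nat_lit 10))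
    (@En.n l17854 (nat_lit 5583) (nat_lit 5) (nat_lit 3))
    (@En.n l17855 (nat_lit 5451) (nat_lit 7) (nat_lit 13))
    (@En.n l17856 (nat_lit 5575) (nat_lit 14) (nat_lit 5))
    (@En.n l7258 (nat_lit 7425) (nat_lit 9) (nat_lit 13))
    (@En.n l17 (nat_lit 5580) (nat_lit 9) (nat_lit 2))
    (@En.n l17857 (nat_lit 2954) (nat_lit 11) (nat_lit 8))
    (@En.i (nat_lit 4750) (nat_lit 12) (nat_lit 14))
    (@En.n l17858 (nat_lit 10783) (nat_lit 13) (nat_lit 11))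
    (@En.n l1337 (nat_lit 2958) (nat_lit 3) (nat_lit 3))
    (@En.n l3645 (nat_lit 6601) (nat_lit 0) (nat_lit 6))
    (@En.n l50 (nat_lit 5580) (nat_lit 15) (nat_lit 2))))
  (@Cl.mk (nat_lit 0x2000d000c00060003000b00040008000d000d000500030003000a000e0008) (nat_lit 0xb500006ab000721) (nat_lit 16) Lb.e (@T16.mk En
    (@En.i (nat_lit 2955) (nat_lit 12) (nat_lit 8))
    (@En.i (nat_lit 4698) (nat_lit 1) (nat_lit 14))
    (@En.n l2817 (nat_lit 11438) (nat_lit 2) (nat_lit 10))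
    (@En.n l14354 (nat_lit 5583) (nat_lit 13) (nat_lit 3))
    (@En.n l7 (nat_lit 5596) (nat_lit 0) (nat_lit 3))
    (@En.n l18243 (nat_lit 8060) (nat_lit 0) (nat_lit 5))
    (@En.n l644 (nat_lit 5596) (nat_lit 3) (nat_lit 13))
    (@En.i (nat_lit 8305) (nat_lit 8) (nat_lit 13))
    (@En.n l3528 (nat_lit 4365) (nat_lit 3) (nat_lit 8))
    (@En.i (nat_lit 4480) (nat_lit 9) (nat_lit 4))
    (@En.i (nat_lit 11007) (nat_lit 11) (nat_lit 11))
    (@En.n l152 (nat_lit 2958) (nat_lit 11) (nat_lit 3))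
    (@En.n l15604 (nat_lit 5810) (nat_lit 0) (nat_lit 6))
    (@En.n l619 (nat_lit 4489) (nat_lit 14) (nat_lit 12))
    (@En.n l1140 (nat_lit 7420) (nat_lit 10) (nat_lit 13))
    (@En.n l17 (nat_lit 5581) (nat_lit 15) (nat_lit 2))))
  (@Cl.mk (nat_lit 0x200070003000b000e00080002000c0005000d0009000400030008000e000d) (nat_lit 0x73104090002a1) (nat_lit 16) Lb.e (@T16.mk En
    (@En.n l11564 (nat_lit 4489) (nat_lit 7) (nat_lit 13))
    (@En.n l11565 (nat_lit 7686) (nat_lit 1) (nat_lit 14))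
    (@En.n l810 (nat_lit 4492) (nat_lit 2) (nat_lit 8))
    (@En.n l11566 (nat_lit 5580) (nat_lit 3) (nat_lit 3))
    (@En.n l1393 (nat_lit 4478) (nat_lit 0) (nat_lit 4))
    (@En.n l11567 (nat_lit 5584) (nat_lit 5) (nat_lit 9))
    (@En.n l11568 (nat_lit 5446) (nat_lit 7) (nat_lit 13))
    (@En.n l11569 (nat_lit 5578) (nat_lit 14) (nat_lit 5))
    (@En.n l11570 (nat_lit 7111) (nat_lit 9) (nat_lit 12))
    (@En.n l3 (nat_lit 5582) (nat_lit 9) (nat_lit 2))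
    (@En.n l11571 (nat_lit 2960) (nat_lit 11) (nat_lit 8))
    (@En.n l11572 (nat_lit 4751) (nat_lit 12) (nat_lit 14))
    (@En.n l11573 (nat_lit 10784) (nat_lit 13) (nat_lit 11))
    (@En.n l11565 (nat_lit 4489) (nat_lit 3) (nat_lit 3))
    (@En.n l11574 (nat_lit 6839) (nat_lit 4) (nat_lit 7))
    (@En.n l50 (nat_lit 5582) (nat_lit 15) (nat_lit 2))))
  (@Cl.mk (nat_lit 0x200060003000a000e00080002000d000c00060003000a00040008000e000d) (nat_lit 0x6c1035000014b) (nat_lit 16) Lb.e (@T16.mk En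
    (@En.n l6671 (nat_lit 5581) (nat_lit 7) (nat_lit 13))
    (@En.n l6672 (nat_lit 7688) (nat_lit 1) (nat_lit 14))
    (@En.n l14773 (nat_lit 2331) (nat_lit 2) (nat_lit 8))
    (@En.i (nat_lit 4479) (nat_lit 3) (nat_lit 4))
    (@En.n l698 (nat_lit 11011) (nat_lit 4) (nat_lit 10))
    (@En.n l11572 (nat_lit 5580) (nat_lit 5) (nat_lit 3))
    (@En.i (nat_lit 5811) (nat_lit 6) (nat_lit 6))
    (@En.n l1578 (nat_lit 5582) (nat_lit 8) (nat_lit 12))
    (@En.n l28709 (nat_lit 7423) (nat_lit 9) (nat_lit 13))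
    (@En.n l3 (nat_lit 5583) (nat_lit 9) (nat_lit 2))
    (@En.n l25266 (nat_lit 2961) (nat_lit 11) (nat_lit 8))
    (@En.n l1309 (nat_lit 4752) (nat_lit 12) (nat_lit 14))
    (@En.n l698 (nat_lit 11000) (nat_lit 13) (nat_lit 10))
    (@En.n l6672 (nat_lit 5581) (nat_lit 3) (nat_lit 3))
    (@En.n l28710 (nat_lit 6602) (nat_lit 0) (nat_lit 6))
    (@En.n l50 (nat_lit 5583) (nat_lit 15) (nat_lit 2))))
noncomputable def a349 : T16 Cl := @T16.mk Cl
  (@Cl.mk (nat_lit 0x2000700060004000b000e00090002000d000500090003000a0007000e000c) (nat_lit 0x830040704040) (nat_lit 16) Lb.e (@T16.mk En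
    (@En.n l3707 (nat_lit 5587) (nat_lit 8) (nat_lit 12))
    (@En.n l3708 (nat_lit 7682) (nat_lit 1) (nat_lit 14))
    (@En.i (nat_lit 11216) (nat_lit 2) (nat_lit 7))
    (@En.n l11514 (nat_lit 12561) (nat_lit 11) (nat_lit 10))
    (@En.n l8143 (nat_lit 5585) (nat_lit 4) (nat_lit 3))
    (@En.n l454 (nat_lit 11637) (nat_lit 5) (nat_lit 9))
    (@En.n l11512 (nat_lit 5586) (nat_lit 14) (nat_lit 5))
    (@En.n l16274 (nat_lit 8744) (nat_lit 8) (nat_lit 13))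
    (@En.n l28 (nat_lit 5584) (nat_lit 8) (nat_lit 2))
    (@En.n l77 (nat_lit 5590) (nat_lit 10) (nat_lit 9))
    (@En.i (nat_lit 5324) (nat_lit 11) (nat_lit 14))
    (@En.n l16275 (nat_lit 5742) (nat_lit 12) (nat_lit 11))
    (@En.n l16276 (nat_lit 4177) (nat_lit 3) (nat_lit 4))
    (@En.n l4318 (nat_lit 5580) (nat_lit 14) (nat_lit 6))
    (@En.n l170 (nat_lit 6272) (nat_lit 5) (nat_lit 7))
    (@En.n l3 (nat_lit 5584) (nat_lit 15) (nat_lit 2))))
  (@Cl.mk (nat_lit 0x2000800060004000a000e00090002000d000800060003000a0007000e000c) (nat_lit 0x630036000010) (nat_lit 16) Lb.e (@T16.mk En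
    (@En.n l29049 (nat_lit 5588) (nat_lit 8) (nat_lit 12))
    (@En.n l29050 (nat_lit 4443) (nat_lit 1) (nat_lit 14))
    (@En.n l24339 (nat_lit 11215) (nat_lit 2) (nat_lit 7))
    (@En.n l7507 (nat_lit 11029) (nat_lit 11) (nat_lit 10))
    (@En.n l4241 (nat_lit 5584) (nat_lit 4) (nat_lit 3))
    (@En.n l29051 (nat_lit 5817) (nat_lit 0) (nat_lit 6))
    (@En.i (nat_lit 5785) (nat_lit 14) (nat_lit 8))
    (@En.n l29052 (nat_lit 8741) (nat_lit 8) (nat_lit 13))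
    (@En.n l11 (nat_lit 5585) (nat_lit 8) (nat_lit 2))
    (@En.n l29053 (nat_lit 5591) (nat_lit 10) (nat_lit 9))
    (@En.n l1329 (nat_lit 5322) (nat_lit 11) (nat_lit 14))
    (@En.n l2568 (nat_lit 5747) (nat_lit 12) (nat_lit 10))
    (@En.n l29054 (nat_lit 11017) (nat_lit 3) (nat_lit 4))
    (@En.n l29051 (nat_lit 5583) (nat_lit 14) (nat_lit 6))
    (@En.n l24339 (nat_lit 10050) (nat_lit 5) (nat_lit 8))
    (@En.n l18 (nat_lit 5585) (nat_lit 15) (nat_lit 2))))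
  (@Cl.mk (nat_lit 0x2000500090006000a0006000e000c0002000700060004000b000a000e000a) (nat_lit 0x70004000008740) (nat_lit 16) Lb.e (@T16.mk En
    (@En.n l7 (nat_lit 5595) (nat_lit 9) (nat_lit 10))
    (@En.n l3039 (nat_lit 5584) (nat_lit 10) (nat_lit 14))
    (@En.n l1461 (nat_lit 5585) (nat_lit 11) (nat_lit 10))
    (@En.n l848 (nat_lit 5748) (nat_lit 3) (nat_lit 11))
    (@En.n l27234 (nat_lit 11929) (nat_lit 4) (nat_lit 4))
    (@En.n l2303 (nat_lit 5575) (nat_lit 5) (nat_lit 6))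
    (@En.n l27235 (nat_lit 6277) (nat_lit 6) (nat_lit 7))
    (@En.n l3 (nat_lit 5586) (nat_lit 7) (nat_lit 2))
    (@En.n l25287 (nat_lit 5589) (nat_lit 9) (nat_lit 12))
    (@En.n l763 (nat_lit 7683) (nat_lit 10) (nat_lit 14))
    (@En.i (nat_lit 11218) (nat_lit 2) (nat_lit 6))
    (@En.n l848 (nat_lit 12563) (nat_lit 12) (nat_lit 10))
    (@En.n l18587 (nat_lit 9211) (nat_lit 13) (nat_lit 6))
    (@En.n l27236 (nat_lit 9237) (nat_lit 5) (nat_lit 9))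
    (@En.n l27234 (nat_lit 8713) (nat_lit 6) (nat_lit 5))
    (@En.n l50 (nat_lit 5586) (nat_lit 15) (nat_lit 2))))
  (@Cl.mk (nat_lit 0x2000d0005000a0003000b0007000c000c0006000500040004000b000e0009) (nat_lit 0x908040a00000940) (nat_lit 16) Lb.e (@T16.mk En
    (@En.i (nat_lit 5592) (nat_lit 4) (nat_lit 9))
    (@En.i (nat_lit 5327) (nat_lit 4) (nat_lit 14))
    (@En.i (nat_lit 10915) (nat_lit 2) (nat_lit 11))
    (@En.n l1338 (nat_lit 5584) (nat_lit 12) (nat_lit 4))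
    (@En.n l237 (nat_lit 4179) (nat_lit 4) (nat_lit 4))
    (@En.i (nat_lit 2958) (nat_lit 5) (nat_lit 5))
    (@En.i (nat_lit 11932) (nat_lit 6) (nat_lit 6))
    (@En.n l4380 (nat_lit 5611) (nat_lit 4) (nat_lit 12))
    (@En.i (nat_lit 8315) (nat_lit 9) (nat_lit 12))
    (@En.n l1913 (nat_lit 11152) (nat_lit 14) (nat_lit 7))
    (@En.n l11 (nat_lit 12083) (nat_lit 11) (nat_lit 11))
    (@En.n l117 (nat_lit 5588) (nat_lit 11) (nat_lit 3))
    (@En.n l5995 (nat_lit 11643) (nat_lit 0) (nat_lit 10))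
    (@En.i (nat_lit 5589) (nat_lit 14) (nat_lit 5))
    (@En.i (nat_lit 7429) (nat_lit 2) (nat_lit 13))
    (@En.n l17 (nat_lit 5587) (nat_lit 15) (nat_lit 2))))
  (@Cl.mk (nat_lit 0x2000d000900060003000b0007000c000c0007000500040004000a000e0009) (nat_lit 0x960040a00000050) (nat_lit 16) Lb.e (@T16.mk En
    (@En.n l39829 (nat_lit 5593) (nat_lit 4) (nat_lit 9))
    (@En.i (nat_lit 5325) (nat_lit 1) (nat_lit 14))
    (@En.n l2817 (nat_lit 10907) (nat_lit 2) (nat_lit 10))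
    (@En.n l39830 (nat_lit 5585) (nat_lit 12) (nat_lit 4))
    (@En.n l237 (nat_lit 11018) (nat_lit 4) (nat_lit 4))
    (@En.i (nat_lit 5581) (nat_lit 5) (nat_lit 5))
    (@En.n l30939 (nat_lit 8111) (nat_lit 6) (nat_lit 7))
    (@En.n l4380 (nat_lit 5612) (nat_lit 4) (nat_lit 12))
    (@En.i (nat_lit 8316) (nat_lit 9) (nat_lit 12))
    (@En.n l12396 (nat_lit 11110) (nat_lit 14) (nat_lit 7))
    (@En.i (nat_lit 11031) (nat_lit 11) (nat_lit 11))
    (@En.n l152 (nat_lit 5587) (nat_lit 11) (nat_lit 3))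
    (@En.n l33985 (nat_lit 5812) (nat_lit 0) (nat_lit 6))
    (@En.n l97 (nat_lit 5621) (nat_lit 14) (nat_lit 9))
    (@En.n l39831 (nat_lit 8734) (nat_lit 2) (nat_lit 13))
    (@En.n l17 (nat_lit 5588) (nat_lit 15) (nat_lit 2))))
  (@Cl.mk (nat_lit 0x20005000a0006000b0006000c000c0006000500040004000b000a000e000a) (nat_lit 0x6000a000009150) (nat_lit 16) Lb.e (@T16.mk En
    (@En.n l25235 (nat_lit 5594) (nat_lit 11) (nat_lit 10))
    (@En.n l3 (nat_lit 5587) (nat_lit 1) (nat_lit 14))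
    (@En.n l3 (nat_lit 5588) (nat_lit 2) (nat_lit 10))
    (@En.n l16797 (nat_lit 12094) (nat_lit 3) (nat_lit 11))
    (@En.n l25236 (nat_lit 5586) (nat_lit 4) (nat_lit 4))
    (@En.n l15478 (nat_lit 11930) (nat_lit 5) (nat_lit 4))
    (@En.i (nat_lit 5573) (nat_lit 6) (nat_lit 5))
    (@En.n l25237 (nat_lit 11928) (nat_lit 7) (nat_lit 6))
    (@En.n l4380 (nat_lit 5613) (nat_lit 9) (nat_lit 12))
    (@En.i (nat_lit 8317) (nat_lit 10) (nat_lit 12))
    (@En.n l25238 (nat_lit 11153) (nat_lit 11) (nat_lit 6))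
    (@En.n l12230 (nat_lit 12084) (nat_lit 12) (nat_lit 11))
    (@En.n l25239 (nat_lit 5310) (nat_lit 13) (nat_lit 6))
    (@En.n l25240 (nat_lit 9239) (nat_lit 14) (nat_lit 10))
    (@En.n l15478 (nat_lit 8707) (nat_lit 13) (nat_lit 5))
    (@En.n l17 (nat_lit 5589) (nat_lit 15) (nat_lit 2))))
  (@Cl.mk (nat_lit 0x2000800070004000c00090009000d000400080003000900070007000e000c) (nat_lit 0x970306040000) (nat_lit 16) Lb.e (@T16.mk En
    (@En.n l18115 (nat_lit 5592) (nat_lit 11) (nat_lit 12))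
    (@En.n l18116 (nat_lit 9834) (nat_lit 1) (nat_lit 14))
    (@En.n l237 (nat_lit 5584) (nat_lit 2) (nat_lit 7))
    (@En.i (nat_lit 11213) (nat_lit 3) (nat_lit 7))
    (@En.n l18117 (nat_lit 12524) (nat_lit 4) (nat_lit 9))
    (@En.n l18118 (nat_lit 5591) (nat_lit 5) (nat_lit 3))
    (@En.i (nat_lit 11632) (nat_lit 0) (nat_lit 8))
    (@En.n l14973 (nat_lit 5595) (nat_lit 7) (nat_lit 4))
    (@En.n l6430 (nat_lit 8743) (nat_lit 9) (nat_lit 13))
    (@En.n l9225 (nat_lit 12805) (nat_lit 10) (nat_lit 9))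
    (@En.n l18117 (nat_lit 10205) (nat_lit 11) (nat_lit 9))
    (@En.n l7882 (nat_lit 6520) (nat_lit 12) (nat_lit 12))
    (@En.n l18119 (nat_lit 11024) (nat_lit 13) (nat_lit 4))
    (@En.n l6430 (nat_lit 2954) (nat_lit 14) (nat_lit 7))
    (@En.i (nat_lit 6269) (nat_lit 1) (nat_lit 8))
    (@En.n l3 (nat_lit 5590) (nat_lit 15) (nat_lit 2))))
  (@Cl.mk (nat_lit 0x2000900070004000b00090009000d000700050003000900070007000e000c) (nat_lit 0x670200040020) (nat_lit 16) Lb.e (@T16.mk En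
    (@En.n l33908 (nat_lit 5593) (nat_lit 11) (nat_lit 12))
    (@En.n l4316 (nat_lit 9832) (nat_lit 1) (nat_lit 14))
    (@En.n l33909 (nat_lit 5585) (nat_lit 2) (nat_lit 7))
    (@En.n l17747 (nat_lit 11211) (nat_lit 3) (nat_lit 7))
    (@En.n l152 (nat_lit 7986) (nat_lit 4) (nat_lit 9))
    (@En.n l33910 (nat_lit 5590) (nat_lit 5) (nat_lit 3))
    (@En.n l33911 (nat_lit 8195) (nat_lit 0) (nat_lit 5))
    (@En.n l33912 (nat_lit 12386) (nat_lit 7) (nat_lit 7))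
    (@En.n l32196 (nat_lit 8740) (nat_lit 9) (nat_lit 13))
    (@En.n l33913 (nat_lit 12806) (nat_lit 10) (nat_lit 9))
    (@En.i (nat_lit 10204) (nat_lit 11) (nat_lit 9))
    (@En.n l33914 (nat_lit 8014) (nat_lit 12) (nat_lit 11))
    (@En.n l32196 (nat_lit 11020) (nat_lit 13) (nat_lit 4))
    (@En.i (nat_lit 2961) (nat_lit 14) (nat_lit 7))
    (@En.n l22565 (nat_lit 10048) (nat_lit 1) (nat_lit 9))
    (@En.n l50 (nat_lit 5591) (nat_lit 15) (nat_lit 2))))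
  (@Cl.mk (nat_lit 0x3000a00070007000c000c0007000600040004000c00090009000d00040009) (nat_lit 0x400a00000970607) (nat_lit 16) Lb.e (@T16.mk En
    (@En.n l5995 (nat_lit 11638) (nat_lit 0) (nat_lit 9))
    (@En.n l25235 (nat_lit 5594) (nat_lit 9) (nat_lit 4))
    (@En.n l7231 (nat_lit 8738) (nat_lit 0) (nat_lit 13))
    (@En.n l32962 (nat_lit 12803) (nat_lit 7) (nat_lit 9))
    (@En.i (nat_lit 10207) (nat_lit 4) (nat_lit 9))
    (@En.n l16794 (nat_lit 10913) (nat_lit 3) (nat_lit 12))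
    (@En.n l32963 (nat_lit 5590) (nat_lit 12) (nat_lit 4))
    (@En.n l237 (nat_lit 11023) (nat_lit 7) (nat_lit 4))
    (@En.i (nat_lit 2952) (nat_lit 0) (nat_lit 6))
    (@En.n l32210 (nat_lit 11938) (nat_lit 1) (nat_lit 7))
    (@En.n l4380 (nat_lit 5614) (nat_lit 4) (nat_lit 12))
    (@En.n l32964 (nat_lit 11840) (nat_lit 12) (nat_lit 12))
    (@En.n l61 (nat_lit 5587) (nat_lit 9) (nat_lit 7))
    (@En.n l25118 (nat_lit 11150) (nat_lit 14) (nat_lit 7))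
    (@En.n l32965 (nat_lit 10998) (nat_lit 13) (nat_lit 10))
    (@En.n l32966 (nat_lit 5593) (nat_lit 15) (nat_lit 3))))
  (@Cl.mk (nat_lit 0x3000a00070007000c000c0008000600040004000b00090009000d00080005) (nat_lit 0x400a03000070740) (nat_lit 16) Lb.e (@T16.mk En
    (@En.n l18 (nat_lit 5818) (nat_lit 0) (nat_lit 5))
    (@En.n l3208 (nat_lit 10282) (nat_lit 0) (nat_lit 8))
    (@En.i (nat_lit 8736) (nat_lit 6) (nat_lit 13))
    (@En.n l11338 (nat_lit 12802) (nat_lit 7) (nat_lit 9))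
    (@En.n l42542 (nat_lit 10208) (nat_lit 4) (nat_lit 9))
    (@En.n l28237 (nat_lit 10904) (nat_lit 6) (nat_lit 11))
    (@En.n l42543 (nat_lit 5591) (nat_lit 12) (nat_lit 4))
    (@En.i (nat_lit 11021) (nat_lit 0) (nat_lit 4))
    (@En.n l42544 (nat_lit 2955) (nat_lit 0) (nat_lit 6))
    (@En.n l55 (nat_lit 11703) (nat_lit 1) (nat_lit 8))
    (@En.n l42545 (nat_lit 5615) (nat_lit 4) (nat_lit 12))
    (@En.n l19357 (nat_lit 10187) (nat_lit 12) (nat_lit 12))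
    (@En.n l42546 (nat_lit 5588) (nat_lit 9) (nat_lit 7))
    (@En.n l42547 (nat_lit 11210) (nat_lit 14) (nat_lit 7))
    (@En.n l42548 (nat_lit 7988) (nat_lit 7) (nat_lit 10))
    (@En.n l42549 (nat_lit 5592) (nat_lit 15) (nat_lit 3))))
  (@Cl.mk (nat_lit 0x40004000c000b000a000a000400090005000a00060006000c000c00070006) (nat_lit 0x91800703000000) (nat_lit 16) Lb.e (@T16.mk En
    (@En.n l30107 (nat_lit 5570) (nat_lit 0) (nat_lit 6))
    (@En.n l39621 (nat_lit 11926) (nat_lit 1) (nat_lit 7))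
    (@En.n l30104 (nat_lit 5616) (nat_lit 4) (nat_lit 12))
    (@En.n l39622 (nat_lit 10272) (nat_lit 10) (nat_lit 12))
    (@En.n l39623 (nat_lit 5589) (nat_lit 10) (nat_lit 6))
    (@En.n l39624 (nat_lit 11198) (nat_lit 5) (nat_lit 6))
    (@En.i (nat_lit 11558) (nat_lit 13) (nat_lit 10))
    (@En.n l2281 (nat_lit 8952) (nat_lit 7) (nat_lit 5))
    (@En.i (nat_lit 9242) (nat_lit 0) (nat_lit 9))
    (@En.n l24760 (nat_lit 8715) (nat_lit 9) (nat_lit 4))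
    (@En.n l39625 (nat_lit 12804) (nat_lit 6) (nat_lit 10))
    (@En.n l15890 (nat_lit 10253) (nat_lit 6) (nat_lit 10))
    (@En.n l39626 (nat_lit 5593) (nat_lit 5) (nat_lit 11))
    (@En.n l39627 (nat_lit 12093) (nat_lit 3) (nat_lit 12))
    (@En.n l39628 (nat_lit 5595) (nat_lit 12) (nat_lit 4))
    (@En.n l4182 (nat_lit 11924) (nat_lit 0) (nat_lit 4))))
  (@Cl.mk (nat_lit 0x2000800070004000c000b000a000a000400080005000900060006000e000c) (nat_lit 0x978006030001) (nat_lit 16) Lb.e (@T16.mk En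
    (@En.n l27844 (nat_lit 5594) (nat_lit 3) (nat_lit 12))
    (@En.n l27845 (nat_lit 9837) (nat_lit 1) (nat_lit 14))
    (@En.n l601 (nat_lit 5586) (nat_lit 10) (nat_lit 6))
    (@En.n l3038 (nat_lit 11200) (nat_lit 3) (nat_lit 6))
    (@En.n l14151 (nat_lit 12266) (nat_lit 4) (nat_lit 9))
    (@En.n l27846 (nat_lit 9213) (nat_lit 5) (nat_lit 5))
    (@En.n l27844 (nat_lit 9244) (nat_lit 6) (nat_lit 8))
    (@En.n l27847 (nat_lit 10249) (nat_lit 7) (nat_lit 4))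
    (@En.n l397 (nat_lit 12807) (nat_lit 9) (nat_lit 10))
    (@En.n l27848 (nat_lit 10248) (nat_lit 10) (nat_lit 10))
    (@En.n l15697 (nat_lit 5591) (nat_lit 11) (nat_lit 11))
    (@En.n l27849 (nat_lit 6521) (nat_lit 12) (nat_lit 12))
    (@En.n l27850 (nat_lit 11911) (nat_lit 13) (nat_lit 4))
    (@En.n l27851 (nat_lit 5572) (nat_lit 14) (nat_lit 7))
    (@En.i (nat_lit 6278) (nat_lit 1) (nat_lit 8))
    (@En.n l3 (nat_lit 5595) (nat_lit 15) (nat_lit 2))))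
  (@Cl.mk (nat_lit 0x2000a000e00080002000d000c00060003000c00040008000d0004000e0003) (nat_lit 0x73103600006a0b0) (nat_lit 16) Lb.e (@T16.mk En
    (@En.i (nat_lit 5581) (nat_lit 4) (nat_lit 3))
    (@En.i (nat_lit 13264) (nat_lit 0) (nat_lit 14))
    (@En.i (nat_lit 5597) (nat_lit 2) (nat_lit 4))
    (@En.i (nat_lit 8303) (nat_lit 8) (nat_lit 13))
    (@En.n l1897 (nat_lit 4366) (nat_lit 4) (nat_lit 8))
    (@En.i (nat_lit 4482) (nat_lit 5) (nat_lit 4))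
    (@En.i (nat_lit 11034) (nat_lit 11) (nat_lit 12))
    (@En.n l152 (nat_lit 5579) (nat_lit 7) (nat_lit 3))
    (@En.n l5588 (nat_lit 5809) (nat_lit 8) (nat_lit 6))
    (@En.n l619 (nat_lit 5610) (nat_lit 10) (nat_lit 12))
    (@En.i (nat_lit 7419) (nat_lit 11) (nat_lit 13))
    (@En.n l17 (nat_lit 5596) (nat_lit 11) (nat_lit 2))
    (@En.i (nat_lit 2962) (nat_lit 13) (nat_lit 8))
    (@En.i (nat_lit 4695) (nat_lit 1) (nat_lit 14))
    (@En.i (nat_lit 11437) (nat_lit 2) (nat_lit 10))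
    (@En.n l50 (nat_lit 5596) (nat_lit 15) (nat_lit 2))))
  (@Cl.mk (nat_lit 0x2000a000e00070002000d000b00060003000c000b000500090004000e0005) (nat_lit 0x680048000102020) (nat_lit 16) Lb.e (@T16.mk En
    (@En.n l22266 (nat_lit 5604) (nat_lit 4) (nat_lit 5))
    (@En.n l601 (nat_lit 7566) (nat_lit 1) (nat_lit 14))
    (@En.i (nat_lit 5612) (nat_lit 2) (nat_lit 4))
    (@En.n l32226 (nat_lit 4370) (nat_lit 3) (nat_lit 9))
    (@En.i (nat_lit 8037) (nat_lit 4) (nat_lit 5))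
    (@En.n l77 (nat_lit 5581) (nat_lit 10) (nat_lit 11))
    (@En.i (nat_lit 11035) (nat_lit 11) (nat_lit 12))
    (@En.n l152 (nat_lit 5598) (nat_lit 7) (nat_lit 3))
    (@En.n l30423 (nat_lit 5808) (nat_lit 8) (nat_lit 6))
    (@En.n l619 (nat_lit 5609) (nat_lit 14) (nat_lit 11))
    (@En.i (nat_lit 7132) (nat_lit 11) (nat_lit 13))
    (@En.n l17 (nat_lit 5597) (nat_lit 11) (nat_lit 2))
    (@En.i (nat_lit 5600) (nat_lit 13) (nat_lit 7))
    (@En.i (nat_lit 5828) (nat_lit 1) (nat_lit 14))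
    (@En.n l2129 (nat_lit 10871) (nat_lit 2) (nat_lit 10))
    (@En.n l50 (nat_lit 5597) (nat_lit 15) (nat_lit 2))))
  (@Cl.mk (nat_lit 0x2000b000e00070002000d0005000c0003000c000b000400090004000e0005) (nat_lit 0x580040600602020) (nat_lit 16) Lb.e (@T16.mk En
    (@En.n l9902 (nat_lit 5603) (nat_lit 4) (nat_lit 5))
    (@En.n l601 (nat_lit 7565) (nat_lit 1) (nat_lit 14))
    (@En.i (nat_lit 5611) (nat_lit 2) (nat_lit 4))
    (@En.n l3340 (nat_lit 4372) (nat_lit 3) (nat_lit 9))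
    (@En.i (nat_lit 8040) (nat_lit 4) (nat_lit 4))
    (@En.n l77 (nat_lit 2958) (nat_lit 10) (nat_lit 11))
    (@En.i (nat_lit 11691) (nat_lit 11) (nat_lit 12))
    (@En.n l117 (nat_lit 5597) (nat_lit 7) (nat_lit 3))
    (@En.n l781 (nat_lit 5794) (nat_lit 9) (nat_lit 12))
    (@En.i (nat_lit 5599) (nat_lit 14) (nat_lit 5))
    (@En.i (nat_lit 7134) (nat_lit 11) (nat_lit 13))
    (@En.n l17 (nat_lit 5598) (nat_lit 11) (nat_lit 2))
    (@En.i (nat_lit 5601) (nat_lit 13) (nat_lit 7))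
    (@En.i (nat_lit 5831) (nat_lit 4) (nat_lit 14))
    (@En.i (nat_lit 12813) (nat_lit 2) (nat_lit 11))
    (@En.n l50 (nat_lit 5598) (nat_lit 15) (nat_lit 2))))
  (@Cl.mk (nat_lit 0x20005000c0006000c000b000400080004000e00050002000b000a000e0008) (nat_lit 0x60060202005790) (nat_lit 16) Lb.e (@T16.mk En
    (@En.n l5036 (nat_lit 5602) (nat_lit 12) (nat_lit 8))
    (@En.n l3 (nat_lit 5598) (nat_lit 13) (nat_lit 14))
    (@En.n l3 (nat_lit 5597) (nat_lit 14) (nat_lit 10))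
    (@En.i (nat_lit 12814) (nat_lit 3) (nat_lit 11))
    (@En.n l50 (nat_lit 5599) (nat_lit 4) (nat_lit 2))
    (@En.n l9902 (nat_lit 5605) (nat_lit 5) (nat_lit 5))
    (@En.n l601 (nat_lit 7567) (nat_lit 7) (nat_lit 14))
    (@En.i (nat_lit 5613) (nat_lit 7) (nat_lit 4))
    (@En.n l3340 (nat_lit 4375) (nat_lit 3) (nat_lit 8))
    (@En.n l21745 (nat_lit 8041) (nat_lit 9) (nat_lit 4))
    (@En.n l77 (nat_lit 5573) (nat_lit 11) (nat_lit 11))
    (@En.n l6648 (nat_lit 11693) (nat_lit 12) (nat_lit 12))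
    (@En.n l10031 (nat_lit 5305) (nat_lit 13) (nat_lit 6))
    (@En.n l3105 (nat_lit 6008) (nat_lit 9) (nat_lit 12))
    (@En.n l3106 (nat_lit 7473) (nat_lit 13) (nat_lit 5))
    (@En.n l17 (nat_lit 5599) (nat_lit 15) (nat_lit 2))))
noncomputable def a350 : T16 Cl := @T16.mk Cl
  (@Cl.mk (nat_lit 0x2000b00070007000d000b00050003000b000a0005000900090005000e0006) (nat_lit 0x500270001043000) (nat_lit 16) Lb.e (@T16.mk En
    (@En.n l22266 (nat_lit 5607) (nat_lit 7) (nat_lit 6))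
    (@En.n l601 (nat_lit 7562) (nat_lit 1) (nat_lit 14))
    (@En.n l9943 (nat_lit 9777) (nat_lit 2) (nat_lit 5))
    (@En.n l61 (nat_lit 5597) (nat_lit 3) (nat_lit 9))
    (@En.n l32226 (nat_lit 6246) (nat_lit 4) (nat_lit 9))
    (@En.n l25179 (nat_lit 7731) (nat_lit 5) (nat_lit 5))
    (@En.n l77 (nat_lit 2955) (nat_lit 6) (nat_lit 10))
    (@En.n l5551 (nat_lit 8016) (nat_lit 8) (nat_lit 11))
    (@En.n l152 (nat_lit 5601) (nat_lit 8) (nat_lit 3))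
    (@En.n l30423 (nat_lit 5746) (nat_lit 9) (nat_lit 5))
    (@En.n l619 (nat_lit 6441) (nat_lit 11) (nat_lit 11))
    (@En.n l38555 (nat_lit 4471) (nat_lit 12) (nat_lit 13))
    (@En.n l13808 (nat_lit 5798) (nat_lit 9) (nat_lit 7))
    (@En.i (nat_lit 6549) (nat_lit 14) (nat_lit 7))
    (@En.n l2129 (nat_lit 7555) (nat_lit 6) (nat_lit 11))
    (@En.n l50 (nat_lit 5600) (nat_lit 15) (nat_lit 2))))
  (@Cl.mk (nat_lit 0x2000c00070007000d0004000c0003000b000a0004000900090005000e0006) (nat_lit 0x600306071003070) (nat_lit 16) Lb.e (@T16.mk En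
    (@En.n l25169 (nat_lit 5606) (nat_lit 7) (nat_lit 6))
    (@En.n l601 (nat_lit 7559) (nat_lit 1) (nat_lit 14))
    (@En.n l11426 (nat_lit 9779) (nat_lit 2) (nat_lit 5))
    (@En.n l61 (nat_lit 5598) (nat_lit 3) (nat_lit 9))
    (@En.n l38782 (nat_lit 6245) (nat_lit 4) (nat_lit 9))
    (@En.n l25168 (nat_lit 11403) (nat_lit 5) (nat_lit 4))
    (@En.n l77 (nat_lit 2952) (nat_lit 6) (nat_lit 10))
    (@En.i (nat_lit 12095) (nat_lit 8) (nat_lit 11))
    (@En.n l117 (nat_lit 5600) (nat_lit 8) (nat_lit 3))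
    (@En.n l21109 (nat_lit 5792) (nat_lit 10) (nat_lit 12))
    (@En.n l5036 (nat_lit 5602) (nat_lit 10) (nat_lit 4))
    (@En.n l10089 (nat_lit 4472) (nat_lit 12) (nat_lit 13))
    (@En.n l21110 (nat_lit 5797) (nat_lit 9) (nat_lit 7))
    (@En.i (nat_lit 6548) (nat_lit 14) (nat_lit 7))
    (@En.i (nat_lit 11777) (nat_lit 3) (nat_lit 12))
    (@En.n l50 (nat_lit 5601) (nat_lit 15) (nat_lit 2))))
  (@Cl.mk (nat_lit 0x2000c000b000800080004000c0005000b000a0004000800080005000e0006) (nat_lit 0x6660050010030b0) (nat_lit 16) Lb.e (@T16.mk En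
    (@En.n l50 (nat_lit 5608) (nat_lit 5) (nat_lit 6))
    (@En.n l5 (nat_lit 7564) (nat_lit 1) (nat_lit 14))
    (@En.n l50 (nat_lit 9781) (nat_lit 2) (nat_lit 5))
    (@En.n l2262 (nat_lit 5599) (nat_lit 8) (nat_lit 8))
    (@En.n l55 (nat_lit 6249) (nat_lit 4) (nat_lit 8))
    (@En.n l16198 (nat_lit 8045) (nat_lit 5) (nat_lit 4))
    (@En.n l217 (nat_lit 5570) (nat_lit 6) (nat_lit 10))
    (@En.n l5845 (nat_lit 12105) (nat_lit 8) (nat_lit 11))
    (@En.n l12924 (nat_lit 5740) (nat_lit 8) (nat_lit 5))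
    (@En.n l152 (nat_lit 6015) (nat_lit 10) (nat_lit 12))
    (@En.n l12925 (nat_lit 6547) (nat_lit 10) (nat_lit 4))
    (@En.n l12926 (nat_lit 5795) (nat_lit 8) (nat_lit 8))
    (@En.n l649 (nat_lit 6546) (nat_lit 13) (nat_lit 8))
    (@En.n l12927 (nat_lit 5600) (nat_lit 14) (nat_lit 11))
    (@En.i (nat_lit 11091) (nat_lit 3) (nat_lit 12))
    (@En.n l17 (nat_lit 5602) (nat_lit 15) (nat_lit 2))))
  (@Cl.mk (nat_lit 0x2000d0005000b0003000b000b000b0005000a000500050005000b000e0006) (nat_lit 0x403000706000460) (nat_lit 16) Lb.e (@T16.mk En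
    (@En.n l3098 (nat_lit 5606) (nat_lit 4) (nat_lit 6))
    (@En.i (nat_lit 5827) (nat_lit 4) (nat_lit 14))
    (@En.i (nat_lit 12087) (nat_lit 2) (nat_lit 11))
    (@En.n l134 (nat_lit 6958) (nat_lit 11) (nat_lit 5))
    (@En.n l55 (nat_lit 7990) (nat_lit 11) (nat_lit 5))
    (@En.n l11084 (nat_lit 5587) (nat_lit 5) (nat_lit 5))
    (@En.n l11620 (nat_lit 4396) (nat_lit 11) (nat_lit 10))
    (@En.n l8632 (nat_lit 8071) (nat_lit 7) (nat_lit 5))
    (@En.n l1415 (nat_lit 5598) (nat_lit 5) (nat_lit 11))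
    (@En.n l11087 (nat_lit 8061) (nat_lit 5) (nat_lit 11))
    (@En.i (nat_lit 11489) (nat_lit 11) (nat_lit 11))
    (@En.n l11621 (nat_lit 5604) (nat_lit 11) (nat_lit 3))
    (@En.n l781 (nat_lit 5739) (nat_lit 0) (nat_lit 11))
    (@En.i (nat_lit 5605) (nat_lit 14) (nat_lit 5))
    (@En.i (nat_lit 6667) (nat_lit 2) (nat_lit 13))
    (@En.n l17 (nat_lit 5603) (nat_lit 15) (nat_lit 2))))
  (@Cl.mk (nat_lit 0x2000d000a00060003000b000b000b0006000a000500050005000a000e0006) (nat_lit 0x3500002060005c0) (nat_lit 16) Lb.e (@T16.mk En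
    (@En.i (nat_lit 5607) (nat_lit 4) (nat_lit 6))
    (@En.i (nat_lit 5825) (nat_lit 1) (nat_lit 14))
    (@En.n l6960 (nat_lit 8054) (nat_lit 2) (nat_lit 10))
    (@En.n l6961 (nat_lit 6965) (nat_lit 11) (nat_lit 5))
    (@En.n l19274 (nat_lit 7991) (nat_lit 11) (nat_lit 5))
    (@En.n l4189 (nat_lit 5588) (nat_lit 5) (nat_lit 5))
    (@En.i (nat_lit 4395) (nat_lit 9) (nat_lit 10))
    (@En.n l1723 (nat_lit 8113) (nat_lit 7) (nat_lit 6))
    (@En.n l11363 (nat_lit 5597) (nat_lit 5) (nat_lit 11))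
    (@En.n l3471 (nat_lit 8060) (nat_lit 5) (nat_lit 11))
    (@En.i (nat_lit 11001) (nat_lit 11) (nat_lit 11))
    (@En.n l4927 (nat_lit 5603) (nat_lit 11) (nat_lit 3))
    (@En.n l1723 (nat_lit 5202) (nat_lit 0) (nat_lit 6))
    (@En.n l18636 (nat_lit 6445) (nat_lit 14) (nat_lit 10))
    (@En.n l61 (nat_lit 6666) (nat_lit 2) (nat_lit 13))
    (@En.n l7 (nat_lit 5604) (nat_lit 15) (nat_lit 2))))
  (@Cl.mk (nat_lit 0x20005000b0006000b000b000b00050009000500050005000b000a000e0007) (nat_lit 0x30007040009670) (nat_lit 16) Lb.e (@T16.mk En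
    (@En.n l21889 (nat_lit 5608) (nat_lit 1) (nat_lit 7))
    (@En.n l3 (nat_lit 5603) (nat_lit 1) (nat_lit 14))
    (@En.n l11620 (nat_lit 5604) (nat_lit 2) (nat_lit 10))
    (@En.n l21890 (nat_lit 11557) (nat_lit 3) (nat_lit 11))
    (@En.n l21891 (nat_lit 6957) (nat_lit 4) (nat_lit 5))
    (@En.n l55 (nat_lit 7253) (nat_lit 5) (nat_lit 5))
    (@En.n l11084 (nat_lit 5589) (nat_lit 6) (nat_lit 5))
    (@En.n l11620 (nat_lit 4391) (nat_lit 8) (nat_lit 9))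
    (@En.n l21892 (nat_lit 8072) (nat_lit 8) (nat_lit 5))
    (@En.n l1415 (nat_lit 5599) (nat_lit 10) (nat_lit 11))
    (@En.n l21893 (nat_lit 8062) (nat_lit 11) (nat_lit 11))
    (@En.n l21890 (nat_lit 10354) (nat_lit 12) (nat_lit 11))
    (@En.n l9365 (nat_lit 5304) (nat_lit 13) (nat_lit 6))
    (@En.n l3105 (nat_lit 5158) (nat_lit 14) (nat_lit 11))
    (@En.n l3106 (nat_lit 7475) (nat_lit 13) (nat_lit 5))
    (@En.n l17 (nat_lit 5605) (nat_lit 15) (nat_lit 2))))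
  (@Cl.mk (nat_lit 0x3000a000a000a0005000a000a000600060006000c00060006000d0004000b) (nat_lit 0x282017000500805) (nat_lit 16) Lb.e (@T16.mk En
    (@En.n l2213 (nat_lit 5730) (nat_lit 0) (nat_lit 11))
    (@En.n l19354 (nat_lit 5608) (nat_lit 15) (nat_lit 4))
    (@En.n l34271 (nat_lit 3154) (nat_lit 0) (nat_lit 13))
    (@En.n l152 (nat_lit 5799) (nat_lit 10) (nat_lit 6))
    (@En.n l3851 (nat_lit 5167) (nat_lit 4) (nat_lit 6))
    (@En.n l40808 (nat_lit 11558) (nat_lit 6) (nat_lit 12))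
    (@En.i (nat_lit 5295) (nat_lit 10) (nat_lit 6))
    (@En.n l644 (nat_lit 7992) (nat_lit 10) (nat_lit 6))
    (@En.n l32291 (nat_lit 10850) (nat_lit 8) (nat_lit 6))
    (@En.n l3536 (nat_lit 5603) (nat_lit 6) (nat_lit 10))
    (@En.n l34271 (nat_lit 2417) (nat_lit 11) (nat_lit 10))
    (@En.i (nat_lit 11552) (nat_lit 9) (nat_lit 5))
    (@En.n l39741 (nat_lit 5601) (nat_lit 6) (nat_lit 10))
    (@En.n l23968 (nat_lit 6590) (nat_lit 6) (nat_lit 10))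
    (@En.i (nat_lit 12093) (nat_lit 2) (nat_lit 10))
    (@En.n l23934 (nat_lit 5607) (nat_lit 15) (nat_lit 3))))
  (@Cl.mk (nat_lit 0x3000a000a000a0006000a000a000600060006000b00060006000d000a0005) (nat_lit 0x282017000600240) (nat_lit 16) Lb.e (@T16.mk En
    (@En.n l1723 (nat_lit 5701) (nat_lit 0) (nat_lit 5))
    (@En.n l38560 (nat_lit 6444) (nat_lit 0) (nat_lit 10))
    (@En.n l24654 (nat_lit 3148) (nat_lit 2) (nat_lit 13))
    (@En.n l38561 (nat_lit 5719) (nat_lit 10) (nat_lit 6))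
    (@En.n l2943 (nat_lit 5168) (nat_lit 4) (nat_lit 6))
    (@En.n l6960 (nat_lit 10997) (nat_lit 9) (nat_lit 11))
    (@En.n l38562 (nat_lit 5300) (nat_lit 10) (nat_lit 6))
    (@En.n l19274 (nat_lit 7993) (nat_lit 10) (nat_lit 6))
    (@En.n l31520 (nat_lit 10849) (nat_lit 8) (nat_lit 6))
    (@En.n l77 (nat_lit 5604) (nat_lit 6) (nat_lit 10))
    (@En.i (nat_lit 4431) (nat_lit 9) (nat_lit 10))
    (@En.n l1723 (nat_lit 11554) (nat_lit 12) (nat_lit 6))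
    (@En.n l11363 (nat_lit 5600) (nat_lit 6) (nat_lit 10))
    (@En.n l3471 (nat_lit 5720) (nat_lit 6) (nat_lit 10))
    (@En.i (nat_lit 8009) (nat_lit 2) (nat_lit 10))
    (@En.n l38563 (nat_lit 5606) (nat_lit 15) (nat_lit 3))))
  (@Cl.mk (nat_lit 0x4000b0005000a000a000a000500090009000600060006000c000b00070007) (nat_lit 0x500820050005700) (nat_lit 16) Lb.e (@T16.mk En
    (@En.n l35157 (nat_lit 5796) (nat_lit 9) (nat_lit 7))
    (@En.n l35158 (nat_lit 5301) (nat_lit 1) (nat_lit 7))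
    (@En.n l11330 (nat_lit 5607) (nat_lit 5) (nat_lit 11))
    (@En.n l35159 (nat_lit 11554) (nat_lit 3) (nat_lit 12))
    (@En.n l35160 (nat_lit 5296) (nat_lit 10) (nat_lit 6))
    (@En.n l35161 (nat_lit 7252) (nat_lit 10) (nat_lit 6))
    (@En.i (nat_lit 10857) (nat_lit 6) (nat_lit 6))
    (@En.n l35162 (nat_lit 5605) (nat_lit 7) (nat_lit 9))
    (@En.n l35158 (nat_lit 6296) (nat_lit 10) (nat_lit 9))
    (@En.n l27667 (nat_lit 11548) (nat_lit 9) (nat_lit 5))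
    (@En.n l742 (nat_lit 5602) (nat_lit 6) (nat_lit 10))
    (@En.n l35163 (nat_lit 6604) (nat_lit 6) (nat_lit 10))
    (@En.n l35164 (nat_lit 10353) (nat_lit 10) (nat_lit 10))
    (@En.n l35165 (nat_lit 5303) (nat_lit 14) (nat_lit 5))
    (@En.n l35166 (nat_lit 5161) (nat_lit 0) (nat_lit 11))
    (@En.n l35167 (nat_lit 5170) (nat_lit 1) (nat_lit 4))))
  (@Cl.mk (nat_lit 0x2000b0005000c000b000a0005000400090005000e00060002000b000e0007) (nat_lit 0x7065100203006a0) (nat_lit 16) Lb.e (@T16.mk En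
    (@En.i (nat_lit 6441) (nat_lit 13) (nat_lit 7))
    (@En.i (nat_lit 5703) (nat_lit 4) (nat_lit 14))
    (@En.n l6771 (nat_lit 10756) (nat_lit 2) (nat_lit 11))
    (@En.n l50 (nat_lit 5609) (nat_lit 3) (nat_lit 2))
    (@En.n l11051 (nat_lit 6445) (nat_lit 4) (nat_lit 6))
    (@En.n l601 (nat_lit 7580) (nat_lit 1) (nat_lit 14))
    (@En.n l11 (nat_lit 5617) (nat_lit 6) (nat_lit 5))
    (@En.n l287 (nat_lit 6248) (nat_lit 3) (nat_lit 9))
    (@En.n l11 (nat_lit 5598) (nat_lit 4) (nat_lit 4))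
    (@En.n l21745 (nat_lit 8035) (nat_lit 5) (nat_lit 5))
    (@En.n l77 (nat_lit 4489) (nat_lit 11) (nat_lit 10))
    (@En.n l55 (nat_lit 8039) (nat_lit 8) (nat_lit 11))
    (@En.n l3447 (nat_lit 5793) (nat_lit 9) (nat_lit 12))
    (@En.i (nat_lit 6436) (nat_lit 14) (nat_lit 5))
    (@En.i (nat_lit 7436) (nat_lit 11) (nat_lit 11))
    (@En.n l17 (nat_lit 5609) (nat_lit 15) (nat_lit 2))))
  (@Cl.mk (nat_lit 0x2000b000e00080002000c0005000d000b000400030008000d0005000e0003) (nat_lit 0x82105060006b0b0) (nat_lit 16) Lb.e (@T16.mk En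
    (@En.i (nat_lit 4489) (nat_lit 4) (nat_lit 3))
    (@En.i (nat_lit 13266) (nat_lit 0) (nat_lit 14))
    (@En.i (nat_lit 5609) (nat_lit 6) (nat_lit 5))
    (@En.i (nat_lit 8301) (nat_lit 8) (nat_lit 13))
    (@En.n l287 (nat_lit 4502) (nat_lit 4) (nat_lit 8))
    (@En.n l11 (nat_lit 5579) (nat_lit 5) (nat_lit 3))
    (@En.i (nat_lit 4481) (nat_lit 0) (nat_lit 4))
    (@En.n l55 (nat_lit 5611) (nat_lit 8) (nat_lit 11))
    (@En.n l3447 (nat_lit 5443) (nat_lit 9) (nat_lit 13))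
    (@En.i (nat_lit 5577) (nat_lit 14) (nat_lit 5))
    (@En.i (nat_lit 7427) (nat_lit 11) (nat_lit 12))
    (@En.n l17 (nat_lit 5610) (nat_lit 11) (nat_lit 2))
    (@En.i (nat_lit 2963) (nat_lit 13) (nat_lit 8))
    (@En.i (nat_lit 4749) (nat_lit 4) (nat_lit 14))
    (@En.i (nat_lit 10978) (nat_lit 2) (nat_lit 11))
    (@En.n l50 (nat_lit 5610) (nat_lit 15) (nat_lit 2))))
  (@Cl.mk (nat_lit 0x2000b000e00090002000d0005000b0003000c0007000c00050004000e0004) (nat_lit 0x9500809040a00b0) (nat_lit 16) Lb.e (@T16.mk En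
    (@En.n l28 (nat_lit 5587) (nat_lit 4) (nat_lit 4))
    (@En.n l601 (nat_lit 6006) (nat_lit 1) (nat_lit 14))
    (@En.n l28 (nat_lit 5579) (nat_lit 2) (nat_lit 4))
    (@En.i (nat_lit 8039) (nat_lit 3) (nat_lit 5))
    (@En.i (nat_lit 8302) (nat_lit 9) (nat_lit 12))
    (@En.n l3213 (nat_lit 11141) (nat_lit 5) (nat_lit 7))
    (@En.i (nat_lit 12089) (nat_lit 11) (nat_lit 12))
    (@En.n l117 (nat_lit 5612) (nat_lit 7) (nat_lit 3))
    (@En.n l170 (nat_lit 12276) (nat_lit 9) (nat_lit 11))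
    (@En.i (nat_lit 5613) (nat_lit 14) (nat_lit 5))
    (@En.i (nat_lit 7428) (nat_lit 11) (nat_lit 13))
    (@En.n l17 (nat_lit 5611) (nat_lit 11) (nat_lit 2))
    (@En.i (nat_lit 5614) (nat_lit 13) (nat_lit 9))
    (@En.i (nat_lit 5330) (nat_lit 4) (nat_lit 14))
    (@En.i (nat_lit 11604) (nat_lit 2) (nat_lit 11))
    (@En.n l50 (nat_lit 5611) (nat_lit 15) (nat_lit 2))))
  (@Cl.mk (nat_lit 0x2000a000e00090002000d000a00060003000c0007000c00060004000e0004) (nat_lit 0x2500980040a00a0) (nat_lit 16) Lb.e (@T16.mk En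
    (@En.n l28 (nat_lit 5588) (nat_lit 4) (nat_lit 4))
    (@En.n l601 (nat_lit 6005) (nat_lit 1) (nat_lit 14))
    (@En.n l28 (nat_lit 5596) (nat_lit 2) (nat_lit 4))
    (@En.n l6576 (nat_lit 8038) (nat_lit 3) (nat_lit 6))
    (@En.i (nat_lit 8340) (nat_lit 9) (nat_lit 12))
    (@En.n l4316 (nat_lit 11140) (nat_lit 5) (nat_lit 7))
    (@En.i (nat_lit 11033) (nat_lit 11) (nat_lit 12))
    (@En.n l152 (nat_lit 5611) (nat_lit 7) (nat_lit 3))
    (@En.n l16302 (nat_lit 5813) (nat_lit 8) (nat_lit 6))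
    (@En.n l97 (nat_lit 5617) (nat_lit 14) (nat_lit 10))
    (@En.n l1236 (nat_lit 8733) (nat_lit 11) (nat_lit 13))
    (@En.n l17 (nat_lit 5612) (nat_lit 11) (nat_lit 2))
    (@En.i (nat_lit 5615) (nat_lit 13) (nat_lit 9))
    (@En.i (nat_lit 5328) (nat_lit 1) (nat_lit 14))
    (@En.i (nat_lit 10902) (nat_lit 2) (nat_lit 10))
    (@En.n l50 (nat_lit 5612) (nat_lit 15) (nat_lit 2))))
  (@Cl.mk (nat_lit 0x20005000b0006000c0006000c00050004000e00040002000b000a000e000a) (nat_lit 0x7030a009009360) (nat_lit 16) Lb.e (@T16.mk En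
    (@En.n l21971 (nat_lit 5616) (nat_lit 12) (nat_lit 10))
    (@En.n l3 (nat_lit 5611) (nat_lit 13) (nat_lit 14))
    (@En.n l3 (nat_lit 5612) (nat_lit 14) (nat_lit 10))
    (@En.i (nat_lit 11608) (nat_lit 3) (nat_lit 11))
    (@En.n l50 (nat_lit 5613) (nat_lit 4) (nat_lit 2))
    (@En.n l28 (nat_lit 5589) (nat_lit 5) (nat_lit 4))
    (@En.n l6648 (nat_lit 6004) (nat_lit 7) (nat_lit 14))
    (@En.n l28 (nat_lit 5574) (nat_lit 7) (nat_lit 4))
    (@En.n l21972 (nat_lit 8042) (nat_lit 8) (nat_lit 5))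
    (@En.i (nat_lit 8341) (nat_lit 10) (nat_lit 12))
    (@En.n l3213 (nat_lit 11142) (nat_lit 5) (nat_lit 6))
    (@En.n l5236 (nat_lit 12085) (nat_lit 12) (nat_lit 12))
    (@En.n l19251 (nat_lit 8947) (nat_lit 13) (nat_lit 6))
    (@En.n l5236 (nat_lit 5623) (nat_lit 9) (nat_lit 11))
    (@En.n l3106 (nat_lit 8710) (nat_lit 13) (nat_lit 5))
    (@En.n l17 (nat_lit 5613) (nat_lit 15) (nat_lit 2))))
  (@Cl.mk (nat_lit 0x2000c00090009000d0004000a0003000b00070007000c00060005000e0004) (nat_lit 0x9707080400a0050) (nat_lit 16) Lb.e (@T16.mk En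
    (@En.n l28 (nat_lit 5592) (nat_lit 7) (nat_lit 4))
    (@En.n l18384 (nat_lit 6013) (nat_lit 1) (nat_lit 14))
    (@En.n l28 (nat_lit 2953) (nat_lit 2) (nat_lit 5))
    (@En.i (nat_lit 8043) (nat_lit 3) (nat_lit 6))
    (@En.n l33414 (nat_lit 9205) (nat_lit 12) (nat_lit 12))
    (@En.n l61 (nat_lit 5611) (nat_lit 5) (nat_lit 7))
    (@En.n l18384 (nat_lit 11146) (nat_lit 6) (nat_lit 7))
    (@En.i (nat_lit 10995) (nat_lit 8) (nat_lit 11))
    (@En.n l117 (nat_lit 5615) (nat_lit 8) (nat_lit 3))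
    (@En.n l170 (nat_lit 12840) (nat_lit 10) (nat_lit 10))
    (@En.n l21971 (nat_lit 5616) (nat_lit 10) (nat_lit 4))
    (@En.n l11426 (nat_lit 7773) (nat_lit 12) (nat_lit 13))
    (@En.n l18449 (nat_lit 12801) (nat_lit 7) (nat_lit 9))
    (@En.i (nat_lit 10735) (nat_lit 14) (nat_lit 9))
    (@En.i (nat_lit 11605) (nat_lit 3) (nat_lit 12))
    (@En.n l50 (nat_lit 5614) (nat_lit 15) (nat_lit 2))))
  (@Cl.mk (nat_lit 0x2000b00090009000d000900050003000b00070007000c00070005000e0004) (nat_lit 0x1708500900a0040) (nat_lit 16) Lb.e (@T16.mk En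
    (@En.n l31247 (nat_lit 5593) (nat_lit 7) (nat_lit 4))
    (@En.n l601 (nat_lit 6011) (nat_lit 1) (nat_lit 14))
    (@En.n l28 (nat_lit 2962) (nat_lit 2) (nat_lit 5))
    (@En.n l6576 (nat_lit 7732) (nat_lit 3) (nat_lit 7))
    (@En.n l23976 (nat_lit 10291) (nat_lit 5) (nat_lit 12))
    (@En.n l61 (nat_lit 5612) (nat_lit 5) (nat_lit 7))
    (@En.n l19781 (nat_lit 11147) (nat_lit 6) (nat_lit 7))
    (@En.n l31248 (nat_lit 7805) (nat_lit 8) (nat_lit 11))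
    (@En.n l152 (nat_lit 5614) (nat_lit 8) (nat_lit 3))
    (@En.n l21311 (nat_lit 5819) (nat_lit 0) (nat_lit 5))
    (@En.n l97 (nat_lit 5618) (nat_lit 11) (nat_lit 9))
    (@En.n l31249 (nat_lit 7774) (nat_lit 12) (nat_lit 13))
    (@En.n l31250 (nat_lit 12799) (nat_lit 7) (nat_lit 9))
    (@En.i (nat_lit 10734) (nat_lit 14) (nat_lit 9))
    (@En.i (nat_lit 70) (nat_lit 6) (nat_lit 11))
    (@En.n l50 (nat_lit 5615) (nat_lit 15) (nat_lit 2))))
noncomputable def a351 : T16 Cl := @T16.mk Cl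
  (@Cl.mk (nat_lit 0x2000c000b000a000a0004000a0005000b00060006000c00060005000e0004) (nat_lit 0x9280070800a0040) (nat_lit 16) Lb.e (@T16.mk En
    (@En.n l29806 (nat_lit 5594) (nat_lit 15) (nat_lit 4))
    (@En.n l36549 (nat_lit 5637) (nat_lit 1) (nat_lit 14))
    (@En.i (nat_lit 5571) (nat_lit 2) (nat_lit 5))
    (@En.n l36550 (nat_lit 11658) (nat_lit 3) (nat_lit 6))
    (@En.n l28928 (nat_lit 9172) (nat_lit 5) (nat_lit 12))
    (@En.n l36551 (nat_lit 5613) (nat_lit 10) (nat_lit 6))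
    (@En.n l36552 (nat_lit 11148) (nat_lit 6) (nat_lit 6))
    (@En.n l36553 (nat_lit 12087) (nat_lit 8) (nat_lit 11))
    (@En.n l36554 (nat_lit 8949) (nat_lit 8) (nat_lit 5))
    (@En.n l36555 (nat_lit 12725) (nat_lit 10) (nat_lit 10))
    (@En.n l36556 (nat_lit 10874) (nat_lit 10) (nat_lit 4))
    (@En.n l36557 (nat_lit 12800) (nat_lit 6) (nat_lit 10))
    (@En.n l649 (nat_lit 10877) (nat_lit 13) (nat_lit 10))
    (@En.n l36558 (nat_lit 5615) (nat_lit 14) (nat_lit 11))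
    (@En.i (nat_lit 11610) (nat_lit 3) (nat_lit 12))
    (@En.n l17 (nat_lit 5616) (nat_lit 15) (nat_lit 2))))
  (@Cl.mk (nat_lit 0x2000a0005000b000b0006000b000600050005000e00050002000b000e000a) (nat_lit 0x700500000b00520) (nat_lit 16) Lb.e (@T16.mk En
    (@En.i (nat_lit 5618) (nat_lit 13) (nat_lit 10))
    (@En.i (nat_lit 4902) (nat_lit 4) (nat_lit 14))
    (@En.n l4943 (nat_lit 5234) (nat_lit 2) (nat_lit 11))
    (@En.n l50 (nat_lit 5617) (nat_lit 3) (nat_lit 2))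
    (@En.n l28 (nat_lit 5621) (nat_lit 4) (nat_lit 5))
    (@En.n l6370 (nat_lit 12282) (nat_lit 1) (nat_lit 14))
    (@En.n l1577 (nat_lit 5620) (nat_lit 11) (nat_lit 5))
    (@En.i (nat_lit 5611) (nat_lit 3) (nat_lit 5))
    (@En.n l19580 (nat_lit 5696) (nat_lit 8) (nat_lit 6))
    (@En.i (nat_lit 8346) (nat_lit 10) (nat_lit 11))
    (@En.n l3213 (nat_lit 9775) (nat_lit 6) (nat_lit 6))
    (@En.n l7901 (nat_lit 5622) (nat_lit 12) (nat_lit 11))
    (@En.n l4943 (nat_lit 12275) (nat_lit 9) (nat_lit 11))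
    (@En.n l27065 (nat_lit 5619) (nat_lit 14) (nat_lit 5))
    (@En.i (nat_lit 7944) (nat_lit 11) (nat_lit 10))
    (@En.n l17 (nat_lit 5617) (nat_lit 15) (nat_lit 2))))
  (@Cl.mk (nat_lit 0x2000c000a000a00090004000a000a00060006000b000700060006000e0005) (nat_lit 0x6804003000000a0) (nat_lit 16) Lb.e (@T16.mk En
    (@En.n l19577 (nat_lit 10282) (nat_lit 5) (nat_lit 5))
    (@En.n l19578 (nat_lit 12723) (nat_lit 1) (nat_lit 14))
    (@En.n l19579 (nat_lit 12612) (nat_lit 10) (nat_lit 6))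
    (@En.i (nat_lit 5614) (nat_lit 3) (nat_lit 6))
    (@En.n l19580 (nat_lit 5700) (nat_lit 4) (nat_lit 7))
    (@En.n l19581 (nat_lit 9986) (nat_lit 6) (nat_lit 11))
    (@En.n l61 (nat_lit 5617) (nat_lit 10) (nat_lit 6))
    (@En.n l19582 (nat_lit 11171) (nat_lit 7) (nat_lit 6))
    (@En.n l7901 (nat_lit 12342) (nat_lit 9) (nat_lit 10))
    (@En.n l4943 (nat_lit 10097) (nat_lit 10) (nat_lit 10))
    (@En.n l19583 (nat_lit 5952) (nat_lit 10) (nat_lit 4))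
    (@En.n l19584 (nat_lit 12337) (nat_lit 12) (nat_lit 9))
    (@En.n l19585 (nat_lit 5954) (nat_lit 6) (nat_lit 10))
    (@En.i (nat_lit 10737) (nat_lit 14) (nat_lit 10))
    (@En.n l19586 (nat_lit 5240) (nat_lit 3) (nat_lit 12))
    (@En.n l50 (nat_lit 5618) (nat_lit 15) (nat_lit 2))))
  (@Cl.mk (nat_lit 0x20005000b000b0005000b000900050005000e00050002000b0007000e000b) (nat_lit 0x400500a005030) (nat_lit 16) Lb.e (@T16.mk En
    (@En.n l31050 (nat_lit 5952) (nat_lit 12) (nat_lit 11))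
    (@En.n l31790 (nat_lit 5617) (nat_lit 1) (nat_lit 14))
    (@En.n l387 (nat_lit 5247) (nat_lit 14) (nat_lit 7))
    (@En.n l31791 (nat_lit 5236) (nat_lit 3) (nat_lit 11))
    (@En.n l3 (nat_lit 5619) (nat_lit 4) (nat_lit 2))
    (@En.n l2464 (nat_lit 5790) (nat_lit 5) (nat_lit 5))
    (@En.n l6109 (nat_lit 5679) (nat_lit 7) (nat_lit 14))
    (@En.n l31792 (nat_lit 9216) (nat_lit 7) (nat_lit 5))
    (@En.n l31793 (nat_lit 5613) (nat_lit 8) (nat_lit 5))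
    (@En.i (nat_lit 8558) (nat_lit 10) (nat_lit 9))
    (@En.n l31793 (nat_lit 8345) (nat_lit 11) (nat_lit 11))
    (@En.n l31794 (nat_lit 9774) (nat_lit 6) (nat_lit 5))
    (@En.n l217 (nat_lit 12374) (nat_lit 13) (nat_lit 11))
    (@En.i (nat_lit 5670) (nat_lit 9) (nat_lit 11))
    (@En.n l31795 (nat_lit 10803) (nat_lit 9) (nat_lit 5))
    (@En.n l28 (nat_lit 5619) (nat_lit 15) (nat_lit 2))))
  (@Cl.mk (nat_lit 0x20007000c00070005000e00040002000b000e0009000200090005000e000b) (nat_lit 0xb0044003061) (nat_lit 16) Lb.e (@T16.mk En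
    (@En.n l55 (nat_lit 5617) (nat_lit 12) (nat_lit 11))
    (@En.n l3447 (nat_lit 5735) (nat_lit 1) (nat_lit 14))
    (@En.n l5047 (nat_lit 9216) (nat_lit 14) (nat_lit 5))
    (@En.i (nat_lit 7939) (nat_lit 3) (nat_lit 9))
    (@En.n l17 (nat_lit 5620) (nat_lit 4) (nat_lit 2))
    (@En.n l13364 (nat_lit 12612) (nat_lit 5) (nat_lit 9))
    (@En.i (nat_lit 4904) (nat_lit 7) (nat_lit 14))
    (@En.n l13365 (nat_lit 5238) (nat_lit 2) (nat_lit 11))
    (@En.n l50 (nat_lit 5620) (nat_lit 8) (nat_lit 2))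
    (@En.i (nat_lit 5788) (nat_lit 9) (nat_lit 4))
    (@En.n l2436 (nat_lit 3672) (nat_lit 11) (nat_lit 14))
    (@En.i (nat_lit 5610) (nat_lit 2) (nat_lit 5))
    (@En.n l13366 (nat_lit 5778) (nat_lit 13) (nat_lit 7))
    (@En.i (nat_lit 8564) (nat_lit 9) (nat_lit 12))
    (@En.n l2228 (nat_lit 9773) (nat_lit 5) (nat_lit 7))
    (@En.n l11 (nat_lit 5620) (nat_lit 15) (nat_lit 2))))
  (@Cl.mk (nat_lit 0x200090005000a000a0006000b000b00070006000600050005000b000e000a) (nat_lit 0x500300100000436) (nat_lit 16) Lb.e (@T16.mk En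
    (@En.n l18000 (nat_lit 10282) (nat_lit 2) (nat_lit 10))
    (@En.i (nat_lit 4901) (nat_lit 4) (nat_lit 14))
    (@En.n l21518 (nat_lit 9325) (nat_lit 2) (nat_lit 11))
    (@En.n l21519 (nat_lit 5785) (nat_lit 3) (nat_lit 5))
    (@En.n l237 (nat_lit 12644) (nat_lit 4) (nat_lit 5))
    (@En.n l575 (nat_lit 5788) (nat_lit 10) (nat_lit 6))
    (@En.i (nat_lit 5587) (nat_lit 6) (nat_lit 6))
    (@En.n l21520 (nat_lit 11638) (nat_lit 7) (nat_lit 7))
    (@En.n l4380 (nat_lit 5617) (nat_lit 9) (nat_lit 11))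
    (@En.i (nat_lit 6888) (nat_lit 10) (nat_lit 11))
    (@En.n l1913 (nat_lit 8000) (nat_lit 11) (nat_lit 6))
    (@En.n l21521 (nat_lit 12375) (nat_lit 6) (nat_lit 10))
    (@En.n l21522 (nat_lit 12274) (nat_lit 13) (nat_lit 10))
    (@En.n l10215 (nat_lit 5790) (nat_lit 14) (nat_lit 5))
    (@En.i (nat_lit 11324) (nat_lit 0) (nat_lit 9))
    (@En.n l17 (nat_lit 5621) (nat_lit 15) (nat_lit 2))))
  (@Cl.mk (nat_lit 0x2000b0005000b0005000a0005000e00050002000e00060002000b000e000b) (nat_lit 0x404000700b00620) (nat_lit 16) Lb.e (@T16.mk En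
    (@En.i (nat_lit 12342) (nat_lit 13) (nat_lit 11))
    (@En.n l1208 (nat_lit 4900) (nat_lit 4) (nat_lit 14))
    (@En.i (nat_lit 5233) (nat_lit 12) (nat_lit 11))
    (@En.n l3 (nat_lit 5622) (nat_lit 3) (nat_lit 2))
    (@En.i (nat_lit 12375) (nat_lit 14) (nat_lit 6))
    (@En.i (nat_lit 5623) (nat_lit 1) (nat_lit 14))
    (@En.n l18 (nat_lit 5622) (nat_lit 6) (nat_lit 2))
    (@En.n l3233 (nat_lit 5617) (nat_lit 7) (nat_lit 5))
    (@En.n l396 (nat_lit 12780) (nat_lit 9) (nat_lit 14))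
    (@En.n l8183 (nat_lit 5695) (nat_lit 5) (nat_lit 5))
    (@En.n l1501 (nat_lit 8368) (nat_lit 11) (nat_lit 10))
    (@En.n l1162 (nat_lit 11540) (nat_lit 7) (nat_lit 5))
    (@En.i (nat_lit 10339) (nat_lit 9) (nat_lit 11))
    (@En.n l1603 (nat_lit 12374) (nat_lit 14) (nat_lit 5))
    (@En.i (nat_lit 9925) (nat_lit 11) (nat_lit 11))
    (@En.n l11 (nat_lit 5622) (nat_lit 15) (nat_lit 2))))
  (@Cl.mk (nat_lit 0x20005000b000e000b0002000b0005000b0005000b0005000b0005000e0005) (nat_lit 0x630060400030a0) (nat_lit 16) Lb.e (@T16.mk En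
    (@En.n l29741 (nat_lit 9239) (nat_lit 5) (nat_lit 5))
    (@En.n l29742 (nat_lit 12281) (nat_lit 1) (nat_lit 14))
    (@En.n l16749 (nat_lit 12282) (nat_lit 2) (nat_lit 5))
    (@En.n l19178 (nat_lit 2767) (nat_lit 9) (nat_lit 11))
    (@En.n l8183 (nat_lit 5272) (nat_lit 4) (nat_lit 5))
    (@En.n l16749 (nat_lit 8377) (nat_lit 11) (nat_lit 11))
    (@En.n l9772 (nat_lit 12735) (nat_lit 6) (nat_lit 5))
    (@En.i (nat_lit 10340) (nat_lit 8) (nat_lit 11))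
    (@En.n l1603 (nat_lit 5671) (nat_lit 14) (nat_lit 5))
    (@En.n l7563 (nat_lit 10757) (nat_lit 10) (nat_lit 11))
    (@En.n l11 (nat_lit 5623) (nat_lit 10) (nat_lit 2))
    (@En.n l8181 (nat_lit 12725) (nat_lit 12) (nat_lit 11))
    (@En.n l1208 (nat_lit 12276) (nat_lit 13) (nat_lit 14))
    (@En.n l11240 (nat_lit 5617) (nat_lit 2) (nat_lit 11))
    (@En.i (nat_lit 12300) (nat_lit 13) (nat_lit 5))
    (@En.n l3 (nat_lit 5623) (nat_lit 15) (nat_lit 2))))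
  (@Cl.mk (nat_lit 0x2000a00030007000a000d000b00060003000c0006000500090004000e000d) (nat_lit 0x1006560030050aa) (nat_lit 16) Lb.e (@T16.mk En
    (@En.n l396 (nat_lit 5536) (nat_lit 2) (nat_lit 13))
    (@En.i (nat_lit 5490) (nat_lit 1) (nat_lit 14))
    (@En.n l8501 (nat_lit 5640) (nat_lit 2) (nat_lit 4))
    (@En.n l16834 (nat_lit 5410) (nat_lit 3) (nat_lit 9))
    (@En.i (nat_lit 5411) (nat_lit 4) (nat_lit 5))
    (@En.n l9715 (nat_lit 5533) (nat_lit 5) (nat_lit 6))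
    (@En.n l32935 (nat_lit 5627) (nat_lit 7) (nat_lit 12))
    (@En.n l3536 (nat_lit 5564) (nat_lit 7) (nat_lit 3))
    (@En.n l1865 (nat_lit 12627) (nat_lit 8) (nat_lit 6))
    (@En.n l68 (nat_lit 7250) (nat_lit 10) (nat_lit 11))
    (@En.n l3866 (nat_lit 5989) (nat_lit 5) (nat_lit 13))
    (@En.n l6784 (nat_lit 7364) (nat_lit 8) (nat_lit 10))
    (@En.i (nat_lit 4346) (nat_lit 13) (nat_lit 7))
    (@En.i (nat_lit 5536) (nat_lit 14) (nat_lit 3))
    (@En.i (nat_lit 4933) (nat_lit 0) (nat_lit 10))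
    (@En.n l50 (nat_lit 5624) (nat_lit 15) (nat_lit 2))))
  (@Cl.mk (nat_lit 0x20007000a000d000b00080003000c0006000500090004000d0008000e0003) (nat_lit 0x64850500409080) (nat_lit 16) Lb.e (@T16.mk En
    (@En.n l22633 (nat_lit 5536) (nat_lit 15) (nat_lit 3))
    (@En.n l8012 (nat_lit 13860) (nat_lit 0) (nat_lit 14))
    (@En.n l16069 (nat_lit 7543) (nat_lit 2) (nat_lit 8))
    (@En.n l9862 (nat_lit 8249) (nat_lit 4) (nat_lit 13))
    (@En.i (nat_lit 5638) (nat_lit 4) (nat_lit 4))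
    (@En.n l11009 (nat_lit 5412) (nat_lit 5) (nat_lit 9))
    (@En.n l16069 (nat_lit 5413) (nat_lit 6) (nat_lit 5))
    (@En.n l25675 (nat_lit 5532) (nat_lit 7) (nat_lit 6))
    (@En.n l565 (nat_lit 5628) (nat_lit 9) (nat_lit 12))
    (@En.n l38126 (nat_lit 5563) (nat_lit 9) (nat_lit 3))
    (@En.i (nat_lit 7665) (nat_lit 11) (nat_lit 8))
    (@En.n l5403 (nat_lit 7248) (nat_lit 12) (nat_lit 11))
    (@En.n l2038 (nat_lit 5997) (nat_lit 5) (nat_lit 13))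
    (@En.n l19591 (nat_lit 4811) (nat_lit 8) (nat_lit 10))
    (@En.n l21975 (nat_lit 10316) (nat_lit 14) (nat_lit 7))
    (@En.n l17 (nat_lit 5625) (nat_lit 15) (nat_lit 2))))
  (@Cl.mk (nat_lit 0x300030008000b0008000c0007000c00050004000800040008000d000d0009) (nat_lit 0x66080200305680) (nat_lit 16) Lb.e (@T16.mk En
    (@En.i (nat_lit 6525) (nat_lit 0) (nat_lit 9))
    (@En.n l41342 (nat_lit 5628) (nat_lit 3) (nat_lit 13))
    (@En.n l41343 (nat_lit 10815) (nat_lit 2) (nat_lit 13))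
    (@En.n l41344 (nat_lit 5531) (nat_lit 3) (nat_lit 8))
    (@En.n l41345 (nat_lit 3246) (nat_lit 4) (nat_lit 4))
    (@En.n l41346 (nat_lit 5629) (nat_lit 5) (nat_lit 8))
    (@En.n l38091 (nat_lit 3981) (nat_lit 6) (nat_lit 4))
    (@En.n l41347 (nat_lit 6012) (nat_lit 7) (nat_lit 5))
    (@En.n l41343 (nat_lit 4364) (nat_lit 9) (nat_lit 12))
    (@En.n l41348 (nat_lit 12586) (nat_lit 10) (nat_lit 7))
    (@En.n l41345 (nat_lit 6981) (nat_lit 11) (nat_lit 12))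
    (@En.n l9956 (nat_lit 6179) (nat_lit 12) (nat_lit 8))
    (@En.n l41343 (nat_lit 7013) (nat_lit 7) (nat_lit 11))
    (@En.n l41349 (nat_lit 10595) (nat_lit 14) (nat_lit 8))
    (@En.n l7 (nat_lit 5627) (nat_lit 13) (nat_lit 3))
    (@En.n l41350 (nat_lit 5628) (nat_lit 0) (nat_lit 3))))
  (@Cl.mk (nat_lit 0x2000a00030008000b0008000c0006000c00050004000800040008000e000d) (nat_lit 0x106604020020577) (nat_lit 16) Lb.e (@T16.mk En
    (@En.n l134 (nat_lit 5626) (nat_lit 2) (nat_lit 13))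
    (@En.n l13104 (nat_lit 10333) (nat_lit 1) (nat_lit 14))
    (@En.n l20132 (nat_lit 5533) (nat_lit 2) (nat_lit 8))
    (@En.n l27323 (nat_lit 3247) (nat_lit 3) (nat_lit 4))
    (@En.n l38090 (nat_lit 5630) (nat_lit 4) (nat_lit 8))
    (@En.n l38091 (nat_lit 3985) (nat_lit 5) (nat_lit 4))
    (@En.n l13781 (nat_lit 6096) (nat_lit 6) (nat_lit 5))
    (@En.n l9484 (nat_lit 2660) (nat_lit 8) (nat_lit 12))
    (@En.n l20133 (nat_lit 12588) (nat_lit 8) (nat_lit 6))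
    (@En.n l36756 (nat_lit 6983) (nat_lit 10) (nat_lit 12))
    (@En.n l1865 (nat_lit 6175) (nat_lit 11) (nat_lit 8))
    (@En.n l38092 (nat_lit 7014) (nat_lit 7) (nat_lit 11))
    (@En.n l38091 (nat_lit 8116) (nat_lit 13) (nat_lit 8))
    (@En.i (nat_lit 5626) (nat_lit 14) (nat_lit 3))
    (@En.i (nat_lit 4937) (nat_lit 0) (nat_lit 10))
    (@En.n l28 (nat_lit 5627) (nat_lit 15) (nat_lit 2))))
  (@Cl.mk (nat_lit 0x20008000b0008000c0008000c00050004000800040008000d0008000e0003) (nat_lit 0x6608640030370b0) (nat_lit 16) Lb.e (@T16.mk En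
    (@En.n l35472 (nat_lit 5626) (nat_lit 15) (nat_lit 3))
    (@En.n l1596 (nat_lit 13139) (nat_lit 0) (nat_lit 14))
    (@En.i (nat_lit 6535) (nat_lit 2) (nat_lit 8))
    (@En.n l3082 (nat_lit 10816) (nat_lit 4) (nat_lit 13))
    (@En.n l35473 (nat_lit 5532) (nat_lit 4) (nat_lit 8))
    (@En.i (nat_lit 3248) (nat_lit 5) (nat_lit 4))
    (@En.n l219 (nat_lit 5631) (nat_lit 6) (nat_lit 8))
    (@En.n l5760 (nat_lit 3982) (nat_lit 7) (nat_lit 4))
    (@En.n l38113 (nat_lit 6011) (nat_lit 8) (nat_lit 5))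
    (@En.i (nat_lit 4367) (nat_lit 10) (nat_lit 12))
    (@En.n l134 (nat_lit 12587) (nat_lit 11) (nat_lit 8))
    (@En.i (nat_lit 6982) (nat_lit 12) (nat_lit 12))
    (@En.n l38114 (nat_lit 6195) (nat_lit 13) (nat_lit 8))
    (@En.n l1596 (nat_lit 7012) (nat_lit 7) (nat_lit 11))
    (@En.n l3082 (nat_lit 10596) (nat_lit 14) (nat_lit 8))
    (@En.n l17 (nat_lit 5628) (nat_lit 15) (nat_lit 2))))
  (@Cl.mk (nat_lit 0x300030008000d000b000900030008000d0005000800030007000d000d0008) (nat_lit 0x6a700020200570) (nat_lit 16) Lb.e (@T16.mk En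
    (@En.n l6140 (nat_lit 6524) (nat_lit 0) (nat_lit 8))
    (@En.n l1867 (nat_lit 5631) (nat_lit 3) (nat_lit 13))
    (@En.n l33591 (nat_lit 10817) (nat_lit 9) (nat_lit 13))
    (@En.n l29838 (nat_lit 5535) (nat_lit 3) (nat_lit 7))
    (@En.n l18 (nat_lit 5632) (nat_lit 4) (nat_lit 3))
    (@En.n l6140 (nat_lit 3978) (nat_lit 0) (nat_lit 8))
    (@En.n l4172 (nat_lit 5635) (nat_lit 6) (nat_lit 5))
    (@En.n l649 (nat_lit 2333) (nat_lit 8) (nat_lit 13))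
    (@En.i (nat_lit 12584) (nat_lit 3) (nat_lit 8))
    (@En.n l11705 (nat_lit 3981) (nat_lit 9) (nat_lit 3))
    (@En.i (nat_lit 6064) (nat_lit 0) (nat_lit 9))
    (@En.n l39736 (nat_lit 5626) (nat_lit 12) (nat_lit 11))
    (@En.n l33591 (nat_lit 3929) (nat_lit 13) (nat_lit 13))
    (@En.n l3517 (nat_lit 10599) (nat_lit 3) (nat_lit 8))
    (@En.n l6950 (nat_lit 5630) (nat_lit 13) (nat_lit 3))
    (@En.n l1865 (nat_lit 5631) (nat_lit 0) (nat_lit 3))))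
  (@Cl.mk (nat_lit 0x2000900030008000d000b000900030007000d0005000800030007000e000d) (nat_lit 0x206a73002010066) (nat_lit 16) Lb.e (@T16.mk En
    (@En.n l2544 (nat_lit 5629) (nat_lit 2) (nat_lit 13))
    (@En.n l3337 (nat_lit 10331) (nat_lit 1) (nat_lit 14))
    (@En.i (nat_lit 5568) (nat_lit 2) (nat_lit 7))
    (@En.n l7511 (nat_lit 5634) (nat_lit 3) (nat_lit 3))
    (@En.i (nat_lit 3980) (nat_lit 0) (nat_lit 8))
    (@En.n l7512 (nat_lit 5636) (nat_lit 5) (nat_lit 5))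
    (@En.n l719 (nat_lit 2328) (nat_lit 7) (nat_lit 13))
    (@En.i (nat_lit 12589) (nat_lit 7) (nat_lit 7))
    (@En.n l2869 (nat_lit 3985) (nat_lit 8) (nat_lit 3))
    (@En.n l2544 (nat_lit 6070) (nat_lit 0) (nat_lit 9))
    (@En.n l39437 (nat_lit 5627) (nat_lit 11) (nat_lit 11))
    (@En.n l39438 (nat_lit 7109) (nat_lit 12) (nat_lit 13))
    (@En.i (nat_lit 8101) (nat_lit 13) (nat_lit 8))
    (@En.n l3815 (nat_lit 5629) (nat_lit 14) (nat_lit 3))
    (@En.i (nat_lit 4930) (nat_lit 0) (nat_lit 9))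
    (@En.n l11 (nat_lit 5630) (nat_lit 15) (nat_lit 2))))
  (@Cl.mk (nat_lit 0x20008000d000b000900030009000d0005000800030007000d0007000e0003) (nat_lit 0x6670073020060a0) (nat_lit 16) Lb.e (@T16.mk En
    (@En.n l2869 (nat_lit 5629) (nat_lit 15) (nat_lit 3))
    (@En.n l1327 (nat_lit 13138) (nat_lit 0) (nat_lit 14))
    (@En.i (nat_lit 6534) (nat_lit 2) (nat_lit 7))
    (@En.n l170 (nat_lit 10818) (nat_lit 4) (nat_lit 13))
    (@En.n l14161 (nat_lit 5569) (nat_lit 4) (nat_lit 7))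
    (@En.n l28 (nat_lit 5633) (nat_lit 5) (nat_lit 3))
    (@En.n l14161 (nat_lit 3979) (nat_lit 0) (nat_lit 8))
    (@En.n l5246 (nat_lit 5637) (nat_lit 7) (nat_lit 5))
    (@En.i (nat_lit 4368) (nat_lit 9) (nat_lit 13))
    (@En.i (nat_lit 12046) (nat_lit 10) (nat_lit 9))
    (@En.n l4073 (nat_lit 3982) (nat_lit 10) (nat_lit 3))
    (@En.i (nat_lit 6062) (nat_lit 0) (nat_lit 9))
    (@En.n l11778 (nat_lit 5628) (nat_lit 13) (nat_lit 11))
    (@En.n l4684 (nat_lit 7026) (nat_lit 14) (nat_lit 13))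
    (@En.n l170 (nat_lit 10598) (nat_lit 3) (nat_lit 8))
    (@En.n l17 (nat_lit 5631) (nat_lit 15) (nat_lit 2))))
noncomputable def a352 : T16 Cl := @T16.mk Cl
  (@Cl.mk (nat_lit 0x300030009000d000a000900030008000d0007000600030007000d000d0008) (nat_lit 0x9100520000002) (nat_lit 16) Lb.e (@T16.mk En
    (@En.n l97 (nat_lit 6523) (nat_lit 0) (nat_lit 8))
    (@En.n l1867 (nat_lit 5633) (nat_lit 3) (nat_lit 13))
    (@En.n l28143 (nat_lit 10828) (nat_lit 9) (nat_lit 13))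
    (@En.n l28595 (nat_lit 6014) (nat_lit 3) (nat_lit 7))
    (@En.i (nat_lit 5629) (nat_lit 4) (nat_lit 3))
    (@En.n l1927 (nat_lit 6264) (nat_lit 0) (nat_lit 6))
    (@En.n l5592 (nat_lit 1315) (nat_lit 6) (nat_lit 7))
    (@En.n l649 (nat_lit 2330) (nat_lit 8) (nat_lit 13))
    (@En.i (nat_lit 12435) (nat_lit 3) (nat_lit 8))
    (@En.n l28596 (nat_lit 3984) (nat_lit 9) (nat_lit 3))
    (@En.n l61 (nat_lit 6066) (nat_lit 0) (nat_lit 9))
    (@En.n l27856 (nat_lit 3246) (nat_lit 12) (nat_lit 10))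
    (@En.n l18067 (nat_lit 3922) (nat_lit 13) (nat_lit 13))
    (@En.n l3517 (nat_lit 10732) (nat_lit 3) (nat_lit 9))
    (@En.n l152 (nat_lit 5634) (nat_lit 13) (nat_lit 3))
    (@En.n l1865 (nat_lit 5633) (nat_lit 0) (nat_lit 3))))
  (@Cl.mk (nat_lit 0x20009000d000a000900030009000d0007000600030007000d0007000e0003) (nat_lit 0x9100030000b0a0) (nat_lit 16) Lb.e (@T16.mk En
    (@En.n l2869 (nat_lit 5632) (nat_lit 15) (nat_lit 3))
    (@En.n l1327 (nat_lit 13633) (nat_lit 0) (nat_lit 14))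
    (@En.i (nat_lit 6385) (nat_lit 2) (nat_lit 7))
    (@En.n l20813 (nat_lit 10826) (nat_lit 4) (nat_lit 13))
    (@En.n l29786 (nat_lit 6013) (nat_lit 4) (nat_lit 7))
    (@En.i (nat_lit 5631) (nat_lit 5) (nat_lit 3))
    (@En.n l3457 (nat_lit 6265) (nat_lit 0) (nat_lit 6))
    (@En.n l12444 (nat_lit 1316) (nat_lit 7) (nat_lit 7))
    (@En.i (nat_lit 4374) (nat_lit 9) (nat_lit 13))
    (@En.n l35563 (nat_lit 12048) (nat_lit 10) (nat_lit 9))
    (@En.n l6868 (nat_lit 3983) (nat_lit 10) (nat_lit 3))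
    (@En.n l77 (nat_lit 6065) (nat_lit 0) (nat_lit 9))
    (@En.n l3462 (nat_lit 3248) (nat_lit 13) (nat_lit 10))
    (@En.n l619 (nat_lit 3921) (nat_lit 14) (nat_lit 13))
    (@En.i (nat_lit 10731) (nat_lit 3) (nat_lit 9))
    (@En.n l17 (nat_lit 5633) (nat_lit 15) (nat_lit 2))))
  (@Cl.mk (nat_lit 0x2000900030009000d000a000900030007000d0007000600030007000e000d) (nat_lit 0x200813002000061) (nat_lit 16) Lb.e (@T16.mk En
    (@En.i (nat_lit 5632) (nat_lit 2) (nat_lit 13))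
    (@En.n l5351 (nat_lit 10332) (nat_lit 1) (nat_lit 14))
    (@En.n l13301 (nat_lit 6086) (nat_lit 2) (nat_lit 7))
    (@En.n l947 (nat_lit 5630) (nat_lit 3) (nat_lit 3))
    (@En.n l1927 (nat_lit 6266) (nat_lit 0) (nat_lit 6))
    (@En.n l5592 (nat_lit 1317) (nat_lit 5) (nat_lit 7))
    (@En.n l33633 (nat_lit 2329) (nat_lit 7) (nat_lit 13))
    (@En.i (nat_lit 12592) (nat_lit 7) (nat_lit 7))
    (@En.n l1927 (nat_lit 5428) (nat_lit 8) (nat_lit 3))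
    (@En.n l61 (nat_lit 6068) (nat_lit 0) (nat_lit 9))
    (@En.n l33601 (nat_lit 3247) (nat_lit 11) (nat_lit 10))
    (@En.n l18067 (nat_lit 3925) (nat_lit 12) (nat_lit 13))
    (@En.n l947 (nat_lit 9406) (nat_lit 13) (nat_lit 9))
    (@En.n l117 (nat_lit 5632) (nat_lit 14) (nat_lit 3))
    (@En.i (nat_lit 1735) (nat_lit 0) (nat_lit 9))
    (@En.n l3 (nat_lit 5634) (nat_lit 15) (nat_lit 2))))
  (@Cl.mk (nat_lit 0x300030008000c000b000a000a000400090005000800060006000d000d0007) (nat_lit 0x29320060200000) (nat_lit 16) Lb.e (@T16.mk En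
    (@En.n l97 (nat_lit 6521) (nat_lit 0) (nat_lit 7))
    (@En.n l20389 (nat_lit 5637) (nat_lit 3) (nat_lit 13))
    (@En.i (nat_lit 10806) (nat_lit 2) (nat_lit 13))
    (@En.n l8053 (nat_lit 6003) (nat_lit 10) (nat_lit 6))
    (@En.n l18 (nat_lit 5936) (nat_lit 4) (nat_lit 6))
    (@En.n l28 (nat_lit 3007) (nat_lit 10) (nat_lit 8))
    (@En.i (nat_lit 5901) (nat_lit 6) (nat_lit 5))
    (@En.i (nat_lit 11811) (nat_lit 8) (nat_lit 9))
    (@En.n l33660 (nat_lit 5429) (nat_lit 8) (nat_lit 4))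
    (@En.n l5653 (nat_lit 6091) (nat_lit 6) (nat_lit 10))
    (@En.n l601 (nat_lit 5632) (nat_lit 11) (nat_lit 10))
    (@En.n l5654 (nat_lit 6012) (nat_lit 12) (nat_lit 11))
    (@En.n l14375 (nat_lit 5337) (nat_lit 13) (nat_lit 12))
    (@En.n l3517 (nat_lit 10606) (nat_lit 14) (nat_lit 8))
    (@En.n l152 (nat_lit 5636) (nat_lit 13) (nat_lit 3))
    (@En.n l39749 (nat_lit 5637) (nat_lit 0) (nat_lit 3))))
  (@Cl.mk (nat_lit 0x2000800030008000c000b000a000a000400080005000800060006000e000d) (nat_lit 0x2952000020051) (nat_lit 16) Lb.e (@T16.mk En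
    (@En.i (nat_lit 5635) (nat_lit 2) (nat_lit 13))
    (@En.n l9926 (nat_lit 9161) (nat_lit 1) (nat_lit 14))
    (@En.n l3180 (nat_lit 6002) (nat_lit 10) (nat_lit 6))
    (@En.n l18 (nat_lit 5935) (nat_lit 3) (nat_lit 6))
    (@En.n l28 (nat_lit 3008) (nat_lit 4) (nat_lit 8))
    (@En.i (nat_lit 5902) (nat_lit 5) (nat_lit 5))
    (@En.i (nat_lit 12739) (nat_lit 6) (nat_lit 8))
    (@En.n l5909 (nat_lit 5430) (nat_lit 7) (nat_lit 4))
    (@En.n l5653 (nat_lit 6090) (nat_lit 9) (nat_lit 10))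
    (@En.n l601 (nat_lit 5634) (nat_lit 10) (nat_lit 10))
    (@En.n l5654 (nat_lit 6096) (nat_lit 11) (nat_lit 11))
    (@En.n l14375 (nat_lit 5342) (nat_lit 12) (nat_lit 12))
    (@En.n l3133 (nat_lit 2804) (nat_lit 13) (nat_lit 8))
    (@En.n l117 (nat_lit 5635) (nat_lit 14) (nat_lit 3))
    (@En.i (nat_lit 6516) (nat_lit 0) (nat_lit 8))
    (@En.n l3 (nat_lit 5636) (nat_lit 15) (nat_lit 2))))
  (@Cl.mk (nat_lit 0x20008000c000b000a000a0004000a0005000800060006000d0006000e0003) (nat_lit 0x29320080500b030) (nat_lit 16) Lb.e (@T16.mk En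
    (@En.n l36363 (nat_lit 5635) (nat_lit 15) (nat_lit 3))
    (@En.i (nat_lit 13221) (nat_lit 0) (nat_lit 14))
    (@En.i (nat_lit 6010) (nat_lit 2) (nat_lit 6))
    (@En.n l32390 (nat_lit 10805) (nat_lit 4) (nat_lit 13))
    (@En.n l1578 (nat_lit 6004) (nat_lit 10) (nat_lit 6))
    (@En.n l18697 (nat_lit 5938) (nat_lit 5) (nat_lit 6))
    (@En.n l575 (nat_lit 3009) (nat_lit 6) (nat_lit 8))
    (@En.n l13591 (nat_lit 6059) (nat_lit 7) (nat_lit 5))
    (@En.n l16411 (nat_lit 12724) (nat_lit 9) (nat_lit 10))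
    (@En.n l36364 (nat_lit 5431) (nat_lit 9) (nat_lit 4))
    (@En.n l565 (nat_lit 6093) (nat_lit 11) (nat_lit 10))
    (@En.n l5403 (nat_lit 5633) (nat_lit 12) (nat_lit 10))
    (@En.n l36365 (nat_lit 6011) (nat_lit 13) (nat_lit 11))
    (@En.n l13596 (nat_lit 5341) (nat_lit 14) (nat_lit 12))
    (@En.i (nat_lit 10605) (nat_lit 14) (nat_lit 8))
    (@En.n l17 (nat_lit 5637) (nat_lit 15) (nat_lit 2))))
  (@Cl.mk (nat_lit 0x200090009000d000a00080003000c0007000700060004000d0008000e0003) (nat_lit 0x67b65030000b060) (nat_lit 16) Lb.e (@T16.mk En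
    (@En.n l8806 (nat_lit 3257) (nat_lit 15) (nat_lit 3))
    (@En.i (nat_lit 13643) (nat_lit 0) (nat_lit 14))
    (@En.i (nat_lit 7186) (nat_lit 2) (nat_lit 8))
    (@En.n l9862 (nat_lit 10465) (nat_lit 2) (nat_lit 13))
    (@En.i (nat_lit 3632) (nat_lit 4) (nat_lit 4))
    (@En.n l8163 (nat_lit 5407) (nat_lit 5) (nat_lit 6))
    (@En.n l152 (nat_lit 5641) (nat_lit 9) (nat_lit 7))
    (@En.n l9862 (nat_lit 5522) (nat_lit 7) (nat_lit 7))
    (@En.n l565 (nat_lit 3248) (nat_lit 9) (nat_lit 12))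
    (@En.n l8163 (nat_lit 5652) (nat_lit 9) (nat_lit 3))
    (@En.i (nat_lit 10121) (nat_lit 11) (nat_lit 8))
    (@En.n l5403 (nat_lit 4138) (nat_lit 12) (nat_lit 10))
    (@En.n l2038 (nat_lit 5662) (nat_lit 13) (nat_lit 13))
    (@En.n l5014 (nat_lit 5549) (nat_lit 7) (nat_lit 9))
    (@En.i (nat_lit 6855) (nat_lit 14) (nat_lit 9))
    (@En.n l17 (nat_lit 5638) (nat_lit 15) (nat_lit 2))))
  (@Cl.mk (nat_lit 0x2000d000b00080003000d000700050003000d000d000800030003000e0009) (nat_lit 0xb50060009000061) (nat_lit 16) Lb.e (@T16.mk En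
    (@En.i (nat_lit 3257) (nat_lit 13) (nat_lit 9))
    (@En.i (nat_lit 10933) (nat_lit 1) (nat_lit 14))
    (@En.n l152 (nat_lit 5645) (nat_lit 13) (nat_lit 3))
    (@En.n l16716 (nat_lit 5641) (nat_lit 3) (nat_lit 3))
    (@En.n l97 (nat_lit 8038) (nat_lit 0) (nat_lit 8))
    (@En.n l2503 (nat_lit 5641) (nat_lit 6) (nat_lit 13))
    (@En.n l27765 (nat_lit 11310) (nat_lit 7) (nat_lit 13))
    (@En.n l4322 (nat_lit 5644) (nat_lit 7) (nat_lit 3))
    (@En.i (nat_lit 4517) (nat_lit 8) (nat_lit 5))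
    (@En.n l27765 (nat_lit 5527) (nat_lit 5) (nat_lit 7))
    (@En.n l5 (nat_lit 3250) (nat_lit 11) (nat_lit 13))
    (@En.n l50 (nat_lit 4670) (nat_lit 11) (nat_lit 3))
    (@En.n l4322 (nat_lit 10120) (nat_lit 0) (nat_lit 8))
    (@En.n l217 (nat_lit 4664) (nat_lit 14) (nat_lit 11))
    (@En.i (nat_lit 6097) (nat_lit 11) (nat_lit 13))
    (@En.n l28 (nat_lit 5639) (nat_lit 15) (nat_lit 2))))
  (@Cl.mk (nat_lit 0x2000a000300090009000d000a00060003000c0007000700060004000e000d) (nat_lit 0x2057b8003000091) (nat_lit 16) Lb.e (@T16.mk En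
    (@En.i (nat_lit 3257) (nat_lit 2) (nat_lit 13))
    (@En.i (nat_lit 11220) (nat_lit 1) (nat_lit 14))
    (@En.n l13052 (nat_lit 3634) (nat_lit 2) (nat_lit 4))
    (@En.n l6981 (nat_lit 5408) (nat_lit 3) (nat_lit 6))
    (@En.n l55 (nat_lit 5645) (nat_lit 4) (nat_lit 7))
    (@En.n l6981 (nat_lit 5519) (nat_lit 5) (nat_lit 7))
    (@En.n l5 (nat_lit 3247) (nat_lit 7) (nat_lit 12))
    (@En.n l20100 (nat_lit 5653) (nat_lit 7) (nat_lit 3))
    (@En.n l2492 (nat_lit 12284) (nat_lit 8) (nat_lit 6))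
    (@En.n l217 (nat_lit 4137) (nat_lit 10) (nat_lit 10))
    (@En.n l7477 (nat_lit 5658) (nat_lit 11) (nat_lit 13))
    (@En.n l22483 (nat_lit 5543) (nat_lit 7) (nat_lit 9))
    (@En.n l7477 (nat_lit 8747) (nat_lit 13) (nat_lit 9))
    (@En.n l117 (nat_lit 3257) (nat_lit 14) (nat_lit 3))
    (@En.i (nat_lit 5242) (nat_lit 0) (nat_lit 10))
    (@En.n l3 (nat_lit 5640) (nat_lit 15) (nat_lit 2))))
  (@Cl.mk (nat_lit 0x2000d000b00090003000d000700050003000d0007000e00030002000e0009) (nat_lit 0xa6606000b050067) (nat_lit 16) Lb.e (@T16.mk En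
    (@En.i (nat_lit 5638) (nat_lit 14) (nat_lit 9))
    (@En.i (nat_lit 8030) (nat_lit 1) (nat_lit 14))
    (@En.n l17 (nat_lit 5641) (nat_lit 2) (nat_lit 2))
    (@En.n l8806 (nat_lit 5639) (nat_lit 3) (nat_lit 3))
    (@En.i (nat_lit 13642) (nat_lit 0) (nat_lit 14))
    (@En.i (nat_lit 7721) (nat_lit 5) (nat_lit 7))
    (@En.n l25675 (nat_lit 11309) (nat_lit 7) (nat_lit 13))
    (@En.i (nat_lit 5643) (nat_lit 7) (nat_lit 3))
    (@En.n l8163 (nat_lit 5876) (nat_lit 8) (nat_lit 5))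
    (@En.n l25675 (nat_lit 5529) (nat_lit 6) (nat_lit 7))
    (@En.n l565 (nat_lit 6367) (nat_lit 11) (nat_lit 13))
    (@En.n l8163 (nat_lit 5642) (nat_lit 11) (nat_lit 3))
    (@En.i (nat_lit 10119) (nat_lit 0) (nat_lit 9))
    (@En.n l5399 (nat_lit 4666) (nat_lit 14) (nat_lit 11))
    (@En.i (nat_lit 6099) (nat_lit 12) (nat_lit 13))
    (@En.n l3 (nat_lit 5641) (nat_lit 15) (nat_lit 2))))
  (@Cl.mk (nat_lit 0x2000d0008000c0003000d000700040003000d0008000e00030002000e0009) (nat_lit 0x9550600080800a7) (nat_lit 16) Lb.e (@T16.mk En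
    (@En.i (nat_lit 5652) (nat_lit 14) (nat_lit 9))
    (@En.i (nat_lit 10934) (nat_lit 1) (nat_lit 14))
    (@En.n l17 (nat_lit 5642) (nat_lit 2) (nat_lit 2))
    (@En.n l2943 (nat_lit 4670) (nat_lit 3) (nat_lit 3))
    (@En.i (nat_lit 13644) (nat_lit 0) (nat_lit 14))
    (@En.i (nat_lit 6465) (nat_lit 5) (nat_lit 8))
    (@En.i (nat_lit 11247) (nat_lit 7) (nat_lit 13))
    (@En.n l4001 (nat_lit 5648) (nat_lit 7) (nat_lit 3))
    (@En.i (nat_lit 5891) (nat_lit 8) (nat_lit 4))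
    (@En.i (nat_lit 3921) (nat_lit 6) (nat_lit 7))
    (@En.n l9825 (nat_lit 3229) (nat_lit 11) (nat_lit 13))
    (@En.n l11987 (nat_lit 5641) (nat_lit 11) (nat_lit 3))
    (@En.i (nat_lit 3698) (nat_lit 0) (nat_lit 12))
    (@En.n l15797 (nat_lit 12500) (nat_lit 14) (nat_lit 8))
    (@En.i (nat_lit 6116) (nat_lit 12) (nat_lit 13))
    (@En.n l3 (nat_lit 5642) (nat_lit 15) (nat_lit 2))))
  (@Cl.mk (nat_lit 0x2000d000c00090003000d000400080003000d0007000e00030002000e0008) (nat_lit 0x866050209070081) (nat_lit 16) Lb.e (@T16.mk En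
    (@En.i (nat_lit 3632) (nat_lit 14) (nat_lit 8))
    (@En.i (nat_lit 10939) (nat_lit 1) (nat_lit 14))
    (@En.n l17 (nat_lit 5643) (nat_lit 2) (nat_lit 2))
    (@En.i (nat_lit 5644) (nat_lit 3) (nat_lit 3))
    (@En.i (nat_lit 13645) (nat_lit 0) (nat_lit 14))
    (@En.i (nat_lit 7722) (nat_lit 5) (nat_lit 7))
    (@En.n l564 (nat_lit 4713) (nat_lit 7) (nat_lit 13))
    (@En.n l7 (nat_lit 5641) (nat_lit 7) (nat_lit 3))
    (@En.i (nat_lit 5400) (nat_lit 0) (nat_lit 8))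
    (@En.n l2678 (nat_lit 4595) (nat_lit 9) (nat_lit 4))
    (@En.i (nat_lit 6366) (nat_lit 11) (nat_lit 13))
    (@En.n l2530 (nat_lit 5648) (nat_lit 11) (nat_lit 3))
    (@En.i (nat_lit 10123) (nat_lit 0) (nat_lit 9))
    (@En.i (nat_lit 4669) (nat_lit 14) (nat_lit 12))
    (@En.i (nat_lit 6107) (nat_lit 12) (nat_lit 13))
    (@En.n l3 (nat_lit 5643) (nat_lit 15) (nat_lit 2))))
  (@Cl.mk (nat_lit 0x2000d000c00080003000d000400080003000d000d000800030003000e0008) (nat_lit 0x850050209a00081) (nat_lit 16) Lb.e (@T16.mk En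
    (@En.n l18120 (nat_lit 3628) (nat_lit 13) (nat_lit 8))
    (@En.n l11308 (nat_lit 10937) (nat_lit 1) (nat_lit 14))
    (@En.n l10800 (nat_lit 5646) (nat_lit 13) (nat_lit 3))
    (@En.n l18 (nat_lit 5643) (nat_lit 3) (nat_lit 3))
    (@En.n l4353 (nat_lit 8037) (nat_lit 0) (nat_lit 8))
    (@En.n l61 (nat_lit 5643) (nat_lit 6) (nat_lit 13))
    (@En.n l18121 (nat_lit 4707) (nat_lit 7) (nat_lit 13))
    (@En.n l3011 (nat_lit 5639) (nat_lit 7) (nat_lit 3))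
    (@En.i (nat_lit 2957) (nat_lit 0) (nat_lit 8))
    (@En.n l2678 (nat_lit 4593) (nat_lit 9) (nat_lit 4))
    (@En.n l13431 (nat_lit 5650) (nat_lit 11) (nat_lit 13))
    (@En.n l137 (nat_lit 3630) (nat_lit 11) (nat_lit 3))
    (@En.i (nat_lit 10103) (nat_lit 0) (nat_lit 8))
    (@En.n l18122 (nat_lit 4667) (nat_lit 14) (nat_lit 12))
    (@En.i (nat_lit 6109) (nat_lit 11) (nat_lit 13))
    (@En.n l3 (nat_lit 5644) (nat_lit 15) (nat_lit 2))))
  (@Cl.mk (nat_lit 0x200090003000e00090002000d000b00070003000d000700050003000e000d) (nat_lit 0x20660a70060008a) (nat_lit 16) Lb.e (@T16.mk En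
    (@En.i (nat_lit 5639) (nat_lit 6) (nat_lit 13))
    (@En.i (nat_lit 11222) (nat_lit 1) (nat_lit 14))
    (@En.i (nat_lit 5646) (nat_lit 2) (nat_lit 3))
    (@En.i (nat_lit 5863) (nat_lit 3) (nat_lit 5))
    (@En.n l764 (nat_lit 5528) (nat_lit 4) (nat_lit 7))
    (@En.n l5 (nat_lit 6073) (nat_lit 6) (nat_lit 13))
    (@En.n l50 (nat_lit 5647) (nat_lit 6) (nat_lit 3))
    (@En.i (nat_lit 12287) (nat_lit 7) (nat_lit 7))
    (@En.n l217 (nat_lit 4665) (nat_lit 9) (nat_lit 11))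
    (@En.i (nat_lit 6098) (nat_lit 10) (nat_lit 13))
    (@En.n l28 (nat_lit 5645) (nat_lit 10) (nat_lit 2))
    (@En.i (nat_lit 5640) (nat_lit 12) (nat_lit 9))
    (@En.i (nat_lit 9033) (nat_lit 1) (nat_lit 14))
    (@En.n l117 (nat_lit 5639) (nat_lit 2) (nat_lit 3))
    (@En.i (nat_lit 5216) (nat_lit 3) (nat_lit 9))
    (@En.n l3 (nat_lit 5645) (nat_lit 15) (nat_lit 2))))
  (@Cl.mk (nat_lit 0x200090003000e00080002000d000c00070003000d000400080003000e000d) (nat_lit 0x20b10390050208a) (nat_lit 16) Lb.e (@T16.mk En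
    (@En.n l4322 (nat_lit 5644) (nat_lit 6) (nat_lit 13))
    (@En.n l13047 (nat_lit 4559) (nat_lit 1) (nat_lit 14))
    (@En.n l17 (nat_lit 5645) (nat_lit 2) (nat_lit 3))
    (@En.n l13048 (nat_lit 5401) (nat_lit 3) (nat_lit 8))
    (@En.n l764 (nat_lit 4594) (nat_lit 4) (nat_lit 4))
    (@En.n l815 (nat_lit 5651) (nat_lit 6) (nat_lit 13))
    (@En.n l13049 (nat_lit 5649) (nat_lit 6) (nat_lit 3))
    (@En.n l763 (nat_lit 12512) (nat_lit 7) (nat_lit 7))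
    (@En.n l13050 (nat_lit 4668) (nat_lit 9) (nat_lit 12))
    (@En.n l13051 (nat_lit 6112) (nat_lit 10) (nat_lit 13))
    (@En.n l28 (nat_lit 5646) (nat_lit 10) (nat_lit 2))
    (@En.n l13052 (nat_lit 3634) (nat_lit 12) (nat_lit 8))
    (@En.n l13053 (nat_lit 9032) (nat_lit 1) (nat_lit 14))
    (@En.n l13054 (nat_lit 5644) (nat_lit 2) (nat_lit 3))
    (@En.n l13055 (nat_lit 5680) (nat_lit 3) (nat_lit 9))
    (@En.n l3 (nat_lit 5646) (nat_lit 15) (nat_lit 2))))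
  (@Cl.mk (nat_lit 0x2000a0003000e00090002000d0006000c0003000d000700040003000e000d) (nat_lit 0x60a70904060003a) (nat_lit 16) Lb.e (@T16.mk En
    (@En.i (nat_lit 4670) (nat_lit 6) (nat_lit 13))
    (@En.i (nat_lit 11221) (nat_lit 1) (nat_lit 14))
    (@En.n l11960 (nat_lit 5649) (nat_lit 2) (nat_lit 3))
    (@En.i (nat_lit 5890) (nat_lit 3) (nat_lit 4))
    (@En.n l25672 (nat_lit 3925) (nat_lit 4) (nat_lit 7))
    (@En.n l217 (nat_lit 3223) (nat_lit 11) (nat_lit 13))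
    (@En.i (nat_lit 5645) (nat_lit 6) (nat_lit 3))
    (@En.n l11620 (nat_lit 3701) (nat_lit 8) (nat_lit 12))
    (@En.n l564 (nat_lit 12506) (nat_lit 14) (nat_lit 6))
    (@En.n l7479 (nat_lit 6115) (nat_lit 10) (nat_lit 13))
    (@En.n l28 (nat_lit 5647) (nat_lit 10) (nat_lit 2))
    (@En.n l7477 (nat_lit 5653) (nat_lit 12) (nat_lit 9))
    (@En.i (nat_lit 9031) (nat_lit 1) (nat_lit 14))
    (@En.n l117 (nat_lit 4670) (nat_lit 2) (nat_lit 3))
    (@En.i (nat_lit 5681) (nat_lit 3) (nat_lit 10))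
    (@En.n l3 (nat_lit 5647) (nat_lit 15) (nat_lit 2))))
noncomputable def a353 : T16 Cl := @T16.mk Cl
  (@Cl.mk (nat_lit 0x2000d0008000d0003000d000300080003000d0008000e00030002000e0008) (nat_lit 0x85a05020b030081) (nat_lit 16) Lb.e (@T16.mk En
    (@En.n l4802 (nat_lit 3625) (nat_lit 14) (nat_lit 8))
    (@En.n l998 (nat_lit 10938) (nat_lit 1) (nat_lit 14))
    (@En.n l50 (nat_lit 5648) (nat_lit 2) (nat_lit 2))
    (@En.n l4263 (nat_lit 3630) (nat_lit 3) (nat_lit 3))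
    (@En.n l22210 (nat_lit 13963) (nat_lit 0) (nat_lit 14))
    (@En.n l810 (nat_lit 6466) (nat_lit 5) (nat_lit 8))
    (@En.n l22211 (nat_lit 4711) (nat_lit 7) (nat_lit 13))
    (@En.n l685 (nat_lit 5642) (nat_lit 7) (nat_lit 3))
    (@En.n l2667 (nat_lit 5336) (nat_lit 0) (nat_lit 8))
    (@En.n l3404 (nat_lit 4669) (nat_lit 9) (nat_lit 3))
    (@En.n l22212 (nat_lit 3524) (nat_lit 0) (nat_lit 13))
    (@En.n l22213 (nat_lit 5643) (nat_lit 11) (nat_lit 3))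
    (@En.i (nat_lit 3933) (nat_lit 0) (nat_lit 13))
    (@En.n l2667 (nat_lit 12502) (nat_lit 14) (nat_lit 8))
    (@En.n l22210 (nat_lit 6104) (nat_lit 12) (nat_lit 13))
    (@En.n l17 (nat_lit 5648) (nat_lit 15) (nat_lit 2))))
  (@Cl.mk (nat_lit 0x2000a0003000e00080002000d0006000d0003000d000300080003000e000d) (nat_lit 0x50a1030a0502081) (nat_lit 16) Lb.e (@T16.mk En
    (@En.i (nat_lit 3630) (nat_lit 6) (nat_lit 13))
    (@En.i (nat_lit 4704) (nat_lit 1) (nat_lit 14))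
    (@En.n l5567 (nat_lit 5647) (nat_lit 2) (nat_lit 3))
    (@En.i (nat_lit 5331) (nat_lit 3) (nat_lit 8))
    (@En.i (nat_lit 4668) (nat_lit 4) (nat_lit 3))
    (@En.i (nat_lit 3225) (nat_lit 0) (nat_lit 13))
    (@En.n l10557 (nat_lit 5646) (nat_lit 6) (nat_lit 3))
    (@En.i (nat_lit 3939) (nat_lit 8) (nat_lit 13))
    (@En.i (nat_lit 12505) (nat_lit 14) (nat_lit 6))
    (@En.n l3130 (nat_lit 6113) (nat_lit 10) (nat_lit 13))
    (@En.n l28 (nat_lit 5649) (nat_lit 10) (nat_lit 2))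
    (@En.n l982 (nat_lit 3626) (nat_lit 12) (nat_lit 8))
    (@En.n l1395 (nat_lit 9029) (nat_lit 1) (nat_lit 14))
    (@En.n l117 (nat_lit 3630) (nat_lit 2) (nat_lit 3))
    (@En.i (nat_lit 5683) (nat_lit 3) (nat_lit 10))
    (@En.n l3 (nat_lit 5649) (nat_lit 15) (nat_lit 2))))
  (@Cl.mk (nat_lit 0x20009000d0008000d0003000700030007000d000d000800030003000e0009) (nat_lit 0x2a0400000000071) (nat_lit 16) Lb.e (@T16.mk En
    (@En.n l14395 (nat_lit 3252) (nat_lit 13) (nat_lit 9))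
    (@En.n l14396 (nat_lit 12146) (nat_lit 1) (nat_lit 14))
    (@En.n l11342 (nat_lit 5651) (nat_lit 13) (nat_lit 3))
    (@En.n l14397 (nat_lit 6366) (nat_lit 3) (nat_lit 3))
    (@En.n l4296 (nat_lit 7491) (nat_lit 4) (nat_lit 8))
    (@En.n l14398 (nat_lit 6366) (nat_lit 6) (nat_lit 13))
    (@En.n l14399 (nat_lit 12239) (nat_lit 7) (nat_lit 13))
    (@En.n l14400 (nat_lit 5131) (nat_lit 7) (nat_lit 7))
    (@En.n l18 (nat_lit 3250) (nat_lit 8) (nat_lit 3))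
    (@En.n l14401 (nat_lit 6261) (nat_lit 0) (nat_lit 7))
    (@En.n l14402 (nat_lit 3255) (nat_lit 10) (nat_lit 3))
    (@En.n l8631 (nat_lit 3512) (nat_lit 0) (nat_lit 13))
    (@En.n l14403 (nat_lit 6378) (nat_lit 13) (nat_lit 8))
    (@En.n l18 (nat_lit 4670) (nat_lit 14) (nat_lit 13))
    (@En.n l14404 (nat_lit 646) (nat_lit 11) (nat_lit 9))
    (@En.n l28 (nat_lit 5650) (nat_lit 15) (nat_lit 2))))
  (@Cl.mk (nat_lit 0x200090003000e000900020009000d0007000d0003000700030007000e000d) (nat_lit 0x207002a04000081) (nat_lit 16) Lb.e (@T16.mk En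
    (@En.n l217 (nat_lit 5650) (nat_lit 6) (nat_lit 13))
    (@En.n l13094 (nat_lit 12505) (nat_lit 7) (nat_lit 14))
    (@En.n l13095 (nat_lit 5130) (nat_lit 2) (nat_lit 7))
    (@En.i (nat_lit 6073) (nat_lit 3) (nat_lit 3))
    (@En.n l13096 (nat_lit 6263) (nat_lit 0) (nat_lit 7))
    (@En.n l829 (nat_lit 6072) (nat_lit 5) (nat_lit 3))
    (@En.n l11620 (nat_lit 3513) (nat_lit 7) (nat_lit 13))
    (@En.n l13097 (nat_lit 9236) (nat_lit 7) (nat_lit 7))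
    (@En.i (nat_lit 5647) (nat_lit 9) (nat_lit 13))
    (@En.n l13098 (nat_lit 650) (nat_lit 10) (nat_lit 9))
    (@En.n l28 (nat_lit 5651) (nat_lit 10) (nat_lit 2))
    (@En.n l13099 (nat_lit 5666) (nat_lit 12) (nat_lit 9))
    (@En.n l5493 (nat_lit 6055) (nat_lit 1) (nat_lit 14))
    (@En.n l7162 (nat_lit 5650) (nat_lit 2) (nat_lit 3))
    (@En.n l217 (nat_lit 5217) (nat_lit 3) (nat_lit 9))
    (@En.n l3 (nat_lit 5651) (nat_lit 15) (nat_lit 2))))
  (@Cl.mk (nat_lit 0x200090009000d0007000b0003000c0007000700050004000d0009000e0003) (nat_lit 0x67204010000b140) (nat_lit 16) Lb.e (@T16.mk En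
    (@En.n l38336 (nat_lit 5553) (nat_lit 15) (nat_lit 3))
    (@En.n l1596 (nat_lit 13982) (nat_lit 0) (nat_lit 14))
    (@En.i (nat_lit 5298) (nat_lit 2) (nat_lit 9))
    (@En.n l15987 (nat_lit 11241) (nat_lit 2) (nat_lit 13))
    (@En.n l12915 (nat_lit 3625) (nat_lit 4) (nat_lit 4))
    (@En.i (nat_lit 6982) (nat_lit 5) (nat_lit 5))
    (@En.n l152 (nat_lit 5642) (nat_lit 9) (nat_lit 7))
    (@En.n l2225 (nat_lit 3918) (nat_lit 7) (nat_lit 7))
    (@En.n l9825 (nat_lit 3242) (nat_lit 9) (nat_lit 12))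
    (@En.n l11987 (nat_lit 5638) (nat_lit 9) (nat_lit 3))
    (@En.i (nat_lit 3695) (nat_lit 11) (nat_lit 11))
    (@En.n l15797 (nat_lit 10271) (nat_lit 12) (nat_lit 7))
    (@En.n l2051 (nat_lit 5660) (nat_lit 13) (nat_lit 13))
    (@En.n l5870 (nat_lit 5551) (nat_lit 7) (nat_lit 9))
    (@En.i (nat_lit 6852) (nat_lit 14) (nat_lit 9))
    (@En.n l17 (nat_lit 5652) (nat_lit 15) (nat_lit 2))))
  (@Cl.mk (nat_lit 0x2000b000300090009000d0005000b0003000c0007000700050004000e000d) (nat_lit 0x706720301000041) (nat_lit 16) Lb.e (@T16.mk En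
    (@En.n l649 (nat_lit 5553) (nat_lit 2) (nat_lit 13))
    (@En.i (nat_lit 11219) (nat_lit 1) (nat_lit 14))
    (@En.n l1003 (nat_lit 3626) (nat_lit 2) (nat_lit 4))
    (@En.n l17 (nat_lit 6983) (nat_lit 3) (nat_lit 5))
    (@En.n l9878 (nat_lit 5647) (nat_lit 4) (nat_lit 7))
    (@En.n l97 (nat_lit 3924) (nat_lit 5) (nat_lit 7))
    (@En.i (nat_lit 3243) (nat_lit 7) (nat_lit 12))
    (@En.n l9875 (nat_lit 5640) (nat_lit 7) (nat_lit 3))
    (@En.n l18041 (nat_lit 3696) (nat_lit 9) (nat_lit 11))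
    (@En.i (nat_lit 10334) (nat_lit 9) (nat_lit 5))
    (@En.i (nat_lit 5656) (nat_lit 11) (nat_lit 13))
    (@En.n l11401 (nat_lit 5546) (nat_lit 7) (nat_lit 9))
    (@En.i (nat_lit 8748) (nat_lit 13) (nat_lit 9))
    (@En.n l3528 (nat_lit 5553) (nat_lit 14) (nat_lit 3))
    (@En.i (nat_lit 7790) (nat_lit 0) (nat_lit 11))
    (@En.n l28 (nat_lit 5653) (nat_lit 15) (nat_lit 2))))
  (@Cl.mk (nat_lit 0x30003000a00090005000a000d000b00060003000700060005000d000d000b) (nat_lit 0x530195000009a2) (nat_lit 16) Lb.e (@T16.mk En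
    (@En.n l3522 (nat_lit 7162) (nat_lit 0) (nat_lit 11))
    (@En.n l41141 (nat_lit 5661) (nat_lit 3) (nat_lit 13))
    (@En.i (nat_lit 10369) (nat_lit 12) (nat_lit 13))
    (@En.n l1131 (nat_lit 6184) (nat_lit 3) (nat_lit 5))
    (@En.n l7 (nat_lit 5655) (nat_lit 4) (nat_lit 6))
    (@En.i (nat_lit 5553) (nat_lit 5) (nat_lit 7))
    (@En.n l18 (nat_lit 5664) (nat_lit 6) (nat_lit 3))
    (@En.n l5838 (nat_lit 3251) (nat_lit 0) (nat_lit 6))
    (@En.n l18216 (nat_lit 6159) (nat_lit 9) (nat_lit 11))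
    (@En.n l5838 (nat_lit 6134) (nat_lit 5) (nat_lit 13))
    (@En.n l40037 (nat_lit 2273) (nat_lit 11) (nat_lit 10))
    (@En.n l40520 (nat_lit 8544) (nat_lit 4) (nat_lit 5))
    (@En.n l396 (nat_lit 4276) (nat_lit 13) (nat_lit 9))
    (@En.n l3522 (nat_lit 6850) (nat_lit 14) (nat_lit 10))
    (@En.n l8258 (nat_lit 5657) (nat_lit 13) (nat_lit 3))
    (@En.n l41142 (nat_lit 5661) (nat_lit 0) (nat_lit 3))))
  (@Cl.mk (nat_lit 0x300030009000d0005000a0003000d000c0007000300060004000d000d000b) (nat_lit 0x1010a600009a0) (nat_lit 16) Lb.e (@T16.mk En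
    (@En.n l3522 (nat_lit 7911) (nat_lit 0) (nat_lit 11))
    (@En.n l1867 (nat_lit 5660) (nat_lit 3) (nat_lit 13))
    (@En.i (nat_lit 11764) (nat_lit 13) (nat_lit 13))
    (@En.n l11386 (nat_lit 4067) (nat_lit 3) (nat_lit 4))
    (@En.i (nat_lit 6964) (nat_lit 12) (nat_lit 6))
    (@En.n l18 (nat_lit 5663) (nat_lit 5) (nat_lit 3))
    (@En.n l11383 (nat_lit 5504) (nat_lit 0) (nat_lit 7))
    (@En.n l6444 (nat_lit 6103) (nat_lit 8) (nat_lit 12))
    (@En.i (nat_lit 5654) (nat_lit 9) (nat_lit 13))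
    (@En.n l3522 (nat_lit 5659) (nat_lit 9) (nat_lit 3))
    (@En.n l649 (nat_lit 2272) (nat_lit 0) (nat_lit 10))
    (@En.i (nat_lit 8543) (nat_lit 5) (nat_lit 5))
    (@En.i (nat_lit 3071) (nat_lit 6) (nat_lit 13))
    (@En.n l3522 (nat_lit 6849) (nat_lit 14) (nat_lit 9))
    (@En.n l8258 (nat_lit 5656) (nat_lit 13) (nat_lit 3))
    (@En.n l1865 (nat_lit 5660) (nat_lit 0) (nat_lit 3))))
  (@Cl.mk (nat_lit 0x2000c00030009000d0004000a0003000d000c0007000300060004000e000d) (nat_lit 0x1010b00000aa) (nat_lit 16) Lb.e (@T16.mk En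
    (@En.n l649 (nat_lit 5655) (nat_lit 2) (nat_lit 13))
    (@En.i (nat_lit 11212) (nat_lit 1) (nat_lit 14))
    (@En.i (nat_lit 4069) (nat_lit 2) (nat_lit 4))
    (@En.i (nat_lit 6967) (nat_lit 3) (nat_lit 6))
    (@En.n l1865 (nat_lit 5665) (nat_lit 4) (nat_lit 3))
    (@En.n l97 (nat_lit 5667) (nat_lit 0) (nat_lit 7))
    (@En.n l3866 (nat_lit 6157) (nat_lit 7) (nat_lit 12))
    (@En.i (nat_lit 5657) (nat_lit 8) (nat_lit 13))
    (@En.i (nat_lit 5658) (nat_lit 8) (nat_lit 3))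
    (@En.i (nat_lit 2270) (nat_lit 10) (nat_lit 10))
    (@En.i (nat_lit 8540) (nat_lit 10) (nat_lit 4))
    (@En.n l649 (nat_lit 3813) (nat_lit 12) (nat_lit 13))
    (@En.i (nat_lit 8206) (nat_lit 13) (nat_lit 9))
    (@En.n l3528 (nat_lit 5655) (nat_lit 14) (nat_lit 3))
    (@En.i (nat_lit 7863) (nat_lit 0) (nat_lit 12))
    (@En.n l28 (nat_lit 5656) (nat_lit 15) (nat_lit 2))))
  (@Cl.mk (nat_lit 0x2000c0003000a00090004000a000d000b00060003000700060005000e000d) (nat_lit 0x705201a0000004a) (nat_lit 16) Lb.e (@T16.mk En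
    (@En.n l649 (nat_lit 5654) (nat_lit 2) (nat_lit 13))
    (@En.n l12731 (nat_lit 11211) (nat_lit 1) (nat_lit 14))
    (@En.i (nat_lit 4293) (nat_lit 2) (nat_lit 5))
    (@En.n l17 (nat_lit 5656) (nat_lit 3) (nat_lit 6))
    (@En.i (nat_lit 5653) (nat_lit 4) (nat_lit 7))
    (@En.n l1865 (nat_lit 6170) (nat_lit 5) (nat_lit 3))
    (@En.n l97 (nat_lit 5669) (nat_lit 0) (nat_lit 6))
    (@En.n l10040 (nat_lit 6158) (nat_lit 8) (nat_lit 11))
    (@En.n l1112 (nat_lit 6137) (nat_lit 5) (nat_lit 13))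
    (@En.i (nat_lit 2271) (nat_lit 10) (nat_lit 10))
    (@En.i (nat_lit 8538) (nat_lit 10) (nat_lit 4))
    (@En.n l17017 (nat_lit 4285) (nat_lit 12) (nat_lit 9))
    (@En.i (nat_lit 8207) (nat_lit 13) (nat_lit 10))
    (@En.n l3528 (nat_lit 5654) (nat_lit 14) (nat_lit 3))
    (@En.i (nat_lit 7862) (nat_lit 0) (nat_lit 12))
    (@En.n l28 (nat_lit 5657) (nat_lit 15) (nat_lit 2))))
  (@Cl.mk (nat_lit 0x2000b00030009000d000900050003000d000c0007000300070004000e000d) (nat_lit 0xa300a00000a9) (nat_lit 16) Lb.e (@T16.mk En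
    (@En.n l134 (nat_lit 5659) (nat_lit 2) (nat_lit 13))
    (@En.i (nat_lit 11215) (nat_lit 1) (nat_lit 14))
    (@En.i (nat_lit 5999) (nat_lit 2) (nat_lit 4))
    (@En.i (nat_lit 5339) (nat_lit 3) (nat_lit 7))
    (@En.n l1865 (nat_lit 6143) (nat_lit 4) (nat_lit 3))
    (@En.n l97 (nat_lit 5668) (nat_lit 0) (nat_lit 7))
    (@En.n l3866 (nat_lit 6156) (nat_lit 7) (nat_lit 12))
    (@En.n l1112 (nat_lit 6173) (nat_lit 8) (nat_lit 13))
    (@En.n l18 (nat_lit 5656) (nat_lit 8) (nat_lit 3))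
    (@En.n l11706 (nat_lit 7688) (nat_lit 9) (nat_lit 5))
    (@En.n l61 (nat_lit 5657) (nat_lit 11) (nat_lit 9))
    (@En.n l649 (nat_lit 3880) (nat_lit 12) (nat_lit 13))
    (@En.i (nat_lit 8204) (nat_lit 13) (nat_lit 9))
    (@En.i (nat_lit 5659) (nat_lit 14) (nat_lit 3))
    (@En.i (nat_lit 7811) (nat_lit 0) (nat_lit 11))
    (@En.n l28 (nat_lit 5658) (nat_lit 15) (nat_lit 2))))
  (@Cl.mk (nat_lit 0x300030009000d000900060003000d000c0007000300070004000d000d000a) (nat_lit 0xa400460000890) (nat_lit 16) Lb.e (@T16.mk En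
    (@En.i (nat_lit 7813) (nat_lit 0) (nat_lit 10))
    (@En.n l14723 (nat_lit 5662) (nat_lit 3) (nat_lit 13))
    (@En.n l3528 (nat_lit 11770) (nat_lit 13) (nat_lit 13))
    (@En.n l9448 (nat_lit 4068) (nat_lit 3) (nat_lit 4))
    (@En.i (nat_lit 5338) (nat_lit 4) (nat_lit 7))
    (@En.n l9956 (nat_lit 6142) (nat_lit 5) (nat_lit 3))
    (@En.n l97 (nat_lit 3256) (nat_lit 0) (nat_lit 7))
    (@En.n l30967 (nat_lit 6108) (nat_lit 8) (nat_lit 12))
    (@En.n l17407 (nat_lit 6139) (nat_lit 9) (nat_lit 13))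
    (@En.n l25360 (nat_lit 5655) (nat_lit 9) (nat_lit 3))
    (@En.n l17790 (nat_lit 7693) (nat_lit 0) (nat_lit 6))
    (@En.n l17791 (nat_lit 5654) (nat_lit 12) (nat_lit 9))
    (@En.n l3528 (nat_lit 3875) (nat_lit 6) (nat_lit 13))
    (@En.i (nat_lit 6851) (nat_lit 14) (nat_lit 9))
    (@En.n l7 (nat_lit 5658) (nat_lit 13) (nat_lit 3))
    (@En.n l10889 (nat_lit 5662) (nat_lit 0) (nat_lit 3))))
  (@Cl.mk (nat_lit 0x20009000d0006000a0003000d000c0007000300060004000d000a000e0003) (nat_lit 0x10205000009080) (nat_lit 16) Lb.e (@T16.mk En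
    (@En.n l2869 (nat_lit 5655) (nat_lit 15) (nat_lit 3))
    (@En.n l5448 (nat_lit 13990) (nat_lit 0) (nat_lit 14))
    (@En.n l2579 (nat_lit 7008) (nat_lit 2) (nat_lit 10))
    (@En.n l1391 (nat_lit 10368) (nat_lit 13) (nat_lit 13))
    (@En.n l12744 (nat_lit 6100) (nat_lit 4) (nat_lit 4))
    (@En.n l1599 (nat_lit 6963) (nat_lit 5) (nat_lit 6))
    (@En.n l28 (nat_lit 6117) (nat_lit 6) (nat_lit 3))
    (@En.n l436 (nat_lit 5502) (nat_lit 0) (nat_lit 7))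
    (@En.n l5448 (nat_lit 6102) (nat_lit 9) (nat_lit 12))
    (@En.n l5978 (nat_lit 5661) (nat_lit 10) (nat_lit 13))
    (@En.n l24821 (nat_lit 5662) (nat_lit 10) (nat_lit 3))
    (@En.i (nat_lit 2370) (nat_lit 12) (nat_lit 10))
    (@En.n l4871 (nat_lit 12717) (nat_lit 13) (nat_lit 6))
    (@En.i (nat_lit 3072) (nat_lit 14) (nat_lit 13))
    (@En.n l3337 (nat_lit 6845) (nat_lit 14) (nat_lit 9))
    (@En.n l17 (nat_lit 5660) (nat_lit 15) (nat_lit 2))))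
  (@Cl.mk (nat_lit 0x2000a00090006000a000d000b00060003000700060005000d000a000e0003) (nat_lit 0x560240000009000) (nat_lit 16) Lb.e (@T16.mk En
    (@En.n l27550 (nat_lit 5654) (nat_lit 15) (nat_lit 3))
    (@En.n l1863 (nat_lit 13992) (nat_lit 0) (nat_lit 14))
    (@En.n l24748 (nat_lit 7009) (nat_lit 2) (nat_lit 10))
    (@En.n l14821 (nat_lit 10367) (nat_lit 12) (nat_lit 13))
    (@En.n l22495 (nat_lit 6185) (nat_lit 4) (nat_lit 5))
    (@En.n l14065 (nat_lit 5660) (nat_lit 5) (nat_lit 6))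
    (@En.n l14066 (nat_lit 5652) (nat_lit 6) (nat_lit 7))
    (@En.n l9254 (nat_lit 6118) (nat_lit 7) (nat_lit 3))
    (@En.n l14067 (nat_lit 5505) (nat_lit 0) (nat_lit 6))
    (@En.n l2683 (nat_lit 6162) (nat_lit 10) (nat_lit 11))
    (@En.n l14821 (nat_lit 6133) (nat_lit 5) (nat_lit 13))
    (@En.i (nat_lit 2369) (nat_lit 12) (nat_lit 10))
    (@En.n l22495 (nat_lit 12715) (nat_lit 13) (nat_lit 6))
    (@En.i (nat_lit 4272) (nat_lit 14) (nat_lit 9))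
    (@En.n l37742 (nat_lit 6847) (nat_lit 14) (nat_lit 10))
    (@En.n l17 (nat_lit 5661) (nat_lit 15) (nat_lit 2))))
  (@Cl.mk (nat_lit 0x20009000d000900070003000d000c0007000300070004000d0009000e0003) (nat_lit 0xa70040000080a0) (nat_lit 16) Lb.e (@T16.mk En
    (@En.n l12442 (nat_lit 5659) (nat_lit 15) (nat_lit 3))
    (@En.n l111 (nat_lit 13991) (nat_lit 0) (nat_lit 14))
    (@En.n l4570 (nat_lit 6490) (nat_lit 2) (nat_lit 9))
    (@En.n l2638 (nat_lit 10551) (nat_lit 13) (nat_lit 13))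
    (@En.n l28 (nat_lit 6001) (nat_lit 4) (nat_lit 4))
    (@En.n l23644 (nat_lit 5340) (nat_lit 5) (nat_lit 7))
    (@En.n l23514 (nat_lit 6144) (nat_lit 6) (nat_lit 3))
    (@En.n l2638 (nat_lit 5503) (nat_lit 0) (nat_lit 7))
    (@En.n l77 (nat_lit 6106) (nat_lit 9) (nat_lit 12))
    (@En.n l10491 (nat_lit 6141) (nat_lit 10) (nat_lit 13))
    (@En.n l23645 (nat_lit 5660) (nat_lit 10) (nat_lit 3))
    (@En.n l4570 (nat_lit 8235) (nat_lit 12) (nat_lit 7))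
    (@En.n l23646 (nat_lit 5661) (nat_lit 13) (nat_lit 9))
    (@En.n l4570 (nat_lit 3878) (nat_lit 14) (nat_lit 13))
    (@En.i (nat_lit 6848) (nat_lit 14) (nat_lit 9))
    (@En.n l17 (nat_lit 5662) (nat_lit 15) (nat_lit 2))))
  (@Cl.mk (nat_lit 0x30003000a000d0005000a0003000d0006000d000300060003000d000d000b) (nat_lit 0x77030a06000970) (nat_lit 16) Lb.e (@T16.mk En
    (@En.n l619 (nat_lit 7912) (nat_lit 0) (nat_lit 11))
    (@En.n l1867 (nat_lit 6117) (nat_lit 3) (nat_lit 13))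
    (@En.i (nat_lit 11761) (nat_lit 13) (nat_lit 13))
    (@En.n l2364 (nat_lit 6103) (nat_lit 3) (nat_lit 3))
    (@En.i (nat_lit 5898) (nat_lit 12) (nat_lit 6))
    (@En.i (nat_lit 5655) (nat_lit 5) (nat_lit 3))
    (@En.i (nat_lit 847) (nat_lit 0) (nat_lit 13))
    (@En.i (nat_lit 6114) (nat_lit 7) (nat_lit 6))
    (@En.i (nat_lit 5664) (nat_lit 9) (nat_lit 13))
    (@En.i (nat_lit 6142) (nat_lit 9) (nat_lit 3))
    (@En.n l649 (nat_lit 2268) (nat_lit 0) (nat_lit 10))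
    (@En.i (nat_lit 8542) (nat_lit 5) (nat_lit 5))
    (@En.i (nat_lit 3812) (nat_lit 5) (nat_lit 13))
    (@En.n l476 (nat_lit 6122) (nat_lit 14) (nat_lit 10))
    (@En.n l152 (nat_lit 5665) (nat_lit 13) (nat_lit 3))
    (@En.n l1865 (nat_lit 6117) (nat_lit 0) (nat_lit 3))))
noncomputable def a354 : T16 Cl := @T16.mk Cl
  (@Cl.mk (nat_lit 0x30003000b00090005000a000d0005000c0003000700060004000d000d000b) (nat_lit 0x730190500009a0) (nat_lit 16) Lb.e (@T16.mk En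
    (@En.n l619 (nat_lit 7160) (nat_lit 0) (nat_lit 11))
    (@En.n l1867 (nat_lit 6118) (nat_lit 3) (nat_lit 13))
    (@En.i (nat_lit 11763) (nat_lit 12) (nat_lit 13))
    (@En.n l28437 (nat_lit 6166) (nat_lit 3) (nat_lit 4))
    (@En.n l7 (nat_lit 5663) (nat_lit 4) (nat_lit 6))
    (@En.n l644 (nat_lit 6114) (nat_lit 5) (nat_lit 7))
    (@En.i (nat_lit 5654) (nat_lit 6) (nat_lit 3))
    (@En.i (nat_lit 878) (nat_lit 0) (nat_lit 12))
    (@En.n l7 (nat_lit 6071) (nat_lit 8) (nat_lit 5))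
    (@En.n l5838 (nat_lit 6132) (nat_lit 5) (nat_lit 13))
    (@En.n l3528 (nat_lit 2269) (nat_lit 11) (nat_lit 10))
    (@En.n l6210 (nat_lit 8545) (nat_lit 4) (nat_lit 5))
    (@En.n l396 (nat_lit 4275) (nat_lit 13) (nat_lit 9))
    (@En.n l476 (nat_lit 6126) (nat_lit 14) (nat_lit 11))
    (@En.n l152 (nat_lit 6170) (nat_lit 13) (nat_lit 3))
    (@En.n l1865 (nat_lit 6118) (nat_lit 0) (nat_lit 3))))
  (@Cl.mk (nat_lit 0x2000c0003000a000d0004000a0003000d0006000d000300060003000e000d) (nat_lit 0x77010a06000aa) (nat_lit 16) Lb.e (@T16.mk En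
    (@En.i (nat_lit 5663) (nat_lit 2) (nat_lit 13))
    (@En.i (nat_lit 11214) (nat_lit 1) (nat_lit 14))
    (@En.n l3291 (nat_lit 6157) (nat_lit 2) (nat_lit 3))
    (@En.i (nat_lit 5899) (nat_lit 12) (nat_lit 6))
    (@En.n l2869 (nat_lit 5656) (nat_lit 4) (nat_lit 3))
    (@En.n l2100 (nat_lit 849) (nat_lit 0) (nat_lit 13))
    (@En.i (nat_lit 6115) (nat_lit 6) (nat_lit 6))
    (@En.i (nat_lit 6170) (nat_lit 8) (nat_lit 13))
    (@En.i (nat_lit 6143) (nat_lit 8) (nat_lit 3))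
    (@En.i (nat_lit 2266) (nat_lit 10) (nat_lit 10))
    (@En.i (nat_lit 8539) (nat_lit 10) (nat_lit 4))
    (@En.i (nat_lit 3811) (nat_lit 5) (nat_lit 13))
    (@En.i (nat_lit 6730) (nat_lit 13) (nat_lit 10))
    (@En.n l117 (nat_lit 5663) (nat_lit 14) (nat_lit 3))
    (@En.i (nat_lit 7865) (nat_lit 0) (nat_lit 12))
    (@En.n l3 (nat_lit 5665) (nat_lit 15) (nat_lit 2))))
  (@Cl.mk (nat_lit 0x2000a0003000900090008000d0006000c00030007000700040008000e000d) (nat_lit 0x1076330300001a1) (nat_lit 16) Lb.e (@T16.mk En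
    (@En.n l2221 (nat_lit 3252) (nat_lit 2) (nat_lit 13))
    (@En.n l5577 (nat_lit 10335) (nat_lit 1) (nat_lit 14))
    (@En.n l617 (nat_lit 2959) (nat_lit 2) (nat_lit 8))
    (@En.i (nat_lit 5627) (nat_lit 3) (nat_lit 4))
    (@En.n l26856 (nat_lit 5651) (nat_lit 4) (nat_lit 7))
    (@En.n l26857 (nat_lit 5634) (nat_lit 5) (nat_lit 7))
    (@En.i (nat_lit 3253) (nat_lit 6) (nat_lit 3))
    (@En.i (nat_lit 3601) (nat_lit 8) (nat_lit 12))
    (@En.i (nat_lit 5673) (nat_lit 8) (nat_lit 6))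
    (@En.n l13109 (nat_lit 5653) (nat_lit 10) (nat_lit 13))
    (@En.n l3536 (nat_lit 6113) (nat_lit 11) (nat_lit 8))
    (@En.n l152 (nat_lit 5667) (nat_lit 7) (nat_lit 9))
    (@En.n l117 (nat_lit 9404) (nat_lit 13) (nat_lit 9))
    (@En.n l4018 (nat_lit 3252) (nat_lit 14) (nat_lit 3))
    (@En.i (nat_lit 5264) (nat_lit 0) (nat_lit 10))
    (@En.n l28 (nat_lit 5666) (nat_lit 15) (nat_lit 2))))
  (@Cl.mk (nat_lit 0x200050009000e000d0002000b000300090007000d0005000b0003000e0007) (nat_lit 0x33802050a010a0) (nat_lit 16) Lb.e (@T16.mk En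
    (@En.i (nat_lit 5666) (nat_lit 5) (nat_lit 7))
    (@En.i (nat_lit 5669) (nat_lit 1) (nat_lit 14))
    (@En.i (nat_lit 5668) (nat_lit 2) (nat_lit 3))
    (@En.i (nat_lit 3597) (nat_lit 9) (nat_lit 11))
    (@En.i (nat_lit 5670) (nat_lit 4) (nat_lit 5))
    (@En.n l4021 (nat_lit 5546) (nat_lit 6) (nat_lit 13))
    (@En.i (nat_lit 5992) (nat_lit 6) (nat_lit 7))
    (@En.n l117 (nat_lit 6430) (nat_lit 13) (nat_lit 9))
    (@En.i (nat_lit 5504) (nat_lit 8) (nat_lit 3))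
    (@En.i (nat_lit 5266) (nat_lit 10) (nat_lit 11))
    (@En.n l28 (nat_lit 5667) (nat_lit 10) (nat_lit 2))
    (@En.n l134 (nat_lit 5504) (nat_lit 12) (nat_lit 13))
    (@En.n l5577 (nat_lit 10339) (nat_lit 13) (nat_lit 14))
    (@En.n l617 (nat_lit 5129) (nat_lit 14) (nat_lit 9))
    (@En.i (nat_lit 7021) (nat_lit 13) (nat_lit 5))
    (@En.n l3 (nat_lit 5667) (nat_lit 15) (nat_lit 2))))
  (@Cl.mk (nat_lit 0x200060009000e000d0002000a000300090007000d000a00060003000e0007) (nat_lit 0x241020707600a0) (nat_lit 16) Lb.e (@T16.mk En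
    (@En.i (nat_lit 3253) (nat_lit 5) (nat_lit 7))
    (@En.n l2520 (nat_lit 3110) (nat_lit 1) (nat_lit 14))
    (@En.n l18 (nat_lit 5667) (nat_lit 2) (nat_lit 3))
    (@En.n l4352 (nat_lit 8960) (nat_lit 8) (nat_lit 6))
    (@En.n l61 (nat_lit 5669) (nat_lit 4) (nat_lit 10))
    (@En.n l4021 (nat_lit 5543) (nat_lit 6) (nat_lit 13))
    (@En.i (nat_lit 5989) (nat_lit 6) (nat_lit 7))
    (@En.n l117 (nat_lit 6431) (nat_lit 13) (nat_lit 9))
    (@En.i (nat_lit 3256) (nat_lit 8) (nat_lit 3))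
    (@En.i (nat_lit 4640) (nat_lit 10) (nat_lit 10))
    (@En.n l28 (nat_lit 5668) (nat_lit 10) (nat_lit 2))
    (@En.n l134 (nat_lit 3256) (nat_lit 12) (nat_lit 13))
    (@En.n l5577 (nat_lit 10341) (nat_lit 13) (nat_lit 14))
    (@En.n l617 (nat_lit 5128) (nat_lit 9) (nat_lit 9))
    (@En.i (nat_lit 5513) (nat_lit 3) (nat_lit 6))
    (@En.n l3 (nat_lit 5668) (nat_lit 15) (nat_lit 2))))
  (@Cl.mk (nat_lit 0x2000600050009000e000d0002000b0003000a0007000a0005000b000e0006) (nat_lit 0x3410208050490) (nat_lit 16) Lb.e (@T16.mk En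
    (@En.n l33692 (nat_lit 3247) (nat_lit 6) (nat_lit 6))
    (@En.n l2520 (nat_lit 3112) (nat_lit 4) (nat_lit 14))
    (@En.i (nat_lit 3598) (nat_lit 9) (nat_lit 11))
    (@En.i (nat_lit 5672) (nat_lit 3) (nat_lit 5))
    (@En.n l2520 (nat_lit 5823) (nat_lit 4) (nat_lit 10))
    (@En.i (nat_lit 5991) (nat_lit 5) (nat_lit 7))
    (@En.n l117 (nat_lit 6434) (nat_lit 13) (nat_lit 10))
    (@En.n l10309 (nat_lit 3251) (nat_lit 7) (nat_lit 3))
    (@En.i (nat_lit 5267) (nat_lit 9) (nat_lit 11))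
    (@En.n l28 (nat_lit 5669) (nat_lit 9) (nat_lit 2))
    (@En.n l2520 (nat_lit 3251) (nat_lit 11) (nat_lit 13))
    (@En.n l5577 (nat_lit 10340) (nat_lit 12) (nat_lit 14))
    (@En.n l617 (nat_lit 5668) (nat_lit 13) (nat_lit 9))
    (@En.n l17 (nat_lit 5667) (nat_lit 14) (nat_lit 5))
    (@En.i (nat_lit 3924) (nat_lit 4) (nat_lit 6))
    (@En.n l3 (nat_lit 5669) (nat_lit 15) (nat_lit 2))))
  (@Cl.mk (nat_lit 0x200050008000e000c0002000b000a0004000a00080005000b0006000e0006) (nat_lit 0x43009300404080) (nat_lit 16) Lb.e (@T16.mk En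
    (@En.i (nat_lit 5673) (nat_lit 5) (nat_lit 6))
    (@En.i (nat_lit 5672) (nat_lit 1) (nat_lit 14))
    (@En.n l4749 (nat_lit 8958) (nat_lit 2) (nat_lit 6))
    (@En.n l5 (nat_lit 5671) (nat_lit 9) (nat_lit 11))
    (@En.n l4021 (nat_lit 5623) (nat_lit 4) (nat_lit 5))
    (@En.i (nat_lit 8551) (nat_lit 5) (nat_lit 8))
    (@En.n l117 (nat_lit 8353) (nat_lit 12) (nat_lit 10))
    (@En.i (nat_lit 11903) (nat_lit 7) (nat_lit 4))
    (@En.n l217 (nat_lit 5668) (nat_lit 9) (nat_lit 10))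
    (@En.i (nat_lit 10979) (nat_lit 10) (nat_lit 11))
    (@En.n l28 (nat_lit 5670) (nat_lit 10) (nat_lit 2))
    (@En.i (nat_lit 5674) (nat_lit 12) (nat_lit 12))
    (@En.n l1578 (nat_lit 12275) (nat_lit 13) (nat_lit 14))
    (@En.n l617 (nat_lit 5125) (nat_lit 10) (nat_lit 8))
    (@En.i (nat_lit 11571) (nat_lit 13) (nat_lit 5))
    (@En.n l3 (nat_lit 5670) (nat_lit 15) (nat_lit 2))))
  (@Cl.mk (nat_lit 0x20005000b0004000b0008000b0005000e000500020005000b0008000e000c) (nat_lit 0x30033070006540) (nat_lit 16) Lb.e (@T16.mk En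
    (@En.n l23880 (nat_lit 5676) (nat_lit 11) (nat_lit 12))
    (@En.n l5577 (nat_lit 5623) (nat_lit 12) (nat_lit 14))
    (@En.n l2593 (nat_lit 5670) (nat_lit 13) (nat_lit 8))
    (@En.n l1738 (nat_lit 5619) (nat_lit 3) (nat_lit 11))
    (@En.i (nat_lit 11573) (nat_lit 4) (nat_lit 5))
    (@En.n l3 (nat_lit 5671) (nat_lit 5) (nat_lit 2))
    (@En.n l16788 (nat_lit 9238) (nat_lit 6) (nat_lit 5))
    (@En.n l23881 (nat_lit 5675) (nat_lit 8) (nat_lit 14))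
    (@En.n l6109 (nat_lit 5679) (nat_lit 8) (nat_lit 5))
    (@En.n l23881 (nat_lit 3062) (nat_lit 10) (nat_lit 11))
    (@En.i (nat_lit 8553) (nat_lit 4) (nat_lit 8))
    (@En.n l387 (nat_lit 8352) (nat_lit 12) (nat_lit 11))
    (@En.n l23882 (nat_lit 12733) (nat_lit 6) (nat_lit 4))
    (@En.i (nat_lit 5669) (nat_lit 8) (nat_lit 11))
    (@En.n l23883 (nat_lit 7662) (nat_lit 8) (nat_lit 5))
    (@En.n l28 (nat_lit 5671) (nat_lit 15) (nat_lit 2))))
  (@Cl.mk (nat_lit 0x2000900050008000e000c0002000b00070004000b00080005000b000e0005) (nat_lit 0x503900000040470) (nat_lit 16) Lb.e (@T16.mk En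
    (@En.n l35971 (nat_lit 12285) (nat_lit 6) (nat_lit 5))
    (@En.n l2520 (nat_lit 8998) (nat_lit 4) (nat_lit 14))
    (@En.n l17925 (nat_lit 5675) (nat_lit 9) (nat_lit 11))
    (@En.n l35972 (nat_lit 12281) (nat_lit 3) (nat_lit 5))
    (@En.i (nat_lit 8552) (nat_lit 4) (nat_lit 8))
    (@En.n l35973 (nat_lit 8411) (nat_lit 12) (nat_lit 11))
    (@En.n l1459 (nat_lit 11902) (nat_lit 6) (nat_lit 4))
    (@En.i (nat_lit 5919) (nat_lit 14) (nat_lit 7))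
    (@En.n l5647 (nat_lit 10977) (nat_lit 9) (nat_lit 11))
    (@En.n l28 (nat_lit 5672) (nat_lit 9) (nat_lit 2))
    (@En.n l13532 (nat_lit 5677) (nat_lit 11) (nat_lit 12))
    (@En.n l12740 (nat_lit 12277) (nat_lit 12) (nat_lit 14))
    (@En.n l1459 (nat_lit 8960) (nat_lit 2) (nat_lit 8))
    (@En.n l17 (nat_lit 5670) (nat_lit 14) (nat_lit 5))
    (@En.n l35974 (nat_lit 12189) (nat_lit 4) (nat_lit 9))
    (@En.n l3 (nat_lit 5672) (nat_lit 15) (nat_lit 2))))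
  (@Cl.mk (nat_lit 0x2000a00090004000a000a00090006000c00070006000600040007000e000c) (nat_lit 0x10015060000080) (nat_lit 16) Lb.e (@T16.mk En
    (@En.n l13531 (nat_lit 9241) (nat_lit 3) (nat_lit 12))
    (@En.n l1578 (nat_lit 12274) (nat_lit 1) (nat_lit 14))
    (@En.n l617 (nat_lit 5736) (nat_lit 11) (nat_lit 7))
    (@En.n l20133 (nat_lit 12588) (nat_lit 3) (nat_lit 4))
    (@En.n l27800 (nat_lit 9236) (nat_lit 4) (nat_lit 6))
    (@En.n l26857 (nat_lit 12592) (nat_lit 5) (nat_lit 6))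
    (@En.n l27801 (nat_lit 8962) (nat_lit 6) (nat_lit 7))
    (@En.n l27802 (nat_lit 9238) (nat_lit 8) (nat_lit 12))
    (@En.n l27803 (nat_lit 9239) (nat_lit 8) (nat_lit 6))
    (@En.n l3536 (nat_lit 9188) (nat_lit 10) (nat_lit 9))
    (@En.n l152 (nat_lit 5670) (nat_lit 6) (nat_lit 10))
    (@En.n l2464 (nat_lit 8275) (nat_lit 12) (nat_lit 10))
    (@En.n l27804 (nat_lit 11835) (nat_lit 13) (nat_lit 4))
    (@En.n l217 (nat_lit 3253) (nat_lit 14) (nat_lit 9))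
    (@En.n l27805 (nat_lit 12218) (nat_lit 1) (nat_lit 10))
    (@En.n l28 (nat_lit 5673) (nat_lit 15) (nat_lit 2))))
  (@Cl.mk (nat_lit 0x200050008000c000c000a000900040004000a00080006000b0007000e0006) (nat_lit 0x4a1010005020a0) (nat_lit 16) Lb.e (@T16.mk En
    (@En.n l13531 (nat_lit 9241) (nat_lit 7) (nat_lit 6))
    (@En.n l13532 (nat_lit 5677) (nat_lit 1) (nat_lit 14))
    (@En.n l13533 (nat_lit 8961) (nat_lit 2) (nat_lit 7))
    (@En.n l13534 (nat_lit 5676) (nat_lit 3) (nat_lit 11))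
    (@En.n l13535 (nat_lit 12725) (nat_lit 4) (nat_lit 6))
    (@En.i (nat_lit 8550) (nat_lit 5) (nat_lit 8))
    (@En.n l614 (nat_lit 9646) (nat_lit 7) (nat_lit 10))
    (@En.n l55 (nat_lit 5670) (nat_lit 7) (nat_lit 4))
    (@En.n l10528 (nat_lit 11907) (nat_lit 8) (nat_lit 4))
    (@En.n l9762 (nat_lit 3256) (nat_lit 10) (nat_lit 9))
    (@En.n l134 (nat_lit 11899) (nat_lit 11) (nat_lit 10))
    (@En.n l13536 (nat_lit 5509) (nat_lit 12) (nat_lit 12))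
    (@En.n l11312 (nat_lit 12358) (nat_lit 13) (nat_lit 12))
    (@En.n l617 (nat_lit 5132) (nat_lit 14) (nat_lit 8))
    (@En.i (nat_lit 10745) (nat_lit 13) (nat_lit 5))
    (@En.n l3 (nat_lit 5674) (nat_lit 15) (nat_lit 2))))
  (@Cl.mk (nat_lit 0x2000500080004000c0008000b000e0004000200080005000b0008000e000c) (nat_lit 0x20033600306460) (nat_lit 16) Lb.e (@T16.mk En
    (@En.n l4037 (nat_lit 5678) (nat_lit 10) (nat_lit 12))
    (@En.n l966 (nat_lit 12281) (nat_lit 11) (nat_lit 14))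
    (@En.n l21643 (nat_lit 5672) (nat_lit 12) (nat_lit 8))
    (@En.n l23561 (nat_lit 5679) (nat_lit 3) (nat_lit 11))
    (@En.n l23562 (nat_lit 5671) (nat_lit 4) (nat_lit 5))
    (@En.i (nat_lit 12185) (nat_lit 5) (nat_lit 8))
    (@En.n l172 (nat_lit 5675) (nat_lit 6) (nat_lit 2))
    (@En.n l28 (nat_lit 9233) (nat_lit 7) (nat_lit 4))
    (@En.n l23563 (nat_lit 5377) (nat_lit 9) (nat_lit 14))
    (@En.i (nat_lit 3063) (nat_lit 10) (nat_lit 11))
    (@En.n l7276 (nat_lit 8555) (nat_lit 11) (nat_lit 8))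
    (@En.n l306 (nat_lit 8410) (nat_lit 12) (nat_lit 12))
    (@En.n l1386 (nat_lit 12732) (nat_lit 5) (nat_lit 4))
    (@En.n l387 (nat_lit 5921) (nat_lit 14) (nat_lit 8))
    (@En.n l1258 (nat_lit 7664) (nat_lit 7) (nat_lit 5))
    (@En.n l3 (nat_lit 5675) (nat_lit 15) (nat_lit 2))))
  (@Cl.mk (nat_lit 0x20005000c0008000c000c0004000a00040004000b0008000b0006000e0005) (nat_lit 0x75a20100051090) (nat_lit 16) Lb.e (@T16.mk En
    (@En.n l215 (nat_lit 9243) (nat_lit 8) (nat_lit 5))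
    (@En.n l998 (nat_lit 5678) (nat_lit 1) (nat_lit 14))
    (@En.n l5592 (nat_lit 12193) (nat_lit 2) (nat_lit 6))
    (@En.n l12555 (nat_lit 1153) (nat_lit 3) (nat_lit 11))
    (@En.n l15982 (nat_lit 8198) (nat_lit 4) (nat_lit 8))
    (@En.n l2254 (nat_lit 9067) (nat_lit 6) (nat_lit 11))
    (@En.n l27217 (nat_lit 5671) (nat_lit 12) (nat_lit 4))
    (@En.n l615 (nat_lit 12731) (nat_lit 7) (nat_lit 4))
    (@En.n l15981 (nat_lit 3251) (nat_lit 9) (nat_lit 10))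
    (@En.n l2254 (nat_lit 12039) (nat_lit 9) (nat_lit 4))
    (@En.n l55 (nat_lit 5955) (nat_lit 11) (nat_lit 12))
    (@En.n l1643 (nat_lit 12043) (nat_lit 12) (nat_lit 12))
    (@En.n l5327 (nat_lit 5674) (nat_lit 13) (nat_lit 8))
    (@En.n l13520 (nat_lit 5952) (nat_lit 14) (nat_lit 12))
    (@En.n l4422 (nat_lit 10744) (nat_lit 13) (nat_lit 5))
    (@En.n l17 (nat_lit 5676) (nat_lit 15) (nat_lit 2))))
  (@Cl.mk (nat_lit 0x2000a00050008000c000c000a000600040004000b00080006000b000e0005) (nat_lit 0x503aa0000050290) (nat_lit 16) Lb.e (@T16.mk En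
    (@En.n l2869 (nat_lit 12196) (nat_lit 8) (nat_lit 5))
    (@En.n l27196 (nat_lit 8970) (nat_lit 4) (nat_lit 14))
    (@En.n l107 (nat_lit 5678) (nat_lit 2) (nat_lit 11))
    (@En.n l27197 (nat_lit 12724) (nat_lit 3) (nat_lit 6))
    (@En.n l27198 (nat_lit 8197) (nat_lit 4) (nat_lit 8))
    (@En.n l27199 (nat_lit 9648) (nat_lit 6) (nat_lit 11))
    (@En.n l27200 (nat_lit 5672) (nat_lit 6) (nat_lit 4))
    (@En.n l27198 (nat_lit 11906) (nat_lit 7) (nat_lit 4))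
    (@En.n l1758 (nat_lit 5922) (nat_lit 8) (nat_lit 6))
    (@En.n l27201 (nat_lit 11898) (nat_lit 10) (nat_lit 10))
    (@En.n l77 (nat_lit 12202) (nat_lit 11) (nat_lit 12))
    (@En.n l8351 (nat_lit 12359) (nat_lit 12) (nat_lit 12))
    (@En.n l27198 (nat_lit 8959) (nat_lit 13) (nat_lit 8))
    (@En.n l27202 (nat_lit 5674) (nat_lit 14) (nat_lit 5))
    (@En.n l3337 (nat_lit 10045) (nat_lit 0) (nat_lit 10))
    (@En.n l17 (nat_lit 5677) (nat_lit 15) (nat_lit 2))))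
  (@Cl.mk (nat_lit 0x200090005000c0008000c000c0004000700040004000c0008000b000e0004) (nat_lit 0x4074a2000004180) (nat_lit 16) Lb.e (@T16.mk En
    (@En.n l2869 (nat_lit 12195) (nat_lit 15) (nat_lit 4))
    (@En.n l1599 (nat_lit 4166) (nat_lit 4) (nat_lit 14))
    (@En.n l14619 (nat_lit 1148) (nat_lit 2) (nat_lit 11))
    (@En.n l998 (nat_lit 8196) (nat_lit 3) (nat_lit 8))
    (@En.n l7748 (nat_lit 9652) (nat_lit 5) (nat_lit 12))
    (@En.n l9965 (nat_lit 5675) (nat_lit 12) (nat_lit 4))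
    (@En.n l28 (nat_lit 12730) (nat_lit 6) (nat_lit 4))
    (@En.i (nat_lit 5920) (nat_lit 11) (nat_lit 7))
    (@En.i (nat_lit 12046) (nat_lit 8) (nat_lit 4))
    (@En.n l77 (nat_lit 12200) (nat_lit 10) (nat_lit 12))
    (@En.i (nat_lit 12362) (nat_lit 11) (nat_lit 12))
    (@En.i (nat_lit 5677) (nat_lit 12) (nat_lit 8))
    (@En.n l180 (nat_lit 12193) (nat_lit 13) (nat_lit 12))
    (@En.n l897 (nat_lit 5676) (nat_lit 14) (nat_lit 5))
    (@En.n l3337 (nat_lit 12190) (nat_lit 5) (nat_lit 9))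
    (@En.n l17 (nat_lit 5678) (nat_lit 15) (nat_lit 2))))
  (@Cl.mk (nat_lit 0x20005000b00080005000c00090005000e000400020008000b0007000e000b) (nat_lit 0x13004090035050) (nat_lit 16) Lb.e (@T16.mk En
    (@En.n l8342 (nat_lit 12193) (nat_lit 11) (nat_lit 11))
    (@En.n l35269 (nat_lit 12282) (nat_lit 12) (nat_lit 14))
    (@En.n l35269 (nat_lit 8958) (nat_lit 13) (nat_lit 7))
    (@En.n l35270 (nat_lit 9216) (nat_lit 3) (nat_lit 11))
    (@En.n l23067 (nat_lit 12187) (nat_lit 4) (nat_lit 8))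
    (@En.n l17 (nat_lit 5679) (nat_lit 5) (nat_lit 2))
    (@En.n l35271 (nat_lit 9234) (nat_lit 6) (nat_lit 4))
    (@En.n l11191 (nat_lit 5375) (nat_lit 8) (nat_lit 14))
    (@En.i (nat_lit 6004) (nat_lit 8) (nat_lit 5))
    (@En.n l2252 (nat_lit 8556) (nat_lit 10) (nat_lit 9))
    (@En.n l35272 (nat_lit 8351) (nat_lit 11) (nat_lit 12))
    (@En.n l4570 (nat_lit 6403) (nat_lit 5) (nat_lit 5))
    (@En.n l1374 (nat_lit 5675) (nat_lit 13) (nat_lit 8))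
    (@En.n l2252 (nat_lit 5672) (nat_lit 8) (nat_lit 11))
    (@En.n l810 (nat_lit 7665) (nat_lit 8) (nat_lit 5))
    (@En.n l28 (nat_lit 5679) (nat_lit 15) (nat_lit 2))))
noncomputable def a355 : T16 Cl := @T16.mk Cl
  (@Cl.mk (nat_lit 0x2000c000b0007000a0004000d0005000900030006000e00090002000e0007) (nat_lit 0x340707070001070) (nat_lit 16) Lb.e (@T16.mk En
    (@En.n l23328 (nat_lit 5243) (nat_lit 14) (nat_lit 7))
    (@En.n l134 (nat_lit 8352) (nat_lit 1) (nat_lit 14))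
    (@En.n l11 (nat_lit 5680) (nat_lit 2) (nat_lit 2))
    (@En.i (nat_lit 5214) (nat_lit 3) (nat_lit 9))
    (@En.n l23329 (nat_lit 8037) (nat_lit 1) (nat_lit 14))
    (@En.i (nat_lit 5948) (nat_lit 12) (nat_lit 6))
    (@En.n l23330 (nat_lit 5216) (nat_lit 6) (nat_lit 3))
    (@En.i (nat_lit 6719) (nat_lit 0) (nat_lit 9))
    (@En.n l6894 (nat_lit 4830) (nat_lit 8) (nat_lit 5))
    (@En.n l10254 (nat_lit 5217) (nat_lit 10) (nat_lit 13))
    (@En.n l4185 (nat_lit 12820) (nat_lit 10) (nat_lit 4))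
    (@En.n l1803 (nat_lit 12824) (nat_lit 8) (nat_lit 10))
    (@En.i (nat_lit 12219) (nat_lit 13) (nat_lit 7))
    (@En.n l19227 (nat_lit 5682) (nat_lit 14) (nat_lit 11))
    (@En.n l17902 (nat_lit 4651) (nat_lit 12) (nat_lit 12))
    (@En.n l7 (nat_lit 5680) (nat_lit 15) (nat_lit 2))))
  (@Cl.mk (nat_lit 0x2000c00060009000c0004000d0008000400030007000e000a0002000e0008) (nat_lit 0x3004070000a5090) (nat_lit 16) Lb.e (@T16.mk En
    (@En.n l7477 (nat_lit 7790) (nat_lit 14) (nat_lit 8))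
    (@En.n l16915 (nat_lit 8237) (nat_lit 1) (nat_lit 14))
    (@En.n l107 (nat_lit 5681) (nat_lit 2) (nat_lit 2))
    (@En.n l25512 (nat_lit 5686) (nat_lit 3) (nat_lit 10))
    (@En.n l97 (nat_lit 8033) (nat_lit 1) (nat_lit 14))
    (@En.n l9136 (nat_lit 5682) (nat_lit 5) (nat_lit 7))
    (@En.n l11960 (nat_lit 5683) (nat_lit 6) (nat_lit 3))
    (@En.i (nat_lit 5759) (nat_lit 0) (nat_lit 4))
    (@En.n l25672 (nat_lit 6912) (nat_lit 5) (nat_lit 8))
    (@En.n l32548 (nat_lit 2010) (nat_lit 10) (nat_lit 13))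
    (@En.i (nat_lit 5216) (nat_lit 10) (nat_lit 4))
    (@En.n l1643 (nat_lit 10119) (nat_lit 12) (nat_lit 12))
    (@En.i (nat_lit 12823) (nat_lit 9) (nat_lit 9))
    (@En.n l564 (nat_lit 12144) (nat_lit 14) (nat_lit 6))
    (@En.n l7479 (nat_lit 7844) (nat_lit 12) (nat_lit 12))
    (@En.n l28 (nat_lit 5681) (nat_lit 15) (nat_lit 2))))
  (@Cl.mk (nat_lit 0x2000b00060009000d000c00050003000900040007000e000a0002000e0007) (nat_lit 0x300b500200a8050) (nat_lit 16) Lb.e (@T16.mk En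
    (@En.n l982 (nat_lit 5693) (nat_lit 14) (nat_lit 7))
    (@En.n l8108 (nat_lit 8356) (nat_lit 1) (nat_lit 14))
    (@En.n l107 (nat_lit 5682) (nat_lit 2) (nat_lit 2))
    (@En.n l8111 (nat_lit 5684) (nat_lit 3) (nat_lit 10))
    (@En.n l97 (nat_lit 8035) (nat_lit 1) (nat_lit 14))
    (@En.n l35251 (nat_lit 5926) (nat_lit 11) (nat_lit 7))
    (@En.n l5567 (nat_lit 931) (nat_lit 6) (nat_lit 4))
    (@En.n l7406 (nat_lit 6914) (nat_lit 4) (nat_lit 9))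
    (@En.n l18 (nat_lit 5683) (nat_lit 8) (nat_lit 3))
    (@En.n l5567 (nat_lit 4828) (nat_lit 0) (nat_lit 5))
    (@En.n l10557 (nat_lit 5681) (nat_lit 11) (nat_lit 12))
    (@En.n l4230 (nat_lit 12493) (nat_lit 12) (nat_lit 13))
    (@En.i (nat_lit 12822) (nat_lit 9) (nat_lit 9))
    (@En.n l1878 (nat_lit 12233) (nat_lit 14) (nat_lit 6))
    (@En.n l10556 (nat_lit 7868) (nat_lit 12) (nat_lit 11))
    (@En.n l28 (nat_lit 5682) (nat_lit 15) (nat_lit 2))))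
  (@Cl.mk (nat_lit 0x2000c00060009000d0004000d0003000900030007000e000a0002000e0007) (nat_lit 0x300a060300a4050) (nat_lit 16) Lb.e (@T16.mk En
    (@En.n l982 (nat_lit 7780) (nat_lit 14) (nat_lit 7))
    (@En.n l8108 (nat_lit 8359) (nat_lit 1) (nat_lit 14))
    (@En.n l107 (nat_lit 5683) (nat_lit 2) (nat_lit 2))
    (@En.n l8111 (nat_lit 5685) (nat_lit 3) (nat_lit 10))
    (@En.n l97 (nat_lit 8034) (nat_lit 1) (nat_lit 14))
    (@En.n l9264 (nat_lit 5925) (nat_lit 5) (nat_lit 7))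
    (@En.n l5567 (nat_lit 5681) (nat_lit 6) (nat_lit 3))
    (@En.i (nat_lit 6900) (nat_lit 0) (nat_lit 9))
    (@En.i (nat_lit 5682) (nat_lit 8) (nat_lit 3))
    (@En.n l1255 (nat_lit 3216) (nat_lit 0) (nat_lit 13))
    (@En.n l690 (nat_lit 5680) (nat_lit 10) (nat_lit 4))
    (@En.n l4306 (nat_lit 10124) (nat_lit 12) (nat_lit 13))
    (@En.i (nat_lit 12821) (nat_lit 9) (nat_lit 9))
    (@En.i (nat_lit 12146) (nat_lit 14) (nat_lit 6))
    (@En.n l3130 (nat_lit 7871) (nat_lit 12) (nat_lit 12))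
    (@En.n l28 (nat_lit 5683) (nat_lit 15) (nat_lit 2))))
  (@Cl.mk (nat_lit 0x2000a000600060009000d000c00060003000a00040007000a000a000e0006) (nat_lit 0x3001b6002007040) (nat_lit 16) Lb.e (@T16.mk En
    (@En.n l39913 (nat_lit 5690) (nat_lit 8) (nat_lit 6))
    (@En.n l2604 (nat_lit 8354) (nat_lit 1) (nat_lit 14))
    (@En.n l527 (nat_lit 5689) (nat_lit 6) (nat_lit 10))
    (@En.i (nat_lit 5741) (nat_lit 3) (nat_lit 10))
    (@En.n l25362 (nat_lit 5919) (nat_lit 11) (nat_lit 7))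
    (@En.n l11823 (nat_lit 933) (nat_lit 5) (nat_lit 4))
    (@En.n l15234 (nat_lit 5423) (nat_lit 0) (nat_lit 10))
    (@En.n l7 (nat_lit 5685) (nat_lit 7) (nat_lit 3))
    (@En.n l15234 (nat_lit 4829) (nat_lit 0) (nat_lit 6))
    (@En.n l644 (nat_lit 5686) (nat_lit 10) (nat_lit 12))
    (@En.n l2604 (nat_lit 12492) (nat_lit 11) (nat_lit 13))
    (@En.n l12231 (nat_lit 5682) (nat_lit 12) (nat_lit 9))
    (@En.n l25925 (nat_lit 5682) (nat_lit 13) (nat_lit 6))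
    (@En.n l15234 (nat_lit 12147) (nat_lit 14) (nat_lit 6))
    (@En.n l39914 (nat_lit 7841) (nat_lit 7) (nat_lit 10))
    (@En.n l17 (nat_lit 5684) (nat_lit 15) (nat_lit 2))))
  (@Cl.mk (nat_lit 0x2000b000600060009000d0005000d0003000a00030007000a000a000e0006) (nat_lit 0x3001b0803003040) (nat_lit 16) Lb.e (@T16.mk En
    (@En.n l3098 (nat_lit 5691) (nat_lit 8) (nat_lit 6))
    (@En.n l2604 (nat_lit 8357) (nat_lit 1) (nat_lit 14))
    (@En.n l527 (nat_lit 5687) (nat_lit 6) (nat_lit 10))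
    (@En.i (nat_lit 8046) (nat_lit 3) (nat_lit 10))
    (@En.n l5385 (nat_lit 5922) (nat_lit 4) (nat_lit 7))
    (@En.i (nat_lit 5686) (nat_lit 5) (nat_lit 3))
    (@En.n l180 (nat_lit 6899) (nat_lit 0) (nat_lit 10))
    (@En.i (nat_lit 5684) (nat_lit 7) (nat_lit 3))
    (@En.n l20689 (nat_lit 2009) (nat_lit 9) (nat_lit 13))
    (@En.n l13142 (nat_lit 5214) (nat_lit 9) (nat_lit 5))
    (@En.n l2604 (nat_lit 12491) (nat_lit 11) (nat_lit 13))
    (@En.n l12231 (nat_lit 5683) (nat_lit 12) (nat_lit 9))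
    (@En.n l25925 (nat_lit 5683) (nat_lit 13) (nat_lit 6))
    (@En.i (nat_lit 12141) (nat_lit 14) (nat_lit 6))
    (@En.n l2125 (nat_lit 7843) (nat_lit 9) (nat_lit 11))
    (@En.n l17 (nat_lit 5685) (nat_lit 15) (nat_lit 2))))
  (@Cl.mk (nat_lit 0x2000b000600060009000c0005000d0009000400030007000a000a000e0007) (nat_lit 0x300150720004080) (nat_lit 16) Lb.e (@T16.mk En
    (@En.n l36262 (nat_lit 5692) (nat_lit 11) (nat_lit 7))
    (@En.n l2604 (nat_lit 8238) (nat_lit 1) (nat_lit 14))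
    (@En.n l527 (nat_lit 5688) (nat_lit 6) (nat_lit 10))
    (@En.i (nat_lit 5745) (nat_lit 3) (nat_lit 10))
    (@En.n l612 (nat_lit 5684) (nat_lit 4) (nat_lit 7))
    (@En.n l50 (nat_lit 5685) (nat_lit 5) (nat_lit 3))
    (@En.n l11823 (nat_lit 5754) (nat_lit 0) (nat_lit 4))
    (@En.n l217 (nat_lit 5427) (nat_lit 0) (nat_lit 9))
    (@En.n l17733 (nat_lit 2007) (nat_lit 9) (nat_lit 13))
    (@En.n l11823 (nat_lit 5212) (nat_lit 9) (nat_lit 5))
    (@En.n l8962 (nat_lit 10121) (nat_lit 6) (nat_lit 12))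
    (@En.n l39915 (nat_lit 5681) (nat_lit 12) (nat_lit 9))
    (@En.n l39916 (nat_lit 5681) (nat_lit 13) (nat_lit 6))
    (@En.n l17733 (nat_lit 12142) (nat_lit 14) (nat_lit 6))
    (@En.n l36264 (nat_lit 7840) (nat_lit 9) (nat_lit 11))
    (@En.n l17 (nat_lit 5686) (nat_lit 15) (nat_lit 2))))
  (@Cl.mk (nat_lit 0x20009000d0006000d0003000b00030007000a000e00050002000a000e0006) (nat_lit 0x2b0803008300310) (nat_lit 16) Lb.e (@T16.mk En
    (@En.i (nat_lit 5685) (nat_lit 13) (nat_lit 6))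
    (@En.i (nat_lit 3471) (nat_lit 1) (nat_lit 14))
    (@En.n l2125 (nat_lit 7842) (nat_lit 2) (nat_lit 10))
    (@En.n l17 (nat_lit 5687) (nat_lit 3) (nat_lit 2))
    (@En.n l3098 (nat_lit 7791) (nat_lit 4) (nat_lit 5))
    (@En.i (nat_lit 4066) (nat_lit 6) (nat_lit 14))
    (@En.i (nat_lit 7027) (nat_lit 2) (nat_lit 10))
    (@En.n l513 (nat_lit 5920) (nat_lit 7) (nat_lit 7))
    (@En.i (nat_lit 5688) (nat_lit 8) (nat_lit 3))
    (@En.i (nat_lit 6903) (nat_lit 0) (nat_lit 11))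
    (@En.i (nat_lit 5689) (nat_lit 10) (nat_lit 3))
    (@En.n l10280 (nat_lit 2008) (nat_lit 8) (nat_lit 13))
    (@En.i (nat_lit 5213) (nat_lit 13) (nat_lit 6))
    (@En.n l2605 (nat_lit 12773) (nat_lit 10) (nat_lit 13))
    (@En.n l5732 (nat_lit 5685) (nat_lit 11) (nat_lit 9))
    (@En.n l107 (nat_lit 5687) (nat_lit 15) (nat_lit 2))))
  (@Cl.mk (nat_lit 0x20009000c0006000d000a000400030007000a000e00060002000a000e0006) (nat_lit 0x280920008700390) (nat_lit 16) Lb.e (@T16.mk En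
    (@En.i (nat_lit 5686) (nat_lit 13) (nat_lit 6))
    (@En.i (nat_lit 3469) (nat_lit 1) (nat_lit 14))
    (@En.n l3928 (nat_lit 7839) (nat_lit 2) (nat_lit 10))
    (@En.n l17 (nat_lit 5688) (nat_lit 3) (nat_lit 2))
    (@En.n l3928 (nat_lit 7792) (nat_lit 4) (nat_lit 6))
    (@En.i (nat_lit 4065) (nat_lit 6) (nat_lit 14))
    (@En.i (nat_lit 7031) (nat_lit 2) (nat_lit 10))
    (@En.n l612 (nat_lit 5689) (nat_lit 7) (nat_lit 7))
    (@En.n l50 (nat_lit 5687) (nat_lit 8) (nat_lit 3))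
    (@En.i (nat_lit 5751) (nat_lit 0) (nat_lit 4))
    (@En.n l217 (nat_lit 5426) (nat_lit 11) (nat_lit 10))
    (@En.n l3348 (nat_lit 2005) (nat_lit 8) (nat_lit 13))
    (@En.i (nat_lit 5211) (nat_lit 13) (nat_lit 6))
    (@En.n l2605 (nat_lit 12834) (nat_lit 6) (nat_lit 12))
    (@En.n l5732 (nat_lit 5686) (nat_lit 11) (nat_lit 9))
    (@En.n l107 (nat_lit 5688) (nat_lit 15) (nat_lit 2))))
  (@Cl.mk (nat_lit 0x20009000d000c00070003000b00040007000a000e000500020009000e0006) (nat_lit 0x2b9002008600310) (nat_lit 16) Lb.e (@T16.mk En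
    (@En.i (nat_lit 5684) (nat_lit 13) (nat_lit 6))
    (@En.i (nat_lit 3470) (nat_lit 1) (nat_lit 14))
    (@En.n l133 (nat_lit 7838) (nat_lit 2) (nat_lit 9))
    (@En.n l17 (nat_lit 5689) (nat_lit 3) (nat_lit 2))
    (@En.n l12333 (nat_lit 7793) (nat_lit 4) (nat_lit 5))
    (@En.n l433 (nat_lit 4064) (nat_lit 6) (nat_lit 14))
    (@En.i (nat_lit 7028) (nat_lit 2) (nat_lit 10))
    (@En.n l1251 (nat_lit 5921) (nat_lit 11) (nat_lit 7))
    (@En.n l4263 (nat_lit 5753) (nat_lit 4) (nat_lit 4))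
    (@En.n l564 (nat_lit 5422) (nat_lit 10) (nat_lit 11))
    (@En.n l7 (nat_lit 5687) (nat_lit 10) (nat_lit 3))
    (@En.n l433 (nat_lit 4832) (nat_lit 7) (nat_lit 7))
    (@En.n l644 (nat_lit 5688) (nat_lit 13) (nat_lit 12))
    (@En.n l2605 (nat_lit 12774) (nat_lit 10) (nat_lit 13))
    (@En.n l5732 (nat_lit 5684) (nat_lit 11) (nat_lit 9))
    (@En.n l107 (nat_lit 5689) (nat_lit 15) (nat_lit 2))))
  (@Cl.mk (nat_lit 0x3000a000a00050008000b000b00060006000a000500050008000d000b0006) (nat_lit 0x730585002000a70) (nat_lit 16) Lb.e (@T16.mk En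
    (@En.n l513 (nat_lit 4833) (nat_lit 0) (nat_lit 6))
    (@En.n l7379 (nat_lit 5692) (nat_lit 5) (nat_lit 11))
    (@En.n l34720 (nat_lit 12455) (nat_lit 2) (nat_lit 13))
    (@En.n l31983 (nat_lit 5693) (nat_lit 10) (nat_lit 8))
    (@En.n l30869 (nat_lit 5693) (nat_lit 11) (nat_lit 5))
    (@En.n l50 (nat_lit 10558) (nat_lit 5) (nat_lit 5))
    (@En.n l1974 (nat_lit 7858) (nat_lit 9) (nat_lit 10))
    (@En.n l55 (nat_lit 7785) (nat_lit 10) (nat_lit 6))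
    (@En.n l23692 (nat_lit 10080) (nat_lit 8) (nat_lit 6))
    (@En.n l9762 (nat_lit 7793) (nat_lit 5) (nat_lit 11))
    (@En.n l253 (nat_lit 8020) (nat_lit 7) (nat_lit 11))
    (@En.i (nat_lit 5874) (nat_lit 10) (nat_lit 8))
    (@En.n l253 (nat_lit 7256) (nat_lit 13) (nat_lit 5))
    (@En.n l21891 (nat_lit 5684) (nat_lit 6) (nat_lit 10))
    (@En.n l34721 (nat_lit 6922) (nat_lit 1) (nat_lit 10))
    (@En.n l11610 (nat_lit 5691) (nat_lit 15) (nat_lit 3))))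
  (@Cl.mk (nat_lit 0x3000a000a00040008000b000b00060006000b000500050008000d0005000c) (nat_lit 0x740685002000906) (nat_lit 16) Lb.e (@T16.mk En
    (@En.n l40064 (nat_lit 3197) (nat_lit 0) (nat_lit 12))
    (@En.i (nat_lit 5239) (nat_lit 4) (nat_lit 5))
    (@En.n l40065 (nat_lit 12450) (nat_lit 2) (nat_lit 13))
    (@En.n l2491 (nat_lit 7780) (nat_lit 10) (nat_lit 8))
    (@En.n l7129 (nat_lit 7780) (nat_lit 11) (nat_lit 5))
    (@En.i (nat_lit 10559) (nat_lit 5) (nat_lit 5))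
    (@En.n l39929 (nat_lit 7875) (nat_lit 0) (nat_lit 11))
    (@En.n l16341 (nat_lit 7781) (nat_lit 10) (nat_lit 6))
    (@En.n l5611 (nat_lit 10082) (nat_lit 8) (nat_lit 6))
    (@En.n l55 (nat_lit 7791) (nat_lit 5) (nat_lit 11))
    (@En.i (nat_lit 8019) (nat_lit 7) (nat_lit 11))
    (@En.n l617 (nat_lit 5873) (nat_lit 11) (nat_lit 8))
    (@En.n l40066 (nat_lit 6556) (nat_lit 15) (nat_lit 4))
    (@En.n l3536 (nat_lit 5685) (nat_lit 6) (nat_lit 10))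
    (@En.n l40067 (nat_lit 6551) (nat_lit 1) (nat_lit 10))
    (@En.n l2199 (nat_lit 5690) (nat_lit 15) (nat_lit 3))))
  (@Cl.mk (nat_lit 0x40008000b000b00070007000b000500050008000b0005000c000900090005) (nat_lit 0x656002000608630) (nat_lit 16) Lb.e (@T16.mk En
    (@En.n l31616 (nat_lit 7561) (nat_lit 0) (nat_lit 5))
    (@En.n l31980 (nat_lit 5686) (nat_lit 7) (nat_lit 9))
    (@En.n l16644 (nat_lit 6559) (nat_lit 1) (nat_lit 9))
    (@En.n l17654 (nat_lit 3194) (nat_lit 2) (nat_lit 12))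
    (@En.n l31981 (nat_lit 5240) (nat_lit 4) (nat_lit 5))
    (@En.i (nat_lit 10127) (nat_lit 7) (nat_lit 11))
    (@En.n l27912 (nat_lit 7790) (nat_lit 10) (nat_lit 8))
    (@En.n l14211 (nat_lit 7790) (nat_lit 11) (nat_lit 5))
    (@En.n l31982 (nat_lit 72) (nat_lit 0) (nat_lit 5))
    (@En.i (nat_lit 7860) (nat_lit 8) (nat_lit 11))
    (@En.n l31619 (nat_lit 7786) (nat_lit 9) (nat_lit 7))
    (@En.n l613 (nat_lit 10078) (nat_lit 2) (nat_lit 7))
    (@En.n l5774 (nat_lit 7792) (nat_lit 5) (nat_lit 11))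
    (@En.n l5389 (nat_lit 8018) (nat_lit 7) (nat_lit 11))
    (@En.n l727 (nat_lit 5690) (nat_lit 11) (nat_lit 8))
    (@En.n l31982 (nat_lit 5691) (nat_lit 12) (nat_lit 4))))
  (@Cl.mk (nat_lit 0x200070007000b00050008000d000b000500030009000900050008000e000b) (nat_lit 0x206a600630509) (nat_lit 16) Lb.e (@T16.mk En
    (@En.n l27066 (nat_lit 5690) (nat_lit 10) (nat_lit 11))
    (@En.n l1578 (nat_lit 7737) (nat_lit 1) (nat_lit 14))
    (@En.n l17133 (nat_lit 5932) (nat_lit 10) (nat_lit 8))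
    (@En.n l6080 (nat_lit 7254) (nat_lit 3) (nat_lit 5))
    (@En.n l3261 (nat_lit 5682) (nat_lit 7) (nat_lit 9))
    (@En.n l10794 (nat_lit 6921) (nat_lit 5) (nat_lit 9))
    (@En.n l18 (nat_lit 7780) (nat_lit 6) (nat_lit 3))
    (@En.n l17134 (nat_lit 4834) (nat_lit 7) (nat_lit 5))
    (@En.n l899 (nat_lit 7790) (nat_lit 9) (nat_lit 11))
    (@En.n l2213 (nat_lit 12495) (nat_lit 10) (nat_lit 13))
    (@En.i (nat_lit 13783) (nat_lit 10) (nat_lit 8))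
    (@En.n l24080 (nat_lit 54) (nat_lit 4) (nat_lit 5))
    (@En.n l17133 (nat_lit 7869) (nat_lit 13) (nat_lit 11))
    (@En.n l152 (nat_lit 7783) (nat_lit 9) (nat_lit 7))
    (@En.i (nat_lit 10079) (nat_lit 7) (nat_lit 7))
    (@En.n l28 (nat_lit 5693) (nat_lit 15) (nat_lit 2))))
  (@Cl.mk (nat_lit 0x20009000e000d0002000b000300080007000d0005000e00030002000e0008) (nat_lit 0x12a0206050a00b5) (nat_lit 16) Lb.e (@T16.mk En
    (@En.i (nat_lit 5442) (nat_lit 14) (nat_lit 8))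
    (@En.i (nat_lit 5667) (nat_lit 1) (nat_lit 14))
    (@En.n l17 (nat_lit 5694) (nat_lit 2) (nat_lit 2))
    (@En.i (nat_lit 5129) (nat_lit 3) (nat_lit 3))
    (@En.i (nat_lit 12958) (nat_lit 0) (nat_lit 14))
    (@En.i (nat_lit 5716) (nat_lit 5) (nat_lit 5))
    (@En.n l4021 (nat_lit 5542) (nat_lit 7) (nat_lit 13))
    (@En.i (nat_lit 3578) (nat_lit 7) (nat_lit 7))
    (@En.n l117 (nat_lit 6424) (nat_lit 13) (nat_lit 8))
    (@En.i (nat_lit 5501) (nat_lit 9) (nat_lit 3))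
    (@En.i (nat_lit 6017) (nat_lit 0) (nat_lit 11))
    (@En.n l28 (nat_lit 5694) (nat_lit 11) (nat_lit 2))
    (@En.n l134 (nat_lit 5501) (nat_lit 13) (nat_lit 13))
    (@En.n l5577 (nat_lit 4845) (nat_lit 1) (nat_lit 14))
    (@En.n l107 (nat_lit 929) (nat_lit 12) (nat_lit 9))
    (@En.n l3 (nat_lit 5694) (nat_lit 15) (nat_lit 2))))
  (@Cl.mk (nat_lit 0x2000a000e000a0002000b00070006000c00060005000e00040002000e0009) (nat_lit 0x656030050070096) (nat_lit 16) Lb.e (@T16.mk En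
    (@En.i (nat_lit 5697) (nat_lit 14) (nat_lit 9))
    (@En.i (nat_lit 5272) (nat_lit 1) (nat_lit 14))
    (@En.n l17 (nat_lit 5695) (nat_lit 2) (nat_lit 2))
    (@En.i (nat_lit 5696) (nat_lit 7) (nat_lit 4))
    (@En.n l8118 (nat_lit 3219) (nat_lit 9) (nat_lit 14))
    (@En.i (nat_lit 5694) (nat_lit 5) (nat_lit 5))
    (@En.i (nat_lit 6906) (nat_lit 6) (nat_lit 6))
    (@En.n l4021 (nat_lit 8027) (nat_lit 8) (nat_lit 12))
    (@En.i (nat_lit 5890) (nat_lit 8) (nat_lit 6))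
    (@En.i (nat_lit 12747) (nat_lit 14) (nat_lit 7))
    (@En.n l7 (nat_lit 5201) (nat_lit 11) (nat_lit 11))
    (@En.n l28 (nat_lit 5695) (nat_lit 11) (nat_lit 2))
    (@En.i (nat_lit 5698) (nat_lit 13) (nat_lit 10))
    (@En.n l5577 (nat_lit 10123) (nat_lit 1) (nat_lit 14))
    (@En.n l107 (nat_lit 5754) (nat_lit 12) (nat_lit 10))
    (@En.n l3 (nat_lit 5695) (nat_lit 15) (nat_lit 2))))
noncomputable def a356 : T16 Cl := @T16.mk Cl
  (@Cl.mk (nat_lit 0x2000a00070006000c000c0007000600040004000e00090002000a000e0009) (nat_lit 0x700660000950157) (nat_lit 16) Lb.e (@T16.mk En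
    (@En.i (nat_lit 5700) (nat_lit 13) (nat_lit 9))
    (@En.n l5577 (nat_lit 10103) (nat_lit 1) (nat_lit 14))
    (@En.n l107 (nat_lit 933) (nat_lit 2) (nat_lit 10))
    (@En.n l3 (nat_lit 5696) (nat_lit 3) (nat_lit 2))
    (@En.i (nat_lit 5699) (nat_lit 4) (nat_lit 9))
    (@En.i (nat_lit 5848) (nat_lit 1) (nat_lit 14))
    (@En.i (nat_lit 5778) (nat_lit 12) (nat_lit 4))
    (@En.n l18 (nat_lit 8033) (nat_lit 3) (nat_lit 4))
    (@En.i (nat_lit 5129) (nat_lit 4) (nat_lit 6))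
    (@En.i (nat_lit 6528) (nat_lit 5) (nat_lit 7))
    (@En.n l61 (nat_lit 5695) (nat_lit 7) (nat_lit 12))
    (@En.n l4021 (nat_lit 7733) (nat_lit 8) (nat_lit 12))
    (@En.i (nat_lit 4665) (nat_lit 8) (nat_lit 6))
    (@En.i (nat_lit 12750) (nat_lit 14) (nat_lit 7))
    (@En.n l7 (nat_lit 4636) (nat_lit 11) (nat_lit 10))
    (@En.n l28 (nat_lit 5696) (nat_lit 15) (nat_lit 2))))
  (@Cl.mk (nat_lit 0x2000900090009000e00090002000a000700070007000c00070006000e0004) (nat_lit 0x507570300060090) (nat_lit 16) Lb.e (@T16.mk En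
    (@En.i (nat_lit 5699) (nat_lit 6) (nat_lit 4))
    (@En.n l8118 (nat_lit 1894) (nat_lit 8) (nat_lit 14))
    (@En.i (nat_lit 5442) (nat_lit 2) (nat_lit 6))
    (@En.i (nat_lit 6440) (nat_lit 3) (nat_lit 7))
    (@En.n l4021 (nat_lit 6589) (nat_lit 11) (nat_lit 12))
    (@En.n l20805 (nat_lit 6464) (nat_lit 5) (nat_lit 7))
    (@En.n l152 (nat_lit 5695) (nat_lit 9) (nat_lit 7))
    (@En.n l12120 (nat_lit 12839) (nat_lit 14) (nat_lit 7))
    (@En.n l11086 (nat_lit 5196) (nat_lit 9) (nat_lit 10))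
    (@En.n l28 (nat_lit 5697) (nat_lit 9) (nat_lit 2))
    (@En.n l11083 (nat_lit 5701) (nat_lit 11) (nat_lit 9))
    (@En.n l5577 (nat_lit 10102) (nat_lit 12) (nat_lit 14))
    (@En.n l20809 (nat_lit 5743) (nat_lit 2) (nat_lit 9))
    (@En.n l12550 (nat_lit 5708) (nat_lit 7) (nat_lit 9))
    (@En.n l13781 (nat_lit 6522) (nat_lit 4) (nat_lit 9))
    (@En.n l17 (nat_lit 5697) (nat_lit 15) (nat_lit 2))))
  (@Cl.mk (nat_lit 0x2000b000a000a000a00060005000b000600060006000e00050002000e000a) (nat_lit 0x256600800090037) (nat_lit 16) Lb.e (@T16.mk En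
    (@En.n l11083 (nat_lit 5701) (nat_lit 14) (nat_lit 10))
    (@En.i (nat_lit 5705) (nat_lit 1) (nat_lit 14))
    (@En.n l17 (nat_lit 5698) (nat_lit 2) (nat_lit 2))
    (@En.i (nat_lit 5700) (nat_lit 3) (nat_lit 5))
    (@En.n l8118 (nat_lit 3222) (nat_lit 1) (nat_lit 14))
    (@En.n l134 (nat_lit 5702) (nat_lit 10) (nat_lit 6))
    (@En.n l55 (nat_lit 5695) (nat_lit 6) (nat_lit 6))
    (@En.n l11084 (nat_lit 4901) (nat_lit 7) (nat_lit 6))
    (@En.n l4021 (nat_lit 8024) (nat_lit 9) (nat_lit 11))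
    (@En.i (nat_lit 5827) (nat_lit 9) (nat_lit 5))
    (@En.n l11085 (nat_lit 12772) (nat_lit 7) (nat_lit 6))
    (@En.n l11086 (nat_lit 5703) (nat_lit 12) (nat_lit 10))
    (@En.n l11087 (nat_lit 5704) (nat_lit 6) (nat_lit 10))
    (@En.n l11088 (nat_lit 12389) (nat_lit 14) (nat_lit 10))
    (@En.n l11089 (nat_lit 5752) (nat_lit 12) (nat_lit 11))
    (@En.n l3 (nat_lit 5698) (nat_lit 15) (nat_lit 2))))
  (@Cl.mk (nat_lit 0x20009000700070007000c000c0008000700040004000900090009000e0008) (nat_lit 0x100047100041696) (nat_lit 16) Lb.e (@T16.mk En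
    (@En.n l11621 (nat_lit 5303) (nat_lit 10) (nat_lit 8))
    (@En.n l5577 (nat_lit 10094) (nat_lit 1) (nat_lit 14))
    (@En.n l13038 (nat_lit 5737) (nat_lit 2) (nat_lit 9))
    (@En.n l30586 (nat_lit 5132) (nat_lit 7) (nat_lit 9))
    (@En.n l30587 (nat_lit 6520) (nat_lit 4) (nat_lit 9))
    (@En.n l5003 (nat_lit 5736) (nat_lit 5) (nat_lit 4))
    (@En.n l30588 (nat_lit 6468) (nat_lit 6) (nat_lit 4))
    (@En.i (nat_lit 2959) (nat_lit 7) (nat_lit 7))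
    (@En.n l30589 (nat_lit 68) (nat_lit 1) (nat_lit 8))
    (@En.n l61 (nat_lit 5697) (nat_lit 4) (nat_lit 12))
    (@En.n l4021 (nat_lit 7731) (nat_lit 11) (nat_lit 12))
    (@En.n l1865 (nat_lit 5733) (nat_lit 12) (nat_lit 7))
    (@En.n l152 (nat_lit 5696) (nat_lit 13) (nat_lit 7))
    (@En.n l30590 (nat_lit 11634) (nat_lit 14) (nat_lit 7))
    (@En.n l11086 (nat_lit 1643) (nat_lit 8) (nat_lit 9))
    (@En.n l28 (nat_lit 5699) (nat_lit 15) (nat_lit 2))))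
  (@Cl.mk (nat_lit 0x2000b00090009000900060005000b000b00070007000700050005000e000a) (nat_lit 0x162600290000026) (nat_lit 16) Lb.e (@T16.mk En
    (@En.n l11621 (nat_lit 5303) (nat_lit 13) (nat_lit 10))
    (@En.n l15827 (nat_lit 5783) (nat_lit 1) (nat_lit 14))
    (@En.n l13045 (nat_lit 5779) (nat_lit 11) (nat_lit 5))
    (@En.n l8116 (nat_lit 8032) (nat_lit 3) (nat_lit 5))
    (@En.n l17109 (nat_lit 5707) (nat_lit 9) (nat_lit 7))
    (@En.n l55 (nat_lit 5696) (nat_lit 9) (nat_lit 7))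
    (@En.n l22942 (nat_lit 7654) (nat_lit 6) (nat_lit 7))
    (@En.n l61 (nat_lit 5698) (nat_lit 8) (nat_lit 11))
    (@En.n l4021 (nat_lit 7175) (nat_lit 9) (nat_lit 11))
    (@En.i (nat_lit 4137) (nat_lit 9) (nat_lit 5))
    (@En.n l22943 (nat_lit 12455) (nat_lit 11) (nat_lit 6))
    (@En.n l11086 (nat_lit 5306) (nat_lit 7) (nat_lit 9))
    (@En.n l17111 (nat_lit 5706) (nat_lit 7) (nat_lit 9))
    (@En.n l11088 (nat_lit 12386) (nat_lit 14) (nat_lit 9))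
    (@En.n l13038 (nat_lit 48) (nat_lit 3) (nat_lit 11))
    (@En.n l3 (nat_lit 5700) (nat_lit 15) (nat_lit 2))))
  (@Cl.mk (nat_lit 0x2000a000a000a000900090009000600060006000b000700070007000e0005) (nat_lit 0x677655000600090) (nat_lit 16) Lb.e (@T16.mk En
    (@En.n l22980 (nat_lit 5303) (nat_lit 15) (nat_lit 5))
    (@En.n l2639 (nat_lit 2978) (nat_lit 1) (nat_lit 14))
    (@En.n l19051 (nat_lit 5715) (nat_lit 9) (nat_lit 7))
    (@En.n l22981 (nat_lit 5697) (nat_lit 3) (nat_lit 7))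
    (@En.i (nat_lit 3169) (nat_lit 4) (nat_lit 7))
    (@En.n l287 (nat_lit 5174) (nat_lit 6) (nat_lit 11))
    (@En.n l22982 (nat_lit 5727) (nat_lit 6) (nat_lit 6))
    (@En.n l22983 (nat_lit 5698) (nat_lit 10) (nat_lit 6))
    (@En.n l4112 (nat_lit 11137) (nat_lit 8) (nat_lit 6))
    (@En.n l644 (nat_lit 5202) (nat_lit 10) (nat_lit 9))
    (@En.n l77 (nat_lit 5722) (nat_lit 7) (nat_lit 9))
    (@En.n l55 (nat_lit 11516) (nat_lit 12) (nat_lit 9))
    (@En.n l619 (nat_lit 5746) (nat_lit 6) (nat_lit 10))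
    (@En.n l15358 (nat_lit 5710) (nat_lit 6) (nat_lit 10))
    (@En.n l22984 (nat_lit 5159) (nat_lit 14) (nat_lit 10))
    (@En.n l17 (nat_lit 5701) (nat_lit 15) (nat_lit 2))))
  (@Cl.mk (nat_lit 0x200070006000c00070006000e00040002000e00090002000a0009000e000a) (nat_lit 0x200a0034087b7) (nat_lit 16) Lb.e (@T16.mk En
    (@En.n l28 (nat_lit 5698) (nat_lit 12) (nat_lit 10))
    (@En.n l4016 (nat_lit 7140) (nat_lit 13) (nat_lit 14))
    (@En.n l4017 (nat_lit 12384) (nat_lit 2) (nat_lit 9))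
    (@En.n l107 (nat_lit 5763) (nat_lit 3) (nat_lit 10))
    (@En.n l3 (nat_lit 5702) (nat_lit 4) (nat_lit 2))
    (@En.n l4018 (nat_lit 5715) (nat_lit 5) (nat_lit 9))
    (@En.i (nat_lit 7712) (nat_lit 1) (nat_lit 14))
    (@En.n l17 (nat_lit 5702) (nat_lit 7) (nat_lit 2))
    (@En.n l4019 (nat_lit 5707) (nat_lit 8) (nat_lit 4))
    (@En.n l4020 (nat_lit 3094) (nat_lit 10) (nat_lit 14))
    (@En.i (nat_lit 5501) (nat_lit 5) (nat_lit 6))
    (@En.n l1347 (nat_lit 5042) (nat_lit 12) (nat_lit 7))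
    (@En.n l4021 (nat_lit 8159) (nat_lit 8) (nat_lit 12))
    (@En.i (nat_lit 5833) (nat_lit 14) (nat_lit 6))
    (@En.n l4022 (nat_lit 9287) (nat_lit 6) (nat_lit 7))
    (@En.n l7 (nat_lit 5702) (nat_lit 15) (nat_lit 2))))
  (@Cl.mk (nat_lit 0x2000c000b000a00050004000a0005000e00060002000e00060002000e000b) (nat_lit 0x795002080090048) (nat_lit 16) Lb.e (@T16.mk En
    (@En.i (nat_lit 5202) (nat_lit 14) (nat_lit 11))
    (@En.i (nat_lit 7443) (nat_lit 1) (nat_lit 14))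
    (@En.n l17 (nat_lit 5703) (nat_lit 2) (nat_lit 2))
    (@En.i (nat_lit 5306) (nat_lit 14) (nat_lit 6))
    (@En.i (nat_lit 6894) (nat_lit 1) (nat_lit 14))
    (@En.n l50 (nat_lit 5703) (nat_lit 5) (nat_lit 2))
    (@En.n l11051 (nat_lit 5698) (nat_lit 6) (nat_lit 6))
    (@En.n l601 (nat_lit 6016) (nat_lit 1) (nat_lit 14))
    (@En.n l11 (nat_lit 4902) (nat_lit 8) (nat_lit 5))
    (@En.n l287 (nat_lit 8021) (nat_lit 10) (nat_lit 10))
    (@En.n l11 (nat_lit 5831) (nat_lit 10) (nat_lit 4))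
    (@En.i (nat_lit 12396) (nat_lit 8) (nat_lit 5))
    (@En.n l77 (nat_lit 4748) (nat_lit 13) (nat_lit 10))
    (@En.n l55 (nat_lit 12387) (nat_lit 14) (nat_lit 11))
    (@En.n l615 (nat_lit 5762) (nat_lit 12) (nat_lit 12))
    (@En.n l3 (nat_lit 5703) (nat_lit 15) (nat_lit 2))))
  (@Cl.mk (nat_lit 0x20007000e00060002000e000b0002000c000a000900050004000a000e0006) (nat_lit 0x200380a5500420) (nat_lit 16) Lb.e (@T16.mk En
    (@En.n l9902 (nat_lit 5698) (nat_lit 7) (nat_lit 6))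
    (@En.i (nat_lit 1947) (nat_lit 9) (nat_lit 14))
    (@En.n l4021 (nat_lit 8075) (nat_lit 10) (nat_lit 10))
    (@En.i (nat_lit 5823) (nat_lit 3) (nat_lit 4))
    (@En.n l7998 (nat_lit 12774) (nat_lit 4) (nat_lit 5))
    (@En.n l10779 (nat_lit 4751) (nat_lit 5) (nat_lit 9))
    (@En.n l575 (nat_lit 12806) (nat_lit 14) (nat_lit 10))
    (@En.n l10780 (nat_lit 5753) (nat_lit 8) (nat_lit 12))
    (@En.n l3 (nat_lit 5704) (nat_lit 8) (nat_lit 2))
    (@En.n l575 (nat_lit 5722) (nat_lit 10) (nat_lit 11))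
    (@En.i (nat_lit 7709) (nat_lit 1) (nat_lit 14))
    (@En.n l17 (nat_lit 5704) (nat_lit 11) (nat_lit 2))
    (@En.n l8268 (nat_lit 5706) (nat_lit 13) (nat_lit 6))
    (@En.i (nat_lit 2975) (nat_lit 1) (nat_lit 14))
    (@En.n l10781 (nat_lit 7139) (nat_lit 5) (nat_lit 7))
    (@En.n l7 (nat_lit 5704) (nat_lit 15) (nat_lit 2))))
  (@Cl.mk (nat_lit 0x20005000b000a000a000a00070005000b000600060006000b0005000e0009) (nat_lit 0x28020080004025) (nat_lit 16) Lb.e (@T16.mk En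
    (@En.n l11621 (nat_lit 7710) (nat_lit 1) (nat_lit 9))
    (@En.n l11045 (nat_lit 5850) (nat_lit 1) (nat_lit 14))
    (@En.n l15827 (nat_lit 5783) (nat_lit 2) (nat_lit 5))
    (@En.n l8173 (nat_lit 10354) (nat_lit 3) (nat_lit 11))
    (@En.n l134 (nat_lit 7712) (nat_lit 4) (nat_lit 6))
    (@En.n l55 (nat_lit 5272) (nat_lit 5) (nat_lit 6))
    (@En.n l11084 (nat_lit 11654) (nat_lit 6) (nat_lit 6))
    (@En.n l4021 (nat_lit 8025) (nat_lit 8) (nat_lit 11))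
    (@En.i (nat_lit 7476) (nat_lit 8) (nat_lit 5))
    (@En.n l21896 (nat_lit 12441) (nat_lit 10) (nat_lit 7))
    (@En.n l11086 (nat_lit 7443) (nat_lit 11) (nat_lit 10))
    (@En.n l11087 (nat_lit 7709) (nat_lit 12) (nat_lit 10))
    (@En.n l11088 (nat_lit 11329) (nat_lit 13) (nat_lit 10))
    (@En.n l617 (nat_lit 5700) (nat_lit 14) (nat_lit 11))
    (@En.i (nat_lit 6445) (nat_lit 13) (nat_lit 5))
    (@En.n l3 (nat_lit 5705) (nat_lit 15) (nat_lit 2))))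
  (@Cl.mk (nat_lit 0x2000800060006000e000b0002000c0009000800050004000a000a000e0007) (nat_lit 0x300270115002530) (nat_lit 16) Lb.e (@T16.mk En
    (@En.n l22012 (nat_lit 5700) (nat_lit 6) (nat_lit 7))
    (@En.n l3868 (nat_lit 6295) (nat_lit 8) (nat_lit 14))
    (@En.n l12560 (nat_lit 5704) (nat_lit 2) (nat_lit 10))
    (@En.n l24286 (nat_lit 7174) (nat_lit 10) (nat_lit 10))
    (@En.i (nat_lit 5822) (nat_lit 4) (nat_lit 4))
    (@En.n l3868 (nat_lit 12492) (nat_lit 5) (nat_lit 5))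
    (@En.n l24287 (nat_lit 4739) (nat_lit 6) (nat_lit 8))
    (@En.n l24288 (nat_lit 5591) (nat_lit 14) (nat_lit 9))
    (@En.n l24289 (nat_lit 933) (nat_lit 9) (nat_lit 12))
    (@En.n l11 (nat_lit 5706) (nat_lit 9) (nat_lit 2))
    (@En.n l24290 (nat_lit 5723) (nat_lit 11) (nat_lit 11))
    (@En.n l24291 (nat_lit 5851) (nat_lit 12) (nat_lit 14))
    (@En.n l24292 (nat_lit 5780) (nat_lit 13) (nat_lit 6))
    (@En.i (nat_lit 8029) (nat_lit 14) (nat_lit 6))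
    (@En.i (nat_lit 7137) (nat_lit 4) (nat_lit 8))
    (@En.n l3 (nat_lit 5706) (nat_lit 15) (nat_lit 2))))
  (@Cl.mk (nat_lit 0x200070006000c000c0008000700040004000e00090002000a0008000e0009) (nat_lit 0x234000a4076a3) (nat_lit 16) Lb.e (@T16.mk En
    (@En.n l7292 (nat_lit 5700) (nat_lit 12) (nat_lit 9))
    (@En.n l747 (nat_lit 7138) (nat_lit 13) (nat_lit 14))
    (@En.n l10127 (nat_lit 12379) (nat_lit 2) (nat_lit 8))
    (@En.n l3747 (nat_lit 5371) (nat_lit 3) (nat_lit 10))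
    (@En.n l50 (nat_lit 5707) (nat_lit 4) (nat_lit 2))
    (@En.n l10128 (nat_lit 5714) (nat_lit 5) (nat_lit 9))
    (@En.n l10129 (nat_lit 5853) (nat_lit 1) (nat_lit 14))
    (@En.n l1577 (nat_lit 5782) (nat_lit 7) (nat_lit 4))
    (@En.i (nat_lit 7995) (nat_lit 8) (nat_lit 4))
    (@En.n l4973 (nat_lit 5131) (nat_lit 4) (nat_lit 7))
    (@En.n l575 (nat_lit 7962) (nat_lit 11) (nat_lit 8))
    (@En.n l5987 (nat_lit 5702) (nat_lit 12) (nat_lit 12))
    (@En.n l10127 (nat_lit 7185) (nat_lit 8) (nat_lit 12))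
    (@En.i (nat_lit 4131) (nat_lit 14) (nat_lit 6))
    (@En.n l10130 (nat_lit 9290) (nat_lit 10) (nat_lit 7))
    (@En.n l3 (nat_lit 5707) (nat_lit 15) (nat_lit 2))))
  (@Cl.mk (nat_lit 0x20008000c00080007000e0004000200090008000e000800020009000e0007) (nat_lit 0x175090074360380) (nat_lit 16) Lb.e (@T16.mk En
    (@En.n l5562 (nat_lit 5697) (nat_lit 7) (nat_lit 7))
    (@En.n l11324 (nat_lit 10035) (nat_lit 9) (nat_lit 14))
    (@En.n l11325 (nat_lit 5192) (nat_lit 2) (nat_lit 9))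
    (@En.n l3 (nat_lit 5708) (nat_lit 3) (nat_lit 2))
    (@En.n l1612 (nat_lit 5710) (nat_lit 4) (nat_lit 8))
    (@En.n l1118 (nat_lit 10100) (nat_lit 6) (nat_lit 14))
    (@En.n l1128 (nat_lit 3289) (nat_lit 6) (nat_lit 8))
    (@En.i (nat_lit 7528) (nat_lit 3) (nat_lit 9))
    (@En.n l18 (nat_lit 5708) (nat_lit 8) (nat_lit 2))
    (@En.n l11326 (nat_lit 5132) (nat_lit 9) (nat_lit 4))
    (@En.n l1923 (nat_lit 2924) (nat_lit 7) (nat_lit 14))
    (@En.i (nat_lit 5498) (nat_lit 2) (nat_lit 7))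
    (@En.n l1128 (nat_lit 7962) (nat_lit 3) (nat_lit 8))
    (@En.i (nat_lit 8034) (nat_lit 10) (nat_lit 12))
    (@En.n l11327 (nat_lit 4918) (nat_lit 5) (nat_lit 8))
    (@En.n l28 (nat_lit 5708) (nat_lit 15) (nat_lit 2))))
  (@Cl.mk (nat_lit 0x20007000b000b00090009000900050005000a0009000700070007000e0006) (nat_lit 0x285120056000b0) (nat_lit 16) Lb.e (@T16.mk En
    (@En.n l23133 (nat_lit 5303) (nat_lit 7) (nat_lit 6))
    (@En.n l23134 (nat_lit 8961) (nat_lit 1) (nat_lit 14))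
    (@En.n l23135 (nat_lit 5307) (nat_lit 9) (nat_lit 7))
    (@En.n l23136 (nat_lit 5250) (nat_lit 3) (nat_lit 7))
    (@En.n l23137 (nat_lit 5618) (nat_lit 4) (nat_lit 7))
    (@En.i (nat_lit 3299) (nat_lit 5) (nat_lit 9))
    (@En.n l23138 (nat_lit 6301) (nat_lit 7) (nat_lit 10))
    (@En.n l55 (nat_lit 5247) (nat_lit 7) (nat_lit 5))
    (@En.n l23134 (nat_lit 6477) (nat_lit 8) (nat_lit 5))
    (@En.n l742 (nat_lit 5713) (nat_lit 10) (nat_lit 9))
    (@En.n l396 (nat_lit 5132) (nat_lit 11) (nat_lit 9))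
    (@En.n l12756 (nat_lit 6587) (nat_lit 12) (nat_lit 9))
    (@En.n l23139 (nat_lit 5710) (nat_lit 13) (nat_lit 11))
    (@En.n l23140 (nat_lit 8102) (nat_lit 14) (nat_lit 11))
    (@En.n l23141 (nat_lit 4917) (nat_lit 13) (nat_lit 7))
    (@En.n l3 (nat_lit 5709) (nat_lit 15) (nat_lit 2))))
  (@Cl.mk (nat_lit 0x20007000b000800080008000e00050002000a0009000800080008000e0006) (nat_lit 0x7362b006550470) (nat_lit 16) Lb.e (@T16.mk En
    (@En.n l4185 (nat_lit 5701) (nat_lit 8) (nat_lit 6))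
    (@En.n l10041 (nat_lit 9122) (nat_lit 1) (nat_lit 14))
    (@En.n l10042 (nat_lit 5199) (nat_lit 2) (nat_lit 8))
    (@En.i (nat_lit 5712) (nat_lit 3) (nat_lit 8))
    (@En.n l10043 (nat_lit 5954) (nat_lit 13) (nat_lit 8))
    (@En.n l6578 (nat_lit 3297) (nat_lit 5) (nat_lit 9))
    (@En.n l10044 (nat_lit 7521) (nat_lit 7) (nat_lit 10))
    (@En.n l7 (nat_lit 5710) (nat_lit 7) (nat_lit 2))
    (@En.n l10045 (nat_lit 5709) (nat_lit 8) (nat_lit 5))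
    (@En.n l10046 (nat_lit 2926) (nat_lit 10) (nat_lit 14))
    (@En.n l3554 (nat_lit 5711) (nat_lit 11) (nat_lit 8))
    (@En.n l3555 (nat_lit 5708) (nat_lit 12) (nat_lit 8))
    (@En.n l10047 (nat_lit 4908) (nat_lit 13) (nat_lit 8))
    (@En.n l10020 (nat_lit 6469) (nat_lit 14) (nat_lit 11))
    (@En.n l10048 (nat_lit 4943) (nat_lit 6) (nat_lit 7))
    (@En.n l17 (nat_lit 5710) (nat_lit 15) (nat_lit 2))))
  (@Cl.mk (nat_lit 0x20008000c00090008000e00040002000900080007000e00080002000e0007) (nat_lit 0x2821a0005031080) (nat_lit 16) Lb.e (@T16.mk En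
    (@En.n l4140 (nat_lit 5715) (nat_lit 14) (nat_lit 7))
    (@En.n l998 (nat_lit 5509) (nat_lit 1) (nat_lit 14))
    (@En.n l50 (nat_lit 5711) (nat_lit 2) (nat_lit 2))
    (@En.n l1267 (nat_lit 5710) (nat_lit 3) (nat_lit 8))
    (@En.n l476 (nat_lit 5946) (nat_lit 5) (nat_lit 14))
    (@En.n l1769 (nat_lit 5957) (nat_lit 13) (nat_lit 7))
    (@En.n l4141 (nat_lit 4509) (nat_lit 6) (nat_lit 8))
    (@En.n l4142 (nat_lit 6390) (nat_lit 4) (nat_lit 9))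
    (@En.n l11 (nat_lit 5711) (nat_lit 8) (nat_lit 2))
    (@En.n l4143 (nat_lit 5713) (nat_lit 9) (nat_lit 4))
    (@En.i (nat_lit 3286) (nat_lit 11) (nat_lit 14))
    (@En.n l1262 (nat_lit 5499) (nat_lit 2) (nat_lit 8))
    (@En.n l4144 (nat_lit 5042) (nat_lit 3) (nat_lit 9))
    (@En.i (nat_lit 6466) (nat_lit 14) (nat_lit 12))
    (@En.n l4145 (nat_lit 4999) (nat_lit 12) (nat_lit 8))
    (@En.n l17 (nat_lit 5711) (nat_lit 15) (nat_lit 2))))
noncomputable def a357 : T16 Cl := @T16.mk Cl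
  (@Cl.mk (nat_lit 0x20006000a000e000800020009000e00060002000b000a00080007000e0005) (nat_lit 0x62403c007860b0) (nat_lit 16) Lb.e (@T16.mk En
    (@En.n l4189 (nat_lit 5722) (nat_lit 5) (nat_lit 5))
    (@En.n l23056 (nat_lit 9121) (nat_lit 7) (nat_lit 14))
    (@En.i (nat_lit 4785) (nat_lit 2) (nat_lit 7))
    (@En.n l532 (nat_lit 12799) (nat_lit 13) (nat_lit 8))
    (@En.n l7967 (nat_lit 4853) (nat_lit 4) (nat_lit 10))
    (@En.n l1448 (nat_lit 7519) (nat_lit 11) (nat_lit 11))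
    (@En.n l7 (nat_lit 5712) (nat_lit 6) (nat_lit 2))
    (@En.n l1448 (nat_lit 5250) (nat_lit 7) (nat_lit 6))
    (@En.n l23057 (nat_lit 2965) (nat_lit 9) (nat_lit 14))
    (@En.n l476 (nat_lit 5947) (nat_lit 10) (nat_lit 9))
    (@En.n l67 (nat_lit 5712) (nat_lit 10) (nat_lit 2))
    (@En.n l477 (nat_lit 5710) (nat_lit 12) (nat_lit 8))
    (@En.n l23058 (nat_lit 4504) (nat_lit 13) (nat_lit 14))
    (@En.n l1596 (nat_lit 6471) (nat_lit 2) (nat_lit 10))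
    (@En.n l10025 (nat_lit 4947) (nat_lit 3) (nat_lit 6))
    (@En.n l17 (nat_lit 5712) (nat_lit 15) (nat_lit 2))))
  (@Cl.mk (nat_lit 0x20008000c000c000a000900040004000900080006000e00070002000e0007) (nat_lit 0x3594100040800b0) (nat_lit 16) Lb.e (@T16.mk En
    (@En.n l2221 (nat_lit 5714) (nat_lit 14) (nat_lit 7))
    (@En.i (nat_lit 5674) (nat_lit 1) (nat_lit 14))
    (@En.n l17 (nat_lit 5713) (nat_lit 2) (nat_lit 2))
    (@En.n l50 (nat_lit 5709) (nat_lit 3) (nat_lit 7))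
    (@En.n l9760 (nat_lit 5905) (nat_lit 5) (nat_lit 14))
    (@En.n l4021 (nat_lit 12342) (nat_lit 5) (nat_lit 6))
    (@En.i (nat_lit 4512) (nat_lit 6) (nat_lit 8))
    (@En.n l614 (nat_lit 6387) (nat_lit 4) (nat_lit 9))
    (@En.n l55 (nat_lit 5716) (nat_lit 8) (nat_lit 4))
    (@En.i (nat_lit 5717) (nat_lit 9) (nat_lit 4))
    (@En.n l9762 (nat_lit 5131) (nat_lit 11) (nat_lit 9))
    (@En.n l134 (nat_lit 6906) (nat_lit 12) (nat_lit 10))
    (@En.n l11311 (nat_lit 5711) (nat_lit 13) (nat_lit 12))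
    (@En.n l11312 (nat_lit 7722) (nat_lit 14) (nat_lit 12))
    (@En.n l107 (nat_lit 4997) (nat_lit 12) (nat_lit 8))
    (@En.n l3 (nat_lit 5713) (nat_lit 15) (nat_lit 2))))
  (@Cl.mk (nat_lit 0x2000700070007000c000c00090008000400040009000900090007000e0008) (nat_lit 0x482100315096) (nat_lit 16) Lb.e (@T16.mk En
    (@En.n l23168 (nat_lit 5303) (nat_lit 9) (nat_lit 8))
    (@En.n l134 (nat_lit 5019) (nat_lit 1) (nat_lit 14))
    (@En.i (nat_lit 11517) (nat_lit 2) (nat_lit 7))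
    (@En.n l61 (nat_lit 5793) (nat_lit 3) (nat_lit 9))
    (@En.n l23169 (nat_lit 5713) (nat_lit 7) (nat_lit 9))
    (@En.n l17953 (nat_lit 6015) (nat_lit 5) (nat_lit 9))
    (@En.n l15355 (nat_lit 5792) (nat_lit 6) (nat_lit 4))
    (@En.n l23170 (nat_lit 5719) (nat_lit 7) (nat_lit 4))
    (@En.n l55 (nat_lit 49) (nat_lit 0) (nat_lit 8))
    (@En.n l11383 (nat_lit 6440) (nat_lit 10) (nat_lit 9))
    (@En.n l23171 (nat_lit 5715) (nat_lit 11) (nat_lit 12))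
    (@En.n l9155 (nat_lit 7187) (nat_lit 12) (nat_lit 12))
    (@En.n l17954 (nat_lit 5731) (nat_lit 13) (nat_lit 7))
    (@En.n l23172 (nat_lit 5707) (nat_lit 14) (nat_lit 7))
    (@En.n l23173 (nat_lit 12722) (nat_lit 6) (nat_lit 7))
    (@En.n l7 (nat_lit 5714) (nat_lit 15) (nat_lit 2))))
  (@Cl.mk (nat_lit 0x2000700070007000c00080007000e000400020009000900090008000e0009) (nat_lit 0x710a003156a6) (nat_lit 16) Lb.e (@T16.mk En
    (@En.n l10944 (nat_lit 5701) (nat_lit 10) (nat_lit 9))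
    (@En.n l831 (nat_lit 5018) (nat_lit 11) (nat_lit 14))
    (@En.n l10945 (nat_lit 11514) (nat_lit 2) (nat_lit 8))
    (@En.n l10946 (nat_lit 5806) (nat_lit 3) (nat_lit 9))
    (@En.n l10947 (nat_lit 5711) (nat_lit 7) (nat_lit 9))
    (@En.n l10948 (nat_lit 5859) (nat_lit 5) (nat_lit 9))
    (@En.n l7 (nat_lit 5715) (nat_lit 6) (nat_lit 2))
    (@En.n l10949 (nat_lit 5714) (nat_lit 7) (nat_lit 4))
    (@En.n l10950 (nat_lit 3099) (nat_lit 9) (nat_lit 14))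
    (@En.i (nat_lit 3631) (nat_lit 2) (nat_lit 7))
    (@En.n l10951 (nat_lit 19) (nat_lit 3) (nat_lit 8))
    (@En.n l6140 (nat_lit 5297) (nat_lit 12) (nat_lit 12))
    (@En.n l61 (nat_lit 5735) (nat_lit 13) (nat_lit 7))
    (@En.n l10952 (nat_lit 5702) (nat_lit 14) (nat_lit 7))
    (@En.n l3476 (nat_lit 12723) (nat_lit 7) (nat_lit 7))
    (@En.n l67 (nat_lit 5715) (nat_lit 15) (nat_lit 2))))
  (@Cl.mk (nat_lit 0x20008000e000c0002000b000a0004000900080005000e00060002000e0007) (nat_lit 0x326063003080090) (nat_lit 16) Lb.e (@T16.mk En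
    (@En.i (nat_lit 5792) (nat_lit 14) (nat_lit 7))
    (@En.i (nat_lit 5670) (nat_lit 1) (nat_lit 14))
    (@En.n l17 (nat_lit 5716) (nat_lit 2) (nat_lit 2))
    (@En.n l50 (nat_lit 5247) (nat_lit 3) (nat_lit 6))
    (@En.n l5 (nat_lit 5904) (nat_lit 9) (nat_lit 14))
    (@En.n l4021 (nat_lit 5622) (nat_lit 9) (nat_lit 5))
    (@En.i (nat_lit 5863) (nat_lit 6) (nat_lit 8))
    (@En.n l117 (nat_lit 6423) (nat_lit 12) (nat_lit 9))
    (@En.i (nat_lit 5718) (nat_lit 8) (nat_lit 4))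
    (@En.n l217 (nat_lit 5129) (nat_lit 10) (nat_lit 10))
    (@En.i (nat_lit 6498) (nat_lit 11) (nat_lit 11))
    (@En.n l28 (nat_lit 5716) (nat_lit 11) (nat_lit 2))
    (@En.i (nat_lit 5713) (nat_lit 13) (nat_lit 12))
    (@En.n l1578 (nat_lit 4893) (nat_lit 1) (nat_lit 14))
    (@En.n l107 (nat_lit 4981) (nat_lit 12) (nat_lit 8))
    (@En.n l3 (nat_lit 5716) (nat_lit 15) (nat_lit 2))))
  (@Cl.mk (nat_lit 0x20008000c0007000d000b00040003000900080005000e00090002000e0007) (nat_lit 0x1803300010320c0) (nat_lit 16) Lb.e (@T16.mk En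
    (@En.n l10527 (nat_lit 5719) (nat_lit 14) (nat_lit 7))
    (@En.n l10528 (nat_lit 11907) (nat_lit 1) (nat_lit 14))
    (@En.n l17 (nat_lit 5717) (nat_lit 2) (nat_lit 2))
    (@En.n l10529 (nat_lit 5720) (nat_lit 3) (nat_lit 9))
    (@En.n l9760 (nat_lit 5907) (nat_lit 5) (nat_lit 14))
    (@En.n l10530 (nat_lit 11062) (nat_lit 5) (nat_lit 5))
    (@En.i (nat_lit 4515) (nat_lit 6) (nat_lit 8))
    (@En.n l10531 (nat_lit 10003) (nat_lit 4) (nat_lit 9))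
    (@En.n l10532 (nat_lit 5721) (nat_lit 8) (nat_lit 3))
    (@En.n l10533 (nat_lit 5711) (nat_lit 9) (nat_lit 4))
    (@En.n l828 (nat_lit 6905) (nat_lit 11) (nat_lit 11))
    (@En.n l10534 (nat_lit 3275) (nat_lit 12) (nat_lit 13))
    (@En.n l6981 (nat_lit 7728) (nat_lit 13) (nat_lit 7))
    (@En.n l10531 (nat_lit 12518) (nat_lit 14) (nat_lit 12))
    (@En.n l10535 (nat_lit 5003) (nat_lit 12) (nat_lit 8))
    (@En.n l3 (nat_lit 5717) (nat_lit 15) (nat_lit 2))))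
  (@Cl.mk (nat_lit 0x20008000d000c00080003000c0004000900080004000e00080002000e0007) (nat_lit 0x59005000082000) (nat_lit 16) Lb.e (@T16.mk En
    (@En.n l10055 (nat_lit 5796) (nat_lit 14) (nat_lit 7))
    (@En.i (nat_lit 11903) (nat_lit 1) (nat_lit 14))
    (@En.n l17 (nat_lit 5718) (nat_lit 2) (nat_lit 2))
    (@En.i (nat_lit 6604) (nat_lit 3) (nat_lit 8))
    (@En.n l5 (nat_lit 5906) (nat_lit 1) (nat_lit 14))
    (@En.n l28623 (nat_lit 11540) (nat_lit 5) (nat_lit 4))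
    (@En.i (nat_lit 5862) (nat_lit 6) (nat_lit 8))
    (@En.n l117 (nat_lit 11462) (nat_lit 4) (nat_lit 9))
    (@En.n l3506 (nat_lit 5713) (nat_lit 8) (nat_lit 4))
    (@En.i (nat_lit 6500) (nat_lit 10) (nat_lit 12))
    (@En.n l32204 (nat_lit 5721) (nat_lit 10) (nat_lit 3))
    (@En.i (nat_lit 8038) (nat_lit 12) (nat_lit 8))
    (@En.i (nat_lit 5717) (nat_lit 13) (nat_lit 12))
    (@En.n l1578 (nat_lit 12564) (nat_lit 14) (nat_lit 13))
    (@En.n l107 (nat_lit 6721) (nat_lit 12) (nat_lit 8))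
    (@En.n l3 (nat_lit 5718) (nat_lit 15) (nat_lit 2))))
  (@Cl.mk (nat_lit 0x2000700070007000c0006000d000a000400030009000900090006000e000a) (nat_lit 0x509300412062) (nat_lit 16) Lb.e (@T16.mk En
    (@En.n l23934 (nat_lit 5607) (nat_lit 10) (nat_lit 10))
    (@En.n l6444 (nat_lit 5911) (nat_lit 1) (nat_lit 14))
    (@En.n l23935 (nat_lit 11556) (nat_lit 2) (nat_lit 6))
    (@En.n l23290 (nat_lit 5798) (nat_lit 3) (nat_lit 9))
    (@En.n l23936 (nat_lit 5717) (nat_lit 7) (nat_lit 9))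
    (@En.n l23937 (nat_lit 5860) (nat_lit 5) (nat_lit 9))
    (@En.n l28 (nat_lit 5799) (nat_lit 6) (nat_lit 3))
    (@En.n l4315 (nat_lit 5715) (nat_lit 7) (nat_lit 4))
    (@En.i (nat_lit 6442) (nat_lit 9) (nat_lit 10))
    (@En.n l23291 (nat_lit 3091) (nat_lit 10) (nat_lit 13))
    (@En.n l23938 (nat_lit 63) (nat_lit 3) (nat_lit 6))
    (@En.n l6839 (nat_lit 12515) (nat_lit 12) (nat_lit 12))
    (@En.n l3108 (nat_lit 6980) (nat_lit 9) (nat_lit 7))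
    (@En.n l644 (nat_lit 7995) (nat_lit 14) (nat_lit 7))
    (@En.n l22304 (nat_lit 5861) (nat_lit 7) (nat_lit 7))
    (@En.n l3 (nat_lit 5719) (nat_lit 15) (nat_lit 2))))
  (@Cl.mk (nat_lit 0x20007000b00070007000d000b00050003000a0009000500090009000e0006) (nat_lit 0x500a4007101480) (nat_lit 16) Lb.e (@T16.mk En
    (@En.n l2843 (nat_lit 5607) (nat_lit 8) (nat_lit 6))
    (@En.n l3548 (nat_lit 11891) (nat_lit 1) (nat_lit 14))
    (@En.n l575 (nat_lit 8060) (nat_lit 2) (nat_lit 9))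
    (@En.i (nat_lit 4426) (nat_lit 3) (nat_lit 9))
    (@En.n l23174 (nat_lit 11553) (nat_lit 4) (nat_lit 5))
    (@En.n l16705 (nat_lit 2961) (nat_lit 5) (nat_lit 9))
    (@En.n l6650 (nat_lit 10004) (nat_lit 7) (nat_lit 10))
    (@En.n l23175 (nat_lit 6590) (nat_lit 7) (nat_lit 3))
    (@En.n l3549 (nat_lit 5710) (nat_lit 8) (nat_lit 5))
    (@En.n l23176 (nat_lit 6447) (nat_lit 10) (nat_lit 11))
    (@En.n l23177 (nat_lit 3165) (nat_lit 11) (nat_lit 13))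
    (@En.n l23178 (nat_lit 5717) (nat_lit 12) (nat_lit 7))
    (@En.n l16705 (nat_lit 5163) (nat_lit 13) (nat_lit 7))
    (@En.n l11247 (nat_lit 8055) (nat_lit 14) (nat_lit 11))
    (@En.n l2947 (nat_lit 6593) (nat_lit 6) (nat_lit 7))
    (@En.n l17 (nat_lit 5720) (nat_lit 15) (nat_lit 2))))
  (@Cl.mk (nat_lit 0x20008000d0007000d0003000c0003000900080004000e00090002000e0007) (nat_lit 0x60305001062000) (nat_lit 16) Lb.e (@T16.mk En
    (@En.n l644 (nat_lit 5799) (nat_lit 14) (nat_lit 7))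
    (@En.n l23967 (nat_lit 11905) (nat_lit 1) (nat_lit 14))
    (@En.n l3 (nat_lit 5721) (nat_lit 2) (nat_lit 2))
    (@En.n l23968 (nat_lit 6590) (nat_lit 3) (nat_lit 9))
    (@En.n l6444 (nat_lit 5908) (nat_lit 1) (nat_lit 14))
    (@En.n l23969 (nat_lit 11541) (nat_lit 5) (nat_lit 4))
    (@En.n l23970 (nat_lit 5401) (nat_lit 6) (nat_lit 8))
    (@En.n l23971 (nat_lit 11463) (nat_lit 4) (nat_lit 9))
    (@En.n l23936 (nat_lit 5717) (nat_lit 8) (nat_lit 3))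
    (@En.n l16058 (nat_lit 5734) (nat_lit 0) (nat_lit 12))
    (@En.n l19398 (nat_lit 5718) (nat_lit 10) (nat_lit 3))
    (@En.n l23972 (nat_lit 3287) (nat_lit 12) (nat_lit 13))
    (@En.n l23973 (nat_lit 7729) (nat_lit 13) (nat_lit 7))
    (@En.n l23974 (nat_lit 12525) (nat_lit 14) (nat_lit 13))
    (@En.n l23975 (nat_lit 6596) (nat_lit 12) (nat_lit 8))
    (@En.n l50 (nat_lit 5721) (nat_lit 15) (nat_lit 2))))
  (@Cl.mk (nat_lit 0x20008000e00060002000b000b000b00090008000500050005000a000e0007) (nat_lit 0x390078944000540) (nat_lit 16) Lb.e (@T16.mk En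
    (@En.i (nat_lit 5701) (nat_lit 4) (nat_lit 7))
    (@En.i (nat_lit 1953) (nat_lit 6) (nat_lit 14))
    (@En.n l11365 (nat_lit 5175) (nat_lit 2) (nat_lit 10))
    (@En.n l11 (nat_lit 5725) (nat_lit 3) (nat_lit 5))
    (@En.n l4976 (nat_lit 5704) (nat_lit 4) (nat_lit 5))
    (@En.n l4112 (nat_lit 10098) (nat_lit 9) (nat_lit 5))
    (@En.n l11241 (nat_lit 4786) (nat_lit 6) (nat_lit 8))
    (@En.i (nat_lit 12802) (nat_lit 12) (nat_lit 9))
    (@En.n l4314 (nat_lit 5750) (nat_lit 9) (nat_lit 11))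
    (@En.n l21183 (nat_lit 5712) (nat_lit 5) (nat_lit 11))
    (@En.n l17334 (nat_lit 5150) (nat_lit 11) (nat_lit 11))
    (@En.n l17 (nat_lit 5722) (nat_lit 11) (nat_lit 2))
    (@En.n l21184 (nat_lit 5723) (nat_lit 13) (nat_lit 6))
    (@En.n l21185 (nat_lit 2968) (nat_lit 1) (nat_lit 14))
    (@En.i (nat_lit 5016) (nat_lit 2) (nat_lit 8))
    (@En.n l7 (nat_lit 5722) (nat_lit 15) (nat_lit 2))))
  (@Cl.mk (nat_lit 0x2000900060006000b000b000b00080007000500050005000a000a000e0008) (nat_lit 0x300676400003623) (nat_lit 16) Lb.e (@T16.mk En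
    (@En.n l22945 (nat_lit 5303) (nat_lit 2) (nat_lit 8))
    (@En.n l20778 (nat_lit 6287) (nat_lit 1) (nat_lit 14))
    (@En.n l18264 (nat_lit 5722) (nat_lit 2) (nat_lit 10))
    (@En.n l5801 (nat_lit 7707) (nat_lit 3) (nat_lit 10))
    (@En.n l11407 (nat_lit 5724) (nat_lit 4) (nat_lit 5))
    (@En.n l31274 (nat_lit 5706) (nat_lit 5) (nat_lit 5))
    (@En.n l20778 (nat_lit 10125) (nat_lit 6) (nat_lit 5))
    (@En.i (nat_lit 4735) (nat_lit 7) (nat_lit 7))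
    (@En.n l6067 (nat_lit 5593) (nat_lit 9) (nat_lit 8))
    (@En.n l742 (nat_lit 4848) (nat_lit 10) (nat_lit 11))
    (@En.n l11408 (nat_lit 5250) (nat_lit 5) (nat_lit 11))
    (@En.n l5801 (nat_lit 5155) (nat_lit 12) (nat_lit 11))
    (@En.n l152 (nat_lit 5248) (nat_lit 13) (nat_lit 6))
    (@En.n l31275 (nat_lit 8025) (nat_lit 14) (nat_lit 6))
    (@En.n l31276 (nat_lit 5015) (nat_lit 0) (nat_lit 9))
    (@En.n l11 (nat_lit 5723) (nat_lit 15) (nat_lit 2))))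
  (@Cl.mk (nat_lit 0x2000800060006000a000e000b00020009000800060005000a000a000e0007) (nat_lit 0x100678003003590) (nat_lit 16) Lb.e (@T16.mk En
    (@En.n l28976 (nat_lit 5726) (nat_lit 7) (nat_lit 7))
    (@En.n l28977 (nat_lit 4443) (nat_lit 9) (nat_lit 14))
    (@En.n l6658 (nat_lit 5725) (nat_lit 2) (nat_lit 10))
    (@En.n l10159 (nat_lit 6871) (nat_lit 3) (nat_lit 10))
    (@En.n l15754 (nat_lit 4139) (nat_lit 4) (nat_lit 5))
    (@En.n l28977 (nat_lit 12284) (nat_lit 13) (nat_lit 6))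
    (@En.i (nat_lit 4733) (nat_lit 6) (nat_lit 8))
    (@En.n l28978 (nat_lit 10906) (nat_lit 8) (nat_lit 9))
    (@En.n l3 (nat_lit 5724) (nat_lit 8) (nat_lit 2))
    (@En.n l15182 (nat_lit 5723) (nat_lit 10) (nat_lit 11))
    (@En.n l28979 (nat_lit 4974) (nat_lit 11) (nat_lit 14))
    (@En.i (nat_lit 7964) (nat_lit 2) (nat_lit 10))
    (@En.n l1722 (nat_lit 5728) (nat_lit 3) (nat_lit 6))
    (@En.n l245 (nat_lit 8160) (nat_lit 14) (nat_lit 6))
    (@En.n l28980 (nat_lit 5012) (nat_lit 5) (nat_lit 8))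
    (@En.n l7 (nat_lit 5724) (nat_lit 15) (nat_lit 2))))
  (@Cl.mk (nat_lit 0x20007000e00060002000a000e000b0002000a000900060005000a000e0006) (nat_lit 0xb0072905400460) (nat_lit 16) Lb.e (@T16.mk En
    (@En.n l20066 (nat_lit 5727) (nat_lit 4) (nat_lit 6))
    (@En.i (nat_lit 4091) (nat_lit 6) (nat_lit 14))
    (@En.n l645 (nat_lit 6873) (nat_lit 2) (nat_lit 10))
    (@En.i (nat_lit 5821) (nat_lit 3) (nat_lit 5))
    (@En.n l17576 (nat_lit 12280) (nat_lit 8) (nat_lit 6))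
    (@En.n l3016 (nat_lit 4699) (nat_lit 5) (nat_lit 9))
    (@En.n l11695 (nat_lit 10905) (nat_lit 11) (nat_lit 10))
    (@En.n l67 (nat_lit 5725) (nat_lit 7) (nat_lit 2))
    (@En.n l68 (nat_lit 5722) (nat_lit 9) (nat_lit 11))
    (@En.n l3501 (nat_lit 4979) (nat_lit 10) (nat_lit 14))
    (@En.n l28495 (nat_lit 6505) (nat_lit 11) (nat_lit 10))
    (@En.n l17 (nat_lit 5725) (nat_lit 11) (nat_lit 2))
    (@En.n l28495 (nat_lit 5724) (nat_lit 13) (nat_lit 6))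
    (@En.n l1362 (nat_lit 2977) (nat_lit 6) (nat_lit 14))
    (@En.n l28505 (nat_lit 5010) (nat_lit 6) (nat_lit 7))
    (@En.n l7 (nat_lit 5725) (nat_lit 15) (nat_lit 2))))
  (@Cl.mk (nat_lit 0x200090009000900070006000b000b000700070007000500050009000e000a) (nat_lit 0x613002600000567) (nat_lit 16) Lb.e (@T16.mk En
    (@En.i (nat_lit 5303) (nat_lit 12) (nat_lit 10))
    (@En.n l5 (nat_lit 4978) (nat_lit 1) (nat_lit 14))
    (@En.n l30905 (nat_lit 6497) (nat_lit 2) (nat_lit 9))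
    (@En.n l11164 (nat_lit 5729) (nat_lit 11) (nat_lit 5))
    (@En.n l218 (nat_lit 5298) (nat_lit 4) (nat_lit 5))
    (@En.n l11 (nat_lit 5731) (nat_lit 9) (nat_lit 7))
    (@En.n l4976 (nat_lit 5733) (nat_lit 9) (nat_lit 7))
    (@En.n l1393 (nat_lit 6543) (nat_lit 7) (nat_lit 7))
    (@En.n l77 (nat_lit 5727) (nat_lit 5) (nat_lit 11))
    (@En.i (nat_lit 6875) (nat_lit 10) (nat_lit 11))
    (@En.n l16078 (nat_lit 4133) (nat_lit 10) (nat_lit 6))
    (@En.n l30906 (nat_lit 12279) (nat_lit 12) (nat_lit 7))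
    (@En.n l21442 (nat_lit 4760) (nat_lit 7) (nat_lit 9))
    (@En.n l23622 (nat_lit 5724) (nat_lit 7) (nat_lit 9))
    (@En.i (nat_lit 9330) (nat_lit 3) (nat_lit 9))
    (@En.n l17 (nat_lit 5726) (nat_lit 15) (nat_lit 2))))
  (@Cl.mk (nat_lit 0x20009000e000a0002000a000a000a00070006000b000600060006000e0005) (nat_lit 0x5780462005000a0) (nat_lit 16) Lb.e (@T16.mk En
    (@En.i (nat_lit 5726) (nat_lit 4) (nat_lit 5))
    (@En.n l134 (nat_lit 2038) (nat_lit 1) (nat_lit 14))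
    (@En.n l11 (nat_lit 5735) (nat_lit 10) (nat_lit 6))
    (@En.n l152 (nat_lit 6464) (nat_lit 3) (nat_lit 6))
    (@En.n l24754 (nat_lit 3170) (nat_lit 4) (nat_lit 6))
    (@En.i (nat_lit 6876) (nat_lit 10) (nat_lit 11))
    (@En.n l217 (nat_lit 5825) (nat_lit 6) (nat_lit 6))
    (@En.n l532 (nat_lit 12277) (nat_lit 7) (nat_lit 7))
    (@En.n l21442 (nat_lit 5834) (nat_lit 9) (nat_lit 10))
    (@En.n l23590 (nat_lit 5725) (nat_lit 6) (nat_lit 10))
    (@En.i (nat_lit 11509) (nat_lit 11) (nat_lit 10))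
    (@En.n l17 (nat_lit 5727) (nat_lit 11) (nat_lit 2))
    (@En.n l27965 (nat_lit 5701) (nat_lit 13) (nat_lit 10))
    (@En.n l5 (nat_lit 4945) (nat_lit 1) (nat_lit 14))
    (@En.n l4172 (nat_lit 6496) (nat_lit 2) (nat_lit 9))
    (@En.n l7 (nat_lit 5727) (nat_lit 15) (nat_lit 2))))
noncomputable def a358 : T16 Cl := @T16.mk Cl
  (@Cl.mk (nat_lit 0x20008000700060005000e000a0002000e0008000200090006000a000e000b) (nat_lit 0x340a4050379) (nat_lit 16) Lb.e (@T16.mk En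
    (@En.n l2213 (nat_lit 5248) (nat_lit 11) (nat_lit 11))
    (@En.i (nat_lit 4975) (nat_lit 12) (nat_lit 14))
    (@En.i (nat_lit 2034) (nat_lit 2) (nat_lit 10))
    (@En.n l1353 (nat_lit 8158) (nat_lit 14) (nat_lit 6))
    (@En.n l18 (nat_lit 5373) (nat_lit 12) (nat_lit 9))
    (@En.n l50 (nat_lit 5728) (nat_lit 5) (nat_lit 2))
    (@En.i (nat_lit 5729) (nat_lit 14) (nat_lit 8))
    (@En.i (nat_lit 7683) (nat_lit 1) (nat_lit 14))
    (@En.n l28 (nat_lit 5728) (nat_lit 8) (nat_lit 2))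
    (@En.n l287 (nat_lit 5724) (nat_lit 3) (nat_lit 10))
    (@En.i (nat_lit 1861) (nat_lit 11) (nat_lit 14))
    (@En.n l2221 (nat_lit 5814) (nat_lit 5) (nat_lit 5))
    (@En.n l2345 (nat_lit 12287) (nat_lit 13) (nat_lit 6))
    (@En.i (nat_lit 4729) (nat_lit 14) (nat_lit 7))
    (@En.n l6396 (nat_lit 10908) (nat_lit 5) (nat_lit 8))
    (@En.n l3 (nat_lit 5728) (nat_lit 15) (nat_lit 2))))
  (@Cl.mk (nat_lit 0x200080008000800050009000e000a000200080008000800070006000e000b) (nat_lit 0x364047305140023) (nat_lit 16) Lb.e (@T16.mk En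
    (@En.n l16055 (nat_lit 5726) (nat_lit 9) (nat_lit 11))
    (@En.n l12846 (nat_lit 1858) (nat_lit 10) (nat_lit 14))
    (@En.n l2221 (nat_lit 4134) (nat_lit 2) (nat_lit 6))
    (@En.n l2345 (nat_lit 12286) (nat_lit 3) (nat_lit 7))
    (@En.n l564 (nat_lit 4765) (nat_lit 8) (nat_lit 8))
    (@En.n l644 (nat_lit 5728) (nat_lit 14) (nat_lit 8))
    (@En.n l16056 (nat_lit 9324) (nat_lit 6) (nat_lit 8))
    (@En.n l3 (nat_lit 5729) (nat_lit 7) (nat_lit 2))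
    (@En.n l2213 (nat_lit 5730) (nat_lit 9) (nat_lit 10))
    (@En.n l9611 (nat_lit 4991) (nat_lit 10) (nat_lit 14))
    (@En.n l2348 (nat_lit 1894) (nat_lit 2) (nat_lit 9))
    (@En.n l1353 (nat_lit 5299) (nat_lit 3) (nat_lit 5))
    (@En.n l16057 (nat_lit 5732) (nat_lit 4) (nat_lit 8))
    (@En.n l16058 (nat_lit 5734) (nat_lit 14) (nat_lit 8))
    (@En.n l16059 (nat_lit 6951) (nat_lit 6) (nat_lit 8))
    (@En.n l28 (nat_lit 5729) (nat_lit 15) (nat_lit 2))))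
  (@Cl.mk (nat_lit 0x20009000900090005000a000a000a000700070007000600060006000e000b) (nat_lit 0x574042500000024) (nat_lit 16) Lb.e (@T16.mk En
    (@En.n l22945 (nat_lit 5303) (nat_lit 4) (nat_lit 11))
    (@En.n l22946 (nat_lit 3169) (nat_lit 1) (nat_lit 14))
    (@En.n l1778 (nat_lit 5729) (nat_lit 2) (nat_lit 6))
    (@En.n l2172 (nat_lit 5779) (nat_lit 3) (nat_lit 6))
    (@En.n l8806 (nat_lit 10126) (nat_lit 4) (nat_lit 6))
    (@En.n l1578 (nat_lit 5302) (nat_lit 9) (nat_lit 7))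
    (@En.n l575 (nat_lit 5248) (nat_lit 9) (nat_lit 7))
    (@En.n l22947 (nat_lit 5621) (nat_lit 7) (nat_lit 7))
    (@En.n l742 (nat_lit 5739) (nat_lit 9) (nat_lit 10))
    (@En.n l15907 (nat_lit 5247) (nat_lit 6) (nat_lit 10))
    (@En.n l22946 (nat_lit 2978) (nat_lit 11) (nat_lit 10))
    (@En.n l810 (nat_lit 6474) (nat_lit 12) (nat_lit 5))
    (@En.n l22948 (nat_lit 5792) (nat_lit 7) (nat_lit 9))
    (@En.n l22949 (nat_lit 5736) (nat_lit 7) (nat_lit 9))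
    (@En.n l15909 (nat_lit 5160) (nat_lit 2) (nat_lit 9))
    (@En.n l3 (nat_lit 5730) (nat_lit 15) (nat_lit 2))))
  (@Cl.mk (nat_lit 0x200080007000c000c00080007000400040008000e000900020008000e0009) (nat_lit 0x4027200032206a2) (nat_lit 16) Lb.e (@T16.mk En
    (@En.n l68 (nat_lit 5726) (nat_lit 13) (nat_lit 9))
    (@En.n l831 (nat_lit 5013) (nat_lit 1) (nat_lit 14))
    (@En.i (nat_lit 9891) (nat_lit 2) (nat_lit 8))
    (@En.n l17 (nat_lit 5731) (nat_lit 3) (nat_lit 2))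
    (@En.n l10949 (nat_lit 5714) (nat_lit 4) (nat_lit 9))
    (@En.n l5 (nat_lit 4996) (nat_lit 6) (nat_lit 14))
    (@En.n l24732 (nat_lit 6494) (nat_lit 2) (nat_lit 8))
    (@En.n l4047 (nat_lit 5732) (nat_lit 3) (nat_lit 4))
    (@En.n l28 (nat_lit 6980) (nat_lit 4) (nat_lit 4))
    (@En.i (nat_lit 5447) (nat_lit 5) (nat_lit 7))
    (@En.n l2438 (nat_lit 6908) (nat_lit 6) (nat_lit 8))
    (@En.n l77 (nat_lit 5735) (nat_lit 12) (nat_lit 12))
    (@En.i (nat_lit 7005) (nat_lit 13) (nat_lit 12))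
    (@En.n l10970 (nat_lit 4130) (nat_lit 14) (nat_lit 7))
    (@En.n l476 (nat_lit 12283) (nat_lit 11) (nat_lit 8))
    (@En.n l67 (nat_lit 5731) (nat_lit 15) (nat_lit 2))))
  (@Cl.mk (nat_lit 0x20007000e0008000200080007000e000c00020009000800040008000e0009) (nat_lit 0xa2060330530262) (nat_lit 16) Lb.e (@T16.mk En
    (@En.n l97 (nat_lit 5792) (nat_lit 4) (nat_lit 9))
    (@En.n l11170 (nat_lit 4990) (nat_lit 6) (nat_lit 14))
    (@En.i (nat_lit 2924) (nat_lit 2) (nat_lit 8))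
    (@En.n l11171 (nat_lit 5805) (nat_lit 3) (nat_lit 4))
    (@En.n l11172 (nat_lit 5446) (nat_lit 14) (nat_lit 8))
    (@En.n l11173 (nat_lit 6501) (nat_lit 5) (nat_lit 9))
    (@En.n l28 (nat_lit 5732) (nat_lit 6) (nat_lit 2))
    (@En.n l11174 (nat_lit 5731) (nat_lit 12) (nat_lit 12))
    (@En.n l7368 (nat_lit 1815) (nat_lit 9) (nat_lit 14))
    (@En.n l11171 (nat_lit 4127) (nat_lit 14) (nat_lit 7))
    (@En.n l11175 (nat_lit 9227) (nat_lit 11) (nat_lit 8))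
    (@En.n l17 (nat_lit 5732) (nat_lit 11) (nat_lit 2))
    (@En.n l11176 (nat_lit 5729) (nat_lit 5) (nat_lit 8))
    (@En.n l11177 (nat_lit 5374) (nat_lit 7) (nat_lit 14))
    (@En.n l11178 (nat_lit 12843) (nat_lit 2) (nat_lit 7))
    (@En.n l3 (nat_lit 5732) (nat_lit 15) (nat_lit 2))))
  (@Cl.mk (nat_lit 0x2000a00080007000c000c00070006000400040008000e00090002000e0009) (nat_lit 0x5403600004220a7) (nat_lit 16) Lb.e (@T16.mk En
    (@En.n l575 (nat_lit 5726) (nat_lit 14) (nat_lit 9))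
    (@En.i (nat_lit 12624) (nat_lit 1) (nat_lit 14))
    (@En.n l17 (nat_lit 5733) (nat_lit 2) (nat_lit 2))
    (@En.n l2805 (nat_lit 5699) (nat_lit 3) (nat_lit 9))
    (@En.n l998 (nat_lit 4915) (nat_lit 5) (nat_lit 14))
    (@En.n l11512 (nat_lit 6500) (nat_lit 5) (nat_lit 8))
    (@En.n l16040 (nat_lit 5734) (nat_lit 12) (nat_lit 4))
    (@En.n l1577 (nat_lit 6465) (nat_lit 7) (nat_lit 4))
    (@En.i (nat_lit 5445) (nat_lit 8) (nat_lit 6))
    (@En.n l4973 (nat_lit 6536) (nat_lit 6) (nat_lit 7))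
    (@En.n l457 (nat_lit 6464) (nat_lit 4) (nat_lit 12))
    (@En.i (nat_lit 7920) (nat_lit 12) (nat_lit 12))
    (@En.n l2579 (nat_lit 4664) (nat_lit 13) (nat_lit 7))
    (@En.n l3339 (nat_lit 11642) (nat_lit 14) (nat_lit 8))
    (@En.n l107 (nat_lit 4762) (nat_lit 12) (nat_lit 10))
    (@En.n l3 (nat_lit 5733) (nat_lit 15) (nat_lit 2))))
  (@Cl.mk (nat_lit 0x20008000700040008000e00090002000e00080002000900080007000e000c) (nat_lit 0x5003620a6066024) (nat_lit 16) Lb.e (@T16.mk En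
    (@En.n l6465 (nat_lit 5733) (nat_lit 11) (nat_lit 12))
    (@En.n l5708 (nat_lit 1971) (nat_lit 12) (nat_lit 14))
    (@En.n l6466 (nat_lit 4661) (nat_lit 2) (nat_lit 7))
    (@En.i (nat_lit 11635) (nat_lit 3) (nat_lit 8))
    (@En.n l6467 (nat_lit 4764) (nat_lit 12) (nat_lit 9))
    (@En.n l11 (nat_lit 5734) (nat_lit 5) (nat_lit 2))
    (@En.n l6468 (nat_lit 5729) (nat_lit 6) (nat_lit 8))
    (@En.n l6469 (nat_lit 11753) (nat_lit 1) (nat_lit 14))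
    (@En.n l3 (nat_lit 5734) (nat_lit 8) (nat_lit 2))
    (@En.n l6470 (nat_lit 5736) (nat_lit 3) (nat_lit 9))
    (@En.n l6471 (nat_lit 4914) (nat_lit 11) (nat_lit 14))
    (@En.n l6467 (nat_lit 1892) (nat_lit 5) (nat_lit 8))
    (@En.n l6472 (nat_lit 6467) (nat_lit 6) (nat_lit 4))
    (@En.n l6473 (nat_lit 5451) (nat_lit 14) (nat_lit 7))
    (@En.n l6474 (nat_lit 7433) (nat_lit 5) (nat_lit 8))
    (@En.n l50 (nat_lit 5734) (nat_lit 15) (nat_lit 2))))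
  (@Cl.mk (nat_lit 0x200080007000c00070006000e000400020008000e000900020009000e000a) (nat_lit 0x40600a004320557) (nat_lit 16) Lb.e (@T16.mk En
    (@En.n l68 (nat_lit 5727) (nat_lit 9) (nat_lit 10))
    (@En.n l831 (nat_lit 5014) (nat_lit 10) (nat_lit 14))
    (@En.i (nat_lit 11507) (nat_lit 2) (nat_lit 9))
    (@En.n l17 (nat_lit 5735) (nat_lit 3) (nat_lit 2))
    (@En.i (nat_lit 5715) (nat_lit 4) (nat_lit 9))
    (@En.n l5 (nat_lit 4998) (nat_lit 6) (nat_lit 14))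
    (@En.n l4172 (nat_lit 6492) (nat_lit 6) (nat_lit 8))
    (@En.n l7 (nat_lit 5735) (nat_lit 7) (nat_lit 2))
    (@En.i (nat_lit 5731) (nat_lit 8) (nat_lit 4))
    (@En.n l645 (nat_lit 3976) (nat_lit 10) (nat_lit 14))
    (@En.i (nat_lit 5443) (nat_lit 2) (nat_lit 6))
    (@En.i (nat_lit 3168) (nat_lit 3) (nat_lit 7))
    (@En.i (nat_lit 7001) (nat_lit 13) (nat_lit 12))
    (@En.n l217 (nat_lit 5829) (nat_lit 14) (nat_lit 7))
    (@En.n l197 (nat_lit 12282) (nat_lit 6) (nat_lit 8))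
    (@En.n l67 (nat_lit 5735) (nat_lit 15) (nat_lit 2))))
  (@Cl.mk (nat_lit 0x20008000700070007000e000c0002000900080004000900090009000e0007) (nat_lit 0x6000350610213c0) (nat_lit 16) Lb.e (@T16.mk En
    (@En.n l10054 (nat_lit 5730) (nat_lit 7) (nat_lit 7))
    (@En.n l4021 (nat_lit 10101) (nat_lit 9) (nat_lit 14))
    (@En.n l1865 (nat_lit 5738) (nat_lit 2) (nat_lit 9))
    (@En.n l152 (nat_lit 5125) (nat_lit 3) (nat_lit 9))
    (@En.n l15816 (nat_lit 2981) (nat_lit 4) (nat_lit 9))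
    (@En.n l15817 (nat_lit 6470) (nat_lit 5) (nat_lit 4))
    (@En.n l15818 (nat_lit 50) (nat_lit 6) (nat_lit 8))
    (@En.n l15819 (nat_lit 6526) (nat_lit 1) (nat_lit 9))
    (@En.n l28 (nat_lit 5736) (nat_lit 8) (nat_lit 2))
    (@En.n l15820 (nat_lit 5699) (nat_lit 10) (nat_lit 12))
    (@En.n l15821 (nat_lit 3171) (nat_lit 11) (nat_lit 14))
    (@En.n l15822 (nat_lit 5734) (nat_lit 2) (nat_lit 7))
    (@En.n l13059 (nat_lit 5778) (nat_lit 3) (nat_lit 7))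
    (@En.n l15823 (nat_lit 11633) (nat_lit 14) (nat_lit 7))
    (@En.n l15565 (nat_lit 1640) (nat_lit 5) (nat_lit 8))
    (@En.n l18 (nat_lit 5736) (nat_lit 15) (nat_lit 2))))
  (@Cl.mk (nat_lit 0x200080006000e00070002000c000c0009000800040004000a0009000e0007) (nat_lit 0x1040088610075c0) (nat_lit 16) Lb.e (@T16.mk En
    (@En.i (nat_lit 5740) (nat_lit 5) (nat_lit 7))
    (@En.i (nat_lit 7536) (nat_lit 1) (nat_lit 14))
    (@En.n l2579 (nat_lit 3291) (nat_lit 2) (nat_lit 9))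
    (@En.n l476 (nat_lit 5742) (nat_lit 3) (nat_lit 10))
    (@En.n l152 (nat_lit 5738) (nat_lit 4) (nat_lit 4))
    (@En.n l2438 (nat_lit 5745) (nat_lit 5) (nat_lit 4))
    (@En.n l548 (nat_lit 5446) (nat_lit 6) (nat_lit 8))
    (@En.n l4684 (nat_lit 6536) (nat_lit 13) (nat_lit 9))
    (@En.n l10815 (nat_lit 5743) (nat_lit 9) (nat_lit 12))
    (@En.n l11413 (nat_lit 5749) (nat_lit 10) (nat_lit 12))
    (@En.n l17 (nat_lit 5737) (nat_lit 10) (nat_lit 2))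
    (@En.n l34125 (nat_lit 5699) (nat_lit 12) (nat_lit 7))
    (@En.n l5 (nat_lit 5753) (nat_lit 13) (nat_lit 14))
    (@En.n l11512 (nat_lit 11640) (nat_lit 14) (nat_lit 6))
    (@En.i (nat_lit 1639) (nat_lit 3) (nat_lit 8))
    (@En.n l28 (nat_lit 5737) (nat_lit 15) (nat_lit 2))))
  (@Cl.mk (nat_lit 0x200070006000e00070002000e000c0002000a00090004000a0009000e0006) (nat_lit 0xa0059073072c0) (nat_lit 16) Lb.e (@T16.mk En
    (@En.n l5246 (nat_lit 5739) (nat_lit 8) (nat_lit 6))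
    (@En.i (nat_lit 8284) (nat_lit 10) (nat_lit 14))
    (@En.n l2579 (nat_lit 5122) (nat_lit 2) (nat_lit 9))
    (@En.n l998 (nat_lit 2983) (nat_lit 3) (nat_lit 10))
    (@En.n l1393 (nat_lit 5741) (nat_lit 4) (nat_lit 4))
    (@En.i (nat_lit 5451) (nat_lit 5) (nat_lit 9))
    (@En.i (nat_lit 6534) (nat_lit 12) (nat_lit 10))
    (@En.n l3 (nat_lit 5738) (nat_lit 7) (nat_lit 2))
    (@En.i (nat_lit 5737) (nat_lit 9) (nat_lit 12))
    (@En.n l1544 (nat_lit 7174) (nat_lit 1) (nat_lit 14))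
    (@En.n l17 (nat_lit 5738) (nat_lit 10) (nat_lit 2))
    (@En.n l2805 (nat_lit 5736) (nat_lit 12) (nat_lit 7))
    (@En.n l998 (nat_lit 5755) (nat_lit 13) (nat_lit 14))
    (@En.n l11512 (nat_lit 11636) (nat_lit 14) (nat_lit 6))
    (@En.n l14161 (nat_lit 1636) (nat_lit 6) (nat_lit 7))
    (@En.n l28 (nat_lit 5738) (nat_lit 15) (nat_lit 2))))
  (@Cl.mk (nat_lit 0x2000a000a000a0005000b000a0006000600060005000e00060002000e000b) (nat_lit 0x385084000070042) (nat_lit 16) Lb.e (@T16.mk En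
    (@En.n l5403 (nat_lit 5740) (nat_lit 14) (nat_lit 11))
    (@En.i (nat_lit 7175) (nat_lit 1) (nat_lit 14))
    (@En.n l17 (nat_lit 5739) (nat_lit 2) (nat_lit 2))
    (@En.n l50 (nat_lit 5730) (nat_lit 3) (nat_lit 6))
    (@En.n l998 (nat_lit 5756) (nat_lit 1) (nat_lit 14))
    (@En.n l24237 (nat_lit 10122) (nat_lit 5) (nat_lit 5))
    (@En.n l1578 (nat_lit 4823) (nat_lit 10) (nat_lit 6))
    (@En.n l575 (nat_lit 4844) (nat_lit 10) (nat_lit 6))
    (@En.n l22298 (nat_lit 11643) (nat_lit 8) (nat_lit 6))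
    (@En.n l11350 (nat_lit 4819) (nat_lit 10) (nat_lit 10))
    (@En.i (nat_lit 2968) (nat_lit 11) (nat_lit 11))
    (@En.n l810 (nat_lit 8020) (nat_lit 8) (nat_lit 5))
    (@En.n l565 (nat_lit 5794) (nat_lit 6) (nat_lit 10))
    (@En.n l5402 (nat_lit 5738) (nat_lit 6) (nat_lit 10))
    (@En.i (nat_lit 6010) (nat_lit 12) (nat_lit 10))
    (@En.n l3 (nat_lit 5739) (nat_lit 15) (nat_lit 2))))
  (@Cl.mk (nat_lit 0x2000b000b00090009000900050005000b000a0007000700070005000e0006) (nat_lit 0x182720093000030) (nat_lit 16) Lb.e (@T16.mk En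
    (@En.n l23168 (nat_lit 5303) (nat_lit 6) (nat_lit 6))
    (@En.n l5 (nat_lit 5752) (nat_lit 1) (nat_lit 14))
    (@En.n l5934 (nat_lit 10127) (nat_lit 2) (nat_lit 5))
    (@En.n l19188 (nat_lit 5305) (nat_lit 9) (nat_lit 7))
    (@En.n l4963 (nat_lit 4848) (nat_lit 9) (nat_lit 7))
    (@En.n l1055 (nat_lit 12274) (nat_lit 5) (nat_lit 7))
    (@En.n l217 (nat_lit 3296) (nat_lit 6) (nat_lit 10))
    (@En.n l4964 (nat_lit 5158) (nat_lit 8) (nat_lit 11))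
    (@En.n l4965 (nat_lit 5739) (nat_lit 11) (nat_lit 5))
    (@En.n l4966 (nat_lit 8018) (nat_lit 9) (nat_lit 5))
    (@En.n l77 (nat_lit 5793) (nat_lit 7) (nat_lit 9))
    (@En.n l55 (nat_lit 5737) (nat_lit 7) (nat_lit 9))
    (@En.n l619 (nat_lit 6437) (nat_lit 13) (nat_lit 9))
    (@En.n l36841 (nat_lit 5746) (nat_lit 14) (nat_lit 11))
    (@En.i (nat_lit 76) (nat_lit 4) (nat_lit 11))
    (@En.n l17 (nat_lit 5740) (nat_lit 15) (nat_lit 2))))
  (@Cl.mk (nat_lit 0x200090006000e00070002000d000c00070003000b0004000a0009000e0005) (nat_lit 0x60200a700406380) (nat_lit 16) Lb.e (@T16.mk En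
    (@En.n l29001 (nat_lit 8020) (nat_lit 5) (nat_lit 5))
    (@En.n l2576 (nat_lit 7535) (nat_lit 1) (nat_lit 14))
    (@En.n l3 (nat_lit 7029) (nat_lit 2) (nat_lit 9))
    (@En.n l27141 (nat_lit 8067) (nat_lit 3) (nat_lit 10))
    (@En.n l4263 (nat_lit 5737) (nat_lit 4) (nat_lit 4))
    (@En.n l11239 (nat_lit 5440) (nat_lit 11) (nat_lit 11))
    (@En.n l7 (nat_lit 8046) (nat_lit 6) (nat_lit 3))
    (@En.n l31646 (nat_lit 2118) (nat_lit 7) (nat_lit 7))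
    (@En.n l644 (nat_lit 5745) (nat_lit 9) (nat_lit 12))
    (@En.i (nat_lit 9776) (nat_lit 10) (nat_lit 13))
    (@En.n l11 (nat_lit 5741) (nat_lit 10) (nat_lit 2))
    (@En.i (nat_lit 6470) (nat_lit 12) (nat_lit 7))
    (@En.n l180 (nat_lit 5689) (nat_lit 1) (nat_lit 14))
    (@En.i (nat_lit 8051) (nat_lit 14) (nat_lit 6))
    (@En.n l2125 (nat_lit 7133) (nat_lit 3) (nat_lit 9))
    (@En.n l17 (nat_lit 5741) (nat_lit 15) (nat_lit 2))))
  (@Cl.mk (nat_lit 0x200070006000b000e00080002000c0005000a00090004000a0008000e0006) (nat_lit 0x7b20708106370) (nat_lit 16) Lb.e (@T16.mk En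
    (@En.n l5246 (nat_lit 5158) (nat_lit 6) (nat_lit 6))
    (@En.i (nat_lit 9304) (nat_lit 1) (nat_lit 14))
    (@En.n l2579 (nat_lit 6303) (nat_lit 2) (nat_lit 8))
    (@En.n l11658 (nat_lit 2972) (nat_lit 10) (nat_lit 10))
    (@En.n l1925 (nat_lit 5747) (nat_lit 4) (nat_lit 4))
    (@En.n l11658 (nat_lit 5455) (nat_lit 5) (nat_lit 9))
    (@En.n l170 (nat_lit 11586) (nat_lit 13) (nat_lit 10))
    (@En.n l24421 (nat_lit 5748) (nat_lit 14) (nat_lit 5))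
    (@En.n l31238 (nat_lit 6529) (nat_lit 9) (nat_lit 12))
    (@En.n l17 (nat_lit 5742) (nat_lit 9) (nat_lit 2))
    (@En.n l31239 (nat_lit 6520) (nat_lit 11) (nat_lit 8))
    (@En.i (nat_lit 5738) (nat_lit 12) (nat_lit 14))
    (@En.n l250 (nat_lit 8063) (nat_lit 13) (nat_lit 11))
    (@En.n l11512 (nat_lit 10783) (nat_lit 14) (nat_lit 6))
    (@En.n l31240 (nat_lit 6944) (nat_lit 4) (nat_lit 7))
    (@En.n l28 (nat_lit 5742) (nat_lit 15) (nat_lit 2))))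
  (@Cl.mk (nat_lit 0x200090006000e00070002000c00080007000e00040002000a0009000e0008) (nat_lit 0x50c007004005644) (nat_lit 16) Lb.e (@T16.mk En
    (@En.n l21615 (nat_lit 5746) (nat_lit 5) (nat_lit 8))
    (@En.n l21616 (nat_lit 8270) (nat_lit 13) (nat_lit 14))
    (@En.n l3 (nat_lit 3288) (nat_lit 2) (nat_lit 9))
    (@En.n l998 (nat_lit 5744) (nat_lit 3) (nat_lit 10))
    (@En.n l50 (nat_lit 5743) (nat_lit 4) (nat_lit 2))
    (@En.n l4263 (nat_lit 5737) (nat_lit 5) (nat_lit 4))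
    (@En.n l21617 (nat_lit 1895) (nat_lit 7) (nat_lit 14))
    (@En.n l21616 (nat_lit 5449) (nat_lit 7) (nat_lit 7))
    (@En.i (nat_lit 6908) (nat_lit 14) (nat_lit 8))
    (@En.n l8962 (nat_lit 6582) (nat_lit 10) (nat_lit 12))
    (@En.n l11 (nat_lit 5743) (nat_lit 10) (nat_lit 2))
    (@En.n l15940 (nat_lit 5697) (nat_lit 6) (nat_lit 7))
    (@En.n l180 (nat_lit 5751) (nat_lit 8) (nat_lit 14))
    (@En.n l12099 (nat_lit 12837) (nat_lit 14) (nat_lit 6))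
    (@En.n l21618 (nat_lit 5200) (nat_lit 3) (nat_lit 9))
    (@En.n l17 (nat_lit 5743) (nat_lit 15) (nat_lit 2))))
noncomputable def a359 : T16 Cl := @T16.mk Cl
  (@Cl.mk (nat_lit 0x2000800060009000e00080002000c0009000800070004000a0008000e0007) (nat_lit 0x2520871004330) (nat_lit 16) Lb.e (@T16.mk En
    (@En.n l8605 (nat_lit 5157) (nat_lit 6) (nat_lit 7))
    (@En.n l20927 (nat_lit 9302) (nat_lit 1) (nat_lit 14))
    (@En.n l6864 (nat_lit 7496) (nat_lit 2) (nat_lit 8))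
    (@En.n l35898 (nat_lit 5748) (nat_lit 10) (nat_lit 10))
    (@En.n l13323 (nat_lit 5742) (nat_lit 4) (nat_lit 4))
    (@En.n l97 (nat_lit 7937) (nat_lit 5) (nat_lit 7))
    (@En.n l32669 (nat_lit 5454) (nat_lit 6) (nat_lit 8))
    (@En.n l217 (nat_lit 11576) (nat_lit 14) (nat_lit 9))
    (@En.n l35899 (nat_lit 6584) (nat_lit 9) (nat_lit 12))
    (@En.n l28 (nat_lit 5744) (nat_lit 9) (nat_lit 2))
    (@En.n l35900 (nat_lit 6522) (nat_lit 11) (nat_lit 8))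
    (@En.n l1262 (nat_lit 5737) (nat_lit 12) (nat_lit 14))
    (@En.n l773 (nat_lit 2119) (nat_lit 13) (nat_lit 9))
    (@En.n l18803 (nat_lit 10786) (nat_lit 14) (nat_lit 6))
    (@En.n l35901 (nat_lit 6830) (nat_lit 4) (nat_lit 8))
    (@En.n l17 (nat_lit 5744) (nat_lit 15) (nat_lit 2))))
  (@Cl.mk (nat_lit 0x2000a0006000e00070002000c0006000d000a00040003000a0009000e0006) (nat_lit 0x50a006093003470) (nat_lit 16) Lb.e (@T16.mk En
    (@En.n l3928 (nat_lit 8018) (nat_lit 5) (nat_lit 6))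
    (@En.n l2576 (nat_lit 7533) (nat_lit 7) (nat_lit 14))
    (@En.n l3 (nat_lit 7032) (nat_lit 2) (nat_lit 9))
    (@En.n l998 (nat_lit 5747) (nat_lit 3) (nat_lit 10))
    (@En.n l50 (nat_lit 8046) (nat_lit 4) (nat_lit 3))
    (@En.i (nat_lit 5743) (nat_lit 5) (nat_lit 4))
    (@En.n l217 (nat_lit 6538) (nat_lit 12) (nat_lit 10))
    (@En.n l23035 (nat_lit 1896) (nat_lit 8) (nat_lit 13))
    (@En.i (nat_lit 8104) (nat_lit 14) (nat_lit 6))
    (@En.i (nat_lit 11393) (nat_lit 10) (nat_lit 12))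
    (@En.n l11 (nat_lit 5745) (nat_lit 10) (nat_lit 2))
    (@En.i (nat_lit 6468) (nat_lit 12) (nat_lit 7))
    (@En.n l180 (nat_lit 5688) (nat_lit 1) (nat_lit 14))
    (@En.i (nat_lit 8049) (nat_lit 14) (nat_lit 6))
    (@En.n l3928 (nat_lit 7127) (nat_lit 3) (nat_lit 10))
    (@En.n l17 (nat_lit 5745) (nat_lit 15) (nat_lit 2))))
  (@Cl.mk (nat_lit 0x2000b000800080008000e00050002000b000a0008000800080005000e0006) (nat_lit 0x7112c0066302010) (nat_lit 16) Lb.e (@T16.mk En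
    (@En.n l117 (nat_lit 5701) (nat_lit 7) (nat_lit 6))
    (@En.n l21173 (nat_lit 47) (nat_lit 1) (nat_lit 14))
    (@En.n l21174 (nat_lit 11136) (nat_lit 9) (nat_lit 5))
    (@En.n l644 (nat_lit 5808) (nat_lit 3) (nat_lit 8))
    (@En.n l7585 (nat_lit 5750) (nat_lit 8) (nat_lit 8))
    (@En.n l21175 (nat_lit 10101) (nat_lit 5) (nat_lit 8))
    (@En.n l936 (nat_lit 3292) (nat_lit 14) (nat_lit 10))
    (@En.n l21176 (nat_lit 5157) (nat_lit 8) (nat_lit 11))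
    (@En.n l17 (nat_lit 5746) (nat_lit 8) (nat_lit 2))
    (@En.n l21177 (nat_lit 5740) (nat_lit 9) (nat_lit 5))
    (@En.n l10903 (nat_lit 2979) (nat_lit 1) (nat_lit 14))
    (@En.n l21178 (nat_lit 5806) (nat_lit 8) (nat_lit 8))
    (@En.n l21179 (nat_lit 5743) (nat_lit 8) (nat_lit 8))
    (@En.n l4002 (nat_lit 3171) (nat_lit 14) (nat_lit 8))
    (@En.n l614 (nat_lit 5172) (nat_lit 6) (nat_lit 11))
    (@En.n l11 (nat_lit 5746) (nat_lit 15) (nat_lit 2))))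
  (@Cl.mk (nat_lit 0x200090006000a000e00080002000c00070006000b0004000a0008000e0005) (nat_lit 0x405300800002360) (nat_lit 16) Lb.e (@T16.mk En
    (@En.n l1075 (nat_lit 8006) (nat_lit 6) (nat_lit 5))
    (@En.i (nat_lit 7948) (nat_lit 1) (nat_lit 14))
    (@En.n l3082 (nat_lit 7082) (nat_lit 2) (nat_lit 8))
    (@En.n l41598 (nat_lit 8068) (nat_lit 10) (nat_lit 10))
    (@En.i (nat_lit 5744) (nat_lit 4) (nat_lit 4))
    (@En.n l12013 (nat_lit 11316) (nat_lit 12) (nat_lit 11))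
    (@En.n l97 (nat_lit 7938) (nat_lit 6) (nat_lit 6))
    (@En.i (nat_lit 11345) (nat_lit 14) (nat_lit 7))
    (@En.i (nat_lit 11394) (nat_lit 9) (nat_lit 12))
    (@En.n l28 (nat_lit 5747) (nat_lit 9) (nat_lit 2))
    (@En.n l1101 (nat_lit 8014) (nat_lit 11) (nat_lit 8))
    (@En.n l4758 (nat_lit 5741) (nat_lit 12) (nat_lit 14))
    (@En.n l41599 (nat_lit 12254) (nat_lit 13) (nat_lit 10))
    (@En.n l41246 (nat_lit 11000) (nat_lit 14) (nat_lit 6))
    (@En.n l20798 (nat_lit 9624) (nat_lit 4) (nat_lit 9))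
    (@En.n l17 (nat_lit 5747) (nat_lit 15) (nat_lit 2))))
  (@Cl.mk (nat_lit 0x20005000a00090007000a0007000e0006000200070006000b0009000e0009) (nat_lit 0x80030b000073c3) (nat_lit 16) Lb.e (@T16.mk En
    (@En.n l6108 (nat_lit 6521) (nat_lit 10) (nat_lit 9))
    (@En.n l25377 (nat_lit 5742) (nat_lit 11) (nat_lit 14))
    (@En.n l33739 (nat_lit 5744) (nat_lit 12) (nat_lit 9))
    (@En.n l39495 (nat_lit 8064) (nat_lit 3) (nat_lit 11))
    (@En.n l564 (nat_lit 10782) (nat_lit 4) (nat_lit 6))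
    (@En.n l39496 (nat_lit 6941) (nat_lit 5) (nat_lit 7))
    (@En.n l28 (nat_lit 5748) (nat_lit 6) (nat_lit 2))
    (@En.i (nat_lit 5156) (nat_lit 7) (nat_lit 6))
    (@En.i (nat_lit 9303) (nat_lit 9) (nat_lit 14))
    (@En.n l39497 (nat_lit 4429) (nat_lit 2) (nat_lit 7))
    (@En.i (nat_lit 3020) (nat_lit 11) (nat_lit 10))
    (@En.n l39498 (nat_lit 7939) (nat_lit 12) (nat_lit 7))
    (@En.i (nat_lit 6002) (nat_lit 13) (nat_lit 9))
    (@En.n l36271 (nat_lit 11578) (nat_lit 14) (nat_lit 10))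
    (@En.n l3340 (nat_lit 7173) (nat_lit 7) (nat_lit 5))
    (@En.n l3 (nat_lit 5748) (nat_lit 15) (nat_lit 2))))
  (@Cl.mk (nat_lit 0x20009000600090007000c000b00080007000400070005000a0009000e0008) (nat_lit 0x1060786000035c1) (nat_lit 16) Lb.e (@T16.mk En
    (@En.n l5403 (nat_lit 76) (nat_lit 2) (nat_lit 8))
    (@En.n l2038 (nat_lit 9301) (nat_lit 1) (nat_lit 14))
    (@En.n l3200 (nat_lit 6576) (nat_lit 2) (nat_lit 9))
    (@En.n l24611 (nat_lit 6529) (nat_lit 3) (nat_lit 10))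
    (@En.n l3819 (nat_lit 7707) (nat_lit 4) (nat_lit 5))
    (@En.n l36339 (nat_lit 5744) (nat_lit 5) (nat_lit 7))
    (@En.n l36340 (nat_lit 11393) (nat_lit 6) (nat_lit 4))
    (@En.i (nat_lit 5533) (nat_lit 7) (nat_lit 7))
    (@En.n l14722 (nat_lit 10845) (nat_lit 1) (nat_lit 8))
    (@En.n l10625 (nat_lit 6583) (nat_lit 10) (nat_lit 11))
    (@En.n l3819 (nat_lit 6531) (nat_lit 11) (nat_lit 12))
    (@En.i (nat_lit 7731) (nat_lit 12) (nat_lit 7))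
    (@En.i (nat_lit 5151) (nat_lit 13) (nat_lit 9))
    (@En.n l8874 (nat_lit 11494) (nat_lit 14) (nat_lit 6))
    (@En.n l565 (nat_lit 4936) (nat_lit 8) (nat_lit 9))
    (@En.n l11 (nat_lit 5749) (nat_lit 15) (nat_lit 2))))
  (@Cl.mk (nat_lit 0x20009000e00060002000c000b000800070004000e00050002000a000e0008) (nat_lit 0x1b0048600a00622) (nat_lit 16) Lb.e (@T16.mk En
    (@En.n l1573 (nat_lit 5746) (nat_lit 13) (nat_lit 8))
    (@En.i (nat_lit 3942) (nat_lit 6) (nat_lit 14))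
    (@En.n l339 (nat_lit 5171) (nat_lit 2) (nat_lit 10))
    (@En.n l17 (nat_lit 5750) (nat_lit 3) (nat_lit 2))
    (@En.n l8934 (nat_lit 5722) (nat_lit 4) (nat_lit 5))
    (@En.n l8935 (nat_lit 5751) (nat_lit 1) (nat_lit 14))
    (@En.n l8936 (nat_lit 12834) (nat_lit 2) (nat_lit 4))
    (@En.i (nat_lit 4790) (nat_lit 7) (nat_lit 7))
    (@En.n l8937 (nat_lit 12632) (nat_lit 4) (nat_lit 8))
    (@En.n l8938 (nat_lit 4851) (nat_lit 10) (nat_lit 11))
    (@En.n l4304 (nat_lit 5151) (nat_lit 11) (nat_lit 12))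
    (@En.n l28 (nat_lit 5750) (nat_lit 11) (nat_lit 2))
    (@En.n l1373 (nat_lit 4848) (nat_lit 13) (nat_lit 6))
    (@En.n l8939 (nat_lit 2988) (nat_lit 10) (nat_lit 14))
    (@En.n l8940 (nat_lit 5066) (nat_lit 11) (nat_lit 9))
    (@En.n l3 (nat_lit 5750) (nat_lit 15) (nat_lit 2))))
  (@Cl.mk (nat_lit 0x20007000a000e000800020009000e000600020009000c00080007000e0004) (nat_lit 0x44103b00086090) (nat_lit 16) Lb.e (@T16.mk En
    (@En.n l4263 (nat_lit 5753) (nat_lit 5) (nat_lit 4))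
    (@En.n l5559 (nat_lit 2006) (nat_lit 7) (nat_lit 14))
    (@En.n l790 (nat_lit 935) (nat_lit 2) (nat_lit 7))
    (@En.i (nat_lit 6904) (nat_lit 3) (nat_lit 8))
    (@En.n l4799 (nat_lit 4852) (nat_lit 10) (nat_lit 12))
    (@En.n l11829 (nat_lit 5754) (nat_lit 5) (nat_lit 9))
    (@En.n l107 (nat_lit 5751) (nat_lit 6) (nat_lit 2))
    (@En.n l11823 (nat_lit 5754) (nat_lit 7) (nat_lit 6))
    (@En.i (nat_lit 3468) (nat_lit 9) (nat_lit 14))
    (@En.n l10994 (nat_lit 6027) (nat_lit 10) (nat_lit 9))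
    (@En.n l17 (nat_lit 5751) (nat_lit 10) (nat_lit 2))
    (@En.n l4799 (nat_lit 47) (nat_lit 4) (nat_lit 8))
    (@En.n l4799 (nat_lit 817) (nat_lit 13) (nat_lit 14))
    (@En.i (nat_lit 3290) (nat_lit 2) (nat_lit 10))
    (@En.n l21186 (nat_lit 5753) (nat_lit 3) (nat_lit 7))
    (@En.n l50 (nat_lit 5751) (nat_lit 15) (nat_lit 2))))
  (@Cl.mk (nat_lit 0x20008000b000b000900090009000500050008000b000700070007000e0005) (nat_lit 0x171662006900020) (nat_lit 16) Lb.e (@T16.mk En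
    (@En.n l12951 (nat_lit 48) (nat_lit 7) (nat_lit 5))
    (@En.n l4961 (nat_lit 3195) (nat_lit 1) (nat_lit 14))
    (@En.n l12242 (nat_lit 5763) (nat_lit 9) (nat_lit 7))
    (@En.n l12952 (nat_lit 5754) (nat_lit 3) (nat_lit 7))
    (@En.n l1001 (nat_lit 4962) (nat_lit 4) (nat_lit 7))
    (@En.i (nat_lit 3295) (nat_lit 7) (nat_lit 11))
    (@En.n l12953 (nat_lit 5756) (nat_lit 6) (nat_lit 8))
    (@En.n l12954 (nat_lit 5756) (nat_lit 7) (nat_lit 5))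
    (@En.n l4966 (nat_lit 7792) (nat_lit 8) (nat_lit 5))
    (@En.n l77 (nat_lit 5762) (nat_lit 10) (nat_lit 9))
    (@En.n l55 (nat_lit 5753) (nat_lit 7) (nat_lit 9))
    (@En.n l619 (nat_lit 5051) (nat_lit 12) (nat_lit 9))
    (@En.n l12955 (nat_lit 47) (nat_lit 5) (nat_lit 11))
    (@En.n l2009 (nat_lit 5746) (nat_lit 7) (nat_lit 11))
    (@En.n l12956 (nat_lit 48) (nat_lit 5) (nat_lit 8))
    (@En.n l18 (nat_lit 5752) (nat_lit 15) (nat_lit 2))))
  (@Cl.mk (nat_lit 0x20008000e000600020009000c000c00090008000400040007000a000e0007) (nat_lit 0x330025951000830) (nat_lit 16) Lb.e (@T16.mk En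
    (@En.i (nat_lit 5752) (nat_lit 4) (nat_lit 7))
    (@En.n l2568 (nat_lit 811) (nat_lit 6) (nat_lit 14))
    (@En.i (nat_lit 3293) (nat_lit 2) (nat_lit 10))
    (@En.n l730 (nat_lit 5755) (nat_lit 3) (nat_lit 7))
    (@En.n l731 (nat_lit 5755) (nat_lit 4) (nat_lit 4))
    (@En.n l2438 (nat_lit 5688) (nat_lit 9) (nat_lit 4))
    (@En.n l548 (nat_lit 706) (nat_lit 6) (nat_lit 8))
    (@En.n l4684 (nat_lit 5424) (nat_lit 12) (nat_lit 9))
    (@En.n l10815 (nat_lit 5751) (nat_lit 4) (nat_lit 12))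
    (@En.n l1234 (nat_lit 5750) (nat_lit 10) (nat_lit 12))
    (@En.n l12339 (nat_lit 933) (nat_lit 11) (nat_lit 9))
    (@En.n l18 (nat_lit 5753) (nat_lit 11) (nat_lit 2))
    (@En.n l12340 (nat_lit 933) (nat_lit 13) (nat_lit 6))
    (@En.n l2438 (nat_lit 3206) (nat_lit 1) (nat_lit 14))
    (@En.i (nat_lit 5775) (nat_lit 2) (nat_lit 8))
    (@En.n l28 (nat_lit 5753) (nat_lit 15) (nat_lit 2))))
  (@Cl.mk (nat_lit 0x20007000a000a000e00090002000a000600060009000c00070006000e0004) (nat_lit 0x655703007a0080) (nat_lit 16) Lb.e (@T16.mk En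
    (@En.i (nat_lit 933) (nat_lit 6) (nat_lit 4))
    (@En.n l9555 (nat_lit 2004) (nat_lit 8) (nat_lit 14))
    (@En.i (nat_lit 929) (nat_lit 2) (nat_lit 6))
    (@En.i (nat_lit 6902) (nat_lit 3) (nat_lit 7))
    (@En.n l1643 (nat_lit 4846) (nat_lit 6) (nat_lit 12))
    (@En.n l3 (nat_lit 5759) (nat_lit 5) (nat_lit 9))
    (@En.n l527 (nat_lit 5759) (nat_lit 6) (nat_lit 6))
    (@En.n l9555 (nat_lit 7789) (nat_lit 14) (nat_lit 6))
    (@En.n l26051 (nat_lit 6020) (nat_lit 9) (nat_lit 10))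
    (@En.n l28 (nat_lit 5754) (nat_lit 9) (nat_lit 2))
    (@En.n l13604 (nat_lit 5752) (nat_lit 11) (nat_lit 9))
    (@En.n l5144 (nat_lit 8229) (nat_lit 12) (nat_lit 14))
    (@En.n l25511 (nat_lit 5751) (nat_lit 13) (nat_lit 10))
    (@En.n l25512 (nat_lit 5743) (nat_lit 3) (nat_lit 10))
    (@En.n l617 (nat_lit 933) (nat_lit 4) (nat_lit 7))
    (@En.n l17 (nat_lit 5754) (nat_lit 15) (nat_lit 2))))
  (@Cl.mk (nat_lit 0x20007000e000600020009000e000c0002000a000900040007000a000e0006) (nat_lit 0x90024606100270) (nat_lit 16) Lb.e (@T16.mk En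
    (@En.n l9902 (nat_lit 5756) (nat_lit 4) (nat_lit 6))
    (@En.i (nat_lit 812) (nat_lit 6) (nat_lit 14))
    (@En.n l1643 (nat_lit 5123) (nat_lit 2) (nat_lit 10))
    (@En.i (nat_lit 13382) (nat_lit 11) (nat_lit 7))
    (@En.n l561 (nat_lit 5689) (nat_lit 8) (nat_lit 4))
    (@En.n l3699 (nat_lit 934) (nat_lit 5) (nat_lit 9))
    (@En.i (nat_lit 5418) (nat_lit 11) (nat_lit 10))
    (@En.n l107 (nat_lit 5755) (nat_lit 7) (nat_lit 2))
    (@En.n l1643 (nat_lit 5753) (nat_lit 9) (nat_lit 12))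
    (@En.n l97 (nat_lit 5704) (nat_lit 10) (nat_lit 14))
    (@En.n l1252 (nat_lit 5757) (nat_lit 11) (nat_lit 9))
    (@En.n l17 (nat_lit 5755) (nat_lit 11) (nat_lit 2))
    (@En.n l8268 (nat_lit 5757) (nat_lit 13) (nat_lit 6))
    (@En.n l561 (nat_lit 3207) (nat_lit 6) (nat_lit 14))
    (@En.n l8276 (nat_lit 5777) (nat_lit 2) (nat_lit 7))
    (@En.n l7 (nat_lit 5755) (nat_lit 15) (nat_lit 2))))
  (@Cl.mk (nat_lit 0x20008000e000b0002000a000a000a00050008000b000600060006000e0005) (nat_lit 0x248077205300060) (nat_lit 16) Lb.e (@T16.mk En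
    (@En.i (nat_lit 5758) (nat_lit 4) (nat_lit 5))
    (@En.n l8119 (nat_lit 3208) (nat_lit 1) (nat_lit 14))
    (@En.n l134 (nat_lit 5761) (nat_lit 10) (nat_lit 6))
    (@En.n l55 (nat_lit 5759) (nat_lit 3) (nat_lit 6))
    (@En.n l11084 (nat_lit 4963) (nat_lit 4) (nat_lit 6))
    (@En.n l1643 (nat_lit 4821) (nat_lit 10) (nat_lit 11))
    (@En.i (nat_lit 13384) (nat_lit 10) (nat_lit 8))
    (@En.n l8632 (nat_lit 7793) (nat_lit 7) (nat_lit 5))
    (@En.n l1415 (nat_lit 5760) (nat_lit 9) (nat_lit 10))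
    (@En.n l11087 (nat_lit 5755) (nat_lit 6) (nat_lit 10))
    (@En.i (nat_lit 5053) (nat_lit 11) (nat_lit 10))
    (@En.n l107 (nat_lit 5756) (nat_lit 11) (nat_lit 2))
    (@En.n l13604 (nat_lit 5752) (nat_lit 13) (nat_lit 11))
    (@En.n l97 (nat_lit 5698) (nat_lit 1) (nat_lit 14))
    (@En.n l617 (nat_lit 5758) (nat_lit 2) (nat_lit 8))
    (@En.n l17 (nat_lit 5756) (nat_lit 15) (nat_lit 2))))
  (@Cl.mk (nat_lit 0x20008000600060009000e000c00020009000800040007000a000a000e0007) (nat_lit 0x300131041008380) (nat_lit 16) Lb.e (@T16.mk En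
    (@En.n l22012 (nat_lit 5758) (nat_lit 7) (nat_lit 7))
    (@En.n l3859 (nat_lit 821) (nat_lit 9) (nat_lit 14))
    (@En.n l12560 (nat_lit 5755) (nat_lit 2) (nat_lit 10))
    (@En.n l7566 (nat_lit 5738) (nat_lit 3) (nat_lit 10))
    (@En.i (nat_lit 13383) (nat_lit 11) (nat_lit 7))
    (@En.n l7563 (nat_lit 5684) (nat_lit 5) (nat_lit 4))
    (@En.n l7611 (nat_lit 930) (nat_lit 14) (nat_lit 8))
    (@En.i (nat_lit 5421) (nat_lit 1) (nat_lit 9))
    (@En.n l28 (nat_lit 5757) (nat_lit 8) (nat_lit 2))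
    (@En.n l26832 (nat_lit 933) (nat_lit 10) (nat_lit 12))
    (@En.n l1578 (nat_lit 5706) (nat_lit 11) (nat_lit 14))
    (@En.n l8769 (nat_lit 932) (nat_lit 2) (nat_lit 9))
    (@En.n l8744 (nat_lit 932) (nat_lit 3) (nat_lit 6))
    (@En.i (nat_lit 7784) (nat_lit 14) (nat_lit 6))
    (@En.i (nat_lit 5769) (nat_lit 5) (nat_lit 8))
    (@En.n l3 (nat_lit 5757) (nat_lit 15) (nat_lit 2))))
  (@Cl.mk (nat_lit 0x200090009000900050008000b000b000700070007000500050008000e000b) (nat_lit 0x652069400000131) (nat_lit 16) Lb.e (@T16.mk En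
    (@En.n l5479 (nat_lit 48) (nat_lit 4) (nat_lit 11))
    (@En.n l97 (nat_lit 5700) (nat_lit 1) (nat_lit 14))
    (@En.n l15831 (nat_lit 32) (nat_lit 2) (nat_lit 8))
    (@En.n l13640 (nat_lit 32) (nat_lit 3) (nat_lit 5))
    (@En.n l8116 (nat_lit 7790) (nat_lit 4) (nat_lit 5))
    (@En.n l17109 (nat_lit 5764) (nat_lit 9) (nat_lit 7))
    (@En.n l55 (nat_lit 931) (nat_lit 9) (nat_lit 7))
    (@En.n l18962 (nat_lit 5055) (nat_lit 7) (nat_lit 7))
    (@En.n l61 (nat_lit 5756) (nat_lit 5) (nat_lit 11))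
    (@En.n l1643 (nat_lit 5739) (nat_lit 10) (nat_lit 11))
    (@En.i (nat_lit 13385) (nat_lit 10) (nat_lit 8))
    (@En.n l564 (nat_lit 5690) (nat_lit 12) (nat_lit 5))
    (@En.n l18963 (nat_lit 5765) (nat_lit 7) (nat_lit 9))
    (@En.n l17111 (nat_lit 5757) (nat_lit 7) (nat_lit 9))
    (@En.n l8116 (nat_lit 5054) (nat_lit 2) (nat_lit 9))
    (@En.n l107 (nat_lit 5758) (nat_lit 15) (nat_lit 2))))
  (@Cl.mk (nat_lit 0x20007000e000a0002000e000a0002000b00060009000c00060005000e0004) (nat_lit 0xa70680306a0070) (nat_lit 16) Lb.e (@T16.mk En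
    (@En.i (nat_lit 931) (nat_lit 7) (nat_lit 4))
    (@En.n l8119 (nat_lit 2011) (nat_lit 9) (nat_lit 14))
    (@En.i (nat_lit 923) (nat_lit 2) (nat_lit 5))
    (@En.i (nat_lit 6901) (nat_lit 3) (nat_lit 6))
    (@En.n l1643 (nat_lit 4842) (nat_lit 12) (nat_lit 12))
    (@En.i (nat_lit 12831) (nat_lit 9) (nat_lit 9))
    (@En.n l564 (nat_lit 7788) (nat_lit 14) (nat_lit 6))
    (@En.n l7 (nat_lit 6018) (nat_lit 12) (nat_lit 11))
    (@En.n l28 (nat_lit 5759) (nat_lit 8) (nat_lit 2))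
    (@En.i (nat_lit 5756) (nat_lit 10) (nat_lit 10))
    (@En.i (nat_lit 8230) (nat_lit 1) (nat_lit 14))
    (@En.n l107 (nat_lit 5759) (nat_lit 11) (nat_lit 2))
    (@En.i (nat_lit 5754) (nat_lit 13) (nat_lit 10))
    (@En.n l97 (nat_lit 5695) (nat_lit 1) (nat_lit 14))
    (@En.n l617 (nat_lit 931) (nat_lit 5) (nat_lit 7))
    (@En.n l17 (nat_lit 5759) (nat_lit 15) (nat_lit 2))))
noncomputable def a360 : T16 Cl := @T16.mk Cl
  (@Cl.mk (nat_lit 0x20009000e000c0002000b000a00040007000a0005000e00060002000e0006) (nat_lit 0x59071004030030) (nat_lit 16) Lb.e (@T16.mk En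
    (@En.n l1353 (nat_lit 5765) (nat_lit 14) (nat_lit 6))
    (@En.i (nat_lit 7896) (nat_lit 1) (nat_lit 14))
    (@En.n l50 (nat_lit 5760) (nat_lit 2) (nat_lit 2))
    (@En.n l9902 (nat_lit 5756) (nat_lit 3) (nat_lit 6))
    (@En.n l601 (nat_lit 6021) (nat_lit 9) (nat_lit 14))
    (@En.i (nat_lit 4956) (nat_lit 5) (nat_lit 5))
    (@En.n l1643 (nat_lit 5876) (nat_lit 11) (nat_lit 10))
    (@En.i (nat_lit 13393) (nat_lit 11) (nat_lit 7))
    (@En.i (nat_lit 5369) (nat_lit 8) (nat_lit 4))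
    (@En.n l77 (nat_lit 705) (nat_lit 14) (nat_lit 10))
    (@En.i (nat_lit 6451) (nat_lit 11) (nat_lit 11))
    (@En.n l107 (nat_lit 5760) (nat_lit 11) (nat_lit 2))
    (@En.n l1643 (nat_lit 5762) (nat_lit 13) (nat_lit 12))
    (@En.n l619 (nat_lit 5703) (nat_lit 1) (nat_lit 14))
    (@En.i (nat_lit 5765) (nat_lit 12) (nat_lit 9))
    (@En.n l17 (nat_lit 5760) (nat_lit 15) (nat_lit 2))))
  (@Cl.mk (nat_lit 0x200060009000c00070006000e000400020007000e000a00020009000e000a) (nat_lit 0x2005000470778) (nat_lit 16) Lb.e (@T16.mk En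
    (@En.n l28 (nat_lit 5756) (nat_lit 9) (nat_lit 10))
    (@En.n l5472 (nat_lit 5774) (nat_lit 10) (nat_lit 14))
    (@En.n l1347 (nat_lit 5060) (nat_lit 2) (nat_lit 9))
    (@En.n l107 (nat_lit 5761) (nat_lit 3) (nat_lit 2))
    (@En.i (nat_lit 5763) (nat_lit 4) (nat_lit 10))
    (@En.n l97 (nat_lit 5702) (nat_lit 6) (nat_lit 14))
    (@En.n l5473 (nat_lit 5764) (nat_lit 6) (nat_lit 7))
    (@En.n l17 (nat_lit 5761) (nat_lit 7) (nat_lit 2))
    (@En.n l4019 (nat_lit 5764) (nat_lit 8) (nat_lit 4))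
    (@En.n l4311 (nat_lit 3107) (nat_lit 10) (nat_lit 14))
    (@En.i (nat_lit 927) (nat_lit 2) (nat_lit 6))
    (@En.n l1347 (nat_lit 5039) (nat_lit 3) (nat_lit 7))
    (@En.n l1643 (nat_lit 4817) (nat_lit 13) (nat_lit 12))
    (@En.i (nat_lit 13391) (nat_lit 9) (nat_lit 9))
    (@En.n l3699 (nat_lit 7854) (nat_lit 6) (nat_lit 6))
    (@En.n l7 (nat_lit 5761) (nat_lit 15) (nat_lit 2))))
  (@Cl.mk (nat_lit 0x20009000c000c000a0009000400040007000a0006000e00070002000e0006) (nat_lit 0x186610005040030) (nat_lit 16) Lb.e (@T16.mk En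
    (@En.i (nat_lit 5371) (nat_lit 14) (nat_lit 6))
    (@En.i (nat_lit 7895) (nat_lit 1) (nat_lit 14))
    (@En.n l7 (nat_lit 5762) (nat_lit 2) (nat_lit 2))
    (@En.i (nat_lit 5752) (nat_lit 3) (nat_lit 7))
    (@En.n l134 (nat_lit 6019) (nat_lit 5) (nat_lit 14))
    (@En.n l2568 (nat_lit 4958) (nat_lit 5) (nat_lit 6))
    (@En.i (nat_lit 4511) (nat_lit 8) (nat_lit 10))
    (@En.n l730 (nat_lit 5760) (nat_lit 7) (nat_lit 7))
    (@En.n l731 (nat_lit 5760) (nat_lit 8) (nat_lit 4))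
    (@En.n l7630 (nat_lit 5370) (nat_lit 9) (nat_lit 4))
    (@En.n l55 (nat_lit 707) (nat_lit 11) (nat_lit 9))
    (@En.n l619 (nat_lit 6450) (nat_lit 12) (nat_lit 10))
    (@En.n l637 (nat_lit 5807) (nat_lit 4) (nat_lit 12))
    (@En.n l2009 (nat_lit 5808) (nat_lit 6) (nat_lit 12))
    (@En.n l1738 (nat_lit 5371) (nat_lit 12) (nat_lit 9))
    (@En.n l18 (nat_lit 5762) (nat_lit 15) (nat_lit 2))))
  (@Cl.mk (nat_lit 0x2000600060009000c00080007000e000400020007000a000a0008000e0009) (nat_lit 0x1540600067667) (nat_lit 16) Lb.e (@T16.mk En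
    (@En.n l5057 (nat_lit 5752) (nat_lit 10) (nat_lit 9))
    (@En.n l5058 (nat_lit 5776) (nat_lit 11) (nat_lit 14))
    (@En.n l5059 (nat_lit 5059) (nat_lit 2) (nat_lit 8))
    (@En.n l5060 (nat_lit 5807) (nat_lit 13) (nat_lit 10))
    (@En.n l5061 (nat_lit 5806) (nat_lit 4) (nat_lit 10))
    (@En.n l5062 (nat_lit 5371) (nat_lit 5) (nat_lit 7))
    (@En.n l17 (nat_lit 5763) (nat_lit 6) (nat_lit 2))
    (@En.n l5063 (nat_lit 5371) (nat_lit 7) (nat_lit 4))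
    (@En.n l5064 (nat_lit 3106) (nat_lit 9) (nat_lit 14))
    (@En.i (nat_lit 708) (nat_lit 2) (nat_lit 7))
    (@En.n l5061 (nat_lit 5040) (nat_lit 3) (nat_lit 8))
    (@En.n l1643 (nat_lit 4818) (nat_lit 12) (nat_lit 12))
    (@En.n l3 (nat_lit 5761) (nat_lit 13) (nat_lit 9))
    (@En.n l527 (nat_lit 5761) (nat_lit 14) (nat_lit 6))
    (@En.n l3699 (nat_lit 7852) (nat_lit 7) (nat_lit 6))
    (@En.n l7 (nat_lit 5763) (nat_lit 15) (nat_lit 2))))
  (@Cl.mk (nat_lit 0x200060009000c000c00080007000400040007000e000a00020008000e0009) (nat_lit 0x72340000b60666) (nat_lit 16) Lb.e (@T16.mk En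
    (@En.n l7292 (nat_lit 5758) (nat_lit 13) (nat_lit 9))
    (@En.n l1386 (nat_lit 5772) (nat_lit 1) (nat_lit 14))
    (@En.i (nat_lit 5057) (nat_lit 2) (nat_lit 8))
    (@En.n l18 (nat_lit 5764) (nat_lit 3) (nat_lit 2))
    (@En.n l3709 (nat_lit 5371) (nat_lit 4) (nat_lit 10))
    (@En.n l396 (nat_lit 5707) (nat_lit 6) (nat_lit 14))
    (@En.n l343 (nat_lit 5766) (nat_lit 6) (nat_lit 7))
    (@En.n l1577 (nat_lit 5766) (nat_lit 7) (nat_lit 4))
    (@En.i (nat_lit 5365) (nat_lit 8) (nat_lit 4))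
    (@En.n l4973 (nat_lit 921) (nat_lit 5) (nat_lit 7))
    (@En.n l575 (nat_lit 5026) (nat_lit 11) (nat_lit 8))
    (@En.n l5987 (nat_lit 5761) (nat_lit 12) (nat_lit 12))
    (@En.n l572 (nat_lit 4823) (nat_lit 13) (nat_lit 12))
    (@En.i (nat_lit 13389) (nat_lit 9) (nat_lit 9))
    (@En.n l4943 (nat_lit 7855) (nat_lit 11) (nat_lit 6))
    (@En.n l3 (nat_lit 5764) (nat_lit 15) (nat_lit 2))))
  (@Cl.mk (nat_lit 0x2000600060009000e000c0002000a000900040007000a000a0006000e0007) (nat_lit 0x74806100350a0) (nat_lit 16) Lb.e (@T16.mk En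
    (@En.n l10035 (nat_lit 5758) (nat_lit 6) (nat_lit 7))
    (@En.n l601 (nat_lit 5771) (nat_lit 8) (nat_lit 14))
    (@En.i (nat_lit 5061) (nat_lit 2) (nat_lit 6))
    (@En.n l725 (nat_lit 5760) (nat_lit 6) (nat_lit 10))
    (@En.n l781 (nat_lit 5794) (nat_lit 4) (nat_lit 10))
    (@En.n l617 (nat_lit 13388) (nat_lit 11) (nat_lit 7))
    (@En.n l10036 (nat_lit 5366) (nat_lit 6) (nat_lit 4))
    (@En.n l77 (nat_lit 709) (nat_lit 14) (nat_lit 9))
    (@En.n l8572 (nat_lit 5029) (nat_lit 9) (nat_lit 10))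
    (@En.n l107 (nat_lit 5765) (nat_lit 9) (nat_lit 2))
    (@En.n l781 (nat_lit 5371) (nat_lit 11) (nat_lit 12))
    (@En.n l10037 (nat_lit 5306) (nat_lit 12) (nat_lit 14))
    (@En.n l9166 (nat_lit 5766) (nat_lit 13) (nat_lit 9))
    (@En.n l10038 (nat_lit 5766) (nat_lit 14) (nat_lit 6))
    (@En.n l10039 (nat_lit 7862) (nat_lit 4) (nat_lit 6))
    (@En.n l50 (nat_lit 5765) (nat_lit 15) (nat_lit 2))))
  (@Cl.mk (nat_lit 0x200060009000e000c00020009000800040007000e000a00020007000e0008) (nat_lit 0x63305600b40051) (nat_lit 16) Lb.e (@T16.mk En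
    (@En.n l7239 (nat_lit 32) (nat_lit 5) (nat_lit 8))
    (@En.n l3633 (nat_lit 5767) (nat_lit 7) (nat_lit 14))
    (@En.i (nat_lit 5062) (nat_lit 2) (nat_lit 7))
    (@En.n l18 (nat_lit 5766) (nat_lit 3) (nat_lit 2))
    (@En.n l7240 (nat_lit 5765) (nat_lit 4) (nat_lit 10))
    (@En.n l396 (nat_lit 5782) (nat_lit 6) (nat_lit 14))
    (@En.n l1018 (nat_lit 13392) (nat_lit 11) (nat_lit 7))
    (@En.i (nat_lit 5363) (nat_lit 7) (nat_lit 4))
    (@En.n l4484 (nat_lit 928) (nat_lit 14) (nat_lit 8))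
    (@En.n l2228 (nat_lit 5027) (nat_lit 10) (nat_lit 9))
    (@En.n l11 (nat_lit 5766) (nat_lit 10) (nat_lit 2))
    (@En.n l55 (nat_lit 5764) (nat_lit 12) (nat_lit 12))
    (@En.n l313 (nat_lit 5781) (nat_lit 13) (nat_lit 14))
    (@En.i (nat_lit 13390) (nat_lit 9) (nat_lit 9))
    (@En.n l2436 (nat_lit 7861) (nat_lit 3) (nat_lit 6))
    (@En.n l3 (nat_lit 5766) (nat_lit 15) (nat_lit 2))))
  (@Cl.mk (nat_lit 0x20006000900040007000e000a0002000e00070002000a00060009000e000c) (nat_lit 0x100230400800c7) (nat_lit 16) Lb.e (@T16.mk En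
    (@En.n l10234 (nat_lit 5772) (nat_lit 11) (nat_lit 12))
    (@En.n l134 (nat_lit 4635) (nat_lit 12) (nat_lit 14))
    (@En.n l3324 (nat_lit 12921) (nat_lit 9) (nat_lit 9))
    (@En.n l2520 (nat_lit 7746) (nat_lit 14) (nat_lit 6))
    (@En.n l617 (nat_lit 5385) (nat_lit 4) (nat_lit 10))
    (@En.n l17 (nat_lit 5767) (nat_lit 5) (nat_lit 2))
    (@En.i (nat_lit 5385) (nat_lit 6) (nat_lit 7))
    (@En.n l1531 (nat_lit 7255) (nat_lit 1) (nat_lit 14))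
    (@En.n l3 (nat_lit 5767) (nat_lit 8) (nat_lit 2))
    (@En.n l10235 (nat_lit 5771) (nat_lit 10) (nat_lit 10))
    (@En.n l10236 (nat_lit 5383) (nat_lit 11) (nat_lit 14))
    (@En.i (nat_lit 13557) (nat_lit 11) (nat_lit 7))
    (@En.n l2790 (nat_lit 7832) (nat_lit 6) (nat_lit 4))
    (@En.n l2520 (nat_lit 920) (nat_lit 9) (nat_lit 9))
    (@En.i (nat_lit 1395) (nat_lit 8) (nat_lit 6))
    (@En.n l7 (nat_lit 5767) (nat_lit 15) (nat_lit 2))))
  (@Cl.mk (nat_lit 0x20007000a000a00050008000b000b000600060009000500050008000e000b) (nat_lit 0x720043006001b7) (nat_lit 16) Lb.e (@T16.mk En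
    (@En.n l12370 (nat_lit 5773) (nat_lit 12) (nat_lit 11))
    (@En.n l97 (nat_lit 4636) (nat_lit 1) (nat_lit 14))
    (@En.n l27167 (nat_lit 5385) (nat_lit 2) (nat_lit 8))
    (@En.n l27168 (nat_lit 5385) (nat_lit 3) (nat_lit 5))
    (@En.n l27169 (nat_lit 7748) (nat_lit 4) (nat_lit 5))
    (@En.n l28 (nat_lit 6024) (nat_lit 9) (nat_lit 9))
    (@En.n l77 (nat_lit 6024) (nat_lit 10) (nat_lit 6))
    (@En.n l27170 (nat_lit 4937) (nat_lit 7) (nat_lit 6))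
    (@En.n l61 (nat_lit 6018) (nat_lit 9) (nat_lit 11))
    (@En.n l1643 (nat_lit 5072) (nat_lit 10) (nat_lit 11))
    (@En.n l2031 (nat_lit 13556) (nat_lit 10) (nat_lit 8))
    (@En.i (nat_lit 5476) (nat_lit 12) (nat_lit 5))
    (@En.n l27171 (nat_lit 5771) (nat_lit 13) (nat_lit 10))
    (@En.n l27172 (nat_lit 5765) (nat_lit 8) (nat_lit 10))
    (@En.n l2869 (nat_lit 1436) (nat_lit 2) (nat_lit 7))
    (@En.n l107 (nat_lit 5768) (nat_lit 15) (nat_lit 2))))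
  (@Cl.mk (nat_lit 0x200080008000b00050008000b000b000500080008000500050008000e000b) (nat_lit 0x428005505200156) (nat_lit 16) Lb.e (@T16.mk En
    (@En.n l25824 (nat_lit 5773) (nat_lit 4) (nat_lit 11))
    (@En.n l1578 (nat_lit 7137) (nat_lit 1) (nat_lit 14))
    (@En.n l25825 (nat_lit 5385) (nat_lit 10) (nat_lit 8))
    (@En.n l14711 (nat_lit 5385) (nat_lit 11) (nat_lit 5))
    (@En.n l13633 (nat_lit 5491) (nat_lit 4) (nat_lit 5))
    (@En.n l11840 (nat_lit 5772) (nat_lit 8) (nat_lit 8))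
    (@En.n l13633 (nat_lit 5764) (nat_lit 10) (nat_lit 8))
    (@En.n l15053 (nat_lit 1434) (nat_lit 7) (nat_lit 5))
    (@En.n l25826 (nat_lit 5777) (nat_lit 5) (nat_lit 11))
    (@En.n l7564 (nat_lit 1636) (nat_lit 10) (nat_lit 11))
    (@En.n l11844 (nat_lit 12922) (nat_lit 10) (nat_lit 8))
    (@En.n l13636 (nat_lit 7749) (nat_lit 12) (nat_lit 5))
    (@En.n l217 (nat_lit 6044) (nat_lit 7) (nat_lit 11))
    (@En.n l13637 (nat_lit 6044) (nat_lit 8) (nat_lit 8))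
    (@En.n l13717 (nat_lit 4935) (nat_lit 2) (nat_lit 8))
    (@En.n l28 (nat_lit 5769) (nat_lit 15) (nat_lit 2))))
  (@Cl.mk (nat_lit 0x2000a000600060009000c000c00060009000400040007000a000a000e0007) (nat_lit 0x800077010003490) (nat_lit 16) Lb.e (@T16.mk En
    (@En.i (nat_lit 5773) (nat_lit 2) (nat_lit 7))
    (@En.n l2698 (nat_lit 7260) (nat_lit 1) (nat_lit 14))
    (@En.n l217 (nat_lit 6019) (nat_lit 6) (nat_lit 10))
    (@En.i (nat_lit 5068) (nat_lit 3) (nat_lit 10))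
    (@En.n l13148 (nat_lit 5771) (nat_lit 11) (nat_lit 7))
    (@En.n l13149 (nat_lit 5771) (nat_lit 12) (nat_lit 4))
    (@En.n l13812 (nat_lit 7827) (nat_lit 6) (nat_lit 4))
    (@En.i (nat_lit 703) (nat_lit 9) (nat_lit 9))
    (@En.n l4758 (nat_lit 1482) (nat_lit 8) (nat_lit 6))
    (@En.n l5774 (nat_lit 5776) (nat_lit 4) (nat_lit 12))
    (@En.n l5389 (nat_lit 1642) (nat_lit 6) (nat_lit 12))
    (@En.n l13813 (nat_lit 5772) (nat_lit 12) (nat_lit 9))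
    (@En.n l13814 (nat_lit 5772) (nat_lit 13) (nat_lit 6))
    (@En.n l5592 (nat_lit 7740) (nat_lit 14) (nat_lit 6))
    (@En.n l3506 (nat_lit 5773) (nat_lit 0) (nat_lit 10))
    (@En.n l28 (nat_lit 5770) (nat_lit 15) (nat_lit 2))))
  (@Cl.mk (nat_lit 0x20007000a00040007000a000a000e000600020009000600060009000e000c) (nat_lit 0x100239007001c8) (nat_lit 16) Lb.e (@T16.mk En
    (@En.n l781 (nat_lit 5770) (nat_lit 10) (nat_lit 12))
    (@En.n l10037 (nat_lit 4638) (nat_lit 11) (nat_lit 14))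
    (@En.n l2373 (nat_lit 5767) (nat_lit 2) (nat_lit 9))
    (@En.n l12149 (nat_lit 5767) (nat_lit 3) (nat_lit 6))
    (@En.n l1722 (nat_lit 7743) (nat_lit 14) (nat_lit 6))
    (@En.n l13502 (nat_lit 5768) (nat_lit 5) (nat_lit 9))
    (@En.n l7 (nat_lit 5771) (nat_lit 6) (nat_lit 2))
    (@En.n l13503 (nat_lit 5768) (nat_lit 7) (nat_lit 6))
    (@En.i (nat_lit 7259) (nat_lit 9) (nat_lit 14))
    (@En.n l725 (nat_lit 6021) (nat_lit 10) (nat_lit 10))
    (@En.n l781 (nat_lit 5073) (nat_lit 3) (nat_lit 10))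
    (@En.n l617 (nat_lit 13553) (nat_lit 11) (nat_lit 7))
    (@En.i (nat_lit 7823) (nat_lit 5) (nat_lit 4))
    (@En.i (nat_lit 700) (nat_lit 8) (nat_lit 10))
    (@En.n l3337 (nat_lit 1485) (nat_lit 7) (nat_lit 7))
    (@En.n l107 (nat_lit 5771) (nat_lit 15) (nat_lit 2))))
  (@Cl.mk (nat_lit 0x2000b00060009000c000c00050008000400040007000e000a0002000e0008) (nat_lit 0x907650100034055) (nat_lit 16) Lb.e (@T16.mk En
    (@En.n l5498 (nat_lit 5769) (nat_lit 14) (nat_lit 8))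
    (@En.n l13435 (nat_lit 7257) (nat_lit 1) (nat_lit 14))
    (@En.n l107 (nat_lit 5772) (nat_lit 2) (nat_lit 2))
    (@En.n l13436 (nat_lit 5770) (nat_lit 3) (nat_lit 10))
    (@En.n l11193 (nat_lit 7138) (nat_lit 1) (nat_lit 14))
    (@En.n l13437 (nat_lit 5767) (nat_lit 11) (nat_lit 7))
    (@En.n l13438 (nat_lit 5767) (nat_lit 12) (nat_lit 4))
    (@En.i (nat_lit 7831) (nat_lit 7) (nat_lit 4))
    (@En.n l13439 (nat_lit 698) (nat_lit 10) (nat_lit 8))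
    (@En.n l13440 (nat_lit 1484) (nat_lit 9) (nat_lit 5))
    (@En.n l11456 (nat_lit 5774) (nat_lit 4) (nat_lit 12))
    (@En.n l9264 (nat_lit 1637) (nat_lit 12) (nat_lit 12))
    (@En.n l1374 (nat_lit 12920) (nat_lit 9) (nat_lit 9))
    (@En.n l3241 (nat_lit 7742) (nat_lit 14) (nat_lit 6))
    (@En.n l4408 (nat_lit 5769) (nat_lit 12) (nat_lit 11))
    (@En.n l28 (nat_lit 5772) (nat_lit 15) (nat_lit 2))))
  (@Cl.mk (nat_lit 0x500050008000b000b000600090009000500050008000b000b00070007000a) (nat_lit 0x16606200154007) (nat_lit 16) Lb.e (@T16.mk En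
    (@En.n l25841 (nat_lit 6025) (nat_lit 8) (nat_lit 10))
    (@En.n l25938 (nat_lit 6025) (nat_lit 9) (nat_lit 7))
    (@En.n l1055 (nat_lit 5280) (nat_lit 2) (nat_lit 7))
    (@En.n l217 (nat_lit 6020) (nat_lit 5) (nat_lit 11))
    (@En.i (nat_lit 5069) (nat_lit 7) (nat_lit 11))
    (@En.n l25939 (nat_lit 5768) (nat_lit 10) (nat_lit 8))
    (@En.n l25940 (nat_lit 5768) (nat_lit 11) (nat_lit 5))
    (@En.n l10458 (nat_lit 5473) (nat_lit 0) (nat_lit 5))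
    (@En.n l55 (nat_lit 5770) (nat_lit 7) (nat_lit 9))
    (@En.i (nat_lit 5371) (nat_lit 9) (nat_lit 9))
    (@En.n l25941 (nat_lit 1481) (nat_lit 2) (nat_lit 6))
    (@En.n l25942 (nat_lit 5775) (nat_lit 5) (nat_lit 11))
    (@En.n l25943 (nat_lit 1639) (nat_lit 7) (nat_lit 11))
    (@En.n l25944 (nat_lit 5769) (nat_lit 10) (nat_lit 8))
    (@En.n l25945 (nat_lit 5769) (nat_lit 11) (nat_lit 5))
    (@En.n l25946 (nat_lit 7744) (nat_lit 0) (nat_lit 5))))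
  (@Cl.mk (nat_lit 0x20007000e000a0002000e00090002000c00060009000c00040007000e0004) (nat_lit 0x460620a00400c0) (nat_lit 16) Lb.e (@T16.mk En
    (@En.n l3860 (nat_lit 5772) (nat_lit 7) (nat_lit 4))
    (@En.i (nat_lit 5927) (nat_lit 1) (nat_lit 14))
    (@En.n l5268 (nat_lit 922) (nat_lit 2) (nat_lit 7))
    (@En.n l5269 (nat_lit 1810) (nat_lit 3) (nat_lit 4))
    (@En.i (nat_lit 4854) (nat_lit 12) (nat_lit 12))
    (@En.n l3324 (nat_lit 12923) (nat_lit 9) (nat_lit 9))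
    (@En.n l1721 (nat_lit 7414) (nat_lit 14) (nat_lit 6))
    (@En.n l617 (nat_lit 5777) (nat_lit 8) (nat_lit 12))
    (@En.n l17 (nat_lit 5774) (nat_lit 8) (nat_lit 2))
    (@En.i (nat_lit 5777) (nat_lit 10) (nat_lit 9))
    (@En.n l1531 (nat_lit 7567) (nat_lit 1) (nat_lit 14))
    (@En.n l3 (nat_lit 5774) (nat_lit 11) (nat_lit 2))
    (@En.n l1532 (nat_lit 5776) (nat_lit 13) (nat_lit 10))
    (@En.n l3857 (nat_lit 7140) (nat_lit 1) (nat_lit 14))
    (@En.n l3324 (nat_lit 5772) (nat_lit 5) (nat_lit 7))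
    (@En.n l7 (nat_lit 5774) (nat_lit 15) (nat_lit 2))))
  (@Cl.mk (nat_lit 0x20008000b000b00080008000b000500050008000b000500080008000e0005) (nat_lit 0x2651280005052c0) (nat_lit 16) Lb.e (@T16.mk En
    (@En.n l12239 (nat_lit 5773) (nat_lit 7) (nat_lit 5))
    (@En.n l12240 (nat_lit 7507) (nat_lit 1) (nat_lit 14))
    (@En.n l12241 (nat_lit 5776) (nat_lit 2) (nat_lit 8))
    (@En.n l12242 (nat_lit 5763) (nat_lit 10) (nat_lit 8))
    (@En.n l12243 (nat_lit 1493) (nat_lit 4) (nat_lit 5))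
    (@En.i (nat_lit 2457) (nat_lit 7) (nat_lit 11))
    (@En.n l12244 (nat_lit 5777) (nat_lit 6) (nat_lit 8))
    (@En.n l12245 (nat_lit 5777) (nat_lit 7) (nat_lit 5))
    (@En.n l4962 (nat_lit 7837) (nat_lit 8) (nat_lit 5))
    (@En.n l10810 (nat_lit 6028) (nat_lit 10) (nat_lit 11))
    (@En.n l546 (nat_lit 6028) (nat_lit 11) (nat_lit 8))
    (@En.n l12246 (nat_lit 5279) (nat_lit 12) (nat_lit 8))
    (@En.n l12247 (nat_lit 6027) (nat_lit 5) (nat_lit 11))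
    (@En.n l12240 (nat_lit 5066) (nat_lit 7) (nat_lit 11))
    (@En.n l12248 (nat_lit 5773) (nat_lit 5) (nat_lit 8))
    (@En.n l18 (nat_lit 5775) (nat_lit 15) (nat_lit 2))))
noncomputable def a361 : T16 Cl := @T16.mk Cl
  (@Cl.mk (nat_lit 0x20007000a000a000e00080002000b000600060009000c00050008000e0004) (nat_lit 0x555209001601c0) (nat_lit 16) Lb.e (@T16.mk En
    (@En.n l2129 (nat_lit 5770) (nat_lit 6) (nat_lit 4))
    (@En.i (nat_lit 5924) (nat_lit 8) (nat_lit 14))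
    (@En.n l649 (nat_lit 699) (nat_lit 2) (nat_lit 8))
    (@En.i (nat_lit 1492) (nat_lit 3) (nat_lit 5))
    (@En.i (nat_lit 2453) (nat_lit 6) (nat_lit 12))
    (@En.n l1899 (nat_lit 5774) (nat_lit 5) (nat_lit 9))
    (@En.n l1900 (nat_lit 5774) (nat_lit 6) (nat_lit 6))
    (@En.n l1901 (nat_lit 7739) (nat_lit 14) (nat_lit 6))
    (@En.n l5596 (nat_lit 5775) (nat_lit 9) (nat_lit 11))
    (@En.n l17 (nat_lit 5776) (nat_lit 9) (nat_lit 2))
    (@En.n l5597 (nat_lit 5775) (nat_lit 11) (nat_lit 8))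
    (@En.i (nat_lit 7566) (nat_lit 12) (nat_lit 14))
    (@En.n l1904 (nat_lit 6029) (nat_lit 13) (nat_lit 10))
    (@En.n l5373 (nat_lit 5067) (nat_lit 3) (nat_lit 10))
    (@En.n l5598 (nat_lit 5770) (nat_lit 4) (nat_lit 7))
    (@En.n l7 (nat_lit 5776) (nat_lit 15) (nat_lit 2))))
  (@Cl.mk (nat_lit 0x20008000e000b000200090009000c00050008000b000400070007000e0005) (nat_lit 0x2670129064000c0) (nat_lit 16) Lb.e (@T16.mk En
    (@En.n l7248 (nat_lit 5769) (nat_lit 4) (nat_lit 5))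
    (@En.n l2869 (nat_lit 7506) (nat_lit 6) (nat_lit 14))
    (@En.n l61 (nat_lit 5774) (nat_lit 2) (nat_lit 7))
    (@En.n l5268 (nat_lit 5761) (nat_lit 11) (nat_lit 7))
    (@En.n l12147 (nat_lit 1808) (nat_lit 4) (nat_lit 4))
    (@En.i (nat_lit 2108) (nat_lit 10) (nat_lit 11))
    (@En.n l12148 (nat_lit 12925) (nat_lit 10) (nat_lit 8))
    (@En.n l9241 (nat_lit 7836) (nat_lit 7) (nat_lit 5))
    (@En.n l12149 (nat_lit 6046) (nat_lit 13) (nat_lit 12))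
    (@En.n l12150 (nat_lit 6046) (nat_lit 14) (nat_lit 9))
    (@En.i (nat_lit 5281) (nat_lit 11) (nat_lit 9))
    (@En.n l3 (nat_lit 5777) (nat_lit 11) (nat_lit 2))
    (@En.n l7235 (nat_lit 5775) (nat_lit 13) (nat_lit 11))
    (@En.n l5553 (nat_lit 7139) (nat_lit 1) (nat_lit 14))
    (@En.n l12151 (nat_lit 5769) (nat_lit 2) (nat_lit 8))
    (@En.n l7 (nat_lit 5777) (nat_lit 15) (nat_lit 2))))
  (@Cl.mk (nat_lit 0x2000800070004000e00090002000a000e00080002000900070006000e000c) (nat_lit 0x9304a6060087) (nat_lit 16) Lb.e (@T16.mk En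
    (@En.n l61 (nat_lit 5696) (nat_lit 11) (nat_lit 12))
    (@En.n l13042 (nat_lit 3168) (nat_lit 8) (nat_lit 14))
    (@En.i (nat_lit 4662) (nat_lit 2) (nat_lit 6))
    (@En.n l13043 (nat_lit 9220) (nat_lit 14) (nat_lit 7))
    (@En.n l13044 (nat_lit 4633) (nat_lit 4) (nat_lit 9))
    (@En.n l28 (nat_lit 5778) (nat_lit 5) (nat_lit 2))
    (@En.n l13045 (nat_lit 5779) (nat_lit 6) (nat_lit 8))
    (@En.n l13039 (nat_lit 12512) (nat_lit 8) (nat_lit 14))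
    (@En.n l13043 (nat_lit 5757) (nat_lit 2) (nat_lit 10))
    (@En.n l3 (nat_lit 5778) (nat_lit 9) (nat_lit 2))
    (@En.n l5003 (nat_lit 5736) (nat_lit 4) (nat_lit 9))
    (@En.n l5004 (nat_lit 4632) (nat_lit 1) (nat_lit 14))
    (@En.n l13046 (nat_lit 8035) (nat_lit 2) (nat_lit 4))
    (@En.i (nat_lit 5128) (nat_lit 14) (nat_lit 7))
    (@En.n l1935 (nat_lit 6533) (nat_lit 4) (nat_lit 8))
    (@En.n l17 (nat_lit 5778) (nat_lit 15) (nat_lit 2))))
  (@Cl.mk (nat_lit 0x20008000800080005000e000a0002000b00080008000800060005000e000b) (nat_lit 0x5120c5055260013) (nat_lit 16) Lb.e (@T16.mk En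
    (@En.n l9980 (nat_lit 5700) (nat_lit 8) (nat_lit 11))
    (@En.n l9981 (nat_lit 19) (nat_lit 1) (nat_lit 14))
    (@En.n l763 (nat_lit 4136) (nat_lit 2) (nat_lit 5))
    (@En.n l9812 (nat_lit 12495) (nat_lit 3) (nat_lit 6))
    (@En.n l1578 (nat_lit 5781) (nat_lit 8) (nat_lit 8))
    (@En.n l575 (nat_lit 5780) (nat_lit 8) (nat_lit 8))
    (@En.n l9982 (nat_lit 5785) (nat_lit 6) (nat_lit 8))
    (@En.n l2026 (nat_lit 5758) (nat_lit 8) (nat_lit 11))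
    (@En.n l50 (nat_lit 5779) (nat_lit 8) (nat_lit 2))
    (@En.n l217 (nat_lit 5730) (nat_lit 10) (nat_lit 10))
    (@En.n l9983 (nat_lit 1907) (nat_lit 11) (nat_lit 14))
    (@En.n l9984 (nat_lit 7737) (nat_lit 2) (nat_lit 5))
    (@En.n l9985 (nat_lit 5782) (nat_lit 8) (nat_lit 8))
    (@En.n l9986 (nat_lit 5778) (nat_lit 14) (nat_lit 8))
    (@En.n l9987 (nat_lit 5153) (nat_lit 5) (nat_lit 8))
    (@En.n l3 (nat_lit 5779) (nat_lit 15) (nat_lit 2))))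
  (@Cl.mk (nat_lit 0x200090006000e000b0002000c0008000700050004000e000a0002000e0008) (nat_lit 0x50c201100033046) (nat_lit 16) Lb.e (@T16.mk En
    (@En.i (nat_lit 5779) (nat_lit 14) (nat_lit 8))
    (@En.n l14754 (nat_lit 6294) (nat_lit 1) (nat_lit 14))
    (@En.n l3 (nat_lit 5780) (nat_lit 2) (nat_lit 2))
    (@En.n l11062 (nat_lit 5706) (nat_lit 3) (nat_lit 10))
    (@En.n l6029 (nat_lit 3168) (nat_lit 1) (nat_lit 14))
    (@En.n l763 (nat_lit 5816) (nat_lit 5) (nat_lit 4))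
    (@En.i (nat_lit 12493) (nat_lit 6) (nat_lit 5))
    (@En.i (nat_lit 4725) (nat_lit 7) (nat_lit 7))
    (@En.n l9982 (nat_lit 5585) (nat_lit 14) (nat_lit 8))
    (@En.n l2026 (nat_lit 931) (nat_lit 10) (nat_lit 12))
    (@En.n l50 (nat_lit 5780) (nat_lit 10) (nat_lit 2))
    (@En.n l217 (nat_lit 5248) (nat_lit 12) (nat_lit 11))
    (@En.n l2026 (nat_lit 1913) (nat_lit 1) (nat_lit 14))
    (@En.n l9984 (nat_lit 8028) (nat_lit 14) (nat_lit 6))
    (@En.n l28 (nat_lit 5382) (nat_lit 12) (nat_lit 9))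
    (@En.n l11 (nat_lit 5780) (nat_lit 15) (nat_lit 2))))
  (@Cl.mk (nat_lit 0x20006000e000b0002000c0009000800050004000e000a00020007000e0008) (nat_lit 0x260475002300a2) (nat_lit 16) Lb.e (@T16.mk En
    (@En.n l11 (nat_lit 5779) (nat_lit 13) (nat_lit 8))
    (@En.n l3983 (nat_lit 4635) (nat_lit 1) (nat_lit 14))
    (@En.n l3984 (nat_lit 5152) (nat_lit 2) (nat_lit 7))
    (@En.n l3 (nat_lit 5781) (nat_lit 3) (nat_lit 2))
    (@En.n l3985 (nat_lit 5306) (nat_lit 4) (nat_lit 10))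
    (@En.n l1191 (nat_lit 4890) (nat_lit 1) (nat_lit 14))
    (@En.n l763 (nat_lit 5839) (nat_lit 2) (nat_lit 4))
    (@En.n l102 (nat_lit 12754) (nat_lit 7) (nat_lit 5))
    (@En.i (nat_lit 4723) (nat_lit 13) (nat_lit 8))
    (@En.n l1573 (nat_lit 5787) (nat_lit 5) (nat_lit 9))
    (@En.n l102 (nat_lit 5764) (nat_lit 11) (nat_lit 12))
    (@En.n l50 (nat_lit 5781) (nat_lit 11) (nat_lit 2))
    (@En.n l217 (nat_lit 5302) (nat_lit 13) (nat_lit 11))
    (@En.n l3986 (nat_lit 2098) (nat_lit 10) (nat_lit 14))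
    (@En.n l810 (nat_lit 7906) (nat_lit 2) (nat_lit 6))
    (@En.n l28 (nat_lit 5781) (nat_lit 15) (nat_lit 2))))
  (@Cl.mk (nat_lit 0x200070006000e000c0002000900080004000e00090002000a0007000e0008) (nat_lit 0x430510a406093) (nat_lit 16) Lb.e (@T16.mk En
    (@En.n l3577 (nat_lit 5779) (nat_lit 5) (nat_lit 8))
    (@En.n l2235 (nat_lit 5383) (nat_lit 7) (nat_lit 14))
    (@En.n l3578 (nat_lit 12378) (nat_lit 2) (nat_lit 7))
    (@En.n l3579 (nat_lit 5765) (nat_lit 3) (nat_lit 10))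
    (@En.n l50 (nat_lit 5782) (nat_lit 4) (nat_lit 2))
    (@En.n l3580 (nat_lit 5792) (nat_lit 5) (nat_lit 9))
    (@En.n l3581 (nat_lit 1902) (nat_lit 1) (nat_lit 14))
    (@En.i (nat_lit 7996) (nat_lit 7) (nat_lit 4))
    (@En.n l2227 (nat_lit 5130) (nat_lit 14) (nat_lit 8))
    (@En.n l2228 (nat_lit 6504) (nat_lit 10) (nat_lit 9))
    (@En.n l11 (nat_lit 5782) (nat_lit 10) (nat_lit 2))
    (@En.n l55 (nat_lit 5707) (nat_lit 12) (nat_lit 12))
    (@En.n l3582 (nat_lit 4890) (nat_lit 8) (nat_lit 14))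
    (@En.i (nat_lit 4132) (nat_lit 14) (nat_lit 6))
    (@En.n l3583 (nat_lit 12736) (nat_lit 3) (nat_lit 7))
    (@En.n l3 (nat_lit 5782) (nat_lit 15) (nat_lit 2))))
  (@Cl.mk (nat_lit 0x20008000b00090009000900070005000b00080007000700070005000e0009) (nat_lit 0x166060036000014) (nat_lit 16) Lb.e (@T16.mk En
    (@En.n l23707 (nat_lit 5849) (nat_lit 14) (nat_lit 9))
    (@En.n l16255 (nat_lit 1906) (nat_lit 1) (nat_lit 14))
    (@En.n l23708 (nat_lit 5860) (nat_lit 2) (nat_lit 5))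
    (@En.n l2172 (nat_lit 5853) (nat_lit 3) (nat_lit 7))
    (@En.n l23709 (nat_lit 5848) (nat_lit 4) (nat_lit 7))
    (@En.i (nat_lit 5858) (nat_lit 5) (nat_lit 7))
    (@En.n l23710 (nat_lit 5850) (nat_lit 6) (nat_lit 8))
    (@En.n l117 (nat_lit 5854) (nat_lit 8) (nat_lit 11))
    (@En.n l23711 (nat_lit 5856) (nat_lit 8) (nat_lit 5))
    (@En.n l742 (nat_lit 5861) (nat_lit 10) (nat_lit 7))
    (@En.n l23712 (nat_lit 5852) (nat_lit 7) (nat_lit 9))
    (@En.n l23713 (nat_lit 5851) (nat_lit 7) (nat_lit 9))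
    (@En.n l23714 (nat_lit 7723) (nat_lit 13) (nat_lit 9))
    (@En.n l23715 (nat_lit 5779) (nat_lit 7) (nat_lit 11))
    (@En.n l23716 (nat_lit 59) (nat_lit 5) (nat_lit 8))
    (@En.n l67 (nat_lit 5783) (nat_lit 15) (nat_lit 2))))
  (@Cl.mk (nat_lit 0x20005000900090005000e000b0002000b000700070005000b0005000e000b) (nat_lit 0x40c0060007076) (nat_lit 16) Lb.e (@T16.mk En
    (@En.n l649 (nat_lit 12381) (nat_lit 8) (nat_lit 11))
    (@En.n l6110 (nat_lit 5785) (nat_lit 1) (nat_lit 14))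
    (@En.n l21546 (nat_lit 5779) (nat_lit 2) (nat_lit 5))
    (@En.n l50 (nat_lit 11341) (nat_lit 3) (nat_lit 11))
    (@En.n l21547 (nat_lit 12597) (nat_lit 4) (nat_lit 5))
    (@En.n l21548 (nat_lit 5786) (nat_lit 5) (nat_lit 7))
    (@En.n l21549 (nat_lit 5586) (nat_lit 6) (nat_lit 7))
    (@En.n l21550 (nat_lit 7254) (nat_lit 8) (nat_lit 11))
    (@En.n l28 (nat_lit 5784) (nat_lit 8) (nat_lit 2))
    (@En.n l21551 (nat_lit 5790) (nat_lit 10) (nat_lit 11))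
    (@En.n l21552 (nat_lit 1555) (nat_lit 11) (nat_lit 14))
    (@En.n l21553 (nat_lit 11156) (nat_lit 2) (nat_lit 5))
    (@En.n l21554 (nat_lit 12376) (nat_lit 13) (nat_lit 9))
    (@En.n l21555 (nat_lit 9236) (nat_lit 14) (nat_lit 9))
    (@En.n l1643 (nat_lit 12545) (nat_lit 5) (nat_lit 5))
    (@En.n l3 (nat_lit 5784) (nat_lit 15) (nat_lit 2))))
  (@Cl.mk (nat_lit 0x200080005000900090006000e000b00020008000700070005000b000e000a) (nat_lit 0x50050c104000765) (nat_lit 16) Lb.e (@T16.mk En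
    (@En.n l9089 (nat_lit 12386) (nat_lit 9) (nat_lit 10))
    (@En.n l9090 (nat_lit 5042) (nat_lit 10) (nat_lit 14))
    (@En.n l2568 (nat_lit 11345) (nat_lit 2) (nat_lit 11))
    (@En.n l9091 (nat_lit 12598) (nat_lit 3) (nat_lit 5))
    (@En.n l9092 (nat_lit 5787) (nat_lit 4) (nat_lit 7))
    (@En.n l9090 (nat_lit 5584) (nat_lit 14) (nat_lit 7))
    (@En.n l9093 (nat_lit 10043) (nat_lit 6) (nat_lit 8))
    (@En.n l18 (nat_lit 5785) (nat_lit 7) (nat_lit 2))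
    (@En.n l9094 (nat_lit 5621) (nat_lit 9) (nat_lit 11))
    (@En.n l9095 (nat_lit 1562) (nat_lit 10) (nat_lit 14))
    (@En.n l9090 (nat_lit 8001) (nat_lit 2) (nat_lit 6))
    (@En.n l4235 (nat_lit 12378) (nat_lit 7) (nat_lit 9))
    (@En.n l9096 (nat_lit 12508) (nat_lit 4) (nat_lit 9))
    (@En.n l9097 (nat_lit 5784) (nat_lit 14) (nat_lit 5))
    (@En.n l9098 (nat_lit 11326) (nat_lit 6) (nat_lit 8))
    (@En.n l11 (nat_lit 5785) (nat_lit 15) (nat_lit 2))))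
  (@Cl.mk (nat_lit 0x20005000e000900020006000e000c0002000c00070004000b0004000e000a) (nat_lit 0xa100c008003035) (nat_lit 16) Lb.e (@T16.mk En
    (@En.n l11065 (nat_lit 12393) (nat_lit 4) (nat_lit 10))
    (@En.n l11066 (nat_lit 5787) (nat_lit 1) (nat_lit 14))
    (@En.n l11067 (nat_lit 5781) (nat_lit 6) (nat_lit 4))
    (@En.n l287 (nat_lit 11368) (nat_lit 3) (nat_lit 11))
    (@En.n l11 (nat_lit 12753) (nat_lit 4) (nat_lit 4))
    (@En.n l11068 (nat_lit 5578) (nat_lit 5) (nat_lit 7))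
    (@En.i (nat_lit 5363) (nat_lit 11) (nat_lit 12))
    (@En.n l207 (nat_lit 5786) (nat_lit 7) (nat_lit 2))
    (@En.n l198 (nat_lit 5789) (nat_lit 9) (nat_lit 12))
    (@En.n l713 (nat_lit 1634) (nat_lit 10) (nat_lit 14))
    (@En.n l11069 (nat_lit 9741) (nat_lit 2) (nat_lit 6))
    (@En.n l3 (nat_lit 5786) (nat_lit 11) (nat_lit 2))
    (@En.n l11070 (nat_lit 5784) (nat_lit 13) (nat_lit 9))
    (@En.n l3633 (nat_lit 9222) (nat_lit 1) (nat_lit 14))
    (@En.i (nat_lit 12547) (nat_lit 2) (nat_lit 5))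
    (@En.n l18 (nat_lit 5786) (nat_lit 15) (nat_lit 2))))
  (@Cl.mk (nat_lit 0x200070005000e000900020007000e000c0002000900070004000b000e0009) (nat_lit 0xb100c00600224) (nat_lit 16) Lb.e (@T16.mk En
    (@En.n l7318 (nat_lit 12388) (nat_lit 5) (nat_lit 9))
    (@En.n l7319 (nat_lit 2117) (nat_lit 7) (nat_lit 14))
    (@En.n l7320 (nat_lit 11369) (nat_lit 2) (nat_lit 11))
    (@En.n l7321 (nat_lit 12752) (nat_lit 3) (nat_lit 4))
    (@En.n l1347 (nat_lit 5582) (nat_lit 14) (nat_lit 7))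
    (@En.n l7322 (nat_lit 11630) (nat_lit 5) (nat_lit 9))
    (@En.n l3 (nat_lit 5787) (nat_lit 6) (nat_lit 2))
    (@En.n l7323 (nat_lit 5788) (nat_lit 13) (nat_lit 12))
    (@En.n l7324 (nat_lit 1632) (nat_lit 9) (nat_lit 14))
    (@En.n l7325 (nat_lit 9745) (nat_lit 2) (nat_lit 7))
    (@En.n l17 (nat_lit 5787) (nat_lit 10) (nat_lit 2))
    (@En.n l6885 (nat_lit 5785) (nat_lit 12) (nat_lit 9))
    (@En.n l7326 (nat_lit 5732) (nat_lit 13) (nat_lit 14))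
    (@En.n l7327 (nat_lit 5786) (nat_lit 14) (nat_lit 5))
    (@En.n l7328 (nat_lit 5791) (nat_lit 3) (nat_lit 7))
    (@En.n l7 (nat_lit 5787) (nat_lit 15) (nat_lit 2))))
  (@Cl.mk (nat_lit 0x20007000c000c0008000600040004000b000e0009000200080005000e000a) (nat_lit 0xa13000321040b1) (nat_lit 16) Lb.e (@T16.mk En
    (@En.i (nat_lit 5621) (nat_lit 12) (nat_lit 10))
    (@En.n l3447 (nat_lit 5731) (nat_lit 1) (nat_lit 14))
    (@En.n l17999 (nat_lit 5789) (nat_lit 14) (nat_lit 5))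
    (@En.n l10003 (nat_lit 11336) (nat_lit 3) (nat_lit 8))
    (@En.n l17 (nat_lit 5788) (nat_lit 4) (nat_lit 2))
    (@En.n l18000 (nat_lit 5309) (nat_lit 5) (nat_lit 9))
    (@En.i (nat_lit 4906) (nat_lit 7) (nat_lit 14))
    (@En.n l18001 (nat_lit 9323) (nat_lit 2) (nat_lit 11))
    (@En.n l18002 (nat_lit 5787) (nat_lit 3) (nat_lit 4))
    (@En.n l18001 (nat_lit 9220) (nat_lit 4) (nat_lit 4))
    (@En.i (nat_lit 4489) (nat_lit 5) (nat_lit 6))
    (@En.n l18003 (nat_lit 11632) (nat_lit 6) (nat_lit 8))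
    (@En.n l644 (nat_lit 5620) (nat_lit 13) (nat_lit 12))
    (@En.i (nat_lit 6895) (nat_lit 9) (nat_lit 12))
    (@En.n l287 (nat_lit 9750) (nat_lit 10) (nat_lit 7))
    (@En.n l11 (nat_lit 5788) (nat_lit 15) (nat_lit 2))))
  (@Cl.mk (nat_lit 0x20005000e000a00020006000c000c000b000600040004000b0005000e000a) (nat_lit 0xb200a060003031) (nat_lit 16) Lb.e (@T16.mk En
    (@En.n l24695 (nat_lit 5308) (nat_lit 4) (nat_lit 10))
    (@En.n l11589 (nat_lit 5788) (nat_lit 6) (nat_lit 14))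
    (@En.n l4937 (nat_lit 5302) (nat_lit 6) (nat_lit 5))
    (@En.n l4936 (nat_lit 9322) (nat_lit 3) (nat_lit 11))
    (@En.i (nat_lit 5786) (nat_lit 4) (nat_lit 4))
    (@En.n l4936 (nat_lit 9217) (nat_lit 5) (nat_lit 4))
    (@En.n l24696 (nat_lit 5576) (nat_lit 6) (nat_lit 6))
    (@En.n l55 (nat_lit 12754) (nat_lit 12) (nat_lit 11))
    (@En.n l1783 (nat_lit 9216) (nat_lit 9) (nat_lit 12))
    (@En.n l766 (nat_lit 6894) (nat_lit 10) (nat_lit 12))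
    (@En.n l1782 (nat_lit 9743) (nat_lit 11) (nat_lit 6))
    (@En.n l3 (nat_lit 5789) (nat_lit 11) (nat_lit 2))
    (@En.n l766 (nat_lit 5790) (nat_lit 13) (nat_lit 10))
    (@En.n l16332 (nat_lit 8967) (nat_lit 1) (nat_lit 14))
    (@En.i (nat_lit 11340) (nat_lit 2) (nat_lit 5))
    (@En.n l18 (nat_lit 5789) (nat_lit 15) (nat_lit 2))))
  (@Cl.mk (nat_lit 0x20005000a000a0005000b000b000a0006000600050005000b0006000e000b) (nat_lit 0x13091300005047) (nat_lit 16) Lb.e (@T16.mk En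
    (@En.n l34212 (nat_lit 12000) (nat_lit 1) (nat_lit 11))
    (@En.n l10903 (nat_lit 5621) (nat_lit 1) (nat_lit 14))
    (@En.n l34213 (nat_lit 5730) (nat_lit 2) (nat_lit 6))
    (@En.n l34214 (nat_lit 9326) (nat_lit 3) (nat_lit 11))
    (@En.n l34215 (nat_lit 5784) (nat_lit 4) (nat_lit 5))
    (@En.n l22969 (nat_lit 12642) (nat_lit 5) (nat_lit 5))
    (@En.n l5761 (nat_lit 5789) (nat_lit 6) (nat_lit 6))
    (@En.n l4153 (nat_lit 5589) (nat_lit 7) (nat_lit 6))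
    (@En.n l34216 (nat_lit 12608) (nat_lit 9) (nat_lit 10))
    (@En.n l34217 (nat_lit 5619) (nat_lit 10) (nat_lit 11))
    (@En.i (nat_lit 6887) (nat_lit 11) (nat_lit 11))
    (@En.n l22972 (nat_lit 11154) (nat_lit 12) (nat_lit 5))
    (@En.n l34218 (nat_lit 12373) (nat_lit 13) (nat_lit 10))
    (@En.n l7317 (nat_lit 5673) (nat_lit 14) (nat_lit 10))
    (@En.n l19860 (nat_lit 11653) (nat_lit 13) (nat_lit 5))
    (@En.n l17 (nat_lit 5790) (nat_lit 15) (nat_lit 2))))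
  (@Cl.mk (nat_lit 0x20006000e000b00020009000c00080005000c0004000a00070004000e0008) (nat_lit 0xb40494030400b0) (nat_lit 16) Lb.e (@T16.mk En
    (@En.n l7394 (nat_lit 11326) (nat_lit 4) (nat_lit 8))
    (@En.n l601 (nat_lit 12843) (nat_lit 1) (nat_lit 14))
    (@En.n l7394 (nat_lit 11343) (nat_lit 2) (nat_lit 4))
    (@En.n l61 (nat_lit 11320) (nat_lit 7) (nat_lit 7))
    (@En.n l18004 (nat_lit 12297) (nat_lit 4) (nat_lit 10))
    (@En.i (nat_lit 5852) (nat_lit 5) (nat_lit 4))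
    (@En.n l7490 (nat_lit 11371) (nat_lit 7) (nat_lit 12))
    (@En.n l4155 (nat_lit 11166) (nat_lit 7) (nat_lit 5))
    (@En.n l5076 (nat_lit 9157) (nat_lit 13) (nat_lit 8))
    (@En.n l10038 (nat_lit 5786) (nat_lit 6) (nat_lit 12))
    (@En.n l18005 (nat_lit 11622) (nat_lit 11) (nat_lit 9))
    (@En.n l3 (nat_lit 5791) (nat_lit 11) (nat_lit 2))
    (@En.i (nat_lit 11336) (nat_lit 13) (nat_lit 11))
    (@En.n l18006 (nat_lit 1631) (nat_lit 1) (nat_lit 14))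
    (@En.n l18007 (nat_lit 10853) (nat_lit 2) (nat_lit 6))
    (@En.n l50 (nat_lit 5791) (nat_lit 15) (nat_lit 2))))
noncomputable def a362 : T16 Cl := @T16.mk Cl
  (@Cl.mk (nat_lit 0x2000700070007000e000c0002000a000900040009000900090006000e0007) (nat_lit 0x450530314080) (nat_lit 16) Lb.e (@T16.mk En
    (@En.n l10054 (nat_lit 5730) (nat_lit 6) (nat_lit 7))
    (@En.n l5 (nat_lit 5259) (nat_lit 8) (nat_lit 14))
    (@En.n l4021 (nat_lit 12375) (nat_lit 2) (nat_lit 6))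
    (@En.n l1865 (nat_lit 5794) (nat_lit 3) (nat_lit 9))
    (@En.n l152 (nat_lit 5716) (nat_lit 7) (nat_lit 9))
    (@En.n l117 (nat_lit 2926) (nat_lit 5) (nat_lit 9))
    (@En.n l10055 (nat_lit 5796) (nat_lit 6) (nat_lit 4))
    (@En.n l217 (nat_lit 2959) (nat_lit 14) (nat_lit 9))
    (@En.i (nat_lit 6495) (nat_lit 9) (nat_lit 10))
    (@En.n l28 (nat_lit 5792) (nat_lit 9) (nat_lit 2))
    (@En.n l2221 (nat_lit 5714) (nat_lit 11) (nat_lit 12))
    (@En.n l1578 (nat_lit 4889) (nat_lit 12) (nat_lit 14))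
    (@En.n l107 (nat_lit 5732) (nat_lit 9) (nat_lit 7))
    (@En.n l10056 (nat_lit 5782) (nat_lit 14) (nat_lit 7))
    (@En.n l10057 (nat_lit 12738) (nat_lit 4) (nat_lit 7))
    (@En.n l17 (nat_lit 5792) (nat_lit 15) (nat_lit 2))))
  (@Cl.mk (nat_lit 0x20006000e00070002000c000c000a000900040004000a00090006000e0007) (nat_lit 0x40045210044040) (nat_lit 16) Lb.e (@T16.mk En
    (@En.i (nat_lit 5740) (nat_lit 4) (nat_lit 7))
    (@En.n l134 (nat_lit 5068) (nat_lit 1) (nat_lit 14))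
    (@En.n l1055 (nat_lit 12275) (nat_lit 2) (nat_lit 6))
    (@En.n l217 (nat_lit 4510) (nat_lit 3) (nat_lit 9))
    (@En.n l476 (nat_lit 6008) (nat_lit 4) (nat_lit 10))
    (@En.n l152 (nat_lit 5794) (nat_lit 5) (nat_lit 4))
    (@En.n l7630 (nat_lit 5798) (nat_lit 6) (nat_lit 4))
    (@En.n l55 (nat_lit 5447) (nat_lit 12) (nat_lit 9))
    (@En.n l619 (nat_lit 6439) (nat_lit 9) (nat_lit 10))
    (@En.n l97 (nat_lit 5806) (nat_lit 10) (nat_lit 12))
    (@En.i (nat_lit 7544) (nat_lit 11) (nat_lit 12))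
    (@En.n l17 (nat_lit 5793) (nat_lit 11) (nat_lit 2))
    (@En.i (nat_lit 5714) (nat_lit 13) (nat_lit 7))
    (@En.n l5 (nat_lit 5762) (nat_lit 1) (nat_lit 14))
    (@En.n l5934 (nat_lit 12720) (nat_lit 2) (nat_lit 6))
    (@En.n l7 (nat_lit 5793) (nat_lit 15) (nat_lit 2))))
  (@Cl.mk (nat_lit 0x20006000e00070002000e000c0002000b000a0004000a00090005000e0006) (nat_lit 0x40055074023070) (nat_lit 16) Lb.e (@T16.mk En
    (@En.n l5246 (nat_lit 5739) (nat_lit 7) (nat_lit 6))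
    (@En.n l134 (nat_lit 5073) (nat_lit 1) (nat_lit 14))
    (@En.n l2254 (nat_lit 12276) (nat_lit 2) (nat_lit 5))
    (@En.n l2579 (nat_lit 4517) (nat_lit 11) (nat_lit 9))
    (@En.n l998 (nat_lit 2965) (nat_lit 4) (nat_lit 10))
    (@En.i (nat_lit 5795) (nat_lit 5) (nat_lit 4))
    (@En.n l55 (nat_lit 5445) (nat_lit 14) (nat_lit 10))
    (@En.i (nat_lit 6493) (nat_lit 8) (nat_lit 11))
    (@En.n l3 (nat_lit 5794) (nat_lit 8) (nat_lit 2))
    (@En.i (nat_lit 5793) (nat_lit 10) (nat_lit 12))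
    (@En.i (nat_lit 7172) (nat_lit 1) (nat_lit 14))
    (@En.n l17 (nat_lit 5794) (nat_lit 11) (nat_lit 2))
    (@En.n l2805 (nat_lit 5792) (nat_lit 13) (nat_lit 7))
    (@En.n l998 (nat_lit 5760) (nat_lit 1) (nat_lit 14))
    (@En.n l5934 (nat_lit 6376) (nat_lit 5) (nat_lit 6))
    (@En.n l7 (nat_lit 5794) (nat_lit 15) (nat_lit 2))))
  (@Cl.mk (nat_lit 0x20006000e00070002000d000c00080003000c0004000a00090004000e0008) (nat_lit 0x10056604071081) (nat_lit 16) Lb.e (@T16.mk En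
    (@En.n l21237 (nat_lit 5602) (nat_lit 4) (nat_lit 8))
    (@En.n l134 (nat_lit 6382) (nat_lit 1) (nat_lit 14))
    (@En.n l2254 (nat_lit 11662) (nat_lit 2) (nat_lit 4))
    (@En.n l2579 (nat_lit 4516) (nat_lit 3) (nat_lit 9))
    (@En.n l21052 (nat_lit 12098) (nat_lit 4) (nat_lit 10))
    (@En.n l117 (nat_lit 5793) (nat_lit 5) (nat_lit 4))
    (@En.i (nat_lit 6494) (nat_lit 7) (nat_lit 12))
    (@En.n l7630 (nat_lit 5797) (nat_lit 7) (nat_lit 3))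
    (@En.n l21052 (nat_lit 7721) (nat_lit 0) (nat_lit 8))
    (@En.n l7630 (nat_lit 5798) (nat_lit 10) (nat_lit 12))
    (@En.i (nat_lit 12263) (nat_lit 11) (nat_lit 13))
    (@En.n l17 (nat_lit 5795) (nat_lit 11) (nat_lit 2))
    (@En.n l35203 (nat_lit 5796) (nat_lit 13) (nat_lit 7))
    (@En.n l998 (nat_lit 5369) (nat_lit 1) (nat_lit 14))
    (@En.n l5934 (nat_lit 12693) (nat_lit 2) (nat_lit 6))
    (@En.n l7 (nat_lit 5795) (nat_lit 15) (nat_lit 2))))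
  (@Cl.mk (nat_lit 0x2000700070007000d000c00070003000b00040009000900090005000e0009) (nat_lit 0x460040012091) (nat_lit 16) Lb.e (@T16.mk En
    (@En.n l19354 (nat_lit 5608) (nat_lit 8) (nat_lit 9))
    (@En.n l6444 (nat_lit 5909) (nat_lit 1) (nat_lit 14))
    (@En.n l19396 (nat_lit 11533) (nat_lit 2) (nat_lit 5))
    (@En.n l19397 (nat_lit 5795) (nat_lit 3) (nat_lit 9))
    (@En.n l19398 (nat_lit 5718) (nat_lit 7) (nat_lit 9))
    (@En.n l19399 (nat_lit 10355) (nat_lit 5) (nat_lit 9))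
    (@En.n l19400 (nat_lit 5714) (nat_lit 6) (nat_lit 4))
    (@En.n l287 (nat_lit 6497) (nat_lit 8) (nat_lit 11))
    (@En.n l11 (nat_lit 5799) (nat_lit 8) (nat_lit 3))
    (@En.n l3580 (nat_lit 8103) (nat_lit 0) (nat_lit 7))
    (@En.n l55 (nat_lit 5719) (nat_lit 11) (nat_lit 12))
    (@En.n l2342 (nat_lit 11559) (nat_lit 12) (nat_lit 13))
    (@En.n l396 (nat_lit 5805) (nat_lit 9) (nat_lit 7))
    (@En.n l644 (nat_lit 7996) (nat_lit 14) (nat_lit 7))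
    (@En.n l6277 (nat_lit 12689) (nat_lit 5) (nat_lit 7))
    (@En.n l3 (nat_lit 5796) (nat_lit 15) (nat_lit 2))))
  (@Cl.mk (nat_lit 0x20006000e00070002000d0007000d0003000c0003000a00090004000e0009) (nat_lit 0x10060304071061) (nat_lit 16) Lb.e (@T16.mk En
    (@En.n l8907 (nat_lit 5601) (nat_lit 4) (nat_lit 9))
    (@En.n l8813 (nat_lit 6383) (nat_lit 1) (nat_lit 14))
    (@En.n l3791 (nat_lit 11669) (nat_lit 2) (nat_lit 4))
    (@En.n l217 (nat_lit 2957) (nat_lit 3) (nat_lit 9))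
    (@En.n l1347 (nat_lit 12096) (nat_lit 4) (nat_lit 10))
    (@En.n l117 (nat_lit 5798) (nat_lit 5) (nat_lit 3))
    (@En.n l7844 (nat_lit 5732) (nat_lit 7) (nat_lit 12))
    (@En.n l18866 (nat_lit 5795) (nat_lit 7) (nat_lit 3))
    (@En.i (nat_lit 4506) (nat_lit 9) (nat_lit 13))
    (@En.i (nat_lit 5800) (nat_lit 14) (nat_lit 7))
    (@En.n l4739 (nat_lit 12261) (nat_lit 11) (nat_lit 13))
    (@En.n l17 (nat_lit 5797) (nat_lit 11) (nat_lit 2))
    (@En.n l18494 (nat_lit 5799) (nat_lit 13) (nat_lit 7))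
    (@En.n l5 (nat_lit 5368) (nat_lit 1) (nat_lit 14))
    (@En.n l2967 (nat_lit 12669) (nat_lit 2) (nat_lit 6))
    (@En.n l7 (nat_lit 5797) (nat_lit 15) (nat_lit 2))))
  (@Cl.mk (nat_lit 0x20006000e00070002000c0007000d000b00040003000a00090005000e0009) (nat_lit 0x10050360081055) (nat_lit 16) Lb.e (@T16.mk En
    (@En.n l12632 (nat_lit 5600) (nat_lit 4) (nat_lit 9))
    (@En.n l1819 (nat_lit 6384) (nat_lit 1) (nat_lit 14))
    (@En.n l24844 (nat_lit 7733) (nat_lit 2) (nat_lit 5))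
    (@En.n l217 (nat_lit 4513) (nat_lit 3) (nat_lit 9))
    (@En.n l4477 (nat_lit 8036) (nat_lit 4) (nat_lit 10))
    (@En.n l152 (nat_lit 5797) (nat_lit 5) (nat_lit 3))
    (@En.n l20299 (nat_lit 5806) (nat_lit 6) (nat_lit 4))
    (@En.n l13443 (nat_lit 6443) (nat_lit 8) (nat_lit 11))
    (@En.i (nat_lit 4505) (nat_lit 9) (nat_lit 13))
    (@En.n l20299 (nat_lit 5801) (nat_lit 14) (nat_lit 7))
    (@En.i (nat_lit 7545) (nat_lit 11) (nat_lit 12))
    (@En.n l17 (nat_lit 5798) (nat_lit 11) (nat_lit 2))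
    (@En.n l24845 (nat_lit 5719) (nat_lit 13) (nat_lit 7))
    (@En.n l5 (nat_lit 5370) (nat_lit 1) (nat_lit 14))
    (@En.n l24844 (nat_lit 12709) (nat_lit 2) (nat_lit 6))
    (@En.n l7 (nat_lit 5798) (nat_lit 15) (nat_lit 2))))
  (@Cl.mk (nat_lit 0x2000700070007000d0006000d0003000b00030009000900090005000e000a) (nat_lit 0x508040012082) (nat_lit 16) Lb.e (@T16.mk En
    (@En.i (nat_lit 5606) (nat_lit 10) (nat_lit 10))
    (@En.n l6444 (nat_lit 5910) (nat_lit 1) (nat_lit 14))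
    (@En.n l1353 (nat_lit 11536) (nat_lit 2) (nat_lit 5))
    (@En.n l12845 (nat_lit 5797) (nat_lit 3) (nat_lit 9))
    (@En.i (nat_lit 5721) (nat_lit 7) (nat_lit 9))
    (@En.i (nat_lit 12092) (nat_lit 5) (nat_lit 9))
    (@En.i (nat_lit 5719) (nat_lit 6) (nat_lit 3))
    (@En.i (nat_lit 5729) (nat_lit 0) (nat_lit 11))
    (@En.i (nat_lit 5796) (nat_lit 8) (nat_lit 3))
    (@En.n l12846 (nat_lit 3096) (nat_lit 10) (nat_lit 13))
    (@En.n l117 (nat_lit 5802) (nat_lit 3) (nat_lit 6))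
    (@En.n l6839 (nat_lit 12266) (nat_lit 12) (nat_lit 13))
    (@En.n l396 (nat_lit 6970) (nat_lit 9) (nat_lit 7))
    (@En.n l644 (nat_lit 7994) (nat_lit 14) (nat_lit 7))
    (@En.n l3098 (nat_lit 12690) (nat_lit 7) (nat_lit 7))
    (@En.n l3 (nat_lit 5799) (nat_lit 15) (nat_lit 2))))
  (@Cl.mk (nat_lit 0x20007000d0008000c0003000900080004000d0009000800030007000e0008) (nat_lit 0x90306105320080) (nat_lit 16) Lb.e (@T16.mk En
    (@En.n l16419 (nat_lit 5802) (nat_lit 5) (nat_lit 8))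
    (@En.n l31543 (nat_lit 5414) (nat_lit 1) (nat_lit 14))
    (@En.n l2967 (nat_lit 11300) (nat_lit 2) (nat_lit 7))
    (@En.n l31544 (nat_lit 5804) (nat_lit 3) (nat_lit 3))
    (@En.n l20299 (nat_lit 5795) (nat_lit 0) (nat_lit 8))
    (@En.n l8907 (nat_lit 6548) (nat_lit 5) (nat_lit 9))
    (@En.n l31545 (nat_lit 6385) (nat_lit 7) (nat_lit 13))
    (@En.n l31546 (nat_lit 7551) (nat_lit 7) (nat_lit 4))
    (@En.n l10293 (nat_lit 5402) (nat_lit 8) (nat_lit 8))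
    (@En.n l6070 (nat_lit 11678) (nat_lit 10) (nat_lit 9))
    (@En.n l24618 (nat_lit 5801) (nat_lit 10) (nat_lit 3))
    (@En.n l31547 (nat_lit 4127) (nat_lit 12) (nat_lit 12))
    (@En.n l8908 (nat_lit 7186) (nat_lit 13) (nat_lit 8))
    (@En.i (nat_lit 7434) (nat_lit 14) (nat_lit 13))
    (@En.n l18949 (nat_lit 9946) (nat_lit 3) (nat_lit 7))
    (@En.n l17 (nat_lit 5800) (nat_lit 15) (nat_lit 2))))
  (@Cl.mk (nat_lit 0x20007000d000b00090003000900080005000d0009000700030007000e0008) (nat_lit 0x55307605200011) (nat_lit 16) Lb.e (@T16.mk En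
    (@En.n l18738 (nat_lit 63) (nat_lit 5) (nat_lit 8))
    (@En.n l5 (nat_lit 1745) (nat_lit 1) (nat_lit 14))
    (@En.n l5934 (nat_lit 11297) (nat_lit 2) (nat_lit 7))
    (@En.n l32817 (nat_lit 5803) (nat_lit 3) (nat_lit 3))
    (@En.i (nat_lit 5793) (nat_lit 0) (nat_lit 7))
    (@En.n l25677 (nat_lit 6549) (nat_lit 5) (nat_lit 9))
    (@En.n l134 (nat_lit 5439) (nat_lit 7) (nat_lit 13))
    (@En.n l23891 (nat_lit 10855) (nat_lit 7) (nat_lit 5))
    (@En.n l26887 (nat_lit 5405) (nat_lit 8) (nat_lit 8))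
    (@En.n l25678 (nat_lit 12793) (nat_lit 10) (nat_lit 9))
    (@En.n l35249 (nat_lit 5800) (nat_lit 10) (nat_lit 3))
    (@En.n l55 (nat_lit 5731) (nat_lit 0) (nat_lit 9))
    (@En.n l619 (nat_lit 5294) (nat_lit 13) (nat_lit 11))
    (@En.n l1596 (nat_lit 7435) (nat_lit 14) (nat_lit 13))
    (@En.n l26887 (nat_lit 9945) (nat_lit 3) (nat_lit 7))
    (@En.n l17 (nat_lit 5801) (nat_lit 15) (nat_lit 2))))
  (@Cl.mk (nat_lit 0x30008000800080005000d000a000900030008000800080006000d0007000b) (nat_lit 0x502094205620803) (nat_lit 16) Lb.e (@T16.mk En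
    (@En.n l649 (nat_lit 4134) (nat_lit 0) (nat_lit 11))
    (@En.n l28344 (nat_lit 7735) (nat_lit 10) (nat_lit 7))
    (@En.i (nat_lit 5437) (nat_lit 11) (nat_lit 13))
    (@En.n l34327 (nat_lit 11407) (nat_lit 3) (nat_lit 6))
    (@En.n l396 (nat_lit 5803) (nat_lit 8) (nat_lit 8))
    (@En.n l644 (nat_lit 7730) (nat_lit 8) (nat_lit 8))
    (@En.n l7658 (nat_lit 11302) (nat_lit 6) (nat_lit 8))
    (@En.n l1865 (nat_lit 52) (nat_lit 7) (nat_lit 3))
    (@En.n l619 (nat_lit 5796) (nat_lit 0) (nat_lit 9))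
    (@En.n l3866 (nat_lit 5167) (nat_lit 10) (nat_lit 10))
    (@En.n l6444 (nat_lit 5441) (nat_lit 11) (nat_lit 13))
    (@En.n l644 (nat_lit 11402) (nat_lit 3) (nat_lit 5))
    (@En.n l31532 (nat_lit 5800) (nat_lit 8) (nat_lit 8))
    (@En.n l42654 (nat_lit 7729) (nat_lit 8) (nat_lit 8))
    (@En.n l28344 (nat_lit 11473) (nat_lit 6) (nat_lit 8))
    (@En.i (nat_lit 63) (nat_lit 7) (nat_lit 3))))
  (@Cl.mk (nat_lit 0x20006000d000b000a0003000900080005000d0006000a00030007000e0008) (nat_lit 0x563071050300a1) (nat_lit 16) Lb.e (@T16.mk En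
    (@En.n l50 (nat_lit 5802) (nat_lit 13) (nat_lit 8))
    (@En.n l33649 (nat_lit 5416) (nat_lit 1) (nat_lit 14))
    (@En.n l29153 (nat_lit 11730) (nat_lit 2) (nat_lit 7))
    (@En.n l17194 (nat_lit 5801) (nat_lit 3) (nat_lit 3))
    (@En.n l11706 (nat_lit 5838) (nat_lit 4) (nat_lit 10))
    (@En.i (nat_lit 7177) (nat_lit 5) (nat_lit 6))
    (@En.n l11245 (nat_lit 5440) (nat_lit 7) (nat_lit 13))
    (@En.n l12811 (nat_lit 10856) (nat_lit 7) (nat_lit 5))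
    (@En.i (nat_lit 5409) (nat_lit 8) (nat_lit 8))
    (@En.n l10571 (nat_lit 12795) (nat_lit 10) (nat_lit 9))
    (@En.n l12811 (nat_lit 5804) (nat_lit 10) (nat_lit 3))
    (@En.n l619 (nat_lit 5805) (nat_lit 12) (nat_lit 10))
    (@En.n l33650 (nat_lit 5293) (nat_lit 13) (nat_lit 11))
    (@En.n l403 (nat_lit 7432) (nat_lit 14) (nat_lit 13))
    (@En.i (nat_lit 10500) (nat_lit 3) (nat_lit 6))
    (@En.n l18 (nat_lit 5803) (nat_lit 15) (nat_lit 2))))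
  (@Cl.mk (nat_lit 0x20006000d0009000c0003000900080004000d0007000a00030007000e0008) (nat_lit 0x66307605030081) (nat_lit 16) Lb.e (@T16.mk En
    (@En.n l2435 (nat_lit 52) (nat_lit 5) (nat_lit 8))
    (@En.n l3633 (nat_lit 5415) (nat_lit 1) (nat_lit 14))
    (@En.i (nat_lit 11731) (nat_lit 2) (nat_lit 7))
    (@En.n l17878 (nat_lit 5800) (nat_lit 3) (nat_lit 3))
    (@En.n l4484 (nat_lit 5839) (nat_lit 0) (nat_lit 10))
    (@En.n l11065 (nat_lit 7542) (nat_lit 5) (nat_lit 7))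
    (@En.n l17879 (nat_lit 6534) (nat_lit 7) (nat_lit 13))
    (@En.i (nat_lit 7548) (nat_lit 7) (nat_lit 4))
    (@En.n l4484 (nat_lit 5406) (nat_lit 8) (nat_lit 8))
    (@En.n l2228 (nat_lit 11683) (nat_lit 10) (nat_lit 9))
    (@En.n l15990 (nat_lit 5803) (nat_lit 10) (nat_lit 3))
    (@En.i (nat_lit 4132) (nat_lit 12) (nat_lit 12))
    (@En.n l4961 (nat_lit 7543) (nat_lit 13) (nat_lit 9))
    (@En.n l17878 (nat_lit 7433) (nat_lit 14) (nat_lit 13))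
    (@En.n l2436 (nat_lit 10499) (nat_lit 3) (nat_lit 6))
    (@En.n l3 (nat_lit 5804) (nat_lit 15) (nat_lit 2))))
  (@Cl.mk (nat_lit 0x20006000e000a000200080007000d000c00060003000a00040008000e0009) (nat_lit 0xa2000370040002) (nat_lit 16) Lb.e (@T16.mk En
    (@En.n l50 (nat_lit 5796) (nat_lit 4) (nat_lit 9))
    (@En.n l19621 (nat_lit 6968) (nat_lit 6) (nat_lit 14))
    (@En.n l7882 (nat_lit 11694) (nat_lit 2) (nat_lit 8))
    (@En.n l2809 (nat_lit 5731) (nat_lit 7) (nat_lit 4))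
    (@En.n l287 (nat_lit 6502) (nat_lit 4) (nat_lit 10))
    (@En.n l11 (nat_lit 6970) (nat_lit 5) (nat_lit 3))
    (@En.n l19622 (nat_lit 8104) (nat_lit 6) (nat_lit 6))
    (@En.n l19623 (nat_lit 6980) (nat_lit 8) (nat_lit 12))
    (@En.n l19621 (nat_lit 6769) (nat_lit 9) (nat_lit 13))
    (@En.i (nat_lit 6974) (nat_lit 14) (nat_lit 7))
    (@En.n l6081 (nat_lit 12691) (nat_lit 11) (nat_lit 8))
    (@En.n l3 (nat_lit 5805) (nat_lit 11) (nat_lit 2))
    (@En.n l17194 (nat_lit 5296) (nat_lit 13) (nat_lit 10))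
    (@En.n l403 (nat_lit 6564) (nat_lit 1) (nat_lit 14))
    (@En.n l1353 (nat_lit 8627) (nat_lit 2) (nat_lit 6))
    (@En.n l18 (nat_lit 5805) (nat_lit 15) (nat_lit 2))))
  (@Cl.mk (nat_lit 0x20006000e00070002000c00090008000e00040002000a00090007000e0008) (nat_lit 0x400411b0054091) (nat_lit 16) Lb.e (@T16.mk En
    (@En.n l13145 (nat_lit 5746) (nat_lit 4) (nat_lit 8))
    (@En.n l13146 (nat_lit 5067) (nat_lit 1) (nat_lit 14))
    (@En.n l1055 (nat_lit 10099) (nat_lit 2) (nat_lit 7))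
    (@En.n l7162 (nat_lit 4507) (nat_lit 14) (nat_lit 9))
    (@En.n l7705 (nat_lit 6009) (nat_lit 4) (nat_lit 10))
    (@En.n l67 (nat_lit 5806) (nat_lit 5) (nat_lit 2))
    (@En.n l107 (nat_lit 5793) (nat_lit 6) (nat_lit 4))
    (@En.n l7630 (nat_lit 4504) (nat_lit 8) (nat_lit 14))
    (@En.n l55 (nat_lit 5444) (nat_lit 2) (nat_lit 8))
    (@En.i (nat_lit 3168) (nat_lit 10) (nat_lit 9))
    (@En.n l830 (nat_lit 5290) (nat_lit 11) (nat_lit 12))
    (@En.n l17 (nat_lit 5806) (nat_lit 11) (nat_lit 2))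
    (@En.n l13147 (nat_lit 5715) (nat_lit 13) (nat_lit 7))
    (@En.n l830 (nat_lit 5807) (nat_lit 8) (nat_lit 14))
    (@En.n l1055 (nat_lit 12721) (nat_lit 8) (nat_lit 6))
    (@En.n l7 (nat_lit 5806) (nat_lit 15) (nat_lit 2))))
  (@Cl.mk (nat_lit 0x20007000a0007000e00080002000e000600020009000c00090008000e0004) (nat_lit 0x60510300255670) (nat_lit 16) Lb.e (@T16.mk En
    (@En.n l3596 (nat_lit 5762) (nat_lit 9) (nat_lit 4))
    (@En.n l3213 (nat_lit 3113) (nat_lit 11) (nat_lit 14))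
    (@En.n l77 (nat_lit 704) (nat_lit 2) (nat_lit 8))
    (@En.n l5891 (nat_lit 5041) (nat_lit 3) (nat_lit 9))
    (@En.i (nat_lit 5809) (nat_lit 6) (nat_lit 12))
    (@En.n l13135 (nat_lit 5763) (nat_lit 12) (nat_lit 9))
    (@En.n l17 (nat_lit 5807) (nat_lit 6) (nat_lit 2))
    (@En.n l13136 (nat_lit 5763) (nat_lit 14) (nat_lit 6))
    (@En.n l9025 (nat_lit 7897) (nat_lit 1) (nat_lit 14))
    (@En.n l50 (nat_lit 5807) (nat_lit 9) (nat_lit 2))
    (@En.i (nat_lit 47) (nat_lit 3) (nat_lit 8))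
    (@En.n l5050 (nat_lit 6029) (nat_lit 12) (nat_lit 14))
    (@En.n l810 (nat_lit 4961) (nat_lit 13) (nat_lit 7))
    (@En.n l5891 (nat_lit 4508) (nat_lit 14) (nat_lit 10))
    (@En.n l2037 (nat_lit 5762) (nat_lit 7) (nat_lit 7))
    (@En.n l107 (nat_lit 5807) (nat_lit 15) (nat_lit 2))))
noncomputable def a363 : T16 Cl := @T16.mk Cl
  (@Cl.mk (nat_lit 0x2000a0007000e00080002000e00060002000c000b000900080004000e0005) (nat_lit 0x609206007571080) (nat_lit 16) Lb.e (@T16.mk En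
    (@En.n l117 (nat_lit 5202) (nat_lit 8) (nat_lit 5))
    (@En.n l2691 (nat_lit 5807) (nat_lit 1) (nat_lit 14))
    (@En.n l936 (nat_lit 5813) (nat_lit 2) (nat_lit 4))
    (@En.n l77 (nat_lit 4792) (nat_lit 3) (nat_lit 8))
    (@En.n l6454 (nat_lit 12512) (nat_lit 4) (nat_lit 9))
    (@En.n l936 (nat_lit 5810) (nat_lit 14) (nat_lit 11))
    (@En.i (nat_lit 6950) (nat_lit 12) (nat_lit 12))
    (@En.n l17 (nat_lit 5808) (nat_lit 7) (nat_lit 2))
    (@En.n l28669 (nat_lit 5305) (nat_lit 14) (nat_lit 6))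
    (@En.n l21080 (nat_lit 6892) (nat_lit 1) (nat_lit 14))
    (@En.n l50 (nat_lit 5808) (nat_lit 10) (nat_lit 2))
    (@En.i (nat_lit 5746) (nat_lit 12) (nat_lit 8))
    (@En.n l601 (nat_lit 5203) (nat_lit 1) (nat_lit 14))
    (@En.n l4473 (nat_lit 5246) (nat_lit 14) (nat_lit 7))
    (@En.n l614 (nat_lit 6544) (nat_lit 3) (nat_lit 10))
    (@En.n l11 (nat_lit 5808) (nat_lit 15) (nat_lit 2))))
  (@Cl.mk (nat_lit 0x2000a0008000e00090002000e00060002000c00080007000d0004000e0003) (nat_lit 0x524209004500090) (nat_lit 16) Lb.e (@T16.mk En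
    (@En.n l117 (nat_lit 5810) (nat_lit 8) (nat_lit 3))
    (@En.i (nat_lit 12961) (nat_lit 0) (nat_lit 14))
    (@En.n l2576 (nat_lit 5808) (nat_lit 2) (nat_lit 4))
    (@En.n l3213 (nat_lit 8983) (nat_lit 12) (nat_lit 13))
    (@En.n l77 (nat_lit 4791) (nat_lit 4) (nat_lit 7))
    (@En.i (nat_lit 5815) (nat_lit 14) (nat_lit 8))
    (@En.i (nat_lit 7460) (nat_lit 12) (nat_lit 12))
    (@En.n l17 (nat_lit 5809) (nat_lit 7) (nat_lit 2))
    (@En.n l22217 (nat_lit 4818) (nat_lit 14) (nat_lit 6))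
    (@En.n l1013 (nat_lit 7335) (nat_lit 1) (nat_lit 14))
    (@En.n l50 (nat_lit 5809) (nat_lit 10) (nat_lit 2))
    (@En.i (nat_lit 3294) (nat_lit 3) (nat_lit 9))
    (@En.n l601 (nat_lit 2458) (nat_lit 13) (nat_lit 14))
    (@En.i (nat_lit 5317) (nat_lit 14) (nat_lit 8))
    (@En.i (nat_lit 6539) (nat_lit 3) (nat_lit 10))
    (@En.n l11 (nat_lit 5809) (nat_lit 15) (nat_lit 2))))
  (@Cl.mk (nat_lit 0x2000b00080007000d000d000500030003000a0008000e00090002000e0006) (nat_lit 0x460010005532090) (nat_lit 16) Lb.e (@T16.mk En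
    (@En.i (nat_lit 4816) (nat_lit 14) (nat_lit 6))
    (@En.i (nat_lit 7315) (nat_lit 1) (nat_lit 14))
    (@En.n l50 (nat_lit 5810) (nat_lit 2) (nat_lit 2))
    (@En.i (nat_lit 3292) (nat_lit 3) (nat_lit 9))
    (@En.n l601 (nat_lit 2452) (nat_lit 5) (nat_lit 14))
    (@En.i (nat_lit 5316) (nat_lit 5) (nat_lit 8))
    (@En.n l649 (nat_lit 6538) (nat_lit 3) (nat_lit 10))
    (@En.n l2261 (nat_lit 5811) (nat_lit 13) (nat_lit 3))
    (@En.n l152 (nat_lit 5809) (nat_lit 0) (nat_lit 3))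
    (@En.n l1865 (nat_lit 5199) (nat_lit 0) (nat_lit 5))
    (@En.n l619 (nat_lit 5809) (nat_lit 3) (nat_lit 13))
    (@En.n l6362 (nat_lit 8978) (nat_lit 12) (nat_lit 13))
    (@En.n l77 (nat_lit 4684) (nat_lit 13) (nat_lit 7))
    (@En.n l8361 (nat_lit 5814) (nat_lit 14) (nat_lit 8))
    (@En.i (nat_lit 6575) (nat_lit 12) (nat_lit 11))
    (@En.n l17 (nat_lit 5810) (nat_lit 15) (nat_lit 2))))
  (@Cl.mk (nat_lit 0x200060003000a0008000e00090002000e00060002000a00080007000e000d) (nat_lit 0x7542080076041) (nat_lit 16) Lb.e (@T16.mk En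
    (@En.n l6635 (nat_lit 5810) (nat_lit 11) (nat_lit 13))
    (@En.n l6672 (nat_lit 8960) (nat_lit 1) (nat_lit 14))
    (@En.n l9493 (nat_lit 4687) (nat_lit 2) (nat_lit 7))
    (@En.i (nat_lit 5816) (nat_lit 14) (nat_lit 8))
    (@En.n l9494 (nat_lit 6761) (nat_lit 4) (nat_lit 10))
    (@En.n l11 (nat_lit 5811) (nat_lit 5) (nat_lit 2))
    (@En.n l9495 (nat_lit 4815) (nat_lit 6) (nat_lit 6))
    (@En.n l698 (nat_lit 7346) (nat_lit 1) (nat_lit 14))
    (@En.n l3 (nat_lit 5811) (nat_lit 8) (nat_lit 2))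
    (@En.n l8874 (nat_lit 3297) (nat_lit 10) (nat_lit 9))
    (@En.n l695 (nat_lit 5190) (nat_lit 11) (nat_lit 14))
    (@En.i (nat_lit 5318) (nat_lit 12) (nat_lit 8))
    (@En.n l6642 (nat_lit 7451) (nat_lit 13) (nat_lit 10))
    (@En.n l6636 (nat_lit 5810) (nat_lit 7) (nat_lit 3))
    (@En.n l6643 (nat_lit 4941) (nat_lit 0) (nat_lit 6))
    (@En.n l50 (nat_lit 5811) (nat_lit 15) (nat_lit 2))))
  (@Cl.mk (nat_lit 0x2000b0006000c000c000b000500040004000a0005000e000a0002000e0006) (nat_lit 0x6000300080500a0) (nat_lit 16) Lb.e (@T16.mk En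
    (@En.n l4155 (nat_lit 5310) (nat_lit 14) (nat_lit 6))
    (@En.n l4153 (nat_lit 8317) (nat_lit 1) (nat_lit 14))
    (@En.n l50 (nat_lit 5812) (nat_lit 2) (nat_lit 2))
    (@En.n l10903 (nat_lit 5818) (nat_lit 3) (nat_lit 10))
    (@En.n l601 (nat_lit 8279) (nat_lit 1) (nat_lit 14))
    (@En.n l1393 (nat_lit 5248) (nat_lit 5) (nat_lit 5))
    (@En.n l30290 (nat_lit 11616) (nat_lit 3) (nat_lit 10))
    (@En.n l6303 (nat_lit 5817) (nat_lit 7) (nat_lit 4))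
    (@En.n l4155 (nat_lit 12486) (nat_lit 8) (nat_lit 4))
    (@En.n l936 (nat_lit 5810) (nat_lit 9) (nat_lit 5))
    (@En.n l8390 (nat_lit 12493) (nat_lit 11) (nat_lit 11))
    (@En.n l2691 (nat_lit 5813) (nat_lit 4) (nat_lit 12))
    (@En.n l20078 (nat_lit 8975) (nat_lit 13) (nat_lit 12))
    (@En.i (nat_lit 11126) (nat_lit 14) (nat_lit 6))
    (@En.i (nat_lit 8932) (nat_lit 12) (nat_lit 11))
    (@En.n l17 (nat_lit 5812) (nat_lit 15) (nat_lit 2))))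
  (@Cl.mk (nat_lit 0x2000a0006000e000a0002000e00060002000c0006000c000a0004000e0004) (nat_lit 0x600a0060a60a0) (nat_lit 16) Lb.e (@T16.mk En
    (@En.n l1992 (nat_lit 5812) (nat_lit 8) (nat_lit 4))
    (@En.n l19528 (nat_lit 5843) (nat_lit 1) (nat_lit 14))
    (@En.i (nat_lit 5809) (nat_lit 2) (nat_lit 4))
    (@En.n l19529 (nat_lit 12287) (nat_lit 3) (nat_lit 10))
    (@En.n l9863 (nat_lit 8982) (nat_lit 13) (nat_lit 12))
    (@En.n l18623 (nat_lit 11131) (nat_lit 14) (nat_lit 6))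
    (@En.n l19530 (nat_lit 8946) (nat_lit 12) (nat_lit 12))
    (@En.n l17 (nat_lit 5813) (nat_lit 7) (nat_lit 2))
    (@En.n l19531 (nat_lit 8947) (nat_lit 14) (nat_lit 6))
    (@En.n l19532 (nat_lit 8314) (nat_lit 1) (nat_lit 14))
    (@En.n l50 (nat_lit 5813) (nat_lit 10) (nat_lit 2))
    (@En.n l19533 (nat_lit 5819) (nat_lit 3) (nat_lit 10))
    (@En.n l601 (nat_lit 8274) (nat_lit 1) (nat_lit 14))
    (@En.n l2669 (nat_lit 5249) (nat_lit 14) (nat_lit 6))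
    (@En.n l19534 (nat_lit 11618) (nat_lit 3) (nat_lit 10))
    (@En.n l11 (nat_lit 5813) (nat_lit 15) (nat_lit 2))))
  (@Cl.mk (nat_lit 0x200080006000d000d000b00030003000900080005000e000a0002000e0007) (nat_lit 0x509a300650420a0) (nat_lit 16) Lb.e (@T16.mk En
    (@En.i (nat_lit 4134) (nat_lit 14) (nat_lit 7))
    (@En.i (nat_lit 7310) (nat_lit 1) (nat_lit 14))
    (@En.n l3 (nat_lit 5814) (nat_lit 2) (nat_lit 2))
    (@En.n l22019 (nat_lit 4139) (nat_lit 3) (nat_lit 10))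
    (@En.n l3749 (nat_lit 3100) (nat_lit 5) (nat_lit 14))
    (@En.n l3219 (nat_lit 5812) (nat_lit 5) (nat_lit 5))
    (@En.i (nat_lit 4721) (nat_lit 6) (nat_lit 8))
    (@En.n l17120 (nat_lit 11316) (nat_lit 4) (nat_lit 9))
    (@En.n l18 (nat_lit 5816) (nat_lit 8) (nat_lit 3))
    (@En.n l8171 (nat_lit 5815) (nat_lit 9) (nat_lit 3))
    (@En.n l6444 (nat_lit 5780) (nat_lit 11) (nat_lit 11))
    (@En.n l15790 (nat_lit 5815) (nat_lit 12) (nat_lit 13))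
    (@En.n l2869 (nat_lit 7038) (nat_lit 13) (nat_lit 13))
    (@En.n l2669 (nat_lit 5548) (nat_lit 14) (nat_lit 6))
    (@En.n l7406 (nat_lit 3675) (nat_lit 12) (nat_lit 8))
    (@En.n l11 (nat_lit 5814) (nat_lit 15) (nat_lit 2))))
  (@Cl.mk (nat_lit 0x200080006000d000a000e00030002000900080006000e000a0002000e0007) (nat_lit 0x4094900620530a0) (nat_lit 16) Lb.e (@T16.mk En
    (@En.n l22226 (nat_lit 4135) (nat_lit 14) (nat_lit 7))
    (@En.n l1013 (nat_lit 7309) (nat_lit 1) (nat_lit 14))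
    (@En.n l50 (nat_lit 5815) (nat_lit 2) (nat_lit 2))
    (@En.n l10294 (nat_lit 5820) (nat_lit 3) (nat_lit 10))
    (@En.n l476 (nat_lit 3976) (nat_lit 5) (nat_lit 14))
    (@En.i (nat_lit 5813) (nat_lit 13) (nat_lit 6))
    (@En.n l8874 (nat_lit 4726) (nat_lit 6) (nat_lit 8))
    (@En.n l5891 (nat_lit 10957) (nat_lit 4) (nat_lit 9))
    (@En.n l11 (nat_lit 5815) (nat_lit 8) (nat_lit 2))
    (@En.n l14741 (nat_lit 5814) (nat_lit 9) (nat_lit 3))
    (@En.n l2038 (nat_lit 13215) (nat_lit 0) (nat_lit 14))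
    (@En.n l2673 (nat_lit 5728) (nat_lit 2) (nat_lit 10))
    (@En.n l3213 (nat_lit 6043) (nat_lit 13) (nat_lit 13))
    (@En.i (nat_lit 5552) (nat_lit 14) (nat_lit 6))
    (@En.n l12585 (nat_lit 5375) (nat_lit 12) (nat_lit 8))
    (@En.n l17 (nat_lit 5815) (nat_lit 15) (nat_lit 2))))
  (@Cl.mk (nat_lit 0x200080006000e000d0002000c0003000900080004000e000a0002000e0007) (nat_lit 0x503a02065022090) (nat_lit 16) Lb.e (@T16.mk En
    (@En.i (nat_lit 4136) (nat_lit 14) (nat_lit 7))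
    (@En.i (nat_lit 7313) (nat_lit 1) (nat_lit 14))
    (@En.n l3 (nat_lit 5816) (nat_lit 2) (nat_lit 2))
    (@En.n l8874 (nat_lit 5822) (nat_lit 3) (nat_lit 10))
    (@En.i (nat_lit 3101) (nat_lit 1) (nat_lit 14))
    (@En.i (nat_lit 5817) (nat_lit 5) (nat_lit 4))
    (@En.i (nat_lit 4722) (nat_lit 6) (nat_lit 8))
    (@En.n l3213 (nat_lit 11314) (nat_lit 4) (nat_lit 9))
    (@En.i (nat_lit 5814) (nat_lit 8) (nat_lit 3))
    (@En.i (nat_lit 932) (nat_lit 0) (nat_lit 12))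
    (@En.n l50 (nat_lit 5816) (nat_lit 10) (nat_lit 2))
    (@En.n l396 (nat_lit 5814) (nat_lit 12) (nat_lit 13))
    (@En.n l2680 (nat_lit 5126) (nat_lit 13) (nat_lit 14))
    (@En.n l2669 (nat_lit 5547) (nat_lit 14) (nat_lit 6))
    (@En.n l28 (nat_lit 5379) (nat_lit 12) (nat_lit 8))
    (@En.n l11 (nat_lit 5816) (nat_lit 15) (nat_lit 2))))
  (@Cl.mk (nat_lit 0x2000a0006000e000c0002000c00060004000a0004000e000a0002000e0006) (nat_lit 0x709106000040070) (nat_lit 16) Lb.e (@T16.mk En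
    (@En.n l5981 (nat_lit 9211) (nat_lit 14) (nat_lit 6))
    (@En.n l20240 (nat_lit 8322) (nat_lit 1) (nat_lit 14))
    (@En.n l3 (nat_lit 5817) (nat_lit 2) (nat_lit 2))
    (@En.n l21999 (nat_lit 8195) (nat_lit 3) (nat_lit 10))
    (@En.n l1228 (nat_lit 9210) (nat_lit 1) (nat_lit 14))
    (@En.n l2364 (nat_lit 5780) (nat_lit 5) (nat_lit 4))
    (@En.n l6642 (nat_lit 7938) (nat_lit 12) (nat_lit 10))
    (@En.n l5981 (nat_lit 12487) (nat_lit 7) (nat_lit 4))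
    (@En.i (nat_lit 5811) (nat_lit 14) (nat_lit 6))
    (@En.n l22000 (nat_lit 5682) (nat_lit 10) (nat_lit 12))
    (@En.n l50 (nat_lit 5817) (nat_lit 10) (nat_lit 2))
    (@En.n l3212 (nat_lit 5812) (nat_lit 12) (nat_lit 12))
    (@En.n l2680 (nat_lit 5009) (nat_lit 1) (nat_lit 14))
    (@En.n l2669 (nat_lit 10341) (nat_lit 14) (nat_lit 6))
    (@En.n l22001 (nat_lit 8930) (nat_lit 12) (nat_lit 10))
    (@En.n l11 (nat_lit 5817) (nat_lit 15) (nat_lit 2))))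
  (@Cl.mk (nat_lit 0x2000a00060006000c000c000b000600040004000b0005000a000a000e0005) (nat_lit 0x500008000008070) (nat_lit 16) Lb.e (@T16.mk En
    (@En.n l24973 (nat_lit 8952) (nat_lit 8) (nat_lit 5))
    (@En.i (nat_lit 8316) (nat_lit 1) (nat_lit 14))
    (@En.n l5411 (nat_lit 12775) (nat_lit 2) (nat_lit 10))
    (@En.n l34283 (nat_lit 8515) (nat_lit 3) (nat_lit 10))
    (@En.n l6001 (nat_lit 5723) (nat_lit 4) (nat_lit 5))
    (@En.n l4252 (nat_lit 10702) (nat_lit 6) (nat_lit 11))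
    (@En.n l237 (nat_lit 8195) (nat_lit 6) (nat_lit 4))
    (@En.i (nat_lit 12489) (nat_lit 7) (nat_lit 4))
    (@En.n l39470 (nat_lit 3292) (nat_lit 8) (nat_lit 6))
    (@En.n l4380 (nat_lit 12492) (nat_lit 10) (nat_lit 11))
    (@En.n l134 (nat_lit 5819) (nat_lit 11) (nat_lit 12))
    (@En.n l34283 (nat_lit 8589) (nat_lit 12) (nat_lit 12))
    (@En.n l20823 (nat_lit 5812) (nat_lit 13) (nat_lit 6))
    (@En.n l39471 (nat_lit 11128) (nat_lit 14) (nat_lit 6))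
    (@En.i (nat_lit 8894) (nat_lit 7) (nat_lit 10))
    (@En.n l17 (nat_lit 5818) (nat_lit 15) (nat_lit 2))))
  (@Cl.mk (nat_lit 0x2000b00060006000c000a0005000e00040002000b0006000a000a000e0005) (nat_lit 0x500a70900008290) (nat_lit 16) Lb.e (@T16.mk En
    (@En.n l24567 (nat_lit 8949) (nat_lit 9) (nat_lit 5))
    (@En.i (nat_lit 8312) (nat_lit 11) (nat_lit 14))
    (@En.n l5207 (nat_lit 12810) (nat_lit 2) (nat_lit 10))
    (@En.n l19519 (nat_lit 8514) (nat_lit 3) (nat_lit 10))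
    (@En.n l24568 (nat_lit 5250) (nat_lit 14) (nat_lit 6))
    (@En.n l3505 (nat_lit 11441) (nat_lit 6) (nat_lit 11))
    (@En.n l7 (nat_lit 5819) (nat_lit 6) (nat_lit 2))
    (@En.n l28 (nat_lit 5818) (nat_lit 7) (nat_lit 4))
    (@En.n l3865 (nat_lit 6061) (nat_lit 9) (nat_lit 14))
    (@En.n l24569 (nat_lit 3294) (nat_lit 9) (nat_lit 5))
    (@En.i (nat_lit 12284) (nat_lit 3) (nat_lit 10))
    (@En.n l19519 (nat_lit 8588) (nat_lit 12) (nat_lit 12))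
    (@En.n l24570 (nat_lit 5813) (nat_lit 5) (nat_lit 6))
    (@En.n l15603 (nat_lit 11130) (nat_lit 14) (nat_lit 6))
    (@En.n l24571 (nat_lit 8948) (nat_lit 8) (nat_lit 11))
    (@En.n l17 (nat_lit 5819) (nat_lit 15) (nat_lit 2))))
  (@Cl.mk (nat_lit 0x2000700060006000d000a000e00030002000a00090006000a000a000e0006) (nat_lit 0x178007602490) (nat_lit 16) Lb.e (@T16.mk En
    (@En.n l152 (nat_lit 4138) (nat_lit 8) (nat_lit 6))
    (@En.n l17049 (nat_lit 7306) (nat_lit 10) (nat_lit 14))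
    (@En.n l77 (nat_lit 5824) (nat_lit 2) (nat_lit 10))
    (@En.i (nat_lit 1162) (nat_lit 3) (nat_lit 10))
    (@En.n l23620 (nat_lit 5819) (nat_lit 4) (nat_lit 6))
    (@En.n l22272 (nat_lit 4737) (nat_lit 5) (nat_lit 9))
    (@En.n l23621 (nat_lit 10953) (nat_lit 7) (nat_lit 10))
    (@En.n l17 (nat_lit 5820) (nat_lit 7) (nat_lit 2))
    (@En.n l9976 (nat_lit 4139) (nat_lit 8) (nat_lit 3))
    (@En.n l1596 (nat_lit 13214) (nat_lit 0) (nat_lit 14))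
    (@En.n l23622 (nat_lit 5724) (nat_lit 11) (nat_lit 10))
    (@En.n l10815 (nat_lit 2595) (nat_lit 12) (nat_lit 13))
    (@En.n l11162 (nat_lit 5815) (nat_lit 13) (nat_lit 6))
    (@En.n l17085 (nat_lit 5551) (nat_lit 14) (nat_lit 6))
    (@En.n l4976 (nat_lit 5141) (nat_lit 6) (nat_lit 7))
    (@En.n l3 (nat_lit 5820) (nat_lit 15) (nat_lit 2))))
  (@Cl.mk (nat_lit 0x20006000e00060002000d000d000b00030003000b000a0005000a000e0005) (nat_lit 0x1008a900740380) (nat_lit 16) Lb.e (@T16.mk En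
    (@En.n l22266 (nat_lit 5825) (nat_lit 4) (nat_lit 5))
    (@En.i (nat_lit 4095) (nat_lit 1) (nat_lit 14))
    (@En.n l9903 (nat_lit 3841) (nat_lit 2) (nat_lit 10))
    (@En.i (nat_lit 12775) (nat_lit 3) (nat_lit 5))
    (@En.n l11241 (nat_lit 4752) (nat_lit 4) (nat_lit 10))
    (@En.i (nat_lit 11423) (nat_lit 10) (nat_lit 11))
    (@En.n l152 (nat_lit 5823) (nat_lit 6) (nat_lit 3))
    (@En.n l22938 (nat_lit 5824) (nat_lit 7) (nat_lit 3))
    (@En.n l97 (nat_lit 5704) (nat_lit 9) (nat_lit 11))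
    (@En.n l20301 (nat_lit 5824) (nat_lit 10) (nat_lit 13))
    (@En.i (nat_lit 7045) (nat_lit 11) (nat_lit 13))
    (@En.n l17 (nat_lit 5821) (nat_lit 11) (nat_lit 2))
    (@En.i (nat_lit 4139) (nat_lit 13) (nat_lit 6))
    (@En.n l1684 (nat_lit 3237) (nat_lit 1) (nat_lit 14))
    (@En.n l8267 (nat_lit 4152) (nat_lit 2) (nat_lit 6))
    (@En.n l7 (nat_lit 5821) (nat_lit 15) (nat_lit 2))))
  (@Cl.mk (nat_lit 0x2000700060006000e000d0002000c0003000a00090004000a000a000e0006) (nat_lit 0x420207501480) (nat_lit 16) Lb.e (@T16.mk En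
    (@En.n l22012 (nat_lit 4137) (nat_lit 6) (nat_lit 6))
    (@En.n l3859 (nat_lit 7312) (nat_lit 8) (nat_lit 14))
    (@En.n l12560 (nat_lit 5823) (nat_lit 2) (nat_lit 10))
    (@En.n l50 (nat_lit 1165) (nat_lit 10) (nat_lit 10))
    (@En.n l22013 (nat_lit 8195) (nat_lit 4) (nat_lit 4))
    (@En.n l7611 (nat_lit 4740) (nat_lit 5) (nat_lit 9))
    (@En.i (nat_lit 9931) (nat_lit 13) (nat_lit 10))
    (@En.n l23632 (nat_lit 4139) (nat_lit 7) (nat_lit 3))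
    (@En.i (nat_lit 5757) (nat_lit 9) (nat_lit 12))
    (@En.n l11 (nat_lit 5822) (nat_lit 9) (nat_lit 2))
    (@En.n l24865 (nat_lit 4139) (nat_lit 11) (nat_lit 13))
    (@En.n l8769 (nat_lit 8188) (nat_lit 12) (nat_lit 14))
    (@En.n l8744 (nat_lit 5816) (nat_lit 13) (nat_lit 6))
    (@En.i (nat_lit 5546) (nat_lit 14) (nat_lit 6))
    (@En.i (nat_lit 5140) (nat_lit 4) (nat_lit 7))
    (@En.n l3 (nat_lit 5822) (nat_lit 15) (nat_lit 2))))
  (@Cl.mk (nat_lit 0x20006000e00060002000e000d0002000c0003000b000a0004000a000e0005) (nat_lit 0x10059070740370) (nat_lit 16) Lb.e (@T16.mk En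
    (@En.n l9902 (nat_lit 5827) (nat_lit 7) (nat_lit 5))
    (@En.i (nat_lit 4105) (nat_lit 9) (nat_lit 14))
    (@En.n l564 (nat_lit 3842) (nat_lit 10) (nat_lit 10))
    (@En.i (nat_lit 12777) (nat_lit 3) (nat_lit 4))
    (@En.n l11241 (nat_lit 4750) (nat_lit 4) (nat_lit 10))
    (@En.i (nat_lit 9927) (nat_lit 13) (nat_lit 11))
    (@En.n l117 (nat_lit 5821) (nat_lit 6) (nat_lit 3))
    (@En.i (nat_lit 5755) (nat_lit 8) (nat_lit 12))
    (@En.n l3 (nat_lit 5823) (nat_lit 8) (nat_lit 2))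
    (@En.i (nat_lit 5821) (nat_lit 10) (nat_lit 13))
    (@En.i (nat_lit 8186) (nat_lit 1) (nat_lit 14))
    (@En.n l17 (nat_lit 5823) (nat_lit 11) (nat_lit 2))
    (@En.n l8268 (nat_lit 5822) (nat_lit 13) (nat_lit 6))
    (@En.i (nat_lit 3238) (nat_lit 1) (nat_lit 14))
    (@En.i (nat_lit 4153) (nat_lit 5) (nat_lit 6))
    (@En.n l7 (nat_lit 5823) (nat_lit 15) (nat_lit 2))))
noncomputable def a364 : T16 Cl := @T16.mk Cl
  (@Cl.mk (nat_lit 0x20006000e00060002000d000a000e00030002000b000a0006000a000e0005) (nat_lit 0x10098900740370) (nat_lit 16) Lb.e (@T16.mk En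
    (@En.n l152 (nat_lit 5826) (nat_lit 9) (nat_lit 5))
    (@En.n l23590 (nat_lit 4093) (nat_lit 11) (nat_lit 14))
    (@En.i (nat_lit 4070) (nat_lit 2) (nat_lit 10))
    (@En.n l23591 (nat_lit 12810) (nat_lit 3) (nat_lit 6))
    (@En.n l2691 (nat_lit 4784) (nat_lit 4) (nat_lit 10))
    (@En.i (nat_lit 11424) (nat_lit 10) (nat_lit 11))
    (@En.n l17 (nat_lit 5824) (nat_lit 6) (nat_lit 2))
    (@En.n l9976 (nat_lit 5821) (nat_lit 7) (nat_lit 3))
    (@En.n l1596 (nat_lit 13212) (nat_lit 0) (nat_lit 14))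
    (@En.n l23590 (nat_lit 5725) (nat_lit 10) (nat_lit 10))
    (@En.n l1867 (nat_lit 7044) (nat_lit 11) (nat_lit 13))
    (@En.n l7 (nat_lit 5824) (nat_lit 11) (nat_lit 2))
    (@En.i (nat_lit 5820) (nat_lit 13) (nat_lit 6))
    (@En.n l5579 (nat_lit 3239) (nat_lit 1) (nat_lit 14))
    (@En.n l4976 (nat_lit 4167) (nat_lit 7) (nat_lit 6))
    (@En.n l3 (nat_lit 5824) (nat_lit 15) (nat_lit 2))))
  (@Cl.mk (nat_lit 0x2000d000d000a00030003000b000b000b0006000b000500050005000e0005) (nat_lit 0x7980088904000b0) (nat_lit 16) Lb.e (@T16.mk En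
    (@En.n l2943 (nat_lit 4133) (nat_lit 4) (nat_lit 5))
    (@En.n l134 (nat_lit 2878) (nat_lit 1) (nat_lit 14))
    (@En.n l11 (nat_lit 5829) (nat_lit 11) (nat_lit 5))
    (@En.n l19274 (nat_lit 4671) (nat_lit 11) (nat_lit 5))
    (@En.n l4189 (nat_lit 5325) (nat_lit 4) (nat_lit 5))
    (@En.i (nat_lit 3819) (nat_lit 10) (nat_lit 11))
    (@En.i (nat_lit 12771) (nat_lit 6) (nat_lit 6))
    (@En.n l11363 (nat_lit 5828) (nat_lit 8) (nat_lit 11))
    (@En.n l9976 (nat_lit 5821) (nat_lit 5) (nat_lit 11))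
    (@En.i (nat_lit 11427) (nat_lit 10) (nat_lit 11))
    (@En.n l4927 (nat_lit 5827) (nat_lit 13) (nat_lit 3))
    (@En.n l18 (nat_lit 5826) (nat_lit 0) (nat_lit 3))
    (@En.n l18636 (nat_lit 5698) (nat_lit 0) (nat_lit 10))
    (@En.n l61 (nat_lit 5826) (nat_lit 3) (nat_lit 13))
    (@En.i (nat_lit 7122) (nat_lit 2) (nat_lit 13))
    (@En.n l7 (nat_lit 5825) (nat_lit 15) (nat_lit 2))))
  (@Cl.mk (nat_lit 0x2000b000b000b0007000b000500050005000e00050002000d0009000e0003) (nat_lit 0x889040008008640) (nat_lit 16) Lb.e (@T16.mk En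
    (@En.i (nat_lit 5825) (nat_lit 11) (nat_lit 3))
    (@En.i (nat_lit 13175) (nat_lit 0) (nat_lit 14))
    (@En.i (nat_lit 5727) (nat_lit 14) (nat_lit 9))
    (@En.i (nat_lit 7051) (nat_lit 2) (nat_lit 13))
    (@En.n l7 (nat_lit 5826) (nat_lit 4) (nat_lit 2))
    (@En.i (nat_lit 4138) (nat_lit 5) (nat_lit 5))
    (@En.n l134 (nat_lit 3245) (nat_lit 1) (nat_lit 14))
    (@En.n l11 (nat_lit 5832) (nat_lit 11) (nat_lit 5))
    (@En.n l152 (nat_lit 5891) (nat_lit 11) (nat_lit 5))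
    (@En.i (nat_lit 5326) (nat_lit 9) (nat_lit 5))
    (@En.i (nat_lit 3820) (nat_lit 11) (nat_lit 11))
    (@En.n l532 (nat_lit 8955) (nat_lit 6) (nat_lit 7))
    (@En.n l619 (nat_lit 5830) (nat_lit 13) (nat_lit 11))
    (@En.i (nat_lit 5824) (nat_lit 5) (nat_lit 11))
    (@En.i (nat_lit 10873) (nat_lit 10) (nat_lit 11))
    (@En.n l17 (nat_lit 5826) (nat_lit 15) (nat_lit 2))))
  (@Cl.mk (nat_lit 0x2000b0003000b000b000b0005000b000500050005000e00050002000e000d) (nat_lit 0x908890700050088) (nat_lit 16) Lb.e (@T16.mk En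
    (@En.n l8631 (nat_lit 5825) (nat_lit 14) (nat_lit 13))
    (@En.i (nat_lit 7476) (nat_lit 1) (nat_lit 14))
    (@En.n l17 (nat_lit 5827) (nat_lit 2) (nat_lit 2))
    (@En.i (nat_lit 4137) (nat_lit 3) (nat_lit 5))
    (@En.n l7084 (nat_lit 3244) (nat_lit 1) (nat_lit 14))
    (@En.n l134 (nat_lit 5833) (nat_lit 11) (nat_lit 5))
    (@En.n l55 (nat_lit 5890) (nat_lit 6) (nat_lit 5))
    (@En.n l11084 (nat_lit 5327) (nat_lit 7) (nat_lit 5))
    (@En.n l11620 (nat_lit 3593) (nat_lit 9) (nat_lit 11))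
    (@En.n l8632 (nat_lit 12776) (nat_lit 9) (nat_lit 5))
    (@En.n l1415 (nat_lit 5831) (nat_lit 11) (nat_lit 11))
    (@En.n l11087 (nat_lit 5823) (nat_lit 5) (nat_lit 11))
    (@En.i (nat_lit 9932) (nat_lit 13) (nat_lit 11))
    (@En.n l11621 (nat_lit 5825) (nat_lit 10) (nat_lit 3))
    (@En.i (nat_lit 5756) (nat_lit 12) (nat_lit 11))
    (@En.n l3 (nat_lit 5827) (nat_lit 15) (nat_lit 2))))
  (@Cl.mk (nat_lit 0x2000d000d000b00030003000c000b0005000a0004000e00050002000e0006) (nat_lit 0x9a9008801050070) (nat_lit 16) Lb.e (@T16.mk En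
    (@En.i (nat_lit 5836) (nat_lit 14) (nat_lit 6))
    (@En.i (nat_lit 6200) (nat_lit 1) (nat_lit 14))
    (@En.n l50 (nat_lit 5828) (nat_lit 2) (nat_lit 2))
    (@En.n l22266 (nat_lit 5825) (nat_lit 3) (nat_lit 5))
    (@En.n l601 (nat_lit 5898) (nat_lit 1) (nat_lit 14))
    (@En.i (nat_lit 5328) (nat_lit 5) (nat_lit 4))
    (@En.n l13540 (nat_lit 3644) (nat_lit 3) (nat_lit 10))
    (@En.i (nat_lit 12392) (nat_lit 7) (nat_lit 5))
    (@En.n l77 (nat_lit 4698) (nat_lit 9) (nat_lit 11))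
    (@En.i (nat_lit 12815) (nat_lit 10) (nat_lit 12))
    (@En.n l152 (nat_lit 5831) (nat_lit 13) (nat_lit 3))
    (@En.n l10847 (nat_lit 5830) (nat_lit 0) (nat_lit 3))
    (@En.n l619 (nat_lit 5703) (nat_lit 0) (nat_lit 11))
    (@En.n l15358 (nat_lit 5830) (nat_lit 3) (nat_lit 13))
    (@En.i (nat_lit 7123) (nat_lit 12) (nat_lit 13))
    (@En.n l17 (nat_lit 5828) (nat_lit 15) (nat_lit 2))))
  (@Cl.mk (nat_lit 0x20007000c00060005000e00040002000d000d000900030003000a000e000b) (nat_lit 0x500700685008c9) (nat_lit 16) Lb.e (@T16.mk En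
    (@En.n l68 (nat_lit 5825) (nat_lit 8) (nat_lit 11))
    (@En.n l3471 (nat_lit 5135) (nat_lit 1) (nat_lit 14))
    (@En.i (nat_lit 11505) (nat_lit 2) (nat_lit 10))
    (@En.n l11382 (nat_lit 5833) (nat_lit 3) (nat_lit 3))
    (@En.n l18 (nat_lit 5832) (nat_lit 4) (nat_lit 3))
    (@En.n l11383 (nat_lit 5702) (nat_lit 5) (nat_lit 9))
    (@En.n l61 (nat_lit 5832) (nat_lit 7) (nat_lit 13))
    (@En.i (nat_lit 7008) (nat_lit 8) (nat_lit 13))
    (@En.n l7 (nat_lit 5829) (nat_lit 8) (nat_lit 2))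
    (@En.n l3522 (nat_lit 4130) (nat_lit 9) (nat_lit 4))
    (@En.n l645 (nat_lit 3974) (nat_lit 11) (nat_lit 14))
    (@En.i (nat_lit 3579) (nat_lit 2) (nat_lit 5))
    (@En.i (nat_lit 5322) (nat_lit 13) (nat_lit 6))
    (@En.i (nat_lit 3832) (nat_lit 14) (nat_lit 12))
    (@En.n l3522 (nat_lit 8900) (nat_lit 5) (nat_lit 7))
    (@En.n l67 (nat_lit 5829) (nat_lit 15) (nat_lit 2))))
  (@Cl.mk (nat_lit 0x2000c000b0006000a0004000e00050002000e00060002000d000a000e0003) (nat_lit 0x88030a007009890) (nat_lit 16) Lb.e (@T16.mk En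
    (@En.n l4185 (nat_lit 5828) (nat_lit 11) (nat_lit 3))
    (@En.i (nat_lit 13183) (nat_lit 0) (nat_lit 14))
    (@En.n l3895 (nat_lit 5834) (nat_lit 14) (nat_lit 10))
    (@En.i (nat_lit 7124) (nat_lit 12) (nat_lit 13))
    (@En.n l7 (nat_lit 5830) (nat_lit 4) (nat_lit 2))
    (@En.i (nat_lit 5835) (nat_lit 14) (nat_lit 6))
    (@En.n l614 (nat_lit 6203) (nat_lit 1) (nat_lit 14))
    (@En.n l11 (nat_lit 5830) (nat_lit 7) (nat_lit 2))
    (@En.n l117 (nat_lit 5826) (nat_lit 8) (nat_lit 5))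
    (@En.n l2691 (nat_lit 5900) (nat_lit 1) (nat_lit 14))
    (@En.n l936 (nat_lit 5329) (nat_lit 10) (nat_lit 4))
    (@En.i (nat_lit 3777) (nat_lit 3) (nat_lit 10))
    (@En.i (nat_lit 5951) (nat_lit 7) (nat_lit 6))
    (@En.n l936 (nat_lit 4696) (nat_lit 14) (nat_lit 11))
    (@En.i (nat_lit 12816) (nat_lit 10) (nat_lit 12))
    (@En.n l17 (nat_lit 5830) (nat_lit 15) (nat_lit 2))))
  (@Cl.mk (nat_lit 0x2000c0003000c000b0004000a0004000e00050002000e00060002000e000d) (nat_lit 0xa0880105007003a) (nat_lit 16) Lb.e (@T16.mk En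
    (@En.i (nat_lit 5828) (nat_lit 14) (nat_lit 13))
    (@En.i (nat_lit 7474) (nat_lit 1) (nat_lit 14))
    (@En.n l17 (nat_lit 5831) (nat_lit 2) (nat_lit 2))
    (@En.i (nat_lit 5837) (nat_lit 14) (nat_lit 6))
    (@En.i (nat_lit 6199) (nat_lit 1) (nat_lit 14))
    (@En.n l50 (nat_lit 5831) (nat_lit 5) (nat_lit 2))
    (@En.n l9902 (nat_lit 5827) (nat_lit 6) (nat_lit 5))
    (@En.n l601 (nat_lit 5899) (nat_lit 1) (nat_lit 14))
    (@En.i (nat_lit 5330) (nat_lit 8) (nat_lit 4))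
    (@En.i (nat_lit 3642) (nat_lit 10) (nat_lit 10))
    (@En.i (nat_lit 12391) (nat_lit 10) (nat_lit 4))
    (@En.n l77 (nat_lit 4747) (nat_lit 12) (nat_lit 11))
    (@En.i (nat_lit 11361) (nat_lit 13) (nat_lit 12))
    (@En.n l117 (nat_lit 5828) (nat_lit 10) (nat_lit 3))
    (@En.i (nat_lit 5760) (nat_lit 12) (nat_lit 12))
    (@En.n l3 (nat_lit 5831) (nat_lit 15) (nat_lit 2))))
  (@Cl.mk (nat_lit 0x20008000c00060005000e00040002000d0008000e00030002000a000e000b) (nat_lit 0x650070075400869) (nat_lit 16) Lb.e (@T16.mk En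
    (@En.n l68 (nat_lit 5826) (nat_lit 13) (nat_lit 11))
    (@En.n l645 (nat_lit 5134) (nat_lit 1) (nat_lit 14))
    (@En.i (nat_lit 11504) (nat_lit 2) (nat_lit 10))
    (@En.n l17 (nat_lit 5832) (nat_lit 3) (nat_lit 2))
    (@En.i (nat_lit 5829) (nat_lit 4) (nat_lit 3))
    (@En.i (nat_lit 13184) (nat_lit 0) (nat_lit 14))
    (@En.i (nat_lit 5735) (nat_lit 6) (nat_lit 8))
    (@En.i (nat_lit 7007) (nat_lit 8) (nat_lit 13))
    (@En.n l7 (nat_lit 5832) (nat_lit 8) (nat_lit 2))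
    (@En.i (nat_lit 4129) (nat_lit 9) (nat_lit 4))
    (@En.n l645 (nat_lit 3975) (nat_lit 11) (nat_lit 14))
    (@En.i (nat_lit 4121) (nat_lit 2) (nat_lit 5))
    (@En.i (nat_lit 5323) (nat_lit 13) (nat_lit 6))
    (@En.i (nat_lit 3833) (nat_lit 10) (nat_lit 12))
    (@En.n l197 (nat_lit 8901) (nat_lit 11) (nat_lit 8))
    (@En.n l67 (nat_lit 5832) (nat_lit 15) (nat_lit 2))))
  (@Cl.mk (nat_lit 0x20006000c00060005000e00040002000e000d0002000a0003000a000e000b) (nat_lit 0x400100a70808c9) (nat_lit 16) Lb.e (@T16.mk En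
    (@En.n l28 (nat_lit 5827) (nat_lit 11) (nat_lit 11))
    (@En.n l134 (nat_lit 5136) (nat_lit 12) (nat_lit 14))
    (@En.n l1347 (nat_lit 11649) (nat_lit 2) (nat_lit 10))
    (@En.n l4018 (nat_lit 5829) (nat_lit 3) (nat_lit 3))
    (@En.i (nat_lit 5761) (nat_lit 4) (nat_lit 10))
    (@En.n l3 (nat_lit 5833) (nat_lit 5) (nat_lit 2))
    (@En.n l3528 (nat_lit 5829) (nat_lit 7) (nat_lit 13))
    (@En.i (nat_lit 7670) (nat_lit 1) (nat_lit 14))
    (@En.n l17 (nat_lit 5833) (nat_lit 8) (nat_lit 2))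
    (@En.n l4019 (nat_lit 4131) (nat_lit 9) (nat_lit 4))
    (@En.n l4311 (nat_lit 3979) (nat_lit 11) (nat_lit 14))
    (@En.i (nat_lit 3571) (nat_lit 5) (nat_lit 5))
    (@En.n l1347 (nat_lit 5324) (nat_lit 13) (nat_lit 6))
    (@En.n l2572 (nat_lit 3584) (nat_lit 8) (nat_lit 12))
    (@En.n l3699 (nat_lit 8867) (nat_lit 8) (nat_lit 6))
    (@En.n l7 (nat_lit 5833) (nat_lit 15) (nat_lit 2))))
  (@Cl.mk (nat_lit 0x2000a000e000b0002000b000a00060005000a0005000e00060002000e0006) (nat_lit 0x7220910040900a0) (nat_lit 16) Lb.e (@T16.mk En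
    (@En.i (nat_lit 4760) (nat_lit 14) (nat_lit 6))
    (@En.i (nat_lit 6889) (nat_lit 1) (nat_lit 14))
    (@En.n l50 (nat_lit 5834) (nat_lit 2) (nat_lit 2))
    (@En.n l20066 (nat_lit 5727) (nat_lit 3) (nat_lit 6))
    (@En.n l601 (nat_lit 4769) (nat_lit 9) (nat_lit 14))
    (@En.i (nat_lit 5251) (nat_lit 5) (nat_lit 5))
    (@En.n l645 (nat_lit 7934) (nat_lit 11) (nat_lit 10))
    (@En.i (nat_lit 5828) (nat_lit 7) (nat_lit 5))
    (@En.n l1448 (nat_lit 5817) (nat_lit 8) (nat_lit 6))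
    (@En.n l77 (nat_lit 4694) (nat_lit 14) (nat_lit 10))
    (@En.n l8015 (nat_lit 12818) (nat_lit 11) (nat_lit 11))
    (@En.n l67 (nat_lit 5834) (nat_lit 11) (nat_lit 2))
    (@En.n l68 (nat_lit 5202) (nat_lit 13) (nat_lit 11))
    (@En.n l645 (nat_lit 4942) (nat_lit 1) (nat_lit 14))
    (@En.i (nat_lit 6503) (nat_lit 12) (nat_lit 10))
    (@En.n l17 (nat_lit 5834) (nat_lit 15) (nat_lit 2))))
  (@Cl.mk (nat_lit 0x200060006000d000a000e00030002000b000a0006000a000a0005000e0006) (nat_lit 0x8780074014060) (nat_lit 16) Lb.e (@T16.mk En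
    (@En.n l117 (nat_lit 4138) (nat_lit 7) (nat_lit 6))
    (@En.n l17703 (nat_lit 6061) (nat_lit 1) (nat_lit 14))
    (@En.n l25725 (nat_lit 7012) (nat_lit 2) (nat_lit 5))
    (@En.n l77 (nat_lit 5830) (nat_lit 11) (nat_lit 10))
    (@En.i (nat_lit 2669) (nat_lit 4) (nat_lit 10))
    (@En.n l8840 (nat_lit 9215) (nat_lit 5) (nat_lit 6))
    (@En.n l936 (nat_lit 4676) (nat_lit 14) (nat_lit 10))
    (@En.i (nat_lit 8181) (nat_lit 8) (nat_lit 11))
    (@En.n l17 (nat_lit 5835) (nat_lit 8) (nat_lit 2))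
    (@En.n l4185 (nat_lit 5836) (nat_lit 9) (nat_lit 3))
    (@En.n l7619 (nat_lit 13228) (nat_lit 0) (nat_lit 14))
    (@En.n l3895 (nat_lit 4760) (nat_lit 12) (nat_lit 10))
    (@En.n l4473 (nat_lit 7244) (nat_lit 13) (nat_lit 13))
    (@En.i (nat_lit 5840) (nat_lit 14) (nat_lit 6))
    (@En.n l17706 (nat_lit 5661) (nat_lit 5) (nat_lit 6))
    (@En.n l11 (nat_lit 5835) (nat_lit 15) (nat_lit 2))))
  (@Cl.mk (nat_lit 0x200060006000d000d000b00030003000b000a0005000a000a0005000e0006) (nat_lit 0x6980074012060) (nat_lit 16) Lb.e (@T16.mk En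
    (@En.n l9902 (nat_lit 4133) (nat_lit 6) (nat_lit 6))
    (@En.n l601 (nat_lit 5847) (nat_lit 1) (nat_lit 14))
    (@En.n l20138 (nat_lit 7013) (nat_lit 2) (nat_lit 5))
    (@En.n l61 (nat_lit 5828) (nat_lit 6) (nat_lit 10))
    (@En.n l13540 (nat_lit 2664) (nat_lit 4) (nat_lit 10))
    (@En.i (nat_lit 5308) (nat_lit 5) (nat_lit 5))
    (@En.n l77 (nat_lit 4685) (nat_lit 6) (nat_lit 10))
    (@En.i (nat_lit 8182) (nat_lit 8) (nat_lit 11))
    (@En.n l152 (nat_lit 5837) (nat_lit 8) (nat_lit 3))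
    (@En.n l10847 (nat_lit 5835) (nat_lit 9) (nat_lit 3))
    (@En.n l619 (nat_lit 5306) (nat_lit 11) (nat_lit 11))
    (@En.n l15358 (nat_lit 5835) (nat_lit 12) (nat_lit 13))
    (@En.n l20138 (nat_lit 7245) (nat_lit 13) (nat_lit 13))
    (@En.n l14508 (nat_lit 5838) (nat_lit 14) (nat_lit 6))
    (@En.n l2179 (nat_lit 5654) (nat_lit 4) (nat_lit 6))
    (@En.n l50 (nat_lit 5836) (nat_lit 15) (nat_lit 2))))
  (@Cl.mk (nat_lit 0x200060006000e000d0002000c0003000b000a0004000a000a0005000e0006) (nat_lit 0x2709076012060) (nat_lit 16) Lb.e (@T16.mk En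
    (@En.n l9902 (nat_lit 4137) (nat_lit 5) (nat_lit 6))
    (@En.n l601 (nat_lit 5974) (nat_lit 1) (nat_lit 14))
    (@En.n l1353 (nat_lit 7014) (nat_lit 2) (nat_lit 5))
    (@En.n l61 (nat_lit 5831) (nat_lit 9) (nat_lit 10))
    (@En.n l1353 (nat_lit 2662) (nat_lit 10) (nat_lit 10))
    (@En.i (nat_lit 12393) (nat_lit 5) (nat_lit 4))
    (@En.n l77 (nat_lit 4742) (nat_lit 12) (nat_lit 10))
    (@En.i (nat_lit 11351) (nat_lit 8) (nat_lit 11))
    (@En.n l117 (nat_lit 5836) (nat_lit 8) (nat_lit 3))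
    (@En.n l1353 (nat_lit 5765) (nat_lit 10) (nat_lit 12))
    (@En.n l3 (nat_lit 5837) (nat_lit 10) (nat_lit 2))
    (@En.i (nat_lit 5836) (nat_lit 12) (nat_lit 13))
    (@En.i (nat_lit 7472) (nat_lit 13) (nat_lit 14))
    (@En.n l9605 (nat_lit 5839) (nat_lit 10) (nat_lit 6))
    (@En.n l18007 (nat_lit 5657) (nat_lit 3) (nat_lit 6))
    (@En.n l50 (nat_lit 5837) (nat_lit 15) (nat_lit 2))))
  (@Cl.mk (nat_lit 0x20006000d000d000b00030003000a00090005000e000a00020006000e0007) (nat_lit 0x57700650420040) (nat_lit 16) Lb.e (@T16.mk En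
    (@En.n l11101 (nat_lit 4134) (nat_lit 13) (nat_lit 7))
    (@En.n l5 (nat_lit 5841) (nat_lit 1) (nat_lit 14))
    (@En.n l19549 (nat_lit 4810) (nat_lit 2) (nat_lit 6))
    (@En.n l7 (nat_lit 5838) (nat_lit 3) (nat_lit 2))
    (@En.n l2140 (nat_lit 5836) (nat_lit 4) (nat_lit 10))
    (@En.n l18237 (nat_lit 2075) (nat_lit 6) (nat_lit 14))
    (@En.n l4475 (nat_lit 5789) (nat_lit 2) (nat_lit 5))
    (@En.n l4476 (nat_lit 4718) (nat_lit 3) (nat_lit 9))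
    (@En.n l4477 (nat_lit 8177) (nat_lit 4) (nat_lit 10))
    (@En.n l4478 (nat_lit 5839) (nat_lit 5) (nat_lit 3))
    (@En.n l19550 (nat_lit 5840) (nat_lit 10) (nat_lit 3))
    (@En.n l4314 (nat_lit 5781) (nat_lit 12) (nat_lit 11))
    (@En.n l19551 (nat_lit 5840) (nat_lit 13) (nat_lit 13))
    (@En.n l19552 (nat_lit 6033) (nat_lit 10) (nat_lit 13))
    (@En.n l14326 (nat_lit 6182) (nat_lit 3) (nat_lit 6))
    (@En.n l17 (nat_lit 5838) (nat_lit 15) (nat_lit 2))))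
  (@Cl.mk (nat_lit 0x20006000e000700020006000e000d0002000c0003000a00090004000e000a) (nat_lit 0x40001604055012) (nat_lit 16) Lb.e (@T16.mk En
    (@En.n l8158 (nat_lit 5837) (nat_lit 4) (nat_lit 10))
    (@En.n l4317 (nat_lit 2074) (nat_lit 1) (nat_lit 14))
    (@En.n l1391 (nat_lit 5786) (nat_lit 2) (nat_lit 4))
    (@En.i (nat_lit 4720) (nat_lit 12) (nat_lit 9))
    (@En.n l1395 (nat_lit 11366) (nat_lit 4) (nat_lit 10))
    (@En.n l1392 (nat_lit 5838) (nat_lit 9) (nat_lit 3))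
    (@En.n l1391 (nat_lit 5766) (nat_lit 11) (nat_lit 12))
    (@En.n l50 (nat_lit 5839) (nat_lit 7) (nat_lit 2))
    (@En.n l1393 (nat_lit 5838) (nat_lit 13) (nat_lit 13))
    (@En.n l8159 (nat_lit 1638) (nat_lit 10) (nat_lit 14))
    (@En.n l810 (nat_lit 4292) (nat_lit 2) (nat_lit 6))
    (@En.n l28 (nat_lit 5839) (nat_lit 11) (nat_lit 2))
    (@En.n l11 (nat_lit 4136) (nat_lit 13) (nat_lit 7))
    (@En.n l1395 (nat_lit 5845) (nat_lit 1) (nat_lit 14))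
    (@En.n l8108 (nat_lit 7364) (nat_lit 2) (nat_lit 6))
    (@En.n l3 (nat_lit 5839) (nat_lit 15) (nat_lit 2))))
noncomputable def a365 : T16 Cl := @T16.mk Cl
  (@Cl.mk (nat_lit 0x20006000d000a000e00030002000a00090006000e000a00020006000e0007) (nat_lit 0x668006604200c0) (nat_lit 16) Lb.e (@T16.mk En
    (@En.n l117 (nat_lit 4135) (nat_lit 13) (nat_lit 7))
    (@En.n l24777 (nat_lit 5843) (nat_lit 8) (nat_lit 14))
    (@En.n l24778 (nat_lit 4811) (nat_lit 2) (nat_lit 6))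
    (@En.n l7 (nat_lit 5840) (nat_lit 3) (nat_lit 2))
    (@En.n l77 (nat_lit 5835) (nat_lit 4) (nat_lit 10))
    (@En.n l24779 (nat_lit 2077) (nat_lit 6) (nat_lit 14))
    (@En.n l24780 (nat_lit 9216) (nat_lit 2) (nat_lit 6))
    (@En.n l4966 (nat_lit 4715) (nat_lit 14) (nat_lit 9))
    (@En.n l24780 (nat_lit 8176) (nat_lit 4) (nat_lit 10))
    (@En.n l17 (nat_lit 5840) (nat_lit 9) (nat_lit 2))
    (@En.n l24781 (nat_lit 5838) (nat_lit 10) (nat_lit 3))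
    (@En.n l24782 (nat_lit 13227) (nat_lit 0) (nat_lit 14))
    (@En.n l24783 (nat_lit 4765) (nat_lit 13) (nat_lit 10))
    (@En.n l12935 (nat_lit 6032) (nat_lit 10) (nat_lit 13))
    (@En.n l24783 (nat_lit 6186) (nat_lit 4) (nat_lit 6))
    (@En.n l11 (nat_lit 5840) (nat_lit 15) (nat_lit 2))))
  (@Cl.mk (nat_lit 0x200090006000d000d000b000300030007000a0005000e000a0002000e0006) (nat_lit 0x8a70004042030) (nat_lit 16) Lb.e (@T16.mk En
    (@En.n l19792 (nat_lit 5842) (nat_lit 14) (nat_lit 6))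
    (@En.n l35347 (nat_lit 6962) (nat_lit 1) (nat_lit 14))
    (@En.n l7 (nat_lit 5841) (nat_lit 2) (nat_lit 2))
    (@En.n l2140 (nat_lit 5847) (nat_lit 3) (nat_lit 10))
    (@En.n l18237 (nat_lit 1963) (nat_lit 1) (nat_lit 14))
    (@En.n l1652 (nat_lit 8967) (nat_lit 5) (nat_lit 5))
    (@En.i (nat_lit 4716) (nat_lit 8) (nat_lit 10))
    (@En.n l181 (nat_lit 5368) (nat_lit 7) (nat_lit 7))
    (@En.n l23594 (nat_lit 5845) (nat_lit 8) (nat_lit 3))
    (@En.n l4288 (nat_lit 5843) (nat_lit 0) (nat_lit 3))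
    (@En.n l19792 (nat_lit 4635) (nat_lit 11) (nat_lit 11))
    (@En.n l4289 (nat_lit 5843) (nat_lit 3) (nat_lit 13))
    (@En.n l181 (nat_lit 6051) (nat_lit 13) (nat_lit 13))
    (@En.i (nat_lit 6134) (nat_lit 14) (nat_lit 6))
    (@En.n l23595 (nat_lit 5842) (nat_lit 12) (nat_lit 9))
    (@En.n l18 (nat_lit 5841) (nat_lit 15) (nat_lit 2))))
  (@Cl.mk (nat_lit 0x20006000600090005000d000d000a000300030007000a000a0006000e000b) (nat_lit 0x7079600075062) (nat_lit 16) Lb.e (@T16.mk En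
    (@En.n l25367 (nat_lit 5901) (nat_lit 9) (nat_lit 11))
    (@En.n l18 (nat_lit 1961) (nat_lit 1) (nat_lit 14))
    (@En.n l18573 (nat_lit 9234) (nat_lit 2) (nat_lit 6))
    (@En.n l10310 (nat_lit 5841) (nat_lit 6) (nat_lit 10))
    (@En.n l10309 (nat_lit 5838) (nat_lit 8) (nat_lit 10))
    (@En.n l18573 (nat_lit 5367) (nat_lit 5) (nat_lit 7))
    (@En.n l7 (nat_lit 5846) (nat_lit 6) (nat_lit 3))
    (@En.n l1547 (nat_lit 5844) (nat_lit 7) (nat_lit 3))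
    (@En.i (nat_lit 4633) (nat_lit 9) (nat_lit 10))
    (@En.n l5542 (nat_lit 5844) (nat_lit 10) (nat_lit 13))
    (@En.n l3858 (nat_lit 6049) (nat_lit 11) (nat_lit 13))
    (@En.n l10309 (nat_lit 6139) (nat_lit 3) (nat_lit 5))
    (@En.n l5496 (nat_lit 6048) (nat_lit 13) (nat_lit 9))
    (@En.n l5337 (nat_lit 6048) (nat_lit 14) (nat_lit 6))
    (@En.n l6081 (nat_lit 5536) (nat_lit 6) (nat_lit 6))
    (@En.n l3 (nat_lit 5842) (nat_lit 15) (nat_lit 2))))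
  (@Cl.mk (nat_lit 0x20007000a0006000e000a0002000e0006000200090006000d000a000e0003) (nat_lit 0x40420b00009690) (nat_lit 16) Lb.e (@T16.mk En
    (@En.n l1792 (nat_lit 5841) (nat_lit 9) (nat_lit 3))
    (@En.n l5588 (nat_lit 13216) (nat_lit 0) (nat_lit 14))
    (@En.n l9991 (nat_lit 4763) (nat_lit 2) (nat_lit 10))
    (@En.n l8604 (nat_lit 6057) (nat_lit 13) (nat_lit 13))
    (@En.n l217 (nat_lit 6133) (nat_lit 14) (nat_lit 6))
    (@En.n l19505 (nat_lit 5844) (nat_lit 12) (nat_lit 9))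
    (@En.n l67 (nat_lit 5843) (nat_lit 6) (nat_lit 2))
    (@En.n l25583 (nat_lit 5844) (nat_lit 14) (nat_lit 6))
    (@En.n l25584 (nat_lit 6959) (nat_lit 1) (nat_lit 14))
    (@En.n l17 (nat_lit 5843) (nat_lit 9) (nat_lit 2))
    (@En.n l25585 (nat_lit 6061) (nat_lit 3) (nat_lit 10))
    (@En.n l830 (nat_lit 1962) (nat_lit 12) (nat_lit 14))
    (@En.i (nat_lit 9096) (nat_lit 5) (nat_lit 6))
    (@En.n l25586 (nat_lit 4717) (nat_lit 8) (nat_lit 10))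
    (@En.n l25587 (nat_lit 5370) (nat_lit 7) (nat_lit 7))
    (@En.n l7 (nat_lit 5843) (nat_lit 15) (nat_lit 2))))
  (@Cl.mk (nat_lit 0x20006000600090005000d0009000e000300020007000a000a0007000e000b) (nat_lit 0x7085300075062) (nat_lit 16) Lb.e (@T16.mk En
    (@En.n l23064 (nat_lit 6059) (nat_lit 10) (nat_lit 11))
    (@En.n l23065 (nat_lit 1958) (nat_lit 11) (nat_lit 14))
    (@En.i (nat_lit 5679) (nat_lit 2) (nat_lit 7))
    (@En.n l13287 (nat_lit 5843) (nat_lit 13) (nat_lit 10))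
    (@En.n l23066 (nat_lit 5840) (nat_lit 8) (nat_lit 10))
    (@En.n l23067 (nat_lit 5362) (nat_lit 5) (nat_lit 7))
    (@En.n l17 (nat_lit 5844) (nat_lit 6) (nat_lit 2))
    (@En.n l1878 (nat_lit 5842) (nat_lit 7) (nat_lit 3))
    (@En.n l23068 (nat_lit 13090) (nat_lit 0) (nat_lit 14))
    (@En.n l23069 (nat_lit 4764) (nat_lit 2) (nat_lit 9))
    (@En.n l8108 (nat_lit 6053) (nat_lit 11) (nat_lit 13))
    (@En.n l10491 (nat_lit 6141) (nat_lit 4) (nat_lit 5))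
    (@En.n l5261 (nat_lit 6058) (nat_lit 13) (nat_lit 9))
    (@En.n l23070 (nat_lit 6058) (nat_lit 14) (nat_lit 6))
    (@En.n l810 (nat_lit 5625) (nat_lit 7) (nat_lit 6))
    (@En.n l28 (nat_lit 5844) (nat_lit 15) (nat_lit 2))))
  (@Cl.mk (nat_lit 0x200090006000e000d0002000c00030007000a0004000e000a0002000e0006) (nat_lit 0x8908005072030) (nat_lit 16) Lb.e (@T16.mk En
    (@En.i (nat_lit 5846) (nat_lit 14) (nat_lit 6))
    (@En.n l1531 (nat_lit 7251) (nat_lit 1) (nat_lit 14))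
    (@En.n l3 (nat_lit 5845) (nat_lit 2) (nat_lit 2))
    (@En.n l2524 (nat_lit 5974) (nat_lit 3) (nat_lit 10))
    (@En.n l11275 (nat_lit 2071) (nat_lit 1) (nat_lit 14))
    (@En.i (nat_lit 9222) (nat_lit 5) (nat_lit 4))
    (@En.n l2520 (nat_lit 4719) (nat_lit 8) (nat_lit 10))
    (@En.i (nat_lit 2045) (nat_lit 7) (nat_lit 7))
    (@En.n l10309 (nat_lit 5841) (nat_lit 8) (nat_lit 3))
    (@En.i (nat_lit 5767) (nat_lit 0) (nat_lit 12))
    (@En.n l28 (nat_lit 5845) (nat_lit 10) (nat_lit 2))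
    (@En.n l2520 (nat_lit 5841) (nat_lit 12) (nat_lit 13))
    (@En.i (nat_lit 6046) (nat_lit 1) (nat_lit 14))
    (@En.n l2520 (nat_lit 6137) (nat_lit 14) (nat_lit 6))
    (@En.n l617 (nat_lit 5846) (nat_lit 12) (nat_lit 9))
    (@En.n l17 (nat_lit 5845) (nat_lit 15) (nat_lit 2))))
  (@Cl.mk (nat_lit 0x20006000600090005000e000d0002000b00030007000a000a0005000e000b) (nat_lit 0x7078070066083) (nat_lit 16) Lb.e (@T16.mk En
    (@En.n l22807 (nat_lit 5902) (nat_lit 8) (nat_lit 11))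
    (@En.n l18 (nat_lit 1964) (nat_lit 9) (nat_lit 14))
    (@En.n l12527 (nat_lit 9226) (nat_lit 2) (nat_lit 5))
    (@En.n l61 (nat_lit 5845) (nat_lit 6) (nat_lit 10))
    (@En.n l1718 (nat_lit 5839) (nat_lit 4) (nat_lit 10))
    (@En.i (nat_lit 2043) (nat_lit 5) (nat_lit 7))
    (@En.i (nat_lit 5842) (nat_lit 6) (nat_lit 3))
    (@En.i (nat_lit 5385) (nat_lit 0) (nat_lit 11))
    (@En.n l28 (nat_lit 5846) (nat_lit 8) (nat_lit 2))
    (@En.n l134 (nat_lit 5842) (nat_lit 10) (nat_lit 13))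
    (@En.i (nat_lit 6044) (nat_lit 11) (nat_lit 14))
    (@En.n l2520 (nat_lit 6173) (nat_lit 2) (nat_lit 5))
    (@En.n l12529 (nat_lit 6047) (nat_lit 13) (nat_lit 9))
    (@En.n l6147 (nat_lit 6047) (nat_lit 14) (nat_lit 6))
    (@En.n l6081 (nat_lit 5624) (nat_lit 5) (nat_lit 6))
    (@En.n l3 (nat_lit 5846) (nat_lit 15) (nat_lit 2))))
  (@Cl.mk (nat_lit 0x2000800060006000d000d000b000300030008000b0005000a000a000e0005) (nat_lit 0x9a8006201250) (nat_lit 16) Lb.e (@T16.mk En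
    (@En.n l8898 (nat_lit 5901) (nat_lit 7) (nat_lit 5))
    (@En.i (nat_lit 6964) (nat_lit 1) (nat_lit 14))
    (@En.n l61 (nat_lit 5898) (nat_lit 2) (nat_lit 10))
    (@En.n l11244 (nat_lit 830) (nat_lit 3) (nat_lit 10))
    (@En.i (nat_lit 9097) (nat_lit 4) (nat_lit 5))
    (@En.i (nat_lit 4743) (nat_lit 7) (nat_lit 11))
    (@En.n l476 (nat_lit 7559) (nat_lit 6) (nat_lit 8))
    (@En.n l152 (nat_lit 5974) (nat_lit 7) (nat_lit 3))
    (@En.n l40287 (nat_lit 6061) (nat_lit 8) (nat_lit 3))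
    (@En.n l619 (nat_lit 4638) (nat_lit 10) (nat_lit 11))
    (@En.n l40288 (nat_lit 6061) (nat_lit 11) (nat_lit 13))
    (@En.n l10971 (nat_lit 7810) (nat_lit 12) (nat_lit 13))
    (@En.n l14508 (nat_lit 5841) (nat_lit 13) (nat_lit 6))
    (@En.n l1723 (nat_lit 6129) (nat_lit 14) (nat_lit 6))
    (@En.n l5934 (nat_lit 5901) (nat_lit 5) (nat_lit 8))
    (@En.n l7 (nat_lit 5847) (nat_lit 15) (nat_lit 2))))
  (@Cl.mk (nat_lit 0x20007000a000e00090002000a00080006000c0009000700060004000e0008) (nat_lit 0x5c701608700082) (nat_lit 16) Lb.e (@T16.mk En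
    (@En.i (nat_lit 5269) (nat_lit 5) (nat_lit 8))
    (@En.n l2520 (nat_lit 4631) (nat_lit 1) (nat_lit 14))
    (@En.n l18 (nat_lit 8036) (nat_lit 2) (nat_lit 4))
    (@En.i (nat_lit 5668) (nat_lit 3) (nat_lit 6))
    (@En.n l15827 (nat_lit 9994) (nat_lit 4) (nat_lit 7))
    (@En.n l61 (nat_lit 5273) (nat_lit 5) (nat_lit 9))
    (@En.n l4021 (nat_lit 7734) (nat_lit 7) (nat_lit 12))
    (@En.i (nat_lit 7480) (nat_lit 7) (nat_lit 6))
    (@En.n l23694 (nat_lit 12705) (nat_lit 14) (nat_lit 8))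
    (@En.n l12438 (nat_lit 4639) (nat_lit 10) (nat_lit 10))
    (@En.n l28 (nat_lit 5848) (nat_lit 10) (nat_lit 2))
    (@En.n l15827 (nat_lit 5783) (nat_lit 12) (nat_lit 9))
    (@En.n l23694 (nat_lit 6439) (nat_lit 13) (nat_lit 14))
    (@En.n l617 (nat_lit 5778) (nat_lit 8) (nat_lit 10))
    (@En.i (nat_lit 5169) (nat_lit 3) (nat_lit 7))
    (@En.n l3 (nat_lit 5848) (nat_lit 15) (nat_lit 2))))
  (@Cl.mk (nat_lit 0x5000900090007000a000800080008000700070006000b0009000800080008) (nat_lit 0x370650500037012) (nat_lit 16) Lb.e (@T16.mk En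
    (@En.n l19122 (nat_lit 7715) (nat_lit 8) (nat_lit 8))
    (@En.n l38488 (nat_lit 5269) (nat_lit 8) (nat_lit 8))
    (@En.n l23153 (nat_lit 10005) (nat_lit 8) (nat_lit 8))
    (@En.n l38489 (nat_lit 7440) (nat_lit 7) (nat_lit 9))
    (@En.n l38490 (nat_lit 7735) (nat_lit 9) (nat_lit 11))
    (@En.n l19127 (nat_lit 2594) (nat_lit 10) (nat_lit 6))
    (@En.n l38491 (nat_lit 5783) (nat_lit 9) (nat_lit 7))
    (@En.n l24496 (nat_lit 11579) (nat_lit 9) (nat_lit 7))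
    (@En.n l38492 (nat_lit 7439) (nat_lit 8) (nat_lit 8))
    (@En.n l22967 (nat_lit 7702) (nat_lit 8) (nat_lit 8))
    (@En.n l38493 (nat_lit 11350) (nat_lit 8) (nat_lit 8))
    (@En.n l38494 (nat_lit 5730) (nat_lit 8) (nat_lit 10))
    (@En.n l34354 (nat_lit 5435) (nat_lit 9) (nat_lit 7))
    (@En.n l644 (nat_lit 5253) (nat_lit 7) (nat_lit 9))
    (@En.i (nat_lit 3149) (nat_lit 10) (nat_lit 9))
    (@En.n l4316 (nat_lit 8009) (nat_lit 15) (nat_lit 5))))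
  (@Cl.mk (nat_lit 0x200080005000b000a000a000a000800050008000600060006000b000e0008) (nat_lit 0x207702305000314) (nat_lit 16) Lb.e (@T16.mk En
    (@En.n l2639 (nat_lit 7440) (nat_lit 2) (nat_lit 8))
    (@En.i (nat_lit 1908) (nat_lit 4) (nat_lit 14))
    (@En.n l12448 (nat_lit 11489) (nat_lit 2) (nat_lit 11))
    (@En.n l12449 (nat_lit 7716) (nat_lit 3) (nat_lit 6))
    (@En.n l19545 (nat_lit 5273) (nat_lit 4) (nat_lit 6))
    (@En.n l36897 (nat_lit 11653) (nat_lit 5) (nat_lit 6))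
    (@En.i (nat_lit 5722) (nat_lit 6) (nat_lit 8))
    (@En.n l10261 (nat_lit 7475) (nat_lit 7) (nat_lit 5))
    (@En.n l21372 (nat_lit 12708) (nat_lit 9) (nat_lit 8))
    (@En.n l36898 (nat_lit 7441) (nat_lit 10) (nat_lit 10))
    (@En.n l11904 (nat_lit 7708) (nat_lit 6) (nat_lit 10))
    (@En.n l36899 (nat_lit 11321) (nat_lit 12) (nat_lit 10))
    (@En.n l16093 (nat_lit 5783) (nat_lit 13) (nat_lit 11))
    (@En.n l21374 (nat_lit 5705) (nat_lit 14) (nat_lit 5))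
    (@En.n l19049 (nat_lit 5173) (nat_lit 0) (nat_lit 8))
    (@En.n l7 (nat_lit 5850) (nat_lit 15) (nat_lit 2))))
  (@Cl.mk (nat_lit 0x200080006000e000a00020009000c0009000800060004000a0007000e0007) (nat_lit 0x3017012710020a0) (nat_lit 16) Lb.e (@T16.mk En
    (@En.n l9987 (nat_lit 5783) (nat_lit 5) (nat_lit 7))
    (@En.n l3761 (nat_lit 9614) (nat_lit 7) (nat_lit 14))
    (@En.n l37523 (nat_lit 7708) (nat_lit 2) (nat_lit 7))
    (@En.n l3928 (nat_lit 7173) (nat_lit 3) (nat_lit 10))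
    (@En.n l763 (nat_lit 8188) (nat_lit 4) (nat_lit 4))
    (@En.i (nat_lit 12709) (nat_lit 5) (nat_lit 6))
    (@En.i (nat_lit 4866) (nat_lit 6) (nat_lit 8))
    (@En.n l37524 (nat_lit 9832) (nat_lit 13) (nat_lit 9))
    (@En.i (nat_lit 5780) (nat_lit 9) (nat_lit 12))
    (@En.n l9435 (nat_lit 5169) (nat_lit 10) (nat_lit 9))
    (@En.n l50 (nat_lit 5851) (nat_lit 10) (nat_lit 2))
    (@En.n l217 (nat_lit 7702) (nat_lit 12) (nat_lit 10))
    (@En.n l11453 (nat_lit 1911) (nat_lit 13) (nat_lit 14))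
    (@En.n l37525 (nat_lit 11686) (nat_lit 14) (nat_lit 6))
    (@En.n l37526 (nat_lit 6927) (nat_lit 3) (nat_lit 8))
    (@En.n l11 (nat_lit 5851) (nat_lit 15) (nat_lit 2))))
  (@Cl.mk (nat_lit 0x20006000e000a00020009000c000a000900060004000a00070006000e0007) (nat_lit 0x230458500200b0) (nat_lit 16) Lb.e (@T16.mk En
    (@En.n l10579 (nat_lit 5783) (nat_lit 4) (nat_lit 7))
    (@En.n l601 (nat_lit 4641) (nat_lit 1) (nat_lit 14))
    (@En.n l10580 (nat_lit 10800) (nat_lit 2) (nat_lit 6))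
    (@En.n l61 (nat_lit 7441) (nat_lit 7) (nat_lit 7))
    (@En.n l8991 (nat_lit 7171) (nat_lit 4) (nat_lit 10))
    (@En.n l11 (nat_lit 7472) (nat_lit 5) (nat_lit 4))
    (@En.n l4155 (nat_lit 11167) (nat_lit 6) (nat_lit 6))
    (@En.n l77 (nat_lit 4863) (nat_lit 12) (nat_lit 9))
    (@En.n l55 (nat_lit 12549) (nat_lit 9) (nat_lit 10))
    (@En.n l10581 (nat_lit 5781) (nat_lit 10) (nat_lit 12))
    (@En.i (nat_lit 6542) (nat_lit 11) (nat_lit 9))
    (@En.n l3 (nat_lit 5852) (nat_lit 11) (nat_lit 2))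
    (@En.i (nat_lit 7439) (nat_lit 13) (nat_lit 10))
    (@En.n l1719 (nat_lit 2096) (nat_lit 1) (nat_lit 14))
    (@En.n l9345 (nat_lit 11672) (nat_lit 2) (nat_lit 6))
    (@En.n l50 (nat_lit 5852) (nat_lit 15) (nat_lit 2))))
  (@Cl.mk (nat_lit 0x20007000a0008000e0009000200080006000c0009000800070004000e0008) (nat_lit 0x76910003640094) (nat_lit 16) Lb.e (@T16.mk En
    (@En.n l10317 (nat_lit 7715) (nat_lit 6) (nat_lit 8))
    (@En.n l10318 (nat_lit 1901) (nat_lit 1) (nat_lit 14))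
    (@En.n l763 (nat_lit 7998) (nat_lit 2) (nat_lit 4))
    (@En.n l10319 (nat_lit 3256) (nat_lit 3) (nat_lit 7))
    (@En.i (nat_lit 7966) (nat_lit 11) (nat_lit 8))
    (@En.n l10320 (nat_lit 7716) (nat_lit 5) (nat_lit 9))
    (@En.n l10321 (nat_lit 7184) (nat_lit 7) (nat_lit 12))
    (@En.n l10319 (nat_lit 7668) (nat_lit 14) (nat_lit 6))
    (@En.n l10322 (nat_lit 11114) (nat_lit 9) (nat_lit 8))
    (@En.n l50 (nat_lit 5853) (nat_lit 9) (nat_lit 2))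
    (@En.n l217 (nat_lit 5783) (nat_lit 11) (nat_lit 9))
    (@En.n l10323 (nat_lit 6928) (nat_lit 12) (nat_lit 14))
    (@En.n l10321 (nat_lit 11335) (nat_lit 2) (nat_lit 8))
    (@En.n l10324 (nat_lit 5782) (nat_lit 3) (nat_lit 10))
    (@En.n l10325 (nat_lit 6542) (nat_lit 4) (nat_lit 7))
    (@En.n l67 (nat_lit 5853) (nat_lit 15) (nat_lit 2))))
  (@Cl.mk (nat_lit 0x200090005000a000a000a0007000b00070006000600060005000b000e0009) (nat_lit 0x107000200000423) (nat_lit 16) Lb.e (@T16.mk En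
    (@En.n l152 (nat_lit 7735) (nat_lit 2) (nat_lit 9))
    (@En.n l11090 (nat_lit 1870) (nat_lit 4) (nat_lit 14))
    (@En.n l28967 (nat_lit 5850) (nat_lit 2) (nat_lit 11))
    (@En.n l28968 (nat_lit 11668) (nat_lit 3) (nat_lit 5))
    (@En.n l28969 (nat_lit 7184) (nat_lit 4) (nat_lit 6))
    (@En.n l28970 (nat_lit 7734) (nat_lit 5) (nat_lit 6))
    (@En.i (nat_lit 12630) (nat_lit 6) (nat_lit 6))
    (@En.n l11091 (nat_lit 5723) (nat_lit 7) (nat_lit 7))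
    (@En.i (nat_lit 3076) (nat_lit 9) (nat_lit 11))
    (@En.n l7422 (nat_lit 10849) (nat_lit 10) (nat_lit 7))
    (@En.n l11093 (nat_lit 7171) (nat_lit 6) (nat_lit 10))
    (@En.n l28971 (nat_lit 7173) (nat_lit 6) (nat_lit 10))
    (@En.n l11095 (nat_lit 9346) (nat_lit 13) (nat_lit 10))
    (@En.n l14833 (nat_lit 7175) (nat_lit 14) (nat_lit 5))
    (@En.n l28972 (nat_lit 5435) (nat_lit 0) (nat_lit 9))
    (@En.n l3 (nat_lit 5854) (nat_lit 15) (nat_lit 2))))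
  (@Cl.mk (nat_lit 0x300090004000a000a000a0007000b00070006000600060005000d000c0009) (nat_lit 0x107520100000765) (nat_lit 16) Lb.e (@T16.mk En
    (@En.i (nat_lit 5783) (nat_lit 0) (nat_lit 9))
    (@En.n l619 (nat_lit 2596) (nat_lit 4) (nat_lit 12))
    (@En.n l11091 (nat_lit 6040) (nat_lit 2) (nat_lit 13))
    (@En.n l30606 (nat_lit 11243) (nat_lit 3) (nat_lit 5))
    (@En.n l2172 (nat_lit 6490) (nat_lit 10) (nat_lit 6))
    (@En.n l30607 (nat_lit 7813) (nat_lit 10) (nat_lit 6))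
    (@En.i (nat_lit 9970) (nat_lit 10) (nat_lit 6))
    (@En.n l13906 (nat_lit 5313) (nat_lit 7) (nat_lit 7))
    (@En.i (nat_lit 2645) (nat_lit 8) (nat_lit 11))
    (@En.n l742 (nat_lit 9735) (nat_lit 10) (nat_lit 7))
    (@En.n l396 (nat_lit 7245) (nat_lit 6) (nat_lit 10))
    (@En.n l6367 (nat_lit 2599) (nat_lit 6) (nat_lit 10))
    (@En.n l19238 (nat_lit 9862) (nat_lit 13) (nat_lit 10))
    (@En.n l15899 (nat_lit 6883) (nat_lit 14) (nat_lit 4))
    (@En.n l24683 (nat_lit 5168) (nat_lit 0) (nat_lit 9))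
    (@En.n l152 (nat_lit 2598) (nat_lit 15) (nat_lit 3))))
noncomputable def a366 : T16 Cl := @T16.mk Cl
  (@Cl.mk (nat_lit 0x20008000b0004000a000a000a0005000b00080006000600060005000e000c) (nat_lit 0x320066085000096) (nat_lit 16) Lb.e (@T16.mk En
    (@En.n l13657 (nat_lit 6883) (nat_lit 3) (nat_lit 12))
    (@En.n l12439 (nat_lit 1640) (nat_lit 1) (nat_lit 14))
    (@En.n l8116 (nat_lit 11219) (nat_lit 2) (nat_lit 5))
    (@En.n l134 (nat_lit 7668) (nat_lit 10) (nat_lit 6))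
    (@En.n l55 (nat_lit 7480) (nat_lit 4) (nat_lit 6))
    (@En.n l15827 (nat_lit 7368) (nat_lit 5) (nat_lit 6))
    (@En.n l61 (nat_lit 7475) (nat_lit 6) (nat_lit 8))
    (@En.n l15827 (nat_lit 1380) (nat_lit 8) (nat_lit 11))
    (@En.n l15828 (nat_lit 8199) (nat_lit 8) (nat_lit 5))
    (@En.n l1415 (nat_lit 7472) (nat_lit 6) (nat_lit 10))
    (@En.n l15829 (nat_lit 8188) (nat_lit 6) (nat_lit 10))
    (@En.n l15830 (nat_lit 10882) (nat_lit 12) (nat_lit 10))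
    (@En.n l15827 (nat_lit 5855) (nat_lit 13) (nat_lit 4))
    (@En.n l15831 (nat_lit 4136) (nat_lit 7) (nat_lit 11))
    (@En.i (nat_lit 5167) (nat_lit 1) (nat_lit 8))
    (@En.n l3 (nat_lit 5856) (nat_lit 15) (nat_lit 2))))
  (@Cl.mk (nat_lit 0x2000d0008000b0003000a000a00080005000c0008000600060004000e0008) (nat_lit 0x322007007500094) (nat_lit 16) Lb.e (@T16.mk En
    (@En.n l10536 (nat_lit 10790) (nat_lit 4) (nat_lit 8))
    (@En.n l4850 (nat_lit 4469) (nat_lit 1) (nat_lit 14))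
    (@En.n l10537 (nat_lit 10003) (nat_lit 2) (nat_lit 4))
    (@En.n l10538 (nat_lit 7968) (nat_lit 10) (nat_lit 6))
    (@En.n l10539 (nat_lit 9992) (nat_lit 4) (nat_lit 6))
    (@En.n l10540 (nat_lit 10792) (nat_lit 5) (nat_lit 8))
    (@En.n l10541 (nat_lit 12633) (nat_lit 7) (nat_lit 12))
    (@En.n l5523 (nat_lit 6363) (nat_lit 7) (nat_lit 5))
    (@En.n l10536 (nat_lit 10297) (nat_lit 13) (nat_lit 8))
    (@En.n l10542 (nat_lit 10795) (nat_lit 6) (nat_lit 10))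
    (@En.n l152 (nat_lit 9609) (nat_lit 11) (nat_lit 10))
    (@En.n l7805 (nat_lit 5858) (nat_lit 11) (nat_lit 3))
    (@En.n l10352 (nat_lit 4143) (nat_lit 7) (nat_lit 11))
    (@En.n l10539 (nat_lit 5783) (nat_lit 14) (nat_lit 8))
    (@En.n l10543 (nat_lit 10046) (nat_lit 2) (nat_lit 13))
    (@En.n l18 (nat_lit 5857) (nat_lit 15) (nat_lit 2))))
  (@Cl.mk (nat_lit 0x2000d000a00090003000a000a00080006000c0007000600060004000e0008) (nat_lit 0x330007005000092) (nat_lit 16) Lb.e (@T16.mk En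
    (@En.n l97 (nat_lit 10005) (nat_lit 4) (nat_lit 8))
    (@En.n l23990 (nat_lit 4466) (nat_lit 1) (nat_lit 14))
    (@En.n l7430 (nat_lit 10002) (nat_lit 2) (nat_lit 4))
    (@En.n l2172 (nat_lit 7966) (nat_lit 10) (nat_lit 6))
    (@En.i (nat_lit 9993) (nat_lit 4) (nat_lit 6))
    (@En.n l2781 (nat_lit 10802) (nat_lit 5) (nat_lit 7))
    (@En.n l117 (nat_lit 12630) (nat_lit 7) (nat_lit 12))
    (@En.i (nat_lit 7368) (nat_lit 7) (nat_lit 6))
    (@En.n l742 (nat_lit 11848) (nat_lit 13) (nat_lit 8))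
    (@En.n l396 (nat_lit 10800) (nat_lit 6) (nat_lit 10))
    (@En.n l7 (nat_lit 9617) (nat_lit 11) (nat_lit 10))
    (@En.n l14227 (nat_lit 5857) (nat_lit 11) (nat_lit 3))
    (@En.n l23991 (nat_lit 11356) (nat_lit 0) (nat_lit 9))
    (@En.i (nat_lit 5153) (nat_lit 14) (nat_lit 10))
    (@En.i (nat_lit 12159) (nat_lit 2) (nat_lit 13))
    (@En.n l67 (nat_lit 5858) (nat_lit 15) (nat_lit 2))))
  (@Cl.mk (nat_lit 0x20007000a00080008000c00090008000600040009000800080007000e0008) (nat_lit 0x10087600205012) (nat_lit 16) Lb.e (@T16.mk En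
    (@En.i (nat_lit 5159) (nat_lit 10) (nat_lit 8))
    (@En.n l24389 (nat_lit 3185) (nat_lit 1) (nat_lit 14))
    (@En.n l965 (nat_lit 11380) (nat_lit 2) (nat_lit 7))
    (@En.n l24390 (nat_lit 6009) (nat_lit 3) (nat_lit 8))
    (@En.i (nat_lit 6389) (nat_lit 4) (nat_lit 8))
    (@En.n l24391 (nat_lit 6010) (nat_lit 5) (nat_lit 9))
    (@En.n l2438 (nat_lit 6015) (nat_lit 6) (nat_lit 4))
    (@En.n l24392 (nat_lit 11220) (nat_lit 7) (nat_lit 6))
    (@En.n l15447 (nat_lit 6012) (nat_lit 8) (nat_lit 8))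
    (@En.n l17680 (nat_lit 5783) (nat_lit 10) (nat_lit 9))
    (@En.n l20835 (nat_lit 5294) (nat_lit 11) (nat_lit 12))
    (@En.n l24393 (nat_lit 6492) (nat_lit 12) (nat_lit 8))
    (@En.n l24394 (nat_lit 7711) (nat_lit 13) (nat_lit 8))
    (@En.n l15447 (nat_lit 3173) (nat_lit 8) (nat_lit 10))
    (@En.n l24392 (nat_lit 12173) (nat_lit 13) (nat_lit 7))
    (@En.n l28 (nat_lit 5859) (nat_lit 15) (nat_lit 2))))
  (@Cl.mk (nat_lit 0x20007000b00080008000c00070005000b00040009000800080005000e0009) (nat_lit 0x70080030300000) (nat_lit 16) Lb.e (@T16.mk En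
    (@En.n l39151 (nat_lit 8009) (nat_lit 14) (nat_lit 9))
    (@En.n l39152 (nat_lit 9858) (nat_lit 1) (nat_lit 14))
    (@En.n l39153 (nat_lit 7997) (nat_lit 2) (nat_lit 5))
    (@En.n l9878 (nat_lit 8036) (nat_lit 3) (nat_lit 8))
    (@En.n l4758 (nat_lit 10002) (nat_lit 4) (nat_lit 8))
    (@En.n l39154 (nat_lit 10352) (nat_lit 5) (nat_lit 9))
    (@En.n l39155 (nat_lit 5859) (nat_lit 6) (nat_lit 4))
    (@En.n l39156 (nat_lit 11668) (nat_lit 8) (nat_lit 11))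
    (@En.i (nat_lit 11219) (nat_lit 8) (nat_lit 5))
    (@En.n l39157 (nat_lit 10424) (nat_lit 10) (nat_lit 7))
    (@En.i (nat_lit 7551) (nat_lit 11) (nat_lit 12))
    (@En.n l11401 (nat_lit 11686) (nat_lit 8) (nat_lit 8))
    (@En.n l39156 (nat_lit 7719) (nat_lit 13) (nat_lit 8))
    (@En.n l16218 (nat_lit 7737) (nat_lit 14) (nat_lit 11))
    (@En.i (nat_lit 11087) (nat_lit 7) (nat_lit 7))
    (@En.n l28 (nat_lit 5860) (nat_lit 15) (nat_lit 2))))
  (@Cl.mk (nat_lit 0x30009000c000a000a00070004000b000700060006000c0005000d00090004) (nat_lit 0x590000000000850) (nat_lit 16) Lb.e (@T16.mk En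
    (@En.n l16939 (nat_lit 12723) (nat_lit 0) (nat_lit 4))
    (@En.n l33947 (nat_lit 11579) (nat_lit 0) (nat_lit 9))
    (@En.n l33948 (nat_lit 3676) (nat_lit 1) (nat_lit 13))
    (@En.n l33949 (nat_lit 10424) (nat_lit 3) (nat_lit 5))
    (@En.n l29991 (nat_lit 11119) (nat_lit 5) (nat_lit 12))
    (@En.n l33950 (nat_lit 12705) (nat_lit 10) (nat_lit 6))
    (@En.i (nat_lit 11848) (nat_lit 10) (nat_lit 6))
    (@En.n l33951 (nat_lit 12708) (nat_lit 7) (nat_lit 7))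
    (@En.i (nat_lit 10849) (nat_lit 9) (nat_lit 11))
    (@En.n l29061 (nat_lit 12711) (nat_lit 9) (nat_lit 4))
    (@En.n l33952 (nat_lit 11839) (nat_lit 0) (nat_lit 7))
    (@En.n l33953 (nat_lit 12709) (nat_lit 6) (nat_lit 10))
    (@En.n l33954 (nat_lit 11833) (nat_lit 13) (nat_lit 10))
    (@En.n l27392 (nat_lit 12495) (nat_lit 6) (nat_lit 12))
    (@En.n l33033 (nat_lit 11087) (nat_lit 14) (nat_lit 9))
    (@En.n l33955 (nat_lit 12690) (nat_lit 15) (nat_lit 3))))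
  (@Cl.mk (nat_lit 0x200080003000d000c00090003000d000400080003000e00070002000e000d) (nat_lit 0x306a70306070041) (nat_lit 16) Lb.e (@T16.mk En
    (@En.i (nat_lit 4516) (nat_lit 14) (nat_lit 13))
    (@En.i (nat_lit 10976) (nat_lit 1) (nat_lit 14))
    (@En.n l17 (nat_lit 5862) (nat_lit 2) (nat_lit 2))
    (@En.i (nat_lit 5572) (nat_lit 3) (nat_lit 7))
    (@En.n l5 (nat_lit 6266) (nat_lit 1) (nat_lit 14))
    (@En.n l50 (nat_lit 5333) (nat_lit 5) (nat_lit 3))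
    (@En.i (nat_lit 11065) (nat_lit 6) (nat_lit 8))
    (@En.n l3506 (nat_lit 4512) (nat_lit 7) (nat_lit 4))
    (@En.i (nat_lit 6088) (nat_lit 9) (nat_lit 13))
    (@En.i (nat_lit 5401) (nat_lit 9) (nat_lit 3))
    (@En.i (nat_lit 5645) (nat_lit 11) (nat_lit 9))
    (@En.i (nat_lit 4515) (nat_lit 12) (nat_lit 12))
    (@En.i (nat_lit 10108) (nat_lit 13) (nat_lit 13))
    (@En.n l117 (nat_lit 4516) (nat_lit 10) (nat_lit 3))
    (@En.i (nat_lit 6720) (nat_lit 12) (nat_lit 8))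
    (@En.n l3 (nat_lit 5862) (nat_lit 15) (nat_lit 2))))
  (@Cl.mk (nat_lit 0x200080003000e000c0002000c000b000400080004000e00050002000e000d) (nat_lit 0x2067071020600a5) (nat_lit 16) Lb.e (@T16.mk En
    (@En.i (nat_lit 4517) (nat_lit 6) (nat_lit 13))
    (@En.i (nat_lit 8551) (nat_lit 1) (nat_lit 14))
    (@En.n l17 (nat_lit 5863) (nat_lit 2) (nat_lit 2))
    (@En.n l50 (nat_lit 4820) (nat_lit 3) (nat_lit 5))
    (@En.n l5 (nat_lit 5864) (nat_lit 1) (nat_lit 14))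
    (@En.n l50 (nat_lit 5890) (nat_lit 5) (nat_lit 4))
    (@En.i (nat_lit 3566) (nat_lit 6) (nat_lit 8))
    (@En.i (nat_lit 5862) (nat_lit 7) (nat_lit 4))
    (@En.n l217 (nat_lit 3569) (nat_lit 9) (nat_lit 11))
    (@En.i (nat_lit 6090) (nat_lit 10) (nat_lit 12))
    (@En.n l28 (nat_lit 5863) (nat_lit 10) (nat_lit 2))
    (@En.i (nat_lit 4512) (nat_lit 12) (nat_lit 12))
    (@En.i (nat_lit 5074) (nat_lit 1) (nat_lit 14))
    (@En.n l117 (nat_lit 4517) (nat_lit 2) (nat_lit 3))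
    (@En.i (nat_lit 4982) (nat_lit 12) (nat_lit 8))
    (@En.n l3 (nat_lit 5863) (nat_lit 15) (nat_lit 2))))
  (@Cl.mk (nat_lit 0x20007000e000d000200080003000e000c00020009000c00040008000e0004) (nat_lit 0x97010880110150) (nat_lit 16) Lb.e (@T16.mk En
    (@En.i (nat_lit 5866) (nat_lit 4) (nat_lit 4))
    (@En.n l2573 (nat_lit 3568) (nat_lit 6) (nat_lit 14))
    (@En.i (nat_lit 781) (nat_lit 2) (nat_lit 8))
    (@En.i (nat_lit 6266) (nat_lit 3) (nat_lit 4))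
    (@En.i (nat_lit 3578) (nat_lit 9) (nat_lit 12))
    (@En.n l2568 (nat_lit 787) (nat_lit 5) (nat_lit 9))
    (@En.n l28 (nat_lit 5864) (nat_lit 6) (nat_lit 2))
    (@En.n l134 (nat_lit 5918) (nat_lit 12) (nat_lit 12))
    (@En.n l2568 (nat_lit 6022) (nat_lit 1) (nat_lit 14))
    (@En.n l117 (nat_lit 5867) (nat_lit 9) (nat_lit 3))
    (@En.i (nat_lit 4983) (nat_lit 11) (nat_lit 8))
    (@En.n l3 (nat_lit 5864) (nat_lit 11) (nat_lit 2))
    (@En.i (nat_lit 5867) (nat_lit 13) (nat_lit 13))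
    (@En.i (nat_lit 12808) (nat_lit 7) (nat_lit 14))
    (@En.n l1738 (nat_lit 5866) (nat_lit 2) (nat_lit 7))
    (@En.n l18 (nat_lit 5864) (nat_lit 15) (nat_lit 2))))
  (@Cl.mk (nat_lit 0x20009000c000c0005000a000400040007000d000d000600030003000e000b) (nat_lit 0x252010008900077) (nat_lit 16) Lb.e (@T16.mk En
    (@En.n l649 (nat_lit 5873) (nat_lit 13) (nat_lit 11))
    (@En.n l476 (nat_lit 7785) (nat_lit 1) (nat_lit 14))
    (@En.n l152 (nat_lit 5866) (nat_lit 13) (nat_lit 3))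
    (@En.n l14037 (nat_lit 5870) (nat_lit 3) (nat_lit 3))
    (@En.n l97 (nat_lit 5254) (nat_lit 0) (nat_lit 6))
    (@En.n l14032 (nat_lit 5870) (nat_lit 6) (nat_lit 13))
    (@En.n l5389 (nat_lit 9219) (nat_lit 7) (nat_lit 13))
    (@En.n l14033 (nat_lit 5869) (nat_lit 11) (nat_lit 7))
    (@En.n l14034 (nat_lit 5869) (nat_lit 12) (nat_lit 4))
    (@En.n l50 (nat_lit 3250) (nat_lit 9) (nat_lit 4))
    (@En.i (nat_lit 740) (nat_lit 11) (nat_lit 10))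
    (@En.n l27719 (nat_lit 6076) (nat_lit 7) (nat_lit 5))
    (@En.n l217 (nat_lit 5867) (nat_lit 4) (nat_lit 12))
    (@En.i (nat_lit 4517) (nat_lit 14) (nat_lit 12))
    (@En.i (nat_lit 737) (nat_lit 11) (nat_lit 9))
    (@En.n l28 (nat_lit 5865) (nat_lit 15) (nat_lit 2))))
  (@Cl.mk (nat_lit 0x200070003000e000b00020009000c000c00050009000400040007000e000d) (nat_lit 0x7701820100099) (nat_lit 16) Lb.e (@T16.mk En
    (@En.i (nat_lit 5865) (nat_lit 6) (nat_lit 13))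
    (@En.i (nat_lit 8558) (nat_lit 7) (nat_lit 14))
    (@En.n l2114 (nat_lit 5868) (nat_lit 2) (nat_lit 7))
    (@En.n l1959 (nat_lit 5868) (nat_lit 3) (nat_lit 4))
    (@En.n l50 (nat_lit 6073) (nat_lit 4) (nat_lit 4))
    (@En.i (nat_lit 637) (nat_lit 5) (nat_lit 9))
    (@En.n l829 (nat_lit 6075) (nat_lit 6) (nat_lit 5))
    (@En.n l217 (nat_lit 5864) (nat_lit 4) (nat_lit 12))
    (@En.i (nat_lit 5863) (nat_lit 9) (nat_lit 12))
    (@En.n l2568 (nat_lit 784) (nat_lit 10) (nat_lit 9))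
    (@En.n l28 (nat_lit 5866) (nat_lit 10) (nat_lit 2))
    (@En.i (nat_lit 5874) (nat_lit 12) (nat_lit 11))
    (@En.n l2568 (nat_lit 6024) (nat_lit 1) (nat_lit 14))
    (@En.n l117 (nat_lit 5865) (nat_lit 2) (nat_lit 3))
    (@En.i (nat_lit 4984) (nat_lit 3) (nat_lit 7))
    (@En.n l3 (nat_lit 5866) (nat_lit 15) (nat_lit 2))))
  (@Cl.mk (nat_lit 0x20007000d000d000700030003000e000c00020009000c00040009000e0004) (nat_lit 0x67000880110160) (nat_lit 16) Lb.e (@T16.mk En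
    (@En.i (nat_lit 5865) (nat_lit 9) (nat_lit 4))
    (@En.n l649 (nat_lit 2877) (nat_lit 11) (nat_lit 14))
    (@En.i (nat_lit 750) (nat_lit 2) (nat_lit 9))
    (@En.i (nat_lit 6264) (nat_lit 3) (nat_lit 4))
    (@En.i (nat_lit 3570) (nat_lit 14) (nat_lit 12))
    (@En.i (nat_lit 782) (nat_lit 5) (nat_lit 9))
    (@En.n l28 (nat_lit 5867) (nat_lit 6) (nat_lit 2))
    (@En.n l649 (nat_lit 5875) (nat_lit 8) (nat_lit 12))
    (@En.n l476 (nat_lit 7788) (nat_lit 1) (nat_lit 14))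
    (@En.n l152 (nat_lit 5864) (nat_lit 9) (nat_lit 3))
    (@En.n l1865 (nat_lit 5872) (nat_lit 10) (nat_lit 3))
    (@En.n l97 (nat_lit 5904) (nat_lit 4) (nat_lit 7))
    (@En.n l1867 (nat_lit 5872) (nat_lit 13) (nat_lit 13))
    (@En.i (nat_lit 12744) (nat_lit 7) (nat_lit 13))
    (@En.n l1738 (nat_lit 5865) (nat_lit 7) (nat_lit 7))
    (@En.n l18 (nat_lit 5867) (nat_lit 15) (nat_lit 2))))
  (@Cl.mk (nat_lit 0x200060003000e000a00020009000e000c00020006000a00040007000e000d) (nat_lit 0xb701990010095) (nat_lit 16) Lb.e (@T16.mk En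
    (@En.n l649 (nat_lit 5869) (nat_lit 10) (nat_lit 13))
    (@En.i (nat_lit 9212) (nat_lit 11) (nat_lit 14))
    (@En.n l699 (nat_lit 13013) (nat_lit 11) (nat_lit 7))
    (@En.i (nat_lit 6072) (nat_lit 3) (nat_lit 4))
    (@En.i (nat_lit 780) (nat_lit 4) (nat_lit 10))
    (@En.i (nat_lit 6080) (nat_lit 5) (nat_lit 6))
    (@En.n l18 (nat_lit 5868) (nat_lit 6) (nat_lit 2))
    (@En.n l1708 (nat_lit 5866) (nat_lit 8) (nat_lit 12))
    (@En.n l1063 (nat_lit 4850) (nat_lit 9) (nat_lit 14))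
    (@En.i (nat_lit 804) (nat_lit 2) (nat_lit 9))
    (@En.n l28 (nat_lit 5868) (nat_lit 10) (nat_lit 2))
    (@En.n l287 (nat_lit 5932) (nat_lit 12) (nat_lit 10))
    (@En.i (nat_lit 6045) (nat_lit 1) (nat_lit 14))
    (@En.n l2221 (nat_lit 5869) (nat_lit 6) (nat_lit 3))
    (@En.n l1643 (nat_lit 4987) (nat_lit 7) (nat_lit 6))
    (@En.n l3 (nat_lit 5868) (nat_lit 15) (nat_lit 2))))
  (@Cl.mk (nat_lit 0x20006000b00040007000d000d000500030003000e000a00020009000e000c) (nat_lit 0x10049000b701c6) (nat_lit 16) Lb.e (@T16.mk En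
    (@En.n l14963 (nat_lit 5865) (nat_lit 13) (nat_lit 12))
    (@En.n l1578 (nat_lit 4843) (nat_lit 1) (nat_lit 14))
    (@En.i (nat_lit 785) (nat_lit 2) (nat_lit 9))
    (@En.n l3 (nat_lit 5869) (nat_lit 3) (nat_lit 2))
    (@En.i (nat_lit 5929) (nat_lit 4) (nat_lit 10))
    (@En.i (nat_lit 7783) (nat_lit 1) (nat_lit 14))
    (@En.n l5331 (nat_lit 5868) (nat_lit 13) (nat_lit 3))
    (@En.n l18 (nat_lit 5871) (nat_lit 7) (nat_lit 3))
    (@En.n l947 (nat_lit 5255) (nat_lit 8) (nat_lit 5))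
    (@En.n l61 (nat_lit 5871) (nat_lit 10) (nat_lit 13))
    (@En.n l1353 (nat_lit 9217) (nat_lit 7) (nat_lit 13))
    (@En.i (nat_lit 13009) (nat_lit 11) (nat_lit 7))
    (@En.i (nat_lit 3255) (nat_lit 8) (nat_lit 4))
    (@En.n l2869 (nat_lit 751) (nat_lit 10) (nat_lit 11))
    (@En.i (nat_lit 6081) (nat_lit 6) (nat_lit 6))
    (@En.n l28 (nat_lit 5869) (nat_lit 15) (nat_lit 2))))
  (@Cl.mk (nat_lit 0x20009000c000c0005000b000400040007000d0005000e00030002000e000b) (nat_lit 0x152010008090077) (nat_lit 16) Lb.e (@T16.mk En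
    (@En.n l6698 (nat_lit 5928) (nat_lit 14) (nat_lit 11))
    (@En.i (nat_lit 7781) (nat_lit 1) (nat_lit 14))
    (@En.n l17 (nat_lit 5870) (nat_lit 2) (nat_lit 2))
    (@En.n l14963 (nat_lit 5865) (nat_lit 3) (nat_lit 3))
    (@En.n l9922 (nat_lit 13559) (nat_lit 0) (nat_lit 14))
    (@En.i (nat_lit 5072) (nat_lit 5) (nat_lit 5))
    (@En.n l2036 (nat_lit 12748) (nat_lit 7) (nat_lit 13))
    (@En.n l11 (nat_lit 5871) (nat_lit 11) (nat_lit 7))
    (@En.n l55 (nat_lit 5871) (nat_lit 12) (nat_lit 4))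
    (@En.n l6698 (nat_lit 6367) (nat_lit 9) (nat_lit 4))
    (@En.n l2036 (nat_lit 744) (nat_lit 11) (nat_lit 11))
    (@En.i (nat_lit 6234) (nat_lit 8) (nat_lit 5))
    (@En.n l6697 (nat_lit 5872) (nat_lit 4) (nat_lit 12))
    (@En.n l6698 (nat_lit 5876) (nat_lit 14) (nat_lit 12))
    (@En.i (nat_lit 783) (nat_lit 12) (nat_lit 9))
    (@En.n l3 (nat_lit 5870) (nat_lit 15) (nat_lit 2))))
  (@Cl.mk (nat_lit 0x20006000c00040007000d0004000e00030002000e000a00020009000e000c) (nat_lit 0x10080900b701c6) (nat_lit 16) Lb.e (@T16.mk En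
    (@En.i (nat_lit 5870) (nat_lit 13) (nat_lit 12))
    (@En.n l1578 (nat_lit 4842) (nat_lit 1) (nat_lit 14))
    (@En.i (nat_lit 805) (nat_lit 2) (nat_lit 9))
    (@En.n l3 (nat_lit 5871) (nat_lit 3) (nat_lit 2))
    (@En.i (nat_lit 5930) (nat_lit 4) (nat_lit 10))
    (@En.i (nat_lit 7782) (nat_lit 1) (nat_lit 14))
    (@En.n l17 (nat_lit 5871) (nat_lit 6) (nat_lit 2))
    (@En.i (nat_lit 5869) (nat_lit 7) (nat_lit 3))
    (@En.i (nat_lit 13561) (nat_lit 0) (nat_lit 14))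
    (@En.i (nat_lit 5074) (nat_lit 9) (nat_lit 4))
    (@En.n l2573 (nat_lit 9221) (nat_lit 7) (nat_lit 13))
    (@En.i (nat_lit 13010) (nat_lit 11) (nat_lit 7))
    (@En.i (nat_lit 6368) (nat_lit 8) (nat_lit 4))
    (@En.n l2036 (nat_lit 743) (nat_lit 10) (nat_lit 12))
    (@En.i (nat_lit 6230) (nat_lit 7) (nat_lit 6))
    (@En.n l28 (nat_lit 5871) (nat_lit 15) (nat_lit 2))))
noncomputable def a367 : T16 Cl := @T16.mk Cl
  (@Cl.mk (nat_lit 0x20007000d0006000e00030002000e000c00020009000c0004000a000e0004) (nat_lit 0x60800880110160) (nat_lit 16) Lb.e (@T16.mk En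
    (@En.n l5611 (nat_lit 5870) (nat_lit 9) (nat_lit 4))
    (@En.i (nat_lit 3567) (nat_lit 11) (nat_lit 14))
    (@En.i (nat_lit 742) (nat_lit 2) (nat_lit 10))
    (@En.i (nat_lit 6265) (nat_lit 3) (nat_lit 4))
    (@En.i (nat_lit 4123) (nat_lit 14) (nat_lit 12))
    (@En.i (nat_lit 788) (nat_lit 12) (nat_lit 9))
    (@En.n l3 (nat_lit 5872) (nat_lit 6) (nat_lit 2))
    (@En.i (nat_lit 5931) (nat_lit 8) (nat_lit 12))
    (@En.i (nat_lit 7787) (nat_lit 1) (nat_lit 14))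
    (@En.n l17 (nat_lit 5872) (nat_lit 9) (nat_lit 2))
    (@En.n l2869 (nat_lit 5867) (nat_lit 10) (nat_lit 3))
    (@En.i (nat_lit 13560) (nat_lit 0) (nat_lit 14))
    (@En.i (nat_lit 5073) (nat_lit 13) (nat_lit 6))
    (@En.i (nat_lit 12743) (nat_lit 7) (nat_lit 13))
    (@En.n l3100 (nat_lit 5870) (nat_lit 7) (nat_lit 7))
    (@En.n l28 (nat_lit 5872) (nat_lit 15) (nat_lit 2))))
  (@Cl.mk (nat_lit 0x30003000b000b0008000b000b00050005000a000500050008000d000d0006) (nat_lit 0x69512002000350) (nat_lit 16) Lb.e (@T16.mk En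
    (@En.n l2805 (nat_lit 5021) (nat_lit 0) (nat_lit 6))
    (@En.n l61 (nat_lit 5928) (nat_lit 3) (nat_lit 13))
    (@En.n l14821 (nat_lit 9218) (nat_lit 2) (nat_lit 13))
    (@En.n l2491 (nat_lit 5929) (nat_lit 10) (nat_lit 8))
    (@En.n l7129 (nat_lit 5929) (nat_lit 11) (nat_lit 5))
    (@En.i (nat_lit 3246) (nat_lit 5) (nat_lit 5))
    (@En.n l2869 (nat_lit 5496) (nat_lit 0) (nat_lit 10))
    (@En.n l8258 (nat_lit 5865) (nat_lit 11) (nat_lit 5))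
    (@En.n l26714 (nat_lit 4496) (nat_lit 8) (nat_lit 5))
    (@En.n l55 (nat_lit 5875) (nat_lit 5) (nat_lit 11))
    (@En.i (nat_lit 4510) (nat_lit 7) (nat_lit 11))
    (@En.n l27179 (nat_lit 2300) (nat_lit 12) (nat_lit 8))
    (@En.n l24909 (nat_lit 5922) (nat_lit 5) (nat_lit 11))
    (@En.i (nat_lit 6632) (nat_lit 14) (nat_lit 11))
    (@En.n l5331 (nat_lit 5874) (nat_lit 13) (nat_lit 3))
    (@En.n l18 (nat_lit 5928) (nat_lit 0) (nat_lit 3))))
  (@Cl.mk (nat_lit 0x200070003000b000b0008000b000b000500050009000500050008000e000d) (nat_lit 0x6941200200094) (nat_lit 16) Lb.e (@T16.mk En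
    (@En.n l649 (nat_lit 5873) (nat_lit 2) (nat_lit 13))
    (@En.i (nat_lit 9213) (nat_lit 1) (nat_lit 14))
    (@En.n l1972 (nat_lit 5932) (nat_lit 2) (nat_lit 8))
    (@En.n l1973 (nat_lit 5932) (nat_lit 3) (nat_lit 5))
    (@En.n l50 (nat_lit 3247) (nat_lit 4) (nat_lit 5))
    (@En.n l1974 (nat_lit 7593) (nat_lit 5) (nat_lit 9))
    (@En.n l55 (nat_lit 5866) (nat_lit 6) (nat_lit 5))
    (@En.n l1974 (nat_lit 4495) (nat_lit 7) (nat_lit 5))
    (@En.n l9762 (nat_lit 5918) (nat_lit 9) (nat_lit 11))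
    (@En.i (nat_lit 4512) (nat_lit 10) (nat_lit 11))
    (@En.n l2568 (nat_lit 2350) (nat_lit 11) (nat_lit 8))
    (@En.n l39905 (nat_lit 5919) (nat_lit 12) (nat_lit 11))
    (@En.i (nat_lit 2018) (nat_lit 13) (nat_lit 11))
    (@En.n l2221 (nat_lit 5873) (nat_lit 14) (nat_lit 3))
    (@En.i (nat_lit 1881) (nat_lit 0) (nat_lit 7))
    (@En.n l3 (nat_lit 5874) (nat_lit 15) (nat_lit 2))))
  (@Cl.mk (nat_lit 0x20008000d000d000700030003000c000c0008000b000400040009000e0005) (nat_lit 0x1560007a5100220) (nat_lit 16) Lb.e (@T16.mk En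
    (@En.i (nat_lit 5873) (nat_lit 5) (nat_lit 5))
    (@En.i (nat_lit 2872) (nat_lit 1) (nat_lit 14))
    (@En.n l3522 (nat_lit 7600) (nat_lit 2) (nat_lit 9))
    (@En.n l8258 (nat_lit 5867) (nat_lit 3) (nat_lit 4))
    (@En.i (nat_lit 6258) (nat_lit 4) (nat_lit 4))
    (@En.i (nat_lit 3579) (nat_lit 7) (nat_lit 11))
    (@En.n l4758 (nat_lit 2298) (nat_lit 6) (nat_lit 8))
    (@En.n l1867 (nat_lit 5920) (nat_lit 8) (nat_lit 12))
    (@En.i (nat_lit 6633) (nat_lit 9) (nat_lit 12))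
    (@En.n l11382 (nat_lit 5918) (nat_lit 13) (nat_lit 3))
    (@En.n l18 (nat_lit 5931) (nat_lit 10) (nat_lit 3))
    (@En.n l11383 (nat_lit 5905) (nat_lit 0) (nat_lit 7))
    (@En.n l61 (nat_lit 5931) (nat_lit 13) (nat_lit 13))
    (@En.i (nat_lit 12767) (nat_lit 14) (nat_lit 13))
    (@En.n l3506 (nat_lit 5873) (nat_lit 3) (nat_lit 8))
    (@En.n l28 (nat_lit 5875) (nat_lit 15) (nat_lit 2))))
  (@Cl.mk (nat_lit 0x2000c000b0004000a0004000e00050002000d0006000e00030002000e000c) (nat_lit 0x410307005040067) (nat_lit 16) Lb.e (@T16.mk En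
    (@En.i (nat_lit 4511) (nat_lit 14) (nat_lit 12))
    (@En.i (nat_lit 8021) (nat_lit 1) (nat_lit 14))
    (@En.n l17 (nat_lit 5876) (nat_lit 2) (nat_lit 2))
    (@En.n l2869 (nat_lit 4517) (nat_lit 3) (nat_lit 3))
    (@En.i (nat_lit 13174) (nat_lit 0) (nat_lit 14))
    (@En.i (nat_lit 5794) (nat_lit 14) (nat_lit 6))
    (@En.i (nat_lit 8539) (nat_lit 7) (nat_lit 13))
    (@En.n l7 (nat_lit 5876) (nat_lit 7) (nat_lit 2))
    (@En.n l5246 (nat_lit 4821) (nat_lit 8) (nat_lit 5))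
    (@En.n l134 (nat_lit 5872) (nat_lit 1) (nat_lit 14))
    (@En.i (nat_lit 5891) (nat_lit 10) (nat_lit 4))
    (@En.i (nat_lit 3637) (nat_lit 3) (nat_lit 10))
    (@En.i (nat_lit 5343) (nat_lit 4) (nat_lit 4))
    (@En.n l55 (nat_lit 3575) (nat_lit 14) (nat_lit 11))
    (@En.i (nat_lit 6093) (nat_lit 12) (nat_lit 12))
    (@En.n l3 (nat_lit 5876) (nat_lit 15) (nat_lit 2))))
  (@Cl.mk (nat_lit 0x2000c0005000c000b0004000a0004000e00050002000c0006000b000e0004) (nat_lit 0x604103000000150) (nat_lit 16) Lb.e (@T16.mk En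
    (@En.n l2116 (nat_lit 5887) (nat_lit 10) (nat_lit 4))
    (@En.i (nat_lit 5876) (nat_lit 4) (nat_lit 14))
    (@En.n l1782 (nat_lit 2649) (nat_lit 2) (nat_lit 11))
    (@En.i (nat_lit 6008) (nat_lit 14) (nat_lit 6))
    (@En.i (nat_lit 9702) (nat_lit 5) (nat_lit 12))
    (@En.n l7 (nat_lit 5877) (nat_lit 5) (nat_lit 2))
    (@En.n l5246 (nat_lit 5880) (nat_lit 6) (nat_lit 5))
    (@En.n l134 (nat_lit 7508) (nat_lit 1) (nat_lit 14))
    (@En.i (nat_lit 8901) (nat_lit 8) (nat_lit 4))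
    (@En.i (nat_lit 3607) (nat_lit 10) (nat_lit 10))
    (@En.i (nat_lit 12796) (nat_lit 4) (nat_lit 4))
    (@En.n l55 (nat_lit 4076) (nat_lit 12) (nat_lit 11))
    (@En.n l781 (nat_lit 12800) (nat_lit 7) (nat_lit 12))
    (@En.i (nat_lit 5879) (nat_lit 14) (nat_lit 5))
    (@En.n l2125 (nat_lit 6547) (nat_lit 9) (nat_lit 12))
    (@En.n l17 (nat_lit 5877) (nat_lit 15) (nat_lit 2))))
  (@Cl.mk (nat_lit 0x2000c00060009000e00040002000c000b000a00070004000a0005000e0006) (nat_lit 0x25006310040a0) (nat_lit 16) Lb.e (@T16.mk En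
    (@En.i (nat_lit 5882) (nat_lit 6) (nat_lit 6))
    (@En.n l134 (nat_lit 7509) (nat_lit 1) (nat_lit 14))
    (@En.i (nat_lit 8972) (nat_lit 8) (nat_lit 5))
    (@En.n l1690 (nat_lit 5879) (nat_lit 10) (nat_lit 10))
    (@En.n l152 (nat_lit 5877) (nat_lit 10) (nat_lit 4))
    (@En.n l9995 (nat_lit 4563) (nat_lit 5) (nat_lit 7))
    (@En.n l55 (nat_lit 4075) (nat_lit 13) (nat_lit 10))
    (@En.n l619 (nat_lit 12797) (nat_lit 14) (nat_lit 11))
    (@En.i (nat_lit 6540) (nat_lit 9) (nat_lit 12))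
    (@En.n l17 (nat_lit 5878) (nat_lit 9) (nat_lit 2))
    (@En.n l16338 (nat_lit 5886) (nat_lit 10) (nat_lit 4))
    (@En.i (nat_lit 4511) (nat_lit 1) (nat_lit 14))
    (@En.n l11612 (nat_lit 4504) (nat_lit 9) (nat_lit 9))
    (@En.i (nat_lit 6009) (nat_lit 14) (nat_lit 6))
    (@En.i (nat_lit 9704) (nat_lit 5) (nat_lit 12))
    (@En.n l7 (nat_lit 5878) (nat_lit 15) (nat_lit 2))))
  (@Cl.mk (nat_lit 0x20005000c000b0007000a0004000e00050002000b0006000b0009000e0005) (nat_lit 0x21030900008360) (nat_lit 16) Lb.e (@T16.mk En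
    (@En.n l2116 (nat_lit 5885) (nat_lit 9) (nat_lit 5))
    (@En.n l3 (nat_lit 5877) (nat_lit 1) (nat_lit 14))
    (@En.n l3 (nat_lit 5878) (nat_lit 12) (nat_lit 9))
    (@En.n l16630 (nat_lit 3751) (nat_lit 3) (nat_lit 11))
    (@En.n l10027 (nat_lit 6007) (nat_lit 4) (nat_lit 6))
    (@En.i (nat_lit 9703) (nat_lit 6) (nat_lit 11))
    (@En.n l7 (nat_lit 5879) (nat_lit 6) (nat_lit 2))
    (@En.n l5246 (nat_lit 5881) (nat_lit 7) (nat_lit 5))
    (@En.n l134 (nat_lit 7453) (nat_lit 9) (nat_lit 14))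
    (@En.i (nat_lit 8898) (nat_lit 9) (nat_lit 4))
    (@En.n l5033 (nat_lit 3638) (nat_lit 11) (nat_lit 10))
    (@En.n l4938 (nat_lit 4474) (nat_lit 12) (nat_lit 7))
    (@En.n l55 (nat_lit 4077) (nat_lit 13) (nat_lit 11))
    (@En.n l3105 (nat_lit 12798) (nat_lit 7) (nat_lit 12))
    (@En.n l3106 (nat_lit 8023) (nat_lit 13) (nat_lit 5))
    (@En.n l17 (nat_lit 5879) (nat_lit 15) (nat_lit 2))))
  (@Cl.mk (nat_lit 0x2000b0005000b000b000b0005000b000500050005000c0005000b000e0004) (nat_lit 0x603020700090260) (nat_lit 16) Lb.e (@T16.mk En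
    (@En.n l29634 (nat_lit 5888) (nat_lit 15) (nat_lit 4))
    (@En.i (nat_lit 4821) (nat_lit 4) (nat_lit 14))
    (@En.n l15121 (nat_lit 3076) (nat_lit 2) (nat_lit 11))
    (@En.i (nat_lit 5158) (nat_lit 3) (nat_lit 5))
    (@En.n l24720 (nat_lit 9441) (nat_lit 5) (nat_lit 12))
    (@En.n l1578 (nat_lit 7461) (nat_lit 11) (nat_lit 5))
    (@En.n l575 (nat_lit 7501) (nat_lit 6) (nat_lit 5))
    (@En.n l5399 (nat_lit 8903) (nat_lit 7) (nat_lit 5))
    (@En.n l3872 (nat_lit 2864) (nat_lit 9) (nat_lit 11))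
    (@En.n l810 (nat_lit 7800) (nat_lit 9) (nat_lit 5))
    (@En.n l565 (nat_lit 5877) (nat_lit 11) (nat_lit 11))
    (@En.n l5402 (nat_lit 7796) (nat_lit 5) (nat_lit 11))
    (@En.n l13597 (nat_lit 5616) (nat_lit 13) (nat_lit 11))
    (@En.i (nat_lit 5881) (nat_lit 14) (nat_lit 5))
    (@En.n l2125 (nat_lit 5170) (nat_lit 0) (nat_lit 11))
    (@En.n l17 (nat_lit 5880) (nat_lit 15) (nat_lit 2))))
  (@Cl.mk (nat_lit 0x20005000b000b000b0008000b000500050005000b0005000b0008000e0005) (nat_lit 0x30237000007370) (nat_lit 16) Lb.e (@T16.mk En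
    (@En.n l16739 (nat_lit 5883) (nat_lit 1) (nat_lit 5))
    (@En.n l3 (nat_lit 5880) (nat_lit 1) (nat_lit 14))
    (@En.n l16740 (nat_lit 5882) (nat_lit 2) (nat_lit 8))
    (@En.n l16741 (nat_lit 2974) (nat_lit 3) (nat_lit 11))
    (@En.n l11049 (nat_lit 5156) (nat_lit 4) (nat_lit 5))
    (@En.n l16742 (nat_lit 9436) (nat_lit 6) (nat_lit 11))
    (@En.n l16743 (nat_lit 7459) (nat_lit 6) (nat_lit 5))
    (@En.n l575 (nat_lit 5889) (nat_lit 7) (nat_lit 5))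
    (@En.n l16744 (nat_lit 8909) (nat_lit 8) (nat_lit 5))
    (@En.n l16745 (nat_lit 3610) (nat_lit 10) (nat_lit 11))
    (@En.n l6105 (nat_lit 7246) (nat_lit 11) (nat_lit 8))
    (@En.n l565 (nat_lit 5879) (nat_lit 12) (nat_lit 11))
    (@En.n l5402 (nat_lit 7795) (nat_lit 13) (nat_lit 11))
    (@En.n l16746 (nat_lit 7805) (nat_lit 14) (nat_lit 11))
    (@En.n l3106 (nat_lit 8025) (nat_lit 13) (nat_lit 5))
    (@En.n l17 (nat_lit 5881) (nat_lit 15) (nat_lit 2))))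
  (@Cl.mk (nat_lit 0x2000b000a000a000a00080005000b000600060006000c00050008000e0004) (nat_lit 0x230240800050290) (nat_lit 16) Lb.e (@T16.mk En
    (@En.n l18738 (nat_lit 5884) (nat_lit 15) (nat_lit 4))
    (@En.i (nat_lit 3295) (nat_lit 1) (nat_lit 14))
    (@En.n l16847 (nat_lit 3099) (nat_lit 10) (nat_lit 8))
    (@En.n l26887 (nat_lit 5157) (nat_lit 3) (nat_lit 5))
    (@En.n l31397 (nat_lit 9440) (nat_lit 5) (nat_lit 12))
    (@En.n l31398 (nat_lit 7460) (nat_lit 10) (nat_lit 6))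
    (@En.n l4963 (nat_lit 7514) (nat_lit 6) (nat_lit 6))
    (@En.i (nat_lit 8968) (nat_lit 7) (nat_lit 6))
    (@En.n l31399 (nat_lit 5881) (nat_lit 9) (nat_lit 11))
    (@En.n l4965 (nat_lit 5880) (nat_lit 9) (nat_lit 5))
    (@En.n l31400 (nat_lit 7477) (nat_lit 11) (nat_lit 8))
    (@En.n l77 (nat_lit 5878) (nat_lit 6) (nat_lit 10))
    (@En.n l4512 (nat_lit 7794) (nat_lit 6) (nat_lit 10))
    (@En.n l31401 (nat_lit 7804) (nat_lit 14) (nat_lit 10))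
    (@En.i (nat_lit 5173) (nat_lit 14) (nat_lit 11))
    (@En.n l17 (nat_lit 5882) (nat_lit 15) (nat_lit 2))))
  (@Cl.mk (nat_lit 0x4000b000b000b0007000a000500050005000b000b0006000c000900050005) (nat_lit 0x2030004103500) (nat_lit 16) Lb.e (@T16.mk En
    (@En.n l15893 (nat_lit 6764) (nat_lit 11) (nat_lit 5))
    (@En.i (nat_lit 2417) (nat_lit 1) (nat_lit 5))
    (@En.n l13906 (nat_lit 5884) (nat_lit 0) (nat_lit 9))
    (@En.i (nat_lit 1381) (nat_lit 1) (nat_lit 12))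
    (@En.n l15894 (nat_lit 7522) (nat_lit 2) (nat_lit 6))
    (@En.n l15895 (nat_lit 5881) (nat_lit 5) (nat_lit 11))
    (@En.n l15896 (nat_lit 9458) (nat_lit 13) (nat_lit 11))
    (@En.n l15897 (nat_lit 6763) (nat_lit 11) (nat_lit 5))
    (@En.n l15898 (nat_lit 6363) (nat_lit 11) (nat_lit 5))
    (@En.n l4976 (nat_lit 8893) (nat_lit 0) (nat_lit 5))
    (@En.n l15894 (nat_lit 3563) (nat_lit 8) (nat_lit 10))
    (@En.n l15899 (nat_lit 6883) (nat_lit 1) (nat_lit 7))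
    (@En.n l15900 (nat_lit 5885) (nat_lit 5) (nat_lit 11))
    (@En.n l15901 (nat_lit 6340) (nat_lit 5) (nat_lit 11))
    (@En.n l15902 (nat_lit 7988) (nat_lit 13) (nat_lit 11))
    (@En.n l15903 (nat_lit 6355) (nat_lit 12) (nat_lit 4))))
  (@Cl.mk (nat_lit 0x40004000b000a000a000a00070005000a000600060006000c000c00060009) (nat_lit 0x90020040005604) (nat_lit 16) Lb.e (@T16.mk En
    (@En.n l30309 (nat_lit 3091) (nat_lit 9) (nat_lit 9))
    (@En.n l742 (nat_lit 7521) (nat_lit 1) (nat_lit 6))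
    (@En.n l27594 (nat_lit 5882) (nat_lit 4) (nat_lit 12))
    (@En.n l30310 (nat_lit 9452) (nat_lit 3) (nat_lit 12))
    (@En.n l16880 (nat_lit 6575) (nat_lit 10) (nat_lit 6))
    (@En.n l30311 (nat_lit 6365) (nat_lit 10) (nat_lit 6))
    (@En.n l9988 (nat_lit 8940) (nat_lit 6) (nat_lit 6))
    (@En.i (nat_lit 5883) (nat_lit 10) (nat_lit 10))
    (@En.n l12620 (nat_lit 5888) (nat_lit 8) (nat_lit 5))
    (@En.i (nat_lit 6672) (nat_lit 0) (nat_lit 7))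
    (@En.n l15686 (nat_lit 5886) (nat_lit 6) (nat_lit 10))
    (@En.n l9518 (nat_lit 6341) (nat_lit 6) (nat_lit 10))
    (@En.n l15902 (nat_lit 7107) (nat_lit 6) (nat_lit 10))
    (@En.n l22891 (nat_lit 6444) (nat_lit 14) (nat_lit 11))
    (@En.n l30312 (nat_lit 6765) (nat_lit 12) (nat_lit 4))
    (@En.i (nat_lit 7497) (nat_lit 0) (nat_lit 4))))
  (@Cl.mk (nat_lit 0x2000b000b0007000c000a000500050004000c000b000600090004000e0005) (nat_lit 0x10940000101080) (nat_lit 16) Lb.e (@T16.mk En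
    (@En.n l15800 (nat_lit 5883) (nat_lit 8) (nat_lit 5))
    (@En.n l9760 (nat_lit 7599) (nat_lit 1) (nat_lit 14))
    (@En.n l15801 (nat_lit 8891) (nat_lit 2) (nat_lit 4))
    (@En.i (nat_lit 3639) (nat_lit 9) (nat_lit 9))
    (@En.n l15802 (nat_lit 3355) (nat_lit 4) (nat_lit 6))
    (@En.n l9762 (nat_lit 4083) (nat_lit 5) (nat_lit 11))
    (@En.n l532 (nat_lit 7984) (nat_lit 7) (nat_lit 12))
    (@En.n l15803 (nat_lit 6248) (nat_lit 7) (nat_lit 4))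
    (@En.n l5761 (nat_lit 7977) (nat_lit 11) (nat_lit 5))
    (@En.n l15800 (nat_lit 6245) (nat_lit 9) (nat_lit 5))
    (@En.i (nat_lit 5886) (nat_lit 11) (nat_lit 10))
    (@En.n l55 (nat_lit 2654) (nat_lit 12) (nat_lit 12))
    (@En.n l2308 (nat_lit 6388) (nat_lit 13) (nat_lit 7))
    (@En.n l5579 (nat_lit 5879) (nat_lit 5) (nat_lit 11))
    (@En.i (nat_lit 9428) (nat_lit 12) (nat_lit 11))
    (@En.n l17 (nat_lit 5885) (nat_lit 15) (nat_lit 2))))
  (@Cl.mk (nat_lit 0x2000c000c0007000a00040004000c000b000a0006000400090005000e0006) (nat_lit 0x10300a01002090) (nat_lit 16) Lb.e (@T16.mk En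
    (@En.n l6387 (nat_lit 5884) (nat_lit 5) (nat_lit 6))
    (@En.n l22698 (nat_lit 7598) (nat_lit 1) (nat_lit 14))
    (@En.n l15801 (nat_lit 8973) (nat_lit 2) (nat_lit 5))
    (@En.n l28 (nat_lit 5885) (nat_lit 3) (nat_lit 9))
    (@En.i (nat_lit 5887) (nat_lit 4) (nat_lit 4))
    (@En.n l6034 (nat_lit 4565) (nat_lit 5) (nat_lit 6))
    (@En.n l22699 (nat_lit 4081) (nat_lit 6) (nat_lit 10))
    (@En.n l2281 (nat_lit 7983) (nat_lit 8) (nat_lit 11))
    (@En.n l22700 (nat_lit 6441) (nat_lit 9) (nat_lit 12))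
    (@En.n l22701 (nat_lit 7976) (nat_lit 12) (nat_lit 4))
    (@En.n l6387 (nat_lit 6393) (nat_lit 10) (nat_lit 4))
    (@En.n l2281 (nat_lit 4505) (nat_lit 8) (nat_lit 10))
    (@En.n l11655 (nat_lit 6390) (nat_lit 13) (nat_lit 7))
    (@En.n l22702 (nat_lit 5878) (nat_lit 14) (nat_lit 12))
    (@En.i (nat_lit 9712) (nat_lit 3) (nat_lit 12))
    (@En.n l17 (nat_lit 5886) (nat_lit 15) (nat_lit 2))))
  (@Cl.mk (nat_lit 0x2000c000c0007000c00040004000c0004000c000b000400090004000e0005) (nat_lit 0x1080070a102000) (nat_lit 16) Lb.e (@T16.mk En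
    (@En.n l50 (nat_lit 5888) (nat_lit 5) (nat_lit 5))
    (@En.n l9760 (nat_lit 7600) (nat_lit 1) (nat_lit 14))
    (@En.n l15801 (nat_lit 8900) (nat_lit 2) (nat_lit 4))
    (@En.i (nat_lit 3636) (nat_lit 3) (nat_lit 9))
    (@En.i (nat_lit 7982) (nat_lit 4) (nat_lit 4))
    (@En.n l9762 (nat_lit 4082) (nat_lit 5) (nat_lit 11))
    (@En.n l532 (nat_lit 12804) (nat_lit 7) (nat_lit 12))
    (@En.i (nat_lit 5885) (nat_lit 7) (nat_lit 4))
    (@En.n l12927 (nat_lit 5601) (nat_lit 9) (nat_lit 12))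
    (@En.n l5761 (nat_lit 7978) (nat_lit 12) (nat_lit 4))
    (@En.n l936 (nat_lit 6396) (nat_lit 10) (nat_lit 4))
    (@En.n l55 (nat_lit 2650) (nat_lit 12) (nat_lit 12))
    (@En.n l287 (nat_lit 6387) (nat_lit 13) (nat_lit 7))
    (@En.n l5579 (nat_lit 5877) (nat_lit 4) (nat_lit 12))
    (@En.i (nat_lit 9714) (nat_lit 3) (nat_lit 12))
    (@En.n l17 (nat_lit 5887) (nat_lit 15) (nat_lit 2))))
noncomputable def a368 : T16 Cl := @T16.mk Cl
  (@Cl.mk (nat_lit 0x40004000b0004000b000b000b0005000a000500050005000c000c0006000c) (nat_lit 0x60202010009a03) (nat_lit 16) Lb.e (@T16.mk En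
    (@En.n l55 (nat_lit 2645) (nat_lit 0) (nat_lit 12))
    (@En.n l27682 (nat_lit 6301) (nat_lit 1) (nat_lit 6))
    (@En.n l6093 (nat_lit 5880) (nat_lit 4) (nat_lit 12))
    (@En.i (nat_lit 9358) (nat_lit 3) (nat_lit 12))
    (@En.n l5663 (nat_lit 6767) (nat_lit 11) (nat_lit 5))
    (@En.n l12755 (nat_lit 6364) (nat_lit 11) (nat_lit 5))
    (@En.n l134 (nat_lit 8871) (nat_lit 6) (nat_lit 5))
    (@En.i (nat_lit 2879) (nat_lit 0) (nat_lit 10))
    (@En.n l27683 (nat_lit 7092) (nat_lit 1) (nat_lit 5))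
    (@En.n l742 (nat_lit 5887) (nat_lit 5) (nat_lit 11))
    (@En.n l396 (nat_lit 6308) (nat_lit 5) (nat_lit 11))
    (@En.n l7 (nat_lit 5594) (nat_lit 12) (nat_lit 11))
    (@En.n l27684 (nat_lit 5883) (nat_lit 15) (nat_lit 4))
    (@En.n l27685 (nat_lit 5606) (nat_lit 0) (nat_lit 11))
    (@En.n l27686 (nat_lit 6766) (nat_lit 12) (nat_lit 4))
    (@En.n l936 (nat_lit 6297) (nat_lit 0) (nat_lit 4))))
  (@Cl.mk (nat_lit 0x20005000e000b0002000c0009000c00050004000b0004000b0007000e0005) (nat_lit 0x84034500002060) (nat_lit 16) Lb.e (@T16.mk En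
    (@En.n l3098 (nat_lit 6363) (nat_lit 4) (nat_lit 5))
    (@En.n l3 (nat_lit 7501) (nat_lit 1) (nat_lit 14))
    (@En.n l3 (nat_lit 7514) (nat_lit 2) (nat_lit 7))
    (@En.n l6730 (nat_lit 1375) (nat_lit 3) (nat_lit 11))
    (@En.i (nat_lit 5152) (nat_lit 4) (nat_lit 4))
    (@En.n l6731 (nat_lit 11525) (nat_lit 10) (nat_lit 11))
    (@En.i (nat_lit 7367) (nat_lit 6) (nat_lit 4))
    (@En.n l6730 (nat_lit 8912) (nat_lit 7) (nat_lit 5))
    (@En.n l6732 (nat_lit 3619) (nat_lit 9) (nat_lit 12))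
    (@En.n l6105 (nat_lit 7472) (nat_lit 10) (nat_lit 9))
    (@En.n l28 (nat_lit 7505) (nat_lit 11) (nat_lit 12))
    (@En.n l11 (nat_lit 5889) (nat_lit 11) (nat_lit 2))
    (@En.i (nat_lit 5881) (nat_lit 13) (nat_lit 11))
    (@En.n l5236 (nat_lit 7925) (nat_lit 1) (nat_lit 14))
    (@En.n l3106 (nat_lit 8029) (nat_lit 13) (nat_lit 5))
    (@En.n l17 (nat_lit 5889) (nat_lit 15) (nat_lit 2))))
  (@Cl.mk (nat_lit 0x2000a0003000e000b0002000c0006000c00050004000e00040002000e000d) (nat_lit 0x806907040060057) (nat_lit 16) Lb.e (@T16.mk En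
    (@En.i (nat_lit 4671) (nat_lit 6) (nat_lit 13))
    (@En.i (nat_lit 7478) (nat_lit 1) (nat_lit 14))
    (@En.n l17 (nat_lit 5890) (nat_lit 2) (nat_lit 2))
    (@En.i (nat_lit 4665) (nat_lit 3) (nat_lit 4))
    (@En.i (nat_lit 3227) (nat_lit 1) (nat_lit 14))
    (@En.i (nat_lit 3578) (nat_lit 5) (nat_lit 4))
    (@En.i (nat_lit 5333) (nat_lit 6) (nat_lit 5))
    (@En.n l11620 (nat_lit 4019) (nat_lit 8) (nat_lit 12))
    (@En.n l564 (nat_lit 12808) (nat_lit 14) (nat_lit 6))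
    (@En.n l7 (nat_lit 5897) (nat_lit 10) (nat_lit 12))
    (@En.n l28 (nat_lit 5890) (nat_lit 10) (nat_lit 2))
    (@En.i (nat_lit 5827) (nat_lit 12) (nat_lit 11))
    (@En.i (nat_lit 10118) (nat_lit 1) (nat_lit 14))
    (@En.n l117 (nat_lit 4671) (nat_lit 2) (nat_lit 3))
    (@En.i (nat_lit 5759) (nat_lit 12) (nat_lit 10))
    (@En.n l3 (nat_lit 5890) (nat_lit 15) (nat_lit 2))))
  (@Cl.mk (nat_lit 0x2000c0008000c00050004000e00040002000d0008000e00030002000e000b) (nat_lit 0x454006007640069) (nat_lit 16) Lb.e (@T16.mk En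
    (@En.i (nat_lit 5826) (nat_lit 14) (nat_lit 11))
    (@En.i (nat_lit 10986) (nat_lit 1) (nat_lit 14))
    (@En.n l17 (nat_lit 5891) (nat_lit 2) (nat_lit 2))
    (@En.n l2943 (nat_lit 4671) (nat_lit 3) (nat_lit 3))
    (@En.i (nat_lit 13171) (nat_lit 0) (nat_lit 14))
    (@En.i (nat_lit 6464) (nat_lit 14) (nat_lit 8))
    (@En.i (nat_lit 7912) (nat_lit 7) (nat_lit 13))
    (@En.n l7 (nat_lit 5891) (nat_lit 7) (nat_lit 2))
    (@En.n l11 (nat_lit 4666) (nat_lit 8) (nat_lit 4))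
    (@En.n l134 (nat_lit 3525) (nat_lit 1) (nat_lit 14))
    (@En.n l11 (nat_lit 4123) (nat_lit 10) (nat_lit 4))
    (@En.i (nat_lit 5335) (nat_lit 3) (nat_lit 5))
    (@En.i (nat_lit 3830) (nat_lit 13) (nat_lit 12))
    (@En.n l532 (nat_lit 12809) (nat_lit 14) (nat_lit 8))
    (@En.i (nat_lit 5895) (nat_lit 12) (nat_lit 12))
    (@En.n l3 (nat_lit 5891) (nat_lit 15) (nat_lit 2))))
  (@Cl.mk (nat_lit 0x2000d000d000a000300030009000c000c0006000b000400040007000e0005) (nat_lit 0x798007990100070) (nat_lit 16) Lb.e (@T16.mk En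
    (@En.i (nat_lit 5901) (nat_lit 4) (nat_lit 5))
    (@En.n l226 (nat_lit 740) (nat_lit 1) (nat_lit 14))
    (@En.n l28 (nat_lit 5894) (nat_lit 11) (nat_lit 7))
    (@En.n l77 (nat_lit 5894) (nat_lit 12) (nat_lit 4))
    (@En.n l3039 (nat_lit 6092) (nat_lit 4) (nat_lit 4))
    (@En.n l20930 (nat_lit 592) (nat_lit 0) (nat_lit 11))
    (@En.i (nat_lit 12197) (nat_lit 6) (nat_lit 6))
    (@En.n l14612 (nat_lit 5898) (nat_lit 4) (nat_lit 12))
    (@En.n l3039 (nat_lit 5828) (nat_lit 9) (nat_lit 12))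
    (@En.n l476 (nat_lit 7261) (nat_lit 10) (nat_lit 9))
    (@En.n l152 (nat_lit 5897) (nat_lit 13) (nat_lit 3))
    (@En.n l36126 (nat_lit 5895) (nat_lit 0) (nat_lit 3))
    (@En.n l97 (nat_lit 5201) (nat_lit 0) (nat_lit 10))
    (@En.n l39309 (nat_lit 5895) (nat_lit 3) (nat_lit 13))
    (@En.n l226 (nat_lit 7860) (nat_lit 2) (nat_lit 13))
    (@En.n l17 (nat_lit 5892) (nat_lit 15) (nat_lit 2))))
  (@Cl.mk (nat_lit 0x20008000c00040007000e00040002000d0008000e000300020009000e000c) (nat_lit 0x51001007650077a) (nat_lit 16) Lb.e (@T16.mk En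
    (@En.n l180 (nat_lit 5895) (nat_lit 13) (nat_lit 12))
    (@En.n l619 (nat_lit 5891) (nat_lit 1) (nat_lit 14))
    (@En.i (nat_lit 7259) (nat_lit 2) (nat_lit 9))
    (@En.n l17 (nat_lit 5893) (nat_lit 3) (nat_lit 2))
    (@En.n l2869 (nat_lit 5894) (nat_lit 4) (nat_lit 3))
    (@En.i (nat_lit 13172) (nat_lit 0) (nat_lit 14))
    (@En.i (nat_lit 4957) (nat_lit 6) (nat_lit 8))
    (@En.i (nat_lit 7865) (nat_lit 8) (nat_lit 13))
    (@En.n l7 (nat_lit 5893) (nat_lit 8) (nat_lit 2))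
    (@En.i (nat_lit 6060) (nat_lit 9) (nat_lit 4))
    (@En.n l1643 (nat_lit 781) (nat_lit 7) (nat_lit 14))
    (@En.i (nat_lit 13269) (nat_lit 11) (nat_lit 7))
    (@En.i (nat_lit 6093) (nat_lit 8) (nat_lit 4))
    (@En.i (nat_lit 597) (nat_lit 10) (nat_lit 12))
    (@En.i (nat_lit 12200) (nat_lit 11) (nat_lit 8))
    (@En.n l107 (nat_lit 5893) (nat_lit 15) (nat_lit 2))))
  (@Cl.mk (nat_lit 0x20007000c00040007000e00040002000d000d0009000300030009000e000c) (nat_lit 0x1007006870077a) (nat_lit 16) Lb.e (@T16.mk En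
    (@En.i (nat_lit 5892) (nat_lit 8) (nat_lit 12))
    (@En.n l134 (nat_lit 4671) (nat_lit 1) (nat_lit 14))
    (@En.n l476 (nat_lit 7258) (nat_lit 2) (nat_lit 9))
    (@En.n l152 (nat_lit 5896) (nat_lit 3) (nat_lit 3))
    (@En.n l1865 (nat_lit 5893) (nat_lit 4) (nat_lit 3))
    (@En.n l97 (nat_lit 6017) (nat_lit 5) (nat_lit 9))
    (@En.n l1867 (nat_lit 5893) (nat_lit 7) (nat_lit 13))
    (@En.i (nat_lit 7863) (nat_lit 8) (nat_lit 13))
    (@En.n l17 (nat_lit 5894) (nat_lit 8) (nat_lit 2))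
    (@En.i (nat_lit 5903) (nat_lit 9) (nat_lit 4))
    (@En.n l226 (nat_lit 637) (nat_lit 11) (nat_lit 14))
    (@En.i (nat_lit 13271) (nat_lit 11) (nat_lit 7))
    (@En.i (nat_lit 6091) (nat_lit 3) (nat_lit 4))
    (@En.n l649 (nat_lit 595) (nat_lit 14) (nat_lit 12))
    (@En.i (nat_lit 12198) (nat_lit 5) (nat_lit 7))
    (@En.n l7 (nat_lit 5894) (nat_lit 15) (nat_lit 2))))
  (@Cl.mk (nat_lit 0x20009000c000c0007000b000400040007000e00050002000d0009000e0003) (nat_lit 0x793010002008740) (nat_lit 16) Lb.e (@T16.mk En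
    (@En.n l24935 (nat_lit 5892) (nat_lit 11) (nat_lit 3))
    (@En.i (nat_lit 13173) (nat_lit 0) (nat_lit 14))
    (@En.i (nat_lit 4768) (nat_lit 2) (nat_lit 9))
    (@En.n l615 (nat_lit 7845) (nat_lit 2) (nat_lit 13))
    (@En.n l7 (nat_lit 5895) (nat_lit 4) (nat_lit 2))
    (@En.n l5732 (nat_lit 6059) (nat_lit 5) (nat_lit 5))
    (@En.n l615 (nat_lit 750) (nat_lit 7) (nat_lit 14))
    (@En.n l159 (nat_lit 5893) (nat_lit 11) (nat_lit 7))
    (@En.n l11 (nat_lit 5893) (nat_lit 12) (nat_lit 4))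
    (@En.i (nat_lit 6094) (nat_lit 9) (nat_lit 4))
    (@En.i (nat_lit 593) (nat_lit 11) (nat_lit 11))
    (@En.i (nat_lit 5956) (nat_lit 12) (nat_lit 7))
    (@En.n l1572 (nat_lit 5900) (nat_lit 4) (nat_lit 12))
    (@En.n l619 (nat_lit 5830) (nat_lit 14) (nat_lit 12))
    (@En.i (nat_lit 7260) (nat_lit 10) (nat_lit 9))
    (@En.n l17 (nat_lit 5895) (nat_lit 15) (nat_lit 2))))
  (@Cl.mk (nat_lit 0x20006000c00040007000e00040002000e000d0002000a00030009000e000c) (nat_lit 0x1001005708077a) (nat_lit 16) Lb.e (@T16.mk En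
    (@En.i (nat_lit 5897) (nat_lit 11) (nat_lit 12))
    (@En.n l134 (nat_lit 5890) (nat_lit 12) (nat_lit 14))
    (@En.i (nat_lit 2518) (nat_lit 2) (nat_lit 9))
    (@En.n l117 (nat_lit 5894) (nat_lit 3) (nat_lit 3))
    (@En.i (nat_lit 6022) (nat_lit 4) (nat_lit 10))
    (@En.n l3 (nat_lit 5896) (nat_lit 5) (nat_lit 2))
    (@En.i (nat_lit 5894) (nat_lit 7) (nat_lit 13))
    (@En.i (nat_lit 5983) (nat_lit 1) (nat_lit 14))
    (@En.n l17 (nat_lit 5896) (nat_lit 8) (nat_lit 2))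
    (@En.i (nat_lit 5975) (nat_lit 9) (nat_lit 4))
    (@En.n l2031 (nat_lit 780) (nat_lit 11) (nat_lit 14))
    (@En.i (nat_lit 13273) (nat_lit 11) (nat_lit 7))
    (@En.i (nat_lit 6090) (nat_lit 6) (nat_lit 4))
    (@En.n l2573 (nat_lit 849) (nat_lit 8) (nat_lit 12))
    (@En.i (nat_lit 6372) (nat_lit 8) (nat_lit 6))
    (@En.n l7 (nat_lit 5896) (nat_lit 15) (nat_lit 2))))
  (@Cl.mk (nat_lit 0x2000b00030009000c000c0005000b000400040007000e00050002000e000d) (nat_lit 0x907960100020068) (nat_lit 16) Lb.e (@T16.mk En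
    (@En.i (nat_lit 5892) (nat_lit 14) (nat_lit 13))
    (@En.i (nat_lit 5980) (nat_lit 1) (nat_lit 14))
    (@En.n l17 (nat_lit 5897) (nat_lit 2) (nat_lit 2))
    (@En.i (nat_lit 5902) (nat_lit 3) (nat_lit 5))
    (@En.n l2031 (nat_lit 751) (nat_lit 1) (nat_lit 14))
    (@En.n l28 (nat_lit 5896) (nat_lit 11) (nat_lit 7))
    (@En.n l77 (nat_lit 5896) (nat_lit 12) (nat_lit 4))
    (@En.n l3039 (nat_lit 6089) (nat_lit 7) (nat_lit 4))
    (@En.n l2031 (nat_lit 847) (nat_lit 9) (nat_lit 11))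
    (@En.i (nat_lit 6373) (nat_lit 9) (nat_lit 5))
    (@En.n l14612 (nat_lit 5899) (nat_lit 4) (nat_lit 12))
    (@En.n l3039 (nat_lit 5831) (nat_lit 12) (nat_lit 12))
    (@En.i (nat_lit 2065) (nat_lit 13) (nat_lit 9))
    (@En.n l117 (nat_lit 5892) (nat_lit 10) (nat_lit 3))
    (@En.i (nat_lit 6018) (nat_lit 0) (nat_lit 11))
    (@En.n l3 (nat_lit 5897) (nat_lit 15) (nat_lit 2))))
  (@Cl.mk (nat_lit 0x20007000e00060002000d000d000b000300030009000c0005000a000e0004) (nat_lit 0x3008a900780140) (nat_lit 16) Lb.e (@T16.mk En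
    (@En.n l8898 (nat_lit 5892) (nat_lit 4) (nat_lit 4))
    (@En.i (nat_lit 4121) (nat_lit 1) (nat_lit 14))
    (@En.n l649 (nat_lit 594) (nat_lit 2) (nat_lit 10))
    (@En.i (nat_lit 9119) (nat_lit 3) (nat_lit 5))
    (@En.i (nat_lit 4695) (nat_lit 9) (nat_lit 12))
    (@En.n l476 (nat_lit 7565) (nat_lit 5) (nat_lit 9))
    (@En.n l152 (nat_lit 5899) (nat_lit 6) (nat_lit 3))
    (@En.n l1865 (nat_lit 5900) (nat_lit 7) (nat_lit 3))
    (@En.n l619 (nat_lit 6016) (nat_lit 9) (nat_lit 11))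
    (@En.n l1867 (nat_lit 5900) (nat_lit 10) (nat_lit 13))
    (@En.i (nat_lit 7853) (nat_lit 11) (nat_lit 13))
    (@En.n l17 (nat_lit 5898) (nat_lit 11) (nat_lit 2))
    (@En.i (nat_lit 5847) (nat_lit 13) (nat_lit 6))
    (@En.i (nat_lit 744) (nat_lit 1) (nat_lit 14))
    (@En.n l5934 (nat_lit 5892) (nat_lit 2) (nat_lit 7))
    (@En.n l7 (nat_lit 5898) (nat_lit 15) (nat_lit 2))))
  (@Cl.mk (nat_lit 0x20007000e00060002000e000d0002000c00030009000c0004000a000e0004) (nat_lit 0x300790a0650140) (nat_lit 16) Lb.e (@T16.mk En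
    (@En.n l8898 (nat_lit 5897) (nat_lit 7) (nat_lit 4))
    (@En.i (nat_lit 4123) (nat_lit 9) (nat_lit 14))
    (@En.i (nat_lit 848) (nat_lit 10) (nat_lit 10))
    (@En.i (nat_lit 9123) (nat_lit 3) (nat_lit 4))
    (@En.i (nat_lit 4746) (nat_lit 12) (nat_lit 12))
    (@En.i (nat_lit 2062) (nat_lit 5) (nat_lit 9))
    (@En.n l117 (nat_lit 5898) (nat_lit 6) (nat_lit 3))
    (@En.i (nat_lit 6021) (nat_lit 0) (nat_lit 12))
    (@En.n l3 (nat_lit 5899) (nat_lit 8) (nat_lit 2))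
    (@En.i (nat_lit 5898) (nat_lit 10) (nat_lit 13))
    (@En.i (nat_lit 5984) (nat_lit 1) (nat_lit 14))
    (@En.n l17 (nat_lit 5899) (nat_lit 11) (nat_lit 2))
    (@En.i (nat_lit 5974) (nat_lit 13) (nat_lit 6))
    (@En.i (nat_lit 743) (nat_lit 1) (nat_lit 14))
    (@En.n l5934 (nat_lit 5897) (nat_lit 5) (nat_lit 7))
    (@En.n l7 (nat_lit 5899) (nat_lit 15) (nat_lit 2))))
  (@Cl.mk (nat_lit 0x20007000e00060002000d000a000e000300020009000c0006000a000e0004) (nat_lit 0x30098900720190) (nat_lit 16) Lb.e (@T16.mk En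
    (@En.n l7706 (nat_lit 5895) (nat_lit 9) (nat_lit 4))
    (@En.n l2579 (nat_lit 4120) (nat_lit 11) (nat_lit 14))
    (@En.i (nat_lit 596) (nat_lit 2) (nat_lit 10))
    (@En.i (nat_lit 9121) (nat_lit 3) (nat_lit 6))
    (@En.i (nat_lit 4697) (nat_lit 14) (nat_lit 12))
    (@En.n l3337 (nat_lit 7566) (nat_lit 5) (nat_lit 9))
    (@En.n l17 (nat_lit 5900) (nat_lit 6) (nat_lit 2))
    (@En.n l2869 (nat_lit 5898) (nat_lit 7) (nat_lit 3))
    (@En.i (nat_lit 13179) (nat_lit 0) (nat_lit 14))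
    (@En.n l2579 (nat_lit 4769) (nat_lit 2) (nat_lit 10))
    (@En.i (nat_lit 7846) (nat_lit 11) (nat_lit 13))
    (@En.n l7 (nat_lit 5900) (nat_lit 11) (nat_lit 2))
    (@En.n l810 (nat_lit 6061) (nat_lit 13) (nat_lit 6))
    (@En.n l2031 (nat_lit 742) (nat_lit 7) (nat_lit 14))
    (@En.n l4870 (nat_lit 5895) (nat_lit 7) (nat_lit 7))
    (@En.n l107 (nat_lit 5900) (nat_lit 15) (nat_lit 2))))
  (@Cl.mk (nat_lit 0x300030008000b000b0006000b000b00050005000800050005000d000d000a) (nat_lit 0x28301200600797) (nat_lit 16) Lb.e (@T16.mk En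
    (@En.n l97 (nat_lit 4636) (nat_lit 0) (nat_lit 10))
    (@En.n l1867 (nat_lit 6059) (nat_lit 3) (nat_lit 13))
    (@En.i (nat_lit 7809) (nat_lit 2) (nat_lit 13))
    (@En.n l39750 (nat_lit 5842) (nat_lit 11) (nat_lit 5))
    (@En.n l27169 (nat_lit 6071) (nat_lit 4) (nat_lit 5))
    (@En.n l28 (nat_lit 5903) (nat_lit 10) (nat_lit 8))
    (@En.n l77 (nat_lit 5903) (nat_lit 11) (nat_lit 5))
    (@En.n l39736 (nat_lit 5626) (nat_lit 7) (nat_lit 5))
    (@En.n l61 (nat_lit 5892) (nat_lit 5) (nat_lit 11))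
    (@En.n l649 (nat_lit 831) (nat_lit 10) (nat_lit 11))
    (@En.i (nat_lit 12194) (nat_lit 11) (nat_lit 6))
    (@En.n l14612 (nat_lit 5847) (nat_lit 5) (nat_lit 11))
    (@En.n l3039 (nat_lit 5836) (nat_lit 7) (nat_lit 11))
    (@En.n l3517 (nat_lit 7558) (nat_lit 14) (nat_lit 8))
    (@En.n l152 (nat_lit 5902) (nat_lit 13) (nat_lit 3))
    (@En.n l1865 (nat_lit 6059) (nat_lit 0) (nat_lit 3))))
  (@Cl.mk (nat_lit 0x2000b00030008000b000b0005000b000b00050005000800050005000e000d) (nat_lit 0x806850220000078) (nat_lit 16) Lb.e (@T16.mk En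
    (@En.i (nat_lit 5901) (nat_lit 2) (nat_lit 13))
    (@En.n l18714 (nat_lit 5976) (nat_lit 1) (nat_lit 14))
    (@En.n l27168 (nat_lit 5846) (nat_lit 11) (nat_lit 5))
    (@En.n l27169 (nat_lit 6171) (nat_lit 3) (nat_lit 5))
    (@En.n l28 (nat_lit 5975) (nat_lit 10) (nat_lit 8))
    (@En.n l77 (nat_lit 5975) (nat_lit 11) (nat_lit 5))
    (@En.n l27170 (nat_lit 5627) (nat_lit 6) (nat_lit 5))
    (@En.n l61 (nat_lit 5897) (nat_lit 8) (nat_lit 11))
    (@En.n l2031 (nat_lit 2659) (nat_lit 9) (nat_lit 11))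
    (@En.i (nat_lit 9225) (nat_lit 9) (nat_lit 5))
    (@En.n l14612 (nat_lit 5974) (nat_lit 5) (nat_lit 11))
    (@En.n l3039 (nat_lit 5837) (nat_lit 7) (nat_lit 11))
    (@En.n l2869 (nat_lit 2053) (nat_lit 13) (nat_lit 8))
    (@En.n l117 (nat_lit 5901) (nat_lit 14) (nat_lit 3))
    (@En.i (nat_lit 5768) (nat_lit 0) (nat_lit 11))
    (@En.n l3 (nat_lit 5902) (nat_lit 15) (nat_lit 2))))
  (@Cl.mk (nat_lit 0x20007000c000c0005000800040004000d000d0009000300030008000e000b) (nat_lit 0x12050067600279) (nat_lit 16) Lb.e (@T16.mk En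
    (@En.i (nat_lit 5901) (nat_lit 12) (nat_lit 11))
    (@En.n l134 (nat_lit 4664) (nat_lit 1) (nat_lit 14))
    (@En.n l3517 (nat_lit 7560) (nat_lit 2) (nat_lit 8))
    (@En.n l152 (nat_lit 5975) (nat_lit 3) (nat_lit 3))
    (@En.n l1865 (nat_lit 6060) (nat_lit 4) (nat_lit 3))
    (@En.n l97 (nat_lit 4637) (nat_lit 5) (nat_lit 9))
    (@En.n l1867 (nat_lit 6060) (nat_lit 7) (nat_lit 13))
    (@En.i (nat_lit 7811) (nat_lit 8) (nat_lit 13))
    (@En.n l3519 (nat_lit 6048) (nat_lit 12) (nat_lit 4))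
    (@En.n l18 (nat_lit 6067) (nat_lit 9) (nat_lit 4))
    (@En.i (nat_lit 13270) (nat_lit 10) (nat_lit 8))
    (@En.i (nat_lit 5629) (nat_lit 6) (nat_lit 5))
    (@En.n l61 (nat_lit 5894) (nat_lit 13) (nat_lit 12))
    (@En.n l649 (nat_lit 833) (nat_lit 14) (nat_lit 12))
    (@En.i (nat_lit 12195) (nat_lit 10) (nat_lit 7))
    (@En.n l7 (nat_lit 5903) (nat_lit 15) (nat_lit 2))))
noncomputable def a369 : T16 Cl := @T16.mk Cl
  (@Cl.mk (nat_lit 0x20008000b000400090008000e000500020008000e000700020008000e000c) (nat_lit 0x1301270019001a8) (nat_lit 16) Lb.e (@T16.mk En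
    (@En.n l134 (nat_lit 5905) (nat_lit 13) (nat_lit 12))
    (@En.n l5577 (nat_lit 5232) (nat_lit 10) (nat_lit 14))
    (@En.n l107 (nat_lit 4985) (nat_lit 2) (nat_lit 8))
    (@En.n l3 (nat_lit 5904) (nat_lit 3) (nat_lit 2))
    (@En.i (nat_lit 5259) (nat_lit 4) (nat_lit 7))
    (@En.i (nat_lit 12374) (nat_lit 6) (nat_lit 14))
    (@En.n l1738 (nat_lit 5254) (nat_lit 2) (nat_lit 8))
    (@En.n l18 (nat_lit 5904) (nat_lit 7) (nat_lit 2))
    (@En.i (nat_lit 5254) (nat_lit 4) (nat_lit 5))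
    (@En.n l4021 (nat_lit 8114) (nat_lit 6) (nat_lit 14))
    (@En.i (nat_lit 5864) (nat_lit 2) (nat_lit 8))
    (@En.n l117 (nat_lit 901) (nat_lit 3) (nat_lit 9))
    (@En.i (nat_lit 5906) (nat_lit 4) (nat_lit 4))
    (@En.i (nat_lit 5694) (nat_lit 10) (nat_lit 11))
    (@En.n l2568 (nat_lit 1446) (nat_lit 6) (nat_lit 8))
    (@En.n l28 (nat_lit 5904) (nat_lit 15) (nat_lit 2))))
  (@Cl.mk (nat_lit 0x20008000c000c0007000a0004000400090008000e000600020009000e0007) (nat_lit 0x1790800637001b0) (nat_lit 16) Lb.e (@T16.mk En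
    (@En.n l4018 (nat_lit 5019) (nat_lit 13) (nat_lit 7))
    (@En.i (nat_lit 5958) (nat_lit 1) (nat_lit 14))
    (@En.n l22009 (nat_lit 5021) (nat_lit 2) (nat_lit 9))
    (@En.n l18 (nat_lit 5905) (nat_lit 3) (nat_lit 2))
    (@En.n l3506 (nat_lit 5021) (nat_lit 4) (nat_lit 6))
    (@En.n l4021 (nat_lit 8112) (nat_lit 6) (nat_lit 14))
    (@En.i (nat_lit 5918) (nat_lit 6) (nat_lit 8))
    (@En.n l9600 (nat_lit 5478) (nat_lit 3) (nat_lit 9))
    (@En.n l7 (nat_lit 5904) (nat_lit 12) (nat_lit 4))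
    (@En.i (nat_lit 5907) (nat_lit 9) (nat_lit 4))
    (@En.i (nat_lit 5501) (nat_lit 11) (nat_lit 10))
    (@En.n l8118 (nat_lit 1517) (nat_lit 7) (nat_lit 7))
    (@En.n l18838 (nat_lit 5946) (nat_lit 13) (nat_lit 12))
    (@En.n l5577 (nat_lit 5348) (nat_lit 10) (nat_lit 12))
    (@En.n l107 (nat_lit 1882) (nat_lit 11) (nat_lit 8))
    (@En.n l3 (nat_lit 5905) (nat_lit 15) (nat_lit 2))))
  (@Cl.mk (nat_lit 0x20007000e000700020008000d000c000900030009000400090008000e0007) (nat_lit 0x70006960300270) (nat_lit 16) Lb.e (@T16.mk En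
    (@En.n l5784 (nat_lit 5912) (nat_lit 4) (nat_lit 7))
    (@En.n l4021 (nat_lit 8106) (nat_lit 6) (nat_lit 14))
    (@En.i (nat_lit 6266) (nat_lit 2) (nat_lit 8))
    (@En.n l40074 (nat_lit 11299) (nat_lit 3) (nat_lit 9))
    (@En.i (nat_lit 5905) (nat_lit 8) (nat_lit 4))
    (@En.n l2568 (nat_lit 1451) (nat_lit 5) (nat_lit 9))
    (@En.n l21694 (nat_lit 5908) (nat_lit 6) (nat_lit 3))
    (@En.i (nat_lit 7490) (nat_lit 0) (nat_lit 9))
    (@En.n l134 (nat_lit 5907) (nat_lit 13) (nat_lit 12))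
    (@En.n l5577 (nat_lit 6723) (nat_lit 10) (nat_lit 13))
    (@En.n l107 (nat_lit 6700) (nat_lit 11) (nat_lit 8))
    (@En.n l3 (nat_lit 5906) (nat_lit 11) (nat_lit 2))
    (@En.n l13507 (nat_lit 5909) (nat_lit 13) (nat_lit 7))
    (@En.i (nat_lit 11539) (nat_lit 1) (nat_lit 14))
    (@En.n l40075 (nat_lit 6304) (nat_lit 2) (nat_lit 7))
    (@En.n l18 (nat_lit 5906) (nat_lit 15) (nat_lit 2))))
  (@Cl.mk (nat_lit 0x20008000c0008000d00080004000300090008000e000800020008000e0007) (nat_lit 0x385110003200540) (nat_lit 16) Lb.e (@T16.mk En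
    (@En.n l21690 (nat_lit 5911) (nat_lit 13) (nat_lit 7))
    (@En.n l18837 (nat_lit 11542) (nat_lit 1) (nat_lit 14))
    (@En.n l21691 (nat_lit 6352) (nat_lit 2) (nat_lit 8))
    (@En.n l18 (nat_lit 5907) (nat_lit 3) (nat_lit 2))
    (@En.n l21692 (nat_lit 5914) (nat_lit 4) (nat_lit 8))
    (@En.n l4021 (nat_lit 8108) (nat_lit 6) (nat_lit 14))
    (@En.i (nat_lit 6260) (nat_lit 2) (nat_lit 8))
    (@En.n l9600 (nat_lit 9893) (nat_lit 3) (nat_lit 9))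
    (@En.n l21693 (nat_lit 5908) (nat_lit 4) (nat_lit 3))
    (@En.n l10150 (nat_lit 5946) (nat_lit 9) (nat_lit 4))
    (@En.n l21694 (nat_lit 1521) (nat_lit 6) (nat_lit 8))
    (@En.n l18837 (nat_lit 3288) (nat_lit 12) (nat_lit 13))
    (@En.i (nat_lit 5433) (nat_lit 13) (nat_lit 8))
    (@En.n l18837 (nat_lit 11014) (nat_lit 10) (nat_lit 12))
    (@En.n l21695 (nat_lit 5006) (nat_lit 11) (nat_lit 8))
    (@En.n l3 (nat_lit 5907) (nat_lit 15) (nat_lit 2))))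
  (@Cl.mk (nat_lit 0x20007000e000700020008000d0008000d00030009000300090008000e0008) (nat_lit 0x40037520200255) (nat_lit 16) Lb.e (@T16.mk En
    (@En.n l33518 (nat_lit 5913) (nat_lit 4) (nat_lit 8))
    (@En.n l33519 (nat_lit 8107) (nat_lit 6) (nat_lit 14))
    (@En.n l22275 (nat_lit 6263) (nat_lit 2) (nat_lit 8))
    (@En.n l33520 (nat_lit 11300) (nat_lit 3) (nat_lit 9))
    (@En.n l22275 (nat_lit 5907) (nat_lit 8) (nat_lit 3))
    (@En.n l8671 (nat_lit 1900) (nat_lit 5) (nat_lit 9))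
    (@En.n l9214 (nat_lit 5906) (nat_lit 6) (nat_lit 3))
    (@En.n l22014 (nat_lit 3289) (nat_lit 0) (nat_lit 13))
    (@En.n l33521 (nat_lit 6523) (nat_lit 13) (nat_lit 8))
    (@En.n l32569 (nat_lit 6724) (nat_lit 10) (nat_lit 13))
    (@En.n l18226 (nat_lit 6698) (nat_lit 11) (nat_lit 8))
    (@En.n l50 (nat_lit 5908) (nat_lit 11) (nat_lit 2))
    (@En.n l644 (nat_lit 5910) (nat_lit 13) (nat_lit 7))
    (@En.n l50 (nat_lit 11538) (nat_lit 1) (nat_lit 14))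
    (@En.n l33522 (nat_lit 6306) (nat_lit 2) (nat_lit 7))
    (@En.n l3 (nat_lit 5908) (nat_lit 15) (nat_lit 2))))
  (@Cl.mk (nat_lit 0x20008000700070007000d000c0008000300080004000900090009000e0008) (nat_lit 0x600057001061086) (nat_lit 16) Lb.e (@T16.mk En
    (@En.n l25916 (nat_lit 5917) (nat_lit 9) (nat_lit 8))
    (@En.n l25917 (nat_lit 8110) (nat_lit 1) (nat_lit 14))
    (@En.n l25918 (nat_lit 6382) (nat_lit 2) (nat_lit 9))
    (@En.n l9214 (nat_lit 5906) (nat_lit 3) (nat_lit 9))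
    (@En.n l25919 (nat_lit 11305) (nat_lit 4) (nat_lit 9))
    (@En.n l25920 (nat_lit 5019) (nat_lit 5) (nat_lit 4))
    (@En.i (nat_lit 1415) (nat_lit 6) (nat_lit 8))
    (@En.n l11 (nat_lit 5910) (nat_lit 7) (nat_lit 3))
    (@En.n l25921 (nat_lit 7487) (nat_lit 0) (nat_lit 8))
    (@En.n l55 (nat_lit 5911) (nat_lit 10) (nat_lit 12))
    (@En.n l25922 (nat_lit 11521) (nat_lit 11) (nat_lit 13))
    (@En.n l2687 (nat_lit 6564) (nat_lit 12) (nat_lit 7))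
    (@En.n l644 (nat_lit 7143) (nat_lit 13) (nat_lit 7))
    (@En.i (nat_lit 9101) (nat_lit 14) (nat_lit 7))
    (@En.n l25923 (nat_lit 6299) (nat_lit 6) (nat_lit 8))
    (@En.n l3 (nat_lit 5909) (nat_lit 15) (nat_lit 2))))
  (@Cl.mk (nat_lit 0x20008000700070007000d0007000d000300080003000900090009000e0009) (nat_lit 0x600060202061070) (nat_lit 16) Lb.e (@T16.mk En
    (@En.n l8668 (nat_lit 5915) (nat_lit 11) (nat_lit 9))
    (@En.i (nat_lit 8109) (nat_lit 1) (nat_lit 14))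
    (@En.n l5 (nat_lit 6383) (nat_lit 2) (nat_lit 9))
    (@En.i (nat_lit 5908) (nat_lit 3) (nat_lit 9))
    (@En.n l7 (nat_lit 11306) (nat_lit 4) (nat_lit 9))
    (@En.i (nat_lit 5911) (nat_lit 5) (nat_lit 3))
    (@En.i (nat_lit 1699) (nat_lit 0) (nat_lit 8))
    (@En.i (nat_lit 5909) (nat_lit 7) (nat_lit 3))
    (@En.i (nat_lit 3297) (nat_lit 0) (nat_lit 13))
    (@En.n l117 (nat_lit 5441) (nat_lit 3) (nat_lit 7))
    (@En.i (nat_lit 11520) (nat_lit 11) (nat_lit 13))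
    (@En.n l2687 (nat_lit 6563) (nat_lit 12) (nat_lit 7))
    (@En.n l644 (nat_lit 7145) (nat_lit 13) (nat_lit 7))
    (@En.i (nat_lit 9100) (nat_lit 14) (nat_lit 7))
    (@En.i (nat_lit 6301) (nat_lit 6) (nat_lit 8))
    (@En.n l3 (nat_lit 5910) (nat_lit 15) (nat_lit 2))))
  (@Cl.mk (nat_lit 0x20009000700070007000c0007000d000700040003000900090009000e0009) (nat_lit 0x600060100061054) (nat_lit 16) Lb.e (@T16.mk En
    (@En.n l8668 (nat_lit 5916) (nat_lit 11) (nat_lit 9))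
    (@En.n l1029 (nat_lit 8111) (nat_lit 1) (nat_lit 14))
    (@En.n l22274 (nat_lit 6384) (nat_lit 2) (nat_lit 9))
    (@En.n l22275 (nat_lit 5907) (nat_lit 7) (nat_lit 9))
    (@En.i (nat_lit 9858) (nat_lit 4) (nat_lit 9))
    (@En.n l28 (nat_lit 5910) (nat_lit 5) (nat_lit 3))
    (@En.n l22276 (nat_lit 5018) (nat_lit 0) (nat_lit 4))
    (@En.i (nat_lit 1575) (nat_lit 7) (nat_lit 7))
    (@En.n l9682 (nat_lit 3292) (nat_lit 9) (nat_lit 13))
    (@En.n l117 (nat_lit 5436) (nat_lit 3) (nat_lit 7))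
    (@En.n l9850 (nat_lit 9351) (nat_lit 11) (nat_lit 12))
    (@En.n l22277 (nat_lit 6562) (nat_lit 12) (nat_lit 7))
    (@En.n l644 (nat_lit 7142) (nat_lit 13) (nat_lit 7))
    (@En.i (nat_lit 9098) (nat_lit 14) (nat_lit 7))
    (@En.n l10108 (nat_lit 6353) (nat_lit 9) (nat_lit 9))
    (@En.n l3 (nat_lit 5911) (nat_lit 15) (nat_lit 2))))
  (@Cl.mk (nat_lit 0x20007000c000b000900090004000a0005000a0009000700070006000e0006) (nat_lit 0xa86704000000b0) (nat_lit 16) Lb.e (@T16.mk En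
    (@En.n l40898 (nat_lit 5917) (nat_lit 6) (nat_lit 6))
    (@En.n l40899 (nat_lit 11546) (nat_lit 1) (nat_lit 14))
    (@En.n l40900 (nat_lit 6307) (nat_lit 2) (nat_lit 6))
    (@En.n l40901 (nat_lit 6291) (nat_lit 9) (nat_lit 7))
    (@En.n l33428 (nat_lit 8751) (nat_lit 4) (nat_lit 7))
    (@En.i (nat_lit 5935) (nat_lit 5) (nat_lit 9))
    (@En.n l40902 (nat_lit 11301) (nat_lit 7) (nat_lit 10))
    (@En.n l27846 (nat_lit 5021) (nat_lit 7) (nat_lit 5))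
    (@En.n l14152 (nat_lit 1417) (nat_lit 9) (nat_lit 10))
    (@En.n l40314 (nat_lit 7529) (nat_lit 9) (nat_lit 4))
    (@En.n l397 (nat_lit 5906) (nat_lit 7) (nat_lit 9))
    (@En.n l40903 (nat_lit 7492) (nat_lit 12) (nat_lit 9))
    (@En.n l40904 (nat_lit 5914) (nat_lit 13) (nat_lit 11))
    (@En.n l40902 (nat_lit 9377) (nat_lit 14) (nat_lit 12))
    (@En.n l40905 (nat_lit 6611) (nat_lit 13) (nat_lit 7))
    (@En.n l3 (nat_lit 5912) (nat_lit 15) (nat_lit 2))))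
  (@Cl.mk (nat_lit 0x20007000c00080008000d0004000a0003000a0009000800080006000e0006) (nat_lit 0xa5630200040000) (nat_lit 16) Lb.e (@T16.mk En
    (@En.n l117 (nat_lit 5915) (nat_lit 8) (nat_lit 6))
    (@En.n l34942 (nat_lit 11545) (nat_lit 1) (nat_lit 14))
    (@En.n l3480 (nat_lit 6309) (nat_lit 2) (nat_lit 6))
    (@En.n l27428 (nat_lit 6289) (nat_lit 3) (nat_lit 8))
    (@En.n l34943 (nat_lit 10259) (nat_lit 4) (nat_lit 8))
    (@En.n l17781 (nat_lit 6268) (nat_lit 5) (nat_lit 9))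
    (@En.n l34944 (nat_lit 11302) (nat_lit 7) (nat_lit 10))
    (@En.n l34945 (nat_lit 5914) (nat_lit 7) (nat_lit 3))
    (@En.n l34946 (nat_lit 1562) (nat_lit 9) (nat_lit 10))
    (@En.n l31825 (nat_lit 5912) (nat_lit 9) (nat_lit 4))
    (@En.i (nat_lit 7495) (nat_lit 11) (nat_lit 13))
    (@En.n l34947 (nat_lit 5908) (nat_lit 8) (nat_lit 8))
    (@En.n l34948 (nat_lit 3134) (nat_lit 13) (nat_lit 8))
    (@En.n l7619 (nat_lit 8997) (nat_lit 14) (nat_lit 12))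
    (@En.n l34949 (nat_lit 6693) (nat_lit 6) (nat_lit 7))
    (@En.n l11 (nat_lit 5913) (nat_lit 15) (nat_lit 2))))
  (@Cl.mk (nat_lit 0x20007000b00080008000d000900050003000a0009000800080007000e0006) (nat_lit 0x71621007060080) (nat_lit 16) Lb.e (@T16.mk En
    (@En.n l36619 (nat_lit 5916) (nat_lit 8) (nat_lit 6))
    (@En.n l2951 (nat_lit 11560) (nat_lit 1) (nat_lit 14))
    (@En.n l10026 (nat_lit 4428) (nat_lit 2) (nat_lit 7))
    (@En.n l36620 (nat_lit 6290) (nat_lit 3) (nat_lit 8))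
    (@En.n l25328 (nat_lit 10222) (nat_lit 4) (nat_lit 8))
    (@En.n l29535 (nat_lit 6259) (nat_lit 5) (nat_lit 9))
    (@En.n l2954 (nat_lit 11209) (nat_lit 7) (nat_lit 10))
    (@En.n l32693 (nat_lit 5913) (nat_lit 7) (nat_lit 3))
    (@En.n l2951 (nat_lit 5947) (nat_lit 8) (nat_lit 5))
    (@En.n l36621 (nat_lit 1520) (nat_lit 10) (nat_lit 9))
    (@En.n l36622 (nat_lit 7496) (nat_lit 11) (nat_lit 13))
    (@En.n l36623 (nat_lit 5907) (nat_lit 12) (nat_lit 8))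
    (@En.n l36624 (nat_lit 3136) (nat_lit 13) (nat_lit 8))
    (@En.n l11247 (nat_lit 9308) (nat_lit 14) (nat_lit 11))
    (@En.n l2947 (nat_lit 6692) (nat_lit 6) (nat_lit 7))
    (@En.n l17 (nat_lit 5914) (nat_lit 15) (nat_lit 2))))
  (@Cl.mk (nat_lit 0x3000a000a000a000900090007000600060006000c00070007000d00040009) (nat_lit 0x714740000700802) (nat_lit 16) Lb.e (@T16.mk En
    (@En.i (nat_lit 1691) (nat_lit 0) (nat_lit 9))
    (@En.n l19250 (nat_lit 5917) (nat_lit 15) (nat_lit 4))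
    (@En.i (nat_lit 7494) (nat_lit 0) (nat_lit 13))
    (@En.n l19073 (nat_lit 5910) (nat_lit 9) (nat_lit 7))
    (@En.n l31521 (nat_lit 3157) (nat_lit 4) (nat_lit 7))
    (@En.n l601 (nat_lit 9387) (nat_lit 6) (nat_lit 12))
    (@En.n l20612 (nat_lit 6565) (nat_lit 10) (nat_lit 6))
    (@En.n l11 (nat_lit 7146) (nat_lit 10) (nat_lit 6))
    (@En.n l31522 (nat_lit 9105) (nat_lit 8) (nat_lit 6))
    (@En.n l17 (nat_lit 2415) (nat_lit 9) (nat_lit 7))
    (@En.n l20616 (nat_lit 6286) (nat_lit 7) (nat_lit 9))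
    (@En.n l31523 (nat_lit 8759) (nat_lit 7) (nat_lit 9))
    (@En.n l55 (nat_lit 6380) (nat_lit 6) (nat_lit 10))
    (@En.n l619 (nat_lit 5913) (nat_lit 6) (nat_lit 10))
    (@En.i (nat_lit 9342) (nat_lit 13) (nat_lit 10))
    (@En.i (nat_lit 5916) (nat_lit 15) (nat_lit 3))))
  (@Cl.mk (nat_lit 0x3000a000a000a000900090008000600060006000b00070007000d00080005) (nat_lit 0x784352000600310) (nat_lit 16) Lb.e (@T16.mk En
    (@En.n l18750 (nat_lit 5016) (nat_lit 0) (nat_lit 5))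
    (@En.i (nat_lit 1419) (nat_lit 0) (nat_lit 8))
    (@En.i (nat_lit 7497) (nat_lit 2) (nat_lit 13))
    (@En.n l19073 (nat_lit 5911) (nat_lit 9) (nat_lit 7))
    (@En.n l22890 (nat_lit 3152) (nat_lit 4) (nat_lit 7))
    (@En.n l34845 (nat_lit 9315) (nat_lit 6) (nat_lit 11))
    (@En.n l19076 (nat_lit 4442) (nat_lit 10) (nat_lit 6))
    (@En.n l34846 (nat_lit 6361) (nat_lit 10) (nat_lit 6))
    (@En.n l34847 (nat_lit 9106) (nat_lit 8) (nat_lit 6))
    (@En.n l34848 (nat_lit 4433) (nat_lit 8) (nat_lit 8))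
    (@En.n l34849 (nat_lit 6287) (nat_lit 7) (nat_lit 9))
    (@En.n l77 (nat_lit 10072) (nat_lit 7) (nat_lit 9))
    (@En.n l19082 (nat_lit 6252) (nat_lit 6) (nat_lit 10))
    (@En.n l34850 (nat_lit 5914) (nat_lit 6) (nat_lit 10))
    (@En.n l34851 (nat_lit 9861) (nat_lit 14) (nat_lit 10))
    (@En.n l18 (nat_lit 5915) (nat_lit 15) (nat_lit 3))))
  (@Cl.mk (nat_lit 0x400090005000a000a000a000800080007000600060006000c000b00080008) (nat_lit 0x10010540000a741) (nat_lit 16) Lb.e (@T16.mk En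
    (@En.n l40048 (nat_lit 5909) (nat_lit 8) (nat_lit 8))
    (@En.i (nat_lit 7493) (nat_lit 1) (nat_lit 8))
    (@En.n l40049 (nat_lit 5916) (nat_lit 5) (nat_lit 11))
    (@En.n l40050 (nat_lit 9378) (nat_lit 3) (nat_lit 12))
    (@En.n l40051 (nat_lit 6566) (nat_lit 10) (nat_lit 6))
    (@En.n l30007 (nat_lit 7144) (nat_lit 10) (nat_lit 6))
    (@En.n l40052 (nat_lit 9108) (nat_lit 10) (nat_lit 6))
    (@En.n l17 (nat_lit 6292) (nat_lit 9) (nat_lit 7))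
    (@En.n l40053 (nat_lit 6288) (nat_lit 8) (nat_lit 8))
    (@En.n l20075 (nat_lit 8752) (nat_lit 8) (nat_lit 8))
    (@En.n l40054 (nat_lit 6381) (nat_lit 6) (nat_lit 10))
    (@En.n l40055 (nat_lit 5912) (nat_lit 6) (nat_lit 10))
    (@En.n l40050 (nat_lit 11307) (nat_lit 10) (nat_lit 10))
    (@En.n l40056 (nat_lit 5015) (nat_lit 14) (nat_lit 5))
    (@En.n l8393 (nat_lit 1412) (nat_lit 0) (nat_lit 9))
    (@En.n l23125 (nat_lit 7522) (nat_lit 15) (nat_lit 4))))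
  (@Cl.mk (nat_lit 0x200080003000c000c0008000b000400040008000e000500020008000e000d) (nat_lit 0x207a41002600196) (nat_lit 16) Lb.e (@T16.mk En
    (@En.n l3528 (nat_lit 5875) (nat_lit 13) (nat_lit 13))
    (@En.i (nat_lit 12776) (nat_lit 1) (nat_lit 14))
    (@En.n l22009 (nat_lit 5874) (nat_lit 2) (nat_lit 8))
    (@En.n l18 (nat_lit 5918) (nat_lit 3) (nat_lit 2))
    (@En.n l3506 (nat_lit 5874) (nat_lit 4) (nat_lit 5))
    (@En.n l2572 (nat_lit 2871) (nat_lit 6) (nat_lit 14))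
    (@En.n l564 (nat_lit 7595) (nat_lit 2) (nat_lit 8))
    (@En.n l7 (nat_lit 5864) (nat_lit 3) (nat_lit 4))
    (@En.i (nat_lit 6260) (nat_lit 4) (nat_lit 4))
    (@En.i (nat_lit 3571) (nat_lit 10) (nat_lit 11))
    (@En.i (nat_lit 2349) (nat_lit 6) (nat_lit 8))
    (@En.n l134 (nat_lit 5921) (nat_lit 12) (nat_lit 12))
    (@En.i (nat_lit 2017) (nat_lit 13) (nat_lit 12))
    (@En.n l4018 (nat_lit 5875) (nat_lit 9) (nat_lit 3))
    (@En.i (nat_lit 1883) (nat_lit 11) (nat_lit 8))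
    (@En.n l3 (nat_lit 5918) (nat_lit 15) (nat_lit 2))))
  (@Cl.mk (nat_lit 0x200070003000b0007000a000a000e000500020009000600060009000e000d) (nat_lit 0x80428003000a4) (nat_lit 16) Lb.e (@T16.mk En
    (@En.n l25399 (nat_lit 5922) (nat_lit 10) (nat_lit 13))
    (@En.n l25402 (nat_lit 8195) (nat_lit 11) (nat_lit 14))
    (@En.n l617 (nat_lit 5926) (nat_lit 2) (nat_lit 9))
    (@En.n l2687 (nat_lit 5926) (nat_lit 3) (nat_lit 6))
    (@En.i (nat_lit 5669) (nat_lit 14) (nat_lit 6))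
    (@En.n l33465 (nat_lit 7591) (nat_lit 5) (nat_lit 9))
    (@En.n l3 (nat_lit 5919) (nat_lit 6) (nat_lit 2))
    (@En.n l33458 (nat_lit 5874) (nat_lit 7) (nat_lit 5))
    (@En.n l2520 (nat_lit 4079) (nat_lit 9) (nat_lit 14))
    (@En.n l33459 (nat_lit 5921) (nat_lit 10) (nat_lit 10))
    (@En.n l33460 (nat_lit 4509) (nat_lit 11) (nat_lit 10))
    (@En.i (nat_lit 1964) (nat_lit 12) (nat_lit 7))
    (@En.n l117 (nat_lit 2016) (nat_lit 13) (nat_lit 11))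
    (@En.n l25402 (nat_lit 5922) (nat_lit 6) (nat_lit 3))
    (@En.i (nat_lit 1873) (nat_lit 7) (nat_lit 7))
    (@En.n l28 (nat_lit 5919) (nat_lit 15) (nat_lit 2))))
noncomputable def a370 : T16 Cl := @T16.mk Cl
  (@Cl.mk (nat_lit 0x20009000d000d000700030003000c0007000a000e000400020009000e0006) (nat_lit 0x56000901700370) (nat_lit 16) Lb.e (@T16.mk En
    (@En.n l4871 (nat_lit 5922) (nat_lit 13) (nat_lit 6))
    (@En.i (nat_lit 2876) (nat_lit 1) (nat_lit 14))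
    (@En.n l1490 (nat_lit 7598) (nat_lit 2) (nat_lit 9))
    (@En.n l17 (nat_lit 5920) (nat_lit 3) (nat_lit 2))
    (@En.n l2869 (nat_lit 5875) (nat_lit 4) (nat_lit 4))
    (@En.n l1638 (nat_lit 4119) (nat_lit 6) (nat_lit 14))
    (@En.n l14619 (nat_lit 4122) (nat_lit 2) (nat_lit 10))
    (@En.n l998 (nat_lit 1963) (nat_lit 3) (nat_lit 7))
    (@En.n l5976 (nat_lit 6638) (nat_lit 9) (nat_lit 12))
    (@En.n l11251 (nat_lit 5921) (nat_lit 13) (nat_lit 3))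
    (@En.n l28 (nat_lit 5923) (nat_lit 10) (nat_lit 3))
    (@En.n l5976 (nat_lit 5946) (nat_lit 0) (nat_lit 7))
    (@En.n l77 (nat_lit 5923) (nat_lit 13) (nat_lit 13))
    (@En.n l1638 (nat_lit 12496) (nat_lit 10) (nat_lit 13))
    (@En.n l1758 (nat_lit 5922) (nat_lit 11) (nat_lit 9))
    (@En.n l3 (nat_lit 5920) (nat_lit 15) (nat_lit 2))))
  (@Cl.mk (nat_lit 0x200080003000c0007000a000e000400020008000e000600020009000e000d) (nat_lit 0x109017003700166) (nat_lit 16) Lb.e (@T16.mk En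
    (@En.n l1684 (nat_lit 5920) (nat_lit 13) (nat_lit 13))
    (@En.n l7690 (nat_lit 12777) (nat_lit 10) (nat_lit 14))
    (@En.n l21010 (nat_lit 5919) (nat_lit 2) (nat_lit 9))
    (@En.n l18 (nat_lit 5921) (nat_lit 3) (nat_lit 2))
    (@En.n l21011 (nat_lit 5919) (nat_lit 4) (nat_lit 6))
    (@En.n l566 (nat_lit 3596) (nat_lit 6) (nat_lit 14))
    (@En.n l564 (nat_lit 7596) (nat_lit 6) (nat_lit 8))
    (@En.n l7 (nat_lit 5921) (nat_lit 7) (nat_lit 2))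
    (@En.n l28 (nat_lit 5918) (nat_lit 8) (nat_lit 4))
    (@En.n l7690 (nat_lit 4116) (nat_lit 10) (nat_lit 14))
    (@En.i (nat_lit 4125) (nat_lit 2) (nat_lit 10))
    (@En.n l11757 (nat_lit 2071) (nat_lit 3) (nat_lit 7))
    (@En.i (nat_lit 2015) (nat_lit 13) (nat_lit 12))
    (@En.n l427 (nat_lit 5920) (nat_lit 9) (nat_lit 3))
    (@En.i (nat_lit 1877) (nat_lit 6) (nat_lit 8))
    (@En.n l3 (nat_lit 5921) (nat_lit 15) (nat_lit 2))))
  (@Cl.mk (nat_lit 0x2000a000600060009000d000d000600030003000b0007000a000a000e0005) (nat_lit 0x300735000804270) (nat_lit 16) Lb.e (@T16.mk En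
    (@En.n l13489 (nat_lit 5873) (nat_lit 8) (nat_lit 5))
    (@En.i (nat_lit 4075) (nat_lit 1) (nat_lit 14))
    (@En.n l1904 (nat_lit 5920) (nat_lit 6) (nat_lit 10))
    (@En.n l27207 (nat_lit 4507) (nat_lit 3) (nat_lit 10))
    (@En.n l27208 (nat_lit 1961) (nat_lit 4) (nat_lit 7))
    (@En.n l26307 (nat_lit 6637) (nat_lit 6) (nat_lit 11))
    (@En.n l27209 (nat_lit 5919) (nat_lit 13) (nat_lit 3))
    (@En.n l28 (nat_lit 5924) (nat_lit 7) (nat_lit 3))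
    (@En.n l22373 (nat_lit 5947) (nat_lit 0) (nat_lit 6))
    (@En.n l77 (nat_lit 5924) (nat_lit 10) (nat_lit 13))
    (@En.i (nat_lit 12490) (nat_lit 11) (nat_lit 13))
    (@En.n l1899 (nat_lit 5925) (nat_lit 12) (nat_lit 9))
    (@En.n l1900 (nat_lit 5925) (nat_lit 13) (nat_lit 6))
    (@En.n l1792 (nat_lit 3251) (nat_lit 14) (nat_lit 6))
    (@En.n l27210 (nat_lit 7510) (nat_lit 7) (nat_lit 10))
    (@En.n l17 (nat_lit 5922) (nat_lit 15) (nat_lit 2))))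
  (@Cl.mk (nat_lit 0x20009000d0006000e00030002000c0007000a000e00040002000a000e0006) (nat_lit 0x50a00601700370) (nat_lit 16) Lb.e (@T16.mk En
    (@En.n l4871 (nat_lit 5924) (nat_lit 13) (nat_lit 6))
    (@En.i (nat_lit 3606) (nat_lit 8) (nat_lit 14))
    (@En.n l3337 (nat_lit 7509) (nat_lit 2) (nat_lit 10))
    (@En.n l17 (nat_lit 5923) (nat_lit 3) (nat_lit 2))
    (@En.n l2869 (nat_lit 5931) (nat_lit 4) (nat_lit 4))
    (@En.n l1638 (nat_lit 4120) (nat_lit 6) (nat_lit 14))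
    (@En.n l2579 (nat_lit 4120) (nat_lit 2) (nat_lit 10))
    (@En.n l998 (nat_lit 1962) (nat_lit 14) (nat_lit 7))
    (@En.i (nat_lit 6641) (nat_lit 9) (nat_lit 12))
    (@En.n l7 (nat_lit 5923) (nat_lit 9) (nat_lit 2))
    (@En.i (nat_lit 5920) (nat_lit 10) (nat_lit 3))
    (@En.n l2036 (nat_lit 13554) (nat_lit 0) (nat_lit 14))
    (@En.i (nat_lit 5067) (nat_lit 13) (nat_lit 6))
    (@En.n l1638 (nat_lit 12497) (nat_lit 10) (nat_lit 13))
    (@En.n l1758 (nat_lit 5924) (nat_lit 11) (nat_lit 9))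
    (@En.n l3 (nat_lit 5923) (nat_lit 15) (nat_lit 2))))
  (@Cl.mk (nat_lit 0x2000b000600060009000d0005000e00030002000b0007000a000a000e0005) (nat_lit 0x300740b00801280) (nat_lit 16) Lb.e (@T16.mk En
    (@En.n l13489 (nat_lit 5928) (nat_lit 9) (nat_lit 5))
    (@En.i (nat_lit 4073) (nat_lit 11) (nat_lit 14))
    (@En.n l1904 (nat_lit 5923) (nat_lit 6) (nat_lit 10))
    (@En.n l13508 (nat_lit 4508) (nat_lit 3) (nat_lit 10))
    (@En.n l13509 (nat_lit 1958) (nat_lit 14) (nat_lit 7))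
    (@En.i (nat_lit 6639) (nat_lit 14) (nat_lit 11))
    (@En.n l7 (nat_lit 5924) (nat_lit 6) (nat_lit 2))
    (@En.i (nat_lit 5922) (nat_lit 7) (nat_lit 3))
    (@En.n l649 (nat_lit 13553) (nat_lit 0) (nat_lit 14))
    (@En.i (nat_lit 5066) (nat_lit 2) (nat_lit 5))
    (@En.i (nat_lit 12488) (nat_lit 11) (nat_lit 13))
    (@En.n l1899 (nat_lit 5927) (nat_lit 4) (nat_lit 9))
    (@En.n l1900 (nat_lit 5927) (nat_lit 5) (nat_lit 6))
    (@En.n l4660 (nat_lit 5505) (nat_lit 14) (nat_lit 6))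
    (@En.n l6596 (nat_lit 7507) (nat_lit 8) (nat_lit 11))
    (@En.n l17 (nat_lit 5924) (nat_lit 15) (nat_lit 2))))
  (@Cl.mk (nat_lit 0x2000b00060009000d000d000500030003000a0007000e000a0002000e0006) (nat_lit 0x3062400070a5090) (nat_lit 16) Lb.e (@T16.mk En
    (@En.n l2869 (nat_lit 5929) (nat_lit 14) (nat_lit 6))
    (@En.n l1531 (nat_lit 4077) (nat_lit 1) (nat_lit 14))
    (@En.n l3 (nat_lit 5925) (nat_lit 2) (nat_lit 2))
    (@En.n l1532 (nat_lit 5922) (nat_lit 3) (nat_lit 10))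
    (@En.n l8845 (nat_lit 4851) (nat_lit 1) (nat_lit 14))
    (@En.n l3324 (nat_lit 1959) (nat_lit 5) (nat_lit 7))
    (@En.n l22646 (nat_lit 6640) (nat_lit 3) (nat_lit 10))
    (@En.n l23557 (nat_lit 5926) (nat_lit 13) (nat_lit 3))
    (@En.n l28 (nat_lit 5927) (nat_lit 0) (nat_lit 3))
    (@En.n l2394 (nat_lit 5948) (nat_lit 0) (nat_lit 5))
    (@En.n l77 (nat_lit 5927) (nat_lit 3) (nat_lit 13))
    (@En.i (nat_lit 12487) (nat_lit 12) (nat_lit 13))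
    (@En.n l3324 (nat_lit 12853) (nat_lit 9) (nat_lit 9))
    (@En.n l23558 (nat_lit 3256) (nat_lit 14) (nat_lit 6))
    (@En.n l9962 (nat_lit 7511) (nat_lit 12) (nat_lit 11))
    (@En.n l17 (nat_lit 5925) (nat_lit 15) (nat_lit 2))))
  (@Cl.mk (nat_lit 0x200060003000a0007000e000a0002000e00060002000a00060009000e000d) (nat_lit 0x70250900307a3) (nat_lit 16) Lb.e (@T16.mk En
    (@En.n l25269 (nat_lit 5925) (nat_lit 11) (nat_lit 13))
    (@En.n l25270 (nat_lit 5817) (nat_lit 12) (nat_lit 14))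
    (@En.n l7055 (nat_lit 12852) (nat_lit 9) (nat_lit 9))
    (@En.i (nat_lit 5668) (nat_lit 14) (nat_lit 6))
    (@En.n l15823 (nat_lit 7590) (nat_lit 4) (nat_lit 10))
    (@En.n l3 (nat_lit 5926) (nat_lit 5) (nat_lit 2))
    (@En.n l15823 (nat_lit 5932) (nat_lit 6) (nat_lit 6))
    (@En.n l15571 (nat_lit 4078) (nat_lit 1) (nat_lit 14))
    (@En.n l18 (nat_lit 5926) (nat_lit 8) (nat_lit 2))
    (@En.n l61 (nat_lit 5919) (nat_lit 10) (nat_lit 10))
    (@En.n l4021 (nat_lit 4853) (nat_lit 11) (nat_lit 14))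
    (@En.i (nat_lit 5988) (nat_lit 12) (nat_lit 7))
    (@En.n l15571 (nat_lit 2021) (nat_lit 13) (nat_lit 10))
    (@En.n l25271 (nat_lit 5925) (nat_lit 7) (nat_lit 3))
    (@En.n l7882 (nat_lit 1875) (nat_lit 0) (nat_lit 6))
    (@En.n l28 (nat_lit 5926) (nat_lit 15) (nat_lit 2))))
  (@Cl.mk (nat_lit 0x2000a0007000e000a0002000e00060002000c00060009000d0004000e0003) (nat_lit 0x6022090030630b0) (nat_lit 16) Lb.e (@T16.mk En
    (@En.i (nat_lit 5925) (nat_lit 8) (nat_lit 3))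
    (@En.i (nat_lit 13557) (nat_lit 0) (nat_lit 14))
    (@En.i (nat_lit 5071) (nat_lit 2) (nat_lit 4))
    (@En.i (nat_lit 12399) (nat_lit 12) (nat_lit 13))
    (@En.n l3324 (nat_lit 13003) (nat_lit 9) (nat_lit 9))
    (@En.n l117 (nat_lit 5503) (nat_lit 14) (nat_lit 6))
    (@En.n l3337 (nat_lit 7506) (nat_lit 12) (nat_lit 12))
    (@En.n l17 (nat_lit 5927) (nat_lit 7) (nat_lit 2))
    (@En.n l2869 (nat_lit 5930) (nat_lit 14) (nat_lit 6))
    (@En.n l1531 (nat_lit 4074) (nat_lit 1) (nat_lit 14))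
    (@En.n l3 (nat_lit 5927) (nat_lit 10) (nat_lit 2))
    (@En.n l1532 (nat_lit 5924) (nat_lit 3) (nat_lit 10))
    (@En.n l3870 (nat_lit 4852) (nat_lit 1) (nat_lit 14))
    (@En.n l3324 (nat_lit 1960) (nat_lit 14) (nat_lit 7))
    (@En.i (nat_lit 6642) (nat_lit 3) (nat_lit 10))
    (@En.n l7 (nat_lit 5927) (nat_lit 15) (nat_lit 2))))
  (@Cl.mk (nat_lit 0x2000b000b0008000b000b00050005000b000500050008000d0005000e0003) (nat_lit 0x6964200200040a0) (nat_lit 16) Lb.e (@T16.mk En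
    (@En.i (nat_lit 5873) (nat_lit 15) (nat_lit 3))
    (@En.i (nat_lit 13556) (nat_lit 0) (nat_lit 14))
    (@En.i (nat_lit 5069) (nat_lit 2) (nat_lit 5))
    (@En.n l14821 (nat_lit 12449) (nat_lit 4) (nat_lit 13))
    (@En.n l2491 (nat_lit 5930) (nat_lit 10) (nat_lit 8))
    (@En.n l7129 (nat_lit 5930) (nat_lit 11) (nat_lit 5))
    (@En.i (nat_lit 3248) (nat_lit 6) (nat_lit 5))
    (@En.n l27178 (nat_lit 7503) (nat_lit 8) (nat_lit 11))
    (@En.n l16341 (nat_lit 5870) (nat_lit 11) (nat_lit 5))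
    (@En.n l26714 (nat_lit 6254) (nat_lit 9) (nat_lit 5))
    (@En.n l55 (nat_lit 5931) (nat_lit 5) (nat_lit 11))
    (@En.i (nat_lit 4511) (nat_lit 12) (nat_lit 11))
    (@En.n l27179 (nat_lit 2299) (nat_lit 13) (nat_lit 8))
    (@En.n l24909 (nat_lit 5924) (nat_lit 5) (nat_lit 11))
    (@En.i (nat_lit 2094) (nat_lit 14) (nat_lit 11))
    (@En.n l17 (nat_lit 5928) (nat_lit 15) (nat_lit 2))))
  (@Cl.mk (nat_lit 0x200060006000b00050008000d000d000500030003000a000a0008000e000b) (nat_lit 0x20624000685b2) (nat_lit 16) Lb.e (@T16.mk En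
    (@En.n l6698 (nat_lit 5873) (nat_lit 10) (nat_lit 11))
    (@En.n l1578 (nat_lit 4847) (nat_lit 1) (nat_lit 14))
    (@En.n l4758 (nat_lit 2354) (nat_lit 2) (nat_lit 8))
    (@En.n l1867 (nat_lit 5925) (nat_lit 6) (nat_lit 10))
    (@En.n l5801 (nat_lit 6635) (nat_lit 4) (nat_lit 10))
    (@En.n l3519 (nat_lit 5932) (nat_lit 13) (nat_lit 3))
    (@En.n l18 (nat_lit 5930) (nat_lit 6) (nat_lit 3))
    (@En.n l17134 (nat_lit 5258) (nat_lit 7) (nat_lit 5))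
    (@En.n l61 (nat_lit 5930) (nat_lit 9) (nat_lit 13))
    (@En.n l649 (nat_lit 9214) (nat_lit 10) (nat_lit 13))
    (@En.i (nat_lit 13005) (nat_lit 10) (nat_lit 8))
    (@En.i (nat_lit 3249) (nat_lit 4) (nat_lit 5))
    (@En.n l3517 (nat_lit 5497) (nat_lit 13) (nat_lit 11))
    (@En.n l152 (nat_lit 5869) (nat_lit 14) (nat_lit 6))
    (@En.i (nat_lit 4494) (nat_lit 7) (nat_lit 6))
    (@En.n l28 (nat_lit 5929) (nat_lit 15) (nat_lit 2))))
  (@Cl.mk (nat_lit 0x200060006000c00050008000d0004000e00030002000a000a0008000e000b) (nat_lit 0x20630a00676b5) (nat_lit 16) Lb.e (@T16.mk En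
    (@En.n l6698 (nat_lit 5928) (nat_lit 11) (nat_lit 11))
    (@En.n l1578 (nat_lit 4846) (nat_lit 12) (nat_lit 14))
    (@En.n l4758 (nat_lit 2356) (nat_lit 2) (nat_lit 8))
    (@En.n l1867 (nat_lit 5927) (nat_lit 14) (nat_lit 10))
    (@En.i (nat_lit 6636) (nat_lit 4) (nat_lit 10))
    (@En.n l17 (nat_lit 5930) (nat_lit 5) (nat_lit 2))
    (@En.i (nat_lit 5929) (nat_lit 6) (nat_lit 3))
    (@En.i (nat_lit 13558) (nat_lit 0) (nat_lit 14))
    (@En.i (nat_lit 5070) (nat_lit 8) (nat_lit 4))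
    (@En.n l649 (nat_lit 12484) (nat_lit 10) (nat_lit 13))
    (@En.i (nat_lit 13004) (nat_lit 10) (nat_lit 8))
    (@En.i (nat_lit 3254) (nat_lit 5) (nat_lit 5))
    (@En.n l476 (nat_lit 7502) (nat_lit 13) (nat_lit 12))
    (@En.n l152 (nat_lit 5871) (nat_lit 14) (nat_lit 6))
    (@En.i (nat_lit 4501) (nat_lit 8) (nat_lit 6))
    (@En.n l28 (nat_lit 5930) (nat_lit 15) (nat_lit 2))))
  (@Cl.mk (nat_lit 0x20008000d0006000e00030002000c000c0008000b00040004000a000e0005) (nat_lit 0x150900776100220) (nat_lit 16) Lb.e (@T16.mk En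
    (@En.i (nat_lit 5928) (nat_lit 6) (nat_lit 5))
    (@En.i (nat_lit 2873) (nat_lit 8) (nat_lit 14))
    (@En.n l476 (nat_lit 7508) (nat_lit 2) (nat_lit 10))
    (@En.n l152 (nat_lit 5872) (nat_lit 3) (nat_lit 4))
    (@En.i (nat_lit 6257) (nat_lit 4) (nat_lit 4))
    (@En.i (nat_lit 4121) (nat_lit 7) (nat_lit 11))
    (@En.n l4758 (nat_lit 2296) (nat_lit 6) (nat_lit 8))
    (@En.n l1867 (nat_lit 5923) (nat_lit 8) (nat_lit 12))
    (@En.i (nat_lit 6634) (nat_lit 9) (nat_lit 12))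
    (@En.n l17 (nat_lit 5931) (nat_lit 9) (nat_lit 2))
    (@En.i (nat_lit 5875) (nat_lit 10) (nat_lit 3))
    (@En.i (nat_lit 13555) (nat_lit 0) (nat_lit 14))
    (@En.i (nat_lit 5068) (nat_lit 13) (nat_lit 6))
    (@En.i (nat_lit 12766) (nat_lit 14) (nat_lit 13))
    (@En.n l3506 (nat_lit 5928) (nat_lit 4) (nat_lit 8))
    (@En.n l28 (nat_lit 5931) (nat_lit 15) (nat_lit 2))))
  (@Cl.mk (nat_lit 0x200060003000a000a0008000e000b000200060006000a00050008000e000d) (nat_lit 0x6848200020693) (nat_lit 16) Lb.e (@T16.mk En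
    (@En.n l4130 (nat_lit 5929) (nat_lit 9) (nat_lit 13))
    (@En.n l10505 (nat_lit 9211) (nat_lit 10) (nat_lit 14))
    (@En.i (nat_lit 13008) (nat_lit 10) (nat_lit 8))
    (@En.n l15747 (nat_lit 3253) (nat_lit 3) (nat_lit 5))
    (@En.i (nat_lit 7592) (nat_lit 13) (nat_lit 10))
    (@En.n l1722 (nat_lit 5868) (nat_lit 5) (nat_lit 6))
    (@En.i (nat_lit 4493) (nat_lit 6) (nat_lit 6))
    (@En.n l50 (nat_lit 5932) (nat_lit 7) (nat_lit 2))
    (@En.n l5779 (nat_lit 5874) (nat_lit 9) (nat_lit 11))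
    (@En.n l601 (nat_lit 4849) (nat_lit 10) (nat_lit 14))
    (@En.n l725 (nat_lit 2352) (nat_lit 2) (nat_lit 8))
    (@En.n l11563 (nat_lit 5926) (nat_lit 12) (nat_lit 10))
    (@En.i (nat_lit 2020) (nat_lit 4) (nat_lit 10))
    (@En.n l2832 (nat_lit 5929) (nat_lit 5) (nat_lit 3))
    (@En.n l10280 (nat_lit 1885) (nat_lit 6) (nat_lit 6))
    (@En.n l3 (nat_lit 5932) (nat_lit 15) (nat_lit 2))))
  (@Cl.mk (nat_lit 0x20005000c0006000b00060004000d000d000500030003000b000a000e000a) (nat_lit 0x400000200098a3) (nat_lit 16) Lb.e (@T16.mk En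
    (@En.n l29368 (nat_lit 5936) (nat_lit 11) (nat_lit 10))
    (@En.n l180 (nat_lit 5939) (nat_lit 1) (nat_lit 14))
    (@En.n l2038 (nat_lit 5943) (nat_lit 2) (nat_lit 10))
    (@En.i (nat_lit 6277) (nat_lit 3) (nat_lit 11))
    (@En.n l10800 (nat_lit 5934) (nat_lit 4) (nat_lit 3))
    (@En.n l18 (nat_lit 5937) (nat_lit 5) (nat_lit 3))
    (@En.n l947 (nat_lit 6291) (nat_lit 6) (nat_lit 5))
    (@En.n l61 (nat_lit 5937) (nat_lit 8) (nat_lit 13))
    (@En.n l2682 (nat_lit 11929) (nat_lit 9) (nat_lit 13))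
    (@En.i (nat_lit 2259) (nat_lit 9) (nat_lit 4))
    (@En.n l8806 (nat_lit 6097) (nat_lit 4) (nat_lit 6))
    (@En.n l8806 (nat_lit 12645) (nat_lit 12) (nat_lit 11))
    (@En.n l810 (nat_lit 5929) (nat_lit 13) (nat_lit 6))
    (@En.n l1643 (nat_lit 798) (nat_lit 14) (nat_lit 12))
    (@En.i (nat_lit 6409) (nat_lit 13) (nat_lit 5))
    (@En.n l11 (nat_lit 5933) (nat_lit 15) (nat_lit 2))))
  (@Cl.mk (nat_lit 0x20005000c0006000a00060004000e000d000200060003000b000a000e000a) (nat_lit 0x50000510009873) (nat_lit 16) Lb.e (@T16.mk En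
    (@En.n l7 (nat_lit 5935) (nat_lit 10) (nat_lit 10))
    (@En.n l3039 (nat_lit 5941) (nat_lit 11) (nat_lit 14))
    (@En.n l7477 (nat_lit 5945) (nat_lit 12) (nat_lit 10))
    (@En.n l210 (nat_lit 6942) (nat_lit 3) (nat_lit 11))
    (@En.n l13054 (nat_lit 5933) (nat_lit 4) (nat_lit 3))
    (@En.n l1982 (nat_lit 6608) (nat_lit 5) (nat_lit 6))
    (@En.n l3 (nat_lit 5934) (nat_lit 6) (nat_lit 2))
    (@En.n l4322 (nat_lit 5933) (nat_lit 8) (nat_lit 13))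
    (@En.i (nat_lit 5586) (nat_lit 9) (nat_lit 14))
    (@En.n l763 (nat_lit 2261) (nat_lit 2) (nat_lit 4))
    (@En.i (nat_lit 6098) (nat_lit 3) (nat_lit 6))
    (@En.n l210 (nat_lit 12646) (nat_lit 12) (nat_lit 10))
    (@En.n l764 (nat_lit 5932) (nat_lit 5) (nat_lit 6))
    (@En.n l12654 (nat_lit 800) (nat_lit 7) (nat_lit 12))
    (@En.n l2026 (nat_lit 6413) (nat_lit 7) (nat_lit 5))
    (@En.n l50 (nat_lit 5934) (nat_lit 15) (nat_lit 2))))
  (@Cl.mk (nat_lit 0x200070003000c000b000a000a0004000b00050009000600060005000e000d) (nat_lit 0x9923030700010) (nat_lit 16) Lb.e (@T16.mk En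
    (@En.i (nat_lit 5936) (nat_lit 2) (nat_lit 13))
    (@En.i (nat_lit 5595) (nat_lit 1) (nat_lit 14))
    (@En.n l817 (nat_lit 6082) (nat_lit 2) (nat_lit 5))
    (@En.n l601 (nat_lit 5934) (nat_lit 10) (nat_lit 6))
    (@En.n l3038 (nat_lit 6171) (nat_lit 4) (nat_lit 6))
    (@En.i (nat_lit 12651) (nat_lit 5) (nat_lit 9))
    (@En.n l27846 (nat_lit 5874) (nat_lit 6) (nat_lit 5))
    (@En.n l14152 (nat_lit 796) (nat_lit 8) (nat_lit 11))
    (@En.n l40314 (nat_lit 6330) (nat_lit 8) (nat_lit 4))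
    (@En.n l397 (nat_lit 6266) (nat_lit 6) (nat_lit 10))
    (@En.n l8134 (nat_lit 6074) (nat_lit 11) (nat_lit 10))
    (@En.n l14127 (nat_lit 6259) (nat_lit 12) (nat_lit 11))
    (@En.n l40315 (nat_lit 6516) (nat_lit 13) (nat_lit 12))
    (@En.n l117 (nat_lit 5936) (nat_lit 14) (nat_lit 3))
    (@En.n l28421 (nat_lit 6610) (nat_lit 0) (nat_lit 7))
    (@En.n l3 (nat_lit 5935) (nat_lit 15) (nat_lit 2))))
noncomputable def a371 : T16 Cl := @T16.mk Cl
  (@Cl.mk (nat_lit 0x30003000c000b000a000a0004000b0005000a000600060005000d000d0006) (nat_lit 0x99230307000b00) (nat_lit 16) Lb.e (@T16.mk En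
    (@En.n l97 (nat_lit 5912) (nat_lit 0) (nat_lit 6))
    (@En.n l27853 (nat_lit 5938) (nat_lit 3) (nat_lit 13))
    (@En.n l27689 (nat_lit 11911) (nat_lit 2) (nat_lit 13))
    (@En.n l27854 (nat_lit 5940) (nat_lit 3) (nat_lit 5))
    (@En.n l27855 (nat_lit 5933) (nat_lit 10) (nat_lit 6))
    (@En.n l3038 (nat_lit 6071) (nat_lit 5) (nat_lit 6))
    (@En.i (nat_lit 12427) (nat_lit 7) (nat_lit 10))
    (@En.n l27856 (nat_lit 5873) (nat_lit 7) (nat_lit 5))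
    (@En.n l27857 (nat_lit 791) (nat_lit 9) (nat_lit 11))
    (@En.n l27858 (nat_lit 6329) (nat_lit 9) (nat_lit 4))
    (@En.n l397 (nat_lit 6264) (nat_lit 6) (nat_lit 10))
    (@En.n l8134 (nat_lit 6077) (nat_lit 12) (nat_lit 10))
    (@En.n l27859 (nat_lit 6256) (nat_lit 13) (nat_lit 11))
    (@En.n l476 (nat_lit 6278) (nat_lit 14) (nat_lit 12))
    (@En.n l152 (nat_lit 5935) (nat_lit 13) (nat_lit 3))
    (@En.n l7703 (nat_lit 5938) (nat_lit 0) (nat_lit 3))))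
  (@Cl.mk (nat_lit 0x20005000c0006000c00060004000d0004000e00030002000b000a000e000a) (nat_lit 0x501001040098a3) (nat_lit 16) Lb.e (@T16.mk En
    (@En.n l18697 (nat_lit 5938) (nat_lit 12) (nat_lit 10))
    (@En.n l180 (nat_lit 5942) (nat_lit 13) (nat_lit 14))
    (@En.n l2038 (nat_lit 6282) (nat_lit 14) (nat_lit 10))
    (@En.i (nat_lit 6276) (nat_lit 3) (nat_lit 11))
    (@En.n l17 (nat_lit 5937) (nat_lit 4) (nat_lit 2))
    (@En.i (nat_lit 5933) (nat_lit 5) (nat_lit 3))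
    (@En.i (nat_lit 12866) (nat_lit 0) (nat_lit 14))
    (@En.i (nat_lit 6285) (nat_lit 7) (nat_lit 4))
    (@En.n l2682 (nat_lit 4181) (nat_lit 9) (nat_lit 13))
    (@En.i (nat_lit 2260) (nat_lit 9) (nat_lit 4))
    (@En.i (nat_lit 6099) (nat_lit 5) (nat_lit 6))
    (@En.n l2680 (nat_lit 4036) (nat_lit 12) (nat_lit 12))
    (@En.n l810 (nat_lit 5930) (nat_lit 13) (nat_lit 6))
    (@En.n l1643 (nat_lit 799) (nat_lit 9) (nat_lit 12))
    (@En.i (nat_lit 6410) (nat_lit 13) (nat_lit 5))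
    (@En.n l11 (nat_lit 5937) (nat_lit 15) (nat_lit 2))))
  (@Cl.mk (nat_lit 0x2000c000b000a000a0004000b0005000b000600060005000d0005000e0003) (nat_lit 0x99230308000b080) (nat_lit 16) Lb.e (@T16.mk En
    (@En.n l40869 (nat_lit 5936) (nat_lit 15) (nat_lit 3))
    (@En.n l35568 (nat_lit 12868) (nat_lit 0) (nat_lit 14))
    (@En.i (nat_lit 6381) (nat_lit 2) (nat_lit 5))
    (@En.n l35574 (nat_lit 11920) (nat_lit 2) (nat_lit 13))
    (@En.i (nat_lit 6232) (nat_lit 4) (nat_lit 5))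
    (@En.n l14025 (nat_lit 5937) (nat_lit 10) (nat_lit 6))
    (@En.n l40870 (nat_lit 6128) (nat_lit 6) (nat_lit 6))
    (@En.n l35570 (nat_lit 12728) (nat_lit 8) (nat_lit 11))
    (@En.n l29465 (nat_lit 5928) (nat_lit 8) (nat_lit 5))
    (@En.n l13704 (nat_lit 795) (nat_lit 10) (nat_lit 11))
    (@En.n l3596 (nat_lit 6331) (nat_lit 10) (nat_lit 4))
    (@En.n l29466 (nat_lit 6265) (nat_lit 6) (nat_lit 10))
    (@En.n l457 (nat_lit 6235) (nat_lit 13) (nat_lit 10))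
    (@En.n l11833 (nat_lit 6255) (nat_lit 14) (nat_lit 11))
    (@En.i (nat_lit 6279) (nat_lit 14) (nat_lit 12))
    (@En.n l17 (nat_lit 5938) (nat_lit 15) (nat_lit 2))))
  (@Cl.mk (nat_lit 0x2000d0005000c0003000b00070004000d000d000500030003000b000e0009) (nat_lit 0x302000012000692) (nat_lit 16) Lb.e (@T16.mk En
    (@En.n l16125 (nat_lit 5944) (nat_lit 12) (nat_lit 9))
    (@En.n l6965 (nat_lit 3932) (nat_lit 4) (nat_lit 14))
    (@En.n l9518 (nat_lit 6272) (nat_lit 2) (nat_lit 11))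
    (@En.n l16126 (nat_lit 5941) (nat_lit 13) (nat_lit 3))
    (@En.n l18 (nat_lit 5942) (nat_lit 0) (nat_lit 3))
    (@En.n l2094 (nat_lit 6289) (nat_lit 0) (nat_lit 5))
    (@En.n l61 (nat_lit 5942) (nat_lit 3) (nat_lit 13))
    (@En.i (nat_lit 4177) (nat_lit 8) (nat_lit 13))
    (@En.i (nat_lit 2230) (nat_lit 8) (nat_lit 4))
    (@En.n l6504 (nat_lit 6142) (nat_lit 4) (nat_lit 7))
    (@En.n l77 (nat_lit 12648) (nat_lit 11) (nat_lit 11))
    (@En.i (nat_lit 5943) (nat_lit 11) (nat_lit 3))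
    (@En.n l3303 (nat_lit 629) (nat_lit 0) (nat_lit 12))
    (@En.n l159 (nat_lit 5933) (nat_lit 14) (nat_lit 5))
    (@En.n l11303 (nat_lit 5940) (nat_lit 10) (nat_lit 13))
    (@En.n l107 (nat_lit 5939) (nat_lit 15) (nat_lit 2))))
  (@Cl.mk (nat_lit 0x30003000c000a0009000d0004000b00030006000b00070005000d000d0005) (nat_lit 0x98220400000000) (nat_lit 16) Lb.e (@T16.mk En
    (@En.n l947 (nat_lit 6307) (nat_lit 0) (nat_lit 5))
    (@En.n l61 (nat_lit 6232) (nat_lit 3) (nat_lit 13))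
    (@En.n l2068 (nat_lit 9761) (nat_lit 11) (nat_lit 13))
    (@En.n l5154 (nat_lit 2256) (nat_lit 3) (nat_lit 5))
    (@En.n l14949 (nat_lit 6138) (nat_lit 4) (nat_lit 7))
    (@En.n l2869 (nat_lit 12420) (nat_lit 14) (nat_lit 11))
    (@En.n l6083 (nat_lit 5933) (nat_lit 12) (nat_lit 6))
    (@En.n l117 (nat_lit 6233) (nat_lit 7) (nat_lit 3))
    (@En.i (nat_lit 797) (nat_lit 0) (nat_lit 11))
    (@En.n l3596 (nat_lit 6334) (nat_lit 9) (nat_lit 4))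
    (@En.n l28 (nat_lit 6081) (nat_lit 11) (nat_lit 13))
    (@En.n l2062 (nat_lit 6079) (nat_lit 12) (nat_lit 9))
    (@En.n l14950 (nat_lit 4497) (nat_lit 13) (nat_lit 10))
    (@En.i (nat_lit 9663) (nat_lit 14) (nat_lit 12))
    (@En.n l5331 (nat_lit 6082) (nat_lit 13) (nat_lit 3))
    (@En.n l18 (nat_lit 6232) (nat_lit 0) (nat_lit 3))))
  (@Cl.mk (nat_lit 0x200060003000b000e00090002000d0005000c0003000a00070004000e000d) (nat_lit 0x6620905020052) (nat_lit 16) Lb.e (@T16.mk En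
    (@En.n l17968 (nat_lit 5939) (nat_lit 7) (nat_lit 13))
    (@En.i (nat_lit 5584) (nat_lit 1) (nat_lit 14))
    (@En.n l25667 (nat_lit 2264) (nat_lit 2) (nat_lit 4))
    (@En.i (nat_lit 6143) (nat_lit 3) (nat_lit 7))
    (@En.n l25668 (nat_lit 12565) (nat_lit 11) (nat_lit 10))
    (@En.n l2869 (nat_lit 5945) (nat_lit 5) (nat_lit 3))
    (@En.n l1391 (nat_lit 836) (nat_lit 7) (nat_lit 12))
    (@En.n l11512 (nat_lit 5934) (nat_lit 14) (nat_lit 5))
    (@En.n l25669 (nat_lit 6082) (nat_lit 9) (nat_lit 13))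
    (@En.n l28 (nat_lit 5941) (nat_lit 9) (nat_lit 2))
    (@En.n l77 (nat_lit 6268) (nat_lit 11) (nat_lit 9))
    (@En.i (nat_lit 3939) (nat_lit 12) (nat_lit 14))
    (@En.n l25670 (nat_lit 6943) (nat_lit 13) (nat_lit 11))
    (@En.n l16276 (nat_lit 5939) (nat_lit 3) (nat_lit 3))
    (@En.n l1391 (nat_lit 6614) (nat_lit 0) (nat_lit 6))
    (@En.n l3 (nat_lit 5941) (nat_lit 15) (nat_lit 2))))
  (@Cl.mk (nat_lit 0x2000b000e00090002000d0005000c0003000c00070004000d0004000e0003) (nat_lit 0x692040509001030) (nat_lit 16) Lb.e (@T16.mk En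
    (@En.i (nat_lit 5939) (nat_lit 4) (nat_lit 3))
    (@En.i (nat_lit 12865) (nat_lit 0) (nat_lit 14))
    (@En.n l6869 (nat_lit 6284) (nat_lit 2) (nat_lit 4))
    (@En.n l3303 (nat_lit 4173) (nat_lit 8) (nat_lit 13))
    (@En.i (nat_lit 2232) (nat_lit 4) (nat_lit 4))
    (@En.n l2094 (nat_lit 6144) (nat_lit 5) (nat_lit 7))
    (@En.n l77 (nat_lit 12619) (nat_lit 11) (nat_lit 12))
    (@En.i (nat_lit 6282) (nat_lit 7) (nat_lit 3))
    (@En.n l3303 (nat_lit 837) (nat_lit 9) (nat_lit 12))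
    (@En.n l159 (nat_lit 5937) (nat_lit 14) (nat_lit 5))
    (@En.n l11303 (nat_lit 6232) (nat_lit 11) (nat_lit 13))
    (@En.n l107 (nat_lit 5942) (nat_lit 11) (nat_lit 2))
    (@En.n l30883 (nat_lit 6267) (nat_lit 13) (nat_lit 9))
    (@En.n l2094 (nat_lit 3933) (nat_lit 4) (nat_lit 14))
    (@En.i (nat_lit 6273) (nat_lit 2) (nat_lit 11))
    (@En.n l17 (nat_lit 5942) (nat_lit 15) (nat_lit 2))))
  (@Cl.mk (nat_lit 0x2000d000b00060003000b00070005000d000d000500030003000a000e0009) (nat_lit 0x930000000000792) (nat_lit 16) Lb.e (@T16.mk En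
    (@En.i (nat_lit 6256) (nat_lit 12) (nat_lit 9))
    (@En.n l11194 (nat_lit 3934) (nat_lit 1) (nat_lit 14))
    (@En.i (nat_lit 9371) (nat_lit 2) (nat_lit 10))
    (@En.n l31038 (nat_lit 5945) (nat_lit 13) (nat_lit 3))
    (@En.n l18 (nat_lit 6282) (nat_lit 0) (nat_lit 3))
    (@En.n l4570 (nat_lit 6290) (nat_lit 0) (nat_lit 5))
    (@En.n l61 (nat_lit 6282) (nat_lit 3) (nat_lit 13))
    (@En.n l4306 (nat_lit 11017) (nat_lit 8) (nat_lit 13))
    (@En.i (nat_lit 833) (nat_lit 8) (nat_lit 5))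
    (@En.n l12442 (nat_lit 5659) (nat_lit 4) (nat_lit 7))
    (@En.n l4909 (nat_lit 11197) (nat_lit 11) (nat_lit 11))
    (@En.n l28 (nat_lit 5939) (nat_lit 11) (nat_lit 3))
    (@En.n l4306 (nat_lit 5925) (nat_lit 0) (nat_lit 6))
    (@En.n l77 (nat_lit 2355) (nat_lit 14) (nat_lit 11))
    (@En.n l10491 (nat_lit 6233) (nat_lit 10) (nat_lit 13))
    (@En.n l107 (nat_lit 5943) (nat_lit 15) (nat_lit 2))))
  (@Cl.mk (nat_lit 0x30003000c00090009000d0004000b0003000a000700070005000d000d0006) (nat_lit 0x91280302000350) (nat_lit 16) Lb.e (@T16.mk En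
    (@En.n l28019 (nat_lit 5913) (nat_lit 0) (nat_lit 6))
    (@En.n l17271 (nat_lit 6267) (nat_lit 3) (nat_lit 13))
    (@En.n l28020 (nat_lit 11024) (nat_lit 2) (nat_lit 13))
    (@En.n l28021 (nat_lit 6336) (nat_lit 3) (nat_lit 5))
    (@En.n l28022 (nat_lit 5939) (nat_lit 9) (nat_lit 7))
    (@En.i (nat_lit 5664) (nat_lit 5) (nat_lit 7))
    (@En.n l55 (nat_lit 12684) (nat_lit 7) (nat_lit 10))
    (@En.n l28023 (nat_lit 6256) (nat_lit 7) (nat_lit 3))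
    (@En.n l28024 (nat_lit 441) (nat_lit 0) (nat_lit 11))
    (@En.n l14973 (nat_lit 5936) (nat_lit 9) (nat_lit 4))
    (@En.n l6210 (nat_lit 6079) (nat_lit 11) (nat_lit 13))
    (@En.n l26625 (nat_lit 6261) (nat_lit 7) (nat_lit 9))
    (@En.n l396 (nat_lit 1315) (nat_lit 13) (nat_lit 9))
    (@En.n l476 (nat_lit 6269) (nat_lit 14) (nat_lit 12))
    (@En.n l152 (nat_lit 6268) (nat_lit 13) (nat_lit 3))
    (@En.n l17275 (nat_lit 6267) (nat_lit 0) (nat_lit 3))))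
  (@Cl.mk (nat_lit 0x200060003000a000e00090002000d000b00060003000a00070005000e000d) (nat_lit 0x7620330020021) (nat_lit 16) Lb.e (@T16.mk En
    (@En.n l33384 (nat_lit 5943) (nat_lit 7) (nat_lit 13))
    (@En.n l17134 (nat_lit 5585) (nat_lit 1) (nat_lit 14))
    (@En.n l13562 (nat_lit 2661) (nat_lit 2) (nat_lit 5))
    (@En.i (nat_lit 5658) (nat_lit 3) (nat_lit 7))
    (@En.n l13562 (nat_lit 11199) (nat_lit 4) (nat_lit 10))
    (@En.n l1865 (nat_lit 5941) (nat_lit 5) (nat_lit 3))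
    (@En.n l97 (nat_lit 5926) (nat_lit 6) (nat_lit 6))
    (@En.n l39984 (nat_lit 2353) (nat_lit 8) (nat_lit 11))
    (@En.n l29154 (nat_lit 6240) (nat_lit 9) (nat_lit 13))
    (@En.n l18 (nat_lit 5945) (nat_lit 9) (nat_lit 2))
    (@En.n l61 (nat_lit 6259) (nat_lit 11) (nat_lit 9))
    (@En.n l11706 (nat_lit 3936) (nat_lit 12) (nat_lit 14))
    (@En.i (nat_lit 9908) (nat_lit 13) (nat_lit 10))
    (@En.n l14725 (nat_lit 5943) (nat_lit 3) (nat_lit 3))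
    (@En.n l29153 (nat_lit 6616) (nat_lit 0) (nat_lit 6))
    (@En.n l28 (nat_lit 5945) (nat_lit 15) (nat_lit 2))))
  (@Cl.mk (nat_lit 0x20008000c00060009000e0004000200090008000e00070002000a000e0007) (nat_lit 0x180140014200080) (nat_lit 16) Lb.e (@T16.mk En
    (@En.n l9489 (nat_lit 5018) (nat_lit 7) (nat_lit 7))
    (@En.i (nat_lit 5950) (nat_lit 9) (nat_lit 14))
    (@En.n l3267 (nat_lit 5947) (nat_lit 2) (nat_lit 10))
    (@En.n l50 (nat_lit 5946) (nat_lit 3) (nat_lit 2))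
    (@En.n l1267 (nat_lit 5947) (nat_lit 4) (nat_lit 7))
    (@En.n l5559 (nat_lit 12250) (nat_lit 6) (nat_lit 14))
    (@En.n l9490 (nat_lit 5921) (nat_lit 6) (nat_lit 8))
    (@En.n l9491 (nat_lit 1309) (nat_lit 3) (nat_lit 9))
    (@En.n l11 (nat_lit 5946) (nat_lit 8) (nat_lit 2))
    (@En.n l9492 (nat_lit 5905) (nat_lit 9) (nat_lit 4))
    (@En.i (nat_lit 3290) (nat_lit 11) (nat_lit 14))
    (@En.n l9490 (nat_lit 5500) (nat_lit 2) (nat_lit 9))
    (@En.n l8962 (nat_lit 1978) (nat_lit 3) (nat_lit 6))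
    (@En.i (nat_lit 1927) (nat_lit 10) (nat_lit 12))
    (@En.n l3265 (nat_lit 1878) (nat_lit 5) (nat_lit 8))
    (@En.n l17 (nat_lit 5946) (nat_lit 15) (nat_lit 2))))
  (@Cl.mk (nat_lit 0x20007000b000600090009000e00050002000a000900070007000a000e0006) (nat_lit 0x70325001400870) (nat_lit 16) Lb.e (@T16.mk En
    (@En.n l20574 (nat_lit 5016) (nat_lit 8) (nat_lit 6))
    (@En.i (nat_lit 5949) (nat_lit 10) (nat_lit 14))
    (@En.n l207 (nat_lit 5948) (nat_lit 2) (nat_lit 10))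
    (@En.n l575 (nat_lit 5948) (nat_lit 3) (nat_lit 7))
    (@En.n l532 (nat_lit 12798) (nat_lit 13) (nat_lit 7))
    (@En.n l20575 (nat_lit 5919) (nat_lit 5) (nat_lit 9))
    (@En.n l2436 (nat_lit 1306) (nat_lit 7) (nat_lit 10))
    (@En.n l7 (nat_lit 5947) (nat_lit 7) (nat_lit 2))
    (@En.n l20576 (nat_lit 5021) (nat_lit 8) (nat_lit 5))
    (@En.n l10046 (nat_lit 7794) (nat_lit 10) (nat_lit 14))
    (@En.n l3554 (nat_lit 5946) (nat_lit 11) (nat_lit 9))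
    (@En.n l8659 (nat_lit 5711) (nat_lit 12) (nat_lit 9))
    (@En.n l20575 (nat_lit 1976) (nat_lit 13) (nat_lit 6))
    (@En.n l6652 (nat_lit 1924) (nat_lit 14) (nat_lit 11))
    (@En.n l8660 (nat_lit 1876) (nat_lit 6) (nat_lit 7))
    (@En.n l17 (nat_lit 5947) (nat_lit 15) (nat_lit 2))))
  (@Cl.mk (nat_lit 0x20006000a0006000e00090002000e00060002000b000a0007000a000e0005) (nat_lit 0x603406001407b0) (nat_lit 16) Lb.e (@T16.mk En
    (@En.n l10758 (nat_lit 5017) (nat_lit 9) (nat_lit 5))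
    (@En.i (nat_lit 5951) (nat_lit 11) (nat_lit 14))
    (@En.n l23553 (nat_lit 12854) (nat_lit 8) (nat_lit 10))
    (@En.i (nat_lit 12797) (nat_lit 3) (nat_lit 7))
    (@En.n l16262 (nat_lit 5926) (nat_lit 4) (nat_lit 10))
    (@En.n l2436 (nat_lit 1307) (nat_lit 12) (nat_lit 11))
    (@En.n l7 (nat_lit 5948) (nat_lit 6) (nat_lit 2))
    (@En.n l2436 (nat_lit 5258) (nat_lit 14) (nat_lit 6))
    (@En.n l16012 (nat_lit 7795) (nat_lit 1) (nat_lit 14))
    (@En.n l11 (nat_lit 5948) (nat_lit 9) (nat_lit 2))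
    (@En.i (nat_lit 5947) (nat_lit 11) (nat_lit 9))
    (@En.n l3478 (nat_lit 5712) (nat_lit 12) (nat_lit 14))
    (@En.n l16262 (nat_lit 1977) (nat_lit 13) (nat_lit 6))
    (@En.i (nat_lit 6646) (nat_lit 14) (nat_lit 10))
    (@En.n l2765 (nat_lit 1874) (nat_lit 7) (nat_lit 6))
    (@En.n l17 (nat_lit 5948) (nat_lit 15) (nat_lit 2))))
  (@Cl.mk (nat_lit 0x2000b000900070007000e00050002000d0007000b000300090009000e0005) (nat_lit 0x70060080001250) (nat_lit 16) Lb.e (@T16.mk En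
    (@En.i (nat_lit 5952) (nat_lit 7) (nat_lit 5))
    (@En.n l10046 (nat_lit 6423) (nat_lit 1) (nat_lit 14))
    (@En.n l3554 (nat_lit 5950) (nat_lit 2) (nat_lit 9))
    (@En.n l23120 (nat_lit 5509) (nat_lit 11) (nat_lit 9))
    (@En.n l23121 (nat_lit 5954) (nat_lit 4) (nat_lit 3))
    (@En.n l6459 (nat_lit 12616) (nat_lit 0) (nat_lit 11))
    (@En.i (nat_lit 5710) (nat_lit 14) (nat_lit 7))
    (@En.i (nat_lit 5214) (nat_lit 8) (nat_lit 13))
    (@En.n l17 (nat_lit 5949) (nat_lit 8) (nat_lit 2))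
    (@En.n l22979 (nat_lit 5953) (nat_lit 9) (nat_lit 5))
    (@En.n l524 (nat_lit 5956) (nat_lit 1) (nat_lit 14))
    (@En.n l575 (nat_lit 5951) (nat_lit 12) (nat_lit 7))
    (@En.n l532 (nat_lit 12800) (nat_lit 13) (nat_lit 7))
    (@En.n l16008 (nat_lit 8195) (nat_lit 14) (nat_lit 9))
    (@En.i (nat_lit 8573) (nat_lit 10) (nat_lit 11))
    (@En.n l7 (nat_lit 5949) (nat_lit 15) (nat_lit 2))))
  (@Cl.mk (nat_lit 0x2000a0008000e00070002000e00060002000d0008000c00030009000e0004) (nat_lit 0x52007009300140) (nat_lit 16) Lb.e (@T16.mk En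
    (@En.n l9492 (nat_lit 5958) (nat_lit 8) (nat_lit 4))
    (@En.i (nat_lit 680) (nat_lit 1) (nat_lit 14))
    (@En.n l9490 (nat_lit 5502) (nat_lit 11) (nat_lit 9))
    (@En.n l2576 (nat_lit 5957) (nat_lit 3) (nat_lit 3))
    (@En.i (nat_lit 11065) (nat_lit 0) (nat_lit 12))
    (@En.i (nat_lit 5711) (nat_lit 14) (nat_lit 8))
    (@En.n l4361 (nat_lit 5213) (nat_lit 12) (nat_lit 13))
    (@En.n l17 (nat_lit 5950) (nat_lit 7) (nat_lit 2))
    (@En.n l7708 (nat_lit 5959) (nat_lit 14) (nat_lit 6))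
    (@En.n l998 (nat_lit 5955) (nat_lit 1) (nat_lit 14))
    (@En.n l50 (nat_lit 5950) (nat_lit 10) (nat_lit 2))
    (@En.n l1267 (nat_lit 5949) (nat_lit 12) (nat_lit 7))
    (@En.n l11309 (nat_lit 12248) (nat_lit 13) (nat_lit 14))
    (@En.n l2667 (nat_lit 12777) (nat_lit 14) (nat_lit 8))
    (@En.i (nat_lit 9046) (nat_lit 3) (nat_lit 10))
    (@En.n l11 (nat_lit 5950) (nat_lit 15) (nat_lit 2))))
  (@Cl.mk (nat_lit 0x2000c000a0007000e00040002000d0006000a0003000e00090002000e0006) (nat_lit 0x80a008000a2060) (nat_lit 16) Lb.e (@T16.mk En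
    (@En.n l8840 (nat_lit 9215) (nat_lit 14) (nat_lit 6))
    (@En.n l16012 (nat_lit 8349) (nat_lit 1) (nat_lit 14))
    (@En.n l11 (nat_lit 5951) (nat_lit 2) (nat_lit 2))
    (@En.i (nat_lit 5949) (nat_lit 3) (nat_lit 9))
    (@En.n l2691 (nat_lit 9121) (nat_lit 1) (nat_lit 14))
    (@En.n l23121 (nat_lit 12622) (nat_lit 5) (nat_lit 3))
    (@En.i (nat_lit 12614) (nat_lit 3) (nat_lit 10))
    (@En.n l10020 (nat_lit 5199) (nat_lit 14) (nat_lit 6))
    (@En.i (nat_lit 5680) (nat_lit 9) (nat_lit 13))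
    (@En.n l17 (nat_lit 5951) (nat_lit 9) (nat_lit 2))
    (@En.n l4185 (nat_lit 12392) (nat_lit 10) (nat_lit 4))
    (@En.n l2055 (nat_lit 5147) (nat_lit 1) (nat_lit 14))
    (@En.i (nat_lit 5335) (nat_lit 13) (nat_lit 7))
    (@En.n l27035 (nat_lit 5817) (nat_lit 14) (nat_lit 10))
    (@En.i (nat_lit 8571) (nat_lit 12) (nat_lit 12))
    (@En.n l7 (nat_lit 5951) (nat_lit 15) (nat_lit 2))))
noncomputable def a372 : T16 Cl := @T16.mk Cl
  (@Cl.mk (nat_lit 0x2000c0007000b000b0004000a000a00050005000b000900060006000e0005) (nat_lit 0x6091013000600a0) (nat_lit 16) Lb.e (@T16.mk En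
    (@En.n l22979 (nat_lit 12000) (nat_lit 5) (nat_lit 5))
    (@En.n l524 (nat_lit 12193) (nat_lit 1) (nat_lit 14))
    (@En.n l34632 (nat_lit 9215) (nat_lit 10) (nat_lit 6))
    (@En.n l21237 (nat_lit 5616) (nat_lit 3) (nat_lit 6))
    (@En.n l20576 (nat_lit 9213) (nat_lit 4) (nat_lit 9))
    (@En.n l10050 (nat_lit 9055) (nat_lit 6) (nat_lit 11))
    (@En.n l34633 (nat_lit 5619) (nat_lit 11) (nat_lit 5))
    (@En.n l34634 (nat_lit 11172) (nat_lit 7) (nat_lit 5))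
    (@En.n l34635 (nat_lit 5958) (nat_lit 9) (nat_lit 10))
    (@En.n l20576 (nat_lit 5674) (nat_lit 10) (nat_lit 10))
    (@En.n l34636 (nat_lit 12338) (nat_lit 10) (nat_lit 4))
    (@En.n l77 (nat_lit 5949) (nat_lit 5) (nat_lit 11))
    (@En.n l2224 (nat_lit 12331) (nat_lit 13) (nat_lit 11))
    (@En.n l10045 (nat_lit 5709) (nat_lit 14) (nat_lit 7))
    (@En.n l34637 (nat_lit 5239) (nat_lit 3) (nat_lit 12))
    (@En.n l17 (nat_lit 5952) (nat_lit 15) (nat_lit 2))))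
  (@Cl.mk (nat_lit 0x2000b000b000a0008000800050005000d0006000b000300080008000e0005) (nat_lit 0x317020080000250) (nat_lit 16) Lb.e (@T16.mk En
    (@En.i (nat_lit 12000) (nat_lit 12) (nat_lit 5))
    (@En.n l2312 (nat_lit 2413) (nat_lit 1) (nat_lit 14))
    (@En.n l2312 (nat_lit 5959) (nat_lit 8) (nat_lit 8))
    (@En.n l77 (nat_lit 9248) (nat_lit 3) (nat_lit 8))
    (@En.n l3039 (nat_lit 11516) (nat_lit 4) (nat_lit 3))
    (@En.n l17626 (nat_lit 12266) (nat_lit 0) (nat_lit 11))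
    (@En.n l3039 (nat_lit 5701) (nat_lit 6) (nat_lit 6))
    (@En.n l32590 (nat_lit 11512) (nat_lit 8) (nat_lit 13))
    (@En.n l152 (nat_lit 12385) (nat_lit 11) (nat_lit 5))
    (@En.n l936 (nat_lit 12359) (nat_lit 9) (nat_lit 5))
    (@En.n l7479 (nat_lit 12392) (nat_lit 11) (nat_lit 8))
    (@En.n l27852 (nat_lit 12804) (nat_lit 12) (nat_lit 8))
    (@En.n l1866 (nat_lit 12109) (nat_lit 13) (nat_lit 10))
    (@En.n l32591 (nat_lit 5949) (nat_lit 14) (nat_lit 11))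
    (@En.i (nat_lit 11288) (nat_lit 10) (nat_lit 11))
    (@En.n l17 (nat_lit 5953) (nat_lit 15) (nat_lit 2))))
  (@Cl.mk (nat_lit 0x2000b000800070007000e00050002000d000a0008000300090009000e0006) (nat_lit 0x400b0098400330) (nat_lit 16) Lb.e (@T16.mk En
    (@En.n l9810 (nat_lit 5618) (nat_lit 7) (nat_lit 6))
    (@En.n l6072 (nat_lit 6422) (nat_lit 1) (nat_lit 14))
    (@En.n l4029 (nat_lit 5957) (nat_lit 2) (nat_lit 9))
    (@En.n l18857 (nat_lit 11134) (nat_lit 11) (nat_lit 9))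
    (@En.n l13462 (nat_lit 5949) (nat_lit 4) (nat_lit 3))
    (@En.i (nat_lit 4895) (nat_lit 0) (nat_lit 8))
    (@En.n l18858 (nat_lit 11560) (nat_lit 14) (nat_lit 10))
    (@En.n l998 (nat_lit 5212) (nat_lit 8) (nat_lit 13))
    (@En.n l50 (nat_lit 5954) (nat_lit 8) (nat_lit 2))
    (@En.n l4263 (nat_lit 11516) (nat_lit 9) (nat_lit 5))
    (@En.n l476 (nat_lit 12721) (nat_lit 1) (nat_lit 14))
    (@En.n l152 (nat_lit 12622) (nat_lit 12) (nat_lit 7))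
    (@En.n l2667 (nat_lit 12801) (nat_lit 13) (nat_lit 7))
    (@En.n l11062 (nat_lit 5706) (nat_lit 14) (nat_lit 8))
    (@En.n l18859 (nat_lit 9050) (nat_lit 10) (nat_lit 11))
    (@En.n l11 (nat_lit 5954) (nat_lit 15) (nat_lit 2))))
  (@Cl.mk (nat_lit 0x20005000d0008000c00030009000e00040002000b0008000b0007000e0005) (nat_lit 0x93101500661060) (nat_lit 16) Lb.e (@T16.mk En
    (@En.n l215 (nat_lit 9245) (nat_lit 9) (nat_lit 5))
    (@En.n l998 (nat_lit 12200) (nat_lit 1) (nat_lit 14))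
    (@En.n l5592 (nat_lit 5956) (nat_lit 2) (nat_lit 7))
    (@En.n l12555 (nat_lit 1149) (nat_lit 3) (nat_lit 11))
    (@En.n l872 (nat_lit 8192) (nat_lit 4) (nat_lit 8))
    (@En.n l217 (nat_lit 8434) (nat_lit 6) (nat_lit 11))
    (@En.n l28 (nat_lit 5955) (nat_lit 6) (nat_lit 2))
    (@En.i (nat_lit 5676) (nat_lit 7) (nat_lit 4))
    (@En.i (nat_lit 331) (nat_lit 9) (nat_lit 14))
    (@En.n l998 (nat_lit 5505) (nat_lit 10) (nat_lit 9))
    (@En.i (nat_lit 12727) (nat_lit 10) (nat_lit 3))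
    (@En.n l1643 (nat_lit 4037) (nat_lit 12) (nat_lit 12))
    (@En.i (nat_lit 5509) (nat_lit 13) (nat_lit 8))
    (@En.n l13520 (nat_lit 5949) (nat_lit 7) (nat_lit 13))
    (@En.n l2039 (nat_lit 10742) (nat_lit 13) (nat_lit 5))
    (@En.n l17 (nat_lit 5955) (nat_lit 15) (nat_lit 2))))
  (@Cl.mk (nat_lit 0x2000a000d0007000b000300090006000e00050002000c00090007000e0004) (nat_lit 0x390100050076050) (nat_lit 16) Lb.e (@T16.mk En
    (@En.n l24935 (nat_lit 12197) (nat_lit 10) (nat_lit 4))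
    (@En.n l6050 (nat_lit 4167) (nat_lit 1) (nat_lit 14))
    (@En.i (nat_lit 6093) (nat_lit 2) (nat_lit 7))
    (@En.n l26237 (nat_lit 8190) (nat_lit 14) (nat_lit 9))
    (@En.n l615 (nat_lit 8437) (nat_lit 10) (nat_lit 12))
    (@En.n l7 (nat_lit 5956) (nat_lit 5) (nat_lit 2))
    (@En.i (nat_lit 12193) (nat_lit 6) (nat_lit 5))
    (@En.n l615 (nat_lit 901) (nat_lit 8) (nat_lit 14))
    (@En.n l159 (nat_lit 12200) (nat_lit 8) (nat_lit 6))
    (@En.n l11 (nat_lit 12202) (nat_lit 10) (nat_lit 9))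
    (@En.n l26238 (nat_lit 12721) (nat_lit 10) (nat_lit 3))
    (@En.i (nat_lit 4041) (nat_lit 0) (nat_lit 11))
    (@En.n l1910 (nat_lit 9122) (nat_lit 13) (nat_lit 7))
    (@En.n l619 (nat_lit 5951) (nat_lit 8) (nat_lit 13))
    (@En.n l26239 (nat_lit 12171) (nat_lit 9) (nat_lit 10))
    (@En.n l17 (nat_lit 5956) (nat_lit 15) (nat_lit 2))))
  (@Cl.mk (nat_lit 0x2000a0007000e00070002000e00060002000d000b000900030009000e0005) (nat_lit 0x200b00a010220) (nat_lit 16) Lb.e (@T16.mk En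
    (@En.n l7831 (nat_lit 12342) (nat_lit 8) (nat_lit 5))
    (@En.i (nat_lit 679) (nat_lit 1) (nat_lit 14))
    (@En.n l7832 (nat_lit 11129) (nat_lit 11) (nat_lit 9))
    (@En.n l936 (nat_lit 5950) (nat_lit 3) (nat_lit 3))
    (@En.i (nat_lit 2117) (nat_lit 0) (nat_lit 9))
    (@En.n l936 (nat_lit 11542) (nat_lit 14) (nat_lit 11))
    (@En.n l4546 (nat_lit 5211) (nat_lit 12) (nat_lit 13))
    (@En.n l17 (nat_lit 5957) (nat_lit 7) (nat_lit 2))
    (@En.n l6982 (nat_lit 11514) (nat_lit 14) (nat_lit 6))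
    (@En.n l1304 (nat_lit 12727) (nat_lit 1) (nat_lit 14))
    (@En.n l50 (nat_lit 5957) (nat_lit 10) (nat_lit 2))
    (@En.n l1213 (nat_lit 5954) (nat_lit 12) (nat_lit 7))
    (@En.n l7478 (nat_lit 12249) (nat_lit 13) (nat_lit 14))
    (@En.n l7833 (nat_lit 5704) (nat_lit 14) (nat_lit 7))
    (@En.n l5858 (nat_lit 9048) (nat_lit 3) (nat_lit 10))
    (@En.n l11 (nat_lit 5957) (nat_lit 15) (nat_lit 2))))
  (@Cl.mk (nat_lit 0x2000c0008000c000c0004000a00040004000a0008000e00060002000e0006) (nat_lit 0x7401020004700a0) (nat_lit 16) Lb.e (@T16.mk En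
    (@En.n l9488 (nat_lit 12372) (nat_lit 14) (nat_lit 6))
    (@En.n l18835 (nat_lit 5676) (nat_lit 1) (nat_lit 14))
    (@En.n l18 (nat_lit 5958) (nat_lit 2) (nat_lit 2))
    (@En.n l18836 (nat_lit 5952) (nat_lit 3) (nat_lit 6))
    (@En.n l8175 (nat_lit 12247) (nat_lit 1) (nat_lit 14))
    (@En.i (nat_lit 12776) (nat_lit 5) (nat_lit 8))
    (@En.n l8175 (nat_lit 9062) (nat_lit 3) (nat_lit 10))
    (@En.n l7 (nat_lit 12374) (nat_lit 12) (nat_lit 4))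
    (@En.n l18837 (nat_lit 11542) (nat_lit 8) (nat_lit 4))
    (@En.i (nat_lit 5504) (nat_lit 10) (nat_lit 10))
    (@En.n l8175 (nat_lit 12339) (nat_lit 10) (nat_lit 4))
    (@En.n l18838 (nat_lit 5950) (nat_lit 4) (nat_lit 12))
    (@En.n l18839 (nat_lit 11068) (nat_lit 13) (nat_lit 12))
    (@En.n l18840 (nat_lit 5713) (nat_lit 14) (nat_lit 8))
    (@En.n l12145 (nat_lit 5244) (nat_lit 12) (nat_lit 12))
    (@En.n l3 (nat_lit 5958) (nat_lit 15) (nat_lit 2))))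
  (@Cl.mk (nat_lit 0x200060006000d0007000c00030008000e00040002000a000a0009000e0008) (nat_lit 0x9000140031791) (nat_lit 16) Lb.e (@T16.mk En
    (@En.n l17056 (nat_lit 5953) (nat_lit 11) (nat_lit 8))
    (@En.n l6852 (nat_lit 12252) (nat_lit 12) (nat_lit 14))
    (@En.n l77 (nat_lit 12115) (nat_lit 2) (nat_lit 9))
    (@En.n l17050 (nat_lit 5950) (nat_lit 14) (nat_lit 10))
    (@En.n l17051 (nat_lit 11379) (nat_lit 4) (nat_lit 10))
    (@En.n l17 (nat_lit 5959) (nat_lit 5) (nat_lit 2))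
    (@En.n l13320 (nat_lit 12372) (nat_lit 6) (nat_lit 4))
    (@En.i (nat_lit 1162) (nat_lit 8) (nat_lit 14))
    (@En.n l17057 (nat_lit 5506) (nat_lit 2) (nat_lit 8))
    (@En.i (nat_lit 11514) (nat_lit 9) (nat_lit 3))
    (@En.n l17051 (nat_lit 12757) (nat_lit 11) (nat_lit 12))
    (@En.n l17058 (nat_lit 5715) (nat_lit 12) (nat_lit 7))
    (@En.n l6859 (nat_lit 11511) (nat_lit 13) (nat_lit 13))
    (@En.n l17059 (nat_lit 12380) (nat_lit 14) (nat_lit 6))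
    (@En.n l6861 (nat_lit 12363) (nat_lit 8) (nat_lit 6))
    (@En.n l3 (nat_lit 5959) (nat_lit 15) (nat_lit 2))))
  (@Cl.mk (nat_lit 0x2000b000e00080002000c00050008000c0004000d000800040003000e0008) (nat_lit 0x155070660700091) (nat_lit 16) Lb.e (@T16.mk En
    (@En.i (nat_lit 1925) (nat_lit 4) (nat_lit 8))
    (@En.n l1001 (nat_lit 6943) (nat_lit 1) (nat_lit 14))
    (@En.n l996 (nat_lit 1927) (nat_lit 2) (nat_lit 3))
    (@En.i (nat_lit 4955) (nat_lit 7) (nat_lit 4))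
    (@En.n l86 (nat_lit 6638) (nat_lit 4) (nat_lit 8))
    (@En.n l9825 (nat_lit 1798) (nat_lit 10) (nat_lit 13))
    (@En.n l11987 (nat_lit 5350) (nat_lit 6) (nat_lit 4))
    (@En.n l1001 (nat_lit 5942) (nat_lit 8) (nat_lit 12))
    (@En.i (nat_lit 5642) (nat_lit 13) (nat_lit 8))
    (@En.n l2621 (nat_lit 1917) (nat_lit 14) (nat_lit 5))
    (@En.n l2237 (nat_lit 5963) (nat_lit 11) (nat_lit 12))
    (@En.n l3 (nat_lit 5960) (nat_lit 11) (nat_lit 2))
    (@En.n l1596 (nat_lit 5961) (nat_lit 13) (nat_lit 8))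
    (@En.n l86 (nat_lit 11061) (nat_lit 4) (nat_lit 14))
    (@En.n l1738 (nat_lit 1925) (nat_lit 2) (nat_lit 11))
    (@En.n l18 (nat_lit 5960) (nat_lit 15) (nat_lit 2))))
  (@Cl.mk (nat_lit 0x2000c00080008000c00040007000b0004000c0008000800050004000e0009) (nat_lit 0x1446004055100c1) (nat_lit 16) Lb.e (@T16.mk En
    (@En.n l5 (nat_lit 5113) (nat_lit 5) (nat_lit 9))
    (@En.n l20064 (nat_lit 6518) (nat_lit 1) (nat_lit 14))
    (@En.n l181 (nat_lit 5110) (nat_lit 2) (nat_lit 4))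
    (@En.i (nat_lit 6599) (nat_lit 3) (nat_lit 5))
    (@En.n l187 (nat_lit 5960) (nat_lit 4) (nat_lit 8))
    (@En.n l26783 (nat_lit 6645) (nat_lit 5) (nat_lit 8))
    (@En.n l12972 (nat_lit 2838) (nat_lit 7) (nat_lit 12))
    (@En.n l12973 (nat_lit 5356) (nat_lit 7) (nat_lit 4))
    (@En.n l5413 (nat_lit 6267) (nat_lit 9) (nat_lit 11))
    (@En.n l3531 (nat_lit 5652) (nat_lit 11) (nat_lit 7))
    (@En.n l10138 (nat_lit 5962) (nat_lit 10) (nat_lit 4))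
    (@En.n l619 (nat_lit 5970) (nat_lit 12) (nat_lit 12))
    (@En.n l253 (nat_lit 6630) (nat_lit 8) (nat_lit 8))
    (@En.n l26784 (nat_lit 9487) (nat_lit 14) (nat_lit 8))
    (@En.i (nat_lit 5113) (nat_lit 3) (nat_lit 12))
    (@En.n l18 (nat_lit 5961) (nat_lit 15) (nat_lit 2))))
  (@Cl.mk (nat_lit 0x2000c000a0009000900040007000b0006000c0007000700050004000e0009) (nat_lit 0x87200404000090) (nat_lit 16) Lb.e (@T16.mk En
    (@En.n l1353 (nat_lit 5965) (nat_lit 5) (nat_lit 9))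
    (@En.n l35568 (nat_lit 6516) (nat_lit 1) (nat_lit 14))
    (@En.n l35569 (nat_lit 6810) (nat_lit 2) (nat_lit 4))
    (@En.i (nat_lit 5963) (nat_lit 3) (nat_lit 5))
    (@En.n l14025 (nat_lit 1917) (nat_lit 9) (nat_lit 7))
    (@En.n l5998 (nat_lit 2024) (nat_lit 5) (nat_lit 7))
    (@En.n l35570 (nat_lit 2462) (nat_lit 7) (nat_lit 12))
    (@En.n l35571 (nat_lit 1705) (nat_lit 7) (nat_lit 6))
    (@En.i (nat_lit 5938) (nat_lit 9) (nat_lit 11))
    (@En.n l13704 (nat_lit 6128) (nat_lit 11) (nat_lit 7))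
    (@En.n l35572 (nat_lit 5389) (nat_lit 10) (nat_lit 4))
    (@En.n l29466 (nat_lit 6622) (nat_lit 7) (nat_lit 9))
    (@En.n l35573 (nat_lit 5972) (nat_lit 13) (nat_lit 9))
    (@En.n l35574 (nat_lit 9520) (nat_lit 14) (nat_lit 10))
    (@En.i (nat_lit 5965) (nat_lit 3) (nat_lit 12))
    (@En.n l17 (nat_lit 5962) (nat_lit 15) (nat_lit 2))))
  (@Cl.mk (nat_lit 0x2000c00090008000c00040007000b00040007000d000800050003000e0009) (nat_lit 0x65600500520010) (nat_lit 16) Lb.e (@T16.mk En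
    (@En.n l1353 (nat_lit 5964) (nat_lit 14) (nat_lit 9))
    (@En.i (nat_lit 4928) (nat_lit 1) (nat_lit 14))
    (@En.n l30276 (nat_lit 6652) (nat_lit 2) (nat_lit 3))
    (@En.n l2067 (nat_lit 4952) (nat_lit 3) (nat_lit 5))
    (@En.i (nat_lit 6937) (nat_lit 4) (nat_lit 8))
    (@En.n l19884 (nat_lit 2616) (nat_lit 6) (nat_lit 13))
    (@En.n l6083 (nat_lit 1917) (nat_lit 11) (nat_lit 7))
    (@En.n l2221 (nat_lit 1716) (nat_lit 7) (nat_lit 4))
    (@En.i (nat_lit 6232) (nat_lit 9) (nat_lit 11))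
    (@En.n l2067 (nat_lit 6116) (nat_lit 11) (nat_lit 7))
    (@En.n l3596 (nat_lit 6690) (nat_lit 10) (nat_lit 4))
    (@En.n l28 (nat_lit 5968) (nat_lit 12) (nat_lit 12))
    (@En.n l2650 (nat_lit 5970) (nat_lit 13) (nat_lit 8))
    (@En.n l5891 (nat_lit 9560) (nat_lit 14) (nat_lit 9))
    (@En.i (nat_lit 5964) (nat_lit 12) (nat_lit 12))
    (@En.n l17 (nat_lit 5963) (nat_lit 15) (nat_lit 2))))
  (@Cl.mk (nat_lit 0x300090009000c00080007000b000400070007000b00050008000d00090005) (nat_lit 0x70a505000603620) (nat_lit 16) Lb.e (@T16.mk En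
    (@En.n l2678 (nat_lit 4946) (nat_lit 0) (nat_lit 5))
    (@En.i (nat_lit 6936) (nat_lit 0) (nat_lit 9))
    (@En.n l42815 (nat_lit 2444) (nat_lit 2) (nat_lit 13))
    (@En.n l6083 (nat_lit 1918) (nat_lit 10) (nat_lit 8))
    (@En.n l28379 (nat_lit 1715) (nat_lit 4) (nat_lit 5))
    (@En.i (nat_lit 9667) (nat_lit 8) (nat_lit 11))
    (@En.n l725 (nat_lit 5963) (nat_lit 9) (nat_lit 7))
    (@En.n l3340 (nat_lit 6483) (nat_lit 11) (nat_lit 7))
    (@En.n l3596 (nat_lit 6692) (nat_lit 8) (nat_lit 4))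
    (@En.n l28 (nat_lit 5969) (nat_lit 8) (nat_lit 11))
    (@En.n l2650 (nat_lit 5971) (nat_lit 9) (nat_lit 7))
    (@En.n l3333 (nat_lit 9273) (nat_lit 12) (nat_lit 8))
    (@En.n l31607 (nat_lit 6649) (nat_lit 6) (nat_lit 12))
    (@En.n l42816 (nat_lit 6649) (nat_lit 7) (nat_lit 9))
    (@En.i (nat_lit 10370) (nat_lit 5) (nat_lit 9))
    (@En.n l30276 (nat_lit 6647) (nat_lit 15) (nat_lit 3))))
  (@Cl.mk (nat_lit 0x400070007000b0007000c000800080005000400090009000c000900080008) (nat_lit 0x504310070a462) (nat_lit 16) Lb.e (@T16.mk En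
    (@En.n l29466 (nat_lit 6621) (nat_lit 8) (nat_lit 8))
    (@En.n l36661 (nat_lit 5396) (nat_lit 1) (nat_lit 8))
    (@En.n l36662 (nat_lit 9313) (nat_lit 12) (nat_lit 9))
    (@En.n l36663 (nat_lit 6674) (nat_lit 6) (nat_lit 12))
    (@En.n l36664 (nat_lit 6674) (nat_lit 7) (nat_lit 9))
    (@En.n l36665 (nat_lit 6812) (nat_lit 5) (nat_lit 9))
    (@En.n l36666 (nat_lit 6807) (nat_lit 12) (nat_lit 4))
    (@En.i (nat_lit 5964) (nat_lit 0) (nat_lit 5))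
    (@En.n l14025 (nat_lit 1918) (nat_lit 8) (nat_lit 8))
    (@En.n l36667 (nat_lit 2022) (nat_lit 1) (nat_lit 8))
    (@En.n l36668 (nat_lit 2437) (nat_lit 2) (nat_lit 12))
    (@En.n l36669 (nat_lit 1708) (nat_lit 4) (nat_lit 7))
    (@En.i (nat_lit 6279) (nat_lit 8) (nat_lit 11))
    (@En.n l725 (nat_lit 5962) (nat_lit 9) (nat_lit 7))
    (@En.n l36670 (nat_lit 6482) (nat_lit 11) (nat_lit 7))
    (@En.n l35572 (nat_lit 5388) (nat_lit 15) (nat_lit 4))))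
  (@Cl.mk (nat_lit 0x2000d000a000800030006000a000d0006000c0003000800060004000e000a) (nat_lit 0x61002a03030016) (nat_lit 16) Lb.e (@T16.mk En
    (@En.n l1353 (nat_lit 5967) (nat_lit 4) (nat_lit 10))
    (@En.n l2031 (nat_lit 4930) (nat_lit 1) (nat_lit 14))
    (@En.n l11618 (nat_lit 6757) (nat_lit 2) (nat_lit 4))
    (@En.n l11 (nat_lit 5968) (nat_lit 3) (nat_lit 6))
    (@En.n l55 (nat_lit 5963) (nat_lit 4) (nat_lit 8))
    (@En.n l14585 (nat_lit 5972) (nat_lit 5) (nat_lit 3))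
    (@En.n l2031 (nat_lit 884) (nat_lit 0) (nat_lit 12))
    (@En.n l11 (nat_lit 5962) (nat_lit 7) (nat_lit 6))
    (@En.n l24511 (nat_lit 6625) (nat_lit 5) (nat_lit 13))
    (@En.i (nat_lit 6234) (nat_lit 10) (nat_lit 10))
    (@En.n l1643 (nat_lit 6118) (nat_lit 12) (nat_lit 6))
    (@En.n l3596 (nat_lit 5398) (nat_lit 11) (nat_lit 3))
    (@En.n l287 (nat_lit 1364) (nat_lit 0) (nat_lit 8))
    (@En.n l14583 (nat_lit 9521) (nat_lit 14) (nat_lit 10))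
    (@En.i (nat_lit 5967) (nat_lit 2) (nat_lit 13))
    (@En.n l17 (nat_lit 5966) (nat_lit 15) (nat_lit 2))))
  (@Cl.mk (nat_lit 0x300060006000a000d0007000c0003000900060004000a000a000d00090007) (nat_lit 0x3904030050b50) (nat_lit 16) Lb.e (@T16.mk En
    (@En.n l287 (nat_lit 1360) (nat_lit 0) (nat_lit 7))
    (@En.n l16638 (nat_lit 9275) (nat_lit 9) (nat_lit 9))
    (@En.n l31608 (nat_lit 6675) (nat_lit 5) (nat_lit 13))
    (@En.n l31929 (nat_lit 6675) (nat_lit 6) (nat_lit 10))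
    (@En.n l31930 (nat_lit 6153) (nat_lit 4) (nat_lit 10))
    (@En.n l30277 (nat_lit 6745) (nat_lit 5) (nat_lit 4))
    (@En.n l11 (nat_lit 5969) (nat_lit 14) (nat_lit 6))
    (@En.n l55 (nat_lit 5964) (nat_lit 1) (nat_lit 9))
    (@En.n l31931 (nat_lit 5396) (nat_lit 8) (nat_lit 3))
    (@En.n l2031 (nat_lit 887) (nat_lit 0) (nat_lit 12))
    (@En.n l11 (nat_lit 5965) (nat_lit 11) (nat_lit 7))
    (@En.n l31932 (nat_lit 6623) (nat_lit 5) (nat_lit 13))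
    (@En.i (nat_lit 9668) (nat_lit 13) (nat_lit 10))
    (@En.n l725 (nat_lit 5966) (nat_lit 10) (nat_lit 6))
    (@En.n l3340 (nat_lit 6491) (nat_lit 12) (nat_lit 6))
    (@En.n l3596 (nat_lit 5395) (nat_lit 15) (nat_lit 3))))
noncomputable def a373 : T16 Cl := @T16.mk Cl
  (@Cl.mk (nat_lit 0x2000d0009000c00030006000a0004000d0007000d000300060003000e000a) (nat_lit 0x650020b0600017) (nat_lit 16) Lb.e (@T16.mk En
    (@En.n l1353 (nat_lit 5969) (nat_lit 12) (nat_lit 10))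
    (@En.i (nat_lit 4927) (nat_lit 1) (nat_lit 14))
    (@En.n l11618 (nat_lit 6653) (nat_lit 2) (nat_lit 3))
    (@En.i (nat_lit 4948) (nat_lit 12) (nat_lit 6))
    (@En.n l564 (nat_lit 5970) (nat_lit 4) (nat_lit 3))
    (@En.n l2031 (nat_lit 2266) (nat_lit 0) (nat_lit 13))
    (@En.i (nat_lit 5963) (nat_lit 6) (nat_lit 7))
    (@En.i (nat_lit 5966) (nat_lit 8) (nat_lit 13))
    (@En.n l2221 (nat_lit 6799) (nat_lit 8) (nat_lit 4))
    (@En.i (nat_lit 6230) (nat_lit 10) (nat_lit 10))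
    (@En.n l1643 (nat_lit 6117) (nat_lit 12) (nat_lit 6))
    (@En.n l3596 (nat_lit 6688) (nat_lit 11) (nat_lit 3))
    (@En.i (nat_lit 1220) (nat_lit 0) (nat_lit 12))
    (@En.n l5891 (nat_lit 9561) (nat_lit 14) (nat_lit 9))
    (@En.i (nat_lit 5969) (nat_lit 10) (nat_lit 13))
    (@En.n l17 (nat_lit 5968) (nat_lit 15) (nat_lit 2))))
  (@Cl.mk (nat_lit 0x300060003000a000a000d0008000b000300060006000a0005000d0008000d) (nat_lit 0x65b5400040a47) (nat_lit 16) Lb.e (@T16.mk En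
    (@En.n l2031 (nat_lit 2267) (nat_lit 0) (nat_lit 13))
    (@En.i (nat_lit 5964) (nat_lit 3) (nat_lit 8))
    (@En.i (nat_lit 5967) (nat_lit 11) (nat_lit 13))
    (@En.i (nat_lit 6798) (nat_lit 3) (nat_lit 5))
    (@En.i (nat_lit 9665) (nat_lit 13) (nat_lit 10))
    (@En.n l725 (nat_lit 5968) (nat_lit 10) (nat_lit 6))
    (@En.n l3340 (nat_lit 7007) (nat_lit 12) (nat_lit 6))
    (@En.n l3596 (nat_lit 6680) (nat_lit 7) (nat_lit 3))
    (@En.i (nat_lit 1222) (nat_lit 0) (nat_lit 11))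
    (@En.n l3333 (nat_lit 9274) (nat_lit 12) (nat_lit 8))
    (@En.i (nat_lit 5973) (nat_lit 5) (nat_lit 13))
    (@En.n l1353 (nat_lit 5973) (nat_lit 6) (nat_lit 10))
    (@En.i (nat_lit 6154) (nat_lit 4) (nat_lit 10))
    (@En.i (nat_lit 6651) (nat_lit 5) (nat_lit 3))
    (@En.i (nat_lit 4950) (nat_lit 12) (nat_lit 6))
    (@En.n l564 (nat_lit 5971) (nat_lit 15) (nat_lit 3))))
  (@Cl.mk (nat_lit 0x2000d0008000c00030006000a0004000d000c0008000300060004000e000a) (nat_lit 0x7450030b5600017) (nat_lit 16) Lb.e (@T16.mk En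
    (@En.n l5 (nat_lit 5971) (nat_lit 12) (nat_lit 10))
    (@En.i (nat_lit 4931) (nat_lit 1) (nat_lit 14))
    (@En.n l1825 (nat_lit 6658) (nat_lit 2) (nat_lit 4))
    (@En.i (nat_lit 6603) (nat_lit 3) (nat_lit 6))
    (@En.n l1722 (nat_lit 5968) (nat_lit 4) (nat_lit 3))
    (@En.i (nat_lit 6931) (nat_lit 0) (nat_lit 8))
    (@En.n l1823 (nat_lit 6653) (nat_lit 7) (nat_lit 12))
    (@En.n l5451 (nat_lit 5972) (nat_lit 8) (nat_lit 13))
    (@En.n l2832 (nat_lit 6803) (nat_lit 8) (nat_lit 4))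
    (@En.n l387 (nat_lit 6228) (nat_lit 10) (nat_lit 10))
    (@En.n l513 (nat_lit 5660) (nat_lit 12) (nat_lit 6))
    (@En.n l5385 (nat_lit 5397) (nat_lit 11) (nat_lit 3))
    (@En.i (nat_lit 1225) (nat_lit 0) (nat_lit 12))
    (@En.n l4130 (nat_lit 9485) (nat_lit 14) (nat_lit 8))
    (@En.i (nat_lit 5971) (nat_lit 10) (nat_lit 13))
    (@En.n l18 (nat_lit 5970) (nat_lit 15) (nat_lit 2))))
  (@Cl.mk (nat_lit 0x300060004000a000a000d0007000b000300060006000a0005000d000c0009) (nat_lit 0x6560400030b37) (nat_lit 16) Lb.e (@T16.mk En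
    (@En.n l8487 (nat_lit 6932) (nat_lit 0) (nat_lit 9))
    (@En.n l2593 (nat_lit 6651) (nat_lit 10) (nat_lit 12))
    (@En.n l21950 (nat_lit 5396) (nat_lit 11) (nat_lit 13))
    (@En.n l2832 (nat_lit 6802) (nat_lit 3) (nat_lit 5))
    (@En.n l387 (nat_lit 10356) (nat_lit 13) (nat_lit 10))
    (@En.n l17 (nat_lit 5970) (nat_lit 10) (nat_lit 6))
    (@En.n l1329 (nat_lit 7008) (nat_lit 12) (nat_lit 6))
    (@En.n l5385 (nat_lit 5394) (nat_lit 7) (nat_lit 3))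
    (@En.i (nat_lit 1224) (nat_lit 0) (nat_lit 11))
    (@En.n l11553 (nat_lit 9478) (nat_lit 10) (nat_lit 7))
    (@En.n l21951 (nat_lit 6677) (nat_lit 5) (nat_lit 13))
    (@En.n l21952 (nat_lit 6677) (nat_lit 6) (nat_lit 10))
    (@En.n l21953 (nat_lit 6215) (nat_lit 13) (nat_lit 10))
    (@En.n l1825 (nat_lit 6655) (nat_lit 5) (nat_lit 4))
    (@En.i (nat_lit 6600) (nat_lit 12) (nat_lit 6))
    (@En.n l1722 (nat_lit 5969) (nat_lit 15) (nat_lit 3))))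
  (@Cl.mk (nat_lit 0x2000d0009000800030006000a000d000b00070003000800060005000e000a) (nat_lit 0x161002a40020016) (nat_lit 16) Lb.e (@T16.mk En
    (@En.n l11269 (nat_lit 5396) (nat_lit 4) (nat_lit 10))
    (@En.n l2205 (nat_lit 1735) (nat_lit 1) (nat_lit 14))
    (@En.n l14605 (nat_lit 6736) (nat_lit 2) (nat_lit 5))
    (@En.n l9473 (nat_lit 5970) (nat_lit 3) (nat_lit 6))
    (@En.n l22200 (nat_lit 5961) (nat_lit 4) (nat_lit 8))
    (@En.n l22201 (nat_lit 5966) (nat_lit 5) (nat_lit 3))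
    (@En.n l117 (nat_lit 6929) (nat_lit 0) (nat_lit 7))
    (@En.n l22202 (nat_lit 6786) (nat_lit 8) (nat_lit 11))
    (@En.i (nat_lit 6627) (nat_lit 5) (nat_lit 13))
    (@En.n l22203 (nat_lit 6235) (nat_lit 10) (nat_lit 10))
    (@En.n l3549 (nat_lit 5661) (nat_lit 12) (nat_lit 6))
    (@En.n l3927 (nat_lit 5390) (nat_lit 11) (nat_lit 3))
    (@En.n l9628 (nat_lit 1365) (nat_lit 0) (nat_lit 8))
    (@En.n l14297 (nat_lit 9486) (nat_lit 14) (nat_lit 9))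
    (@En.n l11268 (nat_lit 5396) (nat_lit 2) (nat_lit 13))
    (@En.n l18 (nat_lit 5972) (nat_lit 15) (nat_lit 2))))
  (@Cl.mk (nat_lit 0x2000a0006000d0009000d000300060003000a000d0007000a0003000e0006) (nat_lit 0x40a650004a03080) (nat_lit 16) Lb.e (@T16.mk En
    (@En.n l17 (nat_lit 5969) (nat_lit 6) (nat_lit 6))
    (@En.n l1003 (nat_lit 7044) (nat_lit 1) (nat_lit 14))
    (@En.n l3596 (nat_lit 6679) (nat_lit 2) (nat_lit 3))
    (@En.i (nat_lit 1226) (nat_lit 3) (nat_lit 10))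
    (@En.n l8827 (nat_lit 9271) (nat_lit 4) (nat_lit 7))
    (@En.n l2520 (nat_lit 13859) (nat_lit 5) (nat_lit 13))
    (@En.n l31604 (nat_lit 6212) (nat_lit 13) (nat_lit 10))
    (@En.n l30273 (nat_lit 6650) (nat_lit 7) (nat_lit 3))
    (@En.i (nat_lit 4949) (nat_lit 0) (nat_lit 6))
    (@En.n l31605 (nat_lit 6677) (nat_lit 9) (nat_lit 3))
    (@En.n l31606 (nat_lit 2274) (nat_lit 0) (nat_lit 13))
    (@En.n l31607 (nat_lit 6649) (nat_lit 12) (nat_lit 9))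
    (@En.n l31608 (nat_lit 6675) (nat_lit 13) (nat_lit 13))
    (@En.n l2520 (nat_lit 6800) (nat_lit 14) (nat_lit 6))
    (@En.i (nat_lit 9664) (nat_lit 4) (nat_lit 10))
    (@En.n l725 (nat_lit 5973) (nat_lit 15) (nat_lit 2))))
  (@Cl.mk (nat_lit 0x2000800060006000e000d0002000c00030008000b0004000a000a000e0005) (nat_lit 0x1008a0906401250) (nat_lit 16) Lb.e (@T16.mk En
    (@En.n l8898 (nat_lit 5902) (nat_lit 6) (nat_lit 5))
    (@En.n l2869 (nat_lit 6967) (nat_lit 8) (nat_lit 14))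
    (@En.n l61 (nat_lit 5899) (nat_lit 2) (nat_lit 10))
    (@En.n l1353 (nat_lit 2658) (nat_lit 10) (nat_lit 10))
    (@En.i (nat_lit 9223) (nat_lit 4) (nat_lit 4))
    (@En.i (nat_lit 4744) (nat_lit 7) (nat_lit 11))
    (@En.n l2869 (nat_lit 2051) (nat_lit 6) (nat_lit 8))
    (@En.n l117 (nat_lit 5847) (nat_lit 7) (nat_lit 3))
    (@En.n l1353 (nat_lit 5771) (nat_lit 0) (nat_lit 12))
    (@En.n l3 (nat_lit 5974) (nat_lit 9) (nat_lit 2))
    (@En.i (nat_lit 5847) (nat_lit 11) (nat_lit 13))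
    (@En.i (nat_lit 5978) (nat_lit 12) (nat_lit 14))
    (@En.n l12150 (nat_lit 5845) (nat_lit 13) (nat_lit 6))
    (@En.n l1723 (nat_lit 6136) (nat_lit 14) (nat_lit 6))
    (@En.n l5934 (nat_lit 5902) (nat_lit 4) (nat_lit 8))
    (@En.n l7 (nat_lit 5974) (nat_lit 15) (nat_lit 2))))
  (@Cl.mk (nat_lit 0x20006000c000c0005000800040004000e000d0002000a00030008000e000b) (nat_lit 0x32060067070679) (nat_lit 16) Lb.e (@T16.mk En
    (@En.i (nat_lit 5902) (nat_lit 11) (nat_lit 11))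
    (@En.n l134 (nat_lit 4665) (nat_lit 12) (nat_lit 14))
    (@En.n l2869 (nat_lit 2517) (nat_lit 2) (nat_lit 8))
    (@En.n l117 (nat_lit 5903) (nat_lit 3) (nat_lit 3))
    (@En.i (nat_lit 6024) (nat_lit 4) (nat_lit 10))
    (@En.n l3 (nat_lit 5975) (nat_lit 5) (nat_lit 2))
    (@En.i (nat_lit 5903) (nat_lit 7) (nat_lit 13))
    (@En.i (nat_lit 5977) (nat_lit 8) (nat_lit 14))
    (@En.n l5331 (nat_lit 6047) (nat_lit 12) (nat_lit 4))
    (@En.n l18 (nat_lit 6069) (nat_lit 9) (nat_lit 4))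
    (@En.n l2869 (nat_lit 13274) (nat_lit 10) (nat_lit 8))
    (@En.n l947 (nat_lit 5630) (nat_lit 5) (nat_lit 5))
    (@En.n l61 (nat_lit 5896) (nat_lit 13) (nat_lit 12))
    (@En.n l1353 (nat_lit 2661) (nat_lit 8) (nat_lit 12))
    (@En.i (nat_lit 9230) (nat_lit 8) (nat_lit 6))
    (@En.n l7 (nat_lit 5975) (nat_lit 15) (nat_lit 2))))
  (@Cl.mk (nat_lit 0x20008000b00040008000b000b0005000b00080005000500080005000e000c) (nat_lit 0x380306012000068) (nat_lit 16) Lb.e (@T16.mk En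
    (@En.n l15053 (nat_lit 5986) (nat_lit 3) (nat_lit 12))
    (@En.i (nat_lit 5769) (nat_lit 1) (nat_lit 14))
    (@En.n l31039 (nat_lit 11200) (nat_lit 2) (nat_lit 5))
    (@En.n l25825 (nat_lit 5977) (nat_lit 10) (nat_lit 8))
    (@En.n l14711 (nat_lit 5977) (nat_lit 11) (nat_lit 5))
    (@En.i (nat_lit 10333) (nat_lit 5) (nat_lit 5))
    (@En.n l31040 (nat_lit 5979) (nat_lit 6) (nat_lit 8))
    (@En.n l13633 (nat_lit 888) (nat_lit 8) (nat_lit 11))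
    (@En.n l15053 (nat_lit 12230) (nat_lit 8) (nat_lit 5))
    (@En.n l25826 (nat_lit 5978) (nat_lit 5) (nat_lit 11))
    (@En.n l7564 (nat_lit 7472) (nat_lit 7) (nat_lit 11))
    (@En.i (nat_lit 1850) (nat_lit 12) (nat_lit 8))
    (@En.n l31041 (nat_lit 7809) (nat_lit 13) (nat_lit 4))
    (@En.n l217 (nat_lit 5846) (nat_lit 7) (nat_lit 11))
    (@En.n l15053 (nat_lit 2095) (nat_lit 1) (nat_lit 8))
    (@En.n l28 (nat_lit 5976) (nat_lit 15) (nat_lit 2))))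
  (@Cl.mk (nat_lit 0x20006000c0009000500080004000e000c00020007000a00040008000e000b) (nat_lit 0x12060570070381) (nat_lit 16) Lb.e (@T16.mk En
    (@En.n l18714 (nat_lit 5976) (nat_lit 10) (nat_lit 11))
    (@En.n l134 (nat_lit 7480) (nat_lit 11) (nat_lit 14))
    (@En.n l2199 (nat_lit 2138) (nat_lit 2) (nat_lit 8))
    (@En.n l117 (nat_lit 7811) (nat_lit 3) (nat_lit 4))
    (@En.n l2199 (nat_lit 6047) (nat_lit 8) (nat_lit 10))
    (@En.i (nat_lit 6554) (nat_lit 5) (nat_lit 7))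
    (@En.n l3 (nat_lit 5977) (nat_lit 6) (nat_lit 2))
    (@En.i (nat_lit 7877) (nat_lit 8) (nat_lit 12))
    (@En.i (nat_lit 5385) (nat_lit 9) (nat_lit 14))
    (@En.n l18 (nat_lit 11199) (nat_lit 2) (nat_lit 4))
    (@En.n l2199 (nat_lit 13800) (nat_lit 10) (nat_lit 8))
    (@En.n l3348 (nat_lit 10331) (nat_lit 4) (nat_lit 5))
    (@En.n l61 (nat_lit 5981) (nat_lit 13) (nat_lit 9))
    (@En.n l1353 (nat_lit 889) (nat_lit 7) (nat_lit 12))
    (@En.i (nat_lit 12229) (nat_lit 7) (nat_lit 6))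
    (@En.n l7 (nat_lit 5977) (nat_lit 15) (nat_lit 2))))
  (@Cl.mk (nat_lit 0x200080006000e000c00020009000c00040008000b0004000a0007000e0005) (nat_lit 0x107903903505000) (nat_lit 16) Lb.e (@T16.mk En
    (@En.n l7248 (nat_lit 5976) (nat_lit 5) (nat_lit 5))
    (@En.n l2869 (nat_lit 8004) (nat_lit 7) (nat_lit 14))
    (@En.n l61 (nat_lit 5982) (nat_lit 2) (nat_lit 7))
    (@En.n l1353 (nat_lit 2657) (nat_lit 3) (nat_lit 10))
    (@En.i (nat_lit 12843) (nat_lit 4) (nat_lit 4))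
    (@En.i (nat_lit 4858) (nat_lit 7) (nat_lit 11))
    (@En.n l7882 (nat_lit 1849) (nat_lit 6) (nat_lit 8))
    (@En.n l26973 (nat_lit 7810) (nat_lit 7) (nat_lit 4))
    (@En.n l12149 (nat_lit 5845) (nat_lit 9) (nat_lit 12))
    (@En.i (nat_lit 6552) (nat_lit 10) (nat_lit 9))
    (@En.n l3 (nat_lit 5978) (nat_lit 10) (nat_lit 2))
    (@En.i (nat_lit 5987) (nat_lit 12) (nat_lit 12))
    (@En.i (nat_lit 5777) (nat_lit 13) (nat_lit 14))
    (@En.n l1723 (nat_lit 11266) (nat_lit 14) (nat_lit 6))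
    (@En.n l12151 (nat_lit 5976) (nat_lit 3) (nat_lit 8))
    (@En.n l7 (nat_lit 5978) (nat_lit 15) (nat_lit 2))))
  (@Cl.mk (nat_lit 0x200080005000b00050009000c000c00050008000400040007000b000e000b) (nat_lit 0x309040701000947) (nat_lit 16) Lb.e (@T16.mk En
    (@En.n l16127 (nat_lit 5985) (nat_lit 11) (nat_lit 11))
    (@En.n l10234 (nat_lit 5772) (nat_lit 4) (nat_lit 14))
    (@En.n l5797 (nat_lit 12648) (nat_lit 2) (nat_lit 11))
    (@En.n l28 (nat_lit 5981) (nat_lit 11) (nat_lit 7))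
    (@En.n l77 (nat_lit 5981) (nat_lit 12) (nat_lit 4))
    (@En.n l16128 (nat_lit 12468) (nat_lit 5) (nat_lit 4))
    (@En.n l16129 (nat_lit 628) (nat_lit 10) (nat_lit 8))
    (@En.i (nat_lit 11676) (nat_lit 7) (nat_lit 5))
    (@En.n l14612 (nat_lit 5982) (nat_lit 4) (nat_lit 12))
    (@En.n l3039 (nat_lit 7473) (nat_lit 10) (nat_lit 12))
    (@En.n l9499 (nat_lit 1856) (nat_lit 11) (nat_lit 9))
    (@En.n l16129 (nat_lit 7851) (nat_lit 12) (nat_lit 5))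
    (@En.n l16130 (nat_lit 5976) (nat_lit 13) (nat_lit 11))
    (@En.n l17 (nat_lit 5980) (nat_lit 14) (nat_lit 5))
    (@En.i (nat_lit 6556) (nat_lit 2) (nat_lit 8))
    (@En.n l3 (nat_lit 5979) (nat_lit 15) (nat_lit 2))))
  (@Cl.mk (nat_lit 0x20005000b00040009000c000c0005000b000400040007000b0005000e000c) (nat_lit 0x90706010008058) (nat_lit 16) Lb.e (@T16.mk En
    (@En.i (nat_lit 7875) (nat_lit 10) (nat_lit 12))
    (@En.i (nat_lit 5979) (nat_lit 1) (nat_lit 14))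
    (@En.n l18714 (nat_lit 5976) (nat_lit 2) (nat_lit 5))
    (@En.n l248 (nat_lit 12645) (nat_lit 3) (nat_lit 11))
    (@En.n l28 (nat_lit 5983) (nat_lit 4) (nat_lit 7))
    (@En.n l77 (nat_lit 5983) (nat_lit 5) (nat_lit 4))
    (@En.n l3039 (nat_lit 12465) (nat_lit 6) (nat_lit 4))
    (@En.n l2031 (nat_lit 878) (nat_lit 8) (nat_lit 11))
    (@En.i (nat_lit 11681) (nat_lit 8) (nat_lit 5))
    (@En.n l14612 (nat_lit 5984) (nat_lit 10) (nat_lit 12))
    (@En.n l3039 (nat_lit 7474) (nat_lit 11) (nat_lit 12))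
    (@En.i (nat_lit 774) (nat_lit 12) (nat_lit 9))
    (@En.n l248 (nat_lit 7860) (nat_lit 13) (nat_lit 4))
    (@En.n l617 (nat_lit 5902) (nat_lit 14) (nat_lit 11))
    (@En.i (nat_lit 7261) (nat_lit 13) (nat_lit 5))
    (@En.n l3 (nat_lit 5980) (nat_lit 15) (nat_lit 2))))
  (@Cl.mk (nat_lit 0x20006000900040007000b000e000b000200070005000a00050009000e000c) (nat_lit 0x10093600080491) (nat_lit 16) Lb.e (@T16.mk En
    (@En.i (nat_lit 5979) (nat_lit 9) (nat_lit 12))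
    (@En.n l134 (nat_lit 7479) (nat_lit 10) (nat_lit 14))
    (@En.i (nat_lit 2180) (nat_lit 2) (nat_lit 9))
    (@En.n l117 (nat_lit 7862) (nat_lit 3) (nat_lit 5))
    (@En.n l617 (nat_lit 5977) (nat_lit 4) (nat_lit 10))
    (@En.n l17 (nat_lit 5983) (nat_lit 14) (nat_lit 5))
    (@En.i (nat_lit 7557) (nat_lit 6) (nat_lit 7))
    (@En.n l3 (nat_lit 5981) (nat_lit 7) (nat_lit 2))
    (@En.n l5646 (nat_lit 7874) (nat_lit 9) (nat_lit 11))
    (@En.i (nat_lit 5767) (nat_lit 10) (nat_lit 14))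
    (@En.i (nat_lit 12565) (nat_lit 2) (nat_lit 11))
    (@En.i (nat_lit 13596) (nat_lit 11) (nat_lit 7))
    (@En.n l3327 (nat_lit 12467) (nat_lit 4) (nat_lit 4))
    (@En.n l7058 (nat_lit 696) (nat_lit 9) (nat_lit 9))
    (@En.i (nat_lit 11679) (nat_lit 6) (nat_lit 6))
    (@En.n l7 (nat_lit 5981) (nat_lit 15) (nat_lit 2))))
  (@Cl.mk (nat_lit 0x20007000b000e000b000200090005000c00050009000c00040007000e0004) (nat_lit 0x458040a0460000) (nat_lit 16) Lb.e (@T16.mk En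
    (@En.n l8898 (nat_lit 5979) (nat_lit 5) (nat_lit 4))
    (@En.i (nat_lit 7057) (nat_lit 7) (nat_lit 14))
    (@En.n l7597 (nat_lit 697) (nat_lit 11) (nat_lit 7))
    (@En.i (nat_lit 12841) (nat_lit 3) (nat_lit 4))
    (@En.i (nat_lit 4857) (nat_lit 10) (nat_lit 12))
    (@En.n l7611 (nat_lit 1857) (nat_lit 5) (nat_lit 9))
    (@En.n l12681 (nat_lit 7852) (nat_lit 6) (nat_lit 5))
    (@En.n l617 (nat_lit 5978) (nat_lit 8) (nat_lit 12))
    (@En.n l17 (nat_lit 5984) (nat_lit 14) (nat_lit 5))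
    (@En.i (nat_lit 7556) (nat_lit 10) (nat_lit 9))
    (@En.n l3 (nat_lit 5982) (nat_lit 10) (nat_lit 2))
    (@En.n l4817 (nat_lit 7887) (nat_lit 12) (nat_lit 11))
    (@En.i (nat_lit 5774) (nat_lit 13) (nat_lit 14))
    (@En.n l14669 (nat_lit 12619) (nat_lit 2) (nat_lit 11))
    (@En.n l5934 (nat_lit 5979) (nat_lit 3) (nat_lit 7))
    (@En.n l7 (nat_lit 5982) (nat_lit 15) (nat_lit 2))))
  (@Cl.mk (nat_lit 0x20005000a00040009000e000c00020006000c00040007000b0004000e000c) (nat_lit 0x807c1001008047) (nat_lit 16) Lb.e (@T16.mk En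
    (@En.i (nat_lit 7873) (nat_lit 8) (nat_lit 12))
    (@En.i (nat_lit 5981) (nat_lit 9) (nat_lit 14))
    (@En.i (nat_lit 5977) (nat_lit 9) (nat_lit 4))
    (@En.i (nat_lit 12646) (nat_lit 3) (nat_lit 11))
    (@En.i (nat_lit 13801) (nat_lit 11) (nat_lit 7))
    (@En.i (nat_lit 12464) (nat_lit 5) (nat_lit 4))
    (@En.i (nat_lit 880) (nat_lit 7) (nat_lit 12))
    (@En.i (nat_lit 11682) (nat_lit 7) (nat_lit 6))
    (@En.n l7 (nat_lit 5983) (nat_lit 8) (nat_lit 2))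
    (@En.i (nat_lit 5980) (nat_lit 10) (nat_lit 12))
    (@En.n l134 (nat_lit 7478) (nat_lit 11) (nat_lit 14))
    (@En.i (nat_lit 771) (nat_lit 2) (nat_lit 9))
    (@En.n l117 (nat_lit 7863) (nat_lit 3) (nat_lit 4))
    (@En.n l617 (nat_lit 5975) (nat_lit 4) (nat_lit 10))
    (@En.i (nat_lit 7258) (nat_lit 5) (nat_lit 5))
    (@En.n l3 (nat_lit 5983) (nat_lit 15) (nat_lit 2))))
noncomputable def a374 : T16 Cl := @T16.mk Cl
  (@Cl.mk (nat_lit 0x20005000c00040009000c0004000a000e000400020007000b0006000e000c) (nat_lit 0xa0750100005069) (nat_lit 16) Lb.e (@T16.mk En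
    (@En.i (nat_lit 7878) (nat_lit 11) (nat_lit 12))
    (@En.i (nat_lit 5982) (nat_lit 12) (nat_lit 14))
    (@En.i (nat_lit 5978) (nat_lit 13) (nat_lit 6))
    (@En.i (nat_lit 4036) (nat_lit 3) (nat_lit 11))
    (@En.n l5934 (nat_lit 5980) (nat_lit 4) (nat_lit 7))
    (@En.n l7 (nat_lit 5984) (nat_lit 5) (nat_lit 2))
    (@En.n l8898 (nat_lit 5980) (nat_lit 6) (nat_lit 4))
    (@En.i (nat_lit 7064) (nat_lit 8) (nat_lit 14))
    (@En.i (nat_lit 879) (nat_lit 9) (nat_lit 10))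
    (@En.i (nat_lit 12842) (nat_lit 9) (nat_lit 4))
    (@En.i (nat_lit 4753) (nat_lit 11) (nat_lit 12))
    (@En.i (nat_lit 2278) (nat_lit 12) (nat_lit 9))
    (@En.n l117 (nat_lit 7853) (nat_lit 6) (nat_lit 4))
    (@En.n l617 (nat_lit 5974) (nat_lit 8) (nat_lit 12))
    (@En.i (nat_lit 7565) (nat_lit 8) (nat_lit 5))
    (@En.n l3 (nat_lit 5984) (nat_lit 15) (nat_lit 2))))
  (@Cl.mk (nat_lit 0x400040007000c000b000b00070004000a000500050009000c000c00060009) (nat_lit 0xa650080050001) (nat_lit 16) Lb.e (@T16.mk En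
    (@En.n l28032 (nat_lit 440) (nat_lit 9) (nat_lit 9))
    (@En.n l2019 (nat_lit 11800) (nat_lit 1) (nat_lit 6))
    (@En.n l2337 (nat_lit 7887) (nat_lit 4) (nat_lit 12))
    (@En.n l10132 (nat_lit 7477) (nat_lit 6) (nat_lit 12))
    (@En.n l2019 (nat_lit 5480) (nat_lit 10) (nat_lit 9))
    (@En.n l28033 (nat_lit 5979) (nat_lit 11) (nat_lit 5))
    (@En.n l28034 (nat_lit 7893) (nat_lit 6) (nat_lit 5))
    (@En.n l28035 (nat_lit 5986) (nat_lit 0) (nat_lit 10))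
    (@En.n l28036 (nat_lit 7875) (nat_lit 8) (nat_lit 4))
    (@En.n l77 (nat_lit 3124) (nat_lit 0) (nat_lit 7))
    (@En.n l14540 (nat_lit 7882) (nat_lit 5) (nat_lit 11))
    (@En.n l28032 (nat_lit 7848) (nat_lit 5) (nat_lit 11))
    (@En.n l28037 (nat_lit 12684) (nat_lit 13) (nat_lit 12))
    (@En.n l14909 (nat_lit 7874) (nat_lit 11) (nat_lit 7))
    (@En.n l24397 (nat_lit 7874) (nat_lit 12) (nat_lit 4))
    (@En.n l27959 (nat_lit 12470) (nat_lit 0) (nat_lit 4))))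
  (@Cl.mk (nat_lit 0x400040008000b000b0006000b00090005000500080005000c000c0007000a) (nat_lit 0x40001200007507) (nat_lit 16) Lb.e (@T16.mk En
    (@En.n l40936 (nat_lit 5842) (nat_lit 8) (nat_lit 10))
    (@En.n l36842 (nat_lit 3126) (nat_lit 1) (nat_lit 7))
    (@En.n l13561 (nat_lit 7884) (nat_lit 4) (nat_lit 12))
    (@En.n l40937 (nat_lit 7841) (nat_lit 3) (nat_lit 12))
    (@En.n l40938 (nat_lit 11198) (nat_lit 4) (nat_lit 5))
    (@En.n l28 (nat_lit 7877) (nat_lit 10) (nat_lit 8))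
    (@En.n l77 (nat_lit 7877) (nat_lit 11) (nat_lit 5))
    (@En.n l39974 (nat_lit 10269) (nat_lit 7) (nat_lit 5))
    (@En.n l40939 (nat_lit 5985) (nat_lit 0) (nat_lit 9))
    (@En.n l2213 (nat_lit 835) (nat_lit 9) (nat_lit 11))
    (@En.i (nat_lit 11803) (nat_lit 2) (nat_lit 6))
    (@En.n l14612 (nat_lit 5987) (nat_lit 5) (nat_lit 11))
    (@En.n l3039 (nat_lit 7246) (nat_lit 7) (nat_lit 11))
    (@En.n l17133 (nat_lit 5472) (nat_lit 11) (nat_lit 8))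
    (@En.n l40940 (nat_lit 5976) (nat_lit 12) (nat_lit 4))
    (@En.n l248 (nat_lit 4648) (nat_lit 0) (nat_lit 4))))
  (@Cl.mk (nat_lit 0x200080006000c000c0008000b000400040008000b0005000a0008000e0005) (nat_lit 0x108018004906270) (nat_lit 16) Lb.e (@T16.mk En
    (@En.n l8898 (nat_lit 5986) (nat_lit 7) (nat_lit 5))
    (@En.n l2869 (nat_lit 7800) (nat_lit 1) (nat_lit 14))
    (@En.n l4818 (nat_lit 7887) (nat_lit 2) (nat_lit 8))
    (@En.n l19951 (nat_lit 2221) (nat_lit 3) (nat_lit 10))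
    (@En.n l24508 (nat_lit 9891) (nat_lit 4) (nat_lit 5))
    (@En.i (nat_lit 7221) (nat_lit 7) (nat_lit 11))
    (@En.n l899 (nat_lit 5478) (nat_lit 6) (nat_lit 8))
    (@En.n l152 (nat_lit 5978) (nat_lit 7) (nat_lit 4))
    (@En.n l3851 (nat_lit 4647) (nat_lit 8) (nat_lit 4))
    (@En.n l7233 (nat_lit 5841) (nat_lit 10) (nat_lit 11))
    (@En.n l7231 (nat_lit 3130) (nat_lit 11) (nat_lit 8))
    (@En.n l3536 (nat_lit 7883) (nat_lit 12) (nat_lit 12))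
    (@En.n l3524 (nat_lit 7838) (nat_lit 13) (nat_lit 12))
    (@En.n l7233 (nat_lit 11267) (nat_lit 14) (nat_lit 6))
    (@En.n l5934 (nat_lit 5986) (nat_lit 5) (nat_lit 8))
    (@En.n l7 (nat_lit 5987) (nat_lit 15) (nat_lit 2))))
  (@Cl.mk (nat_lit 0x2000700030007000e000a0002000e000b00020009000600090005000e000d) (nat_lit 0x710810307011) (nat_lit 16) Lb.e (@T16.mk En
    (@En.n l13396 (nat_lit 1959) (nat_lit 10) (nat_lit 13))
    (@En.n l7882 (nat_lit 932) (nat_lit 1) (nat_lit 14))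
    (@En.n l117 (nat_lit 5945) (nat_lit 2) (nat_lit 5))
    (@En.n l7055 (nat_lit 12982) (nat_lit 9) (nat_lit 9))
    (@En.i (nat_lit 5989) (nat_lit 14) (nat_lit 6))
    (@En.n l14556 (nat_lit 5977) (nat_lit 12) (nat_lit 9))
    (@En.n l3 (nat_lit 5988) (nat_lit 6) (nat_lit 2))
    (@En.i (nat_lit 2358) (nat_lit 8) (nat_lit 11))
    (@En.n l7055 (nat_lit 6002) (nat_lit 1) (nat_lit 14))
    (@En.n l18 (nat_lit 5988) (nat_lit 9) (nat_lit 2))
    (@En.n l61 (nat_lit 1964) (nat_lit 11) (nat_lit 10))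
    (@En.n l4352 (nat_lit 4660) (nat_lit 12) (nat_lit 14))
    (@En.i (nat_lit 2011) (nat_lit 5) (nat_lit 7))
    (@En.n l5537 (nat_lit 1959) (nat_lit 6) (nat_lit 3))
    (@En.n l7882 (nat_lit 1983) (nat_lit 0) (nat_lit 7))
    (@En.n l28 (nat_lit 5988) (nat_lit 15) (nat_lit 2))))
  (@Cl.mk (nat_lit 0x2000600090004000e000d0002000b00030007000d000a00050003000e000c) (nat_lit 0x20890200480096) (nat_lit 16) Lb.e (@T16.mk En
    (@En.i (nat_lit 5999) (nat_lit 7) (nat_lit 12))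
    (@En.i (nat_lit 5846) (nat_lit 1) (nat_lit 14))
    (@En.n l18 (nat_lit 5992) (nat_lit 2) (nat_lit 3))
    (@En.i (nat_lit 8956) (nat_lit 3) (nat_lit 5))
    (@En.n l61 (nat_lit 5991) (nat_lit 4) (nat_lit 10))
    (@En.n l1353 (nat_lit 3886) (nat_lit 6) (nat_lit 13))
    (@En.i (nat_lit 3503) (nat_lit 6) (nat_lit 7))
    (@En.i (nat_lit 5990) (nat_lit 7) (nat_lit 3))
    (@En.i (nat_lit 5977) (nat_lit 0) (nat_lit 11))
    (@En.n l28 (nat_lit 5989) (nat_lit 9) (nat_lit 2))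
    (@En.n l134 (nat_lit 5990) (nat_lit 11) (nat_lit 13))
    (@En.i (nat_lit 7783) (nat_lit 12) (nat_lit 14))
    (@En.n l117 (nat_lit 5658) (nat_lit 2) (nat_lit 4))
    (@En.n l617 (nat_lit 5124) (nat_lit 9) (nat_lit 9))
    (@En.i (nat_lit 5560) (nat_lit 4) (nat_lit 6))
    (@En.n l3 (nat_lit 5989) (nat_lit 15) (nat_lit 2))))
  (@Cl.mk (nat_lit 0x2000600090004000d000d000a000300030007000d000a00060003000e000c) (nat_lit 0x30892000720071) (nat_lit 16) Lb.e (@T16.mk En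
    (@En.n l9448 (nat_lit 4068) (nat_lit 8) (nat_lit 12))
    (@En.i (nat_lit 5842) (nat_lit 1) (nat_lit 14))
    (@En.n l18 (nat_lit 5993) (nat_lit 2) (nat_lit 3))
    (@En.n l6479 (nat_lit 4625) (nat_lit 3) (nat_lit 6))
    (@En.n l61 (nat_lit 5994) (nat_lit 4) (nat_lit 10))
    (@En.n l2572 (nat_lit 3884) (nat_lit 6) (nat_lit 13))
    (@En.n l564 (nat_lit 8445) (nat_lit 6) (nat_lit 7))
    (@En.n l7 (nat_lit 5989) (nat_lit 7) (nat_lit 3))
    (@En.n l1547 (nat_lit 5997) (nat_lit 8) (nat_lit 3))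
    (@En.i (nat_lit 7480) (nat_lit 10) (nat_lit 10))
    (@En.n l5542 (nat_lit 5997) (nat_lit 11) (nat_lit 13))
    (@En.i (nat_lit 12233) (nat_lit 12) (nat_lit 13))
    (@En.n l117 (nat_lit 5659) (nat_lit 3) (nat_lit 4))
    (@En.n l617 (nat_lit 3574) (nat_lit 9) (nat_lit 9))
    (@En.i (nat_lit 5559) (nat_lit 5) (nat_lit 6))
    (@En.n l3 (nat_lit 5990) (nat_lit 15) (nat_lit 2))))
  (@Cl.mk (nat_lit 0x20006000500090005000e000d0002000c00030007000a0004000b000e000b) (nat_lit 0x3099020070285) (nat_lit 16) Lb.e (@T16.mk En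
    (@En.n l17 (nat_lit 6000) (nat_lit 8) (nat_lit 11))
    (@En.i (nat_lit 5845) (nat_lit 4) (nat_lit 14))
    (@En.i (nat_lit 2820) (nat_lit 2) (nat_lit 11))
    (@En.i (nat_lit 8552) (nat_lit 3) (nat_lit 4))
    (@En.i (nat_lit 4771) (nat_lit 4) (nat_lit 10))
    (@En.i (nat_lit 3501) (nat_lit 5) (nat_lit 7))
    (@En.i (nat_lit 5994) (nat_lit 6) (nat_lit 3))
    (@En.i (nat_lit 5981) (nat_lit 0) (nat_lit 12))
    (@En.n l28 (nat_lit 5991) (nat_lit 8) (nat_lit 2))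
    (@En.n l134 (nat_lit 5994) (nat_lit 10) (nat_lit 13))
    (@En.i (nat_lit 7784) (nat_lit 11) (nat_lit 14))
    (@En.n l117 (nat_lit 5657) (nat_lit 2) (nat_lit 5))
    (@En.n l617 (nat_lit 5989) (nat_lit 13) (nat_lit 9))
    (@En.n l17 (nat_lit 5992) (nat_lit 14) (nat_lit 5))
    (@En.i (nat_lit 5564) (nat_lit 5) (nat_lit 6))
    (@En.n l3 (nat_lit 5991) (nat_lit 15) (nat_lit 2))))
  (@Cl.mk (nat_lit 0x2000500090004000e000d0002000c00030007000d0004000b0003000e000c) (nat_lit 0x30980200402091) (nat_lit 16) Lb.e (@T16.mk En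
    (@En.i (nat_lit 4069) (nat_lit 7) (nat_lit 12))
    (@En.i (nat_lit 5991) (nat_lit 1) (nat_lit 14))
    (@En.i (nat_lit 5989) (nat_lit 2) (nat_lit 3))
    (@En.i (nat_lit 2822) (nat_lit 3) (nat_lit 11))
    (@En.i (nat_lit 8551) (nat_lit 4) (nat_lit 4))
    (@En.i (nat_lit 4016) (nat_lit 6) (nat_lit 13))
    (@En.i (nat_lit 3502) (nat_lit 6) (nat_lit 7))
    (@En.i (nat_lit 5993) (nat_lit 7) (nat_lit 3))
    (@En.i (nat_lit 5983) (nat_lit 9) (nat_lit 12))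
    (@En.n l28 (nat_lit 5992) (nat_lit 9) (nat_lit 2))
    (@En.n l134 (nat_lit 5993) (nat_lit 11) (nat_lit 13))
    (@En.i (nat_lit 7782) (nat_lit 12) (nat_lit 14))
    (@En.n l117 (nat_lit 5656) (nat_lit 2) (nat_lit 4))
    (@En.n l617 (nat_lit 3569) (nat_lit 14) (nat_lit 9))
    (@En.i (nat_lit 6966) (nat_lit 4) (nat_lit 5))
    (@En.n l3 (nat_lit 5992) (nat_lit 15) (nat_lit 2))))
  (@Cl.mk (nat_lit 0x2000500090004000d000d000b000300030007000d0005000b0003000e000c) (nat_lit 0x30780000102061) (nat_lit 16) Lb.e (@T16.mk En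
    (@En.n l9448 (nat_lit 4067) (nat_lit 8) (nat_lit 12))
    (@En.i (nat_lit 5994) (nat_lit 1) (nat_lit 14))
    (@En.i (nat_lit 5990) (nat_lit 2) (nat_lit 3))
    (@En.i (nat_lit 2821) (nat_lit 3) (nat_lit 11))
    (@En.n l3506 (nat_lit 8550) (nat_lit 4) (nat_lit 5))
    (@En.n l2572 (nat_lit 3588) (nat_lit 6) (nat_lit 13))
    (@En.n l564 (nat_lit 8446) (nat_lit 6) (nat_lit 7))
    (@En.n l7 (nat_lit 5992) (nat_lit 7) (nat_lit 3))
    (@En.i (nat_lit 5996) (nat_lit 8) (nat_lit 3))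
    (@En.i (nat_lit 7478) (nat_lit 10) (nat_lit 11))
    (@En.n l134 (nat_lit 5996) (nat_lit 11) (nat_lit 13))
    (@En.i (nat_lit 12232) (nat_lit 12) (nat_lit 13))
    (@En.n l4018 (nat_lit 5655) (nat_lit 3) (nat_lit 4))
    (@En.n l617 (nat_lit 3577) (nat_lit 14) (nat_lit 9))
    (@En.i (nat_lit 6961) (nat_lit 13) (nat_lit 5))
    (@En.n l3 (nat_lit 5993) (nat_lit 15) (nat_lit 2))))
  (@Cl.mk (nat_lit 0x20006000500090005000d000d000b000300030007000a0005000b000e000b) (nat_lit 0x408a000010255) (nat_lit 16) Lb.e (@T16.mk En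
    (@En.n l16087 (nat_lit 5998) (nat_lit 9) (nat_lit 11))
    (@En.n l10309 (nat_lit 5841) (nat_lit 4) (nat_lit 14))
    (@En.i (nat_lit 2816) (nat_lit 2) (nat_lit 11))
    (@En.n l16088 (nat_lit 8197) (nat_lit 3) (nat_lit 5))
    (@En.n l7057 (nat_lit 2647) (nat_lit 8) (nat_lit 10))
    (@En.n l1363 (nat_lit 8444) (nat_lit 5) (nat_lit 7))
    (@En.n l7 (nat_lit 5991) (nat_lit 6) (nat_lit 3))
    (@En.i (nat_lit 5995) (nat_lit 7) (nat_lit 3))
    (@En.i (nat_lit 7479) (nat_lit 9) (nat_lit 11))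
    (@En.n l134 (nat_lit 5995) (nat_lit 10) (nat_lit 13))
    (@En.i (nat_lit 12147) (nat_lit 11) (nat_lit 13))
    (@En.n l4018 (nat_lit 5654) (nat_lit 3) (nat_lit 5))
    (@En.n l617 (nat_lit 5990) (nat_lit 13) (nat_lit 9))
    (@En.n l17 (nat_lit 5993) (nat_lit 14) (nat_lit 5))
    (@En.i (nat_lit 5562) (nat_lit 6) (nat_lit 6))
    (@En.n l3 (nat_lit 5994) (nat_lit 15) (nat_lit 2))))
  (@Cl.mk (nat_lit 0x20006000500090005000d000a000e000300020007000a0006000b000e000b) (nat_lit 0x4090600040255) (nat_lit 16) Lb.e (@T16.mk En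
    (@En.n l22238 (nat_lit 6101) (nat_lit 10) (nat_lit 11))
    (@En.n l22239 (nat_lit 5843) (nat_lit 11) (nat_lit 14))
    (@En.n l3141 (nat_lit 2818) (nat_lit 2) (nat_lit 11))
    (@En.n l16088 (nat_lit 8191) (nat_lit 13) (nat_lit 6))
    (@En.n l3141 (nat_lit 3029) (nat_lit 8) (nat_lit 10))
    (@En.n l1363 (nat_lit 8450) (nat_lit 5) (nat_lit 7))
    (@En.n l7 (nat_lit 5995) (nat_lit 6) (nat_lit 2))
    (@En.n l28 (nat_lit 5994) (nat_lit 7) (nat_lit 3))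
    (@En.n l22240 (nat_lit 14009) (nat_lit 0) (nat_lit 14))
    (@En.i (nat_lit 7669) (nat_lit 2) (nat_lit 10))
    (@En.n l3141 (nat_lit 12141) (nat_lit 11) (nat_lit 13))
    (@En.n l3143 (nat_lit 5661) (nat_lit 4) (nat_lit 5))
    (@En.n l22241 (nat_lit 5997) (nat_lit 13) (nat_lit 9))
    (@En.n l17 (nat_lit 5996) (nat_lit 14) (nat_lit 5))
    (@En.n l11219 (nat_lit 5563) (nat_lit 7) (nat_lit 6))
    (@En.n l3 (nat_lit 5995) (nat_lit 15) (nat_lit 2))))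
  (@Cl.mk (nat_lit 0x2000500090004000d000a000e000300020007000d0006000b0003000e000c) (nat_lit 0x20706000102066) (nat_lit 16) Lb.e (@T16.mk En
    (@En.n l11218 (nat_lit 6100) (nat_lit 9) (nat_lit 12))
    (@En.i (nat_lit 5995) (nat_lit 1) (nat_lit 14))
    (@En.n l1547 (nat_lit 5997) (nat_lit 2) (nat_lit 3))
    (@En.n l427 (nat_lit 2823) (nat_lit 3) (nat_lit 11))
    (@En.n l4414 (nat_lit 8193) (nat_lit 4) (nat_lit 6))
    (@En.n l566 (nat_lit 3589) (nat_lit 6) (nat_lit 13))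
    (@En.n l564 (nat_lit 8452) (nat_lit 6) (nat_lit 7))
    (@En.n l7 (nat_lit 5996) (nat_lit 7) (nat_lit 2))
    (@En.n l28 (nat_lit 5993) (nat_lit 8) (nat_lit 3))
    (@En.n l1820 (nat_lit 14026) (nat_lit 0) (nat_lit 14))
    (@En.i (nat_lit 7670) (nat_lit 11) (nat_lit 10))
    (@En.n l11219 (nat_lit 12145) (nat_lit 12) (nat_lit 13))
    (@En.n l427 (nat_lit 5660) (nat_lit 4) (nat_lit 4))
    (@En.n l617 (nat_lit 4111) (nat_lit 5) (nat_lit 9))
    (@En.i (nat_lit 6960) (nat_lit 6) (nat_lit 5))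
    (@En.n l3 (nat_lit 5996) (nat_lit 15) (nat_lit 2))))
  (@Cl.mk (nat_lit 0x2000600090004000d0009000e000300020007000d000a00070003000e000c) (nat_lit 0x30806000350076) (nat_lit 16) Lb.e (@T16.mk En
    (@En.n l77 (nat_lit 6001) (nat_lit 9) (nat_lit 12))
    (@En.i (nat_lit 5844) (nat_lit 1) (nat_lit 14))
    (@En.n l4083 (nat_lit 5996) (nat_lit 2) (nat_lit 3))
    (@En.i (nat_lit 4627) (nat_lit 12) (nat_lit 7))
    (@En.n l10300 (nat_lit 5995) (nat_lit 4) (nat_lit 10))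
    (@En.n l97 (nat_lit 3885) (nat_lit 6) (nat_lit 13))
    (@En.n l10301 (nat_lit 8451) (nat_lit 6) (nat_lit 7))
    (@En.n l17 (nat_lit 5997) (nat_lit 7) (nat_lit 2))
    (@En.n l1878 (nat_lit 5990) (nat_lit 8) (nat_lit 3))
    (@En.n l13 (nat_lit 14025) (nat_lit 0) (nat_lit 14))
    (@En.n l448 (nat_lit 7668) (nat_lit 2) (nat_lit 9))
    (@En.i (nat_lit 12146) (nat_lit 12) (nat_lit 13))
    (@En.i (nat_lit 5662) (nat_lit 4) (nat_lit 4))
    (@En.i (nat_lit 4124) (nat_lit 5) (nat_lit 9))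
    (@En.n l448 (nat_lit 5561) (nat_lit 6) (nat_lit 6))
    (@En.n l28 (nat_lit 5997) (nat_lit 15) (nat_lit 2))))
  (@Cl.mk (nat_lit 0x300030008000b0005000c000b000b00050004000800050005000d000d000b) (nat_lit 0x210141005008a0) (nat_lit 16) Lb.e (@T16.mk En
    (@En.n l8047 (nat_lit 7481) (nat_lit 0) (nat_lit 11))
    (@En.n l32940 (nat_lit 6101) (nat_lit 3) (nat_lit 13))
    (@En.n l22963 (nat_lit 10074) (nat_lit 2) (nat_lit 13))
    (@En.n l22390 (nat_lit 5994) (nat_lit 11) (nat_lit 5))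
    (@En.n l22391 (nat_lit 6159) (nat_lit 4) (nat_lit 5))
    (@En.n l7 (nat_lit 4068) (nat_lit 5) (nat_lit 8))
    (@En.i (nat_lit 4067) (nat_lit 6) (nat_lit 4))
    (@En.n l32941 (nat_lit 3968) (nat_lit 7) (nat_lit 5))
    (@En.n l22393 (nat_lit 4063) (nat_lit 5) (nat_lit 11))
    (@En.n l22394 (nat_lit 6178) (nat_lit 10) (nat_lit 11))
    (@En.n l4110 (nat_lit 1211) (nat_lit 11) (nat_lit 12))
    (@En.n l15691 (nat_lit 8506) (nat_lit 12) (nat_lit 5))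
    (@En.n l6367 (nat_lit 1171) (nat_lit 7) (nat_lit 11))
    (@En.n l8047 (nat_lit 8367) (nat_lit 14) (nat_lit 8))
    (@En.n l27873 (nat_lit 6000) (nat_lit 13) (nat_lit 3))
    (@En.n l32942 (nat_lit 6101) (nat_lit 0) (nat_lit 3))))
  (@Cl.mk (nat_lit 0x2000b00030008000d000b00050003000c000c0005000800040004000e000d) (nat_lit 0x204980051030023) (nat_lit 16) Lb.e (@T16.mk En
    (@En.n l6108 (nat_lit 4068) (nat_lit 2) (nat_lit 13))
    (@En.n l17133 (nat_lit 9572) (nat_lit 1) (nat_lit 14))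
    (@En.n l152 (nat_lit 5989) (nat_lit 12) (nat_lit 4))
    (@En.n l3851 (nat_lit 6156) (nat_lit 3) (nat_lit 4))
    (@En.n l617 (nat_lit 3573) (nat_lit 10) (nat_lit 8))
    (@En.i (nat_lit 4185) (nat_lit 5) (nat_lit 5))
    (@En.n l13561 (nat_lit 4060) (nat_lit 7) (nat_lit 12))
    (@En.n l25823 (nat_lit 6175) (nat_lit 8) (nat_lit 12))
    (@En.n l18 (nat_lit 4069) (nat_lit 8) (nat_lit 3))
    (@En.n l11706 (nat_lit 7694) (nat_lit 9) (nat_lit 5))
    (@En.i (nat_lit 6000) (nat_lit 11) (nat_lit 11))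
    (@En.n l2213 (nat_lit 3887) (nat_lit 12) (nat_lit 13))
    (@En.i (nat_lit 3474) (nat_lit 13) (nat_lit 8))
    (@En.n l9448 (nat_lit 4068) (nat_lit 14) (nat_lit 3))
    (@En.i (nat_lit 7877) (nat_lit 0) (nat_lit 11))
    (@En.n l28 (nat_lit 5999) (nat_lit 15) (nat_lit 2))))
noncomputable def a375 : T16 Cl := @T16.mk Cl
  (@Cl.mk (nat_lit 0x2000c00030008000b0004000c000b000b00050004000800050005000e000d) (nat_lit 0x203702410040049) (nat_lit 16) Lb.e (@T16.mk En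
    (@En.n l6108 (nat_lit 5998) (nat_lit 2) (nat_lit 13))
    (@En.n l899 (nat_lit 9574) (nat_lit 1) (nat_lit 14))
    (@En.n l9272 (nat_lit 5991) (nat_lit 11) (nat_lit 5))
    (@En.n l3851 (nat_lit 6158) (nat_lit 3) (nat_lit 5))
    (@En.n l2196 (nat_lit 5999) (nat_lit 4) (nat_lit 8))
    (@En.i (nat_lit 4069) (nat_lit 5) (nat_lit 4))
    (@En.n l61 (nat_lit 3969) (nat_lit 6) (nat_lit 5))
    (@En.n l12806 (nat_lit 4059) (nat_lit 8) (nat_lit 11))
    (@En.n l26391 (nat_lit 6176) (nat_lit 9) (nat_lit 11))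
    (@En.n l26392 (nat_lit 3006) (nat_lit 10) (nat_lit 12))
    (@En.n l9274 (nat_lit 8294) (nat_lit 10) (nat_lit 4))
    (@En.n l12809 (nat_lit 2643) (nat_lit 7) (nat_lit 11))
    (@En.i (nat_lit 3475) (nat_lit 13) (nat_lit 8))
    (@En.n l9448 (nat_lit 5998) (nat_lit 14) (nat_lit 3))
    (@En.n l899 (nat_lit 7874) (nat_lit 0) (nat_lit 12))
    (@En.n l28 (nat_lit 6000) (nat_lit 15) (nat_lit 2))))
  (@Cl.mk (nat_lit 0x20008000d000b00070003000c000c0005000800040004000d0009000e0003) (nat_lit 0x388005105008040) (nat_lit 16) Lb.e (@T16.mk En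
    (@En.n l23643 (nat_lit 4068) (nat_lit 15) (nat_lit 3))
    (@En.n l1442 (nat_lit 13406) (nat_lit 0) (nat_lit 14))
    (@En.i (nat_lit 7006) (nat_lit 2) (nat_lit 9))
    (@En.n l1442 (nat_lit 10432) (nat_lit 2) (nat_lit 13))
    (@En.n l237 (nat_lit 5997) (nat_lit 12) (nat_lit 4))
    (@En.i (nat_lit 6106) (nat_lit 5) (nat_lit 4))
    (@En.i (nat_lit 4110) (nat_lit 10) (nat_lit 8))
    (@En.n l55 (nat_lit 4186) (nat_lit 7) (nat_lit 5))
    (@En.n l134 (nat_lit 4064) (nat_lit 9) (nat_lit 12))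
    (@En.n l159 (nat_lit 6195) (nat_lit 10) (nat_lit 12))
    (@En.n l410 (nat_lit 6100) (nat_lit 10) (nat_lit 3))
    (@En.i (nat_lit 4628) (nat_lit 12) (nat_lit 7))
    (@En.n l12174 (nat_lit 6101) (nat_lit 13) (nat_lit 11))
    (@En.n l97 (nat_lit 3759) (nat_lit 14) (nat_lit 13))
    (@En.i (nat_lit 8361) (nat_lit 14) (nat_lit 8))
    (@En.n l17 (nat_lit 6001) (nat_lit 15) (nat_lit 2))))
  (@Cl.mk (nat_lit 0x200050009000600090006000e000d0002000700030007000b000a000e000a) (nat_lit 0x70401b00008473) (nat_lit 16) Lb.e (@T16.mk En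
    (@En.n l6108 (nat_lit 5636) (nat_lit 9) (nat_lit 10))
    (@En.i (nat_lit 5455) (nat_lit 10) (nat_lit 14))
    (@En.n l6282 (nat_lit 5454) (nat_lit 11) (nat_lit 10))
    (@En.i (nat_lit 5578) (nat_lit 3) (nat_lit 11))
    (@En.i (nat_lit 1821) (nat_lit 4) (nat_lit 7))
    (@En.n l564 (nat_lit 6003) (nat_lit 5) (nat_lit 3))
    (@En.i (nat_lit 6942) (nat_lit 6) (nat_lit 7))
    (@En.n l28 (nat_lit 6002) (nat_lit 7) (nat_lit 2))
    (@En.n l287 (nat_lit 6003) (nat_lit 9) (nat_lit 13))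
    (@En.i (nat_lit 5457) (nat_lit 10) (nat_lit 14))
    (@En.i (nat_lit 6240) (nat_lit 2) (nat_lit 6))
    (@En.i (nat_lit 2822) (nat_lit 12) (nat_lit 9))
    (@En.n l3178 (nat_lit 5846) (nat_lit 13) (nat_lit 6))
    (@En.i (nat_lit 9231) (nat_lit 5) (nat_lit 9))
    (@En.n l3340 (nat_lit 7169) (nat_lit 6) (nat_lit 5))
    (@En.n l3 (nat_lit 6002) (nat_lit 15) (nat_lit 2))))
  (@Cl.mk (nat_lit 0x20005000a000600090006000d000d0006000300030007000b000a000e000a) (nat_lit 0x7050a500009443) (nat_lit 16) Lb.e (@T16.mk En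
    (@En.n l11553 (nat_lit 5635) (nat_lit 10) (nat_lit 10))
    (@En.n l25256 (nat_lit 5453) (nat_lit 1) (nat_lit 14))
    (@En.n l25256 (nat_lit 5452) (nat_lit 2) (nat_lit 10))
    (@En.n l19297 (nat_lit 5576) (nat_lit 3) (nat_lit 11))
    (@En.i (nat_lit 12482) (nat_lit 4) (nat_lit 7))
    (@En.n l1722 (nat_lit 6002) (nat_lit 5) (nat_lit 3))
    (@En.n l1386 (nat_lit 6004) (nat_lit 6) (nat_lit 3))
    (@En.n l387 (nat_lit 5748) (nat_lit 7) (nat_lit 6))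
    (@En.n l1320 (nat_lit 6004) (nat_lit 9) (nat_lit 13))
    (@En.n l19296 (nat_lit 8356) (nat_lit 10) (nat_lit 13))
    (@En.n l25257 (nat_lit 6233) (nat_lit 3) (nat_lit 6))
    (@En.n l387 (nat_lit 2821) (nat_lit 12) (nat_lit 9))
    (@En.n l2369 (nat_lit 5842) (nat_lit 13) (nat_lit 6))
    (@En.i (nat_lit 9235) (nat_lit 14) (nat_lit 10))
    (@En.n l1329 (nat_lit 7165) (nat_lit 13) (nat_lit 5))
    (@En.n l3 (nat_lit 6003) (nat_lit 15) (nat_lit 2))))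
  (@Cl.mk (nat_lit 0x20005000b000600090006000d0005000e000300020007000b000a000e000a) (nat_lit 0x80504080009443) (nat_lit 16) Lb.e (@T16.mk En
    (@En.n l11 (nat_lit 5637) (nat_lit 11) (nat_lit 10))
    (@En.n l13287 (nat_lit 6006) (nat_lit 12) (nat_lit 14))
    (@En.n l13287 (nat_lit 6005) (nat_lit 13) (nat_lit 10))
    (@En.n l11120 (nat_lit 5577) (nat_lit 3) (nat_lit 11))
    (@En.n l1544 (nat_lit 12077) (nat_lit 4) (nat_lit 7))
    (@En.n l17 (nat_lit 6004) (nat_lit 5) (nat_lit 2))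
    (@En.n l1543 (nat_lit 6003) (nat_lit 6) (nat_lit 3))
    (@En.n l175 (nat_lit 13219) (nat_lit 0) (nat_lit 14))
    (@En.i (nat_lit 6007) (nat_lit 8) (nat_lit 5))
    (@En.n l8108 (nat_lit 8359) (nat_lit 10) (nat_lit 13))
    (@En.n l10491 (nat_lit 6231) (nat_lit 4) (nat_lit 6))
    (@En.i (nat_lit 2823) (nat_lit 12) (nat_lit 9))
    (@En.i (nat_lit 5844) (nat_lit 13) (nat_lit 6))
    (@En.n l21988 (nat_lit 12281) (nat_lit 8) (nat_lit 11))
    (@En.n l810 (nat_lit 7166) (nat_lit 8) (nat_lit 5))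
    (@En.n l28 (nat_lit 6004) (nat_lit 15) (nat_lit 2))))
  (@Cl.mk (nat_lit 0x20007000a000e00090002000d000a0006000300090007000d0006000e0003) (nat_lit 0x3430a700602090) (nat_lit 16) Lb.e (@T16.mk En
    (@En.i (nat_lit 5452) (nat_lit 5) (nat_lit 3))
    (@En.n l1897 (nat_lit 13218) (nat_lit 0) (nat_lit 14))
    (@En.i (nat_lit 6009) (nat_lit 2) (nat_lit 6))
    (@En.i (nat_lit 8357) (nat_lit 9) (nat_lit 13))
    (@En.n l217 (nat_lit 6227) (nat_lit 4) (nat_lit 7))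
    (@En.n l19505 (nat_lit 6004) (nat_lit 11) (nat_lit 9))
    (@En.n l152 (nat_lit 6006) (nat_lit 6) (nat_lit 3))
    (@En.i (nat_lit 5843) (nat_lit 7) (nat_lit 6))
    (@En.n l619 (nat_lit 12282) (nat_lit 9) (nat_lit 10))
    (@En.i (nat_lit 5557) (nat_lit 10) (nat_lit 13))
    (@En.n l17 (nat_lit 6005) (nat_lit 10) (nat_lit 2))
    (@En.i (nat_lit 6011) (nat_lit 12) (nat_lit 9))
    (@En.i (nat_lit 5443) (nat_lit 13) (nat_lit 14))
    (@En.n l7889 (nat_lit 4481) (nat_lit 8) (nat_lit 10))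
    (@En.n l4172 (nat_lit 12074) (nat_lit 3) (nat_lit 7))
    (@En.n l7 (nat_lit 6005) (nat_lit 15) (nat_lit 2))))
  (@Cl.mk (nat_lit 0x20007000b000e00090002000d0005000b000300090007000d0005000e0003) (nat_lit 0x9320708050a0a0) (nat_lit 16) Lb.e (@T16.mk En
    (@En.i (nat_lit 5453) (nat_lit 5) (nat_lit 3))
    (@En.n l5592 (nat_lit 13220) (nat_lit 0) (nat_lit 14))
    (@En.i (nat_lit 6008) (nat_lit 2) (nat_lit 5))
    (@En.i (nat_lit 8358) (nat_lit 9) (nat_lit 13))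
    (@En.n l2579 (nat_lit 6229) (nat_lit 4) (nat_lit 7))
    (@En.n l6172 (nat_lit 2818) (nat_lit 11) (nat_lit 9))
    (@En.n l117 (nat_lit 6005) (nat_lit 6) (nat_lit 3))
    (@En.n l781 (nat_lit 12278) (nat_lit 8) (nat_lit 11))
    (@En.n l10027 (nat_lit 6004) (nat_lit 14) (nat_lit 5))
    (@En.n l2125 (nat_lit 5569) (nat_lit 10) (nat_lit 13))
    (@En.n l17 (nat_lit 6006) (nat_lit 10) (nat_lit 2))
    (@En.n l32408 (nat_lit 6013) (nat_lit 12) (nat_lit 9))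
    (@En.i (nat_lit 5448) (nat_lit 13) (nat_lit 14))
    (@En.n l245 (nat_lit 5610) (nat_lit 14) (nat_lit 11))
    (@En.n l4172 (nat_lit 12076) (nat_lit 3) (nat_lit 7))
    (@En.n l7 (nat_lit 6006) (nat_lit 15) (nat_lit 2))))
  (@Cl.mk (nat_lit 0x20005000b000a0007000a00070005000e000600020006000b0009000e0009) (nat_lit 0x28030010008660) (nat_lit 16) Lb.e (@T16.mk En
    (@En.n l11 (nat_lit 6010) (nat_lit 11) (nat_lit 9))
    (@En.n l13287 (nat_lit 6008) (nat_lit 12) (nat_lit 14))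
    (@En.n l13287 (nat_lit 6009) (nat_lit 13) (nat_lit 9))
    (@En.n l11120 (nat_lit 6436) (nat_lit 3) (nat_lit 11))
    (@En.n l1544 (nat_lit 12165) (nat_lit 4) (nat_lit 6))
    (@En.n l17 (nat_lit 6007) (nat_lit 5) (nat_lit 2))
    (@En.n l435 (nat_lit 5156) (nat_lit 6) (nat_lit 6))
    (@En.n l102 (nat_lit 5060) (nat_lit 8) (nat_lit 14))
    (@En.n l2248 (nat_lit 5671) (nat_lit 8) (nat_lit 5))
    (@En.n l10491 (nat_lit 6249) (nat_lit 3) (nat_lit 7))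
    (@En.n l436 (nat_lit 2966) (nat_lit 11) (nat_lit 10))
    (@En.n l2248 (nat_lit 12509) (nat_lit 5) (nat_lit 7))
    (@En.n l1544 (nat_lit 6003) (nat_lit 13) (nat_lit 10))
    (@En.n l2248 (nat_lit 5273) (nat_lit 8) (nat_lit 11))
    (@En.n l810 (nat_lit 7171) (nat_lit 8) (nat_lit 5))
    (@En.n l28 (nat_lit 6007) (nat_lit 15) (nat_lit 2))))
  (@Cl.mk (nat_lit 0x20006000b000e00080002000c0005000b000a0004000a00080005000e0006) (nat_lit 0x75305078033030) (nat_lit 16) Lb.e (@T16.mk En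
    (@En.n l5246 (nat_lit 5158) (nat_lit 5) (nat_lit 6))
    (@En.n l134 (nat_lit 5076) (nat_lit 1) (nat_lit 14))
    (@En.n l9440 (nat_lit 5623) (nat_lit 2) (nat_lit 5))
    (@En.n l2579 (nat_lit 6396) (nat_lit 3) (nat_lit 8))
    (@En.n l6172 (nat_lit 2964) (nat_lit 10) (nat_lit 10))
    (@En.n l16262 (nat_lit 8036) (nat_lit 5) (nat_lit 4))
    (@En.n l55 (nat_lit 5453) (nat_lit 12) (nat_lit 10))
    (@En.n l9440 (nat_lit 11667) (nat_lit 8) (nat_lit 11))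
    (@En.n l10027 (nat_lit 6007) (nat_lit 14) (nat_lit 5))
    (@En.n l2125 (nat_lit 7542) (nat_lit 10) (nat_lit 12))
    (@En.n l17 (nat_lit 6008) (nat_lit 10) (nat_lit 2))
    (@En.n l32408 (nat_lit 6015) (nat_lit 12) (nat_lit 8))
    (@En.i (nat_lit 5794) (nat_lit 13) (nat_lit 14))
    (@En.n l245 (nat_lit 5609) (nat_lit 2) (nat_lit 11))
    (@En.n l5934 (nat_lit 12167) (nat_lit 3) (nat_lit 6))
    (@En.n l7 (nat_lit 6008) (nat_lit 15) (nat_lit 2))))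
  (@Cl.mk (nat_lit 0x200060009000e00080002000c000a000900070004000a00080006000e0007) (nat_lit 0x55108270044010) (nat_lit 16) Lb.e (@T16.mk En
    (@En.n l26887 (nat_lit 5157) (nat_lit 5) (nat_lit 7))
    (@En.n l134 (nat_lit 5065) (nat_lit 1) (nat_lit 14))
    (@En.n l9991 (nat_lit 5670) (nat_lit 2) (nat_lit 6))
    (@En.n l26887 (nat_lit 6393) (nat_lit 3) (nat_lit 8))
    (@En.n l19505 (nat_lit 6007) (nat_lit 10) (nat_lit 10))
    (@En.n l152 (nat_lit 6008) (nat_lit 5) (nat_lit 4))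
    (@En.n l9991 (nat_lit 11222) (nat_lit 6) (nat_lit 7))
    (@En.n l55 (nat_lit 5452) (nat_lit 13) (nat_lit 9))
    (@En.n l26888 (nat_lit 5848) (nat_lit 9) (nat_lit 10))
    (@En.i (nat_lit 5291) (nat_lit 10) (nat_lit 12))
    (@En.n l17 (nat_lit 6009) (nat_lit 10) (nat_lit 2))
    (@En.n l26889 (nat_lit 5859) (nat_lit 12) (nat_lit 8))
    (@En.i (nat_lit 5793) (nat_lit 13) (nat_lit 14))
    (@En.n l26890 (nat_lit 4827) (nat_lit 9) (nat_lit 9))
    (@En.n l9991 (nat_lit 12168) (nat_lit 3) (nat_lit 6))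
    (@En.n l7 (nat_lit 6009) (nat_lit 15) (nat_lit 2))))
  (@Cl.mk (nat_lit 0x20007000c000a000900090004000a000900060009000700070006000e0007) (nat_lit 0x92700370100010) (nat_lit 16) Lb.e (@T16.mk En
    (@En.n l39313 (nat_lit 5160) (nat_lit 6) (nat_lit 7))
    (@En.n l998 (nat_lit 5053) (nat_lit 1) (nat_lit 14))
    (@En.n l14781 (nat_lit 11382) (nat_lit 2) (nat_lit 6))
    (@En.n l1578 (nat_lit 6007) (nat_lit 9) (nat_lit 7))
    (@En.n l18697 (nat_lit 6381) (nat_lit 4) (nat_lit 7))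
    (@En.n l11354 (nat_lit 2319) (nat_lit 5) (nat_lit 9))
    (@En.n l31580 (nat_lit 11223) (nat_lit 6) (nat_lit 6))
    (@En.n l39314 (nat_lit 5635) (nat_lit 7) (nat_lit 9))
    (@En.n l11351 (nat_lit 5850) (nat_lit 9) (nat_lit 10))
    (@En.n l36364 (nat_lit 5438) (nat_lit 9) (nat_lit 4))
    (@En.n l565 (nat_lit 6493) (nat_lit 7) (nat_lit 9))
    (@En.n l5403 (nat_lit 6385) (nat_lit 12) (nat_lit 9))
    (@En.n l39315 (nat_lit 5859) (nat_lit 13) (nat_lit 10))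
    (@En.n l13596 (nat_lit 6437) (nat_lit 14) (nat_lit 12))
    (@En.n l20537 (nat_lit 12169) (nat_lit 13) (nat_lit 7))
    (@En.n l17 (nat_lit 6010) (nat_lit 15) (nat_lit 2))))
  (@Cl.mk (nat_lit 0x20008000b00090009000d000900050003000800070007000d0007000e0003) (nat_lit 0x122396006000030) (nat_lit 16) Lb.e (@T16.mk En
    (@En.n l27125 (nat_lit 6012) (nat_lit 15) (nat_lit 3))
    (@En.n l26882 (nat_lit 13217) (nat_lit 0) (nat_lit 14))
    (@En.n l26889 (nat_lit 5859) (nat_lit 2) (nat_lit 7))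
    (@En.n l27126 (nat_lit 10807) (nat_lit 12) (nat_lit 13))
    (@En.n l61 (nat_lit 6005) (nat_lit 4) (nat_lit 7))
    (@En.n l27127 (nat_lit 6235) (nat_lit 5) (nat_lit 7))
    (@En.n l27128 (nat_lit 5637) (nat_lit 6) (nat_lit 8))
    (@En.n l27129 (nat_lit 6013) (nat_lit 7) (nat_lit 3))
    (@En.n l25585 (nat_lit 6061) (nat_lit 0) (nat_lit 5))
    (@En.n l2749 (nat_lit 12723) (nat_lit 10) (nat_lit 9))
    (@En.n l27130 (nat_lit 5340) (nat_lit 11) (nat_lit 13))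
    (@En.n l27131 (nat_lit 6094) (nat_lit 12) (nat_lit 9))
    (@En.n l27132 (nat_lit 5506) (nat_lit 13) (nat_lit 9))
    (@En.n l25584 (nat_lit 4488) (nat_lit 7) (nat_lit 11))
    (@En.n l4172 (nat_lit 55) (nat_lit 6) (nat_lit 8))
    (@En.n l7 (nat_lit 6011) (nat_lit 15) (nat_lit 2))))
  (@Cl.mk (nat_lit 0x300030008000b00090009000d000800050003000800070007000d000d0008) (nat_lit 0x32138500300012) (nat_lit 16) Lb.e (@T16.mk En
    (@En.n l97 (nat_lit 6522) (nat_lit 0) (nat_lit 8))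
    (@En.n l33748 (nat_lit 6011) (nat_lit 3) (nat_lit 13))
    (@En.n l21642 (nat_lit 10808) (nat_lit 12) (nat_lit 13))
    (@En.n l33749 (nat_lit 5452) (nat_lit 9) (nat_lit 7))
    (@En.n l26984 (nat_lit 6077) (nat_lit 4) (nat_lit 7))
    (@En.n l26985 (nat_lit 5635) (nat_lit 5) (nat_lit 8))
    (@En.n l33750 (nat_lit 6014) (nat_lit 6) (nat_lit 3))
    (@En.n l28 (nat_lit 5847) (nat_lit 0) (nat_lit 5))
    (@En.n l26987 (nat_lit 12722) (nat_lit 9) (nat_lit 8))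
    (@En.n l3522 (nat_lit 5338) (nat_lit 10) (nat_lit 13))
    (@En.n l61 (nat_lit 6092) (nat_lit 7) (nat_lit 9))
    (@En.n l601 (nat_lit 3252) (nat_lit 12) (nat_lit 9))
    (@En.i (nat_lit 4484) (nat_lit 7) (nat_lit 11))
    (@En.n l476 (nat_lit 10607) (nat_lit 14) (nat_lit 8))
    (@En.n l152 (nat_lit 6096) (nat_lit 13) (nat_lit 3))
    (@En.n l33751 (nat_lit 6011) (nat_lit 0) (nat_lit 3))))
  (@Cl.mk (nat_lit 0x20008000c00090009000d0004000a0003000800070007000d0006000e0003) (nat_lit 0x491390602000040) (nat_lit 16) Lb.e (@T16.mk En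
    (@En.i (nat_lit 6014) (nat_lit 15) (nat_lit 3))
    (@En.i (nat_lit 13223) (nat_lit 0) (nat_lit 14))
    (@En.i (nat_lit 6015) (nat_lit 2) (nat_lit 6))
    (@En.n l3596 (nat_lit 10810) (nat_lit 12) (nat_lit 13))
    (@En.n l32428 (nat_lit 6006) (nat_lit 4) (nat_lit 7))
    (@En.i (nat_lit 6234) (nat_lit 5) (nat_lit 7))
    (@En.n l3 (nat_lit 1212) (nat_lit 6) (nat_lit 8))
    (@En.n l32429 (nat_lit 6011) (nat_lit 7) (nat_lit 3))
    (@En.n l2031 (nat_lit 12839) (nat_lit 0) (nat_lit 10))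
    (@En.n l6083 (nat_lit 5637) (nat_lit 9) (nat_lit 4))
    (@En.n l32430 (nat_lit 5404) (nat_lit 11) (nat_lit 13))
    (@En.n l32431 (nat_lit 6095) (nat_lit 12) (nat_lit 9))
    (@En.n l26749 (nat_lit 3254) (nat_lit 13) (nat_lit 9))
    (@En.n l32432 (nat_lit 2963) (nat_lit 14) (nat_lit 12))
    (@En.n l32433 (nat_lit 10607) (nat_lit 6) (nat_lit 8))
    (@En.n l17 (nat_lit 6013) (nat_lit 15) (nat_lit 2))))
  (@Cl.mk (nat_lit 0x300030008000c00090009000d000400090003000800070007000d000d0007) (nat_lit 0x19133060600010) (nat_lit 16) Lb.e (@T16.mk En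
    (@En.n l5909 (nat_lit 6520) (nat_lit 0) (nat_lit 7))
    (@En.n l61 (nat_lit 6013) (nat_lit 3) (nat_lit 13))
    (@En.n l3596 (nat_lit 10812) (nat_lit 12) (nat_lit 13))
    (@En.n l32428 (nat_lit 5453) (nat_lit 9) (nat_lit 7))
    (@En.i (nat_lit 6076) (nat_lit 4) (nat_lit 7))
    (@En.n l33855 (nat_lit 1211) (nat_lit 5) (nat_lit 8))
    (@En.n l33856 (nat_lit 6012) (nat_lit 6) (nat_lit 3))
    (@En.n l33857 (nat_lit 11634) (nat_lit 0) (nat_lit 9))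
    (@En.n l33858 (nat_lit 5635) (nat_lit 8) (nat_lit 4))
    (@En.n l14963 (nat_lit 5402) (nat_lit 10) (nat_lit 13))
    (@En.n l33859 (nat_lit 6087) (nat_lit 7) (nat_lit 9))
    (@En.n l26749 (nat_lit 3249) (nat_lit 12) (nat_lit 9))
    (@En.n l33856 (nat_lit 2956) (nat_lit 13) (nat_lit 12))
    (@En.n l33860 (nat_lit 75) (nat_lit 6) (nat_lit 8))
    (@En.n l33861 (nat_lit 6086) (nat_lit 13) (nat_lit 3))
    (@En.n l18 (nat_lit 6013) (nat_lit 0) (nat_lit 3))))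
  (@Cl.mk (nat_lit 0x20007000c00080008000c0004000a000900040009000800080006000e0007) (nat_lit 0x82040270204000) (nat_lit 16) Lb.e (@T16.mk En
    (@En.n l37289 (nat_lit 5161) (nat_lit 6) (nat_lit 7))
    (@En.n l998 (nat_lit 7570) (nat_lit 1) (nat_lit 14))
    (@En.n l50 (nat_lit 11303) (nat_lit 2) (nat_lit 6))
    (@En.n l32428 (nat_lit 6008) (nat_lit 3) (nat_lit 8))
    (@En.i (nat_lit 6386) (nat_lit 4) (nat_lit 8))
    (@En.n l37290 (nat_lit 2925) (nat_lit 5) (nat_lit 9))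
    (@En.n l37291 (nat_lit 5860) (nat_lit 6) (nat_lit 4))
    (@En.n l217 (nat_lit 6014) (nat_lit 7) (nat_lit 9))
    (@En.n l37292 (nat_lit 11660) (nat_lit 9) (nat_lit 10))
    (@En.n l6083 (nat_lit 6010) (nat_lit 9) (nat_lit 4))
    (@En.n l32430 (nat_lit 5800) (nat_lit 11) (nat_lit 12))
    (@En.n l32431 (nat_lit 6494) (nat_lit 8) (nat_lit 8))
    (@En.n l3 (nat_lit 7715) (nat_lit 13) (nat_lit 8))
    (@En.n l32432 (nat_lit 6441) (nat_lit 14) (nat_lit 12))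
    (@En.n l37293 (nat_lit 11968) (nat_lit 13) (nat_lit 7))
    (@En.n l17 (nat_lit 6015) (nat_lit 15) (nat_lit 2))))
noncomputable def a376 : T16 Cl := @T16.mk Cl
  (@Cl.mk (nat_lit 0x20008000e00060002000e000b0002000c0008000b00050004000a000e0005) (nat_lit 0x1200b8095100270) (nat_lit 16) Lb.e (@T16.mk En
    (@En.n l24636 (nat_lit 5201) (nat_lit 7) (nat_lit 5))
    (@En.i (nat_lit 5891) (nat_lit 9) (nat_lit 14))
    (@En.n l287 (nat_lit 7787) (nat_lit 10) (nat_lit 10))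
    (@En.n l11 (nat_lit 5899) (nat_lit 3) (nat_lit 4))
    (@En.i (nat_lit 7833) (nat_lit 4) (nat_lit 5))
    (@En.i (nat_lit 4749) (nat_lit 13) (nat_lit 11))
    (@En.n l532 (nat_lit 5073) (nat_lit 6) (nat_lit 8))
    (@En.n l615 (nat_lit 6019) (nat_lit 12) (nat_lit 12))
    (@En.n l3 (nat_lit 6016) (nat_lit 8) (nat_lit 2))
    (@En.i (nat_lit 5197) (nat_lit 10) (nat_lit 11))
    (@En.i (nat_lit 5277) (nat_lit 1) (nat_lit 14))
    (@En.n l17 (nat_lit 6016) (nat_lit 11) (nat_lit 2))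
    (@En.i (nat_lit 4638) (nat_lit 13) (nat_lit 6))
    (@En.i (nat_lit 2519) (nat_lit 1) (nat_lit 14))
    (@En.n l24638 (nat_lit 5201) (nat_lit 5) (nat_lit 8))
    (@En.n l7 (nat_lit 6016) (nat_lit 15) (nat_lit 2))))
  (@Cl.mk (nat_lit 0x200070006000c00050008000e00040002000e00090002000a0008000e000b) (nat_lit 0x206700b603561) (nat_lit 16) Lb.e (@T16.mk En
    (@En.i (nat_lit 5201) (nat_lit 12) (nat_lit 11))
    (@En.n l134 (nat_lit 5695) (nat_lit 13) (nat_lit 14))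
    (@En.n l3339 (nat_lit 5074) (nat_lit 2) (nat_lit 8))
    (@En.n l107 (nat_lit 6023) (nat_lit 3) (nat_lit 10))
    (@En.n l3 (nat_lit 6017) (nat_lit 4) (nat_lit 2))
    (@En.i (nat_lit 5198) (nat_lit 5) (nat_lit 9))
    (@En.i (nat_lit 5266) (nat_lit 1) (nat_lit 14))
    (@En.n l17 (nat_lit 6017) (nat_lit 7) (nat_lit 2))
    (@En.i (nat_lit 4637) (nat_lit 8) (nat_lit 4))
    (@En.n l2031 (nat_lit 2042) (nat_lit 10) (nat_lit 14))
    (@En.i (nat_lit 12790) (nat_lit 10) (nat_lit 8))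
    (@En.i (nat_lit 6498) (nat_lit 6) (nat_lit 5))
    (@En.n l4021 (nat_lit 7782) (nat_lit 8) (nat_lit 12))
    (@En.i (nat_lit 5896) (nat_lit 14) (nat_lit 6))
    (@En.n l117 (nat_lit 9060) (nat_lit 6) (nat_lit 7))
    (@En.n l7 (nat_lit 6017) (nat_lit 15) (nat_lit 2))))
  (@Cl.mk (nat_lit 0x20008000b000b00050008000b000500050008000e000500020008000e000b) (nat_lit 0x6820020058002b8) (nat_lit 16) Lb.e (@T16.mk En
    (@En.n l12370 (nat_lit 6020) (nat_lit 13) (nat_lit 11))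
    (@En.n l97 (nat_lit 5201) (nat_lit 1) (nat_lit 14))
    (@En.n l617 (nat_lit 5768) (nat_lit 2) (nat_lit 8))
    (@En.n l17 (nat_lit 6018) (nat_lit 3) (nat_lit 2))
    (@En.i (nat_lit 5768) (nat_lit 4) (nat_lit 5))
    (@En.n l2031 (nat_lit 2517) (nat_lit 6) (nat_lit 14))
    (@En.n l28 (nat_lit 6022) (nat_lit 10) (nat_lit 8))
    (@En.n l77 (nat_lit 6022) (nat_lit 11) (nat_lit 5))
    (@En.n l3039 (nat_lit 6507) (nat_lit 4) (nat_lit 5))
    (@En.n l1643 (nat_lit 5870) (nat_lit 10) (nat_lit 11))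
    (@En.n l2031 (nat_lit 13555) (nat_lit 10) (nat_lit 8))
    (@En.i (nat_lit 5474) (nat_lit 7) (nat_lit 5))
    (@En.n l14612 (nat_lit 6021) (nat_lit 13) (nat_lit 11))
    (@En.n l3039 (nat_lit 5760) (nat_lit 10) (nat_lit 11))
    (@En.n l2031 (nat_lit 1470) (nat_lit 11) (nat_lit 8))
    (@En.n l107 (nat_lit 6018) (nat_lit 15) (nat_lit 2))))
  (@Cl.mk (nat_lit 0x20009000c000c0007000a000400040007000a000e000600020009000e0006) (nat_lit 0x188010003300720) (nat_lit 16) Lb.e (@T16.mk En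
    (@En.i (nat_lit 5770) (nat_lit 13) (nat_lit 6))
    (@En.n l1997 (nat_lit 2065) (nat_lit 1) (nat_lit 14))
    (@En.n l3506 (nat_lit 6020) (nat_lit 2) (nat_lit 9))
    (@En.n l28 (nat_lit 6019) (nat_lit 3) (nat_lit 2))
    (@En.i (nat_lit 6020) (nat_lit 4) (nat_lit 6))
    (@En.n l639 (nat_lit 5895) (nat_lit 6) (nat_lit 14))
    (@En.i (nat_lit 5931) (nat_lit 2) (nat_lit 10))
    (@En.n l730 (nat_lit 6021) (nat_lit 11) (nat_lit 7))
    (@En.n l731 (nat_lit 6021) (nat_lit 12) (nat_lit 4))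
    (@En.i (nat_lit 7825) (nat_lit 5) (nat_lit 4))
    (@En.i (nat_lit 702) (nat_lit 11) (nat_lit 10))
    (@En.n l4758 (nat_lit 1483) (nat_lit 7) (nat_lit 7))
    (@En.n l6213 (nat_lit 6029) (nat_lit 4) (nat_lit 12))
    (@En.n l2009 (nat_lit 5203) (nat_lit 10) (nat_lit 12))
    (@En.n l1738 (nat_lit 5770) (nat_lit 11) (nat_lit 9))
    (@En.n l18 (nat_lit 6019) (nat_lit 15) (nat_lit 2))))
  (@Cl.mk (nat_lit 0x20008000b000b0007000a000a000500050008000b000600060009000e0005) (nat_lit 0x277072001300690) (nat_lit 16) Lb.e (@T16.mk En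
    (@En.i (nat_lit 5773) (nat_lit 15) (nat_lit 5))
    (@En.n l5933 (nat_lit 2053) (nat_lit 1) (nat_lit 14))
    (@En.n l25841 (nat_lit 6023) (nat_lit 9) (nat_lit 9))
    (@En.n l25938 (nat_lit 6023) (nat_lit 10) (nat_lit 6))
    (@En.n l2568 (nat_lit 6506) (nat_lit 4) (nat_lit 6))
    (@En.i (nat_lit 5928) (nat_lit 7) (nat_lit 11))
    (@En.n l25939 (nat_lit 6018) (nat_lit 10) (nat_lit 8))
    (@En.n l25940 (nat_lit 6018) (nat_lit 11) (nat_lit 5))
    (@En.n l26714 (nat_lit 5495) (nat_lit 8) (nat_lit 5))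
    (@En.n l55 (nat_lit 6019) (nat_lit 10) (nat_lit 10))
    (@En.i (nat_lit 5762) (nat_lit 11) (nat_lit 10))
    (@En.n l27179 (nat_lit 1472) (nat_lit 12) (nat_lit 7))
    (@En.n l24909 (nat_lit 6027) (nat_lit 13) (nat_lit 11))
    (@En.n l2009 (nat_lit 5200) (nat_lit 7) (nat_lit 11))
    (@En.n l1738 (nat_lit 5773) (nat_lit 13) (nat_lit 8))
    (@En.n l18 (nat_lit 6020) (nat_lit 15) (nat_lit 2))))
  (@Cl.mk (nat_lit 0x20008000b00040007000a000e000500020008000e000600020009000e000c) (nat_lit 0x6100220062002c9) (nat_lit 16) Lb.e (@T16.mk En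
    (@En.n l1643 (nat_lit 6019) (nat_lit 13) (nat_lit 12))
    (@En.n l619 (nat_lit 6016) (nat_lit 10) (nat_lit 14))
    (@En.i (nat_lit 5771) (nat_lit 2) (nat_lit 9))
    (@En.n l17 (nat_lit 6021) (nat_lit 3) (nat_lit 2))
    (@En.n l1353 (nat_lit 5771) (nat_lit 4) (nat_lit 6))
    (@En.n l2034 (nat_lit 2518) (nat_lit 6) (nat_lit 14))
    (@En.n l5934 (nat_lit 6018) (nat_lit 6) (nat_lit 8))
    (@En.n l7 (nat_lit 6021) (nat_lit 7) (nat_lit 2))
    (@En.n l8898 (nat_lit 6018) (nat_lit 8) (nat_lit 5))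
    (@En.i (nat_lit 5893) (nat_lit 10) (nat_lit 14))
    (@En.n l1643 (nat_lit 5872) (nat_lit 2) (nat_lit 10))
    (@En.i (nat_lit 13554) (nat_lit 11) (nat_lit 7))
    (@En.i (nat_lit 7824) (nat_lit 4) (nat_lit 4))
    (@En.i (nat_lit 710) (nat_lit 10) (nat_lit 11))
    (@En.n l2034 (nat_lit 1479) (nat_lit 6) (nat_lit 8))
    (@En.n l107 (nat_lit 6021) (nat_lit 15) (nat_lit 2))))
  (@Cl.mk (nat_lit 0x200060009000c00050008000e000400020007000e000a00020008000e000b) (nat_lit 0x2046000c70679) (nat_lit 16) Lb.e (@T16.mk En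
    (@En.i (nat_lit 6018) (nat_lit 13) (nat_lit 11))
    (@En.n l134 (nat_lit 5759) (nat_lit 10) (nat_lit 14))
    (@En.i (nat_lit 1469) (nat_lit 2) (nat_lit 8))
    (@En.n l107 (nat_lit 6022) (nat_lit 3) (nat_lit 2))
    (@En.i (nat_lit 6023) (nat_lit 4) (nat_lit 10))
    (@En.n l97 (nat_lit 6017) (nat_lit 6) (nat_lit 14))
    (@En.n l617 (nat_lit 6024) (nat_lit 6) (nat_lit 7))
    (@En.n l17 (nat_lit 6022) (nat_lit 7) (nat_lit 2))
    (@En.i (nat_lit 6024) (nat_lit 8) (nat_lit 4))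
    (@En.n l2031 (nat_lit 2044) (nat_lit 6) (nat_lit 14))
    (@En.i (nat_lit 943) (nat_lit 10) (nat_lit 8))
    (@En.i (nat_lit 6508) (nat_lit 3) (nat_lit 5))
    (@En.n l1643 (nat_lit 5871) (nat_lit 13) (nat_lit 12))
    (@En.n l2031 (nat_lit 13560) (nat_lit 9) (nat_lit 9))
    (@En.i (nat_lit 5483) (nat_lit 6) (nat_lit 6))
    (@En.n l7 (nat_lit 6022) (nat_lit 15) (nat_lit 2))))
  (@Cl.mk (nat_lit 0x2000600060009000c00060009000e000400020007000a000a0007000e000a) (nat_lit 0x1305700062068) (nat_lit 16) Lb.e (@T16.mk En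
    (@En.n l12370 (nat_lit 6020) (nat_lit 10) (nat_lit 10))
    (@En.n l134 (nat_lit 5754) (nat_lit 11) (nat_lit 14))
    (@En.n l12752 (nat_lit 1471) (nat_lit 2) (nat_lit 7))
    (@En.n l26089 (nat_lit 6026) (nat_lit 13) (nat_lit 10))
    (@En.n l5330 (nat_lit 6030) (nat_lit 4) (nat_lit 10))
    (@En.n l617 (nat_lit 6025) (nat_lit 5) (nat_lit 7))
    (@En.n l17 (nat_lit 6023) (nat_lit 6) (nat_lit 2))
    (@En.i (nat_lit 6025) (nat_lit 7) (nat_lit 4))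
    (@En.n l6148 (nat_lit 2043) (nat_lit 9) (nat_lit 14))
    (@En.i (nat_lit 937) (nat_lit 9) (nat_lit 9))
    (@En.i (nat_lit 6509) (nat_lit 3) (nat_lit 6))
    (@En.n l1643 (nat_lit 5930) (nat_lit 12) (nat_lit 12))
    (@En.n l3 (nat_lit 6022) (nat_lit 13) (nat_lit 9))
    (@En.n l527 (nat_lit 6022) (nat_lit 14) (nat_lit 6))
    (@En.i (nat_lit 5493) (nat_lit 7) (nat_lit 6))
    (@En.n l7 (nat_lit 6023) (nat_lit 15) (nat_lit 2))))
  (@Cl.mk (nat_lit 0x200060009000c000c00060009000400040007000e000a00020007000e000a) (nat_lit 0x5305000c60068) (nat_lit 16) Lb.e (@T16.mk En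
    (@En.i (nat_lit 5768) (nat_lit 13) (nat_lit 10))
    (@En.n l134 (nat_lit 931) (nat_lit 1) (nat_lit 14))
    (@En.n l2869 (nat_lit 1435) (nat_lit 2) (nat_lit 7))
    (@En.n l107 (nat_lit 6024) (nat_lit 3) (nat_lit 2))
    (@En.i (nat_lit 6025) (nat_lit 4) (nat_lit 10))
    (@En.n l97 (nat_lit 4637) (nat_lit 6) (nat_lit 14))
    (@En.n l1295 (nat_lit 6045) (nat_lit 6) (nat_lit 7))
    (@En.n l2101 (nat_lit 6045) (nat_lit 7) (nat_lit 4))
    (@En.n l18 (nat_lit 6054) (nat_lit 8) (nat_lit 4))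
    (@En.n l2869 (nat_lit 939) (nat_lit 9) (nat_lit 9))
    (@En.n l947 (nat_lit 4930) (nat_lit 6) (nat_lit 6))
    (@En.n l61 (nat_lit 6022) (nat_lit 12) (nat_lit 12))
    (@En.n l1643 (nat_lit 5074) (nat_lit 13) (nat_lit 12))
    (@En.i (nat_lit 13559) (nat_lit 9) (nat_lit 9))
    (@En.i (nat_lit 5477) (nat_lit 11) (nat_lit 6))
    (@En.n l7 (nat_lit 6024) (nat_lit 15) (nat_lit 2))))
  (@Cl.mk (nat_lit 0x2000600060009000c000c0007000a000400040007000a000a0006000e0009) (nat_lit 0x1540600054057) (nat_lit 16) Lb.e (@T16.mk En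
    (@En.n l12370 (nat_lit 5773) (nat_lit 9) (nat_lit 9))
    (@En.n l134 (nat_lit 933) (nat_lit 1) (nat_lit 14))
    (@En.n l12371 (nat_lit 1480) (nat_lit 2) (nat_lit 6))
    (@En.n l12372 (nat_lit 6028) (nat_lit 6) (nat_lit 10))
    (@En.n l12371 (nat_lit 1641) (nat_lit 4) (nat_lit 10))
    (@En.n l12373 (nat_lit 6044) (nat_lit 5) (nat_lit 7))
    (@En.n l12374 (nat_lit 6044) (nat_lit 6) (nat_lit 4))
    (@En.n l18 (nat_lit 6052) (nat_lit 7) (nat_lit 4))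
    (@En.n l2869 (nat_lit 940) (nat_lit 8) (nat_lit 10))
    (@En.n l12375 (nat_lit 1738) (nat_lit 10) (nat_lit 7))
    (@En.n l61 (nat_lit 6023) (nat_lit 11) (nat_lit 12))
    (@En.n l1643 (nat_lit 5070) (nat_lit 12) (nat_lit 12))
    (@En.n l3 (nat_lit 6024) (nat_lit 13) (nat_lit 9))
    (@En.n l527 (nat_lit 6024) (nat_lit 14) (nat_lit 6))
    (@En.i (nat_lit 5489) (nat_lit 13) (nat_lit 6))
    (@En.n l7 (nat_lit 6025) (nat_lit 15) (nat_lit 2))))
  (@Cl.mk (nat_lit 0x20007000a0006000e00090002000e000600020009000c0007000a000e0004) (nat_lit 0x10570b00240690) (nat_lit 16) Lb.e (@T16.mk En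
    (@En.n l12366 (nat_lit 6028) (nat_lit 9) (nat_lit 4))
    (@En.i (nat_lit 2045) (nat_lit 11) (nat_lit 14))
    (@En.n l3324 (nat_lit 941) (nat_lit 8) (nat_lit 10))
    (@En.n l9794 (nat_lit 6512) (nat_lit 3) (nat_lit 7))
    (@En.i (nat_lit 5927) (nat_lit 6) (nat_lit 12))
    (@En.n l12367 (nat_lit 6023) (nat_lit 12) (nat_lit 9))
    (@En.n l17 (nat_lit 6026) (nat_lit 6) (nat_lit 2))
    (@En.n l12368 (nat_lit 6023) (nat_lit 14) (nat_lit 6))
    (@En.n l1531 (nat_lit 7453) (nat_lit 1) (nat_lit 14))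
    (@En.n l3 (nat_lit 6026) (nat_lit 9) (nat_lit 2))
    (@En.n l1532 (nat_lit 6027) (nat_lit 11) (nat_lit 9))
    (@En.n l12369 (nat_lit 5751) (nat_lit 12) (nat_lit 14))
    (@En.n l3324 (nat_lit 1805) (nat_lit 13) (nat_lit 6))
    (@En.n l12369 (nat_lit 2134) (nat_lit 14) (nat_lit 10))
    (@En.n l1534 (nat_lit 6028) (nat_lit 7) (nat_lit 7))
    (@En.n l28 (nat_lit 6026) (nat_lit 15) (nat_lit 2))))
  (@Cl.mk (nat_lit 0x20008000b000600090009000e000500020008000b00070007000a000e0005) (nat_lit 0x16062b002400790) (nat_lit 16) Lb.e (@T16.mk En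
    (@En.n l25937 (nat_lit 5775) (nat_lit 8) (nat_lit 5))
    (@En.i (nat_lit 2051) (nat_lit 10) (nat_lit 14))
    (@En.n l1899 (nat_lit 6026) (nat_lit 2) (nat_lit 10))
    (@En.n l1900 (nat_lit 6026) (nat_lit 3) (nat_lit 7))
    (@En.n l9874 (nat_lit 5286) (nat_lit 4) (nat_lit 7))
    (@En.i (nat_lit 5924) (nat_lit 14) (nat_lit 11))
    (@En.n l6596 (nat_lit 6020) (nat_lit 6) (nat_lit 8))
    (@En.n l17 (nat_lit 6027) (nat_lit 7) (nat_lit 2))
    (@En.n l13489 (nat_lit 6020) (nat_lit 8) (nat_lit 5))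
    (@En.i (nat_lit 7509) (nat_lit 10) (nat_lit 14))
    (@En.n l1867 (nat_lit 6029) (nat_lit 2) (nat_lit 9))
    (@En.n l5372 (nat_lit 5807) (nat_lit 3) (nat_lit 9))
    (@En.n l13509 (nat_lit 1803) (nat_lit 4) (nat_lit 6))
    (@En.n l5372 (nat_lit 2135) (nat_lit 14) (nat_lit 11))
    (@En.n l4678 (nat_lit 5775) (nat_lit 6) (nat_lit 8))
    (@En.n l28 (nat_lit 6027) (nat_lit 15) (nat_lit 2))))
  (@Cl.mk (nat_lit 0x20009000c000c0008000b000400040007000a0005000e00080002000e0006) (nat_lit 0x2851700030460c0) (nat_lit 16) Lb.e (@T16.mk En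
    (@En.n l4700 (nat_lit 6025) (nat_lit 14) (nat_lit 6))
    (@En.n l4701 (nat_lit 7505) (nat_lit 1) (nat_lit 14))
    (@En.n l7 (nat_lit 6028) (nat_lit 2) (nat_lit 2))
    (@En.n l4646 (nat_lit 5775) (nat_lit 3) (nat_lit 8))
    (@En.n l1491 (nat_lit 5753) (nat_lit 1) (nat_lit 14))
    (@En.n l4702 (nat_lit 1806) (nat_lit 5) (nat_lit 5))
    (@En.n l1491 (nat_lit 3454) (nat_lit 8) (nat_lit 10))
    (@En.n l1529 (nat_lit 6046) (nat_lit 11) (nat_lit 7))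
    (@En.n l1162 (nat_lit 6046) (nat_lit 12) (nat_lit 4))
    (@En.n l1424 (nat_lit 6056) (nat_lit 9) (nat_lit 4))
    (@En.n l4702 (nat_lit 936) (nat_lit 7) (nat_lit 11))
    (@En.n l2738 (nat_lit 5282) (nat_lit 12) (nat_lit 8))
    (@En.n l4703 (nat_lit 6026) (nat_lit 4) (nat_lit 12))
    (@En.n l4704 (nat_lit 5071) (nat_lit 6) (nat_lit 12))
    (@En.n l4705 (nat_lit 6025) (nat_lit 12) (nat_lit 9))
    (@En.n l18 (nat_lit 6028) (nat_lit 15) (nat_lit 2))))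
  (@Cl.mk (nat_lit 0x20007000a000e00070002000a000e000600020009000c00060009000e0004) (nat_lit 0x44008a002701b0) (nat_lit 16) Lb.e (@T16.mk En
    (@En.n l9025 (nat_lit 6019) (nat_lit 9) (nat_lit 4))
    (@En.i (nat_lit 5923) (nat_lit 11) (nat_lit 14))
    (@En.n l2036 (nat_lit 711) (nat_lit 2) (nat_lit 9))
    (@En.n l5280 (nat_lit 1804) (nat_lit 3) (nat_lit 6))
    (@En.n l2036 (nat_lit 2458) (nat_lit 6) (nat_lit 12))
    (@En.n l1758 (nat_lit 5776) (nat_lit 5) (nat_lit 9))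
    (@En.n l3 (nat_lit 6029) (nat_lit 6) (nat_lit 2))
    (@En.n l4871 (nat_lit 5776) (nat_lit 7) (nat_lit 6))
    (@En.i (nat_lit 2062) (nat_lit 9) (nat_lit 14))
    (@En.n l3337 (nat_lit 6027) (nat_lit 2) (nat_lit 10))
    (@En.n l17 (nat_lit 6029) (nat_lit 10) (nat_lit 2))
    (@En.n l2869 (nat_lit 6027) (nat_lit 4) (nat_lit 7))
    (@En.n l2036 (nat_lit 5900) (nat_lit 13) (nat_lit 14))
    (@En.n l2034 (nat_lit 5923) (nat_lit 2) (nat_lit 10))
    (@En.n l2911 (nat_lit 6019) (nat_lit 7) (nat_lit 7))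
    (@En.n l7 (nat_lit 6029) (nat_lit 15) (nat_lit 2))))
  (@Cl.mk (nat_lit 0x20006000e00070002000c0007000a000e00040002000a00090006000e0009) (nat_lit 0xc0040840051051) (nat_lit 16) Lb.e (@T16.mk En
    (@En.n l21119 (nat_lit 5200) (nat_lit 4) (nat_lit 9))
    (@En.n l21120 (nat_lit 5743) (nat_lit 1) (nat_lit 14))
    (@En.i (nat_lit 1190) (nat_lit 2) (nat_lit 6))
    (@En.n l108 (nat_lit 2133) (nat_lit 14) (nat_lit 9))
    (@En.n l1599 (nat_lit 6940) (nat_lit 4) (nat_lit 10))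
    (@En.n l28 (nat_lit 6030) (nat_lit 5) (nat_lit 2))
    (@En.n l11 (nat_lit 1641) (nat_lit 6) (nat_lit 4))
    (@En.n l21121 (nat_lit 1729) (nat_lit 8) (nat_lit 14))
    (@En.i (nat_lit 12862) (nat_lit 8) (nat_lit 10))
    (@En.n l11482 (nat_lit 6501) (nat_lit 14) (nat_lit 7))
    (@En.n l1918 (nat_lit 6636) (nat_lit 11) (nat_lit 12))
    (@En.n l3 (nat_lit 6030) (nat_lit 11) (nat_lit 2))
    (@En.n l5270 (nat_lit 5198) (nat_lit 13) (nat_lit 7))
    (@En.n l21121 (nat_lit 6026) (nat_lit 8) (nat_lit 14))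
    (@En.n l5134 (nat_lit 8512) (nat_lit 8) (nat_lit 6))
    (@En.n l17 (nat_lit 6030) (nat_lit 15) (nat_lit 2))))
  (@Cl.mk (nat_lit 0x20006000e00070002000c0009000d000900040003000a00090007000e0007) (nat_lit 0xb0045900031080) (nat_lit 16) Lb.e (@T16.mk En
    (@En.n l39042 (nat_lit 6041) (nat_lit 4) (nat_lit 7))
    (@En.n l21120 (nat_lit 5745) (nat_lit 1) (nat_lit 14))
    (@En.i (nat_lit 8566) (nat_lit 2) (nat_lit 7))
    (@En.n l10903 (nat_lit 3430) (nat_lit 3) (nat_lit 9))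
    (@En.n l39043 (nat_lit 9908) (nat_lit 4) (nat_lit 10))
    (@En.n l39044 (nat_lit 6032) (nat_lit 5) (nat_lit 3))
    (@En.i (nat_lit 6030) (nat_lit 6) (nat_lit 4))
    (@En.n l39043 (nat_lit 7432) (nat_lit 12) (nat_lit 9))
    (@En.n l744 (nat_lit 1728) (nat_lit 9) (nat_lit 13))
    (@En.i (nat_lit 1765) (nat_lit 10) (nat_lit 9))
    (@En.n l1918 (nat_lit 9910) (nat_lit 11) (nat_lit 12))
    (@En.n l3 (nat_lit 6031) (nat_lit 11) (nat_lit 2))
    (@En.n l4153 (nat_lit 6034) (nat_lit 13) (nat_lit 7))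
    (@En.n l6771 (nat_lit 6056) (nat_lit 1) (nat_lit 14))
    (@En.n l4155 (nat_lit 8682) (nat_lit 2) (nat_lit 6))
    (@En.n l17 (nat_lit 6031) (nat_lit 15) (nat_lit 2))))
noncomputable def a377 : T16 Cl := @T16.mk Cl
  (@Cl.mk (nat_lit 0x20006000e00070002000d0009000d0003000a0003000a00090007000e0006) (nat_lit 0xb0055504041080) (nat_lit 16) Lb.e (@T16.mk En
    (@En.n l3098 (nat_lit 6037) (nat_lit 4) (nat_lit 6))
    (@En.n l936 (nat_lit 8046) (nat_lit 1) (nat_lit 14))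
    (@En.n l10215 (nat_lit 8347) (nat_lit 2) (nat_lit 7))
    (@En.n l3 (nat_lit 3427) (nat_lit 3) (nat_lit 9))
    (@En.n l10833 (nat_lit 6290) (nat_lit 4) (nat_lit 10))
    (@En.n l10215 (nat_lit 6031) (nat_lit 5) (nat_lit 3))
    (@En.n l21696 (nat_lit 6502) (nat_lit 11) (nat_lit 10))
    (@En.n l10215 (nat_lit 6033) (nat_lit 7) (nat_lit 3))
    (@En.n l9929 (nat_lit 1841) (nat_lit 9) (nat_lit 13))
    (@En.n l8429 (nat_lit 1761) (nat_lit 10) (nat_lit 9))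
    (@En.n l287 (nat_lit 9902) (nat_lit 11) (nat_lit 13))
    (@En.n l11 (nat_lit 6032) (nat_lit 11) (nat_lit 2))
    (@En.i (nat_lit 6035) (nat_lit 13) (nat_lit 7))
    (@En.n l1572 (nat_lit 6057) (nat_lit 1) (nat_lit 14))
    (@En.n l3106 (nat_lit 8685) (nat_lit 2) (nat_lit 6))
    (@En.n l17 (nat_lit 6032) (nat_lit 15) (nat_lit 2))))
  (@Cl.mk (nat_lit 0x20006000e00070002000d000c000a0003000a0004000a00090006000e0006) (nat_lit 0xa0045304041090) (nat_lit 16) Lb.e (@T16.mk En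
    (@En.n l30957 (nat_lit 6038) (nat_lit 4) (nat_lit 6))
    (@En.n l21120 (nat_lit 5741) (nat_lit 1) (nat_lit 14))
    (@En.i (nat_lit 6894) (nat_lit 2) (nat_lit 6))
    (@En.n l30958 (nat_lit 3432) (nat_lit 3) (nat_lit 9))
    (@En.n l30959 (nat_lit 6289) (nat_lit 4) (nat_lit 10))
    (@En.n l11 (nat_lit 1641) (nat_lit 5) (nat_lit 4))
    (@En.n l30958 (nat_lit 5803) (nat_lit 11) (nat_lit 10))
    (@En.n l30960 (nat_lit 6032) (nat_lit 7) (nat_lit 3))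
    (@En.n l77 (nat_lit 2098) (nat_lit 9) (nat_lit 10))
    (@En.n l55 (nat_lit 6031) (nat_lit 10) (nat_lit 12))
    (@En.n l30961 (nat_lit 9904) (nat_lit 11) (nat_lit 13))
    (@En.n l3 (nat_lit 6033) (nat_lit 11) (nat_lit 2))
    (@En.n l4153 (nat_lit 6036) (nat_lit 13) (nat_lit 7))
    (@En.n l922 (nat_lit 6051) (nat_lit 1) (nat_lit 14))
    (@En.n l4155 (nat_lit 8690) (nat_lit 2) (nat_lit 6))
    (@En.n l17 (nat_lit 6033) (nat_lit 15) (nat_lit 2))))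
  (@Cl.mk (nat_lit 0x2000700070007000c0008000d0008000400030009000900090008000e0008) (nat_lit 0x435100202495) (nat_lit 16) Lb.e (@T16.mk En
    (@En.n l2947 (nat_lit 6042) (nat_lit 10) (nat_lit 8))
    (@En.n l936 (nat_lit 6468) (nat_lit 1) (nat_lit 14))
    (@En.n l55 (nat_lit 9015) (nat_lit 2) (nat_lit 8))
    (@En.n l29534 (nat_lit 6031) (nat_lit 3) (nat_lit 9))
    (@En.n l3 (nat_lit 7039) (nat_lit 7) (nat_lit 9))
    (@En.n l29535 (nat_lit 9906) (nat_lit 5) (nat_lit 9))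
    (@En.n l50 (nat_lit 6035) (nat_lit 6) (nat_lit 3))
    (@En.n l24550 (nat_lit 5198) (nat_lit 7) (nat_lit 4))
    (@En.n l29535 (nat_lit 5441) (nat_lit 9) (nat_lit 8))
    (@En.n l2953 (nat_lit 2040) (nat_lit 10) (nat_lit 13))
    (@En.n l29536 (nat_lit 1577) (nat_lit 11) (nat_lit 8))
    (@En.n l29537 (nat_lit 9331) (nat_lit 12) (nat_lit 12))
    (@En.n l29538 (nat_lit 6480) (nat_lit 13) (nat_lit 7))
    (@En.n l29539 (nat_lit 8174) (nat_lit 14) (nat_lit 7))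
    (@En.n l2947 (nat_lit 8497) (nat_lit 7) (nat_lit 7))
    (@En.n l17 (nat_lit 6034) (nat_lit 15) (nat_lit 2))))
  (@Cl.mk (nat_lit 0x2000700070007000d0008000d0003000900030009000900090008000e0007) (nat_lit 0xa35020102490) (nat_lit 16) Lb.e (@T16.mk En
    (@En.n l2947 (nat_lit 6039) (nat_lit 7) (nat_lit 7))
    (@En.n l936 (nat_lit 6469) (nat_lit 1) (nat_lit 14))
    (@En.n l55 (nat_lit 9026) (nat_lit 2) (nat_lit 8))
    (@En.n l575 (nat_lit 6032) (nat_lit 3) (nat_lit 9))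
    (@En.n l3 (nat_lit 6043) (nat_lit 7) (nat_lit 9))
    (@En.i (nat_lit 5914) (nat_lit 5) (nat_lit 9))
    (@En.i (nat_lit 6034) (nat_lit 6) (nat_lit 3))
    (@En.n l2954 (nat_lit 6497) (nat_lit 0) (nat_lit 9))
    (@En.i (nat_lit 6036) (nat_lit 8) (nat_lit 3))
    (@En.i (nat_lit 2152) (nat_lit 10) (nat_lit 13))
    (@En.n l8429 (nat_lit 1690) (nat_lit 11) (nat_lit 8))
    (@En.n l10028 (nat_lit 8182) (nat_lit 12) (nat_lit 13))
    (@En.n l20593 (nat_lit 6479) (nat_lit 13) (nat_lit 7))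
    (@En.n l8480 (nat_lit 8172) (nat_lit 14) (nat_lit 7))
    (@En.n l2947 (nat_lit 8499) (nat_lit 5) (nat_lit 7))
    (@En.n l17 (nat_lit 6035) (nat_lit 15) (nat_lit 2))))
  (@Cl.mk (nat_lit 0x2000700070007000d000c00090003000900040009000900090007000e0007) (nat_lit 0xb55030102080) (nat_lit 16) Lb.e (@T16.mk En
    (@En.n l32691 (nat_lit 6040) (nat_lit 7) (nat_lit 7))
    (@En.n l936 (nat_lit 6470) (nat_lit 1) (nat_lit 14))
    (@En.i (nat_lit 8977) (nat_lit 2) (nat_lit 7))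
    (@En.n l29534 (nat_lit 6033) (nat_lit 3) (nat_lit 9))
    (@En.n l32692 (nat_lit 7038) (nat_lit 7) (nat_lit 9))
    (@En.n l32693 (nat_lit 5913) (nat_lit 5) (nat_lit 9))
    (@En.n l24550 (nat_lit 1646) (nat_lit 6) (nat_lit 4))
    (@En.n l32694 (nat_lit 5802) (nat_lit 8) (nat_lit 9))
    (@En.n l7 (nat_lit 6035) (nat_lit 8) (nat_lit 3))
    (@En.n l32695 (nat_lit 1907) (nat_lit 10) (nat_lit 9))
    (@En.n l644 (nat_lit 6034) (nat_lit 11) (nat_lit 12))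
    (@En.n l32693 (nat_lit 8181) (nat_lit 12) (nat_lit 13))
    (@En.n l29538 (nat_lit 6478) (nat_lit 13) (nat_lit 7))
    (@En.n l29539 (nat_lit 8173) (nat_lit 14) (nat_lit 7))
    (@En.n l2947 (nat_lit 8501) (nat_lit 5) (nat_lit 7))
    (@En.n l17 (nat_lit 6036) (nat_lit 15) (nat_lit 2))))
  (@Cl.mk (nat_lit 0x2000d0008000c0003000a000a0004000b000a0008000600060005000e0006) (nat_lit 0x648005030300030) (nat_lit 16) Lb.e (@T16.mk En
    (@En.n l9966 (nat_lit 6039) (nat_lit 4) (nat_lit 6))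
    (@En.n l23343 (nat_lit 7753) (nat_lit 1) (nat_lit 14))
    (@En.n l3535 (nat_lit 10258) (nat_lit 2) (nat_lit 5))
    (@En.n l4976 (nat_lit 7412) (nat_lit 10) (nat_lit 6))
    (@En.n l23344 (nat_lit 7768) (nat_lit 4) (nat_lit 6))
    (@En.i (nat_lit 8536) (nat_lit 5) (nat_lit 8))
    (@En.n l870 (nat_lit 7382) (nat_lit 6) (nat_lit 10))
    (@En.n l562 (nat_lit 6287) (nat_lit 8) (nat_lit 11))
    (@En.n l2813 (nat_lit 7240) (nat_lit 8) (nat_lit 4))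
    (@En.n l3536 (nat_lit 6032) (nat_lit 6) (nat_lit 10))
    (@En.n l23345 (nat_lit 7243) (nat_lit 11) (nat_lit 10))
    (@En.n l137 (nat_lit 6038) (nat_lit 11) (nat_lit 3))
    (@En.n l2813 (nat_lit 2545) (nat_lit 0) (nat_lit 12))
    (@En.n l4112 (nat_lit 1520) (nat_lit 14) (nat_lit 8))
    (@En.n l11547 (nat_lit 9883) (nat_lit 2) (nat_lit 13))
    (@En.n l7 (nat_lit 6037) (nat_lit 15) (nat_lit 2))))
  (@Cl.mk (nat_lit 0x2000d000b00090003000a000a0005000b000a0007000600060005000e0006) (nat_lit 0x452035030000030) (nat_lit 16) Lb.e (@T16.mk En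
    (@En.n l50 (nat_lit 6040) (nat_lit 4) (nat_lit 6))
    (@En.n l6557 (nat_lit 7836) (nat_lit 1) (nat_lit 14))
    (@En.n l10783 (nat_lit 10259) (nat_lit 2) (nat_lit 5))
    (@En.n l55 (nat_lit 7411) (nat_lit 10) (nat_lit 6))
    (@En.i (nat_lit 7769) (nat_lit 4) (nat_lit 6))
    (@En.n l6560 (nat_lit 7917) (nat_lit 5) (nat_lit 7))
    (@En.n l217 (nat_lit 7406) (nat_lit 6) (nat_lit 10))
    (@En.n l476 (nat_lit 6286) (nat_lit 8) (nat_lit 11))
    (@En.n l8017 (nat_lit 7133) (nat_lit 8) (nat_lit 5))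
    (@En.n l19703 (nat_lit 6033) (nat_lit 6) (nat_lit 10))
    (@En.n l19704 (nat_lit 7177) (nat_lit 11) (nat_lit 10))
    (@En.n l146 (nat_lit 6037) (nat_lit 11) (nat_lit 3))
    (@En.n l2038 (nat_lit 2096) (nat_lit 0) (nat_lit 9))
    (@En.i (nat_lit 6041) (nat_lit 14) (nat_lit 11))
    (@En.i (nat_lit 7190) (nat_lit 2) (nat_lit 13))
    (@En.n l17 (nat_lit 6038) (nat_lit 15) (nat_lit 2))))
  (@Cl.mk (nat_lit 0x3000900090004000a000a000a000900070007000600060006000d0007000c) (nat_lit 0x130501400000b04) (nat_lit 16) Lb.e (@T16.mk En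
    (@En.i (nat_lit 2474) (nat_lit 0) (nat_lit 12))
    (@En.i (nat_lit 1419) (nat_lit 4) (nat_lit 7))
    (@En.n l19085 (nat_lit 8184) (nat_lit 2) (nat_lit 13))
    (@En.n l11 (nat_lit 6481) (nat_lit 10) (nat_lit 6))
    (@En.n l7893 (nat_lit 7158) (nat_lit 10) (nat_lit 6))
    (@En.i (nat_lit 8756) (nat_lit 5) (nat_lit 6))
    (@En.n l2710 (nat_lit 7153) (nat_lit 9) (nat_lit 7))
    (@En.n l18752 (nat_lit 2317) (nat_lit 7) (nat_lit 7))
    (@En.n l55 (nat_lit 9010) (nat_lit 7) (nat_lit 9))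
    (@En.n l7895 (nat_lit 6037) (nat_lit 6) (nat_lit 10))
    (@En.n l7896 (nat_lit 7040) (nat_lit 6) (nat_lit 10))
    (@En.n l19085 (nat_lit 5916) (nat_lit 12) (nat_lit 10))
    (@En.n l5254 (nat_lit 6891) (nat_lit 13) (nat_lit 4))
    (@En.n l2717 (nat_lit 6035) (nat_lit 7) (nat_lit 9))
    (@En.n l14256 (nat_lit 2597) (nat_lit 1) (nat_lit 9))
    (@En.n l19087 (nat_lit 6040) (nat_lit 15) (nat_lit 3))))
  (@Cl.mk (nat_lit 0x3000900090005000a000a000a000800070007000600060006000d000b0008) (nat_lit 0x340501600000645) (nat_lit 16) Lb.e (@T16.mk En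
    (@En.n l28382 (nat_lit 1906) (nat_lit 0) (nat_lit 8))
    (@En.n l15518 (nat_lit 6042) (nat_lit 5) (nat_lit 11))
    (@En.n l27961 (nat_lit 8183) (nat_lit 2) (nat_lit 13))
    (@En.n l11407 (nat_lit 6196) (nat_lit 10) (nat_lit 6))
    (@En.n l27082 (nat_lit 7161) (nat_lit 10) (nat_lit 6))
    (@En.n l24673 (nat_lit 8759) (nat_lit 5) (nat_lit 6))
    (@En.n l28383 (nat_lit 5314) (nat_lit 9) (nat_lit 7))
    (@En.i (nat_lit 6669) (nat_lit 7) (nat_lit 7))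
    (@En.n l28384 (nat_lit 8940) (nat_lit 8) (nat_lit 8))
    (@En.n l742 (nat_lit 6038) (nat_lit 6) (nat_lit 10))
    (@En.n l28385 (nat_lit 6670) (nat_lit 6) (nat_lit 10))
    (@En.n l27961 (nat_lit 5915) (nat_lit 12) (nat_lit 10))
    (@En.n l28386 (nat_lit 6668) (nat_lit 13) (nat_lit 5))
    (@En.n l28387 (nat_lit 6036) (nat_lit 7) (nat_lit 9))
    (@En.n l24673 (nat_lit 7735) (nat_lit 1) (nat_lit 9))
    (@En.n l13844 (nat_lit 6039) (nat_lit 15) (nat_lit 3))))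
  (@Cl.mk (nat_lit 0x2000b0008000c0009000900050004000b000a0008000700070005000e0006) (nat_lit 0x4580100413000b0) (nat_lit 16) Lb.e (@T16.mk En
    (@En.n l34888 (nat_lit 6042) (nat_lit 7) (nat_lit 6))
    (@En.n l6557 (nat_lit 7837) (nat_lit 1) (nat_lit 14))
    (@En.n l34889 (nat_lit 10260) (nat_lit 2) (nat_lit 5))
    (@En.n l34890 (nat_lit 7738) (nat_lit 9) (nat_lit 7))
    (@En.i (nat_lit 7125) (nat_lit 4) (nat_lit 7))
    (@En.n l34891 (nat_lit 8569) (nat_lit 5) (nat_lit 8))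
    (@En.n l217 (nat_lit 4606) (nat_lit 6) (nat_lit 10))
    (@En.n l34892 (nat_lit 9615) (nat_lit 8) (nat_lit 11))
    (@En.n l681 (nat_lit 6037) (nat_lit 8) (nat_lit 4))
    (@En.n l11010 (nat_lit 7127) (nat_lit 9) (nat_lit 5))
    (@En.n l34893 (nat_lit 6031) (nat_lit 7) (nat_lit 9))
    (@En.n l34892 (nat_lit 7437) (nat_lit 12) (nat_lit 9))
    (@En.n l15520 (nat_lit 2438) (nat_lit 13) (nat_lit 12))
    (@En.n l34894 (nat_lit 1763) (nat_lit 14) (nat_lit 8))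
    (@En.n l7098 (nat_lit 9916) (nat_lit 4) (nat_lit 11))
    (@En.n l17 (nat_lit 6041) (nat_lit 15) (nat_lit 2))))
  (@Cl.mk (nat_lit 0x4000a000a000a000900080008000600060006000b0007000c000800080005) (nat_lit 0x202543000307020) (nat_lit 16) Lb.e (@T16.mk En
    (@En.n l30053 (nat_lit 7130) (nat_lit 0) (nat_lit 5))
    (@En.n l2717 (nat_lit 6034) (nat_lit 8) (nat_lit 8))
    (@En.n l25856 (nat_lit 7440) (nat_lit 1) (nat_lit 8))
    (@En.n l15333 (nat_lit 2460) (nat_lit 2) (nat_lit 12))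
    (@En.n l30054 (nat_lit 1572) (nat_lit 4) (nat_lit 7))
    (@En.n l30055 (nat_lit 9332) (nat_lit 9) (nat_lit 11))
    (@En.n l30056 (nat_lit 6482) (nat_lit 10) (nat_lit 6))
    (@En.n l30057 (nat_lit 7159) (nat_lit 10) (nat_lit 6))
    (@En.i (nat_lit 8754) (nat_lit 8) (nat_lit 6))
    (@En.n l25853 (nat_lit 7154) (nat_lit 8) (nat_lit 8))
    (@En.n l30058 (nat_lit 5313) (nat_lit 8) (nat_lit 8))
    (@En.n l55 (nat_lit 9013) (nat_lit 7) (nat_lit 9))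
    (@En.n l30059 (nat_lit 6041) (nat_lit 6) (nat_lit 10))
    (@En.n l7896 (nat_lit 7041) (nat_lit 6) (nat_lit 10))
    (@En.n l30060 (nat_lit 9616) (nat_lit 11) (nat_lit 10))
    (@En.n l50 (nat_lit 6039) (nat_lit 12) (nat_lit 4))))
  (@Cl.mk (nat_lit 0x20008000d0009000d0003000a0003000900080007000e00060002000e0007) (nat_lit 0x1857020710600c0) (nat_lit 16) Lb.e (@T16.mk En
    (@En.n l97 (nat_lit 6035) (nat_lit 14) (nat_lit 7))
    (@En.n l3866 (nat_lit 9973) (nat_lit 1) (nat_lit 14))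
    (@En.n l17 (nat_lit 6043) (nat_lit 2) (nat_lit 2))
    (@En.i (nat_lit 7040) (nat_lit 3) (nat_lit 6))
    (@En.n l936 (nat_lit 6471) (nat_lit 5) (nat_lit 14))
    (@En.n l55 (nat_lit 8982) (nat_lit 5) (nat_lit 7))
    (@En.i (nat_lit 3433) (nat_lit 6) (nat_lit 8))
    (@En.n l16844 (nat_lit 10223) (nat_lit 4) (nat_lit 9))
    (@En.i (nat_lit 7039) (nat_lit 8) (nat_lit 3))
    (@En.n l1101 (nat_lit 7964) (nat_lit 0) (nat_lit 10))
    (@En.n l4538 (nat_lit 7038) (nat_lit 10) (nat_lit 3))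
    (@En.n l2764 (nat_lit 2049) (nat_lit 12) (nat_lit 13))
    (@En.i (nat_lit 1687) (nat_lit 13) (nat_lit 9))
    (@En.n l5588 (nat_lit 12815) (nat_lit 14) (nat_lit 13))
    (@En.i (nat_lit 1915) (nat_lit 12) (nat_lit 8))
    (@En.n l67 (nat_lit 6043) (nat_lit 15) (nat_lit 2))))
  (@Cl.mk (nat_lit 0x2000600060009000e000c00020008000b00040007000a000a0005000e0008) (nat_lit 0x660170044096) (nat_lit 16) Lb.e (@T16.mk En
    (@En.n l10794 (nat_lit 5769) (nat_lit 6) (nat_lit 8))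
    (@En.n l18 (nat_lit 5757) (nat_lit 1) (nat_lit 14))
    (@En.n l7882 (nat_lit 1433) (nat_lit 2) (nat_lit 5))
    (@En.n l61 (nat_lit 6046) (nat_lit 10) (nat_lit 10))
    (@En.n l19473 (nat_lit 1638) (nat_lit 4) (nat_lit 10))
    (@En.i (nat_lit 12926) (nat_lit 11) (nat_lit 7))
    (@En.n l3858 (nat_lit 6049) (nat_lit 6) (nat_lit 4))
    (@En.n l5929 (nat_lit 938) (nat_lit 7) (nat_lit 11))
    (@En.i (nat_lit 4926) (nat_lit 1) (nat_lit 8))
    (@En.n l28 (nat_lit 6044) (nat_lit 9) (nat_lit 2))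
    (@En.n l26055 (nat_lit 6025) (nat_lit 11) (nat_lit 12))
    (@En.n l1578 (nat_lit 7136) (nat_lit 12) (nat_lit 14))
    (@En.n l2199 (nat_lit 6045) (nat_lit 13) (nat_lit 9))
    (@En.n l5331 (nat_lit 6045) (nat_lit 14) (nat_lit 6))
    (@En.n l6081 (nat_lit 5490) (nat_lit 4) (nat_lit 6))
    (@En.n l3 (nat_lit 6044) (nat_lit 15) (nat_lit 2))))
  (@Cl.mk (nat_lit 0x200060009000e000c00020007000a00040007000e000a00020006000e0009) (nat_lit 0x75600600c500a7) (nat_lit 16) Lb.e (@T16.mk En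
    (@En.n l9922 (nat_lit 5385) (nat_lit 13) (nat_lit 9))
    (@En.n l1578 (nat_lit 932) (nat_lit 7) (nat_lit 14))
    (@En.n l1997 (nat_lit 1429) (nat_lit 2) (nat_lit 6))
    (@En.n l3 (nat_lit 6045) (nat_lit 3) (nat_lit 2))
    (@En.n l649 (nat_lit 6044) (nat_lit 4) (nat_lit 10))
    (@En.n l5366 (nat_lit 4634) (nat_lit 6) (nat_lit 14))
    (@En.n l2568 (nat_lit 12927) (nat_lit 11) (nat_lit 7))
    (@En.n l9809 (nat_lit 6050) (nat_lit 7) (nat_lit 4))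
    (@En.n l1997 (nat_lit 944) (nat_lit 8) (nat_lit 10))
    (@En.n l2036 (nat_lit 4927) (nat_lit 5) (nat_lit 7))
    (@En.n l18 (nat_lit 6045) (nat_lit 10) (nat_lit 2))
    (@En.n l1012 (nat_lit 6024) (nat_lit 12) (nat_lit 12))
    (@En.n l1063 (nat_lit 5384) (nat_lit 9) (nat_lit 14))
    (@En.n l2036 (nat_lit 13561) (nat_lit 9) (nat_lit 9))
    (@En.i (nat_lit 5484) (nat_lit 3) (nat_lit 6))
    (@En.n l28 (nat_lit 6045) (nat_lit 15) (nat_lit 2))))
  (@Cl.mk (nat_lit 0x20009000c00040007000a0004000e00070002000e000600020009000e000c) (nat_lit 0x180030800c00179) (nat_lit 16) Lb.e (@T16.mk En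
    (@En.n l3559 (nat_lit 6028) (nat_lit 13) (nat_lit 12))
    (@En.n l1578 (nat_lit 7141) (nat_lit 1) (nat_lit 14))
    (@En.n l617 (nat_lit 6044) (nat_lit 12) (nat_lit 9))
    (@En.n l17 (nat_lit 6046) (nat_lit 3) (nat_lit 2))
    (@En.i (nat_lit 6044) (nat_lit 14) (nat_lit 6))
    (@En.n l1531 (nat_lit 7504) (nat_lit 1) (nat_lit 14))
    (@En.n l3 (nat_lit 6046) (nat_lit 6) (nat_lit 2))
    (@En.n l2524 (nat_lit 5777) (nat_lit 3) (nat_lit 7))
    (@En.n l3870 (nat_lit 5755) (nat_lit 1) (nat_lit 14))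
    (@En.n l3324 (nat_lit 1787) (nat_lit 5) (nat_lit 4))
    (@En.n l2520 (nat_lit 3455) (nat_lit 11) (nat_lit 10))
    (@En.i (nat_lit 12928) (nat_lit 11) (nat_lit 7))
    (@En.n l3858 (nat_lit 6051) (nat_lit 8) (nat_lit 4))
    (@En.n l2544 (nat_lit 942) (nat_lit 6) (nat_lit 12))
    (@En.i (nat_lit 5415) (nat_lit 11) (nat_lit 9))
    (@En.n l28 (nat_lit 6046) (nat_lit 15) (nat_lit 2))))
  (@Cl.mk (nat_lit 0x2000600090004000e000d0002000a00030007000e000a00020006000e000c) (nat_lit 0x60670600c70094) (nat_lit 16) Lb.e (@T16.mk En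
    (@En.n l649 (nat_lit 5975) (nat_lit 13) (nat_lit 12))
    (@En.n l3178 (nat_lit 5988) (nat_lit 8) (nat_lit 14))
    (@En.i (nat_lit 9228) (nat_lit 2) (nat_lit 6))
    (@En.n l17 (nat_lit 6047) (nat_lit 3) (nat_lit 2))
    (@En.n l10916 (nat_lit 5846) (nat_lit 4) (nat_lit 10))
    (@En.n l25368 (nat_lit 4662) (nat_lit 6) (nat_lit 14))
    (@En.i (nat_lit 2044) (nat_lit 2) (nat_lit 7))
    (@En.n l564 (nat_lit 6048) (nat_lit 7) (nat_lit 3))
    (@En.n l2031 (nat_lit 6045) (nat_lit 4) (nat_lit 10))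
    (@En.n l28 (nat_lit 6047) (nat_lit 9) (nat_lit 2))
    (@En.n l287 (nat_lit 6048) (nat_lit 11) (nat_lit 13))
    (@En.n l2034 (nat_lit 6045) (nat_lit 12) (nat_lit 14))
    (@En.n l2221 (nat_lit 6070) (nat_lit 8) (nat_lit 4))
    (@En.i (nat_lit 13276) (nat_lit 9) (nat_lit 9))
    (@En.n l1643 (nat_lit 5410) (nat_lit 4) (nat_lit 6))
    (@En.n l3 (nat_lit 6047) (nat_lit 15) (nat_lit 2))))
noncomputable def a378 : T16 Cl := @T16.mk Cl
  (@Cl.mk (nat_lit 0x2000600090004000d000d0009000300030007000e000a00020007000e000c) (nat_lit 0x60685000c80062) (nat_lit 16) Lb.e (@T16.mk En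
    (@En.n l4130 (nat_lit 5903) (nat_lit 13) (nat_lit 12))
    (@En.n l10505 (nat_lit 1959) (nat_lit 1) (nat_lit 14))
    (@En.i (nat_lit 9233) (nat_lit 2) (nat_lit 7))
    (@En.n l18 (nat_lit 6048) (nat_lit 3) (nat_lit 2))
    (@En.n l5529 (nat_lit 5842) (nat_lit 4) (nat_lit 10))
    (@En.n l11645 (nat_lit 4661) (nat_lit 6) (nat_lit 14))
    (@En.i (nat_lit 5364) (nat_lit 6) (nat_lit 7))
    (@En.n l1722 (nat_lit 6047) (nat_lit 7) (nat_lit 3))
    (@En.n l4088 (nat_lit 6058) (nat_lit 8) (nat_lit 3))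
    (@En.n l387 (nat_lit 4634) (nat_lit 5) (nat_lit 9))
    (@En.n l11646 (nat_lit 6058) (nat_lit 11) (nat_lit 13))
    (@En.i (nat_lit 6050) (nat_lit 12) (nat_lit 13))
    (@En.n l2832 (nat_lit 6064) (nat_lit 8) (nat_lit 4))
    (@En.n l387 (nat_lit 13275) (nat_lit 9) (nat_lit 9))
    (@En.n l513 (nat_lit 5406) (nat_lit 5) (nat_lit 6))
    (@En.n l3 (nat_lit 6048) (nat_lit 15) (nat_lit 2))))
  (@Cl.mk (nat_lit 0x2000600060009000d000c00090003000900040007000a000a0007000e0007) (nat_lit 0x665010052050) (nat_lit 16) Lb.e (@T16.mk En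
    (@En.n l4110 (nat_lit 7749) (nat_lit 7) (nat_lit 7))
    (@En.n l566 (nat_lit 5684) (nat_lit 1) (nat_lit 14))
    (@En.n l18633 (nat_lit 8383) (nat_lit 2) (nat_lit 7))
    (@En.n l217 (nat_lit 6051) (nat_lit 6) (nat_lit 10))
    (@En.n l18633 (nat_lit 6033) (nat_lit 4) (nat_lit 10))
    (@En.i (nat_lit 3110) (nat_lit 5) (nat_lit 7))
    (@En.n l4700 (nat_lit 6025) (nat_lit 6) (nat_lit 4))
    (@En.n l1361 (nat_lit 1737) (nat_lit 0) (nat_lit 9))
    (@En.n l25438 (nat_lit 6053) (nat_lit 8) (nat_lit 3))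
    (@En.n l4739 (nat_lit 1777) (nat_lit 10) (nat_lit 9))
    (@En.n l25439 (nat_lit 6052) (nat_lit 11) (nat_lit 12))
    (@En.n l25440 (nat_lit 9015) (nat_lit 12) (nat_lit 13))
    (@En.n l22537 (nat_lit 6050) (nat_lit 13) (nat_lit 9))
    (@En.n l22538 (nat_lit 6050) (nat_lit 14) (nat_lit 6))
    (@En.n l3231 (nat_lit 8247) (nat_lit 5) (nat_lit 6))
    (@En.n l7 (nat_lit 6049) (nat_lit 15) (nat_lit 2))))
  (@Cl.mk (nat_lit 0x200060009000d000c00080003000800040007000e000a00020008000e0008) (nat_lit 0x75540100a60466) (nat_lit 16) Lb.e (@T16.mk En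
    (@En.n l7432 (nat_lit 7750) (nat_lit 13) (nat_lit 8))
    (@En.n l10505 (nat_lit 5682) (nat_lit 1) (nat_lit 14))
    (@En.i (nat_lit 8384) (nat_lit 2) (nat_lit 8))
    (@En.n l18 (nat_lit 6050) (nat_lit 3) (nat_lit 2))
    (@En.n l22476 (nat_lit 6049) (nat_lit 4) (nat_lit 10))
    (@En.n l22477 (nat_lit 8173) (nat_lit 6) (nat_lit 14))
    (@En.i (nat_lit 3111) (nat_lit 6) (nat_lit 7))
    (@En.n l4367 (nat_lit 6024) (nat_lit 7) (nat_lit 4))
    (@En.i (nat_lit 4931) (nat_lit 4) (nat_lit 8))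
    (@En.n l22478 (nat_lit 6055) (nat_lit 9) (nat_lit 3))
    (@En.n l4370 (nat_lit 1782) (nat_lit 0) (nat_lit 8))
    (@En.n l4466 (nat_lit 6054) (nat_lit 12) (nat_lit 12))
    (@En.n l5450 (nat_lit 9033) (nat_lit 13) (nat_lit 13))
    (@En.n l387 (nat_lit 13641) (nat_lit 9) (nat_lit 9))
    (@En.n l17472 (nat_lit 8245) (nat_lit 4) (nat_lit 6))
    (@En.n l3 (nat_lit 6050) (nat_lit 15) (nat_lit 2))))
  (@Cl.mk (nat_lit 0x20009000d000c000a0003000a00040007000a0006000e00060002000e0006) (nat_lit 0x177501001070090) (nat_lit 16) Lb.e (@T16.mk En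
    (@En.i (nat_lit 6049) (nat_lit 14) (nat_lit 6))
    (@En.n l542 (nat_lit 12129) (nat_lit 1) (nat_lit 14))
    (@En.n l7 (nat_lit 6051) (nat_lit 2) (nat_lit 2))
    (@En.n l28 (nat_lit 7836) (nat_lit 3) (nat_lit 6))
    (@En.n l566 (nat_lit 5689) (nat_lit 5) (nat_lit 14))
    (@En.n l1038 (nat_lit 8217) (nat_lit 5) (nat_lit 6))
    (@En.i (nat_lit 3431) (nat_lit 3) (nat_lit 10))
    (@En.i (nat_lit 3112) (nat_lit 7) (nat_lit 7))
    (@En.i (nat_lit 6028) (nat_lit 8) (nat_lit 4))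
    (@En.n l1173 (nat_lit 5416) (nat_lit 10) (nat_lit 10))
    (@En.n l1424 (nat_lit 6057) (nat_lit 10) (nat_lit 3))
    (@En.i (nat_lit 1783) (nat_lit 0) (nat_lit 10))
    (@En.n l4376 (nat_lit 6056) (nat_lit 13) (nat_lit 12))
    (@En.n l11746 (nat_lit 9016) (nat_lit 14) (nat_lit 13))
    (@En.n l1738 (nat_lit 6049) (nat_lit 12) (nat_lit 9))
    (@En.n l18 (nat_lit 6051) (nat_lit 15) (nat_lit 2))))
  (@Cl.mk (nat_lit 0x2000600060009000c0008000d0008000400030007000a000a0008000e0008) (nat_lit 0x548100042490) (nat_lit 16) Lb.e (@T16.mk En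
    (@En.n l26061 (nat_lit 7744) (nat_lit 10) (nat_lit 8))
    (@En.n l26062 (nat_lit 5686) (nat_lit 1) (nat_lit 14))
    (@En.n l5330 (nat_lit 8227) (nat_lit 2) (nat_lit 8))
    (@En.n l26063 (nat_lit 6056) (nat_lit 6) (nat_lit 10))
    (@En.n l5330 (nat_lit 6031) (nat_lit 4) (nat_lit 10))
    (@En.n l26064 (nat_lit 6049) (nat_lit 5) (nat_lit 7))
    (@En.n l26065 (nat_lit 6053) (nat_lit 6) (nat_lit 3))
    (@En.i (nat_lit 6023) (nat_lit 7) (nat_lit 4))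
    (@En.n l26066 (nat_lit 1734) (nat_lit 9) (nat_lit 8))
    (@En.n l26067 (nat_lit 761) (nat_lit 10) (nat_lit 13))
    (@En.n l5592 (nat_lit 1432) (nat_lit 11) (nat_lit 8))
    (@En.n l1643 (nat_lit 10036) (nat_lit 12) (nat_lit 12))
    (@En.n l3 (nat_lit 6054) (nat_lit 13) (nat_lit 9))
    (@En.n l527 (nat_lit 6054) (nat_lit 14) (nat_lit 6))
    (@En.i (nat_lit 8248) (nat_lit 7) (nat_lit 6))
    (@En.n l7 (nat_lit 6052) (nat_lit 15) (nat_lit 2))))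
  (@Cl.mk (nat_lit 0x2000600060009000d0008000d0003000900030007000a000a0008000e0007) (nat_lit 0x748000052450) (nat_lit 16) Lb.e (@T16.mk En
    (@En.n l2947 (nat_lit 7751) (nat_lit 7) (nat_lit 7))
    (@En.n l19371 (nat_lit 5685) (nat_lit 1) (nat_lit 14))
    (@En.n l19372 (nat_lit 8351) (nat_lit 2) (nat_lit 8))
    (@En.n l19373 (nat_lit 6057) (nat_lit 6) (nat_lit 10))
    (@En.n l245 (nat_lit 6032) (nat_lit 4) (nat_lit 10))
    (@En.n l19374 (nat_lit 3108) (nat_lit 5) (nat_lit 7))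
    (@En.n l19375 (nat_lit 6052) (nat_lit 6) (nat_lit 3))
    (@En.n l18783 (nat_lit 6511) (nat_lit 0) (nat_lit 9))
    (@En.n l19376 (nat_lit 6049) (nat_lit 8) (nat_lit 3))
    (@En.n l5592 (nat_lit 763) (nat_lit 10) (nat_lit 13))
    (@En.n l16262 (nat_lit 1428) (nat_lit 11) (nat_lit 8))
    (@En.i (nat_lit 9028) (nat_lit 12) (nat_lit 13))
    (@En.n l19377 (nat_lit 6055) (nat_lit 13) (nat_lit 9))
    (@En.n l19378 (nat_lit 6055) (nat_lit 14) (nat_lit 6))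
    (@En.n l2947 (nat_lit 8249) (nat_lit 7) (nat_lit 6))
    (@En.n l17 (nat_lit 6053) (nat_lit 15) (nat_lit 2))))
  (@Cl.mk (nat_lit 0x200060009000c0007000d0007000400030007000e000a00020009000e0009) (nat_lit 0x74070000a505a0) (nat_lit 16) Lb.e (@T16.mk En
    (@En.n l3038 (nat_lit 7748) (nat_lit 13) (nat_lit 9))
    (@En.n l134 (nat_lit 5681) (nat_lit 1) (nat_lit 14))
    (@En.n l5853 (nat_lit 8396) (nat_lit 2) (nat_lit 9))
    (@En.n l107 (nat_lit 6054) (nat_lit 3) (nat_lit 2))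
    (@En.i (nat_lit 6052) (nat_lit 4) (nat_lit 10))
    (@En.n l97 (nat_lit 8174) (nat_lit 6) (nat_lit 14))
    (@En.n l23541 (nat_lit 6050) (nat_lit 6) (nat_lit 7))
    (@En.n l14126 (nat_lit 6055) (nat_lit 7) (nat_lit 3))
    (@En.i (nat_lit 6022) (nat_lit 8) (nat_lit 4))
    (@En.i (nat_lit 1735) (nat_lit 5) (nat_lit 7))
    (@En.n l5853 (nat_lit 762) (nat_lit 7) (nat_lit 13))
    (@En.n l5592 (nat_lit 1431) (nat_lit 12) (nat_lit 7))
    (@En.n l1643 (nat_lit 10118) (nat_lit 13) (nat_lit 12))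
    (@En.n l14502 (nat_lit 13639) (nat_lit 9) (nat_lit 9))
    (@En.i (nat_lit 8244) (nat_lit 6) (nat_lit 6))
    (@En.n l7 (nat_lit 6054) (nat_lit 15) (nat_lit 2))))
  (@Cl.mk (nat_lit 0x200060009000d0007000d0003000800030007000e000a00020009000e0008) (nat_lit 0x76070000c60566) (nat_lit 16) Lb.e (@T16.mk En
    (@En.n l14355 (nat_lit 7752) (nat_lit 13) (nat_lit 8))
    (@En.n l14356 (nat_lit 5683) (nat_lit 1) (nat_lit 14))
    (@En.n l14357 (nat_lit 8410) (nat_lit 2) (nat_lit 9))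
    (@En.n l107 (nat_lit 6055) (nat_lit 3) (nat_lit 2))
    (@En.n l14358 (nat_lit 6053) (nat_lit 4) (nat_lit 10))
    (@En.n l14359 (nat_lit 8172) (nat_lit 6) (nat_lit 14))
    (@En.n l5571 (nat_lit 3105) (nat_lit 6) (nat_lit 7))
    (@En.n l5694 (nat_lit 6054) (nat_lit 7) (nat_lit 3))
    (@En.n l14360 (nat_lit 6510) (nat_lit 0) (nat_lit 8))
    (@En.n l13057 (nat_lit 6050) (nat_lit 9) (nat_lit 3))
    (@En.n l14361 (nat_lit 757) (nat_lit 7) (nat_lit 13))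
    (@En.n l14362 (nat_lit 1427) (nat_lit 12) (nat_lit 7))
    (@En.n l13702 (nat_lit 9031) (nat_lit 13) (nat_lit 13))
    (@En.n l61 (nat_lit 13640) (nat_lit 9) (nat_lit 9))
    (@En.i (nat_lit 8246) (nat_lit 4) (nat_lit 6))
    (@En.n l17 (nat_lit 6055) (nat_lit 15) (nat_lit 2))))
  (@Cl.mk (nat_lit 0x20009000c0009000d0009000400030007000a0007000e00070002000e0006) (nat_lit 0x1657100010800a0) (nat_lit 16) Lb.e (@T16.mk En
    (@En.n l12346 (nat_lit 6052) (nat_lit 14) (nat_lit 6))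
    (@En.n l4133 (nat_lit 12130) (nat_lit 1) (nat_lit 14))
    (@En.n l17 (nat_lit 6056) (nat_lit 2) (nat_lit 2))
    (@En.n l440 (nat_lit 7837) (nat_lit 3) (nat_lit 7))
    (@En.n l159 (nat_lit 5688) (nat_lit 5) (nat_lit 14))
    (@En.n l430 (nat_lit 8216) (nat_lit 5) (nat_lit 7))
    (@En.n l159 (nat_lit 3429) (nat_lit 8) (nat_lit 10))
    (@En.n l443 (nat_lit 6051) (nat_lit 7) (nat_lit 7))
    (@En.n l50 (nat_lit 6057) (nat_lit 8) (nat_lit 3))
    (@En.n l9320 (nat_lit 6026) (nat_lit 0) (nat_lit 4))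
    (@En.n l217 (nat_lit 1736) (nat_lit 11) (nat_lit 9))
    (@En.n l12347 (nat_lit 2047) (nat_lit 12) (nat_lit 13))
    (@En.n l446 (nat_lit 1774) (nat_lit 13) (nat_lit 9))
    (@En.n l2611 (nat_lit 10035) (nat_lit 6) (nat_lit 12))
    (@En.n l12348 (nat_lit 6052) (nat_lit 12) (nat_lit 9))
    (@En.n l3 (nat_lit 6056) (nat_lit 15) (nat_lit 2))))
  (@Cl.mk (nat_lit 0x20009000d0009000d0003000a00030007000a0007000e00060002000e0006) (nat_lit 0x1858000010400a0) (nat_lit 16) Lb.e (@T16.mk En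
    (@En.n l25436 (nat_lit 6053) (nat_lit 14) (nat_lit 6))
    (@En.i (nat_lit 12127) (nat_lit 1) (nat_lit 14))
    (@En.n l17 (nat_lit 6057) (nat_lit 2) (nat_lit 2))
    (@En.n l4571 (nat_lit 7753) (nat_lit 3) (nat_lit 6))
    (@En.n l159 (nat_lit 5687) (nat_lit 5) (nat_lit 14))
    (@En.i (nat_lit 8215) (nat_lit 5) (nat_lit 7))
    (@En.n l159 (nat_lit 3428) (nat_lit 3) (nat_lit 10))
    (@En.n l11740 (nat_lit 3109) (nat_lit 7) (nat_lit 7))
    (@En.i (nat_lit 6056) (nat_lit 8) (nat_lit 3))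
    (@En.n l4466 (nat_lit 6513) (nat_lit 0) (nat_lit 10))
    (@En.n l1497 (nat_lit 6051) (nat_lit 10) (nat_lit 3))
    (@En.n l12265 (nat_lit 2054) (nat_lit 0) (nat_lit 13))
    (@En.n l1517 (nat_lit 1513) (nat_lit 13) (nat_lit 9))
    (@En.n l2611 (nat_lit 10034) (nat_lit 14) (nat_lit 13))
    (@En.n l25437 (nat_lit 6053) (nat_lit 12) (nat_lit 9))
    (@En.n l3 (nat_lit 6057) (nat_lit 15) (nat_lit 2))))
  (@Cl.mk (nat_lit 0x2000600090004000d0008000e000300020007000e000a00020008000e000c) (nat_lit 0x60743000c80562) (nat_lit 16) Lb.e (@T16.mk En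
    (@En.n l77 (nat_lit 6060) (nat_lit 13) (nat_lit 12))
    (@En.n l142 (nat_lit 1960) (nat_lit 10) (nat_lit 14))
    (@En.n l9965 (nat_lit 5675) (nat_lit 2) (nat_lit 8))
    (@En.n l107 (nat_lit 6058) (nat_lit 3) (nat_lit 2))
    (@En.n l11248 (nat_lit 5844) (nat_lit 4) (nat_lit 10))
    (@En.n l4326 (nat_lit 4663) (nat_lit 6) (nat_lit 14))
    (@En.n l9965 (nat_lit 5365) (nat_lit 6) (nat_lit 7))
    (@En.n l17 (nat_lit 6058) (nat_lit 7) (nat_lit 2))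
    (@En.n l11249 (nat_lit 6048) (nat_lit 8) (nat_lit 3))
    (@En.n l1599 (nat_lit 13089) (nat_lit 0) (nat_lit 14))
    (@En.n l9965 (nat_lit 4767) (nat_lit 2) (nat_lit 8))
    (@En.n l11250 (nat_lit 6055) (nat_lit 12) (nat_lit 13))
    (@En.n l142 (nat_lit 6062) (nat_lit 8) (nat_lit 4))
    (@En.n l11251 (nat_lit 13277) (nat_lit 9) (nat_lit 9))
    (@En.n l393 (nat_lit 5412) (nat_lit 6) (nat_lit 6))
    (@En.n l7 (nat_lit 6058) (nat_lit 15) (nat_lit 2))))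
  (@Cl.mk (nat_lit 0x20008000b000b0007000b000b00050005000800050005000d0009000e0003) (nat_lit 0x384012000008640) (nat_lit 16) Lb.e (@T16.mk En
    (@En.n l2869 (nat_lit 5901) (nat_lit 15) (nat_lit 3))
    (@En.i (nat_lit 13093) (nat_lit 0) (nat_lit 14))
    (@En.i (nat_lit 4762) (nat_lit 2) (nat_lit 9))
    (@En.n l1643 (nat_lit 4655) (nat_lit 4) (nat_lit 13))
    (@En.n l11248 (nat_lit 5844) (nat_lit 11) (nat_lit 5))
    (@En.n l28 (nat_lit 6128) (nat_lit 5) (nat_lit 5))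
    (@En.n l3 (nat_lit 6060) (nat_lit 10) (nat_lit 8))
    (@En.n l527 (nat_lit 6060) (nat_lit 11) (nat_lit 5))
    (@En.n l11778 (nat_lit 5628) (nat_lit 8) (nat_lit 5))
    (@En.n l11780 (nat_lit 5895) (nat_lit 10) (nat_lit 11))
    (@En.i (nat_lit 829) (nat_lit 11) (nat_lit 11))
    (@En.n l180 (nat_lit 12193) (nat_lit 12) (nat_lit 7))
    (@En.n l14532 (nat_lit 6061) (nat_lit 5) (nat_lit 11))
    (@En.n l1142 (nat_lit 5835) (nat_lit 7) (nat_lit 11))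
    (@En.i (nat_lit 7561) (nat_lit 14) (nat_lit 8))
    (@En.n l17 (nat_lit 6059) (nat_lit 15) (nat_lit 2))))
  (@Cl.mk (nat_lit 0x20008000c000c0005000800040004000d0008000e000300020008000e000b) (nat_lit 0x5120600654003c9) (nat_lit 16) Lb.e (@T16.mk En
    (@En.i (nat_lit 6059) (nat_lit 13) (nat_lit 11))
    (@En.n l97 (nat_lit 4666) (nat_lit 1) (nat_lit 14))
    (@En.i (nat_lit 7563) (nat_lit 2) (nat_lit 8))
    (@En.n l17 (nat_lit 6060) (nat_lit 3) (nat_lit 2))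
    (@En.n l2869 (nat_lit 5903) (nat_lit 4) (nat_lit 3))
    (@En.i (nat_lit 13091) (nat_lit 0) (nat_lit 14))
    (@En.i (nat_lit 4766) (nat_lit 2) (nat_lit 8))
    (@En.i (nat_lit 7812) (nat_lit 8) (nat_lit 13))
    (@En.i (nat_lit 6058) (nat_lit 12) (nat_lit 4))
    (@En.n l28 (nat_lit 6063) (nat_lit 9) (nat_lit 4))
    (@En.i (nat_lit 13272) (nat_lit 10) (nat_lit 8))
    (@En.i (nat_lit 5631) (nat_lit 7) (nat_lit 5))
    (@En.n l77 (nat_lit 5893) (nat_lit 13) (nat_lit 12))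
    (@En.i (nat_lit 832) (nat_lit 10) (nat_lit 12))
    (@En.i (nat_lit 5678) (nat_lit 11) (nat_lit 8))
    (@En.n l107 (nat_lit 6060) (nat_lit 15) (nat_lit 2))))
  (@Cl.mk (nat_lit 0x2000800060006000d000a000e000300020008000b0006000a000a000e0005) (nat_lit 0x100978006301250) (nat_lit 16) Lb.e (@T16.mk En
    (@En.n l11830 (nat_lit 6059) (nat_lit 8) (nat_lit 5))
    (@En.n l476 (nat_lit 6963) (nat_lit 10) (nat_lit 14))
    (@En.n l4758 (nat_lit 5900) (nat_lit 2) (nat_lit 10))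
    (@En.i (nat_lit 828) (nat_lit 3) (nat_lit 10))
    (@En.n l26320 (nat_lit 8969) (nat_lit 4) (nat_lit 6))
    (@En.n l476 (nat_lit 4756) (nat_lit 7) (nat_lit 11))
    (@En.n l12565 (nat_lit 7562) (nat_lit 6) (nat_lit 8))
    (@En.n l17 (nat_lit 6061) (nat_lit 7) (nat_lit 2))
    (@En.n l26321 (nat_lit 5847) (nat_lit 8) (nat_lit 3))
    (@En.n l476 (nat_lit 13213) (nat_lit 0) (nat_lit 14))
    (@En.n l26322 (nat_lit 4761) (nat_lit 2) (nat_lit 10))
    (@En.n l3902 (nat_lit 7808) (nat_lit 12) (nat_lit 13))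
    (@En.n l26323 (nat_lit 5843) (nat_lit 4) (nat_lit 6))
    (@En.n l1769 (nat_lit 6130) (nat_lit 14) (nat_lit 6))
    (@En.n l11833 (nat_lit 6059) (nat_lit 6) (nat_lit 8))
    (@En.n l11 (nat_lit 6061) (nat_lit 15) (nat_lit 2))))
  (@Cl.mk (nat_lit 0x20008000d000c0007000300070004000d0008000e000300020009000e0009) (nat_lit 0x6420000748007c7) (nat_lit 16) Lb.e (@T16.mk En
    (@En.n l24870 (nat_lit 6141) (nat_lit 13) (nat_lit 9))
    (@En.n l17783 (nat_lit 4669) (nat_lit 1) (nat_lit 14))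
    (@En.n l12127 (nat_lit 9799) (nat_lit 2) (nat_lit 9))
    (@En.n l17 (nat_lit 6062) (nat_lit 3) (nat_lit 2))
    (@En.n l2869 (nat_lit 6064) (nat_lit 4) (nat_lit 3))
    (@En.n l12127 (nat_lit 13964) (nat_lit 0) (nat_lit 14))
    (@En.i (nat_lit 6478) (nat_lit 6) (nat_lit 8))
    (@En.n l4306 (nat_lit 9034) (nat_lit 8) (nat_lit 13))
    (@En.i (nat_lit 6060) (nat_lit 8) (nat_lit 4))
    (@En.n l17785 (nat_lit 5404) (nat_lit 5) (nat_lit 7))
    (@En.n l24871 (nat_lit 6065) (nat_lit 10) (nat_lit 3))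
    (@En.n l14161 (nat_lit 3107) (nat_lit 0) (nat_lit 7))
    (@En.n l77 (nat_lit 6063) (nat_lit 13) (nat_lit 12))
    (@En.i (nat_lit 6282) (nat_lit 10) (nat_lit 13))
    (@En.i (nat_lit 12732) (nat_lit 11) (nat_lit 8))
    (@En.n l107 (nat_lit 6062) (nat_lit 15) (nat_lit 2))))
  (@Cl.mk (nat_lit 0x20008000c0006000d000600040003000d0008000e00030002000a000e000a) (nat_lit 0x6103000758008b7) (nat_lit 16) Lb.e (@T16.mk En
    (@En.i (nat_lit 6128) (nat_lit 13) (nat_lit 10))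
    (@En.n l619 (nat_lit 5642) (nat_lit 1) (nat_lit 14))
    (@En.i (nat_lit 11265) (nat_lit 2) (nat_lit 10))
    (@En.n l17 (nat_lit 6063) (nat_lit 3) (nat_lit 2))
    (@En.n l2869 (nat_lit 6067) (nat_lit 4) (nat_lit 3))
    (@En.i (nat_lit 13985) (nat_lit 0) (nat_lit 14))
    (@En.i (nat_lit 6480) (nat_lit 6) (nat_lit 8))
    (@En.i (nat_lit 11205) (nat_lit 8) (nat_lit 13))
    (@En.i (nat_lit 6065) (nat_lit 8) (nat_lit 3))
    (@En.i (nat_lit 5893) (nat_lit 9) (nat_lit 4))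
    (@En.i (nat_lit 5633) (nat_lit 6) (nat_lit 6))
    (@En.n l3303 (nat_lit 635) (nat_lit 8) (nat_lit 13))
    (@En.n l55 (nat_lit 1313) (nat_lit 13) (nat_lit 6))
    (@En.i (nat_lit 2232) (nat_lit 10) (nat_lit 12))
    (@En.i (nat_lit 12730) (nat_lit 11) (nat_lit 8))
    (@En.n l107 (nat_lit 6063) (nat_lit 15) (nat_lit 2))))
noncomputable def a379 : T16 Cl := @T16.mk Cl
  (@Cl.mk (nat_lit 0x20007000d000c0007000300070004000d000d0009000300030009000e0009) (nat_lit 0xa20000783007a7) (nat_lit 16) Lb.e (@T16.mk En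
    (@En.n l18066 (nat_lit 6139) (nat_lit 12) (nat_lit 9))
    (@En.n l18067 (nat_lit 4667) (nat_lit 1) (nat_lit 14))
    (@En.n l3517 (nat_lit 9800) (nat_lit 2) (nat_lit 9))
    (@En.n l152 (nat_lit 6070) (nat_lit 3) (nat_lit 3))
    (@En.n l1865 (nat_lit 6062) (nat_lit 4) (nat_lit 3))
    (@En.n l97 (nat_lit 8173) (nat_lit 5) (nat_lit 9))
    (@En.n l1867 (nat_lit 6062) (nat_lit 7) (nat_lit 13))
    (@En.n l6777 (nat_lit 9036) (nat_lit 8) (nat_lit 13))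
    (@En.i (nat_lit 5903) (nat_lit 8) (nat_lit 4))
    (@En.n l3971 (nat_lit 5402) (nat_lit 4) (nat_lit 7))
    (@En.n l3473 (nat_lit 6066) (nat_lit 10) (nat_lit 3))
    (@En.n l6140 (nat_lit 3105) (nat_lit 0) (nat_lit 7))
    (@En.n l61 (nat_lit 6067) (nat_lit 13) (nat_lit 12))
    (@En.n l649 (nat_lit 5943) (nat_lit 14) (nat_lit 13))
    (@En.i (nat_lit 12418) (nat_lit 3) (nat_lit 7))
    (@En.n l7 (nat_lit 6064) (nat_lit 15) (nat_lit 2))))
  (@Cl.mk (nat_lit 0x20008000d0006000d000300070003000d0008000e00030002000a000e0009) (nat_lit 0x550300075800697) (nat_lit 16) Lb.e (@T16.mk En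
    (@En.n l17609 (nat_lit 6140) (nat_lit 13) (nat_lit 9))
    (@En.n l14133 (nat_lit 5648) (nat_lit 1) (nat_lit 14))
    (@En.n l1620 (nat_lit 11008) (nat_lit 2) (nat_lit 10))
    (@En.n l17 (nat_lit 6065) (nat_lit 3) (nat_lit 2))
    (@En.n l2869 (nat_lit 6066) (nat_lit 4) (nat_lit 3))
    (@En.n l17610 (nat_lit 13965) (nat_lit 0) (nat_lit 14))
    (@En.n l15163 (nat_lit 6479) (nat_lit 6) (nat_lit 8))
    (@En.n l17611 (nat_lit 11004) (nat_lit 8) (nat_lit 13))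
    (@En.n l7 (nat_lit 6063) (nat_lit 8) (nat_lit 3))
    (@En.n l17612 (nat_lit 6095) (nat_lit 5) (nat_lit 7))
    (@En.n l7 (nat_lit 6062) (nat_lit 10) (nat_lit 3))
    (@En.n l3303 (nat_lit 631) (nat_lit 0) (nat_lit 13))
    (@En.n l17613 (nat_lit 1099) (nat_lit 13) (nat_lit 6))
    (@En.n l7 (nat_lit 5942) (nat_lit 10) (nat_lit 13))
    (@En.n l15163 (nat_lit 11908) (nat_lit 11) (nat_lit 8))
    (@En.n l107 (nat_lit 6065) (nat_lit 15) (nat_lit 2))))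
  (@Cl.mk (nat_lit 0x20007000d0006000d000300070003000d000d000900030003000a000e0009) (nat_lit 0x403000683007b7) (nat_lit 16) Lb.e (@T16.mk En
    (@En.n l7361 (nat_lit 6138) (nat_lit 12) (nat_lit 9))
    (@En.n l1195 (nat_lit 3630) (nat_lit 1) (nat_lit 14))
    (@En.n l476 (nat_lit 11009) (nat_lit 2) (nat_lit 10))
    (@En.n l152 (nat_lit 6068) (nat_lit 3) (nat_lit 3))
    (@En.n l1865 (nat_lit 6065) (nat_lit 4) (nat_lit 3))
    (@En.n l7362 (nat_lit 8172) (nat_lit 5) (nat_lit 9))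
    (@En.n l1867 (nat_lit 6065) (nat_lit 7) (nat_lit 13))
    (@En.n l7363 (nat_lit 11005) (nat_lit 8) (nat_lit 13))
    (@En.n l17 (nat_lit 6067) (nat_lit 8) (nat_lit 3))
    (@En.n l826 (nat_lit 6087) (nat_lit 0) (nat_lit 7))
    (@En.n l17 (nat_lit 6064) (nat_lit 10) (nat_lit 3))
    (@En.n l7364 (nat_lit 634) (nat_lit 0) (nat_lit 13))
    (@En.n l7365 (nat_lit 1098) (nat_lit 13) (nat_lit 6))
    (@En.n l7366 (nat_lit 5939) (nat_lit 14) (nat_lit 13))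
    (@En.i (nat_lit 12423) (nat_lit 3) (nat_lit 7))
    (@En.n l7 (nat_lit 6066) (nat_lit 15) (nat_lit 2))))
  (@Cl.mk (nat_lit 0x20007000c0006000d000600040003000d000d000900030003000a000e000a) (nat_lit 0x103000784008b7) (nat_lit 16) Lb.e (@T16.mk En
    (@En.n l3038 (nat_lit 6071) (nat_lit 12) (nat_lit 10))
    (@En.n l134 (nat_lit 4670) (nat_lit 1) (nat_lit 14))
    (@En.n l476 (nat_lit 11264) (nat_lit 2) (nat_lit 10))
    (@En.n l152 (nat_lit 6069) (nat_lit 3) (nat_lit 3))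
    (@En.n l1865 (nat_lit 6063) (nat_lit 4) (nat_lit 3))
    (@En.n l97 (nat_lit 8174) (nat_lit 5) (nat_lit 9))
    (@En.n l1867 (nat_lit 6063) (nat_lit 7) (nat_lit 13))
    (@En.i (nat_lit 11201) (nat_lit 8) (nat_lit 13))
    (@En.i (nat_lit 6066) (nat_lit 8) (nat_lit 3))
    (@En.i (nat_lit 5894) (nat_lit 9) (nat_lit 4))
    (@En.i (nat_lit 5632) (nat_lit 5) (nat_lit 6))
    (@En.n l14422 (nat_lit 633) (nat_lit 12) (nat_lit 13))
    (@En.n l5592 (nat_lit 1312) (nat_lit 13) (nat_lit 6))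
    (@En.n l649 (nat_lit 2230) (nat_lit 14) (nat_lit 12))
    (@En.i (nat_lit 12203) (nat_lit 5) (nat_lit 7))
    (@En.n l7 (nat_lit 6067) (nat_lit 15) (nat_lit 2))))
  (@Cl.mk (nat_lit 0x20006000d0006000d000300070003000e000d0002000a0003000a000e0009) (nat_lit 0xa03000470706b2) (nat_lit 16) Lb.e (@T16.mk En
    (@En.n l7361 (nat_lit 6172) (nat_lit 11) (nat_lit 9))
    (@En.n l1195 (nat_lit 5649) (nat_lit 12) (nat_lit 14))
    (@En.n l14370 (nat_lit 6607) (nat_lit 2) (nat_lit 10))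
    (@En.n l117 (nat_lit 6066) (nat_lit 3) (nat_lit 3))
    (@En.n l14126 (nat_lit 6055) (nat_lit 4) (nat_lit 10))
    (@En.n l3 (nat_lit 6068) (nat_lit 5) (nat_lit 2))
    (@En.i (nat_lit 6066) (nat_lit 7) (nat_lit 13))
    (@En.n l2578 (nat_lit 11011) (nat_lit 1) (nat_lit 14))
    (@En.n l17 (nat_lit 6069) (nat_lit 8) (nat_lit 3))
    (@En.n l826 (nat_lit 6088) (nat_lit 3) (nat_lit 7))
    (@En.n l17 (nat_lit 6070) (nat_lit 10) (nat_lit 3))
    (@En.n l14370 (nat_lit 632) (nat_lit 0) (nat_lit 13))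
    (@En.n l7365 (nat_lit 379) (nat_lit 13) (nat_lit 6))
    (@En.n l1195 (nat_lit 5941) (nat_lit 8) (nat_lit 13))
    (@En.n l14126 (nat_lit 12422) (nat_lit 8) (nat_lit 6))
    (@En.n l7 (nat_lit 6068) (nat_lit 15) (nat_lit 2))))
  (@Cl.mk (nat_lit 0x20006000c0006000d000600040003000e000d0002000a0003000a000e000a) (nat_lit 0x303000480608b7) (nat_lit 16) Lb.e (@T16.mk En
    (@En.n l3038 (nat_lit 6171) (nat_lit 11) (nat_lit 10))
    (@En.n l134 (nat_lit 5647) (nat_lit 12) (nat_lit 14))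
    (@En.i (nat_lit 6608) (nat_lit 2) (nat_lit 10))
    (@En.n l117 (nat_lit 6067) (nat_lit 3) (nat_lit 3))
    (@En.i (nat_lit 6054) (nat_lit 4) (nat_lit 10))
    (@En.n l3 (nat_lit 6069) (nat_lit 5) (nat_lit 2))
    (@En.i (nat_lit 6067) (nat_lit 7) (nat_lit 13))
    (@En.i (nat_lit 11199) (nat_lit 1) (nat_lit 14))
    (@En.i (nat_lit 6068) (nat_lit 8) (nat_lit 3))
    (@En.i (nat_lit 5896) (nat_lit 9) (nat_lit 4))
    (@En.i (nat_lit 5634) (nat_lit 4) (nat_lit 6))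
    (@En.n l5853 (nat_lit 636) (nat_lit 12) (nat_lit 13))
    (@En.n l5592 (nat_lit 1314) (nat_lit 13) (nat_lit 6))
    (@En.n l2573 (nat_lit 2264) (nat_lit 8) (nat_lit 12))
    (@En.i (nat_lit 12426) (nat_lit 8) (nat_lit 6))
    (@En.n l7 (nat_lit 6069) (nat_lit 15) (nat_lit 2))))
  (@Cl.mk (nat_lit 0x20006000d000c0007000300070004000e000d0002000a00030009000e0009) (nat_lit 0x440000380707a2) (nat_lit 16) Lb.e (@T16.mk En
    (@En.n l18066 (nat_lit 6173) (nat_lit 11) (nat_lit 9))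
    (@En.n l18067 (nat_lit 4668) (nat_lit 12) (nat_lit 14))
    (@En.n l11730 (nat_lit 9376) (nat_lit 2) (nat_lit 9))
    (@En.n l117 (nat_lit 6064) (nat_lit 3) (nat_lit 3))
    (@En.n l6780 (nat_lit 6050) (nat_lit 4) (nat_lit 10))
    (@En.n l3 (nat_lit 6070) (nat_lit 5) (nat_lit 2))
    (@En.i (nat_lit 6064) (nat_lit 7) (nat_lit 13))
    (@En.n l6780 (nat_lit 11028) (nat_lit 8) (nat_lit 14))
    (@En.i (nat_lit 5975) (nat_lit 8) (nat_lit 4))
    (@En.n l3971 (nat_lit 5403) (nat_lit 3) (nat_lit 7))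
    (@En.n l3473 (nat_lit 6068) (nat_lit 10) (nat_lit 3))
    (@En.n l947 (nat_lit 3111) (nat_lit 0) (nat_lit 7))
    (@En.n l61 (nat_lit 6069) (nat_lit 13) (nat_lit 12))
    (@En.n l28524 (nat_lit 5945) (nat_lit 8) (nat_lit 13))
    (@En.i (nat_lit 12419) (nat_lit 8) (nat_lit 6))
    (@En.n l7 (nat_lit 6070) (nat_lit 15) (nat_lit 2))))
  (@Cl.mk (nat_lit 0x30003000b000a000a0006000b0005000c0006000600050004000d000d000a) (nat_lit 0x96701030000894) (nat_lit 16) Lb.e (@T16.mk En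
    (@En.n l619 (nat_lit 7159) (nat_lit 0) (nat_lit 10))
    (@En.n l28221 (nat_lit 6128) (nat_lit 3) (nat_lit 13))
    (@En.n l28222 (nat_lit 11202) (nat_lit 2) (nat_lit 13))
    (@En.n l22540 (nat_lit 6138) (nat_lit 3) (nat_lit 4))
    (@En.i (nat_lit 6114) (nat_lit 4) (nat_lit 5))
    (@En.n l11512 (nat_lit 6067) (nat_lit 10) (nat_lit 6))
    (@En.n l14826 (nat_lit 3246) (nat_lit 6) (nat_lit 6))
    (@En.n l28222 (nat_lit 638) (nat_lit 8) (nat_lit 12))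
    (@En.n l22543 (nat_lit 1139) (nat_lit 8) (nat_lit 5))
    (@En.n l28223 (nat_lit 2226) (nat_lit 10) (nat_lit 11))
    (@En.n l5934 (nat_lit 10531) (nat_lit 11) (nat_lit 6))
    (@En.n l22544 (nat_lit 6129) (nat_lit 6) (nat_lit 10))
    (@En.n l2337 (nat_lit 5654) (nat_lit 13) (nat_lit 10))
    (@En.n l476 (nat_lit 11261) (nat_lit 14) (nat_lit 11))
    (@En.n l152 (nat_lit 6171) (nat_lit 13) (nat_lit 3))
    (@En.n l26403 (nat_lit 6128) (nat_lit 0) (nat_lit 3))))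
  (@Cl.mk (nat_lit 0x200080003000e000900020009000d000c00080003000700040007000e000d) (nat_lit 0x207101b90000081) (nat_lit 16) Lb.e (@T16.mk En
    (@En.n l649 (nat_lit 3255) (nat_lit 6) (nat_lit 13))
    (@En.n l1063 (nat_lit 12507) (nat_lit 7) (nat_lit 14))
    (@En.n l13641 (nat_lit 5128) (nat_lit 2) (nat_lit 7))
    (@En.n l1063 (nat_lit 5866) (nat_lit 3) (nat_lit 4))
    (@En.n l9807 (nat_lit 6078) (nat_lit 4) (nat_lit 7))
    (@En.n l13642 (nat_lit 5651) (nat_lit 5) (nat_lit 3))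
    (@En.i (nat_lit 9320) (nat_lit 0) (nat_lit 8))
    (@En.n l13643 (nat_lit 6073) (nat_lit 8) (nat_lit 12))
    (@En.n l1063 (nat_lit 5645) (nat_lit 9) (nat_lit 13))
    (@En.n l13644 (nat_lit 731) (nat_lit 10) (nat_lit 9))
    (@En.n l28 (nat_lit 6072) (nat_lit 10) (nat_lit 2))
    (@En.n l13645 (nat_lit 3253) (nat_lit 12) (nat_lit 9))
    (@En.n l9809 (nat_lit 6050) (nat_lit 1) (nat_lit 14))
    (@En.n l2221 (nat_lit 3255) (nat_lit 2) (nat_lit 3))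
    (@En.n l9806 (nat_lit 5263) (nat_lit 3) (nat_lit 8))
    (@En.n l3 (nat_lit 6072) (nat_lit 15) (nat_lit 2))))
  (@Cl.mk (nat_lit 0x200090003000e000a00020009000c0007000d0006000400030007000e000d) (nat_lit 0x20b102805000081) (nat_lit 16) Lb.e (@T16.mk En
    (@En.i (nat_lit 3250) (nat_lit 6) (nat_lit 13))
    (@En.i (nat_lit 12506) (nat_lit 7) (nat_lit 14))
    (@En.n l640 (nat_lit 6072) (nat_lit 2) (nat_lit 7))
    (@En.n l18 (nat_lit 5651) (nat_lit 3) (nat_lit 3))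
    (@En.i (nat_lit 5864) (nat_lit 0) (nat_lit 4))
    (@En.i (nat_lit 6074) (nat_lit 5) (nat_lit 6))
    (@En.n l11620 (nat_lit 3514) (nat_lit 7) (nat_lit 13))
    (@En.n l644 (nat_lit 9229) (nat_lit 7) (nat_lit 7))
    (@En.i (nat_lit 5890) (nat_lit 9) (nat_lit 12))
    (@En.n l13098 (nat_lit 728) (nat_lit 10) (nat_lit 9))
    (@En.n l28 (nat_lit 6073) (nat_lit 10) (nat_lit 2))
    (@En.i (nat_lit 3247) (nat_lit 12) (nat_lit 10))
    (@En.n l2568 (nat_lit 6054) (nat_lit 1) (nat_lit 14))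
    (@En.n l117 (nat_lit 3250) (nat_lit 2) (nat_lit 3))
    (@En.i (nat_lit 5215) (nat_lit 3) (nat_lit 9))
    (@En.n l3 (nat_lit 6073) (nat_lit 15) (nat_lit 2))))
  (@Cl.mk (nat_lit 0x200080003000d000a00090003000a000d00080006000300070006000e000d) (nat_lit 0xb1101850000a0) (nat_lit 16) Lb.e (@T16.mk En
    (@En.i (nat_lit 6077) (nat_lit 2) (nat_lit 13))
    (@En.n l15179 (nat_lit 10248) (nat_lit 1) (nat_lit 14))
    (@En.n l26982 (nat_lit 6078) (nat_lit 2) (nat_lit 6))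
    (@En.n l23691 (nat_lit 6268) (nat_lit 3) (nat_lit 7))
    (@En.n l829 (nat_lit 6075) (nat_lit 4) (nat_lit 3))
    (@En.n l7081 (nat_lit 6136) (nat_lit 0) (nat_lit 6))
    (@En.n l6127 (nat_lit 10529) (nat_lit 6) (nat_lit 8))
    (@En.i (nat_lit 5333) (nat_lit 8) (nat_lit 13))
    (@En.n l13098 (nat_lit 573) (nat_lit 9) (nat_lit 10))
    (@En.n l7081 (nat_lit 6328) (nat_lit 9) (nat_lit 3))
    (@En.i (nat_lit 5651) (nat_lit 11) (nat_lit 9))
    (@En.n l11084 (nat_lit 1321) (nat_lit 12) (nat_lit 10))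
    (@En.n l2568 (nat_lit 1735) (nat_lit 13) (nat_lit 13))
    (@En.n l117 (nat_lit 6077) (nat_lit 14) (nat_lit 3))
    (@En.n l23049 (nat_lit 6824) (nat_lit 0) (nat_lit 8))
    (@En.n l3 (nat_lit 6074) (nat_lit 15) (nat_lit 2))))
  (@Cl.mk (nat_lit 0x200070003000d000b00090003000a000d00050009000300070006000e000d) (nat_lit 0xb820340000000) (nat_lit 16) Lb.e (@T16.mk En
    (@En.n l8359 (nat_lit 6076) (nat_lit 2) (nat_lit 13))
    (@En.n l26443 (nat_lit 10247) (nat_lit 1) (nat_lit 14))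
    (@En.n l699 (nat_lit 6080) (nat_lit 2) (nat_lit 6))
    (@En.n l17 (nat_lit 6082) (nat_lit 3) (nat_lit 7))
    (@En.n l13642 (nat_lit 6074) (nat_lit 4) (nat_lit 3))
    (@En.n l14413 (nat_lit 12751) (nat_lit 0) (nat_lit 9))
    (@En.n l8357 (nat_lit 5935) (nat_lit 6) (nat_lit 5))
    (@En.n l1063 (nat_lit 5862) (nat_lit 8) (nat_lit 13))
    (@En.n l26140 (nat_lit 803) (nat_lit 9) (nat_lit 10))
    (@En.n l5985 (nat_lit 6327) (nat_lit 9) (nat_lit 3))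
    (@En.i (nat_lit 6072) (nat_lit 11) (nat_lit 9))
    (@En.n l14412 (nat_lit 4495) (nat_lit 12) (nat_lit 11))
    (@En.n l14413 (nat_lit 4930) (nat_lit 13) (nat_lit 13))
    (@En.n l26444 (nat_lit 6076) (nat_lit 14) (nat_lit 3))
    (@En.n l14414 (nat_lit 6722) (nat_lit 0) (nat_lit 7))
    (@En.n l3 (nat_lit 6075) (nat_lit 15) (nat_lit 2))))
  (@Cl.mk (nat_lit 0x30003000d000b00090003000a000d0005000a000300070006000d000d0006) (nat_lit 0xb8201600000b30) (nat_lit 16) Lb.e (@T16.mk En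
    (@En.n l5909 (nat_lit 6304) (nat_lit 0) (nat_lit 6))
    (@En.n l61 (nat_lit 6234) (nat_lit 3) (nat_lit 13))
    (@En.n l5891 (nat_lit 12028) (nat_lit 8) (nat_lit 13))
    (@En.n l11 (nat_lit 6081) (nat_lit 3) (nat_lit 6))
    (@En.n l55 (nat_lit 5940) (nat_lit 4) (nat_lit 7))
    (@En.n l27030 (nat_lit 6077) (nat_lit 5) (nat_lit 3))
    (@En.n l33863 (nat_lit 12749) (nat_lit 0) (nat_lit 10))
    (@En.n l33864 (nat_lit 5936) (nat_lit 7) (nat_lit 5))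
    (@En.n l14963 (nat_lit 4516) (nat_lit 5) (nat_lit 13))
    (@En.n l2037 (nat_lit 577) (nat_lit 10) (nat_lit 10))
    (@En.n l27031 (nat_lit 6325) (nat_lit 10) (nat_lit 3))
    (@En.n l134 (nat_lit 3255) (nat_lit 0) (nat_lit 9))
    (@En.n l9921 (nat_lit 4496) (nat_lit 13) (nat_lit 11))
    (@En.i (nat_lit 9662) (nat_lit 2) (nat_lit 13))
    (@En.n l33865 (nat_lit 6075) (nat_lit 13) (nat_lit 3))
    (@En.n l18 (nat_lit 6234) (nat_lit 0) (nat_lit 3))))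
  (@Cl.mk (nat_lit 0x30003000d000a00090003000a000d00090006000300070006000d000d0007) (nat_lit 0xb1202600000b30) (nat_lit 16) Lb.e (@T16.mk En
    (@En.n l33777 (nat_lit 7492) (nat_lit 0) (nat_lit 7))
    (@En.n l33778 (nat_lit 6235) (nat_lit 3) (nat_lit 13))
    (@En.n l18436 (nat_lit 12025) (nat_lit 8) (nat_lit 13))
    (@En.n l33779 (nat_lit 6079) (nat_lit 3) (nat_lit 6))
    (@En.n l23691 (nat_lit 5944) (nat_lit 4) (nat_lit 7))
    (@En.n l27719 (nat_lit 6076) (nat_lit 5) (nat_lit 3))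
    (@En.n l7081 (nat_lit 6129) (nat_lit 0) (nat_lit 6))
    (@En.n l5022 (nat_lit 10533) (nat_lit 13) (nat_lit 9))
    (@En.i (nat_lit 5334) (nat_lit 5) (nat_lit 13))
    (@En.n l33780 (nat_lit 576) (nat_lit 10) (nat_lit 10))
    (@En.n l7081 (nat_lit 6326) (nat_lit 10) (nat_lit 3))
    (@En.n l217 (nat_lit 5650) (nat_lit 0) (nat_lit 9))
    (@En.n l11084 (nat_lit 1318) (nat_lit 13) (nat_lit 10))
    (@En.n l476 (nat_lit 10360) (nat_lit 2) (nat_lit 13))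
    (@En.n l152 (nat_lit 6074) (nat_lit 13) (nat_lit 3))
    (@En.n l33781 (nat_lit 6235) (nat_lit 0) (nat_lit 3))))
  (@Cl.mk (nat_lit 0x200070003000d0009000d0003000a0003000d0009000700030006000e000d) (nat_lit 0x9110209000050) (nat_lit 16) Lb.e (@T16.mk En
    (@En.n l55 (nat_lit 6079) (nat_lit 2) (nat_lit 13))
    (@En.n l10968 (nat_lit 8743) (nat_lit 1) (nat_lit 14))
    (@En.n l2436 (nat_lit 6428) (nat_lit 2) (nat_lit 6))
    (@En.n l13304 (nat_lit 6080) (nat_lit 3) (nat_lit 3))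
    (@En.n l2243 (nat_lit 6135) (nat_lit 0) (nat_lit 7))
    (@En.n l13305 (nat_lit 10524) (nat_lit 5) (nat_lit 9))
    (@En.n l9212 (nat_lit 6074) (nat_lit 7) (nat_lit 13))
    (@En.n l2243 (nat_lit 6084) (nat_lit 7) (nat_lit 3))
    (@En.i (nat_lit 578) (nat_lit 9) (nat_lit 10))
    (@En.n l2243 (nat_lit 6332) (nat_lit 9) (nat_lit 3))
    (@En.n l2227 (nat_lit 3574) (nat_lit 11) (nat_lit 13))
    (@En.n l2727 (nat_lit 1325) (nat_lit 12) (nat_lit 9))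
    (@En.n l2436 (nat_lit 4931) (nat_lit 13) (nat_lit 13))
    (@En.n l11 (nat_lit 6079) (nat_lit 14) (nat_lit 3))
    (@En.n l13306 (nat_lit 6825) (nat_lit 0) (nat_lit 7))
    (@En.n l11 (nat_lit 6078) (nat_lit 15) (nat_lit 2))))
  (@Cl.mk (nat_lit 0x30003000d0009000d0003000a0003000d000a000700030006000d000d0006) (nat_lit 0x91701070000b00) (nat_lit 16) Lb.e (@T16.mk En
    (@En.n l575 (nat_lit 7495) (nat_lit 0) (nat_lit 6))
    (@En.n l5987 (nat_lit 6228) (nat_lit 3) (nat_lit 13))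
    (@En.n l14740 (nat_lit 10163) (nat_lit 8) (nat_lit 13))
    (@En.n l4946 (nat_lit 6425) (nat_lit 12) (nat_lit 6))
    (@En.n l5989 (nat_lit 6081) (nat_lit 4) (nat_lit 3))
    (@En.n l3423 (nat_lit 6132) (nat_lit 0) (nat_lit 7))
    (@En.n l4973 (nat_lit 6404) (nat_lit 14) (nat_lit 10))
    (@En.n l27005 (nat_lit 6077) (nat_lit 8) (nat_lit 13))
    (@En.n l7293 (nat_lit 6226) (nat_lit 8) (nat_lit 3))
    (@En.i (nat_lit 572) (nat_lit 0) (nat_lit 10))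
    (@En.n l6373 (nat_lit 6238) (nat_lit 10) (nat_lit 3))
    (@En.n l4973 (nat_lit 3577) (nat_lit 0) (nat_lit 13))
    (@En.n l1924 (nat_lit 1322) (nat_lit 13) (nat_lit 9))
    (@En.n l4973 (nat_lit 9666) (nat_lit 9) (nat_lit 13))
    (@En.n l1577 (nat_lit 6078) (nat_lit 13) (nat_lit 3))
    (@En.n l1393 (nat_lit 6228) (nat_lit 0) (nat_lit 3))))
noncomputable def a380 : T16 Cl := @T16.mk Cl
  (@Cl.mk (nat_lit 0x200060003000d000a000d0003000a0003000d0006000a00030006000e000d) (nat_lit 0xb870105000020) (nat_lit 16) Lb.e (@T16.mk En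
    (@En.n l649 (nat_lit 6081) (nat_lit 2) (nat_lit 13))
    (@En.n l3178 (nat_lit 8742) (nat_lit 1) (nat_lit 14))
    (@En.i (nat_lit 2257) (nat_lit 2) (nat_lit 6))
    (@En.n l9807 (nat_lit 6078) (nat_lit 3) (nat_lit 3))
    (@En.n l11611 (nat_lit 9221) (nat_lit 0) (nat_lit 10))
    (@En.i (nat_lit 6082) (nat_lit 5) (nat_lit 6))
    (@En.n l5 (nat_lit 6075) (nat_lit 7) (nat_lit 13))
    (@En.n l564 (nat_lit 6083) (nat_lit 7) (nat_lit 3))
    (@En.n l2031 (nat_lit 582) (nat_lit 9) (nat_lit 10))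
    (@En.n l9025 (nat_lit 6333) (nat_lit 9) (nat_lit 3))
    (@En.n l2573 (nat_lit 5124) (nat_lit 11) (nat_lit 13))
    (@En.n l287 (nat_lit 4493) (nat_lit 12) (nat_lit 10))
    (@En.n l2036 (nat_lit 4927) (nat_lit 13) (nat_lit 13))
    (@En.n l2221 (nat_lit 6081) (nat_lit 14) (nat_lit 3))
    (@En.n l1643 (nat_lit 6730) (nat_lit 0) (nat_lit 6))
    (@En.n l3 (nat_lit 6080) (nat_lit 15) (nat_lit 2))))
  (@Cl.mk (nat_lit 0x30003000d000a000d0003000a0003000d0006000b00030006000d000d0005) (nat_lit 0xa7102070000b00) (nat_lit 16) Lb.e (@T16.mk En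
    (@En.n l947 (nat_lit 6302) (nat_lit 0) (nat_lit 5))
    (@En.n l61 (nat_lit 6230) (nat_lit 3) (nat_lit 13))
    (@En.n l5891 (nat_lit 10188) (nat_lit 8) (nat_lit 13))
    (@En.i (nat_lit 2253) (nat_lit 12) (nat_lit 6))
    (@En.n l4019 (nat_lit 6079) (nat_lit 4) (nat_lit 3))
    (@En.n l2869 (nat_lit 12748) (nat_lit 0) (nat_lit 11))
    (@En.i (nat_lit 5940) (nat_lit 6) (nat_lit 6))
    (@En.i (nat_lit 6076) (nat_lit 8) (nat_lit 13))
    (@En.n l117 (nat_lit 6085) (nat_lit 8) (nat_lit 3))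
    (@En.i (nat_lit 580) (nat_lit 0) (nat_lit 10))
    (@En.n l3596 (nat_lit 6322) (nat_lit 10) (nat_lit 3))
    (@En.i (nat_lit 3569) (nat_lit 0) (nat_lit 13))
    (@En.i (nat_lit 4494) (nat_lit 13) (nat_lit 10))
    (@En.i (nat_lit 9661) (nat_lit 9) (nat_lit 13))
    (@En.n l5331 (nat_lit 6080) (nat_lit 13) (nat_lit 3))
    (@En.n l18 (nat_lit 6230) (nat_lit 0) (nat_lit 3))))
  (@Cl.mk (nat_lit 0x200060003000c000a0009000d0004000b00030006000a00070005000e000d) (nat_lit 0x9828040000021) (nat_lit 16) Lb.e (@T16.mk En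
    (@En.n l649 (nat_lit 5940) (nat_lit 2) (nat_lit 13))
    (@En.n l6282 (nat_lit 8744) (nat_lit 1) (nat_lit 14))
    (@En.n l2179 (nat_lit 2258) (nat_lit 2) (nat_lit 5))
    (@En.n l29117 (nat_lit 6172) (nat_lit 3) (nat_lit 7))
    (@En.n l10916 (nat_lit 12421) (nat_lit 4) (nat_lit 10))
    (@En.n l2180 (nat_lit 5934) (nat_lit 12) (nat_lit 6))
    (@En.n l8466 (nat_lit 6240) (nat_lit 6) (nat_lit 3))
    (@En.n l2030 (nat_lit 802) (nat_lit 0) (nat_lit 11))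
    (@En.n l9025 (nat_lit 6335) (nat_lit 8) (nat_lit 4))
    (@En.n l18 (nat_lit 6080) (nat_lit 10) (nat_lit 13))
    (@En.n l29118 (nat_lit 6078) (nat_lit 11) (nat_lit 9))
    (@En.n l29119 (nat_lit 4498) (nat_lit 12) (nat_lit 10))
    (@En.n l2036 (nat_lit 4928) (nat_lit 13) (nat_lit 12))
    (@En.n l2221 (nat_lit 5940) (nat_lit 14) (nat_lit 3))
    (@En.n l1643 (nat_lit 6687) (nat_lit 0) (nat_lit 6))
    (@En.n l3 (nat_lit 6082) (nat_lit 15) (nat_lit 2))))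
  (@Cl.mk (nat_lit 0x200060003000c000a000d000900040003000d0006000a00030007000e000d) (nat_lit 0x6813009000070) (nat_lit 16) Lb.e (@T16.mk En
    (@En.n l4130 (nat_lit 6085) (nat_lit 2) (nat_lit 13))
    (@En.n l10505 (nat_lit 8739) (nat_lit 1) (nat_lit 14))
    (@En.i (nat_lit 2323) (nat_lit 2) (nat_lit 7))
    (@En.n l4033 (nat_lit 6084) (nat_lit 3) (nat_lit 3))
    (@En.i (nat_lit 12755) (nat_lit 4) (nat_lit 10))
    (@En.n l25374 (nat_lit 6240) (nat_lit 5) (nat_lit 6))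
    (@En.n l25375 (nat_lit 5572) (nat_lit 7) (nat_lit 13))
    (@En.n l1722 (nat_lit 6080) (nat_lit 7) (nat_lit 3))
    (@En.n l1386 (nat_lit 4080) (nat_lit 8) (nat_lit 4))
    (@En.n l725 (nat_lit 6075) (nat_lit 10) (nat_lit 9))
    (@En.n l4365 (nat_lit 3573) (nat_lit 11) (nat_lit 13))
    (@En.n l11416 (nat_lit 4492) (nat_lit 12) (nat_lit 10))
    (@En.i (nat_lit 9912) (nat_lit 13) (nat_lit 12))
    (@En.n l2832 (nat_lit 6085) (nat_lit 14) (nat_lit 3))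
    (@En.n l513 (nat_lit 6685) (nat_lit 0) (nat_lit 6))
    (@En.n l3 (nat_lit 6083) (nat_lit 15) (nat_lit 2))))
  (@Cl.mk (nat_lit 0x200070003000c0009000d000900040003000d0009000700030007000e000d) (nat_lit 0x6672009000070) (nat_lit 16) Lb.e (@T16.mk En
    (@En.n l13307 (nat_lit 6226) (nat_lit 2) (nat_lit 13))
    (@En.n l5237 (nat_lit 8740) (nat_lit 1) (nat_lit 14))
    (@En.n l13308 (nat_lit 6241) (nat_lit 2) (nat_lit 7))
    (@En.n l13309 (nat_lit 6083) (nat_lit 3) (nat_lit 3))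
    (@En.i (nat_lit 6137) (nat_lit 0) (nat_lit 7))
    (@En.n l11155 (nat_lit 10525) (nat_lit 5) (nat_lit 9))
    (@En.n l13310 (nat_lit 5342) (nat_lit 7) (nat_lit 13))
    (@En.n l3917 (nat_lit 6078) (nat_lit 7) (nat_lit 3))
    (@En.i (nat_lit 4079) (nat_lit 8) (nat_lit 4))
    (@En.n l13311 (nat_lit 6074) (nat_lit 10) (nat_lit 9))
    (@En.n l13312 (nat_lit 4113) (nat_lit 11) (nat_lit 13))
    (@En.i (nat_lit 4490) (nat_lit 12) (nat_lit 9))
    (@En.i (nat_lit 9913) (nat_lit 13) (nat_lit 12))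
    (@En.n l13313 (nat_lit 6226) (nat_lit 14) (nat_lit 3))
    (@En.n l13314 (nat_lit 6828) (nat_lit 0) (nat_lit 7))
    (@En.n l3 (nat_lit 6084) (nat_lit 15) (nat_lit 2))))
  (@Cl.mk (nat_lit 0x30003000c000a000d000900040003000d0006000b00030007000d000d0005) (nat_lit 0x67730050000b00) (nat_lit 16) Lb.e (@T16.mk En
    (@En.i (nat_lit 6303) (nat_lit 0) (nat_lit 5))
    (@En.n l61 (nat_lit 6229) (nat_lit 3) (nat_lit 13))
    (@En.n l649 (nat_lit 8745) (nat_lit 2) (nat_lit 13))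
    (@En.i (nat_lit 2262) (nat_lit 3) (nat_lit 7))
    (@En.i (nat_lit 6226) (nat_lit 4) (nat_lit 3))
    (@En.i (nat_lit 12756) (nat_lit 0) (nat_lit 11))
    (@En.i (nat_lit 6233) (nat_lit 6) (nat_lit 6))
    (@En.i (nat_lit 5570) (nat_lit 8) (nat_lit 13))
    (@En.n l152 (nat_lit 6081) (nat_lit 8) (nat_lit 3))
    (@En.n l1865 (nat_lit 4076) (nat_lit 0) (nat_lit 4))
    (@En.n l619 (nat_lit 6076) (nat_lit 11) (nat_lit 9))
    (@En.i (nat_lit 3576) (nat_lit 5) (nat_lit 13))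
    (@En.n l1867 (nat_lit 4491) (nat_lit 13) (nat_lit 10))
    (@En.i (nat_lit 10053) (nat_lit 9) (nat_lit 12))
    (@En.n l3519 (nat_lit 6083) (nat_lit 13) (nat_lit 3))
    (@En.n l18 (nat_lit 6229) (nat_lit 0) (nat_lit 3))))
  (@Cl.mk (nat_lit 0x2000800030008000c00090009000d000400080003000800070007000e000d) (nat_lit 0x2913700020021) (nat_lit 16) Lb.e (@T16.mk En
    (@En.n l19006 (nat_lit 6014) (nat_lit 2) (nat_lit 13))
    (@En.n l26445 (nat_lit 9160) (nat_lit 1) (nat_lit 14))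
    (@En.n l15919 (nat_lit 5455) (nat_lit 2) (nat_lit 7))
    (@En.n l15912 (nat_lit 6075) (nat_lit 3) (nat_lit 7))
    (@En.n l142 (nat_lit 3006) (nat_lit 4) (nat_lit 8))
    (@En.n l5654 (nat_lit 6096) (nat_lit 5) (nat_lit 3))
    (@En.n l26446 (nat_lit 11633) (nat_lit 0) (nat_lit 8))
    (@En.n l77 (nat_lit 5636) (nat_lit 7) (nat_lit 4))
    (@En.n l15910 (nat_lit 5403) (nat_lit 9) (nat_lit 13))
    (@En.n l15911 (nat_lit 6088) (nat_lit 10) (nat_lit 9))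
    (@En.n l26447 (nat_lit 3253) (nat_lit 11) (nat_lit 9))
    (@En.n l5654 (nat_lit 2960) (nat_lit 12) (nat_lit 12))
    (@En.n l26448 (nat_lit 2808) (nat_lit 13) (nat_lit 8))
    (@En.n l26449 (nat_lit 6014) (nat_lit 14) (nat_lit 3))
    (@En.n l26450 (nat_lit 6518) (nat_lit 0) (nat_lit 8))
    (@En.n l3 (nat_lit 6086) (nat_lit 15) (nat_lit 2))))
  (@Cl.mk (nat_lit 0x2000d000d0008000300030009000d0009000d0003000800030007000e0007) (nat_lit 0x6824000070) (nat_lit 16) Lb.e (@T16.mk En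
    (@En.n l18063 (nat_lit 6014) (nat_lit 4) (nat_lit 7))
    (@En.n l226 (nat_lit 894) (nat_lit 1) (nat_lit 14))
    (@En.n l5592 (nat_lit 1205) (nat_lit 2) (nat_lit 7))
    (@En.n l828 (nat_lit 6092) (nat_lit 3) (nat_lit 3))
    (@En.i (nat_lit 11640) (nat_lit 0) (nat_lit 8))
    (@En.n l7 (nat_lit 6091) (nat_lit 5) (nat_lit 3))
    (@En.n l1415 (nat_lit 4117) (nat_lit 0) (nat_lit 13))
    (@En.i (nat_lit 6097) (nat_lit 12) (nat_lit 9))
    (@En.n l828 (nat_lit 5332) (nat_lit 9) (nat_lit 13))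
    (@En.n l18064 (nat_lit 12483) (nat_lit 10) (nat_lit 9))
    (@En.n l152 (nat_lit 6088) (nat_lit 13) (nat_lit 3))
    (@En.n l1865 (nat_lit 6095) (nat_lit 0) (nat_lit 3))
    (@En.n l97 (nat_lit 6500) (nat_lit 0) (nat_lit 8))
    (@En.n l1867 (nat_lit 6095) (nat_lit 3) (nat_lit 13))
    (@En.n l18065 (nat_lit 10321) (nat_lit 2) (nat_lit 13))
    (@En.n l17 (nat_lit 6087) (nat_lit 15) (nat_lit 2))))
  (@Cl.mk (nat_lit 0x2000900030009000d0009000d0003000700030007000e00070002000e000d) (nat_lit 0x6822000070001) (nat_lit 16) Lb.e (@T16.mk En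
    (@En.i (nat_lit 6087) (nat_lit 14) (nat_lit 13))
    (@En.n l5559 (nat_lit 12466) (nat_lit 1) (nat_lit 14))
    (@En.n l17 (nat_lit 6088) (nat_lit 2) (nat_lit 2))
    (@En.n l6980 (nat_lit 6086) (nat_lit 3) (nat_lit 7))
    (@En.n l2566 (nat_lit 896) (nat_lit 5) (nat_lit 14))
    (@En.n l5592 (nat_lit 1208) (nat_lit 5) (nat_lit 7))
    (@En.n l828 (nat_lit 6089) (nat_lit 6) (nat_lit 3))
    (@En.i (nat_lit 11636) (nat_lit 0) (nat_lit 7))
    (@En.n l7 (nat_lit 6090) (nat_lit 8) (nat_lit 3))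
    (@En.n l828 (nat_lit 4114) (nat_lit 0) (nat_lit 13))
    (@En.i (nat_lit 6098) (nat_lit 11) (nat_lit 9))
    (@En.n l828 (nat_lit 5331) (nat_lit 12) (nat_lit 13))
    (@En.n l19004 (nat_lit 2811) (nat_lit 13) (nat_lit 9))
    (@En.n l117 (nat_lit 6087) (nat_lit 10) (nat_lit 3))
    (@En.n l20065 (nat_lit 6510) (nat_lit 12) (nat_lit 9))
    (@En.n l3 (nat_lit 6088) (nat_lit 15) (nat_lit 2))))
  (@Cl.mk (nat_lit 0x2000a00030009000c0009000d0006000400030007000e00070002000e000d) (nat_lit 0x6526000020077) (nat_lit 16) Lb.e (@T16.mk En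
    (@En.i (nat_lit 6092) (nat_lit 14) (nat_lit 13))
    (@En.i (nat_lit 12465) (nat_lit 1) (nat_lit 14))
    (@En.n l17 (nat_lit 6089) (nat_lit 2) (nat_lit 2))
    (@En.i (nat_lit 6096) (nat_lit 3) (nat_lit 7))
    (@En.n l1013 (nat_lit 892) (nat_lit 5) (nat_lit 14))
    (@En.n l11512 (nat_lit 6090) (nat_lit 5) (nat_lit 7))
    (@En.n l27083 (nat_lit 6088) (nat_lit 6) (nat_lit 3))
    (@En.n l28 (nat_lit 5899) (nat_lit 0) (nat_lit 4))
    (@En.n l8898 (nat_lit 6376) (nat_lit 8) (nat_lit 6))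
    (@En.i (nat_lit 3575) (nat_lit 10) (nat_lit 13))
    (@En.n l601 (nat_lit 6115) (nat_lit 11) (nat_lit 9))
    (@En.i (nat_lit 5330) (nat_lit 12) (nat_lit 12))
    (@En.i (nat_lit 2814) (nat_lit 13) (nat_lit 9))
    (@En.n l117 (nat_lit 6092) (nat_lit 10) (nat_lit 3))
    (@En.i (nat_lit 6507) (nat_lit 12) (nat_lit 10))
    (@En.n l3 (nat_lit 6089) (nat_lit 15) (nat_lit 2))))
  (@Cl.mk (nat_lit 0x2000900030009000d000c000a0003000700040007000e00060002000e000d) (nat_lit 0x6768000070006) (nat_lit 16) Lb.e (@T16.mk En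
    (@En.i (nat_lit 6091) (nat_lit 14) (nat_lit 13))
    (@En.i (nat_lit 12464) (nat_lit 1) (nat_lit 14))
    (@En.n l17 (nat_lit 6090) (nat_lit 2) (nat_lit 2))
    (@En.n l4172 (nat_lit 5636) (nat_lit 3) (nat_lit 6))
    (@En.n l2031 (nat_lit 790) (nat_lit 5) (nat_lit 14))
    (@En.n l5592 (nat_lit 1209) (nat_lit 5) (nat_lit 7))
    (@En.n l4172 (nat_lit 5897) (nat_lit 6) (nat_lit 4))
    (@En.i (nat_lit 6374) (nat_lit 7) (nat_lit 7))
    (@En.i (nat_lit 6088) (nat_lit 8) (nat_lit 3))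
    (@En.i (nat_lit 6069) (nat_lit 0) (nat_lit 10))
    (@En.n l3039 (nat_lit 6089) (nat_lit 11) (nat_lit 12))
    (@En.n l134 (nat_lit 5333) (nat_lit 12) (nat_lit 13))
    (@En.i (nat_lit 2809) (nat_lit 13) (nat_lit 9))
    (@En.n l117 (nat_lit 6091) (nat_lit 10) (nat_lit 3))
    (@En.i (nat_lit 6508) (nat_lit 12) (nat_lit 9))
    (@En.n l3 (nat_lit 6090) (nat_lit 15) (nat_lit 2))))
  (@Cl.mk (nat_lit 0x2000d000d0008000300030009000d000c000a0003000800040007000e0006) (nat_lit 0x570006738000070) (nat_lit 16) Lb.e (@T16.mk En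
    (@En.n l4172 (nat_lit 5635) (nat_lit 4) (nat_lit 6))
    (@En.n l226 (nat_lit 786) (nat_lit 1) (nat_lit 14))
    (@En.n l5592 (nat_lit 1203) (nat_lit 11) (nat_lit 7))
    (@En.n l4172 (nat_lit 5892) (nat_lit 3) (nat_lit 4))
    (@En.i (nat_lit 12201) (nat_lit 4) (nat_lit 8))
    (@En.i (nat_lit 6087) (nat_lit 5) (nat_lit 3))
    (@En.i (nat_lit 6067) (nat_lit 0) (nat_lit 10))
    (@En.n l3039 (nat_lit 6092) (nat_lit 8) (nat_lit 12))
    (@En.n l134 (nat_lit 5334) (nat_lit 9) (nat_lit 13))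
    (@En.n l476 (nat_lit 12481) (nat_lit 10) (nat_lit 9))
    (@En.n l152 (nat_lit 6090) (nat_lit 13) (nat_lit 3))
    (@En.n l1865 (nat_lit 6093) (nat_lit 0) (nat_lit 3))
    (@En.n l97 (nat_lit 6498) (nat_lit 0) (nat_lit 8))
    (@En.n l1867 (nat_lit 6093) (nat_lit 3) (nat_lit 13))
    (@En.i (nat_lit 10318) (nat_lit 2) (nat_lit 13))
    (@En.n l17 (nat_lit 6091) (nat_lit 15) (nat_lit 2))))
  (@Cl.mk (nat_lit 0x2000d000d0009000300030009000c0009000d0007000400030007000e0007) (nat_lit 0x680006224000020) (nat_lit 16) Lb.e (@T16.mk En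
    (@En.i (nat_lit 6012) (nat_lit 4) (nat_lit 7))
    (@En.i (nat_lit 575) (nat_lit 1) (nat_lit 14))
    (@En.n l11512 (nat_lit 6091) (nat_lit 2) (nat_lit 7))
    (@En.n l27083 (nat_lit 6087) (nat_lit 3) (nat_lit 3))
    (@En.n l28 (nat_lit 5898) (nat_lit 0) (nat_lit 4))
    (@En.n l8898 (nat_lit 12720) (nat_lit 5) (nat_lit 7))
    (@En.i (nat_lit 4115) (nat_lit 7) (nat_lit 13))
    (@En.n l601 (nat_lit 6114) (nat_lit 12) (nat_lit 9))
    (@En.i (nat_lit 5328) (nat_lit 9) (nat_lit 12))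
    (@En.n l476 (nat_lit 12076) (nat_lit 10) (nat_lit 9))
    (@En.n l152 (nat_lit 6089) (nat_lit 13) (nat_lit 3))
    (@En.n l19850 (nat_lit 6094) (nat_lit 0) (nat_lit 3))
    (@En.n l97 (nat_lit 6499) (nat_lit 0) (nat_lit 9))
    (@En.n l28297 (nat_lit 6094) (nat_lit 3) (nat_lit 13))
    (@En.i (nat_lit 10320) (nat_lit 2) (nat_lit 13))
    (@En.n l17 (nat_lit 6092) (nat_lit 15) (nat_lit 2))))
  (@Cl.mk (nat_lit 0x20009000d000c000a0003000900040007000e00060002000d0007000e0003) (nat_lit 0x673806007006040) (nat_lit 16) Lb.e (@T16.mk En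
    (@En.n l2869 (nat_lit 6091) (nat_lit 11) (nat_lit 3))
    (@En.i (nat_lit 13176) (nat_lit 0) (nat_lit 14))
    (@En.i (nat_lit 6493) (nat_lit 14) (nat_lit 7))
    (@En.i (nat_lit 10325) (nat_lit 2) (nat_lit 13))
    (@En.n l7 (nat_lit 6093) (nat_lit 4) (nat_lit 2))
    (@En.n l5246 (nat_lit 5637) (nat_lit 5) (nat_lit 6))
    (@En.n l1643 (nat_lit 789) (nat_lit 7) (nat_lit 14))
    (@En.i (nat_lit 1204) (nat_lit 7) (nat_lit 7))
    (@En.i (nat_lit 5895) (nat_lit 8) (nat_lit 4))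
    (@En.i (nat_lit 12726) (nat_lit 10) (nat_lit 9))
    (@En.i (nat_lit 6095) (nat_lit 10) (nat_lit 3))
    (@En.i (nat_lit 6063) (nat_lit 0) (nat_lit 10))
    (@En.n l180 (nat_lit 6094) (nat_lit 13) (nat_lit 12))
    (@En.n l619 (nat_lit 5335) (nat_lit 9) (nat_lit 13))
    (@En.i (nat_lit 12479) (nat_lit 10) (nat_lit 9))
    (@En.n l17 (nat_lit 6093) (nat_lit 15) (nat_lit 2))))
  (@Cl.mk (nat_lit 0x20009000c0009000d0008000400030007000e00070002000d0008000e0003) (nat_lit 0x622450002007440) (nat_lit 16) Lb.e (@T16.mk En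
    (@En.n l11363 (nat_lit 6092) (nat_lit 11) (nat_lit 3))
    (@En.n l18536 (nat_lit 13178) (nat_lit 0) (nat_lit 14))
    (@En.n l21442 (nat_lit 6492) (nat_lit 2) (nat_lit 8))
    (@En.n l615 (nat_lit 10326) (nat_lit 2) (nat_lit 13))
    (@En.n l7 (nat_lit 6094) (nat_lit 4) (nat_lit 2))
    (@En.n l27120 (nat_lit 6011) (nat_lit 5) (nat_lit 7))
    (@En.n l615 (nat_lit 893) (nat_lit 7) (nat_lit 14))
    (@En.n l159 (nat_lit 6093) (nat_lit 7) (nat_lit 7))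
    (@En.n l11 (nat_lit 6095) (nat_lit 8) (nat_lit 3))
    (@En.n l2691 (nat_lit 5900) (nat_lit 0) (nat_lit 4))
    (@En.n l26238 (nat_lit 12721) (nat_lit 11) (nat_lit 8))
    (@En.n l21442 (nat_lit 4119) (nat_lit 12) (nat_lit 13))
    (@En.i (nat_lit 6116) (nat_lit 13) (nat_lit 9))
    (@En.n l2691 (nat_lit 5329) (nat_lit 14) (nat_lit 12))
    (@En.n l27121 (nat_lit 12074) (nat_lit 10) (nat_lit 9))
    (@En.n l17 (nat_lit 6094) (nat_lit 15) (nat_lit 2))))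
  (@Cl.mk (nat_lit 0x20009000d0009000d0003000900030007000e00070002000d0007000e0003) (nat_lit 0x68240600700b0a0) (nat_lit 16) Lb.e (@T16.mk En
    (@En.n l2869 (nat_lit 6087) (nat_lit 11) (nat_lit 3))
    (@En.n l20916 (nat_lit 13180) (nat_lit 0) (nat_lit 14))
    (@En.i (nat_lit 6494) (nat_lit 14) (nat_lit 7))
    (@En.n l21051 (nat_lit 10324) (nat_lit 2) (nat_lit 13))
    (@En.n l7 (nat_lit 6095) (nat_lit 4) (nat_lit 2))
    (@En.n l21438 (nat_lit 6013) (nat_lit 5) (nat_lit 7))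
    (@En.n l1643 (nat_lit 895) (nat_lit 7) (nat_lit 14))
    (@En.i (nat_lit 1202) (nat_lit 7) (nat_lit 7))
    (@En.i (nat_lit 6094) (nat_lit 8) (nat_lit 3))
    (@En.n l21050 (nat_lit 12837) (nat_lit 0) (nat_lit 9))
    (@En.n l107 (nat_lit 6093) (nat_lit 10) (nat_lit 3))
    (@En.n l33331 (nat_lit 4116) (nat_lit 0) (nat_lit 13))
    (@En.n l21052 (nat_lit 6099) (nat_lit 13) (nat_lit 9))
    (@En.n l33331 (nat_lit 5336) (nat_lit 9) (nat_lit 13))
    (@En.n l21443 (nat_lit 12075) (nat_lit 10) (nat_lit 9))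
    (@En.n l17 (nat_lit 6095) (nat_lit 15) (nat_lit 2))))
noncomputable def a381 : T16 Cl := @T16.mk Cl
  (@Cl.mk (nat_lit 0x2000900030008000b00090009000d000700050003000800070007000e000d) (nat_lit 0x202473700030061) (nat_lit 16) Lb.e (@T16.mk En
    (@En.i (nat_lit 6012) (nat_lit 2) (nat_lit 13))
    (@En.n l7405 (nat_lit 9162) (nat_lit 1) (nat_lit 14))
    (@En.n l26983 (nat_lit 5454) (nat_lit 2) (nat_lit 7))
    (@En.n l26984 (nat_lit 6074) (nat_lit 3) (nat_lit 7))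
    (@En.n l26985 (nat_lit 5636) (nat_lit 4) (nat_lit 8))
    (@En.n l26986 (nat_lit 6086) (nat_lit 5) (nat_lit 3))
    (@En.n l28 (nat_lit 5974) (nat_lit 0) (nat_lit 5))
    (@En.n l26987 (nat_lit 12738) (nat_lit 7) (nat_lit 7))
    (@En.n l2869 (nat_lit 5339) (nat_lit 9) (nat_lit 13))
    (@En.n l61 (nat_lit 6089) (nat_lit 10) (nat_lit 9))
    (@En.n l8515 (nat_lit 5666) (nat_lit 11) (nat_lit 9))
    (@En.i (nat_lit 4486) (nat_lit 7) (nat_lit 11))
    (@En.n l2869 (nat_lit 2824) (nat_lit 13) (nat_lit 8))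
    (@En.n l117 (nat_lit 6012) (nat_lit 14) (nat_lit 3))
    (@En.n l8515 (nat_lit 6517) (nat_lit 0) (nat_lit 9))
    (@En.n l3 (nat_lit 6096) (nat_lit 15) (nat_lit 2))))
  (@Cl.mk (nat_lit 0x30003000a0009000d000a000700030006000d000700060003000d000d0009) (nat_lit 0x81a80006000782) (nat_lit 16) Lb.e (@T16.mk En
    (@En.n l32947 (nat_lit 7816) (nat_lit 0) (nat_lit 9))
    (@En.n l2503 (nat_lit 6099) (nat_lit 3) (nat_lit 13))
    (@En.n l27765 (nat_lit 11767) (nat_lit 10) (nat_lit 13))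
    (@En.n l4322 (nat_lit 6109) (nat_lit 3) (nat_lit 3))
    (@En.i (nat_lit 6091) (nat_lit 0) (nat_lit 6))
    (@En.n l17032 (nat_lit 3249) (nat_lit 5) (nat_lit 7))
    (@En.n l32948 (nat_lit 732) (nat_lit 7) (nat_lit 13))
    (@En.n l5592 (nat_lit 1125) (nat_lit 12) (nat_lit 6))
    (@En.n l31227 (nat_lit 6114) (nat_lit 8) (nat_lit 3))
    (@En.n l4921 (nat_lit 7690) (nat_lit 0) (nat_lit 7))
    (@En.n l7479 (nat_lit 6071) (nat_lit 11) (nat_lit 10))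
    (@En.n l3039 (nat_lit 6142) (nat_lit 12) (nat_lit 13))
    (@En.n l29567 (nat_lit 5659) (nat_lit 13) (nat_lit 9))
    (@En.n l476 (nat_lit 6149) (nat_lit 4) (nat_lit 10))
    (@En.n l152 (nat_lit 6098) (nat_lit 13) (nat_lit 3))
    (@En.n l16716 (nat_lit 6099) (nat_lit 0) (nat_lit 3))))
  (@Cl.mk (nat_lit 0x2000a0003000a0009000d000a000600030006000d000700060003000e000d) (nat_lit 0x206198000600078) (nat_lit 16) Lb.e (@T16.mk En
    (@En.i (nat_lit 6097) (nat_lit 2) (nat_lit 13))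
    (@En.i (nat_lit 11218) (nat_lit 1) (nat_lit 14))
    (@En.n l13051 (nat_lit 6112) (nat_lit 2) (nat_lit 3))
    (@En.i (nat_lit 6090) (nat_lit 3) (nat_lit 6))
    (@En.n l32933 (nat_lit 3253) (nat_lit 4) (nat_lit 7))
    (@En.n l2566 (nat_lit 734) (nat_lit 6) (nat_lit 13))
    (@En.n l5592 (nat_lit 1123) (nat_lit 6) (nat_lit 6))
    (@En.n l31227 (nat_lit 6115) (nat_lit 7) (nat_lit 3))
    (@En.n l2494 (nat_lit 7684) (nat_lit 0) (nat_lit 6))
    (@En.n l7479 (nat_lit 6171) (nat_lit 10) (nat_lit 10))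
    (@En.n l3039 (nat_lit 6143) (nat_lit 11) (nat_lit 13))
    (@En.n l7477 (nat_lit 5658) (nat_lit 12) (nat_lit 9))
    (@En.i (nat_lit 6683) (nat_lit 13) (nat_lit 10))
    (@En.n l117 (nat_lit 6097) (nat_lit 14) (nat_lit 3))
    (@En.i (nat_lit 4657) (nat_lit 0) (nat_lit 10))
    (@En.n l3 (nat_lit 6098) (nat_lit 15) (nat_lit 2))))
  (@Cl.mk (nat_lit 0x2000a0009000d000a000800030006000d000700060003000d0008000e0003) (nat_lit 0x619850060007080) (nat_lit 16) Lb.e (@T16.mk En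
    (@En.n l8806 (nat_lit 6097) (nat_lit 15) (nat_lit 3))
    (@En.n l4569 (nat_lit 13986) (nat_lit 0) (nat_lit 14))
    (@En.n l14754 (nat_lit 6485) (nat_lit 2) (nat_lit 8))
    (@En.n l25675 (nat_lit 10547) (nat_lit 10) (nat_lit 13))
    (@En.i (nat_lit 6107) (nat_lit 4) (nat_lit 3))
    (@En.n l8163 (nat_lit 6093) (nat_lit 5) (nat_lit 6))
    (@En.n l810 (nat_lit 3254) (nat_lit 6) (nat_lit 7))
    (@En.n l1643 (nat_lit 733) (nat_lit 8) (nat_lit 13))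
    (@En.i (nat_lit 1201) (nat_lit 8) (nat_lit 6))
    (@En.n l8163 (nat_lit 6116) (nat_lit 9) (nat_lit 3))
    (@En.n l14754 (nat_lit 8232) (nat_lit 0) (nat_lit 8))
    (@En.n l38498 (nat_lit 6128) (nat_lit 12) (nat_lit 10))
    (@En.n l6072 (nat_lit 6144) (nat_lit 13) (nat_lit 13))
    (@En.n l2038 (nat_lit 5662) (nat_lit 14) (nat_lit 9))
    (@En.i (nat_lit 6148) (nat_lit 4) (nat_lit 10))
    (@En.n l17 (nat_lit 6099) (nat_lit 15) (nat_lit 2))))
  (@Cl.mk (nat_lit 0x20008000d0006000c0003000c000c0004000800040004000d000a000e0003) (nat_lit 0x3a0205106002740) (nat_lit 16) Lb.e (@T16.mk En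
    (@En.n l5385 (nat_lit 4067) (nat_lit 15) (nat_lit 3))
    (@En.i (nat_lit 14003) (nat_lit 0) (nat_lit 14))
    (@En.n l5384 (nat_lit 7003) (nat_lit 2) (nat_lit 10))
    (@En.i (nat_lit 10430) (nat_lit 2) (nat_lit 13))
    (@En.n l19664 (nat_lit 5996) (nat_lit 12) (nat_lit 4))
    (@En.i (nat_lit 6102) (nat_lit 5) (nat_lit 4))
    (@En.n l15655 (nat_lit 4118) (nat_lit 6) (nat_lit 8))
    (@En.n l19665 (nat_lit 6188) (nat_lit 7) (nat_lit 4))
    (@En.n l61 (nat_lit 4066) (nat_lit 9) (nat_lit 12))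
    (@En.n l19666 (nat_lit 6185) (nat_lit 10) (nat_lit 12))
    (@En.n l1496 (nat_lit 6001) (nat_lit 10) (nat_lit 3))
    (@En.n l5205 (nat_lit 3009) (nat_lit 12) (nat_lit 12))
    (@En.n l19666 (nat_lit 8515) (nat_lit 13) (nat_lit 6))
    (@En.n l15647 (nat_lit 3760) (nat_lit 14) (nat_lit 13))
    (@En.n l2611 (nat_lit 8360) (nat_lit 14) (nat_lit 8))
    (@En.n l107 (nat_lit 6100) (nat_lit 15) (nat_lit 2))))
  (@Cl.mk (nat_lit 0x20008000b0006000c000b000b00050004000800050005000d000a000e0003) (nat_lit 0x370141006009040) (nat_lit 16) Lb.e (@T16.mk En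
    (@En.n l34920 (nat_lit 5998) (nat_lit 15) (nat_lit 3))
    (@En.i (nat_lit 13407) (nat_lit 0) (nat_lit 14))
    (@En.n l34921 (nat_lit 7004) (nat_lit 2) (nat_lit 10))
    (@En.n l3348 (nat_lit 10435) (nat_lit 4) (nat_lit 13))
    (@En.n l34922 (nat_lit 5995) (nat_lit 11) (nat_lit 5))
    (@En.n l3348 (nat_lit 6162) (nat_lit 5) (nat_lit 5))
    (@En.n l34923 (nat_lit 6001) (nat_lit 6) (nat_lit 8))
    (@En.n l50 (nat_lit 6100) (nat_lit 7) (nat_lit 4))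
    (@En.n l12683 (nat_lit 3970) (nat_lit 8) (nat_lit 5))
    (@En.n l61 (nat_lit 4065) (nat_lit 10) (nat_lit 11))
    (@En.n l8244 (nat_lit 6183) (nat_lit 11) (nat_lit 11))
    (@En.n l13602 (nat_lit 1212) (nat_lit 12) (nat_lit 12))
    (@En.n l34924 (nat_lit 8516) (nat_lit 13) (nat_lit 6))
    (@En.n l8244 (nat_lit 2646) (nat_lit 7) (nat_lit 11))
    (@En.n l2611 (nat_lit 8366) (nat_lit 14) (nat_lit 8))
    (@En.n l107 (nat_lit 6101) (nat_lit 15) (nat_lit 2))))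
  (@Cl.mk (nat_lit 0x2000a000d0006000b0003000c0006000d000500040003000d000a000e0003) (nat_lit 0x66090a060009060) (nat_lit 16) Lb.e (@T16.mk En
    (@En.n l35449 (nat_lit 6103) (nat_lit 15) (nat_lit 3))
    (@En.i (nat_lit 13993) (nat_lit 0) (nat_lit 14))
    (@En.n l35450 (nat_lit 7000) (nat_lit 2) (nat_lit 10))
    (@En.n l3348 (nat_lit 6225) (nat_lit 2) (nat_lit 13))
    (@En.n l5205 (nat_lit 6117) (nat_lit 4) (nat_lit 3))
    (@En.n l18 (nat_lit 4066) (nat_lit 5) (nat_lit 4))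
    (@En.n l4884 (nat_lit 6183) (nat_lit 6) (nat_lit 5))
    (@En.i (nat_lit 594) (nat_lit 8) (nat_lit 13))
    (@En.n l61 (nat_lit 6104) (nat_lit 8) (nat_lit 6))
    (@En.n l7242 (nat_lit 6169) (nat_lit 10) (nat_lit 12))
    (@En.n l1496 (nat_lit 6106) (nat_lit 10) (nat_lit 3))
    (@En.n l5205 (nat_lit 6410) (nat_lit 0) (nat_lit 11))
    (@En.n l1430 (nat_lit 8521) (nat_lit 13) (nat_lit 6))
    (@En.n l4837 (nat_lit 3891) (nat_lit 14) (nat_lit 13))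
    (@En.n l4887 (nat_lit 6217) (nat_lit 14) (nat_lit 10))
    (@En.n l107 (nat_lit 6102) (nat_lit 15) (nat_lit 2))))
  (@Cl.mk (nat_lit 0x30003000a000d0005000b0003000c0006000d000500040003000d000d000b) (nat_lit 0x7a0905060009a0) (nat_lit 16) Lb.e (@T16.mk En
    (@En.n l6322 (nat_lit 7913) (nat_lit 0) (nat_lit 11))
    (@En.n l19929 (nat_lit 6102) (nat_lit 3) (nat_lit 13))
    (@En.i (nat_lit 6222) (nat_lit 2) (nat_lit 13))
    (@En.n l763 (nat_lit 5663) (nat_lit 3) (nat_lit 3))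
    (@En.i (nat_lit 4061) (nat_lit 0) (nat_lit 4))
    (@En.n l1545 (nat_lit 6178) (nat_lit 5) (nat_lit 5))
    (@En.n l6322 (nat_lit 592) (nat_lit 7) (nat_lit 13))
    (@En.n l19930 (nat_lit 6105) (nat_lit 7) (nat_lit 6))
    (@En.n l28254 (nat_lit 6166) (nat_lit 9) (nat_lit 12))
    (@En.i (nat_lit 6108) (nat_lit 9) (nat_lit 3))
    (@En.n l4322 (nat_lit 6409) (nat_lit 0) (nat_lit 11))
    (@En.i (nat_lit 8546) (nat_lit 7) (nat_lit 5))
    (@En.i (nat_lit 3815) (nat_lit 5) (nat_lit 13))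
    (@En.n l6322 (nat_lit 6216) (nat_lit 14) (nat_lit 10))
    (@En.n l6316 (nat_lit 6157) (nat_lit 13) (nat_lit 3))
    (@En.n l10987 (nat_lit 6102) (nat_lit 0) (nat_lit 3))))
  (@Cl.mk (nat_lit 0x2000a0008000d0007000c00030006000d000400080003000d0009000e0003) (nat_lit 0x7470a0040200060) (nat_lit 16) Lb.e (@T16.mk En
    (@En.n l7706 (nat_lit 6105) (nat_lit 15) (nat_lit 3))
    (@En.i (nat_lit 13999) (nat_lit 0) (nat_lit 14))
    (@En.n l12743 (nat_lit 6484) (nat_lit 2) (nat_lit 9))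
    (@En.n l13103 (nat_lit 10428) (nat_lit 10) (nat_lit 13))
    (@En.n l11711 (nat_lit 6116) (nat_lit 4) (nat_lit 3))
    (@En.n l37751 (nat_lit 5444) (nat_lit 5) (nat_lit 8))
    (@En.n l12045 (nat_lit 6195) (nat_lit 6) (nat_lit 4))
    (@En.i (nat_lit 643) (nat_lit 8) (nat_lit 13))
    (@En.n l37752 (nat_lit 6065) (nat_lit 12) (nat_lit 6))
    (@En.n l11714 (nat_lit 6107) (nat_lit 9) (nat_lit 3))
    (@En.n l37753 (nat_lit 6411) (nat_lit 0) (nat_lit 12))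
    (@En.n l11712 (nat_lit 12106) (nat_lit 12) (nat_lit 7))
    (@En.n l617 (nat_lit 6102) (nat_lit 13) (nat_lit 13))
    (@En.n l17 (nat_lit 6100) (nat_lit 14) (nat_lit 8))
    (@En.n l4870 (nat_lit 6214) (nat_lit 4) (nat_lit 10))
    (@En.n l107 (nat_lit 6104) (nat_lit 15) (nat_lit 2))))
  (@Cl.mk (nat_lit 0x30003000a0008000d0006000c00030006000d000400080003000d000d000a) (nat_lit 0x65b0a004020010) (nat_lit 16) Lb.e (@T16.mk En
    (@En.i (nat_lit 7915) (nat_lit 0) (nat_lit 10))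
    (@En.n l1572 (nat_lit 6104) (nat_lit 3) (nat_lit 13))
    (@En.i (nat_lit 6221) (nat_lit 10) (nat_lit 13))
    (@En.n l14125 (nat_lit 6114) (nat_lit 3) (nat_lit 3))
    (@En.n l18053 (nat_lit 5447) (nat_lit 0) (nat_lit 8))
    (@En.n l24912 (nat_lit 6179) (nat_lit 5) (nat_lit 4))
    (@En.i (nat_lit 642) (nat_lit 7) (nat_lit 13))
    (@En.n l33769 (nat_lit 6066) (nat_lit 12) (nat_lit 6))
    (@En.n l26838 (nat_lit 6109) (nat_lit 8) (nat_lit 3))
    (@En.n l33770 (nat_lit 6412) (nat_lit 0) (nat_lit 12))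
    (@En.n l5732 (nat_lit 9192) (nat_lit 6) (nat_lit 6))
    (@En.n l24915 (nat_lit 6103) (nat_lit 12) (nat_lit 13))
    (@En.n l24916 (nat_lit 4067) (nat_lit 13) (nat_lit 8))
    (@En.n l159 (nat_lit 6213) (nat_lit 4) (nat_lit 10))
    (@En.n l11 (nat_lit 6113) (nat_lit 13) (nat_lit 3))
    (@En.n l2691 (nat_lit 6104) (nat_lit 0) (nat_lit 3))))
  (@Cl.mk (nat_lit 0x2000a000d000a00070003000c0006000d000600040003000d0009000e0003) (nat_lit 0x66800a0600080a0) (nat_lit 16) Lb.e (@T16.mk En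
    (@En.n l14921 (nat_lit 6108) (nat_lit 15) (nat_lit 3))
    (@En.n l1442 (nat_lit 14000) (nat_lit 0) (nat_lit 14))
    (@En.n l2094 (nat_lit 6489) (nat_lit 2) (nat_lit 9))
    (@En.n l564 (nat_lit 10385) (nat_lit 2) (nat_lit 13))
    (@En.n l14133 (nat_lit 6144) (nat_lit 4) (nat_lit 3))
    (@En.i (nat_lit 4064) (nat_lit 5) (nat_lit 4))
    (@En.i (nat_lit 4189) (nat_lit 6) (nat_lit 6))
    (@En.n l1442 (nat_lit 839) (nat_lit 8) (nat_lit 13))
    (@En.n l159 (nat_lit 6107) (nat_lit 8) (nat_lit 6))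
    (@En.n l24623 (nat_lit 6110) (nat_lit 10) (nat_lit 12))
    (@En.n l410 (nat_lit 6102) (nat_lit 10) (nat_lit 3))
    (@En.n l2094 (nat_lit 8233) (nat_lit 12) (nat_lit 7))
    (@En.n l24624 (nat_lit 6162) (nat_lit 13) (nat_lit 10))
    (@En.n l2094 (nat_lit 3879) (nat_lit 5) (nat_lit 13))
    (@En.i (nat_lit 6151) (nat_lit 14) (nat_lit 10))
    (@En.n l17 (nat_lit 6106) (nat_lit 15) (nat_lit 2))))
  (@Cl.mk (nat_lit 0x2000a0008000d000b000800030006000d000500080003000d0008000e0003) (nat_lit 0x647940060200090) (nat_lit 16) Lb.e (@T16.mk En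
    (@En.i (nat_lit 6109) (nat_lit 15) (nat_lit 3))
    (@En.n l4519 (nat_lit 13998) (nat_lit 0) (nat_lit 14))
    (@En.i (nat_lit 6487) (nat_lit 2) (nat_lit 8))
    (@En.n l564 (nat_lit 10381) (nat_lit 10) (nat_lit 13))
    (@En.n l7 (nat_lit 6099) (nat_lit 4) (nat_lit 3))
    (@En.i (nat_lit 5449) (nat_lit 10) (nat_lit 8))
    (@En.n l2678 (nat_lit 4190) (nat_lit 6) (nat_lit 5))
    (@En.n l4519 (nat_lit 653) (nat_lit 8) (nat_lit 13))
    (@En.i (nat_lit 1200) (nat_lit 8) (nat_lit 6))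
    (@En.n l4373 (nat_lit 6104) (nat_lit 9) (nat_lit 3))
    (@En.i (nat_lit 8231) (nat_lit 0) (nat_lit 8))
    (@En.n l22853 (nat_lit 6110) (nat_lit 12) (nat_lit 11))
    (@En.n l180 (nat_lit 6106) (nat_lit 13) (nat_lit 13))
    (@En.n l619 (nat_lit 6001) (nat_lit 14) (nat_lit 8))
    (@En.i (nat_lit 6155) (nat_lit 4) (nat_lit 10))
    (@En.n l17 (nat_lit 6107) (nat_lit 15) (nat_lit 2))))
  (@Cl.mk (nat_lit 0x30003000a000d000a00060003000c0006000d000600040003000d000d000a) (nat_lit 0x66800506000792) (nat_lit 16) Lb.e (@T16.mk En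
    (@En.n l11666 (nat_lit 7815) (nat_lit 0) (nat_lit 10))
    (@En.n l17264 (nat_lit 6106) (nat_lit 3) (nat_lit 13))
    (@En.n l17265 (nat_lit 10384) (nat_lit 2) (nat_lit 13))
    (@En.n l763 (nat_lit 6142) (nat_lit 3) (nat_lit 3))
    (@En.i (nat_lit 4062) (nat_lit 0) (nat_lit 4))
    (@En.n l1545 (nat_lit 4187) (nat_lit 5) (nat_lit 6))
    (@En.n l6322 (nat_lit 842) (nat_lit 7) (nat_lit 13))
    (@En.n l17266 (nat_lit 6109) (nat_lit 7) (nat_lit 6))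
    (@En.n l17267 (nat_lit 6111) (nat_lit 9) (nat_lit 12))
    (@En.n l28 (nat_lit 6103) (nat_lit 9) (nat_lit 3))
    (@En.n l12617 (nat_lit 7691) (nat_lit 0) (nat_lit 6))
    (@En.n l17268 (nat_lit 6159) (nat_lit 12) (nat_lit 10))
    (@En.i (nat_lit 3874) (nat_lit 5) (nat_lit 13))
    (@En.n l6322 (nat_lit 6152) (nat_lit 14) (nat_lit 10))
    (@En.n l6316 (nat_lit 6156) (nat_lit 13) (nat_lit 3))
    (@En.n l17269 (nat_lit 6106) (nat_lit 0) (nat_lit 3))))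
  (@Cl.mk (nat_lit 0x30003000a0008000d000b000700030006000d000500080003000d000d0009) (nat_lit 0x73790005020012) (nat_lit 16) Lb.e (@T16.mk En
    (@En.n l16043 (nat_lit 7817) (nat_lit 0) (nat_lit 9))
    (@En.n l61 (nat_lit 6107) (nat_lit 3) (nat_lit 13))
    (@En.n l564 (nat_lit 10382) (nat_lit 10) (nat_lit 13))
    (@En.n l3011 (nat_lit 6097) (nat_lit 3) (nat_lit 3))
    (@En.n l13442 (nat_lit 5446) (nat_lit 10) (nat_lit 8))
    (@En.n l2678 (nat_lit 2361) (nat_lit 5) (nat_lit 5))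
    (@En.n l16043 (nat_lit 645) (nat_lit 7) (nat_lit 13))
    (@En.n l2653 (nat_lit 1126) (nat_lit 12) (nat_lit 6))
    (@En.n l32943 (nat_lit 6105) (nat_lit 8) (nat_lit 3))
    (@En.i (nat_lit 7692) (nat_lit 0) (nat_lit 7))
    (@En.n l27931 (nat_lit 6111) (nat_lit 11) (nat_lit 11))
    (@En.n l32944 (nat_lit 6108) (nat_lit 12) (nat_lit 13))
    (@En.n l32945 (nat_lit 4068) (nat_lit 13) (nat_lit 8))
    (@En.n l22022 (nat_lit 6212) (nat_lit 4) (nat_lit 10))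
    (@En.n l32946 (nat_lit 6112) (nat_lit 13) (nat_lit 3))
    (@En.n l18 (nat_lit 6107) (nat_lit 0) (nat_lit 3))))
  (@Cl.mk (nat_lit 0x2000b0008000b0007000c0005000c0005000400080004000d0009000e0003) (nat_lit 0x9480904003000a0) (nat_lit 16) Lb.e (@T16.mk En
    (@En.n l11363 (nat_lit 6111) (nat_lit 15) (nat_lit 3))
    (@En.n l35550 (nat_lit 13997) (nat_lit 0) (nat_lit 14))
    (@En.n l34405 (nat_lit 6486) (nat_lit 2) (nat_lit 9))
    (@En.n l615 (nat_lit 10375) (nat_lit 2) (nat_lit 13))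
    (@En.n l11939 (nat_lit 6128) (nat_lit 4) (nat_lit 4))
    (@En.n l13498 (nat_lit 6107) (nat_lit 5) (nat_lit 8))
    (@En.n l38008 (nat_lit 6104) (nat_lit 6) (nat_lit 4))
    (@En.n l11940 (nat_lit 4192) (nat_lit 7) (nat_lit 5))
    (@En.n l35550 (nat_lit 724) (nat_lit 9) (nat_lit 12))
    (@En.n l27179 (nat_lit 1173) (nat_lit 9) (nat_lit 5))
    (@En.i (nat_lit 6415) (nat_lit 11) (nat_lit 12))
    (@En.n l134 (nat_lit 9064) (nat_lit 12) (nat_lit 7))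
    (@En.n l615 (nat_lit 6203) (nat_lit 7) (nat_lit 11))
    (@En.n l11942 (nat_lit 6101) (nat_lit 14) (nat_lit 8))
    (@En.n l27121 (nat_lit 10371) (nat_lit 14) (nat_lit 11))
    (@En.n l17 (nat_lit 6110) (nat_lit 15) (nat_lit 2))))
  (@Cl.mk (nat_lit 0x30003000b0008000b0006000c0005000c0005000400080004000d000d000a) (nat_lit 0x93804040030010) (nat_lit 16) Lb.e (@T16.mk En
    (@En.n l619 (nat_lit 7818) (nat_lit 0) (nat_lit 10))
    (@En.n l28297 (nat_lit 6110) (nat_lit 3) (nat_lit 13))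
    (@En.n l2129 (nat_lit 10374) (nat_lit 2) (nat_lit 13))
    (@En.n l25648 (nat_lit 6071) (nat_lit 3) (nat_lit 4))
    (@En.n l28298 (nat_lit 6109) (nat_lit 4) (nat_lit 8))
    (@En.n l28299 (nat_lit 6105) (nat_lit 5) (nat_lit 4))
    (@En.n l14292 (nat_lit 4191) (nat_lit 6) (nat_lit 5))
    (@En.n l28300 (nat_lit 648) (nat_lit 8) (nat_lit 12))
    (@En.n l217 (nat_lit 1128) (nat_lit 8) (nat_lit 5))
    (@En.n l17567 (nat_lit 6336) (nat_lit 10) (nat_lit 12))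
    (@En.n l28301 (nat_lit 9059) (nat_lit 11) (nat_lit 6))
    (@En.i (nat_lit 6200) (nat_lit 7) (nat_lit 11))
    (@En.n l28302 (nat_lit 5998) (nat_lit 13) (nat_lit 8))
    (@En.n l476 (nat_lit 6211) (nat_lit 14) (nat_lit 11))
    (@En.n l152 (nat_lit 6198) (nat_lit 13) (nat_lit 3))
    (@En.n l19850 (nat_lit 6110) (nat_lit 0) (nat_lit 3))))
noncomputable def a382 : T16 Cl := @T16.mk Cl
  (@Cl.mk (nat_lit 0x2000a0003000a0008000d000b000600030006000d000500080003000e000d) (nat_lit 0x206529000602071) (nat_lit 16) Lb.e (@T16.mk En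
    (@En.n l26834 (nat_lit 6109) (nat_lit 2) (nat_lit 13))
    (@En.n l4774 (nat_lit 8123) (nat_lit 1) (nat_lit 14))
    (@En.n l13700 (nat_lit 6098) (nat_lit 2) (nat_lit 3))
    (@En.n l12153 (nat_lit 5451) (nat_lit 10) (nat_lit 8))
    (@En.n l26835 (nat_lit 2359) (nat_lit 4) (nat_lit 5))
    (@En.i (nat_lit 735) (nat_lit 6) (nat_lit 13))
    (@En.n l26836 (nat_lit 1124) (nat_lit 6) (nat_lit 6))
    (@En.n l7 (nat_lit 6113) (nat_lit 7) (nat_lit 3))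
    (@En.n l157 (nat_lit 7687) (nat_lit 0) (nat_lit 6))
    (@En.n l26837 (nat_lit 6198) (nat_lit 10) (nat_lit 11))
    (@En.n l617 (nat_lit 6156) (nat_lit 11) (nat_lit 13))
    (@En.n l3480 (nat_lit 5999) (nat_lit 12) (nat_lit 8))
    (@En.i (nat_lit 4459) (nat_lit 13) (nat_lit 10))
    (@En.n l26838 (nat_lit 6109) (nat_lit 14) (nat_lit 3))
    (@En.i (nat_lit 4651) (nat_lit 0) (nat_lit 10))
    (@En.n l107 (nat_lit 6112) (nat_lit 15) (nat_lit 2))))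
  (@Cl.mk (nat_lit 0x2000b0003000a0008000d0005000c00030006000d000400080003000e000d) (nat_lit 0x7220a004020a1) (nat_lit 16) Lb.e (@T16.mk En
    (@En.n l180 (nat_lit 6105) (nat_lit 2) (nat_lit 13))
    (@En.i (nat_lit 8126) (nat_lit 1) (nat_lit 14))
    (@En.n l6131 (nat_lit 6115) (nat_lit 2) (nat_lit 3))
    (@En.n l13783 (nat_lit 5445) (nat_lit 3) (nat_lit 8))
    (@En.n l27438 (nat_lit 6175) (nat_lit 4) (nat_lit 4))
    (@En.i (nat_lit 644) (nat_lit 6) (nat_lit 13))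
    (@En.n l7048 (nat_lit 6068) (nat_lit 12) (nat_lit 6))
    (@En.i (nat_lit 6112) (nat_lit 7) (nat_lit 3))
    (@En.n l18463 (nat_lit 6414) (nat_lit 0) (nat_lit 12))
    (@En.i (nat_lit 9188) (nat_lit 9) (nat_lit 5))
    (@En.n l617 (nat_lit 6157) (nat_lit 11) (nat_lit 13))
    (@En.n l3480 (nat_lit 4069) (nat_lit 12) (nat_lit 8))
    (@En.i (nat_lit 4460) (nat_lit 13) (nat_lit 10))
    (@En.i (nat_lit 6105) (nat_lit 14) (nat_lit 3))
    (@En.i (nat_lit 7871) (nat_lit 0) (nat_lit 11))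
    (@En.n l107 (nat_lit 6113) (nat_lit 15) (nat_lit 2))))
  (@Cl.mk (nat_lit 0x30003000a0009000d0006000b00030006000d000700050003000d000d000a) (nat_lit 0x81802004000890) (nat_lit 16) Lb.e (@T16.mk En
    (@En.n l619 (nat_lit 7914) (nat_lit 0) (nat_lit 10))
    (@En.n l29170 (nat_lit 6116) (nat_lit 3) (nat_lit 13))
    (@En.i (nat_lit 11762) (nat_lit 10) (nat_lit 13))
    (@En.n l15259 (nat_lit 6105) (nat_lit 3) (nat_lit 3))
    (@En.n l5934 (nat_lit 5892) (nat_lit 0) (nat_lit 5))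
    (@En.i (nat_lit 3252) (nat_lit 5) (nat_lit 7))
    (@En.n l5355 (nat_lit 647) (nat_lit 7) (nat_lit 13))
    (@En.n l14973 (nat_lit 6067) (nat_lit 12) (nat_lit 6))
    (@En.n l11512 (nat_lit 6097) (nat_lit 8) (nat_lit 3))
    (@En.n l8503 (nat_lit 2231) (nat_lit 0) (nat_lit 11))
    (@En.i (nat_lit 11832) (nat_lit 6) (nat_lit 6))
    (@En.n l50 (nat_lit 5663) (nat_lit 12) (nat_lit 13))
    (@En.n l217 (nat_lit 5655) (nat_lit 13) (nat_lit 9))
    (@En.n l476 (nat_lit 6120) (nat_lit 4) (nat_lit 10))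
    (@En.n l152 (nat_lit 6115) (nat_lit 13) (nat_lit 3))
    (@En.n l19849 (nat_lit 6116) (nat_lit 0) (nat_lit 3))))
  (@Cl.mk (nat_lit 0x2000b0003000a0009000d0005000b00030006000d000700050003000e000d) (nat_lit 0x71802004000a9) (nat_lit 16) Lb.e (@T16.mk En
    (@En.i (nat_lit 6114) (nat_lit 2) (nat_lit 13))
    (@En.i (nat_lit 11217) (nat_lit 1) (nat_lit 14))
    (@En.n l9105 (nat_lit 6113) (nat_lit 2) (nat_lit 3))
    (@En.n l5934 (nat_lit 5897) (nat_lit 3) (nat_lit 5))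
    (@En.n l2805 (nat_lit 5666) (nat_lit 4) (nat_lit 7))
    (@En.n l1012 (nat_lit 652) (nat_lit 6) (nat_lit 13))
    (@En.n l14973 (nat_lit 6069) (nat_lit 12) (nat_lit 6))
    (@En.n l11512 (nat_lit 6098) (nat_lit 7) (nat_lit 3))
    (@En.i (nat_lit 2265) (nat_lit 9) (nat_lit 11))
    (@En.i (nat_lit 9191) (nat_lit 9) (nat_lit 5))
    (@En.n l50 (nat_lit 5665) (nat_lit 11) (nat_lit 13))
    (@En.n l2579 (nat_lit 5656) (nat_lit 12) (nat_lit 9))
    (@En.i (nat_lit 6687) (nat_lit 13) (nat_lit 10))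
    (@En.n l117 (nat_lit 6114) (nat_lit 14) (nat_lit 3))
    (@En.i (nat_lit 7844) (nat_lit 0) (nat_lit 11))
    (@En.n l3 (nat_lit 6115) (nat_lit 15) (nat_lit 2))))
  (@Cl.mk (nat_lit 0x2000a0009000d0007000b00030006000d000700050003000d0009000e0003) (nat_lit 0x718020040008050) (nat_lit 16) Lb.e (@T16.mk En
    (@En.n l5999 (nat_lit 6114) (nat_lit 15) (nat_lit 3))
    (@En.n l11988 (nat_lit 13984) (nat_lit 0) (nat_lit 14))
    (@En.n l19778 (nat_lit 6483) (nat_lit 2) (nat_lit 9))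
    (@En.n l615 (nat_lit 10548) (nat_lit 10) (nat_lit 13))
    (@En.n l11986 (nat_lit 6104) (nat_lit 4) (nat_lit 3))
    (@En.i (nat_lit 5895) (nat_lit 5) (nat_lit 5))
    (@En.n l29165 (nat_lit 5506) (nat_lit 6) (nat_lit 7))
    (@En.n l615 (nat_lit 651) (nat_lit 8) (nat_lit 13))
    (@En.n l159 (nat_lit 6063) (nat_lit 12) (nat_lit 6))
    (@En.n l11987 (nat_lit 6099) (nat_lit 9) (nat_lit 3))
    (@En.i (nat_lit 2233) (nat_lit 0) (nat_lit 11))
    (@En.n l7618 (nat_lit 12107) (nat_lit 12) (nat_lit 7))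
    (@En.n l1572 (nat_lit 6117) (nat_lit 13) (nat_lit 13))
    (@En.n l2051 (nat_lit 5660) (nat_lit 14) (nat_lit 9))
    (@En.n l29166 (nat_lit 6119) (nat_lit 4) (nat_lit 10))
    (@En.n l17 (nat_lit 6116) (nat_lit 15) (nat_lit 2))))
  (@Cl.mk (nat_lit 0x2000a000d0006000a0003000d0006000d000300060003000d000a000e0003) (nat_lit 0x77020b060006050) (nat_lit 16) Lb.e (@T16.mk En
    (@En.n l2869 (nat_lit 5663) (nat_lit 15) (nat_lit 3))
    (@En.n l1638 (nat_lit 13988) (nat_lit 0) (nat_lit 14))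
    (@En.n l2579 (nat_lit 7007) (nat_lit 2) (nat_lit 10))
    (@En.n l1997 (nat_lit 10549) (nat_lit 13) (nat_lit 13))
    (@En.n l1559 (nat_lit 6102) (nat_lit 4) (nat_lit 3))
    (@En.i (nat_lit 5900) (nat_lit 12) (nat_lit 6))
    (@En.i (nat_lit 5660) (nat_lit 6) (nat_lit 3))
    (@En.n l2036 (nat_lit 848) (nat_lit 0) (nat_lit 13))
    (@En.n l4870 (nat_lit 6116) (nat_lit 8) (nat_lit 6))
    (@En.i (nat_lit 6118) (nat_lit 10) (nat_lit 13))
    (@En.n l6078 (nat_lit 6144) (nat_lit 10) (nat_lit 3))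
    (@En.i (nat_lit 2373) (nat_lit 12) (nat_lit 10))
    (@En.n l4871 (nat_lit 12718) (nat_lit 13) (nat_lit 6))
    (@En.i (nat_lit 3890) (nat_lit 5) (nat_lit 13))
    (@En.n l3337 (nat_lit 6121) (nat_lit 14) (nat_lit 10))
    (@En.n l17 (nat_lit 6117) (nat_lit 15) (nat_lit 2))))
  (@Cl.mk (nat_lit 0x2000b00090006000a000d0005000c0003000700060004000d000a000e0003) (nat_lit 0x8601a0500009030) (nat_lit 16) Lb.e (@T16.mk En
    (@En.n l2869 (nat_lit 5664) (nat_lit 15) (nat_lit 3))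
    (@En.n l1758 (nat_lit 13987) (nat_lit 0) (nat_lit 14))
    (@En.n l2579 (nat_lit 6491) (nat_lit 2) (nat_lit 10))
    (@En.n l2036 (nat_lit 10550) (nat_lit 12) (nat_lit 13))
    (@En.n l39448 (nat_lit 6169) (nat_lit 4) (nat_lit 4))
    (@En.n l107 (nat_lit 6117) (nat_lit 5) (nat_lit 6))
    (@En.n l7163 (nat_lit 6116) (nat_lit 6) (nat_lit 7))
    (@En.n l5978 (nat_lit 5661) (nat_lit 7) (nat_lit 3))
    (@En.n l2036 (nat_lit 879) (nat_lit 0) (nat_lit 12))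
    (@En.n l7164 (nat_lit 6128) (nat_lit 9) (nat_lit 5))
    (@En.n l39048 (nat_lit 6131) (nat_lit 5) (nat_lit 13))
    (@En.i (nat_lit 2371) (nat_lit 12) (nat_lit 10))
    (@En.n l39048 (nat_lit 12716) (nat_lit 13) (nat_lit 6))
    (@En.n l1578 (nat_lit 4271) (nat_lit 14) (nat_lit 9))
    (@En.n l3337 (nat_lit 6125) (nat_lit 14) (nat_lit 11))
    (@En.n l17 (nat_lit 6118) (nat_lit 15) (nat_lit 2))))
  (@Cl.mk (nat_lit 0x300060009000d000800060003000d000a00070003000a0008000d0006000a) (nat_lit 0x55200000065302) (nat_lit 16) Lb.e (@T16.mk En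
    (@En.n l13811 (nat_lit 2472) (nat_lit 0) (nat_lit 10))
    (@En.n l36895 (nat_lit 11872) (nat_lit 7) (nat_lit 6))
    (@En.n l50 (nat_lit 6121) (nat_lit 13) (nat_lit 13))
    (@En.n l217 (nat_lit 10514) (nat_lit 14) (nat_lit 8))
    (@En.n l1690 (nat_lit 6123) (nat_lit 4) (nat_lit 10))
    (@En.n l152 (nat_lit 6120) (nat_lit 5) (nat_lit 3))
    (@En.n l36052 (nat_lit 1745) (nat_lit 0) (nat_lit 7))
    (@En.n l619 (nat_lit 8794) (nat_lit 14) (nat_lit 10))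
    (@En.i (nat_lit 11948) (nat_lit 9) (nat_lit 13))
    (@En.n l15259 (nat_lit 6214) (nat_lit 9) (nat_lit 3))
    (@En.n l13811 (nat_lit 7260) (nat_lit 0) (nat_lit 6))
    (@En.i (nat_lit 10730) (nat_lit 12) (nat_lit 8))
    (@En.i (nat_lit 6114) (nat_lit 6) (nat_lit 13))
    (@En.n l5598 (nat_lit 10265) (nat_lit 9) (nat_lit 9))
    (@En.n l14892 (nat_lit 11265) (nat_lit 12) (nat_lit 6))
    (@En.n l35285 (nat_lit 6148) (nat_lit 15) (nat_lit 3))))
  (@Cl.mk (nat_lit 0x30006000a000d000800060003000d0006000b0003000a0008000d0005000a) (nat_lit 0x55000003070403) (nat_lit 16) Lb.e (@T16.mk En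
    (@En.n l2909 (nat_lit 2468) (nat_lit 0) (nat_lit 10))
    (@En.i (nat_lit 11873) (nat_lit 7) (nat_lit 5))
    (@En.n l50 (nat_lit 6122) (nat_lit 13) (nat_lit 13))
    (@En.n l2579 (nat_lit 10513) (nat_lit 14) (nat_lit 8))
    (@En.i (nat_lit 6617) (nat_lit 11) (nat_lit 10))
    (@En.n l117 (nat_lit 6119) (nat_lit 5) (nat_lit 3))
    (@En.n l10357 (nat_lit 8765) (nat_lit 0) (nat_lit 11))
    (@En.i (nat_lit 6123) (nat_lit 7) (nat_lit 6))
    (@En.n l2125 (nat_lit 11768) (nat_lit 9) (nat_lit 13))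
    (@En.n l9105 (nat_lit 6213) (nat_lit 9) (nat_lit 3))
    (@En.n l5934 (nat_lit 7261) (nat_lit 0) (nat_lit 6))
    (@En.n l32408 (nat_lit 10729) (nat_lit 12) (nat_lit 8))
    (@En.i (nat_lit 6115) (nat_lit 5) (nat_lit 13))
    (@En.n l253 (nat_lit 10159) (nat_lit 9) (nat_lit 10))
    (@En.n l14973 (nat_lit 11264) (nat_lit 12) (nat_lit 6))
    (@En.n l11512 (nat_lit 6149) (nat_lit 15) (nat_lit 3))))
  (@Cl.mk (nat_lit 0x3000a000d000500090003000c00060009000d000400070003000d000b0007) (nat_lit 0x62020a007000700) (nat_lit 16) Lb.e (@T16.mk En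
    (@En.n l9874 (nat_lit 1740) (nat_lit 0) (nat_lit 7))
    (@En.n l619 (nat_lit 8798) (nat_lit 14) (nat_lit 11))
    (@En.i (nat_lit 11946) (nat_lit 2) (nat_lit 13))
    (@En.n l2364 (nat_lit 6217) (nat_lit 3) (nat_lit 3))
    (@En.i (nat_lit 7566) (nat_lit 11) (nat_lit 7))
    (@En.i (nat_lit 6845) (nat_lit 5) (nat_lit 4))
    (@En.i (nat_lit 5663) (nat_lit 6) (nat_lit 13))
    (@En.n l9874 (nat_lit 8927) (nat_lit 9) (nat_lit 9))
    (@En.i (nat_lit 6119) (nat_lit 14) (nat_lit 6))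
    (@En.i (nat_lit 6125) (nat_lit 10) (nat_lit 12))
    (@En.i (nat_lit 6145) (nat_lit 10) (nat_lit 3))
    (@En.n l1897 (nat_lit 2615) (nat_lit 0) (nat_lit 9))
    (@En.i (nat_lit 9704) (nat_lit 8) (nat_lit 5))
    (@En.i (nat_lit 8850) (nat_lit 5) (nat_lit 13))
    (@En.n l1690 (nat_lit 6124) (nat_lit 11) (nat_lit 10))
    (@En.n l152 (nat_lit 6122) (nat_lit 15) (nat_lit 3))))
  (@Cl.mk (nat_lit 0x3000a000d000400090003000c0006000a000d000400070003000d0006000c) (nat_lit 0x63020a077000703) (nat_lit 16) Lb.e (@T16.mk En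
    (@En.n l10357 (nat_lit 8764) (nat_lit 0) (nat_lit 12))
    (@En.i (nat_lit 6124) (nat_lit 14) (nat_lit 6))
    (@En.n l2125 (nat_lit 11766) (nat_lit 2) (nat_lit 13))
    (@En.n l992 (nat_lit 6216) (nat_lit 3) (nat_lit 3))
    (@En.i (nat_lit 7565) (nat_lit 11) (nat_lit 7))
    (@En.n l3187 (nat_lit 6849) (nat_lit 5) (nat_lit 4))
    (@En.i (nat_lit 5665) (nat_lit 5) (nat_lit 13))
    (@En.n l253 (nat_lit 9753) (nat_lit 1) (nat_lit 10))
    (@En.i (nat_lit 6120) (nat_lit 14) (nat_lit 6))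
    (@En.i (nat_lit 6126) (nat_lit 10) (nat_lit 12))
    (@En.i (nat_lit 6146) (nat_lit 10) (nat_lit 3))
    (@En.n l2571 (nat_lit 2616) (nat_lit 0) (nat_lit 9))
    (@En.i (nat_lit 9702) (nat_lit 8) (nat_lit 4))
    (@En.i (nat_lit 8861) (nat_lit 5) (nat_lit 13))
    (@En.i (nat_lit 6729) (nat_lit 11) (nat_lit 10))
    (@En.n l117 (nat_lit 6121) (nat_lit 15) (nat_lit 3))))
  (@Cl.mk (nat_lit 0x30006000a0009000d0009000700030006000b0007000a0007000d00050009) (nat_lit 0x56600000050403) (nat_lit 16) Lb.e (@T16.mk En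
    (@En.n l21954 (nat_lit 2471) (nat_lit 0) (nat_lit 9))
    (@En.n l20022 (nat_lit 11871) (nat_lit 8) (nat_lit 5))
    (@En.n l50 (nat_lit 6124) (nat_lit 10) (nat_lit 13))
    (@En.n l2579 (nat_lit 10515) (nat_lit 3) (nat_lit 7))
    (@En.n l15306 (nat_lit 6772) (nat_lit 8) (nat_lit 10))
    (@En.n l21955 (nat_lit 1743) (nat_lit 5) (nat_lit 7))
    (@En.n l21956 (nat_lit 8772) (nat_lit 14) (nat_lit 11))
    (@En.n l3106 (nat_lit 10965) (nat_lit 12) (nat_lit 6))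
    (@En.n l9105 (nat_lit 6215) (nat_lit 8) (nat_lit 3))
    (@En.n l5934 (nat_lit 7257) (nat_lit 0) (nat_lit 7))
    (@En.n l21957 (nat_lit 10724) (nat_lit 11) (nat_lit 9))
    (@En.n l3 (nat_lit 6120) (nat_lit 12) (nat_lit 13))
    (@En.n l3 (nat_lit 6119) (nat_lit 13) (nat_lit 9))
    (@En.n l21958 (nat_lit 10831) (nat_lit 4) (nat_lit 10))
    (@En.n l14973 (nat_lit 11263) (nat_lit 12) (nat_lit 6))
    (@En.n l21959 (nat_lit 6150) (nat_lit 6) (nat_lit 3))))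
  (@Cl.mk (nat_lit 0x30006000c0007000a000d000400080003000b0006000a0009000d00050008) (nat_lit 0x530209071804) (nat_lit 16) Lb.e (@T16.mk En
    (@En.i (nat_lit 7567) (nat_lit 0) (nat_lit 8))
    (@En.n l3187 (nat_lit 6844) (nat_lit 9) (nat_lit 5))
    (@En.n l3 (nat_lit 6122) (nat_lit 6) (nat_lit 13))
    (@En.n l3 (nat_lit 6121) (nat_lit 7) (nat_lit 9))
    (@En.n l11247 (nat_lit 9757) (nat_lit 4) (nat_lit 10))
    (@En.i (nat_lit 6123) (nat_lit 14) (nat_lit 6))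
    (@En.i (nat_lit 6127) (nat_lit 7) (nat_lit 11))
    (@En.i (nat_lit 6147) (nat_lit 7) (nat_lit 3))
    (@En.n l5032 (nat_lit 2617) (nat_lit 0) (nat_lit 8))
    (@En.i (nat_lit 9703) (nat_lit 9) (nat_lit 4))
    (@En.i (nat_lit 8862) (nat_lit 5) (nat_lit 13))
    (@En.n l5033 (nat_lit 6738) (nat_lit 8) (nat_lit 10))
    (@En.i (nat_lit 1739) (nat_lit 13) (nat_lit 7))
    (@En.n l35731 (nat_lit 8771) (nat_lit 14) (nat_lit 12))
    (@En.n l3106 (nat_lit 11496) (nat_lit 12) (nat_lit 6))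
    (@En.n l992 (nat_lit 6218) (nat_lit 15) (nat_lit 3))))
  (@Cl.mk (nat_lit 0x3000b000800050009000c00050008000c0004000800070004000d000b0008) (nat_lit 0x740290060300002) (nat_lit 16) Lb.e (@T16.mk En
    (@En.n l38094 (nat_lit 5386) (nat_lit 0) (nat_lit 8))
    (@En.n l619 (nat_lit 8799) (nat_lit 11) (nat_lit 11))
    (@En.i (nat_lit 11944) (nat_lit 2) (nat_lit 13))
    (@En.n l28437 (nat_lit 8802) (nat_lit 3) (nat_lit 4))
    (@En.n l7 (nat_lit 6121) (nat_lit 4) (nat_lit 7))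
    (@En.n l644 (nat_lit 6119) (nat_lit 11) (nat_lit 8))
    (@En.i (nat_lit 6847) (nat_lit 6) (nat_lit 4))
    (@En.i (nat_lit 5664) (nat_lit 7) (nat_lit 12))
    (@En.n l33710 (nat_lit 8922) (nat_lit 10) (nat_lit 8))
    (@En.n l38095 (nat_lit 11262) (nat_lit 9) (nat_lit 5))
    (@En.n l5838 (nat_lit 11255) (nat_lit 6) (nat_lit 12))
    (@En.n l1897 (nat_lit 2614) (nat_lit 10) (nat_lit 9))
    (@En.n l34823 (nat_lit 9701) (nat_lit 2) (nat_lit 5))
    (@En.n l396 (nat_lit 8836) (nat_lit 14) (nat_lit 8))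
    (@En.n l1690 (nat_lit 6127) (nat_lit 11) (nat_lit 11))
    (@En.n l152 (nat_lit 6126) (nat_lit 15) (nat_lit 3))))
  (@Cl.mk (nat_lit 0x3000b000800040009000c00050009000c0004000800070004000d0007000c) (nat_lit 0x640290660100003) (nat_lit 16) Lb.e (@T16.mk En
    (@En.n l27075 (nat_lit 8770) (nat_lit 0) (nat_lit 12))
    (@En.i (nat_lit 6127) (nat_lit 14) (nat_lit 7))
    (@En.n l2125 (nat_lit 11947) (nat_lit 2) (nat_lit 13))
    (@En.n l992 (nat_lit 8803) (nat_lit 3) (nat_lit 4))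
    (@En.n l7 (nat_lit 6122) (nat_lit 4) (nat_lit 7))
    (@En.n l644 (nat_lit 6120) (nat_lit 11) (nat_lit 8))
    (@En.n l3187 (nat_lit 6850) (nat_lit 6) (nat_lit 4))
    (@En.i (nat_lit 6170) (nat_lit 6) (nat_lit 12))
    (@En.n l253 (nat_lit 10200) (nat_lit 1) (nat_lit 9))
    (@En.n l7 (nat_lit 11261) (nat_lit 9) (nat_lit 5))
    (@En.n l5838 (nat_lit 11256) (nat_lit 6) (nat_lit 12))
    (@En.n l9226 (nat_lit 2444) (nat_lit 12) (nat_lit 9))
    (@En.n l27075 (nat_lit 9699) (nat_lit 15) (nat_lit 4))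
    (@En.n l396 (nat_lit 8835) (nat_lit 14) (nat_lit 8))
    (@En.i (nat_lit 6726) (nat_lit 1) (nat_lit 11))
    (@En.n l117 (nat_lit 6125) (nat_lit 15) (nat_lit 3))))
  (@Cl.mk (nat_lit 0x40007000c0008000b000700040008000b000500090008000c000500090008) (nat_lit 0x1600180717015) (nat_lit 16) Lb.e (@T16.mk En
    (@En.n l7 (nat_lit 6124) (nat_lit 0) (nat_lit 8))
    (@En.n l644 (nat_lit 6123) (nat_lit 10) (nat_lit 9))
    (@En.n l3187 (nat_lit 6843) (nat_lit 8) (nat_lit 5))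
    (@En.n l3 (nat_lit 6126) (nat_lit 7) (nat_lit 12))
    (@En.n l3 (nat_lit 6125) (nat_lit 8) (nat_lit 8))
    (@En.n l11247 (nat_lit 9766) (nat_lit 10) (nat_lit 9))
    (@En.n l41293 (nat_lit 11260) (nat_lit 6) (nat_lit 5))
    (@En.n l5838 (nat_lit 11257) (nat_lit 7) (nat_lit 11))
    (@En.n l5032 (nat_lit 2445) (nat_lit 11) (nat_lit 8))
    (@En.n l31970 (nat_lit 9700) (nat_lit 9) (nat_lit 4))
    (@En.n l396 (nat_lit 8833) (nat_lit 0) (nat_lit 7))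
    (@En.n l30260 (nat_lit 6728) (nat_lit 7) (nat_lit 11))
    (@En.n l23072 (nat_lit 1744) (nat_lit 13) (nat_lit 8))
    (@En.n l41294 (nat_lit 9698) (nat_lit 8) (nat_lit 12))
    (@En.n l3106 (nat_lit 11495) (nat_lit 11) (nat_lit 7))
    (@En.n l992 (nat_lit 8804) (nat_lit 15) (nat_lit 4))))
noncomputable def a383 : T16 Cl := @T16.mk Cl
  (@Cl.mk (nat_lit 0x2000b000a000a0007000b0005000c0006000600050004000d0009000e0003) (nat_lit 0x967010300008340) (nat_lit 16) Lb.e (@T16.mk En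
    (@En.n l40871 (nat_lit 6071) (nat_lit 15) (nat_lit 3))
    (@En.n l1910 (nat_lit 13983) (nat_lit 0) (nat_lit 14))
    (@En.i (nat_lit 6482) (nat_lit 2) (nat_lit 9))
    (@En.n l3303 (nat_lit 11206) (nat_lit 2) (nat_lit 13))
    (@En.n l17609 (nat_lit 6140) (nat_lit 4) (nat_lit 4))
    (@En.n l180 (nat_lit 6116) (nat_lit 5) (nat_lit 5))
    (@En.n l527 (nat_lit 6063) (nat_lit 10) (nat_lit 6))
    (@En.n l3462 (nat_lit 3248) (nat_lit 7) (nat_lit 6))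
    (@En.n l3303 (nat_lit 738) (nat_lit 9) (nat_lit 12))
    (@En.n l40872 (nat_lit 1140) (nat_lit 9) (nat_lit 5))
    (@En.i (nat_lit 2227) (nat_lit 11) (nat_lit 11))
    (@En.n l5634 (nat_lit 12719) (nat_lit 12) (nat_lit 7))
    (@En.n l5635 (nat_lit 6130) (nat_lit 6) (nat_lit 10))
    (@En.n l5706 (nat_lit 5661) (nat_lit 14) (nat_lit 10))
    (@En.n l5706 (nat_lit 11262) (nat_lit 14) (nat_lit 11))
    (@En.n l17 (nat_lit 6128) (nat_lit 15) (nat_lit 2))))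
  (@Cl.mk (nat_lit 0x200060005000d000d000b00030003000c000a0005000a0004000b000e0006) (nat_lit 0x6750086010360) (nat_lit 16) Lb.e (@T16.mk En
    (@En.n l6204 (nat_lit 6071) (nat_lit 6) (nat_lit 6))
    (@En.i (nat_lit 5828) (nat_lit 4) (nat_lit 14))
    (@En.n l4316 (nat_lit 741) (nat_lit 2) (nat_lit 11))
    (@En.i (nat_lit 1138) (nat_lit 3) (nat_lit 4))
    (@En.n l13540 (nat_lit 2286) (nat_lit 4) (nat_lit 10))
    (@En.n l8498 (nat_lit 8083) (nat_lit 5) (nat_lit 5))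
    (@En.n l77 (nat_lit 4274) (nat_lit 13) (nat_lit 10))
    (@En.n l476 (nat_lit 11259) (nat_lit 8) (nat_lit 12))
    (@En.n l152 (nat_lit 6136) (nat_lit 8) (nat_lit 3))
    (@En.n l10847 (nat_lit 6130) (nat_lit 9) (nat_lit 3))
    (@En.n l619 (nat_lit 7155) (nat_lit 11) (nat_lit 11))
    (@En.n l15358 (nat_lit 6130) (nat_lit 12) (nat_lit 13))
    (@En.i (nat_lit 9892) (nat_lit 13) (nat_lit 13))
    (@En.n l699 (nat_lit 6132) (nat_lit 14) (nat_lit 5))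
    (@En.n l2179 (nat_lit 5664) (nat_lit 4) (nat_lit 6))
    (@En.n l50 (nat_lit 6129) (nat_lit 15) (nat_lit 2))))
  (@Cl.mk (nat_lit 0x200060005000d000a000e00030002000c000a0006000a0004000b000e0006) (nat_lit 0x60000860103b0) (nat_lit 16) Lb.e (@T16.mk En
    (@En.n l5617 (nat_lit 6128) (nat_lit 7) (nat_lit 6))
    (@En.i (nat_lit 5830) (nat_lit 9) (nat_lit 14))
    (@En.n l1016 (nat_lit 745) (nat_lit 2) (nat_lit 11))
    (@En.n l936 (nat_lit 1141) (nat_lit 3) (nat_lit 4))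
    (@En.i (nat_lit 2293) (nat_lit 4) (nat_lit 10))
    (@En.n l8840 (nat_lit 8080) (nat_lit 5) (nat_lit 6))
    (@En.n l936 (nat_lit 4270) (nat_lit 14) (nat_lit 10))
    (@En.n l23329 (nat_lit 9525) (nat_lit 8) (nat_lit 12))
    (@En.n l17 (nat_lit 6130) (nat_lit 8) (nat_lit 2))
    (@En.n l4185 (nat_lit 6129) (nat_lit 9) (nat_lit 3))
    (@En.n l29871 (nat_lit 13935) (nat_lit 0) (nat_lit 14))
    (@En.n l3895 (nat_lit 7152) (nat_lit 12) (nat_lit 10))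
    (@En.n l2004 (nat_lit 11271) (nat_lit 13) (nat_lit 13))
    (@En.n l8842 (nat_lit 6131) (nat_lit 14) (nat_lit 5))
    (@En.n l5783 (nat_lit 6118) (nat_lit 5) (nat_lit 6))
    (@En.n l11 (nat_lit 6130) (nat_lit 15) (nat_lit 2))))
  (@Cl.mk (nat_lit 0x20005000d000a000e00030002000c00090006000d0004000b0003000e0007) (nat_lit 0x977008309040c0) (nat_lit 16) Lb.e (@T16.mk En
    (@En.n l1393 (nat_lit 6140) (nat_lit 6) (nat_lit 7))
    (@En.n l2394 (nat_lit 6130) (nat_lit 1) (nat_lit 14))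
    (@En.n l4315 (nat_lit 6133) (nat_lit 2) (nat_lit 3))
    (@En.i (nat_lit 748) (nat_lit 3) (nat_lit 11))
    (@En.n l339 (nat_lit 1134) (nat_lit 4) (nat_lit 4))
    (@En.n l1393 (nat_lit 6262) (nat_lit 6) (nat_lit 13))
    (@En.i (nat_lit 8079) (nat_lit 6) (nat_lit 6))
    (@En.n l1924 (nat_lit 4273) (nat_lit 14) (nat_lit 9))
    (@En.n l18653 (nat_lit 11255) (nat_lit 9) (nat_lit 12))
    (@En.n l28 (nat_lit 6131) (nat_lit 9) (nat_lit 2))
    (@En.n l1032 (nat_lit 6132) (nat_lit 10) (nat_lit 3))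
    (@En.n l1729 (nat_lit 13936) (nat_lit 0) (nat_lit 14))
    (@En.i (nat_lit 7151) (nat_lit 13) (nat_lit 10))
    (@En.n l1729 (nat_lit 9995) (nat_lit 14) (nat_lit 13))
    (@En.n l1925 (nat_lit 6204) (nat_lit 13) (nat_lit 5))
    (@En.n l3 (nat_lit 6131) (nat_lit 15) (nat_lit 2))))
  (@Cl.mk (nat_lit 0x20005000d000d000b00030003000c00090005000d0004000b0003000e0007) (nat_lit 0x8a400730803070) (nat_lit 16) Lb.e (@T16.mk En
    (@En.n l7910 (nat_lit 6138) (nat_lit 5) (nat_lit 7))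
    (@En.n l396 (nat_lit 6129) (nat_lit 1) (nat_lit 14))
    (@En.i (nat_lit 6134) (nat_lit 2) (nat_lit 3))
    (@En.n l7911 (nat_lit 747) (nat_lit 3) (nat_lit 11))
    (@En.i (nat_lit 1135) (nat_lit 4) (nat_lit 4))
    (@En.i (nat_lit 6261) (nat_lit 6) (nat_lit 13))
    (@En.n l1652 (nat_lit 8082) (nat_lit 6) (nat_lit 5))
    (@En.n l7912 (nat_lit 4277) (nat_lit 13) (nat_lit 9))
    (@En.n l476 (nat_lit 11256) (nat_lit 9) (nat_lit 12))
    (@En.n l152 (nat_lit 6135) (nat_lit 9) (nat_lit 3))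
    (@En.n l1652 (nat_lit 6131) (nat_lit 10) (nat_lit 3))
    (@En.n l3463 (nat_lit 7156) (nat_lit 12) (nat_lit 11))
    (@En.n l3419 (nat_lit 6131) (nat_lit 13) (nat_lit 13))
    (@En.i (nat_lit 7989) (nat_lit 14) (nat_lit 13))
    (@En.n l1652 (nat_lit 6202) (nat_lit 13) (nat_lit 5))
    (@En.n l18 (nat_lit 6132) (nat_lit 15) (nat_lit 2))))
  (@Cl.mk (nat_lit 0x20006000d000a000e00030002000b00090006000d000a00050003000e0007) (nat_lit 0x7300910320070) (nat_lit 16) Lb.e (@T16.mk En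
    (@En.n l3522 (nat_lit 6141) (nat_lit 6) (nat_lit 7))
    (@En.n l22466 (nat_lit 5835) (nat_lit 1) (nat_lit 14))
    (@En.n l3489 (nat_lit 6131) (nat_lit 2) (nat_lit 3))
    (@En.n l18 (nat_lit 3113) (nat_lit 3) (nat_lit 5))
    (@En.n l28304 (nat_lit 6130) (nat_lit 4) (nat_lit 10))
    (@En.n l28714 (nat_lit 6257) (nat_lit 6) (nat_lit 13))
    (@En.n l3490 (nat_lit 8081) (nat_lit 6) (nat_lit 6))
    (@En.n l18766 (nat_lit 3738) (nat_lit 14) (nat_lit 9))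
    (@En.i (nat_lit 9636) (nat_lit 9) (nat_lit 11))
    (@En.n l7 (nat_lit 6133) (nat_lit 9) (nat_lit 2))
    (@En.n l14227 (nat_lit 6134) (nat_lit 10) (nat_lit 3))
    (@En.n l9970 (nat_lit 13938) (nat_lit 0) (nat_lit 14))
    (@En.n l18766 (nat_lit 7150) (nat_lit 13) (nat_lit 10))
    (@En.i (nat_lit 9993) (nat_lit 14) (nat_lit 13))
    (@En.n l3522 (nat_lit 6187) (nat_lit 4) (nat_lit 6))
    (@En.n l67 (nat_lit 6133) (nat_lit 15) (nat_lit 2))))
  (@Cl.mk (nat_lit 0x20006000d000d000b00030003000b00090005000d000a00050003000e0007) (nat_lit 0x1400910820070) (nat_lit 16) Lb.e (@T16.mk En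
    (@En.i (nat_lit 6139) (nat_lit 5) (nat_lit 7))
    (@En.n l396 (nat_lit 5836) (nat_lit 1) (nat_lit 14))
    (@En.n l7 (nat_lit 6132) (nat_lit 2) (nat_lit 3))
    (@En.i (nat_lit 3109) (nat_lit 3) (nat_lit 5))
    (@En.n l420 (nat_lit 6129) (nat_lit 4) (nat_lit 10))
    (@En.n l3528 (nat_lit 6258) (nat_lit 6) (nat_lit 13))
    (@En.n l1652 (nat_lit 8084) (nat_lit 6) (nat_lit 5))
    (@En.i (nat_lit 3741) (nat_lit 13) (nat_lit 9))
    (@En.i (nat_lit 9638) (nat_lit 9) (nat_lit 11))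
    (@En.n l152 (nat_lit 6137) (nat_lit 9) (nat_lit 3))
    (@En.n l7805 (nat_lit 6133) (nat_lit 10) (nat_lit 3))
    (@En.n l619 (nat_lit 7157) (nat_lit 12) (nat_lit 11))
    (@En.n l19016 (nat_lit 6133) (nat_lit 13) (nat_lit 13))
    (@En.n l10539 (nat_lit 9992) (nat_lit 14) (nat_lit 13))
    (@En.n l4600 (nat_lit 6177) (nat_lit 3) (nat_lit 6))
    (@En.n l18 (nat_lit 6134) (nat_lit 15) (nat_lit 2))))
  (@Cl.mk (nat_lit 0x20005000e000d0002000c0003000c00090004000d0004000b0003000e0007) (nat_lit 0x39050860804070) (nat_lit 16) Lb.e (@T16.mk En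
    (@En.n l7910 (nat_lit 6172) (nat_lit 4) (nat_lit 7))
    (@En.n l396 (nat_lit 6136) (nat_lit 1) (nat_lit 14))
    (@En.i (nat_lit 6137) (nat_lit 2) (nat_lit 3))
    (@En.n l2568 (nat_lit 749) (nat_lit 3) (nat_lit 11))
    (@En.i (nat_lit 1137) (nat_lit 4) (nat_lit 4))
    (@En.i (nat_lit 6263) (nat_lit 6) (nat_lit 13))
    (@En.n l916 (nat_lit 9000) (nat_lit 6) (nat_lit 4))
    (@En.n l7912 (nat_lit 4286) (nat_lit 12) (nat_lit 9))
    (@En.n l2568 (nat_lit 6720) (nat_lit 9) (nat_lit 12))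
    (@En.n l117 (nat_lit 6132) (nat_lit 9) (nat_lit 3))
    (@En.i (nat_lit 7745) (nat_lit 11) (nat_lit 12))
    (@En.n l3 (nat_lit 6135) (nat_lit 11) (nat_lit 2))
    (@En.i (nat_lit 6132) (nat_lit 13) (nat_lit 13))
    (@En.i (nat_lit 7979) (nat_lit 1) (nat_lit 14))
    (@En.n l640 (nat_lit 6201) (nat_lit 13) (nat_lit 5))
    (@En.n l18 (nat_lit 6135) (nat_lit 15) (nat_lit 2))))
  (@Cl.mk (nat_lit 0x200060005000e000d0002000c0003000c000a0004000a0004000b000e0006) (nat_lit 0x4709086010360) (nat_lit 16) Lb.e (@T16.mk En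
    (@En.n l6204 (nat_lit 6171) (nat_lit 5) (nat_lit 6))
    (@En.i (nat_lit 5831) (nat_lit 7) (nat_lit 14))
    (@En.n l1013 (nat_lit 746) (nat_lit 2) (nat_lit 11))
    (@En.i (nat_lit 1142) (nat_lit 3) (nat_lit 4))
    (@En.i (nat_lit 2287) (nat_lit 10) (nat_lit 10))
    (@En.n l4155 (nat_lit 9002) (nat_lit 5) (nat_lit 4))
    (@En.n l77 (nat_lit 4287) (nat_lit 12) (nat_lit 10))
    (@En.n l2568 (nat_lit 6718) (nat_lit 8) (nat_lit 12))
    (@En.n l117 (nat_lit 6129) (nat_lit 8) (nat_lit 3))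
    (@En.i (nat_lit 7743) (nat_lit 10) (nat_lit 12))
    (@En.n l3 (nat_lit 6136) (nat_lit 10) (nat_lit 2))
    (@En.i (nat_lit 6129) (nat_lit 12) (nat_lit 13))
    (@En.i (nat_lit 11266) (nat_lit 13) (nat_lit 14))
    (@En.n l699 (nat_lit 6135) (nat_lit 14) (nat_lit 5))
    (@En.n l2179 (nat_lit 6170) (nat_lit 3) (nat_lit 6))
    (@En.n l50 (nat_lit 6136) (nat_lit 15) (nat_lit 2))))
  (@Cl.mk (nat_lit 0x20006000e000d0002000c0003000b00090004000d000a00050003000e0007) (nat_lit 0x31050940920070) (nat_lit 16) Lb.e (@T16.mk En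
    (@En.i (nat_lit 6173) (nat_lit 4) (nat_lit 7))
    (@En.n l396 (nat_lit 5837) (nat_lit 1) (nat_lit 14))
    (@En.n l7 (nat_lit 6135) (nat_lit 2) (nat_lit 3))
    (@En.i (nat_lit 3112) (nat_lit 3) (nat_lit 5))
    (@En.n l420 (nat_lit 6136) (nat_lit 4) (nat_lit 10))
    (@En.i (nat_lit 6260) (nat_lit 6) (nat_lit 13))
    (@En.n l916 (nat_lit 8999) (nat_lit 6) (nat_lit 4))
    (@En.i (nat_lit 4283) (nat_lit 12) (nat_lit 9))
    (@En.i (nat_lit 6723) (nat_lit 9) (nat_lit 11))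
    (@En.n l117 (nat_lit 6134) (nat_lit 9) (nat_lit 3))
    (@En.i (nat_lit 7746) (nat_lit 11) (nat_lit 12))
    (@En.n l3 (nat_lit 6137) (nat_lit 11) (nat_lit 2))
    (@En.i (nat_lit 6134) (nat_lit 13) (nat_lit 13))
    (@En.i (nat_lit 7980) (nat_lit 1) (nat_lit 14))
    (@En.n l4600 (nat_lit 6174) (nat_lit 2) (nat_lit 6))
    (@En.n l18 (nat_lit 6137) (nat_lit 15) (nat_lit 2))))
  (@Cl.mk (nat_lit 0x30003000b000900090006000d0005000c0003000700070004000d000d000a) (nat_lit 0x86409040000007) (nat_lit 16) Lb.e (@T16.mk En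
    (@En.n l17270 (nat_lit 7158) (nat_lit 0) (nat_lit 10))
    (@En.n l17271 (nat_lit 6140) (nat_lit 3) (nat_lit 13))
    (@En.n l17272 (nat_lit 10000) (nat_lit 12) (nat_lit 13))
    (@En.n l17273 (nat_lit 6111) (nat_lit 3) (nat_lit 4))
    (@En.n l4328 (nat_lit 6066) (nat_lit 9) (nat_lit 7))
    (@En.n l8898 (nat_lit 6097) (nat_lit 5) (nat_lit 7))
    (@En.n l5838 (nat_lit 6139) (nat_lit 6) (nat_lit 3))
    (@En.n l5356 (nat_lit 630) (nat_lit 0) (nat_lit 12))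
    (@En.n l14160 (nat_lit 1130) (nat_lit 8) (nat_lit 5))
    (@En.n l28 (nat_lit 5944) (nat_lit 10) (nat_lit 13))
    (@En.n l2438 (nat_lit 6406) (nat_lit 3) (nat_lit 6))
    (@En.n l3961 (nat_lit 6132) (nat_lit 7) (nat_lit 9))
    (@En.n l17274 (nat_lit 6184) (nat_lit 13) (nat_lit 9))
    (@En.n l476 (nat_lit 11252) (nat_lit 14) (nat_lit 11))
    (@En.n l152 (nat_lit 6172) (nat_lit 13) (nat_lit 3))
    (@En.n l17275 (nat_lit 6140) (nat_lit 0) (nat_lit 3))))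
  (@Cl.mk (nat_lit 0x30003000a000900090006000d000b00060003000700070005000d000d000a) (nat_lit 0x76203200000007) (nat_lit 16) Lb.e (@T16.mk En
    (@En.n l619 (nat_lit 7161) (nat_lit 0) (nat_lit 10))
    (@En.n l32949 (nat_lit 6141) (nat_lit 3) (nat_lit 13))
    (@En.n l10536 (nat_lit 9039) (nat_lit 12) (nat_lit 13))
    (@En.n l22531 (nat_lit 6179) (nat_lit 3) (nat_lit 5))
    (@En.n l32950 (nat_lit 6064) (nat_lit 9) (nat_lit 7))
    (@En.n l32951 (nat_lit 3257) (nat_lit 5) (nat_lit 7))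
    (@En.n l32952 (nat_lit 6138) (nat_lit 6) (nat_lit 3))
    (@En.i (nat_lit 3108) (nat_lit 0) (nat_lit 6))
    (@En.n l22531 (nat_lit 6071) (nat_lit 9) (nat_lit 11))
    (@En.n l32953 (nat_lit 6256) (nat_lit 10) (nat_lit 13))
    (@En.n l32954 (nat_lit 6407) (nat_lit 3) (nat_lit 6))
    (@En.n l217 (nat_lit 6134) (nat_lit 7) (nat_lit 9))
    (@En.n l14326 (nat_lit 6182) (nat_lit 13) (nat_lit 9))
    (@En.n l8204 (nat_lit 9801) (nat_lit 14) (nat_lit 10))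
    (@En.n l152 (nat_lit 6173) (nat_lit 13) (nat_lit 3))
    (@En.n l32955 (nat_lit 6141) (nat_lit 0) (nat_lit 3))))
  (@Cl.mk (nat_lit 0x2000b000900090007000d0005000c0003000700070004000d0009000e0003) (nat_lit 0x86403040000b260) (nat_lit 16) Lb.e (@T16.mk En
    (@En.n l14949 (nat_lit 6138) (nat_lit 15) (nat_lit 3))
    (@En.n l15684 (nat_lit 13996) (nat_lit 0) (nat_lit 14))
    (@En.n l19985 (nat_lit 6481) (nat_lit 2) (nat_lit 9))
    (@En.n l2068 (nat_lit 9999) (nat_lit 12) (nat_lit 13))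
    (@En.n l32585 (nat_lit 6110) (nat_lit 4) (nat_lit 4))
    (@En.n l32586 (nat_lit 6065) (nat_lit 9) (nat_lit 7))
    (@En.n l6083 (nat_lit 6099) (nat_lit 6) (nat_lit 7))
    (@En.n l117 (nat_lit 6141) (nat_lit 7) (nat_lit 3))
    (@En.n l5998 (nat_lit 639) (nat_lit 0) (nat_lit 12))
    (@En.n l3596 (nat_lit 1131) (nat_lit 9) (nat_lit 5))
    (@En.n l28 (nat_lit 6267) (nat_lit 11) (nat_lit 13))
    (@En.n l19885 (nat_lit 6402) (nat_lit 12) (nat_lit 7))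
    (@En.n l22112 (nat_lit 6131) (nat_lit 7) (nat_lit 9))
    (@En.n l19885 (nat_lit 6185) (nat_lit 14) (nat_lit 9))
    (@En.i (nat_lit 11253) (nat_lit 14) (nat_lit 11))
    (@En.n l17 (nat_lit 6140) (nat_lit 15) (nat_lit 2))))
  (@Cl.mk (nat_lit 0x2000a000900090007000d000b00060003000700070005000d0009000e0003) (nat_lit 0x86203200000b230) (nat_lit 16) Lb.e (@T16.mk En
    (@En.n l27006 (nat_lit 6139) (nat_lit 15) (nat_lit 3))
    (@En.n l12882 (nat_lit 12875) (nat_lit 0) (nat_lit 14))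
    (@En.n l27088 (nat_lit 6196) (nat_lit 2) (nat_lit 9))
    (@En.n l649 (nat_lit 9037) (nat_lit 12) (nat_lit 13))
    (@En.n l13673 (nat_lit 6195) (nat_lit 4) (nat_lit 5))
    (@En.n l38701 (nat_lit 6062) (nat_lit 9) (nat_lit 7))
    (@En.n l13673 (nat_lit 5638) (nat_lit 6) (nat_lit 7))
    (@En.n l152 (nat_lit 6140) (nat_lit 7) (nat_lit 3))
    (@En.n l1865 (nat_lit 3106) (nat_lit 0) (nat_lit 6))
    (@En.n l38702 (nat_lit 6128) (nat_lit 10) (nat_lit 11))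
    (@En.n l38703 (nat_lit 6255) (nat_lit 11) (nat_lit 13))
    (@En.n l27093 (nat_lit 6403) (nat_lit 12) (nat_lit 7))
    (@En.n l18989 (nat_lit 6133) (nat_lit 7) (nat_lit 9))
    (@En.n l27088 (nat_lit 6186) (nat_lit 14) (nat_lit 9))
    (@En.i (nat_lit 9640) (nat_lit 14) (nat_lit 10))
    (@En.n l17 (nat_lit 6141) (nat_lit 15) (nat_lit 2))))
  (@Cl.mk (nat_lit 0x30003000a000d000900060003000d0006000d000300070003000d000d000a) (nat_lit 0x79400a06000792) (nat_lit 16) Lb.e (@T16.mk En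
    (@En.n l4684 (nat_lit 7814) (nat_lit 0) (nat_lit 10))
    (@En.n l10815 (nat_lit 6144) (nat_lit 3) (nat_lit 13))
    (@En.i (nat_lit 11765) (nat_lit 2) (nat_lit 13))
    (@En.n l2364 (nat_lit 6108) (nat_lit 3) (nat_lit 3))
    (@En.i (nat_lit 6092) (nat_lit 0) (nat_lit 7))
    (@En.n l3522 (nat_lit 5659) (nat_lit 5) (nat_lit 3))
    (@En.i (nat_lit 838) (nat_lit 0) (nat_lit 13))
    (@En.n l11512 (nat_lit 6097) (nat_lit 7) (nat_lit 6))
    (@En.i (nat_lit 6138) (nat_lit 9) (nat_lit 13))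
    (@En.n l28 (nat_lit 5663) (nat_lit 9) (nat_lit 3))
    (@En.n l2438 (nat_lit 7689) (nat_lit 0) (nat_lit 6))
    (@En.n l77 (nat_lit 5664) (nat_lit 12) (nat_lit 9))
    (@En.i (nat_lit 3877) (nat_lit 5) (nat_lit 13))
    (@En.n l476 (nat_lit 6146) (nat_lit 14) (nat_lit 10))
    (@En.n l152 (nat_lit 6143) (nat_lit 13) (nat_lit 3))
    (@En.n l2438 (nat_lit 6144) (nat_lit 0) (nat_lit 3))))
  (@Cl.mk (nat_lit 0x2000b0003000a000d000900050003000d0006000d000300070003000e000d) (nat_lit 0x2068500406000a8) (nat_lit 16) Lb.e (@T16.mk En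
    (@En.i (nat_lit 6142) (nat_lit 2) (nat_lit 13))
    (@En.i (nat_lit 11216) (nat_lit 1) (nat_lit 14))
    (@En.n l3291 (nat_lit 6156) (nat_lit 2) (nat_lit 3))
    (@En.i (nat_lit 6089) (nat_lit 3) (nat_lit 7))
    (@En.n l2869 (nat_lit 5658) (nat_lit 4) (nat_lit 3))
    (@En.n l2100 (nat_lit 844) (nat_lit 0) (nat_lit 13))
    (@En.n l11512 (nat_lit 6098) (nat_lit 6) (nat_lit 6))
    (@En.i (nat_lit 6172) (nat_lit 8) (nat_lit 13))
    (@En.n l28 (nat_lit 5665) (nat_lit 8) (nat_lit 3))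
    (@En.n l1393 (nat_lit 7685) (nat_lit 9) (nat_lit 5))
    (@En.n l77 (nat_lit 6170) (nat_lit 11) (nat_lit 9))
    (@En.i (nat_lit 3732) (nat_lit 12) (nat_lit 13))
    (@En.i (nat_lit 6685) (nat_lit 13) (nat_lit 10))
    (@En.n l117 (nat_lit 6142) (nat_lit 14) (nat_lit 3))
    (@En.i (nat_lit 7812) (nat_lit 0) (nat_lit 11))
    (@En.n l3 (nat_lit 6143) (nat_lit 15) (nat_lit 2))))
noncomputable def a384 : T16 Cl := @T16.mk Cl
  (@Cl.mk (nat_lit 0x2000a000d000900070003000d0006000d000300070003000d0009000e0003) (nat_lit 0x6870040600080a0) (nat_lit 16) Lb.e (@T16.mk En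
    (@En.n l4263 (nat_lit 6142) (nat_lit 15) (nat_lit 3))
    (@En.n l12506 (nat_lit 13989) (nat_lit 0) (nat_lit 14))
    (@En.i (nat_lit 6488) (nat_lit 2) (nat_lit 9))
    (@En.n l4361 (nat_lit 10546) (nat_lit 2) (nat_lit 13))
    (@En.n l1034 (nat_lit 6106) (nat_lit 4) (nat_lit 3))
    (@En.n l26482 (nat_lit 6094) (nat_lit 5) (nat_lit 7))
    (@En.n l1034 (nat_lit 5662) (nat_lit 6) (nat_lit 3))
    (@En.n l278 (nat_lit 843) (nat_lit 0) (nat_lit 13))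
    (@En.n l9774 (nat_lit 6099) (nat_lit 8) (nat_lit 6))
    (@En.n l28259 (nat_lit 6140) (nat_lit 10) (nat_lit 13))
    (@En.n l14727 (nat_lit 6117) (nat_lit 10) (nat_lit 3))
    (@En.i (nat_lit 8234) (nat_lit 12) (nat_lit 7))
    (@En.n l32251 (nat_lit 6118) (nat_lit 13) (nat_lit 9))
    (@En.i (nat_lit 3876) (nat_lit 5) (nat_lit 13))
    (@En.n l21186 (nat_lit 6145) (nat_lit 14) (nat_lit 10))
    (@En.n l50 (nat_lit 6144) (nat_lit 15) (nat_lit 2))))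
  (@Cl.mk (nat_lit 0x3000a000d000800060003000c00060009000d000400080003000d000a0007) (nat_lit 0x525005007020700) (nat_lit 16) Lb.e (@T16.mk En
    (@En.n l1792 (nat_lit 5361) (nat_lit 0) (nat_lit 7))
    (@En.n l14504 (nat_lit 8778) (nat_lit 14) (nat_lit 10))
    (@En.n l1236 (nat_lit 11945) (nat_lit 2) (nat_lit 13))
    (@En.n l22682 (nat_lit 6151) (nat_lit 3) (nat_lit 3))
    (@En.i (nat_lit 12074) (nat_lit 0) (nat_lit 8))
    (@En.n l22682 (nat_lit 6848) (nat_lit 5) (nat_lit 4))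
    (@En.i (nat_lit 6142) (nat_lit 6) (nat_lit 13))
    (@En.n l35284 (nat_lit 10224) (nat_lit 9) (nat_lit 9))
    (@En.n l35285 (nat_lit 6148) (nat_lit 14) (nat_lit 6))
    (@En.n l35286 (nat_lit 11253) (nat_lit 10) (nat_lit 12))
    (@En.n l28 (nat_lit 6121) (nat_lit 10) (nat_lit 3))
    (@En.n l14503 (nat_lit 9447) (nat_lit 0) (nat_lit 6))
    (@En.n l77 (nat_lit 6125) (nat_lit 13) (nat_lit 8))
    (@En.i (nat_lit 8858) (nat_lit 5) (nat_lit 13))
    (@En.n l1690 (nat_lit 6147) (nat_lit 11) (nat_lit 10))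
    (@En.n l152 (nat_lit 6146) (nat_lit 15) (nat_lit 3))))
  (@Cl.mk (nat_lit 0x3000a000d000800050003000c0006000a000d000400080003000d0006000b) (nat_lit 0x635005077000700) (nat_lit 16) Lb.e (@T16.mk En
    (@En.n l170 (nat_lit 7819) (nat_lit 0) (nat_lit 11))
    (@En.i (nat_lit 6147) (nat_lit 14) (nat_lit 6))
    (@En.n l2125 (nat_lit 11769) (nat_lit 2) (nat_lit 13))
    (@En.n l992 (nat_lit 6152) (nat_lit 3) (nat_lit 3))
    (@En.i (nat_lit 12076) (nat_lit 0) (nat_lit 8))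
    (@En.n l3187 (nat_lit 6851) (nat_lit 5) (nat_lit 4))
    (@En.i (nat_lit 6143) (nat_lit 5) (nat_lit 13))
    (@En.n l1203 (nat_lit 9767) (nat_lit 1) (nat_lit 10))
    (@En.n l11512 (nat_lit 6149) (nat_lit 14) (nat_lit 6))
    (@En.i (nat_lit 11252) (nat_lit 10) (nat_lit 12))
    (@En.n l28 (nat_lit 6122) (nat_lit 10) (nat_lit 3))
    (@En.n l170 (nat_lit 9446) (nat_lit 0) (nat_lit 5))
    (@En.n l77 (nat_lit 6126) (nat_lit 13) (nat_lit 8))
    (@En.i (nat_lit 8859) (nat_lit 5) (nat_lit 13))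
    (@En.i (nat_lit 6686) (nat_lit 11) (nat_lit 10))
    (@En.n l117 (nat_lit 6145) (nat_lit 15) (nat_lit 3))))
  (@Cl.mk (nat_lit 0x30006000b0007000a000d000700050003000b0006000a0009000d00050009) (nat_lit 0x420009081800) (nat_lit 16) Lb.e (@T16.mk En
    (@En.n l8478 (nat_lit 12077) (nat_lit 0) (nat_lit 9))
    (@En.n l3187 (nat_lit 6846) (nat_lit 9) (nat_lit 5))
    (@En.n l3 (nat_lit 6146) (nat_lit 6) (nat_lit 13))
    (@En.n l3 (nat_lit 6145) (nat_lit 7) (nat_lit 9))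
    (@En.n l37578 (nat_lit 9763) (nat_lit 4) (nat_lit 10))
    (@En.n l21959 (nat_lit 6150) (nat_lit 5) (nat_lit 6))
    (@En.n l20024 (nat_lit 11254) (nat_lit 7) (nat_lit 11))
    (@En.n l28 (nat_lit 6124) (nat_lit 7) (nat_lit 3))
    (@En.n l31973 (nat_lit 9442) (nat_lit 0) (nat_lit 5))
    (@En.n l77 (nat_lit 6127) (nat_lit 10) (nat_lit 7))
    (@En.i (nat_lit 8860) (nat_lit 5) (nat_lit 13))
    (@En.n l29940 (nat_lit 6740) (nat_lit 8) (nat_lit 10))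
    (@En.n l23073 (nat_lit 1742) (nat_lit 13) (nat_lit 7))
    (@En.n l31973 (nat_lit 8775) (nat_lit 14) (nat_lit 11))
    (@En.n l3106 (nat_lit 11497) (nat_lit 12) (nat_lit 6))
    (@En.n l37579 (nat_lit 6153) (nat_lit 15) (nat_lit 3))))
  (@Cl.mk (nat_lit 0x300060009000d000800070003000d000900070003000a0008000d00090007) (nat_lit 0x57000000050360) (nat_lit 16) Lb.e (@T16.mk En
    (@En.n l43091 (nat_lit 9136) (nat_lit 0) (nat_lit 7))
    (@En.n l43092 (nat_lit 11262) (nat_lit 12) (nat_lit 9))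
    (@En.n l43093 (nat_lit 6145) (nat_lit 13) (nat_lit 13))
    (@En.n l43094 (nat_lit 10055) (nat_lit 14) (nat_lit 8))
    (@En.n l43095 (nat_lit 6150) (nat_lit 11) (nat_lit 10))
    (@En.n l29022 (nat_lit 6149) (nat_lit 5) (nat_lit 3))
    (@En.n l182 (nat_lit 5414) (nat_lit 0) (nat_lit 7))
    (@En.n l43096 (nat_lit 8784) (nat_lit 14) (nat_lit 9))
    (@En.n l25675 (nat_lit 11949) (nat_lit 9) (nat_lit 13))
    (@En.i (nat_lit 6155) (nat_lit 9) (nat_lit 3))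
    (@En.n l8163 (nat_lit 12479) (nat_lit 0) (nat_lit 7))
    (@En.n l810 (nat_lit 10725) (nat_lit 12) (nat_lit 8))
    (@En.n l10637 (nat_lit 6097) (nat_lit 6) (nat_lit 13))
    (@En.n l781 (nat_lit 10264) (nat_lit 9) (nat_lit 9))
    (@En.n l14494 (nat_lit 1544) (nat_lit 12) (nat_lit 6))
    (@En.n l43097 (nat_lit 6119) (nat_lit 15) (nat_lit 3))))
  (@Cl.mk (nat_lit 0x30006000a000d000800070003000d0006000a0003000a0008000d00090006) (nat_lit 0x57200000075460) (nat_lit 16) Lb.e (@T16.mk En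
    (@En.n l33493 (nat_lit 9137) (nat_lit 0) (nat_lit 6))
    (@En.n l7479 (nat_lit 11261) (nat_lit 12) (nat_lit 9))
    (@En.n l3039 (nat_lit 6146) (nat_lit 13) (nat_lit 13))
    (@En.n l7477 (nat_lit 10053) (nat_lit 14) (nat_lit 8))
    (@En.n l41438 (nat_lit 6684) (nat_lit 11) (nat_lit 10))
    (@En.n l29043 (nat_lit 6148) (nat_lit 5) (nat_lit 3))
    (@En.n l33493 (nat_lit 7821) (nat_lit 0) (nat_lit 10))
    (@En.n l36072 (nat_lit 6150) (nat_lit 14) (nat_lit 6))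
    (@En.n l31780 (nat_lit 11950) (nat_lit 9) (nat_lit 13))
    (@En.n l13051 (nat_lit 6212) (nat_lit 9) (nat_lit 3))
    (@En.i (nat_lit 12481) (nat_lit 0) (nat_lit 7))
    (@En.n l9325 (nat_lit 10728) (nat_lit 12) (nat_lit 8))
    (@En.i (nat_lit 6098) (nat_lit 5) (nat_lit 13))
    (@En.n l29449 (nat_lit 10829) (nat_lit 9) (nat_lit 10))
    (@En.n l5592 (nat_lit 1545) (nat_lit 12) (nat_lit 6))
    (@En.n l31227 (nat_lit 6120) (nat_lit 15) (nat_lit 3))))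
  (@Cl.mk (nat_lit 0x30006000a0007000a0007000d0008000600030006000a0009000d00090008) (nat_lit 0x403500056802) (nat_lit 16) Lb.e (@T16.mk En
    (@En.n l619 (nat_lit 12480) (nat_lit 0) (nat_lit 8))
    (@En.n l15622 (nat_lit 10723) (nat_lit 11) (nat_lit 9))
    (@En.n l36917 (nat_lit 6149) (nat_lit 12) (nat_lit 13))
    (@En.n l37659 (nat_lit 6148) (nat_lit 13) (nat_lit 9))
    (@En.n l32636 (nat_lit 10830) (nat_lit 4) (nat_lit 10))
    (@En.n l14352 (nat_lit 1543) (nat_lit 12) (nat_lit 6))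
    (@En.n l9446 (nat_lit 6123) (nat_lit 15) (nat_lit 3))
    (@En.n l17017 (nat_lit 9135) (nat_lit 0) (nat_lit 6))
    (@En.i (nat_lit 11260) (nat_lit 9) (nat_lit 8))
    (@En.n l16439 (nat_lit 6147) (nat_lit 10) (nat_lit 13))
    (@En.n l27101 (nat_lit 10054) (nat_lit 3) (nat_lit 7))
    (@En.n l699 (nat_lit 6773) (nat_lit 8) (nat_lit 10))
    (@En.n l1738 (nat_lit 5359) (nat_lit 5) (nat_lit 7))
    (@En.n l17017 (nat_lit 8777) (nat_lit 14) (nat_lit 10))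
    (@En.i (nat_lit 11499) (nat_lit 12) (nat_lit 6))
    (@En.n l1106 (nat_lit 6154) (nat_lit 15) (nat_lit 3))))
  (@Cl.mk (nat_lit 0x3000a000d000900060003000b00060009000d000700050003000d000a0007) (nat_lit 0x537000007000700) (nat_lit 16) Lb.e (@T16.mk En
    (@En.n l5090 (nat_lit 5282) (nat_lit 0) (nat_lit 7))
    (@En.n l23900 (nat_lit 8395) (nat_lit 14) (nat_lit 10))
    (@En.n l564 (nat_lit 10386) (nat_lit 2) (nat_lit 13))
    (@En.n l23901 (nat_lit 6145) (nat_lit 3) (nat_lit 3))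
    (@En.n l23902 (nat_lit 8354) (nat_lit 0) (nat_lit 5))
    (@En.i (nat_lit 10389) (nat_lit 5) (nat_lit 7))
    (@En.n l23902 (nat_lit 6108) (nat_lit 6) (nat_lit 13))
    (@En.n l5090 (nat_lit 7541) (nat_lit 9) (nat_lit 9))
    (@En.n l159 (nat_lit 6155) (nat_lit 14) (nat_lit 6))
    (@En.n l23903 (nat_lit 10371) (nat_lit 10) (nat_lit 11))
    (@En.n l23904 (nat_lit 6217) (nat_lit 10) (nat_lit 3))
    (@En.n l9518 (nat_lit 9443) (nat_lit 0) (nat_lit 6))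
    (@En.n l23905 (nat_lit 6813) (nat_lit 13) (nat_lit 9))
    (@En.n l23902 (nat_lit 8265) (nat_lit 5) (nat_lit 13))
    (@En.n l22047 (nat_lit 6153) (nat_lit 11) (nat_lit 10))
    (@En.n l7347 (nat_lit 6152) (nat_lit 15) (nat_lit 3))))
  (@Cl.mk (nat_lit 0x3000a000d000900050003000b0006000a000d000700050003000d0006000b) (nat_lit 0x587000077000400) (nat_lit 16) Lb.e (@T16.mk En
    (@En.n l15737 (nat_lit 7820) (nat_lit 0) (nat_lit 11))
    (@En.n l16931 (nat_lit 6153) (nat_lit 14) (nat_lit 6))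
    (@En.n l16932 (nat_lit 10388) (nat_lit 2) (nat_lit 13))
    (@En.n l797 (nat_lit 6146) (nat_lit 3) (nat_lit 3))
    (@En.n l2195 (nat_lit 8355) (nat_lit 0) (nat_lit 5))
    (@En.n l665 (nat_lit 10391) (nat_lit 5) (nat_lit 7))
    (@En.n l159 (nat_lit 6156) (nat_lit 5) (nat_lit 13))
    (@En.i (nat_lit 9401) (nat_lit 3) (nat_lit 10))
    (@En.n l14059 (nat_lit 6212) (nat_lit 14) (nat_lit 6))
    (@En.n l14264 (nat_lit 6211) (nat_lit 10) (nat_lit 11))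
    (@En.n l7 (nat_lit 6216) (nat_lit 10) (nat_lit 3))
    (@En.n l15737 (nat_lit 9444) (nat_lit 0) (nat_lit 5))
    (@En.i (nat_lit 6811) (nat_lit 13) (nat_lit 9))
    (@En.n l2195 (nat_lit 8263) (nat_lit 5) (nat_lit 13))
    (@En.n l5732 (nat_lit 4455) (nat_lit 11) (nat_lit 10))
    (@En.n l16933 (nat_lit 6151) (nat_lit 15) (nat_lit 3))))
  (@Cl.mk (nat_lit 0x30006000b0007000a000d000800050003000a0006000a0009000d00080006) (nat_lit 0x472000041860) (nat_lit 16) Lb.e (@T16.mk En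
    (@En.n l32391 (nat_lit 8356) (nat_lit 0) (nat_lit 6))
    (@En.n l32392 (nat_lit 10390) (nat_lit 10) (nat_lit 8))
    (@En.n l32393 (nat_lit 6152) (nat_lit 6) (nat_lit 13))
    (@En.n l32394 (nat_lit 6151) (nat_lit 7) (nat_lit 9))
    (@En.n l32395 (nat_lit 9758) (nat_lit 4) (nat_lit 10))
    (@En.n l32396 (nat_lit 6154) (nat_lit 5) (nat_lit 6))
    (@En.n l32397 (nat_lit 10370) (nat_lit 7) (nat_lit 10))
    (@En.n l32398 (nat_lit 6218) (nat_lit 7) (nat_lit 3))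
    (@En.n l152 (nat_lit 9437) (nat_lit 0) (nat_lit 5))
    (@En.n l21574 (nat_lit 6812) (nat_lit 10) (nat_lit 8))
    (@En.n l32391 (nat_lit 8260) (nat_lit 5) (nat_lit 13))
    (@En.n l32399 (nat_lit 4453) (nat_lit 8) (nat_lit 10))
    (@En.n l32400 (nat_lit 1738) (nat_lit 13) (nat_lit 7))
    (@En.n l32401 (nat_lit 8774) (nat_lit 14) (nat_lit 11))
    (@En.i (nat_lit 9852) (nat_lit 12) (nat_lit 6))
    (@En.n l32402 (nat_lit 6147) (nat_lit 15) (nat_lit 3))))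
  (@Cl.mk (nat_lit 0x30006000a0007000a0006000d0009000600030006000a0009000d0007000a) (nat_lit 0x408300056804) (nat_lit 16) Lb.e (@T16.mk En
    (@En.i (nat_lit 6002) (nat_lit 0) (nat_lit 10))
    (@En.n l3333 (nat_lit 10393) (nat_lit 11) (nat_lit 7))
    (@En.n l31604 (nat_lit 6212) (nat_lit 12) (nat_lit 13))
    (@En.n l12295 (nat_lit 6155) (nat_lit 13) (nat_lit 9))
    (@En.n l30275 (nat_lit 10714) (nat_lit 4) (nat_lit 10))
    (@En.i (nat_lit 1179) (nat_lit 12) (nat_lit 6))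
    (@En.n l42956 (nat_lit 6215) (nat_lit 15) (nat_lit 3))
    (@En.n l13756 (nat_lit 9133) (nat_lit 0) (nat_lit 6))
    (@En.i (nat_lit 10370) (nat_lit 9) (nat_lit 9))
    (@En.n l31930 (nat_lit 6153) (nat_lit 10) (nat_lit 13))
    (@En.n l28381 (nat_lit 10052) (nat_lit 3) (nat_lit 6))
    (@En.i (nat_lit 4454) (nat_lit 8) (nat_lit 10))
    (@En.n l3178 (nat_lit 4926) (nat_lit 5) (nat_lit 7))
    (@En.n l2568 (nat_lit 8437) (nat_lit 14) (nat_lit 10))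
    (@En.n l3340 (nat_lit 9853) (nat_lit 12) (nat_lit 6))
    (@En.n l3596 (nat_lit 6150) (nat_lit 15) (nat_lit 3))))
  (@Cl.mk (nat_lit 0x300060009000d000600090003000d000900070003000a0007000d000a0007) (nat_lit 0x56010400050480) (nat_lit 16) Lb.e (@T16.mk En
    (@En.n l1501 (nat_lit 9130) (nat_lit 0) (nat_lit 7))
    (@En.n l38499 (nat_lit 10371) (nat_lit 12) (nat_lit 10))
    (@En.n l180 (nat_lit 6151) (nat_lit 13) (nat_lit 13))
    (@En.n l182 (nat_lit 10056) (nat_lit 14) (nat_lit 7))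
    (@En.n l11834 (nat_lit 6154) (nat_lit 11) (nat_lit 10))
    (@En.n l22022 (nat_lit 6212) (nat_lit 5) (nat_lit 3))
    (@En.n l1252 (nat_lit 5415) (nat_lit 0) (nat_lit 7))
    (@En.n l22424 (nat_lit 8817) (nat_lit 14) (nat_lit 9))
    (@En.n l10666 (nat_lit 10380) (nat_lit 9) (nat_lit 13))
    (@En.n l7 (nat_lit 6148) (nat_lit 9) (nat_lit 3))
    (@En.n l1252 (nat_lit 5454) (nat_lit 9) (nat_lit 9))
    (@En.n l2678 (nat_lit 10392) (nat_lit 5) (nat_lit 6))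
    (@En.n l617 (nat_lit 6109) (nat_lit 6) (nat_lit 13))
    (@En.n l781 (nat_lit 10261) (nat_lit 9) (nat_lit 9))
    (@En.i (nat_lit 1178) (nat_lit 12) (nat_lit 6))
    (@En.n l38500 (nat_lit 6214) (nat_lit 15) (nat_lit 3))))
  (@Cl.mk (nat_lit 0x2000b0003000a000d000a00050003000c0006000d000600040003000e000d) (nat_lit 0x2081800a0600088) (nat_lit 16) Lb.e (@T16.mk En
    (@En.n l2921 (nat_lit 6108) (nat_lit 2) (nat_lit 13))
    (@En.n l619 (nat_lit 8125) (nat_lit 1) (nat_lit 14))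
    (@En.n l2101 (nat_lit 6143) (nat_lit 2) (nat_lit 3))
    (@En.n l2921 (nat_lit 4060) (nat_lit 3) (nat_lit 4))
    (@En.n l1290 (nat_lit 4188) (nat_lit 4) (nat_lit 6))
    (@En.i (nat_lit 840) (nat_lit 6) (nat_lit 13))
    (@En.n l61 (nat_lit 6112) (nat_lit 6) (nat_lit 6))
    (@En.n l12827 (nat_lit 6198) (nat_lit 8) (nat_lit 12))
    (@En.n l7 (nat_lit 6157) (nat_lit 8) (nat_lit 3))
    (@En.n l16041 (nat_lit 7686) (nat_lit 9) (nat_lit 5))
    (@En.i (nat_lit 6158) (nat_lit 11) (nat_lit 10))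
    (@En.n l2921 (nat_lit 3733) (nat_lit 12) (nat_lit 13))
    (@En.i (nat_lit 4461) (nat_lit 13) (nat_lit 10))
    (@En.n l2202 (nat_lit 6108) (nat_lit 14) (nat_lit 3))
    (@En.i (nat_lit 4653) (nat_lit 0) (nat_lit 11))
    (@En.n l107 (nat_lit 6156) (nat_lit 15) (nat_lit 2))))
  (@Cl.mk (nat_lit 0x2000c0003000a000d0004000b0003000c0006000d000500040003000e000d) (nat_lit 0x61090a060000a) (nat_lit 16) Lb.e (@T16.mk En
    (@En.n l2921 (nat_lit 6103) (nat_lit 2) (nat_lit 13))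
    (@En.n l619 (nat_lit 8127) (nat_lit 1) (nat_lit 14))
    (@En.n l2101 (nat_lit 5665) (nat_lit 2) (nat_lit 3))
    (@En.n l2921 (nat_lit 4058) (nat_lit 3) (nat_lit 4))
    (@En.n l1290 (nat_lit 6176) (nat_lit 4) (nat_lit 5))
    (@En.i (nat_lit 595) (nat_lit 6) (nat_lit 13))
    (@En.n l61 (nat_lit 6113) (nat_lit 6) (nat_lit 6))
    (@En.i (nat_lit 6167) (nat_lit 8) (nat_lit 12))
    (@En.i (nat_lit 6156) (nat_lit 8) (nat_lit 3))
    (@En.i (nat_lit 6413) (nat_lit 10) (nat_lit 11))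
    (@En.i (nat_lit 8541) (nat_lit 10) (nat_lit 4))
    (@En.n l2921 (nat_lit 3814) (nat_lit 12) (nat_lit 13))
    (@En.i (nat_lit 6735) (nat_lit 13) (nat_lit 10))
    (@En.n l2202 (nat_lit 6103) (nat_lit 14) (nat_lit 3))
    (@En.i (nat_lit 7870) (nat_lit 0) (nat_lit 12))
    (@En.n l107 (nat_lit 6157) (nat_lit 15) (nat_lit 2))))
  (@Cl.mk (nat_lit 0x2000c0003000b000a0004000b000b0005000c0006000500050004000e000d) (nat_lit 0x8708904000000) (nat_lit 16) Lb.e (@T16.mk En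
    (@En.n l17768 (nat_lit 6159) (nat_lit 2) (nat_lit 13))
    (@En.n l6080 (nat_lit 8128) (nat_lit 1) (nat_lit 14))
    (@En.n l12824 (nat_lit 6170) (nat_lit 2) (nat_lit 4))
    (@En.n l26393 (nat_lit 6160) (nat_lit 11) (nat_lit 5))
    (@En.i (nat_lit 6157) (nat_lit 4) (nat_lit 5))
    (@En.n l10118 (nat_lit 3243) (nat_lit 5) (nat_lit 6))
    (@En.i (nat_lit 588) (nat_lit 7) (nat_lit 12))
    (@En.n l17770 (nat_lit 6198) (nat_lit 7) (nat_lit 5))
    (@En.n l12827 (nat_lit 6199) (nat_lit 5) (nat_lit 11))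
    (@En.n l5911 (nat_lit 6335) (nat_lit 10) (nat_lit 11))
    (@En.n l14265 (nat_lit 8536) (nat_lit 10) (nat_lit 4))
    (@En.n l12829 (nat_lit 1070) (nat_lit 12) (nat_lit 10))
    (@En.i (nat_lit 6806) (nat_lit 13) (nat_lit 11))
    (@En.n l8537 (nat_lit 6159) (nat_lit 14) (nat_lit 3))
    (@En.n l23118 (nat_lit 7894) (nat_lit 0) (nat_lit 12))
    (@En.n l107 (nat_lit 6158) (nat_lit 15) (nat_lit 2))))
  (@Cl.mk (nat_lit 0x30003000b000a0005000b000b0005000c0006000500050004000d000d000b) (nat_lit 0x87004040000b02) (nat_lit 16) Lb.e (@T16.mk En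
    (@En.n l2183 (nat_lit 7917) (nat_lit 0) (nat_lit 11))
    (@En.n l7393 (nat_lit 6162) (nat_lit 3) (nat_lit 13))
    (@En.n l2129 (nat_lit 8137) (nat_lit 2) (nat_lit 13))
    (@En.n l2179 (nat_lit 5664) (nat_lit 3) (nat_lit 4))
    (@En.n l14291 (nat_lit 6161) (nat_lit 11) (nat_lit 5))
    (@En.n l2180 (nat_lit 6103) (nat_lit 5) (nat_lit 5))
    (@En.n l14292 (nat_lit 3240) (nat_lit 6) (nat_lit 6))
    (@En.n l2183 (nat_lit 586) (nat_lit 8) (nat_lit 12))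
    (@En.n l18 (nat_lit 6111) (nat_lit 8) (nat_lit 5))
    (@En.n l61 (nat_lit 6200) (nat_lit 5) (nat_lit 11))
    (@En.n l2129 (nat_lit 6334) (nat_lit 11) (nat_lit 11))
    (@En.n l14293 (nat_lit 8350) (nat_lit 12) (nat_lit 5))
    (@En.n l14294 (nat_lit 1067) (nat_lit 13) (nat_lit 10))
    (@En.n l2183 (nat_lit 6811) (nat_lit 14) (nat_lit 11))
    (@En.n l14295 (nat_lit 6158) (nat_lit 13) (nat_lit 3))
    (@En.n l1790 (nat_lit 6162) (nat_lit 0) (nat_lit 3))))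
noncomputable def a385 : T16 Cl := @T16.mk Cl
  (@Cl.mk (nat_lit 0x20006000d000700050003000e000d0002000c0003000a00090004000e000b) (nat_lit 0x50000000077019) (nat_lit 16) Lb.e (@T16.mk En
    (@En.n l12621 (nat_lit 6158) (nat_lit 9) (nat_lit 11))
    (@En.n l6803 (nat_lit 379) (nat_lit 1) (nat_lit 14))
    (@En.n l12622 (nat_lit 8522) (nat_lit 2) (nat_lit 4))
    (@En.i (nat_lit 1121) (nat_lit 12) (nat_lit 9))
    (@En.n l4834 (nat_lit 6628) (nat_lit 4) (nat_lit 10))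
    (@En.n l117 (nat_lit 6161) (nat_lit 5) (nat_lit 3))
    (@En.i (nat_lit 7764) (nat_lit 7) (nat_lit 12))
    (@En.n l3 (nat_lit 6160) (nat_lit 7) (nat_lit 2))
    (@En.i (nat_lit 6161) (nat_lit 9) (nat_lit 13))
    (@En.n l4832 (nat_lit 8130) (nat_lit 10) (nat_lit 14))
    (@En.i (nat_lit 6165) (nat_lit 10) (nat_lit 3))
    (@En.n l3971 (nat_lit 4059) (nat_lit 3) (nat_lit 5))
    (@En.n l4833 (nat_lit 3622) (nat_lit 13) (nat_lit 7))
    (@En.n l4834 (nat_lit 584) (nat_lit 6) (nat_lit 13))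
    (@En.n l4835 (nat_lit 6156) (nat_lit 6) (nat_lit 6))
    (@En.n l7 (nat_lit 6160) (nat_lit 15) (nat_lit 2))))
  (@Cl.mk (nat_lit 0x20006000d000700050003000d000d000b00030003000a00090005000e000b) (nat_lit 0x6000b0200870b1) (nat_lit 16) Lb.e (@T16.mk En
    (@En.n l6920 (nat_lit 6159) (nat_lit 10) (nat_lit 11))
    (@En.n l6803 (nat_lit 1098) (nat_lit 1) (nat_lit 14))
    (@En.n l6921 (nat_lit 8477) (nat_lit 2) (nat_lit 5))
    (@En.i (nat_lit 1073) (nat_lit 3) (nat_lit 9))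
    (@En.n l476 (nat_lit 8257) (nat_lit 4) (nat_lit 10))
    (@En.n l152 (nat_lit 6160) (nat_lit 5) (nat_lit 3))
    (@En.n l6921 (nat_lit 6163) (nat_lit 6) (nat_lit 3))
    (@En.n l6922 (nat_lit 7919) (nat_lit 8) (nat_lit 11))
    (@En.n l6923 (nat_lit 6163) (nat_lit 9) (nat_lit 13))
    (@En.i (nat_lit 8132) (nat_lit 10) (nat_lit 13))
    (@En.i (nat_lit 6164) (nat_lit 10) (nat_lit 3))
    (@En.n l3971 (nat_lit 4063) (nat_lit 0) (nat_lit 5))
    (@En.n l2863 (nat_lit 3241) (nat_lit 13) (nat_lit 7))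
    (@En.n l61 (nat_lit 567) (nat_lit 14) (nat_lit 13))
    (@En.n l6924 (nat_lit 6108) (nat_lit 7) (nat_lit 6))
    (@En.n l7 (nat_lit 6161) (nat_lit 15) (nat_lit 2))))
  (@Cl.mk (nat_lit 0x2000b000a0006000b000b0005000c0006000500050004000d000a000e0003) (nat_lit 0x87009040000b0b0) (nat_lit 16) Lb.e (@T16.mk En
    (@En.n l5389 (nat_lit 6159) (nat_lit 15) (nat_lit 3))
    (@En.n l5760 (nat_lit 14001) (nat_lit 0) (nat_lit 14))
    (@En.n l2874 (nat_lit 6999) (nat_lit 2) (nat_lit 10))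
    (@En.i (nat_lit 8138) (nat_lit 2) (nat_lit 13))
    (@En.n l5781 (nat_lit 6118) (nat_lit 4) (nat_lit 4))
    (@En.n l6844 (nat_lit 6163) (nat_lit 11) (nat_lit 5))
    (@En.n l5760 (nat_lit 6102) (nat_lit 6) (nat_lit 5))
    (@En.n l387 (nat_lit 3242) (nat_lit 7) (nat_lit 6))
    (@En.n l5760 (nat_lit 587) (nat_lit 9) (nat_lit 12))
    (@En.n l1950 (nat_lit 6110) (nat_lit 9) (nat_lit 5))
    (@En.n l55 (nat_lit 6203) (nat_lit 5) (nat_lit 11))
    (@En.i (nat_lit 6408) (nat_lit 12) (nat_lit 11))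
    (@En.n l14239 (nat_lit 8585) (nat_lit 13) (nat_lit 6))
    (@En.n l1106 (nat_lit 1072) (nat_lit 14) (nat_lit 10))
    (@En.n l17617 (nat_lit 6813) (nat_lit 14) (nat_lit 11))
    (@En.n l18 (nat_lit 6162) (nat_lit 15) (nat_lit 2))))
  (@Cl.mk (nat_lit 0x20006000d000700050003000d000a000e00030002000a00090006000e000b) (nat_lit 0x5000b0b00770b1) (nat_lit 16) Lb.e (@T16.mk En
    (@En.n l11023 (nat_lit 6162) (nat_lit 11) (nat_lit 11))
    (@En.n l1029 (nat_lit 1099) (nat_lit 1) (nat_lit 14))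
    (@En.i (nat_lit 8580) (nat_lit 2) (nat_lit 6))
    (@En.n l11024 (nat_lit 1086) (nat_lit 14) (nat_lit 9))
    (@En.n l3623 (nat_lit 8256) (nat_lit 4) (nat_lit 10))
    (@En.n l50 (nat_lit 6163) (nat_lit 5) (nat_lit 2))
    (@En.n l11025 (nat_lit 6161) (nat_lit 6) (nat_lit 3))
    (@En.n l4546 (nat_lit 13850) (nat_lit 0) (nat_lit 14))
    (@En.i (nat_lit 6998) (nat_lit 9) (nat_lit 10))
    (@En.n l11026 (nat_lit 8135) (nat_lit 10) (nat_lit 13))
    (@En.n l11 (nat_lit 6168) (nat_lit 10) (nat_lit 3))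
    (@En.n l4546 (nat_lit 4065) (nat_lit 5) (nat_lit 5))
    (@En.n l704 (nat_lit 3623) (nat_lit 13) (nat_lit 7))
    (@En.n l4546 (nat_lit 585) (nat_lit 8) (nat_lit 13))
    (@En.n l1034 (nat_lit 6106) (nat_lit 8) (nat_lit 6))
    (@En.n l3 (nat_lit 6163) (nat_lit 15) (nat_lit 2))))
  (@Cl.mk (nat_lit 0x20006000d000400080003000d000d000b00030003000a00080005000e000c) (nat_lit 0x50208a2007109a) (nat_lit 16) Lb.e (@T16.mk En
    (@En.i (nat_lit 6166) (nat_lit 10) (nat_lit 12))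
    (@En.n l12285 (nat_lit 1312) (nat_lit 1) (nat_lit 14))
    (@En.n l7297 (nat_lit 8527) (nat_lit 2) (nat_lit 5))
    (@En.i (nat_lit 1150) (nat_lit 3) (nat_lit 8))
    (@En.n l476 (nat_lit 7677) (nat_lit 4) (nat_lit 10))
    (@En.n l152 (nat_lit 6165) (nat_lit 5) (nat_lit 3))
    (@En.n l7297 (nat_lit 6168) (nat_lit 6) (nat_lit 3))
    (@En.n l7302 (nat_lit 7918) (nat_lit 8) (nat_lit 11))
    (@En.n l14509 (nat_lit 6168) (nat_lit 9) (nat_lit 13))
    (@En.i (nat_lit 7672) (nat_lit 10) (nat_lit 13))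
    (@En.n l72 (nat_lit 6161) (nat_lit 10) (nat_lit 3))
    (@En.n l18 (nat_lit 5443) (nat_lit 12) (nat_lit 8))
    (@En.i (nat_lit 6184) (nat_lit 5) (nat_lit 4))
    (@En.n l61 (nat_lit 564) (nat_lit 14) (nat_lit 13))
    (@En.n l1723 (nat_lit 6142) (nat_lit 7) (nat_lit 6))
    (@En.n l7 (nat_lit 6164) (nat_lit 15) (nat_lit 2))))
  (@Cl.mk (nat_lit 0x20006000d000400080003000e000d0002000c0003000a00080004000e000c) (nat_lit 0x5020090408109a) (nat_lit 16) Lb.e (@T16.mk En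
    (@En.n l22812 (nat_lit 6167) (nat_lit 9) (nat_lit 12))
    (@En.n l12285 (nat_lit 1314) (nat_lit 1) (nat_lit 14))
    (@En.n l12579 (nat_lit 8523) (nat_lit 2) (nat_lit 4))
    (@En.i (nat_lit 1216) (nat_lit 3) (nat_lit 8))
    (@En.n l11911 (nat_lit 5118) (nat_lit 4) (nat_lit 10))
    (@En.n l117 (nat_lit 6164) (nat_lit 5) (nat_lit 3))
    (@En.i (nat_lit 7759) (nat_lit 7) (nat_lit 12))
    (@En.n l3 (nat_lit 6165) (nat_lit 7) (nat_lit 2))
    (@En.i (nat_lit 6164) (nat_lit 9) (nat_lit 13))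
    (@En.i (nat_lit 7671) (nat_lit 10) (nat_lit 14))
    (@En.n l72 (nat_lit 6160) (nat_lit 10) (nat_lit 3))
    (@En.n l18 (nat_lit 5448) (nat_lit 12) (nat_lit 8))
    (@En.n l22813 (nat_lit 4293) (nat_lit 4) (nat_lit 4))
    (@En.n l11911 (nat_lit 566) (nat_lit 6) (nat_lit 13))
    (@En.n l1723 (nat_lit 6143) (nat_lit 6) (nat_lit 6))
    (@En.n l7 (nat_lit 6165) (nat_lit 15) (nat_lit 2))))
  (@Cl.mk (nat_lit 0x30003000b00080005000c000c0005000c0004000400080004000d000d000b) (nat_lit 0x84094040030002) (nat_lit 16) Lb.e (@T16.mk En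
    (@En.n l7302 (nat_lit 7916) (nat_lit 0) (nat_lit 11))
    (@En.n l27890 (nat_lit 6169) (nat_lit 3) (nat_lit 13))
    (@En.n l27891 (nat_lit 7087) (nat_lit 2) (nat_lit 13))
    (@En.n l63 (nat_lit 6159) (nat_lit 3) (nat_lit 4))
    (@En.n l27892 (nat_lit 6105) (nat_lit 4) (nat_lit 8))
    (@En.n l77 (nat_lit 6164) (nat_lit 12) (nat_lit 4))
    (@En.n l27893 (nat_lit 6177) (nat_lit 6) (nat_lit 4))
    (@En.n l5653 (nat_lit 558) (nat_lit 8) (nat_lit 12))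
    (@En.n l1723 (nat_lit 6138) (nat_lit 8) (nat_lit 5))
    (@En.n l27894 (nat_lit 6202) (nat_lit 4) (nat_lit 12))
    (@En.n l27895 (nat_lit 6329) (nat_lit 11) (nat_lit 12))
    (@En.n l27896 (nat_lit 8533) (nat_lit 4) (nat_lit 5))
    (@En.i (nat_lit 1152) (nat_lit 13) (nat_lit 8))
    (@En.n l27897 (nat_lit 8803) (nat_lit 14) (nat_lit 11))
    (@En.n l27898 (nat_lit 6167) (nat_lit 13) (nat_lit 3))
    (@En.n l27899 (nat_lit 6169) (nat_lit 0) (nat_lit 3))))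
  (@Cl.mk (nat_lit 0x2000c0003000b00080004000c000c0005000c0004000400080004000e000d) (nat_lit 0x408109904003001) (nat_lit 16) Lb.e (@T16.mk En
    (@En.n l26337 (nat_lit 6166) (nat_lit 2) (nat_lit 13))
    (@En.n l11722 (nat_lit 7095) (nat_lit 1) (nat_lit 14))
    (@En.n l403 (nat_lit 6158) (nat_lit 2) (nat_lit 4))
    (@En.n l1353 (nat_lit 6113) (nat_lit 3) (nat_lit 8))
    (@En.n l26338 (nat_lit 6165) (nat_lit 12) (nat_lit 4))
    (@En.n l26339 (nat_lit 6174) (nat_lit 5) (nat_lit 4))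
    (@En.i (nat_lit 563) (nat_lit 7) (nat_lit 12))
    (@En.n l26340 (nat_lit 6172) (nat_lit 7) (nat_lit 5))
    (@En.n l26341 (nat_lit 6201) (nat_lit 4) (nat_lit 12))
    (@En.n l9060 (nat_lit 6330) (nat_lit 10) (nat_lit 12))
    (@En.n l3727 (nat_lit 8532) (nat_lit 10) (nat_lit 4))
    (@En.n l26337 (nat_lit 1218) (nat_lit 12) (nat_lit 8))
    (@En.i (nat_lit 5114) (nat_lit 13) (nat_lit 11))
    (@En.n l26342 (nat_lit 6166) (nat_lit 14) (nat_lit 3))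
    (@En.i (nat_lit 7756) (nat_lit 0) (nat_lit 12))
    (@En.n l107 (nat_lit 6167) (nat_lit 15) (nat_lit 2))))
  (@Cl.mk (nat_lit 0x20006000d000400080003000d000a000e00030002000a00080006000e000c) (nat_lit 0x502090b008509a) (nat_lit 16) Lb.e (@T16.mk En
    (@En.n l700 (nat_lit 6169) (nat_lit 11) (nat_lit 12))
    (@En.n l16835 (nat_lit 1313) (nat_lit 1) (nat_lit 14))
    (@En.i (nat_lit 8579) (nat_lit 2) (nat_lit 6))
    (@En.n l12554 (nat_lit 1148) (nat_lit 14) (nat_lit 8))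
    (@En.n l16836 (nat_lit 7678) (nat_lit 4) (nat_lit 10))
    (@En.n l50 (nat_lit 6168) (nat_lit 5) (nat_lit 2))
    (@En.n l8811 (nat_lit 6164) (nat_lit 6) (nat_lit 3))
    (@En.n l4361 (nat_lit 13851) (nat_lit 0) (nat_lit 14))
    (@En.i (nat_lit 6997) (nat_lit 9) (nat_lit 10))
    (@En.n l4361 (nat_lit 7093) (nat_lit 10) (nat_lit 13))
    (@En.i (nat_lit 6163) (nat_lit 10) (nat_lit 3))
    (@En.n l6029 (nat_lit 5450) (nat_lit 12) (nat_lit 8))
    (@En.n l117 (nat_lit 6185) (nat_lit 6) (nat_lit 4))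
    (@En.n l4361 (nat_lit 565) (nat_lit 8) (nat_lit 13))
    (@En.i (nat_lit 6144) (nat_lit 8) (nat_lit 6))
    (@En.n l3 (nat_lit 6168) (nat_lit 15) (nat_lit 2))))
  (@Cl.mk (nat_lit 0x2000b00080006000c000c0005000c0004000400080004000d000a000e0003) (nat_lit 0x81099040030b0b0) (nat_lit 16) Lb.e (@T16.mk En
    (@En.n l14392 (nat_lit 6166) (nat_lit 15) (nat_lit 3))
    (@En.n l8380 (nat_lit 13886) (nat_lit 0) (nat_lit 14))
    (@En.n l8305 (nat_lit 6996) (nat_lit 2) (nat_lit 10))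
    (@En.n l615 (nat_lit 7084) (nat_lit 2) (nat_lit 13))
    (@En.n l564 (nat_lit 6162) (nat_lit 4) (nat_lit 4))
    (@En.n l12588 (nat_lit 6104) (nat_lit 5) (nat_lit 8))
    (@En.n l1282 (nat_lit 6168) (nat_lit 12) (nat_lit 4))
    (@En.n l11940 (nat_lit 6187) (nat_lit 7) (nat_lit 4))
    (@En.n l8380 (nat_lit 562) (nat_lit 9) (nat_lit 12))
    (@En.n l11941 (nat_lit 6140) (nat_lit 9) (nat_lit 5))
    (@En.n l55 (nat_lit 6204) (nat_lit 4) (nat_lit 12))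
    (@En.n l564 (nat_lit 6331) (nat_lit 12) (nat_lit 12))
    (@En.n l8305 (nat_lit 8578) (nat_lit 13) (nat_lit 6))
    (@En.n l32236 (nat_lit 1151) (nat_lit 14) (nat_lit 8))
    (@En.n l32237 (nat_lit 8802) (nat_lit 14) (nat_lit 11))
    (@En.n l17 (nat_lit 6169) (nat_lit 15) (nat_lit 2))))
  (@Cl.mk (nat_lit 0x2000c0003000b00090004000a000d0005000c0003000700060004000e000d) (nat_lit 0x74019050000aa) (nat_lit 16) Lb.e (@T16.mk En
    (@En.i (nat_lit 5664) (nat_lit 2) (nat_lit 13))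
    (@En.i (nat_lit 11213) (nat_lit 1) (nat_lit 14))
    (@En.n l3291 (nat_lit 6167) (nat_lit 2) (nat_lit 4))
    (@En.n l7 (nat_lit 5665) (nat_lit 3) (nat_lit 6))
    (@En.n l644 (nat_lit 6115) (nat_lit 4) (nat_lit 7))
    (@En.n l2869 (nat_lit 5657) (nat_lit 5) (nat_lit 3))
    (@En.n l1997 (nat_lit 880) (nat_lit 0) (nat_lit 12))
    (@En.n l7 (nat_lit 6171) (nat_lit 7) (nat_lit 5))
    (@En.n l5838 (nat_lit 6135) (nat_lit 5) (nat_lit 13))
    (@En.i (nat_lit 2267) (nat_lit 10) (nat_lit 10))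
    (@En.n l6238 (nat_lit 8537) (nat_lit 10) (nat_lit 4))
    (@En.n l396 (nat_lit 4288) (nat_lit 12) (nat_lit 9))
    (@En.i (nat_lit 6722) (nat_lit 13) (nat_lit 11))
    (@En.n l117 (nat_lit 5664) (nat_lit 14) (nat_lit 3))
    (@En.i (nat_lit 7864) (nat_lit 0) (nat_lit 12))
    (@En.n l3 (nat_lit 6170) (nat_lit 15) (nat_lit 2))))
  (@Cl.mk (nat_lit 0x2000b0003000b000a000a0005000b0005000c0006000600050004000e000d) (nat_lit 0x709670103000059) (nat_lit 16) Lb.e (@T16.mk En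
    (@En.i (nat_lit 6071) (nat_lit 2) (nat_lit 13))
    (@En.i (nat_lit 11200) (nat_lit 1) (nat_lit 14))
    (@En.n l22540 (nat_lit 6172) (nat_lit 2) (nat_lit 4))
    (@En.i (nat_lit 6115) (nat_lit 3) (nat_lit 5))
    (@En.n l11512 (nat_lit 6069) (nat_lit 10) (nat_lit 6))
    (@En.n l22541 (nat_lit 3247) (nat_lit 5) (nat_lit 6))
    (@En.n l1012 (nat_lit 739) (nat_lit 7) (nat_lit 12))
    (@En.n l22543 (nat_lit 1143) (nat_lit 7) (nat_lit 5))
    (@En.n l22542 (nat_lit 2229) (nat_lit 9) (nat_lit 11))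
    (@En.n l5934 (nat_lit 10528) (nat_lit 9) (nat_lit 5))
    (@En.n l22544 (nat_lit 6136) (nat_lit 6) (nat_lit 10))
    (@En.n l22545 (nat_lit 5657) (nat_lit 12) (nat_lit 10))
    (@En.i (nat_lit 6610) (nat_lit 13) (nat_lit 11))
    (@En.n l117 (nat_lit 6071) (nat_lit 14) (nat_lit 3))
    (@En.i (nat_lit 7748) (nat_lit 0) (nat_lit 11))
    (@En.n l3 (nat_lit 6171) (nat_lit 15) (nat_lit 2))))
  (@Cl.mk (nat_lit 0x2000b0003000b000900090005000d0005000c0003000700070004000e000d) (nat_lit 0x6081703040000a1) (nat_lit 16) Lb.e (@T16.mk En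
    (@En.i (nat_lit 6138) (nat_lit 2) (nat_lit 13))
    (@En.n l4270 (nat_lit 7985) (nat_lit 1) (nat_lit 14))
    (@En.n l17273 (nat_lit 6198) (nat_lit 2) (nat_lit 4))
    (@En.n l4328 (nat_lit 6068) (nat_lit 9) (nat_lit 7))
    (@En.n l8898 (nat_lit 6098) (nat_lit 4) (nat_lit 7))
    (@En.n l5838 (nat_lit 6173) (nat_lit 5) (nat_lit 3))
    (@En.n l22507 (nat_lit 752) (nat_lit 0) (nat_lit 12))
    (@En.n l14160 (nat_lit 1129) (nat_lit 7) (nat_lit 5))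
    (@En.n l28 (nat_lit 6268) (nat_lit 9) (nat_lit 13))
    (@En.n l1393 (nat_lit 10526) (nat_lit 9) (nat_lit 5))
    (@En.n l3961 (nat_lit 6135) (nat_lit 7) (nat_lit 9))
    (@En.n l22818 (nat_lit 4293) (nat_lit 12) (nat_lit 9))
    (@En.n l28205 (nat_lit 6605) (nat_lit 13) (nat_lit 11))
    (@En.n l117 (nat_lit 6138) (nat_lit 14) (nat_lit 3))
    (@En.i (nat_lit 7752) (nat_lit 0) (nat_lit 11))
    (@En.n l3 (nat_lit 6172) (nat_lit 15) (nat_lit 2))))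
  (@Cl.mk (nat_lit 0x2000b0003000a000900090005000d000b00060003000700070005000e000d) (nat_lit 0x6071509200000a1) (nat_lit 16) Lb.e (@T16.mk En
    (@En.i (nat_lit 6139) (nat_lit 2) (nat_lit 13))
    (@En.n l1501 (nat_lit 7106) (nat_lit 1) (nat_lit 14))
    (@En.n l22531 (nat_lit 6175) (nat_lit 2) (nat_lit 5))
    (@En.n l32950 (nat_lit 6070) (nat_lit 9) (nat_lit 7))
    (@En.n l32951 (nat_lit 5640) (nat_lit 4) (nat_lit 7))
    (@En.n l32952 (nat_lit 6172) (nat_lit 5) (nat_lit 3))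
    (@En.i (nat_lit 3110) (nat_lit 0) (nat_lit 6))
    (@En.n l22531 (nat_lit 6171) (nat_lit 8) (nat_lit 11))
    (@En.n l15682 (nat_lit 6259) (nat_lit 9) (nat_lit 13))
    (@En.n l22535 (nat_lit 10527) (nat_lit 9) (nat_lit 5))
    (@En.n l217 (nat_lit 6137) (nat_lit 7) (nat_lit 9))
    (@En.n l13399 (nat_lit 4292) (nat_lit 12) (nat_lit 9))
    (@En.n l8523 (nat_lit 9377) (nat_lit 13) (nat_lit 10))
    (@En.n l117 (nat_lit 6139) (nat_lit 14) (nat_lit 3))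
    (@En.n l1501 (nat_lit 7750) (nat_lit 0) (nat_lit 11))
    (@En.n l3 (nat_lit 6173) (nat_lit 15) (nat_lit 2))))
  (@Cl.mk (nat_lit 0x2000c0003000a00080004000c000a000d00060004000300080006000e000d) (nat_lit 0x6309210005050) (nat_lit 16) Lb.e (@T16.mk En
    (@En.i (nat_lit 6177) (nat_lit 2) (nat_lit 13))
    (@En.n l8262 (nat_lit 7096) (nat_lit 1) (nat_lit 14))
    (@En.n l14909 (nat_lit 6176) (nat_lit 2) (nat_lit 6))
    (@En.n l24397 (nat_lit 6175) (nat_lit 3) (nat_lit 8))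
    (@En.n l26591 (nat_lit 4292) (nat_lit 4) (nat_lit 3))
    (@En.n l829 (nat_lit 6201) (nat_lit 0) (nat_lit 4))
    (@En.n l77 (nat_lit 6173) (nat_lit 6) (nat_lit 6))
    (@En.i (nat_lit 3932) (nat_lit 8) (nat_lit 13))
    (@En.n l2019 (nat_lit 6170) (nat_lit 9) (nat_lit 10))
    (@En.n l35356 (nat_lit 4495) (nat_lit 10) (nat_lit 12))
    (@En.n l688 (nat_lit 9742) (nat_lit 10) (nat_lit 4))
    (@En.n l2900 (nat_lit 4282) (nat_lit 12) (nat_lit 8))
    (@En.n l26592 (nat_lit 9658) (nat_lit 13) (nat_lit 10))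
    (@En.n l117 (nat_lit 6177) (nat_lit 14) (nat_lit 3))
    (@En.n l8262 (nat_lit 7867) (nat_lit 0) (nat_lit 12))
    (@En.n l3 (nat_lit 6174) (nat_lit 15) (nat_lit 2))))
  (@Cl.mk (nat_lit 0x2000b000300090008000c0005000c000b00040007000400080005000e000d) (nat_lit 0x66704300040a0) (nat_lit 16) Lb.e (@T16.mk En
    (@En.i (nat_lit 6179) (nat_lit 2) (nat_lit 13))
    (@En.n l719 (nat_lit 9580) (nat_lit 1) (nat_lit 14))
    (@En.n l29419 (nat_lit 5902) (nat_lit 2) (nat_lit 5))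
    (@En.n l35712 (nat_lit 3634) (nat_lit 3) (nat_lit 8))
    (@En.n l29421 (nat_lit 6198) (nat_lit 4) (nat_lit 4))
    (@En.n l29422 (nat_lit 6070) (nat_lit 11) (nat_lit 7))
    (@En.n l34978 (nat_lit 4195) (nat_lit 6) (nat_lit 4))
    (@En.i (nat_lit 6115) (nat_lit 8) (nat_lit 11))
    (@En.n l35713 (nat_lit 4498) (nat_lit 9) (nat_lit 12))
    (@En.n l29422 (nat_lit 9190) (nat_lit 9) (nat_lit 5))
    (@En.n l50 (nat_lit 6176) (nat_lit 11) (nat_lit 12))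
    (@En.n l2579 (nat_lit 6180) (nat_lit 12) (nat_lit 8))
    (@En.n l14619 (nat_lit 9382) (nat_lit 13) (nat_lit 9))
    (@En.n l117 (nat_lit 6179) (nat_lit 14) (nat_lit 3))
    (@En.n l719 (nat_lit 7868) (nat_lit 0) (nat_lit 11))
    (@En.n l3 (nat_lit 6175) (nat_lit 15) (nat_lit 2))))
noncomputable def a386 : T16 Cl := @T16.mk Cl
  (@Cl.mk (nat_lit 0x2000c00030009000c0004000b000a0004000d0007000500030006000e000d) (nat_lit 0x66032020000ab) (nat_lit 16) Lb.e (@T16.mk En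
    (@En.i (nat_lit 6178) (nat_lit 2) (nat_lit 13))
    (@En.n l719 (nat_lit 9578) (nat_lit 1) (nat_lit 14))
    (@En.n l17 (nat_lit 5974) (nat_lit 12) (nat_lit 6))
    (@En.n l2869 (nat_lit 6180) (nat_lit 3) (nat_lit 3))
    (@En.n l889 (nat_lit 6199) (nat_lit 0) (nat_lit 5))
    (@En.i (nat_lit 6175) (nat_lit 5) (nat_lit 7))
    (@En.n l5882 (nat_lit 6174) (nat_lit 7) (nat_lit 13))
    (@En.i (nat_lit 4351) (nat_lit 7) (nat_lit 4))
    (@En.i (nat_lit 5665) (nat_lit 9) (nat_lit 10))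
    (@En.n l698 (nat_lit 4493) (nat_lit 10) (nat_lit 11))
    (@En.i (nat_lit 9747) (nat_lit 10) (nat_lit 4))
    (@En.i (nat_lit 3911) (nat_lit 6) (nat_lit 12))
    (@En.n l14619 (nat_lit 9657) (nat_lit 13) (nat_lit 9))
    (@En.n l117 (nat_lit 6178) (nat_lit 14) (nat_lit 3))
    (@En.n l698 (nat_lit 7866) (nat_lit 0) (nat_lit 12))
    (@En.n l3 (nat_lit 6176) (nat_lit 15) (nat_lit 2))))
  (@Cl.mk (nat_lit 0x30003000a00080005000c000a000d00060004000300080006000d000d000b) (nat_lit 0x61092300050b00) (nat_lit 16) Lb.e (@T16.mk En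
    (@En.n l6491 (nat_lit 7163) (nat_lit 0) (nat_lit 11))
    (@En.n l15945 (nat_lit 6187) (nat_lit 3) (nat_lit 13))
    (@En.n l6014 (nat_lit 10464) (nat_lit 13) (nat_lit 13))
    (@En.n l14909 (nat_lit 6178) (nat_lit 3) (nat_lit 6))
    (@En.n l24397 (nat_lit 6179) (nat_lit 4) (nat_lit 8))
    (@En.n l34759 (nat_lit 6182) (nat_lit 5) (nat_lit 3))
    (@En.n l1422 (nat_lit 6202) (nat_lit 0) (nat_lit 4))
    (@En.n l77 (nat_lit 6139) (nat_lit 7) (nat_lit 6))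
    (@En.i (nat_lit 3934) (nat_lit 5) (nat_lit 13))
    (@En.n l2019 (nat_lit 5664) (nat_lit 10) (nat_lit 10))
    (@En.n l34760 (nat_lit 4496) (nat_lit 11) (nat_lit 12))
    (@En.n l13032 (nat_lit 9746) (nat_lit 5) (nat_lit 5))
    (@En.n l34761 (nat_lit 3747) (nat_lit 13) (nat_lit 8))
    (@En.n l27118 (nat_lit 9877) (nat_lit 14) (nat_lit 10))
    (@En.n l152 (nat_lit 6174) (nat_lit 13) (nat_lit 3))
    (@En.n l16160 (nat_lit 6187) (nat_lit 0) (nat_lit 3))))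
  (@Cl.mk (nat_lit 0x300030009000c0005000b000a0004000d0007000500030006000d000d000b) (nat_lit 0x62034040000a00) (nat_lit 16) Lb.e (@T16.mk En
    (@En.n l619 (nat_lit 7909) (nat_lit 0) (nat_lit 11))
    (@En.n l14226 (nat_lit 6183) (nat_lit 3) (nat_lit 13))
    (@En.n l2700 (nat_lit 10483) (nat_lit 2) (nat_lit 13))
    (@En.n l17 (nat_lit 5847) (nat_lit 12) (nat_lit 6))
    (@En.n l3522 (nat_lit 6181) (nat_lit 4) (nat_lit 3))
    (@En.n l889 (nat_lit 6200) (nat_lit 0) (nat_lit 5))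
    (@En.i (nat_lit 6179) (nat_lit 6) (nat_lit 7))
    (@En.n l5882 (nat_lit 6177) (nat_lit 8) (nat_lit 13))
    (@En.n l33767 (nat_lit 4352) (nat_lit 8) (nat_lit 4))
    (@En.i (nat_lit 5663) (nat_lit 10) (nat_lit 10))
    (@En.n l26659 (nat_lit 4494) (nat_lit 11) (nat_lit 11))
    (@En.i (nat_lit 9748) (nat_lit 6) (nat_lit 5))
    (@En.i (nat_lit 3087) (nat_lit 6) (nat_lit 12))
    (@En.n l476 (nat_lit 9950) (nat_lit 14) (nat_lit 9))
    (@En.n l152 (nat_lit 6176) (nat_lit 13) (nat_lit 3))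
    (@En.n l26660 (nat_lit 6183) (nat_lit 0) (nat_lit 3))))
  (@Cl.mk (nat_lit 0x3000300090008000c0006000c000b00040007000400080005000d000d000a) (nat_lit 0x6630a300040b00) (nat_lit 16) Lb.e (@T16.mk En
    (@En.n l619 (nat_lit 7910) (nat_lit 0) (nat_lit 10))
    (@En.n l29418 (nat_lit 6195) (nat_lit 3) (nat_lit 13))
    (@En.n l6678 (nat_lit 10485) (nat_lit 2) (nat_lit 13))
    (@En.n l29419 (nat_lit 5901) (nat_lit 3) (nat_lit 5))
    (@En.n l29420 (nat_lit 3628) (nat_lit 4) (nat_lit 8))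
    (@En.n l29421 (nat_lit 6111) (nat_lit 5) (nat_lit 4))
    (@En.n l29422 (nat_lit 6064) (nat_lit 11) (nat_lit 7))
    (@En.n l29423 (nat_lit 4193) (nat_lit 7) (nat_lit 4))
    (@En.i (nat_lit 6114) (nat_lit 9) (nat_lit 11))
    (@En.n l29424 (nat_lit 4497) (nat_lit 10) (nat_lit 12))
    (@En.n l29422 (nat_lit 11045) (nat_lit 11) (nat_lit 6))
    (@En.n l50 (nat_lit 6178) (nat_lit 12) (nat_lit 12))
    (@En.n l10970 (nat_lit 6181) (nat_lit 13) (nat_lit 8))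
    (@En.n l476 (nat_lit 9803) (nat_lit 14) (nat_lit 9))
    (@En.n l152 (nat_lit 6175) (nat_lit 13) (nat_lit 3))
    (@En.n l29425 (nat_lit 6195) (nat_lit 0) (nat_lit 3))))
  (@Cl.mk (nat_lit 0x2000c00030008000c0004000c000a0004000d0004000800030006000e000d) (nat_lit 0x5051012030500ab) (nat_lit 16) Lb.e (@T16.mk En
    (@En.n l134 (nat_lit 6181) (nat_lit 2) (nat_lit 13))
    (@En.n l2125 (nat_lit 9577) (nat_lit 1) (nat_lit 14))
    (@En.n l152 (nat_lit 7251) (nat_lit 12) (nat_lit 6))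
    (@En.n l1865 (nat_lit 6176) (nat_lit 3) (nat_lit 3))
    (@En.n l781 (nat_lit 5541) (nat_lit 0) (nat_lit 8))
    (@En.n l19001 (nat_lit 6000) (nat_lit 5) (nat_lit 4))
    (@En.n l17017 (nat_lit 4292) (nat_lit 7) (nat_lit 13))
    (@En.n l10089 (nat_lit 4350) (nat_lit 7) (nat_lit 4))
    (@En.i (nat_lit 5656) (nat_lit 9) (nat_lit 10))
    (@En.n l1504 (nat_lit 3011) (nat_lit 10) (nat_lit 12))
    (@En.i (nat_lit 9744) (nat_lit 10) (nat_lit 4))
    (@En.n l649 (nat_lit 3086) (nat_lit 12) (nat_lit 12))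
    (@En.i (nat_lit 7450) (nat_lit 13) (nat_lit 8))
    (@En.i (nat_lit 6181) (nat_lit 14) (nat_lit 3))
    (@En.n l2125 (nat_lit 7869) (nat_lit 0) (nat_lit 12))
    (@En.n l28 (nat_lit 6180) (nat_lit 15) (nat_lit 2))))
  (@Cl.mk (nat_lit 0x300030008000c0005000c000a0004000d0004000800030006000d000d000b) (nat_lit 0x52012030500ab0) (nat_lit 16) Lb.e (@T16.mk En
    (@En.i (nat_lit 7908) (nat_lit 0) (nat_lit 11))
    (@En.n l35100 (nat_lit 6188) (nat_lit 3) (nat_lit 13))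
    (@En.n l2125 (nat_lit 10482) (nat_lit 2) (nat_lit 13))
    (@En.n l152 (nat_lit 6962) (nat_lit 12) (nat_lit 6))
    (@En.n l9956 (nat_lit 6178) (nat_lit 4) (nat_lit 3))
    (@En.n l781 (nat_lit 5540) (nat_lit 0) (nat_lit 8))
    (@En.n l41479 (nat_lit 5998) (nat_lit 6) (nat_lit 4))
    (@En.n l17017 (nat_lit 6182) (nat_lit 8) (nat_lit 13))
    (@En.n l6080 (nat_lit 3971) (nat_lit 8) (nat_lit 4))
    (@En.n l3528 (nat_lit 5655) (nat_lit 10) (nat_lit 10))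
    (@En.n l3850 (nat_lit 3010) (nat_lit 11) (nat_lit 12))
    (@En.n l3506 (nat_lit 9749) (nat_lit 6) (nat_lit 5))
    (@En.n l3528 (nat_lit 3083) (nat_lit 7) (nat_lit 12))
    (@En.n l564 (nat_lit 9791) (nat_lit 14) (nat_lit 8))
    (@En.n l7 (nat_lit 6180) (nat_lit 13) (nat_lit 3))
    (@En.n l10832 (nat_lit 6188) (nat_lit 0) (nat_lit 3))))
  (@Cl.mk (nat_lit 0x30003000900080005000d000a000d00030007000300080006000d000d000b) (nat_lit 0x56012200050bb5) (nat_lit 16) Lb.e (@T16.mk En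
    (@En.n l6444 (nat_lit 7906) (nat_lit 0) (nat_lit 11))
    (@En.n l14697 (nat_lit 6186) (nat_lit 3) (nat_lit 13))
    (@En.n l3517 (nat_lit 10462) (nat_lit 11) (nat_lit 13))
    (@En.n l11010 (nat_lit 6181) (nat_lit 3) (nat_lit 6))
    (@En.n l18989 (nat_lit 3627) (nat_lit 4) (nat_lit 8))
    (@En.n l35352 (nat_lit 6177) (nat_lit 5) (nat_lit 3))
    (@En.n l8874 (nat_lit 5544) (nat_lit 0) (nat_lit 7))
    (@En.n l25258 (nat_lit 6184) (nat_lit 7) (nat_lit 3))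
    (@En.n l8329 (nat_lit 3936) (nat_lit 0) (nat_lit 13))
    (@En.n l35353 (nat_lit 5654) (nat_lit 10) (nat_lit 10))
    (@En.n l34121 (nat_lit 1319) (nat_lit 11) (nat_lit 13))
    (@En.n l35354 (nat_lit 9743) (nat_lit 3) (nat_lit 5))
    (@En.i (nat_lit 4280) (nat_lit 13) (nat_lit 8))
    (@En.n l35355 (nat_lit 9794) (nat_lit 5) (nat_lit 9))
    (@En.n l18 (nat_lit 4292) (nat_lit 13) (nat_lit 3))
    (@En.n l11245 (nat_lit 6186) (nat_lit 0) (nat_lit 3))))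
  (@Cl.mk (nat_lit 0x20009000c0006000b000a0004000d0007000500030006000d000a000e0003) (nat_lit 0x63033020000b0a0) (nat_lit 16) Lb.e (@T16.mk En
    (@En.n l5393 (nat_lit 6178) (nat_lit 15) (nat_lit 3))
    (@En.n l1823 (nat_lit 13896) (nat_lit 0) (nat_lit 14))
    (@En.n l1786 (nat_lit 6193) (nat_lit 2) (nat_lit 10))
    (@En.n l13756 (nat_lit 10484) (nat_lit 4) (nat_lit 13))
    (@En.n l253 (nat_lit 6061) (nat_lit 12) (nat_lit 6))
    (@En.n l18881 (nat_lit 6188) (nat_lit 5) (nat_lit 3))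
    (@En.n l13756 (nat_lit 6203) (nat_lit 0) (nat_lit 5))
    (@En.n l14831 (nat_lit 6195) (nat_lit 7) (nat_lit 7))
    (@En.n l29354 (nat_lit 6187) (nat_lit 9) (nat_lit 13))
    (@En.n l37712 (nat_lit 4353) (nat_lit 9) (nat_lit 4))
    (@En.n l1504 (nat_lit 6117) (nat_lit 11) (nat_lit 10))
    (@En.n l253 (nat_lit 4501) (nat_lit 12) (nat_lit 11))
    (@En.n l12597 (nat_lit 9770) (nat_lit 13) (nat_lit 6))
    (@En.i (nat_lit 3895) (nat_lit 6) (nat_lit 12))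
    (@En.n l4089 (nat_lit 9879) (nat_lit 14) (nat_lit 9))
    (@En.n l17 (nat_lit 6183) (nat_lit 15) (nat_lit 2))))
  (@Cl.mk (nat_lit 0x30003000900080005000d000c000b00030007000400080005000d000d000b) (nat_lit 0x5601a200040b02) (nat_lit 16) Lb.e (@T16.mk En
    (@En.n l28676 (nat_lit 7907) (nat_lit 0) (nat_lit 11))
    (@En.n l28677 (nat_lit 6185) (nat_lit 3) (nat_lit 13))
    (@En.n l3523 (nat_lit 10463) (nat_lit 11) (nat_lit 13))
    (@En.n l28678 (nat_lit 5998) (nat_lit 3) (nat_lit 5))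
    (@En.n l28679 (nat_lit 3624) (nat_lit 4) (nat_lit 8))
    (@En.n l4172 (nat_lit 6166) (nat_lit 5) (nat_lit 4))
    (@En.n l28680 (nat_lit 5659) (nat_lit 6) (nat_lit 7))
    (@En.n l11705 (nat_lit 6182) (nat_lit 7) (nat_lit 3))
    (@En.i (nat_lit 6161) (nat_lit 0) (nat_lit 11))
    (@En.n l27893 (nat_lit 6177) (nat_lit 10) (nat_lit 12))
    (@En.n l12285 (nat_lit 1315) (nat_lit 11) (nat_lit 13))
    (@En.n l28681 (nat_lit 8590) (nat_lit 3) (nat_lit 5))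
    (@En.i (nat_lit 4279) (nat_lit 13) (nat_lit 8))
    (@En.n l28682 (nat_lit 8877) (nat_lit 5) (nat_lit 9))
    (@En.n l28683 (nat_lit 4293) (nat_lit 13) (nat_lit 3))
    (@En.n l28681 (nat_lit 6185) (nat_lit 0) (nat_lit 3))))
  (@Cl.mk (nat_lit 0x2000900080006000d000c000b00030007000400080005000d000a000e0003) (nat_lit 0x56014200040b0b0) (nat_lit 16) Lb.e (@T16.mk En
    (@En.n l32247 (nat_lit 6184) (nat_lit 15) (nat_lit 3))
    (@En.n l27225 (nat_lit 13891) (nat_lit 0) (nat_lit 14))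
    (@En.i (nat_lit 6190) (nat_lit 2) (nat_lit 10))
    (@En.n l19709 (nat_lit 10457) (nat_lit 11) (nat_lit 13))
    (@En.n l32248 (nat_lit 6101) (nat_lit 4) (nat_lit 5))
    (@En.n l12786 (nat_lit 3625) (nat_lit 5) (nat_lit 8))
    (@En.n l700 (nat_lit 6169) (nat_lit 6) (nat_lit 4))
    (@En.n l6574 (nat_lit 5662) (nat_lit 7) (nat_lit 7))
    (@En.n l10321 (nat_lit 6186) (nat_lit 8) (nat_lit 3))
    (@En.n l619 (nat_lit 6163) (nat_lit 0) (nat_lit 11))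
    (@En.n l19255 (nat_lit 6187) (nat_lit 11) (nat_lit 12))
    (@En.n l10956 (nat_lit 1316) (nat_lit 12) (nat_lit 13))
    (@En.i (nat_lit 8583) (nat_lit 13) (nat_lit 6))
    (@En.n l32249 (nat_lit 4278) (nat_lit 14) (nat_lit 8))
    (@En.n l32250 (nat_lit 10132) (nat_lit 5) (nat_lit 9))
    (@En.n l50 (nat_lit 6185) (nat_lit 15) (nat_lit 2))))
  (@Cl.mk (nat_lit 0x2000900080006000d000a000d00030007000300080006000d000a000e0003) (nat_lit 0x51013200050a030) (nat_lit 16) Lb.e (@T16.mk En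
    (@En.n l16861 (nat_lit 6182) (nat_lit 15) (nat_lit 3))
    (@En.n l39083 (nat_lit 13892) (nat_lit 0) (nat_lit 14))
    (@En.i (nat_lit 6189) (nat_lit 2) (nat_lit 10))
    (@En.n l39084 (nat_lit 10459) (nat_lit 11) (nat_lit 13))
    (@En.n l39085 (nat_lit 6188) (nat_lit 4) (nat_lit 6))
    (@En.n l24485 (nat_lit 3633) (nat_lit 5) (nat_lit 8))
    (@En.n l39086 (nat_lit 6187) (nat_lit 6) (nat_lit 3))
    (@En.n l39087 (nat_lit 5549) (nat_lit 0) (nat_lit 7))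
    (@En.n l24488 (nat_lit 6185) (nat_lit 8) (nat_lit 3))
    (@En.n l1459 (nat_lit 3938) (nat_lit 0) (nat_lit 13))
    (@En.n l22209 (nat_lit 5661) (nat_lit 11) (nat_lit 10))
    (@En.n l37223 (nat_lit 1323) (nat_lit 12) (nat_lit 13))
    (@En.n l28917 (nat_lit 9769) (nat_lit 13) (nat_lit 6))
    (@En.i (nat_lit 3746) (nat_lit 14) (nat_lit 8))
    (@En.n l32782 (nat_lit 9792) (nat_lit 5) (nat_lit 9))
    (@En.n l3 (nat_lit 6186) (nat_lit 15) (nat_lit 2))))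
  (@Cl.mk (nat_lit 0x2000a00080006000c000a000d00060004000300080006000d000a000e0003) (nat_lit 0x61032100050b0a0) (nat_lit 16) Lb.e (@T16.mk En
    (@En.n l22901 (nat_lit 6177) (nat_lit 15) (nat_lit 3))
    (@En.n l25469 (nat_lit 13890) (nat_lit 0) (nat_lit 14))
    (@En.n l41625 (nat_lit 6191) (nat_lit 2) (nat_lit 10))
    (@En.n l564 (nat_lit 10461) (nat_lit 13) (nat_lit 13))
    (@En.n l33432 (nat_lit 6183) (nat_lit 4) (nat_lit 6))
    (@En.n l13673 (nat_lit 6195) (nat_lit 5) (nat_lit 8))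
    (@En.n l41626 (nat_lit 6186) (nat_lit 6) (nat_lit 3))
    (@En.n l25470 (nat_lit 6204) (nat_lit 0) (nat_lit 4))
    (@En.n l25471 (nat_lit 6141) (nat_lit 8) (nat_lit 6))
    (@En.i (nat_lit 3935) (nat_lit 10) (nat_lit 13))
    (@En.n l41627 (nat_lit 6118) (nat_lit 11) (nat_lit 10))
    (@En.n l41628 (nat_lit 6254) (nat_lit 12) (nat_lit 12))
    (@En.n l4476 (nat_lit 9768) (nat_lit 13) (nat_lit 6))
    (@En.n l41625 (nat_lit 3745) (nat_lit 14) (nat_lit 8))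
    (@En.n l41629 (nat_lit 9878) (nat_lit 14) (nat_lit 10))
    (@En.n l17 (nat_lit 6187) (nat_lit 15) (nat_lit 2))))
  (@Cl.mk (nat_lit 0x20008000c0006000c000a0004000d0004000800030006000d000a000e0003) (nat_lit 0x53013030500a030) (nat_lit 16) Lb.e (@T16.mk En
    (@En.n l34676 (nat_lit 6181) (nat_lit 15) (nat_lit 3))
    (@En.n l619 (nat_lit 13895) (nat_lit 0) (nat_lit 14))
    (@En.n l34679 (nat_lit 6192) (nat_lit 2) (nat_lit 10))
    (@En.n l617 (nat_lit 10436) (nat_lit 4) (nat_lit 13))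
    (@En.n l34680 (nat_lit 6959) (nat_lit 12) (nat_lit 6))
    (@En.n l34681 (nat_lit 6183) (nat_lit 5) (nat_lit 3))
    (@En.n l10886 (nat_lit 5507) (nat_lit 0) (nat_lit 8))
    (@En.n l34173 (nat_lit 6101) (nat_lit 7) (nat_lit 4))
    (@En.n l34682 (nat_lit 6186) (nat_lit 9) (nat_lit 13))
    (@En.i (nat_lit 4354) (nat_lit 9) (nat_lit 4))
    (@En.n l34683 (nat_lit 5660) (nat_lit 11) (nat_lit 10))
    (@En.n l34684 (nat_lit 3012) (nat_lit 12) (nat_lit 12))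
    (@En.n l8262 (nat_lit 9771) (nat_lit 13) (nat_lit 6))
    (@En.n l617 (nat_lit 3082) (nat_lit 14) (nat_lit 12))
    (@En.n l10885 (nat_lit 9790) (nat_lit 14) (nat_lit 8))
    (@En.n l11 (nat_lit 6188) (nat_lit 15) (nat_lit 2))))
  (@Cl.mk (nat_lit 0x20008000700060005000d000a000d00030008000300090006000a000e000b) (nat_lit 0x83704010810) (nat_lit 16) Lb.e (@T16.mk En
    (@En.n l15182 (nat_lit 6669) (nat_lit 9) (nat_lit 11))
    (@En.i (nat_lit 4450) (nat_lit 1) (nat_lit 14))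
    (@En.i (nat_lit 9100) (nat_lit 2) (nat_lit 10))
    (@En.n l612 (nat_lit 6192) (nat_lit 3) (nat_lit 6))
    (@En.n l50 (nat_lit 5299) (nat_lit 4) (nat_lit 9))
    (@En.i (nat_lit 6191) (nat_lit 5) (nat_lit 3))
    (@En.i (nat_lit 7184) (nat_lit 0) (nat_lit 8))
    (@En.n l24488 (nat_lit 6190) (nat_lit 7) (nat_lit 3))
    (@En.n l1459 (nat_lit 4660) (nat_lit 0) (nat_lit 13))
    (@En.i (nat_lit 7009) (nat_lit 10) (nat_lit 10))
    (@En.i (nat_lit 5164) (nat_lit 11) (nat_lit 13))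
    (@En.n l2832 (nat_lit 6182) (nat_lit 11) (nat_lit 5))
    (@En.n l2687 (nat_lit 8742) (nat_lit 13) (nat_lit 6))
    (@En.i (nat_lit 4253) (nat_lit 14) (nat_lit 7))
    (@En.i (nat_lit 8884) (nat_lit 6) (nat_lit 8))
    (@En.n l3 (nat_lit 6189) (nat_lit 15) (nat_lit 2))))
  (@Cl.mk (nat_lit 0x20008000700060005000d000c000b00030008000400090005000a000e000b) (nat_lit 0x85006010862) (nat_lit 16) Lb.e (@T16.mk En
    (@En.n l217 (nat_lit 2317) (nat_lit 9) (nat_lit 11))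
    (@En.n l1546 (nat_lit 6736) (nat_lit 1) (nat_lit 14))
    (@En.n l14911 (nat_lit 9098) (nat_lit 2) (nat_lit 10))
    (@En.n l6387 (nat_lit 7004) (nat_lit 3) (nat_lit 5))
    (@En.n l14912 (nat_lit 5297) (nat_lit 4) (nat_lit 9))
    (@En.i (nat_lit 6996) (nat_lit 5) (nat_lit 4))
    (@En.i (nat_lit 6490) (nat_lit 6) (nat_lit 8))
    (@En.n l10321 (nat_lit 6189) (nat_lit 7) (nat_lit 3))
    (@En.n l619 (nat_lit 6998) (nat_lit 0) (nat_lit 11))
    (@En.n l14913 (nat_lit 6191) (nat_lit 10) (nat_lit 12))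
    (@En.n l763 (nat_lit 5163) (nat_lit 11) (nat_lit 13))
    (@En.n l14914 (nat_lit 6184) (nat_lit 11) (nat_lit 5))
    (@En.i (nat_lit 8639) (nat_lit 13) (nat_lit 6))
    (@En.n l14911 (nat_lit 4254) (nat_lit 14) (nat_lit 7))
    (@En.n l829 (nat_lit 8878) (nat_lit 6) (nat_lit 8))
    (@En.n l50 (nat_lit 6190) (nat_lit 15) (nat_lit 2))))
  (@Cl.mk (nat_lit 0x20009000700060005000c000a000d00070004000300090006000a000e000b) (nat_lit 0x700043700050850) (nat_lit 16) Lb.e (@T16.mk En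
    (@En.n l22349 (nat_lit 6197) (nat_lit 11) (nat_lit 11))
    (@En.n l19563 (nat_lit 4453) (nat_lit 1) (nat_lit 14))
    (@En.i (nat_lit 9104) (nat_lit 2) (nat_lit 10))
    (@En.n l11627 (nat_lit 6193) (nat_lit 3) (nat_lit 6))
    (@En.n l22350 (nat_lit 6194) (nat_lit 4) (nat_lit 9))
    (@En.n l7 (nat_lit 6189) (nat_lit 5) (nat_lit 3))
    (@En.n l9755 (nat_lit 6890) (nat_lit 0) (nat_lit 4))
    (@En.i (nat_lit 6196) (nat_lit 7) (nat_lit 7))
    (@En.n l22351 (nat_lit 4659) (nat_lit 9) (nat_lit 13))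
    (@En.n l22352 (nat_lit 6491) (nat_lit 10) (nat_lit 10))
    (@En.n l22353 (nat_lit 11180) (nat_lit 11) (nat_lit 12))
    (@En.n l16088 (nat_lit 6177) (nat_lit 11) (nat_lit 5))
    (@En.n l22351 (nat_lit 8739) (nat_lit 13) (nat_lit 6))
    (@En.i (nat_lit 4252) (nat_lit 14) (nat_lit 7))
    (@En.n l22354 (nat_lit 8797) (nat_lit 9) (nat_lit 9))
    (@En.n l3 (nat_lit 6191) (nat_lit 15) (nat_lit 2))))
noncomputable def a387 : T16 Cl := @T16.mk Cl
  (@Cl.mk (nat_lit 0x20007000b00060005000c000a0005000d0004000900030006000a000e000b) (nat_lit 0x50094080600810) (nat_lit 16) Lb.e (@T16.mk En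
    (@En.n l31552 (nat_lit 6667) (nat_lit 12) (nat_lit 11))
    (@En.n l7264 (nat_lit 4452) (nat_lit 1) (nat_lit 14))
    (@En.i (nat_lit 11528) (nat_lit 2) (nat_lit 10))
    (@En.n l11113 (nat_lit 6957) (nat_lit 12) (nat_lit 6))
    (@En.n l22350 (nat_lit 6193) (nat_lit 4) (nat_lit 3))
    (@En.n l7 (nat_lit 7185) (nat_lit 0) (nat_lit 9))
    (@En.n l9754 (nat_lit 7004) (nat_lit 6) (nat_lit 4))
    (@En.n l644 (nat_lit 6189) (nat_lit 8) (nat_lit 13))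
    (@En.n l1363 (nat_lit 3956) (nat_lit 8) (nat_lit 5))
    (@En.n l9452 (nat_lit 7008) (nat_lit 10) (nat_lit 10))
    (@En.n l3858 (nat_lit 5166) (nat_lit 11) (nat_lit 12))
    (@En.n l20533 (nat_lit 6181) (nat_lit 11) (nat_lit 5))
    (@En.n l24012 (nat_lit 8744) (nat_lit 13) (nat_lit 6))
    (@En.n l9452 (nat_lit 3901) (nat_lit 14) (nat_lit 11))
    (@En.n l511 (nat_lit 9788) (nat_lit 10) (nat_lit 7))
    (@En.n l3 (nat_lit 6192) (nat_lit 15) (nat_lit 2))))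
  (@Cl.mk (nat_lit 0x20008000b00060005000b000a0005000d0008000500030006000a000e000b) (nat_lit 0x650044083000840) (nat_lit 16) Lb.e (@T16.mk En
    (@En.n l68 (nat_lit 6666) (nat_lit 12) (nat_lit 11))
    (@En.n l14226 (nat_lit 4454) (nat_lit 1) (nat_lit 14))
    (@En.n l29641 (nat_lit 11526) (nat_lit 2) (nat_lit 10))
    (@En.n l17 (nat_lit 4761) (nat_lit 3) (nat_lit 6))
    (@En.n l11468 (nat_lit 6192) (nat_lit 4) (nat_lit 3))
    (@En.n l889 (nat_lit 6889) (nat_lit 0) (nat_lit 5))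
    (@En.i (nat_lit 6194) (nat_lit 6) (nat_lit 8))
    (@En.n l11467 (nat_lit 6191) (nat_lit 8) (nat_lit 13))
    (@En.n l35630 (nat_lit 3957) (nat_lit 8) (nat_lit 5))
    (@En.i (nat_lit 7007) (nat_lit 10) (nat_lit 10))
    (@En.n l35631 (nat_lit 10969) (nat_lit 11) (nat_lit 11))
    (@En.i (nat_lit 6178) (nat_lit 11) (nat_lit 5))
    (@En.n l35632 (nat_lit 8741) (nat_lit 13) (nat_lit 6))
    (@En.i (nat_lit 3899) (nat_lit 7) (nat_lit 11))
    (@En.n l197 (nat_lit 8796) (nat_lit 10) (nat_lit 8))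
    (@En.n l67 (nat_lit 6193) (nat_lit 15) (nat_lit 2))))
  (@Cl.mk (nat_lit 0x200080007000b00070006000c000b000500080004000900050009000e000a) (nat_lit 0x606005402040040) (nat_lit 16) Lb.e (@T16.mk En
    (@En.n l68 (nat_lit 6668) (nat_lit 11) (nat_lit 10))
    (@En.n l14226 (nat_lit 4457) (nat_lit 1) (nat_lit 14))
    (@En.n l29641 (nat_lit 11527) (nat_lit 2) (nat_lit 9))
    (@En.n l29642 (nat_lit 4762) (nat_lit 3) (nat_lit 5))
    (@En.n l29425 (nat_lit 7187) (nat_lit 4) (nat_lit 9))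
    (@En.n l29643 (nat_lit 6486) (nat_lit 5) (nat_lit 4))
    (@En.n l29644 (nat_lit 6478) (nat_lit 10) (nat_lit 8))
    (@En.n l29645 (nat_lit 3150) (nat_lit 7) (nat_lit 5))
    (@En.i (nat_lit 6483) (nat_lit 9) (nat_lit 11))
    (@En.n l29646 (nat_lit 10968) (nat_lit 10) (nat_lit 12))
    (@En.i (nat_lit 6179) (nat_lit 10) (nat_lit 6))
    (@En.n l29647 (nat_lit 9837) (nat_lit 12) (nat_lit 7))
    (@En.n l50 (nat_lit 6193) (nat_lit 13) (nat_lit 11))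
    (@En.n l29641 (nat_lit 6192) (nat_lit 14) (nat_lit 7))
    (@En.n l29648 (nat_lit 8795) (nat_lit 6) (nat_lit 8))
    (@En.n l67 (nat_lit 6194) (nat_lit 15) (nat_lit 2))))
  (@Cl.mk (nat_lit 0x200090008000c0007000c000b00040007000400080005000d0009000e0003) (nat_lit 0x76404300040b180) (nat_lit 16) Lb.e (@T16.mk En
    (@En.n l22847 (nat_lit 6179) (nat_lit 15) (nat_lit 3))
    (@En.n l29195 (nat_lit 13967) (nat_lit 0) (nat_lit 14))
    (@En.n l16420 (nat_lit 6194) (nat_lit 2) (nat_lit 9))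
    (@En.n l29196 (nat_lit 10486) (nat_lit 2) (nat_lit 13))
    (@En.n l29197 (nat_lit 6059) (nat_lit 4) (nat_lit 5))
    (@En.i (nat_lit 3632) (nat_lit 5) (nat_lit 8))
    (@En.n l29198 (nat_lit 6110) (nat_lit 6) (nat_lit 4))
    (@En.n l29199 (nat_lit 6062) (nat_lit 11) (nat_lit 7))
    (@En.n l5979 (nat_lit 4194) (nat_lit 8) (nat_lit 4))
    (@En.n l19538 (nat_lit 6116) (nat_lit 10) (nat_lit 11))
    (@En.n l29197 (nat_lit 4503) (nat_lit 11) (nat_lit 12))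
    (@En.n l97 (nat_lit 11048) (nat_lit 12) (nat_lit 7))
    (@En.n l29200 (nat_lit 6183) (nat_lit 13) (nat_lit 12))
    (@En.n l5977 (nat_lit 6188) (nat_lit 14) (nat_lit 8))
    (@En.n l22857 (nat_lit 9804) (nat_lit 14) (nat_lit 9))
    (@En.n l17 (nat_lit 6195) (nat_lit 15) (nat_lit 2))))
  (@Cl.mk (nat_lit 0x200090008000800070006000d000b000700030008000800050009000e000a) (nat_lit 0x71500a300040151) (nat_lit 16) Lb.e (@T16.mk En
    (@En.n l15182 (nat_lit 6040) (nat_lit 10) (nat_lit 10))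
    (@En.n l14716 (nat_lit 6809) (nat_lit 1) (nat_lit 14))
    (@En.i (nat_lit 5910) (nat_lit 2) (nat_lit 9))
    (@En.n l11627 (nat_lit 6194) (nat_lit 3) (nat_lit 5))
    (@En.n l22322 (nat_lit 6478) (nat_lit 8) (nat_lit 8))
    (@En.n l22323 (nat_lit 7186) (nat_lit 5) (nat_lit 8))
    (@En.n l22324 (nat_lit 6481) (nat_lit 6) (nat_lit 3))
    (@En.n l8663 (nat_lit 1901) (nat_lit 0) (nat_lit 7))
    (@En.n l22325 (nat_lit 6482) (nat_lit 9) (nat_lit 11))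
    (@En.n l22326 (nat_lit 9865) (nat_lit 10) (nat_lit 13))
    (@En.n l1459 (nat_lit 6139) (nat_lit 10) (nat_lit 6))
    (@En.n l22327 (nat_lit 10243) (nat_lit 12) (nat_lit 7))
    (@En.n l7270 (nat_lit 7150) (nat_lit 8) (nat_lit 8))
    (@En.i (nat_lit 6189) (nat_lit 14) (nat_lit 8))
    (@En.i (nat_lit 9356) (nat_lit 8) (nat_lit 9))
    (@En.n l3 (nat_lit 6196) (nat_lit 15) (nat_lit 2))))
  (@Cl.mk (nat_lit 0x3000a0006000b000b000b00080006000500050005000c000a000d00080004) (nat_lit 0x6089060000a4160) (nat_lit 16) Lb.e (@T16.mk En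
    (@En.n l18 (nat_lit 6888) (nat_lit 0) (nat_lit 4))
    (@En.n l32271 (nat_lit 6040) (nat_lit 0) (nat_lit 8))
    (@En.i (nat_lit 1946) (nat_lit 5) (nat_lit 13))
    (@En.n l23763 (nat_lit 7050) (nat_lit 3) (nat_lit 10))
    (@En.n l32272 (nat_lit 10860) (nat_lit 3) (nat_lit 12))
    (@En.n l32273 (nat_lit 6191) (nat_lit 11) (nat_lit 5))
    (@En.n l575 (nat_lit 7163) (nat_lit 11) (nat_lit 5))
    (@En.i (nat_lit 8735) (nat_lit 11) (nat_lit 5))
    (@En.n l2853 (nat_lit 3873) (nat_lit 8) (nat_lit 6))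
    (@En.n l55 (nat_lit 8893) (nat_lit 1) (nat_lit 8))
    (@En.n l4905 (nat_lit 7135) (nat_lit 5) (nat_lit 11))
    (@En.n l32274 (nat_lit 6663) (nat_lit 5) (nat_lit 11))
    (@En.n l32275 (nat_lit 9109) (nat_lit 13) (nat_lit 11))
    (@En.n l20149 (nat_lit 6666) (nat_lit 14) (nat_lit 6))
    (@En.n l23762 (nat_lit 6668) (nat_lit 14) (nat_lit 10))
    (@En.n l17202 (nat_lit 6669) (nat_lit 13) (nat_lit 3))))
  (@Cl.mk (nat_lit 0x2000b0003000b0008000b0005000c0005000c0005000400080004000e000d) (nat_lit 0x209480904003081) (nat_lit 16) Lb.e (@T16.mk En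
    (@En.i (nat_lit 6111) (nat_lit 2) (nat_lit 13))
    (@En.n l28280 (nat_lit 8124) (nat_lit 1) (nat_lit 14))
    (@En.n l25648 (nat_lit 6171) (nat_lit 2) (nat_lit 4))
    (@En.n l28275 (nat_lit 6112) (nat_lit 3) (nat_lit 8))
    (@En.n l28276 (nat_lit 6113) (nat_lit 4) (nat_lit 4))
    (@En.n l40130 (nat_lit 2360) (nat_lit 5) (nat_lit 5))
    (@En.n l31030 (nat_lit 725) (nat_lit 7) (nat_lit 12))
    (@En.n l217 (nat_lit 1127) (nat_lit 7) (nat_lit 5))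
    (@En.n l9025 (nat_lit 6337) (nat_lit 9) (nat_lit 12))
    (@En.i (nat_lit 9182) (nat_lit 9) (nat_lit 5))
    (@En.i (nat_lit 6199) (nat_lit 7) (nat_lit 11))
    (@En.n l40131 (nat_lit 6000) (nat_lit 12) (nat_lit 8))
    (@En.n l31030 (nat_lit 6660) (nat_lit 13) (nat_lit 11))
    (@En.n l117 (nat_lit 6111) (nat_lit 14) (nat_lit 3))
    (@En.i (nat_lit 4652) (nat_lit 0) (nat_lit 11))
    (@En.n l3 (nat_lit 6198) (nat_lit 15) (nat_lit 2))))
  (@Cl.mk (nat_lit 0x20005000e000d0002000c0003000c000b0004000b0004000b0005000e0005) (nat_lit 0xa70804060) (nat_lit 16) Lb.e (@T16.mk En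
    (@En.n l900 (nat_lit 6158) (nat_lit 4) (nat_lit 5))
    (@En.n l5 (nat_lit 6201) (nat_lit 1) (nat_lit 14))
    (@En.i (nat_lit 3244) (nat_lit 2) (nat_lit 5))
    (@En.n l1013 (nat_lit 768) (nat_lit 3) (nat_lit 11))
    (@En.i (nat_lit 1186) (nat_lit 4) (nat_lit 4))
    (@En.n l9025 (nat_lit 6333) (nat_lit 10) (nat_lit 11))
    (@En.i (nat_lit 8347) (nat_lit 6) (nat_lit 4))
    (@En.n l77 (nat_lit 1069) (nat_lit 8) (nat_lit 11))
    (@En.n l1013 (nat_lit 1923) (nat_lit 9) (nat_lit 12))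
    (@En.n l117 (nat_lit 6200) (nat_lit 9) (nat_lit 3))
    (@En.i (nat_lit 7896) (nat_lit 11) (nat_lit 12))
    (@En.n l3 (nat_lit 6199) (nat_lit 11) (nat_lit 2))
    (@En.i (nat_lit 6200) (nat_lit 13) (nat_lit 13))
    (@En.i (nat_lit 8214) (nat_lit 1) (nat_lit 14))
    (@En.i (nat_lit 6136) (nat_lit 13) (nat_lit 5))
    (@En.n l17 (nat_lit 6199) (nat_lit 15) (nat_lit 2))))
  (@Cl.mk (nat_lit 0x20005000d000d000b00030003000c000b0005000b0004000b0005000e0005) (nat_lit 0xb0000970304060) (nat_lit 16) Lb.e (@T16.mk En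
    (@En.i (nat_lit 6159) (nat_lit 5) (nat_lit 5))
    (@En.n l19854 (nat_lit 6202) (nat_lit 1) (nat_lit 14))
    (@En.n l14292 (nat_lit 2878) (nat_lit 2) (nat_lit 5))
    (@En.n l6359 (nat_lit 766) (nat_lit 3) (nat_lit 11))
    (@En.i (nat_lit 1172) (nat_lit 4) (nat_lit 4))
    (@En.n l2129 (nat_lit 6322) (nat_lit 11) (nat_lit 11))
    (@En.n l19855 (nat_lit 8345) (nat_lit 6) (nat_lit 5))
    (@En.n l77 (nat_lit 1068) (nat_lit 8) (nat_lit 11))
    (@En.n l476 (nat_lit 6207) (nat_lit 9) (nat_lit 12))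
    (@En.n l152 (nat_lit 6199) (nat_lit 9) (nat_lit 3))
    (@En.n l1790 (nat_lit 6203) (nat_lit 10) (nat_lit 3))
    (@En.n l619 (nat_lit 6894) (nat_lit 12) (nat_lit 11))
    (@En.n l7393 (nat_lit 6203) (nat_lit 13) (nat_lit 13))
    (@En.n l2129 (nat_lit 8205) (nat_lit 14) (nat_lit 13))
    (@En.i (nat_lit 6129) (nat_lit 13) (nat_lit 5))
    (@En.n l17 (nat_lit 6200) (nat_lit 15) (nat_lit 2))))
  (@Cl.mk (nat_lit 0x200080005000e000d0002000c0003000c00080004000c0004000b000e0004) (nat_lit 0x40a0000a3080150) (nat_lit 16) Lb.e (@T16.mk En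
    (@En.n l34310 (nat_lit 6167) (nat_lit 5) (nat_lit 4))
    (@En.n l1063 (nat_lit 3933) (nat_lit 7) (nat_lit 14))
    (@En.n l34311 (nat_lit 560) (nat_lit 2) (nat_lit 11))
    (@En.i (nat_lit 1136) (nat_lit 3) (nat_lit 4))
    (@En.n l5985 (nat_lit 6327) (nat_lit 10) (nat_lit 12))
    (@En.n l6494 (nat_lit 8564) (nat_lit 5) (nat_lit 4))
    (@En.n l34312 (nat_lit 2993) (nat_lit 6) (nat_lit 8))
    (@En.n l26141 (nat_lit 5345) (nat_lit 8) (nat_lit 12))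
    (@En.n l34313 (nat_lit 6202) (nat_lit 8) (nat_lit 3))
    (@En.n l26912 (nat_lit 7899) (nat_lit 10) (nat_lit 12))
    (@En.n l3 (nat_lit 6201) (nat_lit 10) (nat_lit 2))
    (@En.n l9742 (nat_lit 6202) (nat_lit 12) (nat_lit 13))
    (@En.n l34314 (nat_lit 7094) (nat_lit 1) (nat_lit 14))
    (@En.n l699 (nat_lit 6199) (nat_lit 14) (nat_lit 5))
    (@En.n l1738 (nat_lit 6198) (nat_lit 3) (nat_lit 8))
    (@En.n l18 (nat_lit 6201) (nat_lit 15) (nat_lit 2))))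
  (@Cl.mk (nat_lit 0x200080005000d000d000b00030003000c00080005000c0004000b000e0004) (nat_lit 0x40b800071030150) (nat_lit 16) Lb.e (@T16.mk En
    (@En.n l19021 (nat_lit 6166) (nat_lit 6) (nat_lit 4))
    (@En.i (nat_lit 3931) (nat_lit 4) (nat_lit 14))
    (@En.n l569 (nat_lit 561) (nat_lit 2) (nat_lit 11))
    (@En.n l19022 (nat_lit 1132) (nat_lit 3) (nat_lit 4))
    (@En.n l19023 (nat_lit 6325) (nat_lit 11) (nat_lit 12))
    (@En.i (nat_lit 8346) (nat_lit 5) (nat_lit 5))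
    (@En.n l19024 (nat_lit 2758) (nat_lit 6) (nat_lit 8))
    (@En.n l19025 (nat_lit 6205) (nat_lit 8) (nat_lit 12))
    (@En.n l19026 (nat_lit 6201) (nat_lit 8) (nat_lit 3))
    (@En.n l1925 (nat_lit 6204) (nat_lit 9) (nat_lit 3))
    (@En.n l457 (nat_lit 6895) (nat_lit 11) (nat_lit 11))
    (@En.n l9730 (nat_lit 6204) (nat_lit 12) (nat_lit 13))
    (@En.n l4943 (nat_lit 7085) (nat_lit 13) (nat_lit 13))
    (@En.n l9731 (nat_lit 6200) (nat_lit 14) (nat_lit 5))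
    (@En.n l19027 (nat_lit 6111) (nat_lit 4) (nat_lit 8))
    (@En.n l17 (nat_lit 6202) (nat_lit 15) (nat_lit 2))))
  (@Cl.mk (nat_lit 0x20005000d000a000e00030002000c000b0006000b0004000b0005000e0005) (nat_lit 0xb0800a70804060) (nat_lit 16) Lb.e (@T16.mk En
    (@En.i (nat_lit 6162) (nat_lit 6) (nat_lit 5))
    (@En.n l8367 (nat_lit 6204) (nat_lit 1) (nat_lit 14))
    (@En.n l387 (nat_lit 3245) (nat_lit 2) (nat_lit 5))
    (@En.i (nat_lit 767) (nat_lit 3) (nat_lit 11))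
    (@En.n l1106 (nat_lit 1174) (nat_lit 4) (nat_lit 4))
    (@En.i (nat_lit 6237) (nat_lit 12) (nat_lit 11))
    (@En.n l11277 (nat_lit 8349) (nat_lit 6) (nat_lit 6))
    (@En.n l1106 (nat_lit 1071) (nat_lit 8) (nat_lit 11))
    (@En.n l17617 (nat_lit 6208) (nat_lit 9) (nat_lit 12))
    (@En.n l18 (nat_lit 6203) (nat_lit 9) (nat_lit 2))
    (@En.n l5389 (nat_lit 6200) (nat_lit 10) (nat_lit 3))
    (@En.n l3082 (nat_lit 13362) (nat_lit 0) (nat_lit 14))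
    (@En.n l2874 (nat_lit 6889) (nat_lit 13) (nat_lit 10))
    (@En.i (nat_lit 8206) (nat_lit 14) (nat_lit 13))
    (@En.n l2009 (nat_lit 6130) (nat_lit 13) (nat_lit 5))
    (@En.n l28 (nat_lit 6203) (nat_lit 15) (nat_lit 2))))
  (@Cl.mk (nat_lit 0x200080005000d000a000e00030002000c00080006000c0004000b000e0004) (nat_lit 0x4070a00a1080150) (nat_lit 16) Lb.e (@T16.mk En
    (@En.i (nat_lit 6169) (nat_lit 7) (nat_lit 4))
    (@En.n l4758 (nat_lit 3937) (nat_lit 9) (nat_lit 14))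
    (@En.n l152 (nat_lit 559) (nat_lit 10) (nat_lit 11))
    (@En.i (nat_lit 1133) (nat_lit 3) (nat_lit 4))
    (@En.n l564 (nat_lit 6324) (nat_lit 12) (nat_lit 12))
    (@En.n l3428 (nat_lit 8368) (nat_lit 5) (nat_lit 6))
    (@En.i (nat_lit 2756) (nat_lit 14) (nat_lit 8))
    (@En.i (nat_lit 6206) (nat_lit 8) (nat_lit 12))
    (@En.n l17 (nat_lit 6204) (nat_lit 8) (nat_lit 2))
    (@En.n l7918 (nat_lit 6202) (nat_lit 9) (nat_lit 3))
    (@En.i (nat_lit 13363) (nat_lit 0) (nat_lit 14))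
    (@En.n l3428 (nat_lit 6890) (nat_lit 12) (nat_lit 10))
    (@En.n l1643 (nat_lit 7083) (nat_lit 13) (nat_lit 13))
    (@En.n l564 (nat_lit 6203) (nat_lit 14) (nat_lit 5))
    (@En.n l3506 (nat_lit 6110) (nat_lit 5) (nat_lit 8))
    (@En.n l28 (nat_lit 6204) (nat_lit 15) (nat_lit 2))))
  (@Cl.mk (nat_lit 0x200090005000d0008000c0003000c00070004000b00040008000b000e0005) (nat_lit 0x508000600005250) (nat_lit 16) Lb.e (@T16.mk En
    (@En.n l34762 (nat_lit 8803) (nat_lit 6) (nat_lit 5))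
    (@En.n l23728 (nat_lit 7923) (nat_lit 4) (nat_lit 14))
    (@En.i (nat_lit 6201) (nat_lit 2) (nat_lit 11))
    (@En.n l34763 (nat_lit 8913) (nat_lit 3) (nat_lit 8))
    (@En.i (nat_lit 987) (nat_lit 4) (nat_lit 4))
    (@En.n l5985 (nat_lit 8455) (nat_lit 0) (nat_lit 11))
    (@En.n l23728 (nat_lit 8413) (nat_lit 6) (nat_lit 4))
    (@En.n l34312 (nat_lit 7953) (nat_lit 7) (nat_lit 7))
    (@En.n l34764 (nat_lit 1926) (nat_lit 9) (nat_lit 12))
    (@En.n l24247 (nat_lit 6206) (nat_lit 9) (nat_lit 3))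
    (@En.n l23728 (nat_lit 8565) (nat_lit 11) (nat_lit 12))
    (@En.n l18036 (nat_lit 6210) (nat_lit 12) (nat_lit 8))
    (@En.n l34765 (nat_lit 7090) (nat_lit 13) (nat_lit 13))
    (@En.n l699 (nat_lit 6207) (nat_lit 14) (nat_lit 5))
    (@En.n l1738 (nat_lit 6211) (nat_lit 4) (nat_lit 9))
    (@En.n l18 (nat_lit 6205) (nat_lit 15) (nat_lit 2))))
  (@Cl.mk (nat_lit 0x200090005000d000b00090003000c00070005000b00040007000b000e0005) (nat_lit 0x308700900000260) (nat_lit 16) Lb.e (@T16.mk En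
    (@En.n l32237 (nat_lit 8802) (nat_lit 6) (nat_lit 5))
    (@En.n l4758 (nat_lit 7924) (nat_lit 4) (nat_lit 14))
    (@En.n l41859 (nat_lit 6202) (nat_lit 2) (nat_lit 11))
    (@En.i (nat_lit 8923) (nat_lit 3) (nat_lit 7))
    (@En.n l26498 (nat_lit 988) (nat_lit 4) (nat_lit 4))
    (@En.n l564 (nat_lit 8454) (nat_lit 0) (nat_lit 11))
    (@En.n l24724 (nat_lit 8377) (nat_lit 6) (nat_lit 5))
    (@En.n l40391 (nat_lit 7952) (nat_lit 7) (nat_lit 7))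
    (@En.i (nat_lit 6210) (nat_lit 9) (nat_lit 12))
    (@En.n l20425 (nat_lit 6205) (nat_lit 9) (nat_lit 3))
    (@En.n l1504 (nat_lit 6945) (nat_lit 11) (nat_lit 9))
    (@En.n l34403 (nat_lit 8382) (nat_lit 12) (nat_lit 11))
    (@En.n l1643 (nat_lit 7086) (nat_lit 13) (nat_lit 13))
    (@En.n l41860 (nat_lit 6208) (nat_lit 14) (nat_lit 5))
    (@En.n l41861 (nat_lit 10371) (nat_lit 4) (nat_lit 9))
    (@En.n l28 (nat_lit 6206) (nat_lit 15) (nat_lit 2))))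
  (@Cl.mk (nat_lit 0x20005000d0008000c0003000c000a0004000a00040008000b0006000e0006) (nat_lit 0x74008200055060) (nat_lit 16) Lb.e (@T16.mk En
    (@En.n l14146 (nat_lit 6811) (nat_lit 5) (nat_lit 6))
    (@En.n l5 (nat_lit 6205) (nat_lit 1) (nat_lit 14))
    (@En.n l23743 (nat_lit 8210) (nat_lit 2) (nat_lit 6))
    (@En.i (nat_lit 6199) (nat_lit 3) (nat_lit 11))
    (@En.n l623 (nat_lit 9974) (nat_lit 4) (nat_lit 8))
    (@En.i (nat_lit 1036) (nat_lit 5) (nat_lit 4))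
    (@En.n l9025 (nat_lit 8457) (nat_lit 7) (nat_lit 10))
    (@En.i (nat_lit 8351) (nat_lit 7) (nat_lit 4))
    (@En.n l77 (nat_lit 6800) (nat_lit 9) (nat_lit 10))
    (@En.n l23744 (nat_lit 1920) (nat_lit 10) (nat_lit 12))
    (@En.n l117 (nat_lit 6208) (nat_lit 10) (nat_lit 3))
    (@En.n l513 (nat_lit 8566) (nat_lit 12) (nat_lit 12))
    (@En.i (nat_lit 6209) (nat_lit 13) (nat_lit 8))
    (@En.n l23322 (nat_lit 8208) (nat_lit 14) (nat_lit 13))
    (@En.i (nat_lit 11259) (nat_lit 13) (nat_lit 5))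
    (@En.n l17 (nat_lit 6207) (nat_lit 15) (nat_lit 2))))
noncomputable def a388 : T16 Cl := @T16.mk Cl
  (@Cl.mk (nat_lit 0x20005000d000b00090003000c000a0005000a00040007000b0006000e0006) (nat_lit 0x80009600005070) (nat_lit 16) Lb.e (@T16.mk En
    (@En.i (nat_lit 6813) (nat_lit 5) (nat_lit 6))
    (@En.n l37931 (nat_lit 6206) (nat_lit 1) (nat_lit 14))
    (@En.n l22596 (nat_lit 8209) (nat_lit 2) (nat_lit 6))
    (@En.i (nat_lit 6200) (nat_lit 3) (nat_lit 11))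
    (@En.n l2129 (nat_lit 8924) (nat_lit 4) (nat_lit 7))
    (@En.i (nat_lit 1175) (nat_lit 5) (nat_lit 4))
    (@En.n l2129 (nat_lit 8453) (nat_lit 0) (nat_lit 10))
    (@En.n l37933 (nat_lit 8352) (nat_lit 7) (nat_lit 5))
    (@En.n l77 (nat_lit 6801) (nat_lit 9) (nat_lit 10))
    (@En.n l1690 (nat_lit 6209) (nat_lit 10) (nat_lit 12))
    (@En.n l152 (nat_lit 6207) (nat_lit 10) (nat_lit 3))
    (@En.n l1790 (nat_lit 6946) (nat_lit 12) (nat_lit 9))
    (@En.n l619 (nat_lit 8383) (nat_lit 13) (nat_lit 11))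
    (@En.n l12289 (nat_lit 8207) (nat_lit 14) (nat_lit 13))
    (@En.i (nat_lit 9525) (nat_lit 13) (nat_lit 5))
    (@En.n l17 (nat_lit 6208) (nat_lit 15) (nat_lit 2))))
  (@Cl.mk (nat_lit 0x200050008000c0009000c000900040009000400080007000b0007000e0007) (nat_lit 0x37081000506080) (nat_lit 16) Lb.e (@T16.mk En
    (@En.n l30002 (nat_lit 6812) (nat_lit 1) (nat_lit 7))
    (@En.n l39071 (nat_lit 6210) (nat_lit 1) (nat_lit 14))
    (@En.n l39072 (nat_lit 8211) (nat_lit 2) (nat_lit 7))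
    (@En.n l3 (nat_lit 6207) (nat_lit 3) (nat_lit 11))
    (@En.n l3 (nat_lit 6208) (nat_lit 4) (nat_lit 7))
    (@En.n l39073 (nat_lit 9976) (nat_lit 5) (nat_lit 8))
    (@En.i (nat_lit 1045) (nat_lit 6) (nat_lit 4))
    (@En.n l39074 (nat_lit 8458) (nat_lit 8) (nat_lit 9))
    (@En.n l35195 (nat_lit 8410) (nat_lit 8) (nat_lit 4))
    (@En.n l13368 (nat_lit 1717) (nat_lit 10) (nat_lit 9))
    (@En.n l5236 (nat_lit 1919) (nat_lit 11) (nat_lit 12))
    (@En.n l37664 (nat_lit 6941) (nat_lit 12) (nat_lit 9))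
    (@En.n l5251 (nat_lit 8227) (nat_lit 13) (nat_lit 12))
    (@En.n l28506 (nat_lit 9922) (nat_lit 14) (nat_lit 8))
    (@En.i (nat_lit 11258) (nat_lit 13) (nat_lit 5))
    (@En.n l17 (nat_lit 6209) (nat_lit 15) (nat_lit 2))))
  (@Cl.mk (nat_lit 0x2000a00050008000c0009000c00060004000a000400080007000b000e0006) (nat_lit 0x606008000060370) (nat_lit 16) Lb.e (@T16.mk En
    (@En.n l33828 (nat_lit 8804) (nat_lit 2) (nat_lit 6))
    (@En.n l4758 (nat_lit 7925) (nat_lit 4) (nat_lit 14))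
    (@En.n l33829 (nat_lit 6205) (nat_lit 2) (nat_lit 11))
    (@En.n l17 (nat_lit 6206) (nat_lit 3) (nat_lit 7))
    (@En.n l18100 (nat_lit 10776) (nat_lit 4) (nat_lit 8))
    (@En.n l19733 (nat_lit 986) (nat_lit 5) (nat_lit 4))
    (@En.n l564 (nat_lit 8456) (nat_lit 0) (nat_lit 10))
    (@En.n l33830 (nat_lit 8412) (nat_lit 7) (nat_lit 4))
    (@En.n l33831 (nat_lit 7954) (nat_lit 8) (nat_lit 6))
    (@En.n l33832 (nat_lit 5344) (nat_lit 10) (nat_lit 12))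
    (@En.n l1504 (nat_lit 6944) (nat_lit 11) (nat_lit 9))
    (@En.n l33832 (nat_lit 8379) (nat_lit 12) (nat_lit 12))
    (@En.n l1112 (nat_lit 9923) (nat_lit 13) (nat_lit 8))
    (@En.n l33833 (nat_lit 6209) (nat_lit 14) (nat_lit 5))
    (@En.n l33834 (nat_lit 10370) (nat_lit 0) (nat_lit 10))
    (@En.n l28 (nat_lit 6210) (nat_lit 15) (nat_lit 2))))
  (@Cl.mk (nat_lit 0x3000b0007000a0005000b00050009000c0006000500090004000d0007000b) (nat_lit 0x803090650040607) (nat_lit 16) Lb.e (@T16.mk En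
    (@En.n l513 (nat_lit 8567) (nat_lit 0) (nat_lit 11))
    (@En.n l28274 (nat_lit 10370) (nat_lit 14) (nat_lit 7))
    (@En.n l23322 (nat_lit 10372) (nat_lit 2) (nat_lit 13))
    (@En.n l25648 (nat_lit 11261) (nat_lit 3) (nat_lit 4))
    (@En.n l28275 (nat_lit 6212) (nat_lit 10) (nat_lit 9))
    (@En.n l28276 (nat_lit 6213) (nat_lit 11) (nat_lit 5))
    (@En.n l23743 (nat_lit 10379) (nat_lit 6) (nat_lit 6))
    (@En.i (nat_lit 6198) (nat_lit 6) (nat_lit 12))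
    (@En.n l28277 (nat_lit 10717) (nat_lit 10) (nat_lit 9))
    (@En.n l217 (nat_lit 1043) (nat_lit 9) (nat_lit 5))
    (@En.n l28278 (nat_lit 8147) (nat_lit 11) (nat_lit 11))
    (@En.n l28279 (nat_lit 9785) (nat_lit 1) (nat_lit 5))
    (@En.i (nat_lit 6207) (nat_lit 8) (nat_lit 10))
    (@En.n l28280 (nat_lit 10062) (nat_lit 14) (nat_lit 7))
    (@En.n l28281 (nat_lit 4458) (nat_lit 11) (nat_lit 11))
    (@En.n l117 (nat_lit 10371) (nat_lit 15) (nat_lit 3))))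
  (@Cl.mk (nat_lit 0x30006000a000d000600090003000d0006000a0003000a0007000d000a0006) (nat_lit 0x37030400060940) (nat_lit 16) Lb.e (@T16.mk En
    (@En.n l32443 (nat_lit 9134) (nat_lit 0) (nat_lit 6))
    (@En.n l26837 (nat_lit 6211) (nat_lit 12) (nat_lit 10))
    (@En.n l10037 (nat_lit 6152) (nat_lit 13) (nat_lit 13))
    (@En.n l3480 (nat_lit 10057) (nat_lit 14) (nat_lit 7))
    (@En.n l32444 (nat_lit 4456) (nat_lit 11) (nat_lit 10))
    (@En.n l32445 (nat_lit 6155) (nat_lit 5) (nat_lit 3))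
    (@En.n l10350 (nat_lit 8571) (nat_lit 0) (nat_lit 10))
    (@En.n l32446 (nat_lit 6154) (nat_lit 14) (nat_lit 6))
    (@En.n l32447 (nat_lit 10383) (nat_lit 9) (nat_lit 13))
    (@En.n l13700 (nat_lit 6149) (nat_lit 9) (nat_lit 3))
    (@En.n l32444 (nat_lit 5455) (nat_lit 9) (nat_lit 9))
    (@En.n l32448 (nat_lit 10394) (nat_lit 5) (nat_lit 6))
    (@En.i (nat_lit 6112) (nat_lit 5) (nat_lit 13))
    (@En.n l619 (nat_lit 10716) (nat_lit 9) (nat_lit 10))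
    (@En.n l26836 (nat_lit 1180) (nat_lit 12) (nat_lit 6))
    (@En.n l7 (nat_lit 6213) (nat_lit 15) (nat_lit 3))))
  (@Cl.mk (nat_lit 0x30006000a000d000500090003000d0006000b0003000a0007000d0005000b) (nat_lit 0x35030407050800) (nat_lit 16) Lb.e (@T16.mk En
    (@En.n l37387 (nat_lit 6417) (nat_lit 0) (nat_lit 11))
    (@En.i (nat_lit 11868) (nat_lit 7) (nat_lit 5))
    (@En.n l10037 (nat_lit 6216) (nat_lit 13) (nat_lit 13))
    (@En.n l3480 (nat_lit 10060) (nat_lit 14) (nat_lit 7))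
    (@En.n l152 (nat_lit 4451) (nat_lit 11) (nat_lit 10))
    (@En.i (nat_lit 6214) (nat_lit 5) (nat_lit 3))
    (@En.n l25520 (nat_lit 8763) (nat_lit 0) (nat_lit 11))
    (@En.i (nat_lit 6215) (nat_lit 7) (nat_lit 6))
    (@En.i (nat_lit 6219) (nat_lit 9) (nat_lit 13))
    (@En.n l6131 (nat_lit 6120) (nat_lit 9) (nat_lit 3))
    (@En.n l13783 (nat_lit 5453) (nat_lit 0) (nat_lit 9))
    (@En.n l27438 (nat_lit 9803) (nat_lit 5) (nat_lit 5))
    (@En.i (nat_lit 6113) (nat_lit 5) (nat_lit 13))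
    (@En.n l619 (nat_lit 10719) (nat_lit 9) (nat_lit 10))
    (@En.n l7048 (nat_lit 11009) (nat_lit 12) (nat_lit 6))
    (@En.i (nat_lit 6212) (nat_lit 15) (nat_lit 3))))
  (@Cl.mk (nat_lit 0x300060009000d000500090003000d000a00070003000a0007000d0006000b) (nat_lit 0x55030400060500) (nat_lit 16) Lb.e (@T16.mk En
    (@En.n l43282 (nat_lit 6416) (nat_lit 0) (nat_lit 11))
    (@En.n l27426 (nat_lit 11870) (nat_lit 7) (nat_lit 6))
    (@En.n l24915 (nat_lit 6217) (nat_lit 13) (nat_lit 13))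
    (@En.n l24916 (nat_lit 10061) (nat_lit 14) (nat_lit 7))
    (@En.n l21636 (nat_lit 6215) (nat_lit 4) (nat_lit 10))
    (@En.n l11 (nat_lit 6213) (nat_lit 5) (nat_lit 3))
    (@En.n l21581 (nat_lit 5416) (nat_lit 0) (nat_lit 7))
    (@En.i (nat_lit 8791) (nat_lit 14) (nat_lit 10))
    (@En.n l37229 (nat_lit 6224) (nat_lit 9) (nat_lit 13))
    (@En.n l14125 (nat_lit 6119) (nat_lit 9) (nat_lit 3))
    (@En.n l18053 (nat_lit 5452) (nat_lit 0) (nat_lit 9))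
    (@En.n l24912 (nat_lit 9804) (nat_lit 5) (nat_lit 5))
    (@En.i (nat_lit 6105) (nat_lit 6) (nat_lit 13))
    (@En.n l619 (nat_lit 10262) (nat_lit 9) (nat_lit 9))
    (@En.n l43283 (nat_lit 11008) (nat_lit 12) (nat_lit 6))
    (@En.n l32445 (nat_lit 6155) (nat_lit 15) (nat_lit 3))))
  (@Cl.mk (nat_lit 0x30006000a0009000d0006000a00030006000b0007000a0006000d0005000a) (nat_lit 0x56604000050700) (nat_lit 16) Lb.e (@T16.mk En
    (@En.n l37387 (nat_lit 8144) (nat_lit 0) (nat_lit 10))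
    (@En.n l33150 (nat_lit 11869) (nat_lit 8) (nat_lit 5))
    (@En.n l10037 (nat_lit 6218) (nat_lit 10) (nat_lit 13))
    (@En.n l3480 (nat_lit 10058) (nat_lit 3) (nat_lit 6))
    (@En.n l37653 (nat_lit 4452) (nat_lit 8) (nat_lit 10))
    (@En.n l37654 (nat_lit 1737) (nat_lit 5) (nat_lit 7))
    (@En.n l37655 (nat_lit 8792) (nat_lit 14) (nat_lit 11))
    (@En.n l37656 (nat_lit 9855) (nat_lit 12) (nat_lit 6))
    (@En.n l6131 (nat_lit 6123) (nat_lit 8) (nat_lit 3))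
    (@En.n l37657 (nat_lit 6003) (nat_lit 0) (nat_lit 10))
    (@En.n l37658 (nat_lit 9805) (nat_lit 11) (nat_lit 6))
    (@En.n l107 (nat_lit 6213) (nat_lit 12) (nat_lit 13))
    (@En.n l575 (nat_lit 6214) (nat_lit 13) (nat_lit 9))
    (@En.n l37148 (nat_lit 10718) (nat_lit 4) (nat_lit 10))
    (@En.n l37657 (nat_lit 11010) (nat_lit 12) (nat_lit 6))
    (@En.n l32446 (nat_lit 6154) (nat_lit 6) (nat_lit 3))))
  (@Cl.mk (nat_lit 0x3000a000d0004000a0003000b0006000a000d000600050003000d0006000c) (nat_lit 0x670102077000400) (nat_lit 16) Lb.e (@T16.mk En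
    (@En.n l14463 (nat_lit 8761) (nat_lit 0) (nat_lit 12))
    (@En.i (nat_lit 6218) (nat_lit 14) (nat_lit 6))
    (@En.n l16932 (nat_lit 6220) (nat_lit 2) (nat_lit 13))
    (@En.n l797 (nat_lit 6122) (nat_lit 3) (nat_lit 3))
    (@En.n l2195 (nat_lit 8358) (nat_lit 0) (nat_lit 5))
    (@En.n l665 (nat_lit 9950) (nat_lit 5) (nat_lit 6))
    (@En.n l159 (nat_lit 6157) (nat_lit 5) (nat_lit 13))
    (@En.i (nat_lit 9754) (nat_lit 3) (nat_lit 10))
    (@En.n l14059 (nat_lit 6213) (nat_lit 14) (nat_lit 6))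
    (@En.i (nat_lit 8803) (nat_lit 10) (nat_lit 11))
    (@En.i (nat_lit 6152) (nat_lit 10) (nat_lit 3))
    (@En.i (nat_lit 2625) (nat_lit 0) (nat_lit 10))
    (@En.n l159 (nat_lit 9707) (nat_lit 8) (nat_lit 4))
    (@En.n l2195 (nat_lit 8264) (nat_lit 5) (nat_lit 13))
    (@En.n l5732 (nat_lit 4449) (nat_lit 11) (nat_lit 10))
    (@En.n l14181 (nat_lit 6217) (nat_lit 15) (nat_lit 3))))
  (@Cl.mk (nat_lit 0x3000a000d0005000a0003000b00060009000d000600050003000d000b0007) (nat_lit 0x540102007000700) (nat_lit 16) Lb.e (@T16.mk En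
    (@En.n l12763 (nat_lit 1736) (nat_lit 0) (nat_lit 7))
    (@En.n l28245 (nat_lit 8790) (nat_lit 14) (nat_lit 11))
    (@En.n l38097 (nat_lit 6223) (nat_lit 2) (nat_lit 13))
    (@En.n l763 (nat_lit 6121) (nat_lit 3) (nat_lit 3))
    (@En.i (nat_lit 8357) (nat_lit 0) (nat_lit 5))
    (@En.n l1545 (nat_lit 9879) (nat_lit 5) (nat_lit 6))
    (@En.i (nat_lit 6103) (nat_lit 6) (nat_lit 13))
    (@En.n l28245 (nat_lit 7540) (nat_lit 9) (nat_lit 9))
    (@En.n l19930 (nat_lit 6214) (nat_lit 14) (nat_lit 6))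
    (@En.n l28254 (nat_lit 8802) (nat_lit 10) (nat_lit 11))
    (@En.n l34407 (nat_lit 6151) (nat_lit 10) (nat_lit 3))
    (@En.n l15955 (nat_lit 2623) (nat_lit 0) (nat_lit 10))
    (@En.n l23891 (nat_lit 9706) (nat_lit 8) (nat_lit 5))
    (@En.i (nat_lit 8266) (nat_lit 5) (nat_lit 13))
    (@En.n l38098 (nat_lit 6218) (nat_lit 11) (nat_lit 10))
    (@En.n l38099 (nat_lit 6216) (nat_lit 15) (nat_lit 3))))
  (@Cl.mk (nat_lit 0x30006000c0007000a000d000400090003000a0006000a0009000d00070006) (nat_lit 0x70460102041800) (nat_lit 16) Lb.e (@T16.mk En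
    (@En.n l2195 (nat_lit 8359) (nat_lit 0) (nat_lit 6))
    (@En.n l36637 (nat_lit 9876) (nat_lit 7) (nat_lit 7))
    (@En.n l3 (nat_lit 6216) (nat_lit 6) (nat_lit 13))
    (@En.n l41153 (nat_lit 6217) (nat_lit 7) (nat_lit 9))
    (@En.i (nat_lit 9756) (nat_lit 4) (nat_lit 10))
    (@En.n l14059 (nat_lit 6215) (nat_lit 14) (nat_lit 6))
    (@En.i (nat_lit 8804) (nat_lit 7) (nat_lit 10))
    (@En.n l16931 (nat_lit 6153) (nat_lit 7) (nat_lit 3))
    (@En.n l22086 (nat_lit 2624) (nat_lit 0) (nat_lit 9))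
    (@En.n l41154 (nat_lit 9705) (nat_lit 9) (nat_lit 4))
    (@En.n l2195 (nat_lit 8261) (nat_lit 5) (nat_lit 13))
    (@En.n l41155 (nat_lit 4450) (nat_lit 8) (nat_lit 10))
    (@En.n l30198 (nat_lit 1734) (nat_lit 13) (nat_lit 7))
    (@En.n l41156 (nat_lit 8773) (nat_lit 14) (nat_lit 12))
    (@En.n l41157 (nat_lit 9584) (nat_lit 12) (nat_lit 6))
    (@En.n l797 (nat_lit 6124) (nat_lit 15) (nat_lit 3))))
  (@Cl.mk (nat_lit 0x30006000b000900050009000d0005000a00030007000a0007000d0006000b) (nat_lit 0x5033000060800) (nat_lit 16) Lb.e (@T16.mk En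
    (@En.n l42862 (nat_lit 8151) (nat_lit 0) (nat_lit 11))
    (@En.n l33151 (nat_lit 9719) (nat_lit 11) (nat_lit 6))
    (@En.n l42863 (nat_lit 6220) (nat_lit 12) (nat_lit 13))
    (@En.n l42864 (nat_lit 10068) (nat_lit 13) (nat_lit 7))
    (@En.n l42865 (nat_lit 11525) (nat_lit 8) (nat_lit 10))
    (@En.n l527 (nat_lit 6215) (nat_lit 5) (nat_lit 7))
    (@En.n l37229 (nat_lit 6224) (nat_lit 6) (nat_lit 3))
    (@En.n l42866 (nat_lit 9605) (nat_lit 0) (nat_lit 10))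
    (@En.n l42867 (nat_lit 9627) (nat_lit 8) (nat_lit 5))
    (@En.n l21577 (nat_lit 11628) (nat_lit 10) (nat_lit 13))
    (@En.n l42868 (nat_lit 5535) (nat_lit 10) (nat_lit 9))
    (@En.n l42869 (nat_lit 10477) (nat_lit 4) (nat_lit 5))
    (@En.n l180 (nat_lit 6221) (nat_lit 13) (nat_lit 9))
    (@En.n l619 (nat_lit 10710) (nat_lit 14) (nat_lit 11))
    (@En.n l42870 (nat_lit 11003) (nat_lit 12) (nat_lit 6))
    (@En.n l32447 (nat_lit 10383) (nat_lit 15) (nat_lit 3))))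
  (@Cl.mk (nat_lit 0x30007000a000d0005000a0003000b0006000b000900060005000d0005000b) (nat_lit 0x57000008000300) (nat_lit 16) Lb.e (@T16.mk En
    (@En.n l638 (nat_lit 9608) (nat_lit 0) (nat_lit 11))
    (@En.n l1236 (nat_lit 9620) (nat_lit 7) (nat_lit 5))
    (@En.n l36700 (nat_lit 11629) (nat_lit 9) (nat_lit 13))
    (@En.n l6918 (nat_lit 7625) (nat_lit 3) (nat_lit 5))
    (@En.n l9856 (nat_lit 10474) (nat_lit 4) (nat_lit 6))
    (@En.n l9715 (nat_lit 6222) (nat_lit 5) (nat_lit 9))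
    (@En.n l32316 (nat_lit 9175) (nat_lit 13) (nat_lit 11))
    (@En.n l40790 (nat_lit 6219) (nat_lit 14) (nat_lit 6))
    (@En.n l30772 (nat_lit 7089) (nat_lit 9) (nat_lit 11))
    (@En.i (nat_lit 10388) (nat_lit 9) (nat_lit 3))
    (@En.n l40791 (nat_lit 8717) (nat_lit 0) (nat_lit 10))
    (@En.i (nat_lit 9810) (nat_lit 12) (nat_lit 5))
    (@En.i (nat_lit 10244) (nat_lit 5) (nat_lit 13))
    (@En.n l6918 (nat_lit 11524) (nat_lit 8) (nat_lit 10))
    (@En.n l40792 (nat_lit 6218) (nat_lit 12) (nat_lit 7))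
    (@En.n l40793 (nat_lit 6223) (nat_lit 15) (nat_lit 3))))
  (@Cl.mk (nat_lit 0x30006000900040008000d000c0009000300070004000a0008000d0007000c) (nat_lit 0x402b0000075b00) (nat_lit 16) Lb.e (@T16.mk En
    (@En.n l18054 (nat_lit 8156) (nat_lit 0) (nat_lit 12))
    (@En.n l37228 (nat_lit 9717) (nat_lit 4) (nat_lit 7))
    (@En.n l24915 (nat_lit 6222) (nat_lit 11) (nat_lit 13))
    (@En.n l24916 (nat_lit 10433) (nat_lit 12) (nat_lit 8))
    (@En.n l159 (nat_lit 6219) (nat_lit 4) (nat_lit 10))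
    (@En.n l17409 (nat_lit 8119) (nat_lit 5) (nat_lit 4))
    (@En.i (nat_lit 6214) (nat_lit 6) (nat_lit 7))
    (@En.n l14854 (nat_lit 10428) (nat_lit 7) (nat_lit 3))
    (@En.i (nat_lit 9606) (nat_lit 0) (nat_lit 9))
    (@En.n l37229 (nat_lit 10427) (nat_lit 10) (nat_lit 12))
    (@En.n l17409 (nat_lit 12014) (nat_lit 11) (nat_lit 13))
    (@En.n l18053 (nat_lit 5531) (nat_lit 11) (nat_lit 8))
    (@En.n l13784 (nat_lit 10485) (nat_lit 4) (nat_lit 4))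
    (@En.n l619 (nat_lit 12126) (nat_lit 9) (nat_lit 9))
    (@En.n l37230 (nat_lit 11005) (nat_lit 12) (nat_lit 6))
    (@En.n l37231 (nat_lit 10382) (nat_lit 15) (nat_lit 3))))
  (@Cl.mk (nat_lit 0x300070004000a000d0006000b0003000c0006000900050004000d000c000a) (nat_lit 0x6a00000700800) (nat_lit 16) Lb.e (@T16.mk En
    (@En.n l28245 (nat_lit 9607) (nat_lit 0) (nat_lit 10))
    (@En.n l16898 (nat_lit 10426) (nat_lit 4) (nat_lit 12))
    (@En.n l763 (nat_lit 12013) (nat_lit 10) (nat_lit 13))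
    (@En.i (nat_lit 7621) (nat_lit 3) (nat_lit 4))
    (@En.n l27237 (nat_lit 10483) (nat_lit 4) (nat_lit 5))
    (@En.n l28245 (nat_lit 8684) (nat_lit 9) (nat_lit 9))
    (@En.n l19930 (nat_lit 6221) (nat_lit 14) (nat_lit 6))
    (@En.n l28246 (nat_lit 7087) (nat_lit 8) (nat_lit 12))
    (@En.n l17265 (nat_lit 10384) (nat_lit 8) (nat_lit 3))
    (@En.n l27237 (nat_lit 8714) (nat_lit 0) (nat_lit 11))
    (@En.n l28247 (nat_lit 9711) (nat_lit 11) (nat_lit 6))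
    (@En.i (nat_lit 8639) (nat_lit 5) (nat_lit 13))
    (@En.n l3819 (nat_lit 6220) (nat_lit 13) (nat_lit 10))
    (@En.n l6826 (nat_lit 8121) (nat_lit 4) (nat_lit 4))
    (@En.i (nat_lit 6217) (nat_lit 0) (nat_lit 7))
    (@En.n l25292 (nat_lit 6225) (nat_lit 15) (nat_lit 3))))
  (@Cl.mk (nat_lit 0x30007000a000d0006000a0003000b0006000a000900060005000d000a0006) (nat_lit 0x67000600000600) (nat_lit 16) Lb.e (@T16.mk En
    (@En.n l43124 (nat_lit 10864) (nat_lit 0) (nat_lit 6))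
    (@En.n l43076 (nat_lit 9955) (nat_lit 8) (nat_lit 10))
    (@En.n l32372 (nat_lit 12010) (nat_lit 9) (nat_lit 13))
    (@En.n l5200 (nat_lit 7624) (nat_lit 3) (nat_lit 5))
    (@En.i (nat_lit 10475) (nat_lit 4) (nat_lit 6))
    (@En.n l17 (nat_lit 6225) (nat_lit 5) (nat_lit 9))
    (@En.n l20869 (nat_lit 9206) (nat_lit 13) (nat_lit 10))
    (@En.n l43125 (nat_lit 6224) (nat_lit 14) (nat_lit 6))
    (@En.n l8015 (nat_lit 7088) (nat_lit 9) (nat_lit 11))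
    (@En.n l8400 (nat_lit 10386) (nat_lit 9) (nat_lit 3))
    (@En.i (nat_lit 10974) (nat_lit 0) (nat_lit 10))
    (@En.n l17884 (nat_lit 9812) (nat_lit 12) (nat_lit 6))
    (@En.n l43126 (nat_lit 10243) (nat_lit 5) (nat_lit 13))
    (@En.n l43127 (nat_lit 8627) (nat_lit 8) (nat_lit 10))
    (@En.n l43128 (nat_lit 5427) (nat_lit 4) (nat_lit 7))
    (@En.n l43129 (nat_lit 6220) (nat_lit 15) (nat_lit 3))))
noncomputable def a389 : T16 Cl := @T16.mk Cl
  (@Cl.mk (nat_lit 0x30006000a000900050009000d0009000600030007000a0007000d0007000b) (nat_lit 0x5023000060800) (nat_lit 16) Lb.e (@T16.mk En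
    (@En.n l17531 (nat_lit 8155) (nat_lit 0) (nat_lit 11))
    (@En.n l39270 (nat_lit 10512) (nat_lit 11) (nat_lit 7))
    (@En.n l27529 (nat_lit 6223) (nat_lit 12) (nat_lit 13))
    (@En.n l39271 (nat_lit 10069) (nat_lit 13) (nat_lit 7))
    (@En.n l39272 (nat_lit 8630) (nat_lit 8) (nat_lit 10))
    (@En.n l39273 (nat_lit 5423) (nat_lit 5) (nat_lit 7))
    (@En.n l37368 (nat_lit 6219) (nat_lit 6) (nat_lit 3))
    (@En.n l39274 (nat_lit 10867) (nat_lit 0) (nat_lit 6))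
    (@En.n l39275 (nat_lit 9956) (nat_lit 9) (nat_lit 9))
    (@En.i (nat_lit 12009) (nat_lit 10) (nat_lit 13))
    (@En.n l39276 (nat_lit 5556) (nat_lit 10) (nat_lit 9))
    (@En.n l39277 (nat_lit 10479) (nat_lit 4) (nat_lit 5))
    (@En.n l30683 (nat_lit 10428) (nat_lit 13) (nat_lit 9))
    (@En.n l39278 (nat_lit 10706) (nat_lit 9) (nat_lit 10))
    (@En.n l24591 (nat_lit 11002) (nat_lit 12) (nat_lit 6))
    (@En.n l39279 (nat_lit 10380) (nat_lit 15) (nat_lit 3))))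
  (@Cl.mk (nat_lit 0x300070003000a000d0007000b0003000c0006000900050004000d0009000d) (nat_lit 0x7800000700803) (nat_lit 16) Lb.e (@T16.mk En
    (@En.n l3082 (nat_lit 7329) (nat_lit 0) (nat_lit 13))
    (@En.i (nat_lit 9952) (nat_lit 3) (nat_lit 9))
    (@En.i (nat_lit 12012) (nat_lit 10) (nat_lit 13))
    (@En.n l5200 (nat_lit 7618) (nat_lit 3) (nat_lit 4))
    (@En.i (nat_lit 10484) (nat_lit 6) (nat_lit 5))
    (@En.n l3082 (nat_lit 8688) (nat_lit 9) (nat_lit 9))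
    (@En.n l24753 (nat_lit 10428) (nat_lit 14) (nat_lit 6))
    (@En.n l8015 (nat_lit 7084) (nat_lit 8) (nat_lit 12))
    (@En.n l8400 (nat_lit 10385) (nat_lit 8) (nat_lit 3))
    (@En.i (nat_lit 8716) (nat_lit 0) (nat_lit 11))
    (@En.n l17884 (nat_lit 9813) (nat_lit 13) (nat_lit 7))
    (@En.n l3866 (nat_lit 8742) (nat_lit 5) (nat_lit 13))
    (@En.i (nat_lit 6223) (nat_lit 13) (nat_lit 10))
    (@En.n l27666 (nat_lit 10426) (nat_lit 15) (nat_lit 3))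
    (@En.n l3082 (nat_lit 5426) (nat_lit 0) (nat_lit 7))
    (@En.n l14182 (nat_lit 6222) (nat_lit 15) (nat_lit 3))))
  (@Cl.mk (nat_lit 0x30003000c0009000d000900040003000d000a000700030007000d000d0006) (nat_lit 0x661300a0000b00) (nat_lit 16) Lb.e (@T16.mk En
    (@En.n l4476 (nat_lit 7496) (nat_lit 0) (nat_lit 6))
    (@En.n l17791 (nat_lit 6227) (nat_lit 3) (nat_lit 13))
    (@En.n l3528 (nat_lit 10160) (nat_lit 2) (nat_lit 13))
    (@En.i (nat_lit 6242) (nat_lit 3) (nat_lit 7))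
    (@En.n l7 (nat_lit 6085) (nat_lit 4) (nat_lit 3))
    (@En.n l27006 (nat_lit 6134) (nat_lit 0) (nat_lit 7))
    (@En.i (nat_lit 6405) (nat_lit 14) (nat_lit 10))
    (@En.n l27007 (nat_lit 5337) (nat_lit 8) (nat_lit 13))
    (@En.n l17789 (nat_lit 6079) (nat_lit 8) (nat_lit 3))
    (@En.n l9956 (nat_lit 4075) (nat_lit 0) (nat_lit 4))
    (@En.n l27008 (nat_lit 6077) (nat_lit 11) (nat_lit 9))
    (@En.i (nat_lit 3572) (nat_lit 6) (nat_lit 13))
    (@En.n l27006 (nat_lit 3019) (nat_lit 13) (nat_lit 9))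
    (@En.i (nat_lit 10055) (nat_lit 9) (nat_lit 12))
    (@En.n l27009 (nat_lit 6084) (nat_lit 13) (nat_lit 3))
    (@En.n l25360 (nat_lit 6227) (nat_lit 0) (nat_lit 3))))
  (@Cl.mk (nat_lit 0x2000c0009000d000900040003000d000b000700030007000d0005000e0003) (nat_lit 0x621300b8000b050) (nat_lit 16) Lb.e (@T16.mk En
    (@En.n l3522 (nat_lit 6226) (nat_lit 15) (nat_lit 3))
    (@En.n l21428 (nat_lit 13828) (nat_lit 0) (nat_lit 14))
    (@En.n l18738 (nat_lit 6393) (nat_lit 2) (nat_lit 5))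
    (@En.i (nat_lit 10161) (nat_lit 2) (nat_lit 13))
    (@En.n l3522 (nat_lit 6243) (nat_lit 4) (nat_lit 7))
    (@En.n l8258 (nat_lit 6229) (nat_lit 5) (nat_lit 3))
    (@En.i (nat_lit 6133) (nat_lit 0) (nat_lit 7))
    (@En.n l3522 (nat_lit 6401) (nat_lit 8) (nat_lit 11))
    (@En.n l22466 (nat_lit 5341) (nat_lit 9) (nat_lit 13))
    (@En.n l11382 (nat_lit 6228) (nat_lit 9) (nat_lit 3))
    (@En.n l18 (nat_lit 4073) (nat_lit 10) (nat_lit 4))
    (@En.n l22607 (nat_lit 6235) (nat_lit 12) (nat_lit 9))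
    (@En.i (nat_lit 3579) (nat_lit 13) (nat_lit 13))
    (@En.n l61 (nat_lit 3259) (nat_lit 14) (nat_lit 9))
    (@En.i (nat_lit 10514) (nat_lit 9) (nat_lit 12))
    (@En.n l7 (nat_lit 6227) (nat_lit 15) (nat_lit 2))))
  (@Cl.mk (nat_lit 0x2000d0009000d0003000a0003000d000b000700030006000d0005000e0003) (nat_lit 0x92102078000b050) (nat_lit 16) Lb.e (@T16.mk En
    (@En.n l4019 (nat_lit 6079) (nat_lit 15) (nat_lit 3))
    (@En.i (nat_lit 13796) (nat_lit 0) (nat_lit 14))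
    (@En.n l4263 (nat_lit 6391) (nat_lit 2) (nat_lit 5))
    (@En.n l2572 (nat_lit 10162) (nat_lit 8) (nat_lit 13))
    (@En.n l5928 (nat_lit 6424) (nat_lit 12) (nat_lit 6))
    (@En.n l7 (nat_lit 6230) (nat_lit 5) (nat_lit 3))
    (@En.n l1347 (nat_lit 6131) (nat_lit 0) (nat_lit 7))
    (@En.i (nat_lit 6399) (nat_lit 8) (nat_lit 11))
    (@En.i (nat_lit 6235) (nat_lit 9) (nat_lit 13))
    (@En.n l4018 (nat_lit 6227) (nat_lit 9) (nat_lit 3))
    (@En.i (nat_lit 579) (nat_lit 11) (nat_lit 10))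
    (@En.n l3596 (nat_lit 6236) (nat_lit 11) (nat_lit 3))
    (@En.i (nat_lit 3571) (nat_lit 0) (nat_lit 13))
    (@En.i (nat_lit 3258) (nat_lit 14) (nat_lit 9))
    (@En.i (nat_lit 10356) (nat_lit 2) (nat_lit 13))
    (@En.n l17 (nat_lit 6228) (nat_lit 15) (nat_lit 2))))
  (@Cl.mk (nat_lit 0x2000c000a000d000900040003000d0006000c00030007000d0004000e0003) (nat_lit 0x681300b0900b040) (nat_lit 16) Lb.e (@T16.mk En
    (@En.i (nat_lit 6085) (nat_lit 15) (nat_lit 3))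
    (@En.i (nat_lit 13794) (nat_lit 0) (nat_lit 14))
    (@En.i (nat_lit 6396) (nat_lit 2) (nat_lit 4))
    (@En.n l649 (nat_lit 9403) (nat_lit 2) (nat_lit 13))
    (@En.i (nat_lit 4378) (nat_lit 4) (nat_lit 7))
    (@En.n l3528 (nat_lit 6227) (nat_lit 5) (nat_lit 3))
    (@En.i (nat_lit 12741) (nat_lit 0) (nat_lit 12))
    (@En.i (nat_lit 6231) (nat_lit 7) (nat_lit 6))
    (@En.i (nat_lit 5571) (nat_lit 9) (nat_lit 13))
    (@En.n l152 (nat_lit 6230) (nat_lit 9) (nat_lit 3))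
    (@En.n l1865 (nat_lit 4072) (nat_lit 10) (nat_lit 4))
    (@En.n l619 (nat_lit 6234) (nat_lit 12) (nat_lit 9))
    (@En.i (nat_lit 3570) (nat_lit 5) (nat_lit 13))
    (@En.n l1867 (nat_lit 4502) (nat_lit 14) (nat_lit 10))
    (@En.i (nat_lit 10513) (nat_lit 9) (nat_lit 12))
    (@En.n l17 (nat_lit 6229) (nat_lit 15) (nat_lit 2))))
  (@Cl.mk (nat_lit 0x2000d000a000d0003000a0003000d0006000c00030006000d0004000e0003) (nat_lit 0xb8201070900b030) (nat_lit 16) Lb.e (@T16.mk En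
    (@En.i (nat_lit 6081) (nat_lit 15) (nat_lit 3))
    (@En.i (nat_lit 13792) (nat_lit 0) (nat_lit 14))
    (@En.i (nat_lit 6395) (nat_lit 2) (nat_lit 4))
    (@En.n l5891 (nat_lit 9764) (nat_lit 8) (nat_lit 13))
    (@En.i (nat_lit 2254) (nat_lit 12) (nat_lit 6))
    (@En.i (nat_lit 6228) (nat_lit 5) (nat_lit 3))
    (@En.n l2031 (nat_lit 12743) (nat_lit 0) (nat_lit 12))
    (@En.i (nat_lit 6232) (nat_lit 7) (nat_lit 6))
    (@En.i (nat_lit 6234) (nat_lit 9) (nat_lit 13))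
    (@En.n l117 (nat_lit 6229) (nat_lit 9) (nat_lit 3))
    (@En.i (nat_lit 581) (nat_lit 11) (nat_lit 10))
    (@En.n l3596 (nat_lit 6237) (nat_lit 11) (nat_lit 3))
    (@En.i (nat_lit 3578) (nat_lit 0) (nat_lit 13))
    (@En.i (nat_lit 4501) (nat_lit 14) (nat_lit 10))
    (@En.i (nat_lit 9665) (nat_lit 2) (nat_lit 13))
    (@En.n l17 (nat_lit 6230) (nat_lit 15) (nat_lit 2))))
  (@Cl.mk (nat_lit 0x2000b000a0009000d000a000500030006000c00070006000d0004000e0003) (nat_lit 0x683240009000090) (nat_lit 16) Lb.e (@T16.mk En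
    (@En.i (nat_lit 6233) (nat_lit 15) (nat_lit 3))
    (@En.i (nat_lit 12872) (nat_lit 0) (nat_lit 14))
    (@En.i (nat_lit 6249) (nat_lit 2) (nat_lit 4))
    (@En.n l649 (nat_lit 9755) (nat_lit 11) (nat_lit 13))
    (@En.n l13671 (nat_lit 2375) (nat_lit 4) (nat_lit 6))
    (@En.i (nat_lit 6141) (nat_lit 5) (nat_lit 7))
    (@En.n l28 (nat_lit 12734) (nat_lit 7) (nat_lit 12))
    (@En.n l13673 (nat_lit 4846) (nat_lit 7) (nat_lit 6))
    (@En.n l152 (nat_lit 6232) (nat_lit 8) (nat_lit 3))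
    (@En.n l1865 (nat_lit 4074) (nat_lit 0) (nat_lit 5))
    (@En.n l97 (nat_lit 5938) (nat_lit 11) (nat_lit 10))
    (@En.n l28 (nat_lit 6229) (nat_lit 12) (nat_lit 13))
    (@En.n l18989 (nat_lit 6227) (nat_lit 13) (nat_lit 9))
    (@En.n l19470 (nat_lit 6244) (nat_lit 14) (nat_lit 10))
    (@En.i (nat_lit 10515) (nat_lit 14) (nat_lit 11))
    (@En.n l17 (nat_lit 6231) (nat_lit 15) (nat_lit 2))))
  (@Cl.mk (nat_lit 0x2000c000a0009000d0004000b00030006000c00070005000d0004000e0003) (nat_lit 0x98330400900b080) (nat_lit 16) Lb.e (@T16.mk En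
    (@En.i (nat_lit 5940) (nat_lit 15) (nat_lit 3))
    (@En.i (nat_lit 12871) (nat_lit 0) (nat_lit 14))
    (@En.i (nat_lit 6394) (nat_lit 2) (nat_lit 4))
    (@En.n l2068 (nat_lit 9760) (nat_lit 11) (nat_lit 13))
    (@En.n l5154 (nat_lit 2255) (nat_lit 4) (nat_lit 5))
    (@En.i (nat_lit 6140) (nat_lit 5) (nat_lit 7))
    (@En.n l5534 (nat_lit 12765) (nat_lit 7) (nat_lit 12))
    (@En.n l6083 (nat_lit 5937) (nat_lit 12) (nat_lit 6))
    (@En.n l117 (nat_lit 6231) (nat_lit 8) (nat_lit 3))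
    (@En.i (nat_lit 801) (nat_lit 0) (nat_lit 11))
    (@En.n l3596 (nat_lit 6408) (nat_lit 10) (nat_lit 4))
    (@En.n l28 (nat_lit 6230) (nat_lit 12) (nat_lit 13))
    (@En.n l77 (nat_lit 6228) (nat_lit 13) (nat_lit 9))
    (@En.n l11833 (nat_lit 4503) (nat_lit 14) (nat_lit 10))
    (@En.i (nat_lit 9667) (nat_lit 14) (nat_lit 12))
    (@En.n l17 (nat_lit 6232) (nat_lit 15) (nat_lit 2))))
  (@Cl.mk (nat_lit 0x30003000b000a0009000d000a000500030006000b00070006000d000d0005) (nat_lit 0x68784000000010) (nat_lit 16) Lb.e (@T16.mk En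
    (@En.n l29369 (nat_lit 4429) (nat_lit 0) (nat_lit 5))
    (@En.n l61 (nat_lit 6231) (nat_lit 3) (nat_lit 13))
    (@En.n l649 (nat_lit 9759) (nat_lit 11) (nat_lit 13))
    (@En.n l13671 (nat_lit 2263) (nat_lit 3) (nat_lit 6))
    (@En.n l27006 (nat_lit 6139) (nat_lit 4) (nat_lit 7))
    (@En.n l21989 (nat_lit 12416) (nat_lit 14) (nat_lit 11))
    (@En.n l13673 (nat_lit 4847) (nat_lit 12) (nat_lit 6))
    (@En.n l152 (nat_lit 5940) (nat_lit 7) (nat_lit 3))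
    (@En.n l1865 (nat_lit 4077) (nat_lit 0) (nat_lit 5))
    (@En.n l29370 (nat_lit 5936) (nat_lit 10) (nat_lit 10))
    (@En.n l28 (nat_lit 6085) (nat_lit 11) (nat_lit 13))
    (@En.n l77 (nat_lit 6226) (nat_lit 12) (nat_lit 9))
    (@En.n l14455 (nat_lit 4500) (nat_lit 13) (nat_lit 10))
    (@En.i (nat_lit 10054) (nat_lit 14) (nat_lit 11))
    (@En.n l29371 (nat_lit 6240) (nat_lit 13) (nat_lit 3))
    (@En.n l18 (nat_lit 6231) (nat_lit 0) (nat_lit 3))))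
  (@Cl.mk (nat_lit 0x2000d000b00090003000a000d0005000b000300070006000d0005000e0003) (nat_lit 0xb82016090002090) (nat_lit 16) Lb.e (@T16.mk En
    (@En.i (nat_lit 6076) (nat_lit 15) (nat_lit 3))
    (@En.i (nat_lit 13793) (nat_lit 0) (nat_lit 14))
    (@En.i (nat_lit 6386) (nat_lit 2) (nat_lit 5))
    (@En.n l5891 (nat_lit 10901) (nat_lit 8) (nat_lit 13))
    (@En.n l11 (nat_lit 6230) (nat_lit 4) (nat_lit 6))
    (@En.n l55 (nat_lit 6232) (nat_lit 5) (nat_lit 7))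
    (@En.i (nat_lit 6235) (nat_lit 6) (nat_lit 3))
    (@En.n l2031 (nat_lit 12745) (nat_lit 0) (nat_lit 11))
    (@En.n l11 (nat_lit 5938) (nat_lit 8) (nat_lit 5))
    (@En.n l6698 (nat_lit 5343) (nat_lit 5) (nat_lit 13))
    (@En.n l2037 (nat_lit 583) (nat_lit 11) (nat_lit 10))
    (@En.n l27031 (nat_lit 6324) (nat_lit 11) (nat_lit 3))
    (@En.n l134 (nat_lit 6368) (nat_lit 0) (nat_lit 9))
    (@En.n l9921 (nat_lit 6254) (nat_lit 14) (nat_lit 11))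
    (@En.i (nat_lit 9668) (nat_lit 2) (nat_lit 13))
    (@En.n l17 (nat_lit 6234) (nat_lit 15) (nat_lit 2))))
  (@Cl.mk (nat_lit 0x2000d000a00090003000a000d000a0006000300070006000d0006000e0003) (nat_lit 0xb12016700002090) (nat_lit 16) Lb.e (@T16.mk En
    (@En.n l27030 (nat_lit 6077) (nat_lit 15) (nat_lit 3))
    (@En.i (nat_lit 13797) (nat_lit 0) (nat_lit 14))
    (@En.n l4263 (nat_lit 6389) (nat_lit 2) (nat_lit 6))
    (@En.n l2572 (nat_lit 10900) (nat_lit 8) (nat_lit 13))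
    (@En.n l11 (nat_lit 6228) (nat_lit 4) (nat_lit 6))
    (@En.i (nat_lit 6267) (nat_lit 5) (nat_lit 7))
    (@En.n l7 (nat_lit 6234) (nat_lit 6) (nat_lit 3))
    (@En.n l6698 (nat_lit 6130) (nat_lit 0) (nat_lit 6))
    (@En.n l19999 (nat_lit 9291) (nat_lit 9) (nat_lit 10))
    (@En.n l6698 (nat_lit 5335) (nat_lit 5) (nat_lit 13))
    (@En.n l2037 (nat_lit 574) (nat_lit 11) (nat_lit 10))
    (@En.n l27031 (nat_lit 6239) (nat_lit 11) (nat_lit 3))
    (@En.n l134 (nat_lit 6366) (nat_lit 0) (nat_lit 9))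
    (@En.n l6698 (nat_lit 1320) (nat_lit 14) (nat_lit 10))
    (@En.i (nat_lit 10359) (nat_lit 2) (nat_lit 13))
    (@En.n l17 (nat_lit 6235) (nat_lit 15) (nat_lit 2))))
  (@Cl.mk (nat_lit 0x2000d000c000a0003000a0004000d000b000600030006000d0005000e0003) (nat_lit 0x971020880007090) (nat_lit 16) Lb.e (@T16.mk En
    (@En.i (nat_lit 6238) (nat_lit 15) (nat_lit 3))
    (@En.n l699 (nat_lit 13799) (nat_lit 0) (nat_lit 14))
    (@En.n l5194 (nat_lit 6392) (nat_lit 2) (nat_lit 5))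
    (@En.i (nat_lit 10164) (nat_lit 8) (nat_lit 13))
    (@En.n l11216 (nat_lit 6426) (nat_lit 12) (nat_lit 6))
    (@En.n l28 (nat_lit 6237) (nat_lit 5) (nat_lit 3))
    (@En.i (nat_lit 1134) (nat_lit 0) (nat_lit 6))
    (@En.n l77 (nat_lit 6400) (nat_lit 8) (nat_lit 11))
    (@En.n l476 (nat_lit 6239) (nat_lit 9) (nat_lit 13))
    (@En.n l387 (nat_lit 6310) (nat_lit 9) (nat_lit 4))
    (@En.i (nat_lit 475) (nat_lit 11) (nat_lit 10))
    (@En.n l1106 (nat_lit 6228) (nat_lit 11) (nat_lit 3))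
    (@En.n l97 (nat_lit 871) (nat_lit 0) (nat_lit 10))
    (@En.n l1236 (nat_lit 6227) (nat_lit 14) (nat_lit 12))
    (@En.n l1738 (nat_lit 8459) (nat_lit 2) (nat_lit 13))
    (@En.n l18 (nat_lit 6236) (nat_lit 15) (nat_lit 2))))
  (@Cl.mk (nat_lit 0x2000d000c000b0003000a0004000d0005000c00030006000d0004000e0003) (nat_lit 0xb77010809007030) (nat_lit 16) Lb.e (@T16.mk En
    (@En.i (nat_lit 6322) (nat_lit 15) (nat_lit 3))
    (@En.n l699 (nat_lit 13795) (nat_lit 0) (nat_lit 14))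
    (@En.i (nat_lit 6397) (nat_lit 2) (nat_lit 4))
    (@En.i (nat_lit 10190) (nat_lit 8) (nat_lit 13))
    (@En.n l2009 (nat_lit 2293) (nat_lit 12) (nat_lit 6))
    (@En.i (nat_lit 6236) (nat_lit 5) (nat_lit 3))
    (@En.i (nat_lit 12744) (nat_lit 0) (nat_lit 12))
    (@En.i (nat_lit 6408) (nat_lit 7) (nat_lit 5))
    (@En.n l476 (nat_lit 6324) (nat_lit 9) (nat_lit 13))
    (@En.n l387 (nat_lit 6317) (nat_lit 9) (nat_lit 4))
    (@En.i (nat_lit 472) (nat_lit 11) (nat_lit 10))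
    (@En.n l1106 (nat_lit 6230) (nat_lit 11) (nat_lit 3))
    (@En.n l619 (nat_lit 6313) (nat_lit 0) (nat_lit 11))
    (@En.n l1106 (nat_lit 6229) (nat_lit 14) (nat_lit 12))
    (@En.n l1738 (nat_lit 8453) (nat_lit 2) (nat_lit 13))
    (@En.n l18 (nat_lit 6237) (nat_lit 15) (nat_lit 2))))
  (@Cl.mk (nat_lit 0x30003000d000c000a0003000a0004000d000a000600030006000d000d0006) (nat_lit 0x97103070000780) (nat_lit 16) Lb.e (@T16.mk En
    (@En.n l1234 (nat_lit 7498) (nat_lit 0) (nat_lit 6))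
    (@En.n l217 (nat_lit 6236) (nat_lit 3) (nat_lit 13))
    (@En.i (nat_lit 10165) (nat_lit 8) (nat_lit 13))
    (@En.n l11216 (nat_lit 6427) (nat_lit 12) (nat_lit 6))
    (@En.n l28 (nat_lit 6322) (nat_lit 4) (nat_lit 3))
    (@En.n l13294 (nat_lit 1135) (nat_lit 0) (nat_lit 6))
    (@En.i (nat_lit 8875) (nat_lit 12) (nat_lit 10))
    (@En.n l13295 (nat_lit 6326) (nat_lit 8) (nat_lit 13))
    (@En.n l387 (nat_lit 4081) (nat_lit 8) (nat_lit 4))
    (@En.i (nat_lit 474) (nat_lit 10) (nat_lit 10))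
    (@En.n l1651 (nat_lit 6079) (nat_lit 10) (nat_lit 3))
    (@En.n l13296 (nat_lit 869) (nat_lit 0) (nat_lit 10))
    (@En.n l1106 (nat_lit 6226) (nat_lit 13) (nat_lit 12))
    (@En.n l13297 (nat_lit 8460) (nat_lit 9) (nat_lit 13))
    (@En.n l13298 (nat_lit 6332) (nat_lit 13) (nat_lit 3))
    (@En.n l50 (nat_lit 6236) (nat_lit 0) (nat_lit 3))))
  (@Cl.mk (nat_lit 0x2000d0008000b0003000a000d000a0005000300080006000d0006000e0003) (nat_lit 0xb21027700502060) (nat_lit 16) Lb.e (@T16.mk En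
    (@En.n l5298 (nat_lit 6326) (nat_lit 15) (nat_lit 3))
    (@En.n l699 (nat_lit 13909) (nat_lit 0) (nat_lit 14))
    (@En.i (nat_lit 6390) (nat_lit 2) (nat_lit 6))
    (@En.n l253 (nat_lit 10888) (nat_lit 8) (nat_lit 13))
    (@En.i (nat_lit 6236) (nat_lit 4) (nat_lit 6))
    (@En.n l343 (nat_lit 6331) (nat_lit 5) (nat_lit 8))
    (@En.n l28 (nat_lit 6324) (nat_lit 6) (nat_lit 3))
    (@En.n l13415 (nat_lit 1141) (nat_lit 0) (nat_lit 5))
    (@En.n l77 (nat_lit 9287) (nat_lit 9) (nat_lit 10))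
    (@En.n l13416 (nat_lit 5336) (nat_lit 5) (nat_lit 13))
    (@En.n l152 (nat_lit 478) (nat_lit 11) (nat_lit 10))
    (@En.n l13417 (nat_lit 6235) (nat_lit 11) (nat_lit 3))
    (@En.n l513 (nat_lit 870) (nat_lit 7) (nat_lit 11))
    (@En.n l345 (nat_lit 6011) (nat_lit 14) (nat_lit 8))
    (@En.i (nat_lit 8462) (nat_lit 2) (nat_lit 13))
    (@En.n l18 (nat_lit 6239) (nat_lit 15) (nat_lit 2))))
noncomputable def a390 : T16 Cl := @T16.mk Cl
  (@Cl.mk (nat_lit 0x200060003000b000a0009000d000a000500030006000a00070006000e000d) (nat_lit 0x6872400080051) (nat_lit 16) Lb.e (@T16.mk En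
    (@En.n l39901 (nat_lit 6233) (nat_lit 2) (nat_lit 13))
    (@En.n l39902 (nat_lit 8741) (nat_lit 1) (nat_lit 14))
    (@En.n l11610 (nat_lit 2324) (nat_lit 2) (nat_lit 6))
    (@En.n l39903 (nat_lit 6173) (nat_lit 3) (nat_lit 7))
    (@En.n l6107 (nat_lit 12417) (nat_lit 4) (nat_lit 10))
    (@En.n l11610 (nat_lit 4849) (nat_lit 5) (nat_lit 6))
    (@En.n l17366 (nat_lit 6082) (nat_lit 6) (nat_lit 3))
    (@En.n l4021 (nat_lit 4078) (nat_lit 0) (nat_lit 5))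
    (@En.n l10853 (nat_lit 5935) (nat_lit 9) (nat_lit 10))
    (@En.n l23881 (nat_lit 6083) (nat_lit 10) (nat_lit 13))
    (@En.n l14902 (nat_lit 6084) (nat_lit 11) (nat_lit 9))
    (@En.n l24694 (nat_lit 4499) (nat_lit 12) (nat_lit 10))
    (@En.n l30482 (nat_lit 9909) (nat_lit 13) (nat_lit 11))
    (@En.n l39904 (nat_lit 6233) (nat_lit 14) (nat_lit 3))
    (@En.n l248 (nat_lit 6683) (nat_lit 0) (nat_lit 6))
    (@En.n l28 (nat_lit 6240) (nat_lit 15) (nat_lit 2))))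
  (@Cl.mk (nat_lit 0x200060003000b0008000c0009000d000500040003000a00080007000e000d) (nat_lit 0x5623b00086020) (nat_lit 16) Lb.e (@T16.mk En
    (@En.n l4130 (nat_lit 6242) (nat_lit 2) (nat_lit 13))
    (@En.n l2786 (nat_lit 8653) (nat_lit 1) (nat_lit 14))
    (@En.n l24100 (nat_lit 2329) (nat_lit 2) (nat_lit 7))
    (@En.n l5391 (nat_lit 6174) (nat_lit 3) (nat_lit 8))
    (@En.n l26127 (nat_lit 9189) (nat_lit 4) (nat_lit 10))
    (@En.n l26128 (nat_lit 4499) (nat_lit 5) (nat_lit 3))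
    (@En.n l11955 (nat_lit 6428) (nat_lit 6) (nat_lit 4))
    (@En.n l21643 (nat_lit 6240) (nat_lit 7) (nat_lit 5))
    (@En.i (nat_lit 3789) (nat_lit 9) (nat_lit 13))
    (@En.n l26129 (nat_lit 6268) (nat_lit 10) (nat_lit 9))
    (@En.n l9572 (nat_lit 6323) (nat_lit 11) (nat_lit 12))
    (@En.n l11416 (nat_lit 3016) (nat_lit 12) (nat_lit 8))
    (@En.n l9572 (nat_lit 9802) (nat_lit 13) (nat_lit 11))
    (@En.n l2832 (nat_lit 6242) (nat_lit 14) (nat_lit 3))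
    (@En.n l2843 (nat_lit 6681) (nat_lit 0) (nat_lit 6))
    (@En.n l3 (nat_lit 6241) (nat_lit 15) (nat_lit 2))))
  (@Cl.mk (nat_lit 0x30003000b0008000c0009000d000500040003000b00080007000d000d0005) (nat_lit 0x76832000860b00) (nat_lit 16) Lb.e (@T16.mk En
    (@En.n l4476 (nat_lit 4427) (nat_lit 0) (nat_lit 5))
    (@En.n l61 (nat_lit 6243) (nat_lit 3) (nat_lit 13))
    (@En.n l564 (nat_lit 8702) (nat_lit 2) (nat_lit 13))
    (@En.n l16485 (nat_lit 2330) (nat_lit 3) (nat_lit 7))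
    (@En.n l22901 (nat_lit 6177) (nat_lit 4) (nat_lit 8))
    (@En.i (nat_lit 11046) (nat_lit 6) (nat_lit 11))
    (@En.n l40164 (nat_lit 4500) (nat_lit 6) (nat_lit 3))
    (@En.n l25470 (nat_lit 6425) (nat_lit 0) (nat_lit 4))
    (@En.n l25471 (nat_lit 6233) (nat_lit 8) (nat_lit 5))
    (@En.i (nat_lit 3785) (nat_lit 10) (nat_lit 13))
    (@En.n l40165 (nat_lit 5944) (nat_lit 11) (nat_lit 9))
    (@En.i (nat_lit 4082) (nat_lit 12) (nat_lit 12))
    (@En.n l40166 (nat_lit 3014) (nat_lit 13) (nat_lit 8))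
    (@En.i (nat_lit 9814) (nat_lit 14) (nat_lit 11))
    (@En.n l3519 (nat_lit 6241) (nat_lit 13) (nat_lit 3))
    (@En.n l18 (nat_lit 6243) (nat_lit 0) (nat_lit 3))))
  (@Cl.mk (nat_lit 0x2000b0008000c0009000d000500040003000c00080007000d0004000e0003) (nat_lit 0x71232000060b000) (nat_lit 16) Lb.e (@T16.mk En
    (@En.i (nat_lit 6242) (nat_lit 15) (nat_lit 3))
    (@En.i (nat_lit 12874) (nat_lit 0) (nat_lit 14))
    (@En.n l14325 (nat_lit 6245) (nat_lit 2) (nat_lit 4))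
    (@En.n l564 (nat_lit 8700) (nat_lit 2) (nat_lit 13))
    (@En.n l16485 (nat_lit 4374) (nat_lit 4) (nat_lit 7))
    (@En.i (nat_lit 6187) (nat_lit 5) (nat_lit 8))
    (@En.n l644 (nat_lit 11047) (nat_lit 7) (nat_lit 12))
    (@En.n l23051 (nat_lit 6244) (nat_lit 7) (nat_lit 3))
    (@En.n l25470 (nat_lit 6424) (nat_lit 0) (nat_lit 4))
    (@En.n l25471 (nat_lit 6231) (nat_lit 9) (nat_lit 5))
    (@En.i (nat_lit 3784) (nat_lit 11) (nat_lit 13))
    (@En.n l619 (nat_lit 6267) (nat_lit 12) (nat_lit 9))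
    (@En.i (nat_lit 6317) (nat_lit 13) (nat_lit 12))
    (@En.n l38104 (nat_lit 3018) (nat_lit 14) (nat_lit 8))
    (@En.i (nat_lit 9813) (nat_lit 14) (nat_lit 11))
    (@En.n l17 (nat_lit 6243) (nat_lit 15) (nat_lit 2))))
  (@Cl.mk (nat_lit 0x2000a0008000d0009000d000300060003000c00080007000d0004000e0003) (nat_lit 0x71831000960b040) (nat_lit 16) Lb.e (@T16.mk En
    (@En.n l6680 (nat_lit 4500) (nat_lit 15) (nat_lit 3))
    (@En.n l810 (nat_lit 12873) (nat_lit 0) (nat_lit 14))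
    (@En.n l2576 (nat_lit 6246) (nat_lit 2) (nat_lit 4))
    (@En.n l30818 (nat_lit 9090) (nat_lit 10) (nat_lit 13))
    (@En.n l8262 (nat_lit 4368) (nat_lit 4) (nat_lit 7))
    (@En.n l37004 (nat_lit 6186) (nat_lit 5) (nat_lit 8))
    (@En.n l13103 (nat_lit 11142) (nat_lit 7) (nat_lit 12))
    (@En.n l25506 (nat_lit 6243) (nat_lit 7) (nat_lit 3))
    (@En.n l387 (nat_lit 4852) (nat_lit 12) (nat_lit 6))
    (@En.n l12316 (nat_lit 4503) (nat_lit 9) (nat_lit 3))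
    (@En.n l12271 (nat_lit 3716) (nat_lit 0) (nat_lit 13))
    (@En.n l1501 (nat_lit 6255) (nat_lit 12) (nat_lit 9))
    (@En.n l11835 (nat_lit 4502) (nat_lit 13) (nat_lit 13))
    (@En.n l810 (nat_lit 3017) (nat_lit 14) (nat_lit 8))
    (@En.i (nat_lit 10667) (nat_lit 4) (nat_lit 10))
    (@En.n l11 (nat_lit 6244) (nat_lit 15) (nat_lit 2))))
  (@Cl.mk (nat_lit 0x2000b0007000c0008000d000500040003000c000b000900080004000e0005) (nat_lit 0x402030000972000) (nat_lit 16) Lb.e (@T16.mk En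
    (@En.i (nat_lit 2417) (nat_lit 8) (nat_lit 5))
    (@En.n l8329 (nat_lit 7601) (nat_lit 1) (nat_lit 14))
    (@En.n l152 (nat_lit 9768) (nat_lit 2) (nat_lit 4))
    (@En.n l28248 (nat_lit 4376) (nat_lit 3) (nat_lit 8))
    (@En.i (nat_lit 8740) (nat_lit 4) (nat_lit 9))
    (@En.n l14017 (nat_lit 6242) (nat_lit 5) (nat_lit 11))
    (@En.n l1236 (nat_lit 11050) (nat_lit 7) (nat_lit 12))
    (@En.n l3489 (nat_lit 6246) (nat_lit 7) (nat_lit 3))
    (@En.n l28249 (nat_lit 6423) (nat_lit 0) (nat_lit 4))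
    (@En.n l28250 (nat_lit 6249) (nat_lit 9) (nat_lit 5))
    (@En.i (nat_lit 2674) (nat_lit 11) (nat_lit 13))
    (@En.n l61 (nat_lit 6380) (nat_lit 12) (nat_lit 8))
    (@En.n l28251 (nat_lit 5887) (nat_lit 13) (nat_lit 12))
    (@En.n l19742 (nat_lit 3165) (nat_lit 14) (nat_lit 7))
    (@En.i (nat_lit 9711) (nat_lit 12) (nat_lit 11))
    (@En.n l28 (nat_lit 6245) (nat_lit 15) (nat_lit 2))))
  (@Cl.mk (nat_lit 0x2000a0007000d0008000d000300060003000c000b000900080004000e0005) (nat_lit 0x50934000a932000) (nat_lit 16) Lb.e (@T16.mk En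
    (@En.n l6680 (nat_lit 4431) (nat_lit 6) (nat_lit 5))
    (@En.n l17703 (nat_lit 7603) (nat_lit 1) (nat_lit 14))
    (@En.n l32582 (nat_lit 9769) (nat_lit 2) (nat_lit 4))
    (@En.n l10498 (nat_lit 4371) (nat_lit 3) (nat_lit 8))
    (@En.n l10968 (nat_lit 8743) (nat_lit 4) (nat_lit 9))
    (@En.n l17108 (nat_lit 4500) (nat_lit 5) (nat_lit 11))
    (@En.n l32583 (nat_lit 11551) (nat_lit 7) (nat_lit 12))
    (@En.n l4315 (nat_lit 6245) (nat_lit 7) (nat_lit 3))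
    (@En.n l10498 (nat_lit 5750) (nat_lit 12) (nat_lit 6))
    (@En.n l23508 (nat_lit 6247) (nat_lit 9) (nat_lit 3))
    (@En.n l9175 (nat_lit 3708) (nat_lit 0) (nat_lit 13))
    (@En.n l322 (nat_lit 6252) (nat_lit 12) (nat_lit 8))
    (@En.n l32584 (nat_lit 6248) (nat_lit 13) (nat_lit 13))
    (@En.n l10968 (nat_lit 3166) (nat_lit 14) (nat_lit 7))
    (@En.n l15991 (nat_lit 9078) (nat_lit 4) (nat_lit 10))
    (@En.n l11 (nat_lit 6246) (nat_lit 15) (nat_lit 2))))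
  (@Cl.mk (nat_lit 0x2000a0007000d000c0009000300060004000c000b000900070004000e0005) (nat_lit 0x609330009930000) (nat_lit 16) Lb.e (@T16.mk En
    (@En.n l7 (nat_lit 4433) (nat_lit 6) (nat_lit 5))
    (@En.n l2696 (nat_lit 7605) (nat_lit 1) (nat_lit 14))
    (@En.i (nat_lit 8583) (nat_lit 2) (nat_lit 4))
    (@En.n l17041 (nat_lit 827) (nat_lit 3) (nat_lit 7))
    (@En.n l55 (nat_lit 8641) (nat_lit 4) (nat_lit 9))
    (@En.n l55 (nat_lit 4497) (nat_lit 5) (nat_lit 11))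
    (@En.n l17042 (nat_lit 10966) (nat_lit 7) (nat_lit 12))
    (@En.n l6612 (nat_lit 6253) (nat_lit 7) (nat_lit 4))
    (@En.n l17043 (nat_lit 6283) (nat_lit 8) (nat_lit 6))
    (@En.n l17044 (nat_lit 6246) (nat_lit 9) (nat_lit 3))
    (@En.n l10957 (nat_lit 1607) (nat_lit 0) (nat_lit 9))
    (@En.n l2824 (nat_lit 6245) (nat_lit 12) (nat_lit 12))
    (@En.n l17045 (nat_lit 6250) (nat_lit 13) (nat_lit 13))
    (@En.n l17034 (nat_lit 3164) (nat_lit 14) (nat_lit 7))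
    (@En.i (nat_lit 8427) (nat_lit 4) (nat_lit 10))
    (@En.n l50 (nat_lit 6247) (nat_lit 15) (nat_lit 2))))
  (@Cl.mk (nat_lit 0x2000a000d0007000c0003000b00060004000c000b000500090004000e0005) (nat_lit 0x580208009101010) (nat_lit 16) Lb.e (@T16.mk En
    (@En.n l5246 (nat_lit 6355) (nat_lit 5) (nat_lit 5))
    (@En.n l134 (nat_lit 5492) (nat_lit 1) (nat_lit 14))
    (@En.i (nat_lit 9773) (nat_lit 2) (nat_lit 4))
    (@En.n l2117 (nat_lit 3649) (nat_lit 3) (nat_lit 9))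
    (@En.n l24021 (nat_lit 7725) (nat_lit 4) (nat_lit 5))
    (@En.n l55 (nat_lit 4491) (nat_lit 5) (nat_lit 11))
    (@En.n l3337 (nat_lit 11550) (nat_lit 7) (nat_lit 12))
    (@En.n l2117 (nat_lit 5887) (nat_lit 7) (nat_lit 4))
    (@En.n l30546 (nat_lit 6246) (nat_lit 8) (nat_lit 6))
    (@En.n l9182 (nat_lit 5600) (nat_lit 10) (nat_lit 11))
    (@En.n l2869 (nat_lit 6250) (nat_lit 10) (nat_lit 3))
    (@En.n l9385 (nat_lit 3707) (nat_lit 0) (nat_lit 12))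
    (@En.i (nat_lit 6251) (nat_lit 13) (nat_lit 7))
    (@En.i (nat_lit 8021) (nat_lit 5) (nat_lit 13))
    (@En.i (nat_lit 9073) (nat_lit 3) (nat_lit 10))
    (@En.n l7 (nat_lit 6248) (nat_lit 15) (nat_lit 2))))
  (@Cl.mk (nat_lit 0x2000b000a0008000d0009000500030006000c000b000800070004000e0005) (nat_lit 0x64800009160000) (nat_lit 16) Lb.e (@T16.mk En
    (@En.n l12788 (nat_lit 6296) (nat_lit 7) (nat_lit 5))
    (@En.n l5 (nat_lit 7604) (nat_lit 1) (nat_lit 14))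
    (@En.n l29575 (nat_lit 6403) (nat_lit 2) (nat_lit 4))
    (@En.n l13671 (nat_lit 4377) (nat_lit 3) (nat_lit 7))
    (@En.n l34199 (nat_lit 10242) (nat_lit 4) (nat_lit 8))
    (@En.n l217 (nat_lit 6233) (nat_lit 5) (nat_lit 11))
    (@En.n l18439 (nat_lit 11898) (nat_lit 7) (nat_lit 12))
    (@En.n l13673 (nat_lit 4848) (nat_lit 12) (nat_lit 6))
    (@En.n l152 (nat_lit 6394) (nat_lit 8) (nat_lit 3))
    (@En.n l1865 (nat_lit 5879) (nat_lit 0) (nat_lit 5))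
    (@En.n l97 (nat_lit 6381) (nat_lit 11) (nat_lit 9))
    (@En.n l28 (nat_lit 6396) (nat_lit 12) (nat_lit 13))
    (@En.n l12788 (nat_lit 6393) (nat_lit 13) (nat_lit 8))
    (@En.n l35697 (nat_lit 6246) (nat_lit 14) (nat_lit 10))
    (@En.i (nat_lit 9717) (nat_lit 6) (nat_lit 11))
    (@En.n l17 (nat_lit 6249) (nat_lit 15) (nat_lit 2))))
  (@Cl.mk (nat_lit 0x2000a000d000b00080003000b00060005000c000b000500080004000e0005) (nat_lit 0x58220800a101020) (nat_lit 16) Lb.e (@T16.mk En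
    (@En.n l50 (nat_lit 6354) (nat_lit 5) (nat_lit 5))
    (@En.n l998 (nat_lit 5493) (nat_lit 1) (nat_lit 14))
    (@En.n l50 (nat_lit 8584) (nat_lit 2) (nat_lit 4))
    (@En.i (nat_lit 826) (nat_lit 10) (nat_lit 8))
    (@En.n l790 (nat_lit 7726) (nat_lit 4) (nat_lit 5))
    (@En.n l217 (nat_lit 4494) (nat_lit 5) (nat_lit 11))
    (@En.n l476 (nat_lit 10970) (nat_lit 7) (nat_lit 12))
    (@En.n l5891 (nat_lit 6397) (nat_lit 7) (nat_lit 5))
    (@En.n l19984 (nat_lit 6247) (nat_lit 8) (nat_lit 6))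
    (@En.n l9921 (nat_lit 6251) (nat_lit 10) (nat_lit 11))
    (@En.n l1865 (nat_lit 6248) (nat_lit 10) (nat_lit 3))
    (@En.n l2038 (nat_lit 1676) (nat_lit 0) (nat_lit 8))
    (@En.n l11831 (nat_lit 5885) (nat_lit 13) (nat_lit 11))
    (@En.i (nat_lit 8022) (nat_lit 5) (nat_lit 13))
    (@En.i (nat_lit 8426) (nat_lit 3) (nat_lit 10))
    (@En.n l17 (nat_lit 6250) (nat_lit 15) (nat_lit 2))))
  (@Cl.mk (nat_lit 0x2000b0007000c0008000b00050004000b000a0005000900080005000e0006) (nat_lit 0x5022700910420b0) (nat_lit 16) Lb.e (@T16.mk En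
    (@En.n l39311 (nat_lit 6353) (nat_lit 7) (nat_lit 6))
    (@En.n l134 (nat_lit 5495) (nat_lit 1) (nat_lit 14))
    (@En.n l37427 (nat_lit 8589) (nat_lit 2) (nat_lit 5))
    (@En.n l2579 (nat_lit 6250) (nat_lit 3) (nat_lit 8))
    (@En.n l37427 (nat_lit 6247) (nat_lit 4) (nat_lit 9))
    (@En.n l39312 (nat_lit 7727) (nat_lit 5) (nat_lit 5))
    (@En.n l55 (nat_lit 4496) (nat_lit 6) (nat_lit 10))
    (@En.n l13631 (nat_lit 10971) (nat_lit 8) (nat_lit 11))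
    (@En.n l3480 (nat_lit 6387) (nat_lit 8) (nat_lit 4))
    (@En.n l26868 (nat_lit 6252) (nat_lit 9) (nat_lit 5))
    (@En.n l26869 (nat_lit 5798) (nat_lit 7) (nat_lit 11))
    (@En.n l7882 (nat_lit 1506) (nat_lit 12) (nat_lit 8))
    (@En.n l37423 (nat_lit 5886) (nat_lit 13) (nat_lit 12))
    (@En.i (nat_lit 5438) (nat_lit 14) (nat_lit 7))
    (@En.i (nat_lit 8393) (nat_lit 4) (nat_lit 11))
    (@En.n l7 (nat_lit 6251) (nat_lit 15) (nat_lit 2))))
  (@Cl.mk (nat_lit 0x2000b00080008000d000900050003000b000a0008000800070005000e0006) (nat_lit 0x732810093340020) (nat_lit 16) Lb.e (@T16.mk En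
    (@En.n l7992 (nat_lit 5916) (nat_lit 7) (nat_lit 6))
    (@En.n l5 (nat_lit 7829) (nat_lit 1) (nat_lit 14))
    (@En.n l20181 (nat_lit 9112) (nat_lit 2) (nat_lit 5))
    (@En.n l32587 (nat_lit 6247) (nat_lit 3) (nat_lit 7))
    (@En.n l527 (nat_lit 6283) (nat_lit 4) (nat_lit 8))
    (@En.n l34935 (nat_lit 10203) (nat_lit 5) (nat_lit 8))
    (@En.n l217 (nat_lit 6256) (nat_lit 6) (nat_lit 10))
    (@En.n l7993 (nat_lit 11182) (nat_lit 8) (nat_lit 11))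
    (@En.n l34936 (nat_lit 6380) (nat_lit 8) (nat_lit 3))
    (@En.n l13287 (nat_lit 5066) (nat_lit 9) (nat_lit 5))
    (@En.i (nat_lit 1533) (nat_lit 11) (nat_lit 9))
    (@En.n l7992 (nat_lit 6393) (nat_lit 12) (nat_lit 13))
    (@En.n l26990 (nat_lit 6384) (nat_lit 8) (nat_lit 8))
    (@En.n l34937 (nat_lit 3163) (nat_lit 14) (nat_lit 8))
    (@En.n l13296 (nat_lit 8826) (nat_lit 6) (nat_lit 11))
    (@En.n l17 (nat_lit 6252) (nat_lit 15) (nat_lit 2))))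
  (@Cl.mk (nat_lit 0x2000c0007000c000c0004000a00040004000c000b000900060004000e0005) (nat_lit 0x800301000960000) (nat_lit 16) Lb.e (@T16.mk En
    (@En.n l1262 (nat_lit 2415) (nat_lit 7) (nat_lit 5))
    (@En.n l5 (nat_lit 7606) (nat_lit 1) (nat_lit 14))
    (@En.n l6866 (nat_lit 8578) (nat_lit 2) (nat_lit 4))
    (@En.n l11939 (nat_lit 2225) (nat_lit 3) (nat_lit 6))
    (@En.n l1262 (nat_lit 8325) (nat_lit 4) (nat_lit 9))
    (@En.n l217 (nat_lit 6336) (nat_lit 5) (nat_lit 11))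
    (@En.n l14154 (nat_lit 11910) (nat_lit 7) (nat_lit 12))
    (@En.n l2308 (nat_lit 6418) (nat_lit 12) (nat_lit 4))
    (@En.n l1262 (nat_lit 6245) (nat_lit 8) (nat_lit 4))
    (@En.n l616 (nat_lit 334) (nat_lit 10) (nat_lit 10))
    (@En.n l11941 (nat_lit 6394) (nat_lit 10) (nat_lit 4))
    (@En.n l55 (nat_lit 6423) (nat_lit 4) (nat_lit 12))
    (@En.n l615 (nat_lit 6397) (nat_lit 13) (nat_lit 12))
    (@En.n l14269 (nat_lit 2925) (nat_lit 14) (nat_lit 7))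
    (@En.n l3447 (nat_lit 8421) (nat_lit 3) (nat_lit 12))
    (@En.n l17 (nat_lit 6253) (nat_lit 15) (nat_lit 2))))
  (@Cl.mk (nat_lit 0x2000b0008000c0009000c00050004000b000400080007000d0005000e0003) (nat_lit 0x7621900806090a0) (nat_lit 16) Lb.e (@T16.mk En
    (@En.i (nat_lit 4496) (nat_lit 15) (nat_lit 3))
    (@En.i (nat_lit 13789) (nat_lit 0) (nat_lit 14))
    (@En.i (nat_lit 6251) (nat_lit 2) (nat_lit 5))
    (@En.n l34574 (nat_lit 10471) (nat_lit 2) (nat_lit 13))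
    (@En.n l2579 (nat_lit 4501) (nat_lit 4) (nat_lit 7))
    (@En.n l26865 (nat_lit 4503) (nat_lit 5) (nat_lit 8))
    (@En.n l21569 (nat_lit 1320) (nat_lit 6) (nat_lit 4))
    (@En.n l13631 (nat_lit 11146) (nat_lit 8) (nat_lit 11))
    (@En.n l3480 (nat_lit 6324) (nat_lit 8) (nat_lit 4))
    (@En.n l26868 (nat_lit 6255) (nat_lit 9) (nat_lit 5))
    (@En.n l26869 (nat_lit 4514) (nat_lit 11) (nat_lit 12))
    (@En.n l22624 (nat_lit 2304) (nat_lit 12) (nat_lit 9))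
    (@En.n l26869 (nat_lit 6310) (nat_lit 13) (nat_lit 12))
    (@En.i (nat_lit 5431) (nat_lit 14) (nat_lit 8))
    (@En.i (nat_lit 10653) (nat_lit 14) (nat_lit 11))
    (@En.n l7 (nat_lit 6254) (nat_lit 15) (nat_lit 2))))
  (@Cl.mk (nat_lit 0x2000b00090009000d000a00050003000b000700070006000d0005000e0003) (nat_lit 0x812210080004090) (nat_lit 16) Lb.e (@T16.mk En
    (@En.i (nat_lit 6256) (nat_lit 15) (nat_lit 3))
    (@En.i (nat_lit 12867) (nat_lit 0) (nat_lit 14))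
    (@En.i (nat_lit 6252) (nat_lit 2) (nat_lit 5))
    (@En.n l20183 (nat_lit 11019) (nat_lit 2) (nat_lit 13))
    (@En.i (nat_lit 4503) (nat_lit 4) (nat_lit 6))
    (@En.n l527 (nat_lit 6282) (nat_lit 5) (nat_lit 7))
    (@En.n l23646 (nat_lit 5661) (nat_lit 6) (nat_lit 7))
    (@En.n l601 (nat_lit 11148) (nat_lit 8) (nat_lit 11))
    (@En.n l40440 (nat_lit 6267) (nat_lit 8) (nat_lit 3))
    (@En.n l13287 (nat_lit 5924) (nat_lit 0) (nat_lit 5))
    (@En.n l77 (nat_lit 2297) (nat_lit 11) (nat_lit 10))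
    (@En.n l20183 (nat_lit 6227) (nat_lit 12) (nat_lit 13))
    (@En.n l26990 (nat_lit 6257) (nat_lit 7) (nat_lit 9))
    (@En.n l40441 (nat_lit 1323) (nat_lit 14) (nat_lit 9))
    (@En.n l170 (nat_lit 9369) (nat_lit 14) (nat_lit 11))
    (@En.n l17 (nat_lit 6255) (nat_lit 15) (nat_lit 2))))
noncomputable def a391 : T16 Cl := @T16.mk Cl
  (@Cl.mk (nat_lit 0x30003000b00090009000d000a00050003000a000700070006000d000d0006) (nat_lit 0x81221002000350) (nat_lit 16) Lb.e (@T16.mk En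
    (@En.n l10866 (nat_lit 5914) (nat_lit 0) (nat_lit 6))
    (@En.n l61 (nat_lit 6255) (nat_lit 3) (nat_lit 13))
    (@En.n l20183 (nat_lit 11020) (nat_lit 2) (nat_lit 13))
    (@En.n l12817 (nat_lit 4497) (nat_lit 3) (nat_lit 6))
    (@En.n l527 (nat_lit 5943) (nat_lit 9) (nat_lit 7))
    (@En.n l16125 (nat_lit 5654) (nat_lit 5) (nat_lit 7))
    (@En.n l40906 (nat_lit 11198) (nat_lit 7) (nat_lit 10))
    (@En.n l40907 (nat_lit 5944) (nat_lit 7) (nat_lit 3))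
    (@En.n l13287 (nat_lit 5922) (nat_lit 0) (nat_lit 5))
    (@En.n l77 (nat_lit 2301) (nat_lit 10) (nat_lit 10))
    (@En.n l11781 (nat_lit 6226) (nat_lit 11) (nat_lit 13))
    (@En.n l26990 (nat_lit 6258) (nat_lit 7) (nat_lit 9))
    (@En.n l40908 (nat_lit 1319) (nat_lit 13) (nat_lit 9))
    (@En.n l14865 (nat_lit 9372) (nat_lit 14) (nat_lit 11))
    (@En.n l40909 (nat_lit 6259) (nat_lit 13) (nat_lit 3))
    (@En.n l18 (nat_lit 6255) (nat_lit 0) (nat_lit 3))))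
  (@Cl.mk (nat_lit 0x20007000d0006000e00030002000c0009000d000900040003000a000e0007) (nat_lit 0x40a00912100230) (nat_lit 16) Lb.e (@T16.mk En
    (@En.n l26885 (nat_lit 6255) (nat_lit 6) (nat_lit 7))
    (@En.i (nat_lit 2368) (nat_lit 8) (nat_lit 14))
    (@En.n l476 (nat_lit 11268) (nat_lit 2) (nat_lit 10))
    (@En.n l5388 (nat_lit 6262) (nat_lit 3) (nat_lit 3))
    (@En.n l1865 (nat_lit 5923) (nat_lit 4) (nat_lit 4))
    (@En.n l17213 (nat_lit 2294) (nat_lit 5) (nat_lit 9))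
    (@En.n l14823 (nat_lit 4122) (nat_lit 7) (nat_lit 13))
    (@En.i (nat_lit 3983) (nat_lit 14) (nat_lit 9))
    (@En.i (nat_lit 9629) (nat_lit 9) (nat_lit 12))
    (@En.n l17 (nat_lit 6257) (nat_lit 9) (nat_lit 2))
    (@En.i (nat_lit 6258) (nat_lit 10) (nat_lit 3))
    (@En.n l5372 (nat_lit 13601) (nat_lit 0) (nat_lit 14))
    (@En.i (nat_lit 6384) (nat_lit 13) (nat_lit 6))
    (@En.n l14823 (nat_lit 11026) (nat_lit 14) (nat_lit 13))
    (@En.n l22493 (nat_lit 6254) (nat_lit 4) (nat_lit 7))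
    (@En.n l28 (nat_lit 6257) (nat_lit 15) (nat_lit 2))))
  (@Cl.mk (nat_lit 0x20007000d000d000700030003000c0009000d0009000400030009000e0007) (nat_lit 0x45000917100630) (nat_lit 16) Lb.e (@T16.mk En
    (@En.n l26885 (nat_lit 6256) (nat_lit 5) (nat_lit 7))
    (@En.i (nat_lit 2277) (nat_lit 1) (nat_lit 14))
    (@En.n l3522 (nat_lit 11267) (nat_lit 2) (nat_lit 9))
    (@En.n l8258 (nat_lit 6261) (nat_lit 3) (nat_lit 3))
    (@En.n l1865 (nat_lit 5920) (nat_lit 4) (nat_lit 4))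
    (@En.n l17213 (nat_lit 2295) (nat_lit 5) (nat_lit 9))
    (@En.n l14823 (nat_lit 4118) (nat_lit 7) (nat_lit 13))
    (@En.i (nat_lit 3984) (nat_lit 13) (nat_lit 9))
    (@En.n l14316 (nat_lit 9631) (nat_lit 9) (nat_lit 12))
    (@En.n l11382 (nat_lit 6260) (nat_lit 9) (nat_lit 3))
    (@En.n l18 (nat_lit 6257) (nat_lit 10) (nat_lit 3))
    (@En.n l11383 (nat_lit 5907) (nat_lit 0) (nat_lit 7))
    (@En.n l61 (nat_lit 6257) (nat_lit 13) (nat_lit 13))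
    (@En.n l14823 (nat_lit 11027) (nat_lit 14) (nat_lit 13))
    (@En.n l22493 (nat_lit 4496) (nat_lit 3) (nat_lit 7))
    (@En.n l28 (nat_lit 6258) (nat_lit 15) (nat_lit 2))))
  (@Cl.mk (nat_lit 0x200070003000b00090009000d000a000500030009000700070006000e000d) (nat_lit 0x8178100700034) (nat_lit 16) Lb.e (@T16.mk En
    (@En.n l39906 (nat_lit 6256) (nat_lit 2) (nat_lit 13))
    (@En.n l31897 (nat_lit 5591) (nat_lit 1) (nat_lit 14))
    (@En.n l4542 (nat_lit 4498) (nat_lit 2) (nat_lit 6))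
    (@En.n l2687 (nat_lit 5945) (nat_lit 3) (nat_lit 7))
    (@En.i (nat_lit 5657) (nat_lit 4) (nat_lit 7))
    (@En.n l28102 (nat_lit 11200) (nat_lit 5) (nat_lit 9))
    (@En.n l1865 (nat_lit 6268) (nat_lit 6) (nat_lit 3))
    (@En.n l97 (nat_lit 5919) (nat_lit 7) (nat_lit 5))
    (@En.n l10040 (nat_lit 2342) (nat_lit 9) (nat_lit 10))
    (@En.n l1112 (nat_lit 6084) (nat_lit 10) (nat_lit 13))
    (@En.n l30148 (nat_lit 6260) (nat_lit 7) (nat_lit 9))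
    (@En.n l17017 (nat_lit 1324) (nat_lit 12) (nat_lit 9))
    (@En.i (nat_lit 9906) (nat_lit 13) (nat_lit 11))
    (@En.n l30761 (nat_lit 6256) (nat_lit 14) (nat_lit 3))
    (@En.n l20446 (nat_lit 6682) (nat_lit 0) (nat_lit 7))
    (@En.n l28 (nat_lit 6259) (nat_lit 15) (nat_lit 2))))
  (@Cl.mk (nat_lit 0x20007000e000d000200080003000c0009000d0009000400030008000e0007) (nat_lit 0x55020968100210) (nat_lit 16) Lb.e (@T16.mk En
    (@En.n l15682 (nat_lit 6259) (nat_lit 4) (nat_lit 7))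
    (@En.n l2572 (nat_lit 2276) (nat_lit 6) (nat_lit 14))
    (@En.n l564 (nat_lit 11266) (nat_lit 2) (nat_lit 8))
    (@En.n l7 (nat_lit 6263) (nat_lit 3) (nat_lit 3))
    (@En.i (nat_lit 5921) (nat_lit 8) (nat_lit 4))
    (@En.n l25393 (nat_lit 2348) (nat_lit 5) (nat_lit 9))
    (@En.n l7690 (nat_lit 4110) (nat_lit 11) (nat_lit 13))
    (@En.i (nat_lit 5428) (nat_lit 12) (nat_lit 9))
    (@En.i (nat_lit 9922) (nat_lit 13) (nat_lit 12))
    (@En.n l4018 (nat_lit 6258) (nat_lit 9) (nat_lit 3))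
    (@En.i (nat_lit 6716) (nat_lit 11) (nat_lit 8))
    (@En.n l3 (nat_lit 6260) (nat_lit 11) (nat_lit 2))
    (@En.n l3528 (nat_lit 6258) (nat_lit 13) (nat_lit 13))
    (@En.n l7690 (nat_lit 12806) (nat_lit 1) (nat_lit 14))
    (@En.n l21533 (nat_lit 4495) (nat_lit 2) (nat_lit 7))
    (@En.n l18 (nat_lit 6260) (nat_lit 15) (nat_lit 2))))
  (@Cl.mk (nat_lit 0x20006000d000d000700030003000d0009000d0003000a00030009000e0007) (nat_lit 0x46000a17020640) (nat_lit 16) Lb.e (@T16.mk En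
    (@En.n l18068 (nat_lit 5944) (nat_lit 5) (nat_lit 7))
    (@En.n l649 (nat_lit 2275) (nat_lit 1) (nat_lit 14))
    (@En.i (nat_lit 12654) (nat_lit 2) (nat_lit 9))
    (@En.n l3528 (nat_lit 6258) (nat_lit 3) (nat_lit 3))
    (@En.n l18069 (nat_lit 628) (nat_lit 4) (nat_lit 10))
    (@En.n l28 (nat_lit 6264) (nat_lit 5) (nat_lit 3))
    (@En.n l18070 (nat_lit 4111) (nat_lit 7) (nat_lit 13))
    (@En.n l7912 (nat_lit 5632) (nat_lit 13) (nat_lit 9))
    (@En.n l18071 (nat_lit 12137) (nat_lit 9) (nat_lit 13))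
    (@En.n l152 (nat_lit 6263) (nat_lit 9) (nat_lit 3))
    (@En.n l18072 (nat_lit 6262) (nat_lit 10) (nat_lit 3))
    (@En.n l18073 (nat_lit 5908) (nat_lit 12) (nat_lit 7))
    (@En.n l18074 (nat_lit 6262) (nat_lit 13) (nat_lit 13))
    (@En.n l18075 (nat_lit 11915) (nat_lit 14) (nat_lit 13))
    (@En.n l18076 (nat_lit 6325) (nat_lit 3) (nat_lit 6))
    (@En.n l18 (nat_lit 6261) (nat_lit 15) (nat_lit 2))))
  (@Cl.mk (nat_lit 0x20006000d0006000e00030002000d0009000d0003000a0003000a000e0007) (nat_lit 0x50300a18030240) (nat_lit 16) Lb.e (@T16.mk En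
    (@En.n l28 (nat_lit 6267) (nat_lit 6) (nat_lit 7))
    (@En.n l1819 (nat_lit 2372) (nat_lit 1) (nat_lit 14))
    (@En.n l1347 (nat_lit 12655) (nat_lit 2) (nat_lit 10))
    (@En.n l1817 (nat_lit 6257) (nat_lit 3) (nat_lit 3))
    (@En.n l33332 (nat_lit 697) (nat_lit 4) (nat_lit 10))
    (@En.n l24006 (nat_lit 6265) (nat_lit 5) (nat_lit 3))
    (@En.i (nat_lit 4125) (nat_lit 7) (nat_lit 13))
    (@En.n l31545 (nat_lit 5633) (nat_lit 14) (nat_lit 9))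
    (@En.i (nat_lit 12136) (nat_lit 9) (nat_lit 13))
    (@En.n l17 (nat_lit 6262) (nat_lit 9) (nat_lit 2))
    (@En.n l33333 (nat_lit 6261) (nat_lit 10) (nat_lit 3))
    (@En.n l27307 (nat_lit 13598) (nat_lit 0) (nat_lit 14))
    (@En.n l8813 (nat_lit 6383) (nat_lit 13) (nat_lit 6))
    (@En.n l11260 (nat_lit 11919) (nat_lit 14) (nat_lit 13))
    (@En.n l33334 (nat_lit 6324) (nat_lit 4) (nat_lit 6))
    (@En.n l7 (nat_lit 6262) (nat_lit 15) (nat_lit 2))))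
  (@Cl.mk (nat_lit 0x20006000e000d000200080003000d0009000d0003000a00030008000e0007) (nat_lit 0x75000a17030140) (nat_lit 16) Lb.e (@T16.mk En
    (@En.n l18068 (nat_lit 6268) (nat_lit 4) (nat_lit 7))
    (@En.n l2573 (nat_lit 2274) (nat_lit 6) (nat_lit 14))
    (@En.i (nat_lit 4040) (nat_lit 2) (nat_lit 8))
    (@En.i (nat_lit 6260) (nat_lit 3) (nat_lit 3))
    (@En.n l26465 (nat_lit 696) (nat_lit 4) (nat_lit 10))
    (@En.n l28 (nat_lit 6266) (nat_lit 5) (nat_lit 3))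
    (@En.n l19017 (nat_lit 4124) (nat_lit 7) (nat_lit 13))
    (@En.n l7912 (nat_lit 5634) (nat_lit 12) (nat_lit 9))
    (@En.n l26466 (nat_lit 6510) (nat_lit 9) (nat_lit 13))
    (@En.n l117 (nat_lit 6261) (nat_lit 9) (nat_lit 3))
    (@En.n l3681 (nat_lit 6717) (nat_lit 11) (nat_lit 8))
    (@En.n l3 (nat_lit 6263) (nat_lit 11) (nat_lit 2))
    (@En.i (nat_lit 6261) (nat_lit 13) (nat_lit 13))
    (@En.n l19017 (nat_lit 12805) (nat_lit 1) (nat_lit 14))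
    (@En.n l10316 (nat_lit 6327) (nat_lit 2) (nat_lit 6))
    (@En.n l18 (nat_lit 6263) (nat_lit 15) (nat_lit 2))))
  (@Cl.mk (nat_lit 0x20006000d000d000700030003000d000c000a0003000a00040009000e0006) (nat_lit 0x46000ba2030660) (nat_lit 16) Lb.e (@T16.mk En
    (@En.n l5784 (nat_lit 5936) (nat_lit 5) (nat_lit 6))
    (@En.n l649 (nat_lit 2377) (nat_lit 1) (nat_lit 14))
    (@En.i (nat_lit 12659) (nat_lit 2) (nat_lit 9))
    (@En.n l3528 (nat_lit 5875) (nat_lit 3) (nat_lit 4))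
    (@En.i (nat_lit 794) (nat_lit 4) (nat_lit 10))
    (@En.i (nat_lit 6261) (nat_lit 5) (nat_lit 3))
    (@En.i (nat_lit 3250) (nat_lit 0) (nat_lit 10))
    (@En.n l649 (nat_lit 6258) (nat_lit 8) (nat_lit 12))
    (@En.n l476 (nat_lit 12140) (nat_lit 9) (nat_lit 13))
    (@En.n l152 (nat_lit 6266) (nat_lit 9) (nat_lit 3))
    (@En.n l1865 (nat_lit 6265) (nat_lit 10) (nat_lit 3))
    (@En.n l97 (nat_lit 5906) (nat_lit 12) (nat_lit 7))
    (@En.n l1867 (nat_lit 6265) (nat_lit 13) (nat_lit 13))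
    (@En.i (nat_lit 11912) (nat_lit 14) (nat_lit 13))
    (@En.n l14324 (nat_lit 6076) (nat_lit 3) (nat_lit 6))
    (@En.n l18 (nat_lit 6264) (nat_lit 15) (nat_lit 2))))
  (@Cl.mk (nat_lit 0x20006000d0006000e00030002000d000c000a0003000a0004000a000e0006) (nat_lit 0x50300aa2020360) (nat_lit 16) Lb.e (@T16.mk En
    (@En.n l2491 (nat_lit 5938) (nat_lit 6) (nat_lit 6))
    (@En.i (nat_lit 2374) (nat_lit 1) (nat_lit 14))
    (@En.n l19876 (nat_lit 12658) (nat_lit 2) (nat_lit 10))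
    (@En.n l117 (nat_lit 5931) (nat_lit 3) (nat_lit 4))
    (@En.n l2381 (nat_lit 792) (nat_lit 4) (nat_lit 10))
    (@En.n l7130 (nat_lit 6262) (nat_lit 5) (nat_lit 3))
    (@En.n l575 (nat_lit 6367) (nat_lit 0) (nat_lit 10))
    (@En.i (nat_lit 6257) (nat_lit 8) (nat_lit 12))
    (@En.i (nat_lit 12139) (nat_lit 9) (nat_lit 13))
    (@En.n l17 (nat_lit 6265) (nat_lit 9) (nat_lit 2))
    (@En.n l2869 (nat_lit 6264) (nat_lit 10) (nat_lit 3))
    (@En.i (nat_lit 13600) (nat_lit 0) (nat_lit 14))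
    (@En.i (nat_lit 6382) (nat_lit 13) (nat_lit 6))
    (@En.n l1997 (nat_lit 11914) (nat_lit 14) (nat_lit 13))
    (@En.n l3100 (nat_lit 6234) (nat_lit 4) (nat_lit 6))
    (@En.n l28 (nat_lit 6265) (nat_lit 15) (nat_lit 2))))
  (@Cl.mk (nat_lit 0x20006000e000d000200080003000d000c000a0003000a00040008000e0006) (nat_lit 0xa5000aa2020160) (nat_lit 16) Lb.e (@T16.mk En
    (@En.n l5784 (nat_lit 5935) (nat_lit 4) (nat_lit 6))
    (@En.n l2573 (nat_lit 2379) (nat_lit 6) (nat_lit 14))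
    (@En.i (nat_lit 4037) (nat_lit 2) (nat_lit 8))
    (@En.i (nat_lit 5918) (nat_lit 7) (nat_lit 4))
    (@En.n l2568 (nat_lit 793) (nat_lit 4) (nat_lit 10))
    (@En.i (nat_lit 6263) (nat_lit 5) (nat_lit 3))
    (@En.i (nat_lit 6073) (nat_lit 11) (nat_lit 10))
    (@En.n l134 (nat_lit 6260) (nat_lit 8) (nat_lit 12))
    (@En.n l2568 (nat_lit 6508) (nat_lit 9) (nat_lit 13))
    (@En.n l117 (nat_lit 6264) (nat_lit 9) (nat_lit 3))
    (@En.i (nat_lit 6718) (nat_lit 11) (nat_lit 8))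
    (@En.n l3 (nat_lit 6266) (nat_lit 11) (nat_lit 2))
    (@En.i (nat_lit 6264) (nat_lit 13) (nat_lit 13))
    (@En.i (nat_lit 12807) (nat_lit 1) (nat_lit 14))
    (@En.n l640 (nat_lit 6075) (nat_lit 2) (nat_lit 6))
    (@En.n l18 (nat_lit 6266) (nat_lit 15) (nat_lit 2))))
  (@Cl.mk (nat_lit 0x2000c00090009000d0004000b0003000b000700070005000d0005000e0003) (nat_lit 0x912203080004050) (nat_lit 16) Lb.e (@T16.mk En
    (@En.n l14949 (nat_lit 5944) (nat_lit 15) (nat_lit 3))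
    (@En.n l4698 (nat_lit 12869) (nat_lit 0) (nat_lit 14))
    (@En.n l4263 (nat_lit 6380) (nat_lit 2) (nat_lit 5))
    (@En.n l2572 (nat_lit 11022) (nat_lit 2) (nat_lit 13))
    (@En.n l19894 (nat_lit 6415) (nat_lit 4) (nat_lit 5))
    (@En.n l34877 (nat_lit 5942) (nat_lit 5) (nat_lit 7))
    (@En.n l40177 (nat_lit 6118) (nat_lit 6) (nat_lit 7))
    (@En.i (nat_lit 12686) (nat_lit 8) (nat_lit 11))
    (@En.n l40178 (nat_lit 6255) (nat_lit 8) (nat_lit 3))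
    (@En.n l40179 (nat_lit 627) (nat_lit 10) (nat_lit 11))
    (@En.n l34880 (nat_lit 5938) (nat_lit 10) (nat_lit 4))
    (@En.i (nat_lit 6228) (nat_lit 12) (nat_lit 13))
    (@En.n l134 (nat_lit 6262) (nat_lit 7) (nat_lit 9))
    (@En.n l40180 (nat_lit 1316) (nat_lit 14) (nat_lit 9))
    (@En.i (nat_lit 6270) (nat_lit 14) (nat_lit 12))
    (@En.n l17 (nat_lit 6267) (nat_lit 15) (nat_lit 2))))
  (@Cl.mk (nat_lit 0x200070003000c00090009000d0004000b00030009000700070005000e000d) (nat_lit 0x9122030700014) (nat_lit 16) Lb.e (@T16.mk En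
    (@En.i (nat_lit 5944) (nat_lit 2) (nat_lit 13))
    (@En.i (nat_lit 5590) (nat_lit 1) (nat_lit 14))
    (@En.n l26348 (nat_lit 6337) (nat_lit 2) (nat_lit 5))
    (@En.n l237 (nat_lit 5941) (nat_lit 3) (nat_lit 7))
    (@En.i (nat_lit 6170) (nat_lit 4) (nat_lit 7))
    (@En.n l55 (nat_lit 12685) (nat_lit 5) (nat_lit 9))
    (@En.n l2869 (nat_lit 6259) (nat_lit 6) (nat_lit 3))
    (@En.n l1997 (nat_lit 626) (nat_lit 8) (nat_lit 11))
    (@En.n l14973 (nat_lit 5935) (nat_lit 8) (nat_lit 4))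
    (@En.n l6238 (nat_lit 6078) (nat_lit 10) (nat_lit 13))
    (@En.n l26625 (nat_lit 6263) (nat_lit 7) (nat_lit 9))
    (@En.n l396 (nat_lit 1317) (nat_lit 12) (nat_lit 9))
    (@En.n l26626 (nat_lit 6518) (nat_lit 13) (nat_lit 12))
    (@En.n l117 (nat_lit 5944) (nat_lit 14) (nat_lit 3))
    (@En.n l19129 (nat_lit 6699) (nat_lit 0) (nat_lit 7))
    (@En.n l3 (nat_lit 6268) (nat_lit 15) (nat_lit 2))))
  (@Cl.mk (nat_lit 0x3000c00080008000c00040008000b0004000a000800080005000d00080006) (nat_lit 0x840300405220760) (nat_lit 16) Lb.e (@T16.mk En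
    (@En.n l19129 (nat_lit 8997) (nat_lit 0) (nat_lit 6))
    (@En.n l19130 (nat_lit 6271) (nat_lit 6) (nat_lit 8))
    (@En.n l2125 (nat_lit 11938) (nat_lit 2) (nat_lit 13))
    (@En.n l19131 (nat_lit 8147) (nat_lit 3) (nat_lit 5))
    (@En.n l19132 (nat_lit 6272) (nat_lit 8) (nat_lit 8))
    (@En.i (nat_lit 6126) (nat_lit 5) (nat_lit 8))
    (@En.n l19133 (nat_lit 11125) (nat_lit 12) (nat_lit 10))
    (@En.n l19134 (nat_lit 9372) (nat_lit 7) (nat_lit 4))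
    (@En.i (nat_lit 6268) (nat_lit 7) (nat_lit 11))
    (@En.n l6436 (nat_lit 11244) (nat_lit 1) (nat_lit 8))
    (@En.n l14973 (nat_lit 6278) (nat_lit 10) (nat_lit 4))
    (@En.n l19135 (nat_lit 9666) (nat_lit 7) (nat_lit 12))
    (@En.n l9225 (nat_lit 12137) (nat_lit 8) (nat_lit 8))
    (@En.n l396 (nat_lit 8837) (nat_lit 14) (nat_lit 8))
    (@En.n l19136 (nat_lit 6515) (nat_lit 3) (nat_lit 12))
    (@En.n l19137 (nat_lit 6270) (nat_lit 15) (nat_lit 3))))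
  (@Cl.mk (nat_lit 0x3000c00080008000c00040007000b0004000b000800080005000d00050009) (nat_lit 0x833300405440602) (nat_lit 16) Lb.e (@T16.mk En
    (@En.n l34875 (nat_lit 5115) (nat_lit 0) (nat_lit 9))
    (@En.n l29002 (nat_lit 9439) (nat_lit 6) (nat_lit 5))
    (@En.n l2572 (nat_lit 11939) (nat_lit 2) (nat_lit 13))
    (@En.n l34876 (nat_lit 8146) (nat_lit 3) (nat_lit 5))
    (@En.n l34877 (nat_lit 6273) (nat_lit 8) (nat_lit 8))
    (@En.n l33083 (nat_lit 6125) (nat_lit 5) (nat_lit 8))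
    (@En.n l19900 (nat_lit 11878) (nat_lit 12) (nat_lit 11))
    (@En.n l34878 (nat_lit 9369) (nat_lit 7) (nat_lit 4))
    (@En.n l33083 (nat_lit 5944) (nat_lit 8) (nat_lit 11))
    (@En.n l34879 (nat_lit 7930) (nat_lit 11) (nat_lit 7))
    (@En.n l34880 (nat_lit 6279) (nat_lit 10) (nat_lit 4))
    (@En.i (nat_lit 10356) (nat_lit 0) (nat_lit 12))
    (@En.n l134 (nat_lit 12136) (nat_lit 8) (nat_lit 8))
    (@En.n l34881 (nat_lit 8839) (nat_lit 14) (nat_lit 8))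
    (@En.i (nat_lit 6271) (nat_lit 3) (nat_lit 12))
    (@En.n l29372 (nat_lit 6269) (nat_lit 15) (nat_lit 3))))
  (@Cl.mk (nat_lit 0x400080007000b0005000b000900090005000800050009000c00070007000b) (nat_lit 0x5062205017007) (nat_lit 16) Lb.e (@T16.mk En
    (@En.i (nat_lit 10357) (nat_lit 8) (nat_lit 11))
    (@En.n l15669 (nat_lit 12135) (nat_lit 9) (nat_lit 7))
    (@En.n l34895 (nat_lit 8838) (nat_lit 6) (nat_lit 7))
    (@En.n l34896 (nat_lit 6519) (nat_lit 6) (nat_lit 12))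
    (@En.n l31926 (nat_lit 5111) (nat_lit 10) (nat_lit 9))
    (@En.n l34897 (nat_lit 9434) (nat_lit 5) (nat_lit 5))
    (@En.n l31926 (nat_lit 11428) (nat_lit 10) (nat_lit 8))
    (@En.n l34876 (nat_lit 8145) (nat_lit 7) (nat_lit 5))
    (@En.n l34877 (nat_lit 6274) (nat_lit 7) (nat_lit 9))
    (@En.n l34898 (nat_lit 6127) (nat_lit 1) (nat_lit 9))
    (@En.n l34899 (nat_lit 11124) (nat_lit 2) (nat_lit 11))
    (@En.n l34900 (nat_lit 9368) (nat_lit 5) (nat_lit 5))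
    (@En.n l34901 (nat_lit 6269) (nat_lit 8) (nat_lit 11))
    (@En.n l17 (nat_lit 6270) (nat_lit 9) (nat_lit 7))
    (@En.n l3260 (nat_lit 11245) (nat_lit 11) (nat_lit 8))
    (@En.n l34902 (nat_lit 6280) (nat_lit 15) (nat_lit 4))))
noncomputable def a392 : T16 Cl := @T16.mk Cl
  (@Cl.mk (nat_lit 0x2000c00050009000c0004000b00080004000d000700050003000b000e0008) (nat_lit 0x900605105000535) (nat_lit 16) Lb.e (@T16.mk En
    (@En.n l22048 (nat_lit 6269) (nat_lit 13) (nat_lit 8))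
    (@En.i (nat_lit 7980) (nat_lit 4) (nat_lit 14))
    (@En.n l22049 (nat_lit 6944) (nat_lit 2) (nat_lit 11))
    (@En.n l22050 (nat_lit 6273) (nat_lit 3) (nat_lit 3))
    (@En.i (nat_lit 8996) (nat_lit 0) (nat_lit 5))
    (@En.n l22051 (nat_lit 6274) (nat_lit 5) (nat_lit 7))
    (@En.n l7690 (nat_lit 11932) (nat_lit 7) (nat_lit 13))
    (@En.n l12423 (nat_lit 2513) (nat_lit 7) (nat_lit 4))
    (@En.n l1501 (nat_lit 6146) (nat_lit 4) (nat_lit 8))
    (@En.n l2584 (nat_lit 12268) (nat_lit 10) (nat_lit 11))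
    (@En.n l12423 (nat_lit 9371) (nat_lit 10) (nat_lit 4))
    (@En.n l1501 (nat_lit 5941) (nat_lit 6) (nat_lit 12))
    (@En.n l15678 (nat_lit 11249) (nat_lit 13) (nat_lit 9))
    (@En.n l22052 (nat_lit 6277) (nat_lit 14) (nat_lit 5))
    (@En.n l22053 (nat_lit 9663) (nat_lit 11) (nat_lit 12))
    (@En.n l18 (nat_lit 6272) (nat_lit 15) (nat_lit 2))))
  (@Cl.mk (nat_lit 0x2000c00050008000c0004000c00080004000d000400080003000b000e0008) (nat_lit 0x400305301020544) (nat_lit 16) Lb.e (@T16.mk En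
    (@En.n l30883 (nat_lit 6270) (nat_lit 13) (nat_lit 8))
    (@En.n l9518 (nat_lit 7979) (nat_lit 4) (nat_lit 14))
    (@En.i (nat_lit 6274) (nat_lit 2) (nat_lit 11))
    (@En.n l9518 (nat_lit 6272) (nat_lit 3) (nat_lit 3))
    (@En.n l3464 (nat_lit 5344) (nat_lit 4) (nat_lit 8))
    (@En.n l9518 (nat_lit 9448) (nat_lit 5) (nat_lit 4))
    (@En.n l11306 (nat_lit 4180) (nat_lit 7) (nat_lit 13))
    (@En.i (nat_lit 2512) (nat_lit 7) (nat_lit 4))
    (@En.n l27059 (nat_lit 6145) (nat_lit 4) (nat_lit 8))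
    (@En.n l31241 (nat_lit 12272) (nat_lit 10) (nat_lit 12))
    (@En.i (nat_lit 9367) (nat_lit 10) (nat_lit 4))
    (@En.n l617 (nat_lit 5939) (nat_lit 12) (nat_lit 12))
    (@En.n l6031 (nat_lit 7923) (nat_lit 13) (nat_lit 8))
    (@En.n l159 (nat_lit 6276) (nat_lit 14) (nat_lit 5))
    (@En.n l11303 (nat_lit 9667) (nat_lit 11) (nat_lit 12))
    (@En.n l107 (nat_lit 6273) (nat_lit 15) (nat_lit 2))))
  (@Cl.mk (nat_lit 0x2000b000500090008000c0005000c00090004000700040008000b000e0007) (nat_lit 0x800170610001430) (nat_lit 16) Lb.e (@T16.mk En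
    (@En.n l30883 (nat_lit 6271) (nat_lit 2) (nat_lit 7))
    (@En.n l8763 (nat_lit 7981) (nat_lit 4) (nat_lit 14))
    (@En.n l37688 (nat_lit 6945) (nat_lit 2) (nat_lit 11))
    (@En.n l37689 (nat_lit 1926) (nat_lit 3) (nat_lit 8))
    (@En.n l37690 (nat_lit 9445) (nat_lit 4) (nat_lit 4))
    (@En.n l37691 (nat_lit 12124) (nat_lit 11) (nat_lit 7))
    (@En.i (nat_lit 2510) (nat_lit 6) (nat_lit 4))
    (@En.n l37692 (nat_lit 6147) (nat_lit 0) (nat_lit 9))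
    (@En.n l37693 (nat_lit 12271) (nat_lit 9) (nat_lit 12))
    (@En.i (nat_lit 9365) (nat_lit 9) (nat_lit 5))
    (@En.n l37694 (nat_lit 6272) (nat_lit 11) (nat_lit 12))
    (@En.n l17 (nat_lit 6273) (nat_lit 12) (nat_lit 8))
    (@En.i (nat_lit 11250) (nat_lit 13) (nat_lit 9))
    (@En.n l159 (nat_lit 6275) (nat_lit 14) (nat_lit 5))
    (@En.n l11303 (nat_lit 6281) (nat_lit 0) (nat_lit 11))
    (@En.n l107 (nat_lit 6274) (nat_lit 15) (nat_lit 2))))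
  (@Cl.mk (nat_lit 0x2000500090008000c0008000c00080004000700040008000b0008000e0008) (nat_lit 0x715300017644) (nat_lit 16) Lb.e (@T16.mk En
    (@En.n l43192 (nat_lit 6280) (nat_lit 1) (nat_lit 8))
    (@En.n l180 (nat_lit 6274) (nat_lit 1) (nat_lit 14))
    (@En.n l43193 (nat_lit 10049) (nat_lit 2) (nat_lit 8))
    (@En.n l43194 (nat_lit 6946) (nat_lit 3) (nat_lit 11))
    (@En.n l43195 (nat_lit 1920) (nat_lit 4) (nat_lit 8))
    (@En.n l40603 (nat_lit 9132) (nat_lit 5) (nat_lit 4))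
    (@En.n l36189 (nat_lit 11431) (nat_lit 6) (nat_lit 7))
    (@En.i (nat_lit 2515) (nat_lit 7) (nat_lit 4))
    (@En.n l43095 (nat_lit 6150) (nat_lit 0) (nat_lit 8))
    (@En.n l40603 (nat_lit 12348) (nat_lit 10) (nat_lit 12))
    (@En.n l18864 (nat_lit 2093) (nat_lit 11) (nat_lit 8))
    (@En.n l617 (nat_lit 6277) (nat_lit 12) (nat_lit 12))
    (@En.n l17 (nat_lit 6276) (nat_lit 13) (nat_lit 8))
    (@En.i (nat_lit 11282) (nat_lit 14) (nat_lit 9))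
    (@En.i (nat_lit 2624) (nat_lit 13) (nat_lit 5))
    (@En.n l11 (nat_lit 6275) (nat_lit 15) (nat_lit 2))))
  (@Cl.mk (nat_lit 0x200050008000c0007000c00070004000d000400080003000b0009000e0009) (nat_lit 0x65040050108755) (nat_lit 16) Lb.e (@T16.mk En
    (@En.n l18697 (nat_lit 6279) (nat_lit 12) (nat_lit 9))
    (@En.n l180 (nat_lit 6273) (nat_lit 1) (nat_lit 14))
    (@En.n l619 (nat_lit 10051) (nat_lit 2) (nat_lit 9))
    (@En.i (nat_lit 6275) (nat_lit 3) (nat_lit 11))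
    (@En.i (nat_lit 6277) (nat_lit 4) (nat_lit 3))
    (@En.n l387 (nat_lit 1919) (nat_lit 5) (nat_lit 8))
    (@En.i (nat_lit 9131) (nat_lit 6) (nat_lit 4))
    (@En.n l2682 (nat_lit 11927) (nat_lit 8) (nat_lit 13))
    (@En.i (nat_lit 2574) (nat_lit 8) (nat_lit 4))
    (@En.i (nat_lit 6148) (nat_lit 10) (nat_lit 7))
    (@En.n l3872 (nat_lit 12357) (nat_lit 11) (nat_lit 12))
    (@En.n l810 (nat_lit 6636) (nat_lit 12) (nat_lit 7))
    (@En.n l617 (nat_lit 5933) (nat_lit 13) (nat_lit 12))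
    (@En.n l781 (nat_lit 11196) (nat_lit 14) (nat_lit 8))
    (@En.i (nat_lit 2623) (nat_lit 13) (nat_lit 5))
    (@En.n l11 (nat_lit 6276) (nat_lit 15) (nat_lit 2))))
  (@Cl.mk (nat_lit 0x200050009000c0007000b00070004000d000700050003000b0009000e0009) (nat_lit 0x6040050008746) (nat_lit 16) Lb.e (@T16.mk En
    (@En.n l37671 (nat_lit 6278) (nat_lit 12) (nat_lit 9))
    (@En.n l37672 (nat_lit 6272) (nat_lit 1) (nat_lit 14))
    (@En.n l37673 (nat_lit 10050) (nat_lit 2) (nat_lit 9))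
    (@En.n l37674 (nat_lit 6941) (nat_lit 3) (nat_lit 11))
    (@En.n l18 (nat_lit 6276) (nat_lit 4) (nat_lit 3))
    (@En.n l37675 (nat_lit 9376) (nat_lit 5) (nat_lit 5))
    (@En.n l61 (nat_lit 6275) (nat_lit 6) (nat_lit 7))
    (@En.n l37676 (nat_lit 11928) (nat_lit 8) (nat_lit 13))
    (@En.i (nat_lit 2575) (nat_lit 8) (nat_lit 4))
    (@En.n l29022 (nat_lit 6149) (nat_lit 10) (nat_lit 7))
    (@En.n l37675 (nat_lit 12349) (nat_lit 11) (nat_lit 11))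
    (@En.n l3540 (nat_lit 6635) (nat_lit 12) (nat_lit 7))
    (@En.n l29022 (nat_lit 5934) (nat_lit 13) (nat_lit 12))
    (@En.i (nat_lit 11203) (nat_lit 14) (nat_lit 9))
    (@En.n l15093 (nat_lit 2625) (nat_lit 13) (nat_lit 5))
    (@En.n l11 (nat_lit 6277) (nat_lit 15) (nat_lit 2))))
  (@Cl.mk (nat_lit 0x3000c000a0009000900040008000b0006000a000700070005000d00080006) (nat_lit 0x885000404000660) (nat_lit 16) Lb.e (@T16.mk En
    (@En.n l5741 (nat_lit 9377) (nat_lit 0) (nat_lit 6))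
    (@En.n l20608 (nat_lit 6280) (nat_lit 6) (nat_lit 8))
    (@En.n l34443 (nat_lit 11926) (nat_lit 2) (nat_lit 13))
    (@En.n l34444 (nat_lit 9663) (nat_lit 3) (nat_lit 5))
    (@En.n l34445 (nat_lit 6277) (nat_lit 9) (nat_lit 7))
    (@En.n l3038 (nat_lit 11261) (nat_lit 5) (nat_lit 7))
    (@En.n l5741 (nat_lit 11123) (nat_lit 9) (nat_lit 10))
    (@En.n l34446 (nat_lit 6632) (nat_lit 7) (nat_lit 6))
    (@En.i (nat_lit 5935) (nat_lit 7) (nat_lit 11))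
    (@En.n l34447 (nat_lit 11204) (nat_lit 11) (nat_lit 8))
    (@En.n l34448 (nat_lit 8831) (nat_lit 10) (nat_lit 4))
    (@En.n l397 (nat_lit 12140) (nat_lit 7) (nat_lit 9))
    (@En.n l8134 (nat_lit 10360) (nat_lit 1) (nat_lit 9))
    (@En.n l14127 (nat_lit 10048) (nat_lit 14) (nat_lit 10))
    (@En.n l34449 (nat_lit 6514) (nat_lit 3) (nat_lit 12))
    (@En.n l34450 (nat_lit 6279) (nat_lit 15) (nat_lit 3))))
  (@Cl.mk (nat_lit 0x3000c000a0009000900040007000b0006000b000700070005000d00050009) (nat_lit 0x884000404000600) (nat_lit 16) Lb.e (@T16.mk En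
    (@En.n l40496 (nat_lit 6809) (nat_lit 0) (nat_lit 9))
    (@En.i (nat_lit 9126) (nat_lit 6) (nat_lit 5))
    (@En.n l40497 (nat_lit 11925) (nat_lit 2) (nat_lit 13))
    (@En.i (nat_lit 9667) (nat_lit 3) (nat_lit 5))
    (@En.n l14025 (nat_lit 6276) (nat_lit 9) (nat_lit 7))
    (@En.n l3766 (nat_lit 11262) (nat_lit 5) (nat_lit 7))
    (@En.n l40498 (nat_lit 11122) (nat_lit 12) (nat_lit 11))
    (@En.n l29465 (nat_lit 2094) (nat_lit 7) (nat_lit 6))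
    (@En.n l40499 (nat_lit 5936) (nat_lit 8) (nat_lit 11))
    (@En.n l36670 (nat_lit 11148) (nat_lit 11) (nat_lit 7))
    (@En.n l3596 (nat_lit 8465) (nat_lit 10) (nat_lit 4))
    (@En.n l29466 (nat_lit 12139) (nat_lit 7) (nat_lit 9))
    (@En.n l457 (nat_lit 10359) (nat_lit 1) (nat_lit 9))
    (@En.n l36662 (nat_lit 9375) (nat_lit 14) (nat_lit 10))
    (@En.n l31607 (nat_lit 6280) (nat_lit 3) (nat_lit 12))
    (@En.n l40500 (nat_lit 6278) (nat_lit 15) (nat_lit 3))))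
  (@Cl.mk (nat_lit 0x400080007000b0007000b000800080005000800050009000c000900080008) (nat_lit 0x5054405007733) (nat_lit 16) Lb.e (@T16.mk En
    (@En.n l36647 (nat_lit 12138) (nat_lit 8) (nat_lit 8))
    (@En.n l14256 (nat_lit 10358) (nat_lit 1) (nat_lit 8))
    (@En.n l17 (nat_lit 9515) (nat_lit 13) (nat_lit 9))
    (@En.i (nat_lit 5287) (nat_lit 6) (nat_lit 12))
    (@En.n l14256 (nat_lit 6805) (nat_lit 10) (nat_lit 9))
    (@En.n l36648 (nat_lit 9129) (nat_lit 5) (nat_lit 5))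
    (@En.i (nat_lit 11426) (nat_lit 10) (nat_lit 8))
    (@En.n l31920 (nat_lit 6281) (nat_lit 7) (nat_lit 5))
    (@En.n l36649 (nat_lit 6275) (nat_lit 8) (nat_lit 8))
    (@En.n l8681 (nat_lit 11260) (nat_lit 1) (nat_lit 8))
    (@En.n l36648 (nat_lit 11121) (nat_lit 8) (nat_lit 11))
    (@En.n l33516 (nat_lit 2091) (nat_lit 5) (nat_lit 7))
    (@En.n l36650 (nat_lit 6278) (nat_lit 8) (nat_lit 11))
    (@En.n l31915 (nat_lit 6279) (nat_lit 9) (nat_lit 7))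
    (@En.n l19073 (nat_lit 11276) (nat_lit 11) (nat_lit 8))
    (@En.n l12730 (nat_lit 8830) (nat_lit 15) (nat_lit 4))))
  (@Cl.mk (nat_lit 0x400080007000b00050008000c00090005000800040009000c00080007000b) (nat_lit 0x506029000017607) (nat_lit 16) Lb.e (@T16.mk En
    (@En.n l28 (nat_lit 9664) (nat_lit 8) (nat_lit 11))
    (@En.n l77 (nat_lit 10357) (nat_lit 9) (nat_lit 7))
    (@En.n l5646 (nat_lit 10076) (nat_lit 13) (nat_lit 8))
    (@En.n l17798 (nat_lit 5417) (nat_lit 6) (nat_lit 12))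
    (@En.i (nat_lit 4458) (nat_lit 4) (nat_lit 9))
    (@En.n l3327 (nat_lit 9654) (nat_lit 15) (nat_lit 4))
    (@En.n l33231 (nat_lit 11240) (nat_lit 10) (nat_lit 8))
    (@En.n l2678 (nat_lit 2514) (nat_lit 1) (nat_lit 5))
    (@En.n l33084 (nat_lit 11254) (nat_lit 0) (nat_lit 9))
    (@En.n l36204 (nat_lit 9677) (nat_lit 7) (nat_lit 12))
    (@En.n l6083 (nat_lit 6275) (nat_lit 10) (nat_lit 8))
    (@En.n l117 (nat_lit 10512) (nat_lit 5) (nat_lit 5))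
    (@En.n l617 (nat_lit 9663) (nat_lit 8) (nat_lit 11))
    (@En.n l17 (nat_lit 9667) (nat_lit 9) (nat_lit 7))
    (@En.i (nat_lit 11759) (nat_lit 11) (nat_lit 8))
    (@En.n l2604 (nat_lit 8496) (nat_lit 15) (nat_lit 4))))
  (@Cl.mk (nat_lit 0x2000a000e00090002000d000b00060003000c00070005000d0004000e0003) (nat_lit 0x79203300900b040) (nat_lit 16) Lb.e (@T16.mk En
    (@En.i (nat_lit 5943) (nat_lit 4) (nat_lit 3))
    (@En.i (nat_lit 12864) (nat_lit 0) (nat_lit 14))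
    (@En.i (nat_lit 6283) (nat_lit 2) (nat_lit 4))
    (@En.n l4306 (nat_lit 11016) (nat_lit 8) (nat_lit 13))
    (@En.i (nat_lit 832) (nat_lit 4) (nat_lit 5))
    (@En.i (nat_lit 5662) (nat_lit 5) (nat_lit 7))
    (@En.n l601 (nat_lit 11196) (nat_lit 11) (nat_lit 12))
    (@En.n l28 (nat_lit 5942) (nat_lit 7) (nat_lit 3))
    (@En.n l4306 (nat_lit 5927) (nat_lit 8) (nat_lit 6))
    (@En.n l77 (nat_lit 2357) (nat_lit 14) (nat_lit 11))
    (@En.n l10491 (nat_lit 6231) (nat_lit 11) (nat_lit 13))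
    (@En.n l107 (nat_lit 6282) (nat_lit 11) (nat_lit 2))
    (@En.i (nat_lit 6255) (nat_lit 13) (nat_lit 9))
    (@En.n l97 (nat_lit 3931) (nat_lit 1) (nat_lit 14))
    (@En.i (nat_lit 9367) (nat_lit 2) (nat_lit 10))
    (@En.n l17 (nat_lit 6282) (nat_lit 15) (nat_lit 2))))
  (@Cl.mk (nat_lit 0x2000a000e00080002000d000a00060003000c000b000800060004000e0005) (nat_lit 0x62409300a1300b0) (nat_lit 16) Lb.e (@T16.mk En
    (@En.n l26033 (nat_lit 6287) (nat_lit 4) (nat_lit 5))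
    (@En.n l5 (nat_lit 8229) (nat_lit 1) (nat_lit 14))
    (@En.n l20181 (nat_lit 8235) (nat_lit 2) (nat_lit 4))
    (@En.i (nat_lit 834) (nat_lit 3) (nat_lit 6))
    (@En.n l4570 (nat_lit 8265) (nat_lit 4) (nat_lit 8))
    (@En.n l217 (nat_lit 5943) (nat_lit 10) (nat_lit 11))
    (@En.n l601 (nat_lit 11183) (nat_lit 11) (nat_lit 12))
    (@En.n l26034 (nat_lit 6284) (nat_lit 7) (nat_lit 3))
    (@En.n l4306 (nat_lit 5071) (nat_lit 8) (nat_lit 6))
    (@En.i (nat_lit 1606) (nat_lit 14) (nat_lit 10))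
    (@En.n l10491 (nat_lit 6249) (nat_lit 11) (nat_lit 13))
    (@En.n l107 (nat_lit 6283) (nat_lit 11) (nat_lit 2))
    (@En.i (nat_lit 6252) (nat_lit 13) (nat_lit 8))
    (@En.n l20181 (nat_lit 3940) (nat_lit 1) (nat_lit 14))
    (@En.i (nat_lit 9301) (nat_lit 2) (nat_lit 10))
    (@En.n l17 (nat_lit 6283) (nat_lit 15) (nat_lit 2))))
  (@Cl.mk (nat_lit 0x2000b000e00080002000d0005000b0003000c000b000800050004000e0005) (nat_lit 0x82408030a1400b0) (nat_lit 16) Lb.e (@T16.mk En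
    (@En.n l7 (nat_lit 6286) (nat_lit 4) (nat_lit 5))
    (@En.n l17046 (nat_lit 8228) (nat_lit 1) (nat_lit 14))
    (@En.i (nat_lit 8234) (nat_lit 2) (nat_lit 4))
    (@En.n l16402 (nat_lit 2193) (nat_lit 3) (nat_lit 5))
    (@En.n l55 (nat_lit 8263) (nat_lit 4) (nat_lit 8))
    (@En.n l7111 (nat_lit 5939) (nat_lit 10) (nat_lit 11))
    (@En.n l11 (nat_lit 11346) (nat_lit 11) (nat_lit 12))
    (@En.n l16402 (nat_lit 6283) (nat_lit 7) (nat_lit 3))
    (@En.n l3298 (nat_lit 1626) (nat_lit 9) (nat_lit 11))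
    (@En.n l17047 (nat_lit 6285) (nat_lit 14) (nat_lit 5))
    (@En.n l17048 (nat_lit 6394) (nat_lit 11) (nat_lit 13))
    (@En.n l17 (nat_lit 6284) (nat_lit 11) (nat_lit 2))
    (@En.n l9775 (nat_lit 6380) (nat_lit 13) (nat_lit 8))
    (@En.i (nat_lit 3941) (nat_lit 4) (nat_lit 14))
    (@En.n l5342 (nat_lit 9448) (nat_lit 2) (nat_lit 11))
    (@En.n l50 (nat_lit 6284) (nat_lit 15) (nat_lit 2))))
  (@Cl.mk (nat_lit 0x20005000b0006000c000b000700050004000e00050002000b000a000e0009) (nat_lit 0x1091000a009735) (nat_lit 16) Lb.e (@T16.mk En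
    (@En.n l18697 (nat_lit 6381) (nat_lit 12) (nat_lit 9))
    (@En.n l14718 (nat_lit 6284) (nat_lit 13) (nat_lit 14))
    (@En.n l2038 (nat_lit 6283) (nat_lit 14) (nat_lit 10))
    (@En.i (nat_lit 9131) (nat_lit 3) (nat_lit 11))
    (@En.n l17 (nat_lit 6285) (nat_lit 4) (nat_lit 2))
    (@En.n l50 (nat_lit 6288) (nat_lit 5) (nat_lit 5))
    (@En.n l998 (nat_lit 8230) (nat_lit 7) (nat_lit 14))
    (@En.n l8873 (nat_lit 8232) (nat_lit 7) (nat_lit 4))
    (@En.i (nat_lit 2191) (nat_lit 8) (nat_lit 5))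
    (@En.n l14754 (nat_lit 8260) (nat_lit 4) (nat_lit 7))
    (@En.n l217 (nat_lit 5933) (nat_lit 11) (nat_lit 11))
    (@En.n l2680 (nat_lit 11340) (nat_lit 12) (nat_lit 12))
    (@En.n l810 (nat_lit 5070) (nat_lit 13) (nat_lit 6))
    (@En.n l1643 (nat_lit 1466) (nat_lit 9) (nat_lit 11))
    (@En.i (nat_lit 6419) (nat_lit 13) (nat_lit 5))
    (@En.n l11 (nat_lit 6285) (nat_lit 15) (nat_lit 2))))
  (@Cl.mk (nat_lit 0x2000d0005000a0003000b000b000b00090006000500050005000b000e0007) (nat_lit 0x703000230000510) (nat_lit 16) Lb.e (@T16.mk En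
    (@En.n l16116 (nat_lit 5915) (nat_lit 4) (nat_lit 7))
    (@En.i (nat_lit 1952) (nat_lit 4) (nat_lit 14))
    (@En.n l3786 (nat_lit 9380) (nat_lit 2) (nat_lit 11))
    (@En.n l3787 (nat_lit 7682) (nat_lit 11) (nat_lit 5))
    (@En.n l55 (nat_lit 6293) (nat_lit 11) (nat_lit 5))
    (@En.i (nat_lit 7689) (nat_lit 5) (nat_lit 5))
    (@En.n l2081 (nat_lit 2190) (nat_lit 6) (nat_lit 6))
    (@En.n l2337 (nat_lit 8735) (nat_lit 12) (nat_lit 9))
    (@En.n l601 (nat_lit 6284) (nat_lit 5) (nat_lit 11))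
    (@En.n l2281 (nat_lit 6289) (nat_lit 5) (nat_lit 11))
    (@En.n l11 (nat_lit 11339) (nat_lit 11) (nat_lit 11))
    (@En.n l117 (nat_lit 6287) (nat_lit 11) (nat_lit 3))
    (@En.i (nat_lit 1628) (nat_lit 0) (nat_lit 10))
    (@En.n l16418 (nat_lit 6288) (nat_lit 14) (nat_lit 5))
    (@En.n l16116 (nat_lit 6292) (nat_lit 2) (nat_lit 13))
    (@En.n l17 (nat_lit 6286) (nat_lit 15) (nat_lit 2))))
  (@Cl.mk (nat_lit 0x2000d000900060003000b000b000b00090007000500050005000a000e0007) (nat_lit 0x810009240000510) (nat_lit 16) Lb.e (@T16.mk En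
    (@En.n l26624 (nat_lit 5916) (nat_lit 4) (nat_lit 7))
    (@En.i (nat_lit 1945) (nat_lit 1) (nat_lit 14))
    (@En.n l15638 (nat_lit 9305) (nat_lit 2) (nat_lit 10))
    (@En.n l3787 (nat_lit 4443) (nat_lit 11) (nat_lit 5))
    (@En.n l55 (nat_lit 6295) (nat_lit 11) (nat_lit 5))
    (@En.i (nat_lit 7693) (nat_lit 5) (nat_lit 5))
    (@En.n l10765 (nat_lit 2208) (nat_lit 6) (nat_lit 7))
    (@En.n l2337 (nat_lit 8736) (nat_lit 12) (nat_lit 9))
    (@En.n l12861 (nat_lit 6283) (nat_lit 5) (nat_lit 11))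
    (@En.n l2281 (nat_lit 6290) (nat_lit 5) (nat_lit 11))
    (@En.i (nat_lit 11185) (nat_lit 11) (nat_lit 11))
    (@En.n l152 (nat_lit 6286) (nat_lit 11) (nat_lit 3))
    (@En.i (nat_lit 5017) (nat_lit 0) (nat_lit 6))
    (@En.n l10765 (nat_lit 443) (nat_lit 14) (nat_lit 9))
    (@En.n l26624 (nat_lit 6296) (nat_lit 2) (nat_lit 13))
    (@En.n l17 (nat_lit 6287) (nat_lit 15) (nat_lit 2))))
noncomputable def a393 : T16 Cl := @T16.mk Cl
  (@Cl.mk (nat_lit 0x20005000a0006000b000b000b00080006000500050005000b000a000e0008) (nat_lit 0x30002300004625) (nat_lit 16) Lb.e (@T16.mk En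
    (@En.n l31524 (nat_lit 5917) (nat_lit 1) (nat_lit 8))
    (@En.n l20778 (nat_lit 6286) (nat_lit 1) (nat_lit 14))
    (@En.n l20778 (nat_lit 6287) (nat_lit 2) (nat_lit 10))
    (@En.n l31525 (nat_lit 9379) (nat_lit 3) (nat_lit 11))
    (@En.n l1778 (nat_lit 7683) (nat_lit 4) (nat_lit 5))
    (@En.n l31526 (nat_lit 6294) (nat_lit 5) (nat_lit 5))
    (@En.n l8094 (nat_lit 7690) (nat_lit 6) (nat_lit 5))
    (@En.i (nat_lit 2184) (nat_lit 7) (nat_lit 6))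
    (@En.n l31527 (nat_lit 8734) (nat_lit 9) (nat_lit 8))
    (@En.n l742 (nat_lit 6285) (nat_lit 10) (nat_lit 11))
    (@En.n l5913 (nat_lit 6291) (nat_lit 11) (nat_lit 11))
    (@En.n l31528 (nat_lit 11337) (nat_lit 12) (nat_lit 11))
    (@En.n l810 (nat_lit 5020) (nat_lit 13) (nat_lit 6))
    (@En.n l13988 (nat_lit 1400) (nat_lit 14) (nat_lit 10))
    (@En.n l5955 (nat_lit 7645) (nat_lit 13) (nat_lit 5))
    (@En.n l11 (nat_lit 6288) (nat_lit 15) (nat_lit 2))))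
  (@Cl.mk (nat_lit 0x20006000b000e00080002000d0005000b0003000b000a00080005000e0005) (nat_lit 0x72608020936050) (nat_lit 16) Lb.e (@T16.mk En
    (@En.n l4110 (nat_lit 6286) (nat_lit 5) (nat_lit 5))
    (@En.n l4414 (nat_lit 8067) (nat_lit 1) (nat_lit 14))
    (@En.n l1034 (nat_lit 769) (nat_lit 2) (nat_lit 5))
    (@En.n l217 (nat_lit 7775) (nat_lit 3) (nat_lit 8))
    (@En.n l1347 (nat_lit 5941) (nat_lit 4) (nat_lit 10))
    (@En.i (nat_lit 12795) (nat_lit 11) (nat_lit 11))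
    (@En.n l117 (nat_lit 6290) (nat_lit 6) (nat_lit 3))
    (@En.n l7327 (nat_lit 1632) (nat_lit 8) (nat_lit 11))
    (@En.n l24005 (nat_lit 6291) (nat_lit 14) (nat_lit 5))
    (@En.n l9290 (nat_lit 6307) (nat_lit 10) (nat_lit 13))
    (@En.n l17 (nat_lit 6289) (nat_lit 10) (nat_lit 2))
    (@En.n l24384 (nat_lit 5913) (nat_lit 12) (nat_lit 8))
    (@En.i (nat_lit 4506) (nat_lit 13) (nat_lit 14))
    (@En.n l5 (nat_lit 8996) (nat_lit 14) (nat_lit 11))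
    (@En.i (nat_lit 6613) (nat_lit 3) (nat_lit 6))
    (@En.n l7 (nat_lit 6289) (nat_lit 15) (nat_lit 2))))
  (@Cl.mk (nat_lit 0x20006000a000e00080002000d000a00060003000b000a00080006000e0005) (nat_lit 0x62201300836070) (nat_lit 16) Lb.e (@T16.mk En
    (@En.n l4110 (nat_lit 6287) (nat_lit 5) (nat_lit 5))
    (@En.n l4096 (nat_lit 8069) (nat_lit 1) (nat_lit 14))
    (@En.n l6574 (nat_lit 777) (nat_lit 2) (nat_lit 6))
    (@En.n l217 (nat_lit 7774) (nat_lit 3) (nat_lit 8))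
    (@En.n l17308 (nat_lit 5945) (nat_lit 4) (nat_lit 10))
    (@En.n l24568 (nat_lit 11207) (nat_lit 11) (nat_lit 11))
    (@En.n l152 (nat_lit 6289) (nat_lit 6) (nat_lit 3))
    (@En.n l15603 (nat_lit 5948) (nat_lit 7) (nat_lit 6))
    (@En.n l6574 (nat_lit 1760) (nat_lit 9) (nat_lit 10))
    (@En.n l23080 (nat_lit 4429) (nat_lit 10) (nat_lit 13))
    (@En.n l17 (nat_lit 6290) (nat_lit 10) (nat_lit 2))
    (@En.n l31277 (nat_lit 5914) (nat_lit 12) (nat_lit 8))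
    (@En.i (nat_lit 4505) (nat_lit 13) (nat_lit 14))
    (@En.n l24869 (nat_lit 9307) (nat_lit 14) (nat_lit 10))
    (@En.n l31278 (nat_lit 6615) (nat_lit 3) (nat_lit 6))
    (@En.n l7 (nat_lit 6290) (nat_lit 15) (nat_lit 2))))
  (@Cl.mk (nat_lit 0x20005000b0006000b000a00070005000e000500020006000b000a000e0009) (nat_lit 0x109100b0009737) (nat_lit 16) Lb.e (@T16.mk En
    (@En.n l28629 (nat_lit 5912) (nat_lit 11) (nat_lit 9))
    (@En.n l28630 (nat_lit 6289) (nat_lit 12) (nat_lit 14))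
    (@En.n l28630 (nat_lit 6290) (nat_lit 13) (nat_lit 10))
    (@En.n l28631 (nat_lit 9376) (nat_lit 3) (nat_lit 11))
    (@En.n l253 (nat_lit 6609) (nat_lit 4) (nat_lit 6))
    (@En.n l3 (nat_lit 6291) (nat_lit 5) (nat_lit 2))
    (@En.n l3323 (nat_lit 6288) (nat_lit 6) (nat_lit 5))
    (@En.n l8135 (nat_lit 8068) (nat_lit 8) (nat_lit 14))
    (@En.i (nat_lit 771) (nat_lit 8) (nat_lit 5))
    (@En.n l5351 (nat_lit 8733) (nat_lit 3) (nat_lit 7))
    (@En.n l14506 (nat_lit 5934) (nat_lit 11) (nat_lit 10))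
    (@En.n l5351 (nat_lit 12794) (nat_lit 12) (nat_lit 11))
    (@En.n l2039 (nat_lit 5258) (nat_lit 13) (nat_lit 6))
    (@En.n l15197 (nat_lit 1438) (nat_lit 8) (nat_lit 11))
    (@En.n l19838 (nat_lit 6421) (nat_lit 8) (nat_lit 5))
    (@En.n l7 (nat_lit 6291) (nat_lit 15) (nat_lit 2))))
  (@Cl.mk (nat_lit 0x30006000b000b000b00090007000500050005000c000a0007000d00040009) (nat_lit 0x9260000960601) (nat_lit 16) Lb.e (@T16.mk En
    (@En.i (nat_lit 1410) (nat_lit 0) (nat_lit 9))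
    (@En.i (nat_lit 2412) (nat_lit 15) (nat_lit 4))
    (@En.n l3107 (nat_lit 6298) (nat_lit 0) (nat_lit 13))
    (@En.i (nat_lit 7494) (nat_lit 1) (nat_lit 7))
    (@En.n l23344 (nat_lit 4433) (nat_lit 4) (nat_lit 10))
    (@En.n l601 (nat_lit 9381) (nat_lit 6) (nat_lit 12))
    (@En.n l27669 (nat_lit 4445) (nat_lit 11) (nat_lit 5))
    (@En.n l11 (nat_lit 7525) (nat_lit 11) (nat_lit 5))
    (@En.n l23344 (nat_lit 6406) (nat_lit 8) (nat_lit 5))
    (@En.n l27670 (nat_lit 2189) (nat_lit 0) (nat_lit 7))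
    (@En.n l77 (nat_lit 8731) (nat_lit 11) (nat_lit 9))
    (@En.n l8390 (nat_lit 6394) (nat_lit 5) (nat_lit 11))
    (@En.n l27671 (nat_lit 6307) (nat_lit 5) (nat_lit 11))
    (@En.n l27559 (nat_lit 11821) (nat_lit 14) (nat_lit 11))
    (@En.n l19941 (nat_lit 6288) (nat_lit 12) (nat_lit 6))
    (@En.i (nat_lit 6296) (nat_lit 15) (nat_lit 3))))
  (@Cl.mk (nat_lit 0x2000c000a000700050004000b000e00060002000d000500090003000e000b) (nat_lit 0x1400082004040b1) (nat_lit 16) Lb.e (@T16.mk En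
    (@En.i (nat_lit 6286) (nat_lit 10) (nat_lit 11))
    (@En.i (nat_lit 6949) (nat_lit 1) (nat_lit 14))
    (@En.n l117 (nat_lit 6295) (nat_lit 2) (nat_lit 3))
    (@En.n l690 (nat_lit 1629) (nat_lit 3) (nat_lit 9))
    (@En.i (nat_lit 6294) (nat_lit 14) (nat_lit 5))
    (@En.n l6631 (nat_lit 7525) (nat_lit 6) (nat_lit 13))
    (@En.n l17 (nat_lit 6293) (nat_lit 6) (nat_lit 2))
    (@En.n l6631 (nat_lit 7146) (nat_lit 7) (nat_lit 6))
    (@En.i (nat_lit 1949) (nat_lit 4) (nat_lit 14))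
    (@En.n l1258 (nat_lit 9386) (nat_lit 10) (nat_lit 11))
    (@En.n l6632 (nat_lit 7311) (nat_lit 10) (nat_lit 4))
    (@En.i (nat_lit 8326) (nat_lit 4) (nat_lit 5))
    (@En.n l1034 (nat_lit 2186) (nat_lit 5) (nat_lit 7))
    (@En.n l217 (nat_lit 8739) (nat_lit 14) (nat_lit 10))
    (@En.n l601 (nat_lit 820) (nat_lit 8) (nat_lit 12))
    (@En.n l28 (nat_lit 6293) (nat_lit 15) (nat_lit 2))))
  (@Cl.mk (nat_lit 0x2000500090006000e000b0002000c0009000700050004000b000a000e0007) (nat_lit 0x30c10440009530) (nat_lit 16) Lb.e (@T16.mk En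
    (@En.n l16452 (nat_lit 7144) (nat_lit 6) (nat_lit 7))
    (@En.n l3 (nat_lit 6293) (nat_lit 8) (nat_lit 14))
    (@En.n l3 (nat_lit 6295) (nat_lit 9) (nat_lit 10))
    (@En.n l1258 (nat_lit 9383) (nat_lit 3) (nat_lit 11))
    (@En.n l16453 (nat_lit 7313) (nat_lit 4) (nat_lit 4))
    (@En.i (nat_lit 8327) (nat_lit 5) (nat_lit 5))
    (@En.n l9774 (nat_lit 2183) (nat_lit 6) (nat_lit 7))
    (@En.n l217 (nat_lit 8741) (nat_lit 14) (nat_lit 9))
    (@En.n l16454 (nat_lit 5458) (nat_lit 9) (nat_lit 12))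
    (@En.n l28 (nat_lit 6294) (nat_lit 9) (nat_lit 2))
    (@En.n l16418 (nat_lit 6288) (nat_lit 11) (nat_lit 11))
    (@En.n l16443 (nat_lit 6948) (nat_lit 12) (nat_lit 14))
    (@En.n l16455 (nat_lit 7136) (nat_lit 13) (nat_lit 6))
    (@En.n l16456 (nat_lit 1397) (nat_lit 14) (nat_lit 9))
    (@En.n l6714 (nat_lit 7644) (nat_lit 13) (nat_lit 5))
    (@En.n l17 (nat_lit 6294) (nat_lit 15) (nat_lit 2))))
  (@Cl.mk (nat_lit 0x2000c000a000800050004000a000e00060002000d000800060003000e000b) (nat_lit 0x1450042004100c1) (nat_lit 16) Lb.e (@T16.mk En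
    (@En.i (nat_lit 6287) (nat_lit 10) (nat_lit 11))
    (@En.i (nat_lit 9614) (nat_lit 1) (nat_lit 14))
    (@En.n l152 (nat_lit 6293) (nat_lit 2) (nat_lit 3))
    (@En.n l12857 (nat_lit 7141) (nat_lit 3) (nat_lit 6))
    (@En.n l97 (nat_lit 1564) (nat_lit 14) (nat_lit 8))
    (@En.n l12793 (nat_lit 7524) (nat_lit 6) (nat_lit 13))
    (@En.n l17 (nat_lit 6295) (nat_lit 6) (nat_lit 2))
    (@En.n l12858 (nat_lit 6361) (nat_lit 7) (nat_lit 6))
    (@En.i (nat_lit 1948) (nat_lit 9) (nat_lit 14))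
    (@En.n l12859 (nat_lit 9531) (nat_lit 10) (nat_lit 10))
    (@En.n l12860 (nat_lit 7312) (nat_lit 10) (nat_lit 4))
    (@En.i (nat_lit 8328) (nat_lit 4) (nat_lit 5))
    (@En.n l6574 (nat_lit 2210) (nat_lit 5) (nat_lit 8))
    (@En.n l217 (nat_lit 8740) (nat_lit 14) (nat_lit 10))
    (@En.n l12861 (nat_lit 819) (nat_lit 8) (nat_lit 12))
    (@En.n l28 (nat_lit 6295) (nat_lit 15) (nat_lit 2))))
  (@Cl.mk (nat_lit 0x30006000b000b000b00090008000500050005000b000a0007000d00080005) (nat_lit 0x1274000960720) (nat_lit 16) Lb.e (@T16.mk En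
    (@En.n l18389 (nat_lit 5881) (nat_lit 0) (nat_lit 5))
    (@En.n l61 (nat_lit 5917) (nat_lit 0) (nat_lit 8))
    (@En.n l27654 (nat_lit 6297) (nat_lit 2) (nat_lit 13))
    (@En.i (nat_lit 7497) (nat_lit 3) (nat_lit 7))
    (@En.n l19348 (nat_lit 4431) (nat_lit 4) (nat_lit 10))
    (@En.n l30128 (nat_lit 9463) (nat_lit 6) (nat_lit 11))
    (@En.n l39490 (nat_lit 4444) (nat_lit 11) (nat_lit 5))
    (@En.n l39491 (nat_lit 7524) (nat_lit 11) (nat_lit 5))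
    (@En.n l34847 (nat_lit 6407) (nat_lit 8) (nat_lit 5))
    (@En.n l39492 (nat_lit 4390) (nat_lit 8) (nat_lit 8))
    (@En.n l77 (nat_lit 9392) (nat_lit 11) (nat_lit 9))
    (@En.n l30562 (nat_lit 6249) (nat_lit 5) (nat_lit 11))
    (@En.n l39493 (nat_lit 4429) (nat_lit 5) (nat_lit 11))
    (@En.n l27559 (nat_lit 11896) (nat_lit 14) (nat_lit 11))
    (@En.n l39494 (nat_lit 5723) (nat_lit 12) (nat_lit 6))
    (@En.n l18 (nat_lit 6292) (nat_lit 15) (nat_lit 3))))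
  (@Cl.mk (nat_lit 0x3000b0006000b000b000b00050009000500050005000c000a000d00070004) (nat_lit 0x600920400096600) (nat_lit 16) Lb.e (@T16.mk En
    (@En.n l28939 (nat_lit 5880) (nat_lit 0) (nat_lit 4))
    (@En.n l619 (nat_lit 6299) (nat_lit 0) (nat_lit 7))
    (@En.i (nat_lit 4819) (nat_lit 5) (nat_lit 13))
    (@En.n l11623 (nat_lit 6355) (nat_lit 3) (nat_lit 10))
    (@En.i (nat_lit 9464) (nat_lit 3) (nat_lit 12))
    (@En.n l11407 (nat_lit 4446) (nat_lit 11) (nat_lit 5))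
    (@En.n l24250 (nat_lit 7527) (nat_lit 11) (nat_lit 5))
    (@En.i (nat_lit 6405) (nat_lit 7) (nat_lit 5))
    (@En.i (nat_lit 4380) (nat_lit 10) (nat_lit 9))
    (@En.n l27667 (nat_lit 7081) (nat_lit 9) (nat_lit 5))
    (@En.n l742 (nat_lit 6396) (nat_lit 5) (nat_lit 11))
    (@En.n l396 (nat_lit 6303) (nat_lit 5) (nat_lit 11))
    (@En.n l27668 (nat_lit 11924) (nat_lit 13) (nat_lit 11))
    (@En.n l4476 (nat_lit 6296) (nat_lit 14) (nat_lit 6))
    (@En.i (nat_lit 5608) (nat_lit 14) (nat_lit 11))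
    (@En.n l152 (nat_lit 6298) (nat_lit 13) (nat_lit 3))))
  (@Cl.mk (nat_lit 0x300080003000b0006000b000b000b00050008000500050005000d000a000d) (nat_lit 0x106009204000a65) (nat_lit 16) Lb.e (@T16.mk En
    (@En.i (nat_lit 4820) (nat_lit 0) (nat_lit 13))
    (@En.i (nat_lit 6354) (nat_lit 3) (nat_lit 10))
    (@En.n l5911 (nat_lit 9656) (nat_lit 2) (nat_lit 13))
    (@En.n l1778 (nat_lit 4447) (nat_lit 11) (nat_lit 5))
    (@En.n l2172 (nat_lit 7526) (nat_lit 11) (nat_lit 5))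
    (@En.i (nat_lit 6404) (nat_lit 7) (nat_lit 5))
    (@En.i (nat_lit 2251) (nat_lit 10) (nat_lit 8))
    (@En.n l5912 (nat_lit 7084) (nat_lit 7) (nat_lit 5))
    (@En.n l742 (nat_lit 6395) (nat_lit 5) (nat_lit 11))
    (@En.n l5913 (nat_lit 6302) (nat_lit 5) (nat_lit 11))
    (@En.n l40794 (nat_lit 11920) (nat_lit 11) (nat_lit 11))
    (@En.n l1347 (nat_lit 6292) (nat_lit 14) (nat_lit 6))
    (@En.i (nat_lit 6299) (nat_lit 13) (nat_lit 11))
    (@En.n l117 (nat_lit 6297) (nat_lit 15) (nat_lit 3))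
    (@En.i (nat_lit 421) (nat_lit 0) (nat_lit 8))
    (@En.n l19868 (nat_lit 6300) (nat_lit 15) (nat_lit 3))))
  (@Cl.mk (nat_lit 0x30008000b0005000a000a000a000500090008000600060006000d000b0007) (nat_lit 0x150002075000a70) (nat_lit 16) Lb.e (@T16.mk En
    (@En.n l17110 (nat_lit 5253) (nat_lit 0) (nat_lit 7))
    (@En.n l24725 (nat_lit 6353) (nat_lit 5) (nat_lit 11))
    (@En.n l15830 (nat_lit 9389) (nat_lit 2) (nat_lit 13))
    (@En.n l1778 (nat_lit 6567) (nat_lit 10) (nat_lit 6))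
    (@En.n l40079 (nat_lit 7147) (nat_lit 10) (nat_lit 6))
    (@En.i (nat_lit 9985) (nat_lit 5) (nat_lit 6))
    (@En.n l11 (nat_lit 6298) (nat_lit 6) (nat_lit 8))
    (@En.n l17110 (nat_lit 6292) (nat_lit 10) (nat_lit 9))
    (@En.n l5912 (nat_lit 7088) (nat_lit 8) (nat_lit 5))
    (@En.n l742 (nat_lit 6386) (nat_lit 6) (nat_lit 10))
    (@En.n l19870 (nat_lit 6304) (nat_lit 6) (nat_lit 10))
    (@En.n l40080 (nat_lit 11925) (nat_lit 12) (nat_lit 10))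
    (@En.n l1347 (nat_lit 5917) (nat_lit 13) (nat_lit 5))
    (@En.n l40081 (nat_lit 5796) (nat_lit 7) (nat_lit 11))
    (@En.n l12758 (nat_lit 1411) (nat_lit 1) (nat_lit 8))
    (@En.n l40082 (nat_lit 6301) (nat_lit 15) (nat_lit 3))))
  (@Cl.mk (nat_lit 0x300080004000b0005000b000b000b00050008000500050005000d000c000b) (nat_lit 0x106000004000aa6) (nat_lit 16) Lb.e (@T16.mk En
    (@En.n l619 (nat_lit 6764) (nat_lit 0) (nat_lit 11))
    (@En.n l14747 (nat_lit 6297) (nat_lit 4) (nat_lit 12))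
    (@En.n l817 (nat_lit 9360) (nat_lit 2) (nat_lit 13))
    (@En.n l601 (nat_lit 6768) (nat_lit 11) (nat_lit 5))
    (@En.n l77 (nat_lit 7584) (nat_lit 11) (nat_lit 5))
    (@En.n l6064 (nat_lit 8875) (nat_lit 5) (nat_lit 5))
    (@En.n l27687 (nat_lit 2281) (nat_lit 10) (nat_lit 8))
    (@En.n l27688 (nat_lit 7087) (nat_lit 7) (nat_lit 5))
    (@En.n l397 (nat_lit 6397) (nat_lit 5) (nat_lit 11))
    (@En.n l5670 (nat_lit 6305) (nat_lit 5) (nat_lit 11))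
    (@En.n l27689 (nat_lit 11911) (nat_lit 11) (nat_lit 11))
    (@En.n l13857 (nat_lit 2412) (nat_lit 12) (nat_lit 5))
    (@En.n l18830 (nat_lit 6301) (nat_lit 13) (nat_lit 11))
    (@En.n l6517 (nat_lit 5888) (nat_lit 14) (nat_lit 4))
    (@En.i (nat_lit 1050) (nat_lit 0) (nat_lit 8))
    (@En.n l14747 (nat_lit 6298) (nat_lit 15) (nat_lit 3))))
  (@Cl.mk (nat_lit 0x30008000b0004000a000a000a0005000a0008000600060006000d0006000c) (nat_lit 0x150000045000907) (nat_lit 16) Lb.e (@T16.mk En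
    (@En.n l10997 (nat_lit 6765) (nat_lit 0) (nat_lit 12))
    (@En.n l38766 (nat_lit 5161) (nat_lit 4) (nat_lit 6))
    (@En.n l17394 (nat_lit 9359) (nat_lit 2) (nat_lit 13))
    (@En.n l38767 (nat_lit 6568) (nat_lit 10) (nat_lit 6))
    (@En.n l37823 (nat_lit 7148) (nat_lit 10) (nat_lit 6))
    (@En.n l33357 (nat_lit 9986) (nat_lit 5) (nat_lit 6))
    (@En.n l34604 (nat_lit 6300) (nat_lit 6) (nat_lit 8))
    (@En.n l38768 (nat_lit 2415) (nat_lit 10) (nat_lit 10))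
    (@En.n l38769 (nat_lit 7089) (nat_lit 8) (nat_lit 5))
    (@En.n l38770 (nat_lit 6387) (nat_lit 6) (nat_lit 10))
    (@En.n l33522 (nat_lit 6306) (nat_lit 6) (nat_lit 10))
    (@En.n l38771 (nat_lit 11926) (nat_lit 12) (nat_lit 10))
    (@En.n l12503 (nat_lit 7522) (nat_lit 13) (nat_lit 4))
    (@En.n l763 (nat_lit 5799) (nat_lit 7) (nat_lit 11))
    (@En.n l8667 (nat_lit 981) (nat_lit 1) (nat_lit 8))
    (@En.n l25923 (nat_lit 6299) (nat_lit 15) (nat_lit 3))))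
  (@Cl.mk (nat_lit 0x20006000d000a000d000300090003000c0006000b000a00040007000e0005) (nat_lit 0x97602070810050) (nat_lit 16) Lb.e (@T16.mk En
    (@En.n l3323 (nat_lit 6298) (nat_lit 5) (nat_lit 5))
    (@En.n l3036 (nat_lit 9769) (nat_lit 1) (nat_lit 14))
    (@En.i (nat_lit 2278) (nat_lit 2) (nat_lit 7))
    (@En.n l7882 (nat_lit 7083) (nat_lit 3) (nat_lit 4))
    (@En.n l1253 (nat_lit 6080) (nat_lit 4) (nat_lit 10))
    (@En.n l2579 (nat_lit 10901) (nat_lit 1) (nat_lit 11))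
    (@En.i (nat_lit 6307) (nat_lit 6) (nat_lit 6))
    (@En.n l7882 (nat_lit 6304) (nat_lit 8) (nat_lit 12))
    (@En.n l3815 (nat_lit 6303) (nat_lit 8) (nat_lit 3))
    (@En.n l7882 (nat_lit 1455) (nat_lit 10) (nat_lit 9))
    (@En.n l8435 (nat_lit 6305) (nat_lit 10) (nat_lit 3))
    (@En.n l2544 (nat_lit 5121) (nat_lit 12) (nat_lit 13))
    (@En.n l2977 (nat_lit 4432) (nat_lit 13) (nat_lit 10))
    (@En.n l3337 (nat_lit 9657) (nat_lit 14) (nat_lit 13))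
    (@En.i (nat_lit 6729) (nat_lit 13) (nat_lit 6))
    (@En.n l3 (nat_lit 6302) (nat_lit 15) (nat_lit 2))))
  (@Cl.mk (nat_lit 0x20006000c000a000d000800040003000c0006000b000a00040008000e0005) (nat_lit 0x7b30080810200) (nat_lit 16) Lb.e (@T16.mk En
    (@En.n l50 (nat_lit 6297) (nat_lit 7) (nat_lit 5))
    (@En.n l649 (nat_lit 9768) (nat_lit 1) (nat_lit 14))
    (@En.i (nat_lit 4420) (nat_lit 2) (nat_lit 8))
    (@En.n l25357 (nat_lit 7082) (nat_lit 3) (nat_lit 4))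
    (@En.n l11245 (nat_lit 6083) (nat_lit 4) (nat_lit 10))
    (@En.n l8246 (nat_lit 10885) (nat_lit 6) (nat_lit 11))
    (@En.n l29369 (nat_lit 4429) (nat_lit 6) (nat_lit 6))
    (@En.n l39888 (nat_lit 6604) (nat_lit 8) (nat_lit 12))
    (@En.n l6950 (nat_lit 6302) (nat_lit 8) (nat_lit 3))
    (@En.n l1865 (nat_lit 7796) (nat_lit 9) (nat_lit 4))
    (@En.n l39889 (nat_lit 6304) (nat_lit 11) (nat_lit 8))
    (@En.i (nat_lit 5122) (nat_lit 12) (nat_lit 13))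
    (@En.n l1867 (nat_lit 4430) (nat_lit 13) (nat_lit 10))
    (@En.n l11706 (nat_lit 9462) (nat_lit 14) (nat_lit 12))
    (@En.n l6140 (nat_lit 6686) (nat_lit 13) (nat_lit 6))
    (@En.n l18 (nat_lit 6303) (nat_lit 15) (nat_lit 2))))
noncomputable def a394 : T16 Cl := @T16.mk Cl
  (@Cl.mk (nat_lit 0x20007000d000b000800030009000c0005000a0009000400080007000e0006) (nat_lit 0xb8201608100060) (nat_lit 16) Lb.e (@T16.mk En
    (@En.n l14570 (nat_lit 6299) (nat_lit 5) (nat_lit 6))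
    (@En.n l41102 (nat_lit 9774) (nat_lit 1) (nat_lit 14))
    (@En.n l41103 (nat_lit 6302) (nat_lit 2) (nat_lit 7))
    (@En.n l41104 (nat_lit 6307) (nat_lit 3) (nat_lit 8))
    (@En.i (nat_lit 7086) (nat_lit 4) (nat_lit 4))
    (@En.n l41105 (nat_lit 6075) (nat_lit 5) (nat_lit 9))
    (@En.n l10862 (nat_lit 10899) (nat_lit 1) (nat_lit 10))
    (@En.n l41106 (nat_lit 5912) (nat_lit 7) (nat_lit 5))
    (@En.n l41107 (nat_lit 5718) (nat_lit 9) (nat_lit 12))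
    (@En.n l14574 (nat_lit 1423) (nat_lit 10) (nat_lit 9))
    (@En.n l41108 (nat_lit 6306) (nat_lit 10) (nat_lit 3))
    (@En.n l41109 (nat_lit 7489) (nat_lit 0) (nat_lit 8))
    (@En.n l24344 (nat_lit 6352) (nat_lit 13) (nat_lit 11))
    (@En.n l1833 (nat_lit 9658) (nat_lit 14) (nat_lit 13))
    (@En.n l2669 (nat_lit 6726) (nat_lit 3) (nat_lit 7))
    (@En.n l11 (nat_lit 6304) (nat_lit 15) (nat_lit 2))))
  (@Cl.mk (nat_lit 0x20006000d000c000b000300090004000c0005000b000a00040007000e0005) (nat_lit 0x910030709000a0) (nat_lit 16) Lb.e (@T16.mk En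
    (@En.n l8357 (nat_lit 6300) (nat_lit 5) (nat_lit 5))
    (@En.n l1063 (nat_lit 8583) (nat_lit 1) (nat_lit 14))
    (@En.n l19969 (nat_lit 2279) (nat_lit 2) (nat_lit 7))
    (@En.n l32658 (nat_lit 7085) (nat_lit 3) (nat_lit 4))
    (@En.i (nat_lit 6333) (nat_lit 4) (nat_lit 10))
    (@En.n l32659 (nat_lit 12028) (nat_lit 1) (nat_lit 11))
    (@En.i (nat_lit 7530) (nat_lit 6) (nat_lit 5))
    (@En.n l476 (nat_lit 6306) (nat_lit 8) (nat_lit 12))
    (@En.n l992 (nat_lit 6308) (nat_lit 8) (nat_lit 4))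
    (@En.i (nat_lit 1048) (nat_lit 10) (nat_lit 9))
    (@En.n l32660 (nat_lit 6302) (nat_lit 10) (nat_lit 3))
    (@En.n l32661 (nat_lit 6769) (nat_lit 12) (nat_lit 11))
    (@En.n l32241 (nat_lit 6303) (nat_lit 13) (nat_lit 12))
    (@En.n l699 (nat_lit 9659) (nat_lit 14) (nat_lit 13))
    (@En.n l17 (nat_lit 6731) (nat_lit 13) (nat_lit 6))
    (@En.n l18 (nat_lit 6305) (nat_lit 15) (nat_lit 2))))
  (@Cl.mk (nat_lit 0x20007000d0007000c00030009000c0004000a0009000400090007000e0006) (nat_lit 0xb00026080070a0) (nat_lit 16) Lb.e (@T16.mk En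
    (@En.n l38909 (nat_lit 6301) (nat_lit 5) (nat_lit 6))
    (@En.n l10131 (nat_lit 11168) (nat_lit 1) (nat_lit 14))
    (@En.i (nat_lit 6305) (nat_lit 2) (nat_lit 7))
    (@En.n l38910 (nat_lit 6309) (nat_lit 3) (nat_lit 9))
    (@En.n l34765 (nat_lit 7090) (nat_lit 4) (nat_lit 4))
    (@En.i (nat_lit 6327) (nat_lit 5) (nat_lit 9))
    (@En.n l38911 (nat_lit 12027) (nat_lit 1) (nat_lit 10))
    (@En.n l12468 (nat_lit 7529) (nat_lit 7) (nat_lit 4))
    (@En.n l38912 (nat_lit 5721) (nat_lit 9) (nat_lit 12))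
    (@En.n l152 (nat_lit 1046) (nat_lit 10) (nat_lit 9))
    (@En.n l38913 (nat_lit 6304) (nat_lit 10) (nat_lit 3))
    (@En.n l38914 (nat_lit 6770) (nat_lit 12) (nat_lit 12))
    (@En.n l34765 (nat_lit 6520) (nat_lit 13) (nat_lit 7))
    (@En.n l38915 (nat_lit 9660) (nat_lit 14) (nat_lit 13))
    (@En.n l17 (nat_lit 6727) (nat_lit 3) (nat_lit 7))
    (@En.n l18 (nat_lit 6306) (nat_lit 15) (nat_lit 2))))
  (@Cl.mk (nat_lit 0x20006000c000a0008000d0004000a00030006000b000a00080006000e0005) (nat_lit 0x97270200816050) (nat_lit 16) Lb.e (@T16.mk En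
    (@En.n l29350 (nat_lit 6292) (nat_lit 8) (nat_lit 5))
    (@En.n l8437 (nat_lit 9771) (nat_lit 1) (nat_lit 14))
    (@En.n l5934 (nat_lit 774) (nat_lit 2) (nat_lit 6))
    (@En.n l2912 (nat_lit 9390) (nat_lit 3) (nat_lit 8))
    (@En.n l1253 (nat_lit 6082) (nat_lit 4) (nat_lit 10))
    (@En.n l28790 (nat_lit 11817) (nat_lit 6) (nat_lit 11))
    (@En.n l14973 (nat_lit 6291) (nat_lit 12) (nat_lit 6))
    (@En.n l29351 (nat_lit 4429) (nat_lit 7) (nat_lit 3))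
    (@En.n l2907 (nat_lit 1452) (nat_lit 0) (nat_lit 10))
    (@En.n l8435 (nat_lit 7530) (nat_lit 9) (nat_lit 4))
    (@En.n l50 (nat_lit 6302) (nat_lit 11) (nat_lit 13))
    (@En.n l29352 (nat_lit 7495) (nat_lit 12) (nat_lit 8))
    (@En.n l29353 (nat_lit 4428) (nat_lit 13) (nat_lit 10))
    (@En.n l3337 (nat_lit 9382) (nat_lit 14) (nat_lit 12))
    (@En.i (nat_lit 6617) (nat_lit 13) (nat_lit 6))
    (@En.n l3 (nat_lit 6307) (nat_lit 15) (nat_lit 2))))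
  (@Cl.mk (nat_lit 0x20006000c000c0007000c00040004000c0004000b000a00040009000e0005) (nat_lit 0xa030070930390) (nat_lit 16) Lb.e (@T16.mk En
    (@En.n l50 (nat_lit 5888) (nat_lit 6) (nat_lit 5))
    (@En.n l287 (nat_lit 8578) (nat_lit 1) (nat_lit 14))
    (@En.i (nat_lit 3650) (nat_lit 2) (nat_lit 9))
    (@En.n l24759 (nat_lit 7091) (nat_lit 3) (nat_lit 4))
    (@En.n l665 (nat_lit 6323) (nat_lit 4) (nat_lit 10))
    (@En.n l17323 (nat_lit 10252) (nat_lit 6) (nat_lit 11))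
    (@En.i (nat_lit 6340) (nat_lit 6) (nat_lit 4))
    (@En.n l33003 (nat_lit 6590) (nat_lit 8) (nat_lit 12))
    (@En.n l5761 (nat_lit 6771) (nat_lit 8) (nat_lit 4))
    (@En.n l936 (nat_lit 6303) (nat_lit 9) (nat_lit 4))
    (@En.n l55 (nat_lit 3077) (nat_lit 11) (nat_lit 12))
    (@En.n l665 (nat_lit 6306) (nat_lit 12) (nat_lit 7))
    (@En.n l5579 (nat_lit 7796) (nat_lit 13) (nat_lit 12))
    (@En.n l18332 (nat_lit 9465) (nat_lit 14) (nat_lit 12))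
    (@En.n l797 (nat_lit 6741) (nat_lit 13) (nat_lit 6))
    (@En.n l18 (nat_lit 6308) (nat_lit 15) (nat_lit 2))))
  (@Cl.mk (nat_lit 0x20006000c0007000c000c0004000a00040004000b000a00090006000e0005) (nat_lit 0xa0230300806060) (nat_lit 16) Lb.e (@T16.mk En
    (@En.n l345 (nat_lit 2415) (nat_lit 8) (nat_lit 5))
    (@En.n l19709 (nat_lit 8515) (nat_lit 1) (nat_lit 14))
    (@En.n l9823 (nat_lit 773) (nat_lit 2) (nat_lit 6))
    (@En.n l4112 (nat_lit 7539) (nat_lit 3) (nat_lit 9))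
    (@En.n l4163 (nat_lit 6337) (nat_lit 4) (nat_lit 10))
    (@En.n l19710 (nat_lit 11794) (nat_lit 6) (nat_lit 11))
    (@En.n l152 (nat_lit 6420) (nat_lit 12) (nat_lit 4))
    (@En.n l3851 (nat_lit 4427) (nat_lit 7) (nat_lit 4))
    (@En.n l9869 (nat_lit 1051) (nat_lit 9) (nat_lit 10))
    (@En.n l9290 (nat_lit 6307) (nat_lit 9) (nat_lit 4))
    (@En.n l3536 (nat_lit 7532) (nat_lit 11) (nat_lit 12))
    (@En.n l4163 (nat_lit 6305) (nat_lit 12) (nat_lit 12))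
    (@En.n l4855 (nat_lit 2982) (nat_lit 13) (nat_lit 7))
    (@En.n l19711 (nat_lit 8995) (nat_lit 14) (nat_lit 12))
    (@En.n l3221 (nat_lit 6659) (nat_lit 13) (nat_lit 6))
    (@En.n l7 (nat_lit 6309) (nat_lit 15) (nat_lit 2))))
  (@Cl.mk (nat_lit 0x2000c000c0008000b00040004000d000b000500030008000d0005000e0003) (nat_lit 0x5132003000490a0) (nat_lit 16) Lb.e (@T16.mk En
    (@En.i (nat_lit 4081) (nat_lit 15) (nat_lit 3))
    (@En.n l1684 (nat_lit 13829) (nat_lit 0) (nat_lit 14))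
    (@En.n l9881 (nat_lit 5886) (nat_lit 2) (nat_lit 5))
    (@En.n l3505 (nat_lit 8309) (nat_lit 2) (nat_lit 13))
    (@En.n l3506 (nat_lit 6318) (nat_lit 4) (nat_lit 8))
    (@En.n l28 (nat_lit 6317) (nat_lit 5) (nat_lit 3))
    (@En.i (nat_lit 3117) (nat_lit 0) (nat_lit 5))
    (@En.i (nat_lit 8900) (nat_lit 8) (nat_lit 11))
    (@En.n l9882 (nat_lit 2963) (nat_lit 9) (nat_lit 13))
    (@En.n l3498 (nat_lit 6312) (nat_lit 12) (nat_lit 4))
    (@En.n l3505 (nat_lit 6227) (nat_lit 10) (nat_lit 4))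
    (@En.i (nat_lit 4095) (nat_lit 7) (nat_lit 11))
    (@En.n l564 (nat_lit 6239) (nat_lit 13) (nat_lit 8))
    (@En.n l3501 (nat_lit 4073) (nat_lit 14) (nat_lit 12))
    (@En.n l3505 (nat_lit 6845) (nat_lit 9) (nat_lit 12))
    (@En.n l17 (nat_lit 6310) (nat_lit 15) (nat_lit 2))))
  (@Cl.mk (nat_lit 0x20009000c0004000d000a000400030007000d000d000600030003000e000c) (nat_lit 0x120320003400071) (nat_lit 16) Lb.e (@T16.mk En
    (@En.n l387 (nat_lit 4081) (nat_lit 13) (nat_lit 12))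
    (@En.i (nat_lit 8451) (nat_lit 1) (nat_lit 14))
    (@En.n l1959 (nat_lit 6321) (nat_lit 13) (nat_lit 3))
    (@En.n l50 (nat_lit 6312) (nat_lit 3) (nat_lit 3))
    (@En.n l28 (nat_lit 6770) (nat_lit 0) (nat_lit 6))
    (@En.n l217 (nat_lit 6312) (nat_lit 6) (nat_lit 13))
    (@En.i (nat_lit 8335) (nat_lit 7) (nat_lit 13))
    (@En.n l343 (nat_lit 6315) (nat_lit 7) (nat_lit 7))
    (@En.n l28 (nat_lit 6316) (nat_lit 8) (nat_lit 3))
    (@En.n l339 (nat_lit 866) (nat_lit 0) (nat_lit 4))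
    (@En.i (nat_lit 8865) (nat_lit 11) (nat_lit 10))
    (@En.n l1253 (nat_lit 5131) (nat_lit 12) (nat_lit 13))
    (@En.n l117 (nat_lit 6238) (nat_lit 8) (nat_lit 4))
    (@En.n l387 (nat_lit 4103) (nat_lit 14) (nat_lit 12))
    (@En.i (nat_lit 464) (nat_lit 11) (nat_lit 9))
    (@En.n l3 (nat_lit 6311) (nat_lit 15) (nat_lit 2))))
  (@Cl.mk (nat_lit 0x20009000c0004000d000b000400030007000d0005000e00030002000e000c) (nat_lit 0x130b200030a0076) (nat_lit 16) Lb.e (@T16.mk En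
    (@En.n l387 (nat_lit 6310) (nat_lit 14) (nat_lit 12))
    (@En.i (nat_lit 8452) (nat_lit 1) (nat_lit 14))
    (@En.n l18 (nat_lit 6312) (nat_lit 2) (nat_lit 2))
    (@En.i (nat_lit 6311) (nat_lit 3) (nat_lit 3))
    (@En.i (nat_lit 13835) (nat_lit 0) (nat_lit 14))
    (@En.i (nat_lit 7976) (nat_lit 5) (nat_lit 5))
    (@En.i (nat_lit 8592) (nat_lit 7) (nat_lit 13))
    (@En.n l343 (nat_lit 6313) (nat_lit 7) (nat_lit 7))
    (@En.n l28 (nat_lit 6314) (nat_lit 8) (nat_lit 3))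
    (@En.i (nat_lit 870) (nat_lit 0) (nat_lit 4))
    (@En.n l77 (nat_lit 8867) (nat_lit 11) (nat_lit 11))
    (@En.n l1253 (nat_lit 5501) (nat_lit 12) (nat_lit 13))
    (@En.n l117 (nat_lit 6236) (nat_lit 9) (nat_lit 4))
    (@En.n l387 (nat_lit 4105) (nat_lit 14) (nat_lit 12))
    (@En.i (nat_lit 465) (nat_lit 12) (nat_lit 9))
    (@En.n l3 (nat_lit 6312) (nat_lit 15) (nat_lit 2))))
  (@Cl.mk (nat_lit 0x20009000d000c00050003000c00040007000d0004000e00030002000e000b) (nat_lit 0x1240030020a00c6) (nat_lit 16) Lb.e (@T16.mk En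
    (@En.n l387 (nat_lit 6318) (nat_lit 14) (nat_lit 11))
    (@En.i (nat_lit 8447) (nat_lit 1) (nat_lit 14))
    (@En.n l18 (nat_lit 6313) (nat_lit 2) (nat_lit 2))
    (@En.i (nat_lit 6315) (nat_lit 3) (nat_lit 3))
    (@En.i (nat_lit 13836) (nat_lit 0) (nat_lit 14))
    (@En.i (nat_lit 7977) (nat_lit 5) (nat_lit 4))
    (@En.i (nat_lit 8486) (nat_lit 7) (nat_lit 13))
    (@En.n l766 (nat_lit 3516) (nat_lit 11) (nat_lit 7))
    (@En.n l11 (nat_lit 871) (nat_lit 8) (nat_lit 4))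
    (@En.n l287 (nat_lit 8868) (nat_lit 10) (nat_lit 12))
    (@En.n l11 (nat_lit 6314) (nat_lit 10) (nat_lit 3))
    (@En.n l2238 (nat_lit 6426) (nat_lit 0) (nat_lit 5))
    (@En.n l55 (nat_lit 6312) (nat_lit 13) (nat_lit 12))
    (@En.n l387 (nat_lit 3828) (nat_lit 14) (nat_lit 13))
    (@En.i (nat_lit 461) (nat_lit 12) (nat_lit 9))
    (@En.n l3 (nat_lit 6313) (nat_lit 15) (nat_lit 2))))
  (@Cl.mk (nat_lit 0x20009000d0004000d0003000c00030007000d0004000e00030002000e000c) (nat_lit 0x130b000020a00c6) (nat_lit 16) Lb.e (@T16.mk En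
    (@En.n l387 (nat_lit 6317) (nat_lit 14) (nat_lit 12))
    (@En.i (nat_lit 8446) (nat_lit 1) (nat_lit 14))
    (@En.n l18 (nat_lit 6314) (nat_lit 2) (nat_lit 2))
    (@En.i (nat_lit 6316) (nat_lit 3) (nat_lit 3))
    (@En.i (nat_lit 13837) (nat_lit 0) (nat_lit 14))
    (@En.i (nat_lit 7978) (nat_lit 5) (nat_lit 4))
    (@En.i (nat_lit 8311) (nat_lit 7) (nat_lit 13))
    (@En.n l766 (nat_lit 3517) (nat_lit 7) (nat_lit 7))
    (@En.i (nat_lit 6312) (nat_lit 8) (nat_lit 3))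
    (@En.i (nat_lit 12808) (nat_lit 0) (nat_lit 12))
    (@En.i (nat_lit 6313) (nat_lit 10) (nat_lit 3))
    (@En.n l1253 (nat_lit 5694) (nat_lit 12) (nat_lit 13))
    (@En.n l117 (nat_lit 6237) (nat_lit 9) (nat_lit 4))
    (@En.n l387 (nat_lit 4054) (nat_lit 14) (nat_lit 13))
    (@En.i (nat_lit 467) (nat_lit 12) (nat_lit 9))
    (@En.n l3 (nat_lit 6314) (nat_lit 15) (nat_lit 2))))
  (@Cl.mk (nat_lit 0x20009000d000c00050003000b00040007000d000d000500030003000e000b) (nat_lit 0x1330020023000c1) (nat_lit 16) Lb.e (@T16.mk En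
    (@En.n l387 (nat_lit 4083) (nat_lit 13) (nat_lit 11))
    (@En.i (nat_lit 8448) (nat_lit 1) (nat_lit 14))
    (@En.n l1959 (nat_lit 6320) (nat_lit 13) (nat_lit 3))
    (@En.n l50 (nat_lit 6313) (nat_lit 3) (nat_lit 3))
    (@En.i (nat_lit 6769) (nat_lit 0) (nat_lit 5))
    (@En.n l217 (nat_lit 6313) (nat_lit 6) (nat_lit 13))
    (@En.i (nat_lit 8338) (nat_lit 7) (nat_lit 13))
    (@En.n l766 (nat_lit 3512) (nat_lit 11) (nat_lit 7))
    (@En.n l339 (nat_lit 869) (nat_lit 8) (nat_lit 4))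
    (@En.n l287 (nat_lit 8866) (nat_lit 10) (nat_lit 11))
    (@En.n l11 (nat_lit 6316) (nat_lit 10) (nat_lit 3))
    (@En.n l2238 (nat_lit 6427) (nat_lit 0) (nat_lit 5))
    (@En.n l55 (nat_lit 6311) (nat_lit 13) (nat_lit 12))
    (@En.n l387 (nat_lit 3824) (nat_lit 14) (nat_lit 13))
    (@En.i (nat_lit 460) (nat_lit 11) (nat_lit 9))
    (@En.n l3 (nat_lit 6315) (nat_lit 15) (nat_lit 2))))
  (@Cl.mk (nat_lit 0x20009000d0004000d0003000b00030007000d000d000500030003000e000c) (nat_lit 0x120b000023000c1) (nat_lit 16) Lb.e (@T16.mk En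
    (@En.n l387 (nat_lit 4082) (nat_lit 13) (nat_lit 12))
    (@En.i (nat_lit 8445) (nat_lit 1) (nat_lit 14))
    (@En.n l1959 (nat_lit 6319) (nat_lit 13) (nat_lit 3))
    (@En.n l50 (nat_lit 6314) (nat_lit 3) (nat_lit 3))
    (@En.i (nat_lit 6771) (nat_lit 0) (nat_lit 5))
    (@En.n l217 (nat_lit 6314) (nat_lit 6) (nat_lit 13))
    (@En.i (nat_lit 8337) (nat_lit 7) (nat_lit 13))
    (@En.n l766 (nat_lit 3515) (nat_lit 7) (nat_lit 7))
    (@En.i (nat_lit 6311) (nat_lit 8) (nat_lit 3))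
    (@En.i (nat_lit 8558) (nat_lit 0) (nat_lit 11))
    (@En.i (nat_lit 6315) (nat_lit 10) (nat_lit 3))
    (@En.n l1253 (nat_lit 5129) (nat_lit 12) (nat_lit 13))
    (@En.n l117 (nat_lit 6322) (nat_lit 8) (nat_lit 4))
    (@En.n l387 (nat_lit 4026) (nat_lit 14) (nat_lit 13))
    (@En.i (nat_lit 463) (nat_lit 11) (nat_lit 9))
    (@En.n l3 (nat_lit 6316) (nat_lit 15) (nat_lit 2))))
  (@Cl.mk (nat_lit 0x2000c000c0008000c00040004000d0004000c00030008000d0004000e0003) (nat_lit 0x51690010902b040) (nat_lit 16) Lb.e (@T16.mk En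
    (@En.i (nat_lit 4082) (nat_lit 15) (nat_lit 3))
    (@En.i (nat_lit 13830) (nat_lit 0) (nat_lit 14))
    (@En.n l3506 (nat_lit 5887) (nat_lit 2) (nat_lit 4))
    (@En.n l564 (nat_lit 8304) (nat_lit 2) (nat_lit 13))
    (@En.n l3506 (nat_lit 3605) (nat_lit 4) (nat_lit 8))
    (@En.i (nat_lit 6310) (nat_lit 5) (nat_lit 3))
    (@En.n l644 (nat_lit 12511) (nat_lit 0) (nat_lit 12))
    (@En.i (nat_lit 6318) (nat_lit 7) (nat_lit 4))
    (@En.n l9882 (nat_lit 2953) (nat_lit 9) (nat_lit 13))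
    (@En.n l3498 (nat_lit 6314) (nat_lit 12) (nat_lit 4))
    (@En.n l13355 (nat_lit 6229) (nat_lit 10) (nat_lit 4))
    (@En.i (nat_lit 4053) (nat_lit 12) (nat_lit 12))
    (@En.n l564 (nat_lit 6324) (nat_lit 13) (nat_lit 8))
    (@En.n l4003 (nat_lit 4072) (nat_lit 14) (nat_lit 12))
    (@En.i (nat_lit 6849) (nat_lit 9) (nat_lit 12))
    (@En.n l17 (nat_lit 6317) (nat_lit 15) (nat_lit 2))))
  (@Cl.mk (nat_lit 0x2000b000b0008000c000b000500050004000c00050008000d0004000e0003) (nat_lit 0x514a3000003b080) (nat_lit 16) Lb.e (@T16.mk En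
    (@En.i (nat_lit 4083) (nat_lit 15) (nat_lit 3))
    (@En.i (nat_lit 13831) (nat_lit 0) (nat_lit 14))
    (@En.n l3506 (nat_lit 5885) (nat_lit 2) (nat_lit 4))
    (@En.n l564 (nat_lit 8488) (nat_lit 4) (nat_lit 13))
    (@En.n l3506 (nat_lit 3604) (nat_lit 10) (nat_lit 8))
    (@En.i (nat_lit 876) (nat_lit 5) (nat_lit 5))
    (@En.n l644 (nat_lit 8895) (nat_lit 7) (nat_lit 12))
    (@En.n l17159 (nat_lit 4502) (nat_lit 7) (nat_lit 4))
    (@En.n l3498 (nat_lit 6313) (nat_lit 11) (nat_lit 5))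
    (@En.n l936 (nat_lit 6243) (nat_lit 9) (nat_lit 5))
    (@En.n l55 (nat_lit 6310) (nat_lit 11) (nat_lit 11))
    (@En.i (nat_lit 3821) (nat_lit 12) (nat_lit 12))
    (@En.n l564 (nat_lit 6331) (nat_lit 13) (nat_lit 8))
    (@En.n l4003 (nat_lit 4074) (nat_lit 5) (nat_lit 11))
    (@En.i (nat_lit 6844) (nat_lit 14) (nat_lit 11))
    (@En.n l17 (nat_lit 6318) (nat_lit 15) (nat_lit 2))))
  (@Cl.mk (nat_lit 0x200060003000e000c00020009000d0004000d0003000a00030007000e000d) (nat_lit 0xc601306000083) (nat_lit 16) Lb.e (@T16.mk En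
    (@En.n l1708 (nat_lit 6316) (nat_lit 6) (nat_lit 13))
    (@En.n l1063 (nat_lit 8636) (nat_lit 7) (nat_lit 14))
    (@En.n l535 (nat_lit 3514) (nat_lit 2) (nat_lit 7))
    (@En.i (nat_lit 6321) (nat_lit 3) (nat_lit 3))
    (@En.i (nat_lit 9212) (nat_lit 4) (nat_lit 10))
    (@En.i (nat_lit 6320) (nat_lit 5) (nat_lit 3))
    (@En.n l1598 (nat_lit 5128) (nat_lit 7) (nat_lit 13))
    (@En.n l117 (nat_lit 6333) (nat_lit 7) (nat_lit 4))
    (@En.n l1784 (nat_lit 4023) (nat_lit 9) (nat_lit 13))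
    (@En.i (nat_lit 468) (nat_lit 10) (nat_lit 9))
    (@En.n l3 (nat_lit 6319) (nat_lit 10) (nat_lit 2))
    (@En.i (nat_lit 6323) (nat_lit 12) (nat_lit 12))
    (@En.i (nat_lit 5364) (nat_lit 1) (nat_lit 14))
    (@En.n l1063 (nat_lit 6316) (nat_lit 2) (nat_lit 3))
    (@En.i (nat_lit 6750) (nat_lit 3) (nat_lit 6))
    (@En.n l18 (nat_lit 6319) (nat_lit 15) (nat_lit 2))))
noncomputable def a395 : T16 Cl := @T16.mk Cl
  (@Cl.mk (nat_lit 0x200060003000e000b00020009000d000c00050003000a00040007000e000d) (nat_lit 0xc601230000083) (nat_lit 16) Lb.e (@T16.mk En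
    (@En.n l1708 (nat_lit 6315) (nat_lit 6) (nat_lit 13))
    (@En.n l1063 (nat_lit 8638) (nat_lit 7) (nat_lit 14))
    (@En.n l991 (nat_lit 3513) (nat_lit 2) (nat_lit 7))
    (@En.n l313 (nat_lit 867) (nat_lit 3) (nat_lit 4))
    (@En.n l287 (nat_lit 8870) (nat_lit 4) (nat_lit 10))
    (@En.n l11 (nat_lit 6319) (nat_lit 5) (nat_lit 3))
    (@En.n l4484 (nat_lit 6429) (nat_lit 6) (nat_lit 5))
    (@En.n l55 (nat_lit 6321) (nat_lit 8) (nat_lit 12))
    (@En.n l1784 (nat_lit 4025) (nat_lit 9) (nat_lit 13))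
    (@En.i (nat_lit 462) (nat_lit 10) (nat_lit 9))
    (@En.n l3 (nat_lit 6320) (nat_lit 10) (nat_lit 2))
    (@En.n l1576 (nat_lit 6339) (nat_lit 12) (nat_lit 11))
    (@En.i (nat_lit 5363) (nat_lit 1) (nat_lit 14))
    (@En.n l1063 (nat_lit 6315) (nat_lit 2) (nat_lit 3))
    (@En.i (nat_lit 6351) (nat_lit 3) (nat_lit 6))
    (@En.n l18 (nat_lit 6320) (nat_lit 15) (nat_lit 2))))
  (@Cl.mk (nat_lit 0x200070003000e000c00020009000c0004000d0009000400030007000e000d) (nat_lit 0x7601206200084) (nat_lit 16) Lb.e (@T16.mk En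
    (@En.n l1708 (nat_lit 6311) (nat_lit 6) (nat_lit 13))
    (@En.n l1063 (nat_lit 8637) (nat_lit 7) (nat_lit 14))
    (@En.n l343 (nat_lit 6320) (nat_lit 2) (nat_lit 7))
    (@En.n l28 (nat_lit 6319) (nat_lit 3) (nat_lit 3))
    (@En.n l313 (nat_lit 868) (nat_lit 0) (nat_lit 4))
    (@En.i (nat_lit 8869) (nat_lit 5) (nat_lit 9))
    (@En.n l1598 (nat_lit 5130) (nat_lit 7) (nat_lit 13))
    (@En.n l313 (nat_lit 6332) (nat_lit 7) (nat_lit 4))
    (@En.n l313 (nat_lit 4108) (nat_lit 9) (nat_lit 12))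
    (@En.i (nat_lit 466) (nat_lit 10) (nat_lit 9))
    (@En.n l3 (nat_lit 6321) (nat_lit 10) (nat_lit 2))
    (@En.n l310 (nat_lit 6338) (nat_lit 12) (nat_lit 12))
    (@En.i (nat_lit 5365) (nat_lit 1) (nat_lit 14))
    (@En.n l1063 (nat_lit 6311) (nat_lit 2) (nat_lit 3))
    (@En.i (nat_lit 6350) (nat_lit 3) (nat_lit 7))
    (@En.n l18 (nat_lit 6321) (nat_lit 15) (nat_lit 2))))
  (@Cl.mk (nat_lit 0x30003000d000c000b0003000a0004000d0005000b00030006000d000d0005) (nat_lit 0xb7203020800780) (nat_lit 16) Lb.e (@T16.mk En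
    (@En.n l829 (nat_lit 6305) (nat_lit 0) (nat_lit 5))
    (@En.n l217 (nat_lit 6237) (nat_lit 3) (nat_lit 13))
    (@En.i (nat_lit 10189) (nat_lit 8) (nat_lit 13))
    (@En.n l2009 (nat_lit 2286) (nat_lit 12) (nat_lit 6))
    (@En.i (nat_lit 6238) (nat_lit 4) (nat_lit 3))
    (@En.n l5389 (nat_lit 9219) (nat_lit 0) (nat_lit 11))
    (@En.i (nat_lit 6334) (nat_lit 6) (nat_lit 5))
    (@En.n l476 (nat_lit 6325) (nat_lit 8) (nat_lit 13))
    (@En.n l387 (nat_lit 4082) (nat_lit 8) (nat_lit 4))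
    (@En.i (nat_lit 470) (nat_lit 10) (nat_lit 10))
    (@En.n l1106 (nat_lit 6081) (nat_lit 10) (nat_lit 3))
    (@En.n l619 (nat_lit 6315) (nat_lit 0) (nat_lit 11))
    (@En.n l1106 (nat_lit 6085) (nat_lit 13) (nat_lit 12))
    (@En.n l2114 (nat_lit 8457) (nat_lit 9) (nat_lit 13))
    (@En.n l1959 (nat_lit 6333) (nat_lit 13) (nat_lit 3))
    (@En.n l50 (nat_lit 6237) (nat_lit 0) (nat_lit 3))))
  (@Cl.mk (nat_lit 0x200060003000c000c0008000c00040004000d0004000a00030008000e000d) (nat_lit 0x514900202049a) (nat_lit 16) Lb.e (@T16.mk En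
    (@En.n l5529 (nat_lit 4082) (nat_lit 2) (nat_lit 13))
    (@En.n l1063 (nat_lit 8324) (nat_lit 1) (nat_lit 14))
    (@En.n l535 (nat_lit 3594) (nat_lit 2) (nat_lit 8))
    (@En.n l310 (nat_lit 6338) (nat_lit 3) (nat_lit 3))
    (@En.n l5365 (nat_lit 8953) (nat_lit 4) (nat_lit 10))
    (@En.n l1576 (nat_lit 6339) (nat_lit 5) (nat_lit 4))
    (@En.n l4559 (nat_lit 2954) (nat_lit 7) (nat_lit 13))
    (@En.n l152 (nat_lit 6319) (nat_lit 7) (nat_lit 4))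
    (@En.n l5365 (nat_lit 6083) (nat_lit 8) (nat_lit 4))
    (@En.n l1784 (nat_lit 4024) (nat_lit 10) (nat_lit 12))
    (@En.i (nat_lit 6327) (nat_lit 11) (nat_lit 8))
    (@En.n l4448 (nat_lit 4080) (nat_lit 12) (nat_lit 12))
    (@En.i (nat_lit 9800) (nat_lit 13) (nat_lit 12))
    (@En.n l2369 (nat_lit 4082) (nat_lit 14) (nat_lit 3))
    (@En.i (nat_lit 6744) (nat_lit 0) (nat_lit 6))
    (@En.n l18 (nat_lit 6323) (nat_lit 15) (nat_lit 2))))
  (@Cl.mk (nat_lit 0x2000d0008000c0003000a000d0004000b000300080006000d0005000e0003) (nat_lit 0xb57017080502030) (nat_lit 16) Lb.e (@T16.mk En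
    (@En.i (nat_lit 6325) (nat_lit 15) (nat_lit 3))
    (@En.n l699 (nat_lit 13798) (nat_lit 0) (nat_lit 14))
    (@En.i (nat_lit 6387) (nat_lit 2) (nat_lit 5))
    (@En.n l253 (nat_lit 10889) (nat_lit 8) (nat_lit 13))
    (@En.i (nat_lit 6237) (nat_lit 4) (nat_lit 6))
    (@En.n l766 (nat_lit 6415) (nat_lit 5) (nat_lit 8))
    (@En.i (nat_lit 6239) (nat_lit 6) (nat_lit 3))
    (@En.n l24509 (nat_lit 12747) (nat_lit 0) (nat_lit 11))
    (@En.i (nat_lit 6331) (nat_lit 8) (nat_lit 4))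
    (@En.n l13416 (nat_lit 5400) (nat_lit 5) (nat_lit 13))
    (@En.n l152 (nat_lit 471) (nat_lit 11) (nat_lit 10))
    (@En.n l13417 (nat_lit 6234) (nat_lit 11) (nat_lit 3))
    (@En.n l513 (nat_lit 6312) (nat_lit 0) (nat_lit 12))
    (@En.n l24408 (nat_lit 6013) (nat_lit 14) (nat_lit 8))
    (@En.i (nat_lit 8454) (nat_lit 2) (nat_lit 13))
    (@En.n l18 (nat_lit 6324) (nat_lit 15) (nat_lit 2))))
  (@Cl.mk (nat_lit 0x30003000d0008000c0003000a000d0004000a000300080006000d000d0006) (nat_lit 0xb2202107050230) (nat_lit 16) Lb.e (@T16.mk En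
    (@En.n l829 (nat_lit 6306) (nat_lit 0) (nat_lit 6))
    (@En.n l217 (nat_lit 6324) (nat_lit 3) (nat_lit 13))
    (@En.n l253 (nat_lit 10256) (nat_lit 8) (nat_lit 13))
    (@En.i (nat_lit 6322) (nat_lit 3) (nat_lit 6))
    (@En.n l766 (nat_lit 6336) (nat_lit 4) (nat_lit 8))
    (@En.n l5298 (nat_lit 6326) (nat_lit 5) (nat_lit 3))
    (@En.n l24509 (nat_lit 12750) (nat_lit 0) (nat_lit 10))
    (@En.n l26194 (nat_lit 6329) (nat_lit 7) (nat_lit 4))
    (@En.n l13416 (nat_lit 2957) (nat_lit 5) (nat_lit 13))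
    (@En.n l152 (nat_lit 469) (nat_lit 10) (nat_lit 10))
    (@En.n l13417 (nat_lit 6076) (nat_lit 10) (nat_lit 3))
    (@En.n l513 (nat_lit 6311) (nat_lit 0) (nat_lit 12))
    (@En.n l24408 (nat_lit 6014) (nat_lit 13) (nat_lit 8))
    (@En.n l2114 (nat_lit 8455) (nat_lit 2) (nat_lit 13))
    (@En.n l1959 (nat_lit 6327) (nat_lit 13) (nat_lit 3))
    (@En.n l50 (nat_lit 6324) (nat_lit 0) (nat_lit 3))))
  (@Cl.mk (nat_lit 0x30003000d0008000b0003000a000d00090005000300080006000d000d0007) (nat_lit 0xb4102600050230) (nat_lit 16) Lb.e (@T16.mk En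
    (@En.n l97 (nat_lit 7528) (nat_lit 0) (nat_lit 7))
    (@En.n l17973 (nat_lit 6239) (nat_lit 3) (nat_lit 13))
    (@En.n l13482 (nat_lit 10257) (nat_lit 8) (nat_lit 13))
    (@En.n l17974 (nat_lit 6238) (nat_lit 3) (nat_lit 6))
    (@En.n l17975 (nat_lit 6329) (nat_lit 4) (nat_lit 8))
    (@En.n l17976 (nat_lit 6325) (nat_lit 5) (nat_lit 3))
    (@En.i (nat_lit 1138) (nat_lit 0) (nat_lit 5))
    (@En.n l17974 (nat_lit 9290) (nat_lit 13) (nat_lit 9))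
    (@En.i (nat_lit 5332) (nat_lit 5) (nat_lit 13))
    (@En.n l3677 (nat_lit 477) (nat_lit 10) (nat_lit 10))
    (@En.n l10307 (nat_lit 6077) (nat_lit 10) (nat_lit 3))
    (@En.i (nat_lit 866) (nat_lit 7) (nat_lit 11))
    (@En.n l13275 (nat_lit 6012) (nat_lit 13) (nat_lit 8))
    (@En.n l476 (nat_lit 8463) (nat_lit 2) (nat_lit 13))
    (@En.n l152 (nat_lit 6328) (nat_lit 13) (nat_lit 3))
    (@En.n l17977 (nat_lit 6239) (nat_lit 0) (nat_lit 3))))
  (@Cl.mk (nat_lit 0x200070003000d0008000c0003000a000d00040009000300080006000e000d) (nat_lit 0xb3701a0705083) (nat_lit 16) Lb.e (@T16.mk En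
    (@En.n l1708 (nat_lit 6325) (nat_lit 2) (nat_lit 13))
    (@En.n l10131 (nat_lit 10245) (nat_lit 1) (nat_lit 14))
    (@En.i (nat_lit 6333) (nat_lit 2) (nat_lit 6))
    (@En.n l253 (nat_lit 6337) (nat_lit 3) (nat_lit 8))
    (@En.n l1668 (nat_lit 6328) (nat_lit 4) (nat_lit 3))
    (@En.n l12641 (nat_lit 9220) (nat_lit 0) (nat_lit 9))
    (@En.n l12468 (nat_lit 6330) (nat_lit 6) (nat_lit 4))
    (@En.n l12334 (nat_lit 5401) (nat_lit 8) (nat_lit 13))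
    (@En.n l152 (nat_lit 483) (nat_lit 9) (nat_lit 10))
    (@En.n l12669 (nat_lit 6075) (nat_lit 9) (nat_lit 3))
    (@En.n l513 (nat_lit 6321) (nat_lit 11) (nat_lit 12))
    (@En.n l10135 (nat_lit 6086) (nat_lit 12) (nat_lit 8))
    (@En.n l253 (nat_lit 5358) (nat_lit 13) (nat_lit 13))
    (@En.n l1063 (nat_lit 6325) (nat_lit 14) (nat_lit 3))
    (@En.i (nat_lit 6725) (nat_lit 0) (nat_lit 7))
    (@En.n l18 (nat_lit 6327) (nat_lit 15) (nat_lit 2))))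
  (@Cl.mk (nat_lit 0x200080003000d0008000b0003000a000d00080005000300080006000e000d) (nat_lit 0xb3102a0005083) (nat_lit 16) Lb.e (@T16.mk En
    (@En.i (nat_lit 6326) (nat_lit 2) (nat_lit 13))
    (@En.i (nat_lit 10246) (nat_lit 1) (nat_lit 14))
    (@En.n l699 (nat_lit 6332) (nat_lit 2) (nat_lit 6))
    (@En.n l10901 (nat_lit 6330) (nat_lit 3) (nat_lit 8))
    (@En.n l10305 (nat_lit 6327) (nat_lit 4) (nat_lit 3))
    (@En.i (nat_lit 1142) (nat_lit 0) (nat_lit 5))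
    (@En.n l4651 (nat_lit 12736) (nat_lit 6) (nat_lit 8))
    (@En.i (nat_lit 5331) (nat_lit 8) (nat_lit 13))
    (@En.n l175 (nat_lit 479) (nat_lit 9) (nat_lit 10))
    (@En.n l10307 (nat_lit 6074) (nat_lit 9) (nat_lit 3))
    (@En.i (nat_lit 868) (nat_lit 7) (nat_lit 11))
    (@En.n l13275 (nat_lit 6096) (nat_lit 12) (nat_lit 8))
    (@En.n l2568 (nat_lit 1741) (nat_lit 13) (nat_lit 13))
    (@En.n l117 (nat_lit 6326) (nat_lit 14) (nat_lit 3))
    (@En.n l4651 (nat_lit 6817) (nat_lit 0) (nat_lit 8))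
    (@En.n l3 (nat_lit 6328) (nat_lit 15) (nat_lit 2))))
  (@Cl.mk (nat_lit 0x30003000c0008000c000b0004000b0004000a000500080005000d000d0006) (nat_lit 0xa3820200040670) (nat_lit 16) Lb.e (@T16.mk En
    (@En.n l77 (nat_lit 7529) (nat_lit 0) (nat_lit 6))
    (@En.n l33771 (nat_lit 6331) (nat_lit 3) (nat_lit 13))
    (@En.n l33772 (nat_lit 10897) (nat_lit 2) (nat_lit 13))
    (@En.n l29477 (nat_lit 6334) (nat_lit 3) (nat_lit 5))
    (@En.i (nat_lit 6412) (nat_lit 10) (nat_lit 8))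
    (@En.n l33773 (nat_lit 1139) (nat_lit 5) (nat_lit 5))
    (@En.n l33774 (nat_lit 9289) (nat_lit 7) (nat_lit 10))
    (@En.n l33775 (nat_lit 4496) (nat_lit 7) (nat_lit 4))
    (@En.n l9640 (nat_lit 480) (nat_lit 9) (nat_lit 11))
    (@En.n l33773 (nat_lit 5944) (nat_lit 9) (nat_lit 4))
    (@En.n l33776 (nat_lit 6326) (nat_lit 11) (nat_lit 11))
    (@En.n l33772 (nat_lit 6238) (nat_lit 12) (nat_lit 12))
    (@En.n l33774 (nat_lit 5635) (nat_lit 13) (nat_lit 8))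
    (@En.n l3786 (nat_lit 8831) (nat_lit 14) (nat_lit 12))
    (@En.n l3787 (nat_lit 6330) (nat_lit 13) (nat_lit 3))
    (@En.n l12502 (nat_lit 6331) (nat_lit 0) (nat_lit 3))))
  (@Cl.mk (nat_lit 0x200070003000c0008000c000b0004000b00040009000500080005000e000d) (nat_lit 0xa382020004067) (nat_lit 16) Lb.e (@T16.mk En
    (@En.n l644 (nat_lit 6329) (nat_lit 2) (nat_lit 13))
    (@En.n l12504 (nat_lit 10249) (nat_lit 1) (nat_lit 14))
    (@En.n l20029 (nat_lit 6335) (nat_lit 2) (nat_lit 5))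
    (@En.i (nat_lit 6414) (nat_lit 10) (nat_lit 8))
    (@En.n l26207 (nat_lit 1143) (nat_lit 4) (nat_lit 5))
    (@En.n l24032 (nat_lit 12737) (nat_lit 5) (nat_lit 9))
    (@En.n l21594 (nat_lit 4495) (nat_lit 6) (nat_lit 4))
    (@En.n l9770 (nat_lit 482) (nat_lit 8) (nat_lit 11))
    (@En.n l26207 (nat_lit 6268) (nat_lit 8) (nat_lit 4))
    (@En.n l24215 (nat_lit 6328) (nat_lit 10) (nat_lit 11))
    (@En.n l26208 (nat_lit 6332) (nat_lit 11) (nat_lit 12))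
    (@En.n l26209 (nat_lit 5636) (nat_lit 12) (nat_lit 8))
    (@En.n l9770 (nat_lit 5387) (nat_lit 13) (nat_lit 12))
    (@En.n l7 (nat_lit 6329) (nat_lit 14) (nat_lit 3))
    (@En.n l20029 (nat_lit 6815) (nat_lit 0) (nat_lit 7))
    (@En.n l7 (nat_lit 6330) (nat_lit 15) (nat_lit 2))))
  (@Cl.mk (nat_lit 0x2000c0008000c000b0004000b0004000b000500080005000d0005000e0003) (nat_lit 0xa38203080406080) (nat_lit 16) Lb.e (@T16.mk En
    (@En.n l26194 (nat_lit 6329) (nat_lit 15) (nat_lit 3))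
    (@En.n l26224 (nat_lit 13906) (nat_lit 0) (nat_lit 14))
    (@En.n l4765 (nat_lit 6388) (nat_lit 2) (nat_lit 5))
    (@En.n l4750 (nat_lit 10890) (nat_lit 2) (nat_lit 13))
    (@En.i (nat_lit 6408) (nat_lit 4) (nat_lit 5))
    (@En.n l26225 (nat_lit 6411) (nat_lit 10) (nat_lit 8))
    (@En.n l13320 (nat_lit 1140) (nat_lit 6) (nat_lit 5))
    (@En.n l26226 (nat_lit 9283) (nat_lit 8) (nat_lit 11))
    (@En.n l3535 (nat_lit 6254) (nat_lit 8) (nat_lit 4))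
    (@En.n l152 (nat_lit 481) (nat_lit 10) (nat_lit 11))
    (@En.n l26143 (nat_lit 6267) (nat_lit 10) (nat_lit 4))
    (@En.n l55 (nat_lit 6239) (nat_lit 12) (nat_lit 11))
    (@En.n l4750 (nat_lit 6236) (nat_lit 13) (nat_lit 12))
    (@En.n l5781 (nat_lit 5637) (nat_lit 14) (nat_lit 8))
    (@En.i (nat_lit 8465) (nat_lit 14) (nat_lit 12))
    (@En.n l18 (nat_lit 6331) (nat_lit 15) (nat_lit 2))))
  (@Cl.mk (nat_lit 0x200070003000d000c000a0003000a0004000d0009000600030006000e000d) (nat_lit 0x971020b000088) (nat_lit 16) Lb.e (@T16.mk En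
    (@En.n l5194 (nat_lit 6238) (nat_lit 2) (nat_lit 13))
    (@En.n l5195 (nat_lit 8641) (nat_lit 1) (nat_lit 14))
    (@En.n l640 (nat_lit 6429) (nat_lit 2) (nat_lit 6))
    (@En.n l5196 (nat_lit 6333) (nat_lit 3) (nat_lit 3))
    (@En.i (nat_lit 1137) (nat_lit 0) (nat_lit 6))
    (@En.n l5197 (nat_lit 8876) (nat_lit 5) (nat_lit 9))
    (@En.n l396 (nat_lit 6328) (nat_lit 7) (nat_lit 13))
    (@En.n l28 (nat_lit 6338) (nat_lit 7) (nat_lit 4))
    (@En.n l5198 (nat_lit 476) (nat_lit 9) (nat_lit 10))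
    (@En.n l5199 (nat_lit 6078) (nat_lit 9) (nat_lit 3))
    (@En.n l644 (nat_lit 867) (nat_lit 11) (nat_lit 10))
    (@En.n l77 (nat_lit 6084) (nat_lit 12) (nat_lit 12))
    (@En.n l5197 (nat_lit 5360) (nat_lit 13) (nat_lit 13))
    (@En.n l5195 (nat_lit 6238) (nat_lit 14) (nat_lit 3))
    (@En.n l5197 (nat_lit 6819) (nat_lit 0) (nat_lit 7))
    (@En.n l3 (nat_lit 6332) (nat_lit 15) (nat_lit 2))))
  (@Cl.mk (nat_lit 0x200060003000d000c000b0003000a0004000d0005000a00030006000e000d) (nat_lit 0xb77010b080088) (nat_lit 16) Lb.e (@T16.mk En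
    (@En.n l1708 (nat_lit 6322) (nat_lit 2) (nat_lit 13))
    (@En.n l1063 (nat_lit 8639) (nat_lit 1) (nat_lit 14))
    (@En.n l5372 (nat_lit 2287) (nat_lit 2) (nat_lit 6))
    (@En.n l1683 (nat_lit 6332) (nat_lit 3) (nat_lit 3))
    (@En.n l1897 (nat_lit 9217) (nat_lit 0) (nat_lit 10))
    (@En.i (nat_lit 6335) (nat_lit 5) (nat_lit 5))
    (@En.n l476 (nat_lit 6327) (nat_lit 7) (nat_lit 13))
    (@En.i (nat_lit 6323) (nat_lit 7) (nat_lit 4))
    (@En.i (nat_lit 473) (nat_lit 9) (nat_lit 10))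
    (@En.n l5376 (nat_lit 6080) (nat_lit 9) (nat_lit 3))
    (@En.n l619 (nat_lit 6320) (nat_lit 11) (nat_lit 11))
    (@En.n l1791 (nat_lit 6083) (nat_lit 12) (nat_lit 12))
    (@En.i (nat_lit 4932) (nat_lit 13) (nat_lit 13))
    (@En.n l1063 (nat_lit 6322) (nat_lit 14) (nat_lit 3))
    (@En.i (nat_lit 6732) (nat_lit 0) (nat_lit 6))
    (@En.n l18 (nat_lit 6333) (nat_lit 15) (nat_lit 2))))
  (@Cl.mk (nat_lit 0x30003000c000b000b000a0004000b00050005000b00060005000d000d0005) (nat_lit 0x87920400800240) (nat_lit 16) Lb.e (@T16.mk En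
    (@En.n l829 (nat_lit 7530) (nat_lit 0) (nat_lit 5))
    (@En.n l217 (nat_lit 6408) (nat_lit 3) (nat_lit 13))
    (@En.i (nat_lit 8498) (nat_lit 2) (nat_lit 13))
    (@En.n l7891 (nat_lit 2269) (nat_lit 3) (nat_lit 5))
    (@En.n l15704 (nat_lit 1130) (nat_lit 4) (nat_lit 6))
    (@En.n l5389 (nat_lit 12459) (nat_lit 6) (nat_lit 11))
    (@En.n l16928 (nat_lit 6409) (nat_lit 11) (nat_lit 5))
    (@En.n l387 (nat_lit 4083) (nat_lit 7) (nat_lit 5))
    (@En.i (nat_lit 454) (nat_lit 9) (nat_lit 11))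
    (@En.n l1950 (nat_lit 6336) (nat_lit 9) (nat_lit 4))
    (@En.n l55 (nat_lit 6238) (nat_lit 11) (nat_lit 10))
    (@En.n l1952 (nat_lit 6427) (nat_lit 5) (nat_lit 11))
    (@En.n l1106 (nat_lit 6233) (nat_lit 13) (nat_lit 11))
    (@En.n l2114 (nat_lit 8495) (nat_lit 14) (nat_lit 12))
    (@En.n l1959 (nat_lit 6335) (nat_lit 13) (nat_lit 3))
    (@En.n l50 (nat_lit 6408) (nat_lit 0) (nat_lit 3))))
  (@Cl.mk (nat_lit 0x200060003000c000b000b000a0004000b00050005000a00060005000e000d) (nat_lit 0x8772040000023) (nat_lit 16) Lb.e (@T16.mk En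
    (@En.n l1708 (nat_lit 6334) (nat_lit 2) (nat_lit 13))
    (@En.n l1063 (nat_lit 8679) (nat_lit 1) (nat_lit 14))
    (@En.n l12647 (nat_lit 2267) (nat_lit 2) (nat_lit 5))
    (@En.n l13316 (nat_lit 1129) (nat_lit 3) (nat_lit 6))
    (@En.n l287 (nat_lit 12460) (nat_lit 4) (nat_lit 10))
    (@En.n l5760 (nat_lit 6413) (nat_lit 5) (nat_lit 5))
    (@En.n l1576 (nat_lit 6339) (nat_lit 6) (nat_lit 5))
    (@En.n l14808 (nat_lit 484) (nat_lit 8) (nat_lit 11))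
    (@En.n l936 (nat_lit 6337) (nat_lit 8) (nat_lit 4))
    (@En.n l13321 (nat_lit 6332) (nat_lit 10) (nat_lit 10))
    (@En.n l13322 (nat_lit 6429) (nat_lit 11) (nat_lit 11))
    (@En.n l11899 (nat_lit 6240) (nat_lit 12) (nat_lit 11))
    (@En.i (nat_lit 5357) (nat_lit 13) (nat_lit 12))
    (@En.n l1063 (nat_lit 6334) (nat_lit 14) (nat_lit 3))
    (@En.i (nat_lit 6712) (nat_lit 0) (nat_lit 6))
    (@En.n l18 (nat_lit 6335) (nat_lit 15) (nat_lit 2))))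
noncomputable def a396 : T16 Cl := @T16.mk Cl
  (@Cl.mk (nat_lit 0x30003000c0008000c000c0004000b00040004000b00080005000d000d0005) (nat_lit 0x93830300840000) (nat_lit 16) Lb.e (@T16.mk En
    (@En.n l8305 (nat_lit 6309) (nat_lit 0) (nat_lit 5))
    (@En.n l61 (nat_lit 6415) (nat_lit 3) (nat_lit 13))
    (@En.n l615 (nat_lit 8149) (nat_lit 2) (nat_lit 13))
    (@En.n l11939 (nat_lit 2226) (nat_lit 3) (nat_lit 5))
    (@En.n l14392 (nat_lit 6166) (nat_lit 4) (nat_lit 8))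
    (@En.i (nat_lit 9193) (nat_lit 6) (nat_lit 11))
    (@En.n l737 (nat_lit 6412) (nat_lit 12) (nat_lit 4))
    (@En.n l11940 (nat_lit 6242) (nat_lit 7) (nat_lit 4))
    (@En.n l5809 (nat_lit 555) (nat_lit 9) (nat_lit 11))
    (@En.n l11941 (nat_lit 5940) (nat_lit 9) (nat_lit 4))
    (@En.n l55 (nat_lit 6425) (nat_lit 4) (nat_lit 12))
    (@En.n l615 (nat_lit 6322) (nat_lit 12) (nat_lit 12))
    (@En.n l14392 (nat_lit 1211) (nat_lit 13) (nat_lit 8))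
    (@En.i (nat_lit 8147) (nat_lit 14) (nat_lit 12))
    (@En.n l669 (nat_lit 6337) (nat_lit 13) (nat_lit 3))
    (@En.n l18 (nat_lit 6415) (nat_lit 0) (nat_lit 3))))
  (@Cl.mk (nat_lit 0x200060003000c0008000c000c0004000b00040004000a00080005000e000d) (nat_lit 0x9588030084021) (nat_lit 16) Lb.e (@T16.mk En
    (@En.n l5355 (nat_lit 6336) (nat_lit 2) (nat_lit 13))
    (@En.n l1063 (nat_lit 8718) (nat_lit 1) (nat_lit 14))
    (@En.n l3531 (nat_lit 2229) (nat_lit 2) (nat_lit 5))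
    (@En.n l6825 (nat_lit 6167) (nat_lit 3) (nat_lit 8))
    (@En.n l11989 (nat_lit 9187) (nat_lit 4) (nat_lit 10))
    (@En.n l4487 (nat_lit 6414) (nat_lit 12) (nat_lit 4))
    (@En.n l4559 (nat_lit 6241) (nat_lit 6) (nat_lit 4))
    (@En.n l6825 (nat_lit 557) (nat_lit 8) (nat_lit 11))
    (@En.n l25663 (nat_lit 6082) (nat_lit 8) (nat_lit 4))
    (@En.n l619 (nat_lit 6428) (nat_lit 10) (nat_lit 12))
    (@En.i (nat_lit 6333) (nat_lit 11) (nat_lit 12))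
    (@En.n l12584 (nat_lit 3006) (nat_lit 12) (nat_lit 8))
    (@En.i (nat_lit 5355) (nat_lit 13) (nat_lit 12))
    (@En.n l2705 (nat_lit 6336) (nat_lit 14) (nat_lit 3))
    (@En.i (nat_lit 6702) (nat_lit 0) (nat_lit 6))
    (@En.n l18 (nat_lit 6337) (nat_lit 15) (nat_lit 2))))
  (@Cl.mk (nat_lit 0x200070003000c000c0008000b00040004000d0009000500030008000e000d) (nat_lit 0x5742002400291) (nat_lit 16) Lb.e (@T16.mk En
    (@En.n l3208 (nat_lit 4081) (nat_lit 2) (nat_lit 13))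
    (@En.n l5237 (nat_lit 8325) (nat_lit 1) (nat_lit 14))
    (@En.n l5238 (nat_lit 6339) (nat_lit 2) (nat_lit 8))
    (@En.n l5239 (nat_lit 6323) (nat_lit 3) (nat_lit 3))
    (@En.i (nat_lit 3116) (nat_lit 0) (nat_lit 5))
    (@En.n l1218 (nat_lit 8937) (nat_lit 5) (nat_lit 9))
    (@En.n l2724 (nat_lit 2960) (nat_lit 7) (nat_lit 13))
    (@En.n l911 (nat_lit 6321) (nat_lit 7) (nat_lit 4))
    (@En.i (nat_lit 6084) (nat_lit 8) (nat_lit 4))
    (@En.i (nat_lit 4104) (nat_lit 10) (nat_lit 11))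
    (@En.n l414 (nat_lit 6328) (nat_lit 11) (nat_lit 8))
    (@En.n l134 (nat_lit 4079) (nat_lit 12) (nat_lit 12))
    (@En.n l11 (nat_lit 9799) (nat_lit 13) (nat_lit 12))
    (@En.n l5240 (nat_lit 4081) (nat_lit 14) (nat_lit 3))
    (@En.n l5241 (nat_lit 6343) (nat_lit 0) (nat_lit 7))
    (@En.n l3 (nat_lit 6338) (nat_lit 15) (nat_lit 2))))
  (@Cl.mk (nat_lit 0x200060003000b000b0008000c000b000500050004000a00050008000e000d) (nat_lit 0x514a300040191) (nat_lit 16) Lb.e (@T16.mk En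
    (@En.n l12469 (nat_lit 4083) (nat_lit 2) (nat_lit 13))
    (@En.n l12470 (nat_lit 8648) (nat_lit 1) (nat_lit 14))
    (@En.n l1915 (nat_lit 3601) (nat_lit 2) (nat_lit 8))
    (@En.n l12471 (nat_lit 3115) (nat_lit 3) (nat_lit 5))
    (@En.n l12472 (nat_lit 8936) (nat_lit 4) (nat_lit 10))
    (@En.n l12473 (nat_lit 4492) (nat_lit 5) (nat_lit 4))
    (@En.n l4941 (nat_lit 6320) (nat_lit 6) (nat_lit 5))
    (@En.n l12474 (nat_lit 6241) (nat_lit 7) (nat_lit 5))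
    (@En.n l12475 (nat_lit 6338) (nat_lit 9) (nat_lit 11))
    (@En.n l12471 (nat_lit 3823) (nat_lit 10) (nat_lit 12))
    (@En.n l12476 (nat_lit 6330) (nat_lit 11) (nat_lit 8))
    (@En.n l1316 (nat_lit 4078) (nat_lit 5) (nat_lit 11))
    (@En.n l4942 (nat_lit 9798) (nat_lit 13) (nat_lit 11))
    (@En.n l12477 (nat_lit 4083) (nat_lit 14) (nat_lit 3))
    (@En.n l4942 (nat_lit 6342) (nat_lit 0) (nat_lit 6))
    (@En.n l3 (nat_lit 6339) (nat_lit 15) (nat_lit 2))))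
  (@Cl.mk (nat_lit 0x20006000b000b0007000c000a000500050004000b000a00060009000e0005) (nat_lit 0x89034000950300) (nat_lit 16) Lb.e (@T16.mk En
    (@En.n l15800 (nat_lit 5883) (nat_lit 9) (nat_lit 5))
    (@En.n l287 (nat_lit 8585) (nat_lit 1) (nat_lit 14))
    (@En.n l1282 (nat_lit 3609) (nat_lit 2) (nat_lit 9))
    (@En.n l24759 (nat_lit 6875) (nat_lit 3) (nat_lit 6))
    (@En.n l24722 (nat_lit 6339) (nat_lit 4) (nat_lit 10))
    (@En.n l24760 (nat_lit 7105) (nat_lit 6) (nat_lit 11))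
    (@En.n l15803 (nat_lit 4430) (nat_lit 6) (nat_lit 4))
    (@En.n l5761 (nat_lit 6769) (nat_lit 7) (nat_lit 5))
    (@En.n l24761 (nat_lit 4427) (nat_lit 8) (nat_lit 5))
    (@En.n l18183 (nat_lit 6341) (nat_lit 10) (nat_lit 10))
    (@En.n l55 (nat_lit 2667) (nat_lit 11) (nat_lit 12))
    (@En.n l1282 (nat_lit 7529) (nat_lit 12) (nat_lit 7))
    (@En.n l5579 (nat_lit 7795) (nat_lit 5) (nat_lit 11))
    (@En.n l24762 (nat_lit 7471) (nat_lit 14) (nat_lit 11))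
    (@En.n l24763 (nat_lit 6345) (nat_lit 13) (nat_lit 6))
    (@En.n l18 (nat_lit 6340) (nat_lit 15) (nat_lit 2))))
  (@Cl.mk (nat_lit 0x20007000c000c0007000a00040004000c000a0009000600040009000e0006) (nat_lit 0x90030098500410) (nat_lit 16) Lb.e (@T16.mk En
    (@En.n l20891 (nat_lit 5884) (nat_lit 6) (nat_lit 6))
    (@En.n l2842 (nat_lit 6253) (nat_lit 1) (nat_lit 14))
    (@En.n l20892 (nat_lit 6340) (nat_lit 2) (nat_lit 9))
    (@En.n l20893 (nat_lit 6308) (nat_lit 3) (nat_lit 4))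
    (@En.n l2054 (nat_lit 6874) (nat_lit 4) (nat_lit 6))
    (@En.i (nat_lit 6338) (nat_lit 5) (nat_lit 9))
    (@En.n l1218 (nat_lit 7098) (nat_lit 7) (nat_lit 10))
    (@En.n l2724 (nat_lit 6447) (nat_lit 8) (nat_lit 12))
    (@En.n l20894 (nat_lit 6770) (nat_lit 8) (nat_lit 4))
    (@En.n l916 (nat_lit 7496) (nat_lit 9) (nat_lit 4))
    (@En.i (nat_lit 3275) (nat_lit 11) (nat_lit 10))
    (@En.n l414 (nat_lit 7528) (nat_lit 12) (nat_lit 7))
    (@En.n l3918 (nat_lit 7794) (nat_lit 13) (nat_lit 12))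
    (@En.n l20895 (nat_lit 9449) (nat_lit 14) (nat_lit 12))
    (@En.n l20896 (nat_lit 6344) (nat_lit 4) (nat_lit 7))
    (@En.n l3 (nat_lit 6341) (nat_lit 15) (nat_lit 2))))
  (@Cl.mk (nat_lit 0x2000b000b0007000c000a000500050004000a000d000600090003000e0006) (nat_lit 0x10140000006010) (nat_lit 16) Lb.e (@T16.mk En
    (@En.n l3173 (nat_lit 6345) (nat_lit 14) (nat_lit 6))
    (@En.n l622 (nat_lit 6340) (nat_lit 1) (nat_lit 14))
    (@En.n l439 (nat_lit 6754) (nat_lit 2) (nat_lit 3))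
    (@En.n l920 (nat_lit 2684) (nat_lit 9) (nat_lit 9))
    (@En.n l2150 (nat_lit 8220) (nat_lit 4) (nat_lit 6))
    (@En.i (nat_lit 13310) (nat_lit 5) (nat_lit 13))
    (@En.n l287 (nat_lit 7400) (nat_lit 7) (nat_lit 10))
    (@En.n l20366 (nat_lit 6678) (nat_lit 7) (nat_lit 4))
    (@En.n l152 (nat_lit 6351) (nat_lit 11) (nat_lit 5))
    (@En.n l20367 (nat_lit 6681) (nat_lit 9) (nat_lit 5))
    (@En.n l55 (nat_lit 6343) (nat_lit 11) (nat_lit 10))
    (@En.n l20367 (nat_lit 2240) (nat_lit 12) (nat_lit 12))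
    (@En.i (nat_lit 6815) (nat_lit 13) (nat_lit 7))
    (@En.n l1576 (nat_lit 3458) (nat_lit 5) (nat_lit 11))
    (@En.i (nat_lit 11113) (nat_lit 12) (nat_lit 11))
    (@En.n l17 (nat_lit 6342) (nat_lit 15) (nat_lit 2))))
  (@Cl.mk (nat_lit 0x2000c000c0007000a00040004000c0009000c0006000400090004000e0007) (nat_lit 0x10300600007020) (nat_lit 16) Lb.e (@T16.mk En
    (@En.n l8790 (nat_lit 6344) (nat_lit 5) (nat_lit 7))
    (@En.n l8791 (nat_lit 6341) (nat_lit 1) (nat_lit 14))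
    (@En.n l3726 (nat_lit 2168) (nat_lit 2) (nat_lit 4))
    (@En.n l343 (nat_lit 6342) (nat_lit 3) (nat_lit 9))
    (@En.n l28 (nat_lit 6744) (nat_lit 4) (nat_lit 4))
    (@En.n l310 (nat_lit 8219) (nat_lit 5) (nat_lit 6))
    (@En.i (nat_lit 13312) (nat_lit 6) (nat_lit 12))
    (@En.n l8792 (nat_lit 7395) (nat_lit 8) (nat_lit 9))
    (@En.n l515 (nat_lit 6898) (nat_lit 9) (nat_lit 12))
    (@En.n l152 (nat_lit 6350) (nat_lit 12) (nat_lit 4))
    (@En.n l1790 (nat_lit 6828) (nat_lit 10) (nat_lit 4))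
    (@En.n l310 (nat_lit 2127) (nat_lit 8) (nat_lit 10))
    (@En.i (nat_lit 6817) (nat_lit 13) (nat_lit 7))
    (@En.n l5206 (nat_lit 3459) (nat_lit 14) (nat_lit 12))
    (@En.n l517 (nat_lit 11118) (nat_lit 3) (nat_lit 12))
    (@En.n l17 (nat_lit 6343) (nat_lit 15) (nat_lit 2))))
  (@Cl.mk (nat_lit 0x40004000b00090009000c00070005000a000400070007000c000c00060009) (nat_lit 0x60110040000103) (nat_lit 16) Lb.e (@T16.mk En
    (@En.n l20882 (nat_lit 2126) (nat_lit 9) (nat_lit 9))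
    (@En.n l20883 (nat_lit 6816) (nat_lit 1) (nat_lit 6))
    (@En.n l619 (nat_lit 3461) (nat_lit 4) (nat_lit 12))
    (@En.n l20884 (nat_lit 11120) (nat_lit 13) (nat_lit 12))
    (@En.n l77 (nat_lit 6346) (nat_lit 9) (nat_lit 7))
    (@En.i (nat_lit 6575) (nat_lit 11) (nat_lit 7))
    (@En.n l4816 (nat_lit 2164) (nat_lit 6) (nat_lit 4))
    (@En.n l15743 (nat_lit 6345) (nat_lit 0) (nat_lit 10))
    (@En.n l20885 (nat_lit 6741) (nat_lit 1) (nat_lit 5))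
    (@En.n l20886 (nat_lit 8223) (nat_lit 0) (nat_lit 7))
    (@En.n l20887 (nat_lit 6343) (nat_lit 6) (nat_lit 12))
    (@En.n l20888 (nat_lit 6343) (nat_lit 7) (nat_lit 9))
    (@En.n l20882 (nat_lit 7394) (nat_lit 13) (nat_lit 9))
    (@En.n l20889 (nat_lit 6840) (nat_lit 14) (nat_lit 11))
    (@En.n l8864 (nat_lit 6348) (nat_lit 12) (nat_lit 4))
    (@En.n l20890 (nat_lit 6826) (nat_lit 0) (nat_lit 4))))
  (@Cl.mk (nat_lit 0x300060006000b000b0006000c0009000500050004000a000a000d0007000a) (nat_lit 0x101400001103) (nat_lit 16) Lb.e (@T16.mk En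
    (@En.n l158 (nat_lit 2629) (nat_lit 0) (nat_lit 10))
    (@En.n l9334 (nat_lit 8224) (nat_lit 2) (nat_lit 7))
    (@En.n l9335 (nat_lit 6342) (nat_lit 5) (nat_lit 13))
    (@En.n l9336 (nat_lit 6342) (nat_lit 6) (nat_lit 10))
    (@En.n l9337 (nat_lit 9414) (nat_lit 4) (nat_lit 10))
    (@En.n l2738 (nat_lit 5395) (nat_lit 5) (nat_lit 4))
    (@En.n l9338 (nat_lit 6349) (nat_lit 11) (nat_lit 5))
    (@En.i (nat_lit 6654) (nat_lit 7) (nat_lit 5))
    (@En.n l9339 (nat_lit 6344) (nat_lit 0) (nat_lit 9))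
    (@En.n l9340 (nat_lit 2239) (nat_lit 10) (nat_lit 12))
    (@En.n l9341 (nat_lit 6814) (nat_lit 11) (nat_lit 6))
    (@En.n l9342 (nat_lit 3460) (nat_lit 5) (nat_lit 11))
    (@En.i (nat_lit 11112) (nat_lit 13) (nat_lit 11))
    (@En.n l17 (nat_lit 6347) (nat_lit 10) (nat_lit 6))
    (@En.i (nat_lit 6763) (nat_lit 12) (nat_lit 6))
    (@En.n l9343 (nat_lit 6755) (nat_lit 15) (nat_lit 3))))
  (@Cl.mk (nat_lit 0x2000c00080006000b00040007000c000c0005000800040004000a000e0009) (nat_lit 0x250900010300651) (nat_lit 16) Lb.e (@T16.mk En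
    (@En.i (nat_lit 6344) (nat_lit 12) (nat_lit 9))
    (@En.i (nat_lit 4700) (nat_lit 1) (nat_lit 14))
    (@En.n l4813 (nat_lit 6841) (nat_lit 2) (nat_lit 10))
    (@En.n l8861 (nat_lit 6759) (nat_lit 12) (nat_lit 4))
    (@En.n l4817 (nat_lit 6829) (nat_lit 4) (nat_lit 4))
    (@En.n l9591 (nat_lit 2131) (nat_lit 10) (nat_lit 8))
    (@En.n l1865 (nat_lit 6820) (nat_lit 6) (nat_lit 5))
    (@En.n l619 (nat_lit 3463) (nat_lit 4) (nat_lit 12))
    (@En.n l10970 (nat_lit 9283) (nat_lit 9) (nat_lit 12))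
    (@En.i (nat_lit 7205) (nat_lit 11) (nat_lit 7))
    (@En.n l4816 (nat_lit 2838) (nat_lit 10) (nat_lit 4))
    (@En.n l4817 (nat_lit 6347) (nat_lit 12) (nat_lit 11))
    (@En.n l10971 (nat_lit 6742) (nat_lit 13) (nat_lit 6))
    (@En.n l639 (nat_lit 7650) (nat_lit 14) (nat_lit 8))
    (@En.n l4172 (nat_lit 6344) (nat_lit 10) (nat_lit 12))
    (@En.n l7 (nat_lit 6346) (nat_lit 15) (nat_lit 2))))
  (@Cl.mk (nat_lit 0x2000d0008000b00030006000b000b0005000c0008000500050004000e000a) (nat_lit 0x248000101400061) (nat_lit 16) Lb.e (@T16.mk En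
    (@En.n l5 (nat_lit 6345) (nat_lit 4) (nat_lit 10))
    (@En.n l3955 (nat_lit 3422) (nat_lit 1) (nat_lit 14))
    (@En.n l2738 (nat_lit 5398) (nat_lit 2) (nat_lit 4))
    (@En.n l3956 (nat_lit 6758) (nat_lit 11) (nat_lit 5))
    (@En.i (nat_lit 6689) (nat_lit 4) (nat_lit 5))
    (@En.n l1553 (nat_lit 6346) (nat_lit 5) (nat_lit 8))
    (@En.n l1554 (nat_lit 2238) (nat_lit 7) (nat_lit 12))
    (@En.i (nat_lit 6779) (nat_lit 7) (nat_lit 5))
    (@En.n l3957 (nat_lit 3462) (nat_lit 5) (nat_lit 11))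
    (@En.i (nat_lit 9287) (nat_lit 10) (nat_lit 11))
    (@En.i (nat_lit 7373) (nat_lit 12) (nat_lit 6))
    (@En.n l1455 (nat_lit 6786) (nat_lit 11) (nat_lit 3))
    (@En.n l158 (nat_lit 2630) (nat_lit 0) (nat_lit 11))
    (@En.i (nat_lit 7651) (nat_lit 14) (nat_lit 8))
    (@En.i (nat_lit 6345) (nat_lit 2) (nat_lit 13))
    (@En.n l18 (nat_lit 6347) (nat_lit 15) (nat_lit 2))))
  (@Cl.mk (nat_lit 0x20007000a0004000b00090009000c000600050009000400070007000e000c) (nat_lit 0x40600000500091) (nat_lit 16) Lb.e (@T16.mk En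
    (@En.n l9355 (nat_lit 6344) (nat_lit 3) (nat_lit 12))
    (@En.n l1803 (nat_lit 12189) (nat_lit 1) (nat_lit 14))
    (@En.n l9356 (nat_lit 6759) (nat_lit 2) (nat_lit 7))
    (@En.n l9357 (nat_lit 6761) (nat_lit 3) (nat_lit 7))
    (@En.n l3480 (nat_lit 2160) (nat_lit 4) (nat_lit 4))
    (@En.n l9358 (nat_lit 6349) (nat_lit 5) (nat_lit 9))
    (@En.n l9359 (nat_lit 6749) (nat_lit 6) (nat_lit 5))
    (@En.n l9360 (nat_lit 8222) (nat_lit 7) (nat_lit 6))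
    (@En.n l9361 (nat_lit 6350) (nat_lit 9) (nat_lit 12))
    (@En.n l9362 (nat_lit 6350) (nat_lit 10) (nat_lit 9))
    (@En.i (nat_lit 9580) (nat_lit 11) (nat_lit 9))
    (@En.i (nat_lit 5194) (nat_lit 12) (nat_lit 11))
    (@En.n l9363 (nat_lit 6818) (nat_lit 13) (nat_lit 4))
    (@En.i (nat_lit 2130) (nat_lit 8) (nat_lit 10))
    (@En.n l1803 (nat_lit 1043) (nat_lit 1) (nat_lit 7))
    (@En.n l7 (nat_lit 6348) (nat_lit 15) (nat_lit 2))))
  (@Cl.mk (nat_lit 0x20007000d000a00050003000a000a000d00060009000300060006000e000b) (nat_lit 0x35000000400081) (nat_lit 16) Lb.e (@T16.mk En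
    (@En.n l3173 (nat_lit 6345) (nat_lit 12) (nat_lit 11))
    (@En.i (nat_lit 12183) (nat_lit 1) (nat_lit 14))
    (@En.n l2139 (nat_lit 6758) (nat_lit 2) (nat_lit 6))
    (@En.n l2180 (nat_lit 6760) (nat_lit 3) (nat_lit 6))
    (@En.n l3174 (nat_lit 6752) (nat_lit 4) (nat_lit 3))
    (@En.n l921 (nat_lit 2501) (nat_lit 0) (nat_lit 9))
    (@En.n l3175 (nat_lit 8221) (nat_lit 6) (nat_lit 6))
    (@En.n l18 (nat_lit 6351) (nat_lit 8) (nat_lit 13))
    (@En.n l61 (nat_lit 6351) (nat_lit 9) (nat_lit 10))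
    (@En.n l287 (nat_lit 9582) (nat_lit 10) (nat_lit 10))
    (@En.n l11 (nat_lit 6749) (nat_lit 10) (nat_lit 3))
    (@En.n l3176 (nat_lit 6707) (nat_lit 0) (nat_lit 5))
    (@En.n l3177 (nat_lit 6348) (nat_lit 13) (nat_lit 10))
    (@En.n l3178 (nat_lit 2248) (nat_lit 14) (nat_lit 13))
    (@En.i (nat_lit 1034) (nat_lit 3) (nat_lit 7))
    (@En.n l3 (nat_lit 6349) (nat_lit 15) (nat_lit 2))))
  (@Cl.mk (nat_lit 0x20008000b0004000c0009000c0005000400080004000e00070002000e000c) (nat_lit 0x14067a006040091) (nat_lit 16) Lb.e (@T16.mk En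
    (@En.i (nat_lit 6343) (nat_lit 14) (nat_lit 12))
    (@En.i (nat_lit 12185) (nat_lit 1) (nat_lit 14))
    (@En.n l17 (nat_lit 6350) (nat_lit 2) (nat_lit 2))
    (@En.n l3724 (nat_lit 6348) (nat_lit 3) (nat_lit 7))
    (@En.n l3725 (nat_lit 6770) (nat_lit 1) (nat_lit 14))
    (@En.n l3726 (nat_lit 2161) (nat_lit 5) (nat_lit 4))
    (@En.n l343 (nat_lit 6351) (nat_lit 6) (nat_lit 8))
    (@En.n l28 (nat_lit 6750) (nat_lit 7) (nat_lit 4))
    (@En.i (nat_lit 8216) (nat_lit 8) (nat_lit 5))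
    (@En.i (nat_lit 13107) (nat_lit 6) (nat_lit 12))
    (@En.n l3724 (nat_lit 9578) (nat_lit 11) (nat_lit 9))
    (@En.i (nat_lit 5133) (nat_lit 12) (nat_lit 12))
    (@En.n l117 (nat_lit 6819) (nat_lit 9) (nat_lit 4))
    (@En.n l3724 (nat_lit 2129) (nat_lit 7) (nat_lit 11))
    (@En.i (nat_lit 1036) (nat_lit 12) (nat_lit 8))
    (@En.n l3 (nat_lit 6350) (nat_lit 15) (nat_lit 2))))
  (@Cl.mk (nat_lit 0x20008000d000b00050003000a000d000500080003000e00060002000e000b) (nat_lit 0x125008b05030081) (nat_lit 16) Lb.e (@T16.mk En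
    (@En.i (nat_lit 6342) (nat_lit 14) (nat_lit 11))
    (@En.i (nat_lit 12180) (nat_lit 1) (nat_lit 14))
    (@En.n l17 (nat_lit 6351) (nat_lit 2) (nat_lit 2))
    (@En.i (nat_lit 6349) (nat_lit 3) (nat_lit 6))
    (@En.n l1708 (nat_lit 6769) (nat_lit 1) (nat_lit 14))
    (@En.n l439 (nat_lit 6753) (nat_lit 5) (nat_lit 3))
    (@En.i (nat_lit 2562) (nat_lit 10) (nat_lit 8))
    (@En.n l2150 (nat_lit 8217) (nat_lit 7) (nat_lit 5))
    (@En.i (nat_lit 13106) (nat_lit 5) (nat_lit 13))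
    (@En.n l287 (nat_lit 9581) (nat_lit 10) (nat_lit 10))
    (@En.n l11 (nat_lit 6750) (nat_lit 10) (nat_lit 3))
    (@En.n l3176 (nat_lit 6706) (nat_lit 0) (nat_lit 5))
    (@En.n l55 (nat_lit 6350) (nat_lit 13) (nat_lit 11))
    (@En.n l2044 (nat_lit 2249) (nat_lit 14) (nat_lit 13))
    (@En.i (nat_lit 1033) (nat_lit 12) (nat_lit 8))
    (@En.n l3 (nat_lit 6351) (nat_lit 15) (nat_lit 2))))
noncomputable def a397 : T16 Cl := @T16.mk Cl
  (@Cl.mk (nat_lit 0x20007000b0007000c0008000b00050004000a0009000500090008000e0006) (nat_lit 0x701140071014c0) (nat_lit 16) Lb.e (@T16.mk En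
    (@En.n l4110 (nat_lit 6353) (nat_lit 8) (nat_lit 6))
    (@En.n l37466 (nat_lit 11172) (nat_lit 1) (nat_lit 14))
    (@En.n l37467 (nat_lit 4432) (nat_lit 2) (nat_lit 8))
    (@En.i (nat_lit 4428) (nat_lit 3) (nat_lit 9))
    (@En.n l22232 (nat_lit 7931) (nat_lit 4) (nat_lit 5))
    (@En.n l3696 (nat_lit 4495) (nat_lit 5) (nat_lit 9))
    (@En.n l24868 (nat_lit 11947) (nat_lit 7) (nat_lit 10))
    (@En.n l37468 (nat_lit 6306) (nat_lit 7) (nat_lit 4))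
    (@En.n l37469 (nat_lit 5914) (nat_lit 8) (nat_lit 5))
    (@En.n l37470 (nat_lit 5717) (nat_lit 10) (nat_lit 11))
    (@En.n l97 (nat_lit 1763) (nat_lit 11) (nat_lit 8))
    (@En.n l35819 (nat_lit 6341) (nat_lit 12) (nat_lit 12))
    (@En.n l37471 (nat_lit 5432) (nat_lit 13) (nat_lit 7))
    (@En.n l24868 (nat_lit 7468) (nat_lit 14) (nat_lit 11))
    (@En.n l11538 (nat_lit 5388) (nat_lit 13) (nat_lit 7))
    (@En.n l7 (nat_lit 6352) (nat_lit 15) (nat_lit 2))))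
  (@Cl.mk (nat_lit 0x4000a000a000a0006000a0009000600060006000b0006000c0007000a0005) (nat_lit 0x82045000607040) (nat_lit 16) Lb.e (@T16.mk En
    (@En.n l37781 (nat_lit 5916) (nat_lit 0) (nat_lit 5))
    (@En.n l37782 (nat_lit 5719) (nat_lit 8) (nat_lit 10))
    (@En.n l16413 (nat_lit 1572) (nat_lit 1) (nat_lit 7))
    (@En.n l37781 (nat_lit 5884) (nat_lit 2) (nat_lit 12))
    (@En.n l37783 (nat_lit 5435) (nat_lit 4) (nat_lit 6))
    (@En.n l15628 (nat_lit 9491) (nat_lit 9) (nat_lit 11))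
    (@En.n l37784 (nat_lit 4441) (nat_lit 10) (nat_lit 6))
    (@En.n l37785 (nat_lit 6356) (nat_lit 10) (nat_lit 6))
    (@En.i (nat_lit 9735) (nat_lit 8) (nat_lit 6))
    (@En.n l37786 (nat_lit 6354) (nat_lit 7) (nat_lit 9))
    (@En.i (nat_lit 4433) (nat_lit 9) (nat_lit 10))
    (@En.n l37787 (nat_lit 11224) (nat_lit 2) (nat_lit 6))
    (@En.n l37788 (nat_lit 6251) (nat_lit 6) (nat_lit 10))
    (@En.n l2281 (nat_lit 6352) (nat_lit 6) (nat_lit 10))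
    (@En.n l15628 (nat_lit 9851) (nat_lit 11) (nat_lit 10))
    (@En.n l9824 (nat_lit 6301) (nat_lit 12) (nat_lit 4))))
  (@Cl.mk (nat_lit 0x3000a00060005000b000b000b00060009000500050005000a000d000b0007) (nat_lit 0x500012040005a20) (nat_lit 16) Lb.e (@T16.mk En
    (@En.n l5643 (nat_lit 1576) (nat_lit 0) (nat_lit 7))
    (@En.n l28937 (nat_lit 5883) (nat_lit 5) (nat_lit 11))
    (@En.i (nat_lit 8026) (nat_lit 5) (nat_lit 13))
    (@En.n l5801 (nat_lit 9489) (nat_lit 3) (nat_lit 10))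
    (@En.n l11407 (nat_lit 4440) (nat_lit 11) (nat_lit 5))
    (@En.n l28938 (nat_lit 6357) (nat_lit 11) (nat_lit 5))
    (@En.n l24725 (nat_lit 8591) (nat_lit 6) (nat_lit 5))
    (@En.n l5643 (nat_lit 2221) (nat_lit 9) (nat_lit 9))
    (@En.n l5912 (nat_lit 7932) (nat_lit 8) (nat_lit 6))
    (@En.n l742 (nat_lit 6250) (nat_lit 5) (nat_lit 11))
    (@En.n l11408 (nat_lit 4432) (nat_lit 5) (nat_lit 11))
    (@En.n l5801 (nat_lit 10963) (nat_lit 12) (nat_lit 11))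
    (@En.n l7419 (nat_lit 6300) (nat_lit 11) (nat_lit 5))
    (@En.n l14950 (nat_lit 4433) (nat_lit 14) (nat_lit 6))
    (@En.n l24725 (nat_lit 6353) (nat_lit 1) (nat_lit 10))
    (@En.n l28939 (nat_lit 6355) (nat_lit 15) (nat_lit 3))))
  (@Cl.mk (nat_lit 0x3000a00060004000b000b000b0006000a000500050005000a000d0006000c) (nat_lit 0x500012040005901) (nat_lit 16) Lb.e (@T16.mk En
    (@En.n l15121 (nat_lit 1380) (nat_lit 0) (nat_lit 12))
    (@En.n l19174 (nat_lit 6353) (nat_lit 4) (nat_lit 6))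
    (@En.i (nat_lit 8024) (nat_lit 5) (nat_lit 13))
    (@En.n l30700 (nat_lit 9490) (nat_lit 3) (nat_lit 10))
    (@En.n l30701 (nat_lit 4439) (nat_lit 11) (nat_lit 5))
    (@En.n l575 (nat_lit 6358) (nat_lit 11) (nat_lit 5))
    (@En.n l5399 (nat_lit 9750) (nat_lit 6) (nat_lit 5))
    (@En.n l3872 (nat_lit 4394) (nat_lit 9) (nat_lit 10))
    (@En.n l30702 (nat_lit 7933) (nat_lit 8) (nat_lit 6))
    (@En.n l565 (nat_lit 6248) (nat_lit 5) (nat_lit 11))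
    (@En.n l5402 (nat_lit 4430) (nat_lit 5) (nat_lit 11))
    (@En.n l24721 (nat_lit 11498) (nat_lit 12) (nat_lit 11))
    (@En.n l30703 (nat_lit 5888) (nat_lit 12) (nat_lit 4))
    (@En.n l30704 (nat_lit 4431) (nat_lit 14) (nat_lit 6))
    (@En.n l30705 (nat_lit 5607) (nat_lit 1) (nat_lit 10))
    (@En.n l10798 (nat_lit 6354) (nat_lit 15) (nat_lit 3))))
  (@Cl.mk (nat_lit 0x2000b0007000b000a00060005000b0005000c0006000900050004000e000a) (nat_lit 0x105600506040041) (nat_lit 16) Lb.e (@T16.mk En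
    (@En.n l22304 (nat_lit 6353) (nat_lit 14) (nat_lit 10))
    (@En.n l1306 (nat_lit 9839) (nat_lit 1) (nat_lit 14))
    (@En.n l28 (nat_lit 7148) (nat_lit 2) (nat_lit 4))
    (@En.n l502 (nat_lit 6361) (nat_lit 3) (nat_lit 5))
    (@En.i (nat_lit 7995) (nat_lit 9) (nat_lit 9))
    (@En.n l9493 (nat_lit 1569) (nat_lit 5) (nat_lit 6))
    (@En.n l4426 (nat_lit 6365) (nat_lit 7) (nat_lit 12))
    (@En.n l4427 (nat_lit 7727) (nat_lit 7) (nat_lit 5))
    (@En.n l22305 (nat_lit 9500) (nat_lit 9) (nat_lit 11))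
    (@En.i (nat_lit 7280) (nat_lit 9) (nat_lit 5))
    (@En.n l22304 (nat_lit 10178) (nat_lit 11) (nat_lit 6))
    (@En.n l4428 (nat_lit 6357) (nat_lit 12) (nat_lit 10))
    (@En.n l22304 (nat_lit 6359) (nat_lit 13) (nat_lit 11))
    (@En.n l22306 (nat_lit 11223) (nat_lit 14) (nat_lit 7))
    (@En.n l18 (nat_lit 5473) (nat_lit 12) (nat_lit 11))
    (@En.n l50 (nat_lit 6356) (nat_lit 15) (nat_lit 2))))
  (@Cl.mk (nat_lit 0x2000c0007000a00050004000a000d000b00060003000900060005000e000b) (nat_lit 0x305004a20050081) (nat_lit 16) Lb.e (@T16.mk En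
    (@En.n l14747 (nat_lit 6354) (nat_lit 11) (nat_lit 11))
    (@En.n l14748 (nat_lit 7191) (nat_lit 1) (nat_lit 14))
    (@En.i (nat_lit 7584) (nat_lit 2) (nat_lit 5))
    (@En.n l14749 (nat_lit 6359) (nat_lit 3) (nat_lit 6))
    (@En.n l4819 (nat_lit 6356) (nat_lit 4) (nat_lit 9))
    (@En.n l3536 (nat_lit 6358) (nat_lit 5) (nat_lit 3))
    (@En.n l14750 (nat_lit 1570) (nat_lit 0) (nat_lit 6))
    (@En.n l68 (nat_lit 6363) (nat_lit 8) (nat_lit 11))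
    (@En.n l3866 (nat_lit 8028) (nat_lit 5) (nat_lit 13))
    (@En.n l8832 (nat_lit 9493) (nat_lit 10) (nat_lit 10))
    (@En.i (nat_lit 6993) (nat_lit 10) (nat_lit 4))
    (@En.n l14751 (nat_lit 10171) (nat_lit 5) (nat_lit 5))
    (@En.n l14750 (nat_lit 2217) (nat_lit 8) (nat_lit 10))
    (@En.n l14752 (nat_lit 11220) (nat_lit 14) (nat_lit 7))
    (@En.n l14753 (nat_lit 5489) (nat_lit 9) (nat_lit 12))
    (@En.n l7 (nat_lit 6357) (nat_lit 15) (nat_lit 2))))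
  (@Cl.mk (nat_lit 0x2000c0007000b00050004000a000d0005000c0003000900060004000e000b) (nat_lit 0x305004a02050081) (nat_lit 16) Lb.e (@T16.mk En
    (@En.i (nat_lit 6355) (nat_lit 11) (nat_lit 11))
    (@En.i (nat_lit 9881) (nat_lit 1) (nat_lit 14))
    (@En.n l3480 (nat_lit 6364) (nat_lit 2) (nat_lit 4))
    (@En.n l15957 (nat_lit 6360) (nat_lit 3) (nat_lit 6))
    (@En.n l9182 (nat_lit 7993) (nat_lit 4) (nat_lit 9))
    (@En.n l6081 (nat_lit 6357) (nat_lit 5) (nat_lit 3))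
    (@En.n l15958 (nat_lit 1374) (nat_lit 0) (nat_lit 12))
    (@En.n l13633 (nat_lit 6356) (nat_lit 7) (nat_lit 5))
    (@En.i (nat_lit 8027) (nat_lit 5) (nat_lit 13))
    (@En.n l15959 (nat_lit 9497) (nat_lit 10) (nat_lit 10))
    (@En.i (nat_lit 6986) (nat_lit 10) (nat_lit 4))
    (@En.i (nat_lit 10170) (nat_lit 5) (nat_lit 5))
    (@En.n l6758 (nat_lit 4399) (nat_lit 13) (nat_lit 11))
    (@En.n l810 (nat_lit 11219) (nat_lit 14) (nat_lit 7))
    (@En.n l28 (nat_lit 5488) (nat_lit 9) (nat_lit 12))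
    (@En.n l11 (nat_lit 6358) (nat_lit 15) (nat_lit 2))))
  (@Cl.mk (nat_lit 0x2000c000b000900050004000a0005000d000c0007000300060004000e000b) (nat_lit 0x3450040b9000081) (nat_lit 16) Lb.e (@T16.mk En
    (@En.i (nat_lit 4433) (nat_lit 12) (nat_lit 11))
    (@En.i (nat_lit 9880) (nat_lit 1) (nat_lit 14))
    (@En.n l2258 (nat_lit 7641) (nat_lit 2) (nat_lit 4))
    (@En.i (nat_lit 6295) (nat_lit 3) (nat_lit 6))
    (@En.n l1651 (nat_lit 6360) (nat_lit 4) (nat_lit 3))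
    (@En.n l6625 (nat_lit 1567) (nat_lit 0) (nat_lit 7))
    (@En.n l1236 (nat_lit 6362) (nat_lit 7) (nat_lit 12))
    (@En.n l2258 (nat_lit 6357) (nat_lit 8) (nat_lit 13))
    (@En.n l6626 (nat_lit 4565) (nat_lit 8) (nat_lit 5))
    (@En.n l6627 (nat_lit 9499) (nat_lit 10) (nat_lit 10))
    (@En.n l6628 (nat_lit 6992) (nat_lit 10) (nat_lit 4))
    (@En.i (nat_lit 10165) (nat_lit 6) (nat_lit 5))
    (@En.n l6629 (nat_lit 2209) (nat_lit 13) (nat_lit 9))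
    (@En.n l217 (nat_lit 10236) (nat_lit 14) (nat_lit 11))
    (@En.n l6630 (nat_lit 5467) (nat_lit 10) (nat_lit 12))
    (@En.n l28 (nat_lit 6359) (nat_lit 15) (nat_lit 2))))
  (@Cl.mk (nat_lit 0x2000c000b000a00050004000a0005000d0006000d000300060003000e000b) (nat_lit 0x1750040b01000c1) (nat_lit 16) Lb.e (@T16.mk En
    (@En.n l16450 (nat_lit 4431) (nat_lit 12) (nat_lit 11))
    (@En.i (nat_lit 9882) (nat_lit 1) (nat_lit 14))
    (@En.n l16451 (nat_lit 6362) (nat_lit 2) (nat_lit 3))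
    (@En.n l387 (nat_lit 5704) (nat_lit 12) (nat_lit 6))
    (@En.n l6373 (nat_lit 6359) (nat_lit 4) (nat_lit 3))
    (@En.n l7294 (nat_lit 1369) (nat_lit 0) (nat_lit 13))
    (@En.n l28 (nat_lit 6361) (nat_lit 6) (nat_lit 6))
    (@En.n l11835 (nat_lit 6358) (nat_lit 8) (nat_lit 13))
    (@En.n l28 (nat_lit 4564) (nat_lit 8) (nat_lit 5))
    (@En.n l10852 (nat_lit 8077) (nat_lit 10) (nat_lit 10))
    (@En.i (nat_lit 6987) (nat_lit 10) (nat_lit 4))
    (@En.n l14740 (nat_lit 10163) (nat_lit 6) (nat_lit 5))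
    (@En.n l457 (nat_lit 4398) (nat_lit 13) (nat_lit 10))
    (@En.n l575 (nat_lit 10234) (nat_lit 14) (nat_lit 11))
    (@En.n l107 (nat_lit 5468) (nat_lit 10) (nat_lit 12))
    (@En.n l3 (nat_lit 6360) (nat_lit 15) (nat_lit 2))))
  (@Cl.mk (nat_lit 0x2000b000a000a000900060005000b00060006000d000700050003000e000a) (nat_lit 0x105600500700038) (nat_lit 16) Lb.e (@T16.mk En
    (@En.n l19211 (nat_lit 5916) (nat_lit 14) (nat_lit 10))
    (@En.n l8556 (nat_lit 9617) (nat_lit 1) (nat_lit 14))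
    (@En.n l19212 (nat_lit 7146) (nat_lit 2) (nat_lit 3))
    (@En.n l578 (nat_lit 7139) (nat_lit 3) (nat_lit 5))
    (@En.n l19213 (nat_lit 1566) (nat_lit 4) (nat_lit 7))
    (@En.n l9078 (nat_lit 7515) (nat_lit 6) (nat_lit 13))
    (@En.n l19214 (nat_lit 7142) (nat_lit 10) (nat_lit 6))
    (@En.i (nat_lit 3355) (nat_lit 7) (nat_lit 6))
    (@En.n l19215 (nat_lit 9516) (nat_lit 9) (nat_lit 11))
    (@En.i (nat_lit 7318) (nat_lit 9) (nat_lit 5))
    (@En.n l19216 (nat_lit 8329) (nat_lit 11) (nat_lit 6))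
    (@En.n l19217 (nat_lit 6359) (nat_lit 12) (nat_lit 9))
    (@En.n l19218 (nat_lit 6295) (nat_lit 13) (nat_lit 10))
    (@En.n l3279 (nat_lit 10242) (nat_lit 14) (nat_lit 10))
    (@En.n l107 (nat_lit 5189) (nat_lit 12) (nat_lit 11))
    (@En.n l3 (nat_lit 6361) (nat_lit 15) (nat_lit 2))))
  (@Cl.mk (nat_lit 0x2000c000b000a00050004000b0005000c0006000d000500040003000e000b) (nat_lit 0x305003080100081) (nat_lit 16) Lb.e (@T16.mk En
    (@En.n l68 (nat_lit 2417) (nat_lit 14) (nat_lit 11))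
    (@En.n l1236 (nat_lit 11292) (nat_lit 1) (nat_lit 14))
    (@En.n l14175 (nat_lit 6360) (nat_lit 2) (nat_lit 3))
    (@En.n l18 (nat_lit 4618) (nat_lit 3) (nat_lit 4))
    (@En.n l14176 (nat_lit 7524) (nat_lit 4) (nat_lit 5))
    (@En.i (nat_lit 1370) (nat_lit 6) (nat_lit 13))
    (@En.n l61 (nat_lit 7146) (nat_lit 6) (nat_lit 6))
    (@En.n l9884 (nat_lit 6364) (nat_lit 8) (nat_lit 12))
    (@En.n l14177 (nat_lit 4566) (nat_lit 8) (nat_lit 5))
    (@En.n l14176 (nat_lit 9563) (nat_lit 10) (nat_lit 11))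
    (@En.n l12848 (nat_lit 7377) (nat_lit 10) (nat_lit 4))
    (@En.i (nat_lit 10160) (nat_lit 0) (nat_lit 5))
    (@En.n l14178 (nat_lit 4401) (nat_lit 13) (nat_lit 10))
    (@En.n l77 (nat_lit 10232) (nat_lit 14) (nat_lit 11))
    (@En.n l14179 (nat_lit 7602) (nat_lit 12) (nat_lit 12))
    (@En.n l67 (nat_lit 6362) (nat_lit 15) (nat_lit 2))))
  (@Cl.mk (nat_lit 0x2000c0008000b00050004000b000b0005000c0008000500050004000e000b) (nat_lit 0x345003103400031) (nat_lit 16) Lb.e (@T16.mk En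
    (@En.n l6447 (nat_lit 5883) (nat_lit 14) (nat_lit 11))
    (@En.n l6448 (nat_lit 7928) (nat_lit 1) (nat_lit 14))
    (@En.n l3535 (nat_lit 6358) (nat_lit 2) (nat_lit 4))
    (@En.n l152 (nat_lit 7586) (nat_lit 11) (nat_lit 5))
    (@En.n l6449 (nat_lit 6362) (nat_lit 4) (nat_lit 5))
    (@En.i (nat_lit 6365) (nat_lit 5) (nat_lit 8))
    (@En.n l6449 (nat_lit 1373) (nat_lit 7) (nat_lit 12))
    (@En.n l6117 (nat_lit 7520) (nat_lit 7) (nat_lit 5))
    (@En.n l3536 (nat_lit 5889) (nat_lit 5) (nat_lit 11))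
    (@En.n l6450 (nat_lit 9608) (nat_lit 10) (nat_lit 11))
    (@En.i (nat_lit 7365) (nat_lit 10) (nat_lit 4))
    (@En.n l6449 (nat_lit 9971) (nat_lit 0) (nat_lit 5))
    (@En.n l6117 (nat_lit 3558) (nat_lit 7) (nat_lit 11))
    (@En.n l6451 (nat_lit 5856) (nat_lit 14) (nat_lit 8))
    (@En.n l6452 (nat_lit 7513) (nat_lit 2) (nat_lit 12))
    (@En.n l7 (nat_lit 6363) (nat_lit 15) (nat_lit 2))))
  (@Cl.mk (nat_lit 0x2000c0006000b00050004000c000c0005000c00040004000a0004000e000b) (nat_lit 0x1030037030060c3) (nat_lit 16) Lb.e (@T16.mk En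
    (@En.n l6517 (nat_lit 5888) (nat_lit 11) (nat_lit 11))
    (@En.i (nat_lit 11197) (nat_lit 1) (nat_lit 14))
    (@En.i (nat_lit 6363) (nat_lit 2) (nat_lit 4))
    (@En.n l899 (nat_lit 7992) (nat_lit 3) (nat_lit 10))
    (@En.n l152 (nat_lit 7585) (nat_lit 12) (nat_lit 4))
    (@En.n l3851 (nat_lit 7527) (nat_lit 5) (nat_lit 4))
    (@En.n l2255 (nat_lit 1376) (nat_lit 7) (nat_lit 12))
    (@En.n l2125 (nat_lit 7148) (nat_lit 7) (nat_lit 5))
    (@En.n l3536 (nat_lit 7501) (nat_lit 4) (nat_lit 12))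
    (@En.i (nat_lit 9361) (nat_lit 10) (nat_lit 12))
    (@En.i (nat_lit 7266) (nat_lit 10) (nat_lit 4))
    (@En.n l5748 (nat_lit 8812) (nat_lit 0) (nat_lit 5))
    (@En.n l8133 (nat_lit 3562) (nat_lit 13) (nat_lit 11))
    (@En.n l14224 (nat_lit 7674) (nat_lit 14) (nat_lit 6))
    (@En.n l6452 (nat_lit 5496) (nat_lit 2) (nat_lit 12))
    (@En.n l7 (nat_lit 6364) (nat_lit 15) (nat_lit 2))))
  (@Cl.mk (nat_lit 0x2000b00080006000b00060005000c000c0005000800040004000a000e000a) (nat_lit 0x350600450300841) (nat_lit 16) Lb.e (@T16.mk En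
    (@En.n l15694 (nat_lit 5884) (nat_lit 12) (nat_lit 10))
    (@En.n l15753 (nat_lit 7926) (nat_lit 1) (nat_lit 14))
    (@En.n l899 (nat_lit 6448) (nat_lit 2) (nat_lit 10))
    (@En.n l152 (nat_lit 7587) (nat_lit 12) (nat_lit 4))
    (@En.n l15962 (nat_lit 7515) (nat_lit 4) (nat_lit 4))
    (@En.n l15963 (nat_lit 3095) (nat_lit 10) (nat_lit 8))
    (@En.n l2125 (nat_lit 7519) (nat_lit 6) (nat_lit 5))
    (@En.n l833 (nat_lit 7514) (nat_lit 4) (nat_lit 12))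
    (@En.n l15964 (nat_lit 9605) (nat_lit 9) (nat_lit 12))
    (@En.i (nat_lit 7204) (nat_lit 9) (nat_lit 5))
    (@En.n l15965 (nat_lit 10179) (nat_lit 11) (nat_lit 6))
    (@En.n l207 (nat_lit 6363) (nat_lit 12) (nat_lit 11))
    (@En.i (nat_lit 6364) (nat_lit 13) (nat_lit 6))
    (@En.n l15966 (nat_lit 7475) (nat_lit 14) (nat_lit 8))
    (@En.n l6452 (nat_lit 7510) (nat_lit 10) (nat_lit 11))
    (@En.n l7 (nat_lit 6365) (nat_lit 15) (nat_lit 2))))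
  (@Cl.mk (nat_lit 0x20009000d0009000d0003000700030007000d0007000e00030002000e0009) (nat_lit 0x2a740000b070071) (nat_lit 16) Lb.e (@T16.mk En
    (@En.n l3766 (nat_lit 5506) (nat_lit 14) (nat_lit 9))
    (@En.n l11219 (nat_lit 12145) (nat_lit 1) (nat_lit 14))
    (@En.n l17 (nat_lit 6366) (nat_lit 2) (nat_lit 2))
    (@En.n l13431 (nat_lit 5650) (nat_lit 3) (nat_lit 3))
    (@En.n l12650 (nat_lit 13640) (nat_lit 0) (nat_lit 14))
    (@En.n l4414 (nat_lit 7713) (nat_lit 5) (nat_lit 7))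
    (@En.n l11260 (nat_lit 12240) (nat_lit 7) (nat_lit 13))
    (@En.n l7471 (nat_lit 5501) (nat_lit 7) (nat_lit 7))
    (@En.n l4520 (nat_lit 6367) (nat_lit 8) (nat_lit 3))
    (@En.i (nat_lit 6262) (nat_lit 0) (nat_lit 7))
    (@En.n l28 (nat_lit 6368) (nat_lit 10) (nat_lit 3))
    (@En.n l565 (nat_lit 3516) (nat_lit 0) (nat_lit 13))
    (@En.i (nat_lit 6369) (nat_lit 13) (nat_lit 9))
    (@En.n l4520 (nat_lit 5642) (nat_lit 14) (nat_lit 13))
    (@En.n l12650 (nat_lit 649) (nat_lit 12) (nat_lit 9))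
    (@En.n l3 (nat_lit 6366) (nat_lit 15) (nat_lit 2))))
  (@Cl.mk (nat_lit 0x20009000c0009000d0006000400030007000d0007000e00030002000e000a) (nat_lit 0x25650000b0700b1) (nat_lit 16) Lb.e (@T16.mk En
    (@En.i (nat_lit 3248) (nat_lit 14) (nat_lit 10))
    (@En.i (nat_lit 12143) (nat_lit 1) (nat_lit 14))
    (@En.n l17 (nat_lit 6367) (nat_lit 2) (nat_lit 2))
    (@En.n l2943 (nat_lit 3250) (nat_lit 3) (nat_lit 3))
    (@En.i (nat_lit 13639) (nat_lit 0) (nat_lit 14))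
    (@En.i (nat_lit 7717) (nat_lit 5) (nat_lit 7))
    (@En.n l287 (nat_lit 12035) (nat_lit 7) (nat_lit 13))
    (@En.n l2491 (nat_lit 6368) (nat_lit 7) (nat_lit 7))
    (@En.n l7129 (nat_lit 6366) (nat_lit 8) (nat_lit 3))
    (@En.n l11 (nat_lit 5872) (nat_lit 0) (nat_lit 4))
    (@En.n l5611 (nat_lit 6235) (nat_lit 7) (nat_lit 6))
    (@En.i (nat_lit 3517) (nat_lit 12) (nat_lit 13))
    (@En.n l134 (nat_lit 6370) (nat_lit 13) (nat_lit 9))
    (@En.i (nat_lit 5891) (nat_lit 14) (nat_lit 12))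
    (@En.n l615 (nat_lit 727) (nat_lit 12) (nat_lit 9))
    (@En.n l3 (nat_lit 6367) (nat_lit 15) (nat_lit 2))))
noncomputable def a398 : T16 Cl := @T16.mk Cl
  (@Cl.mk (nat_lit 0x20009000d000c000a0003000700040007000d0006000e00030002000e0009) (nat_lit 0x2b680000b0600a1) (nat_lit 16) Lb.e (@T16.mk En
    (@En.i (nat_lit 3254) (nat_lit 14) (nat_lit 9))
    (@En.i (nat_lit 12232) (nat_lit 1) (nat_lit 14))
    (@En.n l17 (nat_lit 6368) (nat_lit 2) (nat_lit 2))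
    (@En.i (nat_lit 3255) (nat_lit 3) (nat_lit 3))
    (@En.i (nat_lit 13641) (nat_lit 0) (nat_lit 14))
    (@En.n l3506 (nat_lit 7718) (nat_lit 5) (nat_lit 6))
    (@En.n l2572 (nat_lit 12237) (nat_lit 7) (nat_lit 13))
    (@En.n l7471 (nat_lit 5694) (nat_lit 7) (nat_lit 7))
    (@En.n l3506 (nat_lit 5870) (nat_lit 8) (nat_lit 4))
    (@En.i (nat_lit 6228) (nat_lit 6) (nat_lit 7))
    (@En.i (nat_lit 6366) (nat_lit 10) (nat_lit 3))
    (@En.i (nat_lit 10118) (nat_lit 0) (nat_lit 10))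
    (@En.n l6698 (nat_lit 6367) (nat_lit 13) (nat_lit 12))
    (@En.n l1578 (nat_lit 5641) (nat_lit 14) (nat_lit 13))
    (@En.i (nat_lit 730) (nat_lit 12) (nat_lit 9))
    (@En.n l3 (nat_lit 6368) (nat_lit 15) (nat_lit 2))))
  (@Cl.mk (nat_lit 0x2000a0009000d000a000600030006000c00070006000e00040002000e000a) (nat_lit 0x8643000000100a0) (nat_lit 16) Lb.e (@T16.mk En
    (@En.n l3766 (nat_lit 9248) (nat_lit 14) (nat_lit 10))
    (@En.i (nat_lit 12231) (nat_lit 1) (nat_lit 14))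
    (@En.n l17 (nat_lit 6369) (nat_lit 2) (nat_lit 2))
    (@En.n l4019 (nat_lit 6378) (nat_lit 3) (nat_lit 4))
    (@En.n l18579 (nat_lit 352) (nat_lit 1) (nat_lit 14))
    (@En.i (nat_lit 6368) (nat_lit 5) (nat_lit 6))
    (@En.i (nat_lit 11356) (nat_lit 6) (nat_lit 7))
    (@En.n l2572 (nat_lit 12349) (nat_lit 8) (nat_lit 12))
    (@En.n l7471 (nat_lit 5695) (nat_lit 8) (nat_lit 6))
    (@En.n l3007 (nat_lit 6370) (nat_lit 9) (nat_lit 3))
    (@En.n l1347 (nat_lit 12655) (nat_lit 0) (nat_lit 6))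
    (@En.n l3766 (nat_lit 6377) (nat_lit 12) (nat_lit 10))
    (@En.n l6698 (nat_lit 6371) (nat_lit 13) (nat_lit 13))
    (@En.n l7475 (nat_lit 6375) (nat_lit 14) (nat_lit 9))
    (@En.n l7476 (nat_lit 7604) (nat_lit 12) (nat_lit 10))
    (@En.n l3 (nat_lit 6369) (nat_lit 15) (nat_lit 2))))
  (@Cl.mk (nat_lit 0x2000a0009000d0005000b00030006000c00070005000e00040002000e000b) (nat_lit 0x853020040010086) (nat_lit 16) Lb.e (@T16.mk En
    (@En.i (nat_lit 12199) (nat_lit 14) (nat_lit 11))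
    (@En.i (nat_lit 12260) (nat_lit 1) (nat_lit 14))
    (@En.n l17 (nat_lit 6370) (nat_lit 2) (nat_lit 2))
    (@En.i (nat_lit 6379) (nat_lit 3) (nat_lit 4))
    (@En.n l1998 (nat_lit 359) (nat_lit 1) (nat_lit 14))
    (@En.n l3100 (nat_lit 5870) (nat_lit 5) (nat_lit 5))
    (@En.i (nat_lit 12543) (nat_lit 6) (nat_lit 7))
    (@En.n l7 (nat_lit 12353) (nat_lit 8) (nat_lit 12))
    (@En.n l8434 (nat_lit 10118) (nat_lit 12) (nat_lit 6))
    (@En.n l2491 (nat_lit 6369) (nat_lit 9) (nat_lit 3))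
    (@En.i (nat_lit 2530) (nat_lit 0) (nat_lit 11))
    (@En.i (nat_lit 9291) (nat_lit 8) (nat_lit 5))
    (@En.n l7 (nat_lit 6372) (nat_lit 13) (nat_lit 13))
    (@En.n l644 (nat_lit 6374) (nat_lit 14) (nat_lit 9))
    (@En.i (nat_lit 7607) (nat_lit 12) (nat_lit 10))
    (@En.n l3 (nat_lit 6370) (nat_lit 15) (nat_lit 2))))
  (@Cl.mk (nat_lit 0x2000a000d000900050003000d0006000c00030007000e00040002000e000b) (nat_lit 0x7320090000100b0) (nat_lit 16) Lb.e (@T16.mk En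
    (@En.i (nat_lit 9245) (nat_lit 14) (nat_lit 11))
    (@En.i (nat_lit 11684) (nat_lit 1) (nat_lit 14))
    (@En.n l17 (nat_lit 6371) (nat_lit 2) (nat_lit 2))
    (@En.i (nat_lit 9240) (nat_lit 3) (nat_lit 4))
    (@En.n l678 (nat_lit 349) (nat_lit 5) (nat_lit 14))
    (@En.i (nat_lit 6367) (nat_lit 5) (nat_lit 7))
    (@En.i (nat_lit 6375) (nat_lit 6) (nat_lit 3))
    (@En.n l287 (nat_lit 12646) (nat_lit 8) (nat_lit 12))
    (@En.n l2491 (nat_lit 6369) (nat_lit 8) (nat_lit 6))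
    (@En.i (nat_lit 12385) (nat_lit 10) (nat_lit 13))
    (@En.n l11 (nat_lit 6372) (nat_lit 10) (nat_lit 3))
    (@En.n l2004 (nat_lit 12657) (nat_lit 0) (nat_lit 5))
    (@En.n l55 (nat_lit 6373) (nat_lit 13) (nat_lit 9))
    (@En.i (nat_lit 1214) (nat_lit 5) (nat_lit 13))
    (@En.n l615 (nat_lit 5494) (nat_lit 12) (nat_lit 10))
    (@En.n l3 (nat_lit 6371) (nat_lit 15) (nat_lit 2))))
  (@Cl.mk (nat_lit 0x2000a000d0004000a0003000d0006000c00030006000e00040002000e000c) (nat_lit 0x72020901001009a) (nat_lit 16) Lb.e (@T16.mk En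
    (@En.i (nat_lit 12198) (nat_lit 14) (nat_lit 12))
    (@En.i (nat_lit 11682) (nat_lit 1) (nat_lit 14))
    (@En.n l17 (nat_lit 6372) (nat_lit 2) (nat_lit 2))
    (@En.i (nat_lit 9230) (nat_lit 3) (nat_lit 4))
    (@En.n l1998 (nat_lit 357) (nat_lit 1) (nat_lit 14))
    (@En.i (nat_lit 5872) (nat_lit 12) (nat_lit 6))
    (@En.i (nat_lit 6374) (nat_lit 6) (nat_lit 3))
    (@En.i (nat_lit 23) (nat_lit 0) (nat_lit 12))
    (@En.i (nat_lit 6370) (nat_lit 8) (nat_lit 6))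
    (@En.i (nat_lit 6373) (nat_lit 10) (nat_lit 13))
    (@En.i (nat_lit 6371) (nat_lit 10) (nat_lit 3))
    (@En.i (nat_lit 2531) (nat_lit 12) (nat_lit 10))
    (@En.i (nat_lit 12677) (nat_lit 9) (nat_lit 4))
    (@En.i (nat_lit 1215) (nat_lit 5) (nat_lit 13))
    (@En.i (nat_lit 5483) (nat_lit 12) (nat_lit 10))
    (@En.n l3 (nat_lit 6372) (nat_lit 15) (nat_lit 2))))
  (@Cl.mk (nat_lit 0x2000b00090004000a000d0005000b000300070006000e00050002000e000c) (nat_lit 0x710180400050037) (nat_lit 16) Lb.e (@T16.mk En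
    (@En.i (nat_lit 12197) (nat_lit 14) (nat_lit 12))
    (@En.i (nat_lit 11681) (nat_lit 1) (nat_lit 14))
    (@En.n l17 (nat_lit 6373) (nat_lit 2) (nat_lit 2))
    (@En.i (nat_lit 9225) (nat_lit 3) (nat_lit 5))
    (@En.n l1998 (nat_lit 902) (nat_lit 1) (nat_lit 14))
    (@En.n l28 (nat_lit 6372) (nat_lit 5) (nat_lit 6))
    (@En.n l77 (nat_lit 6370) (nat_lit 6) (nat_lit 7))
    (@En.i (nat_lit 6376) (nat_lit 7) (nat_lit 3))
    (@En.n l1998 (nat_lit 12649) (nat_lit 9) (nat_lit 11))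
    (@En.n l28 (nat_lit 6377) (nat_lit 9) (nat_lit 5))
    (@En.n l3039 (nat_lit 12391) (nat_lit 11) (nat_lit 13))
    (@En.i (nat_lit 2175) (nat_lit 12) (nat_lit 10))
    (@En.i (nat_lit 12713) (nat_lit 9) (nat_lit 4))
    (@En.n l601 (nat_lit 6090) (nat_lit 14) (nat_lit 9))
    (@En.i (nat_lit 5474) (nat_lit 12) (nat_lit 11))
    (@En.n l3 (nat_lit 6373) (nat_lit 15) (nat_lit 2))))
  (@Cl.mk (nat_lit 0x20009000d0004000a0003000d000b000700030006000e00050002000e000c) (nat_lit 0x43020a000010090) (nat_lit 16) Lb.e (@T16.mk En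
    (@En.i (nat_lit 12201) (nat_lit 14) (nat_lit 12))
    (@En.i (nat_lit 11680) (nat_lit 1) (nat_lit 14))
    (@En.n l17 (nat_lit 6374) (nat_lit 2) (nat_lit 2))
    (@En.n l4172 (nat_lit 12739) (nat_lit 3) (nat_lit 5))
    (@En.i (nat_lit 358) (nat_lit 5) (nat_lit 14))
    (@En.i (nat_lit 12809) (nat_lit 5) (nat_lit 6))
    (@En.n l50 (nat_lit 6372) (nat_lit 6) (nat_lit 3))
    (@En.i (nat_lit 12551) (nat_lit 0) (nat_lit 7))
    (@En.i (nat_lit 12426) (nat_lit 9) (nat_lit 11))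
    (@En.i (nat_lit 6376) (nat_lit 10) (nat_lit 13))
    (@En.i (nat_lit 6375) (nat_lit 10) (nat_lit 3))
    (@En.i (nat_lit 2174) (nat_lit 12) (nat_lit 10))
    (@En.i (nat_lit 12673) (nat_lit 9) (nat_lit 4))
    (@En.i (nat_lit 690) (nat_lit 14) (nat_lit 13))
    (@En.i (nat_lit 11271) (nat_lit 12) (nat_lit 9))
    (@En.n l3 (nat_lit 6374) (nat_lit 15) (nat_lit 2))))
  (@Cl.mk (nat_lit 0x20009000d000900050003000d000b000700030007000e00050002000e000b) (nat_lit 0x52200a0000100b0) (nat_lit 16) Lb.e (@T16.mk En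
    (@En.i (nat_lit 9246) (nat_lit 14) (nat_lit 11))
    (@En.i (nat_lit 11685) (nat_lit 1) (nat_lit 14))
    (@En.n l17 (nat_lit 6375) (nat_lit 2) (nat_lit 2))
    (@En.n l4172 (nat_lit 9244) (nat_lit 3) (nat_lit 5))
    (@En.n l678 (nat_lit 351) (nat_lit 5) (nat_lit 14))
    (@En.i (nat_lit 12500) (nat_lit 5) (nat_lit 7))
    (@En.n l50 (nat_lit 6371) (nat_lit 6) (nat_lit 3))
    (@En.i (nat_lit 12552) (nat_lit 0) (nat_lit 7))
    (@En.i (nat_lit 11165) (nat_lit 9) (nat_lit 11))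
    (@En.n l3039 (nat_lit 12389) (nat_lit 10) (nat_lit 13))
    (@En.n l11 (nat_lit 6374) (nat_lit 10) (nat_lit 3))
    (@En.i (nat_lit 24) (nat_lit 0) (nat_lit 5))
    (@En.n l55 (nat_lit 6376) (nat_lit 13) (nat_lit 9))
    (@En.i (nat_lit 687) (nat_lit 14) (nat_lit 13))
    (@En.n l615 (nat_lit 11269) (nat_lit 12) (nat_lit 9))
    (@En.n l3 (nat_lit 6375) (nat_lit 15) (nat_lit 2))))
  (@Cl.mk (nat_lit 0x2000a00090004000a000d000a0006000300070006000e00060002000e000c) (nat_lit 0x510290000030030) (nat_lit 16) Lb.e (@T16.mk En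
    (@En.i (nat_lit 12720) (nat_lit 14) (nat_lit 12))
    (@En.i (nat_lit 11677) (nat_lit 1) (nat_lit 14))
    (@En.n l17 (nat_lit 6376) (nat_lit 2) (nat_lit 2))
    (@En.n l4172 (nat_lit 12738) (nat_lit 3) (nat_lit 6))
    (@En.n l2567 (nat_lit 899) (nat_lit 1) (nat_lit 14))
    (@En.n l28 (nat_lit 6374) (nat_lit 5) (nat_lit 6))
    (@En.i (nat_lit 10122) (nat_lit 6) (nat_lit 7))
    (@En.n l50 (nat_lit 6373) (nat_lit 7) (nat_lit 3))
    (@En.n l2492 (nat_lit 12553) (nat_lit 0) (nat_lit 6))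
    (@En.n l3038 (nat_lit 9191) (nat_lit 10) (nat_lit 10))
    (@En.n l3039 (nat_lit 12387) (nat_lit 11) (nat_lit 13))
    (@En.i (nat_lit 2172) (nat_lit 12) (nat_lit 10))
    (@En.i (nat_lit 12693) (nat_lit 9) (nat_lit 4))
    (@En.n l601 (nat_lit 6088) (nat_lit 14) (nat_lit 9))
    (@En.i (nat_lit 11273) (nat_lit 12) (nat_lit 10))
    (@En.n l3 (nat_lit 6376) (nat_lit 15) (nat_lit 2))))
  (@Cl.mk (nat_lit 0x2000b000a000a0005000b0005000b000600060005000e00050002000e000b) (nat_lit 0x9620203000a0050) (nat_lit 16) Lb.e (@T16.mk En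
    (@En.i (nat_lit 9120) (nat_lit 14) (nat_lit 11))
    (@En.i (nat_lit 9326) (nat_lit 1) (nat_lit 14))
    (@En.n l17 (nat_lit 6377) (nat_lit 2) (nat_lit 2))
    (@En.i (nat_lit 9224) (nat_lit 3) (nat_lit 5))
    (@En.n l28744 (nat_lit 2521) (nat_lit 1) (nat_lit 14))
    (@En.i (nat_lit 6370) (nat_lit 5) (nat_lit 5))
    (@En.n l2491 (nat_lit 10118) (nat_lit 10) (nat_lit 6))
    (@En.n l14987 (nat_lit 9347) (nat_lit 7) (nat_lit 6))
    (@En.n l25842 (nat_lit 12606) (nat_lit 9) (nat_lit 11))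
    (@En.n l14989 (nat_lit 5201) (nat_lit 9) (nat_lit 5))
    (@En.n l25842 (nat_lit 2490) (nat_lit 11) (nat_lit 11))
    (@En.n l3100 (nat_lit 9987) (nat_lit 8) (nat_lit 5))
    (@En.n l14990 (nat_lit 9123) (nat_lit 6) (nat_lit 10))
    (@En.n l4380 (nat_lit 6376) (nat_lit 14) (nat_lit 10))
    (@En.i (nat_lit 7822) (nat_lit 12) (nat_lit 11))
    (@En.n l3 (nat_lit 6377) (nat_lit 15) (nat_lit 2))))
  (@Cl.mk (nat_lit 0x2000a0008000d0009000600030006000c000c0008000700040004000e000a) (nat_lit 0x7635000010000a0) (nat_lit 16) Lb.e (@T16.mk En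
    (@En.n l27717 (nat_lit 9241) (nat_lit 13) (nat_lit 10))
    (@En.n l6370 (nat_lit 12226) (nat_lit 1) (nat_lit 14))
    (@En.n l1577 (nat_lit 9236) (nat_lit 12) (nat_lit 4))
    (@En.i (nat_lit 11164) (nat_lit 3) (nat_lit 4))
    (@En.n l4973 (nat_lit 3255) (nat_lit 4) (nat_lit 7))
    (@En.n l3213 (nat_lit 11038) (nat_lit 5) (nat_lit 8))
    (@En.n l5987 (nat_lit 6369) (nat_lit 7) (nat_lit 12))
    (@En.n l14740 (nat_lit 12641) (nat_lit 8) (nat_lit 12))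
    (@En.n l19580 (nat_lit 5696) (nat_lit 12) (nat_lit 6))
    (@En.n l27718 (nat_lit 6379) (nat_lit 9) (nat_lit 3))
    (@En.n l3423 (nat_lit 12654) (nat_lit 0) (nat_lit 6))
    (@En.n l27717 (nat_lit 9224) (nat_lit 12) (nat_lit 9))
    (@En.n l7132 (nat_lit 9240) (nat_lit 13) (nat_lit 13))
    (@En.n l7132 (nat_lit 9244) (nat_lit 14) (nat_lit 8))
    (@En.n l16619 (nat_lit 5465) (nat_lit 4) (nat_lit 10))
    (@En.n l50 (nat_lit 6378) (nat_lit 15) (nat_lit 2))))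
  (@Cl.mk (nat_lit 0x2000a0008000d0005000a00030006000c000c0008000600040004000e000b) (nat_lit 0x764020035000080) (nat_lit 16) Lb.e (@T16.mk En
    (@En.i (nat_lit 12196) (nat_lit 13) (nat_lit 11))
    (@En.i (nat_lit 12228) (nat_lit 1) (nat_lit 14))
    (@En.n l35561 (nat_lit 9229) (nat_lit 12) (nat_lit 4))
    (@En.n l18 (nat_lit 11895) (nat_lit 3) (nat_lit 4))
    (@En.n l28266 (nat_lit 5865) (nat_lit 4) (nat_lit 6))
    (@En.i (nat_lit 11037) (nat_lit 5) (nat_lit 8))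
    (@En.n l61 (nat_lit 6370) (nat_lit 7) (nat_lit 12))
    (@En.n l35562 (nat_lit 12642) (nat_lit 8) (nat_lit 12))
    (@En.n l8434 (nat_lit 9035) (nat_lit 12) (nat_lit 6))
    (@En.n l13922 (nat_lit 6378) (nat_lit 9) (nat_lit 3))
    (@En.n l892 (nat_lit 2463) (nat_lit 0) (nat_lit 10))
    (@En.i (nat_lit 10533) (nat_lit 12) (nat_lit 5))
    (@En.n l7 (nat_lit 9230) (nat_lit 13) (nat_lit 13))
    (@En.n l7 (nat_lit 12739) (nat_lit 14) (nat_lit 8))
    (@En.i (nat_lit 5463) (nat_lit 4) (nat_lit 10))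
    (@En.n l3 (nat_lit 6379) (nat_lit 15) (nat_lit 2))))
  (@Cl.mk (nat_lit 0x2000c00080008000d0004000a0003000b000a0008000800060005000e0006) (nat_lit 0xa36802093050020) (nat_lit 16) Lb.e (@T16.mk En
    (@En.i (nat_lit 5915) (nat_lit 7) (nat_lit 6))
    (@En.n l19197 (nat_lit 5188) (nat_lit 1) (nat_lit 14))
    (@En.n l19198 (nat_lit 9111) (nat_lit 2) (nat_lit 5))
    (@En.n l19199 (nat_lit 6253) (nat_lit 3) (nat_lit 6))
    (@En.n l19200 (nat_lit 6284) (nat_lit 4) (nat_lit 8))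
    (@En.n l19201 (nat_lit 10202) (nat_lit 5) (nat_lit 8))
    (@En.n l19202 (nat_lit 5944) (nat_lit 6) (nat_lit 10))
    (@En.n l1236 (nat_lit 10802) (nat_lit 8) (nat_lit 11))
    (@En.n l18669 (nat_lit 6252) (nat_lit 8) (nat_lit 3))
    (@En.n l15442 (nat_lit 1701) (nat_lit 10) (nat_lit 10))
    (@En.n l19203 (nat_lit 6381) (nat_lit 10) (nat_lit 4))
    (@En.i (nat_lit 6391) (nat_lit 12) (nat_lit 13))
    (@En.n l19204 (nat_lit 6383) (nat_lit 8) (nat_lit 8))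
    (@En.n l19165 (nat_lit 3160) (nat_lit 14) (nat_lit 8))
    (@En.n l601 (nat_lit 9439) (nat_lit 3) (nat_lit 12))
    (@En.n l28 (nat_lit 6380) (nat_lit 15) (nat_lit 2))))
  (@Cl.mk (nat_lit 0x2000c000b000900090004000a0005000b000a0007000700060005000e0006) (nat_lit 0xa84701088000020) (nat_lit 16) Lb.e (@T16.mk En
    (@En.n l29462 (nat_lit 5917) (nat_lit 5) (nat_lit 6))
    (@En.n l998 (nat_lit 7822) (nat_lit 1) (nat_lit 14))
    (@En.n l29463 (nat_lit 9117) (nat_lit 2) (nat_lit 5))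
    (@En.i (nat_lit 6394) (nat_lit 3) (nat_lit 6))
    (@En.n l14025 (nat_lit 6285) (nat_lit 9) (nat_lit 7))
    (@En.n l13463 (nat_lit 9345) (nat_lit 5) (nat_lit 7))
    (@En.n l29464 (nat_lit 5936) (nat_lit 6) (nat_lit 10))
    (@En.n l14627 (nat_lit 11653) (nat_lit 8) (nat_lit 11))
    (@En.n l29465 (nat_lit 5069) (nat_lit 8) (nat_lit 5))
    (@En.n l13704 (nat_lit 1418) (nat_lit 10) (nat_lit 10))
    (@En.n l29463 (nat_lit 6388) (nat_lit 10) (nat_lit 4))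
    (@En.n l29466 (nat_lit 6382) (nat_lit 7) (nat_lit 9))
    (@En.n l29462 (nat_lit 6389) (nat_lit 13) (nat_lit 9))
    (@En.n l11833 (nat_lit 6252) (nat_lit 14) (nat_lit 11))
    (@En.i (nat_lit 9126) (nat_lit 3) (nat_lit 12))
    (@En.n l17 (nat_lit 6381) (nat_lit 15) (nat_lit 2))))
  (@Cl.mk (nat_lit 0x200070006000e00070002000d000c0009000300090004000a0009000e0007) (nat_lit 0x3006860100770) (nat_lit 16) Lb.e (@T16.mk En
    (@En.n l2491 (nat_lit 6381) (nat_lit 5) (nat_lit 7))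
    (@En.i (nat_lit 12800) (nat_lit 1) (nat_lit 14))
    (@En.n l2579 (nat_lit 6264) (nat_lit 2) (nat_lit 9))
    (@En.n l26891 (nat_lit 11650) (nat_lit 3) (nat_lit 10))
    (@En.n l117 (nat_lit 5068) (nat_lit 4) (nat_lit 4))
    (@En.n l2381 (nat_lit 1523) (nat_lit 11) (nat_lit 9))
    (@En.n l26892 (nat_lit 6383) (nat_lit 6) (nat_lit 3))
    (@En.n l575 (nat_lit 7717) (nat_lit 0) (nat_lit 9))
    (@En.i (nat_lit 6384) (nat_lit 9) (nat_lit 12))
    (@En.i (nat_lit 11529) (nat_lit 10) (nat_lit 13))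
    (@En.n l17 (nat_lit 6382) (nat_lit 10) (nat_lit 2))
    (@En.n l26893 (nat_lit 5909) (nat_lit 12) (nat_lit 7))
    (@En.n l998 (nat_lit 7824) (nat_lit 13) (nat_lit 14))
    (@En.n l5592 (nat_lit 9116) (nat_lit 14) (nat_lit 6))
    (@En.n l3100 (nat_lit 6386) (nat_lit 3) (nat_lit 7))
    (@En.n l28 (nat_lit 6382) (nat_lit 15) (nat_lit 2))))
  (@Cl.mk (nat_lit 0x200070006000e00070002000d0008000d000300090003000a0009000e0008) (nat_lit 0xc007520206751) (nat_lit 16) Lb.e (@T16.mk En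
    (@En.n l18935 (nat_lit 6380) (nat_lit 5) (nat_lit 8))
    (@En.n l3870 (nat_lit 12801) (nat_lit 1) (nat_lit 14))
    (@En.n l18936 (nat_lit 6261) (nat_lit 2) (nat_lit 9))
    (@En.n l18937 (nat_lit 11651) (nat_lit 3) (nat_lit 10))
    (@En.n l18938 (nat_lit 6384) (nat_lit 4) (nat_lit 3))
    (@En.n l18939 (nat_lit 1703) (nat_lit 11) (nat_lit 9))
    (@En.n l18940 (nat_lit 6382) (nat_lit 6) (nat_lit 3))
    (@En.n l18941 (nat_lit 4509) (nat_lit 0) (nat_lit 13))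
    (@En.n l18942 (nat_lit 6385) (nat_lit 14) (nat_lit 8))
    (@En.n l387 (nat_lit 11527) (nat_lit 10) (nat_lit 13))
    (@En.n l17 (nat_lit 6383) (nat_lit 10) (nat_lit 2))
    (@En.n l18 (nat_lit 5910) (nat_lit 12) (nat_lit 7))
    (@En.n l18943 (nat_lit 7826) (nat_lit 13) (nat_lit 14))
    (@En.i (nat_lit 9113) (nat_lit 14) (nat_lit 6))
    (@En.n l18944 (nat_lit 6387) (nat_lit 3) (nat_lit 7))
    (@En.n l3 (nat_lit 6383) (nat_lit 15) (nat_lit 2))))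
noncomputable def a399 : T16 Cl := @T16.mk Cl
  (@Cl.mk (nat_lit 0x200080006000e00070002000c0008000d000800040003000a0009000e0008) (nat_lit 0x302007111006744) (nat_lit 16) Lb.e (@T16.mk En
    (@En.n l26885 (nat_lit 6252) (nat_lit 5) (nat_lit 8))
    (@En.i (nat_lit 12799) (nat_lit 1) (nat_lit 14))
    (@En.n l217 (nat_lit 6258) (nat_lit 2) (nat_lit 9))
    (@En.n l476 (nat_lit 9863) (nat_lit 3) (nat_lit 10))
    (@En.n l26886 (nat_lit 6383) (nat_lit 4) (nat_lit 3))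
    (@En.n l1865 (nat_lit 5067) (nat_lit 5) (nat_lit 4))
    (@En.n l17213 (nat_lit 1527) (nat_lit 6) (nat_lit 8))
    (@En.n l14823 (nat_lit 4507) (nat_lit 8) (nat_lit 13))
    (@En.i (nat_lit 5439) (nat_lit 14) (nat_lit 8))
    (@En.n l5389 (nat_lit 9628) (nat_lit 10) (nat_lit 12))
    (@En.n l17 (nat_lit 6384) (nat_lit 10) (nat_lit 2))
    (@En.n l22156 (nat_lit 5911) (nat_lit 12) (nat_lit 7))
    (@En.n l5 (nat_lit 7825) (nat_lit 13) (nat_lit 14))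
    (@En.n l2402 (nat_lit 9114) (nat_lit 14) (nat_lit 6))
    (@En.n l22493 (nat_lit 6251) (nat_lit 3) (nat_lit 8))
    (@En.n l28 (nat_lit 6384) (nat_lit 15) (nat_lit 2))))
  (@Cl.mk (nat_lit 0x20008000d00090008000300090008000d00080007000300080007000e0008) (nat_lit 0x496300643005031) (nat_lit 16) Lb.e (@T16.mk En
    (@En.n l29784 (nat_lit 5441) (nat_lit 5) (nat_lit 8))
    (@En.n l998 (nat_lit 6925) (nat_lit 1) (nat_lit 14))
    (@En.n l29785 (nat_lit 11238) (nat_lit 2) (nat_lit 7))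
    (@En.n l29786 (nat_lit 6015) (nat_lit 3) (nat_lit 8))
    (@En.i (nat_lit 6534) (nat_lit 4) (nat_lit 3))
    (@En.n l3457 (nat_lit 6382) (nat_lit 0) (nat_lit 7))
    (@En.n l5056 (nat_lit 3160) (nat_lit 6) (nat_lit 8))
    (@En.i (nat_lit 10264) (nat_lit 8) (nat_lit 13))
    (@En.n l2579 (nat_lit 5632) (nat_lit 8) (nat_lit 8))
    (@En.n l15164 (nat_lit 11321) (nat_lit 10) (nat_lit 9))
    (@En.n l6868 (nat_lit 5439) (nat_lit 10) (nat_lit 3))
    (@En.n l15164 (nat_lit 6479) (nat_lit 0) (nat_lit 8))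
    (@En.n l3462 (nat_lit 7714) (nat_lit 13) (nat_lit 9))
    (@En.n l619 (nat_lit 6537) (nat_lit 14) (nat_lit 13))
    (@En.n l29787 (nat_lit 10949) (nat_lit 3) (nat_lit 8))
    (@En.n l17 (nat_lit 6385) (nat_lit 15) (nat_lit 2))))
  (@Cl.mk (nat_lit 0x2000d000b000800030009000c0005000b000a0004000800070005000e0006) (nat_lit 0xa600150810600a0) (nat_lit 16) Lb.e (@T16.mk En
    (@En.n l50 (nat_lit 6299) (nat_lit 4) (nat_lit 6))
    (@En.n l998 (nat_lit 5474) (nat_lit 1) (nat_lit 14))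
    (@En.n l50 (nat_lit 9987) (nat_lit 2) (nat_lit 5))
    (@En.n l11 (nat_lit 6395) (nat_lit 3) (nat_lit 7))
    (@En.n l55 (nat_lit 6394) (nat_lit 4) (nat_lit 8))
    (@En.n l16810 (nat_lit 10002) (nat_lit 5) (nat_lit 4))
    (@En.n l217 (nat_lit 6076) (nat_lit 6) (nat_lit 10))
    (@En.n l2031 (nat_lit 11916) (nat_lit 8) (nat_lit 11))
    (@En.n l11 (nat_lit 6381) (nat_lit 8) (nat_lit 5))
    (@En.n l6698 (nat_lit 5795) (nat_lit 6) (nat_lit 12))
    (@En.n l2037 (nat_lit 1422) (nat_lit 11) (nat_lit 9))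
    (@En.n l27031 (nat_lit 6387) (nat_lit 11) (nat_lit 3))
    (@En.i (nat_lit 7718) (nat_lit 0) (nat_lit 8))
    (@En.n l9921 (nat_lit 6251) (nat_lit 14) (nat_lit 11))
    (@En.i (nat_lit 9647) (nat_lit 2) (nat_lit 13))
    (@En.n l17 (nat_lit 6386) (nat_lit 15) (nat_lit 2))))
  (@Cl.mk (nat_lit 0x2000d0007000c00030009000c0004000b000a0004000900070005000e0006) (nat_lit 0xa02025098070010) (nat_lit 16) Lb.e (@T16.mk En
    (@En.n l24407 (nat_lit 6301) (nat_lit 4) (nat_lit 6))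
    (@En.n l396 (nat_lit 5478) (nat_lit 1) (nat_lit 14))
    (@En.n l253 (nat_lit 9988) (nat_lit 2) (nat_lit 5))
    (@En.i (nat_lit 6397) (nat_lit 3) (nat_lit 7))
    (@En.n l766 (nat_lit 6253) (nat_lit 4) (nat_lit 9))
    (@En.n l10542 (nat_lit 10003) (nat_lit 5) (nat_lit 4))
    (@En.n l644 (nat_lit 6325) (nat_lit 6) (nat_lit 10))
    (@En.n l4850 (nat_lit 11913) (nat_lit 8) (nat_lit 11))
    (@En.n l4765 (nat_lit 6388) (nat_lit 8) (nat_lit 4))
    (@En.n l13416 (nat_lit 5797) (nat_lit 6) (nat_lit 12))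
    (@En.n l152 (nat_lit 914) (nat_lit 11) (nat_lit 9))
    (@En.n l13417 (nat_lit 6386) (nat_lit 11) (nat_lit 3))
    (@En.n l513 (nat_lit 7976) (nat_lit 0) (nat_lit 12))
    (@En.n l24408 (nat_lit 6015) (nat_lit 14) (nat_lit 7))
    (@En.i (nat_lit 9646) (nat_lit 2) (nat_lit 13))
    (@En.n l18 (nat_lit 6387) (nat_lit 15) (nat_lit 2))))
  (@Cl.mk (nat_lit 0x2000c0007000c000a0004000a0004000b000a0006000900060005000e0006) (nat_lit 0x700502091060090) (nat_lit 16) Lb.e (@T16.mk En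
    (@En.n l7 (nat_lit 7522) (nat_lit 5) (nat_lit 6))
    (@En.n l24183 (nat_lit 5471) (nat_lit 1) (nat_lit 14))
    (@En.i (nat_lit 8588) (nat_lit 2) (nat_lit 5))
    (@En.n l12505 (nat_lit 6398) (nat_lit 3) (nat_lit 6))
    (@En.i (nat_lit 6418) (nat_lit 9) (nat_lit 9))
    (@En.n l24184 (nat_lit 6356) (nat_lit 5) (nat_lit 6))
    (@En.n l55 (nat_lit 6329) (nat_lit 6) (nat_lit 10))
    (@En.n l24185 (nat_lit 10792) (nat_lit 8) (nat_lit 11))
    (@En.n l24186 (nat_lit 6251) (nat_lit 8) (nat_lit 4))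
    (@En.n l24187 (nat_lit 976) (nat_lit 10) (nat_lit 10))
    (@En.n l24188 (nat_lit 6380) (nat_lit 10) (nat_lit 4))
    (@En.n l24189 (nat_lit 6390) (nat_lit 12) (nat_lit 10))
    (@En.n l15675 (nat_lit 6392) (nat_lit 13) (nat_lit 12))
    (@En.n l6841 (nat_lit 6010) (nat_lit 14) (nat_lit 7))
    (@En.n l5342 (nat_lit 8428) (nat_lit 3) (nat_lit 12))
    (@En.n l50 (nat_lit 6388) (nat_lit 15) (nat_lit 2))))
  (@Cl.mk (nat_lit 0x2000d0009000800030009000c000a000900070004000800070006000e0007) (nat_lit 0xa300198100600b0) (nat_lit 16) Lb.e (@T16.mk En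
    (@En.i (nat_lit 7493) (nat_lit 4) (nat_lit 7))
    (@En.n l4108 (nat_lit 5185) (nat_lit 1) (nat_lit 14))
    (@En.n l965 (nat_lit 9047) (nat_lit 2) (nat_lit 6))
    (@En.n l17 (nat_lit 6391) (nat_lit 3) (nat_lit 7))
    (@En.i (nat_lit 6380) (nat_lit 4) (nat_lit 8))
    (@En.n l2438 (nat_lit 6386) (nat_lit 5) (nat_lit 4))
    (@En.n l965 (nat_lit 10239) (nat_lit 6) (nat_lit 7))
    (@En.n l24362 (nat_lit 6077) (nat_lit 7) (nat_lit 9))
    (@En.n l17680 (nat_lit 5858) (nat_lit 9) (nat_lit 10))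
    (@En.n l20835 (nat_lit 6439) (nat_lit 6) (nat_lit 12))
    (@En.i (nat_lit 1671) (nat_lit 11) (nat_lit 9))
    (@En.n l13297 (nat_lit 6390) (nat_lit 11) (nat_lit 3))
    (@En.n l8501 (nat_lit 7713) (nat_lit 0) (nat_lit 8))
    (@En.n l24363 (nat_lit 3161) (nat_lit 14) (nat_lit 9))
    (@En.n l601 (nat_lit 9077) (nat_lit 2) (nat_lit 13))
    (@En.n l28 (nat_lit 6389) (nat_lit 15) (nat_lit 2))))
  (@Cl.mk (nat_lit 0x2000d0007000a00030009000c000a000900060004000900070006000e0007) (nat_lit 0xa04019810070010) (nat_lit 16) Lb.e (@T16.mk En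
    (@En.n l10875 (nat_lit 7521) (nat_lit 4) (nat_lit 7))
    (@En.n l396 (nat_lit 1309) (nat_lit 1) (nat_lit 14))
    (@En.n l3943 (nat_lit 9048) (nat_lit 2) (nat_lit 6))
    (@En.n l5194 (nat_lit 6392) (nat_lit 3) (nat_lit 7))
    (@En.n l10876 (nat_lit 6388) (nat_lit 4) (nat_lit 9))
    (@En.n l28 (nat_lit 6387) (nat_lit 5) (nat_lit 4))
    (@En.n l3943 (nat_lit 6357) (nat_lit 6) (nat_lit 6))
    (@En.n l10877 (nat_lit 6326) (nat_lit 7) (nat_lit 9))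
    (@En.n l77 (nat_lit 5857) (nat_lit 9) (nat_lit 10))
    (@En.n l10877 (nat_lit 6443) (nat_lit 6) (nat_lit 12))
    (@En.n l152 (nat_lit 985) (nat_lit 11) (nat_lit 9))
    (@En.n l10878 (nat_lit 6389) (nat_lit 11) (nat_lit 3))
    (@En.n l10877 (nat_lit 1942) (nat_lit 8) (nat_lit 10))
    (@En.n l10875 (nat_lit 5859) (nat_lit 14) (nat_lit 7))
    (@En.n l10879 (nat_lit 8429) (nat_lit 2) (nat_lit 13))
    (@En.n l18 (nat_lit 6390) (nat_lit 15) (nat_lit 2))))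
  (@Cl.mk (nat_lit 0x2000d0008000d000300090003000c000b000a0008000400070005000e0006) (nat_lit 0x937010a910000b0) (nat_lit 16) Lb.e (@T16.mk En
    (@En.i (nat_lit 7494) (nat_lit 4) (nat_lit 6))
    (@En.n l4108 (nat_lit 5182) (nat_lit 1) (nat_lit 14))
    (@En.n l345 (nat_lit 9041) (nat_lit 2) (nat_lit 5))
    (@En.n l473 (nat_lit 6423) (nat_lit 11) (nat_lit 7))
    (@En.n l2438 (nat_lit 6395) (nat_lit 4) (nat_lit 4))
    (@En.i (nat_lit 10237) (nat_lit 5) (nat_lit 8))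
    (@En.n l97 (nat_lit 6079) (nat_lit 6) (nat_lit 10))
    (@En.n l1236 (nat_lit 9993) (nat_lit 8) (nat_lit 11))
    (@En.i (nat_lit 6389) (nat_lit 9) (nat_lit 12))
    (@En.i (nat_lit 6393) (nat_lit 9) (nat_lit 3))
    (@En.i (nat_lit 1668) (nat_lit 11) (nat_lit 9))
    (@En.i (nat_lit 6392) (nat_lit 11) (nat_lit 3))
    (@En.n l8501 (nat_lit 4512) (nat_lit 0) (nat_lit 13))
    (@En.i (nat_lit 3162) (nat_lit 14) (nat_lit 8))
    (@En.n l601 (nat_lit 9078) (nat_lit 2) (nat_lit 13))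
    (@En.n l28 (nat_lit 6391) (nat_lit 15) (nat_lit 2))))
  (@Cl.mk (nat_lit 0x2000d000c0009000300090004000c000b000a0007000400070005000e0006) (nat_lit 0x9a2010a910000a0) (nat_lit 16) Lb.e (@T16.mk En
    (@En.i (nat_lit 7499) (nat_lit 4) (nat_lit 6))
    (@En.n l13295 (nat_lit 5184) (nat_lit 1) (nat_lit 14))
    (@En.n l4070 (nat_lit 9040) (nat_lit 2) (nat_lit 5))
    (@En.i (nat_lit 6422) (nat_lit 11) (nat_lit 7))
    (@En.n l4070 (nat_lit 6397) (nat_lit 4) (nat_lit 4))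
    (@En.i (nat_lit 6359) (nat_lit 5) (nat_lit 7))
    (@En.n l13296 (nat_lit 6238) (nat_lit 6) (nat_lit 10))
    (@En.n l1236 (nat_lit 9992) (nat_lit 8) (nat_lit 11))
    (@En.n l13297 (nat_lit 6390) (nat_lit 9) (nat_lit 12))
    (@En.n l19015 (nat_lit 5886) (nat_lit 9) (nat_lit 4))
    (@En.n l13294 (nat_lit 989) (nat_lit 11) (nat_lit 9))
    (@En.n l50 (nat_lit 6391) (nat_lit 11) (nat_lit 3))
    (@En.n l10926 (nat_lit 1931) (nat_lit 0) (nat_lit 9))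
    (@En.n l217 (nat_lit 6393) (nat_lit 14) (nat_lit 12))
    (@En.n l24406 (nat_lit 8427) (nat_lit 2) (nat_lit 13))
    (@En.n l28 (nat_lit 6392) (nat_lit 15) (nat_lit 2))))
  (@Cl.mk (nat_lit 0x2000c0008000d000800040003000c000b000a0008000400080005000e0006) (nat_lit 0x937100a813030b0) (nat_lit 16) Lb.e (@T16.mk En
    (@En.i (nat_lit 7497) (nat_lit 6) (nat_lit 6))
    (@En.n l20647 (nat_lit 5183) (nat_lit 1) (nat_lit 14))
    (@En.n l9845 (nat_lit 8979) (nat_lit 2) (nat_lit 5))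
    (@En.i (nat_lit 6245) (nat_lit 3) (nat_lit 8))
    (@En.n l14016 (nat_lit 6396) (nat_lit 4) (nat_lit 4))
    (@En.i (nat_lit 10236) (nat_lit 5) (nat_lit 8))
    (@En.n l14017 (nat_lit 6226) (nat_lit 6) (nat_lit 10))
    (@En.n l1236 (nat_lit 9994) (nat_lit 8) (nat_lit 11))
    (@En.n l20835 (nat_lit 6437) (nat_lit 9) (nat_lit 12))
    (@En.n l18 (nat_lit 6391) (nat_lit 9) (nat_lit 3))
    (@En.n l17194 (nat_lit 5878) (nat_lit 10) (nat_lit 4))
    (@En.n l61 (nat_lit 6389) (nat_lit 12) (nat_lit 8))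
    (@En.n l9845 (nat_lit 4510) (nat_lit 13) (nat_lit 13))
    (@En.n l27594 (nat_lit 3155) (nat_lit 14) (nat_lit 8))
    (@En.i (nat_lit 9715) (nat_lit 3) (nat_lit 12))
    (@En.n l28 (nat_lit 6393) (nat_lit 15) (nat_lit 2))))
  (@Cl.mk (nat_lit 0x2000c000a0008000d0004000a00030006000c000b000800060004000e0005) (nat_lit 0x974702009150090) (nat_lit 16) Lb.e (@T16.mk En
    (@En.n l2900 (nat_lit 6292) (nat_lit 7) (nat_lit 5))
    (@En.n l998 (nat_lit 7607) (nat_lit 1) (nat_lit 14))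
    (@En.n l19984 (nat_lit 6402) (nat_lit 2) (nat_lit 4))
    (@En.n l5154 (nat_lit 2192) (nat_lit 3) (nat_lit 6))
    (@En.n l19985 (nat_lit 10241) (nat_lit 4) (nat_lit 8))
    (@En.n l217 (nat_lit 5940) (nat_lit 5) (nat_lit 11))
    (@En.n l14627 (nat_lit 11897) (nat_lit 7) (nat_lit 12))
    (@En.n l6083 (nat_lit 6285) (nat_lit 12) (nat_lit 6))
    (@En.n l117 (nat_lit 6249) (nat_lit 8) (nat_lit 3))
    (@En.i (nat_lit 1662) (nat_lit 10) (nat_lit 10))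
    (@En.n l3596 (nat_lit 6398) (nat_lit 10) (nat_lit 4))
    (@En.n l28 (nat_lit 6395) (nat_lit 12) (nat_lit 13))
    (@En.n l2900 (nat_lit 6391) (nat_lit 13) (nat_lit 8))
    (@En.n l19984 (nat_lit 6247) (nat_lit 14) (nat_lit 10))
    (@En.i (nat_lit 9782) (nat_lit 3) (nat_lit 12))
    (@En.n l17 (nat_lit 6394) (nat_lit 15) (nat_lit 2))))
  (@Cl.mk (nat_lit 0x2000d000a000d000300090003000c0006000c000b000400070004000e0005) (nat_lit 0xa6602060a100020) (nat_lit 16) Lb.e (@T16.mk En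
    (@En.n l50 (nat_lit 6298) (nat_lit 4) (nat_lit 5))
    (@En.n l998 (nat_lit 5483) (nat_lit 1) (nat_lit 14))
    (@En.n l50 (nat_lit 6399) (nat_lit 2) (nat_lit 4))
    (@En.i (nat_lit 2252) (nat_lit 11) (nat_lit 7))
    (@En.i (nat_lit 9995) (nat_lit 4) (nat_lit 4))
    (@En.n l217 (nat_lit 6081) (nat_lit 5) (nat_lit 11))
    (@En.i (nat_lit 11914) (nat_lit 7) (nat_lit 12))
    (@En.i (nat_lit 6394) (nat_lit 7) (nat_lit 6))
    (@En.i (nat_lit 6386) (nat_lit 9) (nat_lit 12))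
    (@En.n l117 (nat_lit 6396) (nat_lit 9) (nat_lit 3))
    (@En.i (nat_lit 1665) (nat_lit 11) (nat_lit 9))
    (@En.n l3596 (nat_lit 6397) (nat_lit 11) (nat_lit 3))
    (@En.i (nat_lit 5863) (nat_lit 0) (nat_lit 13))
    (@En.i (nat_lit 6250) (nat_lit 14) (nat_lit 10))
    (@En.i (nat_lit 9645) (nat_lit 2) (nat_lit 13))
    (@En.n l17 (nat_lit 6395) (nat_lit 15) (nat_lit 2))))
  (@Cl.mk (nat_lit 0x2000c000a000d000800040003000c0006000c000b000400080004000e0005) (nat_lit 0x967100609102020) (nat_lit 16) Lb.e (@T16.mk En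
    (@En.n l50 (nat_lit 6297) (nat_lit 6) (nat_lit 5))
    (@En.n l5 (nat_lit 5494) (nat_lit 1) (nat_lit 14))
    (@En.n l50 (nat_lit 6401) (nat_lit 2) (nat_lit 4))
    (@En.i (nat_lit 4379) (nat_lit 3) (nat_lit 8))
    (@En.i (nat_lit 9996) (nat_lit 4) (nat_lit 4))
    (@En.n l217 (nat_lit 6085) (nat_lit 5) (nat_lit 11))
    (@En.i (nat_lit 11917) (nat_lit 7) (nat_lit 12))
    (@En.i (nat_lit 6249) (nat_lit 7) (nat_lit 6))
    (@En.i (nat_lit 5602) (nat_lit 9) (nat_lit 12))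
    (@En.n l152 (nat_lit 6395) (nat_lit 9) (nat_lit 3))
    (@En.n l1865 (nat_lit 5877) (nat_lit 0) (nat_lit 4))
    (@En.n l619 (nat_lit 6386) (nat_lit 12) (nat_lit 8))
    (@En.i (nat_lit 4517) (nat_lit 5) (nat_lit 13))
    (@En.n l1867 (nat_lit 6248) (nat_lit 14) (nat_lit 10))
    (@En.i (nat_lit 9716) (nat_lit 3) (nat_lit 12))
    (@En.n l17 (nat_lit 6396) (nat_lit 15) (nat_lit 2))))
  (@Cl.mk (nat_lit 0x2000d000c000b000300090004000c0005000c000b000400070004000e0005) (nat_lit 0xaa203060a900020) (nat_lit 16) Lb.e (@T16.mk En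
    (@En.n l5784 (nat_lit 6300) (nat_lit 4) (nat_lit 5))
    (@En.n l396 (nat_lit 5481) (nat_lit 1) (nat_lit 14))
    (@En.i (nat_lit 6400) (nat_lit 2) (nat_lit 4))
    (@En.n l2009 (nat_lit 2292) (nat_lit 11) (nat_lit 7))
    (@En.i (nat_lit 7989) (nat_lit 4) (nat_lit 4))
    (@En.n l644 (nat_lit 6322) (nat_lit 5) (nat_lit 11))
    (@En.i (nat_lit 11912) (nat_lit 7) (nat_lit 12))
    (@En.i (nat_lit 6398) (nat_lit 7) (nat_lit 5))
    (@En.n l476 (nat_lit 6387) (nat_lit 9) (nat_lit 12))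
    (@En.n l766 (nat_lit 5887) (nat_lit 9) (nat_lit 4))
    (@En.i (nat_lit 910) (nat_lit 11) (nat_lit 9))
    (@En.n l1106 (nat_lit 6395) (nat_lit 11) (nat_lit 3))
    (@En.n l619 (nat_lit 7977) (nat_lit 0) (nat_lit 11))
    (@En.n l1106 (nat_lit 6396) (nat_lit 14) (nat_lit 12))
    (@En.n l1738 (nat_lit 9644) (nat_lit 2) (nat_lit 13))
    (@En.n l18 (nat_lit 6397) (nat_lit 15) (nat_lit 2))))
  (@Cl.mk (nat_lit 0x2000c000b000b00090004000a00050005000c000b000700060004000e0005) (nat_lit 0x81630100a900010) (nat_lit 16) Lb.e (@T16.mk En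
    (@En.n l8236 (nat_lit 2412) (nat_lit 5) (nat_lit 5))
    (@En.n l27978 (nat_lit 905) (nat_lit 1) (nat_lit 14))
    (@En.i (nat_lit 8372) (nat_lit 2) (nat_lit 4))
    (@En.n l5781 (nat_lit 2243) (nat_lit 3) (nat_lit 6))
    (@En.n l916 (nat_lit 6361) (nat_lit 4) (nat_lit 7))
    (@En.n l644 (nat_lit 6334) (nat_lit 5) (nat_lit 11))
    (@En.n l27979 (nat_lit 9286) (nat_lit 7) (nat_lit 12))
    (@En.n l16928 (nat_lit 6419) (nat_lit 11) (nat_lit 5))
    (@En.n l766 (nat_lit 5885) (nat_lit 8) (nat_lit 5))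
    (@En.i (nat_lit 990) (nat_lit 10) (nat_lit 10))
    (@En.n l1950 (nat_lit 6253) (nat_lit 10) (nat_lit 4))
    (@En.n l8236 (nat_lit 6392) (nat_lit 12) (nat_lit 9))
    (@En.n l27980 (nat_lit 6422) (nat_lit 5) (nat_lit 11))
    (@En.n l1106 (nat_lit 6249) (nat_lit 14) (nat_lit 11))
    (@En.n l1738 (nat_lit 8425) (nat_lit 3) (nat_lit 12))
    (@En.n l18 (nat_lit 6398) (nat_lit 15) (nat_lit 2))))
  (@Cl.mk (nat_lit 0x2000d000a000d0003000b0003000b0006000c0005000c00050004000e0004) (nat_lit 0xa68020700000010) (nat_lit 16) Lb.e (@T16.mk En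
    (@En.i (nat_lit 6404) (nat_lit 6) (nat_lit 4))
    (@En.n l18586 (nat_lit 2939) (nat_lit 1) (nat_lit 14))
    (@En.i (nat_lit 6230) (nat_lit 2) (nat_lit 4))
    (@En.n l16914 (nat_lit 9993) (nat_lit 3) (nat_lit 5))
    (@En.n l12890 (nat_lit 9753) (nat_lit 9) (nat_lit 12))
    (@En.n l5928 (nat_lit 9060) (nat_lit 5) (nat_lit 5))
    (@En.n l12890 (nat_lit 12766) (nat_lit 7) (nat_lit 12))
    (@En.n l19885 (nat_lit 6402) (nat_lit 7) (nat_lit 6))
    (@En.i (nat_lit 9987) (nat_lit 9) (nat_lit 11))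
    (@En.n l117 (nat_lit 6401) (nat_lit 9) (nat_lit 3))
    (@En.i (nat_lit 7611) (nat_lit 11) (nat_lit 11))
    (@En.n l16948 (nat_lit 6400) (nat_lit 11) (nat_lit 3))
    (@En.i (nat_lit 5890) (nat_lit 0) (nat_lit 13))
    (@En.i (nat_lit 8584) (nat_lit 14) (nat_lit 10))
    (@En.i (nat_lit 9795) (nat_lit 2) (nat_lit 13))
    (@En.n l17 (nat_lit 6399) (nat_lit 15) (nat_lit 2))))
noncomputable def a400 : T16 Cl := @T16.mk Cl
  (@Cl.mk (nat_lit 0x2000d000c000b0003000b0004000b0005000c0005000c00050004000e0004) (nat_lit 0xa00000700000010) (nat_lit 16) Lb.e (@T16.mk En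
    (@En.n l7 (nat_lit 8875) (nat_lit 4) (nat_lit 4))
    (@En.n l396 (nat_lit 2942) (nat_lit 1) (nat_lit 14))
    (@En.n l7 (nat_lit 6237) (nat_lit 2) (nat_lit 4))
    (@En.n l10539 (nat_lit 9992) (nat_lit 3) (nat_lit 5))
    (@En.i (nat_lit 10194) (nat_lit 9) (nat_lit 12))
    (@En.n l644 (nat_lit 9063) (nat_lit 5) (nat_lit 5))
    (@En.n l3528 (nat_lit 12767) (nat_lit 7) (nat_lit 12))
    (@En.i (nat_lit 8372) (nat_lit 7) (nat_lit 5))
    (@En.i (nat_lit 9988) (nat_lit 9) (nat_lit 11))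
    (@En.n l1208 (nat_lit 8900) (nat_lit 9) (nat_lit 4))
    (@En.i (nat_lit 7762) (nat_lit 11) (nat_lit 11))
    (@En.n l12094 (nat_lit 6399) (nat_lit 11) (nat_lit 3))
    (@En.n l619 (nat_lit 8886) (nat_lit 0) (nat_lit 11))
    (@En.n l12094 (nat_lit 6401) (nat_lit 14) (nat_lit 12))
    (@En.n l4600 (nat_lit 8879) (nat_lit 2) (nat_lit 13))
    (@En.n l18 (nat_lit 6400) (nat_lit 15) (nat_lit 2))))
  (@Cl.mk (nat_lit 0x2000c000a000d000a00040003000b0006000c0006000c00050004000e0004) (nat_lit 0xa69200700000010) (nat_lit 16) Lb.e (@T16.mk En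
    (@En.i (nat_lit 6405) (nat_lit 6) (nat_lit 4))
    (@En.n l5022 (nat_lit 2946) (nat_lit 1) (nat_lit 14))
    (@En.i (nat_lit 6229) (nat_lit 2) (nat_lit 4))
    (@En.n l28106 (nat_lit 9994) (nat_lit 3) (nat_lit 5))
    (@En.n l8631 (nat_lit 9754) (nat_lit 11) (nat_lit 12))
    (@En.n l644 (nat_lit 11047) (nat_lit 5) (nat_lit 6))
    (@En.n l28107 (nat_lit 12768) (nat_lit 7) (nat_lit 12))
    (@En.n l27093 (nat_lit 6403) (nat_lit 7) (nat_lit 6))
    (@En.i (nat_lit 9781) (nat_lit 9) (nat_lit 11))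
    (@En.n l152 (nat_lit 6399) (nat_lit 9) (nat_lit 3))
    (@En.n l20805 (nat_lit 8901) (nat_lit 0) (nat_lit 4))
    (@En.n l34966 (nat_lit 9291) (nat_lit 12) (nat_lit 10))
    (@En.i (nat_lit 4671) (nat_lit 5) (nat_lit 13))
    (@En.n l21885 (nat_lit 9773) (nat_lit 14) (nat_lit 10))
    (@En.i (nat_lit 9473) (nat_lit 3) (nat_lit 12))
    (@En.n l17 (nat_lit 6401) (nat_lit 15) (nat_lit 2))))
  (@Cl.mk (nat_lit 0x2000c000a0007000d0004000c00030006000c0004000c00090004000e0004) (nat_lit 0x460903000004080) (nat_lit 16) Lb.e (@T16.mk En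
    (@En.n l7 (nat_lit 6406) (nat_lit 7) (nat_lit 4))
    (@En.n l2125 (nat_lit 7275) (nat_lit 1) (nat_lit 14))
    (@En.n l28259 (nat_lit 6232) (nat_lit 2) (nat_lit 4))
    (@En.n l3928 (nat_lit 10244) (nat_lit 3) (nat_lit 9))
    (@En.n l10994 (nat_lit 9757) (nat_lit 12) (nat_lit 12))
    (@En.n l22397 (nat_lit 9064) (nat_lit 5) (nat_lit 4))
    (@En.n l3928 (nat_lit 11904) (nat_lit 7) (nat_lit 12))
    (@En.n l152 (nat_lit 8232) (nat_lit 12) (nat_lit 6))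
    (@En.n l117 (nat_lit 6403) (nat_lit 8) (nat_lit 3))
    (@En.n l781 (nat_lit 7609) (nat_lit 0) (nat_lit 12))
    (@En.n l35695 (nat_lit 8372) (nat_lit 10) (nat_lit 4))
    (@En.n l16721 (nat_lit 6399) (nat_lit 12) (nat_lit 13))
    (@En.n l27756 (nat_lit 9041) (nat_lit 13) (nat_lit 7))
    (@En.i (nat_lit 8583) (nat_lit 14) (nat_lit 10))
    (@En.n l28259 (nat_lit 9787) (nat_lit 3) (nat_lit 12))
    (@En.n l50 (nat_lit 6402) (nat_lit 15) (nat_lit 2))))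
  (@Cl.mk (nat_lit 0x2000b000a0007000d000b000500030006000c0005000c00090004000e0004) (nat_lit 0x60a30000004040) (nat_lit 16) Lb.e (@T16.mk En
    (@En.n l7 (nat_lit 6407) (nat_lit 7) (nat_lit 4))
    (@En.n l19497 (nat_lit 7277) (nat_lit 1) (nat_lit 14))
    (@En.n l36877 (nat_lit 6231) (nat_lit 2) (nat_lit 4))
    (@En.i (nat_lit 10243) (nat_lit 3) (nat_lit 9))
    (@En.n l33699 (nat_lit 9756) (nat_lit 12) (nat_lit 12))
    (@En.n l36878 (nat_lit 11048) (nat_lit 5) (nat_lit 5))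
    (@En.n l8638 (nat_lit 11902) (nat_lit 7) (nat_lit 12))
    (@En.n l6001 (nat_lit 10121) (nat_lit 7) (nat_lit 6))
    (@En.n l152 (nat_lit 6402) (nat_lit 8) (nat_lit 3))
    (@En.n l10268 (nat_lit 8898) (nat_lit 0) (nat_lit 5))
    (@En.n l36874 (nat_lit 12719) (nat_lit 11) (nat_lit 11))
    (@En.n l27734 (nat_lit 6401) (nat_lit 12) (nat_lit 13))
    (@En.n l16733 (nat_lit 8979) (nat_lit 13) (nat_lit 7))
    (@En.n l97 (nat_lit 9769) (nat_lit 14) (nat_lit 10))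
    (@En.i (nat_lit 9939) (nat_lit 6) (nat_lit 11))
    (@En.n l50 (nat_lit 6403) (nat_lit 15) (nat_lit 2))))
  (@Cl.mk (nat_lit 0x3000a0006000b0005000c000c0006000500040004000d000a000d0003000b) (nat_lit 0x8000010000a0802) (nat_lit 16) Lb.e (@T16.mk En
    (@En.i (nat_lit 7626) (nat_lit 0) (nat_lit 11))
    (@En.n l3596 (nat_lit 8875) (nat_lit 15) (nat_lit 3))
    (@En.i (nat_lit 4665) (nat_lit 0) (nat_lit 13))
    (@En.n l24725 (nat_lit 8591) (nat_lit 3) (nat_lit 10))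
    (@En.n l12438 (nat_lit 8884) (nat_lit 2) (nat_lit 13))
    (@En.n l13044 (nat_lit 10524) (nat_lit 12) (nat_lit 4))
    (@En.n l14764 (nat_lit 4334) (nat_lit 6) (nat_lit 4))
    (@En.i (nat_lit 6081) (nat_lit 0) (nat_lit 5))
    (@En.n l5912 (nat_lit 10461) (nat_lit 1) (nat_lit 6))
    (@En.n l61 (nat_lit 6399) (nat_lit 4) (nat_lit 12))
    (@En.n l5891 (nat_lit 9743) (nat_lit 9) (nat_lit 12))
    (@En.n l5928 (nat_lit 9058) (nat_lit 9) (nat_lit 5))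
    (@En.n l14765 (nat_lit 12449) (nat_lit 13) (nat_lit 11))
    (@En.n l14950 (nat_lit 6406) (nat_lit 14) (nat_lit 6))
    (@En.i (nat_lit 9985) (nat_lit 13) (nat_lit 10))
    (@En.n l117 (nat_lit 6405) (nat_lit 15) (nat_lit 3))))
  (@Cl.mk (nat_lit 0x3000a0006000b0006000c000c0006000500040004000c000a000d000a0004) (nat_lit 0x800001000000920) (nat_lit 16) Lb.e (@T16.mk En
    (@En.n l1865 (nat_lit 8903) (nat_lit 0) (nat_lit 4))
    (@En.n l34966 (nat_lit 10533) (nat_lit 0) (nat_lit 10))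
    (@En.i (nat_lit 4664) (nat_lit 5) (nat_lit 13))
    (@En.n l1867 (nat_lit 9750) (nat_lit 3) (nat_lit 10))
    (@En.i (nat_lit 9472) (nat_lit 3) (nat_lit 12))
    (@En.n l16045 (nat_lit 10525) (nat_lit 12) (nat_lit 4))
    (@En.n l39528 (nat_lit 10148) (nat_lit 6) (nat_lit 4))
    (@En.i (nat_lit 6085) (nat_lit 0) (nat_lit 5))
    (@En.n l27667 (nat_lit 10460) (nat_lit 1) (nat_lit 6))
    (@En.n l61 (nat_lit 6401) (nat_lit 4) (nat_lit 12))
    (@En.n l649 (nat_lit 9746) (nat_lit 11) (nat_lit 12))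
    (@En.i (nat_lit 11046) (nat_lit 4) (nat_lit 6))
    (@En.n l39529 (nat_lit 12451) (nat_lit 13) (nat_lit 11))
    (@En.n l39530 (nat_lit 6407) (nat_lit 14) (nat_lit 6))
    (@En.i (nat_lit 10857) (nat_lit 14) (nat_lit 10))
    (@En.n l152 (nat_lit 6404) (nat_lit 15) (nat_lit 3))))
  (@Cl.mk (nat_lit 0x30006000b0004000c000c000a000500040004000c000a0006000d0004000c) (nat_lit 0x90013000900903) (nat_lit 16) Lb.e (@T16.mk En
    (@En.n l781 (nat_lit 7610) (nat_lit 0) (nat_lit 12))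
    (@En.n l31494 (nat_lit 8374) (nat_lit 9) (nat_lit 4))
    (@En.n l16414 (nat_lit 6404) (nat_lit 2) (nat_lit 13))
    (@En.n l3928 (nat_lit 9009) (nat_lit 3) (nat_lit 6))
    (@En.i (nat_lit 8590) (nat_lit 4) (nat_lit 10))
    (@En.n l3786 (nat_lit 9788) (nat_lit 6) (nat_lit 12))
    (@En.n l3787 (nat_lit 10526) (nat_lit 12) (nat_lit 4))
    (@En.i (nat_lit 4329) (nat_lit 7) (nat_lit 4))
    (@En.n l31495 (nat_lit 5940) (nat_lit 0) (nat_lit 5))
    (@En.n l2337 (nat_lit 9394) (nat_lit 10) (nat_lit 10))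
    (@En.n l601 (nat_lit 6402) (nat_lit 4) (nat_lit 12))
    (@En.n l28 (nat_lit 9749) (nat_lit 12) (nat_lit 12))
    (@En.i (nat_lit 9059) (nat_lit 4) (nat_lit 4))
    (@En.n l16180 (nat_lit 11893) (nat_lit 14) (nat_lit 11))
    (@En.n l152 (nat_lit 7690) (nat_lit 12) (nat_lit 6))
    (@En.n l117 (nat_lit 6407) (nat_lit 15) (nat_lit 3))))
  (@Cl.mk (nat_lit 0x30006000b0005000c000c000a000500040004000b000a0006000d000b0005) (nat_lit 0x15000000a00) (nat_lit 16) Lb.e (@T16.mk En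
    (@En.n l3866 (nat_lit 8909) (nat_lit 0) (nat_lit 5))
    (@En.n l42519 (nat_lit 10531) (nat_lit 10) (nat_lit 11))
    (@En.n l42520 (nat_lit 6405) (nat_lit 2) (nat_lit 13))
    (@En.n l8638 (nat_lit 8981) (nat_lit 3) (nat_lit 6))
    (@En.n l97 (nat_lit 9743) (nat_lit 4) (nat_lit 10))
    (@En.i (nat_lit 9471) (nat_lit 6) (nat_lit 11))
    (@En.n l3787 (nat_lit 10527) (nat_lit 12) (nat_lit 4))
    (@En.i (nat_lit 10150) (nat_lit 7) (nat_lit 4))
    (@En.n l42521 (nat_lit 6233) (nat_lit 0) (nat_lit 5))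
    (@En.n l2337 (nat_lit 9393) (nat_lit 10) (nat_lit 10))
    (@En.n l601 (nat_lit 6403) (nat_lit 4) (nat_lit 12))
    (@En.n l17986 (nat_lit 9748) (nat_lit 12) (nat_lit 12))
    (@En.n l7227 (nat_lit 11045) (nat_lit 4) (nat_lit 5))
    (@En.n l42522 (nat_lit 12424) (nat_lit 14) (nat_lit 11))
    (@En.i (nat_lit 10125) (nat_lit 12) (nat_lit 6))
    (@En.n l152 (nat_lit 6406) (nat_lit 15) (nat_lit 3))))
  (@Cl.mk (nat_lit 0x2000c000b000b000a0004000b00050005000c00060005000d0004000e0003) (nat_lit 0x879204009003040) (nat_lit 16) Lb.e (@T16.mk En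
    (@En.i (nat_lit 6334) (nat_lit 15) (nat_lit 3))
    (@En.n l26224 (nat_lit 13905) (nat_lit 0) (nat_lit 14))
    (@En.i (nat_lit 6398) (nat_lit 2) (nat_lit 4))
    (@En.i (nat_lit 8500) (nat_lit 2) (nat_lit 13))
    (@En.n l5781 (nat_lit 2371) (nat_lit 4) (nat_lit 5))
    (@En.i (nat_lit 1131) (nat_lit 5) (nat_lit 6))
    (@En.n l134 (nat_lit 9285) (nat_lit 7) (nat_lit 12))
    (@En.n l16928 (nat_lit 6410) (nat_lit 11) (nat_lit 5))
    (@En.n l387 (nat_lit 6318) (nat_lit 8) (nat_lit 5))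
    (@En.i (nat_lit 457) (nat_lit 10) (nat_lit 11))
    (@En.n l1950 (nat_lit 6415) (nat_lit 10) (nat_lit 4))
    (@En.n l55 (nat_lit 6236) (nat_lit 12) (nat_lit 10))
    (@En.n l1952 (nat_lit 6426) (nat_lit 5) (nat_lit 11))
    (@En.n l1106 (nat_lit 6231) (nat_lit 14) (nat_lit 11))
    (@En.n l1738 (nat_lit 8494) (nat_lit 14) (nat_lit 12))
    (@En.n l18 (nat_lit 6408) (nat_lit 15) (nat_lit 2))))
  (@Cl.mk (nat_lit 0x2000b0005000c0005000b00050004000d000d000500030003000b000e000b) (nat_lit 0x303030024000878) (nat_lit 16) Lb.e (@T16.mk En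
    (@En.n l14493 (nat_lit 6334) (nat_lit 12) (nat_lit 11))
    (@En.i (nat_lit 4843) (nat_lit 4) (nat_lit 14))
    (@En.n l15093 (nat_lit 2625) (nat_lit 2) (nat_lit 11))
    (@En.n l28732 (nat_lit 6413) (nat_lit 13) (nat_lit 3))
    (@En.n l18 (nat_lit 6410) (nat_lit 4) (nat_lit 3))
    (@En.n l3832 (nat_lit 6421) (nat_lit 0) (nat_lit 5))
    (@En.n l61 (nat_lit 6410) (nat_lit 7) (nat_lit 13))
    (@En.n l2682 (nat_lit 8714) (nat_lit 8) (nat_lit 13))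
    (@En.i (nat_lit 2268) (nat_lit 8) (nat_lit 4))
    (@En.n l2653 (nat_lit 1125) (nat_lit 9) (nat_lit 5))
    (@En.n l8806 (nat_lit 12768) (nat_lit 11) (nat_lit 11))
    (@En.n l810 (nat_lit 4494) (nat_lit 6) (nat_lit 5))
    (@En.n l15093 (nat_lit 446) (nat_lit 13) (nat_lit 12))
    (@En.n l5915 (nat_lit 6412) (nat_lit 14) (nat_lit 5))
    (@En.n l5955 (nat_lit 6329) (nat_lit 10) (nat_lit 11))
    (@En.n l3 (nat_lit 6409) (nat_lit 15) (nat_lit 2))))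
  (@Cl.mk (nat_lit 0x2000b0005000c0005000c00050004000d0004000e00030002000b000e000b) (nat_lit 0x303000030000878) (nat_lit 16) Lb.e (@T16.mk En
    (@En.n l14493 (nat_lit 6408) (nat_lit 13) (nat_lit 11))
    (@En.i (nat_lit 4842) (nat_lit 4) (nat_lit 14))
    (@En.i (nat_lit 2623) (nat_lit 2) (nat_lit 11))
    (@En.n l17 (nat_lit 6410) (nat_lit 3) (nat_lit 2))
    (@En.i (nat_lit 6409) (nat_lit 4) (nat_lit 3))
    (@En.n l5448 (nat_lit 13903) (nat_lit 0) (nat_lit 14))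
    (@En.i (nat_lit 6419) (nat_lit 6) (nat_lit 4))
    (@En.n l2682 (nat_lit 8716) (nat_lit 8) (nat_lit 13))
    (@En.i (nat_lit 2373) (nat_lit 4) (nat_lit 4))
    (@En.i (nat_lit 1201) (nat_lit 5) (nat_lit 5))
    (@En.n l18556 (nat_lit 12770) (nat_lit 7) (nat_lit 12))
    (@En.n l810 (nat_lit 4501) (nat_lit 7) (nat_lit 5))
    (@En.n l8796 (nat_lit 456) (nat_lit 9) (nat_lit 12))
    (@En.n l2657 (nat_lit 6411) (nat_lit 14) (nat_lit 5))
    (@En.n l14776 (nat_lit 6331) (nat_lit 11) (nat_lit 11))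
    (@En.n l3 (nat_lit 6410) (nat_lit 15) (nat_lit 2))))
  (@Cl.mk (nat_lit 0x20005000c0004000c00080004000d0004000e00030002000b0008000e000c) (nat_lit 0x30030000009489) (nat_lit 16) Lb.e (@T16.mk En
    (@En.n l700 (nat_lit 6415) (nat_lit 12) (nat_lit 12))
    (@En.n l1029 (nat_lit 6410) (nat_lit 1) (nat_lit 14))
    (@En.n l7794 (nat_lit 3009) (nat_lit 14) (nat_lit 8))
    (@En.n l5 (nat_lit 6416) (nat_lit 3) (nat_lit 11))
    (@En.n l50 (nat_lit 6411) (nat_lit 4) (nat_lit 2))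
    (@En.n l7 (nat_lit 6412) (nat_lit 5) (nat_lit 3))
    (@En.n l4361 (nat_lit 13902) (nat_lit 0) (nat_lit 14))
    (@En.n l28 (nat_lit 6418) (nat_lit 7) (nat_lit 4))
    (@En.n l2266 (nat_lit 8157) (nat_lit 9) (nat_lit 13))
    (@En.n l685 (nat_lit 2233) (nat_lit 9) (nat_lit 4))
    (@En.i (nat_lit 6168) (nat_lit 11) (nat_lit 8))
    (@En.n l9647 (nat_lit 12115) (nat_lit 12) (nat_lit 12))
    (@En.n l17055 (nat_lit 4503) (nat_lit 7) (nat_lit 4))
    (@En.n l2352 (nat_lit 554) (nat_lit 9) (nat_lit 12))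
    (@En.n l1034 (nat_lit 5942) (nat_lit 9) (nat_lit 5))
    (@En.n l3 (nat_lit 6411) (nat_lit 15) (nat_lit 2))))
  (@Cl.mk (nat_lit 0x20005000c0004000b00080004000d000d000500030003000b0008000e000c) (nat_lit 0x20030010008589) (nat_lit 16) Lb.e (@T16.mk En
    (@En.n l2331 (nat_lit 6336) (nat_lit 11) (nat_lit 12))
    (@En.n l2073 (nat_lit 6409) (nat_lit 1) (nat_lit 14))
    (@En.n l3948 (nat_lit 3007) (nat_lit 2) (nat_lit 8))
    (@En.n l3786 (nat_lit 6417) (nat_lit 3) (nat_lit 11))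
    (@En.n l3787 (nat_lit 6414) (nat_lit 4) (nat_lit 3))
    (@En.i (nat_lit 6411) (nat_lit 5) (nat_lit 3))
    (@En.n l77 (nat_lit 6420) (nat_lit 6) (nat_lit 5))
    (@En.n l601 (nat_lit 6411) (nat_lit 8) (nat_lit 13))
    (@En.n l6662 (nat_lit 8156) (nat_lit 9) (nat_lit 13))
    (@En.n l688 (nat_lit 2231) (nat_lit 9) (nat_lit 4))
    (@En.n l3948 (nat_lit 6164) (nat_lit 11) (nat_lit 8))
    (@En.n l6029 (nat_lit 12117) (nat_lit 12) (nat_lit 11))
    (@En.n l117 (nat_lit 4497) (nat_lit 6) (nat_lit 4))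
    (@En.n l4839 (nat_lit 552) (nat_lit 14) (nat_lit 12))
    (@En.n l2081 (nat_lit 5939) (nat_lit 13) (nat_lit 5))
    (@En.n l3 (nat_lit 6412) (nat_lit 15) (nat_lit 2))))
  (@Cl.mk (nat_lit 0x200060003000b000e000b0002000b0005000c0005000a00050004000e000d) (nat_lit 0x87803030000a3) (nat_lit 16) Lb.e (@T16.mk En
    (@En.n l12374 (nat_lit 6409) (nat_lit 7) (nat_lit 13))
    (@En.n l2940 (nat_lit 8713) (nat_lit 1) (nat_lit 14))
    (@En.n l2101 (nat_lit 2266) (nat_lit 2) (nat_lit 4))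
    (@En.n l25664 (nat_lit 1123) (nat_lit 3) (nat_lit 5))
    (@En.n l2869 (nat_lit 12741) (nat_lit 4) (nat_lit 10))
    (@En.n l15089 (nat_lit 4493) (nat_lit 5) (nat_lit 5))
    (@En.i (nat_lit 455) (nat_lit 7) (nat_lit 12))
    (@En.n l25665 (nat_lit 6414) (nat_lit 14) (nat_lit 5))
    (@En.n l9060 (nat_lit 6330) (nat_lit 9) (nat_lit 11))
    (@En.n l7 (nat_lit 6413) (nat_lit 9) (nat_lit 2))
    (@En.n l9926 (nat_lit 6335) (nat_lit 11) (nat_lit 11))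
    (@En.n l2921 (nat_lit 4850) (nat_lit 12) (nat_lit 14))
    (@En.i (nat_lit 7181) (nat_lit 13) (nat_lit 11))
    (@En.n l19237 (nat_lit 6409) (nat_lit 3) (nat_lit 3))
    (@En.n l25666 (nat_lit 2534) (nat_lit 4) (nat_lit 6))
    (@En.n l107 (nat_lit 6413) (nat_lit 15) (nat_lit 2))))
  (@Cl.mk (nat_lit 0x20005000c0004000a00080004000e000d000200060003000b0008000e000c) (nat_lit 0x30030510009589) (nat_lit 16) Lb.e (@T16.mk En
    (@En.n l4163 (nat_lit 6337) (nat_lit 10) (nat_lit 12))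
    (@En.n l9770 (nat_lit 6413) (nat_lit 11) (nat_lit 14))
    (@En.n l4855 (nat_lit 3008) (nat_lit 12) (nat_lit 8))
    (@En.n l1501 (nat_lit 7178) (nat_lit 3) (nat_lit 11))
    (@En.n l7 (nat_lit 6412) (nat_lit 4) (nat_lit 3))
    (@En.n l3230 (nat_lit 2535) (nat_lit 5) (nat_lit 6))
    (@En.n l7 (nat_lit 6414) (nat_lit 6) (nat_lit 2))
    (@En.n l644 (nat_lit 6412) (nat_lit 8) (nat_lit 13))
    (@En.n l4855 (nat_lit 8708) (nat_lit 9) (nat_lit 14))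
    (@En.n l11958 (nat_lit 2265) (nat_lit 2) (nat_lit 4))
    (@En.n l4855 (nat_lit 6165) (nat_lit 11) (nat_lit 8))
    (@En.n l11959 (nat_lit 12740) (nat_lit 12) (nat_lit 10))
    (@En.n l117 (nat_lit 4498) (nat_lit 5) (nat_lit 4))
    (@En.n l1501 (nat_lit 553) (nat_lit 7) (nat_lit 12))
    (@En.n l1347 (nat_lit 5941) (nat_lit 7) (nat_lit 5))
    (@En.n l3 (nat_lit 6414) (nat_lit 15) (nat_lit 2))))
  (@Cl.mk (nat_lit 0x2000c0008000c000c0004000b00040004000c00080005000d0004000e0003) (nat_lit 0x91880300040b080) (nat_lit 16) Lb.e (@T16.mk En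
    (@En.i (nat_lit 6336) (nat_lit 15) (nat_lit 3))
    (@En.i (nat_lit 13904) (nat_lit 0) (nat_lit 14))
    (@En.i (nat_lit 6253) (nat_lit 2) (nat_lit 4))
    (@En.n l615 (nat_lit 8154) (nat_lit 2) (nat_lit 13))
    (@En.n l11939 (nat_lit 2227) (nat_lit 4) (nat_lit 5))
    (@En.i (nat_lit 6169) (nat_lit 5) (nat_lit 8))
    (@En.i (nat_lit 12108) (nat_lit 7) (nat_lit 12))
    (@En.n l1282 (nat_lit 6411) (nat_lit 12) (nat_lit 4))
    (@En.n l11940 (nat_lit 6243) (nat_lit 8) (nat_lit 4))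
    (@En.n l616 (nat_lit 556) (nat_lit 10) (nat_lit 11))
    (@En.n l11941 (nat_lit 6232) (nat_lit 10) (nat_lit 4))
    (@En.n l55 (nat_lit 6424) (nat_lit 4) (nat_lit 12))
    (@En.n l615 (nat_lit 6237) (nat_lit 13) (nat_lit 12))
    (@En.n l2691 (nat_lit 1212) (nat_lit 14) (nat_lit 8))
    (@En.n l3447 (nat_lit 8146) (nat_lit 14) (nat_lit 12))
    (@En.n l17 (nat_lit 6415) (nat_lit 15) (nat_lit 2))))
noncomputable def a401 : T16 Cl := @T16.mk Cl
  (@Cl.mk (nat_lit 0x200050008000c0005000c00090004000d000400080003000b0007000e000b) (nat_lit 0x23005030008019) (nat_lit 16) Lb.e (@T16.mk En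
    (@En.n l13834 (nat_lit 8146) (nat_lit 12) (nat_lit 11))
    (@En.n l10211 (nat_lit 2623) (nat_lit 1) (nat_lit 14))
    (@En.n l15544 (nat_lit 9831) (nat_lit 2) (nat_lit 7))
    (@En.n l19426 (nat_lit 8144) (nat_lit 3) (nat_lit 11))
    (@En.i (nat_lit 6417) (nat_lit 4) (nat_lit 3))
    (@En.n l766 (nat_lit 6968) (nat_lit 5) (nat_lit 8))
    (@En.i (nat_lit 8466) (nat_lit 6) (nat_lit 4))
    (@En.n l15994 (nat_lit 8155) (nat_lit 8) (nat_lit 13))
    (@En.n l916 (nat_lit 2472) (nat_lit 8) (nat_lit 4))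
    (@En.n l15544 (nat_lit 7678) (nat_lit 10) (nat_lit 9))
    (@En.n l1253 (nat_lit 11903) (nat_lit 11) (nat_lit 12))
    (@En.n l22387 (nat_lit 10661) (nat_lit 12) (nat_lit 5))
    (@En.n l1722 (nat_lit 6412) (nat_lit 13) (nat_lit 12))
    (@En.n l22388 (nat_lit 7094) (nat_lit 14) (nat_lit 8))
    (@En.n l12423 (nat_lit 6273) (nat_lit 13) (nat_lit 5))
    (@En.n l3 (nat_lit 6416) (nat_lit 15) (nat_lit 2))))
  (@Cl.mk (nat_lit 0x200050009000c0005000b00090004000d000700050003000b0007000e000b) (nat_lit 0x4034020007019) (nat_lit 16) Lb.e (@T16.mk En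
    (@En.n l9768 (nat_lit 8147) (nat_lit 12) (nat_lit 11))
    (@En.n l9769 (nat_lit 2625) (nat_lit 1) (nat_lit 14))
    (@En.n l9770 (nat_lit 9829) (nat_lit 2) (nat_lit 7))
    (@En.n l9771 (nat_lit 7179) (nat_lit 3) (nat_lit 11))
    (@En.n l7 (nat_lit 6416) (nat_lit 4) (nat_lit 3))
    (@En.n l7688 (nat_lit 8987) (nat_lit 5) (nat_lit 5))
    (@En.i (nat_lit 8144) (nat_lit 6) (nat_lit 7))
    (@En.n l7690 (nat_lit 8151) (nat_lit 8) (nat_lit 13))
    (@En.n l7688 (nat_lit 2468) (nat_lit 8) (nat_lit 4))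
    (@En.n l9770 (nat_lit 7677) (nat_lit 10) (nat_lit 9))
    (@En.n l9772 (nat_lit 12735) (nat_lit 11) (nat_lit 11))
    (@En.n l5237 (nat_lit 10664) (nat_lit 12) (nat_lit 5))
    (@En.n l1208 (nat_lit 6414) (nat_lit 13) (nat_lit 12))
    (@En.n l3144 (nat_lit 7096) (nat_lit 14) (nat_lit 9))
    (@En.i (nat_lit 6272) (nat_lit 13) (nat_lit 5))
    (@En.n l3 (nat_lit 6417) (nat_lit 15) (nat_lit 2))))
  (@Cl.mk (nat_lit 0x20005000b0004000c000b000900050004000e00050002000b0007000e000c) (nat_lit 0x10015002007051) (nat_lit 16) Lb.e (@T16.mk En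
    (@En.n l6612 (nat_lit 6253) (nat_lit 12) (nat_lit 12))
    (@En.n l6841 (nat_lit 6419) (nat_lit 1) (nat_lit 14))
    (@En.n l4543 (nat_lit 2319) (nat_lit 14) (nat_lit 7))
    (@En.n l5342 (nat_lit 8466) (nat_lit 3) (nat_lit 11))
    (@En.n l50 (nat_lit 6418) (nat_lit 4) (nat_lit 2))
    (@En.n l7 (nat_lit 7643) (nat_lit 5) (nat_lit 5))
    (@En.n l532 (nat_lit 7609) (nat_lit 7) (nat_lit 14))
    (@En.i (nat_lit 8579) (nat_lit 7) (nat_lit 4))
    (@En.n l6842 (nat_lit 2234) (nat_lit 8) (nat_lit 5))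
    (@En.n l55 (nat_lit 8637) (nat_lit 10) (nat_lit 9))
    (@En.n l55 (nat_lit 6412) (nat_lit 11) (nat_lit 11))
    (@En.n l11 (nat_lit 10095) (nat_lit 12) (nat_lit 12))
    (@En.n l117 (nat_lit 6247) (nat_lit 7) (nat_lit 4))
    (@En.n l5416 (nat_lit 335) (nat_lit 9) (nat_lit 11))
    (@En.i (nat_lit 6284) (nat_lit 9) (nat_lit 5))
    (@En.n l3 (nat_lit 6418) (nat_lit 15) (nat_lit 2))))
  (@Cl.mk (nat_lit 0x2000a0005000b0005000c000b000600050004000e00050002000b000e000b) (nat_lit 0x603084000500842) (nat_lit 16) Lb.e (@T16.mk En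
    (@En.n l14493 (nat_lit 6398) (nat_lit 13) (nat_lit 11))
    (@En.i (nat_lit 4844) (nat_lit 4) (nat_lit 14))
    (@En.i (nat_lit 2626) (nat_lit 2) (nat_lit 11))
    (@En.n l17 (nat_lit 6419) (nat_lit 3) (nat_lit 2))
    (@En.n l14780 (nat_lit 7645) (nat_lit 4) (nat_lit 5))
    (@En.n l998 (nat_lit 7611) (nat_lit 1) (nat_lit 14))
    (@En.n l14781 (nat_lit 8581) (nat_lit 6) (nat_lit 4))
    (@En.i (nat_lit 2245) (nat_lit 3) (nat_lit 5))
    (@En.n l3832 (nat_lit 7142) (nat_lit 8) (nat_lit 6))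
    (@En.n l217 (nat_lit 6409) (nat_lit 10) (nat_lit 11))
    (@En.n l1638 (nat_lit 10098) (nat_lit 11) (nat_lit 12))
    (@En.n l810 (nat_lit 6250) (nat_lit 7) (nat_lit 5))
    (@En.n l8796 (nat_lit 993) (nat_lit 9) (nat_lit 11))
    (@En.n l14782 (nat_lit 6418) (nat_lit 14) (nat_lit 5))
    (@En.n l14781 (nat_lit 6388) (nat_lit 11) (nat_lit 10))
    (@En.n l3 (nat_lit 6419) (nat_lit 15) (nat_lit 2))))
  (@Cl.mk (nat_lit 0x20005000b0004000b000a00090005000e000500020006000b0007000e000c) (nat_lit 0x30014080009043) (nat_lit 16) Lb.e (@T16.mk En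
    (@En.i (nat_lit 6309) (nat_lit 11) (nat_lit 12))
    (@En.i (nat_lit 6421) (nat_lit 12) (nat_lit 14))
    (@En.n l4855 (nat_lit 3132) (nat_lit 13) (nat_lit 7))
    (@En.n l1039 (nat_lit 8987) (nat_lit 3) (nat_lit 11))
    (@En.i (nat_lit 2537) (nat_lit 4) (nat_lit 6))
    (@En.n l7 (nat_lit 6420) (nat_lit 5) (nat_lit 2))
    (@En.n l4110 (nat_lit 7643) (nat_lit 6) (nat_lit 5))
    (@En.n l4414 (nat_lit 8193) (nat_lit 8) (nat_lit 14))
    (@En.n l1039 (nat_lit 770) (nat_lit 8) (nat_lit 5))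
    (@En.n l217 (nat_lit 7413) (nat_lit 10) (nat_lit 9))
    (@En.i (nat_lit 6414) (nat_lit 11) (nat_lit 10))
    (@En.i (nat_lit 12358) (nat_lit 12) (nat_lit 11))
    (@En.n l117 (nat_lit 4428) (nat_lit 6) (nat_lit 4))
    (@En.n l1501 (nat_lit 1054) (nat_lit 8) (nat_lit 11))
    (@En.i (nat_lit 6289) (nat_lit 8) (nat_lit 5))
    (@En.n l3 (nat_lit 6420) (nat_lit 15) (nat_lit 2))))
  (@Cl.mk (nat_lit 0x20006000b000e000b0002000a0005000b0005000b000a00060005000e0005) (nat_lit 0x83203030010090) (nat_lit 16) Lb.e (@T16.mk En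
    (@En.n l4110 (nat_lit 7645) (nat_lit 5) (nat_lit 5))
    (@En.n l16088 (nat_lit 8191) (nat_lit 1) (nat_lit 14))
    (@En.n l8810 (nat_lit 772) (nat_lit 2) (nat_lit 5))
    (@En.n l22013 (nat_lit 8276) (nat_lit 8) (nat_lit 6))
    (@En.n l9770 (nat_lit 6413) (nat_lit 4) (nat_lit 10))
    (@En.n l20267 (nat_lit 12359) (nat_lit 11) (nat_lit 11))
    (@En.n l22268 (nat_lit 4432) (nat_lit 6) (nat_lit 5))
    (@En.n l9770 (nat_lit 1259) (nat_lit 8) (nat_lit 11))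
    (@En.n l17 (nat_lit 6420) (nat_lit 14) (nat_lit 5))
    (@En.i (nat_lit 7529) (nat_lit 10) (nat_lit 10))
    (@En.n l3 (nat_lit 6421) (nat_lit 10) (nat_lit 2))
    (@En.n l4163 (nat_lit 7530) (nat_lit 12) (nat_lit 11))
    (@En.n l8810 (nat_lit 5249) (nat_lit 13) (nat_lit 14))
    (@En.n l22269 (nat_lit 8989) (nat_lit 2) (nat_lit 11))
    (@En.n l3222 (nat_lit 2536) (nat_lit 3) (nat_lit 6))
    (@En.n l7 (nat_lit 6421) (nat_lit 15) (nat_lit 2))))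
  (@Cl.mk (nat_lit 0x2000c000b000800070004000e00050002000d000b000800030009000e0005) (nat_lit 0xa92001008520320) (nat_lit 16) Lb.e (@T16.mk En
    (@En.n l16016 (nat_lit 6398) (nat_lit 8) (nat_lit 5))
    (@En.i (nat_lit 2672) (nat_lit 1) (nat_lit 14))
    (@En.n l473 (nat_lit 615) (nat_lit 11) (nat_lit 9))
    (@En.n l16017 (nat_lit 6423) (nat_lit 3) (nat_lit 3))
    (@En.n l15450 (nat_lit 1930) (nat_lit 0) (nat_lit 8))
    (@En.n l217 (nat_lit 6245) (nat_lit 14) (nat_lit 11))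
    (@En.n l6567 (nat_lit 8380) (nat_lit 7) (nat_lit 13))
    (@En.n l28 (nat_lit 6422) (nat_lit 7) (nat_lit 2))
    (@En.i (nat_lit 2411) (nat_lit 8) (nat_lit 5))
    (@En.n l11283 (nat_lit 898) (nat_lit 1) (nat_lit 14))
    (@En.n l152 (nat_lit 8369) (nat_lit 10) (nat_lit 4))
    (@En.n l6576 (nat_lit 2247) (nat_lit 3) (nat_lit 7))
    (@En.i (nat_lit 6295) (nat_lit 4) (nat_lit 8))
    (@En.n l16018 (nat_lit 6427) (nat_lit 14) (nat_lit 11))
    (@En.n l1236 (nat_lit 9053) (nat_lit 7) (nat_lit 12))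
    (@En.n l17 (nat_lit 6422) (nat_lit 15) (nat_lit 2))))
  (@Cl.mk (nat_lit 0x2000c000b000900070004000e00050002000d0007000c00030009000e0004) (nat_lit 0xa97001008020140) (nat_lit 16) Lb.e (@T16.mk En
    (@En.i (nat_lit 6253) (nat_lit 8) (nat_lit 4))
    (@En.n l1262 (nat_lit 2673) (nat_lit 1) (nat_lit 14))
    (@En.n l152 (nat_lit 333) (nat_lit 11) (nat_lit 9))
    (@En.n l1262 (nat_lit 6422) (nat_lit 3) (nat_lit 3))
    (@En.n l1643 (nat_lit 7978) (nat_lit 0) (nat_lit 12))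
    (@En.i (nat_lit 2926) (nat_lit 14) (nat_lit 7))
    (@En.i (nat_lit 8353) (nat_lit 7) (nat_lit 13))
    (@En.n l17 (nat_lit 6423) (nat_lit 7) (nat_lit 2))
    (@En.n l1262 (nat_lit 2413) (nat_lit 8) (nat_lit 5))
    (@En.n l5 (nat_lit 901) (nat_lit 1) (nat_lit 14))
    (@En.n l13323 (nat_lit 8368) (nat_lit 10) (nat_lit 4))
    (@En.n l97 (nat_lit 2376) (nat_lit 12) (nat_lit 7))
    (@En.n l1262 (nat_lit 8323) (nat_lit 4) (nat_lit 9))
    (@En.n l217 (nat_lit 6425) (nat_lit 14) (nat_lit 11))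
    (@En.n l7865 (nat_lit 11585) (nat_lit 7) (nat_lit 12))
    (@En.n l28 (nat_lit 6423) (nat_lit 15) (nat_lit 2))))
  (@Cl.mk (nat_lit 0x2000c00080006000d0004000e00030002000d0008000c0003000a000e0004) (nat_lit 0x950304008370140) (nat_lit 16) Lb.e (@T16.mk En
    (@En.i (nat_lit 6415) (nat_lit 8) (nat_lit 4))
    (@En.n l4758 (nat_lit 3781) (nat_lit 10) (nat_lit 14))
    (@En.n l152 (nat_lit 570) (nat_lit 11) (nat_lit 10))
    (@En.i (nat_lit 6426) (nat_lit 3) (nat_lit 3))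
    (@En.n l1643 (nat_lit 6314) (nat_lit 0) (nat_lit 12))
    (@En.i (nat_lit 2950) (nat_lit 14) (nat_lit 8))
    (@En.i (nat_lit 6430) (nat_lit 7) (nat_lit 13))
    (@En.n l17 (nat_lit 6424) (nat_lit 7) (nat_lit 2))
    (@En.i (nat_lit 6425) (nat_lit 8) (nat_lit 3))
    (@En.i (nat_lit 13908) (nat_lit 0) (nat_lit 14))
    (@En.i (nat_lit 6423) (nat_lit 10) (nat_lit 4))
    (@En.n l1643 (nat_lit 8687) (nat_lit 12) (nat_lit 13))
    (@En.n l97 (nat_lit 2374) (nat_lit 13) (nat_lit 6))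
    (@En.i (nat_lit 6204) (nat_lit 14) (nat_lit 8))
    (@En.i (nat_lit 9060) (nat_lit 7) (nat_lit 12))
    (@En.n l28 (nat_lit 6424) (nat_lit 15) (nat_lit 2))))
  (@Cl.mk (nat_lit 0x2000b00080006000d000d000500030003000d0008000c0003000a000e0004) (nat_lit 0x850240008120240) (nat_lit 16) Lb.e (@T16.mk En
    (@En.i (nat_lit 6336) (nat_lit 7) (nat_lit 4))
    (@En.n l4758 (nat_lit 3783) (nat_lit 1) (nat_lit 14))
    (@En.n l152 (nat_lit 539) (nat_lit 2) (nat_lit 10))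
    (@En.i (nat_lit 6427) (nat_lit 3) (nat_lit 3))
    (@En.n l1643 (nat_lit 6316) (nat_lit 0) (nat_lit 12))
    (@En.i (nat_lit 1213) (nat_lit 5) (nat_lit 8))
    (@En.i (nat_lit 6431) (nat_lit 7) (nat_lit 13))
    (@En.n l2101 (nat_lit 6428) (nat_lit 13) (nat_lit 3))
    (@En.n l18 (nat_lit 6424) (nat_lit 8) (nat_lit 3))
    (@En.n l3428 (nat_lit 7532) (nat_lit 0) (nat_lit 5))
    (@En.n l61 (nat_lit 6424) (nat_lit 11) (nat_lit 13))
    (@En.n l1643 (nat_lit 8681) (nat_lit 12) (nat_lit 13))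
    (@En.n l97 (nat_lit 2377) (nat_lit 13) (nat_lit 6))
    (@En.n l7918 (nat_lit 6202) (nat_lit 14) (nat_lit 8))
    (@En.i (nat_lit 9058) (nat_lit 11) (nat_lit 11))
    (@En.n l28 (nat_lit 6425) (nat_lit 15) (nat_lit 2))))
  (@Cl.mk (nat_lit 0x2000c00070006000d0004000e00030002000d000b00090003000a000e0005) (nat_lit 0x900304008810320) (nat_lit 16) Lb.e (@T16.mk En
    (@En.n l2683 (nat_lit 6408) (nat_lit 8) (nat_lit 5))
    (@En.n l17213 (nat_lit 3782) (nat_lit 1) (nat_lit 14))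
    (@En.n l2381 (nat_lit 613) (nat_lit 11) (nat_lit 10))
    (@En.n l107 (nat_lit 6424) (nat_lit 3) (nat_lit 3))
    (@En.n l2381 (nat_lit 874) (nat_lit 0) (nat_lit 9))
    (@En.n l17884 (nat_lit 6243) (nat_lit 14) (nat_lit 11))
    (@En.i (nat_lit 6432) (nat_lit 7) (nat_lit 13))
    (@En.n l17 (nat_lit 6426) (nat_lit 7) (nat_lit 2))
    (@En.i (nat_lit 6427) (nat_lit 8) (nat_lit 3))
    (@En.i (nat_lit 13907) (nat_lit 0) (nat_lit 14))
    (@En.n l1262 (nat_lit 6422) (nat_lit 10) (nat_lit 4))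
    (@En.n l2381 (nat_lit 8683) (nat_lit 12) (nat_lit 13))
    (@En.n l97 (nat_lit 2372) (nat_lit 13) (nat_lit 6))
    (@En.i (nat_lit 1133) (nat_lit 14) (nat_lit 7))
    (@En.n l24351 (nat_lit 9063) (nat_lit 7) (nat_lit 12))
    (@En.n l28 (nat_lit 6426) (nat_lit 15) (nat_lit 2))))
  (@Cl.mk (nat_lit 0x2000b00070006000d000d000500030003000d000b00090003000a000e0005) (nat_lit 0x800240008810320) (nat_lit 16) Lb.e (@T16.mk En
    (@En.n l2683 (nat_lit 6334) (nat_lit 7) (nat_lit 5))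
    (@En.n l17213 (nat_lit 3645) (nat_lit 1) (nat_lit 14))
    (@En.i (nat_lit 485) (nat_lit 2) (nat_lit 10))
    (@En.n l107 (nat_lit 6425) (nat_lit 3) (nat_lit 3))
    (@En.n l2476 (nat_lit 872) (nat_lit 0) (nat_lit 9))
    (@En.n l17884 (nat_lit 6242) (nat_lit 13) (nat_lit 11))
    (@En.n l10818 (nat_lit 6433) (nat_lit 7) (nat_lit 13))
    (@En.n l21767 (nat_lit 6429) (nat_lit 13) (nat_lit 3))
    (@En.n l18 (nat_lit 6426) (nat_lit 8) (nat_lit 3))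
    (@En.n l3428 (nat_lit 7531) (nat_lit 0) (nat_lit 5))
    (@En.n l61 (nat_lit 6426) (nat_lit 11) (nat_lit 13))
    (@En.n l2381 (nat_lit 8680) (nat_lit 12) (nat_lit 13))
    (@En.n l97 (nat_lit 2275) (nat_lit 13) (nat_lit 6))
    (@En.n l17206 (nat_lit 1132) (nat_lit 14) (nat_lit 7))
    (@En.i (nat_lit 9057) (nat_lit 11) (nat_lit 11))
    (@En.n l28 (nat_lit 6427) (nat_lit 15) (nat_lit 2))))
  (@Cl.mk (nat_lit 0x200060003000d0008000c0003000a000e00040002000a00080006000e000d) (nat_lit 0x8270140005023) (nat_lit 16) Lb.e (@T16.mk En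
    (@En.n l1012 (nat_lit 6425) (nat_lit 11) (nat_lit 13))
    (@En.n l1063 (nat_lit 8676) (nat_lit 1) (nat_lit 14))
    (@En.n l1598 (nat_lit 2379) (nat_lit 2) (nat_lit 6))
    (@En.n l14572 (nat_lit 6201) (nat_lit 14) (nat_lit 8))
    (@En.n l1823 (nat_lit 9184) (nat_lit 4) (nat_lit 10))
    (@En.n l11 (nat_lit 6428) (nat_lit 5) (nat_lit 2))
    (@En.n l117 (nat_lit 6337) (nat_lit 6) (nat_lit 4))
    (@En.n l3486 (nat_lit 3787) (nat_lit 8) (nat_lit 14))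
    (@En.i (nat_lit 571) (nat_lit 9) (nat_lit 10))
    (@En.n l14572 (nat_lit 6429) (nat_lit 9) (nat_lit 3))
    (@En.i (nat_lit 6319) (nat_lit 11) (nat_lit 12))
    (@En.n l4559 (nat_lit 2951) (nat_lit 12) (nat_lit 8))
    (@En.i (nat_lit 5347) (nat_lit 13) (nat_lit 13))
    (@En.n l3291 (nat_lit 6425) (nat_lit 7) (nat_lit 3))
    (@En.n l5381 (nat_lit 6704) (nat_lit 8) (nat_lit 6))
    (@En.n l18 (nat_lit 6428) (nat_lit 15) (nat_lit 2))))
  (@Cl.mk (nat_lit 0x200060003000d000b00090003000a000e00050002000a00070006000e000d) (nat_lit 0x8610320000023) (nat_lit 16) Lb.e (@T16.mk En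
    (@En.n l12400 (nat_lit 6427) (nat_lit 11) (nat_lit 13))
    (@En.n l311 (nat_lit 8677) (nat_lit 1) (nat_lit 14))
    (@En.n l12401 (nat_lit 2274) (nat_lit 2) (nat_lit 6))
    (@En.i (nat_lit 1136) (nat_lit 14) (nat_lit 7))
    (@En.n l12402 (nat_lit 9186) (nat_lit 4) (nat_lit 10))
    (@En.n l18 (nat_lit 6429) (nat_lit 5) (nat_lit 2))
    (@En.n l12403 (nat_lit 6335) (nat_lit 6) (nat_lit 5))
    (@En.n l12404 (nat_lit 3643) (nat_lit 8) (nat_lit 14))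
    (@En.n l12405 (nat_lit 612) (nat_lit 9) (nat_lit 10))
    (@En.n l12406 (nat_lit 6428) (nat_lit 9) (nat_lit 3))
    (@En.i (nat_lit 873) (nat_lit 11) (nat_lit 9))
    (@En.n l12407 (nat_lit 6241) (nat_lit 12) (nat_lit 11))
    (@En.n l1391 (nat_lit 5351) (nat_lit 13) (nat_lit 13))
    (@En.n l12408 (nat_lit 6427) (nat_lit 7) (nat_lit 3))
    (@En.n l12409 (nat_lit 6706) (nat_lit 8) (nat_lit 6))
    (@En.n l3 (nat_lit 6429) (nat_lit 15) (nat_lit 2))))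
  (@Cl.mk (nat_lit 0x2000c00090006000d0004000a0003000d0007000b00030006000a000e0005) (nat_lit 0x40300070700350) (nat_lit 16) Lb.e (@T16.mk En
    (@En.n l3447 (nat_lit 8146) (nat_lit 7) (nat_lit 5))
    (@En.n l4758 (nat_lit 8692) (nat_lit 1) (nat_lit 14))
    (@En.n l617 (nat_lit 6425) (nat_lit 2) (nat_lit 10))
    (@En.i (nat_lit 7797) (nat_lit 12) (nat_lit 6))
    (@En.i (nat_lit 6432) (nat_lit 4) (nat_lit 3))
    (@En.n l1643 (nat_lit 8446) (nat_lit 0) (nat_lit 11))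
    (@En.i (nat_lit 9404) (nat_lit 6) (nat_lit 7))
    (@En.i (nat_lit 6434) (nat_lit 8) (nat_lit 13))
    (@En.i (nat_lit 6431) (nat_lit 8) (nat_lit 3))
    (@En.n l1504 (nat_lit 6955) (nat_lit 10) (nat_lit 10))
    (@En.i (nat_lit 8353) (nat_lit 10) (nat_lit 4))
    (@En.n l1643 (nat_lit 8689) (nat_lit 12) (nat_lit 13))
    (@En.n l97 (nat_lit 2388) (nat_lit 13) (nat_lit 6))
    (@En.i (nat_lit 6206) (nat_lit 14) (nat_lit 9))
    (@En.i (nat_lit 9065) (nat_lit 10) (nat_lit 12))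
    (@En.n l28 (nat_lit 6430) (nat_lit 15) (nat_lit 2))))
  (@Cl.mk (nat_lit 0x2000b00090006000d000900050003000d0007000b00030007000a000e0005) (nat_lit 0x560200070700250) (nat_lit 16) Lb.e (@T16.mk En
    (@En.i (nat_lit 8147) (nat_lit 7) (nat_lit 5))
    (@En.n l4758 (nat_lit 8693) (nat_lit 1) (nat_lit 14))
    (@En.n l1295 (nat_lit 6428) (nat_lit 8) (nat_lit 10))
    (@En.i (nat_lit 7798) (nat_lit 3) (nat_lit 7))
    (@En.n l10818 (nat_lit 6433) (nat_lit 4) (nat_lit 3))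
    (@En.n l1643 (nat_lit 8445) (nat_lit 0) (nat_lit 11))
    (@En.i (nat_lit 7960) (nat_lit 6) (nat_lit 7))
    (@En.n l6131 (nat_lit 5346) (nat_lit 8) (nat_lit 13))
    (@En.n l18 (nat_lit 6430) (nat_lit 8) (nat_lit 3))
    (@En.n l22425 (nat_lit 9266) (nat_lit 9) (nat_lit 5))
    (@En.n l61 (nat_lit 6434) (nat_lit 11) (nat_lit 9))
    (@En.n l1643 (nat_lit 8152) (nat_lit 12) (nat_lit 13))
    (@En.n l97 (nat_lit 2389) (nat_lit 13) (nat_lit 6))
    (@En.n l20425 (nat_lit 6205) (nat_lit 14) (nat_lit 9))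
    (@En.i (nat_lit 9655) (nat_lit 10) (nat_lit 11))
    (@En.n l28 (nat_lit 6431) (nat_lit 15) (nat_lit 2))))
noncomputable def a402 : T16 Cl := @T16.mk Cl
  (@Cl.mk (nat_lit 0x2000c00080006000d0004000a0003000d000a000800030006000a000e0006) (nat_lit 0x10300070300430) (nat_lit 16) Lb.e (@T16.mk En
    (@En.n l7948 (nat_lit 8494) (nat_lit 7) (nat_lit 6))
    (@En.n l17213 (nat_lit 8686) (nat_lit 1) (nat_lit 14))
    (@En.n l617 (nat_lit 6427) (nat_lit 2) (nat_lit 10))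
    (@En.i (nat_lit 7948) (nat_lit 12) (nat_lit 6))
    (@En.n l107 (nat_lit 6430) (nat_lit 4) (nat_lit 3))
    (@En.n l10818 (nat_lit 7745) (nat_lit 0) (nat_lit 8))
    (@En.i (nat_lit 9815) (nat_lit 14) (nat_lit 10))
    (@En.n l33556 (nat_lit 6435) (nat_lit 8) (nat_lit 13))
    (@En.n l10818 (nat_lit 6433) (nat_lit 8) (nat_lit 3))
    (@En.n l12977 (nat_lit 6612) (nat_lit 10) (nat_lit 10))
    (@En.n l10818 (nat_lit 8380) (nat_lit 10) (nat_lit 4))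
    (@En.n l2381 (nat_lit 8685) (nat_lit 12) (nat_lit 13))
    (@En.n l97 (nat_lit 2610) (nat_lit 13) (nat_lit 6))
    (@En.n l26498 (nat_lit 988) (nat_lit 14) (nat_lit 8))
    (@En.n l34513 (nat_lit 9642) (nat_lit 10) (nat_lit 12))
    (@En.n l28 (nat_lit 6432) (nat_lit 15) (nat_lit 2))))
  (@Cl.mk (nat_lit 0x2000b00080006000d000900050003000d000a000800030007000a000e0006) (nat_lit 0x510300070500430) (nat_lit 16) Lb.e (@T16.mk En
    (@En.n l18728 (nat_lit 8495) (nat_lit 7) (nat_lit 6))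
    (@En.n l3463 (nat_lit 7943) (nat_lit 1) (nat_lit 14))
    (@En.n l1501 (nat_lit 6429) (nat_lit 8) (nat_lit 10))
    (@En.n l13314 (nat_lit 7950) (nat_lit 3) (nat_lit 7))
    (@En.n l18729 (nat_lit 6431) (nat_lit 4) (nat_lit 3))
    (@En.i (nat_lit 7746) (nat_lit 0) (nat_lit 8))
    (@En.n l13314 (nat_lit 9817) (nat_lit 14) (nat_lit 10))
    (@En.n l18730 (nat_lit 5349) (nat_lit 8) (nat_lit 13))
    (@En.n l18731 (nat_lit 6432) (nat_lit 8) (nat_lit 3))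
    (@En.n l18732 (nat_lit 9264) (nat_lit 9) (nat_lit 5))
    (@En.n l18733 (nat_lit 6435) (nat_lit 11) (nat_lit 9))
    (@En.n l3681 (nat_lit 8682) (nat_lit 12) (nat_lit 13))
    (@En.n l917 (nat_lit 2440) (nat_lit 13) (nat_lit 6))
    (@En.n l1501 (nat_lit 987) (nat_lit 14) (nat_lit 8))
    (@En.n l18734 (nat_lit 9670) (nat_lit 10) (nat_lit 11))
    (@En.n l107 (nat_lit 6433) (nat_lit 15) (nat_lit 2))))
  (@Cl.mk (nat_lit 0x2000c000a000600090004000a000d0006000a000300070006000a000e0006) (nat_lit 0x670700606000360) (nat_lit 16) Lb.e (@T16.mk En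
    (@En.n l3447 (nat_lit 8145) (nat_lit 11) (nat_lit 6))
    (@En.n l4758 (nat_lit 8691) (nat_lit 1) (nat_lit 14))
    (@En.n l617 (nat_lit 6431) (nat_lit 2) (nat_lit 10))
    (@En.n l17 (nat_lit 6430) (nat_lit 3) (nat_lit 6))
    (@En.n l11403 (nat_lit 7799) (nat_lit 4) (nat_lit 7))
    (@En.n l33556 (nat_lit 6435) (nat_lit 5) (nat_lit 3))
    (@En.n l781 (nat_lit 8444) (nat_lit 0) (nat_lit 10))
    (@En.n l42125 (nat_lit 9405) (nat_lit 7) (nat_lit 6))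
    (@En.n l1112 (nat_lit 5348) (nat_lit 5) (nat_lit 13))
    (@En.n l1504 (nat_lit 6606) (nat_lit 10) (nat_lit 10))
    (@En.n l36789 (nat_lit 8411) (nat_lit 10) (nat_lit 4))
    (@En.n l1112 (nat_lit 9927) (nat_lit 12) (nat_lit 9))
    (@En.n l97 (nat_lit 2601) (nat_lit 13) (nat_lit 6))
    (@En.i (nat_lit 6210) (nat_lit 14) (nat_lit 10))
    (@En.i (nat_lit 9651) (nat_lit 9) (nat_lit 12))
    (@En.n l28 (nat_lit 6434) (nat_lit 15) (nat_lit 2))))
  (@Cl.mk (nat_lit 0x2000c0009000600090004000a000d00090007000300070006000a000e0007) (nat_lit 0x610700600000540) (nat_lit 16) Lb.e (@T16.mk En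
    (@En.n l34516 (nat_lit 8496) (nat_lit 11) (nat_lit 7))
    (@En.n l34517 (nat_lit 8690) (nat_lit 1) (nat_lit 14))
    (@En.n l34518 (nat_lit 6433) (nat_lit 2) (nat_lit 10))
    (@En.n l34519 (nat_lit 6432) (nat_lit 3) (nat_lit 6))
    (@En.n l34520 (nat_lit 7951) (nat_lit 4) (nat_lit 7))
    (@En.n l8523 (nat_lit 6434) (nat_lit 5) (nat_lit 3))
    (@En.n l25637 (nat_lit 7743) (nat_lit 0) (nat_lit 7))
    (@En.n l25675 (nat_lit 9818) (nat_lit 8) (nat_lit 9))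
    (@En.i (nat_lit 5350) (nat_lit 5) (nat_lit 13))
    (@En.n l34521 (nat_lit 6609) (nat_lit 10) (nat_lit 10))
    (@En.n l25637 (nat_lit 8424) (nat_lit 10) (nat_lit 4))
    (@En.i (nat_lit 9928) (nat_lit 12) (nat_lit 9))
    (@En.n l17720 (nat_lit 2609) (nat_lit 13) (nat_lit 6))
    (@En.n l34522 (nat_lit 986) (nat_lit 14) (nat_lit 9))
    (@En.n l34523 (nat_lit 8404) (nat_lit 9) (nat_lit 12))
    (@En.n l3 (nat_lit 6435) (nat_lit 15) (nat_lit 2))))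
  (@Cl.mk (nat_lit 0x20005000c000b000a0008000400080005000e00060002000b0008000e0008) (nat_lit 0x938203030071b0) (nat_lit 16) Lb.e (@T16.mk En
    (@En.n l5046 (nat_lit 6437) (nat_lit 12) (nat_lit 8))
    (@En.n l3 (nat_lit 5609) (nat_lit 1) (nat_lit 14))
    (@En.n l3 (nat_lit 3172) (nat_lit 14) (nat_lit 8))
    (@En.n l25187 (nat_lit 11735) (nat_lit 3) (nat_lit 11))
    (@En.n l50 (nat_lit 6436) (nat_lit 4) (nat_lit 2))
    (@En.n l25188 (nat_lit 5315) (nat_lit 5) (nat_lit 6))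
    (@En.n l25189 (nat_lit 5059) (nat_lit 7) (nat_lit 14))
    (@En.n l21972 (nat_lit 5619) (nat_lit 7) (nat_lit 5))
    (@En.n l25190 (nat_lit 6246) (nat_lit 3) (nat_lit 8))
    (@En.n l11 (nat_lit 5599) (nat_lit 9) (nat_lit 4))
    (@En.n l21972 (nat_lit 12507) (nat_lit 11) (nat_lit 8))
    (@En.n l77 (nat_lit 5576) (nat_lit 12) (nat_lit 10))
    (@En.n l25191 (nat_lit 8042) (nat_lit 13) (nat_lit 11))
    (@En.n l19439 (nat_lit 6009) (nat_lit 9) (nat_lit 12))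
    (@En.n l3106 (nat_lit 7441) (nat_lit 13) (nat_lit 5))
    (@En.n l17 (nat_lit 6436) (nat_lit 15) (nat_lit 2))))
  (@Cl.mk (nat_lit 0x2000c0009000800080004000c000a000900070004000800080006000e0007) (nat_lit 0x816309410054010) (nat_lit 16) Lb.e (@T16.mk En
    (@En.n l18638 (nat_lit 6438) (nat_lit 5) (nat_lit 7))
    (@En.n l5 (nat_lit 5051) (nat_lit 1) (nat_lit 14))
    (@En.n l39792 (nat_lit 11383) (nat_lit 2) (nat_lit 6))
    (@En.n l12935 (nat_lit 6436) (nat_lit 8) (nat_lit 8))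
    (@En.n l12936 (nat_lit 6252) (nat_lit 4) (nat_lit 8))
    (@En.n l12937 (nat_lit 5602) (nat_lit 5) (nat_lit 4))
    (@En.n l2254 (nat_lit 10336) (nat_lit 6) (nat_lit 7))
    (@En.n l16078 (nat_lit 5337) (nat_lit 7) (nat_lit 9))
    (@En.n l39793 (nat_lit 11658) (nat_lit 9) (nat_lit 10))
    (@En.n l39794 (nat_lit 5859) (nat_lit 10) (nat_lit 12))
    (@En.n l26753 (nat_lit 6540) (nat_lit 10) (nat_lit 4))
    (@En.n l77 (nat_lit 6439) (nat_lit 8) (nat_lit 8))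
    (@En.i (nat_lit 6537) (nat_lit 13) (nat_lit 8))
    (@En.n l39792 (nat_lit 3167) (nat_lit 14) (nat_lit 9))
    (@En.n l16260 (nat_lit 11738) (nat_lit 3) (nat_lit 12))
    (@En.n l17 (nat_lit 6437) (nat_lit 15) (nat_lit 2))))
  (@Cl.mk (nat_lit 0x4000b0009000900090008000500090009000700070007000c000800070007) (nat_lit 0x800260660006100) (nat_lit 16) Lb.e (@T16.mk En
    (@En.n l36511 (nat_lit 6440) (nat_lit 9) (nat_lit 7))
    (@En.n l36512 (nat_lit 6449) (nat_lit 9) (nat_lit 7))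
    (@En.n l26766 (nat_lit 58) (nat_lit 0) (nat_lit 8))
    (@En.n l36513 (nat_lit 11742) (nat_lit 8) (nat_lit 12))
    (@En.n l36514 (nat_lit 6543) (nat_lit 9) (nat_lit 7))
    (@En.n l11 (nat_lit 7654) (nat_lit 9) (nat_lit 7))
    (@En.n l34847 (nat_lit 10279) (nat_lit 6) (nat_lit 7))
    (@En.i (nat_lit 5315) (nat_lit 7) (nat_lit 9))
    (@En.i (nat_lit 5916) (nat_lit 10) (nat_lit 9))
    (@En.n l1392 (nat_lit 5608) (nat_lit 9) (nat_lit 5))
    (@En.n l77 (nat_lit 12002) (nat_lit 8) (nat_lit 8))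
    (@En.n l36515 (nat_lit 6437) (nat_lit 7) (nat_lit 9))
    (@En.n l36516 (nat_lit 6587) (nat_lit 7) (nat_lit 9))
    (@En.n l36441 (nat_lit 11429) (nat_lit 7) (nat_lit 9))
    (@En.n l18 (nat_lit 5159) (nat_lit 4) (nat_lit 11))
    (@En.n l17194 (nat_lit 5173) (nat_lit 15) (nat_lit 4))))
  (@Cl.mk (nat_lit 0x20007000e00080002000d000a00080003000c0009000800060004000e0008) (nat_lit 0xb0051208610086) (nat_lit 16) Lb.e (@T16.mk En
    (@En.i (nat_lit 6437) (nat_lit 4) (nat_lit 8))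
    (@En.n l134 (nat_lit 1535) (nat_lit 1) (nat_lit 14))
    (@En.n l11 (nat_lit 5795) (nat_lit 2) (nat_lit 4))
    (@En.n l2254 (nat_lit 10341) (nat_lit 3) (nat_lit 6))
    (@En.n l16078 (nat_lit 5334) (nat_lit 4) (nat_lit 8))
    (@En.n l6578 (nat_lit 11667) (nat_lit 5) (nat_lit 9))
    (@En.n l21442 (nat_lit 6492) (nat_lit 11) (nat_lit 12))
    (@En.n l3895 (nat_lit 6443) (nat_lit 7) (nat_lit 3))
    (@En.i (nat_lit 6465) (nat_lit 0) (nat_lit 8))
    (@En.n l24754 (nat_lit 3170) (nat_lit 10) (nat_lit 10))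
    (@En.i (nat_lit 12226) (nat_lit 11) (nat_lit 13))
    (@En.n l17 (nat_lit 6439) (nat_lit 11) (nat_lit 2))
    (@En.n l18636 (nat_lit 6440) (nat_lit 13) (nat_lit 8))
    (@En.n l5 (nat_lit 6450) (nat_lit 1) (nat_lit 14))
    (@En.n l2254 (nat_lit 9051) (nat_lit 2) (nat_lit 7))
    (@En.n l7 (nat_lit 6439) (nat_lit 15) (nat_lit 2))))
  (@Cl.mk (nat_lit 0x2000800080008000d000900070003000b00080008000800070005000e0009) (nat_lit 0x560410070020097) (nat_lit 16) Lb.e (@T16.mk En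
    (@En.n l20804 (nat_lit 6438) (nat_lit 8) (nat_lit 9))
    (@En.n l8118 (nat_lit 1690) (nat_lit 1) (nat_lit 14))
    (@En.n l10055 (nat_lit 5796) (nat_lit 2) (nat_lit 5))
    (@En.n l18318 (nat_lit 9639) (nat_lit 3) (nat_lit 7))
    (@En.n l20805 (nat_lit 6439) (nat_lit 4) (nat_lit 8))
    (@En.n l152 (nat_lit 6906) (nat_lit 8) (nat_lit 8))
    (@En.n l20806 (nat_lit 11660) (nat_lit 6) (nat_lit 8))
    (@En.n l11086 (nat_lit 6496) (nat_lit 8) (nat_lit 11))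
    (@En.n l20807 (nat_lit 6442) (nat_lit 8) (nat_lit 3))
    (@En.n l20808 (nat_lit 6468) (nat_lit 0) (nat_lit 7))
    (@En.n l11083 (nat_lit 3169) (nat_lit 11) (nat_lit 9))
    (@En.n l5577 (nat_lit 11747) (nat_lit 12) (nat_lit 13))
    (@En.n l20809 (nat_lit 6908) (nat_lit 8) (nat_lit 8))
    (@En.n l10056 (nat_lit 7962) (nat_lit 14) (nat_lit 8))
    (@En.n l20810 (nat_lit 11580) (nat_lit 5) (nat_lit 8))
    (@En.n l17 (nat_lit 6440) (nat_lit 15) (nat_lit 2))))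
  (@Cl.mk (nat_lit 0x2000c00070007000b0004000c000a000900050004000900090006000e0007) (nat_lit 0x700609010053000) (nat_lit 16) Lb.e (@T16.mk En
    (@En.n l37966 (nat_lit 6444) (nat_lit 5) (nat_lit 7))
    (@En.n l601 (nat_lit 7568) (nat_lit 1) (nat_lit 14))
    (@En.n l37967 (nat_lit 9808) (nat_lit 2) (nat_lit 6))
    (@En.n l61 (nat_lit 5609) (nat_lit 7) (nat_lit 9))
    (@En.n l287 (nat_lit 6251) (nat_lit 4) (nat_lit 9))
    (@En.n l11 (nat_lit 5601) (nat_lit 5) (nat_lit 4))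
    (@En.n l25168 (nat_lit 7737) (nat_lit 6) (nat_lit 5))
    (@En.n l37968 (nat_lit 2956) (nat_lit 7) (nat_lit 9))
    (@En.n l55 (nat_lit 8043) (nat_lit 9) (nat_lit 10))
    (@En.n l3447 (nat_lit 5714) (nat_lit 10) (nat_lit 12))
    (@En.n l5046 (nat_lit 6437) (nat_lit 10) (nat_lit 4))
    (@En.n l7231 (nat_lit 7434) (nat_lit 12) (nat_lit 11))
    (@En.n l37969 (nat_lit 6443) (nat_lit 9) (nat_lit 7))
    (@En.i (nat_lit 6542) (nat_lit 14) (nat_lit 7))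
    (@En.n l32498 (nat_lit 11802) (nat_lit 3) (nat_lit 12))
    (@En.n l50 (nat_lit 6441) (nat_lit 15) (nat_lit 2))))
  (@Cl.mk (nat_lit 0x2000800080008000d0006000a0003000b00080008000800060005000e000a) (nat_lit 0x500502070020076) (nat_lit 16) Lb.e (@T16.mk En
    (@En.i (nat_lit 6444) (nat_lit 8) (nat_lit 10))
    (@En.n l29276 (nat_lit 1577) (nat_lit 1) (nat_lit 14))
    (@En.i (nat_lit 5799) (nat_lit 2) (nat_lit 5))
    (@En.n l29277 (nat_lit 11056) (nat_lit 3) (nat_lit 6))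
    (@En.n l29278 (nat_lit 6443) (nat_lit 4) (nat_lit 8))
    (@En.n l29279 (nat_lit 6905) (nat_lit 8) (nat_lit 8))
    (@En.n l29280 (nat_lit 11668) (nat_lit 6) (nat_lit 8))
    (@En.n l29281 (nat_lit 5726) (nat_lit 8) (nat_lit 11))
    (@En.n l3580 (nat_lit 6440) (nat_lit 8) (nat_lit 3))
    (@En.n l29278 (nat_lit 2079) (nat_lit 10) (nat_lit 10))
    (@En.n l29282 (nat_lit 5168) (nat_lit 11) (nat_lit 6))
    (@En.n l29283 (nat_lit 11745) (nat_lit 12) (nat_lit 13))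
    (@En.n l10895 (nat_lit 6907) (nat_lit 8) (nat_lit 8))
    (@En.n l644 (nat_lit 7963) (nat_lit 14) (nat_lit 8))
    (@En.n l29284 (nat_lit 11579) (nat_lit 5) (nat_lit 8))
    (@En.n l3 (nat_lit 6442) (nat_lit 15) (nat_lit 2))))
  (@Cl.mk (nat_lit 0x20007000e00080002000d0007000b0003000c0009000800050004000e0009) (nat_lit 0x51060508610066) (nat_lit 16) Lb.e (@T16.mk En
    (@En.n l24409 (nat_lit 6441) (nat_lit 4) (nat_lit 9))
    (@En.n l7315 (nat_lit 1505) (nat_lit 1) (nat_lit 14))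
    (@En.n l5162 (nat_lit 5797) (nat_lit 2) (nat_lit 4))
    (@En.n l24410 (nat_lit 8028) (nat_lit 3) (nat_lit 5))
    (@En.i (nat_lit 5332) (nat_lit 4) (nat_lit 8))
    (@En.n l24411 (nat_lit 11666) (nat_lit 5) (nat_lit 9))
    (@En.n l3424 (nat_lit 5731) (nat_lit 11) (nat_lit 12))
    (@En.n l24412 (nat_lit 6439) (nat_lit 7) (nat_lit 3))
    (@En.i (nat_lit 3721) (nat_lit 9) (nat_lit 11))
    (@En.n l10847 (nat_lit 5294) (nat_lit 14) (nat_lit 7))
    (@En.n l24413 (nat_lit 12228) (nat_lit 11) (nat_lit 13))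
    (@En.n l67 (nat_lit 6443) (nat_lit 11) (nat_lit 2))
    (@En.n l24414 (nat_lit 6442) (nat_lit 13) (nat_lit 8))
    (@En.n l5164 (nat_lit 6454) (nat_lit 1) (nat_lit 14))
    (@En.n l24410 (nat_lit 9052) (nat_lit 2) (nat_lit 7))
    (@En.n l17 (nat_lit 6443) (nat_lit 15) (nat_lit 2))))
  (@Cl.mk (nat_lit 0x4000b00090009000900060005000a000a000700070007000c00060006000a) (nat_lit 0x800200560006003) (nat_lit 16) Lb.e (@T16.mk En
    (@En.n l17747 (nat_lit 5437) (nat_lit 9) (nat_lit 10))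
    (@En.n l152 (nat_lit 6442) (nat_lit 10) (nat_lit 6))
    (@En.n l3851 (nat_lit 59) (nat_lit 0) (nat_lit 6))
    (@En.n l41710 (nat_lit 11743) (nat_lit 8) (nat_lit 12))
    (@En.n l41711 (nat_lit 6446) (nat_lit 9) (nat_lit 7))
    (@En.n l644 (nat_lit 6448) (nat_lit 9) (nat_lit 7))
    (@En.n l41712 (nat_lit 10277) (nat_lit 6) (nat_lit 7))
    (@En.n l3536 (nat_lit 6445) (nat_lit 6) (nat_lit 10))
    (@En.n l41712 (nat_lit 6353) (nat_lit 10) (nat_lit 10))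
    (@En.i (nat_lit 5606) (nat_lit 11) (nat_lit 5))
    (@En.n l29277 (nat_lit 10998) (nat_lit 0) (nat_lit 6))
    (@En.n l41713 (nat_lit 6441) (nat_lit 7) (nat_lit 9))
    (@En.n l29279 (nat_lit 6447) (nat_lit 7) (nat_lit 9))
    (@En.n l41714 (nat_lit 11405) (nat_lit 7) (nat_lit 9))
    (@En.n l29281 (nat_lit 5303) (nat_lit 3) (nat_lit 11))
    (@En.n l27342 (nat_lit 6438) (nat_lit 15) (nat_lit 4))))
  (@Cl.mk (nat_lit 0x2000a0005000b000a000a000a00060005000a000600060006000b000e0006) (nat_lit 0x4094020050006a0) (nat_lit 16) Lb.e (@T16.mk En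
    (@En.n l3098 (nat_lit 6444) (nat_lit 2) (nat_lit 6))
    (@En.i (nat_lit 5698) (nat_lit 4) (nat_lit 14))
    (@En.n l8173 (nat_lit 10753) (nat_lit 2) (nat_lit 11))
    (@En.n l27042 (nat_lit 7010) (nat_lit 10) (nat_lit 6))
    (@En.n l55 (nat_lit 7656) (nat_lit 4) (nat_lit 6))
    (@En.n l11084 (nat_lit 5621) (nat_lit 5) (nat_lit 6))
    (@En.n l4021 (nat_lit 6355) (nat_lit 7) (nat_lit 10))
    (@En.i (nat_lit 5603) (nat_lit 7) (nat_lit 5))
    (@En.n l9365 (nat_lit 12257) (nat_lit 8) (nat_lit 6))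
    (@En.n l11086 (nat_lit 5609) (nat_lit 10) (nat_lit 10))
    (@En.n l11087 (nat_lit 8063) (nat_lit 6) (nat_lit 10))
    (@En.n l11088 (nat_lit 8044) (nat_lit 12) (nat_lit 10))
    (@En.n l37640 (nat_lit 5740) (nat_lit 13) (nat_lit 11))
    (@En.n l37641 (nat_lit 5315) (nat_lit 14) (nat_lit 5))
    (@En.i (nat_lit 6527) (nat_lit 0) (nat_lit 10))
    (@En.n l17 (nat_lit 6445) (nat_lit 15) (nat_lit 2))))
  (@Cl.mk (nat_lit 0x200070006000b000b00080007000c0005000500090004000a0008000e0009) (nat_lit 0x2440600305091) (nat_lit 16) Lb.e (@T16.mk En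
    (@En.n l30366 (nat_lit 6444) (nat_lit 12) (nat_lit 9))
    (@En.n l30367 (nat_lit 6841) (nat_lit 1) (nat_lit 14))
    (@En.i (nat_lit 11428) (nat_lit 2) (nat_lit 8))
    (@En.n l3593 (nat_lit 5304) (nat_lit 3) (nat_lit 10))
    (@En.n l403 (nat_lit 6543) (nat_lit 4) (nat_lit 4))
    (@En.n l9603 (nat_lit 5440) (nat_lit 5) (nat_lit 9))
    (@En.n l18 (nat_lit 6907) (nat_lit 6) (nat_lit 5))
    (@En.n l30368 (nat_lit 6542) (nat_lit 7) (nat_lit 5))
    (@En.n l2576 (nat_lit 8916) (nat_lit 9) (nat_lit 12))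
    (@En.n l3 (nat_lit 7020) (nat_lit 9) (nat_lit 7))
    (@En.n l4990 (nat_lit 11083) (nat_lit 11) (nat_lit 8))
    (@En.n l30369 (nat_lit 7010) (nat_lit 12) (nat_lit 11))
    (@En.n l15151 (nat_lit 4441) (nat_lit 13) (nat_lit 11))
    (@En.n l30370 (nat_lit 5295) (nat_lit 14) (nat_lit 6))
    (@En.n l3596 (nat_lit 9468) (nat_lit 13) (nat_lit 7))
    (@En.n l11 (nat_lit 6446) (nat_lit 15) (nat_lit 2))))
  (@Cl.mk (nat_lit 0x20008000c00070007000b0004000c000900080005000400090009000e0007) (nat_lit 0x70030871002570) (nat_lit 16) Lb.e (@T16.mk En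
    (@En.n l15022 (nat_lit 6444) (nat_lit 6) (nat_lit 7))
    (@En.n l21258 (nat_lit 11910) (nat_lit 1) (nat_lit 14))
    (@En.n l36671 (nat_lit 8063) (nat_lit 2) (nat_lit 9))
    (@En.n l36672 (nat_lit 6352) (nat_lit 3) (nat_lit 9))
    (@En.n l12803 (nat_lit 6590) (nat_lit 4) (nat_lit 4))
    (@En.i (nat_lit 11057) (nat_lit 5) (nat_lit 5))
    (@En.i (nat_lit 2960) (nat_lit 6) (nat_lit 8))
    (@En.n l28950 (nat_lit 11938) (nat_lit 8) (nat_lit 9))
    (@En.n l13188 (nat_lit 5699) (nat_lit 9) (nat_lit 12))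
    (@En.n l10307 (nat_lit 6587) (nat_lit 9) (nat_lit 4))
    (@En.n l7406 (nat_lit 7725) (nat_lit 11) (nat_lit 11))
    (@En.n l61 (nat_lit 6905) (nat_lit 12) (nat_lit 7))
    (@En.n l13189 (nat_lit 5169) (nat_lit 13) (nat_lit 7))
    (@En.n l36673 (nat_lit 11751) (nat_lit 14) (nat_lit 12))
    (@En.n l36674 (nat_lit 6840) (nat_lit 4) (nat_lit 8))
    (@En.n l3 (nat_lit 6447) (nat_lit 15) (nat_lit 2))))
noncomputable def a403 : T16 Cl := @T16.mk Cl
  (@Cl.mk (nat_lit 0x2000a00070006000b000b00070006000c0005000500090004000a000e0009) (nat_lit 0x3006700500307a1) (nat_lit 16) Lb.e (@T16.mk En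
    (@En.i (nat_lit 6444) (nat_lit 13) (nat_lit 9))
    (@En.n l15662 (nat_lit 10798) (nat_lit 1) (nat_lit 14))
    (@En.n l22934 (nat_lit 5723) (nat_lit 2) (nat_lit 10))
    (@En.n l9084 (nat_lit 7654) (nat_lit 3) (nat_lit 4))
    (@En.n l17747 (nat_lit 5434) (nat_lit 4) (nat_lit 9))
    (@En.n l152 (nat_lit 7963) (nat_lit 11) (nat_lit 5))
    (@En.n l3851 (nat_lit 5169) (nat_lit 6) (nat_lit 5))
    (@En.n l29322 (nat_lit 11755) (nat_lit 8) (nat_lit 12))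
    (@En.i (nat_lit 7022) (nat_lit 8) (nat_lit 6))
    (@En.n l16306 (nat_lit 11715) (nat_lit 10) (nat_lit 7))
    (@En.n l3536 (nat_lit 7656) (nat_lit 5) (nat_lit 11))
    (@En.n l10882 (nat_lit 6356) (nat_lit 12) (nat_lit 11))
    (@En.i (nat_lit 7992) (nat_lit 13) (nat_lit 6))
    (@En.n l7407 (nat_lit 12083) (nat_lit 14) (nat_lit 7))
    (@En.n l18 (nat_lit 7569) (nat_lit 11) (nat_lit 10))
    (@En.n l50 (nat_lit 6448) (nat_lit 15) (nat_lit 2))))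
  (@Cl.mk (nat_lit 0x3000a000800080008000d000700060003000b000800080008000d00050009) (nat_lit 0x750260007502705) (nat_lit 16) Lb.e (@T16.mk En
    (@En.n l31722 (nat_lit 5911) (nat_lit 0) (nat_lit 9))
    (@En.n l35537 (nat_lit 5301) (nat_lit 9) (nat_lit 5))
    (@En.n l27329 (nat_lit 12064) (nat_lit 11) (nat_lit 13))
    (@En.n l42017 (nat_lit 6537) (nat_lit 8) (nat_lit 8))
    (@En.n l42018 (nat_lit 6577) (nat_lit 8) (nat_lit 8))
    (@En.i (nat_lit 10956) (nat_lit 14) (nat_lit 8))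
    (@En.n l42019 (nat_lit 7710) (nat_lit 7) (nat_lit 11))
    (@En.n l5331 (nat_lit 57) (nat_lit 7) (nat_lit 3))
    (@En.n l18 (nat_lit 6469) (nat_lit 0) (nat_lit 6))
    (@En.n l6081 (nat_lit 5173) (nat_lit 10) (nat_lit 7))
    (@En.n l23143 (nat_lit 11025) (nat_lit 11) (nat_lit 13))
    (@En.n l575 (nat_lit 6538) (nat_lit 8) (nat_lit 8))
    (@En.n l3 (nat_lit 6578) (nat_lit 8) (nat_lit 8))
    (@En.n l42020 (nat_lit 10955) (nat_lit 14) (nat_lit 8))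
    (@En.n l30366 (nat_lit 6444) (nat_lit 7) (nat_lit 10))
    (@En.n l42021 (nat_lit 68) (nat_lit 7) (nat_lit 3))))
  (@Cl.mk (nat_lit 0x2000a000d000a00080003000c0006000900060004000e00080002000e0007) (nat_lit 0x2556050700810a0) (nat_lit 16) Lb.e (@T16.mk En
    (@En.i (nat_lit 5028) (nat_lit 14) (nat_lit 7))
    (@En.n l1001 (nat_lit 9134) (nat_lit 1) (nat_lit 14))
    (@En.n l7 (nat_lit 6450) (nat_lit 2) (nat_lit 2))
    (@En.i (nat_lit 5051) (nat_lit 3) (nat_lit 8))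
    (@En.n l134 (nat_lit 1790) (nat_lit 1) (nat_lit 14))
    (@En.n l1001 (nat_lit 5369) (nat_lit 5) (nat_lit 4))
    (@En.n l11071 (nat_lit 3446) (nat_lit 6) (nat_lit 6))
    (@En.i (nat_lit 5335) (nat_lit 4) (nat_lit 9))
    (@En.n l2621 (nat_lit 6451) (nat_lit 8) (nat_lit 6))
    (@En.n l27916 (nat_lit 6453) (nat_lit 10) (nat_lit 12))
    (@En.n l23330 (nat_lit 6454) (nat_lit 10) (nat_lit 3))
    (@En.i (nat_lit 5960) (nat_lit 12) (nat_lit 8))
    (@En.n l5704 (nat_lit 3187) (nat_lit 13) (nat_lit 10))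
    (@En.n l11071 (nat_lit 12512) (nat_lit 5) (nat_lit 13))
    (@En.n l1738 (nat_lit 5028) (nat_lit 12) (nat_lit 10))
    (@En.n l18 (nat_lit 6450) (nat_lit 15) (nat_lit 2))))
  (@Cl.mk (nat_lit 0x2000a0008000d000b000900030006000900050008000e00070002000e0007) (nat_lit 0x256610070380070) (nat_lit 16) Lb.e (@T16.mk En
    (@En.n l8516 (nat_lit 5029) (nat_lit 14) (nat_lit 7))
    (@En.n l9025 (nat_lit 9133) (nat_lit 1) (nat_lit 14))
    (@En.n l50 (nat_lit 6451) (nat_lit 2) (nat_lit 2))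
    (@En.n l9902 (nat_lit 5053) (nat_lit 3) (nat_lit 7))
    (@En.n l1889 (nat_lit 1789) (nat_lit 5) (nat_lit 14))
    (@En.n l3213 (nat_lit 2931) (nat_lit 5) (nat_lit 8))
    (@En.i (nat_lit 3452) (nat_lit 6) (nat_lit 5))
    (@En.n l1643 (nat_lit 6093) (nat_lit 9) (nat_lit 9))
    (@En.i (nat_lit 2089) (nat_lit 8) (nat_lit 6))
    (@En.i (nat_lit 6452) (nat_lit 9) (nat_lit 3))
    (@En.i (nat_lit 1917) (nat_lit 0) (nat_lit 9))
    (@En.n l8351 (nat_lit 6453) (nat_lit 12) (nat_lit 11))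
    (@En.n l7745 (nat_lit 6450) (nat_lit 13) (nat_lit 13))
    (@En.n l2038 (nat_lit 6455) (nat_lit 14) (nat_lit 8))
    (@En.n l8572 (nat_lit 5029) (nat_lit 12) (nat_lit 10))
    (@En.n l17 (nat_lit 6451) (nat_lit 15) (nat_lit 2))))
  (@Cl.mk (nat_lit 0x2000a0008000d0008000c00030006000900040008000e00080002000e0007) (nat_lit 0x257150070386040) (nat_lit 16) Lb.e (@T16.mk En
    (@En.n l36950 (nat_lit 5033) (nat_lit 14) (nat_lit 7))
    (@En.n l36951 (nat_lit 9135) (nat_lit 1) (nat_lit 14))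
    (@En.n l50 (nat_lit 6452) (nat_lit 2) (nat_lit 2))
    (@En.n l7140 (nat_lit 7570) (nat_lit 3) (nat_lit 8))
    (@En.n l1889 (nat_lit 1501) (nat_lit 5) (nat_lit 14))
    (@En.n l3213 (nat_lit 2927) (nat_lit 5) (nat_lit 8))
    (@En.n l5012 (nat_lit 6458) (nat_lit 6) (nat_lit 4))
    (@En.n l1643 (nat_lit 6095) (nat_lit 9) (nat_lit 9))
    (@En.n l17792 (nat_lit 1700) (nat_lit 12) (nat_lit 6))
    (@En.n l11 (nat_lit 6451) (nat_lit 9) (nat_lit 3))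
    (@En.n l4150 (nat_lit 5377) (nat_lit 0) (nat_lit 12))
    (@En.n l20182 (nat_lit 1716) (nat_lit 12) (nat_lit 8))
    (@En.n l36952 (nat_lit 6454) (nat_lit 13) (nat_lit 13))
    (@En.n l20775 (nat_lit 6456) (nat_lit 14) (nat_lit 8))
    (@En.n l36188 (nat_lit 5033) (nat_lit 12) (nat_lit 10))
    (@En.n l17 (nat_lit 6452) (nat_lit 15) (nat_lit 2))))
  (@Cl.mk (nat_lit 0x2000b0008000b0008000c00050008000500040008000e00080002000e0008) (nat_lit 0x2556406004510a1) (nat_lit 16) Lb.e (@T16.mk En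
    (@En.n l32252 (nat_lit 5031) (nat_lit 14) (nat_lit 8))
    (@En.n l28779 (nat_lit 9132) (nat_lit 1) (nat_lit 14))
    (@En.n l50 (nat_lit 6453) (nat_lit 2) (nat_lit 2))
    (@En.n l564 (nat_lit 3185) (nat_lit 3) (nat_lit 8))
    (@En.n l4754 (nat_lit 1675) (nat_lit 5) (nat_lit 14))
    (@En.n l13671 (nat_lit 6451) (nat_lit 5) (nat_lit 8))
    (@En.n l32253 (nat_lit 6452) (nat_lit 6) (nat_lit 4))
    (@En.i (nat_lit 3448) (nat_lit 7) (nat_lit 5))
    (@En.n l32254 (nat_lit 6094) (nat_lit 10) (nat_lit 8))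
    (@En.n l14529 (nat_lit 2087) (nat_lit 9) (nat_lit 5))
    (@En.n l28779 (nat_lit 4166) (nat_lit 11) (nat_lit 12))
    (@En.n l2038 (nat_lit 5963) (nat_lit 12) (nat_lit 8))
    (@En.i (nat_lit 5043) (nat_lit 13) (nat_lit 11))
    (@En.n l7075 (nat_lit 6457) (nat_lit 14) (nat_lit 8))
    (@En.n l32255 (nat_lit 5031) (nat_lit 12) (nat_lit 11))
    (@En.n l17 (nat_lit 6453) (nat_lit 15) (nat_lit 2))))
  (@Cl.mk (nat_lit 0x2000a000d0007000b0003000c0006000900050004000e00090002000e0007) (nat_lit 0x26050a070067040) (nat_lit 16) Lb.e (@T16.mk En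
    (@En.n l16054 (nat_lit 5035) (nat_lit 14) (nat_lit 7))
    (@En.n l33493 (nat_lit 9137) (nat_lit 1) (nat_lit 14))
    (@En.n l28 (nat_lit 6454) (nat_lit 2) (nat_lit 2))
    (@En.n l22482 (nat_lit 7568) (nat_lit 3) (nat_lit 9))
    (@En.n l3269 (nat_lit 1496) (nat_lit 1) (nat_lit 14))
    (@En.n l771 (nat_lit 5368) (nat_lit 5) (nat_lit 4))
    (@En.i (nat_lit 6459) (nat_lit 6) (nat_lit 5))
    (@En.n l872 (nat_lit 5336) (nat_lit 4) (nat_lit 9))
    (@En.n l21013 (nat_lit 6452) (nat_lit 8) (nat_lit 6))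
    (@En.n l1369 (nat_lit 5013) (nat_lit 10) (nat_lit 12))
    (@En.n l13055 (nat_lit 6450) (nat_lit 10) (nat_lit 3))
    (@En.i (nat_lit 4164) (nat_lit 0) (nat_lit 11))
    (@En.n l9325 (nat_lit 5096) (nat_lit 13) (nat_lit 7))
    (@En.i (nat_lit 12287) (nat_lit 5) (nat_lit 13))
    (@En.n l37572 (nat_lit 5035) (nat_lit 12) (nat_lit 10))
    (@En.n l50 (nat_lit 6454) (nat_lit 15) (nat_lit 2))))
  (@Cl.mk (nat_lit 0x20008000d000b00080003000c0008000500080004000e00080002000e0008) (nat_lit 0x457007002090080) (nat_lit 16) Lb.e (@T16.mk En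
    (@En.i (nat_lit 6461) (nat_lit 14) (nat_lit 8))
    (@En.i (nat_lit 9130) (nat_lit 1) (nat_lit 14))
    (@En.n l50 (nat_lit 6455) (nat_lit 2) (nat_lit 2))
    (@En.i (nat_lit 10091) (nat_lit 3) (nat_lit 8))
    (@En.n l601 (nat_lit 6493) (nat_lit 1) (nat_lit 14))
    (@En.n l1643 (nat_lit 6450) (nat_lit 5) (nat_lit 4))
    (@En.i (nat_lit 2049) (nat_lit 6) (nat_lit 8))
    (@En.n l170 (nat_lit 3451) (nat_lit 7) (nat_lit 5))
    (@En.n l2650 (nat_lit 12479) (nat_lit 5) (nat_lit 8))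
    (@En.n l5012 (nat_lit 6458) (nat_lit 10) (nat_lit 12))
    (@En.n l33318 (nat_lit 6456) (nat_lit 10) (nat_lit 3))
    (@En.i (nat_lit 11015) (nat_lit 12) (nat_lit 8))
    (@En.n l13079 (nat_lit 6457) (nat_lit 13) (nat_lit 11))
    (@En.n l4684 (nat_lit 10103) (nat_lit 14) (nat_lit 13))
    (@En.n l10036 (nat_lit 12182) (nat_lit 12) (nat_lit 8))
    (@En.n l17 (nat_lit 6455) (nat_lit 15) (nat_lit 2))))
  (@Cl.mk (nat_lit 0x20008000d0007000c0003000c0008000400080004000e00090002000e0008) (nat_lit 0x460407002090080) (nat_lit 16) Lb.e (@T16.mk En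
    (@En.n l217 (nat_lit 6463) (nat_lit 14) (nat_lit 8))
    (@En.n l35975 (nat_lit 9136) (nat_lit 1) (nat_lit 14))
    (@En.n l3 (nat_lit 6456) (nat_lit 2) (nat_lit 2))
    (@En.n l35976 (nat_lit 7582) (nat_lit 3) (nat_lit 9))
    (@En.n l35977 (nat_lit 6494) (nat_lit 1) (nat_lit 14))
    (@En.n l35978 (nat_lit 6454) (nat_lit 5) (nat_lit 4))
    (@En.n l8708 (nat_lit 2048) (nat_lit 6) (nat_lit 8))
    (@En.n l10436 (nat_lit 6460) (nat_lit 7) (nat_lit 4))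
    (@En.n l765 (nat_lit 12075) (nat_lit 5) (nat_lit 8))
    (@En.n l35979 (nat_lit 6564) (nat_lit 10) (nat_lit 12))
    (@En.n l7240 (nat_lit 6455) (nat_lit 10) (nat_lit 3))
    (@En.n l35980 (nat_lit 8998) (nat_lit 12) (nat_lit 12))
    (@En.n l35981 (nat_lit 9350) (nat_lit 13) (nat_lit 7))
    (@En.n l35982 (nat_lit 10120) (nat_lit 14) (nat_lit 13))
    (@En.i (nat_lit 11973) (nat_lit 12) (nat_lit 8))
    (@En.n l50 (nat_lit 6456) (nat_lit 15) (nat_lit 2))))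
  (@Cl.mk (nat_lit 0x20008000b0007000c000b00070005000400080005000e00090002000e0009) (nat_lit 0x460370003060097) (nat_lit 16) Lb.e (@T16.mk En
    (@En.n l35287 (nat_lit 6462) (nat_lit 14) (nat_lit 9))
    (@En.i (nat_lit 9131) (nat_lit 1) (nat_lit 14))
    (@En.n l3 (nat_lit 6457) (nat_lit 2) (nat_lit 2))
    (@En.n l35288 (nat_lit 10090) (nat_lit 3) (nat_lit 9))
    (@En.n l21274 (nat_lit 6492) (nat_lit 5) (nat_lit 14))
    (@En.n l3348 (nat_lit 3187) (nat_lit 5) (nat_lit 5))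
    (@En.n l13773 (nat_lit 6455) (nat_lit 6) (nat_lit 8))
    (@En.n l16430 (nat_lit 6456) (nat_lit 7) (nat_lit 4))
    (@En.i (nat_lit 3447) (nat_lit 8) (nat_lit 5))
    (@En.n l21274 (nat_lit 12074) (nat_lit 6) (nat_lit 7))
    (@En.n l31420 (nat_lit 6459) (nat_lit 11) (nat_lit 11))
    (@En.n l35289 (nat_lit 8970) (nat_lit 12) (nat_lit 12))
    (@En.n l35290 (nat_lit 9560) (nat_lit 13) (nat_lit 7))
    (@En.n l2039 (nat_lit 5249) (nat_lit 7) (nat_lit 11))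
    (@En.n l6669 (nat_lit 12187) (nat_lit 12) (nat_lit 8))
    (@En.n l11 (nat_lit 6457) (nat_lit 15) (nat_lit 2))))
  (@Cl.mk (nat_lit 0x200090008000c0008000c00070004000700040008000e00080002000e0009) (nat_lit 0x7050600005c0050) (nat_lit 16) Lb.e (@T16.mk En
    (@En.n l42880 (nat_lit 11192) (nat_lit 14) (nat_lit 9))
    (@En.n l61 (nat_lit 6275) (nat_lit 1) (nat_lit 14))
    (@En.n l3 (nat_lit 6458) (nat_lit 2) (nat_lit 2))
    (@En.n l31242 (nat_lit 9858) (nat_lit 3) (nat_lit 8))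
    (@En.n l28636 (nat_lit 6933) (nat_lit 5) (nat_lit 14))
    (@En.n l24482 (nat_lit 11352) (nat_lit 5) (nat_lit 8))
    (@En.n l2586 (nat_lit 6453) (nat_lit 6) (nat_lit 4))
    (@En.n l42881 (nat_lit 1698) (nat_lit 11) (nat_lit 7))
    (@En.i (nat_lit 3450) (nat_lit 8) (nat_lit 4))
    (@En.n l29022 (nat_lit 11452) (nat_lit 6) (nat_lit 7))
    (@En.n l42882 (nat_lit 7338) (nat_lit 11) (nat_lit 12))
    (@En.n l28400 (nat_lit 9826) (nat_lit 12) (nat_lit 8))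
    (@En.n l10637 (nat_lit 6459) (nat_lit 13) (nat_lit 12))
    (@En.i (nat_lit 6460) (nat_lit 14) (nat_lit 8))
    (@En.n l31671 (nat_lit 11495) (nat_lit 12) (nat_lit 9))
    (@En.n l11 (nat_lit 6458) (nat_lit 15) (nat_lit 2))))
  (@Cl.mk (nat_lit 0x20009000c0007000b00060004000d000700050003000e00090002000e000a) (nat_lit 0x6406003000c0058) (nat_lit 16) Lb.e (@T16.mk En
    (@En.n l217 (nat_lit 11193) (nat_lit 14) (nat_lit 10))
    (@En.n l27235 (nat_lit 6277) (nat_lit 1) (nat_lit 14))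
    (@En.n l28 (nat_lit 6459) (nat_lit 2) (nat_lit 2))
    (@En.n l845 (nat_lit 9856) (nat_lit 3) (nat_lit 9))
    (@En.n l3266 (nat_lit 6934) (nat_lit 1) (nat_lit 14))
    (@En.n l29043 (nat_lit 6460) (nat_lit 5) (nat_lit 3))
    (@En.n l10880 (nat_lit 5043) (nat_lit 6) (nat_lit 5))
    (@En.n l27235 (nat_lit 6458) (nat_lit 7) (nat_lit 7))
    (@En.n l25290 (nat_lit 6562) (nat_lit 9) (nat_lit 13))
    (@En.n l763 (nat_lit 3449) (nat_lit 9) (nat_lit 4))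
    (@En.i (nat_lit 11457) (nat_lit 7) (nat_lit 6))
    (@En.i (nat_lit 7336) (nat_lit 12) (nat_lit 11))
    (@En.n l9325 (nat_lit 9417) (nat_lit 13) (nat_lit 7))
    (@En.i (nat_lit 4850) (nat_lit 6) (nat_lit 12))
    (@En.n l27235 (nat_lit 8562) (nat_lit 12) (nat_lit 9))
    (@En.n l50 (nat_lit 6459) (nat_lit 15) (nat_lit 2))))
  (@Cl.mk (nat_lit 0x20008000c0007000c00060004000d000400080003000e00090002000e000a) (nat_lit 0x6405003040c0068) (nat_lit 16) Lb.e (@T16.mk En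
    (@En.n l30815 (nat_lit 11194) (nat_lit 14) (nat_lit 10))
    (@En.i (nat_lit 6276) (nat_lit 1) (nat_lit 14))
    (@En.n l3 (nat_lit 6460) (nat_lit 2) (nat_lit 2))
    (@En.n l31242 (nat_lit 9857) (nat_lit 3) (nat_lit 9))
    (@En.i (nat_lit 11686) (nat_lit 1) (nat_lit 14))
    (@En.n l29022 (nat_lit 6459) (nat_lit 5) (nat_lit 3))
    (@En.n l387 (nat_lit 12544) (nat_lit 6) (nat_lit 8))
    (@En.i (nat_lit 6457) (nat_lit 7) (nat_lit 4))
    (@En.n l31243 (nat_lit 6563) (nat_lit 9) (nat_lit 13))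
    (@En.i (nat_lit 3453) (nat_lit 9) (nat_lit 4))
    (@En.n l10637 (nat_lit 11464) (nat_lit 7) (nat_lit 6))
    (@En.n l3872 (nat_lit 7342) (nat_lit 12) (nat_lit 12))
    (@En.n l30818 (nat_lit 9579) (nat_lit 13) (nat_lit 7))
    (@En.n l617 (nat_lit 4843) (nat_lit 14) (nat_lit 12))
    (@En.i (nat_lit 12081) (nat_lit 12) (nat_lit 8))
    (@En.n l11 (nat_lit 6460) (nat_lit 15) (nat_lit 2))))
  (@Cl.mk (nat_lit 0x2000800080007000d000a00070003000b00080008000600090005000e0009) (nat_lit 0x6004600731030a0) (nat_lit 16) Lb.e (@T16.mk En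
    (@En.i (nat_lit 10044) (nat_lit 8) (nat_lit 9))
    (@En.n l8515 (nat_lit 6495) (nat_lit 1) (nat_lit 14))
    (@En.n l1643 (nat_lit 5028) (nat_lit 2) (nat_lit 5))
    (@En.n l1624 (nat_lit 2152) (nat_lit 3) (nat_lit 9))
    (@En.n l20136 (nat_lit 10343) (nat_lit 4) (nat_lit 6))
    (@En.n l61 (nat_lit 6455) (nat_lit 8) (nat_lit 8))
    (@En.n l8516 (nat_lit 12181) (nat_lit 6) (nat_lit 8))
    (@En.n l16657 (nat_lit 11192) (nat_lit 8) (nat_lit 11))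
    (@En.n l20137 (nat_lit 6463) (nat_lit 8) (nat_lit 3))
    (@En.i (nat_lit 9310) (nat_lit 0) (nat_lit 7))
    (@En.n l16650 (nat_lit 6462) (nat_lit 11) (nat_lit 10))
    (@En.n l4684 (nat_lit 10130) (nat_lit 12) (nat_lit 13))
    (@En.n l10038 (nat_lit 12183) (nat_lit 13) (nat_lit 7))
    (@En.n l16652 (nat_lit 11630) (nat_lit 8) (nat_lit 8))
    (@En.n l2633 (nat_lit 11859) (nat_lit 5) (nat_lit 8))
    (@En.n l50 (nat_lit 6461) (nat_lit 15) (nat_lit 2))))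
  (@Cl.mk (nat_lit 0x2000900090007000a0006000b000a000700070006000500090006000e000a) (nat_lit 0x600503600004070) (nat_lit 16) Lb.e (@T16.mk En
    (@En.i (nat_lit 10042) (nat_lit 12) (nat_lit 10))
    (@En.n l2479 (nat_lit 6496) (nat_lit 1) (nat_lit 14))
    (@En.n l30387 (nat_lit 5036) (nat_lit 2) (nat_lit 6))
    (@En.n l30388 (nat_lit 6461) (nat_lit 3) (nat_lit 9))
    (@En.n l30389 (nat_lit 6463) (nat_lit 4) (nat_lit 5))
    (@En.n l30390 (nat_lit 10345) (nat_lit 5) (nat_lit 6))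
    (@En.n l30391 (nat_lit 6457) (nat_lit 9) (nat_lit 7))
    (@En.n l23137 (nat_lit 12188) (nat_lit 7) (nat_lit 7))
    (@En.i (nat_lit 11193) (nat_lit 9) (nat_lit 10))
    (@En.n l2479 (nat_lit 8968) (nat_lit 10) (nat_lit 11))
    (@En.n l8794 (nat_lit 9273) (nat_lit 11) (nat_lit 6))
    (@En.i (nat_lit 5247) (nat_lit 8) (nat_lit 10))
    (@En.n l30392 (nat_lit 12189) (nat_lit 13) (nat_lit 7))
    (@En.n l30393 (nat_lit 11195) (nat_lit 7) (nat_lit 9))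
    (@En.n l7 (nat_lit 11858) (nat_lit 3) (nat_lit 9))
    (@En.n l28 (nat_lit 6462) (nat_lit 15) (nat_lit 2))))
  (@Cl.mk (nat_lit 0x2000800080007000d0006000b0003000b00080008000500090005000e000a) (nat_lit 0x6005030751020a0) (nat_lit 16) Lb.e (@T16.mk En
    (@En.n l2179 (nat_lit 7574) (nat_lit 8) (nat_lit 10))
    (@En.n l13421 (nat_lit 6497) (nat_lit 1) (nat_lit 14))
    (@En.n l30158 (nat_lit 5035) (nat_lit 2) (nat_lit 5))
    (@En.n l30159 (nat_lit 2040) (nat_lit 3) (nat_lit 9))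
    (@En.n l2179 (nat_lit 11409) (nat_lit 4) (nat_lit 5))
    (@En.n l2172 (nat_lit 6456) (nat_lit 8) (nat_lit 8))
    (@En.n l742 (nat_lit 11970) (nat_lit 6) (nat_lit 8))
    (@En.n l29622 (nat_lit 6566) (nat_lit 8) (nat_lit 11))
    (@En.n l3579 (nat_lit 6461) (nat_lit 8) (nat_lit 3))
    (@En.n l30160 (nat_lit 8941) (nat_lit 10) (nat_lit 11))
    (@En.n l30161 (nat_lit 8820) (nat_lit 11) (nat_lit 6))
    (@En.n l30160 (nat_lit 10126) (nat_lit 12) (nat_lit 13))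
    (@En.i (nat_lit 11975) (nat_lit 13) (nat_lit 7))
    (@En.n l6204 (nat_lit 11631) (nat_lit 8) (nat_lit 8))
    (@En.n l30162 (nat_lit 11861) (nat_lit 5) (nat_lit 8))
    (@En.n l3 (nat_lit 6463) (nat_lit 15) (nat_lit 2))))
noncomputable def a404 : T16 Cl := @T16.mk Cl
  (@Cl.mk (nat_lit 0x20008000e00090002000e000a0002000b00080007000c00060005000e0004) (nat_lit 0x531065044050070) (nat_lit 16) Lb.e (@T16.mk En
    (@En.n l11 (nat_lit 5733) (nat_lit 7) (nat_lit 4))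
    (@En.n l134 (nat_lit 2033) (nat_lit 9) (nat_lit 14))
    (@En.n l11 (nat_lit 5448) (nat_lit 2) (nat_lit 5))
    (@En.i (nat_lit 6439) (nat_lit 3) (nat_lit 6))
    (@En.i (nat_lit 7922) (nat_lit 12) (nat_lit 12))
    (@En.n l16078 (nat_lit 4671) (nat_lit 13) (nat_lit 7))
    (@En.n l532 (nat_lit 12278) (nat_lit 6) (nat_lit 8))
    (@En.i (nat_lit 4768) (nat_lit 12) (nat_lit 11))
    (@En.n l3 (nat_lit 6464) (nat_lit 8) (nat_lit 2))
    (@En.i (nat_lit 5727) (nat_lit 10) (nat_lit 10))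
    (@En.i (nat_lit 7659) (nat_lit 1) (nat_lit 14))
    (@En.n l17 (nat_lit 6464) (nat_lit 11) (nat_lit 2))
    (@En.n l18636 (nat_lit 5697) (nat_lit 13) (nat_lit 9))
    (@En.n l5 (nat_lit 4955) (nat_lit 5) (nat_lit 14))
    (@En.n l10938 (nat_lit 6499) (nat_lit 5) (nat_lit 8))
    (@En.n l7 (nat_lit 6464) (nat_lit 15) (nat_lit 2))))
  (@Cl.mk (nat_lit 0x2000c00080007000c0004000d0008000400030008000e00090002000e0008) (nat_lit 0x7606076006a0051) (nat_lit 16) Lb.e (@T16.mk En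
    (@En.i (nat_lit 5298) (nat_lit 14) (nat_lit 8))
    (@En.i (nat_lit 12652) (nat_lit 1) (nat_lit 14))
    (@En.n l17 (nat_lit 6465) (nat_lit 2) (nat_lit 2))
    (@En.n l19777 (nat_lit 6468) (nat_lit 3) (nat_lit 9))
    (@En.n l5 (nat_lit 5960) (nat_lit 1) (nat_lit 14))
    (@En.n l16005 (nat_lit 9923) (nat_lit 5) (nat_lit 8))
    (@En.n l10607 (nat_lit 6466) (nat_lit 6) (nat_lit 3))
    (@En.i (nat_lit 6464) (nat_lit 0) (nat_lit 4))
    (@En.i (nat_lit 6537) (nat_lit 5) (nat_lit 8))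
    (@En.n l9825 (nat_lit 2030) (nat_lit 10) (nat_lit 13))
    (@En.n l11987 (nat_lit 7721) (nat_lit 10) (nat_lit 4))
    (@En.i (nat_lit 7923) (nat_lit 12) (nat_lit 12))
    (@En.n l16078 (nat_lit 4670) (nat_lit 13) (nat_lit 7))
    (@En.n l15797 (nat_lit 12519) (nat_lit 14) (nat_lit 8))
    (@En.n l19778 (nat_lit 6483) (nat_lit 12) (nat_lit 12))
    (@En.n l3 (nat_lit 6465) (nat_lit 15) (nat_lit 2))))
  (@Cl.mk (nat_lit 0x2000c00080007000d0004000d0003000900030008000e00090002000e0007) (nat_lit 0x760106070610070) (nat_lit 16) Lb.e (@T16.mk En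
    (@En.n l7001 (nat_lit 5297) (nat_lit 14) (nat_lit 7))
    (@En.n l7145 (nat_lit 12329) (nat_lit 1) (nat_lit 14))
    (@En.n l50 (nat_lit 6466) (nat_lit 2) (nat_lit 2))
    (@En.n l11313 (nat_lit 6469) (nat_lit 3) (nat_lit 9))
    (@En.n l476 (nat_lit 1927) (nat_lit 1) (nat_lit 14))
    (@En.i (nat_lit 11542) (nat_lit 5) (nat_lit 8))
    (@En.n l6559 (nat_lit 6465) (nat_lit 6) (nat_lit 3))
    (@En.n l1262 (nat_lit 6443) (nat_lit 0) (nat_lit 9))
    (@En.n l11314 (nat_lit 6467) (nat_lit 8) (nat_lit 3))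
    (@En.i (nat_lit 2036) (nat_lit 0) (nat_lit 13))
    (@En.n l4923 (nat_lit 7722) (nat_lit 10) (nat_lit 4))
    (@En.i (nat_lit 3140) (nat_lit 12) (nat_lit 13))
    (@En.n l1262 (nat_lit 3630) (nat_lit 13) (nat_lit 7))
    (@En.n l8308 (nat_lit 12516) (nat_lit 14) (nat_lit 8))
    (@En.n l11315 (nat_lit 6484) (nat_lit 12) (nat_lit 12))
    (@En.n l17 (nat_lit 6466) (nat_lit 15) (nat_lit 2))))
  (@Cl.mk (nat_lit 0x2000b00080007000d000c00050003000900040008000e00090002000e0007) (nat_lit 0x7601700706300a0) (nat_lit 16) Lb.e (@T16.mk En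
    (@En.n l11503 (nat_lit 5299) (nat_lit 14) (nat_lit 7))
    (@En.n l16023 (nat_lit 12636) (nat_lit 1) (nat_lit 14))
    (@En.n l17 (nat_lit 6467) (nat_lit 2) (nat_lit 2))
    (@En.n l16024 (nat_lit 6470) (nat_lit 3) (nat_lit 9))
    (@En.n l16025 (nat_lit 5344) (nat_lit 5) (nat_lit 14))
    (@En.n l11510 (nat_lit 11538) (nat_lit 5) (nat_lit 8))
    (@En.n l4517 (nat_lit 5733) (nat_lit 6) (nat_lit 4))
    (@En.n l117 (nat_lit 7434) (nat_lit 4) (nat_lit 9))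
    (@En.n l8003 (nat_lit 6466) (nat_lit 8) (nat_lit 3))
    (@En.n l7572 (nat_lit 2118) (nat_lit 0) (nat_lit 5))
    (@En.n l4520 (nat_lit 6465) (nat_lit 11) (nat_lit 12))
    (@En.n l16026 (nat_lit 2991) (nat_lit 12) (nat_lit 13))
    (@En.n l16027 (nat_lit 4667) (nat_lit 13) (nat_lit 7))
    (@En.n l10423 (nat_lit 12517) (nat_lit 14) (nat_lit 8))
    (@En.n l16028 (nat_lit 6194) (nat_lit 12) (nat_lit 11))
    (@En.n l3 (nat_lit 6467) (nat_lit 15) (nat_lit 2))))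
  (@Cl.mk (nat_lit 0x2000b000700070007000c0005000d000900040003000900090009000e0007) (nat_lit 0x600050860067580) (nat_lit 16) Lb.e (@T16.mk En
    (@En.n l35222 (nat_lit 6475) (nat_lit 11) (nat_lit 7))
    (@En.n l23143 (nat_lit 12113) (nat_lit 1) (nat_lit 14))
    (@En.n l575 (nat_lit 5745) (nat_lit 2) (nat_lit 9))
    (@En.n l3 (nat_lit 6473) (nat_lit 7) (nat_lit 9))
    (@En.n l35223 (nat_lit 8014) (nat_lit 4) (nat_lit 9))
    (@En.n l50 (nat_lit 6469) (nat_lit 5) (nat_lit 3))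
    (@En.n l15940 (nat_lit 5697) (nat_lit 0) (nat_lit 4))
    (@En.n l217 (nat_lit 6449) (nat_lit 0) (nat_lit 9))
    (@En.n l23035 (nat_lit 1897) (nat_lit 9) (nat_lit 13))
    (@En.n l15940 (nat_lit 8103) (nat_lit 9) (nat_lit 5))
    (@En.n l8962 (nat_lit 11403) (nat_lit 11) (nat_lit 12))
    (@En.n l35224 (nat_lit 6465) (nat_lit 12) (nat_lit 7))
    (@En.n l35225 (nat_lit 8033) (nat_lit 9) (nat_lit 7))
    (@En.i (nat_lit 8056) (nat_lit 14) (nat_lit 7))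
    (@En.n l35226 (nat_lit 7130) (nat_lit 9) (nat_lit 11))
    (@En.n l17 (nat_lit 6468) (nat_lit 15) (nat_lit 2))))
  (@Cl.mk (nat_lit 0x2000b000700070007000d0005000d0003000a0003000900090009000e0006) (nat_lit 0x600040707067480) (nat_lit 16) Lb.e (@T16.mk En
    (@En.n l3098 (nat_lit 5174) (nat_lit 8) (nat_lit 6))
    (@En.n l23143 (nat_lit 12110) (nat_lit 1) (nat_lit 14))
    (@En.n l575 (nat_lit 8046) (nat_lit 2) (nat_lit 9))
    (@En.n l3 (nat_lit 6471) (nat_lit 7) (nat_lit 9))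
    (@En.n l3549 (nat_lit 11560) (nat_lit 4) (nat_lit 9))
    (@En.i (nat_lit 6468) (nat_lit 5) (nat_lit 3))
    (@En.n l23144 (nat_lit 6442) (nat_lit 0) (nat_lit 10))
    (@En.i (nat_lit 6470) (nat_lit 7) (nat_lit 3))
    (@En.n l23035 (nat_lit 2919) (nat_lit 9) (nat_lit 13))
    (@En.n l23144 (nat_lit 8102) (nat_lit 9) (nat_lit 5))
    (@En.n l10028 (nat_lit 5601) (nat_lit 11) (nat_lit 13))
    (@En.n l23145 (nat_lit 6466) (nat_lit 12) (nat_lit 7))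
    (@En.n l23146 (nat_lit 8034) (nat_lit 9) (nat_lit 7))
    (@En.i (nat_lit 8052) (nat_lit 14) (nat_lit 7))
    (@En.n l2125 (nat_lit 6882) (nat_lit 9) (nat_lit 11))
    (@En.n l17 (nat_lit 6469) (nat_lit 15) (nat_lit 2))))
  (@Cl.mk (nat_lit 0x2000a000700070007000d000c00060003000a0004000900090009000e0006) (nat_lit 0x600036004067470) (nat_lit 16) Lb.e (@T16.mk En
    (@En.n l30556 (nat_lit 6474) (nat_lit 8) (nat_lit 6))
    (@En.n l23143 (nat_lit 12109) (nat_lit 1) (nat_lit 14))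
    (@En.n l575 (nat_lit 5741) (nat_lit 2) (nat_lit 9))
    (@En.n l3 (nat_lit 6472) (nat_lit 7) (nat_lit 9))
    (@En.n l30557 (nat_lit 11545) (nat_lit 4) (nat_lit 9))
    (@En.n l15940 (nat_lit 5699) (nat_lit 5) (nat_lit 4))
    (@En.n l30558 (nat_lit 5437) (nat_lit 0) (nat_lit 10))
    (@En.n l7 (nat_lit 6469) (nat_lit 7) (nat_lit 3))
    (@En.n l30559 (nat_lit 62) (nat_lit 0) (nat_lit 6))
    (@En.n l644 (nat_lit 6468) (nat_lit 10) (nat_lit 12))
    (@En.n l23301 (nat_lit 5600) (nat_lit 11) (nat_lit 13))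
    (@En.n l30560 (nat_lit 6467) (nat_lit 12) (nat_lit 7))
    (@En.n l23146 (nat_lit 8035) (nat_lit 9) (nat_lit 7))
    (@En.i (nat_lit 8058) (nat_lit 14) (nat_lit 7))
    (@En.n l30561 (nat_lit 6668) (nat_lit 7) (nat_lit 10))
    (@En.n l17 (nat_lit 6470) (nat_lit 15) (nat_lit 2))))
  (@Cl.mk (nat_lit 0x20008000d0006000d0003000b000300090008000e00050002000a000e0007) (nat_lit 0x150808060500570) (nat_lit 16) Lb.e (@T16.mk En
    (@En.n l97 (nat_lit 6469) (nat_lit 13) (nat_lit 7))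
    (@En.i (nat_lit 8983) (nat_lit 1) (nat_lit 14))
    (@En.i (nat_lit 6881) (nat_lit 2) (nat_lit 10))
    (@En.n l17 (nat_lit 6471) (nat_lit 3) (nat_lit 2))
    (@En.i (nat_lit 5175) (nat_lit 4) (nat_lit 5))
    (@En.n l1992 (nat_lit 12114) (nat_lit 6) (nat_lit 14))
    (@En.n l575 (nat_lit 7066) (nat_lit 6) (nat_lit 8))
    (@En.n l37195 (nat_lit 10265) (nat_lit 3) (nat_lit 9))
    (@En.i (nat_lit 6473) (nat_lit 8) (nat_lit 3))
    (@En.n l6825 (nat_lit 7963) (nat_lit 0) (nat_lit 11))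
    (@En.i (nat_lit 6472) (nat_lit 10) (nat_lit 3))
    (@En.n l3531 (nat_lit 2922) (nat_lit 8) (nat_lit 13))
    (@En.n l6825 (nat_lit 7705) (nat_lit 13) (nat_lit 6))
    (@En.n l5588 (nat_lit 5598) (nat_lit 10) (nat_lit 13))
    (@En.i (nat_lit 1924) (nat_lit 11) (nat_lit 8))
    (@En.n l67 (nat_lit 6471) (nat_lit 15) (nat_lit 2))))
  (@Cl.mk (nat_lit 0x20008000d000c00070003000b000400090008000e000500020009000e0007) (nat_lit 0x157001060800640) (nat_lit 16) Lb.e (@T16.mk En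
    (@En.n l97 (nat_lit 6470) (nat_lit 13) (nat_lit 7))
    (@En.i (nat_lit 8978) (nat_lit 1) (nat_lit 14))
    (@En.n l8148 (nat_lit 6661) (nat_lit 2) (nat_lit 9))
    (@En.n l17 (nat_lit 6472) (nat_lit 3) (nat_lit 2))
    (@En.n l22491 (nat_lit 6476) (nat_lit 4) (nat_lit 5))
    (@En.n l1992 (nat_lit 12115) (nat_lit 6) (nat_lit 14))
    (@En.n l16965 (nat_lit 7067) (nat_lit 6) (nat_lit 8))
    (@En.n l38921 (nat_lit 10262) (nat_lit 3) (nat_lit 9))
    (@En.n l38922 (nat_lit 5132) (nat_lit 8) (nat_lit 4))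
    (@En.n l21138 (nat_lit 5434) (nat_lit 10) (nat_lit 11))
    (@En.n l7 (nat_lit 6471) (nat_lit 10) (nat_lit 3))
    (@En.n l9381 (nat_lit 4827) (nat_lit 7) (nat_lit 7))
    (@En.n l644 (nat_lit 6473) (nat_lit 13) (nat_lit 12))
    (@En.n l15604 (nat_lit 5597) (nat_lit 10) (nat_lit 13))
    (@En.i (nat_lit 1926) (nat_lit 11) (nat_lit 8))
    (@En.n l67 (nat_lit 6472) (nat_lit 15) (nat_lit 2))))
  (@Cl.mk (nat_lit 0x20008000c0006000d000a0004000300090008000e00060002000a000e0007) (nat_lit 0x1609300647005c0) (nat_lit 16) Lb.e (@T16.mk En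
    (@En.n l97 (nat_lit 6468) (nat_lit 13) (nat_lit 7))
    (@En.i (nat_lit 10034) (nat_lit 1) (nat_lit 14))
    (@En.n l21326 (nat_lit 7042) (nat_lit 2) (nat_lit 10))
    (@En.n l17 (nat_lit 6473) (nat_lit 3) (nat_lit 2))
    (@En.i (nat_lit 6477) (nat_lit 4) (nat_lit 6))
    (@En.n l1992 (nat_lit 12118) (nat_lit 6) (nat_lit 14))
    (@En.n l575 (nat_lit 7054) (nat_lit 6) (nat_lit 8))
    (@En.n l21327 (nat_lit 7090) (nat_lit 3) (nat_lit 9))
    (@En.n l50 (nat_lit 6471) (nat_lit 8) (nat_lit 3))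
    (@En.n l21271 (nat_lit 5708) (nat_lit 9) (nat_lit 4))
    (@En.n l217 (nat_lit 6578) (nat_lit 11) (nat_lit 10))
    (@En.n l3531 (nat_lit 2923) (nat_lit 8) (nat_lit 13))
    (@En.n l15954 (nat_lit 7704) (nat_lit 13) (nat_lit 6))
    (@En.n l5588 (nat_lit 8040) (nat_lit 10) (nat_lit 12))
    (@En.n l21328 (nat_lit 1925) (nat_lit 11) (nat_lit 8))
    (@En.n l67 (nat_lit 6473) (nat_lit 15) (nat_lit 2))))
  (@Cl.mk (nat_lit 0x3000a000a0005000a000a000a00060006000a000600060006000d000b0006) (nat_lit 0x250787005000350) (nat_lit 16) Lb.e (@T16.mk En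
    (@En.n l5643 (nat_lit 4780) (nat_lit 0) (nat_lit 6))
    (@En.n l11336 (nat_lit 6475) (nat_lit 5) (nat_lit 11))
    (@En.n l38131 (nat_lit 5607) (nat_lit 2) (nat_lit 13))
    (@En.n l11407 (nat_lit 5299) (nat_lit 10) (nat_lit 6))
    (@En.n l24250 (nat_lit 7737) (nat_lit 10) (nat_lit 6))
    (@En.n l24723 (nat_lit 10930) (nat_lit 5) (nat_lit 6))
    (@En.n l38584 (nat_lit 6667) (nat_lit 9) (nat_lit 10))
    (@En.n l55 (nat_lit 8026) (nat_lit 10) (nat_lit 6))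
    (@En.n l24726 (nat_lit 8000) (nat_lit 8) (nat_lit 6))
    (@En.n l742 (nat_lit 8020) (nat_lit 6) (nat_lit 10))
    (@En.n l38585 (nat_lit 6476) (nat_lit 6) (nat_lit 10))
    (@En.n l3517 (nat_lit 11543) (nat_lit 12) (nat_lit 10))
    (@En.i (nat_lit 5608) (nat_lit 13) (nat_lit 5))
    (@En.n l38586 (nat_lit 6470) (nat_lit 6) (nat_lit 10))
    (@En.n l38587 (nat_lit 5435) (nat_lit 1) (nat_lit 10))
    (@En.n l20805 (nat_lit 5174) (nat_lit 15) (nat_lit 3))))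
  (@Cl.mk (nat_lit 0x4000a000a000a00070007000b000600060006000b0005000c000900090005) (nat_lit 0x786005000408370) (nat_lit 16) Lb.e (@T16.mk En
    (@En.n l7 (nat_lit 5607) (nat_lit 0) (nat_lit 5))
    (@En.n l42333 (nat_lit 6468) (nat_lit 7) (nat_lit 9))
    (@En.n l42334 (nat_lit 5173) (nat_lit 1) (nat_lit 9))
    (@En.n l42335 (nat_lit 2918) (nat_lit 2) (nat_lit 12))
    (@En.n l1392 (nat_lit 7735) (nat_lit 4) (nat_lit 5))
    (@En.n l42336 (nat_lit 11404) (nat_lit 9) (nat_lit 11))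
    (@En.n l42337 (nat_lit 5298) (nat_lit 10) (nat_lit 6))
    (@En.n l19274 (nat_lit 8032) (nat_lit 10) (nat_lit 6))
    (@En.n l42338 (nat_lit 10993) (nat_lit 8) (nat_lit 6))
    (@En.i (nat_lit 7122) (nat_lit 8) (nat_lit 11))
    (@En.n l42339 (nat_lit 8025) (nat_lit 9) (nat_lit 7))
    (@En.n l42340 (nat_lit 9738) (nat_lit 2) (nat_lit 7))
    (@En.n l11363 (nat_lit 8018) (nat_lit 6) (nat_lit 10))
    (@En.n l42341 (nat_lit 6477) (nat_lit 6) (nat_lit 10))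
    (@En.n l41492 (nat_lit 8008) (nat_lit 14) (nat_lit 10))
    (@En.n l42342 (nat_lit 5174) (nat_lit 12) (nat_lit 4))))
  (@Cl.mk (nat_lit 0x20007000d000b00070003000b000b0005000a0009000500050009000e0006) (nat_lit 0x46008207400460) (nat_lit 16) Lb.e (@T16.mk En
    (@En.n l40920 (nat_lit 6474) (nat_lit 5) (nat_lit 6))
    (@En.n l16858 (nat_lit 8979) (nat_lit 1) (nat_lit 14))
    (@En.n l1353 (nat_lit 6664) (nat_lit 2) (nat_lit 9))
    (@En.n l18 (nat_lit 8074) (nat_lit 11) (nat_lit 5))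
    (@En.n l40921 (nat_lit 9775) (nat_lit 4) (nat_lit 5))
    (@En.i (nat_lit 7063) (nat_lit 5) (nat_lit 9))
    (@En.n l117 (nat_lit 8814) (nat_lit 7) (nat_lit 10))
    (@En.n l2348 (nat_lit 6604) (nat_lit 7) (nat_lit 5))
    (@En.n l28149 (nat_lit 6472) (nat_lit 9) (nat_lit 11))
    (@En.n l3749 (nat_lit 5432) (nat_lit 10) (nat_lit 11))
    (@En.n l28151 (nat_lit 5175) (nat_lit 10) (nat_lit 3))
    (@En.n l2434 (nat_lit 3172) (nat_lit 12) (nat_lit 7))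
    (@En.n l30446 (nat_lit 6477) (nat_lit 13) (nat_lit 11))
    (@En.n l16858 (nat_lit 5604) (nat_lit 14) (nat_lit 13))
    (@En.n l107 (nat_lit 5111) (nat_lit 3) (nat_lit 7))
    (@En.n l3 (nat_lit 6476) (nat_lit 15) (nat_lit 2))))
  (@Cl.mk (nat_lit 0x20007000b0006000c000a000a00050004000a000900060006000a000e0006) (nat_lit 0x50934007500470) (nat_lit 16) Lb.e (@T16.mk En
    (@En.n l37197 (nat_lit 6475) (nat_lit 8) (nat_lit 6))
    (@En.i (nat_lit 9042) (nat_lit 1) (nat_lit 14))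
    (@En.n l8638 (nat_lit 7045) (nat_lit 2) (nat_lit 10))
    (@En.n l8639 (nat_lit 8076) (nat_lit 10) (nat_lit 6))
    (@En.n l25808 (nat_lit 11171) (nat_lit 4) (nat_lit 6))
    (@En.n l21265 (nat_lit 7053) (nat_lit 5) (nat_lit 9))
    (@En.n l37198 (nat_lit 7089) (nat_lit 7) (nat_lit 10))
    (@En.n l50 (nat_lit 5175) (nat_lit 7) (nat_lit 4))
    (@En.n l37199 (nat_lit 5720) (nat_lit 8) (nat_lit 5))
    (@En.n l61 (nat_lit 6473) (nat_lit 10) (nat_lit 10))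
    (@En.n l217 (nat_lit 6581) (nat_lit 11) (nat_lit 10))
    (@En.n l37200 (nat_lit 2925) (nat_lit 12) (nat_lit 12))
    (@En.n l21265 (nat_lit 7706) (nat_lit 13) (nat_lit 6))
    (@En.n l17647 (nat_lit 12120) (nat_lit 14) (nat_lit 11))
    (@En.n l37201 (nat_lit 5113) (nat_lit 13) (nat_lit 7))
    (@En.n l67 (nat_lit 6477) (nat_lit 15) (nat_lit 2))))
  (@Cl.mk (nat_lit 0x200080007000d000c00080003000800040008000e000900020008000e0008) (nat_lit 0x60b4103031106b2) (nat_lit 16) Lb.e (@T16.mk En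
    (@En.n l17782 (nat_lit 6196) (nat_lit 13) (nat_lit 8))
    (@En.n l17783 (nat_lit 6467) (nat_lit 1) (nat_lit 14))
    (@En.n l9964 (nat_lit 9797) (nat_lit 2) (nat_lit 8))
    (@En.n l17 (nat_lit 6478) (nat_lit 3) (nat_lit 2))
    (@En.n l15161 (nat_lit 6036) (nat_lit 4) (nat_lit 9))
    (@En.n l998 (nat_lit 1919) (nat_lit 6) (nat_lit 14))
    (@En.n l17784 (nat_lit 5908) (nat_lit 2) (nat_lit 8))
    (@En.i (nat_lit 4766) (nat_lit 3) (nat_lit 4))
    (@En.n l17785 (nat_lit 5800) (nat_lit 4) (nat_lit 8))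
    (@En.n l17786 (nat_lit 6479) (nat_lit 9) (nat_lit 3))
    (@En.n l14161 (nat_lit 1902) (nat_lit 0) (nat_lit 8))
    (@En.n l77 (nat_lit 6480) (nat_lit 12) (nat_lit 12))
    (@En.i (nat_lit 11184) (nat_lit 13) (nat_lit 13))
    (@En.n l2579 (nat_lit 6064) (nat_lit 14) (nat_lit 7))
    (@En.n l15164 (nat_lit 10973) (nat_lit 11) (nat_lit 8))
    (@En.n l107 (nat_lit 6478) (nat_lit 15) (nat_lit 2))))
  (@Cl.mk (nat_lit 0x200080007000d0007000d0003000800030008000e000900020009000e0008) (nat_lit 0x60a040204110582) (nat_lit 16) Lb.e (@T16.mk En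
    (@En.i (nat_lit 6481) (nat_lit 13) (nat_lit 8))
    (@En.n l9199 (nat_lit 6466) (nat_lit 1) (nat_lit 14))
    (@En.n l9200 (nat_lit 7469) (nat_lit 2) (nat_lit 9))
    (@En.n l67 (nat_lit 6479) (nat_lit 3) (nat_lit 2))
    (@En.n l9201 (nat_lit 6035) (nat_lit 4) (nat_lit 9))
    (@En.n l9202 (nat_lit 1916) (nat_lit 6) (nat_lit 14))
    (@En.n l9203 (nat_lit 5907) (nat_lit 6) (nat_lit 8))
    (@En.n l9204 (nat_lit 6480) (nat_lit 7) (nat_lit 3))
    (@En.n l9205 (nat_lit 6494) (nat_lit 0) (nat_lit 8))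
    (@En.n l9204 (nat_lit 6478) (nat_lit 9) (nat_lit 3))
    (@En.n l266 (nat_lit 2154) (nat_lit 7) (nat_lit 13))
    (@En.n l9206 (nat_lit 1574) (nat_lit 12) (nat_lit 7))
    (@En.n l9199 (nat_lit 11186) (nat_lit 13) (nat_lit 13))
    (@En.n l9158 (nat_lit 6066) (nat_lit 14) (nat_lit 7))
    (@En.i (nat_lit 10974) (nat_lit 11) (nat_lit 8))
    (@En.n l17 (nat_lit 6479) (nat_lit 15) (nat_lit 2))))
noncomputable def a405 : T16 Cl := @T16.mk Cl
  (@Cl.mk (nat_lit 0x200080007000c0007000d0007000400030008000e000900020009000e0009) (nat_lit 0x603040004110766) (nat_lit 16) Lb.e (@T16.mk En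
    (@En.i (nat_lit 6482) (nat_lit 13) (nat_lit 9))
    (@En.n l619 (nat_lit 6465) (nat_lit 1) (nat_lit 14))
    (@En.n l12896 (nat_lit 9907) (nat_lit 2) (nat_lit 9))
    (@En.n l17 (nat_lit 6480) (nat_lit 3) (nat_lit 2))
    (@En.n l15161 (nat_lit 6034) (nat_lit 4) (nat_lit 9))
    (@En.n l998 (nat_lit 1917) (nat_lit 6) (nat_lit 14))
    (@En.n l15162 (nat_lit 9922) (nat_lit 6) (nat_lit 8))
    (@En.n l15163 (nat_lit 6479) (nat_lit 7) (nat_lit 3))
    (@En.i (nat_lit 4957) (nat_lit 8) (nat_lit 4))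
    (@En.i (nat_lit 6385) (nat_lit 5) (nat_lit 7))
    (@En.n l3303 (nat_lit 1796) (nat_lit 7) (nat_lit 13))
    (@En.n l5052 (nat_lit 1573) (nat_lit 7) (nat_lit 7))
    (@En.i (nat_lit 11196) (nat_lit 13) (nat_lit 12))
    (@En.n l2579 (nat_lit 6067) (nat_lit 14) (nat_lit 7))
    (@En.n l15164 (nat_lit 8717) (nat_lit 11) (nat_lit 8))
    (@En.n l107 (nat_lit 6480) (nat_lit 15) (nat_lit 2))))
  (@Cl.mk (nat_lit 0x2000a0008000800070006000d0006000c00030008000800040009000e000a) (nat_lit 0x51200a040430151) (nat_lit 16) Lb.e (@T16.mk En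
    (@En.n l68 (nat_lit 6039) (nat_lit 10) (nat_lit 10))
    (@En.n l9709 (nat_lit 6810) (nat_lit 1) (nat_lit 14))
    (@En.n l9710 (nat_lit 5911) (nat_lit 2) (nat_lit 9))
    (@En.n l7899 (nat_lit 6486) (nat_lit 3) (nat_lit 4))
    (@En.n l61 (nat_lit 6479) (nat_lit 8) (nat_lit 8))
    (@En.n l6784 (nat_lit 6485) (nat_lit 5) (nat_lit 8))
    (@En.n l9711 (nat_lit 6196) (nat_lit 6) (nat_lit 3))
    (@En.n l2715 (nat_lit 2465) (nat_lit 8) (nat_lit 12))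
    (@En.n l9712 (nat_lit 1566) (nat_lit 8) (nat_lit 6))
    (@En.n l9713 (nat_lit 11181) (nat_lit 10) (nat_lit 13))
    (@En.n l9714 (nat_lit 6138) (nat_lit 10) (nat_lit 6))
    (@En.i (nat_lit 10244) (nat_lit 12) (nat_lit 7))
    (@En.n l3532 (nat_lit 7151) (nat_lit 8) (nat_lit 8))
    (@En.n l9715 (nat_lit 6190) (nat_lit 14) (nat_lit 8))
    (@En.n l8015 (nat_lit 9494) (nat_lit 8) (nat_lit 10))
    (@En.n l67 (nat_lit 6481) (nat_lit 15) (nat_lit 2))))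
  (@Cl.mk (nat_lit 0x2000a0009000900070006000b0006000c00070007000500040009000e000a) (nat_lit 0x5520020400002a1) (nat_lit 16) Lb.e (@T16.mk En
    (@En.n l19914 (nat_lit 6042) (nat_lit 13) (nat_lit 10))
    (@En.n l19915 (nat_lit 5962) (nat_lit 1) (nat_lit 14))
    (@En.n l19916 (nat_lit 9835) (nat_lit 2) (nat_lit 9))
    (@En.n l15163 (nat_lit 6481) (nat_lit 3) (nat_lit 4))
    (@En.n l19917 (nat_lit 6483) (nat_lit 4) (nat_lit 5))
    (@En.n l527 (nat_lit 6480) (nat_lit 9) (nat_lit 7))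
    (@En.n l3462 (nat_lit 7714) (nat_lit 6) (nat_lit 7))
    (@En.n l3303 (nat_lit 2461) (nat_lit 8) (nat_lit 12))
    (@En.n l5052 (nat_lit 1569) (nat_lit 8) (nat_lit 6))
    (@En.i (nat_lit 11148) (nat_lit 10) (nat_lit 11))
    (@En.n l19917 (nat_lit 6071) (nat_lit 10) (nat_lit 6))
    (@En.n l15164 (nat_lit 9833) (nat_lit 12) (nat_lit 7))
    (@En.n l19918 (nat_lit 7152) (nat_lit 7) (nat_lit 9))
    (@En.n l19919 (nat_lit 7009) (nat_lit 14) (nat_lit 9))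
    (@En.n l5706 (nat_lit 9023) (nat_lit 11) (nat_lit 10))
    (@En.n l17 (nat_lit 6482) (nat_lit 15) (nat_lit 2))))
  (@Cl.mk (nat_lit 0x200090008000c00070006000b00040007000d0008000500030009000e000a) (nat_lit 0x556003005400720) (nat_lit 16) Lb.e (@T16.mk En
    (@En.n l68 (nat_lit 7130) (nat_lit 13) (nat_lit 10))
    (@En.n l645 (nat_lit 5963) (nat_lit 1) (nat_lit 14))
    (@En.i (nat_lit 9854) (nat_lit 2) (nat_lit 9))
    (@En.n l15259 (nat_lit 6484) (nat_lit 3) (nat_lit 3))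
    (@En.n l19849 (nat_lit 4768) (nat_lit 4) (nat_lit 5))
    (@En.i (nat_lit 7711) (nat_lit 5) (nat_lit 8))
    (@En.n l8364 (nat_lit 2468) (nat_lit 7) (nat_lit 13))
    (@En.n l14944 (nat_lit 6480) (nat_lit 11) (nat_lit 7))
    (@En.n l2438 (nat_lit 6485) (nat_lit 8) (nat_lit 4))
    (@En.n l645 (nat_lit 11144) (nat_lit 10) (nat_lit 11))
    (@En.i (nat_lit 6114) (nat_lit 10) (nat_lit 6))
    (@En.n l29347 (nat_lit 9832) (nat_lit 12) (nat_lit 7))
    (@En.n l50 (nat_lit 7007) (nat_lit 13) (nat_lit 12))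
    (@En.n l217 (nat_lit 7008) (nat_lit 14) (nat_lit 8))
    (@En.n l197 (nat_lit 8794) (nat_lit 11) (nat_lit 9))
    (@En.n l67 (nat_lit 6483) (nat_lit 15) (nat_lit 2))))
  (@Cl.mk (nat_lit 0x200090007000c00070006000c00040007000d0004000900030009000e000a) (nat_lit 0x506003005030730) (nat_lit 16) Lb.e (@T16.mk En
    (@En.n l3441 (nat_lit 6882) (nat_lit 13) (nat_lit 10))
    (@En.n l1572 (nat_lit 6652) (nat_lit 1) (nat_lit 14))
    (@En.n l24911 (nat_lit 9510) (nat_lit 2) (nat_lit 9))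
    (@En.n l14125 (nat_lit 6483) (nat_lit 3) (nat_lit 3))
    (@En.n l18053 (nat_lit 5731) (nat_lit 4) (nat_lit 9))
    (@En.n l24912 (nat_lit 6194) (nat_lit 5) (nat_lit 4))
    (@En.i (nat_lit 2472) (nat_lit 7) (nat_lit 13))
    (@En.n l24913 (nat_lit 6479) (nat_lit 11) (nat_lit 7))
    (@En.n l24914 (nat_lit 6487) (nat_lit 8) (nat_lit 4))
    (@En.n l24911 (nat_lit 11168) (nat_lit 10) (nat_lit 12))
    (@En.i (nat_lit 6105) (nat_lit 10) (nat_lit 6))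
    (@En.n l24913 (nat_lit 9834) (nat_lit 12) (nat_lit 7))
    (@En.n l24915 (nat_lit 7000) (nat_lit 13) (nat_lit 12))
    (@En.n l24916 (nat_lit 7003) (nat_lit 14) (nat_lit 7))
    (@En.n l159 (nat_lit 8791) (nat_lit 11) (nat_lit 9))
    (@En.n l11 (nat_lit 6484) (nat_lit 15) (nat_lit 2))))
  (@Cl.mk (nat_lit 0x200090008000c00090008000700040007000d0008000700030008000e0009) (nat_lit 0x753360006300612) (nat_lit 16) Lb.e (@T16.mk En
    (@En.n l217 (nat_lit 2597) (nat_lit 13) (nat_lit 9))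
    (@En.n l1546 (nat_lit 1716) (nat_lit 1) (nat_lit 14))
    (@En.n l22310 (nat_lit 9858) (nat_lit 2) (nat_lit 8))
    (@En.n l9774 (nat_lit 6487) (nat_lit 3) (nat_lit 3))
    (@En.n l22311 (nat_lit 6493) (nat_lit 0) (nat_lit 7))
    (@En.n l22312 (nat_lit 7715) (nat_lit 5) (nat_lit 8))
    (@En.n l19508 (nat_lit 2469) (nat_lit 7) (nat_lit 13))
    (@En.n l22313 (nat_lit 1568) (nat_lit 7) (nat_lit 7))
    (@En.n l763 (nat_lit 7101) (nat_lit 8) (nat_lit 4))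
    (@En.n l17896 (nat_lit 6097) (nat_lit 9) (nat_lit 7))
    (@En.i (nat_lit 8261) (nat_lit 11) (nat_lit 8))
    (@En.n l22314 (nat_lit 6482) (nat_lit 12) (nat_lit 9))
    (@En.n l3 (nat_lit 6488) (nat_lit 13) (nat_lit 12))
    (@En.n l3 (nat_lit 6490) (nat_lit 14) (nat_lit 8))
    (@En.n l22315 (nat_lit 8784) (nat_lit 11) (nat_lit 9))
    (@En.n l50 (nat_lit 6485) (nat_lit 15) (nat_lit 2))))
  (@Cl.mk (nat_lit 0x2000a0007000a00070006000c0006000c00060004000900040009000e000a) (nat_lit 0x602005050040722) (nat_lit 16) Lb.e (@T16.mk En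
    (@En.n l77 (nat_lit 6891) (nat_lit 11) (nat_lit 10))
    (@En.n l19939 (nat_lit 6789) (nat_lit 1) (nat_lit 14))
    (@En.n l8984 (nat_lit 9628) (nat_lit 2) (nat_lit 9))
    (@En.n l19940 (nat_lit 6482) (nat_lit 3) (nat_lit 4))
    (@En.n l19941 (nat_lit 6487) (nat_lit 4) (nat_lit 9))
    (@En.n l19942 (nat_lit 6484) (nat_lit 5) (nat_lit 4))
    (@En.n l4509 (nat_lit 4210) (nat_lit 6) (nat_lit 6))
    (@En.n l19943 (nat_lit 2466) (nat_lit 8) (nat_lit 12))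
    (@En.n l19944 (nat_lit 1565) (nat_lit 8) (nat_lit 6))
    (@En.n l19945 (nat_lit 11172) (nat_lit 10) (nat_lit 12))
    (@En.n l19027 (nat_lit 6111) (nat_lit 10) (nat_lit 6))
    (@En.n l517 (nat_lit 9836) (nat_lit 12) (nat_lit 7))
    (@En.n l19027 (nat_lit 6889) (nat_lit 8) (nat_lit 10))
    (@En.n l19021 (nat_lit 7004) (nat_lit 14) (nat_lit 7))
    (@En.n l19946 (nat_lit 8391) (nat_lit 11) (nat_lit 10))
    (@En.n l28 (nat_lit 6486) (nat_lit 15) (nat_lit 2))))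
  (@Cl.mk (nat_lit 0x200090007000c000a0008000700040007000d0006000900030008000e0009) (nat_lit 0x603300006030662) (nat_lit 16) Lb.e (@T16.mk En
    (@En.n l18494 (nat_lit 2594) (nat_lit 13) (nat_lit 9))
    (@En.n l5 (nat_lit 6791) (nat_lit 1) (nat_lit 14))
    (@En.n l11511 (nat_lit 8827) (nat_lit 2) (nat_lit 8))
    (@En.n l20673 (nat_lit 6485) (nat_lit 3) (nat_lit 3))
    (@En.n l7844 (nat_lit 5732) (nat_lit 0) (nat_lit 9))
    (@En.n l7572 (nat_lit 4211) (nat_lit 5) (nat_lit 6))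
    (@En.n l22421 (nat_lit 2470) (nat_lit 7) (nat_lit 13))
    (@En.i (nat_lit 1578) (nat_lit 7) (nat_lit 7))
    (@En.n l22422 (nat_lit 7097) (nat_lit 8) (nat_lit 4))
    (@En.n l217 (nat_lit 6109) (nat_lit 9) (nat_lit 7))
    (@En.n l14754 (nat_lit 8259) (nat_lit 11) (nat_lit 8))
    (@En.n l22423 (nat_lit 6486) (nat_lit 12) (nat_lit 10))
    (@En.n l6072 (nat_lit 6489) (nat_lit 13) (nat_lit 12))
    (@En.n l619 (nat_lit 7006) (nat_lit 14) (nat_lit 7))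
    (@En.n l22424 (nat_lit 8817) (nat_lit 11) (nat_lit 9))
    (@En.n l17 (nat_lit 6487) (nat_lit 15) (nat_lit 2))))
  (@Cl.mk (nat_lit 0x20009000c0008000700060004000d0007000d0003000800030009000e000a) (nat_lit 0x622000b060207a6) (nat_lit 16) Lb.e (@T16.mk En
    (@En.n l217 (nat_lit 2598) (nat_lit 11) (nat_lit 10))
    (@En.n l1546 (nat_lit 6799) (nat_lit 1) (nat_lit 14))
    (@En.n l4840 (nat_lit 9856) (nat_lit 2) (nat_lit 9))
    (@En.i (nat_lit 6489) (nat_lit 3) (nat_lit 3))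
    (@En.n l2900 (nat_lit 6492) (nat_lit 4) (nat_lit 8))
    (@En.n l117 (nat_lit 6490) (nat_lit 5) (nat_lit 3))
    (@En.n l1166 (nat_lit 2340) (nat_lit 7) (nat_lit 13))
    (@En.i (nat_lit 6485) (nat_lit 7) (nat_lit 7))
    (@En.n l3928 (nat_lit 6481) (nat_lit 9) (nat_lit 13))
    (@En.n l763 (nat_lit 7099) (nat_lit 9) (nat_lit 4))
    (@En.n l2900 (nat_lit 6142) (nat_lit 10) (nat_lit 6))
    (@En.i (nat_lit 8264) (nat_lit 12) (nat_lit 7))
    (@En.n l14872 (nat_lit 6491) (nat_lit 13) (nat_lit 8))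
    (@En.i (nat_lit 1378) (nat_lit 14) (nat_lit 12))
    (@En.n l765 (nat_lit 8778) (nat_lit 11) (nat_lit 9))
    (@En.n l50 (nat_lit 6488) (nat_lit 15) (nat_lit 2))))
  (@Cl.mk (nat_lit 0x20009000c0009000700060004000c0007000d0007000400030009000e000a) (nat_lit 0x5220006060007a2) (nat_lit 16) Lb.e (@T16.mk En
    (@En.n l217 (nat_lit 2596) (nat_lit 13) (nat_lit 10))
    (@En.n l9773 (nat_lit 6792) (nat_lit 1) (nat_lit 14))
    (@En.n l845 (nat_lit 9263) (nat_lit 2) (nat_lit 9))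
    (@En.n l11 (nat_lit 6488) (nat_lit 3) (nat_lit 3))
    (@En.n l6385 (nat_lit 7005) (nat_lit 4) (nat_lit 4))
    (@En.i (nat_lit 3953) (nat_lit 5) (nat_lit 7))
    (@En.n l8137 (nat_lit 2338) (nat_lit 7) (nat_lit 13))
    (@En.n l9774 (nat_lit 6487) (nat_lit 7) (nat_lit 7))
    (@En.n l9775 (nat_lit 6486) (nat_lit 9) (nat_lit 12))
    (@En.n l763 (nat_lit 7096) (nat_lit 9) (nat_lit 4))
    (@En.n l6385 (nat_lit 6108) (nat_lit 10) (nat_lit 6))
    (@En.i (nat_lit 8262) (nat_lit 12) (nat_lit 7))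
    (@En.n l9776 (nat_lit 6999) (nat_lit 13) (nat_lit 9))
    (@En.i (nat_lit 1377) (nat_lit 14) (nat_lit 12))
    (@En.n l765 (nat_lit 8395) (nat_lit 11) (nat_lit 9))
    (@En.n l50 (nat_lit 6489) (nat_lit 15) (nat_lit 2))))
  (@Cl.mk (nat_lit 0x20008000c0008000700060004000d000c00080003000800040009000e000a) (nat_lit 0x426000b750107a6) (nat_lit 16) Lb.e (@T16.mk En
    (@En.n l217 (nat_lit 5855) (nat_lit 11) (nat_lit 10))
    (@En.n l1546 (nat_lit 6803) (nat_lit 1) (nat_lit 14))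
    (@En.n l14911 (nat_lit 9857) (nat_lit 2) (nat_lit 9))
    (@En.n l15450 (nat_lit 7006) (nat_lit 3) (nat_lit 4))
    (@En.n l16080 (nat_lit 5294) (nat_lit 4) (nat_lit 8))
    (@En.n l152 (nat_lit 6488) (nat_lit 5) (nat_lit 3))
    (@En.i (nat_lit 5853) (nat_lit 0) (nat_lit 8))
    (@En.n l619 (nat_lit 6489) (nat_lit 8) (nat_lit 12))
    (@En.n l14913 (nat_lit 6196) (nat_lit 9) (nat_lit 13))
    (@En.n l763 (nat_lit 7100) (nat_lit 9) (nat_lit 4))
    (@En.n l16081 (nat_lit 5659) (nat_lit 10) (nat_lit 6))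
    (@En.i (nat_lit 8266) (nat_lit 12) (nat_lit 7))
    (@En.n l16082 (nat_lit 7009) (nat_lit 13) (nat_lit 8))
    (@En.i (nat_lit 1376) (nat_lit 14) (nat_lit 12))
    (@En.n l16081 (nat_lit 8880) (nat_lit 9) (nat_lit 8))
    (@En.n l50 (nat_lit 6490) (nat_lit 15) (nat_lit 2))))
  (@Cl.mk (nat_lit 0x2000a000800060005000a000d0006000c0003000800060004000a000e000b) (nat_lit 0x610025030500820) (nat_lit 16) Lb.e (@T16.mk En
    (@En.n l68 (nat_lit 7050) (nat_lit 10) (nat_lit 11))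
    (@En.n l645 (nat_lit 5966) (nat_lit 1) (nat_lit 14))
    (@En.n l14941 (nat_lit 9852) (nat_lit 2) (nat_lit 10))
    (@En.n l14942 (nat_lit 6996) (nat_lit 3) (nat_lit 4))
    (@En.n l7 (nat_lit 7007) (nat_lit 4) (nat_lit 6))
    (@En.n l644 (nat_lit 6483) (nat_lit 5) (nat_lit 8))
    (@En.n l14943 (nat_lit 7009) (nat_lit 6) (nat_lit 3))
    (@En.n l2916 (nat_lit 882) (nat_lit 8) (nat_lit 12))
    (@En.n l14944 (nat_lit 6482) (nat_lit 8) (nat_lit 6))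
    (@En.n l6210 (nat_lit 7151) (nat_lit 5) (nat_lit 13))
    (@En.n l645 (nat_lit 11146) (nat_lit 11) (nat_lit 10))
    (@En.i (nat_lit 5664) (nat_lit 11) (nat_lit 5))
    (@En.n l6210 (nat_lit 8649) (nat_lit 13) (nat_lit 6))
    (@En.n l396 (nat_lit 1029) (nat_lit 14) (nat_lit 8))
    (@En.n l197 (nat_lit 8799) (nat_lit 8) (nat_lit 10))
    (@En.n l67 (nat_lit 6491) (nat_lit 15) (nat_lit 2))))
  (@Cl.mk (nat_lit 0x20008000b0008000c00080007000500040008000e000800020008000e0009) (nat_lit 0x5567200035103b0) (nat_lit 16) Lb.e (@T16.mk En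
    (@En.n l68 (nat_lit 6496) (nat_lit 13) (nat_lit 9))
    (@En.n l12665 (nat_lit 6453) (nat_lit 1) (nat_lit 14))
    (@En.i (nat_lit 11274) (nat_lit 2) (nat_lit 8))
    (@En.n l17 (nat_lit 6492) (nat_lit 3) (nat_lit 2))
    (@En.n l29217 (nat_lit 5859) (nat_lit 4) (nat_lit 8))
    (@En.n l1790 (nat_lit 1772) (nat_lit 6) (nat_lit 14))
    (@En.n l24732 (nat_lit 6493) (nat_lit 2) (nat_lit 8))
    (@En.n l29218 (nat_lit 6494) (nat_lit 3) (nat_lit 4))
    (@En.n l12662 (nat_lit 11228) (nat_lit 4) (nat_lit 5))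
    (@En.i (nat_lit 6092) (nat_lit 5) (nat_lit 7))
    (@En.n l2438 (nat_lit 5851) (nat_lit 6) (nat_lit 8))
    (@En.i (nat_lit 4129) (nat_lit 12) (nat_lit 12))
    (@En.n l601 (nat_lit 6483) (nat_lit 13) (nat_lit 8))
    (@En.i (nat_lit 5251) (nat_lit 10) (nat_lit 11))
    (@En.n l476 (nat_lit 12188) (nat_lit 11) (nat_lit 8))
    (@En.n l67 (nat_lit 6492) (nat_lit 15) (nat_lit 2))))
  (@Cl.mk (nat_lit 0x20007000e000800020008000d000b000900030009000800050008000e0007) (nat_lit 0x80056670510280) (nat_lit 16) Lb.e (@T16.mk En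
    (@En.n l5246 (nat_lit 6010) (nat_lit 4) (nat_lit 7))
    (@En.n l1643 (nat_lit 1788) (nat_lit 6) (nat_lit 14))
    (@En.n l5052 (nat_lit 2922) (nat_lit 2) (nat_lit 8))
    (@En.n l9440 (nat_lit 11227) (nat_lit 3) (nat_lit 5))
    (@En.n l2579 (nat_lit 6091) (nat_lit 4) (nat_lit 8))
    (@En.n l998 (nat_lit 7708) (nat_lit 5) (nat_lit 9))
    (@En.i (nat_lit 6494) (nat_lit 6) (nat_lit 3))
    (@En.i (nat_lit 6480) (nat_lit 0) (nat_lit 9))
    (@En.n l30918 (nat_lit 6492) (nat_lit 13) (nat_lit 11))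
    (@En.n l619 (nat_lit 6439) (nat_lit 10) (nat_lit 13))
    (@En.n l12896 (nat_lit 12181) (nat_lit 11) (nat_lit 8))
    (@En.n l17 (nat_lit 6493) (nat_lit 11) (nat_lit 2))
    (@En.n l2805 (nat_lit 6495) (nat_lit 13) (nat_lit 8))
    (@En.n l998 (nat_lit 6451) (nat_lit 1) (nat_lit 14))
    (@En.n l5934 (nat_lit 11273) (nat_lit 2) (nat_lit 7))
    (@En.n l7 (nat_lit 6493) (nat_lit 15) (nat_lit 2))))
  (@Cl.mk (nat_lit 0x20007000e000800020008000d0008000c00030009000800040008000e0008) (nat_lit 0x50057630610281) (nat_lit 16) Lb.e (@T16.mk En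
    (@En.n l21438 (nat_lit 6015) (nat_lit 4) (nat_lit 8))
    (@En.n l1643 (nat_lit 1502) (nat_lit 6) (nat_lit 14))
    (@En.n l5052 (nat_lit 2923) (nat_lit 2) (nat_lit 8))
    (@En.n l6118 (nat_lit 11686) (nat_lit 3) (nat_lit 4))
    (@En.n l2579 (nat_lit 6087) (nat_lit 4) (nat_lit 8))
    (@En.n l21439 (nat_lit 11430) (nat_lit 5) (nat_lit 9))
    (@En.n l107 (nat_lit 6493) (nat_lit 6) (nat_lit 3))
    (@En.n l21440 (nat_lit 4128) (nat_lit 0) (nat_lit 12))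
    (@En.n l21441 (nat_lit 6485) (nat_lit 13) (nat_lit 8))
    (@En.n l21442 (nat_lit 6443) (nat_lit 10) (nat_lit 13))
    (@En.n l21443 (nat_lit 11970) (nat_lit 11) (nat_lit 8))
    (@En.n l17 (nat_lit 6494) (nat_lit 11) (nat_lit 2))
    (@En.n l21444 (nat_lit 6497) (nat_lit 13) (nat_lit 8))
    (@En.n l998 (nat_lit 6452) (nat_lit 1) (nat_lit 14))
    (@En.n l21445 (nat_lit 9893) (nat_lit 2) (nat_lit 7))
    (@En.n l7 (nat_lit 6494) (nat_lit 15) (nat_lit 2))))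
  (@Cl.mk (nat_lit 0x20008000800080007000d000a0008000300080008000800060009000e0008) (nat_lit 0x562054605020396) (nat_lit 16) Lb.e (@T16.mk En
    (@En.n l23163 (nat_lit 5160) (nat_lit 9) (nat_lit 8))
    (@En.n l248 (nat_lit 1414) (nat_lit 1) (nat_lit 14))
    (@En.n l5592 (nat_lit 2919) (nat_lit 2) (nat_lit 9))
    (@En.n l4021 (nat_lit 9635) (nat_lit 3) (nat_lit 6))
    (@En.n l1865 (nat_lit 6493) (nat_lit 4) (nat_lit 8))
    (@En.n l152 (nat_lit 6498) (nat_lit 8) (nat_lit 8))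
    (@En.n l3897 (nat_lit 7701) (nat_lit 6) (nat_lit 8))
    (@En.n l23164 (nat_lit 6497) (nat_lit 7) (nat_lit 3))
    (@En.n l23165 (nat_lit 6034) (nat_lit 0) (nat_lit 8))
    (@En.n l23155 (nat_lit 6496) (nat_lit 10) (nat_lit 10))
    (@En.n l134 (nat_lit 6440) (nat_lit 11) (nat_lit 13))
    (@En.n l3339 (nat_lit 7972) (nat_lit 12) (nat_lit 7))
    (@En.n l23166 (nat_lit 6501) (nat_lit 8) (nat_lit 8))
    (@En.n l12546 (nat_lit 6504) (nat_lit 14) (nat_lit 8))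
    (@En.n l23167 (nat_lit 11278) (nat_lit 6) (nat_lit 8))
    (@En.n l17 (nat_lit 6495) (nat_lit 15) (nat_lit 2))))
noncomputable def a406 : T16 Cl := @T16.mk Cl
  (@Cl.mk (nat_lit 0x20009000900090007000a0007000b000700070007000600050009000e0009) (nat_lit 0x672030600000467) (nat_lit 16) Lb.e (@T16.mk En
    (@En.n l26620 (nat_lit 5159) (nat_lit 13) (nat_lit 9))
    (@En.i (nat_lit 1771) (nat_lit 1) (nat_lit 14))
    (@En.n l31021 (nat_lit 6495) (nat_lit 2) (nat_lit 9))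
    (@En.n l26642 (nat_lit 6497) (nat_lit 3) (nat_lit 5))
    (@En.n l218 (nat_lit 9634) (nat_lit 4) (nat_lit 6))
    (@En.n l11 (nat_lit 6492) (nat_lit 9) (nat_lit 7))
    (@En.n l4976 (nat_lit 6499) (nat_lit 9) (nat_lit 7))
    (@En.n l1393 (nat_lit 7702) (nat_lit 7) (nat_lit 7))
    (@En.i (nat_lit 4138) (nat_lit 9) (nat_lit 11))
    (@En.n l601 (nat_lit 7130) (nat_lit 10) (nat_lit 7))
    (@En.i (nat_lit 4779) (nat_lit 11) (nat_lit 10))
    (@En.n l8390 (nat_lit 7974) (nat_lit 12) (nat_lit 7))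
    (@En.n l36445 (nat_lit 6503) (nat_lit 7) (nat_lit 9))
    (@En.n l36446 (nat_lit 6505) (nat_lit 7) (nat_lit 9))
    (@En.i (nat_lit 11277) (nat_lit 2) (nat_lit 9))
    (@En.n l17 (nat_lit 6496) (nat_lit 15) (nat_lit 2))))
  (@Cl.mk (nat_lit 0x20008000800080007000d0007000b000300080008000800050009000e0009) (nat_lit 0x560060300020491) (nat_lit 16) Lb.e (@T16.mk En
    (@En.n l5646 (nat_lit 5161) (nat_lit 9) (nat_lit 9))
    (@En.i (nat_lit 1413) (nat_lit 1) (nat_lit 14))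
    (@En.n l2758 (nat_lit 1897) (nat_lit 2) (nat_lit 9))
    (@En.n l7611 (nat_lit 8015) (nat_lit 3) (nat_lit 5))
    (@En.n l35227 (nat_lit 6494) (nat_lit 4) (nat_lit 8))
    (@En.n l35228 (nat_lit 6500) (nat_lit 8) (nat_lit 8))
    (@En.n l35229 (nat_lit 11426) (nat_lit 6) (nat_lit 8))
    (@En.n l10126 (nat_lit 6495) (nat_lit 7) (nat_lit 3))
    (@En.n l20708 (nat_lit 4135) (nat_lit 0) (nat_lit 11))
    (@En.n l35230 (nat_lit 2597) (nat_lit 10) (nat_lit 7))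
    (@En.n l1722 (nat_lit 6442) (nat_lit 11) (nat_lit 13))
    (@En.n l35231 (nat_lit 7970) (nat_lit 12) (nat_lit 7))
    (@En.n l601 (nat_lit 6502) (nat_lit 8) (nat_lit 8))
    (@En.n l77 (nat_lit 7964) (nat_lit 14) (nat_lit 8))
    (@En.i (nat_lit 11209) (nat_lit 6) (nat_lit 8))
    (@En.n l3 (nat_lit 6497) (nat_lit 15) (nat_lit 2))))
  (@Cl.mk (nat_lit 0x200090008000d000b000900030008000700050008000e00070002000e0008) (nat_lit 0x66500600340086) (nat_lit 16) Lb.e (@T16.mk En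
    (@En.i (nat_lit 6495) (nat_lit 14) (nat_lit 8))
    (@En.i (nat_lit 10979) (nat_lit 1) (nat_lit 14))
    (@En.n l17 (nat_lit 6498) (nat_lit 2) (nat_lit 2))
    (@En.n l4172 (nat_lit 6521) (nat_lit 3) (nat_lit 7))
    (@En.n l2031 (nat_lit 1748) (nat_lit 5) (nat_lit 14))
    (@En.n l5592 (nat_lit 1899) (nat_lit 5) (nat_lit 8))
    (@En.n l4021 (nat_lit 9925) (nat_lit 6) (nat_lit 5))
    (@En.i (nat_lit 6090) (nat_lit 7) (nat_lit 7))
    (@En.n l3897 (nat_lit 11585) (nat_lit 5) (nat_lit 8))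
    (@En.i (nat_lit 6500) (nat_lit 9) (nat_lit 3))
    (@En.i (nat_lit 8174) (nat_lit 0) (nat_lit 9))
    (@En.n l3039 (nat_lit 6499) (nat_lit 12) (nat_lit 11))
    (@En.n l134 (nat_lit 6906) (nat_lit 13) (nat_lit 13))
    (@En.n l3339 (nat_lit 10108) (nat_lit 14) (nat_lit 8))
    (@En.n l107 (nat_lit 6509) (nat_lit 12) (nat_lit 9))
    (@En.n l3 (nat_lit 6498) (nat_lit 15) (nat_lit 2))))
  (@Cl.mk (nat_lit 0x2000a0008000b0008000c00070006000500040008000e00080002000e0009) (nat_lit 0x264060000453097) (nat_lit 16) Lb.e (@T16.mk En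
    (@En.n l575 (nat_lit 6496) (nat_lit 14) (nat_lit 9))
    (@En.i (nat_lit 11607) (nat_lit 1) (nat_lit 14))
    (@En.n l17 (nat_lit 6499) (nat_lit 2) (nat_lit 2))
    (@En.i (nat_lit 6522) (nat_lit 3) (nat_lit 8))
    (@En.n l1013 (nat_lit 1465) (nat_lit 5) (nat_lit 14))
    (@En.n l11512 (nat_lit 6498) (nat_lit 5) (nat_lit 8))
    (@En.n l27083 (nat_lit 6500) (nat_lit 6) (nat_lit 4))
    (@En.n l1577 (nat_lit 9926) (nat_lit 7) (nat_lit 5))
    (@En.i (nat_lit 6089) (nat_lit 8) (nat_lit 6))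
    (@En.n l4973 (nat_lit 9051) (nat_lit 6) (nat_lit 7))
    (@En.i (nat_lit 4666) (nat_lit 11) (nat_lit 12))
    (@En.n l6370 (nat_lit 7914) (nat_lit 12) (nat_lit 8))
    (@En.i (nat_lit 4902) (nat_lit 13) (nat_lit 11))
    (@En.n l5987 (nat_lit 10109) (nat_lit 14) (nat_lit 8))
    (@En.n l107 (nat_lit 6506) (nat_lit 12) (nat_lit 10))
    (@En.n l3 (nat_lit 6499) (nat_lit 15) (nat_lit 2))))
  (@Cl.mk (nat_lit 0x200090008000d0008000c00030008000700040008000e00080002000e0008) (nat_lit 0x66040600342006) (nat_lit 16) Lb.e (@T16.mk En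
    (@En.n l23164 (nat_lit 6497) (nat_lit 14) (nat_lit 8))
    (@En.n l30907 (nat_lit 10982) (nat_lit 1) (nat_lit 14))
    (@En.n l17 (nat_lit 6500) (nat_lit 2) (nat_lit 2))
    (@En.n l30908 (nat_lit 6520) (nat_lit 3) (nat_lit 8))
    (@En.n l2566 (nat_lit 1746) (nat_lit 5) (nat_lit 14))
    (@En.n l5592 (nat_lit 1893) (nat_lit 5) (nat_lit 8))
    (@En.n l30909 (nat_lit 9923) (nat_lit 6) (nat_lit 4))
    (@En.i (nat_lit 6088) (nat_lit 7) (nat_lit 7))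
    (@En.n l30910 (nat_lit 11421) (nat_lit 5) (nat_lit 8))
    (@En.n l7 (nat_lit 6498) (nat_lit 9) (nat_lit 3))
    (@En.n l30911 (nat_lit 4663) (nat_lit 0) (nat_lit 12))
    (@En.n l30912 (nat_lit 7816) (nat_lit 12) (nat_lit 8))
    (@En.n l828 (nat_lit 6905) (nat_lit 13) (nat_lit 13))
    (@En.n l19004 (nat_lit 10107) (nat_lit 14) (nat_lit 8))
    (@En.n l30154 (nat_lit 6511) (nat_lit 12) (nat_lit 9))
    (@En.n l3 (nat_lit 6500) (nat_lit 15) (nat_lit 2))))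
  (@Cl.mk (nat_lit 0x20007000a000e00090002000900080006000d0009000700030007000e0008) (nat_lit 0x56005104400081) (nat_lit 16) Lb.e (@T16.mk En
    (@En.n l24595 (nat_lit 6495) (nat_lit 5) (nat_lit 8))
    (@En.n l24596 (nat_lit 6512) (nat_lit 7) (nat_lit 14))
    (@En.i (nat_lit 7699) (nat_lit 2) (nat_lit 7))
    (@En.n l24597 (nat_lit 6502) (nat_lit 3) (nat_lit 3))
    (@En.n l24598 (nat_lit 6031) (nat_lit 0) (nat_lit 7))
    (@En.n l17 (nat_lit 6503) (nat_lit 5) (nat_lit 9))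
    (@En.n l9715 (nat_lit 6908) (nat_lit 7) (nat_lit 13))
    (@En.n l24599 (nat_lit 8929) (nat_lit 7) (nat_lit 6))
    (@En.n l24600 (nat_lit 4011) (nat_lit 14) (nat_lit 8))
    (@En.n l24601 (nat_lit 11208) (nat_lit 10) (nat_lit 9))
    (@En.n l67 (nat_lit 6501) (nat_lit 10) (nat_lit 2))
    (@En.n l24602 (nat_lit 6951) (nat_lit 12) (nat_lit 9))
    (@En.n l4821 (nat_lit 1723) (nat_lit 13) (nat_lit 14))
    (@En.n l24598 (nat_lit 3217) (nat_lit 8) (nat_lit 10))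
    (@En.n l24603 (nat_lit 9633) (nat_lit 3) (nat_lit 7))
    (@En.n l50 (nat_lit 6501) (nat_lit 15) (nat_lit 2))))
  (@Cl.mk (nat_lit 0x20006000a000e000a0002000900080006000d0006000a00030007000e0008) (nat_lit 0x56305605030081) (nat_lit 16) Lb.e (@T16.mk En
    (@En.n l7 (nat_lit 6497) (nat_lit 5) (nat_lit 8))
    (@En.n l35336 (nat_lit 6513) (nat_lit 7) (nat_lit 14))
    (@En.n l19395 (nat_lit 11431) (nat_lit 2) (nat_lit 7))
    (@En.n l3966 (nat_lit 6501) (nat_lit 3) (nat_lit 3))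
    (@En.n l35337 (nat_lit 5840) (nat_lit 4) (nat_lit 10))
    (@En.n l35338 (nat_lit 7243) (nat_lit 5) (nat_lit 6))
    (@En.n l7678 (nat_lit 6907) (nat_lit 7) (nat_lit 13))
    (@En.n l763 (nat_lit 8870) (nat_lit 7) (nat_lit 6))
    (@En.i (nat_lit 7271) (nat_lit 14) (nat_lit 8))
    (@En.n l763 (nat_lit 11207) (nat_lit 10) (nat_lit 9))
    (@En.n l3 (nat_lit 6502) (nat_lit 10) (nat_lit 2))
    (@En.n l5646 (nat_lit 6953) (nat_lit 12) (nat_lit 10))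
    (@En.n l1029 (nat_lit 1726) (nat_lit 13) (nat_lit 14))
    (@En.n l874 (nat_lit 3218) (nat_lit 2) (nat_lit 10))
    (@En.i (nat_lit 9584) (nat_lit 3) (nat_lit 6))
    (@En.n l50 (nat_lit 6502) (nat_lit 15) (nat_lit 2))))
  (@Cl.mk (nat_lit 0x200070006000a000e000a0002000a0009000600090006000a0006000e0007) (nat_lit 0x6700610305010) (nat_lit 16) Lb.e (@T16.mk En
    (@En.n l30422 (nat_lit 6496) (nat_lit 6) (nat_lit 7))
    (@En.n l601 (nat_lit 5286) (nat_lit 8) (nat_lit 14))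
    (@En.i (nat_lit 5252) (nat_lit 2) (nat_lit 6))
    (@En.n l30423 (nat_lit 5835) (nat_lit 3) (nat_lit 10))
    (@En.i (nat_lit 7127) (nat_lit 4) (nat_lit 6))
    (@En.n l24410 (nat_lit 5246) (nat_lit 5) (nat_lit 9))
    (@En.n l30424 (nat_lit 8930) (nat_lit 6) (nat_lit 6))
    (@En.n l77 (nat_lit 4012) (nat_lit 14) (nat_lit 9))
    (@En.n l8015 (nat_lit 11280) (nat_lit 9) (nat_lit 10))
    (@En.n l67 (nat_lit 6503) (nat_lit 9) (nat_lit 2))
    (@En.n l68 (nat_lit 6952) (nat_lit 11) (nat_lit 10))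
    (@En.n l3866 (nat_lit 1769) (nat_lit 12) (nat_lit 14))
    (@En.i (nat_lit 6501) (nat_lit 13) (nat_lit 10))
    (@En.n l22342 (nat_lit 6502) (nat_lit 14) (nat_lit 6))
    (@En.n l4554 (nat_lit 9630) (nat_lit 4) (nat_lit 7))
    (@En.n l50 (nat_lit 6503) (nat_lit 15) (nat_lit 2))))
  (@Cl.mk (nat_lit 0x2000800070006000d000900070003000e0008000200090007000a000e0009) (nat_lit 0x500440096010597) (nat_lit 16) Lb.e (@T16.mk En
    (@En.n l10125 (nat_lit 5153) (nat_lit 11) (nat_lit 9))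
    (@En.n l3659 (nat_lit 1719) (nat_lit 12) (nat_lit 14))
    (@En.n l2760 (nat_lit 2911) (nat_lit 2) (nat_lit 10))
    (@En.n l2989 (nat_lit 11332) (nat_lit 14) (nat_lit 7))
    (@En.n l8739 (nat_lit 5029) (nat_lit 4) (nat_lit 9))
    (@En.n l7 (nat_lit 6504) (nat_lit 5) (nat_lit 2))
    (@En.n l10126 (nat_lit 6495) (nat_lit 6) (nat_lit 8))
    (@En.n l6658 (nat_lit 4475) (nat_lit 1) (nat_lit 14))
    (@En.n l11 (nat_lit 7964) (nat_lit 8) (nat_lit 3))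
    (@En.n l7291 (nat_lit 7039) (nat_lit 3) (nat_lit 7))
    (@En.i (nat_lit 6505) (nat_lit 4) (nat_lit 9))
    (@En.n l1722 (nat_lit 7962) (nat_lit 12) (nat_lit 13))
    (@En.n l17 (nat_lit 7968) (nat_lit 13) (nat_lit 6))
    (@En.i (nat_lit 4013) (nat_lit 14) (nat_lit 7))
    (@En.n l1284 (nat_lit 12052) (nat_lit 9) (nat_lit 8))
    (@En.n l3 (nat_lit 6504) (nat_lit 15) (nat_lit 2))))
  (@Cl.mk (nat_lit 0x2000800070006000a000e000a000200090008000600090006000a000e0007) (nat_lit 0x100678060030580) (nat_lit 16) Lb.e (@T16.mk En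
    (@En.n l20708 (nat_lit 6496) (nat_lit 7) (nat_lit 7))
    (@En.n l15754 (nat_lit 4560) (nat_lit 9) (nat_lit 14))
    (@En.n l20709 (nat_lit 5820) (nat_lit 2) (nat_lit 10))
    (@En.n l20710 (nat_lit 7042) (nat_lit 3) (nat_lit 6))
    (@En.n l20711 (nat_lit 4775) (nat_lit 4) (nat_lit 9))
    (@En.n l3976 (nat_lit 7973) (nat_lit 13) (nat_lit 6))
    (@En.i (nat_lit 7388) (nat_lit 6) (nat_lit 8))
    (@En.i (nat_lit 12051) (nat_lit 8) (nat_lit 9))
    (@En.n l3 (nat_lit 6505) (nat_lit 8) (nat_lit 2))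
    (@En.n l5646 (nat_lit 5150) (nat_lit 10) (nat_lit 10))
    (@En.n l20712 (nat_lit 1773) (nat_lit 11) (nat_lit 14))
    (@En.n l207 (nat_lit 6504) (nat_lit 2) (nat_lit 10))
    (@En.i (nat_lit 7964) (nat_lit 3) (nat_lit 6))
    (@En.n l20713 (nat_lit 11331) (nat_lit 14) (nat_lit 7))
    (@En.n l20714 (nat_lit 5031) (nat_lit 5) (nat_lit 8))
    (@En.n l7 (nat_lit 6505) (nat_lit 15) (nat_lit 2))))
  (@Cl.mk (nat_lit 0x20007000a000a0007000a0007000b000600060009000600050009000e0009) (nat_lit 0x71040300700567) (nat_lit 16) Lb.e (@T16.mk En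
    (@En.n l26376 (nat_lit 5285) (nat_lit 13) (nat_lit 9))
    (@En.n l9025 (nat_lit 1464) (nat_lit 1) (nat_lit 14))
    (@En.n l11512 (nat_lit 6509) (nat_lit 2) (nat_lit 9))
    (@En.n l21906 (nat_lit 6511) (nat_lit 3) (nat_lit 5))
    (@En.n l1643 (nat_lit 2024) (nat_lit 4) (nat_lit 6))
    (@En.n l3 (nat_lit 6507) (nat_lit 5) (nat_lit 9))
    (@En.n l527 (nat_lit 6507) (nat_lit 6) (nat_lit 6))
    (@En.n l26377 (nat_lit 11274) (nat_lit 7) (nat_lit 6))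
    (@En.i (nat_lit 6059) (nat_lit 9) (nat_lit 11))
    (@En.n l26378 (nat_lit 7840) (nat_lit 10) (nat_lit 7))
    (@En.i (nat_lit 4958) (nat_lit 11) (nat_lit 10))
    (@En.n l26379 (nat_lit 8474) (nat_lit 12) (nat_lit 7))
    (@En.n l26380 (nat_lit 5286) (nat_lit 13) (nat_lit 10))
    (@En.n l26377 (nat_lit 6503) (nat_lit 8) (nat_lit 10))
    (@En.n l13079 (nat_lit 5280) (nat_lit 13) (nat_lit 7))
    (@En.n l17 (nat_lit 6506) (nat_lit 15) (nat_lit 2))))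
  (@Cl.mk (nat_lit 0x20007000e000a00020008000b0008000c00060009000500040008000e0008) (nat_lit 0xa8055030600450) (nat_lit 16) Lb.e (@T16.mk En
    (@En.n l8515 (nat_lit 6517) (nat_lit 4) (nat_lit 8))
    (@En.n l9025 (nat_lit 1463) (nat_lit 6) (nat_lit 14))
    (@En.n l11512 (nat_lit 6508) (nat_lit 2) (nat_lit 8))
    (@En.n l13411 (nat_lit 6510) (nat_lit 3) (nat_lit 4))
    (@En.n l1643 (nat_lit 2014) (nat_lit 8) (nat_lit 5))
    (@En.i (nat_lit 13601) (nat_lit 9) (nat_lit 9))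
    (@En.n l8898 (nat_lit 11273) (nat_lit 6) (nat_lit 6))
    (@En.i (nat_lit 6060) (nat_lit 12) (nat_lit 12))
    (@En.n l601 (nat_lit 7844) (nat_lit 13) (nat_lit 8))
    (@En.i (nat_lit 4956) (nat_lit 10) (nat_lit 11))
    (@En.i (nat_lit 8471) (nat_lit 11) (nat_lit 8))
    (@En.n l107 (nat_lit 6507) (nat_lit 11) (nat_lit 2))
    (@En.i (nat_lit 6506) (nat_lit 13) (nat_lit 10))
    (@En.n l97 (nat_lit 6499) (nat_lit 1) (nat_lit 14))
    (@En.n l20166 (nat_lit 4937) (nat_lit 2) (nat_lit 7))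
    (@En.n l17 (nat_lit 6507) (nat_lit 15) (nat_lit 2))))
  (@Cl.mk (nat_lit 0x20006000e000900020008000d000b000900030007000a00050008000e0007) (nat_lit 0x97059610000340) (nat_lit 16) Lb.e (@T16.mk En
    (@En.n l4172 (nat_lit 6516) (nat_lit 4) (nat_lit 7))
    (@En.n l2031 (nat_lit 1449) (nat_lit 6) (nat_lit 14))
    (@En.n l5592 (nat_lit 1268) (nat_lit 2) (nat_lit 8))
    (@En.n l1643 (nat_lit 2017) (nat_lit 7) (nat_lit 5))
    (@En.n l2031 (nat_lit 13600) (nat_lit 8) (nat_lit 10))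
    (@En.i (nat_lit 11271) (nat_lit 5) (nat_lit 7))
    (@En.n l20065 (nat_lit 6510) (nat_lit 6) (nat_lit 3))
    (@En.i (nat_lit 6054) (nat_lit 0) (nat_lit 9))
    (@En.n l3039 (nat_lit 6507) (nat_lit 9) (nat_lit 11))
    (@En.n l134 (nat_lit 6901) (nat_lit 10) (nat_lit 13))
    (@En.i (nat_lit 8398) (nat_lit 11) (nat_lit 8))
    (@En.n l107 (nat_lit 6508) (nat_lit 11) (nat_lit 2))
    (@En.i (nat_lit 6509) (nat_lit 13) (nat_lit 9))
    (@En.n l97 (nat_lit 6498) (nat_lit 1) (nat_lit 14))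
    (@En.n l2039 (nat_lit 4930) (nat_lit 2) (nat_lit 6))
    (@En.n l17 (nat_lit 6508) (nat_lit 15) (nat_lit 2))))
  (@Cl.mk (nat_lit 0x20006000900090007000d000a0008000300070007000a00060009000e0008) (nat_lit 0x67095100010456) (nat_lit 16) Lb.e (@T16.mk En
    (@En.n l4172 (nat_lit 6514) (nat_lit 9) (nat_lit 8))
    (@En.n l6148 (nat_lit 1721) (nat_lit 1) (nat_lit 14))
    (@En.n l5592 (nat_lit 1282) (nat_lit 2) (nat_lit 9))
    (@En.n l1643 (nat_lit 6926) (nat_lit 3) (nat_lit 6))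
    (@En.n l3 (nat_lit 6508) (nat_lit 4) (nat_lit 10))
    (@En.n l527 (nat_lit 6508) (nat_lit 5) (nat_lit 7))
    (@En.i (nat_lit 11272) (nat_lit 6) (nat_lit 7))
    (@En.n l12099 (nat_lit 6511) (nat_lit 7) (nat_lit 3))
    (@En.i (nat_lit 6052) (nat_lit 0) (nat_lit 8))
    (@En.n l3039 (nat_lit 6506) (nat_lit 10) (nat_lit 10))
    (@En.n l134 (nat_lit 6902) (nat_lit 11) (nat_lit 13))
    (@En.n l12752 (nat_lit 8473) (nat_lit 12) (nat_lit 7))
    (@En.n l1647 (nat_lit 6512) (nat_lit 13) (nat_lit 9))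
    (@En.n l11173 (nat_lit 6501) (nat_lit 9) (nat_lit 9))
    (@En.n l12753 (nat_lit 1738) (nat_lit 6) (nat_lit 6))
    (@En.n l17 (nat_lit 6509) (nat_lit 15) (nat_lit 2))))
  (@Cl.mk (nat_lit 0x20006000e000900020008000d0008000c00030007000a00040008000e0008) (nat_lit 0x17059130040346) (nat_lit 16) Lb.e (@T16.mk En
    (@En.i (nat_lit 6518) (nat_lit 4) (nat_lit 8))
    (@En.i (nat_lit 1747) (nat_lit 6) (nat_lit 14))
    (@En.n l26452 (nat_lit 1269) (nat_lit 2) (nat_lit 8))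
    (@En.n l28506 (nat_lit 9922) (nat_lit 7) (nat_lit 4))
    (@En.i (nat_lit 13598) (nat_lit 8) (nat_lit 10))
    (@En.n l5032 (nat_lit 11239) (nat_lit 5) (nat_lit 7))
    (@En.n l28507 (nat_lit 6508) (nat_lit 6) (nat_lit 3))
    (@En.n l28508 (nat_lit 6058) (nat_lit 0) (nat_lit 12))
    (@En.n l17489 (nat_lit 4657) (nat_lit 13) (nat_lit 8))
    (@En.n l5252 (nat_lit 6900) (nat_lit 10) (nat_lit 13))
    (@En.n l253 (nat_lit 8438) (nat_lit 11) (nat_lit 8))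
    (@En.n l17 (nat_lit 6510) (nat_lit 11) (nat_lit 2))
    (@En.n l28509 (nat_lit 6511) (nat_lit 13) (nat_lit 9))
    (@En.n l28510 (nat_lit 6500) (nat_lit 1) (nat_lit 14))
    (@En.n l11929 (nat_lit 5358) (nat_lit 2) (nat_lit 6))
    (@En.n l3 (nat_lit 6510) (nat_lit 15) (nat_lit 2))))
  (@Cl.mk (nat_lit 0x20006000900090007000d0007000b000300070007000a00050009000e0009) (nat_lit 0x67080300050457) (nat_lit 16) Lb.e (@T16.mk En
    (@En.n l25641 (nat_lit 6515) (nat_lit 9) (nat_lit 9))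
    (@En.n l25642 (nat_lit 1722) (nat_lit 1) (nat_lit 14))
    (@En.n l19522 (nat_lit 1352) (nat_lit 2) (nat_lit 9))
    (@En.n l25643 (nat_lit 9835) (nat_lit 3) (nat_lit 5))
    (@En.n l22258 (nat_lit 6510) (nat_lit 4) (nat_lit 10))
    (@En.n l25644 (nat_lit 6510) (nat_lit 5) (nat_lit 7))
    (@En.n l25645 (nat_lit 11240) (nat_lit 6) (nat_lit 7))
    (@En.n l9213 (nat_lit 6509) (nat_lit 7) (nat_lit 3))
    (@En.n l3809 (nat_lit 5844) (nat_lit 0) (nat_lit 11))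
    (@En.n l25646 (nat_lit 4654) (nat_lit 10) (nat_lit 7))
    (@En.n l25647 (nat_lit 6899) (nat_lit 11) (nat_lit 13))
    (@En.n l25648 (nat_lit 8440) (nat_lit 12) (nat_lit 7))
    (@En.n l19527 (nat_lit 6513) (nat_lit 13) (nat_lit 9))
    (@En.n l25649 (nat_lit 6502) (nat_lit 9) (nat_lit 9))
    (@En.n l25650 (nat_lit 1742) (nat_lit 6) (nat_lit 6))
    (@En.n l3 (nat_lit 6511) (nat_lit 15) (nat_lit 2))))
noncomputable def a407 : T16 Cl := @T16.mk Cl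
  (@Cl.mk (nat_lit 0x2000600090006000d000900070003000e00070002000a0007000a000e0009) (nat_lit 0x60730070020597) (nat_lit 16) Lb.e (@T16.mk En
    (@En.n l4872 (nat_lit 5287) (nat_lit 11) (nat_lit 9))
    (@En.n l4873 (nat_lit 1720) (nat_lit 12) (nat_lit 14))
    (@En.n l4874 (nat_lit 1384) (nat_lit 2) (nat_lit 10))
    (@En.n l4875 (nat_lit 6928) (nat_lit 14) (nat_lit 7))
    (@En.n l4876 (nat_lit 6509) (nat_lit 4) (nat_lit 10))
    (@En.n l18 (nat_lit 6512) (nat_lit 5) (nat_lit 2))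
    (@En.n l4877 (nat_lit 6509) (nat_lit 6) (nat_lit 7))
    (@En.n l4878 (nat_lit 11506) (nat_lit 8) (nat_lit 14))
    (@En.n l4879 (nat_lit 6513) (nat_lit 8) (nat_lit 3))
    (@En.n l4880 (nat_lit 6056) (nat_lit 3) (nat_lit 7))
    (@En.n l4881 (nat_lit 5286) (nat_lit 11) (nat_lit 9))
    (@En.n l4882 (nat_lit 6904) (nat_lit 12) (nat_lit 13))
    (@En.n l4883 (nat_lit 9256) (nat_lit 13) (nat_lit 6))
    (@En.n l4878 (nat_lit 7390) (nat_lit 9) (nat_lit 9))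
    (@En.i (nat_lit 5282) (nat_lit 8) (nat_lit 6))
    (@En.n l181 (nat_lit 6512) (nat_lit 15) (nat_lit 2))))
  (@Cl.mk (nat_lit 0x2000600090006000d0006000a0003000e00070002000a0006000a000e000a) (nat_lit 0x60703070060578) (nat_lit 16) Lb.e (@T16.mk En
    (@En.n l9562 (nat_lit 6519) (nat_lit 11) (nat_lit 10))
    (@En.n l11950 (nat_lit 1296) (nat_lit 12) (nat_lit 14))
    (@En.n l8133 (nat_lit 1385) (nat_lit 2) (nat_lit 10))
    (@En.n l8132 (nat_lit 9838) (nat_lit 14) (nat_lit 6))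
    (@En.n l5838 (nat_lit 6511) (nat_lit 4) (nat_lit 10))
    (@En.n l7 (nat_lit 6513) (nat_lit 5) (nat_lit 2))
    (@En.n l8149 (nat_lit 6511) (nat_lit 6) (nat_lit 7))
    (@En.n l11951 (nat_lit 12134) (nat_lit 8) (nat_lit 14))
    (@En.n l3959 (nat_lit 6512) (nat_lit 8) (nat_lit 3))
    (@En.n l8136 (nat_lit 5843) (nat_lit 10) (nat_lit 10))
    (@En.n l11952 (nat_lit 4656) (nat_lit 4) (nat_lit 6))
    (@En.n l8153 (nat_lit 6903) (nat_lit 12) (nat_lit 13))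
    (@En.i (nat_lit 9258) (nat_lit 13) (nat_lit 6))
    (@En.n l8153 (nat_lit 7273) (nat_lit 9) (nat_lit 9))
    (@En.n l8150 (nat_lit 5361) (nat_lit 8) (nat_lit 6))
    (@En.n l3 (nat_lit 6513) (nat_lit 15) (nat_lit 2))))
  (@Cl.mk (nat_lit 0x400080008000b0007000a000800080005000800080006000c000900080008) (nat_lit 0x609045605107412) (nat_lit 16) Lb.e (@T16.mk En
    (@En.n l5653 (nat_lit 6509) (nat_lit 8) (nat_lit 8))
    (@En.n l26519 (nat_lit 1734) (nat_lit 1) (nat_lit 8))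
    (@En.n l26520 (nat_lit 5285) (nat_lit 7) (nat_lit 9))
    (@En.n l26521 (nat_lit 6831) (nat_lit 3) (nat_lit 12))
    (@En.n l26522 (nat_lit 8387) (nat_lit 4) (nat_lit 6))
    (@En.n l26523 (nat_lit 5287) (nat_lit 8) (nat_lit 8))
    (@En.n l26519 (nat_lit 6951) (nat_lit 10) (nat_lit 8))
    (@En.n l26524 (nat_lit 4929) (nat_lit 7) (nat_lit 5))
    (@En.n l26525 (nat_lit 6941) (nat_lit 8) (nat_lit 8))
    (@En.n l26521 (nat_lit 6611) (nat_lit 1) (nat_lit 8))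
    (@En.n l28 (nat_lit 1278) (nat_lit 8) (nat_lit 10))
    (@En.n l26526 (nat_lit 2023) (nat_lit 12) (nat_lit 7))
    (@En.n l3 (nat_lit 6516) (nat_lit 7) (nat_lit 11))
    (@En.n l527 (nat_lit 6516) (nat_lit 8) (nat_lit 8))
    (@En.n l13965 (nat_lit 11275) (nat_lit 11) (nat_lit 8))
    (@En.n l22063 (nat_lit 1744) (nat_lit 15) (nat_lit 4))))
  (@Cl.mk (nat_lit 0x400080008000b0005000a000900090005000800080006000c00070007000b) (nat_lit 0x6046705007004) (nat_lit 16) Lb.e (@T16.mk En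
    (@En.n l34867 (nat_lit 1737) (nat_lit 8) (nat_lit 11))
    (@En.n l34868 (nat_lit 6511) (nat_lit 9) (nat_lit 7))
    (@En.n l34431 (nat_lit 5260) (nat_lit 6) (nat_lit 7))
    (@En.n l34869 (nat_lit 6840) (nat_lit 3) (nat_lit 12))
    (@En.n l34870 (nat_lit 8389) (nat_lit 4) (nat_lit 6))
    (@En.n l34871 (nat_lit 6519) (nat_lit 8) (nat_lit 8))
    (@En.n l34867 (nat_lit 6953) (nat_lit 10) (nat_lit 8))
    (@En.n l11929 (nat_lit 5353) (nat_lit 7) (nat_lit 5))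
    (@En.n l34872 (nat_lit 6944) (nat_lit 7) (nat_lit 9))
    (@En.n l34873 (nat_lit 6726) (nat_lit 7) (nat_lit 9))
    (@En.n l34874 (nat_lit 1279) (nat_lit 10) (nat_lit 10))
    (@En.n l23322 (nat_lit 9616) (nat_lit 12) (nat_lit 5))
    (@En.n l18 (nat_lit 6518) (nat_lit 7) (nat_lit 11))
    (@En.n l61 (nat_lit 6518) (nat_lit 8) (nat_lit 8))
    (@En.n l29937 (nat_lit 11242) (nat_lit 11) (nat_lit 8))
    (@En.n l12481 (nat_lit 6514) (nat_lit 15) (nat_lit 4))))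
  (@Cl.mk (nat_lit 0x20007000c000a0009000900040008000b00060009000700070005000e0008) (nat_lit 0x86120680300086) (nat_lit 16) Lb.e (@T16.mk En
    (@En.i (nat_lit 6514) (nat_lit 6) (nat_lit 8))
    (@En.n l97 (nat_lit 6521) (nat_lit 1) (nat_lit 14))
    (@En.n l26218 (nat_lit 4928) (nat_lit 2) (nat_lit 5))
    (@En.n l3180 (nat_lit 6942) (nat_lit 9) (nat_lit 7))
    (@En.n l40336 (nat_lit 6610) (nat_lit 4) (nat_lit 7))
    (@En.n l28 (nat_lit 1277) (nat_lit 5) (nat_lit 9))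
    (@En.n l1643 (nat_lit 2018) (nat_lit 6) (nat_lit 6))
    (@En.i (nat_lit 12868) (nat_lit 7) (nat_lit 11))
    (@En.n l13965 (nat_lit 11206) (nat_lit 9) (nat_lit 8))
    (@En.n l22063 (nat_lit 5387) (nat_lit 9) (nat_lit 4))
    (@En.n l5653 (nat_lit 6508) (nat_lit 7) (nat_lit 9))
    (@En.n l601 (nat_lit 1735) (nat_lit 12) (nat_lit 9))
    (@En.n l13974 (nat_lit 6517) (nat_lit 13) (nat_lit 10))
    (@En.n l14375 (nat_lit 6836) (nat_lit 14) (nat_lit 12))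
    (@En.n l13965 (nat_lit 8397) (nat_lit 4) (nat_lit 7))
    (@En.n l107 (nat_lit 6516) (nat_lit 15) (nat_lit 2))))
  (@Cl.mk (nat_lit 0x20007000a00080008000c0007000a000600040009000800080006000e0009) (nat_lit 0x51140700465051) (nat_lit 16) Lb.e (@T16.mk En
    (@En.n l23155 (nat_lit 5285) (nat_lit 10) (nat_lit 9))
    (@En.n l36752 (nat_lit 6522) (nat_lit 1) (nat_lit 14))
    (@En.n l3339 (nat_lit 4934) (nat_lit 2) (nat_lit 6))
    (@En.n l36753 (nat_lit 6940) (nat_lit 3) (nat_lit 8))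
    (@En.n l23163 (nat_lit 6824) (nat_lit 4) (nat_lit 8))
    (@En.n l36754 (nat_lit 6516) (nat_lit 5) (nat_lit 9))
    (@En.n l23157 (nat_lit 6518) (nat_lit 6) (nat_lit 4))
    (@En.n l36755 (nat_lit 2013) (nat_lit 7) (nat_lit 6))
    (@En.n l5575 (nat_lit 12867) (nat_lit 8) (nat_lit 10))
    (@En.n l23167 (nat_lit 11278) (nat_lit 10) (nat_lit 7))
    (@En.n l36756 (nat_lit 6553) (nat_lit 11) (nat_lit 12))
    (@En.n l5588 (nat_lit 6507) (nat_lit 8) (nat_lit 8))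
    (@En.i (nat_lit 5264) (nat_lit 13) (nat_lit 8))
    (@En.n l13781 (nat_lit 4959) (nat_lit 8) (nat_lit 10))
    (@En.n l36756 (nat_lit 8401) (nat_lit 7) (nat_lit 7))
    (@En.n l7 (nat_lit 6517) (nat_lit 15) (nat_lit 2))))
  (@Cl.mk (nat_lit 0x20007000c00080008000c00040008000b00040009000800080005000e0008) (nat_lit 0x822406503560b6) (nat_lit 16) Lb.e (@T16.mk En
    (@En.i (nat_lit 6515) (nat_lit 6) (nat_lit 8))
    (@En.n l28005 (nat_lit 6520) (nat_lit 1) (nat_lit 14))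
    (@En.n l11929 (nat_lit 5355) (nat_lit 2) (nat_lit 5))
    (@En.n l516 (nat_lit 6943) (nat_lit 3) (nat_lit 8))
    (@En.n l28006 (nat_lit 6722) (nat_lit 4) (nat_lit 8))
    (@En.n l28007 (nat_lit 1280) (nat_lit 5) (nat_lit 9))
    (@En.n l23322 (nat_lit 9906) (nat_lit 6) (nat_lit 4))
    (@En.i (nat_lit 12869) (nat_lit 7) (nat_lit 11))
    (@En.n l23323 (nat_lit 11241) (nat_lit 9) (nat_lit 8))
    (@En.n l12481 (nat_lit 6516) (nat_lit 9) (nat_lit 4))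
    (@En.n l11934 (nat_lit 4931) (nat_lit 11) (nat_lit 12))
    (@En.n l152 (nat_lit 6510) (nat_lit 8) (nat_lit 8))
    (@En.n l28008 (nat_lit 5261) (nat_lit 13) (nat_lit 8))
    (@En.n l5252 (nat_lit 6898) (nat_lit 14) (nat_lit 12))
    (@En.n l28009 (nat_lit 8405) (nat_lit 4) (nat_lit 7))
    (@En.n l17 (nat_lit 6518) (nat_lit 15) (nat_lit 2))))
  (@Cl.mk (nat_lit 0x2000b0006000b000a000a000500080005000c00060006000a0004000e0008) (nat_lit 0x7057806060040a1) (nat_lit 16) Lb.e (@T16.mk En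
    (@En.n l25625 (nat_lit 6515) (nat_lit 14) (nat_lit 8))
    (@En.i (nat_lit 11001) (nat_lit 1) (nat_lit 14))
    (@En.n l61 (nat_lit 5287) (nat_lit 2) (nat_lit 4))
    (@En.n l25626 (nat_lit 5416) (nat_lit 3) (nat_lit 10))
    (@En.n l19903 (nat_lit 6513) (nat_lit 10) (nat_lit 6))
    (@En.i (nat_lit 5274) (nat_lit 5) (nat_lit 6))
    (@En.n l5583 (nat_lit 6841) (nat_lit 7) (nat_lit 12))
    (@En.n l19907 (nat_lit 9254) (nat_lit 7) (nat_lit 5))
    (@En.i (nat_lit 7272) (nat_lit 10) (nat_lit 8))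
    (@En.n l25627 (nat_lit 5354) (nat_lit 9) (nat_lit 5))
    (@En.n l25628 (nat_lit 6945) (nat_lit 6) (nat_lit 10))
    (@En.n l25629 (nat_lit 6728) (nat_lit 12) (nat_lit 10))
    (@En.n l25630 (nat_lit 1383) (nat_lit 13) (nat_lit 11))
    (@En.n l25631 (nat_lit 9617) (nat_lit 14) (nat_lit 6))
    (@En.n l25632 (nat_lit 6515) (nat_lit 12) (nat_lit 11))
    (@En.n l7 (nat_lit 6519) (nat_lit 15) (nat_lit 2))))
  (@Cl.mk (nat_lit 0x200080007000c00080008000c0004000900080004000900080008000e0007) (nat_lit 0x1081160710314a0) (nat_lit 16) Lb.e (@T16.mk En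
    (@En.n l33888 (nat_lit 5161) (nat_lit 7) (nat_lit 7))
    (@En.n l33889 (nat_lit 11051) (nat_lit 1) (nat_lit 14))
    (@En.n l33890 (nat_lit 5742) (nat_lit 2) (nat_lit 8))
    (@En.i (nat_lit 6304) (nat_lit 3) (nat_lit 8))
    (@En.n l33891 (nat_lit 2982) (nat_lit 4) (nat_lit 9))
    (@En.i (nat_lit 8014) (nat_lit 5) (nat_lit 4))
    (@En.n l33892 (nat_lit 6086) (nat_lit 6) (nat_lit 8))
    (@En.n l10862 (nat_lit 11420) (nat_lit 1) (nat_lit 9))
    (@En.n l33893 (nat_lit 6521) (nat_lit 8) (nat_lit 4))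
    (@En.n l33894 (nat_lit 7729) (nat_lit 10) (nat_lit 12))
    (@En.n l33895 (nat_lit 6500) (nat_lit 11) (nat_lit 8))
    (@En.n l33896 (nat_lit 5269) (nat_lit 12) (nat_lit 8))
    (@En.n l33897 (nat_lit 6447) (nat_lit 13) (nat_lit 12))
    (@En.n l33894 (nat_lit 10112) (nat_lit 14) (nat_lit 7))
    (@En.n l33898 (nat_lit 6515) (nat_lit 5) (nat_lit 8))
    (@En.n l11 (nat_lit 6520) (nat_lit 15) (nat_lit 2))))
  (@Cl.mk (nat_lit 0x200080007000c000a000900090004000900080006000900070007000e0007) (nat_lit 0x208421071030070) (nat_lit 16) Lb.e (@T16.mk En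
    (@En.n l40891 (nat_lit 5160) (nat_lit 7) (nat_lit 7))
    (@En.n l9926 (nat_lit 11053) (nat_lit 1) (nat_lit 14))
    (@En.n l3180 (nat_lit 5748) (nat_lit 9) (nat_lit 7))
    (@En.n l18 (nat_lit 5912) (nat_lit 3) (nat_lit 7))
    (@En.n l28 (nat_lit 3132) (nat_lit 4) (nat_lit 9))
    (@En.n l40892 (nat_lit 7944) (nat_lit 5) (nat_lit 6))
    (@En.i (nat_lit 5636) (nat_lit 6) (nat_lit 8))
    (@En.n l40119 (nat_lit 11581) (nat_lit 8) (nat_lit 9))
    (@En.n l5909 (nat_lit 5432) (nat_lit 8) (nat_lit 4))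
    (@En.n l5653 (nat_lit 6498) (nat_lit 10) (nat_lit 9))
    (@En.n l601 (nat_lit 6523) (nat_lit 11) (nat_lit 9))
    (@En.n l5654 (nat_lit 6522) (nat_lit 12) (nat_lit 10))
    (@En.n l14375 (nat_lit 6587) (nat_lit 13) (nat_lit 12))
    (@En.n l40893 (nat_lit 10110) (nat_lit 14) (nat_lit 7))
    (@En.n l107 (nat_lit 6514) (nat_lit 5) (nat_lit 8))
    (@En.n l3 (nat_lit 6521) (nat_lit 15) (nat_lit 2))))
  (@Cl.mk (nat_lit 0x200090007000a00080008000c0008000700060004000900080008000e0008) (nat_lit 0x203117600042441) (nat_lit 16) Lb.e (@T16.mk En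
    (@En.n l39405 (nat_lit 5159) (nat_lit 11) (nat_lit 8))
    (@En.n l7405 (nat_lit 11052) (nat_lit 1) (nat_lit 14))
    (@En.n l39406 (nat_lit 5744) (nat_lit 2) (nat_lit 8))
    (@En.n l39407 (nat_lit 7492) (nat_lit 3) (nat_lit 8))
    (@En.n l26985 (nat_lit 6521) (nat_lit 4) (nat_lit 9))
    (@En.n l39408 (nat_lit 6520) (nat_lit 5) (nat_lit 4))
    (@En.n l1577 (nat_lit 7941) (nat_lit 6) (nat_lit 6))
    (@En.i (nat_lit 6096) (nat_lit 7) (nat_lit 7))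
    (@En.n l39409 (nat_lit 11580) (nat_lit 9) (nat_lit 8))
    (@En.n l2869 (nat_lit 6588) (nat_lit 10) (nat_lit 12))
    (@En.n l61 (nat_lit 6499) (nat_lit 11) (nat_lit 8))
    (@En.n l8515 (nat_lit 5271) (nat_lit 12) (nat_lit 8))
    (@En.i (nat_lit 4899) (nat_lit 8) (nat_lit 10))
    (@En.n l39410 (nat_lit 10114) (nat_lit 14) (nat_lit 7))
    (@En.n l39411 (nat_lit 5285) (nat_lit 9) (nat_lit 9))
    (@En.n l3 (nat_lit 6522) (nat_lit 15) (nat_lit 2))))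
  (@Cl.mk (nat_lit 0x200090008000d00090008000300080007000d0008000700030008000e0008) (nat_lit 0x1471006021005c1) (nat_lit 16) Lb.e (@T16.mk En
    (@En.n l23163 (nat_lit 5441) (nat_lit 6) (nat_lit 8))
    (@En.n l5351 (nat_lit 11385) (nat_lit 1) (nat_lit 14))
    (@En.n l38872 (nat_lit 6520) (nat_lit 2) (nat_lit 8))
    (@En.n l947 (nat_lit 6524) (nat_lit 3) (nat_lit 3))
    (@En.n l1927 (nat_lit 5906) (nat_lit 0) (nat_lit 7))
    (@En.n l5592 (nat_lit 3134) (nat_lit 5) (nat_lit 8))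
    (@En.n l4021 (nat_lit 10985) (nat_lit 7) (nat_lit 13))
    (@En.i (nat_lit 5634) (nat_lit 7) (nat_lit 7))
    (@En.n l38873 (nat_lit 10421) (nat_lit 4) (nat_lit 8))
    (@En.n l1927 (nat_lit 5433) (nat_lit 9) (nat_lit 3))
    (@En.n l38874 (nat_lit 8172) (nat_lit 0) (nat_lit 8))
    (@En.n l33601 (nat_lit 5270) (nat_lit 12) (nat_lit 9))
    (@En.n l18067 (nat_lit 6577) (nat_lit 13) (nat_lit 13))
    (@En.n l38875 (nat_lit 9036) (nat_lit 14) (nat_lit 8))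
    (@En.n l38876 (nat_lit 1734) (nat_lit 4) (nat_lit 9))
    (@En.n l3 (nat_lit 6523) (nat_lit 15) (nat_lit 2))))
  (@Cl.mk (nat_lit 0x200090007000d000a0008000300080007000d0006000900030008000e0008) (nat_lit 0x1096000050206c6) (nat_lit 16) Lb.e (@T16.mk En
    (@En.n l32704 (nat_lit 6526) (nat_lit 6) (nat_lit 8))
    (@En.n l3337 (nat_lit 11387) (nat_lit 1) (nat_lit 14))
    (@En.i (nat_lit 6529) (nat_lit 2) (nat_lit 8))
    (@En.n l7511 (nat_lit 6523) (nat_lit 3) (nat_lit 3))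
    (@En.i (nat_lit 3101) (nat_lit 0) (nat_lit 9))
    (@En.n l7512 (nat_lit 6521) (nat_lit 5) (nat_lit 6))
    (@En.n l6761 (nat_lit 10980) (nat_lit 7) (nat_lit 13))
    (@En.i (nat_lit 5630) (nat_lit 7) (nat_lit 7))
    (@En.n l7489 (nat_lit 11792) (nat_lit 4) (nat_lit 8))
    (@En.n l2869 (nat_lit 5434) (nat_lit 9) (nat_lit 3))
    (@En.n l2544 (nat_lit 8173) (nat_lit 0) (nat_lit 8))
    (@En.n l39437 (nat_lit 6525) (nat_lit 12) (nat_lit 10))
    (@En.n l39438 (nat_lit 6528) (nat_lit 13) (nat_lit 13))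
    (@En.n l7489 (nat_lit 11030) (nat_lit 14) (nat_lit 7))
    (@En.n l40352 (nat_lit 1738) (nat_lit 4) (nat_lit 9))
    (@En.n l11 (nat_lit 6524) (nat_lit 15) (nat_lit 2))))
  (@Cl.mk (nat_lit 0x2000a0007000a0007000b00070006000c00060005000900040009000e0009) (nat_lit 0x2050700400306c7) (nat_lit 16) Lb.e (@T16.mk En
    (@En.i (nat_lit 6527) (nat_lit 13) (nat_lit 9))
    (@En.n l13104 (nat_lit 11602) (nat_lit 1) (nat_lit 14))
    (@En.n l20132 (nat_lit 5749) (nat_lit 2) (nat_lit 9))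
    (@En.n l27323 (nat_lit 5270) (nat_lit 3) (nat_lit 4))
    (@En.n l38090 (nat_lit 6524) (nat_lit 4) (nat_lit 9))
    (@En.n l38091 (nat_lit 5434) (nat_lit 5) (nat_lit 5))
    (@En.n l13781 (nat_lit 6522) (nat_lit 6) (nat_lit 6))
    (@En.n l42147 (nat_lit 11608) (nat_lit 8) (nat_lit 12))
    (@En.i (nat_lit 5627) (nat_lit 8) (nat_lit 6))
    (@En.n l30719 (nat_lit 11790) (nat_lit 10) (nat_lit 7))
    (@En.n l36756 (nat_lit 7993) (nat_lit 11) (nat_lit 11))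
    (@En.n l20805 (nat_lit 7910) (nat_lit 12) (nat_lit 7))
    (@En.n l38092 (nat_lit 7655) (nat_lit 8) (nat_lit 10))
    (@En.n l42148 (nat_lit 11031) (nat_lit 14) (nat_lit 7))
    (@En.n l42149 (nat_lit 5280) (nat_lit 11) (nat_lit 10))
    (@En.n l28 (nat_lit 6525) (nat_lit 15) (nat_lit 2))))
  (@Cl.mk (nat_lit 0x3000800080008000d0007000a000300090008000800080006000d00090007) (nat_lit 0x512b02075020150) (nat_lit 16) Lb.e (@T16.mk En
    (@En.n l30577 (nat_lit 6036) (nat_lit 0) (nat_lit 7))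
    (@En.n l30578 (nat_lit 6527) (nat_lit 9) (nat_lit 9))
    (@En.n l30579 (nat_lit 68) (nat_lit 2) (nat_lit 13))
    (@En.n l15930 (nat_lit 7107) (nat_lit 3) (nat_lit 6))
    (@En.n l61 (nat_lit 7433) (nat_lit 8) (nat_lit 8))
    (@En.n l30580 (nat_lit 6533) (nat_lit 8) (nat_lit 8))
    (@En.n l15922 (nat_lit 11241) (nat_lit 6) (nat_lit 8))
    (@En.n l22633 (nat_lit 6532) (nat_lit 8) (nat_lit 9))
    (@En.n l15931 (nat_lit 5441) (nat_lit 8) (nat_lit 3))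
    (@En.n l30581 (nat_lit 3723) (nat_lit 8) (nat_lit 10))
    (@En.n l15922 (nat_lit 5160) (nat_lit 11) (nat_lit 7))
    (@En.n l30582 (nat_lit 12216) (nat_lit 12) (nat_lit 13))
    (@En.n l30583 (nat_lit 6534) (nat_lit 8) (nat_lit 8))
    (@En.n l30584 (nat_lit 6524) (nat_lit 8) (nat_lit 8))
    (@En.n l30585 (nat_lit 11323) (nat_lit 5) (nat_lit 8))
    (@En.n l16419 (nat_lit 5437) (nat_lit 15) (nat_lit 3))))
  (@Cl.mk (nat_lit 0x4000a000900090009000600090006000a000700070007000c00070006000a) (nat_lit 0x160204080005003) (nat_lit 16) Lb.e (@T16.mk En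
    (@En.n l42312 (nat_lit 6526) (nat_lit 9) (nat_lit 10))
    (@En.n l38091 (nat_lit 5437) (nat_lit 10) (nat_lit 6))
    (@En.n l42313 (nat_lit 5159) (nat_lit 0) (nat_lit 7))
    (@En.n l42314 (nat_lit 11610) (nat_lit 8) (nat_lit 12))
    (@En.n l41342 (nat_lit 6535) (nat_lit 9) (nat_lit 7))
    (@En.n l55 (nat_lit 6525) (nat_lit 9) (nat_lit 7))
    (@En.n l11084 (nat_lit 11324) (nat_lit 6) (nat_lit 7))
    (@En.n l42315 (nat_lit 5607) (nat_lit 9) (nat_lit 10))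
    (@En.n l20805 (nat_lit 6668) (nat_lit 8) (nat_lit 6))
    (@En.n l42316 (nat_lit 5315) (nat_lit 9) (nat_lit 9))
    (@En.n l42317 (nat_lit 7988) (nat_lit 10) (nat_lit 6))
    (@En.n l11086 (nat_lit 7436) (nat_lit 7) (nat_lit 9))
    (@En.n l42318 (nat_lit 7724) (nat_lit 7) (nat_lit 9))
    (@En.n l42319 (nat_lit 11242) (nat_lit 7) (nat_lit 9))
    (@En.n l37640 (nat_lit 76) (nat_lit 3) (nat_lit 10))
    (@En.n l42320 (nat_lit 7440) (nat_lit 15) (nat_lit 4))))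
noncomputable def a408 : T16 Cl := @T16.mk Cl
  (@Cl.mk (nat_lit 0x20009000d000900070003000b00080007000d0007000500030009000e0008) (nat_lit 0x287008606000631) (nat_lit 16) Lb.e (@T16.mk En
    (@En.n l34195 (nat_lit 68) (nat_lit 5) (nat_lit 8))
    (@En.n l15827 (nat_lit 9994) (nat_lit 1) (nat_lit 14))
    (@En.n l2588 (nat_lit 7724) (nat_lit 2) (nat_lit 9))
    (@En.n l8121 (nat_lit 6577) (nat_lit 3) (nat_lit 3))
    (@En.n l4352 (nat_lit 6472) (nat_lit 4) (nat_lit 5))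
    (@En.i (nat_lit 6587) (nat_lit 5) (nat_lit 7))
    (@En.n l4021 (nat_lit 12067) (nat_lit 7) (nat_lit 13))
    (@En.i (nat_lit 7109) (nat_lit 7) (nat_lit 7))
    (@En.n l34196 (nat_lit 12027) (nat_lit 14) (nat_lit 8))
    (@En.n l32933 (nat_lit 6525) (nat_lit 10) (nat_lit 11))
    (@En.n l33801 (nat_lit 6578) (nat_lit 10) (nat_lit 3))
    (@En.n l25672 (nat_lit 8035) (nat_lit 12) (nat_lit 7))
    (@En.n l22942 (nat_lit 7654) (nat_lit 13) (nat_lit 9))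
    (@En.n l34197 (nat_lit 12066) (nat_lit 14) (nat_lit 13))
    (@En.n l34198 (nat_lit 5425) (nat_lit 11) (nat_lit 9))
    (@En.n l3 (nat_lit 6528) (nat_lit 15) (nat_lit 2))))
  (@Cl.mk (nat_lit 0x200080006000c00090008000c00040009000800040007000a0008000e0007) (nat_lit 0x1087060010025c0) (nat_lit 16) Lb.e (@T16.mk En
    (@En.n l29624 (nat_lit 6532) (nat_lit 7) (nat_lit 7))
    (@En.n l5234 (nat_lit 9300) (nat_lit 1) (nat_lit 14))
    (@En.n l23036 (nat_lit 6604) (nat_lit 2) (nat_lit 8))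
    (@En.i (nat_lit 8188) (nat_lit 3) (nat_lit 10))
    (@En.n l2125 (nat_lit 5748) (nat_lit 11) (nat_lit 7))
    (@En.n l29625 (nat_lit 11394) (nat_lit 5) (nat_lit 4))
    (@En.i (nat_lit 5568) (nat_lit 6) (nat_lit 8))
    (@En.n l29158 (nat_lit 10839) (nat_lit 1) (nat_lit 9))
    (@En.n l2116 (nat_lit 7706) (nat_lit 8) (nat_lit 4))
    (@En.i (nat_lit 6530) (nat_lit 10) (nat_lit 12))
    (@En.n l29626 (nat_lit 7729) (nat_lit 11) (nat_lit 8))
    (@En.n l29134 (nat_lit 5749) (nat_lit 12) (nat_lit 9))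
    (@En.n l14798 (nat_lit 7724) (nat_lit 13) (nat_lit 12))
    (@En.n l6103 (nat_lit 11493) (nat_lit 14) (nat_lit 6))
    (@En.n l29627 (nat_lit 4929) (nat_lit 5) (nat_lit 8))
    (@En.n l11 (nat_lit 6529) (nat_lit 15) (nat_lit 2))))
  (@Cl.mk (nat_lit 0x200090006000d0009000c0003000800070004000d0007000a0003000e0008) (nat_lit 0x1087506006030c1) (nat_lit 16) Lb.e (@T16.mk En
    (@En.n l17127 (nat_lit 52) (nat_lit 6) (nat_lit 8))
    (@En.n l2680 (nat_lit 8824) (nat_lit 1) (nat_lit 14))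
    (@En.n l38917 (nat_lit 7729) (nat_lit 2) (nat_lit 3))
    (@En.i (nat_lit 5816) (nat_lit 3) (nat_lit 10))
    (@En.n l476 (nat_lit 6529) (nat_lit 4) (nat_lit 7))
    (@En.i (nat_lit 6524) (nat_lit 6) (nat_lit 13))
    (@En.n l22000 (nat_lit 11395) (nat_lit 6) (nat_lit 4))
    (@En.i (nat_lit 5410) (nat_lit 7) (nat_lit 7))
    (@En.n l3213 (nat_lit 11472) (nat_lit 9) (nat_lit 8))
    (@En.n l2869 (nat_lit 7730) (nat_lit 9) (nat_lit 3))
    (@En.n l2100 (nat_lit 4662) (nat_lit 0) (nat_lit 12))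
    (@En.n l2579 (nat_lit 6531) (nat_lit 12) (nat_lit 9))
    (@En.n l2083 (nat_lit 6533) (nat_lit 13) (nat_lit 13))
    (@En.n l2669 (nat_lit 11491) (nat_lit 14) (nat_lit 6))
    (@En.n l5448 (nat_lit 4926) (nat_lit 12) (nat_lit 9))
    (@En.n l11 (nat_lit 6530) (nat_lit 15) (nat_lit 2))))
  (@Cl.mk (nat_lit 0x2000a00060009000c000a000700060004000c00070006000a0004000e0009) (nat_lit 0x106670005004037) (nat_lit 16) Lb.e (@T16.mk En
    (@En.i (nat_lit 6532) (nat_lit 14) (nat_lit 9))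
    (@En.i (nat_lit 8828) (nat_lit 1) (nat_lit 14))
    (@En.n l8501 (nat_lit 7732) (nat_lit 2) (nat_lit 4))
    (@En.n l16834 (nat_lit 6530) (nat_lit 3) (nat_lit 10))
    (@En.i (nat_lit 7730) (nat_lit 4) (nat_lit 6))
    (@En.n l9715 (nat_lit 5749) (nat_lit 5) (nat_lit 7))
    (@En.n l32935 (nat_lit 6525) (nat_lit 7) (nat_lit 12))
    (@En.n l3536 (nat_lit 11396) (nat_lit 7) (nat_lit 4))
    (@En.i (nat_lit 5624) (nat_lit 8) (nat_lit 6))
    (@En.n l32020 (nat_lit 11787) (nat_lit 10) (nat_lit 7))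
    (@En.n l68 (nat_lit 7252) (nat_lit 11) (nat_lit 10))
    (@En.n l3866 (nat_lit 7480) (nat_lit 6) (nat_lit 12))
    (@En.n l6784 (nat_lit 5152) (nat_lit 9) (nat_lit 9))
    (@En.n l16499 (nat_lit 11492) (nat_lit 14) (nat_lit 6))
    (@En.n l18 (nat_lit 4935) (nat_lit 12) (nat_lit 10))
    (@En.n l50 (nat_lit 6531) (nat_lit 15) (nat_lit 2))))
  (@Cl.mk (nat_lit 0x400090009000900050008000b00090007000700070005000c00080007000b) (nat_lit 0x612069600006101) (nat_lit 16) Lb.e (@T16.mk En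
    (@En.n l16834 (nat_lit 52) (nat_lit 0) (nat_lit 11))
    (@En.i (nat_lit 5802) (nat_lit 1) (nat_lit 7))
    (@En.n l41959 (nat_lit 76) (nat_lit 6) (nat_lit 8))
    (@En.n l32935 (nat_lit 6527) (nat_lit 3) (nat_lit 12))
    (@En.n l41960 (nat_lit 11401) (nat_lit 4) (nat_lit 5))
    (@En.n l396 (nat_lit 7543) (nat_lit 9) (nat_lit 7))
    (@En.n l644 (nat_lit 6531) (nat_lit 9) (nat_lit 7))
    (@En.n l32020 (nat_lit 11739) (nat_lit 7) (nat_lit 7))
    (@En.n l41961 (nat_lit 5608) (nat_lit 7) (nat_lit 9))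
    (@En.n l3866 (nat_lit 5856) (nat_lit 7) (nat_lit 11))
    (@En.n l41962 (nat_lit 5156) (nat_lit 10) (nat_lit 8))
    (@En.n l16499 (nat_lit 11398) (nat_lit 15) (nat_lit 5))
    (@En.n l41963 (nat_lit 7542) (nat_lit 7) (nat_lit 9))
    (@En.n l41964 (nat_lit 6529) (nat_lit 7) (nat_lit 9))
    (@En.n l41965 (nat_lit 11736) (nat_lit 2) (nat_lit 9))
    (@En.n l32020 (nat_lit 7735) (nat_lit 15) (nat_lit 4))))
  (@Cl.mk (nat_lit 0x20009000d0008000b0003000a000800070005000d000800060003000e0008) (nat_lit 0x276208600760026) (nat_lit 16) Lb.e (@T16.mk En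
    (@En.n l10143 (nat_lit 6526) (nat_lit 14) (nat_lit 8))
    (@En.n l23027 (nat_lit 7241) (nat_lit 1) (nat_lit 14))
    (@En.n l17263 (nat_lit 7725) (nat_lit 2) (nat_lit 3))
    (@En.n l3348 (nat_lit 7038) (nat_lit 3) (nat_lit 6))
    (@En.n l61 (nat_lit 7724) (nat_lit 4) (nat_lit 8))
    (@En.n l2197 (nat_lit 6528) (nat_lit 6) (nat_lit 13))
    (@En.n l16868 (nat_lit 7983) (nat_lit 6) (nat_lit 5))
    (@En.i (nat_lit 7110) (nat_lit 7) (nat_lit 7))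
    (@En.n l23028 (nat_lit 10199) (nat_lit 14) (nat_lit 8))
    (@En.n l3348 (nat_lit 6531) (nat_lit 10) (nat_lit 10))
    (@En.n l23029 (nat_lit 7149) (nat_lit 10) (nat_lit 3))
    (@En.n l16868 (nat_lit 4660) (nat_lit 7) (nat_lit 11))
    (@En.n l23030 (nat_lit 5153) (nat_lit 13) (nat_lit 8))
    (@En.n l23031 (nat_lit 12219) (nat_lit 14) (nat_lit 13))
    (@En.n l23032 (nat_lit 5421) (nat_lit 12) (nat_lit 9))
    (@En.n l3 (nat_lit 6533) (nat_lit 15) (nat_lit 2))))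
  (@Cl.mk (nat_lit 0x20007000d000a0008000300090008000d00060009000300080007000e0008) (nat_lit 0x56307140205021) (nat_lit 16) Lb.e (@T16.mk En
    (@En.n l33638 (nat_lit 6526) (nat_lit 5) (nat_lit 8))
    (@En.n l998 (nat_lit 5418) (nat_lit 1) (nat_lit 14))
    (@En.n l33639 (nat_lit 11239) (nat_lit 2) (nat_lit 7))
    (@En.n l14161 (nat_lit 7542) (nat_lit 3) (nat_lit 8))
    (@En.n l28 (nat_lit 6385) (nat_lit 4) (nat_lit 3))
    (@En.n l33639 (nat_lit 2074) (nat_lit 0) (nat_lit 9))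
    (@En.n l5246 (nat_lit 6010) (nat_lit 6) (nat_lit 6))
    (@En.i (nat_lit 10261) (nat_lit 8) (nat_lit 13))
    (@En.n l2579 (nat_lit 5629) (nat_lit 8) (nat_lit 8))
    (@En.n l15164 (nat_lit 11325) (nat_lit 10) (nat_lit 9))
    (@En.n l33640 (nat_lit 5440) (nat_lit 10) (nat_lit 3))
    (@En.i (nat_lit 6478) (nat_lit 0) (nat_lit 8))
    (@En.n l11778 (nat_lit 6535) (nat_lit 13) (nat_lit 10))
    (@En.n l4684 (nat_lit 6536) (nat_lit 14) (nat_lit 13))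
    (@En.n l9964 (nat_lit 10592) (nat_lit 3) (nat_lit 7))
    (@En.n l17 (nat_lit 6534) (nat_lit 15) (nat_lit 2))))
  (@Cl.mk (nat_lit 0x20007000a0007000b00080007000c000600050009000400090008000e0009) (nat_lit 0x50560200306611) (nat_lit 16) Lb.e (@T16.mk En
    (@En.n l35472 (nat_lit 6527) (nat_lit 12) (nat_lit 9))
    (@En.n l14088 (nat_lit 5419) (nat_lit 1) (nat_lit 14))
    (@En.n l8841 (nat_lit 11240) (nat_lit 2) (nat_lit 8))
    (@En.n l35473 (nat_lit 7544) (nat_lit 3) (nat_lit 9))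
    (@En.i (nat_lit 7714) (nat_lit 4) (nat_lit 4))
    (@En.n l219 (nat_lit 6534) (nat_lit 5) (nat_lit 9))
    (@En.n l35474 (nat_lit 5440) (nat_lit 6) (nat_lit 5))
    (@En.n l35475 (nat_lit 5859) (nat_lit 7) (nat_lit 6))
    (@En.i (nat_lit 10263) (nat_lit 9) (nat_lit 12))
    (@En.n l35476 (nat_lit 5626) (nat_lit 9) (nat_lit 7))
    (@En.n l134 (nat_lit 11326) (nat_lit 11) (nat_lit 8))
    (@En.i (nat_lit 5300) (nat_lit 12) (nat_lit 11))
    (@En.n l35477 (nat_lit 6194) (nat_lit 13) (nat_lit 7))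
    (@En.n l14088 (nat_lit 7011) (nat_lit 8) (nat_lit 10))
    (@En.n l3082 (nat_lit 10594) (nat_lit 13) (nat_lit 7))
    (@En.n l17 (nat_lit 6535) (nat_lit 15) (nat_lit 2))))
  (@Cl.mk (nat_lit 0x2000d000900070003000b00090008000d00070005000300090007000e0008) (nat_lit 0x450067670005021) (nat_lit 16) Lb.e (@T16.mk En
    (@En.i (nat_lit 68) (nat_lit 4) (nat_lit 8))
    (@En.n l180 (nat_lit 5424) (nat_lit 1) (nat_lit 14))
    (@En.n l30913 (nat_lit 11421) (nat_lit 2) (nat_lit 7))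
    (@En.n l6080 (nat_lit 7436) (nat_lit 3) (nat_lit 9))
    (@En.n l6368 (nat_lit 6537) (nat_lit 4) (nat_lit 3))
    (@En.n l18 (nat_lit 5741) (nat_lit 0) (nat_lit 5))
    (@En.n l1347 (nat_lit 6437) (nat_lit 6) (nat_lit 7))
    (@En.n l30913 (nat_lit 7541) (nat_lit 8) (nat_lit 13))
    (@En.n l3 (nat_lit 3929) (nat_lit 8) (nat_lit 8))
    (@En.n l61 (nat_lit 11586) (nat_lit 10) (nat_lit 9))
    (@En.n l21659 (nat_lit 6535) (nat_lit 11) (nat_lit 11))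
    (@En.n l7 (nat_lit 6538) (nat_lit 11) (nat_lit 3))
    (@En.n l10064 (nat_lit 6467) (nat_lit 0) (nat_lit 7))
    (@En.i (nat_lit 6543) (nat_lit 14) (nat_lit 9))
    (@En.n l4019 (nat_lit 10845) (nat_lit 2) (nat_lit 13))
    (@En.n l11 (nat_lit 6536) (nat_lit 15) (nat_lit 2))))
  (@Cl.mk (nat_lit 0x2000d000800070003000c00090008000d00040008000300090007000e0008) (nat_lit 0x850080170504031) (nat_lit 16) Lb.e (@T16.mk En
    (@En.n l35528 (nat_lit 6449) (nat_lit 12) (nat_lit 8))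
    (@En.n l35529 (nat_lit 6638) (nat_lit 1) (nat_lit 14))
    (@En.n l35530 (nat_lit 11423) (nat_lit 2) (nat_lit 7))
    (@En.n l25677 (nat_lit 6441) (nat_lit 3) (nat_lit 9))
    (@En.n l1393 (nat_lit 6536) (nat_lit 4) (nat_lit 3))
    (@En.n l13306 (nat_lit 6384) (nat_lit 0) (nat_lit 8))
    (@En.n l15990 (nat_lit 6546) (nat_lit 6) (nat_lit 4))
    (@En.n l16006 (nat_lit 10224) (nat_lit 8) (nat_lit 13))
    (@En.n l35531 (nat_lit 3922) (nat_lit 8) (nat_lit 8))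
    (@En.n l4961 (nat_lit 11587) (nat_lit 10) (nat_lit 9))
    (@En.n l19778 (nat_lit 7711) (nat_lit 11) (nat_lit 12))
    (@En.n l13304 (nat_lit 6539) (nat_lit 11) (nat_lit 3))
    (@En.n l35532 (nat_lit 6466) (nat_lit 0) (nat_lit 7))
    (@En.n l2225 (nat_lit 6541) (nat_lit 14) (nat_lit 8))
    (@En.n l21298 (nat_lit 11785) (nat_lit 2) (nat_lit 13))
    (@En.n l17 (nat_lit 6537) (nat_lit 15) (nat_lit 2))))
  (@Cl.mk (nat_lit 0x2000d0006000a0003000b00090008000d000600050003000a0007000e0008) (nat_lit 0x502055170004081) (nat_lit 16) Lb.e (@T16.mk En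
    (@En.i (nat_lit 6449) (nat_lit 4) (nat_lit 8))
    (@En.n l180 (nat_lit 5426) (nat_lit 1) (nat_lit 14))
    (@En.i (nat_lit 11422) (nat_lit 2) (nat_lit 7))
    (@En.n l6080 (nat_lit 7438) (nat_lit 3) (nat_lit 10))
    (@En.n l5331 (nat_lit 6539) (nat_lit 4) (nat_lit 3))
    (@En.n l18 (nat_lit 8046) (nat_lit 0) (nat_lit 5))
    (@En.n l6081 (nat_lit 6540) (nat_lit 6) (nat_lit 6))
    (@En.n l2576 (nat_lit 7540) (nat_lit 8) (nat_lit 13))
    (@En.n l3 (nat_lit 3927) (nat_lit 8) (nat_lit 8))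
    (@En.n l9609 (nat_lit 11316) (nat_lit 10) (nat_lit 9))
    (@En.i (nat_lit 6446) (nat_lit 11) (nat_lit 11))
    (@En.i (nat_lit 6536) (nat_lit 11) (nat_lit 3))
    (@En.n l2869 (nat_lit 6562) (nat_lit 0) (nat_lit 10))
    (@En.i (nat_lit 5289) (nat_lit 14) (nat_lit 6))
    (@En.i (nat_lit 10843) (nat_lit 2) (nat_lit 13))
    (@En.n l11 (nat_lit 6538) (nat_lit 15) (nat_lit 2))))
  (@Cl.mk (nat_lit 0x2000d000600090003000c00090008000d000400070003000a0007000e0008) (nat_lit 0x702085670004081) (nat_lit 16) Lb.e (@T16.mk En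
    (@En.i (nat_lit 57) (nat_lit 4) (nat_lit 8))
    (@En.n l39543 (nat_lit 6641) (nat_lit 1) (nat_lit 14))
    (@En.n l2068 (nat_lit 11424) (nat_lit 2) (nat_lit 7))
    (@En.n l2037 (nat_lit 6540) (nat_lit 3) (nat_lit 10))
    (@En.n l2221 (nat_lit 6538) (nat_lit 4) (nat_lit 3))
    (@En.n l1643 (nat_lit 5067) (nat_lit 0) (nat_lit 7))
    (@En.n l3596 (nat_lit 6544) (nat_lit 6) (nat_lit 4))
    (@En.n l3213 (nat_lit 8927) (nat_lit 8) (nat_lit 13))
    (@En.n l2650 (nat_lit 3920) (nat_lit 8) (nat_lit 8))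
    (@En.n l5891 (nat_lit 10957) (nat_lit 10) (nat_lit 9))
    (@En.i (nat_lit 6541) (nat_lit 11) (nat_lit 12))
    (@En.n l9807 (nat_lit 6537) (nat_lit 11) (nat_lit 3))
    (@En.n l5050 (nat_lit 5014) (nat_lit 9) (nat_lit 9))
    (@En.n l1353 (nat_lit 5290) (nat_lit 14) (nat_lit 6))
    (@En.n l9025 (nat_lit 10844) (nat_lit 2) (nat_lit 13))
    (@En.n l50 (nat_lit 6539) (nat_lit 15) (nat_lit 2))))
  (@Cl.mk (nat_lit 0x2000c0006000a00090004000c000a0009000600040007000a0006000e0007) (nat_lit 0x603305610003070) (nat_lit 16) Lb.e (@T16.mk En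
    (@En.i (nat_lit 5173) (nat_lit 5) (nat_lit 7))
    (@En.n l134 (nat_lit 6560) (nat_lit 1) (nat_lit 14))
    (@En.i (nat_lit 11448) (nat_lit 2) (nat_lit 6))
    (@En.n l3530 (nat_lit 7443) (nat_lit 8) (nat_lit 10))
    (@En.i (nat_lit 5066) (nat_lit 4) (nat_lit 7))
    (@En.n l4659 (nat_lit 6547) (nat_lit 5) (nat_lit 4))
    (@En.n l39160 (nat_lit 11156) (nat_lit 6) (nat_lit 6))
    (@En.n l2824 (nat_lit 3928) (nat_lit 7) (nat_lit 9))
    (@En.n l20241 (nat_lit 11317) (nat_lit 9) (nat_lit 10))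
    (@En.n l13941 (nat_lit 6542) (nat_lit 10) (nat_lit 12))
    (@En.n l21855 (nat_lit 6441) (nat_lit 10) (nat_lit 4))
    (@En.n l637 (nat_lit 6539) (nat_lit 12) (nat_lit 9))
    (@En.n l12290 (nat_lit 7435) (nat_lit 13) (nat_lit 10))
    (@En.i (nat_lit 5291) (nat_lit 14) (nat_lit 6))
    (@En.i (nat_lit 11943) (nat_lit 3) (nat_lit 12))
    (@En.n l7 (nat_lit 6540) (nat_lit 15) (nat_lit 2))))
  (@Cl.mk (nat_lit 0x2000800060009000c00080007000c0004000800070004000a0008000e0009) (nat_lit 0x402740603005691) (nat_lit 16) Lb.e (@T16.mk En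
    (@En.n l21092 (nat_lit 5173) (nat_lit 12) (nat_lit 9))
    (@En.n l601 (nat_lit 6645) (nat_lit 1) (nat_lit 14))
    (@En.n l8568 (nat_lit 11425) (nat_lit 2) (nat_lit 8))
    (@En.n l13351 (nat_lit 6542) (nat_lit 3) (nat_lit 10))
    (@En.n l2221 (nat_lit 6446) (nat_lit 4) (nat_lit 4))
    (@En.n l725 (nat_lit 6539) (nat_lit 5) (nat_lit 7))
    (@En.n l3340 (nat_lit 5439) (nat_lit 6) (nat_lit 8))
    (@En.n l3596 (nat_lit 6545) (nat_lit 7) (nat_lit 4))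
    (@En.n l25316 (nat_lit 8922) (nat_lit 9) (nat_lit 12))
    (@En.n l2650 (nat_lit 3917) (nat_lit 9) (nat_lit 7))
    (@En.n l3333 (nat_lit 11082) (nat_lit 11) (nat_lit 8))
    (@En.n l2645 (nat_lit 7712) (nat_lit 6) (nat_lit 12))
    (@En.n l3340 (nat_lit 5010) (nat_lit 13) (nat_lit 9))
    (@En.n l2645 (nat_lit 5292) (nat_lit 14) (nat_lit 6))
    (@En.i (nat_lit 9940) (nat_lit 6) (nat_lit 8))
    (@En.n l50 (nat_lit 6541) (nat_lit 15) (nat_lit 2))))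
  (@Cl.mk (nat_lit 0x200070006000b0009000c000900080005000400090007000a0007000e0008) (nat_lit 0x5345600204051) (nat_lit 16) Lb.e (@T16.mk En
    (@En.n l11051 (nat_lit 59) (nat_lit 2) (nat_lit 8))
    (@En.n l601 (nat_lit 6557) (nat_lit 1) (nat_lit 14))
    (@En.n l10328 (nat_lit 11449) (nat_lit 2) (nat_lit 7))
    (@En.i (nat_lit 5306) (nat_lit 3) (nat_lit 10))
    (@En.n l6277 (nat_lit 6540) (nat_lit 4) (nat_lit 7))
    (@En.n l287 (nat_lit 5438) (nat_lit 5) (nat_lit 9))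
    (@En.n l11 (nat_lit 6548) (nat_lit 6) (nat_lit 4))
    (@En.n l23717 (nat_lit 8001) (nat_lit 7) (nat_lit 5))
    (@En.n l10332 (nat_lit 5512) (nat_lit 8) (nat_lit 8))
    (@En.n l55 (nat_lit 11081) (nat_lit 10) (nat_lit 9))
    (@En.n l23717 (nat_lit 5707) (nat_lit 11) (nat_lit 12))
    (@En.n l10331 (nat_lit 6541) (nat_lit 12) (nat_lit 9))
    (@En.n l7231 (nat_lit 7188) (nat_lit 13) (nat_lit 11))
    (@En.n l23717 (nat_lit 5293) (nat_lit 14) (nat_lit 6))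
    (@En.n l11054 (nat_lit 9949) (nat_lit 13) (nat_lit 7))
    (@En.n l50 (nat_lit 6542) (nat_lit 15) (nat_lit 2))))
  (@Cl.mk (nat_lit 0x200090006000a000a00080007000c0007000600060004000a0008000e0009) (nat_lit 0x401540500005091) (nat_lit 16) Lb.e (@T16.mk En
    (@En.n l30795 (nat_lit 6438) (nat_lit 12) (nat_lit 9))
    (@En.n l30796 (nat_lit 6837) (nat_lit 1) (nat_lit 14))
    (@En.n l23119 (nat_lit 11426) (nat_lit 2) (nat_lit 8))
    (@En.n l6080 (nat_lit 6952) (nat_lit 3) (nat_lit 10))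
    (@En.n l1778 (nat_lit 6541) (nat_lit 4) (nat_lit 4))
    (@En.n l2172 (nat_lit 6908) (nat_lit 5) (nat_lit 6))
    (@En.i (nat_lit 6538) (nat_lit 6) (nat_lit 6))
    (@En.n l30797 (nat_lit 3167) (nat_lit 7) (nat_lit 7))
    (@En.n l2576 (nat_lit 8918) (nat_lit 9) (nat_lit 12))
    (@En.n l3 (nat_lit 7015) (nat_lit 9) (nat_lit 7))
    (@En.n l742 (nat_lit 11584) (nat_lit 11) (nat_lit 8))
    (@En.n l30798 (nat_lit 7011) (nat_lit 6) (nat_lit 10))
    (@En.n l30796 (nat_lit 4442) (nat_lit 13) (nat_lit 10))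
    (@En.n l1347 (nat_lit 5296) (nat_lit 14) (nat_lit 6))
    (@En.i (nat_lit 9641) (nat_lit 0) (nat_lit 9))
    (@En.n l11 (nat_lit 6543) (nat_lit 15) (nat_lit 2))))
noncomputable def a409 : T16 Cl := @T16.mk Cl
  (@Cl.mk (nat_lit 0x2000d000600090003000c000b000a0009000400070005000a0006000e0007) (nat_lit 0x402056810005080) (nat_lit 16) Lb.e (@T16.mk En
    (@En.i (nat_lit 5172) (nat_lit 4) (nat_lit 7))
    (@En.n l134 (nat_lit 6634) (nat_lit 1) (nat_lit 14))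
    (@En.i (nat_lit 10873) (nat_lit 2) (nat_lit 6))
    (@En.n l899 (nat_lit 6547) (nat_lit 3) (nat_lit 10))
    (@En.i (nat_lit 8019) (nat_lit 4) (nat_lit 5))
    (@En.i (nat_lit 5878) (nat_lit 5) (nat_lit 7))
    (@En.n l7630 (nat_lit 11618) (nat_lit 6) (nat_lit 4))
    (@En.n l55 (nat_lit 3926) (nat_lit 7) (nat_lit 9))
    (@En.n l619 (nat_lit 12219) (nat_lit 9) (nat_lit 10))
    (@En.n l3866 (nat_lit 6538) (nat_lit 10) (nat_lit 11))
    (@En.i (nat_lit 6545) (nat_lit 11) (nat_lit 12))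
    (@En.i (nat_lit 6546) (nat_lit 11) (nat_lit 3))
    (@En.i (nat_lit 1912) (nat_lit 9) (nat_lit 9))
    (@En.i (nat_lit 7544) (nat_lit 14) (nat_lit 6))
    (@En.i (nat_lit 11772) (nat_lit 2) (nat_lit 13))
    (@En.n l7 (nat_lit 6544) (nat_lit 15) (nat_lit 2))))
  (@Cl.mk (nat_lit 0x2000800060009000c000a000900080004000800070006000a0007000e0008) (nat_lit 0x401467601004011) (nat_lit 16) Lb.e (@T16.mk En
    (@En.i (nat_lit 3159) (nat_lit 2) (nat_lit 8))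
    (@En.n l134 (nat_lit 2092) (nat_lit 1) (nat_lit 14))
    (@En.i (nat_lit 10872) (nat_lit 2) (nat_lit 7))
    (@En.n l9182 (nat_lit 6548) (nat_lit 3) (nat_lit 10))
    (@En.n l9182 (nat_lit 6549) (nat_lit 4) (nat_lit 6))
    (@En.n l17 (nat_lit 6544) (nat_lit 5) (nat_lit 7))
    (@En.i (nat_lit 3155) (nat_lit 6) (nat_lit 8))
    (@En.n l38740 (nat_lit 11621) (nat_lit 7) (nat_lit 4))
    (@En.n l55 (nat_lit 5518) (nat_lit 8) (nat_lit 8))
    (@En.n l619 (nat_lit 12220) (nat_lit 10) (nat_lit 9))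
    (@En.n l10040 (nat_lit 6543) (nat_lit 11) (nat_lit 10))
    (@En.n l3667 (nat_lit 5853) (nat_lit 6) (nat_lit 12))
    (@En.n l16845 (nat_lit 1911) (nat_lit 9) (nat_lit 9))
    (@En.n l26178 (nat_lit 7543) (nat_lit 14) (nat_lit 6))
    (@En.n l38717 (nat_lit 10512) (nat_lit 6) (nat_lit 8))
    (@En.n l7 (nat_lit 6545) (nat_lit 15) (nat_lit 2))))
  (@Cl.mk (nat_lit 0x2000d000800070003000c000b000a000900040008000500090006000e0007) (nat_lit 0x450057070404040) (nat_lit 16) Lb.e (@T16.mk En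
    (@En.n l18738 (nat_lit 5301) (nat_lit 4) (nat_lit 7))
    (@En.n l134 (nat_lit 6633) (nat_lit 1) (nat_lit 14))
    (@En.i (nat_lit 11427) (nat_lit 2) (nat_lit 6))
    (@En.n l31318 (nat_lit 5601) (nat_lit 3) (nat_lit 9))
    (@En.n l2869 (nat_lit 8020) (nat_lit 4) (nat_lit 5))
    (@En.n l18738 (nat_lit 6393) (nat_lit 5) (nat_lit 8))
    (@En.n l7630 (nat_lit 11619) (nat_lit 6) (nat_lit 4))
    (@En.n l55 (nat_lit 5527) (nat_lit 7) (nat_lit 9))
    (@En.n l3522 (nat_lit 12224) (nat_lit 9) (nat_lit 10))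
    (@En.n l3866 (nat_lit 6536) (nat_lit 10) (nat_lit 11))
    (@En.n l2869 (nat_lit 7715) (nat_lit 11) (nat_lit 12))
    (@En.n l18 (nat_lit 6544) (nat_lit 11) (nat_lit 3))
    (@En.n l9155 (nat_lit 7722) (nat_lit 0) (nat_lit 7))
    (@En.n l61 (nat_lit 6545) (nat_lit 14) (nat_lit 8))
    (@En.i (nat_lit 11771) (nat_lit 2) (nat_lit 13))
    (@En.n l7 (nat_lit 6546) (nat_lit 15) (nat_lit 2))))
  (@Cl.mk (nat_lit 0x2000c0006000c00090004000c0004000b000a00040007000a0005000e0006) (nat_lit 0x507305078004030) (nat_lit 16) Lb.e (@T16.mk En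
    (@En.n l9902 (nat_lit 5170) (nat_lit 7) (nat_lit 6))
    (@En.n l601 (nat_lit 7556) (nat_lit 1) (nat_lit 14))
    (@En.n l2642 (nat_lit 10865) (nat_lit 2) (nat_lit 5))
    (@En.i (nat_lit 7474) (nat_lit 8) (nat_lit 10))
    (@En.n l1081 (nat_lit 5879) (nat_lit 11) (nat_lit 7))
    (@En.i (nat_lit 11620) (nat_lit 5) (nat_lit 4))
    (@En.n l77 (nat_lit 5523) (nat_lit 6) (nat_lit 10))
    (@En.n l3328 (nat_lit 12223) (nat_lit 8) (nat_lit 11))
    (@En.n l117 (nat_lit 8018) (nat_lit 8) (nat_lit 4))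
    (@En.n l617 (nat_lit 6548) (nat_lit 10) (nat_lit 12))
    (@En.n l17 (nat_lit 5601) (nat_lit 10) (nat_lit 4))
    (@En.n l2642 (nat_lit 6544) (nat_lit 12) (nat_lit 9))
    (@En.n l18150 (nat_lit 4470) (nat_lit 13) (nat_lit 12))
    (@En.i (nat_lit 7542) (nat_lit 14) (nat_lit 6))
    (@En.i (nat_lit 11776) (nat_lit 3) (nat_lit 12))
    (@En.n l50 (nat_lit 6547) (nat_lit 15) (nat_lit 2))))
  (@Cl.mk (nat_lit 0x200070006000d0009000c0003000a0009000400090007000a0006000e0007) (nat_lit 0x2240870203080) (nat_lit 16) Lb.e (@T16.mk En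
    (@En.n l9902 (nat_lit 5167) (nat_lit 6) (nat_lit 7))
    (@En.n l601 (nat_lit 6552) (nat_lit 1) (nat_lit 14))
    (@En.n l61 (nat_lit 10863) (nat_lit 2) (nat_lit 6))
    (@En.i (nat_lit 5837) (nat_lit 3) (nat_lit 10))
    (@En.n l61 (nat_lit 6547) (nat_lit 4) (nat_lit 7))
    (@En.n l23287 (nat_lit 3165) (nat_lit 5) (nat_lit 9))
    (@En.n l18005 (nat_lit 11622) (nat_lit 6) (nat_lit 4))
    (@En.n l77 (nat_lit 5515) (nat_lit 7) (nat_lit 9))
    (@En.i (nat_lit 12221) (nat_lit 9) (nat_lit 10))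
    (@En.n l117 (nat_lit 6549) (nat_lit 9) (nat_lit 3))
    (@En.n l18005 (nat_lit 5782) (nat_lit 11) (nat_lit 12))
    (@En.n l16560 (nat_lit 6545) (nat_lit 12) (nat_lit 9))
    (@En.n l10089 (nat_lit 4469) (nat_lit 13) (nat_lit 13))
    (@En.n l18005 (nat_lit 5804) (nat_lit 14) (nat_lit 6))
    (@En.n l18007 (nat_lit 10511) (nat_lit 4) (nat_lit 7))
    (@En.n l50 (nat_lit 6548) (nat_lit 15) (nat_lit 2))))
  (@Cl.mk (nat_lit 0x200070006000d000b000a0003000a0009000500090006000a0006000e0007) (nat_lit 0x6630670103090) (nat_lit 16) Lb.e (@T16.mk En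
    (@En.n l9902 (nat_lit 5168) (nat_lit 6) (nat_lit 7))
    (@En.n l601 (nat_lit 6550) (nat_lit 1) (nat_lit 14))
    (@En.n l9943 (nat_lit 10864) (nat_lit 2) (nat_lit 6))
    (@En.i (nat_lit 5836) (nat_lit 3) (nat_lit 10))
    (@En.n l61 (nat_lit 8018) (nat_lit 4) (nat_lit 6))
    (@En.n l33821 (nat_lit 3166) (nat_lit 5) (nat_lit 9))
    (@En.n l33823 (nat_lit 9569) (nat_lit 6) (nat_lit 5))
    (@En.n l31654 (nat_lit 5516) (nat_lit 7) (nat_lit 9))
    (@En.n l31653 (nat_lit 11574) (nat_lit 9) (nat_lit 10))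
    (@En.n l152 (nat_lit 6548) (nat_lit 9) (nat_lit 3))
    (@En.n l22951 (nat_lit 6908) (nat_lit 11) (nat_lit 10))
    (@En.n l619 (nat_lit 6542) (nat_lit 12) (nat_lit 11))
    (@En.n l38888 (nat_lit 4466) (nat_lit 13) (nat_lit 13))
    (@En.n l31654 (nat_lit 5803) (nat_lit 14) (nat_lit 6))
    (@En.n l2179 (nat_lit 10510) (nat_lit 4) (nat_lit 7))
    (@En.n l50 (nat_lit 6549) (nat_lit 15) (nat_lit 2))))
  (@Cl.mk (nat_lit 0x2000900070006000d000b000a00030007000a000500090006000a000e0006) (nat_lit 0x750001070380) (nat_lit 16) Lb.e (@T16.mk En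
    (@En.n l8898 (nat_lit 6551) (nat_lit 7) (nat_lit 6))
    (@En.n l9943 (nat_lit 8212) (nat_lit 1) (nat_lit 14))
    (@En.i (nat_lit 5847) (nat_lit 2) (nat_lit 10))
    (@En.n l61 (nat_lit 7792) (nat_lit 3) (nat_lit 6))
    (@En.n l13804 (nat_lit 3309) (nat_lit 4) (nat_lit 9))
    (@En.n l27147 (nat_lit 9568) (nat_lit 5) (nat_lit 5))
    (@En.i (nat_lit 5521) (nat_lit 8) (nat_lit 10))
    (@En.n l31653 (nat_lit 6633) (nat_lit 7) (nat_lit 7))
    (@En.n l152 (nat_lit 6552) (nat_lit 8) (nat_lit 3))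
    (@En.n l22951 (nat_lit 6904) (nat_lit 0) (nat_lit 10))
    (@En.n l619 (nat_lit 6557) (nat_lit 11) (nat_lit 11))
    (@En.n l12291 (nat_lit 3191) (nat_lit 12) (nat_lit 13))
    (@En.n l26402 (nat_lit 5416) (nat_lit 13) (nat_lit 6))
    (@En.n l1723 (nat_lit 9525) (nat_lit 14) (nat_lit 7))
    (@En.n l5934 (nat_lit 6551) (nat_lit 5) (nat_lit 9))
    (@En.n l7 (nat_lit 6550) (nat_lit 15) (nat_lit 2))))
  (@Cl.mk (nat_lit 0x30007000a000a0006000a0007000b00060006000900060005000d000a0009) (nat_lit 0x72080300700260) (nat_lit 16) Lb.e (@T16.mk En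
    (@En.n l9970 (nat_lit 6902) (nat_lit 0) (nat_lit 9))
    (@En.n l97 (nat_lit 6555) (nat_lit 14) (nat_lit 10))
    (@En.n l4663 (nat_lit 3131) (nat_lit 2) (nat_lit 13))
    (@En.n l38241 (nat_lit 1737) (nat_lit 3) (nat_lit 5))
    (@En.n l38242 (nat_lit 11262) (nat_lit 4) (nat_lit 6))
    (@En.n l28 (nat_lit 6553) (nat_lit 9) (nat_lit 9))
    (@En.n l77 (nat_lit 6553) (nat_lit 10) (nat_lit 6))
    (@En.n l36165 (nat_lit 10022) (nat_lit 7) (nat_lit 6))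
    (@En.i (nat_lit 5901) (nat_lit 8) (nat_lit 11))
    (@En.n l38243 (nat_lit 5692) (nat_lit 10) (nat_lit 7))
    (@En.n l21428 (nat_lit 3308) (nat_lit 11) (nat_lit 10))
    (@En.i (nat_lit 10650) (nat_lit 12) (nat_lit 6))
    (@En.n l14612 (nat_lit 6550) (nat_lit 6) (nat_lit 10))
    (@En.n l3039 (nat_lit 6549) (nat_lit 8) (nat_lit 10))
    (@En.n l38244 (nat_lit 6632) (nat_lit 12) (nat_lit 7))
    (@En.n l152 (nat_lit 2095) (nat_lit 15) (nat_lit 3))))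
  (@Cl.mk (nat_lit 0x2000900070006000d0009000c00030007000a000400090007000a000e0006) (nat_lit 0x100726008030370) (nat_lit 16) Lb.e (@T16.mk En
    (@En.n l8898 (nat_lit 2095) (nat_lit 7) (nat_lit 6))
    (@En.n l16560 (nat_lit 10010) (nat_lit 1) (nat_lit 14))
    (@En.i (nat_lit 5974) (nat_lit 2) (nat_lit 10))
    (@En.n l61 (nat_lit 7556) (nat_lit 3) (nat_lit 7))
    (@En.n l21151 (nat_lit 3305) (nat_lit 4) (nat_lit 9))
    (@En.i (nat_lit 9633) (nat_lit 5) (nat_lit 4))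
    (@En.i (nat_lit 5520) (nat_lit 8) (nat_lit 10))
    (@En.n l2869 (nat_lit 2583) (nat_lit 7) (nat_lit 7))
    (@En.n l117 (nat_lit 6550) (nat_lit 8) (nat_lit 3))
    (@En.n l21152 (nat_lit 5383) (nat_lit 0) (nat_lit 12))
    (@En.n l16560 (nat_lit 2092) (nat_lit 11) (nat_lit 9))
    (@En.n l7231 (nat_lit 3130) (nat_lit 12) (nat_lit 13))
    (@En.n l12150 (nat_lit 5415) (nat_lit 13) (nat_lit 6))
    (@En.n l1723 (nat_lit 11259) (nat_lit 14) (nat_lit 7))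
    (@En.n l5934 (nat_lit 2095) (nat_lit 5) (nat_lit 9))
    (@En.n l7 (nat_lit 6552) (nat_lit 15) (nat_lit 2))))
  (@Cl.mk (nat_lit 0x20007000b0008000c0006000900050004000d0009000800030007000e000a) (nat_lit 0x163060025000a8) (nat_lit 16) Lb.e (@T16.mk En
    (@En.i (nat_lit 6551) (nat_lit 13) (nat_lit 10))
    (@En.n l134 (nat_lit 6588) (nat_lit 1) (nat_lit 14))
    (@En.n l3517 (nat_lit 6635) (nat_lit 2) (nat_lit 7))
    (@En.n l152 (nat_lit 6554) (nat_lit 3) (nat_lit 3))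
    (@En.n l9970 (nat_lit 6901) (nat_lit 0) (nat_lit 8))
    (@En.n l97 (nat_lit 6558) (nat_lit 5) (nat_lit 9))
    (@En.n l1867 (nat_lit 4362) (nat_lit 7) (nat_lit 13))
    (@En.n l3519 (nat_lit 4931) (nat_lit 7) (nat_lit 4))
    (@En.n l21428 (nat_lit 11265) (nat_lit 8) (nat_lit 5))
    (@En.n l21428 (nat_lit 13828) (nat_lit 9) (nat_lit 9))
    (@En.n l13562 (nat_lit 10563) (nat_lit 6) (nat_lit 6))
    (@En.i (nat_lit 5903) (nat_lit 12) (nat_lit 12))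
    (@En.n l61 (nat_lit 7790) (nat_lit 13) (nat_lit 8))
    (@En.n l21428 (nat_lit 3350) (nat_lit 14) (nat_lit 11))
    (@En.i (nat_lit 9696) (nat_lit 11) (nat_lit 7))
    (@En.n l7 (nat_lit 6553) (nat_lit 15) (nat_lit 2))))
  (@Cl.mk (nat_lit 0x20006000b0009000c0006000900050004000d0007000a00030007000e000a) (nat_lit 0x173070020600a1) (nat_lit 16) Lb.e (@T16.mk En
    (@En.i (nat_lit 2095) (nat_lit 13) (nat_lit 10))
    (@En.n l134 (nat_lit 6586) (nat_lit 1) (nat_lit 14))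
    (@En.n l2869 (nat_lit 1758) (nat_lit 2) (nat_lit 7))
    (@En.n l117 (nat_lit 6553) (nat_lit 3) (nat_lit 3))
    (@En.n l2921 (nat_lit 5384) (nat_lit 0) (nat_lit 10))
    (@En.i (nat_lit 2093) (nat_lit 5) (nat_lit 7))
    (@En.i (nat_lit 3125) (nat_lit 7) (nat_lit 13))
    (@En.n l5331 (nat_lit 4927) (nat_lit 7) (nat_lit 4))
    (@En.n l18 (nat_lit 11264) (nat_lit 8) (nat_lit 5))
    (@En.n l2869 (nat_lit 13794) (nat_lit 9) (nat_lit 9))
    (@En.n l6081 (nat_lit 10028) (nat_lit 11) (nat_lit 6))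
    (@En.i (nat_lit 5975) (nat_lit 12) (nat_lit 12))
    (@En.n l61 (nat_lit 7557) (nat_lit 13) (nat_lit 9))
    (@En.n l6392 (nat_lit 3348) (nat_lit 14) (nat_lit 11))
    (@En.i (nat_lit 10655) (nat_lit 13) (nat_lit 6))
    (@En.n l7 (nat_lit 6554) (nat_lit 15) (nat_lit 2))))
  (@Cl.mk (nat_lit 0x5000a0008000b00060009000900060005000a0008000b00070007000a0006) (nat_lit 0x535067005440000) (nat_lit 16) Lb.e (@T16.mk En
    (@En.n l40342 (nat_lit 9023) (nat_lit 0) (nat_lit 6))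
    (@En.n l28 (nat_lit 6558) (nat_lit 8) (nat_lit 10))
    (@En.n l77 (nat_lit 6558) (nat_lit 9) (nat_lit 7))
    (@En.n l15823 (nat_lit 8838) (nat_lit 2) (nat_lit 7))
    (@En.i (nat_lit 4636) (nat_lit 7) (nat_lit 11))
    (@En.n l40343 (nat_lit 6559) (nat_lit 8) (nat_lit 8))
    (@En.n l4021 (nat_lit 6922) (nat_lit 10) (nat_lit 10))
    (@En.i (nat_lit 2095) (nat_lit 11) (nat_lit 5))
    (@En.n l40344 (nat_lit 9841) (nat_lit 0) (nat_lit 6))
    (@En.n l29467 (nat_lit 6557) (nat_lit 7) (nat_lit 9))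
    (@En.n l23155 (nat_lit 6542) (nat_lit 9) (nat_lit 9))
    (@En.n l5577 (nat_lit 2023) (nat_lit 2) (nat_lit 6))
    (@En.n l40345 (nat_lit 7137) (nat_lit 7) (nat_lit 11))
    (@En.n l40346 (nat_lit 6643) (nat_lit 8) (nat_lit 8))
    (@En.n l15823 (nat_lit 1744) (nat_lit 10) (nat_lit 10))
    (@En.n l40345 (nat_lit 5099) (nat_lit 11) (nat_lit 5))))
  (@Cl.mk (nat_lit 0x40008000b000b00050008000b000500050008000c0005000c00080004000b) (nat_lit 0x682052000407208) (nat_lit 16) Lb.e (@T16.mk En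
    (@En.n l617 (nat_lit 2095) (nat_lit 0) (nat_lit 11))
    (@En.n l3480 (nat_lit 7558) (nat_lit 1) (nat_lit 4))
    (@En.n l29378 (nat_lit 2094) (nat_lit 0) (nat_lit 8))
    (@En.n l29379 (nat_lit 3124) (nat_lit 1) (nat_lit 12))
    (@En.n l6081 (nat_lit 4935) (nat_lit 4) (nat_lit 5))
    (@En.n l29380 (nat_lit 12444) (nat_lit 7) (nat_lit 12))
    (@En.n l28 (nat_lit 7557) (nat_lit 10) (nat_lit 8))
    (@En.n l77 (nat_lit 7557) (nat_lit 11) (nat_lit 5))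
    (@En.n l29378 (nat_lit 10024) (nat_lit 8) (nat_lit 5))
    (@En.i (nat_lit 5980) (nat_lit 7) (nat_lit 11))
    (@En.n l1081 (nat_lit 7505) (nat_lit 10) (nat_lit 8))
    (@En.i (nat_lit 10657) (nat_lit 2) (nat_lit 5))
    (@En.n l14612 (nat_lit 7556) (nat_lit 5) (nat_lit 11))
    (@En.n l3039 (nat_lit 6547) (nat_lit 7) (nat_lit 11))
    (@En.n l29381 (nat_lit 2577) (nat_lit 11) (nat_lit 8))
    (@En.n l248 (nat_lit 5692) (nat_lit 15) (nat_lit 4))))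
  (@Cl.mk (nat_lit 0x2000a00070006000b0009000c000600090005000400090007000a000e0007) (nat_lit 0x100425060040440) (nat_lit 16) Lb.e (@T16.mk En
    (@En.n l24636 (nat_lit 6555) (nat_lit 3) (nat_lit 7))
    (@En.n l10328 (nat_lit 9658) (nat_lit 1) (nat_lit 14))
    (@En.i (nat_lit 4638) (nat_lit 2) (nat_lit 10))
    (@En.n l6277 (nat_lit 6560) (nat_lit 3) (nat_lit 7))
    (@En.n l287 (nat_lit 6924) (nat_lit 4) (nat_lit 9))
    (@En.n l11 (nat_lit 6552) (nat_lit 5) (nat_lit 4))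
    (@En.n l13250 (nat_lit 9852) (nat_lit 6) (nat_lit 5))
    (@En.i (nat_lit 5510) (nat_lit 9) (nat_lit 9))
    (@En.n l7245 (nat_lit 6926) (nat_lit 8) (nat_lit 6))
    (@En.n l26539 (nat_lit 7138) (nat_lit 6) (nat_lit 12))
    (@En.n l10331 (nat_lit 6645) (nat_lit 11) (nat_lit 9))
    (@En.n l13131 (nat_lit 5386) (nat_lit 12) (nat_lit 11))
    (@En.n l26540 (nat_lit 5097) (nat_lit 13) (nat_lit 6))
    (@En.n l1723 (nat_lit 9523) (nat_lit 14) (nat_lit 7))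
    (@En.n l24638 (nat_lit 6555) (nat_lit 1) (nat_lit 10))
    (@En.n l7 (nat_lit 6557) (nat_lit 15) (nat_lit 2))))
  (@Cl.mk (nat_lit 0x200070006000b0009000c0007000a0005000400090007000a0006000e0009) (nat_lit 0x2440800405017) (nat_lit 16) Lb.e (@T16.mk En
    (@En.i (nat_lit 6555) (nat_lit 10) (nat_lit 9))
    (@En.n l134 (nat_lit 5169) (nat_lit 1) (nat_lit 14))
    (@En.n l5577 (nat_lit 6939) (nat_lit 2) (nat_lit 6))
    (@En.n l36608 (nat_lit 7136) (nat_lit 3) (nat_lit 10))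
    (@En.n l36609 (nat_lit 6644) (nat_lit 4) (nat_lit 7))
    (@En.n l15823 (nat_lit 5387) (nat_lit 5) (nat_lit 9))
    (@En.n l36608 (nat_lit 5102) (nat_lit 6) (nat_lit 4))
    (@En.n l18 (nat_lit 9907) (nat_lit 7) (nat_lit 5))
    (@En.n l2869 (nat_lit 13883) (nat_lit 8) (nat_lit 10))
    (@En.n l15823 (nat_lit 8837) (nat_lit 10) (nat_lit 7))
    (@En.i (nat_lit 4637) (nat_lit 11) (nat_lit 12))
    (@En.n l61 (nat_lit 6561) (nat_lit 12) (nat_lit 9))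
    (@En.n l4021 (nat_lit 6921) (nat_lit 13) (nat_lit 11))
    (@En.i (nat_lit 6554) (nat_lit 14) (nat_lit 6))
    (@En.n l117 (nat_lit 9845) (nat_lit 7) (nat_lit 7))
    (@En.n l7 (nat_lit 6558) (nat_lit 15) (nat_lit 2))))
  (@Cl.mk (nat_lit 0x4000b0007000a000a000700050008000b000600060009000c000500090008) (nat_lit 0x607200330006053) (nat_lit 16) Lb.e (@T16.mk En
    (@En.n l16345 (nat_lit 6639) (nat_lit 0) (nat_lit 8))
    (@En.n l6590 (nat_lit 1739) (nat_lit 10) (nat_lit 9))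
    (@En.n l31344 (nat_lit 5101) (nat_lit 8) (nat_lit 5))
    (@En.i (nat_lit 11712) (nat_lit 6) (nat_lit 12))
    (@En.n l31345 (nat_lit 6561) (nat_lit 9) (nat_lit 9))
    (@En.n l31346 (nat_lit 6561) (nat_lit 10) (nat_lit 6))
    (@En.n l6596 (nat_lit 10555) (nat_lit 6) (nat_lit 6))
    (@En.n l31347 (nat_lit 4642) (nat_lit 7) (nat_lit 11))
    (@En.n l5596 (nat_lit 5775) (nat_lit 10) (nat_lit 8))
    (@En.n l31347 (nat_lit 6556) (nat_lit 11) (nat_lit 5))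
    (@En.n l619 (nat_lit 9843) (nat_lit 0) (nat_lit 7))
    (@En.n l21324 (nat_lit 6560) (nat_lit 6) (nat_lit 10))
    (@En.n l6596 (nat_lit 6540) (nat_lit 8) (nat_lit 10))
    (@En.n l29222 (nat_lit 6922) (nat_lit 14) (nat_lit 7))
    (@En.n l31348 (nat_lit 6555) (nat_lit 12) (nat_lit 11))
    (@En.n l31349 (nat_lit 7569) (nat_lit 15) (nat_lit 4))))
noncomputable def a410 : T16 Cl := @T16.mk Cl
  (@Cl.mk (nat_lit 0x20009000c0006000a00090004000c0007000a000600040007000a000e0006) (nat_lit 0x140430601000360) (nat_lit 16) Lb.e (@T16.mk En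
    (@En.n l16339 (nat_lit 6559) (nat_lit 6) (nat_lit 6))
    (@En.i (nat_lit 9657) (nat_lit 1) (nat_lit 14))
    (@En.n l3530 (nat_lit 5277) (nat_lit 8) (nat_lit 10))
    (@En.i (nat_lit 6027) (nat_lit 3) (nat_lit 7))
    (@En.n l4659 (nat_lit 7556) (nat_lit 4) (nat_lit 4))
    (@En.n l9874 (nat_lit 9853) (nat_lit 5) (nat_lit 6))
    (@En.i (nat_lit 5554) (nat_lit 8) (nat_lit 10))
    (@En.n l22925 (nat_lit 6924) (nat_lit 7) (nat_lit 7))
    (@En.n l13941 (nat_lit 6557) (nat_lit 9) (nat_lit 12))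
    (@En.n l21855 (nat_lit 7568) (nat_lit 9) (nat_lit 4))
    (@En.n l1867 (nat_lit 6641) (nat_lit 11) (nat_lit 9))
    (@En.n l12290 (nat_lit 1740) (nat_lit 12) (nat_lit 10))
    (@En.n l26882 (nat_lit 5100) (nat_lit 13) (nat_lit 6))
    (@En.n l2916 (nat_lit 12627) (nat_lit 6) (nat_lit 12))
    (@En.n l21650 (nat_lit 6559) (nat_lit 4) (nat_lit 9))
    (@En.n l28 (nat_lit 6560) (nat_lit 15) (nat_lit 2))))
  (@Cl.mk (nat_lit 0x2000800060009000c00060009000c0004000800070004000a0007000e000a) (nat_lit 0x203307404006078) (nat_lit 16) Lb.e (@T16.mk En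
    (@En.n l38546 (nat_lit 6559) (nat_lit 12) (nat_lit 10))
    (@En.n l134 (nat_lit 6580) (nat_lit 1) (nat_lit 14))
    (@En.n l3339 (nat_lit 6921) (nat_lit 2) (nat_lit 7))
    (@En.n l617 (nat_lit 6558) (nat_lit 3) (nat_lit 10))
    (@En.n l3480 (nat_lit 7573) (nat_lit 4) (nat_lit 4))
    (@En.n l5793 (nat_lit 6642) (nat_lit 5) (nat_lit 7))
    (@En.n l31423 (nat_lit 1741) (nat_lit 6) (nat_lit 8))
    (@En.n l6081 (nat_lit 2892) (nat_lit 7) (nat_lit 4))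
    (@En.n l5798 (nat_lit 12568) (nat_lit 9) (nat_lit 12))
    (@En.i (nat_lit 13894) (nat_lit 9) (nat_lit 9))
    (@En.n l16787 (nat_lit 10554) (nat_lit 11) (nat_lit 6))
    (@En.i (nat_lit 5266) (nat_lit 6) (nat_lit 12))
    (@En.n l38547 (nat_lit 5777) (nat_lit 9) (nat_lit 9))
    (@En.i (nat_lit 7557) (nat_lit 14) (nat_lit 6))
    (@En.n l117 (nat_lit 9844) (nat_lit 6) (nat_lit 8))
    (@En.n l7 (nat_lit 6561) (nat_lit 15) (nat_lit 2))))
  (@Cl.mk (nat_lit 0x2000a00080007000c0006000d0006000400030008000e00090002000e000a) (nat_lit 0x660502000612041) (nat_lit 16) Lb.e (@T16.mk En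
    (@En.n l32262 (nat_lit 4442) (nat_lit 14) (nat_lit 10))
    (@En.n l32263 (nat_lit 11928) (nat_lit 1) (nat_lit 14))
    (@En.n l50 (nat_lit 6562) (nat_lit 2) (nat_lit 2))
    (@En.n l21158 (nat_lit 5911) (nat_lit 3) (nat_lit 9))
    (@En.n l32264 (nat_lit 5007) (nat_lit 5) (nat_lit 14))
    (@En.n l19470 (nat_lit 6458) (nat_lit 5) (nat_lit 8))
    (@En.n l18591 (nat_lit 6563) (nat_lit 6) (nat_lit 3))
    (@En.n l32263 (nat_lit 5014) (nat_lit 0) (nat_lit 4))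
    (@En.n l24985 (nat_lit 1695) (nat_lit 8) (nat_lit 6))
    (@En.i (nat_lit 5810) (nat_lit 10) (nat_lit 13))
    (@En.n l5276 (nat_lit 7435) (nat_lit 7) (nat_lit 6))
    (@En.n l32263 (nat_lit 6860) (nat_lit 12) (nat_lit 12))
    (@En.n l18989 (nat_lit 3053) (nat_lit 13) (nat_lit 7))
    (@En.n l24985 (nat_lit 9099) (nat_lit 14) (nat_lit 8))
    (@En.n l6364 (nat_lit 4441) (nat_lit 12) (nat_lit 10))
    (@En.n l17 (nat_lit 6562) (nat_lit 15) (nat_lit 2))))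
  (@Cl.mk (nat_lit 0x2000900080007000d0006000d0003000700030008000e00090002000e000a) (nat_lit 0x740502000632070) (nat_lit 16) Lb.e (@T16.mk En
    (@En.i (nat_lit 6565) (nat_lit 14) (nat_lit 10))
    (@En.n l10118 (nat_lit 11927) (nat_lit 1) (nat_lit 14))
    (@En.n l18 (nat_lit 6563) (nat_lit 2) (nat_lit 2))
    (@En.n l61 (nat_lit 5910) (nat_lit 3) (nat_lit 9))
    (@En.n l19449 (nat_lit 6697) (nat_lit 5) (nat_lit 14))
    (@En.n l34366 (nat_lit 11358) (nat_lit 5) (nat_lit 8))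
    (@En.n l28549 (nat_lit 6562) (nat_lit 6) (nat_lit 3))
    (@En.n l28550 (nat_lit 1697) (nat_lit 0) (nat_lit 7))
    (@En.i (nat_lit 6564) (nat_lit 8) (nat_lit 3))
    (@En.n l7882 (nat_lit 5811) (nat_lit 0) (nat_lit 13))
    (@En.n l117 (nat_lit 7432) (nat_lit 7) (nat_lit 6))
    (@En.n l7055 (nat_lit 9292) (nat_lit 12) (nat_lit 13))
    (@En.n l2781 (nat_lit 3055) (nat_lit 13) (nat_lit 7))
    (@En.i (nat_lit 9102) (nat_lit 14) (nat_lit 8))
    (@En.n l10118 (nat_lit 6568) (nat_lit 12) (nat_lit 9))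
    (@En.n l3 (nat_lit 6563) (nat_lit 15) (nat_lit 2))))
  (@Cl.mk (nat_lit 0x2000900080007000d000c00070003000700040008000e00090002000e0009) (nat_lit 0x740460000462096) (nat_lit 16) Lb.e (@T16.mk En
    (@En.n l16233 (nat_lit 6566) (nat_lit 14) (nat_lit 9))
    (@En.n l19448 (nat_lit 11931) (nat_lit 1) (nat_lit 14))
    (@En.n l18 (nat_lit 6564) (nat_lit 2) (nat_lit 2))
    (@En.n l61 (nat_lit 5909) (nat_lit 3) (nat_lit 9))
    (@En.n l19449 (nat_lit 6701) (nat_lit 5) (nat_lit 14))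
    (@En.n l19450 (nat_lit 11357) (nat_lit 5) (nat_lit 8))
    (@En.n l19451 (nat_lit 5013) (nat_lit 6) (nat_lit 4))
    (@En.n l19452 (nat_lit 1538) (nat_lit 7) (nat_lit 7))
    (@En.n l11 (nat_lit 6563) (nat_lit 8) (nat_lit 3))
    (@En.n l2354 (nat_lit 7442) (nat_lit 0) (nat_lit 7))
    (@En.n l19453 (nat_lit 6562) (nat_lit 11) (nat_lit 12))
    (@En.n l7055 (nat_lit 9293) (nat_lit 12) (nat_lit 13))
    (@En.n l2781 (nat_lit 3058) (nat_lit 13) (nat_lit 7))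
    (@En.i (nat_lit 9103) (nat_lit 14) (nat_lit 8))
    (@En.n l19454 (nat_lit 6567) (nat_lit 12) (nat_lit 9))
    (@En.n l3 (nat_lit 6564) (nat_lit 15) (nat_lit 2))))
  (@Cl.mk (nat_lit 0x2000a000a000800070006000c00060006000d0004000800030009000e000a) (nat_lit 0x86200a0020206b2) (nat_lit 16) Lb.e (@T16.mk En
    (@En.n l16232 (nat_lit 5915) (nat_lit 13) (nat_lit 10))
    (@En.n l16233 (nat_lit 6691) (nat_lit 1) (nat_lit 14))
    (@En.n l34366 (nat_lit 10115) (nat_lit 2) (nat_lit 9))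
    (@En.n l26182 (nat_lit 4442) (nat_lit 3) (nat_lit 3))
    (@En.i (nat_lit 1692) (nat_lit 0) (nat_lit 8))
    (@En.n l16233 (nat_lit 6566) (nat_lit 5) (nat_lit 4))
    (@En.n l6080 (nat_lit 6572) (nat_lit 7) (nat_lit 13))
    (@En.n l152 (nat_lit 6563) (nat_lit 10) (nat_lit 6))
    (@En.n l3851 (nat_lit 4359) (nat_lit 8) (nat_lit 6))
    (@En.n l7055 (nat_lit 9277) (nat_lit 10) (nat_lit 12))
    (@En.n l6080 (nat_lit 3061) (nat_lit 10) (nat_lit 6))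
    (@En.i (nat_lit 7695) (nat_lit 12) (nat_lit 7))
    (@En.n l9775 (nat_lit 2414) (nat_lit 13) (nat_lit 8))
    (@En.n l3536 (nat_lit 7682) (nat_lit 14) (nat_lit 10))
    (@En.n l26614 (nat_lit 6853) (nat_lit 11) (nat_lit 10))
    (@En.n l18 (nat_lit 6565) (nat_lit 15) (nat_lit 2))))
  (@Cl.mk (nat_lit 0x200090009000800070006000c000b000700070004000800050009000e000a) (nat_lit 0x56200a6000105b2) (nat_lit 16) Lb.e (@T16.mk En
    (@En.n l35141 (nat_lit 5917) (nat_lit 11) (nat_lit 10))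
    (@En.i (nat_lit 6696) (nat_lit 1) (nat_lit 14))
    (@En.n l35142 (nat_lit 11354) (nat_lit 2) (nat_lit 9))
    (@En.n l35143 (nat_lit 5012) (nat_lit 3) (nat_lit 5))
    (@En.n l35144 (nat_lit 1416) (nat_lit 4) (nat_lit 8))
    (@En.n l35145 (nat_lit 6570) (nat_lit 5) (nat_lit 4))
    (@En.n l35146 (nat_lit 6564) (nat_lit 9) (nat_lit 7))
    (@En.n l35147 (nat_lit 6569) (nat_lit 7) (nat_lit 7))
    (@En.i (nat_lit 4442) (nat_lit 9) (nat_lit 11))
    (@En.n l35148 (nat_lit 9295) (nat_lit 10) (nat_lit 12))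
    (@En.n l20615 (nat_lit 7314) (nat_lit 10) (nat_lit 6))
    (@En.n l30271 (nat_lit 9181) (nat_lit 12) (nat_lit 7))
    (@En.n l35149 (nat_lit 4445) (nat_lit 13) (nat_lit 8))
    (@En.n l35150 (nat_lit 7683) (nat_lit 7) (nat_lit 9))
    (@En.n l35151 (nat_lit 10405) (nat_lit 9) (nat_lit 9))
    (@En.n l18 (nat_lit 6566) (nat_lit 15) (nat_lit 2))))
  (@Cl.mk (nat_lit 0x20006000a000900070006000d000b000600030007000a00050009000e000a) (nat_lit 0x1600a6000500a1) (nat_lit 16) Lb.e (@T16.mk En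
    (@En.n l2213 (nat_lit 6299) (nat_lit 10) (nat_lit 10))
    (@En.n l11187 (nat_lit 6728) (nat_lit 1) (nat_lit 14))
    (@En.n l3340 (nat_lit 11927) (nat_lit 2) (nat_lit 9))
    (@En.n l35252 (nat_lit 6566) (nat_lit 3) (nat_lit 5))
    (@En.n l35253 (nat_lit 5805) (nat_lit 4) (nat_lit 10))
    (@En.n l2908 (nat_lit 419) (nat_lit 5) (nat_lit 7))
    (@En.n l35254 (nat_lit 6568) (nat_lit 6) (nat_lit 3))
    (@En.n l35255 (nat_lit 7486) (nat_lit 7) (nat_lit 6))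
    (@En.n l35256 (nat_lit 4441) (nat_lit 9) (nat_lit 11))
    (@En.n l2907 (nat_lit 9297) (nat_lit 10) (nat_lit 13))
    (@En.n l2908 (nat_lit 7229) (nat_lit 10) (nat_lit 6))
    (@En.n l3178 (nat_lit 9989) (nat_lit 12) (nat_lit 7))
    (@En.n l50 (nat_lit 4447) (nat_lit 13) (nat_lit 9))
    (@En.n l217 (nat_lit 4445) (nat_lit 14) (nat_lit 10))
    (@En.n l3340 (nat_lit 6223) (nat_lit 7) (nat_lit 6))
    (@En.n l3 (nat_lit 6567) (nat_lit 15) (nat_lit 2))))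
  (@Cl.mk (nat_lit 0x20006000b000900070006000d0005000c00030007000a00040009000e000a) (nat_lit 0x1600a000050051) (nat_lit 16) Lb.e (@T16.mk En
    (@En.n l20335 (nat_lit 6301) (nat_lit 10) (nat_lit 10))
    (@En.n l30476 (nat_lit 6739) (nat_lit 1) (nat_lit 14))
    (@En.n l638 (nat_lit 11928) (nat_lit 2) (nat_lit 9))
    (@En.n l13196 (nat_lit 6570) (nat_lit 3) (nat_lit 4))
    (@En.n l3866 (nat_lit 6970) (nat_lit 4) (nat_lit 10))
    (@En.n l6784 (nat_lit 1091) (nat_lit 5) (nat_lit 7))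
    (@En.n l30477 (nat_lit 6567) (nat_lit 6) (nat_lit 3))
    (@En.n l2295 (nat_lit 6761) (nat_lit 0) (nat_lit 12))
    (@En.n l1236 (nat_lit 6953) (nat_lit 8) (nat_lit 5))
    (@En.n l21312 (nat_lit 9299) (nat_lit 10) (nat_lit 13))
    (@En.n l3866 (nat_lit 7263) (nat_lit 10) (nat_lit 6))
    (@En.n l17 (nat_lit 9990) (nat_lit 12) (nat_lit 7))
    (@En.n l9715 (nat_lit 6768) (nat_lit 13) (nat_lit 9))
    (@En.n l20120 (nat_lit 2414) (nat_lit 14) (nat_lit 11))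
    (@En.i (nat_lit 6220) (nat_lit 7) (nat_lit 6))
    (@En.n l67 (nat_lit 6568) (nat_lit 15) (nat_lit 2))))
  (@Cl.mk (nat_lit 0x200090006000a000900080007000d0007000600030007000a0008000e0009) (nat_lit 0x507740700007060) (nat_lit 16) Lb.e (@T16.mk En
    (@En.n l31192 (nat_lit 7493) (nat_lit 11) (nat_lit 9))
    (@En.n l1578 (nat_lit 6842) (nat_lit 1) (nat_lit 14))
    (@En.i (nat_lit 10111) (nat_lit 2) (nat_lit 8))
    (@En.n l27330 (nat_lit 6908) (nat_lit 3) (nat_lit 10))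
    (@En.n l20187 (nat_lit 1770) (nat_lit 4) (nat_lit 7))
    (@En.n l13686 (nat_lit 6571) (nat_lit 5) (nat_lit 3))
    (@En.n l18 (nat_lit 7451) (nat_lit 0) (nat_lit 6))
    (@En.n l6081 (nat_lit 4361) (nat_lit 7) (nat_lit 7))
    (@En.n l3 (nat_lit 9267) (nat_lit 9) (nat_lit 13))
    (@En.n l31193 (nat_lit 7294) (nat_lit 9) (nat_lit 7))
    (@En.n l3 (nat_lit 10104) (nat_lit 11) (nat_lit 8))
    (@En.n l16238 (nat_lit 6572) (nat_lit 12) (nat_lit 9))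
    (@En.n l16237 (nat_lit 6565) (nat_lit 13) (nat_lit 10))
    (@En.n l31194 (nat_lit 6567) (nat_lit 14) (nat_lit 6))
    (@En.n l31195 (nat_lit 6843) (nat_lit 9) (nat_lit 9))
    (@En.n l28 (nat_lit 6569) (nat_lit 15) (nat_lit 2))))
  (@Cl.mk (nat_lit 0x20008000b000800070006000c0005000c00080004000800040009000e000a) (nat_lit 0x482009002010030) (nat_lit 16) Lb.e (@T16.mk En
    (@En.n l644 (nat_lit 7522) (nat_lit 11) (nat_lit 10))
    (@En.n l33987 (nat_lit 6779) (nat_lit 1) (nat_lit 14))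
    (@En.n l11316 (nat_lit 10114) (nat_lit 2) (nat_lit 9))
    (@En.n l15677 (nat_lit 4441) (nat_lit 3) (nat_lit 4))
    (@En.n l20009 (nat_lit 1094) (nat_lit 4) (nat_lit 8))
    (@En.n l3480 (nat_lit 6565) (nat_lit 5) (nat_lit 4))
    (@En.n l22233 (nat_lit 6571) (nat_lit 6) (nat_lit 8))
    (@En.n l15675 (nat_lit 6573) (nat_lit 8) (nat_lit 12))
    (@En.n l6081 (nat_lit 6951) (nat_lit 8) (nat_lit 5))
    (@En.n l33988 (nat_lit 9276) (nat_lit 10) (nat_lit 12))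
    (@En.n l33989 (nat_lit 7282) (nat_lit 10) (nat_lit 6))
    (@En.i (nat_lit 7819) (nat_lit 12) (nat_lit 7))
    (@En.n l33990 (nat_lit 2408) (nat_lit 13) (nat_lit 8))
    (@En.i (nat_lit 7647) (nat_lit 7) (nat_lit 11))
    (@En.n l15677 (nat_lit 9426) (nat_lit 9) (nat_lit 8))
    (@En.n l7 (nat_lit 6570) (nat_lit 15) (nat_lit 2))))
  (@Cl.mk (nat_lit 0x200080006000b000900080007000d0005000800030007000a0008000e0009) (nat_lit 0x509640a01007040) (nat_lit 16) Lb.e (@T16.mk En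
    (@En.n l30377 (nat_lit 7521) (nat_lit 11) (nat_lit 9))
    (@En.n l180 (nat_lit 6820) (nat_lit 1) (nat_lit 14))
    (@En.n l23036 (nat_lit 10110) (nat_lit 2) (nat_lit 8))
    (@En.i (nat_lit 6907) (nat_lit 3) (nat_lit 10))
    (@En.n l2125 (nat_lit 1095) (nat_lit 4) (nat_lit 7))
    (@En.n l22246 (nat_lit 6569) (nat_lit 5) (nat_lit 3))
    (@En.n l12585 (nat_lit 1653) (nat_lit 0) (nat_lit 8))
    (@En.n l2116 (nat_lit 6952) (nat_lit 7) (nat_lit 5))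
    (@En.n l2576 (nat_lit 9271) (nat_lit 9) (nat_lit 13))
    (@En.n l23033 (nat_lit 7284) (nat_lit 9) (nat_lit 7))
    (@En.n l30378 (nat_lit 7821) (nat_lit 11) (nat_lit 8))
    (@En.n l30379 (nat_lit 6573) (nat_lit 12) (nat_lit 9))
    (@En.n l30380 (nat_lit 6570) (nat_lit 13) (nat_lit 11))
    (@En.n l30381 (nat_lit 6568) (nat_lit 14) (nat_lit 6))
    (@En.n l3596 (nat_lit 9427) (nat_lit 9) (nat_lit 8))
    (@En.n l11 (nat_lit 6571) (nat_lit 15) (nat_lit 2))))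
  (@Cl.mk (nat_lit 0x2000a0006000900070006000d0006000d000300070003000a0009000e000a) (nat_lit 0x506007010008025) (nat_lit 16) Lb.e (@T16.mk En
    (@En.n l3279 (nat_lit 7494) (nat_lit 10) (nat_lit 10))
    (@En.n l2051 (nat_lit 6827) (nat_lit 1) (nat_lit 14))
    (@En.n l9820 (nat_lit 9034) (nat_lit 2) (nat_lit 9))
    (@En.n l30175 (nat_lit 6569) (nat_lit 3) (nat_lit 10))
    (@En.n l6420 (nat_lit 6574) (nat_lit 4) (nat_lit 3))
    (@En.i (nat_lit 2003) (nat_lit 5) (nat_lit 7))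
    (@En.i (nat_lit 6573) (nat_lit 6) (nat_lit 3))
    (@En.n l15144 (nat_lit 4815) (nat_lit 0) (nat_lit 13))
    (@En.i (nat_lit 4360) (nat_lit 8) (nat_lit 6))
    (@En.n l8844 (nat_lit 9268) (nat_lit 10) (nat_lit 13))
    (@En.i (nat_lit 7290) (nat_lit 10) (nat_lit 6))
    (@En.i (nat_lit 9004) (nat_lit 12) (nat_lit 7))
    (@En.i (nat_lit 2410) (nat_lit 9) (nat_lit 9))
    (@En.n l2225 (nat_lit 4447) (nat_lit 14) (nat_lit 6))
    (@En.n l9825 (nat_lit 6844) (nat_lit 10) (nat_lit 10))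
    (@En.n l11 (nat_lit 6572) (nat_lit 15) (nat_lit 2))))
  (@Cl.mk (nat_lit 0x200090006000900070006000d000c0007000300070004000a0009000e000a) (nat_lit 0x50500aa00008050) (nat_lit 16) Lb.e (@T16.mk En
    (@En.n l3279 (nat_lit 7499) (nat_lit 10) (nat_lit 10))
    (@En.n l2051 (nat_lit 6821) (nat_lit 1) (nat_lit 14))
    (@En.n l15768 (nat_lit 9036) (nat_lit 2) (nat_lit 9))
    (@En.n l15769 (nat_lit 6571) (nat_lit 3) (nat_lit 10))
    (@En.n l15770 (nat_lit 6575) (nat_lit 4) (nat_lit 4))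
    (@En.n l13031 (nat_lit 1096) (nat_lit 5) (nat_lit 7))
    (@En.n l50 (nat_lit 6572) (nat_lit 6) (nat_lit 3))
    (@En.n l9823 (nat_lit 1654) (nat_lit 0) (nat_lit 7))
    (@En.n l15771 (nat_lit 6574) (nat_lit 9) (nat_lit 12))
    (@En.n l15772 (nat_lit 9272) (nat_lit 10) (nat_lit 13))
    (@En.n l13031 (nat_lit 7285) (nat_lit 10) (nat_lit 6))
    (@En.i (nat_lit 9006) (nat_lit 12) (nat_lit 7))
    (@En.n l9819 (nat_lit 2409) (nat_lit 13) (nat_lit 9))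
    (@En.n l13031 (nat_lit 6768) (nat_lit 14) (nat_lit 6))
    (@En.n l5621 (nat_lit 9428) (nat_lit 8) (nat_lit 9))
    (@En.n l11 (nat_lit 6573) (nat_lit 15) (nat_lit 2))))
  (@Cl.mk (nat_lit 0x2000a0006000a00070006000c0006000d000600040003000a0009000e000a) (nat_lit 0x8020090b0006045) (nat_lit 16) Lb.e (@T16.mk En
    (@En.n l15741 (nat_lit 7497) (nat_lit 12) (nat_lit 10))
    (@En.n l15743 (nat_lit 6829) (nat_lit 1) (nat_lit 14))
    (@En.i (nat_lit 9038) (nat_lit 2) (nat_lit 9))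
    (@En.n l2213 (nat_lit 6543) (nat_lit 3) (nat_lit 10))
    (@En.n l30371 (nat_lit 6572) (nat_lit 4) (nat_lit 3))
    (@En.n l152 (nat_lit 7460) (nat_lit 5) (nat_lit 4))
    (@En.n l21574 (nat_lit 6569) (nat_lit 6) (nat_lit 6))
    (@En.n l617 (nat_lit 4816) (nat_lit 8) (nat_lit 13))
    (@En.n l13116 (nat_lit 3156) (nat_lit 8) (nat_lit 6))
    (@En.n l9863 (nat_lit 9460) (nat_lit 10) (nat_lit 12))
    (@En.n l30372 (nat_lit 7202) (nat_lit 10) (nat_lit 6))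
    (@En.n l30372 (nat_lit 9005) (nat_lit 12) (nat_lit 7))
    (@En.n l15743 (nat_lit 2416) (nat_lit 13) (nat_lit 10))
    (@En.n l30373 (nat_lit 4446) (nat_lit 14) (nat_lit 6))
    (@En.n l30374 (nat_lit 6846) (nat_lit 10) (nat_lit 10))
    (@En.n l50 (nat_lit 6574) (nat_lit 15) (nat_lit 2))))
  (@Cl.mk (nat_lit 0x200080006000b00070006000c000c0005000800040004000a0009000e000a) (nat_lit 0x403009703006061) (nat_lit 16) Lb.e (@T16.mk En
    (@En.n l15741 (nat_lit 5884) (nat_lit 11) (nat_lit 10))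
    (@En.n l601 (nat_lit 6346) (nat_lit 1) (nat_lit 14))
    (@En.i (nat_lit 11030) (nat_lit 2) (nat_lit 9))
    (@En.n l649 (nat_lit 6446) (nat_lit 3) (nat_lit 10))
    (@En.n l11021 (nat_lit 6761) (nat_lit 12) (nat_lit 4))
    (@En.i (nat_lit 6574) (nat_lit 5) (nat_lit 4))
    (@En.i (nat_lit 3100) (nat_lit 10) (nat_lit 8))
    (@En.n l1865 (nat_lit 6571) (nat_lit 7) (nat_lit 5))
    (@En.n l619 (nat_lit 7460) (nat_lit 9) (nat_lit 12))
    (@En.n l6362 (nat_lit 9466) (nat_lit 10) (nat_lit 12))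
    (@En.n l77 (nat_lit 7201) (nat_lit 10) (nat_lit 6))
    (@En.n l15742 (nat_lit 8935) (nat_lit 12) (nat_lit 7))
    (@En.n l15743 (nat_lit 6763) (nat_lit 13) (nat_lit 11))
    (@En.n l15744 (nat_lit 6767) (nat_lit 14) (nat_lit 6))
    (@En.i (nat_lit 9458) (nat_lit 9) (nat_lit 8))
    (@En.n l50 (nat_lit 6575) (nat_lit 15) (nat_lit 2))))
noncomputable def a411 : T16 Cl := @T16.mk Cl
  (@Cl.mk (nat_lit 0x20008000d000800070003000c000b000900080004000800050009000e0007) (nat_lit 0x1510059610004c0) (nat_lit 16) Lb.e (@T16.mk En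
    (@En.n l37048 (nat_lit 5301) (nat_lit 5) (nat_lit 7))
    (@En.n l25092 (nat_lit 6393) (nat_lit 1) (nat_lit 14))
    (@En.i (nat_lit 6590) (nat_lit 2) (nat_lit 9))
    (@En.i (nat_lit 6476) (nat_lit 3) (nat_lit 5))
    (@En.n l37049 (nat_lit 7496) (nat_lit 4) (nat_lit 8))
    (@En.n l37050 (nat_lit 11550) (nat_lit 5) (nat_lit 4))
    (@En.i (nat_lit 5528) (nat_lit 6) (nat_lit 8))
    (@En.n l37051 (nat_lit 10545) (nat_lit 1) (nat_lit 9))
    (@En.n l7654 (nat_lit 6528) (nat_lit 9) (nat_lit 11))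
    (@En.n l15747 (nat_lit 5269) (nat_lit 10) (nat_lit 12))
    (@En.n l3510 (nat_lit 5171) (nat_lit 10) (nat_lit 3))
    (@En.n l2434 (nat_lit 8037) (nat_lit 12) (nat_lit 7))
    (@En.n l2346 (nat_lit 5165) (nat_lit 13) (nat_lit 8))
    (@En.n l16858 (nat_lit 11561) (nat_lit 14) (nat_lit 13))
    (@En.n l22746 (nat_lit 2893) (nat_lit 3) (nat_lit 8))
    (@En.n l3 (nat_lit 6576) (nat_lit 15) (nat_lit 2))))
  (@Cl.mk (nat_lit 0x20009000d000800070003000c00080007000d0004000800030009000e0008) (nat_lit 0x260006605010686) (nat_lit 16) Lb.e (@T16.mk En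
    (@En.n l37025 (nat_lit 6449) (nat_lit 13) (nat_lit 8))
    (@En.n l11324 (nat_lit 9996) (nat_lit 1) (nat_lit 14))
    (@En.n l17 (nat_lit 6447) (nat_lit 2) (nat_lit 9))
    (@En.n l5567 (nat_lit 6528) (nat_lit 3) (nat_lit 3))
    (@En.n l18799 (nat_lit 5907) (nat_lit 4) (nat_lit 8))
    (@En.n l26938 (nat_lit 6576) (nat_lit 5) (nat_lit 4))
    (@En.n l37026 (nat_lit 12068) (nat_lit 7) (nat_lit 13))
    (@En.i (nat_lit 3925) (nat_lit 7) (nat_lit 7))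
    (@En.n l11324 (nat_lit 12026) (nat_lit 14) (nat_lit 8))
    (@En.n l11577 (nat_lit 5271) (nat_lit 10) (nat_lit 12))
    (@En.n l37027 (nat_lit 6579) (nat_lit 10) (nat_lit 3))
    (@En.i (nat_lit 8034) (nat_lit 12) (nat_lit 7))
    (@En.n l18797 (nat_lit 6580) (nat_lit 13) (nat_lit 8))
    (@En.n l11324 (nat_lit 4174) (nat_lit 14) (nat_lit 13))
    (@En.n l37028 (nat_lit 5427) (nat_lit 11) (nat_lit 9))
    (@En.n l3 (nat_lit 6577) (nat_lit 15) (nat_lit 2))))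
  (@Cl.mk (nat_lit 0x20009000d0006000a0003000b00080007000d000600050003000a000e0008) (nat_lit 0x380208605000656) (nat_lit 16) Lb.e (@T16.mk En
    (@En.n l97 (nat_lit 6449) (nat_lit 5) (nat_lit 8))
    (@En.i (nat_lit 9993) (nat_lit 1) (nat_lit 14))
    (@En.i (nat_lit 7703) (nat_lit 2) (nat_lit 10))
    (@En.n l3519 (nat_lit 6579) (nat_lit 3) (nat_lit 3))
    (@En.n l18 (nat_lit 6471) (nat_lit 4) (nat_lit 5))
    (@En.i (nat_lit 6581) (nat_lit 5) (nat_lit 6))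
    (@En.n l1992 (nat_lit 12071) (nat_lit 7) (nat_lit 13))
    (@En.n l1769 (nat_lit 7108) (nat_lit 7) (nat_lit 7))
    (@En.n l37029 (nat_lit 10895) (nat_lit 14) (nat_lit 8))
    (@En.n l22708 (nat_lit 6448) (nat_lit 10) (nat_lit 11))
    (@En.n l23711 (nat_lit 6528) (nat_lit 10) (nat_lit 3))
    (@En.n l11360 (nat_lit 7142) (nat_lit 0) (nat_lit 10))
    (@En.n l22708 (nat_lit 6583) (nat_lit 13) (nat_lit 6))
    (@En.n l9970 (nat_lit 4172) (nat_lit 14) (nat_lit 13))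
    (@En.i (nat_lit 6637) (nat_lit 3) (nat_lit 9))
    (@En.n l67 (nat_lit 6578) (nat_lit 15) (nat_lit 2))))
  (@Cl.mk (nat_lit 0x20009000d000600090003000c00080007000d000400070003000a000e0008) (nat_lit 0x360007605000651) (nat_lit 16) Lb.e (@T16.mk En
    (@En.n l387 (nat_lit 57) (nat_lit 5) (nat_lit 8))
    (@En.n l1357 (nat_lit 9995) (nat_lit 1) (nat_lit 14))
    (@En.n l21137 (nat_lit 6581) (nat_lit 2) (nat_lit 10))
    (@En.n l2832 (nat_lit 6578) (nat_lit 3) (nat_lit 3))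
    (@En.n l1357 (nat_lit 5946) (nat_lit 4) (nat_lit 7))
    (@En.n l5385 (nat_lit 5171) (nat_lit 5) (nat_lit 4))
    (@En.n l810 (nat_lit 12070) (nat_lit 7) (nat_lit 13))
    (@En.n l8262 (nat_lit 3923) (nat_lit 7) (nat_lit 7))
    (@En.n l1357 (nat_lit 10894) (nat_lit 14) (nat_lit 8))
    (@En.n l7826 (nat_lit 6580) (nat_lit 10) (nat_lit 12))
    (@En.n l2272 (nat_lit 6577) (nat_lit 10) (nat_lit 3))
    (@En.i (nat_lit 7140) (nat_lit 12) (nat_lit 9))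
    (@En.n l14060 (nat_lit 6582) (nat_lit 13) (nat_lit 6))
    (@En.n l1357 (nat_lit 4170) (nat_lit 14) (nat_lit 13))
    (@En.n l3393 (nat_lit 6639) (nat_lit 11) (nat_lit 9))
    (@En.n l172 (nat_lit 6579) (nat_lit 15) (nat_lit 2))))
  (@Cl.mk (nat_lit 0x2000a000800060009000c00070006000c0004000800070004000a000e0009) (nat_lit 0x360760020200767) (nat_lit 16) Lb.e (@T16.mk En
    (@En.n l31421 (nat_lit 5173) (nat_lit 13) (nat_lit 9))
    (@En.n l5577 (nat_lit 10002) (nat_lit 1) (nat_lit 14))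
    (@En.n l617 (nat_lit 5169) (nat_lit 2) (nat_lit 10))
    (@En.n l3480 (nat_lit 6448) (nat_lit 3) (nat_lit 4))
    (@En.n l31422 (nat_lit 6579) (nat_lit 4) (nat_lit 7))
    (@En.n l31423 (nat_lit 5433) (nat_lit 5) (nat_lit 8))
    (@En.n l6081 (nat_lit 5165) (nat_lit 6) (nat_lit 4))
    (@En.n l31424 (nat_lit 11941) (nat_lit 8) (nat_lit 12))
    (@En.i (nat_lit 3924) (nat_lit 8) (nat_lit 6))
    (@En.n l31425 (nat_lit 10921) (nat_lit 10) (nat_lit 7))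
    (@En.i (nat_lit 5272) (nat_lit 6) (nat_lit 12))
    (@En.n l31426 (nat_lit 7139) (nat_lit 12) (nat_lit 9))
    (@En.i (nat_lit 6585) (nat_lit 13) (nat_lit 6))
    (@En.n l16790 (nat_lit 12080) (nat_lit 14) (nat_lit 8))
    (@En.n l31427 (nat_lit 6559) (nat_lit 11) (nat_lit 10))
    (@En.n l28 (nat_lit 6580) (nat_lit 15) (nat_lit 2))))
  (@Cl.mk (nat_lit 0x20008000c0006000a00090004000c00090008000600040007000a000e0007) (nat_lit 0x350210871000540) (nat_lit 16) Lb.e (@T16.mk En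
    (@En.n l9877 (nat_lit 5173) (nat_lit 6) (nat_lit 7))
    (@En.i (nat_lit 11585) (nat_lit 1) (nat_lit 14))
    (@En.n l21425 (nat_lit 7709) (nat_lit 8) (nat_lit 10))
    (@En.n l37005 (nat_lit 5947) (nat_lit 3) (nat_lit 7))
    (@En.n l21425 (nat_lit 5166) (nat_lit 4) (nat_lit 4))
    (@En.n l25808 (nat_lit 11176) (nat_lit 5) (nat_lit 6))
    (@En.n l265 (nat_lit 5555) (nat_lit 6) (nat_lit 8))
    (@En.n l37006 (nat_lit 10896) (nat_lit 8) (nat_lit 9))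
    (@En.n l37007 (nat_lit 5169) (nat_lit 9) (nat_lit 12))
    (@En.n l10572 (nat_lit 6447) (nat_lit 9) (nat_lit 4))
    (@En.n l11245 (nat_lit 6579) (nat_lit 11) (nat_lit 9))
    (@En.n l265 (nat_lit 7726) (nat_lit 12) (nat_lit 10))
    (@En.n l37008 (nat_lit 6584) (nat_lit 13) (nat_lit 6))
    (@En.n l21422 (nat_lit 4175) (nat_lit 14) (nat_lit 12))
    (@En.n l37009 (nat_lit 6643) (nat_lit 4) (nat_lit 8))
    (@En.n l67 (nat_lit 6581) (nat_lit 15) (nat_lit 2))))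
  (@Cl.mk (nat_lit 0x2000a000600090007000c00070006000d000400070003000a0009000e0009) (nat_lit 0x106060030004761) (nat_lit 16) Lb.e (@T16.mk En
    (@En.n l5403 (nat_lit 5172) (nat_lit 12) (nat_lit 9))
    (@En.n l2038 (nat_lit 9367) (nat_lit 1) (nat_lit 14))
    (@En.n l3261 (nat_lit 6577) (nat_lit 2) (nat_lit 9))
    (@En.n l24340 (nat_lit 6584) (nat_lit 3) (nat_lit 10))
    (@En.n l5801 (nat_lit 6583) (nat_lit 4) (nat_lit 3))
    (@En.i (nat_lit 1978) (nat_lit 11) (nat_lit 7))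
    (@En.i (nat_lit 5749) (nat_lit 6) (nat_lit 4))
    (@En.n l9188 (nat_lit 11535) (nat_lit 8) (nat_lit 13))
    (@En.i (nat_lit 5539) (nat_lit 8) (nat_lit 6))
    (@En.i (nat_lit 6855) (nat_lit 4) (nat_lit 7))
    (@En.n l899 (nat_lit 6585) (nat_lit 11) (nat_lit 12))
    (@En.i (nat_lit 6589) (nat_lit 12) (nat_lit 7))
    (@En.i (nat_lit 7514) (nat_lit 9) (nat_lit 9))
    (@En.n l8874 (nat_lit 11496) (nat_lit 14) (nat_lit 6))
    (@En.n l565 (nat_lit 2094) (nat_lit 10) (nat_lit 10))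
    (@En.n l11 (nat_lit 6582) (nat_lit 15) (nat_lit 2))))
  (@Cl.mk (nat_lit 0x2000a0006000a0007000b00070006000d000600050003000a0009000e0009) (nat_lit 0x300070030004761) (nat_lit 16) Lb.e (@T16.mk En
    (@En.n l34271 (nat_lit 5301) (nat_lit 12) (nat_lit 9))
    (@En.n l4814 (nat_lit 9371) (nat_lit 1) (nat_lit 14))
    (@En.n l28284 (nat_lit 6528) (nat_lit 2) (nat_lit 9))
    (@En.n l2213 (nat_lit 7702) (nat_lit 3) (nat_lit 10))
    (@En.n l28285 (nat_lit 6582) (nat_lit 4) (nat_lit 3))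
    (@En.n l152 (nat_lit 7705) (nat_lit 5) (nat_lit 5))
    (@En.n l21574 (nat_lit 6584) (nat_lit 6) (nat_lit 6))
    (@En.n l34506 (nat_lit 11537) (nat_lit 8) (nat_lit 13))
    (@En.i (nat_lit 7075) (nat_lit 8) (nat_lit 6))
    (@En.n l28322 (nat_lit 10721) (nat_lit 4) (nat_lit 7))
    (@En.i (nat_lit 7992) (nat_lit 11) (nat_lit 11))
    (@En.n l8776 (nat_lit 7737) (nat_lit 12) (nat_lit 7))
    (@En.n l16306 (nat_lit 7515) (nat_lit 13) (nat_lit 10))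
    (@En.n l16581 (nat_lit 11497) (nat_lit 14) (nat_lit 6))
    (@En.n l34507 (nat_lit 6632) (nat_lit 10) (nat_lit 10))
    (@En.n l50 (nat_lit 6583) (nat_lit 15) (nat_lit 2))))
  (@Cl.mk (nat_lit 0x200090006000a00090008000c00080007000600040007000a0008000e0008) (nat_lit 0x1027076000036c1) (nat_lit 16) Lb.e (@T16.mk En
    (@En.n l30608 (nat_lit 3159) (nat_lit 11) (nat_lit 8))
    (@En.n l23501 (nat_lit 9365) (nat_lit 1) (nat_lit 14))
    (@En.n l27329 (nat_lit 6587) (nat_lit 2) (nat_lit 8))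
    (@En.n l27330 (nat_lit 5851) (nat_lit 3) (nat_lit 10))
    (@En.n l20187 (nat_lit 1976) (nat_lit 4) (nat_lit 7))
    (@En.n l13686 (nat_lit 6529) (nat_lit 5) (nat_lit 4))
    (@En.n l18 (nat_lit 11455) (nat_lit 6) (nat_lit 6))
    (@En.i (nat_lit 5558) (nat_lit 7) (nat_lit 7))
    (@En.n l17764 (nat_lit 10720) (nat_lit 9) (nat_lit 8))
    (@En.n l3 (nat_lit 6586) (nat_lit 10) (nat_lit 12))
    (@En.n l3 (nat_lit 6588) (nat_lit 11) (nat_lit 8))
    (@En.n l7642 (nat_lit 6582) (nat_lit 12) (nat_lit 9))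
    (@En.n l6392 (nat_lit 3151) (nat_lit 13) (nat_lit 10))
    (@En.n l41267 (nat_lit 11495) (nat_lit 14) (nat_lit 6))
    (@En.n l41268 (nat_lit 2091) (nat_lit 9) (nat_lit 9))
    (@En.n l28 (nat_lit 6584) (nat_lit 15) (nat_lit 2))))
  (@Cl.mk (nat_lit 0x2000b00060009000c00060005000c0004000c00070004000a0004000e000a) (nat_lit 0x305500305005071) (nat_lit 16) Lb.e (@T16.mk En
    (@En.i (nat_lit 5170) (nat_lit 14) (nat_lit 10))
    (@En.i (nat_lit 9366) (nat_lit 1) (nat_lit 14))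
    (@En.n l117 (nat_lit 8032) (nat_lit 2) (nat_lit 4))
    (@En.n l617 (nat_lit 6586) (nat_lit 3) (nat_lit 10))
    (@En.n l3480 (nat_lit 7992) (nat_lit 4) (nat_lit 4))
    (@En.n l2642 (nat_lit 6582) (nat_lit 5) (nat_lit 7))
    (@En.i (nat_lit 4357) (nat_lit 7) (nat_lit 12))
    (@En.n l6081 (nat_lit 6531) (nat_lit 7) (nat_lit 4))
    (@En.n l7189 (nat_lit 11536) (nat_lit 9) (nat_lit 12))
    (@En.i (nat_lit 5564) (nat_lit 9) (nat_lit 5))
    (@En.i (nat_lit 10917) (nat_lit 11) (nat_lit 6))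
    (@En.i (nat_lit 7478) (nat_lit 6) (nat_lit 12))
    (@En.n l1081 (nat_lit 5889) (nat_lit 9) (nat_lit 9))
    (@En.n l21632 (nat_lit 8561) (nat_lit 14) (nat_lit 6))
    (@En.n l7 (nat_lit 6556) (nat_lit 12) (nat_lit 11))
    (@En.n l28 (nat_lit 6585) (nat_lit 15) (nat_lit 2))))
  (@Cl.mk (nat_lit 0x2000a0006000b0009000c0007000600050004000d0007000a0003000e0009) (nat_lit 0x105660000504096) (nat_lit 16) Lb.e (@T16.mk En
    (@En.i (nat_lit 5167) (nat_lit 14) (nat_lit 9))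
    (@En.i (nat_lit 9363) (nat_lit 1) (nat_lit 14))
    (@En.n l117 (nat_lit 6588) (nat_lit 2) (nat_lit 3))
    (@En.n l2921 (nat_lit 5780) (nat_lit 3) (nat_lit 10))
    (@En.i (nat_lit 6584) (nat_lit 4) (nat_lit 7))
    (@En.i (nat_lit 4358) (nat_lit 6) (nat_lit 13))
    (@En.n l2101 (nat_lit 6530) (nat_lit 6) (nat_lit 4))
    (@En.n l18 (nat_lit 11460) (nat_lit 7) (nat_lit 5))
    (@En.i (nat_lit 5560) (nat_lit 8) (nat_lit 6))
    (@En.i (nat_lit 10916) (nat_lit 10) (nat_lit 7))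
    (@En.i (nat_lit 4665) (nat_lit 6) (nat_lit 12))
    (@En.n l61 (nat_lit 6585) (nat_lit 12) (nat_lit 9))
    (@En.n l6392 (nat_lit 4566) (nat_lit 13) (nat_lit 11))
    (@En.n l30611 (nat_lit 8562) (nat_lit 14) (nat_lit 6))
    (@En.n l7 (nat_lit 2095) (nat_lit 12) (nat_lit 10))
    (@En.n l28 (nat_lit 6586) (nat_lit 15) (nat_lit 2))))
  (@Cl.mk (nat_lit 0x20008000c0009000800080004000c000900080007000400080008000e0007) (nat_lit 0x74100871001570) (nat_lit 16) Lb.e (@T16.mk En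
    (@En.n l20804 (nat_lit 6438) (nat_lit 6) (nat_lit 7))
    (@En.n l15827 (nat_lit 11050) (nat_lit 1) (nat_lit 14))
    (@En.n l33073 (nat_lit 8064) (nat_lit 8) (nat_lit 8))
    (@En.n l34109 (nat_lit 5914) (nat_lit 3) (nat_lit 8))
    (@En.i (nat_lit 6604) (nat_lit 4) (nat_lit 4))
    (@En.n l18318 (nat_lit 12337) (nat_lit 5) (nat_lit 7))
    (@En.i (nat_lit 5342) (nat_lit 6) (nat_lit 8))
    (@En.n l18319 (nat_lit 11926) (nat_lit 8) (nat_lit 9))
    (@En.n l1415 (nat_lit 6522) (nat_lit 9) (nat_lit 12))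
    (@En.n l33801 (nat_lit 6581) (nat_lit 9) (nat_lit 4))
    (@En.n l61 (nat_lit 6906) (nat_lit 11) (nat_lit 8))
    (@En.n l25672 (nat_lit 6577) (nat_lit 12) (nat_lit 8))
    (@En.n l11084 (nat_lit 4783) (nat_lit 13) (nat_lit 9))
    (@En.n l33074 (nat_lit 8110) (nat_lit 14) (nat_lit 12))
    (@En.n l34110 (nat_lit 6831) (nat_lit 4) (nat_lit 8))
    (@En.n l3 (nat_lit 6587) (nat_lit 15) (nat_lit 2))))
  (@Cl.mk (nat_lit 0x2000a0007000b0008000c0007000600050004000d000900080003000e0009) (nat_lit 0x305660000533091) (nat_lit 16) Lb.e (@T16.mk En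
    (@En.i (nat_lit 5168) (nat_lit 14) (nat_lit 9))
    (@En.i (nat_lit 11378) (nat_lit 1) (nat_lit 14))
    (@En.n l152 (nat_lit 6586) (nat_lit 2) (nat_lit 3))
    (@En.n l9970 (nat_lit 6906) (nat_lit 3) (nat_lit 8))
    (@En.n l97 (nat_lit 5169) (nat_lit 4) (nat_lit 9))
    (@En.n l38245 (nat_lit 4359) (nat_lit 6) (nat_lit 13))
    (@En.n l38246 (nat_lit 7729) (nat_lit 6) (nat_lit 4))
    (@En.n l18 (nat_lit 11463) (nat_lit 7) (nat_lit 5))
    (@En.i (nat_lit 5339) (nat_lit 8) (nat_lit 6))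
    (@En.n l24726 (nat_lit 10918) (nat_lit 10) (nat_lit 7))
    (@En.i (nat_lit 4664) (nat_lit 11) (nat_lit 12))
    (@En.n l61 (nat_lit 8032) (nat_lit 12) (nat_lit 8))
    (@En.n l21428 (nat_lit 4564) (nat_lit 13) (nat_lit 11))
    (@En.n l38247 (nat_lit 11409) (nat_lit 14) (nat_lit 7))
    (@En.n l7 (nat_lit 6551) (nat_lit 12) (nat_lit 10))
    (@En.n l28 (nat_lit 6588) (nat_lit 15) (nat_lit 2))))
  (@Cl.mk (nat_lit 0x2000b00070007000c00060005000d0004000c0003000900090004000e000a) (nat_lit 0x6005009070450a8) (nat_lit 16) Lb.e (@T16.mk En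
    (@En.n l5403 (nat_lit 5174) (nat_lit 11) (nat_lit 10))
    (@En.n l31242 (nat_lit 9857) (nat_lit 1) (nat_lit 14))
    (@En.n l2125 (nat_lit 6585) (nat_lit 2) (nat_lit 4))
    (@En.n l3261 (nat_lit 8034) (nat_lit 3) (nat_lit 9))
    (@En.n l9182 (nat_lit 6588) (nat_lit 4) (nat_lit 9))
    (@En.i (nat_lit 7737) (nat_lit 5) (nat_lit 3))
    (@En.n l8160 (nat_lit 3221) (nat_lit 0) (nat_lit 12))
    (@En.i (nat_lit 7731) (nat_lit 7) (nat_lit 4))
    (@En.n l16824 (nat_lit 5799) (nat_lit 9) (nat_lit 13))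
    (@En.i (nat_lit 3626) (nat_lit 9) (nat_lit 5))
    (@En.i (nat_lit 10926) (nat_lit 4) (nat_lit 6))
    (@En.n l899 (nat_lit 7484) (nat_lit 12) (nat_lit 12))
    (@En.n l152 (nat_lit 8027) (nat_lit 9) (nat_lit 7))
    (@En.n l2669 (nat_lit 8003) (nat_lit 14) (nat_lit 7))
    (@En.n l565 (nat_lit 5691) (nat_lit 9) (nat_lit 11))
    (@En.n l11 (nat_lit 6589) (nat_lit 15) (nat_lit 2))))
  (@Cl.mk (nat_lit 0x20007000c00070007000d0004000c0003000a0009000400090009000e0006) (nat_lit 0x60090607101330) (nat_lit 16) Lb.e (@T16.mk En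
    (@En.n l38793 (nat_lit 5606) (nat_lit 8) (nat_lit 6))
    (@En.n l2786 (nat_lit 11890) (nat_lit 1) (nat_lit 14))
    (@En.n l7246 (nat_lit 8061) (nat_lit 2) (nat_lit 9))
    (@En.n l37049 (nat_lit 4427) (nat_lit 3) (nat_lit 9))
    (@En.n l23031 (nat_lit 11549) (nat_lit 4) (nat_lit 4))
    (@En.i (nat_lit 2954) (nat_lit 5) (nat_lit 9))
    (@En.n l38794 (nat_lit 10517) (nat_lit 1) (nat_lit 10))
    (@En.n l16869 (nat_lit 5720) (nat_lit 7) (nat_lit 3))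
    (@En.n l26831 (nat_lit 5736) (nat_lit 9) (nat_lit 12))
    (@En.n l4446 (nat_lit 6604) (nat_lit 9) (nat_lit 4))
    (@En.i (nat_lit 3166) (nat_lit 11) (nat_lit 13))
    (@En.n l38795 (nat_lit 5721) (nat_lit 12) (nat_lit 7))
    (@En.n l38796 (nat_lit 5164) (nat_lit 13) (nat_lit 7))
    (@En.n l16871 (nat_lit 12256) (nat_lit 14) (nat_lit 12))
    (@En.n l38797 (nat_lit 6592) (nat_lit 6) (nat_lit 7))
    (@En.n l3 (nat_lit 6590) (nat_lit 15) (nat_lit 2))))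
  (@Cl.mk (nat_lit 0x2000c00070007000d0004000c00030009000c0004000900090004000e0007) (nat_lit 0x900901000053040) (nat_lit 16) Lb.e (@T16.mk En
    (@En.n l35621 (nat_lit 6592) (nat_lit 7) (nat_lit 7))
    (@En.n l10772 (nat_lit 6590) (nat_lit 1) (nat_lit 14))
    (@En.n l152 (nat_lit 6648) (nat_lit 2) (nat_lit 4))
    (@En.n l36675 (nat_lit 6601) (nat_lit 3) (nat_lit 9))
    (@En.n l617 (nat_lit 6681) (nat_lit 4) (nat_lit 9))
    (@En.i (nat_lit 8997) (nat_lit 5) (nat_lit 4))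
    (@En.n l36676 (nat_lit 13966) (nat_lit 6) (nat_lit 12))
    (@En.n l8656 (nat_lit 10927) (nat_lit 1) (nat_lit 9))
    (@En.n l35832 (nat_lit 6594) (nat_lit 8) (nat_lit 3))
    (@En.n l36677 (nat_lit 1645) (nat_lit 10) (nat_lit 12))
    (@En.n l36678 (nat_lit 6605) (nat_lit 10) (nat_lit 4))
    (@En.i (nat_lit 2883) (nat_lit 12) (nat_lit 13))
    (@En.n l7646 (nat_lit 6719) (nat_lit 9) (nat_lit 7))
    (@En.n l28166 (nat_lit 5102) (nat_lit 14) (nat_lit 7))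
    (@En.n l36676 (nat_lit 8415) (nat_lit 3) (nat_lit 12))
    (@En.n l28 (nat_lit 6591) (nat_lit 15) (nat_lit 2))))
noncomputable def a412 : T16 Cl := @T16.mk Cl
  (@Cl.mk (nat_lit 0x300090009000c0005000a000a000400070007000c00060006000d0004000b) (nat_lit 0x11073000500805) (nat_lit 16) Lb.e (@T16.mk En
    (@En.n l24317 (nat_lit 1640) (nat_lit 0) (nat_lit 11))
    (@En.i (nat_lit 6598) (nat_lit 8) (nat_lit 4))
    (@En.n l30052 (nat_lit 2882) (nat_lit 0) (nat_lit 13))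
    (@En.n l10618 (nat_lit 6596) (nat_lit 10) (nat_lit 6))
    (@En.n l12433 (nat_lit 5099) (nat_lit 4) (nat_lit 6))
    (@En.n l24317 (nat_lit 8417) (nat_lit 13) (nat_lit 12))
    (@En.n l17 (nat_lit 6595) (nat_lit 9) (nat_lit 7))
    (@En.n l30206 (nat_lit 5295) (nat_lit 11) (nat_lit 7))
    (@En.n l4530 (nat_lit 6647) (nat_lit 8) (nat_lit 4))
    (@En.n l619 (nat_lit 6597) (nat_lit 6) (nat_lit 10))
    (@En.i (nat_lit 6654) (nat_lit 1) (nat_lit 10))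
    (@En.n l30049 (nat_lit 9387) (nat_lit 12) (nat_lit 5))
    (@En.n l30207 (nat_lit 6591) (nat_lit 6) (nat_lit 12))
    (@En.n l30208 (nat_lit 6591) (nat_lit 7) (nat_lit 9))
    (@En.n l18232 (nat_lit 12020) (nat_lit 5) (nat_lit 9))
    (@En.n l7 (nat_lit 6593) (nat_lit 15) (nat_lit 3))))
  (@Cl.mk (nat_lit 0x300090009000c0006000a000a000400070007000b00060006000d000a0005) (nat_lit 0x83000500930) (nat_lit 16) Lb.e (@T16.mk En
    (@En.n l37580 (nat_lit 4943) (nat_lit 0) (nat_lit 5))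
    (@En.i (nat_lit 6840) (nat_lit 0) (nat_lit 10))
    (@En.i (nat_lit 2880) (nat_lit 2) (nat_lit 13))
    (@En.i (nat_lit 5003) (nat_lit 10) (nat_lit 6))
    (@En.n l22176 (nat_lit 5098) (nat_lit 4) (nat_lit 6))
    (@En.n l1738 (nat_lit 8146) (nat_lit 8) (nat_lit 11))
    (@En.n l17 (nat_lit 6599) (nat_lit 9) (nat_lit 7))
    (@En.n l37580 (nat_lit 5300) (nat_lit 11) (nat_lit 7))
    (@En.n l10138 (nat_lit 5964) (nat_lit 8) (nat_lit 4))
    (@En.n l619 (nat_lit 6600) (nat_lit 6) (nat_lit 10))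
    (@En.i (nat_lit 6680) (nat_lit 9) (nat_lit 10))
    (@En.n l1769 (nat_lit 9316) (nat_lit 12) (nat_lit 6))
    (@En.n l37581 (nat_lit 6594) (nat_lit 6) (nat_lit 12))
    (@En.n l37582 (nat_lit 6594) (nat_lit 7) (nat_lit 9))
    (@En.i (nat_lit 11254) (nat_lit 5) (nat_lit 9))
    (@En.i (nat_lit 6592) (nat_lit 15) (nat_lit 3))))
  (@Cl.mk (nat_lit 0x2000b00070007000d000b000500030009000c0005000900090004000e0007) (nat_lit 0x600a3007a073090) (nat_lit 16) Lb.e (@T16.mk En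
    (@En.n l22510 (nat_lit 6593) (nat_lit 7) (nat_lit 7))
    (@En.n l22511 (nat_lit 5720) (nat_lit 1) (nat_lit 14))
    (@En.n l890 (nat_lit 6649) (nat_lit 2) (nat_lit 4))
    (@En.n l22512 (nat_lit 6602) (nat_lit 3) (nat_lit 9))
    (@En.n l22513 (nat_lit 6679) (nat_lit 4) (nat_lit 9))
    (@En.n l22514 (nat_lit 9312) (nat_lit 5) (nat_lit 5))
    (@En.n l22515 (nat_lit 13869) (nat_lit 6) (nat_lit 12))
    (@En.n l17358 (nat_lit 11252) (nat_lit 8) (nat_lit 9))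
    (@En.n l22516 (nat_lit 6591) (nat_lit 8) (nat_lit 3))
    (@En.n l22517 (nat_lit 4944) (nat_lit 0) (nat_lit 5))
    (@En.n l22518 (nat_lit 6898) (nat_lit 11) (nat_lit 11))
    (@En.n l22519 (nat_lit 2881) (nat_lit 12) (nat_lit 13))
    (@En.n l22520 (nat_lit 5005) (nat_lit 9) (nat_lit 7))
    (@En.i (nat_lit 5162) (nat_lit 14) (nat_lit 7))
    (@En.n l22521 (nat_lit 8145) (nat_lit 12) (nat_lit 11))
    (@En.n l18 (nat_lit 6594) (nat_lit 15) (nat_lit 2))))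
  (@Cl.mk (nat_lit 0x2000c0006000b000b00040007000c00050005000d0004000a0003000e0009) (nat_lit 0x208300a00301091) (nat_lit 16) Lb.e (@T16.mk En
    (@En.n l5 (nat_lit 6592) (nat_lit 14) (nat_lit 9))
    (@En.n l396 (nat_lit 11447) (nat_lit 1) (nat_lit 14))
    (@En.n l7 (nat_lit 6599) (nat_lit 2) (nat_lit 3))
    (@En.n l11968 (nat_lit 1644) (nat_lit 3) (nat_lit 10))
    (@En.i (nat_lit 6954) (nat_lit 4) (nat_lit 4))
    (@En.n l4530 (nat_lit 4448) (nat_lit 6) (nat_lit 13))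
    (@En.n l2385 (nat_lit 6969) (nat_lit 11) (nat_lit 5))
    (@En.i (nat_lit 5097) (nat_lit 7) (nat_lit 5))
    (@En.n l10536 (nat_lit 8578) (nat_lit 9) (nat_lit 12))
    (@En.n l17308 (nat_lit 5566) (nat_lit 11) (nat_lit 7))
    (@En.n l4530 (nat_lit 6652) (nat_lit 10) (nat_lit 4))
    (@En.n l619 (nat_lit 6956) (nat_lit 5) (nat_lit 11))
    (@En.i (nat_lit 6689) (nat_lit 13) (nat_lit 11))
    (@En.n l8148 (nat_lit 9388) (nat_lit 14) (nat_lit 6))
    (@En.i (nat_lit 6592) (nat_lit 12) (nat_lit 12))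
    (@En.n l18 (nat_lit 6595) (nat_lit 15) (nat_lit 2))))
  (@Cl.mk (nat_lit 0x2000500080008000d0006000d0003000b000300080008000b0005000e000a) (nat_lit 0x56508040000078) (nat_lit 16) Lb.e (@T16.mk En
    (@En.n l24077 (nat_lit 6592) (nat_lit 10) (nat_lit 10))
    (@En.n l25428 (nat_lit 6698) (nat_lit 1) (nat_lit 14))
    (@En.n l25429 (nat_lit 11520) (nat_lit 2) (nat_lit 5))
    (@En.n l25430 (nat_lit 6719) (nat_lit 3) (nat_lit 11))
    (@En.n l15969 (nat_lit 6719) (nat_lit 4) (nat_lit 8))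
    (@En.n l766 (nat_lit 12317) (nat_lit 5) (nat_lit 8))
    (@En.n l15994 (nat_lit 5003) (nat_lit 6) (nat_lit 3))
    (@En.n l387 (nat_lit 4764) (nat_lit 8) (nat_lit 11))
    (@En.n l8197 (nat_lit 6721) (nat_lit 8) (nat_lit 3))
    (@En.n l15997 (nat_lit 2130) (nat_lit 10) (nat_lit 13))
    (@En.n l25431 (nat_lit 1737) (nat_lit 11) (nat_lit 6))
    (@En.i (nat_lit 8441) (nat_lit 12) (nat_lit 13))
    (@En.n l2593 (nat_lit 6969) (nat_lit 13) (nat_lit 8))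
    (@En.n l24079 (nat_lit 6970) (nat_lit 10) (nat_lit 8))
    (@En.n l25432 (nat_lit 1924) (nat_lit 13) (nat_lit 5))
    (@En.n l3 (nat_lit 6596) (nat_lit 15) (nat_lit 2))))
  (@Cl.mk (nat_lit 0x2000d0005000b0003000a000a000d0005000a000300060006000b000e0006) (nat_lit 0x406000702000460) (nat_lit 16) Lb.e (@T16.mk En
    (@En.n l117 (nat_lit 6592) (nat_lit 4) (nat_lit 6))
    (@En.n l21790 (nat_lit 4153) (nat_lit 4) (nat_lit 14))
    (@En.n l16749 (nat_lit 8377) (nat_lit 2) (nat_lit 11))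
    (@En.n l17 (nat_lit 6956) (nat_lit 3) (nat_lit 6))
    (@En.n l13786 (nat_lit 6958) (nat_lit 12) (nat_lit 6))
    (@En.n l21790 (nat_lit 6613) (nat_lit 5) (nat_lit 3))
    (@En.i (nat_lit 2812) (nat_lit 0) (nat_lit 10))
    (@En.n l388 (nat_lit 9380) (nat_lit 7) (nat_lit 5))
    (@En.n l14646 (nat_lit 6601) (nat_lit 5) (nat_lit 13))
    (@En.n l21791 (nat_lit 6601) (nat_lit 6) (nat_lit 10))
    (@En.n l9771 (nat_lit 12032) (nat_lit 11) (nat_lit 10))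
    (@En.n l7 (nat_lit 6600) (nat_lit 11) (nat_lit 3))
    (@En.n l3142 (nat_lit 1636) (nat_lit 0) (nat_lit 11))
    (@En.i (nat_lit 6606) (nat_lit 14) (nat_lit 5))
    (@En.n l18882 (nat_lit 4451) (nat_lit 9) (nat_lit 13))
    (@En.n l11 (nat_lit 6597) (nat_lit 15) (nat_lit 2))))
  (@Cl.mk (nat_lit 0x400070007000c000b000700070004000b000500090009000c000500090009) (nat_lit 0x4600050000066) (nat_lit 16) Lb.e (@T16.mk En
    (@En.n l619 (nat_lit 6606) (nat_lit 7) (nat_lit 9))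
    (@En.i (nat_lit 6684) (nat_lit 1) (nat_lit 9))
    (@En.n l21835 (nat_lit 9378) (nat_lit 9) (nat_lit 5))
    (@En.n l25766 (nat_lit 6605) (nat_lit 6) (nat_lit 12))
    (@En.n l25767 (nat_lit 6605) (nat_lit 7) (nat_lit 9))
    (@En.n l25768 (nat_lit 12019) (nat_lit 10) (nat_lit 9))
    (@En.n l25769 (nat_lit 4917) (nat_lit 6) (nat_lit 5))
    (@En.n l25770 (nat_lit 6515) (nat_lit 0) (nat_lit 11))
    (@En.n l25771 (nat_lit 5103) (nat_lit 8) (nat_lit 4))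
    (@En.n l25772 (nat_lit 6721) (nat_lit 9) (nat_lit 7))
    (@En.n l25773 (nat_lit 2893) (nat_lit 1) (nat_lit 7))
    (@En.i (nat_lit 6593) (nat_lit 5) (nat_lit 11))
    (@En.n l24317 (nat_lit 8420) (nat_lit 13) (nat_lit 12))
    (@En.n l17 (nat_lit 6954) (nat_lit 9) (nat_lit 7))
    (@En.n l25769 (nat_lit 5296) (nat_lit 11) (nat_lit 7))
    (@En.n l12069 (nat_lit 4458) (nat_lit 15) (nat_lit 4))))
  (@Cl.mk (nat_lit 0x2000c0007000b000b00040007000b00050005000d000900050003000e0009) (nat_lit 0x109300400330091) (nat_lit 16) Lb.e (@T16.mk En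
    (@En.n l5 (nat_lit 6593) (nat_lit 14) (nat_lit 9))
    (@En.i (nat_lit 5355) (nat_lit 1) (nat_lit 14))
    (@En.i (nat_lit 6595) (nat_lit 2) (nat_lit 3))
    (@En.n l3531 (nat_lit 4945) (nat_lit 3) (nat_lit 5))
    (@En.i (nat_lit 6841) (nat_lit 4) (nat_lit 9))
    (@En.i (nat_lit 2851) (nat_lit 6) (nat_lit 13))
    (@En.i (nat_lit 5004) (nat_lit 11) (nat_lit 5))
    (@En.i (nat_lit 5096) (nat_lit 7) (nat_lit 5))
    (@En.n l639 (nat_lit 6415) (nat_lit 9) (nat_lit 11))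
    (@En.n l3531 (nat_lit 6982) (nat_lit 11) (nat_lit 7))
    (@En.n l10138 (nat_lit 5963) (nat_lit 10) (nat_lit 4))
    (@En.n l619 (nat_lit 6603) (nat_lit 12) (nat_lit 11))
    (@En.i (nat_lit 6688) (nat_lit 13) (nat_lit 11))
    (@En.n l1769 (nat_lit 9503) (nat_lit 14) (nat_lit 7))
    (@En.i (nat_lit 6593) (nat_lit 12) (nat_lit 12))
    (@En.n l18 (nat_lit 6599) (nat_lit 15) (nat_lit 2))))
  (@Cl.mk (nat_lit 0x2000d000a00060003000a000a000d0006000a000300060006000a000e0006) (nat_lit 0x440000702000460) (nat_lit 16) Lb.e (@T16.mk En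
    (@En.n l117 (nat_lit 6593) (nat_lit 4) (nat_lit 6))
    (@En.n l1329 (nat_lit 4152) (nat_lit 1) (nat_lit 14))
    (@En.n l2568 (nat_lit 6430) (nat_lit 2) (nat_lit 10))
    (@En.n l17 (nat_lit 6603) (nat_lit 10) (nat_lit 6))
    (@En.i (nat_lit 6965) (nat_lit 12) (nat_lit 6))
    (@En.n l2576 (nat_lit 6615) (nat_lit 5) (nat_lit 3))
    (@En.i (nat_lit 2792) (nat_lit 0) (nat_lit 10))
    (@En.n l5646 (nat_lit 9317) (nat_lit 7) (nat_lit 6))
    (@En.i (nat_lit 6602) (nat_lit 5) (nat_lit 13))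
    (@En.n l5 (nat_lit 6602) (nat_lit 6) (nat_lit 10))
    (@En.i (nat_lit 11010) (nat_lit 11) (nat_lit 10))
    (@En.i (nat_lit 6597) (nat_lit 11) (nat_lit 3))
    (@En.n l1253 (nat_lit 4939) (nat_lit 0) (nat_lit 6))
    (@En.i (nat_lit 6835) (nat_lit 14) (nat_lit 10))
    (@En.i (nat_lit 4456) (nat_lit 9) (nat_lit 13))
    (@En.n l11 (nat_lit 6600) (nat_lit 15) (nat_lit 2))))
  (@Cl.mk (nat_lit 0x2000b000e00070002000d0005000c0003000a000d000400090003000e0006) (nat_lit 0x570040608602000) (nat_lit 16) Lb.e (@T16.mk En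
    (@En.n l19773 (nat_lit 6597) (nat_lit 4) (nat_lit 6))
    (@En.n l3870 (nat_lit 8061) (nat_lit 1) (nat_lit 14))
    (@En.n l11003 (nat_lit 6614) (nat_lit 2) (nat_lit 3))
    (@En.n l19774 (nat_lit 2813) (nat_lit 3) (nat_lit 9))
    (@En.n l3858 (nat_lit 8996) (nat_lit 4) (nat_lit 4))
    (@En.n l7256 (nat_lit 13963) (nat_lit 5) (nat_lit 13))
    (@En.i (nat_lit 12241) (nat_lit 11) (nat_lit 10))
    (@En.n l17867 (nat_lit 6602) (nat_lit 7) (nat_lit 3))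
    (@En.n l11003 (nat_lit 1638) (nat_lit 9) (nat_lit 12))
    (@En.n l18031 (nat_lit 6607) (nat_lit 14) (nat_lit 5))
    (@En.n l7256 (nat_lit 4460) (nat_lit 11) (nat_lit 13))
    (@En.n l17 (nat_lit 6601) (nat_lit 11) (nat_lit 2))
    (@En.n l22758 (nat_lit 6591) (nat_lit 13) (nat_lit 7))
    (@En.i (nat_lit 5146) (nat_lit 4) (nat_lit 14))
    (@En.n l30433 (nat_lit 8412) (nat_lit 2) (nat_lit 11))
    (@En.n l3 (nat_lit 6601) (nat_lit 15) (nat_lit 2))))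
  (@Cl.mk (nat_lit 0x2000a000e00070002000d000b00060003000a000d000500090003000e0006) (nat_lit 0x470045008602080) (nat_lit 16) Lb.e (@T16.mk En
    (@En.n l18 (nat_lit 6600) (nat_lit 4) (nat_lit 6))
    (@En.n l1531 (nat_lit 8060) (nat_lit 1) (nat_lit 14))
    (@En.n l35521 (nat_lit 6616) (nat_lit 2) (nat_lit 3))
    (@En.i (nat_lit 2790) (nat_lit 3) (nat_lit 9))
    (@En.n l35522 (nat_lit 9311) (nat_lit 4) (nat_lit 5))
    (@En.n l3870 (nat_lit 13645) (nat_lit 5) (nat_lit 13))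
    (@En.n l33854 (nat_lit 11009) (nat_lit 11) (nat_lit 10))
    (@En.n l14646 (nat_lit 6601) (nat_lit 7) (nat_lit 3))
    (@En.n l1253 (nat_lit 4941) (nat_lit 8) (nat_lit 6))
    (@En.n l4106 (nat_lit 6839) (nat_lit 14) (nat_lit 11))
    (@En.n l31604 (nat_lit 4459) (nat_lit 11) (nat_lit 13))
    (@En.n l11 (nat_lit 6602) (nat_lit 11) (nat_lit 2))
    (@En.n l35523 (nat_lit 6594) (nat_lit 13) (nat_lit 7))
    (@En.n l35524 (nat_lit 5145) (nat_lit 1) (nat_lit 14))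
    (@En.n l2568 (nat_lit 6434) (nat_lit 2) (nat_lit 10))
    (@En.n l17 (nat_lit 6602) (nat_lit 15) (nat_lit 2))))
  (@Cl.mk (nat_lit 0x2000d0007000b00030006000a000e00050002000d000900060003000e000a) (nat_lit 0x802002500450011) (nat_lit 16) Lb.e (@T16.mk En
    (@En.n l5 (nat_lit 6600) (nat_lit 10) (nat_lit 10))
    (@En.i (nat_lit 5347) (nat_lit 1) (nat_lit 14))
    (@En.i (nat_lit 6956) (nat_lit 11) (nat_lit 3))
    (@En.n l1253 (nat_lit 4942) (nat_lit 3) (nat_lit 6))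
    (@En.i (nat_lit 6838) (nat_lit 14) (nat_lit 9))
    (@En.i (nat_lit 4454) (nat_lit 6) (nat_lit 13))
    (@En.n l11 (nat_lit 6603) (nat_lit 6) (nat_lit 2))
    (@En.n l117 (nat_lit 6599) (nat_lit 7) (nat_lit 5))
    (@En.i (nat_lit 5135) (nat_lit 9) (nat_lit 14))
    (@En.n l2568 (nat_lit 6424) (nat_lit 2) (nat_lit 10))
    (@En.i (nat_lit 6963) (nat_lit 12) (nat_lit 6))
    (@En.n l2576 (nat_lit 6694) (nat_lit 4) (nat_lit 3))
    (@En.i (nat_lit 3362) (nat_lit 0) (nat_lit 11))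
    (@En.i (nat_lit 9502) (nat_lit 14) (nat_lit 7))
    (@En.i (nat_lit 6600) (nat_lit 8) (nat_lit 13))
    (@En.n l18 (nat_lit 6603) (nat_lit 15) (nat_lit 2))))
  (@Cl.mk (nat_lit 0x20007000c000b000800080004000c0005000a0009000400080008000e0006) (nat_lit 0x66210707101400) (nat_lit 16) Lb.e (@T16.mk En
    (@En.n l33072 (nat_lit 5608) (nat_lit 6) (nat_lit 6))
    (@En.n l16259 (nat_lit 11044) (nat_lit 1) (nat_lit 14))
    (@En.n l33073 (nat_lit 8062) (nat_lit 8) (nat_lit 8))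
    (@En.n l10529 (nat_lit 4429) (nat_lit 3) (nat_lit 8))
    (@En.n l28623 (nat_lit 11547) (nat_lit 4) (nat_lit 4))
    (@En.i (nat_lit 5572) (nat_lit 5) (nat_lit 9))
    (@En.n l33074 (nat_lit 11411) (nat_lit 1) (nat_lit 10))
    (@En.n l32573 (nat_lit 5709) (nat_lit 7) (nat_lit 5))
    (@En.n l30908 (nat_lit 6520) (nat_lit 9) (nat_lit 12))
    (@En.n l12552 (nat_lit 5166) (nat_lit 9) (nat_lit 4))
    (@En.n l61 (nat_lit 5718) (nat_lit 11) (nat_lit 8))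
    (@En.n l764 (nat_lit 6576) (nat_lit 12) (nat_lit 8))
    (@En.n l10529 (nat_lit 5720) (nat_lit 13) (nat_lit 11))
    (@En.n l1175 (nat_lit 8113) (nat_lit 14) (nat_lit 12))
    (@En.n l33075 (nat_lit 6598) (nat_lit 13) (nat_lit 7))
    (@En.n l3 (nat_lit 6604) (nat_lit 15) (nat_lit 2))))
  (@Cl.mk (nat_lit 0x2000c000b000800080004000c00050009000c0004000800080004000e0007) (nat_lit 0x67120507a054010) (nat_lit 16) Lb.e (@T16.mk En
    (@En.n l26927 (nat_lit 6598) (nat_lit 14) (nat_lit 7))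
    (@En.n l35577 (nat_lit 6604) (nat_lit 1) (nat_lit 14))
    (@En.n l6444 (nat_lit 6660) (nat_lit 2) (nat_lit 4))
    (@En.n l1353 (nat_lit 6607) (nat_lit 8) (nat_lit 8))
    (@En.n l35578 (nat_lit 6683) (nat_lit 4) (nat_lit 8))
    (@En.n l35579 (nat_lit 9377) (nat_lit 5) (nat_lit 4))
    (@En.n l11936 (nat_lit 13996) (nat_lit 6) (nat_lit 12))
    (@En.n l2349 (nat_lit 12017) (nat_lit 1) (nat_lit 9))
    (@En.n l35580 (nat_lit 4970) (nat_lit 8) (nat_lit 5))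
    (@En.n l33597 (nat_lit 6518) (nat_lit 10) (nat_lit 12))
    (@En.n l3727 (nat_lit 5107) (nat_lit 10) (nat_lit 4))
    (@En.n l2345 (nat_lit 6720) (nat_lit 8) (nat_lit 8))
    (@En.n l3098 (nat_lit 2890) (nat_lit 13) (nat_lit 8))
    (@En.n l2346 (nat_lit 6594) (nat_lit 14) (nat_lit 11))
    (@En.n l4990 (nat_lit 8406) (nat_lit 3) (nat_lit 12))
    (@En.n l107 (nat_lit 6605) (nat_lit 15) (nat_lit 2))))
  (@Cl.mk (nat_lit 0x20005000b0006000a000a000d00050009000300060006000b000a000e0007) (nat_lit 0x70780050003570) (nat_lit 16) Lb.e (@T16.mk En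
    (@En.n l117 (nat_lit 6598) (nat_lit 10) (nat_lit 7))
    (@En.n l8 (nat_lit 6597) (nat_lit 1) (nat_lit 14))
    (@En.i (nat_lit 6600) (nat_lit 2) (nat_lit 10))
    (@En.n l8183 (nat_lit 8352) (nat_lit 3) (nat_lit 11))
    (@En.n l17 (nat_lit 6955) (nat_lit 4) (nat_lit 6))
    (@En.i (nat_lit 6957) (nat_lit 5) (nat_lit 6))
    (@En.n l20014 (nat_lit 6609) (nat_lit 6) (nat_lit 3))
    (@En.i (nat_lit 2805) (nat_lit 0) (nat_lit 9))
    (@En.n l30288 (nat_lit 9379) (nat_lit 8) (nat_lit 5))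
    (@En.n l21951 (nat_lit 6607) (nat_lit 10) (nat_lit 13))
    (@En.n l21952 (nat_lit 6607) (nat_lit 11) (nat_lit 10))
    (@En.n l30289 (nat_lit 12030) (nat_lit 12) (nat_lit 10))
    (@En.n l1603 (nat_lit 4873) (nat_lit 13) (nat_lit 6))
    (@En.i (nat_lit 6944) (nat_lit 14) (nat_lit 11))
    (@En.i (nat_lit 2540) (nat_lit 13) (nat_lit 5))
    (@En.n l11 (nat_lit 6606) (nat_lit 15) (nat_lit 2))))
  (@Cl.mk (nat_lit 0x20005000c0006000a000d000400080003000e00060002000b000a000e0008) (nat_lit 0x807b030c004582) (nat_lit 16) Lb.e (@T16.mk En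
    (@En.n l17 (nat_lit 6605) (nat_lit 12) (nat_lit 8))
    (@En.n l2428 (nat_lit 6601) (nat_lit 13) (nat_lit 14))
    (@En.n l28502 (nat_lit 6602) (nat_lit 14) (nat_lit 10))
    (@En.n l2373 (nat_lit 8410) (nat_lit 3) (nat_lit 11))
    (@En.n l107 (nat_lit 6607) (nat_lit 4) (nat_lit 2))
    (@En.n l28503 (nat_lit 6606) (nat_lit 5) (nat_lit 6))
    (@En.n l16588 (nat_lit 8062) (nat_lit 7) (nat_lit 14))
    (@En.n l24983 (nat_lit 6608) (nat_lit 7) (nat_lit 3))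
    (@En.n l28502 (nat_lit 2811) (nat_lit 3) (nat_lit 8))
    (@En.n l16589 (nat_lit 9376) (nat_lit 9) (nat_lit 4))
    (@En.i (nat_lit 13965) (nat_lit 5) (nat_lit 13))
    (@En.n l2374 (nat_lit 12240) (nat_lit 12) (nat_lit 10))
    (@En.n l25420 (nat_lit 4938) (nat_lit 13) (nat_lit 6))
    (@En.n l25419 (nat_lit 6943) (nat_lit 9) (nat_lit 12))
    (@En.n l9167 (nat_lit 2538) (nat_lit 13) (nat_lit 5))
    (@En.n l725 (nat_lit 6607) (nat_lit 15) (nat_lit 2))))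
noncomputable def a413 : T16 Cl := @T16.mk Cl
  (@Cl.mk (nat_lit 0x20005000b0006000a000d000700050003000e00060002000b000a000e0009) (nat_lit 0x2070000c007766) (nat_lit 16) Lb.e (@T16.mk En
    (@En.n l3038 (nat_lit 6610) (nat_lit 12) (nat_lit 9))
    (@En.n l5610 (nat_lit 6614) (nat_lit 13) (nat_lit 14))
    (@En.n l18808 (nat_lit 6616) (nat_lit 14) (nat_lit 10))
    (@En.n l5853 (nat_lit 8396) (nat_lit 3) (nat_lit 11))
    (@En.n l3 (nat_lit 6608) (nat_lit 4) (nat_lit 2))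
    (@En.i (nat_lit 6609) (nat_lit 5) (nat_lit 6))
    (@En.i (nat_lit 6291) (nat_lit 7) (nat_lit 14))
    (@En.n l14370 (nat_lit 6607) (nat_lit 7) (nat_lit 3))
    (@En.i (nat_lit 2518) (nat_lit 8) (nat_lit 5))
    (@En.n l947 (nat_lit 9406) (nat_lit 4) (nat_lit 7))
    (@En.n l2036 (nat_lit 13985) (nat_lit 5) (nat_lit 13))
    (@En.n l5853 (nat_lit 12035) (nat_lit 12) (nat_lit 10))
    (@En.n l15191 (nat_lit 1885) (nat_lit 13) (nat_lit 6))
    (@En.n l2036 (nat_lit 1443) (nat_lit 9) (nat_lit 11))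
    (@En.i (nat_lit 2534) (nat_lit 13) (nat_lit 5))
    (@En.n l7 (nat_lit 6608) (nat_lit 15) (nat_lit 2))))
  (@Cl.mk (nat_lit 0x20005000a0006000a000a000d00080006000300060006000b000a000e0008) (nat_lit 0x10781300004655) (nat_lit 16) Lb.e (@T16.mk En
    (@En.n l21709 (nat_lit 6611) (nat_lit 10) (nat_lit 8))
    (@En.n l21710 (nat_lit 6613) (nat_lit 1) (nat_lit 14))
    (@En.n l7180 (nat_lit 6615) (nat_lit 2) (nat_lit 10))
    (@En.n l897 (nat_lit 8376) (nat_lit 3) (nat_lit 11))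
    (@En.n l2898 (nat_lit 6612) (nat_lit 4) (nat_lit 6))
    (@En.n l899 (nat_lit 7683) (nat_lit 5) (nat_lit 6))
    (@En.n l8446 (nat_lit 6606) (nat_lit 6) (nat_lit 3))
    (@En.i (nat_lit 2066) (nat_lit 0) (nat_lit 6))
    (@En.n l8447 (nat_lit 9409) (nat_lit 9) (nat_lit 8))
    (@En.n l476 (nat_lit 6608) (nat_lit 10) (nat_lit 13))
    (@En.n l152 (nat_lit 6608) (nat_lit 11) (nat_lit 10))
    (@En.n l5853 (nat_lit 12029) (nat_lit 12) (nat_lit 10))
    (@En.n l15191 (nat_lit 1884) (nat_lit 13) (nat_lit 6))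
    (@En.n l649 (nat_lit 1406) (nat_lit 14) (nat_lit 10))
    (@En.i (nat_lit 2536) (nat_lit 13) (nat_lit 5))
    (@En.n l7 (nat_lit 6609) (nat_lit 15) (nat_lit 2))))
  (@Cl.mk (nat_lit 0x2000c000b000900090004000a00050009000c0007000700060004000e0007) (nat_lit 0xa852040000000c0) (nat_lit 16) Lb.e (@T16.mk En
    (@En.n l43223 (nat_lit 6611) (nat_lit 14) (nat_lit 7))
    (@En.n l28219 (nat_lit 5912) (nat_lit 1) (nat_lit 14))
    (@En.n l43224 (nat_lit 6605) (nat_lit 2) (nat_lit 4))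
    (@En.i (nat_lit 6687) (nat_lit 3) (nat_lit 6))
    (@En.n l11512 (nat_lit 6608) (nat_lit 9) (nat_lit 7))
    (@En.n l22541 (nat_lit 9405) (nat_lit 5) (nat_lit 7))
    (@En.n l28455 (nat_lit 13983) (nat_lit 6) (nat_lit 12))
    (@En.n l43225 (nat_lit 12058) (nat_lit 10) (nat_lit 9))
    (@En.n l43226 (nat_lit 1881) (nat_lit 8) (nat_lit 5))
    (@En.n l22542 (nat_lit 1444) (nat_lit 10) (nat_lit 10))
    (@En.n l5933 (nat_lit 6815) (nat_lit 10) (nat_lit 4))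
    (@En.n l43227 (nat_lit 6718) (nat_lit 7) (nat_lit 9))
    (@En.n l22545 (nat_lit 6824) (nat_lit 13) (nat_lit 9))
    (@En.n l43228 (nat_lit 6682) (nat_lit 14) (nat_lit 11))
    (@En.n l22542 (nat_lit 8397) (nat_lit 3) (nat_lit 12))
    (@En.n l3 (nat_lit 6610) (nat_lit 15) (nat_lit 2))))
  (@Cl.mk (nat_lit 0x400070007000c000b0008000800040009000500090009000c000800080007) (nat_lit 0x7742040011540) (nat_lit 16) Lb.e (@T16.mk En
    (@En.n l37475 (nat_lit 6617) (nat_lit 0) (nat_lit 7))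
    (@En.n l37476 (nat_lit 6609) (nat_lit 8) (nat_lit 8))
    (@En.n l15622 (nat_lit 9413) (nat_lit 10) (nat_lit 8))
    (@En.n l37475 (nat_lit 6610) (nat_lit 6) (nat_lit 12))
    (@En.n l37477 (nat_lit 6610) (nat_lit 7) (nat_lit 9))
    (@En.n l37478 (nat_lit 12057) (nat_lit 10) (nat_lit 9))
    (@En.n l37479 (nat_lit 1880) (nat_lit 6) (nat_lit 5))
    (@En.n l26536 (nat_lit 1297) (nat_lit 0) (nat_lit 9))
    (@En.n l37480 (nat_lit 6814) (nat_lit 8) (nat_lit 4))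
    (@En.n l37481 (nat_lit 6700) (nat_lit 8) (nat_lit 8))
    (@En.n l37482 (nat_lit 6822) (nat_lit 1) (nat_lit 8))
    (@En.i (nat_lit 6692) (nat_lit 5) (nat_lit 11))
    (@En.n l37483 (nat_lit 8399) (nat_lit 13) (nat_lit 12))
    (@En.n l17 (nat_lit 6696) (nat_lit 9) (nat_lit 7))
    (@En.i (nat_lit 6566) (nat_lit 11) (nat_lit 7))
    (@En.n l936 (nat_lit 6598) (nat_lit 15) (nat_lit 4))))
  (@Cl.mk (nat_lit 0x2000500090006000e000a0002000d0009000700030006000b000a000e0007) (nat_lit 0x30280240009540) (nat_lit 16) Lb.e (@T16.mk En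
    (@En.n l117 (nat_lit 6696) (nat_lit 6) (nat_lit 7))
    (@En.n l8 (nat_lit 6695) (nat_lit 1) (nat_lit 14))
    (@En.i (nat_lit 6694) (nat_lit 2) (nat_lit 10))
    (@En.n l2728 (nat_lit 8370) (nat_lit 3) (nat_lit 11))
    (@En.n l10695 (nat_lit 7309) (nat_lit 4) (nat_lit 6))
    (@En.n l936 (nat_lit 6955) (nat_lit 5) (nat_lit 3))
    (@En.i (nat_lit 758) (nat_lit 6) (nat_lit 7))
    (@En.n l936 (nat_lit 9415) (nat_lit 14) (nat_lit 9))
    (@En.n l1021 (nat_lit 6609) (nat_lit 9) (nat_lit 13))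
    (@En.n l18 (nat_lit 6612) (nat_lit 9) (nat_lit 2))
    (@En.n l1022 (nat_lit 6609) (nat_lit 11) (nat_lit 10))
    (@En.n l420 (nat_lit 11431) (nat_lit 12) (nat_lit 14))
    (@En.n l10696 (nat_lit 4994) (nat_lit 13) (nat_lit 6))
    (@En.n l3286 (nat_lit 1399) (nat_lit 14) (nat_lit 9))
    (@En.n l1026 (nat_lit 6776) (nat_lit 13) (nat_lit 5))
    (@En.n l11 (nat_lit 6612) (nat_lit 15) (nat_lit 2))))
  (@Cl.mk (nat_lit 0x2000d0005000a0003000a000a000d00090006000300060006000b000e0007) (nat_lit 0x402000830000540) (nat_lit 16) Lb.e (@T16.mk En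
    (@En.n l9283 (nat_lit 6693) (nat_lit 4) (nat_lit 7))
    (@En.i (nat_lit 4146) (nat_lit 4) (nat_lit 14))
    (@En.n l3224 (nat_lit 8373) (nat_lit 2) (nat_lit 11))
    (@En.n l9284 (nat_lit 6695) (nat_lit 3) (nat_lit 6))
    (@En.n l3226 (nat_lit 7682) (nat_lit 12) (nat_lit 6))
    (@En.n l9285 (nat_lit 6597) (nat_lit 5) (nat_lit 3))
    (@En.n l1034 (nat_lit 2479) (nat_lit 0) (nat_lit 6))
    (@En.n l3229 (nat_lit 9410) (nat_lit 12) (nat_lit 9))
    (@En.n l8818 (nat_lit 6614) (nat_lit 5) (nat_lit 13))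
    (@En.n l7327 (nat_lit 6614) (nat_lit 6) (nat_lit 10))
    (@En.n l9286 (nat_lit 12031) (nat_lit 11) (nat_lit 10))
    (@En.n l9287 (nat_lit 6615) (nat_lit 11) (nat_lit 3))
    (@En.n l9288 (nat_lit 1631) (nat_lit 0) (nat_lit 10))
    (@En.n l9289 (nat_lit 6609) (nat_lit 14) (nat_lit 5))
    (@En.n l9290 (nat_lit 6617) (nat_lit 9) (nat_lit 13))
    (@En.n l17 (nat_lit 6613) (nat_lit 15) (nat_lit 2))))
  (@Cl.mk (nat_lit 0x2000b000e00080002000d0005000b0003000a000d000800050003000e0006) (nat_lit 0x655040208730060) (nat_lit 16) Lb.e (@T16.mk En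
    (@En.n l16123 (nat_lit 6613) (nat_lit 4) (nat_lit 6))
    (@En.n l20947 (nat_lit 6289) (nat_lit 1) (nat_lit 14))
    (@En.n l18001 (nat_lit 6601) (nat_lit 2) (nat_lit 3))
    (@En.i (nat_lit 2519) (nat_lit 3) (nat_lit 5))
    (@En.n l38 (nat_lit 9407) (nat_lit 4) (nat_lit 8))
    (@En.i (nat_lit 13644) (nat_lit 5) (nat_lit 13))
    (@En.n l1014 (nat_lit 12245) (nat_lit 11) (nat_lit 10))
    (@En.n l11987 (nat_lit 6616) (nat_lit 7) (nat_lit 3))
    (@En.i (nat_lit 1634) (nat_lit 9) (nat_lit 11))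
    (@En.n l2155 (nat_lit 6608) (nat_lit 14) (nat_lit 5))
    (@En.n l20948 (nat_lit 6687) (nat_lit 11) (nat_lit 13))
    (@En.n l3 (nat_lit 6614) (nat_lit 11) (nat_lit 2))
    (@En.n l20949 (nat_lit 6699) (nat_lit 13) (nat_lit 8))
    (@En.n l4484 (nat_lit 4149) (nat_lit 4) (nat_lit 14))
    (@En.i (nat_lit 8378) (nat_lit 2) (nat_lit 11))
    (@En.n l17 (nat_lit 6614) (nat_lit 15) (nat_lit 2))))
  (@Cl.mk (nat_lit 0x2000d000900060003000a000a000d00090007000300060006000a000e0007) (nat_lit 0x310000740000540) (nat_lit 16) Lb.e (@T16.mk En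
    (@En.n l117 (nat_lit 6692) (nat_lit 4) (nat_lit 7))
    (@En.n l21792 (nat_lit 4147) (nat_lit 1) (nat_lit 14))
    (@En.n l2238 (nat_lit 6432) (nat_lit 2) (nat_lit 10))
    (@En.n l17 (nat_lit 6694) (nat_lit 3) (nat_lit 6))
    (@En.n l21793 (nat_lit 4443) (nat_lit 12) (nat_lit 6))
    (@En.n l936 (nat_lit 6600) (nat_lit 5) (nat_lit 3))
    (@En.i (nat_lit 2523) (nat_lit 0) (nat_lit 7))
    (@En.n l7290 (nat_lit 9411) (nat_lit 12) (nat_lit 9))
    (@En.n l21001 (nat_lit 6616) (nat_lit 5) (nat_lit 13))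
    (@En.n l19467 (nat_lit 6616) (nat_lit 6) (nat_lit 10))
    (@En.n l9213 (nat_lit 11263) (nat_lit 11) (nat_lit 10))
    (@En.n l3160 (nat_lit 6613) (nat_lit 11) (nat_lit 3))
    (@En.n l712 (nat_lit 1874) (nat_lit 0) (nat_lit 6))
    (@En.n l14778 (nat_lit 1461) (nat_lit 14) (nat_lit 9))
    (@En.n l3886 (nat_lit 6684) (nat_lit 9) (nat_lit 13))
    (@En.n l11 (nat_lit 6615) (nat_lit 15) (nat_lit 2))))
  (@Cl.mk (nat_lit 0x2000a000e00080002000d000a00060003000a000d000800060003000e0006) (nat_lit 0x655032008630080) (nat_lit 16) Lb.e (@T16.mk En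
    (@En.n l28762 (nat_lit 6615) (nat_lit 4) (nat_lit 6))
    (@En.n l36914 (nat_lit 6290) (nat_lit 1) (nat_lit 14))
    (@En.n l8273 (nat_lit 6602) (nat_lit 2) (nat_lit 3))
    (@En.n l8163 (nat_lit 2520) (nat_lit 3) (nat_lit 6))
    (@En.n l1013 (nat_lit 9408) (nat_lit 4) (nat_lit 8))
    (@En.i (nat_lit 13642) (nat_lit 5) (nat_lit 13))
    (@En.n l11854 (nat_lit 11264) (nat_lit 11) (nat_lit 10))
    (@En.n l8163 (nat_lit 6614) (nat_lit 7) (nat_lit 3))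
    (@En.i (nat_lit 1875) (nat_lit 8) (nat_lit 6))
    (@En.n l18516 (nat_lit 1465) (nat_lit 14) (nat_lit 10))
    (@En.n l35582 (nat_lit 6683) (nat_lit 11) (nat_lit 13))
    (@En.n l3 (nat_lit 6616) (nat_lit 11) (nat_lit 2))
    (@En.n l36915 (nat_lit 6682) (nat_lit 13) (nat_lit 8))
    (@En.n l36914 (nat_lit 4150) (nat_lit 1) (nat_lit 14))
    (@En.i (nat_lit 6435) (nat_lit 2) (nat_lit 10))
    (@En.n l17 (nat_lit 6616) (nat_lit 15) (nat_lit 2))))
  (@Cl.mk (nat_lit 0x300060006000c000a0007000d0004000900030006000a000a000d00090007) (nat_lit 0x7603010054440) (nat_lit 16) Lb.e (@T16.mk En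
    (@En.n l2118 (nat_lit 2060) (nat_lit 0) (nat_lit 7))
    (@En.n l15299 (nat_lit 9412) (nat_lit 11) (nat_lit 9))
    (@En.i (nat_lit 6687) (nat_lit 5) (nat_lit 13))
    (@En.n l624 (nat_lit 6687) (nat_lit 6) (nat_lit 10))
    (@En.n l15300 (nat_lit 10824) (nat_lit 4) (nat_lit 10))
    (@En.n l15301 (nat_lit 6609) (nat_lit 12) (nat_lit 6))
    (@En.n l15302 (nat_lit 6684) (nat_lit 6) (nat_lit 3))
    (@En.n l15303 (nat_lit 1294) (nat_lit 0) (nat_lit 9))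
    (@En.n l6152 (nat_lit 6711) (nat_lit 8) (nat_lit 4))
    (@En.n l50 (nat_lit 6729) (nat_lit 10) (nat_lit 13))
    (@En.n l2579 (nat_lit 6823) (nat_lit 1) (nat_lit 7))
    (@En.n l15304 (nat_lit 5394) (nat_lit 4) (nat_lit 10))
    (@En.n l15305 (nat_lit 8436) (nat_lit 13) (nat_lit 12))
    (@En.n l15306 (nat_lit 6772) (nat_lit 10) (nat_lit 6))
    (@En.n l2125 (nat_lit 4445) (nat_lit 12) (nat_lit 6))
    (@En.n l15307 (nat_lit 4451) (nat_lit 15) (nat_lit 3))))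
  (@Cl.mk (nat_lit 0x2000b0006000c000a000a000500040009000c00060006000a0004000e0007) (nat_lit 0x60871007a004080) (nat_lit 16) Lb.e (@T16.mk En
    (@En.n l26927 (nat_lit 5113) (nat_lit 14) (nat_lit 7))
    (@En.n l37518 (nat_lit 6477) (nat_lit 1) (nat_lit 14))
    (@En.n l403 (nat_lit 6674) (nat_lit 2) (nat_lit 4))
    (@En.n l1353 (nat_lit 6677) (nat_lit 3) (nat_lit 10))
    (@En.n l18 (nat_lit 5119) (nat_lit 10) (nat_lit 6))
    (@En.n l6081 (nat_lit 9484) (nat_lit 5) (nat_lit 6))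
    (@En.i (nat_lit 13884) (nat_lit 6) (nat_lit 12))
    (@En.i (nat_lit 8803) (nat_lit 8) (nat_lit 9))
    (@En.n l14462 (nat_lit 5108) (nat_lit 8) (nat_lit 4))
    (@En.n l2346 (nat_lit 6594) (nat_lit 9) (nat_lit 5))
    (@En.n l37519 (nat_lit 5025) (nat_lit 6) (nat_lit 10))
    (@En.n l21026 (nat_lit 6644) (nat_lit 12) (nat_lit 10))
    (@En.n l3727 (nat_lit 2168) (nat_lit 13) (nat_lit 12))
    (@En.n l2346 (nat_lit 5357) (nat_lit 14) (nat_lit 6))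
    (@En.n l37520 (nat_lit 6271) (nat_lit 12) (nat_lit 11))
    (@En.n l107 (nat_lit 6618) (nat_lit 15) (nat_lit 2))))
  (@Cl.mk (nat_lit 0x200060005000a000a000d0007000b000300060006000a0005000b000e0009) (nat_lit 0x110400040667) (nat_lit 16) Lb.e (@T16.mk En
    (@En.n l30069 (nat_lit 5113) (nat_lit 9) (nat_lit 9))
    (@En.n l30070 (nat_lit 1874) (nat_lit 4) (nat_lit 14))
    (@En.n l1318 (nat_lit 2171) (nat_lit 2) (nat_lit 11))
    (@En.n l4276 (nat_lit 7180) (nat_lit 3) (nat_lit 5))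
    (@En.n l15673 (nat_lit 12136) (nat_lit 4) (nat_lit 10))
    (@En.n l30071 (nat_lit 6630) (nat_lit 5) (nat_lit 6))
    (@En.n l3106 (nat_lit 8160) (nat_lit 6) (nat_lit 6))
    (@En.n l30072 (nat_lit 6621) (nat_lit 7) (nat_lit 3))
    (@En.n l9233 (nat_lit 2763) (nat_lit 0) (nat_lit 11))
    (@En.n l30073 (nat_lit 10018) (nat_lit 10) (nat_lit 7))
    (@En.n l3 (nat_lit 5119) (nat_lit 11) (nat_lit 13))
    (@En.n l527 (nat_lit 5119) (nat_lit 12) (nat_lit 10))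
    (@En.n l4276 (nat_lit 7679) (nat_lit 13) (nat_lit 10))
    (@En.n l12226 (nat_lit 5112) (nat_lit 14) (nat_lit 5))
    (@En.n l30069 (nat_lit 5395) (nat_lit 6) (nat_lit 6))
    (@En.n l50 (nat_lit 6619) (nat_lit 15) (nat_lit 2))))
  (@Cl.mk (nat_lit 0x200060005000a000d000900070003000e00060002000a0007000b000e0009) (nat_lit 0x40030050693) (nat_lit 16) Lb.e (@T16.mk En
    (@En.n l217 (nat_lit 6674) (nat_lit 11) (nat_lit 9))
    (@En.n l9320 (nat_lit 4941) (nat_lit 12) (nat_lit 14))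
    (@En.n l9321 (nat_lit 2176) (nat_lit 2) (nat_lit 11))
    (@En.n l9322 (nat_lit 1712) (nat_lit 14) (nat_lit 7))
    (@En.n l9320 (nat_lit 12138) (nat_lit 4) (nat_lit 10))
    (@En.n l107 (nat_lit 6620) (nat_lit 5) (nat_lit 2))
    (@En.n l9323 (nat_lit 6621) (nat_lit 6) (nat_lit 6))
    (@En.n l9324 (nat_lit 7047) (nat_lit 8) (nat_lit 14))
    (@En.n l763 (nat_lit 5119) (nat_lit 8) (nat_lit 3))
    (@En.i (nat_lit 1358) (nat_lit 3) (nat_lit 7))
    (@En.n l9325 (nat_lit 9530) (nat_lit 11) (nat_lit 9))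
    (@En.n l1567 (nat_lit 13845) (nat_lit 5) (nat_lit 13))
    (@En.n l9322 (nat_lit 8257) (nat_lit 13) (nat_lit 10))
    (@En.n l2096 (nat_lit 6626) (nat_lit 14) (nat_lit 5))
    (@En.n l847 (nat_lit 6675) (nat_lit 8) (nat_lit 6))
    (@En.n l50 (nat_lit 6620) (nat_lit 15) (nat_lit 2))))
  (@Cl.mk (nat_lit 0x200060005000a000a000d000a0008000300060006000a0006000b000e0008) (nat_lit 0x116100050584) (nat_lit 16) Lb.e (@T16.mk En
    (@En.n l2491 (nat_lit 5965) (nat_lit 9) (nat_lit 8))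
    (@En.i (nat_lit 4939) (nat_lit 4) (nat_lit 14))
    (@En.n l19876 (nat_lit 2178) (nat_lit 2) (nat_lit 11))
    (@En.n l21721 (nat_lit 1710) (nat_lit 3) (nat_lit 6))
    (@En.i (nat_lit 12139) (nat_lit 4) (nat_lit 10))
    (@En.n l725 (nat_lit 6622) (nat_lit 5) (nat_lit 6))
    (@En.n l3340 (nat_lit 7152) (nat_lit 6) (nat_lit 6))
    (@En.n l21722 (nat_lit 6619) (nat_lit 7) (nat_lit 3))
    (@En.n l4021 (nat_lit 1359) (nat_lit 0) (nat_lit 8))
    (@En.n l21723 (nat_lit 9517) (nat_lit 10) (nat_lit 10))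
    (@En.n l16614 (nat_lit 6620) (nat_lit 11) (nat_lit 13))
    (@En.n l21724 (nat_lit 6620) (nat_lit 12) (nat_lit 10))
    (@En.n l5366 (nat_lit 8258) (nat_lit 13) (nat_lit 10))
    (@En.n l21725 (nat_lit 6623) (nat_lit 14) (nat_lit 5))
    (@En.n l3100 (nat_lit 5967) (nat_lit 6) (nat_lit 6))
    (@En.n l28 (nat_lit 6621) (nat_lit 15) (nat_lit 2))))
  (@Cl.mk (nat_lit 0x200060005000e000a0002000d000b000900030006000a0005000b000e0007) (nat_lit 0xa102710030370) (nat_lit 16) Lb.e (@T16.mk En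
    (@En.n l2491 (nat_lit 5962) (nat_lit 5) (nat_lit 7))
    (@En.i (nat_lit 4942) (nat_lit 7) (nat_lit 14))
    (@En.n l19876 (nat_lit 2482) (nat_lit 2) (nat_lit 11))
    (@En.n l117 (nat_lit 1709) (nat_lit 3) (nat_lit 5))
    (@En.i (nat_lit 6265) (nat_lit 4) (nat_lit 10))
    (@En.n l2381 (nat_lit 6130) (nat_lit 5) (nat_lit 6))
    (@En.n l19877 (nat_lit 6630) (nat_lit 6) (nat_lit 3))
    (@En.n l4021 (nat_lit 1363) (nat_lit 0) (nat_lit 9))
    (@En.n l14823 (nat_lit 9518) (nat_lit 9) (nat_lit 11))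
    (@En.i (nat_lit 6621) (nat_lit 10) (nat_lit 13))
    (@En.n l17 (nat_lit 6622) (nat_lit 10) (nat_lit 2))
    (@En.n l1353 (nat_lit 6621) (nat_lit 12) (nat_lit 10))
    (@En.n l1997 (nat_lit 6508) (nat_lit 13) (nat_lit 14))
    (@En.n l19878 (nat_lit 6625) (nat_lit 14) (nat_lit 5))
    (@En.n l3100 (nat_lit 5966) (nat_lit 3) (nat_lit 6))
    (@En.n l28 (nat_lit 6622) (nat_lit 15) (nat_lit 2))))
  (@Cl.mk (nat_lit 0x20005000a000a000d000a0007000300060006000d0006000b0003000e0009) (nat_lit 0x40000805092) (nat_lit 16) Lb.e (@T16.mk En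
    (@En.n l10718 (nat_lit 6807) (nat_lit 14) (nat_lit 9))
    (@En.n l10719 (nat_lit 6621) (nat_lit 1) (nat_lit 14))
    (@En.n l10720 (nat_lit 6624) (nat_lit 2) (nat_lit 3))
    (@En.n l393 (nat_lit 2481) (nat_lit 3) (nat_lit 11))
    (@En.n l3413 (nat_lit 495) (nat_lit 4) (nat_lit 6))
    (@En.n l5175 (nat_lit 11532) (nat_lit 6) (nat_lit 13))
    (@En.n l10721 (nat_lit 6625) (nat_lit 6) (nat_lit 6))
    (@En.n l4968 (nat_lit 7151) (nat_lit 7) (nat_lit 6))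
    (@En.n l10722 (nat_lit 5112) (nat_lit 8) (nat_lit 3))
    (@En.n l10723 (nat_lit 1334) (nat_lit 0) (nat_lit 7))
    (@En.n l601 (nat_lit 9516) (nat_lit 11) (nat_lit 10))
    (@En.n l1327 (nat_lit 6626) (nat_lit 12) (nat_lit 13))
    (@En.n l27 (nat_lit 6626) (nat_lit 13) (nat_lit 10))
    (@En.n l10723 (nat_lit 8260) (nat_lit 14) (nat_lit 10))
    (@En.i (nat_lit 3466) (nat_lit 13) (nat_lit 5))
    (@En.n l3 (nat_lit 6623) (nat_lit 15) (nat_lit 2))))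
noncomputable def a414 : T16 Cl := @T16.mk Cl
  (@Cl.mk (nat_lit 0x20006000a000a000d00090007000300060006000d000a00070003000e0009) (nat_lit 0x370000960096) (nat_lit 16) Lb.e (@T16.mk En
    (@En.n l217 (nat_lit 6805) (nat_lit 14) (nat_lit 9))
    (@En.n l12099 (nat_lit 4873) (nat_lit 1) (nat_lit 14))
    (@En.n l16848 (nat_lit 6623) (nat_lit 2) (nat_lit 3))
    (@En.n l16849 (nat_lit 2087) (nat_lit 3) (nat_lit 7))
    (@En.n l9323 (nat_lit 6621) (nat_lit 4) (nat_lit 10))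
    (@En.n l3264 (nat_lit 11531) (nat_lit 6) (nat_lit 13))
    (@En.n l16706 (nat_lit 6627) (nat_lit 6) (nat_lit 6))
    (@En.n l7112 (nat_lit 7150) (nat_lit 7) (nat_lit 6))
    (@En.n l763 (nat_lit 5116) (nat_lit 8) (nat_lit 3))
    (@En.i (nat_lit 1366) (nat_lit 0) (nat_lit 7))
    (@En.n l16849 (nat_lit 9503) (nat_lit 11) (nat_lit 9))
    (@En.n l3 (nat_lit 6628) (nat_lit 12) (nat_lit 13))
    (@En.n l527 (nat_lit 6628) (nat_lit 13) (nat_lit 10))
    (@En.i (nat_lit 8261) (nat_lit 14) (nat_lit 10))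
    (@En.n l847 (nat_lit 4455) (nat_lit 5) (nat_lit 6))
    (@En.n l50 (nat_lit 6624) (nat_lit 15) (nat_lit 2))))
  (@Cl.mk (nat_lit 0x20005000e000a0002000d000b000800030006000d0005000b0003000e0008) (nat_lit 0x71015200904082) (nat_lit 16) Lb.e (@T16.mk En
    (@En.n l9545 (nat_lit 6810) (nat_lit 4) (nat_lit 8))
    (@En.n l9546 (nat_lit 6622) (nat_lit 1) (nat_lit 14))
    (@En.n l9547 (nat_lit 6627) (nat_lit 2) (nat_lit 3))
    (@En.n l2602 (nat_lit 2483) (nat_lit 3) (nat_lit 11))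
    (@En.n l9548 (nat_lit 497) (nat_lit 4) (nat_lit 5))
    (@En.n l9549 (nat_lit 9116) (nat_lit 6) (nat_lit 13))
    (@En.i (nat_lit 6131) (nat_lit 6) (nat_lit 6))
    (@En.n l9174 (nat_lit 6629) (nat_lit 7) (nat_lit 3))
    (@En.n l9550 (nat_lit 1337) (nat_lit 0) (nat_lit 8))
    (@En.n l536 (nat_lit 9519) (nat_lit 10) (nat_lit 11))
    (@En.n l9551 (nat_lit 6623) (nat_lit 11) (nat_lit 13))
    (@En.n l11 (nat_lit 6625) (nat_lit 11) (nat_lit 2))
    (@En.n l9552 (nat_lit 6623) (nat_lit 13) (nat_lit 10))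
    (@En.n l1729 (nat_lit 10108) (nat_lit 1) (nat_lit 14))
    (@En.n l1925 (nat_lit 6788) (nat_lit 13) (nat_lit 5))
    (@En.n l3 (nat_lit 6625) (nat_lit 15) (nat_lit 2))))
  (@Cl.mk (nat_lit 0x20005000a000d000900060003000e00060002000d0007000b0003000e000a) (nat_lit 0x8b400a008060a2) (nat_lit 16) Lb.e (@T16.mk En
    (@En.n l3912 (nat_lit 6808) (nat_lit 10) (nat_lit 10))
    (@En.n l3913 (nat_lit 6620) (nat_lit 1) (nat_lit 14))
    (@En.n l2357 (nat_lit 6628) (nat_lit 2) (nat_lit 3))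
    (@En.i (nat_lit 2486) (nat_lit 3) (nat_lit 11))
    (@En.n l322 (nat_lit 499) (nat_lit 4) (nat_lit 7))
    (@En.n l3699 (nat_lit 8630) (nat_lit 6) (nat_lit 13))
    (@En.n l7 (nat_lit 6626) (nat_lit 6) (nat_lit 2))
    (@En.n l3914 (nat_lit 6623) (nat_lit 7) (nat_lit 6))
    (@En.n l95 (nat_lit 7048) (nat_lit 9) (nat_lit 14))
    (@En.n l11 (nat_lit 5117) (nat_lit 9) (nat_lit 3))
    (@En.n l322 (nat_lit 1338) (nat_lit 3) (nat_lit 6))
    (@En.n l3915 (nat_lit 9531) (nat_lit 12) (nat_lit 9))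
    (@En.n l10 (nat_lit 13847) (nat_lit 5) (nat_lit 13))
    (@En.n l322 (nat_lit 8263) (nat_lit 14) (nat_lit 10))
    (@En.n l3916 (nat_lit 3467) (nat_lit 13) (nat_lit 5))
    (@En.n l3 (nat_lit 6626) (nat_lit 15) (nat_lit 2))))
  (@Cl.mk (nat_lit 0x20006000e000a0002000d000a000800030006000d000a00060003000e0008) (nat_lit 0x51048100940085) (nat_lit 16) Lb.e (@T16.mk En
    (@En.n l7944 (nat_lit 6809) (nat_lit 4) (nat_lit 8))
    (@En.i (nat_lit 4940) (nat_lit 1) (nat_lit 14))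
    (@En.n l22095 (nat_lit 6625) (nat_lit 2) (nat_lit 3))
    (@En.n l11587 (nat_lit 2089) (nat_lit 3) (nat_lit 6))
    (@En.n l2593 (nat_lit 6622) (nat_lit 4) (nat_lit 10))
    (@En.n l766 (nat_lit 7833) (nat_lit 6) (nat_lit 13))
    (@En.n l19992 (nat_lit 6133) (nat_lit 6) (nat_lit 6))
    (@En.n l22096 (nat_lit 6631) (nat_lit 7) (nat_lit 3))
    (@En.n l22097 (nat_lit 2744) (nat_lit 0) (nat_lit 8))
    (@En.n l22098 (nat_lit 9504) (nat_lit 10) (nat_lit 10))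
    (@En.n l8853 (nat_lit 6624) (nat_lit 11) (nat_lit 13))
    (@En.n l18 (nat_lit 6627) (nat_lit 11) (nat_lit 2))
    (@En.n l22099 (nat_lit 6624) (nat_lit 13) (nat_lit 10))
    (@En.n l5366 (nat_lit 10105) (nat_lit 1) (nat_lit 14))
    (@En.n l3100 (nat_lit 4453) (nat_lit 2) (nat_lit 6))
    (@En.n l28 (nat_lit 6627) (nat_lit 15) (nat_lit 2))))
  (@Cl.mk (nat_lit 0x20006000a000d000800060003000e00060002000d000a00080003000e000a) (nat_lit 0x826006009610a7) (nat_lit 16) Lb.e (@T16.mk En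
    (@En.n l217 (nat_lit 6806) (nat_lit 10) (nat_lit 10))
    (@En.n l875 (nat_lit 4938) (nat_lit 1) (nat_lit 14))
    (@En.n l1166 (nat_lit 6626) (nat_lit 2) (nat_lit 3))
    (@En.n l10880 (nat_lit 2090) (nat_lit 3) (nat_lit 8))
    (@En.i (nat_lit 6620) (nat_lit 4) (nat_lit 10))
    (@En.i (nat_lit 8633) (nat_lit 6) (nat_lit 13))
    (@En.n l107 (nat_lit 6628) (nat_lit 6) (nat_lit 2))
    (@En.i (nat_lit 6624) (nat_lit 7) (nat_lit 6))
    (@En.n l3928 (nat_lit 7049) (nat_lit 9) (nat_lit 14))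
    (@En.n l763 (nat_lit 5118) (nat_lit 9) (nat_lit 3))
    (@En.i (nat_lit 3469) (nat_lit 3) (nat_lit 6))
    (@En.n l9325 (nat_lit 9502) (nat_lit 12) (nat_lit 8))
    (@En.i (nat_lit 13850) (nat_lit 5) (nat_lit 13))
    (@En.i (nat_lit 8264) (nat_lit 14) (nat_lit 10))
    (@En.n l847 (nat_lit 4461) (nat_lit 7) (nat_lit 6))
    (@En.n l50 (nat_lit 6628) (nat_lit 15) (nat_lit 2))))
  (@Cl.mk (nat_lit 0x20005000e000a0002000d0007000c00030006000d0004000b0003000e0009) (nat_lit 0x71010200302067) (nat_lit 16) Lb.e (@T16.mk En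
    (@En.i (nat_lit 5110) (nat_lit 4) (nat_lit 9))
    (@En.i (nat_lit 6630) (nat_lit 1) (nat_lit 14))
    (@En.n l9590 (nat_lit 6631) (nat_lit 2) (nat_lit 3))
    (@En.n l8491 (nat_lit 2485) (nat_lit 3) (nat_lit 11))
    (@En.i (nat_lit 7183) (nat_lit 4) (nat_lit 4))
    (@En.n l9641 (nat_lit 9113) (nat_lit 6) (nat_lit 13))
    (@En.n l9642 (nat_lit 5550) (nat_lit 6) (nat_lit 6))
    (@En.n l9643 (nat_lit 6625) (nat_lit 7) (nat_lit 3))
    (@En.n l2038 (nat_lit 3062) (nat_lit 0) (nat_lit 12))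
    (@En.n l9644 (nat_lit 10017) (nat_lit 14) (nat_lit 7))
    (@En.n l9645 (nat_lit 5112) (nat_lit 11) (nat_lit 13))
    (@En.n l18 (nat_lit 6629) (nat_lit 11) (nat_lit 2))
    (@En.n l9646 (nat_lit 5112) (nat_lit 13) (nat_lit 10))
    (@En.n l9641 (nat_lit 10107) (nat_lit 1) (nat_lit 14))
    (@En.n l8147 (nat_lit 3464) (nat_lit 13) (nat_lit 5))
    (@En.n l476 (nat_lit 6629) (nat_lit 15) (nat_lit 2))))
  (@Cl.mk (nat_lit 0x200060005000e000a0002000d0008000c00030006000a0004000b000e0008) (nat_lit 0x2102320040256) (nat_lit 16) Lb.e (@T16.mk En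
    (@En.i (nat_lit 5961) (nat_lit 5) (nat_lit 8))
    (@En.n l20058 (nat_lit 5008) (nat_lit 7) (nat_lit 14))
    (@En.n l20059 (nat_lit 2179) (nat_lit 2) (nat_lit 11))
    (@En.n l16433 (nat_lit 7182) (nat_lit 3) (nat_lit 4))
    (@En.n l9187 (nat_lit 6262) (nat_lit 4) (nat_lit 10))
    (@En.n l9591 (nat_lit 5551) (nat_lit 5) (nat_lit 6))
    (@En.n l20060 (nat_lit 6622) (nat_lit 6) (nat_lit 3))
    (@En.n l2038 (nat_lit 3063) (nat_lit 0) (nat_lit 12))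
    (@En.n l20061 (nat_lit 10019) (nat_lit 14) (nat_lit 8))
    (@En.n l20062 (nat_lit 6619) (nat_lit 10) (nat_lit 13))
    (@En.n l18 (nat_lit 6630) (nat_lit 10) (nat_lit 2))
    (@En.n l20063 (nat_lit 6619) (nat_lit 12) (nat_lit 10))
    (@En.n l20064 (nat_lit 6510) (nat_lit 13) (nat_lit 14))
    (@En.n l181 (nat_lit 6629) (nat_lit 14) (nat_lit 5))
    (@En.i (nat_lit 5398) (nat_lit 3) (nat_lit 6))
    (@En.n l476 (nat_lit 6630) (nat_lit 15) (nat_lit 2))))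
  (@Cl.mk (nat_lit 0x20006000e000a0002000d0007000b00030006000d000a00050003000e0009) (nat_lit 0x51040300350063) (nat_lit 16) Lb.e (@T16.mk En
    (@En.n l22190 (nat_lit 5115) (nat_lit 4) (nat_lit 9))
    (@En.n l7036 (nat_lit 4994) (nat_lit 1) (nat_lit 14))
    (@En.n l6624 (nat_lit 6629) (nat_lit 2) (nat_lit 3))
    (@En.n l2789 (nat_lit 5220) (nat_lit 3) (nat_lit 5))
    (@En.n l7827 (nat_lit 6630) (nat_lit 4) (nat_lit 10))
    (@En.n l19774 (nat_lit 9115) (nat_lit 6) (nat_lit 13))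
    (@En.n l16187 (nat_lit 5552) (nat_lit 6) (nat_lit 6))
    (@En.n l22191 (nat_lit 6627) (nat_lit 7) (nat_lit 3))
    (@En.n l2789 (nat_lit 2823) (nat_lit 0) (nat_lit 11))
    (@En.n l2786 (nat_lit 10016) (nat_lit 14) (nat_lit 7))
    (@En.n l1531 (nat_lit 5116) (nat_lit 11) (nat_lit 13))
    (@En.n l3 (nat_lit 6631) (nat_lit 11) (nat_lit 2))
    (@En.n l3358 (nat_lit 5116) (nat_lit 13) (nat_lit 10))
    (@En.n l2789 (nat_lit 10106) (nat_lit 1) (nat_lit 14))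
    (@En.n l7827 (nat_lit 6740) (nat_lit 2) (nat_lit 6))
    (@En.n l50 (nat_lit 6631) (nat_lit 15) (nat_lit 2))))
  (@Cl.mk (nat_lit 0x3000b000a0007000a000a000500090006000a000600060009000d00070006) (nat_lit 0x560120203000600) (nat_lit 16) Lb.e (@T16.mk En
    (@En.n l42077 (nat_lit 5346) (nat_lit 0) (nat_lit 6))
    (@En.n l61 (nat_lit 2091) (nat_lit 0) (nat_lit 7))
    (@En.n l14821 (nat_lit 12452) (nat_lit 6) (nat_lit 13))
    (@En.n l42078 (nat_lit 6635) (nat_lit 9) (nat_lit 9))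
    (@En.n l42079 (nat_lit 6635) (nat_lit 10) (nat_lit 6))
    (@En.i (nat_lit 10727) (nat_lit 5) (nat_lit 6))
    (@En.n l42080 (nat_lit 7558) (nat_lit 9) (nat_lit 10))
    (@En.n l2199 (nat_lit 5690) (nat_lit 7) (nat_lit 6))
    (@En.n l18738 (nat_lit 5181) (nat_lit 10) (nat_lit 9))
    (@En.n l42080 (nat_lit 10659) (nat_lit 9) (nat_lit 5))
    (@En.n l55 (nat_lit 6633) (nat_lit 6) (nat_lit 10))
    (@En.i (nat_lit 6546) (nat_lit 8) (nat_lit 10))
    (@En.n l38259 (nat_lit 1751) (nat_lit 13) (nat_lit 7))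
    (@En.n l42081 (nat_lit 5425) (nat_lit 14) (nat_lit 10))
    (@En.n l42082 (nat_lit 2023) (nat_lit 4) (nat_lit 11))
    (@En.n l18 (nat_lit 2094) (nat_lit 15) (nat_lit 3))))
  (@Cl.mk (nat_lit 0x20009000d000800070003000c000b0007000a0004000800050009000e0006) (nat_lit 0x171006601010330) (nat_lit 16) Lb.e (@T16.mk En
    (@En.i (nat_lit 6632) (nat_lit 5) (nat_lit 6))
    (@En.i (nat_lit 8204) (nat_lit 1) (nat_lit 14))
    (@En.n l31318 (nat_lit 7559) (nat_lit 2) (nat_lit 9))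
    (@En.n l20665 (nat_lit 7793) (nat_lit 3) (nat_lit 5))
    (@En.i (nat_lit 5183) (nat_lit 4) (nat_lit 8))
    (@En.n l14316 (nat_lit 9631) (nat_lit 5) (nat_lit 4))
    (@En.i (nat_lit 5529) (nat_lit 8) (nat_lit 10))
    (@En.n l4758 (nat_lit 2584) (nat_lit 7) (nat_lit 7))
    (@En.n l3866 (nat_lit 5424) (nat_lit 9) (nat_lit 11))
    (@En.n l3522 (nat_lit 6926) (nat_lit 10) (nat_lit 12))
    (@En.n l18 (nat_lit 6634) (nat_lit 10) (nat_lit 3))
    (@En.n l9155 (nat_lit 5348) (nat_lit 12) (nat_lit 7))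
    (@En.n l61 (nat_lit 2092) (nat_lit 13) (nat_lit 8))
    (@En.n l11792 (nat_lit 12328) (nat_lit 14) (nat_lit 13))
    (@En.n l3506 (nat_lit 6632) (nat_lit 3) (nat_lit 9))
    (@En.n l28 (nat_lit 6633) (nat_lit 15) (nat_lit 2))))
  (@Cl.mk (nat_lit 0x20009000d000600090003000c000b0007000a000400070005000a000e0006) (nat_lit 0x160206608000370) (nat_lit 16) Lb.e (@T16.mk En
    (@En.i (nat_lit 2094) (nat_lit 5) (nat_lit 6))
    (@En.i (nat_lit 8206) (nat_lit 1) (nat_lit 14))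
    (@En.n l899 (nat_lit 7556) (nat_lit 2) (nat_lit 10))
    (@En.i (nat_lit 7791) (nat_lit 3) (nat_lit 5))
    (@En.i (nat_lit 7509) (nat_lit 4) (nat_lit 7))
    (@En.i (nat_lit 9629) (nat_lit 5) (nat_lit 4))
    (@En.i (nat_lit 5530) (nat_lit 8) (nat_lit 10))
    (@En.n l4758 (nat_lit 2582) (nat_lit 7) (nat_lit 7))
    (@En.n l3866 (nat_lit 5426) (nat_lit 9) (nat_lit 11))
    (@En.i (nat_lit 2092) (nat_lit 10) (nat_lit 12))
    (@En.i (nat_lit 6633) (nat_lit 10) (nat_lit 3))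
    (@En.n l5372 (nat_lit 2089) (nat_lit 12) (nat_lit 9))
    (@En.i (nat_lit 5283) (nat_lit 13) (nat_lit 6))
    (@En.n l5372 (nat_lit 12326) (nat_lit 14) (nat_lit 13))
    (@En.n l3506 (nat_lit 2094) (nat_lit 3) (nat_lit 9))
    (@En.n l28 (nat_lit 6634) (nat_lit 15) (nat_lit 2))))
  (@Cl.mk (nat_lit 0x20006000a0007000b00060009000d000600050003000a00090007000e000a) (nat_lit 0x30307500056072) (nat_lit 16) Lb.e (@T16.mk En
    (@En.n l38248 (nat_lit 6632) (nat_lit 11) (nat_lit 10))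
    (@En.n l396 (nat_lit 6583) (nat_lit 1) (nat_lit 14))
    (@En.n l5777 (nat_lit 1750) (nat_lit 2) (nat_lit 7))
    (@En.n l28284 (nat_lit 6913) (nat_lit 3) (nat_lit 9))
    (@En.n l2213 (nat_lit 6939) (nat_lit 4) (nat_lit 10))
    (@En.n l28285 (nat_lit 6636) (nat_lit 5) (nat_lit 3))
    (@En.n l152 (nat_lit 5347) (nat_lit 6) (nat_lit 5))
    (@En.n l21574 (nat_lit 2093) (nat_lit 7) (nat_lit 6))
    (@En.n l38177 (nat_lit 12354) (nat_lit 9) (nat_lit 13))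
    (@En.n l387 (nat_lit 12874) (nat_lit 9) (nat_lit 9))
    (@En.i (nat_lit 10728) (nat_lit 11) (nat_lit 6))
    (@En.i (nat_lit 7560) (nat_lit 12) (nat_lit 11))
    (@En.n l8776 (nat_lit 5693) (nat_lit 13) (nat_lit 7))
    (@En.n l38249 (nat_lit 5180) (nat_lit 14) (nat_lit 10))
    (@En.i (nat_lit 10660) (nat_lit 8) (nat_lit 6))
    (@En.n l18 (nat_lit 6635) (nat_lit 15) (nat_lit 2))))
  (@Cl.mk (nat_lit 0x2000600090007000c00060009000d000400070003000a00090007000e000a) (nat_lit 0x60307200056071) (nat_lit 16) Lb.e (@T16.mk En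
    (@En.n l6698 (nat_lit 2094) (nat_lit 11) (nat_lit 10))
    (@En.n l1578 (nat_lit 6582) (nat_lit 1) (nat_lit 14))
    (@En.n l4758 (nat_lit 1753) (nat_lit 2) (nat_lit 7))
    (@En.n l3261 (nat_lit 6912) (nat_lit 3) (nat_lit 9))
    (@En.n l24340 (nat_lit 2093) (nat_lit 4) (nat_lit 10))
    (@En.n l5801 (nat_lit 6635) (nat_lit 5) (nat_lit 3))
    (@En.i (nat_lit 2085) (nat_lit 6) (nat_lit 7))
    (@En.i (nat_lit 4934) (nat_lit 7) (nat_lit 4))
    (@En.n l649 (nat_lit 12351) (nat_lit 9) (nat_lit 13))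
    (@En.i (nat_lit 12873) (nat_lit 9) (nat_lit 9))
    (@En.i (nat_lit 10725) (nat_lit 11) (nat_lit 6))
    (@En.n l899 (nat_lit 7557) (nat_lit 12) (nat_lit 12))
    (@En.i (nat_lit 7780) (nat_lit 13) (nat_lit 7))
    (@En.i (nat_lit 7506) (nat_lit 14) (nat_lit 9))
    (@En.i (nat_lit 10656) (nat_lit 8) (nat_lit 6))
    (@En.n l28 (nat_lit 6636) (nat_lit 15) (nat_lit 2))))
  (@Cl.mk (nat_lit 0x3000a00070007000a000d000700060003000b000600090009000d00050009) (nat_lit 0x400050007012807) (nat_lit 16) Lb.e (@T16.mk En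
    (@En.n l1154 (nat_lit 7827) (nat_lit 0) (nat_lit 9))
    (@En.n l40278 (nat_lit 6632) (nat_lit 9) (nat_lit 5))
    (@En.n l40279 (nat_lit 6145) (nat_lit 6) (nat_lit 13))
    (@En.n l40280 (nat_lit 6638) (nat_lit 7) (nat_lit 9))
    (@En.n l40281 (nat_lit 6537) (nat_lit 9) (nat_lit 9))
    (@En.i (nat_lit 6919) (nat_lit 14) (nat_lit 6))
    (@En.n l37506 (nat_lit 6936) (nat_lit 7) (nat_lit 11))
    (@En.n l40282 (nat_lit 6639) (nat_lit 15) (nat_lit 3))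
    (@En.n l18 (nat_lit 1924) (nat_lit 0) (nat_lit 6))
    (@En.n l37009 (nat_lit 6643) (nat_lit 10) (nat_lit 7))
    (@En.n l40279 (nat_lit 11708) (nat_lit 5) (nat_lit 13))
    (@En.n l40283 (nat_lit 6640) (nat_lit 8) (nat_lit 10))
    (@En.n l40284 (nat_lit 6640) (nat_lit 9) (nat_lit 7))
    (@En.n l40285 (nat_lit 8456) (nat_lit 14) (nat_lit 7))
    (@En.n l40286 (nat_lit 7569) (nat_lit 7) (nat_lit 10))
    (@En.n l27808 (nat_lit 5425) (nat_lit 7) (nat_lit 3))))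
  (@Cl.mk (nat_lit 0x2000a000d000800070003000c00060009000d0004000800030009000e0007) (nat_lit 0x166008017060420) (nat_lit 16) Lb.e (@T16.mk En
    (@En.n l37726 (nat_lit 6637) (nat_lit 13) (nat_lit 7))
    (@En.n l14729 (nat_lit 6685) (nat_lit 1) (nat_lit 14))
    (@En.n l37727 (nat_lit 7568) (nat_lit 2) (nat_lit 9))
    (@En.n l9758 (nat_lit 5424) (nat_lit 3) (nat_lit 3))
    (@En.n l24160 (nat_lit 7825) (nat_lit 0) (nat_lit 8))
    (@En.n l37728 (nat_lit 6633) (nat_lit 5) (nat_lit 4))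
    (@En.i (nat_lit 6144) (nat_lit 7) (nat_lit 13))
    (@En.n l278 (nat_lit 3921) (nat_lit 9) (nat_lit 9))
    (@En.n l9774 (nat_lit 6925) (nat_lit 8) (nat_lit 6))
    (@En.n l28259 (nat_lit 6937) (nat_lit 10) (nat_lit 12))
    (@En.n l37729 (nat_lit 6641) (nat_lit 10) (nat_lit 3))
    (@En.i (nat_lit 1927) (nat_lit 12) (nat_lit 7))
    (@En.n l37730 (nat_lit 6645) (nat_lit 13) (nat_lit 8))
    (@En.i (nat_lit 12631) (nat_lit 5) (nat_lit 13))
    (@En.n l37731 (nat_lit 6637) (nat_lit 11) (nat_lit 10))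
    (@En.n l50 (nat_lit 6638) (nat_lit 15) (nat_lit 2))))
  (@Cl.mk (nat_lit 0x3000b000600090009000d000500080003000b00070007000a000d00050008) (nat_lit 0x706280304000502) (nat_lit 16) Lb.e (@T16.mk En
    (@En.n l1897 (nat_lit 1878) (nat_lit 10) (nat_lit 8))
    (@En.i (nat_lit 5106) (nat_lit 9) (nat_lit 5))
    (@En.i (nat_lit 11711) (nat_lit 5) (nat_lit 13))
    (@En.n l1899 (nat_lit 6642) (nat_lit 8) (nat_lit 10))
    (@En.n l1900 (nat_lit 6642) (nat_lit 9) (nat_lit 7))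
    (@En.n l4660 (nat_lit 8464) (nat_lit 14) (nat_lit 7))
    (@En.i (nat_lit 6559) (nat_lit 7) (nat_lit 11))
    (@En.n l26306 (nat_lit 5427) (nat_lit 7) (nat_lit 3))
    (@En.i (nat_lit 5776) (nat_lit 10) (nat_lit 8))
    (@En.n l13489 (nat_lit 2094) (nat_lit 9) (nat_lit 5))
    (@En.i (nat_lit 6121) (nat_lit 6) (nat_lit 13))
    (@En.n l1904 (nat_lit 6641) (nat_lit 7) (nat_lit 9))
    (@En.n l5372 (nat_lit 6539) (nat_lit 9) (nat_lit 9))
    (@En.i (nat_lit 6920) (nat_lit 14) (nat_lit 6))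
    (@En.i (nat_lit 6643) (nat_lit 7) (nat_lit 11))
    (@En.n l26307 (nat_lit 6637) (nat_lit 7) (nat_lit 3))))
noncomputable def a415 : T16 Cl := @T16.mk Cl
  (@Cl.mk (nat_lit 0x2000d0006000a0003000b0007000a000d000600050003000a0006000e0009) (nat_lit 0x908040840006062) (nat_lit 16) Lb.e (@T16.mk En
    (@En.n l31284 (nat_lit 6637) (nat_lit 4) (nat_lit 9))
    (@En.n l31285 (nat_lit 6578) (nat_lit 1) (nat_lit 14))
    (@En.i (nat_lit 6917) (nat_lit 2) (nat_lit 6))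
    (@En.n l253 (nat_lit 6938) (nat_lit 3) (nat_lit 10))
    (@En.n l38233 (nat_lit 6642) (nat_lit 4) (nat_lit 3))
    (@En.n l23673 (nat_lit 6646) (nat_lit 0) (nat_lit 5))
    (@En.n l38234 (nat_lit 6644) (nat_lit 6) (nat_lit 6))
    (@En.n l23673 (nat_lit 12571) (nat_lit 8) (nat_lit 13))
    (@En.i (nat_lit 13887) (nat_lit 8) (nat_lit 10))
    (@En.i (nat_lit 8455) (nat_lit 14) (nat_lit 7))
    (@En.n l11929 (nat_lit 7573) (nat_lit 11) (nat_lit 11))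
    (@En.n l25652 (nat_lit 6913) (nat_lit 11) (nat_lit 3))
    (@En.n l12074 (nat_lit 7831) (nat_lit 0) (nat_lit 10))
    (@En.n l11929 (nat_lit 6635) (nat_lit 14) (nat_lit 6))
    (@En.n l38235 (nat_lit 6147) (nat_lit 2) (nat_lit 13))
    (@En.n l17 (nat_lit 6640) (nat_lit 15) (nat_lit 2))))
  (@Cl.mk (nat_lit 0x2000a000d000600090003000c00060009000d000400070003000a000e0007) (nat_lit 0x160205017000470) (nat_lit 16) Lb.e (@T16.mk En
    (@En.n l4871 (nat_lit 6639) (nat_lit 5) (nat_lit 7))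
    (@En.i (nat_lit 6730) (nat_lit 1) (nat_lit 14))
    (@En.n l3337 (nat_lit 6560) (nat_lit 2) (nat_lit 10))
    (@En.n l3291 (nat_lit 5426) (nat_lit 3) (nat_lit 3))
    (@En.i (nat_lit 6029) (nat_lit 11) (nat_lit 7))
    (@En.n l2869 (nat_lit 6634) (nat_lit 5) (nat_lit 4))
    (@En.n l2036 (nat_lit 6117) (nat_lit 7) (nat_lit 13))
    (@En.n l1997 (nat_lit 3919) (nat_lit 9) (nat_lit 9))
    (@En.n l2911 (nat_lit 6923) (nat_lit 8) (nat_lit 6))
    (@En.n l1997 (nat_lit 6645) (nat_lit 10) (nat_lit 12))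
    (@En.n l5976 (nat_lit 6638) (nat_lit 10) (nat_lit 3))
    (@En.n l2036 (nat_lit 5000) (nat_lit 12) (nat_lit 9))
    (@En.n l5933 (nat_lit 5105) (nat_lit 13) (nat_lit 6))
    (@En.n l2036 (nat_lit 12628) (nat_lit 5) (nat_lit 13))
    (@En.n l1758 (nat_lit 6639) (nat_lit 3) (nat_lit 10))
    (@En.n l3 (nat_lit 6641) (nat_lit 15) (nat_lit 2))))
  (@Cl.mk (nat_lit 0x2000d000600090003000c0007000a000d000400070003000a0006000e0009) (nat_lit 0x903040860005067) (nat_lit 16) Lb.e (@T16.mk En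
    (@En.n l1532 (nat_lit 6639) (nat_lit 12) (nat_lit 9))
    (@En.n l3857 (nat_lit 6579) (nat_lit 1) (nat_lit 14))
    (@En.n l3324 (nat_lit 6918) (nat_lit 2) (nat_lit 6))
    (@En.i (nat_lit 6644) (nat_lit 3) (nat_lit 10))
    (@En.n l22646 (nat_lit 6640) (nat_lit 4) (nat_lit 3))
    (@En.n l5268 (nat_lit 1877) (nat_lit 11) (nat_lit 7))
    (@En.n l11637 (nat_lit 2891) (nat_lit 6) (nat_lit 4))
    (@En.i (nat_lit 11713) (nat_lit 8) (nat_lit 13))
    (@En.n l3324 (nat_lit 13889) (nat_lit 8) (nat_lit 10))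
    (@En.n l1721 (nat_lit 8463) (nat_lit 14) (nat_lit 7))
    (@En.n l2368 (nat_lit 6561) (nat_lit 11) (nat_lit 12))
    (@En.n l8821 (nat_lit 6912) (nat_lit 11) (nat_lit 3))
    (@En.i (nat_lit 5774) (nat_lit 9) (nat_lit 9))
    (@En.n l2869 (nat_lit 6636) (nat_lit 14) (nat_lit 6))
    (@En.n l1531 (nat_lit 6124) (nat_lit 2) (nat_lit 13))
    (@En.n l3 (nat_lit 6642) (nat_lit 15) (nat_lit 2))))
  (@Cl.mk (nat_lit 0x4000b00080008000b000700050008000b000500080008000c000500090008) (nat_lit 0x500000260527054) (nat_lit 16) Lb.e (@T16.mk En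
    (@En.n l7 (nat_lit 6639) (nat_lit 8) (nat_lit 8))
    (@En.n l644 (nat_lit 6920) (nat_lit 10) (nat_lit 9))
    (@En.n l13489 (nat_lit 2091) (nat_lit 8) (nat_lit 5))
    (@En.i (nat_lit 6125) (nat_lit 7) (nat_lit 12))
    (@En.n l6213 (nat_lit 6645) (nat_lit 8) (nat_lit 8))
    (@En.n l5372 (nat_lit 6541) (nat_lit 10) (nat_lit 8))
    (@En.n l29225 (nat_lit 2022) (nat_lit 6) (nat_lit 5))
    (@En.n l5838 (nat_lit 6932) (nat_lit 7) (nat_lit 11))
    (@En.n l1897 (nat_lit 1876) (nat_lit 10) (nat_lit 8))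
    (@En.n l34823 (nat_lit 5103) (nat_lit 2) (nat_lit 5))
    (@En.n l396 (nat_lit 9024) (nat_lit 0) (nat_lit 7))
    (@En.n l1899 (nat_lit 6644) (nat_lit 7) (nat_lit 11))
    (@En.n l1900 (nat_lit 6644) (nat_lit 8) (nat_lit 8))
    (@En.n l38094 (nat_lit 8830) (nat_lit 14) (nat_lit 8))
    (@En.n l31348 (nat_lit 6555) (nat_lit 4) (nat_lit 11))
    (@En.n l33708 (nat_lit 6840) (nat_lit 15) (nat_lit 4))))
  (@Cl.mk (nat_lit 0x2000c0006000a00090004000c0008000b000600040007000a0005000e0008) (nat_lit 0x806405690004056) (nat_lit 16) Lb.e (@T16.mk En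
    (@En.n l1532 (nat_lit 6643) (nat_lit 5) (nat_lit 8))
    (@En.n l36801 (nat_lit 6581) (nat_lit 1) (nat_lit 14))
    (@En.n l36802 (nat_lit 2025) (nat_lit 2) (nat_lit 5))
    (@En.n l36803 (nat_lit 6935) (nat_lit 8) (nat_lit 10))
    (@En.n l36804 (nat_lit 1873) (nat_lit 11) (nat_lit 7))
    (@En.n l12366 (nat_lit 5107) (nat_lit 5) (nat_lit 4))
    (@En.n l18627 (nat_lit 9025) (nat_lit 6) (nat_lit 6))
    (@En.n l36802 (nat_lit 13880) (nat_lit 7) (nat_lit 11))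
    (@En.n l36805 (nat_lit 8831) (nat_lit 9) (nat_lit 8))
    (@En.n l36806 (nat_lit 6558) (nat_lit 10) (nat_lit 12))
    (@En.n l36807 (nat_lit 6898) (nat_lit 10) (nat_lit 4))
    (@En.n l7 (nat_lit 6642) (nat_lit 12) (nat_lit 9))
    (@En.n l18627 (nat_lit 6918) (nat_lit 13) (nat_lit 10))
    (@En.n l36808 (nat_lit 2093) (nat_lit 14) (nat_lit 6))
    (@En.n l1531 (nat_lit 6127) (nat_lit 3) (nat_lit 12))
    (@En.n l3 (nat_lit 6644) (nat_lit 15) (nat_lit 2))))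
  (@Cl.mk (nat_lit 0x2000b000800060009000c00050008000c0004000800070004000a000e0008) (nat_lit 0x150140160400581) (nat_lit 16) Lb.e (@T16.mk En
    (@En.n l9025 (nat_lit 6643) (nat_lit 13) (nat_lit 8))
    (@En.n l2031 (nat_lit 6722) (nat_lit 1) (nat_lit 14))
    (@En.n l13351 (nat_lit 6557) (nat_lit 2) (nat_lit 10))
    (@En.n l33286 (nat_lit 6841) (nat_lit 3) (nat_lit 4))
    (@En.n l11954 (nat_lit 6641) (nat_lit 4) (nat_lit 7))
    (@En.n l3340 (nat_lit 6923) (nat_lit 5) (nat_lit 8))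
    (@En.n l3596 (nat_lit 2092) (nat_lit 6) (nat_lit 4))
    (@En.n l2034 (nat_lit 6118) (nat_lit 8) (nat_lit 12))
    (@En.i (nat_lit 3918) (nat_lit 10) (nat_lit 8))
    (@En.n l3333 (nat_lit 2024) (nat_lit 9) (nat_lit 5))
    (@En.n l1721 (nat_lit 6931) (nat_lit 6) (nat_lit 12))
    (@En.n l2034 (nat_lit 1879) (nat_lit 12) (nat_lit 9))
    (@En.n l1005 (nat_lit 5104) (nat_lit 13) (nat_lit 6))
    (@En.n l2042 (nat_lit 9522) (nat_lit 14) (nat_lit 8))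
    (@En.n l2911 (nat_lit 6643) (nat_lit 11) (nat_lit 11))
    (@En.n l7 (nat_lit 6645) (nat_lit 15) (nat_lit 2))))
  (@Cl.mk (nat_lit 0x2000a0005000e00080002000d0006000d0003000b00030008000b000e0005) (nat_lit 0x508105080106950) (nat_lit 16) Lb.e (@T16.mk En
    (@En.n l3098 (nat_lit 5108) (nat_lit 5) (nat_lit 5))
    (@En.i (nat_lit 12614) (nat_lit 7) (nat_lit 14))
    (@En.n l38680 (nat_lit 13360) (nat_lit 7) (nat_lit 11))
    (@En.i (nat_lit 8907) (nat_lit 3) (nat_lit 8))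
    (@En.i (nat_lit 5025) (nat_lit 4) (nat_lit 3))
    (@En.n l2436 (nat_lit 5034) (nat_lit 11) (nat_lit 11))
    (@En.n l38681 (nat_lit 5345) (nat_lit 6) (nat_lit 3))
    (@En.i (nat_lit 2157) (nat_lit 8) (nat_lit 13))
    (@En.n l2436 (nat_lit 5347) (nat_lit 14) (nat_lit 6))
    (@En.n l25687 (nat_lit 9442) (nat_lit 10) (nat_lit 13))
    (@En.n l11 (nat_lit 6646) (nat_lit 10) (nat_lit 2))
    (@En.n l6652 (nat_lit 1924) (nat_lit 12) (nat_lit 8))
    (@En.n l23495 (nat_lit 6471) (nat_lit 1) (nat_lit 14))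
    (@En.n l38682 (nat_lit 1921) (nat_lit 14) (nat_lit 5))
    (@En.n l2765 (nat_lit 6648) (nat_lit 3) (nat_lit 10))
    (@En.n l17 (nat_lit 6646) (nat_lit 15) (nat_lit 2))))
  (@Cl.mk (nat_lit 0x300090009000c00080006000b000400070007000c00050008000d0004000a) (nat_lit 0x405000503601) (nat_lit 16) Lb.e (@T16.mk En
    (@En.n l40814 (nat_lit 5012) (nat_lit 0) (nat_lit 10))
    (@En.n l12048 (nat_lit 4458) (nat_lit 8) (nat_lit 4))
    (@En.i (nat_lit 2614) (nat_lit 0) (nat_lit 13))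
    (@En.n l33551 (nat_lit 1915) (nat_lit 10) (nat_lit 8))
    (@En.n l23385 (nat_lit 6793) (nat_lit 4) (nat_lit 5))
    (@En.n l5929 (nat_lit 9787) (nat_lit 13) (nat_lit 12))
    (@En.n l107 (nat_lit 6652) (nat_lit 9) (nat_lit 7))
    (@En.n l7163 (nat_lit 6484) (nat_lit 11) (nat_lit 7))
    (@En.n l40815 (nat_lit 6693) (nat_lit 8) (nat_lit 4))
    (@En.n l14557 (nat_lit 6651) (nat_lit 0) (nat_lit 11))
    (@En.n l17 (nat_lit 6655) (nat_lit 1) (nat_lit 6))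
    (@En.n l40816 (nat_lit 9270) (nat_lit 12) (nat_lit 8))
    (@En.n l3839 (nat_lit 6648) (nat_lit 6) (nat_lit 12))
    (@En.n l2535 (nat_lit 6648) (nat_lit 7) (nat_lit 9))
    (@En.n l40817 (nat_lit 10833) (nat_lit 5) (nat_lit 9))
    (@En.n l5929 (nat_lit 5964) (nat_lit 15) (nat_lit 3))))
  (@Cl.mk (nat_lit 0x2000c00060009000d0004000b00030009000c00070005000a0004000e0007) (nat_lit 0x60570107a0040a0) (nat_lit 16) Lb.e (@T16.mk En
    (@En.n l1177 (nat_lit 6647) (nat_lit 7) (nat_lit 7))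
    (@En.n l31829 (nat_lit 6881) (nat_lit 1) (nat_lit 14))
    (@En.n l117 (nat_lit 6699) (nat_lit 2) (nat_lit 4))
    (@En.n l617 (nat_lit 6650) (nat_lit 3) (nat_lit 10))
    (@En.n l31830 (nat_lit 6656) (nat_lit 4) (nat_lit 5))
    (@En.n l3 (nat_lit 9268) (nat_lit 5) (nat_lit 7))
    (@En.n l31831 (nat_lit 13864) (nat_lit 6) (nat_lit 12))
    (@En.n l15016 (nat_lit 10615) (nat_lit 8) (nat_lit 9))
    (@En.n l18018 (nat_lit 6649) (nat_lit 8) (nat_lit 3))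
    (@En.n l22096 (nat_lit 5011) (nat_lit 10) (nat_lit 11))
    (@En.n l15016 (nat_lit 6660) (nat_lit 10) (nat_lit 4))
    (@En.i (nat_lit 2610) (nat_lit 12) (nat_lit 13))
    (@En.n l31832 (nat_lit 1921) (nat_lit 9) (nat_lit 9))
    (@En.n l10154 (nat_lit 6795) (nat_lit 14) (nat_lit 6))
    (@En.n l3927 (nat_lit 9786) (nat_lit 3) (nat_lit 12))
    (@En.n l28 (nat_lit 6648) (nat_lit 15) (nat_lit 2))))
  (@Cl.mk (nat_lit 0x2000b00060009000d000a000500030009000c00070006000a0004000e0007) (nat_lit 0x705520079004090) (nat_lit 16) Lb.e (@T16.mk En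
    (@En.n l31915 (nat_lit 5964) (nat_lit 7) (nat_lit 7))
    (@En.n l31916 (nat_lit 7042) (nat_lit 1) (nat_lit 14))
    (@En.n l31917 (nat_lit 6682) (nat_lit 2) (nat_lit 4))
    (@En.n l31918 (nat_lit 5973) (nat_lit 3) (nat_lit 10))
    (@En.n l11790 (nat_lit 6677) (nat_lit 4) (nat_lit 6))
    (@En.n l17 (nat_lit 9272) (nat_lit 5) (nat_lit 7))
    (@En.n l25716 (nat_lit 13860) (nat_lit 6) (nat_lit 12))
    (@En.n l14197 (nat_lit 6211) (nat_lit 8) (nat_lit 9))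
    (@En.n l30405 (nat_lit 6648) (nat_lit 8) (nat_lit 3))
    (@En.n l97 (nat_lit 4951) (nat_lit 0) (nat_lit 5))
    (@En.n l25717 (nat_lit 6938) (nat_lit 11) (nat_lit 10))
    (@En.n l7760 (nat_lit 2440) (nat_lit 12) (nat_lit 13))
    (@En.n l31919 (nat_lit 1922) (nat_lit 9) (nat_lit 9))
    (@En.i (nat_lit 1717) (nat_lit 14) (nat_lit 6))
    (@En.n l31920 (nat_lit 6281) (nat_lit 12) (nat_lit 11))
    (@En.n l50 (nat_lit 6649) (nat_lit 15) (nat_lit 2))))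
  (@Cl.mk (nat_lit 0x2000b0006000c0009000d000500040003000a000d0007000a0003000e0006) (nat_lit 0x502680000003090) (nat_lit 16) Lb.e (@T16.mk En
    (@En.n l20292 (nat_lit 6651) (nat_lit 14) (nat_lit 6))
    (@En.n l2400 (nat_lit 6879) (nat_lit 1) (nat_lit 14))
    (@En.n l117 (nat_lit 6681) (nat_lit 2) (nat_lit 3))
    (@En.n l20293 (nat_lit 1227) (nat_lit 3) (nat_lit 10))
    (@En.n l3 (nat_lit 9267) (nat_lit 4) (nat_lit 7))
    (@En.n l20294 (nat_lit 13863) (nat_lit 5) (nat_lit 13))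
    (@En.n l9916 (nat_lit 10616) (nat_lit 7) (nat_lit 10))
    (@En.n l9330 (nat_lit 5973) (nat_lit 7) (nat_lit 3))
    (@En.n l18 (nat_lit 6705) (nat_lit 0) (nat_lit 4))
    (@En.n l9916 (nat_lit 4459) (nat_lit 9) (nat_lit 5))
    (@En.i (nat_lit 2275) (nat_lit 11) (nat_lit 13))
    (@En.n l61 (nat_lit 6648) (nat_lit 12) (nat_lit 9))
    (@En.n l20295 (nat_lit 6746) (nat_lit 13) (nat_lit 12))
    (@En.n l20294 (nat_lit 6797) (nat_lit 14) (nat_lit 6))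
    (@En.n l9330 (nat_lit 9978) (nat_lit 12) (nat_lit 11))
    (@En.n l28 (nat_lit 6650) (nat_lit 15) (nat_lit 2))))
  (@Cl.mk (nat_lit 0x300060006000b0005000c0008000d000500040003000a000a000d0008000b) (nat_lit 0x4024700001134) (nat_lit 16) Lb.e (@T16.mk En
    (@En.i (nat_lit 1223) (nat_lit 0) (nat_lit 11))
    (@En.n l21711 (nat_lit 9269) (nat_lit 12) (nat_lit 8))
    (@En.n l30273 (nat_lit 6650) (nat_lit 5) (nat_lit 13))
    (@En.n l30274 (nat_lit 6650) (nat_lit 6) (nat_lit 10))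
    (@En.n l30275 (nat_lit 10834) (nat_lit 4) (nat_lit 10))
    (@En.n l50 (nat_lit 5969) (nat_lit 13) (nat_lit 3))
    (@En.n l19875 (nat_lit 6657) (nat_lit 0) (nat_lit 4))
    (@En.n l859 (nat_lit 4456) (nat_lit 7) (nat_lit 5))
    (@En.n l21865 (nat_lit 2269) (nat_lit 1) (nat_lit 13))
    (@En.n l30276 (nat_lit 6647) (nat_lit 3) (nat_lit 8))
    (@En.n l30277 (nat_lit 6745) (nat_lit 11) (nat_lit 12))
    (@En.i (nat_lit 6794) (nat_lit 5) (nat_lit 5))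
    (@En.n l50 (nat_lit 9795) (nat_lit 13) (nat_lit 11))
    (@En.n l21868 (nat_lit 6653) (nat_lit 10) (nat_lit 6))
    (@En.n l13546 (nat_lit 7000) (nat_lit 12) (nat_lit 6))
    (@En.n l3596 (nat_lit 6654) (nat_lit 15) (nat_lit 3))))
  (@Cl.mk (nat_lit 0x2000c00090007000c00040007000c00040007000d000400090003000e0009) (nat_lit 0x150600400501021) (nat_lit 16) Lb.e (@T16.mk En
    (@En.n l97 (nat_lit 6647) (nat_lit 14) (nat_lit 9))
    (@En.i (nat_lit 11493) (nat_lit 1) (nat_lit 14))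
    (@En.n l5929 (nat_lit 5963) (nat_lit 2) (nat_lit 3))
    (@En.n l387 (nat_lit 5013) (nat_lit 3) (nat_lit 9))
    (@En.n l12048 (nat_lit 4457) (nat_lit 4) (nat_lit 4))
    (@En.i (nat_lit 2615) (nat_lit 6) (nat_lit 13))
    (@En.n l25422 (nat_lit 1916) (nat_lit 11) (nat_lit 7))
    (@En.n l11714 (nat_lit 6791) (nat_lit 7) (nat_lit 4))
    (@En.n l7243 (nat_lit 6402) (nat_lit 9) (nat_lit 12))
    (@En.i (nat_lit 6104) (nat_lit 11) (nat_lit 7))
    (@En.n l4714 (nat_lit 6691) (nat_lit 10) (nat_lit 4))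
    (@En.n l617 (nat_lit 6653) (nat_lit 12) (nat_lit 12))
    (@En.n l17 (nat_lit 6658) (nat_lit 13) (nat_lit 7))
    (@En.n l7243 (nat_lit 9559) (nat_lit 14) (nat_lit 9))
    (@En.i (nat_lit 6647) (nat_lit 12) (nat_lit 12))
    (@En.n l3 (nat_lit 6652) (nat_lit 15) (nat_lit 2))))
  (@Cl.mk (nat_lit 0x2000d0009000c00030006000b0004000c0007000d000500040003000e000a) (nat_lit 0x255003040600021) (nat_lit 16) Lb.e (@T16.mk En
    (@En.n l10337 (nat_lit 6651) (nat_lit 4) (nat_lit 10))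
    (@En.i (nat_lit 11491) (nat_lit 1) (nat_lit 14))
    (@En.n l11949 (nat_lit 5968) (nat_lit 2) (nat_lit 3))
    (@En.n l18 (nat_lit 6857) (nat_lit 3) (nat_lit 4))
    (@En.n l4884 (nat_lit 4454) (nat_lit 4) (nat_lit 5))
    (@En.i (nat_lit 2268) (nat_lit 6) (nat_lit 13))
    (@En.n l61 (nat_lit 6652) (nat_lit 6) (nat_lit 7))
    (@En.i (nat_lit 6757) (nat_lit 8) (nat_lit 12))
    (@En.i (nat_lit 6792) (nat_lit 8) (nat_lit 4))
    (@En.n l11949 (nat_lit 6399) (nat_lit 10) (nat_lit 11))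
    (@En.i (nat_lit 6102) (nat_lit 12) (nat_lit 6))
    (@En.n l1430 (nat_lit 6689) (nat_lit 11) (nat_lit 3))
    (@En.n l5395 (nat_lit 1221) (nat_lit 0) (nat_lit 12))
    (@En.n l4377 (nat_lit 9558) (nat_lit 14) (nat_lit 9))
    (@En.n l5395 (nat_lit 6651) (nat_lit 2) (nat_lit 13))
    (@En.n l3 (nat_lit 6653) (nat_lit 15) (nat_lit 2))))
  (@Cl.mk (nat_lit 0x300060006000b0006000c0007000d000500040003000a000a000d000a0009) (nat_lit 0x20900067062) (nat_lit 16) Lb.e (@T16.mk En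
    (@En.n l619 (nat_lit 2806) (nat_lit 0) (nat_lit 9))
    (@En.n l15622 (nat_lit 7955) (nat_lit 12) (nat_lit 10))
    (@En.n l15623 (nat_lit 6681) (nat_lit 5) (nat_lit 13))
    (@En.n l15624 (nat_lit 6681) (nat_lit 6) (nat_lit 10))
    (@En.i (nat_lit 10836) (nat_lit 4) (nat_lit 10))
    (@En.n l7 (nat_lit 6680) (nat_lit 13) (nat_lit 3))
    (@En.n l3867 (nat_lit 6703) (nat_lit 0) (nat_lit 4))
    (@En.i (nat_lit 6684) (nat_lit 7) (nat_lit 5))
    (@En.n l15625 (nat_lit 2273) (nat_lit 1) (nat_lit 13))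
    (@En.n l1738 (nat_lit 6693) (nat_lit 3) (nat_lit 7))
    (@En.n l2825 (nat_lit 6741) (nat_lit 11) (nat_lit 12))
    (@En.n l4774 (nat_lit 5090) (nat_lit 5) (nat_lit 6))
    (@En.n l4600 (nat_lit 8879) (nat_lit 13) (nat_lit 11))
    (@En.n l17 (nat_lit 6689) (nat_lit 10) (nat_lit 6))
    (@En.i (nat_lit 2416) (nat_lit 12) (nat_lit 6))
    (@En.n l1106 (nat_lit 6651) (nat_lit 15) (nat_lit 3))))
  (@Cl.mk (nat_lit 0x300060006000c0005000c000c0004000a00040004000a000a000d0006000b) (nat_lit 0x80a7050000004) (nat_lit 16) Lb.e (@T16.mk En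
    (@En.n l15647 (nat_lit 2766) (nat_lit 0) (nat_lit 11))
    (@En.n l15648 (nat_lit 8226) (nat_lit 8) (nat_lit 6))
    (@En.n l15649 (nat_lit 6656) (nat_lit 5) (nat_lit 13))
    (@En.n l15650 (nat_lit 6656) (nat_lit 6) (nat_lit 10))
    (@En.n l15651 (nat_lit 10835) (nat_lit 4) (nat_lit 10))
    (@En.n l15652 (nat_lit 2541) (nat_lit 12) (nat_lit 4))
    (@En.n l5395 (nat_lit 6651) (nat_lit 6) (nat_lit 4))
    (@En.n l15653 (nat_lit 5139) (nat_lit 0) (nat_lit 10))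
    (@En.n l15651 (nat_lit 4451) (nat_lit 8) (nat_lit 4))
    (@En.n l61 (nat_lit 6657) (nat_lit 4) (nat_lit 12))
    (@En.n l15654 (nat_lit 6734) (nat_lit 11) (nat_lit 12))
    (@En.n l12137 (nat_lit 6784) (nat_lit 4) (nat_lit 5))
    (@En.n l1638 (nat_lit 9496) (nat_lit 13) (nat_lit 12))
    (@En.n l107 (nat_lit 6658) (nat_lit 10) (nat_lit 6))
    (@En.n l15655 (nat_lit 7003) (nat_lit 12) (nat_lit 6))
    (@En.n l15656 (nat_lit 6659) (nat_lit 15) (nat_lit 3))))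
noncomputable def a416 : T16 Cl := @T16.mk Cl
  (@Cl.mk (nat_lit 0x2000c0006000c000c0004000b00040004000a000d0005000a0003000e0006) (nat_lit 0x80a805008b03070) (nat_lit 16) Lb.e (@T16.mk En
    (@En.n l28871 (nat_lit 6655) (nat_lit 14) (nat_lit 6))
    (@En.n l2429 (nat_lit 6878) (nat_lit 1) (nat_lit 14))
    (@En.n l11698 (nat_lit 6702) (nat_lit 2) (nat_lit 3))
    (@En.n l387 (nat_lit 2764) (nat_lit 3) (nat_lit 10))
    (@En.n l28872 (nat_lit 8995) (nat_lit 4) (nat_lit 5))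
    (@En.i (nat_lit 13867) (nat_lit 5) (nat_lit 13))
    (@En.i (nat_lit 10620) (nat_lit 7) (nat_lit 10))
    (@En.n l7340 (nat_lit 2539) (nat_lit 12) (nat_lit 4))
    (@En.n l21738 (nat_lit 6650) (nat_lit 8) (nat_lit 4))
    (@En.n l28873 (nat_lit 5142) (nat_lit 10) (nat_lit 11))
    (@En.i (nat_lit 4460) (nat_lit 10) (nat_lit 4))
    (@En.n l23516 (nat_lit 6705) (nat_lit 4) (nat_lit 12))
    (@En.n l6904 (nat_lit 6733) (nat_lit 13) (nat_lit 12))
    (@En.n l1316 (nat_lit 6804) (nat_lit 14) (nat_lit 6))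
    (@En.n l9580 (nat_lit 9490) (nat_lit 12) (nat_lit 12))
    (@En.n l107 (nat_lit 6656) (nat_lit 15) (nat_lit 2))))
  (@Cl.mk (nat_lit 0x2000a000a000d0007000b000300060006000d0005000c00030009000e0004) (nat_lit 0x60008060580) (nat_lit 16) Lb.e (@T16.mk En
    (@En.i (nat_lit 6655) (nat_lit 6) (nat_lit 4))
    (@En.i (nat_lit 2371) (nat_lit 1) (nat_lit 14))
    (@En.n l15655 (nat_lit 5141) (nat_lit 2) (nat_lit 9))
    (@En.i (nat_lit 6708) (nat_lit 3) (nat_lit 3))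
    (@En.n l7280 (nat_lit 6748) (nat_lit 0) (nat_lit 12))
    (@En.i (nat_lit 6859) (nat_lit 5) (nat_lit 5))
    (@En.n l1638 (nat_lit 7464) (nat_lit 7) (nat_lit 13))
    (@En.n l107 (nat_lit 6857) (nat_lit 10) (nat_lit 6))
    (@En.n l9541 (nat_lit 7001) (nat_lit 12) (nat_lit 6))
    (@En.n l5978 (nat_lit 6703) (nat_lit 9) (nat_lit 3))
    (@En.n l9541 (nat_lit 2895) (nat_lit 0) (nat_lit 11))
    (@En.n l15648 (nat_lit 8218) (nat_lit 12) (nat_lit 7))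
    (@En.n l3839 (nat_lit 6705) (nat_lit 13) (nat_lit 13))
    (@En.n l2535 (nat_lit 6705) (nat_lit 14) (nat_lit 10))
    (@En.n l11131 (nat_lit 10838) (nat_lit 4) (nat_lit 10))
    (@En.n l17 (nat_lit 6657) (nat_lit 15) (nat_lit 2))))
  (@Cl.mk (nat_lit 0x2000d0007000c00030006000c0004000c000c0004000900040004000e000a) (nat_lit 0x102008027060071) (nat_lit 16) Lb.e (@T16.mk En
    (@En.n l97 (nat_lit 6655) (nat_lit 4) (nat_lit 10))
    (@En.i (nat_lit 11408) (nat_lit 1) (nat_lit 14))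
    (@En.n l1697 (nat_lit 6781) (nat_lit 12) (nat_lit 4))
    (@En.i (nat_lit 6653) (nat_lit 3) (nat_lit 4))
    (@En.n l4366 (nat_lit 5137) (nat_lit 4) (nat_lit 9))
    (@En.n l8244 (nat_lit 4452) (nat_lit 5) (nat_lit 4))
    (@En.n l61 (nat_lit 6857) (nat_lit 7) (nat_lit 12))
    (@En.n l8245 (nat_lit 6736) (nat_lit 8) (nat_lit 12))
    (@En.i (nat_lit 6783) (nat_lit 8) (nat_lit 4))
    (@En.n l1638 (nat_lit 9041) (nat_lit 10) (nat_lit 12))
    (@En.i (nat_lit 6100) (nat_lit 12) (nat_lit 6))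
    (@En.n l1430 (nat_lit 6777) (nat_lit 11) (nat_lit 3))
    (@En.n l4575 (nat_lit 2894) (nat_lit 0) (nat_lit 12))
    (@En.i (nat_lit 8225) (nat_lit 14) (nat_lit 7))
    (@En.i (nat_lit 6655) (nat_lit 2) (nat_lit 13))
    (@En.n l3 (nat_lit 6658) (nat_lit 15) (nat_lit 2))))
  (@Cl.mk (nat_lit 0x300060006000c0006000c000c0004000900040004000a000a000d000a0007) (nat_lit 0xa0a7010000060) (nat_lit 16) Lb.e (@T16.mk En
    (@En.n l3531 (nat_lit 2475) (nat_lit 0) (nat_lit 7))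
    (@En.n l6305 (nat_lit 6867) (nat_lit 11) (nat_lit 10))
    (@En.n l18 (nat_lit 6702) (nat_lit 5) (nat_lit 13))
    (@En.n l61 (nat_lit 6702) (nat_lit 6) (nat_lit 10))
    (@En.n l2130 (nat_lit 10837) (nat_lit 4) (nat_lit 10))
    (@En.n l6306 (nat_lit 2537) (nat_lit 12) (nat_lit 4))
    (@En.n l6307 (nat_lit 6654) (nat_lit 6) (nat_lit 4))
    (@En.n l3531 (nat_lit 1055) (nat_lit 0) (nat_lit 9))
    (@En.n l6308 (nat_lit 6617) (nat_lit 8) (nat_lit 4))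
    (@En.n l6309 (nat_lit 6703) (nat_lit 4) (nat_lit 12))
    (@En.i (nat_lit 6731) (nat_lit 11) (nat_lit 12))
    (@En.n l6310 (nat_lit 1279) (nat_lit 4) (nat_lit 6))
    (@En.n l6311 (nat_lit 9488) (nat_lit 13) (nat_lit 12))
    (@En.n l6312 (nat_lit 6777) (nat_lit 10) (nat_lit 6))
    (@En.n l6313 (nat_lit 2414) (nat_lit 12) (nat_lit 6))
    (@En.n l6314 (nat_lit 6655) (nat_lit 15) (nat_lit 3))))
  (@Cl.mk (nat_lit 0x2000c000b0007000a0004000b00050009000c0006000500090004000e0007) (nat_lit 0x9801090790020c0) (nat_lit 16) Lb.e (@T16.mk En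
    (@En.n l38919 (nat_lit 4458) (nat_lit 14) (nat_lit 7))
    (@En.n l17038 (nat_lit 6661) (nat_lit 1) (nat_lit 14))
    (@En.n l38920 (nat_lit 6610) (nat_lit 2) (nat_lit 4))
    (@En.n l612 (nat_lit 4459) (nat_lit 3) (nat_lit 9))
    (@En.n l50 (nat_lit 4460) (nat_lit 4) (nat_lit 5))
    (@En.n l17393 (nat_lit 9318) (nat_lit 5) (nat_lit 6))
    (@En.i (nat_lit 13997) (nat_lit 6) (nat_lit 12))
    (@En.i (nat_lit 10816) (nat_lit 10) (nat_lit 9))
    (@En.n l27337 (nat_lit 4923) (nat_lit 8) (nat_lit 5))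
    (@En.n l3327 (nat_lit 5355) (nat_lit 10) (nat_lit 11))
    (@En.n l20265 (nat_lit 6796) (nat_lit 10) (nat_lit 4))
    (@En.n l617 (nat_lit 1923) (nat_lit 8) (nat_lit 10))
    (@En.n l15186 (nat_lit 2884) (nat_lit 13) (nat_lit 7))
    (@En.n l7023 (nat_lit 6649) (nat_lit 14) (nat_lit 11))
    (@En.n l3327 (nat_lit 9784) (nat_lit 3) (nat_lit 12))
    (@En.n l107 (nat_lit 6660) (nat_lit 15) (nat_lit 2))))
  (@Cl.mk (nat_lit 0x20007000c000b0007000a0004000b0005000a0009000600050009000e0006) (nat_lit 0x250305070005b0) (nat_lit 16) Lb.e (@T16.mk En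
    (@En.n l28268 (nat_lit 6668) (nat_lit 6) (nat_lit 6))
    (@En.i (nat_lit 8755) (nat_lit 1) (nat_lit 14))
    (@En.n l28269 (nat_lit 6662) (nat_lit 2) (nat_lit 9))
    (@En.n l28270 (nat_lit 6664) (nat_lit 3) (nat_lit 5))
    (@En.n l3429 (nat_lit 8890) (nat_lit 4) (nat_lit 6))
    (@En.n l23334 (nat_lit 7424) (nat_lit 5) (nat_lit 9))
    (@En.i (nat_lit 10588) (nat_lit 7) (nat_lit 10))
    (@En.n l13520 (nat_lit 5194) (nat_lit 7) (nat_lit 5))
    (@En.n l23334 (nat_lit 7707) (nat_lit 9) (nat_lit 11))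
    (@En.n l28271 (nat_lit 2592) (nat_lit 9) (nat_lit 4))
    (@En.n l23334 (nat_lit 7038) (nat_lit 11) (nat_lit 10))
    (@En.n l5592 (nat_lit 3155) (nat_lit 12) (nat_lit 7))
    (@En.n l28272 (nat_lit 7042) (nat_lit 13) (nat_lit 11))
    (@En.i (nat_lit 10871) (nat_lit 14) (nat_lit 12))
    (@En.n l28273 (nat_lit 4458) (nat_lit 13) (nat_lit 7))
    (@En.n l28 (nat_lit 6661) (nat_lit 15) (nat_lit 2))))
  (@Cl.mk (nat_lit 0x20006000b000a0007000d000a000500030006000b000a00060009000e0005) (nat_lit 0x650840008004c0) (nat_lit 16) Lb.e (@T16.mk En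
    (@En.n l5393 (nat_lit 6666) (nat_lit 8) (nat_lit 5))
    (@En.n l9870 (nat_lit 8925) (nat_lit 1) (nat_lit 14))
    (@En.i (nat_lit 3896) (nat_lit 2) (nat_lit 9))
    (@En.n l32301 (nat_lit 8889) (nat_lit 3) (nat_lit 6))
    (@En.n l32302 (nat_lit 7423) (nat_lit 4) (nat_lit 10))
    (@En.n l5032 (nat_lit 10586) (nat_lit 6) (nat_lit 11))
    (@En.i (nat_lit 5193) (nat_lit 6) (nat_lit 6))
    (@En.n l32303 (nat_lit 6664) (nat_lit 7) (nat_lit 3))
    (@En.n l32304 (nat_lit 6885) (nat_lit 0) (nat_lit 5))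
    (@En.n l31910 (nat_lit 6661) (nat_lit 10) (nat_lit 10))
    (@En.n l32305 (nat_lit 6663) (nat_lit 11) (nat_lit 13))
    (@En.n l23177 (nat_lit 3165) (nat_lit 12) (nat_lit 7))
    (@En.n l1504 (nat_lit 7044) (nat_lit 13) (nat_lit 10))
    (@En.n l11247 (nat_lit 10870) (nat_lit 14) (nat_lit 11))
    (@En.n l3106 (nat_lit 4456) (nat_lit 13) (nat_lit 6))
    (@En.n l17 (nat_lit 6662) (nat_lit 15) (nat_lit 2))))
  (@Cl.mk (nat_lit 0x20006000c000a000d000900040003000b0006000b000a00070005000e0005) (nat_lit 0xa57300608000c0) (nat_lit 16) Lb.e (@T16.mk En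
    (@En.n l16866 (nat_lit 6197) (nat_lit 7) (nat_lit 5))
    (@En.n l16867 (nat_lit 8919) (nat_lit 1) (nat_lit 14))
    (@En.n l18 (nat_lit 3858) (nat_lit 2) (nat_lit 5))
    (@En.n l16868 (nat_lit 8891) (nat_lit 3) (nat_lit 7))
    (@En.i (nat_lit 7326) (nat_lit 4) (nat_lit 10))
    (@En.n l117 (nat_lit 9394) (nat_lit 6) (nat_lit 11))
    (@En.n l16869 (nat_lit 6662) (nat_lit 6) (nat_lit 6))
    (@En.n l16870 (nat_lit 6661) (nat_lit 8) (nat_lit 11))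
    (@En.n l7 (nat_lit 6665) (nat_lit 8) (nat_lit 3))
    (@En.n l1547 (nat_lit 6886) (nat_lit 9) (nat_lit 4))
    (@En.n l16871 (nat_lit 6670) (nat_lit 11) (nat_lit 9))
    (@En.n l5537 (nat_lit 3273) (nat_lit 12) (nat_lit 13))
    (@En.n l5542 (nat_lit 7043) (nat_lit 13) (nat_lit 10))
    (@En.n l16871 (nat_lit 10865) (nat_lit 14) (nat_lit 12))
    (@En.n l107 (nat_lit 4455) (nat_lit 13) (nat_lit 6))
    (@En.n l3 (nat_lit 6663) (nat_lit 15) (nat_lit 2))))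
  (@Cl.mk (nat_lit 0x20006000c000a0007000d0004000b00030006000b000a00050009000e0005) (nat_lit 0x96090900800350) (nat_lit 16) Lb.e (@T16.mk En
    (@En.n l37106 (nat_lit 6667) (nat_lit 8) (nat_lit 5))
    (@En.n l37107 (nat_lit 8926) (nat_lit 1) (nat_lit 14))
    (@En.n l37108 (nat_lit 3897) (nat_lit 2) (nat_lit 9))
    (@En.n l37109 (nat_lit 9772) (nat_lit 3) (nat_lit 5))
    (@En.i (nat_lit 7425) (nat_lit 4) (nat_lit 10))
    (@En.n l117 (nat_lit 10587) (nat_lit 6) (nat_lit 11))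
    (@En.n l2372 (nat_lit 8062) (nat_lit 12) (nat_lit 6))
    (@En.n l37110 (nat_lit 6662) (nat_lit 7) (nat_lit 3))
    (@En.n l1722 (nat_lit 7174) (nat_lit 0) (nat_lit 11))
    (@En.n l15051 (nat_lit 6671) (nat_lit 9) (nat_lit 4))
    (@En.n l617 (nat_lit 6665) (nat_lit 11) (nat_lit 13))
    (@En.n l17 (nat_lit 3166) (nat_lit 12) (nat_lit 7))
    (@En.n l2427 (nat_lit 7045) (nat_lit 13) (nat_lit 10))
    (@En.n l21904 (nat_lit 8054) (nat_lit 14) (nat_lit 12))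
    (@En.n l107 (nat_lit 4451) (nat_lit 13) (nat_lit 6))
    (@En.n l3 (nat_lit 6664) (nat_lit 15) (nat_lit 2))))
  (@Cl.mk (nat_lit 0x20006000d000a000d0003000a0003000b0006000b000a00060005000e0005) (nat_lit 0x95805030800050) (nat_lit 16) Lb.e (@T16.mk En
    (@En.n l28244 (nat_lit 6669) (nat_lit 5) (nat_lit 5))
    (@En.n l16867 (nat_lit 8920) (nat_lit 1) (nat_lit 14))
    (@En.n l18 (nat_lit 3857) (nat_lit 2) (nat_lit 5))
    (@En.n l23031 (nat_lit 9773) (nat_lit 3) (nat_lit 6))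
    (@En.i (nat_lit 7329) (nat_lit 4) (nat_lit 10))
    (@En.n l117 (nat_lit 9397) (nat_lit 6) (nat_lit 11))
    (@En.n l61 (nat_lit 6664) (nat_lit 6) (nat_lit 6))
    (@En.i (nat_lit 6476) (nat_lit 8) (nat_lit 11))
    (@En.i (nat_lit 6663) (nat_lit 8) (nat_lit 3))
    (@En.n l3348 (nat_lit 7173) (nat_lit 10) (nat_lit 10))
    (@En.n l20259 (nat_lit 2315) (nat_lit 10) (nat_lit 3))
    (@En.n l13397 (nat_lit 4183) (nat_lit 12) (nat_lit 13))
    (@En.i (nat_lit 7046) (nat_lit 13) (nat_lit 10))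
    (@En.n l16871 (nat_lit 8053) (nat_lit 14) (nat_lit 13))
    (@En.n l107 (nat_lit 4449) (nat_lit 13) (nat_lit 6))
    (@En.n l3 (nat_lit 6665) (nat_lit 15) (nat_lit 2))))
  (@Cl.mk (nat_lit 0x30006000b000b000b0007000a000500050005000b000a0006000d00090005) (nat_lit 0x89004000540270) (nat_lit 16) Lb.e (@T16.mk En
    (@En.n l889 (nat_lit 6887) (nat_lit 0) (nat_lit 5))
    (@En.i (nat_lit 6668) (nat_lit 0) (nat_lit 9))
    (@En.n l28638 (nat_lit 6197) (nat_lit 2) (nat_lit 13))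
    (@En.n l9458 (nat_lit 3148) (nat_lit 3) (nat_lit 6))
    (@En.i (nat_lit 7051) (nat_lit 4) (nat_lit 10))
    (@En.i (nat_lit 7554) (nat_lit 6) (nat_lit 11))
    (@En.n l11 (nat_lit 6193) (nat_lit 11) (nat_lit 5))
    (@En.n l152 (nat_lit 7909) (nat_lit 11) (nat_lit 5))
    (@En.n l28639 (nat_lit 8734) (nat_lit 8) (nat_lit 5))
    (@En.i (nat_lit 3898) (nat_lit 8) (nat_lit 10))
    (@En.n l4780 (nat_lit 8892) (nat_lit 1) (nat_lit 7))
    (@En.n l20622 (nat_lit 7132) (nat_lit 5) (nat_lit 11))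
    (@En.n l14226 (nat_lit 6662) (nat_lit 5) (nat_lit 11))
    (@En.i (nat_lit 9435) (nat_lit 14) (nat_lit 11))
    (@En.n l17 (nat_lit 1647) (nat_lit 12) (nat_lit 6))
    (@En.n l2943 (nat_lit 6667) (nat_lit 15) (nat_lit 3))))
  (@Cl.mk (nat_lit 0x30006000b000b000b0006000a000500050005000c000a0006000d0004000a) (nat_lit 0x89004000840307) (nat_lit 16) Lb.e (@T16.mk En
    (@En.n l781 (nat_lit 7175) (nat_lit 0) (nat_lit 10))
    (@En.n l25339 (nat_lit 6672) (nat_lit 15) (nat_lit 4))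
    (@En.n l39518 (nat_lit 6669) (nat_lit 0) (nat_lit 13))
    (@En.n l30609 (nat_lit 3154) (nat_lit 1) (nat_lit 6))
    (@En.n l8631 (nat_lit 7122) (nat_lit 4) (nat_lit 10))
    (@En.n l24089 (nat_lit 10997) (nat_lit 6) (nat_lit 12))
    (@En.n l39519 (nat_lit 6192) (nat_lit 11) (nat_lit 5))
    (@En.n l55 (nat_lit 7908) (nat_lit 11) (nat_lit 5))
    (@En.n l11084 (nat_lit 7429) (nat_lit 8) (nat_lit 5))
    (@En.n l8631 (nat_lit 3902) (nat_lit 9) (nat_lit 10))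
    (@En.n l39520 (nat_lit 9751) (nat_lit 1) (nat_lit 6))
    (@En.n l1415 (nat_lit 7134) (nat_lit 5) (nat_lit 11))
    (@En.n l39521 (nat_lit 6664) (nat_lit 5) (nat_lit 11))
    (@En.n l39522 (nat_lit 9440) (nat_lit 14) (nat_lit 11))
    (@En.n l152 (nat_lit 5605) (nat_lit 12) (nat_lit 6))
    (@En.n l20805 (nat_lit 6666) (nat_lit 15) (nat_lit 3))))
  (@Cl.mk (nat_lit 0x4000a0005000a000a000a00070006000a000600060006000c000b00060009) (nat_lit 0x507800050004506) (nat_lit 16) Lb.e (@T16.mk En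
    (@En.n l41181 (nat_lit 6036) (nat_lit 9) (nat_lit 9))
    (@En.n l41182 (nat_lit 2123) (nat_lit 1) (nat_lit 6))
    (@En.i (nat_lit 7130) (nat_lit 5) (nat_lit 11))
    (@En.n l39003 (nat_lit 7555) (nat_lit 3) (nat_lit 12))
    (@En.n l11 (nat_lit 6194) (nat_lit 10) (nat_lit 6))
    (@En.n l152 (nat_lit 7910) (nat_lit 10) (nat_lit 6))
    (@En.n l37910 (nat_lit 8752) (nat_lit 6) (nat_lit 6))
    (@En.n l50 (nat_lit 6666) (nat_lit 9) (nat_lit 10))
    (@En.n l16078 (nat_lit 6667) (nat_lit 10) (nat_lit 6))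
    (@En.n l41183 (nat_lit 8894) (nat_lit 9) (nat_lit 7))
    (@En.n l41184 (nat_lit 7133) (nat_lit 6) (nat_lit 10))
    (@En.n l41185 (nat_lit 6661) (nat_lit 6) (nat_lit 10))
    (@En.n l39003 (nat_lit 9439) (nat_lit 10) (nat_lit 10))
    (@En.n l14115 (nat_lit 1643) (nat_lit 14) (nat_lit 5))
    (@En.n l41186 (nat_lit 7736) (nat_lit 0) (nat_lit 10))
    (@En.n l41187 (nat_lit 6891) (nat_lit 15) (nat_lit 4))))
  (@Cl.mk (nat_lit 0x300090003000a0006000b000b000b00070006000500050005000d000a000d) (nat_lit 0x406039000000942) (nat_lit 16) Lb.e (@T16.mk En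
    (@En.n l2038 (nat_lit 1951) (nat_lit 0) (nat_lit 13))
    (@En.n l24672 (nat_lit 5313) (nat_lit 3) (nat_lit 10))
    (@En.n l5801 (nat_lit 8059) (nat_lit 2) (nat_lit 13))
    (@En.n l11407 (nat_lit 6189) (nat_lit 11) (nat_lit 5))
    (@En.n l2172 (nat_lit 7906) (nat_lit 11) (nat_lit 5))
    (@En.n l24673 (nat_lit 8737) (nat_lit 5) (nat_lit 5))
    (@En.i (nat_lit 3872) (nat_lit 10) (nat_lit 6))
    (@En.n l24674 (nat_lit 9750) (nat_lit 7) (nat_lit 7))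
    (@En.n l742 (nat_lit 7769) (nat_lit 5) (nat_lit 11))
    (@En.n l24675 (nat_lit 6665) (nat_lit 5) (nat_lit 11))
    (@En.n l3517 (nat_lit 9105) (nat_lit 11) (nat_lit 11))
    (@En.n l24676 (nat_lit 6667) (nat_lit 14) (nat_lit 6))
    (@En.n l28 (nat_lit 6474) (nat_lit 13) (nat_lit 10))
    (@En.n l24677 (nat_lit 6197) (nat_lit 15) (nat_lit 3))
    (@En.n l24673 (nat_lit 5854) (nat_lit 0) (nat_lit 9))
    (@En.n l24678 (nat_lit 2317) (nat_lit 15) (nat_lit 3))))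
  (@Cl.mk (nat_lit 0x20007000d000b00090003000a000a0005000a0009000700060006000e0006) (nat_lit 0xb5203008000060) (nat_lit 16) Lb.e (@T16.mk En
    (@En.n l14249 (nat_lit 6040) (nat_lit 5) (nat_lit 6))
    (@En.n l134 (nat_lit 9338) (nat_lit 1) (nat_lit 14))
    (@En.n l11 (nat_lit 7049) (nat_lit 10) (nat_lit 6))
    (@En.n l14250 (nat_lit 6665) (nat_lit 3) (nat_lit 6))
    (@En.n l14251 (nat_lit 8973) (nat_lit 4) (nat_lit 7))
    (@En.n l14250 (nat_lit 7405) (nat_lit 5) (nat_lit 9))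
    (@En.i (nat_lit 8756) (nat_lit 7) (nat_lit 10))
    (@En.n l532 (nat_lit 6661) (nat_lit 7) (nat_lit 5))
    (@En.n l14252 (nat_lit 7038) (nat_lit 9) (nat_lit 10))
    (@En.n l14253 (nat_lit 7706) (nat_lit 10) (nat_lit 10))
    (@En.n l14254 (nat_lit 7040) (nat_lit 10) (nat_lit 3))
    (@En.n l6788 (nat_lit 1911) (nat_lit 12) (nat_lit 9))
    (@En.n l14255 (nat_lit 7041) (nat_lit 13) (nat_lit 11))
    (@En.i (nat_lit 10873) (nat_lit 14) (nat_lit 13))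
    (@En.n l14256 (nat_lit 6805) (nat_lit 3) (nat_lit 7))
    (@En.n l7 (nat_lit 6670) (nat_lit 15) (nat_lit 2))))
  (@Cl.mk (nat_lit 0x20006000c000b000b00080004000b00050005000b000a00050008000e0005) (nat_lit 0xa7030500000160) (nat_lit 16) Lb.e (@T16.mk En
    (@En.n l6979 (nat_lit 6672) (nat_lit 6) (nat_lit 5))
    (@En.n l16268 (nat_lit 7537) (nat_lit 1) (nat_lit 14))
    (@En.n l10957 (nat_lit 1170) (nat_lit 2) (nat_lit 8))
    (@En.n l22397 (nat_lit 8517) (nat_lit 3) (nat_lit 5))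
    (@En.n l1545 (nat_lit 7210) (nat_lit 4) (nat_lit 10))
    (@En.n l7003 (nat_lit 10590) (nat_lit 6) (nat_lit 11))
    (@En.n l2828 (nat_lit 8187) (nat_lit 6) (nat_lit 5))
    (@En.i (nat_lit 2314) (nat_lit 7) (nat_lit 5))
    (@En.n l33078 (nat_lit 6673) (nat_lit 9) (nat_lit 11))
    (@En.n l16268 (nat_lit 6878) (nat_lit 9) (nat_lit 4))
    (@En.n l17034 (nat_lit 3164) (nat_lit 11) (nat_lit 8))
    (@En.n l6941 (nat_lit 6872) (nat_lit 12) (nat_lit 11))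
    (@En.n l19258 (nat_lit 6662) (nat_lit 13) (nat_lit 11))
    (@En.n l33079 (nat_lit 10995) (nat_lit 14) (nat_lit 12))
    (@En.n l33080 (nat_lit 6714) (nat_lit 13) (nat_lit 6))
    (@En.n l50 (nat_lit 6671) (nat_lit 15) (nat_lit 2))))
noncomputable def a417 : T16 Cl := @T16.mk Cl
  (@Cl.mk (nat_lit 0x4000a00050005000b000b000b00060009000500050005000c000b000b0007) (nat_lit 0x80081201000a660) (nat_lit 16) Lb.e (@T16.mk En
    (@En.n l22962 (nat_lit 3158) (nat_lit 0) (nat_lit 7))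
    (@En.n l25060 (nat_lit 6874) (nat_lit 5) (nat_lit 11))
    (@En.n l25061 (nat_lit 6666) (nat_lit 5) (nat_lit 11))
    (@En.n l30303 (nat_lit 10998) (nat_lit 3) (nat_lit 12))
    (@En.n l2210 (nat_lit 7004) (nat_lit 11) (nat_lit 5))
    (@En.n l30304 (nat_lit 7481) (nat_lit 11) (nat_lit 5))
    (@En.i (nat_lit 8505) (nat_lit 0) (nat_lit 5))
    (@En.n l30305 (nat_lit 1169) (nat_lit 9) (nat_lit 9))
    (@En.n l30306 (nat_lit 8507) (nat_lit 1) (nat_lit 6))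
    (@En.n l30307 (nat_lit 7477) (nat_lit 5) (nat_lit 11))
    (@En.n l6367 (nat_lit 6671) (nat_lit 5) (nat_lit 11))
    (@En.n l30308 (nat_lit 9452) (nat_lit 12) (nat_lit 11))
    (@En.n l24955 (nat_lit 7475) (nat_lit 11) (nat_lit 5))
    (@En.n l7923 (nat_lit 2318) (nat_lit 0) (nat_lit 5))
    (@En.n l15899 (nat_lit 6883) (nat_lit 0) (nat_lit 10))
    (@En.n l6366 (nat_lit 6877) (nat_lit 1) (nat_lit 4))))
  (@Cl.mk (nat_lit 0x200070006000c000c0008000b00040004000a00090005000a0008000e0006) (nat_lit 0x3034000001270) (nat_lit 16) Lb.e (@T16.mk En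
    (@En.n l42174 (nat_lit 6883) (nat_lit 7) (nat_lit 6))
    (@En.n l3749 (nat_lit 7949) (nat_lit 1) (nat_lit 14))
    (@En.n l42175 (nat_lit 6671) (nat_lit 2) (nat_lit 8))
    (@En.n l30455 (nat_lit 1169) (nat_lit 3) (nat_lit 10))
    (@En.n l36932 (nat_lit 8519) (nat_lit 4) (nat_lit 5))
    (@En.i (nat_lit 7220) (nat_lit 5) (nat_lit 9))
    (@En.n l17120 (nat_lit 10593) (nat_lit 7) (nat_lit 10))
    (@En.n l18 (nat_lit 8188) (nat_lit 7) (nat_lit 4))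
    (@En.n l42176 (nat_lit 2591) (nat_lit 8) (nat_lit 4))
    (@En.i (nat_lit 5814) (nat_lit 10) (nat_lit 11))
    (@En.n l4990 (nat_lit 3163) (nat_lit 11) (nat_lit 8))
    (@En.n l42177 (nat_lit 6871) (nat_lit 12) (nat_lit 12))
    (@En.n l42178 (nat_lit 6661) (nat_lit 13) (nat_lit 12))
    (@En.n l42179 (nat_lit 11229) (nat_lit 14) (nat_lit 6))
    (@En.n l7406 (nat_lit 6784) (nat_lit 5) (nat_lit 7))
    (@En.n l11 (nat_lit 6673) (nat_lit 15) (nat_lit 2))))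
  (@Cl.mk (nat_lit 0x2000b0008000c00090009000500040009000c0008000700070004000e0007) (nat_lit 0x648210079200080) (nat_lit 16) Lb.e (@T16.mk En
    (@En.n l20635 (nat_lit 5965) (nat_lit 14) (nat_lit 7))
    (@En.n l20636 (nat_lit 7041) (nat_lit 1) (nat_lit 14))
    (@En.n l4862 (nat_lit 5392) (nat_lit 2) (nat_lit 4))
    (@En.n l2172 (nat_lit 6620) (nat_lit 9) (nat_lit 7))
    (@En.i (nat_lit 6676) (nat_lit 4) (nat_lit 7))
    (@En.n l4864 (nat_lit 9314) (nat_lit 5) (nat_lit 8))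
    (@En.i (nat_lit 13854) (nat_lit 6) (nat_lit 12))
    (@En.i (nat_lit 6811) (nat_lit 8) (nat_lit 9))
    (@En.n l55 (nat_lit 6808) (nat_lit 8) (nat_lit 4))
    (@En.n l4861 (nat_lit 6649) (nat_lit 9) (nat_lit 5))
    (@En.n l396 (nat_lit 1922) (nat_lit 7) (nat_lit 9))
    (@En.n l4865 (nat_lit 2025) (nat_lit 12) (nat_lit 9))
    (@En.n l8586 (nat_lit 2436) (nat_lit 13) (nat_lit 12))
    (@En.n l4868 (nat_lit 1711) (nat_lit 14) (nat_lit 8))
    (@En.n l4861 (nat_lit 6280) (nat_lit 12) (nat_lit 11))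
    (@En.n l107 (nat_lit 6674) (nat_lit 15) (nat_lit 2))))
  (@Cl.mk (nat_lit 0x2000a000d0008000c0003000a00060004000a000d000800060003000e0006) (nat_lit 0x695703008a30060) (nat_lit 16) Lb.e (@T16.mk En
    (@En.n l16610 (nat_lit 5967) (nat_lit 14) (nat_lit 6))
    (@En.n l14723 (nat_lit 7043) (nat_lit 1) (nat_lit 14))
    (@En.n l16611 (nat_lit 6678) (nat_lit 2) (nat_lit 3))
    (@En.n l18 (nat_lit 1357) (nat_lit 3) (nat_lit 6))
    (@En.n l6081 (nat_lit 9276) (nat_lit 4) (nat_lit 8))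
    (@En.n l4573 (nat_lit 13855) (nat_lit 5) (nat_lit 13))
    (@En.i (nat_lit 6152) (nat_lit 7) (nat_lit 10))
    (@En.i (nat_lit 6746) (nat_lit 7) (nat_lit 4))
    (@En.n l16612 (nat_lit 5973) (nat_lit 8) (nat_lit 6))
    (@En.n l6831 (nat_lit 6649) (nat_lit 10) (nat_lit 10))
    (@En.n l7 (nat_lit 6676) (nat_lit 10) (nat_lit 3))
    (@En.n l1525 (nat_lit 2404) (nat_lit 0) (nat_lit 12))
    (@En.i (nat_lit 6674) (nat_lit 13) (nat_lit 8))
    (@En.n l15737 (nat_lit 6626) (nat_lit 5) (nat_lit 13))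
    (@En.n l16613 (nat_lit 9669) (nat_lit 12) (nat_lit 10))
    (@En.n l107 (nat_lit 6675) (nat_lit 15) (nat_lit 2))))
  (@Cl.mk (nat_lit 0x2000a000d000b00090003000a00060005000a000d000700060003000e0006) (nat_lit 0x4a6702008b00030) (nat_lit 16) Lb.e (@T16.mk En
    (@En.i (nat_lit 5396) (nat_lit 14) (nat_lit 6))
    (@En.n l97 (nat_lit 7046) (nat_lit 1) (nat_lit 14))
    (@En.n l797 (nat_lit 5393) (nat_lit 2) (nat_lit 3))
    (@En.n l18 (nat_lit 1361) (nat_lit 3) (nat_lit 6))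
    (@En.n l6081 (nat_lit 9482) (nat_lit 4) (nat_lit 7))
    (@En.i (nat_lit 13879) (nat_lit 5) (nat_lit 13))
    (@En.i (nat_lit 6216) (nat_lit 7) (nat_lit 10))
    (@En.n l55 (nat_lit 6733) (nat_lit 7) (nat_lit 5))
    (@En.n l61 (nat_lit 6677) (nat_lit 8) (nat_lit 6))
    (@En.i (nat_lit 6618) (nat_lit 10) (nat_lit 10))
    (@En.i (nat_lit 6675) (nat_lit 10) (nat_lit 3))
    (@En.i (nat_lit 6933) (nat_lit 0) (nat_lit 9))
    (@En.i (nat_lit 6754) (nat_lit 13) (nat_lit 11))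
    (@En.n l2195 (nat_lit 6628) (nat_lit 5) (nat_lit 13))
    (@En.n l5732 (nat_lit 10358) (nat_lit 12) (nat_lit 10))
    (@En.n l107 (nat_lit 6676) (nat_lit 15) (nat_lit 2))))
  (@Cl.mk (nat_lit 0x2000a0006000d000c000a000300060004000a000d0006000a0003000e0006) (nat_lit 0x50b3800045030b0) (nat_lit 16) Lb.e (@T16.mk En
    (@En.n l28503 (nat_lit 5971) (nat_lit 6) (nat_lit 6))
    (@En.n l2429 (nat_lit 7045) (nat_lit 1) (nat_lit 14))
    (@En.n l664 (nat_lit 5399) (nat_lit 2) (nat_lit 3))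
    (@En.n l11699 (nat_lit 2762) (nat_lit 3) (nat_lit 10))
    (@En.n l36912 (nat_lit 9483) (nat_lit 4) (nat_lit 6))
    (@En.i (nat_lit 13866) (nat_lit 5) (nat_lit 13))
    (@En.n l159 (nat_lit 6213) (nat_lit 13) (nat_lit 10))
    (@En.i (nat_lit 6656) (nat_lit 7) (nat_lit 4))
    (@En.n l28502 (nat_lit 6602) (nat_lit 8) (nat_lit 6))
    (@En.n l36193 (nat_lit 5973) (nat_lit 9) (nat_lit 3))
    (@En.n l1722 (nat_lit 6935) (nat_lit 0) (nat_lit 10))
    (@En.n l36913 (nat_lit 6650) (nat_lit 12) (nat_lit 12))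
    (@En.n l617 (nat_lit 6676) (nat_lit 13) (nat_lit 13))
    (@En.n l11699 (nat_lit 6801) (nat_lit 14) (nat_lit 6))
    (@En.n l27444 (nat_lit 10357) (nat_lit 4) (nat_lit 10))
    (@En.n l107 (nat_lit 6677) (nat_lit 15) (nat_lit 2))))
  (@Cl.mk (nat_lit 0x2000a000d0007000c0003000b00060004000a000d000500090003000e0006) (nat_lit 0x460204008b02010) (nat_lit 16) Lb.e (@T16.mk En
    (@En.n l15436 (nat_lit 5395) (nat_lit 14) (nat_lit 6))
    (@En.n l95 (nat_lit 4430) (nat_lit 1) (nat_lit 14))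
    (@En.n l30357 (nat_lit 6675) (nat_lit 2) (nat_lit 3))
    (@En.n l31648 (nat_lit 2791) (nat_lit 3) (nat_lit 9))
    (@En.n l31933 (nat_lit 8210) (nat_lit 4) (nat_lit 5))
    (@En.n l14654 (nat_lit 13303) (nat_lit 5) (nat_lit 13))
    (@En.n l1501 (nat_lit 6146) (nat_lit 7) (nat_lit 10))
    (@En.n l14654 (nat_lit 6744) (nat_lit 7) (nat_lit 4))
    (@En.n l22503 (nat_lit 6679) (nat_lit 8) (nat_lit 6))
    (@En.n l4163 (nat_lit 6594) (nat_lit 10) (nat_lit 11))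
    (@En.n l4806 (nat_lit 5393) (nat_lit 10) (nat_lit 3))
    (@En.i (nat_lit 2406) (nat_lit 0) (nat_lit 12))
    (@En.n l14654 (nat_lit 5392) (nat_lit 13) (nat_lit 7))
    (@En.i (nat_lit 5117) (nat_lit 5) (nat_lit 13))
    (@En.n l22503 (nat_lit 8456) (nat_lit 12) (nat_lit 10))
    (@En.n l7 (nat_lit 6678) (nat_lit 15) (nat_lit 2))))
  (@Cl.mk (nat_lit 0x2000a0007000d0008000d000300060003000a000d000900080003000e0006) (nat_lit 0x4073a0006064010) (nat_lit 16) Lb.e (@T16.mk En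
    (@En.n l18 (nat_lit 6680) (nat_lit 6) (nat_lit 6))
    (@En.n l1105 (nat_lit 4426) (nat_lit 1) (nat_lit 14))
    (@En.n l1106 (nat_lit 5973) (nat_lit 2) (nat_lit 3))
    (@En.n l619 (nat_lit 2795) (nat_lit 3) (nat_lit 8))
    (@En.n l36916 (nat_lit 7953) (nat_lit 4) (nat_lit 9))
    (@En.n l26231 (nat_lit 13302) (nat_lit 5) (nat_lit 13))
    (@En.n l36917 (nat_lit 6149) (nat_lit 13) (nat_lit 10))
    (@En.n l15623 (nat_lit 6681) (nat_lit 7) (nat_lit 3))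
    (@En.n l14350 (nat_lit 4966) (nat_lit 12) (nat_lit 6))
    (@En.n l9444 (nat_lit 5399) (nat_lit 9) (nat_lit 3))
    (@En.n l30078 (nat_lit 2276) (nat_lit 0) (nat_lit 13))
    (@En.n l36918 (nat_lit 6682) (nat_lit 12) (nat_lit 8))
    (@En.n l21836 (nat_lit 6678) (nat_lit 13) (nat_lit 13))
    (@En.n l26231 (nat_lit 5046) (nat_lit 14) (nat_lit 7))
    (@En.n l1738 (nat_lit 8458) (nat_lit 4) (nat_lit 10))
    (@En.n l17 (nat_lit 6679) (nat_lit 15) (nat_lit 2))))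
  (@Cl.mk (nat_lit 0x300060003000a000a000d000a0009000300060006000a0006000d0007000d) (nat_lit 0x6717500050609) (nat_lit 16) Lb.e (@T16.mk En
    (@En.i (nat_lit 2271) (nat_lit 0) (nat_lit 13))
    (@En.i (nat_lit 6692) (nat_lit 3) (nat_lit 7))
    (@En.i (nat_lit 5395) (nat_lit 11) (nat_lit 13))
    (@En.i (nat_lit 5047) (nat_lit 5) (nat_lit 6))
    (@En.n l1738 (nat_lit 8453) (nat_lit 13) (nat_lit 10))
    (@En.n l17 (nat_lit 6688) (nat_lit 10) (nat_lit 6))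
    (@En.i (nat_lit 4437) (nat_lit 12) (nat_lit 6))
    (@En.n l1106 (nat_lit 5969) (nat_lit 7) (nat_lit 3))
    (@En.n l619 (nat_lit 2794) (nat_lit 0) (nat_lit 9))
    (@En.n l15622 (nat_lit 7956) (nat_lit 10) (nat_lit 10))
    (@En.i (nat_lit 6679) (nat_lit 5) (nat_lit 13))
    (@En.n l5 (nat_lit 6679) (nat_lit 6) (nat_lit 10))
    (@En.i (nat_lit 6150) (nat_lit 4) (nat_lit 10))
    (@En.i (nat_lit 6654) (nat_lit 5) (nat_lit 3))
    (@En.i (nat_lit 4947) (nat_lit 12) (nat_lit 6))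
    (@En.i (nat_lit 5394) (nat_lit 15) (nat_lit 3))))
  (@Cl.mk (nat_lit 0x2000b0007000c0008000d000500040003000a000d000900080003000e0006) (nat_lit 0x23a0006b42010) (nat_lit 16) Lb.e (@T16.mk En
    (@En.n l28856 (nat_lit 6654) (nat_lit 14) (nat_lit 6))
    (@En.n l7165 (nat_lit 4427) (nat_lit 1) (nat_lit 14))
    (@En.n l152 (nat_lit 6650) (nat_lit 2) (nat_lit 3))
    (@En.n l28857 (nat_lit 2810) (nat_lit 3) (nat_lit 8))
    (@En.i (nat_lit 7950) (nat_lit 4) (nat_lit 9))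
    (@En.n l15223 (nat_lit 13305) (nat_lit 5) (nat_lit 13))
    (@En.n l28858 (nat_lit 10919) (nat_lit 7) (nat_lit 10))
    (@En.n l28859 (nat_lit 6679) (nat_lit 7) (nat_lit 3))
    (@En.n l18 (nat_lit 6704) (nat_lit 0) (nat_lit 4))
    (@En.n l25808 (nat_lit 6683) (nat_lit 9) (nat_lit 5))
    (@En.i (nat_lit 2277) (nat_lit 11) (nat_lit 13))
    (@En.n l61 (nat_lit 6699) (nat_lit 12) (nat_lit 8))
    (@En.n l15223 (nat_lit 6744) (nat_lit 13) (nat_lit 12))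
    (@En.n l28860 (nat_lit 5091) (nat_lit 14) (nat_lit 7))
    (@En.i (nat_lit 8881) (nat_lit 12) (nat_lit 11))
    (@En.n l28 (nat_lit 6681) (nat_lit 15) (nat_lit 2))))
  (@Cl.mk (nat_lit 0x2000b00080008000d0009000500030009000c0008000800070004000e0007) (nat_lit 0x742220000440090) (nat_lit 16) Lb.e (@T16.mk En
    (@En.n l35830 (nat_lit 6692) (nat_lit 7) (nat_lit 7))
    (@En.n l35831 (nat_lit 5914) (nat_lit 1) (nat_lit 14))
    (@En.n l35832 (nat_lit 6594) (nat_lit 2) (nat_lit 4))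
    (@En.n l35833 (nat_lit 5399) (nat_lit 3) (nat_lit 7))
    (@En.n l35834 (nat_lit 6616) (nat_lit 4) (nat_lit 8))
    (@En.n l35835 (nat_lit 7954) (nat_lit 5) (nat_lit 8))
    (@En.n l35836 (nat_lit 13643) (nat_lit 6) (nat_lit 12))
    (@En.n l35833 (nat_lit 11261) (nat_lit 8) (nat_lit 9))
    (@En.n l18 (nat_lit 6699) (nat_lit 8) (nat_lit 3))
    (@En.n l35837 (nat_lit 1873) (nat_lit 0) (nat_lit 5))
    (@En.n l35838 (nat_lit 1771) (nat_lit 11) (nat_lit 9))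
    (@En.i (nat_lit 6828) (nat_lit 12) (nat_lit 13))
    (@En.n l35839 (nat_lit 6716) (nat_lit 8) (nat_lit 8))
    (@En.n l35840 (nat_lit 5045) (nat_lit 14) (nat_lit 8))
    (@En.n l35841 (nat_lit 8496) (nat_lit 12) (nat_lit 11))
    (@En.n l28 (nat_lit 6682) (nat_lit 15) (nat_lit 2))))
  (@Cl.mk (nat_lit 0x2000b000a0008000d0009000500030006000a000d000800070003000e0006) (nat_lit 0x855230003040010) (nat_lit 16) Lb.e (@T16.mk En
    (@En.n l41436 (nat_lit 6684) (nat_lit 14) (nat_lit 6))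
    (@En.n l24174 (nat_lit 4429) (nat_lit 1) (nat_lit 14))
    (@En.n l13051 (nat_lit 4459) (nat_lit 2) (nat_lit 3))
    (@En.i (nat_lit 2809) (nat_lit 3) (nat_lit 7))
    (@En.n l35827 (nat_lit 7960) (nat_lit 4) (nat_lit 8))
    (@En.n l41437 (nat_lit 13986) (nat_lit 5) (nat_lit 13))
    (@En.n l14627 (nat_lit 10826) (nat_lit 9) (nat_lit 10))
    (@En.n l15191 (nat_lit 4968) (nat_lit 12) (nat_lit 6))
    (@En.n l31227 (nat_lit 6687) (nat_lit 8) (nat_lit 3))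
    (@En.n l16490 (nat_lit 3458) (nat_lit 0) (nat_lit 5))
    (@En.n l7479 (nat_lit 6610) (nat_lit 11) (nat_lit 9))
    (@En.n l3039 (nat_lit 6685) (nat_lit 12) (nat_lit 13))
    (@En.n l7477 (nat_lit 6828) (nat_lit 13) (nat_lit 8))
    (@En.n l41438 (nat_lit 6679) (nat_lit 14) (nat_lit 10))
    (@En.n l37984 (nat_lit 8404) (nat_lit 12) (nat_lit 11))
    (@En.n l3 (nat_lit 6683) (nat_lit 15) (nat_lit 2))))
  (@Cl.mk (nat_lit 0x300060006000b000a0007000d0008000500030006000a000a000d00090008) (nat_lit 0x8602300054154) (nat_lit 16) Lb.e (@T16.mk En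
    (@En.n l619 (nat_lit 2803) (nat_lit 0) (nat_lit 8))
    (@En.n l15622 (nat_lit 7961) (nat_lit 11) (nat_lit 9))
    (@En.n l29948 (nat_lit 6683) (nat_lit 5) (nat_lit 13))
    (@En.n l29949 (nat_lit 6683) (nat_lit 6) (nat_lit 10))
    (@En.n l25768 (nat_lit 10825) (nat_lit 4) (nat_lit 10))
    (@En.n l29950 (nat_lit 4967) (nat_lit 12) (nat_lit 6))
    (@En.n l7841 (nat_lit 6617) (nat_lit 6) (nat_lit 3))
    (@En.n l29951 (nat_lit 3460) (nat_lit 0) (nat_lit 5))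
    (@En.i (nat_lit 6611) (nat_lit 9) (nat_lit 8))
    (@En.n l18827 (nat_lit 6686) (nat_lit 10) (nat_lit 13))
    (@En.n l29952 (nat_lit 6826) (nat_lit 3) (nat_lit 7))
    (@En.i (nat_lit 6680) (nat_lit 4) (nat_lit 10))
    (@En.n l29953 (nat_lit 9642) (nat_lit 13) (nat_lit 11))
    (@En.n l17 (nat_lit 6773) (nat_lit 10) (nat_lit 6))
    (@En.i (nat_lit 4444) (nat_lit 12) (nat_lit 6))
    (@En.n l7840 (nat_lit 4456) (nat_lit 15) (nat_lit 3))))
  (@Cl.mk (nat_lit 0x2000c000a000d000800040003000c0006000a000d000400080003000e0006) (nat_lit 0x851300600004010) (nat_lit 16) Lb.e (@T16.mk En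
    (@En.n l476 (nat_lit 6686) (nat_lit 14) (nat_lit 6))
    (@En.n l3815 (nat_lit 6303) (nat_lit 1) (nat_lit 14))
    (@En.n l3291 (nat_lit 4461) (nat_lit 2) (nat_lit 3))
    (@En.i (nat_lit 2814) (nat_lit 3) (nat_lit 8))
    (@En.n l2869 (nat_lit 8204) (nat_lit 4) (nat_lit 4))
    (@En.n l28455 (nat_lit 13989) (nat_lit 5) (nat_lit 13))
    (@En.n l14619 (nat_lit 10198) (nat_lit 1) (nat_lit 10))
    (@En.n l11512 (nat_lit 6683) (nat_lit 7) (nat_lit 6))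
    (@En.n l28205 (nat_lit 6605) (nat_lit 9) (nat_lit 12))
    (@En.n l28 (nat_lit 6730) (nat_lit 9) (nat_lit 3))
    (@En.n l1393 (nat_lit 3456) (nat_lit 0) (nat_lit 4))
    (@En.n l77 (nat_lit 6722) (nat_lit 12) (nat_lit 8))
    (@En.i (nat_lit 2109) (nat_lit 5) (nat_lit 13))
    (@En.n l5987 (nat_lit 6678) (nat_lit 14) (nat_lit 10))
    (@En.n l7748 (nat_lit 9652) (nat_lit 12) (nat_lit 12))
    (@En.n l3 (nat_lit 6685) (nat_lit 15) (nat_lit 2))))
  (@Cl.mk (nat_lit 0x300060006000c000a000d000700040003000b0006000a000a000d00050009) (nat_lit 0x8510006041105) (nat_lit 16) Lb.e (@T16.mk En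
    (@En.n l14621 (nat_lit 2067) (nat_lit 0) (nat_lit 9))
    (@En.n l2116 (nat_lit 8140) (nat_lit 9) (nat_lit 5))
    (@En.i (nat_lit 6685) (nat_lit 5) (nat_lit 13))
    (@En.n l624 (nat_lit 6685) (nat_lit 6) (nat_lit 10))
    (@En.n l2117 (nat_lit 9762) (nat_lit 4) (nat_lit 10))
    (@En.n l15302 (nat_lit 6684) (nat_lit 5) (nat_lit 6))
    (@En.n l29939 (nat_lit 6598) (nat_lit 7) (nat_lit 11))
    (@En.n l28 (nat_lit 6729) (nat_lit 7) (nat_lit 3))
    (@En.n l170 (nat_lit 3457) (nat_lit 0) (nat_lit 4))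
    (@En.n l77 (nat_lit 6726) (nat_lit 0) (nat_lit 7))
    (@En.n l3815 (nat_lit 2106) (nat_lit 5) (nat_lit 13))
    (@En.n l29939 (nat_lit 5395) (nat_lit 12) (nat_lit 10))
    (@En.n l170 (nat_lit 9067) (nat_lit 13) (nat_lit 12))
    (@En.n l29940 (nat_lit 6740) (nat_lit 10) (nat_lit 6))
    (@En.n l7877 (nat_lit 4446) (nat_lit 12) (nat_lit 6))
    (@En.n l22246 (nat_lit 4455) (nat_lit 15) (nat_lit 3))))
  (@Cl.mk (nat_lit 0x2000c000a0008000d0004000a00030006000a000d000800060003000e0006) (nat_lit 0x966302003330060) (nat_lit 16) Lb.e (@T16.mk En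
    (@En.n l476 (nat_lit 6617) (nat_lit 14) (nat_lit 6))
    (@En.i (nat_lit 6307) (nat_lit 1) (nat_lit 14))
    (@En.n l9105 (nat_lit 4460) (nat_lit 2) (nat_lit 3))
    (@En.n l5934 (nat_lit 2065) (nat_lit 3) (nat_lit 6))
    (@En.n l2869 (nat_lit 9404) (nat_lit 4) (nat_lit 8))
    (@En.n l1012 (nat_lit 13984) (nat_lit 5) (nat_lit 13))
    (@En.n l28790 (nat_lit 10823) (nat_lit 9) (nat_lit 10))
    (@En.n l14973 (nat_lit 6608) (nat_lit 12) (nat_lit 6))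
    (@En.n l11512 (nat_lit 6683) (nat_lit 8) (nat_lit 3))
    (@En.n l2911 (nat_lit 1453) (nat_lit 0) (nat_lit 10))
    (@En.n l5933 (nat_lit 6712) (nat_lit 10) (nat_lit 4))
    (@En.n l50 (nat_lit 6730) (nat_lit 12) (nat_lit 13))
    (@En.n l2579 (nat_lit 6825) (nat_lit 13) (nat_lit 8))
    (@En.n l2032 (nat_lit 5399) (nat_lit 14) (nat_lit 10))
    (@En.n l14827 (nat_lit 8407) (nat_lit 12) (nat_lit 12))
    (@En.n l3 (nat_lit 6687) (nat_lit 15) (nat_lit 2))))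
noncomputable def a418 : T16 Cl := @T16.mk Cl
  (@Cl.mk (nat_lit 0x2000d000b000a00030006000a0005000d0006000d000300060003000e000a) (nat_lit 0x2860020501000c7) (nat_lit 16) Lb.e (@T16.mk En
    (@En.n l5 (nat_lit 6680) (nat_lit 12) (nat_lit 10))
    (@En.i (nat_lit 4932) (nat_lit 1) (nat_lit 14))
    (@En.i (nat_lit 6689) (nat_lit 2) (nat_lit 3))
    (@En.i (nat_lit 4979) (nat_lit 12) (nat_lit 6))
    (@En.i (nat_lit 5397) (nat_lit 4) (nat_lit 3))
    (@En.i (nat_lit 2270) (nat_lit 0) (nat_lit 13))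
    (@En.i (nat_lit 6690) (nat_lit 6) (nat_lit 6))
    (@En.i (nat_lit 5398) (nat_lit 8) (nat_lit 13))
    (@En.i (nat_lit 5094) (nat_lit 8) (nat_lit 5))
    (@En.i (nat_lit 6237) (nat_lit 10) (nat_lit 10))
    (@En.i (nat_lit 6988) (nat_lit 12) (nat_lit 6))
    (@En.n l1106 (nat_lit 5968) (nat_lit 11) (nat_lit 3))
    (@En.n l619 (nat_lit 3359) (nat_lit 0) (nat_lit 10))
    (@En.n l3866 (nat_lit 9825) (nat_lit 14) (nat_lit 11))
    (@En.i (nat_lit 6680) (nat_lit 10) (nat_lit 13))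
    (@En.n l18 (nat_lit 6688) (nat_lit 15) (nat_lit 2))))
  (@Cl.mk (nat_lit 0x2000d000b000a00030006000b0005000c0006000d000500040003000e000a) (nat_lit 0x1720010201000c7) (nat_lit 16) Lb.e (@T16.mk En
    (@En.n l5 (nat_lit 6654) (nat_lit 4) (nat_lit 10))
    (@En.n l396 (nat_lit 11490) (nat_lit 1) (nat_lit 14))
    (@En.n l7 (nat_lit 6688) (nat_lit 2) (nat_lit 3))
    (@En.n l1684 (nat_lit 6856) (nat_lit 3) (nat_lit 4))
    (@En.i (nat_lit 6773) (nat_lit 4) (nat_lit 5))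
    (@En.n l1554 (nat_lit 2272) (nat_lit 6) (nat_lit 13))
    (@En.i (nat_lit 6691) (nat_lit 6) (nat_lit 6))
    (@En.i (nat_lit 6742) (nat_lit 8) (nat_lit 12))
    (@En.i (nat_lit 5095) (nat_lit 8) (nat_lit 5))
    (@En.i (nat_lit 6400) (nat_lit 10) (nat_lit 11))
    (@En.i (nat_lit 7378) (nat_lit 12) (nat_lit 6))
    (@En.n l1455 (nat_lit 6653) (nat_lit 11) (nat_lit 3))
    (@En.n l619 (nat_lit 3361) (nat_lit 0) (nat_lit 10))
    (@En.n l3866 (nat_lit 9827) (nat_lit 14) (nat_lit 11))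
    (@En.i (nat_lit 6654) (nat_lit 2) (nat_lit 13))
    (@En.n l18 (nat_lit 6689) (nat_lit 15) (nat_lit 2))))
  (@Cl.mk (nat_lit 0x2000c000a000a000900040007000b00060006000d000700050003000e0009) (nat_lit 0x2867005003000c0) (nat_lit 16) Lb.e (@T16.mk En
    (@En.n l5 (nat_lit 6692) (nat_lit 14) (nat_lit 9))
    (@En.i (nat_lit 5357) (nat_lit 1) (nat_lit 14))
    (@En.i (nat_lit 6691) (nat_lit 2) (nat_lit 3))
    (@En.n l5781 (nat_lit 1879) (nat_lit 3) (nat_lit 5))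
    (@En.i (nat_lit 1673) (nat_lit 4) (nat_lit 7))
    (@En.n l134 (nat_lit 6829) (nat_lit 6) (nat_lit 13))
    (@En.n l11 (nat_lit 5007) (nat_lit 10) (nat_lit 6))
    (@En.i (nat_lit 5092) (nat_lit 7) (nat_lit 6))
    (@En.i (nat_lit 6408) (nat_lit 9) (nat_lit 11))
    (@En.i (nat_lit 7304) (nat_lit 11) (nat_lit 7))
    (@En.n l936 (nat_lit 6599) (nat_lit 10) (nat_lit 4))
    (@En.n l55 (nat_lit 5397) (nat_lit 12) (nat_lit 9))
    (@En.n l619 (nat_lit 6694) (nat_lit 6) (nat_lit 10))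
    (@En.n l3866 (nat_lit 9826) (nat_lit 14) (nat_lit 10))
    (@En.i (nat_lit 6692) (nat_lit 12) (nat_lit 12))
    (@En.n l18 (nat_lit 6690) (nat_lit 15) (nat_lit 2))))
  (@Cl.mk (nat_lit 0x2000c000a000a000800040007000c00060006000d000400080003000e0009) (nat_lit 0x77600a003030a0) (nat_lit 16) Lb.e (@T16.mk En
    (@En.i (nat_lit 6693) (nat_lit 14) (nat_lit 9))
    (@En.n l1597 (nat_lit 11428) (nat_lit 1) (nat_lit 14))
    (@En.n l7 (nat_lit 6690) (nat_lit 2) (nat_lit 3))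
    (@En.i (nat_lit 1696) (nat_lit 3) (nat_lit 8))
    (@En.i (nat_lit 6696) (nat_lit 4) (nat_lit 4))
    (@En.n l2823 (nat_lit 6827) (nat_lit 6) (nat_lit 13))
    (@En.n l11 (nat_lit 6697) (nat_lit 10) (nat_lit 6))
    (@En.i (nat_lit 5089) (nat_lit 7) (nat_lit 6))
    (@En.i (nat_lit 8372) (nat_lit 9) (nat_lit 12))
    (@En.n l10821 (nat_lit 7296) (nat_lit 11) (nat_lit 7))
    (@En.n l936 (nat_lit 6595) (nat_lit 10) (nat_lit 4))
    (@En.i (nat_lit 6777) (nat_lit 12) (nat_lit 8))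
    (@En.n l619 (nat_lit 6695) (nat_lit 6) (nat_lit 10))
    (@En.n l4773 (nat_lit 9828) (nat_lit 14) (nat_lit 10))
    (@En.n l1738 (nat_lit 6693) (nat_lit 12) (nat_lit 12))
    (@En.n l18 (nat_lit 6691) (nat_lit 15) (nat_lit 2))))
  (@Cl.mk (nat_lit 0x300090009000c000900090008000400070007000b00070007000d00080005) (nat_lit 0x711755000600210) (nat_lit 16) Lb.e (@T16.mk En
    (@En.n l5781 (nat_lit 1876) (nat_lit 0) (nat_lit 5))
    (@En.i (nat_lit 1421) (nat_lit 0) (nat_lit 8))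
    (@En.n l30077 (nat_lit 6826) (nat_lit 2) (nat_lit 13))
    (@En.n l11 (nat_lit 5006) (nat_lit 9) (nat_lit 7))
    (@En.i (nat_lit 5044) (nat_lit 4) (nat_lit 7))
    (@En.n l1738 (nat_lit 8494) (nat_lit 8) (nat_lit 11))
    (@En.n l17 (nat_lit 6690) (nat_lit 9) (nat_lit 7))
    (@En.i (nat_lit 4442) (nat_lit 11) (nat_lit 7))
    (@En.n l936 (nat_lit 6593) (nat_lit 8) (nat_lit 4))
    (@En.n l55 (nat_lit 5394) (nat_lit 8) (nat_lit 8))
    (@En.n l619 (nat_lit 6615) (nat_lit 7) (nat_lit 9))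
    (@En.n l15622 (nat_lit 7957) (nat_lit 12) (nat_lit 9))
    (@En.n l36918 (nat_lit 6682) (nat_lit 6) (nat_lit 12))
    (@En.n l37544 (nat_lit 6682) (nat_lit 7) (nat_lit 9))
    (@En.i (nat_lit 11260) (nat_lit 5) (nat_lit 9))
    (@En.n l1738 (nat_lit 6693) (nat_lit 15) (nat_lit 3))))
  (@Cl.mk (nat_lit 0x300090009000c000900090007000400070007000c00070007000d00040009) (nat_lit 0x70a640000a00303) (nat_lit 16) Lb.e (@T16.mk En
    (@En.n l2813 (nat_lit 1558) (nat_lit 0) (nat_lit 9))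
    (@En.n l5 (nat_lit 6611) (nat_lit 8) (nat_lit 4))
    (@En.n l21770 (nat_lit 6823) (nat_lit 0) (nat_lit 13))
    (@En.n l21771 (nat_lit 6698) (nat_lit 9) (nat_lit 7))
    (@En.n l133 (nat_lit 5078) (nat_lit 4) (nat_lit 7))
    (@En.n l7 (nat_lit 8375) (nat_lit 13) (nat_lit 12))
    (@En.n l217 (nat_lit 6691) (nat_lit 9) (nat_lit 7))
    (@En.n l21772 (nat_lit 6565) (nat_lit 11) (nat_lit 7))
    (@En.n l21773 (nat_lit 6592) (nat_lit 8) (nat_lit 4))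
    (@En.n l2822 (nat_lit 6659) (nat_lit 0) (nat_lit 7))
    (@En.n l9622 (nat_lit 6613) (nat_lit 7) (nat_lit 9))
    (@En.n l21774 (nat_lit 7959) (nat_lit 12) (nat_lit 9))
    (@En.n l21770 (nat_lit 6699) (nat_lit 6) (nat_lit 12))
    (@En.n l21775 (nat_lit 6699) (nat_lit 7) (nat_lit 9))
    (@En.n l21776 (nat_lit 12060) (nat_lit 5) (nat_lit 9))
    (@En.n l21777 (nat_lit 6692) (nat_lit 15) (nat_lit 3))))
  (@Cl.mk (nat_lit 0x2000d000800060003000e000a0002000d000a000800030006000a000e0006) (nat_lit 0x3100c1085600430) (nat_lit 16) Lb.e (@T16.mk En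
    (@En.n l117 (nat_lit 6690) (nat_lit 7) (nat_lit 6))
    (@En.n l10833 (nat_lit 4148) (nat_lit 9) (nat_lit 14))
    (@En.n l2238 (nat_lit 6426) (nat_lit 2) (nat_lit 10))
    (@En.i (nat_lit 7306) (nat_lit 12) (nat_lit 6))
    (@En.n l936 (nat_lit 6603) (nat_lit 11) (nat_lit 3))
    (@En.i (nat_lit 3358) (nat_lit 0) (nat_lit 8))
    (@En.n l936 (nat_lit 9417) (nat_lit 14) (nat_lit 10))
    (@En.i (nat_lit 6615) (nat_lit 8) (nat_lit 13))
    (@En.n l18 (nat_lit 6694) (nat_lit 8) (nat_lit 2))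
    (@En.n l5 (nat_lit 6615) (nat_lit 10) (nat_lit 10))
    (@En.i (nat_lit 5351) (nat_lit 1) (nat_lit 14))
    (@En.i (nat_lit 6695) (nat_lit 11) (nat_lit 3))
    (@En.n l712 (nat_lit 5008) (nat_lit 3) (nat_lit 6))
    (@En.i (nat_lit 1458) (nat_lit 14) (nat_lit 8))
    (@En.n l3886 (nat_lit 6773) (nat_lit 6) (nat_lit 13))
    (@En.n l11 (nat_lit 6694) (nat_lit 15) (nat_lit 2))))
  (@Cl.mk (nat_lit 0x2000d000500090003000e000a0002000d000a000700030006000b000e0006) (nat_lit 0x403021096000830) (nat_lit 16) Lb.e (@T16.mk En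
    (@En.n l117 (nat_lit 6691) (nat_lit 7) (nat_lit 6))
    (@En.n l128 (nat_lit 4145) (nat_lit 4) (nat_lit 14))
    (@En.n l322 (nat_lit 8369) (nat_lit 2) (nat_lit 11))
    (@En.n l128 (nat_lit 7307) (nat_lit 12) (nat_lit 6))
    (@En.n l936 (nat_lit 6956) (nat_lit 4) (nat_lit 3))
    (@En.i (nat_lit 2477) (nat_lit 0) (nat_lit 7))
    (@En.n l936 (nat_lit 9416) (nat_lit 14) (nat_lit 10))
    (@En.n l3160 (nat_lit 6613) (nat_lit 8) (nat_lit 13))
    (@En.n l18 (nat_lit 6695) (nat_lit 8) (nat_lit 2))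
    (@En.n l3885 (nat_lit 6613) (nat_lit 10) (nat_lit 10))
    (@En.n l384 (nat_lit 12124) (nat_lit 1) (nat_lit 14))
    (@En.n l7 (nat_lit 6694) (nat_lit 11) (nat_lit 3))
    (@En.n l837 (nat_lit 1635) (nat_lit 3) (nat_lit 9))
    (@En.i (nat_lit 6612) (nat_lit 14) (nat_lit 5))
    (@En.n l3886 (nat_lit 6772) (nat_lit 6) (nat_lit 13))
    (@En.n l11 (nat_lit 6695) (nat_lit 15) (nat_lit 2))))
  (@Cl.mk (nat_lit 0x2000c00090009000800040007000c000b00070007000400080005000e0009) (nat_lit 0x265300a600010a1) (nat_lit 16) Lb.e (@T16.mk En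
    (@En.n l5 (nat_lit 6611) (nat_lit 5) (nat_lit 9))
    (@En.n l420 (nat_lit 11426) (nat_lit 1) (nat_lit 14))
    (@En.n l24156 (nat_lit 4993) (nat_lit 2) (nat_lit 5))
    (@En.i (nat_lit 1295) (nat_lit 3) (nat_lit 8))
    (@En.n l4844 (nat_lit 6779) (nat_lit 4) (nat_lit 4))
    (@En.n l11 (nat_lit 6701) (nat_lit 9) (nat_lit 7))
    (@En.n l17435 (nat_lit 6842) (nat_lit 6) (nat_lit 7))
    (@En.i (nat_lit 6690) (nat_lit 8) (nat_lit 11))
    (@En.n l24156 (nat_lit 8586) (nat_lit 9) (nat_lit 12))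
    (@En.i (nat_lit 7334) (nat_lit 11) (nat_lit 7))
    (@En.n l936 (nat_lit 6954) (nat_lit 10) (nat_lit 4))
    (@En.n l55 (nat_lit 6772) (nat_lit 12) (nat_lit 8))
    (@En.n l619 (nat_lit 6612) (nat_lit 7) (nat_lit 9))
    (@En.n l3866 (nat_lit 9830) (nat_lit 14) (nat_lit 9))
    (@En.i (nat_lit 6611) (nat_lit 3) (nat_lit 12))
    (@En.n l18 (nat_lit 6696) (nat_lit 15) (nat_lit 2))))
  (@Cl.mk (nat_lit 0x2000900050008000d0006000d000300070003000e00080002000b000e000a) (nat_lit 0x701502000200078) (nat_lit 16) Lb.e (@T16.mk En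
    (@En.n l68 (nat_lit 6691) (nat_lit 13) (nat_lit 10))
    (@En.n l638 (nat_lit 11360) (nat_lit 4) (nat_lit 14))
    (@En.n l24336 (nat_lit 6698) (nat_lit 2) (nat_lit 11))
    (@En.n l18 (nat_lit 6697) (nat_lit 3) (nat_lit 2))
    (@En.n l11696 (nat_lit 6698) (nat_lit 4) (nat_lit 8))
    (@En.n l1597 (nat_lit 11432) (nat_lit 1) (nat_lit 14))
    (@En.n l7 (nat_lit 5007) (nat_lit 6) (nat_lit 3))
    (@En.n l24337 (nat_lit 1700) (nat_lit 7) (nat_lit 7))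
    (@En.i (nat_lit 6701) (nat_lit 8) (nat_lit 3))
    (@En.n l255 (nat_lit 5190) (nat_lit 0) (nat_lit 13))
    (@En.n l1455 (nat_lit 1736) (nat_lit 6) (nat_lit 6))
    (@En.n l9718 (nat_lit 8581) (nat_lit 12) (nat_lit 13))
    (@En.n l11696 (nat_lit 3059) (nat_lit 13) (nat_lit 8))
    (@En.n l4624 (nat_lit 6969) (nat_lit 14) (nat_lit 5))
    (@En.n l9718 (nat_lit 6739) (nat_lit 11) (nat_lit 9))
    (@En.n l67 (nat_lit 6697) (nat_lit 15) (nat_lit 2))))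
  (@Cl.mk (nat_lit 0x20008000500080008000d0007000d00030008000300080008000b000e0009) (nat_lit 0x605260202060967) (nat_lit 16) Lb.e (@T16.mk En
    (@En.n l35802 (nat_lit 6693) (nat_lit 11) (nat_lit 9))
    (@En.n l37533 (nat_lit 11357) (nat_lit 4) (nat_lit 14))
    (@En.n l37534 (nat_lit 6717) (nat_lit 2) (nat_lit 11))
    (@En.n l37535 (nat_lit 6717) (nat_lit 3) (nat_lit 8))
    (@En.n l34366 (nat_lit 12318) (nat_lit 4) (nat_lit 8))
    (@En.n l10120 (nat_lit 5006) (nat_lit 5) (nat_lit 3))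
    (@En.n l37536 (nat_lit 1560) (nat_lit 0) (nat_lit 8))
    (@En.n l37537 (nat_lit 6700) (nat_lit 7) (nat_lit 3))
    (@En.n l37538 (nat_lit 2136) (nat_lit 0) (nat_lit 13))
    (@En.n l117 (nat_lit 1734) (nat_lit 3) (nat_lit 7))
    (@En.n l37539 (nat_lit 8439) (nat_lit 11) (nat_lit 13))
    (@En.n l23030 (nat_lit 6697) (nat_lit 12) (nat_lit 8))
    (@En.i (nat_lit 6563) (nat_lit 13) (nat_lit 8))
    (@En.n l37540 (nat_lit 6596) (nat_lit 14) (nat_lit 5))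
    (@En.n l37541 (nat_lit 6727) (nat_lit 6) (nat_lit 8))
    (@En.n l3 (nat_lit 6698) (nat_lit 15) (nat_lit 2))))
  (@Cl.mk (nat_lit 0x2000c00080008000d0004000a00030009000c0008000800060004000e0007) (nat_lit 0xa42202079540010) (nat_lit 16) Lb.e (@T16.mk En
    (@En.n l36919 (nat_lit 6693) (nat_lit 7) (nat_lit 7))
    (@En.n l7165 (nat_lit 5913) (nat_lit 1) (nat_lit 14))
    (@En.i (nat_lit 6591) (nat_lit 2) (nat_lit 4))
    (@En.n l36920 (nat_lit 6702) (nat_lit 3) (nat_lit 6))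
    (@En.n l36921 (nat_lit 6614) (nat_lit 4) (nat_lit 8))
    (@En.n l32773 (nat_lit 7951) (nat_lit 5) (nat_lit 8))
    (@En.n l36920 (nat_lit 13982) (nat_lit 6) (nat_lit 12))
    (@En.n l34884 (nat_lit 10925) (nat_lit 8) (nat_lit 9))
    (@En.i (nat_lit 6682) (nat_lit 8) (nat_lit 3))
    (@En.n l36922 (nat_lit 1555) (nat_lit 10) (nat_lit 10))
    (@En.n l36923 (nat_lit 6610) (nat_lit 10) (nat_lit 4))
    (@En.i (nat_lit 6825) (nat_lit 12) (nat_lit 13))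
    (@En.n l14223 (nat_lit 6717) (nat_lit 8) (nat_lit 8))
    (@En.n l36924 (nat_lit 5079) (nat_lit 14) (nat_lit 8))
    (@En.i (nat_lit 8405) (nat_lit 3) (nat_lit 12))
    (@En.n l28 (nat_lit 6699) (nat_lit 15) (nat_lit 2))))
  (@Cl.mk (nat_lit 0x20008000500080008000d000c000800030008000400080008000b000e0008) (nat_lit 0x605656103056086) (nat_lit 16) Lb.e (@T16.mk En
    (@En.n l25775 (nat_lit 6611) (nat_lit 2) (nat_lit 8))
    (@En.n l1643 (nat_lit 11352) (nat_lit 4) (nat_lit 14))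
    (@En.n l3 (nat_lit 6718) (nat_lit 2) (nat_lit 11))
    (@En.n l527 (nat_lit 6718) (nat_lit 3) (nat_lit 8))
    (@En.n l6296 (nat_lit 12063) (nat_lit 4) (nat_lit 8))
    (@En.i (nat_lit 1882) (nat_lit 5) (nat_lit 4))
    (@En.n l20793 (nat_lit 1536) (nat_lit 6) (nat_lit 8))
    (@En.n l25776 (nat_lit 6698) (nat_lit 7) (nat_lit 3))
    (@En.n l9555 (nat_lit 5208) (nat_lit 0) (nat_lit 8))
    (@En.n l25777 (nat_lit 5006) (nat_lit 10) (nat_lit 12))
    (@En.n l13085 (nat_lit 2627) (nat_lit 11) (nat_lit 13))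
    (@En.n l25778 (nat_lit 6701) (nat_lit 12) (nat_lit 8))
    (@En.n l25779 (nat_lit 6564) (nat_lit 13) (nat_lit 8))
    (@En.n l2593 (nat_lit 6721) (nat_lit 14) (nat_lit 5))
    (@En.n l25780 (nat_lit 6726) (nat_lit 6) (nat_lit 8))
    (@En.n l18 (nat_lit 6700) (nat_lit 15) (nat_lit 2))))
  (@Cl.mk (nat_lit 0x2000900050008000d000c0007000300070004000e00080002000b000e0009) (nat_lit 0x705750000560197) (nat_lit 16) Lb.e (@T16.mk En
    (@En.n l68 (nat_lit 6696) (nat_lit 13) (nat_lit 9))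
    (@En.n l4627 (nat_lit 12544) (nat_lit 4) (nat_lit 14))
    (@En.n l12083 (nat_lit 6700) (nat_lit 2) (nat_lit 11))
    (@En.n l18 (nat_lit 6701) (nat_lit 3) (nat_lit 2))
    (@En.n l12084 (nat_lit 6700) (nat_lit 4) (nat_lit 8))
    (@En.n l420 (nat_lit 11430) (nat_lit 1) (nat_lit 14))
    (@En.n l4627 (nat_lit 4995) (nat_lit 6) (nat_lit 4))
    (@En.n l12085 (nat_lit 1537) (nat_lit 7) (nat_lit 7))
    (@En.n l3431 (nat_lit 6697) (nat_lit 8) (nat_lit 3))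
    (@En.n l12086 (nat_lit 5207) (nat_lit 0) (nat_lit 7))
    (@En.i (nat_lit 5007) (nat_lit 11) (nat_lit 12))
    (@En.n l4627 (nat_lit 8582) (nat_lit 12) (nat_lit 13))
    (@En.n l255 (nat_lit 7338) (nat_lit 13) (nat_lit 8))
    (@En.n l4624 (nat_lit 6968) (nat_lit 14) (nat_lit 5))
    (@En.n l12087 (nat_lit 6728) (nat_lit 11) (nat_lit 9))
    (@En.n l67 (nat_lit 6701) (nat_lit 15) (nat_lit 2))))
  (@Cl.mk (nat_lit 0x2000c0007000c000c0004000a00040004000a000d000900060003000e0006) (nat_lit 0xa0a901008b50070) (nat_lit 16) Lb.e (@T16.mk En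
    (@En.i (nat_lit 6659) (nat_lit 14) (nat_lit 6))
    (@En.n l14647 (nat_lit 6309) (nat_lit 1) (nat_lit 14))
    (@En.n l4530 (nat_lit 6656) (nat_lit 2) (nat_lit 3))
    (@En.n l3531 (nat_lit 2490) (nat_lit 3) (nat_lit 6))
    (@En.i (nat_lit 7949) (nat_lit 4) (nat_lit 9))
    (@En.i (nat_lit 13870) (nat_lit 5) (nat_lit 13))
    (@En.n l5935 (nat_lit 10848) (nat_lit 7) (nat_lit 10))
    (@En.n l14648 (nat_lit 2535) (nat_lit 12) (nat_lit 4))
    (@En.n l14649 (nat_lit 6681) (nat_lit 8) (nat_lit 4))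
    (@En.n l3531 (nat_lit 1053) (nat_lit 10) (nat_lit 10))
    (@En.n l14650 (nat_lit 6687) (nat_lit 10) (nat_lit 4))
    (@En.n l6309 (nat_lit 6704) (nat_lit 4) (nat_lit 12))
    (@En.i (nat_lit 6732) (nat_lit 13) (nat_lit 12))
    (@En.n l12584 (nat_lit 1280) (nat_lit 14) (nat_lit 7))
    (@En.i (nat_lit 9489) (nat_lit 12) (nat_lit 12))
    (@En.n l17 (nat_lit 6702) (nat_lit 15) (nat_lit 2))))
  (@Cl.mk (nat_lit 0x2000a000a000d000a0008000300060006000d0006000c00030008000e0004) (nat_lit 0x74000b060140) (nat_lit 16) Lb.e (@T16.mk En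
    (@En.n l15223 (nat_lit 6659) (nat_lit 6) (nat_lit 4))
    (@En.i (nat_lit 2369) (nat_lit 1) (nat_lit 14))
    (@En.n l15224 (nat_lit 1057) (nat_lit 2) (nat_lit 8))
    (@En.i (nat_lit 6707) (nat_lit 3) (nat_lit 3))
    (@En.n l5390 (nat_lit 6749) (nat_lit 0) (nat_lit 12))
    (@En.n l15225 (nat_lit 1346) (nat_lit 5) (nat_lit 6))
    (@En.n l9251 (nat_lit 7467) (nat_lit 7) (nat_lit 13))
    (@En.n l14065 (nat_lit 6856) (nat_lit 10) (nat_lit 6))
    (@En.n l14066 (nat_lit 2410) (nat_lit 8) (nat_lit 6))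
    (@En.n l9254 (nat_lit 6657) (nat_lit 9) (nat_lit 3))
    (@En.n l15226 (nat_lit 2488) (nat_lit 0) (nat_lit 8))
    (@En.n l7948 (nat_lit 6861) (nat_lit 12) (nat_lit 10))
    (@En.n l936 (nat_lit 6704) (nat_lit 13) (nat_lit 13))
    (@En.n l55 (nat_lit 6704) (nat_lit 14) (nat_lit 10))
    (@En.n l15227 (nat_lit 10839) (nat_lit 4) (nat_lit 10))
    (@En.n l17 (nat_lit 6703) (nat_lit 15) (nat_lit 2))))
noncomputable def a419 : T16 Cl := @T16.mk Cl
  (@Cl.mk (nat_lit 0x2000a000d000900070003000e00060002000d0007000c00030009000e0004) (nat_lit 0x8b600800b080140) (nat_lit 16) Lb.e (@T16.mk En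
    (@En.n l15223 (nat_lit 6702) (nat_lit 8) (nat_lit 4))
    (@En.i (nat_lit 2368) (nat_lit 1) (nat_lit 14))
    (@En.n l5390 (nat_lit 1056) (nat_lit 11) (nat_lit 9))
    (@En.i (nat_lit 6706) (nat_lit 3) (nat_lit 3))
    (@En.n l5390 (nat_lit 6750) (nat_lit 0) (nat_lit 12))
    (@En.i (nat_lit 1345) (nat_lit 14) (nat_lit 7))
    (@En.n l5390 (nat_lit 7465) (nat_lit 7) (nat_lit 13))
    (@En.n l28 (nat_lit 6704) (nat_lit 7) (nat_lit 2))
    (@En.i (nat_lit 6703) (nat_lit 8) (nat_lit 6))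
    (@En.n l7165 (nat_lit 7532) (nat_lit 1) (nat_lit 14))
    (@En.n l152 (nat_lit 6705) (nat_lit 10) (nat_lit 3))
    (@En.n l5588 (nat_lit 2489) (nat_lit 12) (nat_lit 7))
    (@En.i (nat_lit 7948) (nat_lit 13) (nat_lit 9))
    (@En.n l5390 (nat_lit 13486) (nat_lit 5) (nat_lit 13))
    (@En.i (nat_lit 11472) (nat_lit 11) (nat_lit 10))
    (@En.n l17 (nat_lit 6704) (nat_lit 15) (nat_lit 2))))
  (@Cl.mk (nat_lit 0x2000a000d0006000a0003000e00060002000d0006000c0003000a000e0004) (nat_lit 0x8b0508008070540) (nat_lit 16) Lb.e (@T16.mk En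
    (@En.n l9916 (nat_lit 6656) (nat_lit 8) (nat_lit 4))
    (@En.i (nat_lit 2372) (nat_lit 10) (nat_lit 14))
    (@En.n l2382 (nat_lit 5144) (nat_lit 11) (nat_lit 10))
    (@En.i (nat_lit 6709) (nat_lit 3) (nat_lit 3))
    (@En.n l2382 (nat_lit 6747) (nat_lit 0) (nat_lit 12))
    (@En.i (nat_lit 6870) (nat_lit 14) (nat_lit 6))
    (@En.n l3927 (nat_lit 7463) (nat_lit 7) (nat_lit 13))
    (@En.n l28 (nat_lit 6705) (nat_lit 7) (nat_lit 2))
    (@En.n l1177 (nat_lit 6657) (nat_lit 8) (nat_lit 6))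
    (@En.n l2400 (nat_lit 6873) (nat_lit 1) (nat_lit 14))
    (@En.n l117 (nat_lit 6704) (nat_lit 10) (nat_lit 3))
    (@En.n l23418 (nat_lit 2998) (nat_lit 12) (nat_lit 10))
    (@En.n l3 (nat_lit 9266) (nat_lit 13) (nat_lit 6))
    (@En.n l2382 (nat_lit 13480) (nat_lit 5) (nat_lit 13))
    (@En.n l9916 (nat_lit 10619) (nat_lit 11) (nat_lit 10))
    (@En.n l17 (nat_lit 6705) (nat_lit 15) (nat_lit 2))))
  (@Cl.mk (nat_lit 0x2000a000d000800070003000e00060002000d000b000800030009000e0005) (nat_lit 0x300700b120120) (nat_lit 16) Lb.e (@T16.mk En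
    (@En.n l9247 (nat_lit 6712) (nat_lit 8) (nat_lit 5))
    (@En.i (nat_lit 2246) (nat_lit 1) (nat_lit 14))
    (@En.n l20925 (nat_lit 619) (nat_lit 11) (nat_lit 9))
    (@En.n l50 (nat_lit 6704) (nat_lit 3) (nat_lit 3))
    (@En.n l20926 (nat_lit 1787) (nat_lit 0) (nat_lit 8))
    (@En.n l217 (nat_lit 6681) (nat_lit 14) (nat_lit 11))
    (@En.n l20925 (nat_lit 9022) (nat_lit 7) (nat_lit 13))
    (@En.n l28 (nat_lit 6706) (nat_lit 7) (nat_lit 2))
    (@En.i (nat_lit 6707) (nat_lit 8) (nat_lit 6))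
    (@En.n l7165 (nat_lit 7531) (nat_lit 1) (nat_lit 14))
    (@En.n l152 (nat_lit 6709) (nat_lit 10) (nat_lit 3))
    (@En.n l17647 (nat_lit 2177) (nat_lit 12) (nat_lit 7))
    (@En.n l20927 (nat_lit 9302) (nat_lit 13) (nat_lit 8))
    (@En.n l20925 (nat_lit 13485) (nat_lit 5) (nat_lit 13))
    (@En.n l7722 (nat_lit 11471) (nat_lit 11) (nat_lit 10))
    (@En.n l17 (nat_lit 6706) (nat_lit 15) (nat_lit 2))))
  (@Cl.mk (nat_lit 0x2000a000a000d00090008000300060006000d000b000700030008000e0005) (nat_lit 0x1144000b100120) (nat_lit 16) Lb.e (@T16.mk En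
    (@En.n l9247 (nat_lit 6711) (nat_lit 6) (nat_lit 5))
    (@En.i (nat_lit 2242) (nat_lit 1) (nat_lit 14))
    (@En.n l9248 (nat_lit 620) (nat_lit 2) (nat_lit 8))
    (@En.n l50 (nat_lit 6703) (nat_lit 3) (nat_lit 3))
    (@En.n l9249 (nat_lit 1808) (nat_lit 0) (nat_lit 7))
    (@En.n l9250 (nat_lit 6654) (nat_lit 12) (nat_lit 11))
    (@En.n l9251 (nat_lit 9018) (nat_lit 7) (nat_lit 13))
    (@En.n l9252 (nat_lit 6710) (nat_lit 10) (nat_lit 6))
    (@En.n l9253 (nat_lit 2409) (nat_lit 12) (nat_lit 6))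
    (@En.n l9254 (nat_lit 6708) (nat_lit 9) (nat_lit 3))
    (@En.n l9255 (nat_lit 2176) (nat_lit 0) (nat_lit 8))
    (@En.n l9256 (nat_lit 9296) (nat_lit 12) (nat_lit 9))
    (@En.n l936 (nat_lit 6706) (nat_lit 13) (nat_lit 13))
    (@En.n l55 (nat_lit 6706) (nat_lit 14) (nat_lit 10))
    (@En.n l9257 (nat_lit 10841) (nat_lit 4) (nat_lit 10))
    (@En.n l17 (nat_lit 6707) (nat_lit 15) (nat_lit 2))))
  (@Cl.mk (nat_lit 0x2000a000a000d0007000a000300060006000d000b000600030009000e0005) (nat_lit 0x5000b500580) (nat_lit 16) Lb.e (@T16.mk En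
    (@En.n l8244 (nat_lit 6714) (nat_lit 6) (nat_lit 5))
    (@En.i (nat_lit 2243) (nat_lit 1) (nat_lit 14))
    (@En.n l612 (nat_lit 6859) (nat_lit 2) (nat_lit 9))
    (@En.n l50 (nat_lit 6657) (nat_lit 3) (nat_lit 3))
    (@En.n l5273 (nat_lit 1784) (nat_lit 4) (nat_lit 6))
    (@En.n l9542 (nat_lit 6651) (nat_lit 12) (nat_lit 11))
    (@En.n l1638 (nat_lit 9900) (nat_lit 7) (nat_lit 13))
    (@En.n l107 (nat_lit 6715) (nat_lit 10) (nat_lit 6))
    (@En.n l9541 (nat_lit 7002) (nat_lit 12) (nat_lit 6))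
    (@En.n l5978 (nat_lit 6707) (nat_lit 9) (nat_lit 3))
    (@En.n l9541 (nat_lit 2987) (nat_lit 0) (nat_lit 10))
    (@En.n l5273 (nat_lit 8219) (nat_lit 12) (nat_lit 7))
    (@En.n l3839 (nat_lit 6709) (nat_lit 13) (nat_lit 13))
    (@En.n l2535 (nat_lit 6709) (nat_lit 14) (nat_lit 10))
    (@En.n l6670 (nat_lit 10840) (nat_lit 4) (nat_lit 10))
    (@En.n l17 (nat_lit 6708) (nat_lit 15) (nat_lit 2))))
  (@Cl.mk (nat_lit 0x2000a000d000600090003000e00060002000d000b00070003000a000e0005) (nat_lit 0x8b040b00b600520) (nat_lit 16) Lb.e (@T16.mk En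
    (@En.n l9916 (nat_lit 6713) (nat_lit 8) (nat_lit 5))
    (@En.i (nat_lit 2247) (nat_lit 1) (nat_lit 14))
    (@En.n l612 (nat_lit 6870) (nat_lit 11) (nat_lit 10))
    (@En.n l50 (nat_lit 6705) (nat_lit 3) (nat_lit 3))
    (@En.n l10210 (nat_lit 1783) (nat_lit 4) (nat_lit 7))
    (@En.n l217 (nat_lit 6650) (nat_lit 14) (nat_lit 11))
    (@En.n l3927 (nat_lit 9899) (nat_lit 7) (nat_lit 13))
    (@En.n l28 (nat_lit 6709) (nat_lit 7) (nat_lit 2))
    (@En.n l1177 (nat_lit 6708) (nat_lit 8) (nat_lit 6))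
    (@En.n l2400 (nat_lit 6872) (nat_lit 1) (nat_lit 14))
    (@En.n l117 (nat_lit 6706) (nat_lit 10) (nat_lit 3))
    (@En.n l1178 (nat_lit 2986) (nat_lit 12) (nat_lit 9))
    (@En.n l3 (nat_lit 9264) (nat_lit 13) (nat_lit 6))
    (@En.n l760 (nat_lit 13479) (nat_lit 5) (nat_lit 13))
    (@En.n l9916 (nat_lit 10618) (nat_lit 11) (nat_lit 10))
    (@En.n l17 (nat_lit 6709) (nat_lit 15) (nat_lit 2))))
  (@Cl.mk (nat_lit 0x2000d000a000900030006000d000b000600030007000e00050002000e000a) (nat_lit 0x2850092000200c1) (nat_lit 16) Lb.e (@T16.mk En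
    (@En.n l3861 (nat_lit 6707) (nat_lit 14) (nat_lit 10))
    (@En.n l1684 (nat_lit 11487) (nat_lit 1) (nat_lit 14))
    (@En.n l7 (nat_lit 6710) (nat_lit 2) (nat_lit 2))
    (@En.i (nat_lit 6774) (nat_lit 3) (nat_lit 5))
    (@En.n l1684 (nat_lit 2244) (nat_lit 1) (nat_lit 14))
    (@En.n l3862 (nat_lit 624) (nat_lit 5) (nat_lit 7))
    (@En.n l3863 (nat_lit 6856) (nat_lit 6) (nat_lit 3))
    (@En.n l3864 (nat_lit 1810) (nat_lit 0) (nat_lit 6))
    (@En.i (nat_lit 6689) (nat_lit 9) (nat_lit 11))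
    (@En.n l541 (nat_lit 9016) (nat_lit 10) (nat_lit 13))
    (@En.n l3865 (nat_lit 4602) (nat_lit 12) (nat_lit 6))
    (@En.n l1362 (nat_lit 6715) (nat_lit 11) (nat_lit 3))
    (@En.n l619 (nat_lit 2486) (nat_lit 0) (nat_lit 9))
    (@En.n l3866 (nat_lit 9294) (nat_lit 14) (nat_lit 10))
    (@En.n l3867 (nat_lit 6707) (nat_lit 12) (nat_lit 13))
    (@En.n l18 (nat_lit 6710) (nat_lit 15) (nat_lit 2))))
  (@Cl.mk (nat_lit 0x300060006000c000b000b00080004000900050005000a000a000d00080007) (nat_lit 0xa923010045060) (nat_lit 16) Lb.e (@T16.mk En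
    (@En.n l5942 (nat_lit 2178) (nat_lit 0) (nat_lit 7))
    (@En.n l15376 (nat_lit 9260) (nat_lit 2) (nat_lit 8))
    (@En.n l18 (nat_lit 6712) (nat_lit 5) (nat_lit 13))
    (@En.n l61 (nat_lit 6712) (nat_lit 6) (nat_lit 10))
    (@En.n l15406 (nat_lit 11784) (nat_lit 4) (nat_lit 10))
    (@En.n l15407 (nat_lit 2536) (nat_lit 11) (nat_lit 5))
    (@En.n l3173 (nat_lit 6345) (nat_lit 6) (nat_lit 5))
    (@En.i (nat_lit 1254) (nat_lit 0) (nat_lit 9))
    (@En.n l936 (nat_lit 6659) (nat_lit 8) (nat_lit 4))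
    (@En.n l55 (nat_lit 6818) (nat_lit 0) (nat_lit 8))
    (@En.n l15408 (nat_lit 6707) (nat_lit 5) (nat_lit 11))
    (@En.n l15409 (nat_lit 6684) (nat_lit 12) (nat_lit 11))
    (@En.n l15410 (nat_lit 9017) (nat_lit 13) (nat_lit 12))
    (@En.n l15411 (nat_lit 6774) (nat_lit 10) (nat_lit 6))
    (@En.n l2180 (nat_lit 2408) (nat_lit 12) (nat_lit 6))
    (@En.n l15412 (nat_lit 6714) (nat_lit 15) (nat_lit 3))))
  (@Cl.mk (nat_lit 0x2000c000b000b00090004000a00050005000a000d000700060003000e0006) (nat_lit 0xa92301004b00070) (nat_lit 16) Lb.e (@T16.mk En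
    (@En.i (nat_lit 6711) (nat_lit 14) (nat_lit 6))
    (@En.n l5 (nat_lit 7530) (nat_lit 1) (nat_lit 14))
    (@En.n l2823 (nat_lit 6713) (nat_lit 2) (nat_lit 3))
    (@En.n l5942 (nat_lit 2175) (nat_lit 3) (nat_lit 6))
    (@En.i (nat_lit 8275) (nat_lit 4) (nat_lit 7))
    (@En.i (nat_lit 13192) (nat_lit 5) (nat_lit 13))
    (@En.n l5935 (nat_lit 10578) (nat_lit 7) (nat_lit 10))
    (@En.n l15407 (nat_lit 2534) (nat_lit 11) (nat_lit 5))
    (@En.i (nat_lit 6342) (nat_lit 8) (nat_lit 5))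
    (@En.i (nat_lit 1258) (nat_lit 10) (nat_lit 10))
    (@En.n l936 (nat_lit 6702) (nat_lit 10) (nat_lit 4))
    (@En.n l55 (nat_lit 6819) (nat_lit 12) (nat_lit 9))
    (@En.n l15408 (nat_lit 6706) (nat_lit 5) (nat_lit 11))
    (@En.n l28826 (nat_lit 6683) (nat_lit 14) (nat_lit 11))
    (@En.i (nat_lit 9021) (nat_lit 12) (nat_lit 12))
    (@En.n l17 (nat_lit 6712) (nat_lit 15) (nat_lit 2))))
  (@Cl.mk (nat_lit 0x2000c000b000b00080004000b00050005000a000d000500080003000e0006) (nat_lit 0xa97205004003070) (nat_lit 16) Lb.e (@T16.mk En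
    (@En.n l23515 (nat_lit 6714) (nat_lit 14) (nat_lit 6))
    (@En.n l17413 (nat_lit 6671) (nat_lit 1) (nat_lit 14))
    (@En.n l4712 (nat_lit 6712) (nat_lit 2) (nat_lit 3))
    (@En.n l387 (nat_lit 2983) (nat_lit 10) (nat_lit 8))
    (@En.n l4714 (nat_lit 8994) (nat_lit 4) (nat_lit 5))
    (@En.i (nat_lit 13487) (nat_lit 5) (nat_lit 13))
    (@En.i (nat_lit 10574) (nat_lit 7) (nat_lit 10))
    (@En.n l9167 (nat_lit 2538) (nat_lit 11) (nat_lit 5))
    (@En.n l4716 (nat_lit 6754) (nat_lit 8) (nat_lit 5))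
    (@En.n l11835 (nat_lit 6804) (nat_lit 10) (nat_lit 11))
    (@En.n l28 (nat_lit 6656) (nat_lit 10) (nat_lit 4))
    (@En.n l3480 (nat_lit 2885) (nat_lit 12) (nat_lit 8))
    (@En.n l23516 (nat_lit 6709) (nat_lit 5) (nat_lit 11))
    (@En.n l77 (nat_lit 4459) (nat_lit 14) (nat_lit 11))
    (@En.n l4714 (nat_lit 9896) (nat_lit 12) (nat_lit 12))
    (@En.n l107 (nat_lit 6713) (nat_lit 15) (nat_lit 2))))
  (@Cl.mk (nat_lit 0x300060006000c000b000b00070004000a00050005000a000a000d00060009) (nat_lit 0x9960050045104) (nat_lit 16) Lb.e (@T16.mk En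
    (@En.i (nat_lit 2972) (nat_lit 0) (nat_lit 9))
    (@En.n l30061 (nat_lit 8223) (nat_lit 8) (nat_lit 6))
    (@En.n l30062 (nat_lit 6713) (nat_lit 5) (nat_lit 13))
    (@En.n l30063 (nat_lit 6713) (nat_lit 6) (nat_lit 10))
    (@En.n l18882 (nat_lit 10577) (nat_lit 4) (nat_lit 10))
    (@En.n l538 (nat_lit 2540) (nat_lit 11) (nat_lit 5))
    (@En.n l8183 (nat_lit 6755) (nat_lit 6) (nat_lit 5))
    (@En.n l30064 (nat_lit 6784) (nat_lit 0) (nat_lit 10))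
    (@En.n l4958 (nat_lit 6655) (nat_lit 8) (nat_lit 4))
    (@En.n l30065 (nat_lit 2850) (nat_lit 0) (nat_lit 7))
    (@En.n l4959 (nat_lit 6708) (nat_lit 5) (nat_lit 11))
    (@En.i (nat_lit 4456) (nat_lit 12) (nat_lit 11))
    (@En.n l30066 (nat_lit 9897) (nat_lit 13) (nat_lit 12))
    (@En.n l17 (nat_lit 6775) (nat_lit 10) (nat_lit 6))
    (@En.n l30067 (nat_lit 7004) (nat_lit 12) (nat_lit 6))
    (@En.n l30068 (nat_lit 6711) (nat_lit 15) (nat_lit 3))))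
  (@Cl.mk (nat_lit 0x2000d0008000b00030006000d000b000500030008000e00050002000e000a) (nat_lit 0x14600a4005700a1) (nat_lit 16) Lb.e (@T16.mk En
    (@En.n l97 (nat_lit 6708) (nat_lit 14) (nat_lit 10))
    (@En.i (nat_lit 11419) (nat_lit 1) (nat_lit 14))
    (@En.n l17 (nat_lit 6715) (nat_lit 2) (nat_lit 2))
    (@En.n l8244 (nat_lit 6775) (nat_lit 3) (nat_lit 5))
    (@En.i (nat_lit 2245) (nat_lit 1) (nat_lit 14))
    (@En.n l612 (nat_lit 6858) (nat_lit 5) (nat_lit 8))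
    (@En.n l50 (nat_lit 6857) (nat_lit 6) (nat_lit 3))
    (@En.i (nat_lit 1809) (nat_lit 0) (nat_lit 5))
    (@En.n l217 (nat_lit 6653) (nat_lit 9) (nat_lit 11))
    (@En.n l1638 (nat_lit 10034) (nat_lit 10) (nat_lit 13))
    (@En.i (nat_lit 4065) (nat_lit 12) (nat_lit 6))
    (@En.n l1490 (nat_lit 6710) (nat_lit 11) (nat_lit 3))
    (@En.n l9542 (nat_lit 2905) (nat_lit 0) (nat_lit 11))
    (@En.n l430 (nat_lit 8216) (nat_lit 14) (nat_lit 8))
    (@En.i (nat_lit 6708) (nat_lit 12) (nat_lit 13))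
    (@En.n l3 (nat_lit 6715) (nat_lit 15) (nat_lit 2))))
  (@Cl.mk (nat_lit 0x200080005000e00080002000c0008000d0008000400030008000b000e0008) (nat_lit 0x505106111006925) (nat_lit 16) Lb.e (@T16.mk En
    (@En.n l20151 (nat_lit 6682) (nat_lit 5) (nat_lit 8))
    (@En.n l1643 (nat_lit 11362) (nat_lit 7) (nat_lit 14))
    (@En.n l10316 (nat_lit 13931) (nat_lit 7) (nat_lit 11))
    (@En.n l564 (nat_lit 11259) (nat_lit 3) (nat_lit 8))
    (@En.n l20152 (nat_lit 6717) (nat_lit 4) (nat_lit 3))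
    (@En.i (nat_lit 1877) (nat_lit 0) (nat_lit 4))
    (@En.n l12748 (nat_lit 1773) (nat_lit 6) (nat_lit 8))
    (@En.n l7690 (nat_lit 2133) (nat_lit 8) (nat_lit 13))
    (@En.i (nat_lit 1741) (nat_lit 14) (nat_lit 8))
    (@En.n l12650 (nat_lit 2624) (nat_lit 10) (nat_lit 12))
    (@En.n l107 (nat_lit 6716) (nat_lit 10) (nat_lit 2))
    (@En.n l20153 (nat_lit 5006) (nat_lit 12) (nat_lit 8))
    (@En.n l97 (nat_lit 5907) (nat_lit 1) (nat_lit 14))
    (@En.n l20154 (nat_lit 5005) (nat_lit 14) (nat_lit 5))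
    (@En.n l20155 (nat_lit 5392) (nat_lit 3) (nat_lit 8))
    (@En.n l18 (nat_lit 6716) (nat_lit 15) (nat_lit 2))))
  (@Cl.mk (nat_lit 0x200070005000e00080002000d0008000d0003000900030008000b000e0008) (nat_lit 0x5607120206856) (nat_lit 16) Lb.e (@T16.mk En
    (@En.n l17801 (nat_lit 6699) (nat_lit 5) (nat_lit 8))
    (@En.n l3621 (nat_lit 11359) (nat_lit 7) (nat_lit 14))
    (@En.n l10192 (nat_lit 13933) (nat_lit 7) (nat_lit 11))
    (@En.n l3659 (nat_lit 10942) (nat_lit 3) (nat_lit 8))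
    (@En.n l8115 (nat_lit 6716) (nat_lit 4) (nat_lit 3))
    (@En.n l9215 (nat_lit 1561) (nat_lit 11) (nat_lit 9))
    (@En.n l2722 (nat_lit 6718) (nat_lit 6) (nat_lit 3))
    (@En.i (nat_lit 2137) (nat_lit 0) (nat_lit 13))
    (@En.n l33548 (nat_lit 1735) (nat_lit 14) (nat_lit 8))
    (@En.n l33549 (nat_lit 8438) (nat_lit 10) (nat_lit 13))
    (@En.n l11 (nat_lit 6717) (nat_lit 10) (nat_lit 2))
    (@En.n l33550 (nat_lit 6698) (nat_lit 12) (nat_lit 8))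
    (@En.n l17780 (nat_lit 5908) (nat_lit 13) (nat_lit 14))
    (@En.n l17 (nat_lit 6719) (nat_lit 14) (nat_lit 5))
    (@En.n l10192 (nat_lit 6725) (nat_lit 3) (nat_lit 7))
    (@En.n l3 (nat_lit 6717) (nat_lit 15) (nat_lit 2))))
  (@Cl.mk (nat_lit 0x200070005000e00080002000d000c00090003000900040008000b000e0007) (nat_lit 0x8606710305970) (nat_lit 16) Lb.e (@T16.mk En
    (@En.n l21928 (nat_lit 6610) (nat_lit 5) (nat_lit 7))
    (@En.n l1643 (nat_lit 11361) (nat_lit 7) (nat_lit 14))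
    (@En.i (nat_lit 13935) (nat_lit 7) (nat_lit 11))
    (@En.n l6296 (nat_lit 10941) (nat_lit 3) (nat_lit 8))
    (@En.i (nat_lit 1883) (nat_lit 4) (nat_lit 4))
    (@En.n l20793 (nat_lit 1448) (nat_lit 11) (nat_lit 9))
    (@En.n l3681 (nat_lit 6717) (nat_lit 6) (nat_lit 3))
    (@En.i (nat_lit 5215) (nat_lit 0) (nat_lit 9))
    (@En.n l134 (nat_lit 6716) (nat_lit 9) (nat_lit 12))
    (@En.n l2568 (nat_lit 8398) (nat_lit 10) (nat_lit 13))
    (@En.n l107 (nat_lit 6718) (nat_lit 10) (nat_lit 2))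
    (@En.i (nat_lit 6700) (nat_lit 12) (nat_lit 8))
    (@En.n l97 (nat_lit 5906) (nat_lit 13) (nat_lit 14))
    (@En.n l2593 (nat_lit 6720) (nat_lit 14) (nat_lit 5))
    (@En.n l11279 (nat_lit 6722) (nat_lit 3) (nat_lit 7))
    (@En.n l18 (nat_lit 6718) (nat_lit 15) (nat_lit 2))))
  (@Cl.mk (nat_lit 0x20005000e00080002000d0007000d0003000c00030008000b0004000e0009) (nat_lit 0x16060904069066) (nat_lit 16) Lb.e (@T16.mk En
    (@En.n l8844 (nat_lit 6591) (nat_lit 4) (nat_lit 9))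
    (@En.i (nat_lit 6717) (nat_lit 1) (nat_lit 14))
    (@En.i (nat_lit 6724) (nat_lit 2) (nat_lit 4))
    (@En.n l10192 (nat_lit 13934) (nat_lit 7) (nat_lit 11))
    (@En.i (nat_lit 10934) (nat_lit 4) (nat_lit 8))
    (@En.i (nat_lit 5005) (nat_lit 5) (nat_lit 3))
    (@En.n l2436 (nat_lit 4767) (nat_lit 7) (nat_lit 12))
    (@En.n l996 (nat_lit 6720) (nat_lit 7) (nat_lit 3))
    (@En.i (nat_lit 2129) (nat_lit 9) (nat_lit 13))
    (@En.n l2436 (nat_lit 4931) (nat_lit 14) (nat_lit 7))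
    (@En.n l6459 (nat_lit 8423) (nat_lit 11) (nat_lit 13))
    (@En.n l11 (nat_lit 6719) (nat_lit 11) (nat_lit 2))
    (@En.n l6459 (nat_lit 6596) (nat_lit 13) (nat_lit 8))
    (@En.n l10967 (nat_lit 5721) (nat_lit 1) (nat_lit 14))
    (@En.i (nat_lit 6646) (nat_lit 13) (nat_lit 5))
    (@En.n l3 (nat_lit 6719) (nat_lit 15) (nat_lit 2))))
noncomputable def a420 : T16 Cl := @T16.mk Cl
  (@Cl.mk (nat_lit 0x20005000e00080002000d000c00080003000c00040008000b0004000e0008) (nat_lit 0x12057104000086) (nat_lit 16) Lb.e (@T16.mk En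
    (@En.n l764 (nat_lit 6605) (nat_lit 4) (nat_lit 8))
    (@En.n l5 (nat_lit 6718) (nat_lit 1) (nat_lit 14))
    (@En.n l1643 (nat_lit 6723) (nat_lit 2) (nat_lit 4))
    (@En.i (nat_lit 13936) (nat_lit 7) (nat_lit 11))
    (@En.i (nat_lit 10938) (nat_lit 4) (nat_lit 8))
    (@En.n l3506 (nat_lit 5002) (nat_lit 5) (nat_lit 4))
    (@En.n l20065 (nat_lit 6510) (nat_lit 7) (nat_lit 12))
    (@En.n l278 (nat_lit 6719) (nat_lit 7) (nat_lit 3))
    (@En.i (nat_lit 5216) (nat_lit 0) (nat_lit 8))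
    (@En.n l11665 (nat_lit 5005) (nat_lit 10) (nat_lit 12))
    (@En.i (nat_lit 8469) (nat_lit 11) (nat_lit 13))
    (@En.n l107 (nat_lit 6720) (nat_lit 11) (nat_lit 2))
    (@En.i (nat_lit 6721) (nat_lit 13) (nat_lit 8))
    (@En.n l97 (nat_lit 5718) (nat_lit 1) (nat_lit 14))
    (@En.n l4361 (nat_lit 5345) (nat_lit 13) (nat_lit 5))
    (@En.n l17 (nat_lit 6720) (nat_lit 15) (nat_lit 2))))
  (@Cl.mk (nat_lit 0x2000500080008000d000c00070003000b000400080008000b0005000e0009) (nat_lit 0x16450040511097) (nat_lit 16) Lb.e (@T16.mk En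
    (@En.n l12098 (nat_lit 6598) (nat_lit 1) (nat_lit 9))
    (@En.n l5 (nat_lit 6700) (nat_lit 1) (nat_lit 14))
    (@En.n l1643 (nat_lit 11521) (nat_lit 2) (nat_lit 5))
    (@En.n l3 (nat_lit 6720) (nat_lit 3) (nat_lit 11))
    (@En.n l527 (nat_lit 6720) (nat_lit 4) (nat_lit 8))
    (@En.n l872 (nat_lit 12316) (nat_lit 5) (nat_lit 8))
    (@En.n l3506 (nat_lit 4997) (nat_lit 6) (nat_lit 4))
    (@En.n l12099 (nat_lit 6511) (nat_lit 8) (nat_lit 11))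
    (@En.n l12100 (nat_lit 6596) (nat_lit 8) (nat_lit 3))
    (@En.i (nat_lit 5212) (nat_lit 0) (nat_lit 7))
    (@En.n l12101 (nat_lit 5003) (nat_lit 11) (nat_lit 12))
    (@En.n l12102 (nat_lit 8467) (nat_lit 12) (nat_lit 13))
    (@En.n l1645 (nat_lit 6968) (nat_lit 13) (nat_lit 8))
    (@En.n l11171 (nat_lit 5805) (nat_lit 10) (nat_lit 8))
    (@En.n l1807 (nat_lit 1926) (nat_lit 13) (nat_lit 5))
    (@En.n l17 (nat_lit 6721) (nat_lit 15) (nat_lit 2))))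
  (@Cl.mk (nat_lit 0x2000d000b000800030009000c00050009000c0004000800070004000e0007) (nat_lit 0xb62015003040070) (nat_lit 16) Lb.e (@T16.mk En
    (@En.n l476 (nat_lit 6726) (nat_lit 4) (nat_lit 7))
    (@En.n l7882 (nat_lit 6304) (nat_lit 1) (nat_lit 14))
    (@En.n l3291 (nat_lit 5114) (nat_lit 2) (nat_lit 4))
    (@En.n l7 (nat_lit 6730) (nat_lit 3) (nat_lit 7))
    (@En.n l644 (nat_lit 6687) (nat_lit 4) (nat_lit 8))
    (@En.n l2869 (nat_lit 8207) (nat_lit 5) (nat_lit 4))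
    (@En.n l893 (nat_lit 13987) (nat_lit 6) (nat_lit 12))
    (@En.n l2579 (nat_lit 10197) (nat_lit 1) (nat_lit 9))
    (@En.n l7 (nat_lit 6610) (nat_lit 8) (nat_lit 5))
    (@En.n l10283 (nat_lit 6720) (nat_lit 6) (nat_lit 12))
    (@En.n l893 (nat_lit 1456) (nat_lit 11) (nat_lit 9))
    (@En.n l26626 (nat_lit 6725) (nat_lit 11) (nat_lit 3))
    (@En.n l24381 (nat_lit 5263) (nat_lit 0) (nat_lit 8))
    (@En.n l38916 (nat_lit 5392) (nat_lit 14) (nat_lit 11))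
    (@En.n l1997 (nat_lit 8408) (nat_lit 2) (nat_lit 13))
    (@En.n l3 (nat_lit 6722) (nat_lit 15) (nat_lit 2))))
  (@Cl.mk (nat_lit 0x20007000e00070002000d000b00080003000c0009000500090004000e0008) (nat_lit 0x70058004400080) (nat_lit 16) Lb.e (@T16.mk En
    (@En.n l8523 (nat_lit 9377) (nat_lit 4) (nat_lit 8))
    (@En.n l396 (nat_lit 11351) (nat_lit 1) (nat_lit 14))
    (@En.n l10348 (nat_lit 6901) (nat_lit 2) (nat_lit 4))
    (@En.n l8523 (nat_lit 10935) (nat_lit 3) (nat_lit 9))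
    (@En.i (nat_lit 5348) (nat_lit 4) (nat_lit 5))
    (@En.n l4869 (nat_lit 6718) (nat_lit 5) (nat_lit 9))
    (@En.i (nat_lit 9922) (nat_lit 11) (nat_lit 12))
    (@En.n l916 (nat_lit 6724) (nat_lit 7) (nat_lit 3))
    (@En.i (nat_lit 12819) (nat_lit 0) (nat_lit 8))
    (@En.i (nat_lit 9514) (nat_lit 10) (nat_lit 11))
    (@En.i (nat_lit 8473) (nat_lit 11) (nat_lit 13))
    (@En.n l3 (nat_lit 6723) (nat_lit 11) (nat_lit 2))
    (@En.i (nat_lit 11521) (nat_lit 13) (nat_lit 7))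
    (@En.n l1162 (nat_lit 11540) (nat_lit 1) (nat_lit 14))
    (@En.n l8530 (nat_lit 9658) (nat_lit 2) (nat_lit 7))
    (@En.n l18 (nat_lit 6723) (nat_lit 15) (nat_lit 2))))
  (@Cl.mk (nat_lit 0x20007000e00070002000d0007000c0003000c0009000400090004000e0009) (nat_lit 0x70060105300060) (nat_lit 16) Lb.e (@T16.mk En
    (@En.n l8844 (nat_lit 8997) (nat_lit 4) (nat_lit 9))
    (@En.n l20146 (nat_lit 10789) (nat_lit 1) (nat_lit 14))
    (@En.n l199 (nat_lit 6900) (nat_lit 2) (nat_lit 4))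
    (@En.n l19561 (nat_lit 10932) (nat_lit 3) (nat_lit 9))
    (@En.n l2351 (nat_lit 11014) (nat_lit 4) (nat_lit 4))
    (@En.n l61 (nat_lit 6717) (nat_lit 5) (nat_lit 9))
    (@En.n l7205 (nat_lit 6478) (nat_lit 11) (nat_lit 12))
    (@En.n l6511 (nat_lit 6723) (nat_lit 7) (nat_lit 3))
    (@En.n l199 (nat_lit 4627) (nat_lit 9) (nat_lit 12))
    (@En.n l2243 (nat_lit 9913) (nat_lit 14) (nat_lit 7))
    (@En.n l20147 (nat_lit 8440) (nat_lit 11) (nat_lit 13))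
    (@En.n l11 (nat_lit 6724) (nat_lit 11) (nat_lit 2))
    (@En.n l20148 (nat_lit 11520) (nat_lit 13) (nat_lit 7))
    (@En.n l2351 (nat_lit 11541) (nat_lit 1) (nat_lit 14))
    (@En.i (nat_lit 9660) (nat_lit 2) (nat_lit 7))
    (@En.n l3 (nat_lit 6724) (nat_lit 15) (nat_lit 2))))
  (@Cl.mk (nat_lit 0x2000d0007000c00030009000c00040009000c0004000900070004000e0007) (nat_lit 0xb020150000600b0) (nat_lit 16) Lb.e (@T16.mk En
    (@En.i (nat_lit 6727) (nat_lit 4) (nat_lit 7))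
    (@En.n l5 (nat_lit 6306) (nat_lit 1) (nat_lit 14))
    (@En.n l23321 (nat_lit 5108) (nat_lit 2) (nat_lit 4))
    (@En.i (nat_lit 6732) (nat_lit 3) (nat_lit 7))
    (@En.n l253 (nat_lit 6702) (nat_lit 4) (nat_lit 9))
    (@En.n l23322 (nat_lit 8208) (nat_lit 5) (nat_lit 4))
    (@En.i (nat_lit 14010) (nat_lit 6) (nat_lit 12))
    (@En.n l23323 (nat_lit 10199) (nat_lit 1) (nat_lit 9))
    (@En.i (nat_lit 6815) (nat_lit 8) (nat_lit 4))
    (@En.n l11819 (nat_lit 6719) (nat_lit 6) (nat_lit 12))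
    (@En.n l152 (nat_lit 1040) (nat_lit 11) (nat_lit 9))
    (@En.n l23324 (nat_lit 6722) (nat_lit 11) (nat_lit 3))
    (@En.n l513 (nat_lit 6350) (nat_lit 0) (nat_lit 12))
    (@En.i (nat_lit 6518) (nat_lit 14) (nat_lit 7))
    (@En.n l253 (nat_lit 8776) (nat_lit 2) (nat_lit 13))
    (@En.n l17 (nat_lit 6725) (nat_lit 15) (nat_lit 2))))
  (@Cl.mk (nat_lit 0x30008000b000500090009000c000500090008000400070007000d000b0007) (nat_lit 0x150014055000b50) (nat_lit 16) Lb.e (@T16.mk En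
    (@En.n l30257 (nat_lit 5205) (nat_lit 0) (nat_lit 7))
    (@En.n l30258 (nat_lit 5388) (nat_lit 12) (nat_lit 11))
    (@En.n l30259 (nat_lit 8435) (nat_lit 2) (nat_lit 13))
    (@En.n l30260 (nat_lit 6728) (nat_lit 9) (nat_lit 7))
    (@En.n l2125 (nat_lit 6567) (nat_lit 11) (nat_lit 7))
    (@En.n l22246 (nat_lit 5111) (nat_lit 5) (nat_lit 4))
    (@En.n l7 (nat_lit 6729) (nat_lit 0) (nat_lit 8))
    (@En.n l644 (nat_lit 6617) (nat_lit 1) (nat_lit 9))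
    (@En.n l2116 (nat_lit 8139) (nat_lit 8) (nat_lit 5))
    (@En.i (nat_lit 6722) (nat_lit 6) (nat_lit 12))
    (@En.n l624 (nat_lit 6722) (nat_lit 7) (nat_lit 9))
    (@En.n l2117 (nat_lit 9765) (nat_lit 10) (nat_lit 9))
    (@En.n l30261 (nat_lit 6611) (nat_lit 6) (nat_lit 5))
    (@En.n l28624 (nat_lit 6721) (nat_lit 7) (nat_lit 11))
    (@En.n l6151 (nat_lit 1293) (nat_lit 1) (nat_lit 8))
    (@En.n l19136 (nat_lit 6727) (nat_lit 15) (nat_lit 3))))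
  (@Cl.mk (nat_lit 0x30008000b000400090009000c0005000a0008000400070007000d0006000c) (nat_lit 0x150011075000b02) (nat_lit 16) Lb.e (@T16.mk En
    (@En.n l11819 (nat_lit 6348) (nat_lit 0) (nat_lit 12))
    (@En.i (nat_lit 6515) (nat_lit 4) (nat_lit 6))
    (@En.n l29934 (nat_lit 8779) (nat_lit 2) (nat_lit 13))
    (@En.n l29935 (nat_lit 6739) (nat_lit 9) (nat_lit 7))
    (@En.n l29936 (nat_lit 6568) (nat_lit 11) (nat_lit 7))
    (@En.n l15357 (nat_lit 5109) (nat_lit 5) (nat_lit 4))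
    (@En.i (nat_lit 6731) (nat_lit 0) (nat_lit 8))
    (@En.n l253 (nat_lit 6659) (nat_lit 1) (nat_lit 10))
    (@En.n l23322 (nat_lit 8141) (nat_lit 8) (nat_lit 5))
    (@En.n l18 (nat_lit 6725) (nat_lit 6) (nat_lit 12))
    (@En.n l61 (nat_lit 6725) (nat_lit 7) (nat_lit 9))
    (@En.n l29937 (nat_lit 10201) (nat_lit 12) (nat_lit 9))
    (@En.n l8462 (nat_lit 6814) (nat_lit 6) (nat_lit 4))
    (@En.n l29934 (nat_lit 6596) (nat_lit 7) (nat_lit 11))
    (@En.n l152 (nat_lit 1041) (nat_lit 1) (nat_lit 8))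
    (@En.n l29938 (nat_lit 6726) (nat_lit 15) (nat_lit 3))))
  (@Cl.mk (nat_lit 0x2000c0006000a000900040007000d000b000600030007000a0005000e0009) (nat_lit 0x506600750005091) (nat_lit 16) Lb.e (@T16.mk En
    (@En.n l19643 (nat_lit 6726) (nat_lit 11) (nat_lit 9))
    (@En.n l19644 (nat_lit 11002) (nat_lit 1) (nat_lit 14))
    (@En.n l2720 (nat_lit 6696) (nat_lit 2) (nat_lit 5))
    (@En.n l13194 (nat_lit 6968) (nat_lit 8) (nat_lit 10))
    (@En.i (nat_lit 1290) (nat_lit 4) (nat_lit 7))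
    (@En.n l19645 (nat_lit 6739) (nat_lit 5) (nat_lit 3))
    (@En.n l19646 (nat_lit 5206) (nat_lit 0) (nat_lit 6))
    (@En.n l19647 (nat_lit 5389) (nat_lit 8) (nat_lit 11))
    (@En.n l13194 (nat_lit 8587) (nat_lit 9) (nat_lit 13))
    (@En.n l19648 (nat_lit 7277) (nat_lit 11) (nat_lit 7))
    (@En.i (nat_lit 5115) (nat_lit 10) (nat_lit 4))
    (@En.n l19649 (nat_lit 6738) (nat_lit 12) (nat_lit 9))
    (@En.n l19647 (nat_lit 6772) (nat_lit 13) (nat_lit 10))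
    (@En.n l19650 (nat_lit 8136) (nat_lit 14) (nat_lit 6))
    (@En.n l19651 (nat_lit 6726) (nat_lit 9) (nat_lit 12))
    (@En.n l7 (nat_lit 6728) (nat_lit 15) (nat_lit 2))))
  (@Cl.mk (nat_lit 0x300060006000d000a000d000300080003000b0006000a000a000d00050008) (nat_lit 0x9520106040504) (nat_lit 16) Lb.e (@T16.mk En
    (@En.i (nat_lit 2059) (nat_lit 0) (nat_lit 8))
    (@En.n l2116 (nat_lit 8138) (nat_lit 7) (nat_lit 5))
    (@En.i (nat_lit 6730) (nat_lit 5) (nat_lit 13))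
    (@En.n l624 (nat_lit 6730) (nat_lit 6) (nat_lit 10))
    (@En.n l2117 (nat_lit 9760) (nat_lit 4) (nat_lit 10))
    (@En.i (nat_lit 6617) (nat_lit 5) (nat_lit 6))
    (@En.i (nat_lit 6726) (nat_lit 13) (nat_lit 11))
    (@En.i (nat_lit 6686) (nat_lit 7) (nat_lit 3))
    (@En.n l2571 (nat_lit 1292) (nat_lit 0) (nat_lit 8))
    (@En.n l6152 (nat_lit 6731) (nat_lit 9) (nat_lit 3))
    (@En.n l2544 (nat_lit 4825) (nat_lit 0) (nat_lit 13))
    (@En.n l15248 (nat_lit 5391) (nat_lit 12) (nat_lit 10))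
    (@En.n l10357 (nat_lit 8434) (nat_lit 13) (nat_lit 13))
    (@En.n l5033 (nat_lit 6738) (nat_lit 10) (nat_lit 6))
    (@En.n l2125 (nat_lit 4447) (nat_lit 12) (nat_lit 6))
    (@En.n l22246 (nat_lit 4449) (nat_lit 15) (nat_lit 3))))
  (@Cl.mk (nat_lit 0x2000d000a000d000300090003000c0006000a000d000400070003000e0006) (nat_lit 0x962010608400060) (nat_lit 16) Lb.e (@T16.mk En
    (@En.n l476 (nat_lit 6729) (nat_lit 14) (nat_lit 6))
    (@En.i (nat_lit 6302) (nat_lit 1) (nat_lit 14))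
    (@En.n l3291 (nat_lit 6735) (nat_lit 2) (nat_lit 3))
    (@En.i (nat_lit 2062) (nat_lit 11) (nat_lit 7))
    (@En.n l2869 (nat_lit 8206) (nat_lit 4) (nat_lit 4))
    (@En.n l13500 (nat_lit 13988) (nat_lit 5) (nat_lit 13))
    (@En.n l2579 (nat_lit 9764) (nat_lit 1) (nat_lit 10))
    (@En.i (nat_lit 6687) (nat_lit 7) (nat_lit 6))
    (@En.i (nat_lit 6722) (nat_lit 9) (nat_lit 12))
    (@En.i (nat_lit 6685) (nat_lit 9) (nat_lit 3))
    (@En.n l2036 (nat_lit 1454) (nat_lit 11) (nat_lit 9))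
    (@En.n l5933 (nat_lit 6732) (nat_lit 11) (nat_lit 3))
    (@En.i (nat_lit 5120) (nat_lit 0) (nat_lit 13))
    (@En.n l2032 (nat_lit 5393) (nat_lit 14) (nat_lit 10))
    (@En.n l1997 (nat_lit 8433) (nat_lit 2) (nat_lit 13))
    (@En.n l3 (nat_lit 6730) (nat_lit 15) (nat_lit 2))))
  (@Cl.mk (nat_lit 0x300060006000d000c000b000300080004000b0005000a000a000d00050008) (nat_lit 0x9920106000004) (nat_lit 16) Lb.e (@T16.mk En
    (@En.n l2137 (nat_lit 2063) (nat_lit 0) (nat_lit 8))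
    (@En.n l2129 (nat_lit 8137) (nat_lit 7) (nat_lit 5))
    (@En.n l18 (nat_lit 6732) (nat_lit 5) (nat_lit 13))
    (@En.n l61 (nat_lit 6732) (nat_lit 6) (nat_lit 10))
    (@En.n l2130 (nat_lit 9761) (nat_lit 4) (nat_lit 10))
    (@En.i (nat_lit 6711) (nat_lit 5) (nat_lit 5))
    (@En.n l476 (nat_lit 6727) (nat_lit 13) (nat_lit 11))
    (@En.i (nat_lit 6741) (nat_lit 7) (nat_lit 4))
    (@En.i (nat_lit 1042) (nat_lit 0) (nat_lit 8))
    (@En.n l2134 (nat_lit 6729) (nat_lit 9) (nat_lit 3))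
    (@En.n l619 (nat_lit 6349) (nat_lit 0) (nat_lit 11))
    (@En.n l2136 (nat_lit 6686) (nat_lit 12) (nat_lit 12))
    (@En.i (nat_lit 8783) (nat_lit 13) (nat_lit 13))
    (@En.n l2139 (nat_lit 6737) (nat_lit 10) (nat_lit 6))
    (@En.n l2180 (nat_lit 6768) (nat_lit 12) (nat_lit 6))
    (@En.n l1554 (nat_lit 6734) (nat_lit 15) (nat_lit 3))))
  (@Cl.mk (nat_lit 0x2000d000c000b000300090004000c0005000a000d000400070003000e0006) (nat_lit 0x992010608b000b0) (nat_lit 16) Lb.e (@T16.mk En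
    (@En.i (nat_lit 6731) (nat_lit 14) (nat_lit 6))
    (@En.n l5 (nat_lit 6305) (nat_lit 1) (nat_lit 14))
    (@En.n l1554 (nat_lit 6733) (nat_lit 2) (nat_lit 3))
    (@En.n l5373 (nat_lit 2558) (nat_lit 11) (nat_lit 7))
    (@En.n l2129 (nat_lit 8205) (nat_lit 4) (nat_lit 4))
    (@En.i (nat_lit 13994) (nat_lit 5) (nat_lit 13))
    (@En.n l5935 (nat_lit 10188) (nat_lit 1) (nat_lit 10))
    (@En.i (nat_lit 6712) (nat_lit 7) (nat_lit 5))
    (@En.n l476 (nat_lit 6725) (nat_lit 9) (nat_lit 12))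
    (@En.i (nat_lit 6744) (nat_lit 9) (nat_lit 4))
    (@En.i (nat_lit 1038) (nat_lit 11) (nat_lit 9))
    (@En.n l5936 (nat_lit 6730) (nat_lit 11) (nat_lit 3))
    (@En.n l619 (nat_lit 6351) (nat_lit 0) (nat_lit 11))
    (@En.n l886 (nat_lit 6685) (nat_lit 14) (nat_lit 12))
    (@En.i (nat_lit 8781) (nat_lit 2) (nat_lit 13))
    (@En.n l17 (nat_lit 6732) (nat_lit 15) (nat_lit 2))))
  (@Cl.mk (nat_lit 0x2000d000c000b0003000a0004000b0005000a000d000600050003000e0006) (nat_lit 0xb97080300000010) (nat_lit 16) Lb.e (@T16.mk En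
    (@En.i (nat_lit 6734) (nat_lit 14) (nat_lit 6))
    (@En.n l16254 (nat_lit 2315) (nat_lit 1) (nat_lit 14))
    (@En.n l4830 (nat_lit 6732) (nat_lit 2) (nat_lit 3))
    (@En.n l18 (nat_lit 3472) (nat_lit 3) (nat_lit 5))
    (@En.n l1430 (nat_lit 9659) (nat_lit 4) (nat_lit 6))
    (@En.n l1430 (nat_lit 14002) (nat_lit 5) (nat_lit 13))
    (@En.i (nat_lit 8745) (nat_lit 11) (nat_lit 10))
    (@En.n l61 (nat_lit 6713) (nat_lit 7) (nat_lit 5))
    (@En.n l3727 (nat_lit 5108) (nat_lit 9) (nat_lit 11))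
    (@En.n l28 (nat_lit 6746) (nat_lit 9) (nat_lit 4))
    (@En.n l1430 (nat_lit 6801) (nat_lit 11) (nat_lit 10))
    (@En.n l28 (nat_lit 6735) (nat_lit 11) (nat_lit 3))
    (@En.i (nat_lit 6753) (nat_lit 0) (nat_lit 11))
    (@En.n l77 (nat_lit 4461) (nat_lit 14) (nat_lit 12))
    (@En.n l1430 (nat_lit 8785) (nat_lit 2) (nat_lit 13))
    (@En.n l107 (nat_lit 6733) (nat_lit 15) (nat_lit 2))))
  (@Cl.mk (nat_lit 0x300060006000d000c000b000300090004000a0005000a000a000d00070006) (nat_lit 0xb960702001100) (nat_lit 16) Lb.e (@T16.mk En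
    (@En.n l18 (nat_lit 1367) (nat_lit 0) (nat_lit 6))
    (@En.n l1430 (nat_lit 9360) (nat_lit 7) (nat_lit 7))
    (@En.n l3 (nat_lit 6733) (nat_lit 5) (nat_lit 13))
    (@En.n l527 (nat_lit 6733) (nat_lit 6) (nat_lit 10))
    (@En.i (nat_lit 9759) (nat_lit 4) (nat_lit 10))
    (@En.n l28373 (nat_lit 6714) (nat_lit 5) (nat_lit 5))
    (@En.n l26930 (nat_lit 5109) (nat_lit 13) (nat_lit 10))
    (@En.n l28374 (nat_lit 6745) (nat_lit 7) (nat_lit 4))
    (@En.n l28375 (nat_lit 6802) (nat_lit 0) (nat_lit 9))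
    (@En.n l28 (nat_lit 4449) (nat_lit 9) (nat_lit 3))
    (@En.n l3727 (nat_lit 6752) (nat_lit 0) (nat_lit 11))
    (@En.n l77 (nat_lit 4455) (nat_lit 12) (nat_lit 12))
    (@En.n l28375 (nat_lit 8787) (nat_lit 13) (nat_lit 13))
    (@En.n l28376 (nat_lit 6736) (nat_lit 10) (nat_lit 6))
    (@En.n l28377 (nat_lit 6190) (nat_lit 12) (nat_lit 6))
    (@En.n l4830 (nat_lit 6731) (nat_lit 15) (nat_lit 3))))
  (@Cl.mk (nat_lit 0x2000d000a000d0003000a0003000b0006000a000d000600050003000e0006) (nat_lit 0x852030108500060) (nat_lit 16) Lb.e (@T16.mk En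
    (@En.i (nat_lit 4449) (nat_lit 14) (nat_lit 6))
    (@En.n l97 (nat_lit 6665) (nat_lit 1) (nat_lit 14))
    (@En.n l2101 (nat_lit 6730) (nat_lit 2) (nat_lit 3))
    (@En.n l18 (nat_lit 3471) (nat_lit 3) (nat_lit 5))
    (@En.n l6081 (nat_lit 9657) (nat_lit 4) (nat_lit 6))
    (@En.i (nat_lit 13993) (nat_lit 5) (nat_lit 13))
    (@En.i (nat_lit 9403) (nat_lit 11) (nat_lit 10))
    (@En.n l61 (nat_lit 4460) (nat_lit 7) (nat_lit 6))
    (@En.i (nat_lit 5114) (nat_lit 9) (nat_lit 11))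
    (@En.i (nat_lit 4461) (nat_lit 9) (nat_lit 3))
    (@En.i (nat_lit 7181) (nat_lit 11) (nat_lit 10))
    (@En.i (nat_lit 6733) (nat_lit 11) (nat_lit 3))
    (@En.i (nat_lit 4869) (nat_lit 0) (nat_lit 13))
    (@En.i (nat_lit 6676) (nat_lit 14) (nat_lit 10))
    (@En.i (nat_lit 9072) (nat_lit 2) (nat_lit 13))
    (@En.n l107 (nat_lit 6735) (nat_lit 15) (nat_lit 2))))
noncomputable def a421 : T16 Cl := @T16.mk Cl
  (@Cl.mk (nat_lit 0x2000d0008000700030006000d000c000b00030008000400090005000e000a) (nat_lit 0x25000b150502051) (nat_lit 16) Lb.e (@T16.mk En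
    (@En.n l16838 (nat_lit 6734) (nat_lit 4) (nat_lit 10))
    (@En.n l6777 (nat_lit 9036) (nat_lit 1) (nat_lit 14))
    (@En.n l7979 (nat_lit 6775) (nat_lit 2) (nat_lit 5))
    (@En.n l3517 (nat_lit 5110) (nat_lit 3) (nat_lit 9))
    (@En.n l6777 (nat_lit 6757) (nat_lit 4) (nat_lit 4))
    (@En.i (nat_lit 6803) (nat_lit 5) (nat_lit 8))
    (@En.n l16839 (nat_lit 4450) (nat_lit 6) (nat_lit 3))
    (@En.n l619 (nat_lit 6756) (nat_lit 0) (nat_lit 11))
    (@En.n l16840 (nat_lit 4453) (nat_lit 9) (nat_lit 12))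
    (@En.i (nat_lit 9047) (nat_lit 10) (nat_lit 13))
    (@En.n l3971 (nat_lit 6185) (nat_lit 12) (nat_lit 6))
    (@En.n l3473 (nat_lit 6737) (nat_lit 11) (nat_lit 3))
    (@En.n l16841 (nat_lit 2741) (nat_lit 0) (nat_lit 7))
    (@En.n l61 (nat_lit 9866) (nat_lit 14) (nat_lit 8))
    (@En.n l15351 (nat_lit 6734) (nat_lit 2) (nat_lit 13))
    (@En.n l7 (nat_lit 6736) (nat_lit 15) (nat_lit 2))))
  (@Cl.mk (nat_lit 0x2000d0006000900030006000d000c000b000300070004000a0005000e000a) (nat_lit 0x10500b320006051) (nat_lit 16) Lb.e (@T16.mk En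
    (@En.n l817 (nat_lit 6731) (nat_lit 4) (nat_lit 10))
    (@En.n l7363 (nat_lit 11005) (nat_lit 1) (nat_lit 14))
    (@En.n l2720 (nat_lit 6774) (nat_lit 2) (nat_lit 5))
    (@En.n l2577 (nat_lit 6739) (nat_lit 3) (nat_lit 10))
    (@En.n l867 (nat_lit 6742) (nat_lit 4) (nat_lit 4))
    (@En.i (nat_lit 1184) (nat_lit 5) (nat_lit 7))
    (@En.n l7699 (nat_lit 6738) (nat_lit 6) (nat_lit 3))
    (@En.n l619 (nat_lit 6758) (nat_lit 0) (nat_lit 11))
    (@En.n l7820 (nat_lit 6740) (nat_lit 9) (nat_lit 12))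
    (@En.n l17 (nat_lit 9048) (nat_lit 10) (nat_lit 13))
    (@En.n l826 (nat_lit 7276) (nat_lit 12) (nat_lit 6))
    (@En.n l17 (nat_lit 6736) (nat_lit 11) (nat_lit 3))
    (@En.n l7821 (nat_lit 2064) (nat_lit 0) (nat_lit 9))
    (@En.n l2687 (nat_lit 8132) (nat_lit 14) (nat_lit 6))
    (@En.n l816 (nat_lit 6731) (nat_lit 2) (nat_lit 13))
    (@En.n l7 (nat_lit 6737) (nat_lit 15) (nat_lit 2))))
  (@Cl.mk (nat_lit 0x2000d0006000900030006000d000a000d000300070003000a0006000e000a) (nat_lit 0x6050074200060c5) (nat_lit 16) Lb.e (@T16.mk En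
    (@En.n l2643 (nat_lit 6729) (nat_lit 4) (nat_lit 10))
    (@En.n l2644 (nat_lit 11004) (nat_lit 1) (nat_lit 14))
    (@En.n l18648 (nat_lit 6772) (nat_lit 2) (nat_lit 6))
    (@En.n l11187 (nat_lit 6728) (nat_lit 3) (nat_lit 10))
    (@En.n l18649 (nat_lit 6740) (nat_lit 4) (nat_lit 3))
    (@En.n l5796 (nat_lit 1289) (nat_lit 0) (nat_lit 7))
    (@En.n l2646 (nat_lit 6737) (nat_lit 6) (nat_lit 3))
    (@En.n l2571 (nat_lit 4855) (nat_lit 0) (nat_lit 13))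
    (@En.n l18650 (nat_lit 5390) (nat_lit 9) (nat_lit 10))
    (@En.n l862 (nat_lit 9046) (nat_lit 10) (nat_lit 13))
    (@En.n l2652 (nat_lit 7227) (nat_lit 12) (nat_lit 6))
    (@En.n l18651 (nat_lit 4450) (nat_lit 11) (nat_lit 3))
    (@En.n l2556 (nat_lit 2058) (nat_lit 0) (nat_lit 9))
    (@En.n l2641 (nat_lit 8135) (nat_lit 14) (nat_lit 6))
    (@En.n l2642 (nat_lit 6729) (nat_lit 2) (nat_lit 13))
    (@En.n l3 (nat_lit 6738) (nat_lit 15) (nat_lit 2))))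
  (@Cl.mk (nat_lit 0x2000c0006000b000900040007000d0005000c00030007000a0004000e0009) (nat_lit 0x208600a02005041) (nat_lit 16) Lb.e (@T16.mk En
    (@En.n l15216 (nat_lit 6727) (nat_lit 11) (nat_lit 9))
    (@En.n l18816 (nat_lit 11003) (nat_lit 1) (nat_lit 14))
    (@En.n l12505 (nat_lit 6779) (nat_lit 2) (nat_lit 4))
    (@En.i (nat_lit 6969) (nat_lit 8) (nat_lit 10))
    (@En.n l18817 (nat_lit 1182) (nat_lit 4) (nat_lit 7))
    (@En.n l18818 (nat_lit 6728) (nat_lit 5) (nat_lit 3))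
    (@En.n l18819 (nat_lit 6759) (nat_lit 0) (nat_lit 12))
    (@En.n l18820 (nat_lit 6519) (nat_lit 7) (nat_lit 5))
    (@En.i (nat_lit 8588) (nat_lit 9) (nat_lit 13))
    (@En.n l1367 (nat_lit 7275) (nat_lit 11) (nat_lit 7))
    (@En.n l4340 (nat_lit 5110) (nat_lit 10) (nat_lit 4))
    (@En.n l7671 (nat_lit 6737) (nat_lit 12) (nat_lit 9))
    (@En.n l4542 (nat_lit 6777) (nat_lit 13) (nat_lit 11))
    (@En.n l18821 (nat_lit 8133) (nat_lit 14) (nat_lit 6))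
    (@En.n l18822 (nat_lit 6727) (nat_lit 9) (nat_lit 12))
    (@En.n l50 (nat_lit 6739) (nat_lit 15) (nat_lit 2))))
  (@Cl.mk (nat_lit 0x2000d0006000a00030006000c000a000d000600040003000a0006000e000a) (nat_lit 0x206002310006045) (nat_lit 16) Lb.e (@T16.mk En
    (@En.n l18823 (nat_lit 6686) (nat_lit 4) (nat_lit 10))
    (@En.n l420 (nat_lit 11006) (nat_lit 1) (nat_lit 14))
    (@En.n l476 (nat_lit 6773) (nat_lit 2) (nat_lit 6))
    (@En.i (nat_lit 6954) (nat_lit 3) (nat_lit 10))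
    (@En.n l7838 (nat_lit 6738) (nat_lit 4) (nat_lit 3))
    (@En.n l9657 (nat_lit 3464) (nat_lit 0) (nat_lit 4))
    (@En.n l18824 (nat_lit 6728) (nat_lit 6) (nat_lit 6))
    (@En.n l18825 (nat_lit 4824) (nat_lit 8) (nat_lit 13))
    (@En.i (nat_lit 5398) (nat_lit 9) (nat_lit 10))
    (@En.n l9657 (nat_lit 9062) (nat_lit 10) (nat_lit 12))
    (@En.n l9591 (nat_lit 7224) (nat_lit 12) (nat_lit 6))
    (@En.n l7840 (nat_lit 4453) (nat_lit 11) (nat_lit 3))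
    (@En.n l2038 (nat_lit 3366) (nat_lit 0) (nat_lit 10))
    (@En.n l18826 (nat_lit 8134) (nat_lit 14) (nat_lit 6))
    (@En.n l18827 (nat_lit 6686) (nat_lit 2) (nat_lit 13))
    (@En.n l18 (nat_lit 6740) (nat_lit 15) (nat_lit 2))))
  (@Cl.mk (nat_lit 0x300060006000c000c0006000c00040004000b0004000a000a000d0005000a) (nat_lit 0x4103006000003) (nat_lit 16) Lb.e (@T16.mk En
    (@En.n l5943 (nat_lit 2497) (nat_lit 0) (nat_lit 10))
    (@En.n l1790 (nat_lit 8122) (nat_lit 8) (nat_lit 5))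
    (@En.n l18 (nat_lit 6744) (nat_lit 5) (nat_lit 13))
    (@En.n l61 (nat_lit 6744) (nat_lit 6) (nat_lit 10))
    (@En.n l15560 (nat_lit 7429) (nat_lit 4) (nat_lit 10))
    (@En.n l3173 (nat_lit 6345) (nat_lit 5) (nat_lit 4))
    (@En.n l6307 (nat_lit 6592) (nat_lit 0) (nat_lit 11))
    (@En.n l152 (nat_lit 6749) (nat_lit 12) (nat_lit 4))
    (@En.n l2134 (nat_lit 6686) (nat_lit 8) (nat_lit 4))
    (@En.n l11591 (nat_lit 2402) (nat_lit 0) (nat_lit 12))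
    (@En.i (nat_lit 6727) (nat_lit 1) (nat_lit 6))
    (@En.n l15561 (nat_lit 3457) (nat_lit 4) (nat_lit 12))
    (@En.n l15562 (nat_lit 9984) (nat_lit 13) (nat_lit 12))
    (@En.n l6312 (nat_lit 6742) (nat_lit 10) (nat_lit 6))
    (@En.n l15563 (nat_lit 6767) (nat_lit 12) (nat_lit 6))
    (@En.n l6280 (nat_lit 6745) (nat_lit 15) (nat_lit 3))))
  (@Cl.mk (nat_lit 0x2000d0006000b00030006000c000c0005000c00040004000a0004000e000a) (nat_lit 0x108003103002061) (nat_lit 16) Lb.e (@T16.mk En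
    (@En.n l2822 (nat_lit 6741) (nat_lit 4) (nat_lit 10))
    (@En.n l8145 (nat_lit 11007) (nat_lit 1) (nat_lit 14))
    (@En.n l476 (nat_lit 6347) (nat_lit 2) (nat_lit 4))
    (@En.i (nat_lit 6595) (nat_lit 3) (nat_lit 10))
    (@En.n l8146 (nat_lit 6743) (nat_lit 12) (nat_lit 4))
    (@En.i (nat_lit 6740) (nat_lit 5) (nat_lit 4))
    (@En.n l1554 (nat_lit 3678) (nat_lit 7) (nat_lit 12))
    (@En.n l2385 (nat_lit 6739) (nat_lit 7) (nat_lit 5))
    (@En.n l8147 (nat_lit 3464) (nat_lit 4) (nat_lit 12))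
    (@En.i (nat_lit 9988) (nat_lit 10) (nat_lit 12))
    (@En.i (nat_lit 7274) (nat_lit 12) (nat_lit 6))
    (@En.n l1455 (nat_lit 6757) (nat_lit 11) (nat_lit 3))
    (@En.n l619 (nat_lit 2557) (nat_lit 0) (nat_lit 11))
    (@En.n l8148 (nat_lit 8131) (nat_lit 14) (nat_lit 6))
    (@En.n l2825 (nat_lit 6741) (nat_lit 2) (nat_lit 13))
    (@En.n l18 (nat_lit 6742) (nat_lit 15) (nat_lit 2))))
  (@Cl.mk (nat_lit 0x20006000d0004000a0003000e000a0002000d0006000a00030006000e000c) (nat_lit 0x30605000050094) (nat_lit 16) Lb.e (@T16.mk En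
    (@En.n l867 (nat_lit 6742) (nat_lit 9) (nat_lit 12))
    (@En.n l17 (nat_lit 7967) (nat_lit 1) (nat_lit 14))
    (@En.n l826 (nat_lit 4009) (nat_lit 2) (nat_lit 6))
    (@En.n l17 (nat_lit 6751) (nat_lit 3) (nat_lit 3))
    (@En.n l2784 (nat_lit 2500) (nat_lit 0) (nat_lit 10))
    (@En.n l2785 (nat_lit 8130) (nat_lit 14) (nat_lit 6))
    (@En.n l816 (nat_lit 6749) (nat_lit 7) (nat_lit 13))
    (@En.n l7 (nat_lit 6743) (nat_lit 7) (nat_lit 2))
    (@En.n l817 (nat_lit 6749) (nat_lit 9) (nat_lit 10))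
    (@En.n l2578 (nat_lit 11011) (nat_lit 10) (nat_lit 14))
    (@En.i (nat_lit 6758) (nat_lit 10) (nat_lit 3))
    (@En.i (nat_lit 5204) (nat_lit 12) (nat_lit 10))
    (@En.n l117 (nat_lit 6737) (nat_lit 4) (nat_lit 4))
    (@En.n l2578 (nat_lit 3679) (nat_lit 14) (nat_lit 13))
    (@En.i (nat_lit 1185) (nat_lit 6) (nat_lit 6))
    (@En.n l3 (nat_lit 6743) (nat_lit 15) (nat_lit 2))))
  (@Cl.mk (nat_lit 0x2000c000c0007000c00040004000c0004000a000d000400090003000e0006) (nat_lit 0x610300208b060a0) (nat_lit 16) Lb.e (@T16.mk En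
    (@En.i (nat_lit 6741) (nat_lit 14) (nat_lit 6))
    (@En.n l622 (nat_lit 6308) (nat_lit 1) (nat_lit 14))
    (@En.n l1455 (nat_lit 6746) (nat_lit 2) (nat_lit 3))
    (@En.i (nat_lit 2498) (nat_lit 3) (nat_lit 9))
    (@En.n l1790 (nat_lit 8203) (nat_lit 4) (nat_lit 4))
    (@En.i (nat_lit 13311) (nat_lit 5) (nat_lit 13))
    (@En.n l5944 (nat_lit 8737) (nat_lit 1) (nat_lit 10))
    (@En.i (nat_lit 6342) (nat_lit 7) (nat_lit 4))
    (@En.n l17820 (nat_lit 6591) (nat_lit 9) (nat_lit 12))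
    (@En.n l152 (nat_lit 6750) (nat_lit 12) (nat_lit 4))
    (@En.n l5936 (nat_lit 6685) (nat_lit 10) (nat_lit 4))
    (@En.n l5946 (nat_lit 2396) (nat_lit 12) (nat_lit 12))
    (@En.i (nat_lit 6725) (nat_lit 13) (nat_lit 7))
    (@En.n l5948 (nat_lit 3456) (nat_lit 4) (nat_lit 12))
    (@En.i (nat_lit 9982) (nat_lit 12) (nat_lit 12))
    (@En.n l17 (nat_lit 6744) (nat_lit 15) (nat_lit 2))))
  (@Cl.mk (nat_lit 0x300060006000c000c0007000c00040004000a0004000a000a000d00090006) (nat_lit 0x4107002000050) (nat_lit 16) Lb.e (@T16.mk En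
    (@En.n l27701 (nat_lit 2688) (nat_lit 0) (nat_lit 6))
    (@En.n l612 (nat_lit 9257) (nat_lit 12) (nat_lit 9))
    (@En.n l27702 (nat_lit 6746) (nat_lit 5) (nat_lit 13))
    (@En.n l18589 (nat_lit 6746) (nat_lit 6) (nat_lit 10))
    (@En.n l27703 (nat_lit 8734) (nat_lit 4) (nat_lit 10))
    (@En.n l15270 (nat_lit 6755) (nat_lit 5) (nat_lit 4))
    (@En.n l27704 (nat_lit 6647) (nat_lit 0) (nat_lit 10))
    (@En.n l152 (nat_lit 6748) (nat_lit 12) (nat_lit 4))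
    (@En.n l27703 (nat_lit 4455) (nat_lit 8) (nat_lit 4))
    (@En.n l27705 (nat_lit 2201) (nat_lit 0) (nat_lit 12))
    (@En.n l27706 (nat_lit 6807) (nat_lit 1) (nat_lit 7))
    (@En.n l3536 (nat_lit 3466) (nat_lit 4) (nat_lit 12))
    (@En.n l27707 (nat_lit 9981) (nat_lit 13) (nat_lit 12))
    (@En.n l27708 (nat_lit 6757) (nat_lit 10) (nat_lit 6))
    (@En.n l14243 (nat_lit 6996) (nat_lit 12) (nat_lit 6))
    (@En.n l14244 (nat_lit 6741) (nat_lit 15) (nat_lit 3))))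
  (@Cl.mk (nat_lit 0x2000c000c0008000c00040004000b0004000a000d000800050003000e0006) (nat_lit 0x515800208b40010) (nat_lit 16) Lb.e (@T16.mk En
    (@En.n l16572 (nat_lit 6745) (nat_lit 14) (nat_lit 6))
    (@En.n l16573 (nat_lit 2311) (nat_lit 1) (nat_lit 14))
    (@En.n l4862 (nat_lit 6744) (nat_lit 2) (nat_lit 3))
    (@En.n l18 (nat_lit 2704) (nat_lit 3) (nat_lit 5))
    (@En.n l4377 (nat_lit 9277) (nat_lit 4) (nat_lit 8))
    (@En.n l4377 (nat_lit 13313) (nat_lit 5) (nat_lit 13))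
    (@En.i (nat_lit 8735) (nat_lit 7) (nat_lit 10))
    (@En.n l16574 (nat_lit 6754) (nat_lit 7) (nat_lit 4))
    (@En.n l16575 (nat_lit 6648) (nat_lit 9) (nat_lit 11))
    (@En.n l16576 (nat_lit 6747) (nat_lit 12) (nat_lit 4))
    (@En.i (nat_lit 4461) (nat_lit 10) (nat_lit 4))
    (@En.n l16575 (nat_lit 2387) (nat_lit 12) (nat_lit 12))
    (@En.n l55 (nat_lit 6808) (nat_lit 13) (nat_lit 8))
    (@En.n l134 (nat_lit 3467) (nat_lit 4) (nat_lit 12))
    (@En.n l4377 (nat_lit 9979) (nat_lit 12) (nat_lit 12))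
    (@En.n l107 (nat_lit 6746) (nat_lit 15) (nat_lit 2))))
  (@Cl.mk (nat_lit 0x20009000d0004000b0003000a000d000700050003000e00060002000e000c) (nat_lit 0x630400000010086) (nat_lit 16) Lb.e (@T16.mk En
    (@En.n l1455 (nat_lit 6746) (nat_lit 14) (nat_lit 12))
    (@En.i (nat_lit 11974) (nat_lit 1) (nat_lit 14))
    (@En.n l17 (nat_lit 6747) (nat_lit 2) (nat_lit 2))
    (@En.n l6280 (nat_lit 6748) (nat_lit 3) (nat_lit 6))
    (@En.n l1708 (nat_lit 2309) (nat_lit 1) (nat_lit 14))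
    (@En.n l7 (nat_lit 6750) (nat_lit 5) (nat_lit 3))
    (@En.n l427 (nat_lit 2707) (nat_lit 6) (nat_lit 5))
    (@En.i (nat_lit 9292) (nat_lit 7) (nat_lit 7))
    (@En.i (nat_lit 13112) (nat_lit 5) (nat_lit 13))
    (@En.n l417 (nat_lit 8739) (nat_lit 10) (nat_lit 10))
    (@En.n l439 (nat_lit 6753) (nat_lit 10) (nat_lit 3))
    (@En.i (nat_lit 5009) (nat_lit 0) (nat_lit 11))
    (@En.n l417 (nat_lit 6733) (nat_lit 9) (nat_lit 4))
    (@En.n l6681 (nat_lit 2391) (nat_lit 14) (nat_lit 13))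
    (@En.i (nat_lit 6800) (nat_lit 12) (nat_lit 9))
    (@En.n l3 (nat_lit 6747) (nat_lit 15) (nat_lit 2))))
  (@Cl.mk (nat_lit 0x20008000d0004000a0003000a000a000d00080006000300060006000e000c) (nat_lit 0x530400115000085) (nat_lit 16) Lb.e (@T16.mk En
    (@En.i (nat_lit 6745) (nat_lit 12) (nat_lit 12))
    (@En.n l14241 (nat_lit 11979) (nat_lit 1) (nat_lit 14))
    (@En.n l14242 (nat_lit 6751) (nat_lit 2) (nat_lit 6))
    (@En.n l14243 (nat_lit 6997) (nat_lit 3) (nat_lit 6))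
    (@En.n l14244 (nat_lit 6749) (nat_lit 4) (nat_lit 3))
    (@En.n l14245 (nat_lit 2708) (nat_lit 0) (nat_lit 6))
    (@En.n l5 (nat_lit 8442) (nat_lit 6) (nat_lit 8))
    (@En.n l8114 (nat_lit 6747) (nat_lit 8) (nat_lit 13))
    (@En.n l829 (nat_lit 6747) (nat_lit 9) (nat_lit 10))
    (@En.n l14246 (nat_lit 8741) (nat_lit 10) (nat_lit 10))
    (@En.n l7795 (nat_lit 6752) (nat_lit 10) (nat_lit 3))
    (@En.n l14247 (nat_lit 5010) (nat_lit 0) (nat_lit 10))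
    (@En.n l14246 (nat_lit 6734) (nat_lit 7) (nat_lit 4))
    (@En.n l14248 (nat_lit 2202) (nat_lit 14) (nat_lit 13))
    (@En.n l6984 (nat_lit 6798) (nat_lit 1) (nat_lit 8))
    (@En.n l3 (nat_lit 6748) (nat_lit 15) (nat_lit 2))))
  (@Cl.mk (nat_lit 0x20007000d0004000b0003000a000a000d00050009000300060006000e000c) (nat_lit 0x206080b0200085) (nat_lit 16) Lb.e (@T16.mk En
    (@En.i (nat_lit 6741) (nat_lit 12) (nat_lit 12))
    (@En.i (nat_lit 11975) (nat_lit 1) (nat_lit 14))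
    (@En.n l2139 (nat_lit 6743) (nat_lit 2) (nat_lit 6))
    (@En.n l2180 (nat_lit 6762) (nat_lit 12) (nat_lit 6))
    (@En.n l6280 (nat_lit 6748) (nat_lit 4) (nat_lit 3))
    (@En.n l535 (nat_lit 2494) (nat_lit 0) (nat_lit 9))
    (@En.n l6281 (nat_lit 8128) (nat_lit 6) (nat_lit 5))
    (@En.n l18 (nat_lit 6750) (nat_lit 8) (nat_lit 13))
    (@En.n l61 (nat_lit 6750) (nat_lit 9) (nat_lit 10))
    (@En.n l6282 (nat_lit 8744) (nat_lit 10) (nat_lit 10))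
    (@En.i (nat_lit 6349) (nat_lit 10) (nat_lit 3))
    (@En.n l1598 (nat_lit 5127) (nat_lit 12) (nat_lit 11))
    (@En.n l117 (nat_lit 6731) (nat_lit 7) (nat_lit 4))
    (@En.n l3178 (nat_lit 2397) (nat_lit 14) (nat_lit 13))
    (@En.i (nat_lit 1039) (nat_lit 3) (nat_lit 7))
    (@En.n l3 (nat_lit 6749) (nat_lit 15) (nat_lit 2))))
  (@Cl.mk (nat_lit 0x20008000d0004000c0003000a000d000400080003000e00060002000e000c) (nat_lit 0x130608a03030087) (nat_lit 16) Lb.e (@T16.mk En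
    (@En.i (nat_lit 6744) (nat_lit 14) (nat_lit 12))
    (@En.i (nat_lit 11972) (nat_lit 1) (nat_lit 14))
    (@En.n l17 (nat_lit 6750) (nat_lit 2) (nat_lit 2))
    (@En.i (nat_lit 6749) (nat_lit 3) (nat_lit 6))
    (@En.n l1708 (nat_lit 6771) (nat_lit 1) (nat_lit 14))
    (@En.i (nat_lit 6747) (nat_lit 5) (nat_lit 3))
    (@En.i (nat_lit 2491) (nat_lit 6) (nat_lit 8))
    (@En.i (nat_lit 8214) (nat_lit 7) (nat_lit 4))
    (@En.i (nat_lit 13109) (nat_lit 5) (nat_lit 13))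
    (@En.n l3178 (nat_lit 8742) (nat_lit 10) (nat_lit 10))
    (@En.i (nat_lit 6351) (nat_lit 10) (nat_lit 3))
    (@En.i (nat_lit 5126) (nat_lit 12) (nat_lit 12))
    (@En.n l117 (nat_lit 6732) (nat_lit 9) (nat_lit 4))
    (@En.n l2044 (nat_lit 2395) (nat_lit 14) (nat_lit 13))
    (@En.i (nat_lit 1035) (nat_lit 12) (nat_lit 8))
    (@En.n l3 (nat_lit 6750) (nat_lit 15) (nat_lit 2))))
  (@Cl.mk (nat_lit 0x20007000d000400090003000e000a0002000d0009000700030006000e000c) (nat_lit 0x30405102600095) (nat_lit 16) Lb.e (@T16.mk En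
    (@En.n l6777 (nat_lit 6757) (nat_lit 9) (nat_lit 12))
    (@En.n l3348 (nat_lit 7965) (nat_lit 1) (nat_lit 14))
    (@En.n l3971 (nat_lit 6168) (nat_lit 2) (nat_lit 6))
    (@En.n l3473 (nat_lit 6743) (nat_lit 3) (nat_lit 3))
    (@En.n l947 (nat_lit 2740) (nat_lit 0) (nat_lit 7))
    (@En.n l61 (nat_lit 9258) (nat_lit 5) (nat_lit 9))
    (@En.n l6778 (nat_lit 6748) (nat_lit 7) (nat_lit 13))
    (@En.n l7 (nat_lit 6751) (nat_lit 7) (nat_lit 2))
    (@En.n l6779 (nat_lit 6748) (nat_lit 9) (nat_lit 10))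
    (@En.n l6780 (nat_lit 11028) (nat_lit 1) (nat_lit 14))
    (@En.i (nat_lit 6756) (nat_lit 10) (nat_lit 3))
    (@En.n l6780 (nat_lit 5014) (nat_lit 12) (nat_lit 9))
    (@En.n l117 (nat_lit 6736) (nat_lit 4) (nat_lit 4))
    (@En.n l6780 (nat_lit 2200) (nat_lit 14) (nat_lit 13))
    (@En.i (nat_lit 6799) (nat_lit 6) (nat_lit 7))
    (@En.n l3 (nat_lit 6751) (nat_lit 15) (nat_lit 2))))
noncomputable def a422 : T16 Cl := @T16.mk Cl
  (@Cl.mk (nat_lit 0x20008000d000900050003000a000a000d00080007000300060006000e000b) (nat_lit 0x4250000040000c5) (nat_lit 16) Lb.e (@T16.mk En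
    (@En.n l9346 (nat_lit 6755) (nat_lit 12) (nat_lit 11))
    (@En.n l9347 (nat_lit 12161) (nat_lit 1) (nat_lit 14))
    (@En.n l7928 (nat_lit 6756) (nat_lit 2) (nat_lit 6))
    (@En.n l7929 (nat_lit 6998) (nat_lit 3) (nat_lit 6))
    (@En.n l9348 (nat_lit 6349) (nat_lit 4) (nat_lit 3))
    (@En.n l152 (nat_lit 1283) (nat_lit 0) (nat_lit 7))
    (@En.n l426 (nat_lit 8479) (nat_lit 6) (nat_lit 8))
    (@En.n l9349 (nat_lit 6753) (nat_lit 8) (nat_lit 13))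
    (@En.n l9350 (nat_lit 6753) (nat_lit 9) (nat_lit 10))
    (@En.i (nat_lit 9415) (nat_lit 10) (nat_lit 10))
    (@En.n l9351 (nat_lit 6748) (nat_lit 10) (nat_lit 3))
    (@En.n l9352 (nat_lit 6708) (nat_lit 0) (nat_lit 5))
    (@En.i (nat_lit 2160) (nat_lit 13) (nat_lit 9))
    (@En.n l9353 (nat_lit 2206) (nat_lit 14) (nat_lit 13))
    (@En.n l9354 (nat_lit 6794) (nat_lit 3) (nat_lit 8))
    (@En.n l18 (nat_lit 6752) (nat_lit 15) (nat_lit 2))))
  (@Cl.mk (nat_lit 0x20009000d000a00050003000a000d000700060003000e00060002000e000b) (nat_lit 0x624008b000100c6) (nat_lit 16) Lb.e (@T16.mk En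
    (@En.i (nat_lit 6754) (nat_lit 14) (nat_lit 11))
    (@En.n l1521 (nat_lit 12179) (nat_lit 1) (nat_lit 14))
    (@En.n l107 (nat_lit 6753) (nat_lit 2) (nat_lit 2))
    (@En.n l3727 (nat_lit 6752) (nat_lit 3) (nat_lit 6))
    (@En.n l3728 (nat_lit 2310) (nat_lit 1) (nat_lit 14))
    (@En.n l1520 (nat_lit 6351) (nat_lit 5) (nat_lit 3))
    (@En.n l18 (nat_lit 1347) (nat_lit 6) (nat_lit 6))
    (@En.n l1521 (nat_lit 9293) (nat_lit 7) (nat_lit 7))
    (@En.n l1521 (nat_lit 13108) (nat_lit 5) (nat_lit 13))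
    (@En.n l3727 (nat_lit 9416) (nat_lit 10) (nat_lit 10))
    (@En.n l435 (nat_lit 6747) (nat_lit 10) (nat_lit 3))
    (@En.n l3729 (nat_lit 6709) (nat_lit 0) (nat_lit 5))
    (@En.n l3727 (nat_lit 2161) (nat_lit 13) (nat_lit 10))
    (@En.n l3729 (nat_lit 2390) (nat_lit 14) (nat_lit 13))
    (@En.n l1521 (nat_lit 6797) (nat_lit 12) (nat_lit 9))
    (@En.n l28 (nat_lit 6753) (nat_lit 15) (nat_lit 2))))
  (@Cl.mk (nat_lit 0x2000b000b0008000c0009000500050004000a000d000800070003000e0006) (nat_lit 0x555840000030010) (nat_lit 16) Lb.e (@T16.mk En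
    (@En.n l8585 (nat_lit 6755) (nat_lit 14) (nat_lit 6))
    (@En.n l3728 (nat_lit 2314) (nat_lit 1) (nat_lit 14))
    (@En.n l1520 (nat_lit 6342) (nat_lit 2) (nat_lit 3))
    (@En.n l18 (nat_lit 1343) (nat_lit 3) (nat_lit 7))
    (@En.n l6081 (nat_lit 9295) (nat_lit 4) (nat_lit 8))
    (@En.i (nat_lit 13315) (nat_lit 5) (nat_lit 13))
    (@En.n l1522 (nat_lit 9410) (nat_lit 7) (nat_lit 10))
    (@En.n l77 (nat_lit 6675) (nat_lit 7) (nat_lit 4))
    (@En.n l55 (nat_lit 6753) (nat_lit 11) (nat_lit 5))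
    (@En.n l8586 (nat_lit 6650) (nat_lit 9) (nat_lit 5))
    (@En.n l3727 (nat_lit 2168) (nat_lit 11) (nat_lit 9))
    (@En.n l8586 (nat_lit 2241) (nat_lit 12) (nat_lit 12))
    (@En.n l2931 (nat_lit 6796) (nat_lit 13) (nat_lit 8))
    (@En.n l8587 (nat_lit 6884) (nat_lit 5) (nat_lit 11))
    (@En.n l8588 (nat_lit 11115) (nat_lit 12) (nat_lit 11))
    (@En.n l107 (nat_lit 6754) (nat_lit 15) (nat_lit 2))))
  (@Cl.mk (nat_lit 0x300060006000b000b0007000c0008000500050004000a000a000d00090008) (nat_lit 0x4107400001141) (nat_lit 16) Lb.e (@T16.mk En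
    (@En.n l20358 (nat_lit 1253) (nat_lit 0) (nat_lit 8))
    (@En.n l20359 (nat_lit 9255) (nat_lit 12) (nat_lit 9))
    (@En.n l20321 (nat_lit 6754) (nat_lit 5) (nat_lit 13))
    (@En.n l20360 (nat_lit 6754) (nat_lit 6) (nat_lit 10))
    (@En.n l20361 (nat_lit 9409) (nat_lit 4) (nat_lit 10))
    (@En.n l3100 (nat_lit 5967) (nat_lit 5) (nat_lit 4))
    (@En.n l20362 (nat_lit 6752) (nat_lit 11) (nat_lit 5))
    (@En.n l8373 (nat_lit 6651) (nat_lit 7) (nat_lit 5))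
    (@En.n l19958 (nat_lit 2164) (nat_lit 0) (nat_lit 8))
    (@En.n l20363 (nat_lit 2237) (nat_lit 10) (nat_lit 12))
    (@En.n l7 (nat_lit 6790) (nat_lit 11) (nat_lit 7))
    (@En.n l644 (nat_lit 3465) (nat_lit 5) (nat_lit 11))
    (@En.i (nat_lit 11116) (nat_lit 13) (nat_lit 11))
    (@En.n l20364 (nat_lit 6786) (nat_lit 10) (nat_lit 6))
    (@En.n l3340 (nat_lit 6999) (nat_lit 12) (nat_lit 6))
    (@En.n l20365 (nat_lit 6345) (nat_lit 15) (nat_lit 3))))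
  (@Cl.mk (nat_lit 0x20007000d000800050003000e000a0002000d0009000800030006000e000b) (nat_lit 0x230061015200b4) (nat_lit 16) Lb.e (@T16.mk En
    (@En.n l3970 (nat_lit 6786) (nat_lit 9) (nat_lit 11))
    (@En.n l2351 (nat_lit 7966) (nat_lit 1) (nat_lit 14))
    (@En.n l3971 (nat_lit 6163) (nat_lit 2) (nat_lit 6))
    (@En.n l3473 (nat_lit 6758) (nat_lit 3) (nat_lit 3))
    (@En.n l3972 (nat_lit 1382) (nat_lit 0) (nat_lit 8))
    (@En.n l61 (nat_lit 9256) (nat_lit 5) (nat_lit 9))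
    (@En.n l3352 (nat_lit 6752) (nat_lit 7) (nat_lit 13))
    (@En.n l7 (nat_lit 6756) (nat_lit 7) (nat_lit 2))
    (@En.n l3353 (nat_lit 6752) (nat_lit 9) (nat_lit 10))
    (@En.n l3973 (nat_lit 4556) (nat_lit 1) (nat_lit 14))
    (@En.n l11 (nat_lit 6751) (nat_lit 10) (nat_lit 3))
    (@En.n l3973 (nat_lit 6715) (nat_lit 3) (nat_lit 5))
    (@En.i (nat_lit 2163) (nat_lit 13) (nat_lit 8))
    (@En.n l3973 (nat_lit 2205) (nat_lit 6) (nat_lit 13))
    (@En.n l3974 (nat_lit 6792) (nat_lit 6) (nat_lit 7))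
    (@En.n l3 (nat_lit 6756) (nat_lit 15) (nat_lit 2))))
  (@Cl.mk (nat_lit 0x2000d000a000700030006000c000c0006000c0004000400090004000e000a) (nat_lit 0x160004306002061) (nat_lit 16) Lb.e (@T16.mk En
    (@En.n l16830 (nat_lit 6745) (nat_lit 4) (nat_lit 10))
    (@En.n l3749 (nat_lit 11030) (nat_lit 1) (nat_lit 14))
    (@En.n l403 (nat_lit 6786) (nat_lit 2) (nat_lit 4))
    (@En.n l1353 (nat_lit 6652) (nat_lit 3) (nat_lit 9))
    (@En.n l16831 (nat_lit 6751) (nat_lit 12) (nat_lit 4))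
    (@En.n l4884 (nat_lit 4453) (nat_lit 5) (nat_lit 4))
    (@En.i (nat_lit 2203) (nat_lit 7) (nat_lit 12))
    (@En.n l8245 (nat_lit 6810) (nat_lit 7) (nat_lit 6))
    (@En.n l11937 (nat_lit 6788) (nat_lit 4) (nat_lit 12))
    (@En.n l11949 (nat_lit 9987) (nat_lit 10) (nat_lit 12))
    (@En.n l7242 (nat_lit 6169) (nat_lit 12) (nat_lit 6))
    (@En.n l1430 (nat_lit 6742) (nat_lit 11) (nat_lit 3))
    (@En.n l16832 (nat_lit 2696) (nat_lit 0) (nat_lit 7))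
    (@En.n l8600 (nat_lit 9254) (nat_lit 14) (nat_lit 10))
    (@En.n l16833 (nat_lit 6745) (nat_lit 2) (nat_lit 13))
    (@En.n l3 (nat_lit 6757) (nat_lit 15) (nat_lit 2))))
  (@Cl.mk (nat_lit 0x20006000d000900050003000e000a0002000d0007000a00030006000e000b) (nat_lit 0x240051010500b1) (nat_lit 16) Lb.e (@T16.mk En
    (@En.n l1192 (nat_lit 6347) (nat_lit 9) (nat_lit 11))
    (@En.n l17 (nat_lit 7968) (nat_lit 1) (nat_lit 14))
    (@En.n l826 (nat_lit 4008) (nat_lit 2) (nat_lit 6))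
    (@En.n l17 (nat_lit 6756) (nat_lit 3) (nat_lit 3))
    (@En.n l1193 (nat_lit 2628) (nat_lit 0) (nat_lit 10))
    (@En.n l1194 (nat_lit 7652) (nat_lit 5) (nat_lit 7))
    (@En.n l816 (nat_lit 6349) (nat_lit 7) (nat_lit 13))
    (@En.n l7 (nat_lit 6758) (nat_lit 7) (nat_lit 2))
    (@En.n l817 (nat_lit 6349) (nat_lit 9) (nat_lit 10))
    (@En.n l1195 (nat_lit 4557) (nat_lit 10) (nat_lit 14))
    (@En.n l11 (nat_lit 6743) (nat_lit 10) (nat_lit 3))
    (@En.n l1192 (nat_lit 6710) (nat_lit 3) (nat_lit 5))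
    (@En.i (nat_lit 6759) (nat_lit 13) (nat_lit 9))
    (@En.n l1196 (nat_lit 3680) (nat_lit 14) (nat_lit 13))
    (@En.i (nat_lit 1183) (nat_lit 6) (nat_lit 6))
    (@En.n l3 (nat_lit 6758) (nat_lit 15) (nat_lit 2))))
  (@Cl.mk (nat_lit 0x2000600090004000a000e00090002000c00070006000a00040007000e000c) (nat_lit 0x30641010060091) (nat_lit 16) Lb.e (@T16.mk En
    (@En.n l3975 (nat_lit 6346) (nat_lit 8) (nat_lit 12))
    (@En.n l3976 (nat_lit 7973) (nat_lit 1) (nat_lit 14))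
    (@En.n l3977 (nat_lit 4010) (nat_lit 2) (nat_lit 7))
    (@En.n l17 (nat_lit 2163) (nat_lit 3) (nat_lit 4))
    (@En.n l207 (nat_lit 6758) (nat_lit 4) (nat_lit 10))
    (@En.i (nat_lit 6743) (nat_lit 5) (nat_lit 6))
    (@En.n l3978 (nat_lit 6785) (nat_lit 6) (nat_lit 7))
    (@En.n l3979 (nat_lit 6348) (nat_lit 8) (nat_lit 12))
    (@En.n l7 (nat_lit 6759) (nat_lit 8) (nat_lit 2))
    (@En.n l3980 (nat_lit 6348) (nat_lit 10) (nat_lit 9))
    (@En.n l3977 (nat_lit 4559) (nat_lit 11) (nat_lit 14))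
    (@En.n l3981 (nat_lit 5193) (nat_lit 12) (nat_lit 10))
    (@En.n l3982 (nat_lit 6821) (nat_lit 3) (nat_lit 4))
    (@En.n l3976 (nat_lit 2451) (nat_lit 9) (nat_lit 9))
    (@En.i (nat_lit 1180) (nat_lit 5) (nat_lit 6))
    (@En.n l3 (nat_lit 6759) (nat_lit 15) (nat_lit 2))))
  (@Cl.mk (nat_lit 0x20006000d000900050003000a000e000b00020007000a00060005000e000b) (nat_lit 0x25008600050080) (nat_lit 16) Lb.e (@T16.mk En
    (@En.n l7543 (nat_lit 6763) (nat_lit 10) (nat_lit 11))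
    (@En.n l763 (nat_lit 11630) (nat_lit 11) (nat_lit 14))
    (@En.i (nat_lit 4005) (nat_lit 2) (nat_lit 5))
    (@En.n l300 (nat_lit 8928) (nat_lit 13) (nat_lit 6))
    (@En.n l850 (nat_lit 3522) (nat_lit 8) (nat_lit 10))
    (@En.n l7544 (nat_lit 9607) (nat_lit 5) (nat_lit 7))
    (@En.n l50 (nat_lit 6760) (nat_lit 6) (nat_lit 2))
    (@En.n l7 (nat_lit 6764) (nat_lit 8) (nat_lit 11))
    (@En.n l5841 (nat_lit 6758) (nat_lit 9) (nat_lit 14))
    (@En.n l4337 (nat_lit 11029) (nat_lit 2) (nat_lit 10))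
    (@En.n l11 (nat_lit 6762) (nat_lit 3) (nat_lit 3))
    (@En.n l850 (nat_lit 2409) (nat_lit 4) (nat_lit 5))
    (@En.i (nat_lit 6761) (nat_lit 13) (nat_lit 9))
    (@En.n l2302 (nat_lit 3683) (nat_lit 7) (nat_lit 13))
    (@En.i (nat_lit 1092) (nat_lit 7) (nat_lit 6))
    (@En.n l3 (nat_lit 6760) (nat_lit 15) (nat_lit 2))))
  (@Cl.mk (nat_lit 0x2000600090004000a0009000e000a000200070006000a00070006000e000c) (nat_lit 0x4087500006009a) (nat_lit 16) Lb.e (@T16.mk En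
    (@En.n l6388 (nat_lit 6575) (nat_lit 9) (nat_lit 12))
    (@En.n l763 (nat_lit 11195) (nat_lit 10) (nat_lit 14))
    (@En.i (nat_lit 4007) (nat_lit 2) (nat_lit 6))
    (@En.n l300 (nat_lit 8934) (nat_lit 12) (nat_lit 7))
    (@En.n l207 (nat_lit 6760) (nat_lit 4) (nat_lit 10))
    (@En.i (nat_lit 6762) (nat_lit 14) (nat_lit 6))
    (@En.n l6389 (nat_lit 9608) (nat_lit 6) (nat_lit 7))
    (@En.n l50 (nat_lit 6761) (nat_lit 7) (nat_lit 2))
    (@En.n l7 (nat_lit 6765) (nat_lit 9) (nat_lit 10))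
    (@En.n l5841 (nat_lit 6759) (nat_lit 10) (nat_lit 14))
    (@En.n l6389 (nat_lit 11028) (nat_lit 2) (nat_lit 9))
    (@En.n l6390 (nat_lit 5307) (nat_lit 3) (nat_lit 10))
    (@En.n l6391 (nat_lit 6573) (nat_lit 4) (nat_lit 4))
    (@En.n l6389 (nat_lit 3101) (nat_lit 5) (nat_lit 9))
    (@En.i (nat_lit 1093) (nat_lit 6) (nat_lit 6))
    (@En.n l3 (nat_lit 6761) (nat_lit 15) (nat_lit 2))))
  (@Cl.mk (nat_lit 0x20006000a00060005000e000c00020006000d0004000a0003000a000e000b) (nat_lit 0x5008a003060860) (nat_lit 16) Lb.e (@T16.mk En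
    (@En.n l7 (nat_lit 6766) (nat_lit 8) (nat_lit 11))
    (@En.n l5841 (nat_lit 6743) (nat_lit 9) (nat_lit 14))
    (@En.i (nat_lit 5586) (nat_lit 2) (nat_lit 10))
    (@En.i (nat_lit 6760) (nat_lit 10) (nat_lit 3))
    (@En.n l9435 (nat_lit 4822) (nat_lit 4) (nat_lit 10))
    (@En.n l117 (nat_lit 6768) (nat_lit 5) (nat_lit 4))
    (@En.n l2302 (nat_lit 3681) (nat_lit 7) (nat_lit 13))
    (@En.i (nat_lit 1090) (nat_lit 7) (nat_lit 6))
    (@En.n l3 (nat_lit 6762) (nat_lit 8) (nat_lit 2))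
    (@En.n l4172 (nat_lit 6767) (nat_lit 10) (nat_lit 12))
    (@En.n l763 (nat_lit 11631) (nat_lit 11) (nat_lit 14))
    (@En.i (nat_lit 4004) (nat_lit 2) (nat_lit 5))
    (@En.n l300 (nat_lit 8869) (nat_lit 13) (nat_lit 6))
    (@En.n l875 (nat_lit 3523) (nat_lit 4) (nat_lit 10))
    (@En.n l875 (nat_lit 8127) (nat_lit 5) (nat_lit 6))
    (@En.n l50 (nat_lit 6762) (nat_lit 15) (nat_lit 2))))
  (@Cl.mk (nat_lit 0x20008000b00060005000b000b0005000c0008000500050004000a000e000b) (nat_lit 0x420096064000071) (nat_lit 16) Lb.e (@T16.mk En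
    (@En.n l18200 (nat_lit 5883) (nat_lit 13) (nat_lit 11))
    (@En.i (nat_lit 6347) (nat_lit 1) (nat_lit 14))
    (@En.n l9337 (nat_lit 11031) (nat_lit 2) (nat_lit 10))
    (@En.n l18201 (nat_lit 4439) (nat_lit 3) (nat_lit 4))
    (@En.n l18202 (nat_lit 6760) (nat_lit 11) (nat_lit 5))
    (@En.i (nat_lit 2416) (nat_lit 5) (nat_lit 5))
    (@En.n l9339 (nat_lit 6575) (nat_lit 6) (nat_lit 8))
    (@En.n l18203 (nat_lit 3692) (nat_lit 8) (nat_lit 12))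
    (@En.n l18204 (nat_lit 6570) (nat_lit 8) (nat_lit 5))
    (@En.n l18205 (nat_lit 7459) (nat_lit 5) (nat_lit 11))
    (@En.i (nat_lit 9467) (nat_lit 11) (nat_lit 11))
    (@En.n l18206 (nat_lit 7366) (nat_lit 11) (nat_lit 5))
    (@En.n l18207 (nat_lit 8933) (nat_lit 13) (nat_lit 6))
    (@En.n l18208 (nat_lit 3608) (nat_lit 7) (nat_lit 11))
    (@En.n l18209 (nat_lit 9457) (nat_lit 2) (nat_lit 8))
    (@En.n l18 (nat_lit 6763) (nat_lit 15) (nat_lit 2))))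
  (@Cl.mk (nat_lit 0x20007000d000a00050003000b000b000b00060009000500050005000e000b) (nat_lit 0x250089402000c5) (nat_lit 16) Lb.e (@T16.mk En
    (@En.n l6447 (nat_lit 5883) (nat_lit 6) (nat_lit 11))
    (@En.n l3738 (nat_lit 8479) (nat_lit 1) (nat_lit 14))
    (@En.n l601 (nat_lit 6760) (nat_lit 2) (nat_lit 5))
    (@En.n l77 (nat_lit 7586) (nat_lit 3) (nat_lit 5))
    (@En.n l6064 (nat_lit 8268) (nat_lit 4) (nat_lit 5))
    (@En.n l6517 (nat_lit 3520) (nat_lit 9) (nat_lit 9))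
    (@En.n l6518 (nat_lit 7006) (nat_lit 6) (nat_lit 6))
    (@En.n l397 (nat_lit 7977) (nat_lit 8) (nat_lit 11))
    (@En.n l6519 (nat_lit 6769) (nat_lit 5) (nat_lit 11))
    (@En.n l6520 (nat_lit 7986) (nat_lit 10) (nat_lit 11))
    (@En.n l11 (nat_lit 6766) (nat_lit 10) (nat_lit 3))
    (@En.n l6521 (nat_lit 2411) (nat_lit 0) (nat_lit 5))
    (@En.i (nat_lit 6765) (nat_lit 13) (nat_lit 10))
    (@En.n l6522 (nat_lit 2652) (nat_lit 14) (nat_lit 13))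
    (@En.i (nat_lit 982) (nat_lit 3) (nat_lit 7))
    (@En.n l3 (nat_lit 6764) (nat_lit 15) (nat_lit 2))))
  (@Cl.mk (nat_lit 0x20007000a0004000b000a000a000a000600050009000600060006000e000c) (nat_lit 0x40978400300096) (nat_lit 16) Lb.e (@T16.mk En
    (@En.n l15694 (nat_lit 5884) (nat_lit 3) (nat_lit 12))
    (@En.n l9565 (nat_lit 9261) (nat_lit 1) (nat_lit 14))
    (@En.n l601 (nat_lit 6761) (nat_lit 2) (nat_lit 6))
    (@En.n l77 (nat_lit 7587) (nat_lit 3) (nat_lit 6))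
    (@En.n l6064 (nat_lit 7653) (nat_lit 4) (nat_lit 6))
    (@En.n l207 (nat_lit 6764) (nat_lit 5) (nat_lit 9))
    (@En.i (nat_lit 6766) (nat_lit 6) (nat_lit 5))
    (@En.n l15695 (nat_lit 7004) (nat_lit 7) (nat_lit 6))
    (@En.n l15696 (nat_lit 7976) (nat_lit 9) (nat_lit 10))
    (@En.n l6519 (nat_lit 6770) (nat_lit 6) (nat_lit 10))
    (@En.n l15697 (nat_lit 7106) (nat_lit 11) (nat_lit 10))
    (@En.n l15698 (nat_lit 5709) (nat_lit 12) (nat_lit 11))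
    (@En.n l15699 (nat_lit 7499) (nat_lit 13) (nat_lit 4))
    (@En.n l15697 (nat_lit 3096) (nat_lit 8) (nat_lit 10))
    (@En.i (nat_lit 984) (nat_lit 1) (nat_lit 7))
    (@En.n l3 (nat_lit 6765) (nat_lit 15) (nat_lit 2))))
  (@Cl.mk (nat_lit 0x20007000d0004000b0003000b000b000b00050009000500050005000e000c) (nat_lit 0x304089204000ca) (nat_lit 16) Lb.e (@T16.mk En
    (@En.n l6517 (nat_lit 5888) (nat_lit 3) (nat_lit 12))
    (@En.n l8134 (nat_lit 8442) (nat_lit 1) (nat_lit 14))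
    (@En.n l601 (nat_lit 6762) (nat_lit 11) (nat_lit 5))
    (@En.n l77 (nat_lit 7585) (nat_lit 3) (nat_lit 5))
    (@En.n l6064 (nat_lit 8865) (nat_lit 4) (nat_lit 5))
    (@En.n l6517 (nat_lit 3521) (nat_lit 5) (nat_lit 9))
    (@En.n l14001 (nat_lit 7095) (nat_lit 6) (nat_lit 5))
    (@En.n l397 (nat_lit 7978) (nat_lit 8) (nat_lit 11))
    (@En.n l6519 (nat_lit 6771) (nat_lit 5) (nat_lit 11))
    (@En.i (nat_lit 5595) (nat_lit 10) (nat_lit 11))
    (@En.i (nat_lit 6764) (nat_lit 10) (nat_lit 3))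
    (@En.n l14002 (nat_lit 5247) (nat_lit 12) (nat_lit 11))
    (@En.n l117 (nat_lit 6300) (nat_lit 13) (nat_lit 4))
    (@En.n l6522 (nat_lit 2651) (nat_lit 14) (nat_lit 13))
    (@En.i (nat_lit 1049) (nat_lit 3) (nat_lit 7))
    (@En.n l3 (nat_lit 6766) (nat_lit 15) (nat_lit 2))))
  (@Cl.mk (nat_lit 0x20006000b00060005000c000c0005000c00040004000a0004000a000e000b) (nat_lit 0x2009a060060271) (nat_lit 16) Lb.e (@T16.mk En
    (@En.n l27239 (nat_lit 5888) (nat_lit 10) (nat_lit 11))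
    (@En.n l19310 (nat_lit 6742) (nat_lit 1) (nat_lit 14))
    (@En.n l27240 (nat_lit 5589) (nat_lit 2) (nat_lit 10))
    (@En.n l24525 (nat_lit 6763) (nat_lit 3) (nat_lit 4))
    (@En.n l899 (nat_lit 5295) (nat_lit 4) (nat_lit 10))
    (@En.n l24527 (nat_lit 6762) (nat_lit 5) (nat_lit 4))
    (@En.n l27241 (nat_lit 4446) (nat_lit 6) (nat_lit 4))
    (@En.n l27242 (nat_lit 3682) (nat_lit 8) (nat_lit 12))
    (@En.n l27243 (nat_lit 6568) (nat_lit 8) (nat_lit 5))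
    (@En.n l24532 (nat_lit 7461) (nat_lit 10) (nat_lit 12))
    (@En.n l27240 (nat_lit 9470) (nat_lit 11) (nat_lit 12))
    (@En.i (nat_lit 7267) (nat_lit 11) (nat_lit 5))
    (@En.n l27244 (nat_lit 8937) (nat_lit 13) (nat_lit 6))
    (@En.n l27245 (nat_lit 3581) (nat_lit 14) (nat_lit 11))
    (@En.n l345 (nat_lit 8121) (nat_lit 13) (nat_lit 6))
    (@En.n l27246 (nat_lit 6767) (nat_lit 15) (nat_lit 2))))
noncomputable def a423 : T16 Cl := @T16.mk Cl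
  (@Cl.mk (nat_lit 0x20006000900060005000d000c000b000300070004000a0005000a000e000b) (nat_lit 0x5009a100060061) (nat_lit 16) Lb.e (@T16.mk En
    (@En.n l7 (nat_lit 6300) (nat_lit 9) (nat_lit 11))
    (@En.n l5841 (nat_lit 6737) (nat_lit 1) (nat_lit 14))
    (@En.n l27237 (nat_lit 11929) (nat_lit 2) (nat_lit 10))
    (@En.i (nat_lit 2408) (nat_lit 3) (nat_lit 5))
    (@En.n l3819 (nat_lit 6568) (nat_lit 4) (nat_lit 10))
    (@En.n l4172 (nat_lit 6767) (nat_lit 5) (nat_lit 4))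
    (@En.i (nat_lit 1089) (nat_lit 6) (nat_lit 7))
    (@En.n l12762 (nat_lit 4447) (nat_lit 7) (nat_lit 3))
    (@En.n l619 (nat_lit 6760) (nat_lit 0) (nat_lit 11))
    (@En.n l22939 (nat_lit 4446) (nat_lit 10) (nat_lit 12))
    (@En.n l763 (nat_lit 9362) (nat_lit 11) (nat_lit 13))
    (@En.i (nat_lit 7230) (nat_lit 11) (nat_lit 5))
    (@En.n l300 (nat_lit 8876) (nat_lit 13) (nat_lit 6))
    (@En.n l4925 (nat_lit 2285) (nat_lit 9) (nat_lit 9))
    (@En.i (nat_lit 6222) (nat_lit 6) (nat_lit 6))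
    (@En.n l50 (nat_lit 6768) (nat_lit 15) (nat_lit 2))))
  (@Cl.mk (nat_lit 0x20006000e000b00020008000d000b00050003000b000a00050008000e0005) (nat_lit 0x89022600810120) (nat_lit 16) Lb.e (@T16.mk En
    (@En.n l5784 (nat_lit 6764) (nat_lit 4) (nat_lit 5))
    (@En.i (nat_lit 8580) (nat_lit 6) (nat_lit 14))
    (@En.n l766 (nat_lit 2565) (nat_lit 2) (nat_lit 8))
    (@En.n l11179 (nat_lit 7005) (nat_lit 7) (nat_lit 5))
    (@En.n l829 (nat_lit 6320) (nat_lit 4) (nat_lit 10))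
    (@En.n l1974 (nat_lit 7097) (nat_lit 10) (nat_lit 11))
    (@En.n l11 (nat_lit 6771) (nat_lit 6) (nat_lit 3))
    (@En.n l10498 (nat_lit 7531) (nat_lit 7) (nat_lit 5))
    (@En.i (nat_lit 6770) (nat_lit 9) (nat_lit 11))
    (@En.n l1722 (nat_lit 3080) (nat_lit 10) (nat_lit 13))
    (@En.n l829 (nat_lit 1032) (nat_lit 11) (nat_lit 8))
    (@En.n l3 (nat_lit 6769) (nat_lit 11) (nat_lit 2))
    (@En.n l766 (nat_lit 6340) (nat_lit 13) (nat_lit 11))
    (@En.n l2114 (nat_lit 9293) (nat_lit 1) (nat_lit 14))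
    (@En.n l1959 (nat_lit 6349) (nat_lit 2) (nat_lit 6))
    (@En.n l50 (nat_lit 6769) (nat_lit 15) (nat_lit 2))))
  (@Cl.mk (nat_lit 0x20007000e000c00020008000b0004000c000a0009000500040008000e0006) (nat_lit 0x9a025097300230) (nat_lit 16) Lb.e (@T16.mk En
    (@En.n l5784 (nat_lit 6765) (nat_lit 4) (nat_lit 6))
    (@En.i (nat_lit 6418) (nat_lit 6) (nat_lit 14))
    (@En.n l207 (nat_lit 6769) (nat_lit 2) (nat_lit 8))
    (@En.i (nat_lit 6771) (nat_lit 3) (nat_lit 4))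
    (@En.n l10461 (nat_lit 7002) (nat_lit 8) (nat_lit 5))
    (@En.n l10462 (nat_lit 6321) (nat_lit 5) (nat_lit 9))
    (@En.n l10463 (nat_lit 7096) (nat_lit 11) (nat_lit 10))
    (@En.n l10464 (nat_lit 5132) (nat_lit 12) (nat_lit 12))
    (@En.n l10465 (nat_lit 7498) (nat_lit 8) (nat_lit 4))
    (@En.n l2730 (nat_lit 3287) (nat_lit 10) (nat_lit 11))
    (@En.n l10462 (nat_lit 987) (nat_lit 11) (nat_lit 8))
    (@En.n l3 (nat_lit 6770) (nat_lit 11) (nat_lit 2))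
    (@En.n l10466 (nat_lit 6341) (nat_lit 13) (nat_lit 12))
    (@En.n l10467 (nat_lit 9294) (nat_lit 1) (nat_lit 14))
    (@En.n l10468 (nat_lit 6348) (nat_lit 2) (nat_lit 7))
    (@En.n l50 (nat_lit 6770) (nat_lit 15) (nat_lit 2))))
  (@Cl.mk (nat_lit 0x20006000e000c00020008000d0004000c0003000b000a00040008000e0005) (nat_lit 0x81023060810120) (nat_lit 16) Lb.e (@T16.mk En
    (@En.n l5784 (nat_lit 6766) (nat_lit 4) (nat_lit 5))
    (@En.i (nat_lit 8579) (nat_lit 6) (nat_lit 14))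
    (@En.n l766 (nat_lit 2566) (nat_lit 2) (nat_lit 8))
    (@En.n l11179 (nat_lit 7094) (nat_lit 7) (nat_lit 4))
    (@En.n l829 (nat_lit 6319) (nat_lit 4) (nat_lit 10))
    (@En.n l15179 (nat_lit 10247) (nat_lit 10) (nat_lit 11))
    (@En.i (nat_lit 6769) (nat_lit 6) (nat_lit 3))
    (@En.n l1253 (nat_lit 5125) (nat_lit 8) (nat_lit 12))
    (@En.n l17465 (nat_lit 6305) (nat_lit 8) (nat_lit 4))
    (@En.n l1722 (nat_lit 3079) (nat_lit 10) (nat_lit 13))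
    (@En.n l829 (nat_lit 1047) (nat_lit 11) (nat_lit 8))
    (@En.n l3 (nat_lit 6771) (nat_lit 11) (nat_lit 2))
    (@En.n l766 (nat_lit 6308) (nat_lit 13) (nat_lit 12))
    (@En.n l2114 (nat_lit 9292) (nat_lit 1) (nat_lit 14))
    (@En.n l1959 (nat_lit 6749) (nat_lit 2) (nat_lit 6))
    (@En.n l50 (nat_lit 6771) (nat_lit 15) (nat_lit 2))))
  (@Cl.mk (nat_lit 0x2000d000a000800030006000c000a0006000d0004000800030006000e000a) (nat_lit 0x5520084030100c6) (nat_lit 16) Lb.e (@T16.mk En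
    (@En.n l7837 (nat_lit 6617) (nat_lit 4) (nat_lit 10))
    (@En.n l420 (nat_lit 11013) (nat_lit 1) (nat_lit 14))
    (@En.n l1685 (nat_lit 6612) (nat_lit 12) (nat_lit 6))
    (@En.n l28 (nat_lit 6773) (nat_lit 3) (nat_lit 3))
    (@En.i (nat_lit 1291) (nat_lit 0) (nat_lit 8))
    (@En.i (nat_lit 6774) (nat_lit 5) (nat_lit 4))
    (@En.n l7838 (nat_lit 6738) (nat_lit 7) (nat_lit 13))
    (@En.n l4388 (nat_lit 6827) (nat_lit 7) (nat_lit 6))
    (@En.i (nat_lit 5397) (nat_lit 9) (nat_lit 10))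
    (@En.n l5194 (nat_lit 9044) (nat_lit 10) (nat_lit 12))
    (@En.n l7839 (nat_lit 7239) (nat_lit 12) (nat_lit 6))
    (@En.n l7840 (nat_lit 4452) (nat_lit 11) (nat_lit 3))
    (@En.n l97 (nat_lit 2061) (nat_lit 0) (nat_lit 8))
    (@En.n l1236 (nat_lit 9831) (nat_lit 14) (nat_lit 10))
    (@En.n l7841 (nat_lit 6617) (nat_lit 2) (nat_lit 13))
    (@En.n l18 (nat_lit 6772) (nat_lit 15) (nat_lit 2))))
  (@Cl.mk (nat_lit 0x2000d000a000900030006000b000a0006000d0007000500030006000e000a) (nat_lit 0x262000302000026) (nat_lit 16) Lb.e (@T16.mk En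
    (@En.n l5 (nat_lit 6684) (nat_lit 4) (nat_lit 10))
    (@En.n l420 (nat_lit 11591) (nat_lit 1) (nat_lit 14))
    (@En.n l7 (nat_lit 4974) (nat_lit 12) (nat_lit 6))
    (@En.i (nat_lit 6772) (nat_lit 3) (nat_lit 3))
    (@En.n l4850 (nat_lit 3462) (nat_lit 0) (nat_lit 5))
    (@En.i (nat_lit 6696) (nat_lit 5) (nat_lit 7))
    (@En.i (nat_lit 6740) (nat_lit 7) (nat_lit 13))
    (@En.n l8 (nat_lit 6829) (nat_lit 7) (nat_lit 6))
    (@En.i (nat_lit 6688) (nat_lit 9) (nat_lit 10))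
    (@En.n l644 (nat_lit 9063) (nat_lit 10) (nat_lit 11))
    (@En.i (nat_lit 7375) (nat_lit 12) (nat_lit 6))
    (@En.n l7840 (nat_lit 4454) (nat_lit 11) (nat_lit 3))
    (@En.n l619 (nat_lit 3365) (nat_lit 0) (nat_lit 9))
    (@En.n l3866 (nat_lit 9829) (nat_lit 14) (nat_lit 10))
    (@En.i (nat_lit 6684) (nat_lit 2) (nat_lit 13))
    (@En.n l18 (nat_lit 6773) (nat_lit 15) (nat_lit 2))))
  (@Cl.mk (nat_lit 0x2000d0009000800030006000c000b000b00070004000800050005000e000a) (nat_lit 0x1750081300100c5) (nat_lit 16) Lb.e (@T16.mk En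
    (@En.n l7969 (nat_lit 6711) (nat_lit 4) (nat_lit 10))
    (@En.n l420 (nat_lit 10351) (nat_lit 1) (nat_lit 14))
    (@En.n l7970 (nat_lit 6776) (nat_lit 11) (nat_lit 5))
    (@En.n l4527 (nat_lit 6347) (nat_lit 3) (nat_lit 5))
    (@En.n l7971 (nat_lit 1326) (nat_lit 4) (nat_lit 8))
    (@En.n l4527 (nat_lit 6777) (nat_lit 5) (nat_lit 4))
    (@En.n l4388 (nat_lit 6821) (nat_lit 6) (nat_lit 7))
    (@En.n l77 (nat_lit 6710) (nat_lit 8) (nat_lit 11))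
    (@En.i (nat_lit 6773) (nat_lit 9) (nat_lit 11))
    (@En.n l4527 (nat_lit 9014) (nat_lit 10) (nat_lit 12))
    (@En.i (nat_lit 4604) (nat_lit 12) (nat_lit 6))
    (@En.n l7840 (nat_lit 6775) (nat_lit 11) (nat_lit 3))
    (@En.n l619 (nat_lit 2481) (nat_lit 0) (nat_lit 8))
    (@En.n l3866 (nat_lit 9261) (nat_lit 14) (nat_lit 9))
    (@En.n l7972 (nat_lit 6711) (nat_lit 2) (nat_lit 13))
    (@En.n l18 (nat_lit 6774) (nat_lit 15) (nat_lit 2))))
  (@Cl.mk (nat_lit 0x2000d0007000a00030006000c000b000b00060004000900050005000e000a) (nat_lit 0x205008150060045) (nat_lit 16) Lb.e (@T16.mk En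
    (@En.n l5 (nat_lit 6714) (nat_lit 4) (nat_lit 10))
    (@En.n l1827 (nat_lit 10345) (nat_lit 1) (nat_lit 14))
    (@En.n l19152 (nat_lit 6780) (nat_lit 11) (nat_lit 5))
    (@En.n l4958 (nat_lit 6786) (nat_lit 3) (nat_lit 5))
    (@En.n l19153 (nat_lit 6783) (nat_lit 4) (nat_lit 9))
    (@En.n l4958 (nat_lit 6658) (nat_lit 5) (nat_lit 4))
    (@En.n l4730 (nat_lit 2849) (nat_lit 6) (nat_lit 6))
    (@En.n l4959 (nat_lit 6715) (nat_lit 8) (nat_lit 11))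
    (@En.i (nat_lit 4454) (nat_lit 9) (nat_lit 11))
    (@En.n l19154 (nat_lit 9042) (nat_lit 10) (nat_lit 12))
    (@En.n l1827 (nat_lit 6101) (nat_lit 12) (nat_lit 6))
    (@En.n l12597 (nat_lit 6774) (nat_lit 11) (nat_lit 3))
    (@En.i (nat_lit 3020) (nat_lit 0) (nat_lit 10))
    (@En.n l19155 (nat_lit 8222) (nat_lit 14) (nat_lit 7))
    (@En.i (nat_lit 6714) (nat_lit 2) (nat_lit 13))
    (@En.n l18 (nat_lit 6775) (nat_lit 15) (nat_lit 2))))
  (@Cl.mk (nat_lit 0x20008000500090005000e000a0002000d0008000700030006000b000e000b) (nat_lit 0x401071026000922) (nat_lit 16) Lb.e (@T16.mk En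
    (@En.n l3365 (nat_lit 6774) (nat_lit 8) (nat_lit 11))
    (@En.n l3366 (nat_lit 4975) (nat_lit 4) (nat_lit 14))
    (@En.n l3367 (nat_lit 8087) (nat_lit 2) (nat_lit 11))
    (@En.n l3368 (nat_lit 4611) (nat_lit 3) (nat_lit 6))
    (@En.n l3369 (nat_lit 6780) (nat_lit 4) (nat_lit 3))
    (@En.n l3366 (nat_lit 2483) (nat_lit 0) (nat_lit 7))
    (@En.n l3370 (nat_lit 9259) (nat_lit 14) (nat_lit 8))
    (@En.n l3371 (nat_lit 2536) (nat_lit 8) (nat_lit 13))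
    (@En.n l7 (nat_lit 6776) (nat_lit 8) (nat_lit 2))
    (@En.n l3372 (nat_lit 2536) (nat_lit 10) (nat_lit 10))
    (@En.n l3373 (nat_lit 11333) (nat_lit 11) (nat_lit 14))
    (@En.n l3374 (nat_lit 5390) (nat_lit 2) (nat_lit 5))
    (@En.i (nat_lit 1329) (nat_lit 13) (nat_lit 9))
    (@En.n l3375 (nat_lit 6778) (nat_lit 14) (nat_lit 5))
    (@En.n l3376 (nat_lit 6779) (nat_lit 5) (nat_lit 8))
    (@En.n l67 (nat_lit 6776) (nat_lit 15) (nat_lit 2))))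
  (@Cl.mk (nat_lit 0x2000d000b000800030006000c0005000c000c0004000800040004000e000a) (nat_lit 0x1750080460100c1) (nat_lit 16) Lb.e (@T16.mk En
    (@En.n l2822 (nat_lit 6659) (nat_lit 4) (nat_lit 10))
    (@En.n l1554 (nat_lit 11012) (nat_lit 1) (nat_lit 14))
    (@En.n l237 (nat_lit 6778) (nat_lit 12) (nat_lit 4))
    (@En.i (nat_lit 6689) (nat_lit 3) (nat_lit 4))
    (@En.i (nat_lit 1112) (nat_lit 4) (nat_lit 8))
    (@En.n l55 (nat_lit 6772) (nat_lit 5) (nat_lit 4))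
    (@En.n l2823 (nat_lit 6856) (nat_lit 7) (nat_lit 12))
    (@En.n l2815 (nat_lit 6737) (nat_lit 8) (nat_lit 12))
    (@En.i (nat_lit 1383) (nat_lit 8) (nat_lit 5))
    (@En.i (nat_lit 9040) (nat_lit 10) (nat_lit 12))
    (@En.n l2817 (nat_lit 7381) (nat_lit 12) (nat_lit 6))
    (@En.n l1455 (nat_lit 6658) (nat_lit 11) (nat_lit 3))
    (@En.n l97 (nat_lit 2476) (nat_lit 0) (nat_lit 8))
    (@En.n l2824 (nat_lit 6862) (nat_lit 14) (nat_lit 11))
    (@En.n l2825 (nat_lit 6659) (nat_lit 2) (nat_lit 13))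
    (@En.n l18 (nat_lit 6777) (nat_lit 15) (nat_lit 2))))
  (@Cl.mk (nat_lit 0x2000500090004000e000a0002000d000b000700030006000b0005000e000c) (nat_lit 0x30210250009035) (nat_lit 16) Lb.e (@T16.mk En
    (@En.n l77 (nat_lit 6777) (nat_lit 7) (nat_lit 12))
    (@En.n l1233 (nat_lit 6776) (nat_lit 1) (nat_lit 14))
    (@En.n l517 (nat_lit 1281) (nat_lit 2) (nat_lit 5))
    (@En.n l1234 (nat_lit 8085) (nat_lit 3) (nat_lit 11))
    (@En.n l149 (nat_lit 7387) (nat_lit 4) (nat_lit 6))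
    (@En.n l1235 (nat_lit 6781) (nat_lit 5) (nat_lit 3))
    (@En.n l97 (nat_lit 2478) (nat_lit 6) (nat_lit 7))
    (@En.n l1236 (nat_lit 7351) (nat_lit 8) (nat_lit 11))
    (@En.n l1237 (nat_lit 2537) (nat_lit 9) (nat_lit 13))
    (@En.n l18 (nat_lit 6778) (nat_lit 9) (nat_lit 2))
    (@En.n l1238 (nat_lit 2537) (nat_lit 11) (nat_lit 10))
    (@En.n l1119 (nat_lit 11334) (nat_lit 12) (nat_lit 14))
    (@En.i (nat_lit 5397) (nat_lit 2) (nat_lit 4))
    (@En.n l1239 (nat_lit 1592) (nat_lit 14) (nat_lit 9))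
    (@En.n l494 (nat_lit 6695) (nat_lit 13) (nat_lit 5))
    (@En.n l28 (nat_lit 6778) (nat_lit 15) (nat_lit 2))))
  (@Cl.mk (nat_lit 0x2000c0008000b000800040007000c0005000c0008000400080004000e0009) (nat_lit 0x46600a00301027) (nat_lit 16) Lb.e (@T16.mk En
    (@En.n l9622 (nat_lit 6814) (nat_lit 5) (nat_lit 9))
    (@En.n l3955 (nat_lit 11425) (nat_lit 1) (nat_lit 14))
    (@En.n l129 (nat_lit 5389) (nat_lit 2) (nat_lit 4))
    (@En.n l9623 (nat_lit 1181) (nat_lit 3) (nat_lit 8))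
    (@En.i (nat_lit 6691) (nat_lit 4) (nat_lit 4))
    (@En.n l9624 (nat_lit 6820) (nat_lit 5) (nat_lit 8))
    (@En.n l4761 (nat_lit 6821) (nat_lit 7) (nat_lit 12))
    (@En.n l9625 (nat_lit 5287) (nat_lit 7) (nat_lit 5))
    (@En.n l4765 (nat_lit 9278) (nat_lit 9) (nat_lit 12))
    (@En.n l9626 (nat_lit 7281) (nat_lit 11) (nat_lit 7))
    (@En.n l4729 (nat_lit 5104) (nat_lit 10) (nat_lit 4))
    (@En.n l1452 (nat_lit 6774) (nat_lit 12) (nat_lit 8))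
    (@En.n l129 (nat_lit 6778) (nat_lit 7) (nat_lit 11))
    (@En.n l4773 (nat_lit 8474) (nat_lit 14) (nat_lit 8))
    (@En.n l9341 (nat_lit 6814) (nat_lit 3) (nat_lit 12))
    (@En.n l18 (nat_lit 6779) (nat_lit 15) (nat_lit 2))))
  (@Cl.mk (nat_lit 0x200070005000a0005000e000a0002000d0006000900030006000b000e000b) (nat_lit 0x6071020500922) (nat_lit 16) Lb.e (@T16.mk En
    (@En.n l5218 (nat_lit 6775) (nat_lit 8) (nat_lit 11))
    (@En.n l5218 (nat_lit 4977) (nat_lit 4) (nat_lit 14))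
    (@En.i (nat_lit 8080) (nat_lit 2) (nat_lit 11))
    (@En.n l167 (nat_lit 5995) (nat_lit 3) (nat_lit 6))
    (@En.n l337 (nat_lit 6776) (nat_lit 4) (nat_lit 3))
    (@En.n l5218 (nat_lit 3022) (nat_lit 0) (nat_lit 9))
    (@En.n l75 (nat_lit 6785) (nat_lit 14) (nat_lit 6))
    (@En.n l5218 (nat_lit 2540) (nat_lit 8) (nat_lit 13))
    (@En.n l28 (nat_lit 6780) (nat_lit 8) (nat_lit 2))
    (@En.n l8454 (nat_lit 2540) (nat_lit 10) (nat_lit 10))
    (@En.n l9620 (nat_lit 11331) (nat_lit 11) (nat_lit 14))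
    (@En.n l9621 (nat_lit 5972) (nat_lit 2) (nat_lit 5))
    (@En.n l2399 (nat_lit 6782) (nat_lit 13) (nat_lit 10))
    (@En.n l17 (nat_lit 6781) (nat_lit 14) (nat_lit 5))
    (@En.i (nat_lit 5104) (nat_lit 5) (nat_lit 7))
    (@En.n l3 (nat_lit 6780) (nat_lit 15) (nat_lit 2))))
  (@Cl.mk (nat_lit 0x20005000a0004000e000a0002000d0006000c00030006000b0004000e000c) (nat_lit 0x60310203008033) (nat_lit 16) Lb.e (@T16.mk En
    (@En.n l4072 (nat_lit 6658) (nat_lit 7) (nat_lit 12))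
    (@En.i (nat_lit 6780) (nat_lit 1) (nat_lit 14))
    (@En.i (nat_lit 6782) (nat_lit 2) (nat_lit 4))
    (@En.i (nat_lit 8079) (nat_lit 3) (nat_lit 11))
    (@En.n l167 (nat_lit 5996) (nat_lit 4) (nat_lit 6))
    (@En.n l339 (nat_lit 6778) (nat_lit 5) (nat_lit 3))
    (@En.n l170 (nat_lit 2640) (nat_lit 0) (nat_lit 12))
    (@En.n l803 (nat_lit 7648) (nat_lit 7) (nat_lit 6))
    (@En.n l601 (nat_lit 2541) (nat_lit 9) (nat_lit 13))
    (@En.n l28 (nat_lit 6781) (nat_lit 9) (nat_lit 2))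
    (@En.n l780 (nat_lit 2541) (nat_lit 11) (nat_lit 10))
    (@En.i (nat_lit 11330) (nat_lit 12) (nat_lit 14))
    (@En.n l4073 (nat_lit 5970) (nat_lit 2) (nat_lit 4))
    (@En.n l1544 (nat_lit 5138) (nat_lit 14) (nat_lit 10))
    (@En.n l170 (nat_lit 6956) (nat_lit 13) (nat_lit 5))
    (@En.n l3 (nat_lit 6781) (nat_lit 15) (nat_lit 2))))
  (@Cl.mk (nat_lit 0x20007000a0004000e00090002000c0006000c0009000400070004000e000c) (nat_lit 0x50910205600082) (nat_lit 16) Lb.e (@T16.mk En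
    (@En.n l4072 (nat_lit 6783) (nat_lit 7) (nat_lit 12))
    (@En.n l5218 (nat_lit 4880) (nat_lit 1) (nat_lit 14))
    (@En.n l4315 (nat_lit 7351) (nat_lit 2) (nat_lit 4))
    (@En.n l5219 (nat_lit 5997) (nat_lit 3) (nat_lit 7))
    (@En.n l5220 (nat_lit 1329) (nat_lit 4) (nat_lit 4))
    (@En.n l61 (nat_lit 6780) (nat_lit 5) (nat_lit 9))
    (@En.n l4315 (nat_lit 1024) (nat_lit 7) (nat_lit 12))
    (@En.n l5221 (nat_lit 7652) (nat_lit 14) (nat_lit 6))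
    (@En.n l5222 (nat_lit 2543) (nat_lit 9) (nat_lit 12))
    (@En.n l28 (nat_lit 6782) (nat_lit 9) (nat_lit 2))
    (@En.n l5223 (nat_lit 2543) (nat_lit 11) (nat_lit 9))
    (@En.n l5224 (nat_lit 11332) (nat_lit 12) (nat_lit 14))
    (@En.n l4315 (nat_lit 6803) (nat_lit 2) (nat_lit 4))
    (@En.n l5225 (nat_lit 5380) (nat_lit 8) (nat_lit 10))
    (@En.n l3727 (nat_lit 5097) (nat_lit 4) (nat_lit 7))
    (@En.n l3 (nat_lit 6782) (nat_lit 15) (nat_lit 2))))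
  (@Cl.mk (nat_lit 0x2000c0007000c000a000400070004000c000c0006000900040004000e0009) (nat_lit 0x4600016050000) (nat_lit 16) Lb.e (@T16.mk En
    (@En.n l12134 (nat_lit 6784) (nat_lit 13) (nat_lit 9))
    (@En.i (nat_lit 10343) (nat_lit 1) (nat_lit 14))
    (@En.n l1697 (nat_lit 6782) (nat_lit 12) (nat_lit 4))
    (@En.i (nat_lit 6792) (nat_lit 3) (nat_lit 4))
    (@En.n l4573 (nat_lit 5376) (nat_lit 9) (nat_lit 9))
    (@En.n l429 (nat_lit 2845) (nat_lit 5) (nat_lit 6))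
    (@En.n l61 (nat_lit 6858) (nat_lit 7) (nat_lit 12))
    (@En.n l12135 (nat_lit 4457) (nat_lit 8) (nat_lit 12))
    (@En.n l12136 (nat_lit 6862) (nat_lit 8) (nat_lit 4))
    (@En.n l1496 (nat_lit 6001) (nat_lit 11) (nat_lit 7))
    (@En.n l3876 (nat_lit 1326) (nat_lit 10) (nat_lit 4))
    (@En.n l5457 (nat_lit 6775) (nat_lit 12) (nat_lit 10))
    (@En.n l12136 (nat_lit 1087) (nat_lit 13) (nat_lit 12))
    (@En.n l4573 (nat_lit 8221) (nat_lit 14) (nat_lit 7))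
    (@En.n l12137 (nat_lit 6784) (nat_lit 11) (nat_lit 12))
    (@En.n l3 (nat_lit 6783) (nat_lit 15) (nat_lit 2))))
noncomputable def a424 : T16 Cl := @T16.mk Cl
  (@Cl.mk (nat_lit 0x4000400090009000c0006000b00090004000700070005000c000c0007000a) (nat_lit 0x70a0150000a704) (nat_lit 16) Lb.e (@T16.mk En
    (@En.i (nat_lit 3675) (nat_lit 8) (nat_lit 10))
    (@En.n l25811 (nat_lit 2846) (nat_lit 1) (nat_lit 7))
    (@En.n l25812 (nat_lit 6859) (nat_lit 4) (nat_lit 12))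
    (@En.n l25813 (nat_lit 4458) (nat_lit 12) (nat_lit 12))
    (@En.n l25814 (nat_lit 6866) (nat_lit 4) (nat_lit 5))
    (@En.n l25815 (nat_lit 6783) (nat_lit 9) (nat_lit 7))
    (@En.n l20431 (nat_lit 7006) (nat_lit 11) (nat_lit 7))
    (@En.n l25816 (nat_lit 1254) (nat_lit 7) (nat_lit 4))
    (@En.n l25817 (nat_lit 6714) (nat_lit 0) (nat_lit 9))
    (@En.n l25814 (nat_lit 300) (nat_lit 1) (nat_lit 11))
    (@En.n l6878 (nat_lit 8224) (nat_lit 11) (nat_lit 6))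
    (@En.n l11 (nat_lit 6804) (nat_lit 6) (nat_lit 12))
    (@En.n l55 (nat_lit 6804) (nat_lit 7) (nat_lit 9))
    (@En.i (nat_lit 10575) (nat_lit 5) (nat_lit 9))
    (@En.n l2593 (nat_lit 2543) (nat_lit 12) (nat_lit 4))
    (@En.n l25818 (nat_lit 6794) (nat_lit 0) (nat_lit 4))))
  (@Cl.mk (nat_lit 0x20006000900070005000b000e000a000200070005000a00090006000e000b) (nat_lit 0x4008a0000620b0) (nat_lit 16) Lb.e (@T16.mk En
    (@En.n l8830 (nat_lit 7650) (nat_lit 9) (nat_lit 11))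
    (@En.n l8831 (nat_lit 7716) (nat_lit 10) (nat_lit 14))
    (@En.n l8832 (nat_lit 9493) (nat_lit 2) (nat_lit 6))
    (@En.i (nat_lit 6776) (nat_lit 12) (nat_lit 9))
    (@En.n l8833 (nat_lit 7652) (nat_lit 4) (nat_lit 10))
    (@En.n l8834 (nat_lit 7648) (nat_lit 14) (nat_lit 5))
    (@En.n l8835 (nat_lit 9601) (nat_lit 6) (nat_lit 7))
    (@En.n l67 (nat_lit 6785) (nat_lit 7) (nat_lit 2))
    (@En.n l68 (nat_lit 8222) (nat_lit 9) (nat_lit 10))
    (@En.n l8836 (nat_lit 5041) (nat_lit 10) (nat_lit 14))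
    (@En.n l3369 (nat_lit 7047) (nat_lit 2) (nat_lit 11))
    (@En.n l5971 (nat_lit 8450) (nat_lit 3) (nat_lit 5))
    (@En.n l628 (nat_lit 2165) (nat_lit 13) (nat_lit 7))
    (@En.n l8836 (nat_lit 9210) (nat_lit 5) (nat_lit 9))
    (@En.n l8837 (nat_lit 8472) (nat_lit 6) (nat_lit 6))
    (@En.n l7 (nat_lit 6785) (nat_lit 15) (nat_lit 2))))
  (@Cl.mk (nat_lit 0x2000d000a000900030006000b000b0006000c0007000500050004000e000a) (nat_lit 0x251003306000061) (nat_lit 16) Lb.e (@T16.mk En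
    (@En.n l10980 (nat_lit 6755) (nat_lit 4) (nat_lit 10))
    (@En.n l5911 (nat_lit 3424) (nat_lit 1) (nat_lit 14))
    (@En.n l10981 (nat_lit 5966) (nat_lit 2) (nat_lit 4))
    (@En.n l10982 (nat_lit 6756) (nat_lit 11) (nat_lit 5))
    (@En.i (nat_lit 6653) (nat_lit 4) (nat_lit 5))
    (@En.n l4852 (nat_lit 2838) (nat_lit 5) (nat_lit 7))
    (@En.i (nat_lit 2236) (nat_lit 7) (nat_lit 12))
    (@En.n l742 (nat_lit 6789) (nat_lit 7) (nat_lit 6))
    (@En.n l10983 (nat_lit 6787) (nat_lit 5) (nat_lit 11))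
    (@En.n l10984 (nat_lit 9291) (nat_lit 10) (nat_lit 11))
    (@En.n l5911 (nat_lit 6162) (nat_lit 12) (nat_lit 6))
    (@En.n l1430 (nat_lit 6347) (nat_lit 11) (nat_lit 3))
    (@En.n l5460 (nat_lit 1274) (nat_lit 0) (nat_lit 9))
    (@En.n l4377 (nat_lit 9252) (nat_lit 14) (nat_lit 10))
    (@En.n l10984 (nat_lit 6755) (nat_lit 2) (nat_lit 13))
    (@En.n l3 (nat_lit 6786) (nat_lit 15) (nat_lit 2))))
  (@Cl.mk (nat_lit 0x20005000e000a0002000d000b000a00030006000b0005000b0006000e0005) (nat_lit 0x31015100201070) (nat_lit 16) Lb.e (@T16.mk En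
    (@En.n l8374 (nat_lit 6786) (nat_lit 4) (nat_lit 5))
    (@En.n l24524 (nat_lit 6788) (nat_lit 1) (nat_lit 14))
    (@En.n l13969 (nat_lit 2533) (nat_lit 2) (nat_lit 6))
    (@En.n l2865 (nat_lit 772) (nat_lit 3) (nat_lit 11))
    (@En.n l7683 (nat_lit 1586) (nat_lit 4) (nat_lit 5))
    (@En.i (nat_lit 12677) (nat_lit 10) (nat_lit 11))
    (@En.n l12278 (nat_lit 6203) (nat_lit 6) (nat_lit 6))
    (@En.n l755 (nat_lit 3462) (nat_lit 7) (nat_lit 3))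
    (@En.n l4021 (nat_lit 1275) (nat_lit 0) (nat_lit 10))
    (@En.i (nat_lit 9250) (nat_lit 10) (nat_lit 11))
    (@En.i (nat_lit 3465) (nat_lit 11) (nat_lit 13))
    (@En.n l17 (nat_lit 6787) (nat_lit 11) (nat_lit 2))
    (@En.n l1353 (nat_lit 3465) (nat_lit 13) (nat_lit 10))
    (@En.n l12278 (nat_lit 3419) (nat_lit 1) (nat_lit 14))
    (@En.i (nat_lit 6622) (nat_lit 13) (nat_lit 5))
    (@En.n l50 (nat_lit 6787) (nat_lit 15) (nat_lit 2))))
  (@Cl.mk (nat_lit 0x200090005000e000a0002000d000b000700030006000c0005000b000e0004) (nat_lit 0x604101700020260) (nat_lit 16) Lb.e (@T16.mk En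
    (@En.n l8380 (nat_lit 6757) (nat_lit 5) (nat_lit 4))
    (@En.n l4758 (nat_lit 2103) (nat_lit 7) (nat_lit 14))
    (@En.n l22106 (nat_lit 2425) (nat_lit 2) (nat_lit 11))
    (@En.n l9315 (nat_lit 496) (nat_lit 3) (nat_lit 5))
    (@En.n l22107 (nat_lit 12713) (nat_lit 10) (nat_lit 12))
    (@En.i (nat_lit 6204) (nat_lit 5) (nat_lit 6))
    (@En.n l6296 (nat_lit 3464) (nat_lit 6) (nat_lit 3))
    (@En.n l22108 (nat_lit 2686) (nat_lit 0) (nat_lit 7))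
    (@En.n l22109 (nat_lit 9251) (nat_lit 9) (nat_lit 11))
    (@En.n l22110 (nat_lit 3466) (nat_lit 10) (nat_lit 13))
    (@En.n l18 (nat_lit 6788) (nat_lit 10) (nat_lit 2))
    (@En.n l10740 (nat_lit 3466) (nat_lit 12) (nat_lit 10))
    (@En.n l1643 (nat_lit 11032) (nat_lit 1) (nat_lit 14))
    (@En.n l19837 (nat_lit 6787) (nat_lit 14) (nat_lit 5))
    (@En.n l22111 (nat_lit 6789) (nat_lit 3) (nat_lit 9))
    (@En.n l28 (nat_lit 6788) (nat_lit 15) (nat_lit 2))))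
  (@Cl.mk (nat_lit 0x2000c000a0007000a00040007000c0006000c0006000400090004000e0009) (nat_lit 0x60200305005010) (nat_lit 16) Lb.e (@T16.mk En
    (@En.n l24541 (nat_lit 6790) (nat_lit 5) (nat_lit 9))
    (@En.n l3327 (nat_lit 4544) (nat_lit 1) (nat_lit 14))
    (@En.n l24542 (nat_lit 5962) (nat_lit 2) (nat_lit 4))
    (@En.n l24543 (nat_lit 6791) (nat_lit 3) (nat_lit 9))
    (@En.n l50 (nat_lit 6652) (nat_lit 4) (nat_lit 4))
    (@En.n l12698 (nat_lit 2839) (nat_lit 5) (nat_lit 6))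
    (@En.i (nat_lit 2618) (nat_lit 7) (nat_lit 12))
    (@En.n l24544 (nat_lit 1582) (nat_lit 7) (nat_lit 6))
    (@En.n l24545 (nat_lit 12719) (nat_lit 9) (nat_lit 12))
    (@En.n l12699 (nat_lit 6110) (nat_lit 11) (nat_lit 7))
    (@En.n l12700 (nat_lit 6779) (nat_lit 10) (nat_lit 4))
    (@En.n l24545 (nat_lit 6787) (nat_lit 8) (nat_lit 10))
    (@En.n l24546 (nat_lit 6775) (nat_lit 13) (nat_lit 7))
    (@En.n l24547 (nat_lit 8829) (nat_lit 14) (nat_lit 10))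
    (@En.n l24545 (nat_lit 6790) (nat_lit 3) (nat_lit 12))
    (@En.n l3 (nat_lit 6789) (nat_lit 15) (nat_lit 2))))
  (@Cl.mk (nat_lit 0x400070007000c0007000c00070004000a000400090009000c000900060009) (nat_lit 0x406005070a402) (nat_lit 16) Lb.e (@T16.mk En
    (@En.i (nat_lit 3465) (nat_lit 9) (nat_lit 9))
    (@En.n l36239 (nat_lit 6714) (nat_lit 1) (nat_lit 6))
    (@En.n l36240 (nat_lit 8823) (nat_lit 12) (nat_lit 9))
    (@En.n l36241 (nat_lit 6796) (nat_lit 6) (nat_lit 12))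
    (@En.n l36242 (nat_lit 6796) (nat_lit 7) (nat_lit 9))
    (@En.n l14299 (nat_lit 10564) (nat_lit 5) (nat_lit 9))
    (@En.n l36243 (nat_lit 5965) (nat_lit 6) (nat_lit 4))
    (@En.n l36244 (nat_lit 6793) (nat_lit 0) (nat_lit 10))
    (@En.n l36245 (nat_lit 6647) (nat_lit 1) (nat_lit 4))
    (@En.n l33508 (nat_lit 2840) (nat_lit 0) (nat_lit 7))
    (@En.n l36246 (nat_lit 2443) (nat_lit 1) (nat_lit 12))
    (@En.n l36247 (nat_lit 1580) (nat_lit 4) (nat_lit 7))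
    (@En.i (nat_lit 10645) (nat_lit 13) (nat_lit 12))
    (@En.n l36248 (nat_lit 6789) (nat_lit 9) (nat_lit 7))
    (@En.n l10649 (nat_lit 6486) (nat_lit 11) (nat_lit 7))
    (@En.n l36249 (nat_lit 6814) (nat_lit 15) (nat_lit 4))))
  (@Cl.mk (nat_lit 0x2000b00090007000c000a0005000800040007000d000600090003000e0008) (nat_lit 0x60530500604050) (nat_lit 16) Lb.e (@T16.mk En
    (@En.n l11156 (nat_lit 6793) (nat_lit 14) (nat_lit 8))
    (@En.n l564 (nat_lit 4543) (nat_lit 1) (nat_lit 14))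
    (@En.n l23751 (nat_lit 1716) (nat_lit 2) (nat_lit 3))
    (@En.n l182 (nat_lit 5374) (nat_lit 9) (nat_lit 9))
    (@En.n l2678 (nat_lit 2841) (nat_lit 4) (nat_lit 6))
    (@En.n l4519 (nat_lit 2619) (nat_lit 6) (nat_lit 13))
    (@En.i (nat_lit 1579) (nat_lit 6) (nat_lit 7))
    (@En.n l9780 (nat_lit 9828) (nat_lit 7) (nat_lit 4))
    (@En.i (nat_lit 6107) (nat_lit 10) (nat_lit 8))
    (@En.n l1529 (nat_lit 1181) (nat_lit 9) (nat_lit 5))
    (@En.n l4521 (nat_lit 6789) (nat_lit 11) (nat_lit 10))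
    (@En.n l4768 (nat_lit 6792) (nat_lit 12) (nat_lit 12))
    (@En.n l23752 (nat_lit 6783) (nat_lit 13) (nat_lit 7))
    (@En.n l10350 (nat_lit 8819) (nat_lit 14) (nat_lit 9))
    (@En.n l8522 (nat_lit 6793) (nat_lit 12) (nat_lit 11))
    (@En.n l18 (nat_lit 6791) (nat_lit 15) (nat_lit 2))))
  (@Cl.mk (nat_lit 0x2000c0009000c0009000400070004000c0007000d000700040003000e0009) (nat_lit 0x54200040600090) (nat_lit 16) Lb.e (@T16.mk En
    (@En.n l10337 (nat_lit 6794) (nat_lit 14) (nat_lit 9))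
    (@En.i (nat_lit 10342) (nat_lit 1) (nat_lit 14))
    (@En.n l5538 (nat_lit 6799) (nat_lit 2) (nat_lit 3))
    (@En.n l18 (nat_lit 6858) (nat_lit 3) (nat_lit 4))
    (@En.n l5543 (nat_lit 2843) (nat_lit 4) (nat_lit 7))
    (@En.i (nat_lit 2336) (nat_lit 6) (nat_lit 13))
    (@En.n l1549 (nat_lit 6791) (nat_lit 6) (nat_lit 7))
    (@En.n l564 (nat_lit 6789) (nat_lit 8) (nat_lit 12))
    (@En.n l5543 (nat_lit 9827) (nat_lit 8) (nat_lit 4))
    (@En.n l1496 (nat_lit 6106) (nat_lit 11) (nat_lit 7))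
    (@En.n l1551 (nat_lit 1183) (nat_lit 10) (nat_lit 4))
    (@En.i (nat_lit 6786) (nat_lit 12) (nat_lit 9))
    (@En.n l5543 (nat_lit 1122) (nat_lit 6) (nat_lit 12))
    (@En.n l11027 (nat_lit 9262) (nat_lit 14) (nat_lit 9))
    (@En.n l5395 (nat_lit 6794) (nat_lit 12) (nat_lit 12))
    (@En.n l3 (nat_lit 6792) (nat_lit 15) (nat_lit 2))))
  (@Cl.mk (nat_lit 0x300080008000b00080006000b000900050008000800050008000d0007000a) (nat_lit 0x609402301602704) (nat_lit 16) Lb.e (@T16.mk En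
    (@En.i (nat_lit 5373) (nat_lit 8) (nat_lit 10))
    (@En.n l37613 (nat_lit 2842) (nat_lit 13) (nat_lit 7))
    (@En.n l37614 (nat_lit 2611) (nat_lit 2) (nat_lit 13))
    (@En.n l5529 (nat_lit 1581) (nat_lit 10) (nat_lit 8))
    (@En.i (nat_lit 8832) (nat_lit 4) (nat_lit 5))
    (@En.n l24846 (nat_lit 6791) (nat_lit 8) (nat_lit 8))
    (@En.n l22476 (nat_lit 6487) (nat_lit 10) (nat_lit 8))
    (@En.n l13756 (nat_lit 1044) (nat_lit 7) (nat_lit 5))
    (@En.n l20307 (nat_lit 6790) (nat_lit 0) (nat_lit 9))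
    (@En.n l37615 (nat_lit 6794) (nat_lit 10) (nat_lit 11))
    (@En.n l11610 (nat_lit 6784) (nat_lit 10) (nat_lit 6))
    (@En.n l37616 (nat_lit 8818) (nat_lit 12) (nat_lit 8))
    (@En.n l50 (nat_lit 6795) (nat_lit 7) (nat_lit 11))
    (@En.n l217 (nat_lit 6795) (nat_lit 8) (nat_lit 8))
    (@En.n l13756 (nat_lit 10565) (nat_lit 12) (nat_lit 8))
    (@En.n l3596 (nat_lit 1715) (nat_lit 15) (nat_lit 3))))
  (@Cl.mk (nat_lit 0x300090009000c0008000b00080004000700070005000c0008000d00080004) (nat_lit 0x70a412000053730) (nat_lit 16) Lb.e (@T16.mk En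
    (@En.n l19875 (nat_lit 6859) (nat_lit 0) (nat_lit 4))
    (@En.n l17363 (nat_lit 2844) (nat_lit 0) (nat_lit 8))
    (@En.n l21865 (nat_lit 2334) (nat_lit 1) (nat_lit 13))
    (@En.n l21866 (nat_lit 6793) (nat_lit 3) (nat_lit 8))
    (@En.n l21867 (nat_lit 6790) (nat_lit 12) (nat_lit 12))
    (@En.n l2221 (nat_lit 8834) (nat_lit 5) (nat_lit 5))
    (@En.n l21868 (nat_lit 6792) (nat_lit 9) (nat_lit 7))
    (@En.n l17365 (nat_lit 6489) (nat_lit 11) (nat_lit 7))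
    (@En.n l17366 (nat_lit 1034) (nat_lit 8) (nat_lit 4))
    (@En.n l21869 (nat_lit 6755) (nat_lit 0) (nat_lit 8))
    (@En.i (nat_lit 299) (nat_lit 7) (nat_lit 11))
    (@En.n l21870 (nat_lit 8822) (nat_lit 12) (nat_lit 8))
    (@En.n l2520 (nat_lit 6797) (nat_lit 6) (nat_lit 12))
    (@En.n l17368 (nat_lit 6797) (nat_lit 7) (nat_lit 9))
    (@En.n l17363 (nat_lit 10566) (nat_lit 5) (nat_lit 9))
    (@En.n l50 (nat_lit 6798) (nat_lit 13) (nat_lit 3))))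
  (@Cl.mk (nat_lit 0x200060009000d0008000b00030008000b00070005000a00080005000e0008) (nat_lit 0x47340680033012) (nat_lit 16) Lb.e (@T16.mk En
    (@En.i (nat_lit 6793) (nat_lit 6) (nat_lit 8))
    (@En.n l396 (nat_lit 2590) (nat_lit 1) (nat_lit 14))
    (@En.n l13756 (nat_lit 1037) (nat_lit 2) (nat_lit 5))
    (@En.i (nat_lit 6796) (nat_lit 3) (nat_lit 8))
    (@En.n l23608 (nat_lit 6797) (nat_lit 4) (nat_lit 10))
    (@En.n l11610 (nat_lit 6804) (nat_lit 5) (nat_lit 5))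
    (@En.n l1783 (nat_lit 8824) (nat_lit 6) (nat_lit 7))
    (@En.n l2568 (nat_lit 14031) (nat_lit 7) (nat_lit 11))
    (@En.n l13756 (nat_lit 10568) (nat_lit 9) (nat_lit 8))
    (@En.n l3596 (nat_lit 1717) (nat_lit 9) (nat_lit 3))
    (@En.i (nat_lit 5372) (nat_lit 11) (nat_lit 11))
    (@En.n l5891 (nat_lit 2889) (nat_lit 12) (nat_lit 8))
    (@En.n l3600 (nat_lit 2607) (nat_lit 13) (nat_lit 13))
    (@En.i (nat_lit 1583) (nat_lit 9) (nat_lit 9))
    (@En.i (nat_lit 9544) (nat_lit 4) (nat_lit 6))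
    (@En.n l18 (nat_lit 6795) (nat_lit 15) (nat_lit 2))))
  (@Cl.mk (nat_lit 0x2000c0008000c00080004000b00040009000c0008000500080004000e0007) (nat_lit 0x547305079302010) (nat_lit 16) Lb.e (@T16.mk En
    (@En.n l20307 (nat_lit 6790) (nat_lit 14) (nat_lit 7))
    (@En.n l20308 (nat_lit 2592) (nat_lit 1) (nat_lit 14))
    (@En.n l20309 (nat_lit 6815) (nat_lit 2) (nat_lit 4))
    (@En.n l20310 (nat_lit 6884) (nat_lit 10) (nat_lit 8))
    (@En.n l20311 (nat_lit 6713) (nat_lit 4) (nat_lit 5))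
    (@En.n l20312 (nat_lit 9300) (nat_lit 5) (nat_lit 8))
    (@En.n l13258 (nat_lit 14008) (nat_lit 6) (nat_lit 12))
    (@En.n l8565 (nat_lit 10569) (nat_lit 8) (nat_lit 9))
    (@En.n l20313 (nat_lit 6674) (nat_lit 8) (nat_lit 4))
    (@En.n l28 (nat_lit 6795) (nat_lit 10) (nat_lit 11))
    (@En.n l3600 (nat_lit 6648) (nat_lit 10) (nat_lit 4))
    (@En.n l20314 (nat_lit 2888) (nat_lit 12) (nat_lit 8))
    (@En.n l20315 (nat_lit 2441) (nat_lit 13) (nat_lit 12))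
    (@En.n l20316 (nat_lit 1584) (nat_lit 14) (nat_lit 8))
    (@En.n l20310 (nat_lit 10678) (nat_lit 3) (nat_lit 12))
    (@En.n l18 (nat_lit 6796) (nat_lit 15) (nat_lit 2))))
  (@Cl.mk (nat_lit 0x20006000c0009000d0009000400030009000c0007000a00070004000e0007) (nat_lit 0x65830079020010) (nat_lit 16) Lb.e (@T16.mk En
    (@En.n l8466 (nat_lit 6794) (nat_lit 7) (nat_lit 7))
    (@En.n l1708 (nat_lit 2591) (nat_lit 1) (nat_lit 14))
    (@En.n l7 (nat_lit 1033) (nat_lit 2) (nat_lit 4))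
    (@En.n l1518 (nat_lit 6754) (nat_lit 3) (nat_lit 7))
    (@En.i (nat_lit 298) (nat_lit 4) (nat_lit 10))
    (@En.n l591 (nat_lit 9297) (nat_lit 5) (nat_lit 7))
    (@En.i (nat_lit 14030) (nat_lit 6) (nat_lit 12))
    (@En.n l287 (nat_lit 10567) (nat_lit 8) (nat_lit 9))
    (@En.n l11 (nat_lit 6800) (nat_lit 8) (nat_lit 3))
    (@En.n l10343 (nat_lit 6870) (nat_lit 9) (nat_lit 4))
    (@En.i (nat_lit 2887) (nat_lit 11) (nat_lit 9))
    (@En.n l129 (nat_lit 2305) (nat_lit 12) (nat_lit 13))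
    (@En.n l10344 (nat_lit 6795) (nat_lit 13) (nat_lit 9))
    (@En.n l4759 (nat_lit 6796) (nat_lit 14) (nat_lit 12))
    (@En.i (nat_lit 8843) (nat_lit 13) (nat_lit 6))
    (@En.n l17 (nat_lit 6797) (nat_lit 15) (nat_lit 2))))
  (@Cl.mk (nat_lit 0x30009000300090009000c0008000b00070004000700070005000d0008000d) (nat_lit 0x500004200000a46) (nat_lit 16) Lb.e (@T16.mk En
    (@En.n l28378 (nat_lit 2339) (nat_lit 0) (nat_lit 13))
    (@En.n l28379 (nat_lit 1715) (nat_lit 3) (nat_lit 8))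
    (@En.n l28380 (nat_lit 6807) (nat_lit 2) (nat_lit 13))
    (@En.n l2221 (nat_lit 8835) (nat_lit 3) (nat_lit 5))
    (@En.n l17364 (nat_lit 6799) (nat_lit 9) (nat_lit 7))
    (@En.n l17365 (nat_lit 6488) (nat_lit 11) (nat_lit 7))
    (@En.n l17366 (nat_lit 1039) (nat_lit 8) (nat_lit 4))
    (@En.n l575 (nat_lit 5967) (nat_lit 0) (nat_lit 7))
    (@En.i (nat_lit 1070) (nat_lit 7) (nat_lit 11))
    (@En.n l10853 (nat_lit 9348) (nat_lit 12) (nat_lit 8))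
    (@En.n l2520 (nat_lit 6800) (nat_lit 6) (nat_lit 12))
    (@En.n l17368 (nat_lit 6800) (nat_lit 7) (nat_lit 9))
    (@En.n l28381 (nat_lit 10052) (nat_lit 13) (nat_lit 9))
    (@En.i (nat_lit 6794) (nat_lit 15) (nat_lit 3))
    (@En.n l3340 (nat_lit 5031) (nat_lit 0) (nat_lit 9))
    (@En.n l4018 (nat_lit 6802) (nat_lit 15) (nat_lit 3))))
  (@Cl.mk (nat_lit 0x2000c0009000c0008000400070004000d0007000d000300080003000e0009) (nat_lit 0x1532000b0502091) (nat_lit 16) Lb.e (@T16.mk En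
    (@En.n l8170 (nat_lit 6798) (nat_lit 12) (nat_lit 9))
    (@En.n l6780 (nat_lit 9912) (nat_lit 1) (nat_lit 14))
    (@En.n l3974 (nat_lit 6792) (nat_lit 2) (nat_lit 3))
    (@En.n l2869 (nat_lit 6453) (nat_lit 3) (nat_lit 8))
    (@En.n l117 (nat_lit 6803) (nat_lit 4) (nat_lit 3))
    (@En.n l1290 (nat_lit 2337) (nat_lit 0) (nat_lit 13))
    (@En.i (nat_lit 1716) (nat_lit 6) (nat_lit 7))
    (@En.i (nat_lit 6810) (nat_lit 8) (nat_lit 13))
    (@En.i (nat_lit 9825) (nat_lit 8) (nat_lit 4))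
    (@En.n l3971 (nat_lit 6144) (nat_lit 11) (nat_lit 7))
    (@En.n l3473 (nat_lit 1185) (nat_lit 10) (nat_lit 4))
    (@En.n l16842 (nat_lit 5966) (nat_lit 12) (nat_lit 8))
    (@En.i (nat_lit 1121) (nat_lit 6) (nat_lit 12))
    (@En.n l61 (nat_lit 9349) (nat_lit 14) (nat_lit 9))
    (@En.n l2805 (nat_lit 6798) (nat_lit 10) (nat_lit 12))
    (@En.n l7 (nat_lit 6799) (nat_lit 15) (nat_lit 2))))
noncomputable def a425 : T16 Cl := @T16.mk Cl
  (@Cl.mk (nat_lit 0x20006000d0009000d0003000a00030009000c0007000a00060004000e0007) (nat_lit 0xa570107a020010) (nat_lit 16) Lb.e (@T16.mk En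
    (@En.n l8466 (nat_lit 6798) (nat_lit 5) (nat_lit 7))
    (@En.n l1708 (nat_lit 2595) (nat_lit 1) (nat_lit 14))
    (@En.n l7 (nat_lit 1035) (nat_lit 2) (nat_lit 4))
    (@En.n l4591 (nat_lit 6675) (nat_lit 3) (nat_lit 6))
    (@En.i (nat_lit 1069) (nat_lit 4) (nat_lit 10))
    (@En.n l420 (nat_lit 9299) (nat_lit 5) (nat_lit 7))
    (@En.i (nat_lit 14032) (nat_lit 6) (nat_lit 12))
    (@En.n l9226 (nat_lit 10057) (nat_lit 8) (nat_lit 9))
    (@En.i (nat_lit 6797) (nat_lit 8) (nat_lit 3))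
    (@En.n l3258 (nat_lit 5030) (nat_lit 10) (nat_lit 10))
    (@En.n l117 (nat_lit 6801) (nat_lit 10) (nat_lit 3))
    (@En.n l158 (nat_lit 2343) (nat_lit 12) (nat_lit 13))
    (@En.n l4589 (nat_lit 1717) (nat_lit 13) (nat_lit 9))
    (@En.n l1554 (nat_lit 6808) (nat_lit 14) (nat_lit 13))
    (@En.i (nat_lit 8842) (nat_lit 13) (nat_lit 6))
    (@En.n l17 (nat_lit 6800) (nat_lit 15) (nat_lit 2))))
  (@Cl.mk (nat_lit 0x20006000d000c000a0003000a00040009000c0006000a00060004000e0007) (nat_lit 0xb7705000020010) (nat_lit 16) Lb.e (@T16.mk En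
    (@En.n l6204 (nat_lit 6802) (nat_lit 5) (nat_lit 7))
    (@En.n l1708 (nat_lit 2599) (nat_lit 1) (nat_lit 14))
    (@En.n l7 (nat_lit 1038) (nat_lit 2) (nat_lit 4))
    (@En.n l1800 (nat_lit 6676) (nat_lit 3) (nat_lit 6))
    (@En.i (nat_lit 1068) (nat_lit 4) (nat_lit 10))
    (@En.n l420 (nat_lit 9796) (nat_lit 5) (nat_lit 6))
    (@En.i (nat_lit 13878) (nat_lit 6) (nat_lit 12))
    (@En.n l12128 (nat_lit 10060) (nat_lit 8) (nat_lit 9))
    (@En.n l12396 (nat_lit 6804) (nat_lit 8) (nat_lit 4))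
    (@En.n l7074 (nat_lit 5162) (nat_lit 10) (nat_lit 10))
    (@En.n l152 (nat_lit 6800) (nat_lit 10) (nat_lit 3))
    (@En.n l1455 (nat_lit 6934) (nat_lit 12) (nat_lit 10))
    (@En.n l619 (nat_lit 6797) (nat_lit 13) (nat_lit 12))
    (@En.n l4449 (nat_lit 6806) (nat_lit 14) (nat_lit 13))
    (@En.i (nat_lit 9554) (nat_lit 13) (nat_lit 6))
    (@En.n l17 (nat_lit 6801) (nat_lit 15) (nat_lit 2))))
  (@Cl.mk (nat_lit 0x30009000400090009000c0007000b00070004000700070005000d000c0009) (nat_lit 0x500110200000b66) (nat_lit 16) Lb.e (@T16.mk En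
    (@En.n l27032 (nat_lit 6927) (nat_lit 0) (nat_lit 9))
    (@En.n l15350 (nat_lit 6794) (nat_lit 4) (nat_lit 12))
    (@En.n l26424 (nat_lit 6805) (nat_lit 2) (nat_lit 13))
    (@En.i (nat_lit 8836) (nat_lit 3) (nat_lit 5))
    (@En.n l403 (nat_lit 6803) (nat_lit 9) (nat_lit 7))
    (@En.n l6924 (nat_lit 6490) (nat_lit 11) (nat_lit 7))
    (@En.n l15352 (nat_lit 1042) (nat_lit 6) (nat_lit 4))
    (@En.n l27033 (nat_lit 5396) (nat_lit 0) (nat_lit 7))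
    (@En.i (nat_lit 1067) (nat_lit 8) (nat_lit 11))
    (@En.n l15353 (nat_lit 9355) (nat_lit 10) (nat_lit 7))
    (@En.n l5838 (nat_lit 6801) (nat_lit 6) (nat_lit 12))
    (@En.n l8149 (nat_lit 6801) (nat_lit 7) (nat_lit 9))
    (@En.n l22625 (nat_lit 10058) (nat_lit 13) (nat_lit 9))
    (@En.n l19288 (nat_lit 6784) (nat_lit 14) (nat_lit 4))
    (@En.n l27034 (nat_lit 5098) (nat_lit 0) (nat_lit 9))
    (@En.n l15355 (nat_lit 6798) (nat_lit 15) (nat_lit 3))))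
  (@Cl.mk (nat_lit 0x2000c0008000c0008000400070004000d000c0008000300080004000e0009) (nat_lit 0x2632000b5403091) (nat_lit 16) Lb.e (@T16.mk En
    (@En.n l7584 (nat_lit 6802) (nat_lit 12) (nat_lit 9))
    (@En.n l13330 (nat_lit 9913) (nat_lit 1) (nat_lit 14))
    (@En.n l13331 (nat_lit 6783) (nat_lit 2) (nat_lit 4))
    (@En.n l3517 (nat_lit 5096) (nat_lit 3) (nat_lit 8))
    (@En.n l152 (nat_lit 6799) (nat_lit 4) (nat_lit 3))
    (@En.n l13330 (nat_lit 6928) (nat_lit 0) (nat_lit 8))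
    (@En.n l13332 (nat_lit 6792) (nat_lit 7) (nat_lit 12))
    (@En.i (nat_lit 6809) (nat_lit 8) (nat_lit 13))
    (@En.i (nat_lit 9824) (nat_lit 8) (nat_lit 4))
    (@En.n l6795 (nat_lit 5662) (nat_lit 11) (nat_lit 7))
    (@En.n l3473 (nat_lit 1184) (nat_lit 10) (nat_lit 4))
    (@En.n l13333 (nat_lit 5972) (nat_lit 12) (nat_lit 8))
    (@En.i (nat_lit 1073) (nat_lit 13) (nat_lit 12))
    (@En.n l61 (nat_lit 9354) (nat_lit 14) (nat_lit 8))
    (@En.i (nat_lit 6802) (nat_lit 10) (nat_lit 12))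
    (@En.n l7 (nat_lit 6803) (nat_lit 15) (nat_lit 2))))
  (@Cl.mk (nat_lit 0x20006000c000c0008000b000400040009000c0005000a00080004000e0007) (nat_lit 0xa8240079024080) (nat_lit 16) Lb.e (@T16.mk En
    (@En.i (nat_lit 6784) (nat_lit 6) (nat_lit 7))
    (@En.n l17759 (nat_lit 6673) (nat_lit 1) (nat_lit 14))
    (@En.n l25816 (nat_lit 1258) (nat_lit 2) (nat_lit 4))
    (@En.n l15957 (nat_lit 6713) (nat_lit 3) (nat_lit 8))
    (@En.n l25682 (nat_lit 294) (nat_lit 4) (nat_lit 10))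
    (@En.n l3098 (nat_lit 8991) (nat_lit 5) (nat_lit 5))
    (@En.n l25682 (nat_lit 13877) (nat_lit 6) (nat_lit 12))
    (@En.i (nat_lit 10572) (nat_lit 8) (nat_lit 9))
    (@En.n l2593 (nat_lit 2542) (nat_lit 8) (nat_lit 4))
    (@En.n l35077 (nat_lit 6797) (nat_lit 9) (nat_lit 4))
    (@En.i (nat_lit 3677) (nat_lit 7) (nat_lit 11))
    (@En.n l25811 (nat_lit 2886) (nat_lit 12) (nat_lit 8))
    (@En.n l38970 (nat_lit 6870) (nat_lit 13) (nat_lit 12))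
    (@En.n l3328 (nat_lit 6660) (nat_lit 14) (nat_lit 12))
    (@En.i (nat_lit 7359) (nat_lit 13) (nat_lit 6))
    (@En.n l28 (nat_lit 6804) (nat_lit 15) (nat_lit 2))))
  (@Cl.mk (nat_lit 0x300090009000500090009000c000800070007000400070007000d000b0008) (nat_lit 0x510673600000a62) (nat_lit 16) Lb.e (@T16.mk En
    (@En.n l17764 (nat_lit 2086) (nat_lit 0) (nat_lit 8))
    (@En.n l20635 (nat_lit 5965) (nat_lit 12) (nat_lit 11))
    (@En.n l23119 (nat_lit 9125) (nat_lit 2) (nat_lit 13))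
    (@En.n l28397 (nat_lit 6809) (nat_lit 9) (nat_lit 7))
    (@En.n l20187 (nat_lit 6196) (nat_lit 11) (nat_lit 7))
    (@En.n l28398 (nat_lit 6726) (nat_lit 5) (nat_lit 4))
    (@En.n l2172 (nat_lit 6624) (nat_lit 9) (nat_lit 7))
    (@En.i (nat_lit 4449) (nat_lit 1) (nat_lit 7))
    (@En.n l17764 (nat_lit 9316) (nat_lit 9) (nat_lit 8))
    (@En.n l3 (nat_lit 6806) (nat_lit 6) (nat_lit 12))
    (@En.n l527 (nat_lit 6806) (nat_lit 7) (nat_lit 9))
    (@En.i (nat_lit 9965) (nat_lit 10) (nat_lit 9))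
    (@En.n l28399 (nat_lit 4458) (nat_lit 6) (nat_lit 5))
    (@En.n l396 (nat_lit 1920) (nat_lit 7) (nat_lit 9))
    (@En.n l5911 (nat_lit 5352) (nat_lit 1) (nat_lit 9))
    (@En.n l10116 (nat_lit 6807) (nat_lit 15) (nat_lit 3))))
  (@Cl.mk (nat_lit 0x2000d000b00090003000a000a00050009000c0007000600060004000e0007) (nat_lit 0xa72061062000070) (nat_lit 16) Lb.e (@T16.mk En
    (@En.i (nat_lit 6805) (nat_lit 4) (nat_lit 7))
    (@En.n l6080 (nat_lit 6670) (nat_lit 1) (nat_lit 14))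
    (@En.n l12824 (nat_lit 6722) (nat_lit 2) (nat_lit 4))
    (@En.n l2172 (nat_lit 6628) (nat_lit 10) (nat_lit 6))
    (@En.i (nat_lit 6735) (nat_lit 4) (nat_lit 6))
    (@En.n l10118 (nat_lit 9317) (nat_lit 5) (nat_lit 7))
    (@En.i (nat_lit 14001) (nat_lit 6) (nat_lit 12))
    (@En.i (nat_lit 9967) (nat_lit 10) (nat_lit 9))
    (@En.n l742 (nat_lit 6660) (nat_lit 8) (nat_lit 5))
    (@En.n l396 (nat_lit 1923) (nat_lit 6) (nat_lit 10))
    (@En.n l5911 (nat_lit 5357) (nat_lit 11) (nat_lit 10))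
    (@En.i (nat_lit 6808) (nat_lit 11) (nat_lit 3))
    (@En.i (nat_lit 2088) (nat_lit 0) (nat_lit 9))
    (@En.i (nat_lit 6674) (nat_lit 14) (nat_lit 11))
    (@En.i (nat_lit 9128) (nat_lit 2) (nat_lit 13))
    (@En.n l107 (nat_lit 6806) (nat_lit 15) (nat_lit 2))))
  (@Cl.mk (nat_lit 0x300090009000400090009000c000900070007000400070007000d0007000c) (nat_lit 0x110000400000905) (nat_lit 16) Lb.e (@T16.mk En
    (@En.n l23304 (nat_lit 2162) (nat_lit 0) (nat_lit 12))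
    (@En.n l23305 (nat_lit 1420) (nat_lit 4) (nat_lit 7))
    (@En.n l23306 (nat_lit 9127) (nat_lit 2) (nat_lit 13))
    (@En.n l23307 (nat_lit 6810) (nat_lit 9) (nat_lit 7))
    (@En.i (nat_lit 6481) (nat_lit 11) (nat_lit 7))
    (@En.n l23308 (nat_lit 6727) (nat_lit 5) (nat_lit 4))
    (@En.n l23309 (nat_lit 6623) (nat_lit 9) (nat_lit 7))
    (@En.n l23305 (nat_lit 6734) (nat_lit 1) (nat_lit 7))
    (@En.n l23310 (nat_lit 9315) (nat_lit 9) (nat_lit 9))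
    (@En.n l23311 (nat_lit 6808) (nat_lit 6) (nat_lit 12))
    (@En.n l23312 (nat_lit 6808) (nat_lit 7) (nat_lit 9))
    (@En.n l23305 (nat_lit 9966) (nat_lit 12) (nat_lit 9))
    (@En.n l23313 (nat_lit 6790) (nat_lit 6) (nat_lit 4))
    (@En.n l23314 (nat_lit 1915) (nat_lit 7) (nat_lit 9))
    (@En.n l23315 (nat_lit 1715) (nat_lit 1) (nat_lit 9))
    (@En.n l23316 (nat_lit 6805) (nat_lit 15) (nat_lit 3))))
  (@Cl.mk (nat_lit 0x2000d0008000c0003000a000a00040009000c0008000600060004000e0007) (nat_lit 0x94801107a3000a0) (nat_lit 16) Lb.e (@T16.mk En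
    (@En.n l10116 (nat_lit 6807) (nat_lit 4) (nat_lit 7))
    (@En.n l10117 (nat_lit 7040) (nat_lit 1) (nat_lit 14))
    (@En.n l4830 (nat_lit 6725) (nat_lit 2) (nat_lit 4))
    (@En.n l10017 (nat_lit 6626) (nat_lit 10) (nat_lit 6))
    (@En.i (nat_lit 6733) (nat_lit 4) (nat_lit 6))
    (@En.n l10118 (nat_lit 9305) (nat_lit 5) (nat_lit 8))
    (@En.n l1430 (nat_lit 13365) (nat_lit 6) (nat_lit 12))
    (@En.i (nat_lit 9969) (nat_lit 12) (nat_lit 9))
    (@En.n l10119 (nat_lit 6796) (nat_lit 8) (nat_lit 4))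
    (@En.n l10120 (nat_lit 1921) (nat_lit 6) (nat_lit 10))
    (@En.n l3540 (nat_lit 1717) (nat_lit 11) (nat_lit 10))
    (@En.n l28 (nat_lit 6806) (nat_lit 11) (nat_lit 3))
    (@En.n l1580 (nat_lit 2544) (nat_lit 0) (nat_lit 12))
    (@En.i (nat_lit 1591) (nat_lit 14) (nat_lit 8))
    (@En.n l10121 (nat_lit 8632) (nat_lit 2) (nat_lit 13))
    (@En.n l107 (nat_lit 6808) (nat_lit 15) (nat_lit 2))))
  (@Cl.mk (nat_lit 0x2000c00090008000800040007000d000b00070003000800080005000e0009) (nat_lit 0x476200a50041047) (nat_lit 16) Lb.e (@T16.mk En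
    (@En.n l26425 (nat_lit 6805) (nat_lit 11) (nat_lit 9))
    (@En.n l26899 (nat_lit 10111) (nat_lit 1) (nat_lit 14))
    (@En.n l7979 (nat_lit 4457) (nat_lit 2) (nat_lit 5))
    (@En.n l26900 (nat_lit 1919) (nat_lit 8) (nat_lit 8))
    (@En.n l26901 (nat_lit 5356) (nat_lit 4) (nat_lit 8))
    (@En.n l152 (nat_lit 6810) (nat_lit 5) (nat_lit 3))
    (@En.n l26902 (nat_lit 2083) (nat_lit 0) (nat_lit 7))
    (@En.n l26903 (nat_lit 5962) (nat_lit 8) (nat_lit 11))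
    (@En.n l26904 (nat_lit 9118) (nat_lit 9) (nat_lit 13))
    (@En.n l26905 (nat_lit 6141) (nat_lit 11) (nat_lit 7))
    (@En.n l3473 (nat_lit 6728) (nat_lit 10) (nat_lit 4))
    (@En.n l13333 (nat_lit 6627) (nat_lit 8) (nat_lit 8))
    (@En.n l11252 (nat_lit 4450) (nat_lit 13) (nat_lit 8))
    (@En.n l26906 (nat_lit 9505) (nat_lit 14) (nat_lit 9))
    (@En.n l26424 (nat_lit 6805) (nat_lit 9) (nat_lit 12))
    (@En.n l7 (nat_lit 6809) (nat_lit 15) (nat_lit 2))))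
  (@Cl.mk (nat_lit 0x2000c000a0008000800040007000d0006000c0003000800080004000e0009) (nat_lit 0x156300a04011041) (nat_lit 16) Lb.e (@T16.mk En
    (@En.n l22069 (nat_lit 6807) (nat_lit 11) (nat_lit 9))
    (@En.n l14565 (nat_lit 10110) (nat_lit 1) (nat_lit 14))
    (@En.n l22070 (nat_lit 6789) (nat_lit 2) (nat_lit 4))
    (@En.n l22071 (nat_lit 1916) (nat_lit 8) (nat_lit 8))
    (@En.n l152 (nat_lit 1716) (nat_lit 4) (nat_lit 8))
    (@En.n l117 (nat_lit 6809) (nat_lit 5) (nat_lit 3))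
    (@En.n l22070 (nat_lit 2165) (nat_lit 0) (nat_lit 12))
    (@En.n l22072 (nat_lit 1590) (nat_lit 7) (nat_lit 6))
    (@En.n l22073 (nat_lit 9117) (nat_lit 9) (nat_lit 13))
    (@En.n l22074 (nat_lit 6140) (nat_lit 11) (nat_lit 7))
    (@En.n l22073 (nat_lit 6739) (nat_lit 10) (nat_lit 4))
    (@En.n l22075 (nat_lit 6625) (nat_lit 8) (nat_lit 8))
    (@En.i (nat_lit 6736) (nat_lit 13) (nat_lit 8))
    (@En.n l61 (nat_lit 9351) (nat_lit 14) (nat_lit 10))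
    (@En.n l22076 (nat_lit 6807) (nat_lit 9) (nat_lit 12))
    (@En.n l7 (nat_lit 6810) (nat_lit 15) (nat_lit 2))))
  (@Cl.mk (nat_lit 0x3000b00090004000a000a00050009000c0007000600060004000d0007000c) (nat_lit 0x760210650000500) (nat_lit 16) Lb.e (@T16.mk En
    (@En.n l14258 (nat_lit 8569) (nat_lit 0) (nat_lit 12))
    (@En.n l14259 (nat_lit 6812) (nat_lit 14) (nat_lit 7))
    (@En.n l5637 (nat_lit 8141) (nat_lit 2) (nat_lit 13))
    (@En.n l14260 (nat_lit 6126) (nat_lit 3) (nat_lit 4))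
    (@En.n l14261 (nat_lit 8257) (nat_lit 10) (nat_lit 6))
    (@En.i (nat_lit 6216) (nat_lit 5) (nat_lit 6))
    (@En.n l14262 (nat_lit 9334) (nat_lit 6) (nat_lit 7))
    (@En.n l159 (nat_lit 6158) (nat_lit 6) (nat_lit 12))
    (@En.i (nat_lit 9968) (nat_lit 10) (nat_lit 9))
    (@En.n l14263 (nat_lit 6211) (nat_lit 9) (nat_lit 5))
    (@En.n l14264 (nat_lit 6207) (nat_lit 6) (nat_lit 10))
    (@En.n l4865 (nat_lit 8495) (nat_lit 12) (nat_lit 10))
    (@En.n l14265 (nat_lit 8419) (nat_lit 2) (nat_lit 4))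
    (@En.n l14266 (nat_lit 6798) (nat_lit 14) (nat_lit 9))
    (@En.n l5732 (nat_lit 6805) (nat_lit 1) (nat_lit 11))
    (@En.n l14267 (nat_lit 6813) (nat_lit 15) (nat_lit 3))))
  (@Cl.mk (nat_lit 0x40007000c0008000b0008000400090009000500090008000c000800070007) (nat_lit 0x71610210606600) (nat_lit 16) Lb.e (@T16.mk En
    (@En.n l28407 (nat_lit 8258) (nat_lit 9) (nat_lit 7))
    (@En.n l28408 (nat_lit 6218) (nat_lit 1) (nat_lit 7))
    (@En.n l28409 (nat_lit 9335) (nat_lit 9) (nat_lit 8))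
    (@En.n l28410 (nat_lit 6811) (nat_lit 7) (nat_lit 12))
    (@En.n l28411 (nat_lit 6813) (nat_lit 8) (nat_lit 8))
    (@En.n l28408 (nat_lit 9964) (nat_lit 10) (nat_lit 9))
    (@En.n l28412 (nat_lit 10370) (nat_lit 6) (nat_lit 5))
    (@En.n l28413 (nat_lit 6209) (nat_lit 7) (nat_lit 9))
    (@En.n l28414 (nat_lit 8496) (nat_lit 1) (nat_lit 9))
    (@En.n l28415 (nat_lit 8406) (nat_lit 9) (nat_lit 4))
    (@En.n l28416 (nat_lit 1715) (nat_lit 0) (nat_lit 8))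
    (@En.n l28417 (nat_lit 6809) (nat_lit 7) (nat_lit 11))
    (@En.n l28418 (nat_lit 6514) (nat_lit 13) (nat_lit 8))
    (@En.n l28419 (nat_lit 8400) (nat_lit 8) (nat_lit 12))
    (@En.i (nat_lit 9835) (nat_lit 11) (nat_lit 7))
    (@En.n l28420 (nat_lit 6127) (nat_lit 15) (nat_lit 4))))
  (@Cl.mk (nat_lit 0x3000b00090005000a000a00050008000c0007000600060004000d000b0008) (nat_lit 0x760210650000501) (nat_lit 16) Lb.e (@T16.mk En
    (@En.n l8415 (nat_lit 5287) (nat_lit 0) (nat_lit 8))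
    (@En.n l22594 (nat_lit 8386) (nat_lit 5) (nat_lit 11))
    (@En.n l12289 (nat_lit 8139) (nat_lit 2) (nat_lit 13))
    (@En.n l2179 (nat_lit 6125) (nat_lit 3) (nat_lit 4))
    (@En.n l22595 (nat_lit 8256) (nat_lit 10) (nat_lit 6))
    (@En.n l2180 (nat_lit 6217) (nat_lit 5) (nat_lit 6))
    (@En.n l22596 (nat_lit 8143) (nat_lit 6) (nat_lit 7))
    (@En.i (nat_lit 6159) (nat_lit 7) (nat_lit 12))
    (@En.n l22594 (nat_lit 8918) (nat_lit 10) (nat_lit 8))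
    (@En.n l18 (nat_lit 10371) (nat_lit 9) (nat_lit 5))
    (@En.n l61 (nat_lit 6208) (nat_lit 6) (nat_lit 10))
    (@En.n l2129 (nat_lit 8494) (nat_lit 12) (nat_lit 10))
    (@En.n l14293 (nat_lit 8420) (nat_lit 2) (nat_lit 5))
    (@En.n l14294 (nat_lit 6802) (nat_lit 14) (nat_lit 9))
    (@En.n l22597 (nat_lit 6812) (nat_lit 11) (nat_lit 11))
    (@En.n l22598 (nat_lit 6811) (nat_lit 15) (nat_lit 3))))
  (@Cl.mk (nat_lit 0x400070007000c0006000c000900040009000400090009000c0007000a0007) (nat_lit 0x600301067a010) (nat_lit 16) Lb.e (@T16.mk En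
    (@En.n l20026 (nat_lit 6711) (nat_lit 0) (nat_lit 7))
    (@En.i (nat_lit 2537) (nat_lit 8) (nat_lit 10))
    (@En.n l20027 (nat_lit 8388) (nat_lit 10) (nat_lit 7))
    (@En.n l20028 (nat_lit 6815) (nat_lit 6) (nat_lit 12))
    (@En.n l20029 (nat_lit 6815) (nat_lit 7) (nat_lit 9))
    (@En.n l20030 (nat_lit 12050) (nat_lit 5) (nat_lit 9))
    (@En.n l3232 (nat_lit 5388) (nat_lit 6) (nat_lit 4))
    (@En.n l20030 (nat_lit 1044) (nat_lit 0) (nat_lit 9))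
    (@En.n l20031 (nat_lit 6693) (nat_lit 1) (nat_lit 4))
    (@En.n l20032 (nat_lit 6816) (nat_lit 0) (nat_lit 9))
    (@En.n l20033 (nat_lit 6818) (nat_lit 1) (nat_lit 12))
    (@En.n l20034 (nat_lit 6514) (nat_lit 4) (nat_lit 6))
    (@En.n l20035 (nat_lit 9693) (nat_lit 13) (nat_lit 12))
    (@En.n l20036 (nat_lit 6779) (nat_lit 9) (nat_lit 7))
    (@En.n l3226 (nat_lit 6570) (nat_lit 11) (nat_lit 7))
    (@En.n l3227 (nat_lit 5103) (nat_lit 15) (nat_lit 4))))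
  (@Cl.mk (nat_lit 0x2000c0007000c000a0004000a00040009000c0006000900060004000e0007) (nat_lit 0x7002010690100c0) (nat_lit 16) Lb.e (@T16.mk En
    (@En.n l8462 (nat_lit 6814) (nat_lit 14) (nat_lit 7))
    (@En.n l35556 (nat_lit 7529) (nat_lit 1) (nat_lit 14))
    (@En.n l23321 (nat_lit 5107) (nat_lit 2) (nat_lit 4))
    (@En.i (nat_lit 6712) (nat_lit 3) (nat_lit 6))
    (@En.n l35556 (nat_lit 2535) (nat_lit 9) (nat_lit 9))
    (@En.n l34412 (nat_lit 8385) (nat_lit 5) (nat_lit 6))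
    (@En.i (nat_lit 13197) (nat_lit 6) (nat_lit 12))
    (@En.n l2747 (nat_lit 11866) (nat_lit 8) (nat_lit 9))
    (@En.n l11 (nat_lit 5392) (nat_lit 8) (nat_lit 4))
    (@En.n l2747 (nat_lit 1037) (nat_lit 10) (nat_lit 10))
    (@En.n l20971 (nat_lit 6699) (nat_lit 10) (nat_lit 4))
    (@En.n l55 (nat_lit 6817) (nat_lit 12) (nat_lit 10))
    (@En.n l4750 (nat_lit 6819) (nat_lit 13) (nat_lit 12))
    (@En.n l12481 (nat_lit 6516) (nat_lit 14) (nat_lit 7))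
    (@En.n l4750 (nat_lit 9694) (nat_lit 3) (nat_lit 12))
    (@En.n l17 (nat_lit 6815) (nat_lit 15) (nat_lit 2))))
noncomputable def a426 : T16 Cl := @T16.mk Cl
  (@Cl.mk (nat_lit 0x30008000b00080008000b00070005000a0008000500080008000d00060009) (nat_lit 0x155600026050a02) (nat_lit 16) Lb.e (@T16.mk En
    (@En.n l1668 (nat_lit 1803) (nat_lit 0) (nat_lit 9))
    (@En.n l35738 (nat_lit 5285) (nat_lit 8) (nat_lit 6))
    (@En.n l35515 (nat_lit 9688) (nat_lit 2) (nat_lit 13))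
    (@En.n l35739 (nat_lit 6820) (nat_lit 8) (nat_lit 8))
    (@En.n l35740 (nat_lit 6571) (nat_lit 10) (nat_lit 8))
    (@En.n l35741 (nat_lit 5106) (nat_lit 5) (nat_lit 5))
    (@En.i (nat_lit 6818) (nat_lit 6) (nat_lit 8))
    (@En.n l35742 (nat_lit 6814) (nat_lit 1) (nat_lit 10))
    (@En.n l28 (nat_lit 6727) (nat_lit 8) (nat_lit 5))
    (@En.n l35515 (nat_lit 8401) (nat_lit 10) (nat_lit 7))
    (@En.n l18 (nat_lit 6817) (nat_lit 7) (nat_lit 11))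
    (@En.n l61 (nat_lit 6817) (nat_lit 8) (nat_lit 8))
    (@En.n l8792 (nat_lit 12051) (nat_lit 13) (nat_lit 8))
    (@En.n l35743 (nat_lit 6899) (nat_lit 7) (nat_lit 11))
    (@En.n l20044 (nat_lit 1177) (nat_lit 12) (nat_lit 8))
    (@En.n l35744 (nat_lit 6822) (nat_lit 15) (nat_lit 3))))
  (@Cl.mk (nat_lit 0x2000d0007000a00030009000c0008000b00060004000900070005000e0008) (nat_lit 0xb010155900200c6) (nat_lit 16) Lb.e (@T16.mk En
    (@En.i (nat_lit 6816) (nat_lit 4) (nat_lit 8))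
    (@En.n l20742 (nat_lit 7528) (nat_lit 1) (nat_lit 14))
    (@En.n l20743 (nat_lit 2891) (nat_lit 2) (nat_lit 5))
    (@En.i (nat_lit 6819) (nat_lit 3) (nat_lit 7))
    (@En.n l343 (nat_lit 6815) (nat_lit 4) (nat_lit 9))
    (@En.n l28 (nat_lit 6725) (nat_lit 5) (nat_lit 4))
    (@En.n l1668 (nat_lit 8424) (nat_lit 6) (nat_lit 6))
    (@En.i (nat_lit 14011) (nat_lit 7) (nat_lit 11))
    (@En.n l890 (nat_lit 12052) (nat_lit 13) (nat_lit 8))
    (@En.n l1668 (nat_lit 6900) (nat_lit 6) (nat_lit 12))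
    (@En.n l152 (nat_lit 1045) (nat_lit 11) (nat_lit 9))
    (@En.n l20744 (nat_lit 6824) (nat_lit 11) (nat_lit 3))
    (@En.n l1668 (nat_lit 1805) (nat_lit 8) (nat_lit 10))
    (@En.n l20745 (nat_lit 6517) (nat_lit 14) (nat_lit 7))
    (@En.n l253 (nat_lit 9690) (nat_lit 2) (nat_lit 13))
    (@En.n l17 (nat_lit 6817) (nat_lit 15) (nat_lit 2))))
  (@Cl.mk (nat_lit 0x300080004000b00090009000c000800050008000400070007000d000c0008) (nat_lit 0x1066703050009a2) (nat_lit 16) Lb.e (@T16.mk En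
    (@En.n l8792 (nat_lit 1493) (nat_lit 0) (nat_lit 8))
    (@En.n l7393 (nat_lit 6826) (nat_lit 4) (nat_lit 12))
    (@En.i (nat_lit 9687) (nat_lit 2) (nat_lit 13))
    (@En.n l21880 (nat_lit 6821) (nat_lit 9) (nat_lit 7))
    (@En.n l21881 (nat_lit 6573) (nat_lit 11) (nat_lit 7))
    (@En.n l21882 (nat_lit 2850) (nat_lit 5) (nat_lit 4))
    (@En.n l2129 (nat_lit 6707) (nat_lit 10) (nat_lit 8))
    (@En.n l28 (nat_lit 6731) (nat_lit 1) (nat_lit 5))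
    (@En.n l21883 (nat_lit 8425) (nat_lit 0) (nat_lit 8))
    (@En.n l18 (nat_lit 6819) (nat_lit 6) (nat_lit 12))
    (@En.n l61 (nat_lit 6819) (nat_lit 7) (nat_lit 9))
    (@En.n l8792 (nat_lit 10485) (nat_lit 12) (nat_lit 9))
    (@En.n l476 (nat_lit 6816) (nat_lit 13) (nat_lit 11))
    (@En.n l8790 (nat_lit 6344) (nat_lit 14) (nat_lit 4))
    (@En.i (nat_lit 1176) (nat_lit 0) (nat_lit 8))
    (@En.n l21884 (nat_lit 6823) (nat_lit 15) (nat_lit 3))))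
  (@Cl.mk (nat_lit 0x2000d000c0009000300090004000c0009000c0007000400070004000e0007) (nat_lit 0x9a201066a000020) (nat_lit 16) Lb.e (@T16.mk En
    (@En.i (nat_lit 6818) (nat_lit 4) (nat_lit 7))
    (@En.n l10209 (nat_lit 7498) (nat_lit 1) (nat_lit 14))
    (@En.n l2129 (nat_lit 2885) (nat_lit 2) (nat_lit 4))
    (@En.n l2129 (nat_lit 6706) (nat_lit 11) (nat_lit 7))
    (@En.n l28 (nat_lit 6732) (nat_lit 4) (nat_lit 4))
    (@En.n l1683 (nat_lit 8380) (nat_lit 5) (nat_lit 7))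
    (@En.i (nat_lit 13995) (nat_lit 6) (nat_lit 12))
    (@En.n l2129 (nat_lit 10483) (nat_lit 12) (nat_lit 9))
    (@En.n l476 (nat_lit 6817) (nat_lit 9) (nat_lit 12))
    (@En.i (nat_lit 6343) (nat_lit 9) (nat_lit 4))
    (@En.i (nat_lit 1175) (nat_lit 11) (nat_lit 9))
    (@En.n l1790 (nat_lit 6825) (nat_lit 11) (nat_lit 3))
    (@En.n l97 (nat_lit 1806) (nat_lit 0) (nat_lit 9))
    (@En.n l7393 (nat_lit 6828) (nat_lit 14) (nat_lit 12))
    (@En.i (nat_lit 9689) (nat_lit 2) (nat_lit 13))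
    (@En.n l17 (nat_lit 6819) (nat_lit 15) (nat_lit 2))))
  (@Cl.mk (nat_lit 0x2000b00080006000b000900050008000d0005000800030007000a000e0008) (nat_lit 0x1407706b0200536) (nat_lit 16) Lb.e (@T16.mk En
    (@En.n l20691 (nat_lit 6816) (nat_lit 12) (nat_lit 8))
    (@En.n l2117 (nat_lit 11424) (nat_lit 1) (nat_lit 14))
    (@En.i (nat_lit 6903) (nat_lit 8) (nat_lit 10))
    (@En.n l2125 (nat_lit 1179) (nat_lit 3) (nat_lit 7))
    (@En.n l22246 (nat_lit 6842) (nat_lit 4) (nat_lit 3))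
    (@En.n l12585 (nat_lit 1804) (nat_lit 0) (nat_lit 8))
    (@En.n l2116 (nat_lit 5284) (nat_lit 6) (nat_lit 5))
    (@En.n l1388 (nat_lit 9279) (nat_lit 8) (nat_lit 13))
    (@En.i (nat_lit 7283) (nat_lit 10) (nat_lit 8))
    (@En.n l1388 (nat_lit 5105) (nat_lit 9) (nat_lit 5))
    (@En.n l15305 (nat_lit 6821) (nat_lit 11) (nat_lit 9))
    (@En.n l22247 (nat_lit 6779) (nat_lit 12) (nat_lit 11))
    (@En.n l1357 (nat_lit 6739) (nat_lit 13) (nat_lit 6))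
    (@En.n l11954 (nat_lit 8471) (nat_lit 14) (nat_lit 8))
    (@En.n l22248 (nat_lit 6816) (nat_lit 10) (nat_lit 11))
    (@En.n l107 (nat_lit 6820) (nat_lit 15) (nat_lit 2))))
  (@Cl.mk (nat_lit 0x2000c00090006000900040007000d000c0007000300070004000a000e0009) (nat_lit 0x160600aa0000647) (nat_lit 16) Lb.e (@T16.mk En
    (@En.n l11035 (nat_lit 6818) (nat_lit 11) (nat_lit 9))
    (@En.n l3939 (nat_lit 4707) (nat_lit 1) (nat_lit 14))
    (@En.n l11036 (nat_lit 6820) (nat_lit 2) (nat_lit 10))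
    (@En.n l3939 (nat_lit 6346) (nat_lit 3) (nat_lit 4))
    (@En.n l612 (nat_lit 1178) (nat_lit 4) (nat_lit 7))
    (@En.n l50 (nat_lit 6827) (nat_lit 5) (nat_lit 3))
    (@En.n l5556 (nat_lit 1492) (nat_lit 0) (nat_lit 7))
    (@En.n l1490 (nat_lit 6829) (nat_lit 8) (nat_lit 12))
    (@En.n l3815 (nat_lit 9280) (nat_lit 9) (nat_lit 13))
    (@En.n l810 (nat_lit 7286) (nat_lit 11) (nat_lit 7))
    (@En.n l28 (nat_lit 2849) (nat_lit 10) (nat_lit 4))
    (@En.n l1490 (nat_lit 6710) (nat_lit 12) (nat_lit 9))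
    (@En.n l11037 (nat_lit 6737) (nat_lit 13) (nat_lit 6))
    (@En.i (nat_lit 2626) (nat_lit 14) (nat_lit 9))
    (@En.n l10205 (nat_lit 6818) (nat_lit 9) (nat_lit 12))
    (@En.n l3 (nat_lit 6821) (nat_lit 15) (nat_lit 2))))
  (@Cl.mk (nat_lit 0x30008000b00080008000b0008000500090008000500080008000d00080007) (nat_lit 0x150006056050a30) (nat_lit 16) Lb.e (@T16.mk En
    (@En.n l41914 (nat_lit 5210) (nat_lit 0) (nat_lit 7))
    (@En.n l25557 (nat_lit 5081) (nat_lit 0) (nat_lit 8))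
    (@En.n l41915 (nat_lit 9684) (nat_lit 2) (nat_lit 13))
    (@En.n l40231 (nat_lit 6842) (nat_lit 8) (nat_lit 8))
    (@En.n l41916 (nat_lit 6569) (nat_lit 10) (nat_lit 8))
    (@En.i (nat_lit 2893) (nat_lit 5) (nat_lit 5))
    (@En.n l17 (nat_lit 6823) (nat_lit 6) (nat_lit 8))
    (@En.n l41917 (nat_lit 6693) (nat_lit 10) (nat_lit 9))
    (@En.n l1865 (nat_lit 6726) (nat_lit 8) (nat_lit 5))
    (@En.n l25555 (nat_lit 8496) (nat_lit 0) (nat_lit 8))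
    (@En.i (nat_lit 6824) (nat_lit 7) (nat_lit 11))
    (@En.n l5386 (nat_lit 6824) (nat_lit 8) (nat_lit 8))
    (@En.i (nat_lit 12053) (nat_lit 13) (nat_lit 8))
    (@En.n l41918 (nat_lit 6902) (nat_lit 7) (nat_lit 11))
    (@En.n l41919 (nat_lit 1462) (nat_lit 12) (nat_lit 8))
    (@En.n l40796 (nat_lit 6816) (nat_lit 15) (nat_lit 3))))
  (@Cl.mk (nat_lit 0x300080003000b00090009000c000900050008000400070007000d0007000d) (nat_lit 0x106000505000902) (nat_lit 16) Lb.e (@T16.mk En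
    (@En.n l7075 (nat_lit 2459) (nat_lit 0) (nat_lit 13))
    (@En.i (nat_lit 5083) (nat_lit 3) (nat_lit 7))
    (@En.n l29941 (nat_lit 9685) (nat_lit 2) (nat_lit 13))
    (@En.n l13671 (nat_lit 6827) (nat_lit 9) (nat_lit 7))
    (@En.n l25551 (nat_lit 6572) (nat_lit 11) (nat_lit 7))
    (@En.n l1769 (nat_lit 2882) (nat_lit 5) (nat_lit 4))
    (@En.n l1769 (nat_lit 6703) (nat_lit 10) (nat_lit 8))
    (@En.n l1865 (nat_lit 6729) (nat_lit 1) (nat_lit 5))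
    (@En.n l25555 (nat_lit 8494) (nat_lit 11) (nat_lit 9))
    (@En.i (nat_lit 6825) (nat_lit 6) (nat_lit 12))
    (@En.n l5386 (nat_lit 6825) (nat_lit 7) (nat_lit 9))
    (@En.i (nat_lit 10486) (nat_lit 12) (nat_lit 9))
    (@En.i (nat_lit 6822) (nat_lit 13) (nat_lit 11))
    (@En.n l1769 (nat_lit 6826) (nat_lit 15) (nat_lit 3))
    (@En.n l12944 (nat_lit 1460) (nat_lit 0) (nat_lit 8))
    (@En.n l27799 (nat_lit 6818) (nat_lit 15) (nat_lit 3))))
  (@Cl.mk (nat_lit 0x2000d0009000800030009000c0008000b00070004000800070005000e0008) (nat_lit 0xa41015690050036) (nat_lit 16) Lb.e (@T16.mk En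
    (@En.n l936 (nat_lit 6822) (nat_lit 4) (nat_lit 8))
    (@En.n l7165 (nat_lit 7492) (nat_lit 1) (nat_lit 14))
    (@En.i (nat_lit 2890) (nat_lit 2) (nat_lit 5))
    (@En.n l17 (nat_lit 6825) (nat_lit 3) (nat_lit 7))
    (@En.i (nat_lit 6699) (nat_lit 4) (nat_lit 8))
    (@En.n l1865 (nat_lit 6722) (nat_lit 5) (nat_lit 4))
    (@En.n l33556 (nat_lit 6435) (nat_lit 6) (nat_lit 7))
    (@En.n l17617 (nat_lit 13992) (nat_lit 7) (nat_lit 11))
    (@En.i (nat_lit 12054) (nat_lit 13) (nat_lit 8))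
    (@En.n l10326 (nat_lit 6901) (nat_lit 6) (nat_lit 12))
    (@En.n l29099 (nat_lit 1459) (nat_lit 11) (nat_lit 9))
    (@En.n l33557 (nat_lit 6817) (nat_lit 11) (nat_lit 3))
    (@En.n l33558 (nat_lit 5217) (nat_lit 0) (nat_lit 8))
    (@En.n l19733 (nat_lit 5080) (nat_lit 14) (nat_lit 9))
    (@En.i (nat_lit 8403) (nat_lit 2) (nat_lit 13))
    (@En.n l28 (nat_lit 6824) (nat_lit 15) (nat_lit 2))))
  (@Cl.mk (nat_lit 0x2000d0008000d000300090003000c0009000c0008000400070004000e0007) (nat_lit 0x95101067a400020) (nat_lit 16) Lb.e (@T16.mk En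
    (@En.n l936 (nat_lit 6823) (nat_lit 4) (nat_lit 7))
    (@En.n l7165 (nat_lit 7495) (nat_lit 1) (nat_lit 14))
    (@En.i (nat_lit 2883) (nat_lit 2) (nat_lit 4))
    (@En.i (nat_lit 6704) (nat_lit 11) (nat_lit 7))
    (@En.n l1865 (nat_lit 6730) (nat_lit 4) (nat_lit 4))
    (@En.i (nat_lit 6432) (nat_lit 5) (nat_lit 8))
    (@En.n l3866 (nat_lit 13990) (nat_lit 6) (nat_lit 12))
    (@En.i (nat_lit 10484) (nat_lit 14) (nat_lit 9))
    (@En.i (nat_lit 6824) (nat_lit 9) (nat_lit 12))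
    (@En.i (nat_lit 6828) (nat_lit 9) (nat_lit 3))
    (@En.i (nat_lit 1457) (nat_lit 11) (nat_lit 9))
    (@En.n l5389 (nat_lit 6819) (nat_lit 11) (nat_lit 3))
    (@En.n l5390 (nat_lit 2399) (nat_lit 0) (nat_lit 13))
    (@En.i (nat_lit 5082) (nat_lit 14) (nat_lit 8))
    (@En.i (nat_lit 9686) (nat_lit 2) (nat_lit 13))
    (@En.n l28 (nat_lit 6825) (nat_lit 15) (nat_lit 2))))
  (@Cl.mk (nat_lit 0x3000b00090009000c000900050009000400070007000c0007000d00070004) (nat_lit 0x600070300090100) (nat_lit 16) Lb.e (@T16.mk En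
    (@En.n l36718 (nat_lit 3461) (nat_lit 0) (nat_lit 4))
    (@En.n l36719 (nat_lit 6822) (nat_lit 0) (nat_lit 7))
    (@En.n l36720 (nat_lit 2456) (nat_lit 1) (nat_lit 13))
    (@En.n l36721 (nat_lit 5084) (nat_lit 3) (nat_lit 7))
    (@En.n l36715 (nat_lit 9674) (nat_lit 13) (nat_lit 12))
    (@En.n l36722 (nat_lit 6829) (nat_lit 9) (nat_lit 7))
    (@En.n l36723 (nat_lit 6574) (nat_lit 11) (nat_lit 7))
    (@En.n l15399 (nat_lit 2880) (nat_lit 7) (nat_lit 4))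
    (@En.n l28856 (nat_lit 6654) (nat_lit 0) (nat_lit 9))
    (@En.n l14067 (nat_lit 6686) (nat_lit 1) (nat_lit 5))
    (@En.n l9304 (nat_lit 8495) (nat_lit 11) (nat_lit 9))
    (@En.n l936 (nat_lit 6828) (nat_lit 6) (nat_lit 12))
    (@En.n l55 (nat_lit 6828) (nat_lit 7) (nat_lit 9))
    (@En.i (nat_lit 10439) (nat_lit 14) (nat_lit 9))
    (@En.n l35830 (nat_lit 6831) (nat_lit 14) (nat_lit 11))
    (@En.n l36724 (nat_lit 6823) (nat_lit 13) (nat_lit 3))))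
  (@Cl.mk (nat_lit 0x2000c000a0006000900040007000d0006000d000300070003000a000e0009) (nat_lit 0x110600a02000611) (nat_lit 16) Lb.e (@T16.mk En
    (@En.n l18863 (nat_lit 6823) (nat_lit 11) (nat_lit 9))
    (@En.i (nat_lit 4713) (nat_lit 1) (nat_lit 14))
    (@En.n l18864 (nat_lit 6842) (nat_lit 2) (nat_lit 10))
    (@En.n l1430 (nat_lit 6829) (nat_lit 3) (nat_lit 3))
    (@En.n l387 (nat_lit 2001) (nat_lit 0) (nat_lit 7))
    (@En.i (nat_lit 6821) (nat_lit 5) (nat_lit 3))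
    (@En.i (nat_lit 2455) (nat_lit 0) (nat_lit 13))
    (@En.n l2678 (nat_lit 5087) (nat_lit 7) (nat_lit 6))
    (@En.n l3815 (nat_lit 9282) (nat_lit 9) (nat_lit 13))
    (@En.n l810 (nat_lit 7291) (nat_lit 11) (nat_lit 7))
    (@En.n l28 (nat_lit 4448) (nat_lit 10) (nat_lit 4))
    (@En.i (nat_lit 6856) (nat_lit 12) (nat_lit 9))
    (@En.n l590 (nat_lit 6738) (nat_lit 13) (nat_lit 6))
    (@En.i (nat_lit 2623) (nat_lit 14) (nat_lit 10))
    (@En.n l8351 (nat_lit 6823) (nat_lit 9) (nat_lit 12))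
    (@En.n l3 (nat_lit 6827) (nat_lit 15) (nat_lit 2))))
  (@Cl.mk (nat_lit 0x2000c0008000d000800040003000c0009000c0008000400080004000e0007) (nat_lit 0x94120067a603020) (nat_lit 16) Lb.e (@T16.mk En
    (@En.i (nat_lit 6826) (nat_lit 6) (nat_lit 7))
    (@En.n l7165 (nat_lit 7496) (nat_lit 1) (nat_lit 14))
    (@En.i (nat_lit 2881) (nat_lit 2) (nat_lit 4))
    (@En.i (nat_lit 6681) (nat_lit 3) (nat_lit 8))
    (@En.n l1865 (nat_lit 6685) (nat_lit 4) (nat_lit 4))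
    (@En.n l10818 (nat_lit 6433) (nat_lit 5) (nat_lit 8))
    (@En.n l20667 (nat_lit 13991) (nat_lit 6) (nat_lit 12))
    (@En.i (nat_lit 10438) (nat_lit 14) (nat_lit 9))
    (@En.n l10326 (nat_lit 6836) (nat_lit 9) (nat_lit 12))
    (@En.n l18 (nat_lit 6825) (nat_lit 9) (nat_lit 3))
    (@En.n l10818 (nat_lit 3459) (nat_lit 10) (nat_lit 4))
    (@En.n l61 (nat_lit 6824) (nat_lit 12) (nat_lit 8))
    (@En.n l15223 (nat_lit 2403) (nat_lit 13) (nat_lit 13))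
    (@En.n l18565 (nat_lit 5085) (nat_lit 14) (nat_lit 8))
    (@En.i (nat_lit 9673) (nat_lit 3) (nat_lit 12))
    (@En.n l28 (nat_lit 6828) (nat_lit 15) (nat_lit 2))))
  (@Cl.mk (nat_lit 0x2000c000a0006000a00040007000c0006000d000600040003000a000e0009) (nat_lit 0x110300902000631) (nat_lit 16) Lb.e (@T16.mk En
    (@En.n l24514 (nat_lit 6826) (nat_lit 13) (nat_lit 9))
    (@En.n l564 (nat_lit 4709) (nat_lit 1) (nat_lit 14))
    (@En.n l3506 (nat_lit 6837) (nat_lit 2) (nat_lit 10))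
    (@En.n l1684 (nat_lit 6827) (nat_lit 3) (nat_lit 3))
    (@En.n l4847 (nat_lit 3463) (nat_lit 0) (nat_lit 4))
    (@En.n l1597 (nat_lit 6842) (nat_lit 5) (nat_lit 6))
    (@En.n l8145 (nat_lit 2454) (nat_lit 7) (nat_lit 13))
    (@En.n l538 (nat_lit 5088) (nat_lit 7) (nat_lit 6))
    (@En.i (nat_lit 9285) (nat_lit 9) (nat_lit 12))
    (@En.n l10976 (nat_lit 7292) (nat_lit 11) (nat_lit 7))
    (@En.n l13355 (nat_lit 2851) (nat_lit 10) (nat_lit 4))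
    (@En.i (nat_lit 6689) (nat_lit 12) (nat_lit 10))
    (@En.n l13446 (nat_lit 6740) (nat_lit 13) (nat_lit 6))
    (@En.n l3866 (nat_lit 2625) (nat_lit 14) (nat_lit 10))
    (@En.n l15625 (nat_lit 6826) (nat_lit 11) (nat_lit 12))
    (@En.n l18 (nat_lit 6829) (nat_lit 15) (nat_lit 2))))
  (@Cl.mk (nat_lit 0x2000b00080008000b00080005000b000900050008000800050008000e0007) (nat_lit 0x500010540560110) (nat_lit 16) Lb.e (@T16.mk En
    (@En.n l40313 (nat_lit 5285) (nat_lit 6) (nat_lit 7))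
    (@En.n l43186 (nat_lit 1639) (nat_lit 1) (nat_lit 14))
    (@En.n l43187 (nat_lit 3181) (nat_lit 10) (nat_lit 8))
    (@En.i (nat_lit 8385) (nat_lit 3) (nat_lit 5))
    (@En.n l17 (nat_lit 6947) (nat_lit 4) (nat_lit 8))
    (@En.n l26699 (nat_lit 6950) (nat_lit 10) (nat_lit 8))
    (@En.n l40881 (nat_lit 1194) (nat_lit 6) (nat_lit 5))
    (@En.n l15625 (nat_lit 6826) (nat_lit 8) (nat_lit 9))
    (@En.i (nat_lit 6941) (nat_lit 9) (nat_lit 11))
    (@En.n l1504 (nat_lit 6944) (nat_lit 9) (nat_lit 5))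
    (@En.n l43188 (nat_lit 2025) (nat_lit 11) (nat_lit 8))
    (@En.n l20114 (nat_lit 6940) (nat_lit 7) (nat_lit 11))
    (@En.n l43189 (nat_lit 6940) (nat_lit 8) (nat_lit 8))
    (@En.n l43190 (nat_lit 11280) (nat_lit 14) (nat_lit 8))
    (@En.n l43191 (nat_lit 2091) (nat_lit 4) (nat_lit 11))
    (@En.n l28 (nat_lit 6830) (nat_lit 15) (nat_lit 2))))
  (@Cl.mk (nat_lit 0x4000b00080008000b0008000500090009000500080008000c000800070007) (nat_lit 0x512040670566300) (nat_lit 16) Lb.e (@T16.mk En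
    (@En.n l40310 (nat_lit 6902) (nat_lit 9) (nat_lit 7))
    (@En.n l26696 (nat_lit 5427) (nat_lit 9) (nat_lit 7))
    (@En.n l27449 (nat_lit 3180) (nat_lit 8) (nat_lit 8))
    (@En.n l17617 (nat_lit 6813) (nat_lit 7) (nat_lit 12))
    (@En.n l17 (nat_lit 6837) (nat_lit 8) (nat_lit 8))
    (@En.n l26696 (nat_lit 6543) (nat_lit 10) (nat_lit 8))
    (@En.n l936 (nat_lit 5420) (nat_lit 6) (nat_lit 5))
    (@En.n l55 (nat_lit 6834) (nat_lit 7) (nat_lit 9))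
    (@En.i (nat_lit 6692) (nat_lit 10) (nat_lit 9))
    (@En.n l4893 (nat_lit 6598) (nat_lit 2) (nat_lit 5))
    (@En.n l11419 (nat_lit 5352) (nat_lit 0) (nat_lit 8))
    (@En.n l40311 (nat_lit 6836) (nat_lit 7) (nat_lit 11))
    (@En.n l40312 (nat_lit 6836) (nat_lit 8) (nat_lit 8))
    (@En.n l5770 (nat_lit 6280) (nat_lit 14) (nat_lit 8))
    (@En.n l40313 (nat_lit 5285) (nat_lit 4) (nat_lit 11))
    (@En.n l35910 (nat_lit 6643) (nat_lit 15) (nat_lit 4))))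
noncomputable def a427 : T16 Cl := @T16.mk Cl
  (@Cl.mk (nat_lit 0x20005000a000e00090002000c000a0006000a00040007000b0006000e0006) (nat_lit 0x612003070050b0) (nat_lit 16) Lb.e (@T16.mk En
    (@En.i (nat_lit 6837) (nat_lit 5) (nat_lit 6))
    (@En.n l2038 (nat_lit 6838) (nat_lit 1) (nat_lit 14))
    (@En.i (nat_lit 3178) (nat_lit 2) (nat_lit 6))
    (@En.i (nat_lit 6203) (nat_lit 3) (nat_lit 11))
    (@En.i (nat_lit 7012) (nat_lit 4) (nat_lit 7))
    (@En.i (nat_lit 1457) (nat_lit 5) (nat_lit 4))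
    (@En.i (nat_lit 6688) (nat_lit 12) (nat_lit 10))
    (@En.n l1504 (nat_lit 6955) (nat_lit 7) (nat_lit 6))
    (@En.n l3866 (nat_lit 7181) (nat_lit 9) (nat_lit 10))
    (@En.i (nat_lit 6834) (nat_lit 10) (nat_lit 12))
    (@En.n l18 (nat_lit 6832) (nat_lit 10) (nat_lit 2))
    (@En.n l5 (nat_lit 6834) (nat_lit 12) (nat_lit 9))
    (@En.n l3082 (nat_lit 1923) (nat_lit 13) (nat_lit 14))
    (@En.i (nat_lit 6947) (nat_lit 14) (nat_lit 10))
    (@En.i (nat_lit 6929) (nat_lit 13) (nat_lit 5))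
    (@En.n l28 (nat_lit 6832) (nat_lit 15) (nat_lit 2))))
  (@Cl.mk (nat_lit 0x20005000c0009000c0008000400080004000e00070002000b0008000e0008) (nat_lit 0x61930507007495) (nat_lit 16) Lb.e (@T16.mk En
    (@En.n l33210 (nat_lit 6836) (nat_lit 12) (nat_lit 8))
    (@En.n l7664 (nat_lit 6839) (nat_lit 1) (nat_lit 14))
    (@En.n l33211 (nat_lit 3179) (nat_lit 14) (nat_lit 8))
    (@En.n l33212 (nat_lit 6209) (nat_lit 3) (nat_lit 11))
    (@En.n l28 (nat_lit 6833) (nat_lit 4) (nat_lit 2))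
    (@En.n l21766 (nat_lit 6834) (nat_lit 5) (nat_lit 7))
    (@En.n l3519 (nat_lit 8064) (nat_lit 7) (nat_lit 14))
    (@En.n l6147 (nat_lit 1463) (nat_lit 7) (nat_lit 4))
    (@En.n l28859 (nat_lit 6679) (nat_lit 3) (nat_lit 8))
    (@En.n l17877 (nat_lit 6607) (nat_lit 9) (nat_lit 4))
    (@En.n l3153 (nat_lit 5351) (nat_lit 11) (nat_lit 8))
    (@En.n l33211 (nat_lit 13964) (nat_lit 6) (nat_lit 12))
    (@En.n l33213 (nat_lit 6277) (nat_lit 13) (nat_lit 9))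
    (@En.n l33214 (nat_lit 6940) (nat_lit 9) (nat_lit 12))
    (@En.n l33215 (nat_lit 6933) (nat_lit 13) (nat_lit 5))
    (@En.n l17 (nat_lit 6833) (nat_lit 15) (nat_lit 2))))
  (@Cl.mk (nat_lit 0x20005000b00090009000c000900050009000400070007000b0007000e0007) (nat_lit 0x612a10600060b0) (nat_lit 16) Lb.e (@T16.mk En
    (@En.i (nat_lit 6831) (nat_lit 1) (nat_lit 7))
    (@En.n l2038 (nat_lit 6835) (nat_lit 1) (nat_lit 14))
    (@En.n l20615 (nat_lit 3177) (nat_lit 2) (nat_lit 7))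
    (@En.n l17617 (nat_lit 6208) (nat_lit 3) (nat_lit 11))
    (@En.n l17 (nat_lit 6832) (nat_lit 4) (nat_lit 7))
    (@En.i (nat_lit 7011) (nat_lit 5) (nat_lit 7))
    (@En.n l29099 (nat_lit 1459) (nat_lit 6) (nat_lit 4))
    (@En.i (nat_lit 6680) (nat_lit 8) (nat_lit 9))
    (@En.n l1504 (nat_lit 6606) (nat_lit 8) (nat_lit 5))
    (@En.n l11419 (nat_lit 5357) (nat_lit 10) (nat_lit 9))
    (@En.n l30078 (nat_lit 6833) (nat_lit 11) (nat_lit 12))
    (@En.n l30079 (nat_lit 6833) (nat_lit 12) (nat_lit 9))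
    (@En.n l29099 (nat_lit 6275) (nat_lit 13) (nat_lit 9))
    (@En.i (nat_lit 6830) (nat_lit 14) (nat_lit 11))
    (@En.n l11419 (nat_lit 6930) (nat_lit 13) (nat_lit 5))
    (@En.n l28 (nat_lit 6834) (nat_lit 15) (nat_lit 2))))
  (@Cl.mk (nat_lit 0x2000a0005000b00090009000c00060005000a000400070007000b000e0006) (nat_lit 0x3061280060003a0) (nat_lit 16) Lb.e (@T16.mk En
    (@En.n l117 (nat_lit 6840) (nat_lit 2) (nat_lit 6))
    (@En.n l3390 (nat_lit 7139) (nat_lit 4) (nat_lit 14))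
    (@En.n l2568 (nat_lit 6206) (nat_lit 2) (nat_lit 11))
    (@En.n l17 (nat_lit 6838) (nat_lit 3) (nat_lit 7))
    (@En.i (nat_lit 7010) (nat_lit 11) (nat_lit 7))
    (@En.n l30074 (nat_lit 1461) (nat_lit 5) (nat_lit 4))
    (@En.n l810 (nat_lit 5395) (nat_lit 0) (nat_lit 10))
    (@En.n l77 (nat_lit 6597) (nat_lit 7) (nat_lit 5))
    (@En.n l9093 (nat_lit 9314) (nat_lit 8) (nat_lit 6))
    (@En.n l4106 (nat_lit 6839) (nat_lit 10) (nat_lit 12))
    (@En.n l30075 (nat_lit 6839) (nat_lit 11) (nat_lit 9))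
    (@En.n l30074 (nat_lit 6274) (nat_lit 12) (nat_lit 9))
    (@En.n l30076 (nat_lit 1639) (nat_lit 13) (nat_lit 11))
    (@En.n l1599 (nat_lit 6834) (nat_lit 14) (nat_lit 5))
    (@En.n l810 (nat_lit 5420) (nat_lit 0) (nat_lit 10))
    (@En.n l11 (nat_lit 6835) (nat_lit 15) (nat_lit 2))))
  (@Cl.mk (nat_lit 0x2000c0009000800080004000c0008000b00070004000800080005000e0008) (nat_lit 0x744205190056086) (nat_lit 16) Lb.e (@T16.mk En
    (@En.n l26428 (nat_lit 6831) (nat_lit 5) (nat_lit 8))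
    (@En.n l97 (nat_lit 6587) (nat_lit 1) (nat_lit 14))
    (@En.n l211 (nat_lit 6916) (nat_lit 2) (nat_lit 5))
    (@En.n l23049 (nat_lit 6833) (nat_lit 8) (nat_lit 8))
    (@En.n l23049 (nat_lit 6682) (nat_lit 4) (nat_lit 8))
    (@En.n l764 (nat_lit 6605) (nat_lit 5) (nat_lit 4))
    (@En.n l1643 (nat_lit 5349) (nat_lit 6) (nat_lit 7))
    (@En.i (nat_lit 12875) (nat_lit 7) (nat_lit 11))
    (@En.n l26898 (nat_lit 6278) (nat_lit 9) (nat_lit 8))
    (@En.n l32933 (nat_lit 6517) (nat_lit 10) (nat_lit 12))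
    (@En.n l33820 (nat_lit 6644) (nat_lit 10) (nat_lit 4))
    (@En.n l61 (nat_lit 6901) (nat_lit 8) (nat_lit 8))
    (@En.n l25672 (nat_lit 6912) (nat_lit 13) (nat_lit 8))
    (@En.n l11084 (nat_lit 4964) (nat_lit 14) (nat_lit 9))
    (@En.n l16912 (nat_lit 6812) (nat_lit 3) (nat_lit 12))
    (@En.n l107 (nat_lit 6836) (nat_lit 15) (nat_lit 2))))
  (@Cl.mk (nat_lit 0x2000b00090006000a000a00050008000c0007000600060004000a000e0008) (nat_lit 0x130780550000582) (nat_lit 16) Lb.e (@T16.mk En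
    (@En.n l5 (nat_lit 6831) (nat_lit 13) (nat_lit 8))
    (@En.n l5760 (nat_lit 6806) (nat_lit 1) (nat_lit 14))
    (@En.n l4770 (nat_lit 5284) (nat_lit 2) (nat_lit 10))
    (@En.n l2040 (nat_lit 6645) (nat_lit 3) (nat_lit 4))
    (@En.n l5759 (nat_lit 6904) (nat_lit 10) (nat_lit 6))
    (@En.n l5760 (nat_lit 5426) (nat_lit 5) (nat_lit 6))
    (@En.i (nat_lit 3186) (nat_lit 6) (nat_lit 7))
    (@En.i (nat_lit 6162) (nat_lit 8) (nat_lit 12))
    (@En.n l5760 (nat_lit 7016) (nat_lit 10) (nat_lit 8))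
    (@En.n l936 (nat_lit 5419) (nat_lit 9) (nat_lit 5))
    (@En.n l55 (nat_lit 6832) (nat_lit 6) (nat_lit 10))
    (@En.i (nat_lit 6690) (nat_lit 12) (nat_lit 10))
    (@En.n l4893 (nat_lit 6954) (nat_lit 13) (nat_lit 6))
    (@En.n l3866 (nat_lit 7180) (nat_lit 14) (nat_lit 9))
    (@En.i (nat_lit 6831) (nat_lit 11) (nat_lit 11))
    (@En.n l18 (nat_lit 6837) (nat_lit 15) (nat_lit 2))))
  (@Cl.mk (nat_lit 0x200090005000a000e00090002000c00070006000b00040007000b000e0005) (nat_lit 0x4066209003002a0) (nat_lit 16) Lb.e (@T16.mk En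
    (@En.n l117 (nat_lit 6841) (nat_lit 6) (nat_lit 5))
    (@En.i (nat_lit 7140) (nat_lit 4) (nat_lit 14))
    (@En.n l2568 (nat_lit 6204) (nat_lit 2) (nat_lit 11))
    (@En.i (nat_lit 5508) (nat_lit 3) (nat_lit 7))
    (@En.n l2576 (nat_lit 1458) (nat_lit 4) (nat_lit 4))
    (@En.n l810 (nat_lit 5398) (nat_lit 12) (nat_lit 11))
    (@En.n l77 (nat_lit 6956) (nat_lit 6) (nat_lit 6))
    (@En.i (nat_lit 9530) (nat_lit 14) (nat_lit 7))
    (@En.i (nat_lit 6835) (nat_lit 9) (nat_lit 12))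
    (@En.n l18 (nat_lit 6838) (nat_lit 9) (nat_lit 2))
    (@En.n l5 (nat_lit 6835) (nat_lit 11) (nat_lit 9))
    (@En.i (nat_lit 5345) (nat_lit 12) (nat_lit 14))
    (@En.n l7983 (nat_lit 1642) (nat_lit 13) (nat_lit 10))
    (@En.n l1599 (nat_lit 6832) (nat_lit 14) (nat_lit 5))
    (@En.n l810 (nat_lit 5419) (nat_lit 4) (nat_lit 9))
    (@En.n l11 (nat_lit 6838) (nat_lit 15) (nat_lit 2))))
  (@Cl.mk (nat_lit 0x2000b0005000c0009000c0005000400090004000e00070002000b000e0007) (nat_lit 0x406170030400480) (nat_lit 16) Lb.e (@T16.mk En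
    (@En.n l18043 (nat_lit 6898) (nat_lit 13) (nat_lit 7))
    (@En.i (nat_lit 7141) (nat_lit 4) (nat_lit 14))
    (@En.n l18044 (nat_lit 6210) (nat_lit 2) (nat_lit 11))
    (@En.n l3 (nat_lit 6839) (nat_lit 3) (nat_lit 2))
    (@En.n l18045 (nat_lit 6835) (nat_lit 4) (nat_lit 7))
    (@En.n l3870 (nat_lit 8063) (nat_lit 1) (nat_lit 14))
    (@En.n l18046 (nat_lit 1465) (nat_lit 6) (nat_lit 4))
    (@En.n l3806 (nat_lit 6678) (nat_lit 3) (nat_lit 9))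
    (@En.i (nat_lit 6601) (nat_lit 4) (nat_lit 4))
    (@En.n l18047 (nat_lit 9309) (nat_lit 5) (nat_lit 5))
    (@En.n l3513 (nat_lit 13961) (nat_lit 6) (nat_lit 12))
    (@En.n l3806 (nat_lit 6272) (nat_lit 12) (nat_lit 9))
    (@En.n l18048 (nat_lit 1641) (nat_lit 9) (nat_lit 12))
    (@En.n l18049 (nat_lit 6833) (nat_lit 14) (nat_lit 5))
    (@En.n l18050 (nat_lit 6916) (nat_lit 11) (nat_lit 11))
    (@En.n l17 (nat_lit 6839) (nat_lit 15) (nat_lit 2))))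
  (@Cl.mk (nat_lit 0x4000b00080008000b00060005000a000a000500080008000c00060006000a) (nat_lit 0x512700170566002) (nat_lit 16) Lb.e (@T16.mk En
    (@En.n l36655 (nat_lit 5423) (nat_lit 9) (nat_lit 10))
    (@En.n l7126 (nat_lit 6899) (nat_lit 10) (nat_lit 6))
    (@En.n l36656 (nat_lit 6555) (nat_lit 8) (nat_lit 6))
    (@En.n l36657 (nat_lit 8802) (nat_lit 7) (nat_lit 12))
    (@En.n l17 (nat_lit 6841) (nat_lit 8) (nat_lit 8))
    (@En.n l36658 (nat_lit 6446) (nat_lit 10) (nat_lit 8))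
    (@En.n l10138 (nat_lit 6936) (nat_lit 6) (nat_lit 5))
    (@En.n l619 (nat_lit 6835) (nat_lit 6) (nat_lit 10))
    (@En.i (nat_lit 5388) (nat_lit 1) (nat_lit 10))
    (@En.n l77 (nat_lit 6592) (nat_lit 11) (nat_lit 5))
    (@En.n l36657 (nat_lit 9313) (nat_lit 0) (nat_lit 6))
    (@En.n l36659 (nat_lit 6898) (nat_lit 7) (nat_lit 11))
    (@En.n l36660 (nat_lit 6898) (nat_lit 8) (nat_lit 8))
    (@En.n l36655 (nat_lit 6271) (nat_lit 14) (nat_lit 8))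
    (@En.n l30785 (nat_lit 1643) (nat_lit 3) (nat_lit 11))
    (@En.n l1836 (nat_lit 6831) (nat_lit 15) (nat_lit 4))))
  (@Cl.mk (nat_lit 0x2000b00070006000b000b00050008000c0005000500090004000a000e0008) (nat_lit 0x800140550020582) (nat_lit 16) Lb.e (@T16.mk En
    (@En.n l5 (nat_lit 6840) (nat_lit 13) (nat_lit 8))
    (@En.n l6825 (nat_lit 5114) (nat_lit 1) (nat_lit 14))
    (@En.n l12066 (nat_lit 1647) (nat_lit 2) (nat_lit 10))
    (@En.n l1836 (nat_lit 6837) (nat_lit 3) (nat_lit 4))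
    (@En.n l12583 (nat_lit 5422) (nat_lit 4) (nat_lit 9))
    (@En.n l7126 (nat_lit 6903) (nat_lit 11) (nat_lit 5))
    (@En.n l24512 (nat_lit 6557) (nat_lit 6) (nat_lit 5))
    (@En.n l639 (nat_lit 6169) (nat_lit 8) (nat_lit 12))
    (@En.n l6825 (nat_lit 7024) (nat_lit 10) (nat_lit 8))
    (@En.n l10138 (nat_lit 6937) (nat_lit 9) (nat_lit 5))
    (@En.n l619 (nat_lit 6838) (nat_lit 5) (nat_lit 11))
    (@En.i (nat_lit 5389) (nat_lit 12) (nat_lit 11))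
    (@En.n l77 (nat_lit 6595) (nat_lit 13) (nat_lit 6))
    (@En.n l24513 (nat_lit 9517) (nat_lit 14) (nat_lit 7))
    (@En.i (nat_lit 6840) (nat_lit 11) (nat_lit 11))
    (@En.n l18 (nat_lit 6841) (nat_lit 15) (nat_lit 2))))
  (@Cl.mk (nat_lit 0x2000b00090006000a000900050008000d0007000600030007000a000e0008) (nat_lit 0x1108706b0000551) (nat_lit 16) Lb.e (@T16.mk En
    (@En.n l29777 (nat_lit 6822) (nat_lit 12) (nat_lit 8))
    (@En.i (nat_lit 11422) (nat_lit 1) (nat_lit 14))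
    (@En.n l27330 (nat_lit 6904) (nat_lit 8) (nat_lit 10))
    (@En.n l20187 (nat_lit 2000) (nat_lit 3) (nat_lit 7))
    (@En.n l13686 (nat_lit 6820) (nat_lit 4) (nat_lit 3))
    (@En.n l18 (nat_lit 5209) (nat_lit 0) (nat_lit 6))
    (@En.n l12062 (nat_lit 5086) (nat_lit 6) (nat_lit 7))
    (@En.n l3 (nat_lit 9281) (nat_lit 8) (nat_lit 13))
    (@En.i (nat_lit 7293) (nat_lit 10) (nat_lit 8))
    (@En.n l2676 (nat_lit 5288) (nat_lit 9) (nat_lit 5))
    (@En.n l23504 (nat_lit 6827) (nat_lit 11) (nat_lit 9))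
    (@En.n l11723 (nat_lit 6691) (nat_lit 12) (nat_lit 10))
    (@En.n l15152 (nat_lit 6728) (nat_lit 13) (nat_lit 6))
    (@En.n l23501 (nat_lit 2624) (nat_lit 14) (nat_lit 9))
    (@En.n l29778 (nat_lit 6822) (nat_lit 10) (nat_lit 11))
    (@En.n l11 (nat_lit 6842) (nat_lit 15) (nat_lit 2))))
  (@Cl.mk (nat_lit 0x40008000b00090006000a000900050009000800070006000c0007000a0007) (nat_lit 0x132004006000030) (nat_lit 16) Lb.e (@T16.mk En
    (@En.n l41122 (nat_lit 10623) (nat_lit 0) (nat_lit 7))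
    (@En.n l42487 (nat_lit 8136) (nat_lit 8) (nat_lit 10))
    (@En.n l4086 (nat_lit 1997) (nat_lit 1) (nat_lit 7))
    (@En.n l42488 (nat_lit 9727) (nat_lit 3) (nat_lit 12))
    (@En.n l17159 (nat_lit 10669) (nat_lit 10) (nat_lit 6))
    (@En.n l35051 (nat_lit 10133) (nat_lit 9) (nat_lit 7))
    (@En.n l17 (nat_lit 6844) (nat_lit 8) (nat_lit 8))
    (@En.n l11547 (nat_lit 6853) (nat_lit 10) (nat_lit 9))
    (@En.n l936 (nat_lit 9812) (nat_lit 8) (nat_lit 5))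
    (@En.n l38279 (nat_lit 6847) (nat_lit 7) (nat_lit 9))
    (@En.i (nat_lit 8501) (nat_lit 9) (nat_lit 10))
    (@En.n l42489 (nat_lit 8830) (nat_lit 2) (nat_lit 6))
    (@En.n l42490 (nat_lit 6812) (nat_lit 7) (nat_lit 9))
    (@En.n l17407 (nat_lit 9637) (nat_lit 7) (nat_lit 11))
    (@En.n l42491 (nat_lit 6822) (nat_lit 11) (nat_lit 8))
    (@En.n l42488 (nat_lit 9427) (nat_lit 15) (nat_lit 4))))
  (@Cl.mk (nat_lit 0x3000b000a0007000b000a0005000800060005000c00060009000d00040008) (nat_lit 0x430040500006302) (nat_lit 16) Lb.e (@T16.mk En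
    (@En.n l1597 (nat_lit 6842) (nat_lit 0) (nat_lit 8))
    (@En.n l3506 (nat_lit 9428) (nat_lit 15) (nat_lit 4))
    (@En.n l564 (nat_lit 10135) (nat_lit 0) (nat_lit 13))
    (@En.n l3506 (nat_lit 8135) (nat_lit 9) (nat_lit 9))
    (@En.i (nat_lit 1993) (nat_lit 4) (nat_lit 6))
    (@En.n l644 (nat_lit 9728) (nat_lit 3) (nat_lit 12))
    (@En.n l17159 (nat_lit 10662) (nat_lit 6) (nat_lit 5))
    (@En.i (nat_lit 8364) (nat_lit 7) (nat_lit 6))
    (@En.n l4538 (nat_lit 7298) (nat_lit 10) (nat_lit 8))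
    (@En.n l936 (nat_lit 9813) (nat_lit 9) (nat_lit 5))
    (@En.n l38279 (nat_lit 6845) (nat_lit 6) (nat_lit 10))
    (@En.i (nat_lit 8502) (nat_lit 12) (nat_lit 11))
    (@En.n l564 (nat_lit 8465) (nat_lit 13) (nat_lit 7))
    (@En.n l3866 (nat_lit 6218) (nat_lit 6) (nat_lit 10))
    (@En.i (nat_lit 6843) (nat_lit 13) (nat_lit 11))
    (@En.i (nat_lit 6846) (nat_lit 15) (nat_lit 3))))
  (@Cl.mk (nat_lit 0x30009000d000500090003000c000b0007000a000400070005000d000b0006) (nat_lit 0x740204303000400) (nat_lit 16) Lb.e (@T16.mk En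
    (@En.n l1075 (nat_lit 3189) (nat_lit 0) (nat_lit 6))
    (@En.n l1073 (nat_lit 8883) (nat_lit 12) (nat_lit 11))
    (@En.n l21855 (nat_lit 12210) (nat_lit 2) (nat_lit 13))
    (@En.n l2364 (nat_lit 8360) (nat_lit 3) (nat_lit 5))
    (@En.n l9943 (nat_lit 7297) (nat_lit 11) (nat_lit 7))
    (@En.i (nat_lit 10514) (nat_lit 5) (nat_lit 4))
    (@En.n l1073 (nat_lit 10221) (nat_lit 8) (nat_lit 10))
    (@En.n l3532 (nat_lit 8462) (nat_lit 1) (nat_lit 7))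
    (@En.n l6444 (nat_lit 6217) (nat_lit 9) (nat_lit 11))
    (@En.i (nat_lit 6847) (nat_lit 10) (nat_lit 12))
    (@En.n l22682 (nat_lit 6848) (nat_lit 10) (nat_lit 3))
    (@En.n l1897 (nat_lit 6827) (nat_lit 0) (nat_lit 9))
    (@En.n l16338 (nat_lit 9712) (nat_lit 6) (nat_lit 5))
    (@En.i (nat_lit 8851) (nat_lit 6) (nat_lit 13))
    (@En.n l22683 (nat_lit 6844) (nat_lit 3) (nat_lit 9))
    (@En.n l22684 (nat_lit 6849) (nat_lit 15) (nat_lit 3))))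
  (@Cl.mk (nat_lit 0x3000b000a0007000b000a0005000900060005000b00060009000d00070005) (nat_lit 0x910070000006300) (nat_lit 16) Lb.e (@T16.mk En
    (@En.n l40206 (nat_lit 7471) (nat_lit 0) (nat_lit 5))
    (@En.n l61 (nat_lit 6843) (nat_lit 0) (nat_lit 7))
    (@En.n l564 (nat_lit 10136) (nat_lit 6) (nat_lit 13))
    (@En.n l3506 (nat_lit 8134) (nat_lit 9) (nat_lit 9))
    (@En.n l137 (nat_lit 1994) (nat_lit 4) (nat_lit 6))
    (@En.n l40201 (nat_lit 8885) (nat_lit 6) (nat_lit 11))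
    (@En.n l17159 (nat_lit 10665) (nat_lit 6) (nat_lit 5))
    (@En.i (nat_lit 8365) (nat_lit 7) (nat_lit 6))
    (@En.n l28237 (nat_lit 10442) (nat_lit 10) (nat_lit 9))
    (@En.n l936 (nat_lit 9814) (nat_lit 9) (nat_lit 5))
    (@En.n l14725 (nat_lit 6848) (nat_lit 6) (nat_lit 10))
    (@En.i (nat_lit 8504) (nat_lit 12) (nat_lit 11))
    (@En.n l40207 (nat_lit 8831) (nat_lit 13) (nat_lit 7))
    (@En.n l40208 (nat_lit 6153) (nat_lit 6) (nat_lit 10))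
    (@En.n l35866 (nat_lit 9641) (nat_lit 4) (nat_lit 11))
    (@En.n l18 (nat_lit 6844) (nat_lit 15) (nat_lit 3))))
  (@Cl.mk (nat_lit 0x3000a000800050009000c000a000600090004000800070006000d000b0007) (nat_lit 0x400132030000400) (nat_lit 16) Lb.e (@T16.mk En
    (@En.n l32800 (nat_lit 3190) (nat_lit 0) (nat_lit 7))
    (@En.n l1073 (nat_lit 8882) (nat_lit 11) (nat_lit 11))
    (@En.n l33709 (nat_lit 12211) (nat_lit 2) (nat_lit 13))
    (@En.n l1131 (nat_lit 10132) (nat_lit 10) (nat_lit 6))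
    (@En.n l7 (nat_lit 6845) (nat_lit 4) (nat_lit 7))
    (@En.n l38256 (nat_lit 6852) (nat_lit 5) (nat_lit 8))
    (@En.i (nat_lit 10510) (nat_lit 6) (nat_lit 4))
    (@En.n l1073 (nat_lit 8921) (nat_lit 9) (nat_lit 9))
    (@En.n l38257 (nat_lit 8464) (nat_lit 1) (nat_lit 6))
    (@En.n l18216 (nat_lit 6813) (nat_lit 10) (nat_lit 10))
    (@En.n l33709 (nat_lit 9636) (nat_lit 6) (nat_lit 12))
    (@En.n l9942 (nat_lit 6823) (nat_lit 10) (nat_lit 9))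
    (@En.n l38258 (nat_lit 9571) (nat_lit 13) (nat_lit 5))
    (@En.n l396 (nat_lit 10622) (nat_lit 14) (nat_lit 8))
    (@En.n l22683 (nat_lit 6843) (nat_lit 1) (nat_lit 10))
    (@En.n l22684 (nat_lit 6850) (nat_lit 15) (nat_lit 3))))
noncomputable def a428 : T16 Cl := @T16.mk Cl
  (@Cl.mk (nat_lit 0x30009000d000800060003000c000b0007000a000400080005000d000a0006) (nat_lit 0x74100a106000400) (nat_lit 16) Lb.e (@T16.mk En
    (@En.n l27053 (nat_lit 3188) (nat_lit 0) (nat_lit 6))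
    (@En.n l12446 (nat_lit 8880) (nat_lit 12) (nat_lit 10))
    (@En.n l27054 (nat_lit 12208) (nat_lit 2) (nat_lit 13))
    (@En.n l28 (nat_lit 8361) (nat_lit 3) (nat_lit 5))
    (@En.n l27055 (nat_lit 10444) (nat_lit 4) (nat_lit 8))
    (@En.n l27056 (nat_lit 10055) (nat_lit 5) (nat_lit 4))
    (@En.n l12446 (nat_lit 10220) (nat_lit 8) (nat_lit 10))
    (@En.n l803 (nat_lit 8463) (nat_lit 1) (nat_lit 7))
    (@En.n l77 (nat_lit 6151) (nat_lit 9) (nat_lit 11))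
    (@En.n l10491 (nat_lit 9640) (nat_lit 10) (nat_lit 12))
    (@En.n l27057 (nat_lit 6845) (nat_lit 10) (nat_lit 3))
    (@En.n l4570 (nat_lit 9449) (nat_lit 0) (nat_lit 6))
    (@En.n l27058 (nat_lit 6847) (nat_lit 13) (nat_lit 8))
    (@En.n l27059 (nat_lit 8857) (nat_lit 6) (nat_lit 13))
    (@En.n l27060 (nat_lit 6846) (nat_lit 3) (nat_lit 9))
    (@En.n l12442 (nat_lit 6851) (nat_lit 15) (nat_lit 3))))
  (@Cl.mk (nat_lit 0x30009000d000400090003000c000b0007000b000400070005000d0005000c) (nat_lit 0x730204300000400) (nat_lit 16) Lb.e (@T16.mk En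
    (@En.n l644 (nat_lit 9732) (nat_lit 0) (nat_lit 12))
    (@En.i (nat_lit 6844) (nat_lit 6) (nat_lit 5))
    (@En.n l9882 (nat_lit 12209) (nat_lit 2) (nat_lit 13))
    (@En.i (nat_lit 8362) (nat_lit 3) (nat_lit 5))
    (@En.i (nat_lit 7301) (nat_lit 11) (nat_lit 7))
    (@En.n l13355 (nat_lit 10513) (nat_lit 5) (nat_lit 4))
    (@En.i (nat_lit 10194) (nat_lit 0) (nat_lit 11))
    (@En.n l564 (nat_lit 8454) (nat_lit 1) (nat_lit 7))
    (@En.n l3866 (nat_lit 6216) (nat_lit 9) (nat_lit 11))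
    (@En.i (nat_lit 6850) (nat_lit 10) (nat_lit 12))
    (@En.i (nat_lit 6851) (nat_lit 10) (nat_lit 3))
    (@En.i (nat_lit 6829) (nat_lit 0) (nat_lit 9))
    (@En.n l3506 (nat_lit 9714) (nat_lit 6) (nat_lit 4))
    (@En.n l564 (nat_lit 8872) (nat_lit 0) (nat_lit 13))
    (@En.n l3506 (nat_lit 8138) (nat_lit 1) (nat_lit 9))
    (@En.n l3505 (nat_lit 6845) (nat_lit 15) (nat_lit 3))))
  (@Cl.mk (nat_lit 0x3000a000800040009000c000a0006000a0004000800070006000d0006000c) (nat_lit 0x400132000000500) (nat_lit 16) Lb.e (@T16.mk En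
    (@En.n l24659 (nat_lit 9731) (nat_lit 0) (nat_lit 12))
    (@En.i (nat_lit 6843) (nat_lit 4) (nat_lit 6))
    (@En.n l9882 (nat_lit 12212) (nat_lit 2) (nat_lit 13))
    (@En.n l36378 (nat_lit 8877) (nat_lit 10) (nat_lit 6))
    (@En.n l17 (nat_lit 6849) (nat_lit 4) (nat_lit 7))
    (@En.i (nat_lit 6854) (nat_lit 5) (nat_lit 8))
    (@En.n l13355 (nat_lit 10511) (nat_lit 6) (nat_lit 4))
    (@En.i (nat_lit 10195) (nat_lit 0) (nat_lit 10))
    (@En.n l564 (nat_lit 8456) (nat_lit 1) (nat_lit 6))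
    (@En.n l10040 (nat_lit 6811) (nat_lit 10) (nat_lit 10))
    (@En.n l17407 (nat_lit 9638) (nat_lit 6) (nat_lit 12))
    (@En.n l15625 (nat_lit 6826) (nat_lit 12) (nat_lit 9))
    (@En.n l41121 (nat_lit 9726) (nat_lit 15) (nat_lit 4))
    (@En.n l41122 (nat_lit 10451) (nat_lit 14) (nat_lit 8))
    (@En.n l3506 (nat_lit 8139) (nat_lit 1) (nat_lit 10))
    (@En.n l3505 (nat_lit 6847) (nat_lit 15) (nat_lit 3))))
  (@Cl.mk (nat_lit 0x30009000d000800050003000c000b0007000b000400080005000d0005000b) (nat_lit 0x73100a100000400) (nat_lit 16) Lb.e (@T16.mk En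
    (@En.n l16289 (nat_lit 9736) (nat_lit 0) (nat_lit 11))
    (@En.i (nat_lit 6846) (nat_lit 6) (nat_lit 5))
    (@En.n l9882 (nat_lit 12207) (nat_lit 2) (nat_lit 13))
    (@En.i (nat_lit 8363) (nat_lit 3) (nat_lit 5))
    (@En.i (nat_lit 10445) (nat_lit 4) (nat_lit 8))
    (@En.n l13355 (nat_lit 10053) (nat_lit 5) (nat_lit 4))
    (@En.i (nat_lit 10196) (nat_lit 0) (nat_lit 11))
    (@En.n l5496 (nat_lit 8455) (nat_lit 1) (nat_lit 7))
    (@En.n l3866 (nat_lit 6152) (nat_lit 9) (nat_lit 11))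
    (@En.i (nat_lit 9801) (nat_lit 10) (nat_lit 12))
    (@En.n l18 (nat_lit 6849) (nat_lit 10) (nat_lit 3))
    (@En.n l17790 (nat_lit 9465) (nat_lit 0) (nat_lit 5))
    (@En.n l61 (nat_lit 6850) (nat_lit 13) (nat_lit 8))
    (@En.n l564 (nat_lit 8874) (nat_lit 6) (nat_lit 13))
    (@En.n l3506 (nat_lit 8140) (nat_lit 3) (nat_lit 9))
    (@En.n l10889 (nat_lit 6848) (nat_lit 15) (nat_lit 3))))
  (@Cl.mk (nat_lit 0x300090008000d0006000a0003000b0007000a000800060005000d000a0006) (nat_lit 0x535060306600300) (nat_lit 16) Lb.e (@T16.mk En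
    (@En.n l17142 (nat_lit 3191) (nat_lit 0) (nat_lit 6))
    (@En.n l17144 (nat_lit 9739) (nat_lit 8) (nat_lit 10))
    (@En.n l42569 (nat_lit 11391) (nat_lit 9) (nat_lit 13))
    (@En.n l17229 (nat_lit 10807) (nat_lit 3) (nat_lit 5))
    (@En.i (nat_lit 7299) (nat_lit 4) (nat_lit 6))
    (@En.i (nat_lit 10927) (nat_lit 5) (nat_lit 8))
    (@En.n l17144 (nat_lit 10218) (nat_lit 8) (nat_lit 10))
    (@En.n l2225 (nat_lit 9544) (nat_lit 14) (nat_lit 7))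
    (@En.n l9825 (nat_lit 8143) (nat_lit 9) (nat_lit 11))
    (@En.n l11987 (nat_lit 6855) (nat_lit 9) (nat_lit 3))
    (@En.i (nat_lit 6572) (nat_lit 0) (nat_lit 10))
    (@En.n l15797 (nat_lit 10406) (nat_lit 12) (nat_lit 6))
    (@En.n l17230 (nat_lit 6845) (nat_lit 13) (nat_lit 13))
    (@En.n l42570 (nat_lit 10898) (nat_lit 8) (nat_lit 8))
    (@En.n l17229 (nat_lit 6853) (nat_lit 4) (nat_lit 9))
    (@En.n l19276 (nat_lit 6854) (nat_lit 15) (nat_lit 3))))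
  (@Cl.mk (nat_lit 0x3000a0007000b000a0009000700060005000b000600090007000d00050009) (nat_lit 0x300770003040401) (nat_lit 16) Lb.e (@T16.mk En
    (@En.n l36478 (nat_lit 6569) (nat_lit 0) (nat_lit 9))
    (@En.n l43440 (nat_lit 10405) (nat_lit 15) (nat_lit 5))
    (@En.n l15535 (nat_lit 6844) (nat_lit 2) (nat_lit 13))
    (@En.i (nat_lit 11925) (nat_lit 3) (nat_lit 7))
    (@En.n l36481 (nat_lit 9834) (nat_lit 9) (nat_lit 9))
    (@En.n l18108 (nat_lit 3131) (nat_lit 5) (nat_lit 6))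
    (@En.n l36539 (nat_lit 9938) (nat_lit 7) (nat_lit 11))
    (@En.n l43441 (nat_lit 10627) (nat_lit 11) (nat_lit 5))
    (@En.i (nat_lit 10805) (nat_lit 10) (nat_lit 6))
    (@En.n l40521 (nat_lit 7300) (nat_lit 9) (nat_lit 7))
    (@En.i (nat_lit 10919) (nat_lit 11) (nat_lit 9))
    (@En.n l20203 (nat_lit 6852) (nat_lit 6) (nat_lit 10))
    (@En.i (nat_lit 8759) (nat_lit 8) (nat_lit 11))
    (@En.n l43442 (nat_lit 8832) (nat_lit 14) (nat_lit 7))
    (@En.n l43443 (nat_lit 9335) (nat_lit 13) (nat_lit 10))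
    (@En.n l43444 (nat_lit 10720) (nat_lit 15) (nat_lit 3))))
  (@Cl.mk (nat_lit 0x300090008000d0005000a0003000b0007000b000800060005000d0005000b) (nat_lit 0x604060300600403) (nat_lit 16) Lb.e (@T16.mk En
    (@En.n l32141 (nat_lit 12078) (nat_lit 0) (nat_lit 11))
    (@En.n l11547 (nat_lit 6853) (nat_lit 7) (nat_lit 5))
    (@En.n l41100 (nat_lit 11389) (nat_lit 9) (nat_lit 13))
    (@En.n l36378 (nat_lit 10810) (nat_lit 3) (nat_lit 5))
    (@En.n l17 (nat_lit 7302) (nat_lit 4) (nat_lit 6))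
    (@En.n l28183 (nat_lit 10929) (nat_lit 5) (nat_lit 8))
    (@En.i (nat_lit 9151) (nat_lit 8) (nat_lit 11))
    (@En.n l564 (nat_lit 9542) (nat_lit 14) (nat_lit 7))
    (@En.n l19337 (nat_lit 9334) (nat_lit 9) (nat_lit 11))
    (@En.n l35867 (nat_lit 10721) (nat_lit 9) (nat_lit 3))
    (@En.n l41101 (nat_lit 6574) (nat_lit 0) (nat_lit 10))
    (@En.n l36378 (nat_lit 10275) (nat_lit 12) (nat_lit 5))
    (@En.i (nat_lit 6849) (nat_lit 13) (nat_lit 13))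
    (@En.n l37350 (nat_lit 10899) (nat_lit 8) (nat_lit 8))
    (@En.n l28168 (nat_lit 8749) (nat_lit 4) (nat_lit 9))
    (@En.n l30270 (nat_lit 6852) (nat_lit 15) (nat_lit 3))))
  (@Cl.mk (nat_lit 0x300090008000d000900070003000b0007000a000800070005000d00090006) (nat_lit 0x505300007000300) (nat_lit 16) Lb.e (@T16.mk En
    (@En.n l9184 (nat_lit 3130) (nat_lit 0) (nat_lit 6))
    (@En.n l28975 (nat_lit 9944) (nat_lit 8) (nat_lit 9))
    (@En.n l38496 (nat_lit 11390) (nat_lit 9) (nat_lit 13))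
    (@En.i (nat_lit 10808) (nat_lit 3) (nat_lit 5))
    (@En.n l8163 (nat_lit 9557) (nat_lit 9) (nat_lit 7))
    (@En.i (nat_lit 10926) (nat_lit 5) (nat_lit 8))
    (@En.n l9184 (nat_lit 10217) (nat_lit 8) (nat_lit 10))
    (@En.n l9862 (nat_lit 8841) (nat_lit 14) (nat_lit 7))
    (@En.n l565 (nat_lit 10726) (nat_lit 9) (nat_lit 11))
    (@En.n l8163 (nat_lit 6852) (nat_lit 9) (nat_lit 3))
    (@En.n l9183 (nat_lit 11393) (nat_lit 0) (nat_lit 7))
    (@En.n l5403 (nat_lit 8183) (nat_lit 12) (nat_lit 9))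
    (@En.n l2038 (nat_lit 6848) (nat_lit 13) (nat_lit 13))
    (@En.n l20345 (nat_lit 12026) (nat_lit 8) (nat_lit 8))
    (@En.n l38497 (nat_lit 10720) (nat_lit 4) (nat_lit 9))
    (@En.n l20346 (nat_lit 10721) (nat_lit 15) (nat_lit 3))))
  (@Cl.mk (nat_lit 0x2000d000b000900030006000d0005000c00030007000e00040002000e000a) (nat_lit 0x18500a0500400c1) (nat_lit 16) Lb.e (@T16.mk En
    (@En.n l5979 (nat_lit 6703) (nat_lit 14) (nat_lit 10))
    (@En.i (nat_lit 11413) (nat_lit 1) (nat_lit 14))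
    (@En.n l17 (nat_lit 6856) (nat_lit 2) (nat_lit 2))
    (@En.n l1430 (nat_lit 6777) (nat_lit 3) (nat_lit 4))
    (@En.i (nat_lit 2370) (nat_lit 1) (nat_lit 14))
    (@En.n l4363 (nat_lit 1111) (nat_lit 5) (nat_lit 7))
    (@En.n l1490 (nat_lit 6710) (nat_lit 6) (nat_lit 3))
    (@En.n l1359 (nat_lit 6743) (nat_lit 0) (nat_lit 12))
    (@En.n l3875 (nat_lit 1348) (nat_lit 8) (nat_lit 5))
    (@En.n l1638 (nat_lit 8982) (nat_lit 10) (nat_lit 13))
    (@En.n l810 (nat_lit 3438) (nat_lit 12) (nat_lit 6))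
    (@En.n l28 (nat_lit 6857) (nat_lit 11) (nat_lit 3))
    (@En.n l436 (nat_lit 2480) (nat_lit 0) (nat_lit 9))
    (@En.i (nat_lit 6860) (nat_lit 14) (nat_lit 11))
    (@En.n l5978 (nat_lit 6703) (nat_lit 12) (nat_lit 13))
    (@En.n l3 (nat_lit 6856) (nat_lit 15) (nat_lit 2))))
  (@Cl.mk (nat_lit 0x2000d0008000c00030006000d0004000c00030008000e00040002000e000a) (nat_lit 0x147009060670041) (nat_lit 16) Lb.e (@T16.mk En
    (@En.n l97 (nat_lit 6657) (nat_lit 14) (nat_lit 10))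
    (@En.i (nat_lit 11412) (nat_lit 1) (nat_lit 14))
    (@En.n l17 (nat_lit 6857) (nat_lit 2) (nat_lit 2))
    (@En.i (nat_lit 6658) (nat_lit 3) (nat_lit 4))
    (@En.i (nat_lit 2373) (nat_lit 1) (nat_lit 14))
    (@En.i (nat_lit 4166) (nat_lit 5) (nat_lit 8))
    (@En.i (nat_lit 6715) (nat_lit 6) (nat_lit 3))
    (@En.n l4367 (nat_lit 6751) (nat_lit 0) (nat_lit 12))
    (@En.i (nat_lit 6858) (nat_lit 8) (nat_lit 4))
    (@En.n l1638 (nat_lit 8983) (nat_lit 10) (nat_lit 13))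
    (@En.i (nat_lit 4066) (nat_lit 12) (nat_lit 6))
    (@En.i (nat_lit 6856) (nat_lit 11) (nat_lit 3))
    (@En.n l3345 (nat_lit 2896) (nat_lit 0) (nat_lit 12))
    (@En.i (nat_lit 8215) (nat_lit 14) (nat_lit 8))
    (@En.i (nat_lit 6657) (nat_lit 12) (nat_lit 13))
    (@En.n l3 (nat_lit 6857) (nat_lit 15) (nat_lit 2))))
  (@Cl.mk (nat_lit 0x2000c0008000c000b000400070004000c00050008000e00040002000e0009) (nat_lit 0x44700050460090) (nat_lit 16) Lb.e (@T16.mk En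
    (@En.n l97 (nat_lit 6859) (nat_lit 14) (nat_lit 9))
    (@En.i (nat_lit 11482) (nat_lit 1) (nat_lit 14))
    (@En.n l17 (nat_lit 6858) (nat_lit 2) (nat_lit 2))
    (@En.i (nat_lit 6783) (nat_lit 3) (nat_lit 4))
    (@En.i (nat_lit 2335) (nat_lit 1) (nat_lit 14))
    (@En.n l1497 (nat_lit 5377) (nat_lit 10) (nat_lit 8))
    (@En.n l7 (nat_lit 1785) (nat_lit 6) (nat_lit 5))
    (@En.n l564 (nat_lit 6652) (nat_lit 8) (nat_lit 12))
    (@En.n l7 (nat_lit 6860) (nat_lit 8) (nat_lit 4))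
    (@En.n l433 (nat_lit 4064) (nat_lit 11) (nat_lit 7))
    (@En.i (nat_lit 624) (nat_lit 10) (nat_lit 4))
    (@En.n l644 (nat_lit 6715) (nat_lit 12) (nat_lit 11))
    (@En.n l3345 (nat_lit 1115) (nat_lit 13) (nat_lit 12))
    (@En.n l1637 (nat_lit 8217) (nat_lit 14) (nat_lit 8))
    (@En.i (nat_lit 6859) (nat_lit 12) (nat_lit 12))
    (@En.n l3 (nat_lit 6858) (nat_lit 15) (nat_lit 2))))
  (@Cl.mk (nat_lit 0x200090009000c0007000b000a0004000700070005000c00060009000e0004) (nat_lit 0x70a016000060470) (nat_lit 16) Lb.e (@T16.mk En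
    (@En.n l12137 (nat_lit 6784) (nat_lit 15) (nat_lit 4))
    (@En.i (nat_lit 2304) (nat_lit 1) (nat_lit 14))
    (@En.n l36359 (nat_lit 5375) (nat_lit 9) (nat_lit 9))
    (@En.n l36360 (nat_lit 1780) (nat_lit 3) (nat_lit 6))
    (@En.n l564 (nat_lit 6647) (nat_lit 5) (nat_lit 12))
    (@En.n l36361 (nat_lit 6863) (nat_lit 5) (nat_lit 5))
    (@En.n l107 (nat_lit 6858) (nat_lit 9) (nat_lit 7))
    (@En.n l9541 (nat_lit 7005) (nat_lit 11) (nat_lit 7))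
    (@En.n l3884 (nat_lit 620) (nat_lit 8) (nat_lit 4))
    (@En.n l644 (nat_lit 6708) (nat_lit 10) (nat_lit 10))
    (@En.n l9541 (nat_lit 302) (nat_lit 11) (nat_lit 11))
    (@En.n l36362 (nat_lit 8220) (nat_lit 12) (nat_lit 7))
    (@En.n l3839 (nat_lit 6870) (nat_lit 6) (nat_lit 12))
    (@En.n l2535 (nat_lit 6870) (nat_lit 7) (nat_lit 9))
    (@En.n l132 (nat_lit 10842) (nat_lit 5) (nat_lit 9))
    (@En.n l17 (nat_lit 6859) (nat_lit 15) (nat_lit 2))))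
  (@Cl.mk (nat_lit 0x2000b0008000c0005000c00050004000c00040008000e00040002000e000b) (nat_lit 0x764000000610080) (nat_lit 16) Lb.e (@T16.mk En
    (@En.n l18553 (nat_lit 6861) (nat_lit 14) (nat_lit 11))
    (@En.i (nat_lit 12081) (nat_lit 1) (nat_lit 14))
    (@En.n l17 (nat_lit 6860) (nat_lit 2) (nat_lit 2))
    (@En.n l18554 (nat_lit 6862) (nat_lit 3) (nat_lit 4))
    (@En.i (nat_lit 6410) (nat_lit 5) (nat_lit 14))
    (@En.n l18555 (nat_lit 7338) (nat_lit 5) (nat_lit 8))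
    (@En.n l12355 (nat_lit 9294) (nat_lit 6) (nat_lit 4))
    (@En.n l2682 (nat_lit 10244) (nat_lit 8) (nat_lit 12))
    (@En.i (nat_lit 6857) (nat_lit 8) (nat_lit 4))
    (@En.n l430 (nat_lit 623) (nat_lit 9) (nat_lit 5))
    (@En.n l18556 (nat_lit 8978) (nat_lit 11) (nat_lit 12))
    (@En.n l18557 (nat_lit 6864) (nat_lit 8) (nat_lit 5))
    (@En.n l18558 (nat_lit 2898) (nat_lit 13) (nat_lit 12))
    (@En.n l430 (nat_lit 8214) (nat_lit 14) (nat_lit 8))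
    (@En.n l18559 (nat_lit 6863) (nat_lit 12) (nat_lit 11))
    (@En.n l3 (nat_lit 6860) (nat_lit 15) (nat_lit 2))))
  (@Cl.mk (nat_lit 0x2000b000b000a0007000b00050005000c00060005000c00040009000e0004) (nat_lit 0x906040050000750) (nat_lit 16) Lb.e (@T16.mk En
    (@En.n l29813 (nat_lit 6867) (nat_lit 15) (nat_lit 4))
    (@En.n l5 (nat_lit 6408) (nat_lit 1) (nat_lit 14))
    (@En.n l50 (nat_lit 7334) (nat_lit 2) (nat_lit 9))
    (@En.n l15450 (nat_lit 9296) (nat_lit 3) (nat_lit 4))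
    (@En.n l5 (nat_lit 8756) (nat_lit 0) (nat_lit 12))
    (@En.n l29814 (nat_lit 6657) (nat_lit 5) (nat_lit 5))
    (@En.i (nat_lit 618) (nat_lit 6) (nat_lit 6))
    (@En.n l29815 (nat_lit 9460) (nat_lit 8) (nat_lit 12))
    (@En.n l29816 (nat_lit 6860) (nat_lit 11) (nat_lit 5))
    (@En.n l29817 (nat_lit 7298) (nat_lit 9) (nat_lit 5))
    (@En.n l14097 (nat_lit 2997) (nat_lit 11) (nat_lit 11))
    (@En.n l29817 (nat_lit 8203) (nat_lit 12) (nat_lit 7))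
    (@En.n l55 (nat_lit 9533) (nat_lit 13) (nat_lit 10))
    (@En.n l8009 (nat_lit 7948) (nat_lit 14) (nat_lit 11))
    (@En.i (nat_lit 9941) (nat_lit 11) (nat_lit 11))
    (@En.n l17 (nat_lit 6861) (nat_lit 15) (nat_lit 2))))
  (@Cl.mk (nat_lit 0x2000b0007000c0005000b00050004000c000c0005000900040004000e000b) (nat_lit 0x6040700010100b8) (nat_lit 16) Lb.e (@T16.mk En
    (@En.i (nat_lit 6867) (nat_lit 13) (nat_lit 11))
    (@En.n l8028 (nat_lit 11409) (nat_lit 1) (nat_lit 14))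
    (@En.n l11 (nat_lit 7351) (nat_lit 12) (nat_lit 4))
    (@En.n l152 (nat_lit 9827) (nat_lit 3) (nat_lit 4))
    (@En.n l2322 (nat_lit 3058) (nat_lit 4) (nat_lit 9))
    (@En.i (nat_lit 9831) (nat_lit 5) (nat_lit 5))
    (@En.n l8029 (nat_lit 6860) (nat_lit 7) (nat_lit 12))
    (@En.n l8030 (nat_lit 9836) (nat_lit 8) (nat_lit 12))
    (@En.n l8031 (nat_lit 6658) (nat_lit 8) (nat_lit 4))
    (@En.n l18 (nat_lit 1327) (nat_lit 9) (nat_lit 5))
    (@En.i (nat_lit 8979) (nat_lit 11) (nat_lit 11))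
    (@En.n l2750 (nat_lit 6868) (nat_lit 12) (nat_lit 5))
    (@En.i (nat_lit 1157) (nat_lit 13) (nat_lit 12))
    (@En.n l61 (nat_lit 8128) (nat_lit 14) (nat_lit 7))
    (@En.i (nat_lit 6866) (nat_lit 11) (nat_lit 11))
    (@En.n l7 (nat_lit 6862) (nat_lit 15) (nat_lit 2))))
  (@Cl.mk (nat_lit 0x20008000c000b0007000b0004000b000500080005000c00050009000e0004) (nat_lit 0x406040903000290) (nat_lit 16) Lb.e (@T16.mk En
    (@En.n l14670 (nat_lit 6866) (nat_lit 15) (nat_lit 4))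
    (@En.n l6080 (nat_lit 6331) (nat_lit 1) (nat_lit 14))
    (@En.n l152 (nat_lit 7277) (nat_lit 2) (nat_lit 9))
    (@En.n l20425 (nat_lit 9298) (nat_lit 3) (nat_lit 5))
    (@En.n l19270 (nat_lit 10300) (nat_lit 5) (nat_lit 12))
    (@En.n l15200 (nat_lit 6861) (nat_lit 5) (nat_lit 5))
    (@En.n l34332 (nat_lit 7094) (nat_lit 10) (nat_lit 8))
    (@En.n l34333 (nat_lit 617) (nat_lit 7) (nat_lit 5))
    (@En.n l18566 (nat_lit 9466) (nat_lit 9) (nat_lit 11))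
    (@En.n l18 (nat_lit 6865) (nat_lit 9) (nat_lit 4))
    (@En.n l34334 (nat_lit 3336) (nat_lit 11) (nat_lit 11))
    (@En.i (nat_lit 8210) (nat_lit 12) (nat_lit 7))
    (@En.n l61 (nat_lit 9532) (nat_lit 13) (nat_lit 11))
    (@En.n l33371 (nat_lit 9533) (nat_lit 14) (nat_lit 12))
    (@En.n l34335 (nat_lit 10597) (nat_lit 14) (nat_lit 8))
    (@En.n l28 (nat_lit 6863) (nat_lit 15) (nat_lit 2))))
noncomputable def a429 : T16 Cl := @T16.mk Cl
  (@Cl.mk (nat_lit 0x2000d000b00090003000c00090005000c00040007000c00040007000e0004) (nat_lit 0x9010220a0010010) (nat_lit 16) Lb.e (@T16.mk En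
    (@En.i (nat_lit 6868) (nat_lit 4) (nat_lit 4))
    (@En.n l10773 (nat_lit 4501) (nat_lit 1) (nat_lit 14))
    (@En.n l152 (nat_lit 7447) (nat_lit 11) (nat_lit 7))
    (@En.n l10773 (nat_lit 9595) (nat_lit 3) (nat_lit 4))
    (@En.i (nat_lit 4329) (nat_lit 0) (nat_lit 12))
    (@En.n l781 (nat_lit 8514) (nat_lit 11) (nat_lit 7))
    (@En.n l19001 (nat_lit 1339) (nat_lit 6) (nat_lit 4))
    (@En.n l11821 (nat_lit 10014) (nat_lit 8) (nat_lit 12))
    (@En.n l19281 (nat_lit 9535) (nat_lit 8) (nat_lit 5))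
    (@En.i (nat_lit 8205) (nat_lit 10) (nat_lit 9))
    (@En.n l612 (nat_lit 6865) (nat_lit 11) (nat_lit 12))
    (@En.n l50 (nat_lit 7450) (nat_lit 11) (nat_lit 3))
    (@En.n l1369 (nat_lit 6858) (nat_lit 0) (nat_lit 9))
    (@En.n l217 (nat_lit 7298) (nat_lit 14) (nat_lit 11))
    (@En.n l10773 (nat_lit 11958) (nat_lit 2) (nat_lit 13))
    (@En.n l28 (nat_lit 6864) (nat_lit 15) (nat_lit 2))))
  (@Cl.mk (nat_lit 0x20008000c0009000c00080004000b000400080007000c00050008000e0004) (nat_lit 0x3011309050201b0) (nat_lit 16) Lb.e (@T16.mk En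
    (@En.i (nat_lit 6869) (nat_lit 15) (nat_lit 4))
    (@En.n l2125 (nat_lit 6254) (nat_lit 1) (nat_lit 14))
    (@En.n l152 (nat_lit 3537) (nat_lit 10) (nat_lit 8))
    (@En.i (nat_lit 9594) (nat_lit 3) (nat_lit 5))
    (@En.n l564 (nat_lit 9791) (nat_lit 5) (nat_lit 12))
    (@En.n l644 (nat_lit 6864) (nat_lit 5) (nat_lit 7))
    (@En.n l781 (nat_lit 7085) (nat_lit 6) (nat_lit 8))
    (@En.n l19001 (nat_lit 3479) (nat_lit 7) (nat_lit 4))
    (@En.n l34159 (nat_lit 10021) (nat_lit 9) (nat_lit 11))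
    (@En.n l6080 (nat_lit 9534) (nat_lit 9) (nat_lit 4))
    (@En.i (nat_lit 8209) (nat_lit 11) (nat_lit 8))
    (@En.n l22249 (nat_lit 3400) (nat_lit 12) (nat_lit 12))
    (@En.n l13213 (nat_lit 6859) (nat_lit 13) (nat_lit 9))
    (@En.n l564 (nat_lit 7297) (nat_lit 14) (nat_lit 12))
    (@En.n l3506 (nat_lit 10024) (nat_lit 6) (nat_lit 8))
    (@En.n l28 (nat_lit 6865) (nat_lit 15) (nat_lit 2))))
  (@Cl.mk (nat_lit 0x400040008000c000b0006000b0004000a000500080005000c000c0006000a) (nat_lit 0x38504060300103) (nat_lit 16) Lb.e (@T16.mk En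
    (@En.n l3491 (nat_lit 7229) (nat_lit 0) (nat_lit 10))
    (@En.i (nat_lit 8839) (nat_lit 1) (nat_lit 6))
    (@En.n l19282 (nat_lit 6863) (nat_lit 4) (nat_lit 12))
    (@En.n l19283 (nat_lit 10302) (nat_lit 3) (nat_lit 12))
    (@En.n l11386 (nat_lit 6867) (nat_lit 4) (nat_lit 5))
    (@En.n l1723 (nat_lit 7095) (nat_lit 10) (nat_lit 8))
    (@En.n l19284 (nat_lit 625) (nat_lit 6) (nat_lit 5))
    (@En.i (nat_lit 9469) (nat_lit 0) (nat_lit 10))
    (@En.n l19285 (nat_lit 6869) (nat_lit 8) (nat_lit 4))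
    (@En.i (nat_lit 3863) (nat_lit 0) (nat_lit 11))
    (@En.n l19286 (nat_lit 9334) (nat_lit 1) (nat_lit 6))
    (@En.n l19287 (nat_lit 7359) (nat_lit 5) (nat_lit 11))
    (@En.n l15472 (nat_lit 7358) (nat_lit 7) (nat_lit 12))
    (@En.n l19288 (nat_lit 10603) (nat_lit 11) (nat_lit 8))
    (@En.n l19289 (nat_lit 7353) (nat_lit 12) (nat_lit 4))
    (@En.n l152 (nat_lit 8834) (nat_lit 0) (nat_lit 4))))
  (@Cl.mk (nat_lit 0x40004000b000b000a0006000b00050005000b00060005000c000c0005000a) (nat_lit 0x70504007000103) (nat_lit 16) Lb.e (@T16.mk En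
    (@En.n l15468 (nat_lit 7314) (nat_lit 0) (nat_lit 10))
    (@En.i (nat_lit 9412) (nat_lit 1) (nat_lit 5))
    (@En.n l8045 (nat_lit 6861) (nat_lit 4) (nat_lit 12))
    (@En.n l15469 (nat_lit 8753) (nat_lit 1) (nat_lit 12))
    (@En.n l15470 (nat_lit 6655) (nat_lit 11) (nat_lit 5))
    (@En.n l18 (nat_lit 1256) (nat_lit 5) (nat_lit 6))
    (@En.i (nat_lit 9459) (nat_lit 1) (nat_lit 11))
    (@En.n l77 (nat_lit 6862) (nat_lit 11) (nat_lit 5))
    (@En.n l15471 (nat_lit 7300) (nat_lit 8) (nat_lit 5))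
    (@En.i (nat_lit 2724) (nat_lit 9) (nat_lit 11))
    (@En.n l15471 (nat_lit 8122) (nat_lit 1) (nat_lit 6))
    (@En.n l15472 (nat_lit 7358) (nat_lit 6) (nat_lit 10))
    (@En.n l15473 (nat_lit 7949) (nat_lit 5) (nat_lit 11))
    (@En.n l15474 (nat_lit 9959) (nat_lit 14) (nat_lit 11))
    (@En.n l4079 (nat_lit 7350) (nat_lit 12) (nat_lit 4))
    (@En.n l152 (nat_lit 7955) (nat_lit 0) (nat_lit 4))))
  (@Cl.mk (nat_lit 0x3000c00080005000b00040007000c000c0005000800040004000d000b0009) (nat_lit 0x230900020100a01) (nat_lit 16) Lb.e (@T16.mk En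
    (@En.n l1369 (nat_lit 6783) (nat_lit 0) (nat_lit 9))
    (@En.n l217 (nat_lit 7300) (nat_lit 13) (nat_lit 11))
    (@En.n l18420 (nat_lit 11954) (nat_lit 2) (nat_lit 13))
    (@En.n l3625 (nat_lit 10612) (nat_lit 12) (nat_lit 4))
    (@En.n l19279 (nat_lit 10448) (nat_lit 4) (nat_lit 4))
    (@En.n l152 (nat_lit 3535) (nat_lit 10) (nat_lit 8))
    (@En.n l18740 (nat_lit 10945) (nat_lit 1) (nat_lit 5))
    (@En.n l55 (nat_lit 6864) (nat_lit 4) (nat_lit 12))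
    (@En.i (nat_lit 9177) (nat_lit 9) (nat_lit 12))
    (@En.n l3447 (nat_lit 8515) (nat_lit 11) (nat_lit 7))
    (@En.n l19280 (nat_lit 1336) (nat_lit 10) (nat_lit 4))
    (@En.n l18354 (nat_lit 10008) (nat_lit 0) (nat_lit 11))
    (@En.n l19281 (nat_lit 9537) (nat_lit 1) (nat_lit 5))
    (@En.i (nat_lit 8137) (nat_lit 14) (nat_lit 8))
    (@En.n l612 (nat_lit 6869) (nat_lit 10) (nat_lit 12))
    (@En.n l50 (nat_lit 10006) (nat_lit 15) (nat_lit 3))))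
  (@Cl.mk (nat_lit 0x400040008000c0009000c00070004000a000400080007000c000c00060009) (nat_lit 0x20110080600301) (nat_lit 16) Lb.e (@T16.mk En
    (@En.n l4770 (nat_lit 3530) (nat_lit 9) (nat_lit 9))
    (@En.n l34546 (nat_lit 10944) (nat_lit 1) (nat_lit 6))
    (@En.n l55 (nat_lit 6865) (nat_lit 4) (nat_lit 12))
    (@En.n l564 (nat_lit 9789) (nat_lit 13) (nat_lit 12))
    (@En.n l644 (nat_lit 6868) (nat_lit 9) (nat_lit 7))
    (@En.n l3447 (nat_lit 7087) (nat_lit 11) (nat_lit 8))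
    (@En.n l35074 (nat_lit 3482) (nat_lit 6) (nat_lit 4))
    (@En.n l18355 (nat_lit 10012) (nat_lit 0) (nat_lit 10))
    (@En.n l35075 (nat_lit 9536) (nat_lit 1) (nat_lit 4))
    (@En.i (nat_lit 8143) (nat_lit 0) (nat_lit 7))
    (@En.n l34545 (nat_lit 4590) (nat_lit 6) (nat_lit 12))
    (@En.n l12197 (nat_lit 6784) (nat_lit 12) (nat_lit 9))
    (@En.n l4770 (nat_lit 7299) (nat_lit 7) (nat_lit 12))
    (@En.n l12197 (nat_lit 10561) (nat_lit 11) (nat_lit 8))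
    (@En.n l35076 (nat_lit 10613) (nat_lit 12) (nat_lit 4))
    (@En.n l3535 (nat_lit 10450) (nat_lit 0) (nat_lit 4))))
  (@Cl.mk (nat_lit 0x20006000c0007000a000e000400020009000c0006000a00090004000e0007) (nat_lit 0x70480079025090) (nat_lit 16) Lb.e (@T16.mk En
    (@En.n l1177 (nat_lit 6859) (nat_lit 7) (nat_lit 7))
    (@En.n l2400 (nat_lit 6871) (nat_lit 1) (nat_lit 14))
    (@En.n l23390 (nat_lit 619) (nat_lit 2) (nat_lit 4))
    (@En.n l644 (nat_lit 6709) (nat_lit 11) (nat_lit 9))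
    (@En.n l23391 (nat_lit 301) (nat_lit 4) (nat_lit 10))
    (@En.n l3 (nat_lit 9265) (nat_lit 5) (nat_lit 6))
    (@En.n l23391 (nat_lit 13483) (nat_lit 6) (nat_lit 12))
    (@En.n l23392 (nat_lit 10617) (nat_lit 8) (nat_lit 9))
    (@En.n l17 (nat_lit 6870) (nat_lit 8) (nat_lit 2))
    (@En.n l23393 (nat_lit 6804) (nat_lit 9) (nat_lit 4))
    (@En.i (nat_lit 2367) (nat_lit 11) (nat_lit 14))
    (@En.n l23394 (nat_lit 5378) (nat_lit 8) (nat_lit 10))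
    (@En.n l23395 (nat_lit 1777) (nat_lit 13) (nat_lit 7))
    (@En.n l564 (nat_lit 6648) (nat_lit 14) (nat_lit 12))
    (@En.n l23396 (nat_lit 9532) (nat_lit 5) (nat_lit 6))
    (@En.n l28 (nat_lit 6870) (nat_lit 15) (nat_lit 2))))
  (@Cl.mk (nat_lit 0x200070006000c0007000a000e00040002000a00090006000a0009000e0006) (nat_lit 0xa058000102680) (nat_lit 16) Lb.e (@T16.mk En
    (@En.n l7948 (nat_lit 6875) (nat_lit 8) (nat_lit 6))
    (@En.n l14405 (nat_lit 7948) (nat_lit 10) (nat_lit 14))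
    (@En.n l644 (nat_lit 6872) (nat_lit 2) (nat_lit 9))
    (@En.n l34544 (nat_lit 1164) (nat_lit 3) (nat_lit 10))
    (@En.n l936 (nat_lit 8281) (nat_lit 13) (nat_lit 6))
    (@En.n l34545 (nat_lit 3528) (nat_lit 5) (nat_lit 9))
    (@En.n l34546 (nat_lit 10944) (nat_lit 7) (nat_lit 10))
    (@En.n l17 (nat_lit 6871) (nat_lit 7) (nat_lit 2))
    (@En.n l34547 (nat_lit 6673) (nat_lit 8) (nat_lit 4))
    (@En.i (nat_lit 2294) (nat_lit 10) (nat_lit 14))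
    (@En.n l34548 (nat_lit 5815) (nat_lit 11) (nat_lit 10))
    (@En.n l872 (nat_lit 1859) (nat_lit 12) (nat_lit 7))
    (@En.n l3904 (nat_lit 6881) (nat_lit 13) (nat_lit 12))
    (@En.n l2491 (nat_lit 11233) (nat_lit 14) (nat_lit 6))
    (@En.n l5783 (nat_lit 6859) (nat_lit 6) (nat_lit 7))
    (@En.n l11 (nat_lit 6871) (nat_lit 15) (nat_lit 2))))
  (@Cl.mk (nat_lit 0x20006000d000b00070003000a000e00050002000b000a00060009000e0005) (nat_lit 0xa90062000105a0) (nat_lit 16) Lb.e (@T16.mk En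
    (@En.n l7948 (nat_lit 6874) (nat_lit 9) (nat_lit 5))
    (@En.i (nat_lit 7533) (nat_lit 1) (nat_lit 14))
    (@En.n l872 (nat_lit 3750) (nat_lit 2) (nat_lit 9))
    (@En.n l936 (nat_lit 8512) (nat_lit 3) (nat_lit 6))
    (@En.n l5621 (nat_lit 3534) (nat_lit 4) (nat_lit 10))
    (@En.n l18740 (nat_lit 10945) (nat_lit 6) (nat_lit 11))
    (@En.n l17 (nat_lit 6872) (nat_lit 6) (nat_lit 2))
    (@En.n l18741 (nat_lit 6671) (nat_lit 7) (nat_lit 5))
    (@En.i (nat_lit 2292) (nat_lit 9) (nat_lit 14))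
    (@En.n l612 (nat_lit 6871) (nat_lit 10) (nat_lit 10))
    (@En.n l50 (nat_lit 6873) (nat_lit 10) (nat_lit 3))
    (@En.n l872 (nat_lit 1864) (nat_lit 12) (nat_lit 7))
    (@En.n l217 (nat_lit 6879) (nat_lit 13) (nat_lit 11))
    (@En.n l18419 (nat_lit 12253) (nat_lit 7) (nat_lit 13))
    (@En.n l5783 (nat_lit 6708) (nat_lit 7) (nat_lit 6))
    (@En.n l11 (nat_lit 6872) (nat_lit 15) (nat_lit 2))))
  (@Cl.mk (nat_lit 0x20006000d0006000c0003000a000e00040002000b000a0006000a000e0005) (nat_lit 0x90108400000370) (nat_lit 16) Lb.e (@T16.mk En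
    (@En.n l7948 (nat_lit 6876) (nat_lit 9) (nat_lit 5))
    (@En.i (nat_lit 7534) (nat_lit 11) (nat_lit 14))
    (@En.n l34544 (nat_lit 3752) (nat_lit 2) (nat_lit 10))
    (@En.n l936 (nat_lit 8513) (nat_lit 3) (nat_lit 6))
    (@En.n l3651 (nat_lit 7209) (nat_lit 4) (nat_lit 10))
    (@En.n l936 (nat_lit 10946) (nat_lit 6) (nat_lit 11))
    (@En.n l17 (nat_lit 6873) (nat_lit 6) (nat_lit 2))
    (@En.n l3098 (nat_lit 6878) (nat_lit 7) (nat_lit 4))
    (@En.i (nat_lit 2293) (nat_lit 9) (nat_lit 14))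
    (@En.n l34549 (nat_lit 5820) (nat_lit 10) (nat_lit 10))
    (@En.i (nat_lit 6872) (nat_lit 10) (nat_lit 3))
    (@En.n l2383 (nat_lit 2309) (nat_lit 12) (nat_lit 12))
    (@En.i (nat_lit 6871) (nat_lit 13) (nat_lit 6))
    (@En.n l12575 (nat_lit 12251) (nat_lit 7) (nat_lit 13))
    (@En.n l5783 (nat_lit 6657) (nat_lit 7) (nat_lit 6))
    (@En.n l11 (nat_lit 6873) (nat_lit 15) (nat_lit 2))))
  (@Cl.mk (nat_lit 0x2000b000b000b0007000a000500050005000d000b000600030009000e0005) (nat_lit 0x81204000a500720) (nat_lit 16) Lb.e (@T16.mk En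
    (@En.n l19043 (nat_lit 6672) (nat_lit 13) (nat_lit 5))
    (@En.n l6749 (nat_lit 2225) (nat_lit 1) (nat_lit 14))
    (@En.n l4172 (nat_lit 6875) (nat_lit 2) (nat_lit 9))
    (@En.n l7 (nat_lit 6876) (nat_lit 3) (nat_lit 3))
    (@En.n l685 (nat_lit 1813) (nat_lit 0) (nat_lit 6))
    (@En.i (nat_lit 6880) (nat_lit 6) (nat_lit 11))
    (@En.n l19044 (nat_lit 11057) (nat_lit 7) (nat_lit 13))
    (@En.n l11 (nat_lit 7002) (nat_lit 11) (nat_lit 5))
    (@En.n l152 (nat_lit 7921) (nat_lit 11) (nat_lit 5))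
    (@En.n l16802 (nat_lit 8678) (nat_lit 9) (nat_lit 5))
    (@En.i (nat_lit 3748) (nat_lit 11) (nat_lit 10))
    (@En.n l19045 (nat_lit 8508) (nat_lit 12) (nat_lit 7))
    (@En.n l8009 (nat_lit 7935) (nat_lit 13) (nat_lit 11))
    (@En.n l18892 (nat_lit 6872) (nat_lit 5) (nat_lit 11))
    (@En.i (nat_lit 9588) (nat_lit 11) (nat_lit 11))
    (@En.n l17 (nat_lit 6874) (nat_lit 15) (nat_lit 2))))
  (@Cl.mk (nat_lit 0x2000a000a000a0007000b000a0006000600060005000c00060009000e0004) (nat_lit 0x712015000050670) (nat_lit 16) Lb.e (@T16.mk En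
    (@En.n l4172 (nat_lit 6883) (nat_lit 15) (nat_lit 4))
    (@En.n l6749 (nat_lit 2297) (nat_lit 1) (nat_lit 14))
    (@En.n l4172 (nat_lit 4135) (nat_lit 9) (nat_lit 9))
    (@En.n l15700 (nat_lit 1814) (nat_lit 3) (nat_lit 6))
    (@En.n l26894 (nat_lit 6882) (nat_lit 5) (nat_lit 12))
    (@En.n l26895 (nat_lit 7930) (nat_lit 5) (nat_lit 5))
    (@En.n l11 (nat_lit 7005) (nat_lit 10) (nat_lit 6))
    (@En.n l4976 (nat_lit 7920) (nat_lit 10) (nat_lit 6))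
    (@En.n l1573 (nat_lit 8918) (nat_lit 8) (nat_lit 6))
    (@En.n l77 (nat_lit 6874) (nat_lit 10) (nat_lit 10))
    (@En.i (nat_lit 2670) (nat_lit 11) (nat_lit 11))
    (@En.n l532 (nat_lit 8282) (nat_lit 12) (nat_lit 7))
    (@En.n l8009 (nat_lit 7936) (nat_lit 6) (nat_lit 10))
    (@En.n l18892 (nat_lit 6871) (nat_lit 6) (nat_lit 10))
    (@En.i (nat_lit 9590) (nat_lit 14) (nat_lit 10))
    (@En.n l17 (nat_lit 6875) (nat_lit 15) (nat_lit 2))))
  (@Cl.mk (nat_lit 0x2000b000b000b0007000b000500050005000d0005000c00030009000e0004) (nat_lit 0x812040009010740) (nat_lit 16) Lb.e (@T16.mk En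
    (@En.n l4172 (nat_lit 6877) (nat_lit 15) (nat_lit 4))
    (@En.n l6749 (nat_lit 2227) (nat_lit 1) (nat_lit 14))
    (@En.n l4172 (nat_lit 4138) (nat_lit 2) (nat_lit 9))
    (@En.i (nat_lit 6874) (nat_lit 3) (nat_lit 3))
    (@En.n l2254 (nat_lit 2312) (nat_lit 0) (nat_lit 12))
    (@En.i (nat_lit 6875) (nat_lit 5) (nat_lit 5))
    (@En.n l134 (nat_lit 11064) (nat_lit 7) (nat_lit 13))
    (@En.n l11 (nat_lit 7001) (nat_lit 11) (nat_lit 5))
    (@En.n l152 (nat_lit 7922) (nat_lit 11) (nat_lit 5))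
    (@En.n l16802 (nat_lit 7455) (nat_lit 9) (nat_lit 5))
    (@En.i (nat_lit 3756) (nat_lit 11) (nat_lit 11))
    (@En.n l532 (nat_lit 8414) (nat_lit 12) (nat_lit 7))
    (@En.n l8009 (nat_lit 7934) (nat_lit 13) (nat_lit 11))
    (@En.n l18892 (nat_lit 6873) (nat_lit 5) (nat_lit 11))
    (@En.i (nat_lit 9079) (nat_lit 11) (nat_lit 11))
    (@En.n l17 (nat_lit 6876) (nat_lit 15) (nat_lit 2))))
  (@Cl.mk (nat_lit 0x40004000b000b000b0006000b000500050005000c0005000c000c0004000a) (nat_lit 0x80804000a01208) (nat_lit 16) Lb.e (@T16.mk En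
    (@En.n l2943 (nat_lit 4133) (nat_lit 0) (nat_lit 10))
    (@En.n l13976 (nat_lit 6667) (nat_lit 1) (nat_lit 4))
    (@En.n l5653 (nat_lit 6876) (nat_lit 4) (nat_lit 12))
    (@En.n l1392 (nat_lit 2317) (nat_lit 1) (nat_lit 12))
    (@En.i (nat_lit 6883) (nat_lit 4) (nat_lit 5))
    (@En.i (nat_lit 11558) (nat_lit 3) (nat_lit 12))
    (@En.n l11 (nat_lit 7003) (nat_lit 11) (nat_lit 5))
    (@En.n l30127 (nat_lit 7484) (nat_lit 11) (nat_lit 5))
    (@En.n l1392 (nat_lit 8704) (nat_lit 8) (nat_lit 5))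
    (@En.n l77 (nat_lit 3818) (nat_lit 0) (nat_lit 11))
    (@En.i (nat_lit 8422) (nat_lit 1) (nat_lit 6))
    (@En.n l30570 (nat_lit 7131) (nat_lit 5) (nat_lit 11))
    (@En.n l28901 (nat_lit 6878) (nat_lit 5) (nat_lit 11))
    (@En.i (nat_lit 9454) (nat_lit 12) (nat_lit 11))
    (@En.n l5332 (nat_lit 7476) (nat_lit 12) (nat_lit 4))
    (@En.n l25054 (nat_lit 6880) (nat_lit 0) (nat_lit 4))))
  (@Cl.mk (nat_lit 0x20006000c0006000c000c0004000b00040004000b000a0005000a000e0005) (nat_lit 0xa0120900900360) (nat_lit 16) Lb.e (@T16.mk En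
    (@En.n l17536 (nat_lit 6877) (nat_lit 8) (nat_lit 5))
    (@En.i (nat_lit 7538) (nat_lit 1) (nat_lit 14))
    (@En.n l36547 (nat_lit 3846) (nat_lit 2) (nat_lit 10))
    (@En.n l27215 (nat_lit 8518) (nat_lit 3) (nat_lit 5))
    (@En.n l9451 (nat_lit 7208) (nat_lit 4) (nat_lit 10))
    (@En.n l24308 (nat_lit 10692) (nat_lit 6) (nat_lit 11))
    (@En.n l152 (nat_lit 8186) (nat_lit 12) (nat_lit 4))
    (@En.n l3851 (nat_lit 6879) (nat_lit 7) (nat_lit 4))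
    (@En.n l617 (nat_lit 4139) (nat_lit 9) (nat_lit 11))
    (@En.n l6524 (nat_lit 6664) (nat_lit 9) (nat_lit 4))
    (@En.n l3536 (nat_lit 6873) (nat_lit 11) (nat_lit 12))
    (@En.n l1240 (nat_lit 2315) (nat_lit 12) (nat_lit 12))
    (@En.n l35241 (nat_lit 6673) (nat_lit 13) (nat_lit 6))
    (@En.n l31877 (nat_lit 12087) (nat_lit 14) (nat_lit 12))
    (@En.n l36548 (nat_lit 6655) (nat_lit 13) (nat_lit 6))
    (@En.n l7 (nat_lit 6878) (nat_lit 15) (nat_lit 2))))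
  (@Cl.mk (nat_lit 0x20006000b0006000c0009000d000500040003000b000a0007000a000e0005) (nat_lit 0x80178000000380) (nat_lit 16) Lb.e (@T16.mk En
    (@En.n l14312 (nat_lit 6880) (nat_lit 9) (nat_lit 5))
    (@En.i (nat_lit 7540) (nat_lit 1) (nat_lit 14))
    (@En.n l29635 (nat_lit 3888) (nat_lit 2) (nat_lit 10))
    (@En.n l936 (nat_lit 9281) (nat_lit 3) (nat_lit 7))
    (@En.n l5621 (nat_lit 7211) (nat_lit 4) (nat_lit 10))
    (@En.n l936 (nat_lit 10401) (nat_lit 6) (nat_lit 11))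
    (@En.n l29636 (nat_lit 7044) (nat_lit 6) (nat_lit 3))
    (@En.n l18 (nat_lit 6873) (nat_lit 7) (nat_lit 4))
    (@En.n l29637 (nat_lit 6662) (nat_lit 8) (nat_lit 5))
    (@En.i (nat_lit 2286) (nat_lit 10) (nat_lit 13))
    (@En.n l6277 (nat_lit 6881) (nat_lit 11) (nat_lit 9))
    (@En.n l16237 (nat_lit 2311) (nat_lit 12) (nat_lit 12))
    (@En.n l29638 (nat_lit 2591) (nat_lit 13) (nat_lit 6))
    (@En.n l10756 (nat_lit 12812) (nat_lit 14) (nat_lit 11))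
    (@En.n l29639 (nat_lit 6651) (nat_lit 13) (nat_lit 6))
    (@En.n l11 (nat_lit 6879) (nat_lit 15) (nat_lit 2))))
noncomputable def a430 : T16 Cl := @T16.mk Cl
  (@Cl.mk (nat_lit 0x3000b000b000b0008000b000500050005000b0005000c0008000d00050004) (nat_lit 0x812440004015700) (nat_lit 16) Lb.e (@T16.mk En
    (@En.i (nat_lit 6876) (nat_lit 0) (nat_lit 4))
    (@En.n l1545 (nat_lit 6666) (nat_lit 0) (nat_lit 5))
    (@En.n l5843 (nat_lit 2226) (nat_lit 1) (nat_lit 13))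
    (@En.n l28138 (nat_lit 6882) (nat_lit 3) (nat_lit 8))
    (@En.n l28139 (nat_lit 2316) (nat_lit 2) (nat_lit 12))
    (@En.n l1573 (nat_lit 2596) (nat_lit 5) (nat_lit 5))
    (@En.n l845 (nat_lit 11778) (nat_lit 0) (nat_lit 11))
    (@En.n l11 (nat_lit 7000) (nat_lit 11) (nat_lit 5))
    (@En.n l28140 (nat_lit 7913) (nat_lit 11) (nat_lit 5))
    (@En.n l28141 (nat_lit 8658) (nat_lit 9) (nat_lit 5))
    (@En.i (nat_lit 3807) (nat_lit 7) (nat_lit 11))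
    (@En.n l15846 (nat_lit 8762) (nat_lit 12) (nat_lit 8))
    (@En.n l14138 (nat_lit 7128) (nat_lit 5) (nat_lit 11))
    (@En.n l28142 (nat_lit 6879) (nat_lit 5) (nat_lit 11))
    (@En.i (nat_lit 9429) (nat_lit 14) (nat_lit 11))
    (@En.n l763 (nat_lit 7051) (nat_lit 13) (nat_lit 3))))
  (@Cl.mk (nat_lit 0x20007000c00060009000d0004000b0003000a000900070005000a000e0006) (nat_lit 0x90680907000490) (nat_lit 16) Lb.e (@T16.mk En
    (@En.n l3530 (nat_lit 6882) (nat_lit 8) (nat_lit 6))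
    (@En.n l3530 (nat_lit 10258) (nat_lit 1) (nat_lit 14))
    (@En.n l13941 (nat_lit 6879) (nat_lit 2) (nat_lit 10))
    (@En.n l15535 (nat_lit 6878) (nat_lit 3) (nat_lit 5))
    (@En.n l3866 (nat_lit 9282) (nat_lit 4) (nat_lit 7))
    (@En.n l575 (nat_lit 7213) (nat_lit 5) (nat_lit 9))
    (@En.n l35581 (nat_lit 10403) (nat_lit 7) (nat_lit 10))
    (@En.n l21326 (nat_lit 7042) (nat_lit 7) (nat_lit 3))
    (@En.n l4790 (nat_lit 5724) (nat_lit 9) (nat_lit 11))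
    (@En.n l8148 (nat_lit 6661) (nat_lit 9) (nat_lit 4))
    (@En.n l3530 (nat_lit 2289) (nat_lit 11) (nat_lit 13))
    (@En.n l1769 (nat_lit 6043) (nat_lit 12) (nat_lit 9))
    (@En.n l6825 (nat_lit 2590) (nat_lit 13) (nat_lit 6))
    (@En.n l5588 (nat_lit 12813) (nat_lit 14) (nat_lit 12))
    (@En.n l36607 (nat_lit 6647) (nat_lit 6) (nat_lit 7))
    (@En.n l67 (nat_lit 6881) (nat_lit 15) (nat_lit 2))))
  (@Cl.mk (nat_lit 0x3000a000a000a00080006000b000600060006000c00050008000d0004000a) (nat_lit 0x780505000404608) (nat_lit 16) Lb.e (@T16.mk En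
    (@En.n l27521 (nat_lit 5726) (nat_lit 0) (nat_lit 10))
    (@En.n l34689 (nat_lit 6668) (nat_lit 15) (nat_lit 4))
    (@En.i (nat_lit 2228) (nat_lit 0) (nat_lit 13))
    (@En.n l2433 (nat_lit 6035) (nat_lit 10) (nat_lit 8))
    (@En.n l18791 (nat_lit 2594) (nat_lit 4) (nat_lit 5))
    (@En.n l1803 (nat_lit 11777) (nat_lit 0) (nat_lit 12))
    (@En.n l7945 (nat_lit 6484) (nat_lit 10) (nat_lit 6))
    (@En.n l7946 (nat_lit 7915) (nat_lit 10) (nat_lit 6))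
    (@En.n l38783 (nat_lit 8749) (nat_lit 8) (nat_lit 6))
    (@En.n l38784 (nat_lit 6880) (nat_lit 10) (nat_lit 11))
    (@En.n l38785 (nat_lit 6877) (nat_lit 10) (nat_lit 6))
    (@En.n l38786 (nat_lit 8767) (nat_lit 12) (nat_lit 8))
    (@En.n l55 (nat_lit 7129) (nat_lit 6) (nat_lit 10))
    (@En.n l28475 (nat_lit 6881) (nat_lit 6) (nat_lit 10))
    (@En.i (nat_lit 9455) (nat_lit 13) (nat_lit 10))
    (@En.n l15400 (nat_lit 7130) (nat_lit 15) (nat_lit 3))))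
  (@Cl.mk (nat_lit 0x40004000a000a000a0006000b00090006000600060005000c000c0007000a) (nat_lit 0x71201200005607) (nat_lit 16) Lb.e (@T16.mk En
    (@En.n l11163 (nat_lit 4134) (nat_lit 8) (nat_lit 10))
    (@En.n l30565 (nat_lit 3152) (nat_lit 1) (nat_lit 7))
    (@En.n l5653 (nat_lit 6875) (nat_lit 4) (nat_lit 12))
    (@En.n l30566 (nat_lit 6668) (nat_lit 3) (nat_lit 12))
    (@En.n l27327 (nat_lit 7933) (nat_lit 11) (nat_lit 5))
    (@En.n l30567 (nat_lit 7006) (nat_lit 10) (nat_lit 6))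
    (@En.n l30127 (nat_lit 7485) (nat_lit 10) (nat_lit 6))
    (@En.n l30568 (nat_lit 7370) (nat_lit 7) (nat_lit 6))
    (@En.n l12620 (nat_lit 6672) (nat_lit 7) (nat_lit 9))
    (@En.n l77 (nat_lit 1381) (nat_lit 9) (nat_lit 11))
    (@En.n l30569 (nat_lit 8283) (nat_lit 2) (nat_lit 6))
    (@En.n l30570 (nat_lit 7246) (nat_lit 6) (nat_lit 10))
    (@En.n l30571 (nat_lit 6673) (nat_lit 6) (nat_lit 10))
    (@En.n l24501 (nat_lit 9453) (nat_lit 14) (nat_lit 10))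
    (@En.n l5332 (nat_lit 5856) (nat_lit 12) (nat_lit 4))
    (@En.n l30572 (nat_lit 2596) (nat_lit 0) (nat_lit 4))))
  (@Cl.mk (nat_lit 0x20005000a000d000900080003000e00060002000b0007000b0008000e0005) (nat_lit 0x8b310b00406350) (nat_lit 16) Lb.e (@T16.mk En
    (@En.n l20321 (nat_lit 6754) (nat_lit 9) (nat_lit 5))
    (@En.n l20322 (nat_lit 3467) (nat_lit 1) (nat_lit 14))
    (@En.n l20323 (nat_lit 2169) (nat_lit 2) (nat_lit 8))
    (@En.n l20324 (nat_lit 2418) (nat_lit 3) (nat_lit 11))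
    (@En.n l2520 (nat_lit 1587) (nat_lit 4) (nat_lit 7))
    (@En.i (nat_lit 10648) (nat_lit 6) (nat_lit 11))
    (@En.n l725 (nat_lit 6884) (nat_lit 6) (nat_lit 2))
    (@En.n l17 (nat_lit 3465) (nat_lit 7) (nat_lit 6))
    (@En.n l20325 (nat_lit 6885) (nat_lit 9) (nat_lit 14))
    (@En.n l20326 (nat_lit 3458) (nat_lit 9) (nat_lit 3))
    (@En.n l16614 (nat_lit 1344) (nat_lit 11) (nat_lit 8))
    (@En.n l9792 (nat_lit 9303) (nat_lit 12) (nat_lit 9))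
    (@En.n l2520 (nat_lit 13436) (nat_lit 5) (nat_lit 13))
    (@En.n l9793 (nat_lit 9407) (nat_lit 14) (nat_lit 10))
    (@En.n l16614 (nat_lit 6620) (nat_lit 13) (nat_lit 5))
    (@En.n l50 (nat_lit 6884) (nat_lit 15) (nat_lit 2))))
  (@Cl.mk (nat_lit 0x20005000b000a00090008000e000500020006000b0007000b0008000e0005) (nat_lit 0x51a0009073b0) (nat_lit 16) Lb.e (@T16.mk En
    (@En.n l3098 (nat_lit 2314) (nat_lit 8) (nat_lit 5))
    (@En.n l3 (nat_lit 6886) (nat_lit 10) (nat_lit 14))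
    (@En.n l28793 (nat_lit 2926) (nat_lit 11) (nat_lit 8))
    (@En.n l28794 (nat_lit 2279) (nat_lit 3) (nat_lit 11))
    (@En.n l9774 (nat_lit 1554) (nat_lit 4) (nat_lit 7))
    (@En.n l14934 (nat_lit 9778) (nat_lit 14) (nat_lit 11))
    (@En.n l24205 (nat_lit 3465) (nat_lit 6) (nat_lit 6))
    (@En.n l28 (nat_lit 6885) (nat_lit 7) (nat_lit 2))
    (@En.n l28795 (nat_lit 6887) (nat_lit 8) (nat_lit 5))
    (@En.n l28796 (nat_lit 8924) (nat_lit 10) (nat_lit 14))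
    (@En.n l28797 (nat_lit 1077) (nat_lit 2) (nat_lit 8))
    (@En.n l28798 (nat_lit 8370) (nat_lit 12) (nat_lit 9))
    (@En.n l4135 (nat_lit 7346) (nat_lit 13) (nat_lit 10))
    (@En.n l5288 (nat_lit 9404) (nat_lit 14) (nat_lit 11))
    (@En.n l3106 (nat_lit 7047) (nat_lit 13) (nat_lit 5))
    (@En.n l17 (nat_lit 6885) (nat_lit 15) (nat_lit 2))))
  (@Cl.mk (nat_lit 0x20006000c0007000b000e00040002000b0005000b000a00090005000e0005) (nat_lit 0xa06a00200060c0) (nat_lit 16) Lb.e (@T16.mk En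
    (@En.n l394 (nat_lit 6888) (nat_lit 7) (nat_lit 5))
    (@En.n l18920 (nat_lit 8923) (nat_lit 9) (nat_lit 14))
    (@En.n l1925 (nat_lit 2757) (nat_lit 2) (nat_lit 5))
    (@En.n l644 (nat_lit 8369) (nat_lit 11) (nat_lit 9))
    (@En.i (nat_lit 7322) (nat_lit 4) (nat_lit 10))
    (@En.n l170 (nat_lit 9390) (nat_lit 13) (nat_lit 11))
    (@En.i (nat_lit 6885) (nat_lit 14) (nat_lit 5))
    (@En.i (nat_lit 2592) (nat_lit 8) (nat_lit 11))
    (@En.n l17 (nat_lit 6886) (nat_lit 8) (nat_lit 2))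
    (@En.n l3098 (nat_lit 2311) (nat_lit 9) (nat_lit 4))
    (@En.i (nat_lit 4182) (nat_lit 11) (nat_lit 14))
    (@En.n l805 (nat_lit 2280) (nat_lit 12) (nat_lit 11))
    (@En.n l1034 (nat_lit 1563) (nat_lit 13) (nat_lit 7))
    (@En.n l1393 (nat_lit 9779) (nat_lit 14) (nat_lit 12))
    (@En.i (nat_lit 3466) (nat_lit 5) (nat_lit 6))
    (@En.n l28 (nat_lit 6886) (nat_lit 15) (nat_lit 2))))
  (@Cl.mk (nat_lit 0x20005000b000b000b000a0009000500050005000b0006000b0007000e0005) (nat_lit 0x81861000901090) (nat_lit 16) Lb.e (@T16.mk En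
    (@En.i (nat_lit 2318) (nat_lit 1) (nat_lit 5))
    (@En.n l10903 (nat_lit 6888) (nat_lit 1) (nat_lit 14))
    (@En.n l2639 (nat_lit 2978) (nat_lit 2) (nat_lit 7))
    (@En.n l20054 (nat_lit 773) (nat_lit 3) (nat_lit 11))
    (@En.i (nat_lit 1551) (nat_lit 4) (nat_lit 6))
    (@En.n l287 (nat_lit 10852) (nat_lit 6) (nat_lit 11))
    (@En.n l11 (nat_lit 6889) (nat_lit 6) (nat_lit 5))
    (@En.n l152 (nat_lit 6894) (nat_lit 7) (nat_lit 5))
    (@En.n l4153 (nat_lit 8317) (nat_lit 8) (nat_lit 5))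
    (@En.n l77 (nat_lit 294) (nat_lit 10) (nat_lit 9))
    (@En.n l55 (nat_lit 8348) (nat_lit 11) (nat_lit 10))
    (@En.n l26647 (nat_lit 6892) (nat_lit 12) (nat_lit 11))
    (@En.n l28825 (nat_lit 6885) (nat_lit 13) (nat_lit 11))
    (@En.i (nat_lit 8275) (nat_lit 14) (nat_lit 11))
    (@En.i (nat_lit 7154) (nat_lit 13) (nat_lit 5))
    (@En.n l17 (nat_lit 6887) (nat_lit 15) (nat_lit 2))))
  (@Cl.mk (nat_lit 0x2000a0005000b000b000b000a0006000500050005000c0006000b000e0004) (nat_lit 0x6081960000a0280) (nat_lit 16) Lb.e (@T16.mk En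
    (@En.n l19219 (nat_lit 2316) (nat_lit 15) (nat_lit 4))
    (@En.i (nat_lit 1950) (nat_lit 4) (nat_lit 14))
    (@En.i (nat_lit 2147) (nat_lit 2) (nat_lit 11))
    (@En.n l1034 (nat_lit 443) (nat_lit 3) (nat_lit 6))
    (@En.n l564 (nat_lit 10850) (nat_lit 5) (nat_lit 12))
    (@En.n l237 (nat_lit 6890) (nat_lit 5) (nat_lit 5))
    (@En.n l575 (nat_lit 6895) (nat_lit 6) (nat_lit 5))
    (@En.i (nat_lit 8315) (nat_lit 7) (nat_lit 5))
    (@En.i (nat_lit 2759) (nat_lit 8) (nat_lit 6))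
    (@En.n l4380 (nat_lit 8371) (nat_lit 10) (nat_lit 10))
    (@En.n l134 (nat_lit 6893) (nat_lit 11) (nat_lit 11))
    (@En.n l577 (nat_lit 6886) (nat_lit 5) (nat_lit 11))
    (@En.n l19220 (nat_lit 8273) (nat_lit 13) (nat_lit 11))
    (@En.n l10215 (nat_lit 6887) (nat_lit 14) (nat_lit 5))
    (@En.i (nat_lit 6891) (nat_lit 14) (nat_lit 10))
    (@En.n l17 (nat_lit 6888) (nat_lit 15) (nat_lit 2))))
  (@Cl.mk (nat_lit 0x20005000a000e000b0002000b000a00060005000b0005000b0006000e0005) (nat_lit 0x84205100405090) (nat_lit 16) Lb.e (@T16.mk En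
    (@En.i (nat_lit 6999) (nat_lit 5) (nat_lit 5))
    (@En.n l19854 (nat_lit 6890) (nat_lit 1) (nat_lit 14))
    (@En.n l8417 (nat_lit 2038) (nat_lit 2) (nat_lit 6))
    (@En.n l1790 (nat_lit 770) (nat_lit 9) (nat_lit 11))
    (@En.i (nat_lit 1556) (nat_lit 4) (nat_lit 5))
    (@En.n l645 (nat_lit 11173) (nat_lit 11) (nat_lit 11))
    (@En.i (nat_lit 6200) (nat_lit 6) (nat_lit 5))
    (@En.n l19855 (nat_lit 8322) (nat_lit 7) (nat_lit 6))
    (@En.n l77 (nat_lit 1028) (nat_lit 9) (nat_lit 10))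
    (@En.n l197 (nat_lit 8383) (nat_lit 10) (nat_lit 11))
    (@En.n l67 (nat_lit 6889) (nat_lit 10) (nat_lit 2))
    (@En.n l68 (nat_lit 6887) (nat_lit 12) (nat_lit 11))
    (@En.n l645 (nat_lit 6787) (nat_lit 13) (nat_lit 14))
    (@En.n l1790 (nat_lit 8280) (nat_lit 2) (nat_lit 10))
    (@En.i (nat_lit 7152) (nat_lit 13) (nat_lit 5))
    (@En.n l17 (nat_lit 6889) (nat_lit 15) (nat_lit 2))))
  (@Cl.mk (nat_lit 0x200090005000a000e000b0002000b000700060005000c0005000b000e0004) (nat_lit 0x508520700040480) (nat_lit 16) Lb.e (@T16.mk En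
    (@En.n l3098 (nat_lit 6996) (nat_lit 6) (nat_lit 4))
    (@En.i (nat_lit 4658) (nat_lit 4) (nat_lit 14))
    (@En.n l291 (nat_lit 2149) (nat_lit 9) (nat_lit 11))
    (@En.i (nat_lit 1564) (nat_lit 3) (nat_lit 5))
    (@En.n l8984 (nat_lit 11174) (nat_lit 11) (nat_lit 12))
    (@En.i (nat_lit 6202) (nat_lit 5) (nat_lit 5))
    (@En.i (nat_lit 8321) (nat_lit 13) (nat_lit 6))
    (@En.n l9729 (nat_lit 2725) (nat_lit 14) (nat_lit 7))
    (@En.n l3424 (nat_lit 8382) (nat_lit 9) (nat_lit 11))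
    (@En.n l28 (nat_lit 6890) (nat_lit 9) (nat_lit 2))
    (@En.n l77 (nat_lit 6888) (nat_lit 11) (nat_lit 11))
    (@En.n l9730 (nat_lit 6788) (nat_lit 12) (nat_lit 14))
    (@En.n l8984 (nat_lit 8276) (nat_lit 2) (nat_lit 10))
    (@En.n l9731 (nat_lit 6889) (nat_lit 14) (nat_lit 5))
    (@En.i (nat_lit 6486) (nat_lit 4) (nat_lit 9))
    (@En.n l17 (nat_lit 6890) (nat_lit 15) (nat_lit 2))))
  (@Cl.mk (nat_lit 0x4000a0004000a000a000a000900060009000600060006000c0007000c0007) (nat_lit 0x507104020004060) (nat_lit 16) Lb.e (@T16.mk En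
    (@En.n l3279 (nat_lit 3149) (nat_lit 0) (nat_lit 7))
    (@En.n l2740 (nat_lit 2504) (nat_lit 1) (nat_lit 12))
    (@En.n l30013 (nat_lit 1550) (nat_lit 4) (nat_lit 7))
    (@En.n l18003 (nat_lit 10858) (nat_lit 3) (nat_lit 12))
    (@En.n l237 (nat_lit 6486) (nat_lit 10) (nat_lit 6))
    (@En.n l30014 (nat_lit 7818) (nat_lit 10) (nat_lit 6))
    (@En.n l833 (nat_lit 8753) (nat_lit 6) (nat_lit 6))
    (@En.n l9819 (nat_lit 6887) (nat_lit 9) (nat_lit 9))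
    (@En.n l19165 (nat_lit 6672) (nat_lit 8) (nat_lit 6))
    (@En.n l4380 (nat_lit 8570) (nat_lit 7) (nat_lit 9))
    (@En.n l30015 (nat_lit 7240) (nat_lit 6) (nat_lit 10))
    (@En.n l577 (nat_lit 2592) (nat_lit 6) (nat_lit 10))
    (@En.n l19220 (nat_lit 8826) (nat_lit 13) (nat_lit 10))
    (@En.n l833 (nat_lit 6042) (nat_lit 15) (nat_lit 4))
    (@En.n l30016 (nat_lit 2594) (nat_lit 0) (nat_lit 10))
    (@En.n l30017 (nat_lit 6882) (nat_lit 1) (nat_lit 4))))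
  (@Cl.mk (nat_lit 0x20005000c000b000900080004000e00050002000b0007000b0008000e0005) (nat_lit 0x87310500506350) (nat_lit 16) Lb.e (@T16.mk En
    (@En.n l50 (nat_lit 7247) (nat_lit 9) (nat_lit 5))
    (@En.n l23238 (nat_lit 6893) (nat_lit 1) (nat_lit 14))
    (@En.n l23446 (nat_lit 2979) (nat_lit 2) (nat_lit 8))
    (@En.i (nat_lit 2381) (nat_lit 3) (nat_lit 11))
    (@En.n l36817 (nat_lit 1552) (nat_lit 4) (nat_lit 7))
    (@En.n l36831 (nat_lit 11772) (nat_lit 6) (nat_lit 11))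
    (@En.n l28 (nat_lit 6892) (nat_lit 6) (nat_lit 2))
    (@En.n l36816 (nat_lit 6887) (nat_lit 7) (nat_lit 5))
    (@En.n l3938 (nat_lit 7897) (nat_lit 9) (nat_lit 14))
    (@En.n l32738 (nat_lit 8314) (nat_lit 9) (nat_lit 4))
    (@En.n l14437 (nat_lit 301) (nat_lit 11) (nat_lit 8))
    (@En.n l36832 (nat_lit 7687) (nat_lit 12) (nat_lit 9))
    (@En.n l36833 (nat_lit 7315) (nat_lit 13) (nat_lit 11))
    (@En.n l9916 (nat_lit 9302) (nat_lit 7) (nat_lit 12))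
    (@En.n l36834 (nat_lit 7738) (nat_lit 13) (nat_lit 5))
    (@En.n l18 (nat_lit 6892) (nat_lit 15) (nat_lit 2))))
  (@Cl.mk (nat_lit 0x2000b0005000c000b000900050004000e00050002000c0007000b000e0004) (nat_lit 0x608850020040640) (nat_lit 16) Lb.e (@T16.mk En
    (@En.n l19581 (nat_lit 7766) (nat_lit 10) (nat_lit 4))
    (@En.i (nat_lit 1947) (nat_lit 4) (nat_lit 14))
    (@En.n l1174 (nat_lit 2383) (nat_lit 2) (nat_lit 11))
    (@En.n l1034 (nat_lit 1760) (nat_lit 14) (nat_lit 7))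
    (@En.n l564 (nat_lit 11774) (nat_lit 5) (nat_lit 12))
    (@En.n l7 (nat_lit 6893) (nat_lit 5) (nat_lit 2))
    (@En.n l28 (nat_lit 6888) (nat_lit 6) (nat_lit 5))
    (@En.n l4021 (nat_lit 7900) (nat_lit 1) (nat_lit 14))
    (@En.i (nat_lit 8313) (nat_lit 2) (nat_lit 4))
    (@En.n l7998 (nat_lit 2994) (nat_lit 9) (nat_lit 5))
    (@En.n l575 (nat_lit 7686) (nat_lit 4) (nat_lit 9))
    (@En.n l575 (nat_lit 7316) (nat_lit 12) (nat_lit 11))
    (@En.n l20132 (nat_lit 7536) (nat_lit 7) (nat_lit 12))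
    (@En.n l24364 (nat_lit 6892) (nat_lit 14) (nat_lit 5))
    (@En.n l1167 (nat_lit 7240) (nat_lit 9) (nat_lit 11))
    (@En.n l17 (nat_lit 6893) (nat_lit 15) (nat_lit 2))))
  (@Cl.mk (nat_lit 0x20005000e000b0002000c000b000a00050004000b0005000b0006000e0005) (nat_lit 0x59095100205080) (nat_lit 16) Lb.e (@T16.mk En
    (@En.n l8467 (nat_lit 7917) (nat_lit 4) (nat_lit 5))
    (@En.n l10903 (nat_lit 6895) (nat_lit 1) (nat_lit 14))
    (@En.n l30350 (nat_lit 3222) (nat_lit 2) (nat_lit 6))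
    (@En.n l20054 (nat_lit 769) (nat_lit 3) (nat_lit 11))
    (@En.n l11 (nat_lit 1187) (nat_lit 4) (nat_lit 5))
    (@En.n l287 (nat_lit 10856) (nat_lit 10) (nat_lit 11))
    (@En.n l11 (nat_lit 6199) (nat_lit 6) (nat_lit 4))
    (@En.n l4153 (nat_lit 8344) (nat_lit 7) (nat_lit 5))
    (@En.n l77 (nat_lit 298) (nat_lit 9) (nat_lit 10))
    (@En.n l55 (nat_lit 8566) (nat_lit 10) (nat_lit 11))
    (@En.n l615 (nat_lit 7895) (nat_lit 11) (nat_lit 12))
    (@En.n l3 (nat_lit 6894) (nat_lit 11) (nat_lit 2))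
    (@En.i (nat_lit 6887) (nat_lit 13) (nat_lit 11))
    (@En.n l2150 (nat_lit 8217) (nat_lit 1) (nat_lit 14))
    (@En.i (nat_lit 7155) (nat_lit 13) (nat_lit 5))
    (@En.n l17 (nat_lit 6894) (nat_lit 15) (nat_lit 2))))
  (@Cl.mk (nat_lit 0x200090005000e000b0002000c000b000700050004000c0005000b000e0004) (nat_lit 0x50b909600020370) (nat_lit 16) Lb.e (@T16.mk En
    (@En.n l3098 (nat_lit 7916) (nat_lit 5) (nat_lit 4))
    (@En.i (nat_lit 3944) (nat_lit 7) (nat_lit 14))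
    (@En.n l580 (nat_lit 2141) (nat_lit 2) (nat_lit 11))
    (@En.n l1034 (nat_lit 1189) (nat_lit 3) (nat_lit 5))
    (@En.n l18003 (nat_lit 10854) (nat_lit 10) (nat_lit 12))
    (@En.n l22061 (nat_lit 6201) (nat_lit 5) (nat_lit 4))
    (@En.i (nat_lit 8306) (nat_lit 6) (nat_lit 5))
    (@En.n l22062 (nat_lit 2992) (nat_lit 7) (nat_lit 7))
    (@En.n l644 (nat_lit 8565) (nat_lit 9) (nat_lit 11))
    (@En.n l287 (nat_lit 7898) (nat_lit 10) (nat_lit 12))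
    (@En.n l11 (nat_lit 6895) (nat_lit 10) (nat_lit 2))
    (@En.i (nat_lit 6888) (nat_lit 12) (nat_lit 11))
    (@En.n l3447 (nat_lit 7005) (nat_lit 1) (nat_lit 14))
    (@En.n l10215 (nat_lit 6894) (nat_lit 14) (nat_lit 5))
    (@En.n l9819 (nat_lit 7818) (nat_lit 3) (nat_lit 9))
    (@En.n l17 (nat_lit 6895) (nat_lit 15) (nat_lit 2))))
noncomputable def a431 : T16 Cl := @T16.mk Cl
  (@Cl.mk (nat_lit 0x20005000b000b000a0008000b00050005000a00060005000b0008000e0006) (nat_lit 0x70334000002490) (nat_lit 16) Lb.e (@T16.mk En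
    (@En.n l21708 (nat_lit 9255) (nat_lit 1) (nat_lit 6))
    (@En.n l34226 (nat_lit 6897) (nat_lit 1) (nat_lit 14))
    (@En.n l1688 (nat_lit 8275) (nat_lit 2) (nat_lit 8))
    (@En.i (nat_lit 6887) (nat_lit 3) (nat_lit 11))
    (@En.n l34227 (nat_lit 3460) (nat_lit 4) (nat_lit 5))
    (@En.n l4509 (nat_lit 1403) (nat_lit 5) (nat_lit 6))
    (@En.n l2747 (nat_lit 11882) (nat_lit 7) (nat_lit 10))
    (@En.n l5584 (nat_lit 9250) (nat_lit 7) (nat_lit 5))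
    (@En.n l152 (nat_lit 8383) (nat_lit 8) (nat_lit 5))
    (@En.n l34228 (nat_lit 2696) (nat_lit 10) (nat_lit 11))
    (@En.n l8087 (nat_lit 6804) (nat_lit 11) (nat_lit 8))
    (@En.n l4512 (nat_lit 8376) (nat_lit 12) (nat_lit 10))
    (@En.n l34229 (nat_lit 9303) (nat_lit 13) (nat_lit 11))
    (@En.n l34230 (nat_lit 9405) (nat_lit 14) (nat_lit 11))
    (@En.n l28743 (nat_lit 9517) (nat_lit 13) (nat_lit 5))
    (@En.n l17 (nat_lit 6896) (nat_lit 15) (nat_lit 2))))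
  (@Cl.mk (nat_lit 0x2000b0005000b000b000a0005000b00050005000b00060005000b000e0005) (nat_lit 0x600020400000380) (nat_lit 16) Lb.e (@T16.mk En
    (@En.n l24881 (nat_lit 9257) (nat_lit 2) (nat_lit 5))
    (@En.i (nat_lit 8285) (nat_lit 4) (nat_lit 14))
    (@En.n l15116 (nat_lit 6888) (nat_lit 2) (nat_lit 11))
    (@En.n l4421 (nat_lit 3457) (nat_lit 3) (nat_lit 5))
    (@En.n l29757 (nat_lit 1400) (nat_lit 4) (nat_lit 6))
    (@En.n l29758 (nat_lit 11883) (nat_lit 6) (nat_lit 11))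
    (@En.n l29759 (nat_lit 9251) (nat_lit 6) (nat_lit 5))
    (@En.n l11 (nat_lit 8382) (nat_lit 7) (nat_lit 5))
    (@En.n l29760 (nat_lit 2688) (nat_lit 9) (nat_lit 11))
    (@En.n l29761 (nat_lit 7949) (nat_lit 9) (nat_lit 5))
    (@En.n l77 (nat_lit 8373) (nat_lit 11) (nat_lit 10))
    (@En.n l55 (nat_lit 9304) (nat_lit 5) (nat_lit 11))
    (@En.n l29758 (nat_lit 8751) (nat_lit 13) (nat_lit 11))
    (@En.n l29762 (nat_lit 6896) (nat_lit 14) (nat_lit 5))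
    (@En.n l29763 (nat_lit 8823) (nat_lit 0) (nat_lit 11))
    (@En.n l17 (nat_lit 6897) (nat_lit 15) (nat_lit 2))))
  (@Cl.mk (nat_lit 0x2000c00070007000b0004000c0008000b00050004000900090005000e0008) (nat_lit 0x700205160014086) (nat_lit 16) Lb.e (@T16.mk En
    (@En.n l20629 (nat_lit 6840) (nat_lit 5) (nat_lit 8))
    (@En.n l97 (nat_lit 6447) (nat_lit 1) (nat_lit 14))
    (@En.n l20630 (nat_lit 6938) (nat_lit 2) (nat_lit 5))
    (@En.n l20631 (nat_lit 6839) (nat_lit 7) (nat_lit 9))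
    (@En.n l20632 (nat_lit 5392) (nat_lit 4) (nat_lit 9))
    (@En.n l20633 (nat_lit 6591) (nat_lit 5) (nat_lit 4))
    (@En.i (nat_lit 9310) (nat_lit 6) (nat_lit 5))
    (@En.n l1625 (nat_lit 13962) (nat_lit 7) (nat_lit 11))
    (@En.n l3166 (nat_lit 6269) (nat_lit 9) (nat_lit 8))
    (@En.n l13188 (nat_lit 1646) (nat_lit 10) (nat_lit 12))
    (@En.n l10307 (nat_lit 6836) (nat_lit 10) (nat_lit 4))
    (@En.n l7406 (nat_lit 6914) (nat_lit 12) (nat_lit 11))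
    (@En.n l61 (nat_lit 6900) (nat_lit 9) (nat_lit 7))
    (@En.n l13189 (nat_lit 6558) (nat_lit 14) (nat_lit 7))
    (@En.n l20634 (nat_lit 8804) (nat_lit 3) (nat_lit 12))
    (@En.n l107 (nat_lit 6898) (nat_lit 15) (nat_lit 2))))
  (@Cl.mk (nat_lit 0x2000600090009000d0006000a0003000b00070007000a00060005000e000a) (nat_lit 0x60701040000072) (nat_lit 16) Lb.e (@T16.mk En
    (@En.n l4270 (nat_lit 6840) (nat_lit 8) (nat_lit 10))
    (@En.n l23846 (nat_lit 1767) (nat_lit 1) (nat_lit 14))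
    (@En.n l23847 (nat_lit 6596) (nat_lit 2) (nat_lit 5))
    (@En.n l23848 (nat_lit 9520) (nat_lit 3) (nat_lit 6))
    (@En.n l38228 (nat_lit 6900) (nat_lit 4) (nat_lit 10))
    (@En.n l12231 (nat_lit 6900) (nat_lit 5) (nat_lit 7))
    (@En.n l5732 (nat_lit 12135) (nat_lit 6) (nat_lit 7))
    (@En.n l38229 (nat_lit 4762) (nat_lit 8) (nat_lit 11))
    (@En.n l38230 (nat_lit 6902) (nat_lit 8) (nat_lit 3))
    (@En.n l27139 (nat_lit 1958) (nat_lit 10) (nat_lit 10))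
    (@En.n l38231 (nat_lit 6551) (nat_lit 11) (nat_lit 6))
    (@En.n l23848 (nat_lit 7678) (nat_lit 12) (nat_lit 13))
    (@En.n l11 (nat_lit 6903) (nat_lit 13) (nat_lit 9))
    (@En.n l5732 (nat_lit 6907) (nat_lit 9) (nat_lit 9))
    (@En.n l38232 (nat_lit 6637) (nat_lit 5) (nat_lit 6))
    (@En.n l50 (nat_lit 6899) (nat_lit 15) (nat_lit 2))))
  (@Cl.mk (nat_lit 0x20006000e00090002000d0007000b0003000c0007000a00050004000e0009) (nat_lit 0x97080104080062) (nat_lit 16) Lb.e (@T16.mk En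
    (@En.i (nat_lit 6898) (nat_lit 4) (nat_lit 9))
    (@En.i (nat_lit 1768) (nat_lit 1) (nat_lit 14))
    (@En.n l690 (nat_lit 6719) (nat_lit 2) (nat_lit 4))
    (@En.i (nat_lit 11015) (nat_lit 3) (nat_lit 5))
    (@En.i (nat_lit 13937) (nat_lit 8) (nat_lit 10))
    (@En.i (nat_lit 12137) (nat_lit 5) (nat_lit 7))
    (@En.n l3424 (nat_lit 4766) (nat_lit 7) (nat_lit 12))
    (@En.n l10307 (nat_lit 6901) (nat_lit 7) (nat_lit 3))
    (@En.i (nat_lit 1960) (nat_lit 9) (nat_lit 11))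
    (@En.n l9051 (nat_lit 6553) (nat_lit 14) (nat_lit 7))
    (@En.n l20182 (nat_lit 7679) (nat_lit 11) (nat_lit 13))
    (@En.n l107 (nat_lit 6900) (nat_lit 11) (nat_lit 2))
    (@En.n l22645 (nat_lit 6899) (nat_lit 13) (nat_lit 9))
    (@En.n l97 (nat_lit 6905) (nat_lit 1) (nat_lit 14))
    (@En.n l5120 (nat_lit 6640) (nat_lit 2) (nat_lit 6))
    (@En.n l17 (nat_lit 6900) (nat_lit 15) (nat_lit 2))))
  (@Cl.mk (nat_lit 0x20006000e00090002000d000a00080003000c0007000a00060004000e0008) (nat_lit 0x97087104000086) (nat_lit 16) Lb.e (@T16.mk En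
    (@En.i (nat_lit 6836) (nat_lit 4) (nat_lit 8))
    (@En.n l8119 (nat_lit 1769) (nat_lit 1) (nat_lit 14))
    (@En.i (nat_lit 6720) (nat_lit 2) (nat_lit 4))
    (@En.n l1643 (nat_lit 5350) (nat_lit 3) (nat_lit 6))
    (@En.i (nat_lit 13938) (nat_lit 8) (nat_lit 10))
    (@En.n l564 (nat_lit 12140) (nat_lit 5) (nat_lit 7))
    (@En.n l1415 (nat_lit 6507) (nat_lit 7) (nat_lit 12))
    (@En.n l7081 (nat_lit 6900) (nat_lit 7) (nat_lit 3))
    (@En.i (nat_lit 5681) (nat_lit 0) (nat_lit 8))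
    (@En.n l11084 (nat_lit 4963) (nat_lit 10) (nat_lit 10))
    (@En.i (nat_lit 8258) (nat_lit 11) (nat_lit 13))
    (@En.n l107 (nat_lit 6901) (nat_lit 11) (nat_lit 2))
    (@En.i (nat_lit 6902) (nat_lit 13) (nat_lit 9))
    (@En.n l97 (nat_lit 6906) (nat_lit 1) (nat_lit 14))
    (@En.n l617 (nat_lit 6913) (nat_lit 2) (nat_lit 6))
    (@En.n l17 (nat_lit 6901) (nat_lit 15) (nat_lit 2))))
  (@Cl.mk (nat_lit 0x2000600090009000d000900070003000b00070007000a00070005000e0009) (nat_lit 0x60860040010097) (nat_lit 16) Lb.e (@T16.mk En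
    (@En.n l26428 (nat_lit 6831) (nat_lit 8) (nat_lit 9))
    (@En.n l9555 (nat_lit 1770) (nat_lit 1) (nat_lit 14))
    (@En.i (nat_lit 6721) (nat_lit 2) (nat_lit 5))
    (@En.n l1643 (nat_lit 5356) (nat_lit 3) (nat_lit 7))
    (@En.n l3 (nat_lit 6901) (nat_lit 4) (nat_lit 10))
    (@En.n l527 (nat_lit 6901) (nat_lit 5) (nat_lit 7))
    (@En.n l9555 (nat_lit 12138) (nat_lit 6) (nat_lit 7))
    (@En.n l1415 (nat_lit 6506) (nat_lit 8) (nat_lit 11))
    (@En.n l26429 (nat_lit 6899) (nat_lit 8) (nat_lit 3))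
    (@En.n l25512 (nat_lit 5686) (nat_lit 0) (nat_lit 7))
    (@En.n l11084 (nat_lit 4962) (nat_lit 11) (nat_lit 9))
    (@En.n l5144 (nat_lit 8256) (nat_lit 12) (nat_lit 13))
    (@En.n l25511 (nat_lit 6904) (nat_lit 13) (nat_lit 9))
    (@En.n l25512 (nat_lit 6908) (nat_lit 9) (nat_lit 9))
    (@En.n l26430 (nat_lit 5425) (nat_lit 13) (nat_lit 6))
    (@En.n l17 (nat_lit 6902) (nat_lit 15) (nat_lit 2))))
  (@Cl.mk (nat_lit 0x200060009000d000500090003000a000e00070002000a00070006000e000b) (nat_lit 0x76010410010082) (nat_lit 16) Lb.e (@T16.mk En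
    (@En.n l4270 (nat_lit 6841) (nat_lit 11) (nat_lit 11))
    (@En.n l25427 (nat_lit 2012) (nat_lit 1) (nat_lit 14))
    (@En.n l1357 (nat_lit 6969) (nat_lit 2) (nat_lit 6))
    (@En.n l25595 (nat_lit 9518) (nat_lit 14) (nat_lit 7))
    (@En.i (nat_lit 6899) (nat_lit 4) (nat_lit 10))
    (@En.n l107 (nat_lit 6903) (nat_lit 5) (nat_lit 2))
    (@En.n l180 (nat_lit 6899) (nat_lit 6) (nat_lit 7))
    (@En.i (nat_lit 5118) (nat_lit 8) (nat_lit 14))
    (@En.n l3593 (nat_lit 4761) (nat_lit 9) (nat_lit 10))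
    (@En.n l2364 (nat_lit 6904) (nat_lit 9) (nat_lit 3))
    (@En.i (nat_lit 1962) (nat_lit 11) (nat_lit 9))
    (@En.n l3593 (nat_lit 6550) (nat_lit 5) (nat_lit 5))
    (@En.n l1357 (nat_lit 6168) (nat_lit 13) (nat_lit 13))
    (@En.i (nat_lit 6909) (nat_lit 9) (nat_lit 9))
    (@En.n l1357 (nat_lit 6638) (nat_lit 8) (nat_lit 6))
    (@En.n l50 (nat_lit 6903) (nat_lit 15) (nat_lit 2))))
  (@Cl.mk (nat_lit 0x200060009000d000800060003000a000e00070002000a00080006000e000a) (nat_lit 0x762004700250a8) (nat_lit 16) Lb.e (@T16.mk En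
    (@En.n l2301 (nat_lit 6837) (nat_lit 11) (nat_lit 10))
    (@En.n l3348 (nat_lit 2003) (nat_lit 1) (nat_lit 14))
    (@En.n l11826 (nat_lit 6968) (nat_lit 2) (nat_lit 6))
    (@En.n l12653 (nat_lit 7182) (nat_lit 14) (nat_lit 8))
    (@En.n l11829 (nat_lit 6902) (nat_lit 4) (nat_lit 10))
    (@En.n l107 (nat_lit 6904) (nat_lit 5) (nat_lit 2))
    (@En.n l11823 (nat_lit 6902) (nat_lit 6) (nat_lit 7))
    (@En.i (nat_lit 6628) (nat_lit 8) (nat_lit 14))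
    (@En.n l3928 (nat_lit 5286) (nat_lit 9) (nat_lit 10))
    (@En.n l763 (nat_lit 6903) (nat_lit 9) (nat_lit 3))
    (@En.i (nat_lit 5688) (nat_lit 4) (nat_lit 6))
    (@En.n l9325 (nat_lit 5050) (nat_lit 12) (nat_lit 8))
    (@En.n l11826 (nat_lit 6163) (nat_lit 13) (nat_lit 13))
    (@En.i (nat_lit 6910) (nat_lit 9) (nat_lit 9))
    (@En.n l847 (nat_lit 5424) (nat_lit 8) (nat_lit 6))
    (@En.n l50 (nat_lit 6904) (nat_lit 15) (nat_lit 2))))
  (@Cl.mk (nat_lit 0x20009000d0007000b0003000c0008000700050004000e00090002000e0008) (nat_lit 0x150207600063086) (nat_lit 16) Lb.e (@T16.mk En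
    (@En.n l15022 (nat_lit 6442) (nat_lit 14) (nat_lit 8))
    (@En.i (nat_lit 11900) (nat_lit 1) (nat_lit 14))
    (@En.n l17 (nat_lit 6905) (nat_lit 2) (nat_lit 2))
    (@En.i (nat_lit 6447) (nat_lit 3) (nat_lit 9))
    (@En.i (nat_lit 1765) (nat_lit 1) (nat_lit 14))
    (@En.n l23843 (nat_lit 5721) (nat_lit 5) (nat_lit 4))
    (@En.i (nat_lit 11058) (nat_lit 6) (nat_lit 5))
    (@En.i (nat_lit 5331) (nat_lit 7) (nat_lit 7))
    (@En.i (nat_lit 11922) (nat_lit 5) (nat_lit 8))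
    (@En.n l3424 (nat_lit 5733) (nat_lit 10) (nat_lit 12))
    (@En.n l10307 (nat_lit 6906) (nat_lit 10) (nat_lit 3))
    (@En.i (nat_lit 4658) (nat_lit 12) (nat_lit 11))
    (@En.n l9051 (nat_lit 6588) (nat_lit 13) (nat_lit 7))
    (@En.n l4160 (nat_lit 11748) (nat_lit 14) (nat_lit 13))
    (@En.n l11489 (nat_lit 6899) (nat_lit 12) (nat_lit 9))
    (@En.n l3 (nat_lit 6905) (nat_lit 15) (nat_lit 2))))
  (@Cl.mk (nat_lit 0x20009000d000a00080003000c0008000700060004000e00080002000e0008) (nat_lit 0x153607600082086) (nat_lit 16) Lb.e (@T16.mk En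
    (@En.i (nat_lit 6440) (nat_lit 14) (nat_lit 8))
    (@En.i (nat_lit 11899) (nat_lit 1) (nat_lit 14))
    (@En.n l17 (nat_lit 6906) (nat_lit 2) (nat_lit 2))
    (@En.i (nat_lit 6587) (nat_lit 3) (nat_lit 8))
    (@En.n l8118 (nat_lit 1761) (nat_lit 1) (nat_lit 14))
    (@En.i (nat_lit 5718) (nat_lit 5) (nat_lit 4))
    (@En.n l18318 (nat_lit 12333) (nat_lit 6) (nat_lit 6))
    (@En.i (nat_lit 5333) (nat_lit 7) (nat_lit 7))
    (@En.n l18319 (nat_lit 11913) (nat_lit 5) (nat_lit 8))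
    (@En.n l1415 (nat_lit 6499) (nat_lit 10) (nat_lit 12))
    (@En.n l7081 (nat_lit 6905) (nat_lit 10) (nat_lit 3))
    (@En.i (nat_lit 8033) (nat_lit 12) (nat_lit 8))
    (@En.n l11084 (nat_lit 4901) (nat_lit 13) (nat_lit 10))
    (@En.n l5577 (nat_lit 11749) (nat_lit 14) (nat_lit 13))
    (@En.n l107 (nat_lit 6902) (nat_lit 12) (nat_lit 9))
    (@En.n l3 (nat_lit 6906) (nat_lit 15) (nat_lit 2))))
  (@Cl.mk (nat_lit 0x200070006000e000b000200090008000d000500090003000a0007000e0008) (nat_lit 0x8305640206021) (nat_lit 16) Lb.e (@T16.mk En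
    (@En.n l23144 (nat_lit 6442) (nat_lit 5) (nat_lit 8))
    (@En.n l180 (nat_lit 6903) (nat_lit 7) (nat_lit 14))
    (@En.i (nat_lit 11432) (nat_lit 2) (nat_lit 7))
    (@En.n l3593 (nat_lit 4760) (nat_lit 3) (nat_lit 10))
    (@En.n l2364 (nat_lit 6908) (nat_lit 4) (nat_lit 3))
    (@En.i (nat_lit 2077) (nat_lit 5) (nat_lit 9))
    (@En.n l3593 (nat_lit 6549) (nat_lit 6) (nat_lit 5))
    (@En.n l2576 (nat_lit 8914) (nat_lit 8) (nat_lit 13))
    (@En.n l3 (nat_lit 6911) (nat_lit 14) (nat_lit 8))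
    (@En.i (nat_lit 11575) (nat_lit 10) (nat_lit 9))
    (@En.n l50 (nat_lit 6907) (nat_lit 10) (nat_lit 2))
    (@En.n l396 (nat_lit 6446) (nat_lit 12) (nat_lit 11))
    (@En.n l23035 (nat_lit 1693) (nat_lit 13) (nat_lit 14))
    (@En.n l23382 (nat_lit 6970) (nat_lit 14) (nat_lit 6))
    (@En.n l3596 (nat_lit 9564) (nat_lit 3) (nat_lit 7))
    (@En.n l11 (nat_lit 6907) (nat_lit 15) (nat_lit 2))))
  (@Cl.mk (nat_lit 0x200080006000e000a000200090008000d000800060003000a0007000e0008) (nat_lit 0x60a205631006081) (nat_lit 16) Lb.e (@T16.mk En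
    (@En.n l15940 (nat_lit 6440) (nat_lit 5) (nat_lit 8))
    (@En.n l180 (nat_lit 6904) (nat_lit 7) (nat_lit 14))
    (@En.n l11560 (nat_lit 11430) (nat_lit 2) (nat_lit 7))
    (@En.n l3928 (nat_lit 6503) (nat_lit 3) (nat_lit 10))
    (@En.n l763 (nat_lit 6907) (nat_lit 4) (nat_lit 3))
    (@En.i (nat_lit 5745) (nat_lit 0) (nat_lit 6))
    (@En.n l15941 (nat_lit 3171) (nat_lit 6) (nat_lit 8))
    (@En.n l2576 (nat_lit 8915) (nat_lit 8) (nat_lit 13))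
    (@En.n l3 (nat_lit 7018) (nat_lit 14) (nat_lit 8))
    (@En.n l2026 (nat_lit 11576) (nat_lit 10) (nat_lit 9))
    (@En.n l50 (nat_lit 6908) (nat_lit 10) (nat_lit 2))
    (@En.n l217 (nat_lit 6543) (nat_lit 12) (nat_lit 10))
    (@En.n l15942 (nat_lit 1692) (nat_lit 13) (nat_lit 14))
    (@En.n l15943 (nat_lit 5805) (nat_lit 14) (nat_lit 6))
    (@En.n l15944 (nat_lit 9637) (nat_lit 3) (nat_lit 8))
    (@En.n l11 (nat_lit 6908) (nat_lit 15) (nat_lit 2))))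
  (@Cl.mk (nat_lit 0x200080007000e000c00020009000d0004000800030009000d0007000e0003) (nat_lit 0x501606303054030) (nat_lit 16) Lb.e (@T16.mk En
    (@En.n l117 (nat_lit 6911) (nat_lit 5) (nat_lit 3))
    (@En.n l10357 (nat_lit 13842) (nat_lit 0) (nat_lit 14))
    (@En.i (nat_lit 6907) (nat_lit 2) (nat_lit 7))
    (@En.i (nat_lit 8861) (nat_lit 9) (nat_lit 13))
    (@En.n l3593 (nat_lit 4758) (nat_lit 4) (nat_lit 9))
    (@En.n l2364 (nat_lit 6910) (nat_lit 5) (nat_lit 3))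
    (@En.i (nat_lit 3975) (nat_lit 0) (nat_lit 8))
    (@En.n l3593 (nat_lit 5521) (nat_lit 7) (nat_lit 4))
    (@En.i (nat_lit 3800) (nat_lit 9) (nat_lit 13))
    (@En.i (nat_lit 7801) (nat_lit 10) (nat_lit 9))
    (@En.n l50 (nat_lit 6909) (nat_lit 10) (nat_lit 2))
    (@En.n l396 (nat_lit 7024) (nat_lit 12) (nat_lit 12))
    (@En.n l253 (nat_lit 359) (nat_lit 13) (nat_lit 14))
    (@En.n l23382 (nat_lit 6971) (nat_lit 14) (nat_lit 7))
    (@En.i (nat_lit 7355) (nat_lit 3) (nat_lit 8))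
    (@En.n l11 (nat_lit 6909) (nat_lit 15) (nat_lit 2))))
  (@Cl.mk (nat_lit 0x200090007000e000b00020009000d0007000500030009000d0007000e0003) (nat_lit 0x701806200055030) (nat_lit 16) Lb.e (@T16.mk En
    (@En.n l117 (nat_lit 7018) (nat_lit 5) (nat_lit 3))
    (@En.n l6838 (nat_lit 13843) (nat_lit 0) (nat_lit 14))
    (@En.i (nat_lit 6908) (nat_lit 2) (nat_lit 7))
    (@En.i (nat_lit 8264) (nat_lit 9) (nat_lit 13))
    (@En.n l3928 (nat_lit 7389) (nat_lit 4) (nat_lit 9))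
    (@En.n l763 (nat_lit 6909) (nat_lit 5) (nat_lit 3))
    (@En.i (nat_lit 7031) (nat_lit 0) (nat_lit 5))
    (@En.n l1545 (nat_lit 5320) (nat_lit 7) (nat_lit 7))
    (@En.i (nat_lit 3802) (nat_lit 9) (nat_lit 13))
    (@En.n l2026 (nat_lit 7798) (nat_lit 10) (nat_lit 9))
    (@En.n l50 (nat_lit 6910) (nat_lit 10) (nat_lit 2))
    (@En.n l217 (nat_lit 7016) (nat_lit 12) (nat_lit 11))
    (@En.n l14746 (nat_lit 352) (nat_lit 13) (nat_lit 14))
    (@En.n l2900 (nat_lit 6972) (nat_lit 14) (nat_lit 7))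
    (@En.i (nat_lit 7191) (nat_lit 3) (nat_lit 9))
    (@En.n l11 (nat_lit 6910) (nat_lit 15) (nat_lit 2))))
  (@Cl.mk (nat_lit 0x20008000d0004000800030009000d000d00080003000300080007000e000c) (nat_lit 0x530303452005015) (nat_lit 16) Lb.e (@T16.mk En
    (@En.n l396 (nat_lit 7020) (nat_lit 11) (nat_lit 12))
    (@En.n l3531 (nat_lit 343) (nat_lit 1) (nat_lit 14))
    (@En.n l6825 (nat_lit 6973) (nat_lit 2) (nat_lit 7))
    (@En.n l1897 (nat_lit 7357) (nat_lit 3) (nat_lit 8))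
    (@En.n l7126 (nat_lit 7023) (nat_lit 4) (nat_lit 3))
    (@En.n l152 (nat_lit 6909) (nat_lit 0) (nat_lit 3))
    (@En.n l6825 (nat_lit 7963) (nat_lit 6) (nat_lit 8))
    (@En.n l619 (nat_lit 6909) (nat_lit 3) (nat_lit 13))
    (@En.i (nat_lit 8850) (nat_lit 9) (nat_lit 13))
    (@En.i (nat_lit 4734) (nat_lit 10) (nat_lit 9))
    (@En.n l2364 (nat_lit 7018) (nat_lit 10) (nat_lit 3))
    (@En.i (nat_lit 3973) (nat_lit 0) (nat_lit 8))
    (@En.n l22708 (nat_lit 5516) (nat_lit 6) (nat_lit 4))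
    (@En.i (nat_lit 3799) (nat_lit 14) (nat_lit 13))
    (@En.n l6825 (nat_lit 7102) (nat_lit 1) (nat_lit 8))
    (@En.n l50 (nat_lit 6911) (nat_lit 15) (nat_lit 2))))
noncomputable def a432 : T16 Cl := @T16.mk Cl
  (@Cl.mk (nat_lit 0x2000d000800070003000c0007000a000d00040008000300090006000e0009) (nat_lit 0x930040730605097) (nat_lit 16) Lb.e (@T16.mk En
    (@En.n l36594 (nat_lit 5427) (nat_lit 12) (nat_lit 9))
    (@En.n l97 (nat_lit 6577) (nat_lit 1) (nat_lit 14))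
    (@En.n l26937 (nat_lit 6914) (nat_lit 2) (nat_lit 6))
    (@En.n l17 (nat_lit 6898) (nat_lit 3) (nat_lit 9))
    (@En.n l5567 (nat_lit 6913) (nat_lit 4) (nat_lit 3))
    (@En.n l18799 (nat_lit 6716) (nat_lit 0) (nat_lit 8))
    (@En.n l36595 (nat_lit 2890) (nat_lit 6) (nat_lit 4))
    (@En.n l4230 (nat_lit 12569) (nat_lit 8) (nat_lit 13))
    (@En.n l26937 (nat_lit 13892) (nat_lit 8) (nat_lit 10))
    (@En.n l3129 (nat_lit 10360) (nat_lit 14) (nat_lit 7))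
    (@En.n l11577 (nat_lit 5264) (nat_lit 11) (nat_lit 12))
    (@En.n l4224 (nat_lit 6642) (nat_lit 11) (nat_lit 3))
    (@En.i (nat_lit 5683) (nat_lit 0) (nat_lit 7))
    (@En.n l18797 (nat_lit 6561) (nat_lit 14) (nat_lit 8))
    (@En.n l36596 (nat_lit 6218) (nat_lit 2) (nat_lit 13))
    (@En.n l107 (nat_lit 6912) (nat_lit 15) (nat_lit 2))))
  (@Cl.mk (nat_lit 0x2000d000900070003000b0007000a000d00070005000300090006000e0009) (nat_lit 0x940040720005041) (nat_lit 16) Lb.e (@T16.mk En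
    (@En.n l26050 (nat_lit 5425) (nat_lit 12) (nat_lit 9))
    (@En.n l97 (nat_lit 6528) (nat_lit 1) (nat_lit 14))
    (@En.n l41606 (nat_lit 6915) (nat_lit 2) (nat_lit 6))
    (@En.n l2588 (nat_lit 6916) (nat_lit 3) (nat_lit 9))
    (@En.n l8121 (nat_lit 6912) (nat_lit 4) (nat_lit 3))
    (@En.n l5909 (nat_lit 5345) (nat_lit 0) (nat_lit 5))
    (@En.i (nat_lit 6836) (nat_lit 6) (nat_lit 7))
    (@En.n l1643 (nat_lit 12570) (nat_lit 8) (nat_lit 13))
    (@En.n l12912 (nat_lit 13890) (nat_lit 8) (nat_lit 10))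
    (@En.n l41607 (nat_lit 9662) (nat_lit 14) (nat_lit 7))
    (@En.n l32933 (nat_lit 4937) (nat_lit 11) (nat_lit 11))
    (@En.n l13169 (nat_lit 6640) (nat_lit 11) (nat_lit 3))
    (@En.n l25672 (nat_lit 5682) (nat_lit 0) (nat_lit 7))
    (@En.n l18962 (nat_lit 5055) (nat_lit 14) (nat_lit 9))
    (@En.n l5912 (nat_lit 6153) (nat_lit 2) (nat_lit 13))
    (@En.n l107 (nat_lit 6913) (nat_lit 15) (nat_lit 2))))
  (@Cl.mk (nat_lit 0x2000d0007000b0003000b0007000a0005000d0005000900030006000e0009) (nat_lit 0x701040704010067) (nat_lit 16) Lb.e (@T16.mk En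
    (@En.n l36679 (nat_lit 5423) (nat_lit 13) (nat_lit 9))
    (@En.n l97 (nat_lit 7725) (nat_lit 1) (nat_lit 14))
    (@En.n l18366 (nat_lit 2021) (nat_lit 12) (nat_lit 6))
    (@En.n l23844 (nat_lit 6915) (nat_lit 3) (nat_lit 3))
    (@En.n l36680 (nat_lit 5005) (nat_lit 0) (nat_lit 9))
    (@En.n l36681 (nat_lit 2884) (nat_lit 5) (nat_lit 5))
    (@En.n l3713 (nat_lit 6912) (nat_lit 7) (nat_lit 13))
    (@En.i (nat_lit 10051) (nat_lit 7) (nat_lit 5))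
    (@En.i (nat_lit 13895) (nat_lit 8) (nat_lit 10))
    (@En.n l36682 (nat_lit 9666) (nat_lit 5) (nat_lit 7))
    (@En.n l11849 (nat_lit 5243) (nat_lit 11) (nat_lit 11))
    (@En.i (nat_lit 6918) (nat_lit 11) (nat_lit 3))
    (@En.n l6904 (nat_lit 1959) (nat_lit 0) (nat_lit 11))
    (@En.n l5498 (nat_lit 6921) (nat_lit 14) (nat_lit 7))
    (@En.n l36683 (nat_lit 6215) (nat_lit 11) (nat_lit 13))
    (@En.n l107 (nat_lit 6914) (nat_lit 15) (nat_lit 2))))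
  (@Cl.mk (nat_lit 0x2000d0008000b0003000a0007000a0005000d0008000600030006000e0009) (nat_lit 0x922040703500031) (nat_lit 16) Lb.e (@T16.mk En
    (@En.n l1101 (nat_lit 5421) (nat_lit 13) (nat_lit 9))
    (@En.n l32851 (nat_lit 6533) (nat_lit 1) (nat_lit 14))
    (@En.i (nat_lit 2002) (nat_lit 12) (nat_lit 6))
    (@En.n l17219 (nat_lit 6914) (nat_lit 3) (nat_lit 3))
    (@En.n l3866 (nat_lit 1923) (nat_lit 0) (nat_lit 6))
    (@En.n l22465 (nat_lit 6916) (nat_lit 5) (nat_lit 8))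
    (@En.n l32852 (nat_lit 6913) (nat_lit 7) (nat_lit 13))
    (@En.n l1075 (nat_lit 10050) (nat_lit 7) (nat_lit 5))
    (@En.n l3866 (nat_lit 13896) (nat_lit 8) (nat_lit 10))
    (@En.n l3082 (nat_lit 9661) (nat_lit 5) (nat_lit 7))
    (@En.n l12290 (nat_lit 4933) (nat_lit 11) (nat_lit 10))
    (@En.n l5774 (nat_lit 6917) (nat_lit 11) (nat_lit 3))
    (@En.n l3082 (nat_lit 5988) (nat_lit 7) (nat_lit 11))
    (@En.n l14639 (nat_lit 5056) (nat_lit 14) (nat_lit 8))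
    (@En.n l5390 (nat_lit 6154) (nat_lit 2) (nat_lit 13))
    (@En.n l28 (nat_lit 6915) (nat_lit 15) (nat_lit 2))))
  (@Cl.mk (nat_lit 0x2000c00080007000b0004000b0008000b00050008000500090005000e0008) (nat_lit 0x730305680404031) (nat_lit 16) Lb.e (@T16.mk En
    (@En.n l33841 (nat_lit 5420) (nat_lit 5) (nat_lit 8))
    (@En.n l97 (nat_lit 7724) (nat_lit 1) (nat_lit 14))
    (@En.n l33842 (nat_lit 1464) (nat_lit 2) (nat_lit 5))
    (@En.n l11697 (nat_lit 6594) (nat_lit 3) (nat_lit 9))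
    (@En.i (nat_lit 6660) (nat_lit 4) (nat_lit 5))
    (@En.n l16589 (nat_lit 6833) (nat_lit 10) (nat_lit 8))
    (@En.n l17394 (nat_lit 10049) (nat_lit 6) (nat_lit 5))
    (@En.i (nat_lit 13967) (nat_lit 7) (nat_lit 11))
    (@En.n l15053 (nat_lit 9663) (nat_lit 9) (nat_lit 8))
    (@En.n l20711 (nat_lit 4934) (nat_lit 10) (nat_lit 11))
    (@En.n l4714 (nat_lit 2025) (nat_lit 10) (nat_lit 4))
    (@En.n l18910 (nat_lit 6915) (nat_lit 12) (nat_lit 11))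
    (@En.n l12047 (nat_lit 6914) (nat_lit 13) (nat_lit 7))
    (@En.n l11697 (nat_lit 5149) (nat_lit 14) (nat_lit 8))
    (@En.n l12048 (nat_lit 10370) (nat_lit 3) (nat_lit 12))
    (@En.n l107 (nat_lit 6916) (nat_lit 15) (nat_lit 2))))
  (@Cl.mk (nat_lit 0x2000d000a00090003000a0007000a0006000d0007000600030006000e0009) (nat_lit 0x957040005000032) (nat_lit 16) Lb.e (@T16.mk En
    (@En.n l31284 (nat_lit 6919) (nat_lit 13) (nat_lit 9))
    (@En.n l31285 (nat_lit 7149) (nat_lit 1) (nat_lit 14))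
    (@En.n l7 (nat_lit 1773) (nat_lit 12) (nat_lit 6))
    (@En.n l4388 (nat_lit 6918) (nat_lit 3) (nat_lit 3))
    (@En.n l4842 (nat_lit 1921) (nat_lit 0) (nat_lit 6))
    (@En.i (nat_lit 2025) (nat_lit 5) (nat_lit 7))
    (@En.n l476 (nat_lit 6640) (nat_lit 7) (nat_lit 13))
    (@En.n l11836 (nat_lit 9371) (nat_lit 7) (nat_lit 6))
    (@En.i (nat_lit 13897) (nat_lit 8) (nat_lit 10))
    (@En.i (nat_lit 8457) (nat_lit 5) (nat_lit 7))
    (@En.n l420 (nat_lit 7572) (nat_lit 11) (nat_lit 10))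
    (@En.n l5944 (nat_lit 6915) (nat_lit 11) (nat_lit 3))
    (@En.n l21744 (nat_lit 7832) (nat_lit 0) (nat_lit 9))
    (@En.n l29889 (nat_lit 3344) (nat_lit 14) (nat_lit 10))
    (@En.n l420 (nat_lit 6150) (nat_lit 2) (nat_lit 13))
    (@En.n l17 (nat_lit 6917) (nat_lit 15) (nat_lit 2))))
  (@Cl.mk (nat_lit 0x2000d000a00080003000b0007000a0006000d0005000800030006000e0009) (nat_lit 0x756040007040067) (nat_lit 16) Lb.e (@T16.mk En
    (@En.n l13287 (nat_lit 6920) (nat_lit 13) (nat_lit 9))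
    (@En.n l97 (nat_lit 7726) (nat_lit 1) (nat_lit 14))
    (@En.n l13437 (nat_lit 2019) (nat_lit 12) (nat_lit 6))
    (@En.n l1397 (nat_lit 6917) (nat_lit 3) (nat_lit 3))
    (@En.n l4407 (nat_lit 5001) (nat_lit 0) (nat_lit 8))
    (@En.n l1891 (nat_lit 2888) (nat_lit 5) (nat_lit 5))
    (@En.n l11456 (nat_lit 6642) (nat_lit 7) (nat_lit 13))
    (@En.i (nat_lit 9367) (nat_lit 7) (nat_lit 6))
    (@En.i (nat_lit 13489) (nat_lit 8) (nat_lit 10))
    (@En.n l13 (nat_lit 8460) (nat_lit 5) (nat_lit 7))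
    (@En.n l4408 (nat_lit 6921) (nat_lit 11) (nat_lit 11))
    (@En.n l28 (nat_lit 6914) (nat_lit 11) (nat_lit 3))
    (@En.i (nat_lit 5772) (nat_lit 0) (nat_lit 8))
    (@En.n l77 (nat_lit 3346) (nat_lit 14) (nat_lit 10))
    (@En.n l8108 (nat_lit 6123) (nat_lit 11) (nat_lit 13))
    (@En.n l107 (nat_lit 6918) (nat_lit 15) (nat_lit 2))))
  (@Cl.mk (nat_lit 0x3000600090009000d000900080003000900070007000a0007000d00080007) (nat_lit 0x12846040010610) (nat_lit 16) Lb.e (@T16.mk En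
    (@En.n l18 (nat_lit 1915) (nat_lit 0) (nat_lit 7))
    (@En.n l38781 (nat_lit 2022) (nat_lit 9) (nat_lit 8))
    (@En.n l936 (nat_lit 6637) (nat_lit 10) (nat_lit 13))
    (@En.i (nat_lit 9372) (nat_lit 3) (nat_lit 7))
    (@En.n l40283 (nat_lit 6917) (nat_lit 8) (nat_lit 10))
    (@En.n l40284 (nat_lit 6917) (nat_lit 9) (nat_lit 7))
    (@En.n l22951 (nat_lit 8458) (nat_lit 6) (nat_lit 7))
    (@En.n l8088 (nat_lit 7571) (nat_lit 8) (nat_lit 9))
    (@En.n l27811 (nat_lit 5421) (nat_lit 8) (nat_lit 3))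
    (@En.n l41692 (nat_lit 7823) (nat_lit 0) (nat_lit 8))
    (@En.n l22961 (nat_lit 3342) (nat_lit 11) (nat_lit 9))
    (@En.n l41693 (nat_lit 6148) (nat_lit 12) (nat_lit 13))
    (@En.n l41694 (nat_lit 6925) (nat_lit 7) (nat_lit 9))
    (@En.n l41695 (nat_lit 6385) (nat_lit 9) (nat_lit 9))
    (@En.n l41696 (nat_lit 1998) (nat_lit 12) (nat_lit 6))
    (@En.n l40282 (nat_lit 6920) (nat_lit 15) (nat_lit 3))))
  (@Cl.mk (nat_lit 0x3000600090009000d000900070003000a00070007000a0007000d00060009) (nat_lit 0x62640040010604) (nat_lit 16) Lb.e (@T16.mk En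
    (@En.n l5598 (nat_lit 4999) (nat_lit 0) (nat_lit 9))
    (@En.n l25937 (nat_lit 2840) (nat_lit 8) (nat_lit 6))
    (@En.n l50 (nat_lit 6639) (nat_lit 2) (nat_lit 13))
    (@En.n l29220 (nat_lit 9369) (nat_lit 3) (nat_lit 7))
    (@En.n l19505 (nat_lit 6918) (nat_lit 8) (nat_lit 10))
    (@En.n l4629 (nat_lit 6918) (nat_lit 9) (nat_lit 7))
    (@En.n l29221 (nat_lit 8461) (nat_lit 6) (nat_lit 7))
    (@En.n l29222 (nat_lit 6922) (nat_lit 8) (nat_lit 10))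
    (@En.n l29223 (nat_lit 5423) (nat_lit 8) (nat_lit 3))
    (@En.n l5598 (nat_lit 5770) (nat_lit 0) (nat_lit 7))
    (@En.n l29224 (nat_lit 3312) (nat_lit 11) (nat_lit 9))
    (@En.i (nat_lit 6119) (nat_lit 12) (nat_lit 13))
    (@En.n l14891 (nat_lit 6923) (nat_lit 7) (nat_lit 9))
    (@En.n l5598 (nat_lit 5439) (nat_lit 9) (nat_lit 9))
    (@En.n l29225 (nat_lit 2013) (nat_lit 12) (nat_lit 6))
    (@En.n l26307 (nat_lit 6919) (nat_lit 15) (nat_lit 3))))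
  (@Cl.mk (nat_lit 0x20007000b0008000b000600090005000c00050009000800040007000e000a) (nat_lit 0x13300050550078) (nat_lit 16) Lb.e (@T16.mk En
    (@En.i (nat_lit 6922) (nat_lit 13) (nat_lit 10))
    (@En.n l1578 (nat_lit 7727) (nat_lit 1) (nat_lit 14))
    (@En.n l2039 (nat_lit 2020) (nat_lit 2) (nat_lit 7))
    (@En.n l10995 (nat_lit 7572) (nat_lit 3) (nat_lit 4))
    (@En.n l11840 (nat_lit 6918) (nat_lit 4) (nat_lit 8))
    (@En.n l19493 (nat_lit 5360) (nat_lit 5) (nat_lit 9))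
    (@En.n l25037 (nat_lit 2889) (nat_lit 6) (nat_lit 5))
    (@En.n l250 (nat_lit 6561) (nat_lit 8) (nat_lit 12))
    (@En.n l50 (nat_lit 9366) (nat_lit 8) (nat_lit 5))
    (@En.i (nat_lit 13491) (nat_lit 9) (nat_lit 9))
    (@En.n l10997 (nat_lit 10552) (nat_lit 11) (nat_lit 6))
    (@En.i (nat_lit 5237) (nat_lit 7) (nat_lit 11))
    (@En.i (nat_lit 5769) (nat_lit 13) (nat_lit 8))
    (@En.n l11845 (nat_lit 3349) (nat_lit 14) (nat_lit 11))
    (@En.i (nat_lit 9846) (nat_lit 13) (nat_lit 7))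
    (@En.n l28 (nat_lit 6921) (nat_lit 15) (nat_lit 2))))
  (@Cl.mk (nat_lit 0x40007000a000a0006000a0007000a0006000600090006000c0006000a0009) (nat_lit 0x72040300107065) (nat_lit 16) Lb.e (@T16.mk En
    (@En.n l35043 (nat_lit 6920) (nat_lit 0) (nat_lit 9))
    (@En.n l19493 (nat_lit 1743) (nat_lit 1) (nat_lit 10))
    (@En.n l41686 (nat_lit 2842) (nat_lit 6) (nat_lit 6))
    (@En.n l41687 (nat_lit 6559) (nat_lit 3) (nat_lit 12))
    (@En.n l41688 (nat_lit 9370) (nat_lit 4) (nat_lit 6))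
    (@En.n l11 (nat_lit 6921) (nat_lit 9) (nat_lit 9))
    (@En.n l55 (nat_lit 6921) (nat_lit 10) (nat_lit 6))
    (@En.n l41689 (nat_lit 10553) (nat_lit 7) (nat_lit 6))
    (@En.i (nat_lit 5236) (nat_lit 8) (nat_lit 10))
    (@En.n l25824 (nat_lit 5773) (nat_lit 1) (nat_lit 7))
    (@En.n l41690 (nat_lit 3311) (nat_lit 9) (nat_lit 10))
    (@En.i (nat_lit 9842) (nat_lit 12) (nat_lit 6))
    (@En.n l6697 (nat_lit 6924) (nat_lit 6) (nat_lit 10))
    (@En.n l6698 (nat_lit 5438) (nat_lit 8) (nat_lit 10))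
    (@En.n l41691 (nat_lit 2018) (nat_lit 11) (nat_lit 7))
    (@En.n l10995 (nat_lit 7571) (nat_lit 15) (nat_lit 4))))
  (@Cl.mk (nat_lit 0x2000a0008000d0007000a000300060009000d0008000600030009000e0007) (nat_lit 0x207040015300470) (nat_lit 16) Lb.e (@T16.mk En
    (@En.n l14811 (nat_lit 6920) (nat_lit 6) (nat_lit 7))
    (@En.n l2916 (nat_lit 6687) (nat_lit 1) (nat_lit 14))
    (@En.n l22493 (nat_lit 6924) (nat_lit 2) (nat_lit 9))
    (@En.n l5200 (nat_lit 5422) (nat_lit 3) (nat_lit 3))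
    (@En.i (nat_lit 6019) (nat_lit 4) (nat_lit 6))
    (@En.n l29115 (nat_lit 3313) (nat_lit 5) (nat_lit 8))
    (@En.n l639 (nat_lit 6116) (nat_lit 7) (nat_lit 13))
    (@En.i (nat_lit 3983) (nat_lit 9) (nat_lit 9))
    (@En.n l197 (nat_lit 2014) (nat_lit 12) (nat_lit 6))
    (@En.n l29116 (nat_lit 6925) (nat_lit 9) (nat_lit 3))
    (@En.i (nat_lit 4998) (nat_lit 0) (nat_lit 10))
    (@En.n l17884 (nat_lit 2839) (nat_lit 12) (nat_lit 7))
    (@En.n l6213 (nat_lit 6641) (nat_lit 13) (nat_lit 13))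
    (@En.n l9874 (nat_lit 9629) (nat_lit 14) (nat_lit 8))
    (@En.n l14810 (nat_lit 6920) (nat_lit 4) (nat_lit 10))
    (@En.n l18 (nat_lit 6923) (nat_lit 15) (nat_lit 2))))
  (@Cl.mk (nat_lit 0x200090007000c0007000b000a00040007000a0005000900060009000e0006) (nat_lit 0x205055001030360) (nat_lit 16) Lb.e (@T16.mk En
    (@En.n l5611 (nat_lit 6922) (nat_lit 7) (nat_lit 6))
    (@En.n l37105 (nat_lit 9382) (nat_lit 1) (nat_lit 14))
    (@En.i (nat_lit 5235) (nat_lit 9) (nat_lit 9))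
    (@En.n l21569 (nat_lit 6020) (nat_lit 3) (nat_lit 6))
    (@En.n l39988 (nat_lit 3310) (nat_lit 4) (nat_lit 9))
    (@En.n l39989 (nat_lit 9854) (nat_lit 5) (nat_lit 5))
    (@En.i (nat_lit 5431) (nat_lit 8) (nat_lit 10))
    (@En.n l5595 (nat_lit 2017) (nat_lit 11) (nat_lit 7))
    (@En.n l39990 (nat_lit 7570) (nat_lit 8) (nat_lit 4))
    (@En.n l22623 (nat_lit 6923) (nat_lit 10) (nat_lit 10))
    (@En.n l21569 (nat_lit 1745) (nat_lit 11) (nat_lit 11))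
    (@En.n l22624 (nat_lit 2841) (nat_lit 12) (nat_lit 7))
    (@En.n l5649 (nat_lit 6560) (nat_lit 13) (nat_lit 12))
    (@En.n l5592 (nat_lit 9632) (nat_lit 14) (nat_lit 7))
    (@En.n l3100 (nat_lit 6922) (nat_lit 5) (nat_lit 9))
    (@En.n l28 (nat_lit 6924) (nat_lit 15) (nat_lit 2))))
  (@Cl.mk (nat_lit 0x2000a0008000d00090008000300060009000d0008000700030008000e0007) (nat_lit 0x257110017300420) (nat_lit 16) Lb.e (@T16.mk En
    (@En.n l29559 (nat_lit 6919) (nat_lit 6) (nat_lit 7))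
    (@En.n l35582 (nat_lit 6683) (nat_lit 1) (nat_lit 14))
    (@En.n l15173 (nat_lit 7570) (nat_lit 2) (nat_lit 8))
    (@En.i (nat_lit 5418) (nat_lit 3) (nat_lit 3))
    (@En.n l8163 (nat_lit 7824) (nat_lit 0) (nat_lit 7))
    (@En.n l25675 (nat_lit 3343) (nat_lit 5) (nat_lit 8))
    (@En.i (nat_lit 6099) (nat_lit 7) (nat_lit 13))
    (@En.n l1643 (nat_lit 5633) (nat_lit 9) (nat_lit 9))
    (@En.n l2682 (nat_lit 1999) (nat_lit 12) (nat_lit 6))
    (@En.n l35583 (nat_lit 6923) (nat_lit 9) (nat_lit 3))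
    (@En.n l14754 (nat_lit 1916) (nat_lit 0) (nat_lit 8))
    (@En.n l35584 (nat_lit 2024) (nat_lit 12) (nat_lit 9))
    (@En.n l6072 (nat_lit 6638) (nat_lit 13) (nat_lit 13))
    (@En.n l2038 (nat_lit 9631) (nat_lit 14) (nat_lit 8))
    (@En.n l35585 (nat_lit 6919) (nat_lit 4) (nat_lit 10))
    (@En.n l17 (nat_lit 6925) (nat_lit 15) (nat_lit 2))))
  (@Cl.mk (nat_lit 0x2000a000800080007000c000a0006000900040008000800060009000e0007) (nat_lit 0x165051070260400) (nat_lit 16) Lb.e (@T16.mk En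
    (@En.n l26537 (nat_lit 2023) (nat_lit 10) (nat_lit 7))
    (@En.n l3528 (nat_lit 9377) (nat_lit 1) (nat_lit 14))
    (@En.n l7471 (nat_lit 5259) (nat_lit 9) (nat_lit 9))
    (@En.n l6076 (nat_lit 6924) (nat_lit 3) (nat_lit 6))
    (@En.n l152 (nat_lit 2017) (nat_lit 8) (nat_lit 8))
    (@En.i (nat_lit 3301) (nat_lit 5) (nat_lit 8))
    (@En.n l12751 (nat_lit 9835) (nat_lit 6) (nat_lit 4))
    (@En.i (nat_lit 3254) (nat_lit 9) (nat_lit 9))
    (@En.n l5022 (nat_lit 1581) (nat_lit 8) (nat_lit 6))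
    (@En.n l6698 (nat_lit 2024) (nat_lit 10) (nat_lit 10))
    (@En.n l1578 (nat_lit 5356) (nat_lit 11) (nat_lit 12))
    (@En.n l4758 (nat_lit 6791) (nat_lit 12) (nat_lit 7))
    (@En.n l5140 (nat_lit 6928) (nat_lit 8) (nat_lit 8))
    (@En.n l8932 (nat_lit 9633) (nat_lit 14) (nat_lit 8))
    (@En.n l26538 (nat_lit 2023) (nat_lit 8) (nat_lit 10))
    (@En.n l18 (nat_lit 6926) (nat_lit 15) (nat_lit 2))))
  (@Cl.mk (nat_lit 0x20008000b00080008000b00070005000b00080005000800080005000e0009) (nat_lit 0x550000033052035) (nat_lit 16) Lb.e (@T16.mk En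
    (@En.n l21764 (nat_lit 2023) (nat_lit 14) (nat_lit 9))
    (@En.n l21022 (nat_lit 2086) (nat_lit 1) (nat_lit 14))
    (@En.n l26527 (nat_lit 9839) (nat_lit 2) (nat_lit 5))
    (@En.n l26528 (nat_lit 6928) (nat_lit 3) (nat_lit 8))
    (@En.n l26529 (nat_lit 5853) (nat_lit 4) (nat_lit 8))
    (@En.n l4862 (nat_lit 1582) (nat_lit 5) (nat_lit 5))
    (@En.n l26530 (nat_lit 6930) (nat_lit 6) (nat_lit 8))
    (@En.i (nat_lit 7180) (nat_lit 8) (nat_lit 11))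
    (@En.n l21100 (nat_lit 2543) (nat_lit 8) (nat_lit 5))
    (@En.n l21022 (nat_lit 9019) (nat_lit 10) (nat_lit 7))
    (@En.n l3 (nat_lit 6934) (nat_lit 7) (nat_lit 11))
    (@En.n l527 (nat_lit 6934) (nat_lit 8) (nat_lit 8))
    (@En.i (nat_lit 9830) (nat_lit 13) (nat_lit 8))
    (@En.n l5965 (nat_lit 5382) (nat_lit 7) (nat_lit 11))
    (@En.n l15747 (nat_lit 6555) (nat_lit 5) (nat_lit 8))
    (@En.n l7 (nat_lit 6927) (nat_lit 15) (nat_lit 2))))
noncomputable def a433 : T16 Cl := @T16.mk Cl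
  (@Cl.mk (nat_lit 0x20007000a000e00080002000b00080006000c0009000500080004000e0008) (nat_lit 0x58101404401013) (nat_lit 16) Lb.e (@T16.mk En
    (@En.n l10315 (nat_lit 6926) (nat_lit 5) (nat_lit 8))
    (@En.n l564 (nat_lit 2083) (nat_lit 1) (nat_lit 14))
    (@En.n l12747 (nat_lit 9838) (nat_lit 2) (nat_lit 4))
    (@En.n l8523 (nat_lit 5503) (nat_lit 3) (nat_lit 8))
    (@En.i (nat_lit 1579) (nat_lit 4) (nat_lit 5))
    (@En.n l12748 (nat_lit 6929) (nat_lit 5) (nat_lit 9))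
    (@En.n l12749 (nat_lit 7182) (nat_lit 7) (nat_lit 12))
    (@En.n l12750 (nat_lit 6782) (nat_lit 7) (nat_lit 6))
    (@En.i (nat_lit 9526) (nat_lit 14) (nat_lit 8))
    (@En.n l8528 (nat_lit 6927) (nat_lit 10) (nat_lit 11))
    (@En.n l3 (nat_lit 6928) (nat_lit 10) (nat_lit 2))
    (@En.n l12751 (nat_lit 6927) (nat_lit 12) (nat_lit 8))
    (@En.i (nat_lit 6723) (nat_lit 13) (nat_lit 14))
    (@En.n l1660 (nat_lit 5383) (nat_lit 8) (nat_lit 10))
    (@En.n l9769 (nat_lit 6557) (nat_lit 3) (nat_lit 7))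
    (@En.n l18 (nat_lit 6928) (nat_lit 15) (nat_lit 2))))
  (@Cl.mk (nat_lit 0x200070005000a000e00090002000c00090006000900040007000b000e0007) (nat_lit 0x6920070300410) (nat_lit 16) Lb.e (@T16.mk En
    (@En.n l187 (nat_lit 2024) (nat_lit 6) (nat_lit 7))
    (@En.n l5372 (nat_lit 2089) (nat_lit 4) (nat_lit 14))
    (@En.n l2009 (nat_lit 6130) (nat_lit 2) (nat_lit 11))
    (@En.n l1897 (nat_lit 5505) (nat_lit 3) (nat_lit 7))
    (@En.n l17942 (nat_lit 1667) (nat_lit 4) (nat_lit 4))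
    (@En.i (nat_lit 4979) (nat_lit 5) (nat_lit 9))
    (@En.n l19840 (nat_lit 6780) (nat_lit 6) (nat_lit 6))
    (@En.n l1106 (nat_lit 9528) (nat_lit 14) (nat_lit 9))
    (@En.n l11419 (nat_lit 6930) (nat_lit 9) (nat_lit 12))
    (@En.n l18 (nat_lit 6929) (nat_lit 9) (nat_lit 2))
    (@En.n l19841 (nat_lit 6930) (nat_lit 11) (nat_lit 9))
    (@En.n l17942 (nat_lit 6718) (nat_lit 12) (nat_lit 14))
    (@En.n l19842 (nat_lit 6928) (nat_lit 13) (nat_lit 10))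
    (@En.n l19843 (nat_lit 6931) (nat_lit 14) (nat_lit 5))
    (@En.n l2040 (nat_lit 6645) (nat_lit 4) (nat_lit 7))
    (@En.n l476 (nat_lit 6929) (nat_lit 15) (nat_lit 2))))
  (@Cl.mk (nat_lit 0x200080005000b00090009000c000800050008000400070007000b000e0008) (nat_lit 0x50612a602000535) (nat_lit 16) Lb.e (@T16.mk En
    (@En.n l28289 (nat_lit 2022) (nat_lit 2) (nat_lit 8))
    (@En.i (nat_lit 2087) (nat_lit 4) (nat_lit 14))
    (@En.n l5728 (nat_lit 9525) (nat_lit 2) (nat_lit 11))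
    (@En.n l25109 (nat_lit 6929) (nat_lit 3) (nat_lit 7))
    (@En.n l1576 (nat_lit 7716) (nat_lit 4) (nat_lit 7))
    (@En.n l12593 (nat_lit 1670) (nat_lit 5) (nat_lit 4))
    (@En.n l9941 (nat_lit 4947) (nat_lit 6) (nat_lit 8))
    (@En.n l19908 (nat_lit 2540) (nat_lit 7) (nat_lit 5))
    (@En.i (nat_lit 9021) (nat_lit 9) (nat_lit 8))
    (@En.n l28827 (nat_lit 6933) (nat_lit 10) (nat_lit 12))
    (@En.n l28828 (nat_lit 6933) (nat_lit 11) (nat_lit 9))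
    (@En.n l12593 (nat_lit 2624) (nat_lit 12) (nat_lit 9))
    (@En.n l12734 (nat_lit 6927) (nat_lit 13) (nat_lit 11))
    (@En.n l12594 (nat_lit 6932) (nat_lit 14) (nat_lit 5))
    (@En.n l28829 (nat_lit 6643) (nat_lit 0) (nat_lit 8))
    (@En.n l7 (nat_lit 6930) (nat_lit 15) (nat_lit 2))))
  (@Cl.mk (nat_lit 0x20005000a000e00090002000c00080006000c00040007000b0004000e0008) (nat_lit 0x62009503005025) (nat_lit 16) Lb.e (@T16.mk En
    (@En.n l387 (nat_lit 6937) (nat_lit 5) (nat_lit 8))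
    (@En.n l8485 (nat_lit 6929) (nat_lit 1) (nat_lit 14))
    (@En.n l8486 (nat_lit 6928) (nat_lit 2) (nat_lit 4))
    (@En.n l8262 (nat_lit 6131) (nat_lit 3) (nat_lit 11))
    (@En.n l3387 (nat_lit 5502) (nat_lit 4) (nat_lit 7))
    (@En.n l5385 (nat_lit 1668) (nat_lit 5) (nat_lit 4))
    (@En.n l810 (nat_lit 6630) (nat_lit 7) (nat_lit 12))
    (@En.n l8262 (nat_lit 6781) (nat_lit 7) (nat_lit 6))
    (@En.n l1357 (nat_lit 9527) (nat_lit 14) (nat_lit 8))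
    (@En.n l8487 (nat_lit 6932) (nat_lit 10) (nat_lit 12))
    (@En.n l18 (nat_lit 6931) (nat_lit 10) (nat_lit 2))
    (@En.n l8488 (nat_lit 6932) (nat_lit 12) (nat_lit 9))
    (@En.n l1357 (nat_lit 6720) (nat_lit 13) (nat_lit 14))
    (@En.n l8489 (nat_lit 7138) (nat_lit 14) (nat_lit 10))
    (@En.i (nat_lit 6838) (nat_lit 13) (nat_lit 5))
    (@En.n l172 (nat_lit 6931) (nat_lit 15) (nat_lit 2))))
  (@Cl.mk (nat_lit 0x20005000b00090009000c00070005000b000400070007000b0005000e0009) (nat_lit 0x67280050005046) (nat_lit 16) Lb.e (@T16.mk En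
    (@En.n l15418 (nat_lit 6936) (nat_lit 1) (nat_lit 9))
    (@En.n l15419 (nat_lit 6930) (nat_lit 1) (nat_lit 14))
    (@En.n l15420 (nat_lit 6927) (nat_lit 2) (nat_lit 5))
    (@En.i (nat_lit 11255) (nat_lit 3) (nat_lit 11))
    (@En.n l15421 (nat_lit 6931) (nat_lit 4) (nat_lit 7))
    (@En.n l15422 (nat_lit 7712) (nat_lit 5) (nat_lit 7))
    (@En.n l15423 (nat_lit 1671) (nat_lit 6) (nat_lit 4))
    (@En.n l15424 (nat_lit 6619) (nat_lit 8) (nat_lit 11))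
    (@En.n l14983 (nat_lit 2541) (nat_lit 8) (nat_lit 5))
    (@En.n l7912 (nat_lit 9017) (nat_lit 10) (nat_lit 7))
    (@En.n l15425 (nat_lit 6935) (nat_lit 11) (nat_lit 12))
    (@En.n l15426 (nat_lit 6935) (nat_lit 12) (nat_lit 9))
    (@En.n l15427 (nat_lit 8144) (nat_lit 13) (nat_lit 9))
    (@En.n l15428 (nat_lit 7137) (nat_lit 14) (nat_lit 11))
    (@En.n l15429 (nat_lit 6835) (nat_lit 13) (nat_lit 5))
    (@En.n l18 (nat_lit 6932) (nat_lit 15) (nat_lit 2))))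
  (@Cl.mk (nat_lit 0x200090005000c0009000c0007000400070004000e00070002000b000e0009) (nat_lit 0x506190000b00646) (nat_lit 16) Lb.e (@T16.mk En
    (@En.n l21019 (nat_lit 2025) (nat_lit 13) (nat_lit 9))
    (@En.n l21020 (nat_lit 2090) (nat_lit 4) (nat_lit 14))
    (@En.n l21021 (nat_lit 11258) (nat_lit 2) (nat_lit 11))
    (@En.n l107 (nat_lit 6933) (nat_lit 3) (nat_lit 2))
    (@En.n l21022 (nat_lit 6930) (nat_lit 4) (nat_lit 7))
    (@En.n l21023 (nat_lit 7708) (nat_lit 1) (nat_lit 14))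
    (@En.n l21020 (nat_lit 1675) (nat_lit 6) (nat_lit 4))
    (@En.n l21024 (nat_lit 4966) (nat_lit 7) (nat_lit 7))
    (@En.n l14463 (nat_lit 2538) (nat_lit 8) (nat_lit 4))
    (@En.n l21025 (nat_lit 9022) (nat_lit 5) (nat_lit 7))
    (@En.n l4497 (nat_lit 13874) (nat_lit 6) (nat_lit 12))
    (@En.i (nat_lit 2625) (nat_lit 12) (nat_lit 9))
    (@En.i (nat_lit 6934) (nat_lit 9) (nat_lit 12))
    (@En.n l11948 (nat_lit 6935) (nat_lit 14) (nat_lit 5))
    (@En.n l21026 (nat_lit 6644) (nat_lit 11) (nat_lit 9))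
    (@En.n l7 (nat_lit 6933) (nat_lit 15) (nat_lit 2))))
  (@Cl.mk (nat_lit 0x20006000e000a00020009000c0008000b00060004000a00070005000e0008) (nat_lit 0x460556900300b6) (nat_lit 16) Lb.e (@T16.mk En
    (@En.i (nat_lit 6927) (nat_lit 4) (nat_lit 8))
    (@En.n l21763 (nat_lit 5851) (nat_lit 1) (nat_lit 14))
    (@En.n l4862 (nat_lit 1586) (nat_lit 2) (nat_lit 5))
    (@En.n l207 (nat_lit 6933) (nat_lit 7) (nat_lit 7))
    (@En.i (nat_lit 7181) (nat_lit 4) (nat_lit 10))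
    (@En.n l21100 (nat_lit 2542) (nat_lit 5) (nat_lit 4))
    (@En.n l5965 (nat_lit 9020) (nat_lit 6) (nat_lit 6))
    (@En.n l4377 (nat_lit 13876) (nat_lit 7) (nat_lit 11))
    (@En.i (nat_lit 9829) (nat_lit 13) (nat_lit 8))
    (@En.n l5965 (nat_lit 5384) (nat_lit 6) (nat_lit 12))
    (@En.n l15747 (nat_lit 6558) (nat_lit 11) (nat_lit 9))
    (@En.n l7 (nat_lit 6934) (nat_lit 11) (nat_lit 2))
    (@En.n l21764 (nat_lit 6939) (nat_lit 13) (nat_lit 10))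
    (@En.n l134 (nat_lit 2088) (nat_lit 1) (nat_lit 14))
    (@En.n l5965 (nat_lit 7191) (nat_lit 2) (nat_lit 6))
    (@En.n l107 (nat_lit 6934) (nat_lit 15) (nat_lit 2))))
  (@Cl.mk (nat_lit 0x20005000c0009000c00060004000a0004000e00070002000b0006000e000a) (nat_lit 0x6170030a007057) (nat_lit 16) Lb.e (@T16.mk En
    (@En.n l1406 (nat_lit 6938) (nat_lit 12) (nat_lit 10))
    (@En.n l4316 (nat_lit 6933) (nat_lit 1) (nat_lit 14))
    (@En.n l4276 (nat_lit 6934) (nat_lit 14) (nat_lit 6))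
    (@En.n l9258 (nat_lit 11257) (nat_lit 3) (nat_lit 11))
    (@En.n l107 (nat_lit 6935) (nat_lit 4) (nat_lit 2))
    (@En.n l9259 (nat_lit 6932) (nat_lit 5) (nat_lit 7))
    (@En.n l9260 (nat_lit 7709) (nat_lit 7) (nat_lit 14))
    (@En.n l9261 (nat_lit 1772) (nat_lit 7) (nat_lit 4))
    (@En.i (nat_lit 5119) (nat_lit 9) (nat_lit 10))
    (@En.n l9262 (nat_lit 2539) (nat_lit 9) (nat_lit 4))
    (@En.n l9263 (nat_lit 9018) (nat_lit 5) (nat_lit 6))
    (@En.i (nat_lit 13872) (nat_lit 6) (nat_lit 12))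
    (@En.n l1318 (nat_lit 6417) (nat_lit 13) (nat_lit 9))
    (@En.n l9264 (nat_lit 7136) (nat_lit 9) (nat_lit 12))
    (@En.n l9262 (nat_lit 6839) (nat_lit 13) (nat_lit 5))
    (@En.n l50 (nat_lit 6935) (nat_lit 15) (nat_lit 2))))
  (@Cl.mk (nat_lit 0x4000a00080008000b000700070006000b000500080008000c000500090009) (nat_lit 0x500000060026051) (nat_lit 16) Lb.e (@T16.mk En
    (@En.n l30034 (nat_lit 2016) (nat_lit 7) (nat_lit 9))
    (@En.n l30035 (nat_lit 6919) (nat_lit 10) (nat_lit 9))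
    (@En.n l30036 (nat_lit 2023) (nat_lit 15) (nat_lit 5))
    (@En.i (nat_lit 11253) (nat_lit 7) (nat_lit 12))
    (@En.n l725 (nat_lit 6937) (nat_lit 8) (nat_lit 8))
    (@En.n l3340 (nat_lit 7711) (nat_lit 10) (nat_lit 8))
    (@En.n l3596 (nat_lit 1421) (nat_lit 6) (nat_lit 5))
    (@En.n l7843 (nat_lit 5113) (nat_lit 0) (nat_lit 11))
    (@En.n l19884 (nat_lit 6647) (nat_lit 10) (nat_lit 6))
    (@En.n l30037 (nat_lit 6932) (nat_lit 9) (nat_lit 7))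
    (@En.n l30038 (nat_lit 9374) (nat_lit 7) (nat_lit 7))
    (@En.n l30039 (nat_lit 6938) (nat_lit 7) (nat_lit 11))
    (@En.n l30040 (nat_lit 6938) (nat_lit 8) (nat_lit 8))
    (@En.n l30041 (nat_lit 8145) (nat_lit 14) (nat_lit 8))
    (@En.n l30042 (nat_lit 5015) (nat_lit 11) (nat_lit 10))
    (@En.n l7843 (nat_lit 5420) (nat_lit 15) (nat_lit 4))))
  (@Cl.mk (nat_lit 0x2000b000800080007000c00050008000c00040008000800040009000e0008) (nat_lit 0x166070150410521) (nat_lit 16) Lb.e (@T16.mk En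
    (@En.n l1353 (nat_lit 6936) (nat_lit 13) (nat_lit 8))
    (@En.n l19879 (nat_lit 6605) (nat_lit 1) (nat_lit 14))
    (@En.n l19880 (nat_lit 5019) (nat_lit 2) (nat_lit 9))
    (@En.n l7843 (nat_lit 5419) (nat_lit 3) (nat_lit 4))
    (@En.n l19881 (nat_lit 2015) (nat_lit 8) (nat_lit 8))
    (@En.n l6083 (nat_lit 6925) (nat_lit 5) (nat_lit 8))
    (@En.n l19882 (nat_lit 6926) (nat_lit 6) (nat_lit 4))
    (@En.i (nat_lit 6140) (nat_lit 8) (nat_lit 12))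
    (@En.n l19883 (nat_lit 5506) (nat_lit 10) (nat_lit 8))
    (@En.n l3596 (nat_lit 1673) (nat_lit 9) (nat_lit 5))
    (@En.n l7843 (nat_lit 5961) (nat_lit 11) (nat_lit 12))
    (@En.n l19884 (nat_lit 6652) (nat_lit 12) (nat_lit 7))
    (@En.n l2650 (nat_lit 6931) (nat_lit 8) (nat_lit 8))
    (@En.n l19885 (nat_lit 9568) (nat_lit 14) (nat_lit 8))
    (@En.i (nat_lit 6936) (nat_lit 11) (nat_lit 11))
    (@En.n l17 (nat_lit 6937) (nat_lit 15) (nat_lit 2))))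
  (@Cl.mk (nat_lit 0x2000c0006000a000a0004000b0008000b000600060005000a0005000e0008) (nat_lit 0x706105690005051) (nat_lit 16) Lb.e (@T16.mk En
    (@En.n l21739 (nat_lit 6936) (nat_lit 5) (nat_lit 8))
    (@En.n l21740 (nat_lit 7703) (nat_lit 1) (nat_lit 14))
    (@En.n l4525 (nat_lit 1771) (nat_lit 2) (nat_lit 5))
    (@En.n l4526 (nat_lit 6618) (nat_lit 3) (nat_lit 10))
    (@En.n l21741 (nat_lit 6648) (nat_lit 4) (nat_lit 5))
    (@En.n l4528 (nat_lit 6935) (nat_lit 10) (nat_lit 6))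
    (@En.n l21742 (nat_lit 9373) (nat_lit 6) (nat_lit 6))
    (@En.i (nat_lit 13868) (nat_lit 7) (nat_lit 11))
    (@En.n l6214 (nat_lit 8147) (nat_lit 9) (nat_lit 8))
    (@En.n l21743 (nat_lit 5020) (nat_lit 10) (nat_lit 11))
    (@En.n l4530 (nat_lit 6916) (nat_lit 10) (nat_lit 4))
    (@En.n l21744 (nat_lit 2021) (nat_lit 6) (nat_lit 10))
    (@En.i (nat_lit 6917) (nat_lit 13) (nat_lit 10))
    (@En.n l4531 (nat_lit 6939) (nat_lit 14) (nat_lit 6))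
    (@En.n l420 (nat_lit 11254) (nat_lit 3) (nat_lit 12))
    (@En.n l17 (nat_lit 6938) (nat_lit 15) (nat_lit 2))))
  (@Cl.mk (nat_lit 0x20006000a000a0008000b0007000a000600060005000a00080006000e0009) (nat_lit 0x58440800041061) (nat_lit 16) Lb.e (@T16.mk En
    (@En.i (nat_lit 2023) (nat_lit 1) (nat_lit 9))
    (@En.n l1578 (nat_lit 7702) (nat_lit 1) (nat_lit 14))
    (@En.n l12061 (nat_lit 1585) (nat_lit 2) (nat_lit 6))
    (@En.n l12062 (nat_lit 2025) (nat_lit 3) (nat_lit 8))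
    (@En.n l6080 (nat_lit 5357) (nat_lit 4) (nat_lit 10))
    (@En.n l1778 (nat_lit 6795) (nat_lit 5) (nat_lit 5))
    (@En.n l37521 (nat_lit 6934) (nat_lit 6) (nat_lit 6))
    (@En.i (nat_lit 9363) (nat_lit 7) (nat_lit 6))
    (@En.i (nat_lit 13490) (nat_lit 8) (nat_lit 10))
    (@En.n l37522 (nat_lit 7961) (nat_lit 10) (nat_lit 7))
    (@En.i (nat_lit 5257) (nat_lit 11) (nat_lit 11))
    (@En.n l742 (nat_lit 6921) (nat_lit 12) (nat_lit 8))
    (@En.n l5913 (nat_lit 2020) (nat_lit 13) (nat_lit 10))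
    (@En.n l892 (nat_lit 3347) (nat_lit 14) (nat_lit 10))
    (@En.i (nat_lit 7189) (nat_lit 13) (nat_lit 6))
    (@En.n l28 (nat_lit 6939) (nat_lit 15) (nat_lit 2))))
  (@Cl.mk (nat_lit 0x200060009000e00080002000c0008000b00070004000a00080005000e0008) (nat_lit 0x51205690044046) (nat_lit 16) Lb.e (@T16.mk En
    (@En.n l16653 (nat_lit 6830) (nat_lit 5) (nat_lit 8))
    (@En.n l35995 (nat_lit 5744) (nat_lit 1) (nat_lit 14))
    (@En.i (nat_lit 1193) (nat_lit 2) (nat_lit 5))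
    (@En.n l17581 (nat_lit 6828) (nat_lit 3) (nat_lit 8))
    (@En.n l35949 (nat_lit 6942) (nat_lit 10) (nat_lit 10))
    (@En.n l28 (nat_lit 6943) (nat_lit 5) (nat_lit 4))
    (@En.n l4306 (nat_lit 2019) (nat_lit 6) (nat_lit 7))
    (@En.i (nat_lit 12864) (nat_lit 7) (nat_lit 11))
    (@En.n l2650 (nat_lit 11208) (nat_lit 14) (nat_lit 8))
    (@En.n l20182 (nat_lit 2093) (nat_lit 10) (nat_lit 12))
    (@En.n l107 (nat_lit 6940) (nat_lit 10) (nat_lit 2))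
    (@En.n l13286 (nat_lit 6517) (nat_lit 12) (nat_lit 8))
    (@En.n l97 (nat_lit 1641) (nat_lit 13) (nat_lit 14))
    (@En.n l1680 (nat_lit 5024) (nat_lit 9) (nat_lit 9))
    (@En.i (nat_lit 8424) (nat_lit 3) (nat_lit 6))
    (@En.n l17 (nat_lit 6940) (nat_lit 15) (nat_lit 2))))
  (@Cl.mk (nat_lit 0x2000500090009000c0008000b00080004000700070005000b0008000e0008) (nat_lit 0x67054500007222) (nat_lit 16) Lb.e (@T16.mk En
    (@En.n l33500 (nat_lit 6514) (nat_lit 1) (nat_lit 8))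
    (@En.n l2038 (nat_lit 6944) (nat_lit 1) (nat_lit 14))
    (@En.n l8 (nat_lit 6830) (nat_lit 2) (nat_lit 8))
    (@En.i (nat_lit 6834) (nat_lit 3) (nat_lit 11))
    (@En.n l24522 (nat_lit 8384) (nat_lit 4) (nat_lit 5))
    (@En.n l17 (nat_lit 6946) (nat_lit 5) (nat_lit 7))
    (@En.n l24522 (nat_lit 6948) (nat_lit 6) (nat_lit 7))
    (@En.n l33501 (nat_lit 1404) (nat_lit 7) (nat_lit 4))
    (@En.i (nat_lit 6684) (nat_lit 0) (nat_lit 8))
    (@En.n l33502 (nat_lit 1274) (nat_lit 10) (nat_lit 11))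
    (@En.n l33503 (nat_lit 6939) (nat_lit 11) (nat_lit 8))
    (@En.n l33504 (nat_lit 6942) (nat_lit 12) (nat_lit 12))
    (@En.n l33505 (nat_lit 6942) (nat_lit 13) (nat_lit 9))
    (@En.n l33506 (nat_lit 11281) (nat_lit 14) (nat_lit 9))
    (@En.n l33507 (nat_lit 7180) (nat_lit 13) (nat_lit 5))
    (@En.n l28 (nat_lit 6941) (nat_lit 15) (nat_lit 2))))
  (@Cl.mk (nat_lit 0x200050009000c0007000a00070004000e000700020006000b0009000e0009) (nat_lit 0x6a0300c0008622) (nat_lit 16) Lb.e (@T16.mk En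
    (@En.n l6108 (nat_lit 6516) (nat_lit 11) (nat_lit 9))
    (@En.n l16615 (nat_lit 6943) (nat_lit 12) (nat_lit 14))
    (@En.n l14906 (nat_lit 6940) (nat_lit 13) (nat_lit 9))
    (@En.n l24691 (nat_lit 6833) (nat_lit 3) (nat_lit 11))
    (@En.i (nat_lit 8396) (nat_lit 4) (nat_lit 6))
    (@En.n l7 (nat_lit 6942) (nat_lit 5) (nat_lit 2))
    (@En.n l41306 (nat_lit 6941) (nat_lit 6) (nat_lit 7))
    (@En.n l134 (nat_lit 5748) (nat_lit 8) (nat_lit 14))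
    (@En.n l2042 (nat_lit 1441) (nat_lit 8) (nat_lit 4))
    (@En.n l248 (nat_lit 6683) (nat_lit 3) (nat_lit 7))
    (@En.i (nat_lit 1275) (nat_lit 11) (nat_lit 10))
    (@En.n l610 (nat_lit 2020) (nat_lit 12) (nat_lit 7))
    (@En.n l2042 (nat_lit 12866) (nat_lit 6) (nat_lit 12))
    (@En.n l3336 (nat_lit 11205) (nat_lit 14) (nat_lit 9))
    (@En.n l2571 (nat_lit 7181) (nat_lit 8) (nat_lit 5))
    (@En.n l3 (nat_lit 6942) (nat_lit 15) (nat_lit 2))))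
  (@Cl.mk (nat_lit 0x20006000b000e00080002000c00050009000c0004000a00080004000e0007) (nat_lit 0x51307066035080) (nat_lit 16) Lb.e (@T16.mk En
    (@En.n l29259 (nat_lit 6944) (nat_lit 5) (nat_lit 7))
    (@En.n l29260 (nat_lit 5742) (nat_lit 1) (nat_lit 14))
    (@En.i (nat_lit 1443) (nat_lit 2) (nat_lit 4))
    (@En.n l29261 (nat_lit 6685) (nat_lit 3) (nat_lit 8))
    (@En.n l11302 (nat_lit 1276) (nat_lit 10) (nat_lit 10))
    (@En.n l17581 (nat_lit 9908) (nat_lit 5) (nat_lit 4))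
    (@En.i (nat_lit 12865) (nat_lit 6) (nat_lit 12))
    (@En.n l3303 (nat_lit 11247) (nat_lit 13) (nat_lit 9))
    (@En.n l29262 (nat_lit 6942) (nat_lit 14) (nat_lit 5))
    (@En.n l11303 (nat_lit 4928) (nat_lit 10) (nat_lit 12))
    (@En.n l107 (nat_lit 6943) (nat_lit 10) (nat_lit 2))
    (@En.n l1678 (nat_lit 6518) (nat_lit 12) (nat_lit 8))
    (@En.n l619 (nat_lit 1638) (nat_lit 13) (nat_lit 14))
    (@En.n l29263 (nat_lit 6839) (nat_lit 2) (nat_lit 11))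
    (@En.n l3303 (nat_lit 8378) (nat_lit 3) (nat_lit 6))
    (@En.n l17 (nat_lit 6943) (nat_lit 15) (nat_lit 2))))
noncomputable def a434 : T16 Cl := @T16.mk Cl
  (@Cl.mk (nat_lit 0x2000b000500090009000c0005000b00090004000700070005000b000e0007) (nat_lit 0x606770460000410) (nat_lit 16) Lb.e (@T16.mk En
    (@En.n l37681 (nat_lit 6515) (nat_lit 2) (nat_lit 7))
    (@En.n l37682 (nat_lit 1636) (nat_lit 4) (nat_lit 14))
    (@En.i (nat_lit 6835) (nat_lit 2) (nat_lit 11))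
    (@En.n l15434 (nat_lit 8381) (nat_lit 3) (nat_lit 5))
    (@En.n l17 (nat_lit 6945) (nat_lit 4) (nat_lit 7))
    (@En.n l37639 (nat_lit 6949) (nat_lit 11) (nat_lit 7))
    (@En.n l37683 (nat_lit 1406) (nat_lit 6) (nat_lit 4))
    (@En.n l6184 (nat_lit 6686) (nat_lit 0) (nat_lit 9))
    (@En.n l3144 (nat_lit 1253) (nat_lit 9) (nat_lit 11))
    (@En.n l6183 (nat_lit 9615) (nat_lit 9) (nat_lit 5))
    (@En.n l37684 (nat_lit 6943) (nat_lit 6) (nat_lit 12))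
    (@En.n l37685 (nat_lit 6943) (nat_lit 7) (nat_lit 9))
    (@En.n l37686 (nat_lit 11248) (nat_lit 13) (nat_lit 9))
    (@En.n l1599 (nat_lit 6941) (nat_lit 14) (nat_lit 5))
    (@En.n l37687 (nat_lit 4929) (nat_lit 0) (nat_lit 11))
    (@En.n l11 (nat_lit 6944) (nat_lit 15) (nat_lit 2))))
  (@Cl.mk (nat_lit 0x2000a0005000e00090002000c0006000c000a000400070004000b000e0006) (nat_lit 0x509708057000310) (nat_lit 16) Lb.e (@T16.mk En
    (@En.n l31581 (nat_lit 6519) (nat_lit 5) (nat_lit 6))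
    (@En.n l7988 (nat_lit 1637) (nat_lit 7) (nat_lit 14))
    (@En.i (nat_lit 6838) (nat_lit 2) (nat_lit 11))
    (@En.n l31582 (nat_lit 9251) (nat_lit 3) (nat_lit 4))
    (@En.n l23383 (nat_lit 4805) (nat_lit 11) (nat_lit 7))
    (@En.n l31583 (nat_lit 1399) (nat_lit 5) (nat_lit 4))
    (@En.n l810 (nat_lit 6740) (nat_lit 12) (nat_lit 10))
    (@En.i (nat_lit 1283) (nat_lit 8) (nat_lit 12))
    (@En.n l22008 (nat_lit 9614) (nat_lit 14) (nat_lit 6))
    (@En.i (nat_lit 6944) (nat_lit 10) (nat_lit 12))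
    (@En.n l18 (nat_lit 6945) (nat_lit 10) (nat_lit 2))
    (@En.n l5 (nat_lit 6944) (nat_lit 12) (nat_lit 9))
    (@En.n l7983 (nat_lit 11035) (nat_lit 1) (nat_lit 14))
    (@En.n l1599 (nat_lit 6946) (nat_lit 14) (nat_lit 5))
    (@En.n l31584 (nat_lit 5417) (nat_lit 3) (nat_lit 10))
    (@En.n l11 (nat_lit 6945) (nat_lit 15) (nat_lit 2))))
  (@Cl.mk (nat_lit 0x20005000e00090002000c0009000c0009000400070004000b0007000e0007) (nat_lit 0xa7016530006020) (nat_lit 16) Lb.e (@T16.mk En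
    (@En.n l4770 (nat_lit 5287) (nat_lit 4) (nat_lit 7))
    (@En.n l2038 (nat_lit 6945) (nat_lit 1) (nat_lit 14))
    (@En.n l8 (nat_lit 6947) (nat_lit 2) (nat_lit 7))
    (@En.i (nat_lit 6832) (nat_lit 3) (nat_lit 11))
    (@En.n l24520 (nat_lit 9250) (nat_lit 4) (nat_lit 4))
    (@En.i (nat_lit 4811) (nat_lit 5) (nat_lit 7))
    (@En.n l24521 (nat_lit 1402) (nat_lit 6) (nat_lit 4))
    (@En.i (nat_lit 6773) (nat_lit 12) (nat_lit 9))
    (@En.n l24522 (nat_lit 1382) (nat_lit 9) (nat_lit 12))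
    (@En.n l3866 (nat_lit 6934) (nat_lit 10) (nat_lit 9))
    (@En.i (nat_lit 6941) (nat_lit 11) (nat_lit 12))
    (@En.n l18 (nat_lit 6946) (nat_lit 11) (nat_lit 2))
    (@En.n l5 (nat_lit 6941) (nat_lit 13) (nat_lit 9))
    (@En.n l4850 (nat_lit 12817) (nat_lit 1) (nat_lit 14))
    (@En.n l24523 (nat_lit 7182) (nat_lit 13) (nat_lit 5))
    (@En.n l28 (nat_lit 6946) (nat_lit 15) (nat_lit 2))))
  (@Cl.mk (nat_lit 0x2000a000e00080002000b00090006000c000a0005000800040007000e0006) (nat_lit 0x591016064050010) (nat_lit 16) Lb.e (@T16.mk En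
    (@En.n l4770 (nat_lit 5284) (nat_lit 4) (nat_lit 6))
    (@En.n l9657 (nat_lit 1642) (nat_lit 1) (nat_lit 14))
    (@En.n l12876 (nat_lit 5064) (nat_lit 2) (nat_lit 7))
    (@En.i (nat_lit 8280) (nat_lit 7) (nat_lit 4))
    (@En.n l12876 (nat_lit 7195) (nat_lit 4) (nat_lit 8))
    (@En.n l29101 (nat_lit 1407) (nat_lit 5) (nat_lit 5))
    (@En.i (nat_lit 6829) (nat_lit 11) (nat_lit 10))
    (@En.i (nat_lit 6946) (nat_lit 8) (nat_lit 12))
    (@En.n l1504 (nat_lit 6945) (nat_lit 8) (nat_lit 6))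
    (@En.n l3866 (nat_lit 6933) (nat_lit 14) (nat_lit 9))
    (@En.i (nat_lit 6830) (nat_lit 11) (nat_lit 11))
    (@En.n l18 (nat_lit 6947) (nat_lit 11) (nat_lit 2))
    (@En.n l5 (nat_lit 6830) (nat_lit 13) (nat_lit 8))
    (@En.n l12876 (nat_lit 12816) (nat_lit 1) (nat_lit 14))
    (@En.n l26350 (nat_lit 2092) (nat_lit 2) (nat_lit 10))
    (@En.n l28 (nat_lit 6947) (nat_lit 15) (nat_lit 2))))
  (@Cl.mk (nat_lit 0x200050009000e000a00020009000c0009000700060004000b0007000e0007) (nat_lit 0x7b104520006080) (nat_lit 16) Lb.e (@T16.mk En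
    (@En.n l31585 (nat_lit 6951) (nat_lit 5) (nat_lit 7))
    (@En.n l6760 (nat_lit 6949) (nat_lit 7) (nat_lit 14))
    (@En.n l31586 (nat_lit 6950) (nat_lit 7) (nat_lit 7))
    (@En.n l16828 (nat_lit 7011) (nat_lit 3) (nat_lit 11))
    (@En.i (nat_lit 8945) (nat_lit 4) (nat_lit 4))
    (@En.n l31587 (nat_lit 4810) (nat_lit 5) (nat_lit 6))
    (@En.n l11079 (nat_lit 9232) (nat_lit 6) (nat_lit 7))
    (@En.n l16828 (nat_lit 4444) (nat_lit 13) (nat_lit 9))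
    (@En.i (nat_lit 3230) (nat_lit 9) (nat_lit 12))
    (@En.n l4889 (nat_lit 9363) (nat_lit 10) (nat_lit 9))
    (@En.n l11 (nat_lit 6948) (nat_lit 10) (nat_lit 2))
    (@En.n l11080 (nat_lit 5156) (nat_lit 12) (nat_lit 10))
    (@En.n l16828 (nat_lit 6946) (nat_lit 13) (nat_lit 14))
    (@En.n l1253 (nat_lit 7490) (nat_lit 2) (nat_lit 9))
    (@En.n l6103 (nat_lit 7184) (nat_lit 13) (nat_lit 5))
    (@En.n l3 (nat_lit 6948) (nat_lit 15) (nat_lit 2))))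
  (@Cl.mk (nat_lit 0x20006000c000a000700060004000b000e00060002000a00050009000e000a) (nat_lit 0x520005700507a1) (nat_lit 16) Lb.e (@T16.mk En
    (@En.n l11 (nat_lit 5158) (nat_lit 11) (nat_lit 10))
    (@En.n l16442 (nat_lit 6945) (nat_lit 12) (nat_lit 14))
    (@En.n l2248 (nat_lit 8042) (nat_lit 2) (nat_lit 9))
    (@En.n l16443 (nat_lit 6948) (nat_lit 14) (nat_lit 5))
    (@En.n l3928 (nat_lit 7543) (nat_lit 4) (nat_lit 10))
    (@En.n l17 (nat_lit 6949) (nat_lit 5) (nat_lit 2))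
    (@En.n l3928 (nat_lit 6953) (nat_lit 6) (nat_lit 6))
    (@En.i (nat_lit 4823) (nat_lit 8) (nat_lit 14))
    (@En.n l16442 (nat_lit 7010) (nat_lit 9) (nat_lit 11))
    (@En.n l16444 (nat_lit 8943) (nat_lit 9) (nat_lit 4))
    (@En.i (nat_lit 4807) (nat_lit 4) (nat_lit 6))
    (@En.n l2252 (nat_lit 9237) (nat_lit 12) (nat_lit 7))
    (@En.n l1544 (nat_lit 4446) (nat_lit 13) (nat_lit 10))
    (@En.n l16444 (nat_lit 2973) (nat_lit 8) (nat_lit 12))
    (@En.n l810 (nat_lit 9621) (nat_lit 8) (nat_lit 6))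
    (@En.n l28 (nat_lit 6949) (nat_lit 15) (nat_lit 2))))
  (@Cl.mk (nat_lit 0x200090006000c000a0008000700040007000e00060002000a0008000e0009) (nat_lit 0x5063400080054a1) (nat_lit 16) Lb.e (@T16.mk En
    (@En.n l21176 (nat_lit 5157) (nat_lit 12) (nat_lit 9))
    (@En.n l37000 (nat_lit 6947) (nat_lit 13) (nat_lit 14))
    (@En.i (nat_lit 7489) (nat_lit 2) (nat_lit 8))
    (@En.n l614 (nat_lit 6545) (nat_lit 3) (nat_lit 10))
    (@En.n l11 (nat_lit 6950) (nat_lit 4) (nat_lit 2))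
    (@En.n l117 (nat_lit 6952) (nat_lit 5) (nat_lit 6))
    (@En.n l39545 (nat_lit 5305) (nat_lit 7) (nat_lit 14))
    (@En.n l8429 (nat_lit 4827) (nat_lit 2) (nat_lit 7))
    (@En.n l39546 (nat_lit 8946) (nat_lit 8) (nat_lit 4))
    (@En.n l77 (nat_lit 7194) (nat_lit 4) (nat_lit 7))
    (@En.i (nat_lit 9236) (nat_lit 5) (nat_lit 8))
    (@En.n l936 (nat_lit 6574) (nat_lit 12) (nat_lit 10))
    (@En.n l3798 (nat_lit 6948) (nat_lit 8) (nat_lit 12))
    (@En.n l10581 (nat_lit 6949) (nat_lit 14) (nat_lit 6))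
    (@En.n l9376 (nat_lit 9365) (nat_lit 10) (nat_lit 9))
    (@En.n l50 (nat_lit 6950) (nat_lit 15) (nat_lit 2))))
  (@Cl.mk (nat_lit 0x20008000b00090009000800070005000c00080007000700040008000e0009) (nat_lit 0x457340062000311) (nat_lit 16) Lb.e (@T16.mk En
    (@En.n l61 (nat_lit 5160) (nat_lit 13) (nat_lit 9))
    (@En.n l30944 (nat_lit 5287) (nat_lit 1) (nat_lit 14))
    (@En.n l30945 (nat_lit 7487) (nat_lit 2) (nat_lit 8))
    (@En.n l15575 (nat_lit 7188) (nat_lit 3) (nat_lit 4))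
    (@En.n l30946 (nat_lit 6501) (nat_lit 4) (nat_lit 7))
    (@En.i (nat_lit 7432) (nat_lit 5) (nat_lit 7))
    (@En.n l16268 (nat_lit 6952) (nat_lit 6) (nat_lit 8))
    (@En.n l28515 (nat_lit 6543) (nat_lit 8) (nat_lit 12))
    (@En.n l30947 (nat_lit 8931) (nat_lit 8) (nat_lit 5))
    (@En.n l2781 (nat_lit 7361) (nat_lit 9) (nat_lit 7))
    (@En.i (nat_lit 11285) (nat_lit 11) (nat_lit 8))
    (@En.n l30948 (nat_lit 6948) (nat_lit 7) (nat_lit 9))
    (@En.n l30949 (nat_lit 6566) (nat_lit 13) (nat_lit 9))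
    (@En.n l3866 (nat_lit 3221) (nat_lit 7) (nat_lit 11))
    (@En.n l28096 (nat_lit 9364) (nat_lit 11) (nat_lit 8))
    (@En.n l18 (nat_lit 6951) (nat_lit 15) (nat_lit 2))))
  (@Cl.mk (nat_lit 0x200080006000b000a000a000900080005000800060006000a0007000e0008) (nat_lit 0x506847601004011) (nat_lit 16) Lb.e (@T16.mk En
    (@En.n l22984 (nat_lit 5159) (nat_lit 2) (nat_lit 8))
    (@En.n l601 (nat_lit 5284) (nat_lit 1) (nat_lit 14))
    (@En.i (nat_lit 5253) (nat_lit 2) (nat_lit 7))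
    (@En.n l21561 (nat_lit 6549) (nat_lit 3) (nat_lit 10))
    (@En.n l11 (nat_lit 6503) (nat_lit 4) (nat_lit 6))
    (@En.i (nat_lit 7438) (nat_lit 5) (nat_lit 6))
    (@En.i (nat_lit 3172) (nat_lit 6) (nat_lit 8))
    (@En.i (nat_lit 8932) (nat_lit 7) (nat_lit 5))
    (@En.n l77 (nat_lit 7203) (nat_lit 8) (nat_lit 8))
    (@En.n l55 (nat_lit 11283) (nat_lit 10) (nat_lit 9))
    (@En.n l619 (nat_lit 6950) (nat_lit 11) (nat_lit 10))
    (@En.n l3866 (nat_lit 6569) (nat_lit 12) (nat_lit 10))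
    (@En.n l1240 (nat_lit 6951) (nat_lit 13) (nat_lit 11))
    (@En.n l23006 (nat_lit 6953) (nat_lit 14) (nat_lit 6))
    (@En.i (nat_lit 9368) (nat_lit 6) (nat_lit 8))
    (@En.n l50 (nat_lit 6952) (nat_lit 15) (nat_lit 2))))
  (@Cl.mk (nat_lit 0x20006000b000a000a000800070005000c00060006000a00040008000e0009) (nat_lit 0x523400700400b1) (nat_lit 16) Lb.e (@T16.mk En
    (@En.n l50 (nat_lit 5161) (nat_lit 13) (nat_lit 9))
    (@En.n l28520 (nat_lit 6519) (nat_lit 1) (nat_lit 14))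
    (@En.n l31588 (nat_lit 11659) (nat_lit 2) (nat_lit 8))
    (@En.n l31589 (nat_lit 6951) (nat_lit 3) (nat_lit 4))
    (@En.i (nat_lit 5803) (nat_lit 4) (nat_lit 10))
    (@En.n l11401 (nat_lit 6502) (nat_lit 5) (nat_lit 6))
    (@En.n l28523 (nat_lit 7439) (nat_lit 6) (nat_lit 6))
    (@En.n l22216 (nat_lit 6446) (nat_lit 8) (nat_lit 12))
    (@En.n l31590 (nat_lit 8936) (nat_lit 8) (nat_lit 5))
    (@En.i (nat_lit 7269) (nat_lit 9) (nat_lit 7))
    (@En.n l403 (nat_lit 11291) (nat_lit 11) (nat_lit 8))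
    (@En.n l8906 (nat_lit 6949) (nat_lit 12) (nat_lit 10))
    (@En.n l31591 (nat_lit 6567) (nat_lit 13) (nat_lit 10))
    (@En.n l31592 (nat_lit 3220) (nat_lit 14) (nat_lit 11))
    (@En.i (nat_lit 9620) (nat_lit 13) (nat_lit 6))
    (@En.n l18 (nat_lit 6953) (nat_lit 15) (nat_lit 2))))
  (@Cl.mk (nat_lit 0x2000c0006000a000a00040007000c000b000600060004000a0005000e0009) (nat_lit 0x1073003500050c1) (nat_lit 16) Lb.e (@T16.mk En
    (@En.n l5 (nat_lit 6598) (nat_lit 5) (nat_lit 9))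
    (@En.n l420 (nat_lit 11433) (nat_lit 1) (nat_lit 14))
    (@En.n l4525 (nat_lit 4978) (nat_lit 2) (nat_lit 5))
    (@En.n l12066 (nat_lit 6519) (nat_lit 3) (nat_lit 10))
    (@En.n l12067 (nat_lit 5104) (nat_lit 4) (nat_lit 4))
    (@En.n l2385 (nat_lit 6968) (nat_lit 10) (nat_lit 6))
    (@En.n l12068 (nat_lit 5288) (nat_lit 6) (nat_lit 6))
    (@En.i (nat_lit 6599) (nat_lit 8) (nat_lit 11))
    (@En.n l10536 (nat_lit 8585) (nat_lit 9) (nat_lit 12))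
    (@En.n l4525 (nat_lit 7248) (nat_lit 11) (nat_lit 7))
    (@En.n l12069 (nat_lit 4457) (nat_lit 10) (nat_lit 4))
    (@En.n l619 (nat_lit 6955) (nat_lit 6) (nat_lit 10))
    (@En.i (nat_lit 6773) (nat_lit 13) (nat_lit 10))
    (@En.n l1769 (nat_lit 9384) (nat_lit 14) (nat_lit 6))
    (@En.i (nat_lit 6598) (nat_lit 3) (nat_lit 12))
    (@En.n l18 (nat_lit 6954) (nat_lit 15) (nat_lit 2))))
  (@Cl.mk (nat_lit 0x20005000a0006000e000a0002000d0006000a00030006000b000a000e0006) (nat_lit 0x60280102009360) (nat_lit 16) Lb.e (@T16.mk En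
    (@En.n l117 (nat_lit 6954) (nat_lit 6) (nat_lit 6))
    (@En.n l8 (nat_lit 6956) (nat_lit 1) (nat_lit 14))
    (@En.i (nat_lit 6603) (nat_lit 9) (nat_lit 10))
    (@En.n l1501 (nat_lit 8349) (nat_lit 3) (nat_lit 11))
    (@En.i (nat_lit 6959) (nat_lit 4) (nat_lit 6))
    (@En.n l2576 (nat_lit 6612) (nat_lit 5) (nat_lit 3))
    (@En.i (nat_lit 3364) (nat_lit 0) (nat_lit 10))
    (@En.i (nat_lit 9383) (nat_lit 7) (nat_lit 6))
    (@En.i (nat_lit 6606) (nat_lit 9) (nat_lit 13))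
    (@En.n l18 (nat_lit 6955) (nat_lit 9) (nat_lit 2))
    (@En.n l5 (nat_lit 6606) (nat_lit 11) (nat_lit 10))
    (@En.n l420 (nat_lit 12122) (nat_lit 12) (nat_lit 14))
    (@En.n l1603 (nat_lit 4940) (nat_lit 13) (nat_lit 6))
    (@En.i (nat_lit 6945) (nat_lit 14) (nat_lit 10))
    (@En.n l5184 (nat_lit 6780) (nat_lit 13) (nat_lit 5))
    (@En.n l11 (nat_lit 6955) (nat_lit 15) (nat_lit 2))))
  (@Cl.mk (nat_lit 0x2000d0005000a0003000e000a0002000d0006000b00030006000b000e0005) (nat_lit 0x4010a1080200850) (nat_lit 16) Lb.e (@T16.mk En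
    (@En.n l117 (nat_lit 6595) (nat_lit 7) (nat_lit 5))
    (@En.n l1251 (nat_lit 5136) (nat_lit 4) (nat_lit 14))
    (@En.n l1501 (nat_lit 8368) (nat_lit 2) (nat_lit 11))
    (@En.n l1251 (nat_lit 6960) (nat_lit 12) (nat_lit 6))
    (@En.n l2576 (nat_lit 6695) (nat_lit 4) (nat_lit 3))
    (@En.i (nat_lit 3363) (nat_lit 0) (nat_lit 11))
    (@En.i (nat_lit 9386) (nat_lit 14) (nat_lit 6))
    (@En.i (nat_lit 6597) (nat_lit 8) (nat_lit 13))
    (@En.n l18 (nat_lit 6956) (nat_lit 8) (nat_lit 2))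
    (@En.n l5 (nat_lit 6597) (nat_lit 10) (nat_lit 10))
    (@En.n l564 (nat_lit 12123) (nat_lit 1) (nat_lit 14))
    (@En.n l7 (nat_lit 6603) (nat_lit 2) (nat_lit 3))
    (@En.n l1162 (nat_lit 1637) (nat_lit 3) (nat_lit 10))
    (@En.i (nat_lit 6955) (nat_lit 14) (nat_lit 5))
    (@En.i (nat_lit 4452) (nat_lit 6) (nat_lit 13))
    (@En.n l11 (nat_lit 6956) (nat_lit 15) (nat_lit 2))))
  (@Cl.mk (nat_lit 0x20005000a0006000a000e000b00020006000a00060005000b000a000e0006) (nat_lit 0x60431004003430) (nat_lit 16) Lb.e (@T16.mk En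
    (@En.n l37635 (nat_lit 5296) (nat_lit 7) (nat_lit 6))
    (@En.n l13589 (nat_lit 6958) (nat_lit 9) (nat_lit 14))
    (@En.i (nat_lit 6965) (nat_lit 10) (nat_lit 10))
    (@En.n l1501 (nat_lit 7795) (nat_lit 3) (nat_lit 11))
    (@En.n l13786 (nat_lit 6962) (nat_lit 4) (nat_lit 5))
    (@En.n l37636 (nat_lit 5586) (nat_lit 5) (nat_lit 6))
    (@En.i (nat_lit 2322) (nat_lit 14) (nat_lit 10))
    (@En.n l388 (nat_lit 9137) (nat_lit 7) (nat_lit 6))
    (@En.n l18 (nat_lit 6957) (nat_lit 8) (nat_lit 2))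
    (@En.n l37637 (nat_lit 5605) (nat_lit 10) (nat_lit 11))
    (@En.i (nat_lit 6955) (nat_lit 11) (nat_lit 14))
    (@En.n l37636 (nat_lit 12103) (nat_lit 2) (nat_lit 10))
    (@En.n l37638 (nat_lit 4760) (nat_lit 13) (nat_lit 6))
    (@En.n l37639 (nat_lit 6949) (nat_lit 4) (nat_lit 10))
    (@En.n l20013 (nat_lit 7669) (nat_lit 5) (nat_lit 5))
    (@En.n l11 (nat_lit 6957) (nat_lit 15) (nat_lit 2))))
  (@Cl.mk (nat_lit 0x20006000b00060005000b000e00050002000d0005000a0003000a000e000b) (nat_lit 0x100320090605b1) (nat_lit 16) Lb.e (@T16.mk En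
    (@En.n l28 (nat_lit 5603) (nat_lit 9) (nat_lit 11))
    (@En.n l13068 (nat_lit 6956) (nat_lit 10) (nat_lit 14))
    (@En.n l1347 (nat_lit 12102) (nat_lit 2) (nat_lit 10))
    (@En.n l4016 (nat_lit 6965) (nat_lit 3) (nat_lit 3))
    (@En.n l781 (nat_lit 4823) (nat_lit 4) (nat_lit 10))
    (@En.n l13068 (nat_lit 6957) (nat_lit 14) (nat_lit 5))
    (@En.n l25259 (nat_lit 6192) (nat_lit 7) (nat_lit 13))
    (@En.n l17 (nat_lit 6958) (nat_lit 7) (nat_lit 2))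
    (@En.n l25053 (nat_lit 5295) (nat_lit 8) (nat_lit 5))
    (@En.i (nat_lit 5833) (nat_lit 10) (nat_lit 14))
    (@En.n l95 (nat_lit 7796) (nat_lit 11) (nat_lit 11))
    (@En.i (nat_lit 6961) (nat_lit 3) (nat_lit 5))
    (@En.n l1347 (nat_lit 5584) (nat_lit 13) (nat_lit 6))
    (@En.n l13068 (nat_lit 3582) (nat_lit 14) (nat_lit 11))
    (@En.n l3699 (nat_lit 9446) (nat_lit 6) (nat_lit 6))
    (@En.n l7 (nat_lit 6958) (nat_lit 15) (nat_lit 2))))
  (@Cl.mk (nat_lit 0x2000500090006000d000a000e000300020007000b0006000b000a000e0005) (nat_lit 0x609590006023a0) (nat_lit 16) Lb.e (@T16.mk En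
    (@En.n l35438 (nat_lit 7248) (nat_lit 8) (nat_lit 5))
    (@En.n l9871 (nat_lit 6960) (nat_lit 10) (nat_lit 14))
    (@En.i (nat_lit 6963) (nat_lit 11) (nat_lit 10))
    (@En.n l35439 (nat_lit 3904) (nat_lit 3) (nat_lit 11))
    (@En.n l11028 (nat_lit 8068) (nat_lit 4) (nat_lit 6))
    (@En.i (nat_lit 4414) (nat_lit 14) (nat_lit 11))
    (@En.n l133 (nat_lit 7902) (nat_lit 6) (nat_lit 7))
    (@En.n l17 (nat_lit 6959) (nat_lit 7) (nat_lit 2))
    (@En.n l12333 (nat_lit 6962) (nat_lit 8) (nat_lit 3))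
    (@En.i (nat_lit 13482) (nat_lit 0) (nat_lit 14))
    (@En.n l5 (nat_lit 6957) (nat_lit 11) (nat_lit 10))
    (@En.n l11028 (nat_lit 12127) (nat_lit 12) (nat_lit 13))
    (@En.n l35440 (nat_lit 5835) (nat_lit 13) (nat_lit 6))
    (@En.n l23383 (nat_lit 4805) (nat_lit 5) (nat_lit 9))
    (@En.n l35441 (nat_lit 5995) (nat_lit 13) (nat_lit 5))
    (@En.n l11 (nat_lit 6959) (nat_lit 15) (nat_lit 2))))
noncomputable def a435 : T16 Cl := @T16.mk Cl
  (@Cl.mk (nat_lit 0x20007000c0006000b000e00040002000d000500090003000d000a000e0003) (nat_lit 0x609900407096a0) (nat_lit 16) Lb.e (@T16.mk En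
    (@En.n l28 (nat_lit 6961) (nat_lit 7) (nat_lit 3))
    (@En.n l566 (nat_lit 13480) (nat_lit 0) (nat_lit 14))
    (@En.i (nat_lit 6958) (nat_lit 2) (nat_lit 10))
    (@En.n l24353 (nat_lit 12128) (nat_lit 11) (nat_lit 13))
    (@En.n l4100 (nat_lit 6963) (nat_lit 4) (nat_lit 3))
    (@En.n l781 (nat_lit 4802) (nat_lit 5) (nat_lit 9))
    (@En.n l566 (nat_lit 6959) (nat_lit 14) (nat_lit 5))
    (@En.n l10832 (nat_lit 6188) (nat_lit 8) (nat_lit 13))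
    (@En.n l17 (nat_lit 6960) (nat_lit 8) (nat_lit 2))
    (@En.n l24354 (nat_lit 5566) (nat_lit 9) (nat_lit 4))
    (@En.i (nat_lit 4125) (nat_lit 11) (nat_lit 14))
    (@En.n l1174 (nat_lit 3084) (nat_lit 12) (nat_lit 11))
    (@En.n l4414 (nat_lit 8067) (nat_lit 13) (nat_lit 6))
    (@En.n l566 (nat_lit 4411) (nat_lit 14) (nat_lit 12))
    (@En.n l564 (nat_lit 7904) (nat_lit 5) (nat_lit 7))
    (@En.n l7 (nat_lit 6960) (nat_lit 15) (nat_lit 2))))
  (@Cl.mk (nat_lit 0x2000d000500090003000d000d000b000300030007000c0005000b000e0004) (nat_lit 0x40708a200060910) (nat_lit 16) Lb.e (@T16.mk En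
    (@En.n l25053 (nat_lit 5565) (nat_lit 8) (nat_lit 4))
    (@En.i (nat_lit 3571) (nat_lit 4) (nat_lit 14))
    (@En.n l2845 (nat_lit 3082) (nat_lit 2) (nat_lit 11))
    (@En.n l3506 (nat_lit 4178) (nat_lit 3) (nat_lit 5))
    (@En.n l2572 (nat_lit 4412) (nat_lit 13) (nat_lit 12))
    (@En.n l564 (nat_lit 8620) (nat_lit 5) (nat_lit 7))
    (@En.n l7 (nat_lit 6966) (nat_lit 13) (nat_lit 3))
    (@En.i (nat_lit 6960) (nat_lit 0) (nat_lit 3))
    (@En.i (nat_lit 7990) (nat_lit 0) (nat_lit 11))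
    (@En.n l134 (nat_lit 6960) (nat_lit 3) (nat_lit 13))
    (@En.i (nat_lit 12133) (nat_lit 11) (nat_lit 13))
    (@En.n l4018 (nat_lit 6964) (nat_lit 11) (nat_lit 3))
    (@En.n l781 (nat_lit 4803) (nat_lit 0) (nat_lit 9))
    (@En.i (nat_lit 6962) (nat_lit 14) (nat_lit 5))
    (@En.i (nat_lit 6181) (nat_lit 7) (nat_lit 13))
    (@En.n l17 (nat_lit 6961) (nat_lit 15) (nat_lit 2))))
  (@Cl.mk (nat_lit 0x2000500090006000d000d000b000300030007000b0005000b000a000e0005) (nat_lit 0x708a2000609420) (nat_lit 16) Lb.e (@T16.mk En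
    (@En.n l25053 (nat_lit 7249) (nat_lit 7) (nat_lit 5))
    (@En.n l3 (nat_lit 6961) (nat_lit 1) (nat_lit 14))
    (@En.n l2572 (nat_lit 6964) (nat_lit 2) (nat_lit 10))
    (@En.n l15055 (nat_lit 3897) (nat_lit 3) (nat_lit 11))
    (@En.n l3506 (nat_lit 8073) (nat_lit 4) (nat_lit 5))
    (@En.n l2572 (nat_lit 4388) (nat_lit 13) (nat_lit 11))
    (@En.n l564 (nat_lit 8621) (nat_lit 6) (nat_lit 7))
    (@En.n l7 (nat_lit 7251) (nat_lit 7) (nat_lit 3))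
    (@En.n l566 (nat_lit 6959) (nat_lit 8) (nat_lit 3))
    (@En.i (nat_lit 7253) (nat_lit 10) (nat_lit 11))
    (@En.n l13068 (nat_lit 6959) (nat_lit 11) (nat_lit 13))
    (@En.n l16478 (nat_lit 12129) (nat_lit 12) (nat_lit 13))
    (@En.n l23301 (nat_lit 5836) (nat_lit 13) (nat_lit 6))
    (@En.n l3105 (nat_lit 4807) (nat_lit 14) (nat_lit 9))
    (@En.n l3106 (nat_lit 5994) (nat_lit 13) (nat_lit 5))
    (@En.n l17 (nat_lit 6962) (nat_lit 15) (nat_lit 2))))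
  (@Cl.mk (nat_lit 0x20008000c0006000a000e00040002000d000800060003000d000a000e0003) (nat_lit 0x560240035007650) (nat_lit 16) Lb.e (@T16.mk En
    (@En.n l2843 (nat_lit 6964) (nat_lit 7) (nat_lit 3))
    (@En.i (nat_lit 13486) (nat_lit 0) (nat_lit 14))
    (@En.n l5 (nat_lit 6965) (nat_lit 2) (nat_lit 10))
    (@En.i (nat_lit 7801) (nat_lit 11) (nat_lit 13))
    (@En.n l1251 (nat_lit 6960) (nat_lit 4) (nat_lit 3))
    (@En.n l3549 (nat_lit 5830) (nat_lit 5) (nat_lit 6))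
    (@En.i (nat_lit 5508) (nat_lit 14) (nat_lit 8))
    (@En.i (nat_lit 6183) (nat_lit 8) (nat_lit 13))
    (@En.n l11 (nat_lit 6963) (nat_lit 8) (nat_lit 2))
    (@En.n l26054 (nat_lit 6982) (nat_lit 9) (nat_lit 4))
    (@En.n l1329 (nat_lit 4122) (nat_lit 11) (nat_lit 14))
    (@En.n l253 (nat_lit 3766) (nat_lit 12) (nat_lit 10))
    (@En.i (nat_lit 8069) (nat_lit 13) (nat_lit 6))
    (@En.i (nat_lit 4409) (nat_lit 14) (nat_lit 12))
    (@En.n l2125 (nat_lit 7297) (nat_lit 5) (nat_lit 8))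
    (@En.n l17 (nat_lit 6963) (nat_lit 15) (nat_lit 2))))
  (@Cl.mk (nat_lit 0x2000d000800060003000d000d000b000300030008000c0005000a000e0004) (nat_lit 0x550078200560340) (nat_lit 16) Lb.e (@T16.mk En
    (@En.n l24996 (nat_lit 6981) (nat_lit 8) (nat_lit 4))
    (@En.i (nat_lit 3579) (nat_lit 1) (nat_lit 14))
    (@En.n l11244 (nat_lit 3768) (nat_lit 2) (nat_lit 10))
    (@En.i (nat_lit 11561) (nat_lit 3) (nat_lit 5))
    (@En.i (nat_lit 4402) (nat_lit 13) (nat_lit 12))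
    (@En.n l3522 (nat_lit 7301) (nat_lit 5) (nat_lit 8))
    (@En.n l8258 (nat_lit 6967) (nat_lit 13) (nat_lit 3))
    (@En.n l5368 (nat_lit 6963) (nat_lit 0) (nat_lit 3))
    (@En.n l3522 (nat_lit 7991) (nat_lit 0) (nat_lit 11))
    (@En.n l3471 (nat_lit 6963) (nat_lit 3) (nat_lit 13))
    (@En.i (nat_lit 7802) (nat_lit 11) (nat_lit 13))
    (@En.n l11382 (nat_lit 6961) (nat_lit 11) (nat_lit 3))
    (@En.n l1723 (nat_lit 5828) (nat_lit 0) (nat_lit 6))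
    (@En.n l11383 (nat_lit 5511) (nat_lit 14) (nat_lit 8))
    (@En.n l61 (nat_lit 6178) (nat_lit 7) (nat_lit 13))
    (@En.n l7 (nat_lit 6964) (nat_lit 15) (nat_lit 2))))
  (@Cl.mk (nat_lit 0x20007000b00060005000a000e00050002000d000900060003000a000e000b) (nat_lit 0x30038009500521) (nat_lit 16) Lb.e (@T16.mk En
    (@En.n l9463 (nat_lit 5604) (nat_lit 9) (nat_lit 11))
    (@En.i (nat_lit 6603) (nat_lit 1) (nat_lit 14))
    (@En.i (nat_lit 12134) (nat_lit 2) (nat_lit 10))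
    (@En.n l13786 (nat_lit 6958) (nat_lit 3) (nat_lit 3))
    (@En.n l9385 (nat_lit 5834) (nat_lit 0) (nat_lit 6))
    (@En.i (nat_lit 7010) (nat_lit 5) (nat_lit 9))
    (@En.n l15068 (nat_lit 6193) (nat_lit 7) (nat_lit 13))
    (@En.n l11 (nat_lit 6965) (nat_lit 7) (nat_lit 2))
    (@En.n l39731 (nat_lit 5300) (nat_lit 8) (nat_lit 5))
    (@En.n l1329 (nat_lit 5829) (nat_lit 10) (nat_lit 14))
    (@En.n l2568 (nat_lit 7797) (nat_lit 11) (nat_lit 10))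
    (@En.n l1329 (nat_lit 6964) (nat_lit 3) (nat_lit 5))
    (@En.i (nat_lit 5585) (nat_lit 13) (nat_lit 6))
    (@En.i (nat_lit 4435) (nat_lit 14) (nat_lit 11))
    (@En.n l13589 (nat_lit 9462) (nat_lit 6) (nat_lit 7))
    (@En.n l18 (nat_lit 6965) (nat_lit 15) (nat_lit 2))))
  (@Cl.mk (nat_lit 0x2000c00030007000c0004000b000e00040002000d000500090003000e000d) (nat_lit 0x3006081004070a9) (nat_lit 16) Lb.e (@T16.mk En
    (@En.n l134 (nat_lit 6961) (nat_lit 10) (nat_lit 13))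
    (@En.i (nat_lit 7502) (nat_lit 1) (nat_lit 14))
    (@En.n l117 (nat_lit 6967) (nat_lit 2) (nat_lit 3))
    (@En.n l781 (nat_lit 4840) (nat_lit 3) (nat_lit 9))
    (@En.i (nat_lit 7251) (nat_lit 14) (nat_lit 5))
    (@En.i (nat_lit 6180) (nat_lit 6) (nat_lit 13))
    (@En.n l17 (nat_lit 6966) (nat_lit 6) (nat_lit 2))
    (@En.n l3098 (nat_lit 5567) (nat_lit 7) (nat_lit 4))
    (@En.i (nat_lit 3578) (nat_lit 4) (nat_lit 14))
    (@En.i (nat_lit 3895) (nat_lit 10) (nat_lit 11))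
    (@En.i (nat_lit 11565) (nat_lit 10) (nat_lit 4))
    (@En.n l2571 (nat_lit 4418) (nat_lit 12) (nat_lit 12))
    (@En.i (nat_lit 7448) (nat_lit 5) (nat_lit 7))
    (@En.i (nat_lit 6961) (nat_lit 6) (nat_lit 3))
    (@En.i (nat_lit 7258) (nat_lit 0) (nat_lit 12))
    (@En.n l28 (nat_lit 6966) (nat_lit 15) (nat_lit 2))))
  (@Cl.mk (nat_lit 0x2000c00030008000c0004000a000e00040002000d000800060003000e000d) (nat_lit 0x3052034003400a8) (nat_lit 16) Lb.e (@T16.mk En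
    (@En.n l649 (nat_lit 6964) (nat_lit 10) (nat_lit 13))
    (@En.i (nat_lit 8004) (nat_lit 1) (nat_lit 14))
    (@En.n l152 (nat_lit 6966) (nat_lit 2) (nat_lit 3))
    (@En.n l5588 (nat_lit 5831) (nat_lit 3) (nat_lit 6))
    (@En.n l97 (nat_lit 7021) (nat_lit 14) (nat_lit 8))
    (@En.n l1867 (nat_lit 6176) (nat_lit 6) (nat_lit 13))
    (@En.n l17 (nat_lit 6967) (nat_lit 6) (nat_lit 2))
    (@En.i (nat_lit 6983) (nat_lit 7) (nat_lit 4))
    (@En.i (nat_lit 3570) (nat_lit 9) (nat_lit 14))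
    (@En.n l1897 (nat_lit 3772) (nat_lit 10) (nat_lit 10))
    (@En.i (nat_lit 11564) (nat_lit 10) (nat_lit 4))
    (@En.n l1897 (nat_lit 4404) (nat_lit 12) (nat_lit 12))
    (@En.i (nat_lit 7449) (nat_lit 5) (nat_lit 8))
    (@En.n l3528 (nat_lit 6964) (nat_lit 6) (nat_lit 3))
    (@En.n l1897 (nat_lit 7259) (nat_lit 0) (nat_lit 12))
    (@En.n l28 (nat_lit 6967) (nat_lit 15) (nat_lit 2))))
  (@Cl.mk (nat_lit 0x200050008000d000c00060003000a0004000e00080002000b0006000e000a) (nat_lit 0x5350040c6020a8) (nat_lit 16) Lb.e (@T16.mk En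
    (@En.n l4542 (nat_lit 6954) (nat_lit 12) (nat_lit 10))
    (@En.n l1459 (nat_lit 6701) (nat_lit 1) (nat_lit 14))
    (@En.n l4543 (nat_lit 11518) (nat_lit 14) (nat_lit 6))
    (@En.n l4544 (nat_lit 6721) (nat_lit 3) (nat_lit 11))
    (@En.n l50 (nat_lit 6968) (nat_lit 4) (nat_lit 2))
    (@En.n l4545 (nat_lit 6721) (nat_lit 5) (nat_lit 8))
    (@En.n l3968 (nat_lit 11665) (nat_lit 7) (nat_lit 14))
    (@En.n l2352 (nat_lit 4996) (nat_lit 7) (nat_lit 4))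
    (@En.n l845 (nat_lit 6513) (nat_lit 9) (nat_lit 10))
    (@En.n l11 (nat_lit 6969) (nat_lit 9) (nat_lit 3))
    (@En.n l4546 (nat_lit 5211) (nat_lit 5) (nat_lit 6))
    (@En.n l1807 (nat_lit 5004) (nat_lit 12) (nat_lit 12))
    (@En.i (nat_lit 8580) (nat_lit 13) (nat_lit 13))
    (@En.n l2352 (nat_lit 6972) (nat_lit 10) (nat_lit 8))
    (@En.i (nat_lit 5344) (nat_lit 13) (nat_lit 5))
    (@En.n l3 (nat_lit 6968) (nat_lit 15) (nat_lit 2))))
  (@Cl.mk (nat_lit 0x200050008000d0005000d0003000a0003000e00080002000b0006000e000b) (nat_lit 0x54070402101089) (nat_lit 16) Lb.e (@T16.mk En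
    (@En.n l4542 (nat_lit 6595) (nat_lit 12) (nat_lit 11))
    (@En.n l1459 (nat_lit 6697) (nat_lit 1) (nat_lit 14))
    (@En.n l211 (nat_lit 11519) (nat_lit 14) (nat_lit 6))
    (@En.n l5 (nat_lit 6596) (nat_lit 3) (nat_lit 11))
    (@En.n l50 (nat_lit 6969) (nat_lit 4) (nat_lit 2))
    (@En.n l564 (nat_lit 6596) (nat_lit 5) (nat_lit 8))
    (@En.n l5559 (nat_lit 11670) (nat_lit 7) (nat_lit 14))
    (@En.n l2266 (nat_lit 5004) (nat_lit 7) (nat_lit 3))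
    (@En.i (nat_lit 4763) (nat_lit 9) (nat_lit 10))
    (@En.i (nat_lit 6968) (nat_lit 9) (nat_lit 3))
    (@En.i (nat_lit 2451) (nat_lit 11) (nat_lit 13))
    (@En.i (nat_lit 5416) (nat_lit 6) (nat_lit 5))
    (@En.i (nat_lit 8579) (nat_lit 13) (nat_lit 13))
    (@En.n l1367 (nat_lit 6971) (nat_lit 10) (nat_lit 8))
    (@En.i (nat_lit 1927) (nat_lit 9) (nat_lit 5))
    (@En.n l3 (nat_lit 6969) (nat_lit 15) (nat_lit 2))))
  (@Cl.mk (nat_lit 0x20006000e000b000200080007000d0005000d0003000a00030008000e0009) (nat_lit 0x82040408040432) (nat_lit 16) Lb.e (@T16.mk En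
    (@En.n l50 (nat_lit 5799) (nat_lit 4) (nat_lit 9))
    (@En.n l19621 (nat_lit 6969) (nat_lit 6) (nat_lit 14))
    (@En.n l7882 (nat_lit 11695) (nat_lit 2) (nat_lit 8))
    (@En.n l2809 (nat_lit 6980) (nat_lit 3) (nat_lit 3))
    (@En.n l1353 (nat_lit 4765) (nat_lit 4) (nat_lit 10))
    (@En.i (nat_lit 5805) (nat_lit 5) (nat_lit 3))
    (@En.n l7882 (nat_lit 3101) (nat_lit 7) (nat_lit 13))
    (@En.n l117 (nat_lit 5803) (nat_lit 7) (nat_lit 5))
    (@En.n l19621 (nat_lit 6771) (nat_lit 9) (nat_lit 13))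
    (@En.i (nat_lit 6973) (nat_lit 14) (nat_lit 7))
    (@En.n l6081 (nat_lit 12706) (nat_lit 11) (nat_lit 8))
    (@En.n l3 (nat_lit 6970) (nat_lit 11) (nat_lit 2))
    (@En.n l6042 (nat_lit 5295) (nat_lit 13) (nat_lit 11))
    (@En.n l403 (nat_lit 6563) (nat_lit 1) (nat_lit 14))
    (@En.n l1353 (nat_lit 11524) (nat_lit 2) (nat_lit 6))
    (@En.n l18 (nat_lit 6970) (nat_lit 15) (nat_lit 2))))
  (@Cl.mk (nat_lit 0x20007000e000c00020008000d0004000d000300090003000d0008000e0003) (nat_lit 0xa5043060407590) (nat_lit 16) Lb.e (@T16.mk En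
    (@En.n l50 (nat_lit 6973) (nat_lit 4) (nat_lit 3))
    (@En.i (nat_lit 13871) (nat_lit 0) (nat_lit 14))
    (@En.i (nat_lit 6970) (nat_lit 2) (nat_lit 8))
    (@En.n l3348 (nat_lit 4289) (nat_lit 8) (nat_lit 13))
    (@En.n l2809 (nat_lit 6975) (nat_lit 8) (nat_lit 3))
    (@En.n l4352 (nat_lit 4759) (nat_lit 5) (nat_lit 9))
    (@En.n l2809 (nat_lit 6972) (nat_lit 6) (nat_lit 3))
    (@En.n l7882 (nat_lit 3977) (nat_lit 0) (nat_lit 13))
    (@En.n l117 (nat_lit 5413) (nat_lit 8) (nat_lit 4))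
    (@En.n l2197 (nat_lit 3085) (nat_lit 10) (nat_lit 13))
    (@En.i (nat_lit 8815) (nat_lit 11) (nat_lit 8))
    (@En.n l3 (nat_lit 6971) (nat_lit 11) (nat_lit 2))
    (@En.n l2197 (nat_lit 5566) (nat_lit 13) (nat_lit 12))
    (@En.n l403 (nat_lit 3059) (nat_lit 1) (nat_lit 14))
    (@En.n l1353 (nat_lit 8610) (nat_lit 2) (nat_lit 7))
    (@En.n l18 (nat_lit 6971) (nat_lit 15) (nat_lit 2))))
  (@Cl.mk (nat_lit 0x20007000e000b00020008000d000c0005000300090004000d0008000e0003) (nat_lit 0xb8042600407190) (nat_lit 16) Lb.e (@T16.mk En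
    (@En.n l3490 (nat_lit 6974) (nat_lit 4) (nat_lit 3))
    (@En.n l468 (nat_lit 13872) (nat_lit 0) (nat_lit 14))
    (@En.n l8210 (nat_lit 5805) (nat_lit 2) (nat_lit 8))
    (@En.n l473 (nat_lit 12157) (nat_lit 8) (nat_lit 13))
    (@En.i (nat_lit 4129) (nat_lit 8) (nat_lit 4))
    (@En.n l8211 (nat_lit 7273) (nat_lit 5) (nat_lit 9))
    (@En.n l8212 (nat_lit 6971) (nat_lit 6) (nat_lit 3))
    (@En.n l2438 (nat_lit 7078) (nat_lit 7) (nat_lit 5))
    (@En.n l77 (nat_lit 6975) (nat_lit 13) (nat_lit 12))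
    (@En.i (nat_lit 3089) (nat_lit 10) (nat_lit 13))
    (@En.n l8210 (nat_lit 8913) (nat_lit 11) (nat_lit 8))
    (@En.n l67 (nat_lit 6972) (nat_lit 11) (nat_lit 2))
    (@En.n l68 (nat_lit 7248) (nat_lit 13) (nat_lit 11))
    (@En.n l8213 (nat_lit 7338) (nat_lit 1) (nat_lit 14))
    (@En.n l8214 (nat_lit 8626) (nat_lit 2) (nat_lit 7))
    (@En.n l17 (nat_lit 6972) (nat_lit 15) (nat_lit 2))))
  (@Cl.mk (nat_lit 0x20007000d0004000d000300090003000d000d0009000300030007000e000c) (nat_lit 0x302040682000a5) (nat_lit 16) Lb.e (@T16.mk En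
    (@En.n l6042 (nat_lit 5565) (nat_lit 12) (nat_lit 12))
    (@En.i (nat_lit 3055) (nat_lit 1) (nat_lit 14))
    (@En.n l1353 (nat_lit 8611) (nat_lit 2) (nat_lit 7))
    (@En.n l18 (nat_lit 6977) (nat_lit 3) (nat_lit 3))
    (@En.i (nat_lit 6971) (nat_lit 0) (nat_lit 3))
    (@En.i (nat_lit 7994) (nat_lit 5) (nat_lit 9))
    (@En.n l396 (nat_lit 6971) (nat_lit 3) (nat_lit 13))
    (@En.i (nat_lit 4291) (nat_lit 8) (nat_lit 13))
    (@En.i (nat_lit 6976) (nat_lit 8) (nat_lit 3))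
    (@En.n l1353 (nat_lit 4732) (nat_lit 10) (nat_lit 9))
    (@En.i (nat_lit 6974) (nat_lit 10) (nat_lit 3))
    (@En.i (nat_lit 3103) (nat_lit 12) (nat_lit 13))
    (@En.n l117 (nat_lit 5409) (nat_lit 7) (nat_lit 4))
    (@En.n l725 (nat_lit 3086) (nat_lit 14) (nat_lit 13))
    (@En.i (nat_lit 8808) (nat_lit 3) (nat_lit 7))
    (@En.n l3 (nat_lit 6973) (nat_lit 15) (nat_lit 2))))
  (@Cl.mk (nat_lit 0x20007000d000c0005000300090004000d000d0009000300030007000e000b) (nat_lit 0x260040682000b8) (nat_lit 16) Lb.e (@T16.mk En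
    (@En.n l6042 (nat_lit 7249) (nat_lit 12) (nat_lit 11))
    (@En.i (nat_lit 3058) (nat_lit 1) (nat_lit 14))
    (@En.n l1353 (nat_lit 8624) (nat_lit 2) (nat_lit 7))
    (@En.n l18 (nat_lit 6979) (nat_lit 3) (nat_lit 3))
    (@En.n l2809 (nat_lit 6972) (nat_lit 0) (nat_lit 3))
    (@En.i (nat_lit 7996) (nat_lit 5) (nat_lit 9))
    (@En.n l3108 (nat_lit 6972) (nat_lit 3) (nat_lit 13))
    (@En.i (nat_lit 7597) (nat_lit 8) (nat_lit 13))
    (@En.n l1392 (nat_lit 4130) (nat_lit 8) (nat_lit 4))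
    (@En.n l287 (nat_lit 7271) (nat_lit 10) (nat_lit 9))
    (@En.n l11 (nat_lit 6973) (nat_lit 10) (nat_lit 3))
    (@En.n l6441 (nat_lit 7072) (nat_lit 0) (nat_lit 5))
    (@En.n l55 (nat_lit 6976) (nat_lit 13) (nat_lit 12))
    (@En.n l725 (nat_lit 3088) (nat_lit 14) (nat_lit 13))
    (@En.i (nat_lit 8806) (nat_lit 3) (nat_lit 7))
    (@En.n l3 (nat_lit 6974) (nat_lit 15) (nat_lit 2))))
  (@Cl.mk (nat_lit 0x20008000c0004000d000800040003000d0008000e000300020008000e000c) (nat_lit 0x55074007580058a) (nat_lit 16) Lb.e (@T16.mk En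
    (@En.n l68 (nat_lit 6982) (nat_lit 13) (nat_lit 12))
    (@En.n l3638 (nat_lit 3054) (nat_lit 1) (nat_lit 14))
    (@En.i (nat_lit 10608) (nat_lit 2) (nat_lit 8))
    (@En.n l17 (nat_lit 6975) (nat_lit 3) (nat_lit 2))
    (@En.n l3490 (nat_lit 6976) (nat_lit 4) (nat_lit 3))
    (@En.n l1445 (nat_lit 13194) (nat_lit 0) (nat_lit 14))
    (@En.i (nat_lit 6980) (nat_lit 2) (nat_lit 8))
    (@En.n l1448 (nat_lit 7099) (nat_lit 8) (nat_lit 13))
    (@En.n l19562 (nat_lit 6971) (nat_lit 4) (nat_lit 3))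
    (@En.i (nat_lit 5832) (nat_lit 9) (nat_lit 4))
    (@En.n l1448 (nat_lit 6909) (nat_lit 6) (nat_lit 8))
    (@En.n l3638 (nat_lit 3973) (nat_lit 12) (nat_lit 13))
    (@En.i (nat_lit 5407) (nat_lit 8) (nat_lit 4))
    (@En.i (nat_lit 3765) (nat_lit 10) (nat_lit 12))
    (@En.n l197 (nat_lit 8907) (nat_lit 11) (nat_lit 8))
    (@En.n l67 (nat_lit 6975) (nat_lit 15) (nat_lit 2))))
noncomputable def a436 : T16 Cl := @T16.mk Cl
  (@Cl.mk (nat_lit 0x20007000c0004000d000800040003000d000d0009000300030008000e000c) (nat_lit 0x5034006860058a) (nat_lit 16) Lb.e (@T16.mk En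
    (@En.n l9845 (nat_lit 6981) (nat_lit 12) (nat_lit 12))
    (@En.n l1306 (nat_lit 3053) (nat_lit 1) (nat_lit 14))
    (@En.n l7406 (nat_lit 10610) (nat_lit 2) (nat_lit 8))
    (@En.n l18 (nat_lit 6978) (nat_lit 3) (nat_lit 3))
    (@En.n l2809 (nat_lit 6975) (nat_lit 4) (nat_lit 3))
    (@En.i (nat_lit 7995) (nat_lit 5) (nat_lit 9))
    (@En.n l3108 (nat_lit 6975) (nat_lit 7) (nat_lit 13))
    (@En.n l3749 (nat_lit 7100) (nat_lit 8) (nat_lit 13))
    (@En.n l28 (nat_lit 6973) (nat_lit 8) (nat_lit 3))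
    (@En.n l4315 (nat_lit 5829) (nat_lit 9) (nat_lit 4))
    (@En.n l3749 (nat_lit 6911) (nat_lit 11) (nat_lit 8))
    (@En.n l8820 (nat_lit 3102) (nat_lit 12) (nat_lit 13))
    (@En.n l117 (nat_lit 5405) (nat_lit 7) (nat_lit 4))
    (@En.n l4315 (nat_lit 3767) (nat_lit 14) (nat_lit 12))
    (@En.i (nat_lit 8810) (nat_lit 5) (nat_lit 7))
    (@En.n l3 (nat_lit 6976) (nat_lit 15) (nat_lit 2))))
  (@Cl.mk (nat_lit 0x20006000d0004000d000300090003000e000d0002000a00030007000e000c) (nat_lit 0x306030770100a3) (nat_lit 16) Lb.e (@T16.mk En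
    (@En.i (nat_lit 5567) (nat_lit 11) (nat_lit 12))
    (@En.i (nat_lit 3057) (nat_lit 12) (nat_lit 14))
    (@En.i (nat_lit 4753) (nat_lit 2) (nat_lit 7))
    (@En.i (nat_lit 6973) (nat_lit 3) (nat_lit 3))
    (@En.i (nat_lit 5364) (nat_lit 4) (nat_lit 10))
    (@En.n l50 (nat_lit 6977) (nat_lit 5) (nat_lit 2))
    (@En.n l396 (nat_lit 6973) (nat_lit 7) (nat_lit 13))
    (@En.i (nat_lit 7592) (nat_lit 1) (nat_lit 14))
    (@En.i (nat_lit 6978) (nat_lit 8) (nat_lit 3))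
    (@En.i (nat_lit 4729) (nat_lit 10) (nat_lit 9))
    (@En.i (nat_lit 6979) (nat_lit 10) (nat_lit 3))
    (@En.i (nat_lit 3980) (nat_lit 12) (nat_lit 13))
    (@En.n l117 (nat_lit 5411) (nat_lit 6) (nat_lit 4))
    (@En.n l725 (nat_lit 3911) (nat_lit 8) (nat_lit 13))
    (@En.i (nat_lit 8861) (nat_lit 8) (nat_lit 6))
    (@En.n l3 (nat_lit 6977) (nat_lit 15) (nat_lit 2))))
  (@Cl.mk (nat_lit 0x20006000c0004000d000800040003000e000d0002000a00030008000e000c) (nat_lit 0x2074007702058a) (nat_lit 16) Lb.e (@T16.mk En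
    (@En.n l345 (nat_lit 6983) (nat_lit 11) (nat_lit 12))
    (@En.i (nat_lit 3052) (nat_lit 12) (nat_lit 14))
    (@En.i (nat_lit 8706) (nat_lit 2) (nat_lit 8))
    (@En.i (nat_lit 6976) (nat_lit 3) (nat_lit 3))
    (@En.i (nat_lit 5365) (nat_lit 4) (nat_lit 10))
    (@En.n l50 (nat_lit 6978) (nat_lit 5) (nat_lit 2))
    (@En.n l396 (nat_lit 6976) (nat_lit 7) (nat_lit 13))
    (@En.n l4316 (nat_lit 7671) (nat_lit 1) (nat_lit 14))
    (@En.n l28 (nat_lit 6977) (nat_lit 8) (nat_lit 3))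
    (@En.n l1393 (nat_lit 5833) (nat_lit 9) (nat_lit 4))
    (@En.i (nat_lit 7023) (nat_lit 11) (nat_lit 8))
    (@En.i (nat_lit 3978) (nat_lit 12) (nat_lit 13))
    (@En.n l117 (nat_lit 5408) (nat_lit 6) (nat_lit 4))
    (@En.n l725 (nat_lit 3773) (nat_lit 8) (nat_lit 12))
    (@En.i (nat_lit 8859) (nat_lit 8) (nat_lit 6))
    (@En.n l3 (nat_lit 6978) (nat_lit 15) (nat_lit 2))))
  (@Cl.mk (nat_lit 0x20006000d000c0005000300090004000e000d0002000a00030007000e000b) (nat_lit 0x230050770100b8) (nat_lit 16) Lb.e (@T16.mk En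
    (@En.i (nat_lit 7250) (nat_lit 11) (nat_lit 11))
    (@En.i (nat_lit 7349) (nat_lit 12) (nat_lit 14))
    (@En.i (nat_lit 7192) (nat_lit 2) (nat_lit 7))
    (@En.i (nat_lit 6974) (nat_lit 3) (nat_lit 3))
    (@En.i (nat_lit 5363) (nat_lit 4) (nat_lit 10))
    (@En.n l50 (nat_lit 6979) (nat_lit 5) (nat_lit 2))
    (@En.n l396 (nat_lit 6974) (nat_lit 7) (nat_lit 13))
    (@En.i (nat_lit 7588) (nat_lit 8) (nat_lit 14))
    (@En.n l11 (nat_lit 4131) (nat_lit 8) (nat_lit 4))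
    (@En.n l287 (nat_lit 7270) (nat_lit 10) (nat_lit 9))
    (@En.n l11 (nat_lit 6977) (nat_lit 10) (nat_lit 3))
    (@En.i (nat_lit 7071) (nat_lit 5) (nat_lit 5))
    (@En.n l55 (nat_lit 6978) (nat_lit 13) (nat_lit 12))
    (@En.n l725 (nat_lit 3910) (nat_lit 8) (nat_lit 13))
    (@En.i (nat_lit 8863) (nat_lit 8) (nat_lit 6))
    (@En.n l3 (nat_lit 6979) (nat_lit 15) (nat_lit 2))))
  (@Cl.mk (nat_lit 0x20007000e000b000200080007000c0005000d0009000400030008000e0009) (nat_lit 0x52040608300492) (nat_lit 16) Lb.e (@T16.mk En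
    (@En.n l3490 (nat_lit 5719) (nat_lit 4) (nat_lit 9))
    (@En.n l10452 (nat_lit 5004) (nat_lit 6) (nat_lit 14))
    (@En.n l19504 (nat_lit 11686) (nat_lit 2) (nat_lit 8))
    (@En.n l19562 (nat_lit 6970) (nat_lit 3) (nat_lit 3))
    (@En.i (nat_lit 5735) (nat_lit 8) (nat_lit 4))
    (@En.n l1448 (nat_lit 6907) (nat_lit 5) (nat_lit 9))
    (@En.n l3638 (nat_lit 3100) (nat_lit 11) (nat_lit 13))
    (@En.i (nat_lit 5801) (nat_lit 7) (nat_lit 5))
    (@En.i (nat_lit 7094) (nat_lit 13) (nat_lit 12))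
    (@En.n l8210 (nat_lit 6976) (nat_lit 14) (nat_lit 7))
    (@En.n l197 (nat_lit 12705) (nat_lit 11) (nat_lit 8))
    (@En.n l67 (nat_lit 6980) (nat_lit 11) (nat_lit 2))
    (@En.n l68 (nat_lit 5300) (nat_lit 13) (nat_lit 11))
    (@En.n l3638 (nat_lit 6562) (nat_lit 1) (nat_lit 14))
    (@En.n l17254 (nat_lit 9566) (nat_lit 2) (nat_lit 7))
    (@En.n l17 (nat_lit 6980) (nat_lit 15) (nat_lit 2))))
  (@Cl.mk (nat_lit 0x300030008000c000c0006000b00040004000d000800050003000d000d000a) (nat_lit 0x59704003400794) (nat_lit 16) Lb.e (@T16.mk En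
    (@En.n l32923 (nat_lit 7993) (nat_lit 0) (nat_lit 10))
    (@En.n l61 (nat_lit 6982) (nat_lit 3) (nat_lit 13))
    (@En.n l11396 (nat_lit 7103) (nat_lit 2) (nat_lit 13))
    (@En.n l39684 (nat_lit 5565) (nat_lit 3) (nat_lit 3))
    (@En.i (nat_lit 5825) (nat_lit 0) (nat_lit 5))
    (@En.n l11396 (nat_lit 7020) (nat_lit 5) (nat_lit 8))
    (@En.n l134 (nat_lit 4352) (nat_lit 7) (nat_lit 13))
    (@En.n l19273 (nat_lit 6976) (nat_lit 12) (nat_lit 4))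
    (@En.n l32923 (nat_lit 5338) (nat_lit 8) (nat_lit 4))
    (@En.i (nat_lit 3764) (nat_lit 10) (nat_lit 11))
    (@En.n l18738 (nat_lit 10268) (nat_lit 1) (nat_lit 6))
    (@En.n l38336 (nat_lit 6964) (nat_lit 4) (nat_lit 12))
    (@En.n l39685 (nat_lit 6984) (nat_lit 13) (nat_lit 12))
    (@En.n l32923 (nat_lit 7302) (nat_lit 14) (nat_lit 8))
    (@En.n l19277 (nat_lit 6983) (nat_lit 13) (nat_lit 3))
    (@En.n l18 (nat_lit 6982) (nat_lit 0) (nat_lit 3))))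
  (@Cl.mk (nat_lit 0x20008000c000c0007000b00040004000d000800050003000d0009000e0003) (nat_lit 0x597040044008150) (nat_lit 16) Lb.e (@T16.mk En
    (@En.i (nat_lit 6981) (nat_lit 15) (nat_lit 3))
    (@En.n l1596 (nat_lit 13870) (nat_lit 0) (nat_lit 14))
    (@En.i (nat_lit 5300) (nat_lit 2) (nat_lit 9))
    (@En.n l1448 (nat_lit 7102) (nat_lit 2) (nat_lit 13))
    (@En.n l11973 (nat_lit 5566) (nat_lit 4) (nat_lit 3))
    (@En.i (nat_lit 5826) (nat_lit 5) (nat_lit 5))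
    (@En.n l1448 (nat_lit 7024) (nat_lit 6) (nat_lit 8))
    (@En.n l134 (nat_lit 4353) (nat_lit 8) (nat_lit 13))
    (@En.n l11 (nat_lit 6975) (nat_lit 12) (nat_lit 4))
    (@En.n l152 (nat_lit 5340) (nat_lit 9) (nat_lit 4))
    (@En.i (nat_lit 3763) (nat_lit 11) (nat_lit 11))
    (@En.n l532 (nat_lit 10265) (nat_lit 12) (nat_lit 7))
    (@En.n l14684 (nat_lit 6963) (nat_lit 13) (nat_lit 12))
    (@En.n l1596 (nat_lit 6988) (nat_lit 14) (nat_lit 12))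
    (@En.i (nat_lit 7299) (nat_lit 14) (nat_lit 8))
    (@En.n l17 (nat_lit 6982) (nat_lit 15) (nat_lit 2))))
  (@Cl.mk (nat_lit 0x2000b00030008000c000c0005000b00040004000d000800050003000e000d) (nat_lit 0x305930400430078) (nat_lit 16) Lb.e (@T16.mk En
    (@En.n l18767 (nat_lit 6981) (nat_lit 2) (nat_lit 13))
    (@En.n l25358 (nat_lit 7674) (nat_lit 1) (nat_lit 14))
    (@En.n l2710 (nat_lit 5567) (nat_lit 2) (nat_lit 3))
    (@En.n l9972 (nat_lit 5827) (nat_lit 3) (nat_lit 5))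
    (@En.n l3532 (nat_lit 7022) (nat_lit 4) (nat_lit 8))
    (@En.n l1867 (nat_lit 4351) (nat_lit 6) (nat_lit 13))
    (@En.n l1071 (nat_lit 6978) (nat_lit 12) (nat_lit 4))
    (@En.i (nat_lit 5339) (nat_lit 7) (nat_lit 4))
    (@En.n l25359 (nat_lit 3769) (nat_lit 9) (nat_lit 11))
    (@En.n l3532 (nat_lit 10330) (nat_lit 9) (nat_lit 5))
    (@En.n l61 (nat_lit 6967) (nat_lit 11) (nat_lit 12))
    (@En.n l1897 (nat_lit 6987) (nat_lit 12) (nat_lit 12))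
    (@En.i (nat_lit 7457) (nat_lit 13) (nat_lit 8))
    (@En.n l19662 (nat_lit 6981) (nat_lit 14) (nat_lit 3))
    (@En.n l1897 (nat_lit 7563) (nat_lit 0) (nat_lit 11))
    (@En.n l28 (nat_lit 6983) (nat_lit 15) (nat_lit 2))))
  (@Cl.mk (nat_lit 0x30003000c000b0005000a0004000d0005000d000300060003000d000d000b) (nat_lit 0x86020407000892) (nat_lit 16) Lb.e (@T16.mk En
    (@En.n l10734 (nat_lit 6360) (nat_lit 0) (nat_lit 11))
    (@En.n l12851 (nat_lit 6988) (nat_lit 3) (nat_lit 13))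
    (@En.i (nat_lit 9551) (nat_lit 13) (nat_lit 13))
    (@En.i (nat_lit 7376) (nat_lit 3) (nat_lit 3))
    (@En.n l6042 (nat_lit 5821) (nat_lit 12) (nat_lit 6))
    (@En.i (nat_lit 6990) (nat_lit 5) (nat_lit 3))
    (@En.n l61 (nat_lit 3769) (nat_lit 0) (nat_lit 13))
    (@En.i (nat_lit 3056) (nat_lit 7) (nat_lit 5))
    (@En.n l17196 (nat_lit 6985) (nat_lit 9) (nat_lit 13))
    (@En.i (nat_lit 4570) (nat_lit 9) (nat_lit 4))
    (@En.n l19801 (nat_lit 4260) (nat_lit 11) (nat_lit 10))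
    (@En.n l24654 (nat_lit 10228) (nat_lit 5) (nat_lit 5))
    (@En.n l77 (nat_lit 4403) (nat_lit 13) (nat_lit 11))
    (@En.i (nat_lit 10446) (nat_lit 8) (nat_lit 12))
    (@En.n l6962 (nat_lit 6987) (nat_lit 13) (nat_lit 3))
    (@En.n l14014 (nat_lit 6988) (nat_lit 0) (nat_lit 3))))
  (@Cl.mk (nat_lit 0x300030008000c0005000a000d0004000c0003000800060004000d000d000b) (nat_lit 0x560230605008a2) (nat_lit 16) Lb.e (@T16.mk En
    (@En.i (nat_lit 6358) (nat_lit 0) (nat_lit 11))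
    (@En.n l30701 (nat_lit 6989) (nat_lit 3) (nat_lit 13))
    (@En.i (nat_lit 9553) (nat_lit 2) (nat_lit 13))
    (@En.n l31870 (nat_lit 7267) (nat_lit 3) (nat_lit 4))
    (@En.n l33186 (nat_lit 6984) (nat_lit 4) (nat_lit 6))
    (@En.n l31407 (nat_lit 6981) (nat_lit 5) (nat_lit 8))
    (@En.n l6081 (nat_lit 6991) (nat_lit 6) (nat_lit 3))
    (@En.n l9385 (nat_lit 3963) (nat_lit 0) (nat_lit 12))
    (@En.n l13633 (nat_lit 7279) (nat_lit 8) (nat_lit 4))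
    (@En.i (nat_lit 3629) (nat_lit 5) (nat_lit 13))
    (@En.n l7136 (nat_lit 4262) (nat_lit 11) (nat_lit 10))
    (@En.n l2678 (nat_lit 10240) (nat_lit 4) (nat_lit 5))
    (@En.n l3815 (nat_lit 4407) (nat_lit 13) (nat_lit 12))
    (@En.n l810 (nat_lit 9960) (nat_lit 14) (nat_lit 8))
    (@En.n l28 (nat_lit 6986) (nat_lit 13) (nat_lit 3))
    (@En.n l745 (nat_lit 6989) (nat_lit 0) (nat_lit 3))))
  (@Cl.mk (nat_lit 0x2000c00030008000c0004000a000d0004000c0003000800060004000e000d) (nat_lit 0x106202306040099) (nat_lit 16) Lb.e (@T16.mk En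
    (@En.n l1578 (nat_lit 6985) (nat_lit 2) (nat_lit 13))
    (@En.i (nat_lit 7357) (nat_lit 1) (nat_lit 14))
    (@En.n l3480 (nat_lit 7266) (nat_lit 2) (nat_lit 4))
    (@En.n l15957 (nat_lit 6987) (nat_lit 3) (nat_lit 6))
    (@En.n l9182 (nat_lit 6983) (nat_lit 4) (nat_lit 8))
    (@En.n l6081 (nat_lit 6993) (nat_lit 5) (nat_lit 3))
    (@En.n l9385 (nat_lit 3966) (nat_lit 0) (nat_lit 12))
    (@En.n l13633 (nat_lit 7280) (nat_lit 7) (nat_lit 4))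
    (@En.i (nat_lit 5542) (nat_lit 5) (nat_lit 13))
    (@En.n l7507 (nat_lit 4259) (nat_lit 10) (nat_lit 10))
    (@En.i (nat_lit 10238) (nat_lit 10) (nat_lit 4))
    (@En.n l3328 (nat_lit 4406) (nat_lit 12) (nat_lit 12))
    (@En.i (nat_lit 10876) (nat_lit 13) (nat_lit 8))
    (@En.i (nat_lit 6985) (nat_lit 14) (nat_lit 3))
    (@En.i (nat_lit 5487) (nat_lit 0) (nat_lit 12))
    (@En.n l11 (nat_lit 6986) (nat_lit 15) (nat_lit 2))))
  (@Cl.mk (nat_lit 0x2000c0003000c000b0004000a0004000d0005000d000300060003000e000d) (nat_lit 0x208603040600089) (nat_lit 16) Lb.e (@T16.mk En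
    (@En.n l617 (nat_lit 6984) (nat_lit 2) (nat_lit 13))
    (@En.i (nat_lit 7356) (nat_lit 1) (nat_lit 14))
    (@En.n l9962 (nat_lit 7377) (nat_lit 2) (nat_lit 3))
    (@En.n l387 (nat_lit 5823) (nat_lit 12) (nat_lit 6))
    (@En.i (nat_lit 6992) (nat_lit 4) (nat_lit 3))
    (@En.n l725 (nat_lit 3773) (nat_lit 0) (nat_lit 13))
    (@En.n l28 (nat_lit 7318) (nat_lit 6) (nat_lit 5))
    (@En.n l11835 (nat_lit 6986) (nat_lit 8) (nat_lit 13))
    (@En.n l28 (nat_lit 4569) (nat_lit 8) (nat_lit 4))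
    (@En.i (nat_lit 4257) (nat_lit 10) (nat_lit 10))
    (@En.i (nat_lit 10235) (nat_lit 10) (nat_lit 4))
    (@En.n l77 (nat_lit 4405) (nat_lit 12) (nat_lit 11))
    (@En.i (nat_lit 4713) (nat_lit 13) (nat_lit 12))
    (@En.n l6680 (nat_lit 6984) (nat_lit 14) (nat_lit 3))
    (@En.i (nat_lit 5469) (nat_lit 0) (nat_lit 12))
    (@En.n l3 (nat_lit 6987) (nat_lit 15) (nat_lit 2))))
  (@Cl.mk (nat_lit 0x2000c000b0006000a0004000d0005000d000300060003000d000a000e0003) (nat_lit 0x8502040700081b0) (nat_lit 16) Lb.e (@T16.mk En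
    (@En.n l11217 (nat_lit 6984) (nat_lit 15) (nat_lit 3))
    (@En.i (nat_lit 13994) (nat_lit 0) (nat_lit 14))
    (@En.n l5 (nat_lit 4437) (nat_lit 2) (nat_lit 10))
    (@En.i (nat_lit 9548) (nat_lit 13) (nat_lit 13))
    (@En.i (nat_lit 7378) (nat_lit 4) (nat_lit 3))
    (@En.n l3531 (nat_lit 5824) (nat_lit 12) (nat_lit 6))
    (@En.i (nat_lit 6994) (nat_lit 6) (nat_lit 3))
    (@En.n l1897 (nat_lit 3772) (nat_lit 0) (nat_lit 13))
    (@En.i (nat_lit 7304) (nat_lit 8) (nat_lit 5))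
    (@En.n l9591 (nat_lit 6989) (nat_lit 10) (nat_lit 13))
    (@En.n l152 (nat_lit 4586) (nat_lit 10) (nat_lit 4))
    (@En.n l5375 (nat_lit 3004) (nat_lit 12) (nat_lit 10))
    (@En.i (nat_lit 8927) (nat_lit 13) (nat_lit 6))
    (@En.n l619 (nat_lit 4410) (nat_lit 14) (nat_lit 11))
    (@En.i (nat_lit 10449) (nat_lit 8) (nat_lit 12))
    (@En.n l17 (nat_lit 6988) (nat_lit 15) (nat_lit 2))))
  (@Cl.mk (nat_lit 0x20008000c0006000a000d0004000c0003000800060004000d000a000e0003) (nat_lit 0x5603306050091b0) (nat_lit 16) Lb.e (@T16.mk En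
    (@En.n l17634 (nat_lit 6985) (nat_lit 15) (nat_lit 3))
    (@En.n l21433 (nat_lit 14010) (nat_lit 0) (nat_lit 14))
    (@En.i (nat_lit 4439) (nat_lit 2) (nat_lit 10))
    (@En.i (nat_lit 9549) (nat_lit 2) (nat_lit 13))
    (@En.n l1770 (nat_lit 7274) (nat_lit 4) (nat_lit 4))
    (@En.n l21433 (nat_lit 6988) (nat_lit 5) (nat_lit 6))
    (@En.n l1769 (nat_lit 6982) (nat_lit 6) (nat_lit 8))
    (@En.i (nat_lit 6995) (nat_lit 7) (nat_lit 3))
    (@En.n l1867 (nat_lit 3962) (nat_lit 0) (nat_lit 12))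
    (@En.n l10969 (nat_lit 7278) (nat_lit 9) (nat_lit 4))
    (@En.n l2498 (nat_lit 5550) (nat_lit 5) (nat_lit 13))
    (@En.i (nat_lit 4337) (nat_lit 12) (nat_lit 10))
    (@En.i (nat_lit 8922) (nat_lit 13) (nat_lit 6))
    (@En.n l24510 (nat_lit 4408) (nat_lit 14) (nat_lit 12))
    (@En.n l17666 (nat_lit 9962) (nat_lit 6) (nat_lit 8))
    (@En.n l17 (nat_lit 6989) (nat_lit 15) (nat_lit 2))))
  (@Cl.mk (nat_lit 0x30003000c000a0005000a0004000d000c0006000300060004000d000d000b) (nat_lit 0x21030390000562) (nat_lit 16) Lb.e (@T16.mk En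
    (@En.n l19798 (nat_lit 6359) (nat_lit 0) (nat_lit 11))
    (@En.n l12851 (nat_lit 6994) (nat_lit 3) (nat_lit 13))
    (@En.n l19799 (nat_lit 9552) (nat_lit 13) (nat_lit 13))
    (@En.n l19800 (nat_lit 7379) (nat_lit 3) (nat_lit 4))
    (@En.n l6042 (nat_lit 7305) (nat_lit 12) (nat_lit 6))
    (@En.n l50 (nat_lit 6984) (nat_lit 5) (nat_lit 3))
    (@En.n l6958 (nat_lit 334) (nat_lit 0) (nat_lit 6))
    (@En.n l2863 (nat_lit 7376) (nat_lit 8) (nat_lit 12))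
    (@En.n l19800 (nat_lit 6991) (nat_lit 9) (nat_lit 13))
    (@En.i (nat_lit 4572) (nat_lit 9) (nat_lit 4))
    (@En.n l19801 (nat_lit 4263) (nat_lit 11) (nat_lit 10))
    (@En.n l17197 (nat_lit 10226) (nat_lit 5) (nat_lit 5))
    (@En.i (nat_lit 2214) (nat_lit 13) (nat_lit 10))
    (@En.n l11245 (nat_lit 10452) (nat_lit 8) (nat_lit 12))
    (@En.n l6962 (nat_lit 6992) (nat_lit 13) (nat_lit 3))
    (@En.n l14014 (nat_lit 6994) (nat_lit 0) (nat_lit 3))))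
  (@Cl.mk (nat_lit 0x300030008000b0005000a000d000b00050003000800060005000d000d000b) (nat_lit 0x51032400600672) (nat_lit 16) Lb.e (@T16.mk En
    (@En.i (nat_lit 6357) (nat_lit 0) (nat_lit 11))
    (@En.n l30298 (nat_lit 6995) (nat_lit 3) (nat_lit 13))
    (@En.n l22845 (nat_lit 9554) (nat_lit 12) (nat_lit 13))
    (@En.i (nat_lit 7230) (nat_lit 3) (nat_lit 5))
    (@En.n l30299 (nat_lit 6990) (nat_lit 4) (nat_lit 6))
    (@En.n l4819 (nat_lit 7279) (nat_lit 5) (nat_lit 8))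
    (@En.n l3536 (nat_lit 6985) (nat_lit 6) (nat_lit 3))
    (@En.n l9969 (nat_lit 336) (nat_lit 0) (nat_lit 5))
    (@En.n l30300 (nat_lit 7366) (nat_lit 9) (nat_lit 11))
    (@En.n l3866 (nat_lit 5548) (nat_lit 5) (nat_lit 13))
    (@En.n l30301 (nat_lit 4264) (nat_lit 11) (nat_lit 10))
    (@En.n l6319 (nat_lit 10229) (nat_lit 4) (nat_lit 5))
    (@En.n l7887 (nat_lit 2216) (nat_lit 7) (nat_lit 11))
    (@En.n l830 (nat_lit 9961) (nat_lit 14) (nat_lit 8))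
    (@En.n l50 (nat_lit 6993) (nat_lit 13) (nat_lit 3))
    (@En.n l30302 (nat_lit 6995) (nat_lit 0) (nat_lit 3))))
noncomputable def a437 : T16 Cl := @T16.mk Cl
  (@Cl.mk (nat_lit 0x2000c0003000c000a0004000a0004000d000c0006000300060004000e000d) (nat_lit 0x102103037000086) (nat_lit 16) Lb.e (@T16.mk En
    (@En.n l617 (nat_lit 6990) (nat_lit 2) (nat_lit 13))
    (@En.i (nat_lit 7354) (nat_lit 1) (nat_lit 14))
    (@En.n l3939 (nat_lit 7380) (nat_lit 2) (nat_lit 4))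
    (@En.n l612 (nat_lit 7312) (nat_lit 3) (nat_lit 6))
    (@En.n l50 (nat_lit 6987) (nat_lit 4) (nat_lit 3))
    (@En.n l4839 (nat_lit 335) (nat_lit 0) (nat_lit 6))
    (@En.n l9964 (nat_lit 7377) (nat_lit 7) (nat_lit 12))
    (@En.n l3939 (nat_lit 6993) (nat_lit 8) (nat_lit 13))
    (@En.n l28 (nat_lit 4571) (nat_lit 8) (nat_lit 4))
    (@En.i (nat_lit 4261) (nat_lit 10) (nat_lit 10))
    (@En.n l339 (nat_lit 10237) (nat_lit 10) (nat_lit 4))
    (@En.n l4839 (nat_lit 2213) (nat_lit 12) (nat_lit 10))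
    (@En.n l3939 (nat_lit 4707) (nat_lit 13) (nat_lit 12))
    (@En.n l6680 (nat_lit 6990) (nat_lit 14) (nat_lit 3))
    (@En.i (nat_lit 5466) (nat_lit 0) (nat_lit 12))
    (@En.n l3 (nat_lit 6992) (nat_lit 15) (nat_lit 2))))
  (@Cl.mk (nat_lit 0x2000c00030008000b0004000a000d000b00050003000800060005000e000d) (nat_lit 0x2061022700600a7) (nat_lit 16) Lb.e (@T16.mk En
    (@En.n l601 (nat_lit 6991) (nat_lit 2) (nat_lit 13))
    (@En.n l16911 (nat_lit 7355) (nat_lit 1) (nat_lit 14))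
    (@En.i (nat_lit 7265) (nat_lit 2) (nat_lit 5))
    (@En.n l11864 (nat_lit 6992) (nat_lit 3) (nat_lit 6))
    (@En.n l4819 (nat_lit 7280) (nat_lit 4) (nat_lit 8))
    (@En.n l3536 (nat_lit 6986) (nat_lit 5) (nat_lit 3))
    (@En.n l638 (nat_lit 341) (nat_lit 0) (nat_lit 5))
    (@En.n l68 (nat_lit 7365) (nat_lit 8) (nat_lit 11))
    (@En.n l3866 (nat_lit 5547) (nat_lit 5) (nat_lit 13))
    (@En.n l264 (nat_lit 1015) (nat_lit 10) (nat_lit 10))
    (@En.i (nat_lit 10239) (nat_lit 10) (nat_lit 4))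
    (@En.n l2299 (nat_lit 2215) (nat_lit 7) (nat_lit 11))
    (@En.i (nat_lit 10875) (nat_lit 13) (nat_lit 8))
    (@En.i (nat_lit 6991) (nat_lit 14) (nat_lit 3))
    (@En.i (nat_lit 5490) (nat_lit 0) (nat_lit 12))
    (@En.n l7 (nat_lit 6993) (nat_lit 15) (nat_lit 2))))
  (@Cl.mk (nat_lit 0x2000c000a0006000a0004000d000c0006000300060004000d000a000e0003) (nat_lit 0x3103037000051b0) (nat_lit 16) Lb.e (@T16.mk En
    (@En.n l11217 (nat_lit 6990) (nat_lit 15) (nat_lit 3))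
    (@En.i (nat_lit 13995) (nat_lit 0) (nat_lit 14))
    (@En.n l1792 (nat_lit 4438) (nat_lit 2) (nat_lit 10))
    (@En.n l5200 (nat_lit 9550) (nat_lit 13) (nat_lit 13))
    (@En.n l3865 (nat_lit 7381) (nat_lit 4) (nat_lit 4))
    (@En.n l1685 (nat_lit 7306) (nat_lit 5) (nat_lit 6))
    (@En.n l28 (nat_lit 6988) (nat_lit 6) (nat_lit 3))
    (@En.n l478 (nat_lit 333) (nat_lit 0) (nat_lit 6))
    (@En.n l77 (nat_lit 7378) (nat_lit 9) (nat_lit 12))
    (@En.n l9591 (nat_lit 6995) (nat_lit 10) (nat_lit 13))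
    (@En.n l152 (nat_lit 4574) (nat_lit 10) (nat_lit 4))
    (@En.n l5375 (nat_lit 3340) (nat_lit 12) (nat_lit 10))
    (@En.n l1792 (nat_lit 10221) (nat_lit 13) (nat_lit 6))
    (@En.n l97 (nat_lit 2218) (nat_lit 14) (nat_lit 10))
    (@En.n l1236 (nat_lit 10453) (nat_lit 8) (nat_lit 12))
    (@En.n l17 (nat_lit 6994) (nat_lit 15) (nat_lit 2))))
  (@Cl.mk (nat_lit 0x20008000b0006000a000d000b00050003000800060005000d000a000e0003) (nat_lit 0x5102260060063b0) (nat_lit 16) Lb.e (@T16.mk En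
    (@En.n l22192 (nat_lit 6991) (nat_lit 15) (nat_lit 3))
    (@En.n l21433 (nat_lit 14011) (nat_lit 0) (nat_lit 14))
    (@En.n l22193 (nat_lit 4440) (nat_lit 2) (nat_lit 10))
    (@En.n l5014 (nat_lit 8842) (nat_lit 12) (nat_lit 13))
    (@En.n l22194 (nat_lit 7276) (nat_lit 4) (nat_lit 5))
    (@En.n l21433 (nat_lit 6994) (nat_lit 5) (nat_lit 6))
    (@En.i (nat_lit 7278) (nat_lit 6) (nat_lit 8))
    (@En.n l28 (nat_lit 6989) (nat_lit 7) (nat_lit 3))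
    (@En.n l22195 (nat_lit 339) (nat_lit 0) (nat_lit 5))
    (@En.n l22196 (nat_lit 7373) (nat_lit 10) (nat_lit 11))
    (@En.n l22197 (nat_lit 5552) (nat_lit 5) (nat_lit 13))
    (@En.i (nat_lit 3341) (nat_lit 12) (nat_lit 10))
    (@En.n l22198 (nat_lit 8921) (nat_lit 13) (nat_lit 6))
    (@En.n l5014 (nat_lit 2220) (nat_lit 7) (nat_lit 11))
    (@En.n l22199 (nat_lit 9963) (nat_lit 14) (nat_lit 8))
    (@En.n l17 (nat_lit 6995) (nat_lit 15) (nat_lit 2))))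
  (@Cl.mk (nat_lit 0x2000a000700060005000c000c0006000c0004000400090004000a000e000b) (nat_lit 0x600025060040872) (nat_lit 16) Lb.e (@T16.mk En
    (@En.n l14859 (nat_lit 2316) (nat_lit 10) (nat_lit 11))
    (@En.n l14860 (nat_lit 6757) (nat_lit 1) (nat_lit 14))
    (@En.n l10321 (nat_lit 8278) (nat_lit 2) (nat_lit 10))
    (@En.n l3466 (nat_lit 6999) (nat_lit 3) (nat_lit 4))
    (@En.n l14861 (nat_lit 6484) (nat_lit 4) (nat_lit 9))
    (@En.n l152 (nat_lit 6997) (nat_lit 12) (nat_lit 4))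
    (@En.n l10321 (nat_lit 6191) (nat_lit 6) (nat_lit 4))
    (@En.n l14862 (nat_lit 2150) (nat_lit 8) (nat_lit 12))
    (@En.n l3928 (nat_lit 6481) (nat_lit 8) (nat_lit 6))
    (@En.n l3536 (nat_lit 6890) (nat_lit 4) (nat_lit 12))
    (@En.n l14863 (nat_lit 11170) (nat_lit 11) (nat_lit 12))
    (@En.n l3948 (nat_lit 6166) (nat_lit 11) (nat_lit 5))
    (@En.i (nat_lit 8324) (nat_lit 13) (nat_lit 6))
    (@En.n l3948 (nat_lit 2717) (nat_lit 14) (nat_lit 7))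
    (@En.n l14864 (nat_lit 8789) (nat_lit 11) (nat_lit 10))
    (@En.n l50 (nat_lit 6996) (nat_lit 15) (nat_lit 2))))
  (@Cl.mk (nat_lit 0x20007000d000400090003000a000e000b00020009000700060005000e000c) (nat_lit 0x30308620600093) (nat_lit 16) Lb.e (@T16.mk En
    (@En.i (nat_lit 6996) (nat_lit 10) (nat_lit 12))
    (@En.n l763 (nat_lit 7963) (nat_lit 1) (nat_lit 14))
    (@En.n l3948 (nat_lit 6164) (nat_lit 2) (nat_lit 5))
    (@En.i (nat_lit 8636) (nat_lit 3) (nat_lit 6))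
    (@En.n l3948 (nat_lit 2718) (nat_lit 14) (nat_lit 7))
    (@En.n l765 (nat_lit 7680) (nat_lit 5) (nat_lit 9))
    (@En.n l50 (nat_lit 6997) (nat_lit 6) (nat_lit 2))
    (@En.n l217 (nat_lit 2312) (nat_lit 8) (nat_lit 11))
    (@En.n l1546 (nat_lit 6751) (nat_lit 9) (nat_lit 14))
    (@En.n l6028 (nat_lit 9209) (nat_lit 10) (nat_lit 10))
    (@En.i (nat_lit 6998) (nat_lit 10) (nat_lit 3))
    (@En.n l6029 (nat_lit 5735) (nat_lit 4) (nat_lit 9))
    (@En.n l117 (nat_lit 6190) (nat_lit 5) (nat_lit 4))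
    (@En.n l4839 (nat_lit 2204) (nat_lit 7) (nat_lit 13))
    (@En.i (nat_lit 6488) (nat_lit 7) (nat_lit 7))
    (@En.n l3 (nat_lit 6997) (nat_lit 15) (nat_lit 2))))
  (@Cl.mk (nat_lit 0x20007000d000800050003000a000e000b00020009000800060005000e000b) (nat_lit 0x230087205100b9) (nat_lit 16) Lb.e (@T16.mk En
    (@En.n l3466 (nat_lit 6999) (nat_lit 10) (nat_lit 11))
    (@En.n l763 (nat_lit 7962) (nat_lit 1) (nat_lit 14))
    (@En.n l3467 (nat_lit 6161) (nat_lit 2) (nat_lit 5))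
    (@En.i (nat_lit 8638) (nat_lit 3) (nat_lit 6))
    (@En.n l3467 (nat_lit 1024) (nat_lit 14) (nat_lit 8))
    (@En.n l3468 (nat_lit 8475) (nat_lit 5) (nat_lit 9))
    (@En.n l50 (nat_lit 6998) (nat_lit 6) (nat_lit 2))
    (@En.n l217 (nat_lit 2313) (nat_lit 8) (nat_lit 11))
    (@En.n l1546 (nat_lit 6756) (nat_lit 9) (nat_lit 14))
    (@En.n l845 (nat_lit 9259) (nat_lit 10) (nat_lit 10))
    (@En.n l11 (nat_lit 6997) (nat_lit 10) (nat_lit 3))
    (@En.n l3469 (nat_lit 7002) (nat_lit 4) (nat_lit 5))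
    (@En.i (nat_lit 3664) (nat_lit 13) (nat_lit 8))
    (@En.n l3470 (nat_lit 2207) (nat_lit 7) (nat_lit 13))
    (@En.i (nat_lit 6489) (nat_lit 7) (nat_lit 7))
    (@En.n l3 (nat_lit 6998) (nat_lit 15) (nat_lit 2))))
  (@Cl.mk (nat_lit 0x2000a000900060005000b000b0006000c0007000500050004000a000e000b) (nat_lit 0x510085060000872) (nat_lit 16) Lb.e (@T16.mk En
    (@En.n l68 (nat_lit 2318) (nat_lit 13) (nat_lit 11))
    (@En.n l8414 (nat_lit 6786) (nat_lit 1) (nat_lit 14))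
    (@En.n l8415 (nat_lit 9253) (nat_lit 2) (nat_lit 10))
    (@En.n l2179 (nat_lit 6491) (nat_lit 3) (nat_lit 4))
    (@En.n l8416 (nat_lit 6998) (nat_lit 11) (nat_lit 5))
    (@En.n l2180 (nat_lit 7000) (nat_lit 5) (nat_lit 5))
    (@En.n l8417 (nat_lit 2037) (nat_lit 6) (nat_lit 7))
    (@En.n l8418 (nat_lit 2235) (nat_lit 8) (nat_lit 12))
    (@En.n l8419 (nat_lit 6486) (nat_lit 8) (nat_lit 6))
    (@En.n l61 (nat_lit 6889) (nat_lit 5) (nat_lit 11))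
    (@En.n l645 (nat_lit 11171) (nat_lit 11) (nat_lit 11))
    (@En.i (nat_lit 6159) (nat_lit 11) (nat_lit 5))
    (@En.n l8420 (nat_lit 8648) (nat_lit 13) (nat_lit 6))
    (@En.n l8421 (nat_lit 1025) (nat_lit 14) (nat_lit 9))
    (@En.n l2183 (nat_lit 8386) (nat_lit 2) (nat_lit 10))
    (@En.n l67 (nat_lit 6999) (nat_lit 15) (nat_lit 2))))
  (@Cl.mk (nat_lit 0x20009000c00060005000b0004000c0007000d000500040003000a000e000b) (nat_lit 0x550040606000832) (nat_lit 16) Lb.e (@T16.mk En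
    (@En.n l68 (nat_lit 6880) (nat_lit 13) (nat_lit 11))
    (@En.n l19929 (nat_lit 6653) (nat_lit 1) (nat_lit 14))
    (@En.i (nat_lit 9509) (nat_lit 2) (nat_lit 10))
    (@En.n l763 (nat_lit 7007) (nat_lit 3) (nat_lit 3))
    (@En.i (nat_lit 7001) (nat_lit 4) (nat_lit 4))
    (@En.n l1545 (nat_lit 6193) (nat_lit 5) (nat_lit 5))
    (@En.n l6322 (nat_lit 2231) (nat_lit 7) (nat_lit 13))
    (@En.n l19930 (nat_lit 6484) (nat_lit 7) (nat_lit 7))
    (@En.n l19931 (nat_lit 6996) (nat_lit 9) (nat_lit 12))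
    (@En.n l12617 (nat_lit 6489) (nat_lit 9) (nat_lit 4))
    (@En.n l8450 (nat_lit 11169) (nat_lit 11) (nat_lit 11))
    (@En.i (nat_lit 6103) (nat_lit 11) (nat_lit 5))
    (@En.n l15621 (nat_lit 8653) (nat_lit 13) (nat_lit 6))
    (@En.i (nat_lit 3893) (nat_lit 14) (nat_lit 12))
    (@En.n l6322 (nat_lit 8790) (nat_lit 11) (nat_lit 9))
    (@En.n l67 (nat_lit 7000) (nat_lit 15) (nat_lit 2))))
  (@Cl.mk (nat_lit 0x20008000c00060005000d0004000c00030008000e00040002000a000e000b) (nat_lit 0x550090405700852) (nat_lit 16) Lb.e (@T16.mk En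
    (@En.n l68 (nat_lit 6876) (nat_lit 13) (nat_lit 11))
    (@En.n l831 (nat_lit 6857) (nat_lit 1) (nat_lit 14))
    (@En.i (nat_lit 9081) (nat_lit 2) (nat_lit 10))
    (@En.n l17 (nat_lit 7001) (nat_lit 3) (nat_lit 2))
    (@En.n l4172 (nat_lit 7003) (nat_lit 4) (nat_lit 4))
    (@En.n l2698 (nat_lit 2233) (nat_lit 6) (nat_lit 14))
    (@En.n l4172 (nat_lit 4129) (nat_lit 6) (nat_lit 8))
    (@En.i (nat_lit 7002) (nat_lit 7) (nat_lit 3))
    (@En.n l1055 (nat_lit 6997) (nat_lit 0) (nat_lit 12))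
    (@En.i (nat_lit 7005) (nat_lit 9) (nat_lit 4))
    (@En.n l9751 (nat_lit 6471) (nat_lit 11) (nat_lit 13))
    (@En.i (nat_lit 4061) (nat_lit 7) (nat_lit 5))
    (@En.n l1055 (nat_lit 8676) (nat_lit 13) (nat_lit 6))
    (@En.i (nat_lit 3712) (nat_lit 10) (nat_lit 12))
    (@En.n l197 (nat_lit 8413) (nat_lit 11) (nat_lit 8))
    (@En.n l67 (nat_lit 7001) (nat_lit 15) (nat_lit 2))))
  (@Cl.mk (nat_lit 0x20008000b00060005000d000b000500030008000e00050002000a000e000b) (nat_lit 0x6400a50057008b2) (nat_lit 16) Lb.e (@T16.mk En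
    (@En.n l68 (nat_lit 6874) (nat_lit 13) (nat_lit 11))
    (@En.n l831 (nat_lit 6715) (nat_lit 1) (nat_lit 14))
    (@En.i (nat_lit 9602) (nat_lit 2) (nat_lit 10))
    (@En.n l17 (nat_lit 7002) (nat_lit 3) (nat_lit 2))
    (@En.n l9750 (nat_lit 7004) (nat_lit 4) (nat_lit 5))
    (@En.n l2698 (nat_lit 2234) (nat_lit 6) (nat_lit 14))
    (@En.n l4172 (nat_lit 7005) (nat_lit 6) (nat_lit 8))
    (@En.n l7 (nat_lit 7001) (nat_lit 7) (nat_lit 3))
    (@En.n l1422 (nat_lit 1811) (nat_lit 8) (nat_lit 5))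
    (@En.i (nat_lit 7000) (nat_lit 10) (nat_lit 11))
    (@En.n l9751 (nat_lit 6473) (nat_lit 11) (nat_lit 13))
    (@En.i (nat_lit 4063) (nat_lit 7) (nat_lit 5))
    (@En.n l9752 (nat_lit 8677) (nat_lit 13) (nat_lit 6))
    (@En.i (nat_lit 3710) (nat_lit 14) (nat_lit 11))
    (@En.n l197 (nat_lit 8379) (nat_lit 11) (nat_lit 8))
    (@En.n l67 (nat_lit 7002) (nat_lit 15) (nat_lit 2))))
  (@Cl.mk (nat_lit 0x20007000c00060005000c0004000c000c0004000900040004000a000e000b) (nat_lit 0x500a0650600681) (nat_lit 16) Lb.e (@T16.mk En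
    (@En.n l68 (nat_lit 6877) (nat_lit 12) (nat_lit 11))
    (@En.n l1589 (nat_lit 6658) (nat_lit 1) (nat_lit 14))
    (@En.n l3492 (nat_lit 9567) (nat_lit 2) (nat_lit 10))
    (@En.n l11228 (nat_lit 7670) (nat_lit 12) (nat_lit 4))
    (@En.n l25054 (nat_lit 7000) (nat_lit 4) (nat_lit 4))
    (@En.n l3522 (nat_lit 4130) (nat_lit 5) (nat_lit 9))
    (@En.n l3492 (nat_lit 6192) (nat_lit 6) (nat_lit 4))
    (@En.n l5653 (nat_lit 7001) (nat_lit 8) (nat_lit 12))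
    (@En.n l14016 (nat_lit 6190) (nat_lit 9) (nat_lit 12))
    (@En.n l25055 (nat_lit 7006) (nat_lit 9) (nat_lit 4))
    (@En.n l4547 (nat_lit 5175) (nat_lit 11) (nat_lit 12))
    (@En.i (nat_lit 4067) (nat_lit 11) (nat_lit 5))
    (@En.n l14016 (nat_lit 8718) (nat_lit 13) (nat_lit 6))
    (@En.n l77 (nat_lit 3587) (nat_lit 14) (nat_lit 12))
    (@En.n l3476 (nat_lit 8416) (nat_lit 7) (nat_lit 7))
    (@En.n l67 (nat_lit 7003) (nat_lit 15) (nat_lit 2))))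
  (@Cl.mk (nat_lit 0x20007000a00060005000c000b000b00060004000900050005000a000e000b) (nat_lit 0x500a5600700852) (nat_lit 16) Lb.e (@T16.mk En
    (@En.n l15687 (nat_lit 6672) (nat_lit 10) (nat_lit 11))
    (@En.n l11094 (nat_lit 6775) (nat_lit 1) (nat_lit 14))
    (@En.n l22389 (nat_lit 9605) (nat_lit 2) (nat_lit 10))
    (@En.n l22390 (nat_lit 7669) (nat_lit 3) (nat_lit 5))
    (@En.n l22391 (nat_lit 6999) (nat_lit 4) (nat_lit 5))
    (@En.n l22392 (nat_lit 7006) (nat_lit 5) (nat_lit 9))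
    (@En.i (nat_lit 7003) (nat_lit 6) (nat_lit 4))
    (@En.n l15691 (nat_lit 3955) (nat_lit 7) (nat_lit 6))
    (@En.n l22393 (nat_lit 7002) (nat_lit 9) (nat_lit 11))
    (@En.n l22394 (nat_lit 6193) (nat_lit 10) (nat_lit 11))
    (@En.n l22395 (nat_lit 6477) (nat_lit 11) (nat_lit 12))
    (@En.i (nat_lit 5998) (nat_lit 11) (nat_lit 5))
    (@En.n l15691 (nat_lit 8679) (nat_lit 13) (nat_lit 6))
    (@En.n l6367 (nat_lit 3032) (nat_lit 8) (nat_lit 10))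
    (@En.n l3476 (nat_lit 8788) (nat_lit 7) (nat_lit 7))
    (@En.n l67 (nat_lit 7004) (nat_lit 15) (nat_lit 2))))
  (@Cl.mk (nat_lit 0x20008000c000b000700060004000c00050008000e000400020009000e000a) (nat_lit 0x6150004048007a2) (nat_lit 16) Lb.e (@T16.mk En
    (@En.n l68 (nat_lit 6875) (nat_lit 13) (nat_lit 10))
    (@En.n l831 (nat_lit 6858) (nat_lit 1) (nat_lit 14))
    (@En.i (nat_lit 9603) (nat_lit 2) (nat_lit 9))
    (@En.n l17 (nat_lit 7005) (nat_lit 3) (nat_lit 2))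
    (@En.n l13265 (nat_lit 7006) (nat_lit 4) (nat_lit 4))
    (@En.n l2698 (nat_lit 2341) (nat_lit 6) (nat_lit 14))
    (@En.n l4172 (nat_lit 4128) (nat_lit 10) (nat_lit 8))
    (@En.n l1422 (nat_lit 1812) (nat_lit 7) (nat_lit 5))
    (@En.n l13266 (nat_lit 6484) (nat_lit 9) (nat_lit 12))
    (@En.n l28 (nat_lit 7094) (nat_lit 9) (nat_lit 4))
    (@En.i (nat_lit 4062) (nat_lit 6) (nat_lit 6))
    (@En.n l12617 (nat_lit 8915) (nat_lit 7) (nat_lit 7))
    (@En.n l77 (nat_lit 7002) (nat_lit 13) (nat_lit 11))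
    (@En.i (nat_lit 1372) (nat_lit 10) (nat_lit 12))
    (@En.n l476 (nat_lit 8382) (nat_lit 11) (nat_lit 8))
    (@En.n l67 (nat_lit 7005) (nat_lit 15) (nat_lit 2))))
  (@Cl.mk (nat_lit 0x20007000c000a000700060004000c000c00060009000400040009000e000a) (nat_lit 0x26000650600712) (nat_lit 16) Lb.e (@T16.mk En
    (@En.n l16030 (nat_lit 6883) (nat_lit 12) (nat_lit 10))
    (@En.n l16031 (nat_lit 6783) (nat_lit 1) (nat_lit 14))
    (@En.n l16032 (nat_lit 9606) (nat_lit 2) (nat_lit 9))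
    (@En.n l16033 (nat_lit 7668) (nat_lit 3) (nat_lit 4))
    (@En.n l2094 (nat_lit 6489) (nat_lit 4) (nat_lit 4))
    (@En.n l13427 (nat_lit 4127) (nat_lit 5) (nat_lit 9))
    (@En.n l55 (nat_lit 3954) (nat_lit 6) (nat_lit 6))
    (@En.n l16034 (nat_lit 7005) (nat_lit 8) (nat_lit 12))
    (@En.n l16035 (nat_lit 6194) (nat_lit 9) (nat_lit 12))
    (@En.n l16036 (nat_lit 7095) (nat_lit 9) (nat_lit 4))
    (@En.n l16037 (nat_lit 4068) (nat_lit 10) (nat_lit 6))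
    (@En.n l12787 (nat_lit 8267) (nat_lit 12) (nat_lit 7))
    (@En.n l16037 (nat_lit 7004) (nat_lit 13) (nat_lit 10))
    (@En.n l16038 (nat_lit 1373) (nat_lit 14) (nat_lit 12))
    (@En.n l16039 (nat_lit 8789) (nat_lit 13) (nat_lit 7))
    (@En.n l17 (nat_lit 7006) (nat_lit 15) (nat_lit 2))))
  (@Cl.mk (nat_lit 0x20009000c00060005000a0004000d0007000d000300060003000a000e000b) (nat_lit 0x550030606000820) (nat_lit 16) Lb.e (@T16.mk En
    (@En.n l68 (nat_lit 7051) (nat_lit 11) (nat_lit 11))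
    (@En.n l645 (nat_lit 5968) (nat_lit 1) (nat_lit 14))
    (@En.i (nat_lit 9853) (nat_lit 2) (nat_lit 10))
    (@En.n l2364 (nat_lit 7000) (nat_lit 3) (nat_lit 3))
    (@En.i (nat_lit 4769) (nat_lit 4) (nat_lit 6))
    (@En.i (nat_lit 7008) (nat_lit 5) (nat_lit 3))
    (@En.n l2916 (nat_lit 2265) (nat_lit 0) (nat_lit 13))
    (@En.i (nat_lit 6483) (nat_lit 7) (nat_lit 7))
    (@En.i (nat_lit 6491) (nat_lit 9) (nat_lit 13))
    (@En.n l2438 (nat_lit 6488) (nat_lit 9) (nat_lit 4))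
    (@En.n l645 (nat_lit 11143) (nat_lit 11) (nat_lit 10))
    (@En.i (nat_lit 5663) (nat_lit 11) (nat_lit 5))
    (@En.n l1448 (nat_lit 8651) (nat_lit 13) (nat_lit 6))
    (@En.i (nat_lit 3892) (nat_lit 14) (nat_lit 12))
    (@En.n l197 (nat_lit 8798) (nat_lit 11) (nat_lit 9))
    (@En.n l67 (nat_lit 7007) (nat_lit 15) (nat_lit 2))))
noncomputable def a438 : T16 Cl := @T16.mk Cl
  (@Cl.mk (nat_lit 0x20008000c00060005000a0004000d000c0008000300060004000a000e000b) (nat_lit 0x450030576000823) (nat_lit 16) Lb.e (@T16.mk En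
    (@En.n l68 (nat_lit 7122) (nat_lit 11) (nat_lit 11))
    (@En.n l3471 (nat_lit 5970) (nat_lit 1) (nat_lit 14))
    (@En.i (nat_lit 9855) (nat_lit 2) (nat_lit 10))
    (@En.n l11386 (nat_lit 7003) (nat_lit 3) (nat_lit 4))
    (@En.n l3471 (nat_lit 6965) (nat_lit 4) (nat_lit 6))
    (@En.n l18 (nat_lit 7007) (nat_lit 5) (nat_lit 3))
    (@En.n l11383 (nat_lit 7712) (nat_lit 0) (nat_lit 8))
    (@En.n l6444 (nat_lit 7000) (nat_lit 8) (nat_lit 12))
    (@En.n l14943 (nat_lit 7009) (nat_lit 9) (nat_lit 13))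
    (@En.n l14016 (nat_lit 6490) (nat_lit 9) (nat_lit 4))
    (@En.n l645 (nat_lit 11145) (nat_lit 11) (nat_lit 10))
    (@En.i (nat_lit 5655) (nat_lit 11) (nat_lit 5))
    (@En.n l11396 (nat_lit 8652) (nat_lit 13) (nat_lit 6))
    (@En.i (nat_lit 3066) (nat_lit 14) (nat_lit 12))
    (@En.n l3522 (nat_lit 8883) (nat_lit 9) (nat_lit 8))
    (@En.n l67 (nat_lit 7008) (nat_lit 15) (nat_lit 2))))
  (@Cl.mk (nat_lit 0x20009000800060005000a000d000b00070003000800060005000a000e000b) (nat_lit 0x450024600100821) (nat_lit 16) Lb.e (@T16.mk En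
    (@En.n l29355 (nat_lit 5313) (nat_lit 10) (nat_lit 11))
    (@En.n l3380 (nat_lit 5972) (nat_lit 1) (nat_lit 14))
    (@En.n l780 (nat_lit 9584) (nat_lit 2) (nat_lit 10))
    (@En.n l28917 (nat_lit 6190) (nat_lit 3) (nat_lit 5))
    (@En.n l11649 (nat_lit 7008) (nat_lit 4) (nat_lit 6))
    (@En.n l29356 (nat_lit 5298) (nat_lit 5) (nat_lit 8))
    (@En.n l22352 (nat_lit 6491) (nat_lit 6) (nat_lit 3))
    (@En.n l14712 (nat_lit 7716) (nat_lit 0) (nat_lit 7))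
    (@En.n l958 (nat_lit 6999) (nat_lit 9) (nat_lit 11))
    (@En.n l6658 (nat_lit 7150) (nat_lit 5) (nat_lit 13))
    (@En.n l29357 (nat_lit 11147) (nat_lit 11) (nat_lit 10))
    (@En.n l2270 (nat_lit 5654) (nat_lit 11) (nat_lit 5))
    (@En.n l28917 (nat_lit 8650) (nat_lit 13) (nat_lit 6))
    (@En.i (nat_lit 4255) (nat_lit 14) (nat_lit 8))
    (@En.n l29358 (nat_lit 8882) (nat_lit 8) (nat_lit 9))
    (@En.n l3 (nat_lit 7009) (nat_lit 15) (nat_lit 2))))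
  (@Cl.mk (nat_lit 0x200070006000b00070006000b000e0005000200090005000a0009000e000a) (nat_lit 0x3004b00408571) (nat_lit 16) Lb.e (@T16.mk En
    (@En.n l21911 (nat_lit 6445) (nat_lit 10) (nat_lit 10))
    (@En.i (nat_lit 6838) (nat_lit 11) (nat_lit 14))
    (@En.n l3496 (nat_lit 12124) (nat_lit 2) (nat_lit 9))
    (@En.n l9268 (nat_lit 5305) (nat_lit 3) (nat_lit 10))
    (@En.n l1599 (nat_lit 7011) (nat_lit 14) (nat_lit 5))
    (@En.n l21912 (nat_lit 6535) (nat_lit 5) (nat_lit 9))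
    (@En.n l11 (nat_lit 7010) (nat_lit 6) (nat_lit 2))
    (@En.n l21913 (nat_lit 6446) (nat_lit 7) (nat_lit 5))
    (@En.n l21914 (nat_lit 5702) (nat_lit 9) (nat_lit 14))
    (@En.n l2568 (nat_lit 8923) (nat_lit 2) (nat_lit 11))
    (@En.n l21914 (nat_lit 5511) (nat_lit 3) (nat_lit 6))
    (@En.i (nat_lit 5785) (nat_lit 4) (nat_lit 7))
    (@En.n l21915 (nat_lit 4439) (nat_lit 13) (nat_lit 11))
    (@En.n l21914 (nat_lit 6958) (nat_lit 14) (nat_lit 6))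
    (@En.n l20418 (nat_lit 9467) (nat_lit 7) (nat_lit 7))
    (@En.n l18 (nat_lit 7010) (nat_lit 15) (nat_lit 2))))
  (@Cl.mk (nat_lit 0x20005000a0009000e000a0002000a0006000a00070006000b0006000e0006) (nat_lit 0x642104040050c0) (nat_lit 16) Lb.e (@T16.mk En
    (@En.n l26696 (nat_lit 6543) (nat_lit 6) (nat_lit 6))
    (@En.n l2038 (nat_lit 7010) (nat_lit 8) (nat_lit 14))
    (@En.n l20615 (nat_lit 3173) (nat_lit 2) (nat_lit 6))
    (@En.n l1738 (nat_lit 8924) (nat_lit 3) (nat_lit 11))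
    (@En.n l20869 (nat_lit 7013) (nat_lit 4) (nat_lit 6))
    (@En.n l26697 (nat_lit 5784) (nat_lit 5) (nat_lit 7))
    (@En.i (nat_lit 4437) (nat_lit 13) (nat_lit 10))
    (@En.n l1504 (nat_lit 6957) (nat_lit 7) (nat_lit 6))
    (@En.n l11419 (nat_lit 9798) (nat_lit 9) (nat_lit 10))
    (@En.n l18 (nat_lit 7011) (nat_lit 9) (nat_lit 2))
    (@En.n l26698 (nat_lit 5315) (nat_lit 11) (nat_lit 10))
    (@En.i (nat_lit 6832) (nat_lit 12) (nat_lit 14))
    (@En.n l14223 (nat_lit 11431) (nat_lit 13) (nat_lit 9))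
    (@En.n l26699 (nat_lit 6950) (nat_lit 3) (nat_lit 10))
    (@En.n l18041 (nat_lit 7716) (nat_lit 13) (nat_lit 5))
    (@En.n l28 (nat_lit 7011) (nat_lit 15) (nat_lit 2))))
  (@Cl.mk (nat_lit 0x200050009000d0009000e00030002000b0007000b0007000b0005000e0005) (nat_lit 0x785300506040c0) (nat_lit 16) Lb.e (@T16.mk En
    (@En.n l5760 (nat_lit 7016) (nat_lit 7) (nat_lit 5))
    (@En.n l2038 (nat_lit 5508) (nat_lit 1) (nat_lit 14))
    (@En.n l152 (nat_lit 4488) (nat_lit 2) (nat_lit 5))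
    (@En.n l1897 (nat_lit 3791) (nat_lit 3) (nat_lit 11))
    (@En.n l5515 (nat_lit 12600) (nat_lit 4) (nat_lit 7))
    (@En.i (nat_lit 6988) (nat_lit 13) (nat_lit 11))
    (@En.n l1504 (nat_lit 6959) (nat_lit 6) (nat_lit 7))
    (@En.i (nat_lit 9903) (nat_lit 8) (nat_lit 11))
    (@En.n l17 (nat_lit 7012) (nat_lit 8) (nat_lit 2))
    (@En.n l1075 (nat_lit 7013) (nat_lit 9) (nat_lit 3))
    (@En.i (nat_lit 13620) (nat_lit 0) (nat_lit 14))
    (@En.n l5 (nat_lit 7011) (nat_lit 12) (nat_lit 9))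
    (@En.n l3082 (nat_lit 9972) (nat_lit 13) (nat_lit 13))
    (@En.n l12876 (nat_lit 7195) (nat_lit 14) (nat_lit 9))
    (@En.n l1897 (nat_lit 5505) (nat_lit 13) (nat_lit 5))
    (@En.n l28 (nat_lit 7012) (nat_lit 15) (nat_lit 2))))
  (@Cl.mk (nat_lit 0x200050009000d000d000a00030003000b0007000b0006000b0005000e0005) (nat_lit 0x779500507040c0) (nat_lit 16) Lb.e (@T16.mk En
    (@En.n l50 (nat_lit 7015) (nat_lit 6) (nat_lit 5))
    (@En.n l40366 (nat_lit 5511) (nat_lit 1) (nat_lit 14))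
    (@En.n l11361 (nat_lit 4484) (nat_lit 2) (nat_lit 5))
    (@En.i (nat_lit 3792) (nat_lit 3) (nat_lit 11))
    (@En.n l10577 (nat_lit 12599) (nat_lit 4) (nat_lit 6))
    (@En.n l11361 (nat_lit 6984) (nat_lit 12) (nat_lit 11))
    (@En.n l40367 (nat_lit 6962) (nat_lit 6) (nat_lit 7))
    (@En.i (nat_lit 9901) (nat_lit 8) (nat_lit 11))
    (@En.n l1154 (nat_lit 7014) (nat_lit 8) (nat_lit 3))
    (@En.n l39820 (nat_lit 7012) (nat_lit 9) (nat_lit 3))
    (@En.n l265 (nat_lit 7655) (nat_lit 11) (nat_lit 10))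
    (@En.n l8772 (nat_lit 7012) (nat_lit 12) (nat_lit 13))
    (@En.i (nat_lit 9975) (nat_lit 13) (nat_lit 13))
    (@En.n l22467 (nat_lit 7194) (nat_lit 14) (nat_lit 9))
    (@En.n l19308 (nat_lit 3251) (nat_lit 13) (nat_lit 5))
    (@En.n l18 (nat_lit 7013) (nat_lit 15) (nat_lit 2))))
  (@Cl.mk (nat_lit 0x200050009000e000d0002000b0003000b0007000b0005000b0005000e0005) (nat_lit 0x7a8060507040c0) (nat_lit 16) Lb.e (@T16.mk En
    (@En.n l35346 (nat_lit 7017) (nat_lit 5) (nat_lit 5))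
    (@En.n l20166 (nat_lit 7021) (nat_lit 1) (nat_lit 14))
    (@En.n l617 (nat_lit 4486) (nat_lit 2) (nat_lit 5))
    (@En.i (nat_lit 3793) (nat_lit 9) (nat_lit 11))
    (@En.i (nat_lit 12299) (nat_lit 4) (nat_lit 5))
    (@En.i (nat_lit 6987) (nat_lit 11) (nat_lit 11))
    (@En.n l8572 (nat_lit 7251) (nat_lit 6) (nat_lit 7))
    (@En.i (nat_lit 11000) (nat_lit 8) (nat_lit 11))
    (@En.n l1246 (nat_lit 7013) (nat_lit 8) (nat_lit 3))
    (@En.i (nat_lit 5061) (nat_lit 10) (nat_lit 11))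
    (@En.n l3 (nat_lit 7014) (nat_lit 10) (nat_lit 2))
    (@En.n l965 (nat_lit 7013) (nat_lit 12) (nat_lit 13))
    (@En.n l7070 (nat_lit 7369) (nat_lit 13) (nat_lit 14))
    (@En.n l7408 (nat_lit 7196) (nat_lit 14) (nat_lit 9))
    (@En.n l8573 (nat_lit 5669) (nat_lit 13) (nat_lit 5))
    (@En.n l50 (nat_lit 7014) (nat_lit 15) (nat_lit 2))))
  (@Cl.mk (nat_lit 0x30003000a0007000b000b0007000c00060005000500040009000d000d0009) (nat_lit 0x70780400005682) (nat_lit 16) Lb.e (@T16.mk En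
    (@En.n l21510 (nat_lit 7654) (nat_lit 0) (nat_lit 9))
    (@En.n l619 (nat_lit 7016) (nat_lit 3) (nat_lit 13))
    (@En.i (nat_lit 9970) (nat_lit 6) (nat_lit 13))
    (@En.n l15535 (nat_lit 7203) (nat_lit 3) (nat_lit 9))
    (@En.n l11407 (nat_lit 3917) (nat_lit 4) (nat_lit 4))
    (@En.n l2172 (nat_lit 7018) (nat_lit 11) (nat_lit 5))
    (@En.i (nat_lit 3927) (nat_lit 6) (nat_lit 5))
    (@En.n l30811 (nat_lit 4483) (nat_lit 7) (nat_lit 6))
    (@En.i (nat_lit 3790) (nat_lit 9) (nat_lit 12))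
    (@En.n l742 (nat_lit 10255) (nat_lit 10) (nat_lit 7))
    (@En.n l396 (nat_lit 7013) (nat_lit 5) (nat_lit 11))
    (@En.n l30812 (nat_lit 3056) (nat_lit 12) (nat_lit 11))
    (@En.n l30813 (nat_lit 7249) (nat_lit 13) (nat_lit 7))
    (@En.i (nat_lit 9884) (nat_lit 14) (nat_lit 10))
    (@En.n l30814 (nat_lit 7017) (nat_lit 13) (nat_lit 3))
    (@En.n l152 (nat_lit 7016) (nat_lit 0) (nat_lit 3))))
  (@Cl.mk (nat_lit 0x2000a0007000b000b0008000c00060005000500040009000d0008000e0003) (nat_lit 0x707744000067130) (nat_lit 16) Lb.e (@T16.mk En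
    (@En.n l117 (nat_lit 7015) (nat_lit 15) (nat_lit 3))
    (@En.n l5911 (nat_lit 13626) (nat_lit 0) (nat_lit 14))
    (@En.i (nat_lit 6543) (nat_lit 2) (nat_lit 8))
    (@En.i (nat_lit 9967) (nat_lit 4) (nat_lit 13))
    (@En.n l6080 (nat_lit 7391) (nat_lit 4) (nat_lit 9))
    (@En.n l1778 (nat_lit 3918) (nat_lit 5) (nat_lit 4))
    (@En.n l2172 (nat_lit 6910) (nat_lit 6) (nat_lit 5))
    (@En.i (nat_lit 7025) (nat_lit 7) (nat_lit 5))
    (@En.n l29033 (nat_lit 4487) (nat_lit 8) (nat_lit 6))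
    (@En.i (nat_lit 3786) (nat_lit 10) (nat_lit 12))
    (@En.n l742 (nat_lit 7807) (nat_lit 11) (nat_lit 8))
    (@En.n l6840 (nat_lit 7012) (nat_lit 5) (nat_lit 11))
    (@En.n l5911 (nat_lit 7304) (nat_lit 13) (nat_lit 11))
    (@En.n l1347 (nat_lit 7248) (nat_lit 14) (nat_lit 7))
    (@En.i (nat_lit 7189) (nat_lit 14) (nat_lit 10))
    (@En.n l11 (nat_lit 7016) (nat_lit 15) (nat_lit 2))))
  (@Cl.mk (nat_lit 0x2000a0003000a0007000b000b0006000c00060005000500040009000e000d) (nat_lit 0x707078050000577) (nat_lit 16) Lb.e (@T16.mk En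
    (@En.n l27589 (nat_lit 7015) (nat_lit 2) (nat_lit 13))
    (@En.n l27733 (nat_lit 7368) (nat_lit 1) (nat_lit 14))
    (@En.n l14270 (nat_lit 7363) (nat_lit 2) (nat_lit 9))
    (@En.n l3535 (nat_lit 3924) (nat_lit 3) (nat_lit 4))
    (@En.n l152 (nat_lit 7019) (nat_lit 11) (nat_lit 5))
    (@En.n l32664 (nat_lit 7108) (nat_lit 5) (nat_lit 5))
    (@En.n l3707 (nat_lit 4485) (nat_lit 6) (nat_lit 6))
    (@En.n l32664 (nat_lit 3714) (nat_lit 8) (nat_lit 12))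
    (@En.i (nat_lit 10254) (nat_lit 8) (nat_lit 6))
    (@En.n l25130 (nat_lit 7014) (nat_lit 5) (nat_lit 11))
    (@En.n l4274 (nat_lit 7318) (nat_lit 11) (nat_lit 11))
    (@En.i (nat_lit 7250) (nat_lit 12) (nat_lit 7))
    (@En.n l31523 (nat_lit 10994) (nat_lit 13) (nat_lit 10))
    (@En.n l27733 (nat_lit 7015) (nat_lit 14) (nat_lit 3))
    (@En.n l4274 (nat_lit 5055) (nat_lit 0) (nat_lit 10))
    (@En.n l50 (nat_lit 7017) (nat_lit 15) (nat_lit 2))))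
  (@Cl.mk (nat_lit 0x20008000d0007000500030009000d000d00080003000300090007000e000b) (nat_lit 0x520004562007018) (nat_lit 16) Lb.e (@T16.mk En
    (@En.n l217 (nat_lit 7015) (nat_lit 11) (nat_lit 11))
    (@En.n l3531 (nat_lit 353) (nat_lit 1) (nat_lit 14))
    (@En.n l15954 (nat_lit 6974) (nat_lit 2) (nat_lit 7))
    (@En.n l15955 (nat_lit 9881) (nat_lit 3) (nat_lit 9))
    (@En.n l15956 (nat_lit 7019) (nat_lit 4) (nat_lit 3))
    (@En.n l152 (nat_lit 6910) (nat_lit 0) (nat_lit 3))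
    (@En.n l15954 (nat_lit 7962) (nat_lit 6) (nat_lit 8))
    (@En.n l619 (nat_lit 6910) (nat_lit 3) (nat_lit 13))
    (@En.i (nat_lit 8266) (nat_lit 9) (nat_lit 13))
    (@En.n l8638 (nat_lit 4012) (nat_lit 10) (nat_lit 9))
    (@En.n l763 (nat_lit 6911) (nat_lit 10) (nat_lit 3))
    (@En.i (nat_lit 7032) (nat_lit 0) (nat_lit 5))
    (@En.n l1545 (nat_lit 5319) (nat_lit 13) (nat_lit 7))
    (@En.i (nat_lit 3801) (nat_lit 14) (nat_lit 13))
    (@En.n l15954 (nat_lit 7098) (nat_lit 3) (nat_lit 8))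
    (@En.n l50 (nat_lit 7018) (nat_lit 15) (nat_lit 2))))
  (@Cl.mk (nat_lit 0x20007000d0007000500030009000e000d00020009000300090007000e000b) (nat_lit 0x200043601070b8) (nat_lit 16) Lb.e (@T16.mk En
    (@En.i (nat_lit 7017) (nat_lit 10) (nat_lit 11))
    (@En.i (nat_lit 1594) (nat_lit 11) (nat_lit 14))
    (@En.i (nat_lit 6979) (nat_lit 2) (nat_lit 7))
    (@En.n l10459 (nat_lit 7999) (nat_lit 3) (nat_lit 9))
    (@En.n l6441 (nat_lit 7018) (nat_lit 4) (nat_lit 3))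
    (@En.i (nat_lit 5026) (nat_lit 5) (nat_lit 9))
    (@En.n l50 (nat_lit 7019) (nat_lit 6) (nat_lit 2))
    (@En.n l14381 (nat_lit 7018) (nat_lit 8) (nat_lit 13))
    (@En.n l4316 (nat_lit 8844) (nat_lit 9) (nat_lit 14))
    (@En.n l287 (nat_lit 7388) (nat_lit 2) (nat_lit 9))
    (@En.n l11 (nat_lit 7023) (nat_lit 10) (nat_lit 3))
    (@En.n l17951 (nat_lit 7054) (nat_lit 4) (nat_lit 5))
    (@En.i (nat_lit 5321) (nat_lit 5) (nat_lit 7))
    (@En.n l725 (nat_lit 3803) (nat_lit 7) (nat_lit 13))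
    (@En.i (nat_lit 7096) (nat_lit 7) (nat_lit 7))
    (@En.n l3 (nat_lit 7019) (nat_lit 15) (nat_lit 2))))
  (@Cl.mk (nat_lit 0x3000300080007000c000c0007000c00040004000800040009000d000d0009) (nat_lit 0x50480700306582) (nat_lit 16) Lb.e (@T16.mk En
    (@En.n l22708 (nat_lit 6448) (nat_lit 0) (nat_lit 9))
    (@En.n l619 (nat_lit 7024) (nat_lit 3) (nat_lit 13))
    (@En.i (nat_lit 8811) (nat_lit 6) (nat_lit 13))
    (@En.n l13889 (nat_lit 4677) (nat_lit 3) (nat_lit 9))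
    (@En.n l403 (nat_lit 7015) (nat_lit 4) (nat_lit 4))
    (@En.n l24949 (nat_lit 3981) (nat_lit 5) (nat_lit 8))
    (@En.n l18 (nat_lit 6911) (nat_lit 12) (nat_lit 4))
    (@En.n l37007 (nat_lit 5512) (nat_lit 7) (nat_lit 4))
    (@En.i (nat_lit 3796) (nat_lit 0) (nat_lit 12))
    (@En.n l22708 (nat_lit 10208) (nat_lit 1) (nat_lit 7))
    (@En.n l42163 (nat_lit 5511) (nat_lit 4) (nat_lit 12))
    (@En.n l11359 (nat_lit 7279) (nat_lit 12) (nat_lit 12))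
    (@En.n l24385 (nat_lit 5565) (nat_lit 13) (nat_lit 7))
    (@En.n l21664 (nat_lit 9536) (nat_lit 14) (nat_lit 8))
    (@En.n l40286 (nat_lit 7022) (nat_lit 13) (nat_lit 3))
    (@En.n l152 (nat_lit 7024) (nat_lit 0) (nat_lit 3))))
  (@Cl.mk (nat_lit 0x2000800050009000e000d0002000b000300080007000c0005000b000e0004) (nat_lit 0x306a808050304b0) (nat_lit 16) Lb.e (@T16.mk En
    (@En.n l3098 (nat_lit 7022) (nat_lit 6) (nat_lit 4))
    (@En.i (nat_lit 5694) (nat_lit 4) (nat_lit 14))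
    (@En.n l8176 (nat_lit 3067) (nat_lit 9) (nat_lit 11))
    (@En.i (nat_lit 11571) (nat_lit 3) (nat_lit 5))
    (@En.n l4021 (nat_lit 6986) (nat_lit 11) (nat_lit 12))
    (@En.i (nat_lit 6966) (nat_lit 12) (nat_lit 7))
    (@En.n l117 (nat_lit 7797) (nat_lit 6) (nat_lit 8))
    (@En.i (nat_lit 5511) (nat_lit 7) (nat_lit 3))
    (@En.i (nat_lit 7577) (nat_lit 0) (nat_lit 11))
    (@En.n l28 (nat_lit 7021) (nat_lit 9) (nat_lit 2))
    (@En.n l134 (nat_lit 5511) (nat_lit 11) (nat_lit 13))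
    (@En.n l5577 (nat_lit 10750) (nat_lit 12) (nat_lit 14))
    (@En.n l20132 (nat_lit 4794) (nat_lit 13) (nat_lit 9))
    (@En.n l3550 (nat_lit 7014) (nat_lit 14) (nat_lit 5))
    (@En.i (nat_lit 5627) (nat_lit 4) (nat_lit 8))
    (@En.n l17 (nat_lit 7021) (nat_lit 15) (nat_lit 2))))
  (@Cl.mk (nat_lit 0x2000a000300080007000c000c0006000c00040004000800040009000e000d) (nat_lit 0x305044040020566) (nat_lit 16) Lb.e (@T16.mk En
    (@En.n l16961 (nat_lit 7020) (nat_lit 2) (nat_lit 13))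
    (@En.n l4316 (nat_lit 8847) (nat_lit 1) (nat_lit 14))
    (@En.n l22934 (nat_lit 4735) (nat_lit 2) (nat_lit 9))
    (@En.i (nat_lit 7017) (nat_lit 3) (nat_lit 4))
    (@En.n l17747 (nat_lit 3985) (nat_lit 4) (nat_lit 8))
    (@En.n l152 (nat_lit 7023) (nat_lit 12) (nat_lit 4))
    (@En.n l3851 (nat_lit 5513) (nat_lit 6) (nat_lit 4))
    (@En.n l725 (nat_lit 3798) (nat_lit 8) (nat_lit 12))
    (@En.i (nat_lit 10204) (nat_lit 8) (nat_lit 6))
    (@En.n l3536 (nat_lit 7021) (nat_lit 4) (nat_lit 12))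
    (@En.n l10882 (nat_lit 7280) (nat_lit 11) (nat_lit 12))
    (@En.i (nat_lit 5567) (nat_lit 12) (nat_lit 7))
    (@En.n l3213 (nat_lit 7800) (nat_lit 13) (nat_lit 8))
    (@En.n l15662 (nat_lit 7020) (nat_lit 14) (nat_lit 3))
    (@En.i (nat_lit 7573) (nat_lit 0) (nat_lit 10))
    (@En.n l50 (nat_lit 7022) (nat_lit 15) (nat_lit 2))))
  (@Cl.mk (nat_lit 0x20007000d0004000800030009000e000d00020009000300080007000e000c) (nat_lit 0x30304a50105095) (nat_lit 16) Lb.e (@T16.mk En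
    (@En.i (nat_lit 7022) (nat_lit 10) (nat_lit 12))
    (@En.i (nat_lit 1595) (nat_lit 11) (nat_lit 14))
    (@En.i (nat_lit 6977) (nat_lit 2) (nat_lit 7))
    (@En.n l3213 (nat_lit 8004) (nat_lit 3) (nat_lit 8))
    (@En.n l3749 (nat_lit 6911) (nat_lit 4) (nat_lit 3))
    (@En.i (nat_lit 5034) (nat_lit 0) (nat_lit 9))
    (@En.n l50 (nat_lit 7023) (nat_lit 6) (nat_lit 2))
    (@En.n l4270 (nat_lit 6911) (nat_lit 8) (nat_lit 13))
    (@En.n l4316 (nat_lit 8845) (nat_lit 9) (nat_lit 14))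
    (@En.n l2650 (nat_lit 4733) (nat_lit 2) (nat_lit 9))
    (@En.i (nat_lit 7019) (nat_lit 10) (nat_lit 3))
    (@En.i (nat_lit 3977) (nat_lit 4) (nat_lit 8))
    (@En.n l117 (nat_lit 5517) (nat_lit 5) (nat_lit 4))
    (@En.n l725 (nat_lit 3894) (nat_lit 7) (nat_lit 13))
    (@En.i (nat_lit 7099) (nat_lit 7) (nat_lit 7))
    (@En.n l3 (nat_lit 7023) (nat_lit 15) (nat_lit 2))))
noncomputable def a439 : T16 Cl := @T16.mk Cl
  (@Cl.mk (nat_lit 0x200080007000c000c0008000c00040004000800040009000d0008000e0003) (nat_lit 0x505845003067130) (nat_lit 16) Lb.e (@T16.mk En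
    (@En.n l117 (nat_lit 7020) (nat_lit 15) (nat_lit 3))
    (@En.n l3749 (nat_lit 13621) (nat_lit 0) (nat_lit 14))
    (@En.i (nat_lit 6446) (nat_lit 2) (nat_lit 8))
    (@En.i (nat_lit 8808) (nat_lit 4) (nat_lit 13))
    (@En.n l3593 (nat_lit 4757) (nat_lit 4) (nat_lit 9))
    (@En.n l403 (nat_lit 7016) (nat_lit 5) (nat_lit 4))
    (@En.n l1353 (nat_lit 3982) (nat_lit 6) (nat_lit 8))
    (@En.n l18 (nat_lit 6909) (nat_lit 7) (nat_lit 4))
    (@En.n l30368 (nat_lit 5510) (nat_lit 8) (nat_lit 4))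
    (@En.i (nat_lit 3797) (nat_lit 10) (nat_lit 12))
    (@En.n l16306 (nat_lit 10734) (nat_lit 11) (nat_lit 8))
    (@En.n l10895 (nat_lit 5508) (nat_lit 4) (nat_lit 12))
    (@En.n l6636 (nat_lit 7278) (nat_lit 13) (nat_lit 12))
    (@En.n l8252 (nat_lit 5566) (nat_lit 14) (nat_lit 7))
    (@En.n l1353 (nat_lit 7359) (nat_lit 14) (nat_lit 8))
    (@En.n l11 (nat_lit 7024) (nat_lit 15) (nat_lit 2))))
  (@Cl.mk (nat_lit 0x2000d0007000b0003000c0009000d0005000400030009000d0007000e0003) (nat_lit 0xa01097600056030) (nat_lit 16) Lb.e (@T16.mk En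
    (@En.n l117 (nat_lit 3927) (nat_lit 15) (nat_lit 3))
    (@En.i (nat_lit 13135) (nat_lit 0) (nat_lit 14))
    (@En.i (nat_lit 6538) (nat_lit 2) (nat_lit 7))
    (@En.i (nat_lit 9403) (nat_lit 6) (nat_lit 13))
    (@En.n l6080 (nat_lit 7444) (nat_lit 4) (nat_lit 9))
    (@En.n l5331 (nat_lit 3919) (nat_lit 5) (nat_lit 3))
    (@En.n l18 (nat_lit 7027) (nat_lit 0) (nat_lit 4))
    (@En.n l6081 (nat_lit 5554) (nat_lit 7) (nat_lit 5))
    (@En.i (nat_lit 3780) (nat_lit 9) (nat_lit 13))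
    (@En.n l61 (nat_lit 10876) (nat_lit 10) (nat_lit 9))
    (@En.i (nat_lit 7024) (nat_lit 11) (nat_lit 12))
    (@En.i (nat_lit 7026) (nat_lit 11) (nat_lit 3))
    (@En.n l2869 (nat_lit 3054) (nat_lit 0) (nat_lit 11))
    (@En.i (nat_lit 7080) (nat_lit 14) (nat_lit 7))
    (@En.i (nat_lit 10543) (nat_lit 2) (nat_lit 13))
    (@En.n l11 (nat_lit 7025) (nat_lit 15) (nat_lit 2))))
  (@Cl.mk (nat_lit 0x2000d000a00080003000c0009000d0006000400030008000d0007000e0003) (nat_lit 0x58209760002b0b0) (nat_lit 16) Lb.e (@T16.mk En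
    (@En.n l117 (nat_lit 3929) (nat_lit 15) (nat_lit 3))
    (@En.i (nat_lit 13136) (nat_lit 0) (nat_lit 14))
    (@En.i (nat_lit 6536) (nat_lit 2) (nat_lit 7))
    (@En.i (nat_lit 9400) (nat_lit 2) (nat_lit 13))
    (@En.n l6080 (nat_lit 7427) (nat_lit 4) (nat_lit 8))
    (@En.n l6368 (nat_lit 3921) (nat_lit 5) (nat_lit 3))
    (@En.n l18 (nat_lit 7028) (nat_lit 0) (nat_lit 4))
    (@En.n l1347 (nat_lit 5341) (nat_lit 7) (nat_lit 6))
    (@En.i (nat_lit 3783) (nat_lit 9) (nat_lit 13))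
    (@En.n l61 (nat_lit 10878) (nat_lit 10) (nat_lit 9))
    (@En.n l21659 (nat_lit 5628) (nat_lit 11) (nat_lit 12))
    (@En.n l7 (nat_lit 7025) (nat_lit 11) (nat_lit 3))
    (@En.n l10064 (nat_lit 4669) (nat_lit 0) (nat_lit 8))
    (@En.i (nat_lit 7016) (nat_lit 14) (nat_lit 10))
    (@En.n l4019 (nat_lit 10364) (nat_lit 2) (nat_lit 13))
    (@En.n l11 (nat_lit 7026) (nat_lit 15) (nat_lit 2))))
  (@Cl.mk (nat_lit 0x20009000d0006000e00030002000d0007000d0003000c0003000a000e0004) (nat_lit 0x450300a09070760) (nat_lit 16) Lb.e (@T16.mk En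
    (@En.n l3098 (nat_lit 7033) (nat_lit 6) (nat_lit 4))
    (@En.i (nat_lit 3778) (nat_lit 8) (nat_lit 14))
    (@En.i (nat_lit 6963) (nat_lit 2) (nat_lit 10))
    (@En.i (nat_lit 7031) (nat_lit 3) (nat_lit 3))
    (@En.i (nat_lit 6909) (nat_lit 11) (nat_lit 12))
    (@En.i (nat_lit 7028) (nat_lit 5) (nat_lit 3))
    (@En.n l253 (nat_lit 966) (nat_lit 7) (nat_lit 13))
    (@En.i (nat_lit 7074) (nat_lit 14) (nat_lit 7))
    (@En.i (nat_lit 11143) (nat_lit 9) (nat_lit 13))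
    (@En.n l11 (nat_lit 7027) (nat_lit 9) (nat_lit 2))
    (@En.n l117 (nat_lit 7030) (nat_lit 10) (nat_lit 3))
    (@En.n l781 (nat_lit 13131) (nat_lit 0) (nat_lit 14))
    (@En.i (nat_lit 8046) (nat_lit 13) (nat_lit 6))
    (@En.i (nat_lit 8299) (nat_lit 14) (nat_lit 13))
    (@En.n l2125 (nat_lit 7295) (nat_lit 4) (nat_lit 9))
    (@En.n l17 (nat_lit 7027) (nat_lit 15) (nat_lit 2))))
  (@Cl.mk (nat_lit 0x20008000d0006000e00030002000d000c00080003000c0004000a000e0004) (nat_lit 0x320300b82010770) (nat_lit 16) Lb.e (@T16.mk En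
    (@En.n l29001 (nat_lit 7034) (nat_lit 6) (nat_lit 4))
    (@En.i (nat_lit 3781) (nat_lit 1) (nat_lit 14))
    (@En.n l1251 (nat_lit 6960) (nat_lit 2) (nat_lit 10))
    (@En.n l4263 (nat_lit 3293) (nat_lit 3) (nat_lit 4))
    (@En.n l564 (nat_lit 3982) (nat_lit 11) (nat_lit 12))
    (@En.n l7 (nat_lit 7027) (nat_lit 5) (nat_lit 3))
    (@En.n l10065 (nat_lit 4804) (nat_lit 6) (nat_lit 8))
    (@En.n l644 (nat_lit 7031) (nat_lit 8) (nat_lit 12))
    (@En.i (nat_lit 11145) (nat_lit 9) (nat_lit 13))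
    (@En.n l11 (nat_lit 7028) (nat_lit 9) (nat_lit 2))
    (@En.n l117 (nat_lit 7029) (nat_lit 10) (nat_lit 3))
    (@En.n l781 (nat_lit 13129) (nat_lit 0) (nat_lit 14))
    (@En.i (nat_lit 5741) (nat_lit 13) (nat_lit 6))
    (@En.i (nat_lit 8300) (nat_lit 14) (nat_lit 13))
    (@En.n l2125 (nat_lit 7421) (nat_lit 4) (nat_lit 8))
    (@En.n l17 (nat_lit 7028) (nat_lit 15) (nat_lit 2))))
  (@Cl.mk (nat_lit 0x20008000d000d000700030003000d000c00080003000c00040009000e0004) (nat_lit 0x543000b82010270) (nat_lit 16) Lb.e (@T16.mk En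
    (@En.n l25013 (nat_lit 7036) (nat_lit 5) (nat_lit 4))
    (@En.i (nat_lit 3784) (nat_lit 1) (nat_lit 14))
    (@En.n l17308 (nat_lit 5566) (nat_lit 2) (nat_lit 9))
    (@En.n l34687 (nat_lit 3291) (nat_lit 3) (nat_lit 4))
    (@En.n l21138 (nat_lit 3981) (nat_lit 10) (nat_lit 12))
    (@En.n l7 (nat_lit 7030) (nat_lit 5) (nat_lit 3))
    (@En.n l17308 (nat_lit 3991) (nat_lit 6) (nat_lit 8))
    (@En.n l644 (nat_lit 7032) (nat_lit 8) (nat_lit 12))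
    (@En.n l3528 (nat_lit 11140) (nat_lit 9) (nat_lit 13))
    (@En.n l23051 (nat_lit 7067) (nat_lit 13) (nat_lit 3))
    (@En.n l152 (nat_lit 7028) (nat_lit 10) (nat_lit 3))
    (@En.i (nat_lit 6472) (nat_lit 0) (nat_lit 7))
    (@En.n l619 (nat_lit 7028) (nat_lit 13) (nat_lit 13))
    (@En.i (nat_lit 8305) (nat_lit 14) (nat_lit 13))
    (@En.i (nat_lit 7422) (nat_lit 3) (nat_lit 8))
    (@En.n l17 (nat_lit 7029) (nat_lit 15) (nat_lit 2))))
  (@Cl.mk (nat_lit 0x20009000d000d000700030003000d0007000d0003000c00030009000e0004) (nat_lit 0x446000a09060260) (nat_lit 16) Lb.e (@T16.mk En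
    (@En.i (nat_lit 7035) (nat_lit 5) (nat_lit 4))
    (@En.i (nat_lit 3718) (nat_lit 1) (nat_lit 14))
    (@En.n l3531 (nat_lit 6982) (nat_lit 2) (nat_lit 9))
    (@En.i (nat_lit 7032) (nat_lit 3) (nat_lit 3))
    (@En.i (nat_lit 6911) (nat_lit 0) (nat_lit 12))
    (@En.i (nat_lit 7029) (nat_lit 5) (nat_lit 3))
    (@En.n l3531 (nat_lit 969) (nat_lit 7) (nat_lit 13))
    (@En.i (nat_lit 7068) (nat_lit 7) (nat_lit 7))
    (@En.i (nat_lit 11141) (nat_lit 9) (nat_lit 13))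
    (@En.i (nat_lit 7066) (nat_lit 13) (nat_lit 3))
    (@En.n l152 (nat_lit 7027) (nat_lit 10) (nat_lit 3))
    (@En.i (nat_lit 6471) (nat_lit 0) (nat_lit 7))
    (@En.n l619 (nat_lit 7027) (nat_lit 13) (nat_lit 13))
    (@En.i (nat_lit 8303) (nat_lit 14) (nat_lit 13))
    (@En.i (nat_lit 7216) (nat_lit 3) (nat_lit 9))
    (@En.n l17 (nat_lit 7030) (nat_lit 15) (nat_lit 2))))
  (@Cl.mk (nat_lit 0x20009000d0006000e00030002000c0007000d000b00040003000a000e0005) (nat_lit 0x42030070a200760) (nat_lit 16) Lb.e (@T16.mk En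
    (@En.n l3928 (nat_lit 7037) (nat_lit 6) (nat_lit 5))
    (@En.i (nat_lit 3779) (nat_lit 8) (nat_lit 14))
    (@En.n l998 (nat_lit 7797) (nat_lit 2) (nat_lit 10))
    (@En.n l50 (nat_lit 7027) (nat_lit 3) (nat_lit 3))
    (@En.i (nat_lit 3290) (nat_lit 4) (nat_lit 4))
    (@En.n l217 (nat_lit 7025) (nat_lit 12) (nat_lit 11))
    (@En.n l253 (nat_lit 968) (nat_lit 7) (nat_lit 13))
    (@En.i (nat_lit 7078) (nat_lit 14) (nat_lit 7))
    (@En.i (nat_lit 10970) (nat_lit 9) (nat_lit 12))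
    (@En.n l11 (nat_lit 7031) (nat_lit 9) (nat_lit 2))
    (@En.n l117 (nat_lit 7032) (nat_lit 10) (nat_lit 3))
    (@En.n l781 (nat_lit 13130) (nat_lit 0) (nat_lit 14))
    (@En.i (nat_lit 5745) (nat_lit 13) (nat_lit 6))
    (@En.i (nat_lit 8298) (nat_lit 14) (nat_lit 13))
    (@En.n l3928 (nat_lit 4346) (nat_lit 4) (nat_lit 9))
    (@En.n l17 (nat_lit 7031) (nat_lit 15) (nat_lit 2))))
  (@Cl.mk (nat_lit 0x20009000d000d000700030003000c0007000d000b000400030009000e0005) (nat_lit 0x41300070a200360) (nat_lit 16) Lb.e (@T16.mk En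
    (@En.i (nat_lit 7052) (nat_lit 5) (nat_lit 5))
    (@En.i (nat_lit 3713) (nat_lit 1) (nat_lit 14))
    (@En.n l3531 (nat_lit 7091) (nat_lit 2) (nat_lit 9))
    (@En.n l50 (nat_lit 7030) (nat_lit 3) (nat_lit 3))
    (@En.i (nat_lit 3288) (nat_lit 4) (nat_lit 4))
    (@En.n l217 (nat_lit 3927) (nat_lit 11) (nat_lit 11))
    (@En.n l3531 (nat_lit 970) (nat_lit 7) (nat_lit 13))
    (@En.i (nat_lit 7072) (nat_lit 7) (nat_lit 7))
    (@En.i (nat_lit 11550) (nat_lit 9) (nat_lit 12))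
    (@En.i (nat_lit 7054) (nat_lit 13) (nat_lit 3))
    (@En.n l152 (nat_lit 7031) (nat_lit 10) (nat_lit 3))
    (@En.i (nat_lit 6473) (nat_lit 0) (nat_lit 7))
    (@En.n l619 (nat_lit 7031) (nat_lit 13) (nat_lit 13))
    (@En.i (nat_lit 4629) (nat_lit 14) (nat_lit 13))
    (@En.i (nat_lit 4347) (nat_lit 3) (nat_lit 9))
    (@En.n l17 (nat_lit 7032) (nat_lit 15) (nat_lit 2))))
  (@Cl.mk (nat_lit 0x2000d0007000c0003000c000c0004000b000400040009000d0005000e0003) (nat_lit 0x901098030034030) (nat_lit 16) Lb.e (@T16.mk En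
    (@En.n l345 (nat_lit 7035) (nat_lit 15) (nat_lit 3))
    (@En.i (nat_lit 13133) (nat_lit 0) (nat_lit 14))
    (@En.i (nat_lit 8019) (nat_lit 2) (nat_lit 5))
    (@En.i (nat_lit 8304) (nat_lit 6) (nat_lit 13))
    (@En.n l899 (nat_lit 7303) (nat_lit 4) (nat_lit 9))
    (@En.n l152 (nat_lit 7064) (nat_lit 12) (nat_lit 4))
    (@En.n l3851 (nat_lit 7025) (nat_lit 6) (nat_lit 4))
    (@En.n l617 (nat_lit 6964) (nat_lit 8) (nat_lit 11))
    (@En.n l2125 (nat_lit 5525) (nat_lit 8) (nat_lit 4))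
    (@En.n l3536 (nat_lit 7027) (nat_lit 4) (nat_lit 12))
    (@En.n l9182 (nat_lit 5521) (nat_lit 11) (nat_lit 12))
    (@En.n l2869 (nat_lit 7034) (nat_lit 11) (nat_lit 3))
    (@En.n l766 (nat_lit 2904) (nat_lit 0) (nat_lit 12))
    (@En.i (nat_lit 7079) (nat_lit 14) (nat_lit 7))
    (@En.i (nat_lit 11149) (nat_lit 2) (nat_lit 13))
    (@En.n l7 (nat_lit 7033) (nat_lit 15) (nat_lit 2))))
  (@Cl.mk (nat_lit 0x2000d000b00080003000c000c0005000b000400040008000d0005000e0003) (nat_lit 0xa72092030024050) (nat_lit 16) Lb.e (@T16.mk En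
    (@En.n l25356 (nat_lit 7036) (nat_lit 15) (nat_lit 3))
    (@En.n l5845 (nat_lit 13132) (nat_lit 0) (nat_lit 14))
    (@En.i (nat_lit 8020) (nat_lit 2) (nat_lit 5))
    (@En.n l649 (nat_lit 8307) (nat_lit 2) (nat_lit 13))
    (@En.n l9938 (nat_lit 7418) (nat_lit 4) (nat_lit 8))
    (@En.n l55 (nat_lit 7065) (nat_lit 12) (nat_lit 4))
    (@En.n l8341 (nat_lit 7026) (nat_lit 6) (nat_lit 4))
    (@En.n l5845 (nat_lit 6961) (nat_lit 8) (nat_lit 11))
    (@En.i (nat_lit 5571) (nat_lit 8) (nat_lit 5))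
    (@En.n l28928 (nat_lit 7028) (nat_lit 4) (nat_lit 12))
    (@En.n l9921 (nat_lit 5431) (nat_lit 11) (nat_lit 12))
    (@En.n l1865 (nat_lit 7033) (nat_lit 11) (nat_lit 3))
    (@En.n l4758 (nat_lit 4595) (nat_lit 0) (nat_lit 8))
    (@En.n l9938 (nat_lit 7037) (nat_lit 14) (nat_lit 11))
    (@En.i (nat_lit 11111) (nat_lit 2) (nat_lit 13))
    (@En.n l17 (nat_lit 7034) (nat_lit 15) (nat_lit 2))))
  (@Cl.mk (nat_lit 0x30003000d0007000c0003000c000c0004000a000400040009000d000d0006) (nat_lit 0x90403705003550) (nat_lit 16) Lb.e (@T16.mk En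
    (@En.i (nat_lit 5175) (nat_lit 0) (nat_lit 6))
    (@En.n l2749 (nat_lit 7033) (nat_lit 3) (nat_lit 13))
    (@En.i (nat_lit 8309) (nat_lit 6) (nat_lit 13))
    (@En.n l15535 (nat_lit 7207) (nat_lit 3) (nat_lit 9))
    (@En.n l1071 (nat_lit 7058) (nat_lit 12) (nat_lit 4))
    (@En.i (nat_lit 3927) (nat_lit 5) (nat_lit 4))
    (@En.n l3531 (nat_lit 6981) (nat_lit 0) (nat_lit 10))
    (@En.n l22467 (nat_lit 5523) (nat_lit 7) (nat_lit 4))
    (@En.n l61 (nat_lit 7030) (nat_lit 4) (nat_lit 12))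
    (@En.n l22708 (nat_lit 5516) (nat_lit 10) (nat_lit 12))
    (@En.n l25013 (nat_lit 7036) (nat_lit 10) (nat_lit 3))
    (@En.n l3531 (nat_lit 3048) (nat_lit 0) (nat_lit 12))
    (@En.n l22708 (nat_lit 7073) (nat_lit 13) (nat_lit 7))
    (@En.i (nat_lit 11152) (nat_lit 2) (nat_lit 13))
    (@En.n l4489 (nat_lit 7060) (nat_lit 13) (nat_lit 3))
    (@En.n l2710 (nat_lit 7033) (nat_lit 0) (nat_lit 3))))
  (@Cl.mk (nat_lit 0x30003000d000b00080003000c000c0005000a000400040008000d000d0006) (nat_lit 0xa7209205002350) (nat_lit 16) Lb.e (@T16.mk En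
    (@En.n l39686 (nat_lit 6476) (nat_lit 0) (nat_lit 6))
    (@En.n l39687 (nat_lit 7034) (nat_lit 3) (nat_lit 13))
    (@En.n l28521 (nat_lit 8595) (nat_lit 2) (nat_lit 13))
    (@En.n l7444 (nat_lit 7417) (nat_lit 3) (nat_lit 8))
    (@En.n l39688 (nat_lit 7062) (nat_lit 12) (nat_lit 4))
    (@En.n l28521 (nat_lit 3929) (nat_lit 5) (nat_lit 4))
    (@En.n l27584 (nat_lit 5565) (nat_lit 0) (nat_lit 10))
    (@En.n l39689 (nat_lit 5570) (nat_lit 7) (nat_lit 5))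
    (@En.n l39690 (nat_lit 7029) (nat_lit 4) (nat_lit 12))
    (@En.n l7304 (nat_lit 5429) (nat_lit 10) (nat_lit 12))
    (@En.n l39691 (nat_lit 7035) (nat_lit 10) (nat_lit 3))
    (@En.n l39692 (nat_lit 4593) (nat_lit 0) (nat_lit 8))
    (@En.n l39693 (nat_lit 7052) (nat_lit 13) (nat_lit 11))
    (@En.n l3517 (nat_lit 11110) (nat_lit 2) (nat_lit 13))
    (@En.n l14202 (nat_lit 7063) (nat_lit 13) (nat_lit 3))
    (@En.n l39694 (nat_lit 7034) (nat_lit 0) (nat_lit 3))))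
  (@Cl.mk (nat_lit 0x2000b0007000c000b000b00050004000b000500050009000d0005000e0003) (nat_lit 0x601430040034070) (nat_lit 16) Lb.e (@T16.mk En
    (@En.n l16865 (nat_lit 7052) (nat_lit 15) (nat_lit 3))
    (@En.i (nat_lit 13134) (nat_lit 0) (nat_lit 14))
    (@En.i (nat_lit 8018) (nat_lit 2) (nat_lit 5))
    (@En.n l1003 (nat_lit 8599) (nat_lit 4) (nat_lit 13))
    (@En.i (nat_lit 4339) (nat_lit 4) (nat_lit 9))
    (@En.n l11401 (nat_lit 7057) (nat_lit 11) (nat_lit 5))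
    (@En.n l18752 (nat_lit 7016) (nat_lit 6) (nat_lit 5))
    (@En.n l14206 (nat_lit 7800) (nat_lit 8) (nat_lit 11))
    (@En.n l1003 (nat_lit 7033) (nat_lit 8) (nat_lit 4))
    (@En.n l17 (nat_lit 2962) (nat_lit 9) (nat_lit 5))
    (@En.n l8906 (nat_lit 7031) (nat_lit 5) (nat_lit 11))
    (@En.n l11403 (nat_lit 5554) (nat_lit 12) (nat_lit 11))
    (@En.n l14234 (nat_lit 3035) (nat_lit 13) (nat_lit 12))
    (@En.n l22641 (nat_lit 7164) (nat_lit 14) (nat_lit 7))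
    (@En.i (nat_lit 10963) (nat_lit 14) (nat_lit 11))
    (@En.n l50 (nat_lit 7037) (nat_lit 15) (nat_lit 2))))
  (@Cl.mk (nat_lit 0x20008000d000c000a0003000a0004000900080006000e00060002000e0007) (nat_lit 0x2862080710900c0) (nat_lit 16) Lb.e (@T16.mk En
    (@En.n l23339 (nat_lit 6036) (nat_lit 14) (nat_lit 7))
    (@En.n l23340 (nat_lit 9976) (nat_lit 1) (nat_lit 14))
    (@En.n l28 (nat_lit 7038) (nat_lit 2) (nat_lit 2))
    (@En.n l14276 (nat_lit 6670) (nat_lit 3) (nat_lit 6))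
    (@En.n l11792 (nat_lit 6472) (nat_lit 5) (nat_lit 14))
    (@En.n l4991 (nat_lit 8975) (nat_lit 5) (nat_lit 6))
    (@En.i (nat_lit 3434) (nat_lit 6) (nat_lit 8))
    (@En.n l23341 (nat_lit 10258) (nat_lit 4) (nat_lit 9))
    (@En.n l23340 (nat_lit 5133) (nat_lit 8) (nat_lit 4))
    (@En.i (nat_lit 7730) (nat_lit 10) (nat_lit 10))
    (@En.n l11722 (nat_lit 6043) (nat_lit 10) (nat_lit 3))
    (@En.n l3866 (nat_lit 1913) (nat_lit 0) (nat_lit 10))
    (@En.n l16314 (nat_lit 7039) (nat_lit 13) (nat_lit 12))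
    (@En.n l23341 (nat_lit 12816) (nat_lit 14) (nat_lit 13))
    (@En.n l23342 (nat_lit 1920) (nat_lit 12) (nat_lit 8))
    (@En.n l50 (nat_lit 7038) (nat_lit 15) (nat_lit 2))))
  (@Cl.mk (nat_lit 0x20008000c0009000d000900040003000900080007000e00070002000e0007) (nat_lit 0x2558000710800c0) (nat_lit 16) Lb.e (@T16.mk En
    (@En.n l97 (nat_lit 6034) (nat_lit 14) (nat_lit 7))
    (@En.n l3866 (nat_lit 8911) (nat_lit 1) (nat_lit 14))
    (@En.n l17 (nat_lit 7039) (nat_lit 2) (nat_lit 2))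
    (@En.i (nat_lit 7041) (nat_lit 3) (nat_lit 7))
    (@En.n l936 (nat_lit 6473) (nat_lit 5) (nat_lit 14))
    (@En.n l55 (nat_lit 9016) (nat_lit 5) (nat_lit 7))
    (@En.i (nat_lit 3435) (nat_lit 6) (nat_lit 8))
    (@En.n l23326 (nat_lit 8208) (nat_lit 4) (nat_lit 9))
    (@En.n l50 (nat_lit 6043) (nat_lit 8) (nat_lit 3))
    (@En.n l10265 (nat_lit 5195) (nat_lit 9) (nat_lit 4))
    (@En.n l217 (nat_lit 7149) (nat_lit 11) (nat_lit 9))
    (@En.n l1100 (nat_lit 2048) (nat_lit 12) (nat_lit 13))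
    (@En.i (nat_lit 1684) (nat_lit 13) (nat_lit 9))
    (@En.n l5588 (nat_lit 12820) (nat_lit 14) (nat_lit 12))
    (@En.n l23327 (nat_lit 1918) (nat_lit 12) (nat_lit 8))
    (@En.n l67 (nat_lit 7039) (nat_lit 15) (nat_lit 2))))
noncomputable def a440 : T16 Cl := @T16.mk Cl
  (@Cl.mk (nat_lit 0x20007000d0008000c0003000a000a0004000a0009000800060006000e0006) (nat_lit 0xb3601308030090) (nat_lit 16) Lb.e (@T16.mk En
    (@En.n l9968 (nat_lit 6039) (nat_lit 5) (nat_lit 6))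
    (@En.n l3866 (nat_lit 9339) (nat_lit 1) (nat_lit 14))
    (@En.n l1071 (nat_lit 7048) (nat_lit 10) (nat_lit 6))
    (@En.n l18765 (nat_lit 2315) (nat_lit 3) (nat_lit 6))
    (@En.n l18766 (nat_lit 9040) (nat_lit 4) (nat_lit 8))
    (@En.n l9885 (nat_lit 7385) (nat_lit 5) (nat_lit 9))
    (@En.n l18767 (nat_lit 8757) (nat_lit 7) (nat_lit 10))
    (@En.n l3532 (nat_lit 2592) (nat_lit 7) (nat_lit 4))
    (@En.n l61 (nat_lit 6043) (nat_lit 9) (nat_lit 10))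
    (@En.n l8084 (nat_lit 2593) (nat_lit 10) (nat_lit 10))
    (@En.n l18768 (nat_lit 6670) (nat_lit 10) (nat_lit 3))
    (@En.n l2764 (nat_lit 2057) (nat_lit 12) (nat_lit 12))
    (@En.n l10122 (nat_lit 1683) (nat_lit 13) (nat_lit 8))
    (@En.n l18767 (nat_lit 11427) (nat_lit 14) (nat_lit 13))
    (@En.n l18769 (nat_lit 6807) (nat_lit 3) (nat_lit 7))
    (@En.n l67 (nat_lit 7040) (nat_lit 15) (nat_lit 2))))
  (@Cl.mk (nat_lit 0x20007000b0008000c0009000900050004000a0009000800070007000e0006) (nat_lit 0x45801008140070) (nat_lit 16) Lb.e (@T16.mk En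
    (@En.n l9968 (nat_lit 6042) (nat_lit 8) (nat_lit 6))
    (@En.n l20528 (nat_lit 10219) (nat_lit 1) (nat_lit 14))
    (@En.n l8639 (nat_lit 7047) (nat_lit 9) (nat_lit 7))
    (@En.n l27399 (nat_lit 7046) (nat_lit 3) (nat_lit 7))
    (@En.n l27400 (nat_lit 9014) (nat_lit 4) (nat_lit 8))
    (@En.n l17937 (nat_lit 4608) (nat_lit 5) (nat_lit 9))
    (@En.n l23326 (nat_lit 8141) (nat_lit 7) (nat_lit 10))
    (@En.n l50 (nat_lit 7040) (nat_lit 7) (nat_lit 4))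
    (@En.n l27401 (nat_lit 7042) (nat_lit 8) (nat_lit 5))
    (@En.n l61 (nat_lit 7039) (nat_lit 10) (nat_lit 9))
    (@En.n l217 (nat_lit 7701) (nat_lit 11) (nat_lit 9))
    (@En.n l20528 (nat_lit 2050) (nat_lit 12) (nat_lit 12))
    (@En.n l3567 (nat_lit 1681) (nat_lit 13) (nat_lit 8))
    (@En.n l27402 (nat_lit 11512) (nat_lit 14) (nat_lit 11))
    (@En.n l27403 (nat_lit 5965) (nat_lit 13) (nat_lit 7))
    (@En.n l67 (nat_lit 7041) (nat_lit 15) (nat_lit 2))))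
  (@Cl.mk (nat_lit 0x20007000b00060009000d000a00050003000a000900070006000a000e0006) (nat_lit 0x40680007000480) (nat_lit 16) Lb.e (@T16.mk En
    (@En.n l2869 (nat_lit 7130) (nat_lit 8) (nat_lit 6))
    (@En.n l36757 (nat_lit 10223) (nat_lit 1) (nat_lit 14))
    (@En.n l11 (nat_lit 7044) (nat_lit 2) (nat_lit 10))
    (@En.n l36757 (nat_lit 7045) (nat_lit 3) (nat_lit 6))
    (@En.n l36758 (nat_lit 9280) (nat_lit 4) (nat_lit 7))
    (@En.n l36759 (nat_lit 7215) (nat_lit 5) (nat_lit 9))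
    (@En.n l36760 (nat_lit 10372) (nat_lit 7) (nat_lit 10))
    (@En.n l36761 (nat_lit 6881) (nat_lit 7) (nat_lit 3))
    (@En.n l36762 (nat_lit 5192) (nat_lit 8) (nat_lit 5))
    (@En.n l36763 (nat_lit 7703) (nat_lit 10) (nat_lit 10))
    (@En.n l36764 (nat_lit 2288) (nat_lit 11) (nat_lit 13))
    (@En.n l36765 (nat_lit 7039) (nat_lit 12) (nat_lit 9))
    (@En.n l36759 (nat_lit 2593) (nat_lit 13) (nat_lit 6))
    (@En.n l476 (nat_lit 11724) (nat_lit 14) (nat_lit 11))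
    (@En.n l899 (nat_lit 5964) (nat_lit 6) (nat_lit 7))
    (@En.n l17 (nat_lit 7042) (nat_lit 15) (nat_lit 2))))
  (@Cl.mk (nat_lit 0x20006000a000d0008000c0003000a00060004000b000a00080006000e0005) (nat_lit 0x47680100805050) (nat_lit 16) Lb.e (@T16.mk En
    (@En.n l27426 (nat_lit 7050) (nat_lit 6) (nat_lit 5))
    (@En.n l745 (nat_lit 8922) (nat_lit 1) (nat_lit 14))
    (@En.n l27427 (nat_lit 4269) (nat_lit 2) (nat_lit 6))
    (@En.n l27428 (nat_lit 9278) (nat_lit 3) (nat_lit 8))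
    (@En.n l19236 (nat_lit 7331) (nat_lit 4) (nat_lit 10))
    (@En.n l3112 (nat_lit 10388) (nat_lit 6) (nat_lit 11))
    (@En.n l3480 (nat_lit 2311) (nat_lit 6) (nat_lit 4))
    (@En.n l27429 (nat_lit 7044) (nat_lit 7) (nat_lit 6))
    (@En.n l27430 (nat_lit 7042) (nat_lit 9) (nat_lit 10))
    (@En.n l13362 (nat_lit 7046) (nat_lit 9) (nat_lit 3))
    (@En.n l804 (nat_lit 2285) (nat_lit 11) (nat_lit 12))
    (@En.n l27431 (nat_lit 7041) (nat_lit 12) (nat_lit 8))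
    (@En.i (nat_lit 7048) (nat_lit 5) (nat_lit 13))
    (@En.n l27432 (nat_lit 11721) (nat_lit 14) (nat_lit 10))
    (@En.n l27433 (nat_lit 5967) (nat_lit 13) (nat_lit 6))
    (@En.n l28 (nat_lit 7043) (nat_lit 15) (nat_lit 2))))
  (@Cl.mk (nat_lit 0x20006000a0006000d0009000d000300060003000b000a0007000a000e0005) (nat_lit 0x40879000800370) (nat_lit 16) Lb.e (@T16.mk En
    (@En.n l2869 (nat_lit 7051) (nat_lit 7) (nat_lit 5))
    (@En.n l4871 (nat_lit 8927) (nat_lit 1) (nat_lit 14))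
    (@En.i (nat_lit 3889) (nat_lit 2) (nat_lit 10))
    (@En.n l4871 (nat_lit 9279) (nat_lit 3) (nat_lit 7))
    (@En.n l6075 (nat_lit 7214) (nat_lit 4) (nat_lit 10))
    (@En.n l476 (nat_lit 10383) (nat_lit 13) (nat_lit 11))
    (@En.n l39045 (nat_lit 6879) (nat_lit 6) (nat_lit 3))
    (@En.n l476 (nat_lit 5191) (nat_lit 7) (nat_lit 6))
    (@En.n l39046 (nat_lit 7045) (nat_lit 8) (nat_lit 3))
    (@En.n l39047 (nat_lit 2287) (nat_lit 0) (nat_lit 13))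
    (@En.i (nat_lit 7042) (nat_lit 11) (nat_lit 9))
    (@En.n l39048 (nat_lit 7043) (nat_lit 12) (nat_lit 13))
    (@En.n l6078 (nat_lit 2595) (nat_lit 13) (nat_lit 6))
    (@En.n l476 (nat_lit 10761) (nat_lit 14) (nat_lit 10))
    (@En.n l899 (nat_lit 5969) (nat_lit 5) (nat_lit 6))
    (@En.n l17 (nat_lit 7044) (nat_lit 15) (nat_lit 2))))
  (@Cl.mk (nat_lit 0x20006000a0006000d000c000a000300060004000b000a0006000a000e0005) (nat_lit 0x507240001003a0) (nat_lit 16) Lb.e (@T16.mk En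
    (@En.n l22266 (nat_lit 7122) (nat_lit 7) (nat_lit 5))
    (@En.i (nat_lit 10221) (nat_lit 1) (nat_lit 14))
    (@En.n l37660 (nat_lit 3075) (nat_lit 2) (nat_lit 10))
    (@En.n l32213 (nat_lit 9284) (nat_lit 3) (nat_lit 6))
    (@En.n l17334 (nat_lit 7212) (nat_lit 4) (nat_lit 10))
    (@En.n l37368 (nat_lit 6219) (nat_lit 13) (nat_lit 11))
    (@En.i (nat_lit 6878) (nat_lit 6) (nat_lit 4))
    (@En.n l18243 (nat_lit 8060) (nat_lit 7) (nat_lit 6))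
    (@En.n l37661 (nat_lit 7044) (nat_lit 8) (nat_lit 3))
    (@En.n l97 (nat_lit 7709) (nat_lit 0) (nat_lit 10))
    (@En.n l3866 (nat_lit 6879) (nat_lit 11) (nat_lit 12))
    (@En.n l25065 (nat_lit 7046) (nat_lit 12) (nat_lit 13))
    (@En.n l31236 (nat_lit 2599) (nat_lit 13) (nat_lit 6))
    (@En.n l1684 (nat_lit 11722) (nat_lit 14) (nat_lit 10))
    (@En.n l23597 (nat_lit 5971) (nat_lit 5) (nat_lit 6))
    (@En.n l7 (nat_lit 7045) (nat_lit 15) (nat_lit 2))))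
  (@Cl.mk (nat_lit 0x20006000a000d000b00090003000a00060005000b000a00070006000e0005) (nat_lit 0x46150500900020) (nat_lit 16) Lb.e (@T16.mk En
    (@En.n l30443 (nat_lit 5313) (nat_lit 6) (nat_lit 5))
    (@En.n l7246 (nat_lit 8921) (nat_lit 1) (nat_lit 14))
    (@En.n l18 (nat_lit 4267) (nat_lit 2) (nat_lit 6))
    (@En.n l30444 (nat_lit 9288) (nat_lit 3) (nat_lit 7))
    (@En.i (nat_lit 7360) (nat_lit 4) (nat_lit 10))
    (@En.n l30445 (nat_lit 6220) (nat_lit 6) (nat_lit 11))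
    (@En.n l11583 (nat_lit 2315) (nat_lit 6) (nat_lit 5))
    (@En.n l18474 (nat_lit 7045) (nat_lit 7) (nat_lit 6))
    (@En.n l30446 (nat_lit 6477) (nat_lit 9) (nat_lit 10))
    (@En.n l5542 (nat_lit 7043) (nat_lit 9) (nat_lit 3))
    (@En.n l30447 (nat_lit 7708) (nat_lit 11) (nat_lit 9))
    (@En.n l30448 (nat_lit 2314) (nat_lit 12) (nat_lit 11))
    (@En.n l30445 (nat_lit 7049) (nat_lit 5) (nat_lit 13))
    (@En.n l30449 (nat_lit 11723) (nat_lit 14) (nat_lit 10))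
    (@En.n l107 (nat_lit 5396) (nat_lit 13) (nat_lit 6))
    (@En.n l3 (nat_lit 7046) (nat_lit 15) (nat_lit 2))))
  (@Cl.mk (nat_lit 0x200060005000b000a00090007000e000500020006000a0007000b000e0009) (nat_lit 0x130200040741) (nat_lit 16) Lb.e (@T16.mk En
    (@En.n l3247 (nat_lit 7041) (nat_lit 10) (nat_lit 9))
    (@En.n l13831 (nat_lit 5199) (nat_lit 11) (nat_lit 14))
    (@En.n l801 (nat_lit 2063) (nat_lit 2) (nat_lit 11))
    (@En.n l1029 (nat_lit 1680) (nat_lit 13) (nat_lit 7))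
    (@En.n l13831 (nat_lit 11511) (nat_lit 4) (nat_lit 10))
    (@En.n l10719 (nat_lit 6621) (nat_lit 5) (nat_lit 6))
    (@En.n l28 (nat_lit 7047) (nat_lit 6) (nat_lit 2))
    (@En.n l5292 (nat_lit 7154) (nat_lit 7) (nat_lit 5))
    (@En.n l13832 (nat_lit 11130) (nat_lit 9) (nat_lit 14))
    (@En.n l13833 (nat_lit 4268) (nat_lit 2) (nat_lit 7))
    (@En.n l644 (nat_lit 8087) (nat_lit 11) (nat_lit 9))
    (@En.n l75 (nat_lit 4614) (nat_lit 4) (nat_lit 10))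
    (@En.n l5134 (nat_lit 8133) (nat_lit 13) (nat_lit 11))
    (@En.n l17 (nat_lit 7048) (nat_lit 14) (nat_lit 5))
    (@En.i (nat_lit 7043) (nat_lit 7) (nat_lit 6))
    (@En.n l3 (nat_lit 7047) (nat_lit 15) (nat_lit 2))))
  (@Cl.mk (nat_lit 0x20005000b000a00090006000e000500020006000d0007000b0003000e000a) (nat_lit 0x509000607052) (nat_lit 16) Lb.e (@T16.mk En
    (@En.n l345 (nat_lit 7040) (nat_lit 9) (nat_lit 10))
    (@En.i (nat_lit 7047) (nat_lit 1) (nat_lit 14))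
    (@En.n l3108 (nat_lit 7049) (nat_lit 2) (nat_lit 3))
    (@En.i (nat_lit 2064) (nat_lit 3) (nat_lit 11))
    (@En.i (nat_lit 1682) (nat_lit 4) (nat_lit 7))
    (@En.n l3112 (nat_lit 11505) (nat_lit 6) (nat_lit 13))
    (@En.i (nat_lit 6623) (nat_lit 6) (nat_lit 6))
    (@En.n l28 (nat_lit 7048) (nat_lit 7) (nat_lit 2))
    (@En.n l394 (nat_lit 7153) (nat_lit 8) (nat_lit 5))
    (@En.n l4412 (nat_lit 11129) (nat_lit 10) (nat_lit 14))
    (@En.n l79 (nat_lit 4266) (nat_lit 2) (nat_lit 6))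
    (@En.n l644 (nat_lit 8085) (nat_lit 12) (nat_lit 9))
    (@En.i (nat_lit 7402) (nat_lit 13) (nat_lit 10))
    (@En.n l3112 (nat_lit 10241) (nat_lit 14) (nat_lit 11))
    (@En.i (nat_lit 6886) (nat_lit 6) (nat_lit 5))
    (@En.n l3 (nat_lit 7048) (nat_lit 15) (nat_lit 2))))
  (@Cl.mk (nat_lit 0x20006000b000a00080006000e000500020006000d000a00080003000e000a) (nat_lit 0x90505000552054) (nat_lit 16) Lb.e (@T16.mk En
    (@En.n l68 (nat_lit 6670) (nat_lit 9) (nat_lit 10))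
    (@En.n l6781 (nat_lit 5307) (nat_lit 1) (nat_lit 14))
    (@En.n l930 (nat_lit 7048) (nat_lit 2) (nat_lit 3))
    (@En.n l6782 (nat_lit 1912) (nat_lit 12) (nat_lit 8))
    (@En.n l6783 (nat_lit 7047) (nat_lit 4) (nat_lit 10))
    (@En.i (nat_lit 11504) (nat_lit 6) (nat_lit 13))
    (@En.n l6784 (nat_lit 6624) (nat_lit 6) (nat_lit 6))
    (@En.n l7 (nat_lit 7049) (nat_lit 7) (nat_lit 2))
    (@En.n l6785 (nat_lit 5314) (nat_lit 8) (nat_lit 5))
    (@En.n l6786 (nat_lit 11131) (nat_lit 10) (nat_lit 14))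
    (@En.n l6787 (nat_lit 3739) (nat_lit 2) (nat_lit 6))
    (@En.n l6788 (nat_lit 8646) (nat_lit 12) (nat_lit 8))
    (@En.n l6787 (nat_lit 7404) (nat_lit 4) (nat_lit 10))
    (@En.i (nat_lit 10244) (nat_lit 14) (nat_lit 11))
    (@En.n l6789 (nat_lit 6663) (nat_lit 6) (nat_lit 6))
    (@En.n l67 (nat_lit 7049) (nat_lit 15) (nat_lit 2))))
  (@Cl.mk (nat_lit 0x3000900060004000b000b000b00090007000500050005000a000d0007000c) (nat_lit 0x400892400003603) (nat_lit 16) Lb.e (@T16.mk En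
    (@En.i (nat_lit 885) (nat_lit 0) (nat_lit 12))
    (@En.n l27966 (nat_lit 6042) (nat_lit 4) (nat_lit 7))
    (@En.n l6238 (nat_lit 7153) (nat_lit 5) (nat_lit 13))
    (@En.n l287 (nat_lit 11717) (nat_lit 3) (nat_lit 10))
    (@En.n l11 (nat_lit 6491) (nat_lit 11) (nat_lit 5))
    (@En.n l152 (nat_lit 7160) (nat_lit 11) (nat_lit 5))
    (@En.n l6238 (nat_lit 8657) (nat_lit 6) (nat_lit 5))
    (@En.n l396 (nat_lit 3863) (nat_lit 7) (nat_lit 7))
    (@En.n l26441 (nat_lit 8769) (nat_lit 1) (nat_lit 9))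
    (@En.n l27967 (nat_lit 7126) (nat_lit 5) (nat_lit 11))
    (@En.n l27968 (nat_lit 7043) (nat_lit 5) (nat_lit 11))
    (@En.i (nat_lit 9618) (nat_lit 12) (nat_lit 11))
    (@En.n l27969 (nat_lit 2316) (nat_lit 12) (nat_lit 4))
    (@En.n l7 (nat_lit 7051) (nat_lit 14) (nat_lit 6))
    (@En.n l644 (nat_lit 7130) (nat_lit 1) (nat_lit 9))
    (@En.n l27970 (nat_lit 5313) (nat_lit 15) (nat_lit 3))))
  (@Cl.mk (nat_lit 0x300060003000b000b000b0008000b000500050005000a0005000d0008000d) (nat_lit 0x8924400030757) (nat_lit 16) Lb.e (@T16.mk En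
    (@En.i (nat_lit 2229) (nat_lit 0) (nat_lit 13))
    (@En.i (nat_lit 7130) (nat_lit 3) (nat_lit 8))
    (@En.i (nat_lit 7050) (nat_lit 2) (nat_lit 13))
    (@En.n l1393 (nat_lit 2598) (nat_lit 3) (nat_lit 5))
    (@En.n l287 (nat_lit 11719) (nat_lit 4) (nat_lit 10))
    (@En.n l11 (nat_lit 7007) (nat_lit 11) (nat_lit 5))
    (@En.n l152 (nat_lit 7912) (nat_lit 11) (nat_lit 5))
    (@En.i (nat_lit 8654) (nat_lit 7) (nat_lit 5))
    (@En.i (nat_lit 3806) (nat_lit 7) (nat_lit 11))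
    (@En.n l4780 (nat_lit 8766) (nat_lit 12) (nat_lit 8))
    (@En.n l619 (nat_lit 7124) (nat_lit 5) (nat_lit 11))
    (@En.n l1867 (nat_lit 7044) (nat_lit 5) (nat_lit 11))
    (@En.i (nat_lit 9623) (nat_lit 13) (nat_lit 11))
    (@En.n l2364 (nat_lit 6880) (nat_lit 15) (nat_lit 3))
    (@En.i (nat_lit 5197) (nat_lit 12) (nat_lit 6))
    (@En.i (nat_lit 7122) (nat_lit 15) (nat_lit 3))))
  (@Cl.mk (nat_lit 0x30003000b0007000c000b000b00050004000a000500050009000d000d0006) (nat_lit 0x60163004003350) (nat_lit 16) Lb.e (@T16.mk En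
    (@En.i (nat_lit 6477) (nat_lit 0) (nat_lit 6))
    (@En.n l15031 (nat_lit 7037) (nat_lit 3) (nat_lit 13))
    (@En.i (nat_lit 8598) (nat_lit 6) (nat_lit 13))
    (@En.n l8638 (nat_lit 4340) (nat_lit 3) (nat_lit 9))
    (@En.n l8639 (nat_lit 7056) (nat_lit 11) (nat_lit 5))
    (@En.n l50 (nat_lit 7015) (nat_lit 5) (nat_lit 5))
    (@En.n l30696 (nat_lit 7092) (nat_lit 0) (nat_lit 10))
    (@En.n l50 (nat_lit 7035) (nat_lit 7) (nat_lit 4))
    (@En.n l30697 (nat_lit 2955) (nat_lit 8) (nat_lit 5))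
    (@En.n l61 (nat_lit 7032) (nat_lit 5) (nat_lit 11))
    (@En.n l217 (nat_lit 3928) (nat_lit 11) (nat_lit 11))
    (@En.n l30698 (nat_lit 3034) (nat_lit 12) (nat_lit 12))
    (@En.n l21265 (nat_lit 7077) (nat_lit 13) (nat_lit 7))
    (@En.i (nat_lit 11498) (nat_lit 14) (nat_lit 11))
    (@En.n l30699 (nat_lit 7053) (nat_lit 13) (nat_lit 3))
    (@En.n l3203 (nat_lit 7037) (nat_lit 0) (nat_lit 3))))
  (@Cl.mk (nat_lit 0x200070003000b0007000c000b000b000500040009000500050009000e000d) (nat_lit 0x6015300400234) (nat_lit 16) Lb.e (@T16.mk En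
    (@En.n l25128 (nat_lit 7052) (nat_lit 2) (nat_lit 13))
    (@En.n l4316 (nat_lit 8675) (nat_lit 1) (nat_lit 14))
    (@En.n l14270 (nat_lit 7212) (nat_lit 2) (nat_lit 9))
    (@En.n l25129 (nat_lit 7055) (nat_lit 3) (nat_lit 5))
    (@En.i (nat_lit 7017) (nat_lit 4) (nat_lit 5))
    (@En.i (nat_lit 7095) (nat_lit 5) (nat_lit 9))
    (@En.n l15046 (nat_lit 7060) (nat_lit 6) (nat_lit 4))
    (@En.i (nat_lit 2961) (nat_lit 7) (nat_lit 5))
    (@En.n l9496 (nat_lit 7054) (nat_lit 9) (nat_lit 11))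
    (@En.n l25130 (nat_lit 5555) (nat_lit 10) (nat_lit 11))
    (@En.n l4274 (nat_lit 1598) (nat_lit 11) (nat_lit 12))
    (@En.i (nat_lit 7076) (nat_lit 12) (nat_lit 7))
    (@En.n l4316 (nat_lit 11001) (nat_lit 13) (nat_lit 11))
    (@En.n l15472 (nat_lit 7052) (nat_lit 14) (nat_lit 3))
    (@En.n l3087 (nat_lit 6618) (nat_lit 0) (nat_lit 7))
    (@En.n l50 (nat_lit 7053) (nat_lit 15) (nat_lit 2))))
  (@Cl.mk (nat_lit 0x200080003000c0007000d000b000400030008000e000500020009000e000d) (nat_lit 0x2070a2003200312) (nat_lit 16) Lb.e (@T16.mk En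
    (@En.n l1144 (nat_lit 7032) (nat_lit 13) (nat_lit 13))
    (@En.n l11 (nat_lit 4619) (nat_lit 1) (nat_lit 14))
    (@En.n l7102 (nat_lit 7215) (nat_lit 2) (nat_lit 9))
    (@En.n l17 (nat_lit 7054) (nat_lit 3) (nat_lit 2))
    (@En.n l30699 (nat_lit 7053) (nat_lit 4) (nat_lit 5))
    (@En.i (nat_lit 3711) (nat_lit 6) (nat_lit 14))
    (@En.n l4489 (nat_lit 7094) (nat_lit 6) (nat_lit 8))
    (@En.n l50 (nat_lit 7066) (nat_lit 7) (nat_lit 3))
    (@En.n l15956 (nat_lit 3289) (nat_lit 8) (nat_lit 4))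
    (@En.n l12426 (nat_lit 7108) (nat_lit 10) (nat_lit 11))
    (@En.n l4489 (nat_lit 974) (nat_lit 7) (nat_lit 13))
    (@En.n l15956 (nat_lit 7071) (nat_lit 12) (nat_lit 7))
    (@En.n l5584 (nat_lit 11035) (nat_lit 13) (nat_lit 12))
    (@En.n l11 (nat_lit 7032) (nat_lit 9) (nat_lit 3))
    (@En.n l2263 (nat_lit 5025) (nat_lit 11) (nat_lit 8))
    (@En.n l1157 (nat_lit 7054) (nat_lit 15) (nat_lit 2))))
  (@Cl.mk (nat_lit 0x200060003000a0007000b000e000b000200060005000a00050009000e000d) (nat_lit 0x6023600030153) (nat_lit 16) Lb.e (@T16.mk En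
    (@En.n l9409 (nat_lit 7056) (nat_lit 9) (nat_lit 13))
    (@En.n l1320 (nat_lit 8669) (nat_lit 10) (nat_lit 14))
    (@En.i (nat_lit 3067) (nat_lit 2) (nat_lit 9))
    (@En.n l2346 (nat_lit 5519) (nat_lit 3) (nat_lit 5))
    (@En.n l4276 (nat_lit 7671) (nat_lit 13) (nat_lit 10))
    (@En.n l55 (nat_lit 7059) (nat_lit 14) (nat_lit 5))
    (@En.n l11416 (nat_lit 4492) (nat_lit 6) (nat_lit 6))
    (@En.n l50 (nat_lit 7055) (nat_lit 7) (nat_lit 2))
    (@En.n l11562 (nat_lit 7053) (nat_lit 9) (nat_lit 11))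
    (@En.n l11563 (nat_lit 5926) (nat_lit 10) (nat_lit 14))
    (@En.i (nat_lit 2739) (nat_lit 2) (nat_lit 11))
    (@En.n l2346 (nat_lit 7169) (nat_lit 12) (nat_lit 7))
    (@En.n l1316 (nat_lit 12134) (nat_lit 4) (nat_lit 10))
    (@En.n l1320 (nat_lit 7056) (nat_lit 5) (nat_lit 3))
    (@En.i (nat_lit 5119) (nat_lit 6) (nat_lit 6))
    (@En.n l3 (nat_lit 7055) (nat_lit 15) (nat_lit 2))))

end Pool.Agent.MP_61a8e3_al.G4.K
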